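import Pool.Agent.Strip051.G.I1_8_3_16.Gn
import Pool.Agent.Strip051.PB.Corns

/-! # Certificates of the aligned corners (generated) -/

set_option linter.all false

namespace Pool.Agent.Strip051.G.I1_8_3_16.Tab.CF

open Pool.Agent.Strip051.PB

def A011E_000 :
    ∃ t, chk3 (onCell 0 67108864 0 1073741824 134217728 67108864 (corT true 1 c0F cA011E gF0q0 gF0q1 gF0q1 gF1q1 true false)) t 1 1 1 = true :=
  ⟨(T.l 1), by decide +kernel⟩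

def A011L_002 :
    ∃ t, chk3 (onCell 0 67108864 0 1073741824 134217728 67108864 (corT true 1 c0F cA011L gF0q0 gF0q1 gF2q1 gF3q1 false true)) t 1 1 1 = true :=
  ⟨(T.l 2), by decide +kernel⟩

def A011L_003 :
    ∃ t, chk3 (onCell 0 67108864 0 1073741824 134217728 67108864 (corT true 1 c0F cA011L gF0q0 gF0q1 gF3q1 gF4q1 true true)) t 1 1 1 = true :=
  ⟨(T.l 2), by decide +kernel⟩

def A011L_004 :
    ∃ t, chk3 (onCell 0 67108864 0 1073741824 134217728 67108864 (corT true 1 c0F cA011L gF0q0 gF0q1 gF4q1 gF5q1 true true)) t 1 1 1 = true :=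
  ⟨(T.l 2), by decide +kernel⟩

def A011R_030_1_16_1 :
    ∃ t, chk3 (onCell 0 67108864 0 1073741824 134217728 67108864 (corT true 1 c0F cA011R gF0q0 gF3q1 gF0q1 gF1q1 true false)) t 1 16 1 = true :=
  ⟨(T.a (T.c (T.c (T.c (T.l 204) (T.l 204)) (T.a (T.l 204) (T.l 204))) (T.c (T.l 204) (T.l 204))) (T.a (T.c (T.c (T.b (T.l 204) (T.l 204)) (T.l 204)) (T.c (T.l 204) (T.l 204))) (T.c (T.c (T.a (T.c (T.l 460) (T.l 204)) (T.b (T.l 204) (T.l 460))) (T.a (T.b (T.l 204) (T.l 460)) (T.b (T.l 204) (T.l 204)))) (T.a (T.c (T.l 204) (T.l 204)) (T.c (T.l 460) (T.l 204)))))), by decide +kernel⟩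

def A011R_030_1_17_1 :
    ∃ t, chk3 (onCell 0 67108864 0 1073741824 134217728 67108864 (corT true 1 c0F cA011R gF0q0 gF3q1 gF0q1 gF1q1 true false)) t 1 17 1 = true :=
  ⟨(T.b (T.b (T.b (T.b (T.b (T.a (T.c (T.c (T.l 204) (T.l 204)) (T.c (T.l 204) (T.l 204))) (T.b (T.a (T.c (T.c (T.l 204) (T.l 204)) (T.l 204)) (T.c (T.c (T.a (T.a (T.l 204) (T.l 204)) (T.l 460)) (T.a (T.l 204) (T.l 204))) (T.c (T.a (T.l 204) (T.l 204)) (T.a (T.l 204) (T.l 204))))) (T.a (T.c (T.c (T.l 204) (T.l 204)) (T.l 204)) (T.b (T.c (T.c (T.a (T.a (T.l 204) (T.l 204)) (T.l 460)) (T.a (T.l 204) (T.l 204))) (T.c (T.a (T.l 204) (T.l 204)) (T.a (T.l 204) (T.l 204)))) (T.c (T.c (T.a (T.a (T.l 204) (T.l 204)) (T.l 460)) (T.a (T.l 204) (T.l 204))) (T.c (T.a (T.l 204) (T.l 204)) (T.a (T.l 204) (T.l 204)))))))) (T.a (T.c (T.c (T.l 204) (T.l 204)) (T.c (T.l 204) (T.l 204))) (T.b (T.a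 (T.c (T.c (T.l 204) (T.l 204)) (T.l 460)) (T.b (T.c (T.c (T.a (T.a (T.l 204) (T.l 204)) (T.l 460)) (T.a (T.l 204) (T.l 204))) (T.c (T.a (T.l 204) (T.l 204)) (T.a (T.l 204) (T.l 204)))) (T.c (T.a (T.c (T.a (T.l 204) (T.l 204)) (T.l 204)) (T.c (T.l 460) (T.l 204))) (T.c (T.a (T.l 204) (T.l 204)) (T.a (T.l 204) (T.l 204)))))) (T.a (T.c (T.c (T.l 204) (T.l 204)) (T.l 460)) (T.b (T.c (T.a (T.c (T.a (T.l 460) (T.l 204)) (T.l 204)) (T.c (T.l 460) (T.l 204))) (T.a (T.c (T.l 204) (T.l 204)) (T.c (T.l 204) (T.l 204)))) (T.l 1)))))) (T.a (T.b (T.a (T.b (T.b (T.c (T.c (T.l 204) (T.l 204)) (T.c (T.l 204) (T.l 204))) (T.l 1)) (T.l 1)) (T.l 1)) (T.l 1)) (T.l 1))) (T.l 1)) (T.l 1)) (T.l 1)), by decide +kernel⟩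

def A011R_030_1_9_1 :
    ∃ t, chk3 (onCell 0 67108864 0 1073741824 134217728 67108864 (corT true 1 c0F cA011R gF0q0 gF3q1 gF0q1 gF1q1 true false)) t 1 9 1 = true :=
  ⟨(T.l 1), by decide +kernel⟩

def A011R_030_1_5_1 :
    ∃ t, chk3 (onCell 0 67108864 0 1073741824 134217728 67108864 (corT true 1 c0F cA011R gF0q0 gF3q1 gF0q1 gF1q1 true false)) t 1 5 1 = true :=
  ⟨(T.l 1), by decide +kernel⟩

def A011R_030_1_3_1 :
    ∃ t, chk3 (onCell 0 67108864 0 1073741824 134217728 67108864 (corT true 1 c0F cA011R gF0q0 gF3q1 gF0q1 gF1q1 true false)) t 1 3 1 = true :=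
  ⟨(T.l 1), by decide +kernel⟩

theorem A011R_030_1_8_1 :
    ∃ t, chk3 (onCell 0 67108864 0 1073741824 134217728 67108864 (corT true 1 c0F cA011R gF0q0 gF3q1 gF0q1 gF1q1 true false)) t 1 8 1 = true :=
  ex3_b A011R_030_1_16_1 A011R_030_1_17_1
theorem A011R_030_1_4_1 :
    ∃ t, chk3 (onCell 0 67108864 0 1073741824 134217728 67108864 (corT true 1 c0F cA011R gF0q0 gF3q1 gF0q1 gF1q1 true false)) t 1 4 1 = true :=
  ex3_b A011R_030_1_8_1 A011R_030_1_9_1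
theorem A011R_030_1_2_1 :
    ∃ t, chk3 (onCell 0 67108864 0 1073741824 134217728 67108864 (corT true 1 c0F cA011R gF0q0 gF3q1 gF0q1 gF1q1 true false)) t 1 2 1 = true :=
  ex3_b A011R_030_1_4_1 A011R_030_1_5_1
theorem A011R_030 :
    ∃ t, chk3 (onCell 0 67108864 0 1073741824 134217728 67108864 (corT true 1 c0F cA011R gF0q0 gF3q1 gF0q1 gF1q1 true false)) t 1 1 1 = true :=
  ex3_b A011R_030_1_2_1 A011R_030_1_3_1

def A011R_040 :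
    ∃ t, chk3 (onCell 0 67108864 0 1073741824 134217728 67108864 (corT true 1 c0F cA011R gF0q0 gF4q1 gF0q1 gF1q1 true false)) t 1 1 1 = true :=
  ⟨(T.b (T.b (T.a (T.c (T.b (T.c (T.l 0) (T.l 0)) (T.b (T.c (T.c (T.l 204) (T.l 0)) (T.l 0)) (T.b (T.b (T.c (T.a (T.c (T.a (T.l 204) (T.l 204)) (T.l 204)) (T.l 204)) (T.l 204)) (T.l 1)) (T.l 1)))) (T.b (T.l 0) (T.b (T.a (T.l 0) (T.l 0)) (T.b (T.b (T.l 0) (T.l 1)) (T.l 1))))) (T.a (T.c (T.b (T.b (T.l 816) (T.l 0)) (T.b (T.c (T.l 0) (T.l 0)) (T.b (T.c (T.b (T.l 204) (T.l 1)) (T.l 204)) (T.l 1)))) (T.b (T.l 0) (T.b (T.l 0) (T.b (T.l 0) (T.l 1))))) (T.b (T.c (T.c (T.b (T.l 816) (T.l 0)) (T.l 4)) (T.b (T.l 816) (T.l 0))) (T.c (T.b (T.c (T.b (T.l 0) (T.l 0)) (T.l 0)) (T.b (T.b (T.c (T.a (T.l 204) (T.l 204)) (T.l 0)) (T.l 1)) (T.l 1))) (T.b (T.a (T.l 0) (T.l 0)) (T.b (T.a (T.l 0) (T.l 0)) (T.l 1))))))) (T.l 1))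 (T.l 1)), by decide +kernel⟩

def A011R_050 :
    ∃ t, chk3 (onCell 0 67108864 0 1073741824 134217728 67108864 (corX 1 c0F cA011R tA011R gF0q0 gF5q1 gF0q1 gF1q1 gF0q1 true false)) t 1 1 1 = true :=
  ⟨(T.b (T.b (T.a (T.c (T.b (T.l 819) (T.l 819)) (T.b (T.l 819) (T.l 819))) (T.b (T.a (T.c (T.l 819) (T.l 819)) (T.c (T.b (T.l 816) (T.l 819)) (T.l 884))) (T.c (T.l 819) (T.l 819)))) (T.b (T.c (T.a (T.l 819) (T.l 819)) (T.a (T.l 819) (T.l 819))) (T.l 1))) (T.l 1)), by decide +kernel⟩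

def A011R_130 :
    ∃ t, chk3 (onCell 0 67108864 0 1073741824 134217728 67108864 (corT true 1 c0F cA011R gF1q0 gF3q1 gF0q1 gF1q1 true false)) t 1 1 1 = true :=
  ⟨(T.l 1), by decide +kernel⟩

def A011R_140 :
    ∃ t, chk3 (onCell 0 67108864 0 1073741824 134217728 67108864 (corT true 1 c0F cA011R gF1q0 gF4q1 gF0q1 gF1q1 true false)) t 1 1 1 = true :=
  ⟨(T.l 1), by decide +kernel⟩

def A011R_150 :
    ∃ t, chk3 (onCell 0 67108864 0 1073741824 134217728 67108864 (corT true 1 c0F cA011R gF1q0 gF5q1 gF0q1 gF1q1 true false)) t 1 1 1 = true :=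
  ⟨(T.l 1), by decide +kernel⟩

def A011R_230 :
    ∃ t, chk3 (onCell 0 67108864 0 1073741824 134217728 67108864 (corT true 1 c0F cA011R gF2q0 gF3q1 gF0q1 gF1q1 true false)) t 1 1 1 = true :=
  ⟨(T.l 1), by decide +kernel⟩

def A011R_240 :
    ∃ t, chk3 (onCell 0 67108864 0 1073741824 134217728 67108864 (corT true 1 c0F cA011R gF2q0 gF4q1 gF0q1 gF1q1 true false)) t 1 1 1 = true :=
  ⟨(T.l 1), by decide +kernel⟩

def A011R_250 :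
    ∃ t, chk3 (onCell 0 67108864 0 1073741824 134217728 67108864 (corT true 1 c0F cA011R gF2q0 gF5q1 gF0q1 gF1q1 true false)) t 1 1 1 = true :=
  ⟨(T.l 1), by decide +kernel⟩

def A012E_000_1_4_1 :
    ∃ t, chk3 (onCell 0 53687091 0 1073741824 134217728 67108864 (corX 1 c0F cA012E tA012E gF0q0 gF0q1 gF0q2 gF1q2 gF0q2 true true)) t 1 4 1 = true :=
  ⟨(T.l 1), by decide +kernel⟩

def A012E_000_1_10_1 :
    ∃ t, chk3 (onCell 0 53687091 0 1073741824 134217728 67108864 (corX 1 c0F cA012E tA012E gF0q0 gF0q1 gF0q2 gF1q2 gF0q2 true true)) t 1 10 1 = true :=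
  ⟨(T.l 1), by decide +kernel⟩

def A012E_000_1_22_1 :
    ∃ t, chk3 (onCell 0 53687091 0 1073741824 134217728 67108864 (corX 1 c0F cA012E tA012E gF0q0 gF0q1 gF0q2 gF1q2 gF0q2 true true)) t 1 22 1 = true :=
  ⟨(T.l 1), by decide +kernel⟩

def A012E_000_1_46_1 :
    ∃ t, chk3 (onCell 0 53687091 0 1073741824 134217728 67108864 (corX 1 c0F cA012E tA012E gF0q0 gF0q1 gF0q2 gF1q2 gF0q2 true true)) t 1 46 1 = true :=
  ⟨(T.l 1), by decide +kernel⟩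

def A012E_000_1_94_1 :
    ∃ t, chk3 (onCell 0 53687091 0 1073741824 134217728 67108864 (corX 1 c0F cA012E tA012E gF0q0 gF0q1 gF0q2 gF1q2 gF0q2 true true)) t 1 94 1 = true :=
  ⟨(T.a (T.l 1) (T.a (T.l 1) (T.b (T.l 1) (T.b (T.l 1) (T.c (T.c (T.l 883) (T.l 883)) (T.c (T.l 883) (T.l 883))))))), by decide +kernel⟩

def A012E_000_2_95_1 :
    ∃ t, chk3 (onCell 0 53687091 0 1073741824 134217728 67108864 (corX 1 c0F cA012E tA012E gF0q0 gF0q1 gF0q2 gF1q2 gF0q2 true true)) t 2 95 1 = true :=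
  ⟨(T.b (T.a (T.l 1) (T.a (T.l 1) (T.b (T.l 1) (T.b (T.l 1) (T.c (T.c (T.l 823) (T.l 819)) (T.c (T.l 819) (T.l 819))))))) (T.a (T.b (T.a (T.l 1) (T.a (T.l 1) (T.b (T.l 1) (T.b (T.l 1) (T.a (T.a (T.l 1) (T.b (T.l 1) (T.b (T.l 1) (T.c (T.c (T.c (T.l 819) (T.l 819)) (T.l 819)) (T.c (T.l 819) (T.l 819)))))) (T.c (T.c (T.c (T.l 819) (T.l 819)) (T.l 819)) (T.c (T.l 819) (T.l 819)))))))) (T.a (T.b (T.a (T.l 1) (T.a (T.l 1) (T.b (T.l 1) (T.b (T.l 1) (T.c (T.c (T.c (T.l 819) (T.l 819)) (T.c (T.l 819) (T.l 819))) (T.c (T.l 819) (T.l 819))))))) (T.a (T.b (T.a (T.l 1) (T.a (T.l 1) (T.b (T.l 1) (T.b (T.l 1) (T.c (T.c (T.c (T.l 819) (T.l 819)) (T.c (T.l 819) (T.l 819))) (T.c (T.l 819) (T.l 819))))))) (T.c (T.a (T.b (T.a (T.l 1) (T.a (T.l 1) (T.b (T.l 1) (T.b (T.l 1) (T.c (T.c (T.l 819) (T.l 819)) (T.c (T.l 819) (T.l 819))))))) (T.c (T.c (T.c (T.l 819) (T.l 819))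 (T.l 819)) (T.c (T.l 819) (T.l 819)))) (T.c (T.c (T.l 823) (T.l 819)) (T.c (T.l 819) (T.l 819)))) (T.c (T.c (T.l 819) (T.l 819)) (T.c (T.l 819) (T.l 819))))) (T.c (T.c (T.c (T.l 823) (T.l 819)) (T.c (T.l 819) (T.l 819))) (T.c (T.l 823) (T.l 819))))) (T.a (T.c (T.c (T.c (T.l 819) (T.l 819)) (T.c (T.l 819) (T.l 819))) (T.c (T.l 819) (T.l 819))) (T.c (T.c (T.c (T.l 819) (T.l 819)) (T.l 823)) (T.c (T.l 819) (T.l 819)))))) (T.a (T.c (T.c (T.c (T.l 819) (T.l 819)) (T.l 823)) (T.c (T.l 819) (T.l 819))) (T.c (T.c (T.l 823) (T.l 819)) (T.c (T.l 819) (T.l 819)))))), by decide +kernel⟩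

def A012E_000_3_95_1 :
    ∃ t, chk3 (onCell 0 53687091 0 1073741824 134217728 67108864 (corX 1 c0F cA012E tA012E gF0q0 gF0q1 gF0q2 gF1q2 gF0q2 true true)) t 3 95 1 = true :=
  ⟨(T.a (T.c (T.c (T.l 823) (T.l 823)) (T.c (T.l 819) (T.l 819))) (T.c (T.c (T.a (T.l 883) (T.l 883)) (T.l 883)) (T.c (T.l 883) (T.l 883)))), by decide +kernel⟩

def A012E_000_4_6_2 :
    ∃ t, chk3 (onCell 0 53687091 0 1073741824 134217728 67108864 (corX 1 c0F cA012E tA012E gF0q0 gF0q1 gF0q2 gF1q2 gF0q2 true true)) t 4 6 2 = true :=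
  ⟨(T.c (T.b (T.b (T.b (T.a (T.b (T.c (T.a (T.c (T.l 819) (T.l 819)) (T.l 823)) (T.c (T.l 819) (T.l 819))) (T.c (T.a (T.c (T.l 819) (T.l 819)) (T.l 823)) (T.c (T.l 819) (T.l 819)))) (T.c (T.b (T.l 823) (T.l 823)) (T.l 823))) (T.a (T.c (T.a (T.c (T.l 819) (T.l 819)) (T.b (T.l 823) (T.l 823))) (T.a (T.c (T.l 819) (T.l 819)) (T.l 819))) (T.c (T.b (T.l 823) (T.l 823)) (T.l 823)))) (T.b (T.a (T.c (T.a (T.c (T.l 819) (T.l 819)) (T.b (T.l 823) (T.l 823))) (T.a (T.c (T.l 819) (T.l 819)) (T.l 819))) (T.c (T.b (T.l 823) (T.l 823)) (T.l 823))) (T.a (T.c (T.a (T.c (T.l 819) (T.l 819)) (T.b (T.l 823) (T.l 823))) (T.a (T.c (T.l 819) (T.l 819)) (T.l 819))) (T.c (T.b (T.l 823) (T.l 823)) (T.l 823))))) (T.b (T.a (T.c (T.b (T.a (T.c (T.l 819) (T.l 819)) (T.b (T.l 823) (T.l 823))) (T.b (T.a (T.c (T.l 819) (T.l 819)) (T.l 823)) (T.l 2))) (T.a (T.c (T.b (T.l 819) (T.l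 819)) (T.l 819)) (T.b (T.l 819) (T.l 819)))) (T.c (T.a (T.b (T.l 823) (T.l 823)) (T.l 823)) (T.b (T.l 823) (T.l 823)))) (T.l 2))) (T.b (T.a (T.b (T.b (T.c (T.a (T.l 819) (T.l 819)) (T.a (T.l 819) (T.l 819))) (T.c (T.a (T.b (T.l 819) (T.l 819)) (T.l 819)) (T.a (T.l 819) (T.l 819)))) (T.c (T.a (T.c (T.l 819) (T.l 819)) (T.l 823)) (T.a (T.b (T.l 819) (T.l 819)) (T.l 819)))) (T.b (T.c (T.b (T.l 819) (T.l 819)) (T.l 823)) (T.c (T.b (T.l 819) (T.l 819)) (T.l 823)))) (T.b (T.a (T.c (T.a (T.c (T.l 819) (T.l 819)) (T.l 823)) (T.a (T.b (T.l 819) (T.l 819)) (T.l 819))) (T.c (T.b (T.l 819) (T.l 823)) (T.b (T.l 819) (T.l 819)))) (T.l 2)))), by decide +kernel⟩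

def A012E_000_5_6_2 :
    ∃ t, chk3 (onCell 0 53687091 0 1073741824 134217728 67108864 (corX 1 c0F cA012E tA012E gF0q0 gF0q1 gF0q2 gF1q2 gF0q2 true true)) t 5 6 2 = true :=
  ⟨(T.b (T.c (T.a (T.b (T.c (T.l 823) (T.l 823)) (T.c (T.b (T.l 823) (T.l 823)) (T.l 823))) (T.c (T.b (T.l 823) (T.l 823)) (T.l 823))) (T.a (T.a (T.b (T.l 823) (T.l 823)) (T.l 823)) (T.b (T.l 823) (T.l 823)))) (T.b (T.c (T.a (T.c (T.b (T.l 823) (T.l 823)) (T.l 823)) (T.c (T.l 823) (T.l 819))) (T.a (T.c (T.l 823) (T.l 819)) (T.l 823))) (T.l 2))), by decide +kernel⟩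

def A012E_000_2_6_3 :
    ∃ t, chk3 (onCell 0 53687091 0 1073741824 134217728 67108864 (corX 1 c0F cA012E tA012E gF0q0 gF0q1 gF0q2 gF1q2 gF0q2 true true)) t 2 6 3 = true :=
  ⟨(T.a (T.a (T.c (T.b (T.b (T.c (T.a (T.l 819) (T.l 819)) (T.a (T.l 819) (T.l 819))) (T.c (T.a (T.l 819) (T.l 819)) (T.a (T.l 819) (T.l 819)))) (T.b (T.c (T.a (T.l 819) (T.l 819)) (T.a (T.l 819) (T.l 819))) (T.l 2))) (T.b (T.b (T.a (T.c (T.l 819) (T.l 819)) (T.b (T.l 819) (T.l 819))) (T.a (T.c (T.l 819) (T.l 819)) (T.b (T.l 819) (T.l 819)))) (T.b (T.a (T.c (T.l 819) (T.l 819)) (T.b (T.l 819) (T.l 819))) (T.l 2)))) (T.c (T.b (T.b (T.c (T.l 823) (T.l 819)) (T.c (T.l 823) (T.l 819))) (T.b (T.c (T.l 823) (T.l 819)) (T.l 2))) (T.b (T.a (T.b (T.l 819) (T.l 819)) (T.l 823)) (T.b (T.b (T.l 823) (T.l 823)) (T.l 2))))) (T.b (T.c (T.a (T.b (T.l 823) (T.l 823)) (T.b (T.l 819) (T.l 819)))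 (T.a (T.b (T.l 819) (T.l 819)) (T.l 823))) (T.b (T.c (T.a (T.b (T.l 819) (T.l 819)) (T.l 819)) (T.a (T.l 819) (T.l 819))) (T.l 2)))), by decide +kernel⟩

def A012E_000_6_6_1 :
    ∃ t, chk3 (onCell 0 53687091 0 1073741824 134217728 67108864 (corX 1 c0F cA012E tA012E gF0q0 gF0q1 gF0q2 gF1q2 gF0q2 true true)) t 6 6 1 = true :=
  ⟨(T.c (T.b (T.c (T.a (T.b (T.l 823) (T.l 823)) (T.b (T.l 823) (T.l 887))) (T.a (T.b (T.l 823) (T.l 823)) (T.l 887))) (T.b (T.c (T.a (T.b (T.l 823) (T.l 823)) (T.l 887)) (T.b (T.l 887) (T.l 887))) (T.l 2))) (T.b (T.c (T.a (T.l 823) (T.l 823)) (T.b (T.l 823) (T.l 823))) (T.b (T.c (T.b (T.l 823) (T.l 823)) (T.l 887)) (T.l 2)))), by decide +kernel⟩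

def A012E_000_7_12_1 :
    ∃ t, chk3 (onCell 0 53687091 0 1073741824 134217728 67108864 (corX 1 c0F cA012E tA012E gF0q0 gF0q1 gF0q2 gF1q2 gF0q2 true true)) t 7 12 1 = true :=
  ⟨(T.b (T.c (T.c (T.a (T.l 887) (T.c (T.l 883) (T.l 883))) (T.a (T.l 883) (T.b (T.l 883) (T.l 883)))) (T.c (T.a (T.l 883) (T.l 883)) (T.b (T.l 883) (T.l 883)))) (T.a (T.c (T.c (T.l 887) (T.l 883)) (T.c (T.l 883) (T.l 819))) (T.c (T.a (T.c (T.b (T.l 883) (T.l 883)) (T.l 883)) (T.b (T.c (T.b (T.l 883) (T.l 883)) (T.l 883)) (T.c (T.b (T.a (T.l 883) (T.c (T.b (T.l 880) (T.l 880)) (T.b (T.l 880) (T.l 880)))) (T.c (T.a (T.b (T.l 880) (T.l 880)) (T.b (T.l 880) (T.l 880))) (T.a (T.l 880) (T.b (T.l 880) (T.l 880))))) (T.b (T.a (T.l 883) (T.c (T.l 880) (T.l 880))) (T.c (T.a (T.l 880) (T.l 880)) (T.a (T.l 880) (T.l 880))))))) (T.a (T.c (T.l 883) (T.l 883)) (T.b (T.c (T.l 883) (T.l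 883)) (T.c (T.b (T.a (T.l 883) (T.b (T.l 880) (T.l 880))) (T.a (T.b (T.l 880) (T.l 880)) (T.b (T.l 880) (T.l 880)))) (T.b (T.a (T.l 819) (T.b (T.l 880) (T.l 880))) (T.a (T.l 880) (T.b (T.l 880) (T.l 880)))))))))), by decide +kernel⟩

def A012E_000_7_13_1 :
    ∃ t, chk3 (onCell 0 53687091 0 1073741824 134217728 67108864 (corX 1 c0F cA012E tA012E gF0q0 gF0q1 gF0q2 gF1q2 gF0q2 true true)) t 7 13 1 = true :=
  ⟨(T.b (T.b (T.a (T.c (T.c (T.l 883) (T.l 883)) (T.c (T.l 883) (T.l 819))) (T.c (T.a (T.c (T.a (T.c (T.b (T.l 883) (T.l 880)) (T.l 880)) (T.b (T.c (T.l 880) (T.l 880)) (T.c (T.l 880) (T.l 880)))) (T.a (T.b (T.l 883) (T.l 880)) (T.b (T.b (T.l 883) (T.l 880)) (T.b (T.l 880) (T.l 880))))) (T.c (T.b (T.c (T.a (T.b (T.l 880) (T.l 880)) (T.l 880)) (T.a (T.l 880) (T.l 880))) (T.c (T.a (T.l 880) (T.l 880)) (T.b (T.l 880) (T.l 880)))) (T.b (T.a (T.c (T.l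 880) (T.l 880)) (T.b (T.l 880) (T.l 880))) (T.c (T.b (T.l 880) (T.l 880)) (T.b (T.l 880) (T.l 880)))))) (T.a (T.c (T.a (T.b (T.l 819) (T.l 880)) (T.b (T.b (T.l 883) (T.l 880)) (T.b (T.l 880) (T.l 880)))) (T.a (T.b (T.l 819) (T.l 880)) (T.b (T.l 880) (T.l 880)))) (T.c (T.b (T.a (T.b (T.l 880) (T.l 880)) (T.b (T.l 880) (T.l 880))) (T.c (T.b (T.l 880) (T.l 880)) (T.l 880))) (T.b (T.a (T.l 880) (T.l 880)) (T.b (T.l 880) (T.l 880))))))) (T.l 2)) (T.l 2)), by decide +kernel⟩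

def A012E_000_1_7_1 :
    ∃ t, chk3 (onCell 0 53687091 0 1073741824 134217728 67108864 (corX 1 c0F cA012E tA012E gF0q0 gF0q1 gF0q2 gF1q2 gF0q2 true true)) t 1 7 1 = true :=
  ⟨(T.l 2), by decide +kernel⟩

theorem A012E_000_7_6_1 :
    ∃ t, chk3 (onCell 0 53687091 0 1073741824 134217728 67108864 (corX 1 c0F cA012E tA012E gF0q0 gF0q1 gF0q2 gF1q2 gF0q2 true true)) t 7 6 1 = true :=
  ex3_b A012E_000_7_12_1 A012E_000_7_13_1
theorem A012E_000_3_6_1 :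
    ∃ t, chk3 (onCell 0 53687091 0 1073741824 134217728 67108864 (corX 1 c0F cA012E tA012E gF0q0 gF0q1 gF0q2 gF1q2 gF0q2 true true)) t 3 6 1 = true :=
  ex3_a A012E_000_6_6_1 A012E_000_7_6_1
theorem A012E_000_2_6_2 :
    ∃ t, chk3 (onCell 0 53687091 0 1073741824 134217728 67108864 (corX 1 c0F cA012E tA012E gF0q0 gF0q1 gF0q2 gF1q2 gF0q2 true true)) t 2 6 2 = true :=
  ex3_a A012E_000_4_6_2 A012E_000_5_6_2
theorem A012E_000_2_6_1 :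
    ∃ t, chk3 (onCell 0 53687091 0 1073741824 134217728 67108864 (corX 1 c0F cA012E tA012E gF0q0 gF0q1 gF0q2 gF1q2 gF0q2 true true)) t 2 6 1 = true :=
  ex3_c A012E_000_2_6_2 A012E_000_2_6_3
theorem A012E_000_1_6_1 :
    ∃ t, chk3 (onCell 0 53687091 0 1073741824 134217728 67108864 (corX 1 c0F cA012E tA012E gF0q0 gF0q1 gF0q2 gF1q2 gF0q2 true true)) t 1 6 1 = true :=
  ex3_a A012E_000_2_6_1 A012E_000_3_6_1
theorem A012E_000_1_3_1 :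
    ∃ t, chk3 (onCell 0 53687091 0 1073741824 134217728 67108864 (corX 1 c0F cA012E tA012E gF0q0 gF0q1 gF0q2 gF1q2 gF0q2 true true)) t 1 3 1 = true :=
  ex3_b A012E_000_1_6_1 A012E_000_1_7_1
theorem A012E_000_1_95_1 :
    ∃ t, chk3 (onCell 0 53687091 0 1073741824 134217728 67108864 (corX 1 c0F cA012E tA012E gF0q0 gF0q1 gF0q2 gF1q2 gF0q2 true true)) t 1 95 1 = true :=
  ex3_a A012E_000_2_95_1 A012E_000_3_95_1
theorem A012E_000_1_47_1 :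
    ∃ t, chk3 (onCell 0 53687091 0 1073741824 134217728 67108864 (corX 1 c0F cA012E tA012E gF0q0 gF0q1 gF0q2 gF1q2 gF0q2 true true)) t 1 47 1 = true :=
  ex3_b A012E_000_1_94_1 A012E_000_1_95_1
theorem A012E_000_1_23_1 :
    ∃ t, chk3 (onCell 0 53687091 0 1073741824 134217728 67108864 (corX 1 c0F cA012E tA012E gF0q0 gF0q1 gF0q2 gF1q2 gF0q2 true true)) t 1 23 1 = true :=
  ex3_b A012E_000_1_46_1 A012E_000_1_47_1
theorem A012E_000_1_11_1 :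
    ∃ t, chk3 (onCell 0 53687091 0 1073741824 134217728 67108864 (corX 1 c0F cA012E tA012E gF0q0 gF0q1 gF0q2 gF1q2 gF0q2 true true)) t 1 11 1 = true :=
  ex3_b A012E_000_1_22_1 A012E_000_1_23_1
theorem A012E_000_1_5_1 :
    ∃ t, chk3 (onCell 0 53687091 0 1073741824 134217728 67108864 (corX 1 c0F cA012E tA012E gF0q0 gF0q1 gF0q2 gF1q2 gF0q2 true true)) t 1 5 1 = true :=
  ex3_b A012E_000_1_10_1 A012E_000_1_11_1
theorem A012E_000_1_2_1 :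
    ∃ t, chk3 (onCell 0 53687091 0 1073741824 134217728 67108864 (corX 1 c0F cA012E tA012E gF0q0 gF0q1 gF0q2 gF1q2 gF0q2 true true)) t 1 2 1 = true :=
  ex3_b A012E_000_1_4_1 A012E_000_1_5_1
theorem A012E_000 :
    ∃ t, chk3 (onCell 0 53687091 0 1073741824 134217728 67108864 (corX 1 c0F cA012E tA012E gF0q0 gF0q1 gF0q2 gF1q2 gF0q2 true true)) t 1 1 1 = true :=
  ex3_b A012E_000_1_2_1 A012E_000_1_3_1

def A012E_001_1_2_1 :
    ∃ t, chk3 (onCell 0 53687091 0 1073741824 134217728 67108864 (corT true 1 c0F cA012E gF0q0 gF0q1 gF1q2 gF2q2 true true)) t 1 2 1 = true :=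
  ⟨(T.l 1), by decide +kernel⟩

def A012E_001_1_12_1 :
    ∃ t, chk3 (onCell 0 53687091 0 1073741824 134217728 67108864 (corT true 1 c0F cA012E gF0q0 gF0q1 gF1q2 gF2q2 true true)) t 1 12 1 = true :=
  ⟨(T.l 1), by decide +kernel⟩

def A012E_001_2_13_1 :
    ∃ t, chk3 (onCell 0 53687091 0 1073741824 134217728 67108864 (corT true 1 c0F cA012E gF0q0 gF0q1 gF1q2 gF2q2 true true)) t 2 13 1 = true :=
  ⟨(T.c (T.b (T.b (T.l 1) (T.c (T.a (T.c (T.a (T.b (T.b (T.l 1) (T.c (T.a (T.l 816) (T.l 816)) (T.l 816))) (T.c (T.l 816) (T.l 816))) (T.b (T.c (T.l 820) (T.l 816)) (T.l 820))) (T.a (T.b (T.b (T.l 1) (T.c (T.l 816) (T.l 816))) (T.c (T.l 816) (T.l 816))) (T.c (T.l 820) (T.l 820)))) (T.c (T.a (T.l 820) (T.l 816)) (T.b (T.l 820) (T.l 816)))) (T.a (T.c (T.a (T.b (T.b (T.l 1) (T.a (T.l 816) (T.l 816))) (T.b (T.l 816) (T.l 816))) (T.b (T.l 816) (T.l 816))) (T.a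 (T.b (T.b (T.l 1) (T.l 816)) (T.l 816)) (T.l 820))) (T.c (T.b (T.l 816) (T.l 816)) (T.l 820))))) (T.c (T.a (T.b (T.c (T.b (T.a (T.l 816) (T.l 816)) (T.l 816)) (T.b (T.a (T.l 816) (T.l 816)) (T.l 816))) (T.c (T.b (T.l 816) (T.l 816)) (T.l 816))) (T.b (T.c (T.l 820) (T.l 816)) (T.c (T.l 816) (T.l 816)))) (T.a (T.b (T.c (T.a (T.l 816) (T.l 816)) (T.b (T.l 816) (T.l 816))) (T.c (T.l 816) (T.l 816))) (T.b (T.b (T.l 820) (T.l 820)) (T.b (T.l 816) (T.l 816)))))) (T.b (T.b (T.l 1) (T.c (T.a (T.a (T.c (T.b (T.b (T.l 1) (T.l 816)) (T.l 816)) (T.b (T.b (T.l 1) (T.l 816)) (T.l 816))) (T.c (T.l 816) (T.l 816))) (T.c (T.l 820) (T.l 816))) (T.a (T.a (T.c (T.b (T.b (T.l 1) (T.l 816)) (T.l 816)) (T.b (T.b (T.l 1) (T.l 816)) (T.l 816))) (T.b (T.l 820) (T.l 816))) (T.b (T.l 816) (T.l 816))))) (T.c (T.a (T.b (T.c (T.b (T.l 816) (T.l 816)) (T.b (T.l 816) (T.l 816)))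 (T.c (T.l 816) (T.l 816))) (T.b (T.l 820) (T.l 816))) (T.a (T.b (T.a (T.b (T.l 816) (T.l 816)) (T.l 816)) (T.b (T.l 816) (T.l 816))) (T.b (T.l 816) (T.l 816)))))), by decide +kernel⟩

def A012E_001_6_13_1 :
    ∃ t, chk3 (onCell 0 53687091 0 1073741824 134217728 67108864 (corT true 1 c0F cA012E gF0q0 gF0q1 gF1q2 gF2q2 true true)) t 6 13 1 = true :=
  ⟨(T.c (T.c (T.b (T.b (T.a (T.l 1) (T.l 884)) (T.b (T.l 884) (T.l 884))) (T.b (T.c (T.l 880) (T.l 880)) (T.c (T.l 880) (T.l 880)))) (T.b (T.b (T.b (T.l 1) (T.l 820)) (T.l 884)) (T.b (T.l 884) (T.b (T.l 880) (T.l 880))))) (T.b (T.c (T.b (T.l 820) (T.l 816)) (T.b (T.l 816) (T.l 816))) (T.c (T.b (T.l 880) (T.l 880)) (T.b (T.l 816) (T.l 880))))), by decide +kernel⟩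

def A012E_001_7_26_1 :
    ∃ t, chk3 (onCell 0 53687091 0 1073741824 134217728 67108864 (corT true 1 c0F cA012E gF0q0 gF0q1 gF1q2 gF2q2 true true)) t 7 26 1 = true :=
  ⟨(T.b (T.b (T.l 1) (T.b (T.l 1) (T.c (T.a (T.c (T.l 880) (T.l 880)) (T.c (T.a (T.c (T.l 880) (T.l 880)) (T.l 884)) (T.a (T.l 880) (T.l 880)))) (T.a (T.c (T.l 816) (T.l 816)) (T.c (T.c (T.l 880) (T.l 880)) (T.c (T.l 880) (T.l 880))))))) (T.c (T.a (T.c (T.a (T.l 880) (T.b (T.l 880) (T.c (T.l 880) (T.l 880)))) (T.a (T.l 880) (T.b (T.l 880) (T.c (T.l 880) (T.l 880))))) (T.c (T.a (T.c (T.b (T.l 880) (T.b (T.l 880) (T.l 880))) (T.b (T.l 880) (T.l 880))) (T.c (T.b (T.l 880) (T.l 884)) (T.b (T.l 880) (T.l 880)))) (T.a (T.b (T.c (T.l 880) (T.l 880)) (T.c (T.l 880) (T.l 880))) (T.b (T.l 884) (T.l 884))))) (T.a (T.a (T.c (T.l 816) (T.l 816)) (T.c (T.b (T.l 880) (T.b (T.l 880) (T.l 880)))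 (T.b (T.l 816) (T.l 880)))) (T.a (T.c (T.b (T.b (T.l 880) (T.l 880)) (T.b (T.l 880) (T.l 880))) (T.b (T.l 880) (T.l 880))) (T.c (T.b (T.l 880) (T.l 880)) (T.b (T.l 880) (T.l 880))))))), by decide +kernel⟩

def A012E_001_14_27_1 :
    ∃ t, chk3 (onCell 0 53687091 0 1073741824 134217728 67108864 (corT true 1 c0F cA012E gF0q0 gF0q1 gF1q2 gF2q2 true true)) t 14 27 1 = true :=
  ⟨(T.c (T.b (T.a (T.c (T.c (T.l 880) (T.l 880)) (T.l 880)) (T.c (T.c (T.b (T.c (T.l 880) (T.l 880)) (T.a (T.l 880) (T.l 880))) (T.b (T.b (T.l 880) (T.l 880)) (T.a (T.l 880) (T.l 880)))) (T.b (T.c (T.b (T.l 880) (T.l 880)) (T.l 880)) (T.c (T.b (T.l 880) (T.l 880)) (T.b (T.l 880) (T.l 880)))))) (T.c (T.a (T.b (T.c (T.l 880) (T.l 880)) (T.c (T.a (T.l 880) (T.b (T.l 880) (T.l 880))) (T.a (T.l 880) (T.l 880)))) (T.c (T.a (T.b (T.l 880) (T.l 880)) (T.b (T.l 880) (T.l 880))) (T.a (T.b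 (T.l 880) (T.l 880)) (T.b (T.l 880) (T.l 880))))) (T.a (T.b (T.l 880) (T.a (T.l 880) (T.c (T.l 880) (T.l 880)))) (T.a (T.c (T.b (T.l 880) (T.l 880)) (T.b (T.l 880) (T.l 880))) (T.c (T.l 880) (T.l 880)))))) (T.b (T.a (T.c (T.l 880) (T.l 816)) (T.c (T.b (T.c (T.l 880) (T.l 880)) (T.c (T.l 880) (T.l 880))) (T.b (T.l 880) (T.b (T.l 880) (T.l 880))))) (T.a (T.c (T.b (T.l 880) (T.c (T.b (T.l 880) (T.l 880)) (T.l 880))) (T.b (T.l 816) (T.b (T.l 880) (T.l 880)))) (T.c (T.a (T.b (T.b (T.l 880) (T.l 880)) (T.l 880)) (T.b (T.l 880) (T.l 880))) (T.a (T.b (T.l 880) (T.l 880)) (T.l 880)))))), by decide +kernel⟩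

def A012E_001_15_27_1 :
    ∃ t, chk3 (onCell 0 53687091 0 1073741824 134217728 67108864 (corT true 1 c0F cA012E gF0q0 gF0q1 gF1q2 gF2q2 true true)) t 15 27 1 = true :=
  ⟨(T.c (T.b (T.c (T.a (T.c (T.b (T.l 880) (T.l 880)) (T.b (T.l 880) (T.l 880))) (T.c (T.b (T.l 884) (T.l 884)) (T.b (T.l 880) (T.l 880)))) (T.a (T.b (T.c (T.l 880) (T.l 880)) (T.c (T.l 880) (T.l 880))) (T.b (T.l 884) (T.l 884)))) (T.c (T.a (T.c (T.b (T.l 880) (T.l 880)) (T.b (T.l 880) (T.l 880))) (T.c (T.b (T.l 884) (T.l 884)) (T.b (T.l 880) (T.l 880)))) (T.a (T.c (T.b (T.l 880) (T.l 880)) (T.b (T.l 880) (T.l 880))) (T.b (T.l 884) (T.l 884))))) (T.b (T.c (T.a (T.a (T.b (T.l 880) (T.l 880)) (T.l 880)) (T.b (T.l 880) (T.l 880))) (T.a (T.b (T.l 880) (T.l 880)) (T.l 884))) (T.c (T.a (T.b (T.l 880) (T.l 880)) (T.b (T.l 880) (T.l 880))) (T.a (T.b (T.l 880) (T.l 880)) (T.l 884))))),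 by decide +kernel⟩

def A012E_001_2_7_1 :
    ∃ t, chk3 (onCell 0 53687091 0 1073741824 134217728 67108864 (corT true 1 c0F cA012E gF0q0 gF0q1 gF1q2 gF2q2 true true)) t 2 7 1 = true :=
  ⟨(T.c (T.b (T.c (T.b (T.a (T.c (T.b (T.l 816) (T.l 816)) (T.b (T.l 816) (T.l 816))) (T.c (T.l 820) (T.l 816))) (T.a (T.c (T.l 816) (T.l 816)) (T.c (T.l 880) (T.l 816)))) (T.b (T.a (T.c (T.b (T.l 816) (T.l 816)) (T.l 816)) (T.b (T.l 816) (T.l 816))) (T.a (T.b (T.l 816) (T.l 816)) (T.b (T.l 816) (T.l 880))))) (T.b (T.c (T.a (T.b (T.l 816) (T.l 816)) (T.c (T.b (T.l 816) (T.l 816)) (T.l 880))) (T.a (T.l 816) (T.c (T.l 816) (T.l 816)))) (T.l 2))) (T.b (T.b (T.c (T.a (T.c (T.l 816) (T.l 816)) (T.b (T.l 816) (T.l 816))) (T.a (T.b (T.l 816) (T.l 816)) (T.l 816))) (T.c (T.a (T.b (T.l 816) (T.l 816)) (T.l 816)) (T.a (T.l 816) (T.l 816)))) (T.b (T.c (T.a (T.l 816) (T.l 880))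 (T.b (T.l 816) (T.l 816))) (T.l 2)))), by decide +kernel⟩

def A012E_001_12_14_1 :
    ∃ t, chk3 (onCell 0 53687091 0 1073741824 134217728 67108864 (corT true 1 c0F cA012E gF0q0 gF0q1 gF1q2 gF2q2 true true)) t 12 14 1 = true :=
  ⟨(T.c (T.c (T.b (T.c (T.l 880) (T.l 880)) (T.c (T.b (T.l 880) (T.l 880)) (T.l 880))) (T.b (T.b (T.l 880) (T.l 880)) (T.c (T.l 880) (T.l 816)))) (T.c (T.b (T.l 880) (T.l 880)) (T.b (T.l 816) (T.l 816)))), by decide +kernel⟩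

def A012E_001_13_28_2 :
    ∃ t, chk3 (onCell 0 53687091 0 1073741824 134217728 67108864 (corT true 1 c0F cA012E gF0q0 gF0q1 gF1q2 gF2q2 true true)) t 13 28 2 = true :=
  ⟨(T.a (T.c (T.c (T.l 880) (T.l 880)) (T.b (T.l 880) (T.l 880))) (T.c (T.b (T.c (T.l 880) (T.l 880)) (T.a (T.c (T.l 880) (T.l 880)) (T.c (T.b (T.l 880) (T.a (T.l 880) (T.b (T.l 880) (T.l 880)))) (T.b (T.l 880) (T.c (T.l 880) (T.l 880)))))) (T.b (T.b (T.l 880) (T.l 880)) (T.a (T.b (T.l 880) (T.l 880)) (T.b (T.b (T.l 880) (T.l 880)) (T.c (T.b (T.l 880) (T.l 880)) (T.l 880))))))), by decide +kernel⟩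

def A012E_001_13_29_2 :
    ∃ t, chk3 (onCell 0 53687091 0 1073741824 134217728 67108864 (corT true 1 c0F cA012E gF0q0 gF0q1 gF1q2 gF2q2 true true)) t 13 29 2 = true :=
  ⟨(T.a (T.c (T.b (T.c (T.l 880) (T.l 880)) (T.a (T.c (T.l 880) (T.l 880)) (T.c (T.b (T.l 880) (T.b (T.l 880) (T.c (T.l 880) (T.l 880)))) (T.b (T.l 880) (T.c (T.l 880) (T.l 880)))))) (T.b (T.c (T.l 880) (T.l 816)) (T.a (T.c (T.l 816) (T.l 816)) (T.c (T.b (T.l 880) (T.b (T.l 816) (T.l 880))) (T.b (T.l 816) (T.l 880)))))) (T.c (T.b (T.a (T.c (T.b (T.l 880) (T.a (T.l 880) (T.c (T.l 880) (T.l 880)))) (T.b (T.l 880) (T.a (T.l 880) (T.l 880)))) (T.c (T.b (T.a (T.b (T.l 880) (T.l 880)) (T.b (T.l 880) (T.l 880))) (T.a (T.c (T.l 880) (T.l 880)) (T.l 880))) (T.b (T.a (T.l 880) (T.l 880)) (T.c (T.l 880) (T.l 880))))) (T.a (T.c (T.b (T.a (T.c (T.l 880) (T.l 880)) (T.c (T.l 880) (T.l 880)))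 (T.a (T.c (T.l 880) (T.l 880)) (T.b (T.l 880) (T.l 880)))) (T.b (T.a (T.l 880) (T.b (T.l 880) (T.l 880))) (T.a (T.b (T.l 880) (T.l 880)) (T.l 880)))) (T.c (T.b (T.c (T.l 880) (T.l 880)) (T.c (T.l 880) (T.l 880))) (T.b (T.b (T.l 880) (T.l 880)) (T.b (T.l 880) (T.l 880)))))) (T.b (T.a (T.b (T.c (T.l 880) (T.l 816)) (T.c (T.b (T.l 880) (T.l 880)) (T.l 880))) (T.c (T.b (T.b (T.l 880) (T.l 880)) (T.b (T.l 880) (T.l 880))) (T.b (T.l 880) (T.l 880)))) (T.a (T.c (T.b (T.c (T.l 880) (T.l 880)) (T.c (T.l 880) (T.l 880))) (T.b (T.b (T.l 880) (T.l 880)) (T.b (T.l 880) (T.l 880)))) (T.c (T.b (T.l 880) (T.l 880)) (T.b (T.l 880) (T.l 880))))))), by decide +kernel⟩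

def A012E_001_13_14_3 :
    ∃ t, chk3 (onCell 0 53687091 0 1073741824 134217728 67108864 (corT true 1 c0F cA012E gF0q0 gF0q1 gF1q2 gF2q2 true true)) t 13 14 3 = true :=
  ⟨(T.b (T.a (T.c (T.l 880) (T.l 816)) (T.b (T.c (T.l 880) (T.l 816)) (T.c (T.a (T.l 880) (T.c (T.b (T.l 816) (T.l 880)) (T.l 880))) (T.a (T.l 816) (T.b (T.l 816) (T.l 880)))))) (T.a (T.b (T.c (T.l 880) (T.l 816)) (T.c (T.a (T.l 880) (T.c (T.b (T.l 816) (T.l 880)) (T.l 880))) (T.a (T.l 816) (T.b (T.l 816) (T.l 880))))) (T.c (T.b (T.a (T.c (T.b (T.l 816) (T.l 880)) (T.l 880)) (T.c (T.b (T.l 880) (T.l 880)) (T.b (T.l 880) (T.l 880)))) (T.a (T.c (T.b (T.l 880) (T.l 880)) (T.b (T.l 880) (T.l 880))) (T.c (T.l 880) (T.l 880)))) (T.b (T.a (T.b (T.l 816) (T.l 880)) (T.b (T.b (T.l 880) (T.l 880)) (T.l 880))) (T.a (T.c (T.b (T.l 880) (T.l 880)) (T.l 880)) (T.b (T.l 880) (T.l 880))))))),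 by decide +kernel⟩

def A012E_001_14_28_2 :
    ∃ t, chk3 (onCell 0 53687091 0 1073741824 134217728 67108864 (corT true 1 c0F cA012E gF0q0 gF0q1 gF1q2 gF2q2 true true)) t 14 28 2 = true :=
  ⟨(T.a (T.c (T.b (T.c (T.a (T.b (T.l 880) (T.c (T.l 880) (T.l 880))) (T.b (T.b (T.l 880) (T.l 880)) (T.b (T.l 880) (T.l 880)))) (T.a (T.b (T.l 880) (T.b (T.l 880) (T.l 880))) (T.b (T.b (T.l 880) (T.l 880)) (T.l 880)))) (T.a (T.c (T.b (T.c (T.b (T.l 880) (T.l 880)) (T.l 880)) (T.c (T.l 880) (T.l 880))) (T.b (T.b (T.l 880) (T.l 880)) (T.b (T.l 880) (T.l 880)))) (T.c (T.b (T.l 880) (T.l 880)) (T.b (T.l 880) (T.l 880))))) (T.b (T.a (T.b (T.l 880) (T.c (T.l 880) (T.l 880))) (T.c (T.b (T.l 880) (T.l 880)) (T.b (T.l 880) (T.l 880)))) (T.a (T.c (T.b (T.b (T.l 880) (T.l 880)) (T.l 880)) (T.b (T.l 880) (T.l 880))) (T.c (T.b (T.l 880) (T.l 880)) (T.l 880))))) (T.c (T.b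 (T.c (T.a (T.b (T.l 880) (T.l 880)) (T.b (T.l 880) (T.l 880))) (T.a (T.b (T.l 880) (T.l 880)) (T.l 880))) (T.c (T.a (T.b (T.l 880) (T.l 880)) (T.b (T.l 880) (T.l 880))) (T.a (T.b (T.l 880) (T.l 880)) (T.l 880)))) (T.b (T.c (T.a (T.b (T.l 880) (T.l 880)) (T.l 880)) (T.b (T.l 880) (T.l 880))) (T.c (T.b (T.l 880) (T.l 880)) (T.b (T.l 880) (T.l 880)))))), by decide +kernel⟩

def A012E_001_14_29_2 :
    ∃ t, chk3 (onCell 0 53687091 0 1073741824 134217728 67108864 (corT true 1 c0F cA012E gF0q0 gF0q1 gF1q2 gF2q2 true true)) t 14 29 2 = true :=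
  ⟨(T.a (T.c (T.b (T.c (T.a (T.b (T.b (T.l 880) (T.l 880)) (T.b (T.l 880) (T.l 880))) (T.b (T.l 880) (T.l 880))) (T.a (T.b (T.l 880) (T.l 880)) (T.b (T.l 880) (T.l 880)))) (T.c (T.a (T.b (T.b (T.l 880) (T.l 880)) (T.b (T.l 880) (T.l 880))) (T.b (T.l 880) (T.l 880))) (T.a (T.b (T.l 880) (T.l 880)) (T.b (T.l 880) (T.l 880))))) (T.b (T.a (T.c (T.b (T.l 880) (T.l 880)) (T.b (T.l 880) (T.l 880))) (T.c (T.l 880) (T.l 880))) (T.a (T.c (T.b (T.l 880) (T.l 880)) (T.l 880)) (T.c (T.l 880) (T.l 880))))) (T.c (T.b (T.c (T.a (T.b (T.l 880) (T.l 880)) (T.b (T.l 880) (T.l 880))) (T.a (T.l 880) (T.l 880))) (T.c (T.a (T.b (T.l 880) (T.l 880)) (T.b (T.l 880) (T.l 880))) (T.a (T.l 880) (T.l 880)))) (T.b (T.c (T.b (T.l 880) (T.l 880)) (T.b (T.l 880) (T.l 880))) (T.c (T.b (T.l 880) (T.l 880)) (T.b (T.l 880) (T.l 880)))))), by decide +kernel⟩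

def A012E_001_14_14_3 :
    ∃ t, chk3 (onCell 0 53687091 0 1073741824 134217728 67108864 (corT true 1 c0F cA012E gF0q0 gF0q1 gF1q2 gF2q2 true true)) t 14 14 3 = true :=
  ⟨(T.b (T.a (T.b (T.c (T.a (T.c (T.b (T.l 816) (T.l 880)) (T.l 880)) (T.b (T.b (T.l 880) (T.l 880)) (T.b (T.l 880) (T.l 880)))) (T.a (T.b (T.l 816) (T.l 880)) (T.b (T.l 880) (T.l 880)))) (T.c (T.a (T.c (T.b (T.l 880) (T.l 880)) (T.b (T.l 880) (T.l 880))) (T.b (T.l 880) (T.l 880))) (T.a (T.b (T.l 880) (T.l 880)) (T.b (T.l 880) (T.l 880))))) (T.c (T.b (T.a (T.b (T.l 880) (T.l 880)) (T.b (T.l 880) (T.l 880))) (T.a (T.b (T.l 880) (T.l 880)) (T.b (T.l 880) (T.l 880)))) (T.b (T.a (T.l 880) (T.l 880)) (T.b (T.l 880) (T.l 880))))) (T.a (T.c (T.b (T.a (T.c (T.l 880) (T.l 880)) (T.b (T.l 880) (T.l 880))) (T.a (T.b (T.l 880) (T.l 880)) (T.b (T.l 880) (T.l 880)))) (T.b (T.a (T.b (T.l 880)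 (T.l 880)) (T.l 880)) (T.a (T.l 880) (T.l 880)))) (T.c (T.b (T.a (T.b (T.l 880) (T.l 880)) (T.l 880)) (T.a (T.b (T.l 880) (T.l 880)) (T.l 880))) (T.b (T.b (T.l 880) (T.l 880)) (T.b (T.l 880) (T.l 880)))))), by decide +kernel⟩

def A012E_001_15_14_1 :
    ∃ t, chk3 (onCell 0 53687091 0 1073741824 134217728 67108864 (corT true 1 c0F cA012E gF0q0 gF0q1 gF1q2 gF2q2 true true)) t 15 14 1 = true :=
  ⟨(T.c (T.b (T.c (T.a (T.b (T.c (T.b (T.l 880) (T.l 880)) (T.b (T.l 880) (T.l 880))) (T.c (T.b (T.l 880) (T.l 880)) (T.b (T.l 880) (T.l 880)))) (T.b (T.c (T.b (T.l 884) (T.l 884)) (T.b (T.l 880) (T.l 880))) (T.c (T.b (T.l 884) (T.l 884)) (T.b (T.l 880) (T.l 880))))) (T.a (T.b (T.c (T.b (T.l 880) (T.l 880)) (T.b (T.l 880) (T.l 880))) (T.c (T.b (T.l 880) (T.l 880)) (T.b (T.l 880) (T.l 880)))) (T.b (T.c (T.l 884) (T.l 884)) (T.c (T.l 884) (T.l 884))))) (T.c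 (T.a (T.b (T.c (T.a (T.l 880) (T.l 880)) (T.b (T.l 880) (T.l 880))) (T.c (T.a (T.l 880) (T.l 880)) (T.b (T.l 880) (T.l 880)))) (T.b (T.c (T.b (T.l 884) (T.l 884)) (T.b (T.l 880) (T.l 880))) (T.c (T.b (T.l 884) (T.l 884)) (T.b (T.l 880) (T.l 880))))) (T.a (T.b (T.c (T.b (T.l 880) (T.l 880)) (T.b (T.l 880) (T.l 880))) (T.c (T.b (T.l 880) (T.l 880)) (T.b (T.l 880) (T.l 880)))) (T.b (T.c (T.b (T.l 880) (T.l 880)) (T.l 884)) (T.c (T.b (T.l 880) (T.l 880)) (T.l 884)))))) (T.b (T.b (T.c (T.a (T.b (T.l 880) (T.l 880)) (T.b (T.l 884) (T.l 884))) (T.a (T.b (T.l 880) (T.l 880)) (T.l 884))) (T.c (T.a (T.b (T.l 880) (T.l 880)) (T.b (T.l 884) (T.l 884))) (T.a (T.b (T.l 880) (T.l 880)) (T.l 884)))) (T.a (T.c (T.b (T.b (T.l 880) (T.l 880)) (T.b (T.l 880) (T.l 884))) (T.b (T.b (T.l 880) (T.l 880)) (T.b (T.l 880) (T.l 880)))) (T.c (T.b (T.b (T.l 884) (T.l 884))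 (T.b (T.l 884) (T.l 884))) (T.b (T.l 884) (T.l 884)))))), by decide +kernel⟩

def A012E_001_3_240_1 :
    ∃ t, chk3 (onCell 0 53687091 0 1073741824 134217728 67108864 (corT true 1 c0F cA012E gF0q0 gF0q1 gF1q2 gF2q2 true true)) t 3 240 1 = true :=
  ⟨(T.a (T.a (T.c (T.c (T.c (T.l 880) (T.l 816)) (T.l 880)) (T.c (T.l 816) (T.l 816))) (T.c (T.c (T.a (T.c (T.a (T.l 880) (T.a (T.l 880) (T.c (T.l 880) (T.l 880)))) (T.a (T.l 880) (T.c (T.l 880) (T.l 880)))) (T.c (T.a (T.c (T.l 880) (T.l 880)) (T.l 880)) (T.a (T.b (T.l 880) (T.l 880)) (T.l 880)))) (T.a (T.a (T.c (T.l 816) (T.l 816)) (T.c (T.b (T.l 880) (T.l 880)) (T.l 880))) (T.c (T.a (T.l 880) (T.l 880)) (T.c (T.l 880) (T.l 880))))) (T.a (T.c (T.a (T.l 816) (T.c (T.l 880) (T.l 816))) (T.c (T.l 880) (T.l 880))) (T.c (T.c (T.b (T.l 880) (T.l 880)) (T.l 880)) (T.c (T.l 880) (T.l 816)))))) (T.c (T.a (T.c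 (T.a (T.c (T.a (T.l 880) (T.l 880)) (T.c (T.l 880) (T.l 880))) (T.c (T.b (T.l 880) (T.l 880)) (T.l 880))) (T.a (T.c (T.l 880) (T.l 880)) (T.c (T.l 880) (T.l 880)))) (T.c (T.a (T.c (T.l 880) (T.l 880)) (T.c (T.l 880) (T.l 880))) (T.a (T.c (T.l 880) (T.l 816)) (T.c (T.l 880) (T.l 816))))) (T.a (T.c (T.a (T.c (T.l 880) (T.l 816)) (T.l 880)) (T.a (T.l 880) (T.l 816))) (T.c (T.a (T.l 880) (T.l 880)) (T.c (T.l 884) (T.l 884)))))), by decide +kernel⟩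

def A012E_001_3_482_1 :
    ∃ t, chk3 (onCell 0 53687091 0 1073741824 134217728 67108864 (corT true 1 c0F cA012E gF0q0 gF0q1 gF1q2 gF2q2 true true)) t 3 482 1 = true :=
  ⟨(T.a (T.a (T.c (T.c (T.c (T.l 880) (T.l 816)) (T.l 880)) (T.c (T.l 816) (T.l 816))) (T.c (T.c (T.a (T.c (T.a (T.l 880) (T.c (T.c (T.l 880) (T.l 880)) (T.l 880))) (T.a (T.l 880) (T.c (T.l 880) (T.l 880)))) (T.c (T.a (T.c (T.l 880) (T.l 880)) (T.l 880)) (T.a (T.l 880) (T.l 880)))) (T.a (T.a (T.c (T.l 816) (T.l 816)) (T.c (T.l 880) (T.l 880))) (T.c (T.c (T.l 880) (T.l 880)) (T.c (T.l 880) (T.l 880))))) (T.a (T.c (T.a (T.l 816) (T.c (T.l 880) (T.l 816))) (T.c (T.l 880) (T.l 880))) (T.c (T.c (T.l 880) (T.l 880)) (T.c (T.l 816) (T.l 816)))))) (T.c (T.a (T.c (T.a (T.c (T.c (T.l 880) (T.l 880)) (T.c (T.l 880) (T.l 880))) (T.c (T.l 880) (T.l 880))) (T.a (T.c (T.l 880) (T.l 880)) (T.c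 (T.l 880) (T.l 816)))) (T.c (T.a (T.c (T.l 880) (T.l 880)) (T.c (T.l 880) (T.l 880))) (T.a (T.c (T.l 816) (T.l 816)) (T.l 884)))) (T.a (T.c (T.a (T.c (T.l 816) (T.l 816)) (T.l 880)) (T.a (T.l 880) (T.l 816))) (T.c (T.a (T.l 880) (T.l 816)) (T.c (T.l 884) (T.l 884)))))), by decide +kernel⟩

def A012E_001_3_483_1 :
    ∃ t, chk3 (onCell 0 53687091 0 1073741824 134217728 67108864 (corT true 1 c0F cA012E gF0q0 gF0q1 gF1q2 gF2q2 true true)) t 3 483 1 = true :=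
  ⟨(T.a (T.a (T.c (T.c (T.c (T.l 880) (T.l 816)) (T.l 880)) (T.c (T.l 816) (T.l 816))) (T.c (T.c (T.a (T.c (T.a (T.l 880) (T.a (T.l 880) (T.c (T.l 880) (T.l 880)))) (T.a (T.l 880) (T.c (T.l 880) (T.l 880)))) (T.c (T.a (T.c (T.l 880) (T.l 880)) (T.l 880)) (T.a (T.l 880) (T.l 880)))) (T.a (T.a (T.c (T.l 816) (T.l 816)) (T.c (T.l 880) (T.l 880))) (T.c (T.c (T.l 880) (T.l 880)) (T.c (T.l 880) (T.l 880))))) (T.a (T.c (T.a (T.l 816) (T.c (T.l 880) (T.l 816))) (T.c (T.l 880) (T.l 880))) (T.c (T.c (T.l 880) (T.l 880)) (T.c (T.l 816) (T.l 816)))))) (T.c (T.a (T.c (T.a (T.c (T.c (T.l 880) (T.l 880)) (T.c (T.l 880) (T.l 880))) (T.c (T.l 880) (T.l 880))) (T.a (T.c (T.l 880) (T.l 880)) (T.c (T.l 880) (T.l 816)))) (T.c (T.a (T.c (T.l 880) (T.l 880)) (T.c (T.l 880) (T.l 880))) (T.a (T.c (T.l 816) (T.l 816)) (T.l 884)))) (T.a (T.c (T.a (T.c (T.l 816) (T.l 816))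 (T.l 880)) (T.a (T.l 816) (T.l 816))) (T.c (T.a (T.l 880) (T.l 816)) (T.c (T.l 884) (T.l 884)))))), by decide +kernel⟩

def A012E_001_3_484_1 :
    ∃ t, chk3 (onCell 0 53687091 0 1073741824 134217728 67108864 (corT true 1 c0F cA012E gF0q0 gF0q1 gF1q2 gF2q2 true true)) t 3 484 1 = true :=
  ⟨(T.a (T.a (T.c (T.c (T.c (T.l 880) (T.l 816)) (T.l 880)) (T.c (T.l 816) (T.l 816))) (T.c (T.c (T.a (T.a (T.c (T.l 880) (T.l 880)) (T.c (T.a (T.c (T.l 880) (T.l 880)) (T.c (T.l 880) (T.l 880))) (T.c (T.l 880) (T.l 880)))) (T.c (T.a (T.c (T.l 880) (T.l 880)) (T.l 880)) (T.a (T.l 880) (T.l 880)))) (T.a (T.a (T.c (T.l 816) (T.l 816)) (T.c (T.l 880) (T.l 880))) (T.c (T.c (T.l 880) (T.l 880)) (T.c (T.l 880) (T.l 880))))) (T.a (T.c (T.a (T.l 816) (T.c (T.l 880) (T.l 816))) (T.a (T.l 816) (T.l 880))) (T.c (T.c (T.l 880) (T.l 880)) (T.c (T.l 816) (T.l 816)))))) (T.c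 (T.a (T.c (T.a (T.c (T.c (T.l 880) (T.l 880)) (T.c (T.l 880) (T.l 880))) (T.c (T.l 880) (T.l 880))) (T.a (T.c (T.l 880) (T.l 880)) (T.c (T.l 880) (T.l 816)))) (T.c (T.a (T.c (T.l 880) (T.l 880)) (T.c (T.l 880) (T.l 880))) (T.a (T.c (T.l 816) (T.l 816)) (T.l 884)))) (T.a (T.c (T.a (T.c (T.l 816) (T.l 816)) (T.l 880)) (T.a (T.l 816) (T.l 816))) (T.c (T.a (T.l 880) (T.l 816)) (T.c (T.l 884) (T.l 884)))))), by decide +kernel⟩

def A012E_001_6_485_1 :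
    ∃ t, chk3 (onCell 0 53687091 0 1073741824 134217728 67108864 (corT true 1 c0F cA012E gF0q0 gF0q1 gF1q2 gF2q2 true true)) t 6 485 1 = true :=
  ⟨(T.b (T.a (T.c (T.c (T.c (T.l 880) (T.l 816)) (T.l 880)) (T.c (T.l 816) (T.l 816))) (T.c (T.c (T.a (T.c (T.a (T.l 880) (T.c (T.c (T.l 880) (T.l 880)) (T.l 880))) (T.a (T.l 880) (T.c (T.l 880) (T.l 880)))) (T.c (T.a (T.c (T.l 880) (T.l 880)) (T.l 880)) (T.a (T.l 880) (T.l 880)))) (T.a (T.a (T.c (T.l 816) (T.l 816)) (T.c (T.l 880) (T.l 880))) (T.c (T.c (T.l 880) (T.l 880)) (T.l 880)))) (T.a (T.c (T.a (T.l 816) (T.c (T.l 880) (T.l 816))) (T.c (T.l 880) (T.l 880))) (T.c (T.c (T.l 880) (T.l 816)) (T.l 880))))) (T.b (T.a (T.c (T.c (T.c (T.l 880) (T.l 816)) (T.l 880)) (T.c (T.l 816) (T.l 816))) (T.c (T.c (T.a (T.c (T.a (T.l 880) (T.c (T.c (T.l 880) (T.l 880)) (T.l 880))) (T.a (T.l 880) (T.c (T.l 880) (T.l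 880)))) (T.c (T.a (T.l 880) (T.l 880)) (T.a (T.l 880) (T.l 880)))) (T.a (T.a (T.c (T.l 816) (T.l 816)) (T.c (T.l 880) (T.l 880))) (T.c (T.c (T.l 880) (T.l 880)) (T.l 880)))) (T.a (T.c (T.a (T.l 816) (T.c (T.l 816) (T.l 816))) (T.c (T.l 880) (T.l 880))) (T.c (T.c (T.l 880) (T.l 816)) (T.l 880))))) (T.a (T.c (T.c (T.c (T.l 880) (T.l 816)) (T.l 880)) (T.c (T.l 816) (T.l 816))) (T.c (T.c (T.a (T.c (T.a (T.l 880) (T.c (T.c (T.l 880) (T.l 880)) (T.l 880))) (T.a (T.l 880) (T.c (T.l 880) (T.l 880)))) (T.c (T.a (T.l 880) (T.l 880)) (T.a (T.l 880) (T.l 880)))) (T.a (T.a (T.c (T.l 816) (T.l 816)) (T.c (T.l 880) (T.l 880))) (T.c (T.c (T.l 880) (T.l 880)) (T.l 880)))) (T.a (T.c (T.a (T.l 816) (T.c (T.l 816) (T.l 816))) (T.c (T.l 880) (T.l 880))) (T.c (T.c (T.l 880) (T.l 816)) (T.l 880))))))), by decide +kernel⟩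

def A012E_001_7_485_1 :
    ∃ t, chk3 (onCell 0 53687091 0 1073741824 134217728 67108864 (corT true 1 c0F cA012E gF0q0 gF0q1 gF1q2 gF2q2 true true)) t 7 485 1 = true :=
  ⟨(T.b (T.a (T.c (T.c (T.a (T.c (T.c (T.l 880) (T.l 880)) (T.l 880)) (T.c (T.l 880) (T.l 880))) (T.a (T.c (T.l 880) (T.l 816)) (T.c (T.l 816) (T.l 816)))) (T.c (T.a (T.l 880) (T.l 880)) (T.a (T.l 816) (T.l 816)))) (T.c (T.c (T.a (T.c (T.l 880) (T.l 880)) (T.c (T.l 880) (T.l 880))) (T.a (T.c (T.l 816) (T.l 816)) (T.l 880))) (T.c (T.a (T.l 816) (T.l 816)) (T.c (T.l 884) (T.l 816))))) (T.a (T.c (T.c (T.a (T.c (T.c (T.l 880) (T.l 880)) (T.l 880)) (T.c (T.l 880) (T.l 880))) (T.a (T.c (T.l 880) (T.l 816)) (T.c (T.l 816) (T.l 816)))) (T.c (T.a (T.l 880) (T.l 880)) (T.a (T.l 816) (T.l 816)))) (T.c (T.c (T.a (T.c (T.l 880) (T.l 880)) (T.c (T.l 880) (T.l 880))) (T.a (T.c (T.l 816) (T.l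 816)) (T.l 880))) (T.c (T.a (T.l 816) (T.l 816)) (T.c (T.l 884) (T.l 816)))))), by decide +kernel⟩

def A012E_001_6_972_1 :
    ∃ t, chk3 (onCell 0 53687091 0 1073741824 134217728 67108864 (corT true 1 c0F cA012E gF0q0 gF0q1 gF1q2 gF2q2 true true)) t 6 972 1 = true :=
  ⟨(T.b (T.a (T.c (T.c (T.c (T.l 880) (T.l 816)) (T.l 880)) (T.c (T.l 816) (T.l 816))) (T.c (T.c (T.a (T.c (T.a (T.l 880) (T.c (T.c (T.l 880) (T.l 880)) (T.l 880))) (T.a (T.l 880) (T.c (T.l 880) (T.l 880)))) (T.c (T.a (T.l 880) (T.l 880)) (T.a (T.l 880) (T.l 880)))) (T.a (T.a (T.c (T.l 816) (T.l 816)) (T.c (T.l 880) (T.l 880))) (T.c (T.c (T.l 880) (T.l 880)) (T.l 880)))) (T.a (T.c (T.a (T.l 816) (T.c (T.l 816) (T.l 816))) (T.c (T.l 880) (T.l 880))) (T.c (T.c (T.l 880) (T.l 816)) (T.l 880))))) (T.a (T.c (T.c (T.c (T.l 880) (T.l 816)) (T.l 880)) (T.c (T.l 816) (T.l 816))) (T.c (T.c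 (T.a (T.c (T.a (T.l 880) (T.c (T.c (T.l 880) (T.l 880)) (T.l 880))) (T.a (T.l 880) (T.c (T.l 880) (T.l 880)))) (T.c (T.a (T.l 880) (T.l 880)) (T.a (T.l 880) (T.l 880)))) (T.a (T.a (T.c (T.l 816) (T.l 816)) (T.c (T.l 880) (T.l 880))) (T.c (T.c (T.l 880) (T.l 880)) (T.l 880)))) (T.a (T.c (T.a (T.l 816) (T.c (T.l 816) (T.l 816))) (T.c (T.l 880) (T.l 880))) (T.c (T.c (T.l 880) (T.l 816)) (T.l 880)))))), by decide +kernel⟩

def A012E_001_6_973_1 :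
    ∃ t, chk3 (onCell 0 53687091 0 1073741824 134217728 67108864 (corT true 1 c0F cA012E gF0q0 gF0q1 gF1q2 gF2q2 true true)) t 6 973 1 = true :=
  ⟨(T.a (T.c (T.c (T.c (T.l 880) (T.l 816)) (T.l 880)) (T.c (T.l 816) (T.l 816))) (T.b (T.a (T.c (T.c (T.a (T.c (T.l 880) (T.l 880)) (T.c (T.c (T.c (T.l 880) (T.l 880)) (T.l 880)) (T.c (T.l 880) (T.l 880)))) (T.a (T.c (T.l 816) (T.l 816)) (T.c (T.l 880) (T.l 880)))) (T.c (T.a (T.l 816) (T.c (T.l 816) (T.l 816))) (T.c (T.l 880) (T.l 880)))) (T.c (T.c (T.c (T.a (T.l 880) (T.l 880)) (T.a (T.l 880) (T.l 880))) (T.c (T.c (T.l 880) (T.l 880)) (T.l 880))) (T.c (T.c (T.l 880) (T.l 816)) (T.l 880)))) (T.a (T.c (T.c (T.a (T.c (T.l 880) (T.l 880)) (T.c (T.c (T.c (T.l 880) (T.l 880)) (T.l 880)) (T.c (T.l 880) (T.l 880)))) (T.a (T.c (T.l 816) (T.l 816)) (T.c (T.l 880) (T.l 880)))) (T.c (T.a (T.l 816) (T.c (T.l 816)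 (T.l 816))) (T.c (T.l 880) (T.l 880)))) (T.c (T.c (T.c (T.a (T.l 880) (T.l 880)) (T.a (T.l 880) (T.l 880))) (T.c (T.c (T.l 880) (T.l 880)) (T.l 880))) (T.c (T.c (T.l 880) (T.l 816)) (T.l 880)))))), by decide +kernel⟩

def A012E_001_7_486_1 :
    ∃ t, chk3 (onCell 0 53687091 0 1073741824 134217728 67108864 (corT true 1 c0F cA012E gF0q0 gF0q1 gF1q2 gF2q2 true true)) t 7 486 1 = true :=
  ⟨(T.b (T.a (T.c (T.c (T.a (T.c (T.c (T.l 880) (T.l 880)) (T.l 880)) (T.c (T.l 880) (T.l 880))) (T.a (T.c (T.l 880) (T.l 816)) (T.c (T.l 816) (T.l 816)))) (T.c (T.a (T.l 880) (T.l 880)) (T.a (T.l 816) (T.l 816)))) (T.c (T.c (T.a (T.c (T.l 880) (T.l 880)) (T.c (T.l 880) (T.l 880))) (T.a (T.c (T.l 816) (T.l 816)) (T.l 880))) (T.c (T.a (T.l 816) (T.l 816)) (T.c (T.l 884) (T.l 816))))) (T.a (T.b (T.c (T.c (T.a (T.c (T.c (T.l 880) (T.l 880)) (T.l 880)) (T.c (T.l 880) (T.l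 880))) (T.a (T.c (T.l 880) (T.l 816)) (T.c (T.l 816) (T.l 816)))) (T.c (T.a (T.l 880) (T.l 880)) (T.a (T.l 816) (T.l 816)))) (T.a (T.c (T.c (T.c (T.c (T.l 880) (T.l 880)) (T.l 880)) (T.c (T.l 880) (T.l 816))) (T.c (T.l 880) (T.l 816))) (T.c (T.c (T.c (T.l 880) (T.l 880)) (T.c (T.l 816) (T.l 816))) (T.c (T.l 880) (T.l 816))))) (T.b (T.c (T.c (T.a (T.c (T.l 880) (T.l 880)) (T.c (T.l 880) (T.l 880))) (T.a (T.l 880) (T.l 880))) (T.c (T.a (T.l 816) (T.l 816)) (T.c (T.l 884) (T.l 816)))) (T.a (T.c (T.c (T.c (T.l 880) (T.l 880)) (T.l 880)) (T.c (T.l 816) (T.l 816))) (T.c (T.c (T.c (T.l 880) (T.l 880)) (T.l 880)) (T.c (T.l 816) (T.l 816))))))), by decide +kernel⟩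

def A012E_001_6_974_1 :
    ∃ t, chk3 (onCell 0 53687091 0 1073741824 134217728 67108864 (corT true 1 c0F cA012E gF0q0 gF0q1 gF1q2 gF2q2 true true)) t 6 974 1 = true :=
  ⟨(T.a (T.c (T.c (T.c (T.l 880) (T.l 816)) (T.c (T.l 816) (T.l 816))) (T.c (T.l 816) (T.l 816))) (T.b (T.a (T.c (T.c (T.a (T.c (T.l 880) (T.l 880)) (T.c (T.c (T.c (T.l 880) (T.l 880)) (T.l 880)) (T.c (T.l 880) (T.l 880)))) (T.a (T.c (T.l 816) (T.l 816)) (T.c (T.l 880) (T.l 880)))) (T.c (T.a (T.l 816) (T.c (T.l 816) (T.l 816))) (T.c (T.l 880) (T.l 880)))) (T.c (T.c (T.c (T.a (T.l 880) (T.l 880)) (T.a (T.l 880) (T.l 880))) (T.c (T.c (T.l 880) (T.l 880)) (T.l 880))) (T.c (T.c (T.l 880) (T.l 816)) (T.l 880)))) (T.a (T.b (T.c (T.c (T.a (T.c (T.l 880) (T.l 880)) (T.c (T.c (T.c (T.l 880) (T.l 880)) (T.l 880)) (T.c (T.l 880) (T.l 880)))) (T.a (T.c (T.l 816) (T.l 816)) (T.c (T.l 880) (T.l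 880)))) (T.c (T.a (T.l 816) (T.c (T.l 816) (T.l 816))) (T.c (T.l 880) (T.l 880)))) (T.c (T.c (T.a (T.c (T.l 880) (T.l 880)) (T.c (T.c (T.c (T.l 880) (T.l 880)) (T.l 880)) (T.c (T.l 880) (T.l 880)))) (T.a (T.c (T.l 816) (T.l 816)) (T.c (T.l 880) (T.l 880)))) (T.c (T.a (T.l 816) (T.c (T.l 816) (T.l 816))) (T.c (T.l 880) (T.l 880))))) (T.b (T.c (T.c (T.c (T.a (T.l 880) (T.l 880)) (T.c (T.l 880) (T.l 880))) (T.c (T.c (T.l 880) (T.l 880)) (T.l 880))) (T.c (T.c (T.l 880) (T.l 816)) (T.l 880))) (T.c (T.c (T.c (T.a (T.l 880) (T.l 880)) (T.c (T.l 880) (T.l 880))) (T.c (T.c (T.l 880) (T.l 880)) (T.l 880))) (T.c (T.c (T.l 880) (T.l 816)) (T.l 880))))))), by decide +kernel⟩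

def A012E_001_6_975_1 :
    ∃ t, chk3 (onCell 0 53687091 0 1073741824 134217728 67108864 (corT true 1 c0F cA012E gF0q0 gF0q1 gF1q2 gF2q2 true true)) t 6 975 1 = true :=
  ⟨(T.a (T.c (T.c (T.c (T.l 880) (T.l 816)) (T.c (T.l 816) (T.l 816))) (T.c (T.l 816) (T.l 816))) (T.b (T.a (T.b (T.c (T.a (T.c (T.c (T.l 880) (T.l 880)) (T.c (T.l 816) (T.l 816))) (T.c (T.c (T.c (T.c (T.l 880) (T.l 880)) (T.l 880)) (T.c (T.l 880) (T.l 880))) (T.c (T.l 880) (T.l 880)))) (T.c (T.a (T.l 816) (T.c (T.l 816) (T.l 816))) (T.c (T.l 880) (T.l 880)))) (T.c (T.a (T.c (T.c (T.l 880) (T.l 880)) (T.c (T.l 816) (T.l 816))) (T.b (T.c (T.c (T.c (T.c (T.l 880) (T.l 880)) (T.l 880)) (T.c (T.l 880) (T.l 880))) (T.c (T.l 880) (T.l 880))) (T.a (T.b (T.c (T.c (T.c (T.l 880) (T.l 880)) (T.l 880)) (T.c (T.l 880) (T.l 816))) (T.l 2)) (T.l 2)))) (T.c (T.a (T.l 816) (T.c (T.l 816) (T.l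 816))) (T.c (T.l 880) (T.l 880))))) (T.b (T.c (T.a (T.c (T.c (T.l 880) (T.l 880)) (T.c (T.l 816) (T.l 816))) (T.c (T.c (T.l 880) (T.l 880)) (T.c (T.l 816) (T.l 816)))) (T.c (T.c (T.l 880) (T.l 816)) (T.l 880))) (T.a (T.b (T.c (T.c (T.c (T.l 880) (T.l 880)) (T.c (T.l 816) (T.l 816))) (T.c (T.l 880) (T.l 816))) (T.l 2)) (T.l 2)))) (T.a (T.a (T.a (T.b (T.b (T.b (T.c (T.c (T.c (T.l 880) (T.l 816)) (T.c (T.l 816) (T.l 816))) (T.c (T.l 816) (T.l 816))) (T.l 2)) (T.l 2)) (T.l 2)) (T.l 2)) (T.l 2)) (T.l 2)))), by decide +kernel⟩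

def A012E_001_7_487_1 :
    ∃ t, chk3 (onCell 0 53687091 0 1073741824 134217728 67108864 (corT true 1 c0F cA012E gF0q0 gF0q1 gF1q2 gF2q2 true true)) t 7 487 1 = true :=
  ⟨(T.b (T.a (T.b (T.a (T.c (T.c (T.c (T.c (T.l 880) (T.l 880)) (T.l 880)) (T.c (T.l 880) (T.l 816))) (T.c (T.l 880) (T.l 816))) (T.c (T.c (T.c (T.l 880) (T.l 880)) (T.c (T.l 816) (T.l 816))) (T.c (T.l 880) (T.l 816)))) (T.a (T.b (T.c (T.c (T.c (T.c (T.l 880) (T.l 880)) (T.l 880)) (T.c (T.l 880) (T.l 816))) (T.c (T.l 880) (T.l 816))) (T.c (T.c (T.c (T.c (T.l 880) (T.l 880)) (T.l 880)) (T.c (T.l 880) (T.l 816))) (T.c (T.l 880) (T.l 816)))) (T.b (T.c (T.c (T.c (T.l 880) (T.l 880)) (T.c (T.l 816) (T.l 816))) (T.c (T.l 880) (T.l 816))) (T.b (T.c (T.c (T.c (T.l 880) (T.l 880)) (T.c (T.l 816) (T.l 816))) (T.c (T.l 880) (T.l 816))) (T.l 2))))) (T.b (T.a (T.b (T.c (T.c (T.c (T.l 880) (T.l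 880)) (T.l 880)) (T.c (T.l 816) (T.l 816))) (T.c (T.c (T.c (T.l 880) (T.l 880)) (T.l 880)) (T.c (T.l 816) (T.l 816)))) (T.b (T.c (T.c (T.c (T.l 880) (T.l 880)) (T.l 880)) (T.c (T.l 816) (T.l 816))) (T.c (T.c (T.c (T.l 880) (T.l 880)) (T.l 880)) (T.c (T.l 816) (T.l 816))))) (T.a (T.b (T.c (T.c (T.c (T.l 880) (T.l 880)) (T.l 880)) (T.c (T.l 816) (T.l 816))) (T.l 2)) (T.l 2)))) (T.a (T.a (T.a (T.b (T.b (T.b (T.c (T.c (T.c (T.l 880) (T.l 816)) (T.l 880)) (T.c (T.l 816) (T.l 816))) (T.l 2)) (T.l 2)) (T.l 2)) (T.l 2)) (T.l 2)) (T.l 2))), by decide +kernel⟩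

def A012E_001_3_61_1 :
    ∃ t, chk3 (onCell 0 53687091 0 1073741824 134217728 67108864 (corT true 1 c0F cA012E gF0q0 gF0q1 gF1q2 gF2q2 true true)) t 3 61 1 = true :=
  ⟨(T.a (T.b (T.a (T.l 2) (T.l 2)) (T.l 2)) (T.l 2)), by decide +kernel⟩

def A012E_001_3_31_1 :
    ∃ t, chk3 (onCell 0 53687091 0 1073741824 134217728 67108864 (corT true 1 c0F cA012E gF0q0 gF0q1 gF1q2 gF2q2 true true)) t 3 31 1 = true :=
  ⟨(T.l 2), by decide +kernel⟩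

theorem A012E_001_6_487_1 :
    ∃ t, chk3 (onCell 0 53687091 0 1073741824 134217728 67108864 (corT true 1 c0F cA012E gF0q0 gF0q1 gF1q2 gF2q2 true true)) t 6 487 1 = true :=
  ex3_b A012E_001_6_974_1 A012E_001_6_975_1
theorem A012E_001_3_487_1 :
    ∃ t, chk3 (onCell 0 53687091 0 1073741824 134217728 67108864 (corT true 1 c0F cA012E gF0q0 gF0q1 gF1q2 gF2q2 true true)) t 3 487 1 = true :=
  ex3_a A012E_001_6_487_1 A012E_001_7_487_1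
theorem A012E_001_6_486_1 :
    ∃ t, chk3 (onCell 0 53687091 0 1073741824 134217728 67108864 (corT true 1 c0F cA012E gF0q0 gF0q1 gF1q2 gF2q2 true true)) t 6 486 1 = true :=
  ex3_b A012E_001_6_972_1 A012E_001_6_973_1
theorem A012E_001_3_486_1 :
    ∃ t, chk3 (onCell 0 53687091 0 1073741824 134217728 67108864 (corT true 1 c0F cA012E gF0q0 gF0q1 gF1q2 gF2q2 true true)) t 3 486 1 = true :=
  ex3_a A012E_001_6_486_1 A012E_001_7_486_1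
theorem A012E_001_3_243_1 :
    ∃ t, chk3 (onCell 0 53687091 0 1073741824 134217728 67108864 (corT true 1 c0F cA012E gF0q0 gF0q1 gF1q2 gF2q2 true true)) t 3 243 1 = true :=
  ex3_b A012E_001_3_486_1 A012E_001_3_487_1
theorem A012E_001_3_485_1 :
    ∃ t, chk3 (onCell 0 53687091 0 1073741824 134217728 67108864 (corT true 1 c0F cA012E gF0q0 gF0q1 gF1q2 gF2q2 true true)) t 3 485 1 = true :=
  ex3_a A012E_001_6_485_1 A012E_001_7_485_1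
theorem A012E_001_3_242_1 :
    ∃ t, chk3 (onCell 0 53687091 0 1073741824 134217728 67108864 (corT true 1 c0F cA012E gF0q0 gF0q1 gF1q2 gF2q2 true true)) t 3 242 1 = true :=
  ex3_b A012E_001_3_484_1 A012E_001_3_485_1
theorem A012E_001_3_121_1 :
    ∃ t, chk3 (onCell 0 53687091 0 1073741824 134217728 67108864 (corT true 1 c0F cA012E gF0q0 gF0q1 gF1q2 gF2q2 true true)) t 3 121 1 = true :=
  ex3_b A012E_001_3_242_1 A012E_001_3_243_1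
theorem A012E_001_3_241_1 :
    ∃ t, chk3 (onCell 0 53687091 0 1073741824 134217728 67108864 (corT true 1 c0F cA012E gF0q0 gF0q1 gF1q2 gF2q2 true true)) t 3 241 1 = true :=
  ex3_b A012E_001_3_482_1 A012E_001_3_483_1
theorem A012E_001_3_120_1 :
    ∃ t, chk3 (onCell 0 53687091 0 1073741824 134217728 67108864 (corT true 1 c0F cA012E gF0q0 gF0q1 gF1q2 gF2q2 true true)) t 3 120 1 = true :=
  ex3_b A012E_001_3_240_1 A012E_001_3_241_1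
theorem A012E_001_3_60_1 :
    ∃ t, chk3 (onCell 0 53687091 0 1073741824 134217728 67108864 (corT true 1 c0F cA012E gF0q0 gF0q1 gF1q2 gF2q2 true true)) t 3 60 1 = true :=
  ex3_b A012E_001_3_120_1 A012E_001_3_121_1
theorem A012E_001_3_30_1 :
    ∃ t, chk3 (onCell 0 53687091 0 1073741824 134217728 67108864 (corT true 1 c0F cA012E gF0q0 gF0q1 gF1q2 gF2q2 true true)) t 3 30 1 = true :=
  ex3_b A012E_001_3_60_1 A012E_001_3_61_1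
theorem A012E_001_3_15_1 :
    ∃ t, chk3 (onCell 0 53687091 0 1073741824 134217728 67108864 (corT true 1 c0F cA012E gF0q0 gF0q1 gF1q2 gF2q2 true true)) t 3 15 1 = true :=
  ex3_b A012E_001_3_30_1 A012E_001_3_31_1
theorem A012E_001_14_14_2 :
    ∃ t, chk3 (onCell 0 53687091 0 1073741824 134217728 67108864 (corT true 1 c0F cA012E gF0q0 gF0q1 gF1q2 gF2q2 true true)) t 14 14 2 = true :=
  ex3_b A012E_001_14_28_2 A012E_001_14_29_2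
theorem A012E_001_14_14_1 :
    ∃ t, chk3 (onCell 0 53687091 0 1073741824 134217728 67108864 (corT true 1 c0F cA012E gF0q0 gF0q1 gF1q2 gF2q2 true true)) t 14 14 1 = true :=
  ex3_c A012E_001_14_14_2 A012E_001_14_14_3
theorem A012E_001_7_14_1 :
    ∃ t, chk3 (onCell 0 53687091 0 1073741824 134217728 67108864 (corT true 1 c0F cA012E gF0q0 gF0q1 gF1q2 gF2q2 true true)) t 7 14 1 = true :=
  ex3_a A012E_001_14_14_1 A012E_001_15_14_1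
theorem A012E_001_13_14_2 :
    ∃ t, chk3 (onCell 0 53687091 0 1073741824 134217728 67108864 (corT true 1 c0F cA012E gF0q0 gF0q1 gF1q2 gF2q2 true true)) t 13 14 2 = true :=
  ex3_b A012E_001_13_28_2 A012E_001_13_29_2
theorem A012E_001_13_14_1 :
    ∃ t, chk3 (onCell 0 53687091 0 1073741824 134217728 67108864 (corT true 1 c0F cA012E gF0q0 gF0q1 gF1q2 gF2q2 true true)) t 13 14 1 = true :=
  ex3_c A012E_001_13_14_2 A012E_001_13_14_3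
theorem A012E_001_6_14_1 :
    ∃ t, chk3 (onCell 0 53687091 0 1073741824 134217728 67108864 (corT true 1 c0F cA012E gF0q0 gF0q1 gF1q2 gF2q2 true true)) t 6 14 1 = true :=
  ex3_a A012E_001_12_14_1 A012E_001_13_14_1
theorem A012E_001_3_14_1 :
    ∃ t, chk3 (onCell 0 53687091 0 1073741824 134217728 67108864 (corT true 1 c0F cA012E gF0q0 gF0q1 gF1q2 gF2q2 true true)) t 3 14 1 = true :=
  ex3_a A012E_001_6_14_1 A012E_001_7_14_1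
theorem A012E_001_3_7_1 :
    ∃ t, chk3 (onCell 0 53687091 0 1073741824 134217728 67108864 (corT true 1 c0F cA012E gF0q0 gF0q1 gF1q2 gF2q2 true true)) t 3 7 1 = true :=
  ex3_b A012E_001_3_14_1 A012E_001_3_15_1
theorem A012E_001_1_7_1 :
    ∃ t, chk3 (onCell 0 53687091 0 1073741824 134217728 67108864 (corT true 1 c0F cA012E gF0q0 gF0q1 gF1q2 gF2q2 true true)) t 1 7 1 = true :=
  ex3_a A012E_001_2_7_1 A012E_001_3_7_1
theorem A012E_001_7_27_1 :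
    ∃ t, chk3 (onCell 0 53687091 0 1073741824 134217728 67108864 (corT true 1 c0F cA012E gF0q0 gF0q1 gF1q2 gF2q2 true true)) t 7 27 1 = true :=
  ex3_a A012E_001_14_27_1 A012E_001_15_27_1
theorem A012E_001_7_13_1 :
    ∃ t, chk3 (onCell 0 53687091 0 1073741824 134217728 67108864 (corT true 1 c0F cA012E gF0q0 gF0q1 gF1q2 gF2q2 true true)) t 7 13 1 = true :=
  ex3_b A012E_001_7_26_1 A012E_001_7_27_1
theorem A012E_001_3_13_1 :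
    ∃ t, chk3 (onCell 0 53687091 0 1073741824 134217728 67108864 (corT true 1 c0F cA012E gF0q0 gF0q1 gF1q2 gF2q2 true true)) t 3 13 1 = true :=
  ex3_a A012E_001_6_13_1 A012E_001_7_13_1
theorem A012E_001_1_13_1 :
    ∃ t, chk3 (onCell 0 53687091 0 1073741824 134217728 67108864 (corT true 1 c0F cA012E gF0q0 gF0q1 gF1q2 gF2q2 true true)) t 1 13 1 = true :=
  ex3_a A012E_001_2_13_1 A012E_001_3_13_1
theorem A012E_001_1_6_1 :
    ∃ t, chk3 (onCell 0 53687091 0 1073741824 134217728 67108864 (corT true 1 c0F cA012E gF0q0 gF0q1 gF1q2 gF2q2 true true)) t 1 6 1 = true :=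
  ex3_b A012E_001_1_12_1 A012E_001_1_13_1
theorem A012E_001_1_3_1 :
    ∃ t, chk3 (onCell 0 53687091 0 1073741824 134217728 67108864 (corT true 1 c0F cA012E gF0q0 gF0q1 gF1q2 gF2q2 true true)) t 1 3 1 = true :=
  ex3_b A012E_001_1_6_1 A012E_001_1_7_1
theorem A012E_001 :
    ∃ t, chk3 (onCell 0 53687091 0 1073741824 134217728 67108864 (corT true 1 c0F cA012E gF0q0 gF0q1 gF1q2 gF2q2 true true)) t 1 1 1 = true :=
  ex3_b A012E_001_1_2_1 A012E_001_1_3_1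

def A012E_002_1_2_1 :
    ∃ t, chk3 (onCell 0 53687091 0 1073741824 134217728 67108864 (corT true 1 c0F cA012E gF0q0 gF0q1 gF2q2 gF3q2 true false)) t 1 2 1 = true :=
  ⟨(T.l 1), by decide +kernel⟩

def A012E_002_1_6_1 :
    ∃ t, chk3 (onCell 0 53687091 0 1073741824 134217728 67108864 (corT true 1 c0F cA012E gF0q0 gF0q1 gF2q2 gF3q2 true false)) t 1 6 1 = true :=
  ⟨(T.l 1), by decide +kernel⟩

def A012E_002_1_14_1 :
    ∃ t, chk3 (onCell 0 53687091 0 1073741824 134217728 67108864 (corT true 1 c0F cA012E gF0q0 gF0q1 gF2q2 gF3q2 true false)) t 1 14 1 = true :=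
  ⟨(T.l 1), by decide +kernel⟩

def A012E_002_2_15_1 :
    ∃ t, chk3 (onCell 0 53687091 0 1073741824 134217728 67108864 (corT true 1 c0F cA012E gF0q0 gF0q1 gF2q2 gF3q2 true false)) t 2 15 1 = true :=
  ⟨(T.c (T.c (T.b (T.b (T.a (T.l 1) (T.c (T.l 816) (T.l 816))) (T.c (T.a (T.l 816) (T.l 816)) (T.l 880))) (T.a (T.l 816) (T.c (T.b (T.l 816) (T.l 816)) (T.l 880)))) (T.b (T.b (T.a (T.l 1) (T.l 884)) (T.a (T.l 816) (T.l 880))) (T.a (T.l 816) (T.c (T.l 816) (T.l 816))))) (T.c (T.b (T.b (T.a (T.l 1) (T.l 816)) (T.l 880)) (T.a (T.l 816) (T.c (T.l 816) (T.l 816)))) (T.b (T.a (T.b (T.l 1) (T.l 816)) (T.l 816)) (T.c (T.l 880) (T.l 816))))), by decide +kernel⟩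

def A012E_002_12_15_2 :
    ∃ t, chk3 (onCell 0 53687091 0 1073741824 134217728 67108864 (corT true 1 c0F cA012E gF0q0 gF0q1 gF2q2 gF3q2 true false)) t 12 15 2 = true :=
  ⟨(T.c (T.b (T.c (T.b (T.l 880) (T.c (T.l 880) (T.l 880))) (T.b (T.l 880) (T.l 880))) (T.a (T.c (T.b (T.l 816) (T.l 880)) (T.l 880)) (T.c (T.b (T.a (T.l 880) (T.c (T.b (T.l 880) (T.l 880)) (T.l 880))) (T.a (T.c (T.l 816) (T.l 816)) (T.c (T.b (T.l 880) (T.l 880)) (T.l 880)))) (T.b (T.b (T.l 880) (T.c (T.l 880) (T.l 880))) (T.a (T.b (T.l 816) (T.l 880)) (T.c (T.l 880) (T.l 880))))))) (T.b (T.c (T.b (T.l 816) (T.l 880)) (T.l 880)) (T.a (T.c (T.l 816) (T.l 816)) (T.c (T.b (T.b (T.l 816) (T.c (T.l 880) (T.l 880))) (T.a (T.l 880) (T.c (T.l 880) (T.l 816)))) (T.a (T.l 880) (T.b (T.l 880) (T.b (T.l 880) (T.l 880)))))))), by decide +kernel⟩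

def A012E_002_13_15_2 :
    ∃ t, chk3 (onCell 0 53687091 0 1073741824 134217728 67108864 (corT true 1 c0F cA012E gF0q0 gF0q1 gF2q2 gF3q2 true false)) t 13 15 2 = true :=
  ⟨(T.c (T.b (T.c (T.a (T.b (T.b (T.l 1) (T.c (T.b (T.l 1) (T.l 880)) (T.l 880))) (T.c (T.a (T.l 880) (T.l 880)) (T.b (T.l 880) (T.l 880)))) (T.b (T.b (T.l 1) (T.b (T.l 1) (T.l 880))) (T.c (T.l 880) (T.l 880)))) (T.a (T.b (T.b (T.l 1) (T.b (T.l 1) (T.l 880))) (T.c (T.b (T.l 880) (T.l 880)) (T.b (T.l 880) (T.l 880)))) (T.b (T.b (T.l 1) (T.l 880)) (T.b (T.l 880) (T.l 880))))) (T.c (T.a (T.b (T.c (T.a (T.b (T.l 880) (T.l 880)) (T.l 880)) (T.a (T.l 880) (T.l 880))) (T.c (T.b (T.l 880) (T.l 880)) (T.b (T.l 880) (T.l 880)))) (T.b (T.b (T.l 880) (T.l 880)) (T.b (T.l 880) (T.l 880)))) (T.a (T.b (T.a (T.c (T.l 880) (T.l 880)) (T.l 880)) (T.c (T.b (T.l 880) (T.l 816)) (T.l 880))) (T.b (T.b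 (T.l 880) (T.l 880)) (T.l 880))))) (T.b (T.a (T.c (T.b (T.b (T.l 1) (T.l 880)) (T.c (T.l 880) (T.l 880))) (T.b (T.l 880) (T.b (T.l 880) (T.l 880)))) (T.c (T.b (T.l 880) (T.l 880)) (T.b (T.l 880) (T.l 880)))) (T.a (T.c (T.b (T.c (T.l 880) (T.l 880)) (T.c (T.l 880) (T.l 880))) (T.a (T.b (T.l 880) (T.l 880)) (T.l 880))) (T.c (T.b (T.l 880) (T.l 880)) (T.b (T.l 816) (T.l 816)))))), by decide +kernel⟩

def A012E_002_6_15_3 :
    ∃ t, chk3 (onCell 0 53687091 0 1073741824 134217728 67108864 (corT true 1 c0F cA012E gF0q0 gF0q1 gF2q2 gF3q2 true false)) t 6 15 3 = true :=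
  ⟨(T.a (T.b (T.c (T.c (T.l 816) (T.l 816)) (T.l 880)) (T.c (T.a (T.c (T.l 816) (T.l 816)) (T.c (T.a (T.l 816) (T.b (T.l 880) (T.l 880))) (T.b (T.l 880) (T.a (T.l 816) (T.l 880))))) (T.a (T.b (T.l 816) (T.l 816)) (T.b (T.c (T.l 880) (T.l 816)) (T.c (T.b (T.l 816) (T.l 880)) (T.b (T.l 816) (T.l 880))))))) (T.c (T.b (T.a (T.c (T.b (T.l 880) (T.l 880)) (T.b (T.l 816) (T.l 880))) (T.c (T.l 880) (T.l 880))) (T.a (T.c (T.a (T.b (T.l 816) (T.l 816)) (T.l 880)) (T.b (T.l 880) (T.l 880))) (T.c (T.b (T.l 816) (T.l 816)) (T.b (T.l 816) (T.l 816))))) (T.b (T.a (T.b (T.l 880) (T.b (T.l 880) (T.l 880))) (T.b (T.l 880) (T.l 880))) (T.a (T.b (T.c (T.l 880) (T.l 816)) (T.c (T.l 816) (T.l 816))) (T.c (T.l 880) (T.l 816)))))), by decide +kernel⟩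

def A012E_002_7_15_1 :
    ∃ t, chk3 (onCell 0 53687091 0 1073741824 134217728 67108864 (corT true 1 c0F cA012E gF0q0 gF0q1 gF2q2 gF3q2 true false)) t 7 15 1 = true :=
  ⟨(T.c (T.c (T.a (T.b (T.c (T.b (T.a (T.l 880) (T.l 880)) (T.a (T.l 880) (T.l 880))) (T.b (T.b (T.l 1) (T.l 880)) (T.b (T.l 880) (T.l 880)))) (T.c (T.b (T.a (T.l 880) (T.l 880)) (T.a (T.l 880) (T.l 880))) (T.b (T.b (T.l 880) (T.l 880)) (T.b (T.l 880) (T.l 880))))) (T.b (T.c (T.b (T.b (T.l 1) (T.l 880)) (T.b (T.l 880) (T.l 880))) (T.b (T.l 884) (T.l 880))) (T.c (T.b (T.b (T.l 880) (T.l 880)) (T.b (T.l 880) (T.l 880))) (T.b (T.b (T.l 880) (T.l 880)) (T.b (T.l 880) (T.l 880)))))) (T.a (T.b (T.c (T.a (T.l 880) (T.l 880)) (T.b (T.l 880) (T.l 880))) (T.c (T.a (T.b (T.l 816) (T.l 816)) (T.l 880)) (T.a (T.l 880) (T.l 880)))) (T.b (T.c (T.b (T.l 884) (T.l 880)) (T.b (T.l 816) (T.l 880)))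 (T.c (T.b (T.l 880) (T.b (T.l 880) (T.l 880))) (T.b (T.l 880) (T.b (T.l 816) (T.l 880))))))) (T.b (T.c (T.a (T.b (T.b (T.l 1) (T.l 880)) (T.c (T.l 880) (T.l 816))) (T.b (T.l 884) (T.b (T.l 880) (T.l 880)))) (T.a (T.b (T.l 884) (T.b (T.l 816) (T.l 880))) (T.b (T.l 820) (T.l 880)))) (T.c (T.a (T.b (T.c (T.l 880) (T.l 816)) (T.c (T.b (T.l 816) (T.l 816)) (T.l 880))) (T.b (T.c (T.l 880) (T.l 816)) (T.c (T.l 880) (T.l 880)))) (T.a (T.b (T.b (T.l 880) (T.l 880)) (T.c (T.l 816) (T.l 816))) (T.b (T.b (T.l 816) (T.l 880)) (T.c (T.l 880) (T.l 880))))))), by decide +kernel⟩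

theorem A012E_002_6_15_2 :
    ∃ t, chk3 (onCell 0 53687091 0 1073741824 134217728 67108864 (corT true 1 c0F cA012E gF0q0 gF0q1 gF2q2 gF3q2 true false)) t 6 15 2 = true :=
  ex3_a A012E_002_12_15_2 A012E_002_13_15_2
theorem A012E_002_6_15_1 :
    ∃ t, chk3 (onCell 0 53687091 0 1073741824 134217728 67108864 (corT true 1 c0F cA012E gF0q0 gF0q1 gF2q2 gF3q2 true false)) t 6 15 1 = true :=
  ex3_c A012E_002_6_15_2 A012E_002_6_15_3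
theorem A012E_002_3_15_1 :
    ∃ t, chk3 (onCell 0 53687091 0 1073741824 134217728 67108864 (corT true 1 c0F cA012E gF0q0 gF0q1 gF2q2 gF3q2 true false)) t 3 15 1 = true :=
  ex3_a A012E_002_6_15_1 A012E_002_7_15_1
theorem A012E_002_1_15_1 :
    ∃ t, chk3 (onCell 0 53687091 0 1073741824 134217728 67108864 (corT true 1 c0F cA012E gF0q0 gF0q1 gF2q2 gF3q2 true false)) t 1 15 1 = true :=
  ex3_a A012E_002_2_15_1 A012E_002_3_15_1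
theorem A012E_002_1_7_1 :
    ∃ t, chk3 (onCell 0 53687091 0 1073741824 134217728 67108864 (corT true 1 c0F cA012E gF0q0 gF0q1 gF2q2 gF3q2 true false)) t 1 7 1 = true :=
  ex3_b A012E_002_1_14_1 A012E_002_1_15_1
theorem A012E_002_1_3_1 :
    ∃ t, chk3 (onCell 0 53687091 0 1073741824 134217728 67108864 (corT true 1 c0F cA012E gF0q0 gF0q1 gF2q2 gF3q2 true false)) t 1 3 1 = true :=
  ex3_b A012E_002_1_6_1 A012E_002_1_7_1
theorem A012E_002 :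
    ∃ t, chk3 (onCell 0 53687091 0 1073741824 134217728 67108864 (corT true 1 c0F cA012E gF0q0 gF0q1 gF2q2 gF3q2 true false)) t 1 1 1 = true :=
  ex3_b A012E_002_1_2_1 A012E_002_1_3_1

def A012L_004 :
    ∃ t, chk3 (onCell 0 67108864 0 1073741824 134217728 67108864 (corT true 1 c0F cA012L gF0q0 gF0q1 gF4q2 gF5q2 false true)) t 1 1 1 = true :=
  ⟨(T.l 2), by decide +kernel⟩

def A012R_030 :
    ∃ t, chk3 (onCell 0 67108864 0 1073741824 134217728 67108864 (corT true 1 c0F cA012R gF0q0 gF3q1 gF0q2 gF1q2 true true)) t 1 1 1 = true :=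
  ⟨(T.b (T.l 2) (T.l 2)), by decide +kernel⟩

def A012R_031 :
    ∃ t, chk3 (onCell 0 67108864 0 1073741824 134217728 67108864 (corT true 1 c0F cA012R gF0q0 gF3q1 gF1q2 gF2q2 true true)) t 1 1 1 = true :=
  ⟨(T.l 2), by decide +kernel⟩

def A012R_032_1_2_1 :
    ∃ t, chk3 (onCell 0 67108864 0 1073741824 134217728 67108864 (corT true 1 c0F cA012R gF0q0 gF3q1 gF2q2 gF3q2 true false)) t 1 2 1 = true :=
  ⟨(T.a (T.c (T.b (T.b (T.c (T.l 204) (T.l 204)) (T.l 204)) (T.l 64)) (T.b (T.c (T.l 220) (T.l 204)) (T.l 0))) (T.a (T.c (T.b (T.c (T.l 0) (T.l 204)) (T.l 64)) (T.b (T.b (T.l 204) (T.l 204)) (T.l 0))) (T.b (T.c (T.b (T.a (T.c (T.b (T.l 204) (T.l 204)) (T.b (T.l 204) (T.l 204))) (T.c (T.b (T.l 204) (T.l 204)) (T.b (T.l 204) (T.l 204)))) (T.a (T.l 0) (T.b (T.l 460) (T.l 0)))) (T.b (T.a (T.c (T.l 204) (T.l 204)) (T.c (T.l 220) (T.l 204))) (T.b (T.l 460)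 (T.l 0)))) (T.b (T.c (T.l 0) (T.l 0)) (T.c (T.c (T.l 880) (T.l 816)) (T.b (T.l 816) (T.l 816))))))), by decide +kernel⟩

def A012R_032_1_6_1 :
    ∃ t, chk3 (onCell 0 67108864 0 1073741824 134217728 67108864 (corT true 1 c0F cA012R gF0q0 gF3q1 gF2q2 gF3q2 true false)) t 1 6 1 = true :=
  ⟨(T.a (T.c (T.c (T.l 816) (T.l 816)) (T.l 880)) (T.a (T.b (T.c (T.l 880) (T.l 816)) (T.c (T.a (T.c (T.l 816) (T.l 816)) (T.c (T.l 816) (T.l 816))) (T.a (T.l 816) (T.b (T.l 816) (T.l 816))))) (T.c (T.b (T.c (T.b (T.l 816) (T.l 880)) (T.b (T.l 816) (T.l 816))) (T.c (T.a (T.l 880) (T.l 880)) (T.b (T.l 816) (T.l 880)))) (T.b (T.b (T.l 880) (T.l 880)) (T.c (T.b (T.l 816) (T.l 816)) (T.b (T.l 816) (T.l 816))))))), by decide +kernel⟩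

def A012R_032_1_7_1 :
    ∃ t, chk3 (onCell 0 67108864 0 1073741824 134217728 67108864 (corT true 1 c0F cA012R gF0q0 gF3q1 gF2q2 gF3q2 true false)) t 1 7 1 = true :=
  ⟨(T.a (T.b (T.c (T.c (T.l 816) (T.l 816)) (T.l 880)) (T.a (T.c (T.c (T.l 816) (T.l 816)) (T.c (T.l 816) (T.l 816))) (T.c (T.a (T.c (T.l 816) (T.l 816)) (T.c (T.a (T.l 816) (T.b (T.l 816) (T.l 816))) (T.a (T.l 816) (T.l 816)))) (T.a (T.c (T.l 816) (T.l 816)) (T.b (T.l 816) (T.c (T.l 816) (T.l 816))))))) (T.a (T.c (T.b (T.c (T.a (T.b (T.l 816) (T.l 816)) (T.b (T.l 816) (T.l 880))) (T.a (T.l 880) (T.l 880))) (T.c (T.a (T.b (T.b (T.l 816) (T.l 880)) (T.c (T.l 816) (T.l 816))) (T.c (T.b (T.l 816) (T.l 880)) (T.b (T.l 816) (T.l 816)))) (T.a (T.b (T.l 816) (T.b (T.l 816) (T.l 880))) (T.b (T.l 880) (T.a (T.l 816) (T.l 880)))))) (T.b (T.a (T.c (T.l 816) (T.l 816)) (T.c (T.l 816) (T.l 816)))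 (T.a (T.c (T.b (T.l 816) (T.l 880)) (T.b (T.l 816) (T.l 816))) (T.c (T.b (T.l 816) (T.l 880)) (T.b (T.l 816) (T.l 816)))))) (T.c (T.b (T.c (T.a (T.b (T.l 816) (T.l 880)) (T.b (T.l 880) (T.l 880))) (T.a (T.l 880) (T.b (T.l 816) (T.l 816)))) (T.c (T.a (T.c (T.b (T.l 816) (T.b (T.l 816) (T.l 880))) (T.b (T.l 816) (T.l 880))) (T.b (T.c (T.l 880) (T.l 816)) (T.c (T.a (T.l 880) (T.b (T.l 816) (T.l 880))) (T.b (T.l 816) (T.l 880))))) (T.a (T.b (T.l 880) (T.c (T.l 816) (T.l 816))) (T.b (T.l 880) (T.c (T.l 880) (T.l 880)))))) (T.b (T.c (T.a (T.l 816) (T.l 880)) (T.b (T.l 816) (T.l 880))) (T.c (T.a (T.c (T.l 880) (T.l 880)) (T.b (T.l 816) (T.a (T.l 816) (T.l 880)))) (T.a (T.b (T.l 816) (T.l 816)) (T.b (T.l 816) (T.l 880)))))))), by decide +kernel⟩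

theorem A012R_032_1_3_1 :
    ∃ t, chk3 (onCell 0 67108864 0 1073741824 134217728 67108864 (corT true 1 c0F cA012R gF0q0 gF3q1 gF2q2 gF3q2 true false)) t 1 3 1 = true :=
  ex3_b A012R_032_1_6_1 A012R_032_1_7_1
theorem A012R_032 :
    ∃ t, chk3 (onCell 0 67108864 0 1073741824 134217728 67108864 (corT true 1 c0F cA012R gF0q0 gF3q1 gF2q2 gF3q2 true false)) t 1 1 1 = true :=
  ex3_b A012R_032_1_2_1 A012R_032_1_3_1

def A012R_040 :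
    ∃ t, chk3 (onCell 0 67108864 0 1073741824 134217728 67108864 (corT true 1 c0F cA012R gF0q0 gF4q1 gF0q2 gF1q2 true true)) t 1 1 1 = true :=
  ⟨(T.l 2), by decide +kernel⟩

def A012R_041 :
    ∃ t, chk3 (onCell 0 67108864 0 1073741824 134217728 67108864 (corT true 1 c0F cA012R gF0q0 gF4q1 gF1q2 gF2q2 true true)) t 1 1 1 = true :=
  ⟨(T.l 2), by decide +kernel⟩

def A012R_042_1_2_1 :
    ∃ t, chk3 (onCell 0 67108864 0 1073741824 134217728 67108864 (corT true 1 c0F cA012R gF0q0 gF4q1 gF2q2 gF3q2 true false)) t 1 2 1 = true :=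
  ⟨(T.a (T.c (T.b (T.c (T.l 0) (T.l 0)) (T.b (T.l 816) (T.l 816))) (T.b (T.l 0) (T.l 816))) (T.a (T.c (T.c (T.l 16) (T.l 0)) (T.b (T.l 0) (T.l 816))) (T.b (T.c (T.b (T.c (T.b (T.l 0) (T.l 0)) (T.l 0)) (T.b (T.l 816) (T.l 816))) (T.b (T.b (T.l 0) (T.l 0)) (T.l 0))) (T.b (T.c (T.l 816) (T.l 816)) (T.c (T.c (T.l 880) (T.l 880)) (T.b (T.l 816) (T.l 816))))))), by decide +kernel⟩

def A012R_042_1_6_1 :
    ∃ t, chk3 (onCell 0 67108864 0 1073741824 134217728 67108864 (corT true 1 c0F cA012R gF0q0 gF4q1 gF2q2 gF3q2 true false)) t 1 6 1 = true :=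
  ⟨(T.a (T.c (T.c (T.l 816) (T.l 816)) (T.l 880)) (T.a (T.b (T.c (T.l 880) (T.l 816)) (T.c (T.a (T.c (T.l 816) (T.l 816)) (T.c (T.l 880) (T.l 816))) (T.a (T.l 816) (T.b (T.l 816) (T.l 880))))) (T.c (T.b (T.c (T.b (T.l 816) (T.l 880)) (T.b (T.l 816) (T.l 816))) (T.c (T.a (T.l 880) (T.l 880)) (T.b (T.l 880) (T.l 880)))) (T.b (T.a (T.l 880) (T.l 880)) (T.c (T.b (T.l 816) (T.l 880)) (T.b (T.l 816) (T.l 816))))))), by decide +kernel⟩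

def A012R_042_1_7_1 :
    ∃ t, chk3 (onCell 0 67108864 0 1073741824 134217728 67108864 (corT true 1 c0F cA012R gF0q0 gF4q1 gF2q2 gF3q2 true false)) t 1 7 1 = true :=
  ⟨(T.a (T.b (T.c (T.c (T.l 816) (T.l 816)) (T.b (T.l 816) (T.l 816))) (T.a (T.c (T.c (T.l 816) (T.l 816)) (T.c (T.l 816) (T.l 816))) (T.c (T.a (T.c (T.l 816) (T.l 816)) (T.c (T.a (T.l 816) (T.b (T.l 816) (T.l 816))) (T.a (T.l 816) (T.l 816)))) (T.a (T.c (T.l 816) (T.l 816)) (T.b (T.l 816) (T.c (T.l 816) (T.l 816))))))) (T.a (T.c (T.b (T.c (T.a (T.b (T.l 816) (T.l 816)) (T.b (T.l 816) (T.l 880))) (T.a (T.l 880) (T.l 880))) (T.c (T.a (T.b (T.b (T.l 816) (T.l 880)) (T.c (T.l 816) (T.l 816))) (T.c (T.b (T.l 816) (T.l 880)) (T.b (T.l 816) (T.l 816)))) (T.a (T.b (T.l 816) (T.b (T.l 816) (T.l 880))) (T.b (T.l 880) (T.a (T.l 816) (T.l 880)))))) (T.b (T.a (T.c (T.l 816) (T.l 816)) (T.c (T.l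 880) (T.l 816))) (T.a (T.c (T.b (T.l 816) (T.l 880)) (T.b (T.l 816) (T.l 816))) (T.c (T.b (T.l 816) (T.l 880)) (T.b (T.l 816) (T.l 816)))))) (T.c (T.b (T.c (T.a (T.b (T.l 816) (T.l 880)) (T.b (T.l 880) (T.l 880))) (T.a (T.l 880) (T.b (T.l 816) (T.l 880)))) (T.c (T.a (T.c (T.b (T.l 816) (T.b (T.l 816) (T.l 880))) (T.b (T.l 816) (T.l 880))) (T.b (T.c (T.l 880) (T.l 816)) (T.c (T.a (T.l 816) (T.b (T.l 816) (T.l 880))) (T.b (T.l 816) (T.l 880))))) (T.a (T.b (T.l 880) (T.c (T.l 816) (T.l 816))) (T.b (T.l 880) (T.c (T.l 880) (T.l 880)))))) (T.b (T.c (T.a (T.l 880) (T.l 880)) (T.b (T.l 880) (T.l 880))) (T.c (T.a (T.c (T.l 880) (T.l 880)) (T.b (T.l 816) (T.a (T.l 816) (T.l 880)))) (T.a (T.b (T.l 816) (T.l 816)) (T.b (T.l 816) (T.l 880)))))))), by decide +kernel⟩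

theorem A012R_042_1_3_1 :
    ∃ t, chk3 (onCell 0 67108864 0 1073741824 134217728 67108864 (corT true 1 c0F cA012R gF0q0 gF4q1 gF2q2 gF3q2 true false)) t 1 3 1 = true :=
  ex3_b A012R_042_1_6_1 A012R_042_1_7_1
theorem A012R_042 :
    ∃ t, chk3 (onCell 0 67108864 0 1073741824 134217728 67108864 (corT true 1 c0F cA012R gF0q0 gF4q1 gF2q2 gF3q2 true false)) t 1 1 1 = true :=
  ex3_b A012R_042_1_2_1 A012R_042_1_3_1

def A012R_050 :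
    ∃ t, chk3 (onCell 0 67108864 0 1073741824 134217728 67108864 (corT true 1 c0F cA012R gF0q0 gF5q1 gF0q2 gF1q2 true true)) t 1 1 1 = true :=
  ⟨(T.l 2), by decide +kernel⟩

def A012R_051 :
    ∃ t, chk3 (onCell 0 67108864 0 1073741824 134217728 67108864 (corT true 1 c0F cA012R gF0q0 gF5q1 gF1q2 gF2q2 true true)) t 1 1 1 = true :=
  ⟨(T.l 2), by decide +kernel⟩

def A012R_052_1_2_1 :
    ∃ t, chk3 (onCell 0 67108864 0 1073741824 134217728 67108864 (corT true 1 c0F cA012R gF0q0 gF5q1 gF2q2 gF3q2 true false)) t 1 2 1 = true :=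
  ⟨(T.a (T.c (T.b (T.b (T.l 0) (T.l 816)) (T.b (T.l 816) (T.l 816))) (T.b (T.l 0) (T.l 816))) (T.b (T.c (T.c (T.b (T.l 0) (T.l 816)) (T.l 0)) (T.b (T.l 16) (T.l 816))) (T.a (T.c (T.b (T.l 816) (T.l 880)) (T.l 816)) (T.b (T.c (T.l 816) (T.l 816)) (T.c (T.c (T.l 880) (T.l 880)) (T.b (T.l 816) (T.l 816))))))), by decide +kernel⟩

def A012R_052_1_6_1 :
    ∃ t, chk3 (onCell 0 67108864 0 1073741824 134217728 67108864 (corT true 1 c0F cA012R gF0q0 gF5q1 gF2q2 gF3q2 true false)) t 1 6 1 = true :=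
  ⟨(T.a (T.c (T.c (T.l 816) (T.l 816)) (T.b (T.l 816) (T.l 816))) (T.a (T.b (T.c (T.b (T.l 880) (T.l 880)) (T.l 816)) (T.c (T.a (T.c (T.l 816) (T.l 816)) (T.c (T.l 880) (T.l 816))) (T.a (T.l 816) (T.b (T.l 816) (T.l 880))))) (T.c (T.b (T.c (T.b (T.l 816) (T.l 880)) (T.b (T.l 816) (T.l 816))) (T.c (T.a (T.l 880) (T.l 880)) (T.b (T.l 880) (T.l 880)))) (T.b (T.b (T.l 880) (T.l 880)) (T.c (T.b (T.l 816) (T.l 816)) (T.b (T.l 816) (T.l 816))))))), by decide +kernel⟩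

def A012R_052_1_7_1 :
    ∃ t, chk3 (onCell 0 67108864 0 1073741824 134217728 67108864 (corT true 1 c0F cA012R gF0q0 gF5q1 gF2q2 gF3q2 true false)) t 1 7 1 = true :=
  ⟨(T.b (T.a (T.c (T.c (T.l 816) (T.l 816)) (T.b (T.l 816) (T.l 880))) (T.a (T.c (T.c (T.a (T.b (T.l 816) (T.l 880)) (T.b (T.l 816) (T.l 880))) (T.a (T.b (T.l 816) (T.l 816)) (T.b (T.l 816) (T.l 816)))) (T.a (T.c (T.l 816) (T.l 816)) (T.c (T.l 880) (T.l 816)))) (T.c (T.c (T.a (T.b (T.l 880) (T.l 880)) (T.c (T.l 880) (T.l 880))) (T.a (T.b (T.l 816) (T.l 816)) (T.b (T.l 816) (T.l 880)))) (T.c (T.a (T.l 880) (T.l 880)) (T.b (T.l 880) (T.l 880)))))) (T.a (T.a (T.c (T.c (T.l 816) (T.l 816)) (T.c (T.l 816) (T.l 816))) (T.c (T.a (T.c (T.l 816) (T.l 816)) (T.c (T.a (T.l 816) (T.b (T.l 816) (T.l 816))) (T.a (T.l 816) (T.l 816)))) (T.a (T.c (T.l 816) (T.l 816)) (T.b (T.l 816) (T.c (T.l 816)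 (T.l 816)))))) (T.a (T.c (T.c (T.a (T.b (T.b (T.l 816) (T.l 880)) (T.c (T.l 816) (T.l 816))) (T.c (T.b (T.l 816) (T.l 880)) (T.b (T.l 816) (T.l 816)))) (T.a (T.b (T.l 816) (T.b (T.l 816) (T.l 880))) (T.b (T.l 880) (T.a (T.l 816) (T.l 880))))) (T.a (T.c (T.b (T.l 816) (T.l 880)) (T.b (T.l 816) (T.l 816))) (T.c (T.b (T.l 816) (T.l 880)) (T.b (T.l 816) (T.l 816))))) (T.c (T.c (T.a (T.c (T.b (T.l 816) (T.b (T.l 816) (T.l 880))) (T.b (T.l 816) (T.l 880))) (T.b (T.c (T.l 880) (T.l 816)) (T.c (T.a (T.l 880) (T.b (T.l 816) (T.l 880))) (T.b (T.l 816) (T.l 880))))) (T.a (T.b (T.l 880) (T.c (T.l 816) (T.l 816))) (T.b (T.b (T.l 880) (T.l 880)) (T.c (T.b (T.l 816) (T.l 816)) (T.l 880))))) (T.c (T.a (T.b (T.l 816) (T.b (T.l 816) (T.l 816))) (T.b (T.l 816) (T.a (T.l 816) (T.l 880)))) (T.a (T.b (T.l 816) (T.l 816)) (T.b (T.l 816) (T.l 880)))))))), by decide +kernel⟩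

theorem A012R_052_1_3_1 :
    ∃ t, chk3 (onCell 0 67108864 0 1073741824 134217728 67108864 (corT true 1 c0F cA012R gF0q0 gF5q1 gF2q2 gF3q2 true false)) t 1 3 1 = true :=
  ex3_b A012R_052_1_6_1 A012R_052_1_7_1
theorem A012R_052 :
    ∃ t, chk3 (onCell 0 67108864 0 1073741824 134217728 67108864 (corT true 1 c0F cA012R gF0q0 gF5q1 gF2q2 gF3q2 true false)) t 1 1 1 = true :=
  ex3_b A012R_052_1_2_1 A012R_052_1_3_1

def A012R_130 :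
    ∃ t, chk3 (onCell 0 67108864 0 1073741824 134217728 67108864 (corT true 1 c0F cA012R gF1q0 gF3q1 gF0q2 gF1q2 true true)) t 1 1 1 = true :=
  ⟨(T.b (T.b (T.l 1) (T.a (T.l 0) (T.b (T.l 1) (T.l 0)))) (T.b (T.a (T.l 816) (T.a (T.b (T.l 816) (T.l 816)) (T.b (T.l 816) (T.l 64)))) (T.b (T.a (T.l 816) (T.a (T.b (T.l 816) (T.l 0)) (T.b (T.l 816) (T.l 2)))) (T.a (T.a (T.l 816) (T.b (T.l 816) (T.l 2))) (T.b (T.l 2) (T.l 2)))))), by decide +kernel⟩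

def A012R_131 :
    ∃ t, chk3 (onCell 0 67108864 0 1073741824 134217728 67108864 (corT true 1 c0F cA012R gF1q0 gF3q1 gF1q2 gF2q2 true true)) t 1 1 1 = true :=
  ⟨(T.b (T.l 1) (T.b (T.a (T.l 1) (T.l 1)) (T.a (T.b (T.l 816) (T.a (T.l 816) (T.l 0))) (T.a (T.l 0) (T.l 0))))), by decide +kernel⟩

def A012R_132 :
    ∃ t, chk3 (onCell 0 67108864 0 1073741824 134217728 67108864 (corT true 1 c0F cA012R gF1q0 gF3q1 gF2q2 gF3q2 true false)) t 1 1 1 = true :=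
  ⟨(T.l 1), by decide +kernel⟩

def A012R_140 :
    ∃ t, chk3 (onCell 0 67108864 0 1073741824 134217728 67108864 (corT true 1 c0F cA012R gF1q0 gF4q1 gF0q2 gF1q2 true true)) t 1 1 1 = true :=
  ⟨(T.b (T.b (T.l 1) (T.b (T.l 0) (T.a (T.l 816) (T.b (T.l 816) (T.l 0))))) (T.b (T.a (T.l 816) (T.a (T.b (T.l 816) (T.l 816)) (T.b (T.l 816) (T.b (T.l 816) (T.l 816))))) (T.a (T.b (T.l 816) (T.a (T.l 816) (T.b (T.l 816) (T.l 2)))) (T.b (T.a (T.b (T.l 816) (T.l 0)) (T.l 2)) (T.l 2))))), by decide +kernel⟩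

def A012R_141 :
    ∃ t, chk3 (onCell 0 67108864 0 1073741824 134217728 67108864 (corT true 1 c0F cA012R gF1q0 gF4q1 gF1q2 gF2q2 true true)) t 1 1 1 = true :=
  ⟨(T.b (T.l 1) (T.b (T.a (T.l 1) (T.b (T.l 1) (T.l 0))) (T.a (T.a (T.l 816) (T.b (T.l 816) (T.l 0))) (T.a (T.l 0) (T.l 0))))), by decide +kernel⟩

def A012R_142 :
    ∃ t, chk3 (onCell 0 67108864 0 1073741824 134217728 67108864 (corT true 1 c0F cA012R gF1q0 gF4q1 gF2q2 gF3q2 true false)) t 1 1 1 = true :=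
  ⟨(T.l 1), by decide +kernel⟩

def A012R_150 :
    ∃ t, chk3 (onCell 0 67108864 0 1073741824 134217728 67108864 (corT true 1 c0F cA012R gF1q0 gF5q1 gF0q2 gF1q2 true true)) t 1 1 1 = true :=
  ⟨(T.b (T.b (T.l 0) (T.a (T.l 0) (T.b (T.l 816) (T.b (T.l 816) (T.l 0))))) (T.b (T.a (T.l 816) (T.b (T.b (T.l 0) (T.l 0)) (T.a (T.l 816) (T.l 2)))) (T.a (T.a (T.l 816) (T.b (T.l 816) (T.l 2))) (T.b (T.l 2) (T.l 2))))), by decide +kernel⟩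

def A012R_151 :
    ∃ t, chk3 (onCell 0 67108864 0 1073741824 134217728 67108864 (corT true 1 c0F cA012R gF1q0 gF5q1 gF1q2 gF2q2 true true)) t 1 1 1 = true :=
  ⟨(T.b (T.b (T.l 1) (T.l 1)) (T.b (T.a (T.l 816) (T.b (T.l 0) (T.l 0))) (T.a (T.a (T.l 816) (T.b (T.l 816) (T.l 0))) (T.a (T.l 0) (T.l 0))))), by decide +kernel⟩

def A012R_152 :
    ∃ t, chk3 (onCell 0 67108864 0 1073741824 134217728 67108864 (corT true 1 c0F cA012R gF1q0 gF5q1 gF2q2 gF3q2 true false)) t 1 1 1 = true :=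
  ⟨(T.l 1), by decide +kernel⟩

def A012R_230 :
    ∃ t, chk3 (onCell 0 67108864 0 1073741824 134217728 67108864 (corT true 1 c0F cA012R gF2q0 gF3q1 gF0q2 gF1q2 true true)) t 1 1 1 = true :=
  ⟨(T.b (T.l 1) (T.b (T.a (T.l 1) (T.b (T.l 1) (T.b (T.l 1) (T.l 0)))) (T.b (T.a (T.l 0) (T.a (T.l 0) (T.l 0))) (T.a (T.a (T.l 816) (T.l 0)) (T.a (T.l 0) (T.l 0)))))), by decide +kernel⟩

def A012R_231 :
    ∃ t, chk3 (onCell 0 67108864 0 1073741824 134217728 67108864 (corT true 1 c0F cA012R gF2q0 gF3q1 gF1q2 gF2q2 true true)) t 1 1 1 = true :=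
  ⟨(T.l 1), by decide +kernel⟩

def A012R_232 :
    ∃ t, chk3 (onCell 0 67108864 0 1073741824 134217728 67108864 (corT true 1 c0F cA012R gF2q0 gF3q1 gF2q2 gF3q2 true false)) t 1 1 1 = true :=
  ⟨(T.l 1), by decide +kernel⟩

def A012R_240 :
    ∃ t, chk3 (onCell 0 67108864 0 1073741824 134217728 67108864 (corT true 1 c0F cA012R gF2q0 gF4q1 gF0q2 gF1q2 true true)) t 1 1 1 = true :=
  ⟨(T.b (T.l 1) (T.b (T.a (T.l 1) (T.b (T.l 1) (T.b (T.l 0) (T.l 0)))) (T.b (T.a (T.l 0) (T.a (T.l 0) (T.l 0))) (T.a (T.a (T.l 816) (T.l 0)) (T.a (T.l 0) (T.l 0)))))), by decide +kernel⟩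

def A012R_241 :
    ∃ t, chk3 (onCell 0 67108864 0 1073741824 134217728 67108864 (corT true 1 c0F cA012R gF2q0 gF4q1 gF1q2 gF2q2 true true)) t 1 1 1 = true :=
  ⟨(T.l 1), by decide +kernel⟩

def A012R_242 :
    ∃ t, chk3 (onCell 0 67108864 0 1073741824 134217728 67108864 (corT true 1 c0F cA012R gF2q0 gF4q1 gF2q2 gF3q2 true false)) t 1 1 1 = true :=
  ⟨(T.l 1), by decide +kernel⟩

def A012R_250 :
    ∃ t, chk3 (onCell 0 67108864 0 1073741824 134217728 67108864 (corT true 1 c0F cA012R gF2q0 gF5q1 gF0q2 gF1q2 true true)) t 1 1 1 = true :=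
  ⟨(T.b (T.l 1) (T.b (T.a (T.l 0) (T.a (T.l 0) (T.b (T.l 0) (T.l 0)))) (T.a (T.a (T.l 0) (T.l 0)) (T.a (T.b (T.l 0) (T.l 0)) (T.b (T.l 0) (T.l 0)))))), by decide +kernel⟩

end Pool.Agent.Strip051.G.I1_8_3_16.Tab.CF
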