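import Pool.Agent.Strip051.G.I1_8_3_16.Gn
import Pool.Agent.Strip051.PB.Corns

/-! # Certificates of the aligned corners (generated) -/

set_option linter.all false

namespace Pool.Agent.Strip051.G.I1_8_3_16.Tab.CF

open Pool.Agent.Strip051.PB

def A012R_251 :
    ∃ t, chk3 (onCell 0 67108864 0 1073741824 134217728 67108864 (corT true 1 c0F cA012R gF2q0 gF5q1 gF1q2 gF2q2 true true)) t 1 1 1 = true :=
  ⟨(T.l 1), by decide +kernel⟩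

def A012R_252 :
    ∃ t, chk3 (onCell 0 67108864 0 1073741824 134217728 67108864 (corT true 1 c0F cA012R gF2q0 gF5q1 gF2q2 gF3q2 true false)) t 1 1 1 = true :=
  ⟨(T.l 1), by decide +kernel⟩

def A022E_000 :
    ∃ t, chk3 (onCell 0 67108864 0 1073741824 134217728 67108864 (corT true 1 c0F cA022E gF0q0 gF0q2 gF0q2 gF1q2 true true)) t 1 1 1 = true :=
  ⟨(T.l 2), by decide +kernel⟩

def A022E_001 :
    ∃ t, chk3 (onCell 0 67108864 0 1073741824 134217728 67108864 (corT true 1 c0F cA022E gF0q0 gF0q2 gF1q2 gF2q2 true true)) t 1 1 1 = true :=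
  ⟨(T.b (T.l 2) (T.l 2)), by decide +kernel⟩

def A022E_002_1_4_1 :
    ∃ t, chk3 (onCell 0 67108864 0 1073741824 134217728 67108864 (corT true 1 c0F cA022E gF0q0 gF0q2 gF2q2 gF3q2 true false)) t 1 4 1 = true :=
  ⟨(T.a (T.a (T.c (T.c (T.b (T.l 220) (T.l 204)) (T.b (T.l 204) (T.l 204))) (T.c (T.b (T.l 204) (T.l 204)) (T.b (T.l 204) (T.l 204)))) (T.a (T.c (T.c (T.l 204) (T.l 204)) (T.l 220)) (T.c (T.b (T.c (T.a (T.l 204) (T.l 204)) (T.b (T.l 204) (T.l 204))) (T.c (T.l 204) (T.l 204))) (T.b (T.a (T.l 204) (T.l 204)) (T.l 204))))) (T.a (T.a (T.c (T.b (T.c (T.a (T.l 204) (T.l 204)) (T.b (T.l 204) (T.l 204))) (T.c (T.b (T.l 204) (T.l 204)) (T.l 204))) (T.b (T.b (T.l 204) (T.l 204)) (T.l 204))) (T.b (T.c (T.a (T.c (T.b (T.b (T.l 204) (T.l 204)) (T.l 204)) (T.b (T.l 204) (T.l 204))) (T.c (T.b (T.l 220) (T.l 204)) (T.b (T.l 204) (T.l 204)))) (T.a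 (T.b (T.l 204) (T.l 204)) (T.b (T.l 204) (T.l 204)))) (T.c (T.b (T.c (T.a (T.l 204) (T.l 204)) (T.b (T.l 204) (T.l 204))) (T.c (T.l 204) (T.l 204))) (T.a (T.l 204) (T.b (T.l 204) (T.l 204)))))) (T.b (T.a (T.c (T.b (T.c (T.a (T.l 204) (T.l 204)) (T.l 204)) (T.c (T.a (T.l 204) (T.l 204)) (T.l 204))) (T.b (T.l 220) (T.l 204))) (T.c (T.c (T.a (T.b (T.l 204) (T.l 204)) (T.b (T.l 204) (T.l 204))) (T.b (T.l 204) (T.l 204))) (T.b (T.l 204) (T.l 0)))) (T.a (T.c (T.b (T.c (T.b (T.l 204) (T.l 204)) (T.l 204)) (T.c (T.b (T.l 204) (T.l 204)) (T.l 204))) (T.b (T.l 204) (T.l 0))) (T.c (T.c (T.b (T.b (T.l 220) (T.l 220)) (T.b (T.l 204) (T.l 204))) (T.b (T.l 204) (T.l 0))) (T.b (T.l 0) (T.l 0))))))), by decide +kernel⟩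

def A022E_002_1_5_1 :
    ∃ t, chk3 (onCell 0 67108864 0 1073741824 134217728 67108864 (corT true 1 c0F cA022E gF0q0 gF0q2 gF2q2 gF3q2 true false)) t 1 5 1 = true :=
  ⟨(T.b (T.a (T.a (T.c (T.b (T.l 204) (T.l 204)) (T.l 204)) (T.c (T.a (T.l 204) (T.l 220)) (T.a (T.l 204) (T.l 204)))) (T.a (T.c (T.a (T.l 220) (T.c (T.l 204) (T.l 204))) (T.a (T.l 204) (T.l 0))) (T.a (T.c (T.b (T.c (T.b (T.l 204) (T.l 204)) (T.l 0)) (T.b (T.l 0) (T.l 0))) (T.b (T.l 0) (T.l 0))) (T.c (T.b (T.c (T.b (T.l 0) (T.l 0)) (T.l 0)) (T.c (T.b (T.l 0) (T.l 0)) (T.l 0))) (T.b (T.l 0) (T.l 0)))))) (T.a (T.a (T.c (T.l 204) (T.l 204)) (T.c (T.a (T.l 204) (T.l 0)) (T.b (T.l 16) (T.l 0)))) (T.a (T.c (T.a (T.l 0) (T.l 0)) (T.l 0)) (T.c (T.a (T.c (T.l 0) (T.l 0)) (T.c (T.b (T.l 0) (T.l 816)) (T.l 0))) (T.a (T.l 0) (T.l 4)))))), by decide +kernel⟩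

def A022E_002_1_6_1 :
    ∃ t, chk3 (onCell 0 67108864 0 1073741824 134217728 67108864 (corT true 1 c0F cA022E gF0q0 gF0q2 gF2q2 gF3q2 true false)) t 1 6 1 = true :=
  ⟨(T.a (T.a (T.c (T.b (T.l 0) (T.l 0)) (T.l 0)) (T.c (T.a (T.l 0) (T.b (T.l 0) (T.l 816))) (T.a (T.l 0) (T.l 0)))) (T.a (T.c (T.c (T.a (T.l 0) (T.l 4)) (T.b (T.l 0) (T.l 816))) (T.a (T.l 0) (T.l 4))) (T.b (T.c (T.a (T.b (T.l 816) (T.l 820)) (T.c (T.b (T.l 816) (T.l 816)) (T.l 820))) (T.a (T.l 816) (T.b (T.l 816) (T.l 816)))) (T.c (T.c (T.a (T.l 816) (T.l 820)) (T.l 820)) (T.a (T.l 816) (T.l 820)))))), by decide +kernel⟩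

def A022E_002_2_7_1 :
    ∃ t, chk3 (onCell 0 67108864 0 1073741824 134217728 67108864 (corT true 1 c0F cA022E gF0q0 gF0q2 gF2q2 gF3q2 true false)) t 2 7 1 = true :=
  ⟨(T.a (T.c (T.b (T.b (T.l 816) (T.l 816)) (T.c (T.b (T.l 816) (T.a (T.l 816) (T.l 880))) (T.b (T.l 816) (T.l 880)))) (T.b (T.l 816) (T.b (T.l 816) (T.c (T.l 816) (T.l 816))))) (T.c (T.a (T.b (T.l 816) (T.c (T.b (T.l 816) (T.c (T.l 816) (T.l 816))) (T.b (T.l 816) (T.c (T.l 816) (T.l 816))))) (T.b (T.c (T.l 816) (T.l 816)) (T.c (T.b (T.l 816) (T.b (T.a (T.l 816) (T.l 816)) (T.c (T.a (T.l 816) (T.b (T.l 816) (T.b (T.l 816) (T.a (T.l 880) (T.c (T.l 816) (T.l 816)))))) (T.a (T.l 816) (T.b (T.l 816) (T.a (T.l 816) (T.c (T.l 816) (T.l 816)))))))) (T.b (T.l 816) (T.b (T.a (T.l 816) (T.l 816)) (T.a (T.c (T.l 816) (T.l 816)) (T.c (T.a (T.l 816) (T.c (T.l 816) (T.l 816))) (T.a (T.l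 816) (T.l 880))))))))) (T.a (T.b (T.l 816) (T.b (T.l 816) (T.c (T.b (T.l 816) (T.l 816)) (T.l 816)))) (T.b (T.l 816) (T.c (T.b (T.l 816) (T.b (T.l 880) (T.a (T.c (T.l 816) (T.l 816)) (T.b (T.l 816) (T.c (T.a (T.l 816) (T.l 816)) (T.b (T.l 816) (T.l 880))))))) (T.b (T.l 816) (T.b (T.l 816) (T.a (T.l 816) (T.c (T.b (T.l 816) (T.l 880)) (T.l 880)))))))))), by decide +kernel⟩

def A022E_002_6_7_1 :
    ∃ t, chk3 (onCell 0 67108864 0 1073741824 134217728 67108864 (corT true 1 c0F cA022E gF0q0 gF0q2 gF2q2 gF3q2 true false)) t 6 7 1 = true :=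
  ⟨(T.c (T.b (T.c (T.a (T.l 816) (T.l 816)) (T.b (T.l 816) (T.l 820))) (T.c (T.a (T.b (T.l 816) (T.b (T.b (T.l 816) (T.l 880)) (T.c (T.a (T.c (T.l 880) (T.l 816)) (T.l 816)) (T.a (T.a (T.l 880) (T.l 816)) (T.l 816))))) (T.b (T.l 816) (T.b (T.l 820) (T.c (T.b (T.l 816) (T.l 880)) (T.l 880))))) (T.b (T.a (T.l 816) (T.l 816)) (T.a (T.b (T.l 816) (T.c (T.a (T.b (T.l 816) (T.l 880)) (T.l 816)) (T.a (T.l 880) (T.l 816)))) (T.b (T.l 816) (T.c (T.l 880) (T.l 880))))))) (T.b (T.a (T.l 816) (T.l 820)) (T.c (T.b (T.b (T.l 816) (T.l 820)) (T.a (T.b (T.l 816) (T.c (T.a (T.l 816) (T.l 816)) (T.a (T.l 816) (T.l 816)))) (T.c (T.b (T.l 816) (T.l 816)) (T.l 880)))) (T.b (T.l 820) (T.a (T.b (T.l 816) (T.a (T.c (T.l 816) (T.l 816)) (T.l 816))) (T.c (T.l 880) (T.l 880))))))), by decide +kernel⟩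

def A022E_002_7_7_1 :
    ∃ t, chk3 (onCell 0 67108864 0 1073741824 134217728 67108864 (corT true 1 c0F cA022E gF0q0 gF0q2 gF2q2 gF3q2 true false)) t 7 7 1 = true :=
  ⟨(T.c (T.b (T.c (T.a (T.l 820) (T.b (T.l 820) (T.l 820))) (T.a (T.l 816) (T.l 820))) (T.a (T.c (T.b (T.l 820) (T.c (T.b (T.l 816) (T.b (T.l 816) (T.l 880))) (T.b (T.l 816) (T.b (T.l 816) (T.l 880))))) (T.b (T.l 816) (T.b (T.l 816) (T.b (T.l 880) (T.c (T.l 880) (T.l 880)))))) (T.c (T.b (T.c (T.l 820) (T.l 816)) (T.b (T.c (T.l 820) (T.l 816)) (T.c (T.a (T.l 880) (T.c (T.l 880) (T.l 880))) (T.a (T.l 880) (T.a (T.l 880) (T.l 880)))))) (T.b (T.l 820) (T.b (T.l 820) (T.b (T.a (T.l 880) (T.l 880)) (T.c (T.a (T.l 880) (T.a (T.l 880) (T.l 880))) (T.a (T.l 880) (T.a (T.l 880) (T.l 880)))))))))) (T.b (T.c (T.b (T.l 816) (T.l 816)) (T.l 820)) (T.a (T.b (T.b (T.l 816) (T.l 820)) (T.c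 (T.b (T.l 816) (T.c (T.l 880) (T.l 880))) (T.b (T.l 816) (T.c (T.l 880) (T.l 880))))) (T.b (T.c (T.l 816) (T.l 816)) (T.c (T.b (T.l 816) (T.b (T.a (T.l 816) (T.l 880)) (T.a (T.c (T.l 880) (T.l 880)) (T.c (T.a (T.l 880) (T.l 880)) (T.a (T.l 880) (T.l 880)))))) (T.b (T.l 816) (T.b (T.l 880) (T.a (T.c (T.l 880) (T.l 880)) (T.b (T.l 880) (T.c (T.l 880) (T.l 880))))))))))), by decide +kernel⟩

theorem A022E_002_3_7_1 :
    ∃ t, chk3 (onCell 0 67108864 0 1073741824 134217728 67108864 (corT true 1 c0F cA022E gF0q0 gF0q2 gF2q2 gF3q2 true false)) t 3 7 1 = true :=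
  ex3_a A022E_002_6_7_1 A022E_002_7_7_1
theorem A022E_002_1_7_1 :
    ∃ t, chk3 (onCell 0 67108864 0 1073741824 134217728 67108864 (corT true 1 c0F cA022E gF0q0 gF0q2 gF2q2 gF3q2 true false)) t 1 7 1 = true :=
  ex3_a A022E_002_2_7_1 A022E_002_3_7_1
theorem A022E_002_1_3_1 :
    ∃ t, chk3 (onCell 0 67108864 0 1073741824 134217728 67108864 (corT true 1 c0F cA022E gF0q0 gF0q2 gF2q2 gF3q2 true false)) t 1 3 1 = true :=
  ex3_b A022E_002_1_6_1 A022E_002_1_7_1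
theorem A022E_002_1_2_1 :
    ∃ t, chk3 (onCell 0 67108864 0 1073741824 134217728 67108864 (corT true 1 c0F cA022E gF0q0 gF0q2 gF2q2 gF3q2 true false)) t 1 2 1 = true :=
  ex3_b A022E_002_1_4_1 A022E_002_1_5_1
theorem A022E_002 :
    ∃ t, chk3 (onCell 0 67108864 0 1073741824 134217728 67108864 (corT true 1 c0F cA022E gF0q0 gF0q2 gF2q2 gF3q2 true false)) t 1 1 1 = true :=
  ex3_b A022E_002_1_2_1 A022E_002_1_3_1

def A022E_010 :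
    ∃ t, chk3 (onCell 0 67108864 0 1073741824 134217728 67108864 (corT true 1 c0F cA022E gF0q0 gF1q2 gF0q2 gF1q2 true true)) t 1 1 1 = true :=
  ⟨(T.l 2), by decide +kernel⟩

def A022E_011 :
    ∃ t, chk3 (onCell 0 67108864 0 1073741824 134217728 67108864 (corT true 1 c0F cA022E gF0q0 gF1q2 gF1q2 gF2q2 true true)) t 1 1 1 = true :=
  ⟨(T.l 2), by decide +kernel⟩

def A022E_012_2_4_1 :
    ∃ t, chk3 (onCell 0 67108864 0 1073741824 134217728 67108864 (corT true 1 c0F cA022E gF0q0 gF1q2 gF2q2 gF3q2 true false)) t 2 4 1 = true :=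
  ⟨(T.a (T.c (T.c (T.b (T.c (T.b (T.c (T.b (T.l 204) (T.l 204)) (T.l 204)) (T.l 204)) (T.b (T.c (T.l 204) (T.l 204)) (T.l 204))) (T.l 204)) (T.b (T.a (T.c (T.b (T.l 204) (T.l 204)) (T.l 220)) (T.l 220)) (T.l 204))) (T.c (T.b (T.b (T.c (T.l 204) (T.l 204)) (T.l 204)) (T.l 204)) (T.b (T.c (T.b (T.l 204) (T.l 204)) (T.l 204)) (T.l 204)))) (T.a (T.c (T.c (T.b (T.l 204) (T.l 204)) (T.l 204)) (T.c (T.l 204) (T.l 204))) (T.c (T.b (T.a (T.c (T.l 204) (T.l 204)) (T.c (T.b (T.l 204) (T.l 204)) (T.l 220))) (T.c (T.l 204) (T.l 204))) (T.b (T.a (T.l 204) (T.c (T.l 204) (T.l 204))) (T.l 204))))), by decide +kernel⟩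

def A022E_012_3_4_1 :
    ∃ t, chk3 (onCell 0 67108864 0 1073741824 134217728 67108864 (corT true 1 c0F cA022E gF0q0 gF1q2 gF2q2 gF3q2 true false)) t 3 4 1 = true :=
  ⟨(T.a (T.a (T.c (T.b (T.c (T.a (T.b (T.b (T.l 220) (T.l 204)) (T.l 204)) (T.b (T.c (T.l 204) (T.l 204)) (T.l 204))) (T.a (T.b (T.l 204) (T.l 204)) (T.b (T.l 204) (T.l 204)))) (T.c (T.a (T.l 204) (T.l 220)) (T.b (T.l 204) (T.l 204)))) (T.b (T.a (T.c (T.l 204) (T.l 204)) (T.c (T.l 204) (T.l 204))) (T.a (T.l 204) (T.l 204)))) (T.c (T.b (T.c (T.b (T.c (T.a (T.l 220) (T.b (T.l 204) (T.l 204))) (T.b (T.l 220) (T.l 204))) (T.a (T.l 220) (T.b (T.l 220) (T.l 204)))) (T.b (T.a (T.l 204) (T.l 204)) (T.l 220))) (T.c (T.b (T.b (T.l 220) (T.l 204)) (T.l 220)) (T.b (T.l 204) (T.l 204)))) (T.b (T.c (T.b (T.l 204) (T.l 204)) (T.l 204)) (T.b (T.l 204) (T.l 204))))) (T.c (T.b (T.a (T.c (T.b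 (T.c (T.a (T.b (T.l 220) (T.l 204)) (T.b (T.b (T.l 220) (T.l 204)) (T.l 204))) (T.b (T.l 204) (T.l 204))) (T.c (T.b (T.l 220) (T.l 204)) (T.l 204))) (T.b (T.b (T.l 204) (T.l 204)) (T.l 204))) (T.c (T.b (T.c (T.a (T.b (T.b (T.l 220) (T.l 204)) (T.l 204)) (T.b (T.c (T.b (T.l 220) (T.l 204)) (T.l 204)) (T.l 220))) (T.b (T.l 220) (T.l 204))) (T.c (T.a (T.l 204) (T.l 204)) (T.l 204))) (T.b (T.b (T.l 220) (T.l 204)) (T.l 204)))) (T.a (T.c (T.b (T.b (T.l 220) (T.l 204)) (T.l 220)) (T.b (T.l 204) (T.l 204))) (T.c (T.c (T.b (T.l 220) (T.l 204)) (T.l 220)) (T.b (T.l 204) (T.l 204))))) (T.b (T.a (T.c (T.b (T.l 204) (T.l 204)) (T.l 204)) (T.c (T.l 220) (T.l 204))) (T.a (T.b (T.l 204) (T.l 204)) (T.b (T.l 204) (T.l 204)))))), by decide +kernel⟩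

def A022E_012_1_5_1 :
    ∃ t, chk3 (onCell 0 67108864 0 1073741824 134217728 67108864 (corT true 1 c0F cA022E gF0q0 gF1q2 gF2q2 gF3q2 true false)) t 1 5 1 = true :=
  ⟨(T.a (T.a (T.c (T.c (T.l 204) (T.l 204)) (T.l 220)) (T.c (T.a (T.b (T.l 220) (T.l 204)) (T.c (T.l 0) (T.l 0))) (T.a (T.l 0) (T.l 0)))) (T.a (T.b (T.c (T.a (T.b (T.l 204) (T.l 204)) (T.c (T.b (T.l 204) (T.l 204)) (T.l 0))) (T.a (T.l 204) (T.b (T.l 204) (T.l 204)))) (T.c (T.a (T.l 0) (T.l 0)) (T.l 0))) (T.b (T.c (T.a (T.c (T.b (T.l 204) (T.l 204)) (T.l 0)) (T.c (T.b (T.l 204) (T.l 0)) (T.l 0))) (T.a (T.l 16) (T.l 16))) (T.c (T.a (T.c (T.l 0) (T.l 0)) (T.c (T.l 0) (T.l 0))) (T.a (T.l 0) (T.l 0)))))), by decide +kernel⟩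

def A022E_012_1_6_1 :
    ∃ t, chk3 (onCell 0 67108864 0 1073741824 134217728 67108864 (corT true 1 c0F cA022E gF0q0 gF1q2 gF2q2 gF3q2 true false)) t 1 6 1 = true :=
  ⟨(T.b (T.a (T.a (T.c (T.l 0) (T.l 0)) (T.c (T.a (T.l 0) (T.l 0)) (T.b (T.l 0) (T.l 4)))) (T.a (T.c (T.a (T.l 0) (T.l 0)) (T.l 0)) (T.c (T.a (T.l 820) (T.c (T.b (T.l 816) (T.l 816)) (T.l 0))) (T.b (T.b (T.l 0) (T.l 816)) (T.l 816))))) (T.a (T.a (T.c (T.l 816) (T.l 816)) (T.c (T.a (T.l 816) (T.l 820)) (T.a (T.l 816) (T.l 816)))) (T.c (T.a (T.c (T.l 816) (T.l 816)) (T.c (T.l 820) (T.l 816))) (T.a (T.l 820) (T.b (T.l 816) (T.l 820)))))), by decide +kernel⟩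

def A022E_012_2_7_1 :
    ∃ t, chk3 (onCell 0 67108864 0 1073741824 134217728 67108864 (corT true 1 c0F cA022E gF0q0 gF1q2 gF2q2 gF3q2 true false)) t 2 7 1 = true :=
  ⟨(T.a (T.c (T.b (T.b (T.l 816) (T.l 816)) (T.c (T.c (T.l 816) (T.l 816)) (T.b (T.l 816) (T.l 816)))) (T.b (T.l 816) (T.c (T.l 880) (T.l 816)))) (T.c (T.a (T.b (T.l 820) (T.c (T.b (T.l 816) (T.c (T.l 816) (T.l 816))) (T.c (T.l 816) (T.l 816)))) (T.b (T.c (T.l 816) (T.l 816)) (T.c (T.b (T.l 816) (T.b (T.a (T.l 816) (T.l 816)) (T.c (T.a (T.l 816) (T.b (T.l 816) (T.a (T.l 880) (T.c (T.l 816) (T.l 816))))) (T.a (T.l 816) (T.b (T.l 816) (T.c (T.b (T.l 816) (T.l 880)) (T.l 880))))))) (T.b (T.l 816) (T.b (T.l 880) (T.a (T.c (T.l 816) (T.l 816)) (T.b (T.l 880) (T.c (T.c (T.l 880) (T.l 880)) (T.a (T.l 816) (T.l 880)))))))))) (T.a (T.b (T.l 816) (T.b (T.l 816) (T.c (T.l 880) (T.l 816))))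 (T.b (T.l 816) (T.b (T.c (T.l 816) (T.l 816)) (T.c (T.b (T.l 816) (T.a (T.c (T.l 816) (T.l 816)) (T.b (T.l 816) (T.c (T.a (T.l 816) (T.l 816)) (T.b (T.l 816) (T.l 880)))))) (T.b (T.l 816) (T.a (T.l 816) (T.c (T.b (T.l 816) (T.l 880)) (T.l 880)))))))))), by decide +kernel⟩

def A022E_012_6_7_1 :
    ∃ t, chk3 (onCell 0 67108864 0 1073741824 134217728 67108864 (corT true 1 c0F cA022E gF0q0 gF1q2 gF2q2 gF3q2 true false)) t 6 7 1 = true :=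
  ⟨(T.c (T.c (T.b (T.a (T.l 816) (T.l 816)) (T.a (T.b (T.l 816) (T.b (T.l 816) (T.c (T.a (T.c (T.l 816) (T.l 816)) (T.l 816)) (T.a (T.a (T.l 880) (T.l 816)) (T.l 816))))) (T.b (T.l 816) (T.b (T.l 816) (T.c (T.b (T.l 816) (T.l 880)) (T.l 880)))))) (T.b (T.b (T.l 816) (T.l 820)) (T.b (T.a (T.l 816) (T.l 816)) (T.a (T.b (T.l 816) (T.c (T.a (T.b (T.l 816) (T.l 880)) (T.l 816)) (T.a (T.l 880) (T.l 816)))) (T.c (T.b (T.l 816) (T.l 880)) (T.l 880)))))) (T.b (T.a (T.l 816) (T.l 816)) (T.c (T.b (T.b (T.l 816) (T.l 820)) (T.a (T.b (T.l 816) (T.b (T.l 816) (T.c (T.a (T.l 816) (T.l 816)) (T.a (T.l 816) (T.l 816))))) (T.c (T.l 880) (T.l 880)))) (T.b (T.l 816) (T.a (T.b (T.l 816) (T.a (T.c (T.l 816) (T.l 816)) (T.l 816))) (T.a (T.l 880) (T.l 880))))))), by decide +kernel⟩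

def A022E_012_7_7_1 :
    ∃ t, chk3 (onCell 0 67108864 0 1073741824 134217728 67108864 (corT true 1 c0F cA022E gF0q0 gF1q2 gF2q2 gF3q2 true false)) t 7 7 1 = true :=
  ⟨(T.c (T.b (T.c (T.a (T.l 816) (T.l 820)) (T.b (T.l 816) (T.l 820))) (T.a (T.c (T.b (T.l 820) (T.b (T.l 820) (T.c (T.b (T.l 816) (T.l 880)) (T.b (T.l 816) (T.l 880))))) (T.b (T.l 816) (T.b (T.l 816) (T.c (T.b (T.l 816) (T.l 880)) (T.l 880))))) (T.c (T.b (T.b (T.l 820) (T.l 820)) (T.b (T.a (T.l 820) (T.l 820)) (T.c (T.a (T.l 880) (T.a (T.l 880) (T.l 880))) (T.a (T.l 880) (T.a (T.l 880) (T.l 880)))))) (T.b (T.l 816) (T.b (T.l 816) (T.b (T.l 884) (T.c (T.a (T.l 880) (T.a (T.l 880) (T.l 880))) (T.a (T.l 880) (T.a (T.l 880) (T.l 880)))))))))) (T.b (T.c (T.l 820) (T.l 816)) (T.a (T.b (T.b (T.l 816) (T.l 820)) (T.c (T.b (T.l 816) (T.c (T.l 880) (T.l 880))) (T.b (T.l 816) (T.c (T.l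 880) (T.l 880))))) (T.b (T.c (T.l 816) (T.l 816)) (T.c (T.b (T.l 816) (T.b (T.l 880) (T.a (T.c (T.l 880) (T.l 880)) (T.b (T.l 880) (T.c (T.a (T.l 880) (T.l 880)) (T.l 880)))))) (T.b (T.l 816) (T.b (T.l 880) (T.a (T.c (T.l 880) (T.l 880)) (T.b (T.l 880) (T.c (T.l 880) (T.l 880))))))))))), by decide +kernel⟩

theorem A022E_012_3_7_1 :
    ∃ t, chk3 (onCell 0 67108864 0 1073741824 134217728 67108864 (corT true 1 c0F cA022E gF0q0 gF1q2 gF2q2 gF3q2 true false)) t 3 7 1 = true :=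
  ex3_a A022E_012_6_7_1 A022E_012_7_7_1
theorem A022E_012_1_7_1 :
    ∃ t, chk3 (onCell 0 67108864 0 1073741824 134217728 67108864 (corT true 1 c0F cA022E gF0q0 gF1q2 gF2q2 gF3q2 true false)) t 1 7 1 = true :=
  ex3_a A022E_012_2_7_1 A022E_012_3_7_1
theorem A022E_012_1_3_1 :
    ∃ t, chk3 (onCell 0 67108864 0 1073741824 134217728 67108864 (corT true 1 c0F cA022E gF0q0 gF1q2 gF2q2 gF3q2 true false)) t 1 3 1 = true :=
  ex3_b A022E_012_1_6_1 A022E_012_1_7_1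
theorem A022E_012_1_4_1 :
    ∃ t, chk3 (onCell 0 67108864 0 1073741824 134217728 67108864 (corT true 1 c0F cA022E gF0q0 gF1q2 gF2q2 gF3q2 true false)) t 1 4 1 = true :=
  ex3_a A022E_012_2_4_1 A022E_012_3_4_1
theorem A022E_012_1_2_1 :
    ∃ t, chk3 (onCell 0 67108864 0 1073741824 134217728 67108864 (corT true 1 c0F cA022E gF0q0 gF1q2 gF2q2 gF3q2 true false)) t 1 2 1 = true :=
  ex3_b A022E_012_1_4_1 A022E_012_1_5_1
theorem A022E_012 :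
    ∃ t, chk3 (onCell 0 67108864 0 1073741824 134217728 67108864 (corT true 1 c0F cA022E gF0q0 gF1q2 gF2q2 gF3q2 true false)) t 1 1 1 = true :=
  ex3_b A022E_012_1_2_1 A022E_012_1_3_1

def A022E_020 :
    ∃ t, chk3 (onCell 0 67108864 0 1073741824 134217728 67108864 (corT true 1 c0F cA022E gF0q0 gF2q2 gF0q2 gF1q2 true true)) t 1 1 1 = true :=
  ⟨(T.l 2), by decide +kernel⟩

def A022E_021 :
    ∃ t, chk3 (onCell 0 67108864 0 1073741824 134217728 67108864 (corT true 1 c0F cA022E gF0q0 gF2q2 gF1q2 gF2q2 true true)) t 1 1 1 = true :=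
  ⟨(T.l 2), by decide +kernel⟩

def A022E_022_1_4_1 :
    ∃ t, chk3 (onCell 0 67108864 0 1073741824 134217728 67108864 (corT true 1 c0F cA022E gF0q0 gF2q2 gF2q2 gF3q2 true false)) t 1 4 1 = true :=
  ⟨(T.a (T.a (T.c (T.c (T.c (T.l 204) (T.l 204)) (T.b (T.l 204) (T.l 204))) (T.c (T.b (T.l 204) (T.l 204)) (T.l 220))) (T.a (T.c (T.c (T.l 204) (T.l 204)) (T.c (T.l 204) (T.l 204))) (T.c (T.b (T.c (T.a (T.l 204) (T.l 220)) (T.a (T.l 204) (T.l 204))) (T.c (T.l 204) (T.l 204))) (T.b (T.a (T.l 204) (T.c (T.l 204) (T.l 204))) (T.l 204))))) (T.a (T.c (T.a (T.b (T.c (T.a (T.b (T.l 204) (T.l 204)) (T.c (T.l 204) (T.l 204))) (T.a (T.l 220) (T.b (T.l 204) (T.l 204)))) (T.c (T.b (T.l 204) (T.l 204)) (T.l 220))) (T.b (T.c (T.b (T.c (T.a (T.l 204) (T.l 204)) (T.b (T.l 204) (T.l 204))) (T.a (T.l 204) (T.l 204))) (T.b (T.a (T.l 204) (T.l 220)) (T.l 204)))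 (T.c (T.b (T.l 204) (T.l 204)) (T.l 220)))) (T.a (T.b (T.c (T.a (T.l 204) (T.l 204)) (T.a (T.l 204) (T.l 204))) (T.c (T.l 204) (T.l 204))) (T.b (T.c (T.a (T.l 220) (T.l 220)) (T.b (T.l 220) (T.l 204))) (T.c (T.l 204) (T.l 204))))) (T.c (T.b (T.c (T.a (T.b (T.c (T.a (T.l 204) (T.l 204)) (T.b (T.l 204) (T.l 204))) (T.a (T.l 204) (T.l 220))) (T.b (T.c (T.a (T.l 204) (T.b (T.l 220) (T.l 204))) (T.a (T.l 204) (T.l 204))) (T.a (T.l 220) (T.l 220)))) (T.a (T.b (T.c (T.l 204) (T.l 204)) (T.l 204)) (T.b (T.c (T.l 220) (T.l 204)) (T.l 204)))) (T.c (T.a (T.b (T.l 204) (T.l 204)) (T.b (T.l 204) (T.l 204))) (T.a (T.l 204) (T.l 204)))) (T.b (T.a (T.c (T.b (T.b (T.l 204) (T.l 204)) (T.l 204)) (T.b (T.l 204) (T.l 204))) (T.c (T.b (T.b (T.l 220) (T.l 204)) (T.l 204)) (T.b (T.l 204) (T.l 204)))) (T.a (T.c (T.l 204) (T.l 204)) (T.c (T.l 204) (T.l 204))))))),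 by decide +kernel⟩

def A022E_022_1_5_1 :
    ∃ t, chk3 (onCell 0 67108864 0 1073741824 134217728 67108864 (corT true 1 c0F cA022E gF0q0 gF2q2 gF2q2 gF3q2 true false)) t 1 5 1 = true :=
  ⟨(T.a (T.a (T.c (T.c (T.l 0) (T.l 0)) (T.l 0)) (T.c (T.a (T.l 16) (T.b (T.l 220) (T.l 0))) (T.a (T.l 0) (T.l 0)))) (T.a (T.b (T.c (T.a (T.l 220) (T.c (T.l 204) (T.l 204))) (T.a (T.l 204) (T.l 204))) (T.c (T.b (T.l 16) (T.l 0)) (T.l 0))) (T.c (T.b (T.c (T.b (T.l 220) (T.l 204)) (T.b (T.l 204) (T.l 204))) (T.c (T.b (T.l 0) (T.l 0)) (T.l 0))) (T.b (T.a (T.l 204) (T.l 204)) (T.b (T.l 0) (T.l 0)))))), by decide +kernel⟩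

def A022E_022_1_6_1 :
    ∃ t, chk3 (onCell 0 67108864 0 1073741824 134217728 67108864 (corT true 1 c0F cA022E gF0q0 gF2q2 gF2q2 gF3q2 true false)) t 1 6 1 = true :=
  ⟨(T.b (T.a (T.a (T.c (T.l 0) (T.l 0)) (T.c (T.a (T.l 816) (T.l 816)) (T.a (T.l 816) (T.l 0)))) (T.a (T.c (T.a (T.l 816) (T.l 816)) (T.l 0)) (T.c (T.c (T.b (T.l 0) (T.l 816)) (T.l 4)) (T.b (T.l 0) (T.l 816))))) (T.a (T.a (T.c (T.l 816) (T.l 816)) (T.c (T.a (T.l 816) (T.l 820)) (T.a (T.l 816) (T.l 816)))) (T.c (T.a (T.c (T.l 816) (T.l 816)) (T.c (T.l 816) (T.l 816))) (T.a (T.l 820) (T.l 816))))), by decide +kernel⟩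

def A022E_022_2_7_1 :
    ∃ t, chk3 (onCell 0 67108864 0 1073741824 134217728 67108864 (corT true 1 c0F cA022E gF0q0 gF2q2 gF2q2 gF3q2 true false)) t 2 7 1 = true :=
  ⟨(T.a (T.c (T.c (T.b (T.l 816) (T.c (T.l 816) (T.l 816))) (T.c (T.l 880) (T.l 816))) (T.b (T.l 816) (T.c (T.l 816) (T.l 816)))) (T.c (T.a (T.b (T.l 820) (T.c (T.c (T.l 880) (T.l 816)) (T.c (T.l 816) (T.l 816)))) (T.c (T.b (T.l 816) (T.b (T.l 816) (T.b (T.a (T.l 816) (T.l 816)) (T.c (T.a (T.l 816) (T.b (T.l 816) (T.a (T.l 880) (T.c (T.l 816) (T.l 816))))) (T.a (T.l 816) (T.b (T.l 816) (T.c (T.b (T.l 816) (T.l 880)) (T.l 880)))))))) (T.b (T.l 816) (T.b (T.l 816) (T.b (T.l 816) (T.a (T.c (T.l 816) (T.l 816)) (T.b (T.l 880) (T.c (T.c (T.l 880) (T.l 880)) (T.a (T.l 816) (T.l 880)))))))))) (T.a (T.b (T.l 816) (T.c (T.b (T.l 816) (T.l 816)) (T.l 880))) (T.b (T.l 816) (T.b (T.b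 (T.l 816) (T.l 816)) (T.c (T.b (T.l 816) (T.a (T.b (T.l 816) (T.l 880)) (T.b (T.l 816) (T.c (T.a (T.l 816) (T.l 816)) (T.b (T.l 816) (T.l 880)))))) (T.a (T.l 880) (T.b (T.l 816) (T.c (T.l 880) (T.l 816)))))))))), by decide +kernel⟩

def A022E_022_3_7_1 :
    ∃ t, chk3 (onCell 0 67108864 0 1073741824 134217728 67108864 (corT true 1 c0F cA022E gF0q0 gF2q2 gF2q2 gF3q2 true false)) t 3 7 1 = true :=
  ⟨(T.a (T.c (T.c (T.b (T.a (T.l 816) (T.l 816)) (T.a (T.b (T.l 816) (T.b (T.l 816) (T.c (T.a (T.c (T.l 816) (T.l 816)) (T.l 816)) (T.a (T.a (T.l 880) (T.l 816)) (T.l 816))))) (T.b (T.l 816) (T.b (T.l 816) (T.c (T.l 880) (T.l 880)))))) (T.b (T.l 820) (T.b (T.a (T.l 816) (T.l 816)) (T.a (T.b (T.l 816) (T.c (T.a (T.l 880) (T.l 816)) (T.a (T.l 880) (T.l 816)))) (T.c (T.b (T.l 816) (T.l 816)) (T.l 880)))))) (T.b (T.a (T.l 816) (T.l 816)) (T.c (T.b (T.b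 (T.l 816) (T.l 820)) (T.a (T.b (T.l 816) (T.b (T.l 816) (T.c (T.a (T.l 816) (T.l 816)) (T.a (T.l 816) (T.l 816))))) (T.c (T.l 880) (T.l 816)))) (T.b (T.l 816) (T.a (T.b (T.l 816) (T.a (T.c (T.l 816) (T.l 816)) (T.l 816))) (T.a (T.l 880) (T.l 880))))))) (T.c (T.b (T.c (T.b (T.l 816) (T.l 820)) (T.l 820)) (T.c (T.a (T.b (T.l 816) (T.b (T.l 820) (T.b (T.l 884) (T.c (T.l 880) (T.l 880))))) (T.b (T.l 820) (T.b (T.a (T.l 816) (T.l 820)) (T.c (T.a (T.l 880) (T.a (T.l 880) (T.l 880))) (T.a (T.l 880) (T.a (T.l 880) (T.l 880))))))) (T.b (T.a (T.l 816) (T.l 816)) (T.a (T.b (T.l 816) (T.c (T.l 880) (T.l 880))) (T.b (T.l 816) (T.b (T.l 884) (T.c (T.a (T.l 880) (T.a (T.l 880) (T.l 880))) (T.a (T.l 880) (T.a (T.l 880) (T.l 880)))))))))) (T.b (T.a (T.l 816) (T.l 820)) (T.b (T.c (T.l 820) (T.l 816)) (T.a (T.c (T.b (T.l 816) (T.c (T.l 880) (T.l 880))) (T.c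 (T.l 880) (T.l 880))) (T.c (T.b (T.l 816) (T.b (T.l 880) (T.a (T.c (T.l 880) (T.l 880)) (T.b (T.l 880) (T.c (T.a (T.l 880) (T.l 880)) (T.l 880)))))) (T.b (T.l 816) (T.b (T.l 816) (T.a (T.c (T.l 880) (T.l 880)) (T.b (T.l 880) (T.c (T.l 880) (T.l 880)))))))))))), by decide +kernel⟩

theorem A022E_022_1_7_1 :
    ∃ t, chk3 (onCell 0 67108864 0 1073741824 134217728 67108864 (corT true 1 c0F cA022E gF0q0 gF2q2 gF2q2 gF3q2 true false)) t 1 7 1 = true :=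
  ex3_a A022E_022_2_7_1 A022E_022_3_7_1
theorem A022E_022_1_3_1 :
    ∃ t, chk3 (onCell 0 67108864 0 1073741824 134217728 67108864 (corT true 1 c0F cA022E gF0q0 gF2q2 gF2q2 gF3q2 true false)) t 1 3 1 = true :=
  ex3_b A022E_022_1_6_1 A022E_022_1_7_1
theorem A022E_022_1_2_1 :
    ∃ t, chk3 (onCell 0 67108864 0 1073741824 134217728 67108864 (corT true 1 c0F cA022E gF0q0 gF2q2 gF2q2 gF3q2 true false)) t 1 2 1 = true :=
  ex3_b A022E_022_1_4_1 A022E_022_1_5_1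
theorem A022E_022 :
    ∃ t, chk3 (onCell 0 67108864 0 1073741824 134217728 67108864 (corT true 1 c0F cA022E gF0q0 gF2q2 gF2q2 gF3q2 true false)) t 1 1 1 = true :=
  ex3_b A022E_022_1_2_1 A022E_022_1_3_1

def A022E_110 :
    ∃ t, chk3 (onCell 0 67108864 0 1073741824 134217728 67108864 (corT true 1 c0F cA022E gF1q0 gF1q2 gF0q2 gF1q2 true true)) t 1 1 1 = true :=
  ⟨(T.l 2), by decide +kernel⟩

def A022E_111 :
    ∃ t, chk3 (onCell 0 67108864 0 1073741824 134217728 67108864 (corT true 1 c0F cA022E gF1q0 gF1q2 gF1q2 gF2q2 true true)) t 1 1 1 = true :=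
  ⟨(T.l 2), by decide +kernel⟩

def A022E_112 :
    ∃ t, chk3 (onCell 0 67108864 0 1073741824 134217728 67108864 (corT true 1 c0F cA022E gF1q0 gF1q2 gF2q2 gF3q2 true false)) t 1 1 1 = true :=
  ⟨(T.b (T.a (T.a (T.b (T.b (T.c (T.b (T.c (T.b (T.b (T.c (T.c (T.l 204) (T.l 204)) (T.a (T.l 204) (T.l 204))) (T.l 204)) (T.l 204)) (T.c (T.b (T.l 204) (T.l 204)) (T.l 220))) (T.l 204)) (T.b (T.b (T.c (T.c (T.l 204) (T.l 204)) (T.c (T.l 204) (T.l 204))) (T.l 204)) (T.l 204))) (T.l 204)) (T.l 204)) (T.b (T.a (T.c (T.c (T.b (T.l 204) (T.l 204)) (T.l 204)) (T.c (T.l 204) (T.l 204))) (T.b (T.c (T.b (T.c (T.a (T.l 204) (T.l 204)) (T.a (T.l 204) (T.l 204))) (T.l 204)) (T.a (T.l 204) (T.c (T.l 204) (T.l 204)))) (T.l 204))) (T.l 0))) (T.b (T.a (T.b (T.c (T.a (T.b (T.c (T.b (T.a (T.l 204) (T.c (T.l 204) (T.l 204))) (T.l 204)) (T.a (T.l 204) (T.l 204))) (T.l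 204)) (T.b (T.c (T.b (T.c (T.a (T.l 204) (T.l 204)) (T.l 220)) (T.l 204)) (T.a (T.l 204) (T.l 204))) (T.l 204))) (T.a (T.b (T.c (T.l 220) (T.l 204)) (T.l 204)) (T.c (T.b (T.l 204) (T.l 204)) (T.l 204)))) (T.c (T.l 16) (T.l 0))) (T.b (T.c (T.b (T.c (T.a (T.b (T.c (T.a (T.l 220) (T.b (T.l 220) (T.l 204))) (T.l 204)) (T.l 204)) (T.b (T.c (T.b (T.a (T.l 220) (T.a (T.l 220) (T.l 204))) (T.l 204)) (T.l 220)) (T.l 204))) (T.b (T.a (T.l 204) (T.l 220)) (T.l 204))) (T.a (T.l 204) (T.l 204))) (T.b (T.a (T.c (T.l 204) (T.l 204)) (T.c (T.l 204) (T.l 204))) (T.l 204))) (T.c (T.l 0) (T.l 0)))) (T.a (T.b (T.l 0) (T.l 0)) (T.b (T.l 0) (T.l 0))))) (T.b (T.a (T.a (T.l 0) (T.l 0)) (T.a (T.l 0) (T.l 16))) (T.a (T.a (T.l 0) (T.l 0)) (T.l 0)))), by decide +kernel⟩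

def A022E_120 :
    ∃ t, chk3 (onCell 0 67108864 0 1073741824 134217728 67108864 (corT true 1 c0F cA022E gF1q0 gF2q2 gF0q2 gF1q2 true true)) t 1 1 1 = true :=
  ⟨(T.l 2), by decide +kernel⟩

def A022E_121 :
    ∃ t, chk3 (onCell 0 67108864 0 1073741824 134217728 67108864 (corT true 1 c0F cA022E gF1q0 gF2q2 gF1q2 gF2q2 true true)) t 1 1 1 = true :=
  ⟨(T.l 2), by decide +kernel⟩

def A022E_122 :
    ∃ t, chk3 (onCell 0 67108864 0 1073741824 134217728 67108864 (corT true 1 c0F cA022E gF1q0 gF2q2 gF2q2 gF3q2 true false)) t 1 1 1 = true :=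
  ⟨(T.b (T.b (T.a (T.a (T.c (T.b (T.b (T.c (T.b (T.l 220) (T.l 204)) (T.l 204)) (T.l 204)) (T.l 204)) (T.b (T.c (T.l 204) (T.l 204)) (T.l 204))) (T.a (T.c (T.c (T.l 204) (T.l 204)) (T.c (T.l 204) (T.l 204))) (T.b (T.c (T.b (T.b (T.c (T.a (T.l 204) (T.l 204)) (T.b (T.l 204) (T.l 204))) (T.l 204)) (T.l 204)) (T.a (T.l 220) (T.c (T.l 204) (T.l 204)))) (T.l 204)))) (T.a (T.b (T.c (T.b (T.a (T.c (T.a (T.l 204) (T.b (T.l 220) (T.l 204))) (T.a (T.l 204) (T.l 204))) (T.b (T.c (T.c (T.b (T.l 204) (T.l 204)) (T.l 204)) (T.a (T.l 204) (T.l 204))) (T.l 220))) (T.b (T.l 204) (T.l 204))) (T.b (T.a (T.b (T.c (T.l 220) (T.l 204)) (T.l 204)) (T.c (T.b (T.l 220) (T.l 204)) (T.l 220))) (T.l 204))) (T.c (T.l 204) (T.l 204))) (T.b (T.c (T.b (T.c (T.b (T.a (T.c (T.b (T.l 220) (T.l 204)) (T.l 204)) (T.b (T.c (T.a (T.l 204) (T.l 220)) (T.l 220)) (T.l 204))) (T.l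 204)) (T.b (T.b (T.a (T.a (T.l 204) (T.l 204)) (T.a (T.l 204) (T.l 220))) (T.l 220)) (T.l 204))) (T.l 204)) (T.b (T.c (T.b (T.a (T.l 204) (T.l 220)) (T.l 204)) (T.a (T.l 204) (T.l 204))) (T.l 204))) (T.c (T.l 204) (T.l 204))))) (T.a (T.a (T.l 204) (T.l 0)) (T.a (T.b (T.l 0) (T.l 0)) (T.l 16)))) (T.b (T.a (T.a (T.l 0) (T.l 0)) (T.b (T.l 0) (T.l 0))) (T.a (T.a (T.l 816) (T.l 0)) (T.l 0)))), by decide +kernel⟩

def A022E_220 :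
    ∃ t, chk3 (onCell 0 67108864 0 1073741824 134217728 67108864 (corT true 1 c0F cA022E gF2q0 gF2q2 gF0q2 gF1q2 true true)) t 1 1 1 = true :=
  ⟨(T.l 2), by decide +kernel⟩

def A022E_221 :
    ∃ t, chk3 (onCell 0 67108864 0 1073741824 134217728 67108864 (corT true 1 c0F cA022E gF2q0 gF2q2 gF1q2 gF2q2 true true)) t 1 1 1 = true :=
  ⟨(T.l 2), by decide +kernel⟩

def A022E_222 :
    ∃ t, chk3 (onCell 0 67108864 0 1073741824 134217728 67108864 (corT true 1 c0F cA022E gF2q0 gF2q2 gF2q2 gF3q2 true false)) t 1 1 1 = true :=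
  ⟨(T.b (T.b (T.a (T.a (T.c (T.b (T.b (T.c (T.a (T.l 204) (T.l 204)) (T.l 204)) (T.l 204)) (T.l 204)) (T.b (T.c (T.l 220) (T.l 204)) (T.l 204))) (T.b (T.a (T.c (T.c (T.l 204) (T.l 204)) (T.c (T.l 204) (T.l 204))) (T.b (T.c (T.b (T.b (T.c (T.a (T.l 204) (T.l 204)) (T.l 204)) (T.l 204)) (T.l 204)) (T.a (T.l 204) (T.c (T.l 204) (T.l 204)))) (T.l 204))) (T.l 204))) (T.a (T.b (T.c (T.b (T.b (T.c (T.b (T.a (T.a (T.l 204) (T.l 204)) (T.c (T.l 204) (T.l 204))) (T.l 204)) (T.b (T.a (T.a (T.l 204) (T.l 204)) (T.a (T.l 204) (T.l 204))) (T.l 204))) (T.a (T.l 204) (T.l 204))) (T.l 204)) (T.b (T.b (T.a (T.c (T.l 220) (T.l 204)) (T.c (T.l 220) (T.l 204))) (T.l 204)) (T.l 204))) (T.l 204)) (T.b (T.c (T.b (T.b (T.c (T.b (T.a (T.c (T.l 220) (T.l 204)) (T.c (T.a (T.l 204) (T.l 220)) (T.l 220))) (T.l 204)) (T.b (T.a (T.a (T.l 204) (T.l 204)) (T.a (T.l 204)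 (T.l 220))) (T.l 204))) (T.l 204)) (T.l 204)) (T.b (T.b (T.c (T.a (T.l 204) (T.l 220)) (T.a (T.l 204) (T.l 204))) (T.l 204)) (T.l 204))) (T.l 204)))) (T.a (T.a (T.l 204) (T.l 204)) (T.b (T.l 0) (T.l 0)))) (T.b (T.a (T.a (T.l 204) (T.l 204)) (T.b (T.l 0) (T.l 0))) (T.a (T.a (T.l 204) (T.l 0)) (T.l 0)))), by decide +kernel⟩

def A022L_004_4_2_2 :
    ∃ t, chk3 (onCell 0 67108864 0 1073741824 134217728 67108864 (corX 1 c0F cA022L tA022L gF0q0 gF0q2 gF4q2 gF5q2 gF5q2 false true)) t 4 2 2 = true :=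
  ⟨(T.b (T.c (T.b (T.a (T.b (T.c (T.a (T.c (T.l 204) (T.l 207)) (T.l 207)) (T.a (T.b (T.l 223) (T.l 223)) (T.l 207))) (T.c (T.a (T.c (T.l 204) (T.l 207)) (T.l 207)) (T.a (T.b (T.l 223) (T.l 207)) (T.l 207)))) (T.c (T.l 207) (T.l 207))) (T.a (T.b (T.c (T.a (T.c (T.l 204) (T.l 207)) (T.l 207)) (T.a (T.b (T.l 207) (T.l 207)) (T.l 207))) (T.c (T.a (T.c (T.l 223) (T.l 207)) (T.l 207)) (T.a (T.b (T.l 207) (T.l 207)) (T.l 207)))) (T.a (T.l 463) (T.l 463)))) (T.b (T.a (T.b (T.a (T.c (T.l 220) (T.l 207)) (T.l 207)) (T.a (T.c (T.b (T.l 207) (T.l 207)) (T.l 207)) (T.l 207))) (T.b (T.l 204) (T.l 463))) (T.a (T.b (T.a (T.c (T.b (T.l 207) (T.l 207)) (T.l 207)) (T.l 207)) (T.a (T.c (T.b (T.l 207) (T.l 207)) (T.l 207)) (T.l 207))) (T.b (T.l 207) (T.l 207))))) (T.c (T.a (T.b (T.a (T.c (T.a (T.c (T.l 207) (T.l 207)) (T.l 207)) (T.a (T.b (T.l 207) (T.l 207))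 (T.l 207))) (T.c (T.l 207) (T.l 207))) (T.a (T.c (T.a (T.c (T.l 207) (T.l 207)) (T.l 207)) (T.a (T.b (T.l 207) (T.l 207)) (T.l 207))) (T.c (T.l 207) (T.l 207)))) (T.b (T.b (T.l 463) (T.l 479)) (T.b (T.l 479) (T.l 479)))) (T.b (T.a (T.a (T.b (T.c (T.b (T.l 207) (T.l 207)) (T.l 207)) (T.c (T.b (T.l 207) (T.l 207)) (T.l 207))) (T.b (T.l 207) (T.l 207))) (T.b (T.l 207) (T.l 207))) (T.a (T.a (T.b (T.c (T.b (T.l 207) (T.l 207)) (T.l 207)) (T.c (T.b (T.l 207) (T.l 207)) (T.l 207))) (T.b (T.l 207) (T.l 223))) (T.b (T.l 207) (T.l 207)))))), by decide +kernel⟩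

def A022L_004_4_2_3 :
    ∃ t, chk3 (onCell 0 67108864 0 1073741824 134217728 67108864 (corX 1 c0F cA022L tA022L gF0q0 gF0q2 gF4q2 gF5q2 gF5q2 false true)) t 4 2 3 = true :=
  ⟨(T.b (T.b (T.c (T.a (T.a (T.c (T.b (T.l 207) (T.l 207)) (T.l 207)) (T.l 207)) (T.b (T.l 207) (T.l 207))) (T.a (T.a (T.c (T.l 207) (T.l 207)) (T.l 207)) (T.b (T.l 207) (T.l 207)))) (T.c (T.a (T.a (T.c (T.b (T.l 207) (T.l 207)) (T.l 207)) (T.l 207)) (T.b (T.l 207) (T.l 207))) (T.a (T.a (T.c (T.l 207) (T.l 207)) (T.l 207)) (T.b (T.l 207) (T.l 207))))) (T.b (T.c (T.a (T.a (T.c (T.b (T.l 207) (T.l 207)) (T.l 207)) (T.l 207)) (T.b (T.l 207) (T.l 207))) (T.a (T.a (T.c (T.l 207) (T.l 207)) (T.l 207)) (T.b (T.l 207) (T.l 207)))) (T.c (T.a (T.a (T.c (T.b (T.l 207) (T.l 207)) (T.l 207)) (T.l 207)) (T.l 463)) (T.a (T.a (T.c (T.l 207) (T.l 207)) (T.l 207)) (T.l 463))))), by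 decide +kernel⟩

def A022L_004_5_2_1 :
    ∃ t, chk3 (onCell 0 67108864 0 1073741824 134217728 67108864 (corX 1 c0F cA022L tA022L gF0q0 gF0q2 gF4q2 gF5q2 gF5q2 false true)) t 5 2 1 = true :=
  ⟨(T.b (T.a (T.c (T.c (T.b (T.b (T.l 460) (T.l 463)) (T.b (T.l 463) (T.l 207))) (T.b (T.b (T.l 207) (T.l 207)) (T.b (T.l 207) (T.l 207)))) (T.b (T.c (T.b (T.l 207) (T.l 207)) (T.l 460)) (T.c (T.b (T.l 207) (T.l 207)) (T.l 463)))) (T.b (T.c (T.a (T.c (T.l 207) (T.l 207)) (T.c (T.b (T.b (T.l 204) (T.l 204)) (T.l 207)) (T.b (T.b (T.l 204) (T.l 204)) (T.l 207)))) (T.a (T.c (T.l 207) (T.l 207)) (T.c (T.b (T.l 460) (T.l 207)) (T.b (T.l 460) (T.l 207))))) (T.c (T.c (T.b (T.l 207) (T.l 207)) (T.l 463)) (T.c (T.l 463) (T.l 463))))) (T.c (T.c (T.b (T.a (T.b (T.l 207) (T.l 207)) (T.l 463)) (T.a (T.l 463) (T.l 463))) (T.b (T.a (T.l 463) (T.l 463)) (T.b (T.l 463)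 (T.l 463)))) (T.b (T.c (T.b (T.l 460) (T.l 463)) (T.b (T.l 463) (T.l 463))) (T.c (T.b (T.l 463) (T.l 463)) (T.b (T.l 463) (T.l 463)))))), by decide +kernel⟩

def A022L_004_6_4_1 :
    ∃ t, chk3 (onCell 0 67108864 0 1073741824 134217728 67108864 (corX 1 c0F cA022L tA022L gF0q0 gF0q2 gF4q2 gF5q2 gF5q2 false true)) t 6 4 1 = true :=
  ⟨(T.a (T.c (T.b (T.c (T.a (T.c (T.l 460) (T.l 460)) (T.b (T.l 460) (T.l 460))) (T.a (T.b (T.l 460) (T.l 460)) (T.b (T.l 460) (T.l 204)))) (T.c (T.b (T.a (T.l 460) (T.l 460)) (T.b (T.l 460) (T.l 460))) (T.b (T.b (T.l 460) (T.l 460)) (T.b (T.l 460) (T.l 460))))) (T.b (T.c (T.a (T.b (T.l 204) (T.l 204)) (T.b (T.l 204) (T.l 204))) (T.a (T.b (T.l 204) (T.l 204)) (T.b (T.l 204) (T.l 204)))) (T.c (T.b (T.b (T.l 460) (T.l 460)) (T.b (T.l 460) (T.l 460))) (T.b (T.b (T.l 460) (T.l 460)) (T.b (T.l 460) (T.l 460)))))) (T.b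 (T.c (T.b (T.c (T.a (T.a (T.b (T.l 204) (T.l 204)) (T.l 460)) (T.b (T.l 460) (T.l 460))) (T.a (T.b (T.l 460) (T.l 460)) (T.b (T.l 204) (T.l 204)))) (T.c (T.a (T.b (T.l 460) (T.l 204)) (T.b (T.l 460) (T.l 460))) (T.a (T.b (T.l 460) (T.l 204)) (T.b (T.l 204) (T.l 460))))) (T.b (T.a (T.c (T.b (T.l 460) (T.l 460)) (T.b (T.l 204) (T.l 204))) (T.c (T.b (T.l 204) (T.l 204)) (T.b (T.l 204) (T.l 204)))) (T.a (T.c (T.b (T.l 460) (T.l 204)) (T.b (T.l 204) (T.l 204))) (T.c (T.b (T.l 204) (T.l 204)) (T.b (T.l 204) (T.l 204)))))) (T.c (T.b (T.a (T.c (T.l 460) (T.l 204)) (T.c (T.b (T.l 460) (T.l 204)) (T.b (T.l 460) (T.l 204)))) (T.c (T.b (T.l 460) (T.l 460)) (T.b (T.l 204) (T.l 460)))) (T.b (T.a (T.c (T.l 204) (T.l 204)) (T.c (T.b (T.l 204) (T.l 204)) (T.b (T.l 204) (T.l 204)))) (T.c (T.l 460) (T.l 460)))))), by decide +kernel⟩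

def A022L_004_7_4_1 :
    ∃ t, chk3 (onCell 0 67108864 0 1073741824 134217728 67108864 (corX 1 c0F cA022L tA022L gF0q0 gF0q2 gF4q2 gF5q2 gF5q2 false true)) t 7 4 1 = true :=
  ⟨(T.b (T.a (T.c (T.b (T.c (T.a (T.b (T.l 204) (T.l 204)) (T.b (T.l 204) (T.l 204))) (T.a (T.b (T.l 204) (T.l 204)) (T.l 460))) (T.c (T.a (T.b (T.l 204) (T.l 204)) (T.b (T.l 204) (T.l 204))) (T.a (T.b (T.l 204) (T.l 204)) (T.l 460)))) (T.b (T.a (T.c (T.l 460) (T.l 460)) (T.c (T.l 460) (T.l 204))) (T.a (T.c (T.l 460) (T.l 460)) (T.c (T.l 460) (T.l 460))))) (T.c (T.b (T.c (T.a (T.l 460) (T.l 460)) (T.b (T.l 460) (T.l 460))) (T.c (T.a (T.l 460) (T.l 460)) (T.b (T.l 460) (T.l 460)))) (T.b (T.c (T.b (T.l 460) (T.l 460)) (T.b (T.l 204) (T.l 204))) (T.a (T.c (T.l 204) (T.l 204)) (T.b (T.l 460) (T.l 460)))))) (T.a (T.c (T.b (T.c (T.a (T.b (T.l 460) (T.l 460)) (T.b (T.l 204)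 (T.l 204))) (T.a (T.b (T.l 204) (T.l 204)) (T.l 460))) (T.c (T.a (T.b (T.l 460) (T.l 204)) (T.b (T.l 204) (T.l 460))) (T.a (T.b (T.l 204) (T.l 204)) (T.l 460)))) (T.b (T.a (T.c (T.b (T.l 204) (T.l 204)) (T.l 460)) (T.c (T.l 460) (T.l 460))) (T.a (T.b (T.c (T.l 204) (T.l 204)) (T.l 460)) (T.c (T.l 460) (T.l 460))))) (T.c (T.b (T.c (T.b (T.l 460) (T.l 460)) (T.b (T.l 460) (T.l 460))) (T.c (T.b (T.l 460) (T.l 460)) (T.b (T.l 460) (T.l 460)))) (T.b (T.a (T.c (T.l 460) (T.l 460)) (T.b (T.l 460) (T.l 460))) (T.a (T.b (T.l 460) (T.l 460)) (T.b (T.l 460) (T.l 460))))))), by decide +kernel⟩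

def A022L_004_3_5_1 :
    ∃ t, chk3 (onCell 0 67108864 0 1073741824 134217728 67108864 (corX 1 c0F cA022L tA022L gF0q0 gF0q2 gF4q2 gF5q2 gF5q2 false true)) t 3 5 1 = true :=
  ⟨(T.a (T.b (T.a (T.c (T.c (T.l 463) (T.l 463)) (T.c (T.l 207) (T.l 207))) (T.c (T.c (T.b (T.b (T.l 460) (T.l 460)) (T.b (T.l 460) (T.l 460))) (T.b (T.l 460) (T.b (T.l 460) (T.l 460)))) (T.b (T.c (T.l 460) (T.l 460)) (T.c (T.l 460) (T.l 460))))) (T.c (T.c (T.b (T.l 463) (T.l 463)) (T.b (T.l 463) (T.l 463))) (T.c (T.b (T.l 207) (T.l 207)) (T.l 463)))) (T.b (T.a (T.b (T.c (T.a (T.c (T.l 460) (T.l 204)) (T.c (T.b (T.l 460) (T.l 204)) (T.b (T.l 204) (T.l 204)))) (T.a (T.b (T.l 460) (T.l 460)) (T.c (T.l 460) (T.l 460)))) (T.c (T.c (T.l 460) (T.l 460)) (T.c (T.l 460) (T.l 460)))) (T.c (T.b (T.c (T.a (T.l 460) (T.l 460)) (T.b (T.l 460) (T.l 460))) (T.c (T.a (T.b (T.l 460)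 (T.l 204)) (T.l 460)) (T.b (T.l 460) (T.b (T.l 460) (T.l 460))))) (T.b (T.a (T.c (T.l 460) (T.l 460)) (T.b (T.l 460) (T.l 460))) (T.b (T.c (T.l 460) (T.l 460)) (T.c (T.l 460) (T.l 460)))))) (T.c (T.b (T.a (T.c (T.l 460) (T.l 460)) (T.c (T.l 460) (T.l 460))) (T.a (T.b (T.c (T.l 460) (T.l 460)) (T.l 463)) (T.c (T.l 460) (T.l 460)))) (T.b (T.a (T.c (T.l 460) (T.l 460)) (T.b (T.l 460) (T.l 460))) (T.a (T.b (T.b (T.l 460) (T.l 460)) (T.l 463)) (T.b (T.l 460) (T.l 460))))))), by decide +kernel⟩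

def A022L_004_1_3_1 :
    ∃ t, chk3 (onCell 0 67108864 0 1073741824 134217728 67108864 (corX 1 c0F cA022L tA022L gF0q0 gF0q2 gF4q2 gF5q2 gF5q2 false true)) t 1 3 1 = true :=
  ⟨(T.b (T.a (T.c (T.a (T.c (T.a (T.b (T.a (T.c (T.a (T.c (T.l 207) (T.l 207)) (T.l 207)) (T.a (T.b (T.l 207) (T.l 207)) (T.l 207))) (T.c (T.l 207) (T.l 207))) (T.b (T.c (T.a (T.c (T.l 207) (T.l 207)) (T.l 207)) (T.a (T.b (T.l 207) (T.l 207)) (T.l 207))) (T.l 2))) (T.a (T.b (T.l 463) (T.l 207)) (T.l 463))) (T.a (T.b (T.a (T.b (T.c (T.b (T.l 207) (T.l 207)) (T.l 207)) (T.c (T.b (T.l 207) (T.l 207)) (T.l 207))) (T.b (T.l 223) (T.l 223))) (T.b (T.a (T.c (T.b (T.l 207) (T.l 207)) (T.l 207)) (T.l 223)) (T.l 2))) (T.b (T.l 479) (T.l 479)))) (T.b (T.c (T.b (T.l 463) (T.l 463)) (T.b (T.l 463) (T.l 463))) (T.b (T.c (T.l 463) (T.l 463)) (T.l 2)))) (T.a (T.a (T.c (T.b (T.a (T.c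 (T.b (T.l 207) (T.l 207)) (T.l 207)) (T.l 207)) (T.b (T.a (T.c (T.l 207) (T.l 207)) (T.l 207)) (T.l 2))) (T.b (T.a (T.c (T.l 207) (T.l 207)) (T.l 207)) (T.b (T.c (T.l 207) (T.l 207)) (T.l 2)))) (T.c (T.b (T.l 463) (T.l 479)) (T.b (T.l 463) (T.l 463)))) (T.b (T.c (T.b (T.l 463) (T.l 463)) (T.b (T.l 463) (T.l 463))) (T.b (T.c (T.l 463) (T.l 463)) (T.l 2))))) (T.b (T.a (T.c (T.c (T.l 463) (T.l 463)) (T.c (T.l 463) (T.l 463))) (T.b (T.c (T.a (T.l 463) (T.b (T.c (T.l 460) (T.l 460)) (T.l 463))) (T.a (T.l 463) (T.b (T.b (T.l 460) (T.l 460)) (T.l 207)))) (T.c (T.b (T.l 463) (T.l 463)) (T.l 463)))) (T.b (T.c (T.c (T.a (T.l 463) (T.l 207)) (T.l 463)) (T.a (T.l 463) (T.l 463))) (T.l 2)))) (T.l 2)), by decide +kernel⟩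

theorem A022L_004_3_4_1 :
    ∃ t, chk3 (onCell 0 67108864 0 1073741824 134217728 67108864 (corX 1 c0F cA022L tA022L gF0q0 gF0q2 gF4q2 gF5q2 gF5q2 false true)) t 3 4 1 = true :=
  ex3_a A022L_004_6_4_1 A022L_004_7_4_1
theorem A022L_004_3_2_1 :
    ∃ t, chk3 (onCell 0 67108864 0 1073741824 134217728 67108864 (corX 1 c0F cA022L tA022L gF0q0 gF0q2 gF4q2 gF5q2 gF5q2 false true)) t 3 2 1 = true :=
  ex3_b A022L_004_3_4_1 A022L_004_3_5_1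
theorem A022L_004_4_2_1 :
    ∃ t, chk3 (onCell 0 67108864 0 1073741824 134217728 67108864 (corX 1 c0F cA022L tA022L gF0q0 gF0q2 gF4q2 gF5q2 gF5q2 false true)) t 4 2 1 = true :=
  ex3_c A022L_004_4_2_2 A022L_004_4_2_3
theorem A022L_004_2_2_1 :
    ∃ t, chk3 (onCell 0 67108864 0 1073741824 134217728 67108864 (corX 1 c0F cA022L tA022L gF0q0 gF0q2 gF4q2 gF5q2 gF5q2 false true)) t 2 2 1 = true :=
  ex3_a A022L_004_4_2_1 A022L_004_5_2_1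
theorem A022L_004_1_2_1 :
    ∃ t, chk3 (onCell 0 67108864 0 1073741824 134217728 67108864 (corX 1 c0F cA022L tA022L gF0q0 gF0q2 gF4q2 gF5q2 gF5q2 false true)) t 1 2 1 = true :=
  ex3_a A022L_004_2_2_1 A022L_004_3_2_1
theorem A022L_004 :
    ∃ t, chk3 (onCell 0 67108864 0 1073741824 134217728 67108864 (corX 1 c0F cA022L tA022L gF0q0 gF0q2 gF4q2 gF5q2 gF5q2 false true)) t 1 1 1 = true :=
  ex3_b A022L_004_1_2_1 A022L_004_1_3_1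

def A022L_014 :
    ∃ t, chk3 (onCell 0 67108864 0 1073741824 134217728 67108864 (corT true 1 c0F cA022L gF0q0 gF1q2 gF4q2 gF5q2 false true)) t 1 1 1 = true :=
  ⟨(T.b (T.b (T.b (T.a (T.a (T.c (T.l 204) (T.l 204)) (T.a (T.c (T.l 204) (T.l 204)) (T.c (T.b (T.l 204) (T.l 204)) (T.l 204)))) (T.a (T.c (T.a (T.b (T.l 204) (T.l 204)) (T.l 460)) (T.b (T.l 460) (T.l 460))) (T.c (T.b (T.l 460) (T.l 460)) (T.b (T.l 204) (T.l 204))))) (T.a (T.c (T.l 204) (T.l 204)) (T.a (T.c (T.a (T.b (T.l 204) (T.l 204)) (T.b (T.l 204) (T.l 204))) (T.b (T.l 460) (T.l 460))) (T.c (T.b (T.l 460) (T.l 460)) (T.b (T.l 204) (T.l 204)))))) (T.b (T.a (T.c (T.l 204) (T.l 204)) (T.a (T.c (T.a (T.l 204) (T.b (T.l 204) (T.l 204))) (T.a (T.l 204) (T.l 204))) (T.c (T.b (T.l 460) (T.l 460)) (T.b (T.l 204) (T.l 204))))) (T.l 2))) (T.l 2)), by decide +kernel⟩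

def A022L_024 :
    ∃ t, chk3 (onCell 0 67108864 0 1073741824 134217728 67108864 (corT true 1 c0F cA022L gF0q0 gF2q2 gF4q2 gF5q2 false true)) t 1 1 1 = true :=
  ⟨(T.l 2), by decide +kernel⟩

def A022L_114 :
    ∃ t, chk3 (onCell 0 67108864 0 1073741824 134217728 67108864 (corT true 1 c0F cA022L gF1q0 gF1q2 gF4q2 gF5q2 false true)) t 1 1 1 = true :=
  ⟨(T.b (T.b (T.b (T.a (T.a (T.c (T.l 204) (T.l 204)) (T.b (T.a (T.c (T.l 204) (T.l 204)) (T.c (T.l 204) (T.l 204))) (T.l 204))) (T.a (T.c (T.a (T.b (T.l 204) (T.l 204)) (T.l 460)) (T.b (T.l 204) (T.l 204))) (T.c (T.b (T.l 460) (T.l 204)) (T.b (T.l 204) (T.l 204))))) (T.a (T.l 204) (T.a (T.b (T.l 0) (T.l 0)) (T.l 0)))) (T.l 2)) (T.l 2)), by decide +kernel⟩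

def A022L_124 :
    ∃ t, chk3 (onCell 0 67108864 0 1073741824 134217728 67108864 (corT true 1 c0F cA022L gF1q0 gF2q2 gF4q2 gF5q2 false true)) t 1 1 1 = true :=
  ⟨(T.l 2), by decide +kernel⟩

def A022L_224 :
    ∃ t, chk3 (onCell 0 67108864 0 1073741824 134217728 67108864 (corT true 1 c0F cA022L gF2q0 gF2q2 gF4q2 gF5q2 false true)) t 1 1 1 = true :=
  ⟨(T.l 2), by decide +kernel⟩

def A022R_050 :
    ∃ t, chk3 (onCell 0 67108864 0 1073741824 134217728 67108864 (corT true 1 c0F cA022R gF0q0 gF5q2 gF0q2 gF1q2 true true)) t 1 1 1 = true :=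
  ⟨(T.l 2), by decide +kernel⟩

def A022R_051 :
    ∃ t, chk3 (onCell 0 67108864 0 1073741824 134217728 67108864 (corT true 1 c0F cA022R gF0q0 gF5q2 gF1q2 gF2q2 true true)) t 1 1 1 = true :=
  ⟨(T.b (T.a (T.a (T.c (T.l 0) (T.l 0)) (T.a (T.c (T.l 0) (T.l 0)) (T.c (T.b (T.l 0) (T.l 0)) (T.l 0)))) (T.a (T.c (T.a (T.b (T.l 0) (T.l 0)) (T.b (T.l 0) (T.l 0))) (T.a (T.l 0) (T.l 0))) (T.c (T.a (T.l 64) (T.l 64)) (T.b (T.l 0) (T.l 0))))) (T.b (T.b (T.b (T.a (T.a (T.c (T.l 816) (T.l 816)) (T.a (T.c (T.l 816) (T.l 816)) (T.c (T.l 816) (T.l 816)))) (T.a (T.c (T.a (T.l 816) (T.l 816)) (T.a (T.l 816) (T.l 816))) (T.c (T.b (T.l 880) (T.l 880)) (T.l 816)))) (T.a (T.a (T.c (T.l 816) (T.l 816)) (T.a (T.c (T.l 816) (T.l 816)) (T.c (T.c (T.l 816) (T.l 816)) (T.l 816)))) (T.b (T.a (T.c (T.a (T.l 816) (T.l 816)) (T.a (T.l 816) (T.l 816))) (T.c (T.a (T.l 816)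 (T.l 816)) (T.l 816))) (T.a (T.c (T.a (T.l 816) (T.l 816)) (T.a (T.l 816) (T.l 816))) (T.c (T.a (T.l 816) (T.l 816)) (T.l 816)))))) (T.b (T.a (T.b (T.a (T.c (T.l 816) (T.l 816)) (T.b (T.a (T.c (T.l 816) (T.l 816)) (T.c (T.c (T.l 816) (T.l 816)) (T.l 816))) (T.a (T.c (T.l 816) (T.l 816)) (T.c (T.c (T.l 816) (T.l 816)) (T.l 816))))) (T.a (T.c (T.l 816) (T.l 816)) (T.b (T.a (T.c (T.l 816) (T.l 816)) (T.c (T.c (T.l 816) (T.l 816)) (T.l 816))) (T.a (T.c (T.l 816) (T.l 816)) (T.l 2))))) (T.b (T.a (T.b (T.a (T.c (T.l 816) (T.l 816)) (T.c (T.l 816) (T.l 816))) (T.a (T.c (T.l 880) (T.l 816)) (T.l 2))) (T.c (T.a (T.l 816) (T.l 2)) (T.l 880))) (T.l 2))) (T.a (T.a (T.c (T.l 816) (T.l 816)) (T.l 2)) (T.l 2)))) (T.l 2))), by decide +kernel⟩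

def A022R_052 :
    ∃ t, chk3 (onCell 0 67108864 0 1073741824 134217728 67108864 (corT true 1 c0F cA022R gF0q0 gF5q2 gF2q2 gF3q2 true false)) t 1 1 1 = true :=
  ⟨(T.b (T.l 1) (T.b (T.b (T.b (T.l 1) (T.a (T.l 1) (T.b (T.l 1) (T.a (T.l 1) (T.c (T.l 816) (T.l 816)))))) (T.b (T.a (T.b (T.a (T.l 1) (T.c (T.a (T.l 1) (T.l 816)) (T.l 880))) (T.a (T.c (T.l 816) (T.l 816)) (T.c (T.a (T.l 816) (T.l 816)) (T.a (T.l 816) (T.l 816))))) (T.c (T.a (T.b (T.l 880) (T.l 880)) (T.l 880)) (T.a (T.l 816) (T.l 816)))) (T.a (T.b (T.a (T.c (T.l 816) (T.l 816)) (T.c (T.a (T.l 816) (T.l 816)) (T.a (T.l 816) (T.l 816)))) (T.a (T.c (T.l 816) (T.l 816)) (T.c (T.a (T.l 816) (T.l 816)) (T.a (T.l 816) (T.l 816))))) (T.c (T.a (T.a (T.l 880) (T.l 880)) (T.a (T.l 880) (T.l 880))) (T.a (T.l 816) (T.l 816)))))) (T.b (T.a (T.a (T.c (T.c (T.l 816) (T.l 816)) (T.l 816)) (T.c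 (T.c (T.a (T.l 816) (T.l 816)) (T.a (T.l 816) (T.l 816))) (T.a (T.l 816) (T.l 816)))) (T.c (T.a (T.c (T.l 880) (T.l 816)) (T.c (T.l 880) (T.l 816))) (T.a (T.a (T.l 880) (T.l 880)) (T.a (T.l 880) (T.l 880))))) (T.a (T.a (T.c (T.c (T.l 816) (T.l 816)) (T.c (T.l 816) (T.l 816))) (T.c (T.c (T.a (T.l 816) (T.b (T.l 816) (T.l 880))) (T.a (T.l 816) (T.l 816))) (T.a (T.c (T.l 816) (T.l 816)) (T.c (T.l 816) (T.l 816))))) (T.c (T.a (T.c (T.a (T.c (T.l 816) (T.l 816)) (T.c (T.l 816) (T.l 816))) (T.a (T.l 880) (T.b (T.l 816) (T.l 880)))) (T.c (T.a (T.c (T.l 880) (T.l 816)) (T.b (T.l 880) (T.c (T.a (T.l 816) (T.l 880)) (T.l 880)))) (T.b (T.l 880) (T.a (T.a (T.l 816) (T.l 880)) (T.c (T.l 880) (T.l 816)))))) (T.a (T.c (T.a (T.l 816) (T.l 816)) (T.a (T.l 816) (T.l 816))) (T.c (T.a (T.l 880) (T.c (T.l 880) (T.l 816))) (T.a (T.l 816) (T.b (T.l 816) (T.l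 816)))))))))), by decide +kernel⟩

def A022R_150 :
    ∃ t, chk3 (onCell 0 67108864 0 1073741824 134217728 67108864 (corT true 1 c0F cA022R gF1q0 gF5q2 gF0q2 gF1q2 true true)) t 1 1 1 = true :=
  ⟨(T.b (T.l 2) (T.a (T.a (T.l 816) (T.l 2)) (T.l 2))), by decide +kernel⟩

def A022R_151 :
    ∃ t, chk3 (onCell 0 67108864 0 1073741824 134217728 67108864 (corT true 1 c0F cA022R gF1q0 gF5q2 gF1q2 gF2q2 true true)) t 1 1 1 = true :=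
  ⟨(T.a (T.a (T.b (T.c (T.l 0) (T.l 0)) (T.l 816)) (T.b (T.b (T.a (T.c (T.l 0) (T.l 0)) (T.c (T.l 0) (T.l 0))) (T.l 64)) (T.l 0))) (T.b (T.a (T.c (T.a (T.l 0) (T.l 0)) (T.b (T.l 0) (T.l 0))) (T.c (T.b (T.l 0) (T.l 0)) (T.l 0))) (T.b (T.l 0) (T.l 0)))), by decide +kernel⟩

def A022R_152 :
    ∃ t, chk3 (onCell 0 67108864 0 1073741824 134217728 67108864 (corT true 1 c0F cA022R gF1q0 gF5q2 gF2q2 gF3q2 true false)) t 1 1 1 = true :=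
  ⟨(T.l 1), by decide +kernel⟩

def A022R_250 :
    ∃ t, chk3 (onCell 0 67108864 0 1073741824 134217728 67108864 (corT true 1 c0F cA022R gF2q0 gF5q2 gF0q2 gF1q2 true true)) t 1 1 1 = true :=
  ⟨(T.b (T.b (T.l 2) (T.b (T.a (T.a (T.l 204) (T.l 0)) (T.a (T.l 0) (T.l 2))) (T.a (T.a (T.l 0) (T.l 0)) (T.a (T.l 0) (T.l 0))))) (T.a (T.a (T.l 0) (T.l 0)) (T.a (T.l 0) (T.l 0)))), by decide +kernel⟩

def A022R_251 :
    ∃ t, chk3 (onCell 0 67108864 0 1073741824 134217728 67108864 (corT true 1 c0F cA022R gF2q0 gF5q2 gF1q2 gF2q2 true true)) t 1 1 1 = true :=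
  ⟨(T.b (T.a (T.a (T.c (T.b (T.l 204) (T.l 0)) (T.l 0)) (T.b (T.a (T.c (T.l 204) (T.l 204)) (T.c (T.l 204) (T.l 0))) (T.l 0))) (T.b (T.a (T.c (T.a (T.l 204) (T.l 204)) (T.l 0)) (T.c (T.l 256) (T.l 0))) (T.l 0))) (T.a (T.l 1) (T.l 0))), by decide +kernel⟩

def A022R_252 :
    ∃ t, chk3 (onCell 0 67108864 0 1073741824 134217728 67108864 (corT true 1 c0F cA022R gF2q0 gF5q2 gF2q2 gF3q2 true false)) t 1 1 1 = true :=
  ⟨(T.l 1), by decide +kernel⟩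

def A101E_000 :
    ∃ t, chk3 (onCell 0 67108864 0 1073741824 134217728 67108864 (corT true 1 c0F cA101E gF0q1 gF0q0 gF0q1 gF1q1 true false)) t 1 1 1 = true :=
  ⟨(T.l 1), by decide +kernel⟩

def A101E_010 :
    ∃ t, chk3 (onCell 0 67108864 0 1073741824 134217728 67108864 (corT true 1 c0F cA101E gF0q1 gF1q0 gF0q1 gF1q1 true false)) t 1 1 1 = true :=
  ⟨(T.l 1), by decide +kernel⟩

def A101E_020 :
    ∃ t, chk3 (onCell 0 67108864 0 1073741824 134217728 67108864 (corT true 1 c0F cA101E gF0q1 gF2q0 gF0q1 gF1q1 true false)) t 1 1 1 = true :=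
  ⟨(T.b (T.l 1) (T.l 1)), by decide +kernel⟩

def A101R_002 :
    ∃ t, chk3 (onCell 0 67108864 0 1073741824 134217728 67108864 (corT true 1 c0F cA101R gF0q1 gF0q0 gF2q1 gF3q1 false true)) t 1 1 1 = true :=
  ⟨(T.l 2), by decide +kernel⟩

def A101R_003 :
    ∃ t, chk3 (onCell 0 67108864 0 1073741824 134217728 67108864 (corT true 1 c0F cA101R gF0q1 gF0q0 gF3q1 gF4q1 true true)) t 1 1 1 = true :=
  ⟨(T.l 2), by decide +kernel⟩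

def A101R_004 :
    ∃ t, chk3 (onCell 0 67108864 0 1073741824 134217728 67108864 (corT true 1 c0F cA101R gF0q1 gF0q0 gF4q1 gF5q1 true true)) t 1 1 1 = true :=
  ⟨(T.l 2), by decide +kernel⟩

def A101R_012 :
    ∃ t, chk3 (onCell 0 67108864 0 1073741824 134217728 67108864 (corT true 1 c0F cA101R gF0q1 gF1q0 gF2q1 gF3q1 false true)) t 1 1 1 = true :=
  ⟨(T.l 2), by decide +kernel⟩

def A101R_013 :
    ∃ t, chk3 (onCell 0 67108864 0 1073741824 134217728 67108864 (corT true 1 c0F cA101R gF0q1 gF1q0 gF3q1 gF4q1 true true)) t 1 1 1 = true :=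
  ⟨(T.l 2), by decide +kernel⟩

def A101R_014 :
    ∃ t, chk3 (onCell 0 67108864 0 1073741824 134217728 67108864 (corT true 1 c0F cA101R gF0q1 gF1q0 gF4q1 gF5q1 true true)) t 1 1 1 = true :=
  ⟨(T.l 2), by decide +kernel⟩

def A101R_022 :
    ∃ t, chk3 (onCell 0 67108864 0 1073741824 134217728 67108864 (corT true 1 c0F cA101R gF0q1 gF2q0 gF2q1 gF3q1 false true)) t 1 1 1 = true :=
  ⟨(T.l 2), by decide +kernel⟩

def A101R_023 :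
    ∃ t, chk3 (onCell 0 67108864 0 1073741824 134217728 67108864 (corT true 1 c0F cA101R gF0q1 gF2q0 gF3q1 gF4q1 true true)) t 1 1 1 = true :=
  ⟨(T.l 2), by decide +kernel⟩

def A101R_024 :
    ∃ t, chk3 (onCell 0 67108864 0 1073741824 134217728 67108864 (corT true 1 c0F cA101R gF0q1 gF2q0 gF4q1 gF5q1 true true)) t 1 1 1 = true :=
  ⟨(T.l 2), by decide +kernel⟩

def A102E_000_1_4_1 :
    ∃ t, chk3 (onCell 0 53687091 0 1073741824 134217728 67108864 (corX 1 c0F cA102E tA102E gF0q1 gF0q0 gF0q2 gF1q2 gF0q2 true true)) t 1 4 1 = true :=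
  ⟨(T.l 2), by decide +kernel⟩

def A102E_000_2_20_1 :
    ∃ t, chk3 (onCell 0 53687091 0 1073741824 134217728 67108864 (corX 1 c0F cA102E tA102E gF0q1 gF0q0 gF0q2 gF1q2 gF0q2 true true)) t 2 20 1 = true :=
  ⟨(T.l 2), by decide +kernel⟩

def A102E_000_2_21_2 :
    ∃ t, chk3 (onCell 0 53687091 0 1073741824 134217728 67108864 (corX 1 c0F cA102E tA102E gF0q1 gF0q0 gF0q2 gF1q2 gF0q2 true true)) t 2 21 2 = true :=
  ⟨(T.a (T.c (T.b (T.b (T.l 2) (T.c (T.a (T.a (T.c (T.b (T.l 207) (T.l 207)) (T.b (T.l 207) (T.l 207))) (T.c (T.l 207) (T.l 207))) (T.a (T.l 463) (T.l 207))) (T.a (T.a (T.c (T.l 207) (T.l 207)) (T.l 463)) (T.b (T.l 463) (T.l 463))))) (T.a (T.c (T.b (T.a (T.c (T.b (T.l 207) (T.l 207)) (T.b (T.l 207) (T.l 207))) (T.c (T.l 207) (T.l 207))) (T.a (T.c (T.b (T.l 207) (T.l 207)) (T.b (T.l 207) (T.l 207))) (T.c (T.l 207) (T.l 207)))) (T.a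 (T.b (T.c (T.l 207) (T.l 207)) (T.c (T.l 207) (T.l 207))) (T.b (T.l 463) (T.l 463)))) (T.c (T.a (T.b (T.l 463) (T.l 463)) (T.l 463)) (T.a (T.l 463) (T.l 207))))) (T.b (T.b (T.l 2) (T.a (T.c (T.a (T.b (T.l 207) (T.l 207)) (T.l 207)) (T.a (T.l 207) (T.l 207))) (T.c (T.l 463) (T.l 207)))) (T.a (T.c (T.a (T.a (T.b (T.l 207) (T.l 207)) (T.l 207)) (T.b (T.l 207) (T.l 207))) (T.a (T.b (T.l 207) (T.l 207)) (T.l 463))) (T.c (T.b (T.l 463) (T.l 463)) (T.b (T.l 207) (T.l 207)))))) (T.c (T.b (T.b (T.l 2) (T.b (T.l 2) (T.c (T.a (T.l 207) (T.l 207)) (T.a (T.l 207) (T.l 207))))) (T.a (T.c (T.b (T.l 463) (T.l 463)) (T.b (T.l 207) (T.l 207))) (T.c (T.l 463) (T.l 463)))) (T.a (T.a (T.c (T.l 463) (T.l 207)) (T.b (T.l 463) (T.l 463))) (T.a (T.l 463) (T.l 463))))), by decide +kernel⟩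

def A102E_000_2_21_3 :
    ∃ t, chk3 (onCell 0 53687091 0 1073741824 134217728 67108864 (corX 1 c0F cA102E tA102E gF0q1 gF0q0 gF0q2 gF1q2 gF0q2 true true)) t 2 21 3 = true :=
  ⟨(T.a (T.c (T.b (T.b (T.l 2) (T.a (T.c (T.a (T.l 207) (T.l 207)) (T.a (T.l 207) (T.l 207))) (T.c (T.l 207) (T.l 207)))) (T.a (T.c (T.a (T.b (T.l 207) (T.l 207)) (T.l 207)) (T.a (T.b (T.l 207) (T.l 207)) (T.l 207))) (T.a (T.b (T.l 463) (T.l 463)) (T.l 463)))) (T.a (T.b (T.b (T.l 2) (T.a (T.c (T.l 207) (T.l 207)) (T.l 463))) (T.a (T.c (T.b (T.l 207) (T.l 207)) (T.l 207)) (T.b (T.l 463) (T.l 463)))) (T.a (T.b (T.l 463) (T.l 463)) (T.b (T.l 207) (T.l 207))))) (T.c (T.a (T.a (T.b (T.l 207) (T.l 207)) (T.l 463)) (T.b (T.l 463) (T.l 463))) (T.a (T.b (T.l 463) (T.l 463)) (T.b (T.l 207) (T.l 207))))), by decide +kernel⟩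

def A102E_000_2_22_2 :
    ∃ t, chk3 (onCell 0 53687091 0 1073741824 134217728 67108864 (corX 1 c0F cA102E tA102E gF0q1 gF0q0 gF0q2 gF1q2 gF0q2 true true)) t 2 22 2 = true :=
  ⟨(T.a (T.c (T.b (T.a (T.c (T.b (T.a (T.c (T.b (T.l 207) (T.l 207)) (T.b (T.l 207) (T.l 207))) (T.c (T.l 207) (T.l 207))) (T.a (T.c (T.b (T.l 207) (T.l 207)) (T.b (T.l 207) (T.l 207))) (T.c (T.l 207) (T.l 207)))) (T.b (T.a (T.c (T.l 207) (T.l 207)) (T.l 463)) (T.a (T.c (T.l 207) (T.l 207)) (T.l 463)))) (T.c (T.a (T.b (T.l 463) (T.l 463)) (T.l 463)) (T.a (T.l 463) (T.l 207)))) (T.a (T.c (T.b (T.a (T.c (T.b (T.l 207) (T.l 207)) (T.b (T.l 207) (T.l 207))) (T.c (T.l 207) (T.l 207))) (T.a (T.c (T.b (T.l 207) (T.l 207)) (T.b (T.l 207) (T.l 207))) (T.c (T.l 207) (T.l 207)))) (T.b (T.a (T.c (T.l 207) (T.l 207)) (T.l 463)) (T.a (T.c (T.l 207) (T.l 207)) (T.l 463)))) (T.b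 (T.c (T.a (T.l 463) (T.l 207)) (T.b (T.l 463) (T.l 463))) (T.c (T.a (T.l 463) (T.l 207)) (T.b (T.l 463) (T.l 463)))))) (T.b (T.a (T.c (T.a (T.a (T.b (T.l 207) (T.l 207)) (T.l 207)) (T.b (T.l 207) (T.l 207))) (T.a (T.b (T.l 207) (T.l 207)) (T.l 463))) (T.c (T.b (T.l 463) (T.l 463)) (T.b (T.l 207) (T.l 207)))) (T.a (T.b (T.c (T.a (T.b (T.l 207) (T.l 207)) (T.l 207)) (T.a (T.l 207) (T.l 207))) (T.c (T.a (T.b (T.l 207) (T.l 207)) (T.l 207)) (T.a (T.l 207) (T.l 207)))) (T.c (T.b (T.l 463) (T.l 463)) (T.b (T.l 207) (T.l 463)))))) (T.c (T.b (T.a (T.c (T.b (T.l 463) (T.l 463)) (T.b (T.l 207) (T.l 207))) (T.c (T.l 463) (T.l 463))) (T.a (T.c (T.b (T.l 463) (T.l 463)) (T.b (T.l 207) (T.l 463))) (T.c (T.l 463) (T.l 463)))) (T.b (T.a (T.c (T.l 463) (T.l 463)) (T.b (T.l 463) (T.l 463))) (T.a (T.c (T.l 463) (T.l 463)) (T.b (T.l 463) (T.l 463)))))), by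 decide +kernel⟩

def A102E_000_2_22_3 :
    ∃ t, chk3 (onCell 0 53687091 0 1073741824 134217728 67108864 (corX 1 c0F cA102E tA102E gF0q1 gF0q0 gF0q2 gF1q2 gF0q2 true true)) t 2 22 3 = true :=
  ⟨(T.a (T.b (T.c (T.a (T.b (T.c (T.a (T.l 207) (T.l 207)) (T.b (T.l 207) (T.l 207))) (T.c (T.a (T.l 207) (T.l 207)) (T.b (T.l 207) (T.l 207)))) (T.a (T.b (T.l 463) (T.l 463)) (T.l 463))) (T.a (T.a (T.c (T.b (T.l 207) (T.l 207)) (T.l 207)) (T.b (T.l 463) (T.l 463))) (T.c (T.l 463) (T.l 463)))) (T.c (T.a (T.b (T.c (T.a (T.l 207) (T.l 207)) (T.b (T.l 207) (T.l 207))) (T.c (T.a (T.l 207) (T.l 207)) (T.b (T.l 207) (T.l 207)))) (T.a (T.b (T.l 463) (T.l 463)) (T.l 463))) (T.a (T.a (T.c (T.b (T.l 207) (T.l 207)) (T.l 207)) (T.b (T.l 463) (T.l 463))) (T.c (T.l 463) (T.l 463))))) (T.b (T.c (T.a (T.b (T.l 463) (T.l 463)) (T.l 463)) (T.a (T.l 463) (T.l 207)))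 (T.c (T.a (T.b (T.l 463) (T.l 463)) (T.l 463)) (T.a (T.l 463) (T.l 207))))), by decide +kernel⟩

def A102E_000_2_23_2 :
    ∃ t, chk3 (onCell 0 53687091 0 1073741824 134217728 67108864 (corX 1 c0F cA102E tA102E gF0q1 gF0q0 gF0q2 gF1q2 gF0q2 true true)) t 2 23 2 = true :=
  ⟨(T.a (T.b (T.c (T.a (T.b (T.c (T.a (T.c (T.b (T.l 207) (T.l 207)) (T.b (T.l 207) (T.l 207))) (T.c (T.l 207) (T.l 207))) (T.a (T.c (T.l 207) (T.l 207)) (T.l 463))) (T.c (T.a (T.c (T.b (T.l 207) (T.l 207)) (T.b (T.l 207) (T.l 207))) (T.c (T.l 207) (T.l 207))) (T.a (T.c (T.l 207) (T.l 207)) (T.l 463)))) (T.b (T.c (T.a (T.l 463) (T.l 207)) (T.b (T.l 463) (T.l 463))) (T.c (T.a (T.l 463) (T.l 207)) (T.b (T.l 463) (T.l 463))))) (T.a (T.b (T.c (T.a (T.b (T.l 207) (T.l 207)) (T.l 207)) (T.a (T.l 207) (T.l 207))) (T.c (T.a (T.b (T.l 207) (T.l 207)) (T.l 207)) (T.a (T.l 207) (T.l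 207)))) (T.c (T.b (T.l 463) (T.l 463)) (T.b (T.l 463) (T.l 463))))) (T.c (T.a (T.b (T.c (T.a (T.c (T.b (T.l 207) (T.l 207)) (T.b (T.l 207) (T.l 207))) (T.c (T.l 207) (T.l 207))) (T.a (T.c (T.l 207) (T.l 207)) (T.l 463))) (T.a (T.c (T.c (T.b (T.l 207) (T.l 207)) (T.b (T.l 207) (T.l 207))) (T.c (T.l 207) (T.l 207))) (T.c (T.c (T.l 207) (T.l 207)) (T.l 463)))) (T.b (T.c (T.a (T.l 463) (T.l 207)) (T.b (T.l 463) (T.l 463))) (T.c (T.a (T.l 463) (T.l 207)) (T.b (T.l 463) (T.l 463))))) (T.a (T.b (T.a (T.c (T.b (T.l 207) (T.l 207)) (T.l 207)) (T.c (T.l 207) (T.l 207))) (T.a (T.c (T.b (T.l 207) (T.l 207)) (T.l 207)) (T.c (T.l 207) (T.l 207)))) (T.c (T.b (T.l 463) (T.l 463)) (T.b (T.l 463) (T.l 463)))))) (T.b (T.c (T.a (T.c (T.b (T.l 463) (T.l 463)) (T.b (T.l 463) (T.l 463))) (T.c (T.l 463) (T.l 463))) (T.a (T.c (T.l 463) (T.l 463)) (T.b (T.l 463)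 (T.l 463)))) (T.c (T.a (T.c (T.b (T.l 463) (T.l 463)) (T.l 463)) (T.c (T.l 463) (T.l 463))) (T.a (T.c (T.l 463) (T.l 463)) (T.b (T.l 463) (T.l 463)))))), by decide +kernel⟩

def A102E_000_2_23_3 :
    ∃ t, chk3 (onCell 0 53687091 0 1073741824 134217728 67108864 (corX 1 c0F cA102E tA102E gF0q1 gF0q0 gF0q2 gF1q2 gF0q2 true true)) t 2 23 3 = true :=
  ⟨(T.a (T.b (T.c (T.a (T.b (T.c (T.a (T.l 207) (T.l 207)) (T.a (T.l 207) (T.l 207))) (T.c (T.a (T.l 207) (T.l 207)) (T.a (T.l 207) (T.l 207)))) (T.a (T.b (T.l 463) (T.l 463)) (T.l 463))) (T.a (T.a (T.c (T.b (T.l 207) (T.l 207)) (T.l 207)) (T.b (T.l 463) (T.l 463))) (T.c (T.l 463) (T.l 463)))) (T.a (T.c (T.b (T.c (T.a (T.l 207) (T.l 207)) (T.a (T.l 207) (T.l 207))) (T.c (T.a (T.l 207) (T.l 207)) (T.a (T.l 207) (T.l 207)))) (T.a (T.c (T.b (T.l 207) (T.l 207)) (T.l 207)) (T.b (T.l 463) (T.l 463))))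 (T.c (T.a (T.b (T.l 463) (T.l 463)) (T.l 463)) (T.c (T.l 463) (T.l 463))))) (T.b (T.c (T.a (T.b (T.l 463) (T.l 463)) (T.l 463)) (T.a (T.l 463) (T.l 207))) (T.a (T.c (T.b (T.l 463) (T.l 463)) (T.l 463)) (T.c (T.l 463) (T.l 207))))), by decide +kernel⟩

def A102E_000_6_5_1 :
    ∃ t, chk3 (onCell 0 53687091 0 1073741824 134217728 67108864 (corX 1 c0F cA102E tA102E gF0q1 gF0q0 gF0q2 gF1q2 gF0q2 true true)) t 6 5 1 = true :=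
  ⟨(T.b (T.b (T.l 2) (T.c (T.c (T.a (T.a (T.b (T.l 463) (T.l 463)) (T.l 463)) (T.b (T.l 479) (T.l 479))) (T.a (T.b (T.l 463) (T.l 463)) (T.l 479))) (T.a (T.c (T.b (T.l 207) (T.l 207)) (T.l 463)) (T.c (T.l 479) (T.l 223))))) (T.c (T.b (T.c (T.a (T.a (T.b (T.l 463) (T.l 463)) (T.l 463)) (T.b (T.l 479) (T.l 479))) (T.a (T.b (T.l 463) (T.l 463)) (T.l 479))) (T.b (T.c (T.a (T.b (T.l 463) (T.l 463)) (T.l 479)) (T.a (T.l 463) (T.l 207))) (T.c (T.a (T.b (T.l 463) (T.l 463)) (T.l 479)) (T.a (T.l 463) (T.l 463))))) (T.b (T.a (T.c (T.l 463) (T.l 463)) (T.c (T.l 479) (T.l 207))) (T.a (T.c (T.l 463) (T.l 463)) (T.c (T.l 479) (T.l 207)))))), by decide +kernel⟩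

def A102E_000_7_10_1 :
    ∃ t, chk3 (onCell 0 53687091 0 1073741824 134217728 67108864 (corX 1 c0F cA102E tA102E gF0q1 gF0q0 gF0q2 gF1q2 gF0q2 true true)) t 7 10 1 = true :=
  ⟨(T.b (T.l 2) (T.b (T.l 2) (T.a (T.c (T.c (T.b (T.l 223) (T.l 223)) (T.l 223)) (T.c (T.l 223) (T.l 223))) (T.c (T.c (T.a (T.b (T.c (T.a (T.l 220) (T.l 220)) (T.a (T.l 220) (T.l 220))) (T.a (T.l 223) (T.c (T.l 220) (T.l 220)))) (T.b (T.c (T.b (T.l 476) (T.l 220)) (T.b (T.l 220) (T.l 220))) (T.c (T.a (T.b (T.l 220) (T.l 220)) (T.l 220)) (T.a (T.l 220) (T.l 220))))) (T.a (T.b (T.a (T.l 220) (T.b (T.l 220) (T.l 220))) (T.a (T.l 223) (T.b (T.l 220) (T.l 223)))) (T.b (T.c (T.b (T.l 220) (T.l 220)) (T.b (T.l 220) (T.l 220))) (T.a (T.c (T.l 220) (T.l 220)) (T.b (T.l 220) (T.l 220)))))) (T.a (T.c (T.b (T.a (T.l 220) (T.b (T.l 220) (T.l 220))) (T.a (T.l 207) (T.b (T.l 220)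 (T.l 223)))) (T.b (T.b (T.l 220) (T.l 220)) (T.b (T.l 220) (T.l 207)))) (T.c (T.b (T.c (T.l 220) (T.l 220)) (T.a (T.b (T.l 220) (T.l 220)) (T.b (T.l 220) (T.l 220)))) (T.b (T.b (T.l 220) (T.l 220)) (T.a (T.l 220) (T.l 220))))))))), by decide +kernel⟩

def A102E_000_7_11_1 :
    ∃ t, chk3 (onCell 0 53687091 0 1073741824 134217728 67108864 (corX 1 c0F cA102E tA102E gF0q1 gF0q0 gF0q2 gF1q2 gF0q2 true true)) t 7 11 1 = true :=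
  ⟨(T.b (T.a (T.c (T.c (T.b (T.b (T.l 223) (T.l 223)) (T.l 479)) (T.b (T.l 223) (T.l 223))) (T.c (T.b (T.l 223) (T.l 223)) (T.l 223))) (T.c (T.a (T.c (T.c (T.l 223) (T.l 223)) (T.b (T.l 223) (T.l 223))) (T.b (T.c (T.b (T.c (T.a (T.b (T.l 220) (T.l 220)) (T.b (T.l 220) (T.l 220))) (T.a (T.l 220) (T.b (T.l 220) (T.l 220)))) (T.a (T.l 223) (T.c (T.b (T.l 220) (T.l 220)) (T.b (T.l 220) (T.l 220))))) (T.b (T.c (T.a (T.l 220) (T.l 220)) (T.b (T.l 220) (T.l 220))) (T.a (T.l 223) (T.c (T.l 220) (T.l 220))))) (T.c (T.c (T.l 223) (T.l 223)) (T.l 223)))) (T.a (T.c (T.l 223) (T.l 223)) (T.b (T.c (T.b (T.a (T.b (T.l 220) (T.l 220)) (T.b (T.l 220) (T.l 220))) (T.a (T.l 223) (T.b (T.l 220) (T.l 220)))) (T.b (T.a (T.l 220) (T.b (T.l 220) (T.l 220))) (T.a (T.l 207) (T.b (T.l 220) (T.l 220))))) (T.c (T.l 223) (T.l 223)))))) (T.c (T.b (T.c (T.a (T.l 479)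 (T.c (T.l 223) (T.l 223))) (T.a (T.l 223) (T.b (T.l 223) (T.l 223)))) (T.c (T.a (T.l 479) (T.b (T.l 223) (T.l 223))) (T.a (T.l 223) (T.b (T.l 223) (T.l 223))))) (T.b (T.a (T.c (T.l 223) (T.l 223)) (T.c (T.l 223) (T.l 223))) (T.a (T.c (T.l 223) (T.l 223)) (T.c (T.l 223) (T.l 223)))))), by decide +kernel⟩

def A102E_000_2_96_1 :
    ∃ t, chk3 (onCell 0 53687091 0 1073741824 134217728 67108864 (corX 1 c0F cA102E tA102E gF0q1 gF0q0 gF0q2 gF1q2 gF0q2 true true)) t 2 96 1 = true :=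
  ⟨(T.b (T.a (T.b (T.a (T.b (T.a (T.b (T.c (T.a (T.b (T.c (T.c (T.c (T.l 207) (T.l 207)) (T.l 207)) (T.c (T.l 207) (T.l 207))) (T.a (T.l 1) (T.a (T.l 1) (T.b (T.b (T.c (T.c (T.l 207) (T.l 207)) (T.c (T.l 207) (T.l 207))) (T.l 1)) (T.l 1))))) (T.c (T.c (T.l 463) (T.l 207)) (T.c (T.l 207) (T.l 207)))) (T.c (T.c (T.l 207) (T.l 207)) (T.c (T.l 207) (T.l 207)))) (T.a (T.l 1) (T.a (T.l 1) (T.b (T.b (T.c (T.c (T.c (T.l 207) (T.l 207)) (T.c (T.l 207) (T.l 207))) (T.c (T.l 463) (T.l 207))) (T.l 1)) (T.l 1))))) (T.c (T.c (T.c (T.l 463) (T.l 207)) (T.c (T.l 207) (T.l 207))) (T.c (T.l 463) (T.l 207)))) (T.a (T.l 1) (T.a (T.l 1) (T.b (T.b (T.c (T.c (T.c (T.l 207) (T.l 207)) (T.c (T.l 207) (T.l 207))) (T.c (T.l 207) (T.l 207))) (T.l 1)) (T.l 1))))) (T.a (T.c (T.c (T.c (T.l 207) (T.l 207)) (T.c (T.l 207) (T.l 207))) (T.c (T.l 207) (T.l 207))) (T.c (T.c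 (T.c (T.l 207) (T.l 207)) (T.l 463)) (T.c (T.l 207) (T.l 207))))) (T.a (T.l 1) (T.a (T.l 1) (T.b (T.b (T.a (T.a (T.l 1) (T.b (T.b (T.c (T.c (T.c (T.l 207) (T.l 207)) (T.l 207)) (T.c (T.l 207) (T.l 207))) (T.l 1)) (T.l 1))) (T.c (T.c (T.c (T.l 207) (T.l 207)) (T.l 207)) (T.c (T.l 207) (T.l 207)))) (T.l 1)) (T.l 1))))) (T.a (T.c (T.c (T.c (T.l 463) (T.l 207)) (T.l 463)) (T.c (T.l 207) (T.l 207))) (T.c (T.c (T.l 463) (T.l 463)) (T.c (T.l 207) (T.l 207))))) (T.a (T.l 1) (T.a (T.l 1) (T.b (T.b (T.c (T.c (T.l 463) (T.l 207)) (T.c (T.l 207) (T.l 207))) (T.l 1)) (T.l 1))))), by decide +kernel⟩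

def A102E_000_3_96_1 :
    ∃ t, chk3 (onCell 0 53687091 0 1073741824 134217728 67108864 (corX 1 c0F cA102E tA102E gF0q1 gF0q0 gF0q2 gF1q2 gF0q2 true true)) t 3 96 1 = true :=
  ⟨(T.a (T.c (T.c (T.a (T.l 463) (T.l 463)) (T.a (T.l 207) (T.l 207))) (T.c (T.l 463) (T.l 207))) (T.c (T.c (T.a (T.l 223) (T.l 223)) (T.a (T.l 223) (T.l 223))) (T.c (T.a (T.l 207) (T.l 223)) (T.l 223)))), by decide +kernel⟩

def A102E_000_1_97_1 :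
    ∃ t, chk3 (onCell 0 53687091 0 1073741824 134217728 67108864 (corX 1 c0F cA102E tA102E gF0q1 gF0q0 gF0q2 gF1q2 gF0q2 true true)) t 1 97 1 = true :=
  ⟨(T.a (T.l 1) (T.a (T.l 1) (T.b (T.b (T.a (T.c (T.c (T.l 223) (T.l 207)) (T.l 479)) (T.c (T.c (T.l 223) (T.l 223)) (T.c (T.l 223) (T.l 223)))) (T.l 1)) (T.l 1)))), by decide +kernel⟩

def A102E_000_1_49_1 :
    ∃ t, chk3 (onCell 0 53687091 0 1073741824 134217728 67108864 (corX 1 c0F cA102E tA102E gF0q1 gF0q0 gF0q2 gF1q2 gF0q2 true true)) t 1 49 1 = true :=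
  ⟨(T.l 1), by decide +kernel⟩

def A102E_000_1_25_1 :
    ∃ t, chk3 (onCell 0 53687091 0 1073741824 134217728 67108864 (corX 1 c0F cA102E tA102E gF0q1 gF0q0 gF0q2 gF1q2 gF0q2 true true)) t 1 25 1 = true :=
  ⟨(T.l 1), by decide +kernel⟩

def A102E_000_1_13_1 :
    ∃ t, chk3 (onCell 0 53687091 0 1073741824 134217728 67108864 (corX 1 c0F cA102E tA102E gF0q1 gF0q0 gF0q2 gF1q2 gF0q2 true true)) t 1 13 1 = true :=
  ⟨(T.l 1), by decide +kernel⟩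

def A102E_000_1_7_1 :
    ∃ t, chk3 (onCell 0 53687091 0 1073741824 134217728 67108864 (corX 1 c0F cA102E tA102E gF0q1 gF0q0 gF0q2 gF1q2 gF0q2 true true)) t 1 7 1 = true :=
  ⟨(T.l 1), by decide +kernel⟩

theorem A102E_000_1_96_1 :
    ∃ t, chk3 (onCell 0 53687091 0 1073741824 134217728 67108864 (corX 1 c0F cA102E tA102E gF0q1 gF0q0 gF0q2 gF1q2 gF0q2 true true)) t 1 96 1 = true :=
  ex3_a A102E_000_2_96_1 A102E_000_3_96_1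
theorem A102E_000_1_48_1 :
    ∃ t, chk3 (onCell 0 53687091 0 1073741824 134217728 67108864 (corX 1 c0F cA102E tA102E gF0q1 gF0q0 gF0q2 gF1q2 gF0q2 true true)) t 1 48 1 = true :=
  ex3_b A102E_000_1_96_1 A102E_000_1_97_1
theorem A102E_000_1_24_1 :
    ∃ t, chk3 (onCell 0 53687091 0 1073741824 134217728 67108864 (corX 1 c0F cA102E tA102E gF0q1 gF0q0 gF0q2 gF1q2 gF0q2 true true)) t 1 24 1 = true :=
  ex3_b A102E_000_1_48_1 A102E_000_1_49_1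
theorem A102E_000_1_12_1 :
    ∃ t, chk3 (onCell 0 53687091 0 1073741824 134217728 67108864 (corX 1 c0F cA102E tA102E gF0q1 gF0q0 gF0q2 gF1q2 gF0q2 true true)) t 1 12 1 = true :=
  ex3_b A102E_000_1_24_1 A102E_000_1_25_1
theorem A102E_000_1_6_1 :
    ∃ t, chk3 (onCell 0 53687091 0 1073741824 134217728 67108864 (corX 1 c0F cA102E tA102E gF0q1 gF0q0 gF0q2 gF1q2 gF0q2 true true)) t 1 6 1 = true :=
  ex3_b A102E_000_1_12_1 A102E_000_1_13_1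
theorem A102E_000_1_3_1 :
    ∃ t, chk3 (onCell 0 53687091 0 1073741824 134217728 67108864 (corX 1 c0F cA102E tA102E gF0q1 gF0q0 gF0q2 gF1q2 gF0q2 true true)) t 1 3 1 = true :=
  ex3_b A102E_000_1_6_1 A102E_000_1_7_1
theorem A102E_000_7_5_1 :
    ∃ t, chk3 (onCell 0 53687091 0 1073741824 134217728 67108864 (corX 1 c0F cA102E tA102E gF0q1 gF0q0 gF0q2 gF1q2 gF0q2 true true)) t 7 5 1 = true :=
  ex3_b A102E_000_7_10_1 A102E_000_7_11_1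
theorem A102E_000_3_5_1 :
    ∃ t, chk3 (onCell 0 53687091 0 1073741824 134217728 67108864 (corX 1 c0F cA102E tA102E gF0q1 gF0q0 gF0q2 gF1q2 gF0q2 true true)) t 3 5 1 = true :=
  ex3_a A102E_000_6_5_1 A102E_000_7_5_1
theorem A102E_000_2_23_1 :
    ∃ t, chk3 (onCell 0 53687091 0 1073741824 134217728 67108864 (corX 1 c0F cA102E tA102E gF0q1 gF0q0 gF0q2 gF1q2 gF0q2 true true)) t 2 23 1 = true :=
  ex3_c A102E_000_2_23_2 A102E_000_2_23_3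
theorem A102E_000_2_22_1 :
    ∃ t, chk3 (onCell 0 53687091 0 1073741824 134217728 67108864 (corX 1 c0F cA102E tA102E gF0q1 gF0q0 gF0q2 gF1q2 gF0q2 true true)) t 2 22 1 = true :=
  ex3_c A102E_000_2_22_2 A102E_000_2_22_3
theorem A102E_000_2_11_1 :
    ∃ t, chk3 (onCell 0 53687091 0 1073741824 134217728 67108864 (corX 1 c0F cA102E tA102E gF0q1 gF0q0 gF0q2 gF1q2 gF0q2 true true)) t 2 11 1 = true :=
  ex3_b A102E_000_2_22_1 A102E_000_2_23_1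
theorem A102E_000_2_21_1 :
    ∃ t, chk3 (onCell 0 53687091 0 1073741824 134217728 67108864 (corX 1 c0F cA102E tA102E gF0q1 gF0q0 gF0q2 gF1q2 gF0q2 true true)) t 2 21 1 = true :=
  ex3_c A102E_000_2_21_2 A102E_000_2_21_3
theorem A102E_000_2_10_1 :
    ∃ t, chk3 (onCell 0 53687091 0 1073741824 134217728 67108864 (corX 1 c0F cA102E tA102E gF0q1 gF0q0 gF0q2 gF1q2 gF0q2 true true)) t 2 10 1 = true :=
  ex3_b A102E_000_2_20_1 A102E_000_2_21_1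
theorem A102E_000_2_5_1 :
    ∃ t, chk3 (onCell 0 53687091 0 1073741824 134217728 67108864 (corX 1 c0F cA102E tA102E gF0q1 gF0q0 gF0q2 gF1q2 gF0q2 true true)) t 2 5 1 = true :=
  ex3_b A102E_000_2_10_1 A102E_000_2_11_1
theorem A102E_000_1_5_1 :
    ∃ t, chk3 (onCell 0 53687091 0 1073741824 134217728 67108864 (corX 1 c0F cA102E tA102E gF0q1 gF0q0 gF0q2 gF1q2 gF0q2 true true)) t 1 5 1 = true :=
  ex3_a A102E_000_2_5_1 A102E_000_3_5_1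
theorem A102E_000_1_2_1 :
    ∃ t, chk3 (onCell 0 53687091 0 1073741824 134217728 67108864 (corX 1 c0F cA102E tA102E gF0q1 gF0q0 gF0q2 gF1q2 gF0q2 true true)) t 1 2 1 = true :=
  ex3_b A102E_000_1_4_1 A102E_000_1_5_1
theorem A102E_000 :
    ∃ t, chk3 (onCell 0 53687091 0 1073741824 134217728 67108864 (corX 1 c0F cA102E tA102E gF0q1 gF0q0 gF0q2 gF1q2 gF0q2 true true)) t 1 1 1 = true :=
  ex3_b A102E_000_1_2_1 A102E_000_1_3_1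

end Pool.Agent.Strip051.G.I1_8_3_16.Tab.CF
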