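import Pool.Agent.Strip051.G.I1_8_3_16.Gn
import Pool.Agent.Strip051.PB.Corns

/-! # Certificates of the aligned corners (generated) -/

set_option linter.all false

namespace Pool.Agent.Strip051.G.I1_8_3_16.Tab.CF

open Pool.Agent.Strip051.PB

def A102E_001_2_4_1 :
    ∃ t, chk3 (onCell 0 53687091 0 1073741824 134217728 67108864 (corT true 1 c0F cA102E gF0q1 gF0q0 gF1q2 gF2q2 true true)) t 2 4 1 = true :=
  ⟨(T.c (T.b (T.b (T.l 2) (T.c (T.a (T.b (T.l 204) (T.l 204)) (T.c (T.b (T.l 204) (T.l 204)) (T.l 220))) (T.a (T.l 204) (T.b (T.l 220) (T.l 220))))) (T.c (T.b (T.a (T.c (T.l 204) (T.l 204)) (T.c (T.l 220) (T.l 204))) (T.a (T.b (T.c (T.l 204) (T.l 204)) (T.c (T.l 204) (T.l 204))) (T.c (T.b (T.l 204) (T.l 204)) (T.l 460)))) (T.b (T.a (T.b (T.l 204) (T.l 204)) (T.b (T.l 204) (T.l 204))) (T.a (T.b (T.b (T.l 204) (T.l 204)) (T.c (T.l 204) (T.l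 204))) (T.b (T.l 204) (T.l 460)))))) (T.b (T.b (T.l 2) (T.c (T.b (T.l 220) (T.l 220)) (T.b (T.l 204) (T.l 204)))) (T.b (T.c (T.a (T.b (T.l 204) (T.l 204)) (T.l 220)) (T.b (T.l 204) (T.l 204))) (T.c (T.a (T.b (T.l 204) (T.b (T.l 204) (T.l 204))) (T.b (T.l 204) (T.l 204))) (T.a (T.b (T.l 204) (T.l 204)) (T.l 460)))))), by decide +kernel⟩

def A102E_001_3_16_1 :
    ∃ t, chk3 (onCell 0 53687091 0 1073741824 134217728 67108864 (corT true 1 c0F cA102E gF0q1 gF0q0 gF1q2 gF2q2 true true)) t 3 16 1 = true :=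
  ⟨(T.l 2), by decide +kernel⟩

def A102E_001_3_34_1 :
    ∃ t, chk3 (onCell 0 53687091 0 1073741824 134217728 67108864 (corT true 1 c0F cA102E gF0q1 gF0q0 gF1q2 gF2q2 true true)) t 3 34 1 = true :=
  ⟨(T.a (T.b (T.l 2) (T.a (T.l 2) (T.l 2))) (T.l 2)), by decide +kernel⟩

def A102E_001_6_560_1 :
    ∃ t, chk3 (onCell 0 53687091 0 1073741824 134217728 67108864 (corT true 1 c0F cA102E gF0q1 gF0q0 gF1q2 gF2q2 true true)) t 6 560 1 = true :=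
  ⟨(T.a (T.c (T.c (T.c (T.l 220) (T.l 204)) (T.c (T.l 204) (T.l 204))) (T.c (T.l 204) (T.l 204))) (T.b (T.a (T.a (T.a (T.b (T.l 2) (T.b (T.l 2) (T.b (T.l 2) (T.c (T.c (T.c (T.l 220) (T.l 204)) (T.c (T.l 204) (T.l 204))) (T.c (T.l 204) (T.l 204)))))) (T.l 2)) (T.l 2)) (T.l 2)) (T.a (T.b (T.c (T.a (T.c (T.c (T.l 220) (T.l 220)) (T.c (T.l 204) (T.l 204))) (T.b (T.a (T.b (T.l 2) (T.c (T.c (T.c (T.l 220) (T.l 220)) (T.l 220)) (T.c (T.l 220) (T.l 204)))) (T.l 2)) (T.c (T.c (T.c (T.l 220) (T.l 220)) (T.c (T.l 220) (T.l 220))) (T.c (T.l 220) (T.l 220))))) (T.c (T.a (T.l 204) (T.c (T.l 204) (T.l 204))) (T.c (T.l 220) (T.l 204)))) (T.c (T.a (T.c (T.c (T.l 220) (T.l 220)) (T.c (T.l 204) (T.l 204))) (T.c (T.c (T.c (T.l 220) (T.l 220)) (T.c (T.l 220) (T.l 220))) (T.c (T.l 220) (T.l 220)))) (T.c (T.a (T.l 204) (T.c (T.l 204) (T.l 204))) (T.c (T.l 220) (T.l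 204))))) (T.b (T.a (T.b (T.l 2) (T.c (T.c (T.c (T.l 220) (T.l 220)) (T.c (T.l 204) (T.l 204))) (T.c (T.l 220) (T.l 204)))) (T.l 2)) (T.c (T.c (T.c (T.a (T.l 220) (T.l 220)) (T.c (T.l 220) (T.l 220))) (T.c (T.l 220) (T.l 220))) (T.c (T.c (T.l 204) (T.l 204)) (T.l 220))))))), by decide +kernel⟩

def A102E_001_6_561_1 :
    ∃ t, chk3 (onCell 0 53687091 0 1073741824 134217728 67108864 (corT true 1 c0F cA102E gF0q1 gF0q0 gF1q2 gF2q2 true true)) t 6 561 1 = true :=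
  ⟨(T.a (T.c (T.c (T.c (T.l 220) (T.l 204)) (T.l 220)) (T.c (T.l 204) (T.l 204))) (T.b (T.a (T.b (T.c (T.c (T.c (T.a (T.l 220) (T.c (T.l 220) (T.l 220))) (T.a (T.l 220) (T.c (T.l 220) (T.l 220)))) (T.a (T.c (T.l 204) (T.l 204)) (T.c (T.l 220) (T.l 220)))) (T.c (T.a (T.l 204) (T.c (T.l 204) (T.l 204))) (T.c (T.l 220) (T.l 204)))) (T.c (T.c (T.c (T.a (T.l 220) (T.c (T.l 220) (T.l 220))) (T.a (T.l 220) (T.c (T.l 220) (T.l 220)))) (T.a (T.c (T.l 204) (T.l 204)) (T.c (T.l 220) (T.l 220)))) (T.c (T.a (T.l 204) (T.c (T.l 204) (T.l 204))) (T.c (T.l 220) (T.l 204))))) (T.b (T.c (T.c (T.c (T.a (T.l 220) (T.l 220)) (T.c (T.l 220) (T.l 220))) (T.c (T.l 220) (T.l 220))) (T.c (T.c (T.l 204) (T.l 204)) (T.l 220))) (T.c (T.c (T.c (T.a (T.l 220) (T.l 220)) (T.c (T.l 220) (T.l 220))) (T.c (T.l 220) (T.l 220))) (T.c (T.c (T.l 204) (T.l 204)) (T.l 220))))) (T.a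 (T.c (T.c (T.c (T.a (T.l 220) (T.c (T.l 220) (T.l 220))) (T.a (T.l 220) (T.c (T.l 220) (T.l 220)))) (T.a (T.c (T.l 204) (T.l 204)) (T.c (T.l 220) (T.l 220)))) (T.c (T.a (T.l 204) (T.c (T.l 204) (T.l 204))) (T.c (T.l 220) (T.l 204)))) (T.c (T.c (T.c (T.a (T.l 220) (T.l 220)) (T.c (T.l 220) (T.l 220))) (T.c (T.l 220) (T.l 220))) (T.c (T.c (T.l 204) (T.l 204)) (T.l 220)))))), by decide +kernel⟩

def A102E_001_7_280_1 :
    ∃ t, chk3 (onCell 0 53687091 0 1073741824 134217728 67108864 (corT true 1 c0F cA102E gF0q1 gF0q0 gF1q2 gF2q2 true true)) t 7 280 1 = true :=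
  ⟨(T.b (T.a (T.a (T.a (T.b (T.l 2) (T.b (T.l 2) (T.b (T.l 2) (T.c (T.c (T.c (T.l 220) (T.l 204)) (T.l 220)) (T.c (T.l 204) (T.l 204)))))) (T.l 2)) (T.l 2)) (T.l 2)) (T.a (T.b (T.a (T.b (T.c (T.c (T.c (T.l 220) (T.l 220)) (T.c (T.l 204) (T.l 204))) (T.c (T.l 220) (T.l 204))) (T.c (T.c (T.c (T.l 220) (T.l 220)) (T.c (T.l 204) (T.l 204))) (T.c (T.l 220) (T.l 204)))) (T.b (T.b (T.l 2) (T.c (T.c (T.c (T.l 220) (T.l 220)) (T.c (T.l 204) (T.l 204))) (T.c (T.l 204) (T.l 204)))) (T.c (T.c (T.c (T.l 220) (T.l 220)) (T.c (T.l 204) (T.l 204))) (T.c (T.l 204) (T.l 204))))) (T.a (T.c (T.c (T.c (T.l 220) (T.l 220)) (T.c (T.l 220) (T.l 204))) (T.c (T.l 220) (T.l 204))) (T.c (T.c (T.c (T.l 220) (T.l 220)) (T.c (T.l 204) (T.l 204))) (T.c (T.l 204) (T.l 204))))) (T.b (T.a (T.b (T.l 2) (T.c (T.c (T.c (T.l 220) (T.l 204)) (T.l 220)) (T.c (T.l 204) (T.l 204))))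 (T.l 2)) (T.a (T.c (T.c (T.c (T.l 220) (T.l 204)) (T.l 220)) (T.c (T.l 204) (T.l 204))) (T.b (T.c (T.c (T.c (T.l 220) (T.l 204)) (T.l 220)) (T.c (T.l 204) (T.l 204))) (T.c (T.c (T.c (T.l 220) (T.l 204)) (T.l 220)) (T.c (T.l 204) (T.l 204)))))))), by decide +kernel⟩

def A102E_001_6_562_1 :
    ∃ t, chk3 (onCell 0 53687091 0 1073741824 134217728 67108864 (corT true 1 c0F cA102E gF0q1 gF0q0 gF1q2 gF2q2 true true)) t 6 562 1 = true :=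
  ⟨(T.a (T.c (T.c (T.c (T.l 220) (T.l 204)) (T.l 220)) (T.c (T.l 204) (T.l 204))) (T.b (T.a (T.c (T.c (T.c (T.a (T.l 220) (T.c (T.l 220) (T.l 220))) (T.a (T.l 220) (T.c (T.l 220) (T.l 220)))) (T.a (T.c (T.l 204) (T.l 204)) (T.c (T.l 220) (T.l 220)))) (T.c (T.a (T.l 204) (T.c (T.l 204) (T.l 204))) (T.c (T.l 220) (T.l 204)))) (T.c (T.c (T.c (T.a (T.l 220) (T.l 220)) (T.c (T.l 220) (T.l 220))) (T.c (T.l 220) (T.l 220))) (T.c (T.c (T.l 204) (T.l 204)) (T.l 220)))) (T.a (T.c (T.c (T.c (T.a (T.l 220) (T.c (T.l 220) (T.l 220))) (T.a (T.l 220) (T.c (T.l 220) (T.l 220)))) (T.a (T.c (T.l 204) (T.l 204)) (T.c (T.l 220) (T.l 220)))) (T.c (T.a (T.l 204) (T.c (T.l 204) (T.l 204))) (T.c (T.l 220) (T.l 204)))) (T.c (T.c (T.c (T.a (T.l 220) (T.l 220)) (T.c (T.l 220) (T.l 220))) (T.c (T.l 220) (T.l 220))) (T.c (T.c (T.l 204) (T.l 204)) (T.l 220)))))), by decide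 +kernel⟩

def A102E_001_6_563_1 :
    ∃ t, chk3 (onCell 0 53687091 0 1073741824 134217728 67108864 (corT true 1 c0F cA102E gF0q1 gF0q0 gF1q2 gF2q2 true true)) t 6 563 1 = true :=
  ⟨(T.b (T.a (T.c (T.c (T.c (T.l 220) (T.l 204)) (T.l 220)) (T.c (T.l 204) (T.l 204))) (T.c (T.c (T.a (T.c (T.a (T.l 220) (T.c (T.c (T.l 220) (T.l 220)) (T.l 220))) (T.a (T.l 220) (T.c (T.l 220) (T.l 220)))) (T.c (T.a (T.l 220) (T.l 220)) (T.c (T.l 220) (T.l 220)))) (T.a (T.a (T.c (T.l 204) (T.l 204)) (T.c (T.l 220) (T.l 220))) (T.c (T.l 220) (T.l 220)))) (T.a (T.c (T.c (T.c (T.l 220) (T.l 220)) (T.l 220)) (T.c (T.l 220) (T.l 204))) (T.c (T.c (T.l 204) (T.l 204)) (T.l 220))))) (T.a (T.c (T.c (T.c (T.l 220) (T.l 204)) (T.l 220)) (T.c (T.l 204) (T.l 204))) (T.c (T.c (T.a (T.c (T.a (T.l 220) (T.c (T.c (T.l 220) (T.l 220)) (T.l 220))) (T.a (T.l 220) (T.c (T.l 220) (T.l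 220)))) (T.c (T.a (T.l 220) (T.l 220)) (T.c (T.l 220) (T.l 220)))) (T.a (T.a (T.c (T.l 204) (T.l 204)) (T.c (T.l 220) (T.l 220))) (T.c (T.l 220) (T.l 220)))) (T.a (T.c (T.c (T.c (T.l 220) (T.l 220)) (T.l 220)) (T.c (T.l 220) (T.l 204))) (T.c (T.c (T.l 204) (T.l 204)) (T.l 220)))))), by decide +kernel⟩

def A102E_001_7_281_1 :
    ∃ t, chk3 (onCell 0 53687091 0 1073741824 134217728 67108864 (corT true 1 c0F cA102E gF0q1 gF0q0 gF1q2 gF2q2 true true)) t 7 281 1 = true :=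
  ⟨(T.b (T.a (T.c (T.c (T.a (T.c (T.c (T.l 220) (T.l 220)) (T.l 220)) (T.c (T.l 220) (T.l 220))) (T.a (T.c (T.l 220) (T.l 204)) (T.c (T.l 204) (T.l 204)))) (T.c (T.a (T.l 220) (T.l 204)) (T.a (T.l 204) (T.l 204)))) (T.c (T.c (T.c (T.a (T.l 220) (T.l 220)) (T.a (T.l 204) (T.l 204))) (T.a (T.l 220) (T.l 220))) (T.c (T.c (T.l 220) (T.l 204)) (T.l 476)))) (T.a (T.c (T.c (T.a (T.c (T.c (T.l 220) (T.l 220)) (T.l 220)) (T.c (T.l 220) (T.l 220))) (T.a (T.c (T.l 220) (T.l 204)) (T.c (T.l 204) (T.l 204)))) (T.c (T.a (T.l 220) (T.l 204)) (T.a (T.l 204) (T.l 204)))) (T.c (T.c (T.c (T.a (T.l 220) (T.l 220)) (T.a (T.l 204) (T.l 204))) (T.a (T.l 220) (T.l 220))) (T.c (T.c (T.l 220) (T.l 204)) (T.l 476))))), by decide +kernel⟩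

def A102E_001_6_282_1 :
    ∃ t, chk3 (onCell 0 53687091 0 1073741824 134217728 67108864 (corT true 1 c0F cA102E gF0q1 gF0q0 gF1q2 gF2q2 true true)) t 6 282 1 = true :=
  ⟨(T.b (T.b (T.a (T.c (T.c (T.c (T.l 220) (T.l 204)) (T.l 220)) (T.c (T.l 204) (T.l 204))) (T.c (T.c (T.a (T.c (T.a (T.l 220) (T.c (T.c (T.l 220) (T.l 220)) (T.l 220))) (T.a (T.l 220) (T.c (T.l 220) (T.l 220)))) (T.c (T.a (T.l 220) (T.l 220)) (T.c (T.l 220) (T.l 220)))) (T.a (T.a (T.c (T.l 204) (T.l 204)) (T.c (T.l 220) (T.l 220))) (T.c (T.l 220) (T.l 220)))) (T.a (T.c (T.c (T.c (T.l 220) (T.l 220)) (T.l 220)) (T.c (T.l 220) (T.l 204))) (T.c (T.c (T.l 204) (T.l 204)) (T.l 220))))) (T.a (T.c (T.c (T.c (T.l 220) (T.l 204)) (T.l 220)) (T.c (T.l 204) (T.l 204))) (T.c (T.c (T.a (T.c (T.a (T.l 220) (T.c (T.c (T.l 220) (T.l 220)) (T.l 220))) (T.a (T.l 220) (T.c (T.l 220) (T.l 220))))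 (T.c (T.a (T.l 220) (T.l 220)) (T.c (T.l 220) (T.l 220)))) (T.a (T.a (T.c (T.l 204) (T.l 204)) (T.c (T.l 220) (T.l 220))) (T.c (T.l 220) (T.l 220)))) (T.a (T.c (T.c (T.c (T.l 220) (T.l 220)) (T.l 220)) (T.c (T.l 220) (T.l 204))) (T.c (T.c (T.l 204) (T.l 204)) (T.l 220)))))) (T.a (T.c (T.c (T.c (T.l 220) (T.l 204)) (T.l 220)) (T.c (T.l 204) (T.l 204))) (T.c (T.c (T.a (T.c (T.a (T.l 220) (T.c (T.c (T.l 220) (T.l 220)) (T.l 220))) (T.a (T.l 220) (T.c (T.l 220) (T.l 220)))) (T.c (T.a (T.l 220) (T.l 220)) (T.c (T.l 220) (T.l 220)))) (T.a (T.a (T.c (T.l 204) (T.l 204)) (T.c (T.l 220) (T.l 220))) (T.c (T.l 220) (T.l 220)))) (T.a (T.c (T.c (T.c (T.l 220) (T.l 220)) (T.l 220)) (T.c (T.l 220) (T.l 220))) (T.c (T.c (T.l 220) (T.l 204)) (T.l 220)))))), by decide +kernel⟩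

def A102E_001_7_282_1 :
    ∃ t, chk3 (onCell 0 53687091 0 1073741824 134217728 67108864 (corT true 1 c0F cA102E gF0q1 gF0q0 gF1q2 gF2q2 true true)) t 7 282 1 = true :=
  ⟨(T.c (T.a (T.c (T.a (T.c (T.c (T.l 220) (T.l 220)) (T.l 220)) (T.c (T.l 220) (T.l 220))) (T.a (T.c (T.l 220) (T.l 204)) (T.c (T.l 204) (T.l 204)))) (T.c (T.c (T.a (T.l 220) (T.l 220)) (T.a (T.l 220) (T.l 220))) (T.a (T.l 220) (T.l 220)))) (T.a (T.c (T.a (T.l 220) (T.l 220)) (T.a (T.l 204) (T.l 204))) (T.c (T.c (T.l 476) (T.l 220)) (T.l 476)))), by decide +kernel⟩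

def A102E_001_3_283_1 :
    ∃ t, chk3 (onCell 0 53687091 0 1073741824 134217728 67108864 (corT true 1 c0F cA102E gF0q1 gF0q0 gF1q2 gF2q2 true true)) t 3 283 1 = true :=
  ⟨(T.a (T.a (T.c (T.c (T.c (T.l 220) (T.l 204)) (T.l 220)) (T.c (T.l 204) (T.l 204))) (T.c (T.c (T.a (T.c (T.a (T.l 220) (T.c (T.c (T.l 220) (T.l 220)) (T.l 220))) (T.a (T.l 220) (T.c (T.l 220) (T.l 220)))) (T.c (T.a (T.c (T.l 220) (T.l 220)) (T.l 220)) (T.c (T.l 220) (T.l 220)))) (T.a (T.a (T.c (T.l 204) (T.l 204)) (T.c (T.l 220) (T.l 220))) (T.c (T.c (T.l 220) (T.l 220)) (T.l 220)))) (T.a (T.c (T.a (T.l 204) (T.c (T.l 204) (T.l 204))) (T.c (T.l 220) (T.l 220))) (T.c (T.c (T.l 220) (T.l 204)) (T.l 220))))) (T.c (T.a (T.c (T.a (T.c (T.c (T.l 220) (T.l 220)) (T.l 220)) (T.c (T.l 220) (T.l 220))) (T.a (T.c (T.l 220) (T.l 204)) (T.c (T.l 204) (T.l 204)))) (T.c (T.c (T.a (T.l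 220) (T.l 220)) (T.a (T.l 220) (T.l 220))) (T.a (T.l 220) (T.l 220)))) (T.a (T.c (T.a (T.l 220) (T.l 220)) (T.a (T.l 204) (T.l 204))) (T.c (T.c (T.l 476) (T.l 220)) (T.l 476))))), by decide +kernel⟩

def A102E_001_3_71_1 :
    ∃ t, chk3 (onCell 0 53687091 0 1073741824 134217728 67108864 (corT true 1 c0F cA102E gF0q1 gF0q0 gF1q2 gF2q2 true true)) t 3 71 1 = true :=
  ⟨(T.a (T.a (T.c (T.c (T.c (T.l 220) (T.l 204)) (T.b (T.l 220) (T.l 220))) (T.c (T.l 204) (T.l 204))) (T.c (T.c (T.a (T.a (T.c (T.l 220) (T.l 220)) (T.c (T.a (T.l 220) (T.c (T.l 220) (T.l 220))) (T.a (T.l 220) (T.b (T.l 220) (T.l 220))))) (T.c (T.a (T.c (T.l 220) (T.l 220)) (T.b (T.l 220) (T.l 220))) (T.a (T.b (T.l 220) (T.l 220)) (T.l 220)))) (T.a (T.a (T.c (T.l 204) (T.l 204)) (T.c (T.b (T.l 220) (T.l 220)) (T.l 220))) (T.c (T.a (T.l 220) (T.l 220)) (T.a (T.l 220) (T.l 220)))))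 (T.a (T.c (T.a (T.l 220) (T.c (T.l 220) (T.l 220))) (T.a (T.l 204) (T.l 220))) (T.c (T.c (T.b (T.l 220) (T.l 220)) (T.l 220)) (T.c (T.l 220) (T.l 220)))))) (T.c (T.a (T.c (T.a (T.c (T.a (T.l 220) (T.l 220)) (T.b (T.l 220) (T.l 220))) (T.c (T.b (T.l 220) (T.l 220)) (T.l 220))) (T.a (T.c (T.b (T.l 220) (T.l 220)) (T.l 220)) (T.c (T.l 220) (T.l 220)))) (T.c (T.a (T.c (T.l 220) (T.l 220)) (T.c (T.l 220) (T.l 220))) (T.a (T.c (T.l 220) (T.l 204)) (T.b (T.l 476) (T.l 476))))) (T.a (T.c (T.a (T.c (T.l 220) (T.l 204)) (T.l 220)) (T.a (T.l 220) (T.l 204))) (T.c (T.a (T.l 220) (T.l 220)) (T.c (T.l 476) (T.l 476)))))), by decide +kernel⟩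

def A102E_001_12_9_1 :
    ∃ t, chk3 (onCell 0 53687091 0 1073741824 134217728 67108864 (corT true 1 c0F cA102E gF0q1 gF0q0 gF1q2 gF2q2 true true)) t 12 9 1 = true :=
  ⟨(T.c (T.c (T.b (T.c (T.b (T.l 220) (T.l 220)) (T.l 220)) (T.c (T.l 220) (T.l 220))) (T.b (T.c (T.l 220) (T.l 220)) (T.b (T.l 220) (T.l 220)))) (T.c (T.b (T.b (T.l 220) (T.l 204)) (T.l 220)) (T.b (T.l 204) (T.l 204)))), by decide +kernel⟩

def A102E_001_13_9_2 :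
    ∃ t, chk3 (onCell 0 53687091 0 1073741824 134217728 67108864 (corT true 1 c0F cA102E gF0q1 gF0q0 gF1q2 gF2q2 true true)) t 13 9 2 = true :=
  ⟨(T.b (T.a (T.c (T.b (T.a (T.c (T.l 220) (T.l 220)) (T.c (T.b (T.c (T.b (T.l 220) (T.l 220)) (T.l 220)) (T.l 220)) (T.b (T.b (T.l 220) (T.l 220)) (T.l 220)))) (T.c (T.l 220) (T.l 220))) (T.b (T.a (T.c (T.l 204) (T.l 204)) (T.c (T.b (T.l 220) (T.l 220)) (T.b (T.l 220) (T.l 204)))) (T.c (T.l 220) (T.l 204)))) (T.c (T.b (T.c (T.a (T.b (T.a (T.c (T.l 220) (T.l 220)) (T.b (T.l 220) (T.l 220))) (T.c (T.a (T.l 220) (T.l 220)) (T.b (T.l 220) (T.l 220)))) (T.b (T.b (T.l 220) (T.l 220)) (T.c (T.l 220) (T.l 220)))) (T.a (T.b (T.c (T.b (T.l 220) (T.l 220)) (T.l 220)) (T.c (T.b (T.l 220) (T.l 220)) (T.l 220))) (T.b (T.l 220) (T.l 220)))) (T.c (T.a (T.b (T.c (T.b (T.l 220) (T.l 220)) (T.l 220)) (T.l 220)) (T.b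 (T.c (T.b (T.l 220) (T.l 220)) (T.l 220)) (T.c (T.b (T.l 220) (T.l 220)) (T.b (T.l 220) (T.l 220))))) (T.a (T.b (T.c (T.l 220) (T.l 220)) (T.l 220)) (T.b (T.b (T.l 220) (T.l 220)) (T.c (T.l 220) (T.l 220)))))) (T.b (T.a (T.c (T.b (T.b (T.l 220) (T.l 220)) (T.b (T.l 220) (T.l 220))) (T.b (T.l 220) (T.l 220))) (T.c (T.b (T.l 220) (T.l 220)) (T.b (T.l 220) (T.l 220)))) (T.a (T.c (T.b (T.b (T.l 220) (T.l 220)) (T.l 220)) (T.b (T.l 220) (T.l 204))) (T.c (T.b (T.l 220) (T.b (T.l 220) (T.l 220))) (T.b (T.l 220) (T.l 220))))))) (T.b (T.a (T.c (T.c (T.l 220) (T.l 220)) (T.l 220)) (T.c (T.b (T.c (T.a (T.l 220) (T.c (T.b (T.l 220) (T.l 220)) (T.l 220))) (T.a (T.l 220) (T.b (T.l 220) (T.l 220)))) (T.c (T.l 220) (T.l 220))) (T.b (T.a (T.l 220) (T.c (T.l 220) (T.l 220))) (T.b (T.l 220) (T.l 220))))) (T.c (T.c (T.l 220) (T.l 220)) (T.c (T.l 220) (T.l 220))))),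 by decide +kernel⟩

def A102E_001_13_9_3 :
    ∃ t, chk3 (onCell 0 53687091 0 1073741824 134217728 67108864 (corT true 1 c0F cA102E gF0q1 gF0q0 gF1q2 gF2q2 true true)) t 13 9 3 = true :=
  ⟨(T.b (T.a (T.b (T.c (T.a (T.l 220) (T.c (T.l 220) (T.l 220))) (T.a (T.l 204) (T.b (T.l 220) (T.l 204)))) (T.c (T.l 220) (T.l 204))) (T.c (T.b (T.a (T.c (T.b (T.l 220) (T.l 220)) (T.b (T.l 220) (T.l 220))) (T.c (T.l 220) (T.l 220))) (T.a (T.c (T.b (T.l 220) (T.l 204)) (T.l 220)) (T.c (T.b (T.l 220) (T.l 220)) (T.b (T.l 220) (T.l 220))))) (T.b (T.a (T.b (T.l 220) (T.l 220)) (T.b (T.l 220) (T.l 220))) (T.a (T.b (T.l 220) (T.l 204)) (T.b (T.l 220) (T.l 220)))))) (T.a (T.c (T.l 220) (T.l 220)) (T.b (T.c (T.b (T.a (T.l 220) (T.c (T.l 220) (T.l 220))) (T.l 220)) (T.a (T.l 204) (T.b (T.l 220) (T.l 204)))) (T.c (T.l 220) (T.l 204))))), by decide +kernel⟩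

def A102E_001_7_18_1 :
    ∃ t, chk3 (onCell 0 53687091 0 1073741824 134217728 67108864 (corT true 1 c0F cA102E gF0q1 gF0q0 gF1q2 gF2q2 true true)) t 7 18 1 = true :=
  ⟨(T.c (T.a (T.c (T.a (T.b (T.c (T.a (T.b (T.l 220) (T.l 220)) (T.b (T.l 220) (T.l 220))) (T.a (T.b (T.l 220) (T.l 220)) (T.l 220))) (T.c (T.a (T.b (T.b (T.l 220) (T.l 220)) (T.b (T.l 220) (T.l 220))) (T.b (T.l 220) (T.l 220))) (T.a (T.b (T.l 220) (T.l 220)) (T.b (T.l 220) (T.l 220))))) (T.b (T.c (T.a (T.b (T.l 220) (T.l 220)) (T.l 220)) (T.b (T.l 220) (T.l 220))) (T.c (T.a (T.b (T.l 220) (T.l 220)) (T.l 220)) (T.b (T.l 220) (T.l 220))))) (T.a (T.b (T.c (T.a (T.l 220) (T.l 220)) (T.b (T.l 220) (T.l 220))) (T.c (T.a (T.b (T.l 220) (T.l 220)) (T.l 220)) (T.a (T.l 220) (T.l 220)))) (T.b (T.c (T.b (T.l 220) (T.l 220)) (T.b (T.l 220) (T.l 220))) (T.c (T.b (T.l 220) (T.l 220)) (T.b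 (T.l 220) (T.l 220)))))) (T.c (T.b (T.a (T.c (T.b (T.l 220) (T.l 220)) (T.b (T.l 220) (T.l 220))) (T.c (T.b (T.l 220) (T.l 220)) (T.l 476))) (T.a (T.c (T.b (T.l 220) (T.l 220)) (T.b (T.l 220) (T.l 220))) (T.c (T.b (T.l 220) (T.l 220)) (T.l 476)))) (T.a (T.b (T.c (T.l 476) (T.l 220)) (T.c (T.l 476) (T.l 220))) (T.b (T.c (T.l 476) (T.l 220)) (T.c (T.l 476) (T.l 476)))))) (T.a (T.a (T.c (T.b (T.a (T.b (T.l 220) (T.l 220)) (T.b (T.l 220) (T.l 220))) (T.a (T.b (T.l 220) (T.l 220)) (T.b (T.l 220) (T.l 220)))) (T.b (T.b (T.l 220) (T.l 220)) (T.a (T.b (T.l 220) (T.l 220)) (T.l 220)))) (T.c (T.b (T.c (T.l 220) (T.l 220)) (T.c (T.l 220) (T.l 220))) (T.b (T.b (T.l 220) (T.l 220)) (T.b (T.l 220) (T.l 220))))) (T.b (T.c (T.a (T.b (T.l 220) (T.l 220)) (T.b (T.l 220) (T.l 220))) (T.a (T.l 476) (T.l 476))) (T.c (T.a (T.b (T.l 220) (T.l 220)) (T.b (T.l 220)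 (T.l 220))) (T.a (T.l 476) (T.l 476)))))), by decide +kernel⟩

def A102E_001_7_19_2 :
    ∃ t, chk3 (onCell 0 53687091 0 1073741824 134217728 67108864 (corT true 1 c0F cA102E gF0q1 gF0q0 gF1q2 gF2q2 true true)) t 7 19 2 = true :=
  ⟨(T.a (T.c (T.a (T.b (T.c (T.a (T.b (T.b (T.l 220) (T.l 220)) (T.c (T.l 220) (T.l 220))) (T.b (T.l 220) (T.l 220))) (T.a (T.b (T.b (T.l 220) (T.l 220)) (T.b (T.l 220) (T.l 220))) (T.b (T.l 220) (T.l 220)))) (T.c (T.a (T.b (T.b (T.l 220) (T.l 220)) (T.l 220)) (T.b (T.b (T.l 220) (T.l 220)) (T.b (T.l 220) (T.l 220)))) (T.a (T.b (T.b (T.l 220) (T.l 220)) (T.l 220)) (T.b (T.l 220) (T.l 220))))) (T.b (T.c (T.a (T.b (T.l 220) (T.l 220)) (T.l 220)) (T.b (T.l 220) (T.l 220))) (T.c (T.a (T.b (T.l 220) (T.l 220)) (T.l 220)) (T.a (T.b (T.l 220) (T.l 220)) (T.l 220))))) (T.a (T.b (T.a (T.c (T.b (T.l 220) (T.l 220)) (T.b (T.l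 220) (T.l 220))) (T.c (T.b (T.l 220) (T.l 220)) (T.l 220))) (T.c (T.a (T.b (T.l 220) (T.l 220)) (T.b (T.l 220) (T.l 220))) (T.a (T.b (T.l 220) (T.l 220)) (T.b (T.l 220) (T.l 220))))) (T.b (T.c (T.b (T.l 220) (T.l 220)) (T.b (T.l 220) (T.l 220))) (T.c (T.b (T.l 220) (T.l 220)) (T.b (T.l 220) (T.l 220)))))) (T.c (T.b (T.a (T.c (T.b (T.l 220) (T.l 220)) (T.b (T.l 220) (T.l 220))) (T.c (T.b (T.l 220) (T.l 220)) (T.l 476))) (T.a (T.c (T.b (T.l 220) (T.l 220)) (T.b (T.l 220) (T.l 220))) (T.c (T.l 476) (T.l 476)))) (T.b (T.a (T.c (T.b (T.l 220) (T.l 220)) (T.l 220)) (T.b (T.l 476) (T.l 476))) (T.a (T.c (T.b (T.l 220) (T.l 220)) (T.l 220)) (T.b (T.l 476) (T.l 476)))))), by decide +kernel⟩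

def A102E_001_7_19_3 :
    ∃ t, chk3 (onCell 0 53687091 0 1073741824 134217728 67108864 (corT true 1 c0F cA102E gF0q1 gF0q0 gF1q2 gF2q2 true true)) t 7 19 3 = true :=
  ⟨(T.a (T.a (T.b (T.c (T.a (T.c (T.b (T.l 220) (T.l 220)) (T.b (T.l 220) (T.l 220))) (T.b (T.l 220) (T.l 220))) (T.a (T.b (T.l 220) (T.l 220)) (T.l 220))) (T.c (T.a (T.c (T.l 220) (T.l 220)) (T.c (T.b (T.l 220) (T.l 220)) (T.l 220))) (T.a (T.b (T.l 220) (T.l 204)) (T.b (T.l 220) (T.l 220))))) (T.c (T.b (T.c (T.b (T.l 220) (T.l 220)) (T.l 220)) (T.b (T.b (T.l 220) (T.l 220)) (T.b (T.l 220) (T.l 220)))) (T.b (T.b (T.l 220) (T.l 220)) (T.b (T.l 220) (T.l 220))))) (T.b (T.c (T.a (T.b (T.l 220) (T.l 220)) (T.b (T.l 220) (T.l 220))) (T.a (T.l 220) (T.l 476))) (T.c (T.a (T.b (T.l 220) (T.l 220)) (T.b (T.l 220) (T.l 220))) (T.a (T.b (T.l 220) (T.l 220)) (T.l 476))))), by decide +kernel⟩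

def A102E_001_2_10_2 :
    ∃ t, chk3 (onCell 0 53687091 0 1073741824 134217728 67108864 (corT true 1 c0F cA102E gF0q1 gF0q0 gF1q2 gF2q2 true true)) t 2 10 2 = true :=
  ⟨(T.b (T.c (T.a (T.b (T.c (T.b (T.l 204) (T.l 204)) (T.b (T.l 204) (T.l 204))) (T.c (T.a (T.c (T.l 204) (T.l 204)) (T.l 460)) (T.b (T.l 204) (T.a (T.l 204) (T.l 204))))) (T.b (T.c (T.l 204) (T.l 204)) (T.c (T.b (T.l 204) (T.l 204)) (T.l 460)))) (T.a (T.b (T.c (T.b (T.l 204) (T.l 204)) (T.l 204)) (T.c (T.b (T.l 204) (T.a (T.l 204) (T.l 204))) (T.a (T.l 204) (T.l 204)))) (T.b (T.b (T.l 204) (T.l 204)) (T.c (T.l 460) (T.l 204))))) (T.b (T.c (T.a (T.c (T.a (T.b (T.c (T.b (T.l 204) (T.l 204)) (T.l 204)) (T.b (T.c (T.a (T.l 204) (T.l 204)) (T.a (T.l 204) (T.l 204))) (T.l 1))) (T.b (T.l 460) (T.c (T.l 460) (T.l 460)))) (T.a (T.b (T.c (T.l 204) (T.l 204)) (T.b (T.c (T.l 204) (T.l 204))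 (T.l 1))) (T.b (T.l 204) (T.b (T.l 204) (T.l 460))))) (T.c (T.b (T.l 460) (T.a (T.l 460) (T.l 204))) (T.b (T.l 204) (T.l 460)))) (T.a (T.c (T.a (T.b (T.b (T.l 204) (T.l 204)) (T.b (T.a (T.l 204) (T.l 204)) (T.l 1))) (T.b (T.l 204) (T.l 460))) (T.a (T.b (T.l 204) (T.b (T.l 204) (T.l 1))) (T.b (T.l 204) (T.l 204)))) (T.a (T.c (T.l 460) (T.l 204)) (T.b (T.l 204) (T.l 460))))) (T.l 1))), by decide +kernel⟩

def A102E_001_2_10_3 :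
    ∃ t, chk3 (onCell 0 53687091 0 1073741824 134217728 67108864 (corT true 1 c0F cA102E gF0q1 gF0q0 gF1q2 gF2q2 true true)) t 2 10 3 = true :=
  ⟨(T.b (T.c (T.a (T.b (T.c (T.l 204) (T.l 204)) (T.a (T.c (T.l 204) (T.l 204)) (T.b (T.l 204) (T.l 204)))) (T.b (T.l 204) (T.b (T.l 204) (T.l 204)))) (T.a (T.b (T.b (T.l 204) (T.l 204)) (T.a (T.c (T.l 204) (T.l 204)) (T.l 204))) (T.b (T.l 204) (T.l 460)))) (T.b (T.c (T.a (T.a (T.c (T.b (T.l 204) (T.b (T.l 204) (T.l 1))) (T.b (T.l 204) (T.b (T.l 204) (T.l 1)))) (T.c (T.b (T.l 204) (T.l 204)) (T.l 460))) (T.b (T.l 460) (T.a (T.l 204) (T.l 204)))) (T.a (T.a (T.b (T.c (T.l 204) (T.l 204)) (T.b (T.c (T.l 204) (T.l 204)) (T.l 1))) (T.c (T.l 204) (T.l 204))) (T.b (T.l 204) (T.l 460)))) (T.l 1))), by decide +kernel⟩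

def A102E_001_6_10_1 :
    ∃ t, chk3 (onCell 0 53687091 0 1073741824 134217728 67108864 (corT true 1 c0F cA102E gF0q1 gF0q0 gF1q2 gF2q2 true true)) t 6 10 1 = true :=
  ⟨(T.c (T.c (T.b (T.b (T.c (T.l 220) (T.l 220)) (T.c (T.l 220) (T.l 220))) (T.b (T.c (T.l 476) (T.l 476)) (T.a (T.l 1) (T.b (T.l 460) (T.l 1))))) (T.b (T.a (T.l 476) (T.c (T.l 220) (T.l 220))) (T.b (T.b (T.l 220) (T.l 460)) (T.b (T.l 460) (T.l 1))))) (T.b (T.c (T.b (T.l 220) (T.l 220)) (T.b (T.l 220) (T.l 220))) (T.c (T.b (T.l 476) (T.b (T.l 204) (T.l 1))) (T.b (T.l 204) (T.l 460))))), by decide +kernel⟩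

def A102E_001_7_20_1 :
    ∃ t, chk3 (onCell 0 53687091 0 1073741824 134217728 67108864 (corT true 1 c0F cA102E gF0q1 gF0q0 gF1q2 gF2q2 true true)) t 7 20 1 = true :=
  ⟨(T.c (T.a (T.b (T.c (T.a (T.b (T.c (T.a (T.l 220) (T.b (T.l 220) (T.l 220))) (T.a (T.l 220) (T.l 220))) (T.c (T.l 220) (T.l 220))) (T.c (T.b (T.a (T.l 220) (T.l 220)) (T.a (T.l 220) (T.l 220))) (T.a (T.b (T.l 220) (T.l 220)) (T.l 220)))) (T.a (T.b (T.a (T.l 220) (T.c (T.l 220) (T.l 220))) (T.l 220)) (T.b (T.c (T.b (T.l 220) (T.l 220)) (T.l 220)) (T.c (T.b (T.l 220) (T.l 220)) (T.b (T.l 220) (T.l 220)))))) (T.c (T.a (T.c (T.l 220) (T.l 220)) (T.c (T.b (T.a (T.l 220) (T.l 220)) (T.b (T.l 220) (T.l 220))) (T.b (T.b (T.l 220) (T.l 220)) (T.b (T.l 220) (T.l 220))))) (T.a (T.l 220) (T.b (T.c (T.b (T.l 220) (T.l 220)) (T.l 220)) (T.c (T.l 220) (T.l 220)))))) (T.c (T.b (T.a (T.c (T.b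 (T.l 220) (T.l 220)) (T.b (T.l 220) (T.l 220))) (T.c (T.l 476) (T.l 476))) (T.a (T.c (T.b (T.l 220) (T.l 220)) (T.b (T.l 220) (T.l 220))) (T.c (T.l 476) (T.l 476)))) (T.b (T.a (T.c (T.b (T.l 220) (T.l 220)) (T.l 220)) (T.b (T.l 476) (T.l 476))) (T.a (T.c (T.b (T.l 220) (T.l 220)) (T.b (T.l 220) (T.l 220))) (T.b (T.l 476) (T.l 476)))))) (T.a (T.b (T.a (T.c (T.b (T.c (T.l 220) (T.l 220)) (T.l 220)) (T.b (T.b (T.l 220) (T.l 220)) (T.l 204))) (T.c (T.b (T.c (T.l 220) (T.l 220)) (T.c (T.l 220) (T.l 220))) (T.a (T.b (T.l 220) (T.l 220)) (T.l 220)))) (T.a (T.c (T.l 220) (T.l 204)) (T.c (T.b (T.c (T.l 220) (T.l 220)) (T.b (T.l 220) (T.l 220))) (T.b (T.b (T.l 220) (T.l 220)) (T.l 220))))) (T.b (T.c (T.a (T.b (T.l 220) (T.l 220)) (T.b (T.l 220) (T.l 220))) (T.a (T.b (T.l 220) (T.l 220)) (T.l 476))) (T.c (T.a (T.b (T.l 220) (T.l 220)) (T.b (T.l 220) (T.l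 220))) (T.a (T.b (T.l 220) (T.l 220)) (T.l 220)))))), by decide +kernel⟩

def A102E_001_7_21_1 :
    ∃ t, chk3 (onCell 0 53687091 0 1073741824 134217728 67108864 (corT true 1 c0F cA102E gF0q1 gF0q0 gF1q2 gF2q2 true true)) t 7 21 1 = true :=
  ⟨(T.c (T.a (T.b (T.c (T.a (T.l 220) (T.b (T.c (T.l 220) (T.l 220)) (T.l 220))) (T.a (T.l 220) (T.b (T.c (T.l 220) (T.l 220)) (T.l 220)))) (T.c (T.b (T.l 220) (T.l 1)) (T.l 220))) (T.b (T.c (T.a (T.c (T.b (T.l 220) (T.l 220)) (T.b (T.l 220) (T.l 220))) (T.c (T.b (T.l 220) (T.l 220)) (T.l 476))) (T.a (T.b (T.c (T.l 220) (T.l 220)) (T.c (T.l 220) (T.l 220))) (T.b (T.l 476) (T.l 476)))) (T.b (T.b (T.c (T.a (T.c (T.l 220) (T.l 220)) (T.l 476)) (T.c (T.l 220) (T.l 220))) (T.l 1)) (T.l 1)))) (T.a (T.b (T.a (T.c (T.l 220) (T.l 204)) (T.c (T.b (T.l 220) (T.l 220)) (T.b (T.l 220) (T.l 204)))) (T.c (T.l 220) (T.l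 204))) (T.b (T.c (T.a (T.b (T.b (T.l 220) (T.l 220)) (T.l 220)) (T.b (T.l 220) (T.l 220))) (T.a (T.b (T.l 220) (T.l 220)) (T.l 220))) (T.b (T.b (T.c (T.c (T.l 220) (T.l 220)) (T.c (T.l 220) (T.l 220))) (T.l 1)) (T.l 1))))), by decide +kernel⟩

def A102E_001_1_11_1 :
    ∃ t, chk3 (onCell 0 53687091 0 1073741824 134217728 67108864 (corT true 1 c0F cA102E gF0q1 gF0q0 gF1q2 gF2q2 true true)) t 1 11 1 = true :=
  ⟨(T.l 1), by decide +kernel⟩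

def A102E_001_1_3_1 :
    ∃ t, chk3 (onCell 0 53687091 0 1073741824 134217728 67108864 (corT true 1 c0F cA102E gF0q1 gF0q0 gF1q2 gF2q2 true true)) t 1 3 1 = true :=
  ⟨(T.l 1), by decide +kernel⟩

theorem A102E_001_7_10_1 :
    ∃ t, chk3 (onCell 0 53687091 0 1073741824 134217728 67108864 (corT true 1 c0F cA102E gF0q1 gF0q0 gF1q2 gF2q2 true true)) t 7 10 1 = true :=
  ex3_b A102E_001_7_20_1 A102E_001_7_21_1
theorem A102E_001_3_10_1 :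
    ∃ t, chk3 (onCell 0 53687091 0 1073741824 134217728 67108864 (corT true 1 c0F cA102E gF0q1 gF0q0 gF1q2 gF2q2 true true)) t 3 10 1 = true :=
  ex3_a A102E_001_6_10_1 A102E_001_7_10_1
theorem A102E_001_2_10_1 :
    ∃ t, chk3 (onCell 0 53687091 0 1073741824 134217728 67108864 (corT true 1 c0F cA102E gF0q1 gF0q0 gF1q2 gF2q2 true true)) t 2 10 1 = true :=
  ex3_c A102E_001_2_10_2 A102E_001_2_10_3
theorem A102E_001_1_10_1 :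
    ∃ t, chk3 (onCell 0 53687091 0 1073741824 134217728 67108864 (corT true 1 c0F cA102E gF0q1 gF0q0 gF1q2 gF2q2 true true)) t 1 10 1 = true :=
  ex3_a A102E_001_2_10_1 A102E_001_3_10_1
theorem A102E_001_1_5_1 :
    ∃ t, chk3 (onCell 0 53687091 0 1073741824 134217728 67108864 (corT true 1 c0F cA102E gF0q1 gF0q0 gF1q2 gF2q2 true true)) t 1 5 1 = true :=
  ex3_b A102E_001_1_10_1 A102E_001_1_11_1
theorem A102E_001_7_19_1 :
    ∃ t, chk3 (onCell 0 53687091 0 1073741824 134217728 67108864 (corT true 1 c0F cA102E gF0q1 gF0q0 gF1q2 gF2q2 true true)) t 7 19 1 = true :=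
  ex3_c A102E_001_7_19_2 A102E_001_7_19_3
theorem A102E_001_7_9_1 :
    ∃ t, chk3 (onCell 0 53687091 0 1073741824 134217728 67108864 (corT true 1 c0F cA102E gF0q1 gF0q0 gF1q2 gF2q2 true true)) t 7 9 1 = true :=
  ex3_b A102E_001_7_18_1 A102E_001_7_19_1
theorem A102E_001_13_9_1 :
    ∃ t, chk3 (onCell 0 53687091 0 1073741824 134217728 67108864 (corT true 1 c0F cA102E gF0q1 gF0q0 gF1q2 gF2q2 true true)) t 13 9 1 = true :=
  ex3_c A102E_001_13_9_2 A102E_001_13_9_3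
theorem A102E_001_6_9_1 :
    ∃ t, chk3 (onCell 0 53687091 0 1073741824 134217728 67108864 (corT true 1 c0F cA102E gF0q1 gF0q0 gF1q2 gF2q2 true true)) t 6 9 1 = true :=
  ex3_a A102E_001_12_9_1 A102E_001_13_9_1
theorem A102E_001_3_9_1 :
    ∃ t, chk3 (onCell 0 53687091 0 1073741824 134217728 67108864 (corT true 1 c0F cA102E gF0q1 gF0q0 gF1q2 gF2q2 true true)) t 3 9 1 = true :=
  ex3_a A102E_001_6_9_1 A102E_001_7_9_1
theorem A102E_001_3_282_1 :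
    ∃ t, chk3 (onCell 0 53687091 0 1073741824 134217728 67108864 (corT true 1 c0F cA102E gF0q1 gF0q0 gF1q2 gF2q2 true true)) t 3 282 1 = true :=
  ex3_a A102E_001_6_282_1 A102E_001_7_282_1
theorem A102E_001_3_141_1 :
    ∃ t, chk3 (onCell 0 53687091 0 1073741824 134217728 67108864 (corT true 1 c0F cA102E gF0q1 gF0q0 gF1q2 gF2q2 true true)) t 3 141 1 = true :=
  ex3_b A102E_001_3_282_1 A102E_001_3_283_1
theorem A102E_001_6_281_1 :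
    ∃ t, chk3 (onCell 0 53687091 0 1073741824 134217728 67108864 (corT true 1 c0F cA102E gF0q1 gF0q0 gF1q2 gF2q2 true true)) t 6 281 1 = true :=
  ex3_b A102E_001_6_562_1 A102E_001_6_563_1
theorem A102E_001_3_281_1 :
    ∃ t, chk3 (onCell 0 53687091 0 1073741824 134217728 67108864 (corT true 1 c0F cA102E gF0q1 gF0q0 gF1q2 gF2q2 true true)) t 3 281 1 = true :=
  ex3_a A102E_001_6_281_1 A102E_001_7_281_1
theorem A102E_001_6_280_1 :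
    ∃ t, chk3 (onCell 0 53687091 0 1073741824 134217728 67108864 (corT true 1 c0F cA102E gF0q1 gF0q0 gF1q2 gF2q2 true true)) t 6 280 1 = true :=
  ex3_b A102E_001_6_560_1 A102E_001_6_561_1
theorem A102E_001_3_280_1 :
    ∃ t, chk3 (onCell 0 53687091 0 1073741824 134217728 67108864 (corT true 1 c0F cA102E gF0q1 gF0q0 gF1q2 gF2q2 true true)) t 3 280 1 = true :=
  ex3_a A102E_001_6_280_1 A102E_001_7_280_1
theorem A102E_001_3_140_1 :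
    ∃ t, chk3 (onCell 0 53687091 0 1073741824 134217728 67108864 (corT true 1 c0F cA102E gF0q1 gF0q0 gF1q2 gF2q2 true true)) t 3 140 1 = true :=
  ex3_b A102E_001_3_280_1 A102E_001_3_281_1
theorem A102E_001_3_70_1 :
    ∃ t, chk3 (onCell 0 53687091 0 1073741824 134217728 67108864 (corT true 1 c0F cA102E gF0q1 gF0q0 gF1q2 gF2q2 true true)) t 3 70 1 = true :=
  ex3_b A102E_001_3_140_1 A102E_001_3_141_1
theorem A102E_001_3_35_1 :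
    ∃ t, chk3 (onCell 0 53687091 0 1073741824 134217728 67108864 (corT true 1 c0F cA102E gF0q1 gF0q0 gF1q2 gF2q2 true true)) t 3 35 1 = true :=
  ex3_b A102E_001_3_70_1 A102E_001_3_71_1
theorem A102E_001_3_17_1 :
    ∃ t, chk3 (onCell 0 53687091 0 1073741824 134217728 67108864 (corT true 1 c0F cA102E gF0q1 gF0q0 gF1q2 gF2q2 true true)) t 3 17 1 = true :=
  ex3_b A102E_001_3_34_1 A102E_001_3_35_1
theorem A102E_001_3_8_1 :
    ∃ t, chk3 (onCell 0 53687091 0 1073741824 134217728 67108864 (corT true 1 c0F cA102E gF0q1 gF0q0 gF1q2 gF2q2 true true)) t 3 8 1 = true :=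
  ex3_b A102E_001_3_16_1 A102E_001_3_17_1
theorem A102E_001_3_4_1 :
    ∃ t, chk3 (onCell 0 53687091 0 1073741824 134217728 67108864 (corT true 1 c0F cA102E gF0q1 gF0q0 gF1q2 gF2q2 true true)) t 3 4 1 = true :=
  ex3_b A102E_001_3_8_1 A102E_001_3_9_1
theorem A102E_001_1_4_1 :
    ∃ t, chk3 (onCell 0 53687091 0 1073741824 134217728 67108864 (corT true 1 c0F cA102E gF0q1 gF0q0 gF1q2 gF2q2 true true)) t 1 4 1 = true :=
  ex3_a A102E_001_2_4_1 A102E_001_3_4_1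
theorem A102E_001_1_2_1 :
    ∃ t, chk3 (onCell 0 53687091 0 1073741824 134217728 67108864 (corT true 1 c0F cA102E gF0q1 gF0q0 gF1q2 gF2q2 true true)) t 1 2 1 = true :=
  ex3_b A102E_001_1_4_1 A102E_001_1_5_1
theorem A102E_001 :
    ∃ t, chk3 (onCell 0 53687091 0 1073741824 134217728 67108864 (corT true 1 c0F cA102E gF0q1 gF0q0 gF1q2 gF2q2 true true)) t 1 1 1 = true :=
  ex3_b A102E_001_1_2_1 A102E_001_1_3_1

def A102E_002_2_8_1 :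
    ∃ t, chk3 (onCell 0 53687091 0 1073741824 134217728 67108864 (corT true 1 c0F cA102E gF0q1 gF0q0 gF2q2 gF3q2 true false)) t 2 8 1 = true :=
  ⟨(T.c (T.c (T.b (T.a (T.l 204) (T.c (T.b (T.l 204) (T.l 204)) (T.l 220))) (T.b (T.c (T.l 220) (T.l 204)) (T.a (T.l 1) (T.c (T.l 204) (T.l 204))))) (T.b (T.a (T.l 204) (T.c (T.l 204) (T.l 204))) (T.b (T.a (T.l 204) (T.l 220)) (T.a (T.l 1) (T.l 460))))) (T.c (T.b (T.c (T.b (T.l 204) (T.l 204)) (T.l 220)) (T.b (T.l 204) (T.a (T.l 1) (T.l 204)))) (T.b (T.a (T.l 204) (T.l 220)) (T.b (T.l 204) (T.a (T.l 1) (T.l 204)))))), by decide +kernel⟩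

def A102E_002_6_8_2 :
    ∃ t, chk3 (onCell 0 53687091 0 1073741824 134217728 67108864 (corT true 1 c0F cA102E gF0q1 gF0q0 gF2q2 gF3q2 true false)) t 6 8 2 = true :=
  ⟨(T.a (T.c (T.b (T.a (T.c (T.b (T.l 220) (T.l 204)) (T.b (T.l 204) (T.l 204))) (T.c (T.b (T.c (T.a (T.l 204) (T.l 220)) (T.a (T.l 204) (T.l 220))) (T.a (T.l 220) (T.c (T.l 220) (T.l 220)))) (T.b (T.a (T.b (T.l 220) (T.l 204)) (T.c (T.l 220) (T.l 220))) (T.b (T.c (T.l 220) (T.l 220)) (T.l 220))))) (T.c (T.b (T.b (T.l 220) (T.l 220)) (T.l 220)) (T.b (T.l 220) (T.l 220)))) (T.b (T.a (T.c (T.l 220) (T.l 204)) (T.c (T.b (T.a (T.l 220) (T.c (T.l 204) (T.l 204))) (T.c (T.l 220) (T.l 220))) (T.b (T.a (T.l 204) (T.b (T.l 220) (T.l 220))) (T.b (T.l 220) (T.l 204))))) (T.c (T.b (T.l 220) (T.l 204)) (T.l 220)))) (T.c (T.b (T.c (T.b (T.a (T.c (T.b (T.l 220) (T.l 220)) (T.b (T.l 204) (T.l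 220))) (T.b (T.l 220) (T.l 220))) (T.a (T.c (T.a (T.l 220) (T.l 220)) (T.b (T.l 220) (T.l 220))) (T.b (T.l 220) (T.l 220)))) (T.b (T.a (T.c (T.l 220) (T.l 220)) (T.l 220)) (T.a (T.c (T.b (T.l 220) (T.l 220)) (T.l 220)) (T.l 220)))) (T.c (T.b (T.a (T.c (T.b (T.l 220) (T.l 220)) (T.b (T.l 220) (T.l 220))) (T.c (T.l 220) (T.l 220))) (T.b (T.b (T.a (T.c (T.l 220) (T.l 220)) (T.l 220)) (T.l 1)) (T.l 1))) (T.b (T.a (T.c (T.b (T.l 220) (T.l 220)) (T.l 220)) (T.l 220)) (T.b (T.a (T.b (T.l 220) (T.l 1)) (T.l 220)) (T.l 1))))) (T.b (T.c (T.a (T.b (T.b (T.l 220) (T.l 220)) (T.c (T.l 220) (T.l 220))) (T.b (T.l 204) (T.l 220))) (T.a (T.b (T.b (T.l 204) (T.l 220)) (T.b (T.l 220) (T.l 220))) (T.b (T.l 204) (T.l 204)))) (T.c (T.a (T.b (T.b (T.l 220) (T.l 220)) (T.b (T.l 220) (T.l 1))) (T.b (T.l 220) (T.l 220))) (T.a (T.b (T.l 220) (T.l 220)) (T.b (T.l 204)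 (T.l 220))))))), by decide +kernel⟩

def A102E_002_6_8_3 :
    ∃ t, chk3 (onCell 0 53687091 0 1073741824 134217728 67108864 (corT true 1 c0F cA102E gF0q1 gF0q0 gF2q2 gF3q2 true false)) t 6 8 3 = true :=
  ⟨(T.a (T.b (T.c (T.a (T.c (T.l 204) (T.l 204)) (T.c (T.a (T.l 220) (T.b (T.l 220) (T.l 220))) (T.b (T.b (T.l 220) (T.l 220)) (T.l 220)))) (T.a (T.b (T.l 204) (T.l 204)) (T.b (T.c (T.b (T.l 220) (T.l 204)) (T.b (T.l 204) (T.l 204))) (T.c (T.l 204) (T.l 204))))) (T.c (T.c (T.l 220) (T.l 204)) (T.l 220))) (T.c (T.b (T.b (T.c (T.a (T.l 220) (T.l 204)) (T.a (T.l 204) (T.l 204))) (T.c (T.a (T.l 220) (T.l 204)) (T.a (T.l 220) (T.l 204)))) (T.b (T.c (T.a (T.l 220) (T.l 204)) (T.b (T.l 220) (T.l 220))) (T.b (T.c (T.l 220) (T.l 220)) (T.l 1)))) (T.b (T.b (T.a (T.c (T.l 204) (T.l 204)) (T.b (T.l 204) (T.l 204))) (T.a (T.c (T.l 204) (T.l 204)) (T.l 220)))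 (T.a (T.b (T.b (T.l 220) (T.l 220)) (T.l 220)) (T.b (T.l 220) (T.l 204)))))), by decide +kernel⟩

def A102E_002_7_8_1 :
    ∃ t, chk3 (onCell 0 53687091 0 1073741824 134217728 67108864 (corT true 1 c0F cA102E gF0q1 gF0q0 gF2q2 gF3q2 true false)) t 7 8 1 = true :=
  ⟨(T.c (T.c (T.b (T.a (T.c (T.b (T.b (T.l 220) (T.l 220)) (T.b (T.l 220) (T.l 220))) (T.b (T.b (T.l 204) (T.l 220)) (T.b (T.l 220) (T.l 220)))) (T.c (T.b (T.b (T.l 220) (T.l 220)) (T.b (T.l 220) (T.l 220))) (T.b (T.l 220) (T.l 220)))) (T.a (T.c (T.b (T.a (T.l 220) (T.l 220)) (T.a (T.l 220) (T.l 220))) (T.b (T.b (T.l 220) (T.l 220)) (T.b (T.l 220) (T.l 1)))) (T.c (T.b (T.l 220) (T.l 476)) (T.b (T.l 220) (T.l 220))))) (T.b (T.a (T.c (T.b (T.l 220) (T.l 220)) (T.b (T.l 220) (T.l 220))) (T.c (T.b (T.l 220) (T.l 220)) (T.b (T.l 220) (T.l 204)))) (T.a (T.c (T.b (T.l 220) (T.l 220)) (T.b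 (T.l 220) (T.l 220))) (T.c (T.b (T.l 220) (T.l 220)) (T.b (T.l 204) (T.l 204)))))) (T.b (T.c (T.a (T.b (T.c (T.l 204) (T.l 204)) (T.c (T.l 204) (T.l 204))) (T.b (T.c (T.l 220) (T.l 204)) (T.b (T.l 220) (T.l 220)))) (T.a (T.b (T.c (T.l 204) (T.l 204)) (T.b (T.l 204) (T.l 204))) (T.b (T.c (T.l 204) (T.l 204)) (T.l 220)))) (T.c (T.a (T.b (T.b (T.l 220) (T.l 220)) (T.b (T.l 220) (T.l 1))) (T.b (T.l 476) (T.l 476))) (T.a (T.b (T.l 220) (T.l 476)) (T.b (T.l 204) (T.l 460)))))), by decide +kernel⟩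

def A102E_002_1_9_1 :
    ∃ t, chk3 (onCell 0 53687091 0 1073741824 134217728 67108864 (corT true 1 c0F cA102E gF0q1 gF0q0 gF2q2 gF3q2 true false)) t 1 9 1 = true :=
  ⟨(T.l 1), by decide +kernel⟩

def A102E_002_1_5_1 :
    ∃ t, chk3 (onCell 0 53687091 0 1073741824 134217728 67108864 (corT true 1 c0F cA102E gF0q1 gF0q0 gF2q2 gF3q2 true false)) t 1 5 1 = true :=
  ⟨(T.l 1), by decide +kernel⟩

def A102E_002_1_3_1 :
    ∃ t, chk3 (onCell 0 53687091 0 1073741824 134217728 67108864 (corT true 1 c0F cA102E gF0q1 gF0q0 gF2q2 gF3q2 true false)) t 1 3 1 = true :=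
  ⟨(T.l 1), by decide +kernel⟩

theorem A102E_002_6_8_1 :
    ∃ t, chk3 (onCell 0 53687091 0 1073741824 134217728 67108864 (corT true 1 c0F cA102E gF0q1 gF0q0 gF2q2 gF3q2 true false)) t 6 8 1 = true :=
  ex3_c A102E_002_6_8_2 A102E_002_6_8_3
theorem A102E_002_3_8_1 :
    ∃ t, chk3 (onCell 0 53687091 0 1073741824 134217728 67108864 (corT true 1 c0F cA102E gF0q1 gF0q0 gF2q2 gF3q2 true false)) t 3 8 1 = true :=
  ex3_a A102E_002_6_8_1 A102E_002_7_8_1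
theorem A102E_002_1_8_1 :
    ∃ t, chk3 (onCell 0 53687091 0 1073741824 134217728 67108864 (corT true 1 c0F cA102E gF0q1 gF0q0 gF2q2 gF3q2 true false)) t 1 8 1 = true :=
  ex3_a A102E_002_2_8_1 A102E_002_3_8_1
theorem A102E_002_1_4_1 :
    ∃ t, chk3 (onCell 0 53687091 0 1073741824 134217728 67108864 (corT true 1 c0F cA102E gF0q1 gF0q0 gF2q2 gF3q2 true false)) t 1 4 1 = true :=
  ex3_b A102E_002_1_8_1 A102E_002_1_9_1
theorem A102E_002_1_2_1 :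
    ∃ t, chk3 (onCell 0 53687091 0 1073741824 134217728 67108864 (corT true 1 c0F cA102E gF0q1 gF0q0 gF2q2 gF3q2 true false)) t 1 2 1 = true :=
  ex3_b A102E_002_1_4_1 A102E_002_1_5_1
theorem A102E_002 :
    ∃ t, chk3 (onCell 0 53687091 0 1073741824 134217728 67108864 (corT true 1 c0F cA102E gF0q1 gF0q0 gF2q2 gF3q2 true false)) t 1 1 1 = true :=
  ex3_b A102E_002_1_2_1 A102E_002_1_3_1

def A102E_010 :
    ∃ t, chk3 (onCell 0 67108864 0 1073741824 134217728 67108864 (corT true 1 c0F cA102E gF0q1 gF1q0 gF0q2 gF1q2 true true)) t 1 1 1 = true :=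
  ⟨(T.b (T.l 2) (T.b (T.b (T.l 2) (T.a (T.l 816) (T.l 0))) (T.b (T.a (T.l 816) (T.b (T.l 0) (T.l 1))) (T.l 1)))), by decide +kernel⟩

def A102E_011 :
    ∃ t, chk3 (onCell 0 67108864 0 1073741824 134217728 67108864 (corT true 1 c0F cA102E gF0q1 gF1q0 gF1q2 gF2q2 true true)) t 1 1 1 = true :=
  ⟨(T.b (T.b (T.l 2) (T.l 2)) (T.b (T.b (T.b (T.a (T.l 0) (T.l 0)) (T.l 0)) (T.a (T.l 816) (T.l 0))) (T.l 1))), by decide +kernel⟩

def A102E_012 :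
    ∃ t, chk3 (onCell 0 67108864 0 1073741824 134217728 67108864 (corT true 1 c0F cA102E gF0q1 gF1q0 gF2q2 gF3q2 true false)) t 1 1 1 = true :=
  ⟨(T.b (T.b (T.a (T.a (T.l 204) (T.l 0)) (T.l 0)) (T.a (T.l 0) (T.l 0))) (T.b (T.a (T.l 0) (T.b (T.l 0) (T.l 1))) (T.l 1))), by decide +kernel⟩

def A102E_020 :
    ∃ t, chk3 (onCell 0 67108864 0 1073741824 134217728 67108864 (corT true 1 c0F cA102E gF0q1 gF2q0 gF0q2 gF1q2 true true)) t 1 1 1 = true :=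
  ⟨(T.b (T.l 2) (T.b (T.l 2) (T.a (T.l 816) (T.b (T.l 2) (T.l 816))))), by decide +kernel⟩

def A102E_021 :
    ∃ t, chk3 (onCell 0 67108864 0 1073741824 134217728 67108864 (corT true 1 c0F cA102E gF0q1 gF2q0 gF1q2 gF2q2 true true)) t 1 1 1 = true :=
  ⟨(T.b (T.l 2) (T.b (T.l 2) (T.a (T.l 816) (T.b (T.l 2) (T.l 816))))), by decide +kernel⟩

def A102E_022 :
    ∃ t, chk3 (onCell 0 67108864 0 1073741824 134217728 67108864 (corT true 1 c0F cA102E gF0q1 gF2q0 gF2q2 gF3q2 true false)) t 1 1 1 = true :=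
  ⟨(T.b (T.a (T.a (T.l 816) (T.b (T.l 0) (T.l 816))) (T.b (T.l 0) (T.l 0))) (T.a (T.l 816) (T.b (T.b (T.l 816) (T.l 0)) (T.b (T.l 816) (T.l 816))))), by decide +kernel⟩

def A102R_004 :
    ∃ t, chk3 (onCell 0 67108864 0 1073741824 134217728 67108864 (corT true 1 c0F cA102R gF0q1 gF0q0 gF4q2 gF5q2 false true)) t 1 1 1 = true :=
  ⟨(T.l 2), by decide +kernel⟩

def A102R_014 :
    ∃ t, chk3 (onCell 0 67108864 0 1073741824 134217728 67108864 (corT true 1 c0F cA102R gF0q1 gF1q0 gF4q2 gF5q2 false true)) t 1 1 1 = true :=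
  ⟨(T.l 2), by decide +kernel⟩

def A102R_024 :
    ∃ t, chk3 (onCell 0 67108864 0 1073741824 134217728 67108864 (corT true 1 c0F cA102R gF0q1 gF2q0 gF4q2 gF5q2 false true)) t 1 1 1 = true :=
  ⟨(T.l 2), by decide +kernel⟩

def A202E_000 :
    ∃ t, chk3 (onCell 0 67108864 0 1073741824 134217728 67108864 (corT true 1 c0F cA202E gF0q2 gF0q0 gF0q2 gF1q2 true true)) t 1 1 1 = true :=
  ⟨(T.l 2), by decide +kernel⟩

def A202E_001 :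
    ∃ t, chk3 (onCell 0 67108864 0 1073741824 134217728 67108864 (corT true 1 c0F cA202E gF0q2 gF0q0 gF1q2 gF2q2 true true)) t 1 1 1 = true :=
  ⟨(T.b (T.l 2) (T.l 2)), by decide +kernel⟩

def A202E_002_2_4_1 :
    ∃ t, chk3 (onCell 0 67108864 0 1073741824 134217728 67108864 (corT true 1 c0F cA202E gF0q2 gF0q0 gF2q2 gF3q2 true false)) t 2 4 1 = true :=
  ⟨(T.a (T.c (T.b (T.c (T.b (T.b (T.l 204) (T.l 204)) (T.l 204)) (T.b (T.l 204) (T.l 204))) (T.b (T.l 204) (T.l 204))) (T.b (T.b (T.c (T.l 204) (T.l 204)) (T.l 204)) (T.l 204))) (T.c (T.a (T.b (T.c (T.b (T.c (T.l 204) (T.l 204)) (T.l 204)) (T.b (T.c (T.l 204) (T.l 204)) (T.l 204))) (T.l 476)) (T.b (T.c (T.b (T.b (T.c (T.a (T.l 204) (T.b (T.a (T.l 220) (T.c (T.l 204) (T.l 204))) (T.l 204))) (T.a (T.l 204) (T.b (T.a (T.l 204) (T.c (T.l 204) (T.l 204))) (T.l 204)))) (T.a (T.l 204) (T.l 204))) (T.l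 204)) (T.b (T.b (T.a (T.c (T.l 204) (T.l 204)) (T.c (T.b (T.c (T.l 220) (T.l 220)) (T.l 204)) (T.b (T.a (T.l 204) (T.l 220)) (T.l 204)))) (T.a (T.l 204) (T.l 204))) (T.l 204))) (T.c (T.l 204) (T.l 204)))) (T.a (T.b (T.b (T.c (T.b (T.l 204) (T.l 204)) (T.l 204)) (T.l 204)) (T.l 204)) (T.b (T.b (T.c (T.b (T.a (T.c (T.l 204) (T.l 204)) (T.b (T.c (T.a (T.l 204) (T.l 204)) (T.b (T.l 220) (T.l 204))) (T.l 204))) (T.l 220)) (T.b (T.a (T.l 204) (T.c (T.b (T.l 220) (T.l 204)) (T.l 220))) (T.l 204))) (T.c (T.l 204) (T.l 204))) (T.l 204))))), by decide +kernel⟩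

def A202E_002_6_4_1 :
    ∃ t, chk3 (onCell 0 67108864 0 1073741824 134217728 67108864 (corT true 1 c0F cA202E gF0q2 gF0q0 gF2q2 gF3q2 true false)) t 6 4 1 = true :=
  ⟨(T.c (T.b (T.c (T.b (T.a (T.b (T.c (T.a (T.c (T.l 220) (T.l 204)) (T.l 204)) (T.a (T.a (T.l 220) (T.l 204)) (T.l 204))) (T.b (T.l 204) (T.l 204))) (T.b (T.c (T.b (T.l 220) (T.l 204)) (T.l 220)) (T.l 460))) (T.a (T.l 204) (T.l 460))) (T.b (T.a (T.b (T.c (T.a (T.b (T.l 220) (T.l 204)) (T.l 204)) (T.a (T.l 220) (T.l 204))) (T.l 204)) (T.b (T.c (T.l 220) (T.l 204)) (T.l 204))) (T.a (T.l 204) (T.l 204)))) (T.c (T.a (T.l 204) (T.l 460)) (T.b (T.l 460) (T.l 204)))) (T.b (T.b (T.c (T.a (T.b (T.b (T.c (T.a (T.l 204) (T.l 204)) (T.a (T.l 204) (T.l 204))) (T.l 220)) (T.l 204)) (T.b (T.c (T.l 204) (T.l 204)) (T.l 204))) (T.a (T.b (T.a (T.c (T.l 204) (T.l 204)) (T.l 204)) (T.l 204)) (T.c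 (T.l 220) (T.l 220)))) (T.c (T.b (T.l 460) (T.l 204)) (T.l 460))) (T.a (T.l 460) (T.b (T.l 204) (T.l 204))))), by decide +kernel⟩

def A202E_002_7_4_1 :
    ∃ t, chk3 (onCell 0 67108864 0 1073741824 134217728 67108864 (corT true 1 c0F cA202E gF0q2 gF0q0 gF2q2 gF3q2 true false)) t 7 4 1 = true :=
  ⟨(T.c (T.b (T.a (T.c (T.b (T.b (T.c (T.b (T.l 220) (T.l 204)) (T.b (T.l 220) (T.l 204))) (T.b (T.l 460) (T.l 460))) (T.b (T.l 460) (T.l 204))) (T.b (T.b (T.b (T.c (T.l 220) (T.l 220)) (T.l 220)) (T.l 204)) (T.l 204))) (T.c (T.b (T.b (T.c (T.a (T.l 220) (T.c (T.l 220) (T.l 220))) (T.a (T.l 220) (T.c (T.l 220) (T.l 220)))) (T.c (T.l 460) (T.l 204))) (T.c (T.l 460) (T.l 204))) (T.b (T.b (T.b (T.c (T.a (T.l 220) (T.a (T.l 220) (T.l 220))) (T.a (T.l 220) (T.a (T.l 220) (T.l 220)))) (T.a (T.l 220) (T.l 220))) (T.l 460)) (T.l 460)))) (T.c (T.a (T.b (T.l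 204) (T.l 204)) (T.b (T.b (T.l 460) (T.l 204)) (T.l 460))) (T.b (T.b (T.l 460) (T.l 460)) (T.l 460)))) (T.b (T.b (T.a (T.c (T.b (T.c (T.l 220) (T.l 220)) (T.l 204)) (T.b (T.c (T.l 220) (T.l 220)) (T.l 204))) (T.c (T.b (T.b (T.a (T.c (T.l 220) (T.l 220)) (T.c (T.a (T.l 220) (T.l 220)) (T.b (T.l 220) (T.l 204)))) (T.a (T.l 204) (T.l 220))) (T.l 204)) (T.b (T.b (T.a (T.c (T.l 220) (T.l 220)) (T.b (T.c (T.l 220) (T.l 220)) (T.l 220))) (T.l 220)) (T.l 204)))) (T.c (T.b (T.l 460) (T.l 204)) (T.l 476))) (T.c (T.b (T.l 460) (T.l 204)) (T.b (T.l 204) (T.l 204))))), by decide +kernel⟩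

def A202E_002_1_5_1 :
    ∃ t, chk3 (onCell 0 67108864 0 1073741824 134217728 67108864 (corT true 1 c0F cA202E gF0q2 gF0q0 gF2q2 gF3q2 true false)) t 1 5 1 = true :=
  ⟨(T.a (T.a (T.c (T.b (T.l 0) (T.l 0)) (T.l 0)) (T.c (T.a (T.b (T.l 204) (T.l 0)) (T.c (T.l 0) (T.l 0))) (T.a (T.l 0) (T.l 256)))) (T.a (T.c (T.b (T.c (T.b (T.l 204) (T.l 204)) (T.l 460)) (T.c (T.b (T.l 0) (T.l 0)) (T.l 0))) (T.b (T.b (T.l 204) (T.l 204)) (T.l 0))) (T.b (T.c (T.c (T.a (T.l 204) (T.b (T.l 204) (T.l 204))) (T.b (T.l 204) (T.l 204))) (T.a (T.l 204) (T.l 460))) (T.c (T.a (T.b (T.l 460) (T.l 460)) (T.c (T.b (T.l 204) (T.l 204)) (T.b (T.l 204) (T.l 204)))) (T.b (T.l 460) (T.b (T.l 204) (T.l 204))))))), by decide +kernel⟩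

def A202E_002_1_6_1 :
    ∃ t, chk3 (onCell 0 67108864 0 1073741824 134217728 67108864 (corT true 1 c0F cA202E gF0q2 gF0q0 gF2q2 gF3q2 true false)) t 1 6 1 = true :=
  ⟨(T.b (T.a (T.a (T.c (T.l 816) (T.l 816)) (T.c (T.a (T.l 816) (T.l 0)) (T.a (T.l 816) (T.l 0)))) (T.a (T.c (T.a (T.l 0) (T.l 0)) (T.l 0)) (T.c (T.a (T.c (T.b (T.l 0) (T.l 0)) (T.l 0)) (T.c (T.b (T.l 204) (T.l 0)) (T.l 0))) (T.a (T.l 0) (T.b (T.l 204) (T.l 0)))))) (T.a (T.a (T.c (T.a (T.l 816) (T.l 816)) (T.l 816)) (T.c (T.a (T.l 816) (T.b (T.l 816) (T.l 816))) (T.a (T.l 816) (T.l 816)))) (T.a (T.c (T.a (T.b (T.l 816) (T.l 816)) (T.c (T.b (T.l 816) (T.l 816)) (T.l 816))) (T.a (T.l 816) (T.l 0))) (T.a (T.c (T.b (T.b (T.l 0) (T.l 0)) (T.a (T.l 880) (T.c (T.l 816) (T.l 816)))) (T.b (T.l 0) (T.l 0))) (T.c (T.b (T.c (T.b (T.l 0) (T.l 0)) (T.l 0)) (T.c (T.b (T.l 0) (T.l 0)) (T.l 0)))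 (T.b (T.l 0) (T.l 0))))))), by decide +kernel⟩

def A202E_002_2_7_1 :
    ∃ t, chk3 (onCell 0 67108864 0 1073741824 134217728 67108864 (corT true 1 c0F cA202E gF0q2 gF0q0 gF2q2 gF3q2 true false)) t 2 7 1 = true :=
  ⟨(T.a (T.c (T.b (T.c (T.b (T.l 816) (T.l 816)) (T.l 816)) (T.c (T.a (T.l 816) (T.l 816)) (T.b (T.l 816) (T.l 816)))) (T.b (T.a (T.l 816) (T.l 816)) (T.c (T.b (T.l 816) (T.l 816)) (T.b (T.l 816) (T.l 816))))) (T.a (T.c (T.c (T.b (T.l 816) (T.l 816)) (T.b (T.l 816) (T.l 816))) (T.b (T.l 816) (T.l 816))) (T.c (T.b (T.c (T.l 816) (T.l 816)) (T.a (T.c (T.l 816) (T.l 816)) (T.c (T.b (T.l 816) (T.l 816)) (T.l 816)))) (T.b (T.l 816) (T.a (T.l 816) (T.l 816)))))), by decide +kernel⟩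

def A202E_002_3_7_1 :
    ∃ t, chk3 (onCell 0 67108864 0 1073741824 134217728 67108864 (corT true 1 c0F cA202E gF0q2 gF0q0 gF2q2 gF3q2 true false)) t 3 7 1 = true :=
  ⟨(T.a (T.a (T.c (T.b (T.c (T.b (T.l 816) (T.l 816)) (T.l 816)) (T.c (T.a (T.b (T.l 816) (T.l 816)) (T.b (T.l 816) (T.l 816))) (T.b (T.l 816) (T.l 816)))) (T.b (T.b (T.l 816) (T.l 816)) (T.b (T.l 816) (T.l 880)))) (T.b (T.c (T.b (T.c (T.l 816) (T.l 816)) (T.a (T.c (T.l 816) (T.l 816)) (T.c (T.l 880) (T.l 816)))) (T.a (T.l 816) (T.b (T.l 816) (T.l 816)))) (T.c (T.a (T.c (T.b (T.b (T.l 816) (T.l 816)) (T.b (T.l 816) (T.l 816))) (T.b (T.l 816) (T.l 816))) (T.c (T.b (T.b (T.l 816) (T.l 816)) (T.b (T.l 816) (T.l 816))) (T.b (T.l 816) (T.l 816)))) (T.a (T.b (T.l 816) (T.l 816)) (T.b (T.l 816) (T.l 816)))))) (T.b (T.a (T.c (T.b (T.c (T.b (T.l 816) (T.l 880)) (T.l 880)) (T.c (T.a (T.l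 816) (T.l 816)) (T.b (T.l 816) (T.l 816)))) (T.b (T.l 64) (T.b (T.l 816) (T.l 816)))) (T.c (T.b (T.c (T.a (T.l 816) (T.l 816)) (T.l 0)) (T.c (T.a (T.l 816) (T.l 816)) (T.l 816))) (T.b (T.l 0) (T.l 0)))) (T.a (T.c (T.b (T.c (T.a (T.l 880) (T.l 880)) (T.b (T.l 816) (T.l 816))) (T.c (T.a (T.b (T.l 816) (T.l 816)) (T.b (T.l 816) (T.l 816))) (T.b (T.l 816) (T.l 816)))) (T.a (T.b (T.l 816) (T.l 816)) (T.b (T.l 816) (T.l 816)))) (T.c (T.a (T.c (T.b (T.l 880) (T.b (T.l 816) (T.l 816))) (T.b (T.l 816) (T.l 816))) (T.c (T.b (T.b (T.l 816) (T.l 816)) (T.b (T.l 816) (T.l 816))) (T.b (T.l 816) (T.l 816)))) (T.a (T.b (T.l 816) (T.l 816)) (T.l 64)))))), by decide +kernel⟩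

theorem A202E_002_1_7_1 :
    ∃ t, chk3 (onCell 0 67108864 0 1073741824 134217728 67108864 (corT true 1 c0F cA202E gF0q2 gF0q0 gF2q2 gF3q2 true false)) t 1 7 1 = true :=
  ex3_a A202E_002_2_7_1 A202E_002_3_7_1
theorem A202E_002_1_3_1 :
    ∃ t, chk3 (onCell 0 67108864 0 1073741824 134217728 67108864 (corT true 1 c0F cA202E gF0q2 gF0q0 gF2q2 gF3q2 true false)) t 1 3 1 = true :=
  ex3_b A202E_002_1_6_1 A202E_002_1_7_1
theorem A202E_002_3_4_1 :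
    ∃ t, chk3 (onCell 0 67108864 0 1073741824 134217728 67108864 (corT true 1 c0F cA202E gF0q2 gF0q0 gF2q2 gF3q2 true false)) t 3 4 1 = true :=
  ex3_a A202E_002_6_4_1 A202E_002_7_4_1
theorem A202E_002_1_4_1 :
    ∃ t, chk3 (onCell 0 67108864 0 1073741824 134217728 67108864 (corT true 1 c0F cA202E gF0q2 gF0q0 gF2q2 gF3q2 true false)) t 1 4 1 = true :=
  ex3_a A202E_002_2_4_1 A202E_002_3_4_1
theorem A202E_002_1_2_1 :
    ∃ t, chk3 (onCell 0 67108864 0 1073741824 134217728 67108864 (corT true 1 c0F cA202E gF0q2 gF0q0 gF2q2 gF3q2 true false)) t 1 2 1 = true :=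
  ex3_b A202E_002_1_4_1 A202E_002_1_5_1
theorem A202E_002 :
    ∃ t, chk3 (onCell 0 67108864 0 1073741824 134217728 67108864 (corT true 1 c0F cA202E gF0q2 gF0q0 gF2q2 gF3q2 true false)) t 1 1 1 = true :=
  ex3_b A202E_002_1_2_1 A202E_002_1_3_1

def A202E_010 :
    ∃ t, chk3 (onCell 0 67108864 0 1073741824 134217728 67108864 (corT true 1 c0F cA202E gF0q2 gF1q0 gF0q2 gF1q2 true true)) t 1 1 1 = true :=
  ⟨(T.l 2), by decide +kernel⟩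

def A202E_011 :
    ∃ t, chk3 (onCell 0 67108864 0 1073741824 134217728 67108864 (corT true 1 c0F cA202E gF0q2 gF1q0 gF1q2 gF2q2 true true)) t 1 1 1 = true :=
  ⟨(T.l 2), by decide +kernel⟩

def A202E_012 :
    ∃ t, chk3 (onCell 0 67108864 0 1073741824 134217728 67108864 (corT true 1 c0F cA202E gF0q2 gF1q0 gF2q2 gF3q2 true false)) t 1 1 1 = true :=
  ⟨(T.b (T.a (T.a (T.l 0) (T.l 0)) (T.b (T.l 0) (T.a (T.l 0) (T.l 0)))) (T.b (T.b (T.a (T.a (T.l 816) (T.l 0)) (T.a (T.l 0) (T.l 0))) (T.a (T.a (T.l 816) (T.l 0)) (T.a (T.l 0) (T.a (T.l 0) (T.l 0))))) (T.a (T.a (T.c (T.b (T.l 816) (T.b (T.l 816) (T.c (T.b (T.l 816) (T.l 816)) (T.l 816)))) (T.b (T.l 816) (T.b (T.l 816) (T.c (T.l 816) (T.l 816))))) (T.a (T.c (T.b (T.l 816) (T.c (T.l 816) (T.l 816))) (T.b (T.l 816) (T.l 816))) (T.b (T.l 816) (T.c (T.b (T.l 816) (T.c (T.a (T.l 816) (T.l 816)) (T.l 816)))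 (T.a (T.l 816) (T.l 816)))))) (T.a (T.a (T.b (T.b (T.l 816) (T.l 816)) (T.c (T.b (T.l 816) (T.c (T.b (T.l 816) (T.l 816)) (T.l 816))) (T.b (T.l 816) (T.l 816)))) (T.b (T.c (T.b (T.l 816) (T.l 816)) (T.l 0)) (T.c (T.b (T.b (T.l 816) (T.l 816)) (T.c (T.b (T.l 816) (T.a (T.l 816) (T.l 816))) (T.b (T.l 816) (T.l 880)))) (T.b (T.l 816) (T.a (T.l 816) (T.l 816)))))) (T.b (T.a (T.c (T.l 64) (T.l 0)) (T.c (T.l 64) (T.l 0))) (T.a (T.c (T.b (T.b (T.l 816) (T.l 816)) (T.c (T.b (T.l 816) (T.a (T.l 816) (T.l 816))) (T.b (T.l 816) (T.l 816)))) (T.b (T.l 816) (T.b (T.l 816) (T.l 816)))) (T.c (T.b (T.b (T.l 816) (T.l 816)) (T.c (T.b (T.l 816) (T.a (T.l 816) (T.l 816))) (T.b (T.l 816) (T.l 816)))) (T.a (T.l 0) (T.l 0))))))))), by decide +kernel⟩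

def A202E_020 :
    ∃ t, chk3 (onCell 0 67108864 0 1073741824 134217728 67108864 (corT true 1 c0F cA202E gF0q2 gF2q0 gF0q2 gF1q2 true true)) t 1 1 1 = true :=
  ⟨(T.l 2), by decide +kernel⟩

def A202E_021 :
    ∃ t, chk3 (onCell 0 67108864 0 1073741824 134217728 67108864 (corT true 1 c0F cA202E gF0q2 gF2q0 gF1q2 gF2q2 true true)) t 1 1 1 = true :=
  ⟨(T.l 2), by decide +kernel⟩

def A202E_022 :
    ∃ t, chk3 (onCell 0 67108864 0 1073741824 134217728 67108864 (corT true 1 c0F cA202E gF0q2 gF2q0 gF2q2 gF3q2 true false)) t 1 1 1 = true :=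
  ⟨(T.b (T.a (T.a (T.l 816) (T.l 0)) (T.b (T.l 0) (T.b (T.l 0) (T.l 0)))) (T.b (T.a (T.a (T.l 816) (T.l 816)) (T.a (T.l 816) (T.b (T.l 0) (T.l 0)))) (T.a (T.a (T.b (T.l 816) (T.c (T.b (T.l 816) (T.c (T.b (T.l 816) (T.l 816)) (T.l 816))) (T.b (T.l 816) (T.c (T.l 816) (T.l 816))))) (T.b (T.l 816) (T.a (T.c (T.c (T.l 816) (T.l 816)) (T.l 816)) (T.b (T.l 816) (T.c (T.c (T.a (T.l 816) (T.l 816)) (T.l 816)) (T.c (T.l 816) (T.l 816))))))) (T.a (T.a (T.b (T.l 816) (T.c (T.b (T.l 816) (T.c (T.b (T.l 816) (T.l 816)) (T.l 816))) (T.b (T.l 816) (T.l 816)))) (T.b (T.b (T.l 816) (T.l 816)) (T.b (T.c (T.l 816) (T.l 816)) (T.c (T.b (T.l 816) (T.c (T.a (T.l 816) (T.l 816)) (T.l 880))) (T.a (T.l 816) (T.l 816)))))) (T.b (T.a (T.l 64) (T.l 64)) (T.a (T.c (T.b (T.l 816) (T.b (T.l 816) (T.c (T.a (T.l 816) (T.l 816)) (T.l 816)))) (T.b (T.l 816) (T.b (T.l 816) (T.l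 816)))) (T.c (T.b (T.l 816) (T.b (T.l 816) (T.c (T.a (T.l 816) (T.l 816)) (T.l 816)))) (T.a (T.l 816) (T.l 816))))))))), by decide +kernel⟩

def A202E_110 :
    ∃ t, chk3 (onCell 0 67108864 0 1073741824 134217728 67108864 (corT true 1 c0F cA202E gF1q2 gF1q0 gF0q2 gF1q2 true true)) t 1 1 1 = true :=
  ⟨(T.l 2), by decide +kernel⟩

def A202E_111 :
    ∃ t, chk3 (onCell 0 67108864 0 1073741824 134217728 67108864 (corT true 1 c0F cA202E gF1q2 gF1q0 gF1q2 gF2q2 true true)) t 1 1 1 = true :=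
  ⟨(T.l 2), by decide +kernel⟩

def A202E_112_1_2_1 :
    ∃ t, chk3 (onCell 0 67108864 0 1073741824 134217728 67108864 (corT true 1 c0F cA202E gF1q2 gF1q0 gF2q2 gF3q2 true false)) t 1 2 1 = true :=
  ⟨(T.b (T.a (T.a (T.l 0) (T.l 0)) (T.l 0)) (T.a (T.a (T.l 0) (T.l 0)) (T.a (T.l 0) (T.b (T.l 204) (T.l 0))))), by decide +kernel⟩

def A202E_112_1_3_1 :
    ∃ t, chk3 (onCell 0 67108864 0 1073741824 134217728 67108864 (corT true 1 c0F cA202E gF1q2 gF1q0 gF2q2 gF3q2 true false)) t 1 3 1 = true :=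
  ⟨(T.a (T.a (T.b (T.l 816) (T.b (T.l 816) (T.c (T.b (T.l 816) (T.c (T.b (T.l 816) (T.b (T.l 816) (T.c (T.a (T.a (T.l 816) (T.l 816)) (T.l 816)) (T.a (T.l 816) (T.l 816))))) (T.a (T.b (T.l 816) (T.c (T.l 816) (T.l 816))) (T.l 816)))) (T.b (T.l 816) (T.b (T.l 816) (T.c (T.a (T.c (T.l 816) (T.l 816)) (T.l 816)) (T.c (T.l 816) (T.l 816)))))))) (T.b (T.l 0) (T.a (T.c (T.b (T.l 816) (T.c (T.b (T.l 816) (T.l 816)) (T.l 816))) (T.c (T.l 816) (T.l 816))) (T.b (T.l 816) (T.c (T.b (T.l 816) (T.a (T.c (T.l 816) (T.l 816)) (T.c (T.b (T.l 816) (T.l 816)) (T.l 816)))) (T.a (T.l 816) (T.c (T.l 816) (T.l 816)))))))) (T.b (T.a (T.b (T.l 0) (T.b (T.l 0) (T.l 0))) (T.b (T.l 0) (T.l 0))) (T.a (T.b (T.c (T.b (T.l 816) (T.l 816)) (T.b (T.l 816) (T.l 816))) (T.c (T.a (T.b (T.l 816) (T.c (T.b (T.l 816) (T.b (T.l 816) (T.a (T.l 816) (T.c (T.l 816) (T.l 816))))) (T.a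 (T.l 816) (T.l 816)))) (T.b (T.l 816) (T.c (T.b (T.l 816) (T.b (T.l 816) (T.c (T.a (T.l 816) (T.l 816)) (T.a (T.l 816) (T.l 816))))) (T.a (T.l 816) (T.l 816))))) (T.a (T.b (T.l 816) (T.c (T.b (T.l 816) (T.l 816)) (T.l 816))) (T.b (T.l 816) (T.c (T.l 880) (T.l 816)))))) (T.b (T.c (T.l 64) (T.l 0)) (T.c (T.b (T.a (T.l 816) (T.l 816)) (T.a (T.c (T.b (T.l 816) (T.b (T.l 816) (T.c (T.a (T.l 880) (T.b (T.l 816) (T.l 880))) (T.l 880)))) (T.a (T.l 816) (T.l 816))) (T.c (T.b (T.l 816) (T.c (T.b (T.l 816) (T.b (T.l 880) (T.a (T.a (T.l 816) (T.l 816)) (T.a (T.l 880) (T.l 816))))) (T.a (T.l 816) (T.l 816)))) (T.a (T.l 816) (T.l 816))))) (T.b (T.l 816) (T.a (T.c (T.l 816) (T.l 816)) (T.c (T.l 816) (T.l 816))))))))), by decide +kernel⟩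

theorem A202E_112 :
    ∃ t, chk3 (onCell 0 67108864 0 1073741824 134217728 67108864 (corT true 1 c0F cA202E gF1q2 gF1q0 gF2q2 gF3q2 true false)) t 1 1 1 = true :=
  ex3_b A202E_112_1_2_1 A202E_112_1_3_1

def A202E_120 :
    ∃ t, chk3 (onCell 0 67108864 0 1073741824 134217728 67108864 (corT true 1 c0F cA202E gF1q2 gF2q0 gF0q2 gF1q2 true true)) t 1 1 1 = true :=
  ⟨(T.l 2), by decide +kernel⟩

def A202E_121 :
    ∃ t, chk3 (onCell 0 67108864 0 1073741824 134217728 67108864 (corT true 1 c0F cA202E gF1q2 gF2q0 gF1q2 gF2q2 true true)) t 1 1 1 = true :=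
  ⟨(T.l 2), by decide +kernel⟩

def A202E_122 :
    ∃ t, chk3 (onCell 0 67108864 0 1073741824 134217728 67108864 (corT true 1 c0F cA202E gF1q2 gF2q0 gF2q2 gF3q2 true false)) t 1 1 1 = true :=
  ⟨(T.b (T.b (T.a (T.a (T.l 816) (T.l 0)) (T.l 0)) (T.a (T.a (T.l 816) (T.l 816)) (T.b (T.l 0) (T.l 0)))) (T.b (T.a (T.a (T.l 816) (T.l 816)) (T.a (T.b (T.l 816) (T.l 0)) (T.l 0))) (T.a (T.a (T.b (T.l 816) (T.c (T.b (T.l 816) (T.b (T.l 816) (T.c (T.b (T.l 816) (T.b (T.l 816) (T.c (T.c (T.l 816) (T.l 816)) (T.a (T.l 816) (T.l 816))))) (T.a (T.c (T.l 816) (T.l 816)) (T.l 816))))) (T.b (T.l 816) (T.b (T.l 816) (T.b (T.l 816) (T.c (T.c (T.l 816) (T.l 816)) (T.c (T.l 816) (T.l 816)))))))) (T.a (T.c (T.b (T.l 816) (T.c (T.b (T.l 816) (T.l 816)) (T.l 816))) (T.c (T.l 816) (T.l 816))) (T.b (T.l 816) (T.b (T.l 816) (T.c (T.b (T.l 816) (T.c (T.a (T.l 816) (T.l 816))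 (T.a (T.l 816) (T.l 816)))) (T.a (T.l 816) (T.b (T.l 816) (T.l 816)))))))) (T.a (T.b (T.b (T.l 816) (T.l 816)) (T.c (T.b (T.l 816) (T.a (T.b (T.l 816) (T.c (T.b (T.l 816) (T.a (T.l 816) (T.c (T.l 816) (T.l 816)))) (T.a (T.l 816) (T.l 816)))) (T.b (T.l 816) (T.c (T.b (T.l 816) (T.b (T.l 816) (T.c (T.a (T.l 816) (T.l 816)) (T.l 880)))) (T.a (T.l 816) (T.l 816)))))) (T.b (T.l 816) (T.a (T.c (T.b (T.l 816) (T.l 816)) (T.l 816)) (T.c (T.l 880) (T.l 816)))))) (T.b (T.b (T.l 816) (T.l 816)) (T.c (T.b (T.l 816) (T.a (T.b (T.l 816) (T.c (T.b (T.l 816) (T.c (T.a (T.l 880) (T.b (T.l 816) (T.l 880))) (T.l 880))) (T.b (T.l 816) (T.l 880)))) (T.b (T.l 816) (T.c (T.b (T.l 816) (T.c (T.b (T.l 816) (T.b (T.l 880) (T.a (T.l 880) (T.a (T.l 880) (T.l 816))))) (T.a (T.l 816) (T.l 816)))) (T.a (T.l 816) (T.l 816)))))) (T.b (T.l 816) (T.b (T.l 816) (T.a (T.c (T.l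 816) (T.l 816)) (T.c (T.l 816) (T.l 816))))))))))), by decide +kernel⟩

def A202E_220 :
    ∃ t, chk3 (onCell 0 67108864 0 1073741824 134217728 67108864 (corT true 1 c0F cA202E gF2q2 gF2q0 gF0q2 gF1q2 true true)) t 1 1 1 = true :=
  ⟨(T.l 2), by decide +kernel⟩

def A202E_221 :
    ∃ t, chk3 (onCell 0 67108864 0 1073741824 134217728 67108864 (corT true 1 c0F cA202E gF2q2 gF2q0 gF1q2 gF2q2 true true)) t 1 1 1 = true :=
  ⟨(T.l 2), by decide +kernel⟩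

def A202E_222 :
    ∃ t, chk3 (onCell 0 67108864 0 1073741824 134217728 67108864 (corT true 1 c0F cA202E gF2q2 gF2q0 gF2q2 gF3q2 true false)) t 1 1 1 = true :=
  ⟨(T.b (T.b (T.a (T.a (T.l 816) (T.l 0)) (T.l 0)) (T.a (T.a (T.l 816) (T.l 816)) (T.b (T.l 0) (T.l 0)))) (T.b (T.a (T.a (T.l 816) (T.l 816)) (T.b (T.l 0) (T.l 0))) (T.a (T.a (T.b (T.l 816) (T.c (T.b (T.l 816) (T.b (T.l 816) (T.c (T.a (T.l 816) (T.l 816)) (T.l 816)))) (T.b (T.l 816) (T.c (T.l 816) (T.l 816))))) (T.b (T.l 816) (T.a (T.c (T.c (T.l 816) (T.l 816)) (T.c (T.l 816) (T.l 816))) (T.b (T.l 816) (T.c (T.b (T.l 816) (T.c (T.a (T.l 816) (T.l 816)) (T.a (T.l 816) (T.l 816)))) (T.a (T.l 816) (T.c (T.l 816) (T.l 816)))))))) (T.a (T.b (T.l 816) (T.c (T.b (T.l 816) (T.b (T.a (T.l 816) (T.l 816)) (T.a (T.c (T.a (T.l 816) (T.b (T.l 816) (T.l 816))) (T.a (T.l 816) (T.l 816))) (T.c (T.b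 (T.l 816) (T.c (T.a (T.l 816) (T.l 816)) (T.l 816))) (T.a (T.l 816) (T.l 816)))))) (T.b (T.l 816) (T.b (T.l 816) (T.a (T.c (T.b (T.l 816) (T.l 880)) (T.l 816)) (T.c (T.b (T.l 816) (T.l 880)) (T.l 816))))))) (T.b (T.l 816) (T.c (T.b (T.l 816) (T.b (T.l 816) (T.c (T.b (T.l 816) (T.a (T.c (T.a (T.l 816) (T.l 816)) (T.l 816)) (T.b (T.l 816) (T.c (T.a (T.l 816) (T.l 880)) (T.l 880))))) (T.b (T.l 816) (T.a (T.a (T.l 816) (T.l 816)) (T.c (T.l 816) (T.l 816))))))) (T.b (T.l 816) (T.b (T.l 816) (T.a (T.c (T.b (T.l 816) (T.l 816)) (T.l 816)) (T.c (T.b (T.l 816) (T.l 880)) (T.l 816))))))))))), by decide +kernel⟩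

end Pool.Agent.Strip051.G.I1_8_3_16.Tab.CF
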