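import Pool.Agent.Strip051.G.I1_8_3_16.Gn
import Pool.Agent.Strip051.PB.Corns

/-! # Certificates of the aligned corners (generated) -/

set_option linter.all false

namespace Pool.Agent.Strip051.G.I1_8_3_16.Tab.CF

open Pool.Agent.Strip051.PB

def A202R_004_1_4_1 :
    ∃ t, chk3 (onCell 0 67108864 0 1073741824 134217728 67108864 (corX 1 c0F cA202R tA202R gF0q2 gF0q0 gF4q2 gF5q2 gF5q2 false true)) t 1 4 1 = true :=
  ⟨(T.l 2), by decide +kernel⟩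

def A202R_004_2_5_1 :
    ∃ t, chk3 (onCell 0 67108864 0 1073741824 134217728 67108864 (corX 1 c0F cA202R tA202R gF0q2 gF0q0 gF4q2 gF5q2 gF5q2 false true)) t 2 5 1 = true :=
  ⟨(T.c (T.a (T.a (T.c (T.b (T.b (T.l 2) (T.c (T.a (T.a (T.c (T.l 819) (T.l 819)) (T.l 819)) (T.l 819)) (T.a (T.c (T.l 819) (T.l 819)) (T.l 819)))) (T.a (T.c (T.a (T.a (T.c (T.l 819) (T.l 819)) (T.l 819)) (T.l 819)) (T.a (T.c (T.l 819) (T.l 819)) (T.l 819))) (T.c (T.l 819) (T.l 819)))) (T.b (T.b (T.l 2) (T.a (T.c (T.b (T.l 819) (T.l 819)) (T.l 819)) (T.l 883))) (T.a (T.b (T.c (T.b (T.l 819) (T.l 819)) (T.b (T.l 819) (T.l 819))) (T.c (T.b (T.l 819) (T.l 819)) (T.b (T.l 819) (T.l 819)))) (T.b (T.l 883) (T.l 883))))) (T.c (T.b (T.b (T.l 2) (T.l 887)) (T.b (T.l 887) (T.l 887))) (T.a (T.b (T.l 819) (T.l 819)) (T.l 887)))) (T.b (T.b (T.l 2) (T.c (T.l 823) (T.l 823))) (T.c (T.a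 (T.l 823) (T.l 823)) (T.a (T.l 823) (T.l 823))))) (T.a (T.a (T.b (T.b (T.l 2) (T.c (T.a (T.c (T.l 819) (T.l 819)) (T.l 819)) (T.a (T.c (T.l 819) (T.l 819)) (T.l 819)))) (T.c (T.a (T.a (T.c (T.l 819) (T.l 819)) (T.l 883)) (T.l 883)) (T.a (T.a (T.b (T.l 819) (T.l 819)) (T.l 819)) (T.l 819)))) (T.b (T.b (T.l 2) (T.c (T.l 819) (T.l 819))) (T.c (T.b (T.l 819) (T.l 819)) (T.b (T.l 819) (T.l 819))))) (T.b (T.b (T.l 2) (T.c (T.l 823) (T.l 823))) (T.a (T.c (T.l 823) (T.l 823)) (T.c (T.l 823) (T.l 823)))))), by decide +kernel⟩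

def A202R_004_3_5_1 :
    ∃ t, chk3 (onCell 0 67108864 0 1073741824 134217728 67108864 (corX 1 c0F cA202R tA202R gF0q2 gF0q0 gF4q2 gF5q2 gF5q2 false true)) t 3 5 1 = true :=
  ⟨(T.b (T.b (T.l 2) (T.c (T.a (T.c (T.l 823) (T.l 823)) (T.b (T.l 823) (T.l 823))) (T.a (T.b (T.l 823) (T.l 823)) (T.l 823)))) (T.a (T.c (T.c (T.b (T.l 823) (T.l 823)) (T.b (T.l 823) (T.l 823))) (T.a (T.b (T.l 823) (T.l 823)) (T.b (T.l 823) (T.l 823)))) (T.b (T.c (T.b (T.l 823) (T.l 823)) (T.l 823)) (T.c (T.a (T.l 823) (T.b (T.l 823) (T.c (T.l 820) (T.l 820)))) (T.a (T.l 823) (T.b (T.l 823) (T.b (T.l 820) (T.l 820)))))))), by decide +kernel⟩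

def A202R_004_4_3_2 :
    ∃ t, chk3 (onCell 0 67108864 0 1073741824 134217728 67108864 (corX 1 c0F cA202R tA202R gF0q2 gF0q0 gF4q2 gF5q2 gF5q2 false true)) t 4 3 2 = true :=
  ⟨(T.b (T.a (T.c (T.b (T.a (T.c (T.a (T.a (T.c (T.l 819) (T.l 819)) (T.l 819)) (T.l 819)) (T.a (T.c (T.l 819) (T.l 819)) (T.l 819))) (T.c (T.l 819) (T.l 819))) (T.a (T.c (T.a (T.a (T.c (T.l 819) (T.l 819)) (T.l 819)) (T.l 819)) (T.a (T.c (T.l 819) (T.l 819)) (T.l 819))) (T.c (T.l 819) (T.l 819)))) (T.b (T.a (T.b (T.c (T.b (T.l 819) (T.l 819)) (T.b (T.l 819) (T.l 819))) (T.c (T.b (T.l 819) (T.l 819)) (T.b (T.l 819) (T.l 819)))) (T.b (T.l 883) (T.l 883))) (T.a (T.b (T.c (T.b (T.l 819) (T.l 819)) (T.b (T.l 819) (T.l 819))) (T.c (T.b (T.l 819) (T.l 819)) (T.b (T.l 819) (T.l 819)))) (T.c (T.l 819) (T.l 819))))) (T.c (T.b (T.a (T.l 887) (T.l 823)) (T.c (T.b (T.l 819) (T.l 819))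 (T.l 887))) (T.b (T.b (T.l 823) (T.l 823)) (T.a (T.l 823) (T.l 819))))) (T.a (T.c (T.b (T.a (T.c (T.a (T.a (T.c (T.l 819) (T.l 819)) (T.l 819)) (T.l 819)) (T.a (T.c (T.l 819) (T.l 819)) (T.l 819))) (T.c (T.l 819) (T.l 819))) (T.a (T.c (T.a (T.a (T.c (T.l 819) (T.l 819)) (T.l 819)) (T.l 819)) (T.a (T.c (T.l 819) (T.l 819)) (T.l 819))) (T.c (T.l 819) (T.l 819)))) (T.b (T.a (T.b (T.c (T.b (T.l 819) (T.l 819)) (T.b (T.l 819) (T.l 819))) (T.c (T.b (T.l 819) (T.l 819)) (T.b (T.l 819) (T.l 819)))) (T.c (T.l 819) (T.l 819))) (T.a (T.b (T.c (T.b (T.l 819) (T.l 819)) (T.b (T.l 819) (T.l 819))) (T.c (T.b (T.l 819) (T.l 819)) (T.b (T.l 819) (T.l 819)))) (T.c (T.l 819) (T.l 819))))) (T.c (T.b (T.b (T.b (T.l 823) (T.l 823)) (T.a (T.l 819) (T.l 819))) (T.b (T.a (T.l 823) (T.l 819)) (T.c (T.l 819) (T.l 819)))) (T.b (T.a (T.b (T.l 819) (T.l 819)) (T.l 823)) (T.b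 (T.b (T.l 823) (T.l 823)) (T.b (T.l 816) (T.l 816))))))), by decide +kernel⟩

def A202R_004_4_3_3 :
    ∃ t, chk3 (onCell 0 67108864 0 1073741824 134217728 67108864 (corX 1 c0F cA202R tA202R gF0q2 gF0q0 gF4q2 gF5q2 gF5q2 false true)) t 4 3 3 = true :=
  ⟨(T.b (T.a (T.b (T.c (T.a (T.b (T.c (T.l 819) (T.l 819)) (T.c (T.l 819) (T.l 819))) (T.b (T.l 819) (T.l 819))) (T.a (T.a (T.b (T.l 819) (T.l 819)) (T.l 819)) (T.l 819))) (T.c (T.a (T.b (T.c (T.l 819) (T.l 819)) (T.c (T.l 819) (T.l 819))) (T.b (T.l 819) (T.l 819))) (T.a (T.a (T.b (T.l 819) (T.l 819)) (T.l 819)) (T.l 819)))) (T.b (T.c (T.b (T.l 819) (T.l 823)) (T.b (T.l 819) (T.l 819))) (T.c (T.b (T.l 823) (T.l 823)) (T.b (T.l 819) (T.l 823))))) (T.a (T.b (T.c (T.a (T.b (T.c (T.l 819) (T.l 819)) (T.c (T.l 819) (T.l 819))) (T.b (T.l 819) (T.l 819))) (T.a (T.a (T.b (T.l 819) (T.l 883)) (T.l 819)) (T.l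 823))) (T.c (T.a (T.b (T.c (T.l 819) (T.l 819)) (T.c (T.l 819) (T.l 819))) (T.b (T.l 819) (T.l 819))) (T.a (T.a (T.c (T.l 819) (T.l 819)) (T.l 819)) (T.b (T.l 819) (T.l 819))))) (T.b (T.c (T.a (T.l 823) (T.l 819)) (T.a (T.l 819) (T.l 819))) (T.c (T.b (T.b (T.l 819) (T.l 819)) (T.b (T.l 819) (T.l 819))) (T.a (T.b (T.l 819) (T.l 819)) (T.l 819)))))), by decide +kernel⟩

def A202R_004_5_3_1 :
    ∃ t, chk3 (onCell 0 67108864 0 1073741824 134217728 67108864 (corX 1 c0F cA202R tA202R gF0q2 gF0q0 gF4q2 gF5q2 gF5q2 false true)) t 5 3 1 = true :=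
  ⟨(T.b (T.c (T.b (T.c (T.a (T.b (T.l 823) (T.l 823)) (T.l 823)) (T.a (T.b (T.l 819) (T.l 819)) (T.l 823))) (T.c (T.a (T.b (T.l 823) (T.l 823)) (T.b (T.l 823) (T.l 823))) (T.a (T.b (T.l 823) (T.l 823)) (T.b (T.l 819) (T.l 819))))) (T.b (T.a (T.c (T.l 823) (T.l 823)) (T.c (T.l 823) (T.l 823))) (T.a (T.c (T.b (T.l 819) (T.l 819)) (T.b (T.l 819) (T.l 819))) (T.c (T.b (T.l 819) (T.l 819)) (T.l 823))))) (T.a (T.c (T.c (T.b (T.a (T.l 823) (T.l 823)) (T.b (T.b (T.l 823) (T.l 823)) (T.b (T.l 820) (T.l 820)))) (T.b (T.b (T.l 823) (T.l 823)) (T.b (T.b (T.l 819) (T.l 819)) (T.b (T.l 819) (T.l 819))))) (T.b (T.c (T.b (T.l 823) (T.l 823)) (T.b (T.l 819) (T.l 823))) (T.c (T.a (T.l 823) (T.l 823)) (T.b (T.l 823) (T.l 820))))) (T.b (T.c (T.c (T.b (T.l 823) (T.l 823)) (T.b (T.l 823) (T.l 823))) (T.c (T.b (T.l 819) (T.l 823)) (T.b (T.l 819) (T.l 819)))) (T.c (T.a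 (T.c (T.b (T.l 819) (T.l 819)) (T.b (T.l 819) (T.l 819))) (T.c (T.b (T.l 819) (T.b (T.l 820) (T.l 820))) (T.b (T.l 819) (T.b (T.l 816) (T.l 816))))) (T.a (T.c (T.l 823) (T.l 819)) (T.b (T.c (T.l 819) (T.l 819)) (T.c (T.b (T.l 816) (T.l 816)) (T.b (T.l 816) (T.l 816))))))))), by decide +kernel⟩

def A202R_004_6_6_1 :
    ∃ t, chk3 (onCell 0 67108864 0 1073741824 134217728 67108864 (corX 1 c0F cA202R tA202R gF0q2 gF0q0 gF4q2 gF5q2 gF5q2 false true)) t 6 6 1 = true :=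
  ⟨(T.b (T.c (T.c (T.b (T.l 823) (T.l 823)) (T.b (T.l 823) (T.l 823))) (T.a (T.c (T.l 823) (T.l 823)) (T.b (T.l 823) (T.l 823)))) (T.a (T.c (T.c (T.b (T.l 819) (T.l 823)) (T.l 823)) (T.c (T.l 823) (T.l 823))) (T.c (T.b (T.c (T.b (T.l 820) (T.l 820)) (T.b (T.l 820) (T.l 820))) (T.c (T.b (T.l 820) (T.l 820)) (T.b (T.l 820) (T.l 820)))) (T.b (T.a (T.l 823) (T.b (T.l 820) (T.l 820))) (T.c (T.b (T.l 820) (T.l 820)) (T.b (T.l 820) (T.l 820))))))), by decide +kernel⟩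

def A202R_004_7_6_1 :
    ∃ t, chk3 (onCell 0 67108864 0 1073741824 134217728 67108864 (corX 1 c0F cA202R tA202R gF0q2 gF0q0 gF4q2 gF5q2 gF5q2 false true)) t 7 6 1 = true :=
  ⟨(T.b (T.c (T.b (T.a (T.b (T.l 823) (T.c (T.l 820) (T.l 820))) (T.c (T.b (T.l 820) (T.l 820)) (T.b (T.l 820) (T.l 820)))) (T.a (T.c (T.b (T.l 820) (T.l 820)) (T.b (T.l 820) (T.l 820))) (T.c (T.b (T.l 820) (T.l 820)) (T.b (T.l 820) (T.l 820))))) (T.b (T.a (T.b (T.l 823) (T.b (T.l 820) (T.l 820))) (T.b (T.b (T.l 820) (T.l 820)) (T.b (T.l 820) (T.l 820)))) (T.a (T.c (T.b (T.l 820) (T.l 820)) (T.b (T.l 816) (T.l 816))) (T.c (T.l 820) (T.l 820))))) (T.a (T.b (T.c (T.c (T.b (T.l 820) (T.l 820)) (T.b (T.l 820) (T.l 820))) (T.c (T.b (T.l 820) (T.l 816)) (T.l 820))) (T.c (T.a (T.c (T.l 820) (T.l 820)) (T.c (T.b (T.l 816) (T.l 820)) (T.b (T.l 816) (T.l 820)))) (T.a (T.b (T.l 820)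 (T.l 820)) (T.b (T.l 820) (T.b (T.l 820) (T.l 820)))))) (T.c (T.b (T.b (T.c (T.b (T.l 820) (T.l 820)) (T.b (T.l 820) (T.l 820))) (T.c (T.b (T.l 820) (T.l 820)) (T.b (T.l 820) (T.l 820)))) (T.a (T.c (T.b (T.l 820) (T.l 820)) (T.b (T.l 820) (T.l 816))) (T.c (T.b (T.l 820) (T.l 820)) (T.b (T.l 816) (T.l 816))))) (T.b (T.b (T.a (T.l 820) (T.b (T.l 820) (T.l 820))) (T.a (T.b (T.l 820) (T.l 820)) (T.b (T.l 820) (T.l 820)))) (T.a (T.c (T.b (T.l 816) (T.l 816)) (T.b (T.l 816) (T.l 816))) (T.b (T.l 820) (T.l 820))))))), by decide +kernel⟩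

def A202R_004_6_7_1 :
    ∃ t, chk3 (onCell 0 67108864 0 1073741824 134217728 67108864 (corX 1 c0F cA202R tA202R gF0q2 gF0q0 gF4q2 gF5q2 gF5q2 false true)) t 6 7 1 = true :=
  ⟨(T.a (T.c (T.b (T.c (T.b (T.a (T.l 819) (T.l 820)) (T.a (T.b (T.l 819) (T.l 816)) (T.l 820))) (T.b (T.a (T.l 819) (T.l 820)) (T.a (T.l 820) (T.l 820)))) (T.c (T.b (T.a (T.b (T.l 816) (T.l 816)) (T.l 820)) (T.a (T.b (T.l 816) (T.l 816)) (T.b (T.l 816) (T.l 816)))) (T.b (T.a (T.l 820) (T.l 820)) (T.a (T.b (T.l 816) (T.l 816)) (T.b (T.l 816) (T.l 816)))))) (T.b (T.b (T.a (T.c (T.l 819) (T.l 819)) (T.c (T.l 820) (T.l 820))) (T.c (T.a (T.l 820) (T.l 820)) (T.b (T.l 820) (T.l 820)))) (T.b (T.c (T.a (T.l 820) (T.l 820)) (T.a (T.l 820) (T.l 816))) (T.c (T.a (T.b (T.l 816) (T.l 816)) (T.l 820)) (T.a (T.b (T.l 816) (T.l 816)) (T.l 820)))))) (T.b (T.c (T.b (T.c (T.b (T.l 820) (T.l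 820)) (T.b (T.l 820) (T.l 820))) (T.a (T.c (T.l 820) (T.l 820)) (T.c (T.b (T.l 816) (T.l 820)) (T.b (T.l 816) (T.l 820))))) (T.b (T.c (T.b (T.l 820) (T.l 820)) (T.b (T.l 820) (T.l 820))) (T.a (T.c (T.l 820) (T.l 816)) (T.b (T.c (T.l 816) (T.l 816)) (T.c (T.l 820) (T.l 820)))))) (T.c (T.b (T.a (T.c (T.b (T.l 816) (T.b (T.l 816) (T.l 820))) (T.a (T.l 816) (T.l 820))) (T.c (T.b (T.l 820) (T.b (T.l 816) (T.l 816))) (T.b (T.l 820) (T.l 820)))) (T.a (T.c (T.b (T.b (T.l 820) (T.l 820)) (T.b (T.l 820) (T.l 820))) (T.a (T.b (T.l 816) (T.l 816)) (T.b (T.l 816) (T.l 816)))) (T.c (T.a (T.b (T.l 816) (T.l 816)) (T.l 820)) (T.b (T.l 820) (T.l 820))))) (T.b (T.a (T.c (T.b (T.l 816) (T.l 820)) (T.b (T.l 816) (T.l 820))) (T.c (T.b (T.l 820) (T.l 820)) (T.b (T.l 820) (T.l 816)))) (T.a (T.c (T.a (T.b (T.l 816) (T.l 816)) (T.l 820)) (T.b (T.l 820) (T.l 820))) (T.c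 (T.b (T.l 820) (T.l 816)) (T.b (T.l 816) (T.l 816)))))))), by decide +kernel⟩

def A202R_004_7_14_1 :
    ∃ t, chk3 (onCell 0 67108864 0 1073741824 134217728 67108864 (corX 1 c0F cA202R tA202R gF0q2 gF0q0 gF4q2 gF5q2 gF5q2 false true)) t 7 14 1 = true :=
  ⟨(T.a (T.c (T.b (T.a (T.c (T.b (T.l 816) (T.l 820)) (T.b (T.l 816) (T.l 820))) (T.c (T.b (T.l 820) (T.l 820)) (T.b (T.l 820) (T.l 820)))) (T.a (T.c (T.b (T.l 820) (T.l 820)) (T.b (T.l 820) (T.l 820))) (T.c (T.b (T.l 820) (T.l 820)) (T.b (T.l 816) (T.l 816))))) (T.b (T.a (T.b (T.b (T.l 820) (T.l 820)) (T.c (T.l 820) (T.l 816))) (T.c (T.b (T.l 816) (T.l 816)) (T.b (T.l 816) (T.l 816)))) (T.a (T.c (T.b (T.l 820) (T.l 816)) (T.b (T.l 816) (T.l 816))) (T.c (T.b (T.l 816) (T.l 816)) (T.b (T.l 816) (T.l 816)))))) (T.c (T.b (T.c (T.a (T.b (T.l 820) (T.l 820)) (T.b (T.l 816) (T.l 816))) (T.a (T.b (T.l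 816) (T.l 816)) (T.l 820))) (T.c (T.a (T.b (T.l 816) (T.l 816)) (T.b (T.l 816) (T.l 816))) (T.a (T.b (T.l 816) (T.l 816)) (T.l 820)))) (T.b (T.a (T.c (T.l 820) (T.l 820)) (T.b (T.l 820) (T.l 820))) (T.a (T.c (T.l 820) (T.l 820)) (T.b (T.l 820) (T.l 820)))))), by decide +kernel⟩

def A202R_004_7_15_1 :
    ∃ t, chk3 (onCell 0 67108864 0 1073741824 134217728 67108864 (corX 1 c0F cA202R tA202R gF0q2 gF0q0 gF4q2 gF5q2 gF5q2 false true)) t 7 15 1 = true :=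
  ⟨(T.a (T.c (T.b (T.c (T.a (T.b (T.l 820) (T.l 820)) (T.b (T.l 820) (T.l 820))) (T.a (T.b (T.l 820) (T.l 816)) (T.b (T.l 816) (T.l 816)))) (T.c (T.a (T.b (T.l 820) (T.l 820)) (T.b (T.l 816) (T.l 816))) (T.a (T.b (T.l 816) (T.l 816)) (T.b (T.l 816) (T.l 816))))) (T.b (T.a (T.c (T.b (T.l 816) (T.l 816)) (T.b (T.l 816) (T.l 816))) (T.c (T.b (T.l 816) (T.l 816)) (T.b (T.l 816) (T.l 816)))) (T.a (T.c (T.b (T.l 816) (T.l 816)) (T.b (T.l 816) (T.l 816))) (T.c (T.b (T.l 816) (T.l 816)) (T.b (T.l 816) (T.l 816)))))) (T.c (T.b (T.c (T.a (T.b (T.l 816) (T.l 816)) (T.b (T.l 816) (T.l 816))) (T.a (T.b (T.l 816) (T.l 816)) (T.l 820))) (T.c (T.a (T.b (T.l 816) (T.l 816)) (T.b (T.l 816) (T.l 816))) (T.a (T.b (T.l 816) (T.l 816)) (T.l 820)))) (T.b (T.a (T.c (T.l 820) (T.l 820)) (T.c (T.l 820) (T.l 820))) (T.a (T.c (T.l 820) (T.l 820)) (T.c (T.l 820) (T.l 816)))))),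 by decide +kernel⟩

theorem A202R_004_7_7_1 :
    ∃ t, chk3 (onCell 0 67108864 0 1073741824 134217728 67108864 (corX 1 c0F cA202R tA202R gF0q2 gF0q0 gF4q2 gF5q2 gF5q2 false true)) t 7 7 1 = true :=
  ex3_b A202R_004_7_14_1 A202R_004_7_15_1
theorem A202R_004_3_7_1 :
    ∃ t, chk3 (onCell 0 67108864 0 1073741824 134217728 67108864 (corX 1 c0F cA202R tA202R gF0q2 gF0q0 gF4q2 gF5q2 gF5q2 false true)) t 3 7 1 = true :=
  ex3_a A202R_004_6_7_1 A202R_004_7_7_1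
theorem A202R_004_3_6_1 :
    ∃ t, chk3 (onCell 0 67108864 0 1073741824 134217728 67108864 (corX 1 c0F cA202R tA202R gF0q2 gF0q0 gF4q2 gF5q2 gF5q2 false true)) t 3 6 1 = true :=
  ex3_a A202R_004_6_6_1 A202R_004_7_6_1
theorem A202R_004_3_3_1 :
    ∃ t, chk3 (onCell 0 67108864 0 1073741824 134217728 67108864 (corX 1 c0F cA202R tA202R gF0q2 gF0q0 gF4q2 gF5q2 gF5q2 false true)) t 3 3 1 = true :=
  ex3_b A202R_004_3_6_1 A202R_004_3_7_1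
theorem A202R_004_4_3_1 :
    ∃ t, chk3 (onCell 0 67108864 0 1073741824 134217728 67108864 (corX 1 c0F cA202R tA202R gF0q2 gF0q0 gF4q2 gF5q2 gF5q2 false true)) t 4 3 1 = true :=
  ex3_c A202R_004_4_3_2 A202R_004_4_3_3
theorem A202R_004_2_3_1 :
    ∃ t, chk3 (onCell 0 67108864 0 1073741824 134217728 67108864 (corX 1 c0F cA202R tA202R gF0q2 gF0q0 gF4q2 gF5q2 gF5q2 false true)) t 2 3 1 = true :=
  ex3_a A202R_004_4_3_1 A202R_004_5_3_1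
theorem A202R_004_1_3_1 :
    ∃ t, chk3 (onCell 0 67108864 0 1073741824 134217728 67108864 (corX 1 c0F cA202R tA202R gF0q2 gF0q0 gF4q2 gF5q2 gF5q2 false true)) t 1 3 1 = true :=
  ex3_a A202R_004_2_3_1 A202R_004_3_3_1
theorem A202R_004_1_5_1 :
    ∃ t, chk3 (onCell 0 67108864 0 1073741824 134217728 67108864 (corX 1 c0F cA202R tA202R gF0q2 gF0q0 gF4q2 gF5q2 gF5q2 false true)) t 1 5 1 = true :=
  ex3_a A202R_004_2_5_1 A202R_004_3_5_1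
theorem A202R_004_1_2_1 :
    ∃ t, chk3 (onCell 0 67108864 0 1073741824 134217728 67108864 (corX 1 c0F cA202R tA202R gF0q2 gF0q0 gF4q2 gF5q2 gF5q2 false true)) t 1 2 1 = true :=
  ex3_b A202R_004_1_4_1 A202R_004_1_5_1
theorem A202R_004 :
    ∃ t, chk3 (onCell 0 67108864 0 1073741824 134217728 67108864 (corX 1 c0F cA202R tA202R gF0q2 gF0q0 gF4q2 gF5q2 gF5q2 false true)) t 1 1 1 = true :=
  ex3_b A202R_004_1_2_1 A202R_004_1_3_1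

def A202R_014_1_2_1 :
    ∃ t, chk3 (onCell 0 67108864 0 1073741824 134217728 67108864 (corT true 1 c0F cA202R gF0q2 gF1q0 gF4q2 gF5q2 false true)) t 1 2 1 = true :=
  ⟨(T.l 2), by decide +kernel⟩

def A202R_014_1_6_1 :
    ∃ t, chk3 (onCell 0 67108864 0 1073741824 134217728 67108864 (corT true 1 c0F cA202R gF0q2 gF1q0 gF4q2 gF5q2 false true)) t 1 6 1 = true :=
  ⟨(T.a (T.l 0) (T.a (T.b (T.l 0) (T.l 816)) (T.b (T.l 0) (T.b (T.l 816) (T.l 816))))), by decide +kernel⟩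

def A202R_014_1_14_1 :
    ∃ t, chk3 (onCell 0 67108864 0 1073741824 134217728 67108864 (corT true 1 c0F cA202R gF0q2 gF1q0 gF4q2 gF5q2 false true)) t 1 14 1 = true :=
  ⟨(T.a (T.c (T.l 816) (T.l 816)) (T.a (T.a (T.b (T.l 816) (T.l 820)) (T.b (T.l 816) (T.c (T.l 816) (T.l 816)))) (T.b (T.b (T.l 816) (T.l 816)) (T.c (T.b (T.l 816) (T.l 816)) (T.b (T.l 816) (T.l 816)))))), by decide +kernel⟩

def A202R_014_1_15_1 :
    ∃ t, chk3 (onCell 0 67108864 0 1073741824 134217728 67108864 (corT true 1 c0F cA202R gF0q2 gF1q0 gF4q2 gF5q2 false true)) t 1 15 1 = true :=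
  ⟨(T.a (T.a (T.c (T.b (T.l 816) (T.c (T.b (T.l 816) (T.b (T.l 816) (T.a (T.c (T.c (T.l 816) (T.l 816)) (T.a (T.l 816) (T.l 816))) (T.l 816)))) (T.b (T.l 816) (T.a (T.a (T.c (T.l 816) (T.l 816)) (T.l 816)) (T.l 816))))) (T.b (T.l 816) (T.b (T.l 816) (T.c (T.a (T.c (T.l 816) (T.l 816)) (T.l 816)) (T.a (T.c (T.l 816) (T.l 816)) (T.l 816)))))) (T.a (T.c (T.b (T.l 816) (T.b (T.l 816) (T.c (T.l 816) (T.l 816)))) (T.b (T.l 816) (T.c (T.b (T.l 816) (T.l 816)) (T.l 820)))) (T.c (T.b (T.l 816) (T.c (T.a (T.l 816) (T.b (T.l 816) (T.l 820))) (T.a (T.l 816) (T.b (T.l 816) (T.l 816))))) (T.b (T.l 816) (T.b (T.l 816) (T.c (T.a (T.l 816) (T.l 816)) (T.a (T.l 816) (T.l 816)))))))) (T.a (T.a (T.c (T.b (T.l 816) (T.c (T.b (T.l 816) (T.a (T.l 816) (T.l 816))) (T.b (T.l 816) (T.a (T.l 816) (T.l 816))))) (T.b (T.l 816) (T.b (T.l 816) (T.c (T.a (T.l 816) (T.l 816))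 (T.a (T.l 816) (T.l 816)))))) (T.c (T.b (T.b (T.l 816) (T.l 816)) (T.b (T.c (T.l 816) (T.l 816)) (T.c (T.b (T.l 816) (T.a (T.l 820) (T.l 816))) (T.a (T.b (T.l 816) (T.l 816)) (T.l 820))))) (T.b (T.b (T.l 816) (T.l 816)) (T.b (T.b (T.l 816) (T.l 820)) (T.a (T.c (T.b (T.l 816) (T.l 816)) (T.l 820)) (T.c (T.l 816) (T.l 816))))))) (T.b (T.c (T.a (T.b (T.l 816) (T.l 816)) (T.l 816)) (T.a (T.l 816) (T.l 816))) (T.c (T.a (T.b (T.c (T.l 816) (T.l 816)) (T.c (T.a (T.l 820) (T.l 816)) (T.a (T.l 816) (T.l 816)))) (T.b (T.b (T.l 816) (T.l 816)) (T.c (T.a (T.l 816) (T.l 816)) (T.b (T.l 816) (T.l 820))))) (T.a (T.b (T.l 820) (T.c (T.a (T.l 816) (T.l 816)) (T.a (T.l 816) (T.l 816)))) (T.b (T.l 816) (T.b (T.l 820) (T.c (T.l 816) (T.l 816))))))))), by decide +kernel⟩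

theorem A202R_014_1_7_1 :
    ∃ t, chk3 (onCell 0 67108864 0 1073741824 134217728 67108864 (corT true 1 c0F cA202R gF0q2 gF1q0 gF4q2 gF5q2 false true)) t 1 7 1 = true :=
  ex3_b A202R_014_1_14_1 A202R_014_1_15_1
theorem A202R_014_1_3_1 :
    ∃ t, chk3 (onCell 0 67108864 0 1073741824 134217728 67108864 (corT true 1 c0F cA202R gF0q2 gF1q0 gF4q2 gF5q2 false true)) t 1 3 1 = true :=
  ex3_b A202R_014_1_6_1 A202R_014_1_7_1
theorem A202R_014 :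
    ∃ t, chk3 (onCell 0 67108864 0 1073741824 134217728 67108864 (corT true 1 c0F cA202R gF0q2 gF1q0 gF4q2 gF5q2 false true)) t 1 1 1 = true :=
  ex3_b A202R_014_1_2_1 A202R_014_1_3_1

def A202R_024_1_2_1 :
    ∃ t, chk3 (onCell 0 67108864 0 1073741824 134217728 67108864 (corT true 1 c0F cA202R gF0q2 gF2q0 gF4q2 gF5q2 false true)) t 1 2 1 = true :=
  ⟨(T.l 2), by decide +kernel⟩

def A202R_024_1_6_1 :
    ∃ t, chk3 (onCell 0 67108864 0 1073741824 134217728 67108864 (corT true 1 c0F cA202R gF0q2 gF2q0 gF4q2 gF5q2 false true)) t 1 6 1 = true :=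
  ⟨(T.a (T.l 0) (T.a (T.b (T.l 2) (T.l 816)) (T.b (T.l 816) (T.b (T.l 816) (T.l 816))))), by decide +kernel⟩

def A202R_024_1_14_1 :
    ∃ t, chk3 (onCell 0 67108864 0 1073741824 134217728 67108864 (corT true 1 c0F cA202R gF0q2 gF2q0 gF4q2 gF5q2 false true)) t 1 14 1 = true :=
  ⟨(T.a (T.b (T.l 816) (T.l 816)) (T.a (T.a (T.l 816) (T.b (T.l 816) (T.l 816))) (T.b (T.l 816) (T.b (T.l 816) (T.l 820))))), by decide +kernel⟩

def A202R_024_1_15_1 :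
    ∃ t, chk3 (onCell 0 67108864 0 1073741824 134217728 67108864 (corT true 1 c0F cA202R gF0q2 gF2q0 gF4q2 gF5q2 false true)) t 1 15 1 = true :=
  ⟨(T.a (T.a (T.c (T.b (T.l 816) (T.b (T.l 816) (T.c (T.b (T.l 816) (T.a (T.b (T.l 816) (T.c (T.c (T.l 816) (T.l 816)) (T.a (T.l 816) (T.l 816)))) (T.l 816))) (T.a (T.a (T.c (T.l 816) (T.l 816)) (T.l 816)) (T.l 816))))) (T.b (T.l 816) (T.b (T.l 816) (T.b (T.l 816) (T.c (T.a (T.c (T.l 816) (T.l 816)) (T.l 816)) (T.a (T.a (T.l 816) (T.l 816)) (T.l 816))))))) (T.b (T.c (T.l 816) (T.l 816)) (T.c (T.a (T.b (T.l 816) (T.c (T.l 820) (T.l 816))) (T.b (T.l 816) (T.c (T.a (T.l 816) (T.l 820)) (T.a (T.l 816) (T.l 816))))) (T.a (T.b (T.l 816) (T.c (T.l 816) (T.l 816))) (T.b (T.l 816) (T.b (T.l 820) (T.c (T.a (T.l 816) (T.l 816)) (T.a (T.l 816) (T.l 816))))))))) (T.a (T.a (T.c (T.b (T.l 816) (T.b (T.l 816) (T.c (T.a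 (T.l 816) (T.l 816)) (T.a (T.l 816) (T.l 816))))) (T.b (T.l 816) (T.b (T.l 816) (T.b (T.l 816) (T.c (T.a (T.l 816) (T.l 816)) (T.a (T.l 816) (T.l 816))))))) (T.b (T.c (T.l 816) (T.l 816)) (T.c (T.b (T.b (T.l 816) (T.l 816)) (T.c (T.b (T.l 816) (T.a (T.l 820) (T.l 816))) (T.a (T.b (T.l 816) (T.l 816)) (T.l 820)))) (T.b (T.l 816) (T.a (T.b (T.l 816) (T.c (T.l 816) (T.l 816))) (T.c (T.l 816) (T.l 816))))))) (T.b (T.c (T.a (T.l 816) (T.l 816)) (T.b (T.l 816) (T.l 816))) (T.c (T.a (T.b (T.l 816) (T.c (T.a (T.l 820) (T.l 816)) (T.a (T.l 816) (T.l 816)))) (T.b (T.l 816) (T.c (T.a (T.l 816) (T.l 816)) (T.b (T.l 816) (T.l 820))))) (T.a (T.b (T.l 816) (T.b (T.l 816) (T.c (T.a (T.l 816) (T.l 816)) (T.a (T.l 816) (T.l 816))))) (T.b (T.l 816) (T.b (T.l 816) (T.c (T.l 816) (T.l 816))))))))), by decide +kernel⟩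

theorem A202R_024_1_7_1 :
    ∃ t, chk3 (onCell 0 67108864 0 1073741824 134217728 67108864 (corT true 1 c0F cA202R gF0q2 gF2q0 gF4q2 gF5q2 false true)) t 1 7 1 = true :=
  ex3_b A202R_024_1_14_1 A202R_024_1_15_1
theorem A202R_024_1_3_1 :
    ∃ t, chk3 (onCell 0 67108864 0 1073741824 134217728 67108864 (corT true 1 c0F cA202R gF0q2 gF2q0 gF4q2 gF5q2 false true)) t 1 3 1 = true :=
  ex3_b A202R_024_1_6_1 A202R_024_1_7_1
theorem A202R_024 :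
    ∃ t, chk3 (onCell 0 67108864 0 1073741824 134217728 67108864 (corT true 1 c0F cA202R gF0q2 gF2q0 gF4q2 gF5q2 false true)) t 1 1 1 = true :=
  ex3_b A202R_024_1_2_1 A202R_024_1_3_1

def A202R_114 :
    ∃ t, chk3 (onCell 0 67108864 0 1073741824 134217728 67108864 (corT true 1 c0F cA202R gF1q2 gF1q0 gF4q2 gF5q2 false true)) t 1 1 1 = true :=
  ⟨(T.b (T.l 2) (T.b (T.l 2) (T.b (T.a (T.l 816) (T.a (T.b (T.l 0) (T.l 0)) (T.b (T.l 0) (T.l 816)))) (T.a (T.a (T.c (T.l 816) (T.l 816)) (T.a (T.c (T.l 816) (T.l 816)) (T.c (T.b (T.l 816) (T.l 816)) (T.l 816)))) (T.a (T.c (T.b (T.l 816) (T.a (T.l 816) (T.l 816))) (T.a (T.l 816) (T.l 816))) (T.c (T.b (T.l 816) (T.a (T.l 816) (T.l 816))) (T.b (T.l 816) (T.l 816)))))))), by decide +kernel⟩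

def A202R_124 :
    ∃ t, chk3 (onCell 0 67108864 0 1073741824 134217728 67108864 (corT true 1 c0F cA202R gF1q2 gF2q0 gF4q2 gF5q2 false true)) t 1 1 1 = true :=
  ⟨(T.b (T.l 2) (T.b (T.l 2) (T.b (T.b (T.l 2) (T.a (T.l 816) (T.a (T.l 816) (T.l 816)))) (T.a (T.a (T.c (T.l 816) (T.l 816)) (T.b (T.l 816) (T.a (T.c (T.l 816) (T.l 816)) (T.c (T.l 816) (T.l 816))))) (T.a (T.c (T.b (T.l 816) (T.a (T.l 816) (T.l 816))) (T.a (T.l 816) (T.l 816))) (T.c (T.b (T.l 816) (T.a (T.l 816) (T.l 816))) (T.b (T.l 816) (T.l 816)))))))), by decide +kernel⟩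

def A202R_224 :
    ∃ t, chk3 (onCell 0 67108864 0 1073741824 134217728 67108864 (corT true 1 c0F cA202R gF2q2 gF2q0 gF4q2 gF5q2 false true)) t 1 1 1 = true :=
  ⟨(T.l 2), by decide +kernel⟩

def B011E_000 :
    ∃ t, chk3 (onCell 0 67108864 0 1073741824 134217728 67108864 (corT true 1 c0F cB011E gF0q0 gF0q1 gF0q1 gF1q1 true false)) t 1 1 1 = true :=
  ⟨(T.l 1), by decide +kernel⟩

def B011E_100 :
    ∃ t, chk3 (onCell 0 67108864 0 1073741824 134217728 67108864 (corT true 1 c0F cB011E gF1q0 gF0q1 gF0q1 gF1q1 true false)) t 1 1 1 = true :=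
  ⟨(T.l 1), by decide +kernel⟩

def B011E_200 :
    ∃ t, chk3 (onCell 0 67108864 0 1073741824 134217728 67108864 (corT true 1 c0F cB011E gF2q0 gF0q1 gF0q1 gF1q1 true false)) t 1 1 1 = true :=
  ⟨(T.b (T.l 1) (T.l 1)), by decide +kernel⟩

def B011L_030 :
    ∃ t, chk3 (onCell 0 67108864 0 1073741824 134217728 67108864 (corT true 1 c0F cB011L gF0q0 gF3q1 gF0q1 gF1q1 true false)) t 1 1 1 = true :=
  ⟨(T.l 1), by decide +kernel⟩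

def B011L_040 :
    ∃ t, chk3 (onCell 0 67108864 0 1073741824 134217728 67108864 (corT true 1 c0F cB011L gF0q0 gF4q1 gF0q1 gF1q1 true false)) t 1 1 1 = true :=
  ⟨(T.l 1), by decide +kernel⟩

def B011L_050 :
    ∃ t, chk3 (onCell 0 67108864 0 1073741824 134217728 67108864 (corT true 1 c0F cB011L gF0q0 gF5q1 gF0q1 gF1q1 true false)) t 1 1 1 = true :=
  ⟨(T.l 1), by decide +kernel⟩

def B011L_130 :
    ∃ t, chk3 (onCell 0 67108864 0 1073741824 134217728 67108864 (corT true 1 c0F cB011L gF1q0 gF3q1 gF0q1 gF1q1 true false)) t 1 1 1 = true :=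
  ⟨(T.l 1), by decide +kernel⟩

def B011L_140 :
    ∃ t, chk3 (onCell 0 67108864 0 1073741824 134217728 67108864 (corT true 1 c0F cB011L gF1q0 gF4q1 gF0q1 gF1q1 true false)) t 1 1 1 = true :=
  ⟨(T.l 1), by decide +kernel⟩

def B011L_150 :
    ∃ t, chk3 (onCell 0 67108864 0 1073741824 134217728 67108864 (corT true 1 c0F cB011L gF1q0 gF5q1 gF0q1 gF1q1 true false)) t 1 1 1 = true :=
  ⟨(T.l 1), by decide +kernel⟩

def B011L_230 :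
    ∃ t, chk3 (onCell 0 67108864 0 1073741824 134217728 67108864 (corT true 1 c0F cB011L gF2q0 gF3q1 gF0q1 gF1q1 true false)) t 1 1 1 = true :=
  ⟨(T.l 1), by decide +kernel⟩

def B011L_240 :
    ∃ t, chk3 (onCell 0 67108864 0 1073741824 134217728 67108864 (corT true 1 c0F cB011L gF2q0 gF4q1 gF0q1 gF1q1 true false)) t 1 1 1 = true :=
  ⟨(T.l 1), by decide +kernel⟩

def B011L_250 :
    ∃ t, chk3 (onCell 0 67108864 0 1073741824 134217728 67108864 (corT true 1 c0F cB011L gF2q0 gF5q1 gF0q1 gF1q1 true false)) t 1 1 1 = true :=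
  ⟨(T.l 1), by decide +kernel⟩

def B011R_002_2_16_1 :
    ∃ t, chk3 (onCell 0 67108864 0 1073741824 134217728 67108864 (corT true 1 c0F cB011R gF0q0 gF0q1 gF2q1 gF3q1 false true)) t 2 16 1 = true :=
  ⟨(T.c (T.c (T.a (T.c (T.b (T.b (T.c (T.l 204) (T.l 204)) (T.l 204)) (T.a (T.l 204) (T.l 204))) (T.b (T.a (T.l 204) (T.l 204)) (T.l 204))) (T.c (T.b (T.l 204) (T.l 204)) (T.l 220))) (T.a (T.c (T.b (T.l 204) (T.l 204)) (T.b (T.l 204) (T.l 204))) (T.c (T.l 204) (T.l 204)))) (T.c (T.a (T.c (T.l 204) (T.l 204)) (T.b (T.l 204) (T.l 204))) (T.a (T.l 204) (T.l 204)))), by decide +kernel⟩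

def B011R_002_3_16_1 :
    ∃ t, chk3 (onCell 0 67108864 0 1073741824 134217728 67108864 (corT true 1 c0F cB011R gF0q0 gF0q1 gF2q1 gF3q1 false true)) t 3 16 1 = true :=
  ⟨(T.a (T.c (T.c (T.c (T.b (T.b (T.c (T.l 460) (T.l 460)) (T.l 460)) (T.l 460)) (T.b (T.c (T.l 460) (T.l 460)) (T.l 204))) (T.b (T.c (T.a (T.l 204) (T.l 460)) (T.l 460)) (T.a (T.l 204) (T.l 460)))) (T.c (T.b (T.c (T.l 460) (T.l 204)) (T.l 204)) (T.c (T.l 460) (T.l 204)))) (T.c (T.c (T.a (T.c (T.b (T.a (T.b (T.c (T.a (T.l 460) (T.b (T.l 460) (T.l 460))) (T.a (T.l 460) (T.l 460))) (T.a (T.l 460) (T.l 460))) (T.b (T.c (T.b (T.l 460) (T.l 460)) (T.l 460)) (T.l 460))) (T.a (T.l 460) (T.l 460))) (T.b (T.a (T.b (T.c (T.b (T.l 460) (T.l 460)) (T.l 460)) (T.l 460)) (T.c (T.b (T.l 460) (T.l 204)) (T.l 460))) (T.a (T.l 204) (T.l 204)))) (T.b (T.c (T.a (T.b (T.c (T.l 460) (T.l 460)) (T.l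 460)) (T.b (T.c (T.b (T.l 460) (T.l 460)) (T.l 460)) (T.l 460))) (T.a (T.c (T.l 460) (T.l 460)) (T.b (T.c (T.l 460) (T.l 460)) (T.l 460)))) (T.c (T.l 460) (T.l 460)))) (T.a (T.c (T.b (T.a (T.c (T.l 460) (T.l 460)) (T.c (T.l 460) (T.l 460))) (T.b (T.l 460) (T.l 204))) (T.b (T.a (T.a (T.l 204) (T.l 460)) (T.l 460)) (T.l 460))) (T.b (T.c (T.b (T.a (T.l 460) (T.a (T.l 460) (T.l 460))) (T.l 460)) (T.a (T.l 460) (T.b (T.l 460) (T.l 204)))) (T.c (T.l 460) (T.l 204))))) (T.a (T.c (T.b (T.c (T.a (T.l 460) (T.l 460)) (T.a (T.l 460) (T.l 204))) (T.a (T.l 460) (T.l 204))) (T.b (T.a (T.c (T.l 204) (T.l 204)) (T.b (T.l 460) (T.l 204))) (T.b (T.l 460) (T.l 204)))) (T.c (T.b (T.c (T.a (T.l 460) (T.l 460)) (T.a (T.l 204) (T.l 460))) (T.l 460)) (T.b (T.b (T.a (T.l 460) (T.c (T.l 204) (T.l 204))) (T.l 460)) (T.l 204)))))), by decide +kernel⟩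

def B011R_002_1_17_1 :
    ∃ t, chk3 (onCell 0 67108864 0 1073741824 134217728 67108864 (corT true 1 c0F cB011R gF0q0 gF0q1 gF2q1 gF3q1 false true)) t 1 17 1 = true :=
  ⟨(T.b (T.b (T.b (T.b (T.b (T.a (T.c (T.c (T.a (T.l 204) (T.l 204)) (T.l 204)) (T.c (T.l 204) (T.l 204))) (T.b (T.a (T.c (T.c (T.l 204) (T.l 204)) (T.l 460)) (T.c (T.c (T.a (T.a (T.l 460) (T.l 204)) (T.l 460)) (T.a (T.l 460) (T.l 204))) (T.c (T.a (T.l 204) (T.l 204)) (T.a (T.l 204) (T.l 204))))) (T.a (T.c (T.c (T.l 204) (T.l 204)) (T.l 460)) (T.b (T.c (T.c (T.a (T.a (T.l 460) (T.l 204)) (T.l 460)) (T.a (T.l 460) (T.l 204))) (T.c (T.a (T.l 204) (T.l 204)) (T.a (T.l 204) (T.l 204)))) (T.c (T.c (T.a (T.a (T.l 460) (T.l 204)) (T.l 460)) (T.a (T.l 460) (T.l 204))) (T.c (T.a (T.l 204) (T.l 204)) (T.a (T.l 204) (T.l 204)))))))) (T.a (T.c (T.c (T.a (T.l 204) (T.l 204)) (T.l 204)) (T.c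 (T.l 204) (T.l 204))) (T.b (T.a (T.c (T.c (T.l 204) (T.l 204)) (T.l 460)) (T.b (T.c (T.c (T.a (T.a (T.l 460) (T.l 204)) (T.l 460)) (T.a (T.l 460) (T.l 204))) (T.c (T.a (T.l 204) (T.l 204)) (T.a (T.l 204) (T.l 204)))) (T.c (T.a (T.c (T.a (T.l 460) (T.l 204)) (T.l 204)) (T.c (T.l 460) (T.l 204))) (T.c (T.a (T.l 204) (T.l 204)) (T.a (T.l 204) (T.l 204)))))) (T.a (T.c (T.c (T.l 204) (T.l 204)) (T.l 460)) (T.b (T.c (T.a (T.c (T.a (T.l 460) (T.l 204)) (T.l 204)) (T.c (T.l 460) (T.l 204))) (T.a (T.c (T.l 204) (T.l 204)) (T.c (T.l 204) (T.l 204)))) (T.l 2)))))) (T.a (T.b (T.a (T.b (T.b (T.c (T.c (T.l 204) (T.l 204)) (T.c (T.l 204) (T.l 204))) (T.l 2)) (T.l 2)) (T.l 2)) (T.l 2)) (T.l 2))) (T.l 2)) (T.l 2)) (T.l 2)), by decide +kernel⟩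

def B011R_002_1_9_1 :
    ∃ t, chk3 (onCell 0 67108864 0 1073741824 134217728 67108864 (corT true 1 c0F cB011R gF0q0 gF0q1 gF2q1 gF3q1 false true)) t 1 9 1 = true :=
  ⟨(T.l 2), by decide +kernel⟩

def B011R_002_1_5_1 :
    ∃ t, chk3 (onCell 0 67108864 0 1073741824 134217728 67108864 (corT true 1 c0F cB011R gF0q0 gF0q1 gF2q1 gF3q1 false true)) t 1 5 1 = true :=
  ⟨(T.l 2), by decide +kernel⟩

def B011R_002_1_3_1 :
    ∃ t, chk3 (onCell 0 67108864 0 1073741824 134217728 67108864 (corT true 1 c0F cB011R gF0q0 gF0q1 gF2q1 gF3q1 false true)) t 1 3 1 = true :=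
  ⟨(T.l 2), by decide +kernel⟩

theorem B011R_002_1_16_1 :
    ∃ t, chk3 (onCell 0 67108864 0 1073741824 134217728 67108864 (corT true 1 c0F cB011R gF0q0 gF0q1 gF2q1 gF3q1 false true)) t 1 16 1 = true :=
  ex3_a B011R_002_2_16_1 B011R_002_3_16_1
theorem B011R_002_1_8_1 :
    ∃ t, chk3 (onCell 0 67108864 0 1073741824 134217728 67108864 (corT true 1 c0F cB011R gF0q0 gF0q1 gF2q1 gF3q1 false true)) t 1 8 1 = true :=
  ex3_b B011R_002_1_16_1 B011R_002_1_17_1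
theorem B011R_002_1_4_1 :
    ∃ t, chk3 (onCell 0 67108864 0 1073741824 134217728 67108864 (corT true 1 c0F cB011R gF0q0 gF0q1 gF2q1 gF3q1 false true)) t 1 4 1 = true :=
  ex3_b B011R_002_1_8_1 B011R_002_1_9_1
theorem B011R_002_1_2_1 :
    ∃ t, chk3 (onCell 0 67108864 0 1073741824 134217728 67108864 (corT true 1 c0F cB011R gF0q0 gF0q1 gF2q1 gF3q1 false true)) t 1 2 1 = true :=
  ex3_b B011R_002_1_4_1 B011R_002_1_5_1
theorem B011R_002 :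
    ∃ t, chk3 (onCell 0 67108864 0 1073741824 134217728 67108864 (corT true 1 c0F cB011R gF0q0 gF0q1 gF2q1 gF3q1 false true)) t 1 1 1 = true :=
  ex3_b B011R_002_1_2_1 B011R_002_1_3_1

def B011R_003_1_8_1 :
    ∃ t, chk3 (onCell 0 67108864 0 1073741824 134217728 67108864 (corT true 1 c0F cB011R gF0q0 gF0q1 gF3q1 gF4q1 true true)) t 1 8 1 = true :=
  ⟨(T.b (T.l 1) (T.a (T.c (T.c (T.a (T.c (T.b (T.l 204) (T.l 204)) (T.l 204)) (T.b (T.l 204) (T.l 204))) (T.a (T.b (T.l 204) (T.l 204)) (T.l 204))) (T.c (T.a (T.l 204) (T.l 204)) (T.l 204))) (T.a (T.c (T.c (T.b (T.l 460) (T.l 204)) (T.l 460)) (T.c (T.l 204) (T.l 204))) (T.c (T.a (T.c (T.a (T.c (T.l 204) (T.l 204)) (T.c (T.l 204) (T.l 204))) (T.a (T.b (T.l 204) (T.l 204)) (T.l 460))) (T.c (T.c (T.l 460) (T.l 460)) (T.b (T.l 460) (T.l 204)))) (T.a (T.c (T.a (T.l 204) (T.l 204)) (T.b (T.l 204) (T.l 204)))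 (T.c (T.b (T.l 204) (T.l 204)) (T.l 460))))))), by decide +kernel⟩

def B011R_003_1_18_1 :
    ∃ t, chk3 (onCell 0 67108864 0 1073741824 134217728 67108864 (corT true 1 c0F cB011R gF0q0 gF0q1 gF3q1 gF4q1 true true)) t 1 18 1 = true :=
  ⟨(T.a (T.c (T.c (T.a (T.c (T.b (T.l 204) (T.a (T.l 204) (T.l 204))) (T.b (T.l 204) (T.l 204))) (T.b (T.l 204) (T.l 204))) (T.a (T.b (T.l 204) (T.l 204)) (T.l 204))) (T.c (T.a (T.l 204) (T.l 204)) (T.l 204))) (T.a (T.c (T.c (T.l 204) (T.l 204)) (T.l 204)) (T.c (T.a (T.c (T.a (T.l 204) (T.l 204)) (T.b (T.l 204) (T.l 220))) (T.c (T.b (T.l 220) (T.l 220)) (T.l 220))) (T.a (T.c (T.l 220) (T.l 0)) (T.c (T.l 204) (T.l 204)))))), by decide +kernel⟩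

def B011R_003_1_152_1 :
    ∃ t, chk3 (onCell 0 67108864 0 1073741824 134217728 67108864 (corT true 1 c0F cB011R gF0q0 gF0q1 gF3q1 gF4q1 true true)) t 1 152 1 = true :=
  ⟨(T.a (T.c (T.c (T.c (T.l 204) (T.l 204)) (T.l 204)) (T.l 204)) (T.a (T.c (T.c (T.l 204) (T.l 204)) (T.l 204)) (T.c (T.a (T.c (T.a (T.l 204) (T.l 204)) (T.l 0)) (T.c (T.l 204) (T.l 204))) (T.a (T.c (T.l 0) (T.l 0)) (T.l 0))))), by decide +kernel⟩

def B011R_003_1_306_1 :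
    ∃ t, chk3 (onCell 0 67108864 0 1073741824 134217728 67108864 (corT true 1 c0F cB011R gF0q0 gF0q1 gF3q1 gF4q1 true true)) t 1 306 1 = true :=
  ⟨(T.b (T.a (T.c (T.c (T.c (T.l 204) (T.l 204)) (T.l 204)) (T.l 204)) (T.b (T.a (T.c (T.c (T.l 204) (T.l 204)) (T.l 204)) (T.b (T.c (T.a (T.c (T.a (T.l 204) (T.l 204)) (T.l 0)) (T.c (T.l 204) (T.l 204))) (T.a (T.c (T.l 0) (T.l 0)) (T.l 0))) (T.c (T.a (T.c (T.a (T.l 204) (T.l 204)) (T.l 0)) (T.c (T.l 204) (T.l 204))) (T.a (T.c (T.l 0) (T.l 0)) (T.l 0))))) (T.a (T.c (T.c (T.l 204) (T.l 204)) (T.l 204)) (T.b (T.c (T.a (T.c (T.a (T.l 204) (T.l 204)) (T.l 0)) (T.c (T.l 204) (T.l 204))) (T.a (T.c (T.l 0) (T.l 0)) (T.l 0))) (T.c (T.a (T.c (T.a (T.l 204) (T.l 204)) (T.l 0)) (T.c (T.l 204) (T.l 204))) (T.a (T.c (T.l 0) (T.l 0)) (T.l 0))))))) (T.a (T.c (T.c (T.c (T.l 204) (T.l 204)) (T.l 204)) (T.l 204)) (T.b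 (T.a (T.c (T.c (T.l 204) (T.l 204)) (T.l 204)) (T.b (T.c (T.a (T.c (T.a (T.l 204) (T.l 204)) (T.l 0)) (T.c (T.l 204) (T.l 204))) (T.a (T.c (T.l 0) (T.l 0)) (T.l 0))) (T.c (T.a (T.c (T.a (T.l 204) (T.l 204)) (T.l 0)) (T.c (T.l 204) (T.l 204))) (T.a (T.c (T.l 0) (T.l 0)) (T.l 0))))) (T.a (T.c (T.c (T.l 204) (T.l 204)) (T.l 204)) (T.b (T.c (T.a (T.c (T.a (T.l 204) (T.l 204)) (T.l 0)) (T.c (T.l 204) (T.l 204))) (T.a (T.c (T.l 0) (T.l 0)) (T.l 0))) (T.c (T.a (T.c (T.a (T.l 204) (T.l 204)) (T.l 0)) (T.c (T.l 204) (T.l 204))) (T.a (T.c (T.l 0) (T.l 0)) (T.l 0)))))))), by decide +kernel⟩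

def B011R_003_1_307_1 :
    ∃ t, chk3 (onCell 0 67108864 0 1073741824 134217728 67108864 (corT true 1 c0F cB011R gF0q0 gF0q1 gF3q1 gF4q1 true true)) t 1 307 1 = true :=
  ⟨(T.b (T.a (T.c (T.c (T.c (T.l 204) (T.l 204)) (T.l 204)) (T.l 204)) (T.b (T.a (T.c (T.c (T.l 204) (T.l 204)) (T.l 204)) (T.b (T.c (T.a (T.c (T.a (T.l 204) (T.l 204)) (T.l 0)) (T.c (T.l 204) (T.l 204))) (T.a (T.c (T.l 0) (T.l 0)) (T.l 0))) (T.c (T.a (T.c (T.a (T.l 204) (T.l 204)) (T.l 0)) (T.c (T.l 204) (T.l 204))) (T.a (T.c (T.l 0) (T.l 0)) (T.l 0))))) (T.b (T.b (T.a (T.c (T.c (T.l 204) (T.l 204)) (T.l 204)) (T.c (T.a (T.c (T.a (T.l 204) (T.l 204)) (T.l 0)) (T.c (T.l 204) (T.l 204))) (T.a (T.c (T.l 0) (T.l 0)) (T.l 0)))) (T.l 2)) (T.l 2)))) (T.l 2)), by decide +kernel⟩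

def B011R_003_1_77_1 :
    ∃ t, chk3 (onCell 0 67108864 0 1073741824 134217728 67108864 (corT true 1 c0F cB011R gF0q0 gF0q1 gF3q1 gF4q1 true true)) t 1 77 1 = true :=
  ⟨(T.l 2), by decide +kernel⟩

def B011R_003_1_39_1 :
    ∃ t, chk3 (onCell 0 67108864 0 1073741824 134217728 67108864 (corT true 1 c0F cB011R gF0q0 gF0q1 gF3q1 gF4q1 true true)) t 1 39 1 = true :=
  ⟨(T.l 2), by decide +kernel⟩

def B011R_003_1_5_1 :
    ∃ t, chk3 (onCell 0 67108864 0 1073741824 134217728 67108864 (corT true 1 c0F cB011R gF0q0 gF0q1 gF3q1 gF4q1 true true)) t 1 5 1 = true :=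
  ⟨(T.l 2), by decide +kernel⟩

def B011R_003_1_3_1 :
    ∃ t, chk3 (onCell 0 67108864 0 1073741824 134217728 67108864 (corT true 1 c0F cB011R gF0q0 gF0q1 gF3q1 gF4q1 true true)) t 1 3 1 = true :=
  ⟨(T.l 2), by decide +kernel⟩

theorem B011R_003_1_153_1 :
    ∃ t, chk3 (onCell 0 67108864 0 1073741824 134217728 67108864 (corT true 1 c0F cB011R gF0q0 gF0q1 gF3q1 gF4q1 true true)) t 1 153 1 = true :=
  ex3_b B011R_003_1_306_1 B011R_003_1_307_1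
theorem B011R_003_1_76_1 :
    ∃ t, chk3 (onCell 0 67108864 0 1073741824 134217728 67108864 (corT true 1 c0F cB011R gF0q0 gF0q1 gF3q1 gF4q1 true true)) t 1 76 1 = true :=
  ex3_b B011R_003_1_152_1 B011R_003_1_153_1
theorem B011R_003_1_38_1 :
    ∃ t, chk3 (onCell 0 67108864 0 1073741824 134217728 67108864 (corT true 1 c0F cB011R gF0q0 gF0q1 gF3q1 gF4q1 true true)) t 1 38 1 = true :=
  ex3_b B011R_003_1_76_1 B011R_003_1_77_1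
theorem B011R_003_1_19_1 :
    ∃ t, chk3 (onCell 0 67108864 0 1073741824 134217728 67108864 (corT true 1 c0F cB011R gF0q0 gF0q1 gF3q1 gF4q1 true true)) t 1 19 1 = true :=
  ex3_b B011R_003_1_38_1 B011R_003_1_39_1
theorem B011R_003_1_9_1 :
    ∃ t, chk3 (onCell 0 67108864 0 1073741824 134217728 67108864 (corT true 1 c0F cB011R gF0q0 gF0q1 gF3q1 gF4q1 true true)) t 1 9 1 = true :=
  ex3_b B011R_003_1_18_1 B011R_003_1_19_1
theorem B011R_003_1_4_1 :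
    ∃ t, chk3 (onCell 0 67108864 0 1073741824 134217728 67108864 (corT true 1 c0F cB011R gF0q0 gF0q1 gF3q1 gF4q1 true true)) t 1 4 1 = true :=
  ex3_b B011R_003_1_8_1 B011R_003_1_9_1
theorem B011R_003_1_2_1 :
    ∃ t, chk3 (onCell 0 67108864 0 1073741824 134217728 67108864 (corT true 1 c0F cB011R gF0q0 gF0q1 gF3q1 gF4q1 true true)) t 1 2 1 = true :=
  ex3_b B011R_003_1_4_1 B011R_003_1_5_1
theorem B011R_003 :
    ∃ t, chk3 (onCell 0 67108864 0 1073741824 134217728 67108864 (corT true 1 c0F cB011R gF0q0 gF0q1 gF3q1 gF4q1 true true)) t 1 1 1 = true :=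
  ex3_b B011R_003_1_2_1 B011R_003_1_3_1

def B011R_004 :
    ∃ t, chk3 (onCell 0 67108864 0 1073741824 134217728 67108864 (corX 1 c0F cB011R tB011R gF0q0 gF0q1 gF4q1 gF5q1 gF5q1 true true)) t 1 1 1 = true :=
  ⟨(T.b (T.b (T.b (T.l 1) (T.b (T.l 1) (T.a (T.c (T.c (T.a (T.c (T.b (T.l 207) (T.l 207)) (T.l 207)) (T.l 207)) (T.a (T.l 207) (T.l 207))) (T.a (T.l 207) (T.l 207))) (T.a (T.c (T.c (T.l 207) (T.l 207)) (T.l 3)) (T.c (T.a (T.c (T.l 207) (T.l 207)) (T.c (T.l 207) (T.l 207))) (T.a (T.l 3) (T.l 3))))))) (T.b (T.a (T.c (T.c (T.a (T.a (T.c (T.b (T.l 207) (T.l 207)) (T.l 207)) (T.b (T.l 207) (T.l 207))) (T.b (T.l 207) (T.l 207))) (T.a (T.b (T.l 207) (T.l 207)) (T.l 207))) (T.a (T.b (T.l 207) (T.l 207)) (T.l 207))) (T.a (T.c (T.c (T.l 207) (T.l 207)) (T.l 3)) (T.c (T.a (T.c (T.l 207) (T.l 207)) (T.c (T.l 207) (T.l 207))) (T.a (T.l 3) (T.l 3))))) (T.l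 2))) (T.l 2)), by decide +kernel⟩

def B011R_102 :
    ∃ t, chk3 (onCell 0 67108864 0 1073741824 134217728 67108864 (corT true 1 c0F cB011R gF1q0 gF0q1 gF2q1 gF3q1 false true)) t 1 1 1 = true :=
  ⟨(T.l 2), by decide +kernel⟩

def B011R_103 :
    ∃ t, chk3 (onCell 0 67108864 0 1073741824 134217728 67108864 (corT true 1 c0F cB011R gF1q0 gF0q1 gF3q1 gF4q1 true true)) t 1 1 1 = true :=
  ⟨(T.l 2), by decide +kernel⟩

def B011R_104 :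
    ∃ t, chk3 (onCell 0 67108864 0 1073741824 134217728 67108864 (corT true 1 c0F cB011R gF1q0 gF0q1 gF4q1 gF5q1 true true)) t 1 1 1 = true :=
  ⟨(T.l 2), by decide +kernel⟩

def B011R_202 :
    ∃ t, chk3 (onCell 0 67108864 0 1073741824 134217728 67108864 (corT true 1 c0F cB011R gF2q0 gF0q1 gF2q1 gF3q1 false true)) t 1 1 1 = true :=
  ⟨(T.l 2), by decide +kernel⟩

def B011R_203 :
    ∃ t, chk3 (onCell 0 67108864 0 1073741824 134217728 67108864 (corT true 1 c0F cB011R gF2q0 gF0q1 gF3q1 gF4q1 true true)) t 1 1 1 = true :=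
  ⟨(T.l 2), by decide +kernel⟩

def B011R_204 :
    ∃ t, chk3 (onCell 0 67108864 0 1073741824 134217728 67108864 (corT true 1 c0F cB011R gF2q0 gF0q1 gF4q1 gF5q1 true true)) t 1 1 1 = true :=
  ⟨(T.l 2), by decide +kernel⟩

def B012E_000_2_1_1 :
    ∃ t, chk3 (onCell 0 53687091 0 1073741824 134217728 67108864 (corX 1 c0F cB012E tB012E gF0q0 gF0q2 gF0q1 gF1q1 gF0q1 true false)) t 2 1 1 = true :=
  ⟨(T.b (T.b (T.l 1) (T.b (T.l 1) (T.b (T.l 1) (T.b (T.l 1) (T.b (T.l 1) (T.c (T.c (T.a (T.l 207) (T.l 207)) (T.a (T.l 207) (T.l 207))) (T.c (T.a (T.a (T.l 207) (T.l 207)) (T.l 207)) (T.a (T.c (T.l 207) (T.l 207)) (T.l 207))))))))) (T.c (T.a (T.b (T.c (T.a (T.c (T.l 207) (T.l 207)) (T.l 207)) (T.a (T.c (T.l 207) (T.b (T.l 207) (T.l 207))) (T.l 207))) (T.c (T.a (T.c (T.l 207) (T.l 207)) (T.l 207)) (T.a (T.c (T.l 207) (T.b (T.l 207) (T.l 207))) (T.l 207))))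 (T.b (T.c (T.b (T.l 207) (T.l 207)) (T.b (T.l 207) (T.l 207))) (T.c (T.b (T.l 207) (T.l 207)) (T.b (T.l 207) (T.l 207))))) (T.a (T.b (T.c (T.a (T.a (T.b (T.l 207) (T.l 207)) (T.l 207)) (T.l 463)) (T.a (T.a (T.c (T.l 207) (T.b (T.l 207) (T.l 207))) (T.l 207)) (T.b (T.l 207) (T.l 207)))) (T.a (T.c (T.a (T.b (T.l 207) (T.l 207)) (T.l 207)) (T.a (T.c (T.l 207) (T.b (T.l 207) (T.l 207))) (T.l 223))) (T.c (T.l 479) (T.l 479)))) (T.b (T.b (T.c (T.l 207) (T.l 463)) (T.c (T.l 207) (T.l 463))) (T.b (T.c (T.l 207) (T.l 463)) (T.c (T.l 207) (T.l 463))))))), by decide +kernel⟩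

def B012E_000_3_1_1 :
    ∃ t, chk3 (onCell 0 53687091 0 1073741824 134217728 67108864 (corX 1 c0F cB012E tB012E gF0q0 gF0q2 gF0q1 gF1q1 gF0q1 true false)) t 3 1 1 = true :=
  ⟨(T.b (T.b (T.l 1) (T.b (T.l 1) (T.b (T.l 1) (T.b (T.l 1) (T.c (T.a (T.l 463) (T.l 207)) (T.a (T.l 463) (T.l 207))))))) (T.b (T.a (T.c (T.c (T.l 463) (T.l 463)) (T.c (T.l 463) (T.l 463))) (T.b (T.b (T.c (T.l 207) (T.l 207)) (T.c (T.a (T.l 207) (T.a (T.l 207) (T.b (T.l 207) (T.l 460)))) (T.a (T.l 207) (T.a (T.l 207) (T.b (T.l 207) (T.l 460)))))) (T.c (T.b (T.a (T.b (T.l 207) (T.b (T.l 207) (T.l 460))) (T.c (T.l 460) (T.l 460))) (T.a (T.b (T.l 460) (T.l 460)) (T.b (T.l 460) (T.l 460)))) (T.b (T.a (T.b (T.l 207) (T.l 460)) (T.b (T.l 460) (T.l 460))) (T.a (T.b (T.l 460) (T.l 460)) (T.b (T.l 460) (T.l 204))))))) (T.a (T.b (T.a (T.c (T.l 463) (T.l 207)) (T.c (T.b (T.b (T.l 207)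 (T.l 460)) (T.b (T.l 460) (T.l 460))) (T.b (T.b (T.l 207) (T.l 460)) (T.b (T.l 460) (T.l 460))))) (T.c (T.a (T.b (T.l 207) (T.b (T.l 476) (T.l 476))) (T.c (T.l 476) (T.l 476))) (T.a (T.b (T.l 207) (T.b (T.l 476) (T.l 476))) (T.b (T.l 476) (T.l 476))))) (T.b (T.a (T.c (T.b (T.b (T.l 460) (T.l 460)) (T.l 476)) (T.b (T.b (T.l 460) (T.l 460)) (T.l 460))) (T.b (T.c (T.b (T.l 460) (T.b (T.l 460) (T.l 460))) (T.b (T.l 204) (T.b (T.l 460) (T.l 460)))) (T.c (T.a (T.b (T.l 204) (T.l 460)) (T.l 460)) (T.b (T.b (T.l 460) (T.l 460)) (T.l 460))))) (T.a (T.c (T.b (T.a (T.l 460) (T.l 476)) (T.a (T.l 476) (T.l 476))) (T.b (T.a (T.l 204) (T.l 460)) (T.a (T.l 476) (T.l 460)))) (T.c (T.b (T.b (T.l 476) (T.l 476)) (T.b (T.l 476) (T.l 460))) (T.b (T.b (T.l 460) (T.l 460)) (T.b (T.l 460) (T.l 460))))))))), by decide +kernel⟩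

theorem B012E_000 :
    ∃ t, chk3 (onCell 0 53687091 0 1073741824 134217728 67108864 (corX 1 c0F cB012E tB012E gF0q0 gF0q2 gF0q1 gF1q1 gF0q1 true false)) t 1 1 1 = true :=
  ex3_a B012E_000_2_1_1 B012E_000_3_1_1

def B012E_010_1_2_1 :
    ∃ t, chk3 (onCell 0 67108864 0 1073741824 134217728 67108864 (corT true 1 c0F cB012E gF0q0 gF1q2 gF0q1 gF1q1 true false)) t 1 2 1 = true :=
  ⟨(T.l 1), by decide +kernel⟩

def B012E_010_1_12_1 :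
    ∃ t, chk3 (onCell 0 67108864 0 1073741824 134217728 67108864 (corT true 1 c0F cB012E gF0q0 gF1q2 gF0q1 gF1q1 true false)) t 1 12 1 = true :=
  ⟨(T.l 1), by decide +kernel⟩

def B012E_010_2_13_2 :
    ∃ t, chk3 (onCell 0 67108864 0 1073741824 134217728 67108864 (corT true 1 c0F cB012E gF0q0 gF1q2 gF0q1 gF1q1 true false)) t 2 13 2 = true :=
  ⟨(T.b (T.b (T.a (T.l 1) (T.a (T.l 1) (T.l 1))) (T.c (T.a (T.b (T.c (T.a (T.b (T.l 1) (T.a (T.b (T.c (T.a (T.b (T.l 1) (T.l 816)) (T.l 820)) (T.a (T.b (T.l 1) (T.l 816)) (T.l 816))) (T.l 816)) (T.c (T.l 816) (T.l 816)))) (T.b (T.b (T.l 1) (T.c (T.a (T.l 820) (T.l 816)) (T.l 820))) (T.l 820))) (T.a (T.b (T.l 1) (T.a (T.b (T.c (T.a (T.b (T.l 1) (T.l 816)) (T.l 816)) (T.a (T.b (T.l 1) (T.l 816)) (T.l 816))) (T.l 816)) (T.l 820))) (T.b (T.b (T.l 1) (T.c (T.l 820) (T.l 820))) (T.l 816)))) (T.c (T.a (T.l 816)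 (T.l 816)) (T.a (T.l 816) (T.l 816)))) (T.b (T.c (T.a (T.a (T.l 820) (T.l 820)) (T.l 816)) (T.a (T.l 820) (T.l 816))) (T.l 820))) (T.a (T.b (T.a (T.b (T.l 1) (T.c (T.a (T.b (T.a (T.b (T.l 1) (T.l 816)) (T.l 820)) (T.l 816)) (T.l 816)) (T.a (T.a (T.c (T.l 816) (T.l 816)) (T.l 816)) (T.l 816)))) (T.c (T.b (T.b (T.l 1) (T.l 820)) (T.l 816)) (T.a (T.b (T.b (T.l 1) (T.l 816)) (T.l 816)) (T.l 820)))) (T.c (T.l 816) (T.l 816))) (T.a (T.c (T.b (T.l 820) (T.l 816)) (T.l 820)) (T.l 820))))) (T.c (T.a (T.b (T.a (T.l 816) (T.l 816)) (T.l 816)) (T.l 820)) (T.a (T.b (T.l 816) (T.l 816)) (T.l 816)))), by decide +kernel⟩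

def B012E_010_2_13_3 :
    ∃ t, chk3 (onCell 0 67108864 0 1073741824 134217728 67108864 (corT true 1 c0F cB012E gF0q0 gF1q2 gF0q1 gF1q1 true false)) t 2 13 3 = true :=
  ⟨(T.b (T.b (T.a (T.l 1) (T.a (T.l 1) (T.l 1))) (T.a (T.c (T.b (T.a (T.b (T.l 1) (T.c (T.a (T.c (T.l 816) (T.l 816)) (T.l 816)) (T.a (T.c (T.l 816) (T.l 816)) (T.l 816)))) (T.b (T.b (T.l 1) (T.c (T.l 816) (T.l 816))) (T.l 820))) (T.c (T.l 816) (T.l 816))) (T.b (T.a (T.b (T.l 1) (T.a (T.b (T.c (T.a (T.l 816) (T.l 816)) (T.a (T.l 816) (T.l 816))) (T.l 816)) (T.l 820))) (T.b (T.b (T.l 1) (T.a (T.l 820) (T.l 816))) (T.l 816))) (T.a (T.l 816) (T.l 816)))) (T.c (T.a (T.c (T.l 820) (T.l 820)) (T.l 820)) (T.a (T.b (T.l 820) (T.l 816)) (T.l 816))))) (T.b (T.a (T.c (T.l 816) (T.l 816)) (T.l 820)) (T.a (T.l 816) (T.l 816)))), by decide +kernel⟩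

def B012E_010_6_13_1 :
    ∃ t, chk3 (onCell 0 67108864 0 1073741824 134217728 67108864 (corT true 1 c0F cB012E gF0q0 gF1q2 gF0q1 gF1q1 true false)) t 6 13 1 = true :=
  ⟨(T.a (T.c (T.b (T.c (T.b (T.b (T.l 1) (T.b (T.l 1) (T.l 884))) (T.l 884)) (T.b (T.b (T.l 1) (T.b (T.l 1) (T.l 820))) (T.l 816))) (T.b (T.l 884) (T.l 816))) (T.b (T.b (T.b (T.l 1) (T.c (T.b (T.l 1) (T.l 816)) (T.l 884))) (T.b (T.l 884) (T.l 816))) (T.l 816))) (T.c (T.b (T.b (T.b (T.l 1) (T.b (T.l 1) (T.c (T.a (T.l 880) (T.c (T.l 880) (T.l 880))) (T.a (T.l 880) (T.c (T.l 880) (T.l 880)))))) (T.c (T.a (T.l 880) (T.b (T.b (T.l 880) (T.l 880)) (T.l 816))) (T.a (T.l 816) (T.b (T.l 880) (T.l 816))))) (T.b (T.c (T.b (T.l 880) (T.l 816)) (T.b (T.l 816) (T.l 816))) (T.c (T.l 816) (T.l 816)))) (T.b (T.b (T.b (T.l 1) (T.b (T.l 1) (T.a (T.c (T.l 880) (T.l 816)) (T.c (T.l 880) (T.l 880)))))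 (T.a (T.b (T.l 880) (T.l 816)) (T.b (T.c (T.l 880) (T.l 880)) (T.l 880)))) (T.b (T.c (T.l 880) (T.l 816)) (T.l 816))))), by decide +kernel⟩

def B012E_010_7_13_1 :
    ∃ t, chk3 (onCell 0 67108864 0 1073741824 134217728 67108864 (corT true 1 c0F cB012E gF0q0 gF1q2 gF0q1 gF1q1 true false)) t 7 13 1 = true :=
  ⟨(T.b (T.c (T.a (T.b (T.b (T.l 1) (T.c (T.a (T.b (T.l 1) (T.c (T.l 880) (T.l 880))) (T.c (T.l 884) (T.l 884))) (T.a (T.b (T.l 1) (T.c (T.l 880) (T.l 880))) (T.c (T.l 884) (T.l 884))))) (T.c (T.b (T.a (T.l 884) (T.l 884)) (T.l 884)) (T.a (T.b (T.l 880) (T.l 816)) (T.l 884)))) (T.b (T.b (T.l 1) (T.c (T.a (T.b (T.c (T.a (T.l 884) (T.l 884)) (T.l 884)) (T.l 884)) (T.c (T.b (T.a (T.l 820) (T.l 820)) (T.l 820)) (T.a (T.l 820) (T.l 820)))) (T.a (T.c (T.l 884) (T.l 884)) (T.b (T.c (T.l 884) (T.l 820)) (T.l 820))))) (T.c (T.b (T.a (T.l 820) (T.l 820))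 (T.l 820)) (T.a (T.l 820) (T.l 820))))) (T.a (T.b (T.b (T.l 1) (T.b (T.a (T.l 1) (T.c (T.l 884) (T.l 884))) (T.c (T.a (T.l 880) (T.l 880)) (T.a (T.l 880) (T.l 816))))) (T.c (T.a (T.l 880) (T.l 820)) (T.b (T.l 884) (T.l 816)))) (T.b (T.b (T.l 1) (T.c (T.a (T.b (T.l 884) (T.l 820)) (T.c (T.l 820) (T.l 820))) (T.a (T.l 884) (T.b (T.l 820) (T.l 820))))) (T.c (T.a (T.l 820) (T.l 820)) (T.b (T.l 820) (T.l 816)))))) (T.c (T.a (T.c (T.b (T.l 820) (T.l 816)) (T.b (T.l 816) (T.l 816))) (T.c (T.b (T.l 820) (T.l 816)) (T.b (T.l 816) (T.l 816)))) (T.a (T.b (T.b (T.l 816) (T.l 816)) (T.l 816)) (T.b (T.b (T.l 820) (T.l 816)) (T.l 816))))), by decide +kernel⟩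

def B012E_010_1_7_1 :
    ∃ t, chk3 (onCell 0 67108864 0 1073741824 134217728 67108864 (corT true 1 c0F cB012E gF0q0 gF1q2 gF0q1 gF1q1 true false)) t 1 7 1 = true :=
  ⟨(T.a (T.a (T.c (T.b (T.c (T.l 0) (T.l 0)) (T.l 0)) (T.b (T.b (T.l 816) (T.l 0)) (T.l 0))) (T.a (T.c (T.c (T.l 0) (T.l 0)) (T.b (T.l 0) (T.l 0))) (T.b (T.c (T.b (T.l 816) (T.l 0)) (T.l 0)) (T.c (T.b (T.l 0) (T.l 16)) (T.b (T.l 0) (T.l 0)))))) (T.a (T.b (T.a (T.c (T.b (T.b (T.l 884) (T.l 0)) (T.b (T.l 0) (T.l 0))) (T.b (T.b (T.l 816) (T.l 0)) (T.l 0))) (T.c (T.b (T.b (T.l 816) (T.l 816)) (T.l 0)) (T.b (T.l 0) (T.l 0)))) (T.a (T.c (T.b (T.l 0) (T.l 0)) (T.b (T.l 0) (T.l 0))) (T.c (T.b (T.l 0) (T.l 0)) (T.l 0)))) (T.b (T.c (T.a (T.b (T.b (T.l 816) (T.l 816)) (T.l 0)) (T.b (T.b (T.l 816) (T.l 816)) (T.l 0))) (T.a (T.b (T.l 0) (T.l 0)) (T.b (T.l 0) (T.l 0)))) (T.c (T.a (T.b (T.l 0)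 (T.l 0)) (T.b (T.l 0) (T.l 0))) (T.a (T.l 0) (T.l 0)))))), by decide +kernel⟩

theorem B012E_010_3_13_1 :
    ∃ t, chk3 (onCell 0 67108864 0 1073741824 134217728 67108864 (corT true 1 c0F cB012E gF0q0 gF1q2 gF0q1 gF1q1 true false)) t 3 13 1 = true :=
  ex3_a B012E_010_6_13_1 B012E_010_7_13_1
theorem B012E_010_2_13_1 :
    ∃ t, chk3 (onCell 0 67108864 0 1073741824 134217728 67108864 (corT true 1 c0F cB012E gF0q0 gF1q2 gF0q1 gF1q1 true false)) t 2 13 1 = true :=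
  ex3_c B012E_010_2_13_2 B012E_010_2_13_3
theorem B012E_010_1_13_1 :
    ∃ t, chk3 (onCell 0 67108864 0 1073741824 134217728 67108864 (corT true 1 c0F cB012E gF0q0 gF1q2 gF0q1 gF1q1 true false)) t 1 13 1 = true :=
  ex3_a B012E_010_2_13_1 B012E_010_3_13_1
theorem B012E_010_1_6_1 :
    ∃ t, chk3 (onCell 0 67108864 0 1073741824 134217728 67108864 (corT true 1 c0F cB012E gF0q0 gF1q2 gF0q1 gF1q1 true false)) t 1 6 1 = true :=
  ex3_b B012E_010_1_12_1 B012E_010_1_13_1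
theorem B012E_010_1_3_1 :
    ∃ t, chk3 (onCell 0 67108864 0 1073741824 134217728 67108864 (corT true 1 c0F cB012E gF0q0 gF1q2 gF0q1 gF1q1 true false)) t 1 3 1 = true :=
  ex3_b B012E_010_1_6_1 B012E_010_1_7_1
theorem B012E_010 :
    ∃ t, chk3 (onCell 0 67108864 0 1073741824 134217728 67108864 (corT true 1 c0F cB012E gF0q0 gF1q2 gF0q1 gF1q1 true false)) t 1 1 1 = true :=
  ex3_b B012E_010_1_2_1 B012E_010_1_3_1

def B012E_020_1_2_1 :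
    ∃ t, chk3 (onCell 0 67108864 0 1073741824 134217728 67108864 (corT true 1 c0F cB012E gF0q0 gF2q2 gF0q1 gF1q1 true false)) t 1 2 1 = true :=
  ⟨(T.l 1), by decide +kernel⟩

def B012E_020_1_6_1 :
    ∃ t, chk3 (onCell 0 67108864 0 1073741824 134217728 67108864 (corT true 1 c0F cB012E gF0q0 gF2q2 gF0q1 gF1q1 true false)) t 1 6 1 = true :=
  ⟨(T.l 1), by decide +kernel⟩

def B012E_020_1_14_1 :
    ∃ t, chk3 (onCell 0 67108864 0 1073741824 134217728 67108864 (corT true 1 c0F cB012E gF0q0 gF2q2 gF0q1 gF1q1 true false)) t 1 14 1 = true :=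
  ⟨(T.l 1), by decide +kernel⟩

def B012E_020_1_120_1 :
    ∃ t, chk3 (onCell 0 67108864 0 1073741824 134217728 67108864 (corT true 1 c0F cB012E gF0q0 gF2q2 gF0q1 gF1q1 true false)) t 1 120 1 = true :=
  ⟨(T.l 1), by decide +kernel⟩

def B012E_020_1_242_1 :
    ∃ t, chk3 (onCell 0 67108864 0 1073741824 134217728 67108864 (corT true 1 c0F cB012E gF0q0 gF2q2 gF0q1 gF1q1 true false)) t 1 242 1 = true :=
  ⟨(T.l 1), by decide +kernel⟩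

def B012E_020_2_243_1 :
    ∃ t, chk3 (onCell 0 67108864 0 1073741824 134217728 67108864 (corT true 1 c0F cB012E gF0q0 gF2q2 gF0q1 gF1q1 true false)) t 2 243 1 = true :=
  ⟨(T.a (T.l 1) (T.a (T.l 1) (T.b (T.l 1) (T.b (T.l 1) (T.b (T.l 1) (T.a (T.b (T.l 1) (T.c (T.c (T.c (T.l 816) (T.l 816)) (T.l 816)) (T.c (T.l 816) (T.l 816)))) (T.b (T.c (T.c (T.c (T.l 880) (T.l 816)) (T.l 880)) (T.c (T.l 816) (T.l 816))) (T.c (T.c (T.c (T.l 880) (T.l 816)) (T.l 880)) (T.c (T.l 816) (T.l 816)))))))))), by decide +kernel⟩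

def B012E_020_3_486_1 :
    ∃ t, chk3 (onCell 0 67108864 0 1073741824 134217728 67108864 (corT true 1 c0F cB012E gF0q0 gF2q2 gF0q1 gF1q1 true false)) t 3 486 1 = true :=
  ⟨(T.a (T.l 1) (T.b (T.l 1) (T.a (T.a (T.l 1) (T.b (T.l 1) (T.b (T.l 1) (T.c (T.c (T.c (T.l 880) (T.l 816)) (T.l 880)) (T.c (T.l 816) (T.l 816)))))) (T.b (T.a (T.a (T.l 1) (T.a (T.l 1) (T.b (T.l 1) (T.b (T.l 1) (T.b (T.l 1) (T.c (T.c (T.c (T.l 880) (T.l 816)) (T.l 880)) (T.c (T.l 816) (T.l 816)))))))) (T.b (T.a (T.l 1) (T.c (T.c (T.c (T.l 880) (T.l 880)) (T.l 880)) (T.c (T.l 816) (T.l 816)))) (T.a (T.c (T.c (T.c (T.l 880) (T.l 880)) (T.l 880)) (T.c (T.l 816) (T.l 816))) (T.c (T.c (T.c (T.l 880) (T.l 880)) (T.l 880)) (T.c (T.l 816) (T.l 816)))))) (T.a (T.c (T.c (T.c (T.l 880) (T.l 880)) (T.l 880)) (T.c (T.l 816) (T.l 816))) (T.c (T.c (T.c (T.l 880) (T.l 880)) (T.l 880)) (T.c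 (T.l 816) (T.l 816)))))))), by decide +kernel⟩

def B012E_020_6_487_1 :
    ∃ t, chk3 (onCell 0 67108864 0 1073741824 134217728 67108864 (corT true 1 c0F cB012E gF0q0 gF2q2 gF0q1 gF1q1 true false)) t 6 487 1 = true :=
  ⟨(T.b (T.a (T.a (T.l 1) (T.a (T.l 1) (T.a (T.l 1) (T.a (T.l 1) (T.b (T.l 1) (T.a (T.l 1) (T.b (T.l 1) (T.b (T.l 1) (T.b (T.l 1) (T.b (T.l 1) (T.c (T.c (T.c (T.l 816) (T.l 816)) (T.l 880)) (T.c (T.l 816) (T.l 816))))))))))))) (T.b (T.a (T.l 1) (T.a (T.l 1) (T.b (T.l 1) (T.b (T.l 1) (T.c (T.c (T.c (T.l 816) (T.l 816)) (T.l 816)) (T.c (T.l 816) (T.l 816))))))) (T.a (T.b (T.a (T.l 1) (T.a (T.l 1) (T.b (T.l 1) (T.b (T.l 1) (T.c (T.c (T.c (T.l 816) (T.l 816)) (T.l 816)) (T.c (T.l 816) (T.l 816))))))) (T.c (T.c (T.c (T.l 880) (T.l 816)) (T.l 880)) (T.c (T.l 816) (T.l 816)))) (T.c (T.c (T.c (T.l 880) (T.l 816)) (T.l 880)) (T.c (T.l 816)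 (T.l 816)))))) (T.a (T.b (T.a (T.b (T.l 1) (T.c (T.a (T.b (T.l 1) (T.c (T.c (T.l 880) (T.l 880)) (T.c (T.l 816) (T.l 816)))) (T.c (T.c (T.l 880) (T.l 880)) (T.c (T.l 816) (T.l 816)))) (T.c (T.c (T.l 816) (T.l 816)) (T.l 816)))) (T.b (T.c (T.c (T.c (T.l 880) (T.l 880)) (T.c (T.l 816) (T.l 816))) (T.c (T.l 880) (T.l 816))) (T.c (T.c (T.c (T.l 880) (T.l 880)) (T.c (T.l 816) (T.l 816))) (T.c (T.l 880) (T.l 816))))) (T.a (T.b (T.c (T.c (T.c (T.a (T.l 880) (T.l 880)) (T.l 880)) (T.c (T.l 880) (T.l 816))) (T.c (T.c (T.l 816) (T.l 816)) (T.l 816))) (T.c (T.c (T.c (T.a (T.l 880) (T.l 880)) (T.l 880)) (T.c (T.l 880) (T.l 816))) (T.c (T.c (T.l 816) (T.l 816)) (T.l 816)))) (T.c (T.c (T.c (T.l 880) (T.l 880)) (T.c (T.l 816) (T.l 816))) (T.c (T.l 880) (T.l 816))))) (T.c (T.c (T.c (T.l 880) (T.l 880)) (T.a (T.l 880) (T.l 880))) (T.c (T.l 880) (T.l 816))))),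 by decide +kernel⟩

def B012E_020_7_487_1 :
    ∃ t, chk3 (onCell 0 67108864 0 1073741824 134217728 67108864 (corT true 1 c0F cB012E gF0q0 gF2q2 gF0q1 gF1q1 true false)) t 7 487 1 = true :=
  ⟨(T.c (T.c (T.a (T.c (T.l 880) (T.l 880)) (T.c (T.a (T.l 880) (T.l 880)) (T.l 880))) (T.a (T.l 884) (T.a (T.l 880) (T.l 880)))) (T.a (T.c (T.l 816) (T.l 816)) (T.c (T.l 880) (T.l 816)))), by decide +kernel⟩

def B012E_020_1_61_1 :
    ∃ t, chk3 (onCell 0 67108864 0 1073741824 134217728 67108864 (corT true 1 c0F cB012E gF0q0 gF2q2 gF0q1 gF1q1 true false)) t 1 61 1 = true :=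
  ⟨(T.a (T.c (T.c (T.a (T.l 816) (T.c (T.a (T.l 816) (T.l 880)) (T.l 880))) (T.c (T.a (T.l 816) (T.l 816)) (T.l 880))) (T.c (T.a (T.l 816) (T.l 880)) (T.l 880))) (T.a (T.c (T.c (T.a (T.a (T.c (T.b (T.c (T.b (T.l 880) (T.l 816)) (T.l 880)) (T.l 880)) (T.a (T.l 880) (T.l 880))) (T.c (T.b (T.l 880) (T.l 816)) (T.l 880))) (T.c (T.a (T.l 880) (T.l 880)) (T.b (T.l 880) (T.l 816)))) (T.a (T.a (T.c (T.b (T.l 880) (T.l 816)) (T.b (T.l 880) (T.l 816))) (T.c (T.l 880) (T.l 816))) (T.c (T.l 880) (T.l 880)))) (T.a (T.c (T.a (T.c (T.l 880) (T.l 880)) (T.b (T.l 880) (T.l 816))) (T.a (T.b (T.l 880) (T.l 816)) (T.l 816))) (T.c (T.b (T.l 880) (T.l 816)) (T.l 880)))) (T.c (T.c (T.a (T.c (T.b (T.l 880) (T.l 816)) (T.l 880)) (T.c (T.a (T.l 880) (T.l 880)) (T.b (T.l 880) (T.l 816)))) (T.a (T.a (T.l 880) (T.l 880)) (T.a (T.l 880) (T.l 880)))) (T.a (T.c (T.l 884) (T.l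 816)) (T.c (T.l 884) (T.l 880)))))), by decide +kernel⟩

def B012E_020_1_31_1 :
    ∃ t, chk3 (onCell 0 67108864 0 1073741824 134217728 67108864 (corT true 1 c0F cB012E gF0q0 gF2q2 gF0q1 gF1q1 true false)) t 1 31 1 = true :=
  ⟨(T.a (T.a (T.c (T.c (T.l 816) (T.l 816)) (T.b (T.l 816) (T.l 816))) (T.a (T.c (T.c (T.l 816) (T.l 816)) (T.b (T.l 816) (T.l 816))) (T.c (T.c (T.a (T.l 816) (T.c (T.l 816) (T.l 816))) (T.a (T.l 816) (T.b (T.l 816) (T.l 816)))) (T.c (T.a (T.l 816) (T.l 816)) (T.b (T.l 816) (T.l 816)))))) (T.a (T.c (T.a (T.c (T.b (T.c (T.b (T.l 816) (T.l 816)) (T.l 880)) (T.l 880)) (T.a (T.b (T.l 816) (T.l 816)) (T.l 816))) (T.c (T.c (T.l 880) (T.l 816)) (T.b (T.l 816) (T.l 816)))) (T.a (T.c (T.a (T.l 816) (T.l 816)) (T.b (T.l 816) (T.l 816))) (T.c (T.l 816) (T.l 816)))) (T.c (T.c (T.a (T.b (T.l 880) (T.l 816)) (T.c (T.l 880) (T.l 880))) (T.a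 (T.l 884) (T.b (T.l 816) (T.l 816)))) (T.a (T.c (T.l 816) (T.l 816)) (T.c (T.l 816) (T.l 816)))))), by decide +kernel⟩

theorem B012E_020_3_487_1 :
    ∃ t, chk3 (onCell 0 67108864 0 1073741824 134217728 67108864 (corT true 1 c0F cB012E gF0q0 gF2q2 gF0q1 gF1q1 true false)) t 3 487 1 = true :=
  ex3_a B012E_020_6_487_1 B012E_020_7_487_1
theorem B012E_020_3_243_1 :
    ∃ t, chk3 (onCell 0 67108864 0 1073741824 134217728 67108864 (corT true 1 c0F cB012E gF0q0 gF2q2 gF0q1 gF1q1 true false)) t 3 243 1 = true :=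
  ex3_b B012E_020_3_486_1 B012E_020_3_487_1
theorem B012E_020_1_243_1 :
    ∃ t, chk3 (onCell 0 67108864 0 1073741824 134217728 67108864 (corT true 1 c0F cB012E gF0q0 gF2q2 gF0q1 gF1q1 true false)) t 1 243 1 = true :=
  ex3_a B012E_020_2_243_1 B012E_020_3_243_1
theorem B012E_020_1_121_1 :
    ∃ t, chk3 (onCell 0 67108864 0 1073741824 134217728 67108864 (corT true 1 c0F cB012E gF0q0 gF2q2 gF0q1 gF1q1 true false)) t 1 121 1 = true :=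
  ex3_b B012E_020_1_242_1 B012E_020_1_243_1
theorem B012E_020_1_60_1 :
    ∃ t, chk3 (onCell 0 67108864 0 1073741824 134217728 67108864 (corT true 1 c0F cB012E gF0q0 gF2q2 gF0q1 gF1q1 true false)) t 1 60 1 = true :=
  ex3_b B012E_020_1_120_1 B012E_020_1_121_1
theorem B012E_020_1_30_1 :
    ∃ t, chk3 (onCell 0 67108864 0 1073741824 134217728 67108864 (corT true 1 c0F cB012E gF0q0 gF2q2 gF0q1 gF1q1 true false)) t 1 30 1 = true :=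
  ex3_b B012E_020_1_60_1 B012E_020_1_61_1
theorem B012E_020_1_15_1 :
    ∃ t, chk3 (onCell 0 67108864 0 1073741824 134217728 67108864 (corT true 1 c0F cB012E gF0q0 gF2q2 gF0q1 gF1q1 true false)) t 1 15 1 = true :=
  ex3_b B012E_020_1_30_1 B012E_020_1_31_1
theorem B012E_020_1_7_1 :
    ∃ t, chk3 (onCell 0 67108864 0 1073741824 134217728 67108864 (corT true 1 c0F cB012E gF0q0 gF2q2 gF0q1 gF1q1 true false)) t 1 7 1 = true :=
  ex3_b B012E_020_1_14_1 B012E_020_1_15_1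
theorem B012E_020_1_3_1 :
    ∃ t, chk3 (onCell 0 67108864 0 1073741824 134217728 67108864 (corT true 1 c0F cB012E gF0q0 gF2q2 gF0q1 gF1q1 true false)) t 1 3 1 = true :=
  ex3_b B012E_020_1_6_1 B012E_020_1_7_1
theorem B012E_020 :
    ∃ t, chk3 (onCell 0 67108864 0 1073741824 134217728 67108864 (corT true 1 c0F cB012E gF0q0 gF2q2 gF0q1 gF1q1 true false)) t 1 1 1 = true :=
  ex3_b B012E_020_1_2_1 B012E_020_1_3_1

def B012E_100 :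
    ∃ t, chk3 (onCell 0 67108864 0 1073741824 134217728 67108864 (corT true 1 c0F cB012E gF1q0 gF0q2 gF0q1 gF1q1 true false)) t 1 1 1 = true :=
  ⟨(T.b (T.a (T.b (T.l 0) (T.l 204)) (T.b (T.b (T.l 1) (T.b (T.l 1) (T.l 0))) (T.b (T.l 0) (T.l 204)))) (T.a (T.a (T.l 204) (T.b (T.l 204) (T.l 204))) (T.b (T.a (T.l 204) (T.b (T.l 204) (T.l 204))) (T.a (T.b (T.l 204) (T.l 204)) (T.b (T.l 204) (T.l 204)))))), by decide +kernel⟩

def B012E_110 :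
    ∃ t, chk3 (onCell 0 67108864 0 1073741824 134217728 67108864 (corT true 1 c0F cB012E gF1q0 gF1q2 gF0q1 gF1q1 true false)) t 1 1 1 = true :=
  ⟨(T.b (T.b (T.l 1) (T.a (T.l 0) (T.b (T.l 0) (T.l 0)))) (T.b (T.a (T.l 204) (T.b (T.l 0) (T.l 0))) (T.a (T.a (T.l 204) (T.l 0)) (T.b (T.l 0) (T.l 0))))), by decide +kernel⟩

def B012E_120 :
    ∃ t, chk3 (onCell 0 67108864 0 1073741824 134217728 67108864 (corT true 1 c0F cB012E gF1q0 gF2q2 gF0q1 gF1q1 true false)) t 1 1 1 = true :=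
  ⟨(T.b (T.b (T.l 1) (T.a (T.l 0) (T.b (T.l 1) (T.l 0)))) (T.b (T.a (T.l 0) (T.l 0)) (T.a (T.a (T.l 0) (T.l 0)) (T.l 0)))), by decide +kernel⟩

def B012E_200 :
    ∃ t, chk3 (onCell 0 67108864 0 1073741824 134217728 67108864 (corT true 1 c0F cB012E gF2q0 gF0q2 gF0q1 gF1q1 true false)) t 1 1 1 = true :=
  ⟨(T.b (T.a (T.l 204) (T.b (T.b (T.l 204) (T.l 204)) (T.b (T.l 204) (T.l 204)))) (T.a (T.a (T.l 204) (T.b (T.l 204) (T.l 204))) (T.b (T.a (T.l 204) (T.l 204)) (T.a (T.l 204) (T.l 204))))), by decide +kernel⟩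

def B012E_210 :
    ∃ t, chk3 (onCell 0 67108864 0 1073741824 134217728 67108864 (corT true 1 c0F cB012E gF2q0 gF1q2 gF0q1 gF1q1 true false)) t 1 1 1 = true :=
  ⟨(T.b (T.a (T.l 204) (T.b (T.b (T.l 204) (T.l 204)) (T.b (T.l 204) (T.l 204)))) (T.b (T.a (T.l 204) (T.l 0)) (T.a (T.a (T.l 204) (T.l 0)) (T.l 0)))), by decide +kernel⟩

def B012E_220 :
    ∃ t, chk3 (onCell 0 67108864 0 1073741824 134217728 67108864 (corT true 1 c0F cB012E gF2q0 gF2q2 gF0q1 gF1q1 true false)) t 1 1 1 = true :=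
  ⟨(T.b (T.a (T.l 204) (T.b (T.b (T.l 204) (T.l 204)) (T.b (T.l 204) (T.l 204)))) (T.a (T.a (T.l 204) (T.b (T.l 204) (T.l 204))) (T.b (T.l 204) (T.l 204)))), by decide +kernel⟩

def B012L_050 :
    ∃ t, chk3 (onCell 0 67108864 0 1073741824 134217728 67108864 (corT true 1 c0F cB012L gF0q0 gF5q2 gF0q1 gF1q1 true false)) t 1 1 1 = true :=
  ⟨(T.l 1), by decide +kernel⟩

def B012L_150 :
    ∃ t, chk3 (onCell 0 67108864 0 1073741824 134217728 67108864 (corT true 1 c0F cB012L gF1q0 gF5q2 gF0q1 gF1q1 true false)) t 1 1 1 = true :=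
  ⟨(T.l 1), by decide +kernel⟩

def B012L_250 :
    ∃ t, chk3 (onCell 0 67108864 0 1073741824 134217728 67108864 (corT true 1 c0F cB012L gF2q0 gF5q2 gF0q1 gF1q1 true false)) t 1 1 1 = true :=
  ⟨(T.l 1), by decide +kernel⟩

def B012R_002_2_2_1 :
    ∃ t, chk3 (onCell 0 53687091 0 1073741824 134217728 67108864 (corT true 1 c0F cB012R gF0q0 gF0q2 gF2q1 gF3q1 false true)) t 2 2 1 = true :=
  ⟨(T.c (T.b (T.b (T.c (T.b (T.b (T.c (T.a (T.c (T.l 204) (T.l 204)) (T.l 204)) (T.a (T.l 204) (T.l 204))) (T.c (T.l 204) (T.l 204))) (T.c (T.b (T.l 204) (T.l 460)) (T.b (T.l 204) (T.l 204)))) (T.b (T.b (T.c (T.a (T.l 204) (T.l 204)) (T.l 204)) (T.a (T.l 204) (T.l 204))) (T.c (T.l 460) (T.l 460)))) (T.c (T.b (T.c (T.b (T.l 460) (T.l 460)) (T.b (T.l 204) (T.l 460))) (T.c (T.b (T.l 460) (T.l 460)) (T.b (T.l 460) (T.l 460)))) (T.b (T.a (T.l 204) (T.b (T.l 460) (T.l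 460))) (T.a (T.l 460) (T.b (T.l 460) (T.l 460)))))) (T.c (T.b (T.b (T.c (T.b (T.l 460) (T.l 460)) (T.b (T.l 460) (T.l 460))) (T.c (T.b (T.l 460) (T.l 460)) (T.b (T.l 460) (T.l 460)))) (T.a (T.c (T.b (T.l 460) (T.l 460)) (T.b (T.l 204) (T.l 204))) (T.c (T.b (T.l 460) (T.l 460)) (T.b (T.l 460) (T.l 460))))) (T.b (T.a (T.c (T.l 460) (T.l 204)) (T.b (T.b (T.l 460) (T.l 460)) (T.b (T.l 460) (T.l 460)))) (T.a (T.c (T.l 460) (T.l 460)) (T.c (T.b (T.l 460) (T.l 460)) (T.l 460)))))) (T.b (T.b (T.c (T.b (T.b (T.a (T.l 204) (T.l 204)) (T.l 204)) (T.b (T.l 204) (T.l 204))) (T.b (T.b (T.l 204) (T.l 204)) (T.l 460))) (T.c (T.a (T.b (T.l 204) (T.l 204)) (T.b (T.l 460) (T.l 460))) (T.b (T.l 460) (T.b (T.l 204) (T.l 204))))) (T.b (T.c (T.a (T.b (T.l 204) (T.l 204)) (T.b (T.l 460) (T.l 460))) (T.a (T.l 204) (T.b (T.l 204) (T.l 204)))) (T.c (T.a (T.b (T.l 204) (T.l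 204)) (T.b (T.l 460) (T.l 460))) (T.a (T.l 460) (T.b (T.l 204) (T.l 460))))))), by decide +kernel⟩

def B012R_002_2_3_1 :
    ∃ t, chk3 (onCell 0 53687091 0 1073741824 134217728 67108864 (corT true 1 c0F cB012R gF0q0 gF0q2 gF2q1 gF3q1 false true)) t 2 3 1 = true :=
  ⟨(T.c (T.b (T.c (T.b (T.a (T.c (T.b (T.l 460) (T.l 460)) (T.b (T.l 204) (T.l 204))) (T.c (T.b (T.l 460) (T.l 460)) (T.b (T.l 460) (T.l 460)))) (T.a (T.c (T.b (T.l 460) (T.l 460)) (T.b (T.l 460) (T.l 460))) (T.c (T.b (T.l 460) (T.l 460)) (T.b (T.l 460) (T.l 460))))) (T.b (T.a (T.c (T.b (T.l 204) (T.l 204)) (T.l 460)) (T.c (T.b (T.l 460) (T.l 460)) (T.l 460))) (T.a (T.c (T.b (T.l 204) (T.l 204)) (T.l 460)) (T.c (T.b (T.l 460) (T.l 460)) (T.l 460))))) (T.c (T.a (T.b (T.c (T.a (T.b (T.l 204) (T.l 204)) (T.l 460)) (T.b (T.l 460) (T.l 460))) (T.c (T.a (T.b (T.l 204) (T.l 204)) (T.l 460))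 (T.b (T.l 460) (T.l 460)))) (T.b (T.c (T.b (T.l 460) (T.l 460)) (T.b (T.l 460) (T.l 460))) (T.c (T.b (T.l 460) (T.l 460)) (T.b (T.l 460) (T.l 460))))) (T.a (T.b (T.c (T.b (T.l 204) (T.l 204)) (T.b (T.l 204) (T.l 204))) (T.c (T.b (T.l 204) (T.l 204)) (T.b (T.l 204) (T.l 204)))) (T.b (T.a (T.b (T.l 460) (T.l 460)) (T.l 460)) (T.b (T.b (T.l 460) (T.l 460)) (T.l 460)))))) (T.b (T.b (T.c (T.a (T.b (T.l 460) (T.l 460)) (T.b (T.l 460) (T.l 460))) (T.a (T.l 460) (T.b (T.l 460) (T.l 460)))) (T.c (T.a (T.b (T.l 460) (T.l 460)) (T.b (T.l 460) (T.l 460))) (T.a (T.l 460) (T.b (T.l 460) (T.l 460))))) (T.b (T.c (T.a (T.b (T.l 460) (T.l 460)) (T.b (T.l 460) (T.l 460))) (T.a (T.l 460) (T.l 460))) (T.c (T.a (T.b (T.l 460) (T.l 460)) (T.b (T.l 460) (T.l 460))) (T.a (T.l 460) (T.l 460)))))), by decide +kernel⟩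

def B012R_002_6_4_1 :
    ∃ t, chk3 (onCell 0 53687091 0 1073741824 134217728 67108864 (corT true 1 c0F cB012R gF0q0 gF0q2 gF2q1 gF3q1 false true)) t 6 4 1 = true :=
  ⟨(T.c (T.c (T.b (T.b (T.c (T.b (T.l 204) (T.l 460)) (T.l 460)) (T.c (T.b (T.l 460) (T.l 460)) (T.l 460))) (T.b (T.c (T.l 460) (T.l 460)) (T.c (T.l 460) (T.l 460)))) (T.b (T.b (T.c (T.l 460) (T.l 204)) (T.c (T.l 460) (T.l 460))) (T.b (T.c (T.l 460) (T.l 460)) (T.c (T.l 460) (T.l 460))))) (T.b (T.c (T.b (T.b (T.l 204) (T.l 460)) (T.b (T.l 460) (T.l 460))) (T.b (T.l 204) (T.l 460))) (T.c (T.b (T.b (T.l 460) (T.l 460)) (T.b (T.l 460) (T.l 460))) (T.b (T.l 460) (T.l 460))))), by decide +kernel⟩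

def B012R_002_7_4_1 :
    ∃ t, chk3 (onCell 0 53687091 0 1073741824 134217728 67108864 (corT true 1 c0F cB012R gF0q0 gF0q2 gF2q1 gF3q1 false true)) t 7 4 1 = true :=
  ⟨(T.b (T.c (T.b (T.c (T.a (T.c (T.b (T.l 460) (T.l 460)) (T.b (T.l 460) (T.l 460))) (T.b (T.c (T.a (T.b (T.l 460) (T.l 460)) (T.b (T.c (T.b (T.l 460) (T.l 460)) (T.l 460)) (T.c (T.l 460) (T.l 460)))) (T.a (T.l 460) (T.b (T.c (T.l 460) (T.l 460)) (T.l 460)))) (T.c (T.c (T.l 460) (T.l 460)) (T.b (T.l 460) (T.l 460))))) (T.a (T.c (T.l 460) (T.l 460)) (T.b (T.c (T.a (T.l 460) (T.c (T.l 460) (T.l 460))) (T.a (T.l 204) (T.b (T.l 460) (T.l 460)))) (T.c (T.l 460) (T.l 460))))) (T.c (T.c (T.b (T.b (T.l 460) (T.l 460)) (T.b (T.l 460) (T.l 460))) (T.b (T.b (T.l 460) (T.l 460)) (T.l 460))) (T.c (T.b (T.l 460) (T.l 460)) (T.b (T.l 460) (T.l 460))))) (T.b (T.a (T.c (T.b (T.l 460) (T.l 460))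 (T.l 460)) (T.c (T.b (T.a (T.b (T.l 460) (T.l 460)) (T.c (T.l 460) (T.l 460))) (T.c (T.l 460) (T.l 204))) (T.b (T.a (T.l 204) (T.b (T.l 460) (T.l 460))) (T.l 460)))) (T.c (T.c (T.b (T.l 460) (T.l 460)) (T.l 460)) (T.c (T.l 460) (T.l 460))))) (T.c (T.c (T.b (T.c (T.b (T.l 460) (T.l 460)) (T.b (T.l 460) (T.l 460))) (T.c (T.l 460) (T.l 460))) (T.b (T.c (T.b (T.l 460) (T.l 460)) (T.b (T.l 460) (T.l 460))) (T.c (T.l 460) (T.l 460)))) (T.c (T.b (T.c (T.l 460) (T.l 460)) (T.b (T.l 460) (T.l 460))) (T.b (T.b (T.l 460) (T.l 460)) (T.b (T.l 460) (T.l 460)))))), by decide +kernel⟩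

def B012R_002_3_5_1 :
    ∃ t, chk3 (onCell 0 53687091 0 1073741824 134217728 67108864 (corT true 1 c0F cB012R gF0q0 gF0q2 gF2q1 gF3q1 false true)) t 3 5 1 = true :=
  ⟨(T.c (T.b (T.c (T.b (T.c (T.b (T.l 460) (T.l 460)) (T.b (T.l 460) (T.l 460))) (T.c (T.b (T.l 460) (T.l 460)) (T.b (T.l 460) (T.l 460)))) (T.b (T.a (T.b (T.l 460) (T.l 460)) (T.b (T.l 460) (T.l 460))) (T.a (T.b (T.l 460) (T.l 460)) (T.b (T.l 460) (T.l 460))))) (T.c (T.b (T.a (T.c (T.l 460) (T.l 460)) (T.c (T.l 460) (T.l 460))) (T.a (T.c (T.l 460) (T.l 460)) (T.b (T.l 460) (T.l 460)))) (T.b (T.a (T.b (T.l 460) (T.l 460)) (T.b (T.l 460) (T.l 460))) (T.a (T.b (T.l 460) (T.l 460)) (T.l 460))))) (T.b (T.c (T.b (T.a (T.b (T.l 460) (T.l 460)) (T.b (T.l 460) (T.l 460))) (T.a (T.l 460) (T.l 460))) (T.b (T.a (T.l 460) (T.l 460)) (T.b (T.l 460) (T.l 460)))) (T.c (T.b (T.a (T.l 460) (T.l 460))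 (T.b (T.l 460) (T.l 460))) (T.b (T.b (T.l 460) (T.l 460)) (T.b (T.l 460) (T.l 460)))))), by decide +kernel⟩

def B012R_002_3_6_1 :
    ∃ t, chk3 (onCell 0 53687091 0 1073741824 134217728 67108864 (corT true 1 c0F cB012R gF0q0 gF0q2 gF2q1 gF3q1 false true)) t 3 6 1 = true :=
  ⟨(T.a (T.c (T.c (T.b (T.b (T.b (T.l 460) (T.l 460)) (T.b (T.l 460) (T.l 460))) (T.b (T.b (T.l 460) (T.l 460)) (T.b (T.l 460) (T.l 460)))) (T.b (T.b (T.b (T.l 460) (T.l 460)) (T.l 460)) (T.b (T.l 460) (T.l 460)))) (T.b (T.c (T.b (T.l 460) (T.l 460)) (T.b (T.l 460) (T.l 460))) (T.c (T.b (T.l 460) (T.l 460)) (T.b (T.l 460) (T.l 460))))) (T.c (T.b (T.b (T.c (T.b (T.l 460) (T.l 460)) (T.l 460)) (T.c (T.a (T.l 460) (T.l 460)) (T.a (T.l 460) (T.l 460)))) (T.c (T.a (T.b (T.b (T.l 460) (T.l 460)) (T.l 460)) (T.b (T.l 460) (T.l 460))) (T.a (T.b (T.l 460) (T.l 460)) (T.b (T.l 460) (T.l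 460))))) (T.b (T.b (T.c (T.l 460) (T.l 460)) (T.c (T.a (T.l 460) (T.l 460)) (T.b (T.l 460) (T.l 460)))) (T.b (T.c (T.a (T.l 460) (T.l 460)) (T.b (T.l 460) (T.l 460))) (T.c (T.b (T.l 460) (T.l 460)) (T.b (T.l 460) (T.l 460))))))), by decide +kernel⟩

def B012R_002_3_7_1 :
    ∃ t, chk3 (onCell 0 53687091 0 1073741824 134217728 67108864 (corT true 1 c0F cB012R gF0q0 gF0q2 gF2q1 gF3q1 false true)) t 3 7 1 = true :=
  ⟨(T.a (T.c (T.b (T.a (T.c (T.b (T.l 460) (T.l 460)) (T.l 460)) (T.c (T.b (T.b (T.l 460) (T.l 460)) (T.l 460)) (T.b (T.l 460) (T.l 460)))) (T.a (T.c (T.b (T.l 460) (T.b (T.l 460) (T.l 460))) (T.a (T.l 460) (T.l 460))) (T.c (T.b (T.l 460) (T.l 460)) (T.b (T.l 460) (T.l 460))))) (T.b (T.a (T.c (T.l 460) (T.l 460)) (T.c (T.b (T.l 460) (T.l 460)) (T.b (T.l 460) (T.l 460)))) (T.a (T.c (T.b (T.l 460) (T.l 460)) (T.b (T.l 204) (T.l 460))) (T.c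 (T.b (T.l 460) (T.l 460)) (T.b (T.l 460) (T.l 460)))))) (T.b (T.a (T.c (T.c (T.b (T.l 460) (T.l 460)) (T.b (T.l 460) (T.l 460))) (T.c (T.b (T.l 460) (T.l 460)) (T.b (T.l 460) (T.l 460)))) (T.c (T.b (T.c (T.b (T.l 460) (T.l 460)) (T.b (T.l 460) (T.l 460))) (T.c (T.b (T.l 460) (T.l 460)) (T.b (T.l 460) (T.l 460)))) (T.b (T.a (T.c (T.l 460) (T.l 460)) (T.c (T.l 460) (T.l 460))) (T.c (T.b (T.l 460) (T.l 460)) (T.b (T.l 460) (T.l 460)))))) (T.c (T.a (T.b (T.c (T.a (T.l 460) (T.l 460)) (T.a (T.l 460) (T.l 460))) (T.c (T.a (T.l 460) (T.l 460)) (T.a (T.l 460) (T.l 460)))) (T.b (T.c (T.b (T.l 460) (T.l 460)) (T.b (T.l 460) (T.l 460))) (T.c (T.b (T.l 460) (T.l 460)) (T.b (T.l 460) (T.l 460))))) (T.a (T.b (T.a (T.c (T.l 460) (T.l 460)) (T.c (T.l 460) (T.l 460))) (T.c (T.b (T.l 460) (T.l 460)) (T.b (T.l 460) (T.l 460)))) (T.b (T.c (T.b (T.l 460) (T.l 460))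 (T.b (T.l 460) (T.l 460))) (T.c (T.b (T.l 460) (T.l 460)) (T.b (T.l 460) (T.l 460)))))))), by decide +kernel⟩

theorem B012R_002_3_3_1 :
    ∃ t, chk3 (onCell 0 53687091 0 1073741824 134217728 67108864 (corT true 1 c0F cB012R gF0q0 gF0q2 gF2q1 gF3q1 false true)) t 3 3 1 = true :=
  ex3_b B012R_002_3_6_1 B012R_002_3_7_1
theorem B012R_002_3_4_1 :
    ∃ t, chk3 (onCell 0 53687091 0 1073741824 134217728 67108864 (corT true 1 c0F cB012R gF0q0 gF0q2 gF2q1 gF3q1 false true)) t 3 4 1 = true :=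
  ex3_a B012R_002_6_4_1 B012R_002_7_4_1
theorem B012R_002_3_2_1 :
    ∃ t, chk3 (onCell 0 53687091 0 1073741824 134217728 67108864 (corT true 1 c0F cB012R gF0q0 gF0q2 gF2q1 gF3q1 false true)) t 3 2 1 = true :=
  ex3_b B012R_002_3_4_1 B012R_002_3_5_1
theorem B012R_002_3_1_1 :
    ∃ t, chk3 (onCell 0 53687091 0 1073741824 134217728 67108864 (corT true 1 c0F cB012R gF0q0 gF0q2 gF2q1 gF3q1 false true)) t 3 1 1 = true :=
  ex3_b B012R_002_3_2_1 B012R_002_3_3_1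
theorem B012R_002_2_1_1 :
    ∃ t, chk3 (onCell 0 53687091 0 1073741824 134217728 67108864 (corT true 1 c0F cB012R gF0q0 gF0q2 gF2q1 gF3q1 false true)) t 2 1 1 = true :=
  ex3_b B012R_002_2_2_1 B012R_002_2_3_1
theorem B012R_002 :
    ∃ t, chk3 (onCell 0 53687091 0 1073741824 134217728 67108864 (corT true 1 c0F cB012R gF0q0 gF0q2 gF2q1 gF3q1 false true)) t 1 1 1 = true :=
  ex3_a B012R_002_2_1_1 B012R_002_3_1_1

def B012R_003 :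
    ∃ t, chk3 (onCell 0 53687091 0 1073741824 134217728 67108864 (corT true 1 c0F cB012R gF0q0 gF0q2 gF3q1 gF4q1 true true)) t 1 1 1 = true :=
  ⟨(T.b (T.l 1) (T.l 1)), by decide +kernel⟩

def B012R_004 :
    ∃ t, chk3 (onCell 0 53687091 0 1073741824 134217728 67108864 (corT true 1 c0F cB012R gF0q0 gF0q2 gF4q1 gF5q1 true true)) t 1 1 1 = true :=
  ⟨(T.l 1), by decide +kernel⟩

def B012R_012_2_2_1 :
    ∃ t, chk3 (onCell 0 67108864 0 1073741824 134217728 67108864 (corT true 1 c0F cB012R gF0q0 gF1q2 gF2q1 gF3q1 false true)) t 2 2 1 = true :=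
  ⟨(T.c (T.b (T.b (T.c (T.b (T.b (T.c (T.a (T.c (T.l 204) (T.l 204)) (T.l 204)) (T.a (T.l 204) (T.l 204))) (T.a (T.l 204) (T.l 460))) (T.a (T.l 204) (T.l 204))) (T.b (T.b (T.c (T.l 204) (T.l 204)) (T.l 204)) (T.l 204))) (T.c (T.b (T.l 204) (T.l 204)) (T.l 460))) (T.c (T.b (T.l 204) (T.l 204)) (T.b (T.l 204) (T.l 204)))) (T.b (T.b (T.c (T.b (T.c (T.l 204) (T.l 204)) (T.l 204)) (T.b (T.a (T.l 204) (T.l 204)) (T.l 204))) (T.c (T.l 204) (T.l 204))) (T.b (T.b (T.l 204) (T.l 204)) (T.l 204)))), by decide +kernel⟩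

def B012R_012_6_2_1 :
    ∃ t, chk3 (onCell 0 67108864 0 1073741824 134217728 67108864 (corT true 1 c0F cB012R gF0q0 gF1q2 gF2q1 gF3q1 false true)) t 6 2 1 = true :=
  ⟨(T.c (T.b (T.c (T.b (T.b (T.c (T.b (T.c (T.l 460) (T.l 460)) (T.l 204)) (T.b (T.a (T.l 204) (T.l 460)) (T.l 204))) (T.b (T.l 460) (T.l 204))) (T.b (T.l 204) (T.l 204))) (T.b (T.b (T.b (T.c (T.l 460) (T.l 204)) (T.l 460)) (T.l 460)) (T.l 204))) (T.c (T.b (T.l 204) (T.l 204)) (T.l 460))) (T.b (T.b (T.c (T.b (T.c (T.l 460) (T.l 204)) (T.l 204)) (T.b (T.b (T.l 460) (T.l 204)) (T.l 204))) (T.c (T.l 204) (T.l 204))) (T.b (T.l 460) (T.l 204)))), by decide +kernel⟩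

def B012R_012_7_4_2 :
    ∃ t, chk3 (onCell 0 67108864 0 1073741824 134217728 67108864 (corT true 1 c0F cB012R gF0q0 gF1q2 gF2q1 gF3q1 false true)) t 7 4 2 = true :=
  ⟨(T.b (T.a (T.c (T.b (T.b (T.c (T.a (T.b (T.c (T.a (T.l 460) (T.a (T.l 460) (T.l 460))) (T.a (T.l 460) (T.l 460))) (T.l 460)) (T.b (T.c (T.a (T.l 460) (T.l 460)) (T.b (T.l 460) (T.l 460))) (T.b (T.l 460) (T.l 460)))) (T.a (T.b (T.a (T.l 460) (T.c (T.l 460) (T.l 460))) (T.l 204)) (T.b (T.c (T.l 460) (T.l 460)) (T.l 460)))) (T.c (T.a (T.l 204) (T.b (T.l 460) (T.l 460))) (T.a (T.l 204) (T.l 460)))) (T.b (T.c (T.l 460) (T.l 460)) (T.l 460))) (T.b (T.b (T.a (T.c (T.b (T.c (T.l 460) (T.l 460)) (T.l 204)) (T.b (T.b (T.l 460) (T.l 460)) (T.l 204))) (T.c (T.b (T.a (T.l 460) (T.l 460)) (T.l 460)) (T.b (T.l 460) (T.l 460)))) (T.a (T.l 460) (T.c (T.l 460) (T.l 204)))) (T.b (T.a (T.l 204) (T.l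 460)) (T.l 204)))) (T.c (T.b (T.c (T.b (T.a (T.b (T.c (T.b (T.l 460) (T.l 460)) (T.l 460)) (T.l 460)) (T.b (T.c (T.b (T.l 460) (T.l 460)) (T.l 460)) (T.l 460))) (T.a (T.l 460) (T.l 460))) (T.b (T.a (T.b (T.c (T.l 460) (T.l 460)) (T.l 460)) (T.b (T.c (T.l 460) (T.l 460)) (T.l 460))) (T.a (T.l 460) (T.l 460)))) (T.c (T.b (T.l 460) (T.l 460)) (T.b (T.l 460) (T.l 460)))) (T.b (T.b (T.c (T.a (T.a (T.l 460) (T.l 460)) (T.c (T.l 460) (T.l 460))) (T.a (T.b (T.l 460) (T.l 204)) (T.b (T.l 460) (T.l 460)))) (T.c (T.b (T.l 460) (T.l 460)) (T.b (T.l 460) (T.l 204)))) (T.b (T.a (T.l 460) (T.l 460)) (T.b (T.l 460) (T.l 460)))))) (T.a (T.c (T.l 460) (T.l 204)) (T.c (T.b (T.b (T.l 460) (T.l 460)) (T.l 460)) (T.b (T.b (T.l 460) (T.l 204)) (T.l 204))))), by decide +kernel⟩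

def B012R_012_7_4_3 :
    ∃ t, chk3 (onCell 0 67108864 0 1073741824 134217728 67108864 (corT true 1 c0F cB012R gF0q0 gF1q2 gF2q1 gF3q1 false true)) t 7 4 3 = true :=
  ⟨(T.b (T.a (T.b (T.c (T.b (T.a (T.c (T.b (T.l 460) (T.l 204)) (T.l 460)) (T.c (T.b (T.l 460) (T.l 204)) (T.l 460))) (T.a (T.l 204) (T.b (T.l 460) (T.l 204)))) (T.b (T.a (T.c (T.l 460) (T.l 204)) (T.c (T.l 460) (T.l 204))) (T.a (T.l 204) (T.l 460)))) (T.c (T.a (T.l 204) (T.l 460)) (T.b (T.l 460) (T.l 204)))) (T.b (T.c (T.b (T.a (T.c (T.l 460) (T.l 460)) (T.c (T.l 460) (T.l 460))) (T.a (T.l 460) (T.l 460))) (T.b (T.a (T.b (T.l 460) (T.l 204)) (T.c (T.l 460) (T.l 204))) (T.b (T.l 460) (T.l 460)))) (T.c (T.a (T.l 460) (T.l 460)) (T.b (T.l 460) (T.l 204))))) (T.a (T.c (T.l 204) (T.l 204)) (T.c (T.b (T.l 460) (T.l 204)) (T.b (T.l 460) (T.l 204))))), by decide +kernel⟩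

def B012R_012_7_5_1 :
    ∃ t, chk3 (onCell 0 67108864 0 1073741824 134217728 67108864 (corT true 1 c0F cB012R gF0q0 gF1q2 gF2q1 gF3q1 false true)) t 7 5 1 = true :=
  ⟨(T.b (T.c (T.c (T.l 460) (T.l 204)) (T.b (T.l 460) (T.l 204))) (T.c (T.b (T.a (T.l 460) (T.l 460)) (T.c (T.l 460) (T.l 460))) (T.b (T.l 204) (T.b (T.l 204) (T.l 204))))), by decide +kernel⟩

def B012R_012_1_3_1 :
    ∃ t, chk3 (onCell 0 67108864 0 1073741824 134217728 67108864 (corT true 1 c0F cB012R gF0q0 gF1q2 gF2q1 gF3q1 false true)) t 1 3 1 = true :=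
  ⟨(T.b (T.a (T.c (T.c (T.b (T.l 204) (T.l 204)) (T.l 0)) (T.b (T.l 204) (T.l 0))) (T.a (T.b (T.c (T.l 460) (T.l 204)) (T.c (T.a (T.l 204) (T.b (T.l 460) (T.l 460))) (T.a (T.l 204) (T.l 256)))) (T.b (T.c (T.a (T.b (T.l 460) (T.l 460)) (T.c (T.l 460) (T.l 204))) (T.a (T.l 460) (T.b (T.l 204) (T.l 204)))) (T.c (T.a (T.b (T.l 460) (T.l 460)) (T.b (T.l 460) (T.l 460))) (T.a (T.l 460) (T.l 460)))))) (T.a (T.a (T.c (T.b (T.l 204) (T.l 0)) (T.l 0)) (T.a (T.c (T.l 0) (T.l 0)) (T.c (T.b (T.l 204) (T.b (T.l 204) (T.l 0))) (T.b (T.l 0) (T.l 0))))) (T.a (T.c (T.a (T.b (T.b (T.l 204) (T.l 0)) (T.b (T.l 0) (T.l 0))) (T.b (T.b (T.l 460) (T.l 204)) (T.b (T.l 0) (T.l 0)))) (T.a (T.b (T.l 0) (T.l 0)) (T.b (T.l 0) (T.l 0)))) (T.c (T.b (T.a (T.b (T.l 460) (T.l 460)) (T.b (T.l 460) (T.l 460))) (T.a (T.b (T.l 256) (T.l 0)) (T.b (T.l 460) (T.l 256)))) (T.b (T.b (T.l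 256) (T.l 256)) (T.a (T.l 0) (T.l 0))))))), by decide +kernel⟩

theorem B012R_012_7_4_1 :
    ∃ t, chk3 (onCell 0 67108864 0 1073741824 134217728 67108864 (corT true 1 c0F cB012R gF0q0 gF1q2 gF2q1 gF3q1 false true)) t 7 4 1 = true :=
  ex3_c B012R_012_7_4_2 B012R_012_7_4_3
theorem B012R_012_7_2_1 :
    ∃ t, chk3 (onCell 0 67108864 0 1073741824 134217728 67108864 (corT true 1 c0F cB012R gF0q0 gF1q2 gF2q1 gF3q1 false true)) t 7 2 1 = true :=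
  ex3_b B012R_012_7_4_1 B012R_012_7_5_1
theorem B012R_012_3_2_1 :
    ∃ t, chk3 (onCell 0 67108864 0 1073741824 134217728 67108864 (corT true 1 c0F cB012R gF0q0 gF1q2 gF2q1 gF3q1 false true)) t 3 2 1 = true :=
  ex3_a B012R_012_6_2_1 B012R_012_7_2_1
theorem B012R_012_1_2_1 :
    ∃ t, chk3 (onCell 0 67108864 0 1073741824 134217728 67108864 (corT true 1 c0F cB012R gF0q0 gF1q2 gF2q1 gF3q1 false true)) t 1 2 1 = true :=
  ex3_a B012R_012_2_2_1 B012R_012_3_2_1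
theorem B012R_012 :
    ∃ t, chk3 (onCell 0 67108864 0 1073741824 134217728 67108864 (corT true 1 c0F cB012R gF0q0 gF1q2 gF2q1 gF3q1 false true)) t 1 1 1 = true :=
  ex3_b B012R_012_1_2_1 B012R_012_1_3_1

def B012R_013 :
    ∃ t, chk3 (onCell 0 67108864 0 1073741824 134217728 67108864 (corT true 1 c0F cB012R gF0q0 gF1q2 gF3q1 gF4q1 true true)) t 1 1 1 = true :=
  ⟨(T.b (T.l 1) (T.l 1)), by decide +kernel⟩

def B012R_014 :
    ∃ t, chk3 (onCell 0 67108864 0 1073741824 134217728 67108864 (corT true 1 c0F cB012R gF0q0 gF1q2 gF4q1 gF5q1 true true)) t 1 1 1 = true :=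
  ⟨(T.l 1), by decide +kernel⟩

end Pool.Agent.Strip051.G.I1_8_3_16.Tab.CF
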