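import Pool.Agent.Strip051.PB.Cuts

/-! # Tables I1_8_3_16 (generated) -/

namespace Pool.Agent.Strip051.G.I1_8_3_16.Tab

open Pool.Agent.Strip051.PB

noncomputable def c1g : Fn1 := ⟨_, _, fun h1 => (enc_sqrtg (enc_sub (enc_pnc _ 1) (enc_scale 3 4 (enc_sq h1))))⟩
noncomputable def kcg_3 : Fn2 := ⟨_, _, fun h1 h2 => (enc_subr 5 32 h2)⟩
noncomputable def kcg_6 : Fn2 := ⟨_, _, fun h1 h2 => (enc_add h1 (enc_rat _ 1 4))⟩
noncomputable def kcg_9 : Fn2 := ⟨_, _, fun h1 h2 => (enc_add h1 (enc_rat _ 37 100))⟩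
noncomputable def kcg_12 : Fn2 := ⟨_, _, fun h1 h2 => (enc_add h1 (enc_rat _ 481 1106))⟩
noncomputable def kcg_13 : Fn2 := ⟨_, _, fun h1 h2 => (enc_scale 1294573 4000000 h1)⟩
noncomputable def kcg_17 : Fn2 := ⟨_, _, fun h1 h2 => (enc_scale 38614331 3600000 h1)⟩
noncomputable def kcg_26 : Fn2 := ⟨_, _, fun h1 h2 => (enc_subr 348317 125000 (enc_scale 570543 100000 (kcg_3.enc h1 h2)))⟩
noncomputable def kcg_34 : Fn2 := ⟨_, _, fun h1 h2 => (enc_scale 1701581 7178000 h1)⟩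
noncomputable def kcg_38 : Fn2 := ⟨_, _, fun h1 h2 => (enc_scale 582309 71780 h1)⟩
noncomputable def kcg_46 : Fn2 := ⟨_, _, fun h1 h2 => (enc_add (enc_scale 1727639 50000 (kcg_3.enc h1 h2)) (enc_rat _ 1460931 1000000))⟩
noncomputable def kcg_54 : Fn2 := ⟨_, _, fun h1 h2 => (enc_add h1 (enc_rat _ 23 73))⟩
noncomputable def kcg_55 : Fn2 := ⟨_, _, fun h1 h2 => (enc_scale 2044949 4010000 h1)⟩
noncomputable def kcg_59 : Fn2 := ⟨_, _, fun h1 h2 => (enc_scale 796357 200500 h1)⟩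
noncomputable def kcg_67 : Fn2 := ⟨_, _, fun h1 h2 => (enc_add (enc_scale 1727617 50000 (kcg_3.enc h1 h2)) (enc_rat _ 405259 125000))⟩
noncomputable def kcg_72 : Fn2 := ⟨_, _, fun h1 h2 => (enc_scale 104463 125000 h1)⟩
noncomputable def kcg_77 : Fn2 := ⟨_, _, fun h1 h2 => (enc_scale 73657 475000 h1)⟩
noncomputable def kcg_86 : Fn2 := ⟨_, _, fun h1 h2 => (enc_add (enc_scale 856313 25000 (kcg_3.enc h1 h2)) (enc_rat _ 1134529 500000))⟩
noncomputable def kcg_95 : Fn2 := ⟨_, _, fun h1 h2 => (enc_add h1 (enc_rat _ 29 200))⟩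
noncomputable def kcg_98 : Fn2 := ⟨_, _, fun h1 h2 => (enc_add h1 (enc_rat _ 19 100))⟩
noncomputable def kcg_99 : Fn2 := ⟨_, _, fun h1 h2 => (enc_scale 20183 20000 h1)⟩
noncomputable def kcg_104 : Fn2 := ⟨_, _, fun h1 h2 => (enc_scale 20309 6000 h1)⟩
noncomputable def kcg_114 : Fn2 := ⟨_, _, fun h1 h2 => (enc_add (enc_scale 1668433 100000 (kcg_3.enc h1 h2)) (enc_rat _ 214921 500000))⟩
noncomputable def kcg_119 : Fn2 := ⟨_, _, fun h1 h2 => (enc_scale 14617 15000 h1)⟩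
noncomputable def kcg_124 : Fn2 := ⟨_, _, fun h1 h2 => (enc_scale 19309 4500 h1)⟩
noncomputable def kcg_137 : Fn2 := ⟨_, _, fun h1 h2 => (enc_subr 671727 500000 (enc_neg (enc_scale 105531 50000 (kcg_3.enc h1 h2))))⟩
noncomputable def kcg_145 : Fn2 := ⟨_, _, fun h1 h2 => (enc_add h1 (enc_rat _ 1 10))⟩
noncomputable def kcg_146 : Fn2 := ⟨_, _, fun h1 h2 => (enc_scale 8837 11250 h1)⟩
noncomputable def kcg_151 : Fn2 := ⟨_, _, fun h1 h2 => (enc_scale 387 125 h1)⟩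
noncomputable def kcg_164 : Fn2 := ⟨_, _, fun h1 h2 => (enc_subr 713899 250000 (enc_neg (enc_scale 2443947 100000 (kcg_3.enc h1 h2))))⟩
noncomputable def kcg_172 : Fn2 := ⟨_, _, fun h1 h2 => (enc_scale 313 750 h1)⟩
noncomputable def kcg_177 : Fn2 := ⟨_, _, fun h1 h2 => (enc_scale 2647 3750 h1)⟩
noncomputable def kcg_190 : Fn2 := ⟨_, _, fun h1 h2 => (enc_subr 3195943 500000 (enc_neg (enc_scale 68837 2000 (kcg_3.enc h1 h2))))⟩
noncomputable def kcg_195 : Fn2 := ⟨_, _, fun h1 h2 => (enc_scale 11101 62500 h1)⟩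
noncomputable def kcg_199 : Fn2 := ⟨_, _, fun h1 h2 => (enc_mul (enc_norm (kcg_3.enc h1 h2)) (enc_scale 3657 6250 h1))⟩
noncomputable def kcg_206 : Fn2 := ⟨_, _, fun h1 h2 => (enc_sub (enc_rat _ 1 4) h1)⟩
noncomputable def kcg_207 : Fn2 := ⟨_, _, fun h1 h2 => (enc_sub (enc_rat _ 37 100) h1)⟩
noncomputable def kcg_208 : Fn2 := ⟨_, _, fun h1 h2 => (enc_sub (enc_rat _ 481 1106) h1)⟩
noncomputable def kcg_229 : Fn2 := ⟨_, _, fun h1 h2 => (enc_sub (enc_rat _ 23 73) h1)⟩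
noncomputable def kcg_249 : Fn2 := ⟨_, _, fun h1 h2 => (enc_sub (enc_rat _ 29 200) h1)⟩
noncomputable def kcg_250 : Fn2 := ⟨_, _, fun h1 h2 => (enc_sub (enc_rat _ 19 100) h1)⟩
noncomputable def kcg_268 : Fn2 := ⟨_, _, fun h1 h2 => (enc_sub (enc_rat _ 1 10) h1)⟩
noncomputable def kcg : Fn2 := ⟨_, _, fun h1 h2 => (enc_norm (enc_case h1 (enc_case (kcg_6.enc h1 h2) (enc_case (kcg_9.enc h1 h2) (enc_case (kcg_12.enc h1 h2) (enc_add (enc_add (enc_sub (enc_rat _ 988179 8000000) (kcg_13.enc h1 h2)) (enc_mul (enc_norm (kcg_3.enc h1 h2)) (enc_norm (enc_add (kcg_17.enc h1 h2) (enc_rat _ 32080619 7200000))))) (enc_mul (enc_norm (kcg_26.enc h1 h2)) (enc_norm (enc_mul (enc_norm (enc_add h1 (enc_rat _ 1 2))) (enc_norm (enc_sub (enc_neg (enc_rat _ 481 1106)) h1)))))) (enc_add (enc_add (enc_sub (enc_rat _ 625377 3880000) (kcg_34.enc h1 h2)) (enc_mul (enc_norm (kcg_3.enc h1 h2)) (enc_norm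 (enc_add (kcg_38.enc h1 h2) (enc_rat _ 32193357 9700000))))) (enc_mul (enc_norm (kcg_46.enc h1 h2)) (enc_norm (enc_mul (enc_norm (kcg_12.enc h1 h2)) (enc_norm (enc_sub (enc_neg (enc_rat _ 37 100)) h1))))))) (enc_case (kcg_54.enc h1 h2) (enc_add (enc_add (enc_sub (enc_rat _ 24141777 401000000) (kcg_55.enc h1 h2)) (enc_mul (enc_norm (kcg_3.enc h1 h2)) (enc_norm (enc_add (kcg_59.enc h1 h2) (enc_rat _ 71654549 40100000))))) (enc_mul (enc_norm (kcg_67.enc h1 h2)) (enc_norm (enc_mul (enc_norm (kcg_9.enc h1 h2)) (enc_norm (enc_sub (enc_neg (enc_rat _ 23 73)) h1)))))) (enc_add (enc_add (enc_subr 42427 1000000 (enc_neg (kcg_72.enc h1 h2))) (enc_mul (enc_norm (kcg_3.enc h1 h2)) (enc_norm (enc_sub (enc_rat _ 924603 1900000) (kcg_77.enc h1 h2))))) (enc_mul (enc_norm (kcg_86.enc h1 h2)) (enc_norm (enc_mul (enc_norm (kcg_54.enc h1 h2)) (enc_norm (enc_sub (enc_neg (enc_rat _ 1 4))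 h1)))))))) (enc_case (kcg_95.enc h1 h2) (enc_case (kcg_98.enc h1 h2) (enc_add (enc_add (enc_subr 171577 2000000 (enc_neg (kcg_99.enc h1 h2))) (enc_mul (enc_norm (kcg_3.enc h1 h2)) (enc_norm (enc_subr 38497 120000 (enc_neg (kcg_104.enc h1 h2)))))) (enc_mul (enc_norm (kcg_114.enc h1 h2)) (enc_norm (enc_mul (enc_norm (kcg_6.enc h1 h2)) (enc_norm (enc_sub (enc_neg (enc_rat _ 19 100)) h1)))))) (enc_add (enc_add (enc_subr 59399 750000 (enc_neg (kcg_119.enc h1 h2))) (enc_mul (enc_norm (kcg_3.enc h1 h2)) (enc_norm (enc_subr 443663 900000 (enc_neg (kcg_124.enc h1 h2)))))) (enc_mul (enc_norm (kcg_137.enc h1 h2)) (enc_norm (enc_mul (enc_norm (kcg_98.enc h1 h2)) (enc_norm (enc_sub (enc_neg (enc_rat _ 29 200)) h1))))))) (enc_case (kcg_145.enc h1 h2) (enc_add (enc_add (enc_subr 466201 9000000 (enc_neg (kcg_146.enc h1 h2))) (enc_mul (enc_norm (kcg_3.enc h1 h2)) (enc_norm (enc_subr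 3197 10000 (enc_neg (kcg_151.enc h1 h2)))))) (enc_mul (enc_norm (kcg_164.enc h1 h2)) (enc_norm (enc_mul (enc_norm (kcg_95.enc h1 h2)) (enc_norm (enc_sub (enc_neg (enc_rat _ 1 10)) h1)))))) (enc_case (enc_add h1 (enc_rat _ 1 16)) (enc_add (enc_add (enc_subr 44947 3000000 (enc_neg (kcg_172.enc h1 h2))) (enc_mul (enc_norm (kcg_3.enc h1 h2)) (enc_norm (enc_subr 12103 150000 (enc_neg (kcg_177.enc h1 h2)))))) (enc_mul (enc_norm (kcg_190.enc h1 h2)) (enc_norm (enc_mul (enc_norm (kcg_145.enc h1 h2)) (enc_norm (enc_sub (enc_neg (enc_rat _ 1 16)) h1)))))) (enc_sub (kcg_199.enc h1 h2) (kcg_195.enc h1 h2)))))) (enc_neg (enc_case (kcg_206.enc h1 h2) (enc_case (kcg_207.enc h1 h2) (enc_case (kcg_208.enc h1 h2) (enc_add (enc_add (enc_add (kcg_13.enc h1 h2) (enc_rat _ 988179 8000000)) (enc_mul (enc_norm (kcg_3.enc h1 h2)) (enc_norm (enc_sub (enc_rat _ 32080619 7200000) (kcg_17.enc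 h1 h2))))) (enc_mul (enc_norm (kcg_26.enc h1 h2)) (enc_norm (enc_mul (enc_norm (enc_sub (enc_rat _ 1 2) h1)) (enc_norm (enc_subr 481 1106 h1)))))) (enc_add (enc_add (enc_add (kcg_34.enc h1 h2) (enc_rat _ 625377 3880000)) (enc_mul (enc_norm (kcg_3.enc h1 h2)) (enc_norm (enc_sub (enc_rat _ 32193357 9700000) (kcg_38.enc h1 h2))))) (enc_mul (enc_norm (kcg_46.enc h1 h2)) (enc_norm (enc_mul (enc_norm (kcg_208.enc h1 h2)) (enc_norm (enc_subr 37 100 h1))))))) (enc_case (kcg_229.enc h1 h2) (enc_add (enc_add (enc_add (kcg_55.enc h1 h2) (enc_rat _ 24141777 401000000)) (enc_mul (enc_norm (kcg_3.enc h1 h2)) (enc_norm (enc_sub (enc_rat _ 71654549 40100000) (kcg_59.enc h1 h2))))) (enc_mul (enc_norm (kcg_67.enc h1 h2)) (enc_norm (enc_mul (enc_norm (kcg_207.enc h1 h2)) (enc_norm (enc_subr 23 73 h1)))))) (enc_add (enc_add (enc_subr 42427 1000000 (kcg_72.enc h1 h2)) (enc_mul (enc_norm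 (kcg_3.enc h1 h2)) (enc_norm (enc_add (kcg_77.enc h1 h2) (enc_rat _ 924603 1900000))))) (enc_mul (enc_norm (kcg_86.enc h1 h2)) (enc_norm (enc_mul (enc_norm (kcg_229.enc h1 h2)) (enc_norm (enc_subr 1 4 h1)))))))) (enc_case (kcg_249.enc h1 h2) (enc_case (kcg_250.enc h1 h2) (enc_add (enc_add (enc_subr 171577 2000000 (kcg_99.enc h1 h2)) (enc_mul (enc_norm (kcg_3.enc h1 h2)) (enc_norm (enc_subr 38497 120000 (kcg_104.enc h1 h2))))) (enc_mul (enc_norm (kcg_114.enc h1 h2)) (enc_norm (enc_mul (enc_norm (kcg_206.enc h1 h2)) (enc_norm (enc_subr 19 100 h1)))))) (enc_add (enc_add (enc_subr 59399 750000 (kcg_119.enc h1 h2)) (enc_mul (enc_norm (kcg_3.enc h1 h2)) (enc_norm (enc_subr 443663 900000 (kcg_124.enc h1 h2))))) (enc_mul (enc_norm (kcg_137.enc h1 h2)) (enc_norm (enc_mul (enc_norm (kcg_250.enc h1 h2)) (enc_norm (enc_subr 29 200 h1))))))) (enc_case (kcg_268.enc h1 h2) (enc_add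 (enc_add (enc_subr 466201 9000000 (kcg_146.enc h1 h2)) (enc_mul (enc_norm (kcg_3.enc h1 h2)) (enc_norm (enc_subr 3197 10000 (kcg_151.enc h1 h2))))) (enc_mul (enc_norm (kcg_164.enc h1 h2)) (enc_norm (enc_mul (enc_norm (kcg_249.enc h1 h2)) (enc_norm (enc_subr 1 10 h1)))))) (enc_case (enc_sub (enc_rat _ 1 16) h1) (enc_add (enc_add (enc_subr 44947 3000000 (kcg_172.enc h1 h2)) (enc_mul (enc_norm (kcg_3.enc h1 h2)) (enc_norm (enc_subr 12103 150000 (kcg_177.enc h1 h2))))) (enc_mul (enc_norm (kcg_190.enc h1 h2)) (enc_norm (enc_mul (enc_norm (kcg_268.enc h1 h2)) (enc_norm (enc_subr 1 16 h1)))))) (enc_sub (kcg_195.enc h1 h2) (kcg_199.enc h1 h2)))))))))⟩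
noncomputable def kf0q0_9 : Fn2 := ⟨_, _, fun h1 h2 => (enc_scale 3 2 h1)⟩
noncomputable def kf0q0_12 : Fn2 := ⟨_, _, fun h1 h2 => (enc_add (enc_pnc _ 1) (c1g.enc h1))⟩
noncomputable def kf0q0 : Fn2 := ⟨_, _, fun h1 h2 => (enc_norm (enc_add (enc_mul (enc_norm (enc_mul (enc_norm (enc_sub (c1g.enc h1) (kf0q0_9.enc h1 h2))) (enc_norm (kf0q0_12.enc h1 h2)))) (enc_inv (enc_sub (kf0q0_12.enc h1 h2) (kf0q0_9.enc h1 h2)))) (enc_mul h1 (kcg.enc (enc_norm (enc_sub (enc_scale 3 4 h1) (enc_half (c1g.enc h1)))) h2))))⟩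
noncomputable def txg_4 : Fn3 := ⟨_, _, fun h1 h2 h3 => (enc_subr 5 32 h3)⟩
noncomputable def txg_6 : Fn3 := ⟨_, _, fun h1 h2 h3 => (enc_add h1 (enc_half h2))⟩
noncomputable def txg_27 : Fn3 := ⟨_, _, fun h1 h2 h3 => (enc_add h1 (enc_rat _ 181 400))⟩
noncomputable def txg_63 : Fn3 := ⟨_, _, fun h1 h2 h3 => (enc_sq (enc_norm (txg_4.enc h1 h2 h3)))⟩
noncomputable def txg_77 : Fn3 := ⟨_, _, fun h1 h2 h3 => (enc_add h1 (enc_rat _ 23 73))⟩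
noncomputable def txg_79 : Fn3 := ⟨_, _, fun h1 h2 h3 => (enc_subr 1 16 h1)⟩
noncomputable def txg_82 : Fn3 := ⟨_, _, fun h1 h2 h3 => (enc_add h1 (enc_rat _ 3 20))⟩
noncomputable def txg_85 : Fn3 := ⟨_, _, fun h1 h2 h3 => (enc_add h1 (enc_rat _ 27 100))⟩
noncomputable def txg_114 : Fn3 := ⟨_, _, fun h1 h2 h3 => (enc_add h1 (enc_rat _ 1 5))⟩
noncomputable def txg_153 : Fn3 := ⟨_, _, fun h1 h2 h3 => (enc_add h1 (enc_rat _ 1 10))⟩
noncomputable def txg_171 : Fn3 := ⟨_, _, fun h1 h2 h3 => (enc_add h1 (enc_rat _ 1 16))⟩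
noncomputable def txg_213 : Fn3 := ⟨_, _, fun h1 h2 h3 => (enc_subr 1 4 h1)⟩
noncomputable def txg_215 : Fn3 := ⟨_, _, fun h1 h2 h3 => (enc_subr 3 25 h1)⟩
noncomputable def txg_237 : Fn3 := ⟨_, _, fun h1 h2 h3 => (enc_subr 9 50 h1)⟩
noncomputable def txg_279 : Fn3 := ⟨_, _, fun h1 h2 h3 => (enc_subr 19 50 h1)⟩
noncomputable def txg_281 : Fn3 := ⟨_, _, fun h1 h2 h3 => (enc_subr 8 25 h1)⟩
noncomputable def txg_323 : Fn3 := ⟨_, _, fun h1 h2 h3 => (enc_subr 7 16 h1)⟩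
noncomputable def txg : Fn3 := ⟨_, _, fun h1 h2 h3 => (enc_case (enc_add h1 (enc_rat _ 481 1106)) (enc_case (txg_27.enc h1 h2 h3) (enc_add (enc_add (enc_add (enc_scale 1423 23750 h1) (enc_rat _ 1423 47500)) (enc_mul (enc_norm (txg_4.enc h1 h2 h3)) (enc_norm (enc_add (enc_scale 1413 4750 h1) (enc_rat _ 1413 9500))))) (enc_mul (enc_norm (enc_subr 332763 1000000 (enc_neg (enc_scale 8673 5000 (txg_4.enc h1 h2 h3))))) (enc_norm (enc_mul (enc_norm (enc_add h1 (enc_rat _ 1 2))) (enc_norm (enc_sub (enc_neg (enc_rat _ 181 400)) h1)))))) (enc_add (enc_add (enc_add (enc_add (enc_scale 3303099213 43056580000 h1) (enc_rat _ 25875062729 688905280000)) (enc_mul (enc_norm (txg_4.enc h1 h2 h3)) (enc_norm (enc_add (enc_scale 279447811 861131600 h1) (enc_rat _ 277235847971 1722263200000))))) (enc_mul (txg_63.enc h1 h2 h3) (enc_norm (enc_subr 41649729 97325000 (enc_neg (enc_scale 460218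 486625 h1)))))) (enc_mul (enc_norm (enc_add (enc_scale 145949 100000 (txg_4.enc h1 h2 h3)) (enc_rat _ 1899 62500))) (enc_norm (enc_mul (enc_norm (txg_27.enc h1 h2 h3)) (enc_norm (enc_sub (enc_neg (enc_rat _ 481 1106)) h1))))))) (enc_case (txg_77.enc h1 h2 h3) (enc_sub (enc_mul (enc_norm (enc_sub (enc_pnc _ 1) h2)) (enc_norm (enc_subn 1 (enc_nat 2 h2)))) (enc_mul (enc_norm (enc_nat 2 (enc_sub (enc_scale 4 3 (txg_6.enc h1 h2 h3)) h3))) (enc_norm (enc_mul (enc_norm (enc_subn 1 (enc_add (enc_scale 2 3 (txg_6.enc h1 h2 h3)) h2))) (kcg.enc h1 h3))))) (enc_case (txg_79.enc h1 h2 h3) (enc_case (txg_82.enc h1 h2 h3) (enc_case (txg_85.enc h1 h2 h3) (enc_add (enc_add (enc_add (enc_add (enc_scale 516307313 3842720000 h1) (enc_rat _ 22591412987 384272000000)) (enc_mul (enc_norm (txg_4.enc h1 h2 h3)) (enc_norm (enc_sub (enc_rat _ 312969591 192136000000) (enc_scale 200398587 1921360000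 h1))))) (enc_mul (txg_63.enc h1 h2 h3) (enc_norm (enc_subr 1445823 2350000 (enc_neg (enc_scale 53549 23500 h1)))))) (enc_mul (enc_norm (enc_sub (enc_rat _ 205013 1000000) (enc_scale 78849 50000 (txg_4.enc h1 h2 h3)))) (enc_norm (enc_mul (enc_norm (txg_77.enc h1 h2 h3)) (enc_norm (enc_sub (enc_neg (enc_rat _ 27 100)) h1)))))) (enc_case (txg_114.enc h1 h2 h3) (enc_add (enc_add (enc_add (enc_scale 3989 35000 h1) (enc_rat _ 372997 7000000)) (enc_mul (enc_norm (txg_4.enc h1 h2 h3)) (enc_norm (enc_add (enc_scale 59 700 h1) (enc_rat _ 36783 700000))))) (enc_mul (enc_norm (enc_sub (enc_rat _ 28679 200000) (enc_scale 76831 50000 (txg_4.enc h1 h2 h3)))) (enc_norm (enc_mul (enc_norm (txg_85.enc h1 h2 h3)) (enc_norm (enc_sub (enc_neg (enc_rat _ 1 5)) h1)))))) (enc_add (enc_add (enc_add (enc_scale 549 6250 h1) (enc_rat _ 48059 1000000)) (enc_mul (enc_norm (txg_4.enc h1 h2 h3))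 (enc_norm (enc_add (enc_scale 617 5000 h1) (enc_rat _ 6037 100000))))) (enc_mul (enc_norm (enc_add (enc_scale 136821 100000 (txg_4.enc h1 h2 h3)) (enc_rat _ 10039 31250))) (enc_norm (enc_mul (enc_norm (txg_114.enc h1 h2 h3)) (enc_norm (enc_sub (enc_neg (enc_rat _ 3 20)) h1)))))))) (enc_case (txg_153.enc h1 h2 h3) (enc_add (enc_add (enc_add (enc_scale 1327 25000 h1) (enc_rat _ 8569 200000)) (enc_mul (enc_norm (txg_4.enc h1 h2 h3)) (enc_norm (enc_add (enc_scale 39 1000 h1) (enc_rat _ 4771 100000))))) (enc_mul (enc_norm (enc_add (enc_scale 7983 25000 (txg_4.enc h1 h2 h3)) (enc_rat _ 93619 250000))) (enc_norm (enc_mul (enc_norm (txg_82.enc h1 h2 h3)) (enc_norm (enc_sub (enc_neg (enc_rat _ 1 10)) h1)))))) (enc_case (txg_171.enc h1 h2 h3) (enc_add (enc_add (enc_add (enc_scale 299 12500 h1) (enc_rat _ 39929 1000000)) (enc_mul (enc_norm (txg_4.enc h1 h2 h3)) (enc_norm (enc_sub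 (enc_rat _ 11767 300000) (enc_scale 86 1875 h1))))) (enc_mul (enc_norm (enc_add (enc_scale 7341 4000 (txg_4.enc h1 h2 h3)) (enc_rat _ 277831 1000000))) (enc_norm (enc_mul (enc_norm (txg_153.enc h1 h2 h3)) (enc_norm (enc_sub (enc_neg (enc_rat _ 1 16)) h1)))))) (enc_add (enc_add (enc_sub (enc_rat _ 37523 1000000) (enc_scale 911 62500 h1)) (enc_mul (enc_norm (txg_4.enc h1 h2 h3)) (enc_norm (enc_sub (enc_rat _ 7519 200000) (enc_scale 899 12500 h1))))) (enc_mul (enc_norm (enc_sub (enc_rat _ 56181 250000) (enc_scale 34177 100000 (txg_4.enc h1 h2 h3)))) (enc_norm (enc_mul (enc_norm (txg_171.enc h1 h2 h3)) (enc_norm (enc_sub (enc_rat _ 1 16) h1))))))))) (enc_case (txg_213.enc h1 h2 h3) (enc_case (txg_215.enc h1 h2 h3) (enc_add (enc_add (enc_sub (enc_rat _ 468713 11500000) (enc_scale 1907 28750 h1)) (enc_mul (enc_norm (txg_4.enc h1 h2 h3)) (enc_norm (enc_sub (enc_rat _ 7623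 230000) (enc_scale 2 2875 h1))))) (enc_mul (enc_norm (enc_sub (enc_rat _ 205629 500000) (enc_scale 49463 100000 (txg_4.enc h1 h2 h3)))) (enc_norm (enc_mul (enc_norm (txg_79.enc h1 h2 h3)) (enc_norm (enc_sub (enc_rat _ 3 25) h1)))))) (enc_case (txg_237.enc h1 h2 h3) (enc_add (enc_add (enc_sub (enc_rat _ 5673 125000) (enc_scale 6293 60000 h1)) (enc_mul (enc_norm (txg_4.enc h1 h2 h3)) (enc_norm (enc_add (enc_scale 151 3000 h1) (enc_rat _ 1351 50000))))) (enc_mul (enc_norm (enc_sub (enc_rat _ 124339 500000) (enc_scale 37633 100000 (txg_4.enc h1 h2 h3)))) (enc_norm (enc_mul (enc_norm (txg_215.enc h1 h2 h3)) (enc_norm (enc_sub (enc_rat _ 9 50) h1)))))) (enc_add (enc_add (enc_sub (enc_rat _ 339993 7000000) (enc_scale 8581 70000 h1)) (enc_mul (enc_norm (txg_4.enc h1 h2 h3)) (enc_norm (enc_add (enc_scale 661 7000 h1) (enc_rat _ 6679 350000))))) (enc_mul (enc_norm (enc_sub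 (enc_rat _ 19831 500000) (enc_scale 6133 20000 (txg_4.enc h1 h2 h3)))) (enc_norm (enc_mul (enc_norm (txg_237.enc h1 h2 h3)) (enc_norm (enc_sub (enc_rat _ 1 4) h1)))))))) (enc_case (txg_279.enc h1 h2 h3) (enc_case (txg_281.enc h1 h2 h3) (enc_add (enc_add (enc_sub (enc_rat _ 20973 437500) (enc_scale 2101 17500 h1)) (enc_mul (enc_norm (txg_4.enc h1 h2 h3)) (enc_norm (enc_add (enc_scale 559 3500 h1) (enc_rat _ 1933 700000))))) (enc_mul (enc_norm (enc_subr 37853 500000 (enc_neg (enc_scale 62707 100000 (txg_4.enc h1 h2 h3))))) (enc_norm (enc_mul (enc_norm (txg_213.enc h1 h2 h3)) (enc_norm (enc_sub (enc_rat _ 8 25) h1)))))) (enc_add (enc_add (enc_sub (enc_rat _ 1227 31250) (enc_scale 1859 20000 h1)) (enc_mul (enc_norm (txg_4.enc h1 h2 h3)) (enc_norm (enc_sub (enc_rat _ 6701 60000) (enc_scale 271 1500 h1))))) (enc_mul (enc_norm (enc_subr 72711 200000 (enc_scale 640317 100000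 (txg_4.enc h1 h2 h3)))) (enc_norm (enc_mul (enc_norm (txg_281.enc h1 h2 h3)) (enc_norm (enc_sub (enc_rat _ 19 50) h1))))))) (enc_case (txg_323.enc h1 h2 h3) (enc_add (enc_add (enc_sub (enc_rat _ 24007 1000000) (enc_scale 33 625 h1)) (enc_mul (enc_norm (txg_4.enc h1 h2 h3)) (enc_norm (enc_sub (enc_rat _ 508761 2300000) (enc_scale 1348 2875 h1))))) (enc_mul (enc_norm (enc_subr 159471 500000 (enc_neg (enc_scale 166907 100000 (txg_4.enc h1 h2 h3))))) (enc_norm (enc_mul (enc_norm (txg_279.enc h1 h2 h3)) (enc_norm (enc_sub (enc_rat _ 7 16) h1)))))) (enc_add (enc_add (enc_sub (enc_rat _ 907 125000) (enc_scale 907 62500 h1)) (enc_mul (enc_norm (txg_4.enc h1 h2 h3)) (enc_norm (enc_sub (enc_rat _ 1607 12500) (enc_scale 1607 6250 h1))))) (enc_mul (enc_norm (enc_subr 159707 500000 (enc_neg (enc_scale 185303 100000 (txg_4.enc h1 h2 h3))))) (enc_norm (enc_mul (enc_norm (txg_323.enc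 h1 h2 h3)) (enc_norm (enc_sub (enc_rat _ 1 2) h1))))))))))))⟩
noncomputable def l0q0 : Fn2 := ⟨_, _, fun h1 h2 => (enc_norm (txg.enc (enc_norm (enc_sub (enc_scale 3 4 h1) (enc_half (c1g.enc h1)))) (c1g.enc h1) h2))⟩
noncomputable def kf0q1_10 : Fn2 := ⟨_, _, fun h1 h2 => (enc_scale 3 2 h1)⟩
noncomputable def kf0q1 : Fn2 := ⟨_, _, fun h1 h2 => (enc_norm (enc_add (enc_mul (enc_norm (enc_mul (enc_norm (enc_add (enc_pnc _ 1) (enc_nat 2 (c1g.enc h1)))) (enc_norm (enc_sub (kf0q1_10.enc h1 h2) (c1g.enc h1))))) (enc_inv (enc_nat 2 (enc_sub (enc_add (enc_pnc _ 1) (kf0q1_10.enc h1 h2)) (c1g.enc h1))))) (enc_mul (enc_norm (enc_subn 1 h1)) (kcg.enc (enc_norm (enc_sub (enc_scale 3 4 h1) (enc_half (c1g.enc h1)))) h2))))⟩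
noncomputable def l0q1 : Fn2 := ⟨_, _, fun h1 h2 => (enc_norm (txg.enc (enc_norm (enc_sub (enc_scale 3 4 h1) (enc_half (c1g.enc h1)))) (c1g.enc h1) h2))⟩
noncomputable def yag : Fn1 := ⟨_, _, fun h1 => (enc_sqrt (enc_scale 4 3 (enc_sub (enc_pnc _ 1) (enc_sq h1))))⟩
noncomputable def kfc02 : Fn2 := ⟨_, _, fun h1 h2 => (enc_norm (enc_add h1 (enc_mul (enc_norm (enc_subn 1 (yag.enc h1))) (kcg.enc (enc_neg h1) h2))))⟩
noncomputable def lc02_7 : Fn2 := ⟨_, _, fun h1 h2 => (enc_scale 3 4 (yag.enc h1))⟩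
noncomputable def lc02_8 : Fn2 := ⟨_, _, fun h1 h2 => (enc_half h1)⟩
noncomputable def lc02 : Fn2 := ⟨_, _, fun h1 h2 => (enc_norm (enc_sub (txg.enc (enc_neg h1) (enc_norm (enc_add (lc02_7.enc h1 h2) (lc02_8.enc h1 h2))) h2) (txg.enc h1 (enc_norm (enc_sub (lc02_7.enc h1 h2) (lc02_8.enc h1 h2))) h2)))⟩
noncomputable def swg : Fn1 := ⟨_, _, fun h1 => (enc_sqrt (enc_sub (enc_pnc _ 1) (enc_scale 3 4 (enc_sq (enc_norm (enc_subn 1 h1))))))⟩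
noncomputable def cv1m : Fn1 := ⟨_, _, fun h1 => (enc_norm (enc_add (enc_half (c1g.enc h1)) (enc_half (enc_add (swg.enc h1) (enc_rat _ 1 2)))))⟩
noncomputable def bf1q0 : Fn2 := ⟨_, _, fun h1 h2 => (enc_norm (enc_sub (enc_sub (enc_pnc _ 1) (enc_scale 342697 500000 h1)) (enc_mul (enc_norm (enc_subr 5 32 h2)) (enc_scale 24713 50000 h1))))⟩
noncomputable def kf1q0 : Fn2 := ⟨_, _, fun h1 h2 => (enc_norm (enc_mul (cv1m.enc h1) (bf1q0.enc h1 h2)))⟩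
noncomputable def bx1q0 : Fn2 := ⟨_, _, fun h1 h2 => (enc_norm (enc_add (enc_scale 121 500000 h1) (enc_mul (enc_norm (enc_subr 5 32 h2)) (enc_scale 3429 25000 h1))))⟩
noncomputable def l1q0 : Fn2 := ⟨_, _, fun h1 h2 => (enc_norm (enc_mul (cv1m.enc h1) (bx1q0.enc h1 h2)))⟩
noncomputable def bf1q1_3 : Fn2 := ⟨_, _, fun h1 h2 => (enc_subr 5 32 h2)⟩
noncomputable def bf1q1 : Fn2 := ⟨_, _, fun h1 h2 => (enc_norm (enc_case (enc_subr 4 5 h1) (enc_case (enc_subr 7 10 h1) (enc_add (enc_add (enc_scale 28489 50000 h1) (enc_rat _ 12351 250000)) (enc_mul (enc_norm (bf1q1_3.enc h1 h2)) (enc_norm (enc_subr 317519 200000 (enc_scale 4863 4000 h1))))) (enc_add (enc_add (enc_scale 57317 100000 h1) (enc_rat _ 47031 1000000)) (enc_mul (enc_norm (bf1q1_3.enc h1 h2)) (enc_norm (enc_subr 31831 20000 (enc_scale 6107 5000 h1)))))) (enc_case (enc_subr 7 8 h1) (enc_add (enc_add (enc_scale 43271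 75000 h1) (enc_rat _ 132029 3000000)) (enc_mul (enc_norm (bf1q1_3.enc h1 h2)) (enc_norm (enc_subr 159779 100000 (enc_scale 3073 2500 h1))))) (enc_case (enc_subr 19 20 h1) (enc_add (enc_add (enc_scale 1451 2500 h1) (enc_rat _ 10247 250000)) (enc_mul (enc_norm (bf1q1_3.enc h1 h2)) (enc_norm (enc_subr 40111 25000 (enc_scale 773 625 h1))))) (enc_add (enc_add (enc_scale 7283 12500 h1) (enc_rat _ 1943 50000)) (enc_mul (enc_norm (bf1q1_3.enc h1 h2)) (enc_norm (enc_subr 80431 50000 (enc_scale 3103 2500 h1)))))))))⟩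
noncomputable def kf1q1 : Fn2 := ⟨_, _, fun h1 h2 => (enc_norm (enc_mul (cv1m.enc h1) (bf1q1.enc h1 h2)))⟩
noncomputable def bx1q1_3 : Fn2 := ⟨_, _, fun h1 h2 => (enc_subr 5 32 h2)⟩
noncomputable def bx1q1 : Fn2 := ⟨_, _, fun h1 h2 => (enc_norm (enc_case (enc_subr 4 5 h1) (enc_case (enc_subr 7 10 h1) (enc_add (enc_sub (enc_rat _ 64579 2000000) (enc_scale 10513 200000 h1)) (enc_mul (enc_norm (bx1q1_3.enc h1 h2)) (enc_norm (enc_sub (enc_rat _ 77113 100000) (enc_scale 309 400 h1))))) (enc_add (enc_sub (enc_rat _ 26861 1000000) (enc_scale 4481 100000 h1)) (enc_mul (enc_norm (bx1q1_3.enc h1 h2)) (enc_norm (enc_sub (enc_rat _ 74607 100000) (enc_scale 7367 10000 h1)))))) (enc_case (enc_subr 7 8 h1) (enc_add (enc_sub (enc_rat _ 51823 3000000) (enc_scale 1231 37500 h1)) (enc_mul (enc_norm (bx1q1_3.enc h1 h2)) (enc_norm (enc_sub (enc_rat _ 216421 300000) (enc_scale 2647 3750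 h1))))) (enc_case (enc_subr 19 20 h1) (enc_add (enc_sub (enc_rat _ 19483 3000000) (enc_scale 769 37500 h1)) (enc_mul (enc_norm (bx1q1_3.enc h1 h2)) (enc_norm (enc_sub (enc_rat _ 52609 75000) (enc_scale 5123 7500 h1))))) (enc_add (enc_subr 79 62500 (enc_neg (enc_scale 617 50000 h1))) (enc_mul (enc_norm (bx1q1_3.enc h1 h2)) (enc_norm (enc_sub (enc_rat _ 17283 25000) (enc_scale 1681 2500 h1)))))))))⟩
noncomputable def l1q1 : Fn2 := ⟨_, _, fun h1 h2 => (enc_norm (enc_mul (cv1m.enc h1) (bx1q1.enc h1 h2)))⟩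
noncomputable def xc12a : Fn1 := ⟨_, _, fun h1 => (enc_norm (enc_add (enc_half h1) (enc_half (enc_subr 1 2 (swg.enc (yag.enc h1))))))⟩
noncomputable def bf1q2_3 : Fn2 := ⟨_, _, fun h1 h2 => (enc_subr 5 32 h2)⟩
noncomputable def bf1q2 : Fn2 := ⟨_, _, fun h1 h2 => (enc_norm (enc_case (enc_subr 577 500 h1) (enc_case (enc_subr 53 50 h1) (enc_case (enc_subr 103 100 h1) (enc_add (enc_add (enc_scale 721 7500 h1) (enc_rat _ 6779 7500)) (enc_mul (enc_norm (bf1q2_3.enc h1 h2)) (enc_norm (enc_sub (enc_rat _ 561 500) (enc_scale 561 500 h1))))) (enc_add (enc_add (enc_scale 2231 15000 h1) (enc_rat _ 1274533 1500000)) (enc_mul (enc_norm (bf1q2_3.enc h1 h2)) (enc_norm (enc_sub (enc_rat _ 1019 1000) (enc_scale 511 500 h1)))))) (enc_case (enc_subr 11 10 h1) (enc_add (enc_add (enc_scale 1637 8000 h1) (enc_rat _ 1580887 2000000)) (enc_mul (enc_norm (bf1q2_3.enc h1 h2)) (enc_norm (enc_sub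 (enc_rat _ 73473 200000) (enc_scale 1629 4000 h1))))) (enc_add (enc_add (enc_scale 1477733 6750000 h1) (enc_rat _ 104586559 135000000)) (enc_mul (enc_norm (bf1q2_3.enc h1 h2)) (enc_norm (enc_sub (enc_rat _ 507949 4500000) (enc_scale 39577 225000 h1))))))) (enc_case (enc_subr 29 25 h1) (enc_case (enc_subr 231 200 h1) (enc_add (enc_add (enc_scale 11101 62500 h1) (enc_rat _ 51399 62500)) (enc_mul (enc_norm (bf1q2_3.enc h1 h2)) (enc_norm (enc_sub (enc_rat _ 3657 6250) (enc_scale 3657 6250 h1))))) (enc_add (enc_add (enc_scale 21963 125000 h1) (enc_rat _ 20614809 25000000)) (enc_mul (enc_norm (bf1q2_3.enc h1 h2)) (enc_norm (enc_sub (enc_rat _ 1422837 2500000) (enc_scale 7141 12500 h1)))))) (enc_case (enc_subr 5 4 h1) (enc_add (enc_add (enc_scale 1301 7500 h1) (enc_rat _ 2481563 3000000)) (enc_mul (enc_norm (bf1q2_3.enc h1 h2)) (enc_norm (enc_sub (enc_rat _ 503693 900000)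 (enc_scale 1267 2250 h1))))) (enc_case (enc_subr 27 20 h1) (enc_add (enc_add (enc_scale 17149 100000 h1) (enc_rat _ 1659317 2000000)) (enc_mul (enc_norm (bf1q2_3.enc h1 h2)) (enc_norm (enc_sub (enc_rat _ 110179 200000) (enc_scale 5561 10000 h1))))) (enc_add (enc_add (enc_scale 5107 30000 h1) (enc_rat _ 166271 200000)) (enc_mul (enc_norm (bf1q2_3.enc h1 h2)) (enc_norm (enc_sub (enc_rat _ 10909 20000) (enc_scale 8281 15000 h1))))))))))⟩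
noncomputable def kfc12a : Fn2 := ⟨_, _, fun h1 h2 => (enc_norm (enc_mul (enc_norm (enc_add (enc_half h1) (enc_half (enc_subr 1 2 (swg.enc (yag.enc h1)))))) (bf1q2.enc (yag.enc h1) h2)))⟩
noncomputable def bx1q2_3 : Fn2 := ⟨_, _, fun h1 h2 => (enc_subr 5 32 h2)⟩
noncomputable def bx1q2 : Fn2 := ⟨_, _, fun h1 h2 => (enc_norm (enc_case (enc_subr 577 500 h1) (enc_case (enc_subr 53 50 h1) (enc_case (enc_subr 103 100 h1) (enc_add (enc_subr 1897 15000 (enc_scale 1897 15000 h1)) (enc_mul (enc_norm (bx1q2_3.enc h1 h2)) (enc_norm (enc_subr 121 375 (enc_scale 121 375 h1))))) (enc_add (enc_subr 319583 1500000 (enc_scale 1579 7500 h1)) (enc_mul (enc_norm (bx1q2_3.enc h1 h2)) (enc_norm (enc_subr 19259 30000 (enc_scale 949 1500 h1)))))) (enc_case (enc_subr 11 10 h1) (enc_add (enc_subr 8171 40000 (enc_scale 809 4000 h1)) (enc_mul (enc_norm (bx1q2_3.enc h1 h2)) (enc_norm (enc_subr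 78701 100000 (enc_scale 1539 2000 h1))))) (enc_add (enc_subr 27661 135000 (enc_scale 1369 6750 h1)) (enc_mul (enc_norm (bx1q2_3.enc h1 h2)) (enc_norm (enc_subr 560189 337500 (enc_scale 211 135 h1))))))) (enc_case (enc_subr 29 25 h1) (enc_case (enc_subr 231 200 h1) (enc_add (enc_rat _ 911 31250) (enc_scale 899 6250 (bx1q2_3.enc h1 h2))) (enc_add (enc_add (enc_scale 9 2500 h1) (enc_rat _ 12497 500000)) (enc_mul (enc_norm (bx1q2_3.enc h1 h2)) (enc_norm (enc_add (enc_scale 1 500 h1) (enc_rat _ 14153 100000)))))) (enc_case (enc_subr 5 4 h1) (enc_add (enc_add (enc_scale 53 15000 h1) (enc_rat _ 37607 1500000)) (enc_mul (enc_norm (bx1q2_3.enc h1 h2)) (enc_norm (enc_add (enc_scale 173 4500 h1) (enc_rat _ 89329 900000))))) (enc_case (enc_subr 27 20 h1) (enc_add (enc_add (enc_scale 227 50000 h1) (enc_rat _ 23813 1000000)) (enc_mul (enc_norm (bx1q2_3.enc h1 h2)) (enc_norm (enc_add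 (enc_scale 231 5000 h1) (enc_rat _ 2239 25000))))) (enc_add (enc_add (enc_scale 709 150000 h1) (enc_rat _ 23561 1000000)) (enc_mul (enc_norm (bx1q2_3.enc h1 h2)) (enc_norm (enc_add (enc_scale 703 15000 h1) (enc_rat _ 4433 50000))))))))))⟩
noncomputable def lc12a : Fn2 := ⟨_, _, fun h1 h2 => (enc_norm (enc_mul (enc_norm (enc_add (enc_half h1) (enc_half (enc_subr 1 2 (swg.enc (yag.enc h1)))))) (bx1q2.enc (yag.enc h1) h2)))⟩
noncomputable def xc12b : Fn1 := ⟨_, _, fun h1 => (enc_norm (enc_half (enc_subr 1 2 (swg.enc h1))))⟩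
noncomputable def kfc12b : Fn2 := ⟨_, _, fun h1 h2 => (enc_norm (enc_mul (enc_norm (enc_half (enc_subr 1 2 (swg.enc h1)))) (bf1q2.enc h1 h2)))⟩
noncomputable def lc12b : Fn2 := ⟨_, _, fun h1 h2 => (enc_norm (enc_mul (enc_norm (enc_half (enc_subr 1 2 (swg.enc h1)))) (bx1q2.enc h1 h2)))⟩
noncomputable def cv1r : Fn1 := ⟨_, _, fun h1 => (enc_norm (enc_half (enc_subr 1 2 (swg.enc h1))))⟩
noncomputable def bf1q3 : Fn2 := ⟨_, _, fun h1 h2 => (enc_norm (enc_add (enc_subr 20381 1000000 (enc_scale 217 62500 h1)) (enc_mul (enc_norm (enc_subr 5 32 h2)) (enc_norm (enc_subr 5129 100000 (enc_scale 53 5000 h1))))))⟩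
noncomputable def kf1q3 : Fn2 := ⟨_, _, fun h1 h2 => (enc_norm (enc_mul (cv1r.enc h1) (bf1q3.enc h1 h2)))⟩
noncomputable def bx1q3 : Fn2 := ⟨_, _, fun h1 h2 => (enc_norm (enc_add (enc_sub (enc_rat _ 61643 1000000) (enc_scale 1593 125000 h1)) (enc_mul (enc_norm (enc_subr 5 32 h2)) (enc_norm (enc_sub (enc_rat _ 25989 100000) (enc_scale 339 6250 h1))))))⟩
noncomputable def l1q3 : Fn2 := ⟨_, _, fun h1 h2 => (enc_norm (enc_mul (cv1r.enc h1) (bx1q3.enc h1 h2)))⟩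
noncomputable def cv2m : Fn1 := ⟨_, _, fun h1 => (enc_norm (enc_add (enc_scale 1 10 (c1g.enc h1)) (enc_scale 9 10 (enc_add (swg.enc h1) (enc_rat _ 1 2)))))⟩
noncomputable def bf2q0 : Fn2 := ⟨_, _, fun h1 h2 => (enc_norm (enc_sub (enc_sub (enc_pnc _ 1) (enc_scale 219113 500000 h1)) (enc_mul (enc_norm (enc_subr 5 32 h2)) (enc_scale 15487 50000 h1))))⟩
noncomputable def kf2q0 : Fn2 := ⟨_, _, fun h1 h2 => (enc_norm (enc_mul (cv2m.enc h1) (bf2q0.enc h1 h2)))⟩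
noncomputable def bx2q0 : Fn2 := ⟨_, _, fun h1 h2 => (enc_norm (enc_sub (enc_scale 27681 250000 h1) (enc_mul (enc_norm (enc_subr 5 32 h2)) (enc_scale 62003 50000 h1))))⟩
noncomputable def l2q0 : Fn2 := ⟨_, _, fun h1 h2 => (enc_norm (enc_mul (cv2m.enc h1) (bx2q0.enc h1 h2)))⟩
noncomputable def bf2q1_3 : Fn2 := ⟨_, _, fun h1 h2 => (enc_subr 5 32 h2)⟩
noncomputable def bf2q1 : Fn2 := ⟨_, _, fun h1 h2 => (enc_norm (enc_case (enc_subr 4 5 h1) (enc_case (enc_subr 7 10 h1) (enc_add (enc_subr 27601 1000000 (enc_scale 123 125 h1)) (enc_mul (enc_norm (bf2q1_3.enc h1 h2)) (enc_norm (enc_sub (enc_rat _ 11451 8000) (enc_scale 27551 20000 h1))))) (enc_add (enc_subr 33201 1000000 (enc_scale 124 125 h1)) (enc_mul (enc_norm (bf2q1_3.enc h1 h2)) (enc_norm (enc_sub (enc_rat _ 72281 50000) (enc_scale 13979 10000 h1)))))) (enc_case (enc_subr 7 8 h1) (enc_add (enc_subr 41553 1000000 (enc_scale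 25061 25000 h1)) (enc_mul (enc_norm (bf2q1_3.enc h1 h2)) (enc_norm (enc_sub (enc_rat _ 44251 30000) (enc_scale 538 375 h1))))) (enc_case (enc_subr 19 20 h1) (enc_add (enc_subr 13127 250000 (enc_scale 12687 12500 h1)) (enc_mul (enc_norm (bf2q1_3.enc h1 h2)) (enc_norm (enc_sub (enc_rat _ 91183 60000) (enc_scale 11143 7500 h1))))) (enc_add (enc_subr 56517 1000000 (enc_scale 50959 50000 h1)) (enc_mul (enc_norm (bf2q1_3.enc h1 h2)) (enc_norm (enc_sub (enc_rat _ 31129 20000) (enc_scale 3811 2500 h1)))))))))⟩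
noncomputable def kf2q1 : Fn2 := ⟨_, _, fun h1 h2 => (enc_norm (enc_mul (cv2m.enc h1) (bf2q1.enc h1 h2)))⟩
noncomputable def bx2q1_3 : Fn2 := ⟨_, _, fun h1 h2 => (enc_subr 5 32 h2)⟩
noncomputable def bx2q1 : Fn2 := ⟨_, _, fun h1 h2 => (enc_norm (enc_case (enc_subr 4 5 h1) (enc_case (enc_subr 7 10 h1) (enc_add (enc_sub (enc_rat _ 47739 2000000) (enc_scale 3351 200000 h1)) (enc_mul (enc_norm (bx2q1_3.enc h1 h2)) (enc_norm (enc_sub (enc_rat _ 122589 200000) (enc_scale 2629 4000 h1))))) (enc_add (enc_sub (enc_rat _ 3391 125000) (enc_scale 2141 100000 h1)) (enc_mul (enc_norm (bx2q1_3.enc h1 h2)) (enc_norm (enc_sub (enc_rat _ 1958 3125) (enc_scale 6767 10000 h1)))))) (enc_case (enc_subr 7 8 h1) (enc_add (enc_sub (enc_rat _ 281 7500) (enc_scale 103 3000 h1)) (enc_mul (enc_norm (bx2q1_3.enc h1 h2)) (enc_norm (enc_sub (enc_rat _ 8033 12500) (enc_scale 871 1250 h1))))) (enc_case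 (enc_subr 19 20 h1) (enc_add (enc_sub (enc_rat _ 1811 37500) (enc_scale 3503 75000 h1)) (enc_mul (enc_norm (bx2q1_3.enc h1 h2)) (enc_norm (enc_sub (enc_rat _ 23697 50000) (enc_scale 63 125 h1))))) (enc_add (enc_sub (enc_rat _ 25483 500000) (enc_scale 619 12500 h1)) (enc_mul (enc_norm (bx2q1_3.enc h1 h2)) (enc_norm (enc_sub (enc_rat _ 26437 100000) (enc_scale 1417 5000 h1)))))))))⟩
noncomputable def l2q1 : Fn2 := ⟨_, _, fun h1 h2 => (enc_norm (enc_mul (cv2m.enc h1) (bx2q1.enc h1 h2)))⟩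
noncomputable def xc22a : Fn1 := ⟨_, _, fun h1 => (enc_norm (enc_add (enc_scale 1 10 h1) (enc_scale 9 10 (enc_subr 1 2 (swg.enc (yag.enc h1))))))⟩
noncomputable def bf2q2_3 : Fn2 := ⟨_, _, fun h1 h2 => (enc_subr 5 32 h2)⟩
noncomputable def bf2q2 : Fn2 := ⟨_, _, fun h1 h2 => (enc_norm (enc_case (enc_subr 11 10 h1) (enc_case (enc_subr 103 100 h1) (enc_add (enc_sub (enc_rat _ 11791 10000) (enc_scale 1791 10000 h1)) (enc_mul (enc_norm (bf2q2_3.enc h1 h2)) (enc_norm (enc_sub (enc_rat _ 299 250) (enc_scale 299 250 h1))))) (enc_case (enc_subr 53 50 h1) (enc_add (enc_sub (enc_rat _ 648157 500000) (enc_scale 2929 10000 h1)) (enc_mul (enc_norm (bf2q2_3.enc h1 h2)) (enc_norm (enc_sub (enc_rat _ 53117 60000) (enc_scale 2683 3000 h1))))) (enc_add (enc_sub (enc_rat _ 21737 16000) (enc_scale 2813 8000 h1)) (enc_mul (enc_norm (bf2q2_3.enc h1 h2)) (enc_norm (enc_sub (enc_rat _ 93829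 200000) (enc_scale 2007 4000 h1))))))) (enc_case (enc_subr 5 4 h1) (enc_case (enc_subr 29 25 h1) (enc_add (enc_sub (enc_rat _ 809071 600000) (enc_scale 10273 30000 h1)) (enc_mul (enc_norm (bf2q2_3.enc h1 h2)) (enc_norm (enc_sub (enc_rat _ 17641 50000) (enc_scale 99 250 h1))))) (enc_add (enc_sub (enc_rat _ 4017167 3000000) (enc_scale 1003 3000 h1)) (enc_mul (enc_norm (bf2q2_3.enc h1 h2)) (enc_norm (enc_sub (enc_rat _ 17061 50000) (enc_scale 193 500 h1)))))) (enc_case (enc_subr 27 20 h1) (enc_add (enc_sub (enc_rat _ 666457 500000) (enc_scale 16471 50000 h1)) (enc_mul (enc_norm (bf2q2_3.enc h1 h2)) (enc_norm (enc_sub (enc_rat _ 66669 200000) (enc_scale 3797 10000 h1))))) (enc_add (enc_sub (enc_rat _ 664711 500000) (enc_scale 1961 6000 h1)) (enc_mul (enc_norm (bf2q2_3.enc h1 h2)) (enc_norm (enc_sub (enc_rat _ 16503 50000) (enc_scale 5659 15000 h1)))))))))⟩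
noncomputable def kfc22a : Fn2 := ⟨_, _, fun h1 h2 => (enc_norm (enc_mul (enc_norm (enc_add (enc_scale 1 10 h1) (enc_scale 9 10 (enc_subr 1 2 (swg.enc (yag.enc h1)))))) (bf2q2.enc (yag.enc h1) h2)))⟩
noncomputable def bx2q2_3 : Fn2 := ⟨_, _, fun h1 h2 => (enc_subr 5 32 h2)⟩
noncomputable def bx2q2 : Fn2 := ⟨_, _, fun h1 h2 => (enc_norm (enc_case (enc_subr 11 10 h1) (enc_case (enc_subr 103 100 h1) (enc_add (enc_subr 33 400 (enc_scale 33 400 h1)) (enc_mul (enc_norm (bx2q2_3.enc h1 h2)) (enc_norm (enc_subr 227 600 (enc_scale 227 600 h1))))) (enc_case (enc_subr 53 50 h1) (enc_add (enc_subr 1907 15000 (enc_scale 151 1200 h1)) (enc_mul (enc_norm (bx2q2_3.enc h1 h2)) (enc_norm (enc_subr 212483 300000 (enc_scale 262 375 h1))))) (enc_add (enc_subr 303221 2000000 (enc_scale 5957 40000 h1)) (enc_mul (enc_norm (bx2q2_3.enc h1 h2)) (enc_norm (enc_subr 213 50000 (enc_scale 69 2000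 h1))))))) (enc_case (enc_subr 5 4 h1) (enc_case (enc_subr 29 25 h1) (enc_add (enc_subr 237383 1000000 (enc_scale 2269 10000 h1)) (enc_mul (enc_norm (bx2q2_3.enc h1 h2)) (enc_norm (enc_subr 139741 100000 (enc_scale 1301 1000 h1))))) (enc_add (enc_subr 402419 1800000 (enc_scale 19349 90000 h1)) (enc_mul (enc_norm (bx2q2_3.enc h1 h2)) (enc_norm (enc_subr 795061 900000 (enc_scale 7721 9000 h1)))))) (enc_case (enc_subr 27 20 h1) (enc_add (enc_subr 86547 400000 (enc_scale 20923 100000 h1)) (enc_mul (enc_norm (bx2q2_3.enc h1 h2)) (enc_norm (enc_subr 173133 200000 (enc_scale 8437 10000 h1))))) (enc_add (enc_subr 106881 500000 (enc_scale 2073 10000 h1)) (enc_mul (enc_norm (bx2q2_3.enc h1 h2)) (enc_norm (enc_subr 42903 50000 (enc_scale 12571 15000 h1)))))))))⟩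
noncomputable def lc22a : Fn2 := ⟨_, _, fun h1 h2 => (enc_norm (enc_mul (enc_norm (enc_add (enc_scale 1 10 h1) (enc_scale 9 10 (enc_subr 1 2 (swg.enc (yag.enc h1)))))) (bx2q2.enc (yag.enc h1) h2)))⟩
noncomputable def xc22b : Fn1 := ⟨_, _, fun h1 => (enc_norm (enc_scale 9 10 (enc_subr 1 2 (swg.enc h1))))⟩
noncomputable def kfc22b : Fn2 := ⟨_, _, fun h1 h2 => (enc_norm (enc_mul (enc_norm (enc_scale 9 10 (enc_subr 1 2 (swg.enc h1)))) (bf2q2.enc h1 h2)))⟩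
noncomputable def lc22b : Fn2 := ⟨_, _, fun h1 h2 => (enc_norm (enc_mul (enc_norm (enc_scale 9 10 (enc_subr 1 2 (swg.enc h1)))) (bx2q2.enc h1 h2)))⟩
noncomputable def cv2r : Fn1 := ⟨_, _, fun h1 => (enc_norm (enc_scale 9 10 (enc_subr 1 2 (swg.enc h1))))⟩
noncomputable def bf2q3 : Fn2 := ⟨_, _, fun h1 h2 => (enc_norm (enc_add (enc_add (enc_scale 1097 100000 h1) (enc_rat _ 635621 1000000)) (enc_mul (enc_norm (enc_subr 5 32 h2)) (enc_norm (enc_subr 2447 1250 (enc_scale 1499 50000 h1))))))⟩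
noncomputable def kf2q3 : Fn2 := ⟨_, _, fun h1 h2 => (enc_norm (enc_mul (cv2r.enc h1) (bf2q3.enc h1 h2)))⟩
noncomputable def bx2q3 : Fn2 := ⟨_, _, fun h1 h2 => (enc_norm (enc_add (enc_add (enc_scale 61 20000 h1) (enc_rat _ 91751 1000000)) (enc_mul (enc_norm (enc_subr 5 32 h2)) (enc_norm (enc_sub (enc_rat _ 96789 100000) (enc_scale 7139 25000 h1))))))⟩
noncomputable def l2q3 : Fn2 := ⟨_, _, fun h1 h2 => (enc_norm (enc_mul (cv2r.enc h1) (bx2q3.enc h1 h2)))⟩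
noncomputable def c3g : Fn1 := ⟨_, _, fun h1 => (enc_sqrtg (enc_sub (enc_pnc _ 3) (enc_scale 3 4 (enc_sq h1))))⟩
noncomputable def cv3m : Fn1 := ⟨_, _, fun h1 => (enc_norm (enc_add (enc_scale 4 5 (enc_add (swg.enc h1) (enc_rat _ 1 2))) (enc_scale 1 5 (c3g.enc h1))))⟩
noncomputable def bf3q0 : Fn2 := ⟨_, _, fun h1 h2 => (enc_norm (enc_add (enc_sub (enc_rat _ 608259 1000000) (enc_scale 21061 250000 h1)) (enc_mul (enc_norm (enc_subr 5 32 h2)) (enc_norm (enc_sub (enc_rat _ 27753 25000) (enc_scale 7931 50000 h1))))))⟩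
noncomputable def kf3q0 : Fn2 := ⟨_, _, fun h1 h2 => (enc_norm (enc_mul (cv3m.enc h1) (bf3q0.enc h1 h2)))⟩
noncomputable def bx3q0 : Fn2 := ⟨_, _, fun h1 h2 => (enc_norm (enc_add (enc_add (enc_scale 6399 250000 h1) (enc_rat _ 5553 1000000)) (enc_mul (enc_norm (enc_subr 5 32 h2)) (enc_norm (enc_subr 759 25000 (enc_scale 127 200 h1))))))⟩
noncomputable def l3q0 : Fn2 := ⟨_, _, fun h1 h2 => (enc_norm (enc_mul (cv3m.enc h1) (bx3q0.enc h1 h2)))⟩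
noncomputable def gsg : Fn1 := ⟨_, _, fun h1 => (enc_sqrt (enc_sub (enc_pnc _ 1) (enc_scale 3 4 (enc_sq h1))))⟩
noncomputable def esg : Fn1 := ⟨_, _, fun h1 => (enc_norm (enc_subn 1 (enc_add (enc_half h1) (gsg.enc h1))))⟩
noncomputable def kf3q1_4 : Fn2 := ⟨_, _, fun h1 h2 => (enc_subr 5 32 h2)⟩
noncomputable def kf3q1_51 : Fn2 := ⟨_, _, fun h1 h2 => (enc_sub (enc_pnc _ 1) h1)⟩
noncomputable def kf3q1_52 : Fn2 := ⟨_, _, fun h1 h2 => (gsg.enc (enc_norm (kf3q1_51.enc h1 h2)))⟩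
noncomputable def kf3q1_58 : Fn2 := ⟨_, _, fun h1 h2 => (enc_scale 3 2 (kf3q1_51.enc h1 h2))⟩
noncomputable def kf3q1_60 : Fn2 := ⟨_, _, fun h1 h2 => (enc_add (enc_pnc _ 1) (kf3q1_52.enc h1 h2))⟩
noncomputable def kf3q1_79 : Fn2 := ⟨_, _, fun h1 h2 => (enc_mul (cv2m.enc h1) (bf2q1.enc h1 h2))⟩
noncomputable def kf3q1 : Fn2 := ⟨_, _, fun h1 h2 => (enc_norm (enc_case (enc_subr 99 128 h1) (enc_mul (cv3m.enc h1) (enc_norm (enc_case (enc_subr 7 10 h1) (enc_add (enc_add (enc_scale 47643 100000 h1) (enc_rat _ 480807 1000000)) (enc_mul (enc_norm (kf3q1_4.enc h1 h2)) (enc_norm (enc_subr 36913 25000 (enc_scale 1903 1000 h1))))) (enc_add (enc_add (enc_scale 87872923 183593750 h1) (enc_rat _ 3519632531 7343750000)) (enc_mul (enc_norm (kf3q1_4.enc h1 h2)) (enc_norm (enc_subr 2177837247 1468750000 (enc_scale 70204299 36718750 h1)))))))) (enc_case (enc_subr 117 128 h1) (enc_add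 (kf3q1_79.enc h1 h2) (enc_mul (enc_norm (enc_mul (enc_norm (enc_sub (enc_add (enc_add (enc_mul (enc_norm (enc_mul (enc_norm (enc_sub (kf3q1_52.enc h1 h2) (kf3q1_58.enc h1 h2))) (enc_norm (kf3q1_60.enc h1 h2)))) (enc_inv (enc_sub (kf3q1_60.enc h1 h2) (kf3q1_58.enc h1 h2)))) (enc_mul (enc_norm (enc_sub (enc_half (kf3q1_51.enc h1 h2)) (enc_mul (enc_scale 3 4 (enc_sq (enc_norm (kf3q1_51.enc h1 h2)))) (enc_inv (kf3q1_52.enc h1 h2))))) (enc_inv (enc_nat 2 (esg.enc (enc_norm (kf3q1_51.enc h1 h2))))))) (enc_mul (kcg.enc (enc_norm (enc_sub (enc_scale 3 4 (kf3q1_51.enc h1 h2)) (enc_half (kf3q1_52.enc h1 h2)))) h2) (enc_norm (kf3q1_51.enc h1 h2)))) (kf3q1_79.enc h1 h2))) (enc_norm (enc_sub (cv3m.enc h1) (cv2m.enc h1))))) (enc_inv (enc_sub (enc_add (swg.enc h1) (enc_rat _ 1 2)) (cv2m.enc h1))))) (enc_mul (cv3m.enc h1) (enc_norm (enc_case (enc_subr 19 20 h1) (enc_add (enc_add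 (enc_scale 107645691 179687500 h1) (enc_rat _ 2909930617 7187500000)) (enc_mul (enc_norm (kf3q1_4.enc h1 h2)) (enc_norm (enc_subr 2808708 44921875 (enc_scale 690081 17968750 h1))))) (enc_add (enc_add (enc_scale 13011 25000 h1) (enc_rat _ 11989 25000)) (enc_mul (enc_norm (kf3q1_4.enc h1 h2)) (enc_norm (enc_subr 651 1250 (enc_scale 651 1250 h1)))))))))))⟩
noncomputable def qsg : Fn1 := ⟨_, _, fun h1 => (enc_norm (enc_mul (enc_norm (enc_sub (enc_pnc _ 1) (gsg.enc h1))) (enc_norm (enc_subn 1 (enc_nat 2 (gsg.enc h1))))))⟩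
noncomputable def l3q1_4 : Fn2 := ⟨_, _, fun h1 h2 => (enc_subr 5 32 h2)⟩
noncomputable def l3q1_31 : Fn2 := ⟨_, _, fun h1 h2 => (enc_sq (enc_norm (l3q1_4.enc h1 h2)))⟩
noncomputable def l3q1_68 : Fn2 := ⟨_, _, fun h1 h2 => (enc_sub (enc_pnc _ 1) h1)⟩
noncomputable def l3q1_83 : Fn2 := ⟨_, _, fun h1 h2 => (enc_mul (cv2m.enc h1) (bx2q1.enc h1 h2))⟩
noncomputable def l3q1 : Fn2 := ⟨_, _, fun h1 h2 => (enc_norm (enc_case (enc_subr 99 128 h1) (enc_mul (cv3m.enc h1) (enc_norm (enc_case (enc_subr 7 10 h1) (enc_add (enc_sub (enc_rat _ 55141 2000000) (enc_scale 7 320 h1)) (enc_mul (enc_norm (l3q1_4.enc h1 h2)) (enc_norm (enc_sub (enc_rat _ 6207 50000) (enc_scale 2083 10000 h1))))) (enc_add (enc_add (enc_sub (enc_rat _ 8672511 312500000) (enc_scale 345849 15625000 h1)) (enc_mul (enc_norm (l3q1_4.enc h1 h2)) (enc_norm (enc_subr 27143441 117500000 (enc_scale 219618 734375 h1)))))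 (enc_mul (l3q1_31.enc h1 h2) (enc_norm (enc_subr 602049 734375 (enc_scale 172014 146875 h1)))))))) (enc_case (enc_subr 117 128 h1) (enc_add (l3q1_83.enc h1 h2) (enc_mul (enc_norm (enc_mul (enc_norm (enc_sub (enc_sub (qsg.enc (enc_norm (l3q1_68.enc h1 h2))) (enc_mul (enc_norm (enc_nat 2 (enc_sub (l3q1_68.enc h1 h2) h2))) (enc_norm (enc_mul (esg.enc (enc_norm (l3q1_68.enc h1 h2))) (kcg.enc (enc_norm (enc_sub (enc_scale 3 4 (l3q1_68.enc h1 h2)) (enc_half (gsg.enc (enc_norm (l3q1_68.enc h1 h2)))))) h2))))) (l3q1_83.enc h1 h2))) (enc_norm (enc_sub (cv3m.enc h1) (cv2m.enc h1))))) (enc_inv (enc_sub (enc_add (swg.enc h1) (enc_rat _ 1 2)) (cv2m.enc h1))))) (enc_mul (cv3m.enc h1) (enc_norm (enc_case (enc_subr 19 20 h1) (enc_add (enc_add (enc_sub (enc_rat _ 557715081 14375000000) (enc_scale 7118381 179687500 h1)) (enc_mul (enc_norm (l3q1_4.enc h1 h2)) (enc_norm (enc_sub (enc_rat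 _ 264608889 1437500000) (enc_scale 6708803 35937500 h1))))) (enc_mul (l3q1_31.enc h1 h2) (enc_norm (enc_subr 112214 359375 (enc_scale 23624 71875 h1))))) (enc_add (enc_sub (enc_rat _ 1163 50000) (enc_scale 1163 50000 h1)) (enc_mul (enc_norm (l3q1_4.enc h1 h2)) (enc_norm (enc_sub (enc_rat _ 673 5000) (enc_scale 673 5000 h1)))))))))))⟩
noncomputable def cv3p : Fn1 := ⟨_, _, fun h1 => (enc_norm (enc_add (enc_scale 4 5 (enc_subr 1 2 (swg.enc h1))) (enc_scale 1 5 (c3g.enc h1))))⟩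
noncomputable def cv2p : Fn1 := ⟨_, _, fun h1 => (enc_norm (enc_add (enc_scale 1 10 (c1g.enc h1)) (enc_scale 9 10 (enc_subr 1 2 (swg.enc h1)))))⟩
noncomputable def kf3q2_4 : Fn2 := ⟨_, _, fun h1 h2 => (enc_subr 5 32 h2)⟩
noncomputable def kf3q2_74 : Fn2 := ⟨_, _, fun h1 h2 => (enc_subn 1 h1)⟩
noncomputable def kf3q2_75 : Fn2 := ⟨_, _, fun h1 h2 => (gsg.enc (enc_norm (kf3q2_74.enc h1 h2)))⟩
noncomputable def kf3q2_81 : Fn2 := ⟨_, _, fun h1 h2 => (enc_scale 3 2 (kf3q2_74.enc h1 h2))⟩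
noncomputable def kf3q2_83 : Fn2 := ⟨_, _, fun h1 h2 => (enc_add (enc_pnc _ 1) (kf3q2_75.enc h1 h2))⟩
noncomputable def kf3q2_102 : Fn2 := ⟨_, _, fun h1 h2 => (enc_mul (cv2p.enc h1) (bf2q2.enc h1 h2))⟩
noncomputable def kf3q2 : Fn2 := ⟨_, _, fun h1 h2 => (enc_norm (enc_case (enc_subr 139 128 h1) (enc_mul (cv3p.enc h1) (enc_norm (enc_case (enc_subr 103 100 h1) (enc_add (enc_subr 65311 187500 (enc_scale 9133 7500 h1)) (enc_mul (enc_norm (kf3q2_4.enc h1 h2)) (enc_norm (enc_subr 8447 300000 (enc_scale 929 3000 h1))))) (enc_case (enc_subr 53 50 h1) (enc_add (enc_subr 1067533 3000000 (enc_scale 36751 30000 h1)) (enc_mul (enc_norm (kf3q2_4.enc h1 h2)) (enc_norm (enc_subr 5631 100000 (enc_scale 337 1000 h1))))) (enc_add (enc_subr 18195962463 51875000000 (enc_scale 158250137 129687500 h1)) (enc_mul (enc_norm (kf3q2_4.enc h1 h2)) (enc_norm (enc_subr 1033306871 5187500000 (enc_scale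 6118579 12968750 h1))))))))) (enc_case (enc_subr 157 128 h1) (enc_add (kf3q2_102.enc h1 h2) (enc_mul (enc_norm (enc_mul (enc_norm (enc_sub (enc_add (enc_sub (enc_mul (enc_norm (enc_mul (enc_norm (enc_sub (kf3q2_75.enc h1 h2) (kf3q2_81.enc h1 h2))) (enc_norm (kf3q2_83.enc h1 h2)))) (enc_inv (enc_sub (kf3q2_83.enc h1 h2) (kf3q2_81.enc h1 h2)))) (enc_mul (enc_norm (enc_sub (enc_half (kf3q2_74.enc h1 h2)) (enc_mul (enc_scale 3 4 (enc_sq (enc_norm (kf3q2_74.enc h1 h2)))) (enc_inv (kf3q2_75.enc h1 h2))))) (enc_inv (enc_nat 2 (esg.enc (enc_norm (kf3q2_74.enc h1 h2))))))) (enc_mul (kcg.enc (enc_norm (enc_sub (enc_scale 3 4 (kf3q2_74.enc h1 h2)) (enc_half (kf3q2_75.enc h1 h2)))) h2) (enc_norm (kf3q2_74.enc h1 h2)))) (kf3q2_102.enc h1 h2))) (enc_norm (enc_sub (cv3p.enc h1) (cv2p.enc h1))))) (enc_inv (enc_sub (enc_subr 1 2 (swg.enc h1)) (cv2p.enc h1))))) (enc_mul (cv3p.enc h1)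 (enc_norm (enc_case (enc_subr 5 4 h1) (enc_add (enc_add (enc_scale 3776997 78125000 h1) (enc_rat _ 93968381 125000000)) (enc_mul (enc_norm (kf3q2_4.enc h1 h2)) (enc_norm (enc_add (enc_scale 1028837 7812500 h1) (enc_rat _ 3142269 3125000))))) (enc_case (enc_subr 27 20 h1) (enc_add (enc_add (enc_scale 193 4000 h1) (enc_rat _ 1503733 2000000)) (enc_mul (enc_norm (kf3q2_4.enc h1 h2)) (enc_norm (enc_add (enc_scale 329 2500 h1) (enc_rat _ 25141 25000))))) (enc_add (enc_add (enc_scale 2401 50000 h1) (enc_rat _ 752177 1000000)) (enc_mul (enc_norm (kf3q2_4.enc h1 h2)) (enc_norm (enc_add (enc_scale 979 7500 h1) (enc_rat _ 25177 25000))))))))))))⟩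
noncomputable def l3q2_4 : Fn2 := ⟨_, _, fun h1 h2 => (enc_subr 5 32 h2)⟩
noncomputable def l3q2_43 : Fn2 := ⟨_, _, fun h1 h2 => (enc_sq (enc_norm (l3q2_4.enc h1 h2)))⟩
noncomputable def l3q2_93 : Fn2 := ⟨_, _, fun h1 h2 => (enc_subn 1 h1)⟩
noncomputable def l3q2_108 : Fn2 := ⟨_, _, fun h1 h2 => (enc_mul (cv2p.enc h1) (bx2q2.enc h1 h2))⟩
noncomputable def l3q2 : Fn2 := ⟨_, _, fun h1 h2 => (enc_norm (enc_case (enc_subr 139 128 h1) (enc_mul (cv3p.enc h1) (enc_norm (enc_case (enc_subr 103 100 h1) (enc_add (enc_subr 60763 500000 (enc_scale 1047 10000 h1)) (enc_mul (enc_norm (l3q2_4.enc h1 h2)) (enc_norm (enc_sub (enc_rat _ 66493 30000) (enc_scale 1669 750 h1))))) (enc_case (enc_subr 53 50 h1) (enc_add (enc_subr 160453 1500000 (enc_scale 2717 30000 h1)) (enc_mul (enc_norm (l3q2_4.enc h1 h2)) (enc_norm (enc_sub (enc_rat _ 896371 300000) (enc_scale 8923 3000 h1))))) (enc_add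 (enc_add (enc_subr 3436871293 12968750000 (enc_scale 62162831 259375000 h1)) (enc_mul (enc_norm (l3q2_4.enc h1 h2)) (enc_norm (enc_subr 57396673811 5187500000 (enc_scale 133352139 12968750 h1))))) (enc_mul (l3q2_43.enc h1 h2) (enc_norm (enc_sub (enc_rat _ 3284781 259375) (enc_scale 123954 10375 h1))))))))) (enc_case (enc_subr 157 128 h1) (enc_add (l3q2_108.enc h1 h2) (enc_mul (enc_norm (enc_mul (enc_norm (enc_sub (enc_sub (qsg.enc (enc_norm (l3q2_93.enc h1 h2))) (enc_mul (enc_norm (enc_nat 2 (enc_sub (l3q2_93.enc h1 h2) h2))) (enc_norm (enc_mul (esg.enc (enc_norm (l3q2_93.enc h1 h2))) (kcg.enc (enc_norm (enc_sub (enc_scale 3 4 (l3q2_93.enc h1 h2)) (enc_half (gsg.enc (enc_norm (l3q2_93.enc h1 h2)))))) h2))))) (l3q2_108.enc h1 h2))) (enc_norm (enc_sub (cv3p.enc h1) (cv2p.enc h1))))) (enc_inv (enc_sub (enc_subr 1 2 (swg.enc h1)) (cv2p.enc h1))))) (enc_mul (cv3p.enc h1)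 (enc_norm (enc_case (enc_subr 5 4 h1) (enc_add (enc_add (enc_subr 6641981 375000000 (enc_scale 6194053 234375000 h1)) (enc_mul (enc_norm (l3q2_4.enc h1 h2)) (enc_norm (enc_sub (enc_rat _ 59147209 4687500) (enc_scale 244143211 23437500 h1))))) (enc_mul (l3q2_43.enc h1 h2) (enc_norm (enc_sub (enc_rat _ 233623 6250) (enc_scale 467246 15625 h1))))) (enc_case (enc_subr 27 20 h1) (enc_add (enc_subr 37579 2000000 (enc_scale 2729 100000 h1)) (enc_mul (enc_norm (l3q2_4.enc h1 h2)) (enc_norm (enc_subr 33959 10000 (enc_scale 2993 1250 h1))))) (enc_add (enc_subr 1259 62500 (enc_scale 1061 37500 h1)) (enc_mul (enc_norm (l3q2_4.enc h1 h2)) (enc_norm (enc_subr 168769 50000 (enc_scale 1487 625 h1))))))))))))⟩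
noncomputable def ycg : Fn1 := ⟨_, _, fun h1 => (enc_sqrtg (enc_scale 4 3 (enc_sub (enc_pnc _ 3) (enc_sq h1))))⟩
noncomputable def xc33 : Fn1 := ⟨_, _, fun h1 => (enc_norm (enc_add (enc_scale 4 5 (enc_subr 1 2 (swg.enc (ycg.enc h1)))) (enc_scale 1 5 h1)))⟩
noncomputable def bf3q3 : Fn2 := ⟨_, _, fun h1 h2 => (enc_norm (enc_add (enc_add (enc_scale 31547 250000 h1) (enc_rat _ 30953 125000)) (enc_mul (enc_norm (enc_subr 5 32 h2)) (enc_norm (enc_subr 2667 6250 (enc_scale 2667 12500 h1))))))⟩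
noncomputable def kfc33 : Fn2 := ⟨_, _, fun h1 h2 => (enc_norm (enc_mul (enc_norm (enc_add (enc_scale 4 5 (enc_subr 1 2 (swg.enc (ycg.enc h1)))) (enc_scale 1 5 h1))) (bf3q3.enc (ycg.enc h1) h2)))⟩
noncomputable def bx3q3 : Fn2 := ⟨_, _, fun h1 h2 => (enc_norm (enc_add (enc_sub (enc_rat _ 4757150771 15200000000) (enc_scale 1293811057 7600000000 h1)) (enc_mul (enc_norm (enc_subr 5 32 h2)) (enc_norm (enc_sub (enc_rat _ 216408997 152000000) (enc_scale 52819159 76000000 h1))))))⟩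
noncomputable def lc33 : Fn2 := ⟨_, _, fun h1 h2 => (enc_norm (enc_mul (enc_norm (enc_add (enc_scale 4 5 (enc_subr 1 2 (swg.enc (ycg.enc h1)))) (enc_scale 1 5 h1))) (bx3q3.enc (ycg.enc h1) h2)))⟩
noncomputable def cv4m : Fn1 := ⟨_, _, fun h1 => (enc_norm (enc_add (enc_scale 2 5 (enc_add (swg.enc h1) (enc_rat _ 1 2))) (enc_scale 3 5 (c3g.enc h1))))⟩
noncomputable def bf4q0 : Fn2 := ⟨_, _, fun h1 h2 => (enc_norm (enc_add (enc_sub (enc_rat _ 248507 1000000) (enc_scale 71521 500000 h1)) (enc_mul (enc_norm (enc_subr 5 32 h2)) (enc_norm (enc_sub (enc_rat _ 861 25000) (enc_scale 12337 50000 h1))))))⟩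
noncomputable def kf4q0 : Fn2 := ⟨_, _, fun h1 h2 => (enc_norm (enc_mul (cv4m.enc h1) (bf4q0.enc h1 h2)))⟩
noncomputable def bx4q0 : Fn2 := ⟨_, _, fun h1 h2 => (enc_norm (enc_add (enc_add (enc_scale 4601 250000 h1) (enc_rat _ 2577 200000)) (enc_mul (enc_norm (enc_subr 5 32 h2)) (enc_norm (enc_sub (enc_rat _ 54617 100000) (enc_scale 18659 25000 h1))))))⟩
noncomputable def l4q0 : Fn2 := ⟨_, _, fun h1 h2 => (enc_norm (enc_mul (cv4m.enc h1) (bx4q0.enc h1 h2)))⟩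
noncomputable def bf4q1_3 : Fn2 := ⟨_, _, fun h1 h2 => (enc_subr 5 32 h2)⟩
noncomputable def bf4q1 : Fn2 := ⟨_, _, fun h1 h2 => (enc_norm (enc_case (enc_subr 4 5 h1) (enc_case (enc_subr 7 10 h1) (enc_add (enc_add (enc_scale 18447 40000 h1) (enc_rat _ 1081453 2000000)) (enc_mul (enc_norm (bf4q1_3.enc h1 h2)) (enc_norm (enc_subr 21779 100000 (enc_scale 591 2500 h1))))) (enc_add (enc_add (enc_scale 4627 10000 h1) (enc_rat _ 539659 1000000)) (enc_mul (enc_norm (bf4q1_3.enc h1 h2)) (enc_norm (enc_subr 4199 20000 (enc_scale 563 2500 h1)))))) (enc_case (enc_subr 7 8 h1) (enc_add (enc_add (enc_scale 17263 37500 h1) (enc_rat _ 12997 24000)) (enc_mul (enc_norm (bf4q1_3.enc h1 h2)) (enc_norm (enc_subr 54761 300000 (enc_scale 358 1875 h1))))) (enc_case (enc_subr 19 20 h1) (enc_add (enc_add (enc_scale 16883 37500 h1) (enc_rat _ 66049 120000)) (enc_mul (enc_norm (bf4q1_3.enc h1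 h2)) (enc_norm (enc_subr 39151 300000 (enc_scale 493 3750 h1))))) (enc_add (enc_add (enc_scale 21889 50000 h1) (enc_rat _ 28111 50000)) (enc_mul (enc_norm (bf4q1_3.enc h1 h2)) (enc_norm (enc_subr 561 5000 (enc_scale 561 5000 h1)))))))))⟩
noncomputable def kf4q1 : Fn2 := ⟨_, _, fun h1 h2 => (enc_norm (enc_mul (cv4m.enc h1) (bf4q1.enc h1 h2)))⟩
noncomputable def bx4q1_3 : Fn2 := ⟨_, _, fun h1 h2 => (enc_subr 5 32 h2)⟩
noncomputable def bx4q1 : Fn2 := ⟨_, _, fun h1 h2 => (enc_norm (enc_case (enc_subr 4 5 h1) (enc_case (enc_subr 7 10 h1) (enc_add (enc_sub (enc_rat _ 28193 500000) (enc_scale 6383 100000 h1)) (enc_mul (enc_norm (bx4q1_3.enc h1 h2)) (enc_norm (enc_sub (enc_rat _ 110233 200000) (enc_scale 12443 20000 h1))))) (enc_add (enc_sub (enc_rat _ 26093 500000) (enc_scale 5783 100000 h1)) (enc_mul (enc_norm (bx4q1_3.enc h1 h2)) (enc_norm (enc_sub (enc_rat _ 2609 5000)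 (enc_scale 2901 5000 h1)))))) (enc_case (enc_subr 7 8 h1) (enc_add (enc_sub (enc_rat _ 47299 1500000) (enc_scale 2401 75000 h1)) (enc_mul (enc_norm (bx4q1_3.enc h1 h2)) (enc_norm (enc_sub (enc_rat _ 31451 75000) (enc_scale 3391 7500 h1))))) (enc_case (enc_subr 19 20 h1) (enc_add (enc_sub (enc_rat _ 30611 1000000) (enc_scale 387 12500 h1)) (enc_mul (enc_norm (bx4q1_3.enc h1 h2)) (enc_norm (enc_sub (enc_rat _ 66199 300000) (enc_scale 422 1875 h1))))) (enc_add (enc_sub (enc_rat _ 1199 50000) (enc_scale 1199 50000 h1)) (enc_mul (enc_norm (bx4q1_3.enc h1 h2)) (enc_norm (enc_sub (enc_rat _ 137 1000) (enc_scale 137 1000 h1)))))))))⟩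
noncomputable def l4q1 : Fn2 := ⟨_, _, fun h1 h2 => (enc_norm (enc_mul (cv4m.enc h1) (bx4q1.enc h1 h2)))⟩
noncomputable def cv4p : Fn1 := ⟨_, _, fun h1 => (enc_norm (enc_add (enc_scale 2 5 (enc_subr 1 2 (swg.enc h1))) (enc_scale 3 5 (c3g.enc h1))))⟩
noncomputable def bf4q2_3 : Fn2 := ⟨_, _, fun h1 h2 => (enc_subr 5 32 h2)⟩
noncomputable def bf4q2 : Fn2 := ⟨_, _, fun h1 h2 => (enc_norm (enc_case (enc_subr 11 10 h1) (enc_case (enc_subr 103 100 h1) (enc_add (enc_add (enc_scale 2653 30000 h1) (enc_rat _ 1200313 1500000)) (enc_mul (enc_norm (bf4q2_3.enc h1 h2)) (enc_norm (enc_subr 174101 150000 (enc_scale 2587 3000 h1))))) (enc_case (enc_subr 53 50 h1) (enc_add (enc_add (enc_scale 2611 30000 h1) (enc_rat _ 300619 375000)) (enc_mul (enc_norm (bf4q2_3.enc h1 h2)) (enc_norm (enc_subr 346039 300000 (enc_scale 1283 1500 h1))))) (enc_add (enc_add (enc_scale 1697 20000 h1) (enc_rat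 _ 160793 200000)) (enc_mul (enc_norm (bf4q2_3.enc h1 h2)) (enc_norm (enc_subr 228449 200000 (enc_scale 3379 4000 h1))))))) (enc_case (enc_subr 5 4 h1) (enc_case (enc_subr 29 25 h1) (enc_add (enc_add (enc_scale 2471 30000 h1) (enc_rat _ 242009 300000)) (enc_mul (enc_norm (bf4q2_3.enc h1 h2)) (enc_norm (enc_subr 168463 150000 (enc_scale 1241 1500 h1))))) (enc_add (enc_add (enc_scale 3631 45000 h1) (enc_rat _ 3638893 4500000)) (enc_mul (enc_norm (bf4q2_3.enc h1 h2)) (enc_norm (enc_subr 494311 450000 (enc_scale 1451 1800 h1)))))) (enc_case (enc_subr 27 20 h1) (enc_add (enc_add (enc_scale 8009 100000 h1) (enc_rat _ 1618783 2000000)) (enc_mul (enc_norm (bf4q2_3.enc h1 h2)) (enc_norm (enc_subr 108133 100000 (enc_scale 1981 2500 h1))))) (enc_add (enc_add (enc_scale 11951 150000 h1) (enc_rat _ 404977 500000)) (enc_mul (enc_norm (bf4q2_3.enc h1 h2)) (enc_norm (enc_subr 53567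 50000 (enc_scale 157 200 h1)))))))))⟩
noncomputable def kf4q2 : Fn2 := ⟨_, _, fun h1 h2 => (enc_norm (enc_mul (cv4p.enc h1) (bf4q2.enc h1 h2)))⟩
noncomputable def bx4q2_3 : Fn2 := ⟨_, _, fun h1 h2 => (enc_subr 5 32 h2)⟩
noncomputable def bx4q2 : Fn2 := ⟨_, _, fun h1 h2 => (enc_norm (enc_case (enc_subr 11 10 h1) (enc_case (enc_subr 103 100 h1) (enc_add (enc_sub (enc_rat _ 11533 75000) (enc_scale 268 1875 h1)) (enc_mul (enc_norm (bx4q2_3.enc h1 h2)) (enc_norm (enc_subr 101783 300000 (enc_scale 941 3000 h1))))) (enc_case (enc_subr 53 50 h1) (enc_add (enc_sub (enc_rat _ 419399 3000000) (enc_scale 3881 30000 h1)) (enc_mul (enc_norm (bx4q2_3.enc h1 h2)) (enc_norm (enc_subr 103637 300000 (enc_scale 959 3000 h1))))) (enc_add (enc_sub (enc_rat _ 220257 2000000) (enc_scale 811 8000 h1)) (enc_mul (enc_norm (bx4q2_3.enc h1 h2)) (enc_norm (enc_subr 1001 2500 (enc_scale 743 2000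 h1))))))) (enc_case (enc_subr 5 4 h1) (enc_case (enc_subr 29 25 h1) (enc_add (enc_sub (enc_rat _ 66761 1000000) (enc_scale 1239 20000 h1)) (enc_mul (enc_norm (bx4q2_3.enc h1 h2)) (enc_norm (enc_subr 30283 60000 (enc_scale 1399 3000 h1))))) (enc_add (enc_sub (enc_rat _ 30279 1000000) (enc_scale 61 2000 h1)) (enc_mul (enc_norm (bx4q2_3.enc h1 h2)) (enc_norm (enc_subr 502037 900000 (enc_scale 4609 9000 h1)))))) (enc_case (enc_subr 27 20 h1) (enc_add (enc_sub (enc_rat _ 1813 125000) (enc_scale 447 25000 h1)) (enc_mul (enc_norm (bx4q2_3.enc h1 h2)) (enc_norm (enc_subr 56543 100000 (enc_scale 2591 5000 h1))))) (enc_add (enc_sub (enc_rat _ 28 3125) (enc_scale 1033 75000 h1)) (enc_mul (enc_norm (bx4q2_3.enc h1 h2)) (enc_norm (enc_subr 14201 25000 (enc_scale 3901 7500 h1)))))))))⟩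
noncomputable def l4q2 : Fn2 := ⟨_, _, fun h1 h2 => (enc_norm (enc_mul (cv4p.enc h1) (bx4q2.enc h1 h2)))⟩
noncomputable def xc43 : Fn1 := ⟨_, _, fun h1 => (enc_norm (enc_add (enc_scale 2 5 (enc_subr 1 2 (swg.enc (ycg.enc h1)))) (enc_scale 3 5 h1)))⟩
noncomputable def bf4q3 : Fn2 := ⟨_, _, fun h1 h2 => (enc_norm (enc_add (enc_subr 812 3125 (enc_scale 4749 12500 h1)) (enc_mul (enc_norm (enc_subr 5 32 h2)) (enc_norm (enc_subr 20271 12500 (enc_scale 20271 25000 h1))))))⟩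
noncomputable def kfc43 : Fn2 := ⟨_, _, fun h1 h2 => (enc_norm (enc_mul (enc_norm (enc_add (enc_scale 2 5 (enc_subr 1 2 (swg.enc (ycg.enc h1)))) (enc_scale 3 5 h1))) (bf4q3.enc (ycg.enc h1) h2)))⟩
noncomputable def bx4q3 : Fn2 := ⟨_, _, fun h1 h2 => (enc_norm (enc_add (enc_sub (enc_rat _ 4516990771 15200000000) (enc_scale 1233771057 7600000000 h1)) (enc_mul (enc_norm (enc_subr 5 32 h2)) (enc_norm (enc_subr 144025563 152000000 (enc_scale 37289481 76000000 h1))))))⟩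
noncomputable def lc43 : Fn2 := ⟨_, _, fun h1 h2 => (enc_norm (enc_mul (enc_norm (enc_add (enc_scale 2 5 (enc_subr 1 2 (swg.enc (ycg.enc h1)))) (enc_scale 3 5 h1))) (bx4q3.enc (ycg.enc h1) h2)))⟩
noncomputable def kf5q0 : Fn2 := ⟨_, _, fun h1 h2 => (enc_norm (enc_sub (enc_mul h1 (kcg.enc (enc_half h1) h2)) (enc_mul (enc_norm (enc_mul (enc_sq h1) (enc_norm (enc_add (c3g.enc h1) (enc_rat _ 3 2))))) (enc_inv (enc_mul (enc_norm (enc_sub (enc_pnc _ 1) h1)) (enc_norm (enc_add (enc_pnc _ 1) h1)))))))⟩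
noncomputable def l5q0_6 : Fn2 := ⟨_, _, fun h1 h2 => (enc_half h1)⟩
noncomputable def l5q0_7 : Fn2 := ⟨_, _, fun h1 h2 => (enc_half (c3g.enc h1))⟩
noncomputable def l5q0_8 : Fn2 := ⟨_, _, fun h1 h2 => (enc_scale 1 4 h1)⟩
noncomputable def l5q0 : Fn2 := ⟨_, _, fun h1 h2 => (enc_norm (enc_add (txg.enc (l5q0_6.enc h1 h2) (enc_norm (enc_sub (l5q0_7.enc h1 h2) (l5q0_8.enc h1 h2))) h2) (txg.enc (enc_neg (l5q0_6.enc h1 h2)) (enc_norm (enc_add (l5q0_7.enc h1 h2) (l5q0_8.enc h1 h2))) h2)))⟩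
noncomputable def kf5q1 : Fn2 := ⟨_, _, fun h1 h2 => (enc_norm (enc_add (enc_mul (enc_norm (enc_mul h1 (enc_norm (enc_add (c3g.enc h1) (enc_rat _ 3 2))))) (enc_inv (enc_add (enc_pnc _ 1) h1))) (enc_mul (enc_norm (enc_subn 1 h1)) (kcg.enc (enc_half h1) h2))))⟩
noncomputable def l5q1_7 : Fn2 := ⟨_, _, fun h1 h2 => (enc_half h1)⟩
noncomputable def l5q1_8 : Fn2 := ⟨_, _, fun h1 h2 => (enc_half (c3g.enc h1))⟩
noncomputable def l5q1_9 : Fn2 := ⟨_, _, fun h1 h2 => (enc_scale 1 4 h1)⟩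
noncomputable def l5q1 : Fn2 := ⟨_, _, fun h1 h2 => (enc_norm (enc_add (txg.enc (l5q1_7.enc h1 h2) (enc_norm (enc_sub (l5q1_8.enc h1 h2) (l5q1_9.enc h1 h2))) h2) (txg.enc (enc_neg (l5q1_7.enc h1 h2)) (enc_norm (enc_add (l5q1_8.enc h1 h2) (l5q1_9.enc h1 h2))) h2)))⟩
noncomputable def kf5q2 : Fn2 := ⟨_, _, fun h1 h2 => (enc_norm (enc_add (enc_mul (enc_norm (enc_mul (enc_norm (enc_sub (enc_nat 2 (c3g.enc h1)) h1)) (enc_norm (enc_sub (enc_add (c3g.enc h1) (enc_pnc _ 3)) (enc_scale 3 2 h1))))) (enc_inv (enc_nat 4 (enc_sub (enc_pnc _ 2) h1)))) (enc_mul (enc_norm (enc_subn 1 h1)) (kcg.enc (enc_norm (enc_sub (enc_scale 1 4 h1) (enc_half (c3g.enc h1)))) h2))))⟩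
noncomputable def l5q2_7 : Fn2 := ⟨_, _, fun h1 h2 => (enc_half (c3g.enc h1))⟩
noncomputable def l5q2_8 : Fn2 := ⟨_, _, fun h1 h2 => (enc_scale 1 4 h1)⟩
noncomputable def l5q2_9 : Fn2 := ⟨_, _, fun h1 h2 => (enc_sub (l5q2_7.enc h1 h2) (l5q2_8.enc h1 h2))⟩
noncomputable def l5q2_12 : Fn2 := ⟨_, _, fun h1 h2 => (enc_add (enc_scale 1 4 (c3g.enc h1)) (enc_scale 3 8 h1))⟩
noncomputable def l5q2_14 : Fn2 := ⟨_, _, fun h1 h2 => (enc_half (l5q2_9.enc h1 h2))⟩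
noncomputable def l5q2 : Fn2 := ⟨_, _, fun h1 h2 => (enc_norm (enc_sub (enc_nat 2 (txg.enc (enc_norm (enc_sub (l5q2_8.enc h1 h2) (l5q2_7.enc h1 h2))) (enc_norm (enc_add (l5q2_12.enc h1 h2) (l5q2_14.enc h1 h2))) h2)) (txg.enc (enc_norm (l5q2_9.enc h1 h2)) (enc_norm (enc_sub (l5q2_12.enc h1 h2) (l5q2_14.enc h1 h2))) h2)))⟩
noncomputable def kfc53 : Fn2 := ⟨_, _, fun h1 h2 => (enc_norm (enc_sub (enc_mul (enc_norm (enc_subn 2 (ycg.enc h1))) (kcg.enc (enc_norm (enc_sub (enc_scale 1 4 (ycg.enc h1)) (enc_half h1))) h2)) (enc_mul (enc_norm (enc_mul (enc_norm (enc_sub (enc_nat 2 h1) (ycg.enc h1))) (enc_norm (enc_sub (enc_add h1 (enc_pnc _ 3)) (enc_scale 3 2 (ycg.enc h1)))))) (enc_inv (enc_nat 4 (enc_subn 1 (ycg.enc h1)))))))⟩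
noncomputable def lc53_7 : Fn2 := ⟨_, _, fun h1 h2 => (enc_half h1)⟩
noncomputable def lc53_8 : Fn2 := ⟨_, _, fun h1 h2 => (enc_scale 1 4 (ycg.enc h1))⟩
noncomputable def lc53_9 : Fn2 := ⟨_, _, fun h1 h2 => (enc_sub (lc53_7.enc h1 h2) (lc53_8.enc h1 h2))⟩
noncomputable def lc53_12 : Fn2 := ⟨_, _, fun h1 h2 => (enc_add (enc_scale 1 4 h1) (enc_scale 3 8 (ycg.enc h1)))⟩
noncomputable def lc53_14 : Fn2 := ⟨_, _, fun h1 h2 => (enc_half (lc53_9.enc h1 h2))⟩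
noncomputable def lc53 : Fn2 := ⟨_, _, fun h1 h2 => (enc_norm (enc_sub (enc_nat 2 (txg.enc (enc_norm (enc_sub (lc53_8.enc h1 h2) (lc53_7.enc h1 h2))) (enc_norm (enc_add (lc53_12.enc h1 h2) (lc53_14.enc h1 h2))) h2)) (txg.enc (enc_norm (lc53_9.enc h1 h2)) (enc_norm (enc_sub (lc53_12.enc h1 h2) (lc53_14.enc h1 h2))) h2)))⟩
noncomputable def lm4m : Fn2 := ⟨_, _, fun h1 h2 => (enc_lam (enc_norm (enc_sub h1 (cv4m.enc h2))) (enc_sub (c3g.enc h2) (cv4m.enc h2)))⟩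
noncomputable def lm3m : Fn2 := ⟨_, _, fun h1 h2 => (enc_lam (enc_norm (enc_sub h1 (cv3m.enc h2))) (enc_sub (cv4m.enc h2) (cv3m.enc h2)))⟩
noncomputable def lm2m : Fn2 := ⟨_, _, fun h1 h2 => (enc_lam (enc_norm (enc_sub h1 (cv2m.enc h2))) (enc_sub (cv3m.enc h2) (cv2m.enc h2)))⟩
noncomputable def lm1m : Fn2 := ⟨_, _, fun h1 h2 => (enc_lam (enc_norm (enc_sub h1 (cv1m.enc h2))) (enc_sub (cv2m.enc h2) (cv1m.enc h2)))⟩
noncomputable def lm0m : Fn2 := ⟨_, _, fun h1 h2 => (enc_lam (enc_norm (enc_sub h1 (c1g.enc h2))) (enc_sub (cv1m.enc h2) (c1g.enc h2)))⟩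
noncomputable def rkfq0 : Fn3 := ⟨_, _, fun h1 h2 h3 => (enc_case (enc_sub h1 (cv1m.enc h2)) (enc_add (enc_mul h1 (bf1q0.enc h2 h3)) (enc_mul (enc_norm (enc_sub (enc_pnc _ 1) (lm0m.enc h1 h2))) (enc_norm (enc_sub (kf0q0.enc h2 h3) (enc_mul (c1g.enc h2) (bf1q0.enc h2 h3)))))) (enc_case (enc_sub h1 (cv2m.enc h2)) (enc_add (enc_mul h1 (bf2q0.enc h2 h3)) (enc_mul (enc_norm (enc_mul (enc_norm (enc_sub (enc_pnc _ 1) (lm1m.enc h1 h2))) (cv1m.enc h2))) (enc_norm (enc_sub (bf1q0.enc h2 h3) (bf2q0.enc h2 h3))))) (enc_case (enc_sub h1 (cv3m.enc h2)) (enc_add (enc_mul h1 (bf3q0.enc h2 h3)) (enc_mul (enc_norm (enc_mul (enc_norm (enc_sub (enc_pnc _ 1) (lm2m.enc h1 h2))) (cv2m.enc h2))) (enc_norm (enc_sub (bf2q0.enc h2 h3) (bf3q0.enc h2 h3))))) (enc_case (enc_sub h1 (cv4m.enc h2)) (enc_add (enc_mul h1 (bf4q0.enc h2 h3)) (enc_mul (enc_norm (enc_mul (enc_norm (enc_sub (enc_pnc _ 1)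 (lm3m.enc h1 h2))) (cv3m.enc h2))) (enc_norm (enc_sub (bf3q0.enc h2 h3) (bf4q0.enc h2 h3))))) (enc_add (kf4q0.enc h2 h3) (enc_mul (lm4m.enc h1 h2) (enc_norm (enc_sub (kf5q0.enc h2 h3) (kf4q0.enc h2 h3)))))))))⟩
noncomputable def rsfq0 : Fn3 := ⟨_, _, fun h1 h2 h3 => (enc_case h1 (enc_neg (rkfq0.enc (enc_neg h1) h2 h3)) (rkfq0.enc h1 h2 h3))⟩
noncomputable def bf3q1_3 : Fn2 := ⟨_, _, fun h1 h2 => (enc_subr 5 32 h2)⟩
noncomputable def bf3q1 : Fn2 := ⟨_, _, fun h1 h2 => (enc_norm (enc_case (enc_subr 27 32 h1) (enc_case (enc_subr 7 10 h1) (enc_add (enc_add (enc_scale 47643 100000 h1) (enc_rat _ 480807 1000000)) (enc_mul (enc_norm (bf3q1_3.enc h1 h2)) (enc_norm (enc_subr 36913 25000 (enc_scale 1903 1000 h1))))) (enc_add (enc_add (enc_scale 87872923 183593750 h1) (enc_rat _ 3519632531 7343750000)) (enc_mul (enc_norm (bf3q1_3.enc h1 h2)) (enc_norm (enc_subr 2177837247 1468750000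 (enc_scale 70204299 36718750 h1)))))) (enc_case (enc_subr 19 20 h1) (enc_add (enc_add (enc_scale 107645691 179687500 h1) (enc_rat _ 2909930617 7187500000)) (enc_mul (enc_norm (bf3q1_3.enc h1 h2)) (enc_norm (enc_subr 2808708 44921875 (enc_scale 690081 17968750 h1))))) (enc_add (enc_add (enc_scale 13011 25000 h1) (enc_rat _ 11989 25000)) (enc_mul (enc_norm (bf3q1_3.enc h1 h2)) (enc_norm (enc_subr 651 1250 (enc_scale 651 1250 h1))))))))⟩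
noncomputable def rkfq1_36 : Fn3 := ⟨_, _, fun h1 h2 h3 => (enc_add (enc_mul h1 (bf3q1.enc h2 h3)) (enc_mul (enc_norm (enc_mul (enc_norm (enc_sub (enc_pnc _ 1) (lm2m.enc h1 h2))) (cv2m.enc h2))) (enc_norm (enc_sub (bf2q1.enc h2 h3) (bf3q1.enc h2 h3)))))⟩
noncomputable def rkfq1_38 : Fn3 := ⟨_, _, fun h1 h2 h3 => (enc_sub (enc_pnc _ 1) h2)⟩
noncomputable def rkfq1_39 : Fn3 := ⟨_, _, fun h1 h2 h3 => (gsg.enc (enc_norm (rkfq1_38.enc h1 h2 h3)))⟩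
noncomputable def rkfq1_45 : Fn3 := ⟨_, _, fun h1 h2 h3 => (enc_scale 3 2 (rkfq1_38.enc h1 h2 h3))⟩
noncomputable def rkfq1_47 : Fn3 := ⟨_, _, fun h1 h2 h3 => (enc_add (enc_pnc _ 1) (rkfq1_39.enc h1 h2 h3))⟩
noncomputable def rkfq1_68 : Fn3 := ⟨_, _, fun h1 h2 h3 => (enc_sub h1 (cv2m.enc h2))⟩
noncomputable def rkfq1 : Fn3 := ⟨_, _, fun h1 h2 h3 => (enc_case (enc_sub h1 (cv1m.enc h2)) (enc_add (enc_mul h1 (bf1q1.enc h2 h3)) (enc_mul (enc_norm (enc_sub (enc_pnc _ 1) (lm0m.enc h1 h2))) (enc_norm (enc_sub (kf0q1.enc h2 h3) (enc_mul (c1g.enc h2) (bf1q1.enc h2 h3)))))) (enc_case (rkfq1_68.enc h1 h2 h3) (enc_add (enc_mul h1 (bf2q1.enc h2 h3)) (enc_mul (enc_norm (enc_mul (enc_norm (enc_sub (enc_pnc _ 1) (lm1m.enc h1 h2))) (cv1m.enc h2))) (enc_norm (enc_sub (bf1q1.enc h2 h3) (bf2q1.enc h2 h3))))) (enc_case (enc_sub h1 (cv3m.enc h2)) (enc_case (enc_subr 99 128 h2) (rkfq1_36.enc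 h1 h2 h3) (enc_case (enc_subr 117 128 h2) (enc_add (kf2q1.enc h2 h3) (enc_mul (enc_norm (enc_mul (enc_norm (rkfq1_68.enc h1 h2 h3)) (enc_inv (enc_sub (enc_add (swg.enc h2) (enc_rat _ 1 2)) (cv2m.enc h2))))) (enc_norm (enc_sub (enc_add (enc_add (enc_mul (enc_norm (enc_mul (enc_norm (enc_sub (rkfq1_39.enc h1 h2 h3) (rkfq1_45.enc h1 h2 h3))) (enc_norm (rkfq1_47.enc h1 h2 h3)))) (enc_inv (enc_sub (rkfq1_47.enc h1 h2 h3) (rkfq1_45.enc h1 h2 h3)))) (enc_mul (enc_norm (enc_sub (enc_half (rkfq1_38.enc h1 h2 h3)) (enc_mul (enc_scale 3 4 (enc_sq (enc_norm (rkfq1_38.enc h1 h2 h3)))) (enc_inv (rkfq1_39.enc h1 h2 h3))))) (enc_inv (enc_nat 2 (esg.enc (enc_norm (rkfq1_38.enc h1 h2 h3))))))) (enc_mul (kcg.enc (enc_norm (enc_sub (enc_scale 3 4 (rkfq1_38.enc h1 h2 h3)) (enc_half (rkfq1_39.enc h1 h2 h3)))) h3) (enc_norm (rkfq1_38.enc h1 h2 h3)))) (kf2q1.enc h2 h3))))) (rkfq1_36.enc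 h1 h2 h3))) (enc_case (enc_sub h1 (cv4m.enc h2)) (enc_add (enc_mul h1 (bf4q1.enc h2 h3)) (enc_mul (enc_norm (enc_sub (enc_pnc _ 1) (lm3m.enc h1 h2))) (enc_norm (enc_sub (kf3q1.enc h2 h3) (enc_mul (cv3m.enc h2) (bf4q1.enc h2 h3)))))) (enc_add (kf4q1.enc h2 h3) (enc_mul (lm4m.enc h1 h2) (enc_norm (enc_sub (kf5q1.enc h2 h3) (kf4q1.enc h2 h3)))))))))⟩
noncomputable def rsfq1 : Fn3 := ⟨_, _, fun h1 h2 h3 => (enc_case h1 (enc_neg (rkfq1.enc (enc_neg h1) h2 h3)) (rkfq1.enc h1 h2 h3))⟩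
noncomputable def cv1p : Fn1 := ⟨_, _, fun h1 => (enc_norm (enc_add (enc_half (c1g.enc h1)) (enc_half (enc_subr 1 2 (swg.enc h1)))))⟩
noncomputable def lm4p : Fn2 := ⟨_, _, fun h1 h2 => (enc_lam (enc_norm (enc_sub h1 (cv4p.enc h2))) (enc_sub (c3g.enc h2) (cv4p.enc h2)))⟩
noncomputable def lm3p : Fn2 := ⟨_, _, fun h1 h2 => (enc_lam (enc_norm (enc_sub h1 (cv3p.enc h2))) (enc_sub (cv4p.enc h2) (cv3p.enc h2)))⟩
noncomputable def bf3q2_3 : Fn2 := ⟨_, _, fun h1 h2 => (enc_subr 5 32 h2)⟩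
noncomputable def bf3q2 : Fn2 := ⟨_, _, fun h1 h2 => (enc_norm (enc_case (enc_subr 37 32 h1) (enc_case (enc_subr 103 100 h1) (enc_add (enc_subr 65311 187500 (enc_scale 9133 7500 h1)) (enc_mul (enc_norm (bf3q2_3.enc h1 h2)) (enc_norm (enc_subr 8447 300000 (enc_scale 929 3000 h1))))) (enc_case (enc_subr 53 50 h1) (enc_add (enc_subr 1067533 3000000 (enc_scale 36751 30000 h1)) (enc_mul (enc_norm (bf3q2_3.enc h1 h2)) (enc_norm (enc_subr 5631 100000 (enc_scale 337 1000 h1))))) (enc_add (enc_subr 18195962463 51875000000 (enc_scale 158250137 129687500 h1)) (enc_mul (enc_norm (bf3q2_3.enc h1 h2)) (enc_norm (enc_subr 1033306871 5187500000 (enc_scale 6118579 12968750 h1))))))) (enc_case (enc_subr 5 4 h1) (enc_add (enc_add (enc_scale 3776997 78125000 h1) (enc_rat _ 93968381 125000000)) (enc_mul (enc_norm (bf3q2_3.enc h1 h2)) (enc_norm (enc_add (enc_scale 1028837 7812500 h1) (enc_rat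 _ 3142269 3125000))))) (enc_case (enc_subr 27 20 h1) (enc_add (enc_add (enc_scale 193 4000 h1) (enc_rat _ 1503733 2000000)) (enc_mul (enc_norm (bf3q2_3.enc h1 h2)) (enc_norm (enc_add (enc_scale 329 2500 h1) (enc_rat _ 25141 25000))))) (enc_add (enc_add (enc_scale 2401 50000 h1) (enc_rat _ 752177 1000000)) (enc_mul (enc_norm (bf3q2_3.enc h1 h2)) (enc_norm (enc_add (enc_scale 979 7500 h1) (enc_rat _ 25177 25000)))))))))⟩
noncomputable def lm2p : Fn2 := ⟨_, _, fun h1 h2 => (enc_lam (enc_norm (enc_sub h1 (cv2p.enc h2))) (enc_sub (cv3p.enc h2) (cv2p.enc h2)))⟩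
noncomputable def kf2q2 : Fn2 := ⟨_, _, fun h1 h2 => (enc_norm (enc_mul (cv2p.enc h1) (bf2q2.enc h1 h2)))⟩
noncomputable def lm1p : Fn2 := ⟨_, _, fun h1 h2 => (enc_lam (enc_norm (enc_sub h1 (cv1p.enc h2))) (enc_sub (cv2p.enc h2) (cv1p.enc h2)))⟩
noncomputable def kf0q2 : Fn2 := ⟨_, _, fun h1 h2 => (enc_norm (enc_add (c1g.enc h1) (enc_mul (enc_norm (enc_subn 1 h1)) (kcg.enc (enc_neg (c1g.enc h1)) h2))))⟩
noncomputable def lm0p : Fn2 := ⟨_, _, fun h1 h2 => (enc_lam (enc_norm (enc_sub h1 (c1g.enc h2))) (enc_sub (cv1p.enc h2) (c1g.enc h2)))⟩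
noncomputable def n0b : Fn2 := ⟨_, _, fun h1 h2 => (enc_norm (enc_sub (enc_pnc _ 1) (enc_mul (enc_norm (enc_subn 1 h1)) (enc_norm (enc_subr 11101 62500 (enc_scale 3657 6250 (enc_subr 5 32 h2)))))))⟩
noncomputable def rkfq2_36 : Fn3 := ⟨_, _, fun h1 h2 h3 => (enc_add (enc_mul h1 (bf3q2.enc h2 h3)) (enc_mul (enc_norm (enc_mul (enc_norm (enc_sub (enc_pnc _ 1) (lm2p.enc h1 h2))) (cv2p.enc h2))) (enc_norm (enc_sub (bf2q2.enc h2 h3) (bf3q2.enc h2 h3)))))⟩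
noncomputable def rkfq2_37 : Fn3 := ⟨_, _, fun h1 h2 h3 => (enc_subn 1 h2)⟩
noncomputable def rkfq2_38 : Fn3 := ⟨_, _, fun h1 h2 h3 => (gsg.enc (enc_norm (rkfq2_37.enc h1 h2 h3)))⟩
noncomputable def rkfq2_44 : Fn3 := ⟨_, _, fun h1 h2 h3 => (enc_scale 3 2 (rkfq2_37.enc h1 h2 h3))⟩
noncomputable def rkfq2_46 : Fn3 := ⟨_, _, fun h1 h2 h3 => (enc_add (enc_pnc _ 1) (rkfq2_38.enc h1 h2 h3))⟩
noncomputable def rkfq2_68 : Fn3 := ⟨_, _, fun h1 h2 h3 => (enc_sub h1 (cv2p.enc h2))⟩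
noncomputable def rkfq2_95 : Fn3 := ⟨_, _, fun h1 h2 h3 => (enc_mul h1 (bf1q2.enc h2 h3))⟩
noncomputable def rkfq2_97 : Fn3 := ⟨_, _, fun h1 h2 h3 => (enc_sub (enc_pnc _ 1) (lm0p.enc h1 h2))⟩
noncomputable def rkfq2 : Fn3 := ⟨_, _, fun h1 h2 h3 => (enc_case (enc_sub h1 (cv1p.enc h2)) (enc_case (enc_subr 1153 1000 h2) (enc_add (rkfq2_95.enc h1 h2 h3) (enc_mul (enc_norm (rkfq2_97.enc h1 h2 h3)) (enc_norm (enc_sub (kf0q2.enc h2 h3) (enc_mul (c1g.enc h2) (bf1q2.enc h2 h3)))))) (enc_case (enc_subr 2887 2500 h2) (enc_add (rkfq2_95.enc h1 h2 h3) (enc_mul (enc_norm (rkfq2_97.enc h1 h2 h3)) (enc_norm (enc_mul (c1g.enc h2) (enc_norm (enc_sub (n0b.enc h2 h3) (bf1q2.enc h2 h3))))))) (rkfq2_95.enc h1 h2 h3))) (enc_case (rkfq2_68.enc h1 h2 h3) (enc_add (enc_mul h1 (bf2q2.enc h2 h3)) (enc_mul (enc_norm (enc_mul (enc_norm (enc_sub (enc_pnc _ 1) (lm1p.enc h1 h2))) (cv1p.enc h2)))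 (enc_norm (enc_sub (bf1q2.enc h2 h3) (bf2q2.enc h2 h3))))) (enc_case (enc_sub h1 (cv3p.enc h2)) (enc_case (enc_subr 139 128 h2) (rkfq2_36.enc h1 h2 h3) (enc_case (enc_subr 157 128 h2) (enc_add (kf2q2.enc h2 h3) (enc_mul (enc_norm (enc_mul (enc_norm (rkfq2_68.enc h1 h2 h3)) (enc_inv (enc_sub (enc_subr 1 2 (swg.enc h2)) (cv2p.enc h2))))) (enc_norm (enc_sub (enc_add (enc_sub (enc_mul (enc_norm (enc_mul (enc_norm (enc_sub (rkfq2_38.enc h1 h2 h3) (rkfq2_44.enc h1 h2 h3))) (enc_norm (rkfq2_46.enc h1 h2 h3)))) (enc_inv (enc_sub (rkfq2_46.enc h1 h2 h3) (rkfq2_44.enc h1 h2 h3)))) (enc_mul (enc_norm (enc_sub (enc_half (rkfq2_37.enc h1 h2 h3)) (enc_mul (enc_scale 3 4 (enc_sq (enc_norm (rkfq2_37.enc h1 h2 h3)))) (enc_inv (rkfq2_38.enc h1 h2 h3))))) (enc_inv (enc_nat 2 (esg.enc (enc_norm (rkfq2_37.enc h1 h2 h3))))))) (enc_mul (kcg.enc (enc_norm (enc_sub (enc_scale 3 4 (rkfq2_37.enc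 h1 h2 h3)) (enc_half (rkfq2_38.enc h1 h2 h3)))) h3) (enc_norm (rkfq2_37.enc h1 h2 h3)))) (kf2q2.enc h2 h3))))) (rkfq2_36.enc h1 h2 h3))) (enc_case (enc_sub h1 (cv4p.enc h2)) (enc_add (enc_mul h1 (bf4q2.enc h2 h3)) (enc_mul (enc_norm (enc_sub (enc_pnc _ 1) (lm3p.enc h1 h2))) (enc_norm (enc_sub (kf3q2.enc h2 h3) (enc_mul (cv3p.enc h2) (bf4q2.enc h2 h3)))))) (enc_add (kf4q2.enc h2 h3) (enc_mul (lm4p.enc h1 h2) (enc_norm (enc_sub (kf5q2.enc h2 h3) (kf4q2.enc h2 h3)))))))))⟩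
noncomputable def rsfq2 : Fn3 := ⟨_, _, fun h1 h2 h3 => (enc_case h1 (enc_neg (rkfq2.enc (enc_neg h1) h2 h3)) (rkfq2.enc h1 h2 h3))⟩
noncomputable def cv3r : Fn1 := ⟨_, _, fun h1 => (enc_norm (enc_add (enc_scale 4 5 (enc_subr 1 2 (swg.enc h1))) (enc_scale 1 5 (c3g.enc h1))))⟩
noncomputable def cv4r : Fn1 := ⟨_, _, fun h1 => (enc_norm (enc_add (enc_scale 2 5 (enc_subr 1 2 (swg.enc h1))) (enc_scale 3 5 (c3g.enc h1))))⟩
noncomputable def kf4q3 : Fn2 := ⟨_, _, fun h1 h2 => (enc_norm (enc_mul (cv4r.enc h1) (bf4q3.enc h1 h2)))⟩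
noncomputable def kf5q3 : Fn2 := ⟨_, _, fun h1 h2 => (enc_norm (enc_sub (enc_mul (enc_norm (enc_subn 2 h1)) (kcg.enc (enc_norm (enc_sub (enc_scale 1 4 h1) (enc_half (c3g.enc h1)))) h2)) (enc_mul (enc_norm (enc_mul (enc_norm (enc_sub (enc_nat 2 (c3g.enc h1)) h1)) (enc_norm (enc_sub (enc_add (c3g.enc h1) (enc_pnc _ 3)) (enc_scale 3 2 h1))))) (enc_inv (enc_nat 4 (enc_subn 1 h1))))))⟩
noncomputable def lm4r : Fn2 := ⟨_, _, fun h1 h2 => (enc_lam (enc_norm (enc_sub h1 (cv4r.enc h2))) (enc_sub (c3g.enc h2) (cv4r.enc h2)))⟩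
noncomputable def lm3r : Fn2 := ⟨_, _, fun h1 h2 => (enc_lam (enc_norm (enc_sub h1 (cv3r.enc h2))) (enc_sub (cv4r.enc h2) (cv3r.enc h2)))⟩
noncomputable def lm2r : Fn2 := ⟨_, _, fun h1 h2 => (enc_lam (enc_norm (enc_sub h1 (cv2r.enc h2))) (enc_sub (cv3r.enc h2) (cv2r.enc h2)))⟩
noncomputable def lm1r : Fn2 := ⟨_, _, fun h1 h2 => (enc_lam (enc_norm (enc_sub h1 (cv1r.enc h2))) (enc_sub (cv2r.enc h2) (cv1r.enc h2)))⟩
noncomputable def rkfq3 : Fn3 := ⟨_, _, fun h1 h2 h3 => (enc_case (enc_sub h1 (cv1r.enc h2)) (enc_mul h1 (bf1q3.enc h2 h3)) (enc_case (enc_sub h1 (cv2r.enc h2)) (enc_add (enc_mul h1 (bf2q3.enc h2 h3)) (enc_mul (enc_norm (enc_mul (enc_norm (enc_sub (enc_pnc _ 1) (lm1r.enc h1 h2))) (cv1r.enc h2))) (enc_norm (enc_sub (bf1q3.enc h2 h3) (bf2q3.enc h2 h3))))) (enc_case (enc_sub h1 (cv3r.enc h2)) (enc_add (enc_mul h1 (bf3q3.enc h2 h3)) (enc_mul (enc_norm (enc_mul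 (enc_norm (enc_sub (enc_pnc _ 1) (lm2r.enc h1 h2))) (cv2r.enc h2))) (enc_norm (enc_sub (bf2q3.enc h2 h3) (bf3q3.enc h2 h3))))) (enc_case (enc_sub h1 (cv4r.enc h2)) (enc_add (enc_mul h1 (bf4q3.enc h2 h3)) (enc_mul (enc_norm (enc_mul (enc_norm (enc_sub (enc_pnc _ 1) (lm3r.enc h1 h2))) (cv3r.enc h2))) (enc_norm (enc_sub (bf3q3.enc h2 h3) (bf4q3.enc h2 h3))))) (enc_add (kf4q3.enc h2 h3) (enc_mul (lm4r.enc h1 h2) (enc_norm (enc_sub (kf5q3.enc h2 h3) (kf4q3.enc h2 h3)))))))))⟩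
noncomputable def rsfq3 : Fn3 := ⟨_, _, fun h1 h2 h3 => (enc_case h1 (enc_neg (rkfq3.enc (enc_neg h1) h2 h3)) (rkfq3.enc h1 h2 h3))⟩
noncomputable def rxq0 : Fn3 := ⟨_, _, fun h1 h2 h3 => (enc_case (enc_sub h1 (cv1m.enc h2)) (enc_add (enc_mul h1 (bx1q0.enc h2 h3)) (enc_mul (enc_norm (enc_sub (enc_pnc _ 1) (lm0m.enc h1 h2))) (enc_norm (enc_sub (l0q0.enc h2 h3) (enc_mul (c1g.enc h2) (bx1q0.enc h2 h3)))))) (enc_case (enc_sub h1 (cv2m.enc h2)) (enc_add (enc_mul h1 (bx2q0.enc h2 h3)) (enc_mul (enc_norm (enc_mul (enc_norm (enc_sub (enc_pnc _ 1) (lm1m.enc h1 h2))) (cv1m.enc h2))) (enc_norm (enc_sub (bx1q0.enc h2 h3) (bx2q0.enc h2 h3))))) (enc_case (enc_sub h1 (cv3m.enc h2)) (enc_add (enc_mul h1 (bx3q0.enc h2 h3)) (enc_mul (enc_norm (enc_mul (enc_norm (enc_sub (enc_pnc _ 1) (lm2m.enc h1 h2))) (cv2m.enc h2))) (enc_norm (enc_sub (bx2q0.enc h2 h3) (bx3q0.enc h2 h3))))) (enc_case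 (enc_sub h1 (cv4m.enc h2)) (enc_add (enc_mul h1 (bx4q0.enc h2 h3)) (enc_mul (enc_norm (enc_mul (enc_norm (enc_sub (enc_pnc _ 1) (lm3m.enc h1 h2))) (cv3m.enc h2))) (enc_norm (enc_sub (bx3q0.enc h2 h3) (bx4q0.enc h2 h3))))) (enc_add (l4q0.enc h2 h3) (enc_mul (lm4m.enc h1 h2) (enc_norm (enc_sub (l5q0.enc h2 h3) (l4q0.enc h2 h3)))))))))⟩
noncomputable def rlq0 : Fn3 := ⟨_, _, fun h1 h2 h3 => (enc_case h1 (enc_neg (rxq0.enc (enc_neg h1) h2 h3)) (rxq0.enc h1 h2 h3))⟩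
noncomputable def bx3q1_3 : Fn2 := ⟨_, _, fun h1 h2 => (enc_subr 5 32 h2)⟩
noncomputable def bx3q1_30 : Fn2 := ⟨_, _, fun h1 h2 => (enc_sq (enc_norm (bx3q1_3.enc h1 h2)))⟩
noncomputable def bx3q1 : Fn2 := ⟨_, _, fun h1 h2 => (enc_norm (enc_case (enc_subr 27 32 h1) (enc_case (enc_subr 7 10 h1) (enc_add (enc_sub (enc_rat _ 55141 2000000) (enc_scale 7 320 h1)) (enc_mul (enc_norm (bx3q1_3.enc h1 h2)) (enc_norm (enc_sub (enc_rat _ 6207 50000) (enc_scale 2083 10000 h1))))) (enc_add (enc_add (enc_sub (enc_rat _ 8672511 312500000) (enc_scale 345849 15625000 h1)) (enc_mul (enc_norm (bx3q1_3.enc h1 h2)) (enc_norm (enc_subr 27143441 117500000 (enc_scale 219618 734375 h1))))) (enc_mul (bx3q1_30.enc h1 h2) (enc_norm (enc_subr 602049 734375 (enc_scale 172014 146875 h1)))))) (enc_case (enc_subr 19 20 h1) (enc_add (enc_add (enc_sub (enc_rat _ 557715081 14375000000) (enc_scale 7118381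 179687500 h1)) (enc_mul (enc_norm (bx3q1_3.enc h1 h2)) (enc_norm (enc_sub (enc_rat _ 264608889 1437500000) (enc_scale 6708803 35937500 h1))))) (enc_mul (bx3q1_30.enc h1 h2) (enc_norm (enc_subr 112214 359375 (enc_scale 23624 71875 h1))))) (enc_add (enc_sub (enc_rat _ 1163 50000) (enc_scale 1163 50000 h1)) (enc_mul (enc_norm (bx3q1_3.enc h1 h2)) (enc_norm (enc_sub (enc_rat _ 673 5000) (enc_scale 673 5000 h1))))))))⟩
noncomputable def rxq1_36 : Fn3 := ⟨_, _, fun h1 h2 h3 => (enc_add (enc_mul h1 (bx3q1.enc h2 h3)) (enc_mul (enc_norm (enc_mul (enc_norm (enc_sub (enc_pnc _ 1) (lm2m.enc h1 h2))) (cv2m.enc h2))) (enc_norm (enc_sub (bx2q1.enc h2 h3) (bx3q1.enc h2 h3)))))⟩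
noncomputable def rxq1_38 : Fn3 := ⟨_, _, fun h1 h2 h3 => (enc_sub (enc_pnc _ 1) h2)⟩
noncomputable def rxq1_55 : Fn3 := ⟨_, _, fun h1 h2 h3 => (enc_sub h1 (cv2m.enc h2))⟩
noncomputable def rxq1 : Fn3 := ⟨_, _, fun h1 h2 h3 => (enc_case (enc_sub h1 (cv1m.enc h2)) (enc_add (enc_mul h1 (bx1q1.enc h2 h3)) (enc_mul (enc_norm (enc_sub (enc_pnc _ 1) (lm0m.enc h1 h2))) (enc_norm (enc_sub (l0q1.enc h2 h3) (enc_mul (c1g.enc h2) (bx1q1.enc h2 h3)))))) (enc_case (rxq1_55.enc h1 h2 h3) (enc_add (enc_mul h1 (bx2q1.enc h2 h3)) (enc_mul (enc_norm (enc_mul (enc_norm (enc_sub (enc_pnc _ 1) (lm1m.enc h1 h2))) (cv1m.enc h2))) (enc_norm (enc_sub (bx1q1.enc h2 h3) (bx2q1.enc h2 h3))))) (enc_case (enc_sub h1 (cv3m.enc h2)) (enc_case (enc_subr 99 128 h2) (rxq1_36.enc h1 h2 h3) (enc_case (enc_subr 117 128 h2) (enc_add (l2q1.enc h2 h3) (enc_mul (enc_norm (enc_mul (enc_norm (rxq1_55.enc h1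 h2 h3)) (enc_inv (enc_sub (enc_add (swg.enc h2) (enc_rat _ 1 2)) (cv2m.enc h2))))) (enc_norm (enc_sub (enc_sub (qsg.enc (enc_norm (rxq1_38.enc h1 h2 h3))) (enc_mul (enc_norm (enc_nat 2 (enc_sub (rxq1_38.enc h1 h2 h3) h3))) (enc_norm (enc_mul (esg.enc (enc_norm (rxq1_38.enc h1 h2 h3))) (kcg.enc (enc_norm (enc_sub (enc_scale 3 4 (rxq1_38.enc h1 h2 h3)) (enc_half (gsg.enc (enc_norm (rxq1_38.enc h1 h2 h3)))))) h3))))) (l2q1.enc h2 h3))))) (rxq1_36.enc h1 h2 h3))) (enc_case (enc_sub h1 (cv4m.enc h2)) (enc_add (enc_mul h1 (bx4q1.enc h2 h3)) (enc_mul (enc_norm (enc_sub (enc_pnc _ 1) (lm3m.enc h1 h2))) (enc_norm (enc_sub (l3q1.enc h2 h3) (enc_mul (cv3m.enc h2) (bx4q1.enc h2 h3)))))) (enc_add (l4q1.enc h2 h3) (enc_mul (lm4m.enc h1 h2) (enc_norm (enc_sub (l5q1.enc h2 h3) (l4q1.enc h2 h3)))))))))⟩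
noncomputable def rlq1 : Fn3 := ⟨_, _, fun h1 h2 h3 => (enc_case h1 (enc_neg (rxq1.enc (enc_neg h1) h2 h3)) (rxq1.enc h1 h2 h3))⟩
noncomputable def bx3q2_3 : Fn2 := ⟨_, _, fun h1 h2 => (enc_subr 5 32 h2)⟩
noncomputable def bx3q2_42 : Fn2 := ⟨_, _, fun h1 h2 => (enc_sq (enc_norm (bx3q2_3.enc h1 h2)))⟩
noncomputable def bx3q2 : Fn2 := ⟨_, _, fun h1 h2 => (enc_norm (enc_case (enc_subr 37 32 h1) (enc_case (enc_subr 103 100 h1) (enc_add (enc_subr 60763 500000 (enc_scale 1047 10000 h1)) (enc_mul (enc_norm (bx3q2_3.enc h1 h2)) (enc_norm (enc_sub (enc_rat _ 66493 30000) (enc_scale 1669 750 h1))))) (enc_case (enc_subr 53 50 h1) (enc_add (enc_subr 160453 1500000 (enc_scale 2717 30000 h1)) (enc_mul (enc_norm (bx3q2_3.enc h1 h2)) (enc_norm (enc_sub (enc_rat _ 896371 300000) (enc_scale 8923 3000 h1))))) (enc_add (enc_add (enc_subr 3436871293 12968750000 (enc_scale 62162831 259375000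 h1)) (enc_mul (enc_norm (bx3q2_3.enc h1 h2)) (enc_norm (enc_subr 57396673811 5187500000 (enc_scale 133352139 12968750 h1))))) (enc_mul (bx3q2_42.enc h1 h2) (enc_norm (enc_sub (enc_rat _ 3284781 259375) (enc_scale 123954 10375 h1))))))) (enc_case (enc_subr 5 4 h1) (enc_add (enc_add (enc_subr 6641981 375000000 (enc_scale 6194053 234375000 h1)) (enc_mul (enc_norm (bx3q2_3.enc h1 h2)) (enc_norm (enc_sub (enc_rat _ 59147209 4687500) (enc_scale 244143211 23437500 h1))))) (enc_mul (bx3q2_42.enc h1 h2) (enc_norm (enc_sub (enc_rat _ 233623 6250) (enc_scale 467246 15625 h1))))) (enc_case (enc_subr 27 20 h1) (enc_add (enc_subr 37579 2000000 (enc_scale 2729 100000 h1)) (enc_mul (enc_norm (bx3q2_3.enc h1 h2)) (enc_norm (enc_subr 33959 10000 (enc_scale 2993 1250 h1))))) (enc_add (enc_subr 1259 62500 (enc_scale 1061 37500 h1)) (enc_mul (enc_norm (bx3q2_3.enc h1 h2)) (enc_norm (enc_subr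 168769 50000 (enc_scale 1487 625 h1)))))))))⟩
noncomputable def l2q2 : Fn2 := ⟨_, _, fun h1 h2 => (enc_norm (enc_mul (cv2p.enc h1) (bx2q2.enc h1 h2)))⟩
noncomputable def l0q2_7 : Fn2 := ⟨_, _, fun h1 h2 => (enc_scale 3 4 h1)⟩
noncomputable def l0q2_8 : Fn2 := ⟨_, _, fun h1 h2 => (enc_half (c1g.enc h1))⟩
noncomputable def l0q2 : Fn2 := ⟨_, _, fun h1 h2 => (enc_norm (enc_sub (txg.enc (enc_neg (c1g.enc h1)) (enc_norm (enc_add (l0q2_7.enc h1 h2) (l0q2_8.enc h1 h2))) h2) (txg.enc (c1g.enc h1) (enc_norm (enc_sub (l0q2_7.enc h1 h2) (l0q2_8.enc h1 h2))) h2)))⟩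
noncomputable def n0x : Fn2 := ⟨_, _, fun h1 h2 => (enc_norm (enc_add (enc_scale 899 6250 (enc_subr 5 32 h2)) (enc_rat _ 911 31250)))⟩
noncomputable def rxq2_36 : Fn3 := ⟨_, _, fun h1 h2 h3 => (enc_add (enc_mul h1 (bx3q2.enc h2 h3)) (enc_mul (enc_norm (enc_mul (enc_norm (enc_sub (enc_pnc _ 1) (lm2p.enc h1 h2))) (cv2p.enc h2))) (enc_norm (enc_sub (bx2q2.enc h2 h3) (bx3q2.enc h2 h3)))))⟩
noncomputable def rxq2_37 : Fn3 := ⟨_, _, fun h1 h2 h3 => (enc_subn 1 h2)⟩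
noncomputable def rxq2_55 : Fn3 := ⟨_, _, fun h1 h2 h3 => (enc_sub h1 (cv2p.enc h2))⟩
noncomputable def rxq2_82 : Fn3 := ⟨_, _, fun h1 h2 h3 => (enc_mul h1 (bx1q2.enc h2 h3))⟩
noncomputable def rxq2_84 : Fn3 := ⟨_, _, fun h1 h2 h3 => (enc_sub (enc_pnc _ 1) (lm0p.enc h1 h2))⟩
noncomputable def rxq2 : Fn3 := ⟨_, _, fun h1 h2 h3 => (enc_case (enc_sub h1 (cv1p.enc h2)) (enc_case (enc_subr 1153 1000 h2) (enc_add (rxq2_82.enc h1 h2 h3) (enc_mul (enc_norm (rxq2_84.enc h1 h2 h3)) (enc_norm (enc_sub (l0q2.enc h2 h3) (enc_mul (c1g.enc h2) (bx1q2.enc h2 h3)))))) (enc_case (enc_subr 2887 2500 h2) (enc_add (rxq2_82.enc h1 h2 h3) (enc_mul (enc_norm (rxq2_84.enc h1 h2 h3)) (enc_norm (enc_mul (c1g.enc h2) (enc_norm (enc_sub (n0x.enc h2 h3) (bx1q2.enc h2 h3))))))) (rxq2_82.enc h1 h2 h3))) (enc_case (rxq2_55.enc h1 h2 h3) (enc_add (enc_mul h1 (bx2q2.enc h2 h3)) (enc_mul (enc_norm (enc_mul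 (enc_norm (enc_sub (enc_pnc _ 1) (lm1p.enc h1 h2))) (cv1p.enc h2))) (enc_norm (enc_sub (bx1q2.enc h2 h3) (bx2q2.enc h2 h3))))) (enc_case (enc_sub h1 (cv3p.enc h2)) (enc_case (enc_subr 139 128 h2) (rxq2_36.enc h1 h2 h3) (enc_case (enc_subr 157 128 h2) (enc_add (l2q2.enc h2 h3) (enc_mul (enc_norm (enc_mul (enc_norm (rxq2_55.enc h1 h2 h3)) (enc_inv (enc_sub (enc_subr 1 2 (swg.enc h2)) (cv2p.enc h2))))) (enc_norm (enc_sub (enc_sub (qsg.enc (enc_norm (rxq2_37.enc h1 h2 h3))) (enc_mul (enc_norm (enc_nat 2 (enc_sub (rxq2_37.enc h1 h2 h3) h3))) (enc_norm (enc_mul (esg.enc (enc_norm (rxq2_37.enc h1 h2 h3))) (kcg.enc (enc_norm (enc_sub (enc_scale 3 4 (rxq2_37.enc h1 h2 h3)) (enc_half (gsg.enc (enc_norm (rxq2_37.enc h1 h2 h3)))))) h3))))) (l2q2.enc h2 h3))))) (rxq2_36.enc h1 h2 h3))) (enc_case (enc_sub h1 (cv4p.enc h2)) (enc_add (enc_mul h1 (bx4q2.enc h2 h3)) (enc_mul (enc_norm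 (enc_sub (enc_pnc _ 1) (lm3p.enc h1 h2))) (enc_norm (enc_sub (l3q2.enc h2 h3) (enc_mul (cv3p.enc h2) (bx4q2.enc h2 h3)))))) (enc_add (l4q2.enc h2 h3) (enc_mul (lm4p.enc h1 h2) (enc_norm (enc_sub (l5q2.enc h2 h3) (l4q2.enc h2 h3)))))))))⟩
noncomputable def rlq2 : Fn3 := ⟨_, _, fun h1 h2 h3 => (enc_case h1 (enc_neg (rxq2.enc (enc_neg h1) h2 h3)) (rxq2.enc h1 h2 h3))⟩
noncomputable def l4q3 : Fn2 := ⟨_, _, fun h1 h2 => (enc_norm (enc_mul (cv4r.enc h1) (bx4q3.enc h1 h2)))⟩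
noncomputable def l5q3_7 : Fn2 := ⟨_, _, fun h1 h2 => (enc_half (c3g.enc h1))⟩
noncomputable def l5q3_8 : Fn2 := ⟨_, _, fun h1 h2 => (enc_scale 1 4 h1)⟩
noncomputable def l5q3_9 : Fn2 := ⟨_, _, fun h1 h2 => (enc_sub (l5q3_7.enc h1 h2) (l5q3_8.enc h1 h2))⟩
noncomputable def l5q3_12 : Fn2 := ⟨_, _, fun h1 h2 => (enc_add (enc_scale 1 4 (c3g.enc h1)) (enc_scale 3 8 h1))⟩
noncomputable def l5q3_14 : Fn2 := ⟨_, _, fun h1 h2 => (enc_half (l5q3_9.enc h1 h2))⟩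
noncomputable def l5q3 : Fn2 := ⟨_, _, fun h1 h2 => (enc_norm (enc_sub (enc_nat 2 (txg.enc (enc_norm (enc_sub (l5q3_8.enc h1 h2) (l5q3_7.enc h1 h2))) (enc_norm (enc_add (l5q3_12.enc h1 h2) (l5q3_14.enc h1 h2))) h2)) (txg.enc (enc_norm (l5q3_9.enc h1 h2)) (enc_norm (enc_sub (l5q3_12.enc h1 h2) (l5q3_14.enc h1 h2))) h2)))⟩
noncomputable def rxq3 : Fn3 := ⟨_, _, fun h1 h2 h3 => (enc_case (enc_sub h1 (cv1r.enc h2)) (enc_mul h1 (bx1q3.enc h2 h3)) (enc_case (enc_sub h1 (cv2r.enc h2)) (enc_add (enc_mul h1 (bx2q3.enc h2 h3)) (enc_mul (enc_norm (enc_mul (enc_norm (enc_sub (enc_pnc _ 1) (lm1r.enc h1 h2))) (cv1r.enc h2))) (enc_norm (enc_sub (bx1q3.enc h2 h3) (bx2q3.enc h2 h3))))) (enc_case (enc_sub h1 (cv3r.enc h2)) (enc_add (enc_mul h1 (bx3q3.enc h2 h3)) (enc_mul (enc_norm (enc_mul (enc_norm (enc_sub (enc_pnc _ 1) (lm2r.enc h1 h2))) (cv2r.enc h2))) (enc_norm (enc_sub (bx2q3.enc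 h2 h3) (bx3q3.enc h2 h3))))) (enc_case (enc_sub h1 (cv4r.enc h2)) (enc_add (enc_mul h1 (bx4q3.enc h2 h3)) (enc_mul (enc_norm (enc_mul (enc_norm (enc_sub (enc_pnc _ 1) (lm3r.enc h1 h2))) (cv3r.enc h2))) (enc_norm (enc_sub (bx3q3.enc h2 h3) (bx4q3.enc h2 h3))))) (enc_add (l4q3.enc h2 h3) (enc_mul (lm4r.enc h1 h2) (enc_norm (enc_sub (l5q3.enc h2 h3) (l4q3.enc h2 h3)))))))))⟩
noncomputable def rlq3 : Fn3 := ⟨_, _, fun h1 h2 h3 => (enc_case h1 (enc_neg (rxq3.enc (enc_neg h1) h2 h3)) (rxq3.enc h1 h2 h3))⟩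
noncomputable def mug3 : Fn1 := ⟨_, _, fun h1 => (enc_inv (enc_add (enc_nat 2 (gsg.enc h1)) (enc_pnc _ 3)))⟩
noncomputable def gug : Fn1 := ⟨_, _, fun h1 => (enc_norm (enc_add (enc_scale 3 4 h1) (enc_scale 3 2 (enc_sub (enc_pnc _ 1) (gsg.enc h1)))))⟩
noncomputable def kug_2 : Fn1 := ⟨_, _, fun h1 => (enc_sq h1)⟩
noncomputable def kug : Fn1 := ⟨_, _, fun h1 => (enc_norm (enc_add (enc_add (enc_scale 3 4 h1) (enc_scale 3 2 (kug_2.enc h1))) (enc_mul (enc_norm (enc_mul (enc_scale 3 4 (kug_2.enc h1)) (enc_inv (gsg.enc h1)))) (gug.enc h1))))⟩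
noncomputable def kp0q0_3 : Fn2 := ⟨_, _, fun h1 h2 => (enc_subr 5 32 h2)⟩
noncomputable def kp0q0_8 : Fn2 := ⟨_, _, fun h1 h2 => (enc_sub (enc_scale 3 4 h1) (enc_half (c1g.enc h1)))⟩
noncomputable def kp0q0 : Fn2 := ⟨_, _, fun h1 h2 => (enc_norm (enc_case (enc_add (kp0q0_8.enc h1 h2) (enc_rat _ 481 1106)) (enc_mul h1 (enc_norm (enc_add (enc_subr 48901735519 120000000000 (enc_neg (enc_scale 102685255519 60000000000 (kp0q0_8.enc h1 h2)))) (enc_mul (enc_norm (kp0q0_3.enc h1 h2)) (enc_norm (enc_add (enc_scale 711145187543 90000000000 (kp0q0_8.enc h1 h2)) (enc_rat _ 696212387543 180000000000))))))) (enc_case (enc_add (kp0q0_8.enc h1 h2) (enc_rat _ 23 73)) (enc_sub (kug.enc h1) (enc_mul h1 (enc_norm (enc_mul (kcg.enc (enc_norm (kp0q0_8.enc h1 h2)) h2) (enc_norm (enc_add (gug.enc h1) (enc_nat 2 (c1g.enc h1)))))))) (enc_mul h1 (enc_norm (enc_add (enc_sub (enc_rat _ 274092431749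 1190000000000) (enc_scale 807445671749 595000000000 (kp0q0_8.enc h1 h2))) (enc_mul (enc_norm (kp0q0_3.enc h1 h2)) (enc_norm (enc_subr 403956299991 595000000000 (enc_scale 453317499991 297500000000 (kp0q0_8.enc h1 h2)))))))))))⟩
noncomputable def kn0q0 : Fn2 := ⟨_, _, fun h1 h2 => (enc_norm (enc_add (enc_mul (enc_norm (enc_add (enc_pnc _ 1) (enc_mul (mug3.enc h2) (gug.enc h2)))) (kf0q0.enc h1 h2)) (enc_mul (mug3.enc h2) (kp0q0.enc h1 h2))))⟩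
noncomputable def kp0q1_9 : Fn2 := ⟨_, _, fun h1 h2 => (enc_sub (enc_scale 3 4 h1) (enc_half (c1g.enc h1)))⟩
noncomputable def kp0q1 : Fn2 := ⟨_, _, fun h1 h2 => (enc_norm (enc_mul (enc_norm (enc_subn 1 h1)) (enc_norm (enc_add (enc_sub (enc_rat _ 274092431749 1190000000000) (enc_scale 807445671749 595000000000 (kp0q1_9.enc h1 h2))) (enc_mul (enc_norm (enc_subr 5 32 h2)) (enc_norm (enc_subr 403956299991 595000000000 (enc_scale 453317499991 297500000000 (kp0q1_9.enc h1 h2)))))))))⟩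
noncomputable def kn0q1 : Fn2 := ⟨_, _, fun h1 h2 => (enc_norm (enc_add (enc_mul (enc_norm (enc_add (enc_pnc _ 1) (enc_mul (mug3.enc h2) (gug.enc h2)))) (kf0q1.enc h1 h2)) (enc_mul (mug3.enc h2) (kp0q1.enc h1 h2))))⟩
noncomputable def kpc02_4 : Fn2 := ⟨_, _, fun h1 h2 => (enc_subr 5 32 h2)⟩
noncomputable def kpc02 : Fn2 := ⟨_, _, fun h1 h2 => (enc_norm (enc_mul (enc_norm (enc_subn 1 (yag.enc h1))) (enc_norm (enc_case (enc_subr 1 10 h1) (enc_sub (enc_scale 3521 4000 h1) (enc_mul (enc_norm (kpc02_4.enc h1 h2)) (enc_scale 1087 10000 h1))) (enc_add (enc_subr 8071 4000000 (enc_scale 360171 400000 h1)) (enc_mul (enc_norm (kpc02_4.enc h1 h2)) (enc_norm (enc_sub (enc_rat _ 2861 400000) (enc_scale 7209 40000 h1)))))))))⟩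
noncomputable def knc02 : Fn2 := ⟨_, _, fun h1 h2 => (enc_norm (enc_add (enc_mul (enc_norm (enc_add (enc_pnc _ 1) (enc_mul (mug3.enc h2) (gug.enc h2)))) (kfc02.enc h1 h2)) (enc_mul (mug3.enc h2) (kpc02.enc h1 h2))))⟩
noncomputable def bd1q0 : Fn2 := ⟨_, _, fun h1 h2 => (enc_norm (enc_sub (enc_neg (enc_scale 32177 125000 h1)) (enc_mul (enc_norm (enc_subr 5 32 h2)) (enc_scale 16813 50000 h1))))⟩
noncomputable def kp1q0 : Fn2 := ⟨_, _, fun h1 h2 => (enc_norm (enc_mul (cv1m.enc h1) (bd1q0.enc h1 h2)))⟩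
noncomputable def kn1q0 : Fn2 := ⟨_, _, fun h1 h2 => (enc_norm (enc_add (enc_mul (enc_norm (enc_add (enc_pnc _ 1) (enc_mul (mug3.enc h2) (gug.enc h2)))) (kf1q0.enc h1 h2)) (enc_mul (mug3.enc h2) (kp1q0.enc h1 h2))))⟩
noncomputable def bd1q1_3 : Fn2 := ⟨_, _, fun h1 h2 => (enc_subr 5 32 h2)⟩
noncomputable def bd1q1 : Fn2 := ⟨_, _, fun h1 h2 => (enc_norm (enc_case (enc_subr 4 5 h1) (enc_case (enc_subr 7 10 h1) (enc_add (enc_subr 116327 2000000 (enc_scale 20683 200000 h1)) (enc_mul (enc_norm (bd1q1_3.enc h1 h2)) (enc_norm (enc_sub (enc_rat _ 405337 100000) (enc_scale 9611 5000 h1))))) (enc_add (enc_subr 11919 200000 (enc_scale 5273 50000 h1)) (enc_mul (enc_norm (bd1q1_3.enc h1 h2)) (enc_norm (enc_sub (enc_rat _ 81353 20000) (enc_scale 9713 5000 h1)))))) (enc_case (enc_subr 7 8 h1) (enc_add (enc_subr 61723 1000000 (enc_scale 2703 25000 h1)) (enc_mul (enc_norm (bd1q1_3.enc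 h1 h2)) (enc_norm (enc_sub (enc_rat _ 408733 100000) (enc_scale 2459 1250 h1))))) (enc_case (enc_subr 19 20 h1) (enc_add (enc_subr 64103 1000000 (enc_scale 2771 25000 h1)) (enc_mul (enc_norm (bd1q1_3.enc h1 h2)) (enc_norm (enc_sub (enc_rat _ 102647 25000) (enc_scale 4971 2500 h1))))) (enc_add (enc_subr 13193 200000 (enc_scale 141 1250 h1)) (enc_mul (enc_norm (bd1q1_3.enc h1 h2)) (enc_norm (enc_sub (enc_rat _ 205807 50000) (enc_scale 2499 1250 h1)))))))))⟩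
noncomputable def kp1q1 : Fn2 := ⟨_, _, fun h1 h2 => (enc_norm (enc_mul (cv1m.enc h1) (bd1q1.enc h1 h2)))⟩
noncomputable def kn1q1 : Fn2 := ⟨_, _, fun h1 h2 => (enc_norm (enc_add (enc_mul (enc_norm (enc_add (enc_pnc _ 1) (enc_mul (mug3.enc h2) (gug.enc h2)))) (kf1q1.enc h1 h2)) (enc_mul (mug3.enc h2) (kp1q1.enc h1 h2))))⟩
noncomputable def bd1q2_3 : Fn2 := ⟨_, _, fun h1 h2 => (enc_subr 5 32 h2)⟩
noncomputable def bd1q2 : Fn2 := ⟨_, _, fun h1 h2 => (enc_norm (enc_case (enc_subr 577 500 h1) (enc_case (enc_subr 53 50 h1) (enc_case (enc_subr 103 100 h1) (enc_add (enc_subr 209 240 (enc_scale 209 240 h1)) (enc_mul (enc_norm (bd1q2_3.enc h1 h2)) (enc_norm (enc_sub (enc_rat _ 141 1000) (enc_scale 141 1000 h1))))) (enc_add (enc_subr 1317683 1500000 (enc_scale 26347 30000 h1)) (enc_mul (enc_norm (bd1q2_3.enc h1 h2)) (enc_norm (enc_sub (enc_rat _ 461 4000) (enc_scale 29 250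 h1)))))) (enc_case (enc_subr 11 10 h1) (enc_add (enc_subr 3537 4000 (enc_scale 8837 10000 h1)) (enc_mul (enc_norm (bd1q2_3.enc h1 h2)) (enc_norm (enc_sub (enc_rat _ 9617 100000) (enc_scale 49 500 h1))))) (enc_add (enc_subr 4777007 5400000 (enc_scale 95477 108000 h1)) (enc_mul (enc_norm (bd1q2_3.enc h1 h2)) (enc_norm (enc_sub (enc_rat _ 124819 1350000) (enc_scale 25549 270000 h1))))))) (enc_case (enc_subr 29 25 h1) (enc_case (enc_subr 231 200 h1) (enc_add (enc_subr 3521 4000 (enc_scale 3521 4000 h1)) (enc_mul (enc_norm (bd1q2_3.enc h1 h2)) (enc_norm (enc_sub (enc_rat _ 1087 10000) (enc_scale 1087 10000 h1))))) (enc_add (enc_subr 26887 31250 (enc_scale 17261 20000 h1)) (enc_mul (enc_norm (bd1q2_3.enc h1 h2)) (enc_norm (enc_sub (enc_rat _ 3733 62500) (enc_scale 663 10000 h1)))))) (enc_case (enc_subr 5 4 h1) (enc_add (enc_subr 1260677 1500000 (enc_scale 1586 1875 h1))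 (enc_mul (enc_norm (bd1q2_3.enc h1 h2)) (enc_norm (enc_sub (enc_rat _ 5377 450000) (enc_scale 113 4500 h1))))) (enc_case (enc_subr 27 20 h1) (enc_sub (enc_subr 1649111 2000000 (enc_scale 16663 20000 h1)) (enc_scale 243 12500 (bd1q2_3.enc h1 h2))) (enc_add (enc_subr 81457 100000 (enc_scale 123863 150000 h1)) (enc_mul (enc_norm (bd1q2_3.enc h1 h2)) (enc_norm (enc_subr 891 25000 (enc_scale 3 250 h1))))))))))⟩
noncomputable def kpc12a : Fn2 := ⟨_, _, fun h1 h2 => (enc_norm (enc_mul (enc_norm (enc_add (enc_half h1) (enc_half (enc_subr 1 2 (swg.enc (yag.enc h1)))))) (bd1q2.enc (yag.enc h1) h2)))⟩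
noncomputable def knc12a : Fn2 := ⟨_, _, fun h1 h2 => (enc_norm (enc_add (enc_mul (enc_norm (enc_add (enc_pnc _ 1) (enc_mul (mug3.enc h2) (gug.enc h2)))) (kfc12a.enc h1 h2)) (enc_mul (mug3.enc h2) (kpc12a.enc h1 h2))))⟩
noncomputable def kpc12b : Fn2 := ⟨_, _, fun h1 h2 => (enc_norm (enc_mul (enc_norm (enc_half (enc_subr 1 2 (swg.enc h1)))) (bd1q2.enc h1 h2)))⟩
noncomputable def knc12b : Fn2 := ⟨_, _, fun h1 h2 => (enc_norm (enc_add (enc_mul (enc_norm (enc_add (enc_pnc _ 1) (enc_mul (mug3.enc h2) (gug.enc h2)))) (kfc12b.enc h1 h2)) (enc_mul (mug3.enc h2) (kpc12b.enc h1 h2))))⟩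
noncomputable def bd1q3 : Fn2 := ⟨_, _, fun h1 h2 => (enc_norm (enc_add (enc_subr 2631 1000000 (enc_scale 91 100000 h1)) (enc_mul (enc_norm (enc_subr 5 32 h2)) (enc_norm (enc_subr 83 100000 (enc_scale 1 25000 h1))))))⟩
noncomputable def kp1q3 : Fn2 := ⟨_, _, fun h1 h2 => (enc_norm (enc_mul (cv1r.enc h1) (bd1q3.enc h1 h2)))⟩
noncomputable def kn1q3 : Fn2 := ⟨_, _, fun h1 h2 => (enc_norm (enc_add (enc_mul (enc_norm (enc_add (enc_pnc _ 1) (enc_mul (mug3.enc h2) (gug.enc h2)))) (kf1q3.enc h1 h2)) (enc_mul (mug3.enc h2) (kp1q3.enc h1 h2))))⟩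
noncomputable def bd2q0 : Fn2 := ⟨_, _, fun h1 h2 => (enc_norm (enc_sub (enc_neg (enc_scale 8477 62500 h1)) (enc_mul (enc_norm (enc_subr 5 32 h2)) (enc_scale 9383 50000 h1))))⟩
noncomputable def kp2q0 : Fn2 := ⟨_, _, fun h1 h2 => (enc_norm (enc_mul (cv2m.enc h1) (bd2q0.enc h1 h2)))⟩
noncomputable def kn2q0 : Fn2 := ⟨_, _, fun h1 h2 => (enc_norm (enc_add (enc_mul (enc_norm (enc_add (enc_pnc _ 1) (enc_mul (mug3.enc h2) (gug.enc h2)))) (kf2q0.enc h1 h2)) (enc_mul (mug3.enc h2) (kp2q0.enc h1 h2))))⟩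
noncomputable def bd2q1_3 : Fn2 := ⟨_, _, fun h1 h2 => (enc_subr 5 32 h2)⟩
noncomputable def bd2q1 : Fn2 := ⟨_, _, fun h1 h2 => (enc_norm (enc_case (enc_subr 4 5 h1) (enc_case (enc_subr 7 10 h1) (enc_add (enc_subr 454221 2000000 (enc_scale 77389 200000 h1)) (enc_mul (enc_norm (bd2q1_3.enc h1 h2)) (enc_norm (enc_subr 1089 200000 (enc_scale 16557 20000 h1))))) (enc_add (enc_subr 230677 1000000 (enc_scale 9801 25000 h1)) (enc_mul (enc_norm (bd2q1_3.enc h1 h2)) (enc_norm (enc_subr 253 50000 (enc_scale 8273 10000 h1)))))) (enc_case (enc_subr 7 8 h1) (enc_add (enc_subr 708991 3000000 (enc_scale 29933 75000 h1)) (enc_mul (enc_norm (bd2q1_3.enc h1 h2)) (enc_norm (enc_add (enc_scale 3071 3750 h1) (enc_rat _ 49 30000))))) (enc_case (enc_subr 19 20 h1) (enc_add (enc_subr 365573 1500000 (enc_scale 15283 37500 h1)) (enc_mul (enc_norm (bd2q1_3.enc h1 h2)) (enc_norm (enc_add (enc_scale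 4 5 h1) (enc_rat _ 91 5000))))) (enc_add (enc_subr 123327 500000 (enc_scale 5133 12500 h1)) (enc_mul (enc_norm (bd2q1_3.enc h1 h2)) (enc_norm (enc_add (enc_scale 486 625 h1) (enc_rat _ 987 25000)))))))))⟩
noncomputable def kp2q1 : Fn2 := ⟨_, _, fun h1 h2 => (enc_norm (enc_mul (cv2m.enc h1) (bd2q1.enc h1 h2)))⟩
noncomputable def kn2q1 : Fn2 := ⟨_, _, fun h1 h2 => (enc_norm (enc_add (enc_mul (enc_norm (enc_add (enc_pnc _ 1) (enc_mul (mug3.enc h2) (gug.enc h2)))) (kf2q1.enc h1 h2)) (enc_mul (mug3.enc h2) (kp2q1.enc h1 h2))))⟩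
noncomputable def bd2q2_3 : Fn2 := ⟨_, _, fun h1 h2 => (enc_subr 5 32 h2)⟩
noncomputable def bd2q2 : Fn2 := ⟨_, _, fun h1 h2 => (enc_norm (enc_case (enc_subr 11 10 h1) (enc_case (enc_subr 103 100 h1) (enc_add (enc_subr 2789 5000 (enc_scale 2789 5000 h1)) (enc_mul (enc_norm (bd2q2_3.enc h1 h2)) (enc_norm (enc_subr 97 75 (enc_scale 97 75 h1))))) (enc_case (enc_subr 53 50 h1) (enc_add (enc_subr 554813 1000000 (enc_scale 5549 10000 h1)) (enc_mul (enc_norm (bd2q2_3.enc h1 h2)) (enc_norm (enc_subr 192661 150000 (enc_scale 1927 1500 h1))))) (enc_add (enc_subr 549831 1000000 (enc_scale 2751 5000 h1)) (enc_mul (enc_norm (bd2q2_3.enc h1 h2)) (enc_norm (enc_subr 130013 100000 (enc_scale 2599 2000 h1))))))) (enc_case (enc_subr 5 4 h1) (enc_case (enc_subr 29 25 h1) (enc_add (enc_subr 803269 1500000 (enc_scale 32231 60000 h1)) (enc_mul (enc_norm (bd2q2_3.enc h1 h2)) (enc_norm (enc_subr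 397409 300000 (enc_scale 7931 6000 h1))))) (enc_add (enc_subr 129301 250000 (enc_scale 2607 5000 h1)) (enc_mul (enc_norm (bd2q2_3.enc h1 h2)) (enc_norm (enc_subr 1171637 900000 (enc_scale 11719 9000 h1)))))) (enc_case (enc_subr 27 20 h1) (enc_add (enc_subr 1011233 2000000 (enc_scale 51213 100000 h1)) (enc_mul (enc_norm (bd2q2_3.enc h1 h2)) (enc_norm (enc_subr 257261 200000 (enc_scale 12897 10000 h1))))) (enc_add (enc_subr 249143 500000 (enc_scale 5067 10000 h1)) (enc_mul (enc_norm (bd2q2_3.enc h1 h2)) (enc_norm (enc_subr 6371 5000 (enc_scale 19211 15000 h1)))))))))⟩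
noncomputable def kpc22a : Fn2 := ⟨_, _, fun h1 h2 => (enc_norm (enc_mul (enc_norm (enc_add (enc_scale 1 10 h1) (enc_scale 9 10 (enc_subr 1 2 (swg.enc (yag.enc h1)))))) (bd2q2.enc (yag.enc h1) h2)))⟩
noncomputable def knc22a : Fn2 := ⟨_, _, fun h1 h2 => (enc_norm (enc_add (enc_mul (enc_norm (enc_add (enc_pnc _ 1) (enc_mul (mug3.enc h2) (gug.enc h2)))) (kfc22a.enc h1 h2)) (enc_mul (mug3.enc h2) (kpc22a.enc h1 h2))))⟩
noncomputable def kpc22b : Fn2 := ⟨_, _, fun h1 h2 => (enc_norm (enc_mul (enc_norm (enc_scale 9 10 (enc_subr 1 2 (swg.enc h1)))) (bd2q2.enc h1 h2)))⟩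
noncomputable def knc22b : Fn2 := ⟨_, _, fun h1 h2 => (enc_norm (enc_add (enc_mul (enc_norm (enc_add (enc_pnc _ 1) (enc_mul (mug3.enc h2) (gug.enc h2)))) (kfc22b.enc h1 h2)) (enc_mul (mug3.enc h2) (kpc22b.enc h1 h2))))⟩
noncomputable def bd2q3 : Fn2 := ⟨_, _, fun h1 h2 => (enc_norm (enc_add (enc_subr 103619 1000000 (enc_scale 1061 250000 h1)) (enc_mul (enc_norm (enc_subr 5 32 h2)) (enc_norm (enc_subr 54323 100000 (enc_scale 9 1250 h1))))))⟩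
noncomputable def kp2q3 : Fn2 := ⟨_, _, fun h1 h2 => (enc_norm (enc_mul (cv2r.enc h1) (bd2q3.enc h1 h2)))⟩
noncomputable def kn2q3 : Fn2 := ⟨_, _, fun h1 h2 => (enc_norm (enc_add (enc_mul (enc_norm (enc_add (enc_pnc _ 1) (enc_mul (mug3.enc h2) (gug.enc h2)))) (kf2q3.enc h1 h2)) (enc_mul (mug3.enc h2) (kp2q3.enc h1 h2))))⟩
noncomputable def bd3q0 : Fn2 := ⟨_, _, fun h1 h2 => (enc_norm (enc_add (enc_subr 40437 500000 (enc_neg (enc_scale 4507 100000 h1))) (enc_mul (enc_norm (enc_subr 5 32 h2)) (enc_norm (enc_subr 135217 100000 (enc_neg (enc_scale 1113 6250 h1)))))))⟩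
noncomputable def kp3q0 : Fn2 := ⟨_, _, fun h1 h2 => (enc_norm (enc_mul (cv3m.enc h1) (bd3q0.enc h1 h2)))⟩
noncomputable def kn3q0 : Fn2 := ⟨_, _, fun h1 h2 => (enc_norm (enc_add (enc_mul (enc_norm (enc_add (enc_pnc _ 1) (enc_mul (mug3.enc h2) (gug.enc h2)))) (kf3q0.enc h1 h2)) (enc_mul (mug3.enc h2) (kp3q0.enc h1 h2))))⟩
noncomputable def kp3q1_4 : Fn2 := ⟨_, _, fun h1 h2 => (enc_subr 5 32 h2)⟩
noncomputable def kp3q1_55 : Fn2 := ⟨_, _, fun h1 h2 => (enc_sub (enc_pnc _ 1) h1)⟩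
noncomputable def kp3q1_56 : Fn2 := ⟨_, _, fun h1 h2 => (gsg.enc (enc_norm (kp3q1_55.enc h1 h2)))⟩
noncomputable def kp3q1_60 : Fn2 := ⟨_, _, fun h1 h2 => (esg.enc (enc_norm (kp3q1_55.enc h1 h2)))⟩
noncomputable def kp3q1_68 : Fn2 := ⟨_, _, fun h1 h2 => (enc_mul (enc_scale 3 4 (enc_sq (enc_norm (kp3q1_55.enc h1 h2)))) (enc_inv (kp3q1_56.enc h1 h2)))⟩
noncomputable def kp3q1_93 : Fn2 := ⟨_, _, fun h1 h2 => (enc_mul (cv2m.enc h1) (bd2q1.enc h1 h2))⟩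
noncomputable def kp3q1 : Fn2 := ⟨_, _, fun h1 h2 => (enc_norm (enc_case (enc_subr 99 128 h1) (enc_mul (cv3m.enc h1) (enc_norm (enc_case (enc_subr 7 10 h1) (enc_add (enc_subr 50519 2000000 (enc_scale 48131 200000 h1)) (enc_mul (enc_norm (kp3q1_4.enc h1 h2)) (enc_norm (enc_subr 5707 5000 (enc_scale 4041 5000 h1))))) (enc_add (enc_subr 775034099 29375000000 (enc_scale 177910883 734375000 h1)) (enc_mul (enc_norm (kp3q1_4.enc h1 h2)) (enc_norm (enc_subr 1681654671 1468750000 (enc_scale 59725289 73437500 h1)))))))) (enc_case (enc_subr 117 128 h1) (enc_add (kp3q1_93.enc h1 h2) (enc_mul (enc_norm (enc_mul (enc_norm (enc_sub (enc_sub (enc_add (kug.enc (enc_norm (kp3q1_55.enc h1 h2))) (enc_mul (enc_norm (enc_sub (enc_mul (enc_norm (enc_mul (enc_norm (kp3q1_68.enc h1 h2)) (enc_norm (enc_subn 3 (enc_nat 4 (kp3q1_56.enc h1 h2)))))) (kp3q1_60.enc h1 h2)) (enc_mul (qsg.enc (enc_norm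 (kp3q1_55.enc h1 h2))) (enc_norm (enc_sub (enc_half (kp3q1_55.enc h1 h2)) (kp3q1_68.enc h1 h2)))))) (enc_inv (enc_mul (enc_nat 2 (kp3q1_60.enc h1 h2)) (kp3q1_60.enc h1 h2))))) (enc_mul (enc_norm (enc_mul (enc_norm (kp3q1_55.enc h1 h2)) (kcg.enc (enc_norm (enc_sub (enc_scale 3 4 (kp3q1_55.enc h1 h2)) (enc_half (kp3q1_56.enc h1 h2)))) h2))) (enc_norm (enc_add (enc_add (enc_pnc _ 1) (gug.enc (enc_norm (kp3q1_55.enc h1 h2)))) (enc_nat 2 (kp3q1_56.enc h1 h2)))))) (kp3q1_93.enc h1 h2))) (enc_norm (enc_sub (cv3m.enc h1) (cv2m.enc h1))))) (enc_inv (enc_sub (enc_add (swg.enc h1) (enc_rat _ 1 2)) (cv2m.enc h1))))) (enc_mul (cv3m.enc h1) (enc_norm (enc_case (enc_subr 19 20 h1) (enc_add (enc_sub (enc_rat _ 61736493 312500000) (enc_scale 761393 3906250 h1)) (enc_mul (enc_norm (kp3q1_4.enc h1 h2)) (enc_norm (enc_subr 8975931 35937500 (enc_scale 1728821 7187500 h1))))) (enc_add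 (enc_sub (enc_rat _ 6193 25000) (enc_scale 6193 25000 h1)) (enc_mul (enc_norm (kp3q1_4.enc h1 h2)) (enc_norm (enc_subr 1063 2500 (enc_scale 1063 2500 h1)))))))))))⟩
noncomputable def kn3q1 : Fn2 := ⟨_, _, fun h1 h2 => (enc_norm (enc_add (enc_mul (enc_norm (enc_add (enc_pnc _ 1) (enc_mul (mug3.enc h2) (gug.enc h2)))) (kf3q1.enc h1 h2)) (enc_mul (mug3.enc h2) (kp3q1.enc h1 h2))))⟩
noncomputable def kp3q2_4 : Fn2 := ⟨_, _, fun h1 h2 => (enc_subr 5 32 h2)⟩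
noncomputable def kp3q2_80 : Fn2 := ⟨_, _, fun h1 h2 => (enc_subn 1 h1)⟩
noncomputable def kp3q2_81 : Fn2 := ⟨_, _, fun h1 h2 => (gsg.enc (enc_norm (kp3q2_80.enc h1 h2)))⟩
noncomputable def kp3q2_85 : Fn2 := ⟨_, _, fun h1 h2 => (esg.enc (enc_norm (kp3q2_80.enc h1 h2)))⟩
noncomputable def kp3q2_93 : Fn2 := ⟨_, _, fun h1 h2 => (enc_mul (enc_scale 3 4 (enc_sq (enc_norm (kp3q2_80.enc h1 h2)))) (enc_inv (kp3q2_81.enc h1 h2)))⟩
noncomputable def kp3q2_116 : Fn2 := ⟨_, _, fun h1 h2 => (enc_mul (cv2p.enc h1) (bd2q2.enc h1 h2))⟩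
noncomputable def kp3q2 : Fn2 := ⟨_, _, fun h1 h2 => (enc_norm (enc_case (enc_subr 139 128 h1) (enc_mul (cv3p.enc h1) (enc_norm (enc_case (enc_subr 103 100 h1) (enc_add (enc_subr 130707 250000 (enc_scale 379 1000 h1)) (enc_mul (enc_norm (kp3q2_4.enc h1 h2)) (enc_norm (enc_sub (enc_rat _ 382501 60000) (enc_scale 77 12 h1))))) (enc_case (enc_subr 53 50 h1) (enc_add (enc_subr 523137 1000000 (enc_scale 3793 10000 h1)) (enc_mul (enc_norm (kp3q2_4.enc h1 h2)) (enc_norm (enc_sub (enc_rat _ 76459 12000) (enc_scale 481 75 h1))))) (enc_add (enc_subr 5426895429 10375000000 (enc_scale 19673117 51875000 h1)) (enc_mul (enc_norm (kp3q2_4.enc h1 h2)) (enc_norm (enc_sub (enc_rat _ 33041357347 5187500000) (enc_scale 41573214 6484375 h1))))))))) (enc_case (enc_subr 157 128 h1) (enc_add (kp3q2_116.enc h1 h2) (enc_mul (enc_norm (enc_mul (enc_norm (enc_sub (enc_add (enc_sub (kug.enc (enc_norm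 (kp3q2_80.enc h1 h2))) (enc_mul (enc_norm (enc_sub (enc_mul (enc_norm (enc_mul (enc_norm (kp3q2_93.enc h1 h2)) (enc_norm (enc_subn 3 (enc_nat 4 (kp3q2_81.enc h1 h2)))))) (kp3q2_85.enc h1 h2)) (enc_mul (qsg.enc (enc_norm (kp3q2_80.enc h1 h2))) (enc_norm (enc_sub (enc_half (kp3q2_80.enc h1 h2)) (kp3q2_93.enc h1 h2)))))) (enc_inv (enc_mul (enc_nat 2 (kp3q2_85.enc h1 h2)) (kp3q2_85.enc h1 h2))))) (enc_mul (enc_norm (enc_mul (enc_norm (kp3q2_80.enc h1 h2)) (kcg.enc (enc_norm (enc_sub (enc_scale 3 4 (kp3q2_80.enc h1 h2)) (enc_half (kp3q2_81.enc h1 h2)))) h2))) (enc_norm (enc_sub (enc_sub (enc_pnc _ 1) (gug.enc (enc_norm (kp3q2_80.enc h1 h2)))) (enc_nat 2 (kp3q2_81.enc h1 h2)))))) (kp3q2_116.enc h1 h2))) (enc_norm (enc_sub (cv3p.enc h1) (cv2p.enc h1))))) (enc_inv (enc_sub (enc_subr 1 2 (swg.enc h1)) (cv2p.enc h1))))) (enc_mul (cv3p.enc h1) (enc_norm (enc_case (enc_subr 5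 4 h1) (enc_add (enc_subr 44102119 375000000 (enc_scale 38289811 117187500 h1)) (enc_mul (enc_norm (kp3q2_4.enc h1 h2)) (enc_norm (enc_subr 94644649 37500000 (enc_scale 15771887 23437500 h1))))) (enc_case (enc_subr 27 20 h1) (enc_add (enc_subr 29289 250000 (enc_scale 16319 50000 h1)) (enc_mul (enc_norm (kp3q2_4.enc h1 h2)) (enc_norm (enc_subr 504663 200000 (enc_scale 269 400 h1))))) (enc_add (enc_subr 116049 1000000 (enc_scale 8139 25000 h1)) (enc_mul (enc_norm (kp3q2_4.enc h1 h2)) (enc_norm (enc_subr 252201 100000 (enc_scale 10073 15000 h1))))))))))))⟩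
noncomputable def kn3q2 : Fn2 := ⟨_, _, fun h1 h2 => (enc_norm (enc_add (enc_mul (enc_norm (enc_add (enc_pnc _ 1) (enc_mul (mug3.enc h2) (gug.enc h2)))) (kf3q2.enc h1 h2)) (enc_mul (mug3.enc h2) (kp3q2.enc h1 h2))))⟩
noncomputable def bd3q3 : Fn2 := ⟨_, _, fun h1 h2 => (enc_norm (enc_add (enc_subr 1863 25000 (enc_scale 1863 50000 h1)) (enc_mul (enc_norm (enc_subr 5 32 h2)) (enc_norm (enc_subr 687 6250 (enc_scale 687 12500 h1))))))⟩
noncomputable def kpc33 : Fn2 := ⟨_, _, fun h1 h2 => (enc_norm (enc_mul (enc_norm (enc_add (enc_scale 4 5 (enc_subr 1 2 (swg.enc (ycg.enc h1)))) (enc_scale 1 5 h1))) (bd3q3.enc (ycg.enc h1) h2)))⟩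
noncomputable def knc33 : Fn2 := ⟨_, _, fun h1 h2 => (enc_norm (enc_add (enc_mul (enc_norm (enc_add (enc_pnc _ 1) (enc_mul (mug3.enc h2) (gug.enc h2)))) (kfc33.enc h1 h2)) (enc_mul (mug3.enc h2) (kpc33.enc h1 h2))))⟩
noncomputable def bd4q0 : Fn2 := ⟨_, _, fun h1 h2 => (enc_norm (enc_add (enc_sub (enc_rat _ 156677 1000000) (enc_scale 32837 500000 h1)) (enc_mul (enc_norm (enc_subr 5 32 h2)) (enc_norm (enc_subr 20747 20000 (enc_neg (enc_scale 2629 25000 h1)))))))⟩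
noncomputable def kp4q0 : Fn2 := ⟨_, _, fun h1 h2 => (enc_norm (enc_mul (cv4m.enc h1) (bd4q0.enc h1 h2)))⟩
noncomputable def kn4q0 : Fn2 := ⟨_, _, fun h1 h2 => (enc_norm (enc_add (enc_mul (enc_norm (enc_add (enc_pnc _ 1) (enc_mul (mug3.enc h2) (gug.enc h2)))) (kf4q0.enc h1 h2)) (enc_mul (mug3.enc h2) (kp4q0.enc h1 h2))))⟩
noncomputable def bd4q1_3 : Fn2 := ⟨_, _, fun h1 h2 => (enc_subr 5 32 h2)⟩
noncomputable def bd4q1 : Fn2 := ⟨_, _, fun h1 h2 => (enc_norm (enc_case (enc_subr 4 5 h1) (enc_case (enc_subr 7 10 h1) (enc_add (enc_sub (enc_rat _ 130799 1000000) (enc_scale 1243 10000 h1)) (enc_mul (enc_norm (bd4q1_3.enc h1 h2)) (enc_norm (enc_sub (enc_rat _ 4957 3125) (enc_scale 1901 1250 h1))))) (enc_add (enc_sub (enc_rat _ 133893 1000000) (enc_scale 1609 12500 h1)) (enc_mul (enc_norm (bd4q1_3.enc h1 h2)) (enc_norm (enc_sub (enc_rat _ 40699 25000) (enc_scale 3951 2500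 h1)))))) (enc_case (enc_subr 7 8 h1) (enc_add (enc_sub (enc_rat _ 142277 1000000) (enc_scale 87 625 h1)) (enc_mul (enc_norm (bd4q1_3.enc h1 h2)) (enc_norm (enc_sub (enc_rat _ 128881 75000) (enc_scale 12701 7500 h1))))) (enc_case (enc_subr 19 20 h1) (enc_add (enc_sub (enc_rat _ 59527 375000) (enc_scale 11851 75000 h1)) (enc_mul (enc_norm (bd4q1_3.enc h1 h2)) (enc_norm (enc_sub (enc_rat _ 558119 300000) (enc_scale 6959 3750 h1))))) (enc_add (enc_sub (enc_rat _ 4313 25000) (enc_scale 4313 25000 h1)) (enc_mul (enc_norm (bd4q1_3.enc h1 h2)) (enc_norm (enc_sub (enc_rat _ 1949 1000) (enc_scale 1949 1000 h1)))))))))⟩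
noncomputable def kp4q1 : Fn2 := ⟨_, _, fun h1 h2 => (enc_norm (enc_mul (cv4m.enc h1) (bd4q1.enc h1 h2)))⟩
noncomputable def kn4q1 : Fn2 := ⟨_, _, fun h1 h2 => (enc_norm (enc_add (enc_mul (enc_norm (enc_add (enc_pnc _ 1) (enc_mul (mug3.enc h2) (gug.enc h2)))) (kf4q1.enc h1 h2)) (enc_mul (mug3.enc h2) (kp4q1.enc h1 h2))))⟩
noncomputable def bd4q2_3 : Fn2 := ⟨_, _, fun h1 h2 => (enc_subr 5 32 h2)⟩
noncomputable def bd4q2_19 : Fn2 := ⟨_, _, fun h1 h2 => (enc_scale 1687 7500 h1)⟩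
noncomputable def bd4q2 : Fn2 := ⟨_, _, fun h1 h2 => (enc_norm (enc_case (enc_subr 11 10 h1) (enc_case (enc_subr 103 100 h1) (enc_add (enc_sub (enc_rat _ 608059 1000000) (enc_scale 9 40 h1)) (enc_mul (enc_norm (bd4q2_3.enc h1 h2)) (enc_norm (enc_add (enc_scale 4639 3000 h1) (enc_rat _ 56923 60000))))) (enc_case (enc_subr 53 50 h1) (enc_add (enc_sub (enc_rat _ 1823971 3000000) (bd4q2_19.enc h1 h2)) (enc_mul (enc_norm (bd4q2_3.enc h1 h2)) (enc_norm (enc_add (enc_scale 37 24 h1) (enc_rat _ 286057 300000))))) (enc_add (enc_sub (enc_rat _ 1216917 2000000) (enc_scale 1803 8000 h1)) (enc_mul (enc_norm (bd4q2_3.enc h1 h2)) (enc_norm (enc_add (enc_scale 6121 4000 h1) (enc_rat _ 309 320))))))) (enc_case (enc_subr 5 4 h1) (enc_case (enc_subr 29 25 h1) (enc_add (enc_sub (enc_rat _ 228361 375000) (enc_scale 271 1200 h1)) (enc_mul (enc_norm (bd4q2_3.enc h1 h2)) (enc_norm (enc_add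 (enc_scale 151 100 h1) (enc_rat _ 9879 10000))))) (enc_add (enc_sub (enc_rat _ 455939 750000) (bd4q2_19.enc h1 h2)) (enc_mul (enc_norm (bd4q2_3.enc h1 h2)) (enc_norm (enc_add (enc_scale 3337 2250 h1) (enc_rat _ 458591 450000)))))) (enc_case (enc_subr 27 20 h1) (enc_add (enc_sub (enc_rat _ 302751 500000) (enc_scale 223 1000 h1)) (enc_mul (enc_norm (bd4q2_3.enc h1 h2)) (enc_norm (enc_add (enc_scale 14623 10000 h1) (enc_rat _ 209021 200000))))) (enc_add (enc_sub (enc_rat _ 603567 1000000) (enc_scale 6647 30000 h1)) (enc_mul (enc_norm (bd4q2_3.enc h1 h2)) (enc_norm (enc_add (enc_scale 906 625 h1) (enc_rat _ 4249 4000)))))))))⟩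
noncomputable def kp4q2 : Fn2 := ⟨_, _, fun h1 h2 => (enc_norm (enc_mul (cv4p.enc h1) (bd4q2.enc h1 h2)))⟩
noncomputable def kn4q2 : Fn2 := ⟨_, _, fun h1 h2 => (enc_norm (enc_add (enc_mul (enc_norm (enc_add (enc_pnc _ 1) (enc_mul (mug3.enc h2) (gug.enc h2)))) (kf4q2.enc h1 h2)) (enc_mul (mug3.enc h2) (kp4q2.enc h1 h2))))⟩
noncomputable def bd4q3 : Fn2 := ⟨_, _, fun h1 h2 => (enc_norm (enc_add (enc_subr 78511 250000 (enc_scale 78511 500000 h1)) (enc_mul (enc_norm (enc_subr 5 32 h2)) (enc_norm (enc_subr 1528 3125 (enc_scale 764 3125 h1))))))⟩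
noncomputable def kpc43 : Fn2 := ⟨_, _, fun h1 h2 => (enc_norm (enc_mul (enc_norm (enc_add (enc_scale 2 5 (enc_subr 1 2 (swg.enc (ycg.enc h1)))) (enc_scale 3 5 h1))) (bd4q3.enc (ycg.enc h1) h2)))⟩
noncomputable def knc43 : Fn2 := ⟨_, _, fun h1 h2 => (enc_norm (enc_add (enc_mul (enc_norm (enc_add (enc_pnc _ 1) (enc_mul (mug3.enc h2) (gug.enc h2)))) (kfc43.enc h1 h2)) (enc_mul (mug3.enc h2) (kpc43.enc h1 h2))))⟩
noncomputable def kp5q0 : Fn2 := ⟨_, _, fun h1 h2 => (enc_norm (enc_mul h1 (enc_norm (enc_add (enc_subr 489477 1000000 (enc_scale 41281 1000000 h1)) (enc_mul (enc_norm (enc_subr 5 32 h2)) (enc_norm (enc_subr 114689 100000 (enc_scale 24597 20000 h1))))))))⟩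
noncomputable def kn5q0 : Fn2 := ⟨_, _, fun h1 h2 => (enc_norm (enc_add (enc_mul (enc_norm (enc_add (enc_pnc _ 1) (enc_mul (mug3.enc h2) (gug.enc h2)))) (kf5q0.enc h1 h2)) (enc_mul (mug3.enc h2) (kp5q0.enc h1 h2))))⟩
noncomputable def kp5q1 : Fn2 := ⟨_, _, fun h1 h2 => (enc_norm (enc_mul (enc_norm (enc_subn 1 h1)) (enc_norm (enc_add (enc_subr 489477 1000000 (enc_scale 41281 1000000 h1)) (enc_mul (enc_norm (enc_subr 5 32 h2)) (enc_norm (enc_subr 114689 100000 (enc_scale 24597 20000 h1))))))))⟩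
noncomputable def kn5q1 : Fn2 := ⟨_, _, fun h1 h2 => (enc_norm (enc_add (enc_mul (enc_norm (enc_add (enc_pnc _ 1) (enc_mul (mug3.enc h2) (gug.enc h2)))) (kf5q1.enc h1 h2)) (enc_mul (mug3.enc h2) (kp5q1.enc h1 h2))))⟩
noncomputable def kp5q2_9 : Fn2 := ⟨_, _, fun h1 h2 => (enc_sub (enc_half (c3g.enc h1)) (enc_scale 1 4 h1))⟩
noncomputable def kp5q2 : Fn2 := ⟨_, _, fun h1 h2 => (enc_norm (enc_mul (enc_norm (enc_subn 1 h1)) (enc_norm (enc_add (enc_sub (enc_rat _ 1145047 2000000) (enc_scale 49731 200000 (kp5q2_9.enc h1 h2))) (enc_mul (enc_norm (enc_subr 5 32 h2)) (enc_norm (enc_sub (enc_rat _ 59033 100000) (enc_scale 67329 50000 (kp5q2_9.enc h1 h2)))))))))⟩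
noncomputable def kn5q2 : Fn2 := ⟨_, _, fun h1 h2 => (enc_norm (enc_add (enc_mul (enc_norm (enc_add (enc_pnc _ 1) (enc_mul (mug3.enc h2) (gug.enc h2)))) (kf5q2.enc h1 h2)) (enc_mul (mug3.enc h2) (kp5q2.enc h1 h2))))⟩
noncomputable def kpc53_9 : Fn2 := ⟨_, _, fun h1 h2 => (enc_sub (enc_half h1) (enc_scale 1 4 (ycg.enc h1)))⟩
noncomputable def kpc53 : Fn2 := ⟨_, _, fun h1 h2 => (enc_norm (enc_mul (enc_norm (enc_subn 2 (ycg.enc h1))) (enc_norm (enc_add (enc_sub (enc_rat _ 1145047 2000000) (enc_scale 49731 200000 (kpc53_9.enc h1 h2))) (enc_mul (enc_norm (enc_subr 5 32 h2)) (enc_norm (enc_sub (enc_rat _ 59033 100000) (enc_scale 67329 50000 (kpc53_9.enc h1 h2)))))))))⟩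
noncomputable def knc53 : Fn2 := ⟨_, _, fun h1 h2 => (enc_norm (enc_add (enc_mul (enc_norm (enc_add (enc_pnc _ 1) (enc_mul (mug3.enc h2) (gug.enc h2)))) (kfc53.enc h1 h2)) (enc_mul (mug3.enc h2) (kpc53.enc h1 h2))))⟩
noncomputable def bn4q0 : Fn2 := ⟨_, _, fun h1 h2 => (enc_norm (enc_add (enc_mul (enc_norm (enc_add (enc_pnc _ 1) (enc_mul (mug3.enc h2) (gug.enc h2)))) (bf4q0.enc h1 h2)) (enc_mul (mug3.enc h2) (bd4q0.enc h1 h2))))⟩
noncomputable def bn3q0 : Fn2 := ⟨_, _, fun h1 h2 => (enc_norm (enc_add (enc_mul (enc_norm (enc_add (enc_pnc _ 1) (enc_mul (mug3.enc h2) (gug.enc h2)))) (bf3q0.enc h1 h2)) (enc_mul (mug3.enc h2) (bd3q0.enc h1 h2))))⟩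
noncomputable def bn2q0 : Fn2 := ⟨_, _, fun h1 h2 => (enc_norm (enc_add (enc_mul (enc_norm (enc_add (enc_pnc _ 1) (enc_mul (mug3.enc h2) (gug.enc h2)))) (bf2q0.enc h1 h2)) (enc_mul (mug3.enc h2) (bd2q0.enc h1 h2))))⟩
noncomputable def bn1q0 : Fn2 := ⟨_, _, fun h1 h2 => (enc_norm (enc_add (enc_mul (enc_norm (enc_add (enc_pnc _ 1) (enc_mul (mug3.enc h2) (gug.enc h2)))) (bf1q0.enc h1 h2)) (enc_mul (mug3.enc h2) (bd1q0.enc h1 h2))))⟩
noncomputable def rknq0 : Fn3 := ⟨_, _, fun h1 h2 h3 => (enc_case (enc_sub h1 (cv1m.enc h2)) (enc_add (enc_mul h1 (bn1q0.enc h2 h3)) (enc_mul (enc_norm (enc_sub (enc_pnc _ 1) (lm0m.enc h1 h2))) (enc_norm (enc_sub (kn0q0.enc h2 h3) (enc_mul (c1g.enc h2) (bn1q0.enc h2 h3)))))) (enc_case (enc_sub h1 (cv2m.enc h2)) (enc_add (enc_mul h1 (bn2q0.enc h2 h3)) (enc_mul (enc_norm (enc_mul (enc_norm (enc_sub (enc_pnc _ 1) (lm1m.enc h1 h2))) (cv1m.enc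 h2))) (enc_norm (enc_sub (bn1q0.enc h2 h3) (bn2q0.enc h2 h3))))) (enc_case (enc_sub h1 (cv3m.enc h2)) (enc_add (enc_mul h1 (bn3q0.enc h2 h3)) (enc_mul (enc_norm (enc_mul (enc_norm (enc_sub (enc_pnc _ 1) (lm2m.enc h1 h2))) (cv2m.enc h2))) (enc_norm (enc_sub (bn2q0.enc h2 h3) (bn3q0.enc h2 h3))))) (enc_case (enc_sub h1 (cv4m.enc h2)) (enc_add (enc_mul h1 (bn4q0.enc h2 h3)) (enc_mul (enc_norm (enc_mul (enc_norm (enc_sub (enc_pnc _ 1) (lm3m.enc h1 h2))) (cv3m.enc h2))) (enc_norm (enc_sub (bn3q0.enc h2 h3) (bn4q0.enc h2 h3))))) (enc_add (kn4q0.enc h2 h3) (enc_mul (lm4m.enc h1 h2) (enc_norm (enc_sub (kn5q0.enc h2 h3) (kn4q0.enc h2 h3)))))))))⟩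
noncomputable def rsnq0 : Fn3 := ⟨_, _, fun h1 h2 h3 => (enc_case h1 (enc_neg (rknq0.enc (enc_neg h1) h2 h3)) (rknq0.enc h1 h2 h3))⟩
noncomputable def bn4q1 : Fn2 := ⟨_, _, fun h1 h2 => (enc_norm (enc_add (enc_mul (enc_norm (enc_add (enc_pnc _ 1) (enc_mul (mug3.enc h2) (gug.enc h2)))) (bf4q1.enc h1 h2)) (enc_mul (mug3.enc h2) (bd4q1.enc h1 h2))))⟩
noncomputable def bd3q1_3 : Fn2 := ⟨_, _, fun h1 h2 => (enc_subr 5 32 h2)⟩
noncomputable def bd3q1 : Fn2 := ⟨_, _, fun h1 h2 => (enc_norm (enc_case (enc_subr 27 32 h1) (enc_case (enc_subr 7 10 h1) (enc_add (enc_subr 50519 2000000 (enc_scale 48131 200000 h1)) (enc_mul (enc_norm (bd3q1_3.enc h1 h2)) (enc_norm (enc_subr 5707 5000 (enc_scale 4041 5000 h1))))) (enc_add (enc_subr 775034099 29375000000 (enc_scale 177910883 734375000 h1)) (enc_mul (enc_norm (bd3q1_3.enc h1 h2)) (enc_norm (enc_subr 1681654671 1468750000 (enc_scale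 59725289 73437500 h1)))))) (enc_case (enc_subr 19 20 h1) (enc_add (enc_sub (enc_rat _ 61736493 312500000) (enc_scale 761393 3906250 h1)) (enc_mul (enc_norm (bd3q1_3.enc h1 h2)) (enc_norm (enc_subr 8975931 35937500 (enc_scale 1728821 7187500 h1))))) (enc_add (enc_sub (enc_rat _ 6193 25000) (enc_scale 6193 25000 h1)) (enc_mul (enc_norm (bd3q1_3.enc h1 h2)) (enc_norm (enc_subr 1063 2500 (enc_scale 1063 2500 h1))))))))⟩
noncomputable def bn3q1 : Fn2 := ⟨_, _, fun h1 h2 => (enc_norm (enc_add (enc_mul (enc_norm (enc_add (enc_pnc _ 1) (enc_mul (mug3.enc h2) (gug.enc h2)))) (bf3q1.enc h1 h2)) (enc_mul (mug3.enc h2) (bd3q1.enc h1 h2))))⟩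
noncomputable def bn2q1 : Fn2 := ⟨_, _, fun h1 h2 => (enc_norm (enc_add (enc_mul (enc_norm (enc_add (enc_pnc _ 1) (enc_mul (mug3.enc h2) (gug.enc h2)))) (bf2q1.enc h1 h2)) (enc_mul (mug3.enc h2) (bd2q1.enc h1 h2))))⟩
noncomputable def bn1q1 : Fn2 := ⟨_, _, fun h1 h2 => (enc_norm (enc_add (enc_mul (enc_norm (enc_add (enc_pnc _ 1) (enc_mul (mug3.enc h2) (gug.enc h2)))) (bf1q1.enc h1 h2)) (enc_mul (mug3.enc h2) (bd1q1.enc h1 h2))))⟩
noncomputable def rknq1_36 : Fn3 := ⟨_, _, fun h1 h2 h3 => (enc_add (enc_mul h1 (bn3q1.enc h2 h3)) (enc_mul (enc_norm (enc_mul (enc_norm (enc_sub (enc_pnc _ 1) (lm2m.enc h1 h2))) (cv2m.enc h2))) (enc_norm (enc_sub (bn2q1.enc h2 h3) (bn3q1.enc h2 h3)))))⟩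
noncomputable def rknq1_42 : Fn3 := ⟨_, _, fun h1 h2 h3 => (enc_sub (enc_pnc _ 1) h2)⟩
noncomputable def rknq1_43 : Fn3 := ⟨_, _, fun h1 h2 h3 => (gsg.enc (enc_norm (rknq1_42.enc h1 h2 h3)))⟩
noncomputable def rknq1_47 : Fn3 := ⟨_, _, fun h1 h2 h3 => (esg.enc (enc_norm (rknq1_42.enc h1 h2 h3)))⟩
noncomputable def rknq1_48 : Fn3 := ⟨_, _, fun h1 h2 h3 => (kcg.enc (enc_norm (enc_sub (enc_scale 3 4 (rknq1_42.enc h1 h2 h3)) (enc_half (rknq1_43.enc h1 h2 h3)))) h3)⟩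
noncomputable def rknq1_49 : Fn3 := ⟨_, _, fun h1 h2 h3 => (enc_scale 3 2 (rknq1_42.enc h1 h2 h3))⟩
noncomputable def rknq1_51 : Fn3 := ⟨_, _, fun h1 h2 h3 => (enc_add (enc_pnc _ 1) (rknq1_43.enc h1 h2 h3))⟩
noncomputable def rknq1_60 : Fn3 := ⟨_, _, fun h1 h2 h3 => (enc_mul (enc_scale 3 4 (enc_sq (enc_norm (rknq1_42.enc h1 h2 h3)))) (enc_inv (rknq1_43.enc h1 h2 h3)))⟩
noncomputable def rknq1_61 : Fn3 := ⟨_, _, fun h1 h2 h3 => (enc_sub (enc_half (rknq1_42.enc h1 h2 h3)) (rknq1_60.enc h1 h2 h3))⟩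
noncomputable def rknq1_62 : Fn3 := ⟨_, _, fun h1 h2 h3 => (enc_nat 2 (rknq1_47.enc h1 h2 h3))⟩
noncomputable def rknq1_97 : Fn3 := ⟨_, _, fun h1 h2 h3 => (enc_sub h1 (cv2m.enc h2))⟩
noncomputable def rknq1 : Fn3 := ⟨_, _, fun h1 h2 h3 => (enc_case (enc_sub h1 (cv1m.enc h2)) (enc_add (enc_mul h1 (bn1q1.enc h2 h3)) (enc_mul (enc_norm (enc_sub (enc_pnc _ 1) (lm0m.enc h1 h2))) (enc_norm (enc_sub (kn0q1.enc h2 h3) (enc_mul (c1g.enc h2) (bn1q1.enc h2 h3)))))) (enc_case (rknq1_97.enc h1 h2 h3) (enc_add (enc_mul h1 (bn2q1.enc h2 h3)) (enc_mul (enc_norm (enc_mul (enc_norm (enc_sub (enc_pnc _ 1) (lm1m.enc h1 h2))) (cv1m.enc h2))) (enc_norm (enc_sub (bn1q1.enc h2 h3) (bn2q1.enc h2 h3))))) (enc_case (enc_sub h1 (cv3m.enc h2)) (enc_case (enc_subr 99 128 h2) (rknq1_36.enc h1 h2 h3) (enc_case (enc_subr 117 128 h2) (enc_add (kn2q1.enc h2 h3) (enc_mul (enc_norm (enc_mul (enc_norm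 (rknq1_97.enc h1 h2 h3)) (enc_inv (enc_sub (enc_add (swg.enc h2) (enc_rat _ 1 2)) (cv2m.enc h2))))) (enc_norm (enc_sub (enc_add (enc_mul (enc_norm (enc_add (enc_pnc _ 1) (enc_mul (mug3.enc h3) (gug.enc h3)))) (enc_norm (enc_add (enc_add (enc_mul (enc_norm (enc_mul (enc_norm (enc_sub (rknq1_43.enc h1 h2 h3) (rknq1_49.enc h1 h2 h3))) (enc_norm (rknq1_51.enc h1 h2 h3)))) (enc_inv (enc_sub (rknq1_51.enc h1 h2 h3) (rknq1_49.enc h1 h2 h3)))) (enc_mul (enc_norm (rknq1_61.enc h1 h2 h3)) (enc_inv (rknq1_62.enc h1 h2 h3)))) (enc_mul (rknq1_48.enc h1 h2 h3) (enc_norm (rknq1_42.enc h1 h2 h3)))))) (enc_mul (mug3.enc h3) (enc_norm (enc_sub (enc_add (kug.enc (enc_norm (rknq1_42.enc h1 h2 h3))) (enc_mul (enc_norm (enc_sub (enc_mul (enc_norm (enc_mul (enc_norm (rknq1_60.enc h1 h2 h3)) (enc_norm (enc_subn 3 (enc_nat 4 (rknq1_43.enc h1 h2 h3)))))) (rknq1_47.enc h1 h2 h3)) (enc_mul (qsg.enc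 (enc_norm (rknq1_42.enc h1 h2 h3))) (enc_norm (rknq1_61.enc h1 h2 h3))))) (enc_inv (enc_mul (rknq1_62.enc h1 h2 h3) (rknq1_47.enc h1 h2 h3))))) (enc_mul (enc_norm (enc_mul (enc_norm (rknq1_42.enc h1 h2 h3)) (rknq1_48.enc h1 h2 h3))) (enc_norm (enc_add (enc_add (enc_pnc _ 1) (gug.enc (enc_norm (rknq1_42.enc h1 h2 h3)))) (enc_nat 2 (rknq1_43.enc h1 h2 h3))))))))) (kn2q1.enc h2 h3))))) (rknq1_36.enc h1 h2 h3))) (enc_case (enc_sub h1 (cv4m.enc h2)) (enc_add (enc_mul h1 (bn4q1.enc h2 h3)) (enc_mul (enc_norm (enc_sub (enc_pnc _ 1) (lm3m.enc h1 h2))) (enc_norm (enc_sub (kn3q1.enc h2 h3) (enc_mul (cv3m.enc h2) (bn4q1.enc h2 h3)))))) (enc_add (kn4q1.enc h2 h3) (enc_mul (lm4m.enc h1 h2) (enc_norm (enc_sub (kn5q1.enc h2 h3) (kn4q1.enc h2 h3)))))))))⟩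
noncomputable def rsnq1 : Fn3 := ⟨_, _, fun h1 h2 h3 => (enc_case h1 (enc_neg (rknq1.enc (enc_neg h1) h2 h3)) (rknq1.enc h1 h2 h3))⟩
noncomputable def bn4q2 : Fn2 := ⟨_, _, fun h1 h2 => (enc_norm (enc_add (enc_mul (enc_norm (enc_add (enc_pnc _ 1) (enc_mul (mug3.enc h2) (gug.enc h2)))) (bf4q2.enc h1 h2)) (enc_mul (mug3.enc h2) (bd4q2.enc h1 h2))))⟩
noncomputable def bd3q2_3 : Fn2 := ⟨_, _, fun h1 h2 => (enc_subr 5 32 h2)⟩
noncomputable def bd3q2 : Fn2 := ⟨_, _, fun h1 h2 => (enc_norm (enc_case (enc_subr 37 32 h1) (enc_case (enc_subr 103 100 h1) (enc_add (enc_subr 130707 250000 (enc_scale 379 1000 h1)) (enc_mul (enc_norm (bd3q2_3.enc h1 h2)) (enc_norm (enc_sub (enc_rat _ 382501 60000) (enc_scale 77 12 h1))))) (enc_case (enc_subr 53 50 h1) (enc_add (enc_subr 523137 1000000 (enc_scale 3793 10000 h1)) (enc_mul (enc_norm (bd3q2_3.enc h1 h2)) (enc_norm (enc_sub (enc_rat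 _ 76459 12000) (enc_scale 481 75 h1))))) (enc_add (enc_subr 5426895429 10375000000 (enc_scale 19673117 51875000 h1)) (enc_mul (enc_norm (bd3q2_3.enc h1 h2)) (enc_norm (enc_sub (enc_rat _ 33041357347 5187500000) (enc_scale 41573214 6484375 h1))))))) (enc_case (enc_subr 5 4 h1) (enc_add (enc_subr 44102119 375000000 (enc_scale 38289811 117187500 h1)) (enc_mul (enc_norm (bd3q2_3.enc h1 h2)) (enc_norm (enc_subr 94644649 37500000 (enc_scale 15771887 23437500 h1))))) (enc_case (enc_subr 27 20 h1) (enc_add (enc_subr 29289 250000 (enc_scale 16319 50000 h1)) (enc_mul (enc_norm (bd3q2_3.enc h1 h2)) (enc_norm (enc_subr 504663 200000 (enc_scale 269 400 h1))))) (enc_add (enc_subr 116049 1000000 (enc_scale 8139 25000 h1)) (enc_mul (enc_norm (bd3q2_3.enc h1 h2)) (enc_norm (enc_subr 252201 100000 (enc_scale 10073 15000 h1)))))))))⟩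
noncomputable def bn3q2 : Fn2 := ⟨_, _, fun h1 h2 => (enc_norm (enc_add (enc_mul (enc_norm (enc_add (enc_pnc _ 1) (enc_mul (mug3.enc h2) (gug.enc h2)))) (bf3q2.enc h1 h2)) (enc_mul (mug3.enc h2) (bd3q2.enc h1 h2))))⟩
noncomputable def bn2q2 : Fn2 := ⟨_, _, fun h1 h2 => (enc_norm (enc_add (enc_mul (enc_norm (enc_add (enc_pnc _ 1) (enc_mul (mug3.enc h2) (gug.enc h2)))) (bf2q2.enc h1 h2)) (enc_mul (mug3.enc h2) (bd2q2.enc h1 h2))))⟩
noncomputable def kp2q2 : Fn2 := ⟨_, _, fun h1 h2 => (enc_norm (enc_mul (cv2p.enc h1) (bd2q2.enc h1 h2)))⟩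
noncomputable def kn2q2 : Fn2 := ⟨_, _, fun h1 h2 => (enc_norm (enc_add (enc_mul (enc_norm (enc_add (enc_pnc _ 1) (enc_mul (mug3.enc h2) (gug.enc h2)))) (kf2q2.enc h1 h2)) (enc_mul (mug3.enc h2) (kp2q2.enc h1 h2))))⟩
noncomputable def bn1q2 : Fn2 := ⟨_, _, fun h1 h2 => (enc_norm (enc_add (enc_mul (enc_norm (enc_add (enc_pnc _ 1) (enc_mul (mug3.enc h2) (gug.enc h2)))) (bf1q2.enc h1 h2)) (enc_mul (mug3.enc h2) (bd1q2.enc h1 h2))))⟩
noncomputable def kp0q2_3 : Fn2 := ⟨_, _, fun h1 h2 => (enc_subr 5 32 h2)⟩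
noncomputable def kp0q2 : Fn2 := ⟨_, _, fun h1 h2 => (enc_norm (enc_mul (enc_norm (enc_subn 1 h1)) (enc_norm (enc_case (enc_subr 1 10 (c1g.enc h1)) (enc_sub (enc_scale 3521 4000 (c1g.enc h1)) (enc_mul (enc_norm (kp0q2_3.enc h1 h2)) (enc_scale 1087 10000 (c1g.enc h1)))) (enc_add (enc_subr 8071 4000000 (enc_scale 360171 400000 (c1g.enc h1))) (enc_mul (enc_norm (kp0q2_3.enc h1 h2)) (enc_norm (enc_sub (enc_rat _ 2861 400000) (enc_scale 7209 40000 (c1g.enc h1))))))))))⟩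
noncomputable def kn0q2 : Fn2 := ⟨_, _, fun h1 h2 => (enc_norm (enc_add (enc_mul (enc_norm (enc_add (enc_pnc _ 1) (enc_mul (mug3.enc h2) (gug.enc h2)))) (kf0q2.enc h1 h2)) (enc_mul (mug3.enc h2) (kp0q2.enc h1 h2))))⟩
noncomputable def n0d : Fn2 := ⟨_, _, fun h1 h2 => (enc_norm (enc_mul (enc_norm (enc_subn 1 h1)) (enc_norm (enc_sub (enc_rat _ 3521 4000) (enc_scale 1087 10000 (enc_subr 5 32 h2))))))⟩
noncomputable def n0n : Fn2 := ⟨_, _, fun h1 h2 => (enc_norm (enc_add (enc_mul (enc_norm (enc_add (enc_pnc _ 1) (enc_mul (mug3.enc h2) (gug.enc h2)))) (n0b.enc h1 h2)) (enc_mul (mug3.enc h2) (n0d.enc h1 h2))))⟩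
noncomputable def rknq2_36 : Fn3 := ⟨_, _, fun h1 h2 h3 => (enc_add (enc_mul h1 (bn3q2.enc h2 h3)) (enc_mul (enc_norm (enc_mul (enc_norm (enc_sub (enc_pnc _ 1) (lm2p.enc h1 h2))) (cv2p.enc h2))) (enc_norm (enc_sub (bn2q2.enc h2 h3) (bn3q2.enc h2 h3)))))⟩
noncomputable def rknq2_41 : Fn3 := ⟨_, _, fun h1 h2 h3 => (enc_subn 1 h2)⟩
noncomputable def rknq2_42 : Fn3 := ⟨_, _, fun h1 h2 h3 => (gsg.enc (enc_norm (rknq2_41.enc h1 h2 h3)))⟩
noncomputable def rknq2_46 : Fn3 := ⟨_, _, fun h1 h2 h3 => (esg.enc (enc_norm (rknq2_41.enc h1 h2 h3)))⟩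
noncomputable def rknq2_47 : Fn3 := ⟨_, _, fun h1 h2 h3 => (kcg.enc (enc_norm (enc_sub (enc_scale 3 4 (rknq2_41.enc h1 h2 h3)) (enc_half (rknq2_42.enc h1 h2 h3)))) h3)⟩
noncomputable def rknq2_48 : Fn3 := ⟨_, _, fun h1 h2 h3 => (enc_scale 3 2 (rknq2_41.enc h1 h2 h3))⟩
noncomputable def rknq2_50 : Fn3 := ⟨_, _, fun h1 h2 h3 => (enc_add (enc_pnc _ 1) (rknq2_42.enc h1 h2 h3))⟩
noncomputable def rknq2_59 : Fn3 := ⟨_, _, fun h1 h2 h3 => (enc_mul (enc_scale 3 4 (enc_sq (enc_norm (rknq2_41.enc h1 h2 h3)))) (enc_inv (rknq2_42.enc h1 h2 h3)))⟩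
noncomputable def rknq2_60 : Fn3 := ⟨_, _, fun h1 h2 h3 => (enc_sub (enc_half (rknq2_41.enc h1 h2 h3)) (rknq2_59.enc h1 h2 h3))⟩
noncomputable def rknq2_61 : Fn3 := ⟨_, _, fun h1 h2 h3 => (enc_nat 2 (rknq2_46.enc h1 h2 h3))⟩
noncomputable def rknq2_95 : Fn3 := ⟨_, _, fun h1 h2 h3 => (enc_sub h1 (cv2p.enc h2))⟩
noncomputable def rknq2_122 : Fn3 := ⟨_, _, fun h1 h2 h3 => (enc_mul h1 (bn1q2.enc h2 h3))⟩
noncomputable def rknq2_124 : Fn3 := ⟨_, _, fun h1 h2 h3 => (enc_sub (enc_pnc _ 1) (lm0p.enc h1 h2))⟩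
noncomputable def rknq2 : Fn3 := ⟨_, _, fun h1 h2 h3 => (enc_case (enc_sub h1 (cv1p.enc h2)) (enc_case (enc_subr 1153 1000 h2) (enc_add (rknq2_122.enc h1 h2 h3) (enc_mul (enc_norm (rknq2_124.enc h1 h2 h3)) (enc_norm (enc_sub (kn0q2.enc h2 h3) (enc_mul (c1g.enc h2) (bn1q2.enc h2 h3)))))) (enc_case (enc_subr 2887 2500 h2) (enc_add (rknq2_122.enc h1 h2 h3) (enc_mul (enc_norm (rknq2_124.enc h1 h2 h3)) (enc_norm (enc_mul (c1g.enc h2) (enc_norm (enc_sub (n0n.enc h2 h3) (bn1q2.enc h2 h3))))))) (rknq2_122.enc h1 h2 h3))) (enc_case (rknq2_95.enc h1 h2 h3) (enc_add (enc_mul h1 (bn2q2.enc h2 h3)) (enc_mul (enc_norm (enc_mul (enc_norm (enc_sub (enc_pnc _ 1) (lm1p.enc h1 h2))) (cv1p.enc h2))) (enc_norm (enc_sub (bn1q2.enc h2 h3) (bn2q2.enc h2 h3))))) (enc_case (enc_sub h1 (cv3p.enc h2)) (enc_case (enc_subr 139 128 h2) (rknq2_36.enc h1 h2 h3) (enc_case (enc_subr 157 128 h2) (enc_add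 (kn2q2.enc h2 h3) (enc_mul (enc_norm (enc_mul (enc_norm (rknq2_95.enc h1 h2 h3)) (enc_inv (enc_sub (enc_subr 1 2 (swg.enc h2)) (cv2p.enc h2))))) (enc_norm (enc_sub (enc_add (enc_mul (enc_norm (enc_add (enc_pnc _ 1) (enc_mul (mug3.enc h3) (gug.enc h3)))) (enc_norm (enc_add (enc_sub (enc_mul (enc_norm (enc_mul (enc_norm (enc_sub (rknq2_42.enc h1 h2 h3) (rknq2_48.enc h1 h2 h3))) (enc_norm (rknq2_50.enc h1 h2 h3)))) (enc_inv (enc_sub (rknq2_50.enc h1 h2 h3) (rknq2_48.enc h1 h2 h3)))) (enc_mul (enc_norm (rknq2_60.enc h1 h2 h3)) (enc_inv (rknq2_61.enc h1 h2 h3)))) (enc_mul (rknq2_47.enc h1 h2 h3) (enc_norm (rknq2_41.enc h1 h2 h3)))))) (enc_mul (mug3.enc h3) (enc_norm (enc_add (enc_sub (kug.enc (enc_norm (rknq2_41.enc h1 h2 h3))) (enc_mul (enc_norm (enc_sub (enc_mul (enc_norm (enc_mul (enc_norm (rknq2_59.enc h1 h2 h3)) (enc_norm (enc_subn 3 (enc_nat 4 (rknq2_42.enc h1 h2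 h3)))))) (rknq2_46.enc h1 h2 h3)) (enc_mul (qsg.enc (enc_norm (rknq2_41.enc h1 h2 h3))) (enc_norm (rknq2_60.enc h1 h2 h3))))) (enc_inv (enc_mul (rknq2_61.enc h1 h2 h3) (rknq2_46.enc h1 h2 h3))))) (enc_mul (enc_norm (enc_mul (enc_norm (rknq2_41.enc h1 h2 h3)) (rknq2_47.enc h1 h2 h3))) (enc_norm (enc_sub (enc_sub (enc_pnc _ 1) (gug.enc (enc_norm (rknq2_41.enc h1 h2 h3)))) (enc_nat 2 (rknq2_42.enc h1 h2 h3))))))))) (kn2q2.enc h2 h3))))) (rknq2_36.enc h1 h2 h3))) (enc_case (enc_sub h1 (cv4p.enc h2)) (enc_add (enc_mul h1 (bn4q2.enc h2 h3)) (enc_mul (enc_norm (enc_sub (enc_pnc _ 1) (lm3p.enc h1 h2))) (enc_norm (enc_sub (kn3q2.enc h2 h3) (enc_mul (cv3p.enc h2) (bn4q2.enc h2 h3)))))) (enc_add (kn4q2.enc h2 h3) (enc_mul (lm4p.enc h1 h2) (enc_norm (enc_sub (kn5q2.enc h2 h3) (kn4q2.enc h2 h3)))))))))⟩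
noncomputable def rsnq2 : Fn3 := ⟨_, _, fun h1 h2 h3 => (enc_case h1 (enc_neg (rknq2.enc (enc_neg h1) h2 h3)) (rknq2.enc h1 h2 h3))⟩
noncomputable def kp4q3 : Fn2 := ⟨_, _, fun h1 h2 => (enc_norm (enc_mul (cv4r.enc h1) (bd4q3.enc h1 h2)))⟩
noncomputable def kn4q3 : Fn2 := ⟨_, _, fun h1 h2 => (enc_norm (enc_add (enc_mul (enc_norm (enc_add (enc_pnc _ 1) (enc_mul (mug3.enc h2) (gug.enc h2)))) (kf4q3.enc h1 h2)) (enc_mul (mug3.enc h2) (kp4q3.enc h1 h2))))⟩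
noncomputable def kp5q3_9 : Fn2 := ⟨_, _, fun h1 h2 => (enc_sub (enc_half (c3g.enc h1)) (enc_scale 1 4 h1))⟩
noncomputable def kp5q3 : Fn2 := ⟨_, _, fun h1 h2 => (enc_norm (enc_mul (enc_norm (enc_subn 2 h1)) (enc_norm (enc_add (enc_sub (enc_rat _ 1145047 2000000) (enc_scale 49731 200000 (kp5q3_9.enc h1 h2))) (enc_mul (enc_norm (enc_subr 5 32 h2)) (enc_norm (enc_sub (enc_rat _ 59033 100000) (enc_scale 67329 50000 (kp5q3_9.enc h1 h2)))))))))⟩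
noncomputable def kn5q3 : Fn2 := ⟨_, _, fun h1 h2 => (enc_norm (enc_add (enc_mul (enc_norm (enc_add (enc_pnc _ 1) (enc_mul (mug3.enc h2) (gug.enc h2)))) (kf5q3.enc h1 h2)) (enc_mul (mug3.enc h2) (kp5q3.enc h1 h2))))⟩
noncomputable def bn4q3 : Fn2 := ⟨_, _, fun h1 h2 => (enc_norm (enc_add (enc_mul (enc_norm (enc_add (enc_pnc _ 1) (enc_mul (mug3.enc h2) (gug.enc h2)))) (bf4q3.enc h1 h2)) (enc_mul (mug3.enc h2) (bd4q3.enc h1 h2))))⟩
noncomputable def bn3q3 : Fn2 := ⟨_, _, fun h1 h2 => (enc_norm (enc_add (enc_mul (enc_norm (enc_add (enc_pnc _ 1) (enc_mul (mug3.enc h2) (gug.enc h2)))) (bf3q3.enc h1 h2)) (enc_mul (mug3.enc h2) (bd3q3.enc h1 h2))))⟩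
noncomputable def bn2q3 : Fn2 := ⟨_, _, fun h1 h2 => (enc_norm (enc_add (enc_mul (enc_norm (enc_add (enc_pnc _ 1) (enc_mul (mug3.enc h2) (gug.enc h2)))) (bf2q3.enc h1 h2)) (enc_mul (mug3.enc h2) (bd2q3.enc h1 h2))))⟩
noncomputable def bn1q3 : Fn2 := ⟨_, _, fun h1 h2 => (enc_norm (enc_add (enc_mul (enc_norm (enc_add (enc_pnc _ 1) (enc_mul (mug3.enc h2) (gug.enc h2)))) (bf1q3.enc h1 h2)) (enc_mul (mug3.enc h2) (bd1q3.enc h1 h2))))⟩
noncomputable def rknq3 : Fn3 := ⟨_, _, fun h1 h2 h3 => (enc_case (enc_sub h1 (cv1r.enc h2)) (enc_mul h1 (bn1q3.enc h2 h3)) (enc_case (enc_sub h1 (cv2r.enc h2)) (enc_add (enc_mul h1 (bn2q3.enc h2 h3)) (enc_mul (enc_norm (enc_mul (enc_norm (enc_sub (enc_pnc _ 1) (lm1r.enc h1 h2))) (cv1r.enc h2))) (enc_norm (enc_sub (bn1q3.enc h2 h3) (bn2q3.enc h2 h3))))) (enc_case (enc_sub h1 (cv3r.enc h2)) (enc_add (enc_mul h1 (bn3q3.enc h2 h3)) (enc_mul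 (enc_norm (enc_mul (enc_norm (enc_sub (enc_pnc _ 1) (lm2r.enc h1 h2))) (cv2r.enc h2))) (enc_norm (enc_sub (bn2q3.enc h2 h3) (bn3q3.enc h2 h3))))) (enc_case (enc_sub h1 (cv4r.enc h2)) (enc_add (enc_mul h1 (bn4q3.enc h2 h3)) (enc_mul (enc_norm (enc_mul (enc_norm (enc_sub (enc_pnc _ 1) (lm3r.enc h1 h2))) (cv3r.enc h2))) (enc_norm (enc_sub (bn3q3.enc h2 h3) (bn4q3.enc h2 h3))))) (enc_add (kn4q3.enc h2 h3) (enc_mul (lm4r.enc h1 h2) (enc_norm (enc_sub (kn5q3.enc h2 h3) (kn4q3.enc h2 h3)))))))))⟩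
noncomputable def rsnq3 : Fn3 := ⟨_, _, fun h1 h2 h3 => (enc_case h1 (enc_neg (rknq3.enc (enc_neg h1) h2 h3)) (rknq3.enc h1 h2 h3))⟩
noncomputable def kf1q2 : Fn2 := ⟨_, _, fun h1 h2 => (enc_norm (enc_mul (cv1p.enc h1) (bf1q2.enc h1 h2)))⟩
noncomputable def l1q2 : Fn2 := ⟨_, _, fun h1 h2 => (enc_norm (enc_mul (cv1p.enc h1) (bx1q2.enc h1 h2)))⟩
noncomputable def kp1q2 : Fn2 := ⟨_, _, fun h1 h2 => (enc_norm (enc_mul (cv1p.enc h1) (bd1q2.enc h1 h2)))⟩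
noncomputable def kn1q2 : Fn2 := ⟨_, _, fun h1 h2 => (enc_norm (enc_add (enc_mul (enc_norm (enc_add (enc_pnc _ 1) (enc_mul (mug3.enc h2) (gug.enc h2)))) (kf1q2.enc h1 h2)) (enc_mul (mug3.enc h2) (kp1q2.enc h1 h2))))⟩

noncomputable def ndF0q0 : Node := ⟨idf, c1g, kf0q0, l0q0⟩
noncomputable def ndF0q1 : Node := ⟨idf, c1g, kf0q1, l0q1⟩
noncomputable def ndF0q2 : Node := ⟨yag, idf, kfc02, lc02⟩
noncomputable def ndF1q0 : Node := ⟨idf, cv1m, kf1q0, l1q0⟩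
noncomputable def ndF1q1 : Node := ⟨idf, cv1m, kf1q1, l1q1⟩
noncomputable def ndF1q2a : Node := ⟨yag, xc12a, kfc12a, lc12a⟩
noncomputable def ndF1q2b : Node := ⟨idf, xc12b, kfc12b, lc12b⟩
noncomputable def ndF1q3 : Node := ⟨idf, cv1r, kf1q3, l1q3⟩
noncomputable def ndF2q0 : Node := ⟨idf, cv2m, kf2q0, l2q0⟩
noncomputable def ndF2q1 : Node := ⟨idf, cv2m, kf2q1, l2q1⟩
noncomputable def ndF2q2a : Node := ⟨yag, xc22a, kfc22a, lc22a⟩
noncomputable def ndF2q2b : Node := ⟨idf, xc22b, kfc22b, lc22b⟩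
noncomputable def ndF2q3 : Node := ⟨idf, cv2r, kf2q3, l2q3⟩
noncomputable def ndF3q0 : Node := ⟨idf, cv3m, kf3q0, l3q0⟩
noncomputable def ndF3q1 : Node := ⟨idf, cv3m, kf3q1, l3q1⟩
noncomputable def ndF3q2 : Node := ⟨idf, cv3p, kf3q2, l3q2⟩
noncomputable def ndF3q3 : Node := ⟨ycg, xc33, kfc33, lc33⟩
noncomputable def ndF4q0 : Node := ⟨idf, cv4m, kf4q0, l4q0⟩
noncomputable def ndF4q1 : Node := ⟨idf, cv4m, kf4q1, l4q1⟩
noncomputable def ndF4q2 : Node := ⟨idf, cv4p, kf4q2, l4q2⟩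
noncomputable def ndF4q3 : Node := ⟨ycg, xc43, kfc43, lc43⟩
noncomputable def ndF5q0 : Node := ⟨idf, c3g, kf5q0, l5q0⟩
noncomputable def ndF5q1 : Node := ⟨idf, c3g, kf5q1, l5q1⟩
noncomputable def ndF5q2 : Node := ⟨idf, c3g, kf5q2, l5q2⟩
noncomputable def ndF5q3 : Node := ⟨ycg, idf, kfc53, lc53⟩
noncomputable def pcF0 : Piece := ⟨rsfq0, rlq0⟩
noncomputable def pcF1 : Piece := ⟨rsfq1, rlq1⟩
noncomputable def pcF2 : Piece := ⟨rsfq2, rlq2⟩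
noncomputable def pcF3 : Piece := ⟨rsfq3, rlq3⟩
noncomputable def ndN0q0 : Node := ⟨idf, c1g, kn0q0, l0q0⟩
noncomputable def ndN0q1 : Node := ⟨idf, c1g, kn0q1, l0q1⟩
noncomputable def ndN0q2 : Node := ⟨yag, idf, knc02, lc02⟩
noncomputable def ndN1q0 : Node := ⟨idf, cv1m, kn1q0, l1q0⟩
noncomputable def ndN1q1 : Node := ⟨idf, cv1m, kn1q1, l1q1⟩
noncomputable def ndN1q2a : Node := ⟨yag, xc12a, knc12a, lc12a⟩
noncomputable def ndN1q2b : Node := ⟨idf, xc12b, knc12b, lc12b⟩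
noncomputable def ndN1q3 : Node := ⟨idf, cv1r, kn1q3, l1q3⟩
noncomputable def ndN2q0 : Node := ⟨idf, cv2m, kn2q0, l2q0⟩
noncomputable def ndN2q1 : Node := ⟨idf, cv2m, kn2q1, l2q1⟩
noncomputable def ndN2q2a : Node := ⟨yag, xc22a, knc22a, lc22a⟩
noncomputable def ndN2q2b : Node := ⟨idf, xc22b, knc22b, lc22b⟩
noncomputable def ndN2q3 : Node := ⟨idf, cv2r, kn2q3, l2q3⟩
noncomputable def ndN3q0 : Node := ⟨idf, cv3m, kn3q0, l3q0⟩
noncomputable def ndN3q1 : Node := ⟨idf, cv3m, kn3q1, l3q1⟩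
noncomputable def ndN3q2 : Node := ⟨idf, cv3p, kn3q2, l3q2⟩
noncomputable def ndN3q3 : Node := ⟨ycg, xc33, knc33, lc33⟩
noncomputable def ndN4q0 : Node := ⟨idf, cv4m, kn4q0, l4q0⟩
noncomputable def ndN4q1 : Node := ⟨idf, cv4m, kn4q1, l4q1⟩
noncomputable def ndN4q2 : Node := ⟨idf, cv4p, kn4q2, l4q2⟩
noncomputable def ndN4q3 : Node := ⟨ycg, xc43, knc43, lc43⟩
noncomputable def ndN5q0 : Node := ⟨idf, c3g, kn5q0, l5q0⟩
noncomputable def ndN5q1 : Node := ⟨idf, c3g, kn5q1, l5q1⟩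
noncomputable def ndN5q2 : Node := ⟨idf, c3g, kn5q2, l5q2⟩
noncomputable def ndN5q3 : Node := ⟨ycg, idf, knc53, lc53⟩
noncomputable def pcN0 : Piece := ⟨rsnq0, rlq0⟩
noncomputable def pcN1 : Piece := ⟨rsnq1, rlq1⟩
noncomputable def pcN2 : Piece := ⟨rsnq2, rlq2⟩
noncomputable def pcN3 : Piece := ⟨rsnq3, rlq3⟩
noncomputable def ndF1q2 : Node := ⟨idf, cv1p, kf1q2, l1q2⟩
noncomputable def ndF2q2 : Node := ⟨idf, cv2p, kf2q2, l2q2⟩
noncomputable def ndN1q2 : Node := ⟨idf, cv1p, kn1q2, l1q2⟩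
noncomputable def ndN2q2 : Node := ⟨idf, cv2p, kn2q2, l2q2⟩
end Pool.Agent.Strip051.G.I1_8_3_16.Tab
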