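import Pool.Agent.Strip051.G.I1_8_3_16.MolD

/-! # The tight charts of a table: certificates (generated) -/

set_option linter.all false
set_option maxRecDepth 100000

namespace Pool.Agent.Strip051.G.I1_8_3_16.Tab.Mo

open Pool.Agent.Strip051.PB Pool.Agent.Strip051.PB.Mol Pool.Agent.Strip051.PB.T
open Pool.Agent.Strip051.G.I1_8_3_16.Tab

noncomputable def f0Ap : ℕ → ℕ → ℕ → ℕ → Bool :=
  onCell 0 83886080 0 16777216 134217728 67108864 (c0_Ap.row false 41943040)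

def h0_0Ap : ∃ t, chk3 f0Ap t 4 1 2 = true :=
  ⟨(c (b (a (c (a (b (c (l 8) (l 8)) (c (l 8) (l 8))) (b (c (l 8) (l 8)) (c (l 8) (l 8)))) (b (a (c (l 8) (l 8)) (c (l 8) (l 8))) (a (c (l 8) (l 8)) (c (l 8) (l 8))))) (c (b (a (c (l 8) (l 8)) (c (l 8) (l 8))) (a (c (l 8) (l 8)) (l 8))) (b (a (l 8) (l 8)) (a (l 8) (l 8))))) (a (c (a (b (c (l 8) (l 8)) (c (l 8) (l 8))) (b (c (l 8) (l 8)) (c (l 8) (l 8)))) (a (b (c (l 8) (l 8)) (c (l 8) (l 8))) (c (b (l 8) (l 8)) (l 8)))) (c (b (a (c (l 8) (l 8)) (l 8)) (a (c (l 8) (l 8)) (l 8))) (b (a (l 8) (l 8)) (a (l 8) (l 8)))))) (b (a (c (b (a (c (l 8) (l 8)) (l 8)) (a (c (l 8) (l 8)) (l 8))) (b (a (l 8) (l 8)) (a (l 8) (l 8)))) (c (b (a (l 8) (l 8)) (a (l 8) (l 8))) (a (b (l 8) (l 8)) (l 8)))) (a (c (b (a (c (l 8) (l 8)) (l 8)) (a (l 8) (l 8))) (b (a (l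 8) (l 8)) (a (l 8) (l 8)))) (c (b (a (l 8) (l 8)) (a (l 8) (l 8))) (b (a (l 8) (l 8)) (a (l 8) (l 8))))))), by decide +kernel⟩

def h1_0Ap : ∃ t, chk3 f0Ap t 5 1 4 = true :=
  ⟨(b (a (c (b (a (l 8) (l 8)) (a (l 8) (l 8))) (b (a (l 8) (l 8)) (a (l 8) (l 8)))) (b (a (c (l 8) (l 8)) (c (l 10) (l 10))) (c (a (c (l 10) (l 10)) (l 10)) (a (c (l 10) (l 10)) (l 10))))) (a (c (a (b (l 8) (c (l 12) (l 12))) (b (c (l 12) (l 12)) (c (l 12) (l 10)))) (a (b (l 8) (c (l 12) (l 12))) (b (c (l 12) (l 10)) (c (l 10) (l 10))))) (c (b (a (c (l 10) (l 10)) (l 2)) (a (c (l 2) (l 2)) (l 2))) (b (a (c (l 10) (l 10)) (l 2)) (a (c (l 2) (l 2)) (c (l 2) (a (l 2) (l 2)))))))), by decide +kernel⟩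

def h2_0Ap : ∃ t, chk3 f0Ap t 5 1 5 = true :=
  ⟨(b (a (c (a (l 8) (l 8)) (b (l 8) (a (l 8) (l 8)))) (b (a (c (l 8) (c (l 8) (l 8))) (c (l 10) (c (a (l 10) (l 10)) (l 10)))) (c (a (c (l 10) (l 10)) (b (l 10) (c (l 2) (l 2)))) (b (a (c (l 10) (a (l 8) (l 10))) (l 10)) (a (c (a (l 8) (l 10)) (l 10)) (l 2)))))) (a (c (a (b (l 8) (c (l 8) (l 8))) (b (c (l 10) (l 10)) (c (l 10) (a (l 10) (l 10))))) (a (b (l 8) (c (l 8) (a (l 8) (l 8)))) (b (c (a (l 8) (l 10)) (b (l 8) (a (l 8) (l 10)))) (b (c (a (l 10) (l 12)) (l 12)) (c (b (l 12) (l 12)) (l 12)))))) (c (b (a (c (l 10) (b (l 10) (a (l 10) (l 2)))) (b (c (l 2) (l 2)) (c (a (l 2) (l 2)) (l 2)))) (a (b (c (l 2) (b (a (l 2) (l 2)) (l 4))) (c (a (l 2) (l 2)) (a (l 2) (l 2)))) (c (a (l 2) (l 2)) (l 2)))) (b (a (b (c (a (l 12) (l 10)) (l 10)) (c (a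 (l 10) (l 2)) (l 10))) (l 2)) (a (b (c (l 2) (l 2)) (l 2)) (l 2)))))), by decide +kernel⟩

def h3_0Ap : ∃ t, chk3 f0Ap t 4 1 3 = true :=
  ⟨(c (b (a (c (a (b (l 8) (l 8)) (b (l 8) (l 8))) (a (l 8) (l 8))) (c (b (l 8) (a (l 8) (l 8))) (b (a (l 8) (c (l 8) (l 8))) (a (c (l 8) (a (l 8) (l 8))) (c (l 8) (l 8)))))) (a (c (b (a (l 8) (l 8)) (a (l 8) (l 8))) (b (a (l 8) (l 8)) (a (l 8) (c (l 8) (a (l 8) (l 8)))))) (c (b (a (l 8) (c (l 8) (a (l 8) (l 8)))) (a (c (l 8) (a (l 8) (l 8))) (c (a (l 8) (l 8)) (l 8)))) (b (a (c (a (l 8) (l 8)) (l 8)) (c (l 8) (l 8))) (a (c (l 8) (l 8)) (l 8)))))) (b (a (b (c (a (l 8) (l 8)) (a (c (l 8) (l 8)) (l 8))) (c (a (l 8) (c (l 8) (l 8))) (a (c (l 8) (l 8)) (l 8)))) (c (b (a (c (l 8) (l 8)) (l 8)) (a (c (l 8) (l 8)) (l 8))) (a (l 8) (l 8)))) (a (c (b (a (c (l 8)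 (a (l 8) (l 8))) (c (l 8) (l 8))) (a (c (b (l 8) (l 8)) (l 8)) (c (l 8) (l 8)))) (a (b (l 8) (l 8)) (l 8))) (c (b (a (l 8) (l 8)) (l 8)) (l 8))))), by decide +kernel⟩

def h4_0Ap : ∃ t, chk3 f0Ap t 5 1 3 = true :=
  ⟨(c (b (a (b (c (a (l 8) (c (l 8) (l 8))) (a (l 8) (l 8))) (c (a (c (l 8) (l 8)) (c (l 8) (l 8))) (a (l 8) (l 8)))) (b (a (c (l 8) (l 8)) (c (l 10) (l 10))) (c (a (c (l 10) (l 10)) (l 10)) (l 10)))) (a (a (c (b (c (l 8) (l 8)) (c (l 8) (l 8))) (b (l 8) (l 8))) (c (b (b (l 8) (l 12)) (c (l 12) (l 10))) (b (l 10) (l 10)))) (c (b (a (l 10) (l 2)) (l 2)) (a (l 10) (l 2))))) (b (a (c (a (l 8) (l 8)) (l 8)) (c (a (l 10) (l 10)) (l 10))) (a (a (c (l 8) (l 8)) (c (l 10) (l 10))) (c (l 10) (l 10))))), by decide +kernel⟩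

def h5_0Ap : ∃ t, chk3 f0Ap t 3 1 1 = true :=
  ⟨(c (a (c (b (a (c (a (b (l 10) (l 2)) (l 2)) (b (a (l 10) (l 2)) (a (l 2) (c (l 2) (l 2))))) (b (c (a (l 2) (l 2)) (a (l 2) (l 2))) (c (a (c (l 2) (l 2)) (l 2)) (l 2)))) (a (c (b (a (l 2) (l 2)) (a (l 2) (c (l 2) (l 2)))) (b (a (c (l 2) (a (l 2) (l 2))) (l 2)) (a (c (a (l 2) (l 2)) (l 2)) (l 2)))) (b (c (a (l 2) (l 2)) (l 2)) (c (a (l 2) (l 2)) (l 2))))) (b (a (b (c (a (c (l 10) (l 10)) (l 2)) (a (l 10) (l 2))) (c (a (c (l 2) (l 2)) (l 2)) (l 2))) (b (c (l 2) (l 2)) (l 2))) (a (c (a (b (l 2) (l 2)) (l 2)) (l 2)) (c (l 2) (l 2))))) (c (b (a (c (a (l 2) (l 2)) (l 2)) (l 2)) (a (c (l 2) (l 2)) (l 2))) (b (a (l 2) (l 2)) (a (l 2) (l 2))))) (a (c (b (a (c (l 10) (l 10)) (l 2)) (a (c (l 2) (l 2)) (l 2))) (b (a (l 10) (l 2)) (a (l 2) (l 2)))) (c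 (a (b (l 2) (l 2)) (l 2)) (a (l 2) (l 2))))), by decide +kernel⟩

theorem h6_0Ap : ∃ t, chk3 f0Ap t 2 1 3 = true := ex3_a h3_0Ap h4_0Ap

theorem h7_0Ap : ∃ t, chk3 f0Ap t 5 1 2 = true := ex3_c h1_0Ap h2_0Ap

theorem h8_0Ap : ∃ t, chk3 f0Ap t 2 1 2 = true := ex3_a h0_0Ap h7_0Ap

theorem h9_0Ap : ∃ t, chk3 f0Ap t 2 1 1 = true := ex3_c h8_0Ap h6_0Ap

theorem h10_0Ap : ∃ t, chk3 f0Ap t 1 1 1 = true := ex3_a h9_0Ap h5_0Ap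

theorem ct_0Ap : ∃ t, chk3 f0Ap t 1 1 1 = true := h10_0Ap

noncomputable def f0Apk1 : ℕ → ℕ → ℕ → ℕ → Bool :=
  onCell 0 83886080 0 16777216 134217728 67108864 (c0_Apk1.row false 41943040)

def h0_0Apk1 : ∃ t, chk3 f0Apk1 t 4 1 2 = true :=
  ⟨(c (b (a (c (b (a (c (l 8) (l 8)) (c (l 8) (l 8))) (a (c (l 8) (l 8)) (c (l 8) (l 8)))) (b (a (l 8) (l 8)) (a (l 8) (l 8)))) (c (b (a (l 8) (l 8)) (a (l 8) (l 8))) (a (b (l 8) (l 8)) (l 8)))) (a (c (a (c (b (l 8) (l 8)) (l 8)) (b (l 8) (l 8))) (b (a (l 8) (l 8)) (a (l 8) (l 8)))) (c (b (a (l 8) (l 8)) (a (l 8) (l 8))) (a (b (l 8) (l 8)) (l 8))))) (a (b (c (b (a (l 8) (l 8)) (a (l 8) (l 8))) (a (l 8) (l 8))) (c (a (b (l 8) (l 8)) (l 8)) (a (l 8) (l 8)))) (b (c (a (l 8) (l 8)) (a (l 8) (l 8))) (c (a (l 8) (l 8)) (a (l 8) (l 8)))))), by decide +kernel⟩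

def h1_0Apk1 : ∃ t, chk3 f0Apk1 t 5 1 2 = true :=
  ⟨(c (b (a (c (a (b (l 8) (l 8)) (l 8)) (a (l 8) (l 8))) (b (a (c (l 8) (l 8)) (c (l 10) (l 10))) (c (a (c (l 10) (l 10)) (l 10)) (a (l 10) (l 10))))) (a (c (b (a (l 8) (c (l 12) (l 10))) (a (c (l 12) (l 12)) (c (l 10) (l 10)))) (b (a (l 8) (l 12)) (a (l 12) (l 12)))) (c (a (b (l 10) (l 2)) (l 2)) (b (a (l 10) (l 2)) (a (l 2) (c (l 2) (l 2))))))) (b (a (c (a (l 8) (l 8)) (a (l 8) (l 8))) (b (a (c (l 8) (l 8)) (c (l 10) (l 10))) (c (a (l 10) (l 10)) (a (c (l 10) (l 10)) (l 10))))) (a (c (b (a (l 8) (l 12)) (a (l 12) (c (l 10) (l 10)))) (b (a (l 8) (c (l 10) (l 12))) (a (c (l 8) (l 12)) (c (l 12) (l 10))))) (b (c (a (c (l 10) (l 10)) (l 2)) (a (l 10) (l 2))) (c (a (c (l 2) (l 2)) (l 2)) (a (l 2) (l 2))))))), by decide +kernel⟩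

def h2_0Apk1 : ∃ t, chk3 f0Apk1 t 2 1 3 = true :=
  ⟨(a (c (b (a (c (a (l 8) (l 8)) (a (l 8) (l 8))) (c (a (l 8) (l 8)) (a (b (l 8) (l 8)) (l 8)))) (a (c (a (l 8) (l 8)) (b (l 8) (a (l 8) (l 8)))) (c (b (a (l 8) (l 8)) (a (c (l 8) (l 8)) (l 8))) (b (a (l 8) (l 8)) (l 8))))) (b (a (b (c (l 8) (l 8)) (c (a (l 8) (l 8)) (l 8))) (c (a (l 8) (l 8)) (l 8))) (a (c (a (b (l 8) (l 8)) (l 8)) (a (l 8) (l 8))) (c (l 8) (l 8))))) (c (a (b (c (b (a (l 8) (l 8)) (l 8)) (a (l 8) (l 8))) (a (c (b (l 8) (l 8)) (l 8)) (c (b (c (l 10) (l 10)) (l 10)) (l 10)))) (b (c (b (a (l 8) (l 10)) (l 10)) (l 10)) (c (l 10) (l 10)))) (b (a (c (l 8) (l 8)) (c (l 10) (l 10))) (a (c (a (l 8) (l 10)) (l 10)) (c (l 10) (l 10)))))), by decide +kernel⟩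

def h3_0Apk1 : ∃ t, chk3 f0Apk1 t 3 1 1 = true :=
  ⟨(c (a (c (b (a (b (c (l 10) (l 10)) (c (l 2) (a (l 2) (l 2)))) (c (a (l 2) (l 2)) (l 2))) (a (b (c (l 2) (a (l 2) (l 2))) (c (a (l 2) (l 2)) (l 2))) (c (a (l 2) (l 2)) (l 2)))) (b (a (c (b (l 10) (l 2)) (a (l 10) (l 2))) (c (l 2) (l 2))) (a (c (a (l 2) (l 2)) (l 2)) (l 2)))) (c (b (a (c (l 2) (l 2)) (l 2)) (a (l 2) (l 2))) (a (l 2) (l 2)))) (a (c (b (a (c (l 10) (l 10)) (l 2)) (a (l 2) (l 2))) (a (b (l 10) (l 2)) (l 2))) (c (a (l 2) (l 2)) (a (l 2) (l 2))))), by decide +kernel⟩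

theorem h4_0Apk1 : ∃ t, chk3 f0Apk1 t 2 1 2 = true := ex3_a h0_0Apk1 h1_0Apk1

theorem h5_0Apk1 : ∃ t, chk3 f0Apk1 t 2 1 1 = true := ex3_c h4_0Apk1 h2_0Apk1

theorem h6_0Apk1 : ∃ t, chk3 f0Apk1 t 1 1 1 = true := ex3_a h5_0Apk1 h3_0Apk1

theorem ct_0Apk1 : ∃ t, chk3 f0Apk1 t 1 1 1 = true := h6_0Apk1

noncomputable def f0Apk2 : ℕ → ℕ → ℕ → ℕ → Bool :=
  onCell 0 83886080 0 16777216 134217728 67108864 (c0_Apk2.row false 41943040)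

def h0_0Apk2 : ∃ t, chk3 f0Apk2 t 2 1 1 = true :=
  ⟨(c (a (c (a (c (b (a (b (l 8) (l 8)) (l 8)) (a (b (l 8) (l 8)) (l 8))) (b (a (l 8) (l 8)) (a (l 8) (l 8)))) (c (b (a (l 8) (l 8)) (a (l 8) (l 8))) (b (a (l 8) (l 8)) (a (l 8) (l 8))))) (a (c (b (a (l 8) (l 8)) (a (l 8) (l 8))) (b (l 8) (l 8))) (c (b (l 8) (l 8)) (b (l 8) (l 8))))) (c (a (c (b (a (l 8) (l 8)) (b (a (l 8) (l 12)) (a (l 12) (l 10)))) (b (l 8) (b (a (l 8) (l 10)) (a (l 12) (l 10))))) (c (b (a (b (l 8) (l 10)) (l 10)) (a (l 10) (l 2))) (b (a (b (l 8) (l 10)) (l 10)) (a (l 10) (l 2))))) (a (b (c (l 8) (l 8)) (c (b (a (l 8) (l 10)) (a (l 10) (l 10))) (b (a (l 8) (l 10)) (a (l 12) (l 10))))) (b (b (c (l 10) (l 10)) (c (a (l 10) (l 10)) (l 10))) (c (a (l 10) (l 2)) (l 10)))))) (a (c (a (c (b (l 8) (l 8)) (b (l 8) (l 8))) (b (c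 (l 8) (l 8)) (c (l 8) (l 8)))) (a (c (b (l 8) (l 8)) (l 8)) (b (l 8) (l 8)))) (c (b (a (c (l 8) (l 8)) (c (l 10) (l 10))) (a (c (a (b (l 8) (l 8)) (l 10)) (a (l 8) (l 10))) (c (l 10) (l 10)))) (b (a (l 8) (l 10)) (a (c (l 10) (l 10)) (l 10)))))), by decide +kernel⟩

def h1_0Apk2 : ∃ t, chk3 f0Apk2 t 3 1 1 = true :=
  ⟨(c (a (c (a (b (c (l 10) (l 10)) (c (l 2) (l 2))) (b (c (l 2) (l 2)) (l 2))) (b (a (c (l 10) (l 10)) (l 2)) (a (l 2) (l 2)))) (c (b (a (l 2) (l 2)) (l 2)) (a (l 2) (l 2)))) (a (c (a (b (l 10) (l 2)) (l 2)) (a (l 10) (l 2))) (c (l 2) (l 2)))), by decide +kernel⟩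

theorem h2_0Apk2 : ∃ t, chk3 f0Apk2 t 1 1 1 = true := ex3_a h0_0Apk2 h1_0Apk2

theorem ct_0Apk2 : ∃ t, chk3 f0Apk2 t 1 1 1 = true := h2_0Apk2

noncomputable def f0Am : ℕ → ℕ → ℕ → ℕ → Bool :=
  onCell 0 83886080 0 16777216 134217728 67108864 (c0_Am.row true 41943040)

def h0_0Am : ∃ t, chk3 f0Am t 8 2 8 = true :=
  ⟨(b (a (c (a (b (c (l 8) (l 8)) (a (l 3) (c (l 8) (l 8)))) (b (c (l 8) (l 8)) (c (a (l 8) (l 8)) (l 8)))) (a (b (c (l 8) (l 8)) (c (l 8) (l 8))) (b (c (l 8) (l 8)) (c (l 8) (l 8))))) (c (a (b (c (l 8) (l 8)) (c (a (l 8) (l 8)) (l 8))) (b (c (l 8) (l 8)) (c (l 8) (l 8)))) (a (b (c (l 8) (l 8)) (c (l 8) (l 8))) (b (c (l 8) (l 8)) (c (l 8) (l 8)))))) (a (b (a (l 3) (a (l 3) (c (c (l 8) (l 8)) (c (l 8) (l 8))))) (l 3)) (c (a (b (c (a (l 8) (l 8)) (a (l 8) (l 8))) (c (a (l 8) (l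 8)) (a (l 8) (l 8)))) (b (c (a (l 8) (l 8)) (l 8)) (c (a (l 8) (l 8)) (a (l 8) (l 8))))) (a (b (c (l 8) (l 8)) (c (a (l 8) (l 8)) (l 8))) (b (c (l 8) (l 8)) (c (a (l 8) (l 8)) (l 8))))))), by decide +kernel⟩

def h1_0Am : ∃ t, chk3 f0Am t 8 2 9 = true :=
  ⟨(b (a (c (b (a (c (l 8) (l 8)) (c (l 8) (l 8))) (a (c (l 8) (l 8)) (c (l 8) (l 8)))) (b (a (c (l 8) (l 8)) (c (l 8) (l 8))) (a (c (l 8) (l 8)) (c (l 8) (l 8))))) (c (a (c (b (l 8) (l 8)) (l 8)) (c (l 8) (l 8))) (a (b (l 8) (l 8)) (b (l 8) (l 8))))) (a (b (a (l 3) (a (l 3) (c (l 8) (l 8)))) (l 3)) (c (a (b (c (l 8) (l 8)) (c (l 8) (l 8))) (b (c (l 8) (l 8)) (c (l 8) (l 8)))) (a (b (c (l 8) (l 8)) (c (l 8) (l 8))) (c (b (l 8) (l 8)) (l 8)))))), by decide +kernel⟩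

def h2_0Am : ∃ t, chk3 f0Am t 9 2 8 = true :=
  ⟨(a (b (c (a (b (c (l 8) (l 8)) (c (l 8) (l 8))) (b (c (l 8) (l 8)) (c (l 8) (l 8)))) (a (c (b (l 8) (l 8)) (l 8)) (b (l 8) (c (l 8) (l 8))))) (c (a (b (c (a (l 8) (l 8)) (l 8)) (c (a (l 8) (l 8)) (a (l 8) (l 8)))) (b (c (l 8) (l 8)) (c (a (l 8) (l 8)) (l 8)))) (a (b (c (l 8) (l 8)) (c (l 8) (l 8))) (b (c (l 8) (l 8)) (c (l 8) (l 8)))))) (b (c (a (b (c (l 8) (l 8)) (c (l 8) (l 8))) (c (b (l 8) (l 8)) (l 8))) (a (c (l 8) (l 8)) (c (l 8) (l 8)))) (c (a (b (c (l 8) (l 8)) (c (a (l 8) (l 8)) (l 8))) (b (c (l 8) (l 8)) (c (l 8) (l 8)))) (a (b (c (l 8) (l 8)) (c (l 8) (l 8))) (b (c (l 8) (l 8)) (c (l 8) (l 8))))))), by decide +kernel⟩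

def h3_0Am : ∃ t, chk3 f0Am t 9 2 9 = true :=
  ⟨(b (a (c (a (c (l 8) (l 8)) (c (l 8) (l 8))) (a (b (l 8) (l 8)) (b (l 8) (l 8)))) (c (a (c (l 8) (l 8)) (c (l 8) (l 8))) (a (b (l 8) (l 8)) (b (l 8) (l 8))))) (a (c (a (b (c (l 8) (l 8)) (c (l 8) (l 8))) (c (b (l 8) (l 8)) (l 8))) (a (c (l 8) (l 8)) (c (l 8) (l 8)))) (c (a (b (c (l 8) (l 8)) (c (l 8) (l 8))) (b (c (l 8) (l 8)) (c (l 8) (l 8)))) (a (c (l 8) (l 8)) (c (b (l 8) (l 8)) (l 8)))))), by decide +kernel⟩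

def h4_0Am : ∃ t, chk3 f0Am t 8 2 5 = true :=
  ⟨(c (a (b (c (a (c (b (l 8) (l 8)) (l 8)) (b (l 8) (l 8))) (a (b (l 8) (l 8)) (b (l 8) (l 8)))) (b (a (l 3) (c (c (l 8) (l 8)) (l 8))) (l 3))) (b (c (a (b (l 8) (l 8)) (b (l 8) (l 8))) (a (b (l 8) (l 8)) (b (l 8) (l 8)))) (c (a (c (l 8) (l 8)) (c (l 8) (l 8))) (a (c (l 8) (l 8)) (c (l 8) (l 8)))))) (b (a (c (a (b (l 8) (l 8)) (b (l 8) (l 8))) (a (b (l 8) (l 8)) (b (l 8) (l 8)))) (c (a (b (l 8) (l 8)) (b (l 8) (l 8))) (a (b (l 8) (l 8)) (b (l 8) (l 8))))) (a (a (l 3) (b (c (l 8) (l 8)) (l 3))) (c (a (c (l 8) (l 8)) (c (l 8) (l 8))) (a (c (l 8) (l 8)) (c (l 8) (l 8))))))), by decide +kernel⟩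

def h5_0Am : ∃ t, chk3 f0Am t 9 2 5 = true :=
  ⟨(c (b (a (c (a (b (l 8) (l 8)) (b (l 8) (l 8))) (a (b (l 8) (l 8)) (b (l 8) (l 8)))) (c (a (b (l 8) (l 8)) (b (l 8) (l 8))) (a (b (l 8) (l 8)) (b (l 8) (l 8))))) (a (c (a (c (l 8) (l 8)) (c (l 8) (l 8))) (a (c (l 8) (l 8)) (c (l 8) (l 8)))) (c (a (c (l 8) (l 8)) (c (l 8) (l 8))) (a (c (l 8) (l 8)) (c (l 8) (l 8)))))) (b (a (c (a (b (l 8) (l 8)) (b (l 8) (l 8))) (a (b (l 8) (l 8)) (b (l 8) (l 8)))) (c (a (b (l 8) (l 8)) (b (l 8) (l 8))) (a (b (l 8) (l 8)) (l 8)))) (a (c (a (c (l 8) (l 8)) (c (l 8) (l 8))) (a (c (l 8) (l 8)) (b (l 8) (l 8)))) (c (a (c (l 8) (l 8)) (b (l 8) (l 8))) (a (b (l 8) (l 8)) (b (l 8) (l 8))))))), by decide +kernel⟩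

def h6_0Am : ∃ t, chk3 f0Am t 10 2 4 = true :=
  ⟨(c (b (a (c (a (c (b (l 8) (l 8)) (l 8)) (c (b (l 8) (l 8)) (l 8))) (a (c (l 8) (l 8)) (c (l 8) (l 8)))) (c (a (c (b (l 8) (l 8)) (l 8)) (c (l 8) (l 8))) (a (c (l 8) (l 8)) (c (l 8) (l 8))))) (a (c (a (b (c (l 8) (l 8)) (c (l 8) (l 8))) (b (c (l 8) (l 8)) (c (l 8) (l 8)))) (a (b (c (l 8) (l 8)) (c (l 8) (l 8))) (b (c (l 8) (l 8)) (c (l 8) (l 8))))) (c (a (b (c (l 8) (l 8)) (c (l 8) (l 8))) (b (c (l 8) (l 8)) (c (l 8) (l 8)))) (a (b (c (l 8) (l 8)) (c (l 8) (l 8))) (b (c (l 8) (l 8)) (c (l 8) (l 8))))))) (b (a (c (a (c (l 8) (l 8)) (b (l 8) (l 8))) (a (b (l 8) (l 8)) (b (l 8) (l 8)))) (c (a (b (l 8) (l 8)) (b (l 8) (l 8))) (a (b (l 8) (l 8)) (b (l 8) (l 8))))) (a (c (a (b (c (l 8) (l 8)) (c (l 8) (l 8))) (b (c (l 8) (l 8)) (c (l 8) (l 8))))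 (a (c (b (l 8) (l 8)) (l 8)) (c (b (l 8) (l 8)) (l 8)))) (c (a (b (c (l 8) (l 8)) (c (l 8) (l 8))) (c (b (l 8) (l 8)) (l 8))) (a (c (l 8) (l 8)) (c (l 8) (l 8))))))), by decide +kernel⟩

def h7_0Am : ∃ t, chk3 f0Am t 11 2 4 = true :=
  ⟨(c (b (b (a (c (a (l 8) (l 8)) (a (l 8) (l 8))) (c (a (l 8) (l 10)) (a (l 8) (l 10)))) (a (c (a (c (l 8) (l 8)) (c (l 8) (l 8))) (a (l 8) (l 8))) (c (a (l 8) (l 8)) (a (l 8) (l 8))))) (a (c (a (b (c (l 8) (l 8)) (c (l 8) (l 8))) (b (c (l 8) (l 8)) (c (l 8) (l 8)))) (a (b (c (l 8) (l 8)) (c (l 8) (l 8))) (c (b (l 8) (l 8)) (l 8)))) (c (a (b (c (l 8) (l 8)) (c (l 8) (l 8))) (b (l 8) (c (l 8) (l 8)))) (a (c (l 8) (l 8)) (b (l 8) (l 8)))))) (b (b (a (c (a (l 8) (l 8)) (a (l 8) (l 8))) (c (a (l 8) (l 10)) (l 10))) (a (c (a (l 8) (l 8)) (a (l 8) (l 8))) (c (a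 (l 8) (l 8)) (l 8)))) (a (c (a (c (l 8) (l 8)) (c (l 8) (l 8))) (a (b (l 8) (l 8)) (b (l 8) (l 8)))) (c (a (b (l 8) (l 8)) (b (l 8) (l 8))) (a (b (l 8) (l 8)) (b (l 8) (l 8))))))), by decide +kernel⟩

def h8_0Am : ∃ t, chk3 f0Am t 5 2 5 = true :=
  ⟨(a (c (b (a (c (a (b (l 8) (l 8)) (b (l 8) (l 8))) (a (b (l 8) (l 8)) (b (l 8) (l 8)))) (c (a (b (l 8) (l 8)) (l 8)) (a (l 8) (l 8)))) (a (c (a (c (l 8) (l 8)) (c (l 8) (l 8))) (a (c (l 8) (l 8)) (b (l 8) (l 8)))) (c (a (c (l 8) (l 8)) (b (l 8) (l 8))) (a (b (l 8) (l 8)) (b (l 8) (l 8)))))) (b (a (c (a (b (l 8) (l 8)) (l 8)) (a (l 8) (l 8))) (c (a (l 8) (l 8)) (a (l 8) (l 8)))) (a (c (a (b (l 8) (l 8)) (b (l 8) (l 8))) (a (b (l 8) (l 8)) (b (l 8) (l 8)))) (c (a (b (l 8) (l 8)) (b (l 8) (l 8))) (a (b (l 8) (l 8)) (l 8)))))) (b (b (c (a (c (l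 8) (l 8)) (c (l 10) (l 10))) (a (c (l 8) (l 8)) (c (l 10) (a (l 8) (c (l 10) (l 10)))))) (c (a (c (a (l 8) (l 8)) (l 8)) (c (l 8) (l 8))) (a (c (l 8) (a (l 8) (l 8))) (c (l 8) (a (l 8) (l 8)))))) (c (a (c (a (b (l 8) (l 8)) (b (l 8) (l 8))) (a (b (l 8) (l 8)) (l 8))) (c (a (l 8) (l 8)) (a (l 8) (l 8)))) (a (c (a (l 8) (l 8)) (a (l 8) (l 8))) (c (a (l 8) (l 8)) (a (l 8) (b (l 8) (l 8)))))))), by decide +kernel⟩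

def h9_0Am : ∃ t, chk3 f0Am t 8 3 4 = true :=
  ⟨(b (a (l 3) (c (c (a (l 3) (b (c (a (l 16) (l 8)) (a (l 8) (l 8))) (a (l 3) (b (c (l 8) (l 8)) (l 3))))) (a (l 3) (b (c (a (l 8) (l 8)) (a (l 8) (l 8))) (a (l 3) (c (b (l 8) (l 3)) (l 8)))))) (a (l 3) (c (b (c (l 8) (l 8)) (a (l 3) (c (l 8) (l 8)))) (b (c (l 8) (l 8)) (c (l 8) (l 8))))))) (l 3)), by decide +kernel⟩

def h10_0Am : ∃ t, chk3 f0Am t 9 6 4 = true :=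
  ⟨(c (a (c (b (a (c (a (l 8) (l 8)) (a (l 8) (l 8))) (c (a (l 8) (l 8)) (a (l 8) (l 8)))) (a (c (a (b (l 8) (l 8)) (b (l 8) (l 8))) (a (b (l 8) (l 8)) (b (l 8) (l 8)))) (c (a (b (l 8) (l 8)) (b (l 8) (l 8))) (b (l 16) (a (l 8) (l 8)))))) (a (b (c (a (l 8) (l 8)) (l 8)) (c (b (l 8) (a (l 8) (l 8))) (a (l 8) (l 8)))) (b (c (l 16) (l 8)) (c (a (l 8) (l 8)) (a (l 8) (l 8)))))) (c (a (b (c (a (l 8) (l 8)) (a (l 8) (l 8))) (c (b (l 16) (a (l 8) (l 8))) (a (b (l 8) (l 8)) (l 8)))) (b (c (a (l 8) (l 8)) (a (l 8) (l 8))) (c (a (b (l 8) (l 8)) (l 8)) (a (l 8) (l 8))))) (a (b (c (l 8) (l 8)) (c (a (l 8) (l 8)) (a (l 8) (l 8)))) (b (c (l 8) (l 8)) (c (a (l 8) (l 8)) (l 8)))))) (a (c (a (b (c (l 8) (l 8)) (c (a (l 8) (l 8)) (l 8))) (b (c (l 8) (l 8)) (c (l 8) (l 8)))) (a (b (c (l 8) (l 8)) (c (l 8)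 (l 8))) (b (c (l 8) (l 8)) (c (l 8) (l 8))))) (c (a (b (c (l 8) (l 8)) (c (l 8) (l 8))) (b (c (l 8) (l 8)) (c (l 8) (l 8)))) (a (b (c (l 8) (l 8)) (c (l 8) (l 8))) (b (c (l 8) (l 8)) (c (l 8) (l 8))))))), by decide +kernel⟩

def h11_0Am : ∃ t, chk3 f0Am t 9 7 8 = true :=
  ⟨(a (c (b (a (a (l 3) (b (c (l 8) (l 8)) (l 3))) (c (a (b (l 8) (l 8)) (b (l 8) (l 8))) (a (l 8) (l 8)))) (a (l 3) (a (l 3) (c (b (l 8) (l 8)) (l 8))))) (b (a (a (l 3) (c (l 8) (l 8))) (c (a (l 8) (l 8)) (a (l 8) (l 8)))) (a (l 3) (a (l 3) (c (l 8) (l 8)))))) (c (b (a (c (a (b (l 8) (l 8)) (b (l 8) (l 8))) (a (l 8) (l 8))) (c (b (a (l 8) (l 8)) (l 8)) (a (l 8) (l 8)))) (a (c (a (l 8) (l 8)) (a (l 8) (l 8))) (c (a (l 8) (l 8)) (a (l 8) (l 8))))) (b (a (c (a (l 8) (l 8)) (a (l 8) (l 8))) (c (a (l 8) (l 8)) (a (l 8) (l 8))))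 (a (c (a (l 8) (l 8)) (a (l 8) (l 8))) (c (a (l 8) (l 8)) (a (l 8) (l 8))))))), by decide +kernel⟩

def h12_0Am : ∃ t, chk3 f0Am t 9 7 9 = true :=
  ⟨(a (c (b (a (a (l 3) (c (l 8) (l 8))) (c (a (l 8) (l 8)) (a (l 8) (l 8)))) (a (l 3) (a (l 3) (c (l 8) (l 8))))) (b (a (b (c (l 8) (l 8)) (l 3)) (c (b (l 8) (l 8)) (b (l 8) (a (l 8) (l 8))))) (a (l 3) (a (l 3) (c (l 8) (b (l 8) (l 8))))))) (c (b (a (c (a (l 8) (l 8)) (b (l 8) (l 8))) (c (a (l 8) (l 8)) (a (l 8) (l 8)))) (a (c (a (l 8) (l 8)) (a (l 8) (l 8))) (c (a (l 8) (l 8)) (a (l 8) (b (l 8) (l 8)))))) (b (a (c (a (b (l 8) (l 8)) (l 8)) (a (l 8) (l 8))) (c (a (l 8) (l 8)) (a (l 8) (l 8)))) (a (c (b (l 8) (l 8)) (a (l 8) (l 8))) (c (b (l 8) (l 8)) (b (l 8) (l 8))))))), by decide +kernel⟩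

def h13_0Am : ∃ t, chk3 f0Am t 8 3 5 = true :=
  ⟨(b (a (l 3) (c (a (l 3) (c (b (c (l 8) (l 8)) (c (l 8) (l 8))) (c (l 8) (b (l 8) (l 8))))) (a (l 3) (c (b (c (l 8) (l 8)) (c (l 8) (l 8))) (b (c (l 8) (l 8)) (c (l 8) (l 8))))))) (l 3)), by decide +kernel⟩

def h14_0Am : ∃ t, chk3 f0Am t 9 3 10 = true :=
  ⟨(b (a (c (a (b (c (l 8) (l 8)) (c (l 8) (l 8))) (b (c (l 8) (l 8)) (c (l 8) (l 8)))) (a (b (c (l 8) (l 8)) (c (l 8) (l 8))) (b (c (l 8) (l 8)) (c (l 8) (l 8))))) (c (a (b (c (l 8) (l 8)) (c (l 8) (l 8))) (b (c (l 8) (l 8)) (c (l 8) (l 8)))) (a (b (c (l 8) (l 8)) (c (l 8) (l 8))) (b (c (l 8) (l 8)) (c (l 8) (l 8)))))) (a (c (b (a (b (c (l 8) (l 8)) (l 3)) (c (a (b (l 8) (l 8)) (l 8)) (a (l 8) (l 8)))) (a (l 3) (a (l 3) (c (l 8) (l 8))))) (b (a (c (a (l 3) (l 8)) (l 8)) (c (l 8) (l 8)))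 (a (l 3) (a (l 3) (c (b (l 8) (l 8)) (l 8)))))) (c (b (a (c (a (l 8) (l 8)) (l 8)) (c (a (l 8) (l 8)) (l 8))) (a (c (a (l 8) (l 8)) (b (l 8) (l 8))) (c (b (l 8) (l 8)) (a (l 8) (l 8))))) (b (a (c (l 8) (l 8)) (c (l 8) (l 8))) (a (c (a (l 8) (l 8)) (a (l 8) (l 8))) (c (b (l 8) (l 8)) (b (l 8) (l 8)))))))), by decide +kernel⟩

def h15_0Am : ∃ t, chk3 f0Am t 9 3 11 = true :=
  ⟨(b (a (c (a (b (c (l 8) (l 8)) (c (l 8) (l 8))) (b (c (l 8) (l 8)) (c (l 8) (l 8)))) (a (b (c (l 8) (l 8)) (c (l 8) (l 8))) (b (c (l 8) (l 8)) (c (l 8) (l 8))))) (c (a (b (c (l 8) (l 8)) (c (l 8) (l 8))) (b (c (l 8) (l 8)) (c (l 8) (l 8)))) (a (b (c (l 8) (l 8)) (c (l 8) (l 8))) (b (c (l 8) (l 8)) (c (l 8) (l 8)))))) (a (c (b (a (c (l 8) (l 8)) (c (l 8) (l 8))) (a (l 3) (a (l 3) (c (l 8) (l 8))))) (b (a (c (l 8) (l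 8)) (c (l 8) (l 8))) (a (l 3) (a (l 3) (c (l 8) (l 8)))))) (c (b (a (c (l 8) (l 8)) (c (l 8) (l 8))) (a (c (b (l 8) (l 8)) (a (l 8) (l 8))) (c (b (l 8) (a (l 8) (l 8))) (a (l 8) (l 8))))) (a (b (c (l 8) (l 8)) (c (a (l 8) (l 8)) (a (l 8) (l 8)))) (b (c (l 8) (l 8)) (c (a (l 8) (l 8)) (l 16))))))), by decide +kernel⟩

def h16_0Am : ∃ t, chk3 f0Am t 10 6 8 = true :=
  ⟨(a (c (a (b (c (a (l 8) (l 8)) (l 8)) (c (a (l 8) (l 8)) (a (l 8) (l 8)))) (b (c (l 8) (l 8)) (c (a (l 8) (l 8)) (a (l 8) (l 8))))) (a (b (c (l 8) (l 8)) (c (l 8) (l 8))) (b (c (l 8) (l 8)) (c (l 8) (l 8))))) (c (a (b (c (l 8) (l 8)) (c (a (l 8) (l 8)) (l 8))) (b (c (l 8) (l 8)) (c (a (l 8) (l 8)) (a (l 8) (l 8))))) (a (b (c (l 8) (l 8)) (c (l 8) (l 8))) (b (c (l 8) (l 8)) (c (l 8) (l 8)))))), by decide +kernel⟩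

def h17_0Am : ∃ t, chk3 f0Am t 10 7 8 = true :=
  ⟨(a (c (b (a (c (b (a (l 8) (l 8)) (l 8)) (a (l 8) (l 8))) (c (b (a (l 8) (l 8)) (l 8)) (b (a (l 8) (l 8)) (l 8)))) (a (c (a (l 8) (l 8)) (a (l 8) (l 8))) (c (a (l 8) (l 8)) (a (l 8) (l 8))))) (b (a (c (a (l 8) (l 8)) (a (l 8) (l 8))) (c (b (l 8) (l 8)) (a (l 8) (l 8)))) (a (c (a (l 8) (l 8)) (b (l 8) (l 8))) (c (b (l 8) (l 8)) (b (l 8) (l 8)))))) (c (b (a (c (b (a (l 8) (l 8)) (l 8)) (b (l 8) (a (l 8) (l 8)))) (c (b (l 8) (a (l 8) (l 8))) (b (l 8) (a (l 8) (l 8))))) (a (c (a (l 8) (l 8)) (b (l 8) (l 8))) (c (a (l 8) (l 8)) (b (l 8) (l 8))))) (b (a (c (b (l 8) (a (l 8) (l 8))) (a (l 8) (l 8))) (c (a (l 8) (l 8)) (a (l 8) (l 8)))) (a (c (b (l 8) (l 8)) (a (l 8) (l 8))) (c (a (l 8) (l 8)) (a (l 8) (b (l 8) (l 8)))))))), by decide +kernel⟩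

def h18_0Am : ∃ t, chk3 f0Am t 10 6 9 = true :=
  ⟨(a (c (a (b (c (l 8) (l 8)) (c (l 8) (l 8))) (b (c (l 8) (l 8)) (c (l 8) (l 8)))) (a (b (c (l 8) (l 8)) (c (l 8) (l 8))) (b (c (l 8) (l 8)) (c (l 8) (l 8))))) (c (a (b (c (l 8) (l 8)) (c (l 8) (l 8))) (b (c (l 8) (l 8)) (c (l 8) (l 8)))) (a (b (c (l 8) (l 8)) (c (l 8) (l 8))) (b (c (l 8) (l 8)) (c (l 8) (l 8)))))), by decide +kernel⟩

def h19_0Am : ∃ t, chk3 f0Am t 10 7 9 = true :=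
  ⟨(a (c (b (a (c (a (l 8) (l 8)) (a (l 8) (l 8))) (c (a (l 8) (l 8)) (a (l 8) (l 8)))) (a (c (b (a (l 8) (l 8)) (l 8)) (b (l 8) (l 8))) (c (a (l 8) (l 8)) (a (l 8) (l 8))))) (b (a (c (a (l 8) (l 8)) (a (l 8) (l 8))) (c (l 8) (l 8))) (a (c (a (l 8) (l 8)) (a (l 8) (l 8))) (c (a (l 8) (b (l 8) (l 8))) (b (a (l 8) (l 8)) (l 8)))))) (c (b (a (c (a (l 8) (l 8)) (a (l 8) (l 8))) (c (a (l 8) (l 8)) (l 8))) (a (c (a (l 8) (l 8)) (a (l 8) (b (l 8) (l 8)))) (c (b (a (l 8) (l 8)) (l 8)) (b (a (l 8) (l 8)) (l 8))))) (b (a (c (l 8) (l 8)) (c (l 8) (l 8))) (a (c (b (a (l 8) (l 8)) (l 8)) (a (b (l 8) (l 8)) (b (l 8) (l 8)))) (c (a (b (l 8) (l 8)) (b (l 8) (l 8))) (b (l 8) (a (l 8) (l 8)))))))), by decide +kernel⟩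

def h20_0Am : ∃ t, chk3 f0Am t 11 6 8 = true :=
  ⟨(a (c (a (b (c (l 8) (l 8)) (c (a (l 8) (l 8)) (a (l 8) (l 8)))) (b (c (l 8) (l 8)) (c (a (l 8) (l 8)) (a (l 8) (l 8))))) (a (b (c (l 8) (l 8)) (c (l 8) (l 8))) (b (c (l 8) (l 8)) (c (l 8) (l 8))))) (c (a (b (c (l 8) (l 8)) (c (a (l 8) (l 8)) (l 8))) (b (c (l 8) (l 8)) (c (a (l 8) (l 8)) (l 8)))) (a (b (c (l 8) (l 8)) (c (l 8) (l 8))) (c (b (l 8) (l 8)) (b (l 8) (l 8)))))), by decide +kernel⟩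

def h21_0Am : ∃ t, chk3 f0Am t 11 7 8 = true :=
  ⟨(a (c (b (a (c (b (l 8) (a (l 8) (l 8))) (a (b (l 8) (l 8)) (l 8))) (c (a (b (l 8) (l 8)) (l 8)) (a (l 8) (l 8)))) (a (c (a (l 8) (l 8)) (a (l 8) (b (l 8) (l 8)))) (c (a (l 8) (b (l 8) (l 8))) (b (a (l 8) (l 8)) (l 8))))) (b (a (c (a (l 8) (l 8)) (a (l 8) (l 8))) (c (a (l 8) (l 8)) (a (l 8) (l 8)))) (a (c (b (a (l 8) (l 8)) (l 8)) (b (a (l 8) (l 8)) (l 8))) (c (b (a (l 8) (l 8)) (l 8)) (a (b (l 8) (l 8)) (b (l 8) (l 8))))))) (c (b (a (c (a (l 8) (l 8)) (a (l 8) (l 8))) (c (a (l 8) (l 8)) (a (l 8) (l 8)))) (a (c (b (a (l 8) (l 8)) (l 8)) (b (a (l 8) (l 8)) (l 8))) (c (a (b (l 8) (l 8)) (b (l 8) (l 8))) (a (b (l 8) (l 8)) (b (l 8) (l 8)))))) (a (b (c (a (l 8) (l 8)) (a (l 8) (l 8))) (c (a (b (l 8) (l 8)) (b (l 8) (l 8))) (b (l 8) (a (l 8)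 (l 8))))) (b (c (a (l 8) (l 8)) (l 8)) (c (b (l 8) (a (l 8) (l 8))) (a (b (l 8) (l 8)) (l 8))))))), by decide +kernel⟩

def h22_0Am : ∃ t, chk3 f0Am t 11 3 9 = true :=
  ⟨(a (b (c (a (b (c (l 8) (l 8)) (c (l 8) (l 8))) (b (c (l 8) (l 8)) (c (l 8) (l 8)))) (a (b (c (l 8) (l 8)) (c (l 8) (l 8))) (b (c (l 8) (l 8)) (c (l 8) (l 8))))) (c (b (a (c (a (l 8) (l 8)) (l 8)) (c (l 8) (l 8))) (a (c (a (b (l 8) (l 8)) (b (l 8) (l 8))) (b (l 8) (a (l 8) (l 8)))) (c (b (l 8) (a (l 8) (l 8))) (b (l 8) (a (l 8) (l 8)))))) (a (b (c (l 8) (l 8)) (c (b (l 8) (a (l 8) (l 8))) (a (b (l 8) (l 8)) (l 8)))) (b (c (l 8) (l 8)) (c (a (l 8) (l 8)) (a (l 8) (l 8))))))) (b (c (a (b (c (l 8) (l 8)) (c (l 8) (l 8))) (c (b (l 8) (l 8)) (b (l 8) (l 8)))) (a (c (b (l 8) (l 8)) (l 8)) (c (l 8) (l 8)))) (c (a (b (c (l 8)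 (l 8)) (c (a (b (l 8) (l 8)) (l 8)) (a (l 8) (l 8)))) (b (c (l 8) (l 8)) (c (a (l 8) (l 8)) (a (l 8) (l 8))))) (a (b (c (l 8) (l 8)) (c (a (l 8) (l 8)) (l 8))) (b (c (l 8) (l 8)) (c (l 8) (l 8))))))), by decide +kernel⟩

def h23_0Am : ∃ t, chk3 f0Am t 10 3 10 = true :=
  ⟨(a (b (c (a (b (c (l 8) (l 8)) (c (l 8) (l 8))) (b (c (l 8) (l 8)) (c (l 8) (l 8)))) (a (b (c (l 8) (l 8)) (c (l 8) (l 8))) (b (c (l 8) (l 8)) (c (l 8) (l 8))))) (c (b (a (c (l 8) (l 8)) (c (l 8) (l 8))) (a (c (a (l 8) (b (l 8) (l 8))) (b (l 8) (l 8))) (c (b (a (l 8) (l 8)) (l 8)) (b (l 8) (a (l 8) (l 8)))))) (a (b (c (l 8) (l 8)) (c (b (l 8) (a (l 8) (l 8))) (b (l 8) (a (l 8) (l 8))))) (b (c (l 8) (l 8)) (c (a (b (l 8) (l 8)) (l 8)) (a (l 8) (l 8))))))) (b (c (a (b (c (l 8) (l 8)) (c (l 8) (l 8))) (b (c (l 8) (l 8)) (c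 (l 8) (l 8)))) (a (b (c (l 8) (l 8)) (c (l 8) (l 8))) (b (c (l 8) (l 8)) (c (l 8) (l 8))))) (c (a (b (c (l 8) (l 8)) (c (b (l 8) (a (l 8) (l 8))) (a (b (l 8) (l 8)) (l 8)))) (b (c (l 8) (l 8)) (c (a (b (l 8) (l 8)) (l 8)) (a (l 8) (l 8))))) (a (b (c (l 8) (l 8)) (c (a (l 8) (l 8)) (a (l 8) (l 8)))) (b (c (l 8) (l 8)) (c (a (l 8) (l 8)) (l 8))))))), by decide +kernel⟩

def h24_0Am : ∃ t, chk3 f0Am t 10 3 11 = true :=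
  ⟨(b (a (c (a (b (c (l 8) (l 8)) (c (l 8) (l 8))) (b (c (l 8) (l 8)) (c (l 8) (l 8)))) (a (b (c (l 8) (l 8)) (c (l 8) (l 8))) (c (b (l 8) (l 8)) (l 8)))) (c (a (b (l 8) (c (l 8) (l 8))) (c (l 8) (l 8))) (a (c (l 8) (l 8)) (b (l 8) (l 8))))) (a (c (a (b (c (l 8) (l 8)) (c (a (l 8) (l 8)) (a (l 8) (l 8)))) (b (c (l 8) (l 8)) (c (a (l 8) (l 8)) (l 8)))) (a (b (c (l 8) (l 8)) (c (l 8) (l 8))) (b (c (l 8) (l 8)) (c (l 8) (l 8))))) (c (a (b (c (l 8) (l 8)) (c (l 8) (l 8))) (b (c (l 8) (l 8)) (c (l 8) (l 8)))) (a (b (c (l 8) (l 8)) (c (l 8) (l 8))) (b (c (l 8) (l 8)) (c (l 8) (l 8))))))), by decide +kernel⟩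

def h25_0Am : ∃ t, chk3 f0Am t 11 3 5 = true :=
  ⟨(c (b (a (c (a (b (c (l 8) (l 8)) (c (l 8) (l 8))) (c (b (l 8) (l 8)) (l 8))) (a (c (l 8) (l 8)) (c (l 8) (l 8)))) (c (a (c (l 8) (l 8)) (b (l 8) (l 8))) (a (b (l 8) (l 8)) (b (l 8) (l 8))))) (a (c (a (b (c (l 8) (l 8)) (c (a (l 8) (l 8)) (a (l 8) (l 8)))) (b (c (l 8) (l 8)) (c (l 8) (l 8)))) (a (b (c (l 8) (l 8)) (c (l 8) (l 8))) (b (c (l 8) (l 8)) (c (l 8) (l 8))))) (c (a (b (c (l 8) (l 8)) (c (l 8) (l 8))) (b (c (l 8) (l 8)) (c (l 8) (l 8)))) (a (b (c (l 8) (l 8)) (c (l 8) (l 8))) (b (l 8) (c (l 8) (l 8))))))) (b (a (c (a (b (l 8) (l 8)) (b (l 8) (l 8))) (a (b (l 8) (l 8)) (b (l 8) (l 8)))) (c (a (b (l 8) (l 8)) (l 8)) (a (l 8) (l 8)))) (a (c (a (b (c (l 8) (l 8)) (c (l 8) (l 8))) (b (c (l 8) (l 8)) (c (l 8) (l 8)))) (a (b (c (l 8)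 (l 8)) (c (l 8) (l 8))) (c (b (l 8) (l 8)) (l 8)))) (c (a (c (b (l 8) (l 8)) (l 8)) (c (l 8) (l 8))) (a (c (l 8) (l 8)) (b (l 8) (l 8))))))), by decide +kernel⟩

def h26_0Am : ∃ t, chk3 f0Am t 8 2 6 = true :=
  ⟨(c (b (a (c (a (b (l 8) (l 8)) (b (l 8) (l 8))) (a (b (l 8) (l 8)) (b (l 8) (l 8)))) (c (a (b (l 8) (l 8)) (b (l 8) (l 8))) (a (b (l 8) (l 8)) (b (l 8) (l 8))))) (a (a (l 3) (b (c (l 8) (l 8)) (l 3))) (c (a (b (l 8) (l 8)) (b (l 8) (l 8))) (a (b (l 8) (l 8)) (b (l 8) (l 8)))))) (b (a (c (a (b (l 8) (l 8)) (b (l 8) (l 8))) (a (b (l 8) (l 8)) (b (l 8) (l 8)))) (c (a (b (l 8) (l 8)) (l 8)) (a (l 8) (l 8)))) (a (a (l 3) (b (c (l 8) (l 8)) (l 3))) (c (a (b (l 8) (l 8)) (b (l 8) (l 8))) (a (b (l 8) (l 8)) (b (l 8) (l 8))))))), by decide +kernel⟩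

def h27_0Am : ∃ t, chk3 f0Am t 9 2 6 = true :=
  ⟨(c (b (a (c (a (b (l 8) (l 8)) (b (l 8) (l 8))) (a (b (l 8) (l 8)) (l 8))) (c (a (l 8) (l 8)) (a (l 8) (l 8)))) (a (c (a (b (l 8) (l 8)) (b (l 8) (l 8))) (a (b (l 8) (l 8)) (b (l 8) (l 8)))) (c (a (b (l 8) (l 8)) (b (l 8) (l 8))) (a (b (l 8) (l 8)) (b (l 8) (l 8)))))) (b (a (c (a (l 8) (l 8)) (a (l 8) (l 8))) (c (a (l 8) (l 8)) (a (l 8) (b (l 8) (l 8))))) (a (c (a (b (l 8) (l 8)) (b (l 8) (l 8))) (a (b (l 8) (l 8)) (b (l 8) (l 8)))) (c (a (b (l 8) (l 8)) (b (l 8) (l 8))) (a (b (l 8) (l 8)) (l 8)))))), by decide +kernel⟩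

def h28_0Am : ∃ t, chk3 f0Am t 8 3 6 = true :=
  ⟨(b (a (l 3) (a (l 3) (c (c (b (c (l 8) (l 8)) (c (l 8) (l 8))) (b (c (l 8) (l 8)) (c (l 8) (l 8)))) (c (b (l 16) (c (l 8) (l 8))) (b (l 16) (l 16)))))) (l 3)), by decide +kernel⟩

def h29_0Am : ∃ t, chk3 f0Am t 9 3 12 = true :=
  ⟨(a (b (c (a (b (c (l 8) (l 8)) (c (l 8) (l 8))) (b (c (l 8) (l 8)) (c (l 8) (l 8)))) (a (b (l 16) (c (l 8) (l 8))) (b (l 16) (c (l 8) (l 8))))) (c (a (b (c (l 8) (l 8)) (l 3)) (b (c (l 8) (l 8)) (a (l 3) (c (l 8) (l 8))))) (a (b (c (l 8) (l 8)) (l 3)) (b (c (l 8) (l 8)) (c (l 8) (l 8)))))) (b (c (a (b (c (l 8) (l 8)) (c (l 8) (l 8))) (b (l 16) (c (l 8) (l 8)))) (a (b (l 8) (c (l 8) (l 8))) (c (l 8) (l 8)))) (c (a (b (c (l 8) (l 8)) (c (a (l 8) (l 8)) (l 8))) (b (c (l 8) (l 8)) (c (l 8) (l 8)))) (a (b (c (l 8)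 (l 8)) (c (l 8) (l 8))) (b (c (l 8) (l 8)) (c (l 8) (l 8))))))), by decide +kernel⟩

def h30_0Am : ∃ t, chk3 f0Am t 9 3 13 = true :=
  ⟨(b (a (c (a (b (l 16) (c (l 8) (l 8))) (c (b (l 8) (l 8)) (l 16))) (a (b (l 8) (l 16)) (b (l 8) (l 16)))) (c (a (b (l 8) (l 16)) (b (l 8) (l 16))) (a (b (l 8) (l 16)) (b (l 8) (l 8))))) (a (c (a (b (c (l 8) (l 8)) (l 3)) (b (c (l 8) (l 8)) (c (l 8) (l 8)))) (a (b (c (l 8) (l 8)) (l 3)) (b (c (l 8) (l 8)) (c (l 8) (l 8))))) (c (a (b (c (l 8) (l 8)) (c (l 8) (l 8))) (b (c (l 8) (l 8)) (c (l 8) (l 8)))) (a (b (c (l 8) (l 8)) (c (l 8) (l 8))) (b (c (l 8) (l 8)) (c (l 8) (l 8))))))), by decide +kernel⟩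

def h31_0Am : ∃ t, chk3 f0Am t 8 2 7 = true :=
  ⟨(c (b (a (c (a (l 8) (l 8)) (a (l 8) (l 8))) (c (a (l 8) (l 8)) (a (l 8) (l 8)))) (a (a (l 3) (b (c (l 8) (l 8)) (l 3))) (c (a (b (l 8) (l 8)) (b (l 8) (l 8))) (a (b (l 8) (l 8)) (b (l 8) (l 8)))))) (b (a (c (a (l 8) (l 8)) (a (l 8) (b (l 8) (l 8)))) (c (a (l 8) (b (c (l 8) (l 8)) (l 8))) (b (a (c (l 8) (a (l 8) (b (l 8) (c (l 8) (l 8))))) (c (b (b (l 16) (l 16)) (a (l 8) (c (l 8) (l 8)))) (a (l 8) (l 8)))) (a (c (l 8) (l 8)) (c (l 8) (b (a (c (l 8) (l 8)) (l 8)) (a (l 8) (c (l 8) (l 8))))))))) (a (a (l 3) (b (c (l 8) (l 8)) (l 3))) (c (a (b (l 8) (l 8)) (b (l 8) (l 8))) (b (a (l 8) (c (l 8) (l 8))) (a (l 8) (l 8))))))), by decide +kernel⟩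

def h32_0Am : ∃ t, chk3 f0Am t 9 4 7 = true :=
  ⟨(c (a (c (a (l 8) (l 8)) (b (a (l 8) (c (l 8) (b (a (l 8) (l 8)) (l 8)))) (a (l 8) (l 8)))) (c (b (a (l 8) (c (l 8) (b (a (l 8) (l 8)) (a (l 8) (l 8))))) (a (l 8) (c (l 8) (l 8)))) (b (a (c (a (l 8) (b (l 8) (c (l 8) (l 8)))) (a (b (l 8) (l 8)) (l 8))) (c (l 8) (l 8))) (a (c (l 8) (a (l 8) (b (l 8) (c (l 8) (l 8))))) (c (b (a (c (l 8) (l 8)) (l 8)) (a (l 8) (c (l 8) (l 8)))) (a (l 8) (l 8))))))) (a (c (b (a (c (b (a (l 8) (c (l 8) (l 8))) (l 8)) (b (a (l 8) (l 8)) (a (l 8) (l 8)))) (c (a (b (l 8) (c (l 8) (l 8))) (l 8)) (l 8))) (a (c (l 8) (b (a (l 8) (c (l 8) (l 8))) (l 8))) (c (b (a (l 8) (c (l 8) (l 8))) (l 8)) (a (b (l 8) (c (l 8) (l 8))) (l 8))))) (b (a (c (l 8) (l 8)) (l 8)) (a (c (b (a (c (l 8) (l 8)) (l 8)) (a (l 8) (c (l 8) (l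 8)))) (l 8)) (c (l 8) (l 8))))) (c (b (l 8) (a (c (a (b (l 8) (c (l 8) (l 8))) (l 8)) (l 8)) (l 8))) (l 8)))), by decide +kernel⟩

def h33_0Am : ∃ t, chk3 f0Am t 9 5 14 = true :=
  ⟨(a (c (a (b (l 8) (l 8)) (b (l 8) (l 8))) (a (b (l 8) (l 8)) (l 8))) (c (a (l 8) (b (l 8) (l 8))) (b (a (c (l 8) (l 8)) (c (l 8) (b (a (c (l 8) (l 8)) (l 8)) (a (l 8) (c (l 8) (l 8)))))) (a (l 8) (c (l 8) (l 8)))))), by decide +kernel⟩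

def h34_0Am : ∃ t, chk3 f0Am t 9 5 15 = true :=
  ⟨(a (c (b (a (l 8) (c (l 8) (b (a (l 8) (c (l 8) (l 8))) (l 8)))) (a (l 8) (l 8))) (b (a (c (b (a (l 8) (c (l 8) (l 8))) (l 8)) (b (a (c (l 8) (l 8)) (l 8)) (a (l 8) (c (a (l 8) (l 8)) (l 8))))) (c (b (a (l 8) (l 8)) (a (c (l 8) (l 8)) (l 8))) (l 8))) (a (c (l 8) (b (a (l 8) (c (l 8) (a (l 8) (l 8)))) (l 8))) (c (b (a (l 8) (c (l 8) (l 8))) (l 8)) (b (a (c (l 8) (l 8)) (l 8)) (a (c (l 8) (a (l 8) (l 8))) (c (l 8) (l 8)))))))) (c (b (a (c (a (l 8) (b (c (l 8) (l 8)) (c (l 8) (l 8)))) (a (b (l 8) (c (l 8) (l 8))) (l 8))) (c (a (b (l 8) (l 8)) (l 8)) (l 8))) (a (c (l 8) (a (l 8) (b (c (a (l 8) (l 8)) (l 8)) (c (l 8) (a (l 8) (l 8)))))) (c (b (a (c (l 8) (l 8)) (l 8)) (a (l 8) (c (l 8) (l 8)))) (a (b (l 8) (c (l 8) (l 8))) (l 8))))) (a (b (l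 8) (c (a (b (l 8) (c (l 8) (l 8))) (l 8)) (l 8))) (l 8)))), by decide +kernel⟩

def h35_0Am : ∃ t, chk3 f0Am t 8 3 7 = true :=
  ⟨(b (a (l 3) (a (l 3) (c (c (b (l 8) (l 16)) (b (l 8) (l 16))) (c (b (l 8) (l 8)) (b (l 8) (l 8)))))) (l 3)), by decide +kernel⟩

def h36_0Am : ∃ t, chk3 f0Am t 9 3 14 = true :=
  ⟨(b (a (c (a (b (l 8) (l 16)) (b (l 8) (l 8))) (a (b (l 8) (l 8)) (b (l 8) (l 8)))) (c (a (b (l 8) (l 8)) (b (l 8) (l 8))) (a (b (l 8) (l 8)) (b (l 8) (l 8))))) (a (c (a (b (c (l 8) (l 8)) (l 3)) (b (c (l 8) (l 8)) (c (l 8) (l 8)))) (a (b (l 16) (l 3)) (b (l 16) (c (l 8) (l 8))))) (c (a (b (c (l 8) (l 8)) (c (l 8) (l 8))) (b (l 16) (c (l 8) (l 8)))) (a (b (l 16) (c (l 8) (l 8))) (c (b (l 8) (l 8)) (l 8)))))), by decide +kernel⟩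

def h37_0Am : ∃ t, chk3 f0Am t 9 3 15 = true :=
  ⟨(b (a (c (a (b (l 8) (l 8)) (b (l 8) (l 8))) (b (a (l 8) (c (l 8) (b (a (l 8) (c (l 8) (l 8))) (l 8)))) (a (l 8) (l 8)))) (c (b (a (c (l 8) (l 8)) (c (l 8) (b (a (c (l 8) (a (l 8) (l 8))) (c (l 8) (l 8))) (a (l 8) (c (l 8) (l 8)))))) (a (l 8) (c (l 8) (l 8)))) (b (a (c (a (l 8) (b (c (a (l 8) (l 8)) (l 8)) (c (l 8) (a (l 8) (l 8))))) (b (a (l 8) (l 8)) (a (c (l 8) (l 8)) (l 8)))) (c (a (b (l 8) (c (a (l 8) (l 8)) (l 8))) (l 8)) (l 8))) (a (c (l 8) (a (l 8) (b (c (a (l 8) (l 8)) (l 8)) (c (l 8) (a (l 8) (b (l 8) (l 8))))))) (c (b (a (c (l 8) (a (l 8) (l 8))) (c (a (l 8) (l 8)) (l 8))) (a (l 8) (c (l 8) (a (l 8) (l 8))))) (a (b (l 8) (c (a (l 8) (l 8)) (l 8))) (l 8))))))) (a (c (a (b (l 16) (l 3)) (c (b (l 8) (l 8)) (l 16))) (a (b (l 8)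 (l 3)) (b (l 8) (l 16)))) (c (a (c (l 16) (l 8)) (b (l 8) (l 16))) (a (b (c (l 8) (l 8)) (l 16)) (b (c (a (l 8) (l 8)) (b (a (c (l 8) (a (l 8) (l 8))) (c (a (l 8) (l 8)) (l 8))) (a (l 8) (c (l 8) (a (l 8) (l 8)))))) (c (l 8) (l 8))))))), by decide +kernel⟩

def h38_0Am : ∃ t, chk3 f0Am t 10 2 6 = true :=
  ⟨(c (b (a (c (a (l 8) (l 8)) (a (l 8) (l 8))) (c (a (l 8) (l 8)) (b (a (l 8) (l 8)) (a (l 8) (l 8))))) (a (c (a (b (l 8) (l 8)) (b (l 8) (l 8))) (a (b (l 8) (l 8)) (l 8))) (c (a (l 8) (l 8)) (a (l 8) (l 8))))) (b (a (c (b (a (l 8) (l 8)) (a (l 8) (l 8))) (b (a (c (l 8) (b (a (l 8) (l 8)) (l 8))) (c (a (l 8) (b (l 8) (l 8))) (c (l 8) (l 8)))) (a (l 8) (c (l 8) (a (l 8) (b (l 8) (l 8))))))) (c (b (a (c (l 8) (a (l 8) (l 8))) (c (a (b (l 8) (l 8)) (l 8)) (l 8))) (a (l 8) (c (l 8) (a (b (l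 8) (l 8)) (l 8))))) (b (a (c (l 8) (l 8)) (l 8)) (a (c (a (l 8) (c (l 8) (l 8))) (a (l 8) (l 8))) (c (l 8) (l 8)))))) (a (c (a (l 8) (l 8)) (a (l 8) (b (l 8) (l 8)))) (c (b (a (l 8) (c (l 8) (l 8))) (a (l 8) (l 8))) (b (a (c (l 8) (a (l 8) (b (l 8) (c (l 8) (l 8))))) (c (b (a (l 8) (l 8)) (a (l 8) (l 8))) (l 8))) (a (c (l 8) (l 8)) (c (l 8) (b (a (c (l 8) (l 8)) (l 8)) (a (l 8) (c (l 8) (l 8))))))))))), by decide +kernel⟩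

def h39_0Am : ∃ t, chk3 f0Am t 11 4 6 = true :=
  ⟨(b (c (a (c (a (l 8) (c (l 8) (a (l 8) (l 8)))) (a (c (a (l 8) (b (l 8) (l 8))) (a (l 8) (l 8))) (c (l 8) (l 8)))) (c (a (c (a (l 8) (l 8)) (l 8)) (l 10)) (l 10))) (a (c (a (l 8) (l 8)) (l 8)) (l 10))) (c (a (c (a (l 8) (l 8)) (a (c (l 8) (a (l 8) (b (l 8) (l 8)))) (c (a (l 8) (b (l 8) (l 8))) (l 8)))) (c (a (c (l 8) (a (l 8) (l 8))) (c (a (l 8) (l 8)) (l 8))) (a (c (l 8) (l 8)) (l 8)))) (a (c (a (c (a (b (l 8) (l 8)) (l 8)) (l 8)) (l 8)) (l 8)) (l 8)))), by decide +kernel⟩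

def h40_0Am : ∃ t, chk3 f0Am t 11 5 6 = true :=
  ⟨(c (a (c (a (l 8) (b (l 8) (l 8))) (b (a (l 8) (c (l 8) (a (l 8) (b (l 8) (l 8))))) (a (l 8) (l 8)))) (c (b (a (l 8) (c (l 8) (a (b (l 8) (l 8)) (l 8)))) (a (l 8) (l 8))) (b (a (c (a (l 8) (l 8)) (l 8)) (c (l 8) (l 8))) (a (c (l 8) (a (l 8) (c (l 8) (l 8)))) (c (a (b (l 8) (l 8)) (l 8)) (l 8)))))) (a (c (b (a (c (a (l 8) (b (l 8) (l 8))) (a (b (l 8) (l 8)) (l 8))) (c (c (l 8) (l 8)) (l 8))) (a (c (l 8) (a (l 8) (b (c (l 8) (l 8)) (l 8)))) (c (a (l 8) (b (l 8) (l 8))) (a (b (l 8) (c (l 8) (l 8))) (l 8))))) (b (a (c (l 8) (l 8)) (l 8)) (a (c (a (b (l 8) (l 8)) (l 8)) (l 8)) (l 8)))) (c (a (b (l 8) (c (a (l 8) (l 8)) (l 8))) (l 8)) (l 8)))), by decide +kernel⟩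

def h41_0Am : ∃ t, chk3 f0Am t 10 3 6 = true :=
  ⟨(c (a (b (c (a (c (b (l 8) (l 8)) (l 8)) (c (l 8) (l 8))) (a (b (l 8) (l 16)) (b (l 8) (l 8)))) (c (a (b (c (l 8) (l 8)) (c (l 8) (l 8))) (b (c (l 8) (l 8)) (c (l 8) (l 8)))) (a (b (c (l 8) (l 8)) (c (l 8) (l 8))) (b (c (l 8) (l 8)) (c (l 8) (l 8)))))) (b (c (a (b (l 8) (l 8)) (b (l 8) (l 8))) (a (b (l 8) (l 8)) (b (l 8) (l 8)))) (c (a (b (c (l 8) (l 8)) (c (l 8) (l 8))) (b (c (l 8) (l 8)) (c (l 8) (l 8)))) (a (b (c (l 8) (l 8)) (c (l 8) (l 8))) (c (b (l 8) (l 8)) (l 8)))))) (b (a (c (a (b (l 8) (l 8)) (b (l 8) (l 8))) (a (b (l 8) (l 8)) (b (l 8) (l 8)))) (c (a (b (l 8) (l 8)) (b (l 8) (l 8))) (a (b (l 8) (l 8)) (b (c (l 8) (l 8)) (l 8))))) (a (c (a (b (c (l 8) (l 8)) (c (l 8) (l 8))) (b (c (l 8) (l 8)) (c (l 8) (l 8)))) (a (b (l 16) (c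 (l 8) (l 8))) (c (b (l 8) (l 8)) (l 8)))) (c (a (c (b (l 8) (l 8)) (l 8)) (c (l 8) (l 8))) (a (b (l 8) (l 16)) (b (l 8) (l 8))))))), by decide +kernel⟩

def h42_0Am : ∃ t, chk3 f0Am t 11 3 12 = true :=
  ⟨(b (a (c (a (b (l 8) (l 8)) (l 8)) (a (l 8) (b (l 8) (l 8)))) (c (a (l 8) (b (l 8) (l 8))) (b (a (l 8) (c (l 8) (a (b (l 8) (l 8)) (b (l 8) (l 8))))) (a (l 8) (c (l 8) (l 8)))))) (a (c (a (c (b (l 8) (l 8)) (l 8)) (c (l 8) (l 8))) (a (c (l 8) (l 8)) (b (l 8) (l 8)))) (c (a (b (l 8) (l 8)) (b (l 8) (l 8))) (a (b (l 8) (l 8)) (b (l 8) (l 8)))))), by decide +kernel⟩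

def h43_0Am : ∃ t, chk3 f0Am t 11 6 13 = true :=
  ⟨(a (c (b (a (l 8) (c (l 8) (a (l 8) (b (c (l 8) (l 8)) (l 8))))) (a (l 8) (l 8))) (b (a (c (a (l 8) (b (c (l 8) (l 8)) (l 8))) (b (a (c (l 8) (l 8)) (l 8)) (a (l 8) (l 8)))) (c (a (b (l 8) (c (l 8) (l 8))) (l 8)) (l 8))) (a (c (l 8) (a (l 8) (b (c (l 8) (l 8)) (l 8)))) (c (a (l 8) (b (c (l 8) (l 8)) (l 8))) (a (b (l 8) (c (l 8) (l 8))) (l 8)))))) (c (b (a (c (a (l 8) (b (l 8) (c (l 8) (l 8)))) (a (b (l 8) (l 8)) (l 8))) (c (l 8) (l 8))) (a (c (l 8) (a (l 8) (b (l 8) (c (l 8) (l 8))))) (c (a (b (c (l 8) (l 8)) (l 8)) (b (l 8) (c (l 8) (l 8)))) (a (l 8) (l 8))))) (a (b (l 8) (c (a (b (l 8) (c (l 8) (l 8))) (l 8)) (l 8))) (l 8)))), by decide +kernel⟩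

def h44_0Am : ∃ t, chk3 f0Am t 11 7 13 = true :=
  ⟨(a (c (a (b (l 8) (l 8)) (b (l 8) (l 8))) (b (a (l 8) (c (l 8) (a (l 8) (b (c (l 8) (l 8)) (l 8))))) (a (l 8) (c (l 8) (l 8))))) (c (a (b (c (l 8) (l 8)) (l 8)) (b (c (l 8) (a (b (c (l 8) (l 8)) (l 8)) (b (l 8) (c (l 8) (l 8))))) (c (l 8) (l 8)))) (b (a (c (a (l 8) (b (c (l 8) (l 8)) (c (l 8) (l 8)))) (a (b (l 8) (c (l 8) (l 8))) (l 8))) (c (a (c (l 8) (l 8)) (l 8)) (l 8))) (a (c (l 8) (a (l 8) (b (c (a (l 8) (l 8)) (l 8)) (c (l 8) (a (l 8) (l 8)))))) (c (a (b (c (l 8) (l 8)) (l 8)) (b (l 8) (c (l 8) (l 8)))) (a (b (l 8) (c (a (l 8) (l 8)) (l 8))) (l 8))))))), by decide +kernel⟩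

def h45_0Am : ∃ t, chk3 f0Am t 10 2 7 = true :=
  ⟨(c (b (a (c (b (a (c (a (b (l 8) (l 8)) (l 8)) (l 8)) (l 8)) (a (c (b (a (l 8) (c (l 8) (l 8))) (l 8)) (a (b (l 8) (l 8)) (l 8))) (c (a (b (l 8) (c (l 8) (l 8))) (l 8)) (l 8)))) (a (b (l 8) (c (l 8) (l 8))) (l 8))) (c (a (l 8) (l 8)) (l 8))) (a (c (b (a (c (l 8) (b (a (l 8) (c (l 8) (l 8))) (l 8))) (c (a (l 8) (b (c (l 8) (l 8)) (l 8))) (a (b (l 8) (c (l 8) (l 8))) (l 8)))) (a (l 8) (c (l 8) (a (l 8) (b (c (l 8) (l 8)) (l 8)))))) (b (a (c (b (c (l 8) (l 8)) (a (l 8) (l 8))) (l 8)) (l 8)) (a (c (b (a (l 8) (c (l 8) (l 8))) (l 8)) (b (a (c (l 8) (l 8)) (l 8)) (a (l 8) (c (l 8) (l 8))))) (c (a (b (l 8) (c (l 8) (l 8))) (l 8)) (l 8))))) (c (b (a (c (a (b (l 8) (l 8)) (l 8)) (l 8)) (l 8)) (a (c (a (l 8) (b (l 8) (c (l 8) (l 8)))) (a (b (l 8)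 (c (l 8) (l 8))) (l 8))) (c (a (l 8) (l 8)) (l 8)))) (a (b (l 8) (l 8)) (l 8))))) (b (a (l 8) (l 8)) (a (c (a (b (l 8) (c (a (l 8) (l 8)) (l 8))) (l 8)) (l 8)) (l 8)))), by decide +kernel⟩

def h46_0Am : ∃ t, chk3 f0Am t 11 2 7 = true :=
  ⟨(b (b (c (a (l 8) (l 10)) (l 10)) (c (a (l 8) (l 8)) (l 8))) (c (a (c (l 8) (l 8)) (l 8)) (a (l 8) (l 8)))), by decide +kernel⟩

def h47_0Am : ∃ t, chk3 f0Am t 10 6 14 = true :=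
  ⟨(a (c (a (b (l 8) (l 8)) (b (c (l 8) (l 8)) (l 8))) (b (a (c (l 8) (a (l 8) (b (c (l 8) (a (l 8) (l 8))) (l 8)))) (c (a (l 8) (b (c (l 8) (l 8)) (l 8))) (b (a (c (l 8) (l 8)) (l 8)) (a (c (l 8) (l 8)) (l 8))))) (a (l 8) (c (l 8) (a (l 8) (b (c (l 8) (l 8)) (l 8))))))) (c (b (a (c (l 8) (a (l 8) (b (c (l 8) (l 8)) (c (l 8) (l 8))))) (c (b (a (c (l 8) (l 8)) (l 8)) (a (l 8) (c (l 8) (l 8)))) (a (b (l 8) (l 8)) (l 8)))) (a (c (l 8) (l 8)) (c (l 8) (b (a (c (l 8) (l 8)) (l 8)) (a (l 8) (c (l 8) (l 8))))))) (b (a (c (a (b (l 8) (c (l 8) (l 8))) (l 8)) (l 8)) (l 8)) (a (c (a (l 8) (b (c (a (l 8) (l 8)) (l 8)) (c (l 8) (a (l 8) (l 8))))) (a (b (l 8) (c (l 8) (l 8))) (l 8))) (c (a (b (l 8) (c (l 8) (l 8))) (l 8)) (l 8)))))), by decide +kernel⟩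

def h48_0Am : ∃ t, chk3 f0Am t 10 7 14 = true :=
  ⟨(a (c (a (c (b (l 8) (l 8)) (l 8)) (b (l 8) (l 16))) (a (b (l 8) (l 16)) (b (l 8) (l 8)))) (c (a (b (l 8) (l 8)) (b (c (l 8) (l 8)) (l 8))) (b (a (c (l 8) (a (l 8) (b (c (a (l 8) (l 8)) (l 8)) (c (l 8) (a (l 8) (l 8)))))) (c (b (a (c (l 8) (a (l 8) (l 8))) (c (l 8) (l 8))) (a (l 8) (c (l 8) (a (l 8) (l 8))))) (a (b (l 8) (c (a (l 8) (l 8)) (l 8))) (l 8)))) (a (c (l 8) (l 8)) (c (a (l 8) (l 8)) (b (a (c (l 8) (a (l 8) (l 8))) (c (a (l 8) (l 8)) (l 8))) (a (l 8) (c (l 8) (a (l 8) (l 8)))))))))), by decide +kernel⟩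

def h49_0Am : ∃ t, chk3 f0Am t 10 6 15 = true :=
  ⟨(a (c (b (a (c (b (a (c (l 8) (l 8)) (l 8)) (a (l 8) (c (a (l 8) (l 8)) (l 8)))) (a (b (l 8) (l 8)) (l 8))) (c (l 8) (l 8))) (a (c (a (l 8) (b (c (l 8) (a (l 8) (l 8))) (l 8))) (b (a (c (l 8) (l 8)) (l 8)) (a (l 8) (c (a (l 8) (l 8)) (l 8))))) (c (b (a (c (a (l 8) (l 8)) (l 8)) (l 8)) (a (c (l 8) (a (l 8) (l 8))) (c (l 8) (l 8)))) (a (l 8) (l 8))))) (a (b (l 8) (c (a (b (l 8) (c (l 8) (l 8))) (l 8)) (l 8))) (l 8))) (c (a (c (l 8) (l 8)) (l 8)) (l 8))), by decide +kernel⟩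

def h50_0Am : ∃ t, chk3 f0Am t 20 7 15 = true :=
  ⟨(c (b (a (c (l 8) (a (l 8) (b (c (l 8) (a (l 8) (l 8))) (l 8)))) (c (a (l 8) (b (c (l 8) (a (l 8) (l 8))) (l 8))) (a (b (c (a (l 8) (l 8)) (l 8)) (c (l 8) (a (l 8) (l 8)))) (b (l 8) (c (a (l 8) (l 8)) (l 8)))))) (a (c (l 8) (l 8)) (c (l 8) (a (l 8) (b (c (l 8) (a (l 8) (l 8))) (l 8)))))) (b (a (c (b (a (c (l 8) (a (l 8) (l 8))) (c (l 8) (l 8))) (a (l 8) (c (a (l 8) (b (l 8) (l 8))) (l 8)))) (a (b (l 8) (c (a (b (l 8) (l 8)) (l 8)) (l 8))) (l 8))) (c (a (b (l 8) (l 8)) (l 8)) (l 8))) (a (c (a (l 8) (b (c (l 8) (a (l 8) (b (l 8) (l 8)))) (l 8))) (b (a (c (l 8) (a (b (l 8) (l 8)) (l 8))) (c (a (l 8) (l 8)) (l 8))) (a (l 8) (c (a (l 8) (b (l 8) (l 8))) (a (b (l 8) (l 8)) (l 8)))))) (c (a (b (c (a (l 8) (l 8)) (l 8)) (c (l 8) (a (l 8) (b (l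 8) (l 8))))) (b (l 8) (c (a (l 8) (l 8)) (l 8)))) (a (b (l 8) (c (l 8) (l 8))) (l 8)))))), by decide +kernel⟩

def h51_0Am : ∃ t, chk3 f0Am t 21 7 15 = true :=
  ⟨(c (b (a (c (a (b (c (l 8) (l 8)) (c (l 8) (l 8))) (b (l 8) (l 8))) (l 8)) (l 8)) (a (c (a (l 8) (b (c (a (l 8) (b (l 8) (l 8))) (l 8)) (c (l 8) (a (l 8) (b (l 8) (l 8)))))) (a (b (c (a (b (l 8) (l 8)) (l 8)) (l 8)) (c (l 8) (a (b (l 8) (l 8)) (l 8)))) (b (l 8) (c (l 8) (l 8))))) (c (a (b (l 8) (c (a (l 8) (l 8)) (l 8))) (l 8)) (l 8)))) (a (b (l 8) (c (l 8) (l 8))) (l 8))), by decide +kernel⟩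

def h52_0Am : ∃ t, chk3 f0Am t 11 3 7 = true :=
  ⟨(b (c (a (c (b (a (c (l 8) (l 8)) (l 8)) (a (c (b (a (c (l 8) (l 8)) (l 8)) (a (l 8) (c (l 8) (l 8)))) (a (l 8) (l 8))) (c (l 8) (l 8)))) (l 8)) (l 8)) (a (l 8) (l 8))) (c (a (c (b (a (c (a (l 8) (b (c (l 8) (a (l 8) (l 8))) (l 8))) (a (b (c (l 8) (l 8)) (l 8)) (b (l 8) (c (a (l 8) (l 8)) (l 8))))) (c (a (b (c (l 8) (l 8)) (c (l 8) (a (l 8) (l 8)))) (c (l 8) (l 8))) (l 8))) (a (c (l 8) (a (l 8) (b (c (l 8) (a (l 8) (l 8))) (l 8)))) (c (a (l 8) (b (c (l 8) (l 8)) (l 8))) (a (b (c (a (l 8) (l 8)) (l 8)) (c (l 8) (a (l 8) (l 8)))) (b (l 8) (c (a (l 8) (l 8)) (l 8))))))) (a (b (c (a (c (l 8) (l 8)) (l 8)) (l 8)) (c (a (b (c (l 8) (l 8)) (l 8)) (b (l 8) (c (a (l 8) (l 8)) (l 8)))) (a (b (l 8) (c (a (l 8) (l 8)) (l 8))) (l 8)))) (b (l 8) (c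 (a (l 8) (l 8)) (l 8))))) (c (a (b (l 8) (c (a (b (l 8) (c (l 8) (l 8))) (l 8)) (l 8))) (l 8)) (l 8))) (a (c (l 8) (l 8)) (l 8)))), by decide +kernel⟩

def h53_0Am : ∃ t, chk3 f0Am t 6 2 4 = true :=
  ⟨(a (c (b (a (c (b (a (l 10) (l 2)) (a (l 10) (l 2))) (b (a (l 10) (l 2)) (a (l 10) (l 2)))) (c (a (b (l 2) (l 2)) (l 4)) (a (b (l 2) (l 2)) (l 4)))) (a (c (a (b (c (l 10) (l 10)) (c (l 10) (l 10))) (b (c (l 2) (l 2)) (c (l 2) (l 2)))) (a (b (l 10) (c (l 10) (l 10))) (b (l 2) (c (l 2) (l 2))))) (c (a (b (l 4) (l 4)) (l 4)) (a (b (l 2) (l 4)) (l 4))))) (b (a (c (a (l 10) (l 2)) (a (l 10) (l 2))) (c (a (b (l 2) (l 2)) (l 4)) (a (b (l 2) (l 2)) (b (l 2) (l 2))))) (a (c (a (b (l 10) (l 10)) (b (l 2) (l 2))) (a (b (l 10) (l 10)) (b (l 2) (l 2)))) (c (a (b (l 2) (l 2)) (l 4)) (a (b (l 2) (l 2))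 (b (l 2) (l 2))))))) (c (b (a (c (l 4) (l 4)) (l 4)) (a (c (a (l 4) (l 4)) (a (l 4) (l 4))) (c (l 4) (l 4)))) (b (a (c (l 4) (b (l 4) (l 4))) (c (l 4) (l 4))) (a (c (a (l 4) (l 4)) (a (l 4) (l 4))) (c (l 4) (a (l 4) (l 4))))))), by decide +kernel⟩

def h54_0Am : ∃ t, chk3 f0Am t 24 3 8 = true :=
  ⟨(b (c (a (b (c (a (l 10) (l 2)) (a (l 10) (l 2))) (c (a (l 10) (l 4)) (a (l 10) (l 2)))) (b (c (a (l 2) (l 2)) (l 4)) (c (a (l 4) (l 4)) (a (l 2) (l 2))))) (a (b (c (l 10) (l 10)) (c (a (l 10) (l 2)) (a (l 10) (l 2)))) (b (c (l 2) (l 2)) (c (a (l 2) (l 2)) (l 4))))) (c (b (a (c (a (b (l 10) (l 10)) (b (l 2) (l 10))) (a (b (l 10) (l 10)) (b (l 10) (l 10)))) (c (a (b (l 2) (l 4)) (l 4)) (a (b (l 2) (l 2)) (l 4)))) (a (c (b (a (c (l 10) (l 8)) (c (l 10) (l 10))) (a (l 8) (c (l 12) (l 12)))) (b (a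 (l 8) (l 10)) (a (l 8) (c (l 12) (l 10))))) (c (b (a (l 4) (l 4)) (a (c (l 4) (l 4)) (c (l 4) (l 4)))) (a (b (l 4) (c (l 4) (l 4))) (b (l 4) (l 4)))))) (b (a (c (a (b (l 10) (l 10)) (b (l 10) (l 10))) (a (l 10) (l 10))) (c (a (l 4) (l 4)) (a (l 2) (l 4)))) (a (c (a (b (l 8) (l 8)) (b (l 10) (c (l 10) (l 10)))) (a (l 8) (b (l 10) (l 10)))) (c (a (b (l 2) (l 4)) (b (l 4) (l 4))) (a (b (l 2) (l 2)) (l 4))))))), by decide +kernel⟩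

def h55_0Am : ∃ t, chk3 f0Am t 25 3 8 = true :=
  ⟨(b (c (a (b (c (l 4) (l 4)) (c (l 4) (l 4))) (b (l 4) (c (l 4) (l 4)))) (a (b (l 4) (c (l 4) (l 4))) (b (l 4) (l 4)))) (c (a (b (c (a (l 4) (l 4)) (a (l 4) (l 4))) (c (a (b (l 4) (l 4)) (l 4)) (a (b (l 4) (l 4)) (l 4)))) (b (c (l 4) (l 4)) (c (a (l 4) (l 4)) (l 4)))) (a (b (c (a (l 4) (l 4)) (l 4)) (c (a (l 4) (l 4)) (a (l 4) (l 4)))) (b (c (l 4) (l 4)) (c (l 4) (l 4)))))), by decide +kernel⟩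

def h56_0Am : ∃ t, chk3 f0Am t 12 3 9 = true :=
  ⟨(b (a (c (a (b (c (l 10) (l 10)) (c (l 10) (l 10))) (b (c (l 2) (l 2)) (c (l 2) (l 2)))) (a (b (c (l 10) (l 10)) (c (l 10) (l 10))) (b (l 2) (c (l 2) (l 2))))) (c (a (b (l 4) (c (l 4) (l 2))) (b (l 4) (l 4))) (a (b (l 2) (l 4)) (b (l 2) (l 4))))) (a (c (a (b (c (a (l 10) (l 10)) (a (l 10) (l 10))) (c (a (l 8) (b (l 10) (l 10))) (a (l 8) (l 10)))) (b (c (a (l 2) (l 2)) (a (l 2) (l 2))) (c (a (l 4) (l 4)) (a (l 4) (l 4))))) (a (b (c (l 10) (l 10)) (c (a (l 8) (l 10)) (a (l 8) (l 10)))) (b (c (l 4) (l 2)) (c (a (l 2) (l 2)) (a (l 2) (l 2)))))) (c (a (b (c (l 4) (l 4)) (c (a (l 4) (l 4)) (a (l 4) (l 4)))) (b (l 4) (c (l 4) (l 4)))) (a (b (c (l 4) (l 2)) (c (l 4) (l 4))) (b (l 4) (c (l 4) (l 4))))))), by decide +kernel⟩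

def h57_0Am : ∃ t, chk3 f0Am t 13 3 4 = true :=
  ⟨(c (b (a (c (a (b (l 4) (l 4)) (l 4)) (a (l 4) (l 4))) (c (l 4) (l 4))) (a (c (a (b (l 4) (c (l 4) (l 4))) (b (l 4) (l 4))) (a (b (l 4) (c (l 4) (l 4))) (b (l 4) (l 4)))) (c (a (l 4) (l 4)) (a (l 4) (l 4))))) (b (a (c (a (l 4) (l 4)) (a (l 4) (l 4))) (c (l 4) (a (l 4) (l 4)))) (a (c (a (b (l 4) (l 4)) (l 4)) (a (b (l 4) (l 4)) (l 4))) (c (a (l 4) (l 4)) (a (l 4) (l 4)))))), by decide +kernel⟩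

def h58_0Am : ∃ t, chk3 f0Am t 12 4 5 = true :=
  ⟨(c (a (b (c (l 10) (a (l 10) (l 2))) (c (a (l 10) (l 2)) (a (l 10) (l 2)))) (c (b (a (l 2) (l 4)) (a (l 2) (l 2))) (b (a (c (l 2) (a (l 2) (l 4))) (l 4)) (a (l 2) (c (l 2) (l 4)))))) (a (b (c (a (b (c (l 10) (l 10)) (l 10)) (c (a (l 2) (l 2)) (l 2))) (a (c (l 10) (l 10)) (l 2))) (c (a (l 10) (c (l 2) (b (a (l 2) (l 2)) (l 2)))) (a (b (c (a (l 10) (l 2)) (l 10)) (c (l 10) (a (l 10) (l 2)))) (c (a (l 2) (l 2)) (l 2))))) (c (b (a (c (l 2) (l 2)) (l 4)) (a (b (l 4) (c (a (l 2) (l 4)) (l 2))) (l 4))) (b (l 2) (a (l 2) (l 2)))))), by decide +kernel⟩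

def h59_0Am : ∃ t, chk3 f0Am t 12 5 5 = true :=
  ⟨(c (a (c (a (b (l 10) (l 10)) (l 2)) (a (l 10) (b (l 2) (l 2)))) (c (a (b (l 2) (l 2)) (b (l 2) (l 2))) (b (a (l 2) (l 4)) (a (l 2) (l 2))))) (a (c (b (a (l 10) (l 2)) (a (l 10) (l 2))) (b (a (c (l 10) (b (a (l 10) (l 2)) (l 10))) (c (b (a (l 2) (l 2)) (l 2)) (b (l 2) (a (l 2) (l 2))))) (a (l 10) (c (l 2) (b (a (l 2) (c (l 2) (l 2))) (l 2)))))) (c (b (a (c (l 2) (a (l 2) (l 4))) (c (a (l 4) (l 4)) (l 4))) (a (c (l 2) (l 2)) (c (l 4) (b (l 4) (a (l 2) (l 4)))))) (b (a (c (a (l 2) (l 2)) (l 2)) (l 4)) (a (c (a (l 2) (b (l 4) (l 4))) (b (l 2) (a (l 4) (l 2)))) (c (l 4) (l 2))))))), by decide +kernel⟩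

def h60_0Am : ∃ t, chk3 f0Am t 13 2 5 = true :=
  ⟨(b (c (a (b (l 4) (c (a (l 4) (l 4)) (l 4))) (l 4)) (a (c (l 4) (l 4)) (l 4))) (c (a (b (c (a (l 4) (l 4)) (a (c (l 4) (l 4)) (l 4))) (c (l 4) (a (c (l 2) (a (l 2) (l 4))) (c (l 4) (l 4))))) (c (b (l 4) (a (l 4) (l 4))) (l 4))) (a (c (b (l 4) (a (c (l 4) (l 4)) (l 4))) (l 4)) (l 4)))), by decide +kernel⟩

def h61_0Am : ∃ t, chk3 f0Am t 12 3 10 = true :=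
  ⟨(b (a (c (a (b (l 10) (c (l 10) (l 10))) (c (l 2) (l 2))) (a (b (l 10) (l 10)) (b (l 2) (l 2)))) (c (a (b (l 2) (l 4)) (l 4)) (a (b (l 2) (l 2)) (b (l 2) (l 2))))) (a (c (a (b (c (l 10) (l 10)) (c (a (l 8) (l 10)) (l 10))) (b (c (l 2) (l 2)) (c (a (l 2) (l 2)) (l 2)))) (a (b (c (l 10) (l 10)) (c (l 10) (l 10))) (b (c (l 2) (l 2)) (c (l 2) (l 2))))) (c (a (b (c (l 2) (l 2)) (c (l 4) (l 2))) (b (l 4) (l 4))) (a (b (l 4) (c (l 2) (l 2))) (b (l 4) (l 4)))))), by decide +kernel⟩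

def h62_0Am : ∃ t, chk3 f0Am t 12 3 11 = true :=
  ⟨(b (a (c (a (b (l 10) (l 10)) (b (l 2) (l 2))) (b (a (l 10) (c (l 2) (l 2))) (a (l 10) (l 2)))) (c (b (a (l 2) (c (l 2) (l 4))) (a (l 2) (l 4))) (b (a (c (l 2) (a (l 2) (b (l 4) (c (l 2) (l 4))))) (c (b (a (l 4) (l 4)) (a (l 2) (l 4))) (a (l 4) (l 4)))) (a (c (l 2) (l 2)) (c (l 4) (b (a (c (l 2) (l 4)) (l 4)) (a (l 2) (c (l 2) (l 4))))))))) (a (c (a (b (l 10) (c (l 10) (l 10))) (b (l 2) (c (l 2) (l 2)))) (a (b (l 10) (c (l 10) (l 10))) (c (l 2) (l 2)))) (c (a (b (l 2) (l 4)) (b (l 4) (l 4))) (a (b (c (l 2) (l 2)) (l 4)) (b (c (l 2) (l 4)) (c (l 2) (l 2))))))), by decide +kernel⟩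

def h63_0Am : ∃ t, chk3 f0Am t 13 3 10 = true :=
  ⟨(b (a (c (a (l 4) (l 4)) (b (a (l 4) (c (l 4) (a (l 2) (l 4)))) (a (l 4) (l 4)))) (c (a (l 4) (b (l 4) (l 4))) (b (a (l 4) (l 4)) (a (c (l 4) (a (l 4) (l 4))) (l 4))))) (a (c (a (b (l 4) (l 4)) (b (l 4) (l 4))) (a (b (l 4) (l 4)) (b (l 4) (l 4)))) (c (a (l 4) (l 4)) (b (a (l 4) (c (l 4) (l 4))) (a (l 4) (l 4)))))), by decide +kernel⟩

def h64_0Am : ∃ t, chk3 f0Am t 13 3 11 = true :=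
  ⟨(b (a (c (b (a (c (a (l 2) (b (l 4) (l 2))) (b (l 4) (l 4))) (l 4)) (a (c (l 2) (b (a (l 2) (l 4)) (l 2))) (c (a (l 2) (l 4)) (a (l 4) (l 4))))) (a (b (l 4) (c (b (l 4) (a (l 2) (l 4))) (l 4))) (b (l 4) (l 4)))) (c (b (l 4) (a (l 4) (l 4))) (l 4))) (a (c (b (a (l 4) (c (l 4) (a (l 2) (b (l 4) (l 2))))) (a (l 4) (l 4))) (b (a (c (b (a (l 2) (c (l 2) (l 4))) (l 2)) (a (b (c (l 2) (l 4)) (l 2)) (b (l 4) (l 4)))) (c (b (l 4) (a (c (l 2) (l 4)) (l 4))) (l 4))) (a (c (l 2) (b (a (l 2) (c (l 2) (l 4))) (l 2))) (c (a (l 4) (b (l 4) (l 4))) (b (l 4) (a (c (l 2) (l 4)) (l 4))))))) (c (b (a (c (a (l 4) (l 4)) (l 4)) (l 4)) (a (c (l 4) (a (l 4) (b (l 4) (l 4)))) (c (b (l 4) (a (l 4) (l 4))) (l 4)))) (b (l 4) (a (c (b (l 4) (l 4)) (l 4)) (l 4)))))), by decide +kernel⟩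

def h65_0Am : ∃ t, chk3 f0Am t 7 1 2 = true :=
  ⟨(c (b (a (b (c (a (l 4) (l 4)) (l 4)) (c (a (l 4) (c (l 4) (l 4))) (a (c (a (l 4) (l 4)) (l 4)) (l 4)))) (c (a (l 4) (l 4)) (l 4))) (a (c (b (a (c (l 4) (l 4)) (c (l 4) (l 4))) (a (c (l 4) (l 4)) (c (l 4) (l 4)))) (b (a (c (l 4) (b (l 4) (a (l 4) (l 4)))) (c (a (l 4) (l 4)) (l 4))) (a (c (l 4) (a (l 4) (l 4))) (c (a (l 4) (l 4)) (b (l 4) (a (l 4) (l 4))))))) (c (b (a (c (l 4) (l 4)) (l 4)) (a (c (l 4) (a (l 4) (l 4))) (c (a (l 4) (l 4)) (l 4)))) (b (a (l 4) (l 4)) (a (c (a (l 4) (l 4)) (l 4)) (l 4)))))) (b (a (c (a (b (l 4) (l 4)) (l 4)) (a (l 4) (l 4))) (c (l 4) (l 4))) (a (c (b (a (c (b (l 4) (a (l 4) (l 4))) (l 4)) (l 4)) (a (c (b (a (c (l 4) (l 4)) (l 4)) (a (l 4) (c (l 4) (l 4)))) (a (b (l 4) (c (a (l 4) (l 4)) (l 4))) (l 4))) (c (a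 (l 4) (l 4)) (l 4)))) (a (b (l 4) (c (a (l 4) (l 4)) (l 4))) (l 4))) (c (a (l 4) (l 4)) (a (l 4) (l 4)))))), by decide +kernel⟩

def h66_0Am : ∃ t, chk3 f0Am t 6 2 6 = true :=
  ⟨(a (c (b (a (c (b (l 10) (a (l 10) (l 2))) (l 10)) (c (l 2) (l 2))) (a (c (b (a (c (b (l 10) (a (l 10) (l 2))) (l 10)) (l 2)) (a (c (b (a (l 10) (c (l 2) (l 2))) (l 10)) (b (a (l 10) (l 2)) (a (l 10) (l 2)))) (c (b (l 2) (a (c (l 2) (l 2)) (l 2))) (l 2)))) (b (l 10) (a (c (l 10) (l 10)) (l 2)))) (c (b (l 2) (a (l 2) (l 2))) (l 2)))) (b (a (l 10) (c (l 2) (l 2))) (a (c (l 10) (l 10)) (c (l 2) (l 2))))) (c (a (b (l 4) (c (l 4) (l 2))) (b (l 4) (l 4))) (a (b (l 4) (l 4)) (b (l 4) (l 4))))), by decide +kernel⟩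

def h67_0Am : ∃ t, chk3 f0Am t 12 6 12 = true :=
  ⟨(a (c (b (a (c (l 10) (b (a (l 10) (c (l 2) (l 2))) (l 10))) (c (b (a (l 2) (c (l 2) (l 2))) (l 2)) (b (a (l 2) (l 2)) (a (c (l 2) (l 2)) (l 2))))) (a (c (l 10) (l 10)) (c (l 2) (b (a (l 2) (c (l 2) (l 2))) (l 2))))) (b (a (c (b (a (c (l 10) (l 10)) (l 2)) (a (l 10) (c (l 10) (l 2)))) (a (l 10) (l 10))) (c (l 2) (l 2))) (a (c (b (a (l 10) (c (l 10) (a (l 10) (l 2)))) (l 10)) (b (a (c (l 10) (l 10)) (l 10)) (a (l 10) (c (a (l 10) (l 2)) (l 10))))) (c (b (a (c (a (l 2) (l 2)) (l 2)) (l 2)) (a (c (l 2) (a (l 2) (l 2))) (c (a (l 2) (l 2)) (l 2)))) (a (l 2) (l 2)))))) (c (b (a (c (b (l 2) (a (c (l 2) (l 2)) (l 2))) (l 2)) (l 4)) (a (c (a (l 2) (b (c (l 4) (l 2)) (c (l 2) (a (l 2) (l 2))))) (a (b (l 4) (c (l 2) (l 2))) (l 4))) (c (b (l 4) (a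 (l 4) (l 4))) (l 2)))) (b (l 2) (a (c (l 2) (l 2)) (l 2))))), by decide +kernel⟩

def h68_0Am : ∃ t, chk3 f0Am t 24 7 12 = true :=
  ⟨(c (a (b (l 10) (l 10)) (b (c (l 2) (l 2)) (l 2))) (b (a (c (l 10) (b (a (l 8) (c (l 10) (a (l 10) (l 2)))) (l 10))) (c (b (a (l 2) (c (l 2) (a (l 2) (l 2)))) (l 2)) (b (a (c (a (l 2) (l 2)) (l 2)) (l 2)) (a (c (l 2) (a (l 2) (b (l 2) (l 2)))) (c (a (l 2) (l 2)) (l 2)))))) (a (c (l 10) (l 10)) (c (l 2) (b (a (l 2) (c (l 2) (a (l 2) (l 4)))) (l 2)))))), by decide +kernel⟩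

def h69_0Am : ∃ t, chk3 f0Am t 25 7 12 = true :=
  ⟨(c (b (a (c (l 2) (a (l 2) (b (c (a (l 2) (l 4)) (l 2)) (c (l 2) (a (l 2) (l 4)))))) (c (b (a (c (l 2) (l 4)) (l 4)) (a (l 2) (c (l 2) (l 4)))) (b (l 4) (a (c (a (l 2) (l 4)) (l 2)) (l 4))))) (a (c (l 2) (l 2)) (c (a (l 2) (l 2)) (b (a (c (l 2) (a (l 2) (l 4))) (c (l 4) (l 2))) (a (l 2) (c (l 2) (a (l 2) (l 4)))))))) (b (a (c (b (a (c (l 4) (l 2)) (l 2)) (a (c (l 2) (b (l 2) (l 4))) (l 4))) (a (l 2) (l 2))) (l 4)) (a (c (a (b (l 2) (l 2)) (b (c (a (l 2) (b (l 2) (l 2))) (l 4)) (c (l 2) (a (l 2) (b (l 4) (l 2)))))) (b (a (c (b (l 2) (a (l 2) (l 2))) (l 2)) (l 2)) (a (c (l 2) (b (l 4) (a (l 2) (l 2)))) (c (b (l 2) (l 4)) (l 2))))) (c (a (b (l 4) (c (a (l 2) (l 4)) (l 4))) (l 4)) (l 2))))), by decide +kernel⟩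

def h70_0Am : ∃ t, chk3 f0Am t 12 3 13 = true :=
  ⟨(b (a (c (b (l 10) (a (c (b (l 10) (a (c (l 10) (l 10)) (l 10))) (l 10)) (l 2))) (l 10)) (c (l 2) (l 2))) (a (c (b (a (a (c (b (c (l 8) (l 8)) (l 8)) (l 8)) (c (b (c (l 10) (l 10)) (c (b (a (l 10) (l 2)) (l 10)) (l 10))) (l 10))) (c (b (l 2) (a (c (l 2) (l 2)) (l 2))) (l 2))) (a (a (c (l 8) (b (c (l 8) (l 8)) (l 8))) (c (b (c (l 10) (b (a (l 10) (l 2)) (l 10))) (l 10)) (b (c (b (l 10) (a (l 10) (l 10))) (l 10)) (c (b (a (l 10) (l 10)) (l 10)) (b (l 10) (a (l 10) (l 10))))))) (c (b (a (c (a (l 2) (b (l 2) (l 2))) (l 2)) (l 2)) (a (c (l 2) (a (l 2) (b (l 2) (l 2)))) (c (a (l 2) (b (l 2) (l 4))) (l 2)))) (b (l 2) (a (c (b (l 2) (a (l 2) (l 2))) (l 2)) (l 2)))))) (b (l 10) (a (c (a (l 8) (l 10)) (l 10)) (l 2)))) (c (b (l 2) (a (c (b (l 2)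 (a (l 2) (l 2))) (l 2)) (l 2))) (l 2)))), by decide +kernel⟩

def h71_0Am : ∃ t, chk3 f0Am t 13 3 6 = true :=
  ⟨(c (a (b (c (a (l 4) (l 2)) (l 4)) (c (a (b (c (a (l 4) (l 4)) (l 2)) (c (b (a (c (l 2) (l 4)) (l 4)) (a (l 2) (c (a (l 2) (l 4)) (l 4)))) (b (l 4) (a (c (l 4) (l 4)) (l 4))))) (b (l 2) (c (l 4) (l 2)))) (a (l 4) (l 2)))) (b (l 4) (c (l 4) (l 4)))) (a (b (c (l 2) (l 2)) (c (l 4) (l 2))) (b (l 4) (l 4)))), by decide +kernel⟩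

def h72_0Am : ∃ t, chk3 f0Am t 6 1 7 = true :=
  ⟨(b (a (c (b (a (l 10) (l 2)) (a (l 10) (l 2))) (b (a (l 10) (l 2)) (a (l 10) (l 2)))) (c (a (b (l 2) (l 2)) (l 4)) (a (b (l 2) (l 2)) (b (l 2) (l 2))))) (a (c (b (a (l 10) (l 2)) (a (c (l 10) (l 10)) (c (l 2) (l 2)))) (b (a (l 10) (l 2)) (a (l 10) (l 2)))) (c (a (b (l 4) (c (l 2) (l 2))) (b (l 4) (l 4))) (a (b (l 2) (l 2)) (b (l 2) (l 4)))))), by decide +kernel⟩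

def h73_0Am : ∃ t, chk3 f0Am t 7 1 3 = true :=
  ⟨(c (b (a (a (c (l 4) (l 4)) (l 4)) (l 4)) (a (c (a (b (l 4) (l 4)) (l 4)) (a (l 4) (l 4))) (c (l 4) (l 4)))) (b (a (b (l 4) (c (l 4) (l 4))) (l 4)) (a (c (a (l 4) (l 4)) (a (l 4) (l 4))) (c (l 4) (l 4))))), by decide +kernel⟩

theorem h74_0Am : ∃ t, chk3 f0Am t 12 7 12 = true := ex3_a h68_0Am h69_0Am

theorem h75_0Am : ∃ t, chk3 f0Am t 12 3 12 = true := ex3_b h67_0Am h74_0Am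

theorem h76_0Am : ∃ t, chk3 f0Am t 12 3 6 = true := ex3_c h75_0Am h70_0Am

theorem h77_0Am : ∃ t, chk3 f0Am t 6 3 6 = true := ex3_a h76_0Am h71_0Am

theorem h78_0Am : ∃ t, chk3 f0Am t 6 1 6 = true := ex3_b h66_0Am h77_0Am

theorem h79_0Am : ∃ t, chk3 f0Am t 6 1 3 = true := ex3_c h78_0Am h72_0Am

theorem h80_0Am : ∃ t, chk3 f0Am t 3 1 3 = true := ex3_a h79_0Am h73_0Am

theorem h81_0Am : ∃ t, chk3 f0Am t 13 3 5 = true := ex3_c h63_0Am h64_0Am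

theorem h82_0Am : ∃ t, chk3 f0Am t 12 3 5 = true := ex3_c h61_0Am h62_0Am

theorem h83_0Am : ∃ t, chk3 f0Am t 6 3 5 = true := ex3_a h82_0Am h81_0Am

theorem h84_0Am : ∃ t, chk3 f0Am t 12 2 5 = true := ex3_b h58_0Am h59_0Am

theorem h85_0Am : ∃ t, chk3 f0Am t 6 2 5 = true := ex3_a h84_0Am h60_0Am

theorem h86_0Am : ∃ t, chk3 f0Am t 6 1 5 = true := ex3_b h85_0Am h83_0Am

theorem h87_0Am : ∃ t, chk3 f0Am t 12 3 8 = true := ex3_a h54_0Am h55_0Am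

theorem h88_0Am : ∃ t, chk3 f0Am t 12 3 4 = true := ex3_c h87_0Am h56_0Am

theorem h89_0Am : ∃ t, chk3 f0Am t 6 3 4 = true := ex3_a h88_0Am h57_0Am

theorem h90_0Am : ∃ t, chk3 f0Am t 6 1 4 = true := ex3_b h53_0Am h89_0Am

theorem h91_0Am : ∃ t, chk3 f0Am t 6 1 2 = true := ex3_c h90_0Am h86_0Am

theorem h92_0Am : ∃ t, chk3 f0Am t 3 1 2 = true := ex3_a h91_0Am h65_0Am

theorem h93_0Am : ∃ t, chk3 f0Am t 3 1 1 = true := ex3_c h92_0Am h80_0Am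

theorem h94_0Am : ∃ t, chk3 f0Am t 10 7 15 = true := ex3_a h50_0Am h51_0Am

theorem h95_0Am : ∃ t, chk3 f0Am t 10 3 15 = true := ex3_b h49_0Am h94_0Am

theorem h96_0Am : ∃ t, chk3 f0Am t 10 3 14 = true := ex3_b h47_0Am h48_0Am

theorem h97_0Am : ∃ t, chk3 f0Am t 10 3 7 = true := ex3_c h96_0Am h95_0Am

theorem h98_0Am : ∃ t, chk3 f0Am t 5 3 7 = true := ex3_a h97_0Am h52_0Am

theorem h99_0Am : ∃ t, chk3 f0Am t 5 2 7 = true := ex3_a h45_0Am h46_0Am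

theorem h100_0Am : ∃ t, chk3 f0Am t 5 1 7 = true := ex3_b h99_0Am h98_0Am

theorem h101_0Am : ∃ t, chk3 f0Am t 11 3 13 = true := ex3_b h43_0Am h44_0Am

theorem h102_0Am : ∃ t, chk3 f0Am t 11 3 6 = true := ex3_c h42_0Am h101_0Am

theorem h103_0Am : ∃ t, chk3 f0Am t 5 3 6 = true := ex3_a h41_0Am h102_0Am

theorem h104_0Am : ∃ t, chk3 f0Am t 11 2 6 = true := ex3_b h39_0Am h40_0Am

theorem h105_0Am : ∃ t, chk3 f0Am t 5 2 6 = true := ex3_a h38_0Am h104_0Am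

theorem h106_0Am : ∃ t, chk3 f0Am t 5 1 6 = true := ex3_b h105_0Am h103_0Am

theorem h107_0Am : ∃ t, chk3 f0Am t 5 1 3 = true := ex3_c h106_0Am h100_0Am

theorem h108_0Am : ∃ t, chk3 f0Am t 9 3 7 = true := ex3_c h36_0Am h37_0Am

theorem h109_0Am : ∃ t, chk3 f0Am t 4 3 7 = true := ex3_a h35_0Am h108_0Am

theorem h110_0Am : ∃ t, chk3 f0Am t 9 5 7 = true := ex3_c h33_0Am h34_0Am

theorem h111_0Am : ∃ t, chk3 f0Am t 9 2 7 = true := ex3_b h32_0Am h110_0Am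

theorem h112_0Am : ∃ t, chk3 f0Am t 4 2 7 = true := ex3_a h31_0Am h111_0Am

theorem h113_0Am : ∃ t, chk3 f0Am t 4 1 7 = true := ex3_b h112_0Am h109_0Am

theorem h114_0Am : ∃ t, chk3 f0Am t 9 3 6 = true := ex3_c h29_0Am h30_0Am

theorem h115_0Am : ∃ t, chk3 f0Am t 4 3 6 = true := ex3_a h28_0Am h114_0Am

theorem h116_0Am : ∃ t, chk3 f0Am t 4 2 6 = true := ex3_a h26_0Am h27_0Am

theorem h117_0Am : ∃ t, chk3 f0Am t 4 1 6 = true := ex3_b h116_0Am h115_0Am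

theorem h118_0Am : ∃ t, chk3 f0Am t 4 1 3 = true := ex3_c h117_0Am h113_0Am

theorem h119_0Am : ∃ t, chk3 f0Am t 2 1 3 = true := ex3_a h118_0Am h107_0Am

theorem h120_0Am : ∃ t, chk3 f0Am t 10 3 5 = true := ex3_c h23_0Am h24_0Am

theorem h121_0Am : ∃ t, chk3 f0Am t 5 3 5 = true := ex3_a h120_0Am h25_0Am

theorem h122_0Am : ∃ t, chk3 f0Am t 11 3 8 = true := ex3_b h20_0Am h21_0Am

theorem h123_0Am : ∃ t, chk3 f0Am t 11 3 4 = true := ex3_c h122_0Am h22_0Am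

theorem h124_0Am : ∃ t, chk3 f0Am t 10 3 9 = true := ex3_b h18_0Am h19_0Am

theorem h125_0Am : ∃ t, chk3 f0Am t 10 3 8 = true := ex3_b h16_0Am h17_0Am

theorem h126_0Am : ∃ t, chk3 f0Am t 10 3 4 = true := ex3_c h125_0Am h124_0Am

theorem h127_0Am : ∃ t, chk3 f0Am t 5 3 4 = true := ex3_a h126_0Am h123_0Am

theorem h128_0Am : ∃ t, chk3 f0Am t 5 3 2 = true := ex3_c h127_0Am h121_0Am

theorem h129_0Am : ∃ t, chk3 f0Am t 9 3 5 = true := ex3_c h14_0Am h15_0Am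

theorem h130_0Am : ∃ t, chk3 f0Am t 4 3 5 = true := ex3_a h13_0Am h129_0Am

theorem h131_0Am : ∃ t, chk3 f0Am t 9 7 4 = true := ex3_c h11_0Am h12_0Am

theorem h132_0Am : ∃ t, chk3 f0Am t 9 3 4 = true := ex3_b h10_0Am h131_0Am

theorem h133_0Am : ∃ t, chk3 f0Am t 4 3 4 = true := ex3_a h9_0Am h132_0Am

theorem h134_0Am : ∃ t, chk3 f0Am t 4 3 2 = true := ex3_c h133_0Am h130_0Am

theorem h135_0Am : ∃ t, chk3 f0Am t 2 3 2 = true := ex3_a h134_0Am h128_0Am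

theorem h136_0Am : ∃ t, chk3 f0Am t 5 2 4 = true := ex3_a h6_0Am h7_0Am

theorem h137_0Am : ∃ t, chk3 f0Am t 5 2 2 = true := ex3_c h136_0Am h8_0Am

theorem h138_0Am : ∃ t, chk3 f0Am t 4 2 5 = true := ex3_a h4_0Am h5_0Am

theorem h139_0Am : ∃ t, chk3 f0Am t 9 2 4 = true := ex3_c h2_0Am h3_0Am

theorem h140_0Am : ∃ t, chk3 f0Am t 8 2 4 = true := ex3_c h0_0Am h1_0Am

theorem h141_0Am : ∃ t, chk3 f0Am t 4 2 4 = true := ex3_a h140_0Am h139_0Am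

theorem h142_0Am : ∃ t, chk3 f0Am t 4 2 2 = true := ex3_c h141_0Am h138_0Am

theorem h143_0Am : ∃ t, chk3 f0Am t 2 2 2 = true := ex3_a h142_0Am h137_0Am

theorem h144_0Am : ∃ t, chk3 f0Am t 2 1 2 = true := ex3_b h143_0Am h135_0Am

theorem h145_0Am : ∃ t, chk3 f0Am t 2 1 1 = true := ex3_c h144_0Am h119_0Am

theorem h146_0Am : ∃ t, chk3 f0Am t 1 1 1 = true := ex3_a h145_0Am h93_0Am

theorem ct_0Am : ∃ t, chk3 f0Am t 1 1 1 = true := h146_0Am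

noncomputable def f0Bp : ℕ → ℕ → ℕ → ℕ → Bool :=
  onCell 0 83886080 0 16777216 134217728 67108864 (c0_Bp.row false 41943040)

def h0_0Bp : ∃ t, chk3 f0Bp t 4 2 4 = true :=
  ⟨(a (c (b (a (c (b (a (c (l 8) (l 8)) (l 8)) (a (c (l 8) (l 8)) (l 8))) (b (a (l 8) (l 8)) (a (l 8) (l 8)))) (c (b (a (l 8) (l 8)) (a (l 8) (l 8))) (a (b (l 8) (l 8)) (l 8)))) (a (b (a (l 3) (c (l 8) (l 8))) (l 3)) (c (a (b (l 8) (l 8)) (b (l 8) (l 8))) (a (b (l 8) (l 8)) (l 8))))) (b (a (c (b (a (l 8) (l 8)) (a (l 8) (l 8))) (a (b (l 8) (l 8)) (l 8))) (c (a (l 8) (l 8)) (a (l 8) (l 8)))) (a (b (a (l 3) (c (l 8) (l 8))) (l 3)) (c (a (l 8) (l 8)) (a (l 8) (l 8)))))) (c (b (a (c (a (l 8) (l 8)) (a (l 8) (l 8))) (c (a (l 8) (l 8)) (a (l 8) (l 8)))) (a (c (a (l 8) (l 8)) (a (l 8) (l 8))) (c (a (l 8) (l 8)) (a (l 8) (l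 8))))) (b (a (c (a (l 8) (l 8)) (a (l 8) (l 8))) (c (l 8) (l 8))) (a (c (a (l 8) (l 8)) (l 8)) (c (l 8) (l 8)))))), by decide +kernel⟩

def h1_0Bp : ∃ t, chk3 f0Bp t 4 3 4 = true :=
  ⟨(a (b (a (l 3) (c (a (l 3) (c (b (l 8) (l 8)) (l 8))) (a (l 3) (c (l 8) (l 8))))) (l 3)) (c (b (a (c (a (l 8) (l 8)) (a (l 8) (l 8))) (c (a (l 8) (l 8)) (a (l 8) (l 8)))) (a (c (a (l 8) (l 8)) (a (l 8) (l 8))) (c (a (l 8) (l 8)) (a (l 8) (l 8))))) (b (a (c (a (l 8) (l 8)) (a (l 8) (l 8))) (c (l 8) (l 8))) (a (c (a (l 8) (l 8)) (a (l 8) (l 8))) (c (l 8) (l 8)))))), by decide +kernel⟩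

def h2_0Bp : ∃ t, chk3 f0Bp t 4 1 5 = true :=
  ⟨(b (a (c (b (a (c (a (l 8) (l 8)) (a (l 8) (l 8))) (c (a (l 8) (l 8)) (l 8))) (a (b (c (a (l 3) (l 8)) (l 8)) (l 3)) (c (a (l 8) (l 8)) (l 8)))) (b (a (c (a (l 8) (l 8)) (l 8)) (c (l 8) (l 8))) (a (c (a (l 3) (l 8)) (l 8)) (c (l 8) (l 8))))) (c (b (a (c (l 8) (l 8)) (c (l 8) (l 8))) (a (c (l 8) (l 8)) (c (l 8) (l 8)))) (b (a (c (l 8) (l 8)) (c (l 8) (l 8))) (a (c (l 8) (l 8)) (c (l 8) (l 8)))))) (a (b (c (a (l 3) (c (a (l 3) (l 8)) (l 8))) (a (l 3) (c (l 8) (l 8)))) (l 3)) (c (b (a (c (l 8) (l 8)) (c (l 8) (l 8))) (a (c (l 8) (l 8)) (c (l 8) (l 8)))) (b (a (c (l 8) (l 8)) (c (l 8) (l 8))) (a (c (l 8) (l 8)) (c (l 8) (l 8))))))), by decide +kernel⟩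

def h3_0Bp : ∃ t, chk3 f0Bp t 5 1 2 = true :=
  ⟨(c (b (a (c (b (a (c (l 8) (l 8)) (c (l 8) (l 8))) (a (c (l 8) (l 8)) (c (l 8) (l 8)))) (b (a (c (l 8) (l 8)) (c (l 8) (l 8))) (a (c (l 8) (l 8)) (c (l 8) (l 8))))) (c (a (c (b (l 8) (l 8)) (l 8)) (b (c (l 10) (l 10)) (c (l 10) (l 10)))) (a (b (l 8) (l 8)) (a (l 8) (b (l 10) (l 10)))))) (a (c (b (a (c (l 8) (l 8)) (c (l 8) (l 8))) (a (c (l 8) (l 8)) (c (l 8) (l 8)))) (b (a (c (l 8) (l 8)) (c (l 8) (l 8))) (a (c (l 8) (l 8)) (c (l 8) (l 8))))) (c (b (a (c (l 8) (l 8)) (c (l 8) (l 8))) (a (c (l 8) (l 8)) (l 8))) (b (a (l 8) (l 8)) (a (l 8) (l 8)))))) (b (a (c (b (a (c (l 8) (l 8)) (l 8)) (a (c (l 8) (l 8)) (l 8))) (b (a (l 8) (l 8)) (a (l 8) (l 8)))) (a (c (b (l 8) (l 8)) (b (l 8) (l 8))) (b (c (l 10) (l 10)) (c (l 10) (l 10))))) (a (c (b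 (a (c (l 8) (l 8)) (l 8)) (a (c (l 8) (l 8)) (l 8))) (b (a (l 8) (l 8)) (a (l 8) (l 8)))) (b (a (c (l 8) (l 8)) (c (l 8) (l 8))) (c (a (l 8) (l 8)) (a (l 8) (l 8))))))), by decide +kernel⟩

def h4_0Bp : ∃ t, chk3 f0Bp t 4 1 3 = true :=
  ⟨(c (b (a (c (b (a (c (l 8) (l 8)) (c (l 8) (l 8))) (a (c (l 8) (l 8)) (c (l 8) (l 8)))) (b (a (c (l 8) (l 8)) (c (l 8) (l 8))) (a (c (l 8) (l 8)) (c (l 8) (l 8))))) (c (b (a (c (l 8) (l 8)) (l 8)) (a (c (l 8) (l 8)) (l 8))) (b (a (l 8) (l 8)) (a (l 8) (l 8))))) (a (c (b (a (l 3) (c (l 8) (l 8))) (l 3)) (b (a (l 3) (c (l 8) (l 8))) (l 3))) (c (b (a (c (l 8) (l 8)) (l 8)) (a (c (l 8) (l 8)) (l 8))) (b (a (l 8) (l 8)) (a (l 8) (l 8)))))) (b (a (c (b (a (l 8) (l 8)) (a (l 8) (l 8))) (b (a (l 8) (l 8)) (a (l 8) (l 8)))) (c (a (b (l 8) (l 8)) (l 8)) (a (l 8)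 (l 8)))) (a (b (a (l 3) (c (l 8) (l 8))) (l 3)) (c (b (a (l 8) (l 8)) (a (l 8) (l 8))) (a (l 8) (l 8)))))), by decide +kernel⟩

def h5_0Bp : ∃ t, chk3 f0Bp t 5 1 3 = true :=
  ⟨(c (b (a (c (b (a (l 8) (l 8)) (a (l 8) (l 8))) (a (b (l 8) (l 8)) (l 8))) (a (c (l 8) (l 8)) (c (b (l 10) (l 8)) (l 10)))) (a (c (b (a (l 8) (l 8)) (a (l 8) (l 8))) (a (b (l 8) (l 8)) (l 8))) (b (c (a (l 8) (l 8)) (l 8)) (c (a (l 8) (l 8)) (l 8))))) (b (a (c (a (l 8) (l 8)) (a (l 8) (l 8))) (b (c (l 10) (l 10)) (c (l 10) (l 10)))) (a (c (a (l 8) (l 8)) (a (l 8) (l 8))) (b (c (l 8) (l 8)) (c (l 8) (l 8)))))), by decide +kernel⟩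

def h6_0Bp : ∃ t, chk3 f0Bp t 6 1 2 = true :=
  ⟨(c (b (a (b (c (a (c (l 10) (l 10)) (c (l 2) (l 2))) (a (l 10) (l 2))) (c (a (c (l 10) (l 10)) (c (l 2) (l 2))) (a (c (l 10) (l 10)) (l 2)))) (b (c (a (l 2) (l 2)) (a (l 2) (l 2))) (c (a (l 2) (l 2)) (a (l 2) (l 2))))) (a (c (b (a (c (l 10) (l 10)) (c (l 2) (l 2))) (a (c (l 10) (l 10)) (c (l 2) (l 2)))) (b (a (c (l 10) (l 10)) (l 2)) (a (c (l 10) (l 10)) (l 2)))) (c (b (a (l 2) (l 2)) (a (l 2) (l 2))) (b (a (l 2) (l 2)) (a (l 2) (l 2)))))) (b (a (b (c (a (l 10) (l 2)) (a (l 10) (l 2))) (c (a (l 10) (l 2)) (a (l 10) (l 2)))) (b (c (a (l 2) (l 2)) (a (l 2) (l 2))) (c (a (l 2) (l 2)) (a (l 2) (l 2))))) (a (c (b (a (l 10) (l 2)) (a (l 10) (l 2))) (b (a (l 10) (l 2)) (a (l 10) (l 2)))) (c (b (a (l 2) (l 2)) (a (l 2) (l 2))) (a (b (l 2) (l 2))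 (l 2)))))), by decide +kernel⟩

def h7_0Bp : ∃ t, chk3 f0Bp t 7 1 2 = true :=
  ⟨(c (b (a (b (c (l 4) (l 4)) (c (a (l 2) (l 2)) (l 4))) (c (a (l 2) (l 2)) (l 4))) (a (c (b (a (l 2) (l 2)) (a (l 2) (l 2))) (a (b (l 2) (l 2)) (l 2))) (c (a (l 2) (l 2)) (a (l 2) (l 2))))) (b (a (b (c (l 2) (l 2)) (c (l 2) (l 2))) (c (l 4) (l 2))) (a (c (a (l 2) (l 2)) (a (l 2) (l 2))) (c (a (l 2) (l 2)) (a (l 2) (l 2)))))), by decide +kernel⟩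

def h8_0Bp : ∃ t, chk3 f0Bp t 3 1 3 = true :=
  ⟨(a (c (b (a (b (c (a (l 10) (l 2)) (l 10)) (c (a (l 10) (l 2)) (l 10))) (b (c (l 2) (l 2)) (c (l 2) (l 2)))) (a (c (b (a (l 10) (l 2)) (a (l 10) (l 2))) (a (b (l 10) (l 10)) (l 2))) (c (a (l 2) (l 2)) (a (l 2) (l 2))))) (b (a (b (c (l 10) (l 10)) (c (l 10) (l 10))) (c (a (l 2) (l 2)) (l 2))) (a (c (a (l 10) (l 2)) (a (l 10) (l 2))) (c (a (l 2) (l 2)) (l 2))))) (c (b (a (c (a (l 2) (l 2)) (l 2)) (c (l 2) (l 2))) (a (c (a (l 2) (l 2)) (a (l 2) (l 2))) (c (l 2) (l 2)))) (b (a (c (l 2) (l 2)) (c (l 2) (l 2))) (a (c (l 2) (l 2)) (c (l 2) (l 2)))))), by decide +kernel⟩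

theorem h9_0Bp : ∃ t, chk3 f0Bp t 3 1 2 = true := ex3_a h6_0Bp h7_0Bp

theorem h10_0Bp : ∃ t, chk3 f0Bp t 3 1 1 = true := ex3_c h9_0Bp h8_0Bp

theorem h11_0Bp : ∃ t, chk3 f0Bp t 2 1 3 = true := ex3_a h4_0Bp h5_0Bp

theorem h12_0Bp : ∃ t, chk3 f0Bp t 4 1 4 = true := ex3_b h0_0Bp h1_0Bp

theorem h13_0Bp : ∃ t, chk3 f0Bp t 4 1 2 = true := ex3_c h12_0Bp h2_0Bp

theorem h14_0Bp : ∃ t, chk3 f0Bp t 2 1 2 = true := ex3_a h13_0Bp h3_0Bp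

theorem h15_0Bp : ∃ t, chk3 f0Bp t 2 1 1 = true := ex3_c h14_0Bp h11_0Bp

theorem h16_0Bp : ∃ t, chk3 f0Bp t 1 1 1 = true := ex3_a h15_0Bp h10_0Bp

theorem ct_0Bp : ∃ t, chk3 f0Bp t 1 1 1 = true := h16_0Bp

noncomputable def f0Bpk1 : ℕ → ℕ → ℕ → ℕ → Bool :=
  onCell 0 83886080 0 16777216 134217728 67108864 (c0_Bpk1.row false 41943040)

def h0_0Bpk1 : ∃ t, chk3 f0Bpk1 t 4 1 2 = true :=
  ⟨(c (b (a (c (a (b (c (l 8) (l 8)) (c (a (l 3) (l 8)) (l 8))) (b (c (l 8) (l 8)) (c (l 8) (l 8)))) (a (b (c (l 8) (l 8)) (c (l 8) (l 8))) (c (b (l 8) (l 8)) (l 8)))) (c (a (b (c (l 8) (l 8)) (c (l 8) (l 8))) (c (b (l 8) (l 8)) (l 8))) (b (a (c (l 8) (l 8)) (l 8)) (a (c (l 8) (l 8)) (l 8))))) (a (a (l 3) (b (c (c (l 8) (l 8)) (c (l 8) (l 8))) (l 3))) (c (a (b (c (l 8) (l 8)) (c (l 8) (l 8))) (b (c (l 8)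 (l 8)) (c (l 8) (l 8)))) (a (c (b (l 8) (l 8)) (l 8)) (c (l 8) (l 8)))))) (b (a (c (b (a (c (l 8) (l 8)) (l 8)) (a (c (l 8) (l 8)) (l 8))) (b (a (l 8) (l 8)) (a (l 8) (l 8)))) (c (b (a (l 8) (l 8)) (a (l 8) (l 8))) (a (b (l 8) (l 8)) (l 8)))) (a (a (l 3) (c (b (c (l 8) (l 8)) (l 3)) (b (l 8) (l 3)))) (c (b (a (l 8) (l 8)) (a (l 8) (l 8))) (b (a (l 8) (l 8)) (a (l 8) (l 8))))))), by decide +kernel⟩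

def h1_0Bpk1 : ∃ t, chk3 f0Bpk1 t 5 1 2 = true :=
  ⟨(c (b (a (c (b (a (l 8) (l 8)) (a (l 8) (l 8))) (b (a (l 8) (l 8)) (a (l 8) (l 8)))) (c (a (b (l 8) (l 8)) (b (l 10) (l 10))) (a (l 8) (b (l 10) (l 10))))) (a (c (a (c (l 8) (l 8)) (b (l 8) (l 8))) (b (a (l 8) (l 8)) (a (l 8) (l 8)))) (c (a (b (l 8) (l 8)) (a (l 8) (b (l 8) (l 8)))) (b (a (l 8) (l 10)) (a (l 8) (l 8)))))) (b (a (c (a (l 8) (l 8)) (a (l 8) (l 8))) (a (c (l 8) (l 8)) (c (b (l 10) (l 10)) (l 10)))) (a (c (a (b (l 8) (l 8)) (l 8)) (a (l 8) (l 8))) (c (a (l 8) (b (l 8) (l 8))) (a (l 8) (b (l 8) (l 8))))))), by decide +kernel⟩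

def h2_0Bpk1 : ∃ t, chk3 f0Bpk1 t 2 1 3 = true :=
  ⟨(a (c (b (a (c (a (b (l 8) (l 8)) (l 8)) (a (l 8) (l 8))) (c (a (l 8) (l 8)) (a (l 8) (l 8)))) (a (c (b (a (l 3) (l 8)) (l 3)) (a (l 3) (l 8))) (c (a (l 8) (l 8)) (a (l 8) (l 8))))) (a (b (c (a (l 8) (l 8)) (a (l 8) (l 8))) (b (c (l 8) (l 8)) (l 3))) (b (c (l 8) (l 8)) (c (a (l 8) (l 8)) (l 8))))) (c (a (b (c (a (l 8) (l 8)) (l 8)) (c (a (l 8) (l 8)) (a (l 8) (l 8)))) (b (a (c (l 8) (l 8)) (c (l 10) (l 10))) (b (c (l 10) (l 8)) (c (l 8) (l 8))))) (a (b (c (l 8) (l 8)) (c (l 8) (l 8))) (b (c (a (l 8) (l 10)) (l 10)) (c (a (l 8) (l 10)) (l 10)))))), by decide +kernel⟩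

def h3_0Bpk1 : ∃ t, chk3 f0Bpk1 t 3 1 2 = true :=
  ⟨(a (c (b (a (b (c (a (l 10) (l 2)) (a (l 10) (l 2))) (c (a (l 10) (l 2)) (a (l 10) (l 2)))) (b (c (a (l 2) (l 2)) (a (l 2) (l 2))) (c (a (l 2) (l 2)) (a (l 2) (l 2))))) (a (c (b (a (l 10) (l 2)) (a (c (l 10) (l 10)) (l 2))) (b (a (l 10) (l 2)) (a (l 10) (l 2)))) (c (b (a (l 2) (l 2)) (a (l 2) (l 2))) (a (b (l 2) (l 2)) (l 2))))) (a (b (b (c (a (l 10) (l 2)) (l 10)) (c (a (l 10) (l 2)) (l 10))) (c (b (a (l 10) (l 2)) (a (l 10) (l 2))) (a (b (l 10) (l 10)) (l 2)))) (b (b (c (l 2) (l 2)) (c (l 2) (l 2))) (c (a (l 2) (l 2)) (a (l 2) (l 2)))))) (c (b (a (b (c (l 2) (l 2)) (c (l 2) (l 2))) (c (l 4) (l 2))) (a (c (a (l 2) (l 2)) (a (l 2) (l 2))) (c (a (l 2) (l 2)) (a (l 2) (l 2))))) (a (b (c (a (l 2) (l 2)) (l 2)) (c (a (l 2) (l 2)) (a (l 2)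 (l 2)))) (b (c (l 2) (l 2)) (c (l 2) (l 2)))))), by decide +kernel⟩

def h4_0Bpk1 : ∃ t, chk3 f0Bpk1 t 3 1 3 = true :=
  ⟨(a (c (a (b (b (c (l 10) (l 10)) (c (l 10) (l 10))) (c (a (l 10) (l 2)) (a (l 10) (l 2)))) (b (c (a (l 2) (l 2)) (l 2)) (c (a (l 2) (l 2)) (a (l 2) (l 2))))) (a (b (c (l 10) (l 10)) (c (l 10) (l 10))) (b (c (l 2) (l 2)) (c (l 2) (l 2))))) (c (b (a (c (l 2) (l 2)) (c (l 2) (l 2))) (a (c (l 2) (l 2)) (c (l 2) (l 2)))) (b (a (c (l 2) (l 2)) (c (l 2) (l 2))) (a (c (l 2) (l 2)) (c (l 2) (l 2)))))), by decide +kernel⟩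

theorem h5_0Bpk1 : ∃ t, chk3 f0Bpk1 t 3 1 1 = true := ex3_c h3_0Bpk1 h4_0Bpk1

theorem h6_0Bpk1 : ∃ t, chk3 f0Bpk1 t 2 1 2 = true := ex3_a h0_0Bpk1 h1_0Bpk1

theorem h7_0Bpk1 : ∃ t, chk3 f0Bpk1 t 2 1 1 = true := ex3_c h6_0Bpk1 h2_0Bpk1

theorem h8_0Bpk1 : ∃ t, chk3 f0Bpk1 t 1 1 1 = true := ex3_a h7_0Bpk1 h5_0Bpk1

theorem ct_0Bpk1 : ∃ t, chk3 f0Bpk1 t 1 1 1 = true := h8_0Bpk1

noncomputable def f0Bpk2 : ℕ → ℕ → ℕ → ℕ → Bool :=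
  onCell 0 83886080 0 16777216 134217728 67108864 (c0_Bpk2.row false 41943040)

def h0_0Bpk2 : ∃ t, chk3 f0Bpk2 t 2 1 2 = true :=
  ⟨(a (c (a (b (c (a (b (c (l 8) (l 8)) (c (l 8) (l 8))) (c (b (l 8) (l 8)) (l 8))) (a (b (l 8) (l 8)) (b (l 8) (l 8)))) (a (l 3) (b (c (c (l 8) (l 8)) (l 8)) (l 3)))) (b (c (a (b (l 8) (l 8)) (b (l 8) (l 8))) (a (b (l 8) (l 8)) (l 8))) (c (a (b (l 8) (c (l 8) (l 8))) (b (l 8) (c (l 8) (l 8)))) (a (b (l 8) (l 8)) (b (l 8) (l 8)))))) (a (b (c (a (b (l 8) (l 8)) (l 8)) (a (l 8) (l 8))) (a (l 3) (c (b (l 8) (l 3)) (b (l 8) (l 3))))) (b (c (a (l 8) (l 8)) (a (l 8) (l 8))) (c (a (b (l 8) (l 8)) (l 8)) (a (l 8) (l 8)))))) (c (a (b (c (a (l 8) (l 8)) (a (l 8) (l 8))) (c (a (b (l 8) (l 8)) (b (l 8) (l 8))) (a (b (l 8) (l 8)) (l 8)))) (b (c (a (l 8) (b (l 10) (l 10)))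 (a (l 8) (b (l 10) (l 10)))) (c (a (l 8) (b (l 10) (l 10))) (a (l 8) (b (l 10) (l 10)))))) (a (b (c (a (l 8) (l 8)) (l 8)) (c (a (l 8) (l 8)) (a (l 8) (l 8)))) (b (a (c (l 8) (l 8)) (c (l 10) (l 10))) (c (a (l 8) (l 10)) (a (l 8) (l 10))))))), by decide +kernel⟩

def h1_0Bpk2 : ∃ t, chk3 f0Bpk2 t 2 1 3 = true :=
  ⟨(a (c (a (b (c (a (l 8) (l 8)) (l 8)) (a (l 3) (c (l 8) (l 8)))) (b (c (l 8) (l 8)) (c (a (l 8) (l 8)) (l 8)))) (a (b (c (l 8) (l 8)) (c (l 8) (l 8))) (b (c (l 8) (l 8)) (c (l 8) (l 8))))) (c (a (b (c (l 8) (l 8)) (c (l 8) (l 8))) (b (c (a (l 8) (l 10)) (l 10)) (a (l 8) (c (l 10) (l 10))))) (a (b (c (l 8) (l 8)) (c (l 8) (l 8))) (b (c (l 10) (l 10)) (c (l 10) (l 10)))))), by decide +kernel⟩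

def h2_0Bpk2 : ∃ t, chk3 f0Bpk2 t 3 1 1 = true :=
  ⟨(c (a (c (a (b (c (b (a (l 10) (l 2)) (a (l 10) (l 2))) (a (l 10) (l 2))) (c (b (a (l 10) (l 2)) (a (l 10) (l 2))) (a (b (l 10) (l 10)) (b (l 2) (l 2))))) (b (b (c (l 2) (l 2)) (c (a (l 2) (l 2)) (l 2))) (c (a (b (l 2) (l 2)) (l 2)) (a (l 2) (l 2))))) (a (b (b (c (l 10) (l 10)) (c (l 10) (l 10))) (c (a (l 10) (l 2)) (a (l 10) (l 2)))) (b (c (a (l 2) (l 2)) (l 2)) (c (a (l 2) (l 2)) (a (l 2) (l 2)))))) (c (a (b (c (a (l 2) (l 2)) (l 2)) (c (a (l 2) (l 2)) (a (l 2) (l 2)))) (b (c (l 2) (l 2)) (c (l 2) (l 2)))) (a (b (c (l 2) (l 2)) (c (l 2) (l 2))) (b (c (l 2) (l 2)) (c (l 2) (l 2)))))) (a (c (a (b (c (l 10) (l 10)) (c (a (l 10) (l 2)) (l 10))) (b (c (l 2) (l 2)) (c (l 2) (l 2)))) (a (b (c (l 10) (l 10)) (c (l 10) (l 10))) (b (c (l 2)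 (l 2)) (c (l 2) (l 2))))) (c (a (b (c (l 2) (l 2)) (c (l 2) (l 2))) (b (l 2) (c (l 2) (l 2)))) (b (a (l 2) (l 2)) (a (c (l 2) (l 2)) (l 2)))))), by decide +kernel⟩

theorem h3_0Bpk2 : ∃ t, chk3 f0Bpk2 t 2 1 1 = true := ex3_c h0_0Bpk2 h1_0Bpk2

theorem h4_0Bpk2 : ∃ t, chk3 f0Bpk2 t 1 1 1 = true := ex3_a h3_0Bpk2 h2_0Bpk2

theorem ct_0Bpk2 : ∃ t, chk3 f0Bpk2 t 1 1 1 = true := h4_0Bpk2

noncomputable def f0Bm : ℕ → ℕ → ℕ → ℕ → Bool :=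
  onCell 0 83886080 0 16777216 134217728 67108864 (c0_Bm.row true 41943040)

def h0_0Bm : ∃ t, chk3 f0Bm t 4 4 4 = true :=
  ⟨(a (c (a (c (b (a (l 8) (l 8)) (a (l 8) (l 8))) (b (a (l 8) (l 8)) (a (l 8) (l 8)))) (c (b (a (l 8) (l 8)) (a (l 8) (l 8))) (b (a (l 8) (l 8)) (a (l 8) (l 8))))) (a (c (b (a (l 8) (l 8)) (a (l 8) (l 8))) (a (l 8) (l 8))) (c (b (a (l 8) (l 8)) (a (l 8) (l 8))) (a (l 8) (l 8))))) (c (a (c (b (a (l 8) (l 8)) (a (l 8) (l 8))) (b (a (l 8) (l 8)) (a (l 8) (l 8)))) (c (b (a (l 8) (l 8)) (a (l 8) (l 8))) (b (a (l 8) (l 8)) (a (l 8) (l 8))))) (a (c (a (l 8) (l 8)) (a (l 8) (l 8))) (c (a (l 8) (l 8)) (a (l 8) (l 8)))))), by decide +kernel⟩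

def h1_0Bm : ∃ t, chk3 f0Bm t 4 5 4 = true :=
  ⟨(a (c (a (b (c (a (l 8) (l 8)) (a (l 8) (l 8))) (c (a (b (l 8) (l 16)) (c (l 8) (l 8))) (a (c (l 8) (l 8)) (c (l 8) (l 8))))) (c (b (a (l 8) (l 8)) (a (c (l 8) (l 8)) (c (l 8) (l 8)))) (b (a (l 8) (l 8)) (a (c (l 8) (l 8)) (c (l 8) (l 8)))))) (a (c (b (a (l 8) (l 8)) (a (c (l 8) (l 8)) (c (l 8) (l 8)))) (b (a (l 8) (l 8)) (a (c (l 8) (l 8)) (l 8)))) (c (b (a (l 8) (l 8)) (a (c (l 8) (l 8)) (l 8))) (b (a (l 8) (l 8)) (a (l 8) (l 8)))))) (c (a (c (b (a (l 8) (l 8)) (a (c (l 8) (l 8)) (c (l 8) (l 8)))) (b (a (l 8) (l 8)) (a (c (l 8) (l 8)) (l 8)))) (c (b (a (l 8) (l 8)) (a (c (l 8) (l 8)) (c (l 8) (l 8)))) (b (a (l 8) (l 8)) (a (l 8) (l 8))))) (a (c (b (a (l 8) (l 8)) (a (l 8) (l 8))) (b (a (l 8) (l 8)) (a (l 8) (l 8)))) (c (b (a (l 8) (l 8))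 (a (l 8) (l 8))) (a (b (l 8) (l 8)) (b (l 8) (l 8))))))), by decide +kernel⟩

def h2_0Bm : ∃ t, chk3 f0Bm t 4 2 5 = true :=
  ⟨(a (c (b (a (c (a (l 8) (l 8)) (a (l 8) (l 8))) (c (a (l 8) (l 8)) (a (l 8) (l 8)))) (a (c (b (a (l 8) (l 8)) (a (l 8) (l 8))) (b (l 8) (a (l 8) (l 8)))) (c (b (l 8) (a (l 8) (l 8))) (a (l 8) (l 8))))) (b (a (c (a (l 8) (l 8)) (a (l 8) (l 8))) (c (a (l 8) (l 8)) (a (l 8) (l 8)))) (a (c (a (l 8) (l 8)) (a (l 8) (l 8))) (c (a (l 8) (l 8)) (a (l 8) (l 8)))))) (c (b (a (c (a (l 8) (l 8)) (a (l 8) (l 8))) (c (a (l 8) (l 8)) (a (l 8) (l 8)))) (a (c (a (l 8) (l 8)) (a (l 8) (l 8))) (c (a (l 8) (b (l 8) (l 8))) (a (l 8) (l 8))))) (b (a (c (a (l 8) (l 8)) (a (l 8) (l 8))) (c (a (l 8) (l 8)) (a (l 8) (l 8)))) (a (c (a (l 8) (l 8)) (a (l 8) (l 8))) (c (a (l 8) (l 8)) (a (l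 8) (l 8))))))), by decide +kernel⟩

def h3_0Bm : ∃ t, chk3 f0Bm t 10 2 4 = true :=
  ⟨(c (b (a (c (b (a (l 8) (l 8)) (a (l 8) (l 8))) (b (a (l 8) (l 8)) (a (l 8) (l 8)))) (c (b (a (l 8) (l 8)) (a (l 8) (l 8))) (b (a (l 8) (l 8)) (a (l 8) (l 8))))) (a (c (b (a (l 8) (l 8)) (a (c (l 8) (l 8)) (c (l 8) (l 8)))) (a (b (l 8) (l 8)) (b (l 8) (l 8)))) (c (a (b (l 8) (c (l 8) (l 8))) (b (l 8) (c (l 8) (l 8)))) (a (b (l 8) (l 8)) (b (l 8) (c (l 8) (l 8))))))) (b (a (c (a (b (l 8) (l 8)) (b (l 8) (l 8))) (a (l 8) (l 8))) (c (b (a (l 8) (l 8)) (a (l 8) (l 8))) (a (b (l 8) (l 8)) (b (l 8) (l 8))))) (a (c (a (b (l 8) (l 8)) (b (l 8) (l 8))) (a (b (l 8) (l 8)) (b (l 8) (l 8)))) (c (a (b (l 8) (l 8)) (b (l 8) (c (l 8) (l 8)))) (a (b (l 8) (l 8)) (b (l 8) (l 8))))))), by decide +kernel⟩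

def h4_0Bm : ∃ t, chk3 f0Bm t 11 2 8 = true :=
  ⟨(b (a (c (a (b (l 8) (l 8)) (b (l 8) (c (l 8) (l 8)))) (a (b (l 8) (l 8)) (b (l 8) (c (l 8) (l 8))))) (b (a (c (c (l 8) (l 8)) (c (l 8) (l 8))) (c (c (a (b (l 8) (l 10)) (l 10)) (a (b (l 8) (l 10)) (l 10))) (c (a (b (l 8) (l 10)) (l 10)) (a (b (l 8) (l 10)) (l 10))))) (c (a (c (b (l 12) (l 12)) (b (l 12) (l 12))) (c (a (l 10) (l 2)) (a (l 10) (l 2)))) (a (c (b (l 12) (l 12)) (b (l 12) (l 12))) (c (a (l 10) (l 2)) (a (l 10) (l 2))))))) (a (c (b (a (c (l 8) (l 8)) (a (l 8) (c (l 12) (l 12)))) (a (a (l 8) (c (l 12) (l 12))) (c (a (l 12) (l 12)) (a (l 12) (l 12))))) (b (a (c (l 8) (l 8)) (a (l 8) (c (l 12) (l 12)))) (a (a (l 8) (c (l 12) (l 12))) (c (a (l 12) (l 12)) (a (l 12) (l 12)))))) (c (b (a (c (a (l 12) (l 12)) (a (l 12) (l 12))) (a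 (c (l 2) (l 2)) (l 2))) (a (c (a (l 4) (l 4)) (a (l 4) (l 4))) (a (c (l 2) (l 2)) (l 2)))) (b (a (c (a (l 12) (l 12)) (a (l 12) (l 12))) (a (c (l 2) (l 2)) (l 2))) (a (c (a (l 4) (l 4)) (a (l 4) (l 4))) (a (c (l 2) (l 2)) (l 2))))))), by decide +kernel⟩

def h5_0Bm : ∃ t, chk3 f0Bm t 11 2 9 = true :=
  ⟨(b (a (c (a (b (l 8) (l 8)) (b (l 8) (l 8))) (a (b (l 8) (l 8)) (b (l 8) (l 8)))) (b (a (c (l 8) (l 8)) (c (c (a (b (l 8) (l 10)) (l 10)) (a (b (l 8) (l 10)) (l 10))) (c (a (b (l 8) (l 10)) (l 10)) (a (b (l 8) (l 10)) (l 10))))) (c (a (a (l 8) (b (l 12) (l 12))) (a (c (l 10) (l 10)) (l 2))) (a (a (l 8) (b (l 12) (l 12))) (a (c (l 10) (l 10)) (l 2)))))) (a (c (b (a (l 8) (a (l 8) (c (l 12) (l 12)))) (a (a (l 8) (c (l 12) (l 12))) (c (a (l 12) (l 12)) (a (l 12) (l 12))))) (b (a (l 8) (a (l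 8) (c (l 12) (l 12)))) (a (b (l 8) (l 8)) (c (a (l 12) (l 12)) (a (l 12) (l 12)))))) (c (b (a (c (a (l 12) (l 12)) (a (l 12) (l 12))) (a (c (l 2) (l 2)) (l 2))) (a (c (a (l 4) (l 4)) (a (l 4) (l 4))) (a (c (l 2) (l 2)) (l 2)))) (b (a (c (a (l 12) (l 12)) (a (l 12) (l 12))) (a (c (l 2) (l 2)) (l 2))) (a (c (a (l 4) (l 4)) (a (l 4) (l 4))) (a (c (l 2) (l 2)) (l 2))))))), by decide +kernel⟩

def h6_0Bm : ∃ t, chk3 f0Bm t 10 2 5 = true :=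
  ⟨(c (b (a (c (a (l 8) (l 8)) (a (l 8) (l 8))) (c (a (l 8) (b (l 8) (l 8))) (a (l 8) (b (l 8) (l 8))))) (a (c (a (b (l 8) (l 8)) (b (l 8) (l 8))) (a (b (l 8) (l 8)) (b (l 8) (l 8)))) (c (a (b (l 8) (l 8)) (b (l 8) (l 8))) (a (b (l 8) (l 8)) (b (l 8) (l 8)))))) (b (a (c (a (l 8) (l 8)) (a (l 8) (l 8))) (c (a (l 8) (l 8)) (a (l 8) (l 8)))) (a (c (a (l 8) (b (l 8) (l 8))) (a (l 8) (l 8))) (c (a (b (l 8) (l 8)) (b (l 8) (l 8))) (a (b (l 8) (l 8)) (b (l 8) (l 8))))))), by decide +kernel⟩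

def h7_0Bm : ∃ t, chk3 f0Bm t 11 2 10 = true :=
  ⟨(b (a (c (a (b (l 8) (l 8)) (b (l 8) (l 8))) (a (b (l 8) (l 8)) (b (l 8) (l 8)))) (b (a (c (l 8) (l 8)) (c (a (c (b (l 8) (l 10)) (l 10)) (l 10)) (a (c (l 10) (l 10)) (l 10)))) (c (a (a (l 8) (c (l 12) (l 12))) (a (c (l 10) (l 10)) (l 2))) (a (a (l 8) (c (l 12) (l 12))) (c (a (l 10) (l 2)) (l 10)))))) (a (c (b (a (l 8) (a (l 8) (c (l 12) (l 12)))) (a (a (l 8) (l 8)) (c (a (l 12) (l 12)) (a (l 12) (l 12))))) (b (a (l 8) (c (a (l 8) (l 12)) (l 12))) (a (c (l 8) (l 8)) (c (a (l 12) (l 12)) (a (l 12) (l 12)))))) (c (b (a (c (a (l 12) (l 12)) (a (l 12) (l 12))) (c (a (l 2) (l 2)) (l 2))) (a (c (a (l 4) (l 4)) (a (l 4) (l 4))) (c (l 2) (l 2)))) (b (a (c (a (l 12) (l 12)) (a (l 12) (l 12))) (c (l 2) (l 2))) (a (c (a (l 4) (l 4)) (a (l 4) (l 2)))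 (c (l 2) (l 2))))))), by decide +kernel⟩

def h8_0Bm : ∃ t, chk3 f0Bm t 11 2 11 = true :=
  ⟨(b (a (c (a (b (l 8) (l 8)) (b (l 8) (l 8))) (a (l 8) (b (l 8) (l 8)))) (b (a (c (l 8) (l 8)) (c (c (a (l 10) (l 10)) (l 10)) (c (l 10) (l 10)))) (c (a (a (l 8) (c (l 12) (l 12))) (c (l 10) (l 10))) (a (a (l 8) (c (l 10) (l 10))) (c (l 10) (l 10)))))) (a (c (b (a (l 8) (c (l 12) (l 12))) (a (l 8) (c (a (l 12) (l 12)) (l 12)))) (b (a (l 8) (c (l 12) (l 12))) (a (l 8) (c (l 12) (l 12))))) (c (b (a (c (a (l 12) (l 10)) (a (l 12) (l 10))) (c (l 2) (l 2))) (a (c (a (l 4) (l 2)) (a (l 4) (l 2))) (c (l 2) (l 2)))) (b (a (c (a (l 12) (l 10)) (l 12)) (c (l 2) (l 2))) (a (c (l 4) (l 4)) (c (l 2) (l 2))))))), by decide +kernel⟩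

def h9_0Bm : ∃ t, chk3 f0Bm t 4 2 3 = true :=
  ⟨(c (a (c (b (a (c (l 8) (l 8)) (c (l 8) (l 8))) (a (c (a (l 8) (l 8)) (a (l 8) (l 8))) (c (a (l 8) (l 8)) (a (l 8) (l 8))))) (b (a (c (l 8) (l 8)) (c (l 8) (l 8))) (a (c (l 8) (l 8)) (c (l 8) (l 8))))) (c (b (a (c (l 8) (l 8)) (c (a (l 8) (l 8)) (l 8))) (a (c (a (l 8) (l 8)) (a (l 8) (l 8))) (c (a (l 8) (l 8)) (a (l 8) (l 8))))) (b (a (c (l 8) (l 8)) (c (l 8) (l 8))) (a (c (l 8) (l 8)) (c (l 8) (l 8)))))) (a (c (b (a (c (l 8) (l 8)) (c (l 8) (l 8))) (a (c (l 8) (l 8)) (c (l 8) (l 8)))) (b (a (c (l 8) (l 8)) (c (l 8) (l 8))) (a (c (l 8) (l 8)) (c (l 8) (l 8))))) (c (b (a (c (l 8) (l 8)) (c (l 8) (l 8))) (a (c (l 8) (l 8)) (c (l 8) (l 8)))) (b (a (c (l 8) (l 8)) (c (l 8) (l 8))) (a (c (l 8) (l 8)) (c (l 8) (l 8))))))), by decide +kernel⟩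

def h10_0Bm : ∃ t, chk3 f0Bm t 5 2 6 = true :=
  ⟨(a (c (b (a (c (a (l 8) (l 8)) (l 8)) (c (a (l 8) (l 8)) (a (l 8) (l 8)))) (a (c (a (l 8) (l 8)) (a (l 8) (l 8))) (c (a (l 8) (b (l 8) (l 8))) (a (l 8) (l 8))))) (b (a (c (l 8) (l 8)) (c (a (l 8) (l 8)) (l 8))) (a (c (a (l 8) (l 8)) (l 8)) (c (a (l 8) (l 8)) (a (l 8) (l 8)))))) (b (a (c (c (a (l 8) (b (l 8) (l 8))) (a (l 8) (l 8))) (c (a (l 8) (l 8)) (a (l 8) (l 8)))) (c (b (a (c (l 8) (l 8)) (c (c (l 10) (l 10)) (l 10))) (c (a (a (l 8) (c (l 10) (l 10))) (c (l 10) (l 10))) (a (a (l 8) (l 10)) (l 10)))) (b (c (a (l 8) (l 10)) (a (l 8) (l 10))) (c (a (c (l 10) (l 10)) (l 10)) (a (c (l 10) (l 10)) (l 10)))))) (c (a (c (b (a (l 8) (c (l 12) (l 12))) (a (l 8) (c (l 12) (l 12)))) (a (b (l 8) (l 8)) (b (c (l 12) (l 12)) (c (l 12) (l 12))))) (c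 (b (a (c (l 12) (l 12)) (l 2)) (a (c (l 4) (l 4)) (l 2))) (b (a (c (l 12) (l 10)) (l 2)) (a (c (l 2) (l 2)) (l 2))))) (a (c (a (b (l 8) (l 8)) (b (l 12) (l 12))) (a (l 8) (b (l 12) (l 12)))) (c (b (a (c (l 10) (l 10)) (l 2)) (a (l 4) (l 2))) (a (b (l 10) (l 2)) (l 2))))))), by decide +kernel⟩

def h11_0Bm : ∃ t, chk3 f0Bm t 5 2 7 = true :=
  ⟨(a (c (b (a (c (l 8) (l 8)) (c (l 8) (l 8))) (a (c (l 8) (l 8)) (c (l 8) (l 8)))) (b (a (c (l 8) (l 8)) (c (l 8) (l 8))) (a (c (l 8) (l 8)) (c (l 8) (l 8))))) (b (a (c (c (l 8) (l 8)) (c (l 8) (l 8))) (c (b (a (l 8) (l 10)) (c (a (l 10) (l 10)) (l 10))) (c (a (l 10) (l 10)) (l 10)))) (c (a (a (c (l 8) (l 8)) (c (b (l 12) (l 12)) (b (l 10) (l 10)))) (c (a (b (l 10) (l 2)) (l 2)) (a (l 10) (l 2)))) (a (a (l 8) (c (b (l 10) (l 10)) (l 10))) (c (a (l 10)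 (l 2)) (l 10)))))), by decide +kernel⟩

def h12_0Bm : ∃ t, chk3 f0Bm t 8 6 4 = true :=
  ⟨(c (a (c (b (a (c (l 8) (l 8)) (c (l 8) (l 8))) (a (c (a (l 8) (l 8)) (a (l 8) (l 8))) (c (a (l 8) (l 8)) (l 16)))) (b (a (c (l 8) (l 8)) (c (l 8) (l 8))) (a (c (l 16) (l 8)) (c (l 8) (l 8))))) (c (b (a (c (l 8) (l 8)) (c (l 8) (l 8))) (a (c (a (l 8) (l 8)) (l 8)) (c (l 8) (l 8)))) (b (a (c (l 8) (l 8)) (c (l 8) (l 8))) (a (c (l 8) (l 8)) (c (l 8) (l 8)))))) (a (c (b (a (c (l 8) (l 8)) (c (l 8) (l 8))) (a (c (l 8) (l 8)) (c (l 8) (l 8)))) (b (a (c (l 8) (l 8)) (c (l 8) (l 8))) (a (c (l 8) (l 8)) (c (l 8) (l 8))))) (c (b (a (c (l 8) (l 8)) (c (l 8) (l 8))) (a (c (l 8) (l 8)) (c (l 8) (l 8)))) (b (a (c (l 8) (l 8)) (c (l 8) (l 8))) (a (c (l 8) (l 8)) (c (l 8) (l 8))))))), by decide +kernel⟩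

def h13_0Bm : ∃ t, chk3 f0Bm t 9 6 4 = true :=
  ⟨(c (a (c (b (a (c (l 8) (l 8)) (c (l 8) (l 8))) (a (c (l 8) (l 8)) (c (l 8) (l 8)))) (b (a (c (l 8) (l 8)) (c (l 8) (l 8))) (a (c (l 8) (l 8)) (c (l 8) (l 8))))) (c (b (a (c (l 8) (l 8)) (c (l 8) (l 8))) (a (c (l 8) (l 8)) (c (l 8) (l 8)))) (b (a (c (l 8) (l 8)) (c (l 8) (l 8))) (a (c (l 8) (l 8)) (c (l 8) (l 8)))))) (a (c (b (a (c (l 8) (l 8)) (c (l 8) (l 8))) (a (c (l 8) (l 8)) (c (l 8) (l 8)))) (b (a (l 8) (c (l 8) (l 8))) (a (c (l 8) (l 8)) (c (l 8) (l 8))))) (c (b (a (c (l 8) (l 8)) (c (l 8) (l 8))) (a (c (l 8) (l 8)) (c (l 8) (l 8)))) (b (a (c (l 8) (l 8)) (c (l 8) (l 8))) (a (c (l 8) (l 8)) (c (l 8) (l 8))))))), by decide +kernel⟩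

def h14_0Bm : ∃ t, chk3 f0Bm t 8 7 4 = true :=
  ⟨(c (a (c (b (a (c (a (l 8) (l 8)) (a (l 8) (l 8))) (c (a (l 8) (l 8)) (a (l 8) (l 8)))) (a (c (a (l 16) (l 16)) (a (l 8) (l 8))) (c (a (l 8) (l 8)) (a (l 8) (l 8))))) (b (a (c (a (l 8) (l 8)) (a (l 8) (l 8))) (c (a (l 8) (l 8)) (l 16))) (a (c (a (l 8) (l 8)) (a (l 8) (l 8))) (c (a (l 8) (l 8)) (a (l 8) (l 8)))))) (c (b (a (c (a (l 8) (l 8)) (a (l 8) (l 8))) (c (a (l 8) (l 8)) (a (l 8) (l 8)))) (a (c (a (l 8) (l 8)) (a (l 8) (l 8))) (c (a (l 8) (l 8)) (a (l 8) (l 8))))) (b (a (c (l 16) (l 8)) (c (l 8) (l 8))) (a (c (a (l 8) (l 8)) (a (l 8) (l 8))) (c (a (l 8) (l 8)) (a (l 8) (l 8))))))) (a (c (b (a (c (l 8) (l 8)) (c (l 8) (l 8))) (a (c (a (l 8) (l 8)) (l 16)) (c (a (l 8) (l 8)) (l 16)))) (b (a (c (l 8) (l 8)) (c (l 8) (l 8))) (a (c (l 8)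 (l 8)) (c (l 8) (l 8))))) (c (b (a (c (l 8) (l 8)) (c (l 8) (l 8))) (a (c (l 16) (l 8)) (c (l 8) (l 8)))) (b (a (c (l 8) (l 8)) (c (l 8) (l 8))) (a (c (l 8) (l 8)) (c (l 8) (l 8))))))), by decide +kernel⟩

def h15_0Bm : ∃ t, chk3 f0Bm t 9 7 4 = true :=
  ⟨(c (a (c (b (a (c (a (l 8) (l 8)) (a (l 8) (l 8))) (c (a (l 8) (l 8)) (l 8))) (a (c (a (l 8) (l 8)) (a (l 8) (l 8))) (c (a (l 8) (l 8)) (a (l 8) (l 8))))) (b (a (c (l 8) (l 8)) (c (l 8) (l 8))) (a (c (a (l 8) (l 8)) (l 16)) (c (a (l 8) (l 8)) (l 8))))) (c (b (a (c (a (l 8) (l 8)) (l 8)) (c (a (l 8) (l 8)) (l 8))) (a (c (a (l 8) (l 8)) (a (l 8) (l 8))) (c (a (l 8) (l 8)) (a (l 8) (l 8))))) (b (a (c (l 8) (l 8)) (c (l 8) (l 8))) (a (c (a (l 8) (l 8)) (a (l 8) (l 8))) (c (a (l 8) (l 8)) (a (l 8) (l 8))))))) (a (c (b (a (c (l 8) (l 8)) (c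 (l 8) (l 8))) (a (c (l 8) (l 8)) (c (l 8) (l 8)))) (b (a (c (l 8) (l 8)) (c (l 8) (l 8))) (a (c (l 8) (l 8)) (c (l 8) (l 8))))) (c (b (a (c (l 8) (l 8)) (c (l 8) (l 8))) (a (c (l 8) (l 8)) (c (l 8) (l 8)))) (b (a (c (l 8) (l 8)) (c (l 8) (l 8))) (a (c (l 8) (l 8)) (c (l 8) (l 8))))))), by decide +kernel⟩

def h16_0Bm : ∃ t, chk3 f0Bm t 4 6 5 = true :=
  ⟨(a (c (a (c (b (a (l 16) (l 8)) (a (c (l 8) (l 8)) (c (l 8) (l 8)))) (b (a (l 8) (l 8)) (a (l 16) (c (l 8) (l 8))))) (c (b (a (l 8) (l 8)) (a (c (l 8) (l 8)) (c (l 8) (l 8)))) (b (a (c (l 8) (l 8)) (c (l 8) (l 8))) (a (c (l 8) (l 8)) (l 8))))) (a (c (b (a (l 8) (c (l 8) (l 8))) (a (l 8) (l 8))) (b (a (l 8) (l 8)) (a (l 8) (l 8)))) (c (b (a (c (l 8) (l 8)) (l 8)) (a (l 8) (l 8))) (b (a (l 8) (l 8)) (a (l 8) (l 8)))))) (c (a (c (b (a (c (l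 8) (l 8)) (l 8)) (a (c (l 8) (l 8)) (c (l 8) (l 8)))) (b (a (l 8) (l 8)) (a (l 8) (l 8)))) (c (b (a (l 8) (l 8)) (a (c (l 8) (l 8)) (c (l 8) (l 8)))) (b (a (l 8) (l 8)) (a (l 8) (l 8))))) (a (c (b (a (l 8) (l 8)) (a (l 8) (l 8))) (b (a (l 8) (l 8)) (a (l 8) (l 8)))) (c (b (a (l 8) (l 8)) (a (l 8) (l 8))) (b (a (l 8) (l 8)) (a (l 8) (l 8))))))), by decide +kernel⟩

def h17_0Bm : ∃ t, chk3 f0Bm t 8 7 5 = true :=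
  ⟨(c (a (c (b (a (c (l 8) (l 8)) (c (l 8) (l 8))) (a (c (l 8) (l 8)) (c (l 8) (l 8)))) (b (a (c (l 8) (l 8)) (c (l 8) (l 8))) (a (c (l 8) (l 8)) (c (l 8) (l 8))))) (c (b (a (c (l 8) (l 8)) (c (l 8) (l 8))) (a (c (l 8) (l 8)) (c (l 8) (l 8)))) (b (a (c (l 8) (l 8)) (c (l 8) (l 8))) (a (c (l 8) (l 8)) (c (l 8) (l 8)))))) (a (c (b (a (c (l 8) (l 8)) (c (l 8) (l 8))) (a (c (l 8) (l 8)) (c (l 8) (l 8)))) (b (a (l 8) (l 8)) (a (l 16) (l 16)))) (c (b (a (l 8) (l 8)) (a (c (l 8) (l 8)) (c (l 8) (l 8)))) (b (a (l 8) (l 8)) (a (l 8) (l 8)))))), by decide +kernel⟩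

def h18_0Bm : ∃ t, chk3 f0Bm t 9 7 5 = true :=
  ⟨(c (a (c (b (a (c (l 8) (l 8)) (c (l 8) (l 8))) (a (c (l 8) (l 8)) (c (l 8) (l 8)))) (b (a (c (l 8) (l 8)) (c (l 8) (l 8))) (a (c (l 8) (l 8)) (c (l 8) (l 8))))) (c (b (a (c (l 8) (l 8)) (c (l 8) (l 8))) (a (c (l 8) (l 8)) (c (l 8) (l 8)))) (b (a (c (l 8) (l 8)) (c (l 8) (l 8))) (a (c (l 8) (l 8)) (c (l 8) (l 8)))))) (a (c (b (a (l 8) (l 8)) (a (c (l 8) (l 8)) (c (l 8) (l 8)))) (b (a (l 8) (l 8)) (a (l 8) (l 8)))) (c (b (a (l 8) (l 8)) (a (c (l 8) (l 8)) (c (l 8) (l 8)))) (b (a (l 8) (l 8)) (a (l 8) (l 8)))))), by decide +kernel⟩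

def h19_0Bm : ∃ t, chk3 f0Bm t 10 6 4 = true :=
  ⟨(c (a (c (b (a (c (l 8) (l 8)) (c (l 8) (l 8))) (a (c (l 8) (l 8)) (c (l 8) (l 8)))) (b (a (c (l 8) (l 8)) (c (l 8) (l 8))) (a (c (l 8) (l 8)) (c (l 8) (l 8))))) (b (c (a (c (l 8) (l 8)) (c (a (l 8) (l 8)) (a (l 8) (l 8)))) (a (c (l 8) (l 8)) (c (a (l 8) (l 8)) (a (l 8) (l 8))))) (a (c (c (a (l 8) (l 8)) (a (l 8) (l 8))) (c (l 8) (l 8))) (c (c (b (l 12) (a (l 12) (l 12))) (b (l 12) (l 12))) (c (a (l 12) (l 12)) (a (l 12) (l 12))))))) (a (c (b (a (c (l 8) (l 8)) (c (l 8) (l 8))) (a (c (l 8) (l 8)) (c (l 8) (l 8)))) (b (a (c (l 8) (l 8)) (c (l 8) (l 8))) (a (c (l 8) (l 8)) (c (l 8) (l 8))))) (b (c (a (c (l 8) (l 8)) (c (a (l 8) (l 8)) (l 8))) (a (c (l 8) (l 8)) (c (l 8) (l 8)))) (a (c (c (l 8) (l 8)) (c (l 8) (l 8))) (c (c (a (l 12) (l 12))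 (a (l 12) (l 12))) (c (a (l 12) (l 12)) (a (l 12) (l 12)))))))), by decide +kernel⟩

def h20_0Bm : ∃ t, chk3 f0Bm t 11 6 8 = true :=
  ⟨(a (b (c (a (c (b (a (l 8) (l 12)) (a (l 12) (l 12))) (b (a (l 8) (l 12)) (l 12))) (b (c (a (l 12) (l 4)) (a (l 12) (l 4))) (c (a (l 4) (l 4)) (a (l 4) (l 4))))) (a (b (c (l 12) (l 12)) (c (l 12) (l 12))) (b (c (a (l 12) (l 4)) (a (l 12) (l 4))) (c (a (l 4) (l 4)) (a (l 4) (l 4)))))) (c (a (c (b (l 12) (l 4)) (b (l 12) (l 4))) (c (b (l 4) (l 4)) (b (l 4) (l 4)))) (a (c (b (l 12) (l 4)) (b (l 12) (l 4))) (c (b (l 4) (l 4)) (b (l 4) (l 4)))))) (b (c (a (b (c (a (l 4) (l 4)) (a (l 4) (l 2))) (c (a (l 4) (l 2)) (a (l 4) (l 2)))) (b (c (l 2) (l 2)) (c (l 2) (l 2)))) (a (b (c (a (l 4) (l 2)) (l 4)) (c (a (l 4) (l 2)) (a (l 4) (l 4)))) (b (c (l 2) (l 2)) (c (l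 2) (l 2))))) (c (a (c (b (l 4) (l 4)) (b (l 4) (l 4))) (c (a (l 2) (l 2)) (a (l 2) (l 2)))) (a (c (b (l 4) (l 4)) (b (l 4) (l 4))) (c (a (l 2) (l 2)) (a (l 2) (l 2))))))), by decide +kernel⟩

def h21_0Bm : ∃ t, chk3 f0Bm t 11 6 9 = true :=
  ⟨(b (a (c (a (c (b (l 12) (l 12)) (b (l 12) (a (l 12) (l 12)))) (b (c (l 12) (l 12)) (c (a (l 4) (l 4)) (a (l 4) (l 4))))) (a (c (b (l 12) (a (l 12) (l 12))) (b (l 12) (a (l 12) (l 12)))) (c (b (l 12) (a (l 4) (l 4))) (b (l 12) (a (l 4) (l 4)))))) (c (a (b (c (l 4) (l 4)) (c (a (l 4) (l 4)) (a (l 4) (l 4)))) (c (b (l 2) (a (l 2) (l 2))) (b (l 2) (l 2)))) (a (c (b (l 4) (a (l 4) (l 4))) (b (l 4) (a (l 4) (l 4)))) (c (b (l 2) (l 2)) (a (l 2) (l 2)))))) (a (c (a (c (b (l 12) (l 4)) (b (l 12) (l 4))) (c (b (l 4) (l 4)) (b (l 4) (l 4)))) (a (c (b (l 12)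 (l 4)) (b (l 12) (l 4))) (c (b (l 4) (l 4)) (b (l 4) (l 4))))) (c (a (c (b (l 4) (l 4)) (b (l 4) (l 4))) (c (a (l 2) (l 2)) (a (l 2) (l 2)))) (a (c (b (l 4) (l 4)) (b (l 4) (l 4))) (c (a (l 2) (l 2)) (a (l 2) (l 2))))))), by decide +kernel⟩

def h22_0Bm : ∃ t, chk3 f0Bm t 10 7 8 = true :=
  ⟨(a (c (b (a (c (a (l 8) (l 8)) (l 8)) (c (a (l 8) (l 8)) (a (l 8) (l 8)))) (a (c (a (l 8) (l 8)) (a (l 8) (l 8))) (b (c (l 8) (l 8)) (c (a (l 8) (l 12)) (a (l 8) (l 12)))))) (b (a (c (a (l 8) (l 8)) (l 8)) (c (a (l 8) (l 8)) (l 8))) (a (c (a (l 8) (l 8)) (l 8)) (a (c (l 8) (l 8)) (c (l 12) (l 12)))))) (c (b (a (a (c (l 8) (l 8)) (c (b (l 8) (l 12)) (l 12))) (c (b (a (l 12) (l 4)) (a (l 12) (l 4))) (b (l 12) (l 12)))) (a (c (b (a (l 12) (l 12)) (a (l 12) (l 4))) (b (l 12) (a (l 12) (l 4)))) (c (b (a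 (l 4) (l 4)) (a (l 4) (l 4))) (b (l 4) (l 4))))) (b (a (c (a (l 8) (l 12)) (a (l 8) (l 12))) (c (b (l 12) (l 12)) (a (l 12) (l 12)))) (a (c (b (l 12) (l 12)) (a (l 12) (l 12))) (c (b (l 4) (l 4)) (a (l 4) (l 4))))))), by decide +kernel⟩

def h23_0Bm : ∃ t, chk3 f0Bm t 10 7 9 = true :=
  ⟨(a (b (c (a (c (l 8) (l 8)) (c (l 8) (l 8))) (a (c (l 8) (l 8)) (c (l 8) (l 8)))) (a (c (c (l 8) (l 8)) (c (l 8) (l 8))) (c (c (a (l 8) (l 12)) (a (l 8) (l 12))) (c (a (l 8) (l 12)) (a (l 8) (l 12)))))) (c (b (a (c (a (l 8) (l 12)) (a (l 8) (l 12))) (c (a (l 12) (l 12)) (a (l 12) (l 12)))) (a (c (a (l 12) (l 12)) (a (l 12) (l 12))) (c (a (l 4) (l 4)) (a (l 4) (l 4))))) (b (a (b (l 8) (c (l 12) (l 12))) (c (a (l 12) (l 12)) (a (l 12) (l 12)))) (a (c (a (l 12) (l 12)) (a (l 12) (l 12))) (c (a (l 4) (l 4))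 (a (l 4) (l 4))))))), by decide +kernel⟩

def h24_0Bm : ∃ t, chk3 f0Bm t 11 7 8 = true :=
  ⟨(a (c (b (a (c (b (l 4) (l 4)) (b (l 4) (l 4))) (c (b (l 4) (l 4)) (b (l 4) (l 4)))) (a (c (b (l 4) (l 4)) (b (l 4) (l 4))) (c (a (l 4) (l 4)) (a (l 4) (l 4))))) (b (a (c (b (l 4) (l 4)) (a (l 4) (l 4))) (c (b (l 4) (l 4)) (a (l 4) (l 4)))) (a (c (a (l 4) (l 4)) (a (l 4) (l 4))) (c (a (l 4) (l 4)) (a (l 4) (l 4)))))) (b (c (a (c (a (l 4) (l 2)) (a (l 4) (l 2))) (c (l 2) (l 2))) (a (c (a (l 4) (l 2)) (a (l 4) (l 2))) (c (l 2) (l 2)))) (c (a (c (a (l 2) (l 2)) (a (l 2) (l 2))) (c (l 2) (l 2))) (a (c (a (l 2) (l 2)) (a (l 2) (l 2))) (c (l 2) (l 2)))))), by decide +kernel⟩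

def h25_0Bm : ∃ t, chk3 f0Bm t 11 7 9 = true :=
  ⟨(a (b (c (a (c (a (l 4) (l 4)) (a (l 4) (l 4))) (c (a (l 4) (l 4)) (a (l 4) (l 4)))) (a (c (a (l 4) (l 4)) (a (l 4) (l 4))) (c (a (l 4) (l 4)) (a (l 4) (l 4))))) (c (a (c (a (l 4) (l 4)) (a (l 4) (l 4))) (c (a (l 4) (l 4)) (a (l 4) (l 4)))) (a (c (a (l 4) (l 4)) (a (l 4) (l 4))) (c (a (l 4) (l 4)) (a (l 4) (l 4)))))) (b (c (a (c (a (l 4) (l 2)) (a (l 4) (l 2))) (c (l 2) (l 2))) (a (c (a (l 4) (l 2)) (a (l 4) (l 2))) (c (l 2) (l 2)))) (c (a (c (a (l 2) (l 2)) (a (l 2) (l 2))) (c (l 2) (l 2))) (a (c (a (l 2) (l 2)) (a (l 2) (l 2))) (c (l 2) (l 2)))))), by decide +kernel⟩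

def h26_0Bm : ∃ t, chk3 f0Bm t 10 6 5 = true :=
  ⟨(c (a (c (b (a (c (l 8) (l 8)) (c (l 8) (l 8))) (a (c (l 8) (l 8)) (c (l 8) (l 8)))) (b (a (l 8) (l 8)) (a (l 8) (c (l 8) (l 8))))) (b (c (a (c (l 8) (l 8)) (c (l 8) (l 8))) (a (c (l 8) (l 8)) (c (l 8) (l 8)))) (a (c (c (l 8) (l 8)) (c (l 8) (l 8))) (c (c (a (l 12) (l 12)) (a (l 12) (l 12))) (c (a (l 12) (l 12)) (a (l 12) (l 12))))))) (a (c (b (a (l 8) (l 8)) (a (l 8) (l 8))) (b (a (l 8) (l 8)) (a (l 8) (l 8)))) (b (c (a (l 8) (c (l 8) (l 8))) (a (l 8) (l 8))) (a (c (c (l 8) (l 8)) (c (l 8) (l 8))) (c (c (a (l 8) (l 12)) (a (l 8) (l 12))) (a (l 8) (c (l 12) (l 12)))))))), by decide +kernel⟩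

def h27_0Bm : ∃ t, chk3 f0Bm t 11 6 10 = true :=
  ⟨(b (a (c (a (c (b (l 12) (l 12)) (a (l 12) (l 12))) (c (b (l 12) (a (l 4) (l 4))) (b (l 12) (a (l 4) (l 4))))) (a (c (a (l 12) (l 12)) (a (l 12) (l 12))) (c (a (l 12) (l 4)) (a (l 12) (l 4))))) (c (a (c (b (l 4) (a (l 4) (l 2))) (b (l 4) (l 4))) (a (c (l 2) (l 2)) (l 2))) (a (c (a (l 4) (l 4)) (a (l 4) (l 2))) (c (l 2) (l 2))))) (a (c (a (c (b (l 12) (l 4)) (b (l 12) (l 4))) (c (b (l 4) (l 4)) (b (l 4) (l 4)))) (a (c (b (l 12) (l 4)) (a (l 12) (l 4))) (c (b (l 4) (l 4)) (b (l 4) (l 4))))) (c (a (c (b (l 4) (l 4)) (b (l 4) (l 4))) (c (a (l 2) (l 2)) (a (l 2) (l 2)))) (a (c (b (l 4) (l 4)) (b (l 4) (l 4))) (b (c (l 2) (l 2)) (c (l 2) (l 2))))))), by decide +kernel⟩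

def h28_0Bm : ∃ t, chk3 f0Bm t 11 6 11 = true :=
  ⟨(a (b (c (a (c (a (l 12) (l 12)) (l 12)) (c (a (l 12) (l 4)) (a (l 12) (l 4)))) (a (c (l 12) (l 12)) (c (l 12) (l 12)))) (c (a (c (a (l 12) (l 4)) (a (l 12) (l 4))) (c (b (l 4) (l 4)) (b (l 4) (l 4)))) (a (c (a (l 12) (l 4)) (a (l 12) (l 4))) (c (b (l 4) (l 4)) (a (l 4) (l 4)))))) (b (c (a (c (a (l 4) (l 2)) (a (l 4) (l 2))) (c (l 2) (l 2))) (a (c (l 4) (l 4)) (c (l 2) (l 2)))) (c (a (b (c (l 4) (l 4)) (c (l 4) (l 4))) (b (c (l 2) (l 2)) (c (l 2) (l 2)))) (a (b (c (l 4) (l 4)) (c (l 4) (l 2))) (b (c (l 2) (l 2)) (l 2)))))), by decide +kernel⟩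

def h29_0Bm : ∃ t, chk3 f0Bm t 10 7 5 = true :=
  ⟨(c (a (b (c (a (c (l 8) (l 8)) (c (l 8) (l 8))) (a (c (l 8) (l 8)) (c (l 8) (l 8)))) (a (c (c (l 8) (l 8)) (c (l 8) (l 8))) (c (a (l 8) (c (l 12) (l 12))) (c (a (l 8) (l 12)) (l 12))))) (b (c (a (b (l 8) (c (l 12) (l 12))) (c (a (l 12) (l 12)) (a (l 12) (l 12)))) (a (b (l 8) (c (l 12) (l 12))) (c (a (l 12) (l 12)) (a (l 12) (l 12))))) (c (a (c (a (l 12) (l 12)) (a (l 12) (l 12))) (c (a (l 4) (l 4)) (a (l 4) (l 4)))) (a (c (a (l 12) (l 12)) (a (l 12) (l 12))) (c (a (l 4) (l 4)) (a (l 4) (l 4))))))) (a (b (c (a (c (l 8) (l 8)) (c (l 8) (l 8))) (a (l 8) (l 8))) (a (c (c (l 8) (l 8)) (c (l 8) (l 8))) (c (c (l 12) (l 12)) (c (l 12) (l 12))))) (c (b (a (c (l 12) (l 12)) (c (a (l 12) (l 12)) (a (l 12) (l 12)))) (a (c (a (l 12) (l 12)) (l 12))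 (c (a (l 4) (l 4)) (a (l 4) (l 4))))) (b (a (c (l 12) (l 12)) (c (a (l 12) (l 12)) (l 12))) (a (c (l 12) (l 12)) (c (l 4) (l 4))))))), by decide +kernel⟩

def h30_0Bm : ∃ t, chk3 f0Bm t 11 7 5 = true :=
  ⟨(c (a (c (b (a (c (a (l 4) (l 4)) (a (l 4) (l 4))) (c (a (l 4) (l 4)) (a (l 4) (l 4)))) (a (c (a (l 4) (l 4)) (a (l 4) (l 4))) (c (a (l 4) (l 4)) (a (l 4) (l 4))))) (b (a (c (a (l 4) (l 4)) (a (l 4) (l 4))) (c (a (l 4) (l 4)) (a (l 4) (l 4)))) (a (c (a (l 4) (l 4)) (a (l 4) (l 4))) (c (a (l 4) (l 4)) (a (l 4) (l 4)))))) (c (b (a (c (a (l 4) (l 2)) (a (l 4) (l 2))) (c (l 2) (l 2))) (a (c (l 4) (l 4)) (c (l 2) (l 2)))) (b (a (c (a (l 4) (l 2)) (a (l 4) (l 2))) (c (l 2) (l 2))) (a (c (l 4) (l 4)) (c (l 2) (l 2)))))) (a (c (b (a (c (a (l 4) (l 4)) (a (l 4) (l 4))) (c (a (l 4) (l 4)) (a (l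 4) (l 4)))) (a (c (a (l 4) (l 4)) (a (l 4) (l 4))) (c (a (l 4) (l 2)) (l 4)))) (b (a (c (a (l 4) (l 4)) (a (l 4) (l 4))) (c (a (l 4) (l 4)) (a (l 4) (l 4)))) (a (c (l 4) (l 4)) (c (l 4) (l 4))))) (c (b (a (c (a (l 2) (l 2)) (a (l 2) (l 2))) (c (l 2) (l 2))) (a (c (l 2) (l 2)) (c (l 2) (l 2)))) (b (a (c (a (l 2) (l 2)) (l 4)) (c (l 2) (l 2))) (a (c (l 2) (l 2)) (c (l 2) (l 2))))))), by decide +kernel⟩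

def h31_0Bm : ∃ t, chk3 f0Bm t 4 6 6 = true :=
  ⟨(a (c (a (c (b (a (l 8) (l 8)) (a (l 8) (l 8))) (b (a (l 8) (l 8)) (a (l 8) (l 8)))) (c (b (a (l 8) (l 8)) (a (l 8) (l 8))) (b (l 8) (a (l 8) (l 8))))) (a (c (b (a (l 8) (l 8)) (a (l 8) (l 8))) (b (l 8) (a (l 8) (l 8)))) (c (b (l 8) (a (l 8) (l 8))) (b (l 8) (l 8))))) (c (a (b (c (a (l 8) (l 8)) (l 8)) (c (a (l 8) (l 8)) (a (l 8) (l 8)))) (c (b (a (l 8) (l 8)) (a (l 8) (l 8))) (b (l 8) (a (l 8) (l 8))))) (a (c (b (l 8) (a (l 8) (l 8))) (b (l 8) (l 8))) (c (b (l 8) (a (l 8) (l 8))) (b (l 8) (l 8)))))), by decide +kernel⟩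

def h32_0Bm : ∃ t, chk3 f0Bm t 4 7 6 = true :=
  ⟨(a (c (a (c (b (a (l 8) (l 8)) (a (l 8) (l 8))) (b (a (l 8) (l 8)) (a (l 8) (l 8)))) (c (b (a (l 8) (l 8)) (a (l 8) (l 8))) (b (a (l 8) (l 8)) (a (l 8) (l 8))))) (a (c (b (a (l 8) (l 8)) (a (l 8) (l 8))) (b (a (l 8) (l 8)) (a (l 8) (l 8)))) (c (b (a (l 8) (l 8)) (a (l 8) (l 8))) (b (a (l 8) (l 8)) (a (l 8) (l 8)))))) (c (a (c (b (a (l 8) (l 8)) (a (l 8) (l 8))) (b (a (l 8) (l 8)) (a (l 8) (l 8)))) (c (b (a (l 8) (l 8)) (a (l 8) (l 8))) (b (a (l 8) (l 8)) (a (l 8) (l 8))))) (a (c (b (a (l 8) (l 8)) (a (l 8) (l 8))) (b (a (l 8) (l 8)) (a (l 8) (l 8)))) (c (b (a (l 8) (l 8)) (a (l 8) (l 8))) (b (a (l 8) (l 8)) (a (l 8) (l 8))))))), by decide +kernel⟩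

def h33_0Bm : ∃ t, chk3 f0Bm t 4 3 7 = true :=
  ⟨(b (a (c (a (c (b (l 8) (l 8)) (b (l 8) (l 8))) (c (b (l 8) (l 8)) (b (l 8) (l 8)))) (a (c (b (l 8) (l 8)) (a (l 8) (l 8))) (b (l 8) (c (l 8) (l 8))))) (c (a (c (b (l 8) (a (l 8) (l 8))) (b (l 8) (l 8))) (c (a (l 8) (l 8)) (b (l 8) (l 8)))) (a (b (l 8) (c (l 8) (l 8))) (c (a (l 8) (l 8)) (a (l 8) (l 8)))))) (a (c (a (c (b (l 8) (a (l 8) (l 8))) (b (l 8) (l 16))) (c (b (l 8) (a (l 8) (l 8))) (b (l 8) (l 8)))) (a (c (b (l 8) (l 8)) (b (l 8) (l 8))) (c (b (l 8) (l 8)) (b (l 8) (l 8))))) (c (a (c (b (l 8) (a (l 8) (l 8))) (b (l 8) (l 16))) (c (b (l 8) (a (l 8) (l 8))) (b (l 8) (a (l 8) (l 8))))) (a (c (b (l 8) (l 8)) (b (l 8) (l 8))) (c (b (l 8) (l 8)) (b (l 8) (l 8))))))), by decide +kernel⟩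

def h34_0Bm : ∃ t, chk3 f0Bm t 5 6 6 = true :=
  ⟨(a (c (a (c (b (a (l 8) (l 8)) (a (l 8) (l 8))) (b (l 8) (a (l 8) (l 8)))) (b (c (a (l 8) (l 8)) (a (l 8) (l 8))) (a (c (l 8) (l 8)) (c (c (l 12) (l 12)) (c (l 12) (l 12)))))) (a (c (b (l 8) (a (l 8) (l 8))) (b (l 8) (a (l 8) (l 8)))) (b (c (a (l 8) (l 8)) (l 8)) (a (c (l 8) (l 8)) (c (c (l 12) (l 12)) (l 12)))))) (c (a (b (c (a (c (l 12) (l 12)) (c (l 12) (l 12))) (a (c (l 12) (l 12)) (c (l 12) (l 12)))) (c (a (c (a (l 12) (l 4)) (a (l 12) (l 4))) (c (a (l 4) (l 4)) (a (l 4) (l 4)))) (a (b (l 12) (l 12)) (b (l 4) (l 4))))) (b (c (a (c (l 4) (l 4)) (l 2)) (a (c (l 2) (l 2)) (l 2))) (c (a (b (c (l 4) (l 2)) (c (l 2) (l 2))) (c (l 2) (l 2))) (a (b (l 4) (l 4)) (c (l 2) (l 2)))))) (a (c (b (a (l 12) (l 12)) (a (c (l 12) (l 12)) (c (l 4) (l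 4)))) (b (a (l 12) (l 12)) (a (c (l 12) (l 12)) (c (l 4) (l 4))))) (c (b (a (l 4) (l 2)) (a (c (l 2) (l 2)) (l 2))) (b (a (l 2) (l 2)) (a (c (l 2) (l 2)) (l 2))))))), by decide +kernel⟩

def h35_0Bm : ∃ t, chk3 f0Bm t 10 7 6 = true :=
  ⟨(c (a (b (c (a (l 8) (l 8)) (a (l 8) (l 8))) (a (c (l 8) (l 8)) (c (c (l 12) (l 12)) (c (l 12) (l 12))))) (c (b (a (c (l 12) (l 12)) (c (l 12) (l 12))) (a (c (l 12) (l 12)) (c (l 4) (l 4)))) (b (a (c (l 12) (l 12)) (c (l 12) (l 12))) (a (c (l 12) (l 12)) (c (l 4) (l 4)))))) (a (b (c (a (l 8) (l 8)) (a (l 8) (l 8))) (a (c (l 8) (l 8)) (c (c (l 8) (l 8)) (l 12)))) (c (b (a (c (l 12) (l 12)) (c (l 12) (l 12))) (a (c (l 12) (l 12)) (c (l 4) (l 4)))) (b (a (l 12) (c (l 12) (l 12))) (a (c (l 12) (l 12)) (c (l 4) (l 4))))))), by decide +kernel⟩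

def h36_0Bm : ∃ t, chk3 f0Bm t 11 7 6 = true :=
  ⟨(c (a (c (b (a (c (l 4) (l 4)) (c (l 4) (l 4))) (a (c (l 4) (l 4)) (c (l 4) (l 4)))) (b (a (c (l 4) (l 4)) (c (l 4) (l 4))) (a (c (l 4) (l 4)) (c (l 4) (l 4))))) (c (b (a (c (l 4) (l 4)) (c (l 2) (l 2))) (a (c (l 2) (l 2)) (l 2))) (b (a (c (l 2) (l 2)) (l 2)) (a (c (l 2) (l 2)) (l 2))))) (a (c (b (a (c (l 4) (l 4)) (c (l 4) (l 4))) (a (c (l 4) (l 4)) (c (l 4) (l 4)))) (b (a (c (l 4) (l 4)) (c (l 4) (l 2))) (a (c (l 4) (l 4)) (c (l 2) (l 2))))) (c (b (a (c (l 2) (l 2)) (l 2)) (a (c (l 2) (l 2)) (l 2))) (b (a (c (l 2) (l 2)) (l 2)) (a (l 2) (l 2)))))), by decide +kernel⟩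

def h37_0Bm : ∃ t, chk3 f0Bm t 5 3 7 = true :=
  ⟨(b (a (a (c (c (a (l 8) (l 8)) (a (l 8) (l 8))) (c (a (l 8) (l 8)) (l 8))) (c (b (c (l 8) (l 8)) (c (a (l 8) (l 12)) (a (l 8) (l 12)))) (c (a (l 8) (l 12)) (a (l 8) (l 12))))) (c (a (c (b (a (l 12) (l 12)) (a (l 12) (l 4))) (b (a (l 12) (l 10)) (a (l 12) (l 2)))) (c (a (b (l 2) (l 2)) (l 2)) (a (l 2) (l 2)))) (a (c (b (l 12) (l 12)) (a (l 12) (l 10))) (c (a (l 2) (l 2)) (l 2))))) (a (c (a (b (c (a (l 8) (l 8)) (l 8)) (c (a (l 8) (l 8)) (a (l 8) (l 8)))) (c (b (a (l 12) (l 12)) (a (l 12) (l 4))) (b (a (l 12) (l 12)) (a (l 12) (l 4))))) (a (b (c (l 8) (l 8)) (c (l 8) (l 8))) (c (b (a (l 12) (l 12)) (a (l 12) (l 4))) (b (a (l 12) (l 12)) (a (l 12) (l 4)))))) (c (a (c (b (a (l 4) (l 4)) (a (l 4) (l 4))) (b (a (l 4) (l 4)) (a (l 4) (l 4))))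 (c (b (a (l 2) (l 2)) (a (l 2) (l 2))) (b (a (l 2) (l 2)) (a (l 2) (l 2))))) (a (c (b (a (l 4) (l 2)) (a (l 4) (l 2))) (b (l 4) (a (l 4) (l 2)))) (b (c (a (l 2) (l 2)) (l 2)) (c (a (l 2) (l 2)) (l 2))))))), by decide +kernel⟩

def h38_0Bm : ∃ t, chk3 f0Bm t 6 2 4 = true :=
  ⟨(a (c (b (a (b (c (a (a (c (l 10) (l 10)) (l 2)) (l 2)) (a (a (c (l 10) (l 10)) (l 2)) (l 2))) (c (a (c (l 2) (l 2)) (l 2)) (a (c (l 2) (l 2)) (l 2)))) (b (c (l 2) (l 2)) (c (l 2) (l 2)))) (a (c (b (a (c (l 2) (l 2)) (l 2)) (a (c (l 2) (l 2)) (l 2))) (b (a (c (l 2) (l 2)) (l 2)) (a (c (l 2) (l 2)) (l 2)))) (c (a (b (l 2) (l 2)) (l 2)) (a (b (l 2) (l 2)) (l 2))))) (b (a (b (c (a (a (c (l 10) (l 10)) (l 2)) (l 2)) (a (a (c (l 10) (l 10)) (l 2)) (l 2))) (c (a (l 2) (l 2)) (a (l 2) (l 2)))) (b (c (l 2) (l 2)) (c (l 2)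 (l 2)))) (a (c (b (a (c (l 2) (l 2)) (l 2)) (a (c (l 2) (l 2)) (l 2))) (b (a (l 2) (l 2)) (a (c (l 2) (l 2)) (l 2)))) (c (b (l 2) (a (l 2) (l 2))) (b (l 2) (a (l 2) (l 2))))))) (c (b (a (c (l 4) (l 4)) (l 4)) (a (c (l 4) (l 4)) (l 4))) (b (a (c (l 4) (l 4)) (l 4)) (a (c (l 4) (l 4)) (l 4))))), by decide +kernel⟩

def h39_0Bm : ∃ t, chk3 f0Bm t 6 2 5 = true :=
  ⟨(a (b (c (a (b (c (a (a (c (l 10) (l 10)) (l 2)) (l 2)) (a (c (a (l 10) (l 2)) (l 10)) (l 2))) (c (a (l 2) (l 2)) (a (l 2) (l 2)))) (b (c (l 2) (l 2)) (c (l 2) (l 2)))) (a (b (c (a (c (l 10) (l 10)) (l 2)) (a (c (l 10) (l 10)) (l 2))) (c (a (l 2) (l 2)) (a (l 2) (l 2)))) (b (c (l 2) (l 2)) (c (l 2) (l 2))))) (c (a (c (b (a (l 2) (l 2)) (a (l 2) (l 2))) (b (a (l 2) (l 2)) (a (l 2) (l 2)))) (c (a (l 2) (l 2)) (a (l 2) (l 2)))) (a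 (c (b (a (l 2) (l 2)) (a (l 2) (l 2))) (a (b (l 2) (l 2)) (l 2))) (c (a (l 2) (l 2)) (a (l 2) (l 2)))))) (b (c (a (c (l 4) (l 2)) (l 4)) (a (c (l 2) (l 2)) (l 4))) (c (a (c (l 4) (l 4)) (l 4)) (a (c (l 4) (l 4)) (l 4))))), by decide +kernel⟩

def h40_0Bm : ∃ t, chk3 f0Bm t 7 2 2 = true :=
  ⟨(c (a (c (b (l 4) (a (l 4) (l 4))) (b (l 4) (a (l 4) (l 4)))) (c (l 4) (l 4))) (a (c (b (l 4) (l 4)) (b (l 4) (l 4))) (c (l 4) (l 4)))), by decide +kernel⟩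

def h41_0Bm : ∃ t, chk3 f0Bm t 3 2 3 = true :=
  ⟨(a (c (a (b (c (a (b (a (c (c (l 10) (l 10)) (l 10)) (l 2)) (c (a (l 2) (l 2)) (l 2))) (c (a (l 2) (l 2)) (l 2))) (a (b (a (c (l 10) (l 10)) (l 2)) (c (l 2) (l 2))) (c (l 2) (l 2)))) (c (a (c (a (b (l 2) (l 2)) (l 2)) (a (l 2) (l 2))) (c (a (l 2) (l 2)) (a (l 2) (l 2)))) (a (c (a (l 2) (l 2)) (a (l 2) (l 2))) (c (l 2) (l 2))))) (b (c (a (c (l 2) (l 2)) (l 4)) (a (c (l 2) (l 2)) (l 4))) (c (a (c (l 2) (l 2)) (l 4)) (a (c (l 2) (l 2)) (l 4))))) (a (b (c (a (a (c (l 10) (l 10)) (l 2)) (c (l 2) (l 2))) (a (c (l 10) (l 10)) (l 2))) (c (a (c (l 2) (l 2)) (c (l 2) (l 2))) (a (c (l 2) (l 2)) (l 2)))) (b (c (a (l 2) (l 2)) (a (l 2) (l 2))) (c (a (c (l 2) (l 2)) (l 4)) (a (l 2) (l 2)))))) (c (a (b (c (l 4) (l 4)) (c (l 4) (l 4))) (c (l 4) (l 4)))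 (a (b (c (l 4) (l 4)) (c (l 4) (l 4))) (c (l 4) (l 4))))), by decide +kernel⟩

def h42_0Bm : ∃ t, chk3 f0Bm t 6 6 4 = true :=
  ⟨(a (c (b (a (c (a (c (l 2) (l 2)) (c (l 2) (l 2))) (a (c (l 2) (l 2)) (c (l 2) (l 2)))) (c (a (l 2) (l 2)) (a (l 2) (l 2)))) (a (c (a (c (l 2) (l 2)) (c (l 2) (l 2))) (a (c (l 2) (l 2)) (c (l 2) (l 2)))) (c (a (l 2) (l 2)) (a (l 2) (l 2))))) (a (b (c (a (c (l 2) (l 2)) (l 2)) (a (c (l 2) (l 2)) (l 2))) (c (a (c (l 2) (l 2)) (c (l 2) (l 2))) (a (c (l 2) (l 2)) (c (l 2) (l 2))))) (b (c (a (l 2) (l 2)) (a (l 2) (l 2))) (c (a (l 2) (l 2)) (a (c (l 2) (l 2)) (l 2)))))) (c (a (b (c (l 4) (l 4)) (c (l 4) (l 4))) (b (l 4) (c (l 4) (l 4)))) (a (b (c (l 4) (l 4)) (c (l 4) (l 4))) (c (a (l 4) (l 4)) (l 4))))), by decide +kernel⟩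

def h43_0Bm : ∃ t, chk3 f0Bm t 6 7 4 = true :=
  ⟨(a (c (a (b (c (a (c (l 2) (l 2)) (l 2)) (a (c (l 2) (l 2)) (l 2))) (c (a (l 2) (l 2)) (a (l 2) (l 2)))) (b (c (a (l 2) (l 2)) (a (l 2) (l 2))) (c (a (l 2) (l 2)) (a (l 2) (l 2))))) (a (c (b (a (c (l 2) (l 2)) (l 2)) (a (l 2) (l 2))) (b (a (c (l 2) (l 2)) (l 2)) (a (l 2) (l 2)))) (b (c (a (l 2) (l 2)) (a (l 2) (l 2))) (c (a (l 2) (l 2)) (a (l 2) (l 2)))))) (c (a (c (b (l 4) (l 4)) (b (l 4) (l 4))) (c (a (l 4) (l 4)) (a (l 4) (l 4)))) (a (b (c (l 4) (l 4)) (c (l 4) (l 4))) (b (c (l 4) (l 4)) (c (l 4) (l 4)))))), by decide +kernel⟩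

def h44_0Bm : ∃ t, chk3 f0Bm t 6 3 5 = true :=
  ⟨(b (a (c (a (b (c (a (c (l 2) (l 2)) (l 2)) (a (l 2) (l 2))) (c (a (c (l 2) (l 2)) (c (l 2) (l 2))) (a (c (l 2) (l 2)) (c (l 2) (l 2))))) (b (a (c (l 2) (l 2)) (l 4)) (c (a (c (l 2) (l 2)) (l 2)) (a (l 2) (l 2))))) (a (b (c (a (l 2) (l 2)) (a (l 2) (l 2))) (c (a (c (l 2) (l 2)) (c (l 2) (l 2))) (a (c (l 2) (l 2)) (l 2)))) (b (c (l 2) (l 2)) (c (a (l 2) (l 2)) (a (l 2) (l 2)))))) (c (a (b (c (l 4) (l 2)) (c (l 4) (l 4))) (c (l 4) (l 4))) (a (b (l 4) (c (l 4) (l 4))) (c (l 4) (l 4))))) (a (c (a (b (c (a (c (l 2) (l 2)) (l 2)) (a (l 2) (l 2))) (c (a (l 2) (l 2)) (a (l 2) (l 2)))) (b (c (a (l 2) (l 2)) (a (l 2) (l 2))) (c (a (l 2) (l 2)) (a (l 2) (l 2))))) (a (b (c (a (l 2) (l 2)) (a (l 2) (l 2))) (c (a (l 2) (l 2)) (a (l 2) (l 2)))) (b (c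 (a (l 2) (l 2)) (a (l 2) (l 2))) (c (a (l 2) (l 2)) (l 2))))) (c (a (b (c (l 4) (l 4)) (c (l 4) (l 2))) (b (c (l 4) (l 4)) (c (l 4) (l 4)))) (a (b (c (l 4) (l 4)) (c (l 2) (l 2))) (b (c (l 4) (l 4)) (c (l 4) (l 4))))))), by decide +kernel⟩

def h45_0Bm : ∃ t, chk3 f0Bm t 7 3 2 = true :=
  ⟨(c (b (a (c (a (c (l 4) (l 4)) (l 4)) (a (c (l 4) (l 4)) (l 4))) (c (a (l 4) (l 1)) (l 4))) (a (c (a (c (l 4) (l 4)) (c (l 4) (l 4))) (a (c (l 4) (l 4)) (c (l 4) (l 4)))) (l 1))) (b (a (c (a (l 4) (l 4)) (a (l 4) (l 4))) (c (l 4) (l 4))) (a (c (a (c (l 4) (l 4)) (c (l 4) (l 4))) (a (c (l 4) (l 4)) (c (l 4) (l 4)))) (l 1)))), by decide +kernel⟩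

def h46_0Bm : ∃ t, chk3 f0Bm t 6 3 6 = true :=
  ⟨(b (a (c (a (c (b (a (l 2) (l 2)) (a (l 2) (l 2))) (b (a (l 2) (l 2)) (a (l 2) (l 2)))) (c (b (l 2) (a (l 2) (l 2))) (a (l 2) (l 2)))) (a (c (b (l 2) (a (l 2) (l 2))) (a (l 2) (l 2))) (c (a (l 2) (l 2)) (l 2)))) (c (a (c (a (l 2) (l 2)) (l 4)) (l 4)) (a (c (l 2) (l 2)) (l 4)))) (a (c (a (c (b (a (l 2) (l 2)) (a (l 2) (l 2))) (b (a (l 2) (l 2)) (a (l 2) (l 2)))) (b (c (a (l 2) (l 2)) (l 2)) (c (l 2) (l 2)))) (a (c (b (a (l 2) (l 2)) (a (l 2) (l 2))) (b (a (l 2) (l 2)) (l 2))) (b (c (l 2) (l 2)) (c (l 2) (l 2))))) (c (a (b (c (l 4) (l 2)) (c (l 2) (l 2))) (b (l 4) (l 4))) (a (b (c (l 2) (l 2)) (c (l 2) (l 2))) (b (l 4) (l 4)))))), by decide +kernel⟩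

def h47_0Bm : ∃ t, chk3 f0Bm t 6 3 7 = true :=
  ⟨(b (a (c (a (c (l 2) (l 2)) (c (l 2) (l 2))) (a (c (l 2) (l 2)) (c (l 2) (l 2)))) (c (a (c (l 2) (l 2)) (l 4)) (a (l 2) (l 2)))) (a (c (a (c (b (l 2) (l 2)) (a (l 2) (l 2))) (b (c (l 2) (l 2)) (c (l 2) (l 2)))) (a (b (c (l 2) (l 2)) (c (l 2) (l 2))) (c (a (l 2) (l 2)) (l 2)))) (c (a (b (c (l 2) (l 2)) (c (l 2) (l 2))) (c (l 4) (l 4))) (a (c (l 2) (l 2)) (c (l 4) (l 2)))))), by decide +kernel⟩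

def h48_0Bm : ∃ t, chk3 f0Bm t 7 3 3 = true :=
  ⟨(c (b (a (a (c (l 4) (l 4)) (l 4)) (c (l 4) (l 4))) (a (c (a (c (l 4) (l 4)) (c (l 4) (l 4))) (a (c (l 4) (l 4)) (l 4))) (l 1))) (a (c (b (l 4) (a (l 4) (l 4))) (b (l 4) (a (l 4) (l 4)))) (b (c (l 4) (l 4)) (l 1)))), by decide +kernel⟩

theorem h49_0Bm : ∃ t, chk3 f0Bm t 6 3 3 = true := ex3_c h46_0Bm h47_0Bm

theorem h50_0Bm : ∃ t, chk3 f0Bm t 3 3 3 = true := ex3_a h49_0Bm h48_0Bm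

theorem h51_0Bm : ∃ t, chk3 f0Bm t 6 3 4 = true := ex3_b h42_0Bm h43_0Bm

theorem h52_0Bm : ∃ t, chk3 f0Bm t 6 3 2 = true := ex3_c h51_0Bm h44_0Bm

theorem h53_0Bm : ∃ t, chk3 f0Bm t 3 3 2 = true := ex3_a h52_0Bm h45_0Bm

theorem h54_0Bm : ∃ t, chk3 f0Bm t 3 3 1 = true := ex3_c h53_0Bm h50_0Bm

theorem h55_0Bm : ∃ t, chk3 f0Bm t 6 2 2 = true := ex3_c h38_0Bm h39_0Bm

theorem h56_0Bm : ∃ t, chk3 f0Bm t 3 2 2 = true := ex3_a h55_0Bm h40_0Bm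

theorem h57_0Bm : ∃ t, chk3 f0Bm t 3 2 1 = true := ex3_c h56_0Bm h41_0Bm

theorem h58_0Bm : ∃ t, chk3 f0Bm t 3 1 1 = true := ex3_b h57_0Bm h54_0Bm

theorem h59_0Bm : ∃ t, chk3 f0Bm t 5 7 6 = true := ex3_a h35_0Bm h36_0Bm

theorem h60_0Bm : ∃ t, chk3 f0Bm t 5 3 6 = true := ex3_b h34_0Bm h59_0Bm

theorem h61_0Bm : ∃ t, chk3 f0Bm t 5 3 3 = true := ex3_c h60_0Bm h37_0Bm

theorem h62_0Bm : ∃ t, chk3 f0Bm t 4 3 6 = true := ex3_b h31_0Bm h32_0Bm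

theorem h63_0Bm : ∃ t, chk3 f0Bm t 4 3 3 = true := ex3_c h62_0Bm h33_0Bm

theorem h64_0Bm : ∃ t, chk3 f0Bm t 2 3 3 = true := ex3_a h63_0Bm h61_0Bm

theorem h65_0Bm : ∃ t, chk3 f0Bm t 5 7 5 = true := ex3_a h29_0Bm h30_0Bm

theorem h66_0Bm : ∃ t, chk3 f0Bm t 11 6 5 = true := ex3_c h27_0Bm h28_0Bm

theorem h67_0Bm : ∃ t, chk3 f0Bm t 5 6 5 = true := ex3_a h26_0Bm h66_0Bm

theorem h68_0Bm : ∃ t, chk3 f0Bm t 5 3 5 = true := ex3_b h67_0Bm h65_0Bm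

theorem h69_0Bm : ∃ t, chk3 f0Bm t 11 7 4 = true := ex3_c h24_0Bm h25_0Bm

theorem h70_0Bm : ∃ t, chk3 f0Bm t 10 7 4 = true := ex3_c h22_0Bm h23_0Bm

theorem h71_0Bm : ∃ t, chk3 f0Bm t 5 7 4 = true := ex3_a h70_0Bm h69_0Bm

theorem h72_0Bm : ∃ t, chk3 f0Bm t 11 6 4 = true := ex3_c h20_0Bm h21_0Bm

theorem h73_0Bm : ∃ t, chk3 f0Bm t 5 6 4 = true := ex3_a h19_0Bm h72_0Bm

theorem h74_0Bm : ∃ t, chk3 f0Bm t 5 3 4 = true := ex3_b h73_0Bm h71_0Bm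

theorem h75_0Bm : ∃ t, chk3 f0Bm t 5 3 2 = true := ex3_c h74_0Bm h68_0Bm

theorem h76_0Bm : ∃ t, chk3 f0Bm t 4 7 5 = true := ex3_a h17_0Bm h18_0Bm

theorem h77_0Bm : ∃ t, chk3 f0Bm t 4 3 5 = true := ex3_b h16_0Bm h76_0Bm

theorem h78_0Bm : ∃ t, chk3 f0Bm t 4 7 4 = true := ex3_a h14_0Bm h15_0Bm

theorem h79_0Bm : ∃ t, chk3 f0Bm t 4 6 4 = true := ex3_a h12_0Bm h13_0Bm

theorem h80_0Bm : ∃ t, chk3 f0Bm t 4 3 4 = true := ex3_b h79_0Bm h78_0Bm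

theorem h81_0Bm : ∃ t, chk3 f0Bm t 4 3 2 = true := ex3_c h80_0Bm h77_0Bm

theorem h82_0Bm : ∃ t, chk3 f0Bm t 2 3 2 = true := ex3_a h81_0Bm h75_0Bm

theorem h83_0Bm : ∃ t, chk3 f0Bm t 2 3 1 = true := ex3_c h82_0Bm h64_0Bm

theorem h84_0Bm : ∃ t, chk3 f0Bm t 5 2 3 = true := ex3_c h10_0Bm h11_0Bm

theorem h85_0Bm : ∃ t, chk3 f0Bm t 2 2 3 = true := ex3_a h9_0Bm h84_0Bm

theorem h86_0Bm : ∃ t, chk3 f0Bm t 11 2 5 = true := ex3_c h7_0Bm h8_0Bm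

theorem h87_0Bm : ∃ t, chk3 f0Bm t 5 2 5 = true := ex3_a h6_0Bm h86_0Bm

theorem h88_0Bm : ∃ t, chk3 f0Bm t 11 2 4 = true := ex3_c h4_0Bm h5_0Bm

theorem h89_0Bm : ∃ t, chk3 f0Bm t 5 2 4 = true := ex3_a h3_0Bm h88_0Bm

theorem h90_0Bm : ∃ t, chk3 f0Bm t 5 2 2 = true := ex3_c h89_0Bm h87_0Bm

theorem h91_0Bm : ∃ t, chk3 f0Bm t 4 2 4 = true := ex3_b h0_0Bm h1_0Bm

theorem h92_0Bm : ∃ t, chk3 f0Bm t 4 2 2 = true := ex3_c h91_0Bm h2_0Bm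

theorem h93_0Bm : ∃ t, chk3 f0Bm t 2 2 2 = true := ex3_a h92_0Bm h90_0Bm

theorem h94_0Bm : ∃ t, chk3 f0Bm t 2 2 1 = true := ex3_c h93_0Bm h85_0Bm

theorem h95_0Bm : ∃ t, chk3 f0Bm t 2 1 1 = true := ex3_b h94_0Bm h83_0Bm

theorem h96_0Bm : ∃ t, chk3 f0Bm t 1 1 1 = true := ex3_a h95_0Bm h58_0Bm

theorem ct_0Bm : ∃ t, chk3 f0Bm t 1 1 1 = true := h96_0Bm

end Pool.Agent.Strip051.G.I1_8_3_16.Tab.Mo
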