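import Pool.Agent.Strip051.G.I1_8_3_16.MolD

/-! # The tight charts of a table: certificates (generated) -/

set_option linter.all false
set_option maxRecDepth 100000

namespace Pool.Agent.Strip051.G.I1_8_3_16.Tab.Mo

open Pool.Agent.Strip051.PB Pool.Agent.Strip051.PB.Mol Pool.Agent.Strip051.PB.T
open Pool.Agent.Strip051.G.I1_8_3_16.Tab

noncomputable def f1Ap : ℕ → ℕ → ℕ → ℕ → Bool :=
  onCell 0 83886080 0 16777216 134217728 67108864 (c1_Ap.row false 41943040)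

def h0_1Ap : ∃ t, chk3 f1Ap t 4 1 2 = true :=
  ⟨(c (b (a (c (a (b (c (a (l 8) (l 8)) (l 8)) (c (a (l 8) (l 8)) (l 8))) (b (c (l 8) (l 8)) (c (l 8) (l 8)))) (b (a (c (l 8) (l 8)) (c (l 8) (l 8))) (a (c (l 8) (l 8)) (c (l 8) (l 8))))) (c (b (a (c (l 8) (l 8)) (c (l 8) (l 8))) (a (c (l 8) (l 8)) (c (l 8) (l 8)))) (b (a (c (l 8) (l 8)) (l 8)) (a (c (l 8) (l 8)) (l 8))))) (a (c (a (b (c (l 8) (l 8)) (c (l 8) (l 8))) (b (c (l 8) (l 8)) (c (l 8) (l 8)))) (a (b (c (l 8) (l 8)) (c (l 8) (l 8))) (b (c (l 8) (l 8)) (c (l 8) (l 8))))) (c (a (b (c (l 8) (l 8)) (c (l 8) (l 8))) (c (b (l 8) (l 8)) (l 8))) (b (a (l 8) (l 8)) (a (l 8) (l 8)))))) (b (a (c (b (a (c (l 8) (l 8)) (l 8)) (a (c (l 8) (l 8)) (l 8))) (b (a (l 8) (l 8)) (a (l 8) (l 8)))) (c (b (a (l 8) (l 8)) (a (l 8) (l 8))) (b (a (l 8) (l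 8)) (a (l 8) (l 8))))) (a (c (b (a (c (l 8) (l 8)) (l 8)) (a (c (l 8) (l 8)) (l 8))) (b (a (l 8) (l 8)) (a (l 8) (l 8)))) (c (b (a (l 8) (l 8)) (a (l 8) (l 8))) (b (a (l 8) (l 8)) (a (l 8) (l 8))))))), by decide +kernel⟩

def h1_1Ap : ∃ t, chk3 f1Ap t 5 1 4 = true :=
  ⟨(b (a (c (b (a (l 8) (l 8)) (a (l 8) (l 8))) (b (a (l 8) (l 8)) (a (l 8) (l 8)))) (c (b (a (l 8) (c (l 10) (l 10))) (a (c (a (l 8) (l 10)) (l 10)) (l 10))) (b (a (l 8) (l 10)) (a (c (l 10) (l 10)) (l 10))))) (a (c (a (b (l 8) (c (l 12) (l 12))) (b (c (l 12) (l 12)) (c (l 12) (l 12)))) (a (b (l 8) (c (l 12) (l 12))) (b (c (l 12) (l 12)) (c (l 12) (l 10))))) (c (b (a (c (l 10) (l 10)) (l 2)) (a (c (l 2) (l 2)) (l 2))) (b (a (c (l 10) (l 10)) (l 2)) (a (c (l 2) (l 2)) (c (l 2) (a (l 2) (l 2)))))))), by decide +kernel⟩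

def h2_1Ap : ∃ t, chk3 f1Ap t 5 1 5 = true :=
  ⟨(b (a (c (a (b (l 8) (l 8)) (b (l 8) (l 8))) (b (a (l 8) (l 8)) (a (l 8) (l 8)))) (b (a (c (l 8) (c (l 8) (l 8))) (c (l 10) (b (l 10) (l 10)))) (c (a (c (l 10) (l 10)) (b (l 10) (c (l 2) (l 2)))) (b (a (c (l 10) (a (l 8) (l 10))) (l 10)) (a (a (l 8) (l 10)) (l 2)))))) (a (c (a (b (l 8) (c (l 12) (l 8))) (b (c (l 12) (l 12)) (c (l 10) (a (l 10) (l 10))))) (a (b (l 8) (c (l 8) (a (l 8) (b (l 8) (l 8))))) (b (c (a (l 8) (l 10)) (b (l 8) (l 12))) (b (c (a (l 10) (l 12)) (l 12)) (c (a (l 12) (l 2)) (l 12)))))) (c (b (a (c (l 10) (b (l 10) (a (l 10) (l 2)))) (c (a (l 2) (l 2)) (l 2))) (a (b (c (l 2) (a (l 4) (l 2))) (c (a (l 2) (l 2)) (l 2))) (c (l 2) (l 2)))) (b (a (c (b (a (l 10) (l 10)) (l 10)) (l 10)) (l 2)) (a (c (l 2) (l 2)) (l 2)))))),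 by decide +kernel⟩

def h3_1Ap : ∃ t, chk3 f1Ap t 4 1 3 = true :=
  ⟨(c (b (a (c (b (a (l 8) (l 8)) (a (l 8) (l 8))) (b (a (l 8) (l 8)) (a (l 8) (l 8)))) (c (b (a (l 8) (l 8)) (a (l 8) (l 8))) (b (a (l 8) (c (l 8) (l 8))) (a (c (l 8) (a (l 8) (l 8))) (c (l 8) (l 8)))))) (a (c (b (a (l 8) (l 8)) (a (l 8) (l 8))) (b (a (l 8) (l 8)) (a (l 8) (c (l 8) (a (l 8) (l 8)))))) (c (b (a (l 8) (c (l 8) (a (l 8) (l 8)))) (a (c (l 8) (a (l 8) (l 8))) (c (a (l 8) (l 8)) (l 8)))) (b (a (c (a (l 8) (l 8)) (l 8)) (c (l 8) (l 8))) (a (c (l 8) (l 8)) (l 8)))))) (b (a (b (c (a (l 8) (l 8)) (a (c (l 8) (l 8)) (c (l 8) (l 8)))) (c (a (l 8) (c (l 8) (l 8))) (a (c (l 8) (l 8)) (l 8)))) (c (b (a (c (l 8) (l 8)) (l 8)) (a (c (l 8) (l 8)) (l 8))) (a (l 8) (l 8)))) (a (c (b (a (c (l 8) (a (l 8) (l 8))) (c (l 8) (l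 8))) (a (c (b (l 8) (l 8)) (l 8)) (l 8))) (a (b (l 8) (l 8)) (l 8))) (c (b (a (l 8) (l 8)) (l 8)) (l 8))))), by decide +kernel⟩

def h4_1Ap : ∃ t, chk3 f1Ap t 5 1 3 = true :=
  ⟨(c (b (a (b (c (a (l 8) (c (l 8) (l 8))) (a (l 8) (l 8))) (c (a (c (l 8) (l 8)) (l 8)) (a (l 8) (l 8)))) (b (a (c (l 8) (l 8)) (c (l 10) (l 10))) (c (a (c (l 10) (l 10)) (l 10)) (l 10)))) (a (a (c (b (c (l 8) (l 8)) (a (l 8) (l 8))) (b (l 8) (l 8))) (c (b (b (l 8) (l 12)) (c (l 10) (l 10))) (b (l 10) (l 10)))) (c (b (a (l 10) (l 2)) (l 2)) (a (l 10) (l 2))))) (b (a (c (a (l 8) (l 8)) (l 8)) (c (a (l 10) (l 10)) (l 10))) (a (a (c (l 8) (l 8)) (c (l 10) (l 10))) (c (l 10) (l 10))))), by decide +kernel⟩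

def h5_1Ap : ∃ t, chk3 f1Ap t 3 1 1 = true :=
  ⟨(c (a (c (b (a (c (a (b (l 10) (l 2)) (l 2)) (b (a (l 10) (l 2)) (a (l 2) (c (l 2) (l 2))))) (b (c (a (l 2) (l 2)) (l 2)) (c (a (l 2) (l 2)) (l 2)))) (a (c (b (a (l 2) (l 2)) (a (l 2) (c (l 2) (l 2)))) (b (a (c (l 2) (l 2)) (l 2)) (a (c (l 2) (l 2)) (l 2)))) (b (c (a (l 2) (l 2)) (l 2)) (c (a (l 2) (l 2)) (l 2))))) (b (a (b (c (a (c (l 10) (l 10)) (l 2)) (a (l 10) (l 2))) (c (a (c (l 2) (l 2)) (l 2)) (l 2))) (c (l 2) (l 2))) (a (c (b (a (l 2) (l 2)) (l 2)) (l 2)) (c (l 2) (l 2))))) (c (b (a (c (a (l 2) (l 2)) (l 2)) (l 2)) (a (c (l 2) (l 2)) (l 2))) (a (b (l 2) (l 2)) (l 2)))) (a (c (b (a (c (l 10) (l 10)) (l 2)) (a (c (l 2) (l 2)) (l 2))) (b (a (l 10) (l 2)) (a (l 2) (l 2)))) (c (a (b (l 2) (l 2)) (l 2)) (a (l 2) (l 2))))), by decide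 +kernel⟩

theorem h6_1Ap : ∃ t, chk3 f1Ap t 2 1 3 = true := ex3_a h3_1Ap h4_1Ap

theorem h7_1Ap : ∃ t, chk3 f1Ap t 5 1 2 = true := ex3_c h1_1Ap h2_1Ap

theorem h8_1Ap : ∃ t, chk3 f1Ap t 2 1 2 = true := ex3_a h0_1Ap h7_1Ap

theorem h9_1Ap : ∃ t, chk3 f1Ap t 2 1 1 = true := ex3_c h8_1Ap h6_1Ap

theorem h10_1Ap : ∃ t, chk3 f1Ap t 1 1 1 = true := ex3_a h9_1Ap h5_1Ap

theorem ct_1Ap : ∃ t, chk3 f1Ap t 1 1 1 = true := h10_1Ap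

noncomputable def f1Apk1 : ℕ → ℕ → ℕ → ℕ → Bool :=
  onCell 0 83886080 0 16777216 134217728 67108864 (c1_Apk1.row false 41943040)

def h0_1Apk1 : ∃ t, chk3 f1Apk1 t 4 1 2 = true :=
  ⟨(c (b (a (c (a (b (c (l 8) (l 8)) (c (l 8) (l 8))) (b (l 8) (l 8))) (b (a (l 8) (l 8)) (a (l 8) (l 8)))) (c (b (a (l 8) (l 8)) (a (l 8) (l 8))) (a (b (l 8) (l 8)) (l 8)))) (a (c (a (c (b (l 8) (l 8)) (l 8)) (b (l 8) (l 8))) (b (a (l 8) (l 8)) (a (l 8) (l 8)))) (c (b (a (l 8) (l 8)) (a (l 8) (l 8))) (a (l 8) (l 8))))) (b (a (c (a (b (l 8) (l 8)) (l 8)) (a (l 8) (l 8))) (c (a (l 8) (l 8)) (a (l 8) (l 8)))) (a (c (a (b (l 8) (l 8)) (l 8)) (a (l 8) (l 8))) (c (a (l 8) (l 8)) (a (l 8) (l 8)))))), by decide +kernel⟩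

def h1_1Apk1 : ∃ t, chk3 f1Apk1 t 5 1 2 = true :=
  ⟨(c (b (a (c (a (l 8) (l 8)) (a (l 8) (l 8))) (b (a (c (l 8) (l 8)) (c (l 10) (l 10))) (c (a (l 10) (l 10)) (a (l 10) (l 10))))) (a (c (b (a (l 8) (c (l 10) (l 10))) (a (c (l 12) (l 12)) (l 12))) (b (a (l 8) (l 12)) (a (l 12) (l 10)))) (c (a (b (l 10) (l 2)) (l 2)) (b (a (l 10) (l 2)) (a (l 2) (l 2)))))) (b (a (c (a (l 8) (l 8)) (a (l 8) (l 8))) (b (a (c (l 8) (l 8)) (c (l 10) (l 10))) (c (a (l 10) (l 10)) (a (l 10) (l 10))))) (a (c (b (a (l 8) (l 10)) (a (l 12) (l 12))) (b (a (l 8) (c (l 10) (l 10))) (a (c (l 8) (l 12)) (c (l 10) (l 10))))) (b (c (a (c (l 10) (l 10)) (l 2)) (a (l 10) (l 2))) (c (a (c (l 2) (l 2)) (l 2)) (l 2)))))), by decide +kernel⟩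

def h2_1Apk1 : ∃ t, chk3 f1Apk1 t 2 1 3 = true :=
  ⟨(a (c (b (a (c (a (l 8) (l 8)) (a (l 8) (l 8))) (c (a (l 8) (l 8)) (b (a (l 8) (l 8)) (l 8)))) (a (c (a (l 8) (l 8)) (b (l 8) (a (l 8) (l 8)))) (c (b (a (l 8) (l 8)) (a (l 8) (l 8))) (a (l 8) (l 8))))) (b (a (b (c (l 8) (l 8)) (c (a (l 8) (l 8)) (l 8))) (c (a (l 8) (l 8)) (l 8))) (a (c (b (a (l 8) (l 8)) (l 8)) (l 8)) (c (l 8) (l 8))))) (c (a (b (c (a (l 8) (l 8)) (l 8)) (c (b (a (l 8) (l 10)) (a (l 12) (l 10))) (a (b (l 8) (l 8)) (l 10)))) (b (c (b (a (l 8) (l 10)) (l 10)) (l 10)) (c (l 10) (l 10)))) (b (a (c (l 8) (l 8)) (c (l 10) (l 10))) (a (a (c (l 8) (l 8)) (l 10)) (l 10))))), by decide +kernel⟩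

def h3_1Apk1 : ∃ t, chk3 f1Apk1 t 3 1 1 = true :=
  ⟨(c (a (c (b (a (b (c (l 10) (l 10)) (c (l 2) (a (l 2) (l 2)))) (c (a (l 2) (l 2)) (l 2))) (a (c (a (l 2) (l 2)) (b (l 2) (l 2))) (c (l 2) (l 2)))) (a (b (c (a (l 10) (l 2)) (l 10)) (c (l 2) (l 2))) (b (l 2) (l 2)))) (c (b (a (l 2) (l 2)) (a (l 2) (l 2))) (a (l 2) (l 2)))) (a (c (b (a (l 10) (l 2)) (a (l 2) (l 2))) (a (b (l 10) (l 2)) (l 2))) (c (a (l 2) (l 2)) (a (l 2) (l 2))))), by decide +kernel⟩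

theorem h4_1Apk1 : ∃ t, chk3 f1Apk1 t 2 1 2 = true := ex3_a h0_1Apk1 h1_1Apk1

theorem h5_1Apk1 : ∃ t, chk3 f1Apk1 t 2 1 1 = true := ex3_c h4_1Apk1 h2_1Apk1

theorem h6_1Apk1 : ∃ t, chk3 f1Apk1 t 1 1 1 = true := ex3_a h5_1Apk1 h3_1Apk1

theorem ct_1Apk1 : ∃ t, chk3 f1Apk1 t 1 1 1 = true := h6_1Apk1

noncomputable def f1Apk2 : ℕ → ℕ → ℕ → ℕ → Bool :=
  onCell 0 83886080 0 16777216 134217728 67108864 (c1_Apk2.row false 41943040)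

def h0_1Apk2 : ∃ t, chk3 f1Apk2 t 2 1 1 = true :=
  ⟨(c (a (c (a (c (b (a (l 8) (l 8)) (a (l 8) (l 8))) (b (a (l 8) (l 8)) (a (l 8) (l 8)))) (c (b (a (l 8) (l 8)) (a (l 8) (l 8))) (b (l 8) (l 8)))) (a (c (b (a (l 8) (l 8)) (l 8)) (b (l 8) (l 8))) (c (b (l 8) (l 8)) (b (l 8) (l 8))))) (c (a (c (b (l 8) (b (a (l 8) (l 10)) (a (l 12) (l 10)))) (b (l 8) (b (a (l 8) (l 10)) (a (l 12) (l 10))))) (c (b (a (b (l 8) (l 10)) (l 10)) (a (l 10) (l 2))) (b (a (l 10) (l 10)) (a (l 10) (l 2))))) (a (b (c (l 8) (l 8)) (c (a (b (l 8) (l 10)) (l 10)) (b (a (l 8) (l 10)) (l 12)))) (b (b (c (l 10) (l 10)) (c (l 10) (l 10))) (c (a (l 10) (l 2)) (l 10)))))) (a (c (a (c (b (l 8) (l 8)) (b (l 8) (l 8))) (b (c (l 8) (l 8)) (c (l 8) (l 8)))) (a (c (b (l 8) (l 8)) (l 8)) (b (l 8) (l 8)))) (c (a (b (c (l 8) (l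 8)) (c (a (l 10) (l 10)) (l 10))) (b (c (l 10) (l 10)) (l 10))) (b (a (l 8) (l 10)) (a (c (l 10) (l 10)) (l 10)))))), by decide +kernel⟩

def h1_1Apk2 : ∃ t, chk3 f1Apk2 t 3 1 1 = true :=
  ⟨(c (a (c (a (b (c (l 10) (l 10)) (c (l 2) (l 2))) (b (l 2) (l 2))) (b (a (c (l 10) (l 10)) (l 2)) (a (l 2) (l 2)))) (c (a (l 2) (l 2)) (a (l 2) (l 2)))) (a (c (a (b (l 10) (l 2)) (l 2)) (a (l 10) (l 2))) (c (l 2) (l 2)))), by decide +kernel⟩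

theorem h2_1Apk2 : ∃ t, chk3 f1Apk2 t 1 1 1 = true := ex3_a h0_1Apk2 h1_1Apk2

theorem ct_1Apk2 : ∃ t, chk3 f1Apk2 t 1 1 1 = true := h2_1Apk2

noncomputable def f1Am : ℕ → ℕ → ℕ → ℕ → Bool :=
  onCell 0 83886080 0 16777216 134217728 67108864 (c1_Am.row true 41943040)

def h0_1Am : ∃ t, chk3 f1Am t 8 2 4 = true :=
  ⟨(c (b (a (c (b (a (c (l 8) (l 8)) (l 8)) (a (c (l 8) (l 8)) (c (l 8) (l 8)))) (b (a (l 8) (l 8)) (a (c (l 8) (l 8)) (l 8)))) (c (a (c (l 8) (l 8)) (b (l 8) (l 8))) (b (a (l 8) (l 8)) (a (l 8) (l 8))))) (a (b (a (l 3) (a (l 3) (c (l 8) (l 8)))) (l 3)) (c (a (b (c (l 8) (l 8)) (c (l 8) (l 8))) (c (b (l 8) (l 8)) (l 8))) (a (c (l 8) (l 8)) (b (l 8) (l 8)))))) (b (a (c (b (a (l 8) (l 8)) (a (l 8) (l 8))) (b (a (l 8) (l 8)) (a (l 8) (l 8)))) (c (b (a (l 8) (l 8)) (a (l 8) (l 8)))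 (a (b (l 8) (l 8)) (l 8)))) (a (b (a (l 3) (c (l 8) (l 8))) (l 3)) (c (a (b (l 8) (l 8)) (b (l 8) (l 8))) (a (b (l 8) (l 8)) (b (l 8) (l 8))))))), by decide +kernel⟩

def h1_1Am : ∃ t, chk3 f1Am t 9 2 4 = true :=
  ⟨(c (b (a (c (b (a (l 8) (l 8)) (a (l 8) (l 8))) (b (a (l 8) (l 8)) (a (l 8) (l 8)))) (c (b (a (l 8) (l 8)) (a (l 8) (l 8))) (a (l 8) (l 8)))) (a (c (a (c (l 8) (l 8)) (b (l 8) (l 8))) (a (b (l 8) (l 8)) (b (l 8) (l 8)))) (c (a (b (l 8) (l 8)) (b (l 8) (l 8))) (a (b (l 8) (l 8)) (b (l 8) (l 8)))))) (a (b (c (a (b (l 8) (l 8)) (l 8)) (a (l 8) (l 8))) (c (a (b (l 8) (l 8)) (b (l 8) (l 8))) (a (b (l 8) (l 8)) (l 8)))) (b (c (a (l 8) (l 8)) (a (l 8) (l 8))) (c (a (l 8) (l 8)) (a (l 8) (l 8)))))), by decide +kernel⟩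

def h2_1Am : ∃ t, chk3 f1Am t 4 2 5 = true :=
  ⟨(a (c (a (b (c (a (b (l 8) (l 8)) (l 8)) (a (l 8) (l 8))) (b (a (l 3) (c (l 8) (l 8))) (l 3))) (b (c (a (l 8) (l 8)) (a (l 8) (l 8))) (c (a (b (l 8) (l 8)) (l 8)) (a (l 8) (l 8))))) (b (a (c (a (l 8) (l 8)) (a (l 8) (l 8))) (c (a (l 8) (l 8)) (a (l 8) (l 8)))) (a (b (c (a (l 3) (l 8)) (l 8)) (l 3)) (c (a (l 8) (l 8)) (a (l 8) (l 8)))))) (c (b (a (c (a (l 8) (l 8)) (a (l 8) (l 8))) (c (a (l 8) (l 8)) (a (l 8) (l 8)))) (a (c (a (l 8) (l 8)) (a (l 8) (l 8))) (c (a (l 8) (l 8)) (a (l 8) (l 8))))) (b (a (c (a (l 8) (l 8)) (l 8)) (c (l 8) (l 8))) (a (c (a (l 8) (l 8)) (a (l 8) (l 8))) (c (a (l 8) (l 8)) (a (l 8) (l 8))))))), by decide +kernel⟩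

def h3_1Am : ∃ t, chk3 f1Am t 5 2 4 = true :=
  ⟨(a (c (b (a (c (a (l 8) (l 8)) (a (l 8) (l 8))) (c (a (l 8) (l 8)) (a (l 8) (l 8)))) (a (c (a (b (l 8) (l 8)) (b (l 8) (l 8))) (a (l 8) (l 8))) (c (a (l 8) (l 8)) (a (l 8) (l 8))))) (b (a (c (a (l 8) (l 8)) (a (l 8) (l 8))) (c (a (l 8) (l 8)) (l 8))) (a (c (a (l 8) (l 8)) (a (l 8) (l 8))) (c (a (l 8) (l 8)) (a (l 8) (l 8)))))) (c (b (a (c (a (l 8) (l 8)) (a (l 8) (l 8))) (b (c (l 10) (l 10)) (c (l 8) (l 8)))) (a (c (a (l 8) (l 8)) (a (l 8) (l 8))) (c (a (l 8) (l 8)) (a (l 8) (l 8))))) (b (b (a (c (l 8) (l 8)) (c (l 10) (l 10))) (a (c (l 8) (l 8)) (c (l 8) (l 8)))) (a (c (a (l 8) (l 8)) (l 8)) (c (l 8) (l 8)))))), by decide +kernel⟩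

def h4_1Am : ∃ t, chk3 f1Am t 5 2 5 = true :=
  ⟨(a (c (b (a (c (l 8) (l 8)) (c (l 8) (l 8))) (a (c (a (l 8) (l 8)) (a (l 8) (l 8))) (c (a (l 8) (l 8)) (l 8)))) (b (a (c (l 8) (l 8)) (c (l 8) (l 8))) (a (c (l 8) (l 8)) (c (l 8) (l 8))))) (c (b (a (c (l 8) (l 8)) (c (l 10) (l 10))) (a (c (l 8) (l 8)) (c (l 8) (l 8)))) (b (b (a (c (l 8) (l 8)) (c (l 10) (a (l 8) (c (l 10) (l 10))))) (a (c (l 8) (l 8)) (c (l 8) (l 8)))) (a (c (l 8) (l 8)) (c (l 8) (l 8)))))), by decide +kernel⟩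

def h5_1Am : ∃ t, chk3 f1Am t 8 3 4 = true :=
  ⟨(b (a (l 3) (c (c (a (l 3) (b (c (l 8) (l 8)) (a (l 3) (c (l 8) (l 8))))) (a (l 3) (b (c (l 8) (l 8)) (c (a (l 3) (l 8)) (l 8))))) (a (l 3) (c (b (l 8) (c (l 8) (l 8))) (b (l 8) (c (l 8) (l 8))))))) (l 3)), by decide +kernel⟩

def h6_1Am : ∃ t, chk3 f1Am t 9 6 4 = true :=
  ⟨(c (a (c (b (a (c (l 8) (l 8)) (c (l 8) (l 8))) (a (c (a (l 8) (l 8)) (a (l 8) (l 8))) (c (a (l 8) (l 8)) (l 8)))) (b (a (l 8) (c (l 8) (l 8))) (a (c (l 8) (l 8)) (c (l 8) (l 8))))) (c (b (a (l 8) (c (l 8) (l 8))) (a (c (l 8) (l 8)) (c (l 8) (l 8)))) (a (b (l 8) (c (l 8) (l 8))) (c (l 8) (l 8))))) (a (c (a (b (c (l 8) (l 8)) (c (l 8) (l 8))) (b (l 8) (c (l 8) (l 8)))) (a (c (l 8) (l 8)) (b (l 8) (l 8)))) (c (a (b (l 8) (l 8)) (b (l 8) (l 8))) (a (b (l 8) (l 8)) (b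 (l 8) (l 8)))))), by decide +kernel⟩

def h7_1Am : ∃ t, chk3 f1Am t 9 7 4 = true :=
  ⟨(c (a (c (b (a (c (a (l 3) (l 8)) (l 8)) (c (l 8) (l 8))) (a (l 3) (c (a (l 3) (l 8)) (l 8)))) (b (a (c (l 8) (l 8)) (c (l 8) (l 8))) (a (l 3) (c (l 8) (l 8))))) (c (b (a (c (l 8) (l 8)) (c (l 8) (l 8))) (a (c (l 8) (l 8)) (c (l 8) (l 8)))) (b (a (c (l 8) (l 8)) (c (l 8) (l 8))) (a (c (l 8) (l 8)) (c (l 8) (l 8)))))) (a (c (b (a (c (l 8) (l 8)) (c (l 8) (l 8))) (a (l 3) (c (l 8) (l 8)))) (b (a (c (l 8) (l 8)) (c (l 8) (l 8))) (a (l 3) (c (l 8) (l 8))))) (c (b (a (c (l 8) (l 8)) (c (l 8) (l 8))) (a (c (l 8) (l 8)) (c (l 8) (l 8)))) (b (a (c (l 8) (l 8)) (c (l 8) (l 8))) (a (c (l 8) (l 8)) (c (l 8) (l 8))))))), by decide +kernel⟩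

def h8_1Am : ∃ t, chk3 f1Am t 4 3 5 = true :=
  ⟨(a (b (a (l 3) (c (a (l 3) (c (b (l 8) (l 8)) (b (l 8) (l 8)))) (a (l 3) (c (l 8) (l 8))))) (l 3)) (c (b (a (c (a (b (l 8) (l 8)) (b (l 8) (l 8))) (a (l 8) (l 8))) (c (a (l 8) (l 8)) (a (l 8) (l 8)))) (a (c (b (a (c (l 8) (l 8)) (c (l 8) (l 8))) (a (l 3) (c (l 8) (l 8)))) (b (a (c (l 8) (l 8)) (l 8)) (a (l 3) (c (l 8) (l 8))))) (c (b (a (l 8) (l 8)) (a (c (l 8) (l 8)) (c (l 8) (l 8)))) (b (a (l 8) (l 8)) (a (c (l 8) (l 8)) (c (l 8) (l 8))))))) (b (a (c (a (l 8) (l 8)) (a (l 8) (l 8))) (c (a (l 8) (l 8)) (a (l 8) (l 8)))) (a (c (b (a (l 8) (l 8)) (a (l 3) (c (l 8) (l 8)))) (b (a (l 8) (l 8)) (a (l 3) (c (l 8) (l 8))))) (c (b (a (l 8) (l 8)) (a (c (l 8) (l 8)) (l 8))) (b (l 8) (a (l 8) (l 8)))))))), by decide +kernel⟩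

def h9_1Am : ∃ t, chk3 f1Am t 10 3 4 = true :=
  ⟨(c (b (a (c (a (b (l 8) (c (l 8) (l 8))) (b (l 8) (l 8))) (a (b (l 8) (l 8)) (b (l 8) (l 8)))) (c (a (b (l 8) (l 8)) (b (l 8) (l 8))) (a (b (l 8) (l 8)) (l 8)))) (a (c (b (a (c (l 8) (l 8)) (c (l 8) (l 8))) (a (c (l 8) (l 8)) (c (l 8) (l 8)))) (b (a (c (l 8) (l 8)) (c (l 8) (l 8))) (a (c (l 8) (l 8)) (c (l 8) (l 8))))) (c (b (a (c (l 8) (l 8)) (c (l 8) (l 8))) (a (c (l 8) (l 8)) (c (l 8) (l 8)))) (b (a (c (l 8) (l 8)) (l 8)) (a (c (l 8) (l 8)) (c (l 8) (l 8))))))) (b (a (c (a (b (l 8) (l 8)) (l 8)) (a (l 8) (l 8))) (c (a (l 8) (l 8)) (a (l 8) (l 8)))) (a (c (b (a (c (l 8) (l 8)) (c (l 8) (l 8))) (a (c (l 8) (l 8)) (c (l 8) (l 8)))) (b (a (l 8) (l 8)) (a (c (l 8) (l 8)) (c (l 8) (l 8))))) (c (b (a (l 8) (l 8)) (a (c (l 8) (l 8)) (c (l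 8) (l 8)))) (b (a (l 8) (l 8)) (a (c (l 8) (l 8)) (c (l 8) (l 8)))))))), by decide +kernel⟩

def h10_1Am : ∃ t, chk3 f1Am t 11 3 4 = true :=
  ⟨(c (b (a (c (a (l 8) (l 8)) (a (l 8) (l 8))) (c (a (l 8) (l 8)) (a (l 8) (l 8)))) (a (c (b (a (c (l 8) (l 8)) (l 8)) (a (c (l 8) (l 8)) (c (l 8) (l 8)))) (b (a (l 8) (l 8)) (a (c (l 8) (l 8)) (c (l 8) (l 8))))) (c (b (a (l 8) (l 8)) (a (c (l 8) (l 8)) (c (l 8) (l 8)))) (b (l 8) (a (c (l 8) (l 8)) (l 8)))))) (a (b (c (a (l 8) (l 8)) (a (l 8) (l 8))) (c (b (a (l 8) (l 8)) (a (c (l 8) (l 8)) (l 8))) (b (l 8) (a (l 8) (l 8))))) (b (c (a (l 8) (l 8)) (a (l 8) (l 8))) (c (b (l 8) (a (l 8) (l 8))) (a (l 8) (l 8)))))), by decide +kernel⟩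

def h11_1Am : ∃ t, chk3 f1Am t 5 3 5 = true :=
  ⟨(a (c (b (a (c (a (l 8) (l 8)) (a (l 8) (l 8))) (c (a (l 8) (l 8)) (a (l 8) (l 8)))) (a (c (b (a (l 8) (l 8)) (a (c (l 8) (l 8)) (c (l 8) (l 8)))) (b (l 8) (a (c (l 8) (l 8)) (l 8)))) (c (b (l 8) (a (l 8) (l 8))) (a (b (l 8) (l 8)) (l 8))))) (b (a (c (a (l 8) (l 8)) (a (l 8) (l 8))) (c (a (l 8) (l 8)) (l 8))) (a (c (a (b (l 8) (l 8)) (l 8)) (a (l 8) (l 8))) (c (a (l 8) (l 8)) (a (l 8) (l 8)))))) (c (b (a (c (a (l 8) (l 8)) (l 8)) (c (l 8) (l 8))) (a (c (a (l 8) (l 8)) (a (l 8) (l 8))) (c (a (l 8) (l 8)) (a (l 8) (l 8))))) (b (a (c (l 8) (l 8)) (c (l 8) (l 8))) (a (c (a (l 8) (l 8)) (a (l 8) (l 8))) (c (l 8) (l 8)))))), by decide +kernel⟩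

def h12_1Am : ∃ t, chk3 f1Am t 4 1 6 = true :=
  ⟨(b (a (c (b (a (c (a (l 8) (l 8)) (a (l 8) (l 8))) (c (l 8) (l 8))) (a (a (l 3) (c (l 8) (l 8))) (c (a (l 8) (l 8)) (a (l 8) (l 8))))) (b (a (c (l 8) (l 8)) (c (l 8) (l 8))) (a (a (l 3) (c (l 8) (l 8))) (c (l 8) (l 8))))) (c (b (a (c (l 8) (l 8)) (c (l 8) (l 8))) (a (c (a (l 8) (l 8)) (l 8)) (c (l 8) (l 8)))) (b (a (c (l 8) (l 8)) (c (l 8) (l 8))) (a (c (l 8) (l 8)) (c (l 8) (l 8)))))) (a (b (c (a (l 3) (a (l 3) (c (l 8) (l 8)))) (a (l 3) (a (l 3) (c (l 8) (l 8))))) (l 3)) (c (a (b (c (a (l 8) (l 8)) (a (l 8) (l 8))) (c (b (l 8) (a (l 3) (l 8))) (a (b (l 8) (l 3)) (l 8)))) (b (c (a (l 8) (l 8)) (a (l 8) (l 8))) (c (a (l 8) (l 8)) (a (l 8) (l 8))))) (b (a (c (a (l 8) (l 8)) (l 8)) (c (l 8) (l 8))) (a (c (a (l 8) (l 8)) (a (l 8) (l 8)))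 (c (a (l 8) (l 8)) (a (l 8) (l 8)))))))), by decide +kernel⟩

def h13_1Am : ∃ t, chk3 f1Am t 4 2 7 = true :=
  ⟨(a (c (b (a (c (l 8) (l 8)) (c (l 8) (l 8))) (a (c (l 8) (l 8)) (c (l 8) (l 8)))) (b (a (c (l 8) (a (l 8) (l 8))) (c (a (l 8) (l 8)) (b (a (c (l 8) (a (l 8) (l 8))) (c (l 8) (l 8))) (a (l 8) (c (l 8) (l 8)))))) (a (c (l 8) (l 8)) (c (l 8) (a (l 8) (l 8)))))) (c (b (a (c (l 8) (b (a (l 8) (c (l 8) (a (l 8) (l 8)))) (l 8))) (c (b (a (l 8) (c (l 8) (l 8))) (l 8)) (b (a (c (l 8) (l 8)) (l 8)) (a (c (l 8) (l 8)) (c (l 8) (l 8)))))) (a (c (l 8) (l 8)) (c (a (l 8) (l 8)) (b (a (l 8) (c (l 8) (l 8))) (l 8))))) (b (a (c (b (a (c (a (l 8) (l 8)) (l 8)) (l 8)) (a (c (l 8) (a (l 8) (l 8))) (c (a (l 8) (l 8)) (l 8)))) (b (l 8) (a (c (l 8) (l 8)) (l 8)))) (c (a (l 8) (l 8)) (l 8))) (a (c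 (b (a (l 8) (c (l 8) (a (l 8) (l 8)))) (l 8)) (b (a (c (a (l 8) (l 8)) (l 8)) (l 8)) (a (c (l 8) (b (a (l 8) (l 8)) (l 8))) (c (a (l 8) (l 8)) (l 8))))) (c (b (a (c (a (l 8) (l 8)) (l 8)) (l 8)) (a (c (l 8) (a (l 8) (l 8))) (c (a (l 8) (l 8)) (l 8)))) (b (l 8) (a (l 8) (l 8)))))))), by decide +kernel⟩

def h14_1Am : ∃ t, chk3 f1Am t 4 3 7 = true :=
  ⟨(a (b (a (l 3) (a (l 3) (c (c (l 8) (l 8)) (c (l 8) (l 8))))) (l 3)) (c (b (a (c (l 8) (l 8)) (c (l 8) (a (l 8) (l 8)))) (a (c (a (l 8) (l 8)) (a (l 8) (l 8))) (c (a (l 8) (l 8)) (a (l 8) (l 8))))) (b (a (c (a (l 8) (l 8)) (b (a (l 8) (c (l 8) (a (l 8) (l 8)))) (l 8))) (c (a (l 8) (b (c (l 8) (b (l 8) (a (l 8) (l 8)))) (l 8))) (b (a (c (a (l 8) (l 8)) (l 8)) (l 8)) (a (c (l 8) (a (l 8) (l 8))) (c (b (l 8) (a (l 8) (l 8))) (l 8)))))) (a (c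 (a (l 8) (l 8)) (a (l 8) (l 8))) (c (a (l 8) (l 8)) (a (l 8) (b (c (l 8) (b (l 8) (a (l 8) (l 8)))) (l 8)))))))), by decide +kernel⟩

def h15_1Am : ∃ t, chk3 f1Am t 5 2 6 = true :=
  ⟨(a (c (b (a (c (l 8) (l 8)) (c (l 8) (a (l 8) (l 8)))) (a (c (l 8) (l 8)) (c (l 8) (l 8)))) (b (a (c (l 8) (b (a (c (l 8) (a (l 8) (l 8))) (c (l 8) (l 8))) (a (l 8) (c (l 8) (l 8))))) (c (b (a (c (l 8) (l 8)) (l 8)) (a (l 8) (c (l 8) (l 8)))) (b (l 8) (a (c (l 8) (l 8)) (l 8))))) (a (c (l 8) (a (l 8) (l 8))) (c (a (l 8) (l 8)) (b (a (c (l 8) (l 8)) (c (l 8) (l 8))) (a (l 8) (c (l 8) (l 8)))))))) (b (b (c (a (c (a (l 8) (c (l 8) (l 8))) (a (c (l 8) (l 8)) (l 8))) (c (a (l 8) (l 10)) (l 10))) (a (c (l 8) (l 8)) (l 10))) (c (a (c (l 8) (a (c (l 8) (l 8)) (c (l 8) (l 8)))) (c (a (c (l 8) (l 8)) (l 8)) (l 8)))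 (a (c (a (l 8) (l 8)) (l 8)) (l 8)))) (c (a (c (l 8) (b (a (l 8) (c (l 8) (l 8))) (l 8))) (c (b (a (l 8) (c (l 8) (l 8))) (l 8)) (b (a (c (l 8) (l 8)) (l 8)) (a (c (l 8) (l 8)) (l 8))))) (a (c (b (a (c (a (l 8) (l 8)) (l 8)) (l 8)) (a (c (l 8) (a (l 8) (l 8))) (c (a (l 8) (l 8)) (l 8)))) (b (l 8) (a (l 8) (l 8)))) (c (a (l 8) (l 8)) (l 8)))))), by decide +kernel⟩

def h16_1Am : ∃ t, chk3 f1Am t 5 3 6 = true :=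
  ⟨(a (c (b (a (c (l 8) (l 8)) (c (l 8) (l 8))) (a (c (a (l 8) (l 8)) (a (l 8) (l 8))) (c (a (l 8) (l 8)) (l 8)))) (b (a (c (l 8) (l 8)) (c (l 8) (a (l 8) (l 8)))) (a (c (a (l 8) (l 8)) (l 8)) (c (l 8) (a (l 8) (l 8)))))) (c (b (a (c (l 8) (l 8)) (c (l 8) (b (a (l 8) (c (l 8) (l 8))) (l 8)))) (a (c (l 8) (l 8)) (c (l 8) (a (l 8) (l 8))))) (b (a (c (b (a (l 8) (c (l 8) (a (l 8) (l 8)))) (l 8)) (b (a (c (a (l 8) (l 8)) (l 8)) (l 8)) (a (c (l 8) (a (l 8) (l 8))) (c (a (l 8) (l 8)) (l 8))))) (c (b (a (c (l 8) (l 8)) (l 8)) (a (c (l 8) (a (l 8) (l 8))) (c (l 8) (l 8)))) (a (b (l 8) (l 8)) (l 8)))) (a (c (a (l 8) (l 8)) (b (a (l 8) (c (l 8) (a (l 8) (l 8)))) (l 8))) (c (a (l 8) (b (c (l 8) (a (l 8) (l 8))) (l 8))) (b (a (c (a (l 8) (l 8)) (l 8)) (l 8)) (a (c (l 8) (a (l 8) (l 8))) (c (a (b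 (l 8) (l 8)) (l 8)) (l 8))))))))), by decide +kernel⟩

def h17_1Am : ∃ t, chk3 f1Am t 5 2 7 = true :=
  ⟨(a (c (b (a (c (b (a (l 8) (l 8)) (a (c (a (l 8) (l 8)) (l 8)) (l 8))) (l 8)) (c (l 8) (l 8))) (a (c (b (a (c (l 8) (a (l 8) (l 8))) (c (a (l 8) (l 8)) (l 8))) (a (l 8) (c (l 8) (a (l 8) (l 8))))) (b (a (c (l 8) (l 8)) (l 8)) (a (c (a (l 8) (l 8)) (l 8)) (l 8)))) (c (b (l 8) (a (c (a (l 8) (l 8)) (l 8)) (l 8))) (l 8)))) (b (l 8) (a (c (a (l 8) (l 8)) (l 8)) (l 8)))) (b (c (l 10) (l 10)) (c (a (l 8) (l 8)) (l 8)))), by decide +kernel⟩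

def h18_1Am : ∃ t, chk3 f1Am t 10 3 7 = true :=
  ⟨(c (b (a (c (a (l 8) (l 8)) (b (a (c (l 8) (a (l 8) (b (l 8) (l 8)))) (c (a (l 8) (l 8)) (l 8))) (a (l 8) (c (l 8) (a (l 8) (l 8)))))) (c (b (a (c (l 8) (a (l 8) (l 8))) (c (l 8) (l 8))) (a (l 8) (c (l 8) (a (l 8) (l 8))))) (b (a (l 8) (l 8)) (a (c (a (l 8) (l 8)) (l 8)) (l 8))))) (a (c (a (l 8) (l 8)) (a (l 8) (l 8))) (c (a (l 8) (b (l 8) (l 8))) (b (a (c (l 8) (a (l 8) (l 8))) (c (a (b (l 8) (l 8)) (l 8)) (l 8))) (a (l 8) (c (l 8) (a (b (l 8) (l 8)) (l 8)))))))) (b (a (c (b (a (c (l 8) (l 8)) (l 8)) (a (c (a (l 8) (b (l 8) (l 8))) (a (l 8) (l 8))) (c (l 8) (l 8)))) (a (l 8) (l 8))) (c (l 8) (l 8))) (a (c (b (a (c (l 8) (a (l 8) (b (l 8) (l 8)))) (c (a (l 8) (b (l 8) (l 8))) (l 8))) (a (l 8) (c (l 8) (a (l 8) (b (l 8) (l 8)))))) (b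 (a (c (a (b (l 8) (l 8)) (l 8)) (l 8)) (l 8)) (a (c (a (l 8) (b (l 8) (l 8))) (a (b (l 8) (l 8)) (l 8))) (c (a (l 8) (l 8)) (l 8))))) (c (b (a (c (l 8) (l 8)) (l 8)) (a (c (a (l 8) (l 8)) (l 8)) (l 8))) (l 8))))), by decide +kernel⟩

def h19_1Am : ∃ t, chk3 f1Am t 11 3 7 = true :=
  ⟨(b (c (a (c (a (b (l 8) (c (l 8) (l 8))) (l 8)) (l 8)) (l 8)) (l 8)) (c (a (c (b (a (c (a (l 8) (b (l 8) (l 8))) (a (l 8) (l 8))) (c (l 8) (l 8))) (a (c (l 8) (a (l 8) (b (l 8) (l 8)))) (c (a (l 8) (b (l 8) (l 8))) (l 8)))) (a (b (l 8) (c (c (a (l 8) (l 8)) (l 8)) (l 8))) (l 8))) (c (a (c (l 8) (l 8)) (l 8)) (l 8))) (a (l 8) (l 8)))), by decide +kernel⟩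

def h20_1Am : ∃ t, chk3 f1Am t 6 2 4 = true :=
  ⟨(a (c (b (a (b (c (l 10) (l 10)) (c (l 10) (l 10))) (c (a (l 2) (l 2)) (a (l 2) (l 2)))) (a (c (a (l 10) (l 2)) (a (l 10) (l 2))) (c (a (l 2) (l 2)) (a (l 2) (l 2))))) (b (a (c (l 10) (l 10)) (b (c (l 2) (l 2)) (c (l 2) (l 2)))) (a (c (a (l 10) (l 2)) (a (l 10) (l 2))) (c (a (l 2) (l 2)) (a (l 2) (l 2)))))) (c (b (a (c (l 4) (l 4)) (l 4)) (a (c (l 4) (l 4)) (c (l 4) (l 4)))) (b (a (c (l 4) (b (l 4) (l 4))) (c (l 4) (l 4))) (a (c (l 4) (a (l 2) (l 2))) (c (l 4) (a (l 4) (l 4))))))), by decide +kernel⟩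

def h21_1Am : ∃ t, chk3 f1Am t 6 3 4 = true :=
  ⟨(a (c (a (b (c (b (a (l 10) (l 2)) (a (l 10) (l 2))) (b (a (l 10) (l 2)) (a (l 10) (l 2)))) (c (b (a (l 10) (l 2)) (a (c (l 10) (l 10)) (c (l 2) (l 2)))) (b (a (l 10) (l 2)) (a (c (l 10) (l 10)) (c (l 2) (l 2)))))) (b (c (a (b (l 2) (l 2)) (b (l 2) (l 2))) (a (b (l 2) (l 2)) (l 4))) (c (a (b (l 2) (c (l 2) (l 2))) (b (l 2) (l 4))) (a (b (l 2) (l 2)) (b (l 2) (l 2)))))) (b (a (c (a (l 10) (l 2)) (a (l 10) (l 2))) (c (a (l 2) (l 2)) (a (l 2) (l 2)))) (a (c (a (b (l 10) (l 10)) (b (l 2) (l 2))) (a (b (l 10) (l 10)) (b (l 2) (l 2)))) (c (a (b (l 2) (l 2)) (b (l 2) (l 2))) (a (b (l 2) (l 2)) (l 4)))))) (c (b (a (c (a (l 4) (l 4)) (a (l 4) (l 4))) (c (l 4) (l 4))) (a (c (a (b (l 4) (l 4)) (l 4)) (a (l 4) (l 4))) (c (a (l 4) (l 4)) (l 4))))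 (b (a (c (a (l 4) (l 4)) (a (l 2) (l 4))) (c (l 4) (l 4))) (a (c (a (l 4) (l 4)) (a (l 4) (l 4))) (c (l 4) (l 4)))))), by decide +kernel⟩

def h22_1Am : ∃ t, chk3 f1Am t 6 2 5 = true :=
  ⟨(a (c (b (a (c (l 10) (a (l 10) (l 2))) (c (a (l 2) (b (l 2) (l 2))) (b (a (c (l 2) (l 2)) (l 4)) (a (l 2) (c (l 2) (l 4)))))) (a (c (a (l 10) (l 2)) (a (l 10) (l 2))) (c (a (l 2) (l 2)) (b (a (l 2) (l 2)) (l 2))))) (b (a (b (c (a (c (l 10) (l 10)) (c (l 2) (l 2))) (a (l 10) (l 2))) (c (a (l 10) (b (c (l 2) (l 2)) (l 2))) (a (b (l 10) (c (l 10) (l 10))) (l 2)))) (c (b (a (l 2) (l 2)) (a (b (l 2) (c (l 2) (l 2))) (l 2))) (l 2))) (a (c (a (l 10) (l 2)) (b (a (c (l 10) (a (l 10) (l 2))) (c (a (l 2) (l 2)) (l 2))) (a (l 10) (c (l 2) (a (l 2) (l 2)))))) (b (c (a (c (l 2) (a (l 2) (l 2))) (c (l 4) (l 2)))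 (a (l 2) (l 2))) (c (a (l 2) (c (l 2) (a (l 4) (l 2)))) (a (c (a (l 2) (l 2)) (l 2)) (l 4))))))) (b (c (a (b (c (l 4) (l 4)) (c (a (l 4) (l 4)) (l 4))) (l 4)) (a (c (l 2) (l 2)) (l 4))) (c (a (b (c (a (l 2) (l 4)) (a (l 4) (l 4))) (c (l 4) (a (b (l 4) (l 2)) (l 4)))) (c (b (l 4) (l 4)) (l 4))) (a (c (b (l 4) (a (l 4) (l 2))) (l 2)) (l 4))))), by decide +kernel⟩

def h23_1Am : ∃ t, chk3 f1Am t 12 3 5 = true :=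
  ⟨(c (b (a (c (a (l 10) (l 2)) (a (l 10) (l 2))) (c (a (l 2) (l 2)) (a (l 2) (l 2)))) (a (c (a (l 10) (l 2)) (a (l 10) (l 2))) (c (a (l 2) (l 2)) (a (l 2) (l 2))))) (b (a (c (a (l 10) (l 2)) (a (l 10) (l 2))) (c (a (l 2) (b (l 2) (l 2))) (b (a (c (l 2) (a (l 2) (b (l 2) (l 4)))) (c (b (l 4) (a (l 2) (l 2))) (l 2))) (a (l 2) (c (l 2) (b (l 4) (a (l 2) (l 4)))))))) (a (c (a (l 10) (l 2)) (a (l 10) (l 2))) (c (a (l 2) (l 2)) (a (l 2) (b (l 4) (l 2))))))), by decide +kernel⟩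

def h24_1Am : ∃ t, chk3 f1Am t 13 3 5 = true :=
  ⟨(c (b (a (c (a (l 2) (l 4)) (b (a (l 2) (c (l 2) (l 4))) (l 4))) (c (b (a (l 4) (l 4)) (l 4)) (b (l 4) (a (c (l 2) (l 4)) (l 4))))) (a (c (a (l 4) (l 4)) (a (l 4) (l 4))) (c (a (l 4) (l 4)) (a (l 4) (b (c (l 4) (l 4)) (l 4)))))) (b (a (c (b (a (c (a (l 2) (l 4)) (l 4)) (l 4)) (a (c (l 2) (b (a (l 2) (l 4)) (l 2))) (c (a (l 2) (l 4)) (l 4)))) (b (l 4) (a (c (b (l 4) (l 4)) (l 4)) (l 4)))) (c (a (l 4) (l 4)) (l 2))) (a (c (b (a (l 2) (c (l 2) (a (l 2) (l 4)))) (a (l 2) (l 4))) (b (a (c (b (a (l 2) (l 4)) (l 2)) (b (l 4) (a (l 2) (l 4)))) (c (l 4) (l 4))) (a (c (l 2) (b (a (l 2) (l 4)) (l 2))) (c (b (a (l 2) (l 4)) (l 2)) (b (l 4) (l 4)))))) (c (b (a (c (a (l 2) (l 4)) (l 4)) (l 4)) (a (c (l 2) (a (l 2) (l 4))) (c (l 4) (l 4)))) (b (l 4)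 (a (c (l 4) (l 4)) (l 4))))))), by decide +kernel⟩

def h25_1Am : ∃ t, chk3 f1Am t 7 1 2 = true :=
  ⟨(c (b (a (b (c (a (l 4) (l 4)) (l 4)) (c (a (l 4) (c (l 4) (l 4))) (a (c (l 4) (l 4)) (l 4)))) (c (a (l 4) (l 4)) (l 4))) (a (c (b (a (c (l 4) (l 4)) (c (l 4) (l 4))) (a (c (l 4) (l 4)) (c (l 4) (l 4)))) (b (a (c (l 4) (b (l 4) (a (l 4) (l 4)))) (c (l 4) (l 4))) (a (c (l 4) (l 4)) (c (l 4) (b (l 4) (a (l 4) (l 4))))))) (c (b (a (c (l 4) (l 4)) (l 4)) (a (b (c (l 4) (l 4)) (l 4)) (c (l 4) (l 4)))) (b (l 4) (a (c (a (l 4) (l 4)) (l 4)) (l 4)))))) (b (a (a (c (b (l 4) (l 4)) (l 4)) (l 4)) (c (l 4) (l 4))) (a (c (b (a (c (a (l 4) (l 4)) (l 4)) (l 4)) (a (c (b (a (c (l 2) (l 4)) (l 4)) (a (l 4) (c (l 4) (l 4)))) (b (l 4) (a (c (l 4) (l 4)) (l 4)))) (c (a (l 4) (l 4)) (l 4)))) (b (l 4) (a (c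 (l 4) (l 4)) (l 4)))) (c (a (l 4) (l 4)) (l 4))))), by decide +kernel⟩

def h26_1Am : ∃ t, chk3 f1Am t 6 2 6 = true :=
  ⟨(a (c (b (a (c (l 10) (l 10)) (l 2)) (a (c (b (a (c (l 10) (l 10)) (l 2)) (a (c (b (a (l 10) (l 2)) (l 10)) (l 10)) (c (l 2) (l 2)))) (a (l 10) (l 2))) (c (a (l 2) (l 2)) (l 2)))) (a (b (l 10) (l 10)) (l 2))) (c (a (b (l 2) (l 2)) (b (l 2) (l 4))) (a (b (l 2) (l 2)) (b (l 2) (l 2))))), by decide +kernel⟩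

def h27_1Am : ∃ t, chk3 f1Am t 12 6 12 = true :=
  ⟨(a (c (b (a (c (l 10) (b (a (l 10) (l 2)) (l 10))) (c (b (a (l 2) (l 2)) (l 2)) (a (l 2) (l 2)))) (a (l 10) (c (l 2) (b (a (l 2) (l 2)) (l 2))))) (b (a (c (a (b (l 10) (l 10)) (l 2)) (l 10)) (l 2)) (a (c (b (a (l 10) (l 10)) (l 10)) (b (l 10) (a (l 10) (l 10)))) (c (b (l 2) (a (l 2) (l 2))) (l 2))))) (c (b (a (c (a (l 2) (l 2)) (l 2)) (l 2)) (a (c (a (l 2) (b (l 2) (c (l 2) (l 2)))) (b (l 2) (l 4))) (c (l 4) (l 2)))) (a (l 2) (l 2)))), by decide +kernel⟩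

def h28_1Am : ∃ t, chk3 f1Am t 12 7 12 = true :=
  ⟨(a (c (b (a (l 10) (l 2)) (l 10)) (b (a (c (l 10) (b (a (l 10) (c (l 10) (l 10))) (l 10))) (c (b (a (l 2) (c (l 2) (l 2))) (l 2)) (b (l 2) (a (c (l 2) (l 2)) (l 2))))) (a (l 10) (c (l 2) (b (a (l 2) (c (l 2) (l 2))) (l 2)))))) (c (b (a (c (l 2) (a (l 2) (b (l 2) (c (l 2) (l 2))))) (c (b (a (l 4) (l 2)) (a (l 2) (l 4))) (a (l 4) (l 2)))) (a (l 2) (c (l 2) (b (a (c (l 2) (l 2)) (l 4)) (a (l 2) (c (l 2) (l 2))))))) (b (a (c (b (l 2) (a (c (l 2) (l 2)) (l 2))) (l 2)) (l 2)) (a (c (a (l 2) (b (l 4) (c (l 2) (l 4)))) (b (l 2) (a (c (l 2) (l 2)) (l 2)))) (c (b (l 2) (a (l 4) (l 2))) (l 2)))))), by decide +kernel⟩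

def h29_1Am : ∃ t, chk3 f1Am t 12 3 13 = true :=
  ⟨(b (a (c (b (l 10) (a (l 10) (l 2))) (l 10)) (l 2)) (a (c (b (a (c (b (l 10) (a (l 8) (l 10))) (l 10)) (l 2)) (a (a (c (l 8) (b (l 8) (l 8))) (c (b (c (l 10) (l 10)) (l 10)) (b (l 10) (c (l 10) (l 10))))) (c (b (a (l 2) (l 2)) (a (c (l 2) (l 2)) (l 2))) (l 2)))) (b (l 10) (a (c (l 10) (l 10)) (l 2)))) (c (b (l 2) (a (l 2) (l 2))) (l 2)))), by decide +kernel⟩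

def h30_1Am : ∃ t, chk3 f1Am t 13 3 6 = true :=
  ⟨(c (a (b (c (l 2) (l 2)) (c (b (a (l 4) (l 2)) (a (c (b (l 4) (a (l 2) (l 4))) (l 4)) (l 4))) (l 4))) (b (l 4) (l 4))) (a (b (l 2) (l 2)) (b (l 2) (l 4)))), by decide +kernel⟩

def h31_1Am : ∃ t, chk3 f1Am t 6 1 7 = true :=
  ⟨(b (a (b (c (l 10) (l 10)) (c (a (l 10) (l 2)) (l 10))) (c (a (l 2) (l 2)) (a (l 2) (l 2)))) (a (c (b (a (l 10) (l 2)) (a (l 10) (l 2))) (a (b (l 10) (l 10)) (l 2))) (c (a (b (l 2) (l 2)) (b (l 2) (l 2))) (a (b (l 2) (l 2)) (b (l 2) (l 2)))))), by decide +kernel⟩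

def h32_1Am : ∃ t, chk3 f1Am t 7 1 3 = true :=
  ⟨(c (b (a (b (l 4) (c (l 4) (l 4))) (l 4)) (a (c (a (l 4) (l 4)) (a (l 4) (l 4))) (c (l 4) (l 4)))) (b (a (b (l 4) (c (l 4) (l 4))) (l 4)) (a (c (a (l 4) (l 4)) (a (l 4) (l 4))) (c (l 4) (l 4))))), by decide +kernel⟩

theorem h33_1Am : ∃ t, chk3 f1Am t 12 3 12 = true := ex3_b h27_1Am h28_1Am

theorem h34_1Am : ∃ t, chk3 f1Am t 12 3 6 = true := ex3_c h33_1Am h29_1Am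

theorem h35_1Am : ∃ t, chk3 f1Am t 6 3 6 = true := ex3_a h34_1Am h30_1Am

theorem h36_1Am : ∃ t, chk3 f1Am t 6 1 6 = true := ex3_b h26_1Am h35_1Am

theorem h37_1Am : ∃ t, chk3 f1Am t 6 1 3 = true := ex3_c h36_1Am h31_1Am

theorem h38_1Am : ∃ t, chk3 f1Am t 3 1 3 = true := ex3_a h37_1Am h32_1Am

theorem h39_1Am : ∃ t, chk3 f1Am t 6 3 5 = true := ex3_a h23_1Am h24_1Am

theorem h40_1Am : ∃ t, chk3 f1Am t 6 1 5 = true := ex3_b h22_1Am h39_1Am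

theorem h41_1Am : ∃ t, chk3 f1Am t 6 1 4 = true := ex3_b h20_1Am h21_1Am

theorem h42_1Am : ∃ t, chk3 f1Am t 6 1 2 = true := ex3_c h41_1Am h40_1Am

theorem h43_1Am : ∃ t, chk3 f1Am t 3 1 2 = true := ex3_a h42_1Am h25_1Am

theorem h44_1Am : ∃ t, chk3 f1Am t 3 1 1 = true := ex3_c h43_1Am h38_1Am

theorem h45_1Am : ∃ t, chk3 f1Am t 5 3 7 = true := ex3_a h18_1Am h19_1Am

theorem h46_1Am : ∃ t, chk3 f1Am t 5 1 7 = true := ex3_b h17_1Am h45_1Am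

theorem h47_1Am : ∃ t, chk3 f1Am t 5 1 6 = true := ex3_b h15_1Am h16_1Am

theorem h48_1Am : ∃ t, chk3 f1Am t 5 1 3 = true := ex3_c h47_1Am h46_1Am

theorem h49_1Am : ∃ t, chk3 f1Am t 4 1 7 = true := ex3_b h13_1Am h14_1Am

theorem h50_1Am : ∃ t, chk3 f1Am t 4 1 3 = true := ex3_c h12_1Am h49_1Am

theorem h51_1Am : ∃ t, chk3 f1Am t 2 1 3 = true := ex3_a h50_1Am h48_1Am

theorem h52_1Am : ∃ t, chk3 f1Am t 5 3 4 = true := ex3_a h9_1Am h10_1Am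

theorem h53_1Am : ∃ t, chk3 f1Am t 5 3 2 = true := ex3_c h52_1Am h11_1Am

theorem h54_1Am : ∃ t, chk3 f1Am t 9 3 4 = true := ex3_b h6_1Am h7_1Am

theorem h55_1Am : ∃ t, chk3 f1Am t 4 3 4 = true := ex3_a h5_1Am h54_1Am

theorem h56_1Am : ∃ t, chk3 f1Am t 4 3 2 = true := ex3_c h55_1Am h8_1Am

theorem h57_1Am : ∃ t, chk3 f1Am t 2 3 2 = true := ex3_a h56_1Am h53_1Am

theorem h58_1Am : ∃ t, chk3 f1Am t 5 2 2 = true := ex3_c h3_1Am h4_1Am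

theorem h59_1Am : ∃ t, chk3 f1Am t 4 2 4 = true := ex3_a h0_1Am h1_1Am

theorem h60_1Am : ∃ t, chk3 f1Am t 4 2 2 = true := ex3_c h59_1Am h2_1Am

theorem h61_1Am : ∃ t, chk3 f1Am t 2 2 2 = true := ex3_a h60_1Am h58_1Am

theorem h62_1Am : ∃ t, chk3 f1Am t 2 1 2 = true := ex3_b h61_1Am h57_1Am

theorem h63_1Am : ∃ t, chk3 f1Am t 2 1 1 = true := ex3_c h62_1Am h51_1Am

theorem h64_1Am : ∃ t, chk3 f1Am t 1 1 1 = true := ex3_a h63_1Am h44_1Am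

theorem ct_1Am : ∃ t, chk3 f1Am t 1 1 1 = true := h64_1Am

noncomputable def f1Bp : ℕ → ℕ → ℕ → ℕ → Bool :=
  onCell 0 83886080 0 16777216 134217728 67108864 (c1_Bp.row false 41943040)

def h0_1Bp : ∃ t, chk3 f1Bp t 4 1 4 = true :=
  ⟨(b (a (c (b (a (c (b (a (l 8) (l 8)) (a (l 8) (l 8))) (b (a (l 8) (l 8)) (a (l 8) (l 8)))) (c (a (b (l 8) (l 8)) (l 8)) (a (l 8) (l 8)))) (a (b (a (l 3) (c (l 8) (l 8))) (l 3)) (c (a (b (l 8) (l 8)) (l 8)) (a (l 8) (l 8))))) (b (a (c (a (b (l 8) (l 8)) (l 8)) (a (l 8) (l 8))) (c (a (l 8) (l 8)) (a (l 8) (l 8)))) (a (b (a (l 3) (c (l 8) (l 8))) (l 3)) (c (a (l 8) (l 8)) (a (l 8) (l 8)))))) (c (b (a (c (a (l 8) (l 8)) (a (l 8) (l 8))) (c (a (l 8) (l 8)) (l 8))) (a (c (a (l 8) (l 8)) (a (l 8) (l 8))) (c (a (l 8) (l 8)) (l 8)))) (b (a (c (a (l 8) (l 8)) (l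 8)) (c (l 8) (l 8))) (a (c (a (l 8) (l 8)) (l 8)) (c (l 8) (l 8)))))) (a (b (a (l 3) (c (a (l 3) (c (l 8) (l 8))) (a (l 3) (c (l 8) (l 8))))) (l 3)) (c (b (a (c (a (l 8) (l 8)) (a (l 8) (l 8))) (c (a (l 8) (l 8)) (l 8))) (a (c (a (l 8) (l 8)) (a (l 8) (l 8))) (c (a (l 8) (l 8)) (a (l 8) (l 8))))) (b (a (c (a (l 8) (l 8)) (l 8)) (c (l 8) (l 8))) (a (c (a (l 8) (l 8)) (l 8)) (c (l 8) (l 8))))))), by decide +kernel⟩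

def h1_1Bp : ∃ t, chk3 f1Bp t 4 1 5 = true :=
  ⟨(b (a (c (b (a (c (a (l 8) (l 8)) (a (l 8) (l 8))) (c (a (l 8) (l 8)) (l 8))) (a (b (c (l 8) (l 8)) (l 3)) (c (a (l 8) (l 8)) (l 8)))) (b (a (c (a (l 8) (l 8)) (l 8)) (c (l 8) (l 8))) (a (c (a (l 3) (l 8)) (l 8)) (c (l 8) (l 8))))) (c (b (a (c (l 8) (l 8)) (c (l 8) (l 8))) (a (c (l 8) (l 8)) (c (l 8) (l 8)))) (b (a (c (l 8) (l 8)) (c (l 8) (l 8))) (a (c (l 8) (l 8)) (c (l 8) (l 8)))))) (a (b (c (a (l 3) (c (a (l 3) (l 8)) (l 8))) (a (l 3) (c (l 8) (l 8)))) (l 3)) (c (b (a (c (l 8) (l 8)) (c (l 8) (l 8))) (a (c (l 8) (l 8)) (c (l 8) (l 8)))) (b (a (c (l 8) (l 8)) (c (l 8) (l 8))) (a (c (l 8) (l 8)) (c (l 8) (l 8))))))), by decide +kernel⟩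

def h2_1Bp : ∃ t, chk3 f1Bp t 5 1 2 = true :=
  ⟨(c (b (a (c (b (a (c (l 8) (l 8)) (c (l 8) (l 8))) (a (c (l 8) (l 8)) (c (l 8) (l 8)))) (b (a (c (l 8) (l 8)) (c (l 8) (l 8))) (a (c (l 8) (l 8)) (c (l 8) (l 8))))) (c (a (c (b (l 8) (l 8)) (l 8)) (b (c (l 10) (l 10)) (c (l 10) (l 10)))) (a (b (l 8) (l 8)) (a (l 8) (b (l 10) (l 10)))))) (a (c (b (a (c (l 8) (l 8)) (c (l 8) (l 8))) (a (c (l 8) (l 8)) (c (l 8) (l 8)))) (b (a (c (l 8) (l 8)) (c (l 8) (l 8))) (a (c (l 8) (l 8)) (c (l 8) (l 8))))) (c (b (a (c (l 8) (l 8)) (c (l 8) (l 8))) (a (c (l 8) (l 8)) (c (l 8) (l 8)))) (b (a (l 8) (c (l 8) (l 8))) (a (l 8) (l 8)))))) (b (a (c (b (a (c (l 8) (l 8)) (l 8)) (a (c (l 8) (l 8)) (l 8))) (b (a (l 8) (l 8)) (a (l 8) (l 8)))) (b (a (c (l 8) (l 8)) (c (l 10) (l 10))) (a (c (l 8) (l 8)) (c (l 10)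 (l 10))))) (a (c (b (a (c (l 8) (l 8)) (l 8)) (a (c (l 8) (l 8)) (l 8))) (b (a (l 8) (l 8)) (a (l 8) (l 8)))) (c (b (a (l 8) (l 8)) (a (l 8) (l 8))) (b (a (l 8) (l 8)) (a (l 8) (l 8))))))), by decide +kernel⟩

def h3_1Bp : ∃ t, chk3 f1Bp t 4 1 3 = true :=
  ⟨(c (b (a (c (b (a (c (l 8) (l 8)) (c (l 8) (l 8))) (a (c (l 8) (l 8)) (c (l 8) (l 8)))) (b (a (c (l 8) (l 8)) (c (l 8) (l 8))) (a (c (l 8) (l 8)) (c (l 8) (l 8))))) (c (b (a (c (l 8) (l 8)) (l 8)) (a (c (l 8) (l 8)) (l 8))) (b (a (l 8) (l 8)) (a (l 8) (l 8))))) (a (c (b (a (l 3) (c (l 8) (l 8))) (l 3)) (b (a (l 3) (c (l 8) (l 8))) (l 3))) (c (b (a (c (l 8) (l 8)) (l 8)) (a (c (l 8) (l 8)) (l 8))) (b (a (l 8) (l 8)) (a (l 8) (l 8)))))) (b (a (c (b (a (c (l 8) (l 8)) (l 8)) (a (c (l 8) (l 8)) (l 8))) (b (a (l 8) (l 8)) (a (l 8) (l 8))))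 (c (b (a (l 8) (l 8)) (a (l 8) (l 8))) (a (b (l 8) (l 8)) (l 8)))) (a (b (a (l 3) (c (l 8) (l 8))) (l 3)) (c (b (a (l 8) (l 8)) (a (l 8) (l 8))) (a (b (l 8) (l 8)) (l 8)))))), by decide +kernel⟩

def h4_1Bp : ∃ t, chk3 f1Bp t 5 1 3 = true :=
  ⟨(c (b (a (c (b (a (l 8) (l 8)) (a (l 8) (l 8))) (a (b (l 8) (l 8)) (l 8))) (a (c (l 8) (l 8)) (b (c (l 10) (l 10)) (c (l 10) (l 8))))) (a (c (b (a (l 8) (l 8)) (a (l 8) (l 8))) (a (b (l 8) (l 8)) (l 8))) (b (c (a (l 8) (l 8)) (l 8)) (c (a (l 8) (l 8)) (l 8))))) (b (a (c (a (l 8) (l 8)) (a (l 8) (l 8))) (b (c (l 10) (l 10)) (c (l 10) (l 10)))) (a (c (a (l 8) (l 8)) (a (l 8) (l 8))) (b (c (l 8) (l 8)) (c (l 8) (l 8)))))), by decide +kernel⟩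

def h5_1Bp : ∃ t, chk3 f1Bp t 6 1 2 = true :=
  ⟨(c (b (a (c (b (a (c (l 10) (l 10)) (l 2)) (a (c (l 10) (l 10)) (c (l 2) (l 2)))) (b (a (l 10) (l 2)) (a (l 10) (l 2)))) (b (c (a (l 2) (l 2)) (a (l 2) (l 2))) (c (a (l 2) (l 2)) (a (l 2) (l 2))))) (a (c (b (a (c (l 10) (l 10)) (c (l 2) (l 2))) (a (c (l 10) (l 10)) (c (l 2) (l 2)))) (b (a (c (l 10) (l 10)) (l 2)) (a (c (l 10) (l 10)) (l 2)))) (c (b (a (l 2) (l 2)) (a (l 2) (l 2))) (b (a (l 2) (l 2)) (a (l 2) (l 2)))))) (b (a (b (c (a (l 10) (l 2)) (a (l 10) (l 2))) (c (a (l 10) (l 2)) (a (l 10) (l 2)))) (b (c (a (l 2) (l 2)) (a (l 2) (l 2))) (c (a (l 2) (l 2)) (a (l 2) (l 2))))) (a (c (b (a (l 10) (l 2)) (a (l 10) (l 2))) (b (a (l 10) (l 2)) (a (l 10) (l 2)))) (c (b (a (l 2) (l 2)) (a (l 2) (l 2))) (a (b (l 2) (l 2)) (l 2)))))), by decide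 +kernel⟩

def h6_1Bp : ∃ t, chk3 f1Bp t 7 1 2 = true :=
  ⟨(c (b (a (b (c (l 2) (l 2)) (c (a (l 2) (l 2)) (l 2))) (b (l 4) (c (l 2) (l 2)))) (a (c (a (b (l 2) (l 2)) (l 2)) (a (l 2) (l 2))) (c (a (l 2) (l 2)) (a (l 2) (l 2))))) (b (a (b (c (l 2) (l 2)) (c (l 2) (l 2))) (c (l 2) (l 2))) (a (c (a (l 2) (l 2)) (a (l 2) (l 2))) (c (a (l 2) (l 2)) (l 2))))), by decide +kernel⟩

def h7_1Bp : ∃ t, chk3 f1Bp t 3 1 3 = true :=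
  ⟨(a (c (b (a (b (c (a (l 10) (l 2)) (l 10)) (c (a (l 10) (l 2)) (a (l 10) (l 2)))) (b (c (l 2) (l 2)) (c (l 2) (l 2)))) (a (c (b (a (l 10) (l 2)) (a (l 10) (l 2))) (a (b (l 10) (l 10)) (l 2))) (c (a (l 2) (l 2)) (a (l 2) (l 2))))) (b (a (b (c (l 10) (l 10)) (c (l 10) (l 10))) (c (a (l 2) (l 2)) (l 2))) (a (c (a (l 10) (l 2)) (a (l 10) (l 2))) (c (a (l 2) (l 2)) (a (l 2) (l 2)))))) (c (b (a (c (a (l 2) (l 2)) (l 2)) (c (l 2) (l 2))) (a (c (a (l 2) (l 2)) (a (l 2) (l 2))) (c (l 2) (l 2)))) (b (a (c (l 2) (l 2)) (c (l 2) (l 2))) (a (c (l 2) (l 2)) (c (l 2) (l 2)))))), by decide +kernel⟩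

theorem h8_1Bp : ∃ t, chk3 f1Bp t 3 1 2 = true := ex3_a h5_1Bp h6_1Bp

theorem h9_1Bp : ∃ t, chk3 f1Bp t 3 1 1 = true := ex3_c h8_1Bp h7_1Bp

theorem h10_1Bp : ∃ t, chk3 f1Bp t 2 1 3 = true := ex3_a h3_1Bp h4_1Bp

theorem h11_1Bp : ∃ t, chk3 f1Bp t 4 1 2 = true := ex3_c h0_1Bp h1_1Bp

theorem h12_1Bp : ∃ t, chk3 f1Bp t 2 1 2 = true := ex3_a h11_1Bp h2_1Bp

theorem h13_1Bp : ∃ t, chk3 f1Bp t 2 1 1 = true := ex3_c h12_1Bp h10_1Bp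

theorem h14_1Bp : ∃ t, chk3 f1Bp t 1 1 1 = true := ex3_a h13_1Bp h9_1Bp

theorem ct_1Bp : ∃ t, chk3 f1Bp t 1 1 1 = true := h14_1Bp

noncomputable def f1Bpk1 : ℕ → ℕ → ℕ → ℕ → Bool :=
  onCell 0 83886080 0 16777216 134217728 67108864 (c1_Bpk1.row false 41943040)

def h0_1Bpk1 : ∃ t, chk3 f1Bpk1 t 4 1 2 = true :=
  ⟨(c (b (a (c (a (b (c (l 8) (l 8)) (c (l 8) (l 8))) (b (c (l 8) (l 8)) (c (l 8) (l 8)))) (a (b (c (l 8) (l 8)) (c (l 8) (l 8))) (c (b (l 8) (l 8)) (l 8)))) (c (a (c (b (l 8) (l 8)) (b (l 8) (l 8))) (c (l 8) (l 8))) (a (b (l 8) (l 8)) (b (l 8) (l 8))))) (a (a (l 3) (b (c (c (l 8) (l 8)) (c (l 8) (l 8))) (l 3))) (c (a (b (c (l 8) (l 8)) (c (l 8) (l 8))) (c (b (l 8) (l 8)) (l 8))) (a (c (b (l 8) (l 8)) (l 8)) (b (l 8) (l 8)))))) (b (a (c (a (c (l 8) (l 8)) (b (l 8) (l 8))) (b (a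 (l 8) (l 8)) (a (l 8) (l 8)))) (c (b (a (l 8) (l 8)) (a (l 8) (l 8))) (a (b (l 8) (l 8)) (l 8)))) (a (a (l 3) (c (b (l 8) (l 3)) (b (l 8) (l 3)))) (c (a (b (l 8) (l 8)) (b (l 8) (l 8))) (a (b (l 8) (l 8)) (l 8)))))), by decide +kernel⟩

def h1_1Bpk1 : ∃ t, chk3 f1Bpk1 t 5 1 2 = true :=
  ⟨(c (b (a (c (b (a (l 8) (l 8)) (a (l 8) (l 8))) (a (b (l 8) (l 8)) (b (l 8) (l 8)))) (c (a (b (l 8) (l 8)) (b (l 10) (l 10))) (a (l 8) (b (l 10) (l 10))))) (a (c (a (c (l 8) (l 8)) (b (l 8) (l 8))) (b (a (l 8) (l 8)) (a (l 8) (l 8)))) (c (a (b (l 8) (l 8)) (b (l 10) (c (l 8) (l 8)))) (a (l 8) (b (l 10) (l 8)))))) (b (a (c (a (l 8) (l 8)) (a (l 8) (l 8))) (a (c (l 8) (l 8)) (c (b (l 10) (l 10)) (l 10)))) (a (c (a (b (l 8) (l 8)) (l 8)) (a (l 8) (l 8))) (c (a (l 8) (b (l 8) (l 8))) (a (l 8) (b (l 8) (l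 8))))))), by decide +kernel⟩

def h2_1Bpk1 : ∃ t, chk3 f1Bpk1 t 2 1 3 = true :=
  ⟨(a (c (b (a (c (a (b (l 8) (l 8)) (l 8)) (a (l 8) (l 8))) (c (a (l 8) (l 8)) (a (l 8) (l 8)))) (a (c (b (a (l 3) (l 8)) (l 3)) (a (l 3) (l 8))) (c (a (l 8) (l 8)) (a (l 8) (l 8))))) (b (a (c (a (l 8) (l 8)) (a (l 8) (l 8))) (c (l 8) (l 8))) (a (a (l 3) (c (l 8) (l 8))) (c (a (l 8) (l 8)) (l 8))))) (c (b (a (c (a (l 8) (l 8)) (l 8)) (a (c (l 8) (l 8)) (c (l 10) (l 10)))) (a (c (a (l 8) (l 8)) (a (l 8) (l 8))) (b (c (l 10) (l 10)) (c (a (l 8) (l 8)) (l 8))))) (b (a (c (l 8) (l 8)) (c (a (l 8) (l 10)) (l 10))) (a (c (l 8) (l 8)) (c (a (l 8) (l 10)) (l 10)))))), by decide +kernel⟩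

def h3_1Bpk1 : ∃ t, chk3 f1Bpk1 t 3 1 2 = true :=
  ⟨(a (c (b (a (c (b (a (l 10) (l 2)) (a (l 10) (l 2))) (b (a (l 10) (l 2)) (a (l 10) (l 2)))) (b (c (a (l 2) (l 2)) (l 2)) (c (a (l 2) (l 2)) (l 2)))) (a (c (b (a (l 10) (l 2)) (a (l 10) (l 2))) (b (a (l 10) (l 2)) (a (l 10) (l 2)))) (c (b (a (l 2) (l 2)) (a (l 2) (l 2))) (a (b (l 2) (l 2)) (l 2))))) (b (a (b (c (a (l 10) (l 2)) (l 10)) (c (a (l 10) (l 2)) (l 10))) (b (c (l 2) (l 2)) (c (l 2) (l 2)))) (a (c (b (a (l 10) (l 2)) (a (l 10) (l 2))) (a (l 10) (l 2))) (c (a (l 2) (l 2)) (a (l 2) (l 2)))))) (c (b (a (b (c (l 2) (l 2)) (c (l 2) (l 2))) (c (l 2) (l 2))) (a (c (a (l 2) (l 2)) (a (l 2) (l 2))) (c (l 2) (l 2)))) (b (a (c (l 2) (l 2)) (c (l 2) (l 2))) (a (c (a (l 2) (l 2)) (l 2)) (c (l 2) (l 2)))))), by decide +kernel⟩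

def h4_1Bpk1 : ∃ t, chk3 f1Bpk1 t 3 1 3 = true :=
  ⟨(a (c (b (a (b (c (l 10) (l 10)) (c (l 10) (l 10))) (c (a (l 2) (l 2)) (l 2))) (a (c (a (l 10) (l 2)) (a (l 10) (l 2))) (c (a (l 2) (l 2)) (l 2)))) (b (a (c (l 10) (l 10)) (c (l 2) (l 2))) (a (c (l 10) (l 10)) (c (l 2) (l 2))))) (c (b (a (c (l 2) (l 2)) (c (l 2) (l 2))) (a (c (l 2) (l 2)) (c (l 2) (l 2)))) (b (a (c (l 2) (l 2)) (l 2)) (a (c (l 2) (l 2)) (c (l 2) (l 2)))))), by decide +kernel⟩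

theorem h5_1Bpk1 : ∃ t, chk3 f1Bpk1 t 3 1 1 = true := ex3_c h3_1Bpk1 h4_1Bpk1

theorem h6_1Bpk1 : ∃ t, chk3 f1Bpk1 t 2 1 2 = true := ex3_a h0_1Bpk1 h1_1Bpk1

theorem h7_1Bpk1 : ∃ t, chk3 f1Bpk1 t 2 1 1 = true := ex3_c h6_1Bpk1 h2_1Bpk1

theorem h8_1Bpk1 : ∃ t, chk3 f1Bpk1 t 1 1 1 = true := ex3_a h7_1Bpk1 h5_1Bpk1

theorem ct_1Bpk1 : ∃ t, chk3 f1Bpk1 t 1 1 1 = true := h8_1Bpk1

noncomputable def f1Bpk2 : ℕ → ℕ → ℕ → ℕ → Bool :=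
  onCell 0 83886080 0 16777216 134217728 67108864 (c1_Bpk2.row false 41943040)

def h0_1Bpk2 : ∃ t, chk3 f1Bpk2 t 2 1 2 = true :=
  ⟨(a (c (a (b (c (a (b (c (l 8) (l 8)) (c (l 8) (l 8))) (b (l 8) (c (l 8) (l 8)))) (a (b (l 8) (l 8)) (b (l 8) (l 8)))) (a (l 3) (b (c (c (l 8) (l 8)) (l 8)) (l 3)))) (b (c (a (b (l 8) (l 8)) (b (l 8) (l 8))) (a (b (l 8) (l 8)) (l 8))) (c (a (b (c (l 8) (l 8)) (c (l 8) (l 8))) (b (l 8) (c (l 8) (l 8)))) (a (b (l 8) (l 8)) (b (l 8) (l 8)))))) (a (b (c (a (b (l 8) (l 8)) (l 8)) (a (l 8) (l 8))) (a (l 3) (c (b (l 8) (l 3)) (b (l 8) (l 3))))) (b (c (a (l 8) (l 8)) (a (l 8) (l 8))) (c (a (b (l 8) (l 8)) (b (l 8) (l 8))) (a (l 8) (l 8)))))) (c (a (b (c (a (l 8) (l 8)) (a (l 8) (l 8))) (c (a (b (l 8) (l 8)) (b (l 8) (l 8))) (a (b (l 8) (l 8)) (l 8)))) (b (c (a (l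 8) (b (l 10) (l 10))) (a (l 8) (l 10))) (c (a (b (l 8) (l 8)) (b (l 10) (l 10))) (a (l 8) (b (l 10) (l 10)))))) (a (b (c (a (l 8) (l 8)) (l 8)) (c (a (l 8) (l 8)) (a (l 8) (l 8)))) (b (a (c (l 8) (l 8)) (c (l 10) (l 10))) (c (a (l 8) (l 10)) (a (l 8) (l 10))))))), by decide +kernel⟩

def h1_1Bpk2 : ∃ t, chk3 f1Bpk2 t 2 1 3 = true :=
  ⟨(a (c (a (b (c (a (l 8) (l 8)) (l 8)) (a (l 3) (c (l 8) (l 8)))) (b (c (l 8) (l 8)) (c (a (l 8) (l 8)) (l 8)))) (a (b (c (l 8) (l 8)) (c (l 8) (l 8))) (b (c (l 8) (l 8)) (c (l 8) (l 8))))) (c (a (b (c (l 8) (l 8)) (c (l 8) (l 8))) (b (c (a (l 8) (l 10)) (l 10)) (c (a (l 8) (l 10)) (l 10)))) (a (b (c (l 8) (l 8)) (c (l 8) (l 8))) (b (c (l 10) (l 10)) (c (l 10) (l 10)))))), by decide +kernel⟩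

def h2_1Bpk2 : ∃ t, chk3 f1Bpk2 t 3 1 1 = true :=
  ⟨(c (a (c (a (b (c (a (b (l 10) (l 10)) (l 2)) (a (l 10) (l 2))) (c (b (a (l 10) (l 2)) (a (l 10) (l 2))) (a (b (l 10) (l 10)) (l 2)))) (b (b (c (l 2) (l 2)) (c (l 2) (l 2))) (c (a (l 2) (l 2)) (a (l 2) (l 2))))) (a (b (c (a (l 10) (l 2)) (l 10)) (c (a (l 10) (l 2)) (a (l 10) (l 2)))) (b (c (l 2) (l 2)) (c (a (l 2) (l 2)) (l 2))))) (c (a (b (c (l 2) (l 2)) (c (a (l 2) (l 2)) (l 2))) (b (c (l 2) (l 2)) (c (l 2) (l 2)))) (a (b (c (l 2) (l 2)) (c (l 2) (l 2))) (b (c (l 2) (l 2)) (c (l 2) (l 2)))))) (a (c (a (b (c (l 10) (l 10)) (c (l 10) (l 10))) (b (c (l 2) (l 2)) (c (l 2) (l 2)))) (a (b (c (l 10) (l 10)) (c (l 10) (l 10))) (b (c (l 2) (l 2)) (c (l 2) (l 2))))) (c (a (b (c (l 2) (l 2)) (c (l 2) (l 2))) (b (l 2) (l 2))) (b (a (l 2) (l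 2)) (a (l 2) (l 2)))))), by decide +kernel⟩

theorem h3_1Bpk2 : ∃ t, chk3 f1Bpk2 t 2 1 1 = true := ex3_c h0_1Bpk2 h1_1Bpk2

theorem h4_1Bpk2 : ∃ t, chk3 f1Bpk2 t 1 1 1 = true := ex3_a h3_1Bpk2 h2_1Bpk2

theorem ct_1Bpk2 : ∃ t, chk3 f1Bpk2 t 1 1 1 = true := h4_1Bpk2

noncomputable def f1Bm : ℕ → ℕ → ℕ → ℕ → Bool :=
  onCell 0 83886080 0 16777216 134217728 67108864 (c1_Bm.row true 41943040)

def h0_1Bm : ∃ t, chk3 f1Bm t 4 4 4 = true :=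
  ⟨(a (c (a (c (b (a (l 8) (l 8)) (a (l 8) (l 8))) (b (a (l 8) (l 8)) (a (l 8) (l 8)))) (c (b (a (l 8) (l 8)) (a (l 8) (l 8))) (a (b (l 8) (l 8)) (l 8)))) (a (c (a (b (l 8) (l 8)) (l 8)) (a (l 8) (l 8))) (c (a (l 8) (l 8)) (a (l 8) (l 8))))) (c (a (c (a (b (l 8) (l 8)) (l 8)) (a (l 8) (l 8))) (c (a (l 8) (l 8)) (a (l 8) (l 8)))) (a (c (a (l 8) (l 8)) (a (l 8) (l 8))) (c (a (l 8) (l 8)) (a (l 8) (l 8)))))), by decide +kernel⟩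

def h1_1Bm : ∃ t, chk3 f1Bm t 4 5 4 = true :=
  ⟨(a (c (a (b (c (a (l 8) (l 8)) (a (l 8) (l 8))) (c (a (c (l 8) (l 8)) (c (l 8) (l 8))) (a (c (l 8) (l 8)) (c (l 8) (l 8))))) (c (b (a (l 8) (l 8)) (a (c (l 8) (l 8)) (c (l 8) (l 8)))) (b (a (l 8) (l 8)) (a (c (l 8) (l 8)) (c (l 8) (l 8)))))) (a (c (b (a (l 8) (l 8)) (a (c (l 8) (l 8)) (c (l 8) (l 8)))) (b (a (l 8) (l 8)) (a (l 8) (l 8)))) (c (b (a (l 8) (l 8)) (a (l 8) (l 8))) (b (l 8) (a (l 8) (l 8)))))) (c (a (c (b (a (l 8) (l 8)) (a (c (l 8) (l 8)) (c (l 8) (l 8)))) (b (a (l 8) (l 8)) (a (l 8) (l 8)))) (c (b (a (l 8) (l 8)) (a (l 8) (l 8))) (b (l 8) (a (l 8) (l 8))))) (a (c (b (l 8) (a (l 8) (l 8))) (a (b (l 8) (l 8)) (l 8))) (c (a (b (l 8) (l 8)) (l 8)) (a (l 8) (l 8)))))), by decide +kernel⟩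

def h2_1Bm : ∃ t, chk3 f1Bm t 4 2 5 = true :=
  ⟨(a (c (b (a (c (a (l 8) (l 8)) (a (l 8) (l 8))) (c (a (l 8) (l 8)) (a (l 8) (l 8)))) (a (c (b (l 8) (a (l 8) (l 8))) (b (l 8) (a (l 8) (l 8)))) (c (a (b (l 8) (l 8)) (l 8)) (a (l 8) (l 8))))) (b (a (c (a (l 8) (l 8)) (l 8)) (c (l 8) (l 8))) (a (c (a (l 8) (l 8)) (a (l 8) (l 8))) (c (a (l 8) (l 8)) (l 8))))) (c (b (a (c (a (l 8) (l 8)) (a (l 8) (l 8))) (c (a (l 8) (l 8)) (l 8))) (a (c (a (l 8) (l 8)) (a (l 8) (l 8))) (c (a (l 8) (l 8)) (a (l 8) (l 8))))) (b (a (c (l 8) (l 8)) (c (l 8) (l 8))) (a (c (a (l 8) (l 8)) (l 8)) (c (l 8) (l 8)))))), by decide +kernel⟩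

def h3_1Bm : ∃ t, chk3 f1Bm t 10 2 4 = true :=
  ⟨(c (b (a (c (a (l 8) (l 8)) (a (l 8) (l 8))) (c (a (l 8) (l 8)) (a (l 8) (l 8)))) (a (c (b (a (l 8) (l 8)) (a (l 8) (l 8))) (b (l 8) (a (l 8) (l 8)))) (c (a (b (l 8) (l 8)) (b (l 8) (l 8))) (a (l 8) (b (l 8) (l 8)))))) (b (a (c (a (l 8) (l 8)) (a (l 8) (l 8))) (c (a (l 8) (l 8)) (a (l 8) (l 8)))) (a (c (a (l 8) (l 8)) (a (l 8) (l 8))) (c (a (l 8) (l 8)) (a (l 8) (l 8)))))), by decide +kernel⟩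

def h4_1Bm : ∃ t, chk3 f1Bm t 11 2 4 = true :=
  ⟨(c (b (a (c (a (l 8) (l 8)) (a (l 8) (l 8))) (b (a (c (l 8) (l 8)) (c (l 10) (l 10))) (c (a (a (l 12) (l 10)) (l 10)) (a (c (l 10) (l 10)) (l 10))))) (a (c (b (a (l 8) (c (l 12) (l 12))) (a (c (l 12) (l 12)) (c (l 12) (l 12)))) (b (a (l 8) (c (l 12) (l 12))) (a (l 12) (c (l 12) (l 12))))) (c (b (a (c (l 10) (l 10)) (l 2)) (a (c (l 2) (l 2)) (l 2))) (b (a (c (l 10) (l 10)) (l 2)) (a (l 4) (l 2)))))) (b (a (c (a (l 8) (l 8)) (a (l 8) (l 8))) (b (a (c (l 8) (l 8)) (c (l 10) (l 10))) (c (a (c (l 10) (l 10)) (l 10)) (a (l 10) (l 10))))) (a (c (b (a (l 8) (l 12)) (a (l 12) (l 12))) (b (a (l 8) (l 12)) (a (l 12) (l 12)))) (c (a (b (l 12) (l 2)) (l 2)) (a (b (l 10) (l 2)) (l 2)))))), by decide +kernel⟩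

def h5_1Bm : ∃ t, chk3 f1Bm t 5 2 5 = true :=
  ⟨(a (c (b (a (c (a (l 8) (l 8)) (l 8)) (c (a (l 8) (l 8)) (l 8))) (a (c (a (l 8) (l 8)) (a (l 8) (l 8))) (c (a (l 8) (l 8)) (a (l 8) (l 8))))) (b (a (c (l 8) (l 8)) (c (l 8) (l 8))) (a (c (l 8) (l 8)) (c (a (l 8) (l 8)) (l 8))))) (c (b (a (c (a (l 8) (l 8)) (l 8)) (b (a (l 8) (c (l 10) (l 10))) (c (a (l 10) (l 10)) (a (l 10) (l 10))))) (a (c (b (a (l 8) (l 12)) (a (l 12) (l 12))) (b (a (l 8) (l 12)) (a (l 12) (l 12)))) (c (a (b (l 10) (l 2)) (l 2)) (a (b (l 10) (l 2)) (l 2))))) (b (a (c (l 8) (l 8)) (b (a (l 8) (l 10)) (c (a (l 10) (l 10)) (l 10)))) (a (c (b (a (l 8) (l 12)) (a (l 12) (l 12))) (b (a (l 8) (l 10)) (a (l 12) (l 10)))) (c (a (l 10) (l 2)) (a (l 10) (l 2))))))), by decide +kernel⟩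

def h6_1Bm : ∃ t, chk3 f1Bm t 8 6 4 = true :=
  ⟨(c (a (c (b (a (c (l 8) (l 8)) (c (l 8) (l 8))) (a (c (l 8) (l 8)) (c (l 8) (l 8)))) (b (a (c (l 8) (l 8)) (c (l 8) (l 8))) (a (c (l 8) (l 8)) (c (l 8) (l 8))))) (c (b (a (c (l 8) (l 8)) (c (l 8) (l 8))) (a (c (l 8) (l 8)) (c (l 8) (l 8)))) (b (a (c (l 8) (l 8)) (c (l 8) (l 8))) (a (c (l 8) (l 8)) (c (l 8) (l 8)))))) (a (c (b (a (c (l 8) (l 8)) (c (l 8) (l 8))) (a (c (l 8) (l 8)) (c (l 8) (l 8)))) (b (a (c (l 8) (l 8)) (l 8)) (a (c (l 8) (l 8)) (c (l 8) (l 8))))) (c (b (a (c (l 8) (l 8)) (l 8)) (a (c (l 8) (l 8)) (c (l 8) (l 8)))) (b (a (l 8) (l 8)) (a (c (l 8) (l 8)) (l 8)))))), by decide +kernel⟩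

def h7_1Bm : ∃ t, chk3 f1Bm t 9 6 4 = true :=
  ⟨(c (a (c (b (a (c (l 8) (l 8)) (c (l 8) (l 8))) (a (c (l 8) (l 8)) (c (l 8) (l 8)))) (b (a (c (l 8) (l 8)) (c (l 8) (l 8))) (a (c (l 8) (l 8)) (c (l 8) (l 8))))) (c (b (a (c (l 8) (l 8)) (c (l 8) (l 8))) (a (c (l 8) (l 8)) (c (l 8) (l 8)))) (b (a (l 8) (l 8)) (a (c (l 8) (l 8)) (c (l 8) (l 8)))))) (a (c (b (a (l 8) (l 8)) (a (c (l 8) (l 8)) (l 8))) (b (a (l 8) (l 8)) (a (l 8) (c (l 8) (l 8))))) (c (b (a (l 8) (c (l 8) (l 8))) (a (c (l 8) (l 8)) (c (l 8) (l 8)))) (b (a (l 8) (l 8)) (a (l 8) (l 8)))))), by decide +kernel⟩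

def h8_1Bm : ∃ t, chk3 f1Bm t 8 7 4 = true :=
  ⟨(c (a (c (b (a (c (a (l 8) (l 8)) (a (l 8) (l 8))) (c (a (l 8) (l 8)) (l 8))) (a (c (a (l 8) (l 8)) (a (l 8) (l 8))) (c (a (l 8) (l 8)) (a (l 8) (l 8))))) (b (a (c (l 8) (l 8)) (c (l 8) (l 8))) (a (c (a (l 8) (l 8)) (l 8)) (c (l 8) (l 8))))) (c (b (a (c (l 8) (l 8)) (c (l 8) (l 8))) (a (c (a (l 8) (l 8)) (l 16)) (c (a (l 8) (l 8)) (l 8)))) (b (a (c (l 8) (l 8)) (c (l 8) (l 8))) (a (c (l 8) (l 8)) (c (l 8) (l 8)))))) (a (c (b (a (c (l 8) (l 8)) (c (l 8) (l 8))) (a (c (l 8) (l 8)) (c (l 8) (l 8)))) (b (a (c (l 8) (l 8)) (c (l 8) (l 8))) (a (c (l 8) (l 8)) (c (l 8) (l 8))))) (c (b (a (c (l 8) (l 8)) (c (l 8) (l 8))) (a (c (l 8) (l 8)) (c (l 8) (l 8)))) (b (a (c (l 8) (l 8)) (c (l 8) (l 8))) (a (c (l 8) (l 8)) (c (l 8) (l 8))))))), by decide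 +kernel⟩

def h9_1Bm : ∃ t, chk3 f1Bm t 9 7 4 = true :=
  ⟨(c (a (c (b (a (c (l 8) (l 8)) (c (l 8) (l 8))) (a (c (l 8) (l 8)) (c (l 8) (l 8)))) (b (a (c (l 8) (l 8)) (c (l 8) (l 8))) (a (c (l 8) (l 8)) (c (l 8) (l 8))))) (c (b (a (c (l 8) (l 8)) (c (l 8) (l 8))) (a (c (l 8) (l 8)) (c (l 8) (l 8)))) (b (a (c (l 8) (l 8)) (c (l 8) (l 8))) (a (c (l 8) (l 8)) (c (l 8) (l 8)))))) (a (c (b (a (c (l 8) (l 8)) (c (l 8) (l 8))) (a (c (l 8) (l 8)) (c (l 8) (l 8)))) (b (a (c (l 8) (l 8)) (c (l 8) (l 8))) (a (c (l 8) (l 8)) (c (l 8) (l 8))))) (c (b (a (c (l 8) (l 8)) (c (l 8) (l 8))) (a (c (l 8) (l 8)) (c (l 8) (l 8)))) (b (a (c (l 8) (l 8)) (l 8)) (a (c (l 8) (l 8)) (c (l 8) (l 8))))))), by decide +kernel⟩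

def h10_1Bm : ∃ t, chk3 f1Bm t 4 6 5 = true :=
  ⟨(a (c (a (c (b (a (l 8) (l 8)) (a (l 8) (l 8))) (b (a (l 8) (l 8)) (a (l 8) (l 8)))) (c (b (a (l 8) (l 8)) (a (l 8) (l 8))) (b (a (l 8) (l 8)) (a (l 8) (l 8))))) (a (c (b (a (l 8) (l 8)) (a (l 8) (l 8))) (b (a (l 8) (l 8)) (a (l 8) (l 8)))) (c (b (a (l 8) (l 8)) (a (l 8) (l 8))) (b (a (l 8) (l 8)) (a (l 8) (l 8)))))) (c (a (c (b (a (l 8) (l 8)) (a (l 8) (l 8))) (b (a (l 8) (l 8)) (a (l 8) (l 8)))) (c (b (a (l 8) (l 8)) (a (l 8) (l 8))) (b (a (l 8) (l 8)) (a (l 8) (l 8))))) (a (c (b (a (l 8) (l 8)) (a (l 8) (l 8))) (b (l 8) (a (l 8) (l 8)))) (c (b (a (l 8) (l 8)) (a (l 8) (l 8))) (b (l 8) (l 8)))))), by decide +kernel⟩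

def h11_1Bm : ∃ t, chk3 f1Bm t 4 7 5 = true :=
  ⟨(a (c (a (c (b (a (c (l 8) (l 8)) (c (l 8) (l 8))) (a (c (l 8) (l 8)) (c (l 8) (l 8)))) (b (a (c (l 8) (l 8)) (c (l 8) (l 8))) (a (c (l 8) (l 8)) (c (l 8) (l 8))))) (c (b (a (c (l 8) (l 8)) (c (l 8) (l 8))) (a (c (l 8) (l 8)) (c (l 8) (l 8)))) (b (a (c (l 8) (l 8)) (l 8)) (a (c (l 8) (l 8)) (l 8))))) (a (c (b (a (l 8) (l 8)) (a (c (l 8) (l 8)) (l 8))) (b (a (l 8) (l 8)) (a (l 8) (l 8)))) (c (b (a (l 8) (l 8)) (a (l 8) (l 8))) (b (a (l 8) (l 8)) (a (l 8) (l 8)))))) (c (a (c (b (a (c (l 8) (l 8)) (l 8)) (a (c (l 8) (l 8)) (l 8))) (b (a (l 8) (l 8)) (a (l 8) (l 8)))) (c (b (a (l 8) (l 8)) (a (l 8) (l 8))) (b (a (l 8) (l 8)) (a (l 8) (l 8))))) (a (c (b (a (l 8) (l 8)) (a (l 8) (l 8))) (b (a (l 8) (l 8)) (a (l 8) (l 8)))) (c (b (a (l 8) (l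 8)) (a (l 8) (l 8))) (b (a (l 8) (l 8)) (a (l 8) (l 8))))))), by decide +kernel⟩

def h12_1Bm : ∃ t, chk3 f1Bm t 10 6 4 = true :=
  ⟨(c (a (c (b (a (c (l 8) (l 8)) (c (l 8) (l 8))) (a (c (l 8) (l 8)) (c (l 8) (l 8)))) (b (a (c (l 8) (l 8)) (c (l 8) (l 8))) (a (c (l 8) (l 8)) (c (l 8) (l 8))))) (b (c (a (c (l 8) (l 8)) (c (l 8) (l 8))) (a (c (l 8) (l 8)) (c (l 8) (l 8)))) (a (c (c (l 8) (l 8)) (c (l 8) (l 8))) (c (c (a (l 12) (l 12)) (a (l 12) (l 12))) (c (l 12) (l 12)))))) (a (c (b (a (c (l 8) (l 8)) (c (l 8) (l 8))) (a (c (l 8) (l 8)) (l 8))) (b (a (l 8) (l 8)) (a (l 8) (l 8)))) (b (c (a (l 8) (l 8)) (a (l 8) (l 8))) (a (c (l 8) (l 8)) (c (c (l 12) (l 12)) (c (l 12) (l 12))))))), by decide +kernel⟩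

def h13_1Bm : ∃ t, chk3 f1Bm t 11 6 4 = true :=
  ⟨(c (b (a (c (a (b (c (l 12) (l 12)) (l 12)) (b (l 12) (l 4))) (a (b (l 12) (l 12)) (b (l 12) (l 4)))) (c (a (b (l 4) (l 4)) (c (l 2) (l 2))) (a (b (l 2) (l 2)) (c (l 2) (l 2))))) (a (c (a (b (l 12) (l 4)) (c (l 4) (l 4))) (a (c (l 12) (l 12)) (c (l 4) (l 4)))) (c (a (c (l 2) (l 2)) (l 2)) (a (c (l 2) (l 2)) (l 2))))) (b (a (c (a (b (l 12) (l 12)) (b (l 12) (l 4))) (a (c (l 12) (l 12)) (c (l 12) (l 12)))) (c (a (c (l 2) (l 2)) (l 2)) (a (c (l 2) (l 2)) (l 2)))) (a (c (a (c (l 12) (l 12)) (c (l 4) (l 4))) (a (c (l 12) (l 12)) (c (l 4) (l 4)))) (c (a (c (l 2) (l 2)) (l 2)) (a (c (l 2) (l 2)) (l 2)))))), by decide +kernel⟩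

def h14_1Bm : ∃ t, chk3 f1Bm t 10 7 4 = true :=
  ⟨(c (a (c (b (a (c (l 8) (l 8)) (c (l 8) (l 8))) (a (c (l 8) (l 8)) (c (a (l 8) (l 12)) (a (l 8) (l 12))))) (b (a (c (l 8) (l 8)) (c (l 8) (l 8))) (a (c (l 8) (l 8)) (c (a (l 8) (l 12)) (l 12))))) (c (b (a (c (a (l 8) (l 12)) (a (l 8) (l 12))) (c (a (l 12) (l 4)) (a (l 12) (l 4)))) (a (c (a (l 12) (l 12)) (a (l 12) (l 12))) (c (a (l 4) (l 4)) (a (l 4) (l 4))))) (b (a (c (l 12) (l 12)) (c (l 12) (l 12))) (a (c (a (l 12) (l 12)) (l 12)) (c (l 4) (l 4)))))) (a (b (c (a (c (l 8) (l 8)) (c (l 8) (l 8))) (a (l 8) (l 8))) (a (c (c (l 8) (l 8)) (c (l 8) (l 8))) (c (c (l 12) (l 12)) (c (l 12) (l 12))))) (c (b (a (c (l 12) (l 12)) (c (l 12) (l 12))) (a (c (l 12) (l 12)) (c (l 4) (l 4)))) (b (a (c (l 12) (l 12)) (c (l 12) (l 12))) (a (c (l 12) (l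 12)) (c (l 4) (l 4))))))), by decide +kernel⟩

def h15_1Bm : ∃ t, chk3 f1Bm t 11 7 4 = true :=
  ⟨(c (a (c (b (a (c (a (l 4) (l 4)) (l 4)) (c (l 4) (l 4))) (a (c (a (l 4) (l 4)) (l 4)) (c (l 4) (l 4)))) (b (a (c (l 4) (l 4)) (c (l 4) (l 4))) (a (c (l 4) (l 4)) (c (l 4) (l 4))))) (b (c (a (c (l 2) (l 2)) (l 2)) (a (c (l 2) (l 2)) (l 2))) (c (a (c (l 2) (l 2)) (l 2)) (a (c (l 2) (l 2)) (l 2))))) (a (b (c (a (c (l 4) (l 4)) (c (l 4) (l 4))) (a (c (l 4) (l 4)) (c (l 4) (l 4)))) (c (a (c (l 4) (l 4)) (c (l 4) (l 4))) (a (c (l 4) (l 4)) (c (l 2) (l 2))))) (b (c (a (c (l 2) (l 2)) (l 2)) (a (c (l 2) (l 2)) (l 2))) (c (a (c (l 2) (l 2)) (l 2)) (a (l 2) (l 2)))))), by decide +kernel⟩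

def h16_1Bm : ∃ t, chk3 f1Bm t 5 6 5 = true :=
  ⟨(a (c (b (a (c (a (l 8) (l 8)) (a (l 8) (l 8))) (c (a (l 8) (l 8)) (a (l 8) (l 8)))) (a (c (a (l 8) (l 8)) (a (l 8) (l 8))) (a (c (l 8) (l 8)) (c (c (l 12) (l 12)) (c (l 12) (l 12)))))) (a (c (b (l 8) (a (l 8) (l 8))) (b (l 8) (l 8))) (b (c (l 8) (l 8)) (c (a (l 8) (l 12)) (a (l 8) (l 12)))))) (c (b (a (c (a (c (l 12) (l 12)) (c (l 12) (l 12))) (a (l 12) (l 12))) (c (a (l 2) (l 2)) (a (l 2) (l 2)))) (a (c (a (c (l 12) (l 12)) (c (l 4) (l 4))) (a (c (l 12) (l 12)) (c (l 2) (l 2)))) (c (a (c (l 2) (l 2)) (l 2)) (a (c (l 2) (l 2)) (l 2))))) (b (a (c (a (l 12) (l 12)) (a (l 12) (l 10))) (c (l 2) (l 2))) (a (c (a (c (l 12) (l 12)) (c (l 2) (l 2))) (a (l 12) (c (l 2) (l 2)))) (c (a (l 2) (l 2)) (a (l 2) (l 2))))))), by decide +kernel⟩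

def h17_1Bm : ∃ t, chk3 f1Bm t 5 7 5 = true :=
  ⟨(a (c (a (b (c (a (l 8) (l 8)) (a (l 8) (l 8))) (a (c (l 8) (l 8)) (c (c (l 12) (l 12)) (c (l 12) (l 12))))) (c (b (a (c (l 12) (l 12)) (c (l 12) (l 12))) (a (c (l 12) (l 12)) (c (l 4) (l 4)))) (b (a (c (l 12) (l 12)) (c (l 12) (l 12))) (a (c (l 12) (l 12)) (c (l 4) (l 4)))))) (a (b (c (a (l 8) (l 8)) (a (l 8) (l 8))) (a (c (l 8) (l 8)) (c (c (l 12) (l 12)) (l 12)))) (c (b (a (l 12) (l 12)) (a (c (l 12) (l 12)) (l 4))) (b (a (l 12) (l 12)) (a (l 12) (l 4)))))) (c (a (b (c (a (c (l 4) (l 4)) (c (l 2) (l 2))) (a (c (l 4) (l 4)) (c (l 2) (l 2)))) (c (a (c (l 4) (l 4)) (c (l 2) (l 2))) (a (c (l 4) (l 4)) (l 4)))) (b (c (a (l 2) (l 2)) (a (l 2) (l 2))) (c (a (l 2) (l 2)) (a (l 2) (l 2))))) (a (b (c (a (l 4) (l 4)) (a (l 4) (l 4))) (c (a (l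 4) (l 4)) (a (l 4) (l 2)))) (b (c (a (l 2) (l 2)) (a (l 2) (l 2))) (c (a (l 2) (l 2)) (a (l 2) (l 2))))))), by decide +kernel⟩

def h18_1Bm : ∃ t, chk3 f1Bm t 4 2 3 = true :=
  ⟨(c (a (c (b (a (c (l 8) (l 8)) (c (l 8) (l 8))) (a (c (l 8) (l 8)) (c (l 8) (l 8)))) (b (a (c (l 8) (l 8)) (c (l 8) (l 8))) (a (c (l 8) (l 8)) (c (l 8) (l 8))))) (c (b (a (c (l 8) (l 8)) (c (l 8) (l 8))) (a (c (l 8) (l 8)) (c (l 8) (l 8)))) (b (a (c (l 8) (l 8)) (c (l 8) (l 8))) (a (c (l 8) (l 8)) (c (l 8) (l 8)))))) (a (c (b (a (c (l 8) (l 8)) (c (l 8) (l 8))) (a (c (l 8) (l 8)) (c (l 8) (l 8)))) (b (a (l 8) (l 8)) (a (c (l 8) (l 8)) (l 8)))) (c (b (a (l 8) (l 8)) (a (c (l 8) (l 8)) (c (l 8) (l 8)))) (b (a (l 8) (l 8)) (a (l 8) (l 8)))))), by decide +kernel⟩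

def h19_1Bm : ∃ t, chk3 f1Bm t 5 2 3 = true :=
  ⟨(c (a (c (b (a (c (l 8) (l 8)) (c (l 8) (l 8))) (a (c (l 8) (l 8)) (c (l 8) (l 8)))) (b (a (c (l 8) (l 8)) (c (l 8) (l 8))) (a (c (l 8) (l 8)) (c (l 8) (l 8))))) (b (a (c (c (l 8) (l 8)) (c (l 8) (l 8))) (c (b (c (l 10) (l 10)) (c (l 10) (l 10))) (c (l 10) (l 10)))) (c (a (c (b (a (l 8) (l 10)) (a (l 12) (l 10))) (b (a (l 8) (l 10)) (l 12))) (c (a (l 10) (l 2)) (a (l 10) (l 2)))) (a (c (b (l 12) (l 12)) (a (l 12) (l 10))) (c (l 10) (l 10)))))) (a (c (b (a (l 8) (l 8)) (a (c (l 8) (l 8)) (c (l 8) (l 8)))) (b (a (l 8) (l 8)) (a (l 8) (l 8)))) (b (a (c (l 8) (l 8)) (c (c (l 10) (l 10)) (l 10))) (c (a (c (a (l 12) (l 10)) (a (l 10) (l 10))) (c (l 10) (l 10))) (a (c (a (l 8) (l 10)) (l 10)) (c (l 10) (l 10))))))), by decide +kernel⟩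

def h20_1Bm : ∃ t, chk3 f1Bm t 4 3 6 = true :=
  ⟨(b (a (c (a (c (b (a (l 8) (l 8)) (a (l 8) (l 8))) (b (l 8) (l 8))) (c (b (l 8) (l 8)) (b (l 8) (l 8)))) (a (c (b (l 8) (l 8)) (b (l 8) (l 8))) (c (b (l 8) (l 8)) (b (l 8) (l 8))))) (c (a (c (b (l 8) (l 8)) (b (l 8) (l 8))) (c (b (l 8) (l 8)) (b (l 8) (l 8)))) (a (c (b (l 8) (l 8)) (a (l 8) (l 8))) (c (b (l 8) (l 8)) (a (l 8) (l 8)))))) (a (c (a (c (b (a (l 8) (l 8)) (a (l 8) (l 8))) (b (a (l 8) (l 8)) (a (l 8) (l 8)))) (c (b (a (l 8) (l 8)) (a (l 8) (l 8))) (b (l 8) (a (l 8) (l 8))))) (a (c (b (l 8) (a (l 8) (l 8))) (b (l 8) (l 8))) (c (b (l 8) (l 8)) (b (l 8) (l 8))))) (c (a (c (b (a (l 8) (l 8)) (a (l 8) (l 8))) (b (l 8) (a (l 8) (l 8)))) (c (b (l 8) (a (l 8) (l 8))) (b (l 8) (l 8)))) (a (c (b (l 8) (l 8)) (b (l 8) (l 8))) (c (b (l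 8) (l 8)) (a (l 8) (l 8))))))), by decide +kernel⟩

def h21_1Bm : ∃ t, chk3 f1Bm t 4 3 7 = true :=
  ⟨(b (a (c (a (c (b (l 8) (l 8)) (a (l 8) (l 8))) (c (a (l 8) (l 8)) (a (l 8) (l 8)))) (a (b (l 8) (c (l 8) (l 8))) (c (a (l 8) (l 8)) (l 8)))) (c (a (b (l 8) (c (l 8) (l 8))) (b (l 8) (c (l 8) (l 8)))) (a (c (a (l 8) (l 8)) (l 8)) (c (l 8) (l 8))))) (a (c (a (c (b (l 8) (l 8)) (a (l 8) (l 8))) (c (a (l 8) (l 8)) (a (l 8) (l 8)))) (a (c (a (l 8) (l 8)) (a (l 8) (l 8))) (c (a (l 8) (l 8)) (a (l 8) (l 8))))) (c (a (c (a (l 8) (l 8)) (a (l 8) (l 8))) (c (a (l 8) (l 8)) (a (l 8) (l 8)))) (a (c (a (l 8) (l 8)) (a (l 8) (l 8))) (c (a (l 8) (l 8)) (a (l 8) (l 8))))))), by decide +kernel⟩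

def h22_1Bm : ∃ t, chk3 f1Bm t 5 3 6 = true :=
  ⟨(b (a (c (a (c (b (l 8) (l 8)) (b (l 8) (l 8))) (b (c (l 8) (l 8)) (c (a (l 8) (l 12)) (a (l 8) (l 12))))) (a (b (l 8) (c (l 8) (l 8))) (b (c (l 8) (l 8)) (c (a (l 8) (l 12)) (a (l 8) (l 12)))))) (c (b (a (c (l 12) (l 12)) (c (l 2) (l 2))) (a (c (a (l 12) (l 4)) (a (l 12) (l 2))) (c (a (l 2) (l 2)) (a (l 2) (l 2))))) (a (b (c (l 12) (l 12)) (c (a (l 12) (l 2)) (a (l 10) (l 2)))) (b (c (l 2) (l 2)) (c (l 2) (l 2)))))) (a (c (a (b (c (l 8) (l 8)) (c (a (l 8) (l 12)) (a (l 8) (l 12)))) (c (b (a (l 12) (l 12)) (a (l 12) (l 4))) (b (a (l 12) (l 12)) (a (l 12) (l 4))))) (a (b (c (l 8) (l 8)) (c (a (l 8) (l 12)) (a (l 8) (l 12)))) (c (b (a (l 12) (l 12)) (a (l 12) (l 4))) (b (a (l 12) (l 12)) (a (l 12) (l 4)))))) (c (a (b (c (a (l 4) (l 2))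 (a (l 4) (l 2))) (c (a (l 4) (l 2)) (a (l 4) (l 2)))) (b (c (a (l 2) (l 2)) (l 2)) (c (a (l 2) (l 2)) (l 2)))) (a (b (c (a (l 4) (l 2)) (a (l 2) (l 2))) (c (a (l 4) (l 2)) (a (l 2) (l 2)))) (b (c (l 2) (l 2)) (c (l 2) (l 2))))))), by decide +kernel⟩

def h23_1Bm : ∃ t, chk3 f1Bm t 5 3 7 = true :=
  ⟨(b (a (a (c (c (a (l 8) (l 8)) (l 8)) (c (l 8) (l 8))) (c (b (l 8) (c (l 12) (l 12))) (a (l 8) (c (l 12) (l 10))))) (c (a (c (b (l 10) (l 12)) (a (l 10) (l 10))) (c (l 2) (l 2))) (a (c (a (l 10) (l 10)) (l 10)) (c (l 2) (l 2))))) (a (c (a (b (c (l 8) (l 8)) (c (a (l 8) (l 12)) (l 12))) (c (b (l 12) (a (l 12) (l 4))) (b (l 12) (l 12)))) (a (b (c (l 8) (l 8)) (c (l 12) (l 12))) (b (c (l 12) (l 12)) (c (l 12) (l 12))))) (c (a (b (c (l 4) (l 4)) (c (a (l 2) (l 2)) (l 4))) (b (c (l 2) (l 2)) (c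 (l 2) (l 2)))) (b (a (c (l 4) (l 2)) (c (l 2) (l 2))) (a (c (l 4) (l 2)) (c (l 2) (l 2))))))), by decide +kernel⟩

def h24_1Bm : ∃ t, chk3 f1Bm t 3 2 2 = true :=
  ⟨(a (c (a (c (b (a (b (a (c (l 10) (l 10)) (l 2)) (c (l 2) (l 2))) (c (l 2) (l 2))) (a (c (a (l 2) (l 2)) (a (l 2) (l 2))) (c (l 2) (l 2)))) (b (a (c (a (l 10) (l 2)) (a (l 10) (l 2))) (c (l 2) (l 2))) (a (c (a (l 2) (l 2)) (a (l 2) (l 2))) (c (l 2) (l 2))))) (c (b (a (c (l 2) (l 2)) (l 4)) (a (c (l 2) (l 2)) (l 4))) (b (a (c (l 2) (l 2)) (l 2)) (a (c (l 2) (l 2)) (l 4))))) (a (c (b (a (a (c (l 10) (l 10)) (l 2)) (c (l 2) (l 2))) (a (c (l 2) (l 2)) (c (l 2) (l 2)))) (b (a (a (c (l 10) (l 10)) (l 2)) (l 2)) (a (c (l 2) (l 2)) (c (l 2) (l 2))))) (b (c (a (l 2) (l 2)) (a (l 2) (l 2))) (c (a (c (l 2) (l 2)) (l 4)) (a (l 2) (l 2))))))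 (c (a (c (b (l 4) (l 4)) (b (l 4) (l 4))) (c (l 4) (l 4))) (a (b (c (l 4) (l 4)) (c (l 4) (l 4))) (c (l 4) (l 4))))), by decide +kernel⟩

def h25_1Bm : ∃ t, chk3 f1Bm t 3 2 3 = true :=
  ⟨(a (c (a (b (c (a (c (l 10) (l 10)) (l 2)) (a (c (l 10) (l 10)) (l 2))) (c (a (c (l 2) (l 2)) (c (l 2) (l 2))) (a (c (l 2) (l 2)) (l 2)))) (b (c (a (l 2) (l 2)) (a (l 2) (l 2))) (c (a (l 2) (l 2)) (a (l 2) (l 2))))) (a (b (c (a (c (l 10) (l 10)) (l 2)) (a (l 10) (l 2))) (c (a (l 2) (l 2)) (a (l 2) (l 2)))) (b (c (a (l 2) (l 2)) (l 2)) (c (a (l 2) (l 2)) (l 2))))) (c (a (b (c (l 4) (l 4)) (c (l 4) (l 4))) (c (l 4) (l 4))) (a (b (c (l 2) (l 2)) (c (l 4) (l 2))) (c (l 4) (l 4))))), by decide +kernel⟩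

def h26_1Bm : ∃ t, chk3 f1Bm t 6 3 4 = true :=
  ⟨(b (a (c (b (a (c (a (l 2) (l 2)) (a (l 2) (l 2))) (c (l 2) (l 2))) (a (c (a (l 2) (l 2)) (a (l 2) (l 2))) (c (l 2) (l 2)))) (b (a (c (a (l 2) (l 2)) (l 2)) (c (l 2) (l 2))) (a (c (a (l 2) (l 2)) (a (l 2) (l 2))) (c (l 2) (l 2))))) (c (b (a (c (l 2) (l 2)) (l 4)) (a (c (l 2) (l 2)) (c (l 4) (l 2)))) (b (a (l 2) (l 2)) (a (c (l 2) (l 2)) (l 4))))) (a (c (a (b (c (a (l 2) (l 2)) (a (l 2) (l 2))) (c (a (l 2) (l 2)) (a (l 2) (l 2)))) (b (c (l 2) (l 2)) (c (l 2) (l 2)))) (a (b (c (a (l 2) (l 2)) (l 2)) (c (a (l 2) (l 2)) (l 2))) (b (c (l 2) (l 2)) (c (l 2) (l 2))))) (c (a (b (c (l 2) (l 2)) (c (l 2) (l 2))) (b (l 4) (c (l 2) (l 2)))) (a (b (c (l 2) (l 2)) (c (l 2) (l 2))) (b (l 4) (l 4)))))), by decide +kernel⟩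

def h27_1Bm : ∃ t, chk3 f1Bm t 6 3 5 = true :=
  ⟨(b (a (c (b (a (c (l 2) (l 2)) (l 2)) (a (c (a (l 2) (l 2)) (a (l 2) (l 2))) (c (l 2) (l 2)))) (a (b (c (l 2) (l 2)) (c (a (l 2) (l 2)) (l 2))) (b (l 2) (c (l 2) (l 2))))) (c (a (b (l 2) (c (l 2) (l 2))) (c (l 4) (l 4))) (a (c (a (l 2) (l 2)) (l 2)) (c (l 2) (l 2))))) (a (c (a (b (c (l 2) (l 2)) (c (l 2) (l 2))) (b (c (l 2) (l 2)) (c (l 2) (l 2)))) (a (b (c (l 2) (l 2)) (c (l 2) (l 2))) (b (c (l 2) (l 2)) (c (l 2) (l 2))))) (c (a (b (c (l 2) (l 2)) (c (l 2) (l 2))) (b (l 4) (l 4))) (a (b (c (l 2) (l 2)) (c (l 2) (l 2))) (b (l 4) (l 4)))))), by decide +kernel⟩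

def h28_1Bm : ∃ t, chk3 f1Bm t 7 3 2 = true :=
  ⟨(c (b (a (c (a (c (l 4) (l 4)) (l 4)) (a (c (l 4) (l 4)) (l 4))) (c (a (l 4) (l 1)) (l 4))) (a (c (a (c (l 4) (l 4)) (c (l 4) (l 4))) (a (c (l 4) (l 4)) (c (l 4) (l 4)))) (l 1))) (b (a (c (a (l 4) (l 4)) (a (l 4) (l 4))) (c (l 4) (l 4))) (a (c (a (c (l 4) (l 4)) (c (l 4) (l 4))) (b (a (l 4) (l 4)) (a (l 4) (l 4)))) (l 1)))), by decide +kernel⟩

def h29_1Bm : ∃ t, chk3 f1Bm t 3 3 3 = true :=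
  ⟨(a (c (b (a (c (a (b (l 2) (c (l 2) (l 2))) (c (l 2) (l 2))) (a (c (l 2) (l 2)) (c (l 2) (l 2)))) (c (a (c (l 2) (l 2)) (l 2)) (a (l 2) (l 2)))) (a (c (a (b (c (l 2) (l 2)) (c (l 2) (l 2))) (b (c (l 2) (l 2)) (c (l 2) (l 2)))) (a (b (c (l 2) (l 2)) (c (l 2) (l 2))) (b (c (l 2) (l 2)) (c (l 2) (l 2))))) (c (a (b (c (l 2) (l 2)) (c (l 2) (l 2))) (b (l 4) (l 4))) (b (a (c (l 2) (l 2)) (l 4)) (a (l 2) (l 4)))))) (b (a (c (a (l 2) (l 2)) (a (l 2) (l 2))) (c (a (l 2) (l 2)) (a (l 2) (l 2)))) (a (c (b (a (c (l 2) (l 2)) (c (l 2) (l 2))) (a (c (l 2) (l 2)) (c (l 2) (l 2)))) (b (a (c (l 2) (l 2)) (l 2)) (a (c (l 2) (l 2)) (l 2)))) (c (b (a (l 2) (l 2)) (a (l 2) (l 2))) (b (a (l 2) (l 2)) (a (l 2) (l 2))))))) (c (b (a (c (l 4) (l 4)) (c (l 4) (l 4))) (a (c (b (a (l 4) (l 4)) (a (l 4) (l 4)))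 (a (c (l 4) (l 4)) (l 4))) (l 1))) (b (a (c (l 4) (l 4)) (l 4)) (a (c (a (c (l 4) (l 2)) (l 4)) (a (l 4) (l 4))) (l 1))))), by decide +kernel⟩

theorem h30_1Bm : ∃ t, chk3 f1Bm t 6 3 2 = true := ex3_c h26_1Bm h27_1Bm

theorem h31_1Bm : ∃ t, chk3 f1Bm t 3 3 2 = true := ex3_a h30_1Bm h28_1Bm

theorem h32_1Bm : ∃ t, chk3 f1Bm t 3 3 1 = true := ex3_c h31_1Bm h29_1Bm

theorem h33_1Bm : ∃ t, chk3 f1Bm t 3 2 1 = true := ex3_c h24_1Bm h25_1Bm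

theorem h34_1Bm : ∃ t, chk3 f1Bm t 3 1 1 = true := ex3_b h33_1Bm h32_1Bm

theorem h35_1Bm : ∃ t, chk3 f1Bm t 5 3 3 = true := ex3_c h22_1Bm h23_1Bm

theorem h36_1Bm : ∃ t, chk3 f1Bm t 4 3 3 = true := ex3_c h20_1Bm h21_1Bm

theorem h37_1Bm : ∃ t, chk3 f1Bm t 2 3 3 = true := ex3_a h36_1Bm h35_1Bm

theorem h38_1Bm : ∃ t, chk3 f1Bm t 2 2 3 = true := ex3_a h18_1Bm h19_1Bm

theorem h39_1Bm : ∃ t, chk3 f1Bm t 2 1 3 = true := ex3_b h38_1Bm h37_1Bm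

theorem h40_1Bm : ∃ t, chk3 f1Bm t 5 3 5 = true := ex3_b h16_1Bm h17_1Bm

theorem h41_1Bm : ∃ t, chk3 f1Bm t 5 7 4 = true := ex3_a h14_1Bm h15_1Bm

theorem h42_1Bm : ∃ t, chk3 f1Bm t 5 6 4 = true := ex3_a h12_1Bm h13_1Bm

theorem h43_1Bm : ∃ t, chk3 f1Bm t 5 3 4 = true := ex3_b h42_1Bm h41_1Bm

theorem h44_1Bm : ∃ t, chk3 f1Bm t 5 3 2 = true := ex3_c h43_1Bm h40_1Bm

theorem h45_1Bm : ∃ t, chk3 f1Bm t 4 3 5 = true := ex3_b h10_1Bm h11_1Bm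

theorem h46_1Bm : ∃ t, chk3 f1Bm t 4 7 4 = true := ex3_a h8_1Bm h9_1Bm

theorem h47_1Bm : ∃ t, chk3 f1Bm t 4 6 4 = true := ex3_a h6_1Bm h7_1Bm

theorem h48_1Bm : ∃ t, chk3 f1Bm t 4 3 4 = true := ex3_b h47_1Bm h46_1Bm

theorem h49_1Bm : ∃ t, chk3 f1Bm t 4 3 2 = true := ex3_c h48_1Bm h45_1Bm

theorem h50_1Bm : ∃ t, chk3 f1Bm t 2 3 2 = true := ex3_a h49_1Bm h44_1Bm

theorem h51_1Bm : ∃ t, chk3 f1Bm t 5 2 4 = true := ex3_a h3_1Bm h4_1Bm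

theorem h52_1Bm : ∃ t, chk3 f1Bm t 5 2 2 = true := ex3_c h51_1Bm h5_1Bm

theorem h53_1Bm : ∃ t, chk3 f1Bm t 4 2 4 = true := ex3_b h0_1Bm h1_1Bm

theorem h54_1Bm : ∃ t, chk3 f1Bm t 4 2 2 = true := ex3_c h53_1Bm h2_1Bm

theorem h55_1Bm : ∃ t, chk3 f1Bm t 2 2 2 = true := ex3_a h54_1Bm h52_1Bm

theorem h56_1Bm : ∃ t, chk3 f1Bm t 2 1 2 = true := ex3_b h55_1Bm h50_1Bm

theorem h57_1Bm : ∃ t, chk3 f1Bm t 2 1 1 = true := ex3_c h56_1Bm h39_1Bm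

theorem h58_1Bm : ∃ t, chk3 f1Bm t 1 1 1 = true := ex3_a h57_1Bm h34_1Bm

theorem ct_1Bm : ∃ t, chk3 f1Bm t 1 1 1 = true := h58_1Bm

end Pool.Agent.Strip051.G.I1_8_3_16.Tab.Mo
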