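import Pool.Agent.Strip051.G.I1_8_3_16.StF

/-! # Unit strips 0 (generated) -/

set_option linter.all false
set_option maxRecDepth 100000

namespace Pool.Agent.Strip051.G.I1_8_3_16.Tab.St.C

open Pool.Agent.Strip051.PB Pool.Agent.Strip051.PB.T Pool.Agent.StripNear Pool.Agent.Strip051.LC
open Pool.Agent.Strip051.G.I1_8_3_16.Tab Pool.Agent.Strip051.G.I1_8_3_16.Tab.St

noncomputable def cut_A00pp_001_s1 : Cut := Cut.of [[⟨4, 0, 0, 1449551462⟩]]

noncomputable def f_A00pp_001_s1 : ℕ → ℕ → ℕ → ℕ → Bool := onCell 0 536870912 0 536870912 134217728 67108864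
    (rowFK 0 true true true .up 0 0 1 (qsf 0 536870912 0 536870912 1) ndF0q0 ndF0q0 pcF1 cut_A00pp_001_s1 Ext.none)

def k0_A00pp_001_s1 : ∃ t, chk3 f_A00pp_001_s1 t 1 1 1 = true :=
  ⟨(l 4), by decide +kernel⟩

theorem c_A00pp_001_s1 : CertF 0 536870912 0 536870912 134217728 67108864 true true true .up 0 0 1
    ndF0q0 ndF0q0 pcF1 cut_A00pp_001_s1 Ext.none :=
  certFK0 (fam := true) (s1 := true) (s2 := true) (a := 0) (b := 0) (c := 1) (cn := .up) (n1 := ndF0q0) (n2 := ndF0q0) (pc := pcF1) (cut := cut_A00pp_001_s1) (xt := Ext.none) (P1 := 0) (W1 := 536870912) (P2 := 0) (W2 := 536870912) (P3 := 134217728) (W3 := 67108864)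
    rfl rfl rfl k0_A00pp_001_s1

theorem s_A00pp_001_s1 {κ x : ℝ} (hκ : κ * h0 = ken x) (hx : ((134217728 : ℕ) : ℝ) / S ≤ x)
    (hx' : x ≤ (((134217728 : ℕ) : ℝ) + (67108864 : ℕ)) / S) :
    AltA (VF κ) PP tKF tL pcF [⟨3, 0, 0, 1449551462⟩] 0 0 1 0 0 (sgb true) (sgb true) x :=
  strip_altA (m := 1449551462) true rfl hκ covF00 covF00 hx hx' c_A00pp_001_s1 cutA_nil (noExt_A)

noncomputable def cut_A00pp_001_s3 : Cut := Cut.of [[⟨3, 0, 0, 2845415833⟩]]

noncomputable def f_A00pp_001_s3 : ℕ → ℕ → ℕ → ℕ → Bool := onCell 0 536870912 0 536870912 134217728 67108864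
    (rowFK 0 true true true .up 0 0 1 (qsf 0 536870912 0 536870912 1) ndF0q0 ndF0q0 pcF1 cut_A00pp_001_s3 Ext.none)

def k0_A00pp_001_s3 : ∃ t, chk3 f_A00pp_001_s3 t 1 1 1 = true :=
  ⟨(l 4), by decide +kernel⟩

theorem c_A00pp_001_s3 : CertF 0 536870912 0 536870912 134217728 67108864 true true true .up 0 0 1
    ndF0q0 ndF0q0 pcF1 cut_A00pp_001_s3 Ext.none :=
  certFK0 (fam := true) (s1 := true) (s2 := true) (a := 0) (b := 0) (c := 1) (cn := .up) (n1 := ndF0q0) (n2 := ndF0q0) (pc := pcF1) (cut := cut_A00pp_001_s3) (xt := Ext.none) (P1 := 0) (W1 := 536870912) (P2 := 0) (W2 := 536870912) (P3 := 134217728) (W3 := 67108864)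
    rfl rfl rfl k0_A00pp_001_s3

theorem s_A00pp_001_s3 {κ x : ℝ} (hκ : κ * h0 = ken x) (hx : ((134217728 : ℕ) : ℝ) / S ≤ x)
    (hx' : x ≤ (((134217728 : ℕ) : ℝ) + (67108864 : ℕ)) / S) :
    AltA (VF κ) PP tKF tL pcF [⟨4, 0, 0, 2845415833⟩] 0 0 1 0 0 (sgb true) (sgb true) x :=
  strip_altA (m := 2845415833) false rfl hκ covF00 covF00 hx hx' c_A00pp_001_s3 cutA_nil (noExt_A)

noncomputable def cut_A00pp_011_s1 : Cut := Cut.of [[⟨4, 0, 0, 1449551462⟩], [⟨0, 0, 0, 67108864⟩, ⟨1, 1, 0, 67108864⟩, ⟨2, 1, 0, 67108864⟩]]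

noncomputable def f_A00pp_011_s1 : ℕ → ℕ → ℕ → ℕ → Bool := onCell 0 536870912 536870912 536870912 134217728 67108864
    (rowFK 0 true true true .pnn 0 1 1 (qsf 0 536870912 536870912 536870912 1) ndF0q0 ndF0q1 pcF1 cut_A00pp_011_s1 Ext.none)

def k0_A00pp_011_s1 : ∃ t, chk3 f_A00pp_011_s1 t 1 1 1 = true :=
  ⟨(l 6), by decide +kernel⟩

theorem c_A00pp_011_s1 : CertF 0 536870912 536870912 536870912 134217728 67108864 true true true .pnn 0 1 1
    ndF0q0 ndF0q1 pcF1 cut_A00pp_011_s1 Ext.none :=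
  certFK0 (fam := true) (s1 := true) (s2 := true) (a := 0) (b := 1) (c := 1) (cn := .pnn) (n1 := ndF0q0) (n2 := ndF0q1) (pc := pcF1) (cut := cut_A00pp_011_s1) (xt := Ext.none) (P1 := 0) (W1 := 536870912) (P2 := 536870912) (W2 := 536870912) (P3 := 134217728) (W3 := 67108864)
    rfl rfl rfl k0_A00pp_011_s1

theorem s_A00pp_011_s1 {κ x : ℝ} (hκ : κ * h0 = ken x) (hx : ((134217728 : ℕ) : ℝ) / S ≤ x)
    (hx' : x ≤ (((134217728 : ℕ) : ℝ) + (67108864 : ℕ)) / S)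
    (H : CutA (VF κ) PP tKF tL pcF (Cut.of [[⟨0, 0, 0, 67108864⟩, ⟨1, 1, 0, 67108864⟩, ⟨2, 1, 0, 67108864⟩]]) 0 1 1 0 0 (sgb true) (sgb true) x) :
    AltA (VF κ) PP tKF tL pcF [⟨3, 0, 0, 1449551462⟩] 0 1 1 0 0 (sgb true) (sgb true) x :=
  strip_altA (m := 1449551462) true rfl hκ covF00 covF01 hx hx' c_A00pp_011_s1 H (noExt_A)

noncomputable def cut_A00pp_011_s3 : Cut := Cut.of [[⟨3, 0, 0, 2845415833⟩], [⟨0, 0, 0, 67108864⟩, ⟨1, 1, 0, 67108864⟩, ⟨2, 1, 0, 67108864⟩]]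

noncomputable def f_A00pp_011_s3 : ℕ → ℕ → ℕ → ℕ → Bool := onCell 0 536870912 536870912 536870912 134217728 67108864
    (rowFK 0 true true true .pnn 0 1 1 (qsf 0 536870912 536870912 536870912 1) ndF0q0 ndF0q1 pcF1 cut_A00pp_011_s3 Ext.none)

def k0_A00pp_011_s3 : ∃ t, chk3 f_A00pp_011_s3 t 1 1 1 = true :=
  ⟨(a (b (l 4) (b (l 4) (b (l 4) (a (a (b (l 4) (a (l 14) (l 4))) (l 4)) (l 2))))) (l 4)), by decide +kernel⟩

theorem c_A00pp_011_s3 : CertF 0 536870912 536870912 536870912 134217728 67108864 true true true .pnn 0 1 1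
    ndF0q0 ndF0q1 pcF1 cut_A00pp_011_s3 Ext.none :=
  certFK0 (fam := true) (s1 := true) (s2 := true) (a := 0) (b := 1) (c := 1) (cn := .pnn) (n1 := ndF0q0) (n2 := ndF0q1) (pc := pcF1) (cut := cut_A00pp_011_s3) (xt := Ext.none) (P1 := 0) (W1 := 536870912) (P2 := 536870912) (W2 := 536870912) (P3 := 134217728) (W3 := 67108864)
    rfl rfl rfl k0_A00pp_011_s3

theorem s_A00pp_011_s3 {κ x : ℝ} (hκ : κ * h0 = ken x) (hx : ((134217728 : ℕ) : ℝ) / S ≤ x)
    (hx' : x ≤ (((134217728 : ℕ) : ℝ) + (67108864 : ℕ)) / S)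
    (H : CutA (VF κ) PP tKF tL pcF (Cut.of [[⟨0, 0, 0, 67108864⟩, ⟨1, 1, 0, 67108864⟩, ⟨2, 1, 0, 67108864⟩]]) 0 1 1 0 0 (sgb true) (sgb true) x) :
    AltA (VF κ) PP tKF tL pcF [⟨4, 0, 0, 2845415833⟩] 0 1 1 0 0 (sgb true) (sgb true) x :=
  strip_altA (m := 2845415833) false rfl hκ covF00 covF01 hx hx' c_A00pp_011_s3 H (noExt_A)

noncomputable def cut_A00pp_012_s1 : Cut := Cut.of [[⟨4, 0, 0, 1449551462⟩], [⟨0, 0, 0, 67108864⟩, ⟨1, 1, 0, 67108864⟩, ⟨2, 1, 0, 67108864⟩]]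

noncomputable def f_A00pp_012_s1 : ℕ → ℕ → ℕ → ℕ → Bool := onCell 0 536870912 536870912 536870912 134217728 67108864
    (rowFK 0 true true true .pnp 0 1 2 (qsf 0 536870912 536870912 536870912 2) ndF0q0 ndF0q1 pcF2 cut_A00pp_012_s1 Ext.none)

def k0_A00pp_012_s1 : ∃ t, chk3 f_A00pp_012_s1 t 1 1 1 = true :=
  ⟨(l 6), by decide +kernel⟩

theorem c_A00pp_012_s1 : CertF 0 536870912 536870912 536870912 134217728 67108864 true true true .pnp 0 1 2
    ndF0q0 ndF0q1 pcF2 cut_A00pp_012_s1 Ext.none :=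
  certFK0 (fam := true) (s1 := true) (s2 := true) (a := 0) (b := 1) (c := 2) (cn := .pnp) (n1 := ndF0q0) (n2 := ndF0q1) (pc := pcF2) (cut := cut_A00pp_012_s1) (xt := Ext.none) (P1 := 0) (W1 := 536870912) (P2 := 536870912) (W2 := 536870912) (P3 := 134217728) (W3 := 67108864)
    rfl rfl rfl k0_A00pp_012_s1

theorem s_A00pp_012_s1 {κ x : ℝ} (hκ : κ * h0 = ken x) (hx : ((134217728 : ℕ) : ℝ) / S ≤ x)
    (hx' : x ≤ (((134217728 : ℕ) : ℝ) + (67108864 : ℕ)) / S)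
    (H : CutA (VF κ) PP tKF tL pcF (Cut.of [[⟨0, 0, 0, 67108864⟩, ⟨1, 1, 0, 67108864⟩, ⟨2, 1, 0, 67108864⟩]]) 0 1 2 0 0 (sgb true) (sgb true) x) :
    AltA (VF κ) PP tKF tL pcF [⟨3, 0, 0, 1449551462⟩] 0 1 2 0 0 (sgb true) (sgb true) x :=
  strip_altA (m := 1449551462) true rfl hκ covF00 covF01 hx hx' c_A00pp_012_s1 H (noExt_A)

noncomputable def cut_A00pp_012_s3 : Cut := Cut.of [[⟨3, 0, 0, 2845415833⟩], [⟨0, 0, 0, 67108864⟩, ⟨1, 1, 0, 67108864⟩, ⟨2, 1, 0, 67108864⟩]]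

noncomputable def f_A00pp_012_s3 : ℕ → ℕ → ℕ → ℕ → Bool := onCell 0 536870912 536870912 536870912 134217728 67108864
    (rowFK 0 true true true .pnp 0 1 2 (qsf 0 536870912 536870912 536870912 2) ndF0q0 ndF0q1 pcF2 cut_A00pp_012_s3 Ext.none)

def k0_A00pp_012_s3 : ∃ t, chk3 f_A00pp_012_s3 t 1 1 1 = true :=
  ⟨(b (l 4) (a (b (l 4) (a (b (l 4) (a (b (l 4) (a (l 14) (l 4))) (l 4))) (l 4))) (l 4))), by decide +kernel⟩

theorem c_A00pp_012_s3 : CertF 0 536870912 536870912 536870912 134217728 67108864 true true true .pnp 0 1 2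
    ndF0q0 ndF0q1 pcF2 cut_A00pp_012_s3 Ext.none :=
  certFK0 (fam := true) (s1 := true) (s2 := true) (a := 0) (b := 1) (c := 2) (cn := .pnp) (n1 := ndF0q0) (n2 := ndF0q1) (pc := pcF2) (cut := cut_A00pp_012_s3) (xt := Ext.none) (P1 := 0) (W1 := 536870912) (P2 := 536870912) (W2 := 536870912) (P3 := 134217728) (W3 := 67108864)
    rfl rfl rfl k0_A00pp_012_s3

theorem s_A00pp_012_s3 {κ x : ℝ} (hκ : κ * h0 = ken x) (hx : ((134217728 : ℕ) : ℝ) / S ≤ x)
    (hx' : x ≤ (((134217728 : ℕ) : ℝ) + (67108864 : ℕ)) / S)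
    (H : CutA (VF κ) PP tKF tL pcF (Cut.of [[⟨0, 0, 0, 67108864⟩, ⟨1, 1, 0, 67108864⟩, ⟨2, 1, 0, 67108864⟩]]) 0 1 2 0 0 (sgb true) (sgb true) x) :
    AltA (VF κ) PP tKF tL pcF [⟨4, 0, 0, 2845415833⟩] 0 1 2 0 0 (sgb true) (sgb true) x :=
  strip_altA (m := 2845415833) false rfl hκ covF00 covF01 hx hx' c_A00pp_012_s3 H (noExt_A)

noncomputable def cut_A00pp_022_s1 : Cut := Cut.of [[⟨4, 0, 0, 1449551462⟩], [⟨0, 0, 0, 67108864⟩, ⟨1, 1, 0, 67108864⟩, ⟨2, 1, 0, 67108864⟩]]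

noncomputable def f_A00pp_022_s1 : ℕ → ℕ → ℕ → ℕ → Bool := onCell 0 536870912 0 536870912 134217728 67108864
    (rowFK 0 true true true .pp 0 2 2 (qsf 0 536870912 0 536870912 2) ndF0q0 ndF0q2 pcF2 cut_A00pp_022_s1 Ext.none)

def k0_A00pp_022_s1 : ∃ t, chk3 f_A00pp_022_s1 t 1 1 1 = true :=
  ⟨(l 6), by decide +kernel⟩

theorem c_A00pp_022_s1 : CertF 0 536870912 0 536870912 134217728 67108864 true true true .pp 0 2 2
    ndF0q0 ndF0q2 pcF2 cut_A00pp_022_s1 Ext.none :=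
  certFK0 (fam := true) (s1 := true) (s2 := true) (a := 0) (b := 2) (c := 2) (cn := .pp) (n1 := ndF0q0) (n2 := ndF0q2) (pc := pcF2) (cut := cut_A00pp_022_s1) (xt := Ext.none) (P1 := 0) (W1 := 536870912) (P2 := 0) (W2 := 536870912) (P3 := 134217728) (W3 := 67108864)
    rfl rfl rfl k0_A00pp_022_s1

theorem s_A00pp_022_s1 {κ x : ℝ} (hκ : κ * h0 = ken x) (hx : ((134217728 : ℕ) : ℝ) / S ≤ x)
    (hx' : x ≤ (((134217728 : ℕ) : ℝ) + (67108864 : ℕ)) / S)
    (H : CutA (VF κ) PP tKF tL pcF (Cut.of [[⟨0, 0, 0, 67108864⟩, ⟨1, 1, 0, 67108864⟩, ⟨2, 1, 0, 67108864⟩]]) 0 2 2 0 0 (sgb true) (sgb true) x) :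
    AltA (VF κ) PP tKF tL pcF [⟨3, 0, 0, 1449551462⟩] 0 2 2 0 0 (sgb true) (sgb true) x :=
  strip_altA (m := 1449551462) true rfl hκ covF00 covF02 hx hx' c_A00pp_022_s1 H (noExt_A)

noncomputable def cut_A00pp_022_s3 : Cut := Cut.of [[⟨3, 0, 0, 2845415833⟩], [⟨0, 0, 0, 67108864⟩, ⟨1, 1, 0, 67108864⟩, ⟨2, 1, 0, 67108864⟩]]

noncomputable def xt_A00pp_022_s3 : Ext := strExt dd true true true .u0 .u2 .s2 .pp 0 2 2 rfl rfl gl2 vv ndF0q0 ndF0q2

noncomputable def f_A00pp_022_s3 : ℕ → ℕ → ℕ → ℕ → Bool := onCell 0 536870912 0 536870912 134217728 67108864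
    (rowFK 0 true true true .pp 0 2 2 (qsf 0 536870912 0 536870912 2) ndF0q0 ndF0q2 pcF2 cut_A00pp_022_s3 xt_A00pp_022_s3)

def k0_A00pp_022_s3 : ∃ t, chk3 f_A00pp_022_s3 t 2 2 1 = true :=
  ⟨(a (b (l 6) (a (l 6) (b (l 6) (a (a (l 6) (l 16848104)) (b (l 6) (l 17110424)))))) (b (a (l 6) (b (l 6) (l 17236848))) (a (b (a (l 6) (l 17216272)) (a (b (l 17170360) (l 17109832)) (b (l 17134952) (l 17073792)))) (a (b (l 17167152) (b (l 17083232) (l 17020736))) (b (l 17109968) (a (l 17007088) (l 544241423))))))), by decide +kernel⟩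

def k1_A00pp_022_s3 : ∃ t, chk3 f_A00pp_022_s3 t 8 12 1 = true :=
  ⟨(b (a (l 6) (a (l 6) (l 16779136))) (a (a (a (l 6) (b (l 6) (l 16701112))) (a (l 16720880) (l 16701312))) (a (a (l 16702664) (l 16703992)) (b (l 16702272) (l 16709464))))), by decide +kernel⟩

def k2_A00pp_022_s3 : ∃ t, chk3 f_A00pp_022_s3 t 8 13 2 = true :=
  ⟨(b (a (a (a (b (l 16705360) (l 16710408)) (b (l 16707424) (l 16712728))) (a (b (l 16709392) (l 16714960)) (b (l 16711272) (l 16717112)))) (a (b (l 16713936) (l 16720160)) (b (l 16759296) (l 16724144)))) (c (c (b (a (a (a (l 16715984) (l 16718576)) (a (l 16721072) (l 16723472))) (a (l 16737368) (l 16718864))) (c (a (a (a (a (l 16720480) (l 16721904)) (l 16723976)) (a (l 16726664) (l 16729272))) (a (a (l 16731800) (l 16734256)) (l 16737792))) (a (a (a (a (l 16720304) (l 16721720)) (l 16723784)) (a (l 16726464) (l 16729064))) (a (a (l 16731592) (l 16734048)) (l 16737592))))) (a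 (a (a (b (l 16715632) (a (l 16720016) (l 16721424))) (b (l 16718192) (l 16723472))) (b (a (l 16720664) (l 16723056)) (a (l 16726152) (l 16728744)))) (a (b (l 16726456) (a (l 16731264) (l 16733728))) (a (l 16743480) (l 16745760))))) (c (a (a (a (b (l 16715208) (a (l 16719576) (l 16720976))) (b (l 16717752) (l 16723016))) (b (a (l 16720216) (l 16722592)) (a (l 16725680) (l 16728272)))) (a (a (b (l 16724904) (l 16730792)) (l 16740704)) (a (l 16732536) (l 16734832)))) (a (a (a (b (l 16714728) (l 16719768)) (b (l 16717256) (l 16722512))) (b (a (l 16719704) (l 16722080)) (a (l 16725176) (l 16727760)))) (a (a (l 16748328) (l 16729712)) (a (l 16732048) (l 16734352))))))), by decide +kernel⟩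

def k3_A00pp_022_s3 : ∃ t, chk3 f_A00pp_022_s3 t 8 13 3 = true :=
  ⟨(b (a (a (a (b (l 16703272) (l 16708272)) (b (l 16705272) (l 16710544))) (a (l 16710016) (l 16712008))) (a (b (l 16711712) (l 16717936)) (b (l 16715248) (l 16722000)))) (c (c (a (a (a (b (l 16714184) (l 16719208)) (b (l 16716704) (l 16721952))) (b (a (l 16719152) (l 16721528)) (a (l 16724616) (l 16727208)))) (a (a (l 16726808) (l 16729176)) (a (l 16731520) (l 16733848)))) (a (a (a (b (l 16713576) (l 16718600)) (b (l 16716096) (l 16721344))) (b (a (l 16718536) (l 16720920)) (a (l 16724016) (l 16726616)))) (a (a (l 16726224) (l 16728608)) (a (l 16730968) (l 16733320))))) (a (a (a (b (l 16712544) (l 16717584)) (b (l 16715072) (l 16720344))) (b (a (l 16717528) (l 16719928)) (a (l 16723024) (l 16725656)))) (a (a (l 16725272) (l 16727688)) (a (l 16730080) (l 16732472)))))), by decide +kernel⟩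

def k4_A00pp_022_s3 : ∃ t, chk3 f_A00pp_022_s3 t 9 6 1 = true :=
  ⟨(a (b (b (a (l 16911280) (l 16988936)) (a (l 16812360) (l 16904800))) (a (b (b (l 16734008) (l 16727200)) (b (l 16744648) (a (l 16739792) (l 16742256)))) (b (b (l 16839760) (l 16796720)) (a (l 536241935) (l 536077327))))) (b (b (a (l 17030496) (l 17047720)) (a (l 16954400) (l 16975728))) (a (b (b (l 16896240) (l 16858032)) (a (l 537610511) (l 538895887))) (b (l 541716495) (a (l 539977743) (l 540890639)))))), by decide +kernel⟩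

def k5_A00pp_022_s3 : ∃ t, chk3 f_A00pp_022_s3 t 16 56 1 = true :=
  ⟨(b (b (a (a (a (l 16721992) (l 16723448)) (l 16725584)) (a (l 16728368) (l 16731088))) (c (a (a (l 16725048) (l 16727968)) (a (l 16730800) (l 16733552))) (a (a (l 16722824) (l 16725752)) (a (l 16728608) (l 16731392))))) (b (c (a (a (l 16726384) (l 16729352)) (a (l 16732224) (l 16735016))) (a (a (l 16724168) (l 16727144)) (a (l 16730040) (l 16732872)))) (b (a (a (a (l 16725632) (l 16727152)) (l 16729384)) (a (l 16732288) (l 16735128))) (a (a (a (l 16726312) (l 16727840)) (l 16730088)) (a (l 16733016) (l 16735872)))))), by decide +kernel⟩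

def k6_A00pp_022_s3 : ∃ t, chk3 f_A00pp_022_s3 t 16 57 1 = true :=
  ⟨(b (b (b (a (a (a (l 16727000) (l 16728536)) (l 16730792)) (a (l 16733744) (l 16736624))) (a (a (a (l 16727688) (l 16729232)) (l 16731512)) (a (l 16734480) (l 16737384)))) (b (c (a (a (l 16730168) (l 16733240)) (a (l 16736216) (l 16739112))) (a (a (l 16727976) (l 16731072)) (a (l 16734088) (l 16737048)))) (c (a (a (a (l 16730096) (l 16731664)) (l 16733960)) (a (l 16736952) (l 16739872))) (a (a (l 16728680) (l 16731800)) (a (l 16734840) (l 16737824)))))) (b (b (c (a (a (a (l 16730800) (l 16732376)) (l 16734688)) (a (l 16737696) (l 16740632))) (a (a (l 16729400) (l 16732536)) (a (l 16735600) (l 16738600)))) (c (a (a (a (l 14) (l 16733096)) (l 16735416)) (a (l 16738448) (l 16741400))) (b (a (a (l 16729944) (l 16733096)) (a (l 16736176) (l 16739192))) (a (a (l 16730304) (l 16733472)) (a (l 16736560) (l 16739584)))))) (b (c (b (a (a (a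 (l 14) (l 16733640)) (l 16735976)) (a (l 16739016) (l 16741976))) (a (a (a (l 14) (l 16734000)) (l 16736344)) (a (l 16739392) (l 16742360)))) (b (a (a (l 16730672) (l 16733840)) (a (l 16736944) (l 16739976))) (a (a (l 16731040) (l 16734216)) (a (l 16737328) (l 16740376))))) (c (b (a (a (a (l 14) (l 16734368)) (l 16736712)) (a (l 16739768) (l 16742752))) (a (a (a (l 14) (l 16734736)) (l 16737088)) (a (l 16740152) (l 16743136)))) (b (a (a (a (l 14) (l 16732216)) (l 16734600)) (a (l 16737712) (l 16740768))) (a (a (a (l 14) (l 16732592)) (l 16734976)) (a (l 16738104) (l 16741168)))))))), by decide +kernel⟩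

def k7_A00pp_022_s3 : ∃ t, chk3 f_A00pp_022_s3 t 16 29 1 = true :=
  ⟨(b (a (b (a (b (a (l 14) (l 16734656)) (l 14)) (a (b (l 16736256) (l 16737776)) (l 16738600))) (b (a (l 14) (a (l 16739328) (l 16740936))) (b (a (l 14) (a (l 14) (l 16742128))) (a (l 14) (a (l 14) (l 16742928)))))) (a (a (b (l 16740160) (l 16743320)) (b (l 16741704) (l 16744896))) (a (b (l 16743232) (l 16746456)) (b (l 16744744) (l 16748000))))) (b (a (a (l 14) (a (l 14) (a (l 14) (l 16745384)))) (a (a (a (l 16746192) (l 16747000)) (c (l 16749048) (l 16747272))) (a (c (l 16750608) (l 16748888)) (l 16751352)))) (a (l 14) (a (a (l 14) (b (l 16750744) (l 16752480))) (a (c (l 16753976) (l 16752408)) (c (l 16755536) (l 16754048))))))), by decide +kernel⟩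

def k8_A00pp_022_s3 : ∃ t, chk3 f_A00pp_022_s3 t 17 14 1 = true :=
  ⟨(a (a (b (a (b (l 16735336) (l 16751952)) (b (l 16736680) (l 16753384))) (a (b (b (l 16746240) (l 16749528)) (b (l 16752912) (b (l 16755520) (l 16757288)))) (b (b (l 16747728) (l 16751048)) (b (l 16754456) (b (l 16757080) (l 16758864)))))) (b (a (b (l 16738016) (l 16754800)) (b (l 16739344) (l 16756208))) (b (b (l 16760400) (a (l 16752544) (l 16754040))) (a (b (l 16755984) (l 535872527)) (b (l 16757504) (l 535606799)))))) (a (b (b (l 16751776) (b (l 16746152) (l 16749456))) (a (b (l 535936783) (b (l 16759016) (l 535340303))) (b (l 535399439) (b (l 16765760) (l 535341583))))) (b (b (l 16754376) (b (l 16748880) (l 16752256))) (b (b (l 16755688) (l 536184591)) (a (l 535892495) (l 535355407)))))), by decide +kernel⟩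

def k9_A00pp_022_s3 : ∃ t, chk3 f_A00pp_022_s3 t 9 14 1 = true :=
  ⟨(a (a (b (a (b (l 16756968) (l 535953423)) (b (l 535428879) (l 535406607))) (a (b (l 536192015) (b (l 535358735) (l 535605263))) (b (l 535648783) (a (l 535353871) (l 535350799))))) (b (a (b (l 535415823) (l 535396367)) (l 535665679)) (a (b (l 535372047) (a (l 535346959) (l 535343375))) (b (l 535365135) (l 535337743))))) (a (b (a (l 535384335) (l 535927055)) (b (l 535881999) (a (l 535333647) (l 535328527)))) (b (b (l 538934799) (l 537490959)) (b (l 535573263) (l 4))))), by decide +kernel⟩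

def k10_A00pp_022_s3 : ∃ t, chk3 f_A00pp_022_s3 t 4 15 1 = true :=
  ⟨(a (a (b (b (a (l 14) (a (l 14) (b (b (a (l 16755888) (l 16757496)) (a (c (l 16758360) (l 16757016)) (l 16759336))) (a (l 14) (a (a (l 14) (l 535271695)) (l 535808527)))))) (l 14)) (l 14)) (a (b (a (a (a (b (b (l 535303695) (l 535273999)) (b (l 535512335) (l 14))) (b (b (l 535305743) (l 535276047)) (b (l 535246351) (l 14)))) (b (b (b (l 16760680) (l 16762536)) (a (l 535278095) (l 535279887))) (b (a (l 535248655) (l 535250959)) (a (l 14) (l 535221775))))) (a (b (b (l 536112399) (a (l 535281679) (l 535283471))) (b (a (l 535253007) (l 535255055)) (a (l 535224335) (l 535226383)))) (b (b (l 535578639) (l 535550735)) (b (l 535522575) (l 535494671))))) (a (l 14) (a (a (l 14) (a (l 14) (l 4))) (l 4)))) (b (a (b (a (b (l 535312911) (l 535285519)) (b (l 535314959) (l 535288079))) (a (b (l 535257871) (l 535230479)) (b (l 535261199) (l 535234319))))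 (b (a (b (l 535316239) (l 535289871)) (b (l 535317263) (l 535291407))) (a (l 535519759) (l 535522063)))) (l 4)))) (b (b (a (a (a (b (l 535311887) (l 535823887)) (a (l 535305743) (l 535305231))) (a (a (l 535304207) (l 4)) (l 4))) (l 4)) (l 4)) (l 4))), by decide +kernel⟩

def k11_A00pp_022_s3 : ∃ t, chk3 f_A00pp_022_s3 t 5 3 1 = true :=
  ⟨(b (a (b (a (b (l 16960288) (a (l 16978176) (l 16967944))) (b (l 16923952) (a (l 16949208) (l 16840936)))) (a (b (a (l 542810639) (l 543599887)) (a (l 541470479) (l 543121935))) (b (a (l 544167695) (l 544573199)) (a (l 543923727) (l 544498959))))) (b (a (b (l 544568591) (a (l 544709391) (l 544840207))) (a (l 544783119) (l 544803343))) (a (b (l 544971023) (l 545071119)) (b (a (l 545167631) (l 545228303)) (l 4))))) (b (b (a (a (a (l 538929679) (l 542173711)) (a (l 543345935) (l 4))) (l 4)) (l 4)) (l 4))), by decide +kernel⟩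

def k12_A00pp_022_s3 : ∃ t, chk3 f_A00pp_022_s3 t 3 1 1 = true :=
  ⟨(b (a (b (a (b (l 17206688) (a (l 17151184) (l 17091152))) (b (a (l 17118560) (l 17059800)) (a (l 17030976) (l 16888288)))) (a (b (a (l 17049256) (l 543544079)) (a (l 544202511) (l 544079631))) (b (l 543283983) (l 543824655)))) (b (l 2) (b (l 2) (b (l 2) (l 4))))) (a (b (b (a (a (l 544781071) (l 544684559)) (l 4)) (l 4)) (l 4)) (l 4))), by decide +kernel⟩

theorem t13_A00pp_022_s3 : ∃ t, chk3 f_A00pp_022_s3 t 16 28 1 = true := ex3_b k5_A00pp_022_s3 k6_A00pp_022_s3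

theorem t14_A00pp_022_s3 : ∃ t, chk3 f_A00pp_022_s3 t 16 14 1 = true := ex3_b t13_A00pp_022_s3 k7_A00pp_022_s3

theorem t15_A00pp_022_s3 : ∃ t, chk3 f_A00pp_022_s3 t 8 14 1 = true := ex3_a t14_A00pp_022_s3 k8_A00pp_022_s3

theorem t16_A00pp_022_s3 : ∃ t, chk3 f_A00pp_022_s3 t 4 14 1 = true := ex3_a t15_A00pp_022_s3 k9_A00pp_022_s3

theorem t17_A00pp_022_s3 : ∃ t, chk3 f_A00pp_022_s3 t 4 7 1 = true := ex3_b t16_A00pp_022_s3 k10_A00pp_022_s3

theorem t18_A00pp_022_s3 : ∃ t, chk3 f_A00pp_022_s3 t 8 13 1 = true := ex3_c k2_A00pp_022_s3 k3_A00pp_022_s3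

theorem t19_A00pp_022_s3 : ∃ t, chk3 f_A00pp_022_s3 t 8 6 1 = true := ex3_b k1_A00pp_022_s3 t18_A00pp_022_s3

theorem t20_A00pp_022_s3 : ∃ t, chk3 f_A00pp_022_s3 t 4 6 1 = true := ex3_a t19_A00pp_022_s3 k4_A00pp_022_s3

theorem t21_A00pp_022_s3 : ∃ t, chk3 f_A00pp_022_s3 t 4 3 1 = true := ex3_b t20_A00pp_022_s3 t17_A00pp_022_s3

theorem t22_A00pp_022_s3 : ∃ t, chk3 f_A00pp_022_s3 t 2 3 1 = true := ex3_a t21_A00pp_022_s3 k11_A00pp_022_s3

theorem t23_A00pp_022_s3 : ∃ t, chk3 f_A00pp_022_s3 t 2 1 1 = true := ex3_b k0_A00pp_022_s3 t22_A00pp_022_s3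

theorem t24_A00pp_022_s3 : ∃ t, chk3 f_A00pp_022_s3 t 1 1 1 = true := ex3_a t23_A00pp_022_s3 k12_A00pp_022_s3

theorem c_A00pp_022_s3 : CertF 0 536870912 0 536870912 134217728 67108864 true true true .pp 0 2 2
    ndF0q0 ndF0q2 pcF2 cut_A00pp_022_s3 xt_A00pp_022_s3 :=
  certFK0 (fam := true) (s1 := true) (s2 := true) (a := 0) (b := 2) (c := 2) (cn := .pp) (n1 := ndF0q0) (n2 := ndF0q2) (pc := pcF2) (cut := cut_A00pp_022_s3) (xt := xt_A00pp_022_s3) (P1 := 0) (W1 := 536870912) (P2 := 0) (W2 := 536870912) (P3 := 134217728) (W3 := 67108864)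
    rfl rfl rfl t24_A00pp_022_s3

theorem s_A00pp_022_s3 {κ x : ℝ} (hκ : κ * h0 = ken x) (hx : ((134217728 : ℕ) : ℝ) / S ≤ x)
    (hx' : x ≤ (((134217728 : ℕ) : ℝ) + (67108864 : ℕ)) / S)
    (H : CutA (VF κ) PP tKF tL pcF (Cut.of [[⟨0, 0, 0, 67108864⟩, ⟨1, 1, 0, 67108864⟩, ⟨2, 1, 0, 67108864⟩]]) 0 2 2 0 0 (sgb true) (sgb true) x) :
    AltA (VF κ) PP tKF tL pcF [⟨4, 0, 0, 2845415833⟩] 0 2 2 0 0 (sgb true) (sgb true) x :=
  strip_altA (m := 2845415833) false rfl hκ covF00 covF02 hx hx' c_A00pp_022_s3 H ((okx hx hx').extA (T := tt) (sideF hx hx') hκ rfl rfl (.O 0 true) (.O 2 true) (Or.inl rfl))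

noncomputable def cut_A00pp_023_s1 : Cut := Cut.of [[⟨4, 0, 0, 1449551462⟩]]

noncomputable def f_A00pp_023_s1 : ℕ → ℕ → ℕ → ℕ → Bool := onCell 0 536870912 0 536870912 134217728 67108864
    (rowFK 0 true true true .up 0 2 3 (qsf 0 536870912 0 536870912 3) ndF0q0 ndF0q2 pcF3 cut_A00pp_023_s1 Ext.none)

def k0_A00pp_023_s1 : ∃ t, chk3 f_A00pp_023_s1 t 1 1 1 = true :=
  ⟨(l 6), by decide +kernel⟩

theorem c_A00pp_023_s1 : CertF 0 536870912 0 536870912 134217728 67108864 true true true .up 0 2 3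
    ndF0q0 ndF0q2 pcF3 cut_A00pp_023_s1 Ext.none :=
  certFK0 (fam := true) (s1 := true) (s2 := true) (a := 0) (b := 2) (c := 3) (cn := .up) (n1 := ndF0q0) (n2 := ndF0q2) (pc := pcF3) (cut := cut_A00pp_023_s1) (xt := Ext.none) (P1 := 0) (W1 := 536870912) (P2 := 0) (W2 := 536870912) (P3 := 134217728) (W3 := 67108864)
    rfl rfl rfl k0_A00pp_023_s1

theorem s_A00pp_023_s1 {κ x : ℝ} (hκ : κ * h0 = ken x) (hx : ((134217728 : ℕ) : ℝ) / S ≤ x)
    (hx' : x ≤ (((134217728 : ℕ) : ℝ) + (67108864 : ℕ)) / S) :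
    AltA (VF κ) PP tKF tL pcF [⟨3, 0, 0, 1449551462⟩] 0 2 3 0 0 (sgb true) (sgb true) x :=
  strip_altA (m := 1449551462) true rfl hκ covF00 covF02 hx hx' c_A00pp_023_s1 cutA_nil (noExt_A)

noncomputable def cut_A00pp_023_s3 : Cut := Cut.of [[⟨3, 0, 0, 2845415833⟩]]

noncomputable def xt_A00pp_023_s3 : Ext := strExt dd true true true .u0 .u2 .s2 .up 0 2 3 rfl rfl gl3 vv ndF0q0 ndF0q2

noncomputable def f_A00pp_023_s3 : ℕ → ℕ → ℕ → ℕ → Bool := onCell 1610612736 536870912 0 536870912 134217728 67108864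
    (rowFK 2 true true true .up 0 2 3 (qsf 0 536870912 0 536870912 3) ndF0q0 ndF0q2 pcF3 cut_A00pp_023_s3 xt_A00pp_023_s3)

def k0_A00pp_023_s3 : ∃ t, chk3 f_A00pp_023_s3 t 1 1 1 = true :=
  ⟨(a (b (a (b (a (b (a (l 17199232) (l 17117672)) (a (l 545300239) (l 545077775))) (b (a (l 544460047) (l 544170511)) (a (l 544867343) (l 544589327)))) (a (b (a (l 545720335) (l 545514767)) (a (l 546193423) (l 4))) (b (l 545142031) (l 4)))) (b (a (b (a (l 543901455) (l 2)) (a (l 544273167) (l 2))) (l 2)) (l 4))) (l 4)) (l 2)), by decide +kernel⟩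

theorem c_A00pp_023_s3 : CertF 0 536870912 0 536870912 134217728 67108864 true true true .up 0 2 3
    ndF0q0 ndF0q2 pcF3 cut_A00pp_023_s3 xt_A00pp_023_s3 :=
  certFK2 (fam := true) (s1 := true) (s2 := true) (a := 0) (b := 2) (c := 3) (cn := .up) (n1 := ndF0q0) (n2 := ndF0q2) (pc := pcF3) (cut := cut_A00pp_023_s3) (xt := xt_A00pp_023_s3) (P1 := 0) (W1 := 536870912) (P2 := 0) (W2 := 536870912) (P3 := 134217728) (W3 := 67108864)
    rfl rfl rfl (fun _ => rfl) k0_A00pp_023_s3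

theorem s_A00pp_023_s3 {κ x : ℝ} (hκ : κ * h0 = ken x) (hx : ((134217728 : ℕ) : ℝ) / S ≤ x)
    (hx' : x ≤ (((134217728 : ℕ) : ℝ) + (67108864 : ℕ)) / S) :
    AltA (VF κ) PP tKF tL pcF [⟨4, 0, 0, 2845415833⟩] 0 2 3 0 0 (sgb true) (sgb true) x :=
  strip_altA (m := 2845415833) false rfl hκ covF00 covF02 hx hx' c_A00pp_023_s3 cutA_nil ((okx hx hx').extA (T := tt) (sideF hx hx') hκ rfl rfl (.O 0 true) (.O 2 true) (Or.inr rfl))

noncomputable def cut_A00pp_101_s1 : Cut := Cut.of [[⟨4, 0, 0, 1449551462⟩]]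

noncomputable def f_A00pp_101_s1 : ℕ → ℕ → ℕ → ℕ → Bool := onCell 536870912 536870912 0 536870912 134217728 67108864
    (rowFK 0 true true true .npn 1 0 1 (qsf 536870912 536870912 0 536870912 1) ndF0q1 ndF0q0 pcF1 cut_A00pp_101_s1 Ext.none)

def k0_A00pp_101_s1 : ∃ t, chk3 f_A00pp_101_s1 t 1 1 1 = true :=
  ⟨(l 6), by decide +kernel⟩

theorem c_A00pp_101_s1 : CertF 536870912 536870912 0 536870912 134217728 67108864 true true true .npn 1 0 1
    ndF0q1 ndF0q0 pcF1 cut_A00pp_101_s1 Ext.none :=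
  certFK0 (fam := true) (s1 := true) (s2 := true) (a := 1) (b := 0) (c := 1) (cn := .npn) (n1 := ndF0q1) (n2 := ndF0q0) (pc := pcF1) (cut := cut_A00pp_101_s1) (xt := Ext.none) (P1 := 536870912) (W1 := 536870912) (P2 := 0) (W2 := 536870912) (P3 := 134217728) (W3 := 67108864)
    rfl rfl rfl k0_A00pp_101_s1

theorem s_A00pp_101_s1 {κ x : ℝ} (hκ : κ * h0 = ken x) (hx : ((134217728 : ℕ) : ℝ) / S ≤ x)
    (hx' : x ≤ (((134217728 : ℕ) : ℝ) + (67108864 : ℕ)) / S) :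
    AltA (VF κ) PP tKF tL pcF [⟨3, 0, 0, 1449551462⟩] 1 0 1 0 0 (sgb true) (sgb true) x :=
  strip_altA (m := 1449551462) true rfl hκ covF01 covF00 hx hx' c_A00pp_101_s1 cutA_nil (noExt_A)

noncomputable def cut_A00pp_101_s3 : Cut := Cut.of [[⟨3, 0, 0, 2845415833⟩]]

noncomputable def f_A00pp_101_s3 : ℕ → ℕ → ℕ → ℕ → Bool := onCell 536870912 536870912 0 536870912 134217728 67108864
    (rowFK 0 true true true .npn 1 0 1 (qsf 536870912 536870912 0 536870912 1) ndF0q1 ndF0q0 pcF1 cut_A00pp_101_s3 Ext.none)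

def k0_A00pp_101_s3 : ∃ t, chk3 f_A00pp_101_s3 t 1 1 1 = true :=
  ⟨(a (l 4) (l 5)), by decide +kernel⟩

theorem c_A00pp_101_s3 : CertF 536870912 536870912 0 536870912 134217728 67108864 true true true .npn 1 0 1
    ndF0q1 ndF0q0 pcF1 cut_A00pp_101_s3 Ext.none :=
  certFK0 (fam := true) (s1 := true) (s2 := true) (a := 1) (b := 0) (c := 1) (cn := .npn) (n1 := ndF0q1) (n2 := ndF0q0) (pc := pcF1) (cut := cut_A00pp_101_s3) (xt := Ext.none) (P1 := 536870912) (W1 := 536870912) (P2 := 0) (W2 := 536870912) (P3 := 134217728) (W3 := 67108864)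
    rfl rfl rfl k0_A00pp_101_s3

theorem s_A00pp_101_s3 {κ x : ℝ} (hκ : κ * h0 = ken x) (hx : ((134217728 : ℕ) : ℝ) / S ≤ x)
    (hx' : x ≤ (((134217728 : ℕ) : ℝ) + (67108864 : ℕ)) / S) :
    AltA (VF κ) PP tKF tL pcF [⟨4, 0, 0, 2845415833⟩] 1 0 1 0 0 (sgb true) (sgb true) x :=
  strip_altA (m := 2845415833) false rfl hκ covF01 covF00 hx hx' c_A00pp_101_s3 cutA_nil (noExt_A)

noncomputable def cut_A00pp_102_s1 : Cut := Cut.of [[⟨4, 0, 0, 1449551462⟩]]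

noncomputable def f_A00pp_102_s1 : ℕ → ℕ → ℕ → ℕ → Bool := onCell 536870912 536870912 0 536870912 134217728 67108864
    (rowFK 0 true true true .npp 1 0 2 (qsf 536870912 536870912 0 536870912 2) ndF0q1 ndF0q0 pcF2 cut_A00pp_102_s1 Ext.none)

def k0_A00pp_102_s1 : ∃ t, chk3 f_A00pp_102_s1 t 1 1 1 = true :=
  ⟨(l 6), by decide +kernel⟩

theorem c_A00pp_102_s1 : CertF 536870912 536870912 0 536870912 134217728 67108864 true true true .npp 1 0 2
    ndF0q1 ndF0q0 pcF2 cut_A00pp_102_s1 Ext.none :=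
  certFK0 (fam := true) (s1 := true) (s2 := true) (a := 1) (b := 0) (c := 2) (cn := .npp) (n1 := ndF0q1) (n2 := ndF0q0) (pc := pcF2) (cut := cut_A00pp_102_s1) (xt := Ext.none) (P1 := 536870912) (W1 := 536870912) (P2 := 0) (W2 := 536870912) (P3 := 134217728) (W3 := 67108864)
    rfl rfl rfl k0_A00pp_102_s1

theorem s_A00pp_102_s1 {κ x : ℝ} (hκ : κ * h0 = ken x) (hx : ((134217728 : ℕ) : ℝ) / S ≤ x)
    (hx' : x ≤ (((134217728 : ℕ) : ℝ) + (67108864 : ℕ)) / S) :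
    AltA (VF κ) PP tKF tL pcF [⟨3, 0, 0, 1449551462⟩] 1 0 2 0 0 (sgb true) (sgb true) x :=
  strip_altA (m := 1449551462) true rfl hκ covF01 covF00 hx hx' c_A00pp_102_s1 cutA_nil (noExt_A)

noncomputable def cut_A00pp_102_s3 : Cut := Cut.of [[⟨3, 0, 0, 2845415833⟩]]

noncomputable def f_A00pp_102_s3 : ℕ → ℕ → ℕ → ℕ → Bool := onCell 536870912 536870912 0 536870912 134217728 67108864
    (rowFK 0 true true true .npp 1 0 2 (qsf 536870912 536870912 0 536870912 2) ndF0q1 ndF0q0 pcF2 cut_A00pp_102_s3 Ext.none)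

def k0_A00pp_102_s3 : ∃ t, chk3 f_A00pp_102_s3 t 1 1 1 = true :=
  ⟨(a (l 4) (l 5)), by decide +kernel⟩

theorem c_A00pp_102_s3 : CertF 536870912 536870912 0 536870912 134217728 67108864 true true true .npp 1 0 2
    ndF0q1 ndF0q0 pcF2 cut_A00pp_102_s3 Ext.none :=
  certFK0 (fam := true) (s1 := true) (s2 := true) (a := 1) (b := 0) (c := 2) (cn := .npp) (n1 := ndF0q1) (n2 := ndF0q0) (pc := pcF2) (cut := cut_A00pp_102_s3) (xt := Ext.none) (P1 := 536870912) (W1 := 536870912) (P2 := 0) (W2 := 536870912) (P3 := 134217728) (W3 := 67108864)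
    rfl rfl rfl k0_A00pp_102_s3

theorem s_A00pp_102_s3 {κ x : ℝ} (hκ : κ * h0 = ken x) (hx : ((134217728 : ℕ) : ℝ) / S ≤ x)
    (hx' : x ≤ (((134217728 : ℕ) : ℝ) + (67108864 : ℕ)) / S) :
    AltA (VF κ) PP tKF tL pcF [⟨4, 0, 0, 2845415833⟩] 1 0 2 0 0 (sgb true) (sgb true) x :=
  strip_altA (m := 2845415833) false rfl hκ covF01 covF00 hx hx' c_A00pp_102_s3 cutA_nil (noExt_A)

noncomputable def cut_A00pp_112_s1 : Cut := Cut.of [[⟨4, 0, 0, 1449551462⟩]]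

noncomputable def f_A00pp_112_s1 : ℕ → ℕ → ℕ → ℕ → Bool := onCell 536870912 536870912 536870912 536870912 134217728 67108864
    (rowFK 0 true true true .dn 1 1 2 (qsf 536870912 536870912 536870912 536870912 2) ndF0q1 ndF0q1 pcF2 cut_A00pp_112_s1 Ext.none)

def k0_A00pp_112_s1 : ∃ t, chk3 f_A00pp_112_s1 t 1 1 1 = true :=
  ⟨(l 4), by decide +kernel⟩

theorem c_A00pp_112_s1 : CertF 536870912 536870912 536870912 536870912 134217728 67108864 true true true .dn 1 1 2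
    ndF0q1 ndF0q1 pcF2 cut_A00pp_112_s1 Ext.none :=
  certFK0 (fam := true) (s1 := true) (s2 := true) (a := 1) (b := 1) (c := 2) (cn := .dn) (n1 := ndF0q1) (n2 := ndF0q1) (pc := pcF2) (cut := cut_A00pp_112_s1) (xt := Ext.none) (P1 := 536870912) (W1 := 536870912) (P2 := 536870912) (W2 := 536870912) (P3 := 134217728) (W3 := 67108864)
    rfl rfl rfl k0_A00pp_112_s1

theorem s_A00pp_112_s1 {κ x : ℝ} (hκ : κ * h0 = ken x) (hx : ((134217728 : ℕ) : ℝ) / S ≤ x)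
    (hx' : x ≤ (((134217728 : ℕ) : ℝ) + (67108864 : ℕ)) / S) :
    AltA (VF κ) PP tKF tL pcF [⟨3, 0, 0, 1449551462⟩] 1 1 2 0 0 (sgb true) (sgb true) x :=
  strip_altA (m := 1449551462) true rfl hκ covF01 covF01 hx hx' c_A00pp_112_s1 cutA_nil (noExt_A)

noncomputable def cut_A00pp_112_s3 : Cut := Cut.of [[⟨3, 0, 0, 2845415833⟩]]

noncomputable def f_A00pp_112_s3 : ℕ → ℕ → ℕ → ℕ → Bool := onCell 536870912 536870912 536870912 536870912 134217728 67108864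
    (rowFK 0 true true true .dn 1 1 2 (qsf 536870912 536870912 536870912 536870912 2) ndF0q1 ndF0q1 pcF2 cut_A00pp_112_s3 Ext.none)

def k0_A00pp_112_s3 : ∃ t, chk3 f_A00pp_112_s3 t 1 1 1 = true :=
  ⟨(l 4), by decide +kernel⟩

theorem c_A00pp_112_s3 : CertF 536870912 536870912 536870912 536870912 134217728 67108864 true true true .dn 1 1 2
    ndF0q1 ndF0q1 pcF2 cut_A00pp_112_s3 Ext.none :=
  certFK0 (fam := true) (s1 := true) (s2 := true) (a := 1) (b := 1) (c := 2) (cn := .dn) (n1 := ndF0q1) (n2 := ndF0q1) (pc := pcF2) (cut := cut_A00pp_112_s3) (xt := Ext.none) (P1 := 536870912) (W1 := 536870912) (P2 := 536870912) (W2 := 536870912) (P3 := 134217728) (W3 := 67108864)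
    rfl rfl rfl k0_A00pp_112_s3

theorem s_A00pp_112_s3 {κ x : ℝ} (hκ : κ * h0 = ken x) (hx : ((134217728 : ℕ) : ℝ) / S ≤ x)
    (hx' : x ≤ (((134217728 : ℕ) : ℝ) + (67108864 : ℕ)) / S) :
    AltA (VF κ) PP tKF tL pcF [⟨4, 0, 0, 2845415833⟩] 1 1 2 0 0 (sgb true) (sgb true) x :=
  strip_altA (m := 2845415833) false rfl hκ covF01 covF01 hx hx' c_A00pp_112_s3 cutA_nil (noExt_A)

noncomputable def cut_A00pp_113_s1 : Cut := Cut.of [[⟨4, 0, 0, 1449551462⟩]]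

noncomputable def f_A00pp_113_s1 : ℕ → ℕ → ℕ → ℕ → Bool := onCell 536870912 536870912 536870912 536870912 134217728 67108864
    (rowFK 0 true true true .nn 1 1 3 (qsf 536870912 536870912 536870912 536870912 3) ndF0q1 ndF0q1 pcF3 cut_A00pp_113_s1 Ext.none)

def k0_A00pp_113_s1 : ∃ t, chk3 f_A00pp_113_s1 t 1 1 1 = true :=
  ⟨(l 4), by decide +kernel⟩

theorem c_A00pp_113_s1 : CertF 536870912 536870912 536870912 536870912 134217728 67108864 true true true .nn 1 1 3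
    ndF0q1 ndF0q1 pcF3 cut_A00pp_113_s1 Ext.none :=
  certFK0 (fam := true) (s1 := true) (s2 := true) (a := 1) (b := 1) (c := 3) (cn := .nn) (n1 := ndF0q1) (n2 := ndF0q1) (pc := pcF3) (cut := cut_A00pp_113_s1) (xt := Ext.none) (P1 := 536870912) (W1 := 536870912) (P2 := 536870912) (W2 := 536870912) (P3 := 134217728) (W3 := 67108864)
    rfl rfl rfl k0_A00pp_113_s1

theorem s_A00pp_113_s1 {κ x : ℝ} (hκ : κ * h0 = ken x) (hx : ((134217728 : ℕ) : ℝ) / S ≤ x)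
    (hx' : x ≤ (((134217728 : ℕ) : ℝ) + (67108864 : ℕ)) / S) :
    AltA (VF κ) PP tKF tL pcF [⟨3, 0, 0, 1449551462⟩] 1 1 3 0 0 (sgb true) (sgb true) x :=
  strip_altA (m := 1449551462) true rfl hκ covF01 covF01 hx hx' c_A00pp_113_s1 cutA_nil (noExt_A)

noncomputable def cut_A00pp_113_s3 : Cut := Cut.of [[⟨3, 0, 0, 2845415833⟩]]

noncomputable def f_A00pp_113_s3 : ℕ → ℕ → ℕ → ℕ → Bool := onCell 536870912 536870912 536870912 536870912 134217728 67108864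
    (rowFK 0 true true true .nn 1 1 3 (qsf 536870912 536870912 536870912 536870912 3) ndF0q1 ndF0q1 pcF3 cut_A00pp_113_s3 Ext.none)

def k0_A00pp_113_s3 : ∃ t, chk3 f_A00pp_113_s3 t 1 1 1 = true :=
  ⟨(l 4), by decide +kernel⟩

theorem c_A00pp_113_s3 : CertF 536870912 536870912 536870912 536870912 134217728 67108864 true true true .nn 1 1 3
    ndF0q1 ndF0q1 pcF3 cut_A00pp_113_s3 Ext.none :=
  certFK0 (fam := true) (s1 := true) (s2 := true) (a := 1) (b := 1) (c := 3) (cn := .nn) (n1 := ndF0q1) (n2 := ndF0q1) (pc := pcF3) (cut := cut_A00pp_113_s3) (xt := Ext.none) (P1 := 536870912) (W1 := 536870912) (P2 := 536870912) (W2 := 536870912) (P3 := 134217728) (W3 := 67108864)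
    rfl rfl rfl k0_A00pp_113_s3

theorem s_A00pp_113_s3 {κ x : ℝ} (hκ : κ * h0 = ken x) (hx : ((134217728 : ℕ) : ℝ) / S ≤ x)
    (hx' : x ≤ (((134217728 : ℕ) : ℝ) + (67108864 : ℕ)) / S) :
    AltA (VF κ) PP tKF tL pcF [⟨4, 0, 0, 2845415833⟩] 1 1 3 0 0 (sgb true) (sgb true) x :=
  strip_altA (m := 2845415833) false rfl hκ covF01 covF01 hx hx' c_A00pp_113_s3 cutA_nil (noExt_A)

noncomputable def cut_A00pp_123_s1 : Cut := Cut.of [[⟨4, 0, 0, 1449551462⟩]]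

noncomputable def f_A00pp_123_s1 : ℕ → ℕ → ℕ → ℕ → Bool := onCell 536870912 536870912 0 536870912 134217728 67108864
    (rowFK 0 true true true .npn 1 2 3 (qsf 536870912 536870912 0 536870912 3) ndF0q1 ndF0q2 pcF3 cut_A00pp_123_s1 Ext.none)

def k0_A00pp_123_s1 : ∃ t, chk3 f_A00pp_123_s1 t 1 1 1 = true :=
  ⟨(l 6), by decide +kernel⟩

theorem c_A00pp_123_s1 : CertF 536870912 536870912 0 536870912 134217728 67108864 true true true .npn 1 2 3
    ndF0q1 ndF0q2 pcF3 cut_A00pp_123_s1 Ext.none :=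
  certFK0 (fam := true) (s1 := true) (s2 := true) (a := 1) (b := 2) (c := 3) (cn := .npn) (n1 := ndF0q1) (n2 := ndF0q2) (pc := pcF3) (cut := cut_A00pp_123_s1) (xt := Ext.none) (P1 := 536870912) (W1 := 536870912) (P2 := 0) (W2 := 536870912) (P3 := 134217728) (W3 := 67108864)
    rfl rfl rfl k0_A00pp_123_s1

theorem s_A00pp_123_s1 {κ x : ℝ} (hκ : κ * h0 = ken x) (hx : ((134217728 : ℕ) : ℝ) / S ≤ x)
    (hx' : x ≤ (((134217728 : ℕ) : ℝ) + (67108864 : ℕ)) / S) :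
    AltA (VF κ) PP tKF tL pcF [⟨3, 0, 0, 1449551462⟩] 1 2 3 0 0 (sgb true) (sgb true) x :=
  strip_altA (m := 1449551462) true rfl hκ covF01 covF02 hx hx' c_A00pp_123_s1 cutA_nil (noExt_A)

noncomputable def cut_A00pp_123_s3 : Cut := Cut.of [[⟨3, 0, 0, 2845415833⟩]]

noncomputable def xt_A00pp_123_s3 : Ext := strExt dd true true true .u0 .u2 .s2 .npn 1 2 3 rfl rfl gl3 vv ndF0q1 ndF0q2

noncomputable def f_A00pp_123_s3 : ℕ → ℕ → ℕ → ℕ → Bool := onCell 536870912 536870912 0 536870912 134217728 67108864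
    (rowFK 0 true true true .npn 1 2 3 (qsf 536870912 536870912 0 536870912 3) ndF0q1 ndF0q2 pcF3 cut_A00pp_123_s3 xt_A00pp_123_s3)

def k0_A00pp_123_s3 : ∃ t, chk3 f_A00pp_123_s3 t 1 1 1 = true :=
  ⟨(b (a (a (b (a (b (l 543562511) (b (l 543765007) (l 4))) (b (l 543145487) (l 4))) (l 4)) (l 4)) (l 4)) (l 4)), by decide +kernel⟩

theorem c_A00pp_123_s3 : CertF 536870912 536870912 0 536870912 134217728 67108864 true true true .npn 1 2 3
    ndF0q1 ndF0q2 pcF3 cut_A00pp_123_s3 xt_A00pp_123_s3 :=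
  certFK0 (fam := true) (s1 := true) (s2 := true) (a := 1) (b := 2) (c := 3) (cn := .npn) (n1 := ndF0q1) (n2 := ndF0q2) (pc := pcF3) (cut := cut_A00pp_123_s3) (xt := xt_A00pp_123_s3) (P1 := 536870912) (W1 := 536870912) (P2 := 0) (W2 := 536870912) (P3 := 134217728) (W3 := 67108864)
    rfl rfl rfl k0_A00pp_123_s3

theorem s_A00pp_123_s3 {κ x : ℝ} (hκ : κ * h0 = ken x) (hx : ((134217728 : ℕ) : ℝ) / S ≤ x)
    (hx' : x ≤ (((134217728 : ℕ) : ℝ) + (67108864 : ℕ)) / S) :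
    AltA (VF κ) PP tKF tL pcF [⟨4, 0, 0, 2845415833⟩] 1 2 3 0 0 (sgb true) (sgb true) x :=
  strip_altA (m := 2845415833) false rfl hκ covF01 covF02 hx hx' c_A00pp_123_s3 cutA_nil ((okx hx hx').extA (T := tt) (sideF hx hx') hκ rfl rfl (.O 1 true) (.O 2 true) (Or.inr rfl))

noncomputable def cut_A00pp_202_s1 : Cut := Cut.of [[⟨4, 0, 0, 1449551462⟩]]

noncomputable def f_A00pp_202_s1 : ℕ → ℕ → ℕ → ℕ → Bool := onCell 0 536870912 0 536870912 134217728 67108864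
    (rowFK 0 true true true .pp 2 0 2 (qsf 0 536870912 0 536870912 2) ndF0q2 ndF0q0 pcF2 cut_A00pp_202_s1 Ext.none)

def k0_A00pp_202_s1 : ∃ t, chk3 f_A00pp_202_s1 t 1 1 1 = true :=
  ⟨(l 5), by decide +kernel⟩

theorem c_A00pp_202_s1 : CertF 0 536870912 0 536870912 134217728 67108864 true true true .pp 2 0 2
    ndF0q2 ndF0q0 pcF2 cut_A00pp_202_s1 Ext.none :=
  certFK0 (fam := true) (s1 := true) (s2 := true) (a := 2) (b := 0) (c := 2) (cn := .pp) (n1 := ndF0q2) (n2 := ndF0q0) (pc := pcF2) (cut := cut_A00pp_202_s1) (xt := Ext.none) (P1 := 0) (W1 := 536870912) (P2 := 0) (W2 := 536870912) (P3 := 134217728) (W3 := 67108864)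
    rfl rfl rfl k0_A00pp_202_s1

theorem s_A00pp_202_s1 {κ x : ℝ} (hκ : κ * h0 = ken x) (hx : ((134217728 : ℕ) : ℝ) / S ≤ x)
    (hx' : x ≤ (((134217728 : ℕ) : ℝ) + (67108864 : ℕ)) / S) :
    AltA (VF κ) PP tKF tL pcF [⟨3, 0, 0, 1449551462⟩] 2 0 2 0 0 (sgb true) (sgb true) x :=
  strip_altA (m := 1449551462) true rfl hκ covF02 covF00 hx hx' c_A00pp_202_s1 cutA_nil (noExt_A)

noncomputable def cut_A00pp_202_s3 : Cut := Cut.of [[⟨3, 0, 0, 2845415833⟩]]

noncomputable def f_A00pp_202_s3 : ℕ → ℕ → ℕ → ℕ → Bool := onCell 0 536870912 0 536870912 134217728 67108864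
    (rowFK 0 true true true .pp 2 0 2 (qsf 0 536870912 0 536870912 2) ndF0q2 ndF0q0 pcF2 cut_A00pp_202_s3 Ext.none)

def k0_A00pp_202_s3 : ∃ t, chk3 f_A00pp_202_s3 t 1 1 1 = true :=
  ⟨(l 5), by decide +kernel⟩

theorem c_A00pp_202_s3 : CertF 0 536870912 0 536870912 134217728 67108864 true true true .pp 2 0 2
    ndF0q2 ndF0q0 pcF2 cut_A00pp_202_s3 Ext.none :=
  certFK0 (fam := true) (s1 := true) (s2 := true) (a := 2) (b := 0) (c := 2) (cn := .pp) (n1 := ndF0q2) (n2 := ndF0q0) (pc := pcF2) (cut := cut_A00pp_202_s3) (xt := Ext.none) (P1 := 0) (W1 := 536870912) (P2 := 0) (W2 := 536870912) (P3 := 134217728) (W3 := 67108864)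
    rfl rfl rfl k0_A00pp_202_s3

theorem s_A00pp_202_s3 {κ x : ℝ} (hκ : κ * h0 = ken x) (hx : ((134217728 : ℕ) : ℝ) / S ≤ x)
    (hx' : x ≤ (((134217728 : ℕ) : ℝ) + (67108864 : ℕ)) / S) :
    AltA (VF κ) PP tKF tL pcF [⟨4, 0, 0, 2845415833⟩] 2 0 2 0 0 (sgb true) (sgb true) x :=
  strip_altA (m := 2845415833) false rfl hκ covF02 covF00 hx hx' c_A00pp_202_s3 cutA_nil (noExt_A)

noncomputable def cut_A00pp_203_s1 : Cut := Cut.of [[⟨4, 0, 0, 1449551462⟩]]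

noncomputable def f_A00pp_203_s1 : ℕ → ℕ → ℕ → ℕ → Bool := onCell 0 536870912 0 536870912 134217728 67108864
    (rowFK 0 true true true .up 2 0 3 (qsf 0 536870912 0 536870912 3) ndF0q2 ndF0q0 pcF3 cut_A00pp_203_s1 Ext.none)

def k0_A00pp_203_s1 : ∃ t, chk3 f_A00pp_203_s1 t 1 1 1 = true :=
  ⟨(l 5), by decide +kernel⟩

theorem c_A00pp_203_s1 : CertF 0 536870912 0 536870912 134217728 67108864 true true true .up 2 0 3
    ndF0q2 ndF0q0 pcF3 cut_A00pp_203_s1 Ext.none :=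
  certFK0 (fam := true) (s1 := true) (s2 := true) (a := 2) (b := 0) (c := 3) (cn := .up) (n1 := ndF0q2) (n2 := ndF0q0) (pc := pcF3) (cut := cut_A00pp_203_s1) (xt := Ext.none) (P1 := 0) (W1 := 536870912) (P2 := 0) (W2 := 536870912) (P3 := 134217728) (W3 := 67108864)
    rfl rfl rfl k0_A00pp_203_s1

theorem s_A00pp_203_s1 {κ x : ℝ} (hκ : κ * h0 = ken x) (hx : ((134217728 : ℕ) : ℝ) / S ≤ x)
    (hx' : x ≤ (((134217728 : ℕ) : ℝ) + (67108864 : ℕ)) / S) :
    AltA (VF κ) PP tKF tL pcF [⟨3, 0, 0, 1449551462⟩] 2 0 3 0 0 (sgb true) (sgb true) x :=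
  strip_altA (m := 1449551462) true rfl hκ covF02 covF00 hx hx' c_A00pp_203_s1 cutA_nil (noExt_A)

noncomputable def cut_A00pp_203_s3 : Cut := Cut.of [[⟨3, 0, 0, 2845415833⟩]]

noncomputable def f_A00pp_203_s3 : ℕ → ℕ → ℕ → ℕ → Bool := onCell 0 536870912 0 536870912 134217728 67108864
    (rowFK 0 true true true .up 2 0 3 (qsf 0 536870912 0 536870912 3) ndF0q2 ndF0q0 pcF3 cut_A00pp_203_s3 Ext.none)

def k0_A00pp_203_s3 : ∃ t, chk3 f_A00pp_203_s3 t 1 1 1 = true :=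
  ⟨(l 5), by decide +kernel⟩

theorem c_A00pp_203_s3 : CertF 0 536870912 0 536870912 134217728 67108864 true true true .up 2 0 3
    ndF0q2 ndF0q0 pcF3 cut_A00pp_203_s3 Ext.none :=
  certFK0 (fam := true) (s1 := true) (s2 := true) (a := 2) (b := 0) (c := 3) (cn := .up) (n1 := ndF0q2) (n2 := ndF0q0) (pc := pcF3) (cut := cut_A00pp_203_s3) (xt := Ext.none) (P1 := 0) (W1 := 536870912) (P2 := 0) (W2 := 536870912) (P3 := 134217728) (W3 := 67108864)
    rfl rfl rfl k0_A00pp_203_s3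

theorem s_A00pp_203_s3 {κ x : ℝ} (hκ : κ * h0 = ken x) (hx : ((134217728 : ℕ) : ℝ) / S ≤ x)
    (hx' : x ≤ (((134217728 : ℕ) : ℝ) + (67108864 : ℕ)) / S) :
    AltA (VF κ) PP tKF tL pcF [⟨4, 0, 0, 2845415833⟩] 2 0 3 0 0 (sgb true) (sgb true) x :=
  strip_altA (m := 2845415833) false rfl hκ covF02 covF00 hx hx' c_A00pp_203_s3 cutA_nil (noExt_A)

noncomputable def cut_A00pp_213_s1 : Cut := Cut.of [[⟨4, 0, 0, 1449551462⟩]]

noncomputable def f_A00pp_213_s1 : ℕ → ℕ → ℕ → ℕ → Bool := onCell 0 536870912 536870912 536870912 134217728 67108864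
    (rowFK 0 true true true .pnn 2 1 3 (qsf 0 536870912 536870912 536870912 3) ndF0q2 ndF0q1 pcF3 cut_A00pp_213_s1 Ext.none)

def k0_A00pp_213_s1 : ∃ t, chk3 f_A00pp_213_s1 t 1 1 1 = true :=
  ⟨(l 6), by decide +kernel⟩

theorem c_A00pp_213_s1 : CertF 0 536870912 536870912 536870912 134217728 67108864 true true true .pnn 2 1 3
    ndF0q2 ndF0q1 pcF3 cut_A00pp_213_s1 Ext.none :=
  certFK0 (fam := true) (s1 := true) (s2 := true) (a := 2) (b := 1) (c := 3) (cn := .pnn) (n1 := ndF0q2) (n2 := ndF0q1) (pc := pcF3) (cut := cut_A00pp_213_s1) (xt := Ext.none) (P1 := 0) (W1 := 536870912) (P2 := 536870912) (W2 := 536870912) (P3 := 134217728) (W3 := 67108864)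
    rfl rfl rfl k0_A00pp_213_s1

theorem s_A00pp_213_s1 {κ x : ℝ} (hκ : κ * h0 = ken x) (hx : ((134217728 : ℕ) : ℝ) / S ≤ x)
    (hx' : x ≤ (((134217728 : ℕ) : ℝ) + (67108864 : ℕ)) / S) :
    AltA (VF κ) PP tKF tL pcF [⟨3, 0, 0, 1449551462⟩] 2 1 3 0 0 (sgb true) (sgb true) x :=
  strip_altA (m := 1449551462) true rfl hκ covF02 covF01 hx hx' c_A00pp_213_s1 cutA_nil (noExt_A)

noncomputable def cut_A00pp_213_s3 : Cut := Cut.of [[⟨3, 0, 0, 2845415833⟩]]

noncomputable def f_A00pp_213_s3 : ℕ → ℕ → ℕ → ℕ → Bool := onCell 0 536870912 536870912 536870912 134217728 67108864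
    (rowFK 0 true true true .pnn 2 1 3 (qsf 0 536870912 536870912 536870912 3) ndF0q2 ndF0q1 pcF3 cut_A00pp_213_s3 Ext.none)

def k0_A00pp_213_s3 : ∃ t, chk3 f_A00pp_213_s3 t 1 1 1 = true :=
  ⟨(a (l 5) (l 4)), by decide +kernel⟩

theorem c_A00pp_213_s3 : CertF 0 536870912 536870912 536870912 134217728 67108864 true true true .pnn 2 1 3
    ndF0q2 ndF0q1 pcF3 cut_A00pp_213_s3 Ext.none :=
  certFK0 (fam := true) (s1 := true) (s2 := true) (a := 2) (b := 1) (c := 3) (cn := .pnn) (n1 := ndF0q2) (n2 := ndF0q1) (pc := pcF3) (cut := cut_A00pp_213_s3) (xt := Ext.none) (P1 := 0) (W1 := 536870912) (P2 := 536870912) (W2 := 536870912) (P3 := 134217728) (W3 := 67108864)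
    rfl rfl rfl k0_A00pp_213_s3

theorem s_A00pp_213_s3 {κ x : ℝ} (hκ : κ * h0 = ken x) (hx : ((134217728 : ℕ) : ℝ) / S ≤ x)
    (hx' : x ≤ (((134217728 : ℕ) : ℝ) + (67108864 : ℕ)) / S) :
    AltA (VF κ) PP tKF tL pcF [⟨4, 0, 0, 2845415833⟩] 2 1 3 0 0 (sgb true) (sgb true) x :=
  strip_altA (m := 2845415833) false rfl hκ covF02 covF01 hx hx' c_A00pp_213_s3 cutA_nil (noExt_A)

noncomputable def cut_A00pm_001_s1 : Cut := Cut.of [[⟨4, 0, 0, 1449551462⟩]]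

noncomputable def f_A00pm_001_s1 : ℕ → ℕ → ℕ → ℕ → Bool := onCell 0 536870912 0 536870912 134217728 67108864
    (rowFK 0 true true false .up 0 0 1 (qsf 0 536870912 0 536870912 1) ndF0q0 ndF0q0 pcF1 cut_A00pm_001_s1 Ext.none)

def k0_A00pm_001_s1 : ∃ t, chk3 f_A00pm_001_s1 t 1 1 1 = true :=
  ⟨(l 3), by decide +kernel⟩

theorem c_A00pm_001_s1 : CertF 0 536870912 0 536870912 134217728 67108864 true true false .up 0 0 1
    ndF0q0 ndF0q0 pcF1 cut_A00pm_001_s1 Ext.none :=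
  certFK0 (fam := true) (s1 := true) (s2 := false) (a := 0) (b := 0) (c := 1) (cn := .up) (n1 := ndF0q0) (n2 := ndF0q0) (pc := pcF1) (cut := cut_A00pm_001_s1) (xt := Ext.none) (P1 := 0) (W1 := 536870912) (P2 := 0) (W2 := 536870912) (P3 := 134217728) (W3 := 67108864)
    rfl rfl rfl k0_A00pm_001_s1

theorem s_A00pm_001_s1 {κ x : ℝ} (hκ : κ * h0 = ken x) (hx : ((134217728 : ℕ) : ℝ) / S ≤ x)
    (hx' : x ≤ (((134217728 : ℕ) : ℝ) + (67108864 : ℕ)) / S) :
    AltA (VF κ) PP tKF tL pcF [⟨3, 0, 0, 1449551462⟩] 0 0 1 0 0 (sgb true) (sgb false) x :=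
  strip_altA (m := 1449551462) true rfl hκ covF00 covF00 hx hx' c_A00pm_001_s1 cutA_nil (noExt_A)

noncomputable def cut_A00pm_001_s3 : Cut := Cut.of [[⟨3, 0, 0, 2845415833⟩]]

noncomputable def f_A00pm_001_s3 : ℕ → ℕ → ℕ → ℕ → Bool := onCell 0 536870912 0 536870912 134217728 67108864
    (rowFK 0 true true false .up 0 0 1 (qsf 0 536870912 0 536870912 1) ndF0q0 ndF0q0 pcF1 cut_A00pm_001_s3 Ext.none)

def k0_A00pm_001_s3 : ∃ t, chk3 f_A00pm_001_s3 t 1 1 1 = true :=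
  ⟨(l 3), by decide +kernel⟩

theorem c_A00pm_001_s3 : CertF 0 536870912 0 536870912 134217728 67108864 true true false .up 0 0 1
    ndF0q0 ndF0q0 pcF1 cut_A00pm_001_s3 Ext.none :=
  certFK0 (fam := true) (s1 := true) (s2 := false) (a := 0) (b := 0) (c := 1) (cn := .up) (n1 := ndF0q0) (n2 := ndF0q0) (pc := pcF1) (cut := cut_A00pm_001_s3) (xt := Ext.none) (P1 := 0) (W1 := 536870912) (P2 := 0) (W2 := 536870912) (P3 := 134217728) (W3 := 67108864)
    rfl rfl rfl k0_A00pm_001_s3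

theorem s_A00pm_001_s3 {κ x : ℝ} (hκ : κ * h0 = ken x) (hx : ((134217728 : ℕ) : ℝ) / S ≤ x)
    (hx' : x ≤ (((134217728 : ℕ) : ℝ) + (67108864 : ℕ)) / S) :
    AltA (VF κ) PP tKF tL pcF [⟨4, 0, 0, 2845415833⟩] 0 0 1 0 0 (sgb true) (sgb false) x :=
  strip_altA (m := 2845415833) false rfl hκ covF00 covF00 hx hx' c_A00pm_001_s3 cutA_nil (noExt_A)

noncomputable def cut_A00pm_011_s1 : Cut := Cut.of [[⟨4, 0, 0, 1449551462⟩], [⟨0, 0, 0, 67108864⟩, ⟨1, 1, 0, 67108864⟩, ⟨2, 1, 0, 67108864⟩]]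

noncomputable def f_A00pm_011_s1 : ℕ → ℕ → ℕ → ℕ → Bool := onCell 536870912 536870912 536870912 536870912 134217728 67108864
    (rowFK 2 true true false .pnn 0 1 1 (qsf 0 536870912 536870912 536870912 1) ndF0q0 ndF0q1 pcF1 cut_A00pm_011_s1 Ext.none)

def k0_A00pm_011_s1 : ∃ t, chk3 f_A00pm_011_s1 t 1 1 1 = true :=
  ⟨(a (l 3) (b (l 3) (a (l 3) (b (l 3) (a (l 3) (b (l 3) (a (l 3) (b (l 3) (l 14))))))))), by decide +kernel⟩

theorem c_A00pm_011_s1 : CertF 0 536870912 536870912 536870912 134217728 67108864 true true false .pnn 0 1 1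
    ndF0q0 ndF0q1 pcF1 cut_A00pm_011_s1 Ext.none :=
  certFK2 (fam := true) (s1 := true) (s2 := false) (a := 0) (b := 1) (c := 1) (cn := .pnn) (n1 := ndF0q0) (n2 := ndF0q1) (pc := pcF1) (cut := cut_A00pm_011_s1) (xt := Ext.none) (P1 := 0) (W1 := 536870912) (P2 := 536870912) (W2 := 536870912) (P3 := 134217728) (W3 := 67108864)
    rfl rfl rfl (fun _ => rfl) k0_A00pm_011_s1

theorem s_A00pm_011_s1 {κ x : ℝ} (hκ : κ * h0 = ken x) (hx : ((134217728 : ℕ) : ℝ) / S ≤ x)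
    (hx' : x ≤ (((134217728 : ℕ) : ℝ) + (67108864 : ℕ)) / S)
    (H : CutA (VF κ) PP tKF tL pcF (Cut.of [[⟨0, 0, 0, 67108864⟩, ⟨1, 1, 0, 67108864⟩, ⟨2, 1, 0, 67108864⟩]]) 0 1 1 0 0 (sgb true) (sgb false) x) :
    AltA (VF κ) PP tKF tL pcF [⟨3, 0, 0, 1449551462⟩] 0 1 1 0 0 (sgb true) (sgb false) x :=
  strip_altA (m := 1449551462) true rfl hκ covF00 covF01 hx hx' c_A00pm_011_s1 H (noExt_A)

noncomputable def cut_A00pm_011_s3 : Cut := Cut.of [[⟨3, 0, 0, 2845415833⟩], [⟨0, 0, 0, 67108864⟩, ⟨1, 1, 0, 67108864⟩, ⟨2, 1, 0, 67108864⟩]]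

noncomputable def f_A00pm_011_s3 : ℕ → ℕ → ℕ → ℕ → Bool := onCell 0 536870912 536870912 536870912 134217728 67108864
    (rowFK 0 true true false .pnn 0 1 1 (qsf 0 536870912 536870912 536870912 1) ndF0q0 ndF0q1 pcF1 cut_A00pm_011_s3 Ext.none)

def k0_A00pm_011_s3 : ∃ t, chk3 f_A00pm_011_s3 t 1 1 1 = true :=
  ⟨(l 6), by decide +kernel⟩

theorem c_A00pm_011_s3 : CertF 0 536870912 536870912 536870912 134217728 67108864 true true false .pnn 0 1 1
    ndF0q0 ndF0q1 pcF1 cut_A00pm_011_s3 Ext.none :=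
  certFK0 (fam := true) (s1 := true) (s2 := false) (a := 0) (b := 1) (c := 1) (cn := .pnn) (n1 := ndF0q0) (n2 := ndF0q1) (pc := pcF1) (cut := cut_A00pm_011_s3) (xt := Ext.none) (P1 := 0) (W1 := 536870912) (P2 := 536870912) (W2 := 536870912) (P3 := 134217728) (W3 := 67108864)
    rfl rfl rfl k0_A00pm_011_s3

theorem s_A00pm_011_s3 {κ x : ℝ} (hκ : κ * h0 = ken x) (hx : ((134217728 : ℕ) : ℝ) / S ≤ x)
    (hx' : x ≤ (((134217728 : ℕ) : ℝ) + (67108864 : ℕ)) / S)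
    (H : CutA (VF κ) PP tKF tL pcF (Cut.of [[⟨0, 0, 0, 67108864⟩, ⟨1, 1, 0, 67108864⟩, ⟨2, 1, 0, 67108864⟩]]) 0 1 1 0 0 (sgb true) (sgb false) x) :
    AltA (VF κ) PP tKF tL pcF [⟨4, 0, 0, 2845415833⟩] 0 1 1 0 0 (sgb true) (sgb false) x :=
  strip_altA (m := 2845415833) false rfl hκ covF00 covF01 hx hx' c_A00pm_011_s3 H (noExt_A)

end Pool.Agent.Strip051.G.I1_8_3_16.Tab.St.C
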