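import Pool.Agent.Strip051.G.I1_8_3_16.StF

/-! # Unit strips 1 (generated) -/

set_option linter.all false
set_option maxRecDepth 100000

namespace Pool.Agent.Strip051.G.I1_8_3_16.Tab.St.C

open Pool.Agent.Strip051.PB Pool.Agent.Strip051.PB.T Pool.Agent.StripNear Pool.Agent.Strip051.LC
open Pool.Agent.Strip051.G.I1_8_3_16.Tab Pool.Agent.Strip051.G.I1_8_3_16.Tab.St

noncomputable def cut_A00pm_012_s1 : Cut := Cut.of [[⟨4, 0, 0, 1449551462⟩], [⟨0, 0, 0, 53687091⟩, ⟨1, 1, 0, 53687091⟩, ⟨2, 1, 0, 53687091⟩], [⟨0, 0, 1, 41943040⟩, ⟨1, 1, 0, 16777216⟩, ⟨2, 1, 1, 41943040⟩]]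

noncomputable def xt_A00pm_012_s1 : Ext := strExt dd true true false .u0 .u0m .u2 .pnp 0 1 2 rfl rfl gf2 vv ndF0q0 ndF0q1

noncomputable def f_A00pm_012_s1 : ℕ → ℕ → ℕ → ℕ → Bool := onCell 1073741824 536870912 536870912 536870912 134217728 67108864
    (rowFK 2 true true false .pnp 0 1 2 (qsf 0 536870912 536870912 536870912 2) ndF0q0 ndF0q1 pcF2 cut_A00pm_012_s1 xt_A00pm_012_s1)

def k0_A00pm_012_s1 : ∃ t, chk3 f_A00pm_012_s1 t 4 2 1 = true :=
  ⟨(b (l 3) (l 3)), by decide +kernel⟩

def k1_A00pm_012_s1 : ∃ t, chk3 f_A00pm_012_s1 t 5 4 1 = true :=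
  ⟨(a (a (a (l 3) (l 2)) (l 2)) (l 2)), by decide +kernel⟩

def k2_A00pm_012_s1 : ∃ t, chk3 f_A00pm_012_s1 t 20 10 1 = true :=
  ⟨(a (l 3) (b (a (l 3) (b (l 2) (a (a (l 3) (a (l 545259647) (l 545072511))) (b (l 2) (a (a (a (l 545076095) (l 545041791)) (l 16782896)) (l 16786192)))))) (a (a (l 3) (b (l 3) (a (l 3) (b (l 546680079) (l 546774399))))) (a (a (b (a (a (l 3) (l 546157439)) (l 546005631)) (b (a (c (l 547066751) (l 546003327)) (c (l 546879871) (l 545832063))) (a (l 546651263) (l 546795135)))) (b (a (l 545796991) (l 545584511)) (a (b (l 546183039) (l 546363007)) (b (l 545977727) (l 546175871))))) (b (b (a (a (l 545270143) (l 16784768)) (l 16788072)) (a (a (l 545516159) (l 16786928)) (l 16790256))) (a (a (a (l 545938047) (l 545850751)) (a (l 545782655) (l 16791320))) (l 16791480))))))), by decide +kernel⟩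

def k3_A00pm_012_s1 : ∃ t, chk3 f_A00pm_012_s1 t 20 11 1 = true :=
  ⟨(a (a (l 3) (b (l 3) (a (b (l 3) (a (l 3) (b (l 3) (l 547792255)))) (c (b (l 548352639) (l 548475007)) (b (l 546882175) (l 546851967)))))) (a (b (b (a (l 3) (a (c (l 547619199) (l 546447487)) (c (l 547477631) (a (l 546346879) (l 546279295))))) (a (a (a (l 3) (l 547434367)) (l 547349375)) (a (c (l 547833983) (l 546567551)) (a (l 547129215) (l 547064191))))) (a (a (b (c (l 548222847) (l 546794111)) (l 547588223)) (b (b (l 547435535) (l 547476607)) (l 546980223))) (a (b (b (l 547327871) (l 547373951)) (c (l 548167295) (l 546645119))) (a (b (l 547268991) (l 547360383)) (b (l 547221631) (l 547310975)))))) (b (a (a (b (a (b (l 546755967) (l 546854271)) (b (l 546650751) (l 546760831))) (a (l 546997119) (l 546915967))) (a (b (c (l 547122559) (l 545990271)) (l 546811519)) (b (b (l 546341503) (l 16791424)) (b (l 16797632) (l 16801512))))) (b (a (a (a (l 546287231) (l 546207615)) (a (l 546140287) (l 16797384))) (l 16794928)) (a (a (b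 (l 16799872) (l 16803768)) (l 16798800)) (l 16807416)))) (a (a (b (a (l 547161727) (l 547092607)) (a (l 547259775) (l 547202175))) (a (b (l 547007359) (l 547133311)) (b (l 546907519) (l 547053183)))) (b (a (a (b (l 16807944) (l 16812384)) (l 16812408)) (l 16815808)) (a (a (b (l 16817096) (l 16822096)) (l 16821864)) (l 16825304))))))), by decide +kernel⟩

def k4_A00pm_012_s1 : ∃ t, chk3 f_A00pm_012_s1 t 21 5 1 = true :=
  ⟨(b (b (a (a (b (l 2) (b (l 2) (l 16786520))) (l 2)) (l 2)) (b (a (a (a (l 16790528) (l 16804504)) (l 16817280)) (l 16842208)) (a (a (a (l 16800792) (l 16809656)) (l 16822808)) (l 16848008)))) (b (a (a (a (b (l 16796400) (l 16814176)) (b (l 16815864) (l 16823176))) (b (l 16829152) (l 16836576))) (a (l 16850368) (l 16825392))) (b (a (a (a (l 16822632) (l 16831704)) (l 16845232)) (l 16871672)) (a (b (l 16822400) (l 16817048)) (l 16881704))))), by decide +kernel⟩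

def k5_A00pm_012_s1 : ∃ t, chk3 f_A00pm_012_s1 t 11 5 1 = true :=
  ⟨(a (b (a (b (l 2) (l 16876864)) (l 2)) (a (b (l 16849496) (l 16868600)) (b (l 16921976) (l 16942032)))) (c (a (c (b (l 2) (l 16968400)) (a (b (l 2) (l 16955872)) (b (l 2) (l 16969896)))) (b (l 2) (l 16992120))) (a (c (a (a (b (l 2) (l 16946728)) (b (l 2) (l 16953568))) (b (l 2) (l 16964144))) (a (a (c (b (l 2) (l 16942400)) (b (l 2) (l 16939480))) (b (l 2) (l 16947720))) (b (l 2) (l 16958288)))) (b (l 2) (l 16980496))))), by decide +kernel⟩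

def k6_A00pm_012_s1 : ∃ t, chk3 f_A00pm_012_s1 t 4 6 1 = true :=
  ⟨(b (b (l 3) (a (l 3) (b (a (l 3) (a (l 3) (a (l 3) (a (l 3) (l 547846783))))) (a (l 3) (a (l 3) (a (a (l 3) (b (l 3) (l 546591247))) (a (c (l 549139983) (b (l 546333055) (l 546173055))) (b (l 547746431) (l 547666815))))))))) (a (l 3) (a (b (l 3) (b (l 3) (a (l 3) (a (l 3) (b (l 3) (a (l 3) (c (l 547269759) (l 541367935)))))))) (a (b (a (l 3) (b (l 3) (a (l 546829439) (l 546937471)))) (c (a (b (a (a (l 3) (l 548336767)) (l 548416383)) (a (b (a (b (l 3) (l 547729279)) (l 547902991)) (a (l 547437327) (a (l 547515407) (l 547565327)))) (b (l 547479311) (b (l 547502607) (l 547589503))))) (b (l 548546687) (b (l 548207487) (a (l 547848975) (l 547991935))))) (a (b (a (a (l 3) (l 543485455)) (l 543701631)) (a (a (b (b (l 3) (l 542257023)) (l 541711631)) (b (c (l 544216959) (l 541275151)) (c (l 543343119) (l 540507919)))) (c (b (l 544177535) (l 543609871)) (b (l 541579023) (l 540856335))))) (b (l 544091519) (b (l 543363967) (a (l 542615567)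 (l 542961791))))))) (b (a (c (b (a (l 549091599) (l 549080959)) (a (l 548904831) (l 548647295))) (b (a (l 545670671) (l 544975487)) (a (l 545117455) (l 545264143)))) (b (a (b (l 547555855) (l 547151375)) (a (l 547501839) (l 547508095))) (a (b (l 547259151) (l 547081999)) (b (l 547300479) (l 547139087))))) (a (b (a (l 545472783) (a (l 546637951) (l 546425727))) (b (a (l 545545343) (l 545303935)) (a (c (l 548112511) (l 543276927)) (c (l 548213631) (l 543564159))))) (b (a (b (l 546880015) (l 546649359)) (b (l 546955791) (l 546746639))) (a (b (l 546116367) (l 545541647)) (b (l 546506511) (l 545960463)))))))))), by decide +kernel⟩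

def k7_A00pm_012_s1 : ∃ t, chk3 f_A00pm_012_s1 t 8 14 1 = true :=
  ⟨(b (l 3) (a (l 3) (a (l 3) (b (l 3) (a (a (l 3) (b (l 3) (b (l 3) (c (a (l 535716479) (l 535748479)) (a (l 535268991) (l 535288447)))))) (c (a (a (b (l 3) (l 535800703)) (b (l 535935359) (l 535832447))) (b (c (l 536119935) (l 535847807)) (c (l 536011903) (l 535748735)))) (a (b (a (l 3) (b (l 3) (l 535410047))) (a (b (l 535348607) (l 535307647)) (b (l 535367551) (l 535326591)))) (b (a (b (l 3) (l 535429503)) (b (l 535502975) (l 535459199))) (a (l 535362687) (l 535392383)))))))))), by decide +kernel⟩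

def k8_A00pm_012_s1 : ∃ t, chk3 f_A00pm_012_s1 t 36 14 1 = true :=
  ⟨(b (a (l 3) (b (l 3) (b (a (l 3) (a (l 3) (c (l 541937535) (l 536382223)))) (a (a (l 3) (b (l 3) (c (l 540859151) (l 535929727)))) (c (c (l 544445567) (l 538997631)) (c (l 536413823) (l 535831423))))))) (a (c (b (b (a (l 3) (a (c (l 540756239) (c (l 536766735) (l 536125967))) (l 537435663))) (a (c (l 537924735) (l 536029823)) (c (c (l 540799247) (l 537732367)) (a (l 536091663) (l 536129551))))) (a (b (c (l 536207487) (l 535925631)) (l 535961359)) (b (c (l 536782351) (l 536270863)) (a (l 536025727) (l 536065663))))) (a (b (b (l 3) (a (b (l 3) (l 535581055)) (a (l 535492623) (l 535642639)))) (b (a (l 535510543) (l 535542399)) (a (l 535424895) (l 535456639)))) (b (b (b (l 3) (a (c (l 535881743) (b (l 3) (l 535588367))) (l 535769727))) (b (a (c (l 535831679) (l 535553295)) (c (l 535864447) (l 535581711))) (a (l 535644175) (l 535674895)))) (b (a (l 535573775) (l 535604495)) (a (l 535487871) (l 535518591)))))) (c (b (b (a (c (l 542258959)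 (l 536410895)) (c (l 543127167) (b (l 538544255) (l 537605759)))) (a (b (c (l 540943999) (l 536211327)) (a (l 536638847) (l 537314687))) (c (l 541523471) (l 536251919)))) (a (b (c (l 538253327) (l 536077071)) (l 536120847)) (b (c (l 539560463) (l 536148095)) (l 536197647)))) (b (b (a (a (l 535755391) (l 536118031)) (a (l 535873807) (l 535898127))) (a (b (a (l 535751951) (l 535781503)) (a (l 535704959) (l 535734655))) (b (l 536087823) (l 535773967)))) (a (b (a (l 535634703) (l 535664655)) (a (l 535548799) (l 535578751))) (b (a (l 535693183) (l 535721087)) (l 535887375))))))), by decide +kernel⟩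

def k9_A00pm_012_s1 : ∃ t, chk3 f_A00pm_012_s1 t 37 14 1 = true :=
  ⟨(b (c (a (b (b (l 3) (a (a (l 3) (l 545074303)) (l 544610831))) (a (c (l 543983631) (b (l 541957247) (l 540658815))) (c (l 545299071) (b (l 542605183) (l 541430911))))) (b (a (c (l 547849855) (l 544216959)) (c (l 548112767) (l 544891007))) (a (b (l 544521487) (l 543064591)) (c (l 546957183) (l 542185231))))) (a (b (b (l 3) (a (c (l 539224191) (l 536094335)) (c (l 539934847) (l 536252287)))) (a (c (b (l 537842559) (l 536217727)) (b (l 535980927) (l 535874431))) (c (b (l 538674559) (l 537195903)) (l 536233487)))) (b (a (b (l 540994687) (l 539089679)) (b (l 540493695) (l 540289919))) (a (c (b (l 539432319) (l 538085759)) (l 536279679)) (b (l 538315535) (l 537760527)))))) (b (a (b (c (a (c (l 543900543) (l 539110271)) (c (l 544589439) (l 540033663))) (a (c (l 536090751) (l 535776639)) (l 536252175))) (a (c (b (l 538963471) (l 539403535)) (c (l 535998591) (l 535693183))) (c (c (l 543312511) (l 538364287)) (c (l 536054143) (l 535740031)))))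 (c (b (a (c (l 545202047) (l 540865407)) (l 542341903)) (a (c (l 544062335) (l 539361407)) (c (l 544729215) (l 540259455)))) (b (a (l 536305423) (l 536362255)) (a (c (l 536111999) (l 535789183)) (l 536006927))))) (c (a (b (a (a (l 537557887) (l 538184319)) (c (l 541756287) (l 536358271))) (a (l 536272399) (l 536627983))) (a (b (c (l 542675839) (l 537559167)) (l 537920015)) (b (b (l 16791120) (l 16787648)) (l 538269199)))) (a (b (a (a (l 535748223) (l 535775359)) (l 536081935)) (a (l 535675919) (b (l 16772120) (l 16768440)))) (a (b (l 535869455) (b (l 16768848) (l 16767800))) (b (l 535928335) (b (l 16768328) (l 16767296)))))))), by decide +kernel⟩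

def k10_A00pm_012_s1 : ∃ t, chk3 f_A00pm_012_s1 t 19 28 1 = true :=
  ⟨(a (c (a (b (a (a (b (l 546983807) (l 546444671)) (a (l 546834703) (l 546902287))) (b (b (l 547390847) (l 547174159)) (l 546008335))) (a (a (l 543830799) (c (l 547390079) (l 543896959))) (b (l 545982735) (l 544775951)))) (b (a (b (l 547492991) (l 547068799)) (b (l 547672703) (l 547292543))) (a (b (l 546563711) (l 545693199)) (b (l 16827088) (l 16833992))))) (b (b (a (a (a (l 540890751) (l 541141263)) (c (l 542955535) (l 540031247))) (a (l 541935487) (l 542336127))) (a (a (a (l 539944575) (l 540234623)) (b (l 540870159) (l 540413967))) (c (l 542853135) (l 539924495)))) (b (a (a (a (l 538849919) (l 539187071)) (l 539665167)) (a (l 540255247) (l 540795263))) (a (a (a (l 537578623) (l 537971327)) (l 539132175)) (a (b (l 16795424) (l 16792728)) (l 539844367)))))) (c (b (a (a (b (l 547827839) (l 16830776)) (b (l 16844128) (l 16863832))) (a (b (l 16866728) (l 16876064)) (b (l 16878912) (l 16888392)))) (a (a (b (l 16860080) (l 16867248))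 (l 546554639)) (a (l 546492687) (b (l 16897312) (l 16905432))))) (b (a (a (b (l 542701951) (l 542044031)) (b (l 543035775) (l 16821880))) (a (b (l 16828920) (l 16830712)) (b (l 16837976) (l 16839976)))) (b (a (c (l 542951439) (l 541422863)) (a (l 16830776) (l 16840352))) (a (a (l 16810064) (l 16819056)) (a (l 16828616) (l 16838640))))))), by decide +kernel⟩

def k11_A00pm_012_s1 : ∃ t, chk3 f_A00pm_012_s1 t 38 29 1 = true :=
  ⟨(a (b (c (a (b (c (l 546229119) (l 542290703)) (b (l 16804776) (l 16804304))) (b (l 543170831) (b (l 16837368) (l 16837232)))) (a (b (c (l 538322703) (l 535981695)) (b (l 536092175) (l 16770696))) (b (b (l 16792584) (l 16777000)) (b (l 16771304) (l 16770496))))) (a (c (b (b (l 16802680) (l 16820696)) (b (l 16816184) (a (l 16806360) (l 16813336)))) (b (b (l 16769840) (l 16768936)) (b (l 16767976) (c (l 16768416) (l 16765080))))) (c (b (b (l 16836040) (l 16833616)) (b (l 16808744) (l 16803160))) (b (c (l 16770904) (l 16767552)) (b (l 16767568) (l 16766512)))))) (c (b (a (b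 (l 544170255) (c (l 16868448) (l 16831168))) (b (l 16839120) (l 16820840))) (b (a (b (l 16849088) (l 16805232)) (b (l 16862648) (l 16861264))) (b (a (l 16801984) (l 16858512)) (a (l 16838936) (l 16812344))))) (a (b (c (b (l 16807392) (l 16804048)) (b (l 16771400) (l 16769248))) (b (b (l 16769688) (l 16768568)) (b (l 16767536) (l 16765568)))) (b (b (l 538742799) (a (l 16781232) (l 16785912))) (b (b (l 16771256) (l 16768688)) (b (l 16766712) (l 16764832))))))), by decide +kernel⟩

def k12_A00pm_012_s1 : ∃ t, chk3 f_A00pm_012_s1 t 39 29 1 = true :=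
  ⟨(c (b (a (a (b (l 16872792) (b (l 16875528) (l 16876488))) (b (l 16885784) (b (l 16888968) (l 16890296)))) (b (a (l 16857056) (l 16912360)) (a (l 16903560) (l 16917560)))) (a (b (a (b (l 16876600) (l 16875648)) (l 16848760)) (b (a (l 16873512) (l 16888808)) (a (l 16828064) (l 16802112)))) (b (b (l 16828608) (l 16828888)) (b (l 16828200) (c (l 16942312) (l 16836200)))))) (b (a (a (b (l 539414287) (b (l 16796384) (l 16789848))) (b (l 16813400) (b (l 16806584) (l 16800528)))) (b (a (b (l 16825152) (l 16821768)) (l 16834192)) (b (l 16822776) (l 16817288)))) (b (a (a (b (l 16781856) (l 16771920)) (a (l 16806568) (l 16791456))) (b (l 16810544) (a (l 16796032) (l 16808840)))) (b (a (a (l 16766080) (l 16772696)) (a (l 16785848) (l 16799440))) (a (a (l 16764144) (l 16763512)) (a (l 16773760) (l 16788272))))))), by decide +kernel⟩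

def k13_A00pm_012_s1 : ∃ t, chk3 f_A00pm_012_s1 t 16 30 1 = true :=
  ⟨(b (l 3) (a (l 3) (a (l 3) (b (l 3) (a (l 3) (c (b (l 3) (a (b (l 3) (a (l 3) (a (l 534935167) (l 535076111)))) (b (a (a (l 3) (l 534973711)) (a (l 534985343) (l 534997631))) (a (a (b (a (l 534952463) (l 534956047)) (l 534945295)) (b (c (l 535023375) (l 534900239)) (l 535087119))) (b (l 534978687) (a (l 534964495) (l 534976639))))))) (b (l 3) (a (b (l 3) (a (l 3) (a (l 534702719) (l 534840847)))) (b (a (a (l 3) (b (l 3) (l 534726527))) (b (a (l 3) (l 534751103)) (l 534739071))) (a (a (b (c (l 534774031) (l 534656527)) (l 534708495)) (b (c (l 534779407) (l 534660879)) (c (l 534772495) (l 534654735)))) (b (l 534732671) (c (l 534786063) (l 534666511))))))))))))), by decide +kernel⟩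

def k14_A00pm_012_s1 : ∃ t, chk3 f_A00pm_012_s1 t 34 60 1 = true :=
  ⟨(a (l 3) (c (b (l 3) (b (a (l 3) (a (a (l 3) (l 535455359)) (c (l 535578239) (l 535379839)))) (a (a (l 3) (a (b (l 3) (l 535351823)) (c (l 535469695) (l 535287423)))) (a (c (l 535495295) (l 535307903)) (l 535366783))))) (b (l 3) (a (a (l 3) (b (l 3) (a (b (l 3) (l 535275279)) (b (l 535303295) (l 535017599))))) (a (b (a (l 3) (l 535349007)) (a (l 535303439) (l 535045503))) (b (a (l 535091071) (l 535101311)) (l 535327503))))))), by decide +kernel⟩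

def k15_A00pm_012_s1 : ∃ t, chk3 f_A00pm_012_s1 t 68 61 1 = true :=
  ⟨(b (c (b (a (l 3) (a (l 3) (b (l 3) (a (b (l 3) (l 535232271)) (a (l 535251983) (l 535262079)))))) (a (a (l 3) (a (l 3) (b (l 3) (l 535136015)))) (a (b (a (l 3) (l 535197055)) (a (l 535157631) (l 535178623))) (a (b (l 535217791) (l 535199103)) (b (l 535237647) (l 535219071)))))) (a (b (l 3) (a (l 3) (b (l 3) (a (l 3) (b (l 3) (l 534847871)))))) (b (a (l 3) (b (l 3) (a (b (l 3) (l 534854159)) (b (l 534942479) (l 534935567))))) (a (b (a (l 3) (l 534828047)) (a (l 534866191) (l 534881407))) (a (b (l 534910079) (l 534895999)) (b (l 534924303) (l 534910335))))))) (c (a (a (b (b (l 3) (a (a (l 3) (l 535038847)) (l 535055231))) (b (a (l 535047807) (l 535037567)) (a (l 534996607) (l 535019647)))) (b (b (a (l 535028607) (l 535117951)) (a (l 535077759) (l 535099775))) (b (a (l 535059839) (l 535081855)) (l 535184399)))) (a (b (a (b (l 535139455) (l 535121279)) (l 535148047)) (b (l 535110783) (l 535092607))) (b (a (l 535168639) (l 535188607))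 (a (l 535131263) (l 535150975))))) (a (a (b (b (l 3) (a (b (l 3) (l 534770447)) (a (l 534786687) (l 534795391)))) (b (a (a (l 534755967) (l 534764671)) (l 534776703)) (a (l 534746239) (l 534763391)))) (b (b (a (a (l 534817151) (l 534825343)) (l 534836863)) (a (l 534806911) (l 534823039))) (b (a (l 534793343) (l 534809471)) (l 534953231)))) (a (b (b (a (l 534852479) (l 534867583)) (a (l 534838655) (l 534853759))) (a (l 535083279) (l 535098239))) (b (a (l 535006591) (l 534886415)) (a (l 534844287) (l 534858367))))))), by decide +kernel⟩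

def k16_A00pm_012_s1 : ∃ t, chk3 f_A00pm_012_s1 t 69 61 1 = true :=
  ⟨(b (a (c (a (b (a (a (b (l 3) (l 535272063)) (b (c (l 535386639) (b (l 3) (l 535212303))) (c (l 535366415) (l 535198991)))) (b (c (l 535400463) (l 535227919)) (c (l 535378959) (b (l 535214351) (l 535206415))))) (a (b (l 535123215) (l 535238783)) (b (b (l 535281423) (l 535272319)) (l 535257471)))) (b (b (a (l 535330687) (l 535347839)) (a (b (l 535316351) (l 535307279)) (l 535327615))) (b (a (l 535293455) (l 535309951)) (l 535281935)))) (a (b (a (a (b (l 3) (l 534949503)) (b (b (l 3) (c (l 535047951) (l 534888463))) (c (a (l 535034127) (l 535038223)) (l 534878479)))) (b (c (l 535060751) (l 534898447)) (c (b (l 535048719) (l 535042063)) (b (l 534888207) (l 534882575))))) (a (b (a (l 534935423) (l 534941967)) (l 534923903)) (b (c (l 535030287) (l 534872591)) (l 534936959)))) (b (b (a (l 535258495) (l 535000703)) (a (c (l 535056655) (l 534893583)) (l 534985087))) (b (a (l 534962191) (l 534972431)) (a (l 535217023) (l 534959487))))))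 (c (b (a (a (l 535352191) (l 535368831)) (l 535391359)) (a (b (l 535332479) (l 535314703)) (l 535352335))) (b (a (a (l 535270015) (l 535011967)) (l 535293823)) (a (b (l 534985743) (l 534973199)) (l 534996239))))) (a (a (b (a (c (l 535207807) (l 534900239)) (c (l 535226751) (l 534913295))) (a (c (l 535170431) (l 534871935)) (c (l 535189119) (l 534884991)))) (b (c (b (l 535263503) (l 535244671)) (a (l 534925327) (l 534936847))) (c (a (l 535207039) (l 535224703)) (a (l 534897279) (l 534909055))))) (b (a (c (b (l 535296895) (l 535278719)) (b (l 534960255) (l 534946687))) (c (l 535317007) (l 534970895))) (a (c (b (l 535260031) (l 535241599)) (l 534923023)) (c (b (l 535292799) (l 535542911)) (l 535212815)))))), by decide +kernel⟩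

def k17_A00pm_012_s1 : ∃ t, chk3 f_A00pm_012_s1 t 35 60 1 = true :=
  ⟨(a (c (b (b (a (a (l 3) (l 535636095)) (a (l 535668095) (l 535699839))) (a (a (l 535556735) (l 535588991)) (l 535632143))) (a (a (b (l 535510911) (l 535466367)) (b (l 535543167) (l 535498367))) (a (l 535546383) (l 535577983)))) (a (b (a (b (l 3) (l 535285775)) (b (l 535209855) (l 535171455))) (a (b (l 535114623) (l 535079295)) (b (l 535134591) (l 535099007)))) (b (a (b (l 535229311) (l 535190911)) (b (l 535248767) (l 535210367))) (b (l 535427599) (l 535391615))))) (c (b (a (a (l 535702655) (l 535734143)) (a (l 535765631) (l 535804543))) (a (b (l 535648383) (l 535603071)) (b (l 535714943) (l 535803519)))) (a (b (a (l 535378047) (l 535263103)) (a (l 535169407) (l 535188863))) (b (a (l 535283071) (l 535312511)) (b (l 535241855) (l 535475215)))))), by decide +kernel⟩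

def k18_A00pm_012_s1 : ∃ t, chk3 f_A00pm_012_s1 t 70 61 1 = true :=
  ⟨(b (a (b (a (c (l 535423359) (l 535045247)) (l 535525135)) (a (c (l 535383935) (l 535015807)) (c (l 535415167) (l 535035263)))) (b (a (l 535550479) (l 535575311)) (a (c (l 535446143) (l 535054207)) (c (l 535476863) (l 535073407))))) (c (a (b (a (l 535347983) (l 535646991)) (a (b (l 535324287) (l 535305999)) (b (l 535623039) (l 535605263)))) (a (b (l 535677455) (b (l 535384591) (a (l 535361151) (l 535644287)))) (a (b (l 535433599) (b (l 16769032) (l 535592063))) (b (l 535448447) (b (l 535423103) (a (l 535402111) (b (l 16768168) (l 16767800)))))))) (a (b (a (l 535258495) (l 535008895)) (a (b (l 16769184) (l 534960767)) (b (l 534992767) (l 535248511)))) (a (b (l 535295871) (b (l 535011199) (l 535267087))) (b (l 535314447) (b (l 535297663) (a (l 535013759) (b (l 16765872) (l 16765440))))))))), by decide +kernel⟩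

def k19_A00pm_012_s1 : ∃ t, chk3 f_A00pm_012_s1 t 142 61 1 = true :=
  ⟨(b (b (a (l 535667471) (c (l 535579263) (l 535142271))) (a (c (l 535507327) (l 535092351)) (c (l 535672191) (l 535379839)))) (a (c (c (b (l 535709311) (b (l 535547775) (b (a (l 16768616) (l 16768344)) (a (b (l 16768328) (l 16768200)) (l 16768064))))) (b (l 535499391) (b (l 535342207) (b (a (l 16767320) (b (l 16767120) (l 16766904))) (a (b (l 16767016) (l 16766872)) (l 16766688)))))) (b (b (l 535073663) (l 535328895)) (b (b (l 16766096) (l 535313679)) (b (a (l 16765472) (c (l 16765672) (l 16764408))) (a (c (b (l 16765744) (l 16765592)) (l 16764432)) (c (l 16765352) (l 16764072))))))) (c (b (b (l 535510911) (b (l 16768696) (l 16768360))) (b (a (b (l 16768144) (l 16767784)) (b (l 16767896) (b (l 16767608) (a (l 16767520) (l 16767408))))) (b (a (a (b (l 16767576) (l 16767432)) (l 16767408)) (l 16767160)) (c (l 16767640) (l 16766176))))) (b (b (l 535092351) (b (l 16766120) (l 16765720))) (b (a (c (l 16765936) (l 16764648)) (b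 (l 16765120) (b (l 16764784) (a (l 16764704) (l 16764536))))) (b (a (c (b (l 16765448) (l 16765280)) (l 16764056)) (l 16764296)) (c (l 16764760) (l 16763400)))))))), by decide +kernel⟩

def k20_A00pm_012_s1 : ∃ t, chk3 f_A00pm_012_s1 t 143 61 1 = true :=
  ⟨(b (b (c (a (l 535610239) (l 535648127)) (a (l 535161983) (l 535190911))) (a (c (l 535635727) (l 535399183)) (c (b (l 16769560) (l 16768944)) (b (l 16766816) (l 535288191))))) (b (b (a (c (l 535541263) (l 535245839)) (c (b (l 16768464) (l 16768144)) (b (l 16765472) (l 16765080)))) (a (a (c (l 535515519) (l 535228287)) (c (b (l 16768104) (l 16767744)) (c (b (l 16765888) (l 16765480)) (l 16764248)))) (c (b (c (l 16768560) (a (l 16767120) (l 16766856))) (a (c (l 16768368) (l 16766752)) (l 16767384))) (b (a (l 16764848) (c (l 16765256) (l 16763720))) (a (c (l 16765192) (l 16763696)) (l 16764152)))))) (c (a (b (b (a (c (l 16768368) (l 16766856)) (a (a (l 16767504) (l 16767464)) (l 16767392))) (a (c (l 16768096) (l 16766568)) (l 16767016))) (a (b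 (l 16766880) (l 16766480)) (l 16766408))) (b (b (l 16767056) (l 16766648)) (l 16766024))) (a (a (b (b (c (l 16765400) (l 16764000)) (c (l 16765088) (l 16763672))) (c (l 16764432) (l 16763000))) (b (b (c (b (l 16765208) (l 16765024)) (l 16763680)) (l 16763952)) (l 16763328))) (b (a (a (l 16763912) (l 16763736)) (l 16763488)) (l 16762800)))))), by decide +kernel⟩

def k21_A00pm_012_s1 : ∃ t, chk3 f_A00pm_012_s1 t 36 60 1 = true :=
  ⟨(a (b (a (c (l 535861119) (l 535624719)) (c (a (l 535925887) (l 535965055)) (a (l 535407487) (l 535437951)))) (a (c (b (l 535794815) (l 535749135)) (b (l 535304575) (a (l 535256959) (l 535287935)))) (c (b (l 535874319) (a (l 535811711) (l 535850367))) (b (l 535366671) (a (l 535318655) (l 535348863)))))) (a (b (c (b (l 536048511) (l 535999359)) (b (l 535502719) (l 535464463))) (c (b (l 535951631) (a (l 16767480) (l 16769912))) (b (b (l 16767792) (l 16767144)) (a (l 535244671) (l 535408399))))) (a (b (c (l 536081023) (l 535527439)) (c (b (l 16770776) (l 16769752)) (b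 (l 16766736) (b (l 16765736) (l 16765048))))) (c (b (l 536118911) (b (l 16770648) (b (l 16769888) (l 16769256)))) (b (l 535556623) (b (l 16766272) (b (l 16765280) (c (l 16765664) (l 16763384))))))))), by decide +kernel⟩

def k22_A00pm_012_s1 : ∃ t, chk3 f_A00pm_012_s1 t 36 61 2 = true :=
  ⟨(b (a (b (a (a (l 535688063) (l 535727487)) (a (l 535766399) (l 535804943))) (b (a (a (l 16769200) (l 16768880)) (a (l 16768592) (a (l 16768320) (l 16765600)))) (c (a (a (l 16769416) (l 16769096)) (a (b (l 16769032) (l 16768800)) (l 16768648))) (a (a (l 16767768) (b (l 16767536) (l 16767152))) (a (b (l 16767104) (l 16766848)) (l 16766584)))))) (b (a (b (c (l 16770176) (l 16768048)) (c (a (l 16769664) (l 16769616)) (a (l 16767544) (l 16767352)))) (b (a (l 16768864) (l 16768624)) (l 16767864))) (a (a (b (c (l 16769160) (l 16767000)) (l 16767120)) (l 16767144)) (a (l 16766728) (l 16766320))))) (a (a (b (b (a (b (l 16768112) (a (l 16767840) (l 16767696))) (b (a (l 16767832) (l 16767720)) (l 16767400))) (a (a (b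 (c (l 16768424) (l 16766704)) (l 16767120)) (l 16767088)) (l 16766744))) (b (a (l 16766376) (l 16765888)) (a (l 16765520) (l 16765016)))) (b (b (a (l 16767136) (l 16766688)) (a (l 16766272) (l 16765808))) (b (l 16765152) (l 16764248)))) (b (a (a (l 16765800) (l 16765344)) (l 16764664)) (a (b (l 16764176) (l 16763240)) (l 16762744))))), by decide +kernel⟩

def k23_A00pm_012_s1 : ∃ t, chk3 f_A00pm_012_s1 t 36 61 3 = true :=
  ⟨(b (a (a (a (b (l 535222655) (b (l 16766176) (l 535286031))) (b (l 535387775) (b (l 16765568) (b (l 16765000) (a (l 16764768) (l 16764424)))))) (a (b (b (l 16766440) (l 16765720)) (a (b (l 16765128) (b (l 16764552) (l 16764192))) (b (l 16764840) (b (l 16764256) (l 16763856))))) (b (b (l 16765880) (l 16765160)) (b (b (l 16764560) (c (l 16765168) (l 16763280))) (b (l 16763848) (l 16763368)))))) (a (b (b (a (l 16765344) (b (l 16765008) (l 16764608))) (a (b (l 16764808) (c (l 16765368) (l 16763400))) (b (c (l 16765320) (l 16763232)) (l 16763912)))) (b (a (b (a (l 16764200) (l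 16763896)) (l 16763608)) (l 16763192)) (a (l 16762944) (l 16762296)))) (b (a (b (b (l 16764456) (l 16764176)) (l 16763464)) (b (l 16763808) (l 16762848))) (b (l 16762240) (l 16761320))))) (a (b (a (b (a (b (l 16764840) (a (l 16764568) (c (l 16765120) (l 16763488)))) (b (a (c (l 16765192) (l 16763520)) (l 16764112)) (l 16763832))) (a (b (a (c (l 16765048) (l 16763456)) (l 16763872)) (l 16763616)) (b (l 16763376) (l 16762944)))) (b (a (b (l 16763584) (l 16763144)) (l 16762704)) (a (l 16762488) (l 16761808)))) (a (b (a (c (l 16763800) (l 16762160)) (l 16762288)) (a (l 16762104) (l 16761400))) (b (l 16763864) (l 16760328)))) (b (a (b (l 16761712) (l 16760792)) (b (l 16760384) (l 16759440))) (a (b (l 16759856) (l 16758912)) (l 16758000))))), by decide +kernel⟩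

def k24_A00pm_012_s1 : ∃ t, chk3 f_A00pm_012_s1 t 37 30 1 = true :=
  ⟨(b (c (a (b (a (b (l 16772336) (l 16771464)) (b (l 16772296) (l 16771432))) (b (a (c (l 16771664) (l 16769112)) (a (l 16770336) (l 16770392))) (a (a (a (l 16766824) (l 16769448)) (l 16769320)) (l 16768696)))) (b (b (a (l 16773464) (a (l 16783392) (l 16790392))) (a (b (l 16771616) (l 16771200)) (l 16774616))) (b (a (l 16769968) (l 16769360)) (a (l 16768056) (l 16767456))))) (a (b (a (a (l 535585551) (l 535447055)) (b (l 535678479) (c (l 16767416) (l 16764880)))) (b (a (b (l 16765944) (c (l 16766392) (l 16764008))) (a (b (l 16765344) (l 16764704)) (b (l 16764976) (l 16764152)))) (a (b (a (b (l 16765016) (l 16764608)) (c (l 16765704) (l 16763184))) (a (c (l 16765360) (l 16762944)) (l 16763472))) (a (l 16763352) (l 16762776))))) (b (a (b (l 16764064) (c (b (l 16767096) (l 16766600)) (b (l 16764240) (l 16763696)))) (a (b (l 16766160) (l 16764960)) (b (l 16765984) (l 16764336)))) (a (b (a (l 16764120) (l 16763528)) (l 16761928))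 (b (l 16762728) (l 16760824)))))) (b (a (b (c (a (l 16767560) (l 16766840)) (a (a (l 16762696) (l 16762096)) (l 16761184))) (a (c (l 16765704) (l 16760512)) (c (l 16764920) (l 16759264)))) (b (a (c (l 16766144) (l 16760008)) (c (l 16765488) (l 16758856))) (a (c (l 16764168) (l 16758040)) (c (l 16763464) (l 16756848))))) (a (b (a (c (l 16763784) (l 16758592)) (c (l 16762936) (l 16757296))) (a (b (l 16759664) (l 16763904)) (b (l 16763792) (l 16762768)))) (b (a (b (l 16764776) (l 16763752)) (b (l 16763792) (l 16762752))) (a (b (l 16762720) (l 16761672)) (c (l 16759248) (l 16752704))))))), by decide +kernel⟩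

def k25_A00pm_012_s1 : ∃ t, chk3 f_A00pm_012_s1 t 38 30 1 = true :=
  ⟨(b (a (b (a (c (b (l 16801288) (l 16790000)) (b (c (l 16767320) (l 16763904)) (l 16763592))) (b (c (l 16774400) (l 16764528)) (c (l 16785264) (l 16762640)))) (a (b (c (l 16775776) (l 16761696)) (c (l 16766896) (l 16759752))) (b (c (a (l 16788936) (l 16797896)) (l 16760712)) (c (c (l 16777944) (l 16764416)) (l 16763968))))) (b (b (c (a (l 16790152) (l 16806392)) (a (l 16763688) (l 16762904))) (c (a (l 16791632) (l 16798448)) (a (l 16761768) (l 16760944)))) (a (b (c (b (l 16772768) (l 16766312)) (l 16759792)) (c (b (l 16780088) (l 16772072)) (l 16757776))) (c (b (b (l 16791000) (l 16785240)) (b (l 16778800) (l 16771616))) (b (l 16758936) (l 16756880)))))) (b (a (a (b (c (l 16764880) (l 16757744)) (c (l 16762808) (l 16755704))) (b (c (a (l 16764464) (l 16764208)) (a (l 16756952) (l 16756432))) (c (a (l 16762360) (l 16762088)) (a (l 16754880) (l 16754344))))) (b (c (a (c (l 16784752) (l 16761760)) (c (l 16764936) (l 16761216)))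 (a (l 16760944) (l 16754776))) (c (a (b (l 16763520) (l 16761152)) (c (l 16770944) (l 16759040))) (a (l 16758832) (l 16752632))))) (c (a (b (a (l 16763304) (a (l 16760208) (l 16759912))) (a (l 16758504) (b (l 16758384) (l 16757264)))) (b (a (l 16762120) (l 16761648)) (a (b (l 16757808) (l 16756672)) (l 16759360)))) (a (b (a (l 16753616) (b (l 16753016) (l 16751952))) (a (b (l 16752024) (l 16750952)) (b (l 16750872) (l 16749784)))) (b (a (l 16756688) (l 16750464)) (a (b (l 16749808) (l 16748704)) (l 16748248))))))), by decide +kernel⟩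

def k26_A00pm_012_s1 : ∃ t, chk3 f_A00pm_012_s1 t 39 30 1 = true :=
  ⟨(b (b (a (a (b (c (l 16822976) (l 16762176)) (c (l 16795088) (l 16760168))) (b (c (l 16797856) (l 16761496)) (c (l 16791920) (l 16759448)))) (c (b (a (l 16814824) (l 16831848)) (a (l 16809816) (l 16827736))) (a (b (l 16781856) (l 16779768)) (b (l 16775112) (l 16780672))))) (a (a (b (c (l 16786056) (l 16758128)) (c (b (l 16798688) (l 16792288)) (l 16756040))) (c (b (l 16805024) (c (l 16901688) (l 16771920))) (b (l 16757368) (l 16755256)))) (a (c (b (l 16803048) (l 16794248)) (b (l 16756680) (l 16754528))) (b (c (l 16822008) (l 16777024)) (c (l 16814424) (l 16753872)))))) (b (a (a (c (b (b (l 16785160) (l 16777256)) (c (l 16773912) (l 16758536))) (b (l 16753904) (l 16751744))) (c (b (b (l 16764728) (l 16799640)) (b (l 16791848) (l 16783232))) (b (l 16753096) (l 16750912)))) (a (c (b (b (l 16786128) (l 16779920)) (c (l 16904888) (l 16759368))) (b (l 16752352) (l 16750144))) (c (b (l 16804712) (l 16792552)) (b (l 16751664) (l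 16749440))))) (a (b (c (a (c (l 16799424) (l 16756288)) (b (l 16773744) (l 16763312))) (a (l 16749544) (l 16748688))) (c (a (l 16758968) (l 16756216)) (a (l 16747312) (l 16746440)))) (c (b (a (l 16773344) (l 16777584)) (a (l 16773848) (l 16780352))) (b (a (l 16747904) (l 16747192)) (a (l 16745640) (l 16744912))))))), by decide +kernel⟩

def k27_A00pm_012_s1 : ∃ t, chk3 f_A00pm_012_s1 t 32 62 1 = true :=
  ⟨(l 14), by decide +kernel⟩

def k28_A00pm_012_s1 : ∃ t, chk3 f_A00pm_012_s1 t 66 124 1 = true :=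
  ⟨(b (l 3) (b (l 3) (l 14))), by decide +kernel⟩

def k29_A00pm_012_s1 : ∃ t, chk3 f_A00pm_012_s1 t 134 124 1 = true :=
  ⟨(c (b (a (b (l 3) (a (l 3) (l 534847871))) (b (a (l 3) (l 534892671)) (a (l 534861695) (l 534875519)))) (a (b (a (l 534817151) (l 534830975)) (a (l 14) (l 534814079))) (b (a (l 534844799) (l 534858367)) (a (l 534827647) (l 534841215))))) (a (b (b (l 3) (a (l 3) (l 534644607))) (b (a (l 534623103) (l 534631807)) (a (l 14) (l 534619007)))) (b (b (a (l 3) (l 534674303)) (a (l 534653055) (l 534661247))) (b (a (l 534640255) (l 534648447)) (a (l 534627455) (l 534635647)))))), by decide +kernel⟩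

def k30_A00pm_012_s1 : ∃ t, chk3 f_A00pm_012_s1 t 135 124 1 = true :=
  ⟨(c (c (b (a (b (a (l 534963327) (l 534978687)) (a (l 534945151) (l 534960255))) (b (a (a (l 534990975) (b (l 535004943) (l 534995839))) (b (l 535022975) (l 535013759))) (a (a (l 534972543) (l 534980991)) (l 534998287)))) (a (b (a (l 534926719) (l 534941823)) (a (l 534908543) (l 534923391))) (a (b (l 535091215) (l 535206927)) (b (l 534979711) (l 534961279))))) (b (a (b (a (l 534849919) (l 534861951)) (a (l 534833791) (l 534845823))) (b (a (a (l 534872191) (b (l 534884223) (l 534876287))) (b (l 534900095) (l 534891903))) (a (a (l 534856063) (l 534862975)) (l 534878223)))) (a (b (a (l 534817663) (l 534829695)) (a (l 534801535) (l 534813823))) (a (b (l 534842127) (l 535094399)) (b (l 534861951) (l 534845823)))))) (c (b (a (b (a (l 534737791) (l 534747263)) (a (l 534723967) (l 534733439))) (b (a (b (l 534896143) (l 534754831)) (b (l 534779263) (l 534772095))) (a (l 535011599) (l 534894463)))) (a (b (a (l 534710143) (l 534719359))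 (a (l 534696063) (l 534705535))) (a (b (l 534997631) (l 534715263)) (b (l 534746239) (l 534732159))))) (b (a (b (a (l 534627455) (l 534634623)) (a (l 534615679) (l 534622591))) (b (a (a (l 534640767) (l 534644751)) (b (l 534660479) (l 534654591))) (a (l 534629647) (l 534644351)))) (a (b (a (l 534603647) (l 534610559)) (a (l 534591871) (l 534598783))) (a (b (l 534617983) (l 534605951)) (b (l 534632319) (l 534620287))))))), by decide +kernel⟩

def k31_A00pm_012_s1 : ∃ t, chk3 f_A00pm_012_s1 t 33 125 1 = true :=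
  ⟨(a (l 14) (a (b (a (l 14) (b (a (l 14) (c (l 534824319) (l 534622847))) (l 14))) (l 14)) (a (b (b (a (a (l 535001215) (l 535006335)) (c (l 535119487) (l 534639231))) (a (l 14) (c (l 535102335) (l 534626431)))) (l 14)) (c (b (a (b (a (l 534862719) (l 534870143)) (a (l 534845567) (l 534852991))) (b (l 535154191) (l 535136895))) (a (l 14) (b (l 535119743) (l 14)))) (b (a (b (l 534899071) (l 534903167)) (b (l 534663039) (l 534649983))) (b (a (l 14) (l 534637183)) (l 14))))))), by decide +kernel⟩

def k32_A00pm_012_s1 : ∃ t, chk3 f_A00pm_012_s1 t 16 63 1 = true :=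
  ⟨(l 14), by decide +kernel⟩

def k33_A00pm_012_s1 : ∃ t, chk3 f_A00pm_012_s1 t 68 124 1 = true :=
  ⟨(a (c (a (b (b (a (l 534979087) (l 535001983)) (a (l 535095679) (l 534984319))) (a (b (l 535212415) (l 535194751)) (b (l 534966655) (l 534948991)))) (b (b (l 535300479) (l 535282447)) (b (l 534995983) (l 535246463)))) (a (b (b (a (l 534732815) (l 534750079)) (a (l 534988159) (l 534736767))) (a (b (l 534706559) (l 534693503)) (b (l 534723455) (l 534710399)))) (b (b (l 535040127) (l 534758415)) (a (l 535131407) (l 535012879))))) (c (a (b (b (l 535074175) (l 535055999)) (b (l 535037823) (l 535019647))) (b (a (l 535094143) (l 535113855)) (b (l 535077503) (l 535327503)))) (a (b (b (l 534802559) (l 534788991)) (b (l 534775167) (l 534761599))) (b (b (l 534831231) (l 534817407)) (b (l 534803583) (l 534789759)))))), by decide +kernel⟩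

def k34_A00pm_012_s1 : ∃ t, chk3 f_A00pm_012_s1 t 68 125 1 = true :=
  ⟨(a (a (a (b (b (c (l 534909055) (l 534680447)) (c (l 534891391) (l 534667391))) (b (a (l 535028351) (l 534769791)) (l 14))) (b (b (c (l 534931327) (l 534697087)) (c (l 534913663) (l 534684031))) (b (b (l 534788223) (a (l 16769136) (l 16771528))) (b (c (l 16769120) (l 16768200)) (l 14))))) (b (a (b (l 535100431) (l 535085071)) (c (l 535362575) (l 534985599))) (b (b (a (l 16769096) (c (l 16769136) (l 16768144))) (a (c (l 16769144) (l 16768184)) (l 16768264))) (c (a (l 16768560) (l 16768208)) (c (l 16767592) (l 16767080)))))) (b (b (a (c (l 535269903) (l 534748031)) (c (a (l 535033983) (l 535052927)) (l 534776079))) (a (c (b (l 16769488) (a (l 16769200) (c (l 16769144) (l 16768576)))) (b (l 16768464) (a (l 16768168) (l 16767744)))) (c (a (b (c (l 16769184) (l 16768592)) (l 16768560)) (b (a (l 16768656) (l 16768520)) (l 16768184))) (b (a (l 16767728) (l 16767344)) (l 16767160))))) (a (b (a (b (c (l 16768848) (l 16767776)) (l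 16767872)) (c (l 16768280) (l 16767112))) (c (a (l 16767856) (l 16767504)) (l 16766488))) (b (a (c (l 16767944) (l 16766696)) (c (l 16767600) (l 16766272))) (c (c (l 16767320) (l 16766632)) (l 16765624)))))), by decide +kernel⟩

def k35_A00pm_012_s1 : ∃ t, chk3 f_A00pm_012_s1 t 69 124 1 = true :=
  ⟨(a (c (b (a (b (l 535152511) (l 535133711)) (b (l 535188607) (l 535169807))) (b (a (b (l 16770552) (l 16770144)) (a (l 535144575) (l 535161983))) (c (a (l 535437327) (b (l 16769384) (a (l 16769144) (b (l 16768928) (l 16768704))))) (a (l 535025023) (b (l 16768672) (a (l 16768432) (l 16768016))))))) (b (a (l 535249679) (b (l 534882943) (l 534868863))) (b (a (l 534830207) (l 535123327)) (a (l 535084559) (a (l 16767632) (b (l 16767424) (l 16766912))))))) (b (a (c (b (l 535222799) (b (l 16769944) (l 535469327))) (b (l 534905727) (l 534891791))) (c (b (l 535524367) (a (l 535499647) (l 535247119))) (b (l 535195519) (l 535181839)))) (b (a (c (a (l 535447679) (l 535464463)) (b (l 16767680) (l 16767224))) (c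 (a (b (l 16768672) (c (b (l 16768808) (l 16768576)) (l 16767792))) (b (l 16768352) (c (b (l 16768488) (l 16768352)) (b (l 16767568) (l 16767416))))) (b (l 16766808) (a (l 16766536) (c (l 16766600) (l 16765728)))))) (a (c (b (a (l 16768520) (b (l 16768264) (a (l 16768152) (l 16768032)))) (a (b (a (l 16768272) (l 16768144)) (l 16768040)) (l 16767800))) (b (a (l 16766984) (c (l 16766928) (l 16766128))) (a (c (l 16766944) (l 16766176)) (l 16766120)))) (c (b (a (a (b (l 16768048) (l 16767848)) (l 16767808)) (l 16767552)) (c (l 16767776) (l 16766848))) (a (b (l 16766176) (l 16765712)) (l 16765512))))))), by decide +kernel⟩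

def k36_A00pm_012_s1 : ∃ t, chk3 f_A00pm_012_s1 t 69 125 1 = true :=
  ⟨(b (a (b (a (c (b (c (a (l 16769392) (l 16769024)) (l 16768520)) (a (c (b (l 16769064) (l 16768864)) (l 16768280)) (c (b (l 16768768) (l 16768560)) (l 16767992)))) (b (c (l 16767872) (l 16767240)) (a (l 16767320) (l 16766960)))) (c (b (a (b (l 16768440) (a (l 16768352) (l 16768200))) (c (l 16768480) (l 16767696))) (c (l 16768200) (l 16767424))) (b (a (c (l 16767280) (l 16766584)) (l 16766552)) (l 16766296)))) (b (a (c (c (l 16768448) (l 16767744)) (l 16766720)) (c (c (l 16767808) (l 16767016)) (l 16765872))) (a (a (l 16769784) (l 16769408)) (a (l 16769024) (l 16768648))))) (c (b (b (a (c (l 16767984) (l 16767128)) (l 16769528)) (a (c (l 16767584) (l 16766720)) (l 16766496))) (a (a (l 16766704) (l 16766368)) (c (l 16766352) (l 16765384)))) (b (a (c (l 16766096) (l 16765280)) (l 16767480)) (a (l 16767440) (l 16763976))))) (a (a (b (c (b (l 16767280) (l 16766880)) (l 16765640)) (c (c (l 16766640) (l 16765880)) (l 16764760)))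 (b (c (b (l 16766592) (l 16766176)) (l 16764784)) (c (b (l 16765752) (l 16765328)) (l 16763888)))) (b (c (a (c (l 16766144) (l 16765248)) (l 16767624)) (a (l 16763928) (l 16763072))) (c (a (l 16767448) (l 16764112)) (a (l 16763016) (l 16762144)))))), by decide +kernel⟩

def k37_A00pm_012_s1 : ∃ t, chk3 f_A00pm_012_s1 t 70 248 1 = true :=
  ⟨(a (c (b (a (b (l 16769408) (l 535552783)) (a (l 535581311) (l 535596559))) (a (a (l 535531535) (b (l 16768504) (c (l 16768584) (l 16767592)))) (b (a (l 16768200) (a (l 16767952) (b (l 16767920) (l 16767736)))) (a (c (b (l 16768408) (l 16768272)) (b (l 16767360) (l 16767216))) (c (l 16768104) (l 16767008)))))) (b (a (l 534947599) (b (l 16766872) (l 16766440))) (b (a (l 16766848) (a (l 16766216) (c (l 16766272) (l 16765256)))) (a (c (l 16766824) (l 16765920)) (a (c (l 16766272) (l 16765288)) (l 16765416)))))) (c (b (b (a (a (l 16768352) (l 16768072)) (b (a (l 16767880) (c (l 16768240) (l 16766960))) (a (c (l 16768288) (l 16767064)) (l 16767432)))) (a (a (c (l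 16768528) (l 16767408)) (c (b (l 16768352) (l 16768216)) (b (l 16767176) (l 16767032)))) (a (c (l 16768072) (l 16766840)) (l 16767112)))) (b (a (a (b (c (l 16768272) (l 16767136)) (l 16767528)) (l 16767304)) (c (l 16767496) (l 16766224))) (a (c (l 16767648) (l 16766472)) (l 16766448)))) (b (b (a (l 535258895) (a (c (l 16765960) (l 16764824)) (c (b (l 16765728) (l 16765560)) (l 16764472)))) (a (a (l 16765800) (b (l 16765488) (l 16765328))) (c (a (l 16765640) (l 16765224)) (l 16764280)))) (a (a (b (c (l 16765968) (l 16764896)) (l 16764976)) (l 16767408)) (c (l 16767408) (l 16763592)))))), by decide +kernel⟩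

def k38_A00pm_012_s1 : ∃ t, chk3 f_A00pm_012_s1 t 70 249 1 = true :=
  ⟨(a (c (b (a (a (b (b (l 16768136) (a (l 16767992) (l 16767872))) (c (l 16768160) (l 16767184))) (b (b (a (l 16767888) (l 16767768)) (l 16767624)) (l 16767328))) (a (b (l 16767416) (l 16767016)) (b (l 16767112) (l 16766704)))) (a (b (c (l 16767584) (l 16766576)) (l 16769288)) (a (l 16769024) (l 16766080)))) (a (b (b (a (c (l 16766592) (l 16765688)) (b (l 16765872) (l 16765656))) (c (l 16766040) (l 16765104))) (c (l 16765384) (l 16764424))) (b (a (l 16765144) (l 16764744)) (l 16766704)))) (c (b (a (a (a (l 16766672) (l 16766520)) (l 16766288)) (c (l 16766480) (l 16765184))) (a (c (l 16766216) (l 16765008)) (l 16764976))) (b (a (b (l 16764344) (l 16763920)) (l 16763328)) (a (l 16763264) (l 16762440))))), by decide +kernel⟩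

def k39_A00pm_012_s1 : ∃ t, chk3 f_A00pm_012_s1 t 70 125 1 = true :=
  ⟨(b (a (b (a (c (a (l 16766208) (l 16765880)) (l 16764024)) (c (l 16768016) (l 16763200))) (c (a (l 16767808) (l 16764520)) (a (l 16763136) (l 16762288)))) (b (c (a (l 16764744) (l 16764096)) (a (l 16762368) (l 16761536))) (c (a (l 16763856) (l 16763200)) (l 16763648)))) (a (b (c (a (l 16764312) (l 16763624)) (a (l 16762216) (l 16761360))) (c (a (l 16763408) (l 16762704)) (l 16763464))) (b (c (a (l 16762944) (l 16762272)) (l 16762704)) (c (a (l 16762008) (l 16761328)) (l 16759120))))), by decide +kernel⟩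

def k40_A00pm_012_s1 : ∃ t, chk3 f_A00pm_012_s1 t 71 62 1 = true :=
  ⟨(b (b (c (a (b (a (c (b (l 16767760) (l 16767360)) (b (l 16766400) (l 16765992))) (c (l 16767032) (l 16765560))) (a (c (l 16766752) (l 16765368)) (c (l 16766208) (l 16764720)))) (b (a (c (l 16766512) (l 16764936)) (l 16765184)) (a (l 16764872) (l 16764312)))) (a (b (a (b (a (l 16764640) (l 16764248)) (l 16764024)) (c (l 16764136) (l 16762768))) (a (c (l 16764032) (l 16762744)) (l 16762592))) (b (a (l 16765288) (l 16761936)) (a (l 16761800) (l 16761048))))) (a (a (b (c (l 16765216) (l 16762520)) (c (l 16764352) (l 16761624))) (b (c (l 16764608) (l 16761712)) (l 16764872))) (a (b (a (l 16765232) (l 16762264)) (l 16764160)) (b (l 16764384) (l 16760848))))) (b (a (b (a (l 16764688) (l 16763968)) (c (c (l 16762960) (l 16761496)) (l 16759368))) (b (c (c (l 16762728) (l 16761072)) (l 16758680)) (c (c (l 16761784) (l 16760128)) (l 16757728)))) (a (b (c (c (l 16762024) (l 16760552)) (l 16758408)) (c (a (l 16760648) (l 16759984)) (l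 16757424))) (b (c (a (l 16760312) (l 16759656)) (l 16756752)) (c (a (l 16759328) (l 16758656)) (l 16755752)))))), by decide +kernel⟩

def k41_A00pm_012_s1 : ∃ t, chk3 f_A00pm_012_s1 t 34 63 1 = true :=
  ⟨(b (a (b (b (b (a (a (l 14) (c (l 16767816) (l 16766712))) (a (c (l 16767088) (l 16765840)) (c (l 16766360) (l 16764960)))) (a (l 14) (c (a (l 16766680) (l 16765936)) (a (l 16765400) (l 16764512))))) (b (a (l 14) (c (a (l 16766272) (l 16765512)) (a (l 16764960) (l 16764064)))) (a (l 14) (a (l 14) (a (l 16764552) (l 16764128)))))) (b (b (a (l 14) (a (l 14) (a (l 14) (l 16763672)))) (l 14)) (l 14))) (b (a (b (a (b (l 16767464) (l 16767024)) (c (l 16764672) (l 16762968))) (a (b (l 16766576) (l 16766120)) (b (l 16765744) (l 16765272)))) (b (c (a (l 16763928) (l 16763200)) (a (l 16762080) (l 16761192))) (c (a (l 16763008) (l 16762256)) (a (l 16761120) (l 16760224))))) (b (a (c (a (c (l 16764048) (l 16763216)) (c (l 16763296) (l 16762392))) (a (l 16761976) (l 16761056))) (a (b (l 16763960) (l 16763472))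 (b (l 16763120) (l 16762624)))) (a (c (b (a (l 16762936) (l 16762128)) (a (l 14) (l 16761648))) (a (l 16761000) (l 16760064))) (c (c (a (l 16761584) (l 16760832)) (a (l 16760592) (l 16759768))) (c (l 16759168) (l 16758160))))))) (b (a (l 14) (b (b (a (a (l 14) (a (l 14) (l 16760008))) (c (c (l 16760456) (l 16759416)) (l 16757880))) (a (l 14) (c (c (l 16759944) (l 16758904)) (l 16757360)))) (a (l 14) (a (a (l 14) (b (l 16760704) (l 14))) (c (c (b (l 16759008) (l 16758496)) (b (l 16757928) (l 16757440))) (b (l 16756328) (l 16755856))))))) (b (b (a (l 14) (a (l 14) (a (l 14) (a (l 14) (c (l 16757208) (l 16755144)))))) (l 14)) (l 14)))), by decide +kernel⟩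

def k42_A00pm_012_s1 : ∃ t, chk3 f_A00pm_012_s1 t 35 126 1 = true :=
  ⟨(a (b (a (b (c (a (l 16762472) (l 16761760)) (l 16762496)) (c (a (l 16761520) (l 16760784)) (l 16758880))) (b (c (a (l 16761048) (l 16760352)) (l 16758128)) (c (a (l 16760056) (l 16759344)) (l 16757120)))) (a (b (c (a (l 16760536) (l 16759784)) (l 16757864)) (c (c (b (l 16759976) (l 16759464)) (a (l 16758960) (l 16758152))) (l 16756824))) (b (c (c (a (l 16759688) (l 16759000)) (l 16758024)) (l 16756080)) (c (c (a (l 16758648) (l 16757952)) (l 16756968)) (l 16755024))))) (b (c (a (a (b (l 16759664) (l 16758648)) (b (l 16758984) (a (l 16758128) (l 16757792)))) (b (c (a (l 16759128) (l 16758480)) (l 16757144)) (c (a (l 16758096) (l 16757424)) (l 16756104)))) (a (b (l 16756416) (l 16755392)) (b (l 16754728) (l 16753688)))) (c (a (b (c (a (l 16758328) (l 16757672)) (l 16756512)) (a (c (l 16757264) (l 16755824)) (b (l 16756104) (l 16755560)))) (b (a (b (l 16756488) (l 16755952)) (c (l 16756344) (l 16754648))) (a (b (l 16755408)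 (l 16754856)) (a (l 16757200) (l 16754192))))) (a (b (l 16754344) (l 16753264)) (b (l 16752616) (l 16751520)))))), by decide +kernel⟩

def k43_A00pm_012_s1 : ∃ t, chk3 f_A00pm_012_s1 t 35 254 1 = true :=
  ⟨(a (c (a (a (b (c (l 16759056) (l 16757912)) (c (b (l 16758240) (l 16757720)) (b (l 16757096) (l 16756600)))) (b (c (l 16758312) (l 16757096)) (c (b (l 16757520) (l 16756976)) (b (l 16756304) (l 16755808))))) (b (c (a (l 16757584) (b (l 16757144) (l 16756568))) (a (l 16756296) (l 16755472))) (c (a (b (l 16756808) (l 16756264)) (b (l 16756096) (l 16755584))) (b (l 16755152) (l 16754656))))) (a (b (l 16755760) (c (b (l 16755536) (l 16755064)) (b (l 16754384) (l 16753928)))) (b (c (l 16754552) (l 16753264)) (c (b (l 16753856) (l 16753400)) (l 16752392))))) (c (a (b (c (b (c (l 16756472) (l 16755728)) (c (a (l 16756240) (l 16755616)) (a (l 16755512) (l 16754856)))) (b (l 16754624) (c (l 16754448) (l 16753712)))) (c (a (a (l 16755336) (l 16755008)) (b (l 16754768) (l 16754312))) (a (l 16753784)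 (l 16753088)))) (a (b (c (b (l 16755104) (a (l 16754768) (c (a (l 16754936) (l 16754768)) (l 16754048)))) (b (l 16753496) (c (l 16753416) (l 16752632)))) (a (c (c (l 16754464) (l 16753712)) (l 16752584)) (c (c (a (l 16754256) (l 16754096)) (l 16753400)) (c (l 16752632) (l 16751864))))) (a (b (c (b (l 16754560) (l 16754088)) (b (l 16752896) (l 16752448))) (c (c (l 16753848) (l 16753056)) (l 16751880))) (b (c (b (l 16754176) (l 16753728)) (l 16754920)) (c (c (l 16753520) (l 16752720)) (l 16751520)))))) (a (b (a (l 16752576) (l 16754336)) (c (b (l 16752216) (l 16751832)) (l 16750632))) (a (a (b (l 16751096) (l 16750352)) (b (c (l 16751472) (l 16749904)) (c (l 16750720) (l 16749216)))) (b (c (l 16750848) (l 16749240)) (c (l 16750128) (l 16748576))))))), by decide +kernel⟩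

def k44_A00pm_012_s1 : ∃ t, chk3 f_A00pm_012_s1 t 70 255 1 = true :=
  ⟨(a (b (c (c (b (c (l 16757072) (l 16756520)) (c (l 16756512) (l 16755976))) (b (l 16755696) (l 16755184))) (c (b (l 16754592) (l 16754120)) (b (l 16753496) (l 16753056)))) (c (a (a (l 14) (b (l 16755360) (l 14))) (c (b (l 16755352) (l 16754792)) (b (l 16754304) (l 16753784)))) (a (b (l 16753544) (l 14)) (b (l 16752712) (l 16752256))))) (b (c (c (a (b (l 16755752) (l 16755224)) (b (l 16755088) (l 16754584))) (b (l 16754192) (c (l 16754016) (l 16753424)))) (c (b (l 16752968) (l 16752536)) (b (l 16751752) (l 16751352)))) (c (a (c (b (l 16754696) (l 16754152)) (b (l 16753584) (l 16753088))) (c (b (l 16754072) (l 16753552)) (b (l 16752904) (l 16752424)))) (c (b (l 16752096) (a (l 16752016) (l 16751288))) (b (l 16750944) (a (l 16750928) (l 16750136))))))), by decide +kernel⟩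

def k45_A00pm_012_s1 : ∃ t, chk3 f_A00pm_012_s1 t 71 255 1 = true :=
  ⟨(a (b (c (c (a (b (l 16754456) (l 16753968)) (b (l 16753856) (l 16753384))) (b (c (l 16753136) (l 16752456)) (a (l 16752696) (l 16752040)))) (c (b (l 16751448) (l 16751048)) (b (l 16750104) (l 16749744)))) (c (a (c (b (l 16753472) (l 16752976)) (b (l 16752240) (l 16751784))) (c (b (l 16752912) (l 16752424)) (b (l 16751608) (l 16751176)))) (a (c (b (l 16751000) (l 16750584)) (b (l 16749760) (l 16749376))) (c (b (l 16750304) (l 16749912)) (b (l 16749000) (l 16748632)))))) (a (a (b (c (c (b (l 16753424) (l 16752968)) (l 16751776)) (c (l 16750368) (l 16748960))) (c (c (b (l 16752504) (l 16752040)) (b (l 16751160) (l 16750736))) (b (l 16749128) (c (l 16749416) (l 16748096))))) (c (b (c (c (a (l 16753352) (l 16753208)) (b (l 16752768) (l 16752336))) (c (l 16751824) (l 16751104))) (c (b (c (l 16752584) (l 16751896)) (a (l 16751848) (l 16751712))) (b (l 16750856) (c (l 16750776) (l 16750104))))) (b (c (b (l 16750192) (l 16749832))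 (b (l 16748736) (l 16748408))) (c (b (c (l 16749816) (l 16749120)) (a (l 16749184) (l 16749008))) (b (a (l 16748168) (l 16747984)) (a (l 16747832) (l 16747648))))))) (a (c (b (c (c (l 16752968) (l 16752232)) (c (l 16751488) (l 16750752))) (c (b (l 16751944) (l 16751496)) (b (l 16750528) (l 16750128)))) (b (c (l 16749640) (l 16748176)) (c (b (l 16749112) (c (l 16749096) (l 16748400))) (b (l 16747688) (c (l 16747712) (l 16747016)))))) (c (b (c (c (l 16752664) (l 16751912)) (c (l 16751152) (l 16750400))) (c (b (l 16751648) (l 16751208)) (b (l 16750200) (l 16749808)))) (b (c (l 16749272) (l 16747776)) (c (b (l 16748760) (l 16748400)) (b (l 16747304) (l 16746992)))))))), by decide +kernel⟩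

def k46_A00pm_012_s1 : ∃ t, chk3 f_A00pm_012_s1 t 36 62 1 = true :=
  ⟨(b (b (b (a (a (c (l 16764384) (l 16763472)) (c (l 16763320) (l 16759400))) (a (l 16762696) (l 16764088))) (a (a (c (l 16763480) (l 16759936)) (c (l 16762376) (l 16758448))) (a (l 16764344) (l 16763080)))) (a (a (c (b (l 16762560) (l 16761616)) (b (l 16759008) (l 16758056))) (b (c (l 16761416) (l 16757488)) (c (l 16760432) (l 16756504)))) (a (b (l 16763344) (c (l 16759280) (l 16754968))) (b (l 16762056) (l 16761016))))) (c (b (a (a (b (l 16760656) (l 16759672)) (b (l 16759432) (l 16758408))) (b (a (l 16758240) (l 16757088)) (a (l 16757184) (l 16756000)))) (a (b (a (c (l 16759584) (l 16757752)) (l 16757368)) (a (c (l 16758552) (l 16756728)) (l 16758920))) (b (a (l 16756104) (l 16754888)) (a (l 16755000) (l 16753760))))) (b (a (a (b (l 16757088) (l 16756104)) (b (l 16755504) (l 16754488))) (a (b (l 16753944) (l 16752896)) (b (l 16752408) (l 16751336)))) (a (a (b (l 16755096) (l 16754072)) (b (l 16753456) (l 16752400))) (a (b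 (l 16751832) (l 16750752)) (b (l 16750248) (l 16749144))))))), by decide +kernel⟩

def k47_A00pm_012_s1 : ∃ t, chk3 f_A00pm_012_s1 t 36 126 1 = true :=
  ⟨(a (c (b (b (a (c (l 16757488) (l 16755672)) (l 16757824)) (a (a (l 16755848) (l 16755144)) (l 16756712))) (a (a (b (l 16754752) (l 16756248)) (b (l 16754024) (l 16752880))) (b (l 16755568) (a (l 16752144) (c (l 16755016) (l 16750408)))))) (b (a (b (l 16753016) (l 16751944)) (b (l 16751320) (l 16750224))) (a (b (l 16750848) (l 16749728)) (b (l 16749104) (a (l 16748400) (l 16750120)))))) (b (a (b (c (l 16753880) (l 16749648)) (c (l 16752736) (l 16748528))) (b (c (l 16752608) (l 16748024)) (c (l 16751432) (l 16746880)))) (b (c (a (l 16751560) (l 16750232)) (a (l 16747384) (l 16745712))) (c (a (b (l 16750672) (a (a (l 16750592) (l 16750272)) (a (l 16749960) (l 16749656)))) (c (a (b (l 16750776) (l 16750344)) (b (l 16750160) (l 16749816))) (a (l 16748320) (l 16747704)))) (a (c (b (l 16747536) (l 16747024)) (l 16745232)) (c (c (l 16746344) (l 16745240))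 (l 16743608))))))), by decide +kernel⟩

def k48_A00pm_012_s1 : ∃ t, chk3 f_A00pm_012_s1 t 36 254 1 = true :=
  ⟨(a (c (a (b (c (a (b (c (l 16754080) (l 16753200)) (c (l 16753648) (l 16752792))) (c (b (l 16753424) (l 16753016)) (l 16752368))) (a (b (l 16751888) (l 16751504)) (c (l 16751464) (l 16750576)))) (c (a (c (b (l 16753256) (l 16752848)) (l 16752224)) (c (l 16752448) (l 16751592))) (a (c (l 16751400) (l 16750584)) (c (l 16750736) (l 16749888))))) (b (c (a (c (l 16752648) (l 16751704)) (c (l 16752032) (l 16751056))) (a (l 16750304) (l 16749608))) (c (a (c (l 16751880) (l 16750992)) (c (l 16751344) (l 16750416))) (a (c (l 16750104) (l 16749216)) (l 16749040))))) (a (a (b (c (l 16750040) (l 16748360)) (c (l 16749360) (l 16747752))) (b (c (l 16749248) (l 16747504)) (c (l 16748616) (l 16746944)))) (c (b (a (l 16748472) (l 16747704)) (c (l 16748000) (l 16747112))) (b (c (l 16746720) (l 16745800)) (c (l 16746224) (l 16745344)))))) (c (a (a (b (c (l 16750968) (l 16748960)) (c (c (l 16750840) (l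 16749880)) (l 16748448))) (c (b (l 16750440) (c (l 16750368) (l 16749368))) (b (l 16748360) (l 16747880)))) (c (b (c (a (l 16750480) (l 16750032)) (l 16749144)) (c (a (l 16749928) (l 16749528)) (a (l 16748896) (l 16748448)))) (b (a (l 16747784) (l 16747240)) (c (l 16747616) (l 16746568))))) (a (c (b (c (l 16747144) (l 16746144)) (c (l 16746712) (l 16745752))) (b (l 16744672) (c (l 16744800) (l 16743848)))) (c (b (c (l 16745880) (l 16744808)) (c (l 16745536) (l 16744504))) (b (l 16743224) (c (l 16743472) (l 16742456))))))), by decide +kernel⟩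

def k49_A00pm_012_s1 : ∃ t, chk3 f_A00pm_012_s1 t 36 255 2 = true :=
  ⟨(a (a (a (b (c (c (b (l 16752432) (l 16752016)) (b (l 16751640) (l 16751248))) (c (b (l 16750856) (l 16750480)) (l 16749888))) (c (a (b (l 16751352) (l 16750928)) (b (l 16751072) (l 16750656))) (b (c (l 16750096) (l 16749352)) (c (l 16749712) (l 16748984))))) (a (b (c (c (l 16751800) (l 16751000)) (l 16749800)) (c (b (l 16750800) (l 16750392)) (b (l 16749272) (l 16748904)))) (b (c (l 16751120) (l 16749488)) (c (b (l 16750536) (l 16750136)) (b (l 16748968) (l 16748624)))))) (a (b (c (c (l 16751136) (l 16750296)) (c (l 16749448) (l 16748608))) (c (a (b (l 16750280) (l 16749896)) (b (l 16750032) (l 16749656))) (c (b (l 16748944) (l 16748600)) (b (l 16748136) (l 16747808))))) (b (c (c (l 16750640) (l 16749760)) (c (l 16748888) (l 16748016))) (c (c (b (l 16750088) (l 16749720)) (b (l 16749248) (l 16748904))) (c (b (l 16748408) (l 16748088)) (b (l 16747568) (l 16747264))))))) (a (c (b (c (a (l 16750176) (l 16749744)) (a (l 16749264)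 (l 16748800))) (c (a (b (l 16749656) (l 16749304)) (b (l 16749256) (l 16748928))) (a (b (l 16748784) (l 16748456)) (b (l 16748352) (l 16748040))))) (b (a (c (l 16748352) (l 16747448)) (c (l 16747848) (l 16746904))) (a (b (l 16747472) (c (l 16747600) (l 16746752))) (b (l 16746984) (a (l 16746824) (l 16746600)))))) (c (b (a (a (l 16748960) (l 16748760)) (c (b (l 16749120) (l 16748840)) (l 16747960))) (c (a (b (l 16748896) (c (l 16748808) (l 16748352))) (b (l 16748560) (c (l 16748504) (l 16748024)))) (a (b (l 16747944) (l 16747656)) (b (l 16747576) (l 16747304))))) (b (c (b (l 16747272) (l 16747032)) (b (l 16746256) (l 16746040))) (b (a (l 16746520) (l 16746096)) (c (a (l 16746736) (l 16746344)) (a (l 16745808) (l 16745384)))))))), by decide +kernel⟩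

def k50_A00pm_012_s1 : ∃ t, chk3 f_A00pm_012_s1 t 36 255 3 = true :=
  ⟨(a (a (b (c (a (c (l 16749120) (l 16748344)) (c (l 16748432) (l 16747624))) (c (b (l 16747336) (l 16747048)) (b (l 16746536) (l 16746272)))) (c (a (b (c (l 16748608) (l 16747864)) (c (l 16748264) (l 16747536))) (b (c (l 16747952) (l 16747176)) (c (l 16747632) (l 16746872)))) (a (b (c (l 16747112) (l 16746368)) (c (l 16746808) (l 16746072))) (b (l 16746008) (c (l 16746112) (l 16745352)))))) (a (b (c (c (l 16747776) (l 16746936)) (b (l 16745808) (l 16745560))) (c (b (c (l 16747328) (l 16746520)) (c (l 16747024) (l 16746232))) (b (l 16745304) (c (l 16745440) (l 16744648))))) (b (c (c (l 16747144) (l 16746272)) (l 16744976)) (c (b (l 16746312) (c (l 16746448) (l 16745624))) (b (l 16744624) (c (l 16744800) (l 16743976))))))) (a (a (b (c (c (l 16746544) (l 16745640)) (l 16744288)) (c (b (l 16745720) (c (l 16745896) (l 16745040))) (b (l 16743968) (c (l 16744184) (l 16743320))))) (b (c (c (l 16745968) (l 16745024)) (l 16743624))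 (c (c (b (l 16745616) (l 16745376)) (l 16744600)) (c (l 16743696) (l 16742792))))) (a (b (c (l 16744936) (l 16742992)) (c (c (l 16744992) (l 16744056)) (c (l 16743120) (l 16742184)))) (b (c (l 16744400) (l 16742376)) (c (c (l 16744520) (l 16743544)) (c (l 16742576) (l 16741600))))))), by decide +kernel⟩

def k51_A00pm_012_s1 : ∃ t, chk3 f_A00pm_012_s1 t 37 62 1 = true :=
  ⟨(b (a (b (a (b (l 16762888) (l 16761856)) (b (l 16761720) (l 16760664))) (a (b (l 16760800) (l 16759736)) (b (l 16759592) (l 16758504)))) (b (a (b (l 16760608) (l 16759528)) (c (l 16757048) (l 16750568))) (a (c (l 16755672) (l 16749704)) (c (l 16754776) (l 16748368))))) (c (a (b (a (b (l 16755984) (l 16754872)) (b (l 16754936) (l 16753800))) (a (b (l 16753736) (l 16752576)) (b (l 16752632) (l 16751448)))) (b (a (l 16753376) (l 16752440)) (b (l 16751096) (a (l 16750400) (l 16749416))))) (a (b (a (l 16750368) (l 16748896)) (a (l 16748152) (l 16746640))) (b (a (l 16747480) (l 16746112)) (a (l 16745192) (l 16743800)))))), by decide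 +kernel⟩

def k52_A00pm_012_s1 : ∃ t, chk3 f_A00pm_012_s1 t 37 126 2 = true :=
  ⟨(b (a (b (a (l 16751392) (l 16750248)) (a (l 16750192) (l 16749024))) (b (a (l 16749168) (l 16748176)) (c (a (l 16749392) (l 16748480)) (l 16745896)))) (a (b (a (c (l 16750224) (l 16747728)) (b (l 16748088) (b (l 16747616) (c (c (a (l 16749584) (l 16749152)) (l 16748016)) (c (l 16746680) (l 16745360)))))) (a (a (c (b (c (l 16750240) (l 16749016)) (l 16749352)) (l 16747128)) (c (c (b (l 16749792) (l 16749544)) (l 16748448)) (l 16746584))) (c (a (a (l 16748728) (l 16748520)) (c (l 16748920) (l 16747576))) (a (l 16746056) (l 16745584))))) (a (a (b (b (l 16747248) (a (a (c (l 16748296) (l 16745512)) (l 16746784)) (l 16746632))) (c (c (l 16748592) (l 16747200)) (l 16745144))) (b (b (l 16746704) (l 16746328)) (c (l 16747544) (l 16744704)))) (b (c (b (c (l 16748360) (l 16746792)) (l 16747288)) (l 16744408)) (c (a (l 16747208) (l 16746896)) (l 16744064)))))), by decide +kernel⟩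

def k53_A00pm_012_s1 : ∃ t, chk3 f_A00pm_012_s1 t 74 127 2 = true :=
  ⟨(b (c (a (b (c (a (l 16749624) (l 16749240)) (a (l 16748456) (l 16748032))) (c (a (l 16749152) (c (l 16749104) (l 16748528))) (a (l 16748040) (l 16747656)))) (a (b (c (l 16748904) (l 16747656)) (c (c (l 16748816) (l 16748216)) (l 16747312))) (b (c (c (l 16748920) (l 16748272)) (l 16747296)) (c (a (l 16748312) (l 16748184)) (l 16747000))))) (a (b (c (l 16747064) (l 16745896)) (c (l 16746712) (l 16745584))) (a (b (l 16745792) (l 16745528)) (b (l 16745376) (c (l 16745760) (l 16744536)))))) (a (c (b (c (a (b (l 16748784) (l 16748520)) (b (l 16748472) (l 16748240))) (a (l 16747592) (l 16747248))) (c (a (b (l 16748256) (c (l 16748240) (l 16747736))) (b (c (l 16748264) (l 16747728)) (c (l 16748000) (l 16747480)))) (a (b (l 16747232) (l 16746992)) (b (l 16746928) (l 16746704))))) (b (c (b (l 16746432) (l 16746232)) (b (l 16745344) (l 16745168))) (b (c (a (l 16746208) (l 16745864)) (l 16744984)) (c (a (l 16745984) (l 16745664)) (a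 (l 16744984) (l 16744624)))))) (a (c (b (c (b (l 16748200) (l 16747984)) (b (l 16747040) (l 16746848))) (c (a (b (l 16747816) (l 16747584)) (b (l 16747712) (l 16747488))) (b (l 16746656) (c (l 16746720) (l 16746184))))) (b (c (l 16745808) (l 16744664)) (c (b (l 16745552) (l 16745368)) (b (l 16744440) (l 16744288))))) (c (b (c (a (b (l 16748024) (l 16747824)) (b (l 16747912) (l 16747720))) (b (l 16746752) (l 16746576))) (c (a (b (l 16747616) (c (l 16747680) (l 16747120))) (b (l 16747520) (c (l 16747600) (l 16747032)))) (a (b (l 16746472) (l 16746288)) (b (l 16746360) (l 16746184))))) (b (c (l 16745480) (l 16744296)) (c (a (l 16745256) (b (l 16745200) (l 16745048))) (b (l 16744104) (l 16743968)))))))), by decide +kernel⟩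

def k54_A00pm_012_s1 : ∃ t, chk3 f_A00pm_012_s1 t 75 127 2 = true :=
  ⟨(a (b (a (c (b (c (c (l 16748608) (l 16747936)) (l 16746936)) (c (a (l 16748032) (l 16747840)) (l 16746648))) (b (l 16744952) (c (l 16745368) (l 16744104)))) (b (c (l 16747232) (l 16744496)) (c (c (l 16747552) (l 16746232)) (l 16744264)))) (a (a (b (c (c (b (l 16747760) (l 16747576)) (l 16746448)) (l 16744624)) (c (c (b (l 16747376) (c (l 16747464) (l 16746888))) (b (l 16746192) (l 16746016))) (c (b (l 16745016) (l 16744864)) (l 16743776)))) (b (c (c (l 16747464) (l 16746232)) (l 16744384)) (c (b (l 16746568) (c (l 16746960) (l 16745792))) (b (l 16744184) (l 16744040))))) (b (c (b (l 16746616) (l 16746424)) (l 16744008)) (c (b (c (l 16746840) (l 16745624)) (c (a (l 16746752) (l 16746544)) (l 16745432))) (b (l 16743800) (l 16743648)))))) (b (b (c (a (l 16746880) (l 16746544)) (l 16743816)) (c (a (c (l 16747192) (l 16745840)) (c (l 16746856) (l 16745464))) (b (l 16743616) (l 16743480)))) (a (b (c (b (l 16746232) (c (l 16746672)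 (l 16745392))) (l 16743552)) (c (b (c (l 16746448) (l 16745200)) (c (a (l 16746344) (l 16746144)) (b (l 16745048) (l 16744952)))) (b (l 16743328) (l 16743176)))) (b (c (b (l 16745856) (c (l 16746304) (l 16744992))) (l 16743104)) (c (a (b (l 16745544) (c (l 16745944) (l 16744704))) (b (l 16745352) (c (l 16745752) (l 16744504)))) (b (l 16742872) (c (l 16743336) (l 16742088)))))))), by decide +kernel⟩

def k55_A00pm_012_s1 : ∃ t, chk3 f_A00pm_012_s1 t 37 63 3 = true :=
  ⟨(a (b (b (a (l 16748480) (l 16744320)) (a (b (l 16744096) (c (c (l 16745064) (l 16743880)) (l 16742120))) (c (b (b (l 16744120) (l 16743528)) (l 16743256)) (b (l 16741248) (l 16740752))))) (b (a (c (b (c (l 16744736) (l 16743592)) (c (l 16744472) (l 16743360))) (b (l 16741888) (c (l 16742256) (l 16741160)))) (a (c (b (l 16743360) (l 16743176)) (b (l 16740960) (l 16740848))) (c (b (l 16742856) (l 16742704)) (b (l 16740376) (l 16740296))))) (a (a (b (c (l 16743888) (l 16741792)) (c (c (l 16744080) (l 16743064)) (c (l 16742056) (l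 16741040)))) (b (c (l 16743416) (l 16741240)) (c (c (l 16743664) (l 16742608)) (c (l 16741560) (l 16740512))))) (a (b (c (l 16742968) (l 16740712)) (c (c (l 16743272) (l 16742184)) (c (l 16741096) (l 16740008)))) (b (c (c (l 16743120) (l 16741952)) (l 16740200)) (a (c (l 16742448) (l 16740208)) (c (l 16742264) (l 16739976)))))))) (b (b (a (l 16742840) (l 16741424)) (a (a (b (c (l 16742808) (l 16740120)) (l 16741128)) (b (l 16740808) (l 16740568))) (b (l 16739936) (l 16739736)))) (a (b (a (c (b (l 16742344) (l 16742216)) (b (l 16739784) (l 16739728))) (b (l 16740488) (l 16740392))) (a (b (c (a (l 16742208) (l 16741936)) (l 16739656)) (c (a (l 16742040) (l 16741760)) (a (l 16739720) (l 16739408)))) (b (l 16740272) (c (l 16741328) (l 16738936))))) (b (b (l 16739640) (a (l 16739840) (l 16739304))) (b (a (l 16739720) (l 16739176)) (b (c (l 16740504) (l 16738008)) (c (a (l 16740744) (l 16740224)) (l 16737944)))))))), by decide +kernel⟩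

def k56_A00pm_012_s1 : ∃ t, chk3 f_A00pm_012_s1 t 38 62 1 = true :=
  ⟨(b (a (b (a (c (l 16756264) (b (l 16749864) (l 16748760))) (c (b (l 16756120) (l 16754968)) (b (l 16748680) (l 16747568)))) (a (c (l 16753960) (b (l 16747648) (l 16746520))) (c (b (l 16753800) (l 16752616)) (b (l 16746440) (l 16745304))))) (b (a (c (b (l 16755512) (l 16754344)) (b (l 16747584) (l 16746464))) (c (l 16754392) (l 16746000))) (a (c (b (l 16753152) (l 16751952)) (b (l 16745328) (l 16744176))) (c (l 16751992) (l 16743704))))) (a (b (a (c (l 16751584) (l 16747432)) (c (b (l 16751408) (l 16750184)) (b (l 16744152) (l 16742984)))) (c (a (b (l 16749752) (l 16748512)) (c (l 16750168) (l 16746504))) (a (l 16742472) (b (l 16741808) (l 16740608))))) (b (a (c (l 16750120) (l 16747672)) (c (l 16749528) (l 16741360))) (c (b (a (l 16748248) (l 16747632)) (a (l 16746976) (l 16751592))) (a (l 16740048) (l 16738968)))))), by decide +kernel⟩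

def k57_A00pm_012_s1 : ∃ t, chk3 f_A00pm_012_s1 t 39 62 1 = true :=
  ⟨(b (a (b (c (a (l 16753936) (l 16760224)) (a (l 16745040) (l 16744152))) (a (c (l 16751512) (l 16742728)) (c (l 16751112) (l 16741824)))) (b (c (a (l 16770240) (l 16779408)) (l 16748184)) (c (a (l 16761896) (l 16753200)) (l 16745848)))) (b (a (a (c (l 16749024) (l 16740368)) (b (l 16744568) (l 16748576))) (a (c (l 16748280) (l 16738624)) (b (l 16743496) (c (l 16755336) (l 16737272))))) (a (b (a (c (l 16747112) (l 16738568)) (c (l 16746680) (l 16737648))) (a (c (c (l 16748016) (l 16743648)) (l 16737352)) (c (b (l 16745704) (c (l 16747376) (l 16742768))) (c (l 16738608) (l 16734272))))) (b (c (a (l 16746352) (b (l 16746440) (l 16745792))) (a (l 16736808) (a (l 16736240) (l 16741128)))) (a (c (b (c (l 16745568) (l 16742944)) (c (a (l 16747216) (l 16746312)) (a (l 16742416) (l 16742304)))) (b (l 16741128) (c (a (l 16737768) (l 16737536)) (l 16733104)))) (c (b (c (l 16743528) (a (l 16742656) (l 16742568))) (c (l 16745528) (l 16742240)))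 (b (c (a (l 16737720) (l 16737520)) (l 16732800)) (a (l 16740232) (l 16740064))))))))), by decide +kernel⟩

def k58_A00pm_012_s1 : ∃ t, chk3 f_A00pm_012_s1 t 38 126 1 = true :=
  ⟨(c (a (b (b (c (a (l 16748952) (l 16748232)) (l 16745072)) (a (c (b (l 16747984) (l 16747320)) (l 16744280)) (c (b (l 16747240) (c (l 22) (l 16745848))) (l 16743424)))) (a (b (c (b (l 16746952) (l 16746728)) (l 16743600)) (c (a (l 16746608) (l 16746328)) (l 16743304))) (c (c (l 22) (b (l 16745488) (l 16745088))) (b (l 16742912) (l 16742616))))) (c (b (b (a (b (l 16747952) (l 16747288)) (b (l 16747432) (l 22))) (a (a (b (l 16746776) (l 16746416)) (l 22)) (l 22))) (a (a (a (b (l 16746128) (l 16745672)) (l 22)) (l 22)) (l 22))) (b (a (b (l 16743776) (b (l 16742880) (l 16742592))) (b (b (l 16743344) (l 16742704)) (a (l 16742384) (l 16742144)))) (a (b (l 16742352) (a (l 16742184) (l 16741896))) (b (a (l 16742000) (l 16741776)) (a (l 16741632) (l 16741384))))))) (a (b (a (b (l 16740672) (l 16739440)) (b (l 16739400) (l 16738264)))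 (a (b (l 16738856) (l 16738728)) (b (l 16737896) (l 16737784)))) (b (a (b (l 16738224) (l 16737320)) (b (c (l 16739048) (l 16735208)) (c (l 16738416) (l 16734656)))) (a (b (l 16737072) (l 16736936)) (c (b (l 16738152) (l 16737912)) (l 16734480)))))), by decide +kernel⟩

def k59_A00pm_012_s1 : ∃ t, chk3 f_A00pm_012_s1 t 76 127 1 = true :=
  ⟨(c (b (a (a (b (c (l 16746224) (l 16743256)) (c (c (l 16746536) (l 16745104)) (l 16742976))) (b (c (l 16745920) (l 16742880)) (c (c (l 22) (l 16744760)) (l 16742584)))) (b (c (a (l 16745640) (c (l 22) (l 16744568))) (a (l 16742512) (l 16742168))) (c (c (l 22) (a (l 16744432) (l 16744120))) (a (l 16742200) (l 16741832))))) (a (a (b (c (b (l 16745496) (c (l 16745952) (l 16744600))) (l 16742672)) (c (a (b (l 16745160) (c (l 16745568) (l 16744296))) (b (l 16744976) (c (l 22) (l 16744096)))) (b (l 16742432) (c (l 16742896) (l 16741624))))) (b (c (b (l 16745152) (c (l 22) (l 16744232))) (l 16742264)) (b (c (c (l 22) (l 16744008)) (l 16742000)) (c (c (l 22) (b (l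 16743840) (l 16743720))) (c (l 16742480) (l 16741176)))))) (b (a (c (b (l 16744824) (c (l 22) (l 16743872))) (l 16741856)) (c (c (l 22) (a (l 16743752) (l 16743592))) (b (l 16741560) (l 16741376)))) (a (b (c (c (l 22) (l 16743640)) (l 16741592)) (c (c (l 22) (b (l 16743464) (l 16743336))) (c (l 16742064) (l 16740736)))) (b (c (c (l 22) (a (l 16743392) (l 16743216))) (c (l 16741888) (l 16740488))) (c (c (l 22) (a (b (l 16743208) (l 16743080)) (l 16742960))) (c (a (l 16741784) (l 16741592)) (l 16740312)))))))) (b (a (b (l 16738616) (a (l 16738784) (l 16738280))) (b (a (l 16737928) (l 16737464)) (a (l 16737792) (l 16737320)))) (a (b (a (l 16743888) (c (l 16739504) (l 16736768))) (b (c (l 16742128) (l 16736888)) (c (a (l 16739712) (l 16739216)) (l 16736816)))) (b (a (c (l 16739040) (l 16736240)) (c (l 16738584) (l 16735720))) (a (c (b (l 16738864) (l 16738736)) (l 16736112)) (c (b (l 16738400) (l 16738264)) (l 16735584))))))), by decide +kernel⟩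

def k60_A00pm_012_s1 : ∃ t, chk3 f_A00pm_012_s1 t 77 127 1 = true :=
  ⟨(b (c (c (c (l 22) (a (a (b (l 16744304) (l 16743832)) (l 22)) (l 22))) (a (b (a (l 16741848) (l 16741536)) (a (l 16741488) (l 16741152))) (b (a (l 16741248) (l 16740968)) (a (l 16740840) (c (l 16741368) (l 16739704)))))) (a (b (c (l 16738392) (l 16735184)) (c (l 16740768) (l 16735064))) (a (b (l 16736192) (l 16736000)) (b (l 16735800) (l 16740832))))) (c (a (c (c (l 22) (a (a (b (l 16743432) (b (l 16743048) (l 16742784))) (l 22)) (l 22))) (b (a (b (l 16741200) (l 16741000)) (b (l 16740848) (l 16740640))) (a (b (c (l 16741512) (l 16740088)) (c (b (l 16741344) (l 16741232)) (l 16739896))) (b (c (l 16741160) (l 16739696)) (c (b (l 16740976) (l 16740856)) (l 16739496)))))) (c (l 22) (b (a (b (l 16740512) (l 16740296)) (b (l 16740192) (l 16739960))) (a (b (c (l 16740816) (l 16739320)) (c (a (l 16740664) (l 16740488)) (l 16739112))) (b (c (l 16740480) (l 16738960)) (c (a (l 16740312) (l 16740144)) (l 16738736))))))) (a (b (c (a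 (l 16738152) (l 16737728)) (a (l 16735216) (l 16734736))) (c (a (b (l 16737952) (l 16737808)) (b (l 16737512) (l 16737368))) (a (l 16735072) (l 16734576)))) (b (c (a (l 16737320) (l 16736928)) (a (l 16734256) (l 16733800))) (c (a (b (l 16737096) (l 16736936)) (b (l 16736688) (l 16736520))) (a (l 16734088) (l 16733616))))))), by decide +kernel⟩

def k61_A00pm_012_s1 : ∃ t, chk3 f_A00pm_012_s1 t 39 126 1 = true :=
  ⟨(a (c (c (b (b (b (b (a (l 16747184) (a (l 16746936) (l 16746864))) (l 22)) (l 22)) (l 22)) (l 22)) (b (a (b (b (l 16742664) (a (l 16742320) (l 16742136))) (a (l 16741968) (l 16741808))) (b (b (a (l 16742304) (l 16742160)) (l 16741928)) (a (l 16741664) (l 16741536)))) (a (b (a (l 16741568) (l 16741376)) (a (l 16741152) (l 16740928))) (b (a (l 16741208) (l 16741048)) (a (l 16740728) (l 16740544)))))) (b (a (a (b (l 16736416) (l 16736000)) (b (l 16741288) (l 16735704))) (b (c (a (l 16737840) (l 16737600)) (l 16733472)) (c (l 16737352) (l 16733232)))) (a (c (b (l 16737560) (l 16737280))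 (b (l 16733768) (l 16733624))) (a (b (l 16735208) (l 16734976)) (b (l 16734920) (l 16739912)))))) (b (a (c (b (c (a (l 16746608) (l 16747384)) (a (l 16741928) (l 16741864))) (c (l 22) (a (l 16741424) (l 22)))) (a (b (l 16740400) (l 16740152)) (b (l 16740192) (l 16739928)))) (c (b (b (a (l 16744400) (l 16744424)) (l 22)) (l 22)) (b (c (a (l 16737080) (l 16736960)) (l 16732368)) (c (a (l 16736704) (l 16736552)) (l 16732144))))) (a (a (b (c (c (l 22) (l 16740912)) (l 16739896)) (c (c (l 22) (l 16740376)) (l 16739616))) (c (l 22) (c (b (l 16736504) (l 16736120)) (l 16732216)))) (c (l 22) (b (c (a (l 16736312) (l 16736136)) (l 16731896)) (c (a (l 16735904) (l 16735696)) (l 16731640))))))), by decide +kernel⟩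

def k62_A00pm_012_s1 : ∃ t, chk3 f_A00pm_012_s1 t 78 127 1 = true :=
  ⟨(b (a (b (c (c (l 22) (a (l 16740712) (l 16740464))) (a (l 16735424) (l 16740312))) (c (c (l 22) (a (c (l 16741096) (l 16739400)) (c (l 22) (l 16739112)))) (c (a (l 16736872) (l 16736528)) (l 16733288)))) (c (c (l 22) (b (a (l 16740232) (l 16742640)) (c (l 22) (a (l 16738832) (l 16738576))))) (b (c (a (l 16736544) (l 16736256)) (l 16732704)) (c (a (l 16736200) (l 16735880)) (l 16732496))))) (c (a (c (l 22) (c (a (a (b (l 16740656) (b (l 16740256) (l 16739984))) (l 22)) (l 22)) (b (a (l 16738960) (l 16738640)) (a (b (l 16738616) (l 16738376)) (b (l 16738280) (c (l 16738416) (l 16737640))))))) (c (l 22) (c (l 22) (b (a (b (l 16738464) (l 16738216)) (b (l 16738184) (l 16737920))) (a (b (l 16737960) (c (l 16738088) (l 16737304))) (b (l 16737648) (c (l 22) (l 16736976)))))))) (a (b (c (a (l 16736544) (l 16736184)) (a (l 16733352) (l 16732920))) (c (a (b (l 16736288) (l 16736112)) (b (l 16735912) (c (l 16736488) (l 16734952))))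 (a (l 16733152) (l 16732704)))) (b (c (a (c (l 16736664) (l 16735000)) (c (l 16736344) (l 16734640))) (a (l 16732504) (l 16732104))) (c (a (b (l 16735544) (c (l 16736128) (l 16734560))) (b (l 16735184) (c (l 16735776) (l 16734176)))) (a (l 16732272) (l 16734472))))))), by decide +kernel⟩

def k63_A00pm_012_s1 : ∃ t, chk3 f_A00pm_012_s1 t 79 127 1 = true :=
  ⟨(b (c (c (l 22) (c (l 22) (a (a (b (l 16738856) (l 16738328)) (l 22)) (l 22)))) (a (b (c (a (l 16735976) (l 16735720)) (l 16732008)) (c (a (l 16735584) (l 16735296)) (a (l 16731968) (l 16731608)))) (b (c (a (l 16735472) (l 16735248)) (l 16733992)) (c (a (l 16735032) (l 16737400)) (a (l 16731272) (l 16730944)))))) (a (c (a (a (c (l 22) (c (l 22) (b (l 16737856) (b (l 16737440) (l 16737152))))) (l 22)) (l 22)) (b (c (a (c (l 16736040) (l 16734304)) (c (l 16735744) (l 16733976))) (a (l 16731712) (l 16731336))) (c (a (b (l 16734848) (c (l 16735440) (l 16733808))) (b (l 16737144) (c (l 16735112) (l 16733456)))) (a (b (l 16731512) (l 16731376))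 (c (l 16731888) (l 16730216)))))) (c (l 22) (b (c (a (c (l 16735472) (l 16733664)) (a (l 16734368) (l 16734232))) (a (l 16730976) (l 16730632))) (c (b (a (c (l 16735072) (l 16733344)) (c (l 16734792) (l 16733024))) (a (a (l 16734048) (l 16733896)) (c (b (l 16734584) (l 16734440)) (l 16732792)))) (b (a (l 16730744) (l 16730384)) (a (l 16730584) (l 16730216)))))))), by decide +kernel⟩

def k64_A00pm_012_s1 : ∃ t, chk3 f_A00pm_012_s1 t 40 6 1 = true :=
  ⟨(b (a (b (a (b (l 3) (l 547902847)) (b (a (l 3) (l 547911183)) (a (l 547862911) (l 547835775)))) (a (b (l 547811199) (l 547689599)) (b (l 547769471) (l 547661951)))) (b (a (b (a (l 547864959) (l 547003775)) (a (l 547806079) (b (l 547783295) (l 547754367)))) (b (a (b (l 547745663) (l 547753855)) (l 547691023)) (a (l 547189375) (l 547677567)))) (a (b (a (l 547732351) (l 547703679)) (a (l 547634815) (l 547613823))) (b (a (l 547669119) (l 547630463)) (a (l 547588223) (l 547558783)))))) (b (a (b (a (b (l 547565183) (l 547452799)) (a (l 547511679) (l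 547505535))) (a (l 546452495) (l 547278607))) (a (b (a (l 547496831) (l 547485055)) (l 547019791)) (b (b (l 16831312) (l 16849288)) (b (l 16856912) (l 16864624))))) (a (b (a (a (l 546910335) (l 546941311)) (b (l 16840560) (l 16848264))) (a (b (l 546609935) (l 546090767)) (b (l 16855816) (l 16852584)))) (a (b (b (l 16861736) (l 16869464)) (b (l 16877064) (l 16884416))) (b (b (l 16872392) (l 16880152)) (b (l 16887824) (l 16895296))))))), by decide +kernel⟩

def k65_A00pm_012_s1 : ∃ t, chk3 f_A00pm_012_s1 t 82 6 1 = true :=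
  ⟨(b (b (a (b (a (l 547093119) (l 547565439)) (a (l 547626111) (l 547571327))) (a (b (c (l 548303999) (l 546627711)) (l 547509631)) (b (b (l 547393151) (l 16808904)) (b (l 16825200) (l 16831256))))) (a (a (b (l 547588479) (l 547526527)) (b (l 547543423) (l 547491199))) (a (b (l 547492479) (l 547451007)) (b (l 547436415) (l 16833552))))) (a (b (b (b (l 16852400) (l 16859864)) (b (l 16867472) (l 16875192))) (b (a (l 16884256) (l 16889536)) (b (l 16898552) (l 16906240)))) (b (a (b (l 16863952) (l 16879168)) (b (l 16869104) (l 16884336))) (b (b (l 16893456) (l 16901360)) (b (l 16909376) (l 16917424)))))), by decide +kernel⟩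

def k66_A00pm_012_s1 : ∃ t, chk3 f_A00pm_012_s1 t 83 6 1 = true :=
  ⟨(a (a (b (b (a (b (l 547343231) (l 547385471)) (b (l 547294335) (l 547345279))) (b (c (l 16852200) (l 16839376)) (l 16859600))) (b (b (l 16874192) (l 16889456)) (b (l 16905376) (l 16922000)))) (b (b (a (b (l 547237503) (l 16826560)) (b (c (l 16831600) (l 16823872)) (l 16839464))) (b (c (l 16857512) (l 16843960)) (l 16864576))) (b (b (l 16879192) (l 16894568)) (b (l 16910880) (l 16885888))))) (b (b (c (c (a (a (l 548871039) (a (l 548276607) (l 548241279))) (b (l 16842288) (l 16855992))) (a (a (b (l 16832160) (l 16844472)) (b (l 16834544) (l 16846896))) (b (l 16838136) (l 16850528)))) (c (b (a (a (l 16828136) (l 16830376)) (l 16833744)) (a (a (l 16839112) (l 16841376)) (l 16844792))) (a (a (b (l 16823896) (l 16833488)) (b (l 16825984) (l 16835600))) (b (l 16829128) (l 16838776))))) (c (a (a (b (l 16861360) (l 16877144)) (b (l 16863896) (l 16879720))) (b (l 16867704) (l 16883584))) (c (a (a (b (l 16850928) (l 16863616)) (b (l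 16853224) (l 16865944))) (b (l 16856680) (l 16869448))) (a (a (b (l 16843584) (l 16854152)) (b (l 16845720) (l 16856312))) (b (l 16848928) (l 16859568)))))) (b (c (b (a (a (l 16894360) (l 16897064)) (l 16901360)) (a (l 16914888) (l 16921360))) (b (a (a (l 16871016) (l 16873344)) (l 16877008)) (a (a (l 16883352) (l 16885968)) (l 16890064)))) (c (b (a (l 16936056) (l 16942736)) (a (l 16958280) (l 16964880))) (b (a (l 16897368) (l 16902800)) (a (l 16908976) (b (l 16911632) (l 16916968)))))))), by decide +kernel⟩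

def k67_A00pm_012_s1 : ∃ t, chk3 f_A00pm_012_s1 t 21 6 1 = true :=
  ⟨(c (b (b (a (b (a (l 16852488) (l 16871752)) (l 16854560)) (a (l 16897344) (l 16915672))) (a (b (l 16890264) (l 16906464)) (a (l 16927600) (l 16946392)))) (b (a (b (l 16924744) (l 16945440)) (b (l 16964120) (l 16985448))) (a (b (l 16967296) (a (l 16979128) (l 17000848))) (b (l 17008240) (l 17032184))))) (b (b (a (a (b (l 16842400) (l 16852848)) (b (l 16859904) (l 16870520))) (b (l 16885896) (l 16896720))) (a (b (a (l 16864000) (l 16881848)) (l 16863912)) (b (l 16908304) (l 16920704)))) (b (a (b (a (l 16888592) (l 16906840)) (a (l 16902024) (l 16920624))) (b (l 16933952) (l 16948216))) (a (b (a (l 16915024) (l 16934160)) (b (l 16933992) (l 16897864))) (b (l 16962552) (l 16976408)))))), by decide +kernel⟩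

def k68_A00pm_012_s1 : ∃ t, chk3 f_A00pm_012_s1 t 11 6 1 = true :=
  ⟨(b (a (b (b (l 16943664) (l 16956632)) (b (l 16970664) (l 16985816))) (b (l 17009960) (l 17060408))) (b (a (a (b (l 16985232) (l 17003560)) (c (l 17045968) (l 17010048))) (a (l 17059440) (l 17087944))) (b (a (a (l 17023032) (l 17057872)) (l 17104776)) (a (a (l 17043152) (l 17079000)) (l 17127112))))), by decide +kernel⟩

def k69_A00pm_012_s1 : ∃ t, chk3 f_A00pm_012_s1 t 40 14 1 = true :=
  ⟨(b (b (a (a (b (l 16858936) (l 16854400)) (b (l 16880360) (l 16886520))) (b (a (l 16891376) (l 16902488)) (a (l 16876840) (l 16909232)))) (a (b (a (l 16859360) (b (l 16890584) (l 16892952))) (a (b (l 16883208) (l 16884608)) (l 16853928))) (b (a (l 16861520) (l 16915272)) (c (l 16951408) (l 16855112))))) (c (a (b (b (l 16932680) (l 16854840)) (a (b (l 16935056) (l 16851392)) (b (l 16949968) (l 16867336)))) (b (b (l 16959912) (l 16967040)) (b (l 16888392) (l 16891112)))) (a (b (b (b (l 16851824) (l 16849184)) (b (l 16845672) (l 16841168)))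 (b (b (l 16814584) (a (l 16822008) (l 16835464))) (b (a (l 16813368) (l 16827560)) (a (l 16803088) (l 16818136))))) (b (b (b (l 16874400) (l 16872448)) (b (l 16869728) (l 16824208))) (b (b (l 16819664) (l 16814040)) (b (a (l 16841928) (l 16856408)) (a (l 16833320) (l 16848592)))))))), by decide +kernel⟩

def k70_A00pm_012_s1 : ∃ t, chk3 f_A00pm_012_s1 t 41 14 1 = true :=
  ⟨(a (b (b (b (a (l 16913744) (l 16925296)) (l 16884800)) (b (c (l 16967808) (l 16897968)) (c (l 16977848) (l 16867088)))) (c (b (b (l 16987080) (l 16995184)) (b (l 17001752) (l 17006232))) (b (b (a (l 16891192) (l 16903104)) (a (l 16844936) (l 16857576))) (b (a (l 16837344) (l 16850944)) (a (b (l 16870936) (l 16863872)) (b (l 16885448) (l 16879104))))))) (b (c (a (b (l 16970888) (l 16992496)) (b (a (l 16980696) (l 16987256)) (a (l 17002424) (l 17009040)))) (a (b (b (l 16908152) (l 16911896)) (b (l 16914512) (l 16915680))) (c (b (a (l 16934088) (l 16939832)) (a (l 16943640) (b (l 16947472) (l 16951288)))) (b (a (l 16902392) (b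 (l 16906376) (l 16908472))) (b (a (l 16903976) (l 16909328)) (a (l 16903112) (l 16887672))))))) (c (a (b (l 16927968) (l 16942752)) (a (b (l 17022120) (l 17037656)) (b (l 16987000) (l 16961064)))) (a (b (b (l 16915048) (l 16870208)) (b (b (l 16908160) (l 16904472)) (b (l 16899856) (l 16810304)))) (c (b (a (a (l 16946504) (l 16949632)) (b (l 16953728) (l 16954440))) (b (a (l 16946152) (l 16952952)) (a (l 16941392) (l 16948672)))) (b (b (a (l 16900264) (b (l 16906888) (l 16905032))) (a (l 16894968) (a (b (l 16900968) (l 16876776)) (l 16902560)))) (b (a (l 16886632) (b (b (l 16896528) (l 16852408)) (b (l 16850024) (l 16868368)))) (a (l 16832592) (a (a (a (l 16878464) (a (l 16879048) (l 16879400))) (l 16880544)) (l 16883424)))))))))), by decide +kernel⟩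

def k71_A00pm_012_s1 : ∃ t, chk3 f_A00pm_012_s1 t 21 14 1 = true :=
  ⟨(b (b (b (a (a (l 16881864) (l 16987256)) (l 17018656)) (a (a (l 16889712) (l 16995672)) (l 17027856))) (b (a (a (l 16897008) (l 17003664)) (l 16952904)) (a (a (a (l 16897600) (l 16909520)) (l 16927168)) (l 16961424)))) (b (c (a (a (l 16961416) (l 17070632)) (l 17106840)) (b (a (a (l 16903280) (l 16969544)) (l 17005152)) (a (a (c (l 16970768) (l 16875200)) (l 16969792)) (l 17007368)))) (c (a (a (l 16978992) (l 17090640)) (l 17130056)) (b (a (a (a (l 16849648) (l 16947448)) (l 16968048)) (l 16924128)) (a (a (a (l 16842624) (l 16857688)) (l 16879904)) (l 16922784)))))), by decide +kernel⟩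

def k72_A00pm_012_s1 : ∃ t, chk3 f_A00pm_012_s1 t 40 30 1 = true :=
  ⟨(c (c (b (a (b (l 16976520) (l 16973736)) (b (l 17011152) (l 17011528))) (b (a (a (l 16954192) (l 16975648)) (l 17006984)) (a (a (l 16852024) (l 16960416)) (l 16995936)))) (b (a (b (a (l 16852760) (l 16911864)) (b (l 16851200) (a (l 16874184) (l 16894024)))) (b (a (l 16928936) (l 16945872)) (a (l 16917504) (l 16936288)))) (b (a (b (a (l 16862352) (l 16883568)) (a (l 16848008) (l 16870808))) (a (l 16815232) (l 16920336))) (b (a (a (l 16830784) (l 16855440)) (l 16807496)) (a (a (l 16810280) (l 16837080)) (l 16792072)))))) (b (b (b (a (a (l 16790960) (l 16806992)) (a (l 16823128) (l 16797352))) (a (a (l 16776744) (l 16793912)) (a (l 16811136) (l 16828344)))) (b (a (a (l 16760176) (l 16778664)) (a (l 16797144) (l 16815536))) (a (a (l 16774256) (l 16781936)) (a (l 16780880) (l 16800632))))) (b (a (a (b (l 16751056) (l 16748808)) (b (l 16750512) (l 16748248))) (a (b (l 16762064) (l 16747768)) (b (l 16783384) (l 16763496)))) (a (b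 (a (l 16746544) (l 16745976)) (l 16749176)) (b (l 16750464) (l 16742928)))))), by decide +kernel⟩

def k73_A00pm_012_s1 : ∃ t, chk3 f_A00pm_012_s1 t 40 124 1 = true :=
  ⟨(b (a (c (a (l 16766736) (l 16795128)) (l 16741624)) (c (l 16794104) (l 16740624))) (a (c (a (l 16743392) (l 16774432)) (b (l 16739872) (l 16738688))) (c (c (l 16969672) (l 16741432)) (a (l 16738536) (l 16732888))))), by decide +kernel⟩

def k74_A00pm_012_s1 : ∃ t, chk3 f_A00pm_012_s1 t 40 125 1 = true :=
  ⟨(b (c (c (a (a (l 16749064) (l 16823696)) (a (l 16855064) (l 16969120))) (a (b (l 16750240) (a (l 16744552) (l 16751088))) (b (a (l 16758832) (l 16748984)) (a (b (l 16747944) (l 16740360)) (l 16741256))))) (a (a (b (l 16737816) (l 16736608)) (b (l 16737240) (a (l 16736176) (l 16735920)))) (a (b (l 16736760) (a (c (l 16738496) (l 16732880)) (b (l 16735768) (c (l 16738160) (l 16732432))))) (b (b (l 16736664) (a (l 16736168) (l 16730744))) (c (b (l 16738600) (l 16738232)) (b (a (l 16732672) (l 16732600)) (l 16732360))))))) (c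 (b (c (a (a (b (l 16774920) (l 16746984)) (a (l 16797976) (l 16815184))) (a (l 16840296) (l 16956352))) (a (a (b (l 16743592) (a (l 16743000) (l 16742960))) (b (l 16743464) (l 16743040))) (a (a (l 16740472) (l 16737592)) (l 16743056)))) (c (a (c (a (l 16798664) (l 16918544)) (a (l 16746936) (l 16753344))) (a (l 16829264) (l 16946760))) (a (a (a (l 16742416) (l 16742424)) (a (l 16742472) (l 16742544))) (a (l 16743336) (l 16738536))))) (a (a (b (a (c (l 16738088) (l 16733032)) (b (l 16735552) (c (l 16737624) (l 16732456)))) (a (c (l 16737304) (l 16732352)) (c (l 16737216) (l 16732168)))) (b (b (a (c (l 16737944) (l 16732624)) (c (l 16737832) (l 16732384))) (c (l 16737544) (a (l 16732272) (l 16732144)))) (c (a (l 16737168) (l 16737144)) (a (l 16732032) (l 16731912))))) (a (b (a (c (l 16737688) (l 16732176)) (c (l 16737696) (l 16732096))) (c (a (l 16737136) (l 16737144)) (l 16734392))) (b (a (c (l 16737752) (l 16732064)) (l 16732288)) (c (l 16737184) (l 16731648))))))), by decide +kernel⟩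

def k75_A00pm_012_s1 : ∃ t, chk3 f_A00pm_012_s1 t 40 126 1 = true :=
  ⟨(a (c (b (b (b (a (c (l 16745488) (l 16741928)) (c (l 16783808) (l 16741984))) (l 22)) (l 22)) (l 22)) (b (a (b (c (a (l 16736856) (l 16736768)) (l 16731976)) (c (a (l 16736424) (l 16736304)) (l 16731704))) (b (c (a (l 16736696) (l 16736640)) (l 16736896)) (c (l 16738776) (l 16731336)))) (a (b (c (a (l 16735976) (l 16735832)) (l 16731416)) (c (a (l 16735512) (l 16735344)) (l 16733736))) (b (c (a (l 16735704) (l 16735592)) (l 16731000)) (c (a (l 16735184) (l 16735048)) (a (l 16730776) (l 16730560))))))) (b (b (a (c (c (l 16817168) (l 16741904)) (c (l 16736584) (l 16731408))) (c (c (l 16852304) (l 16743296)) (a (l 16733904) (l 16733872)))) (c (l 22) (a (c (l 16736024) (l 16731032)) (c (l 22) (l 16730800))))) (c (l 22) (c (a (a (a (l 16737872) (l 22)) (l 22)) (l 22)) (a (b (l 16730648) (a (l 16730360) (l 16730176))) (b (l 16730368) (a (l 16730000) (l 16729848)))))))), by decide +kernel⟩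

def k76_A00pm_012_s1 : ∃ t, chk3 f_A00pm_012_s1 t 80 127 1 = true :=
  ⟨(b (c (l 22) (a (b (c (a (l 16735032) (l 16734832)) (a (l 16730952) (l 16730680))) (c (a (c (l 16735520) (l 16733560)) (c (l 22) (l 16733312))) (a (l 16730632) (l 16730344)))) (b (c (a (l 16734656) (l 16734488)) (a (l 16730424) (l 16730184))) (c (c (l 22) (a (l 16733088) (l 16732872))) (a (l 16730064) (l 16729792)))))) (b (c (l 22) (a (c (a (a (l 16736720) (l 16736584)) (b (l 16733904) (l 16736256))) (a (l 16730304) (l 16729984))) (c (c (l 22) (a (l 16732568) (l 16732328))) (a (l 16729680) (l 16732016))))) (c (l 22) (a (c (b (a (c (l 16734520) (l 16732728)) (c (l 22) (l 16732440))) (a (c (b (l 16734304) (l 16734152)) (l 16732480)) (c (l 22) (l 16732176)))) (b (a (l 16730040) (l 16729704)) (a (l 16729856) (l 16729512)))) (c (c (l 22) (b (a (l 16732168) (l 16731912)) (a (b (l 16731960) (l 16731824)) (b (l 16731696) (l 16731552))))) (b (a (l 16729384) (l 16729080)) (a (l 16731800) (c (l 16729784) (l 16727944))))))))), by decide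 +kernel⟩

def k77_A00pm_012_s1 : ∃ t, chk3 f_A00pm_012_s1 t 81 127 1 = true :=
  ⟨(b (c (l 22) (c (a (a (a (b (l 16734376) (l 16733776)) (l 22)) (l 22)) (l 22)) (a (b (a (l 16729960) (l 16729752)) (a (l 16729544) (l 16729312))) (b (a (l 16729552) (l 16729376)) (a (l 16729088) (l 16728888)))))) (c (l 22) (b (a (c (a (c (l 22) (l 16732104)) (l 22)) (a (c (l 16730112) (l 16728128)) (c (l 16729872) (l 16727848)))) (c (l 22) (a (c (l 16729640) (l 16727592)) (c (l 16729424) (l 16727344))))) (c (c (l 22) (a (a (a (a (l 16731616) (l 22)) (l 22)) (l 22)) (l 22))) (a (b (a (l 16728784) (l 16728512)) (a (c (l 16729496) (l 16727624)) (c (l 16729224) (l 16727320)))) (b (a (l 16730864) (c (l 16729000) (l 16726992))) (a (c (l 16728960) (l 16727032)) (c (b (l 16728784) (l 16728640)) (l 16726752))))))))), by decide +kernel⟩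

def k78_A00pm_012_s1 : ∃ t, chk3 f_A00pm_012_s1 t 41 30 1 = true :=
  ⟨(b (c (a (b (l 16924064) (l 16922128)) (a (a (l 16944968) (l 17037224)) (a (l 17045472) (l 16990752)))) (a (b (a (b (l 16813496) (l 16803536)) (b (l 16787608) (l 16820520))) (a (b (l 16833792) (l 16820176)) (b (l 16809904) (l 16839456)))) (a (b (b (l 16803472) (l 16795328)) (b (l 16785728) (l 16774480))) (a (b (a (l 16809640) (l 16813552)) (a (l 16791600) (l 16795976))) (b (a (a (a (l 16815936) (a (l 16816600) (l 16837984))) (l 16818272)) (l 16821416)) (a (a (a (l 16882544) (a (l 16799400) (l 16799872))) (l 16801272)) (l 16804768))))))) (c (b (a (a (l 16905400) (l 17009240)) (a (l 17028672) (a (l 17042880) (l 17052200)))) (a (a (l 16891184) (l 16997568)) (a (l 17019368) (a (l 17035248) (a (l 16959112) (l 17048168)))))) (a (b (b (a (l 16804400) (l 16825064)) (a (l 16786192) (l 16808448))) (b (a (l 16765264) (l 16789320)) (l 16743872))) (b (a (b (l 16845296) (l 16830168)) (a (a (l 16850856) (l 16813904)) (a (a (b (l 16803080)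 (l 16789472)) (l 16861904)) (l 16865848)))) (a (b (l 16812744) (l 16750800)) (a (a (l 16776032) (l 16760856)) (a (a (a (l 16743448) (b (l 16837368) (a (l 16819008) (l 16735824)))) (l 16767912)) (l 16772408)))))))), by decide +kernel⟩

def k79_A00pm_012_s1 : ∃ t, chk3 f_A00pm_012_s1 t 82 31 1 = true :=
  ⟨(b (c (a (c (b (l 17015288) (b (l 16998088) (l 16983080))) (b (b (l 16897936) (l 16795776)) (b (b (l 16779960) (l 16768424)) (a (l 16740888) (l 16757848))))) (c (b (l 17040104) (l 16935944)) (b (b (l 16923752) (l 16823704)) (b (a (l 16797280) (l 16896080)) (l 16740624))))) (b (b (b (l 16740488) (l 16739344)) (a (b (l 16738392) (l 16731992)) (b (l 16738144) (a (l 16731816) (l 16731848))))) (c (b (a (b (b (l 16739552) (l 16739136)) (l 16738584)) (a (l 16732096) (l 16737872))) (a (a (l 16737584) (l 16737664)) (a (l 16737760) (l 16737856)))) (b (a (b (b (l 16733272) (l 16730288)) (a (l 16732480) (l 16732528))) (a (l 16732864) (l 16732928))) (a (a (l 16731832) (l 16731832)) (a (l 16731848) (l 16731880)))))))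 (b (b (a (c (c (l 16880824) (a (l 16731960) (l 16740032))) (a (b (l 16733856) (l 16733296)) (b (l 16733856) (l 16733264)))) (c (c (l 16997232) (a (l 16737168) (l 16765328))) (a (b (l 16733864) (l 16733248)) (b (l 16733888) (l 16733240))))) (c (l 22) (c (l 22) (a (b (l 16730144) (a (l 16729712) (l 16729592))) (a (l 16729760) (l 16729680)))))) (b (c (l 22) (c (l 22) (a (b (a (l 16729208) (l 16729064)) (a (l 16728696) (l 16728520))) (b (a (l 16728928) (l 16728808)) (a (l 16728360) (l 16728216)))))) (a (c (l 22) (c (l 22) (b (a (b (l 16728304) (l 16728032)) (b (l 16728104) (l 16727824))) (b (a (c (l 16728784) (l 16726744)) (c (l 22) (l 16726504))) (a (c (b (l 16728560) (l 16728408)) (l 16726488)) (c (l 22) (l 16726240))))))) (c (l 22) (c (l 22) (c (l 22) (b (a (l 16726696) (l 16726504)) (a (b (l 16726288) (b (l 16726080) (l 16725944))) (b (l 16726080) (a (l 16725848) (l 16725736)))))))))))), by decide +kernel⟩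

def k80_A00pm_012_s1 : ∃ t, chk3 f_A00pm_012_s1 t 83 62 1 = true :=
  ⟨(c (b (b (a (l 16924008) (a (l 17025408) (l 16953024))) (a (l 16830008) (a (l 17016456) (l 16944728)))) (c (a (l 17047352) (a (l 17067168) (l 17080000))) (a (b (l 16833984) (c (l 16934072) (l 16736336))) (a (a (l 16842856) (l 16850016)) (a (a (a (l 16938312) (b (l 16948280) (a (l 16930584) (l 16931472)))) (l 16942664)) (l 16948000)))))) (a (a (b (b (l 16742096) (b (l 16732824) (l 16737216))) (b (l 16730976) (l 16729680))) (b (b (l 16734656) (c (l 16730960) (l 16734392))) (b (l 16736352) (l 16735000)))) (b (b (a (a (l 16744696) (l 16730384)) (a (a (a (l 16755440) (a (l 16798592) (l 16757424))) (l 16801448)) (l 16806456))) (a (a (l 16720416) (l 16727680)) (a (a (a (l 16774112) (a (l 16775432) (l 16734360))) (l 16778552)) (l 16783952)))) (b (a (a (l 16736448) (l 16732288)) (a (a (a (l 16747640) (a (l 16749080) (l 16739544))) (l 16752464)) (l 16758304))) (a (a (l 16735048) (l 16735064)) (a (a (a (l 16735056) (a (l 16735032) (b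 (l 16735368) (l 16734648)))) (l 16735024)) (l 16735104))))))), by decide +kernel⟩

def k81_A00pm_012_s1 : ∃ t, chk3 f_A00pm_012_s1 t 83 63 1 = true :=
  ⟨(a (b (c (c (b (l 17028168) (l 16927624)) (b (a (l 16782576) (l 16799408)) (l 22))) (b (a (b (l 16733920) (l 16733248)) (b (l 16733960) (l 22))) (a (b (l 16732560) (l 16731864)) (l 22)))) (a (a (c (l 22) (c (l 22) (a (b (l 16728440) (b (l 16727512) (c (l 22) (l 16725808)))) (l 22)))) (l 22)) (l 22))) (c (c (c (b (a (l 17082192) (l 17096632)) (a (l 22) (a (l 22) (l 17072424)))) (b (a (l 16962552) (b (l 17027464) (l 22))) (l 22))) (b (a (b (a (l 16895632) (l 16819832)) (l 22)) (b (b (a (a (a (l 16914144) (a (l 16915584) (l 16916528))) (l 16918968)) (l 16924832)) (l 22)) (l 22))) (l 22))) (b (b (b (a (a (l 16733976) (l 16733984)) (a (a (a (l 16733960) (a (l 16733944) (l 16739168))) (l 16733928)) (l 16733984))) (l 22)) (l 22)) (l 22)))), by decide +kernel⟩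

def k82_A00pm_012_s1 : ∃ t, chk3 f_A00pm_012_s1 t 21 30 1 = true :=
  ⟨(c (a (b (a (l 16990184) (l 17105536)) (b (l 17093424) (l 16965384))) (b (l 17149736) (c (l 17208328) (l 17116920)))) (b (a (b (a (a (l 16852808) (l 16848312)) (l 16872528)) (a (b (l 16829624) (l 16821008)) (l 16861264))) (b (a (l 16987688) (l 17017720)) (a (l 16979416) (l 17012120)))) (b (a (a (b (l 16810904) (l 16883024)) (l 16845168)) (a (l 16967008) (l 17002992))) (c (a (b (l 16942008) (l 16846928)) (l 17018768)) (a (a (b (l 16818072) (l 16799256)) (l 16740216)) (a (l 16742288) (l 16941064))))))), by decide +kernel⟩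

def k83_A00pm_012_s1 : ∃ t, chk3 f_A00pm_012_s1 t 21 31 1 = true :=
  ⟨(c (a (a (b (b (l 16977952) (b (l 16966264) (l 16871968))) (c (b (l 17010248) (b (l 17074520) (c (l 17101248) (l 22)))) (b (b (a (l 16855272) (l 16969312)) (l 22)) (l 22)))) (b (b (l 17105488) (l 17010656)) (c (b (l 17147360) (l 17044160)) (b (b (l 17012016) (l 16912336)) (c (b (l 17016592) (l 22)) (l 22)))))) (b (b (l 17165024) (l 17077152)) (c (b (l 17218096) (l 17124848)) (b (a (l 17058944) (l 17108600)) (a (b (l 17038176) (c (l 17060424) (l 22))) (l 17002904)))))) (b (a (a (b (b (l 16752016) (l 16736984)) (a (b (l 16735544) (l 16749912)) (b (l 16765328) (l 16740176)))) (b (b (l 16801824) (l 16743160)) (b (l 16734504) (a (l 16729144) (l 16758824))))) (c (b (a (l 16981120) (l 17024184)) (a (b (l 16962984) (l 16948312)) (l 17004488))) (b (b (l 16733496) (l 16728880)) (a (b (l 16758976) (l 16737656)) (b (l 16894296) (l 16792656)))))) (a (b (b (b (a (a (l 16734176) (l 16761000)) (l 16736216)) (l 22)) (l 22)) (l 22)) (c (b (a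 (b (l 16847392) (l 22)) (b (l 16984824) (l 16885064))) (a (l 22) (c (b (l 16986208) (l 22)) (l 22)))) (b (b (a (b (l 16719848) (l 22)) (l 16730568)) (l 22)) (l 22)))))), by decide +kernel⟩

def k84_A00pm_012_s1 : ∃ t, chk3 f_A00pm_012_s1 t 11 7 1 = true :=
  ⟨(b (b (b (a (a (l 17063488) (l 17100712)) (l 17150392)) (a (a (l 16999632) (l 17122576)) (l 17174408))) (b (a (a (c (l 17151480) (l 17052768)) (l 17144080)) (l 17198840)) (a (a (c (l 17178192) (l 16975504)) (l 17164384)) (l 17223232)))) (b (b (a (a (a (l 16950376) (l 17144872)) (l 17098224)) (l 17162848)) (a (c (l 17167224) (a (b (l 17053304) (l 16961128)) (l 17112784))) (c (l 17341992) (l 17193088)))) (a (c (a (b (l 17131576) (b (l 17236592) (a (l 17208080) (l 17251584)))) (b (l 17298064) (b (l 17307528) (l 17309192)))) (b (a (a (b (l 16928688) (a (l 16813048) (l 16919544))) (b (l 17051608) (l 16951832))) (b (l 17105128) (c (l 17146920) (l 17042680)))) (a (c (b (a (l 17027888) (l 17074328)) (a (b (l 17006568) (c (l 17025320) (l 22))) (b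 (l 17057536) (l 17043824)))) (b (a (b (l 16826744) (l 22)) (b (l 16960536) (l 16860904))) (a (l 22) (c (b (l 16959552) (l 22)) (l 22))))) (c (b (l 17136808) (a (l 17098848) (l 17142456))) (b (a (l 17000264) (l 17043816)) (a (b (l 16978744) (c (l 16994680) (l 22))) (b (l 17026208) (l 17012224)))))))) (c (a (b (l 17350064) (l 17370776)) (b (l 17393608) (l 17422328))) (a (c (b (l 17212600) (b (l 17208768) (l 17201112))) (b (b (l 17123544) (l 17115344)) (b (l 17019096) (a (l 16980280) (l 17106000))))) (b (c (l 17266016) (l 17179904)) (b (l 17221520) (l 6)))))))), by decide +kernel⟩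

def k85_A00pm_012_s1 : ∃ t, chk3 f_A00pm_012_s1 t 3 1 1 = true :=
  ⟨(b (a (b (l 2) (b (l 2) (a (a (l 17021416) (l 2)) (l 2)))) (l 2)) (b (a (a (a (b (b (l 17058632) (l 17089912)) (b (l 17125304) (l 17168288))) (b (l 17176048) (b (l 17165168) (l 17208200)))) (b (l 17406720) (b (l 17204960) (l 17330552)))) (l 6)) (a (b (a (a (b (l 17217616) (l 17187632)) (b (l 17258992) (l 17315600))) (l 6)) (a (a (b (a (l 17312632) (l 17342336)) (l 6)) (l 6)) (l 6))) (l 6)))), by decide +kernel⟩

theorem t86_A00pm_012_s1 : ∃ t, chk3 f_A00pm_012_s1 t 21 15 1 = true := ex3_b k82_A00pm_012_s1 k83_A00pm_012_s1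

theorem t87_A00pm_012_s1 : ∃ t, chk3 f_A00pm_012_s1 t 83 31 1 = true := ex3_b k80_A00pm_012_s1 k81_A00pm_012_s1

theorem t88_A00pm_012_s1 : ∃ t, chk3 f_A00pm_012_s1 t 41 31 1 = true := ex3_a k79_A00pm_012_s1 t87_A00pm_012_s1

theorem t89_A00pm_012_s1 : ∃ t, chk3 f_A00pm_012_s1 t 41 15 1 = true := ex3_b k78_A00pm_012_s1 t88_A00pm_012_s1

theorem t90_A00pm_012_s1 : ∃ t, chk3 f_A00pm_012_s1 t 40 127 1 = true := ex3_a k76_A00pm_012_s1 k77_A00pm_012_s1

theorem t91_A00pm_012_s1 : ∃ t, chk3 f_A00pm_012_s1 t 40 63 1 = true := ex3_b k75_A00pm_012_s1 t90_A00pm_012_s1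

theorem t92_A00pm_012_s1 : ∃ t, chk3 f_A00pm_012_s1 t 40 62 1 = true := ex3_b k73_A00pm_012_s1 k74_A00pm_012_s1

theorem t93_A00pm_012_s1 : ∃ t, chk3 f_A00pm_012_s1 t 40 31 1 = true := ex3_b t92_A00pm_012_s1 t91_A00pm_012_s1

theorem t94_A00pm_012_s1 : ∃ t, chk3 f_A00pm_012_s1 t 40 15 1 = true := ex3_b k72_A00pm_012_s1 t93_A00pm_012_s1

theorem t95_A00pm_012_s1 : ∃ t, chk3 f_A00pm_012_s1 t 20 15 1 = true := ex3_a t94_A00pm_012_s1 t89_A00pm_012_s1

theorem t96_A00pm_012_s1 : ∃ t, chk3 f_A00pm_012_s1 t 10 15 1 = true := ex3_a t95_A00pm_012_s1 t86_A00pm_012_s1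

theorem t97_A00pm_012_s1 : ∃ t, chk3 f_A00pm_012_s1 t 20 14 1 = true := ex3_a k69_A00pm_012_s1 k70_A00pm_012_s1

theorem t98_A00pm_012_s1 : ∃ t, chk3 f_A00pm_012_s1 t 10 14 1 = true := ex3_a t97_A00pm_012_s1 k71_A00pm_012_s1

theorem t99_A00pm_012_s1 : ∃ t, chk3 f_A00pm_012_s1 t 10 7 1 = true := ex3_b t98_A00pm_012_s1 t96_A00pm_012_s1

theorem t100_A00pm_012_s1 : ∃ t, chk3 f_A00pm_012_s1 t 5 7 1 = true := ex3_a t99_A00pm_012_s1 k84_A00pm_012_s1

theorem t101_A00pm_012_s1 : ∃ t, chk3 f_A00pm_012_s1 t 41 6 1 = true := ex3_a k65_A00pm_012_s1 k66_A00pm_012_s1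

theorem t102_A00pm_012_s1 : ∃ t, chk3 f_A00pm_012_s1 t 20 6 1 = true := ex3_a k64_A00pm_012_s1 t101_A00pm_012_s1

theorem t103_A00pm_012_s1 : ∃ t, chk3 f_A00pm_012_s1 t 10 6 1 = true := ex3_a t102_A00pm_012_s1 k67_A00pm_012_s1

theorem t104_A00pm_012_s1 : ∃ t, chk3 f_A00pm_012_s1 t 5 6 1 = true := ex3_a t103_A00pm_012_s1 k68_A00pm_012_s1

theorem t105_A00pm_012_s1 : ∃ t, chk3 f_A00pm_012_s1 t 5 3 1 = true := ex3_b t104_A00pm_012_s1 t100_A00pm_012_s1

theorem t106_A00pm_012_s1 : ∃ t, chk3 f_A00pm_012_s1 t 39 127 1 = true := ex3_a k62_A00pm_012_s1 k63_A00pm_012_s1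

theorem t107_A00pm_012_s1 : ∃ t, chk3 f_A00pm_012_s1 t 39 63 1 = true := ex3_b k61_A00pm_012_s1 t106_A00pm_012_s1

theorem t108_A00pm_012_s1 : ∃ t, chk3 f_A00pm_012_s1 t 38 127 1 = true := ex3_a k59_A00pm_012_s1 k60_A00pm_012_s1

theorem t109_A00pm_012_s1 : ∃ t, chk3 f_A00pm_012_s1 t 38 63 1 = true := ex3_b k58_A00pm_012_s1 t108_A00pm_012_s1

theorem t110_A00pm_012_s1 : ∃ t, chk3 f_A00pm_012_s1 t 19 63 1 = true := ex3_a t109_A00pm_012_s1 t107_A00pm_012_s1

theorem t111_A00pm_012_s1 : ∃ t, chk3 f_A00pm_012_s1 t 19 62 1 = true := ex3_a k56_A00pm_012_s1 k57_A00pm_012_s1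

theorem t112_A00pm_012_s1 : ∃ t, chk3 f_A00pm_012_s1 t 19 31 1 = true := ex3_b t111_A00pm_012_s1 t110_A00pm_012_s1

theorem t113_A00pm_012_s1 : ∃ t, chk3 f_A00pm_012_s1 t 37 127 2 = true := ex3_a k53_A00pm_012_s1 k54_A00pm_012_s1

theorem t114_A00pm_012_s1 : ∃ t, chk3 f_A00pm_012_s1 t 37 63 2 = true := ex3_b k52_A00pm_012_s1 t113_A00pm_012_s1

theorem t115_A00pm_012_s1 : ∃ t, chk3 f_A00pm_012_s1 t 37 63 1 = true := ex3_c t114_A00pm_012_s1 k55_A00pm_012_s1

theorem t116_A00pm_012_s1 : ∃ t, chk3 f_A00pm_012_s1 t 37 31 1 = true := ex3_b k51_A00pm_012_s1 t115_A00pm_012_s1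

theorem t117_A00pm_012_s1 : ∃ t, chk3 f_A00pm_012_s1 t 36 255 1 = true := ex3_c k49_A00pm_012_s1 k50_A00pm_012_s1

theorem t118_A00pm_012_s1 : ∃ t, chk3 f_A00pm_012_s1 t 36 127 1 = true := ex3_b k48_A00pm_012_s1 t117_A00pm_012_s1

theorem t119_A00pm_012_s1 : ∃ t, chk3 f_A00pm_012_s1 t 36 63 1 = true := ex3_b k47_A00pm_012_s1 t118_A00pm_012_s1

theorem t120_A00pm_012_s1 : ∃ t, chk3 f_A00pm_012_s1 t 36 31 1 = true := ex3_b k46_A00pm_012_s1 t119_A00pm_012_s1

theorem t121_A00pm_012_s1 : ∃ t, chk3 f_A00pm_012_s1 t 18 31 1 = true := ex3_a t120_A00pm_012_s1 t116_A00pm_012_s1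

theorem t122_A00pm_012_s1 : ∃ t, chk3 f_A00pm_012_s1 t 9 31 1 = true := ex3_a t121_A00pm_012_s1 t112_A00pm_012_s1

theorem t123_A00pm_012_s1 : ∃ t, chk3 f_A00pm_012_s1 t 35 255 1 = true := ex3_a k44_A00pm_012_s1 k45_A00pm_012_s1

theorem t124_A00pm_012_s1 : ∃ t, chk3 f_A00pm_012_s1 t 35 127 1 = true := ex3_b k43_A00pm_012_s1 t123_A00pm_012_s1

theorem t125_A00pm_012_s1 : ∃ t, chk3 f_A00pm_012_s1 t 35 63 1 = true := ex3_b k42_A00pm_012_s1 t124_A00pm_012_s1

theorem t126_A00pm_012_s1 : ∃ t, chk3 f_A00pm_012_s1 t 17 63 1 = true := ex3_a k41_A00pm_012_s1 t125_A00pm_012_s1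

theorem t127_A00pm_012_s1 : ∃ t, chk3 f_A00pm_012_s1 t 70 124 1 = true := ex3_b k37_A00pm_012_s1 k38_A00pm_012_s1

theorem t128_A00pm_012_s1 : ∃ t, chk3 f_A00pm_012_s1 t 70 62 1 = true := ex3_b t127_A00pm_012_s1 k39_A00pm_012_s1

theorem t129_A00pm_012_s1 : ∃ t, chk3 f_A00pm_012_s1 t 35 62 1 = true := ex3_a t128_A00pm_012_s1 k40_A00pm_012_s1

theorem t130_A00pm_012_s1 : ∃ t, chk3 f_A00pm_012_s1 t 69 62 1 = true := ex3_b k35_A00pm_012_s1 k36_A00pm_012_s1

theorem t131_A00pm_012_s1 : ∃ t, chk3 f_A00pm_012_s1 t 68 62 1 = true := ex3_b k33_A00pm_012_s1 k34_A00pm_012_s1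

theorem t132_A00pm_012_s1 : ∃ t, chk3 f_A00pm_012_s1 t 34 62 1 = true := ex3_a t131_A00pm_012_s1 t130_A00pm_012_s1

theorem t133_A00pm_012_s1 : ∃ t, chk3 f_A00pm_012_s1 t 17 62 1 = true := ex3_a t132_A00pm_012_s1 t129_A00pm_012_s1

theorem t134_A00pm_012_s1 : ∃ t, chk3 f_A00pm_012_s1 t 17 31 1 = true := ex3_b t133_A00pm_012_s1 t126_A00pm_012_s1

theorem t135_A00pm_012_s1 : ∃ t, chk3 f_A00pm_012_s1 t 67 124 1 = true := ex3_a k29_A00pm_012_s1 k30_A00pm_012_s1

theorem t136_A00pm_012_s1 : ∃ t, chk3 f_A00pm_012_s1 t 33 124 1 = true := ex3_a k28_A00pm_012_s1 t135_A00pm_012_s1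

theorem t137_A00pm_012_s1 : ∃ t, chk3 f_A00pm_012_s1 t 33 62 1 = true := ex3_b t136_A00pm_012_s1 k31_A00pm_012_s1

theorem t138_A00pm_012_s1 : ∃ t, chk3 f_A00pm_012_s1 t 16 62 1 = true := ex3_a k27_A00pm_012_s1 t137_A00pm_012_s1

theorem t139_A00pm_012_s1 : ∃ t, chk3 f_A00pm_012_s1 t 16 31 1 = true := ex3_b t138_A00pm_012_s1 k32_A00pm_012_s1

theorem t140_A00pm_012_s1 : ∃ t, chk3 f_A00pm_012_s1 t 8 31 1 = true := ex3_a t139_A00pm_012_s1 t134_A00pm_012_s1

theorem t141_A00pm_012_s1 : ∃ t, chk3 f_A00pm_012_s1 t 4 31 1 = true := ex3_a t140_A00pm_012_s1 t122_A00pm_012_s1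

theorem t142_A00pm_012_s1 : ∃ t, chk3 f_A00pm_012_s1 t 19 30 1 = true := ex3_a k25_A00pm_012_s1 k26_A00pm_012_s1

theorem t143_A00pm_012_s1 : ∃ t, chk3 f_A00pm_012_s1 t 36 61 1 = true := ex3_c k22_A00pm_012_s1 k23_A00pm_012_s1

theorem t144_A00pm_012_s1 : ∃ t, chk3 f_A00pm_012_s1 t 36 30 1 = true := ex3_b k21_A00pm_012_s1 t143_A00pm_012_s1

theorem t145_A00pm_012_s1 : ∃ t, chk3 f_A00pm_012_s1 t 18 30 1 = true := ex3_a t144_A00pm_012_s1 k24_A00pm_012_s1

theorem t146_A00pm_012_s1 : ∃ t, chk3 f_A00pm_012_s1 t 9 30 1 = true := ex3_a t145_A00pm_012_s1 t142_A00pm_012_s1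

theorem t147_A00pm_012_s1 : ∃ t, chk3 f_A00pm_012_s1 t 71 61 1 = true := ex3_a k19_A00pm_012_s1 k20_A00pm_012_s1

theorem t148_A00pm_012_s1 : ∃ t, chk3 f_A00pm_012_s1 t 35 61 1 = true := ex3_a k18_A00pm_012_s1 t147_A00pm_012_s1

theorem t149_A00pm_012_s1 : ∃ t, chk3 f_A00pm_012_s1 t 35 30 1 = true := ex3_b k17_A00pm_012_s1 t148_A00pm_012_s1

theorem t150_A00pm_012_s1 : ∃ t, chk3 f_A00pm_012_s1 t 34 61 1 = true := ex3_a k15_A00pm_012_s1 k16_A00pm_012_s1

theorem t151_A00pm_012_s1 : ∃ t, chk3 f_A00pm_012_s1 t 34 30 1 = true := ex3_b k14_A00pm_012_s1 t150_A00pm_012_s1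

theorem t152_A00pm_012_s1 : ∃ t, chk3 f_A00pm_012_s1 t 17 30 1 = true := ex3_a t151_A00pm_012_s1 t149_A00pm_012_s1

theorem t153_A00pm_012_s1 : ∃ t, chk3 f_A00pm_012_s1 t 8 30 1 = true := ex3_a k13_A00pm_012_s1 t152_A00pm_012_s1

theorem t154_A00pm_012_s1 : ∃ t, chk3 f_A00pm_012_s1 t 4 30 1 = true := ex3_a t153_A00pm_012_s1 t146_A00pm_012_s1

theorem t155_A00pm_012_s1 : ∃ t, chk3 f_A00pm_012_s1 t 4 15 1 = true := ex3_b t154_A00pm_012_s1 t141_A00pm_012_s1

theorem t156_A00pm_012_s1 : ∃ t, chk3 f_A00pm_012_s1 t 19 29 1 = true := ex3_a k11_A00pm_012_s1 k12_A00pm_012_s1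

theorem t157_A00pm_012_s1 : ∃ t, chk3 f_A00pm_012_s1 t 19 14 1 = true := ex3_b k10_A00pm_012_s1 t156_A00pm_012_s1

theorem t158_A00pm_012_s1 : ∃ t, chk3 f_A00pm_012_s1 t 18 14 1 = true := ex3_a k8_A00pm_012_s1 k9_A00pm_012_s1

theorem t159_A00pm_012_s1 : ∃ t, chk3 f_A00pm_012_s1 t 9 14 1 = true := ex3_a t158_A00pm_012_s1 t157_A00pm_012_s1

theorem t160_A00pm_012_s1 : ∃ t, chk3 f_A00pm_012_s1 t 4 14 1 = true := ex3_a k7_A00pm_012_s1 t159_A00pm_012_s1

theorem t161_A00pm_012_s1 : ∃ t, chk3 f_A00pm_012_s1 t 4 7 1 = true := ex3_b t160_A00pm_012_s1 t155_A00pm_012_s1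

theorem t162_A00pm_012_s1 : ∃ t, chk3 f_A00pm_012_s1 t 4 3 1 = true := ex3_b k6_A00pm_012_s1 t161_A00pm_012_s1

theorem t163_A00pm_012_s1 : ∃ t, chk3 f_A00pm_012_s1 t 2 3 1 = true := ex3_a t162_A00pm_012_s1 t105_A00pm_012_s1

theorem t164_A00pm_012_s1 : ∃ t, chk3 f_A00pm_012_s1 t 20 5 1 = true := ex3_b k2_A00pm_012_s1 k3_A00pm_012_s1

theorem t165_A00pm_012_s1 : ∃ t, chk3 f_A00pm_012_s1 t 10 5 1 = true := ex3_a t164_A00pm_012_s1 k4_A00pm_012_s1

theorem t166_A00pm_012_s1 : ∃ t, chk3 f_A00pm_012_s1 t 5 5 1 = true := ex3_a t165_A00pm_012_s1 k5_A00pm_012_s1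

theorem t167_A00pm_012_s1 : ∃ t, chk3 f_A00pm_012_s1 t 5 2 1 = true := ex3_b k1_A00pm_012_s1 t166_A00pm_012_s1

theorem t168_A00pm_012_s1 : ∃ t, chk3 f_A00pm_012_s1 t 2 2 1 = true := ex3_a k0_A00pm_012_s1 t167_A00pm_012_s1

theorem t169_A00pm_012_s1 : ∃ t, chk3 f_A00pm_012_s1 t 2 1 1 = true := ex3_b t168_A00pm_012_s1 t163_A00pm_012_s1

theorem t170_A00pm_012_s1 : ∃ t, chk3 f_A00pm_012_s1 t 1 1 1 = true := ex3_a t169_A00pm_012_s1 k85_A00pm_012_s1

theorem c_A00pm_012_s1 : CertF 0 536870912 536870912 536870912 134217728 67108864 true true false .pnp 0 1 2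
    ndF0q0 ndF0q1 pcF2 cut_A00pm_012_s1 xt_A00pm_012_s1 :=
  certFK2 (fam := true) (s1 := true) (s2 := false) (a := 0) (b := 1) (c := 2) (cn := .pnp) (n1 := ndF0q0) (n2 := ndF0q1) (pc := pcF2) (cut := cut_A00pm_012_s1) (xt := xt_A00pm_012_s1) (P1 := 0) (W1 := 536870912) (P2 := 536870912) (W2 := 536870912) (P3 := 134217728) (W3 := 67108864)
    rfl rfl rfl (fun _ => rfl) t170_A00pm_012_s1

theorem s_A00pm_012_s1 {κ x : ℝ} (hκ : κ * h0 = ken x) (hx : ((134217728 : ℕ) : ℝ) / S ≤ x)
    (hx' : x ≤ (((134217728 : ℕ) : ℝ) + (67108864 : ℕ)) / S)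
    (H : CutA (VF κ) PP tKF tL pcF (Cut.of [[⟨0, 0, 0, 53687091⟩, ⟨1, 1, 0, 53687091⟩, ⟨2, 1, 0, 53687091⟩], [⟨0, 0, 1, 41943040⟩, ⟨1, 1, 0, 16777216⟩, ⟨2, 1, 1, 41943040⟩]]) 0 1 2 0 0 (sgb true) (sgb false) x) :
    AltA (VF κ) PP tKF tL pcF [⟨3, 0, 0, 1449551462⟩] 0 1 2 0 0 (sgb true) (sgb false) x :=
  strip_altA (m := 1449551462) true rfl hκ covF00 covF01 hx hx' c_A00pm_012_s1 H ((okx hx hx').extA (T := tt) (sideF hx hx') hκ rfl rfl (.O 0 true) (.O 1 false) rfl)

end Pool.Agent.Strip051.G.I1_8_3_16.Tab.St.C
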