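import Pool.Agent.Strip051.G.I1_8_3_16.StF

/-! # Unit strips 2 (generated) -/

set_option linter.all false
set_option maxRecDepth 100000

namespace Pool.Agent.Strip051.G.I1_8_3_16.Tab.St.C

open Pool.Agent.Strip051.PB Pool.Agent.Strip051.PB.T Pool.Agent.StripNear Pool.Agent.Strip051.LC
open Pool.Agent.Strip051.G.I1_8_3_16.Tab Pool.Agent.Strip051.G.I1_8_3_16.Tab.St

noncomputable def cut_A00pm_012_s3 : Cut := Cut.of [[⟨3, 0, 0, 2845415833⟩], [⟨0, 0, 0, 53687091⟩, ⟨1, 1, 0, 53687091⟩, ⟨2, 1, 0, 53687091⟩], [⟨0, 0, 1, 41943040⟩, ⟨1, 1, 0, 16777216⟩, ⟨2, 1, 1, 41943040⟩]]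

noncomputable def f_A00pm_012_s3 : ℕ → ℕ → ℕ → ℕ → Bool := onCell 0 536870912 536870912 536870912 134217728 67108864
    (rowFK 0 true true false .pnp 0 1 2 (qsf 0 536870912 536870912 536870912 2) ndF0q0 ndF0q1 pcF2 cut_A00pm_012_s3 Ext.none)

def k0_A00pm_012_s3 : ∃ t, chk3 f_A00pm_012_s3 t 1 1 1 = true :=
  ⟨(l 6), by decide +kernel⟩

theorem c_A00pm_012_s3 : CertF 0 536870912 536870912 536870912 134217728 67108864 true true false .pnp 0 1 2
    ndF0q0 ndF0q1 pcF2 cut_A00pm_012_s3 Ext.none :=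
  certFK0 (fam := true) (s1 := true) (s2 := false) (a := 0) (b := 1) (c := 2) (cn := .pnp) (n1 := ndF0q0) (n2 := ndF0q1) (pc := pcF2) (cut := cut_A00pm_012_s3) (xt := Ext.none) (P1 := 0) (W1 := 536870912) (P2 := 536870912) (W2 := 536870912) (P3 := 134217728) (W3 := 67108864)
    rfl rfl rfl k0_A00pm_012_s3

theorem s_A00pm_012_s3 {κ x : ℝ} (hκ : κ * h0 = ken x) (hx : ((134217728 : ℕ) : ℝ) / S ≤ x)
    (hx' : x ≤ (((134217728 : ℕ) : ℝ) + (67108864 : ℕ)) / S)
    (H : CutA (VF κ) PP tKF tL pcF (Cut.of [[⟨0, 0, 0, 53687091⟩, ⟨1, 1, 0, 53687091⟩, ⟨2, 1, 0, 53687091⟩], [⟨0, 0, 1, 41943040⟩, ⟨1, 1, 0, 16777216⟩, ⟨2, 1, 1, 41943040⟩]]) 0 1 2 0 0 (sgb true) (sgb false) x) :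
    AltA (VF κ) PP tKF tL pcF [⟨4, 0, 0, 2845415833⟩] 0 1 2 0 0 (sgb true) (sgb false) x :=
  strip_altA (m := 2845415833) false rfl hκ covF00 covF01 hx hx' c_A00pm_012_s3 H (noExt_A)

noncomputable def cut_A00pm_022_s1 : Cut := Cut.of [[⟨4, 0, 0, 1449551462⟩], [⟨0, 0, 0, 67108864⟩, ⟨1, 1, 0, 67108864⟩, ⟨2, 1, 0, 67108864⟩], [⟨0, 0, 1, 41943040⟩, ⟨1, 1, 0, 16777216⟩, ⟨2, 1, 1, 41943040⟩]]

noncomputable def f_A00pm_022_s1 : ℕ → ℕ → ℕ → ℕ → Bool := onCell 1073741824 536870912 0 536870912 134217728 67108864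
    (rowFK 2 true true false .pp 0 2 2 (qsf 0 536870912 0 536870912 2) ndF0q0 ndF0q2 pcF2 cut_A00pm_022_s1 Ext.none)

def k0_A00pm_022_s1 : ∃ t, chk3 f_A00pm_022_s1 t 2 2 1 = true :=
  ⟨(a (a (l 1) (l 6)) (l 6)), by decide +kernel⟩

def k1_A00pm_022_s1 : ∃ t, chk3 f_A00pm_022_s1 t 4 6 1 = true :=
  ⟨(a (l 1) (a (a (b (l 1) (b (l 1) (a (l 1) (b (a (l 1) (l 16661152)) (b (a (l 16673688) (c (l 16648264) (l 16618112))) (c (c (l 16646600) (l 16641992)) (l 16635712))))))) (b (l 1) (a (a (b (l 1) (b (l 16630632) (l 16662648))) (b (b (l 1) (a (l 1) (l 16639712))) (b (a (l 16630544) (l 16653480)) (a (l 16665424) (l 16667144))))) (b (b (a (l 1) (b (l 1) (l 16627744))) (a (b (a (l 16679192) (l 16636552)) (l 16632776)) (a (l 16639448) (l 16680768)))) (a (b (l 16643048) (a (l 16667864) (l 16667192))) (b (l 16651888) (l 16655032))))))) (b (l 6) (a (a (b (b (a (b (l 6) (l 16668480)) (l 6)) (a (l 16636952) (l 16635520))) (a (b (l 16650704) (l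 16664360)) (b (l 16638824) (c (l 16699048) (l 16668400))))) (b (b (l 6) (a (l 16633736) (l 16673712))) (a (b (l 16647608) (l 16661376)) (b (l 16687680) (l 16701552))))) (b (l 6) (a (b (l 16662160) (l 16655368)) (b (l 16679376) (l 16693776)))))))), by decide +kernel⟩

def k2_A00pm_022_s1 : ∃ t, chk3 f_A00pm_022_s1 t 8 7 1 = true :=
  ⟨(b (a (l 1) (b (a (l 1) (a (l 1) (a (b (l 1) (b (l 1) (l 14))) (b (l 1) (c (b (c (a (l 16673040) (l 16668824)) (l 16667216)) (l 16680744)) (l 16673576)))))) (a (l 14) (a (l 14) (a (l 14) (a (l 14) (b (b (l 16687544) (l 16689048)) (b (l 16690464) (l 16697288))))))))) (b (a (l 14) (a (l 14) (a (l 14) (a (l 14) (a (l 14) (b (b (l 16705760) (l 16703792)) (b (l 16712344) (l 16720920)))))))) (a (l 14) (b (a (l 14) (a (l 14) (a (l 14) (a (l 14) (c (b (l 16719208) (l 16738640)) (b (l 16718792) (l 16727056))))))) (b (a (l 14) (a (l 14) (a (l 14) (a (l 14) (c (b (l 16734848) (l 16739312)) (l 16735320)))))) (b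 (a (l 14) (a (l 14) (a (l 14) (a (l 14) (a (l 14) (c (l 16743648) (l 16741360))))))) (a (l 14) (a (l 14) (a (l 14) (a (l 14) (a (l 14) (b (c (l 16746976) (l 16744448)) (a (l 14) (a (l 14) (a (l 14) (c (l 16749072) (l 16746352))))))))))))))))), by decide +kernel⟩

def k3_A00pm_022_s1 : ∃ t, chk3 f_A00pm_022_s1 t 36 14 1 = true :=
  ⟨(b (b (a (c (a (b (l 1) (c (l 16671776) (l 16657240))) (b (l 16659488) (l 16692488))) (a (l 16661088) (l 16652552))) (c (a (l 16661880) (l 16673816)) (l 16654968))) (c (a (a (b (l 16671096) (l 16682904)) (l 16673760)) (a (l 16686072) (l 16685664))) (a (l 16661272) (l 16669312)))) (b (c (a (a (a (l 16686840) (l 16682728)) (l 16676512)) (a (l 16678368) (l 16701344))) (a (a (l 16700928) (l 16702192)) (a (l 16703824) (l 16705592)))) (a (c (b (l 16677872) (l 16686384)) (a (l 16695448) (l 16696448))) (c (b (l 16691312) (l 16688840)) (a (l 16697568) (l 16698824)))))), by decide +kernel⟩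

def k4_A00pm_022_s1 : ∃ t, chk3 f_A00pm_022_s1 t 36 30 1 = true :=
  ⟨(b (a (c (b (c (l 16694304) (l 16685032)) (c (l 16697840) (l 16693424))) (a (l 16711304) (l 16711792))) (c (b (l 16696880) (l 16704960)) (a (l 16701928) (l 16702664)))) (b (a (c (c (l 16706640) (l 16701848)) (l 16702344)) (c (c (l 16702464) (l 16702680)) (l 16702816))) (a (c (c (l 16720696) (l 16710288)) (l 16720752)) (c (c (l 16710784) (l 16710616)) (l 16715464))))), by decide +kernel⟩

def k5_A00pm_022_s1 : ∃ t, chk3 f_A00pm_022_s1 t 36 62 1 = true :=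
  ⟨(c (a (a (b (l 16724240) (c (l 16738536) (l 16727456))) (b (l 16729328) (c (l 16727704) (l 16726992)))) (b (c (l 16724344) (l 16718568)) (c (a (l 16727488) (l 16727408)) (a (l 16726648) (l 16726440))))) (a (b (a (l 16718416) (l 16718024)) (c (l 16736992) (l 16725776))) (b (a (l 16717752) (l 16717584)) (a (l 16725312) (l 16724896))))), by decide +kernel⟩

def k6_A00pm_022_s1 : ∃ t, chk3 f_A00pm_022_s1 t 36 126 1 = true :=
  ⟨(a (c (c (a (b (l 16734744) (l 16739200)) (b (l 16734208) (l 16738544))) (a (l 16741280) (l 16740560))) (a (c (l 16735064) (l 16734072)) (c (l 16734224) (l 16733104)))) (c (a (c (b (l 16733808) (l 16738016)) (l 16739968)) (c (b (l 16733544) (l 16737624)) (l 16739496))) (a (c (l 16733504) (l 16732248)) (c (l 16732888) (l 16731504))))), by decide +kernel⟩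

def k7_A00pm_022_s1 : ∃ t, chk3 f_A00pm_022_s1 t 36 127 2 = true :=
  ⟨(b (a (c (a (c (l 16743944) (l 16743352)) (c (l 16743200) (l 16742544))) (a (l 16742456) (l 16741552))) (c (a (c (l 16742576) (l 16741856)) (c (l 16742096) (l 16741304))) (a (l 16740760) (l 16740104)))) (a (a (b (c (c (l 16747312) (l 16746656)) (l 16745664)) (c (b (c (l 16748992) (l 16748304)) (a (a (l 16750152) (l 16749888)) (a (l 16749632) (l 16749392)))) (b (l 16747264) (a (a (l 16748768) (l 16748472)) (a (l 16748192) (l 16747912)))))) (a (b (c (l 16746320) (l 16744904)) (a (c (l 16748608) (l 16747120)) (c (l 16748384) (l 16746864)))) (b (c (l 16745912) (l 16744432)) (a (c (l 16748160) (l 16746608)) (c (l 16747952) (l 16746368)))))) (c (b (a (c (l 16745760) (l 16744968)) (c (l 16745184) (l 16744320))) (a (a (a (l 16747752) (l 16747560)) (a (l 16749992) (l 16749816))) (a (c (b (l 16746872) (l 16747904)) (l 16746496)) (c (b (l 16746592) (l 16747608)) (l 16746176)))))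 (b (a (l 16743776) (l 16743024)) (a (a (a (l 16746128) (l 16745904)) (a (l 16745680) (l 16745472))) (b (c (l 16744928) (l 16744032)) (a (b (l 16745408) (l 16745896)) (a (l 16745360) (l 16745168))))))))), by decide +kernel⟩

def k8_A00pm_022_s1 : ∃ t, chk3 f_A00pm_022_s1 t 36 127 3 = true :=
  ⟨(b (a (c (a (l 16741240) (l 16740208)) (b (l 16738432) (l 16740376))) (c (a (l 16739288) (l 16738488)) (a (l 16737800) (l 16736848)))) (b (a (c (a (l 16744320) (l 16743192)) (a (l 16742968) (l 16741720))) (c (a (l 16742184) (l 16741280)) (a (l 16740568) (l 16739528)))) (b (a (c (a (l 16745864) (l 16744688)) (a (l 16747072) (l 16743152))) (c (a (l 16743624) (l 16742672)) (a (l 16741952) (l 16740864)))) (a (c (a (a (a (l 16747376) (l 16747048)) (a (l 16746736) (l 16746424))) (a (a (l 16746128) (l 16745832)) (a (l 16745544) (l 16745264)))) (a (a (a (l 16745968) (l 16745616)) (a (l 16745264) (l 16744928))) (a (a (l 16744592) (l 16744272)) (a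 (l 16743952) (l 16743632))))) (c (a (a (a (l 16744992) (l 16744720)) (l 16746952)) (a (l 16746464) (l 16743376))) (a (a (l 16743176) (l 16742584)) (c (l 16742216) (l 16741288)))))))), by decide +kernel⟩

def k9_A00pm_022_s1 : ∃ t, chk3 f_A00pm_022_s1 t 37 14 1 = true :=
  ⟨(a (a (b (b (l 16676912) (l 16670256)) (b (l 16684624) (c (l 16697752) (l 16700200)))) (b (b (a (l 16679304) (l 16680784)) (a (l 16693232) (l 16673496))) (b (b (l 16682784) (l 16689768)) (c (l 16699096) (b (l 16697968) (l 16704616)))))) (a (b (c (b (l 16676952) (l 16670416)) (b (l 16663064) (l 16675888))) (b (c (l 16684912) (l 16688768)) (c (l 16699472) (c (l 16701224) (l 16702152))))) (b (b (b (l 16675704) (l 16682520)) (c (l 16689560) (l 16674728))) (b (c (l 16704184) (l 16687600)) (c (l 16697904) (l 16700536)))))), by decide +kernel⟩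

def k10_A00pm_022_s1 : ∃ t, chk3 f_A00pm_022_s1 t 37 30 1 = true :=
  ⟨(b (a (a (c (l 16702592) (l 16703528)) (c (c (l 16703256) (l 16714216)) (b (l 16711296) (l 16697048)))) (a (c (c (l 16703400) (l 16714344)) (a (l 16704752) (l 16693728))) (b (l 16709720) (l 16706224)))) (a (b (a (l 16714112) (c (l 16704264) (l 16714296))) (a (c (l 16711416) (l 16710504)) (c (l 16711792) (l 16721088)))) (b (a (c (l 16704224) (l 16703688)) (l 16713240)) (a (c (l 16711632) (l 16720816)) (l 16720288))))), by decide +kernel⟩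

def k11_A00pm_022_s1 : ∃ t, chk3 f_A00pm_022_s1 t 37 62 1 = true :=
  ⟨(a (a (b (c (l 16719168) (l 16717544)) (c (c (l 16727472) (l 16726352)) (l 16724584))) (b (c (l 16729808) (a (l 16717592) (l 16717608))) (c (a (l 16727000) (l 16727048)) (a (l 16724440) (l 16724336))))) (b (a (a (a (l 16718632) (l 16718360)) (l 16717896)) (c (l 16717848) (l 16715800))) (a (a (c (l 16726856) (l 16724040)) (l 16724912)) (b (l 16722152) (l 16725688))))), by decide +kernel⟩

def k12_A00pm_022_s1 : ∃ t, chk3 f_A00pm_022_s1 t 37 63 4 = true :=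
  ⟨(a (b (a (b (l 16733408) (l 16737368)) (b (l 16733272) (l 16742360))) (b (a (c (l 16741752) (l 16740880)) (a (l 16741120) (l 16741000))) (b (a (c (l 16744744) (l 16743800)) (a (l 16744000) (c (l 16744368) (l 16743320)))) (b (a (c (c (l 16746480) (l 16745992)) (l 16745264)) (a (c (l 16745960) (l 16744928)) (c (l 16745800) (l 16744720)))) (a (c (c (a (l 16747592) (l 16747376)) (a (l 16747104) (l 16746864))) (a (l 16746376) (l 16746104))) (a (c (c (l 16747192) (l 16746664)) (l 16745872)) (a (c (l 16746808) (l 16745720)) (c (a (l 16746760) (l 16746728)) (l 16745624))))))))) (b (a (b (l 16732840) (l 16741880)) (b (l 16731776) (l 16735616))) (b (a (a (l 16740736) (l 16740256)) (l 16744696)) (b (a (a (a (l 16743688) (l 16743456)) (l 16743088)) (a (l 16742656) (l 16742224))) (b (a (a (a (l 16745096) (l 16744864)) (l 16744504)) (a (l 16744080) (l 16743656))) (a (a (a (c (b (l 16746360) (l 16746832)) (l 16745464)) (l 16745808)) (a (l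 16748208) (l 16747992))) (b (a (l 16744784) (l 16744376)) (a (c (l 16745864) (l 16744664)) (c (l 16745464) (l 16744240)))))))))), by decide +kernel⟩

def k13_A00pm_022_s1 : ∃ t, chk3 f_A00pm_022_s1 t 37 63 5 = true :=
  ⟨(b (a (a (b (l 16732016) (l 16735792)) (a (l 16733736) (l 16733632))) (a (b (l 16731184) (l 16740032)) (b (l 16730080) (l 16733704)))) (b (a (a (c (l 16740000) (l 16739120)) (a (l 16739248) (l 16739048))) (a (a (l 16738720) (l 16738192)) (l 16742576))) (a (b (a (c (l 16742856) (l 16741912)) (a (l 16742000) (l 16741752))) (b (a (c (l 16744288) (l 16743312)) (a (l 16743368) (c (l 16743640) (l 16742568)))) (a (a (a (l 16744992) (l 16744824)) (a (l 16744656) (l 16744504))) (a (c (l 16744816) (l 16743752)) (a (l 16744088) (l 16746576)))))) (a (b (a (l 16741400) (l 16740888)) (a (a (a (l 16743392) (l 16743264)) (l 16743072)) (b (l 16742232) (l 16743128)))) (b (l 16740048) (b (l 16744024) (a (l 16742648) (l 16742176)))))))),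 by decide +kernel⟩

def k14_A00pm_022_s1 : ∃ t, chk3 f_A00pm_022_s1 t 37 63 3 = true :=
  ⟨(b (a (a (c (l 16732400) (l 16730856)) (a (l 16736528) (b (l 16729376) (l 16732736)))) (a (a (b (l 16729024) (l 16732352)) (l 16730112)) (b (l 16727464) (l 16730792)))) (b (a (a (c (l 16737800) (l 16736016)) (a (l 16741656) (c (l 16737080) (l 16735104)))) (a (a (c (l 16736688) (l 16734640)) (l 16735080)) (a (l 16734520) (l 16733968)))) (a (a (b (c (l 16740496) (l 16738592)) (c (b (l 16741840) (c (l 16743240) (l 16742240))) (a (l 16740544) (l 16740072)))) (b (a (c (l 16739984) (l 16737960)) (c (l 16739656) (l 16737552))) (c (a (b (l 16741296) (l 16742168)) (a (l 16741472) (l 16741304))) (a (l 16739624) (l 16741808))))) (a (b (a (c (l 16739240) (l 16737064)) (l 16737560)) (a (a (c (l 16741088) (l 16738848)) (l 16739672)) (b (l 16738808) (l 16739632)))) (a (b (l 16737000) (b (l 16738248) (l 16739072))) (b (l 16736456) (b (l 16737696) (l 16738520)))))))),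 by decide +kernel⟩

def k15_A00pm_022_s1 : ∃ t, chk3 f_A00pm_022_s1 t 38 14 1 = true :=
  ⟨(b (a (a (b (c (l 16673472) (l 16682088)) (c (l 16688112) (l 16673896))) (b (c (l 16671784) (l 16660160)) (c (l 16686536) (l 16672920)))) (b (c (l 16656560) (a (l 16679904) (l 16636608))) (a (l 16667960) (l 16687368)))) (a (c (a (b (l 16702824) (l 16696632)) (b (l 16701352) (l 16695272))) (a (b (l 16686728) (l 16699624)) (b (l 16685736) (c (l 16697880) (l 16688816))))) (a (b (a (l 16682568) (l 16702792)) (c (l 16714768) (l 16697472))) (b (l 16680368) (l 16694400))))), by decide +kernel⟩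

def k16_A00pm_022_s1 : ∃ t, chk3 f_A00pm_022_s1 t 38 30 1 = true :=
  ⟨(a (b (a (b (l 16708648) (l 16705160)) (c (l 16710264) (b (l 16687368) (l 16693912)))) (a (b (l 16712192) (l 16719248)) (b (c (l 16700600) (l 16700496)) (c (l 16708184) (l 16707104))))) (a (b (b (l 16685304) (l 16692368)) (b (l 16699464) (l 16717072))) (b (b (l 16684016) (l 16691128)) (b (l 16698280) (l 16705456))))), by decide +kernel⟩

def k17_A00pm_022_s1 : ∃ t, chk3 f_A00pm_022_s1 t 38 62 1 = true :=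
  ⟨(a (a (b (c (l 16716816) (l 16714776)) (b (l 16721136) (l 16724672))) (b (c (l 16715768) (l 16713728)) (c (l 16733848) (a (l 16720792) (l 16720256))))) (b (a (c (l 16714704) (l 16712648)) (l 16712656)) (a (b (l 16719088) (l 16722672)) (b (l 16718072) (l 16721688))))), by decide +kernel⟩

def k18_A00pm_022_s1 : ∃ t, chk3 f_A00pm_022_s1 t 38 126 1 = true :=
  ⟨(a (a (b (c (l 16729984) (l 16726400)) (c (l 16733744) (l 16729728))) (c (b (l 16729056) (l 16732848)) (b (l 16725360) (l 16733936)))) (a (b (c (l 16728144) (l 16724328)) (c (l 16731984) (l 16727672))) (b (l 16730552) (c (l 16731160) (l 16726688))))), by decide +kernel⟩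

def k19_A00pm_022_s1 : ∃ t, chk3 f_A00pm_022_s1 t 38 254 1 = true :=
  ⟨(a (a (c (b (l 16736560) (l 16738440)) (b (l 16732224) (l 16733888))) (a (c (l 16736968) (l 16732376)) (c (l 16736544) (l 16731864)))) (a (c (b (l 16734872) (l 16742040)) (b (l 16730184) (l 16731864))) (c (b (l 16734080) (l 16736032)) (b (l 16729216) (l 16730912))))), by decide +kernel⟩

def k20_A00pm_022_s1 : ∃ t, chk3 f_A00pm_022_s1 t 38 255 1 = true :=
  ⟨(b (a (a (c (a (l 16740640) (l 16740208)) (a (l 16735912) (l 16735384))) (c (a (l 16739792) (c (l 16740640) (l 16738136))) (a (l 16734864) (l 16734360)))) (a (a (c (l 16744232) (l 16733864)) (c (l 16743856) (l 16733376))) (c (c (l 22) (l 16741888)) (c (l 16733952) (l 16731248))))) (a (a (a (b (c (c (l 16743256) (l 16740816)) (l 16737152)) (c (c (b (l 16743976) (a (l 16744576) (l 16747000))) (l 16741720)) (l 16743224))) (b (c (c (l 16742856) (l 16740368)) (l 16736632)) (c (c (b (l 16743584) (c (l 22) (l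 16743424))) (l 16743904)) (c (l 16738728) (l 16736184))))) (a (b (c (c (l 16742480) (l 16739936)) (l 16736112)) (c (c (b (l 16743208) (c (l 22) (l 16743040))) (l 16743472)) (c (l 16738248) (l 16735640)))) (a (b (c (c (l 16742224) (l 16739640)) (l 16735752)) (c (c (c (l 22) (l 16742536)) (l 16740552)) (c (l 16737904) (l 16735256)))) (b (c (c (l 16742040) (l 16739424)) (l 16735504)) (c (c (c (l 22) (l 16742352)) (l 16740344)) (l 16736336)))))) (c (b (a (c (a (l 16741752) (l 22)) (a (l 16739096) (l 16738696))) (c (l 22) (a (l 16738312) (l 16737936)))) (c (a (a (a (c (l 22) (l 16742168)) (l 22)) (l 22)) (l 22)) (b (a (a (l 16739792) (l 16739400)) (a (l 16739016) (l 16738640))) (a (a (c (l 16740936) (l 16739568)) (c (l 16740560) (l 16739168))) (a (c (l 16740192) (l 16738768)) (c (l 16739840) (l 16738392))))))) (a (a (c (l 16739496) (l 16734184)) (b (l 16734632) (a (l 16740848) (l 16740608)))) (a (b (l 16734160) (c (l 16736416) (l 16733592)))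 (b (l 16733704) (c (l 16735992) (l 16733104)))))))), by decide +kernel⟩

def k21_A00pm_022_s1 : ∃ t, chk3 f_A00pm_022_s1 t 39 14 1 = true :=
  ⟨(b (a (b (l 16669536) (l 16683760)) (b (l 16708168) (a (l 16724304) (l 16722584)))) (b (a (a (l 16699824) (l 16698280)) (l 16695184)) (a (a (l 16693008) (l 16712560)) (b (l 16706104) (l 16713416))))), by decide +kernel⟩

def k22_A00pm_022_s1 : ∃ t, chk3 f_A00pm_022_s1 t 39 30 1 = true :=
  ⟨(a (b (a (l 16707272) (l 16705984)) (b (l 16711608) (a (l 16704328) (l 16703216)))) (b (b (l 16720768) (l 16707200)) (b (l 16714656) (l 16722160)))), by decide +kernel⟩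

def k23_A00pm_022_s1 : ∃ t, chk3 f_A00pm_022_s1 t 39 62 1 = true :=
  ⟨(a (b (a (l 16711608) (l 16710576)) (a (l 16729400) (l 16728456))) (b (a (l 16709576) (l 16708608)) (a (l 16727552) (l 16726688)))), by decide +kernel⟩

def k24_A00pm_022_s1 : ∃ t, chk3 f_A00pm_022_s1 t 39 63 1 = true :=
  ⟨(b (b (a (a (l 16724400) (l 16723528)) (a (l 16722704) (l 16721912))) (a (a (c (l 16730368) (l 16725744)) (c (l 16729624) (l 16724832))) (a (c (l 16728928) (l 16723968)) (c (l 16728280) (l 16723144))))) (b (a (c (c (l 22) (a (l 16733040) (l 16732312))) (a (l 16734392) (l 16733512))) (c (c (l 22) (a (l 16731632) (l 16731000))) (a (l 16737928) (l 16737144)))) (b (a (a (c (a (l 16742776) (l 16742440)) (c (l 16733104) (l 16730296))) (c (c (l 22) (l 16735216)) (c (l 16732312) (l 16729400)))) (c (a (c (l 22) (l 16734584)) (l 22)) (a (c (l 16731568) (l 16728544)) (c (l 16730872) (l 16727736))))) (a (b (a (c (c (l 22) (a (l 16737576) (l 16737224)))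 (c (l 16734440) (l 16731528))) (c (c (l 22) (a (l 16736888) (l 16736568))) (c (l 16733656) (l 16730640)))) (c (c (l 22) (b (a (a (l 16738288) (l 16737944)) (a (l 16737608) (l 16737296))) (c (a (a (l 16739504) (l 22)) (l 22)) (a (a (l 16738024) (l 16737664)) (a (l 16737328) (l 16737000)))))) (a (a (c (l 16735584) (l 16732632)) (c (l 16735184) (l 16732176))) (a (c (l 16734792) (l 16731736)) (c (l 16737040) (l 16731304)))))) (b (c (a (c (l 22) (a (l 16736256) (l 22))) (l 22)) (a (c (l 16732928) (l 16729800)) (c (l 16734880) (l 16729008)))) (a (b (c (c (l 22) (a (l 16736992) (l 22))) (c (a (l 16733832) (l 16733488)) (l 16730424))) (a (c (c (l 22) (c (l 22) (l 16736680))) (c (l 16734288) (l 16731088))) (c (l 22) (c (l 16736560) (l 16730688))))) (c (l 22) (a (c (a (l 16733472) (l 16733304)) (l 16730088)) (c (a (l 16733144) (l 16732992)) (l 16729704)))))))))), by decide +kernel⟩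

def k25_A00pm_022_s1 : ∃ t, chk3 f_A00pm_022_s1 t 20 6 1 = true :=
  ⟨(a (b (l 6) (b (l 6) (a (b (l 6) (l 16690072)) (l 6)))) (l 6)), by decide +kernel⟩

def k26_A00pm_022_s1 : ∃ t, chk3 f_A00pm_022_s1 t 40 7 1 = true :=
  ⟨(b (b (a (b (l 16704712) (l 16719416)) (b (l 16701304) (l 16716264))) (b (a (l 16692232) (l 16731312)) (a (b (l 16745304) (l 16752760)) (b (l 16742640) (l 16750256))))) (b (a (b (c (l 16699744) (l 16702248)) (b (l 16712536) (l 16720216))) (b (c (l 16697480) (l 16721000)) (b (l 16731544) (l 16718448)))) (b (b (a (a (l 16707680) (l 16706792)) (c (l 16717104) (l 16704056))) (a (a (l 16725864) (l 16725080)) (a (l 16724352) (l 16723680)))) (b (c (a (b (l 16733440) (l 22)) (l 22)) (a (a (l 16720584) (l 16719832)) (a (l 16729616) (l 16728960)))) (b (c (l 22) (a (a (l 16736416) (l 16735728)) (a (b (l 16723696) (l 16725536)) (b (l 16723112) (l 16724968))))) (b (c (l 22) (a (a (c (l 16730232) (l 16726984)) (c (l 16729640)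 (l 16726280))) (a (c (l 16729104) (l 16725632)) (c (l 22) (l 16725040))))) (a (b (c (l 22) (a (c (a (l 16731816) (l 16731520)) (l 16728272)) (c (a (l 16731232) (l 16730960)) (l 16727584)))) (c (l 22) (b (a (c (a (l 16732520) (l 16732224)) (l 16728912)) (c (a (l 16731944) (l 16731672)) (a (l 16728432) (l 16728104)))) (a (c (a (c (l 16733840) (l 16732128)) (c (l 22) (l 16731816))) (a (l 16729552) (l 16729200))) (c (c (l 22) (a (l 16731528) (l 16731248))) (a (l 16728864) (l 16728536))))))) (b (c (l 22) (a (c (a (l 16730696) (l 22)) (l 16726952)) (c (l 22) (a (l 16726536) (l 16726256))))) (c (l 22) (c (a (a (a (c (l 22) (l 16730816)) (l 22)) (l 22)) (l 22)) (a (a (l 16730624) (a (l 16727784) (l 16727640))) (a (a (l 16727496) (l 16727360)) (a (l 16727224) (l 16727088)))))))))))))), by decide +kernel⟩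

def k27_A00pm_022_s1 : ∃ t, chk3 f_A00pm_022_s1 t 41 14 1 = true :=
  ⟨(a (b (b (l 16698336) (l 16713528)) (b (a (l 16729432) (l 16728176)) (a (l 16744808) (l 16743696)))) (b (b (l 6) (a (l 16711792) (a (l 16711384) (c (l 16829432) (l 16715872))))) (a (b (l 16727256) (l 16742888)) (b (a (l 16726872) (c (l 16750944) (l 16729936))) (a (l 16742528) (b (l 16738272) (b (l 16744184) (l 16748152)))))))), by decide +kernel⟩

def k28_A00pm_022_s1 : ∃ t, chk3 f_A00pm_022_s1 t 41 30 1 = true :=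
  ⟨(a (a (b (l 16718456) (l 16713360)) (b (l 16717512) (a (l 16733752) (l 16733384)))) (b (a (c (l 16789056) (l 16675744)) (a (b (l 16754416) (l 16762456)) (a (a (a (l 16758304) (b (l 16754408) (l 16720488))) (l 16758408)) (l 16758168)))) (a (b (l 16728912) (l 16737088)) (a (c (b (l 16837600) (l 16845096)) (l 16710984)) (a (a (a (l 16732608) (a (l 16732656) (b (l 16686664) (l 16736792)))) (l 16732672)) (l 16732496)))))), by decide +kernel⟩

def k29_A00pm_022_s1 : ∃ t, chk3 f_A00pm_022_s1 t 41 31 1 = true :=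
  ⟨(b (c (b (a (a (l 16714320) (l 16767736)) (a (l 16733896) (a (l 16769416) (a (a (a (l 16866160) (a (l 16868328) (l 16785904))) (l 16873296)) (l 16881576))))) (l 22)) (a (b (l 16723592) (a (l 16710400) (l 16709768))) (a (b (l 16701680) (l 16709264)) (b (a (l 16701304) (a (a (a (l 16701088) (l 16711600)) (l 16701056)) (l 16700920))) (a (l 16719424) (a (a (a (l 16708752) (a (l 16708752) (l 16708752))) (l 16708712)) (l 16708600))))))) (c (l 22) (b (c (a (b (l 16727600) (l 22)) (l 22)) (a (a (l 16716400) (l 16715816)) (a (b (l 16713496) (l 16717168)) (a (b (l 16713144) (l 16727336)) (a (a (a (l 16714800) (a (l 16714792) (l 16725264))) (l 16714744)) (l 16714648)))))) (a (b (c (l 22) (a (l 16721792) (l 16721280))) (b (c (l 22) (a (l 16724504) (a (l 16724136) (l 16723912)))) (b (c (l 22) (a (a (l 16725992) (l 16725744)) (a (l 16725512) (l 16725296)))) (b (c (l 22) (a (a (l 16726672) (l 16726424)) (a (l 16726200) (l 16728608)))) (c (l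 22) (c (a (a (l 16728104) (l 22)) (l 22)) (a (a (l 16726144) (l 16725888)) (a (l 16725648) (l 16725424))))))))) (c (l 22) (c (l 22) (a (b (a (l 16720000) (l 16719776)) (c (l 22) (a (b (l 16722224) (a (l 16724064) (l 16723960))) (b (l 16722008) (l 22))))) (b (a (a (l 16719600) (l 16719520)) (l 22)) (l 22))))))))), by decide +kernel⟩

def k30_A00pm_022_s1 : ∃ t, chk3 f_A00pm_022_s1 t 21 3 1 = true :=
  ⟨(b (l 6) (b (b (a (l 6) (l 6)) (a (a (b (l 16745680) (b (l 16672832) (l 16680912))) (b (l 16764744) (l 16775888))) (b (l 6) (a (l 16778696) (l 6))))) (b (b (a (a (c (l 16825648) (l 16673136)) (b (l 16785736) (l 16793080))) (a (b (l 16870136) (l 16792048)) (l 16779000))) (a (a (b (l 16750856) (a (l 16695352) (l 16743312))) (b (l 16717184) (l 16746816))) (c (a (l 16984800) (l 17130416)) (a (l 16745800) (l 16784904))))) (b (a (b (a (c (l 16761368) (l 16699928)) (c (l 16922176) (l 16698600))) (a (c (b (l 16850552) (l 16770408)) (l 16718272))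 (c (l 16843888) (l 22)))) (c (a (c (l 17163888) (l 16904832)) (l 17052320)) (b (a (l 16720984) (l 16799640)) (l 22)))) (c (a (c (a (c (l 17003912) (l 22)) (a (l 17093120) (l 17125176))) (l 22)) (b (a (l 16915840) (l 17142224)) (c (l 17199192) (a (b (l 17004960) (l 16925160)) (l 17068688))))) (b (a (a (b (l 16713736) (l 22)) (l 22)) (l 22)) (l 22))))))), by decide +kernel⟩

def k31_A00pm_022_s1 : ∃ t, chk3 f_A00pm_022_s1 t 11 3 1 = true :=
  ⟨(b (l 6) (b (l 6) (a (b (a (b (a (l 16844392) (l 6)) (c (l 17210200) (a (l 16857176) (l 16921824)))) (l 6)) (c (a (b (l 17130288) (a (l 17112760) (l 17243456))) (b (l 17300200) (l 17305024))) (b (a (b (a (l 16870008) (l 16933176)) (a (l 16795544) (l 16857712))) (a (l 16826000) (l 6))) (b (a (c (a (l 16965712) (l 17023360)) (l 22)) (a (l 16922120) (l 17056080))) (a (c (a (b (l 16972576) (l 16893480)) (l 17031696)) (l 22)) (c (l 17106792) (a (b (l 16944392) (l 16865864)) (l 16999400)))))))) (a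 (a (a (b (l 6) (b (l 6) (b (l 6) (l 17056968)))) (l 6)) (l 6)) (l 6))))), by decide +kernel⟩

def k32_A00pm_022_s1 : ∃ t, chk3 f_A00pm_022_s1 t 3 1 1 = true :=
  ⟨(b (l 6) (l 6)), by decide +kernel⟩

theorem t33_A00pm_022_s1 : ∃ t, chk3 f_A00pm_022_s1 t 41 15 1 = true := ex3_b k28_A00pm_022_s1 k29_A00pm_022_s1

theorem t34_A00pm_022_s1 : ∃ t, chk3 f_A00pm_022_s1 t 41 7 1 = true := ex3_b k27_A00pm_022_s1 t33_A00pm_022_s1

theorem t35_A00pm_022_s1 : ∃ t, chk3 f_A00pm_022_s1 t 20 7 1 = true := ex3_a k26_A00pm_022_s1 t34_A00pm_022_s1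

theorem t36_A00pm_022_s1 : ∃ t, chk3 f_A00pm_022_s1 t 20 3 1 = true := ex3_b k25_A00pm_022_s1 t35_A00pm_022_s1

theorem t37_A00pm_022_s1 : ∃ t, chk3 f_A00pm_022_s1 t 10 3 1 = true := ex3_a t36_A00pm_022_s1 k30_A00pm_022_s1

theorem t38_A00pm_022_s1 : ∃ t, chk3 f_A00pm_022_s1 t 5 3 1 = true := ex3_a t37_A00pm_022_s1 k31_A00pm_022_s1

theorem t39_A00pm_022_s1 : ∃ t, chk3 f_A00pm_022_s1 t 39 31 1 = true := ex3_b k23_A00pm_022_s1 k24_A00pm_022_s1

theorem t40_A00pm_022_s1 : ∃ t, chk3 f_A00pm_022_s1 t 39 15 1 = true := ex3_b k22_A00pm_022_s1 t39_A00pm_022_s1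

theorem t41_A00pm_022_s1 : ∃ t, chk3 f_A00pm_022_s1 t 39 7 1 = true := ex3_b k21_A00pm_022_s1 t40_A00pm_022_s1

theorem t42_A00pm_022_s1 : ∃ t, chk3 f_A00pm_022_s1 t 38 127 1 = true := ex3_b k19_A00pm_022_s1 k20_A00pm_022_s1

theorem t43_A00pm_022_s1 : ∃ t, chk3 f_A00pm_022_s1 t 38 63 1 = true := ex3_b k18_A00pm_022_s1 t42_A00pm_022_s1

theorem t44_A00pm_022_s1 : ∃ t, chk3 f_A00pm_022_s1 t 38 31 1 = true := ex3_b k17_A00pm_022_s1 t43_A00pm_022_s1

theorem t45_A00pm_022_s1 : ∃ t, chk3 f_A00pm_022_s1 t 38 15 1 = true := ex3_b k16_A00pm_022_s1 t44_A00pm_022_s1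

theorem t46_A00pm_022_s1 : ∃ t, chk3 f_A00pm_022_s1 t 38 7 1 = true := ex3_b k15_A00pm_022_s1 t45_A00pm_022_s1

theorem t47_A00pm_022_s1 : ∃ t, chk3 f_A00pm_022_s1 t 19 7 1 = true := ex3_a t46_A00pm_022_s1 t41_A00pm_022_s1

theorem t48_A00pm_022_s1 : ∃ t, chk3 f_A00pm_022_s1 t 37 63 2 = true := ex3_c k12_A00pm_022_s1 k13_A00pm_022_s1

theorem t49_A00pm_022_s1 : ∃ t, chk3 f_A00pm_022_s1 t 37 63 1 = true := ex3_c t48_A00pm_022_s1 k14_A00pm_022_s1

theorem t50_A00pm_022_s1 : ∃ t, chk3 f_A00pm_022_s1 t 37 31 1 = true := ex3_b k11_A00pm_022_s1 t49_A00pm_022_s1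

theorem t51_A00pm_022_s1 : ∃ t, chk3 f_A00pm_022_s1 t 37 15 1 = true := ex3_b k10_A00pm_022_s1 t50_A00pm_022_s1

theorem t52_A00pm_022_s1 : ∃ t, chk3 f_A00pm_022_s1 t 37 7 1 = true := ex3_b k9_A00pm_022_s1 t51_A00pm_022_s1

theorem t53_A00pm_022_s1 : ∃ t, chk3 f_A00pm_022_s1 t 36 127 1 = true := ex3_c k7_A00pm_022_s1 k8_A00pm_022_s1

theorem t54_A00pm_022_s1 : ∃ t, chk3 f_A00pm_022_s1 t 36 63 1 = true := ex3_b k6_A00pm_022_s1 t53_A00pm_022_s1

theorem t55_A00pm_022_s1 : ∃ t, chk3 f_A00pm_022_s1 t 36 31 1 = true := ex3_b k5_A00pm_022_s1 t54_A00pm_022_s1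

theorem t56_A00pm_022_s1 : ∃ t, chk3 f_A00pm_022_s1 t 36 15 1 = true := ex3_b k4_A00pm_022_s1 t55_A00pm_022_s1

theorem t57_A00pm_022_s1 : ∃ t, chk3 f_A00pm_022_s1 t 36 7 1 = true := ex3_b k3_A00pm_022_s1 t56_A00pm_022_s1

theorem t58_A00pm_022_s1 : ∃ t, chk3 f_A00pm_022_s1 t 18 7 1 = true := ex3_a t57_A00pm_022_s1 t52_A00pm_022_s1

theorem t59_A00pm_022_s1 : ∃ t, chk3 f_A00pm_022_s1 t 9 7 1 = true := ex3_a t58_A00pm_022_s1 t47_A00pm_022_s1

theorem t60_A00pm_022_s1 : ∃ t, chk3 f_A00pm_022_s1 t 4 7 1 = true := ex3_a k2_A00pm_022_s1 t59_A00pm_022_s1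

theorem t61_A00pm_022_s1 : ∃ t, chk3 f_A00pm_022_s1 t 4 3 1 = true := ex3_b k1_A00pm_022_s1 t60_A00pm_022_s1

theorem t62_A00pm_022_s1 : ∃ t, chk3 f_A00pm_022_s1 t 2 3 1 = true := ex3_a t61_A00pm_022_s1 t38_A00pm_022_s1

theorem t63_A00pm_022_s1 : ∃ t, chk3 f_A00pm_022_s1 t 2 1 1 = true := ex3_b k0_A00pm_022_s1 t62_A00pm_022_s1

theorem t64_A00pm_022_s1 : ∃ t, chk3 f_A00pm_022_s1 t 1 1 1 = true := ex3_a t63_A00pm_022_s1 k32_A00pm_022_s1

theorem c_A00pm_022_s1 : CertF 0 536870912 0 536870912 134217728 67108864 true true false .pp 0 2 2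
    ndF0q0 ndF0q2 pcF2 cut_A00pm_022_s1 Ext.none :=
  certFK2 (fam := true) (s1 := true) (s2 := false) (a := 0) (b := 2) (c := 2) (cn := .pp) (n1 := ndF0q0) (n2 := ndF0q2) (pc := pcF2) (cut := cut_A00pm_022_s1) (xt := Ext.none) (P1 := 0) (W1 := 536870912) (P2 := 0) (W2 := 536870912) (P3 := 134217728) (W3 := 67108864)
    rfl rfl rfl (fun _ => rfl) t64_A00pm_022_s1

theorem s_A00pm_022_s1 {κ x : ℝ} (hκ : κ * h0 = ken x) (hx : ((134217728 : ℕ) : ℝ) / S ≤ x)
    (hx' : x ≤ (((134217728 : ℕ) : ℝ) + (67108864 : ℕ)) / S)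
    (H : CutA (VF κ) PP tKF tL pcF (Cut.of [[⟨0, 0, 0, 67108864⟩, ⟨1, 1, 0, 67108864⟩, ⟨2, 1, 0, 67108864⟩], [⟨0, 0, 1, 41943040⟩, ⟨1, 1, 0, 16777216⟩, ⟨2, 1, 1, 41943040⟩]]) 0 2 2 0 0 (sgb true) (sgb false) x) :
    AltA (VF κ) PP tKF tL pcF [⟨3, 0, 0, 1449551462⟩] 0 2 2 0 0 (sgb true) (sgb false) x :=
  strip_altA (m := 1449551462) true rfl hκ covF00 covF02 hx hx' c_A00pm_022_s1 H (noExt_A)

noncomputable def cut_A00pm_022_s3 : Cut := Cut.of [[⟨3, 0, 0, 2845415833⟩], [⟨0, 0, 0, 67108864⟩, ⟨1, 1, 0, 67108864⟩, ⟨2, 1, 0, 67108864⟩], [⟨0, 0, 1, 41943040⟩, ⟨1, 1, 0, 16777216⟩, ⟨2, 1, 1, 41943040⟩]]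

noncomputable def f_A00pm_022_s3 : ℕ → ℕ → ℕ → ℕ → Bool := onCell 1073741824 536870912 0 536870912 134217728 67108864
    (rowFK 2 true true false .pp 0 2 2 (qsf 0 536870912 0 536870912 2) ndF0q0 ndF0q2 pcF2 cut_A00pm_022_s3 Ext.none)

def k0_A00pm_022_s3 : ∃ t, chk3 f_A00pm_022_s3 t 1 1 1 = true :=
  ⟨(a (l 6) (b (l 6) (l 6))), by decide +kernel⟩

theorem c_A00pm_022_s3 : CertF 0 536870912 0 536870912 134217728 67108864 true true false .pp 0 2 2
    ndF0q0 ndF0q2 pcF2 cut_A00pm_022_s3 Ext.none :=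
  certFK2 (fam := true) (s1 := true) (s2 := false) (a := 0) (b := 2) (c := 2) (cn := .pp) (n1 := ndF0q0) (n2 := ndF0q2) (pc := pcF2) (cut := cut_A00pm_022_s3) (xt := Ext.none) (P1 := 0) (W1 := 536870912) (P2 := 0) (W2 := 536870912) (P3 := 134217728) (W3 := 67108864)
    rfl rfl rfl (fun _ => rfl) k0_A00pm_022_s3

theorem s_A00pm_022_s3 {κ x : ℝ} (hκ : κ * h0 = ken x) (hx : ((134217728 : ℕ) : ℝ) / S ≤ x)
    (hx' : x ≤ (((134217728 : ℕ) : ℝ) + (67108864 : ℕ)) / S)
    (H : CutA (VF κ) PP tKF tL pcF (Cut.of [[⟨0, 0, 0, 67108864⟩, ⟨1, 1, 0, 67108864⟩, ⟨2, 1, 0, 67108864⟩], [⟨0, 0, 1, 41943040⟩, ⟨1, 1, 0, 16777216⟩, ⟨2, 1, 1, 41943040⟩]]) 0 2 2 0 0 (sgb true) (sgb false) x) :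
    AltA (VF κ) PP tKF tL pcF [⟨4, 0, 0, 2845415833⟩] 0 2 2 0 0 (sgb true) (sgb false) x :=
  strip_altA (m := 2845415833) false rfl hκ covF00 covF02 hx hx' c_A00pm_022_s3 H (noExt_A)

noncomputable def cut_A00pm_023_s1 : Cut := Cut.of [[⟨4, 0, 0, 1449551462⟩]]

noncomputable def f_A00pm_023_s1 : ℕ → ℕ → ℕ → ℕ → Bool := onCell 1610612736 536870912 0 536870912 134217728 67108864
    (rowFK 2 true true false .up 0 2 3 (qsf 0 536870912 0 536870912 3) ndF0q0 ndF0q2 pcF3 cut_A00pm_023_s1 Ext.none)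

def k0_A00pm_023_s1 : ∃ t, chk3 f_A00pm_023_s1 t 1 1 1 = true :=
  ⟨(l 6), by decide +kernel⟩

theorem c_A00pm_023_s1 : CertF 0 536870912 0 536870912 134217728 67108864 true true false .up 0 2 3
    ndF0q0 ndF0q2 pcF3 cut_A00pm_023_s1 Ext.none :=
  certFK2 (fam := true) (s1 := true) (s2 := false) (a := 0) (b := 2) (c := 3) (cn := .up) (n1 := ndF0q0) (n2 := ndF0q2) (pc := pcF3) (cut := cut_A00pm_023_s1) (xt := Ext.none) (P1 := 0) (W1 := 536870912) (P2 := 0) (W2 := 536870912) (P3 := 134217728) (W3 := 67108864)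
    rfl rfl rfl (fun _ => rfl) k0_A00pm_023_s1

theorem s_A00pm_023_s1 {κ x : ℝ} (hκ : κ * h0 = ken x) (hx : ((134217728 : ℕ) : ℝ) / S ≤ x)
    (hx' : x ≤ (((134217728 : ℕ) : ℝ) + (67108864 : ℕ)) / S) :
    AltA (VF κ) PP tKF tL pcF [⟨3, 0, 0, 1449551462⟩] 0 2 3 0 0 (sgb true) (sgb false) x :=
  strip_altA (m := 1449551462) true rfl hκ covF00 covF02 hx hx' c_A00pm_023_s1 cutA_nil (noExt_A)

noncomputable def cut_A00pm_023_s3 : Cut := Cut.of [[⟨3, 0, 0, 2845415833⟩]]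

noncomputable def xt_A00pm_023_s3 : Ext := strExt dd true true false .u0 .u2 .s2 .up 0 2 3 rfl rfl gl3 vv ndF0q0 ndF0q2

noncomputable def f_A00pm_023_s3 : ℕ → ℕ → ℕ → ℕ → Bool := onCell 0 536870912 0 536870912 134217728 67108864
    (rowFK 0 true true false .up 0 2 3 (qsf 0 536870912 0 536870912 3) ndF0q0 ndF0q2 pcF3 cut_A00pm_023_s3 xt_A00pm_023_s3)

def k0_A00pm_023_s3 : ∃ t, chk3 f_A00pm_023_s3 t 1 1 1 = true :=
  ⟨(a (l 1) (b (a (a (l 1) (b (b (a (l 1) (l 17346920)) (l 6)) (l 6))) (b (a (b (a (l 17260976) (l 17178432)) (l 6)) (b (a (l 17099888) (l 543719439)) (a (l 17233616) (l 17155568)))) (a (l 6) (l 6)))) (l 6))), by decide +kernel⟩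

theorem c_A00pm_023_s3 : CertF 0 536870912 0 536870912 134217728 67108864 true true false .up 0 2 3
    ndF0q0 ndF0q2 pcF3 cut_A00pm_023_s3 xt_A00pm_023_s3 :=
  certFK0 (fam := true) (s1 := true) (s2 := false) (a := 0) (b := 2) (c := 3) (cn := .up) (n1 := ndF0q0) (n2 := ndF0q2) (pc := pcF3) (cut := cut_A00pm_023_s3) (xt := xt_A00pm_023_s3) (P1 := 0) (W1 := 536870912) (P2 := 0) (W2 := 536870912) (P3 := 134217728) (W3 := 67108864)
    rfl rfl rfl k0_A00pm_023_s3

theorem s_A00pm_023_s3 {κ x : ℝ} (hκ : κ * h0 = ken x) (hx : ((134217728 : ℕ) : ℝ) / S ≤ x)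
    (hx' : x ≤ (((134217728 : ℕ) : ℝ) + (67108864 : ℕ)) / S) :
    AltA (VF κ) PP tKF tL pcF [⟨4, 0, 0, 2845415833⟩] 0 2 3 0 0 (sgb true) (sgb false) x :=
  strip_altA (m := 2845415833) false rfl hκ covF00 covF02 hx hx' c_A00pm_023_s3 cutA_nil ((okx hx hx').extA (T := tt) (sideF hx hx') hκ rfl rfl (.O 0 true) (.O 2 false) (Or.inr rfl))

noncomputable def cut_A00pm_101_s1 : Cut := Cut.of [[⟨4, 0, 0, 1449551462⟩], [⟨0, 1, 0, 67108864⟩, ⟨1, 0, 0, 67108864⟩, ⟨2, 1, 0, 67108864⟩]]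

noncomputable def f_A00pm_101_s1 : ℕ → ℕ → ℕ → ℕ → Bool := onCell 536870912 536870912 536870912 536870912 134217728 67108864
    (rowFK 1 true true false .npn 1 0 1 (qsf 536870912 536870912 0 536870912 1) ndF0q1 ndF0q0 pcF1 cut_A00pm_101_s1 Ext.none)

def k0_A00pm_101_s1 : ∃ t, chk3 f_A00pm_101_s1 t 1 1 1 = true :=
  ⟨(b (l 3) (a (l 3) (b (l 3) (a (l 3) (b (l 3) (a (l 3) (b (l 3) (a (l 3) (l 14))))))))), by decide +kernel⟩

theorem c_A00pm_101_s1 : CertF 536870912 536870912 0 536870912 134217728 67108864 true true false .npn 1 0 1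
    ndF0q1 ndF0q0 pcF1 cut_A00pm_101_s1 Ext.none :=
  certFK1 (fam := true) (s1 := true) (s2 := false) (a := 1) (b := 0) (c := 1) (cn := .npn) (n1 := ndF0q1) (n2 := ndF0q0) (pc := pcF1) (cut := cut_A00pm_101_s1) (xt := Ext.none) (P1 := 536870912) (W1 := 536870912) (P2 := 0) (W2 := 536870912) (P3 := 134217728) (W3 := 67108864)
    rfl rfl rfl (fun _ => rfl) k0_A00pm_101_s1

theorem s_A00pm_101_s1 {κ x : ℝ} (hκ : κ * h0 = ken x) (hx : ((134217728 : ℕ) : ℝ) / S ≤ x)
    (hx' : x ≤ (((134217728 : ℕ) : ℝ) + (67108864 : ℕ)) / S)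
    (H : CutA (VF κ) PP tKF tL pcF (Cut.of [[⟨0, 1, 0, 67108864⟩, ⟨1, 0, 0, 67108864⟩, ⟨2, 1, 0, 67108864⟩]]) 1 0 1 0 0 (sgb true) (sgb false) x) :
    AltA (VF κ) PP tKF tL pcF [⟨3, 0, 0, 1449551462⟩] 1 0 1 0 0 (sgb true) (sgb false) x :=
  strip_altA (m := 1449551462) true rfl hκ covF01 covF00 hx hx' c_A00pm_101_s1 H (noExt_A)

noncomputable def cut_A00pm_101_s3 : Cut := Cut.of [[⟨3, 0, 0, 2845415833⟩], [⟨0, 1, 0, 67108864⟩, ⟨1, 0, 0, 67108864⟩, ⟨2, 1, 0, 67108864⟩]]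

noncomputable def f_A00pm_101_s3 : ℕ → ℕ → ℕ → ℕ → Bool := onCell 536870912 536870912 0 536870912 134217728 67108864
    (rowFK 0 true true false .npn 1 0 1 (qsf 536870912 536870912 0 536870912 1) ndF0q1 ndF0q0 pcF1 cut_A00pm_101_s3 Ext.none)

def k0_A00pm_101_s3 : ∃ t, chk3 f_A00pm_101_s3 t 1 1 1 = true :=
  ⟨(l 6), by decide +kernel⟩

theorem c_A00pm_101_s3 : CertF 536870912 536870912 0 536870912 134217728 67108864 true true false .npn 1 0 1
    ndF0q1 ndF0q0 pcF1 cut_A00pm_101_s3 Ext.none :=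
  certFK0 (fam := true) (s1 := true) (s2 := false) (a := 1) (b := 0) (c := 1) (cn := .npn) (n1 := ndF0q1) (n2 := ndF0q0) (pc := pcF1) (cut := cut_A00pm_101_s3) (xt := Ext.none) (P1 := 536870912) (W1 := 536870912) (P2 := 0) (W2 := 536870912) (P3 := 134217728) (W3 := 67108864)
    rfl rfl rfl k0_A00pm_101_s3

theorem s_A00pm_101_s3 {κ x : ℝ} (hκ : κ * h0 = ken x) (hx : ((134217728 : ℕ) : ℝ) / S ≤ x)
    (hx' : x ≤ (((134217728 : ℕ) : ℝ) + (67108864 : ℕ)) / S)
    (H : CutA (VF κ) PP tKF tL pcF (Cut.of [[⟨0, 1, 0, 67108864⟩, ⟨1, 0, 0, 67108864⟩, ⟨2, 1, 0, 67108864⟩]]) 1 0 1 0 0 (sgb true) (sgb false) x) :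
    AltA (VF κ) PP tKF tL pcF [⟨4, 0, 0, 2845415833⟩] 1 0 1 0 0 (sgb true) (sgb false) x :=
  strip_altA (m := 2845415833) false rfl hκ covF01 covF00 hx hx' c_A00pm_101_s3 H (noExt_A)

end Pool.Agent.Strip051.G.I1_8_3_16.Tab.St.C
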