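import Pool.Agent.Strip051.G.I1_8_3_16.StF

/-! # Unit strips 3 (generated) -/

set_option linter.all false
set_option maxRecDepth 100000

namespace Pool.Agent.Strip051.G.I1_8_3_16.Tab.St.C

open Pool.Agent.Strip051.PB Pool.Agent.Strip051.PB.T Pool.Agent.StripNear Pool.Agent.Strip051.LC
open Pool.Agent.Strip051.G.I1_8_3_16.Tab Pool.Agent.Strip051.G.I1_8_3_16.Tab.St

noncomputable def cut_A00pm_102_s1 : Cut := Cut.of [[⟨4, 0, 0, 1449551462⟩], [⟨0, 1, 0, 53687091⟩, ⟨1, 0, 0, 53687091⟩, ⟨2, 1, 0, 53687091⟩], [⟨0, 1, 0, 16777216⟩, ⟨1, 0, 1, 41943040⟩, ⟨2, 1, 1, 41943040⟩]]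

noncomputable def xt_A00pm_102_s1 : Ext := strExt dd true true false .u0 .u0m .u2 .npp 1 0 2 rfl rfl gf2 vv ndF0q1 ndF0q0

noncomputable def f_A00pm_102_s1 : ℕ → ℕ → ℕ → ℕ → Bool := onCell 536870912 536870912 1073741824 536870912 134217728 67108864
    (rowFK 1 true true false .npp 1 0 2 (qsf 536870912 536870912 0 536870912 2) ndF0q1 ndF0q0 pcF2 cut_A00pm_102_s1 xt_A00pm_102_s1)

def k0_A00pm_102_s1 : ∃ t, chk3 f_A00pm_102_s1 t 2 4 1 = true :=
  ⟨(a (l 3) (l 3)), by decide +kernel⟩

def k1_A00pm_102_s1 : ∃ t, chk3 f_A00pm_102_s1 t 4 5 1 = true :=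
  ⟨(b (b (b (l 3) (l 2)) (l 2)) (l 2)), by decide +kernel⟩

def k2_A00pm_102_s1 : ∃ t, chk3 f_A00pm_102_s1 t 10 20 1 = true :=
  ⟨(b (l 3) (a (b (l 3) (a (l 2) (b (b (l 3) (b (l 545260175) (l 545072783))) (a (l 2) (b (b (b (l 545076111) (l 545041807)) (l 16782896)) (l 16786192)))))) (b (b (l 3) (a (l 3) (b (l 3) (a (b (l 3) (l 546632079)) (l 546774415))))) (b (b (a (b (b (l 3) (l 546158223)) (l 546006159)) (a (b (c (l 547055759) (l 545993359)) (c (l 546924175) (l 545870223))) (b (l 546650511) (l 546530191)))) (a (b (l 545797775) (l 545585039)) (b (a (l 546181519) (l 546363023)) (a (l 545977743) (l 546175887))))) (a (a (b (b (l 545270415) (l 16784768)) (l 16788072)) (b (b (l 545516175) (l 16786928)) (l 16790256))) (b (b (b (l 545927311) (l 545840527)) (b (l 545773455) (l 16791320))) (l 16791480))))))), by decide +kernel⟩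

def k3_A00pm_102_s1 : ∃ t, chk3 f_A00pm_102_s1 t 11 20 1 = true :=
  ⟨(b (b (l 3) (a (l 3) (b (a (l 3) (b (l 3) (a (l 3) (l 547792527)))) (a (c (l 548353167) (l 546882703)) (b (l 547721615) (l 547656079)))))) (b (a (a (b (l 3) (a (b (l 547009823) (l 546869903)) (b (l 547098511) (l 546961183)))) (b (b (c (l 548084879) (l 546790287)) (l 547377807)) (b (l 547231631) (b (l 547135887) (l 547071375))))) (b (b (a (c (l 548223631) (b (l 546808207) (l 546779279))) (l 547589007)) (a (c (l 548129679) (l 546725519)) (c (l 548265871) (l 546717071)))) (b (a (a (l 547328399) (l 547373967)) (c (l 548168335) (l 546645903))) (a (a (l 547212175) (l 547267215)) (c (l 548062351) (l 546564751)))))) (a (b (b (b (a (a (l 546755983) (l 546854287)) (l 546997903)) (a (a (l 546651023) (l 546761103)) (l 546916751))) (b (a (c (l 547123343) (l 545991055)) (l 546812303)) (a (a (l 546341775) (l 16791424)) (a (l 16797632) (l 16801512))))) (a (b (b (b (l 546288271) (l 546208655)) (b (l 546141327) (l 16797384))) (l 16794928)) (b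 (b (a (l 16799872) (l 16803768)) (l 16798800)) (l 16807416)))) (b (b (a (b (l 547153551) (l 547085199)) (b (l 547261071) (l 547203215))) (b (a (a (l 16803312) (l 16807720)) (l 547134351)) (a (a (l 16805672) (l 16810096)) (a (l 16814800) (l 16819792))))) (a (b (b (a (l 16807944) (l 16812384)) (l 16812408)) (l 16815808)) (b (b (a (l 16817096) (l 16822096)) (l 16821864)) (l 16825304))))))), by decide +kernel⟩

def k4_A00pm_102_s1 : ∃ t, chk3 f_A00pm_102_s1 t 5 21 1 = true :=
  ⟨(a (a (a (l 2) (a (l 2) (b (b (l 16786520) (l 2)) (l 2)))) (a (b (b (b (l 16790528) (l 16804504)) (l 16817280)) (l 16842208)) (b (b (b (l 16800792) (l 16809656)) (l 16822808)) (l 16848008)))) (a (b (b (b (a (l 16796400) (l 16814176)) (a (l 16815864) (l 16823176))) (a (l 16829152) (l 16836576))) (b (l 16850368) (l 16825392))) (a (b (b (b (l 16822632) (l 16831704)) (l 16845232)) (l 16871672)) (b (a (l 16822400) (l 16817048)) (l 16881704))))), by decide +kernel⟩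

def k5_A00pm_102_s1 : ∃ t, chk3 f_A00pm_102_s1 t 5 11 1 = true :=
  ⟨(b (a (a (l 2) (a (l 2) (l 16895120))) (b (a (l 16849496) (l 16868600)) (a (l 16921976) (l 16942032)))) (c (b (c (a (l 2) (l 16968400)) (b (a (l 2) (l 16955872)) (a (l 2) (l 16969896)))) (a (l 2) (l 16992120))) (b (c (b (b (a (l 2) (l 16946728)) (a (l 2) (l 16953568))) (a (l 2) (l 16964144))) (b (b (c (a (l 2) (l 16942400)) (a (l 2) (l 16939480))) (a (l 2) (l 16947720))) (a (l 2) (l 16958288)))) (a (l 2) (l 16980496))))), by decide +kernel⟩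

def k6_A00pm_102_s1 : ∃ t, chk3 f_A00pm_102_s1 t 2 3 1 = true :=
  ⟨(a (l 2) (a (l 2) (b (b (b (l 17021416) (l 2)) (l 2)) (l 2)))), by decide +kernel⟩

def k7_A00pm_102_s1 : ∃ t, chk3 f_A00pm_102_s1 t 12 4 1 = true :=
  ⟨(b (l 3) (b (l 3) (b (l 3) (a (l 3) (a (b (l 3) (b (l 3) (l 547848079))) (b (b (l 3) (c (l 549190287) (a (l 3) (l 546102927)))) (b (a (l 547764111) (c (l 549132431) (l 546177167))) (l 546640527)))))))), by decide +kernel⟩

def k8_A00pm_102_s1 : ∃ t, chk3 f_A00pm_102_s1 t 13 8 1 = true :=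
  ⟨(l 3), by decide +kernel⟩

def k9_A00pm_102_s1 : ∃ t, chk3 f_A00pm_102_s1 t 13 18 1 = true :=
  ⟨(b (l 3) (b (l 3) (a (l 3) (a (l 3) (a (l 3) (b (l 3) (c (l 547270287) (l 541368207)))))))), by decide +kernel⟩

def k10_A00pm_102_s1 : ∃ t, chk3 f_A00pm_102_s1 t 13 38 1 = true :=
  ⟨(a (b (l 3) (a (l 3) (b (l 546831759) (l 546939791)))) (c (b (a (b (b (l 3) (l 548341135)) (l 548419983)) (a (b (a (b (l 3) (l 547984015)) (b (l 547729551) (a (l 547860623) (l 547773583)))) (a (l 548088975) (a (l 547976591) (l 547897231)))) (b (b (l 547438735) (b (l 547517327) (l 547567247))) (a (l 547771279) (l 547589263))))) (a (l 548548495) (a (a (l 548267151) (l 547602831)) (b (a (l 547927951) (l 547764879)) (a (l 548061583) (l 16813160)))))) (b (a (b (a (l 3) (b (l 3) (l 543213967))) (l 543703951)) (a (a (b (b (l 3) (l 542773135)) (l 543029391)) (b (b (l 542257039) (c (l 543804815) (l 541092495))) (a (l 542805647) (l 542649743)))) (b (b (l 541712527) (c (l 543343759) (l 540508303))) (a (l 542406031) (l 542060943)))))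 (a (l 543823135) (a (a (l 543493263) (b (l 543068303) (l 543377807))) (b (a (l 542771343) (l 542453647)) (a (l 543104655) (l 542812559)))))))), by decide +kernel⟩

def k11_A00pm_102_s1 : ∃ t, chk3 f_A00pm_102_s1 t 13 39 1 = true :=
  ⟨(a (a (a (b (b (l 3) (l 547524239)) (b (c (l 549084303) (l 545980047)) (b (l 547563919) (l 547564943)))) (b (b (c (l 549049487) (l 545542031)) (c (l 549042831) (l 545660047))) (b (b (l 547406991) (l 547424399)) (l 546099231)))) (b (b (b (l 547010703) (a (l 546880911) (l 546942863))) (c (a (l 548960655) (l 548861327)) (a (l 545402511) (l 545115791)))) (b (a (b (l 547246735) (l 547271567)) (c (l 548867471) (l 545257359))) (a (c (l 548932751) (l 545625487)) (l 546334239))))) (b (a (b (c (l 548637327) (l 544427151)) (c (l 548680079) (l 544624783))) (a (b (a (l 546165391) (l 545725583)) (a (l 546319247) (l 545894799))) (b (c (l 548113807) (l 543277711)) (c (l 548214671) (l 543564687))))) (a (b (c (l 548709007) (l 544802703)) (c (l 548722831) (l 544960911))) (a (b (c (l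 548482703) (l 544251535)) (a (l 16843096) (l 16846768))) (b (c (l 16836024) (l 543825807)) (a (l 16850328) (l 16853752))))))), by decide +kernel⟩

def k12_A00pm_102_s1 : ∃ t, chk3 f_A00pm_102_s1 t 12 40 1 = true :=
  ⟨(b (a (a (b (l 3) (b (l 3) (b (l 547904911) (l 547889551)))) (b (l 547903631) (b (l 547864207) (l 547837071)))) (b (a (l 547812239) (l 547695247)) (a (l 547770767) (l 547663759)))) (a (a (b (b (l 547864719) (a (l 547809167) (l 547809423))) (b (a (l 547745935) (l 547750799)) (a (l 547683983) (l 547693711)))) (b (b (a (l 547820943) (l 547788943)) (a (l 547783567) (l 547754895))) (b (a (l 547735951) (l 547712911)) (a (l 547684495) (l 547667087))))) (a (b (b (l 547734159) (l 547705231)) (b (l 547670671) (l 547632015))) (b (l 547627039) (b (l 547590287) (l 547561103)))))), by decide +kernel⟩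

def k13_A00pm_102_s1 : ∃ t, chk3 f_A00pm_102_s1 t 12 41 1 = true :=
  ⟨(b (b (a (a (b (l 547632783) (l 547569295)) (b (c (l 548561551) (l 546641807)) (a (l 547573647) (l 16820768)))) (b (a (l 547590031) (l 547528591)) (a (l 547545231) (l 547493263)))) (a (a (b (l 547496079) (a (l 547393423) (l 16808904))) (b (a (l 16809496) (l 16826056)) (a (l 16825200) (l 16831256)))) (b (a (l 547494287) (l 547453327)) (a (a (l 16837568) (l 16844152)) (l 16833552))))) (b (a (b (a (b (l 547349391) (l 547301007)) (a (l 16830312) (l 16836360))) (a (a (c (l 16827288) (l 16820288)) (l 16829448)) (b (l 16826560) (l 16839464)))) (b (a (c (l 16852200) (l 16839376)) (l 16859600)) (a (c (l 16857512) (l 16843960)) (l 16864576)))) (a (c (c (a (b (b (l 16835960) (l 16838488)) (l 16842288)) (b (b (l 16849560) (l 16852128)) (l 16855992))) (a (b (b (l 16832160) (l 16834544)) (l 16838136)) (b (b (l 16844472) (l 16846896)) (l 16850528)))) (c (a (b (b (l 16828136) (l 16830376)) (l 16833744)) (b (b (l 16839112) (l 16841376)) (l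 16844792))) (a (b (b (l 16823896) (l 16825984)) (l 16829128)) (b (b (l 16833488) (l 16835600)) (l 16838776))))) (c (b (a (b (l 16861360) (l 16863896)) (a (l 16874328) (l 16882600))) (a (l 16867704) (l 16883584))) (c (b (a (b (l 16850928) (l 16853224)) (a (l 16861512) (l 16868064))) (a (l 16856680) (l 16869448))) (b (a (b (l 16843584) (l 16845720)) (b (l 16854152) (l 16856312))) (a (l 16848928) (l 16859568)))))))), by decide +kernel⟩

def k14_A00pm_102_s1 : ∃ t, chk3 f_A00pm_102_s1 t 13 20 1 = true :=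
  ⟨(b (a (b (a (b (a (l 547562639) (l 547453327)) (a (l 547550863) (l 547453583))) (b (a (l 546789151) (l 546376223)) (a (l 547340687) (l 546136607)))) (b (a (b (l 547495823) (l 547484815)) (a (l 16835760) (l 16853976))) (a (a (l 16831312) (l 16849288)) (a (l 16856912) (l 16864624))))) (b (a (b (c (l 548722575) (l 545100175)) (a (l 16840560) (l 16848264))) (a (b (a (l 16853728) (l 16857408)) (l 16855816)) (b (a (l 16861000) (l 16864472)) (l 16852584)))) (a (b (a (l 16861736) (l 16869464)) (a (l 16872392) (l 16880152))) (b (a (l 16877064) (l 16884416)) (a (l 16887824) (l 16895296)))))) (b (a (b (a (a (l 16852400) (l 16859864)) (a (l 16867472) (l 16875192))) (a (b (l 16863952) (l 16869104)) (c (l 16895168) (l 16867944)))) (a (c (b (l 16903384) (l 16914824)) (b (l 16870008) (l 16879656))) (b (a (l 16898552) (l 16906240)) (a (l 16909376) (l 16917424))))) (b (b (a (a (l 16874192) (l 16889456)) (a (l 16905376) (l 16922000))) (a (a (l 16879192) (l 16894568)) (a (l 16910880) (l 16885888)))) (a (c (a (b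 (a (l 16891224) (l 16900272)) (l 16901360)) (b (l 16914888) (l 16921360))) (a (b (b (l 16871016) (l 16873344)) (l 16877008)) (b (b (l 16883352) (l 16885968)) (l 16890064)))) (c (a (b (l 16936056) (l 16942736)) (b (l 16958280) (l 16964880))) (a (b (l 16897368) (l 16902800)) (b (l 16908976) (a (l 16911632) (l 16916968))))))))), by decide +kernel⟩

def k15_A00pm_102_s1 : ∃ t, chk3 f_A00pm_102_s1 t 6 21 1 = true :=
  ⟨(c (a (a (a (b (a (l 16859024) (l 16865376)) (l 16899736)) (b (l 16854560) (l 16913568))) (b (a (l 16890264) (l 16906464)) (b (l 16927600) (l 16946392)))) (a (b (a (l 16924744) (l 16945440)) (a (l 16964120) (l 16985448))) (b (a (l 16967296) (b (l 16979128) (l 17000848))) (a (l 17008240) (l 17032184))))) (a (a (b (b (a (l 16842400) (l 16852848)) (a (l 16859904) (l 16870520))) (a (l 16885896) (l 16896720))) (b (a (b (l 16864000) (l 16881848)) (l 16863912)) (a (l 16908304) (l 16920704)))) (a (b (a (b (l 16888592) (l 16906840)) (b (l 16902024) (l 16920624))) (a (l 16933952) (l 16948216)))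 (b (a (b (l 16915024) (l 16934160)) (a (l 16933992) (l 16897864))) (a (l 16962552) (l 16976408)))))), by decide +kernel⟩

def k16_A00pm_102_s1 : ∃ t, chk3 f_A00pm_102_s1 t 6 11 1 = true :=
  ⟨(a (b (a (a (l 16943664) (l 16956632)) (a (l 16970664) (l 16985816))) (a (l 17009960) (l 17060408))) (a (b (b (a (l 16985232) (l 17003560)) (c (l 17045968) (l 17010048))) (b (l 17059440) (l 17087944))) (a (b (b (l 17023032) (l 17057872)) (l 17104776)) (b (b (l 17043152) (l 17079000)) (l 17127112))))), by decide +kernel⟩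

def k17_A00pm_102_s1 : ∃ t, chk3 f_A00pm_102_s1 t 14 8 1 = true :=
  ⟨(a (l 3) (b (l 3) (b (l 3) (a (l 3) (b (a (l 3) (a (l 3) (b (l 3) (c (b (l 535715983) (l 535747727)) (b (a (l 3) (l 535260815)) (l 535220623)))))) (c (a (a (b (l 3) (c (l 536153231) (l 535878543))) (b (c (l 536024207) (l 535766671)) (c (l 536098191) (l 535828111)))) (b (a (c (l 535970703) (l 535717519)) (b (l 535779215) (l 535810447))) (a (l 535910287) (l 535859855)))) (a (b (a (l 3) (b (l 3) (c (l 535531663) (l 535289999)))) (a (b (l 3) (l 535502735)) (b (l 535429007) (l 535458447)))) (b (a (b (a (l 535360655) (l 535339919)) (l 535367055)) (b (l 535306639) (l 535325583))) (a (b (l 535386511) (l 535415951)) (b (l 535345039) (l 535374479))))))))))), by decide +kernel⟩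

def k18_A00pm_102_s1 : ∃ t, chk3 f_A00pm_102_s1 t 28 18 1 = true :=
  ⟨(b (b (l 3) (a (l 3) (b (b (l 3) (a (l 3) (a (l 3) (c (a (l 541321103) (l 540660623)) (l 535929487))))) (a (a (l 3) (b (l 3) (c (l 543260815) (l 536086671)))) (c (c (l 544446607) (a (l 540185231) (l 539401359))) (c (a (l 536177039) (l 536120463)) (l 536099215))))))) (c (b (a (a (l 3) (a (b (l 3) (l 545605775)) (b (l 543121295) (l 544946575)))) (a (b (c (l 546052495) (l 540884111)) (c (l 546514063) (l 542605711))) (b (c (l 545080463) (a (l 541004175) (l 540296335))) (c (l 545644431) (l 541163407))))) (a (b (a (l 546475663) (l 544487567)) (a (l 546780303) (l 546197647))) (a (b (c (l 546922895) (l 543190159)) (l 543893391)) (b (c (l 546145167) (l 542128271)) (c (l 546589327) (l 542755983)))))) (b (a (a (l 3) (b (c (l 540432159) (l 536094351)) (c (l 539935119) (l 536252303)))) (a (b (c (b (l 537621903) (l 538057871)) (l 535980687)) (c (l 538674831) (l 536023439))) (b (c (a (l 536649615) (l 536172943)) (l 535873679)) (c (l 538538015)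 (l 535918223))))) (a (b (a (l 541531791) (c (l 540582799) (l 537054351))) (a (l 540493967) (l 541095567))) (a (b (c (l 539432591) (l 536068751)) (c (l 540122767) (l 536502159))) (b (c (l 538085775) (l 535965583)) (c (l 538895503) (l 536016271)))))))), by decide +kernel⟩

def k19_A00pm_102_s1 : ∃ t, chk3 f_A00pm_102_s1 t 28 19 1 = true :=
  ⟨(b (c (a (b (b (b (a (l 546985359) (l 546446735)) (a (l 547112079) (l 546600847))) (a (b (l 547230863) (l 547341455)) (b (l 546745743) (l 546881679)))) (a (b (l 547494287) (l 547673999)) (b (l 545996431) (l 547294095)))) (b (b (a (b (l 545805455) (l 545992335)) (b (l 545040527) (l 545267087))) (a (a (l 16812664) (l 16805840)) (a (l 16809096) (l 16811872)))) (b (a (c (l 16845848) (l 16816312)) (c (l 16855088) (l 16830904))) (a (l 16827088) (l 16833992))))) (b (a (a (b (b (l 540891279) (l 541141903)) (c (l 542956431) (l 540031631))) (b (b (l 539945103) (l 540235151)) (c (l 542200207) (l 539086479)))) (a (b (b (l 538850447) (l 539187343)) (c (l 541323663) (l 538000015)))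 (b (b (l 537578639) (l 537971343)) (c (l 540303503) (l 536745871))))) (a (a (b (l 541936015) (l 542336655)) (b (a (l 541359759) (l 16793456)) (l 541619855))) (c (a (b (l 541845135) (l 16815928)) (b (l 540914831) (l 16815144))) (a (b (l 538658959) (l 16794224)) (b (l 537509263) (l 16788264))))))) (c (a (b (a (b (l 547829135) (l 16844128)) (b (l 16830776) (l 16863832))) (a (b (l 16866728) (l 16878912)) (b (l 16876064) (l 16888392)))) (a (b (b (l 16860080) (l 16872336)) (b (l 16884768) (l 16897312))) (a (b (l 16850824) (l 16897080)) (b (l 16833160) (l 16858832))))) (a (b (a (b (l 542702735) (l 543036559)) (b (l 542044815) (l 16821880))) (a (b (l 16828920) (l 16837976)) (b (l 16830712) (l 16839976)))) (a (b (b (l 16823560) (l 16821656)) (b (l 16830776) (l 16840352))) (b (b (l 16810064) (l 16819056)) (b (l 16828616) (l 16838640))))))), by decide +kernel⟩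

def k20_A00pm_102_s1 : ∃ t, chk3 f_A00pm_102_s1 t 58 36 1 = true :=
  ⟨(b (c (a (a (l 3) (b (l 3) (b (c (l 540543119) (l 536175247)) (l 538261647)))) (a (b (l 536206479) (b (l 536466063) (l 536613775))) (b (l 536151183) (b (l 536213903) (l 536254095))))) (c (a (a (l 3) (b (l 3) (b (l 535881615) (l 535914639)))) (b (a (l 535778959) (l 535729807)) (b (a (l 535831183) (l 535782287)) (a (l 535864207) (l 535815055))))) (a (a (l 3) (b (l 3) (b (a (l 3) (l 535588751)) (l 535627407)))) (b (a (b (l 3) (l 535523983)) (b (l 535449487) (l 535479183))) (b (a (b (l 535546255) (l 535560591)) (l 535508111)) (a (l 535581327) (l 535536527))))))) (c (a (b (c (c (l 543586447) (l 540934287)) (a (l 537457551) (l 536414351))) (c (c (l 544386191) (l 541869967)) (a (l 538544271) (l 537605775)))) (b (c (a (b (l 540672399) (l 541207439)) (l 539949967)) (a (l 536212111) (l 536158863))) (a (c (l 541953935) (l 536576399)) (l 536649359)))) (a (b (b (a (l 535849359) (l 535799695)) (a (l 535877775) (l 535828367))) (a (b (l 535904143)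 (l 535924879)) (b (l 535854991) (l 535879055)))) (a (b (b (a (l 535764623) (l 535741071)) (l 535781007)) (l 536087951)) (b (b (l 535704463) (l 535734159)) (l 536042383)))))), by decide +kernel⟩

def k21_A00pm_102_s1 : ∃ t, chk3 f_A00pm_102_s1 t 59 36 1 = true :=
  ⟨(b (c (a (a (b (l 536096911) (b (l 536159375) (l 536199311))) (b (l 536043663) (b (l 536106127) (l 536145807)))) (b (a (l 535991695) (l 535940751)) (a (l 536072079) (l 536020623)))) (a (b (a (b (l 535535247) (l 535566991)) (b (l 535490959) (l 535522703))) (b (a (l 535598223) (l 535553935)) (a (l 535628687) (l 535584399)))) (b (a (b (l 535448207) (l 535479951)) (l 535420815)) (a (b (l 535510927) (l 535541391)) (l 535617167))))) (c (a (b (a (c (l 538848399) (l 536106383)) (l 536203151)) (a (l 536611471) (l 536279183))) (b (a (l 536150415) (l 536098959)) (a (l 536226703) (l 536175247)))) (a (b (a (b (l 535658895) (l 535688591)) (b (l 535614607) (l 535644303))) (a (l 535997583) (l 535685519))) (b (a (l 535853199) (l 535543183)) (a (l 535643023)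 (l 535601551)))))), by decide +kernel⟩

def k22_A00pm_102_s1 : ∃ t, chk3 f_A00pm_102_s1 t 29 37 1 = true :=
  ⟨(a (b (a (c (b (c (l 543902351) (a (l 539523215) (l 538677903))) (c (l 544591247) (a (l 540405647) (l 539643535)))) (a (b (l 536226447) (l 536277903)) (b (l 536181647) (l 535962767)))) (b (c (a (c (l 542853263) (l 537752207)) (l 537792911)) (a (l 535869327) (l 535826063))) (c (a (l 539624591) (l 539353487)) (a (l 535919503) (l 535877775))))) (a (c (b (c (l 545204367) (l 540061071)) (c (l 545748879) (l 541616271))) (b (c (l 536502159) (l 535869583)) (c (l 537455759) (l 535922063)))) (a (c (b (l 540725903) (l 541740687)) (b (l 535972495) (l 536029583))) (c (b (l 540001679) (l 540822671)) (b (l 535931279) (l 16773704)))))) (b (c (a (b (a (l 537604751) (l 537313935)) (a (l 538464655) (l 538290575))) (b (a (l 536300687) (l 536249743)) (a (l 537478799) (l 16773080)))) (a (b (a (l 535783055) (l 535740559)) (a (l 535836303) (l 535795599))) (b (a (l 535699087) (l 535658383)) (a (l 16772120) (l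 16768440))))) (b (c (a (a (l 539474319) (l 538598799)) (a (l 16786560) (l 16783880))) (a (a (l 535891343) (l 16772456)) (a (l 16768848) (l 16767800)))) (c (a (a (l 16791120) (l 16787648)) (a (l 16803464) (l 16796336))) (a (a (l 16770224) (l 16769304)) (a (l 16768328) (l 16767296))))))), by decide +kernel⟩

def k23_A00pm_102_s1 : ∃ t, chk3 f_A00pm_102_s1 t 29 38 1 = true :=
  ⟨(b (a (c (b (a (b (l 543321487) (l 543595407)) (a (l 16804776) (l 16804304))) (a (a (l 16835056) (l 16836600)) (a (l 16837368) (l 16837232)))) (b (a (c (a (l 16788224) (l 16784552)) (l 535979151)) (a (c (l 16779584) (l 16770272)) (l 16770696))) (a (a (l 16792584) (l 16777000)) (a (l 16771304) (l 16770496))))) (a (c (b (a (l 16802680) (l 16820696)) (a (l 16836040) (l 16833616))) (b (a (l 16769840) (l 16768936)) (c (l 16770904) (l 16767552)))) (a (c (b (l 16816184) (l 16808744)) (b (l 16767976) (l 16767568))) (c (b (b (l 16806360) (l 16813336)) (l 16803160)) (b (c (l 16768416) (l 16765080)) (l 16766512)))))) (c (a (a (b (c (l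 16862840) (l 16832632)) (l 16839120)) (b (c (l 16868448) (l 16831168)) (l 16820840))) (a (b (a (l 16849088) (l 16805232)) (a (l 16862648) (l 16861264))) (a (b (l 16801984) (l 16858512)) (b (l 16838936) (l 16812344))))) (a (a (c (b (l 16807392) (l 16811304)) (a (l 16772488) (l 16771456))) (b (c (l 16804048) (l 16769248)) (c (l 16803488) (l 16769304)))) (a (b (a (l 16769688) (l 16768568)) (a (l 16771256) (l 16768688))) (a (b (l 16767536) (l 16766712)) (b (l 16765568) (l 16764832))))))), by decide +kernel⟩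

def k24_A00pm_102_s1 : ∃ t, chk3 f_A00pm_102_s1 t 29 39 1 = true :=
  ⟨(c (a (b (b (a (l 16872792) (a (l 16875528) (l 16876488))) (a (l 16885784) (a (l 16888968) (l 16890296)))) (a (b (l 16857056) (l 16912360)) (b (l 16903560) (l 16917560)))) (b (a (b (a (l 16876600) (l 16875648)) (l 16848760)) (a (b (l 16873512) (l 16888808)) (b (l 16828064) (l 16802112)))) (a (a (l 16828608) (l 16828888)) (a (l 16828200) (c (l 16942312) (l 16836200)))))) (a (b (b (a (c (l 16821176) (l 16786312)) (a (l 16796384) (l 16789848))) (a (l 16813400) (a (l 16806584) (l 16800528)))) (a (b (a (l 16825152) (l 16821768)) (l 16834192)) (a (l 16822776) (l 16817288)))) (a (b (a (b (l 16781856) (l 16792888)) (b (l 16771920) (l 16783696))) (a (l 16810544) (b (l 16796032) (l 16808840)))) (a (b (b (l 16766080) (l 16772696)) (b (l 16785848) (l 16799440))) (b (b (l 16764144) (l 16763512)) (b (l 16773760) (l 16788272))))))), by decide +kernel⟩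

def k25_A00pm_102_s1 : ∃ t, chk3 f_A00pm_102_s1 t 60 16 1 = true :=
  ⟨(l 3), by decide +kernel⟩

def k26_A00pm_102_s1 : ∃ t, chk3 f_A00pm_102_s1 t 61 32 1 = true :=
  ⟨(l 3), by decide +kernel⟩

def k27_A00pm_102_s1 : ∃ t, chk3 f_A00pm_102_s1 t 122 33 1 = true :=
  ⟨(l 3), by decide +kernel⟩

def k28_A00pm_102_s1 : ∃ t, chk3 f_A00pm_102_s1 t 123 66 1 = true :=
  ⟨(l 3), by decide +kernel⟩

def k29_A00pm_102_s1 : ∃ t, chk3 f_A00pm_102_s1 t 246 67 1 = true :=
  ⟨(l 3), by decide +kernel⟩

def k30_A00pm_102_s1 : ∃ t, chk3 f_A00pm_102_s1 t 247 134 1 = true :=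
  ⟨(l 3), by decide +kernel⟩

def k31_A00pm_102_s1 : ∃ t, chk3 f_A00pm_102_s1 t 247 135 2 = true :=
  ⟨(c (a (b (l 3) (b (a (l 3) (b (l 3) (l 535032463))) (a (l 535060367) (l 535051151)))) (b (a (l 3) (b (l 3) (l 534994063))) (a (b (b (b (a (l 3) (l 535078543)) (a (b (l 3) (l 535020687)) (a (c (l 535047311) (l 534985871)) (l 535014287)))) (b (a (l 535023503) (c (a (l 535051407) (l 535048847)) (a (l 534989455) (l 534987151)))) (a (l 535029135) (a (l 535025807) (l 535023503))))) (a (l 535044751) (l 535040143))) (b (b (l 535005583) (b (l 535011471) (l 535016847))) (a (b (l 535029391) (l 535042191)) (l 535030927)))))) (a (b (l 3) (b (a (l 3) (b (l 3) (l 534908303))) (a (l 534932623) (l 534924687)))) (b (a (l 3) (b (l 3) (l 534875791))) (a (b (b (a (b (l 3) (a (l 3) (l 534896783))) (a (b (l 3) (l 534961807)) (l 534891151))) (a (l 534902927) (c (a (l 534930575) (b (l 534925967) (l 534930831))) (a (l 534869647) (l 534867599))))) (a (l 534919055) (l 534914959))) (b (b (l 534885263) (a (l 534894735) (l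 534890639))) (a (l 534910863) (l 534907023))))))), by decide +kernel⟩

def k32_A00pm_102_s1 : ∃ t, chk3 f_A00pm_102_s1 t 247 135 3 = true :=
  ⟨(c (a (b (l 3) (b (a (l 3) (b (l 3) (l 534786191))) (a (l 534807439) (l 534800527)))) (b (a (l 3) (b (l 3) (l 534759311))) (a (b (b (a (c (l 534805903) (l 534746511)) (a (c (l 534803343) (l 534744207)) (l 534771855))) (a (l 534781583) (c (a (l 534809231) (l 534807439)) (l 534748303)))) (a (l 534795919) (l 534792335))) (b (b (l 534766735) (a (l 534774671) (l 534771087))) (a (l 534788751) (l 534785167)))))) (a (b (l 3) (b (a (l 3) (b (l 3) (l 534666639))) (a (l 534684815) (l 534678927)))) (b (a (l 3) (b (l 3) (l 534644879))) (a (b (b (a (l 534658447) (a (l 534656399) (l 534654863))) (a (l 534662799) (c (l 534689167) (l 534630543)))) (a (l 534674831) (l 534672015))) (b (b (l 534650511) (a (l 534656911) (l 534653839))) (a (l 534668943) (l 534665871))))))), by decide +kernel⟩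

def k33_A00pm_102_s1 : ∃ t, chk3 f_A00pm_102_s1 t 60 34 1 = true :=
  ⟨(a (l 3) (b (l 3) (b (a (l 3) (b (l 3) (b (a (l 3) (a (c (l 535358095) (l 535280271)) (c (l 535347343) (l 535003279)))) (c (a (c (l 535482511) (l 535298959)) (l 535234191)) (a (c (l 535121295) (l 534949007)) (c (l 535102863) (l 534932879))))))) (a (a (b (l 3) (c (l 535491983) (b (l 535101327) (l 535111567)))) (b (b (l 3) (c (l 535445647) (l 535073167))) (c (l 535469455) (l 535356303)))) (c (b (a (c (l 535509391) (l 535320975)) (b (l 535385231) (l 535401871))) (a (l 535447439) (l 535425679))) (b (a (b (l 535045007) (l 535055503)) (b (l 535027599) (l 535038095))) (a (l 535070095) (l 535052687)))))))), by decide +kernel⟩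

def k34_A00pm_102_s1 : ∃ t, chk3 f_A00pm_102_s1 t 122 68 1 = true :=
  ⟨(c (b (a (l 3) (a (l 3) (b (l 3) (b (l 3) (a (l 3) (l 535132559)))))) (a (b (l 3) (a (l 3) (b (a (l 3) (l 535232399)) (a (l 535262095) (l 535252623))))) (a (b (b (l 3) (a (l 3) (l 535193487))) (b (a (l 535223183) (l 535213967)) (a (l 535243407) (l 535233935)))) (b (b (a (l 535163279) (l 535154063)) (a (l 535184271) (l 535175055))) (b (l 535198351) (l 535218319)))))) (b (a (l 3) (b (l 3) (a (l 3) (b (l 3) (a (l 3) (l 534848143)))))) (a (b (l 3) (a (l 3) (b (a (l 3) (c (l 534997647) (l 534846351))) (a (l 534942863) (c (l 535013263) (l 534859407)))))) (b (a (b (l 3) (a (l 3) (l 534892687))) (b (a (l 534870671) (l 534863759)) (a (l 534885775) (l 534878863)))) (a (b (a (l 534914447) (l 534907535)) (a (l 534928783) (l 534921615))) (b (a (l 534900623) (l 534893455)) (l 535010191))))))), by decide +kernel⟩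

def k35_A00pm_102_s1 : ∃ t, chk3 f_A00pm_102_s1 t 122 69 2 = true :=
  ⟨(b (a (b (a (b (b (l 3) (b (a (l 3) (a (l 3) (c (a (c (l 535421071) (l 535335567)) (l 535375503)) (a (c (l 535251087) (c (l 535188623) (l 535147407))) (l 535207055))))) (a (l 3) (a (l 535301519) (c (c (l 535424911) (l 535339151)) (c (a (l 535255695) (l 535253391)) (a (l 535171983) (l 535169935)))))))) (a (c (l 535406735) (l 535233935)) (a (l 535312271) (a (b (a (l 535304847) (l 535169423)) (l 535312783)) (b (c (l 535387535) (b (l 535215247) (l 535219087))) (l 535310223)))))) (b (b (l 535271055) (b (a (b (l 535283343) (l 535285647)) (l 535275151)) (a (a (b (l 535290767) (l 535293071)) (l 535287183)) (l 535279759)))) (a (b (a (c (l 535383951) (l 535213967)) (l 535293839)) (c (l 535390607) (l 535219343))) (c (l 535376015) (l 535206799))))) (a (a (b (l 535336847) (l 535353743)) (b (a (l 535329167) (l 535189903)) (l 535343247))) (a (b (a (l 535319183) (l 535314575)) (l 535333263)) (b (l 535173519) (l 535324047))))) (b (b (a (a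 (l 535263119) (l 535253647)) (l 535237775)) (a (a (l 535281551) (l 535272335)) (l 535256463))) (a (a (b (l 535298703) (l 535315087)) (l 535230239)) (b (l 535274127) (l 535291023))))) (a (a (b (b (l 535363727) (l 535380367)) (l 535404175)) (b (a (l 535357327) (l 535347599)) (l 535383439))) (a (b (b (l 535325327) (l 535341199)) (l 535364239)) (b (b (l 535307407) (l 535323535)) (l 535346319))))), by decide +kernel⟩

def k36_A00pm_102_s1 : ∃ t, chk3 f_A00pm_102_s1 t 122 69 3 = true :=
  ⟨(b (a (b (a (a (b (l 3) (c (l 535065999) (l 534903183))) (c (b (b (l 3) (b (a (l 3) (a (c (l 535085967) (l 535005327)) (l 535043471))) (a (l 535052175) (c (a (l 535089807) (l 535087759)) (l 535007631))))) (a (l 535059855) (b (c (l 535093135) (l 535011471)) (l 535125135)))) (b (b (l 3) (c (a (l 534930831) (b (l 534924687) (l 534927759))) (a (l 534851983) (l 534914959)))) (a (l 534897807) (c (l 534933391) (l 534853775)))))) (b (b (l 534948495) (a (b (b (l 534957711) (l 534959503)) (a (b (l 534963343) (l 534964623)) (l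 534960527))) (l 534953103))) (a (c (b (a (l 535048847) (l 535045263)) (l 535052943)) (c (l 534928783) (l 534849935))) (c (l 535042447) (l 534882959))))) (b (a (a (l 534994831) (c (a (l 535072143) (l 535067791)) (l 534904975))) (a (c (l 535061647) (l 534898063)) (c (l 535054479) (l 534892175)))) (a (a (l 535005583) (l 534997391)) (a (l 535257999) (l 534982799))))) (b (a (b (a (l 535043215) (l 534935439)) (a (l 534955151) (l 534948239))) (b (l 535057295) (l 535204495))) (a (b (a (l 534966159) (l 534959503)) (c (l 535054223) (l 534890639))) (b (l 534947727) (l 534958479))))) (a (a (b (a (l 535020687) (l 535280783)) (l 535035791)) (b (a (c (l 535090575) (l 534919823)) (l 535265679)) (c (l 535108239) (l 534932623)))) (a (b (b (l 535250063) (l 534991503)) (l 535273871)) (b (c (l 535056527) (l 534891151)) (l 534992527))))), by decide +kernel⟩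

def k37_A00pm_102_s1 : ∃ t, chk3 f_A00pm_102_s1 t 123 68 1 = true :=
  ⟨(a (b (c (a (b (l 3) (b (a (l 535101583) (l 535092623)) (a (l 535123599) (l 535114383)))) (b (b (a (l 3) (l 535028879)) (a (l 535060879) (l 535052175))) (a (b (l 535083663) (l 535105423)) (b (l 535074447) (l 535096463))))) (b (a (l 3) (a (b (l 3) (c (l 534860175) (l 534729871))) (b (c (l 534834063) (l 534707599)) (l 534787983)))) (a (a (b (c (l 534892943) (l 534757775)) (l 534841231)) (b (l 534818191) (l 534834319))) (a (b (l 534811535) (l 534827663)) (b (l 534804623) (l 534820751)))))) (c (b (a (a (l 535154575) (l 535145359)) (a (l 535136143) (l 535127183))) (a (b (l 535179663) (l 535199631)) (b (l 535160975) (l 535180687)))) (b (a (a (b (l 534856847) (l 534871951)) (l 534923663)) (a (l 534849679) (l 534843023))) (a (b (l 534881167) (l 534895247)) (b (l 534867087) (l 534880911)))))) (b (c (b (a (a (b (l 535020175) (l 535043215)) (b (l 535011215) (l 535034255))) (a (b (a (l 535005327) (l 535000975)) (l 535025551)) (b (b (l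 534988175) (l 534999695)) (l 535016591)))) (a (a (l 535109007) (l 535066511)) (a (b (l 535047823) (l 535069327)) (l 535182735)))) (b (a (a (b (l 534763919) (l 534781327)) (b (l 534757263) (l 534774671))) (a (b (a (l 534752911) (l 534749839)) (l 534768015)) (b (a (l 534746511) (l 534743183)) (l 534761359)))) (a (a (b (l 534797967) (l 534814095)) (l 534932367)) (a (b (l 534784655) (l 534800527)) (b (l 534777743) (l 534793615)))))) (c (b (a (a (l 535117967) (l 535108751)) (a (l 535099791) (l 535090575))) (a (a (l 535158415) (l 535149199)) (a (l 535139983) (l 535130767)))) (b (a (a (l 534836111) (l 534829199)) (a (l 534822287) (l 534815631))) (a (a (l 534865039) (l 534858127)) (a (l 534850959) (l 534844047))))))), by decide +kernel⟩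

def k38_A00pm_102_s1 : ∃ t, chk3 f_A00pm_102_s1 t 123 69 1 = true :=
  ⟨(a (b (b (c (a (b (l 535218831) (l 535237775)) (b (l 535199887) (l 535218575))) (a (b (l 534908815) (l 534921871)) (b (l 534894479) (l 534907535)))) (a (c (b (l 535255439) (l 535272591)) (b (l 534933647) (l 534944911))) (c (l 535378831) (a (l 534930063) (l 534923151))))) (c (a (b (l 535430799) (l 535328399)) (b (l 535278223) (l 535310479))) (b (a (b (l 534955663) (l 534965647)) (l 534946447)) (a (l 534979727) (l 534966671))))) (b (c (b (a (b (l 535180943) (l 535199631)) (a (l 535178127) (l 535168655))) (a (l 535225743) (a (l 535214223) (l 16771768)))) (a (b (b (l 534880143) (l 534893199)) (l 535178895)) (b (a (l 534877839) (l 534870927)) (l 535298703)))) (a (b (c (l 535259535) (l 534932623)) (c (l 535560335) (l 534953359))) (b (c (a (l 16771448) (l 16771080)) (l 535187087)) (c (a (l 16770776) (l 16770416)) (l 16769208)))))), by decide +kernel⟩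

def k39_A00pm_102_s1 : ∃ t, chk3 f_A00pm_102_s1 t 60 35 1 = true :=
  ⟨(a (b (c (b (a (b (l 3) (c (l 535746447) (l 535525775))) (a (b (l 535570575) (l 535602831)) (b (l 535547279) (l 535579535)))) (a (b (l 535667087) (l 535698831)) (b (l 535619471) (l 535650959)))) (b (b (a (l 3) (a (l 535163023) (l 535144335))) (a (a (l 3) (l 535201935)) (a (l 535182991) (l 535164047)))) (a (b (a (l 535240847) (l 535221391)) (l 535247503)) (b (l 535457935) (l 535208847))))) (c (b (a (b (l 535730063) (l 535761295)) (b (l 535682191) (l 535713167))) (a (l 535810447) (l 535762063))) (b (a (b (l 535266703) (l 535285647)) (b (l 535227791) (l 535246991))) (a (b (l 535305103) (l 535334287)) (l 535547791))))) (b (c (b (a (b (a (l 535524495) (l 535501967)) (a (l 535556495) (l 535533967))) (b (a (l 535479695) (l 535457935)) (a (l 535511695) (l 535489679)))) (a (b (l 535572879) (l 535604111)) (b (l 535527311) (l 535558543)))) (b (a (b (a (l 535125903) (l 535107983)) (a (l 535145615) (l 535127695))) (b (a (l 535090319) (l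 535072911)) (a (l 535109775) (l 535092623)))) (a (b (l 535420559) (l 535171471)) (b (l 535384463) (l 535135119))))) (a (b (c (b (l 535635343) (l 535666063)) (b (l 535190415) (l 535209359))) (c (a (l 535730319) (l 535707279)) (a (l 535254671) (l 535236495)))) (b (c (a (l 535618703) (l 535596431)) (a (l 535175055) (l 535157647))) (c (a (l 535684495) (l 535661967)) (a (l 535218831) (l 535469967))))))), by decide +kernel⟩

def k40_A00pm_102_s1 : ∃ t, chk3 f_A00pm_102_s1 t 61 70 1 = true :=
  ⟨(a (c (a (b (a (b (l 535436175) (l 535467919)) (b (l 535415183) (l 535446927))) (a (l 535512463) (l 535893903))) (b (a (b (l 535395727) (l 535426959)) (b (l 535377295) (l 535408015))) (a (b (l 16772072) (l 16771504)) (b (l 16771448) (l 16770880))))) (b (a (a (b (l 535055759) (l 535075471)) (b (l 535039631) (l 535059087))) (a (b (l 535025039) (l 535044239)) (b (l 535011471) (l 535030415)))) (a (a (l 535102351) (l 535354255)) (a (b (l 16770640) (l 16769824)) (b (l 16769880) (l 16769064)))))) (c (b (a (a (b (l 535359119)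 (l 535389583)) (b (l 535609743) (a (l 16770904) (l 16770568)))) (a (b (a (l 16770840) (l 16770488)) (a (l 16770224) (l 16769872))) (b (a (l 16770136) (l 16769776)) (a (l 16769520) (l 16769160))))) (b (a (a (l 535688335) (a (l 16770304) (l 16769968))) (a (a (l 16769632) (l 16769280)) (a (b (l 16769080) (l 16768792)) (b (l 16768720) (l 16768432))))) (a (a (a (l 16770400) (l 16770072)) (a (l 16769744) (l 16769408))) (a (a (l 16769064) (b (l 16768856) (l 16768584))) (c (a (l 16768968) (b (l 16768752) (l 16768496))) (a (l 16767776) (l 16767384))))))) (b (a (a (b (l 534998671) (l 16769936)) (b (l 534985871) (l 16769144))) (a (b (l 16769184) (a (l 16768536) (l 16768128))) (b (a (l 16768560) (l 16768136)) (a (l 16767712) (l 16767296))))) (a (a (b (l 16769104) (l 16768288)) (b (l 16768312) (a (l 16767696) (l 16767296)))) (a (b (a (l 16767704) (l 16767296)) (a (l 16766888) (l 16766480))) (a (b (l 16766888) (l 16766072)) (b (l 16766464) (b (l 16765856) (l 16765440))))))))), by decide +kernel⟩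

def k41_A00pm_102_s1 : ∃ t, chk3 f_A00pm_102_s1 t 61 142 1 = true :=
  ⟨(c (c (b (a (a (a (l 16772592) (l 16772040)) (a (l 16771472) (l 16770880))) (a (a (l 16770272) (l 16769648)) (b (a (l 16769120) (a (l 16768616) (a (l 16768328) (l 16768200)))) (a (l 16768888) (a (l 16768344) (l 16768064)))))) (a (a (a (l 16772152) (l 16771600)) (a (l 16771032) (l 16770440))) (a (a (l 16769832) (l 16769208)) (a (a (l 16768728) (b (l 16768488) (a (l 16768344) (l 16768216)))) (a (b (a (l 16768240) (l 16768088)) (l 16767912)) (l 16767640)))))) (a (a (a (l 535462799) (l 535442575)) (a (l 535691919) (b (l 16769808) (l 16769224)))) (b (a (a (l 16769128) (l 16768432)) (b (a (l 16767872) (a (l 16767320) (a (l 16767016) (l 16766872)))) (a (l 16767576) (a (a (l 16767120) (l 16766904)) (l 16766688))))) (a (a (l 16768552) (a (l 16768032) (l 16767680))) (a (a (l 16767320) (b (l 16767088) (a (l 16766880) (l 16766744)))) (a (b (a (l 16766824) (l 16766656)) (l 16766424)) (l 16766176))))))) (c (a (a (a (l 535245967) (l 535228303))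 (a (l 535479951) (b (l 16768768) (l 16768056)))) (b (a (a (l 16768024) (l 16767264)) (b (a (l 16766672) (a (l 16766080) (a (l 16765744) (l 16765592)))) (a (l 16766312) (a (l 16765672) (l 16765352))))) (a (a (l 16767312) (a (l 16766744) (l 16766360))) (a (a (l 16765968) (b (l 16765736) (a (l 16765472) (l 16765320)))) (a (b (a (l 16765448) (l 16765280)) (l 16764992)) (l 16764760)))))) (a (a (a (l 535037327) (l 535021967)) (a (l 535007887) (b (l 16767776) (l 16766936)))) (a (a (b (l 16766968) (l 16766120)) (b (l 16766144) (l 16765296))) (a (b (l 16765304) (a (l 16764672) (b (l 16764440) (a (l 16764112) (l 16763952))))) (b (a (b (l 16764872) (l 16764408)) (b (l 16764432) (l 16764072))) (a (b (l 16764056) (l 16763616)) (l 16763400)))))))), by decide +kernel⟩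

def k42_A00pm_102_s1 : ∃ t, chk3 f_A00pm_102_s1 t 61 143 1 = true :=
  ⟨(c (a (a (a (b (l 16771168) (l 16770752)) (b (l 16770576) (l 16770168))) (a (b (l 16769976) (l 16769560)) (b (l 16769352) (l 16768944)))) (b (b (a (a (l 16768824) (a (l 16768328) (l 16767992))) (a (a (c (l 16768368) (l 16766856)) (c (l 16768096) (l 16766568))) (a (l 16766880) (l 16766480)))) (a (a (l 16768592) (a (l 16768104) (l 16767744))) (a (a (a (a (l 16767536) (l 16767480)) (l 16767336)) (l 16767016)) (l 16766408)))) (a (b (a (l 16768400) (a (l 16767904) (c (l 16768368) (l 16766752)))) (a (l 16768216) (a (c (l 16768512) (l 16766856)) (l 16767384)))) (a (a (l 16767056) (l 16766648)) (l 16766024))))) (a (a (a (b (l 16768976) (l 16768288)) (b (l 16768240) (l 16767560))) (a (b (l 16767496) (l 16766816)) (b (a (l 16766920) (l 16766536)) (a (l 16766240) (l 16765856))))) (a (a (b (a (l 16766152) (l 16765760)) (a (l 16765472) (l 16765080))) (b (c (a (l 16766056) (b (l 16765840) (l 16765480))) (a (l 16764680) (l 16764232))) (a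 (b (l 16764848) (c (l 16765256) (l 16763720))) (b (c (l 16765192) (l 16763696)) (l 16764152))))) (a (a (b (b (c (l 16765400) (l 16764000)) (c (a (l 16765208) (l 16765024)) (l 16763680))) (c (l 16764640) (l 16763104))) (b (b (a (l 16764464) (l 16764224)) (l 16763952)) (l 16763440))) (b (c (a (l 16764456) (l 16764040)) (l 16762792)) (l 16762800)))))), by decide +kernel⟩

def k43_A00pm_102_s1 : ∃ t, chk3 f_A00pm_102_s1 t 60 36 1 = true :=
  ⟨(c (b (a (b (a (l 535890831) (l 535842191)) (a (l 535970447) (l 535921295))) (a (b (b (l 535775887) (l 16771936)) (a (l 16771736) (l 16771232))) (a (b (l 535763599) (l 535707791)) (b (l 535741071) (a (l 16770312) (l 16770040)))))) (a (b (a (l 536048271) (a (l 16772200) (l 16771744))) (a (l 16775144) (c (l 16772672) (l 16770648)))) (b (a (c (l 16771960) (l 16770112)) (b (l 16767480) (l 16769912))) (a (c (l 16771808) (l 16769616)) (a (l 16769944) (b (l 16769480) (l 16769256))))))) (b (a (b (a (l 535380623) (l 535341711)) (a (l 535442575) (a (l 16772760) (l 16769520))))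 (a (b (a (l 535316879) (l 535298703)) (a (l 16768880) (l 16768224))) (b (a (l 535280783) (b (l 16768360) (l 16767744))) (a (b (l 16767840) (l 16767272)) (b (l 16767152) (l 16766584)))))) (a (b (a (l 535502479) (a (l 16769048) (l 16768432))) (a (a (l 16769248) (l 16768664)) (a (l 16768064) (l 16767448)))) (c (b (a (a (l 16768632) (l 16768024)) (a (l 16767392) (l 16766736))) (a (l 16767512) (a (l 16766576) (b (l 16766128) (l 16765664))))) (b (a (a (l 16766968) (l 16766280)) (a (l 16765568) (l 16764848))) (a (a (l 16765832) (l 16765144)) (a (l 16764440) (b (l 16764000) (l 16763384))))))))), by decide +kernel⟩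

def k44_A00pm_102_s1 : ∃ t, chk3 f_A00pm_102_s1 t 61 36 2 = true :=
  ⟨(a (b (c (a (b (a (l 16770968) (l 16770424)) (a (l 16770528) (l 16769992))) (a (b (a (l 16770008) (l 16769720)) (b (l 16769536) (l 16769264))) (b (b (l 16769416) (l 16769096)) (b (a (l 16769032) (l 16768800)) (l 16768648))))) (a (b (a (l 16769472) (l 16768848)) (a (l 16768728) (l 16768112))) (a (a (b (l 16768376) (l 16767576)) (b (l 16768056) (b (l 16767496) (l 16767128)))) (b (b (l 16767768) (a (l 16767536) (l 16767152))) (b (a (l 16767104) (l 16766848)) (l 16766584)))))) (a (b (a (c (l 16770176) (l 16768048)) (c (b (l 16769664) (l 16769616)) (b (l 16767544) (l 16767352)))) (a (b (l 16768864) (l 16768624)) (l 16767864))) (b (b (a (c (l 16769160) (l 16767000)) (l 16767120)) (l 16767144)) (b (l 16766728) (l 16766320))))) (b (b (a (a (b (a (l 16768112) (b (l 16767840) (l 16767696))) (a (b (l 16767832) (l 16767720)) (l 16767400))) (b (b (a (c (l 16768424) (l 16766704)) (l 16767120)) (l 16767088)) (l 16766744))) (a (b (l 16766376)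 (l 16765888)) (b (l 16765520) (l 16765016)))) (a (a (b (l 16767136) (l 16766688)) (b (l 16766272) (l 16765808))) (a (l 16765152) (l 16764248)))) (a (b (b (l 16765800) (l 16765344)) (l 16764664)) (b (a (l 16764176) (l 16763240)) (l 16762744))))), by decide +kernel⟩

def k45_A00pm_102_s1 : ∃ t, chk3 f_A00pm_102_s1 t 61 36 3 = true :=
  ⟨(a (b (b (b (a (a (l 16767648) (l 16766920)) (a (l 16766176) (a (l 16765608) (l 16765224)))) (a (a (l 16767032) (l 16766304)) (a (l 16765568) (a (l 16765000) (b (l 16764768) (l 16764424)))))) (a (a (b (l 16766440) (l 16765880)) (b (l 16765720) (l 16765160))) (a (a (b (l 16765168) (l 16764560)) (b (l 16764792) (c (l 16765168) (l 16763280)))) (b (a (b (l 16764552) (l 16764256)) (b (l 16764192) (l 16763856))) (a (l 16763848) (l 16763368)))))) (b (a (a (b (l 16765344) (a (l 16765008) (l 16764608))) (b (a (l 16764808) (c (l 16765368) (l 16763400))) (a (c (l 16765320) (l 16763232)) (l 16763912)))) (a (b (a (b (l 16764200) (l 16763896)) (l 16763608)) (l 16763192)) (b (l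 16762944) (l 16762296)))) (a (a (b (a (l 16764456) (l 16764176)) (l 16763808)) (b (l 16763464) (l 16762848))) (a (l 16762240) (l 16761320))))) (b (a (b (a (b (a (l 16764840) (b (l 16764568) (c (l 16765120) (l 16763488)))) (a (b (c (l 16765192) (l 16763520)) (l 16764112)) (l 16763832))) (b (a (b (c (l 16765048) (l 16763456)) (l 16763872)) (l 16763616)) (a (l 16763376) (l 16762944)))) (a (b (a (l 16763584) (l 16763144)) (l 16762704)) (b (l 16762488) (l 16761808)))) (b (a (b (c (l 16763800) (l 16762160)) (l 16762288)) (b (l 16762104) (l 16761400))) (a (l 16763864) (l 16760328)))) (a (b (a (l 16761712) (l 16760792)) (a (l 16760384) (l 16759440))) (b (a (l 16759856) (l 16758912)) (l 16758000))))), by decide +kernel⟩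

def k46_A00pm_102_s1 : ∃ t, chk3 f_A00pm_102_s1 t 30 37 1 = true :=
  ⟨(a (c (a (a (b (b (l 16772336) (l 16772296)) (b (l 16773464) (b (l 16783392) (l 16790392)))) (b (b (l 16771464) (l 16771432)) (b (a (l 16771616) (l 16771200)) (l 16774616)))) (b (a (a (b (l 16770768) (l 16770576)) (b (l 16770160) (l 16770112))) (b (a (a (l 16769776) (l 16769560)) (l 16769024)) (l 16768696))) (a (b (l 16769968) (l 16769360)) (b (l 16768056) (l 16767456))))) (b (b (a (a (a (l 16768368) (l 16767784)) (a (l 16767192) (l 16766576))) (a (a (l 16765944) (c (l 16766392) (l 16764008))) (a (b (a (l 16765016) (l 16764608)) (c (l 16765704) (l 16763184))) (b (c (l 16765360) (l 16762944)) (l 16763472))))) (b (a (a (l 16767504) (l 16766312)) (a (a (l 16765344) (l 16764704)) (l 16763352))) (a (a (l 16767152) (l 16765976)) (a (a (l 16764976) (l 16764152)) (l 16762776))))) (a (b (a (l 16764064) (c (a (l 16767096) (l 16766600)) (a (l 16764240) (l 16763696)))) (a (a (l 16766344) (l 16765800)) (b (l 16764960) (l 16764336)))) (b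 (a (b (l 16764120) (l 16763528)) (l 16761928)) (a (l 16762728) (l 16760824)))))) (a (b (a (c (b (l 16767560) (l 16766840)) (b (b (l 16762696) (l 16762096)) (l 16761184))) (b (c (l 16765704) (l 16760512)) (c (l 16764920) (l 16759264)))) (a (b (c (l 16766144) (l 16760008)) (c (l 16765488) (l 16758856))) (b (c (l 16764168) (l 16758040)) (c (l 16763464) (l 16756848))))) (b (a (b (c (l 16763784) (l 16758592)) (c (l 16762936) (l 16757296))) (b (a (l 16759664) (l 16763904)) (a (l 16763792) (l 16762768)))) (a (b (a (l 16764776) (l 16763752)) (a (l 16763792) (l 16762752))) (b (a (l 16762720) (l 16761672)) (c (l 16759248) (l 16752704))))))), by decide +kernel⟩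

def k47_A00pm_102_s1 : ∃ t, chk3 f_A00pm_102_s1 t 30 38 1 = true :=
  ⟨(a (b (a (b (c (a (l 16801288) (l 16790000)) (a (c (l 16767320) (l 16763904)) (l 16763592))) (a (c (l 16774400) (l 16764528)) (c (l 16785264) (l 16762640)))) (b (a (c (l 16775776) (l 16761696)) (c (l 16766896) (l 16759752))) (a (c (b (l 16788936) (l 16797896)) (l 16760712)) (c (c (l 16777944) (l 16764416)) (l 16763968))))) (a (a (c (b (l 16790152) (l 16806392)) (b (l 16763688) (l 16762904))) (c (b (l 16791632) (l 16798448)) (b (l 16761768) (l 16760944)))) (b (a (c (a (l 16772768) (l 16766312)) (l 16759792)) (c (a (l 16780088) (l 16772072)) (l 16757776))) (c (a (a (l 16791000) (l 16785240)) (a (l 16778800) (l 16771616))) (a (l 16758936) (l 16756880)))))) (a (b (b (a (c (l 16764880) (l 16757744)) (c (l 16762808) (l 16755704))) (a (c (b (l 16764464) (l 16764208)) (b (l 16756952) (l 16756432))) (c (b (l 16762360) (l 16762088)) (b (l 16754880) (l 16754344))))) (a (c (b (c (l 16784752) (l 16761760)) (c (l 16764936) (l 16761216)))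 (b (l 16760944) (l 16754776))) (c (b (a (l 16763520) (l 16761152)) (c (l 16770944) (l 16759040))) (b (l 16758832) (l 16752632))))) (c (b (a (b (l 16763304) (b (l 16760208) (l 16759912))) (b (l 16758504) (a (l 16758384) (l 16757264)))) (a (b (l 16762120) (l 16761648)) (b (a (l 16757808) (l 16756672)) (l 16759360)))) (b (a (b (l 16753616) (a (l 16753016) (l 16751952))) (b (a (l 16752024) (l 16750952)) (a (l 16750872) (l 16749784)))) (a (b (l 16756688) (l 16750464)) (b (a (l 16749808) (l 16748704)) (l 16748248))))))), by decide +kernel⟩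

def k48_A00pm_102_s1 : ∃ t, chk3 f_A00pm_102_s1 t 30 39 1 = true :=
  ⟨(a (a (b (b (a (c (l 16822976) (l 16762176)) (c (l 16795088) (l 16760168))) (a (c (l 16797856) (l 16761496)) (c (l 16791920) (l 16759448)))) (c (a (b (l 16814824) (l 16831848)) (b (l 16809816) (l 16827736))) (a (b (l 16781856) (l 16775112)) (b (l 16779768) (l 16780672))))) (b (b (a (c (l 16786056) (l 16758128)) (c (a (l 16798688) (l 16792288)) (l 16756040))) (c (a (l 16805024) (c (l 16901688) (l 16771920))) (a (l 16757368) (l 16755256)))) (b (c (a (l 16803048) (l 16794248)) (a (l 16756680) (l 16754528))) (a (c (l 16822008) (l 16777024)) (c (l 16814424) (l 16753872)))))) (a (b (b (c (a (a (l 16785160) (l 16777256)) (c (l 16773912) (l 16758536))) (a (l 16753904) (l 16751744))) (c (a (a (l 16764728) (l 16799640)) (a (l 16791848) (l 16783232))) (a (l 16753096) (l 16750912)))) (b (c (a (a (l 16786128) (l 16779920)) (c (l 16904888) (l 16759368))) (a (l 16752352) (l 16750144))) (c (a (l 16804712) (l 16792552)) (a (l 16751664) (l 16749440)))))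 (b (a (c (b (c (l 16799424) (l 16756288)) (a (l 16773744) (l 16763312))) (b (l 16749544) (l 16748688))) (c (b (l 16758968) (l 16756216)) (b (l 16747312) (l 16746440)))) (c (a (b (l 16773344) (l 16777584)) (b (l 16773848) (l 16780352))) (a (b (l 16747904) (l 16747192)) (b (l 16745640) (l 16744912))))))), by decide +kernel⟩

def k49_A00pm_102_s1 : ∃ t, chk3 f_A00pm_102_s1 t 62 32 1 = true :=
  ⟨(l 14), by decide +kernel⟩

def k50_A00pm_102_s1 : ∃ t, chk3 f_A00pm_102_s1 t 124 66 1 = true :=
  ⟨(a (l 3) (a (l 3) (l 14))), by decide +kernel⟩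

def k51_A00pm_102_s1 : ∃ t, chk3 f_A00pm_102_s1 t 248 67 1 = true :=
  ⟨(b (a (b (l 3) (b (l 3) (a (l 3) (c (l 534890127) (l 534672783))))) (b (b (l 3) (a (l 3) (l 535012495))) (b (a (c (l 534868111) (l 534658191)) (c (l 534859407) (l 534651791))) (a (c (l 534881679) (l 534666383)) (c (l 534873231) (l 534659983)))))) (c (b (a (a (b (l 534912399) (b (l 534922895) (l 534929807))) (b (l 534903951) (l 535118735))) (a (b (l 534895247) (l 535042959)) (b (l 534886799) (l 535034255)))) (a (b (a (b (l 534936463) (b (l 534941583) (l 534946703))) (b (l 534927759) (l 535069583))) (a (b (l 534955663) (l 534967695)) (b (l 534946959) (l 534958991)))) (b (a (b (l 534919311) (l 535060879)) (b (l 534910607) (l 535186575))) (a (b (l 534938255) (l 534950031)) (b (l 534929551) (l 534941327)))))) (b (a (a (b (l 534687375) (l 534963855)) (b (l 534680975) (l 534688911))) (a (b (l 534674575) (l 534682511)) (b (l 534668175) (l 534676111)))) (a (b (a (b (l 534701711) (l 534840975)) (b (l 534695311) (l 534700175))) (a (b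 (l 534715535) (l 534724495)) (l 534847375))) (b (a (b (l 534688911) (l 534693775)) (c (l 534741135) (l 534628239))) (a (l 534975119) (l 534700175))))))), by decide +kernel⟩

def k52_A00pm_102_s1 : ∃ t, chk3 f_A00pm_102_s1 t 249 67 1 = true :=
  ⟨(c (b (a (b (a (l 535096719) (l 535088271)) (a (b (l 534850959) (l 534864527)) (b (l 534842511) (l 534856079)))) (b (a (b (l 14) (l 534820495)) (l 14)) (a (b (l 534834063) (l 534847631)) (b (l 534825615) (l 534838927))))) (a (b (a (b (l 534878095) (l 535159951)) (b (l 534869647) (l 535151247))) (a (b (b (l 534901903) (l 535177871)) (b (l 534920847) (l 534932623))) (b (b (l 534893199) (l 535169167)) (b (l 534912143) (l 534923919))))) (b (a (b (l 534860943) (l 535142799)) (b (l 534852495) (l 535134095))) (a (b (a (l 534891407) (l 534887055)) (b (l 534903439) (l 534915215))) (b (a (l 534882703) (l 534878607)) (a (l 534903695) (l 534899343))))))) (b (a (b (a (l 534630799) (l 534624399)) (a (b (l 534645391) (l 534653583)) (b (l 534638991) (l 534647183)))) (b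 (a (l 534618255) (l 14)) (a (b (l 534632591) (l 534640783)) (b (l 534626191) (l 534634383))))) (a (b (a (b (l 534661519) (l 534669711)) (b (l 534655119) (l 534663311))) (a (b (a (l 534680463) (l 534677391)) (l 534693519)) (b (a (l 534674319) (l 534670991)) (l 534687119)))) (b (a (b (l 534648719) (l 534656655)) (b (l 534642319) (l 534650255))) (a (b (l 534933391) (l 534680463)) (b (l 534926991) (l 534674063))))))), by decide +kernel⟩

def k53_A00pm_102_s1 : ∃ t, chk3 f_A00pm_102_s1 t 125 33 1 = true :=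
  ⟨(b (l 14) (b (a (a (b (l 14) (a (b (l 14) (c (l 534830479) (l 534627983))) (l 14))) (l 14)) (l 14)) (b (a (a (a (b (c (l 534843791) (l 534635919)) (c (l 535125391) (l 534643855))) (b (c (l 535103631) (l 534629519)) (c (a (l 534852239) (l 534847887)) (l 534637455)))) (a (b (l 14) (c (a (l 534843535) (l 16772496)) (l 534899343))) (l 14))) (l 14)) (c (b (a (a (a (a (l 534874255) (l 534869903)) (a (l 534865807) (l 534861455))) (a (a (l 534857103) (l 534853007)) (a (l 534848655) (l 16771568)))) (l 14)) (a (a (a (b (l 534886031) (l 16772504)) (b (l 534877327) (l 16772056))) (b (a (l 16771816) (l 16771352)) (a (l 16771600) (l 16771144)))) (a (a (b (l 16770888) (l 16770672)) (l 14)) (l 14)))) (c (a (a (a (b (l 534706063) (l 534722959)) (b (l 534699151) (l 16771736))) (b (a (l 534692239) (l 16771248)) (a (l 16771248) (l 16770760)))) (a (a (a (l 534688911) (l 534685327)) (l 14)) (l 14))) (a (a (a (b (l 534598543) (l 16771960)) (b (l 534592399) (l 16771456))) (a (b (l 16771472) (l 16770952)) (b (l 16770960)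 (l 16770440)))) (a (a (a (l 534583695) (l 534580879)) (l 14)) (l 14)))))))), by decide +kernel⟩

def k54_A00pm_102_s1 : ∃ t, chk3 f_A00pm_102_s1 t 63 16 1 = true :=
  ⟨(l 14), by decide +kernel⟩

def k55_A00pm_102_s1 : ∃ t, chk3 f_A00pm_102_s1 t 124 68 1 = true :=
  ⟨(a (b (a (b (b (a (c (l 534984847) (l 534737551)) (c (l 534976143) (l 534730895))) (a (c (l 535007631) (l 534754703)) (c (l 534998927) (l 534748047)))) (a (c (l 535173775) (l 534912143)) (c (l 535030671) (l 534771343)))) (c (b (a (b (l 534967183) (l 534989967)) (b (l 534958479) (l 534981007))) (a (l 535021711) (l 535012751))) (b (a (b (l 534724239) (l 534741391)) (b (l 534717839) (l 534734735))) (a (l 534764687) (l 534757775))))) (c (b (a (a (l 535081615) (l 535072399)) (a (l 535063439) (l 535054223))) (a (a (l 535121551) (l 535112335)) (a (l 535103119) (l 535093903)))) (b (a (a (l 534808719) (l 534801807)) (a (l 534795151) (l 534788239))) (a (a (l 534837135) (l 534830223)) (b (l 535078799) (l 16770816)))))) (b (c (a (b (a (b (l 534949775)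 (l 534972303)) (b (l 534940815) (l 534963343))) (a (l 535003791) (l 534994831))) (b (a (b (l 534932111) (l 534954383)) (b (l 534923407) (l 534945679))) (a (l 534985871) (l 534976911)))) (b (a (a (b (l 534711183) (l 534728079)) (b (l 534704527) (l 534721423))) (a (b (l 534698127) (l 534714767)) (b (l 534691471) (l 16771584)))) (a (a (l 534751119) (l 534744463)) (a (l 534737807) (l 534731151))))) (a (b (a (c (l 535045263) (l 534781327)) (c (l 535036047) (l 534774671))) (c (a (l 16771288) (l 16770880)) (a (l 16770368) (l 16769912)))) (b (c (a (l 535027087) (l 16770800)) (b (l 16770376) (l 16769912))) (c (a (l 16770464) (l 16770040)) (a (l 16769448) (l 16768976))))))), by decide +kernel⟩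

def k56_A00pm_102_s1 : ∃ t, chk3 f_A00pm_102_s1 t 125 68 1 = true :=
  ⟨(b (b (c (b (a (a (a (l 534914447) (l 534905743)) (a (l 16771288) (l 16770824))) (a (a (l 16770360) (l 16769896)) (l 14))) (a (a (a (l 16771760) (l 16771320)) (a (l 16770872) (l 16770416))) (a (a (l 16769952) (c (l 16769672) (l 16769224))) (a (l 16769120) (l 14))))) (b (a (a (a (l 534684815) (l 16771104)) (a (l 16770608) (l 16770104))) (a (a (l 16769600) (l 16769096)) (l 14))) (a (a (a (l 16771096) (l 16770616)) (b (l 16769992) (l 16769752))) (a (a (l 16769120) (l 16768576)) (a (l 16768200) (l 14)))))) (c (a (a (a (l 534967951) (l 534958991)) (a (l 535218319) (l 16769816))) (a (b (a (l 16769552) (l 16769144)) (a (l 16769136) (l 16768784))) (b (l 16768560) (l 16768208)))) (a (a (a (l 534724495) (l 534717583)) (b (l 16769392) (l 16768920))) (a (b (a (l 16768640) (l 16768184)) (a (l 16768144) (l 16767752))) (c (l 16767592) (l 16767080)))))) (a (a (b (a (c (l 16770368) (l 16769432)) (c (l 16769936) (l 16768944))) (a (c (c (l 16769896)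 (l 16769328)) (l 16768504)) (c (b (l 16769368) (l 16769000)) (l 16768024)))) (b (c (a (l 16769488) (b (l 16769200) (c (l 16769144) (l 16768576)))) (a (l 16768464) (b (l 16768168) (l 16767744)))) (c (b (a (c (l 16769184) (l 16768592)) (l 16768560)) (a (a (l 16768656) (l 16768504)) (l 16768184))) (a (b (l 16767728) (l 16767344)) (l 16767160))))) (b (a (b (a (c (l 16768848) (l 16767776)) (l 16767872)) (c (l 16768280) (l 16767112))) (c (a (l 16767880) (l 16767488)) (l 16766488))) (a (a (b (l 16767512) (l 16767136)) (b (l 16767112) (l 16766720))) (c (c (l 16767320) (l 16766632)) (l 16765624)))))), by decide +kernel⟩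

def k57_A00pm_102_s1 : ∃ t, chk3 f_A00pm_102_s1 t 124 138 1 = true :=
  ⟨(c (a (a (b (b (l 535143055) (l 16771744)) (a (l 16771400) (l 16771016))) (b (a (l 16771344) (l 16770952)) (a (l 16770632) (l 16770240)))) (a (b (a (l 16770552) (l 16770144)) (a (c (l 16770176) (l 16769512)) (c (l 16769784) (l 16769096)))) (a (b (c (l 16770040) (l 16769424)) (c (l 16769384) (l 16768672))) (b (c (l 16769632) (l 16769000)) (b (l 16768784) (c (a (l 16768928) (l 16768704)) (l 16768016))))))) (a (b (a (b (l 534851471) (l 16770792)) (a (l 16770352) (l 16769904))) (a (c (l 16770384) (l 16769848)) (a (l 16769456) (l 16769008)))) (a (b (a (l 16769456) (l 16769000)) (a (l 16768560) (l 16768104))) (a (b (l 16768536) (l 16767640)) (b (l 16768072) (b (l 16767400) (l 16766912))))))), by decide +kernel⟩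

def k58_A00pm_102_s1 : ∃ t, chk3 f_A00pm_102_s1 t 124 139 1 = true :=
  ⟨(b (c (a (a (a (l 16770704) (l 16770328)) (a (l 16769944) (c (l 16769928) (l 16769192)))) (a (a (c (l 16769544) (l 16768784)) (b (l 16768928) (l 16768592))) (a (b (l 16768520) (a (l 16768264) (b (l 16768152) (l 16768032)))) (b (a (a (l 16768240) (l 16768168)) (l 16768040)) (l 16767800))))) (a (a (a (l 16769440) (l 16769008)) (a (l 16768568) (l 16768128))) (b (a (l 16767672) (a (l 16766984) (c (l 16766944) (l 16766176)))) (a (l 16767232) (a (c (l 16766928) (l 16766128)) (l 16766120)))))) (c (a (a (a (l 16770040) (l 16769672)) (a (c (l 16769696) (l 16768880)) (b (l 16769064) (l 16768744)))) (a (b (a (l 16768672) (c (a (l 16768808) (l 16768576)) (l 16767792))) (a (l 16768352) (c (a (l 16768488) (l 16768352)) (a (l 16767568) (l 16767416))))) (a (b (a (b (l 16768048) (l 16767904)) (l 16767768)) (l 16767552)) (c (l 16767776) (l 16766848))))) (a (a (a (l 16768568) (l 16768136)) (a (l 16767704) (l 16767256))) (a (a (l 16766808) (b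 (l 16766536) (c (l 16766600) (l 16765728)))) (a (b (l 16766176) (l 16765728)) (l 16765504)))))), by decide +kernel⟩

def k59_A00pm_102_s1 : ∃ t, chk3 f_A00pm_102_s1 t 125 69 1 = true :=
  ⟨(a (b (a (b (c (a (c (b (l 16769392) (l 16769024)) (l 16768520)) (b (c (a (l 16769064) (l 16768864)) (l 16768280)) (c (a (l 16768768) (l 16768560)) (l 16767992)))) (a (c (l 16767872) (l 16767240)) (b (l 16767320) (l 16766960)))) (c (a (b (a (l 16768440) (a (l 16768328) (l 16768240))) (c (l 16768480) (l 16767696))) (c (l 16768200) (l 16767424))) (a (b (c (l 16767280) (l 16766584)) (l 16766552)) (l 16766296)))) (a (b (c (c (l 16768448) (l 16767744)) (l 16766720)) (c (c (l 16767808) (l 16767016)) (l 16765872))) (b (b (l 16769784) (l 16769408)) (b (l 16769024) (l 16768648))))) (c (a (a (b (c (l 16767984) (l 16767128)) (l 16769528)) (b (c (l 16767584) (l 16766720)) (l 16766496))) (a (b (l 16766744) (l 16766072)) (b (l 16766328) (l 16765648)))) (a (b (c (l 16766096) (l 16765280)) (l 16767480)) (b (l 16767440) (l 16763976)))))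 (b (b (a (c (a (l 16767280) (l 16766880)) (l 16765640)) (c (c (l 16766640) (l 16765880)) (l 16764760))) (a (c (a (l 16766592) (l 16766176)) (l 16764784)) (c (a (l 16765752) (l 16765328)) (l 16763888)))) (a (c (b (c (l 16766144) (l 16765248)) (l 16767624)) (b (l 16763928) (l 16763072))) (c (b (l 16767448) (l 16764112)) (b (l 16763016) (l 16762144)))))), by decide +kernel⟩

def k60_A00pm_102_s1 : ∃ t, chk3 f_A00pm_102_s1 t 248 70 1 = true :=
  ⟨(b (c (a (b (a (l 16769408) (b (l 16769192) (l 16768880))) (a (b (l 16768944) (l 16768648)) (b (l 16768576) (l 16768280)))) (b (a (b (l 16768808) (l 16768504)) (b (l 16768424) (c (l 16768584) (l 16767592)))) (a (b (l 16768200) (a (l 16767992) (b (l 16767864) (l 16767736)))) (b (c (a (l 16768408) (l 16768272)) (a (l 16767360) (l 16767216))) (c (l 16768104) (l 16767008)))))) (b (a (a (l 16767712) (l 16767280)) (a (l 16766848) (b (l 16766616) (l 16766168)))) (b (a (l 16766872) (a (l 16766216) (c (l 16766272) (l 16765288)))) (a (l 16766448) (a (c (l 16766272)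 (l 16765256)) (l 16765416)))))) (c (a (a (b (b (l 16768352) (l 16768072)) (a (b (l 16767880) (c (l 16768240) (l 16766960))) (b (c (l 16768288) (l 16767064)) (l 16767432)))) (b (b (c (l 16768528) (l 16767408)) (c (a (l 16768352) (l 16768216)) (a (l 16767176) (l 16767032)))) (b (c (l 16768072) (l 16766840)) (l 16767112)))) (a (b (b (a (c (l 16768272) (l 16767136)) (l 16767528)) (l 16767304)) (c (l 16767496) (l 16766224))) (b (c (l 16767648) (l 16766472)) (l 16766448)))) (a (b (a (b (l 16766248) (l 16765840)) (b (l 16765800) (a (l 16765488) (l 16765328)))) (a (b (c (l 16765960) (l 16764824)) (c (a (l 16765728) (l 16765560)) (l 16764472))) (c (b (l 16765640) (l 16765224)) (l 16764280)))) (b (b (a (c (l 16765968) (l 16764896)) (l 16764976)) (l 16767408)) (c (l 16767408) (l 16763592)))))), by decide +kernel⟩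

def k61_A00pm_102_s1 : ∃ t, chk3 f_A00pm_102_s1 t 249 70 1 = true :=
  ⟨(b (c (a (b (b (a (a (l 16768136) (b (l 16767992) (l 16767872))) (c (l 16768160) (l 16767184))) (a (a (b (l 16767888) (l 16767768)) (l 16767624)) (l 16767328))) (a (b (l 16767416) (l 16767112)) (a (l 16766960) (l 16766752)))) (a (b (c (l 16767584) (l 16766576)) (l 16766448)) (b (l 16769288) (l 16766032)))) (b (a (a (b (c (l 16766592) (l 16765688)) (a (l 16765872) (l 16765656))) (c (l 16766040) (l 16765104))) (c (l 16765384) (l 16764424))) (a (a (l 16765152) (l 16764728)) (l 16766704)))) (c (a (a (b (a (l 16766752) (l 16766544)) (l 16766032)) (b (l 16766232) (l 16765616))) (b (c (l 16766216) (l 16765008)) (l 16764976))) (a (b (a (l 16764344) (l 16763920)) (l 16763328)) (b (l 16763264) (l 16762440))))), by decide +kernel⟩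

def k62_A00pm_102_s1 : ∃ t, chk3 f_A00pm_102_s1 t 125 70 1 = true :=
  ⟨(a (b (a (b (c (a (l 16766256) (l 16765832)) (l 16764024)) (c (l 16768016) (l 16763200))) (c (b (l 16767808) (l 16764520)) (b (l 16763136) (l 16762288)))) (a (c (b (l 16764744) (l 16764096)) (b (l 16762368) (l 16761536))) (c (b (l 16763856) (l 16763200)) (l 16763648)))) (b (a (c (b (l 16764312) (l 16763624)) (b (l 16762216) (l 16761360))) (c (b (l 16763408) (l 16762704)) (l 16763464))) (a (c (b (l 16762944) (l 16762272)) (l 16762704)) (c (a (l 16761904) (l 16761424)) (l 16759120))))), by decide +kernel⟩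

def k63_A00pm_102_s1 : ∃ t, chk3 f_A00pm_102_s1 t 62 71 1 = true :=
  ⟨(a (a (c (b (a (b (c (a (l 16767760) (l 16767360)) (a (l 16766400) (l 16765992))) (c (l 16767032) (l 16765560))) (b (c (l 16766752) (l 16765368)) (c (l 16766208) (l 16764720)))) (a (b (c (l 16766512) (l 16764936)) (l 16765184)) (b (l 16764872) (l 16764312)))) (b (a (a (b (a (l 16764544) (l 16764336)) (l 16763656)) (b (l 16764024) (l 16763232))) (b (c (l 16764032) (l 16762744)) (l 16762592))) (a (b (l 16765288) (l 16761936)) (b (l 16761800) (l 16761048))))) (b (b (a (c (l 16765216) (l 16762520)) (c (l 16764352) (l 16761624))) (a (c (l 16764608) (l 16761712)) (l 16764872))) (a (c (b (l 16764008) (l 16763424)) (l 16763152)) (b (l 16764160) (l 16760848))))) (a (b (a (b (l 16764688) (l 16763968)) (c (c (l 16762960) (l 16761496)) (l 16759368))) (a (c (c (l 16762728) (l 16761072)) (l 16758680)) (c (c (l 16761784) (l 16760128)) (l 16757728)))) (b (a (c (c (l 16762024) (l 16760552)) (l 16758408)) (c (a (l 16760560) (l 16760064)) (l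 16757424))) (a (c (b (l 16760312) (l 16759656)) (l 16756752)) (c (b (l 16759328) (l 16758656)) (l 16755752)))))), by decide +kernel⟩

def k64_A00pm_102_s1 : ∃ t, chk3 f_A00pm_102_s1 t 63 34 1 = true :=
  ⟨(a (b (a (a (a (b (b (l 14) (c (l 16767816) (l 16766712))) (b (c (l 16767088) (l 16765840)) (c (l 16766360) (l 16764960)))) (b (l 14) (c (b (l 16766680) (l 16765936)) (b (l 16765400) (l 16764512))))) (a (b (l 14) (c (b (l 16766272) (l 16765512)) (b (l 16764960) (l 16764064)))) (b (l 14) (b (l 14) (a (l 16764448) (l 16766848)))))) (a (a (b (l 14) (b (l 14) (a (l 16766624) (l 16766392)))) (l 14)) (l 14))) (a (b (a (a (b (l 16767464) (l 16766656)) (b (l 16767024) (l 16763584))) (a (b (l 16766576) (l 16765744)) (b (l 16766120) (l 16765272)))) (a (c (b (l 16763928) (l 16763200)) (b (l 16762080) (l 16761192))) (c (b (l 16763008) (l 16762256)) (b (l 16761120) (l 16760224))))) (a (b (c (b (c (l 16764048) (l 16763216)) (c (l 16763296) (l 16762392))) (b (l 16761976) (l 16761056))) (a (b (l 16763960) (l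 16763120)) (b (l 16763472) (l 16762624)))) (b (c (a (b (l 16762936) (l 16762128)) (b (l 14) (l 16761648))) (b (l 16761000) (l 16760064))) (c (c (b (l 16761584) (l 16760832)) (b (l 16760592) (l 16759768))) (c (l 16759168) (l 16758160))))))) (a (b (l 14) (a (a (b (b (l 14) (a (l 16762968) (l 16762720))) (c (c (l 16760456) (l 16759416)) (l 16757880))) (b (l 14) (c (c (l 16759944) (l 16758904)) (l 16757360)))) (b (l 14) (b (a (a (l 16761064) (l 16760800)) (l 14)) (c (c (a (l 16759008) (l 16758496)) (a (l 16757928) (l 16757440))) (a (l 16756328) (l 16755856))))))) (a (a (b (l 14) (b (l 14) (b (l 14) (b (l 14) (c (l 16757208) (l 16755144)))))) (l 14)) (l 14)))), by decide +kernel⟩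

def k65_A00pm_102_s1 : ∃ t, chk3 f_A00pm_102_s1 t 126 35 1 = true :=
  ⟨(b (a (b (a (c (a (l 16762344) (l 16761872)) (l 16762496)) (c (a (l 16761392) (l 16760904)) (l 16758880))) (a (c (a (l 16760936) (l 16760448)) (l 16758128)) (c (b (l 16760056) (l 16759344)) (l 16757120)))) (b (a (c (b (l 16760536) (l 16759784)) (l 16757864)) (c (c (a (l 16759976) (l 16759464)) (b (l 16758960) (l 16758152))) (l 16756824))) (a (c (c (b (l 16759688) (l 16759000)) (l 16758024)) (l 16756080)) (c (c (b (l 16758648) (l 16757952)) (l 16756968)) (l 16755024))))) (a (c (b (a (b (l 16759664) (l 16758984)) (c (b (l 16759368) (l 16758728)) (l 16757560))) (a (c (b (l 16759128) (l 16758480)) (l 16757144)) (c (b (l 16758096) (l 16757424)) (l 16756104)))) (b (a (l 16756416) (l 16755392)) (a (l 16754728) (l 16753688)))) (c (b (a (c (b (l 16758328) (l 16757672)) (l 16756512)) (a (b (l 16756808) (l 16756104)) (b (l 16756272) (l 16755560)))) (a (a (b (l 16756488) (l 16755760)) (b (l 16755952) (l 16755216))) (a (b (l 16755408)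 (l 16754664)) (b (l 16754856) (l 16754104))))) (b (a (l 16754344) (l 16753264)) (a (l 16752616) (l 16751520)))))), by decide +kernel⟩

def k66_A00pm_102_s1 : ∃ t, chk3 f_A00pm_102_s1 t 254 35 1 = true :=
  ⟨(b (c (b (b (a (c (l 16759056) (l 16757912)) (c (a (l 16758240) (l 16757720)) (a (l 16757096) (l 16756600)))) (a (c (l 16758312) (l 16757096)) (c (a (l 16757520) (l 16756976)) (a (l 16756304) (l 16755808))))) (a (c (b (l 16757584) (a (l 16757144) (l 16756568))) (b (l 16756296) (l 16755472))) (c (a (b (l 16756808) (l 16756096)) (c (l 16756240) (l 16755600))) (a (l 16755152) (l 16754656))))) (b (a (l 16755760) (c (a (l 16755536) (l 16755064)) (a (l 16754384) (l 16753928)))) (a (c (l 16754552) (l 16753264)) (c (a (l 16753856) (l 16753400)) (l 16752392))))) (c (b (a (c (a (c (l 16756472) (l 16755728)) (c (b (l 16756240) (l 16755616)) (b (l 16755512) (l 16754856)))) (a (l 16754624) (c (l 16754448) (l 16753712)))) (c (a (b (l 16755408) (l 16754768)) (b (l 16754936) (l 16754312))) (b (l 16753784) (l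 16753088)))) (b (a (c (a (l 16755104) (b (l 16754768) (c (b (l 16754936) (l 16754768)) (l 16754048)))) (a (l 16753496) (c (l 16753416) (l 16752632)))) (b (c (c (l 16754464) (l 16753712)) (l 16752584)) (c (c (b (l 16754256) (l 16754096)) (l 16753400)) (c (l 16752632) (l 16751864))))) (b (a (c (a (l 16754560) (l 16754088)) (a (l 16752896) (l 16752448))) (c (c (l 16753848) (l 16753056)) (l 16751880))) (a (c (a (l 16754176) (l 16753728)) (l 16754920)) (c (c (l 16753520) (l 16752720)) (l 16751520)))))) (b (a (b (l 16752576) (l 16754336)) (c (a (l 16752216) (l 16751832)) (l 16750632))) (b (b (a (l 16751096) (l 16750352)) (a (c (l 16751472) (l 16749904)) (c (l 16750720) (l 16749216)))) (a (c (l 16750848) (l 16749240)) (c (l 16750128) (l 16748576))))))), by decide +kernel⟩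

def k67_A00pm_102_s1 : ∃ t, chk3 f_A00pm_102_s1 t 255 70 1 = true :=
  ⟨(b (a (c (c (a (c (l 16757072) (l 16756520)) (c (l 16756512) (l 16755976))) (a (l 16755696) (l 16755184))) (c (a (l 16754592) (l 16754120)) (a (l 16753496) (l 16753056)))) (c (b (a (a (l 16755680) (l 16755400)) (l 14)) (c (a (l 16755352) (l 16754792)) (a (l 16754304) (l 16753784)))) (a (c (l 16753640) (l 16752608)) (b (l 14) (l 16752256))))) (a (c (c (b (a (l 16755752) (l 16755224)) (a (l 16755088) (l 16754584))) (a (l 16754192) (c (l 16754016) (l 16753424)))) (c (a (l 16752968) (l 16752536)) (a (l 16751752) (l 16751352)))) (c (b (c (a (l 16754696) (l 16754152)) (a (l 16753584) (l 16753088))) (c (a (l 16754072) (l 16753552)) (a (l 16752904) (l 16752424)))) (c (a (l 16752096) (b (l 16752016) (l 16751288))) (a (l 16750944) (b (l 16750928) (l 16750136))))))), by decide +kernel⟩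

def k68_A00pm_102_s1 : ∃ t, chk3 f_A00pm_102_s1 t 255 71 1 = true :=
  ⟨(b (a (c (c (b (a (l 16754456) (l 16753968)) (a (l 16753856) (l 16753384))) (a (c (l 16753136) (l 16752456)) (b (l 16752696) (l 16752040)))) (c (a (l 16751448) (l 16751048)) (a (l 16750104) (l 16749744)))) (c (b (c (a (l 16753472) (l 16752976)) (a (l 16752240) (l 16751784))) (c (a (l 16752912) (l 16752424)) (a (l 16751608) (l 16751176)))) (b (c (a (l 16751000) (l 16750584)) (a (l 16749760) (l 16749376))) (c (a (l 16750304) (l 16749912)) (a (l 16749000) (l 16748632)))))) (b (c (b (a (c (a (l 16753424) (l 16752968)) (l 16751776)) (c (a (l 16752504) (l 16752040)) (a (l 16751160) (l 16750736)))) (a (c (c (b (l 16753352) (l 16753208)) (a (l 16752768) (l 16752336))) (c (l 16751824) (l 16751104))) (c (a (c (l 16752584) (l 16751896)) (b (l 16751848) (l 16751712))) (a (l 16750856) (c (l 16750776) (l 16750104)))))) (a (b (c (l 16750368) (l 16748960)) (c (a (l 16750192) (l 16749832)) (a (l 16748736) (l 16748408)))) (b (a (l 16749128)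 (c (l 16749416) (l 16748096))) (c (a (c (l 16749816) (l 16749120)) (b (l 16749184) (l 16749008))) (a (b (l 16748168) (l 16747984)) (b (l 16747832) (l 16747648))))))) (c (a (c (c (a (l 16753032) (l 16752592)) (a (l 16752272) (l 16751856))) (c (a (l 16751520) (l 16751120)) (a (l 16750760) (l 16750384)))) (c (b (a (l 16751944) (l 16751496)) (a (l 16751648) (l 16751208))) (a (c (l 16750720) (l 16750008)) (c (l 16750312) (l 16749616))))) (a (c (c (l 16749832) (l 16749088)) (a (l 16748128) (l 16747816))) (c (a (c (l 16749288) (l 16748576)) (c (l 16748920) (b (l 16748400) (l 16748048)))) (a (c (l 16747856) (l 16747136)) (c (l 16747528) (l 16746824)))))))), by decide +kernel⟩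

def k69_A00pm_102_s1 : ∃ t, chk3 f_A00pm_102_s1 t 62 36 1 = true :=
  ⟨(a (a (a (b (b (c (l 16764384) (l 16763472)) (c (l 16763320) (l 16759400))) (b (l 16762696) (l 16764088))) (b (b (c (l 16763480) (l 16759936)) (c (l 16762376) (l 16758448))) (b (l 16764344) (l 16763080)))) (b (b (c (a (l 16762560) (l 16761616)) (a (l 16759008) (l 16758056))) (a (c (l 16761416) (l 16757488)) (c (l 16760432) (l 16756504)))) (b (a (l 16763344) (c (l 16759280) (l 16754968))) (a (l 16762056) (l 16761016))))) (c (a (b (b (a (l 16760656) (l 16759672)) (a (l 16759432) (l 16758408))) (a (b (l 16758240) (l 16757088)) (b (l 16757184) (l 16756000)))) (b (a (b (c (l 16759584) (l 16757752)) (l 16757368)) (b (c (l 16758552) (l 16756728)) (l 16758920))) (a (b (l 16756104) (l 16754888)) (b (l 16755000) (l 16753760))))) (a (b (b (a (l 16757088) (l 16756104)) (a (l 16755504) (l 16754488))) (b (a (l 16753944) (l 16752896)) (a (l 16752408) (l 16751336)))) (b (b (a (l 16755096) (l 16754072)) (a (l 16753456) (l 16752400))) (b (a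 (l 16751832) (l 16750752)) (a (l 16750248) (l 16749144))))))), by decide +kernel⟩

def k70_A00pm_102_s1 : ∃ t, chk3 f_A00pm_102_s1 t 126 36 1 = true :=
  ⟨(b (c (a (a (b (c (l 16757488) (l 16755672)) (l 16757824)) (b (a (l 16755768) (l 16755216)) (l 16756712))) (b (a (a (l 16754664) (l 16754104)) (a (l 16753536) (l 16752960))) (a (l 16755568) (b (l 16752144) (c (l 16755016) (l 16750408)))))) (a (b (a (l 16753016) (l 16751944)) (a (l 16751320) (l 16750224))) (b (a (l 16750848) (l 16749728)) (a (l 16749104) (b (l 16748400) (l 16750120)))))) (a (b (a (c (l 16753880) (l 16749648)) (c (l 16752736) (l 16748528))) (a (c (l 16752608) (l 16748024)) (c (l 16751432) (l 16746880)))) (a (c (b (l 16751560) (l 16750232)) (b (l 16747384) (l 16745712))) (c (b (a (l 16750672) (b (b (l 16750592) (l 16750272)) (b (l 16749960) (l 16749656)))) (c (b (a (l 16750776) (l 16750344)) (a (l 16750160) (l 16749816))) (b (l 16748320) (l 16747704)))) (b (c (a (l 16747536) (l 16747024)) (l 16745232)) (c (c (l 16746344) (l 16745240))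 (l 16743608))))))), by decide +kernel⟩

def k71_A00pm_102_s1 : ∃ t, chk3 f_A00pm_102_s1 t 254 36 1 = true :=
  ⟨(b (c (b (a (c (b (a (c (l 16754080) (l 16753200)) (c (l 16753648) (l 16752792))) (c (a (l 16753424) (l 16753016)) (l 16752368))) (b (a (l 16751888) (l 16751504)) (c (l 16751464) (l 16750576)))) (c (b (c (a (l 16753256) (l 16752848)) (l 16752224)) (c (l 16752448) (l 16751592))) (b (c (l 16751400) (l 16750584)) (c (l 16750736) (l 16749888))))) (a (c (b (c (l 16752648) (l 16751704)) (c (l 16752032) (l 16751056))) (b (l 16750304) (l 16749608))) (c (b (c (l 16751880) (l 16750992)) (c (l 16751344) (l 16750416))) (b (c (l 16750104) (l 16749216)) (l 16749040))))) (b (b (a (c (l 16750040) (l 16748360)) (c (l 16749360) (l 16747752))) (a (c (l 16749248) (l 16747504)) (c (l 16748616) (l 16746944)))) (c (a (b (l 16748472) (l 16747704)) (c (l 16748000) (l 16747112))) (a (c (l 16746720) (l 16745800)) (c (l 16746224) (l 16745344)))))) (c (b (b (a (c (l 16750968) (l 16748960)) (c (c (l 16750840) (l 16749880))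 (l 16748448))) (c (a (l 16750440) (c (l 16750368) (l 16749368))) (a (l 16748360) (l 16747880)))) (c (a (c (b (l 16750480) (l 16750032)) (l 16749144)) (c (b (l 16749928) (l 16749528)) (b (l 16748896) (l 16748448)))) (a (b (l 16747784) (l 16747240)) (c (l 16747616) (l 16746568))))) (b (c (a (c (l 16747144) (l 16746144)) (c (l 16746712) (l 16745752))) (a (l 16744672) (c (l 16744800) (l 16743848)))) (c (a (c (l 16745880) (l 16744808)) (c (l 16745536) (l 16744504))) (a (l 16743224) (c (l 16743472) (l 16742456))))))), by decide +kernel⟩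

def k72_A00pm_102_s1 : ∃ t, chk3 f_A00pm_102_s1 t 255 36 2 = true :=
  ⟨(b (b (b (a (c (c (a (l 16752432) (l 16752016)) (a (l 16751640) (l 16751248))) (c (a (l 16750856) (l 16750480)) (l 16749888))) (c (b (a (l 16751352) (l 16750928)) (a (l 16751072) (l 16750656))) (a (c (l 16750096) (l 16749352)) (c (l 16749712) (l 16748984))))) (b (a (c (c (l 16751800) (l 16751000)) (l 16749800)) (c (a (l 16750800) (l 16750392)) (a (l 16749272) (l 16748904)))) (a (c (l 16751120) (l 16749488)) (c (a (l 16750536) (l 16750136)) (a (l 16748968) (l 16748624)))))) (b (a (c (c (l 16751136) (l 16750296)) (c (l 16749448) (l 16748608))) (c (b (a (l 16750280) (l 16749896)) (a (l 16750032) (l 16749656))) (c (a (l 16748944) (l 16748600)) (a (l 16748136) (l 16747808))))) (a (c (c (l 16750640) (l 16749760)) (c (l 16748888) (l 16748016))) (c (c (a (l 16750088) (l 16749720)) (a (l 16749248) (l 16748904))) (c (a (l 16748408) (l 16748088)) (a (l 16747568) (l 16747264))))))) (b (c (a (c (b (l 16750176) (l 16749744)) (b (l 16749264)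 (l 16748800))) (c (b (a (l 16749656) (l 16749304)) (a (l 16749256) (l 16748928))) (b (a (l 16748784) (l 16748456)) (a (l 16748352) (l 16748040))))) (a (b (c (l 16748352) (l 16747448)) (c (l 16747848) (l 16746904))) (b (a (l 16747472) (c (l 16747600) (l 16746752))) (a (l 16746984) (b (l 16746824) (l 16746600)))))) (c (a (b (b (l 16748960) (l 16748760)) (c (a (l 16749120) (l 16748840)) (l 16747960))) (c (b (a (l 16748896) (l 16748576)) (a (l 16748560) (c (l 16748504) (l 16748024)))) (b (a (l 16747944) (l 16747656)) (a (l 16747576) (l 16747304))))) (a (c (a (l 16747272) (l 16747032)) (a (l 16746256) (l 16746040))) (a (b (l 16746520) (l 16746096)) (c (b (l 16746736) (l 16746344)) (b (l 16745808) (l 16745384)))))))), by decide +kernel⟩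

def k73_A00pm_102_s1 : ∃ t, chk3 f_A00pm_102_s1 t 255 36 3 = true :=
  ⟨(b (b (a (c (b (c (l 16749120) (l 16748344)) (c (l 16748432) (l 16747624))) (c (a (l 16747336) (l 16747048)) (a (l 16746536) (l 16746272)))) (c (b (a (c (l 16748608) (l 16747864)) (c (l 16748264) (l 16747536))) (a (c (l 16747952) (l 16747176)) (c (l 16747632) (l 16746872)))) (b (a (c (l 16747112) (l 16746368)) (c (l 16746808) (l 16746072))) (a (l 16746008) (c (l 16746112) (l 16745352)))))) (b (a (c (c (l 16747776) (l 16746936)) (a (l 16745808) (l 16745560))) (c (a (c (l 16747328) (l 16746520)) (c (l 16747024) (l 16746232))) (a (l 16745304) (c (l 16745440) (l 16744648))))) (a (c (c (l 16747144) (l 16746272)) (l 16744976)) (c (a (l 16746312) (c (l 16746448) (l 16745624))) (a (l 16744624) (c (l 16744800) (l 16743976))))))) (b (b (a (c (c (l 16746544) (l 16745640)) (l 16744288)) (a (c (l 16745720) (l 16743968)) (c (c (l 16745896) (l 16745040)) (c (l 16744184) (l 16743320))))) (a (c (c (l 16745968) (l 16745024)) (l 16743624)) (c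 (c (a (l 16745616) (l 16745376)) (l 16744600)) (c (l 16743696) (l 16742792))))) (b (a (c (l 16744936) (l 16742992)) (c (c (l 16744992) (l 16744056)) (c (l 16743120) (l 16742184)))) (a (c (l 16744400) (l 16742376)) (c (c (l 16744520) (l 16743544)) (c (l 16742576) (l 16741600))))))), by decide +kernel⟩

def k74_A00pm_102_s1 : ∃ t, chk3 f_A00pm_102_s1 t 62 37 1 = true :=
  ⟨(a (b (a (b (a (l 16762888) (l 16761856)) (a (l 16761720) (l 16760664))) (b (a (l 16760800) (l 16759736)) (a (l 16759592) (l 16758504)))) (a (b (a (l 16760608) (l 16759528)) (c (l 16757048) (l 16750568))) (b (c (l 16755672) (l 16749704)) (c (l 16754776) (l 16748368))))) (c (b (a (b (a (l 16755984) (l 16754872)) (a (l 16754936) (l 16753800))) (b (a (l 16753736) (l 16752576)) (a (l 16752632) (l 16751448)))) (a (b (l 16753376) (l 16752440)) (a (l 16751096) (b (l 16750400) (l 16749416))))) (b (a (b (l 16750368) (l 16748896)) (b (l 16748152) (l 16746640))) (a (b (l 16747480) (l 16746112)) (b (l 16745192) (l 16743800)))))), by decide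 +kernel⟩

def k75_A00pm_102_s1 : ∃ t, chk3 f_A00pm_102_s1 t 126 37 2 = true :=
  ⟨(a (b (a (b (l 16751392) (l 16750248)) (b (l 16750192) (l 16749024))) (a (b (l 16749168) (l 16748176)) (c (b (l 16749392) (l 16748480)) (l 16745896)))) (b (a (b (c (l 16750224) (l 16747728)) (a (l 16748088) (a (l 16747616) (c (c (b (l 16749584) (l 16749152)) (l 16748016)) (c (l 16746680) (l 16745360)))))) (b (b (c (a (c (l 16750240) (l 16749016)) (l 16749352)) (l 16747128)) (c (c (a (l 16749792) (l 16749544)) (l 16748448)) (l 16746584))) (c (b (b (l 16748728) (l 16748520)) (c (l 16748920) (l 16747576))) (b (l 16746056) (l 16745584))))) (b (b (a (a (l 16747248) (b (b (c (l 16748296) (l 16745512)) (l 16746784)) (l 16746632))) (c (c (l 16748592) (l 16747200)) (l 16745144))) (a (a (l 16746704) (l 16746328)) (c (l 16747544) (l 16744704)))) (a (c (a (c (l 16748360) (l 16746792)) (l 16747288)) (l 16744408)) (c (a (l 16747120) (l 16746944)) (l 16744064)))))), by decide +kernel⟩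

def k76_A00pm_102_s1 : ∃ t, chk3 f_A00pm_102_s1 t 127 74 2 = true :=
  ⟨(a (c (b (a (c (b (l 16749624) (l 16749240)) (b (l 16748456) (l 16748032))) (c (b (l 16749152) (c (l 16749104) (l 16748528))) (b (l 16748040) (l 16747656)))) (b (a (c (l 16748904) (l 16747656)) (c (c (l 16748816) (l 16748216)) (l 16747312))) (a (c (c (l 16748920) (l 16748272)) (l 16747296)) (c (a (l 16748328) (l 16748144)) (l 16747000))))) (b (a (c (l 16747064) (l 16745896)) (c (l 16746712) (l 16745584))) (b (a (l 16745792) (l 16745528)) (a (l 16745376) (c (l 16745760) (l 16744536)))))) (b (c (a (c (b (a (l 16748784) (l 16748520)) (a (l 16748472) (l 16748240))) (b (l 16747592) (l 16747248))) (c (b (a (l 16748256) (c (l 16748240) (l 16747736))) (a (c (l 16748264) (l 16747728)) (c (l 16748000) (l 16747480)))) (b (a (l 16747232) (l 16746992)) (a (l 16746928) (l 16746704))))) (a (c (a (l 16746432) (l 16746232)) (a (l 16745344) (l 16745168))) (a (c (b (l 16746208) (l 16745864)) (l 16744984)) (c (b (l 16745984) (l 16745664)) (b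 (l 16744984) (l 16744624)))))) (b (c (a (c (a (l 16748200) (l 16747984)) (a (l 16747040) (l 16746848))) (c (a (c (l 16748040) (l 16747488)) (b (l 16747584) (l 16747488))) (a (l 16746656) (c (l 16746720) (l 16746184))))) (a (c (l 16745808) (l 16744664)) (c (a (l 16745552) (l 16745368)) (a (l 16744440) (l 16744288))))) (c (a (c (b (a (l 16748024) (l 16747824)) (a (l 16747912) (l 16747720))) (a (l 16746752) (l 16746576))) (c (b (a (l 16747616) (c (l 16747680) (l 16747120))) (a (l 16747520) (c (l 16747600) (l 16747032)))) (b (a (l 16746472) (l 16746288)) (a (l 16746360) (l 16746184))))) (a (c (l 16745480) (l 16744296)) (c (b (l 16745256) (a (l 16745200) (l 16745048))) (a (l 16744104) (l 16743968)))))))), by decide +kernel⟩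

def k77_A00pm_102_s1 : ∃ t, chk3 f_A00pm_102_s1 t 127 75 2 = true :=
  ⟨(b (a (b (c (a (c (c (l 16748608) (l 16747936)) (l 16746936)) (c (b (l 16748032) (l 16747840)) (l 16746648))) (a (l 16744952) (c (l 16745368) (l 16744104)))) (a (c (l 16747232) (l 16744496)) (c (c (l 16747552) (l 16746232)) (l 16744264)))) (b (b (a (c (c (a (l 16747760) (l 16747576)) (l 16746448)) (l 16744624)) (c (c (a (l 16747376) (c (l 16747464) (l 16746888))) (a (l 16746192) (l 16746016))) (c (a (l 16745016) (l 16744864)) (l 16743776)))) (a (c (c (l 16747464) (l 16746232)) (l 16744384)) (c (a (l 16746568) (c (l 16746960) (l 16745792))) (a (l 16744184) (l 16744040))))) (a (c (a (l 16746616) (l 16746424)) (l 16744008)) (c (a (c (l 16746840) (l 16745624)) (c (b (l 16746752) (l 16746544)) (l 16745432))) (a (l 16743800) (l 16743648)))))) (a (a (c (b (l 16746880) (l 16746544)) (l 16743816)) (c (b (c (l 16747192) (l 16745840)) (c (l 16746856) (l 16745464))) (a (l 16743616) (l 16743480)))) (b (a (c (a (l 16746232) (c (l 16746672)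 (l 16745392))) (l 16743552)) (c (a (c (l 16746448) (l 16745200)) (c (b (l 16746344) (l 16746144)) (l 16745000))) (a (l 16743328) (l 16743176)))) (a (c (a (l 16745856) (c (l 16746304) (l 16744992))) (l 16743104)) (c (b (a (l 16745544) (c (l 16745944) (l 16744704))) (a (l 16745352) (c (l 16745752) (l 16744504)))) (a (l 16742872) (c (l 16743336) (l 16742088)))))))), by decide +kernel⟩

def k78_A00pm_102_s1 : ∃ t, chk3 f_A00pm_102_s1 t 63 37 3 = true :=
  ⟨(b (a (a (b (l 16748480) (l 16744320)) (b (a (l 16744096) (c (c (l 16745064) (l 16743880)) (l 16742120))) (c (a (a (l 16744120) (l 16743528)) (l 16743256)) (a (l 16741248) (l 16740752))))) (a (b (c (a (c (l 16744736) (l 16743592)) (c (l 16744472) (l 16743360))) (a (l 16741888) (c (l 16742256) (l 16741160)))) (b (c (a (l 16743360) (l 16743176)) (a (l 16740960) (l 16740848))) (c (a (l 16742856) (l 16742704)) (a (l 16740376) (l 16740296))))) (b (b (a (c (l 16743888) (l 16741792)) (c (c (l 16744080) (l 16743064)) (c (l 16742056) (l 16741040)))) (a (c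 (l 16743416) (l 16741240)) (c (c (l 16743664) (l 16742608)) (c (l 16741560) (l 16740512))))) (b (a (c (l 16742968) (l 16740712)) (c (c (l 16743272) (l 16742184)) (c (l 16741096) (l 16740008)))) (a (c (c (l 16743120) (l 16741952)) (l 16740200)) (b (c (l 16742448) (l 16740208)) (c (l 16742264) (l 16739976)))))))) (a (a (b (l 16742840) (l 16741424)) (b (b (a (c (l 16742808) (l 16740120)) (l 16741128)) (a (l 16740808) (l 16740568))) (a (l 16739936) (l 16739736)))) (b (a (b (c (a (l 16742344) (l 16742216)) (a (l 16739784) (l 16739728))) (a (l 16740488) (l 16740392))) (b (a (c (b (l 16742208) (l 16741936)) (l 16739656)) (c (b (l 16742040) (l 16741760)) (b (l 16739720) (l 16739408)))) (a (l 16740272) (c (l 16741328) (l 16738936))))) (a (a (l 16739640) (b (l 16739840) (l 16739304))) (a (b (l 16739720) (l 16739176)) (a (c (l 16740504) (l 16738008)) (c (b (l 16740744) (l 16740224)) (l 16737944)))))))), by decide +kernel⟩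

def k79_A00pm_102_s1 : ∃ t, chk3 f_A00pm_102_s1 t 62 38 1 = true :=
  ⟨(a (b (a (b (c (l 16756264) (a (l 16749864) (l 16748760))) (c (a (l 16756120) (l 16754968)) (a (l 16748680) (l 16747568)))) (b (c (l 16753960) (a (l 16747648) (l 16746520))) (c (a (l 16753800) (l 16752616)) (a (l 16746440) (l 16745304))))) (a (b (c (a (l 16755512) (l 16754344)) (a (l 16747584) (l 16746464))) (c (l 16754392) (l 16746000))) (b (c (a (l 16753152) (l 16751952)) (a (l 16745328) (l 16744176))) (c (l 16751992) (l 16743704))))) (b (a (b (c (l 16751584) (l 16747432)) (c (a (l 16751408) (l 16750184)) (a (l 16744152) (l 16742984)))) (c (b (a (l 16749752) (l 16748512)) (c (l 16750168) (l 16746504))) (b (l 16742472) (a (l 16741808) (l 16740608))))) (a (b (c (l 16750120) (l 16747672)) (c (l 16749528) (l 16741360))) (c (a (b (l 16748248) (l 16747632)) (b (l 16746976) (l 16751592))) (b (l 16740048) (l 16738968)))))), by decide +kernel⟩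

def k80_A00pm_102_s1 : ∃ t, chk3 f_A00pm_102_s1 t 62 39 1 = true :=
  ⟨(a (b (a (c (b (l 16753936) (l 16760224)) (b (l 16745040) (l 16744152))) (b (c (l 16751512) (l 16742728)) (c (l 16751112) (l 16741824)))) (a (c (b (l 16770240) (l 16779408)) (l 16748184)) (c (b (l 16761896) (l 16753200)) (l 16745848)))) (a (b (b (c (l 16749024) (l 16740368)) (a (l 16744568) (l 16748576))) (b (c (l 16748280) (l 16738624)) (a (l 16743496) (c (l 16755336) (l 16737272))))) (b (a (b (c (l 16747112) (l 16738568)) (c (l 16746680) (l 16737648))) (b (c (c (l 16748016) (l 16743648)) (l 16737352)) (c (a (l 16745704) (c (l 16747376) (l 16742768))) (c (l 16738608) (l 16734272))))) (a (c (b (l 16746352) (a (l 16746440) (l 16745792))) (b (l 16736808) (b (l 16736240) (l 16741128)))) (b (c (a (c (l 16745568) (l 16742944)) (c (b (l 16747216) (l 16746312)) (b (l 16742416) (l 16742304)))) (a (l 16741128) (c (b (l 16737768) (l 16737536)) (l 16733104)))) (c (a (c (l 16743528) (b (l 16742656) (l 16742568))) (c (l 16745528) (l 16742240)))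 (a (c (b (l 16737720) (l 16737520)) (l 16732800)) (b (l 16740232) (l 16740064))))))))), by decide +kernel⟩

def k81_A00pm_102_s1 : ∃ t, chk3 f_A00pm_102_s1 t 126 38 1 = true :=
  ⟨(c (b (a (a (c (b (l 16748952) (l 16748232)) (l 16745072)) (b (c (a (l 16747984) (l 16747320)) (l 16744280)) (c (a (l 16747240) (c (l 22) (l 16745848))) (l 16743424)))) (b (a (c (a (l 16746952) (l 16746728)) (l 16743600)) (c (a (l 16746536) (l 16746336)) (l 16743304))) (c (c (l 22) (a (l 16745488) (l 16745088))) (a (l 16742912) (l 16742616))))) (c (a (a (b (a (l 16747952) (l 16747288)) (a (l 16747432) (l 22))) (b (b (a (l 16746776) (l 16746416)) (l 22)) (l 22))) (b (b (a (l 16746080) (c (l 22) (l 16744752))) (l 22)) (l 22))) (a (b (a (l 16743776) (a (l 16742880) (l 16742592))) (a (a (l 16743344) (l 16742704)) (b (l 16742384) (l 16742144)))) (b (a (l 16742352) (b (l 16742184) (l 16741896))) (a (b (l 16742000) (l 16741776)) (b (l 16741632) (l 16741384))))))) (b (a (b (a (l 16740672) (l 16739440)) (a (l 16739400) (l 16738264)))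 (b (a (l 16738856) (l 16738728)) (a (l 16737896) (l 16737784)))) (a (b (a (l 16738224) (l 16737320)) (a (c (l 16739048) (l 16735208)) (c (l 16738416) (l 16734656)))) (a (b (l 16737072) (l 16741568)) (b (l 16736936) (a (l 16736200) (l 16736112))))))), by decide +kernel⟩

def k82_A00pm_102_s1 : ∃ t, chk3 f_A00pm_102_s1 t 127 76 1 = true :=
  ⟨(c (a (b (b (a (c (l 16746224) (l 16743256)) (c (c (l 16746536) (l 16745104)) (l 16742976))) (a (c (l 16745920) (l 16742880)) (c (c (l 22) (l 16744760)) (l 16742584)))) (a (c (b (l 16745640) (c (l 22) (l 16744568))) (b (l 16742512) (l 16742168))) (c (c (l 22) (b (l 16744432) (l 16744120))) (b (l 16742200) (l 16741832))))) (b (b (a (c (a (l 16745496) (c (l 16745952) (l 16744600))) (l 16742672)) (c (b (a (l 16745160) (c (l 16745568) (l 16744296))) (a (l 16744976) (c (l 22) (l 16744096)))) (a (l 16742432) (c (l 16742896) (l 16741624))))) (a (c (a (l 16745152) (c (l 22) (l 16744232))) (l 16742264)) (a (c (c (l 22) (l 16744008)) (l 16742000)) (c (c (l 22) (a (l 16743840)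 (l 16743720))) (c (l 16742480) (l 16741176)))))) (a (b (c (a (l 16744824) (c (l 22) (l 16743872))) (l 16741856)) (c (c (l 22) (a (l 16743776) (l 16743536))) (a (l 16741560) (l 16741376)))) (b (a (c (c (l 22) (l 16743640)) (l 16741592)) (c (c (l 22) (a (l 16743464) (l 16743336))) (c (l 16742064) (l 16740736)))) (a (c (c (l 22) (b (l 16743392) (l 16743216))) (c (l 16741888) (l 16740488))) (c (c (l 22) (b (a (l 16743208) (l 16743080)) (l 16742960))) (c (b (l 16741784) (l 16741592)) (l 16740312)))))))) (a (b (a (l 16738616) (b (l 16738784) (l 16738280))) (a (b (l 16737928) (l 16737464)) (b (l 16737792) (l 16737320)))) (b (a (b (l 16743888) (c (l 16739504) (l 16736768))) (a (c (l 16742128) (l 16736888)) (c (b (l 16739712) (l 16739216)) (l 16736816)))) (a (b (c (l 16739040) (l 16736240)) (c (l 16738584) (l 16735720))) (b (c (a (l 16738864) (l 16738736)) (l 16736112)) (c (a (l 16738400) (l 16738264)) (l 16735584))))))), by decide +kernel⟩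

def k83_A00pm_102_s1 : ∃ t, chk3 f_A00pm_102_s1 t 127 77 1 = true :=
  ⟨(a (c (c (c (l 22) (b (b (a (l 16744304) (l 16743832)) (l 22)) (l 22))) (b (a (b (l 16741848) (l 16741536)) (b (l 16741488) (l 16741152))) (a (b (l 16741248) (l 16740968)) (b (l 16740840) (c (l 16741368) (l 16739704)))))) (b (a (c (l 16738392) (l 16735184)) (c (l 16740768) (l 16735064))) (a (c (l 16737656) (l 16734296)) (b (l 16736000) (l 16740832))))) (c (b (c (c (l 22) (b (b (a (l 16743432) (a (l 16743048) (l 16742784))) (l 22)) (l 22))) (a (b (a (l 16741200) (l 16741000)) (a (l 16740848) (l 16740640))) (b (a (c (l 16741512) (l 16740088)) (c (a (l 16741344) (l 16741232)) (l 16739896))) (a (c (l 16741160) (l 16739696)) (c (a (l 16740976) (l 16740856)) (l 16739496)))))) (c (l 22) (a (b (a (l 16740512) (l 16740296)) (a (l 16740192) (l 16739960))) (b (a (c (l 16740816) (l 16739320)) (c (b (l 16740664) (l 16740488)) (l 16739112))) (a (c (l 16740480) (l 16738960)) (c (b (l 16740312) (l 16740144)) (l 16738736))))))) (b (a (c (b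 (l 16738152) (l 16737728)) (b (l 16735216) (l 16734736))) (c (b (a (l 16737952) (l 16737808)) (a (l 16737512) (l 16737368))) (b (l 16735072) (l 16734576)))) (a (c (b (l 16737320) (l 16736928)) (b (l 16734256) (l 16733800))) (c (b (a (l 16737096) (l 16736936)) (a (l 16736688) (l 16736520))) (b (l 16734088) (l 16733616))))))), by decide +kernel⟩

def k84_A00pm_102_s1 : ∃ t, chk3 f_A00pm_102_s1 t 126 39 1 = true :=
  ⟨(b (c (c (a (a (a (a (a (b (l 16747272) (l 16746952)) (l 22)) (l 22)) (l 22)) (l 22)) (l 22)) (a (b (a (a (l 16742664) (b (l 16742320) (l 16742136))) (b (l 16741968) (l 16741808))) (a (a (b (l 16742304) (l 16742160)) (l 16741928)) (b (l 16741664) (l 16741536)))) (b (a (b (l 16741568) (l 16741376)) (b (l 16741152) (l 16740928))) (a (b (l 16741208) (l 16741048)) (b (l 16740728) (l 16740544)))))) (a (b (a (a (l 16741656) (l 16741288)) (c (l 16737824) (l 16733888))) (a (c (b (l 16737840) (l 16737600)) (l 16733472)) (c (l 16737352) (l 16733232)))) (b (c (a (l 16737560) (l 16737280)) (a (l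 16733768) (l 16733624))) (a (c (l 16737040) (l 16733072)) (b (l 16734976) (l 16739912)))))) (a (b (c (a (c (b (l 16746608) (l 16747384)) (b (l 16741928) (l 16741864))) (c (l 22) (b (l 16741424) (l 22)))) (a (b (l 16740400) (l 16740192)) (c (l 16739568) (l 16732648)))) (c (a (a (b (l 16744400) (l 16744424)) (l 22)) (l 22)) (a (c (b (l 16737080) (l 16736960)) (l 16732368)) (c (b (l 16736704) (l 16736552)) (l 16732144))))) (b (b (a (c (c (l 22) (l 16740912)) (l 16739896)) (c (c (l 22) (l 16740376)) (l 16739616))) (c (l 22) (c (a (l 16736504) (l 16736120)) (l 16732216)))) (c (l 22) (a (c (b (l 16736312) (l 16736136)) (l 16731896)) (c (b (l 16735904) (l 16735696)) (l 16731640))))))), by decide +kernel⟩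

def k85_A00pm_102_s1 : ∃ t, chk3 f_A00pm_102_s1 t 127 78 1 = true :=
  ⟨(a (b (a (c (c (l 22) (b (l 16740712) (l 16740464))) (b (l 16735424) (l 16740312))) (c (c (l 22) (b (c (l 16741096) (l 16739400)) (c (l 22) (l 16739112)))) (c (b (l 16736872) (l 16736528)) (l 16733288)))) (c (c (l 22) (a (b (l 16740232) (l 16742640)) (c (l 22) (a (l 16738792) (l 16738544))))) (a (c (b (l 16736544) (l 16736256)) (l 16732704)) (c (b (l 16736200) (l 16735880)) (l 16732496))))) (c (b (c (l 22) (c (b (b (a (l 16740656) (a (l 16740256) (l 16739984))) (l 22)) (l 22)) (a (b (l 16738960) (l 16738640)) (b (a (l 16738616) (l 16738376)) (a (l 16738280) (c (l 16738416) (l 16737640))))))) (c (l 22) (c (l 22) (a (b (a (l 16738464) (l 16738216)) (a (l 16738184) (l 16737920))) (b (a (l 16737960) (c (l 16738088) (l 16737304))) (a (l 16737648) (c (l 22) (l 16736976)))))))) (b (a (c (b (l 16736544) (l 16736184)) (b (l 16733352) (l 16732920))) (c (b (a (l 16736288) (l 16736112)) (a (l 16735912) (c (l 16736488) (l 16734952))))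 (b (l 16733152) (l 16732704)))) (a (c (b (c (l 16736664) (l 16735000)) (c (l 16736344) (l 16734640))) (b (l 16732504) (l 16732104))) (c (b (a (l 16735544) (c (l 16736128) (l 16734560))) (a (l 16735184) (c (l 16735776) (l 16734176)))) (b (l 16732272) (l 16734472))))))), by decide +kernel⟩

def k86_A00pm_102_s1 : ∃ t, chk3 f_A00pm_102_s1 t 127 79 1 = true :=
  ⟨(a (c (c (l 22) (c (l 22) (b (b (a (l 16738856) (l 16738328)) (l 22)) (l 22)))) (b (a (c (b (l 16735976) (l 16735720)) (l 16732008)) (c (b (l 16735584) (l 16735296)) (b (l 16731968) (l 16731608)))) (a (c (b (l 16735472) (l 16735248)) (l 16733992)) (c (b (l 16735032) (l 16737400)) (b (l 16731272) (l 16730944)))))) (b (c (b (b (c (l 22) (c (l 22) (a (l 16737856) (a (l 16737440) (l 16737152))))) (l 22)) (l 22)) (a (c (b (c (l 16736040) (l 16734304)) (c (l 16735744) (l 16733976))) (b (l 16731712) (l 16731336))) (c (b (a (l 16734848) (c (l 16735440) (l 16733808))) (a (l 16737144) (c (l 16735112) (l 16733456)))) (b (a (l 16731512) (l 16731376))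 (c (l 16731888) (l 16730216)))))) (c (l 22) (a (c (a (b (l 16734688) (l 16734408)) (b (l 16734448) (l 16734160))) (b (l 16730976) (l 16730632))) (c (a (b (c (l 16735072) (l 16733344)) (c (l 16734792) (l 16733024))) (b (b (l 16734048) (l 16733896)) (c (a (l 16734584) (l 16734440)) (l 16732792)))) (a (b (l 16730744) (l 16730384)) (b (l 16730584) (l 16730216)))))))), by decide +kernel⟩

def k87_A00pm_102_s1 : ∃ t, chk3 f_A00pm_102_s1 t 14 40 1 = true :=
  ⟨(a (b (a (b (a (l 16858936) (l 16854400)) (a (l 16880360) (l 16886520))) (a (b (l 16859360) (a (l 16890584) (l 16892952))) (b (a (l 16883208) (l 16884608)) (l 16853928)))) (a (a (b (l 16891376) (l 16902488)) (b (l 16876840) (l 16909232))) (a (b (l 16861520) (l 16915272)) (c (l 16951408) (l 16855112))))) (c (a (b (a (l 16932680) (l 16854840)) (a (l 16959912) (l 16967040))) (b (a (c (l 16969744) (l 16873200)) (a (l 16859512) (l 16858960))) (a (l 16888392) (l 16891112)))) (b (a (a (a (l 16851824) (l 16849184)) (a (l 16845672) (l 16841168))) (a (a (l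 16814584) (b (l 16822008) (l 16835464))) (a (b (l 16813368) (l 16827560)) (b (l 16803088) (l 16818136))))) (a (a (a (l 16874400) (l 16872448)) (a (l 16869728) (l 16824208))) (a (a (l 16819664) (l 16814040)) (a (b (l 16841928) (l 16856408)) (b (l 16833320) (l 16848592)))))))), by decide +kernel⟩

def k88_A00pm_102_s1 : ∃ t, chk3 f_A00pm_102_s1 t 14 41 1 = true :=
  ⟨(b (a (a (a (b (l 16913744) (l 16925296)) (l 16884800)) (a (c (l 16967808) (l 16897968)) (c (l 16977848) (l 16867088)))) (c (a (a (l 16987080) (l 16995184)) (a (l 17001752) (l 17006232))) (a (a (b (l 16891192) (l 16903104)) (b (l 16844936) (l 16857576))) (a (b (l 16837344) (l 16850944)) (b (a (l 16870936) (l 16863872)) (a (l 16885448) (l 16879104))))))) (a (c (a (b (l 16970888) (b (l 16980696) (l 16987256))) (b (l 16992496) (b (l 17002424) (l 17009040)))) (b (a (a (l 16908152) (l 16911896)) (a (l 16914512) (l 16915680))) (c (a (b (l 16934088) (l 16939832)) (b (l 16943640) (a (l 16947472) (l 16951288)))) (a (b (l 16902392) (a (l 16906376)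 (l 16908472))) (a (b (l 16903976) (l 16909328)) (b (l 16903112) (l 16887672))))))) (c (a (b (l 16927968) (b (l 17022120) (l 16987000))) (b (l 16942752) (b (l 17037656) (l 16961064)))) (b (a (a (l 16915048) (l 16870208)) (a (a (l 16908160) (l 16904472)) (a (l 16899856) (l 16810304)))) (c (a (a (b (l 16947560) (l 16953728)) (b (l 16948008) (l 16954440))) (a (b (l 16946152) (l 16952952)) (b (l 16941392) (l 16948672)))) (a (a (b (l 16900264) (a (l 16906888) (l 16905032))) (b (l 16894968) (a (l 16860616) (a (l 16900256) (l 16898488))))) (a (b (l 16886632) (a (a (l 16896528) (l 16852408)) (a (l 16850024) (l 16868368)))) (b (l 16832592) (b (b (b (l 16878464) (b (l 16879048) (l 16879400))) (l 16880544)) (l 16883424)))))))))), by decide +kernel⟩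

def k89_A00pm_102_s1 : ∃ t, chk3 f_A00pm_102_s1 t 30 40 1 = true :=
  ⟨(c (c (a (b (a (l 16976520) (l 16973736)) (a (l 17011152) (l 17011528))) (a (b (b (l 16954192) (l 16975648)) (l 17006984)) (b (b (l 16852024) (l 16960416)) (l 16995936)))) (a (b (a (b (l 16852760) (l 16911864)) (a (l 16851200) (b (l 16874184) (l 16894024)))) (a (b (l 16928936) (l 16945872)) (b (l 16917504) (l 16936288)))) (a (b (a (b (l 16862352) (l 16883568)) (b (l 16848008) (l 16870808))) (b (l 16815232) (l 16920336))) (a (b (b (l 16830784) (l 16855440)) (l 16807496)) (b (b (l 16810280) (l 16837080)) (l 16792072)))))) (a (a (a (b (b (l 16790960) (l 16806992)) (b (l 16823128) (l 16797352))) (b (b (l 16776744) (l 16793912)) (b (l 16811136) (l 16828344)))) (a (b (b (l 16760176) (l 16778664)) (b (l 16797144) (l 16815536))) (b (b (l 16774256) (l 16781936)) (b (l 16780880) (l 16800632))))) (a (b (a (b (l 16751056) (l 16750512)) (b (l 16748808) (l 16748248))) (a (a (l 16777480) (l 16767808)) (a (l 16778400) (l 16746936)))) (b (a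 (b (l 16746544) (l 16745976)) (l 16749176)) (a (l 16750464) (l 16742928)))))), by decide +kernel⟩

def k90_A00pm_102_s1 : ∃ t, chk3 f_A00pm_102_s1 t 124 40 1 = true :=
  ⟨(a (b (c (b (l 16766736) (l 16795128)) (l 16741624)) (c (l 16794104) (l 16740624))) (b (c (b (l 16743392) (l 16774432)) (a (l 16739872) (l 16738688))) (c (c (l 16969672) (l 16741432)) (b (l 16738536) (l 16732888))))), by decide +kernel⟩

def k91_A00pm_102_s1 : ∃ t, chk3 f_A00pm_102_s1 t 125 40 1 = true :=
  ⟨(a (c (c (b (b (l 16749064) (l 16823696)) (b (l 16855064) (l 16969120))) (b (a (l 16750240) (b (l 16744552) (l 16751088))) (a (b (l 16758832) (l 16748984)) (b (a (l 16747944) (l 16740360)) (l 16741256))))) (b (a (b (l 16737816) (l 16737240)) (b (l 16736608) (b (l 16736176) (l 16735920)))) (b (a (l 16736760) (b (c (l 16738496) (l 16732880)) (a (l 16735768) (c (l 16738160) (l 16732432))))) (a (a (l 16736664) (b (l 16736168) (l 16730744))) (c (a (l 16738600) (l 16738232)) (a (b (l 16732672) (l 16732600)) (l 16732360))))))) (c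 (a (c (b (a (b (l 16774920) (l 16809600)) (b (l 16746984) (l 16803568))) (b (l 16840296) (l 16956352))) (b (b (a (l 16743592) (b (l 16743000) (l 16742960))) (a (l 16743464) (l 16743040))) (b (b (l 16740472) (l 16737592)) (l 16743056)))) (c (b (c (b (l 16798664) (l 16918544)) (b (l 16746936) (l 16753344))) (b (l 16829264) (l 16946760))) (b (b (b (l 16742416) (l 16742424)) (b (l 16742472) (l 16742544))) (b (l 16743336) (l 16738536))))) (b (b (a (b (c (l 16738088) (l 16733032)) (a (l 16735552) (c (l 16737624) (l 16732456)))) (b (c (l 16737304) (l 16732352)) (c (l 16737216) (l 16732168)))) (a (a (b (c (l 16737944) (l 16732624)) (c (l 16737832) (l 16732384))) (c (l 16737544) (b (l 16732272) (l 16732144)))) (c (b (l 16737168) (l 16737144)) (b (l 16732032) (l 16731912))))) (b (a (b (c (l 16737688) (l 16732176)) (c (l 16737696) (l 16732096))) (c (b (l 16737136) (l 16737144)) (l 16734392))) (a (b (c (l 16737752) (l 16732064)) (l 16732288)) (c (l 16737184) (l 16731648))))))), by decide +kernel⟩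

def k92_A00pm_102_s1 : ∃ t, chk3 f_A00pm_102_s1 t 126 40 1 = true :=
  ⟨(b (c (a (a (a (b (c (l 16745488) (l 16741928)) (c (l 16783808) (l 16741984))) (l 22)) (l 22)) (l 22)) (a (b (a (c (b (l 16736856) (l 16736768)) (l 16731976)) (c (b (l 16736424) (l 16736304)) (l 16731704))) (a (c (b (l 16736696) (l 16736640)) (l 16736896)) (c (l 16738776) (l 16731336)))) (b (a (c (b (l 16735976) (l 16735832)) (l 16731416)) (c (b (l 16735512) (l 16735344)) (l 16733736))) (a (c (b (l 16735704) (l 16735592)) (l 16731000)) (c (b (l 16735184) (l 16735048)) (b (l 16730776) (l 16730560))))))) (a (a (b (c (c (l 16817168) (l 16741904)) (c (l 16736584) (l 16731408))) (c (c (l 16852304) (l 16743296)) (b (l 16733904) (l 16733872)))) (c (l 22) (b (c (l 16736024) (l 16731032)) (c (l 22) (l 16730800))))) (c (l 22) (c (b (b (a (l 16735496) (l 16734920)) (l 22)) (l 22)) (b (a (l 16730648) (b (l 16730360) (l 16730176))) (a (l 16730368) (b (l 16730000) (l 16729848)))))))), by decide +kernel⟩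

def k93_A00pm_102_s1 : ∃ t, chk3 f_A00pm_102_s1 t 127 80 1 = true :=
  ⟨(a (c (l 22) (b (a (c (b (l 16735032) (l 16734832)) (b (l 16730952) (l 16730680))) (c (b (c (l 16735520) (l 16733560)) (c (l 22) (l 16733312))) (b (l 16730632) (l 16730344)))) (a (c (b (l 16734656) (l 16734488)) (b (l 16730424) (l 16730184))) (c (c (l 22) (a (l 16733088) (l 16732824))) (b (l 16730064) (l 16729792)))))) (a (c (l 22) (b (c (a (b (l 16734152) (l 16733904)) (b (l 16733888) (l 16736256))) (b (l 16730304) (l 16729984))) (c (c (l 22) (b (l 16732568) (l 16732328))) (b (l 16729680) (l 16732016))))) (c (l 22) (b (c (a (b (c (l 16734520) (l 16732728)) (c (l 22) (l 16732440))) (b (c (a (l 16734304) (l 16734152)) (l 16732480)) (c (l 22) (l 16732176)))) (a (b (l 16730040) (l 16729704)) (b (l 16729856) (l 16729512)))) (c (c (l 22) (a (b (l 16732168) (l 16731912)) (b (l 16731896) (a (l 16731696) (l 16731552))))) (a (b (l 16729384) (l 16729080)) (b (l 16731800) (c (l 16729784) (l 16727944))))))))), by decide +kernel⟩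

def k94_A00pm_102_s1 : ∃ t, chk3 f_A00pm_102_s1 t 127 81 1 = true :=
  ⟨(a (c (l 22) (c (b (b (a (l 16734336) (a (l 16733880) (l 16733576))) (l 22)) (l 22)) (b (a (b (l 16729960) (l 16729752)) (b (l 16729544) (l 16729312))) (a (b (l 16729552) (l 16729376)) (b (l 16729088) (l 16728888)))))) (c (l 22) (a (b (c (b (c (l 22) (l 16732104)) (l 22)) (b (c (l 16730112) (l 16728128)) (c (l 16729872) (l 16727848)))) (c (l 22) (b (c (l 16729640) (l 16727592)) (c (l 16729424) (l 16727344))))) (c (c (l 22) (b (b (a (l 16731664) (a (l 16731440) (l 16731288))) (l 22)) (l 22))) (b (a (b (l 16728784) (l 16728512)) (b (c (l 16729496) (l 16727624)) (c (l 16729224) (l 16727320)))) (a (b (l 16730864) (c (l 16729000) (l 16726992))) (b (c (l 16728960) (l 16727032)) (c (a (l 16728784) (l 16728640)) (l 16726752))))))))), by decide +kernel⟩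

def k95_A00pm_102_s1 : ∃ t, chk3 f_A00pm_102_s1 t 30 41 1 = true :=
  ⟨(a (c (b (a (l 16924064) (l 16922128)) (b (a (l 17032488) (l 17032640)) (b (l 17045472) (l 16990752)))) (b (a (b (a (l 16813496) (l 16803536)) (a (l 16787608) (l 16820520))) (b (a (l 16833792) (l 16820176)) (a (l 16809904) (l 16839456)))) (b (a (a (l 16803472) (l 16795328)) (a (l 16785728) (l 16774480))) (b (a (b (l 16809640) (l 16813552)) (b (l 16791600) (l 16795976))) (a (b (b (b (l 16815936) (a (l 16820264) (l 16813024))) (l 16818272)) (l 16821416)) (a (b (a (l 16828328) (l 16802728)) (l 16893336)) (a (l 16800088) (l 16794752)))))))) (c (a (b (a (l 16917608) (l 16912824)) (b (l 17028672) (b (l 17042880) (l 17052200)))) (b (a (l 16906392) (l 16898072)) (b (l 17019368) (b (l 17035248) (b (l 16959112) (l 17048168)))))) (b (a (a (b (l 16804400) (l 16825064)) (b (l 16786192) (l 16808448))) (a (a (l 16782576) (l 16771864)) (l 16743872))) (a (b (a (l 16845296) (l 16830168)) (b (b (l 16850856) (l 16813904)) (a (a (l 16788984) (l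 16782776)) (a (l 16776096) (l 16810872))))) (b (a (l 16812744) (l 16750800)) (b (b (l 16776032) (l 16760856)) (b (b (b (l 16743448) (a (l 16837368) (b (l 16819008) (l 16735824)))) (l 16767912)) (l 16772408)))))))), by decide +kernel⟩

def k96_A00pm_102_s1 : ∃ t, chk3 f_A00pm_102_s1 t 31 82 1 = true :=
  ⟨(a (c (b (c (a (l 17015288) (a (l 16998088) (l 16983080))) (a (a (l 16897936) (l 16795776)) (a (a (l 16779960) (l 16768424)) (b (l 16740888) (l 16757848))))) (c (a (l 17040104) (l 16935944)) (a (a (l 16923752) (l 16823704)) (a (a (l 16893688) (l 16799544)) (l 16740624))))) (a (a (a (l 16740488) (l 16739344)) (a (b (l 16738392) (l 16738144)) (b (l 16731992) (b (l 16731816) (l 16731848))))) (c (a (b (a (a (l 16739552) (l 16739136)) (l 16738584)) (b (l 16732096) (l 16737872))) (b (b (l 16737584) (l 16737664)) (b (l 16737760) (l 16737856)))) (a (b (a (a (l 16733272) (l 16730288)) (b (l 16732480) (l 16732528))) (b (l 16732864) (l 16732928))) (b (b (l 16731832) (l 16731832)) (b (l 16731848) (l 16731880)))))))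 (a (a (b (c (c (l 16880824) (b (l 16731960) (l 16740032))) (b (a (l 16733856) (l 16733296)) (a (l 16733856) (l 16733264)))) (c (c (l 16997232) (b (l 16737168) (l 16765328))) (b (a (l 16733864) (l 16733248)) (a (l 16733888) (l 16733240))))) (c (l 22) (c (l 22) (b (a (l 16730144) (b (l 16729712) (l 16729592))) (b (l 16729760) (l 16729680)))))) (a (c (l 22) (c (l 22) (b (a (b (l 16729208) (l 16729064)) (b (l 16728696) (l 16728520))) (a (b (l 16728928) (l 16728808)) (b (l 16728360) (l 16728216)))))) (b (c (l 22) (c (l 22) (a (b (a (l 16728304) (l 16728032)) (a (l 16728104) (l 16727824))) (a (b (c (l 16728784) (l 16726744)) (c (l 22) (l 16726504))) (b (c (a (l 16728560) (l 16728408)) (l 16726488)) (c (l 22) (l 16726240))))))) (c (l 22) (c (l 22) (c (l 22) (a (b (l 16726696) (l 16726504)) (b (a (l 16726288) (a (l 16726080) (l 16725944))) (a (l 16726080) (b (l 16725848) (l 16725736)))))))))))), by decide +kernel⟩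

def k97_A00pm_102_s1 : ∃ t, chk3 f_A00pm_102_s1 t 62 83 1 = true :=
  ⟨(c (a (a (b (l 16924008) (b (l 17025408) (l 16953024))) (b (l 16830008) (b (l 17016456) (l 16944728)))) (c (b (l 17047352) (b (l 17067168) (l 17080000))) (b (a (l 16833984) (c (l 16934072) (l 16736336))) (b (b (l 16842856) (l 16850016)) (b (b (b (l 16938312) (a (l 16948280) (b (l 16930584) (l 16931472)))) (l 16942664)) (l 16948000)))))) (b (b (a (a (l 16742096) (a (l 16732824) (l 16737216))) (a (l 16730976) (l 16729680))) (a (a (l 16734656) (c (l 16730960) (l 16734392))) (a (l 16736352) (l 16735000)))) (a (a (b (b (l 16744696) (l 16730384)) (b (b (b (l 16755440) (b (l 16798592) (l 16757424))) (l 16801448)) (l 16806456))) (b (b (l 16720416) (l 16727680)) (b (b (b (l 16774112) (b (l 16775432) (l 16734360))) (l 16778552)) (l 16783952)))) (a (b (b (l 16736448) (l 16732288)) (b (b (b (l 16747640) (b (l 16749080) (l 16739544))) (l 16752464)) (l 16758304))) (b (b (l 16735048) (l 16735064)) (b (b (b (l 16735056) (b (l 16735032) (a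 (l 16735368) (l 16734648)))) (l 16735024)) (l 16735104))))))), by decide +kernel⟩

def k98_A00pm_102_s1 : ∃ t, chk3 f_A00pm_102_s1 t 63 83 1 = true :=
  ⟨(b (a (c (c (a (l 17028168) (l 16927624)) (a (b (l 16782576) (l 16799408)) (l 22))) (a (b (a (l 16733920) (l 16733248)) (a (l 16733960) (l 22))) (b (a (l 16732560) (l 16731864)) (l 22)))) (b (b (c (l 22) (c (l 22) (b (a (l 16728440) (a (l 16727512) (c (l 22) (l 16725808)))) (l 22)))) (l 22)) (l 22))) (c (c (c (a (b (l 17082192) (l 17096632)) (b (l 22) (b (l 22) (l 17072424)))) (a (a (b (l 17012728) (l 17027464)) (l 22)) (l 22))) (a (b (a (b (l 16895632) (l 16819832)) (l 22)) (a (a (b (b (b (l 16914144) (b (l 16915584) (l 16916528))) (l 16918968)) (l 16924832)) (l 22)) (l 22))) (l 22))) (a (a (a (b (b (l 16733976) (l 16733984)) (b (b (b (l 16733960) (b (l 16733944) (l 16739168))) (l 16733928)) (l 16733984))) (l 22)) (l 22)) (l 22)))), by decide +kernel⟩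

def k99_A00pm_102_s1 : ∃ t, chk3 f_A00pm_102_s1 t 14 21 1 = true :=
  ⟨(a (a (a (b (b (l 16881864) (l 16987256)) (l 17018656)) (b (b (l 16889704) (l 16995672)) (l 17027856))) (a (b (b (l 16897008) (l 17003664)) (l 16952904)) (b (b (a (l 16902008) (l 16905064)) (l 16927168)) (l 16961424)))) (a (c (b (b (l 16961416) (l 17070632)) (l 17106840)) (a (b (b (l 16903280) (l 16969544)) (l 17005152)) (b (b (c (l 16970768) (l 16875200)) (l 16969792)) (l 17007368)))) (c (b (b (l 16978992) (l 17090640)) (l 17130056)) (a (b (b (a (l 16857744) (l 16855304)) (l 16968048)) (l 16924128)) (b (b (a (l 16852096) (l 16848024)) (l 16879904)) (l 16922784)))))), by decide +kernel⟩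

def k100_A00pm_102_s1 : ∃ t, chk3 f_A00pm_102_s1 t 30 21 1 = true :=
  ⟨(c (b (a (b (l 16990184) (l 17105536)) (a (l 17093424) (l 16965384))) (a (l 17149736) (c (l 17208328) (l 17116920)))) (a (b (a (b (a (l 16843000) (l 16836912)) (l 16872528)) (b (a (l 16829624) (l 16821008)) (l 16861264))) (a (b (l 16987688) (l 17017720)) (b (l 16979416) (l 17012120)))) (a (b (b (a (l 16810904) (l 16883024)) (l 16845168)) (b (l 16967008) (l 17002992))) (c (b (a (l 16942008) (l 16846928)) (l 17018768)) (b (b (a (l 16818072) (l 16799256)) (l 16740216)) (b (l 16742288) (l 16941064))))))), by decide +kernel⟩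

def k101_A00pm_102_s1 : ∃ t, chk3 f_A00pm_102_s1 t 31 21 1 = true :=
  ⟨(c (b (b (a (a (l 16977952) (a (l 16966264) (l 16871968))) (c (a (l 17010248) (a (l 17074520) (c (l 17101248) (l 22)))) (a (a (b (l 16855272) (l 16969312)) (l 22)) (l 22)))) (a (a (l 17105488) (l 17010656)) (c (a (l 17147360) (l 17044160)) (a (a (l 17012016) (l 16912336)) (c (a (l 17016592) (l 22)) (l 22)))))) (a (a (l 17165024) (l 17077152)) (c (a (l 17218096) (l 17124848)) (a (b (l 17058944) (l 17108600)) (b (a (l 17038176) (c (l 17060424) (l 22))) (l 17002904)))))) (a (b (b (a (a (l 16752016) (l 16736984)) (a (b (l 16735544) (l 16765328)) (a (l 16731104) (l 16738032)))) (a (a (l 16801824) (l 16743160)) (a (l 16734504) (a (l 16749840) (l 16738176))))) (c (a (b (l 16981120) (l 17024184)) (b (a (l 16962984) (l 16948312)) (l 17004488))) (a (a (l 16733496) (l 16728880)) (b (a (l 16758976) (l 16737656)) (a (l 16894296) (l 16792656)))))) (b (a (a (a (a (b (l 16747864) (l 16728920)) (l 22)) (l 22)) (l 22)) (l 22)) (c (a (b (a (l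 16847392) (l 22)) (a (l 16984824) (l 16885064))) (b (l 22) (c (a (l 16986208) (l 22)) (l 22)))) (a (a (a (a (l 16731160) (l 22)) (l 22)) (l 22)) (l 22)))))), by decide +kernel⟩

def k102_A00pm_102_s1 : ∃ t, chk3 f_A00pm_102_s1 t 7 11 1 = true :=
  ⟨(a (a (a (b (b (l 17063488) (l 17100712)) (l 17150392)) (b (b (l 16999632) (l 17122576)) (l 17174408))) (a (b (b (c (l 17151480) (l 17052768)) (l 17144080)) (l 17198840)) (b (b (c (l 17178192) (l 16975504)) (l 17164384)) (l 17223232)))) (a (a (b (b (a (l 17045184) (l 17049952)) (l 17098224)) (l 17162848)) (b (c (l 17167224) (b (a (l 17053304) (l 16961128)) (l 17112784))) (c (l 17341992) (l 17193088)))) (b (c (a (b (l 17131576) (l 17298064)) (a (b (l 17236592) (l 17307528)) (b (a (l 17232456) (l 17143832)) (l 17309192)))) (b (b (a (a (l 16928688) (a (l 16914024) (l 16902184))) (c (a (l 17027888) (a (l 17006568) (c (l 17025320) (l 22)))) (a (a (l 16826744) (l 22)) (l 22)))) (a (a (l 17051608) (l 16951832)) (c (a (l 17074328) (a (l 17057536) (l 17043824)))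 (a (a (l 16960536) (l 16860904)) (c (a (l 16959552) (l 22)) (l 22)))))) (a (a (l 17105128) (c (l 17146920) (l 17042680))) (c (a (l 17136808) (b (l 17098848) (l 17142456))) (a (b (l 17000264) (l 17043816)) (b (a (l 16978744) (c (l 16994680) (l 22))) (a (l 17026208) (l 17012224)))))))) (c (b (a (l 17350064) (l 17370776)) (a (l 17393608) (l 17422328))) (b (c (a (l 17212600) (a (l 17208768) (l 17201112))) (a (a (l 17123544) (l 17115344)) (a (l 17019096) (b (l 16980280) (l 17106000))))) (a (c (l 17266016) (l 17179904)) (a (l 17221520) (l 6)))))))), by decide +kernel⟩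

def k103_A00pm_102_s1 : ∃ t, chk3 f_A00pm_102_s1 t 3 3 1 = true :=
  ⟨(a (b (b (b (a (a (l 17058632) (l 17089912)) (a (l 17125304) (l 17168288))) (a (l 17176048) (a (l 17165168) (l 17208200)))) (a (l 17406720) (a (l 17204960) (l 17330552)))) (l 6)) (b (b (a (b (a (l 17217616) (l 17187632)) (a (l 17258992) (l 17315600))) (a (b (a (l 17313864) (l 17342112)) (l 6)) (l 6))) (a (l 6) (l 6))) (l 6))), by decide +kernel⟩

theorem t104_A00pm_102_s1 : ∃ t, chk3 f_A00pm_102_s1 t 15 21 1 = true := ex3_a k100_A00pm_102_s1 k101_A00pm_102_s1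

theorem t105_A00pm_102_s1 : ∃ t, chk3 f_A00pm_102_s1 t 7 21 1 = true := ex3_a k99_A00pm_102_s1 t104_A00pm_102_s1

theorem t106_A00pm_102_s1 : ∃ t, chk3 f_A00pm_102_s1 t 31 83 1 = true := ex3_a k97_A00pm_102_s1 k98_A00pm_102_s1

theorem t107_A00pm_102_s1 : ∃ t, chk3 f_A00pm_102_s1 t 31 41 1 = true := ex3_b k96_A00pm_102_s1 t106_A00pm_102_s1

theorem t108_A00pm_102_s1 : ∃ t, chk3 f_A00pm_102_s1 t 15 41 1 = true := ex3_a k95_A00pm_102_s1 t107_A00pm_102_s1

theorem t109_A00pm_102_s1 : ∃ t, chk3 f_A00pm_102_s1 t 127 40 1 = true := ex3_b k93_A00pm_102_s1 k94_A00pm_102_s1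

theorem t110_A00pm_102_s1 : ∃ t, chk3 f_A00pm_102_s1 t 63 40 1 = true := ex3_a k92_A00pm_102_s1 t109_A00pm_102_s1

theorem t111_A00pm_102_s1 : ∃ t, chk3 f_A00pm_102_s1 t 62 40 1 = true := ex3_a k90_A00pm_102_s1 k91_A00pm_102_s1

theorem t112_A00pm_102_s1 : ∃ t, chk3 f_A00pm_102_s1 t 31 40 1 = true := ex3_a t111_A00pm_102_s1 t110_A00pm_102_s1

theorem t113_A00pm_102_s1 : ∃ t, chk3 f_A00pm_102_s1 t 15 40 1 = true := ex3_a k89_A00pm_102_s1 t112_A00pm_102_s1

theorem t114_A00pm_102_s1 : ∃ t, chk3 f_A00pm_102_s1 t 15 20 1 = true := ex3_b t113_A00pm_102_s1 t108_A00pm_102_s1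

theorem t115_A00pm_102_s1 : ∃ t, chk3 f_A00pm_102_s1 t 14 20 1 = true := ex3_b k87_A00pm_102_s1 k88_A00pm_102_s1

theorem t116_A00pm_102_s1 : ∃ t, chk3 f_A00pm_102_s1 t 7 20 1 = true := ex3_a t115_A00pm_102_s1 t114_A00pm_102_s1

theorem t117_A00pm_102_s1 : ∃ t, chk3 f_A00pm_102_s1 t 7 10 1 = true := ex3_b t116_A00pm_102_s1 t105_A00pm_102_s1

theorem t118_A00pm_102_s1 : ∃ t, chk3 f_A00pm_102_s1 t 7 5 1 = true := ex3_b t117_A00pm_102_s1 k102_A00pm_102_s1

theorem t119_A00pm_102_s1 : ∃ t, chk3 f_A00pm_102_s1 t 127 39 1 = true := ex3_b k85_A00pm_102_s1 k86_A00pm_102_s1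

theorem t120_A00pm_102_s1 : ∃ t, chk3 f_A00pm_102_s1 t 63 39 1 = true := ex3_a k84_A00pm_102_s1 t119_A00pm_102_s1

theorem t121_A00pm_102_s1 : ∃ t, chk3 f_A00pm_102_s1 t 127 38 1 = true := ex3_b k82_A00pm_102_s1 k83_A00pm_102_s1

theorem t122_A00pm_102_s1 : ∃ t, chk3 f_A00pm_102_s1 t 63 38 1 = true := ex3_a k81_A00pm_102_s1 t121_A00pm_102_s1

theorem t123_A00pm_102_s1 : ∃ t, chk3 f_A00pm_102_s1 t 63 19 1 = true := ex3_b t122_A00pm_102_s1 t120_A00pm_102_s1

theorem t124_A00pm_102_s1 : ∃ t, chk3 f_A00pm_102_s1 t 62 19 1 = true := ex3_b k79_A00pm_102_s1 k80_A00pm_102_s1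

theorem t125_A00pm_102_s1 : ∃ t, chk3 f_A00pm_102_s1 t 31 19 1 = true := ex3_a t124_A00pm_102_s1 t123_A00pm_102_s1

theorem t126_A00pm_102_s1 : ∃ t, chk3 f_A00pm_102_s1 t 127 37 2 = true := ex3_b k76_A00pm_102_s1 k77_A00pm_102_s1

theorem t127_A00pm_102_s1 : ∃ t, chk3 f_A00pm_102_s1 t 63 37 2 = true := ex3_a k75_A00pm_102_s1 t126_A00pm_102_s1

theorem t128_A00pm_102_s1 : ∃ t, chk3 f_A00pm_102_s1 t 63 37 1 = true := ex3_c t127_A00pm_102_s1 k78_A00pm_102_s1

theorem t129_A00pm_102_s1 : ∃ t, chk3 f_A00pm_102_s1 t 31 37 1 = true := ex3_a k74_A00pm_102_s1 t128_A00pm_102_s1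

theorem t130_A00pm_102_s1 : ∃ t, chk3 f_A00pm_102_s1 t 255 36 1 = true := ex3_c k72_A00pm_102_s1 k73_A00pm_102_s1

theorem t131_A00pm_102_s1 : ∃ t, chk3 f_A00pm_102_s1 t 127 36 1 = true := ex3_a k71_A00pm_102_s1 t130_A00pm_102_s1

theorem t132_A00pm_102_s1 : ∃ t, chk3 f_A00pm_102_s1 t 63 36 1 = true := ex3_a k70_A00pm_102_s1 t131_A00pm_102_s1

theorem t133_A00pm_102_s1 : ∃ t, chk3 f_A00pm_102_s1 t 31 36 1 = true := ex3_a k69_A00pm_102_s1 t132_A00pm_102_s1

theorem t134_A00pm_102_s1 : ∃ t, chk3 f_A00pm_102_s1 t 31 18 1 = true := ex3_b t133_A00pm_102_s1 t129_A00pm_102_s1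

theorem t135_A00pm_102_s1 : ∃ t, chk3 f_A00pm_102_s1 t 31 9 1 = true := ex3_b t134_A00pm_102_s1 t125_A00pm_102_s1

theorem t136_A00pm_102_s1 : ∃ t, chk3 f_A00pm_102_s1 t 255 35 1 = true := ex3_b k67_A00pm_102_s1 k68_A00pm_102_s1

theorem t137_A00pm_102_s1 : ∃ t, chk3 f_A00pm_102_s1 t 127 35 1 = true := ex3_a k66_A00pm_102_s1 t136_A00pm_102_s1

theorem t138_A00pm_102_s1 : ∃ t, chk3 f_A00pm_102_s1 t 63 35 1 = true := ex3_a k65_A00pm_102_s1 t137_A00pm_102_s1

theorem t139_A00pm_102_s1 : ∃ t, chk3 f_A00pm_102_s1 t 63 17 1 = true := ex3_b k64_A00pm_102_s1 t138_A00pm_102_s1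

theorem t140_A00pm_102_s1 : ∃ t, chk3 f_A00pm_102_s1 t 124 70 1 = true := ex3_a k60_A00pm_102_s1 k61_A00pm_102_s1

theorem t141_A00pm_102_s1 : ∃ t, chk3 f_A00pm_102_s1 t 62 70 1 = true := ex3_a t140_A00pm_102_s1 k62_A00pm_102_s1

theorem t142_A00pm_102_s1 : ∃ t, chk3 f_A00pm_102_s1 t 62 35 1 = true := ex3_b t141_A00pm_102_s1 k63_A00pm_102_s1

theorem t143_A00pm_102_s1 : ∃ t, chk3 f_A00pm_102_s1 t 124 69 1 = true := ex3_b k57_A00pm_102_s1 k58_A00pm_102_s1

theorem t144_A00pm_102_s1 : ∃ t, chk3 f_A00pm_102_s1 t 62 69 1 = true := ex3_a t143_A00pm_102_s1 k59_A00pm_102_s1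

theorem t145_A00pm_102_s1 : ∃ t, chk3 f_A00pm_102_s1 t 62 68 1 = true := ex3_a k55_A00pm_102_s1 k56_A00pm_102_s1

theorem t146_A00pm_102_s1 : ∃ t, chk3 f_A00pm_102_s1 t 62 34 1 = true := ex3_b t145_A00pm_102_s1 t144_A00pm_102_s1

theorem t147_A00pm_102_s1 : ∃ t, chk3 f_A00pm_102_s1 t 62 17 1 = true := ex3_b t146_A00pm_102_s1 t142_A00pm_102_s1

theorem t148_A00pm_102_s1 : ∃ t, chk3 f_A00pm_102_s1 t 31 17 1 = true := ex3_a t147_A00pm_102_s1 t139_A00pm_102_s1

theorem t149_A00pm_102_s1 : ∃ t, chk3 f_A00pm_102_s1 t 124 67 1 = true := ex3_a k51_A00pm_102_s1 k52_A00pm_102_s1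

theorem t150_A00pm_102_s1 : ∃ t, chk3 f_A00pm_102_s1 t 124 33 1 = true := ex3_b k50_A00pm_102_s1 t149_A00pm_102_s1

theorem t151_A00pm_102_s1 : ∃ t, chk3 f_A00pm_102_s1 t 62 33 1 = true := ex3_a t150_A00pm_102_s1 k53_A00pm_102_s1

theorem t152_A00pm_102_s1 : ∃ t, chk3 f_A00pm_102_s1 t 62 16 1 = true := ex3_b k49_A00pm_102_s1 t151_A00pm_102_s1

theorem t153_A00pm_102_s1 : ∃ t, chk3 f_A00pm_102_s1 t 31 16 1 = true := ex3_a t152_A00pm_102_s1 k54_A00pm_102_s1

theorem t154_A00pm_102_s1 : ∃ t, chk3 f_A00pm_102_s1 t 31 8 1 = true := ex3_b t153_A00pm_102_s1 t148_A00pm_102_s1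

theorem t155_A00pm_102_s1 : ∃ t, chk3 f_A00pm_102_s1 t 31 4 1 = true := ex3_b t154_A00pm_102_s1 t135_A00pm_102_s1

theorem t156_A00pm_102_s1 : ∃ t, chk3 f_A00pm_102_s1 t 30 19 1 = true := ex3_b k47_A00pm_102_s1 k48_A00pm_102_s1

theorem t157_A00pm_102_s1 : ∃ t, chk3 f_A00pm_102_s1 t 61 36 1 = true := ex3_c k44_A00pm_102_s1 k45_A00pm_102_s1

theorem t158_A00pm_102_s1 : ∃ t, chk3 f_A00pm_102_s1 t 30 36 1 = true := ex3_a k43_A00pm_102_s1 t157_A00pm_102_s1

theorem t159_A00pm_102_s1 : ∃ t, chk3 f_A00pm_102_s1 t 30 18 1 = true := ex3_b t158_A00pm_102_s1 k46_A00pm_102_s1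

theorem t160_A00pm_102_s1 : ∃ t, chk3 f_A00pm_102_s1 t 30 9 1 = true := ex3_b t159_A00pm_102_s1 t156_A00pm_102_s1

theorem t161_A00pm_102_s1 : ∃ t, chk3 f_A00pm_102_s1 t 61 71 1 = true := ex3_b k41_A00pm_102_s1 k42_A00pm_102_s1

theorem t162_A00pm_102_s1 : ∃ t, chk3 f_A00pm_102_s1 t 61 35 1 = true := ex3_b k40_A00pm_102_s1 t161_A00pm_102_s1

theorem t163_A00pm_102_s1 : ∃ t, chk3 f_A00pm_102_s1 t 30 35 1 = true := ex3_a k39_A00pm_102_s1 t162_A00pm_102_s1

theorem t164_A00pm_102_s1 : ∃ t, chk3 f_A00pm_102_s1 t 123 34 1 = true := ex3_b k37_A00pm_102_s1 k38_A00pm_102_s1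

theorem t165_A00pm_102_s1 : ∃ t, chk3 f_A00pm_102_s1 t 122 69 1 = true := ex3_c k35_A00pm_102_s1 k36_A00pm_102_s1

theorem t166_A00pm_102_s1 : ∃ t, chk3 f_A00pm_102_s1 t 122 34 1 = true := ex3_b k34_A00pm_102_s1 t165_A00pm_102_s1

theorem t167_A00pm_102_s1 : ∃ t, chk3 f_A00pm_102_s1 t 61 34 1 = true := ex3_a t166_A00pm_102_s1 t164_A00pm_102_s1

theorem t168_A00pm_102_s1 : ∃ t, chk3 f_A00pm_102_s1 t 30 34 1 = true := ex3_a k33_A00pm_102_s1 t167_A00pm_102_s1

theorem t169_A00pm_102_s1 : ∃ t, chk3 f_A00pm_102_s1 t 30 17 1 = true := ex3_b t168_A00pm_102_s1 t163_A00pm_102_s1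

theorem t170_A00pm_102_s1 : ∃ t, chk3 f_A00pm_102_s1 t 247 135 1 = true := ex3_c k31_A00pm_102_s1 k32_A00pm_102_s1

theorem t171_A00pm_102_s1 : ∃ t, chk3 f_A00pm_102_s1 t 247 67 1 = true := ex3_b k30_A00pm_102_s1 t170_A00pm_102_s1

theorem t172_A00pm_102_s1 : ∃ t, chk3 f_A00pm_102_s1 t 123 67 1 = true := ex3_a k29_A00pm_102_s1 t171_A00pm_102_s1

theorem t173_A00pm_102_s1 : ∃ t, chk3 f_A00pm_102_s1 t 123 33 1 = true := ex3_b k28_A00pm_102_s1 t172_A00pm_102_s1

theorem t174_A00pm_102_s1 : ∃ t, chk3 f_A00pm_102_s1 t 61 33 1 = true := ex3_a k27_A00pm_102_s1 t173_A00pm_102_s1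

theorem t175_A00pm_102_s1 : ∃ t, chk3 f_A00pm_102_s1 t 61 16 1 = true := ex3_b k26_A00pm_102_s1 t174_A00pm_102_s1

theorem t176_A00pm_102_s1 : ∃ t, chk3 f_A00pm_102_s1 t 30 16 1 = true := ex3_a k25_A00pm_102_s1 t175_A00pm_102_s1

theorem t177_A00pm_102_s1 : ∃ t, chk3 f_A00pm_102_s1 t 30 8 1 = true := ex3_b t176_A00pm_102_s1 t169_A00pm_102_s1

theorem t178_A00pm_102_s1 : ∃ t, chk3 f_A00pm_102_s1 t 30 4 1 = true := ex3_b t177_A00pm_102_s1 t160_A00pm_102_s1

theorem t179_A00pm_102_s1 : ∃ t, chk3 f_A00pm_102_s1 t 15 4 1 = true := ex3_a t178_A00pm_102_s1 t155_A00pm_102_s1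

theorem t180_A00pm_102_s1 : ∃ t, chk3 f_A00pm_102_s1 t 29 19 1 = true := ex3_b k23_A00pm_102_s1 k24_A00pm_102_s1

theorem t181_A00pm_102_s1 : ∃ t, chk3 f_A00pm_102_s1 t 29 36 1 = true := ex3_a k20_A00pm_102_s1 k21_A00pm_102_s1

theorem t182_A00pm_102_s1 : ∃ t, chk3 f_A00pm_102_s1 t 29 18 1 = true := ex3_b t181_A00pm_102_s1 k22_A00pm_102_s1

theorem t183_A00pm_102_s1 : ∃ t, chk3 f_A00pm_102_s1 t 29 9 1 = true := ex3_b t182_A00pm_102_s1 t180_A00pm_102_s1

theorem t184_A00pm_102_s1 : ∃ t, chk3 f_A00pm_102_s1 t 28 9 1 = true := ex3_b k18_A00pm_102_s1 k19_A00pm_102_s1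

theorem t185_A00pm_102_s1 : ∃ t, chk3 f_A00pm_102_s1 t 14 9 1 = true := ex3_a t184_A00pm_102_s1 t183_A00pm_102_s1

theorem t186_A00pm_102_s1 : ∃ t, chk3 f_A00pm_102_s1 t 14 4 1 = true := ex3_b k17_A00pm_102_s1 t185_A00pm_102_s1

theorem t187_A00pm_102_s1 : ∃ t, chk3 f_A00pm_102_s1 t 7 4 1 = true := ex3_a t186_A00pm_102_s1 t179_A00pm_102_s1

theorem t188_A00pm_102_s1 : ∃ t, chk3 f_A00pm_102_s1 t 7 2 1 = true := ex3_b t187_A00pm_102_s1 t118_A00pm_102_s1

theorem t189_A00pm_102_s1 : ∃ t, chk3 f_A00pm_102_s1 t 12 20 1 = true := ex3_b k12_A00pm_102_s1 k13_A00pm_102_s1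

theorem t190_A00pm_102_s1 : ∃ t, chk3 f_A00pm_102_s1 t 6 20 1 = true := ex3_a t189_A00pm_102_s1 k14_A00pm_102_s1

theorem t191_A00pm_102_s1 : ∃ t, chk3 f_A00pm_102_s1 t 6 10 1 = true := ex3_b t190_A00pm_102_s1 k15_A00pm_102_s1

theorem t192_A00pm_102_s1 : ∃ t, chk3 f_A00pm_102_s1 t 6 5 1 = true := ex3_b t191_A00pm_102_s1 k16_A00pm_102_s1

theorem t193_A00pm_102_s1 : ∃ t, chk3 f_A00pm_102_s1 t 13 19 1 = true := ex3_b k10_A00pm_102_s1 k11_A00pm_102_s1

theorem t194_A00pm_102_s1 : ∃ t, chk3 f_A00pm_102_s1 t 13 9 1 = true := ex3_b k9_A00pm_102_s1 t193_A00pm_102_s1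

theorem t195_A00pm_102_s1 : ∃ t, chk3 f_A00pm_102_s1 t 13 4 1 = true := ex3_b k8_A00pm_102_s1 t194_A00pm_102_s1

theorem t196_A00pm_102_s1 : ∃ t, chk3 f_A00pm_102_s1 t 6 4 1 = true := ex3_a k7_A00pm_102_s1 t195_A00pm_102_s1

theorem t197_A00pm_102_s1 : ∃ t, chk3 f_A00pm_102_s1 t 6 2 1 = true := ex3_b t196_A00pm_102_s1 t192_A00pm_102_s1

theorem t198_A00pm_102_s1 : ∃ t, chk3 f_A00pm_102_s1 t 3 2 1 = true := ex3_a t197_A00pm_102_s1 t188_A00pm_102_s1

theorem t199_A00pm_102_s1 : ∃ t, chk3 f_A00pm_102_s1 t 3 1 1 = true := ex3_b t198_A00pm_102_s1 k103_A00pm_102_s1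

theorem t200_A00pm_102_s1 : ∃ t, chk3 f_A00pm_102_s1 t 5 20 1 = true := ex3_a k2_A00pm_102_s1 k3_A00pm_102_s1

theorem t201_A00pm_102_s1 : ∃ t, chk3 f_A00pm_102_s1 t 5 10 1 = true := ex3_b t200_A00pm_102_s1 k4_A00pm_102_s1

theorem t202_A00pm_102_s1 : ∃ t, chk3 f_A00pm_102_s1 t 5 5 1 = true := ex3_b t201_A00pm_102_s1 k5_A00pm_102_s1

theorem t203_A00pm_102_s1 : ∃ t, chk3 f_A00pm_102_s1 t 2 5 1 = true := ex3_a k1_A00pm_102_s1 t202_A00pm_102_s1

theorem t204_A00pm_102_s1 : ∃ t, chk3 f_A00pm_102_s1 t 2 2 1 = true := ex3_b k0_A00pm_102_s1 t203_A00pm_102_s1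

theorem t205_A00pm_102_s1 : ∃ t, chk3 f_A00pm_102_s1 t 2 1 1 = true := ex3_b t204_A00pm_102_s1 k6_A00pm_102_s1

theorem t206_A00pm_102_s1 : ∃ t, chk3 f_A00pm_102_s1 t 1 1 1 = true := ex3_a t205_A00pm_102_s1 t199_A00pm_102_s1

theorem c_A00pm_102_s1 : CertF 536870912 536870912 0 536870912 134217728 67108864 true true false .npp 1 0 2
    ndF0q1 ndF0q0 pcF2 cut_A00pm_102_s1 xt_A00pm_102_s1 :=
  certFK1 (fam := true) (s1 := true) (s2 := false) (a := 1) (b := 0) (c := 2) (cn := .npp) (n1 := ndF0q1) (n2 := ndF0q0) (pc := pcF2) (cut := cut_A00pm_102_s1) (xt := xt_A00pm_102_s1) (P1 := 536870912) (W1 := 536870912) (P2 := 0) (W2 := 536870912) (P3 := 134217728) (W3 := 67108864)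
    rfl rfl rfl (fun _ => rfl) t206_A00pm_102_s1

theorem s_A00pm_102_s1 {κ x : ℝ} (hκ : κ * h0 = ken x) (hx : ((134217728 : ℕ) : ℝ) / S ≤ x)
    (hx' : x ≤ (((134217728 : ℕ) : ℝ) + (67108864 : ℕ)) / S)
    (H : CutA (VF κ) PP tKF tL pcF (Cut.of [[⟨0, 1, 0, 53687091⟩, ⟨1, 0, 0, 53687091⟩, ⟨2, 1, 0, 53687091⟩], [⟨0, 1, 0, 16777216⟩, ⟨1, 0, 1, 41943040⟩, ⟨2, 1, 1, 41943040⟩]]) 1 0 2 0 0 (sgb true) (sgb false) x) :
    AltA (VF κ) PP tKF tL pcF [⟨3, 0, 0, 1449551462⟩] 1 0 2 0 0 (sgb true) (sgb false) x :=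
  strip_altA (m := 1449551462) true rfl hκ covF01 covF00 hx hx' c_A00pm_102_s1 H ((okx hx hx').extA (T := tt) (sideF hx hx') hκ rfl rfl (.O 1 true) (.O 0 false) rfl)

end Pool.Agent.Strip051.G.I1_8_3_16.Tab.St.C
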