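import Pool.Agent.Strip051.G.I1_8_3_16.StF

/-! # Unit strips 4 (generated) -/

set_option linter.all false
set_option maxRecDepth 100000

namespace Pool.Agent.Strip051.G.I1_8_3_16.Tab.St.C

open Pool.Agent.Strip051.PB Pool.Agent.Strip051.PB.T Pool.Agent.StripNear Pool.Agent.Strip051.LC
open Pool.Agent.Strip051.G.I1_8_3_16.Tab Pool.Agent.Strip051.G.I1_8_3_16.Tab.St

noncomputable def cut_A00pm_102_s3 : Cut := Cut.of [[⟨3, 0, 0, 2845415833⟩], [⟨0, 1, 0, 53687091⟩, ⟨1, 0, 0, 53687091⟩, ⟨2, 1, 0, 53687091⟩], [⟨0, 1, 0, 16777216⟩, ⟨1, 0, 1, 41943040⟩, ⟨2, 1, 1, 41943040⟩]]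

noncomputable def f_A00pm_102_s3 : ℕ → ℕ → ℕ → ℕ → Bool := onCell 536870912 536870912 0 536870912 134217728 67108864
    (rowFK 0 true true false .npp 1 0 2 (qsf 536870912 536870912 0 536870912 2) ndF0q1 ndF0q0 pcF2 cut_A00pm_102_s3 Ext.none)

def k0_A00pm_102_s3 : ∃ t, chk3 f_A00pm_102_s3 t 1 1 1 = true :=
  ⟨(l 6), by decide +kernel⟩

theorem c_A00pm_102_s3 : CertF 536870912 536870912 0 536870912 134217728 67108864 true true false .npp 1 0 2
    ndF0q1 ndF0q0 pcF2 cut_A00pm_102_s3 Ext.none :=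
  certFK0 (fam := true) (s1 := true) (s2 := false) (a := 1) (b := 0) (c := 2) (cn := .npp) (n1 := ndF0q1) (n2 := ndF0q0) (pc := pcF2) (cut := cut_A00pm_102_s3) (xt := Ext.none) (P1 := 536870912) (W1 := 536870912) (P2 := 0) (W2 := 536870912) (P3 := 134217728) (W3 := 67108864)
    rfl rfl rfl k0_A00pm_102_s3

theorem s_A00pm_102_s3 {κ x : ℝ} (hκ : κ * h0 = ken x) (hx : ((134217728 : ℕ) : ℝ) / S ≤ x)
    (hx' : x ≤ (((134217728 : ℕ) : ℝ) + (67108864 : ℕ)) / S)
    (H : CutA (VF κ) PP tKF tL pcF (Cut.of [[⟨0, 1, 0, 53687091⟩, ⟨1, 0, 0, 53687091⟩, ⟨2, 1, 0, 53687091⟩], [⟨0, 1, 0, 16777216⟩, ⟨1, 0, 1, 41943040⟩, ⟨2, 1, 1, 41943040⟩]]) 1 0 2 0 0 (sgb true) (sgb false) x) :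
    AltA (VF κ) PP tKF tL pcF [⟨4, 0, 0, 2845415833⟩] 1 0 2 0 0 (sgb true) (sgb false) x :=
  strip_altA (m := 2845415833) false rfl hκ covF01 covF00 hx hx' c_A00pm_102_s3 H (noExt_A)

noncomputable def cut_A00pm_112_s1 : Cut := Cut.of [[⟨4, 0, 0, 1449551462⟩]]

noncomputable def xt_A00pm_112_s1 : Ext := strExt dd true true false .u0 .u0m .u2 .dn 1 1 2 rfl rfl gf2 vv ndF0q1 ndF0q1

noncomputable def f_A00pm_112_s1 : ℕ → ℕ → ℕ → ℕ → Bool := onCell 1073741824 536870912 536870912 536870912 134217728 67108864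
    (rowFK 2 true true false .dn 1 1 2 (qsf 536870912 536870912 536870912 536870912 2) ndF0q1 ndF0q1 pcF2 cut_A00pm_112_s1 xt_A00pm_112_s1)

def k0_A00pm_112_s1 : ∃ t, chk3 f_A00pm_112_s1 t 4 2 1 = true :=
  ⟨(b (l 3) (l 3)), by decide +kernel⟩

def k1_A00pm_112_s1 : ∃ t, chk3 f_A00pm_112_s1 t 10 4 1 = true :=
  ⟨(a (a (l 3) (a (l 3) (a (b (b (a (l 3) (b (a (l 3) (l 546024847)) (l 3))) (l 3)) (l 3)) (b (b (b (b (a (a (a (l 544989839) (l 544977039)) (a (l 16781776) (l 16782976))) (l 16785976)) (a (a (a (l 544861071) (l 544898959)) (l 544863119)) (a (l 16783216) (l 16785544)))) (b (a (l 544837967) (b (l 16783336) (l 16777496))) (a (l 544858703) (a (a (l 544843055) (l 16781336)) (l 16783072))))) (a (l 544990543) (a (a (l 544969263) (a (a (l 544963375) (a (l 544961583) (a (l 544960815) (a (b (b (l 16780328) (l 16779544)) (b (l 16778912) (b (l 16778536) (l 16778344)))) (l 544960095))))) (l 544957535))) (l 544945759)))) (a (b (l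 3) (l 544962111)) (a (a (l 545154351) (a (a (l 545151535) (a (l 545150767) (a (l 545150255) (b (b (b (b (l 16778208) (l 16778096)) (b (l 16778024) (l 16778000))) (b (b (l 16778000) (l 16778040)) (b (l 16778128) (l 16778256)))) (b (b (b (l 16778416) (l 16778624)) (l 16779016)) (b (l 16779672) (l 16780488))))))) (l 545148511))) (l 545142879))))))) (b (a (a (b (b (b (l 16787536) (l 16785680)) (a (b (l 16789984) (l 16778352)) (l 16798600))) (b (a (a (l 544858207) (l 16789776)) (l 16796616)) (a (a (l 544995423) (l 16788584)) (l 16795432)))) (b (b (l 16816192) (l 16812392)) (l 544725871))) (b (a (l 16833128) (l 16851864)) (a (l 16827032) (l 16844384)))) (a (a (b (b (a (a (l 545241439) (l 16788160)) (l 16795104)) (a (a (l 545261663) (l 16788160)) (l 16795192))) (b (a (a (l 545007199) (l 16788432)) (l 16795184)) (a (a (l 544864095) (l 16789488)) (l 16796056)))) (l 545017199)) (l 544881007)))), by decide +kernel⟩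

def k2_A00pm_112_s1 : ∃ t, chk3 f_A00pm_112_s1 t 11 4 1 = true :=
  ⟨(a (b (b (a (l 16880152) (l 16917664)) (a (l 16870168) (l 16903936))) (l 544434287)) (c (b (a (l 16950656) (l 16986336)) (l 16945128)) (b (a (l 17025640) (l 16975648)) (l 17025640)))), by decide +kernel⟩

def k3_A00pm_112_s1 : ∃ t, chk3 f_A00pm_112_s1 t 5 5 1 = true :=
  ⟨(a (a (b (a (l 3) (b (a (l 3) (a (a (l 3) (a (b (l 3) (l 545259647)) (b (l 546426751) (l 545072511)))) (b (b (a (l 544849215) (a (a (l 544837423) (l 16781504)) (l 16783136))) (a (a (l 545912191) (l 544829823)) (b (l 16782880) (l 16783504)))) (b (a (a (l 545977983) (l 544887167)) (l 16779304)) (a (a (a (l 545076095) (l 545041791)) (l 16782896)) (l 16786184)))))) (a (l 1) (a (l 1) (a (l 1) (b (l 128345731511) (l 1))))))) (l 1)) (b (a (a (b (b (a (b (l 16788568) (l 16789664)) (l 16797696)) (b (l 16784832) (l 16786512))) (b (b (l 16788536) (l 16801288)) (l 1))) (b (b (l 16810504) (l 16813144))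 (b (l 16817272) (l 16822792)))) (b (a (l 16828464) (l 16844840)) (a (l 16836808) (l 16853200)))) (b (a (l 1) (l 112239748743)) (l 1)))) (a (a (b (b (l 16868728) (l 16876848)) (b (l 16891376) (l 1))) (b (l 16986728) (b (l 16921936) (l 16941952)))) (c (a (b (l 16933760) (l 16965488)) (b (l 16959960) (l 16992088))) (a (a (c (b (l 16922792) (l 16950064)) (a (b (l 16916592) (l 16940848)) (b (l 16923544) (l 16947640)))) (c (b (l 16936464) (l 16964080)) (b (l 16933816) (l 16958216)))) (b (l 16954936) (l 16980456)))))), by decide +kernel⟩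

def k4_A00pm_112_s1 : ∃ t, chk3 f_A00pm_112_s1 t 2 3 1 = true :=
  ⟨(a (l 1) (b (b (a (l 1) (b (l 113850679063) (l 1))) (l 1)) (l 1))), by decide +kernel⟩

def k5_A00pm_112_s1 : ∃ t, chk3 f_A00pm_112_s1 t 3 1 1 = true :=
  ⟨(b (b (a (b (b (a (a (l 17045224) (l 17113208)) (a (l 17175984) (l 6))) (a (l 17053144) (l 17254240))) (a (a (l 16998168) (l 17050008)) (l 17274688))) (l 6)) (b (a (a (l 17183520) (l 17089864)) (l 6)) (a (a (a (l 17021424) (l 17059600)) (l 17103352)) (l 6)))) (b (a (a (c (b (a (l 17084328) (l 17122600)) (a (l 1) (l 115462115671))) (b (a (l 73048549927) (l 17103320)) (b (l 119756851895) (l 1)))) (c (b (l 17162872) (l 17492528)) (a (c (b (l 17138728) (l 17375120)) (b (l 17129992) (b (l 17173760) (l 17208688)))) (l 6)))) (l 6)) (a (a (l 1) (a (l 1) (l 6))) (l 6)))), by decide +kernel⟩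

theorem t6_A00pm_112_s1 : ∃ t, chk3 f_A00pm_112_s1 t 5 4 1 = true := ex3_a k1_A00pm_112_s1 k2_A00pm_112_s1

theorem t7_A00pm_112_s1 : ∃ t, chk3 f_A00pm_112_s1 t 5 2 1 = true := ex3_b t6_A00pm_112_s1 k3_A00pm_112_s1

theorem t8_A00pm_112_s1 : ∃ t, chk3 f_A00pm_112_s1 t 2 2 1 = true := ex3_a k0_A00pm_112_s1 t7_A00pm_112_s1

theorem t9_A00pm_112_s1 : ∃ t, chk3 f_A00pm_112_s1 t 2 1 1 = true := ex3_b t8_A00pm_112_s1 k4_A00pm_112_s1

theorem t10_A00pm_112_s1 : ∃ t, chk3 f_A00pm_112_s1 t 1 1 1 = true := ex3_a t9_A00pm_112_s1 k5_A00pm_112_s1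

theorem c_A00pm_112_s1 : CertF 536870912 536870912 536870912 536870912 134217728 67108864 true true false .dn 1 1 2
    ndF0q1 ndF0q1 pcF2 cut_A00pm_112_s1 xt_A00pm_112_s1 :=
  certFK2 (fam := true) (s1 := true) (s2 := false) (a := 1) (b := 1) (c := 2) (cn := .dn) (n1 := ndF0q1) (n2 := ndF0q1) (pc := pcF2) (cut := cut_A00pm_112_s1) (xt := xt_A00pm_112_s1) (P1 := 536870912) (W1 := 536870912) (P2 := 536870912) (W2 := 536870912) (P3 := 134217728) (W3 := 67108864)
    rfl rfl rfl (fun _ => rfl) t10_A00pm_112_s1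

theorem s_A00pm_112_s1 {κ x : ℝ} (hκ : κ * h0 = ken x) (hx : ((134217728 : ℕ) : ℝ) / S ≤ x)
    (hx' : x ≤ (((134217728 : ℕ) : ℝ) + (67108864 : ℕ)) / S) :
    AltA (VF κ) PP tKF tL pcF [⟨3, 0, 0, 1449551462⟩] 1 1 2 0 0 (sgb true) (sgb false) x :=
  strip_altA (m := 1449551462) true rfl hκ covF01 covF01 hx hx' c_A00pm_112_s1 cutA_nil ((okx hx hx').extA (T := tt) (sideF hx hx') hκ rfl rfl (.O 1 true) (.O 1 false) rfl)

noncomputable def cut_A00pm_112_s3 : Cut := Cut.of [[⟨3, 0, 0, 2845415833⟩]]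

noncomputable def f_A00pm_112_s3 : ℕ → ℕ → ℕ → ℕ → Bool := onCell 536870912 536870912 1073741824 536870912 134217728 67108864
    (rowFK 1 true true false .dn 1 1 2 (qsf 536870912 536870912 536870912 536870912 2) ndF0q1 ndF0q1 pcF2 cut_A00pm_112_s3 Ext.none)

def k0_A00pm_112_s3 : ∃ t, chk3 f_A00pm_112_s3 t 1 1 1 = true :=
  ⟨(l 6), by decide +kernel⟩

theorem c_A00pm_112_s3 : CertF 536870912 536870912 536870912 536870912 134217728 67108864 true true false .dn 1 1 2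
    ndF0q1 ndF0q1 pcF2 cut_A00pm_112_s3 Ext.none :=
  certFK1 (fam := true) (s1 := true) (s2 := false) (a := 1) (b := 1) (c := 2) (cn := .dn) (n1 := ndF0q1) (n2 := ndF0q1) (pc := pcF2) (cut := cut_A00pm_112_s3) (xt := Ext.none) (P1 := 536870912) (W1 := 536870912) (P2 := 536870912) (W2 := 536870912) (P3 := 134217728) (W3 := 67108864)
    rfl rfl rfl (fun _ => rfl) k0_A00pm_112_s3

theorem s_A00pm_112_s3 {κ x : ℝ} (hκ : κ * h0 = ken x) (hx : ((134217728 : ℕ) : ℝ) / S ≤ x)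
    (hx' : x ≤ (((134217728 : ℕ) : ℝ) + (67108864 : ℕ)) / S) :
    AltA (VF κ) PP tKF tL pcF [⟨4, 0, 0, 2845415833⟩] 1 1 2 0 0 (sgb true) (sgb false) x :=
  strip_altA (m := 2845415833) false rfl hκ covF01 covF01 hx hx' c_A00pm_112_s3 cutA_nil (noExt_A)

noncomputable def cut_A00pm_113_s1 : Cut := Cut.of [[⟨4, 0, 0, 1449551462⟩], [⟨0, 1, 0, 39843005⟩, ⟨1, 1, 0, 39843005⟩, ⟨2, 2, 0, 5814905⟩]]

noncomputable def f_A00pm_113_s1 : ℕ → ℕ → ℕ → ℕ → Bool := onCell 536870912 536870912 1610612736 536870912 134217728 67108864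
    (rowFK 1 true true false .nn 1 1 3 (qsf 536870912 536870912 536870912 536870912 3) ndF0q1 ndF0q1 pcF3 cut_A00pm_113_s1 Ext.none)

def k0_A00pm_113_s1 : ∃ t, chk3 f_A00pm_113_s1 t 1 1 1 = true :=
  ⟨(b (a (b (l 6) (l 6)) (l 6)) (l 6)), by decide +kernel⟩

theorem c_A00pm_113_s1 : CertF 536870912 536870912 536870912 536870912 134217728 67108864 true true false .nn 1 1 3
    ndF0q1 ndF0q1 pcF3 cut_A00pm_113_s1 Ext.none :=
  certFK1 (fam := true) (s1 := true) (s2 := false) (a := 1) (b := 1) (c := 3) (cn := .nn) (n1 := ndF0q1) (n2 := ndF0q1) (pc := pcF3) (cut := cut_A00pm_113_s1) (xt := Ext.none) (P1 := 536870912) (W1 := 536870912) (P2 := 536870912) (W2 := 536870912) (P3 := 134217728) (W3 := 67108864)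
    rfl rfl rfl (fun _ => rfl) k0_A00pm_113_s1

theorem s_A00pm_113_s1 {κ x : ℝ} (hκ : κ * h0 = ken x) (hx : ((134217728 : ℕ) : ℝ) / S ≤ x)
    (hx' : x ≤ (((134217728 : ℕ) : ℝ) + (67108864 : ℕ)) / S)
    (H : CutA (VF κ) PP tKF tL pcF (Cut.of [[⟨0, 1, 0, 39843005⟩, ⟨1, 1, 0, 39843005⟩, ⟨2, 2, 0, 5814905⟩]]) 1 1 3 0 0 (sgb true) (sgb false) x) :
    AltA (VF κ) PP tKF tL pcF [⟨3, 0, 0, 1449551462⟩] 1 1 3 0 0 (sgb true) (sgb false) x :=
  strip_altA (m := 1449551462) true rfl hκ covF01 covF01 hx hx' c_A00pm_113_s1 H (noExt_A)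

noncomputable def cut_A00pm_113_s3 : Cut := Cut.of [[⟨3, 0, 0, 2845415833⟩], [⟨0, 1, 0, 39843005⟩, ⟨1, 1, 0, 39843005⟩, ⟨2, 2, 0, 5814905⟩]]

noncomputable def f_A00pm_113_s3 : ℕ → ℕ → ℕ → ℕ → Bool := onCell 536870912 536870912 536870912 536870912 134217728 67108864
    (rowFK 0 true true false .nn 1 1 3 (qsf 536870912 536870912 536870912 536870912 3) ndF0q1 ndF0q1 pcF3 cut_A00pm_113_s3 Ext.none)

def k0_A00pm_113_s3 : ∃ t, chk3 f_A00pm_113_s3 t 1 1 1 = true :=
  ⟨(a (l 6) (b (l 6) (b (a (l 6) (a (l 6) (b (l 6) (b (l 6) (l 17364464))))) (a (b (l 6) (a (l 6) (a (l 6) (l 17364464)))) (b (a (l 6) (a (l 17113160) (b (l 17133392) (l 17117216)))) (a (b (l 17113160) (a (l 17133392) (l 17117216))) (b (a (l 16876744) (b (l 17036768) (a (l 16929240) (l 16923976)))) (a (a (l 17036768) (b (l 16929240) (l 16923976))) (b (a (l 16826840) (a (l 16899912) (b (l 16903792) (l 16891576)))) (a (b (l 16899912) (a (l 16903792) (l 16891576))) (b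 (a (l 16801936) (a (l 16838128) (b (l 16839984) (l 16834104)))) (a (b (l 16838128) (a (l 16839984) (l 16834104))) (b (a (l 16789544) (a (l 16828520) (b (l 16808456) (l 16805584)))) (a (b (l 16828520) (a (l 16808456) (l 16805584))) (b (a (l 16783368) (a (l 16802832) (l 14))) (a (b (l 16802832) (l 14)) (l 14))))))))))))))))), by decide +kernel⟩

theorem c_A00pm_113_s3 : CertF 536870912 536870912 536870912 536870912 134217728 67108864 true true false .nn 1 1 3
    ndF0q1 ndF0q1 pcF3 cut_A00pm_113_s3 Ext.none :=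
  certFK0 (fam := true) (s1 := true) (s2 := false) (a := 1) (b := 1) (c := 3) (cn := .nn) (n1 := ndF0q1) (n2 := ndF0q1) (pc := pcF3) (cut := cut_A00pm_113_s3) (xt := Ext.none) (P1 := 536870912) (W1 := 536870912) (P2 := 536870912) (W2 := 536870912) (P3 := 134217728) (W3 := 67108864)
    rfl rfl rfl k0_A00pm_113_s3

theorem s_A00pm_113_s3 {κ x : ℝ} (hκ : κ * h0 = ken x) (hx : ((134217728 : ℕ) : ℝ) / S ≤ x)
    (hx' : x ≤ (((134217728 : ℕ) : ℝ) + (67108864 : ℕ)) / S)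
    (H : CutA (VF κ) PP tKF tL pcF (Cut.of [[⟨0, 1, 0, 39843005⟩, ⟨1, 1, 0, 39843005⟩, ⟨2, 2, 0, 5814905⟩]]) 1 1 3 0 0 (sgb true) (sgb false) x) :
    AltA (VF κ) PP tKF tL pcF [⟨4, 0, 0, 2845415833⟩] 1 1 3 0 0 (sgb true) (sgb false) x :=
  strip_altA (m := 2845415833) false rfl hκ covF01 covF01 hx hx' c_A00pm_113_s3 H (noExt_A)

noncomputable def cut_A00pm_123_s1 : Cut := Cut.of [[⟨4, 0, 0, 1449551462⟩], [⟨0, 1, 0, 39843005⟩, ⟨1, 1, 0, 39843005⟩, ⟨2, 2, 0, 5814905⟩]]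

noncomputable def f_A00pm_123_s1 : ℕ → ℕ → ℕ → ℕ → Bool := onCell 536870912 536870912 0 536870912 134217728 67108864
    (rowFK 0 true true false .npn 1 2 3 (qsf 536870912 536870912 0 536870912 3) ndF0q1 ndF0q2 pcF3 cut_A00pm_123_s1 Ext.none)

def k0_A00pm_123_s1 : ∃ t, chk3 f_A00pm_123_s1 t 1 1 1 = true :=
  ⟨(l 6), by decide +kernel⟩

theorem c_A00pm_123_s1 : CertF 536870912 536870912 0 536870912 134217728 67108864 true true false .npn 1 2 3
    ndF0q1 ndF0q2 pcF3 cut_A00pm_123_s1 Ext.none :=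
  certFK0 (fam := true) (s1 := true) (s2 := false) (a := 1) (b := 2) (c := 3) (cn := .npn) (n1 := ndF0q1) (n2 := ndF0q2) (pc := pcF3) (cut := cut_A00pm_123_s1) (xt := Ext.none) (P1 := 536870912) (W1 := 536870912) (P2 := 0) (W2 := 536870912) (P3 := 134217728) (W3 := 67108864)
    rfl rfl rfl k0_A00pm_123_s1

theorem s_A00pm_123_s1 {κ x : ℝ} (hκ : κ * h0 = ken x) (hx : ((134217728 : ℕ) : ℝ) / S ≤ x)
    (hx' : x ≤ (((134217728 : ℕ) : ℝ) + (67108864 : ℕ)) / S)
    (H : CutA (VF κ) PP tKF tL pcF (Cut.of [[⟨0, 1, 0, 39843005⟩, ⟨1, 1, 0, 39843005⟩, ⟨2, 2, 0, 5814905⟩]]) 1 2 3 0 0 (sgb true) (sgb false) x) :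
    AltA (VF κ) PP tKF tL pcF [⟨3, 0, 0, 1449551462⟩] 1 2 3 0 0 (sgb true) (sgb false) x :=
  strip_altA (m := 1449551462) true rfl hκ covF01 covF02 hx hx' c_A00pm_123_s1 H (noExt_A)

noncomputable def cut_A00pm_123_s3 : Cut := Cut.of [[⟨3, 0, 0, 2845415833⟩], [⟨0, 1, 0, 39843005⟩, ⟨1, 1, 0, 39843005⟩, ⟨2, 2, 0, 5814905⟩]]

noncomputable def xt_A00pm_123_s3 : Ext := strExt dd true true false .u0 .u2 .s2 .npn 1 2 3 rfl rfl gl3 vv ndF0q1 ndF0q2

noncomputable def f_A00pm_123_s3 : ℕ → ℕ → ℕ → ℕ → Bool := onCell 1610612736 536870912 0 536870912 134217728 67108864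
    (rowFK 2 true true false .npn 1 2 3 (qsf 536870912 536870912 0 536870912 3) ndF0q1 ndF0q2 pcF3 cut_A00pm_123_s3 xt_A00pm_123_s3)

def k0_A00pm_123_s3 : ∃ t, chk3 f_A00pm_123_s3 t 2 1 1 = true :=
  ⟨(b (a (b (l 1) (l 6)) (b (a (b (a (l 543700495) (l 543489295)) (a (l 17139304) (l 17067928))) (b (l 543207439) (b (l 543160079) (l 543199759)))) (b (a (a (l 17255344) (l 17184816)) (a (l 17112928) (l 16960440))) (a (l 6) (a (l 17206240) (a (l 17163272) (l 17132432))))))) (a (l 6) (b (a (l 6) (l 6)) (l 6)))), by decide +kernel⟩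

def k1_A00pm_123_s3 : ∃ t, chk3 f_A00pm_123_s3 t 6 1 1 = true :=
  ⟨(b (b (a (b (a (l 542908943) (l 542650127)) (a (l 542935311) (b (l 542749967) (l 542888463)))) (b (l 4) (a (b (l 542626831) (l 542708239)) (b (l 4) (l 4))))) (a (b (a (l 543942927) (b (l 542965007) (l 543060239))) (a (b (l 17057256) (l 17107400)) (b (l 16988024) (l 17036744)))) (b (a (l 544436495) (l 542551311)) (a (b (l 542924559) (l 16921680)) (b (l 542640911) (l 542685455)))))) (b (a (b (a (l 17149056) (b (c (l 17091376) (l 17062512)) (l 17101568))) (a (l 6) (l 17127592))) (b (a (b (a (l 17026712) (l 16989168)) (l 17037632)) (b (a (l 16951744) (l 16915496)) (a (l 16988536) (l 16953064)))) (a (l 17063824) (b (l 16992872) (l 17007520))))) (a (l 6) (b (b (l 17051224) (l 17231144)) (b (l 17159096) (l 17092192)))))), by decide +kernel⟩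

def k2_A00pm_123_s3 : ∃ t, chk3 f_A00pm_123_s3 t 14 1 1 = true :=
  ⟨(b (b (l 4) (a (b (b (l 4) (l 542251791)) (a (l 542400271) (l 542206479))) (b (l 4) (a (l 541997839) (b (l 4) (l 541795087)))))) (b (b (a (b (a (l 16838736) (l 542273551)) (a (l 16916176) (l 16838640))) (a (b (l 542049039) (l 542085647)) (b (l 541807375) (l 542107407)))) (a (b (a (l 16945048) (b (l 16905072) (l 16918504))) (l 16944840)) (b (a (b (l 16869480) (l 16884120)) (b (l 541884943) (l 16807664))) (a (l 16878232) (b (a (l 16871480) (l 16854320)) (l 16852120)))))) (b (a (b (l 16956488) (l 16966304)) (b (a (l 16911144) (l 16881872)) (l 16905472))) (a (b (l 16976784) (l 16992536)) (b (l 16998624) (l 16928048)))))), by decide +kernel⟩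

def k3_A00pm_123_s3 : ∃ t, chk3 f_A00pm_123_s3 t 30 1 1 = true :=
  ⟨(b (l 4) (b (b (a (b (l 542086927) (l 543184399)) (b (l 4) (a (l 542181647) (l 4)))) (b (a (a (l 542787855) (b (l 541559567) (l 541591311))) (a (b (c (l 541612303) (l 541216527)) (l 542514703)) (b (l 542060047) (l 541549583)))) (a (a (a (l 16826480) (l 16839328)) (b (l 16821464) (l 16832752))) (a (b (l 542556431) (l 16795688)) (b (l 542393615) (l 542984207)))))) (b (a (b (b (a (l 16858272) (l 16842912)) (l 16856144)) (l 16862544)) (b (a (b (l 16816320) (l 16835432)) (a (b (l 16814944) (l 16824024)) (b (l 16807088) (l 16816064)))) (a (l 16841784) (b (l 16826728) (l 16830144))))) (a (b (l 16870560) (l 16881312)) (b (a (l 16849032) (l 16878904)) (l 16932000)))))), by decide +kernel⟩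

def k4_A00pm_123_s3 : ∃ t, chk3 f_A00pm_123_s3 t 31 2 1 = true :=
  ⟨(l 4), by decide +kernel⟩

def k5_A00pm_123_s3 : ∃ t, chk3 f_A00pm_123_s3 t 62 3 1 = true :=
  ⟨(b (b (l 4) (b (a (b (l 4) (a (l 541163791) (l 4))) (l 4)) (a (b (a (l 541201679) (l 541108239)) (a (l 541254671) (l 541156623))) (b (l 4) (a (l 541188623) (a (l 540978447) (l 4))))))) (b (b (a (b (a (l 541867535) (l 542578959)) (a (l 16808280) (l 16789936))) (b (a (b (l 541111311) (l 541154063)) (b (l 541528335) (l 542106383))) (a (b (l 541470223) (l 16794760)) (a (b (l 541124367) (l 16789128)) (l 542695951))))) (a (b (a (l 16836960) (c (l 16851184) (l 16827800))) (l 16816592)) (b (a (a (l 16802336) (l 16798464)) (b (a (l 16792760) (l 16788968)) (l 16804832))) (a (l 16827760) (b (l 16807976) (l 16821664)))))) (a (b (l 16820928) (l 16868400)) (b (l 16828232) (b (l 16810936) (l 16814648)))))), by decide +kernel⟩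

def k6_A00pm_123_s3 : ∃ t, chk3 f_A00pm_123_s3 t 126 3 1 = true :=
  ⟨(b (l 4) (b (b (a (b (a (l 541727247) (l 4)) (b (a (l 540990479) (l 540912911)) (a (l 541041935) (l 541231887)))) (b (l 4) (a (b (l 4) (l 540874255)) (l 4)))) (b (a (b (a (l 541368335) (l 541020431)) (a (l 16788552) (l 541621263))) (a (b (l 540929551) (l 542603023)) (b (l 542165263) (a (l 540929807) (l 540873487))))) (b (a (a (l 16791768) (l 16787864)) (a (b (l 541047055) (l 16790032)) (a (l 541270543) (l 541750287)))) (a (a (l 16794656) (l 16790848)) (a (l 16792128) (a (l 16783992) (b (l 541005839) (l 16782760)))))))) (b (a (b (a (l 16819232) (b (l 16814448) (l 16795192))) (l 16798464)) (b (a (b (l 16799880) (l 16802536)) (a (b (l 16786616) (l 16788904)) (b (l 16784632) (l 16797320)))) (a (l 16793416) (b (l 16800464) (l 16790536))))) (b (b (l 16796368) (l 16818208)) (a (l 16803104) (l 16815696)))))), by decide +kernel⟩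

def k7_A00pm_123_s3 : ∃ t, chk3 f_A00pm_123_s3 t 127 3 1 = true :=
  ⟨(a (b (l 4) (b (b (l 4) (b (a (b (l 4) (a (l 540811023) (l 4))) (l 4)) (a (b (a (l 542491919) (b (l 4) (l 540830479))) (a (b (l 540942095) (l 540985359)) (b (l 540870159) (l 541449999)))) (b (l 4) (a (b (l 541324047) (a (l 541133839) (l 540821263))) (l 4)))))) (b (a (b (b (a (c (l 16788088) (l 16787784)) (b (l 542574351) (c (l 16781480) (l 16786504)))) (a (l 16785032) (l 16788272))) (b (a (l 16797624) (c (l 16795552) (l 16795184))) (l 16787176))) (b (b (a (b (a (l 540915727) (l 540871183)) (a (l 16782584) (l 540924431))) (b (a (l 540822287) (l 4)) (a (l 540875279) (l 540820751)))) (a (b (a (l 16781040) (l 16782712)) (c (l 16781704) (l 16786736))) (b (a (l 541737231) (l 542487567)) (l 14)))) (a (b (a (l 16788736) (l 14)) (c (l 16795608) (l 16795248))) (l 14)))) (a (b (l 16788160) (l 16799896)) (b (l 16790016) (b (l 16796088) (l 16786552))))))) (b (l 4) (b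 (l 4) (b (a (b (b (a (b (l 4) (a (l 541565199) (l 4))) (l 4)) (a (b (b (a (l 540803087) (l 4)) (l 14)) (l 14)) (l 14))) (l 14)) (b (l 4) (l 14))) (l 14))))), by decide +kernel⟩

theorem t8_A00pm_123_s3 : ∃ t, chk3 f_A00pm_123_s3 t 63 3 1 = true := ex3_a k6_A00pm_123_s3 k7_A00pm_123_s3

theorem t9_A00pm_123_s3 : ∃ t, chk3 f_A00pm_123_s3 t 31 3 1 = true := ex3_a k5_A00pm_123_s3 t8_A00pm_123_s3

theorem t10_A00pm_123_s3 : ∃ t, chk3 f_A00pm_123_s3 t 31 1 1 = true := ex3_b k4_A00pm_123_s3 t9_A00pm_123_s3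

theorem t11_A00pm_123_s3 : ∃ t, chk3 f_A00pm_123_s3 t 15 1 1 = true := ex3_a k3_A00pm_123_s3 t10_A00pm_123_s3

theorem t12_A00pm_123_s3 : ∃ t, chk3 f_A00pm_123_s3 t 7 1 1 = true := ex3_a k2_A00pm_123_s3 t11_A00pm_123_s3

theorem t13_A00pm_123_s3 : ∃ t, chk3 f_A00pm_123_s3 t 3 1 1 = true := ex3_a k1_A00pm_123_s3 t12_A00pm_123_s3

theorem t14_A00pm_123_s3 : ∃ t, chk3 f_A00pm_123_s3 t 1 1 1 = true := ex3_a k0_A00pm_123_s3 t13_A00pm_123_s3

theorem c_A00pm_123_s3 : CertF 536870912 536870912 0 536870912 134217728 67108864 true true false .npn 1 2 3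
    ndF0q1 ndF0q2 pcF3 cut_A00pm_123_s3 xt_A00pm_123_s3 :=
  certFK2 (fam := true) (s1 := true) (s2 := false) (a := 1) (b := 2) (c := 3) (cn := .npn) (n1 := ndF0q1) (n2 := ndF0q2) (pc := pcF3) (cut := cut_A00pm_123_s3) (xt := xt_A00pm_123_s3) (P1 := 536870912) (W1 := 536870912) (P2 := 0) (W2 := 536870912) (P3 := 134217728) (W3 := 67108864)
    rfl rfl rfl (fun _ => rfl) t14_A00pm_123_s3

theorem s_A00pm_123_s3 {κ x : ℝ} (hκ : κ * h0 = ken x) (hx : ((134217728 : ℕ) : ℝ) / S ≤ x)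
    (hx' : x ≤ (((134217728 : ℕ) : ℝ) + (67108864 : ℕ)) / S)
    (H : CutA (VF κ) PP tKF tL pcF (Cut.of [[⟨0, 1, 0, 39843005⟩, ⟨1, 1, 0, 39843005⟩, ⟨2, 2, 0, 5814905⟩]]) 1 2 3 0 0 (sgb true) (sgb false) x) :
    AltA (VF κ) PP tKF tL pcF [⟨4, 0, 0, 2845415833⟩] 1 2 3 0 0 (sgb true) (sgb false) x :=
  strip_altA (m := 2845415833) false rfl hκ covF01 covF02 hx hx' c_A00pm_123_s3 H ((okx hx hx').extA (T := tt) (sideF hx hx') hκ rfl rfl (.O 1 true) (.O 2 false) (Or.inr rfl))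

noncomputable def cut_A00pm_202_s1 : Cut := Cut.of [[⟨4, 0, 0, 1449551462⟩], [⟨0, 1, 0, 67108864⟩, ⟨1, 0, 0, 67108864⟩, ⟨2, 1, 0, 67108864⟩], [⟨0, 1, 0, 16777216⟩, ⟨1, 0, 1, 41943040⟩, ⟨2, 1, 1, 41943040⟩]]

noncomputable def f_A00pm_202_s1 : ℕ → ℕ → ℕ → ℕ → Bool := onCell 0 536870912 1073741824 536870912 134217728 67108864
    (rowFK 1 true true false .pp 2 0 2 (qsf 0 536870912 0 536870912 2) ndF0q2 ndF0q0 pcF2 cut_A00pm_202_s1 Ext.none)

def k0_A00pm_202_s1 : ∃ t, chk3 f_A00pm_202_s1 t 2 1 1 = true :=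
  ⟨(b (b (b (l 1) (l 6)) (l 6)) (l 6)), by decide +kernel⟩

def k1_A00pm_202_s1 : ∃ t, chk3 f_A00pm_202_s1 t 6 2 1 = true :=
  ⟨(b (a (b (l 1) (b (l 1) (l 6))) (b (l 1) (b (b (a (l 1) (b (l 1) (a (b (l 1) (l 16640184)) (a (b (l 16652712) (c (l 16637776) (l 16618112))) (b (c (l 16648840) (l 16629688)) (l 16708640)))))) (b (a (b (l 1) (a (l 1) (b (l 1) (l 16639712)))) (a (a (b (l 16650416) (b (l 16689944) (l 16691968))) (b (b (l 16655136) (l 16694872)) (l 16655224))) (b (l 16662648) (b (l 16665424) (l 16667144))))) (a (a (b (l 1) (b (l 16625664) (l 16604056))) (b (a (b (l 16679192) (l 16636552)) (l 16632776)) (a (l 16634672) (l 16641576)))) (b (a (l 16643048) (b (l 16667864) (l 16667192))) (a (l 16651888) (l 16655032)))))) (b (b (a (a (b (a (l 6) (l 16668480)) (l 6)) (b (l 16636952) (c (l 16669600) (l 16642744)))) (b (a (l 16650704) (l 16653872)) (a (l 16638824) (c (l 16699048) (l 16668400))))) (a (a (l 6) (b (l 16633736) (l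 16673712))) (b (a (l 16647608) (l 16661376)) (a (l 16687680) (l 16701552))))) (a (l 6) (b (a (l 16662160) (l 16655368)) (a (l 16679376) (l 16693776)))))))) (b (b (b (a (l 6) (a (l 6) (b (a (l 6) (l 16690072)) (l 6)))) (l 6)) (l 6)) (l 6))), by decide +kernel⟩

def k2_A00pm_202_s1 : ∃ t, chk3 f_A00pm_202_s1 t 14 8 1 = true :=
  ⟨(b (l 1) (a (b (l 1) (b (l 1) (b (a (l 1) (a (l 1) (l 14))) (a (l 1) (c (a (c (b (l 16673040) (l 16668824)) (l 16667216)) (l 16680744)) (a (l 16662064) (l 16664056))))))) (b (l 14) (b (l 14) (b (l 14) (b (l 14) (a (a (l 16687544) (l 16689048)) (a (l 16690464) (l 16697288))))))))), by decide +kernel⟩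

def k3_A00pm_202_s1 : ∃ t, chk3 f_A00pm_202_s1 t 14 18 1 = true :=
  ⟨(b (a (a (b (c (a (b (l 1) (l 16659488)) (b (a (l 16658872) (l 16670056)) (l 16692488))) (b (l 16661088) (l 16652552))) (c (a (l 16677472) (l 16679192)) (l 16654968))) (c (b (b (a (l 16671096) (l 16682904)) (l 16673760)) (b (l 16686072) (l 16685664))) (b (l 16661272) (l 16669312)))) (a (c (b (b (a (l 16684168) (l 16685352)) (l 16676512)) (a (l 16675336) (l 16683312))) (b (b (l 16700928) (l 16702192)) (b (l 16703824) (l 16705592)))) (b (c (a (l 16677872) (l 16686384)) (b (l 16695448) (l 16696448))) (c (a (l 16691312) (l 16688840)) (b (l 16697568) (l 16698824)))))) (b (b (a (a (l 16676912) (l 16670256)) (a (l 16684624) (c (l 16697752) (l 16700200)))) (a (a (b (l 16679304) (l 16680784)) (b (l 16693232) (l 16673496))) (a (a (l 16682784) (l 16689768)) (c (l 16699096) (a (l 16697968) (l 16704616)))))) (b (a (c (a (l 16676952) (l 16670416)) (a (l 16663064) (l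 16675888))) (a (c (l 16684912) (l 16688768)) (c (l 16699472) (c (l 16701224) (l 16702152))))) (a (a (a (l 16675704) (l 16682520)) (c (l 16689560) (l 16674728))) (a (c (l 16704184) (l 16687600)) (c (l 16697904) (l 16700536))))))), by decide +kernel⟩

def k4_A00pm_202_s1 : ∃ t, chk3 f_A00pm_202_s1 t 14 19 1 = true :=
  ⟨(b (a (b (b (a (c (l 16673472) (l 16682088)) (c (l 16688112) (l 16673896))) (a (c (l 16671784) (l 16660160)) (c (l 16686536) (l 16672920)))) (a (c (l 16656560) (b (l 16679904) (l 16636608))) (b (l 16667960) (l 16687368)))) (b (c (b (a (l 16702824) (l 16696632)) (a (l 16701352) (l 16695272))) (b (a (l 16686728) (l 16699624)) (a (l 16685736) (c (l 16697880) (l 16688816))))) (b (a (b (l 16682568) (l 16702792)) (c (l 16714768) (l 16697472))) (a (l 16680368) (l 16694400))))) (a (a (b (l 16669536) (l 16708168)) (b (l 16683760) (a (l 16718976) (l 16726216)))) (a (b (b (l 16699824) (l 16698280)) (l 16695184)) (b (b (l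 16693008) (l 16712560)) (a (l 16706104) (l 16713416)))))), by decide +kernel⟩

def k5_A00pm_202_s1 : ∃ t, chk3 f_A00pm_202_s1 t 15 8 1 = true :=
  ⟨(a (b (l 14) (b (l 14) (b (l 14) (b (l 14) (b (l 14) (a (a (l 16705760) (l 16703792)) (a (l 16712344) (l 16720920)))))))) (b (l 14) (a (b (l 14) (b (l 14) (b (l 14) (b (l 14) (c (a (l 16719208) (l 16738640)) (a (l 16718792) (l 16727056))))))) (a (b (l 14) (b (l 14) (b (l 14) (b (l 14) (c (a (l 16734848) (l 16739312)) (l 16735320)))))) (a (b (l 14) (b (l 14) (b (l 14) (b (l 14) (b (l 14) (c (l 16743648) (l 16741360))))))) (b (l 14) (b (l 14) (b (l 14) (b (l 14) (b (l 14) (a (c (l 16746976) (l 16744448)) (b (l 14) (b (l 14) (a (l 16747200) (c (l 16749640) (l 16746880)))))))))))))))), by decide +kernel⟩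

def k6_A00pm_202_s1 : ∃ t, chk3 f_A00pm_202_s1 t 30 36 1 = true :=
  ⟨(a (b (c (a (c (l 16694304) (l 16685032)) (c (l 16697840) (l 16693424))) (b (l 16711304) (l 16711792))) (c (a (l 16696880) (l 16704960)) (b (l 16701928) (l 16702664)))) (a (b (c (c (l 16706640) (l 16701848)) (l 16702344)) (c (c (l 16702464) (l 16702680)) (l 16702816))) (b (c (c (l 16720696) (l 16710288)) (l 16720752)) (c (c (l 16710784) (l 16710616)) (l 16715464))))), by decide +kernel⟩

def k7_A00pm_202_s1 : ∃ t, chk3 f_A00pm_202_s1 t 62 36 1 = true :=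
  ⟨(c (b (b (a (l 16729488) (c (l 16738536) (l 16727456))) (a (l 16729328) (c (l 16727704) (l 16726992)))) (a (c (l 16729592) (l 16718568)) (c (b (l 16727488) (l 16727408)) (b (l 16726648) (l 16726440))))) (b (a (b (l 16718416) (l 16718024)) (c (l 16736992) (l 16725776))) (b (a (l 16717752) (l 16725312)) (a (l 16717584) (l 16724896))))), by decide +kernel⟩

def k8_A00pm_202_s1 : ∃ t, chk3 f_A00pm_202_s1 t 126 36 1 = true :=
  ⟨(b (c (c (b (a (l 16734744) (l 16739200)) (a (l 16734208) (l 16738544))) (b (l 16741280) (l 16740560))) (b (c (l 16735064) (l 16734072)) (c (l 16734224) (l 16733104)))) (c (b (c (a (l 16733808) (l 16738016)) (l 16739968)) (c (a (l 16733544) (l 16737624)) (l 16739496))) (b (c (l 16733504) (l 16732248)) (c (l 16732888) (l 16731504))))), by decide +kernel⟩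

def k9_A00pm_202_s1 : ∃ t, chk3 f_A00pm_202_s1 t 127 36 2 = true :=
  ⟨(a (b (c (b (c (l 16743944) (l 16743352)) (c (l 16743200) (l 16742544))) (b (l 16742456) (l 16741552))) (c (b (c (l 16742576) (l 16741856)) (c (l 16742096) (l 16741304))) (b (l 16740760) (l 16740104)))) (b (b (a (c (c (l 16747312) (l 16746656)) (l 16745664)) (c (a (c (l 16748992) (l 16748304)) (b (b (l 16750152) (l 16749888)) (b (l 16749632) (l 16749392)))) (a (l 16747264) (b (b (l 16748768) (l 16748472)) (b (l 16748192) (l 16747912)))))) (b (a (c (l 16746320) (l 16744904)) (b (c (l 16748608) (l 16747120)) (c (l 16748384) (l 16746864)))) (a (c (l 16745912) (l 16744432)) (b (c (l 16748160) (l 16746608)) (c (l 16747952) (l 16746368)))))) (c (a (b (c (l 16745760) (l 16744968)) (c (l 16745184) (l 16744320))) (b (b (b (l 16747752) (l 16747560)) (b (l 16747368) (l 16749816))) (b (c (a (l 16746872) (l 16747904)) (l 16746496)) (c (a (l 16746592) (l 16747608))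 (l 16746176))))) (a (b (l 16743776) (l 16743024)) (b (b (b (l 16746128) (l 16745904)) (b (l 16745680) (l 16745472))) (a (c (l 16744928) (l 16744032)) (b (a (l 16745408) (l 16745896)) (b (l 16745360) (l 16745168))))))))), by decide +kernel⟩

def k10_A00pm_202_s1 : ∃ t, chk3 f_A00pm_202_s1 t 127 36 3 = true :=
  ⟨(a (b (c (b (l 16741240) (l 16740208)) (a (l 16738432) (l 16740376))) (c (b (l 16739288) (l 16738488)) (b (l 16737800) (l 16736848)))) (a (b (c (b (l 16744320) (l 16743192)) (b (l 16742968) (l 16741720))) (c (b (l 16742184) (l 16741280)) (b (l 16740568) (l 16739528)))) (a (b (c (b (l 16745864) (l 16744688)) (b (l 16747072) (l 16743152))) (c (b (l 16743624) (l 16742672)) (b (l 16741952) (l 16740864)))) (b (c (b (b (b (l 16747376) (l 16747048)) (b (l 16746736) (l 16746424))) (b (b (l 16746128) (l 16745832)) (a (l 16745152) (l 16745648)))) (b (b (b (l 16745968) (l 16745616)) (b (l 16745264) (l 16744928))) (b (b (l 16744592)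 (l 16744272)) (a (l 16743552) (l 16744032))))) (c (b (b (a (l 16744608) (l 16745096)) (l 16746952)) (c (l 16746688) (l 16743144))) (b (b (l 16743176) (l 16742584)) (c (l 16742216) (l 16741288)))))))), by decide +kernel⟩

def k11_A00pm_202_s1 : ∃ t, chk3 f_A00pm_202_s1 t 30 37 1 = true :=
  ⟨(a (b (b (c (l 16702592) (l 16703528)) (c (c (l 16703256) (l 16714216)) (a (l 16711296) (l 16697048)))) (b (c (c (l 16703400) (l 16714344)) (b (l 16704752) (l 16693728))) (a (l 16709720) (l 16706224)))) (b (a (b (l 16714112) (c (l 16704264) (l 16714296))) (b (c (l 16711416) (l 16710504)) (c (l 16711792) (l 16721088)))) (a (b (c (l 16704224) (l 16703688)) (l 16713240)) (b (c (l 16711632) (l 16720816)) (l 16720288))))), by decide +kernel⟩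

def k12_A00pm_202_s1 : ∃ t, chk3 f_A00pm_202_s1 t 62 37 1 = true :=
  ⟨(b (b (a (c (l 16719168) (l 16717544)) (c (c (l 16727472) (l 16726352)) (l 16724584))) (a (c (l 16729808) (b (l 16717592) (l 16717608))) (c (b (l 16727000) (l 16727048)) (b (l 16724440) (l 16724336))))) (a (b (b (a (l 16716712) (l 16720208)) (l 16717896)) (c (l 16717848) (l 16715800))) (b (b (c (l 16726856) (l 16724040)) (l 16724912)) (a (l 16722152) (l 16725688))))), by decide +kernel⟩

def k13_A00pm_202_s1 : ∃ t, chk3 f_A00pm_202_s1 t 63 37 4 = true :=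
  ⟨(b (a (b (a (l 16733408) (l 16737368)) (a (l 16733272) (l 16742360))) (a (b (c (l 16741752) (l 16740880)) (b (l 16741120) (l 16741000))) (a (b (c (l 16744744) (l 16743800)) (b (l 16744000) (c (l 16744368) (l 16743320)))) (a (b (c (c (l 16746480) (l 16745992)) (l 16745264)) (b (c (l 16745960) (l 16744928)) (c (l 16745800) (l 16744720)))) (b (c (c (b (l 16747592) (l 16747376)) (b (l 16747104) (l 16746864))) (b (l 16746376) (l 16746104))) (b (c (c (l 16747192) (l 16746664)) (l 16745872)) (b (c (l 16746808) (l 16745720)) (c (a (l 16746496) (l 16746976)) (l 16745624))))))))) (a (b (a (l 16732840) (l 16741880)) (a (l 16731776) (l 16735616))) (a (b (b (l 16740736) (l 16740256)) (l 16744696)) (a (b (b (b (l 16743688) (l 16743456)) (l 16743088)) (b (l 16742656) (l 16742224))) (a (b (b (b (l 16745096) (l 16744864)) (l 16744504)) (b (l 16744080) (l 16743656))) (b (b (b (c (a (l 16746360) (l 16746832)) (l 16745464)) (l 16745808)) (b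 (l 16748208) (l 16747992))) (a (b (l 16744784) (l 16744376)) (b (c (l 16745864) (l 16744664)) (c (l 16745464) (l 16744240)))))))))), by decide +kernel⟩

def k14_A00pm_202_s1 : ∃ t, chk3 f_A00pm_202_s1 t 63 37 5 = true :=
  ⟨(a (b (b (a (l 16732016) (l 16735792)) (b (l 16733736) (l 16733632))) (b (a (l 16731184) (l 16740032)) (a (l 16730080) (l 16733704)))) (a (b (b (c (l 16740000) (l 16739120)) (b (l 16739248) (l 16739048))) (b (b (l 16738720) (l 16738192)) (l 16742576))) (b (a (b (c (l 16742856) (l 16741912)) (b (l 16742000) (l 16741752))) (a (b (c (l 16744288) (l 16743312)) (b (l 16743368) (c (l 16743640) (l 16742568)))) (b (b (b (l 16744992) (l 16744824)) (b (l 16744656) (l 16744504))) (b (c (l 16744816) (l 16743752)) (b (l 16744088) (l 16746576)))))) (b (a (b (l 16741400) (l 16740888)) (b (b (b (l 16743392) (l 16743264)) (l 16743072)) (a (l 16742232) (l 16743128)))) (a (l 16740048) (a (l 16744024) (b (l 16742648) (l 16742176)))))))),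 by decide +kernel⟩

def k15_A00pm_202_s1 : ∃ t, chk3 f_A00pm_202_s1 t 63 37 3 = true :=
  ⟨(a (b (b (c (l 16732400) (l 16730856)) (b (l 16736528) (a (l 16729376) (l 16732736)))) (b (b (a (l 16729024) (l 16732352)) (l 16730112)) (a (l 16727464) (l 16730792)))) (a (b (b (c (l 16737800) (l 16736016)) (b (l 16741656) (c (l 16737080) (l 16735104)))) (b (b (c (l 16736688) (l 16734640)) (l 16735080)) (b (l 16734520) (l 16733968)))) (b (b (a (c (l 16740496) (l 16738592)) (c (a (l 16741840) (c (l 16743240) (l 16742240))) (b (l 16740544) (l 16740072)))) (a (b (c (l 16739984) (l 16737960)) (c (l 16739656) (l 16737552))) (c (b (a (l 16741296) (l 16742168)) (b (l 16741472) (l 16741304))) (b (l 16739624) (l 16741808))))) (b (b (a (c (l 16739240) (l 16737064)) (b (c (l 16741088) (l 16738848)) (l 16739672))) (a (l 16737560) (a (l 16738808) (l 16739632)))) (b (a (l 16737000) (a (l 16738248) (l 16739072))) (a (l 16736456) (a (l 16737696) (l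 16738520)))))))), by decide +kernel⟩

def k16_A00pm_202_s1 : ∃ t, chk3 f_A00pm_202_s1 t 30 38 1 = true :=
  ⟨(b (a (b (a (l 16708648) (l 16705160)) (c (l 16710264) (a (l 16687368) (l 16693912)))) (b (a (l 16712192) (l 16719248)) (a (c (l 16700600) (l 16700496)) (c (l 16708184) (l 16707104))))) (a (b (c (l 16708936) (l 16700008)) (a (l 16684016) (l 16691128))) (b (a (l 16699464) (l 16717072)) (a (l 16698280) (l 16705456))))), by decide +kernel⟩

def k17_A00pm_202_s1 : ∃ t, chk3 f_A00pm_202_s1 t 62 38 1 = true :=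
  ⟨(b (b (a (c (l 16716816) (l 16714776)) (a (l 16721136) (l 16724672))) (a (c (l 16715768) (l 16713728)) (c (l 16733848) (b (l 16720792) (l 16720256))))) (a (b (c (l 16714704) (l 16712648)) (l 16712656)) (b (a (l 16719088) (l 16722672)) (a (l 16718072) (l 16721688))))), by decide +kernel⟩

def k18_A00pm_202_s1 : ∃ t, chk3 f_A00pm_202_s1 t 126 38 1 = true :=
  ⟨(b (b (a (l 16730832) (c (l 16733744) (l 16729728))) (c (a (l 16729056) (l 16732848)) (a (l 16725360) (l 16733936)))) (b (a (c (l 16728144) (l 16724328)) (c (l 16731984) (l 16727672))) (a (l 16730552) (c (l 16731160) (l 16726688))))), by decide +kernel⟩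

def k19_A00pm_202_s1 : ∃ t, chk3 f_A00pm_202_s1 t 254 38 1 = true :=
  ⟨(b (b (c (a (l 16736560) (l 16738440)) (a (l 16732224) (l 16733888))) (b (c (l 16736968) (l 16732376)) (c (l 16736544) (l 16731864)))) (b (c (a (l 16734872) (l 16742040)) (a (l 16730184) (l 16731864))) (c (a (l 16734080) (l 16736032)) (a (l 16729216) (l 16730912))))), by decide +kernel⟩

def k20_A00pm_202_s1 : ∃ t, chk3 f_A00pm_202_s1 t 255 38 1 = true :=
  ⟨(a (b (b (c (b (l 16740640) (l 16740208)) (b (l 16735912) (l 16735384))) (c (b (l 16739792) (c (l 16740640) (l 16738136))) (b (l 16734864) (l 16734360)))) (b (b (c (l 16744232) (l 16733864)) (c (l 16743856) (l 16733376))) (c (c (l 22) (l 16736640)) (c (l 16733952) (l 16731248))))) (b (b (b (a (c (c (l 16743256) (l 16740816)) (l 16737152)) (c (c (a (l 16743976) (b (l 16744576) (l 16747000))) (l 16741720)) (l 16743224))) (a (c (c (l 16742856) (l 16740368)) (l 16736632)) (c (c (a (l 16743584) (c (l 22)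 (l 16743424))) (l 16741280)) (l 16742696)))) (b (a (c (c (l 16742480) (l 16739936)) (l 16736112)) (c (c (a (l 16743208) (c (l 22) (l 16743040))) (l 16743472)) (c (l 16738248) (l 16735640)))) (b (a (c (c (l 16742224) (l 16739640)) (l 16735752)) (c (c (c (l 22) (l 16742536)) (l 16740552)) (c (l 16737904) (l 16735256)))) (a (c (c (l 16742040) (l 16739424)) (l 16735504)) (c (c (c (l 22) (l 16742352)) (l 16740344)) (l 16736336)))))) (c (a (b (c (b (l 16741752) (l 22)) (b (l 16739096) (l 16738696))) (c (l 22) (b (l 16738312) (l 16737936)))) (c (b (b (b (c (l 22) (l 16742168)) (l 22)) (l 22)) (l 22)) (a (b (b (l 16739792) (l 16739400)) (b (l 16739016) (l 16738640))) (b (b (c (l 16740936) (l 16739568)) (c (l 16740560) (l 16739168))) (b (c (l 16740192) (l 16738768)) (c (l 16739840) (l 16738392))))))) (b (a (c (l 16736144) (l 16733456)) (c (b (l 16737304) (l 16736856)) (l 16736888))) (b (a (l 16734160) (c (l 16736416) (l 16733592)))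 (a (l 16733704) (c (l 16735992) (l 16733104)))))))), by decide +kernel⟩

def k21_A00pm_202_s1 : ∃ t, chk3 f_A00pm_202_s1 t 30 39 1 = true :=
  ⟨(a (b (b (l 16707272) (l 16705984)) (a (l 16720768) (l 16707200))) (b (a (l 16711608) (b (l 16704328) (l 16703216))) (a (l 16714656) (l 16722160)))), by decide +kernel⟩

def k22_A00pm_202_s1 : ∃ t, chk3 f_A00pm_202_s1 t 62 39 1 = true :=
  ⟨(b (a (b (l 16711608) (l 16710576)) (b (l 16729400) (l 16728456))) (a (b (l 16709576) (l 16708608)) (b (l 16727552) (l 16726688)))), by decide +kernel⟩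

def k23_A00pm_202_s1 : ∃ t, chk3 f_A00pm_202_s1 t 63 39 1 = true :=
  ⟨(a (c (b (a (l 16736136) (b (l 16730368) (l 16729624))) (b (l 16737376) (l 16736696))) (b (b (a (l 16722336) (l 16725744)) (l 16733600)) (b (l 16732720) (l 16721392)))) (a (b (c (c (l 22) (b (l 16733040) (l 16732312))) (b (l 16734392) (l 16733512))) (c (c (l 22) (b (l 16731632) (l 16731000))) (b (l 16737928) (l 16737144)))) (a (b (b (c (b (l 16742776) (l 16742440)) (c (l 16733104) (l 16730296))) (c (c (l 22) (l 16735216)) (c (l 16732312) (l 16729400)))) (c (b (c (l 22) (l 16734584)) (l 22)) (b (c (l 16731568) (l 16728544)) (c (l 16730872) (l 16727736))))) (b (a (b (c (c (l 22) (b (l 16737576) (l 16737224))) (c (l 16734440) (l 16731528))) (c (c (l 22) (b (l 16736888) (l 16736568))) (c (l 16733656) (l 16730640)))) (c (c (l 22) (a (b (b (l 16738288) (l 16737944)) (b (l 16737608) (l 16737296))) (c (b (b (l 16739504) (l 22)) (l 22)) (b (b (l 16738024) (l 16737664))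 (b (l 16737328) (l 16737000)))))) (b (b (c (l 16735584) (l 16732632)) (c (l 16735184) (l 16732176))) (b (c (l 16734792) (l 16731736)) (c (l 16737040) (l 16731304)))))) (a (c (b (c (l 22) (b (l 16736256) (l 22))) (l 22)) (b (c (l 16732928) (l 16729800)) (c (l 16734880) (l 16729008)))) (b (a (c (c (l 22) (b (l 16736992) (l 22))) (c (b (l 16733832) (l 16733488)) (l 16730424))) (b (c (c (l 22) (c (l 22) (l 16736680))) (c (l 16734288) (l 16731088))) (c (l 22) (c (l 16736560) (l 16730688))))) (c (l 22) (b (c (b (l 16733472) (l 16733304)) (l 16730088)) (c (b (l 16733144) (l 16732992)) (l 16729704)))))))))), by decide +kernel⟩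

def k24_A00pm_202_s1 : ∃ t, chk3 f_A00pm_202_s1 t 7 40 1 = true :=
  ⟨(a (a (b (a (l 16704712) (l 16719416)) (a (l 16701304) (l 16716264))) (a (b (l 16692232) (l 16731312)) (b (a (l 16745304) (l 16752760)) (a (l 16742640) (l 16750256))))) (a (b (a (a (l 16718312) (l 16725880)) (a (l 16712536) (l 16720216))) (a (c (l 16697480) (l 16721000)) (a (l 16731544) (l 16718448)))) (a (a (b (b (l 16707680) (l 16706792)) (c (l 16706624) (l 16704056))) (b (b (l 16725864) (l 16725080)) (b (l 16724352) (l 16723680)))) (a (c (b (a (l 16733440) (l 22)) (l 22)) (b (b (l 16720584) (l 16719832)) (b (l 16719128) (l 16728960)))) (a (c (l 22) (b (b (l 16736416) (l 16735728)) (b (a (l 16723696) (l 16725536)) (a (l 16723112) (l 16724968))))) (a (c (l 22) (b (b (c (l 16730232) (l 16726984)) (c (l 16729640) (l 16726280))) (b (c (l 16729104) (l 16725632)) (c (l 22) (l 16725040))))) (b (a (c (l 22) (b (c (b (l 16731816) (l 16731520)) (l 16728272)) (c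 (b (l 16731232) (l 16730960)) (l 16727584)))) (c (l 22) (a (b (c (b (l 16732520) (l 16732224)) (l 16728912)) (c (b (l 16731944) (l 16731672)) (b (l 16728432) (l 16728104)))) (b (c (b (c (l 16733840) (l 16732128)) (c (l 22) (l 16731816))) (b (l 16729552) (l 16729200))) (c (c (l 22) (b (l 16731528) (l 16731248))) (b (l 16728864) (l 16728536))))))) (a (c (l 22) (b (c (b (l 16730696) (l 22)) (l 16726952)) (c (l 22) (b (l 16726536) (l 16726256))))) (c (l 22) (c (b (b (a (l 16731416) (c (l 22) (l 16730984))) (l 22)) (l 22)) (b (b (l 16730624) (a (l 16727488) (l 16730552))) (b (b (l 16727496) (l 16727360)) (b (l 16727224) (l 16727088)))))))))))))), by decide +kernel⟩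

def k25_A00pm_202_s1 : ∃ t, chk3 f_A00pm_202_s1 t 14 41 1 = true :=
  ⟨(b (a (a (l 16698336) (l 16713528)) (a (b (l 16729432) (l 16728176)) (b (l 16744808) (l 16743696)))) (a (a (l 6) (b (l 16711792) (b (l 16711384) (c (l 16829432) (l 16715872))))) (b (a (l 16727256) (l 16742888)) (a (b (l 16726872) (c (l 16750944) (l 16729936))) (b (l 16742528) (a (l 16738272) (a (l 16744184) (l 16748152)))))))), by decide +kernel⟩

def k26_A00pm_202_s1 : ∃ t, chk3 f_A00pm_202_s1 t 30 41 1 = true :=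
  ⟨(b (a (a (l 16714024) (l 16700960)) (b (l 16713360) (a (l 16687560) (l 16695664)))) (a (b (c (l 16789056) (l 16675744)) (c (b (l 16827680) (a (l 16765688) (a (l 16769816) (l 16772776)))) (b (l 16675224) (a (l 16713056) (l 16699424))))) (b (a (l 16728912) (l 16737088)) (b (c (a (l 16837600) (l 16845096)) (l 16710984)) (b (b (b (l 16732608) (b (l 16732656) (a (l 16686664) (l 16736792)))) (l 16732672)) (l 16732496)))))), by decide +kernel⟩

def k27_A00pm_202_s1 : ∃ t, chk3 f_A00pm_202_s1 t 31 41 1 = true :=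
  ⟨(a (c (a (b (b (l 16714320) (l 16767736)) (b (l 16733896) (b (l 16769416) (b (b (b (l 16866160) (b (l 16868328) (l 16785904))) (l 16873296)) (l 16881576))))) (l 22)) (b (a (l 16723592) (b (l 16710400) (l 16709768))) (b (a (l 16701680) (l 16709264)) (a (b (l 16701304) (b (b (b (l 16701088) (l 16711600)) (l 16701056)) (l 16700920))) (b (l 16719424) (b (b (b (l 16708752) (b (l 16708752) (l 16708752))) (l 16708712)) (l 16708600))))))) (c (l 22) (a (c (b (b (l 16719336) (l 22)) (l 22)) (b (b (l 16716400) (l 16715816)) (b (a (l 16713496) (l 16717168)) (b (a (l 16713144) (l 16727336)) (b (b (b (l 16714800) (b (l 16714792) (l 16725264))) (l 16714744)) (l 16714648)))))) (b (a (c (l 22) (b (l 16721792) (l 16721280))) (a (c (l 22) (b (l 16724504) (b (l 16724136) (l 16723912)))) (a (c (l 22) (b (b (l 16725992) (l 16725744)) (b (l 16725512) (l 16725296)))) (a (c (l 22) (b (b (l 16726672) (l 16726424)) (b (l 16726200) (l 16728608))))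 (c (l 22) (c (b (b (l 16728104) (l 22)) (l 22)) (b (b (l 16726144) (l 16725888)) (b (l 16725648) (l 16725424))))))))) (c (l 22) (c (l 22) (b (a (b (l 16720000) (l 16719776)) (c (l 22) (a (b (l 16722224) (l 16722008)) (b (b (l 16724064) (l 16723960)) (l 22))))) (a (b (b (l 16719600) (l 16719520)) (l 22)) (l 22))))))))), by decide +kernel⟩

def k28_A00pm_202_s1 : ∃ t, chk3 f_A00pm_202_s1 t 7 21 1 = true :=
  ⟨(a (a (b (l 6) (l 6)) (b (b (a (l 16745680) (a (l 16672832) (l 16680912))) (a (l 16764744) (l 16775888))) (a (l 6) (b (l 16778696) (l 6))))) (a (a (b (b (c (l 16825648) (l 16673136)) (a (l 16785736) (l 16793080))) (b (a (l 16870136) (l 16792048)) (l 16779000))) (b (b (a (l 16750856) (b (l 16695352) (l 16743312))) (a (l 16717184) (l 16746816))) (c (b (l 16984800) (l 17130416)) (b (l 16745800) (l 16784904))))) (a (b (a (b (c (l 16761368) (l 16699928)) (c (l 16922176) (l 16698600))) (b (c (a (l 16850552) (l 16770408)) (l 16707792))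 (c (l 16843888) (l 22)))) (c (b (c (l 17163888) (l 16904832)) (l 17052320)) (a (b (l 16720984) (l 16799640)) (l 22)))) (c (b (c (b (b (l 22) (l 16975248)) (a (l 17107096) (l 17111736))) (l 22)) (a (b (l 16915840) (l 17142224)) (c (l 17199192) (b (a (l 17004960) (l 16925160)) (l 17068688))))) (a (b (b (a (l 16713736) (l 22)) (l 22)) (l 22)) (l 22)))))), by decide +kernel⟩

def k29_A00pm_202_s1 : ∃ t, chk3 f_A00pm_202_s1 t 7 11 1 = true :=
  ⟨(a (l 6) (b (a (b (a (a (l 6) (l 16791976)) (c (l 17210200) (b (l 16857176) (l 16921824)))) (l 6)) (c (a (b (l 17130288) (l 17300200)) (b (a (l 17218760) (l 17138688)) (l 17305016))) (a (b (a (b (l 16870008) (l 16933176)) (b (l 16795544) (l 16857712))) (b (l 16826000) (l 6))) (b (c (a (b (l 16965712) (l 17023360)) (b (a (l 16972576) (l 16893480)) (l 17031696))) (l 22)) (a (b (l 16922120) (l 17056080)) (c (l 17106792) (b (a (l 16944392) (l 16865864)) (l 16999400)))))))) (b (a (l 6) (a (l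 6) (a (l 6) (b (b (l 17056968) (l 6)) (l 6))))) (l 6)))), by decide +kernel⟩

def k30_A00pm_202_s1 : ∃ t, chk3 f_A00pm_202_s1 t 3 3 1 = true :=
  ⟨(l 6), by decide +kernel⟩

theorem t31_A00pm_202_s1 : ∃ t, chk3 f_A00pm_202_s1 t 15 41 1 = true := ex3_a k26_A00pm_202_s1 k27_A00pm_202_s1

theorem t32_A00pm_202_s1 : ∃ t, chk3 f_A00pm_202_s1 t 7 41 1 = true := ex3_a k25_A00pm_202_s1 t31_A00pm_202_s1

theorem t33_A00pm_202_s1 : ∃ t, chk3 f_A00pm_202_s1 t 7 20 1 = true := ex3_b k24_A00pm_202_s1 t32_A00pm_202_s1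

theorem t34_A00pm_202_s1 : ∃ t, chk3 f_A00pm_202_s1 t 7 10 1 = true := ex3_b t33_A00pm_202_s1 k28_A00pm_202_s1

theorem t35_A00pm_202_s1 : ∃ t, chk3 f_A00pm_202_s1 t 7 5 1 = true := ex3_b t34_A00pm_202_s1 k29_A00pm_202_s1

theorem t36_A00pm_202_s1 : ∃ t, chk3 f_A00pm_202_s1 t 31 39 1 = true := ex3_a k22_A00pm_202_s1 k23_A00pm_202_s1

theorem t37_A00pm_202_s1 : ∃ t, chk3 f_A00pm_202_s1 t 15 39 1 = true := ex3_a k21_A00pm_202_s1 t36_A00pm_202_s1

theorem t38_A00pm_202_s1 : ∃ t, chk3 f_A00pm_202_s1 t 127 38 1 = true := ex3_a k19_A00pm_202_s1 k20_A00pm_202_s1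

theorem t39_A00pm_202_s1 : ∃ t, chk3 f_A00pm_202_s1 t 63 38 1 = true := ex3_a k18_A00pm_202_s1 t38_A00pm_202_s1

theorem t40_A00pm_202_s1 : ∃ t, chk3 f_A00pm_202_s1 t 31 38 1 = true := ex3_a k17_A00pm_202_s1 t39_A00pm_202_s1

theorem t41_A00pm_202_s1 : ∃ t, chk3 f_A00pm_202_s1 t 15 38 1 = true := ex3_a k16_A00pm_202_s1 t40_A00pm_202_s1

theorem t42_A00pm_202_s1 : ∃ t, chk3 f_A00pm_202_s1 t 15 19 1 = true := ex3_b t41_A00pm_202_s1 t37_A00pm_202_s1

theorem t43_A00pm_202_s1 : ∃ t, chk3 f_A00pm_202_s1 t 63 37 2 = true := ex3_c k13_A00pm_202_s1 k14_A00pm_202_s1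

theorem t44_A00pm_202_s1 : ∃ t, chk3 f_A00pm_202_s1 t 63 37 1 = true := ex3_c t43_A00pm_202_s1 k15_A00pm_202_s1

theorem t45_A00pm_202_s1 : ∃ t, chk3 f_A00pm_202_s1 t 31 37 1 = true := ex3_a k12_A00pm_202_s1 t44_A00pm_202_s1

theorem t46_A00pm_202_s1 : ∃ t, chk3 f_A00pm_202_s1 t 15 37 1 = true := ex3_a k11_A00pm_202_s1 t45_A00pm_202_s1

theorem t47_A00pm_202_s1 : ∃ t, chk3 f_A00pm_202_s1 t 127 36 1 = true := ex3_c k9_A00pm_202_s1 k10_A00pm_202_s1

theorem t48_A00pm_202_s1 : ∃ t, chk3 f_A00pm_202_s1 t 63 36 1 = true := ex3_a k8_A00pm_202_s1 t47_A00pm_202_s1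

theorem t49_A00pm_202_s1 : ∃ t, chk3 f_A00pm_202_s1 t 31 36 1 = true := ex3_a k7_A00pm_202_s1 t48_A00pm_202_s1

theorem t50_A00pm_202_s1 : ∃ t, chk3 f_A00pm_202_s1 t 15 36 1 = true := ex3_a k6_A00pm_202_s1 t49_A00pm_202_s1

theorem t51_A00pm_202_s1 : ∃ t, chk3 f_A00pm_202_s1 t 15 18 1 = true := ex3_b t50_A00pm_202_s1 t46_A00pm_202_s1

theorem t52_A00pm_202_s1 : ∃ t, chk3 f_A00pm_202_s1 t 15 9 1 = true := ex3_b t51_A00pm_202_s1 t42_A00pm_202_s1

theorem t53_A00pm_202_s1 : ∃ t, chk3 f_A00pm_202_s1 t 15 4 1 = true := ex3_b k5_A00pm_202_s1 t52_A00pm_202_s1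

theorem t54_A00pm_202_s1 : ∃ t, chk3 f_A00pm_202_s1 t 14 9 1 = true := ex3_b k3_A00pm_202_s1 k4_A00pm_202_s1

theorem t55_A00pm_202_s1 : ∃ t, chk3 f_A00pm_202_s1 t 14 4 1 = true := ex3_b k2_A00pm_202_s1 t54_A00pm_202_s1

theorem t56_A00pm_202_s1 : ∃ t, chk3 f_A00pm_202_s1 t 7 4 1 = true := ex3_a t55_A00pm_202_s1 t53_A00pm_202_s1

theorem t57_A00pm_202_s1 : ∃ t, chk3 f_A00pm_202_s1 t 7 2 1 = true := ex3_b t56_A00pm_202_s1 t35_A00pm_202_s1

theorem t58_A00pm_202_s1 : ∃ t, chk3 f_A00pm_202_s1 t 3 2 1 = true := ex3_a k1_A00pm_202_s1 t57_A00pm_202_s1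

theorem t59_A00pm_202_s1 : ∃ t, chk3 f_A00pm_202_s1 t 3 1 1 = true := ex3_b t58_A00pm_202_s1 k30_A00pm_202_s1

theorem t60_A00pm_202_s1 : ∃ t, chk3 f_A00pm_202_s1 t 1 1 1 = true := ex3_a k0_A00pm_202_s1 t59_A00pm_202_s1

theorem c_A00pm_202_s1 : CertF 0 536870912 0 536870912 134217728 67108864 true true false .pp 2 0 2
    ndF0q2 ndF0q0 pcF2 cut_A00pm_202_s1 Ext.none :=
  certFK1 (fam := true) (s1 := true) (s2 := false) (a := 2) (b := 0) (c := 2) (cn := .pp) (n1 := ndF0q2) (n2 := ndF0q0) (pc := pcF2) (cut := cut_A00pm_202_s1) (xt := Ext.none) (P1 := 0) (W1 := 536870912) (P2 := 0) (W2 := 536870912) (P3 := 134217728) (W3 := 67108864)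
    rfl rfl rfl (fun _ => rfl) t60_A00pm_202_s1

theorem s_A00pm_202_s1 {κ x : ℝ} (hκ : κ * h0 = ken x) (hx : ((134217728 : ℕ) : ℝ) / S ≤ x)
    (hx' : x ≤ (((134217728 : ℕ) : ℝ) + (67108864 : ℕ)) / S)
    (H : CutA (VF κ) PP tKF tL pcF (Cut.of [[⟨0, 1, 0, 67108864⟩, ⟨1, 0, 0, 67108864⟩, ⟨2, 1, 0, 67108864⟩], [⟨0, 1, 0, 16777216⟩, ⟨1, 0, 1, 41943040⟩, ⟨2, 1, 1, 41943040⟩]]) 2 0 2 0 0 (sgb true) (sgb false) x) :
    AltA (VF κ) PP tKF tL pcF [⟨3, 0, 0, 1449551462⟩] 2 0 2 0 0 (sgb true) (sgb false) x :=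
  strip_altA (m := 1449551462) true rfl hκ covF02 covF00 hx hx' c_A00pm_202_s1 H (noExt_A)

noncomputable def cut_A00pm_202_s3 : Cut := Cut.of [[⟨3, 0, 0, 2845415833⟩], [⟨0, 1, 0, 67108864⟩, ⟨1, 0, 0, 67108864⟩, ⟨2, 1, 0, 67108864⟩], [⟨0, 1, 0, 16777216⟩, ⟨1, 0, 1, 41943040⟩, ⟨2, 1, 1, 41943040⟩]]

noncomputable def f_A00pm_202_s3 : ℕ → ℕ → ℕ → ℕ → Bool := onCell 0 536870912 1073741824 536870912 134217728 67108864
    (rowFK 1 true true false .pp 2 0 2 (qsf 0 536870912 0 536870912 2) ndF0q2 ndF0q0 pcF2 cut_A00pm_202_s3 Ext.none)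

def k0_A00pm_202_s3 : ∃ t, chk3 f_A00pm_202_s3 t 1 1 1 = true :=
  ⟨(a (b (l 6) (l 6)) (l 6)), by decide +kernel⟩

theorem c_A00pm_202_s3 : CertF 0 536870912 0 536870912 134217728 67108864 true true false .pp 2 0 2
    ndF0q2 ndF0q0 pcF2 cut_A00pm_202_s3 Ext.none :=
  certFK1 (fam := true) (s1 := true) (s2 := false) (a := 2) (b := 0) (c := 2) (cn := .pp) (n1 := ndF0q2) (n2 := ndF0q0) (pc := pcF2) (cut := cut_A00pm_202_s3) (xt := Ext.none) (P1 := 0) (W1 := 536870912) (P2 := 0) (W2 := 536870912) (P3 := 134217728) (W3 := 67108864)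
    rfl rfl rfl (fun _ => rfl) k0_A00pm_202_s3

theorem s_A00pm_202_s3 {κ x : ℝ} (hκ : κ * h0 = ken x) (hx : ((134217728 : ℕ) : ℝ) / S ≤ x)
    (hx' : x ≤ (((134217728 : ℕ) : ℝ) + (67108864 : ℕ)) / S)
    (H : CutA (VF κ) PP tKF tL pcF (Cut.of [[⟨0, 1, 0, 67108864⟩, ⟨1, 0, 0, 67108864⟩, ⟨2, 1, 0, 67108864⟩], [⟨0, 1, 0, 16777216⟩, ⟨1, 0, 1, 41943040⟩, ⟨2, 1, 1, 41943040⟩]]) 2 0 2 0 0 (sgb true) (sgb false) x) :
    AltA (VF κ) PP tKF tL pcF [⟨4, 0, 0, 2845415833⟩] 2 0 2 0 0 (sgb true) (sgb false) x :=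
  strip_altA (m := 2845415833) false rfl hκ covF02 covF00 hx hx' c_A00pm_202_s3 H (noExt_A)

noncomputable def cut_A00pm_203_s1 : Cut := Cut.of [[⟨4, 0, 0, 1449551462⟩]]

noncomputable def f_A00pm_203_s1 : ℕ → ℕ → ℕ → ℕ → Bool := onCell 0 536870912 1610612736 536870912 134217728 67108864
    (rowFK 1 true true false .up 2 0 3 (qsf 0 536870912 0 536870912 3) ndF0q2 ndF0q0 pcF3 cut_A00pm_203_s1 Ext.none)

def k0_A00pm_203_s1 : ∃ t, chk3 f_A00pm_203_s1 t 1 1 1 = true :=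
  ⟨(l 6), by decide +kernel⟩

theorem c_A00pm_203_s1 : CertF 0 536870912 0 536870912 134217728 67108864 true true false .up 2 0 3
    ndF0q2 ndF0q0 pcF3 cut_A00pm_203_s1 Ext.none :=
  certFK1 (fam := true) (s1 := true) (s2 := false) (a := 2) (b := 0) (c := 3) (cn := .up) (n1 := ndF0q2) (n2 := ndF0q0) (pc := pcF3) (cut := cut_A00pm_203_s1) (xt := Ext.none) (P1 := 0) (W1 := 536870912) (P2 := 0) (W2 := 536870912) (P3 := 134217728) (W3 := 67108864)
    rfl rfl rfl (fun _ => rfl) k0_A00pm_203_s1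

theorem s_A00pm_203_s1 {κ x : ℝ} (hκ : κ * h0 = ken x) (hx : ((134217728 : ℕ) : ℝ) / S ≤ x)
    (hx' : x ≤ (((134217728 : ℕ) : ℝ) + (67108864 : ℕ)) / S) :
    AltA (VF κ) PP tKF tL pcF [⟨3, 0, 0, 1449551462⟩] 2 0 3 0 0 (sgb true) (sgb false) x :=
  strip_altA (m := 1449551462) true rfl hκ covF02 covF00 hx hx' c_A00pm_203_s1 cutA_nil (noExt_A)

noncomputable def cut_A00pm_203_s3 : Cut := Cut.of [[⟨3, 0, 0, 2845415833⟩]]

noncomputable def xt_A00pm_203_s3 : Ext := strExt dd true true false .u2 .u0m .s2m .up 2 0 3 rfl rfl gl3 vv ndF0q2 ndF0q0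

noncomputable def f_A00pm_203_s3 : ℕ → ℕ → ℕ → ℕ → Bool := onCell 0 536870912 0 536870912 134217728 67108864
    (rowFK 0 true true false .up 2 0 3 (qsf 0 536870912 0 536870912 3) ndF0q2 ndF0q0 pcF3 cut_A00pm_203_s3 xt_A00pm_203_s3)

def k0_A00pm_203_s3 : ∃ t, chk3 f_A00pm_203_s3 t 1 1 1 = true :=
  ⟨(a (b (l 1) (b (b (l 1) (a (a (b (l 1) (l 17346920)) (l 6)) (l 6))) (a (b (a (b (l 17260976) (l 17178432)) (l 6)) (a (b (l 17099888) (l 543713807)) (b (l 17233616) (l 17155568)))) (b (l 6) (l 6))))) (l 6)), by decide +kernel⟩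

theorem c_A00pm_203_s3 : CertF 0 536870912 0 536870912 134217728 67108864 true true false .up 2 0 3
    ndF0q2 ndF0q0 pcF3 cut_A00pm_203_s3 xt_A00pm_203_s3 :=
  certFK0 (fam := true) (s1 := true) (s2 := false) (a := 2) (b := 0) (c := 3) (cn := .up) (n1 := ndF0q2) (n2 := ndF0q0) (pc := pcF3) (cut := cut_A00pm_203_s3) (xt := xt_A00pm_203_s3) (P1 := 0) (W1 := 536870912) (P2 := 0) (W2 := 536870912) (P3 := 134217728) (W3 := 67108864)
    rfl rfl rfl k0_A00pm_203_s3

theorem s_A00pm_203_s3 {κ x : ℝ} (hκ : κ * h0 = ken x) (hx : ((134217728 : ℕ) : ℝ) / S ≤ x)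
    (hx' : x ≤ (((134217728 : ℕ) : ℝ) + (67108864 : ℕ)) / S) :
    AltA (VF κ) PP tKF tL pcF [⟨4, 0, 0, 2845415833⟩] 2 0 3 0 0 (sgb true) (sgb false) x :=
  strip_altA (m := 2845415833) false rfl hκ covF02 covF00 hx hx' c_A00pm_203_s3 cutA_nil ((okx hx hx').extA (T := tt) (sideF hx hx') hκ rfl rfl (.O 2 true) (.O 0 false) (Or.inr rfl))

noncomputable def cut_A00pm_213_s1 : Cut := Cut.of [[⟨4, 0, 0, 1449551462⟩], [⟨0, 1, 0, 39843005⟩, ⟨1, 1, 0, 39843005⟩, ⟨2, 2, 0, 5814905⟩]]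

noncomputable def f_A00pm_213_s1 : ℕ → ℕ → ℕ → ℕ → Bool := onCell 0 536870912 536870912 536870912 134217728 67108864
    (rowFK 0 true true false .pnn 2 1 3 (qsf 0 536870912 536870912 536870912 3) ndF0q2 ndF0q1 pcF3 cut_A00pm_213_s1 Ext.none)

def k0_A00pm_213_s1 : ∃ t, chk3 f_A00pm_213_s1 t 1 1 1 = true :=
  ⟨(l 6), by decide +kernel⟩

theorem c_A00pm_213_s1 : CertF 0 536870912 536870912 536870912 134217728 67108864 true true false .pnn 2 1 3
    ndF0q2 ndF0q1 pcF3 cut_A00pm_213_s1 Ext.none :=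
  certFK0 (fam := true) (s1 := true) (s2 := false) (a := 2) (b := 1) (c := 3) (cn := .pnn) (n1 := ndF0q2) (n2 := ndF0q1) (pc := pcF3) (cut := cut_A00pm_213_s1) (xt := Ext.none) (P1 := 0) (W1 := 536870912) (P2 := 536870912) (W2 := 536870912) (P3 := 134217728) (W3 := 67108864)
    rfl rfl rfl k0_A00pm_213_s1

theorem s_A00pm_213_s1 {κ x : ℝ} (hκ : κ * h0 = ken x) (hx : ((134217728 : ℕ) : ℝ) / S ≤ x)
    (hx' : x ≤ (((134217728 : ℕ) : ℝ) + (67108864 : ℕ)) / S)
    (H : CutA (VF κ) PP tKF tL pcF (Cut.of [[⟨0, 1, 0, 39843005⟩, ⟨1, 1, 0, 39843005⟩, ⟨2, 2, 0, 5814905⟩]]) 2 1 3 0 0 (sgb true) (sgb false) x) :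
    AltA (VF κ) PP tKF tL pcF [⟨3, 0, 0, 1449551462⟩] 2 1 3 0 0 (sgb true) (sgb false) x :=
  strip_altA (m := 1449551462) true rfl hκ covF02 covF01 hx hx' c_A00pm_213_s1 H (noExt_A)

noncomputable def cut_A00pm_213_s3 : Cut := Cut.of [[⟨3, 0, 0, 2845415833⟩], [⟨0, 1, 0, 39843005⟩, ⟨1, 1, 0, 39843005⟩, ⟨2, 2, 0, 5814905⟩]]

noncomputable def xt_A00pm_213_s3 : Ext := strExt dd true true false .u2 .u0m .s2m .pnn 2 1 3 rfl rfl gl3 vv ndF0q2 ndF0q1

noncomputable def f_A00pm_213_s3 : ℕ → ℕ → ℕ → ℕ → Bool := onCell 0 536870912 1610612736 536870912 134217728 67108864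
    (rowFK 1 true true false .pnn 2 1 3 (qsf 0 536870912 536870912 536870912 3) ndF0q2 ndF0q1 pcF3 cut_A00pm_213_s3 xt_A00pm_213_s3)

def k0_A00pm_213_s3 : ∃ t, chk3 f_A00pm_213_s3 t 1 2 1 = true :=
  ⟨(a (b (a (l 1) (l 6)) (a (a (b (b (l 543697423) (l 543486223)) (l 544286479)) (b (b (l 17139304) (l 17067928)) (a (l 543170063) (b (l 17028640) (l 16962984))))) (a (b (b (l 17255344) (l 17184816)) (b (l 17112928) (l 16960440))) (b (l 6) (b (l 17206240) (a (l 17127544) (l 17168056))))))) (b (l 6) (a (b (l 6) (l 6)) (l 6)))), by decide +kernel⟩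

def k1_A00pm_213_s3 : ∃ t, chk3 f_A00pm_213_s3 t 1 6 1 = true :=
  ⟨(a (a (b (a (b (l 542904847) (l 542700047)) (a (b (l 542894863) (l 542706959)) (b (l 544588303) (l 542871055)))) (a (l 4) (b (a (l 542606607) (l 543261711)) (a (l 4) (l 4))))) (b (a (b (a (l 16868800) (l 17004888)) (a (l 544337679) (l 543060495))) (b (a (l 17057256) (l 17107400)) (a (l 16988024) (l 17036744)))) (a (b (a (l 542780943) (l 542855439)) (a (l 542524175) (l 542591503))) (b (a (l 543729679) (l 16921680)) (a (b (l 16827336) (l 542557711)) (b (l 16910880) (l 16834928))))))) (a (b (a (b (l 17149056) (a (c (l 17091376) (l 17062512)) (l 17101568))) (b (l 6) (l 17127592))) (a (b (a (b (l 17026712) (l 16989168)) (l 17037632)) (a (b (l 16951744) (l 16915496)) (b (l 16988536) (l 16953064)))) (b (l 17063824) (a (l 16992872) (l 17007520))))) (b (l 6) (a (a (l 17051224) (l 17231144)) (a (l 17159096) (l 17092192)))))), by decide +kernel⟩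

def k2_A00pm_213_s3 : ∃ t, chk3 f_A00pm_213_s3 t 1 14 1 = true :=
  ⟨(a (a (l 4) (a (b (b (l 543679503) (l 4)) (l 4)) (b (a (b (l 542387215) (l 542200335)) (b (l 542419983) (l 542222095))) (b (a (l 541984271) (l 542011663)) (a (l 4) (l 541785871)))))) (a (a (b (a (b (l 16838736) (l 542266383)) (b (l 16916176) (l 16838640))) (a (b (l 542589199) (l 542889231)) (b (l 543696655) (c (l 542605071) (l 543223055))))) (b (a (b (l 16945048) (a (l 16905072) (l 16918504))) (l 16944840)) (a (b (a (l 16869480) (l 16884120)) (a (l 542151439) (l 16807664))) (b (l 16878232) (a (a (l 16859584) (l 16866112)) (l 16852120)))))) (a (b (a (l 16956488) (l 16966304)) (a (b (l 16911144) (l 16881872)) (l 16905472))) (b (a (l 16976784) (l 16992536)) (a (l 16998624) (l 16928048)))))), by decide +kernel⟩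

def k3_A00pm_213_s3 : ∃ t, chk3 f_A00pm_213_s3 t 1 30 1 = true :=
  ⟨(a (l 4) (a (a (b (a (l 542891535) (a (l 541566735) (l 541585679))) (a (l 4) (a (l 4) (b (l 541387791) (l 4))))) (a (b (a (a (l 541607183) (l 541890319)) (b (l 16825368) (l 541858575))) (b (a (c (l 541613071) (l 541753871)) (c (l 541642767) (l 542044431))) (a (c (l 541444367) (l 541076495)) (l 542353935)))) (a (b (b (l 16837552) (l 16821464)) (b (b (l 16809888) (l 16791912)) (l 542928911))) (b (b (l 16849280) (l 16832752)) (b (l 16795688) (b (l 16805128) (l 541880591))))))) (a (b (a (a (b (l 16858272) (l 16842912)) (l 16856144)) (l 16862544)) (a (b (a (l 16816320) (l 16835432)) (a (c (l 16812440) (l 16799032)) (a (l 16818192) (l 16843216)))) (b (l 16841784) (a (l 16826728) (l 16830144))))) (b (a (l 16870560) (l 16881312)) (a (b (l 16849032) (l 16878904)) (l 16932000)))))), by decide +kernel⟩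

def k4_A00pm_213_s3 : ∃ t, chk3 f_A00pm_213_s3 t 2 31 1 = true :=
  ⟨(l 4), by decide +kernel⟩

def k5_A00pm_213_s3 : ∃ t, chk3 f_A00pm_213_s3 t 3 62 1 = true :=
  ⟨(a (a (l 4) (a (b (a (l 4) (l 542445071)) (l 4)) (b (a (b (l 541201679) (l 541108239)) (a (l 541712399) (l 542545935))) (a (l 4) (b (l 542397455) (a (l 4) (l 540952335))))))) (a (a (b (a (b (c (l 16800392) (l 16798544)) (a (l 541211151) (l 16783712))) (b (l 16808280) (l 16789936))) (a (b (a (l 541111311) (l 541152527)) (a (l 541527567) (l 542105359))) (b (a (l 541736975) (l 16794760)) (a (b (l 541124111) (l 541060111)) (b (l 16789128) (l 541112591)))))) (b (a (b (l 16836960) (c (l 16851184) (l 16827800))) (l 16816592)) (a (a (b (l 16798584) (b (l 16792760) (l 16788968))) (b (l 16802184) (l 16804832))) (b (l 16827760) (a (l 16807976) (l 16821664)))))) (b (a (l 16820928) (l 16868400)) (a (l 16828232) (a (l 16810936) (l 16814648)))))), by decide +kernel⟩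

def k6_A00pm_213_s3 : ∃ t, chk3 f_A00pm_213_s3 t 3 126 1 = true :=
  ⟨(a (l 4) (a (a (a (b (a (l 4) (l 540886799)) (l 4)) (b (a (l 542271503) (b (l 541041679) (l 540963087))) (a (l 4) (b (l 540873743) (l 4))))) (a (b (a (b (l 541099535) (l 541019663)) (b (l 16788552) (l 542425871))) (a (b (l 540929039) (l 542164751)) (b (a (l 540977167) (l 541278735)) (a (l 540870671) (l 540902927))))) (a (b (b (l 16791768) (l 16787864)) (b (a (l 541582351) (l 16790032)) (a (l 540936975) (l 541510159)))) (b (b (l 16794656) (l 16790848)) (b (l 16792128) (b (l 16783992) (a (l 541273615) (l 16782760)))))))) (a (b (a (b (l 16819232) (a (l 16814448) (l 16795192))) (l 16798464)) (a (b (a (l 16799880) (l 16802536)) (a (c (l 16796344) (l 16790616)) (a (l 16787416) (l 16799008)))) (b (l 16793416) (a (l 16800464) (l 16790536))))) (a (a (l 16796368) (l 16818208)) (a (l 16819368) (l 16821048)))))), by decide +kernel⟩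

def k7_A00pm_213_s3 : ∃ t, chk3 f_A00pm_213_s3 t 3 127 1 = true :=
  ⟨(b (a (l 4) (a (a (l 4) (a (b (a (l 4) (b (l 541080079) (l 4))) (l 4)) (b (a (a (b (l 540864015) (l 4)) (b (l 541169679) (l 540830223))) (a (b (l 540941583) (l 540869647)) (b (l 540984847) (l 541180687)))) (a (l 4) (b (a (l 541323279) (a (l 541089039) (l 540575503))) (l 4)))))) (a (b (a (a (a (b (l 16782104) (l 542304271)) (b (l 16783296) (c (l 16781480) (l 16786504)))) (b (l 16785032) (l 16788272))) (a (b (l 16797624) (c (l 16795552) (l 16795184))) (l 16787176))) (a (a (a (b (b (l 540916495) (l 540871439)) (a (l 540766479) (l 540790799))) (b (b (l 16782584) (l 540924687)) (a (l 540815887) (l 540841743)))) (a (b (b (l 16781040) (l 16782712)) (a (l 541673487) (l 542506255))) (b (c (l 16781704) (l 16786736)) (l 14)))) (b (a (b (l 16788736) (l 14)) (c (l 16795608) (l 16795248))) (l 14)))) (b (a (l 16788160) (l 16799896)) (a (l 16790016) (a (l 16796088) (l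 16786552))))))) (a (l 4) (a (l 4) (a (b (a (a (b (a (l 4) (b (l 541565199) (l 4))) (l 4)) (a (a (b (a (l 541808399) (l 542358287)) (l 4)) (l 14)) (l 14))) (l 14)) (a (l 4) (l 14))) (l 14))))), by decide +kernel⟩

theorem t8_A00pm_213_s3 : ∃ t, chk3 f_A00pm_213_s3 t 3 63 1 = true := ex3_b k6_A00pm_213_s3 k7_A00pm_213_s3

theorem t9_A00pm_213_s3 : ∃ t, chk3 f_A00pm_213_s3 t 3 31 1 = true := ex3_b k5_A00pm_213_s3 t8_A00pm_213_s3

theorem t10_A00pm_213_s3 : ∃ t, chk3 f_A00pm_213_s3 t 1 31 1 = true := ex3_a k4_A00pm_213_s3 t9_A00pm_213_s3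

theorem t11_A00pm_213_s3 : ∃ t, chk3 f_A00pm_213_s3 t 1 15 1 = true := ex3_b k3_A00pm_213_s3 t10_A00pm_213_s3

theorem t12_A00pm_213_s3 : ∃ t, chk3 f_A00pm_213_s3 t 1 7 1 = true := ex3_b k2_A00pm_213_s3 t11_A00pm_213_s3

theorem t13_A00pm_213_s3 : ∃ t, chk3 f_A00pm_213_s3 t 1 3 1 = true := ex3_b k1_A00pm_213_s3 t12_A00pm_213_s3

theorem t14_A00pm_213_s3 : ∃ t, chk3 f_A00pm_213_s3 t 1 1 1 = true := ex3_b k0_A00pm_213_s3 t13_A00pm_213_s3

theorem c_A00pm_213_s3 : CertF 0 536870912 536870912 536870912 134217728 67108864 true true false .pnn 2 1 3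
    ndF0q2 ndF0q1 pcF3 cut_A00pm_213_s3 xt_A00pm_213_s3 :=
  certFK1 (fam := true) (s1 := true) (s2 := false) (a := 2) (b := 1) (c := 3) (cn := .pnn) (n1 := ndF0q2) (n2 := ndF0q1) (pc := pcF3) (cut := cut_A00pm_213_s3) (xt := xt_A00pm_213_s3) (P1 := 0) (W1 := 536870912) (P2 := 536870912) (W2 := 536870912) (P3 := 134217728) (W3 := 67108864)
    rfl rfl rfl (fun _ => rfl) t14_A00pm_213_s3

theorem s_A00pm_213_s3 {κ x : ℝ} (hκ : κ * h0 = ken x) (hx : ((134217728 : ℕ) : ℝ) / S ≤ x)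
    (hx' : x ≤ (((134217728 : ℕ) : ℝ) + (67108864 : ℕ)) / S)
    (H : CutA (VF κ) PP tKF tL pcF (Cut.of [[⟨0, 1, 0, 39843005⟩, ⟨1, 1, 0, 39843005⟩, ⟨2, 2, 0, 5814905⟩]]) 2 1 3 0 0 (sgb true) (sgb false) x) :
    AltA (VF κ) PP tKF tL pcF [⟨4, 0, 0, 2845415833⟩] 2 1 3 0 0 (sgb true) (sgb false) x :=
  strip_altA (m := 2845415833) false rfl hκ covF02 covF01 hx hx' c_A00pm_213_s3 H ((okx hx hx').extA (T := tt) (sideF hx hx') hκ rfl rfl (.O 2 true) (.O 1 false) (Or.inr rfl))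

noncomputable def cut_A00mm_001_s1 : Cut := Cut.of [[⟨4, 0, 0, 1449551462⟩]]

noncomputable def f_A00mm_001_s1 : ℕ → ℕ → ℕ → ℕ → Bool := onCell 0 536870912 0 536870912 134217728 67108864
    (rowFK 0 true false false .up 0 0 1 (qsf 0 536870912 0 536870912 1) ndF0q0 ndF0q0 pcF1 cut_A00mm_001_s1 Ext.none)

def k0_A00mm_001_s1 : ∃ t, chk3 f_A00mm_001_s1 t 1 1 1 = true :=
  ⟨(l 4), by decide +kernel⟩

theorem c_A00mm_001_s1 : CertF 0 536870912 0 536870912 134217728 67108864 true false false .up 0 0 1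
    ndF0q0 ndF0q0 pcF1 cut_A00mm_001_s1 Ext.none :=
  certFK0 (fam := true) (s1 := false) (s2 := false) (a := 0) (b := 0) (c := 1) (cn := .up) (n1 := ndF0q0) (n2 := ndF0q0) (pc := pcF1) (cut := cut_A00mm_001_s1) (xt := Ext.none) (P1 := 0) (W1 := 536870912) (P2 := 0) (W2 := 536870912) (P3 := 134217728) (W3 := 67108864)
    rfl rfl rfl k0_A00mm_001_s1

theorem s_A00mm_001_s1 {κ x : ℝ} (hκ : κ * h0 = ken x) (hx : ((134217728 : ℕ) : ℝ) / S ≤ x)
    (hx' : x ≤ (((134217728 : ℕ) : ℝ) + (67108864 : ℕ)) / S) :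
    AltA (VF κ) PP tKF tL pcF [⟨3, 0, 0, 1449551462⟩] 0 0 1 0 0 (sgb false) (sgb false) x :=
  strip_altA (m := 1449551462) true rfl hκ covF00 covF00 hx hx' c_A00mm_001_s1 cutA_nil (noExt_A)

noncomputable def cut_A00mm_001_s3 : Cut := Cut.of [[⟨3, 0, 0, 2845415833⟩]]

noncomputable def f_A00mm_001_s3 : ℕ → ℕ → ℕ → ℕ → Bool := onCell 0 536870912 0 536870912 134217728 67108864
    (rowFK 0 true false false .up 0 0 1 (qsf 0 536870912 0 536870912 1) ndF0q0 ndF0q0 pcF1 cut_A00mm_001_s3 Ext.none)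

def k0_A00mm_001_s3 : ∃ t, chk3 f_A00mm_001_s3 t 1 1 1 = true :=
  ⟨(l 4), by decide +kernel⟩

theorem c_A00mm_001_s3 : CertF 0 536870912 0 536870912 134217728 67108864 true false false .up 0 0 1
    ndF0q0 ndF0q0 pcF1 cut_A00mm_001_s3 Ext.none :=
  certFK0 (fam := true) (s1 := false) (s2 := false) (a := 0) (b := 0) (c := 1) (cn := .up) (n1 := ndF0q0) (n2 := ndF0q0) (pc := pcF1) (cut := cut_A00mm_001_s3) (xt := Ext.none) (P1 := 0) (W1 := 536870912) (P2 := 0) (W2 := 536870912) (P3 := 134217728) (W3 := 67108864)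
    rfl rfl rfl k0_A00mm_001_s3

theorem s_A00mm_001_s3 {κ x : ℝ} (hκ : κ * h0 = ken x) (hx : ((134217728 : ℕ) : ℝ) / S ≤ x)
    (hx' : x ≤ (((134217728 : ℕ) : ℝ) + (67108864 : ℕ)) / S) :
    AltA (VF κ) PP tKF tL pcF [⟨4, 0, 0, 2845415833⟩] 0 0 1 0 0 (sgb false) (sgb false) x :=
  strip_altA (m := 2845415833) false rfl hκ covF00 covF00 hx hx' c_A00mm_001_s3 cutA_nil (noExt_A)

noncomputable def cut_A00mm_011_s1 : Cut := Cut.of [[⟨4, 0, 0, 1449551462⟩]]

noncomputable def f_A00mm_011_s1 : ℕ → ℕ → ℕ → ℕ → Bool := onCell 0 536870912 536870912 536870912 134217728 67108864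
    (rowFK 0 true false false .pnn 0 1 1 (qsf 0 536870912 536870912 536870912 1) ndF0q0 ndF0q1 pcF1 cut_A00mm_011_s1 Ext.none)

def k0_A00mm_011_s1 : ∃ t, chk3 f_A00mm_011_s1 t 1 1 1 = true :=
  ⟨(l 6), by decide +kernel⟩

theorem c_A00mm_011_s1 : CertF 0 536870912 536870912 536870912 134217728 67108864 true false false .pnn 0 1 1
    ndF0q0 ndF0q1 pcF1 cut_A00mm_011_s1 Ext.none :=
  certFK0 (fam := true) (s1 := false) (s2 := false) (a := 0) (b := 1) (c := 1) (cn := .pnn) (n1 := ndF0q0) (n2 := ndF0q1) (pc := pcF1) (cut := cut_A00mm_011_s1) (xt := Ext.none) (P1 := 0) (W1 := 536870912) (P2 := 536870912) (W2 := 536870912) (P3 := 134217728) (W3 := 67108864)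
    rfl rfl rfl k0_A00mm_011_s1

theorem s_A00mm_011_s1 {κ x : ℝ} (hκ : κ * h0 = ken x) (hx : ((134217728 : ℕ) : ℝ) / S ≤ x)
    (hx' : x ≤ (((134217728 : ℕ) : ℝ) + (67108864 : ℕ)) / S) :
    AltA (VF κ) PP tKF tL pcF [⟨3, 0, 0, 1449551462⟩] 0 1 1 0 0 (sgb false) (sgb false) x :=
  strip_altA (m := 1449551462) true rfl hκ covF00 covF01 hx hx' c_A00mm_011_s1 cutA_nil (noExt_A)

noncomputable def cut_A00mm_011_s3 : Cut := Cut.of [[⟨3, 0, 0, 2845415833⟩]]

noncomputable def f_A00mm_011_s3 : ℕ → ℕ → ℕ → ℕ → Bool := onCell 0 536870912 536870912 536870912 134217728 67108864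
    (rowFK 0 true false false .pnn 0 1 1 (qsf 0 536870912 536870912 536870912 1) ndF0q0 ndF0q1 pcF1 cut_A00mm_011_s3 Ext.none)

def k0_A00mm_011_s3 : ∃ t, chk3 f_A00mm_011_s3 t 1 1 1 = true :=
  ⟨(a (l 5) (l 4)), by decide +kernel⟩

theorem c_A00mm_011_s3 : CertF 0 536870912 536870912 536870912 134217728 67108864 true false false .pnn 0 1 1
    ndF0q0 ndF0q1 pcF1 cut_A00mm_011_s3 Ext.none :=
  certFK0 (fam := true) (s1 := false) (s2 := false) (a := 0) (b := 1) (c := 1) (cn := .pnn) (n1 := ndF0q0) (n2 := ndF0q1) (pc := pcF1) (cut := cut_A00mm_011_s3) (xt := Ext.none) (P1 := 0) (W1 := 536870912) (P2 := 536870912) (W2 := 536870912) (P3 := 134217728) (W3 := 67108864)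
    rfl rfl rfl k0_A00mm_011_s3

theorem s_A00mm_011_s3 {κ x : ℝ} (hκ : κ * h0 = ken x) (hx : ((134217728 : ℕ) : ℝ) / S ≤ x)
    (hx' : x ≤ (((134217728 : ℕ) : ℝ) + (67108864 : ℕ)) / S) :
    AltA (VF κ) PP tKF tL pcF [⟨4, 0, 0, 2845415833⟩] 0 1 1 0 0 (sgb false) (sgb false) x :=
  strip_altA (m := 2845415833) false rfl hκ covF00 covF01 hx hx' c_A00mm_011_s3 cutA_nil (noExt_A)

noncomputable def cut_A00mm_012_s1 : Cut := Cut.of [[⟨4, 0, 0, 1449551462⟩]]

noncomputable def f_A00mm_012_s1 : ℕ → ℕ → ℕ → ℕ → Bool := onCell 0 536870912 536870912 536870912 134217728 67108864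
    (rowFK 0 true false false .pnp 0 1 2 (qsf 0 536870912 536870912 536870912 2) ndF0q0 ndF0q1 pcF2 cut_A00mm_012_s1 Ext.none)

def k0_A00mm_012_s1 : ∃ t, chk3 f_A00mm_012_s1 t 1 1 1 = true :=
  ⟨(l 6), by decide +kernel⟩

theorem c_A00mm_012_s1 : CertF 0 536870912 536870912 536870912 134217728 67108864 true false false .pnp 0 1 2
    ndF0q0 ndF0q1 pcF2 cut_A00mm_012_s1 Ext.none :=
  certFK0 (fam := true) (s1 := false) (s2 := false) (a := 0) (b := 1) (c := 2) (cn := .pnp) (n1 := ndF0q0) (n2 := ndF0q1) (pc := pcF2) (cut := cut_A00mm_012_s1) (xt := Ext.none) (P1 := 0) (W1 := 536870912) (P2 := 536870912) (W2 := 536870912) (P3 := 134217728) (W3 := 67108864)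
    rfl rfl rfl k0_A00mm_012_s1

theorem s_A00mm_012_s1 {κ x : ℝ} (hκ : κ * h0 = ken x) (hx : ((134217728 : ℕ) : ℝ) / S ≤ x)
    (hx' : x ≤ (((134217728 : ℕ) : ℝ) + (67108864 : ℕ)) / S) :
    AltA (VF κ) PP tKF tL pcF [⟨3, 0, 0, 1449551462⟩] 0 1 2 0 0 (sgb false) (sgb false) x :=
  strip_altA (m := 1449551462) true rfl hκ covF00 covF01 hx hx' c_A00mm_012_s1 cutA_nil (noExt_A)

noncomputable def cut_A00mm_012_s3 : Cut := Cut.of [[⟨3, 0, 0, 2845415833⟩]]

noncomputable def f_A00mm_012_s3 : ℕ → ℕ → ℕ → ℕ → Bool := onCell 0 536870912 536870912 536870912 134217728 67108864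
    (rowFK 0 true false false .pnp 0 1 2 (qsf 0 536870912 536870912 536870912 2) ndF0q0 ndF0q1 pcF2 cut_A00mm_012_s3 Ext.none)

def k0_A00mm_012_s3 : ∃ t, chk3 f_A00mm_012_s3 t 1 1 1 = true :=
  ⟨(b (l 4) (l 5)), by decide +kernel⟩

theorem c_A00mm_012_s3 : CertF 0 536870912 536870912 536870912 134217728 67108864 true false false .pnp 0 1 2
    ndF0q0 ndF0q1 pcF2 cut_A00mm_012_s3 Ext.none :=
  certFK0 (fam := true) (s1 := false) (s2 := false) (a := 0) (b := 1) (c := 2) (cn := .pnp) (n1 := ndF0q0) (n2 := ndF0q1) (pc := pcF2) (cut := cut_A00mm_012_s3) (xt := Ext.none) (P1 := 0) (W1 := 536870912) (P2 := 536870912) (W2 := 536870912) (P3 := 134217728) (W3 := 67108864)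
    rfl rfl rfl k0_A00mm_012_s3

theorem s_A00mm_012_s3 {κ x : ℝ} (hκ : κ * h0 = ken x) (hx : ((134217728 : ℕ) : ℝ) / S ≤ x)
    (hx' : x ≤ (((134217728 : ℕ) : ℝ) + (67108864 : ℕ)) / S) :
    AltA (VF κ) PP tKF tL pcF [⟨4, 0, 0, 2845415833⟩] 0 1 2 0 0 (sgb false) (sgb false) x :=
  strip_altA (m := 2845415833) false rfl hκ covF00 covF01 hx hx' c_A00mm_012_s3 cutA_nil (noExt_A)

noncomputable def cut_A00mm_022_s1 : Cut := Cut.of [[⟨4, 0, 0, 1449551462⟩]]

noncomputable def f_A00mm_022_s1 : ℕ → ℕ → ℕ → ℕ → Bool := onCell 0 536870912 0 536870912 134217728 67108864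
    (rowFK 0 true false false .pp 0 2 2 (qsf 0 536870912 0 536870912 2) ndF0q0 ndF0q2 pcF2 cut_A00mm_022_s1 Ext.none)

def k0_A00mm_022_s1 : ∃ t, chk3 f_A00mm_022_s1 t 1 1 1 = true :=
  ⟨(l 5), by decide +kernel⟩

theorem c_A00mm_022_s1 : CertF 0 536870912 0 536870912 134217728 67108864 true false false .pp 0 2 2
    ndF0q0 ndF0q2 pcF2 cut_A00mm_022_s1 Ext.none :=
  certFK0 (fam := true) (s1 := false) (s2 := false) (a := 0) (b := 2) (c := 2) (cn := .pp) (n1 := ndF0q0) (n2 := ndF0q2) (pc := pcF2) (cut := cut_A00mm_022_s1) (xt := Ext.none) (P1 := 0) (W1 := 536870912) (P2 := 0) (W2 := 536870912) (P3 := 134217728) (W3 := 67108864)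
    rfl rfl rfl k0_A00mm_022_s1

theorem s_A00mm_022_s1 {κ x : ℝ} (hκ : κ * h0 = ken x) (hx : ((134217728 : ℕ) : ℝ) / S ≤ x)
    (hx' : x ≤ (((134217728 : ℕ) : ℝ) + (67108864 : ℕ)) / S) :
    AltA (VF κ) PP tKF tL pcF [⟨3, 0, 0, 1449551462⟩] 0 2 2 0 0 (sgb false) (sgb false) x :=
  strip_altA (m := 1449551462) true rfl hκ covF00 covF02 hx hx' c_A00mm_022_s1 cutA_nil (noExt_A)

noncomputable def cut_A00mm_022_s3 : Cut := Cut.of [[⟨3, 0, 0, 2845415833⟩]]

noncomputable def f_A00mm_022_s3 : ℕ → ℕ → ℕ → ℕ → Bool := onCell 0 536870912 0 536870912 134217728 67108864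
    (rowFK 0 true false false .pp 0 2 2 (qsf 0 536870912 0 536870912 2) ndF0q0 ndF0q2 pcF2 cut_A00mm_022_s3 Ext.none)

def k0_A00mm_022_s3 : ∃ t, chk3 f_A00mm_022_s3 t 1 1 1 = true :=
  ⟨(l 5), by decide +kernel⟩

theorem c_A00mm_022_s3 : CertF 0 536870912 0 536870912 134217728 67108864 true false false .pp 0 2 2
    ndF0q0 ndF0q2 pcF2 cut_A00mm_022_s3 Ext.none :=
  certFK0 (fam := true) (s1 := false) (s2 := false) (a := 0) (b := 2) (c := 2) (cn := .pp) (n1 := ndF0q0) (n2 := ndF0q2) (pc := pcF2) (cut := cut_A00mm_022_s3) (xt := Ext.none) (P1 := 0) (W1 := 536870912) (P2 := 0) (W2 := 536870912) (P3 := 134217728) (W3 := 67108864)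
    rfl rfl rfl k0_A00mm_022_s3

theorem s_A00mm_022_s3 {κ x : ℝ} (hκ : κ * h0 = ken x) (hx : ((134217728 : ℕ) : ℝ) / S ≤ x)
    (hx' : x ≤ (((134217728 : ℕ) : ℝ) + (67108864 : ℕ)) / S) :
    AltA (VF κ) PP tKF tL pcF [⟨4, 0, 0, 2845415833⟩] 0 2 2 0 0 (sgb false) (sgb false) x :=
  strip_altA (m := 2845415833) false rfl hκ covF00 covF02 hx hx' c_A00mm_022_s3 cutA_nil (noExt_A)

noncomputable def cut_A00mm_023_s1 : Cut := Cut.of [[⟨4, 0, 0, 1449551462⟩]]

noncomputable def f_A00mm_023_s1 : ℕ → ℕ → ℕ → ℕ → Bool := onCell 0 536870912 0 536870912 134217728 67108864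
    (rowFK 0 true false false .up 0 2 3 (qsf 0 536870912 0 536870912 3) ndF0q0 ndF0q2 pcF3 cut_A00mm_023_s1 Ext.none)

def k0_A00mm_023_s1 : ∃ t, chk3 f_A00mm_023_s1 t 1 1 1 = true :=
  ⟨(l 5), by decide +kernel⟩

theorem c_A00mm_023_s1 : CertF 0 536870912 0 536870912 134217728 67108864 true false false .up 0 2 3
    ndF0q0 ndF0q2 pcF3 cut_A00mm_023_s1 Ext.none :=
  certFK0 (fam := true) (s1 := false) (s2 := false) (a := 0) (b := 2) (c := 3) (cn := .up) (n1 := ndF0q0) (n2 := ndF0q2) (pc := pcF3) (cut := cut_A00mm_023_s1) (xt := Ext.none) (P1 := 0) (W1 := 536870912) (P2 := 0) (W2 := 536870912) (P3 := 134217728) (W3 := 67108864)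
    rfl rfl rfl k0_A00mm_023_s1

theorem s_A00mm_023_s1 {κ x : ℝ} (hκ : κ * h0 = ken x) (hx : ((134217728 : ℕ) : ℝ) / S ≤ x)
    (hx' : x ≤ (((134217728 : ℕ) : ℝ) + (67108864 : ℕ)) / S) :
    AltA (VF κ) PP tKF tL pcF [⟨3, 0, 0, 1449551462⟩] 0 2 3 0 0 (sgb false) (sgb false) x :=
  strip_altA (m := 1449551462) true rfl hκ covF00 covF02 hx hx' c_A00mm_023_s1 cutA_nil (noExt_A)

noncomputable def cut_A00mm_023_s3 : Cut := Cut.of [[⟨3, 0, 0, 2845415833⟩]]

noncomputable def f_A00mm_023_s3 : ℕ → ℕ → ℕ → ℕ → Bool := onCell 0 536870912 0 536870912 134217728 67108864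
    (rowFK 0 true false false .up 0 2 3 (qsf 0 536870912 0 536870912 3) ndF0q0 ndF0q2 pcF3 cut_A00mm_023_s3 Ext.none)

def k0_A00mm_023_s3 : ∃ t, chk3 f_A00mm_023_s3 t 1 1 1 = true :=
  ⟨(l 5), by decide +kernel⟩

theorem c_A00mm_023_s3 : CertF 0 536870912 0 536870912 134217728 67108864 true false false .up 0 2 3
    ndF0q0 ndF0q2 pcF3 cut_A00mm_023_s3 Ext.none :=
  certFK0 (fam := true) (s1 := false) (s2 := false) (a := 0) (b := 2) (c := 3) (cn := .up) (n1 := ndF0q0) (n2 := ndF0q2) (pc := pcF3) (cut := cut_A00mm_023_s3) (xt := Ext.none) (P1 := 0) (W1 := 536870912) (P2 := 0) (W2 := 536870912) (P3 := 134217728) (W3 := 67108864)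
    rfl rfl rfl k0_A00mm_023_s3

theorem s_A00mm_023_s3 {κ x : ℝ} (hκ : κ * h0 = ken x) (hx : ((134217728 : ℕ) : ℝ) / S ≤ x)
    (hx' : x ≤ (((134217728 : ℕ) : ℝ) + (67108864 : ℕ)) / S) :
    AltA (VF κ) PP tKF tL pcF [⟨4, 0, 0, 2845415833⟩] 0 2 3 0 0 (sgb false) (sgb false) x :=
  strip_altA (m := 2845415833) false rfl hκ covF00 covF02 hx hx' c_A00mm_023_s3 cutA_nil (noExt_A)

noncomputable def cut_A00mm_101_s1 : Cut := Cut.of [[⟨4, 0, 0, 1449551462⟩], [⟨0, 1, 0, 67108864⟩, ⟨1, 0, 0, 67108864⟩, ⟨2, 1, 0, 67108864⟩]]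

noncomputable def f_A00mm_101_s1 : ℕ → ℕ → ℕ → ℕ → Bool := onCell 536870912 536870912 0 536870912 134217728 67108864
    (rowFK 0 true false false .npn 1 0 1 (qsf 536870912 536870912 0 536870912 1) ndF0q1 ndF0q0 pcF1 cut_A00mm_101_s1 Ext.none)

def k0_A00mm_101_s1 : ∃ t, chk3 f_A00mm_101_s1 t 1 1 1 = true :=
  ⟨(l 6), by decide +kernel⟩

theorem c_A00mm_101_s1 : CertF 536870912 536870912 0 536870912 134217728 67108864 true false false .npn 1 0 1
    ndF0q1 ndF0q0 pcF1 cut_A00mm_101_s1 Ext.none :=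
  certFK0 (fam := true) (s1 := false) (s2 := false) (a := 1) (b := 0) (c := 1) (cn := .npn) (n1 := ndF0q1) (n2 := ndF0q0) (pc := pcF1) (cut := cut_A00mm_101_s1) (xt := Ext.none) (P1 := 536870912) (W1 := 536870912) (P2 := 0) (W2 := 536870912) (P3 := 134217728) (W3 := 67108864)
    rfl rfl rfl k0_A00mm_101_s1

theorem s_A00mm_101_s1 {κ x : ℝ} (hκ : κ * h0 = ken x) (hx : ((134217728 : ℕ) : ℝ) / S ≤ x)
    (hx' : x ≤ (((134217728 : ℕ) : ℝ) + (67108864 : ℕ)) / S)
    (H : CutA (VF κ) PP tKF tL pcF (Cut.of [[⟨0, 1, 0, 67108864⟩, ⟨1, 0, 0, 67108864⟩, ⟨2, 1, 0, 67108864⟩]]) 1 0 1 0 0 (sgb false) (sgb false) x) :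
    AltA (VF κ) PP tKF tL pcF [⟨3, 0, 0, 1449551462⟩] 1 0 1 0 0 (sgb false) (sgb false) x :=
  strip_altA (m := 1449551462) true rfl hκ covF01 covF00 hx hx' c_A00mm_101_s1 H (noExt_A)

noncomputable def cut_A00mm_101_s3 : Cut := Cut.of [[⟨3, 0, 0, 2845415833⟩], [⟨0, 1, 0, 67108864⟩, ⟨1, 0, 0, 67108864⟩, ⟨2, 1, 0, 67108864⟩]]

noncomputable def f_A00mm_101_s3 : ℕ → ℕ → ℕ → ℕ → Bool := onCell 536870912 536870912 0 536870912 134217728 67108864
    (rowFK 0 true false false .npn 1 0 1 (qsf 536870912 536870912 0 536870912 1) ndF0q1 ndF0q0 pcF1 cut_A00mm_101_s3 Ext.none)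

def k0_A00mm_101_s3 : ∃ t, chk3 f_A00mm_101_s3 t 1 1 1 = true :=
  ⟨(a (l 4) (b (a (l 4) (a (l 4) (b (b (a (l 4) (b (l 14) (l 4))) (l 4)) (l 2)))) (l 4))), by decide +kernel⟩

theorem c_A00mm_101_s3 : CertF 536870912 536870912 0 536870912 134217728 67108864 true false false .npn 1 0 1
    ndF0q1 ndF0q0 pcF1 cut_A00mm_101_s3 Ext.none :=
  certFK0 (fam := true) (s1 := false) (s2 := false) (a := 1) (b := 0) (c := 1) (cn := .npn) (n1 := ndF0q1) (n2 := ndF0q0) (pc := pcF1) (cut := cut_A00mm_101_s3) (xt := Ext.none) (P1 := 536870912) (W1 := 536870912) (P2 := 0) (W2 := 536870912) (P3 := 134217728) (W3 := 67108864)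
    rfl rfl rfl k0_A00mm_101_s3

theorem s_A00mm_101_s3 {κ x : ℝ} (hκ : κ * h0 = ken x) (hx : ((134217728 : ℕ) : ℝ) / S ≤ x)
    (hx' : x ≤ (((134217728 : ℕ) : ℝ) + (67108864 : ℕ)) / S)
    (H : CutA (VF κ) PP tKF tL pcF (Cut.of [[⟨0, 1, 0, 67108864⟩, ⟨1, 0, 0, 67108864⟩, ⟨2, 1, 0, 67108864⟩]]) 1 0 1 0 0 (sgb false) (sgb false) x) :
    AltA (VF κ) PP tKF tL pcF [⟨4, 0, 0, 2845415833⟩] 1 0 1 0 0 (sgb false) (sgb false) x :=
  strip_altA (m := 2845415833) false rfl hκ covF01 covF00 hx hx' c_A00mm_101_s3 H (noExt_A)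

noncomputable def cut_A00mm_102_s1 : Cut := Cut.of [[⟨4, 0, 0, 1449551462⟩], [⟨0, 1, 0, 67108864⟩, ⟨1, 0, 0, 67108864⟩, ⟨2, 1, 0, 67108864⟩]]

noncomputable def f_A00mm_102_s1 : ℕ → ℕ → ℕ → ℕ → Bool := onCell 536870912 536870912 0 536870912 134217728 67108864
    (rowFK 0 true false false .npp 1 0 2 (qsf 536870912 536870912 0 536870912 2) ndF0q1 ndF0q0 pcF2 cut_A00mm_102_s1 Ext.none)

def k0_A00mm_102_s1 : ∃ t, chk3 f_A00mm_102_s1 t 1 1 1 = true :=
  ⟨(l 6), by decide +kernel⟩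

theorem c_A00mm_102_s1 : CertF 536870912 536870912 0 536870912 134217728 67108864 true false false .npp 1 0 2
    ndF0q1 ndF0q0 pcF2 cut_A00mm_102_s1 Ext.none :=
  certFK0 (fam := true) (s1 := false) (s2 := false) (a := 1) (b := 0) (c := 2) (cn := .npp) (n1 := ndF0q1) (n2 := ndF0q0) (pc := pcF2) (cut := cut_A00mm_102_s1) (xt := Ext.none) (P1 := 536870912) (W1 := 536870912) (P2 := 0) (W2 := 536870912) (P3 := 134217728) (W3 := 67108864)
    rfl rfl rfl k0_A00mm_102_s1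

theorem s_A00mm_102_s1 {κ x : ℝ} (hκ : κ * h0 = ken x) (hx : ((134217728 : ℕ) : ℝ) / S ≤ x)
    (hx' : x ≤ (((134217728 : ℕ) : ℝ) + (67108864 : ℕ)) / S)
    (H : CutA (VF κ) PP tKF tL pcF (Cut.of [[⟨0, 1, 0, 67108864⟩, ⟨1, 0, 0, 67108864⟩, ⟨2, 1, 0, 67108864⟩]]) 1 0 2 0 0 (sgb false) (sgb false) x) :
    AltA (VF κ) PP tKF tL pcF [⟨3, 0, 0, 1449551462⟩] 1 0 2 0 0 (sgb false) (sgb false) x :=
  strip_altA (m := 1449551462) true rfl hκ covF01 covF00 hx hx' c_A00mm_102_s1 H (noExt_A)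

noncomputable def cut_A00mm_102_s3 : Cut := Cut.of [[⟨3, 0, 0, 2845415833⟩], [⟨0, 1, 0, 67108864⟩, ⟨1, 0, 0, 67108864⟩, ⟨2, 1, 0, 67108864⟩]]

noncomputable def f_A00mm_102_s3 : ℕ → ℕ → ℕ → ℕ → Bool := onCell 536870912 536870912 0 536870912 134217728 67108864
    (rowFK 0 true false false .npp 1 0 2 (qsf 536870912 536870912 0 536870912 2) ndF0q1 ndF0q0 pcF2 cut_A00mm_102_s3 Ext.none)

def k0_A00mm_102_s3 : ∃ t, chk3 f_A00mm_102_s3 t 1 1 1 = true :=
  ⟨(a (l 4) (b (a (l 4) (b (a (l 4) (b (a (l 4) (b (l 14) (l 4))) (l 4))) (l 4))) (l 4))), by decide +kernel⟩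

theorem c_A00mm_102_s3 : CertF 536870912 536870912 0 536870912 134217728 67108864 true false false .npp 1 0 2
    ndF0q1 ndF0q0 pcF2 cut_A00mm_102_s3 Ext.none :=
  certFK0 (fam := true) (s1 := false) (s2 := false) (a := 1) (b := 0) (c := 2) (cn := .npp) (n1 := ndF0q1) (n2 := ndF0q0) (pc := pcF2) (cut := cut_A00mm_102_s3) (xt := Ext.none) (P1 := 536870912) (W1 := 536870912) (P2 := 0) (W2 := 536870912) (P3 := 134217728) (W3 := 67108864)
    rfl rfl rfl k0_A00mm_102_s3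

theorem s_A00mm_102_s3 {κ x : ℝ} (hκ : κ * h0 = ken x) (hx : ((134217728 : ℕ) : ℝ) / S ≤ x)
    (hx' : x ≤ (((134217728 : ℕ) : ℝ) + (67108864 : ℕ)) / S)
    (H : CutA (VF κ) PP tKF tL pcF (Cut.of [[⟨0, 1, 0, 67108864⟩, ⟨1, 0, 0, 67108864⟩, ⟨2, 1, 0, 67108864⟩]]) 1 0 2 0 0 (sgb false) (sgb false) x) :
    AltA (VF κ) PP tKF tL pcF [⟨4, 0, 0, 2845415833⟩] 1 0 2 0 0 (sgb false) (sgb false) x :=
  strip_altA (m := 2845415833) false rfl hκ covF01 covF00 hx hx' c_A00mm_102_s3 H (noExt_A)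

noncomputable def cut_A00mm_112_s1 : Cut := Cut.of [[⟨4, 0, 0, 1449551462⟩]]

noncomputable def f_A00mm_112_s1 : ℕ → ℕ → ℕ → ℕ → Bool := onCell 536870912 536870912 536870912 536870912 134217728 67108864
    (rowFK 0 true false false .dn 1 1 2 (qsf 536870912 536870912 536870912 536870912 2) ndF0q1 ndF0q1 pcF2 cut_A00mm_112_s1 Ext.none)

def k0_A00mm_112_s1 : ∃ t, chk3 f_A00mm_112_s1 t 1 1 1 = true :=
  ⟨(l 4), by decide +kernel⟩

theorem c_A00mm_112_s1 : CertF 536870912 536870912 536870912 536870912 134217728 67108864 true false false .dn 1 1 2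
    ndF0q1 ndF0q1 pcF2 cut_A00mm_112_s1 Ext.none :=
  certFK0 (fam := true) (s1 := false) (s2 := false) (a := 1) (b := 1) (c := 2) (cn := .dn) (n1 := ndF0q1) (n2 := ndF0q1) (pc := pcF2) (cut := cut_A00mm_112_s1) (xt := Ext.none) (P1 := 536870912) (W1 := 536870912) (P2 := 536870912) (W2 := 536870912) (P3 := 134217728) (W3 := 67108864)
    rfl rfl rfl k0_A00mm_112_s1

theorem s_A00mm_112_s1 {κ x : ℝ} (hκ : κ * h0 = ken x) (hx : ((134217728 : ℕ) : ℝ) / S ≤ x)
    (hx' : x ≤ (((134217728 : ℕ) : ℝ) + (67108864 : ℕ)) / S) :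
    AltA (VF κ) PP tKF tL pcF [⟨3, 0, 0, 1449551462⟩] 1 1 2 0 0 (sgb false) (sgb false) x :=
  strip_altA (m := 1449551462) true rfl hκ covF01 covF01 hx hx' c_A00mm_112_s1 cutA_nil (noExt_A)

noncomputable def cut_A00mm_112_s3 : Cut := Cut.of [[⟨3, 0, 0, 2845415833⟩]]

noncomputable def f_A00mm_112_s3 : ℕ → ℕ → ℕ → ℕ → Bool := onCell 536870912 536870912 536870912 536870912 134217728 67108864
    (rowFK 0 true false false .dn 1 1 2 (qsf 536870912 536870912 536870912 536870912 2) ndF0q1 ndF0q1 pcF2 cut_A00mm_112_s3 Ext.none)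

def k0_A00mm_112_s3 : ∃ t, chk3 f_A00mm_112_s3 t 1 1 1 = true :=
  ⟨(l 4), by decide +kernel⟩

theorem c_A00mm_112_s3 : CertF 536870912 536870912 536870912 536870912 134217728 67108864 true false false .dn 1 1 2
    ndF0q1 ndF0q1 pcF2 cut_A00mm_112_s3 Ext.none :=
  certFK0 (fam := true) (s1 := false) (s2 := false) (a := 1) (b := 1) (c := 2) (cn := .dn) (n1 := ndF0q1) (n2 := ndF0q1) (pc := pcF2) (cut := cut_A00mm_112_s3) (xt := Ext.none) (P1 := 536870912) (W1 := 536870912) (P2 := 536870912) (W2 := 536870912) (P3 := 134217728) (W3 := 67108864)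
    rfl rfl rfl k0_A00mm_112_s3

theorem s_A00mm_112_s3 {κ x : ℝ} (hκ : κ * h0 = ken x) (hx : ((134217728 : ℕ) : ℝ) / S ≤ x)
    (hx' : x ≤ (((134217728 : ℕ) : ℝ) + (67108864 : ℕ)) / S) :
    AltA (VF κ) PP tKF tL pcF [⟨4, 0, 0, 2845415833⟩] 1 1 2 0 0 (sgb false) (sgb false) x :=
  strip_altA (m := 2845415833) false rfl hκ covF01 covF01 hx hx' c_A00mm_112_s3 cutA_nil (noExt_A)

noncomputable def cut_A00mm_113_s1 : Cut := Cut.of [[⟨4, 0, 0, 1449551462⟩]]

noncomputable def f_A00mm_113_s1 : ℕ → ℕ → ℕ → ℕ → Bool := onCell 536870912 536870912 536870912 536870912 134217728 67108864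
    (rowFK 0 true false false .nn 1 1 3 (qsf 536870912 536870912 536870912 536870912 3) ndF0q1 ndF0q1 pcF3 cut_A00mm_113_s1 Ext.none)

def k0_A00mm_113_s1 : ∃ t, chk3 f_A00mm_113_s1 t 1 1 1 = true :=
  ⟨(l 4), by decide +kernel⟩

theorem c_A00mm_113_s1 : CertF 536870912 536870912 536870912 536870912 134217728 67108864 true false false .nn 1 1 3
    ndF0q1 ndF0q1 pcF3 cut_A00mm_113_s1 Ext.none :=
  certFK0 (fam := true) (s1 := false) (s2 := false) (a := 1) (b := 1) (c := 3) (cn := .nn) (n1 := ndF0q1) (n2 := ndF0q1) (pc := pcF3) (cut := cut_A00mm_113_s1) (xt := Ext.none) (P1 := 536870912) (W1 := 536870912) (P2 := 536870912) (W2 := 536870912) (P3 := 134217728) (W3 := 67108864)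
    rfl rfl rfl k0_A00mm_113_s1

theorem s_A00mm_113_s1 {κ x : ℝ} (hκ : κ * h0 = ken x) (hx : ((134217728 : ℕ) : ℝ) / S ≤ x)
    (hx' : x ≤ (((134217728 : ℕ) : ℝ) + (67108864 : ℕ)) / S) :
    AltA (VF κ) PP tKF tL pcF [⟨3, 0, 0, 1449551462⟩] 1 1 3 0 0 (sgb false) (sgb false) x :=
  strip_altA (m := 1449551462) true rfl hκ covF01 covF01 hx hx' c_A00mm_113_s1 cutA_nil (noExt_A)

noncomputable def cut_A00mm_113_s3 : Cut := Cut.of [[⟨3, 0, 0, 2845415833⟩]]

noncomputable def f_A00mm_113_s3 : ℕ → ℕ → ℕ → ℕ → Bool := onCell 536870912 536870912 536870912 536870912 134217728 67108864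
    (rowFK 0 true false false .nn 1 1 3 (qsf 536870912 536870912 536870912 536870912 3) ndF0q1 ndF0q1 pcF3 cut_A00mm_113_s3 Ext.none)

def k0_A00mm_113_s3 : ∃ t, chk3 f_A00mm_113_s3 t 1 1 1 = true :=
  ⟨(l 4), by decide +kernel⟩

theorem c_A00mm_113_s3 : CertF 536870912 536870912 536870912 536870912 134217728 67108864 true false false .nn 1 1 3
    ndF0q1 ndF0q1 pcF3 cut_A00mm_113_s3 Ext.none :=
  certFK0 (fam := true) (s1 := false) (s2 := false) (a := 1) (b := 1) (c := 3) (cn := .nn) (n1 := ndF0q1) (n2 := ndF0q1) (pc := pcF3) (cut := cut_A00mm_113_s3) (xt := Ext.none) (P1 := 536870912) (W1 := 536870912) (P2 := 536870912) (W2 := 536870912) (P3 := 134217728) (W3 := 67108864)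
    rfl rfl rfl k0_A00mm_113_s3

theorem s_A00mm_113_s3 {κ x : ℝ} (hκ : κ * h0 = ken x) (hx : ((134217728 : ℕ) : ℝ) / S ≤ x)
    (hx' : x ≤ (((134217728 : ℕ) : ℝ) + (67108864 : ℕ)) / S) :
    AltA (VF κ) PP tKF tL pcF [⟨4, 0, 0, 2845415833⟩] 1 1 3 0 0 (sgb false) (sgb false) x :=
  strip_altA (m := 2845415833) false rfl hκ covF01 covF01 hx hx' c_A00mm_113_s3 cutA_nil (noExt_A)

noncomputable def cut_A00mm_123_s1 : Cut := Cut.of [[⟨4, 0, 0, 1449551462⟩]]

noncomputable def f_A00mm_123_s1 : ℕ → ℕ → ℕ → ℕ → Bool := onCell 536870912 536870912 0 536870912 134217728 67108864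
    (rowFK 0 true false false .npn 1 2 3 (qsf 536870912 536870912 0 536870912 3) ndF0q1 ndF0q2 pcF3 cut_A00mm_123_s1 Ext.none)

def k0_A00mm_123_s1 : ∃ t, chk3 f_A00mm_123_s1 t 1 1 1 = true :=
  ⟨(l 6), by decide +kernel⟩

theorem c_A00mm_123_s1 : CertF 536870912 536870912 0 536870912 134217728 67108864 true false false .npn 1 2 3
    ndF0q1 ndF0q2 pcF3 cut_A00mm_123_s1 Ext.none :=
  certFK0 (fam := true) (s1 := false) (s2 := false) (a := 1) (b := 2) (c := 3) (cn := .npn) (n1 := ndF0q1) (n2 := ndF0q2) (pc := pcF3) (cut := cut_A00mm_123_s1) (xt := Ext.none) (P1 := 536870912) (W1 := 536870912) (P2 := 0) (W2 := 536870912) (P3 := 134217728) (W3 := 67108864)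
    rfl rfl rfl k0_A00mm_123_s1

theorem s_A00mm_123_s1 {κ x : ℝ} (hκ : κ * h0 = ken x) (hx : ((134217728 : ℕ) : ℝ) / S ≤ x)
    (hx' : x ≤ (((134217728 : ℕ) : ℝ) + (67108864 : ℕ)) / S) :
    AltA (VF κ) PP tKF tL pcF [⟨3, 0, 0, 1449551462⟩] 1 2 3 0 0 (sgb false) (sgb false) x :=
  strip_altA (m := 1449551462) true rfl hκ covF01 covF02 hx hx' c_A00mm_123_s1 cutA_nil (noExt_A)

noncomputable def cut_A00mm_123_s3 : Cut := Cut.of [[⟨3, 0, 0, 2845415833⟩]]

noncomputable def f_A00mm_123_s3 : ℕ → ℕ → ℕ → ℕ → Bool := onCell 536870912 536870912 0 536870912 134217728 67108864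
    (rowFK 0 true false false .npn 1 2 3 (qsf 536870912 536870912 0 536870912 3) ndF0q1 ndF0q2 pcF3 cut_A00mm_123_s3 Ext.none)

def k0_A00mm_123_s3 : ∃ t, chk3 f_A00mm_123_s3 t 1 1 1 = true :=
  ⟨(a (l 5) (l 4)), by decide +kernel⟩

theorem c_A00mm_123_s3 : CertF 536870912 536870912 0 536870912 134217728 67108864 true false false .npn 1 2 3
    ndF0q1 ndF0q2 pcF3 cut_A00mm_123_s3 Ext.none :=
  certFK0 (fam := true) (s1 := false) (s2 := false) (a := 1) (b := 2) (c := 3) (cn := .npn) (n1 := ndF0q1) (n2 := ndF0q2) (pc := pcF3) (cut := cut_A00mm_123_s3) (xt := Ext.none) (P1 := 536870912) (W1 := 536870912) (P2 := 0) (W2 := 536870912) (P3 := 134217728) (W3 := 67108864)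
    rfl rfl rfl k0_A00mm_123_s3

theorem s_A00mm_123_s3 {κ x : ℝ} (hκ : κ * h0 = ken x) (hx : ((134217728 : ℕ) : ℝ) / S ≤ x)
    (hx' : x ≤ (((134217728 : ℕ) : ℝ) + (67108864 : ℕ)) / S) :
    AltA (VF κ) PP tKF tL pcF [⟨4, 0, 0, 2845415833⟩] 1 2 3 0 0 (sgb false) (sgb false) x :=
  strip_altA (m := 2845415833) false rfl hκ covF01 covF02 hx hx' c_A00mm_123_s3 cutA_nil (noExt_A)

noncomputable def cut_A00mm_202_s1 : Cut := Cut.of [[⟨4, 0, 0, 1449551462⟩], [⟨0, 1, 0, 67108864⟩, ⟨1, 0, 0, 67108864⟩, ⟨2, 1, 0, 67108864⟩]]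

noncomputable def f_A00mm_202_s1 : ℕ → ℕ → ℕ → ℕ → Bool := onCell 0 536870912 0 536870912 134217728 67108864
    (rowFK 0 true false false .pp 2 0 2 (qsf 0 536870912 0 536870912 2) ndF0q2 ndF0q0 pcF2 cut_A00mm_202_s1 Ext.none)

def k0_A00mm_202_s1 : ∃ t, chk3 f_A00mm_202_s1 t 1 1 1 = true :=
  ⟨(l 6), by decide +kernel⟩

theorem c_A00mm_202_s1 : CertF 0 536870912 0 536870912 134217728 67108864 true false false .pp 2 0 2
    ndF0q2 ndF0q0 pcF2 cut_A00mm_202_s1 Ext.none :=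
  certFK0 (fam := true) (s1 := false) (s2 := false) (a := 2) (b := 0) (c := 2) (cn := .pp) (n1 := ndF0q2) (n2 := ndF0q0) (pc := pcF2) (cut := cut_A00mm_202_s1) (xt := Ext.none) (P1 := 0) (W1 := 536870912) (P2 := 0) (W2 := 536870912) (P3 := 134217728) (W3 := 67108864)
    rfl rfl rfl k0_A00mm_202_s1

theorem s_A00mm_202_s1 {κ x : ℝ} (hκ : κ * h0 = ken x) (hx : ((134217728 : ℕ) : ℝ) / S ≤ x)
    (hx' : x ≤ (((134217728 : ℕ) : ℝ) + (67108864 : ℕ)) / S)
    (H : CutA (VF κ) PP tKF tL pcF (Cut.of [[⟨0, 1, 0, 67108864⟩, ⟨1, 0, 0, 67108864⟩, ⟨2, 1, 0, 67108864⟩]]) 2 0 2 0 0 (sgb false) (sgb false) x) :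
    AltA (VF κ) PP tKF tL pcF [⟨3, 0, 0, 1449551462⟩] 2 0 2 0 0 (sgb false) (sgb false) x :=
  strip_altA (m := 1449551462) true rfl hκ covF02 covF00 hx hx' c_A00mm_202_s1 H (noExt_A)

noncomputable def cut_A00mm_202_s3 : Cut := Cut.of [[⟨3, 0, 0, 2845415833⟩], [⟨0, 1, 0, 67108864⟩, ⟨1, 0, 0, 67108864⟩, ⟨2, 1, 0, 67108864⟩]]

noncomputable def xt_A00mm_202_s3 : Ext := strExt dd true false false .u2 .u0m .s2m .pp 2 0 2 rfl rfl gl2 vv ndF0q2 ndF0q0

noncomputable def f_A00mm_202_s3 : ℕ → ℕ → ℕ → ℕ → Bool := onCell 0 536870912 0 536870912 134217728 67108864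
    (rowFK 0 true false false .pp 2 0 2 (qsf 0 536870912 0 536870912 2) ndF0q2 ndF0q0 pcF2 cut_A00mm_202_s3 xt_A00mm_202_s3)

def k0_A00mm_202_s3 : ∃ t, chk3 f_A00mm_202_s3 t 2 1 1 = true :=
  ⟨(b (a (b (l 6) (b (l 6) (a (l 6) (l 17236848)))) (a (b (l 6) (b (b (l 6) (l 17216272)) (b (l 17167152) (l 17109968)))) (b (b (l 6) (a (l 6) (b (b (l 6) (l 17066048)) (l 17110424)))) (b (b (a (l 17170360) (l 17109832)) (a (l 17134952) (l 17073792))) (b (a (l 17083232) (l 17020736)) (a (l 17023808) (l 16876216))))))) (b (a (b (a (l 17206688) (b (l 17151184) (l 17091152))) (b (a (l 17118560) (l 17030976)) (a (l 17059800) (l 16888288)))) (a (a (b (l 543473679) (b (l 16955264) (l 543045647))) (b (l 543735823) (l 543401487))) (a (b (b (l 16961576) (l 543935247)) (l 543656975)) (b (b (l 544333583) (l 544220431)) (l 543927567))))) (a (l 2) (a (l 2) (a (l 2) (l 4)))))), by decide +kernel⟩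

def k1_A00mm_202_s3 : ∃ t, chk3 f_A00mm_202_s3 t 6 4 1 = true :=
  ⟨(b (a (a (b (l 6) (b (l 6) (l 16779136))) (b (b (b (l 6) (a (l 6) (l 16701112))) (b (l 16720880) (l 16701312))) (b (a (l 16699944) (l 16706520)) (a (l 16702272) (l 16709464))))) (b (b (a (b (a (c (l 16705360) (l 16703272)) (c (l 16710408) (l 16708272))) (a (l 16706480) (c (l 16712728) (l 16710544)))) (b (b (a (l 16713832) (c (l 16719800) (l 16717592))) (a (l 16715120) (c (l 16721208) (l 16718984)))) (a (c (l 16717984) (l 16715768)) (a (l 16720920) (l 16728808))))) (a (b (a (l 16708416) (l 16713968)) (a (l 16710272) (l 16716096))) (a (b (c (l 16720448) (l 16718216)) (l 16721808)) (b (b (l 16724264) (l 16725576)) (b (l 16726864) (l 16728152)))))) (a (b (a (l 16733896) (b (l 16718168) (l 16720192))) (a (l 16716424) (l 16733632))) (a (b (b (l 16724128) (l 16726384)) (b (l 16728616) (l 16730840))) (b (b (l 16730024) (l 16732504)) (b (l 16734944) (l 16737360)))))))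 (a (b (a (b (l 16911280) (l 16988936)) (b (l 16728472) (l 16820912))) (a (b (l 17030496) (l 17047720)) (b (l 16954400) (l 16975728)))) (a (b (a (b (l 16734008) (l 16839760)) (b (l 16727200) (l 16796720))) (a (b (l 16896240) (l 16920824)) (b (l 16858032) (l 16884656)))) (b (a (b (l 16744648) (l 16798056)) (b (b (l 16739792) (l 16742256)) (b (l 16744760) (l 16747328)))) (a (b (l 16822088) (l 16850320)) (b (l 537634831) (l 540022543))))))), by decide +kernel⟩

def k2_A00mm_202_s3 : ∃ t, chk3 f_A00mm_202_s3 t 7 16 1 = true :=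
  ⟨(a (a (a (b (b (a (b (l 16722648) (l 16724112)) (b (l 16725296) (l 16726808))) (a (b (l 16725560) (l 16726984)) (b (l 16728296) (l 16729768)))) (b (a (l 16729072) (l 16731920)) (b (l 16732600) (l 16733976)))) (b (b (a (b (c (l 16729048) (l 16726840)) (l 16729584)) (b (b (l 14) (l 16731264)) (l 16737688))) (a (b (l 16731120) (l 16732624)) (b (l 16734016) (l 16735568)))) (b (a (b (l 16734120) (l 16735592)) (b (l 16737096) (l 16738608))) (a (l 16737752) (b (l 16740096) (l 16741576)))))) (a (b (b (a (b (l 14) (b (l 14) (l 16735816))) (l 14)) (a (b (b (l 16736616) (l 16737416)) (l 16738600)) (b (b (l 14) (l 16740520)) (b (l 16741328) (l 16742136))))) (b (a (b (l 16740160) (l 16741704)) (b (l 16743320) (l 16744896))) (a (b (l 16743232) (l 16744744)) (b (l 16746456) (l 16748000))))) (b (a (b (l 14) (b (l 14) (b (l 14) (l 16745384)))) (l 14)) (a (b (b (a (l 16745768) (l 16747424)) (a (l 16747360) (l 16749040))) (b (a (l 16748944)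 (l 16750632)) (l 16761840))) (b (b (l 14) (a (l 16750744) (l 16752480))) (a (b (l 16752352) (l 16753944)) (b (l 16754104) (l 16755704)))))))) (a (a (b (l 14) (b (l 14) (a (b (a (l 16755888) (l 535825423)) (a (l 16757496) (l 16759336))) (b (l 14) (a (l 535813903) (a (l 16762640) (l 14))))))) (l 14)) (l 14))), by decide +kernel⟩

def k3_A00mm_202_s3 : ∃ t, chk3 f_A00mm_202_s3 t 14 17 1 = true :=
  ⟨(a (a (b (b (a (l 16734488) (l 16737512)) (a (l 16737112) (l 16740232))) (b (l 16751776) (l 16754376))) (b (a (b (l 16740600) (l 16743400)) (b (l 16743752) (l 16746624))) (a (b (l 16746152) (l 16748880)) (b (l 16749456) (l 16752256))))) (a (b (a (b (b (l 16746240) (l 16747728)) (l 536215823)) (b (b (l 16749528) (l 16751048)) (b (l 16752544) (l 16754040)))) (a (b (l 16752816) (l 16755688)) (b (l 536192015) (l 535921167)))) (a (b (b (b (l 16752912) (l 16754456)) (b (l 16755984) (l 16757504))) (b (b (l 16759016) (l 16765760)) (b (l 16767256)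 (l 16768744)))) (b (b (a (l 535611151) (b (l 16757288) (l 16758864))) (a (l 535346447) (l 535332367))) (b (a (l 535348751) (l 535335183)) (a (l 535349263) (l 535336207))))))), by decide +kernel⟩

def k4_A00mm_202_s3 : ∃ t, chk3 f_A00mm_202_s3 t 15 17 1 = true :=
  ⟨(b (a (a (a (b (a (b (l 16759096) (l 16760680)) (b (l 16760944) (l 16762536))) (a (l 535586319) (l 535840015))) (a (b (b (l 535549455) (l 535284495)) (a (l 535294735) (l 535287567))) (b (b (l 535802383) (l 535537679)) (a (l 535280399) (l 535273231))))) (a (a (a (b (l 535258895) (l 535266063)) (b (l 535519759) (l 535258639))) (a (b (b (l 14) (l 535246095)) (l 535251471)) (b (b (l 14) (l 535238671)) (l 535244303)))) (a (b (b (l 14) (a (l 535231247) (l 535223823))) (a (l 535505423) (l 535766543))) (b (l 14) (a (b (l 535220495) (l 535224591)) (b (l 535213071) (l 535217423))))))) (b (l 14) (a (a (a (a (a (l 535211535) (l 535207951)) (l 4)) (l 4)) (l 4)) (l 4)))) (a (a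 (a (b (a (l 535321103) (l 535575567)) (a (l 535322895) (l 535309327))) (a (b (a (l 535299087) (l 535292175)) (a (l 535301647) (l 535294991))) (b (a (l 535285263) (l 535278351)) (a (l 535288591) (l 535281935))))) (a (a (b (a (l 535271439) (l 535264527)) (l 536073743)) (b (a (l 535257615) (l 535250703)) (a (l 535261967) (l 4)))) (a (b (a (l 535243791) (l 535236623)) (l 4)) (l 4)))) (l 4))), by decide +kernel⟩

def k5_A00mm_202_s3 : ∃ t, chk3 f_A00mm_202_s3 t 7 9 1 = true :=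
  ⟨(b (a (a (a (b (b (l 16756968) (l 535962895)) (a (l 535413519) (l 535405327))) (b (a (l 535419919) (l 535943439)) (a (l 535396111) (l 535385359)))) (a (b (a (b (l 16763776) (l 535387663)) (b (l 535379471) (l 535372047))) (a (l 535641359) (b (l 535363343) (l 535356431)))) (a (b (b (l 536433423) (l 536160527)) (b (a (l 535355663) (l 535344143)) (l 535341583))) (b (a (b (l 535347983) (l 535344911)) (b (l 535335695) (l 535333391))) (b (a (l 535340815) (l 535598095)) (a (l 535334671) (l 535325199))))))) (a (a (b (a (a (l 536126735) (b (l 535309839) (l 535308815))) (a (b (l 535297039) (l 535296527)) (b (l 535820815) (l 4)))) (a (b (a (l 535318031) (l 4)) (l 4)) (l 4))) (l 4)) (l 4))) (a (a (a (b (l 536284175) (l 538934031)) (b (a (l 535371023) (l 535363599)) (a (l 537892879) (l 537065231)))) (a (a (b (l 535354639) (l 536110607)) (b (l 535343887) (l 535324943))) (a (b (l 535868431) (l 4)) (l 4)))) (l 4))), by decide +kernel⟩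

def k6_A00mm_202_s3 : ∃ t, chk3 f_A00mm_202_s3 t 3 5 1 = true :=
  ⟨(a (a (b (a (b (l 16960288) (l 16923952)) (b (b (l 16978176) (l 16967944)) (b (l 16949208) (l 16840936)))) (a (b (b (l 16968096) (l 16938496)) (b (l 16844584) (l 544657935))) (b (c (l 546027023) (a (l 543521551) (l 543554319))) (b (l 544918543) (l 544946959))))) (b (a (b (a (l 543333903) (l 543118607)) (a (l 544395791) (l 544369679))) (b (a (b (l 542259983) (l 543277583)) (b (l 541723407) (l 542943503))) (a (l 544296975) (b (l 543820815) (l 544449807))))) (a (b (a (l 544922127) (l 544996111)) (a (b (l 545105423) (l 545159183)) (l 4))) (b (a (l 545048591) (l 4)) (l 4))))) (b (a (a (b (a (b (l 541000463) (l 542478351)) (b (l 538957583) (l 541839375))) (a (b (l 543539983) (l 4)) (l 4))) (l 4)) (l 4)) (l 4))), by decide +kernel⟩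

def k7_A00mm_202_s3 : ∃ t, chk3 f_A00mm_202_s3 t 3 3 1 = true :=
  ⟨(b (a (a (b (a (b (l 544625167) (l 544510735)) (b (l 544929807) (l 4))) (l 4)) (l 4)) (l 4)) (l 4)), by decide +kernel⟩

theorem t8_A00mm_202_s3 : ∃ t, chk3 f_A00mm_202_s3 t 7 17 1 = true := ex3_a k3_A00mm_202_s3 k4_A00mm_202_s3

theorem t9_A00mm_202_s3 : ∃ t, chk3 f_A00mm_202_s3 t 7 8 1 = true := ex3_b k2_A00mm_202_s3 t8_A00mm_202_s3

theorem t10_A00mm_202_s3 : ∃ t, chk3 f_A00mm_202_s3 t 7 4 1 = true := ex3_b t9_A00mm_202_s3 k5_A00mm_202_s3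

theorem t11_A00mm_202_s3 : ∃ t, chk3 f_A00mm_202_s3 t 3 4 1 = true := ex3_a k1_A00mm_202_s3 t10_A00mm_202_s3

theorem t12_A00mm_202_s3 : ∃ t, chk3 f_A00mm_202_s3 t 3 2 1 = true := ex3_b t11_A00mm_202_s3 k6_A00mm_202_s3

theorem t13_A00mm_202_s3 : ∃ t, chk3 f_A00mm_202_s3 t 3 1 1 = true := ex3_b t12_A00mm_202_s3 k7_A00mm_202_s3

theorem t14_A00mm_202_s3 : ∃ t, chk3 f_A00mm_202_s3 t 1 1 1 = true := ex3_a k0_A00mm_202_s3 t13_A00mm_202_s3

theorem c_A00mm_202_s3 : CertF 0 536870912 0 536870912 134217728 67108864 true false false .pp 2 0 2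
    ndF0q2 ndF0q0 pcF2 cut_A00mm_202_s3 xt_A00mm_202_s3 :=
  certFK0 (fam := true) (s1 := false) (s2 := false) (a := 2) (b := 0) (c := 2) (cn := .pp) (n1 := ndF0q2) (n2 := ndF0q0) (pc := pcF2) (cut := cut_A00mm_202_s3) (xt := xt_A00mm_202_s3) (P1 := 0) (W1 := 536870912) (P2 := 0) (W2 := 536870912) (P3 := 134217728) (W3 := 67108864)
    rfl rfl rfl t14_A00mm_202_s3

theorem s_A00mm_202_s3 {κ x : ℝ} (hκ : κ * h0 = ken x) (hx : ((134217728 : ℕ) : ℝ) / S ≤ x)
    (hx' : x ≤ (((134217728 : ℕ) : ℝ) + (67108864 : ℕ)) / S)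
    (H : CutA (VF κ) PP tKF tL pcF (Cut.of [[⟨0, 1, 0, 67108864⟩, ⟨1, 0, 0, 67108864⟩, ⟨2, 1, 0, 67108864⟩]]) 2 0 2 0 0 (sgb false) (sgb false) x) :
    AltA (VF κ) PP tKF tL pcF [⟨4, 0, 0, 2845415833⟩] 2 0 2 0 0 (sgb false) (sgb false) x :=
  strip_altA (m := 2845415833) false rfl hκ covF02 covF00 hx hx' c_A00mm_202_s3 H ((okx hx hx').extA (T := tt) (sideF hx hx') hκ rfl rfl (.O 2 false) (.O 0 false) (Or.inl rfl))

noncomputable def cut_A00mm_203_s1 : Cut := Cut.of [[⟨4, 0, 0, 1449551462⟩]]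

noncomputable def f_A00mm_203_s1 : ℕ → ℕ → ℕ → ℕ → Bool := onCell 0 536870912 0 536870912 134217728 67108864
    (rowFK 0 true false false .up 2 0 3 (qsf 0 536870912 0 536870912 3) ndF0q2 ndF0q0 pcF3 cut_A00mm_203_s1 Ext.none)

def k0_A00mm_203_s1 : ∃ t, chk3 f_A00mm_203_s1 t 1 1 1 = true :=
  ⟨(l 6), by decide +kernel⟩

theorem c_A00mm_203_s1 : CertF 0 536870912 0 536870912 134217728 67108864 true false false .up 2 0 3
    ndF0q2 ndF0q0 pcF3 cut_A00mm_203_s1 Ext.none :=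
  certFK0 (fam := true) (s1 := false) (s2 := false) (a := 2) (b := 0) (c := 3) (cn := .up) (n1 := ndF0q2) (n2 := ndF0q0) (pc := pcF3) (cut := cut_A00mm_203_s1) (xt := Ext.none) (P1 := 0) (W1 := 536870912) (P2 := 0) (W2 := 536870912) (P3 := 134217728) (W3 := 67108864)
    rfl rfl rfl k0_A00mm_203_s1

theorem s_A00mm_203_s1 {κ x : ℝ} (hκ : κ * h0 = ken x) (hx : ((134217728 : ℕ) : ℝ) / S ≤ x)
    (hx' : x ≤ (((134217728 : ℕ) : ℝ) + (67108864 : ℕ)) / S) :
    AltA (VF κ) PP tKF tL pcF [⟨3, 0, 0, 1449551462⟩] 2 0 3 0 0 (sgb false) (sgb false) x :=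
  strip_altA (m := 1449551462) true rfl hκ covF02 covF00 hx hx' c_A00mm_203_s1 cutA_nil (noExt_A)

noncomputable def cut_A00mm_203_s3 : Cut := Cut.of [[⟨3, 0, 0, 2845415833⟩]]

noncomputable def xt_A00mm_203_s3 : Ext := strExt dd true false false .u2 .u0m .s2m .up 2 0 3 rfl rfl gl3 vv ndF0q2 ndF0q0

noncomputable def f_A00mm_203_s3 : ℕ → ℕ → ℕ → ℕ → Bool := onCell 0 536870912 1610612736 536870912 134217728 67108864
    (rowFK 1 true false false .up 2 0 3 (qsf 0 536870912 0 536870912 3) ndF0q2 ndF0q0 pcF3 cut_A00mm_203_s3 xt_A00mm_203_s3)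

def k0_A00mm_203_s3 : ∃ t, chk3 f_A00mm_203_s3 t 1 1 1 = true :=
  ⟨(a (b (b (a (b (a (b (l 17199232) (l 17117672)) (a (b (l 17085424) (l 17006512)) (b (l 16919400) (l 545176591)))) (a (b (a (l 17074064) (l 17004568)) (a (l 16998704) (l 544265743))) (a (b (l 544738831) (l 544472591)) (b (l 544942863) (l 544682255))))) (b (b (a (a (l 545600271) (l 545834255)) (a (l 546064399) (l 4))) (a (l 545500687) (l 4))) (a (b (l 545263375) (a (l 4) (l 4))) (l 4)))) (a (b (a (b (l 544965391) (l 2)) (b (a (l 544161295) (l 544394511)) (l 2))) (l 2)) (l 4))) (l 2)) (b (l 4) (l 2))), by decide +kernel⟩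

theorem c_A00mm_203_s3 : CertF 0 536870912 0 536870912 134217728 67108864 true false false .up 2 0 3
    ndF0q2 ndF0q0 pcF3 cut_A00mm_203_s3 xt_A00mm_203_s3 :=
  certFK1 (fam := true) (s1 := false) (s2 := false) (a := 2) (b := 0) (c := 3) (cn := .up) (n1 := ndF0q2) (n2 := ndF0q0) (pc := pcF3) (cut := cut_A00mm_203_s3) (xt := xt_A00mm_203_s3) (P1 := 0) (W1 := 536870912) (P2 := 0) (W2 := 536870912) (P3 := 134217728) (W3 := 67108864)
    rfl rfl rfl (fun _ => rfl) k0_A00mm_203_s3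

theorem s_A00mm_203_s3 {κ x : ℝ} (hκ : κ * h0 = ken x) (hx : ((134217728 : ℕ) : ℝ) / S ≤ x)
    (hx' : x ≤ (((134217728 : ℕ) : ℝ) + (67108864 : ℕ)) / S) :
    AltA (VF κ) PP tKF tL pcF [⟨4, 0, 0, 2845415833⟩] 2 0 3 0 0 (sgb false) (sgb false) x :=
  strip_altA (m := 2845415833) false rfl hκ covF02 covF00 hx hx' c_A00mm_203_s3 cutA_nil ((okx hx hx').extA (T := tt) (sideF hx hx') hκ rfl rfl (.O 2 false) (.O 0 false) (Or.inr rfl))

noncomputable def cut_A00mm_213_s1 : Cut := Cut.of [[⟨4, 0, 0, 1449551462⟩]]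

noncomputable def f_A00mm_213_s1 : ℕ → ℕ → ℕ → ℕ → Bool := onCell 0 536870912 536870912 536870912 134217728 67108864
    (rowFK 0 true false false .pnn 2 1 3 (qsf 0 536870912 536870912 536870912 3) ndF0q2 ndF0q1 pcF3 cut_A00mm_213_s1 Ext.none)

def k0_A00mm_213_s1 : ∃ t, chk3 f_A00mm_213_s1 t 1 1 1 = true :=
  ⟨(l 6), by decide +kernel⟩

theorem c_A00mm_213_s1 : CertF 0 536870912 536870912 536870912 134217728 67108864 true false false .pnn 2 1 3
    ndF0q2 ndF0q1 pcF3 cut_A00mm_213_s1 Ext.none :=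
  certFK0 (fam := true) (s1 := false) (s2 := false) (a := 2) (b := 1) (c := 3) (cn := .pnn) (n1 := ndF0q2) (n2 := ndF0q1) (pc := pcF3) (cut := cut_A00mm_213_s1) (xt := Ext.none) (P1 := 0) (W1 := 536870912) (P2 := 536870912) (W2 := 536870912) (P3 := 134217728) (W3 := 67108864)
    rfl rfl rfl k0_A00mm_213_s1

theorem s_A00mm_213_s1 {κ x : ℝ} (hκ : κ * h0 = ken x) (hx : ((134217728 : ℕ) : ℝ) / S ≤ x)
    (hx' : x ≤ (((134217728 : ℕ) : ℝ) + (67108864 : ℕ)) / S) :
    AltA (VF κ) PP tKF tL pcF [⟨3, 0, 0, 1449551462⟩] 2 1 3 0 0 (sgb false) (sgb false) x :=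
  strip_altA (m := 1449551462) true rfl hκ covF02 covF01 hx hx' c_A00mm_213_s1 cutA_nil (noExt_A)

noncomputable def cut_A00mm_213_s3 : Cut := Cut.of [[⟨3, 0, 0, 2845415833⟩]]

noncomputable def xt_A00mm_213_s3 : Ext := strExt dd true false false .u2 .u0m .s2m .pnn 2 1 3 rfl rfl gl3 vv ndF0q2 ndF0q1

noncomputable def f_A00mm_213_s3 : ℕ → ℕ → ℕ → ℕ → Bool := onCell 0 536870912 536870912 536870912 134217728 67108864
    (rowFK 0 true false false .pnn 2 1 3 (qsf 0 536870912 536870912 536870912 3) ndF0q2 ndF0q1 pcF3 cut_A00mm_213_s3 xt_A00mm_213_s3)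

def k0_A00mm_213_s3 : ∃ t, chk3 f_A00mm_213_s3 t 1 1 1 = true :=
  ⟨(a (b (b (a (b (a (b (l 545217551) (l 543458319)) (a (b (l 543899151) (l 4)) (l 4))) (a (l 543150351) (l 4))) (l 4)) (l 4)) (l 4)) (l 4)), by decide +kernel⟩

theorem c_A00mm_213_s3 : CertF 0 536870912 536870912 536870912 134217728 67108864 true false false .pnn 2 1 3
    ndF0q2 ndF0q1 pcF3 cut_A00mm_213_s3 xt_A00mm_213_s3 :=
  certFK0 (fam := true) (s1 := false) (s2 := false) (a := 2) (b := 1) (c := 3) (cn := .pnn) (n1 := ndF0q2) (n2 := ndF0q1) (pc := pcF3) (cut := cut_A00mm_213_s3) (xt := xt_A00mm_213_s3) (P1 := 0) (W1 := 536870912) (P2 := 536870912) (W2 := 536870912) (P3 := 134217728) (W3 := 67108864)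
    rfl rfl rfl k0_A00mm_213_s3

theorem s_A00mm_213_s3 {κ x : ℝ} (hκ : κ * h0 = ken x) (hx : ((134217728 : ℕ) : ℝ) / S ≤ x)
    (hx' : x ≤ (((134217728 : ℕ) : ℝ) + (67108864 : ℕ)) / S) :
    AltA (VF κ) PP tKF tL pcF [⟨4, 0, 0, 2845415833⟩] 2 1 3 0 0 (sgb false) (sgb false) x :=
  strip_altA (m := 2845415833) false rfl hκ covF02 covF01 hx hx' c_A00mm_213_s3 cutA_nil ((okx hx hx').extA (T := tt) (sideF hx hx') hκ rfl rfl (.O 2 false) (.O 1 false) (Or.inr rfl))

noncomputable def cut_A05pp_001_s1 : Cut := Cut.of [[⟨4, 0, 0, 1449551462⟩]]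

noncomputable def f_A05pp_001_s1 : ℕ → ℕ → ℕ → ℕ → Bool := onCell 0 536870912 0 536870912 134217728 67108864
    (rowFK 0 true true true .up 0 0 1 (qsf 0 536870912 0 536870912 1) ndF0q0 ndF5q0 pcF1 cut_A05pp_001_s1 Ext.none)

def k0_A05pp_001_s1 : ∃ t, chk3 f_A05pp_001_s1 t 1 1 1 = true :=
  ⟨(l 4), by decide +kernel⟩

theorem c_A05pp_001_s1 : CertF 0 536870912 0 536870912 134217728 67108864 true true true .up 0 0 1
    ndF0q0 ndF5q0 pcF1 cut_A05pp_001_s1 Ext.none :=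
  certFK0 (fam := true) (s1 := true) (s2 := true) (a := 0) (b := 0) (c := 1) (cn := .up) (n1 := ndF0q0) (n2 := ndF5q0) (pc := pcF1) (cut := cut_A05pp_001_s1) (xt := Ext.none) (P1 := 0) (W1 := 536870912) (P2 := 0) (W2 := 536870912) (P3 := 134217728) (W3 := 67108864)
    rfl rfl rfl k0_A05pp_001_s1

theorem s_A05pp_001_s1 {κ x : ℝ} (hκ : κ * h0 = ken x) (hx : ((134217728 : ℕ) : ℝ) / S ≤ x)
    (hx' : x ≤ (((134217728 : ℕ) : ℝ) + (67108864 : ℕ)) / S) :
    AltA (VF κ) PP tKF tL pcF [⟨3, 0, 0, 1449551462⟩] 0 0 1 0 5 (sgb true) (sgb true) x :=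
  strip_altA (m := 1449551462) true rfl hκ covF00 covF50 hx hx' c_A05pp_001_s1 cutA_nil (noExt_A)

noncomputable def cut_A05pp_011_s1 : Cut := Cut.of [[⟨4, 0, 0, 1449551462⟩]]

noncomputable def f_A05pp_011_s1 : ℕ → ℕ → ℕ → ℕ → Bool := onCell 0 536870912 536870912 536870912 134217728 67108864
    (rowFK 0 true true true .pnn 0 1 1 (qsf 0 536870912 536870912 536870912 1) ndF0q0 ndF5q1 pcF1 cut_A05pp_011_s1 Ext.none)

def k0_A05pp_011_s1 : ∃ t, chk3 f_A05pp_011_s1 t 1 1 1 = true :=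
  ⟨(l 4), by decide +kernel⟩

theorem c_A05pp_011_s1 : CertF 0 536870912 536870912 536870912 134217728 67108864 true true true .pnn 0 1 1
    ndF0q0 ndF5q1 pcF1 cut_A05pp_011_s1 Ext.none :=
  certFK0 (fam := true) (s1 := true) (s2 := true) (a := 0) (b := 1) (c := 1) (cn := .pnn) (n1 := ndF0q0) (n2 := ndF5q1) (pc := pcF1) (cut := cut_A05pp_011_s1) (xt := Ext.none) (P1 := 0) (W1 := 536870912) (P2 := 536870912) (W2 := 536870912) (P3 := 134217728) (W3 := 67108864)
    rfl rfl rfl k0_A05pp_011_s1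

theorem s_A05pp_011_s1 {κ x : ℝ} (hκ : κ * h0 = ken x) (hx : ((134217728 : ℕ) : ℝ) / S ≤ x)
    (hx' : x ≤ (((134217728 : ℕ) : ℝ) + (67108864 : ℕ)) / S) :
    AltA (VF κ) PP tKF tL pcF [⟨3, 0, 0, 1449551462⟩] 0 1 1 0 5 (sgb true) (sgb true) x :=
  strip_altA (m := 1449551462) true rfl hκ covF00 covF51 hx hx' c_A05pp_011_s1 cutA_nil (noExt_A)

noncomputable def cut_A05pp_012_s1 : Cut := Cut.of [[⟨4, 0, 0, 1449551462⟩]]

noncomputable def f_A05pp_012_s1 : ℕ → ℕ → ℕ → ℕ → Bool := onCell 0 536870912 536870912 536870912 134217728 67108864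
    (rowFK 0 true true true .pnp 0 1 2 (qsf 0 536870912 536870912 536870912 2) ndF0q0 ndF5q1 pcF2 cut_A05pp_012_s1 Ext.none)

def k0_A05pp_012_s1 : ∃ t, chk3 f_A05pp_012_s1 t 1 1 1 = true :=
  ⟨(l 4), by decide +kernel⟩

theorem c_A05pp_012_s1 : CertF 0 536870912 536870912 536870912 134217728 67108864 true true true .pnp 0 1 2
    ndF0q0 ndF5q1 pcF2 cut_A05pp_012_s1 Ext.none :=
  certFK0 (fam := true) (s1 := true) (s2 := true) (a := 0) (b := 1) (c := 2) (cn := .pnp) (n1 := ndF0q0) (n2 := ndF5q1) (pc := pcF2) (cut := cut_A05pp_012_s1) (xt := Ext.none) (P1 := 0) (W1 := 536870912) (P2 := 536870912) (W2 := 536870912) (P3 := 134217728) (W3 := 67108864)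
    rfl rfl rfl k0_A05pp_012_s1

theorem s_A05pp_012_s1 {κ x : ℝ} (hκ : κ * h0 = ken x) (hx : ((134217728 : ℕ) : ℝ) / S ≤ x)
    (hx' : x ≤ (((134217728 : ℕ) : ℝ) + (67108864 : ℕ)) / S) :
    AltA (VF κ) PP tKF tL pcF [⟨3, 0, 0, 1449551462⟩] 0 1 2 0 5 (sgb true) (sgb true) x :=
  strip_altA (m := 1449551462) true rfl hκ covF00 covF51 hx hx' c_A05pp_012_s1 cutA_nil (noExt_A)

noncomputable def cut_A05pp_022_s1 : Cut := Cut.of [[⟨4, 0, 0, 1449551462⟩]]

noncomputable def f_A05pp_022_s1 : ℕ → ℕ → ℕ → ℕ → Bool := onCell 0 536870912 1073741824 536870912 134217728 67108864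
    (rowFK 0 true true true .pp 0 2 2 (qsf 0 536870912 1073741824 536870912 2) ndF0q0 ndF5q2 pcF2 cut_A05pp_022_s1 Ext.none)

def k0_A05pp_022_s1 : ∃ t, chk3 f_A05pp_022_s1 t 1 1 1 = true :=
  ⟨(l 4), by decide +kernel⟩

theorem c_A05pp_022_s1 : CertF 0 536870912 1073741824 536870912 134217728 67108864 true true true .pp 0 2 2
    ndF0q0 ndF5q2 pcF2 cut_A05pp_022_s1 Ext.none :=
  certFK0 (fam := true) (s1 := true) (s2 := true) (a := 0) (b := 2) (c := 2) (cn := .pp) (n1 := ndF0q0) (n2 := ndF5q2) (pc := pcF2) (cut := cut_A05pp_022_s1) (xt := Ext.none) (P1 := 0) (W1 := 536870912) (P2 := 1073741824) (W2 := 536870912) (P3 := 134217728) (W3 := 67108864)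
    rfl rfl rfl k0_A05pp_022_s1

theorem s_A05pp_022_s1 {κ x : ℝ} (hκ : κ * h0 = ken x) (hx : ((134217728 : ℕ) : ℝ) / S ≤ x)
    (hx' : x ≤ (((134217728 : ℕ) : ℝ) + (67108864 : ℕ)) / S) :
    AltA (VF κ) PP tKF tL pcF [⟨3, 0, 0, 1449551462⟩] 0 2 2 0 5 (sgb true) (sgb true) x :=
  strip_altA (m := 1449551462) true rfl hκ covF00 covF52 hx hx' c_A05pp_022_s1 cutA_nil (noExt_A)

noncomputable def cut_A05pp_023_s1 : Cut := Cut.of [[⟨4, 0, 0, 1449551462⟩]]

noncomputable def f_A05pp_023_s1 : ℕ → ℕ → ℕ → ℕ → Bool := onCell 0 536870912 1073741824 536870912 134217728 67108864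
    (rowFK 0 true true true .up 0 2 3 (qsf 0 536870912 1073741824 536870912 3) ndF0q0 ndF5q2 pcF3 cut_A05pp_023_s1 Ext.none)

def k0_A05pp_023_s1 : ∃ t, chk3 f_A05pp_023_s1 t 1 1 1 = true :=
  ⟨(l 4), by decide +kernel⟩

theorem c_A05pp_023_s1 : CertF 0 536870912 1073741824 536870912 134217728 67108864 true true true .up 0 2 3
    ndF0q0 ndF5q2 pcF3 cut_A05pp_023_s1 Ext.none :=
  certFK0 (fam := true) (s1 := true) (s2 := true) (a := 0) (b := 2) (c := 3) (cn := .up) (n1 := ndF0q0) (n2 := ndF5q2) (pc := pcF3) (cut := cut_A05pp_023_s1) (xt := Ext.none) (P1 := 0) (W1 := 536870912) (P2 := 1073741824) (W2 := 536870912) (P3 := 134217728) (W3 := 67108864)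
    rfl rfl rfl k0_A05pp_023_s1

theorem s_A05pp_023_s1 {κ x : ℝ} (hκ : κ * h0 = ken x) (hx : ((134217728 : ℕ) : ℝ) / S ≤ x)
    (hx' : x ≤ (((134217728 : ℕ) : ℝ) + (67108864 : ℕ)) / S) :
    AltA (VF κ) PP tKF tL pcF [⟨3, 0, 0, 1449551462⟩] 0 2 3 0 5 (sgb true) (sgb true) x :=
  strip_altA (m := 1449551462) true rfl hκ covF00 covF52 hx hx' c_A05pp_023_s1 cutA_nil (noExt_A)

noncomputable def cut_A05pp_033_s1 : Cut := Cut.of [[⟨4, 0, 0, 1449551462⟩]]

noncomputable def f_A05pp_033_s1 : ℕ → ℕ → ℕ → ℕ → Bool := onCell 0 536870912 0 1230186008 134217728 67108864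
    (rowFK 0 true true true .pnn 0 3 3 (qsf 0 536870912 0 1230186008 3) ndF0q0 ndF5q3 pcF3 cut_A05pp_033_s1 Ext.none)

def k0_A05pp_033_s1 : ∃ t, chk3 f_A05pp_033_s1 t 1 1 1 = true :=
  ⟨(l 4), by decide +kernel⟩

theorem c_A05pp_033_s1 : CertF 0 536870912 0 1230186008 134217728 67108864 true true true .pnn 0 3 3
    ndF0q0 ndF5q3 pcF3 cut_A05pp_033_s1 Ext.none :=
  certFK0 (fam := true) (s1 := true) (s2 := true) (a := 0) (b := 3) (c := 3) (cn := .pnn) (n1 := ndF0q0) (n2 := ndF5q3) (pc := pcF3) (cut := cut_A05pp_033_s1) (xt := Ext.none) (P1 := 0) (W1 := 536870912) (P2 := 0) (W2 := 1230186008) (P3 := 134217728) (W3 := 67108864)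
    rfl rfl rfl k0_A05pp_033_s1

theorem s_A05pp_033_s1 {κ x : ℝ} (hκ : κ * h0 = ken x) (hx : ((134217728 : ℕ) : ℝ) / S ≤ x)
    (hx' : x ≤ (((134217728 : ℕ) : ℝ) + (67108864 : ℕ)) / S) :
    AltA (VF κ) PP tKF tL pcF [⟨3, 0, 0, 1449551462⟩] 0 3 3 0 5 (sgb true) (sgb true) x :=
  strip_altA (m := 1449551462) true rfl hκ covF00 covF53 hx hx' c_A05pp_033_s1 cutA_nil (noExt_A)

noncomputable def cut_A05pp_101_s1 : Cut := Cut.of [[⟨4, 0, 0, 1449551462⟩]]

noncomputable def f_A05pp_101_s1 : ℕ → ℕ → ℕ → ℕ → Bool := onCell 536870912 536870912 0 536870912 134217728 67108864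
    (rowFK 0 true true true .npn 1 0 1 (qsf 536870912 536870912 0 536870912 1) ndF0q1 ndF5q0 pcF1 cut_A05pp_101_s1 Ext.none)

def k0_A05pp_101_s1 : ∃ t, chk3 f_A05pp_101_s1 t 1 1 1 = true :=
  ⟨(l 4), by decide +kernel⟩

theorem c_A05pp_101_s1 : CertF 536870912 536870912 0 536870912 134217728 67108864 true true true .npn 1 0 1
    ndF0q1 ndF5q0 pcF1 cut_A05pp_101_s1 Ext.none :=
  certFK0 (fam := true) (s1 := true) (s2 := true) (a := 1) (b := 0) (c := 1) (cn := .npn) (n1 := ndF0q1) (n2 := ndF5q0) (pc := pcF1) (cut := cut_A05pp_101_s1) (xt := Ext.none) (P1 := 536870912) (W1 := 536870912) (P2 := 0) (W2 := 536870912) (P3 := 134217728) (W3 := 67108864)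
    rfl rfl rfl k0_A05pp_101_s1

theorem s_A05pp_101_s1 {κ x : ℝ} (hκ : κ * h0 = ken x) (hx : ((134217728 : ℕ) : ℝ) / S ≤ x)
    (hx' : x ≤ (((134217728 : ℕ) : ℝ) + (67108864 : ℕ)) / S) :
    AltA (VF κ) PP tKF tL pcF [⟨3, 0, 0, 1449551462⟩] 1 0 1 0 5 (sgb true) (sgb true) x :=
  strip_altA (m := 1449551462) true rfl hκ covF01 covF50 hx hx' c_A05pp_101_s1 cutA_nil (noExt_A)

noncomputable def cut_A05pp_102_s1 : Cut := Cut.of [[⟨4, 0, 0, 1449551462⟩]]

noncomputable def f_A05pp_102_s1 : ℕ → ℕ → ℕ → ℕ → Bool := onCell 536870912 536870912 0 536870912 134217728 67108864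
    (rowFK 0 true true true .npp 1 0 2 (qsf 536870912 536870912 0 536870912 2) ndF0q1 ndF5q0 pcF2 cut_A05pp_102_s1 Ext.none)

def k0_A05pp_102_s1 : ∃ t, chk3 f_A05pp_102_s1 t 1 1 1 = true :=
  ⟨(l 4), by decide +kernel⟩

theorem c_A05pp_102_s1 : CertF 536870912 536870912 0 536870912 134217728 67108864 true true true .npp 1 0 2
    ndF0q1 ndF5q0 pcF2 cut_A05pp_102_s1 Ext.none :=
  certFK0 (fam := true) (s1 := true) (s2 := true) (a := 1) (b := 0) (c := 2) (cn := .npp) (n1 := ndF0q1) (n2 := ndF5q0) (pc := pcF2) (cut := cut_A05pp_102_s1) (xt := Ext.none) (P1 := 536870912) (W1 := 536870912) (P2 := 0) (W2 := 536870912) (P3 := 134217728) (W3 := 67108864)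
    rfl rfl rfl k0_A05pp_102_s1

theorem s_A05pp_102_s1 {κ x : ℝ} (hκ : κ * h0 = ken x) (hx : ((134217728 : ℕ) : ℝ) / S ≤ x)
    (hx' : x ≤ (((134217728 : ℕ) : ℝ) + (67108864 : ℕ)) / S) :
    AltA (VF κ) PP tKF tL pcF [⟨3, 0, 0, 1449551462⟩] 1 0 2 0 5 (sgb true) (sgb true) x :=
  strip_altA (m := 1449551462) true rfl hκ covF01 covF50 hx hx' c_A05pp_102_s1 cutA_nil (noExt_A)

noncomputable def cut_A05pp_112_s1 : Cut := Cut.of [[⟨4, 0, 0, 1449551462⟩]]

noncomputable def f_A05pp_112_s1 : ℕ → ℕ → ℕ → ℕ → Bool := onCell 536870912 536870912 536870912 536870912 134217728 67108864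
    (rowFK 0 true true true .dn 1 1 2 (qsf 536870912 536870912 536870912 536870912 2) ndF0q1 ndF5q1 pcF2 cut_A05pp_112_s1 Ext.none)

def k0_A05pp_112_s1 : ∃ t, chk3 f_A05pp_112_s1 t 1 1 1 = true :=
  ⟨(l 4), by decide +kernel⟩

theorem c_A05pp_112_s1 : CertF 536870912 536870912 536870912 536870912 134217728 67108864 true true true .dn 1 1 2
    ndF0q1 ndF5q1 pcF2 cut_A05pp_112_s1 Ext.none :=
  certFK0 (fam := true) (s1 := true) (s2 := true) (a := 1) (b := 1) (c := 2) (cn := .dn) (n1 := ndF0q1) (n2 := ndF5q1) (pc := pcF2) (cut := cut_A05pp_112_s1) (xt := Ext.none) (P1 := 536870912) (W1 := 536870912) (P2 := 536870912) (W2 := 536870912) (P3 := 134217728) (W3 := 67108864)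
    rfl rfl rfl k0_A05pp_112_s1

theorem s_A05pp_112_s1 {κ x : ℝ} (hκ : κ * h0 = ken x) (hx : ((134217728 : ℕ) : ℝ) / S ≤ x)
    (hx' : x ≤ (((134217728 : ℕ) : ℝ) + (67108864 : ℕ)) / S) :
    AltA (VF κ) PP tKF tL pcF [⟨3, 0, 0, 1449551462⟩] 1 1 2 0 5 (sgb true) (sgb true) x :=
  strip_altA (m := 1449551462) true rfl hκ covF01 covF51 hx hx' c_A05pp_112_s1 cutA_nil (noExt_A)

noncomputable def cut_A05pp_113_s1 : Cut := Cut.of [[⟨4, 0, 0, 1449551462⟩]]

noncomputable def f_A05pp_113_s1 : ℕ → ℕ → ℕ → ℕ → Bool := onCell 536870912 536870912 536870912 536870912 134217728 67108864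
    (rowFK 0 true true true .nn 1 1 3 (qsf 536870912 536870912 536870912 536870912 3) ndF0q1 ndF5q1 pcF3 cut_A05pp_113_s1 Ext.none)

def k0_A05pp_113_s1 : ∃ t, chk3 f_A05pp_113_s1 t 1 1 1 = true :=
  ⟨(l 4), by decide +kernel⟩

theorem c_A05pp_113_s1 : CertF 536870912 536870912 536870912 536870912 134217728 67108864 true true true .nn 1 1 3
    ndF0q1 ndF5q1 pcF3 cut_A05pp_113_s1 Ext.none :=
  certFK0 (fam := true) (s1 := true) (s2 := true) (a := 1) (b := 1) (c := 3) (cn := .nn) (n1 := ndF0q1) (n2 := ndF5q1) (pc := pcF3) (cut := cut_A05pp_113_s1) (xt := Ext.none) (P1 := 536870912) (W1 := 536870912) (P2 := 536870912) (W2 := 536870912) (P3 := 134217728) (W3 := 67108864)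
    rfl rfl rfl k0_A05pp_113_s1

theorem s_A05pp_113_s1 {κ x : ℝ} (hκ : κ * h0 = ken x) (hx : ((134217728 : ℕ) : ℝ) / S ≤ x)
    (hx' : x ≤ (((134217728 : ℕ) : ℝ) + (67108864 : ℕ)) / S) :
    AltA (VF κ) PP tKF tL pcF [⟨3, 0, 0, 1449551462⟩] 1 1 3 0 5 (sgb true) (sgb true) x :=
  strip_altA (m := 1449551462) true rfl hκ covF01 covF51 hx hx' c_A05pp_113_s1 cutA_nil (noExt_A)

noncomputable def cut_A05pp_123_s1 : Cut := Cut.of [[⟨4, 0, 0, 1449551462⟩]]

noncomputable def f_A05pp_123_s1 : ℕ → ℕ → ℕ → ℕ → Bool := onCell 536870912 536870912 1073741824 536870912 134217728 67108864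
    (rowFK 0 true true true .npn 1 2 3 (qsf 536870912 536870912 1073741824 536870912 3) ndF0q1 ndF5q2 pcF3 cut_A05pp_123_s1 Ext.none)

def k0_A05pp_123_s1 : ∃ t, chk3 f_A05pp_123_s1 t 1 1 1 = true :=
  ⟨(l 4), by decide +kernel⟩

theorem c_A05pp_123_s1 : CertF 536870912 536870912 1073741824 536870912 134217728 67108864 true true true .npn 1 2 3
    ndF0q1 ndF5q2 pcF3 cut_A05pp_123_s1 Ext.none :=
  certFK0 (fam := true) (s1 := true) (s2 := true) (a := 1) (b := 2) (c := 3) (cn := .npn) (n1 := ndF0q1) (n2 := ndF5q2) (pc := pcF3) (cut := cut_A05pp_123_s1) (xt := Ext.none) (P1 := 536870912) (W1 := 536870912) (P2 := 1073741824) (W2 := 536870912) (P3 := 134217728) (W3 := 67108864)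
    rfl rfl rfl k0_A05pp_123_s1

theorem s_A05pp_123_s1 {κ x : ℝ} (hκ : κ * h0 = ken x) (hx : ((134217728 : ℕ) : ℝ) / S ≤ x)
    (hx' : x ≤ (((134217728 : ℕ) : ℝ) + (67108864 : ℕ)) / S) :
    AltA (VF κ) PP tKF tL pcF [⟨3, 0, 0, 1449551462⟩] 1 2 3 0 5 (sgb true) (sgb true) x :=
  strip_altA (m := 1449551462) true rfl hκ covF01 covF52 hx hx' c_A05pp_123_s1 cutA_nil (noExt_A)

noncomputable def cut_A05pp_133_s1 : Cut := Cut.of [[⟨4, 0, 0, 1449551462⟩]]

noncomputable def f_A05pp_133_s1 : ℕ → ℕ → ℕ → ℕ → Bool := onCell 536870912 536870912 0 1230186008 134217728 67108864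
    (rowFK 0 true true true .dn 1 3 3 (qsf 536870912 536870912 0 1230186008 3) ndF0q1 ndF5q3 pcF3 cut_A05pp_133_s1 Ext.none)

def k0_A05pp_133_s1 : ∃ t, chk3 f_A05pp_133_s1 t 1 1 1 = true :=
  ⟨(l 4), by decide +kernel⟩

theorem c_A05pp_133_s1 : CertF 536870912 536870912 0 1230186008 134217728 67108864 true true true .dn 1 3 3
    ndF0q1 ndF5q3 pcF3 cut_A05pp_133_s1 Ext.none :=
  certFK0 (fam := true) (s1 := true) (s2 := true) (a := 1) (b := 3) (c := 3) (cn := .dn) (n1 := ndF0q1) (n2 := ndF5q3) (pc := pcF3) (cut := cut_A05pp_133_s1) (xt := Ext.none) (P1 := 536870912) (W1 := 536870912) (P2 := 0) (W2 := 1230186008) (P3 := 134217728) (W3 := 67108864)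
    rfl rfl rfl k0_A05pp_133_s1

theorem s_A05pp_133_s1 {κ x : ℝ} (hκ : κ * h0 = ken x) (hx : ((134217728 : ℕ) : ℝ) / S ≤ x)
    (hx' : x ≤ (((134217728 : ℕ) : ℝ) + (67108864 : ℕ)) / S) :
    AltA (VF κ) PP tKF tL pcF [⟨3, 0, 0, 1449551462⟩] 1 3 3 0 5 (sgb true) (sgb true) x :=
  strip_altA (m := 1449551462) true rfl hκ covF01 covF53 hx hx' c_A05pp_133_s1 cutA_nil (noExt_A)

noncomputable def cut_A05pp_202_s1 : Cut := Cut.of [[⟨4, 0, 0, 1449551462⟩]]

noncomputable def f_A05pp_202_s1 : ℕ → ℕ → ℕ → ℕ → Bool := onCell 0 536870912 0 536870912 134217728 67108864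
    (rowFK 0 true true true .pp 2 0 2 (qsf 0 536870912 0 536870912 2) ndF0q2 ndF5q0 pcF2 cut_A05pp_202_s1 Ext.none)

def k0_A05pp_202_s1 : ∃ t, chk3 f_A05pp_202_s1 t 1 1 1 = true :=
  ⟨(l 4), by decide +kernel⟩

theorem c_A05pp_202_s1 : CertF 0 536870912 0 536870912 134217728 67108864 true true true .pp 2 0 2
    ndF0q2 ndF5q0 pcF2 cut_A05pp_202_s1 Ext.none :=
  certFK0 (fam := true) (s1 := true) (s2 := true) (a := 2) (b := 0) (c := 2) (cn := .pp) (n1 := ndF0q2) (n2 := ndF5q0) (pc := pcF2) (cut := cut_A05pp_202_s1) (xt := Ext.none) (P1 := 0) (W1 := 536870912) (P2 := 0) (W2 := 536870912) (P3 := 134217728) (W3 := 67108864)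
    rfl rfl rfl k0_A05pp_202_s1

theorem s_A05pp_202_s1 {κ x : ℝ} (hκ : κ * h0 = ken x) (hx : ((134217728 : ℕ) : ℝ) / S ≤ x)
    (hx' : x ≤ (((134217728 : ℕ) : ℝ) + (67108864 : ℕ)) / S) :
    AltA (VF κ) PP tKF tL pcF [⟨3, 0, 0, 1449551462⟩] 2 0 2 0 5 (sgb true) (sgb true) x :=
  strip_altA (m := 1449551462) true rfl hκ covF02 covF50 hx hx' c_A05pp_202_s1 cutA_nil (noExt_A)

noncomputable def cut_A05pp_203_s1 : Cut := Cut.of [[⟨4, 0, 0, 1449551462⟩]]

noncomputable def f_A05pp_203_s1 : ℕ → ℕ → ℕ → ℕ → Bool := onCell 0 536870912 0 536870912 134217728 67108864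
    (rowFK 0 true true true .up 2 0 3 (qsf 0 536870912 0 536870912 3) ndF0q2 ndF5q0 pcF3 cut_A05pp_203_s1 Ext.none)

def k0_A05pp_203_s1 : ∃ t, chk3 f_A05pp_203_s1 t 1 1 1 = true :=
  ⟨(l 4), by decide +kernel⟩

theorem c_A05pp_203_s1 : CertF 0 536870912 0 536870912 134217728 67108864 true true true .up 2 0 3
    ndF0q2 ndF5q0 pcF3 cut_A05pp_203_s1 Ext.none :=
  certFK0 (fam := true) (s1 := true) (s2 := true) (a := 2) (b := 0) (c := 3) (cn := .up) (n1 := ndF0q2) (n2 := ndF5q0) (pc := pcF3) (cut := cut_A05pp_203_s1) (xt := Ext.none) (P1 := 0) (W1 := 536870912) (P2 := 0) (W2 := 536870912) (P3 := 134217728) (W3 := 67108864)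
    rfl rfl rfl k0_A05pp_203_s1

theorem s_A05pp_203_s1 {κ x : ℝ} (hκ : κ * h0 = ken x) (hx : ((134217728 : ℕ) : ℝ) / S ≤ x)
    (hx' : x ≤ (((134217728 : ℕ) : ℝ) + (67108864 : ℕ)) / S) :
    AltA (VF κ) PP tKF tL pcF [⟨3, 0, 0, 1449551462⟩] 2 0 3 0 5 (sgb true) (sgb true) x :=
  strip_altA (m := 1449551462) true rfl hκ covF02 covF50 hx hx' c_A05pp_203_s1 cutA_nil (noExt_A)

noncomputable def cut_A05pp_213_s1 : Cut := Cut.of [[⟨4, 0, 0, 1449551462⟩]]

noncomputable def f_A05pp_213_s1 : ℕ → ℕ → ℕ → ℕ → Bool := onCell 0 536870912 536870912 536870912 134217728 67108864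
    (rowFK 0 true true true .pnn 2 1 3 (qsf 0 536870912 536870912 536870912 3) ndF0q2 ndF5q1 pcF3 cut_A05pp_213_s1 Ext.none)

def k0_A05pp_213_s1 : ∃ t, chk3 f_A05pp_213_s1 t 1 1 1 = true :=
  ⟨(l 4), by decide +kernel⟩

theorem c_A05pp_213_s1 : CertF 0 536870912 536870912 536870912 134217728 67108864 true true true .pnn 2 1 3
    ndF0q2 ndF5q1 pcF3 cut_A05pp_213_s1 Ext.none :=
  certFK0 (fam := true) (s1 := true) (s2 := true) (a := 2) (b := 1) (c := 3) (cn := .pnn) (n1 := ndF0q2) (n2 := ndF5q1) (pc := pcF3) (cut := cut_A05pp_213_s1) (xt := Ext.none) (P1 := 0) (W1 := 536870912) (P2 := 536870912) (W2 := 536870912) (P3 := 134217728) (W3 := 67108864)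
    rfl rfl rfl k0_A05pp_213_s1

theorem s_A05pp_213_s1 {κ x : ℝ} (hκ : κ * h0 = ken x) (hx : ((134217728 : ℕ) : ℝ) / S ≤ x)
    (hx' : x ≤ (((134217728 : ℕ) : ℝ) + (67108864 : ℕ)) / S) :
    AltA (VF κ) PP tKF tL pcF [⟨3, 0, 0, 1449551462⟩] 2 1 3 0 5 (sgb true) (sgb true) x :=
  strip_altA (m := 1449551462) true rfl hκ covF02 covF51 hx hx' c_A05pp_213_s1 cutA_nil (noExt_A)

noncomputable def cut_A05pm_001_s1 : Cut := Cut.of [[⟨4, 0, 0, 1449551462⟩]]

noncomputable def xt_A05pm_001_s1 : Ext := strExt dd true true false .u0 .s0m .u0m .up 0 0 1 rfl rfl gf1 vv ndF0q0 ndF5q0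

noncomputable def f_A05pm_001_s1 : ℕ → ℕ → ℕ → ℕ → Bool := onCell 0 536870912 536870912 536870912 134217728 67108864
    (rowFK 1 true true false .up 0 0 1 (qsf 0 536870912 0 536870912 1) ndF0q0 ndF5q0 pcF1 cut_A05pm_001_s1 xt_A05pm_001_s1)

def k0_A05pm_001_s1 : ∃ t, chk3 f_A05pm_001_s1 t 1 1 1 = true :=
  ⟨(a (b (l 3) (b (b (l 3) (l 2)) (l 2))) (b (b (l 3) (a (l 3) (a (b (l 3) (l 560871439)) (b (b (l 559831567) (l 559029007)) (l 558888975))))) (b (a (b (a (l 566029071) (l 562752015)) (a (b (l 564813583) (l 2)) (b (l 562504463) (l 562464527)))) (b (a (l 560468751) (l 558327567)) (a (b (l 560258319) (l 560176655)) (b (l 17267736) (l 17375808))))) (a (a (l 2) (b (b (l 562390543) (l 2)) (l 2))) (b (a (b (l 17356408) (l 17480272)) (l 17546328)) (a (l 156332035335) (l 17783728))))))), by decide +kernel⟩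

theorem c_A05pm_001_s1 : CertF 0 536870912 0 536870912 134217728 67108864 true true false .up 0 0 1
    ndF0q0 ndF5q0 pcF1 cut_A05pm_001_s1 xt_A05pm_001_s1 :=
  certFK1 (fam := true) (s1 := true) (s2 := false) (a := 0) (b := 0) (c := 1) (cn := .up) (n1 := ndF0q0) (n2 := ndF5q0) (pc := pcF1) (cut := cut_A05pm_001_s1) (xt := xt_A05pm_001_s1) (P1 := 0) (W1 := 536870912) (P2 := 0) (W2 := 536870912) (P3 := 134217728) (W3 := 67108864)
    rfl rfl rfl (fun _ => rfl) k0_A05pm_001_s1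

theorem s_A05pm_001_s1 {κ x : ℝ} (hκ : κ * h0 = ken x) (hx : ((134217728 : ℕ) : ℝ) / S ≤ x)
    (hx' : x ≤ (((134217728 : ℕ) : ℝ) + (67108864 : ℕ)) / S) :
    AltA (VF κ) PP tKF tL pcF [⟨3, 0, 0, 1449551462⟩] 0 0 1 0 5 (sgb true) (sgb false) x :=
  strip_altA (m := 1449551462) true rfl hκ covF00 covF50 hx hx' c_A05pm_001_s1 cutA_nil ((okx hx hx').extA (T := tt) (sideF hx hx') hκ rfl rfl (.O 0 true) (.N 0 false) (Or.inr rfl))

noncomputable def cut_A05pm_011_s1 : Cut := Cut.of [[⟨4, 0, 0, 1449551462⟩], [⟨0, 0, 0, 67108864⟩, ⟨1, 1, 0, 67108864⟩, ⟨2, 1, 0, 67108864⟩]]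

noncomputable def xt_A05pm_011_s1 : Ext := strExt dd true true false .u0 .s0m .u0m .pnn 0 1 1 rfl rfl gf1 vv ndF0q0 ndF5q1

noncomputable def f_A05pm_011_s1 : ℕ → ℕ → ℕ → ℕ → Bool := onCell 0 536870912 536870912 536870912 134217728 67108864
    (rowFK 1 true true false .pnn 0 1 1 (qsf 0 536870912 536870912 536870912 1) ndF0q0 ndF5q1 pcF1 cut_A05pm_011_s1 xt_A05pm_011_s1)

def k0_A05pm_011_s1 : ∃ t, chk3 f_A05pm_011_s1 t 1 2 1 = true :=
  ⟨(a (l 3) (a (a (l 3) (l 1)) (l 1))), by decide +kernel⟩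

def k1_A05pm_011_s1 : ∃ t, chk3 f_A05pm_011_s1 t 1 6 1 = true :=
  ⟨(a (b (l 3) (a (l 3) (a (l 3) (b (l 3) (a (l 566949391) (l 566185231)))))) (a (b (a (l 564950799) (l 562748175)) (a (b (l 564806927) (l 564702735)) (b (l 562499599) (l 562456591)))) (b (l 1) (a (b (l 1) (l 17234656)) (l 1))))), by decide +kernel⟩

def k2_A05pm_011_s1 : ∃ t, chk3 f_A05pm_011_s1 t 2 14 1 = true :=
  ⟨(b (a (l 3) (a (a (l 3) (a (l 565153551) (l 565715983))) (a (l 566025743) (l 565703695)))) (b (a (l 3) (a (a (a (l 3) (c (l 568178703) (l 553075471))) (a (l 562549007) (l 563804687))) (a (l 564819983) (l 565052431)))) (a (a (l 3) (a (l 3) (a (l 3) (a (l 544521487) (l 548298767))))) (a (a (a (c (l 562703631) (l 542935567)) (c (l 565656591) (l 548562703))) (a (l 559995663) (l 561932303))) (a (l 563633679) (l 16986920)))))), by decide +kernel⟩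

def k3_A05pm_011_s1 : ∃ t, chk3 f_A05pm_011_s1 t 4 15 1 = true :=
  ⟨(b (a (b (l 3) (a (l 3) (a (l 3) (a (l 3) (a (l 3) (b (l 3) (l 526593551))))))) (a (a (b (l 3) (a (b (l 3) (l 527997455)) (b (l 527409679) (l 527021071)))) (b (a (l 3) (l 527877135)) (a (b (l 527774735) (l 527116815)) (b (l 526802959) (l 526947599))))) (a (a (b (l 527446799) (a (l 527224591) (l 527010063))) (b (l 527298319) (l 528431119))) (b (a (l 533977615) (l 539469071)) (a (l 527471119) (l 527325199)))))) (a (b (b (a (l 3) (a (a (l 3) (a (l 3) (l 527350543))) (a (a (l 526863631) (l 526644495)) (a (l 526693391) (l 526742031))))) (a (l 14) (a (a (a (l 14) (b (l 527634703) (l 14))) (a (a (l 526637839) (l 526662671)) (l 528035855))) (a (a (l 527280655) (l 526793487)) (a (l 526842639) (l 526891535)))))) (a (l 14) (a (a (l 14) (a (l 14) (b (a (l 14) (l 526861583)) (l 14)))) (a (a (b (l 527967247) (l 14)) (b (l 527211791) (b (l 527061263) (l 14)))) (a (b (l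 526992911) (l 527949327)) (b (l 527041807) (l 527193359))))))) (a (a (b (a (b (l 528146191) (a (l 526939919) (l 526988047))) (b (l 527170063) (l 527588623))) (a (b (a (l 527090703) (l 527139087)) (b (l 16741744) (l 527835919))) (b (l 527739919) (b (l 16745944) (l 16729664))))) (b (a (b (l 526997775) (l 527148047)) (b (l 527094799) (l 527245071))) (a (b (l 527299855) (l 527989519)) (b (l 527396623) (l 527549455))))) (a (b (a (b (l 527202319) (l 527349263)) (l 528185871)) (b (b (l 16725192) (l 16751080)) (b (l 16745584) (l 16719192)))) (b (a (l 527499023) (l 527620111)) (b (l 528307215) (l 528989711))))))), by decide +kernel⟩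

def k4_A05pm_011_s1 : ∃ t, chk3 f_A05pm_011_s1 t 5 15 1 = true :=
  ⟨(a (a (b (a (b (a (l 543997967) (l 547741199)) (a (l 533438735) (l 538889743))) (b (c (l 562003215) (l 542431759)) (b (l 547276303) (l 16762608)))) (a (b (b (l 527731471) (l 16741168)) (b (l 16730800) (l 16720704))) (b (l 535640079) (l 529684495)))) (b (a (b (l 556452623) (l 551528975)) (b (l 559345935) (l 555768591))) (a (b (l 544641039) (l 534878479)) (b (l 16870232) (l 16716552))))) (b (a (b (l 561999887) (c (l 17149216) (l 552880143))) (b (l 17129760) (l 17179760))) (a (a (b (l 17037256) (l 17000272)) (b (l 17113360) (l 17101088))) (b (l 17215672) (l 17229584))))), by decide +kernel⟩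

def k5_A05pm_011_s1 : ∃ t, chk3 f_A05pm_011_s1 t 3 7 1 = true :=
  ⟨(a (a (b (b (a (l 564952335) (l 563979535)) (a (l 564452623) (l 17217120))) (b (a (l 17256184) (l 17346824)) (a (l 17353288) (l 17459768)))) (b (b (l 562379023) (l 17336776)) (b (l 17467384) (l 17590560)))) (b (a (b (l 17354712) (l 17478312)) (l 17542816)) (a (b (l 17604400) (l 17729496)) (l 17778944)))), by decide +kernel⟩

theorem t6_A05pm_011_s1 : ∃ t, chk3 f_A05pm_011_s1 t 2 15 1 = true := ex3_a k3_A05pm_011_s1 k4_A05pm_011_s1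

theorem t7_A05pm_011_s1 : ∃ t, chk3 f_A05pm_011_s1 t 2 7 1 = true := ex3_b k2_A05pm_011_s1 t6_A05pm_011_s1

theorem t8_A05pm_011_s1 : ∃ t, chk3 f_A05pm_011_s1 t 1 7 1 = true := ex3_a t7_A05pm_011_s1 k5_A05pm_011_s1

theorem t9_A05pm_011_s1 : ∃ t, chk3 f_A05pm_011_s1 t 1 3 1 = true := ex3_b k1_A05pm_011_s1 t8_A05pm_011_s1

theorem t10_A05pm_011_s1 : ∃ t, chk3 f_A05pm_011_s1 t 1 1 1 = true := ex3_b k0_A05pm_011_s1 t9_A05pm_011_s1

theorem c_A05pm_011_s1 : CertF 0 536870912 536870912 536870912 134217728 67108864 true true false .pnn 0 1 1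
    ndF0q0 ndF5q1 pcF1 cut_A05pm_011_s1 xt_A05pm_011_s1 :=
  certFK1 (fam := true) (s1 := true) (s2 := false) (a := 0) (b := 1) (c := 1) (cn := .pnn) (n1 := ndF0q0) (n2 := ndF5q1) (pc := pcF1) (cut := cut_A05pm_011_s1) (xt := xt_A05pm_011_s1) (P1 := 0) (W1 := 536870912) (P2 := 536870912) (W2 := 536870912) (P3 := 134217728) (W3 := 67108864)
    rfl rfl rfl (fun _ => rfl) t10_A05pm_011_s1

theorem s_A05pm_011_s1 {κ x : ℝ} (hκ : κ * h0 = ken x) (hx : ((134217728 : ℕ) : ℝ) / S ≤ x)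
    (hx' : x ≤ (((134217728 : ℕ) : ℝ) + (67108864 : ℕ)) / S)
    (H : CutA (VF κ) PP tKF tL pcF (Cut.of [[⟨0, 0, 0, 67108864⟩, ⟨1, 1, 0, 67108864⟩, ⟨2, 1, 0, 67108864⟩]]) 0 1 1 0 5 (sgb true) (sgb false) x) :
    AltA (VF κ) PP tKF tL pcF [⟨3, 0, 0, 1449551462⟩] 0 1 1 0 5 (sgb true) (sgb false) x :=
  strip_altA (m := 1449551462) true rfl hκ covF00 covF51 hx hx' c_A05pm_011_s1 H ((okx hx hx').extA (T := tt) (sideF hx hx') hκ rfl rfl (.O 0 true) (.N 1 false) (Or.inr rfl))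

noncomputable def cut_A05pm_012_s1 : Cut := Cut.of [[⟨4, 0, 0, 1449551462⟩], [⟨0, 0, 0, 67108864⟩, ⟨1, 1, 0, 67108864⟩, ⟨2, 1, 0, 67108864⟩]]

noncomputable def f_A05pm_012_s1 : ℕ → ℕ → ℕ → ℕ → Bool := onCell 1073741824 536870912 536870912 536870912 134217728 67108864
    (rowFK 2 true true false .pnp 0 1 2 (qsf 0 536870912 536870912 536870912 2) ndF0q0 ndF5q1 pcF2 cut_A05pm_012_s1 Ext.none)

def k0_A05pm_012_s1 : ∃ t, chk3 f_A05pm_012_s1 t 2 2 1 = true :=
  ⟨(a (b (a (a (b (l 18117768) (l 17989416)) (l 18209264)) (l 6)) (a (a (b (l 17750616) (a (b (l 17631768) (l 17506928)) (l 17697080))) (b (l 18036592) (a (l 17816264) (l 17929536)))) (a (a (b (l 18172024) (l 18036584)) (b (l 18240264) (a (l 18109832) (l 18154896)))) (b (l 6) (a (l 18202992) (l 6)))))) (a (l 6) (l 6))), by decide +kernel⟩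

def k1_A05pm_012_s1 : ∃ t, chk3 f_A05pm_012_s1 t 4 6 1 = true :=
  ⟨(a (a (b (a (a (b (l 17062232) (b (l 17079256) (l 16790672))) (b (l 17386104) (l 16849120))) (b (l 17493536) (a (l 17181000) (l 17344896)))) (a (b (a (b (l 16732224) (l 16666824)) (b (l 16901880) (l 16819952))) (a (b (a (l 16697720) (l 16689584)) (a (l 16671688) (l 16705408))) (b (l 16617320) (l 16693144)))) (b (a (l 16746296) (l 16922632)) (b (l 16687704) (a (l 16676960) (l 16592296)))))) (b (a (b (l 17632760) (l 17463048)) (b (l 17765848) (l 17615248))) (a (b (l 16809248) (b (l 16900848) (l 16772384))) (b (l 16988976) (b (l 17026840) (l 16758296)))))) (a (a (b (l 17662720) (b (l 17411504) (b (l 17310576) (l 16984512)))) (a (b (l 17756160) (b (l 17615232) (a (l 17277256) (l 17241744)))) (b (l 17982528) (b (l 17774752) (a (l 17288736) (l 17501728)))))) (a (a (b (l 18034600) (b (l 17844568) (c (l 17908328) (l 17393528)))) (b (l 18085096) (b (l 17911816) (l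 17651768)))) (b (l 18153168) (b (l 18004712) (c (l 18099264) (l 17439424))))))), by decide +kernel⟩

def k2_A05pm_012_s1 : ∃ t, chk3 f_A05pm_012_s1 t 16 7 1 = true :=
  ⟨(b (a (b (a (b (a (b (l 16725848) (l 16692168)) (l 16721664)) (a (b (l 16700512) (l 16708928)) (l 16696344))) (b (l 16709280) (l 16673384))) (a (b (a (b (l 16696424) (a (l 16728024) (l 16723800))) (l 16692264)) (a (b (a (l 16736544) (l 16732312)) (a (l 16724072) (l 16740816))) (b (l 16725984) (l 16734488)))) (a (b (l 16704856) (l 16700856)) (b (l 16738472) (l 16692496))))) (b (b (a (l 16692952) (l 16676784)) (a (l 16709352) (l 16693056))) (b (a (l 16663128) (l 16646728)) (a (a (l 16684168) (l 16696856)) (b (l 16722232) (l 16688704)))))) (a (b (b (a (a (b (a (b (l 16730448) (l 14)) (l 16728336)) (l 14)) (b (l 16721992) (l 16719968))) (b (a (l 16734544) (l 16726176)) (a (l 16722024) (l 16713632)))) (a (l 14) (a (l 14) (b (l 16711552) (l 14))))) (l 14)) (b (b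 (a (a (b (l 16675888) (l 16726256)) (a (l 16684360) (l 16680200))) (b (l 16676160) (a (l 16667728) (l 16659496)))) (a (b (a (l 16713680) (l 16705360)) (a (l 14) (l 16703216))) (a (b (l 16676104) (l 16694920)) (b (l 16667864) (l 16686680))))) (a (l 14) (b (b (a (l 14) (c (l 16696112) (l 16683312))) (l 14)) (l 14)))))), by decide +kernel⟩

def k3_A05pm_012_s1 : ∃ t, chk3 f_A05pm_012_s1 t 17 14 1 = true :=
  ⟨(b (a (b (a (l 16661128) (l 16571640)) (a (l 16677280) (l 16661824))) (b (a (l 16709288) (l 16844032)) (a (l 16646480) (l 16640064)))) (b (a (a (l 16651816) (l 16678216)) (a (l 16662776) (b (l 16559512) (l 16567680)))) (a (a (c (l 16650568) (l 16665600)) (c (l 16635440) (l 16607552))) (a (c (l 16641416) (l 16591528)) (c (l 16605584) (l 16575592)))))), by decide +kernel⟩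

def k4_A05pm_012_s1 : ∃ t, chk3 f_A05pm_012_s1 t 17 30 1 = true :=
  ⟨(a (b (a (b (l 16681112) (l 16668536)) (b (l 16623496) (l 16652832))) (c (b (a (l 16668352) (l 16642568)) (a (a (l 16669776) (l 16662080)) (a (l 16654424) (l 16646784)))) (b (a (l 16654040) (l 16637928)) (a (l 16683592) (l 16646520))))) (b (a (a (l 16636960) (l 16629200)) (c (b (l 16596488) (l 16604424)) (l 16613888))) (a (b (l 16645584) (c (l 16656360) (l 16630504))) (b (c (l 16622848) (l 16605920)) (c (a (l 16624064) (l 16616584)) (l 16614536)))))), by decide +kernel⟩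

def k5_A05pm_012_s1 : ∃ t, chk3 f_A05pm_012_s1 t 17 31 1 = true :=
  ⟨(b (a (b (a (a (c (l 16677792) (l 16675168)) (c (l 16670080) (l 16667112))) (a (c (l 16662408) (l 16659072)) (c (l 16654768) (l 16651064)))) (a (a (l 14) (b (l 16674760) (l 14))) (a (b (l 16666904) (l 16670992)) (b (l 16659072) (l 16663152))))) (c (a (b (b (l 16641368) (l 16645336)) (b (l 16649288) (l 16653232))) (b (a (l 16632008) (l 16624512)) (a (l 16650392) (b (l 16630432) (l 16634368))))) (a (b (l 16639048) (b (l 16645424) (l 16649632))) (b (a (l 16627096) (l 16619160)) (a (l 16635592) (l 16627664)))))) (a (b (b (a (l 14) (c (a (l 14) (l 16668608)) (l 16669784))) (l 14)) (l 14)) (b (a (b (c (a (l 16660968) (l 16653368)) (l 16653824)) (c (a (l 16664888) (l 16657272)) (a (l 16661976) (l 16654016)))) (a (b (l 16649104) (c (l 16649688) (l 16646072))) (c (b (l 16638280) (c (l 16643144) (l 16641192))) (b (l 16633992) (l 16638168))))) (a (a (l 14) (a (l 14)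 (b (b (l 16656752) (l 14)) (l 14)))) (a (b (c (c (l 16654376) (l 16652760)) (l 16650216)) (b (c (l 16656480) (l 16653312)) (l 14))) (a (b (c (c (l 16648776) (l 16647024)) (l 16644280)) (c (c (b (l 16651616) (l 16653512)) (l 16650960)) (c (l 16649272) (l 16647512)))) (b (c (l 16644200) (l 16640376)) (c (c (b (l 16647960) (l 16649848)) (l 16647200)) (l 16644504))))))))), by decide +kernel⟩

def k6_A05pm_012_s1 : ∃ t, chk3 f_A05pm_012_s1 t 36 7 1 = true :=
  ⟨(b (b (b (l 16702856) (a (l 16711064) (l 16775896))) (b (a (l 16632432) (l 16546360)) (a (b (l 16560840) (l 16569072)) (b (l 16545888) (l 16554096))))) (b (b (a (b (l 16661232) (l 16606608)) (c (l 16592392) (l 16561616))) (a (b (c (l 16597712) (l 16590216)) (c (l 16605616) (l 16598840))) (b (c (l 16583232) (l 16574608)) (c (l 16591088) (l 16583232))))) (b (a (b (c (a (l 16617168) (l 16609872)) (l 16607416)) (b (a (l 16625656) (l 16612856)) (c (a (l 16627016) (l 16619696))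 (l 16618072)))) (b (c (a (l 16602592) (l 16595328)) (l 16591824)) (a (c (l 16610432) (l 16604264)) (c (l 16603152) (l 16596472))))) (c (b (a (b (c (l 16628472) (l 16626024)) (c (a (l 16635896) (l 16628688)) (l 16630000))) (a (b (l 16616296) (l 16620184)) (b (l 16609000) (l 16612888)))) (a (b (a (a (l 16640528) (l 16636864)) (c (l 16632472) (l 16630240))) (a (c (b (l 16642528) (c (l 16644856) (l 16643960))) (b (l 16640624) (l 16642584))) (c (b (l 16635304) (c (l 16637688) (l 16636680))) (b (l 16633192) (l 16635144))))) (b (c (a (l 16625280) (l 16618096)) (b (l 16618112) (l 16620080))) (a (c (b (l 16628104) (c (l 16630536) (l 16629424))) (b (l 16625760) (l 16627720))) (c (b (l 16620920) (c (l 16623408) (l 16622184))) (b (l 16618352) (l 16620312))))))) (a (b (b (l 16622288) (c (l 16627672) (l 16625296))) (a (b (l 16634544) (c (l 16639672) (l 16637664))) (b (l 16626776) (a (l 16632856) (l 16628984))))) (b (b (l 16606728) (c (l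 16612344) (l 16609520))) (a (b (l 16619016) (c (b (l 16623360) (l 16625392)) (l 16621936))) (b (l 16611248) (c (b (l 16615712) (l 16617752)) (l 16614080)))))))))), by decide +kernel⟩

def k7_A05pm_012_s1 : ∃ t, chk3 f_A05pm_012_s1 t 37 7 1 = true :=
  ⟨(b (b (c (a (b (l 17528400) (l 17177048)) (b (l 17638240) (l 17472672))) (a (b (l 16746480) (l 16532664)) (b (l 16950800) (l 16632808)))) (a (b (a (l 16675880) (l 16675424)) (a (l 16538792) (l 16615568))) (b (a (l 16672656) (l 16751496)) (a (l 16525376) (l 16591456))))) (b (b (a (a (l 16576200) (l 16569000)) (a (l 16562480) (l 16536320))) (a (a (b (l 16567624) (l 16575864)) (b (l 16560360) (l 16568568))) (a (b (l 16553680) (l 16561792)) (l 16573048)))) (b (a (b (a (l 16605064) (c (l 16581032) (l 16572536))) (a (c (l 16595888) (l 16588688)) (c (l 16588800) (l 16581056)))) (b (a (l 16590864) (l 16563928)) (a (a (l 16600408) (l 16576296)) (l 16592760)))) (a (b (a (c (b (l 16601720)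 (l 16605600)) (b (l 16595056) (l 16599280))) (c (b (l 16594600) (l 16608944)) (b (l 16587416) (l 16591624)))) (a (c (b (c (l 16610936) (l 16607984)) (c (b (l 16613752) (c (l 16616296) (l 16614952))) (b (l 16610936) (l 16612896)))) (b (l 16603480) (c (b (l 16608072) (l 16610112)) (l 16606200)))) (c (c (b (l 16609144) (b (l 16606704) (a (l 16610256) (l 16606704)))) (b (l 16600696) (a (l 16606368) (l 16602688)))) (b (a (l 16597656) (l 16593792)) (a (c (l 16603360) (l 16600296)) (c (l 16599560) (l 16596376))))))) (b (a (a (c (l 16591248) (l 16583800)) (b (l 16582296) (l 16586280))) (b (l 16577672) (l 16592056))) (a (a (b (c (l 16596992) (l 16590088)) (c (c (l 16607656) (l 16599184)) (c (l 16595912) (l 16592584)))) (b (c (l 16593864) (l 16586608)) (c (b (l 16596688) (l 16598568)) (l 16590736)))) (b (c (l 16589368) (l 16581544)) (c (b (l 16592128) (l 16599200)) (b (l 16584600) (l 16586624)))))))))), by decide +kernel⟩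

def k8_A05pm_012_s1 : ∃ t, chk3 f_A05pm_012_s1 t 19 7 1 = true :=
  ⟨(b (b (c (a (a (l 17587488) (l 17776296)) (l 17921600)) (a (a (b (l 17149344) (l 16851936)) (b (l 17258840) (l 17064288))) (a (l 17111672) (l 17386032)))) (b (a (c (a (l 17317768) (l 17535728)) (a (l 16664512) (l 16818344))) (a (l 16977048) (l 17187952))) (a (a (l 16543008) (l 16530016)) (c (a (l 17464184) (l 17604600)) (a (l 16678056) (l 16843104)))))) (b (a (b (a (a (l 16531120) (l 16526160)) (l 16549832)) (a (b (l 16561856) (l 16569328)) (b (l 16530528) (l 16558520)))) (a (b (l 16523240) (b (l 16521088) (l 16527608))) (b (c (l 17206472) (l 16509752)) (b (l 16586776) (l 16518496))))) (a (b (b (a (a (l 16557992) (l 16552240)) (l 16565568)) (a (a (l 16565656) (l 16580672)) (b (l 16549896) (l 16574392)))) (a (b (a (b (l 16571400) (l 16575208)) (b (l 16565296) (l 16579496))) (a (b (c (l 16583304) (l 16574720)) (c (b (l 16585984) (l 16587760)) (b (l 16577712)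 (l 16579704)))) (b (c (l 16577408) (l 16568032)) (c (b (l 16580008) (l 16586976)) (b (l 16570968) (l 16578160)))))) (b (b (a (l 16559376) (l 16553632)) (c (l 16587056) (l 16575880))) (b (a (c (l 16571704) (l 16561496)) (c (l 16566184) (l 16555112))) (a (c (b (l 16574216) (l 16575888)) (b (l 16564368) (l 16566272))) (c (l 16574648) (l 16569328))))))) (b (a (b (l 16555136) (b (l 16539120) (l 16542416))) (b (l 16524536) (l 16551592))) (b (a (b (l 16566688) (a (l 16551448) (l 16545936))) (a (l 16560000) (l 16554912))) (c (a (b (l 16569056) (a (l 16563936) (l 16558648))) (b (l 16548560) (a (l 16553552) (l 16548640)))) (a (b (l 16556608) (a (l 16552504) (l 16546328))) (b (l 16534208) (a (l 16540296) (l 16534424)))))))))), by decide +kernel⟩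

def k9_A05pm_012_s1 : ∃ t, chk3 f_A05pm_012_s1 t 10 6 1 = true :=
  ⟨(a (a (b (l 18241056) (b (l 18121368) (l 17999064))) (b (l 6) (a (l 18154800) (b (l 6) (l 18160400))))) (b (l 6) (l 18330312))), by decide +kernel⟩

def k10_A05pm_012_s1 : ∃ t, chk3 f_A05pm_012_s1 t 10 14 1 = true :=
  ⟨(b (a (a (a (l 17687856) (l 17860632)) (a (l 17944400) (a (l 18004000) (l 18042368)))) (l 17946784)) (a (a (a (b (l 17474824) (a (l 17164136) (l 17232848))) (b (l 17670320) (l 17247568))) (a (c (l 18031592) (l 17038856)) (a (l 17531944) (a (l 17654360) (l 17511720))))) (a (c (l 18259872) (l 17565160)) (l 18126880)))), by decide +kernel⟩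

def k11_A05pm_012_s1 : ∃ t, chk3 f_A05pm_012_s1 t 20 15 1 = true :=
  ⟨(a (a (b (b (c (l 17532824) (l 16699248)) (l 16532624)) (b (b (l 16515704) (l 16542216)) (b (b (l 16525448) (l 16549224)) (b (c (l 16539320) (l 16522960)) (c (a (l 16543912) (l 16539384)) (a (l 16528720) (l 16523176))))))) (b (c (b (l 17679024) (l 17022424)) (b (l 16874776) (l 16526200))) (b (b (l 16532384) (l 16533608)) (b (b (l 16516432) (l 16539944)) (a (b (l 16523712) (c (l 16535040) (l 16517808))) (c (l 16535832) (l 16532144))))))) (b (a (c (b (l 17813848) (l 17439416)) (b (l 16953544) (l 16559864))) (a (c (l 17402400) (b (l 17151624) (l 16784112))) (a (c (l 17787360) (b (l 17206328) (l 16851032))) (c (l 17651688) (b (l 17241976) (l 16475112)))))) (a (b (c (c (l 17410216) (b (l 17162104) (l 16811640))) (b (l 16488104) (l 16493240))) (b (b (l 16523400) (l 16531320)) (b (a (l 16514784) (l 16510568)) (c (c (c (l 17051816) (l 16529680)) (l 16519936))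 (a (l 16507568) (l 16502696)))))) (c (b (a (a (l 17111080) (l 17241008)) (a (l 17201976) (b (l 17645888) (l 17343760)))) (a (c (b (l 17491096) (l 16971968)) (b (l 16780056) (l 16510120))) (a (c (b (l 17567464) (l 17310728)) (b (l 16950328) (b (l 16792080) (l 16507064)))) (a (c (b (l 17604496) (l 17185120)) (b (b (l 17123368) (l 16775304)) (a (a (l 16686856) (b (l 16750616) (l 16510552))) (l 16706544)))) (c (l 17382464) (b (l 17103704) (l 16646200))))))) (b (a (l 16493824) (a (l 16493848) (b (l 16560376) (l 16486912)))) (a (b (l 16491800) (b (l 16495472) (l 16497936))) (a (b (l 16488576) (b (l 16492112) (l 16494488))) (a (a (b (l 16508264) (a (l 16492128) (a (l 16491904) (l 16502232)))) (b (l 16486800) (l 16491408))) (b (l 16486064) (l 16490624)))))))))), by decide +kernel⟩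

def k12_A05pm_012_s1 : ∃ t, chk3 f_A05pm_012_s1 t 21 15 1 = true :=
  ⟨(b (c (a (b (l 18107232) (l 17962448)) (l 18253784)) (a (b (l 17310984) (b (l 17143712) (l 16844768))) (b (l 17636880) (l 17203544)))) (c (b (a (a (l 17351344) (l 17843232)) (l 18052232)) (a (c (b (l 17823936) (a (l 17584560) (l 17780496))) (b (a (l 17139800) (l 17420704)) (a (c (l 16836416) (b (l 16949368) (l 16673560))) (l 16921608)))) (c (l 18089976) (b (l 17682376) (l 17215640))))) (b (b (a (l 16526792) (l 17116856)) (a (l 16479840) (c (l 17365504) (l 16766752)))) (a (b (a (l 16482032) (l 16518664)) (a (b (l 16485168) (l 16487288)) (b (l 16526640) (l 16479792)))) (c (b (l 16805688) (a (b (l 17003704) (l 16742176)) (l 16994168))) (b (l 16472448) (b (l 16455488) (l 16477184)))))))), by decide +kernel⟩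

def k13_A05pm_012_s1 : ∃ t, chk3 f_A05pm_012_s1 t 11 3 1 = true :=
  ⟨(b (l 6) (b (l 6) (a (a (b (c (l 18434664) (l 17443864)) (c (b (l 18289728) (l 18146352)) (b (l 17017304) (c (b (l 17557872) (l 17266152)) (b (l 16968256) (a (l 16721176) (l 17077288))))))) (l 6)) (l 6)))), by decide +kernel⟩

def k14_A05pm_012_s1 : ∃ t, chk3 f_A05pm_012_s1 t 3 1 1 = true :=
  ⟨(b (l 6) (l 6)), by decide +kernel⟩

theorem t15_A05pm_012_s1 : ∃ t, chk3 f_A05pm_012_s1 t 10 15 1 = true := ex3_a k11_A05pm_012_s1 k12_A05pm_012_s1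

theorem t16_A05pm_012_s1 : ∃ t, chk3 f_A05pm_012_s1 t 10 7 1 = true := ex3_b k10_A05pm_012_s1 t15_A05pm_012_s1

theorem t17_A05pm_012_s1 : ∃ t, chk3 f_A05pm_012_s1 t 10 3 1 = true := ex3_b k9_A05pm_012_s1 t16_A05pm_012_s1

theorem t18_A05pm_012_s1 : ∃ t, chk3 f_A05pm_012_s1 t 5 3 1 = true := ex3_a t17_A05pm_012_s1 k13_A05pm_012_s1

theorem t19_A05pm_012_s1 : ∃ t, chk3 f_A05pm_012_s1 t 18 7 1 = true := ex3_a k6_A05pm_012_s1 k7_A05pm_012_s1

theorem t20_A05pm_012_s1 : ∃ t, chk3 f_A05pm_012_s1 t 9 7 1 = true := ex3_a t19_A05pm_012_s1 k8_A05pm_012_s1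

theorem t21_A05pm_012_s1 : ∃ t, chk3 f_A05pm_012_s1 t 17 15 1 = true := ex3_b k4_A05pm_012_s1 k5_A05pm_012_s1

theorem t22_A05pm_012_s1 : ∃ t, chk3 f_A05pm_012_s1 t 17 7 1 = true := ex3_b k3_A05pm_012_s1 t21_A05pm_012_s1

theorem t23_A05pm_012_s1 : ∃ t, chk3 f_A05pm_012_s1 t 8 7 1 = true := ex3_a k2_A05pm_012_s1 t22_A05pm_012_s1

theorem t24_A05pm_012_s1 : ∃ t, chk3 f_A05pm_012_s1 t 4 7 1 = true := ex3_a t23_A05pm_012_s1 t20_A05pm_012_s1

theorem t25_A05pm_012_s1 : ∃ t, chk3 f_A05pm_012_s1 t 4 3 1 = true := ex3_b k1_A05pm_012_s1 t24_A05pm_012_s1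

theorem t26_A05pm_012_s1 : ∃ t, chk3 f_A05pm_012_s1 t 2 3 1 = true := ex3_a t25_A05pm_012_s1 t18_A05pm_012_s1

theorem t27_A05pm_012_s1 : ∃ t, chk3 f_A05pm_012_s1 t 2 1 1 = true := ex3_b k0_A05pm_012_s1 t26_A05pm_012_s1

theorem t28_A05pm_012_s1 : ∃ t, chk3 f_A05pm_012_s1 t 1 1 1 = true := ex3_a t27_A05pm_012_s1 k14_A05pm_012_s1

theorem c_A05pm_012_s1 : CertF 0 536870912 536870912 536870912 134217728 67108864 true true false .pnp 0 1 2
    ndF0q0 ndF5q1 pcF2 cut_A05pm_012_s1 Ext.none :=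
  certFK2 (fam := true) (s1 := true) (s2 := false) (a := 0) (b := 1) (c := 2) (cn := .pnp) (n1 := ndF0q0) (n2 := ndF5q1) (pc := pcF2) (cut := cut_A05pm_012_s1) (xt := Ext.none) (P1 := 0) (W1 := 536870912) (P2 := 536870912) (W2 := 536870912) (P3 := 134217728) (W3 := 67108864)
    rfl rfl rfl (fun _ => rfl) t28_A05pm_012_s1

theorem s_A05pm_012_s1 {κ x : ℝ} (hκ : κ * h0 = ken x) (hx : ((134217728 : ℕ) : ℝ) / S ≤ x)
    (hx' : x ≤ (((134217728 : ℕ) : ℝ) + (67108864 : ℕ)) / S)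
    (H : CutA (VF κ) PP tKF tL pcF (Cut.of [[⟨0, 0, 0, 67108864⟩, ⟨1, 1, 0, 67108864⟩, ⟨2, 1, 0, 67108864⟩]]) 0 1 2 0 5 (sgb true) (sgb false) x) :
    AltA (VF κ) PP tKF tL pcF [⟨3, 0, 0, 1449551462⟩] 0 1 2 0 5 (sgb true) (sgb false) x :=
  strip_altA (m := 1449551462) true rfl hκ covF00 covF51 hx hx' c_A05pm_012_s1 H (noExt_A)

noncomputable def cut_A05pm_022_s1 : Cut := Cut.of [[⟨4, 0, 0, 1449551462⟩], [⟨0, 0, 0, 67108864⟩, ⟨1, 1, 0, 67108864⟩, ⟨2, 1, 0, 67108864⟩]]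

noncomputable def f_A05pm_022_s1 : ℕ → ℕ → ℕ → ℕ → Bool := onCell 1073741824 536870912 1073741824 536870912 134217728 67108864
    (rowFK 2 true true false .pp 0 2 2 (qsf 0 536870912 1073741824 536870912 2) ndF0q0 ndF5q2 pcF2 cut_A05pm_022_s1 Ext.none)

def k0_A05pm_022_s1 : ∃ t, chk3 f_A05pm_022_s1 t 8 4 1 = true :=
  ⟨(b (a (b (l 14) (b (l 14) (l 1))) (b (a (l 14) (a (l 14) (a (l 14) (a (l 14) (b (b (b (c (b (l 16649776) (l 16649352)) (l 16646352)) (l 16649936)) (l 16646176)) (b (l 16644416) (l 16642200))))))) (a (b (l 14) (b (l 14) (l 1))) (b (a (l 14) (b (l 16686704) (l 16683568))) (a (b (l 14) (a (l 1) (l 216929243239))) (b (l 16698048) (a (b (l 14) (l 214244866439)) (l 16687192)))))))) (b (a (l 1) (a (l 1) (b (a (l 1) (b (a (l 1) (l 216392345367)) (l 1))) (l 1)))) (l 1))), by decide +kernel⟩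

def k1_A05pm_022_s1 : ∃ t, chk3 f_A05pm_022_s1 t 36 8 1 = true :=
  ⟨(b (b (b (c (a (a (b (c (a (l 16646696) (l 16643088)) (l 16643208)) (l 16643192)) (b (a (c (l 16639480) (l 16637648)) (c (l 16635880) (l 16633936))) (l 16635912))) (b (c (a (a (l 16632288) (l 16628696)) (a (l 16625112) (l 16621528))) (b (a (l 16628544) (l 16621144)) (l 16624520))) (c (l 16625992) (l 16624016)))) (a (a (b (c (l 16641448) (l 16639616)) (l 16640112)) (b (c (l 16633824) (l 16631784)) (l 16632424))) (a (b (c (l 16626208) (l 16623952)) (l 16624752)) (b (c (l 16618592) (l 16616120)) (l 16617072))))) (a (c (b (l 16638624) (l 16637648)) (b (l 16635776) (l 16635224))) (c (b (l 16624168) (l 16623256)) (b (l 16620520) (l 16620056))))) (b (a (c (l 16636056) (l 16634264)) (c (l 16621768) (l 16619232))) (a (c (l 16633552) (l 16632528)) (c (l 16619440) (l 16617776))))) (b (b (a (l 16630160) (l 16616160)) (l 16640624)) (a (l 16675232) (l 16648840)))), by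 decide +kernel⟩

def k2_A05pm_022_s1 : ∃ t, chk3 f_A05pm_022_s1 t 37 8 1 = true :=
  ⟨(b (b (b (a (b (a (c (b (c (b (l 16616464) (l 16616264)) (l 16613744)) (l 16614720)) (a (l 16611576) (l 16607712))) (c (a (c (l 16610808) (l 16608064)) (c (l 16607256) (l 16604400))) (b (c (l 16603520) (l 16600536)) (l 16601952)))) (a (c (l 16614168) (l 16609400)) (c (l 16607024) (l 16601800)))) (b (a (a (c (c (l 16603888) (l 16600880)) (b (l 16596304) (l 16596240))) (c (l 16599176) (l 16592728))) (c (b (l 16594696) (l 16594336)) (b (l 16587600) (l 16587512)))) (a (c (l 16600152) (l 16594376)) (l 16595824)))) (a (a (c (l 16612960) (l 16608904)) (c (l 16605856) (l 16601360))) (a (c (l 16598984) (l 16593976)) (l 16589744)))) (b (c (a (l 16628736) (l 16594056)) (a (l 16604416) (l 16589760))) (a (c (l 16605600) (l 16603176)) (l 16611256)))) (b (a (b (l 16644112) (l 16598864)) (b (l 16588232) (l 16585520))) (a (l 16676800) (l 16663304)))), by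 decide +kernel⟩

def k3_A05pm_022_s1 : ∃ t, chk3 f_A05pm_022_s1 t 18 9 1 = true :=
  ⟨(b (a (b (a (b (a (l 85932724615) (l 16673648)) (l 216392334007)) (b (l 16712776) (l 69826554631))) (a (l 1) (b (l 215855436311) (l 1)))) (b (a (l 16689960) (l 16657544)) (a (b (l 16654568) (l 215318538631)) (b (l 16685744) (l 16641128))))) (a (l 1) (b (a (l 1) (l 219613496727)) (l 1)))), by decide +kernel⟩

def k4_A05pm_022_s1 : ∃ t, chk3 f_A05pm_022_s1 t 19 4 1 = true :=
  ⟨(b (a (b (b (b (b (b (a (a (c (l 16588464) (l 16580648)) (c (l 16582392) (l 16573832))) (a (c (l 16576496) (l 16567160)) (c (l 16570776) (l 16560624)))) (a (c (a (l 16588072) (l 16581976)) (a (l 16580552) (l 16573720))) (c (l 16583976) (l 16574528)))) (a (a (l 16583936) (c (l 16581320) (l 16573512))) (a (l 16571064) (l 16564856)))) (a (a (l 16583048) (l 16576472)) (b (l 16588488) (l 16566736)))) (b (a (l 16578520) (l 16565440)) (a (l 16576712) (l 16563480)))) (b (b (l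 16589264) (l 16649264)) (b (l 16645896) (l 16641544)))) (b (b (b (a (a (b (c (l 16564960) (l 16554136)) (l 16558800)) (b (c (l 16559576) (l 16547880)) (l 16552904))) (a (b (c (l 16554368) (l 16541768)) (l 16547168)) (c (l 16559176) (l 16546024)))) (a (b (l 16555240) (l 16554336)) (l 16564048))) (b (a (l 16552880) (l 16540920)) (l 16566088))) (b (a (l 16547032) (l 16534544)) (l 16576176)))) (a (b (b (l 16634360) (l 16646808)) (b (a (b (l 16627696) (l 215318485063)) (l 16626120)) (a (l 1) (l 223908410519)))) (b (b (l 16609560) (l 16598528)) (b (l 16619936) (a (l 133714034951) (l 16641192)))))), by decide +kernel⟩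

def k5_A05pm_022_s1 : ∃ t, chk3 f_A05pm_022_s1 t 4 5 1 = true :=
  ⟨(a (l 1) (b (a (l 1) (b (a (l 1) (b (l 227666484071) (l 1))) (l 1))) (l 1))), by decide +kernel⟩

def k6_A05pm_022_s1 : ∃ t, chk3 f_A05pm_022_s1 t 10 4 1 = true :=
  ⟨(a (b (a (b (a (b (b (a (c (l 16554304) (l 16529704)) (c (l 16539128) (l 16524040))) (l 16552992)) (l 16549272)) (b (b (b (c (l 16543840) (l 16526824)) (l 16544528)) (l 16542608)) (l 16538456))) (b (l 16559000) (l 16593888))) (b (a (b (b (b (a (c (l 16517784) (l 16508488)) (b (l 16524072) (l 16512888))) (l 16535016)) (l 16532872)) (l 16528288)) (b (c (b (c (a (l 17102216) (a (l 17278912) (l 17254728))) (a (l 16515376) (a (l 16515744) (b (a (a (a (l 16728280) (l 16505992)) (l 16749320)) (l 16774440)) (l 16493224))))) (a (l 16771784) (a (l 16869448) (l 16596784)))) (b (a (l 16519104) (a (l 16505072) (b (a (a (a (l 16493920) (l 16509328)) (l 16493184)) (l 16492368)) (l 16491760)))) (a (l 16495920)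 (a (l 16492272) (l 16489960))))) (a (l 16500192) (a (l 16496768) (l 16494600))))) (a (b (l 16500528) (l 16492904)) (b (a (l 16493000) (l 16530096)) (l 16524216))))) (a (b (b (l 16585240) (l 16575152)) (l 16573640)) (a (b (l 16563024) (l 16539752)) (b (b (l 16557256) (l 16545368)) (a (l 16532144) (l 16526400)))))) (b (a (b (b (b (c (c (l 17420128) (a (b (l 16668192) (l 16905856)) (l 17065232))) (b (a (l 16487736) (l 16479976)) (l 16503744))) (c (c (l 17552048) (l 16754240)) (l 16480624))) (b (l 16541960) (l 16605264))) (b (l 16662312) (l 16634160))) (c (b (b (a (l 17348864) (l 17779336)) (l 17623456)) (l 17450144)) (b (a (b (b (l 16462672) (l 16565872)) (l 16535688)) (b (c (l 16795944) (l 16452944)) (l 16755656))) (l 16470664)))) (b (a (l 16608456) (l 16830280)) (a (l 16605368) (l 16962520))))), by decide +kernel⟩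

def k7_A05pm_022_s1 : ∃ t, chk3 f_A05pm_022_s1 t 10 5 1 = true :=
  ⟨(b (a (b (b (a (a (l 16603832) (l 16530056)) (l 16576808)) (a (l 229277042311) (a (l 16701848) (a (l 16509632) (l 16492848))))) (a (l 1) (b (a (l 1) (l 235182533095)) (l 1)))) (b (l 16635944) (a (b (l 16685984) (l 234646050999)) (l 37614436103)))) (a (l 1) (b (l 256658182247) (l 1)))), by decide +kernel⟩

def k8_A05pm_022_s1 : ∃ t, chk3 f_A05pm_022_s1 t 11 2 1 = true :=
  ⟨(b (b (b (a (c (a (l 17642568) (l 18242336)) (b (b (a (c (l 17348440) (a (l 16786616) (l 16984552))) (l 17293456)) (a (l 16837832) (l 17429048))) (a (l 16881624) (l 17383880)))) (l 6)) (a (c (l 17642864) (a (l 16729672) (l 17304768))) (a (l 17696104) (l 6)))) (a (b (a (l 17242072) (l 17603512)) (l 16900472)) (a (b (l 17839360) (l 17754616)) (l 17823800)))) (b (a (b (l 17028888) (l 17351216)) (b (l 17621232) (l 17744776))) (a (b (a (l 170221620183) (l 17464184)) (l 309809393831)) (b (l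 17721592) (l 17647816))))), by decide +kernel⟩

def k9_A05pm_022_s1 : ∃ t, chk3 f_A05pm_022_s1 t 2 3 1 = true :=
  ⟨(a (l 1) (a (l 1) (b (b (a (l 1) (l 341485531927)) (l 1)) (l 1)))), by decide +kernel⟩

def k10_A05pm_022_s1 : ∃ t, chk3 f_A05pm_022_s1 t 3 1 1 = true :=
  ⟨(b (a (a (b (l 6) (b (a (l 18077448) (l 6)) (l 18105112))) (l 6)) (l 6)) (a (b (a (b (a (l 291019748967) (l 18162552)) (l 360813594327)) (l 6)) (a (l 1) (l 369405068615))) (l 6))), by decide +kernel⟩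

theorem t11_A05pm_022_s1 : ∃ t, chk3 f_A05pm_022_s1 t 10 2 1 = true := ex3_b k6_A05pm_022_s1 k7_A05pm_022_s1

theorem t12_A05pm_022_s1 : ∃ t, chk3 f_A05pm_022_s1 t 5 2 1 = true := ex3_a t11_A05pm_022_s1 k8_A05pm_022_s1

theorem t13_A05pm_022_s1 : ∃ t, chk3 f_A05pm_022_s1 t 18 8 1 = true := ex3_a k1_A05pm_022_s1 k2_A05pm_022_s1

theorem t14_A05pm_022_s1 : ∃ t, chk3 f_A05pm_022_s1 t 18 4 1 = true := ex3_b t13_A05pm_022_s1 k3_A05pm_022_s1

theorem t15_A05pm_022_s1 : ∃ t, chk3 f_A05pm_022_s1 t 9 4 1 = true := ex3_a t14_A05pm_022_s1 k4_A05pm_022_s1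

theorem t16_A05pm_022_s1 : ∃ t, chk3 f_A05pm_022_s1 t 4 4 1 = true := ex3_a k0_A05pm_022_s1 t15_A05pm_022_s1

theorem t17_A05pm_022_s1 : ∃ t, chk3 f_A05pm_022_s1 t 4 2 1 = true := ex3_b t16_A05pm_022_s1 k5_A05pm_022_s1

theorem t18_A05pm_022_s1 : ∃ t, chk3 f_A05pm_022_s1 t 2 2 1 = true := ex3_a t17_A05pm_022_s1 t12_A05pm_022_s1

theorem t19_A05pm_022_s1 : ∃ t, chk3 f_A05pm_022_s1 t 2 1 1 = true := ex3_b t18_A05pm_022_s1 k9_A05pm_022_s1

theorem t20_A05pm_022_s1 : ∃ t, chk3 f_A05pm_022_s1 t 1 1 1 = true := ex3_a t19_A05pm_022_s1 k10_A05pm_022_s1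

theorem c_A05pm_022_s1 : CertF 0 536870912 1073741824 536870912 134217728 67108864 true true false .pp 0 2 2
    ndF0q0 ndF5q2 pcF2 cut_A05pm_022_s1 Ext.none :=
  certFK2 (fam := true) (s1 := true) (s2 := false) (a := 0) (b := 2) (c := 2) (cn := .pp) (n1 := ndF0q0) (n2 := ndF5q2) (pc := pcF2) (cut := cut_A05pm_022_s1) (xt := Ext.none) (P1 := 0) (W1 := 536870912) (P2 := 1073741824) (W2 := 536870912) (P3 := 134217728) (W3 := 67108864)
    rfl rfl rfl (fun _ => rfl) t20_A05pm_022_s1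

theorem s_A05pm_022_s1 {κ x : ℝ} (hκ : κ * h0 = ken x) (hx : ((134217728 : ℕ) : ℝ) / S ≤ x)
    (hx' : x ≤ (((134217728 : ℕ) : ℝ) + (67108864 : ℕ)) / S)
    (H : CutA (VF κ) PP tKF tL pcF (Cut.of [[⟨0, 0, 0, 67108864⟩, ⟨1, 1, 0, 67108864⟩, ⟨2, 1, 0, 67108864⟩]]) 0 2 2 0 5 (sgb true) (sgb false) x) :
    AltA (VF κ) PP tKF tL pcF [⟨3, 0, 0, 1449551462⟩] 0 2 2 0 5 (sgb true) (sgb false) x :=
  strip_altA (m := 1449551462) true rfl hκ covF00 covF52 hx hx' c_A05pm_022_s1 H (noExt_A)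

noncomputable def cut_A05pm_023_s1 : Cut := Cut.of [[⟨4, 0, 0, 1449551462⟩]]

noncomputable def f_A05pm_023_s1 : ℕ → ℕ → ℕ → ℕ → Bool := onCell 1610612736 536870912 1073741824 536870912 134217728 67108864
    (rowFK 2 true true false .up 0 2 3 (qsf 0 536870912 1073741824 536870912 3) ndF0q0 ndF5q2 pcF3 cut_A05pm_023_s1 Ext.none)

def k0_A05pm_023_s1 : ∃ t, chk3 f_A05pm_023_s1 t 1 1 1 = true :=
  ⟨(a (l 6) (l 6)), by decide +kernel⟩

theorem c_A05pm_023_s1 : CertF 0 536870912 1073741824 536870912 134217728 67108864 true true false .up 0 2 3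
    ndF0q0 ndF5q2 pcF3 cut_A05pm_023_s1 Ext.none :=
  certFK2 (fam := true) (s1 := true) (s2 := false) (a := 0) (b := 2) (c := 3) (cn := .up) (n1 := ndF0q0) (n2 := ndF5q2) (pc := pcF3) (cut := cut_A05pm_023_s1) (xt := Ext.none) (P1 := 0) (W1 := 536870912) (P2 := 1073741824) (W2 := 536870912) (P3 := 134217728) (W3 := 67108864)
    rfl rfl rfl (fun _ => rfl) k0_A05pm_023_s1

theorem s_A05pm_023_s1 {κ x : ℝ} (hκ : κ * h0 = ken x) (hx : ((134217728 : ℕ) : ℝ) / S ≤ x)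
    (hx' : x ≤ (((134217728 : ℕ) : ℝ) + (67108864 : ℕ)) / S) :
    AltA (VF κ) PP tKF tL pcF [⟨3, 0, 0, 1449551462⟩] 0 2 3 0 5 (sgb true) (sgb false) x :=
  strip_altA (m := 1449551462) true rfl hκ covF00 covF52 hx hx' c_A05pm_023_s1 cutA_nil (noExt_A)

noncomputable def cut_A05pm_033_s1 : Cut := Cut.of [[⟨4, 0, 0, 1449551462⟩]]

noncomputable def f_A05pm_033_s1 : ℕ → ℕ → ℕ → ℕ → Bool := onCell 1610612736 536870912 0 1230186008 134217728 67108864
    (rowFK 2 true true false .pnn 0 3 3 (qsf 0 536870912 0 1230186008 3) ndF0q0 ndF5q3 pcF3 cut_A05pm_033_s1 Ext.none)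

def k0_A05pm_033_s1 : ∃ t, chk3 f_A05pm_033_s1 t 1 1 1 = true :=
  ⟨(b (l 6) (l 6)), by decide +kernel⟩

theorem c_A05pm_033_s1 : CertF 0 536870912 0 1230186008 134217728 67108864 true true false .pnn 0 3 3
    ndF0q0 ndF5q3 pcF3 cut_A05pm_033_s1 Ext.none :=
  certFK2 (fam := true) (s1 := true) (s2 := false) (a := 0) (b := 3) (c := 3) (cn := .pnn) (n1 := ndF0q0) (n2 := ndF5q3) (pc := pcF3) (cut := cut_A05pm_033_s1) (xt := Ext.none) (P1 := 0) (W1 := 536870912) (P2 := 0) (W2 := 1230186008) (P3 := 134217728) (W3 := 67108864)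
    rfl rfl rfl (fun _ => rfl) k0_A05pm_033_s1

theorem s_A05pm_033_s1 {κ x : ℝ} (hκ : κ * h0 = ken x) (hx : ((134217728 : ℕ) : ℝ) / S ≤ x)
    (hx' : x ≤ (((134217728 : ℕ) : ℝ) + (67108864 : ℕ)) / S) :
    AltA (VF κ) PP tKF tL pcF [⟨3, 0, 0, 1449551462⟩] 0 3 3 0 5 (sgb true) (sgb false) x :=
  strip_altA (m := 1449551462) true rfl hκ covF00 covF53 hx hx' c_A05pm_033_s1 cutA_nil (noExt_A)

end Pool.Agent.Strip051.G.I1_8_3_16.Tab.St.C
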