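import Pool.Agent.Strip051.G.I1_8_3_16.StF

/-! # Unit strips 5 (generated) -/

set_option linter.all false
set_option maxRecDepth 100000

namespace Pool.Agent.Strip051.G.I1_8_3_16.Tab.St.C

open Pool.Agent.Strip051.PB Pool.Agent.Strip051.PB.T Pool.Agent.StripNear Pool.Agent.Strip051.LC
open Pool.Agent.Strip051.G.I1_8_3_16.Tab Pool.Agent.Strip051.G.I1_8_3_16.Tab.St

noncomputable def cut_A05pm_101_s1 : Cut := Cut.of [[⟨4, 0, 0, 1449551462⟩]]

noncomputable def xt_A05pm_101_s1 : Ext := strExt dd true true false .u0 .s0m .u0m .npn 1 0 1 rfl rfl gf1 vv ndF0q1 ndF5q0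

noncomputable def f_A05pm_101_s1 : ℕ → ℕ → ℕ → ℕ → Bool := onCell 536870912 536870912 536870912 536870912 134217728 67108864
    (rowFK 1 true true false .npn 1 0 1 (qsf 536870912 536870912 0 536870912 1) ndF0q1 ndF5q0 pcF1 cut_A05pm_101_s1 xt_A05pm_101_s1)

def k0_A05pm_101_s1 : ∃ t, chk3 f_A05pm_101_s1 t 1 1 1 = true :=
  ⟨(b (a (b (a (b (l 559221519) (l 557377295)) (a (b (l 1) (l 556499983)) (l 1))) (a (b (b (l 556347919) (a (l 556653071) (l 17003640))) (a (a (l 557014031) (l 556002831)) (l 554762767))) (a (a (b (l 17172056) (l 17327064)) (l 186329890567)) (l 180424590631)))) (b (l 1) (a (a (l 221227257351) (l 1)) (l 1)))) (a (a (a (b (b (b (l 17205240) (l 17300328)) (l 17447768)) (b (l 17652016) (l 17871992))) (b (b (l 17386712) (l 17560472)) (b (l 17744672) (l 17944792)))) (b (b (a (l 17518752) (l 17660296)) (l 17740408)) (b (l 17892808) (l 6)))) (b (a (a (l 6) (l 6)) (l 6)) (l 6)))), by decide +kernel⟩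

theorem c_A05pm_101_s1 : CertF 536870912 536870912 0 536870912 134217728 67108864 true true false .npn 1 0 1
    ndF0q1 ndF5q0 pcF1 cut_A05pm_101_s1 xt_A05pm_101_s1 :=
  certFK1 (fam := true) (s1 := true) (s2 := false) (a := 1) (b := 0) (c := 1) (cn := .npn) (n1 := ndF0q1) (n2 := ndF5q0) (pc := pcF1) (cut := cut_A05pm_101_s1) (xt := xt_A05pm_101_s1) (P1 := 536870912) (W1 := 536870912) (P2 := 0) (W2 := 536870912) (P3 := 134217728) (W3 := 67108864)
    rfl rfl rfl (fun _ => rfl) k0_A05pm_101_s1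

theorem s_A05pm_101_s1 {κ x : ℝ} (hκ : κ * h0 = ken x) (hx : ((134217728 : ℕ) : ℝ) / S ≤ x)
    (hx' : x ≤ (((134217728 : ℕ) : ℝ) + (67108864 : ℕ)) / S) :
    AltA (VF κ) PP tKF tL pcF [⟨3, 0, 0, 1449551462⟩] 1 0 1 0 5 (sgb true) (sgb false) x :=
  strip_altA (m := 1449551462) true rfl hκ covF01 covF50 hx hx' c_A05pm_101_s1 cutA_nil ((okx hx hx').extA (T := tt) (sideF hx hx') hκ rfl rfl (.O 1 true) (.N 0 false) (Or.inr rfl))

noncomputable def cut_A05pm_102_s1 : Cut := Cut.of [[⟨4, 0, 0, 1449551462⟩]]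

noncomputable def f_A05pm_102_s1 : ℕ → ℕ → ℕ → ℕ → Bool := onCell 536870912 536870912 1073741824 536870912 134217728 67108864
    (rowFK 1 true true false .npp 1 0 2 (qsf 536870912 536870912 0 536870912 2) ndF0q1 ndF5q0 pcF2 cut_A05pm_102_s1 Ext.none)

def k0_A05pm_102_s1 : ∃ t, chk3 f_A05pm_102_s1 t 1 1 1 = true :=
  ⟨(a (b (a (b (b (a (l 18242248) (l 6)) (l 6)) (l 6)) (l 6)) (l 6)) (l 6)), by decide +kernel⟩

theorem c_A05pm_102_s1 : CertF 536870912 536870912 0 536870912 134217728 67108864 true true false .npp 1 0 2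
    ndF0q1 ndF5q0 pcF2 cut_A05pm_102_s1 Ext.none :=
  certFK1 (fam := true) (s1 := true) (s2 := false) (a := 1) (b := 0) (c := 2) (cn := .npp) (n1 := ndF0q1) (n2 := ndF5q0) (pc := pcF2) (cut := cut_A05pm_102_s1) (xt := Ext.none) (P1 := 536870912) (W1 := 536870912) (P2 := 0) (W2 := 536870912) (P3 := 134217728) (W3 := 67108864)
    rfl rfl rfl (fun _ => rfl) k0_A05pm_102_s1

theorem s_A05pm_102_s1 {κ x : ℝ} (hκ : κ * h0 = ken x) (hx : ((134217728 : ℕ) : ℝ) / S ≤ x)
    (hx' : x ≤ (((134217728 : ℕ) : ℝ) + (67108864 : ℕ)) / S) :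
    AltA (VF κ) PP tKF tL pcF [⟨3, 0, 0, 1449551462⟩] 1 0 2 0 5 (sgb true) (sgb false) x :=
  strip_altA (m := 1449551462) true rfl hκ covF01 covF50 hx hx' c_A05pm_102_s1 cutA_nil (noExt_A)

noncomputable def cut_A05pm_112_s1 : Cut := Cut.of [[⟨4, 0, 0, 1449551462⟩]]

noncomputable def f_A05pm_112_s1 : ℕ → ℕ → ℕ → ℕ → Bool := onCell 536870912 536870912 1073741824 536870912 134217728 67108864
    (rowFK 1 true true false .dn 1 1 2 (qsf 536870912 536870912 536870912 536870912 2) ndF0q1 ndF5q1 pcF2 cut_A05pm_112_s1 Ext.none)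

def k0_A05pm_112_s1 : ∃ t, chk3 f_A05pm_112_s1 t 1 1 1 = true :=
  ⟨(a (b (a (b (b (l 18282520) (l 6)) (l 6)) (l 6)) (l 6)) (l 6)), by decide +kernel⟩

theorem c_A05pm_112_s1 : CertF 536870912 536870912 536870912 536870912 134217728 67108864 true true false .dn 1 1 2
    ndF0q1 ndF5q1 pcF2 cut_A05pm_112_s1 Ext.none :=
  certFK1 (fam := true) (s1 := true) (s2 := false) (a := 1) (b := 1) (c := 2) (cn := .dn) (n1 := ndF0q1) (n2 := ndF5q1) (pc := pcF2) (cut := cut_A05pm_112_s1) (xt := Ext.none) (P1 := 536870912) (W1 := 536870912) (P2 := 536870912) (W2 := 536870912) (P3 := 134217728) (W3 := 67108864)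
    rfl rfl rfl (fun _ => rfl) k0_A05pm_112_s1

theorem s_A05pm_112_s1 {κ x : ℝ} (hκ : κ * h0 = ken x) (hx : ((134217728 : ℕ) : ℝ) / S ≤ x)
    (hx' : x ≤ (((134217728 : ℕ) : ℝ) + (67108864 : ℕ)) / S) :
    AltA (VF κ) PP tKF tL pcF [⟨3, 0, 0, 1449551462⟩] 1 1 2 0 5 (sgb true) (sgb false) x :=
  strip_altA (m := 1449551462) true rfl hκ covF01 covF51 hx hx' c_A05pm_112_s1 cutA_nil (noExt_A)

noncomputable def cut_A05pm_113_s1 : Cut := Cut.of [[⟨4, 0, 0, 1449551462⟩]]

noncomputable def f_A05pm_113_s1 : ℕ → ℕ → ℕ → ℕ → Bool := onCell 536870912 536870912 1610612736 536870912 134217728 67108864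
    (rowFK 1 true true false .nn 1 1 3 (qsf 536870912 536870912 536870912 536870912 3) ndF0q1 ndF5q1 pcF3 cut_A05pm_113_s1 Ext.none)

def k0_A05pm_113_s1 : ∃ t, chk3 f_A05pm_113_s1 t 1 1 1 = true :=
  ⟨(l 6), by decide +kernel⟩

theorem c_A05pm_113_s1 : CertF 536870912 536870912 536870912 536870912 134217728 67108864 true true false .nn 1 1 3
    ndF0q1 ndF5q1 pcF3 cut_A05pm_113_s1 Ext.none :=
  certFK1 (fam := true) (s1 := true) (s2 := false) (a := 1) (b := 1) (c := 3) (cn := .nn) (n1 := ndF0q1) (n2 := ndF5q1) (pc := pcF3) (cut := cut_A05pm_113_s1) (xt := Ext.none) (P1 := 536870912) (W1 := 536870912) (P2 := 536870912) (W2 := 536870912) (P3 := 134217728) (W3 := 67108864)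
    rfl rfl rfl (fun _ => rfl) k0_A05pm_113_s1

theorem s_A05pm_113_s1 {κ x : ℝ} (hκ : κ * h0 = ken x) (hx : ((134217728 : ℕ) : ℝ) / S ≤ x)
    (hx' : x ≤ (((134217728 : ℕ) : ℝ) + (67108864 : ℕ)) / S) :
    AltA (VF κ) PP tKF tL pcF [⟨3, 0, 0, 1449551462⟩] 1 1 3 0 5 (sgb true) (sgb false) x :=
  strip_altA (m := 1449551462) true rfl hκ covF01 covF51 hx hx' c_A05pm_113_s1 cutA_nil (noExt_A)

noncomputable def cut_A05pm_123_s1 : Cut := Cut.of [[⟨4, 0, 0, 1449551462⟩]]

noncomputable def f_A05pm_123_s1 : ℕ → ℕ → ℕ → ℕ → Bool := onCell 536870912 536870912 1073741824 536870912 134217728 67108864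
    (rowFK 0 true true false .npn 1 2 3 (qsf 536870912 536870912 1073741824 536870912 3) ndF0q1 ndF5q2 pcF3 cut_A05pm_123_s1 Ext.none)

def k0_A05pm_123_s1 : ∃ t, chk3 f_A05pm_123_s1 t 1 1 1 = true :=
  ⟨(l 6), by decide +kernel⟩

theorem c_A05pm_123_s1 : CertF 536870912 536870912 1073741824 536870912 134217728 67108864 true true false .npn 1 2 3
    ndF0q1 ndF5q2 pcF3 cut_A05pm_123_s1 Ext.none :=
  certFK0 (fam := true) (s1 := true) (s2 := false) (a := 1) (b := 2) (c := 3) (cn := .npn) (n1 := ndF0q1) (n2 := ndF5q2) (pc := pcF3) (cut := cut_A05pm_123_s1) (xt := Ext.none) (P1 := 536870912) (W1 := 536870912) (P2 := 1073741824) (W2 := 536870912) (P3 := 134217728) (W3 := 67108864)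
    rfl rfl rfl k0_A05pm_123_s1

theorem s_A05pm_123_s1 {κ x : ℝ} (hκ : κ * h0 = ken x) (hx : ((134217728 : ℕ) : ℝ) / S ≤ x)
    (hx' : x ≤ (((134217728 : ℕ) : ℝ) + (67108864 : ℕ)) / S) :
    AltA (VF κ) PP tKF tL pcF [⟨3, 0, 0, 1449551462⟩] 1 2 3 0 5 (sgb true) (sgb false) x :=
  strip_altA (m := 1449551462) true rfl hκ covF01 covF52 hx hx' c_A05pm_123_s1 cutA_nil (noExt_A)

noncomputable def cut_A05pm_133_s1 : Cut := Cut.of [[⟨4, 0, 0, 1449551462⟩]]

noncomputable def f_A05pm_133_s1 : ℕ → ℕ → ℕ → ℕ → Bool := onCell 536870912 536870912 0 1230186008 134217728 67108864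
    (rowFK 0 true true false .dn 1 3 3 (qsf 536870912 536870912 0 1230186008 3) ndF0q1 ndF5q3 pcF3 cut_A05pm_133_s1 Ext.none)

def k0_A05pm_133_s1 : ∃ t, chk3 f_A05pm_133_s1 t 1 1 1 = true :=
  ⟨(l 6), by decide +kernel⟩

theorem c_A05pm_133_s1 : CertF 536870912 536870912 0 1230186008 134217728 67108864 true true false .dn 1 3 3
    ndF0q1 ndF5q3 pcF3 cut_A05pm_133_s1 Ext.none :=
  certFK0 (fam := true) (s1 := true) (s2 := false) (a := 1) (b := 3) (c := 3) (cn := .dn) (n1 := ndF0q1) (n2 := ndF5q3) (pc := pcF3) (cut := cut_A05pm_133_s1) (xt := Ext.none) (P1 := 536870912) (W1 := 536870912) (P2 := 0) (W2 := 1230186008) (P3 := 134217728) (W3 := 67108864)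
    rfl rfl rfl k0_A05pm_133_s1

theorem s_A05pm_133_s1 {κ x : ℝ} (hκ : κ * h0 = ken x) (hx : ((134217728 : ℕ) : ℝ) / S ≤ x)
    (hx' : x ≤ (((134217728 : ℕ) : ℝ) + (67108864 : ℕ)) / S) :
    AltA (VF κ) PP tKF tL pcF [⟨3, 0, 0, 1449551462⟩] 1 3 3 0 5 (sgb true) (sgb false) x :=
  strip_altA (m := 1449551462) true rfl hκ covF01 covF53 hx hx' c_A05pm_133_s1 cutA_nil (noExt_A)

noncomputable def cut_A05pm_202_s1 : Cut := Cut.of [[⟨4, 0, 0, 1449551462⟩]]

noncomputable def f_A05pm_202_s1 : ℕ → ℕ → ℕ → ℕ → Bool := onCell 0 536870912 0 536870912 134217728 67108864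
    (rowFK 0 true true false .pp 2 0 2 (qsf 0 536870912 0 536870912 2) ndF0q2 ndF5q0 pcF2 cut_A05pm_202_s1 Ext.none)

def k0_A05pm_202_s1 : ∃ t, chk3 f_A05pm_202_s1 t 1 1 1 = true :=
  ⟨(l 6), by decide +kernel⟩

theorem c_A05pm_202_s1 : CertF 0 536870912 0 536870912 134217728 67108864 true true false .pp 2 0 2
    ndF0q2 ndF5q0 pcF2 cut_A05pm_202_s1 Ext.none :=
  certFK0 (fam := true) (s1 := true) (s2 := false) (a := 2) (b := 0) (c := 2) (cn := .pp) (n1 := ndF0q2) (n2 := ndF5q0) (pc := pcF2) (cut := cut_A05pm_202_s1) (xt := Ext.none) (P1 := 0) (W1 := 536870912) (P2 := 0) (W2 := 536870912) (P3 := 134217728) (W3 := 67108864)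
    rfl rfl rfl k0_A05pm_202_s1

theorem s_A05pm_202_s1 {κ x : ℝ} (hκ : κ * h0 = ken x) (hx : ((134217728 : ℕ) : ℝ) / S ≤ x)
    (hx' : x ≤ (((134217728 : ℕ) : ℝ) + (67108864 : ℕ)) / S) :
    AltA (VF κ) PP tKF tL pcF [⟨3, 0, 0, 1449551462⟩] 2 0 2 0 5 (sgb true) (sgb false) x :=
  strip_altA (m := 1449551462) true rfl hκ covF02 covF50 hx hx' c_A05pm_202_s1 cutA_nil (noExt_A)

noncomputable def cut_A05pm_203_s1 : Cut := Cut.of [[⟨4, 0, 0, 1449551462⟩]]

noncomputable def f_A05pm_203_s1 : ℕ → ℕ → ℕ → ℕ → Bool := onCell 0 536870912 0 536870912 134217728 67108864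
    (rowFK 0 true true false .up 2 0 3 (qsf 0 536870912 0 536870912 3) ndF0q2 ndF5q0 pcF3 cut_A05pm_203_s1 Ext.none)

def k0_A05pm_203_s1 : ∃ t, chk3 f_A05pm_203_s1 t 1 1 1 = true :=
  ⟨(l 6), by decide +kernel⟩

theorem c_A05pm_203_s1 : CertF 0 536870912 0 536870912 134217728 67108864 true true false .up 2 0 3
    ndF0q2 ndF5q0 pcF3 cut_A05pm_203_s1 Ext.none :=
  certFK0 (fam := true) (s1 := true) (s2 := false) (a := 2) (b := 0) (c := 3) (cn := .up) (n1 := ndF0q2) (n2 := ndF5q0) (pc := pcF3) (cut := cut_A05pm_203_s1) (xt := Ext.none) (P1 := 0) (W1 := 536870912) (P2 := 0) (W2 := 536870912) (P3 := 134217728) (W3 := 67108864)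
    rfl rfl rfl k0_A05pm_203_s1

theorem s_A05pm_203_s1 {κ x : ℝ} (hκ : κ * h0 = ken x) (hx : ((134217728 : ℕ) : ℝ) / S ≤ x)
    (hx' : x ≤ (((134217728 : ℕ) : ℝ) + (67108864 : ℕ)) / S) :
    AltA (VF κ) PP tKF tL pcF [⟨3, 0, 0, 1449551462⟩] 2 0 3 0 5 (sgb true) (sgb false) x :=
  strip_altA (m := 1449551462) true rfl hκ covF02 covF50 hx hx' c_A05pm_203_s1 cutA_nil (noExt_A)

noncomputable def cut_A05pm_213_s1 : Cut := Cut.of [[⟨4, 0, 0, 1449551462⟩]]

noncomputable def f_A05pm_213_s1 : ℕ → ℕ → ℕ → ℕ → Bool := onCell 0 536870912 536870912 536870912 134217728 67108864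
    (rowFK 0 true true false .pnn 2 1 3 (qsf 0 536870912 536870912 536870912 3) ndF0q2 ndF5q1 pcF3 cut_A05pm_213_s1 Ext.none)

def k0_A05pm_213_s1 : ∃ t, chk3 f_A05pm_213_s1 t 1 1 1 = true :=
  ⟨(l 6), by decide +kernel⟩

theorem c_A05pm_213_s1 : CertF 0 536870912 536870912 536870912 134217728 67108864 true true false .pnn 2 1 3
    ndF0q2 ndF5q1 pcF3 cut_A05pm_213_s1 Ext.none :=
  certFK0 (fam := true) (s1 := true) (s2 := false) (a := 2) (b := 1) (c := 3) (cn := .pnn) (n1 := ndF0q2) (n2 := ndF5q1) (pc := pcF3) (cut := cut_A05pm_213_s1) (xt := Ext.none) (P1 := 0) (W1 := 536870912) (P2 := 536870912) (W2 := 536870912) (P3 := 134217728) (W3 := 67108864)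
    rfl rfl rfl k0_A05pm_213_s1

theorem s_A05pm_213_s1 {κ x : ℝ} (hκ : κ * h0 = ken x) (hx : ((134217728 : ℕ) : ℝ) / S ≤ x)
    (hx' : x ≤ (((134217728 : ℕ) : ℝ) + (67108864 : ℕ)) / S) :
    AltA (VF κ) PP tKF tL pcF [⟨3, 0, 0, 1449551462⟩] 2 1 3 0 5 (sgb true) (sgb false) x :=
  strip_altA (m := 1449551462) true rfl hκ covF02 covF51 hx hx' c_A05pm_213_s1 cutA_nil (noExt_A)

noncomputable def cut_A05mm_001_s1 : Cut := Cut.of [[⟨4, 0, 0, 1449551462⟩]]

noncomputable def f_A05mm_001_s1 : ℕ → ℕ → ℕ → ℕ → Bool := onCell 0 536870912 0 536870912 134217728 67108864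
    (rowFK 0 true false false .up 0 0 1 (qsf 0 536870912 0 536870912 1) ndF0q0 ndF5q0 pcF1 cut_A05mm_001_s1 Ext.none)

def k0_A05mm_001_s1 : ∃ t, chk3 f_A05mm_001_s1 t 1 1 1 = true :=
  ⟨(l 4), by decide +kernel⟩

theorem c_A05mm_001_s1 : CertF 0 536870912 0 536870912 134217728 67108864 true false false .up 0 0 1
    ndF0q0 ndF5q0 pcF1 cut_A05mm_001_s1 Ext.none :=
  certFK0 (fam := true) (s1 := false) (s2 := false) (a := 0) (b := 0) (c := 1) (cn := .up) (n1 := ndF0q0) (n2 := ndF5q0) (pc := pcF1) (cut := cut_A05mm_001_s1) (xt := Ext.none) (P1 := 0) (W1 := 536870912) (P2 := 0) (W2 := 536870912) (P3 := 134217728) (W3 := 67108864)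
    rfl rfl rfl k0_A05mm_001_s1

theorem s_A05mm_001_s1 {κ x : ℝ} (hκ : κ * h0 = ken x) (hx : ((134217728 : ℕ) : ℝ) / S ≤ x)
    (hx' : x ≤ (((134217728 : ℕ) : ℝ) + (67108864 : ℕ)) / S) :
    AltA (VF κ) PP tKF tL pcF [⟨3, 0, 0, 1449551462⟩] 0 0 1 0 5 (sgb false) (sgb false) x :=
  strip_altA (m := 1449551462) true rfl hκ covF00 covF50 hx hx' c_A05mm_001_s1 cutA_nil (noExt_A)

noncomputable def cut_A05mm_011_s1 : Cut := Cut.of [[⟨4, 0, 0, 1449551462⟩]]

noncomputable def f_A05mm_011_s1 : ℕ → ℕ → ℕ → ℕ → Bool := onCell 0 536870912 536870912 536870912 134217728 67108864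
    (rowFK 0 true false false .pnn 0 1 1 (qsf 0 536870912 536870912 536870912 1) ndF0q0 ndF5q1 pcF1 cut_A05mm_011_s1 Ext.none)

def k0_A05mm_011_s1 : ∃ t, chk3 f_A05mm_011_s1 t 1 1 1 = true :=
  ⟨(l 4), by decide +kernel⟩

theorem c_A05mm_011_s1 : CertF 0 536870912 536870912 536870912 134217728 67108864 true false false .pnn 0 1 1
    ndF0q0 ndF5q1 pcF1 cut_A05mm_011_s1 Ext.none :=
  certFK0 (fam := true) (s1 := false) (s2 := false) (a := 0) (b := 1) (c := 1) (cn := .pnn) (n1 := ndF0q0) (n2 := ndF5q1) (pc := pcF1) (cut := cut_A05mm_011_s1) (xt := Ext.none) (P1 := 0) (W1 := 536870912) (P2 := 536870912) (W2 := 536870912) (P3 := 134217728) (W3 := 67108864)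
    rfl rfl rfl k0_A05mm_011_s1

theorem s_A05mm_011_s1 {κ x : ℝ} (hκ : κ * h0 = ken x) (hx : ((134217728 : ℕ) : ℝ) / S ≤ x)
    (hx' : x ≤ (((134217728 : ℕ) : ℝ) + (67108864 : ℕ)) / S) :
    AltA (VF κ) PP tKF tL pcF [⟨3, 0, 0, 1449551462⟩] 0 1 1 0 5 (sgb false) (sgb false) x :=
  strip_altA (m := 1449551462) true rfl hκ covF00 covF51 hx hx' c_A05mm_011_s1 cutA_nil (noExt_A)

noncomputable def cut_A05mm_012_s1 : Cut := Cut.of [[⟨4, 0, 0, 1449551462⟩]]

noncomputable def f_A05mm_012_s1 : ℕ → ℕ → ℕ → ℕ → Bool := onCell 0 536870912 536870912 536870912 134217728 67108864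
    (rowFK 0 true false false .pnp 0 1 2 (qsf 0 536870912 536870912 536870912 2) ndF0q0 ndF5q1 pcF2 cut_A05mm_012_s1 Ext.none)

def k0_A05mm_012_s1 : ∃ t, chk3 f_A05mm_012_s1 t 1 1 1 = true :=
  ⟨(l 4), by decide +kernel⟩

theorem c_A05mm_012_s1 : CertF 0 536870912 536870912 536870912 134217728 67108864 true false false .pnp 0 1 2
    ndF0q0 ndF5q1 pcF2 cut_A05mm_012_s1 Ext.none :=
  certFK0 (fam := true) (s1 := false) (s2 := false) (a := 0) (b := 1) (c := 2) (cn := .pnp) (n1 := ndF0q0) (n2 := ndF5q1) (pc := pcF2) (cut := cut_A05mm_012_s1) (xt := Ext.none) (P1 := 0) (W1 := 536870912) (P2 := 536870912) (W2 := 536870912) (P3 := 134217728) (W3 := 67108864)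
    rfl rfl rfl k0_A05mm_012_s1

theorem s_A05mm_012_s1 {κ x : ℝ} (hκ : κ * h0 = ken x) (hx : ((134217728 : ℕ) : ℝ) / S ≤ x)
    (hx' : x ≤ (((134217728 : ℕ) : ℝ) + (67108864 : ℕ)) / S) :
    AltA (VF κ) PP tKF tL pcF [⟨3, 0, 0, 1449551462⟩] 0 1 2 0 5 (sgb false) (sgb false) x :=
  strip_altA (m := 1449551462) true rfl hκ covF00 covF51 hx hx' c_A05mm_012_s1 cutA_nil (noExt_A)

noncomputable def cut_A05mm_022_s1 : Cut := Cut.of [[⟨4, 0, 0, 1449551462⟩]]

noncomputable def f_A05mm_022_s1 : ℕ → ℕ → ℕ → ℕ → Bool := onCell 0 536870912 1073741824 536870912 134217728 67108864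
    (rowFK 0 true false false .pp 0 2 2 (qsf 0 536870912 1073741824 536870912 2) ndF0q0 ndF5q2 pcF2 cut_A05mm_022_s1 Ext.none)

def k0_A05mm_022_s1 : ∃ t, chk3 f_A05mm_022_s1 t 1 1 1 = true :=
  ⟨(l 4), by decide +kernel⟩

theorem c_A05mm_022_s1 : CertF 0 536870912 1073741824 536870912 134217728 67108864 true false false .pp 0 2 2
    ndF0q0 ndF5q2 pcF2 cut_A05mm_022_s1 Ext.none :=
  certFK0 (fam := true) (s1 := false) (s2 := false) (a := 0) (b := 2) (c := 2) (cn := .pp) (n1 := ndF0q0) (n2 := ndF5q2) (pc := pcF2) (cut := cut_A05mm_022_s1) (xt := Ext.none) (P1 := 0) (W1 := 536870912) (P2 := 1073741824) (W2 := 536870912) (P3 := 134217728) (W3 := 67108864)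
    rfl rfl rfl k0_A05mm_022_s1

theorem s_A05mm_022_s1 {κ x : ℝ} (hκ : κ * h0 = ken x) (hx : ((134217728 : ℕ) : ℝ) / S ≤ x)
    (hx' : x ≤ (((134217728 : ℕ) : ℝ) + (67108864 : ℕ)) / S) :
    AltA (VF κ) PP tKF tL pcF [⟨3, 0, 0, 1449551462⟩] 0 2 2 0 5 (sgb false) (sgb false) x :=
  strip_altA (m := 1449551462) true rfl hκ covF00 covF52 hx hx' c_A05mm_022_s1 cutA_nil (noExt_A)

noncomputable def cut_A05mm_023_s1 : Cut := Cut.of [[⟨4, 0, 0, 1449551462⟩]]

noncomputable def f_A05mm_023_s1 : ℕ → ℕ → ℕ → ℕ → Bool := onCell 0 536870912 1073741824 536870912 134217728 67108864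
    (rowFK 0 true false false .up 0 2 3 (qsf 0 536870912 1073741824 536870912 3) ndF0q0 ndF5q2 pcF3 cut_A05mm_023_s1 Ext.none)

def k0_A05mm_023_s1 : ∃ t, chk3 f_A05mm_023_s1 t 1 1 1 = true :=
  ⟨(l 4), by decide +kernel⟩

theorem c_A05mm_023_s1 : CertF 0 536870912 1073741824 536870912 134217728 67108864 true false false .up 0 2 3
    ndF0q0 ndF5q2 pcF3 cut_A05mm_023_s1 Ext.none :=
  certFK0 (fam := true) (s1 := false) (s2 := false) (a := 0) (b := 2) (c := 3) (cn := .up) (n1 := ndF0q0) (n2 := ndF5q2) (pc := pcF3) (cut := cut_A05mm_023_s1) (xt := Ext.none) (P1 := 0) (W1 := 536870912) (P2 := 1073741824) (W2 := 536870912) (P3 := 134217728) (W3 := 67108864)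
    rfl rfl rfl k0_A05mm_023_s1

theorem s_A05mm_023_s1 {κ x : ℝ} (hκ : κ * h0 = ken x) (hx : ((134217728 : ℕ) : ℝ) / S ≤ x)
    (hx' : x ≤ (((134217728 : ℕ) : ℝ) + (67108864 : ℕ)) / S) :
    AltA (VF κ) PP tKF tL pcF [⟨3, 0, 0, 1449551462⟩] 0 2 3 0 5 (sgb false) (sgb false) x :=
  strip_altA (m := 1449551462) true rfl hκ covF00 covF52 hx hx' c_A05mm_023_s1 cutA_nil (noExt_A)

noncomputable def cut_A05mm_033_s1 : Cut := Cut.of [[⟨4, 0, 0, 1449551462⟩]]

noncomputable def f_A05mm_033_s1 : ℕ → ℕ → ℕ → ℕ → Bool := onCell 0 536870912 0 1230186008 134217728 67108864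
    (rowFK 0 true false false .pnn 0 3 3 (qsf 0 536870912 0 1230186008 3) ndF0q0 ndF5q3 pcF3 cut_A05mm_033_s1 Ext.none)

def k0_A05mm_033_s1 : ∃ t, chk3 f_A05mm_033_s1 t 1 1 1 = true :=
  ⟨(l 4), by decide +kernel⟩

theorem c_A05mm_033_s1 : CertF 0 536870912 0 1230186008 134217728 67108864 true false false .pnn 0 3 3
    ndF0q0 ndF5q3 pcF3 cut_A05mm_033_s1 Ext.none :=
  certFK0 (fam := true) (s1 := false) (s2 := false) (a := 0) (b := 3) (c := 3) (cn := .pnn) (n1 := ndF0q0) (n2 := ndF5q3) (pc := pcF3) (cut := cut_A05mm_033_s1) (xt := Ext.none) (P1 := 0) (W1 := 536870912) (P2 := 0) (W2 := 1230186008) (P3 := 134217728) (W3 := 67108864)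
    rfl rfl rfl k0_A05mm_033_s1

theorem s_A05mm_033_s1 {κ x : ℝ} (hκ : κ * h0 = ken x) (hx : ((134217728 : ℕ) : ℝ) / S ≤ x)
    (hx' : x ≤ (((134217728 : ℕ) : ℝ) + (67108864 : ℕ)) / S) :
    AltA (VF κ) PP tKF tL pcF [⟨3, 0, 0, 1449551462⟩] 0 3 3 0 5 (sgb false) (sgb false) x :=
  strip_altA (m := 1449551462) true rfl hκ covF00 covF53 hx hx' c_A05mm_033_s1 cutA_nil (noExt_A)

noncomputable def cut_A05mm_101_s1 : Cut := Cut.of [[⟨4, 0, 0, 1449551462⟩]]

noncomputable def f_A05mm_101_s1 : ℕ → ℕ → ℕ → ℕ → Bool := onCell 536870912 536870912 0 536870912 134217728 67108864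
    (rowFK 0 true false false .npn 1 0 1 (qsf 536870912 536870912 0 536870912 1) ndF0q1 ndF5q0 pcF1 cut_A05mm_101_s1 Ext.none)

def k0_A05mm_101_s1 : ∃ t, chk3 f_A05mm_101_s1 t 1 1 1 = true :=
  ⟨(l 4), by decide +kernel⟩

theorem c_A05mm_101_s1 : CertF 536870912 536870912 0 536870912 134217728 67108864 true false false .npn 1 0 1
    ndF0q1 ndF5q0 pcF1 cut_A05mm_101_s1 Ext.none :=
  certFK0 (fam := true) (s1 := false) (s2 := false) (a := 1) (b := 0) (c := 1) (cn := .npn) (n1 := ndF0q1) (n2 := ndF5q0) (pc := pcF1) (cut := cut_A05mm_101_s1) (xt := Ext.none) (P1 := 536870912) (W1 := 536870912) (P2 := 0) (W2 := 536870912) (P3 := 134217728) (W3 := 67108864)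
    rfl rfl rfl k0_A05mm_101_s1

theorem s_A05mm_101_s1 {κ x : ℝ} (hκ : κ * h0 = ken x) (hx : ((134217728 : ℕ) : ℝ) / S ≤ x)
    (hx' : x ≤ (((134217728 : ℕ) : ℝ) + (67108864 : ℕ)) / S) :
    AltA (VF κ) PP tKF tL pcF [⟨3, 0, 0, 1449551462⟩] 1 0 1 0 5 (sgb false) (sgb false) x :=
  strip_altA (m := 1449551462) true rfl hκ covF01 covF50 hx hx' c_A05mm_101_s1 cutA_nil (noExt_A)

noncomputable def cut_A05mm_102_s1 : Cut := Cut.of [[⟨4, 0, 0, 1449551462⟩]]

noncomputable def f_A05mm_102_s1 : ℕ → ℕ → ℕ → ℕ → Bool := onCell 536870912 536870912 0 536870912 134217728 67108864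
    (rowFK 0 true false false .npp 1 0 2 (qsf 536870912 536870912 0 536870912 2) ndF0q1 ndF5q0 pcF2 cut_A05mm_102_s1 Ext.none)

def k0_A05mm_102_s1 : ∃ t, chk3 f_A05mm_102_s1 t 1 1 1 = true :=
  ⟨(l 4), by decide +kernel⟩

theorem c_A05mm_102_s1 : CertF 536870912 536870912 0 536870912 134217728 67108864 true false false .npp 1 0 2
    ndF0q1 ndF5q0 pcF2 cut_A05mm_102_s1 Ext.none :=
  certFK0 (fam := true) (s1 := false) (s2 := false) (a := 1) (b := 0) (c := 2) (cn := .npp) (n1 := ndF0q1) (n2 := ndF5q0) (pc := pcF2) (cut := cut_A05mm_102_s1) (xt := Ext.none) (P1 := 536870912) (W1 := 536870912) (P2 := 0) (W2 := 536870912) (P3 := 134217728) (W3 := 67108864)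
    rfl rfl rfl k0_A05mm_102_s1

theorem s_A05mm_102_s1 {κ x : ℝ} (hκ : κ * h0 = ken x) (hx : ((134217728 : ℕ) : ℝ) / S ≤ x)
    (hx' : x ≤ (((134217728 : ℕ) : ℝ) + (67108864 : ℕ)) / S) :
    AltA (VF κ) PP tKF tL pcF [⟨3, 0, 0, 1449551462⟩] 1 0 2 0 5 (sgb false) (sgb false) x :=
  strip_altA (m := 1449551462) true rfl hκ covF01 covF50 hx hx' c_A05mm_102_s1 cutA_nil (noExt_A)

noncomputable def cut_A05mm_112_s1 : Cut := Cut.of [[⟨4, 0, 0, 1449551462⟩]]

noncomputable def f_A05mm_112_s1 : ℕ → ℕ → ℕ → ℕ → Bool := onCell 536870912 536870912 536870912 536870912 134217728 67108864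
    (rowFK 0 true false false .dn 1 1 2 (qsf 536870912 536870912 536870912 536870912 2) ndF0q1 ndF5q1 pcF2 cut_A05mm_112_s1 Ext.none)

def k0_A05mm_112_s1 : ∃ t, chk3 f_A05mm_112_s1 t 1 1 1 = true :=
  ⟨(l 4), by decide +kernel⟩

theorem c_A05mm_112_s1 : CertF 536870912 536870912 536870912 536870912 134217728 67108864 true false false .dn 1 1 2
    ndF0q1 ndF5q1 pcF2 cut_A05mm_112_s1 Ext.none :=
  certFK0 (fam := true) (s1 := false) (s2 := false) (a := 1) (b := 1) (c := 2) (cn := .dn) (n1 := ndF0q1) (n2 := ndF5q1) (pc := pcF2) (cut := cut_A05mm_112_s1) (xt := Ext.none) (P1 := 536870912) (W1 := 536870912) (P2 := 536870912) (W2 := 536870912) (P3 := 134217728) (W3 := 67108864)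
    rfl rfl rfl k0_A05mm_112_s1

theorem s_A05mm_112_s1 {κ x : ℝ} (hκ : κ * h0 = ken x) (hx : ((134217728 : ℕ) : ℝ) / S ≤ x)
    (hx' : x ≤ (((134217728 : ℕ) : ℝ) + (67108864 : ℕ)) / S) :
    AltA (VF κ) PP tKF tL pcF [⟨3, 0, 0, 1449551462⟩] 1 1 2 0 5 (sgb false) (sgb false) x :=
  strip_altA (m := 1449551462) true rfl hκ covF01 covF51 hx hx' c_A05mm_112_s1 cutA_nil (noExt_A)

noncomputable def cut_A05mm_113_s1 : Cut := Cut.of [[⟨4, 0, 0, 1449551462⟩]]

noncomputable def f_A05mm_113_s1 : ℕ → ℕ → ℕ → ℕ → Bool := onCell 536870912 536870912 536870912 536870912 134217728 67108864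
    (rowFK 0 true false false .nn 1 1 3 (qsf 536870912 536870912 536870912 536870912 3) ndF0q1 ndF5q1 pcF3 cut_A05mm_113_s1 Ext.none)

def k0_A05mm_113_s1 : ∃ t, chk3 f_A05mm_113_s1 t 1 1 1 = true :=
  ⟨(l 4), by decide +kernel⟩

theorem c_A05mm_113_s1 : CertF 536870912 536870912 536870912 536870912 134217728 67108864 true false false .nn 1 1 3
    ndF0q1 ndF5q1 pcF3 cut_A05mm_113_s1 Ext.none :=
  certFK0 (fam := true) (s1 := false) (s2 := false) (a := 1) (b := 1) (c := 3) (cn := .nn) (n1 := ndF0q1) (n2 := ndF5q1) (pc := pcF3) (cut := cut_A05mm_113_s1) (xt := Ext.none) (P1 := 536870912) (W1 := 536870912) (P2 := 536870912) (W2 := 536870912) (P3 := 134217728) (W3 := 67108864)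
    rfl rfl rfl k0_A05mm_113_s1

theorem s_A05mm_113_s1 {κ x : ℝ} (hκ : κ * h0 = ken x) (hx : ((134217728 : ℕ) : ℝ) / S ≤ x)
    (hx' : x ≤ (((134217728 : ℕ) : ℝ) + (67108864 : ℕ)) / S) :
    AltA (VF κ) PP tKF tL pcF [⟨3, 0, 0, 1449551462⟩] 1 1 3 0 5 (sgb false) (sgb false) x :=
  strip_altA (m := 1449551462) true rfl hκ covF01 covF51 hx hx' c_A05mm_113_s1 cutA_nil (noExt_A)

noncomputable def cut_A05mm_123_s1 : Cut := Cut.of [[⟨4, 0, 0, 1449551462⟩]]

noncomputable def f_A05mm_123_s1 : ℕ → ℕ → ℕ → ℕ → Bool := onCell 536870912 536870912 1073741824 536870912 134217728 67108864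
    (rowFK 0 true false false .npn 1 2 3 (qsf 536870912 536870912 1073741824 536870912 3) ndF0q1 ndF5q2 pcF3 cut_A05mm_123_s1 Ext.none)

def k0_A05mm_123_s1 : ∃ t, chk3 f_A05mm_123_s1 t 1 1 1 = true :=
  ⟨(l 4), by decide +kernel⟩

theorem c_A05mm_123_s1 : CertF 536870912 536870912 1073741824 536870912 134217728 67108864 true false false .npn 1 2 3
    ndF0q1 ndF5q2 pcF3 cut_A05mm_123_s1 Ext.none :=
  certFK0 (fam := true) (s1 := false) (s2 := false) (a := 1) (b := 2) (c := 3) (cn := .npn) (n1 := ndF0q1) (n2 := ndF5q2) (pc := pcF3) (cut := cut_A05mm_123_s1) (xt := Ext.none) (P1 := 536870912) (W1 := 536870912) (P2 := 1073741824) (W2 := 536870912) (P3 := 134217728) (W3 := 67108864)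
    rfl rfl rfl k0_A05mm_123_s1

theorem s_A05mm_123_s1 {κ x : ℝ} (hκ : κ * h0 = ken x) (hx : ((134217728 : ℕ) : ℝ) / S ≤ x)
    (hx' : x ≤ (((134217728 : ℕ) : ℝ) + (67108864 : ℕ)) / S) :
    AltA (VF κ) PP tKF tL pcF [⟨3, 0, 0, 1449551462⟩] 1 2 3 0 5 (sgb false) (sgb false) x :=
  strip_altA (m := 1449551462) true rfl hκ covF01 covF52 hx hx' c_A05mm_123_s1 cutA_nil (noExt_A)

noncomputable def cut_A05mm_133_s1 : Cut := Cut.of [[⟨4, 0, 0, 1449551462⟩]]

noncomputable def f_A05mm_133_s1 : ℕ → ℕ → ℕ → ℕ → Bool := onCell 536870912 536870912 0 1230186008 134217728 67108864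
    (rowFK 0 true false false .dn 1 3 3 (qsf 536870912 536870912 0 1230186008 3) ndF0q1 ndF5q3 pcF3 cut_A05mm_133_s1 Ext.none)

def k0_A05mm_133_s1 : ∃ t, chk3 f_A05mm_133_s1 t 1 1 1 = true :=
  ⟨(l 4), by decide +kernel⟩

theorem c_A05mm_133_s1 : CertF 536870912 536870912 0 1230186008 134217728 67108864 true false false .dn 1 3 3
    ndF0q1 ndF5q3 pcF3 cut_A05mm_133_s1 Ext.none :=
  certFK0 (fam := true) (s1 := false) (s2 := false) (a := 1) (b := 3) (c := 3) (cn := .dn) (n1 := ndF0q1) (n2 := ndF5q3) (pc := pcF3) (cut := cut_A05mm_133_s1) (xt := Ext.none) (P1 := 536870912) (W1 := 536870912) (P2 := 0) (W2 := 1230186008) (P3 := 134217728) (W3 := 67108864)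
    rfl rfl rfl k0_A05mm_133_s1

theorem s_A05mm_133_s1 {κ x : ℝ} (hκ : κ * h0 = ken x) (hx : ((134217728 : ℕ) : ℝ) / S ≤ x)
    (hx' : x ≤ (((134217728 : ℕ) : ℝ) + (67108864 : ℕ)) / S) :
    AltA (VF κ) PP tKF tL pcF [⟨3, 0, 0, 1449551462⟩] 1 3 3 0 5 (sgb false) (sgb false) x :=
  strip_altA (m := 1449551462) true rfl hκ covF01 covF53 hx hx' c_A05mm_133_s1 cutA_nil (noExt_A)

noncomputable def cut_A05mm_202_s1 : Cut := Cut.of [[⟨4, 0, 0, 1449551462⟩]]

noncomputable def f_A05mm_202_s1 : ℕ → ℕ → ℕ → ℕ → Bool := onCell 0 536870912 0 536870912 134217728 67108864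
    (rowFK 0 true false false .pp 2 0 2 (qsf 0 536870912 0 536870912 2) ndF0q2 ndF5q0 pcF2 cut_A05mm_202_s1 Ext.none)

def k0_A05mm_202_s1 : ∃ t, chk3 f_A05mm_202_s1 t 1 1 1 = true :=
  ⟨(l 4), by decide +kernel⟩

theorem c_A05mm_202_s1 : CertF 0 536870912 0 536870912 134217728 67108864 true false false .pp 2 0 2
    ndF0q2 ndF5q0 pcF2 cut_A05mm_202_s1 Ext.none :=
  certFK0 (fam := true) (s1 := false) (s2 := false) (a := 2) (b := 0) (c := 2) (cn := .pp) (n1 := ndF0q2) (n2 := ndF5q0) (pc := pcF2) (cut := cut_A05mm_202_s1) (xt := Ext.none) (P1 := 0) (W1 := 536870912) (P2 := 0) (W2 := 536870912) (P3 := 134217728) (W3 := 67108864)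
    rfl rfl rfl k0_A05mm_202_s1

theorem s_A05mm_202_s1 {κ x : ℝ} (hκ : κ * h0 = ken x) (hx : ((134217728 : ℕ) : ℝ) / S ≤ x)
    (hx' : x ≤ (((134217728 : ℕ) : ℝ) + (67108864 : ℕ)) / S) :
    AltA (VF κ) PP tKF tL pcF [⟨3, 0, 0, 1449551462⟩] 2 0 2 0 5 (sgb false) (sgb false) x :=
  strip_altA (m := 1449551462) true rfl hκ covF02 covF50 hx hx' c_A05mm_202_s1 cutA_nil (noExt_A)

noncomputable def cut_A05mm_203_s1 : Cut := Cut.of [[⟨4, 0, 0, 1449551462⟩]]

noncomputable def f_A05mm_203_s1 : ℕ → ℕ → ℕ → ℕ → Bool := onCell 0 536870912 0 536870912 134217728 67108864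
    (rowFK 0 true false false .up 2 0 3 (qsf 0 536870912 0 536870912 3) ndF0q2 ndF5q0 pcF3 cut_A05mm_203_s1 Ext.none)

def k0_A05mm_203_s1 : ∃ t, chk3 f_A05mm_203_s1 t 1 1 1 = true :=
  ⟨(l 4), by decide +kernel⟩

theorem c_A05mm_203_s1 : CertF 0 536870912 0 536870912 134217728 67108864 true false false .up 2 0 3
    ndF0q2 ndF5q0 pcF3 cut_A05mm_203_s1 Ext.none :=
  certFK0 (fam := true) (s1 := false) (s2 := false) (a := 2) (b := 0) (c := 3) (cn := .up) (n1 := ndF0q2) (n2 := ndF5q0) (pc := pcF3) (cut := cut_A05mm_203_s1) (xt := Ext.none) (P1 := 0) (W1 := 536870912) (P2 := 0) (W2 := 536870912) (P3 := 134217728) (W3 := 67108864)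
    rfl rfl rfl k0_A05mm_203_s1

theorem s_A05mm_203_s1 {κ x : ℝ} (hκ : κ * h0 = ken x) (hx : ((134217728 : ℕ) : ℝ) / S ≤ x)
    (hx' : x ≤ (((134217728 : ℕ) : ℝ) + (67108864 : ℕ)) / S) :
    AltA (VF κ) PP tKF tL pcF [⟨3, 0, 0, 1449551462⟩] 2 0 3 0 5 (sgb false) (sgb false) x :=
  strip_altA (m := 1449551462) true rfl hκ covF02 covF50 hx hx' c_A05mm_203_s1 cutA_nil (noExt_A)

noncomputable def cut_A05mm_213_s1 : Cut := Cut.of [[⟨4, 0, 0, 1449551462⟩]]

noncomputable def f_A05mm_213_s1 : ℕ → ℕ → ℕ → ℕ → Bool := onCell 0 536870912 536870912 536870912 134217728 67108864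
    (rowFK 0 true false false .pnn 2 1 3 (qsf 0 536870912 536870912 536870912 3) ndF0q2 ndF5q1 pcF3 cut_A05mm_213_s1 Ext.none)

def k0_A05mm_213_s1 : ∃ t, chk3 f_A05mm_213_s1 t 1 1 1 = true :=
  ⟨(l 4), by decide +kernel⟩

theorem c_A05mm_213_s1 : CertF 0 536870912 536870912 536870912 134217728 67108864 true false false .pnn 2 1 3
    ndF0q2 ndF5q1 pcF3 cut_A05mm_213_s1 Ext.none :=
  certFK0 (fam := true) (s1 := false) (s2 := false) (a := 2) (b := 1) (c := 3) (cn := .pnn) (n1 := ndF0q2) (n2 := ndF5q1) (pc := pcF3) (cut := cut_A05mm_213_s1) (xt := Ext.none) (P1 := 0) (W1 := 536870912) (P2 := 536870912) (W2 := 536870912) (P3 := 134217728) (W3 := 67108864)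
    rfl rfl rfl k0_A05mm_213_s1

theorem s_A05mm_213_s1 {κ x : ℝ} (hκ : κ * h0 = ken x) (hx : ((134217728 : ℕ) : ℝ) / S ≤ x)
    (hx' : x ≤ (((134217728 : ℕ) : ℝ) + (67108864 : ℕ)) / S) :
    AltA (VF κ) PP tKF tL pcF [⟨3, 0, 0, 1449551462⟩] 2 1 3 0 5 (sgb false) (sgb false) x :=
  strip_altA (m := 1449551462) true rfl hκ covF02 covF51 hx hx' c_A05mm_213_s1 cutA_nil (noExt_A)

noncomputable def cut_B00pp_001_s1 : Cut := Cut.of [[⟨4, 0, 0, 1449551462⟩]]

noncomputable def f_B00pp_001_s1 : ℕ → ℕ → ℕ → ℕ → Bool := onCell 0 536870912 0 536870912 134217728 67108864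
    (rowFK 1 false true true .up 0 0 1 (qsf 0 536870912 536870912 536870912 0) ndF0q0 ndF0q1 pcF0 cut_B00pp_001_s1 Ext.none)

def k0_B00pp_001_s1 : ∃ t, chk3 f_B00pp_001_s1 t 1 1 1 = true :=
  ⟨(l 3), by decide +kernel⟩

theorem c_B00pp_001_s1 : CertF 0 536870912 536870912 536870912 134217728 67108864 false true true .up 0 0 1
    ndF0q0 ndF0q1 pcF0 cut_B00pp_001_s1 Ext.none :=
  certFK1 (fam := false) (s1 := true) (s2 := true) (a := 0) (b := 0) (c := 1) (cn := .up) (n1 := ndF0q0) (n2 := ndF0q1) (pc := pcF0) (cut := cut_B00pp_001_s1) (xt := Ext.none) (P1 := 0) (W1 := 536870912) (P2 := 536870912) (W2 := 536870912) (P3 := 134217728) (W3 := 67108864)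
    rfl rfl rfl (fun _ => rfl) k0_B00pp_001_s1

theorem s_B00pp_001_s1 {κ x : ℝ} (hκ : κ * h0 = ken x) (hx : ((134217728 : ℕ) : ℝ) / S ≤ x)
    (hx' : x ≤ (((134217728 : ℕ) : ℝ) + (67108864 : ℕ)) / S) :
    AltB (VF κ) PP tKF tL pcF [⟨3, 0, 0, 1449551462⟩] 0 0 1 0 0 (sgb true) (sgb true) x :=
  strip_altB (m := 1449551462) true rfl hκ covF00 covF01 hx hx' c_B00pp_001_s1 cutB_nil (noExt_B)

noncomputable def cut_B00pp_001_s3 : Cut := Cut.of [[⟨3, 0, 0, 2845415833⟩]]

noncomputable def f_B00pp_001_s3 : ℕ → ℕ → ℕ → ℕ → Bool := onCell 0 536870912 536870912 536870912 134217728 67108864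
    (rowFK 0 false true true .up 0 0 1 (qsf 0 536870912 536870912 536870912 0) ndF0q0 ndF0q1 pcF0 cut_B00pp_001_s3 Ext.none)

def k0_B00pp_001_s3 : ∃ t, chk3 f_B00pp_001_s3 t 1 1 1 = true :=
  ⟨(l 6), by decide +kernel⟩

theorem c_B00pp_001_s3 : CertF 0 536870912 536870912 536870912 134217728 67108864 false true true .up 0 0 1
    ndF0q0 ndF0q1 pcF0 cut_B00pp_001_s3 Ext.none :=
  certFK0 (fam := false) (s1 := true) (s2 := true) (a := 0) (b := 0) (c := 1) (cn := .up) (n1 := ndF0q0) (n2 := ndF0q1) (pc := pcF0) (cut := cut_B00pp_001_s3) (xt := Ext.none) (P1 := 0) (W1 := 536870912) (P2 := 536870912) (W2 := 536870912) (P3 := 134217728) (W3 := 67108864)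
    rfl rfl rfl k0_B00pp_001_s3

theorem s_B00pp_001_s3 {κ x : ℝ} (hκ : κ * h0 = ken x) (hx : ((134217728 : ℕ) : ℝ) / S ≤ x)
    (hx' : x ≤ (((134217728 : ℕ) : ℝ) + (67108864 : ℕ)) / S) :
    AltB (VF κ) PP tKF tL pcF [⟨4, 0, 0, 2845415833⟩] 0 0 1 0 0 (sgb true) (sgb true) x :=
  strip_altB (m := 2845415833) false rfl hκ covF00 covF01 hx hx' c_B00pp_001_s3 cutB_nil (noExt_B)

noncomputable def cut_B00pp_011_s1 : Cut := Cut.of [[⟨4, 0, 0, 1449551462⟩], [⟨0, 0, 0, 67108864⟩, ⟨1, 1, 0, 67108864⟩, ⟨2, 1, 0, 67108864⟩]]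

noncomputable def f_B00pp_011_s1 : ℕ → ℕ → ℕ → ℕ → Bool := onCell 536870912 536870912 536870912 536870912 134217728 67108864
    (rowFK 2 false true true .pnn 0 1 1 (qsf 0 536870912 536870912 536870912 1) ndF0q0 ndF0q1 pcF1 cut_B00pp_011_s1 Ext.none)

def k0_B00pp_011_s1 : ∃ t, chk3 f_B00pp_011_s1 t 1 1 1 = true :=
  ⟨(a (l 3) (b (l 3) (a (l 3) (b (l 3) (b (l 3) (a (l 3) (b (l 3) (a (l 3) (l 14))))))))), by decide +kernel⟩

theorem c_B00pp_011_s1 : CertF 0 536870912 536870912 536870912 134217728 67108864 false true true .pnn 0 1 1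
    ndF0q0 ndF0q1 pcF1 cut_B00pp_011_s1 Ext.none :=
  certFK2 (fam := false) (s1 := true) (s2 := true) (a := 0) (b := 1) (c := 1) (cn := .pnn) (n1 := ndF0q0) (n2 := ndF0q1) (pc := pcF1) (cut := cut_B00pp_011_s1) (xt := Ext.none) (P1 := 0) (W1 := 536870912) (P2 := 536870912) (W2 := 536870912) (P3 := 134217728) (W3 := 67108864)
    rfl rfl rfl (fun _ => rfl) k0_B00pp_011_s1

theorem s_B00pp_011_s1 {κ x : ℝ} (hκ : κ * h0 = ken x) (hx : ((134217728 : ℕ) : ℝ) / S ≤ x)
    (hx' : x ≤ (((134217728 : ℕ) : ℝ) + (67108864 : ℕ)) / S)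
    (H : CutB (VF κ) PP tKF tL pcF (Cut.of [[⟨0, 0, 0, 67108864⟩, ⟨1, 1, 0, 67108864⟩, ⟨2, 1, 0, 67108864⟩]]) 0 1 1 0 0 (sgb true) (sgb true) x) :
    AltB (VF κ) PP tKF tL pcF [⟨3, 0, 0, 1449551462⟩] 0 1 1 0 0 (sgb true) (sgb true) x :=
  strip_altB (m := 1449551462) true rfl hκ covF00 covF01 hx hx' c_B00pp_011_s1 H (noExt_B)

noncomputable def cut_B00pp_011_s3 : Cut := Cut.of [[⟨3, 0, 0, 2845415833⟩], [⟨0, 0, 0, 67108864⟩, ⟨1, 1, 0, 67108864⟩, ⟨2, 1, 0, 67108864⟩]]

noncomputable def f_B00pp_011_s3 : ℕ → ℕ → ℕ → ℕ → Bool := onCell 0 536870912 536870912 536870912 134217728 67108864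
    (rowFK 0 false true true .pnn 0 1 1 (qsf 0 536870912 536870912 536870912 1) ndF0q0 ndF0q1 pcF1 cut_B00pp_011_s3 Ext.none)

def k0_B00pp_011_s3 : ∃ t, chk3 f_B00pp_011_s3 t 1 1 1 = true :=
  ⟨(l 6), by decide +kernel⟩

theorem c_B00pp_011_s3 : CertF 0 536870912 536870912 536870912 134217728 67108864 false true true .pnn 0 1 1
    ndF0q0 ndF0q1 pcF1 cut_B00pp_011_s3 Ext.none :=
  certFK0 (fam := false) (s1 := true) (s2 := true) (a := 0) (b := 1) (c := 1) (cn := .pnn) (n1 := ndF0q0) (n2 := ndF0q1) (pc := pcF1) (cut := cut_B00pp_011_s3) (xt := Ext.none) (P1 := 0) (W1 := 536870912) (P2 := 536870912) (W2 := 536870912) (P3 := 134217728) (W3 := 67108864)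
    rfl rfl rfl k0_B00pp_011_s3

theorem s_B00pp_011_s3 {κ x : ℝ} (hκ : κ * h0 = ken x) (hx : ((134217728 : ℕ) : ℝ) / S ≤ x)
    (hx' : x ≤ (((134217728 : ℕ) : ℝ) + (67108864 : ℕ)) / S)
    (H : CutB (VF κ) PP tKF tL pcF (Cut.of [[⟨0, 0, 0, 67108864⟩, ⟨1, 1, 0, 67108864⟩, ⟨2, 1, 0, 67108864⟩]]) 0 1 1 0 0 (sgb true) (sgb true) x) :
    AltB (VF κ) PP tKF tL pcF [⟨4, 0, 0, 2845415833⟩] 0 1 1 0 0 (sgb true) (sgb true) x :=
  strip_altB (m := 2845415833) false rfl hκ covF00 covF01 hx hx' c_B00pp_011_s3 H (noExt_B)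

noncomputable def cut_B00pp_012_s1 : Cut := Cut.of [[⟨4, 0, 0, 1449551462⟩], [⟨0, 0, 0, 53687091⟩, ⟨1, 1, 0, 53687091⟩, ⟨2, 1, 0, 53687091⟩]]

noncomputable def xt_B00pp_012_s1 : Ext := strExt dd false true true .u0 .u2 .u0m .pnp 0 1 2 rfl rfl gf1 vv ndF0q0 ndF0q2

noncomputable def f_B00pp_012_s1 : ℕ → ℕ → ℕ → ℕ → Bool := onCell 0 536870912 0 536870912 134217728 67108864
    (rowFK 0 false true true .pnp 0 1 2 (qsf 0 536870912 0 536870912 1) ndF0q0 ndF0q2 pcF1 cut_B00pp_012_s1 xt_B00pp_012_s1)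

def k0_B00pp_012_s1 : ∃ t, chk3 f_B00pp_012_s1 t 1 2 1 = true :=
  ⟨(a (a (a (l 2) (b (l 2) (b (l 2) (a (l 2) (a (l 2) (b (l 2) (a (l 2) (l 537451791)))))))) (b (a (l 6) (a (l 6) (b (l 6) (l 16908296)))) (a (b (a (l 6) (b (l 6) (l 16846176))) (a (a (b (l 537723151) (l 537447183)) (b (l 16827336) (l 16805096))) (b (a (l 16823480) (l 16819096)) (a (l 16802104) (l 16802272))))) (a (b (b (l 16941416) (l 16931064)) (a (l 538683151) (c (l 543090191) (l 538915599)))) (b (b (l 17034560) (l 16833080)) (a (l 542050063) (l 542809615))))))) (a (b (b (a (a (l 6) (l 17163760)) (a (l 17133504) (l 17092096))) (a (a (b (l 17121824) (l 17085096)) (b (l 17107176) (l 17063360))) (a (l 543239695) (l 543448079)))) (a (b (a (b (l 17043440) (l 543088143)) (l 543527439)) (a (b (l 543406607) (l 543739663)) (b (l 544000015) (l 544331535)))) (b (a (l 543866127) (l 544090127)) (a (l 544508175) (l 544773903))))) (b (a (b (a (l 542970383) (l 543134735)) (a (l 543613711)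 (b (l 543634447) (l 543977743)))) (b (a (l 543299343) (l 543572239)) (a (l 544036623) (l 544272143)))) (a (b (a (l 544305167) (l 544506639)) (a (l 544982799) (l 3))) (b (a (l 544750863) (l 3)) (l 3)))))), by decide +kernel⟩

def k1_B00pp_012_s1 : ∃ t, chk3 f_B00pp_012_s1 t 1 6 1 = true :=
  ⟨(a (a (a (l 2) (a (b (l 2) (a (a (l 2) (b (l 2) (a (l 536790799) (l 536246287)))) (b (a (b (l 2) (l 536474639)) (b (l 536625167) (l 536464655))) (a (b (l 536313871) (l 536151823)) (b (l 536301839) (l 536137999)))))) (b (a (b (a (l 2) (l 537156879)) (a (l 536853775) (l 536849423))) (b (a (l 537156111) (l 16790360)) (c (l 536868367) (l 537329167)))) (a (a (b (l 537071119) (b (l 16763680) (l 536123663))) (b (l 536525071) (b (l 536276495) (l 536107535)))) (a (b (l 536514831) (b (l 536261135) (l 536087823))) (b (l 536502799) (b (l 536242191) (l 536061711)))))))) (a (b (a (a (b (l 16810200) (c (l 536834319) (l 536797967))) (b (l 16808496) (l 537061135)))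 (b (a (l 16806520) (l 16806000)) (a (l 536749583) (l 537665807)))) (a (b (a (c (l 536465679) (l 537002511)) (l 536957967)) (a (b (l 536197135) (l 536275471)) (a (l 536585231) (l 536273935)))) (b (a (b (l 536459023) (l 536252943)) (b (l 538450447) (l 538609423))) (a (c (l 539689999) (l 536797711)) (b (l 538760719) (l 538901775)))))) (b (a (b (a (l 540000015) (l 541497615)) (a (b (l 16784800) (l 540431887)) (l 540502287))) (a (b (l 542555407) (l 542899471)) (l 543481359))) (a (b (a (b (l 540600335) (l 540763663)) (b (l 542097935) (l 542262799))) (a (l 540191503) (l 3))) (b (a (c (l 545352975) (l 540902415)) (c (l 545874959) (l 542142991))) (l 3)))))) (a (b (a (a (b (l 544065295) (l 544401167)) (b (l 544669455) (l 3))) (l 3)) (l 3)) (l 3))), by decide +kernel⟩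

def k2_B00pp_012_s1 : ∃ t, chk3 f_B00pp_012_s1 t 1 7 1 = true :=
  ⟨(a (a (b (a (b (b (l 2) (a (l 2) (a (l 2) (a (l 2) (a (l 535889167) (l 535877903)))))) (b (a (l 2) (a (l 2) (a (a (l 535745807) (l 535733775)) (a (l 535721487) (l 535709455))))) (a (l 2) (a (l 14) (a (a (a (l 14) (l 535575823)) (l 535563791)) (a (l 535550735) (l 535537935))))))) (a (a (a (a (b (b (l 536032015) (l 535867151)) (b (l 535697679) (l 535526159))) (b (b (l 536022287) (l 535856399)) (b (l 535685903) (l 535509775)))) (a (b (b (l 536012815) (l 535846159)) (b (l 535674639) (l 535498255))) (b (l 536456207) (b (l 535663375) (l 535486735))))) (b (a (b (l 535987471) (l 535818255)) (b (l 535971855) (l 535801103))) (a (b (l 535912719) (a (l 535475215) (l 535734287))) (b (l 535626255) (b (l 535488527) (l 535392271)))))) (a (a (b (b (l 535955215) (l 535781391)) (b (l 535597327) (l 535939343))) (b (b (l 535935759) (l 535753743)) (b (l 535562511) (l 535628047)))) (b (b (a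 (l 535908879) (l 535875855)) (l 536231951)) (b (l 536297743) (l 3)))))) (a (a (l 14) (a (l 14) (b (a (a (a (l 14) (b (l 535403279) (l 535220239))) (b (l 535390735) (l 535476239))) (a (b (l 535377679) (l 535194383)) (b (l 535364367) (l 535181071)))) (l 3)))) (b (b (b (a (a (a (l 535386639) (l 535360783)) (a (l 535603215) (l 3))) (l 3)) (a (a (a (l 535566095) (l 535539983)) (l 3)) (l 3))) (l 3)) (l 3)))) (a (b (b (a (c (a (l 536453647) (b (l 536141327) (l 536289039))) (a (b (l 535851279) (l 535661071)) (b (l 535775247) (l 536112143)))) (a (b (l 536391183) (l 3)) (l 3))) (l 3)) (l 3)) (l 3))) (l 3)), by decide +kernel⟩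

theorem t3_B00pp_012_s1 : ∃ t, chk3 f_B00pp_012_s1 t 1 3 1 = true := ex3_b k1_B00pp_012_s1 k2_B00pp_012_s1

theorem t4_B00pp_012_s1 : ∃ t, chk3 f_B00pp_012_s1 t 1 1 1 = true := ex3_b k0_B00pp_012_s1 t3_B00pp_012_s1

theorem c_B00pp_012_s1 : CertF 0 536870912 0 536870912 134217728 67108864 false true true .pnp 0 1 2
    ndF0q0 ndF0q2 pcF1 cut_B00pp_012_s1 xt_B00pp_012_s1 :=
  certFK0 (fam := false) (s1 := true) (s2 := true) (a := 0) (b := 1) (c := 2) (cn := .pnp) (n1 := ndF0q0) (n2 := ndF0q2) (pc := pcF1) (cut := cut_B00pp_012_s1) (xt := xt_B00pp_012_s1) (P1 := 0) (W1 := 536870912) (P2 := 0) (W2 := 536870912) (P3 := 134217728) (W3 := 67108864)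
    rfl rfl rfl t4_B00pp_012_s1

theorem s_B00pp_012_s1 {κ x : ℝ} (hκ : κ * h0 = ken x) (hx : ((134217728 : ℕ) : ℝ) / S ≤ x)
    (hx' : x ≤ (((134217728 : ℕ) : ℝ) + (67108864 : ℕ)) / S)
    (H : CutB (VF κ) PP tKF tL pcF (Cut.of [[⟨0, 0, 0, 53687091⟩, ⟨1, 1, 0, 53687091⟩, ⟨2, 1, 0, 53687091⟩]]) 0 1 2 0 0 (sgb true) (sgb true) x) :
    AltB (VF κ) PP tKF tL pcF [⟨3, 0, 0, 1449551462⟩] 0 1 2 0 0 (sgb true) (sgb true) x :=
  strip_altB (m := 1449551462) true rfl hκ covF00 covF02 hx hx' c_B00pp_012_s1 H ((okx hx hx').extB (T := tt) (sideF hx hx') hκ rfl rfl (.O 0 true) (.O 2 true) (Or.inr rfl))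

noncomputable def cut_B00pp_012_s3 : Cut := Cut.of [[⟨3, 0, 0, 2845415833⟩], [⟨0, 0, 0, 53687091⟩, ⟨1, 1, 0, 53687091⟩, ⟨2, 1, 0, 53687091⟩]]

noncomputable def f_B00pp_012_s3 : ℕ → ℕ → ℕ → ℕ → Bool := onCell 0 536870912 0 536870912 134217728 67108864
    (rowFK 0 false true true .pnp 0 1 2 (qsf 0 536870912 0 536870912 1) ndF0q0 ndF0q2 pcF1 cut_B00pp_012_s3 Ext.none)

def k0_B00pp_012_s3 : ∃ t, chk3 f_B00pp_012_s3 t 1 1 1 = true :=
  ⟨(l 6), by decide +kernel⟩

theorem c_B00pp_012_s3 : CertF 0 536870912 0 536870912 134217728 67108864 false true true .pnp 0 1 2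
    ndF0q0 ndF0q2 pcF1 cut_B00pp_012_s3 Ext.none :=
  certFK0 (fam := false) (s1 := true) (s2 := true) (a := 0) (b := 1) (c := 2) (cn := .pnp) (n1 := ndF0q0) (n2 := ndF0q2) (pc := pcF1) (cut := cut_B00pp_012_s3) (xt := Ext.none) (P1 := 0) (W1 := 536870912) (P2 := 0) (W2 := 536870912) (P3 := 134217728) (W3 := 67108864)
    rfl rfl rfl k0_B00pp_012_s3

theorem s_B00pp_012_s3 {κ x : ℝ} (hκ : κ * h0 = ken x) (hx : ((134217728 : ℕ) : ℝ) / S ≤ x)
    (hx' : x ≤ (((134217728 : ℕ) : ℝ) + (67108864 : ℕ)) / S)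
    (H : CutB (VF κ) PP tKF tL pcF (Cut.of [[⟨0, 0, 0, 53687091⟩, ⟨1, 1, 0, 53687091⟩, ⟨2, 1, 0, 53687091⟩]]) 0 1 2 0 0 (sgb true) (sgb true) x) :
    AltB (VF κ) PP tKF tL pcF [⟨4, 0, 0, 2845415833⟩] 0 1 2 0 0 (sgb true) (sgb true) x :=
  strip_altB (m := 2845415833) false rfl hκ covF00 covF02 hx hx' c_B00pp_012_s3 H (noExt_B)

noncomputable def cut_B00pp_022_s1 : Cut := Cut.of [[⟨4, 0, 0, 1449551462⟩], [⟨0, 0, 0, 67108864⟩, ⟨1, 1, 0, 67108864⟩, ⟨2, 1, 0, 67108864⟩]]

noncomputable def f_B00pp_022_s1 : ℕ → ℕ → ℕ → ℕ → Bool := onCell 1073741824 536870912 0 536870912 134217728 67108864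
    (rowFK 2 false true true .pp 0 2 2 (qsf 0 536870912 0 536870912 2) ndF0q0 ndF0q2 pcF2 cut_B00pp_022_s1 Ext.none)

def k0_B00pp_022_s1 : ∃ t, chk3 f_B00pp_022_s1 t 2 2 1 = true :=
  ⟨(a (b (l 6) (a (b (l 6) (a (b (l 6) (a (l 16644728) (l 16683472))) (l 6))) (l 6))) (l 6)), by decide +kernel⟩

def k1_B00pp_022_s1 : ∃ t, chk3 f_B00pp_022_s1 t 16 6 1 = true :=
  ⟨(b (b (a (b (l 16660064) (c (l 16689536) (b (l 16672016) (l 16656664)))) (b (l 16696536) (l 16664512))) (c (a (a (b (a (l 16688384) (l 16704752)) (a (l 16696592) (l 16692480))) (b (l 16697704) (l 16686088))) (b (l 16683472) (a (l 16698104) (l 16730736)))) (a (b (a (b (l 16667080) (a (l 16675584) (l 16670896))) (l 16660832)) (a (a (c (l 16684600) (l 16666744)) (l 16676640)) (c (l 16673944) (l 16666504)))) (b (l 16646768) (a (l 16661160) (l 16672864)))))) (a (b (a (b (c (a (c (l 16683056) (l 16685952)) (l 16696376)) (a (c (l 16678832) (l 16672184)) (c (l 16685448) (l 16678760))))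 (c (a (c (l 16708216) (l 16690928)) (l 16701344)) (b (c (l 16681216) (l 16675088)) (a (c (l 16686112) (l 16680368)) (l 16690256))))) (c (b (l 16690536) (l 16696064)) (b (c (l 16679528) (l 16672792)) (a (l 16684944) (l 16681304))))) (a (b (a (a (c (c (l 16693144) (l 16697640)) (b (l 16687520) (l 16691248))) (c (l 16699088) (l 16687848))) (c (l 16696800) (l 16685496))) (a (b (c (l 16704592) (a (l 16695608) (l 16693784))) (b (c (l 16707160) (l 16698832)) (c (l 16708952) (l 16701624)))) (c (l 16703656) (c (l 16696168) (l 16695184))))) (b (c (l 16702560) (a (l 16682288) (l 16689496))) (a (c (l 16711352) (l 16690992)) (c (l 16708480) (l 16698544)))))) (b (b (c (l 16678312) (a (l 16667928) (l 16680488))) (a (c (l 16709704) (l 16675728)) (l 16674336))) (b (a (c (l 16716912) (l 16684456)) (l 16683032)) (a (c (l 16704008) (l 16694024)) (l 16692544)))))), by decide +kernel⟩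

def k2_B00pp_022_s1 : ∃ t, chk3 f_B00pp_022_s1 t 17 6 1 = true :=
  ⟨(b (b (a (l 16642824) (c (l 16674944) (l 16629064))) (a (b (l 16656368) (c (l 16716168) (l 16658560))) (c (l 16638928) (a (l 16649456) (l 16625280))))) (a (b (a (c (l 16690296) (l 16655616)) (c (l 16681688) (l 16648440))) (a (b (l 16696832) (l 16686056)) (b (l 16689400) (l 16700296)))) (b (c (b (l 16705232) (l 16652032)) (a (l 16664752) (l 16639456))) (a (b (l 16681672) (l 16693240)) (a (b (l 16717616) (l 16687736)) (b (l 16671600) (a (l 16663944) (l 16662072)))))))), by decide +kernel⟩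

def k3_B00pp_022_s1 : ∃ t, chk3 f_B00pp_022_s1 t 9 6 1 = true :=
  ⟨(a (a (b (b (l 6) (c (l 16629704) (l 16641656))) (b (c (b (l 16685624) (l 16633888)) (a (l 16656408) (l 16652728))) (b (c (a (l 16670968) (l 16662328)) (a (l 16621536) (l 16616344))) (a (c (c (l 16664664) (l 16680672)) (l 16673880)) (a (l 16651488) (l 16647496)))))) (a (b (b (l 6) (a (l 16673896) (l 6))) (b (b (a (l 16600576) (l 16640336)) (a (l 16688384) (l 16633336))) (b (a (l 16650416) (l 16636296)) (l 1)))) (b (l 6) (b (a (b (l 16636104) (a (l 16641808) (l 16637832))) (b (l 16627752) (l 16632952))) (l 1))))) (b (l 6) (b (b (b (l 6) (b (l 6) (l 1))) (l 1)) (l 1)))), by decide +kernel⟩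

def k4_B00pp_022_s1 : ∃ t, chk3 f_B00pp_022_s1 t 4 7 1 = true :=
  ⟨(a (a (b (a (b (a (b (a (b (b (c (l 16710784) (l 16704400)) (c (l 16712664) (l 16707144))) (a (c (l 16716136) (b (l 16711040) (l 16713768))) (c (l 16715016) (l 16710048)))) (c (b (l 16719776) (l 16723784)) (b (l 16701296) (l 16706544)))) (b (b (a (a (c (l 16719096) (l 16716480)) (l 16714200)) (l 16712536)) (l 14)) (l 14))) (b (a (c (l 16719352) (l 16700448)) (c (l 16716800) (l 16708328))) (b (a (l 16711440) (l 16719576)) (l 14)))) (l 14)) (b (b (a (c (l 16712808) (l 16704288)) (l 16702728)) (a (a (l 16719744) (l 16717288)) (l 16713464))) (l 14))) (l 14)) (a (b (a (b (b (l 16696896) (l 16708240)) (l 14)) (b (b (l 16690808) (b (l 16720656) (l 14))) (l 14))) (l 14)) (b (a (b (b (a (l 16686016) (l 16682728)) (b (a (l 16716208) (l 16692160)) (l 14))) (l 14)) (a (b (b (c (l 16673072) (l 16738352)) (b (l 16678520) (l 14))) (l 14)) (b (c (b (c (l 16671752) (l 16656976)) (b (l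 16678904) (l 16674768))) (b (l 16693032) (l 16665000))) (l 1)))) (l 1)))) (a (a (b (b (a (b (c (c (a (l 16668208) (l 16664568)) (l 16662208)) (l 16656440)) (c (b (l 16673928) (l 1)) (l 16660288))) (b (l 16663464) (l 1))) (l 1)) (l 1)) (l 1)) (l 1))), by decide +kernel⟩

def k5_B00pp_022_s1 : ∃ t, chk3 f_B00pp_022_s1 t 5 3 1 = true :=
  ⟨(b (l 1) (l 1)), by decide +kernel⟩

def k6_B00pp_022_s1 : ∃ t, chk3 f_B00pp_022_s1 t 3 1 1 = true :=
  ⟨(l 1), by decide +kernel⟩

theorem t7_B00pp_022_s1 : ∃ t, chk3 f_B00pp_022_s1 t 8 6 1 = true := ex3_a k1_B00pp_022_s1 k2_B00pp_022_s1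

theorem t8_B00pp_022_s1 : ∃ t, chk3 f_B00pp_022_s1 t 4 6 1 = true := ex3_a t7_B00pp_022_s1 k3_B00pp_022_s1

theorem t9_B00pp_022_s1 : ∃ t, chk3 f_B00pp_022_s1 t 4 3 1 = true := ex3_b t8_B00pp_022_s1 k4_B00pp_022_s1

theorem t10_B00pp_022_s1 : ∃ t, chk3 f_B00pp_022_s1 t 2 3 1 = true := ex3_a t9_B00pp_022_s1 k5_B00pp_022_s1

theorem t11_B00pp_022_s1 : ∃ t, chk3 f_B00pp_022_s1 t 2 1 1 = true := ex3_b k0_B00pp_022_s1 t10_B00pp_022_s1

theorem t12_B00pp_022_s1 : ∃ t, chk3 f_B00pp_022_s1 t 1 1 1 = true := ex3_a t11_B00pp_022_s1 k6_B00pp_022_s1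

theorem c_B00pp_022_s1 : CertF 0 536870912 0 536870912 134217728 67108864 false true true .pp 0 2 2
    ndF0q0 ndF0q2 pcF2 cut_B00pp_022_s1 Ext.none :=
  certFK2 (fam := false) (s1 := true) (s2 := true) (a := 0) (b := 2) (c := 2) (cn := .pp) (n1 := ndF0q0) (n2 := ndF0q2) (pc := pcF2) (cut := cut_B00pp_022_s1) (xt := Ext.none) (P1 := 0) (W1 := 536870912) (P2 := 0) (W2 := 536870912) (P3 := 134217728) (W3 := 67108864)
    rfl rfl rfl (fun _ => rfl) t12_B00pp_022_s1

theorem s_B00pp_022_s1 {κ x : ℝ} (hκ : κ * h0 = ken x) (hx : ((134217728 : ℕ) : ℝ) / S ≤ x)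
    (hx' : x ≤ (((134217728 : ℕ) : ℝ) + (67108864 : ℕ)) / S)
    (H : CutB (VF κ) PP tKF tL pcF (Cut.of [[⟨0, 0, 0, 67108864⟩, ⟨1, 1, 0, 67108864⟩, ⟨2, 1, 0, 67108864⟩]]) 0 2 2 0 0 (sgb true) (sgb true) x) :
    AltB (VF κ) PP tKF tL pcF [⟨3, 0, 0, 1449551462⟩] 0 2 2 0 0 (sgb true) (sgb true) x :=
  strip_altB (m := 1449551462) true rfl hκ covF00 covF02 hx hx' c_B00pp_022_s1 H (noExt_B)

noncomputable def cut_B00pp_022_s3 : Cut := Cut.of [[⟨3, 0, 0, 2845415833⟩], [⟨0, 0, 0, 67108864⟩, ⟨1, 1, 0, 67108864⟩, ⟨2, 1, 0, 67108864⟩]]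

noncomputable def f_B00pp_022_s3 : ℕ → ℕ → ℕ → ℕ → Bool := onCell 0 536870912 0 536870912 134217728 67108864
    (rowFK 0 false true true .pp 0 2 2 (qsf 0 536870912 0 536870912 2) ndF0q0 ndF0q2 pcF2 cut_B00pp_022_s3 Ext.none)

def k0_B00pp_022_s3 : ∃ t, chk3 f_B00pp_022_s3 t 1 1 1 = true :=
  ⟨(l 6), by decide +kernel⟩

theorem c_B00pp_022_s3 : CertF 0 536870912 0 536870912 134217728 67108864 false true true .pp 0 2 2
    ndF0q0 ndF0q2 pcF2 cut_B00pp_022_s3 Ext.none :=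
  certFK0 (fam := false) (s1 := true) (s2 := true) (a := 0) (b := 2) (c := 2) (cn := .pp) (n1 := ndF0q0) (n2 := ndF0q2) (pc := pcF2) (cut := cut_B00pp_022_s3) (xt := Ext.none) (P1 := 0) (W1 := 536870912) (P2 := 0) (W2 := 536870912) (P3 := 134217728) (W3 := 67108864)
    rfl rfl rfl k0_B00pp_022_s3

theorem s_B00pp_022_s3 {κ x : ℝ} (hκ : κ * h0 = ken x) (hx : ((134217728 : ℕ) : ℝ) / S ≤ x)
    (hx' : x ≤ (((134217728 : ℕ) : ℝ) + (67108864 : ℕ)) / S)
    (H : CutB (VF κ) PP tKF tL pcF (Cut.of [[⟨0, 0, 0, 67108864⟩, ⟨1, 1, 0, 67108864⟩, ⟨2, 1, 0, 67108864⟩]]) 0 2 2 0 0 (sgb true) (sgb true) x) :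
    AltB (VF κ) PP tKF tL pcF [⟨4, 0, 0, 2845415833⟩] 0 2 2 0 0 (sgb true) (sgb true) x :=
  strip_altB (m := 2845415833) false rfl hκ covF00 covF02 hx hx' c_B00pp_022_s3 H (noExt_B)

noncomputable def cut_B00pp_101_s1 : Cut := Cut.of [[⟨4, 0, 0, 1449551462⟩]]

noncomputable def f_B00pp_101_s1 : ℕ → ℕ → ℕ → ℕ → Bool := onCell 536870912 536870912 536870912 536870912 134217728 67108864
    (rowFK 0 false true true .npn 1 0 1 (qsf 536870912 536870912 536870912 536870912 0) ndF0q1 ndF0q1 pcF0 cut_B00pp_101_s1 Ext.none)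

def k0_B00pp_101_s1 : ∃ t, chk3 f_B00pp_101_s1 t 1 1 1 = true :=
  ⟨(l 3), by decide +kernel⟩

theorem c_B00pp_101_s1 : CertF 536870912 536870912 536870912 536870912 134217728 67108864 false true true .npn 1 0 1
    ndF0q1 ndF0q1 pcF0 cut_B00pp_101_s1 Ext.none :=
  certFK0 (fam := false) (s1 := true) (s2 := true) (a := 1) (b := 0) (c := 1) (cn := .npn) (n1 := ndF0q1) (n2 := ndF0q1) (pc := pcF0) (cut := cut_B00pp_101_s1) (xt := Ext.none) (P1 := 536870912) (W1 := 536870912) (P2 := 536870912) (W2 := 536870912) (P3 := 134217728) (W3 := 67108864)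
    rfl rfl rfl k0_B00pp_101_s1

theorem s_B00pp_101_s1 {κ x : ℝ} (hκ : κ * h0 = ken x) (hx : ((134217728 : ℕ) : ℝ) / S ≤ x)
    (hx' : x ≤ (((134217728 : ℕ) : ℝ) + (67108864 : ℕ)) / S) :
    AltB (VF κ) PP tKF tL pcF [⟨3, 0, 0, 1449551462⟩] 1 0 1 0 0 (sgb true) (sgb true) x :=
  strip_altB (m := 1449551462) true rfl hκ covF01 covF01 hx hx' c_B00pp_101_s1 cutB_nil (noExt_B)

noncomputable def cut_B00pp_101_s3 : Cut := Cut.of [[⟨3, 0, 0, 2845415833⟩]]

noncomputable def f_B00pp_101_s3 : ℕ → ℕ → ℕ → ℕ → Bool := onCell 536870912 536870912 536870912 536870912 134217728 67108864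
    (rowFK 0 false true true .npn 1 0 1 (qsf 536870912 536870912 536870912 536870912 0) ndF0q1 ndF0q1 pcF0 cut_B00pp_101_s3 Ext.none)

def k0_B00pp_101_s3 : ∃ t, chk3 f_B00pp_101_s3 t 1 1 1 = true :=
  ⟨(l 3), by decide +kernel⟩

theorem c_B00pp_101_s3 : CertF 536870912 536870912 536870912 536870912 134217728 67108864 false true true .npn 1 0 1
    ndF0q1 ndF0q1 pcF0 cut_B00pp_101_s3 Ext.none :=
  certFK0 (fam := false) (s1 := true) (s2 := true) (a := 1) (b := 0) (c := 1) (cn := .npn) (n1 := ndF0q1) (n2 := ndF0q1) (pc := pcF0) (cut := cut_B00pp_101_s3) (xt := Ext.none) (P1 := 536870912) (W1 := 536870912) (P2 := 536870912) (W2 := 536870912) (P3 := 134217728) (W3 := 67108864)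
    rfl rfl rfl k0_B00pp_101_s3

theorem s_B00pp_101_s3 {κ x : ℝ} (hκ : κ * h0 = ken x) (hx : ((134217728 : ℕ) : ℝ) / S ≤ x)
    (hx' : x ≤ (((134217728 : ℕ) : ℝ) + (67108864 : ℕ)) / S) :
    AltB (VF κ) PP tKF tL pcF [⟨4, 0, 0, 2845415833⟩] 1 0 1 0 0 (sgb true) (sgb true) x :=
  strip_altB (m := 2845415833) false rfl hκ covF01 covF01 hx hx' c_B00pp_101_s3 cutB_nil (noExt_B)

noncomputable def cut_B00pp_102_s1 : Cut := Cut.of [[⟨4, 0, 0, 1449551462⟩]]

noncomputable def f_B00pp_102_s1 : ℕ → ℕ → ℕ → ℕ → Bool := onCell 0 536870912 0 536870912 134217728 67108864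
    (rowFK 2 false true true .npp 1 0 2 (qsf 536870912 536870912 0 536870912 0) ndF0q1 ndF0q2 pcF0 cut_B00pp_102_s1 Ext.none)

def k0_B00pp_102_s1 : ∃ t, chk3 f_B00pp_102_s1 t 1 1 1 = true :=
  ⟨(a (b (l 3) (l 3)) (l 3)), by decide +kernel⟩

theorem c_B00pp_102_s1 : CertF 536870912 536870912 0 536870912 134217728 67108864 false true true .npp 1 0 2
    ndF0q1 ndF0q2 pcF0 cut_B00pp_102_s1 Ext.none :=
  certFK2 (fam := false) (s1 := true) (s2 := true) (a := 1) (b := 0) (c := 2) (cn := .npp) (n1 := ndF0q1) (n2 := ndF0q2) (pc := pcF0) (cut := cut_B00pp_102_s1) (xt := Ext.none) (P1 := 536870912) (W1 := 536870912) (P2 := 0) (W2 := 536870912) (P3 := 134217728) (W3 := 67108864)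
    rfl rfl rfl (fun _ => rfl) k0_B00pp_102_s1

theorem s_B00pp_102_s1 {κ x : ℝ} (hκ : κ * h0 = ken x) (hx : ((134217728 : ℕ) : ℝ) / S ≤ x)
    (hx' : x ≤ (((134217728 : ℕ) : ℝ) + (67108864 : ℕ)) / S) :
    AltB (VF κ) PP tKF tL pcF [⟨3, 0, 0, 1449551462⟩] 1 0 2 0 0 (sgb true) (sgb true) x :=
  strip_altB (m := 1449551462) true rfl hκ covF01 covF02 hx hx' c_B00pp_102_s1 cutB_nil (noExt_B)

noncomputable def cut_B00pp_102_s3 : Cut := Cut.of [[⟨3, 0, 0, 2845415833⟩]]

noncomputable def f_B00pp_102_s3 : ℕ → ℕ → ℕ → ℕ → Bool := onCell 536870912 536870912 0 536870912 134217728 67108864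
    (rowFK 0 false true true .npp 1 0 2 (qsf 536870912 536870912 0 536870912 0) ndF0q1 ndF0q2 pcF0 cut_B00pp_102_s3 Ext.none)

def k0_B00pp_102_s3 : ∃ t, chk3 f_B00pp_102_s3 t 1 1 1 = true :=
  ⟨(l 6), by decide +kernel⟩

theorem c_B00pp_102_s3 : CertF 536870912 536870912 0 536870912 134217728 67108864 false true true .npp 1 0 2
    ndF0q1 ndF0q2 pcF0 cut_B00pp_102_s3 Ext.none :=
  certFK0 (fam := false) (s1 := true) (s2 := true) (a := 1) (b := 0) (c := 2) (cn := .npp) (n1 := ndF0q1) (n2 := ndF0q2) (pc := pcF0) (cut := cut_B00pp_102_s3) (xt := Ext.none) (P1 := 536870912) (W1 := 536870912) (P2 := 0) (W2 := 536870912) (P3 := 134217728) (W3 := 67108864)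
    rfl rfl rfl k0_B00pp_102_s3

theorem s_B00pp_102_s3 {κ x : ℝ} (hκ : κ * h0 = ken x) (hx : ((134217728 : ℕ) : ℝ) / S ≤ x)
    (hx' : x ≤ (((134217728 : ℕ) : ℝ) + (67108864 : ℕ)) / S) :
    AltB (VF κ) PP tKF tL pcF [⟨4, 0, 0, 2845415833⟩] 1 0 2 0 0 (sgb true) (sgb true) x :=
  strip_altB (m := 2845415833) false rfl hκ covF01 covF02 hx hx' c_B00pp_102_s3 cutB_nil (noExt_B)

noncomputable def cut_B00pp_112_s1 : Cut := Cut.of [[⟨4, 0, 0, 1449551462⟩]]

noncomputable def xt_B00pp_112_s1 : Ext := strExt dd false true true .u0 .u2 .u0m .dn 1 1 2 rfl rfl gf1 vv ndF0q1 ndF0q2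

noncomputable def f_B00pp_112_s1 : ℕ → ℕ → ℕ → ℕ → Bool := onCell 536870912 536870912 0 536870912 134217728 67108864
    (rowFK 0 false true true .dn 1 1 2 (qsf 536870912 536870912 0 536870912 1) ndF0q1 ndF0q2 pcF1 cut_B00pp_112_s1 xt_B00pp_112_s1)

def k0_B00pp_112_s1 : ∃ t, chk3 f_B00pp_112_s1 t 1 1 1 = true :=
  ⟨(a (b (a (b (b (a (l 544129295) (l 545303567)) (a (b (l 544557327) (l 3)) (l 3))) (l 3)) (l 3)) (l 3)) (l 1)), by decide +kernel⟩

theorem c_B00pp_112_s1 : CertF 536870912 536870912 0 536870912 134217728 67108864 false true true .dn 1 1 2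
    ndF0q1 ndF0q2 pcF1 cut_B00pp_112_s1 xt_B00pp_112_s1 :=
  certFK0 (fam := false) (s1 := true) (s2 := true) (a := 1) (b := 1) (c := 2) (cn := .dn) (n1 := ndF0q1) (n2 := ndF0q2) (pc := pcF1) (cut := cut_B00pp_112_s1) (xt := xt_B00pp_112_s1) (P1 := 536870912) (W1 := 536870912) (P2 := 0) (W2 := 536870912) (P3 := 134217728) (W3 := 67108864)
    rfl rfl rfl k0_B00pp_112_s1

theorem s_B00pp_112_s1 {κ x : ℝ} (hκ : κ * h0 = ken x) (hx : ((134217728 : ℕ) : ℝ) / S ≤ x)
    (hx' : x ≤ (((134217728 : ℕ) : ℝ) + (67108864 : ℕ)) / S) :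
    AltB (VF κ) PP tKF tL pcF [⟨3, 0, 0, 1449551462⟩] 1 1 2 0 0 (sgb true) (sgb true) x :=
  strip_altB (m := 1449551462) true rfl hκ covF01 covF02 hx hx' c_B00pp_112_s1 cutB_nil ((okx hx hx').extB (T := tt) (sideF hx hx') hκ rfl rfl (.O 1 true) (.O 2 true) (Or.inr rfl))

noncomputable def cut_B00pp_112_s3 : Cut := Cut.of [[⟨3, 0, 0, 2845415833⟩]]

noncomputable def f_B00pp_112_s3 : ℕ → ℕ → ℕ → ℕ → Bool := onCell 536870912 536870912 0 536870912 134217728 67108864
    (rowFK 0 false true true .dn 1 1 2 (qsf 536870912 536870912 0 536870912 1) ndF0q1 ndF0q2 pcF1 cut_B00pp_112_s3 Ext.none)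

def k0_B00pp_112_s3 : ∃ t, chk3 f_B00pp_112_s3 t 1 1 1 = true :=
  ⟨(l 6), by decide +kernel⟩

theorem c_B00pp_112_s3 : CertF 536870912 536870912 0 536870912 134217728 67108864 false true true .dn 1 1 2
    ndF0q1 ndF0q2 pcF1 cut_B00pp_112_s3 Ext.none :=
  certFK0 (fam := false) (s1 := true) (s2 := true) (a := 1) (b := 1) (c := 2) (cn := .dn) (n1 := ndF0q1) (n2 := ndF0q2) (pc := pcF1) (cut := cut_B00pp_112_s3) (xt := Ext.none) (P1 := 536870912) (W1 := 536870912) (P2 := 0) (W2 := 536870912) (P3 := 134217728) (W3 := 67108864)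
    rfl rfl rfl k0_B00pp_112_s3

theorem s_B00pp_112_s3 {κ x : ℝ} (hκ : κ * h0 = ken x) (hx : ((134217728 : ℕ) : ℝ) / S ≤ x)
    (hx' : x ≤ (((134217728 : ℕ) : ℝ) + (67108864 : ℕ)) / S) :
    AltB (VF κ) PP tKF tL pcF [⟨4, 0, 0, 2845415833⟩] 1 1 2 0 0 (sgb true) (sgb true) x :=
  strip_altB (m := 2845415833) false rfl hκ covF01 covF02 hx hx' c_B00pp_112_s3 cutB_nil (noExt_B)

noncomputable def cut_B00pp_202_s1 : Cut := Cut.of [[⟨4, 0, 0, 1449551462⟩]]

noncomputable def f_B00pp_202_s1 : ℕ → ℕ → ℕ → ℕ → Bool := onCell 0 536870912 0 536870912 134217728 67108864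
    (rowFK 0 false true true .pp 2 0 2 (qsf 0 536870912 0 536870912 0) ndF0q2 ndF0q2 pcF0 cut_B00pp_202_s1 Ext.none)

def k0_B00pp_202_s1 : ∃ t, chk3 f_B00pp_202_s1 t 1 1 1 = true :=
  ⟨(l 3), by decide +kernel⟩

theorem c_B00pp_202_s1 : CertF 0 536870912 0 536870912 134217728 67108864 false true true .pp 2 0 2
    ndF0q2 ndF0q2 pcF0 cut_B00pp_202_s1 Ext.none :=
  certFK0 (fam := false) (s1 := true) (s2 := true) (a := 2) (b := 0) (c := 2) (cn := .pp) (n1 := ndF0q2) (n2 := ndF0q2) (pc := pcF0) (cut := cut_B00pp_202_s1) (xt := Ext.none) (P1 := 0) (W1 := 536870912) (P2 := 0) (W2 := 536870912) (P3 := 134217728) (W3 := 67108864)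
    rfl rfl rfl k0_B00pp_202_s1

theorem s_B00pp_202_s1 {κ x : ℝ} (hκ : κ * h0 = ken x) (hx : ((134217728 : ℕ) : ℝ) / S ≤ x)
    (hx' : x ≤ (((134217728 : ℕ) : ℝ) + (67108864 : ℕ)) / S) :
    AltB (VF κ) PP tKF tL pcF [⟨3, 0, 0, 1449551462⟩] 2 0 2 0 0 (sgb true) (sgb true) x :=
  strip_altB (m := 1449551462) true rfl hκ covF02 covF02 hx hx' c_B00pp_202_s1 cutB_nil (noExt_B)

noncomputable def cut_B00pp_202_s3 : Cut := Cut.of [[⟨3, 0, 0, 2845415833⟩]]

noncomputable def f_B00pp_202_s3 : ℕ → ℕ → ℕ → ℕ → Bool := onCell 0 536870912 0 536870912 134217728 67108864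
    (rowFK 0 false true true .pp 2 0 2 (qsf 0 536870912 0 536870912 0) ndF0q2 ndF0q2 pcF0 cut_B00pp_202_s3 Ext.none)

def k0_B00pp_202_s3 : ∃ t, chk3 f_B00pp_202_s3 t 1 1 1 = true :=
  ⟨(l 3), by decide +kernel⟩

theorem c_B00pp_202_s3 : CertF 0 536870912 0 536870912 134217728 67108864 false true true .pp 2 0 2
    ndF0q2 ndF0q2 pcF0 cut_B00pp_202_s3 Ext.none :=
  certFK0 (fam := false) (s1 := true) (s2 := true) (a := 2) (b := 0) (c := 2) (cn := .pp) (n1 := ndF0q2) (n2 := ndF0q2) (pc := pcF0) (cut := cut_B00pp_202_s3) (xt := Ext.none) (P1 := 0) (W1 := 536870912) (P2 := 0) (W2 := 536870912) (P3 := 134217728) (W3 := 67108864)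
    rfl rfl rfl k0_B00pp_202_s3

theorem s_B00pp_202_s3 {κ x : ℝ} (hκ : κ * h0 = ken x) (hx : ((134217728 : ℕ) : ℝ) / S ≤ x)
    (hx' : x ≤ (((134217728 : ℕ) : ℝ) + (67108864 : ℕ)) / S) :
    AltB (VF κ) PP tKF tL pcF [⟨4, 0, 0, 2845415833⟩] 2 0 2 0 0 (sgb true) (sgb true) x :=
  strip_altB (m := 2845415833) false rfl hκ covF02 covF02 hx hx' c_B00pp_202_s3 cutB_nil (noExt_B)

noncomputable def cut_B00pm_001_s1 : Cut := Cut.of [[⟨4, 0, 0, 1449551462⟩]]

noncomputable def f_B00pm_001_s1 : ℕ → ℕ → ℕ → ℕ → Bool := onCell 0 536870912 536870912 536870912 134217728 67108864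
    (rowFK 0 false true false .up 0 0 1 (qsf 0 536870912 536870912 536870912 0) ndF0q0 ndF0q1 pcF0 cut_B00pm_001_s1 Ext.none)

def k0_B00pm_001_s1 : ∃ t, chk3 f_B00pm_001_s1 t 1 1 1 = true :=
  ⟨(l 6), by decide +kernel⟩

theorem c_B00pm_001_s1 : CertF 0 536870912 536870912 536870912 134217728 67108864 false true false .up 0 0 1
    ndF0q0 ndF0q1 pcF0 cut_B00pm_001_s1 Ext.none :=
  certFK0 (fam := false) (s1 := true) (s2 := false) (a := 0) (b := 0) (c := 1) (cn := .up) (n1 := ndF0q0) (n2 := ndF0q1) (pc := pcF0) (cut := cut_B00pm_001_s1) (xt := Ext.none) (P1 := 0) (W1 := 536870912) (P2 := 536870912) (W2 := 536870912) (P3 := 134217728) (W3 := 67108864)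
    rfl rfl rfl k0_B00pm_001_s1

theorem s_B00pm_001_s1 {κ x : ℝ} (hκ : κ * h0 = ken x) (hx : ((134217728 : ℕ) : ℝ) / S ≤ x)
    (hx' : x ≤ (((134217728 : ℕ) : ℝ) + (67108864 : ℕ)) / S) :
    AltB (VF κ) PP tKF tL pcF [⟨3, 0, 0, 1449551462⟩] 0 0 1 0 0 (sgb true) (sgb false) x :=
  strip_altB (m := 1449551462) true rfl hκ covF00 covF01 hx hx' c_B00pm_001_s1 cutB_nil (noExt_B)

noncomputable def cut_B00pm_001_s3 : Cut := Cut.of [[⟨3, 0, 0, 2845415833⟩]]

noncomputable def xt_B00pm_001_s3 : Ext := strExt dd false true false .u0 .u0m .s0m .up 0 0 1 rfl rfl gl0 vv ndF0q0 ndF0q1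

noncomputable def f_B00pm_001_s3 : ℕ → ℕ → ℕ → ℕ → Bool := onCell 0 536870912 0 536870912 134217728 67108864
    (rowFK 1 false true false .up 0 0 1 (qsf 0 536870912 536870912 536870912 0) ndF0q0 ndF0q1 pcF0 cut_B00pm_001_s3 xt_B00pm_001_s3)

def k0_B00pm_001_s3 : ∃ t, chk3 f_B00pm_001_s3 t 1 1 1 = true :=
  ⟨(a (l 4) (a (b (l 4) (b (l 4) (a (b (l 4) (b (l 4) (a (l 4) (l 552074767)))) (b (a (l 4) (b (l 548014863) (l 548092175))) (b (a (l 549817615) (l 548480271)) (a (c (l 550801167) (l 551356431)) (b (l 549421071) (l 550241807)))))))) (b (a (l 4) (b (l 4) (a (b (l 4) (b (l 545842703) (l 545725967))) (b (b (a (l 4) (l 545075471)) (l 545245967)) (b (l 545171983) (l 544952847)))))) (b (a (b (a (l 4) (l 547912975)) (a (b (l 547001103) (l 546895887)) (b (l 546006031) (l 545758991)))) (b (a (b (l 545542415) (l 545296399)) (b (l 544688143) (l 544323343))) (a (b (l 544966415) (l 544568079)) (b (l 17127984) (l 17346256))))) (a (b (a (b (l 546786319)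 (l 546667023)) (b (l 545473551) (l 545872143))) (a (b (l 549040655) (b (l 548866575) (a (l 549897999) (c (a (l 17494136) (b (l 17526488) (l 17581888))) (c (a (l 17462280) (b (l 17492816) (l 17544912))) (a (b (l 17404480) (l 17469744)) (b (l 17470432) (a (l 17600304) (l 6))))))))) (b (a (l 547335183) (b (a (l 17333848) (l 17391016)) (b (l 17527944) (l 6)))) (a (a (b (a (l 17445840) (l 17482240)) (l 6)) (a (b (l 17500992) (l 6)) (l 6))) (l 6))))) (b (b (a (l 544302863) (a (l 17531552) (l 6))) (a (a (b (l 17252656) (l 17522672)) (l 6)) (l 6))) (a (l 6) (l 6)))))))), by decide +kernel⟩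

theorem c_B00pm_001_s3 : CertF 0 536870912 536870912 536870912 134217728 67108864 false true false .up 0 0 1
    ndF0q0 ndF0q1 pcF0 cut_B00pm_001_s3 xt_B00pm_001_s3 :=
  certFK1 (fam := false) (s1 := true) (s2 := false) (a := 0) (b := 0) (c := 1) (cn := .up) (n1 := ndF0q0) (n2 := ndF0q1) (pc := pcF0) (cut := cut_B00pm_001_s3) (xt := xt_B00pm_001_s3) (P1 := 0) (W1 := 536870912) (P2 := 536870912) (W2 := 536870912) (P3 := 134217728) (W3 := 67108864)
    rfl rfl rfl (fun _ => rfl) k0_B00pm_001_s3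

theorem s_B00pm_001_s3 {κ x : ℝ} (hκ : κ * h0 = ken x) (hx : ((134217728 : ℕ) : ℝ) / S ≤ x)
    (hx' : x ≤ (((134217728 : ℕ) : ℝ) + (67108864 : ℕ)) / S) :
    AltB (VF κ) PP tKF tL pcF [⟨4, 0, 0, 2845415833⟩] 0 0 1 0 0 (sgb true) (sgb false) x :=
  strip_altB (m := 2845415833) false rfl hκ covF00 covF01 hx hx' c_B00pm_001_s3 cutB_nil ((okx hx hx').extB (T := tt) (sideF hx hx') hκ rfl rfl (.O 0 true) (.O 1 false) (Or.inl rfl))

noncomputable def cut_B00pm_011_s1 : Cut := Cut.of [[⟨4, 0, 0, 1449551462⟩], [⟨0, 0, 0, 67108864⟩, ⟨1, 1, 0, 67108864⟩, ⟨2, 1, 0, 67108864⟩], [⟨0, 0, 1, 41943040⟩, ⟨1, 1, 2, 41943040⟩, ⟨2, 1, 0, 16777216⟩]]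

noncomputable def f_B00pm_011_s1 : ℕ → ℕ → ℕ → ℕ → Bool := onCell 0 536870912 536870912 536870912 134217728 67108864
    (rowFK 0 false true false .pnn 0 1 1 (qsf 0 536870912 536870912 536870912 1) ndF0q0 ndF0q1 pcF1 cut_B00pm_011_s1 Ext.none)

def k0_B00pm_011_s1 : ∃ t, chk3 f_B00pm_011_s1 t 1 1 1 = true :=
  ⟨(l 6), by decide +kernel⟩

theorem c_B00pm_011_s1 : CertF 0 536870912 536870912 536870912 134217728 67108864 false true false .pnn 0 1 1
    ndF0q0 ndF0q1 pcF1 cut_B00pm_011_s1 Ext.none :=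
  certFK0 (fam := false) (s1 := true) (s2 := false) (a := 0) (b := 1) (c := 1) (cn := .pnn) (n1 := ndF0q0) (n2 := ndF0q1) (pc := pcF1) (cut := cut_B00pm_011_s1) (xt := Ext.none) (P1 := 0) (W1 := 536870912) (P2 := 536870912) (W2 := 536870912) (P3 := 134217728) (W3 := 67108864)
    rfl rfl rfl k0_B00pm_011_s1

theorem s_B00pm_011_s1 {κ x : ℝ} (hκ : κ * h0 = ken x) (hx : ((134217728 : ℕ) : ℝ) / S ≤ x)
    (hx' : x ≤ (((134217728 : ℕ) : ℝ) + (67108864 : ℕ)) / S)
    (H : CutB (VF κ) PP tKF tL pcF (Cut.of [[⟨0, 0, 0, 67108864⟩, ⟨1, 1, 0, 67108864⟩, ⟨2, 1, 0, 67108864⟩], [⟨0, 0, 1, 41943040⟩, ⟨1, 1, 2, 41943040⟩, ⟨2, 1, 0, 16777216⟩]]) 0 1 1 0 0 (sgb true) (sgb false) x) :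
    AltB (VF κ) PP tKF tL pcF [⟨3, 0, 0, 1449551462⟩] 0 1 1 0 0 (sgb true) (sgb false) x :=
  strip_altB (m := 1449551462) true rfl hκ covF00 covF01 hx hx' c_B00pm_011_s1 H (noExt_B)

noncomputable def cut_B00pm_011_s3 : Cut := Cut.of [[⟨3, 0, 0, 2845415833⟩], [⟨0, 0, 0, 67108864⟩, ⟨1, 1, 0, 67108864⟩, ⟨2, 1, 0, 67108864⟩], [⟨0, 0, 1, 41943040⟩, ⟨1, 1, 2, 41943040⟩, ⟨2, 1, 0, 16777216⟩]]

noncomputable def xt_B00pm_011_s3 : Ext := strExt dd false true false .u0 .u0m .s0m .pnn 0 1 1 rfl rfl gl1 vv ndF0q0 ndF0q1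

noncomputable def f_B00pm_011_s3 : ℕ → ℕ → ℕ → ℕ → Bool := onCell 536870912 536870912 536870912 536870912 134217728 67108864
    (rowFK 2 false true false .pnn 0 1 1 (qsf 0 536870912 536870912 536870912 1) ndF0q0 ndF0q1 pcF1 cut_B00pm_011_s3 xt_B00pm_011_s3)

def k0_B00pm_011_s3 : ∃ t, chk3 f_B00pm_011_s3 t 2 2 1 = true :=
  ⟨(l 4), by decide +kernel⟩

def k1_B00pm_011_s3 : ∃ t, chk3 f_B00pm_011_s3 t 2 6 1 = true :=
  ⟨(b (a (a (b (l 4) (a (l 548237839) (l 4))) (l 4)) (l 4)) (b (a (a (a (l 547785231) (l 548107023)) (a (c (l 549492751) (l 547398927)) (l 4))) (l 4)) (b (a (a (c (l 548459023) (l 546733839)) (c (l 549329935) (a (l 547010575) (l 547169039)))) (l 4)) (a (a (c (l 548213007) (l 546500111)) (a (l 547772943) (l 548056335))) (a (b (a (c (l 549718031) (l 547034639)) (l 4)) (a (a (l 548155663) (l 548251919)) (l 548359439))) (l 4)))))), by decide +kernel⟩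

def k2_B00pm_011_s3 : ∃ t, chk3 f_B00pm_011_s3 t 4 7 1 = true :=
  ⟨(b (a (a (c (b (l 17309768) (l 17499896)) (b (b (l 17185648) (l 17274400)) (l 17305320))) (b (a (b (l 17162136) (l 17262664)) (l 547170319)) (c (l 17433640) (b (l 17287384) (l 6))))) (a (b (a (l 547301647) (l 547432207)) (b (a (l 17283512) (l 17161984)) (l 17354184))) (a (b (l 547559951) (c (l 17305584) (b (l 17161848) (l 17246592)))) (b (c (l 548864015) (l 546511887)) (c (l 17181784) (b (l 17123776) (l 17210904))))))) (a (l 6) (a (l 6) (b (a (l 17429856) (l 17313520)) (l 6))))), by decide +kernel⟩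

def k3_B00pm_011_s3 : ∃ t, chk3 f_B00pm_011_s3 t 5 14 1 = true :=
  ⟨(b (a (c (a (b (l 549320207) (l 548990223)) (b (l 549683471) (l 549330959))) (a (a (a (l 546529551) (l 546535951)) (b (l 546668047) (l 546377231))) (a (b (l 546621455) (l 546328335)) (b (l 546515727) (l 546222095))))) (b (a (a (l 548084239) (l 4)) (l 4)) (c (a (l 549559055) (a (l 549527567) (l 549392143))) (a (a (l 546038543) (c (l 546692367) (l 544808463))) (b (a (l 545370383) (l 4)) (a (l 544695567) (a (l 544772367) (l 4)))))))) (a (b (a (a (l 547317007) (l 547395599)) (c (l 548973327) (c (l 546731535) (a (l 545322767) (l 545156111))))) (c (a (l 17260048) (a (l 17196104) (l 17151008))) (a (b (a (l 17152400) (l 17113376)) (l 17092160)) (b (c (l 17075600) (l 545031695)) (c (l 17123240) (a (l 17090856) (l 17050720))))))) (a (c (b (l 549181967) (a (l 17104168) (l 16971808))) (b (a (c (l 546577423) (l 544903695)) (a (l 545530383) (l 545355791))) (b (a (l 545503247) (l 545221647))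 (a (c (l 17059056) (l 17009688)) (l 545067279))))) (c (a (b (l 549148175) (l 548760847)) (b (l 549010191) (l 548622095))) (c (b (a (l 546051599) (b (l 545616399) (l 545467663))) (a (l 545732879) (l 545246991))) (b (a (b (l 544069391) (l 543938831)) (b (a (l 543528719) (l 543090191)) (a (l 543407631) (l 542975503)))) (b (a (l 543805199) (a (l 543282191) (l 542856463))) (a (l 543667727) (a (l 543152399) (l 542733071)))))))))), by decide +kernel⟩

def k4_B00pm_011_s3 : ∃ t, chk3 f_B00pm_011_s3 t 5 15 1 = true :=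
  ⟨(b (a (a (b (c (l 17364832) (l 17238192)) (l 17305680)) (c (b (l 17286256) (l 17391576)) (b (a (l 17181392) (l 17057208)) (l 17245056)))) (a (c (b (b (l 17085904) (l 17227192)) (l 17310944)) (a (b (b (a (l 17087808) (l 16982176)) (l 17120184)) (l 17184296)) (b (b (c (l 17060864) (b (l 16995616) (a (l 17025424) (l 17002944)))) (l 16991560)) (l 17056176)))) (b (c (a (b (l 17096424) (l 17155448)) (b (l 17044968) (l 17103832))) (c (a (b (l 17014608) (l 17059560)) (b (l 16967472) (b (l 16998736) (l 17020616)))) (a (b (b (l 16910280) (a (l 16980416) (l 16957824))) (a (l 17008776) (b (l 16975072) (l 16994176)))) (a (b (l 543018255) (b (a (l 16957032) (l 16945088)) (l 16969160))) (a (b (l 16911040) (b (l 16933184) (l 16949976))) (b (l 16858168) (b (l 16921288) (l 16936952)))))))) (c (a (l 17242552) (l 17108440)) (a (b (l 16986944) (l 17113784)) (b (c (l 17055144) (a (l 16997576) (l 16887176))) (c (l 17101512) (l 17022744)))))))) (a (b (l 6)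 (l 6)) (a (b (c (l 17417648) (b (l 17142000) (a (l 6) (l 17246096)))) (l 6)) (b (b (a (l 17157528) (c (l 17279488) (l 17104824))) (c (l 17360104) (c (l 17220784) (a (l 17155128) (l 17102104))))) (b (a (l 17255328) (a (l 17220416) (l 17195304))) (l 6)))))), by decide +kernel⟩

def k5_B00pm_011_s3 : ∃ t, chk3 f_B00pm_011_s3 t 3 2 1 = true :=
  ⟨(l 4), by decide +kernel⟩

def k6_B00pm_011_s3 : ∃ t, chk3 f_B00pm_011_s3 t 3 6 1 = true :=
  ⟨(l 4), by decide +kernel⟩

def k7_B00pm_011_s3 : ∃ t, chk3 f_B00pm_011_s3 t 3 14 1 = true :=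
  ⟨(a (b (l 4) (a (a (c (b (a (c (l 550023183) (l 547410959)) (a (l 548321295) (l 547977231))) (a (l 548328207) (b (l 547883279) (l 547693583)))) (c (b (a (b (l 544873231) (l 544735247)) (b (l 4) (a (l 543963919) (l 543324687)))) (a (b (l 544593679) (l 544446479)) (b (a (l 543834127) (l 543204879)) (a (l 543699471) (l 543079951))))) (b (a (b (b (l 4) (a (l 542543375) (l 541934351))) (a (a (l 542599183) (l 542322191)) (b (l 541885967) (l 541836559)))) (b (l 4) (a (b (l 541173519) (l 540056079)) (a (l 540537359) (l 540083471))))) (a (b (a (c (l 542962191) (l 541747727)) (a (l 541917455) (l 541596175))) (a (c (l 542837775) (l 541640207)) (a (l 541808655) (l 541492495)))) (b (a (c (l 541754127) (b (l 540393231) (l 540351759))) (b (l 540258319) (l 539413263))) (a (b (l 540990735) (l 540405007)) (c (l 540886031) (b (l 539447823) (l 539410703))))))))) (c (b (l 4) (a (b (l 547021583) (a (l 547081743) (l 546549775))) (b (a (l 546047503) (l 4))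 (a (l 545886479) (l 545063951))))) (a (b (l 4) (b (b (c (l 542048271) (a (l 539283215) (l 538131471))) (c (l 541996303) (a (l 539251471) (l 538109199)))) (b (c (l 541942799) (a (l 539218191) (l 538085391))) (c (l 541887759) (a (l 538914831) (l 538059791)))))) (b (l 4) (b (a (b (l 4) (l 537255439)) (l 4)) (a (b (l 537228815) (l 536931855)) (b (l 535525647) (l 535509263)))))))) (a (b (l 4) (b (l 4) (b (l 4) (a (a (c (l 544007183) (l 534615823)) (c (l 542754575) (l 533386767))) (l 4))))) (l 4)))) (l 4)), by decide +kernel⟩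

def k8_B00pm_011_s3 : ∃ t, chk3 f_B00pm_011_s3 t 24 30 1 = true :=
  ⟨(b (c (b (a (l 16908280) (l 547499535)) (a (a (l 17063400) (l 17035824)) (a (l 17007832) (l 16979624)))) (a (c (b (l 544295439) (b (l 16948752) (a (l 16981112) (l 16954728)))) (a (b (a (l 542245903) (l 541981455)) (b (l 16861624) (b (a (l 16919792) (l 16907304)) (l 16921600)))) (b (a (l 541694735) (l 540846607)) (b (l 540649743) (b (l 16846832) (a (a (l 16904792) (l 16898168)) (a (l 16849704) (l 16843256)))))))) (c (b (a (l 16843880) (l 542949647)) (a (l 16878072) (l 16852648))) (c (b (a (l 541537807) (l 540787215)) (a (b (l 16870656) (l 16882280)) (l 540682767))) (b (a (b (l 540219919) (l 540173071)) (b (l 539372303) (l 539063823))) (a (b (l 539856399) (a (a (l 16860864) (l 16854648)) (l 16845544))) (a (a (l 539596815) (l 539380751)) (a (l 539155983) (l 538921743))))))))) (c (a (b (l 17108112) (l 17167544)) (b (b (a (l 17049616) (l 17019864)) (l 16980048)) (a (l 17123760)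 (l 17092624)))) (a (c (b (l 16937552) (l 17045744)) (b (a (b (l 16934752) (l 16952672)) (b (a (l 16914008) (l 16899976)) (l 16924024))) (a (l 16980360) (b (l 16941576) (l 16959608))))) (c (b (a (b (l 16946528) (l 16967784)) (b (c (l 16934920) (l 16901224)) (l 16937200))) (a (l 17000624) (l 16968464))) (b (b (a (c (b (l 16891576) (l 16899776)) (b (a (c (l 16873552) (l 16857032)) (b (l 16850312) (l 16852912))) (l 16823384))) (b (a (a (b (l 16856728) (l 16859088)) (l 16851392)) (l 16841584)) (a (l 16818640) (b (a (l 16847944) (l 16841016)) (l 16847528))))) (a (a (l 16901936) (l 16803056)) (a (l 16829704) (l 16814160)))) (a (b (c (l 16930544) (l 16849504)) (l 16844224)) (a (b (l 16887056) (l 16903200)) (b (l 16786616) (l 16885696))))))))), by decide +kernel⟩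

def k9_B00pm_011_s3 : ∃ t, chk3 f_B00pm_011_s3 t 25 60 1 = true :=
  ⟨(c (a (b (a (l 546896911) (l 546372623)) (a (l 16867496) (l 546189839))) (b (a (l 545719567) (l 544909839)) (a (c (l 547340815) (l 543758095)) (b (l 544786191) (l 544704271))))) (c (a (b (a (l 542218255) (l 541342735)) (a (l 542093583) (l 541231631))) (b (a (l 540294415) (b (l 539054095) (l 539019023))) (a (l 540199695) (b (l 538981903) (l 538942991))))) (a (b (a (c (l 539899151) (b (l 538375695) (a (l 16801624) (l 16792880)))) (b (l 538032399) (l 537466639))) (a (a (b (l 539315983) (l 16782424)) (a (l 538385679) (l 538660879))) (a (a (l 538388239) (l 538103823)) (a (l 537807375) (l 537498383))))) (b (a (b (l 536714767) (l 536696591)) (b (l 535153935) (l 535148559))) (a (b (l 536676623) (l 536655119)) (b (l 535141391) (l 535132431))))))), by decide +kernel⟩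

def k10_B00pm_011_s3 : ∃ t, chk3 f_B00pm_011_s3 t 25 61 1 = true :=
  ⟨(c (a (b (a (b (l 16989840) (l 16932760)) (b (l 16959616) (b (l 16893976) (l 16907064)))) (a (l 16975936) (b (l 16927856) (l 17039752)))) (a (b (b (l 16845648) (b (l 16862376) (a (l 16882064) (l 16865616)))) (b (a (l 16901960) (l 16884416)) (l 16877976))) (b (b (l 544084239) (a (l 16844112) (l 16828152))) (a (b (b (l 16860400) (l 16956872)) (l 16892128)) (b (b (b (l 16840416) (l 16845768)) (l 16854832)) (l 16873232)))))) (a (c (b (b (a (l 16889912) (l 16862152)) (a (l 16905672) (b (l 16870752) (l 16878056)))) (a (l 16892688) (b (l 16890936) (l 16908696)))) (b (b (b (a (l 16790896) (l 16797264)) (a (c (l 16842208) (a (b (l 16814192) (l 16815616)) (l 16801520))) (l 16798384))) (a (a (l 16798528) (a (l 16786728) (b (l 16776128) (l 16823688)))) (a (b (b (l 16806232) (l 16807784)) (l 16811648)) (b (l 16792824) (l 16795536))))) (a (a (b (l 16769872) (l 16867888)) (b (l 16794896)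 (l 16849800))) (a (b (l 16819776) (l 16831440)) (b (l 16802592) (l 16812832)))))) (b (a (b (c (l 16835248) (l 536631823)) (c (b (l 16841360) (a (l 16853792) (l 16838232))) (b (l 16772088) (a (b (l 16779120) (l 16780472)) (l 16743776))))) (a (b (l 537372943) (c (l 16821592) (l 16751288))) (b (l 536628495) (l 536604431)))) (a (b (a (c (l 16865080) (l 16785328)) (c (l 16847704) (l 16768040))) (c (l 16829816) (a (l 16793992) (l 16774968)))) (b (b (c (a (l 16827104) (b (l 16809720) (l 16811432))) (a (l 16749688) (l 16731120))) (c (l 16824528) (l 16743032))) (c (a (l 16843432) (l 16824304)) (a (l 16755784) (l 16736488)))))))), by decide +kernel⟩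

def k11_B00pm_011_s3 : ∃ t, chk3 f_B00pm_011_s3 t 24 31 1 = true :=
  ⟨(b (c (a (a (l 17269728) (l 17242256)) (a (l 17213288) (b (l 17151992) (l 17211528)))) (a (b (a (l 17062312) (l 16948192)) (a (l 17105360) (l 17074592))) (c (a (b (l 17045688) (l 17091904)) (b (l 17011832) (l 17056776))) (a (b (a (l 16963216) (l 16862584)) (a (l 17000904) (l 16983544))) (b (b (c (l 16933280) (l 16846560)) (l 16864968)) (b (l 16861600) (l 16963656))))))) (b (c (a (l 17343248) (a (l 17301968) (l 17270840))) (b (a (l 17122552) (a (c (l 17126928) (l 16979136)) (c (l 17091144) (b (l 16893808) (l 16987120))))) (a (l 17145544) (a (l 17096296) (l 16974392))))) (c (a (l 17401208) (l 17346520)) (a (l 17095864) (a (c (l 17187704) (l 17072272)) (b (l 16996296) (l 17018544))))))), by decide +kernel⟩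

def k12_B00pm_011_s3 : ∃ t, chk3 f_B00pm_011_s3 t 25 62 1 = true :=
  ⟨(c (a (a (b (l 17118104) (l 17176888)) (b (l 16998456) (l 17139816))) (c (b (a (l 17094424) (l 17055632)) (a (l 17156704) (l 17115904))) (b (a (b (l 16983096) (l 17007040)) (b (l 16943640) (l 16965672))) (a (l 17043776) (a (l 17011056) (l 16988336)))))) (a (c (b (a (l 16933200) (a (l 16946448) (l 16926744))) (a (l 16933736) (a (l 16986608) (l 16965096)))) (b (a (a (b (l 16882792) (l 16898416)) (b (l 16863592) (l 16878160))) (b (a (l 16844008) (l 16824032)) (a (l 16857400) (l 16836136)))) (a (b (a (l 16914712) (l 16893464)) (a (l 16931648) (l 16909456))) (b (a (l 16871592) (l 16849096)) (a (l 16886536) (l 16862872)))))) (c (b (a (a (l 16906576) (b (l 16877880) (l 16894176))) (b (a (l 16857520) (l 16836808)) (a (l 16872456) (l 16850232)))) (a (a (c (l 16970696) (l 16915144)) (b (l 16911192) (l 16928896))) (b (a (l 16888192) (l 16780648)) (a (l 16904680) (l 16816736)))))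 (b (a (b (a (l 16803696) (l 16783016)) (a (l 16814368) (l 16792104))) (b (a (l 16762000) (l 16740672)) (a (l 16769336) (l 16746080)))) (a (b (a (l 16784016) (l 16760240)) (a (l 16796496) (l 16771272))) (b (a (l 16756776) (l 16742144)) (a (b (l 16784712) (l 16789680)) (b (l 16758264) (l 16762368))))))))), by decide +kernel⟩

def k13_B00pm_011_s3 : ∃ t, chk3 f_B00pm_011_s3 t 25 63 1 = true :=
  ⟨(c (a (b (b (a (l 17221160) (l 17183392)) (l 17148736)) (c (l 17341880) (l 17130368))) (c (b (b (l 17099232) (l 17214984)) (l 17264000)) (b (b (a (l 17081456) (c (l 17066672) (l 17003504))) (a (l 17107832) (l 17060096))) (a (l 17149080) (b (l 17086608) (l 17113640)))))) (a (c (b (b (a (l 16966728) (b (l 17001472) (l 17012008))) (a (l 17073728) (l 17028928))) (a (l 17109312) (b (l 17051840) (l 17075248)))) (b (b (a (b (l 16849592) (l 16858216)) (b (l 16802144) (a (l 16906240) (l 22)))) (a (l 16872160) (a (l 16919456) (l 22)))) (a (b (l 16891104) (l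 16910648)) (a (b (l 16937544) (l 16872464)) (l 22))))) (b (c (b (b (a (l 16870880) (a (l 16917504) (l 16891496))) (a (a (l 16976704) (l 16868152)) (a (l 16853024) (l 22)))) (a (a (l 16992856) (l 16967528)) (a (l 16857240) (l 22)))) (b (b (a (a (l 16848336) (l 16822080)) (a (l 16794896) (l 16766744))) (l 22)) (l 22))) (c (a (b (l 16918256) (l 16940768)) (a (b (l 16877992) (l 16899544)) (l 22))) (l 22))))), by decide +kernel⟩

def k14_B00pm_011_s3 : ∃ t, chk3 f_B00pm_011_s3 t 26 60 1 = true :=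
  ⟨(a (c (b (a (b (l 543938831) (l 543868943)) (a (l 543001359) (l 542315279))) (a (b (l 543796751) (l 543454479)) (b (l 542575375) (l 541437967)))) (b (a (b (l 534611471) (l 534605071)) (b (l 533399567) (l 533678607))) (a (b (c (l 537492239) (l 533317135)) (c (l 537465871) (l 533323279))) (b (c (l 535699727) (l 532784655)) (c (l 535688207) (l 532848399)))))) (a (c (b (b (l 539820559) (l 540042255)) (b (l 539993359) (l 539673615))) (b (b (l 532892175) (l 532688911)) (b (l 532753935) (c (l 533810703) (l 532790799))))) (c (b (b (l 4) (c (l 542027535) (l 536445455))) (b (c (l 541973775) (l 536433935)) (a (l 539665167) (l 538637839)))) (b (b (l 4) (l 533167887)) (b (l 532963599) (l 532759055)))))), by decide +kernel⟩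

def k15_B00pm_011_s3 : ∃ t, chk3 f_B00pm_011_s3 t 26 122 1 = true :=
  ⟨(c (a (a (b (l 542036751) (c (l 16922648) (l 540704271))) (b (a (l 16807672) (l 16804728)) (a (l 16812640) (l 541231887)))) (a (b (a (l 541361423) (l 540538383)) (a (l 540497679) (l 539950095))) (a (b (l 539623183) (l 539579407)) (b (l 538605071) (l 538569999))))) (b (b (a (a (l 535383055) (l 534502671)) (a (l 532867599) (l 532807695))) (a (a (l 535846159) (l 535040783)) (a (l 533436431) (l 532839183)))) (a (a (c (l 538212367) (l 533329935)) (a (l 535291407) (l 534502159))) (a (a (l 533499919) (l 532931343)) (a (l 532900879) (l 532871439)))))), by decide +kernel⟩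

def k16_B00pm_011_s3 : ∃ t, chk3 f_B00pm_011_s3 t 52 123 1 = true :=
  ⟨(c (a (b (b (a (l 16836624) (l 16809248)) (a (l 16836488) (b (l 16836712) (l 16820840)))) (a (b (l 16848176) (l 16859992)) (b (l 16829104) (l 16840280)))) (b (a (b (l 16834552) (b (l 16840224) (a (l 16848816) (l 16839760)))) (b (l 16818064) (b (l 16823080) (l 16826464)))) (a (b (l 16820368) (l 16820344)) (b (b (a (l 16834888) (l 16825520)) (l 16834904)) (l 16800216))))) (b (a (a (b (c (l 16794752) (l 16718536)) (c (l 16797632) (l 16716464))) (b (l 16762416) (b (a (l 16764600) (l 16756520)) (l 16760680)))) (a (b (l 16747912) (c (b (l 16763224) (l 16805024)) (l 16721496))) (c (b (l 16749528) (l 16789024)) (l 16728376)))) (c (a (a (l 16805032) (l 16785664)) (a (b (l 16764792) (l 16767768)) (b (b (l 16787720) (l 16746416)) (l 16747752)))) (a (a (l 16717112) (l 16697720)) (b (a (b (l 16777160) (l 16774368)) (l 16738680)) (l 16734232)))))), by decide +kernel⟩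

def k17_B00pm_011_s3 : ∃ t, chk3 f_B00pm_011_s3 t 53 123 1 = true :=
  ⟨(c (c (a (b (a (l 16842608) (l 542935311)) (b (a (b (l 16895800) (l 16858816)) (a (l 16842192) (l 16874768))) (a (l 16909408) (a (l 16894032) (l 16841760))))) (b (a (l 541619983) (l 540481295)) (b (a (l 16818944) (l 16800704)) (a (b (a (l 16829192) (l 16819432)) (l 16828792)) (b (l 16805000) (a (b (l 16812184) (l 16856224)) (b (l 16844240) (l 16803864)))))))) (a (b (a (l 538859535) (l 537937423)) (b (a (b (l 16812000) (a (l 16818720) (l 16809112))) (b (l 16794592) (a (l 16799864) (l 16790824)))) (a (l 16818368) (a (l 16803232) (b (l 16792008) (l 16794312)))))) (b (a (l 537721359) (l 537394703)) (b (a (l 16798584) (l 16802696)) (a (b (a (l 16803360) (l 16794056)) (l 16799952)) (b (l 16801400) (a (b (l 16805592) (l 16764088)) (b (l 16754248) (l 16795944))))))))) (b (a (c (a (l 16775360) (l 16761072)) (l 532974607)) (a (l 532961807) (l 532932111))) (a (b (c (a (b (l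 16770568) (l 16769424)) (b (l 16712224) (l 16751688))) (a (l 16722992) (l 16748416))) (c (a (l 16727784) (l 16749792)) (a (l 16737240) (b (l 16742512) (l 16739480))))) (a (b (l 16753112) (c (c (b (l 16753624) (l 16710440)) (l 16746112)) (l 16724408))) (b (l 16756840) (a (l 16728704) (l 16751880))))))), by decide +kernel⟩

def k18_B00pm_011_s3 : ∃ t, chk3 f_B00pm_011_s3 t 27 60 1 = true :=
  ⟨(a (b (a (l 4) (l 4)) (a (c (b (a (l 537514511) (l 536227855)) (a (l 537494031) (l 536218639))) (b (a (l 532656399) (l 532631055)) (b (l 532689935) (l 532721167)))) (c (b (a (l 534792207) (l 4)) (a (l 534795535) (l 534010639))) (b (l 532659471) (l 532654607))))) (b (l 4) (a (b (l 4) (c (a (l 533171727) (l 533435919)) (l 532765455))) (l 4)))), by decide +kernel⟩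

def k19_B00pm_011_s3 : ∃ t, chk3 f_B00pm_011_s3 t 27 61 1 = true :=
  ⟨(b (a (c (a (a (b (l 537470991) (l 537445647)) (b (l 536206607) (l 537265935))) (b (a (l 535869711) (c (l 536665103) (l 532731919))) (a (b (l 534795279) (l 535330319)) (c (l 536650255) (l 532797199))))) (a (b (l 532766991) (l 532828175)) (b (l 532783375) (b (l 532762895) (l 532792335))))) (a (c (b (a (c (l 535099919) (l 532698127)) (l 533472271)) (a (c (l 535098895) (l 532763151)) (c (l 533622799) (l 532729871)))) (b (l 532737807) (a (l 532474639) (l 532721167)))) (a (c (b (l 533736207) (l 533770767)) (b (l 532667663) (l 532700175))) (b (a (l 532681231) (l 532689167)) (b (l 533768463) (l 532699919)))))) (a (b (c (a (a (b (l 16788640) (l 16794480)) (b (l 536448527) (l 536976399))) (a (b (l 535864847) (l 536398863)) (c (l 537169679) (l 532861711)))) (a (a (l 532903439) (l 532876047)) (l 532835343))) (a (c (a (b (l 537932559) (b (l 16795416) (a (l 16800440) (l 16801456))))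 (b (l 537503759) (a (l 16792344) (l 16783384)))) (b (l 532933647) (a (l 16733992) (l 16737960)))) (c (c (a (b (l 16790448) (l 537960975)) (b (l 16784936) (l 16784440))) (a (b (l 532946703) (l 16763536)) (l 533463055))) (l 532910863)))) (a (c (c (b (a (l 536437263) (b (l 533364751) (l 16771752))) (a (b (l 16780480) (l 16777920)) (b (l 16766888) (l 16782968)))) (b (a (l 532826895) (l 532793359)) (a (l 532890895) (l 532856847)))) (b (l 532854543) (c (l 532853775) (l 532837135)))) (b (a (a (l 533840911) (l 532753167)) (c (l 532995343) (l 532736783))) (b (c (a (l 532812047) (l 532776719)) (l 532788495)) (c (a (l 532845071) (l 532809487)) (l 532817423))))))), by decide +kernel⟩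

def k20_B00pm_011_s3 : ∃ t, chk3 f_B00pm_011_s3 t 52 62 1 = true :=
  ⟨(c (c (b (a (b (l 17000744) (l 17029056)) (b (a (l 16969712) (l 16948552)) (l 16985352))) (a (l 17072256) (b (l 17012048) (l 17039192)))) (b (a (b (a (l 16913040) (l 16892184)) (l 16838320)) (b (a (l 16871000) (l 16807576)) (a (l 16888256) (l 16865000)))) (a (b (l 16858552) (c (l 16994120) (l 16932552))) (b (a (l 16906320) (l 16881360)) (a (l 16925128) (c (l 16930560) (l 16866592))))))) (b (a (c (b (a (l 16815768) (l 16794424)) (a (l 16827504) (l 16762344))) (b (a (l 16719072) (l 16697224)) (a (l 16722336) (l 16740072)))) (b (c (a (l 16772824) (l 16751000)) (a (l 16693032) (l 16694824))) (a (b (l 16726072) (l 16727912)) (b (l 16702104) (l 16744608))))) (b (a (a (b (l 16739232) (l 16743800)) (a (l 16743232) (l 16740672))) (a (b (l 16730064) (l 16743016)) (b (l 16745520) (l 16746760)))) (c (a (a (b (l 16850288) (l 16773416)) (b (l 16823976) (l 16788216))) (a (b (l 16796832)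 (l 16760128)) (b (l 16768832) (l 16752056)))) (a (a (b (l 16731000) (l 16734144)) (b (l 16702888) (l 16746912))) (a (a (l 16700456) (l 16700960)) (l 16701752))))))), by decide +kernel⟩

def k21_B00pm_011_s3 : ∃ t, chk3 f_B00pm_011_s3 t 53 62 1 = true :=
  ⟨(b (c (a (b (a (b (l 16809880) (l 16798088)) (b (l 16799000) (l 16796704))) (a (b (l 16807488) (l 16817096)) (b (l 16784168) (l 16792824)))) (b (a (b (b (l 16796760) (l 16789736)) (l 16795064)) (b (b (a (l 16812304) (l 16801704)) (l 16799336)) (a (l 16777976) (l 16787504)))) (a (b (l 16802400) (l 16768040)) (b (l 16778344) (l 16784720))))) (a (b (c (a (l 16749984) (l 16748864)) (a (l 16696664) (l 16740504))) (c (a (l 16731856) (l 16706880)) (l 16704632))) (a (b (c (l 16741640) (l 16742440)) (b (l 16701368) (l 16702272))) (b (a (l 16743536) (l 16744536)) (l 16703616))))) (c (c (a (b (l 16879648) (c (l 17021040) (l 16955304))) (b (a (l 16925320) (l 16815056)) (a (l 16947512) (l 16835328))))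 (a (b (a (l 16771824) (b (l 16826192) (l 16832592))) (a (b (l 16867144) (l 16791160)) (b (l 16755360) (l 16762256)))) (b (a (b (l 16799760) (l 16804976)) (b (l 16772728) (l 16776600))) (a (b (l 16768520) (l 16774288)) (b (l 16780784) (l 16764296)))))) (c (b (a (b (a (l 16734848) (l 16707784)) (a (l 16737248) (l 16708832))) (a (l 16703760) (l 16705336))) (a (b (a (l 16739968) (l 16752160)) (a (l 16742992) (l 16753880))) (a (b (l 16705416) (l 16706584)) (c (l 16707504) (l 16707240))))) (a (b (a (l 16700648) (l 16702112)) (a (l 16702896) (l 16704128))) (b (l 16709608) (a (l 16705432) (l 16706800))))))), by decide +kernel⟩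

def k22_B00pm_011_s3 : ∃ t, chk3 f_B00pm_011_s3 t 26 63 1 = true :=
  ⟨(c (a (c (b (b (a (l 17116152) (l 17066752)) (a (l 17146544) (l 17011600))) (a (l 17194704) (b (l 17126528) (l 17157944)))) (b (a (b (a (l 16997808) (l 16971712)) (a (l 17021528) (l 16910368))) (b (a (l 16860760) (a (l 16839792) (l 16825464))) (a (c (l 17001504) (l 22)) (l 22)))) (a (b (l 16949352) (l 16975240)) (a (b (l 16905920) (l 16930592)) (l 22))))) (b (b (b (c (a (l 17006968) (a (l 16964608) (l 16934928))) (b (a (a (l 16797232) (l 16767592)) (a (l 16778776) (l 16746872))) (l 22))) (c (a (l 16935808) (c (l 16998392) (l 22))) (l 22))) (c (c (a (l 17077440) (b (l 16927368) (l 17025160))) (a (a (l 17016888) (l 22)) (l 22))) (l 22))) (c (a (b (l 16985176) (l 17015176)) (c (b (l 17047264) (l 17077448)) (l 22))) (l 22)))) (b (a (b (b (a (a (c (l 16780648) (l 16737584)) (c (l 16794624) (l 16749312))) (a (c (l 16765624) (l 16702848)) (a (l 16760376) (l 16756896)))) (l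 22)) (l 22)) (c (b (b (b (a (a (l 16745456) (l 16755392)) (a (l 16707480) (l 16708704))) (l 22)) (l 22)) (l 22)) (b (a (a (l 16710568) (l 16706328)) (a (l 16707416) (l 16708576))) (a (l 22) (c (l 22) (b (l 16714512) (l 16711352))))))) (a (l 22) (c (l 22) (a (l 22) (b (b (a (l 22) (l 16715152)) (l 22)) (l 22))))))), by decide +kernel⟩

def k23_B00pm_011_s3 : ∃ t, chk3 f_B00pm_011_s3 t 54 124 1 = true :=
  ⟨(b (a (c (b (a (b (a (b (c (l 16795288) (l 16786000)) (l 16791704)) (b (c (l 16806032) (l 16776240)) (c (l 16807432) (l 16775760)))) (a (l 16793424) (l 16782520))) (b (a (c (l 16796576) (l 16766360)) (l 16782152)) (a (l 16792600) (b (c (l 16798136) (l 16754944)) (l 16782080))))) (a (a (l 16797008) (l 16785536)) (a (l 16784544) (l 16788808)))) (b (a (b (l 16728872) (l 16745872)) (c (l 16731624) (l 16730984))) (c (l 16726064) (l 16726680)))) (b (a (c (b (l 16788920) (a (b (l 16792672) (c (l 16798968) (l 16754608))) (l 16787784))) (l 16735816))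 (c (c (b (l 16773552) (l 16794248)) (l 16761744)) (l 16740120))) (b (a (c (a (l 16792720) (b (c (l 16789008) (l 16754856)) (l 16781648))) (l 16750976)) (c (c (a (b (l 16778320) (l 16778712)) (l 16788896)) (a (l 16756056) (a (l 16757832) (l 16758904)))) (l 16735352))) (c (a (a (l 16793512) (l 16781888)) (a (l 16770328) (l 16779776))) (l 16730496))))) (a (c (a (b (a (l 16802064) (l 16789840)) (l 16779984)) (b (a (l 16777568) (l 16786240)) (l 16774864))) (a (l 16705448) (l 16707312))) (c (b (a (a (l 16773912) (l 16782552)) (a (l 16770224) (l 16778896))) (a (c (l 16765032) (l 16709160)) (c (l 16780520) (l 16711080)))) (a (l 16730176) (l 16732104))))), by decide +kernel⟩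

def k24_B00pm_011_s3 : ∃ t, chk3 f_B00pm_011_s3 t 55 124 1 = true :=
  ⟨(b (b (a (c (a (c (l 536691983) (l 16765480)) (c (l 16778048) (l 532637199))) (l 532890127)) (c (a (l 533951759) (l 532842255)) (l 532846095))) (a (c (a (c (b (l 16773344) (a (b (l 16777856) (l 16757088)) (b (l 16746128) (l 16787536)))) (b (l 532695823) (l 16736768))) (a (c (l 16778240) (l 16762624)) (l 534012943))) (a (b (l 16760784) (l 16736232)) (l 16742200))) (c (a (c (l 533991183) (l 532636431)) (l 532875279)) (l 532875279)))) (a (a (c (c (b (b (l 16772744) (l 16752536)) (l 16774848)) (b (l 16754344) (l 16713032))) (l 16734064)) (c (b (b (c (a (l 16775736) (b (l 16764672) (l 16763720))) (l 16737440)) (c (l 16769448) (l 16756536))) (c (l 16769104) (l 16715008))) (a (l 16735368) (l 16736360)))) (b (a (a (c (b (l 16762192) (b (l 16759144) (l 16758016))) (l 16738528)) (b (l 16743192) (a (b (l 16761184) (l 16759008)) (b (l 16741400) (l 16759920))))) (c (b (l 16767160)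 (a (l 16763000) (l 16765192))) (b (l 16746040) (l 16742816)))) (c (a (a (l 16758392) (l 16759400)) (a (l 16760416) (a (l 16761112) (a (l 16761464) (l 16761728))))) (a (l 16717152) (l 16739968)))))), by decide +kernel⟩

def k25_B00pm_011_s3 : ∃ t, chk3 f_B00pm_011_s3 t 27 125 1 = true :=
  ⟨(a (a (a (c (b (b (l 16764304) (l 16748920)) (b (c (l 16885328) (l 16750200)) (a (l 16747808) (l 16753048)))) (b (l 16712152) (c (l 16708792) (l 16708232)))) (b (c (b (c (l 16840392) (l 16716984)) (l 16751272)) (l 16708584)) (c (b (a (l 16752936) (l 16737424)) (a (l 16758024) (l 16762728))) (c (l 16710272) (l 16709720))))) (a (b (c (c (b (l 16812736) (l 16818792)) (l 16713088)) (l 16710304)) (c (b (c (l 16741248) (l 16711800)) (c (l 16747880) (l 16712744))) (l 16716776))) (c (b (c (b (l 16784576) (l 16788960)) (l 16712240)) (b (c (l 16751728) (l 16713424)) (c (l 16756760) (l 16714272)))) (b (l 16712056) (l 16713120))))) (a (a (c (c (b (b (l 16755992)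 (l 16758480)) (b (l 16761328) (l 16754040))) (b (l 16714056) (l 16718112))) (b (l 16713848) (l 16714744))) (c (b (c (b (l 16769016) (l 16769336)) (l 16715896)) (c (b (l 16728120) (l 16750208)) (l 16717152))) (b (l 16715672) (l 16716408)))) (b (a (c (c (b (l 16759488) (l 16718224)) (l 16717768)) (l 16717528)) (c (b (c (l 16719512) (l 16719432)) (l 16719984)) (l 16719400))) (a (c (c (b (l 16718920) (l 16719656)) (l 16718856)) (l 16718112)) (c (c (b (l 16720712) (l 16721352)) (l 16720592)) (l 16719840)))))), by decide +kernel⟩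

def k26_B00pm_011_s3 : ∃ t, chk3 f_B00pm_011_s3 t 27 126 1 = true :=
  ⟨(a (c (b (b (b (b (a (a (l 16754424) (l 16753008)) (a (l 16750376) (l 16746496))) (l 22)) (l 22)) (l 22)) (l 22)) (b (a (b (c (a (l 16710248) (l 16711576)) (l 16709944)) (c (l 22) (l 16710712))) (c (a (l 16718632) (l 16714784)) (a (l 16712456) (l 16713872)))) (c (a (l 22) (c (l 22) (b (l 16714856) (a (l 22) (l 16716824))))) (a (b (a (l 16711232) (l 16712272)) (a (l 16713040) (l 16713760))) (b (l 16713952) (a (l 16714664) (l 16715720))))))) (c (a (b (b (b (b (a (l 16748104) (l 16739176)) (l 22)) (l 22)) (l 22)) (l 22)) (c (b (b (a (c (l 16754064) (l 16720248)) (l 16724640)) (l 22)) (l 22)) (b (a (b (l 16719736) (l 16720376)) (b (l 16721344) (l 16721896))) (a (b (l 16721048) (l 22)) (b (l 16722488) (c (l 22) (l 16723040))))))) (a (b (a (c (l 16716232) (l 16715336)) (l 16722536)) (a (b (l 16716664) (b (l 16717248) (l 16718096))) (b (l 16718040) (c (l 16724752) (l 16718176)))))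 (b (a (l 16718840) (l 16720424)) (b (a (l 16719472) (l 16720944)) (a (c (l 16720808) (l 16719520)) (c (l 16722152) (l 16720912)))))))), by decide +kernel⟩

def k27_B00pm_011_s3 : ∃ t, chk3 f_B00pm_011_s3 t 54 127 1 = true :=
  ⟨(c (l 22) (a (c (l 22) (c (b (b (a (l 22) (l 16717080)) (l 22)) (l 22)) (b (b (l 16715464) (a (l 16717912) (l 16718544))) (b (a (l 16720672) (l 16721200)) (a (l 22) (b (l 16723224) (a (l 22) (b (l 16724392) (l 16725080))))))))) (c (b (a (l 22) (b (l 16720168) (l 22))) (l 22)) (b (b (a (l 16717312) (l 16718168)) (a (l 16719920) (l 16720664))) (c (b (a (b (l 16722696) (l 22)) (l 16724008)) (a (l 22) (c (l 22) (b (l 16725632) (a (l 22) (l 16727152)))))) (b (a (l 16721784) (l 16722440)) (a (b (l 16723728) (a (b (l 16724624) (l 16725296)) (l 16727824))) (b (l 16724296) (a (l 16725456) (l 16725728)))))))))), by decide +kernel⟩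

def k28_B00pm_011_s3 : ∃ t, chk3 f_B00pm_011_s3 t 55 127 1 = true :=
  ⟨(c (b (c (l 22) (a (l 22) (a (l 22) (b (l 16730688) (l 22))))) (l 22)) (a (b (a (c (b (l 16721000) (c (l 22) (l 16723312))) (b (l 16719088) (l 16721464))) (b (c (l 16721888) (l 16720072)) (c (l 16729936) (l 16722328)))) (b (a (c (b (c (l 22) (l 16725448)) (l 22)) (b (l 16723288) (l 16724520))) (c (b (l 16726824) (c (l 22) (l 16727520))) (b (l 16724064) (l 16725240)))) (c (c (l 22) (c (l 22) (a (l 22) (b (l 16728504) (a (l 22) (l 16730064)))))) (a (b (c (l 16726640) (l 16724920)) (a (c (b (l 16727536) (l 16728224)) (l 16726016)) (c (b (l 16727816) (l 16728480)) (l 16726312)))) (b (c (l 16727264) (l 16725600)) (a (c (l 16728432) (l 16726624)) (c (l 16728728) (l 16726952)))))))) (b (a (b (l 16727232) (c (l 16725520) (l 16723256))) (b (l 16723056) (c (l 16726400) (l 16724240)))) (a (b (c (a (l 16733360) (l 16728480)) (l 16730696)) (c (c (l 22) (b (l 16729544) (a (b (l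 16730440) (l 16731128)) (b (l 16730744) (l 16731416))))) (c (b (l 16727944) (a (l 16729040) (l 16729360))) (a (l 16729368) (l 16727112))))) (b (c (b (l 16728344) (l 16732280)) (l 16726320)) (c (b (a (l 16730872) (l 16731208)) (a (c (l 22) (b (l 16731064) (l 16731712))) (c (a (l 16733304) (l 16733456)) (l 16731712)))) (b (l 16730528) (a (c (l 16729704) (l 16728008)) (l 16731848))))))))), by decide +kernel⟩

def k29_B00pm_011_s3 : ∃ t, chk3 f_B00pm_011_s3 t 14 30 1 = true :=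
  ⟨(b (l 4) (a (a (b (a (b (a (c (l 533252879) (l 532689423)) (l 4)) (a (c (b (l 532725007) (l 532729359)) (l 532705551)) (c (l 532755983) (l 532721679)))) (b (l 4) (a (l 532794639) (c (l 532817423) (l 532752655))))) (a (c (a (b (b (l 532733455) (l 532738063)) (l 532754447)) (b (l 532697871) (l 532706575))) (b (a (l 532723471) (l 532738319)) (l 532888591))) (b (a (l 532791055) (l 532864015)) (a (c (l 532805135) (l 532770831)) (l 532809999))))) (b (l 4) (a (b (a (l 532953359) (l 533042191)) (a (l 532899343) (l 532988431))) (b (l 4) (a (l 533076751) (c (l 533086735) (l 533112079))))))) (a (b (l 4) (a (b (l 4) (a (c (l 533248527) (l 533124623)) (l 4))) (l 4))) (l 4)))), by decide +kernel⟩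

def k30_B00pm_011_s3 : ∃ t, chk3 f_B00pm_011_s3 t 28 62 1 = true :=
  ⟨(a (b (b (a (a (a (l 532833295) (l 532816399)) (a (l 532799759) (l 532784655))) (a (c (l 532814351) (l 532787727)) (l 532823311))) (a (b (c (a (l 532869903) (l 532828943)) (l 532856847)) (a (c (b (a (l 16763752) (l 16765976)) (l 16742072)) (b (l 16743776) (l 16742096))) (b (l 532860943) (a (l 16743952) (a (l 16745392) (l 16746520)))))) (a (b (l 532812047) (b (l 532828175) (a (l 16748112) (l 16750160)))) (l 532803087)))) (b (a (a (c (b (l 16742456) (l 16721920)) (l 16731824)) (c (b (l 16744536) (l 16723912)) (l 16733840))) (b (a (b (a (l 16745920) (l 16747552)) (l 16746512)) (b (a (l 16749520) (l 16751592)) (c (l 16748880) (l 16748496)))) (c (a (l 16725928) (l 16748936)) (a (l 16725352) (l 16727368))))) (b (a (c (a (l 16722368) (l 16724272)) (l 16727648)) (c (a (l 16726208) (l 16728168)) (l 16731504))) (a (c (a (l 16725472) (l 16724664)) (l 16727760)) (c (a (l 16726512)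 (l 16728392)) (l 16731464)))))) (b (a (a (b (l 532845583) (l 532859151)) (b (l 532934671) (l 532914703))) (a (b (l 533023247) (l 532969487)) (b (c (l 533096463) (l 532860943)) (l 533057551)))) (b (a (b (a (b (l 532870927) (c (l 16752544) (l 16752056))) (l 532893711)) (a (a (l 16750168) (l 16740592)) (b (c (l 16743720) (l 16753592)) (l 16742136)))) (b (c (l 533162255) (l 533148431)) (a (b (l 532921615) (c (l 16745384) (l 16755144))) (b (l 532943119) (l 16748856))))) (a (a (c (c (l 16733104) (l 16729984)) (l 16729232)) (c (b (l 16732136) (l 16732208)) (b (l 16731264) (l 16731096)))) (b (a (c (l 16744640) (l 16743752)) (c (a (l 16746056) (l 16747352)) (l 16745856))) (a (c (l 16734152) (l 16733040)) (c (l 16736112) (l 16735016)))))))), by decide +kernel⟩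

def k31_B00pm_011_s3 : ∃ t, chk3 f_B00pm_011_s3 t 28 126 1 = true :=
  ⟨(a (a (c (c (b (b (a (l 16723688) (l 16725424)) (l 22)) (l 22)) (b (a (l 16723264) (l 16724952)) (a (b (l 16723992) (l 16724672)) (b (l 16725552) (l 16726040))))) (b (a (l 16722072) (l 16723784)) (a (b (l 16722480) (l 16722944)) (b (l 16724072) (l 16724368))))) (c (b (a (b (l 16726848) (l 16729832)) (a (l 16731016) (l 16729280))) (a (c (b (l 16728056) (l 22)) (b (l 16727144) (l 16727512))) (c (b (l 16729672) (l 16730072)) (l 16728936)))) (b (a (l 16725520) (l 16727296)) (a (b (l 16725704) (l 16725888)) (b (l 16727368) (l 16727480)))))) (a (c (b (a (a (l 16730168) (l 16731064)) (a (l 16731968) (l 16732880))) (a (c (b (l 16731328) (l 16731632)) (l 16730568)) (c (b (l 16733008) (l 16733232)) (l 16732224)))) (b (a (l 16729096) (l 16730928)) (a (b (l 16729072) (l 16729112)) (l 16733424)))) (b (a (c (a (l 16733792) (l 16734712)) (l 16732776)) (c (b (l 16736064) (l 16736040))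 (l 16734656))) (c (a (b (l 16734296) (c (l 16734864) (l 16733928))) (b (l 16736040) (l 16736072))) (a (l 16735144) (b (l 16734344) (l 16734192))))))), by decide +kernel⟩

def k32_B00pm_011_s3 : ∃ t, chk3 f_B00pm_011_s3 t 112 127 1 = true :=
  ⟨(c (c (l 22) (c (b (a (l 22) (b (l 16727752) (l 22))) (l 22)) (b (a (b (l 16726072) (l 16728872)) (b (l 16727064) (l 16729816))) (c (a (l 22) (b (b (l 16732128) (l 22)) (l 22))) (a (b (l 16734040) (l 22)) (b (l 16732224) (b (l 16734248) (a (l 22) (l 16735840))))))))) (b (a (b (l 16724184) (c (l 16727352) (l 16725288))) (b (l 16725280) (c (l 16728360) (l 16726400)))) (a (b (c (b (l 16729184) (l 16730432)) (l 16727232)) (c (b (a (l 16731568) (l 16731936)) (a (c (b (l 16733336) (l 16734016)) (l 16732048)) (c (b (l 16733664) (l 16734328)) (l 16732400)))) (b (l 16728728) (a (l 16729600) (l 16730000))))) (b (c (b (l 16730096) (l 16731272)) (l 16728208)) (c (b (a (l 16732320) (l 16732720)) (a (c (b (l 16734008)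 (l 16734656)) (l 16732760)) (c (l 16737304) (l 16733136)))) (b (l 16729608) (a (l 16730408) (l 16730824)))))))), by decide +kernel⟩

def k33_B00pm_011_s3 : ∃ t, chk3 f_B00pm_011_s3 t 113 127 1 = true :=
  ⟨(c (b (c (b (a (l 22) (b (l 16730544) (l 22))) (l 22)) (b (a (b (l 16728024) (l 16729280)) (b (l 16729440) (l 16730424))) (a (l 16731264) (l 16732296)))) (a (c (l 22) (b (b (l 16733280) (a (l 16734504) (l 16734912))) (c (l 22) (b (a (l 16735208) (l 16735592)) (a (b (l 16736216) (l 16736888)) (b (l 16736568) (l 16737232))))))) (c (l 22) (a (b (l 16734680) (b (l 16736648) (c (l 22) (b (l 16736936) (l 16737576))))) (b (l 16735136) (b (l 16737048) (b (l 16738016) (c (c (l 22) (l 16739032)) (l 16737944))))))))) (b (b (a (b (l 16726192) (l 16727088)) (b (l 16727688) (l 16728360))) (a (l 16728504) (l 16729672))) (a (b (c (b (l 16731056) (l 16732160)) (l 16729240)) (c (b (a (l 16733136) (l 16733560)) (a (c (l 16735040) (l 16733528)) (c (l 16735416)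 (l 16733936)))) (b (l 16730536) (a (l 16731256) (l 16731704))))) (a (b (l 16736504) (b (l 16737904) (c (c (l 16735808) (l 16734352)) (l 16732168)))) (b (l 16731792) (b (l 16738384) (c (c (l 16736208) (l 16734776)) (l 16732640)))))))), by decide +kernel⟩

def k34_B00pm_011_s3 : ∃ t, chk3 f_B00pm_011_s3 t 114 127 1 = true :=
  ⟨(b (b (b (c (a (c (l 16731984) (l 16730928)) (l 16732928)) (a (l 16729248) (l 16730792))) (c (a (l 16732240) (c (l 16733968) (l 16732816))) (a (l 16729688) (l 16731008)))) (c (c (c (l 22) (a (l 16734592) (l 16735664))) (a (l 16733384) (l 16734520))) (a (l 16730896) (l 16732168)))) (a (b (c (c (b (a (l 22) (l 16737464)) (l 22)) (b (l 16735160) (l 16738992))) (c (l 16736248) (l 16731464))) (c (c (l 22) (b (a (l 16737456) (l 16737880)) (b (a (l 16738400) (l 16738792)) (a (a (l 16741576) (l 16741760)) (c (l 16740104) (l 16738704)))))) (c (b (l 16737704) (a (c (l 16736624) (l 16735224)) (l 16738984))) (a (l 16735368) (l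 16733256))))) (b (c (b (a (l 16736968) (l 16737472)) (c (a (l 16739328) (l 16739768)) (l 16737320))) (c (l 16734712) (l 16732648))) (c (a (c (b (c (l 22) (l 16740144)) (l 22)) (b (l 16738320) (c (b (l 16739856) (l 16740480)) (l 16738832)))) (c (c (l 22) (b (l 16740552) (b (l 16741544) (c (l 22) (l 16741872))))) (b (l 16738768) (c (b (l 16740264) (l 16740864)) (l 16739256))))) (c (b (l 16736056) (a (l 16736816) (l 16737280))) (a (l 16733784) (l 16734328))))))), by decide +kernel⟩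

def k35_B00pm_011_s3 : ∃ t, chk3 f_B00pm_011_s3 t 115 127 1 = true :=
  ⟨(c (b (b (a (c (b (l 16734992) (l 16735312)) (l 16739472)) (a (l 16741240) (l 16736776))) (a (a (l 16741472) (l 16736816)) (a (l 16737424) (l 16738040)))) (a (b (b (a (l 16737992) (l 16738520)) (c (a (l 16740224) (l 16740688)) (l 16738312))) (a (b (c (c (l 22) (l 16740976)) (l 16739232)) (c (c (l 22) (b (l 16741936) (c (l 22) (l 16742248)))) (b (l 16740056) (c (l 16741264) (l 16739952))))) (b (c (c (l 22) (l 16741408)) (l 16739704)) (c (c (l 22) (a (l 16742576) (l 16742776))) (a (l 16743304) (l 16740904)))))) (b (c (a (b (l 16739928) (l 16741160)) (l 16743680)) (b (l 16738384) (l 16739360))) (a (b (c (c (l 16742960) (l 16741856)) (l 16740192)) (c (c (l 22) (a (l 16742976) (l 16743184))) (a (l 16741128) (l 16741352)))) (b (c (l 16745480) (l 16740696)) (c (b (c (l 16744352) (l 16743184)) (c (c (l 22) (l 16744688)) (l 16743768))) (a (l 16741584) (l 16741816))))))))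 (b (b (a (b (l 16732424) (l 16732520)) (l 16739464)) (a (l 16733496) (l 16734872))) (a (b (c (l 16735848) (l 16733880)) (c (b (l 16737080) (a (l 16737760) (l 16738256))) (a (l 16734880) (l 16735448)))) (b (c (l 16737032) (l 16735168)) (c (b (l 16738152) (a (l 16738760) (l 16739272))) (a (l 16736024) (l 16736608))))))), by decide +kernel⟩

def k36_B00pm_011_s3 : ∃ t, chk3 f_B00pm_011_s3 t 29 62 1 = true :=
  ⟨(a (b (a (b (a (c (l 533191183) (l 533142287)) (a (l 533218063) (l 533227791))) (a (c (l 533134095) (l 532891151)) (c (l 533228047) (l 533171983)))) (b (a (a (l 533237519) (l 533246735)) (b (l 4) (l 533263375))) (b (a (l 533251855) (l 533270287)) (a (l 533258511) (l 533276943))))) (a (b (a (l 533091599) (c (l 533171215) (l 532921103))) (b (a (b (c (l 16750808) (l 16749928)) (c (l 16748792) (l 16747856))) (b (l 532990735) (a (l 16750728) (l 16752632)))) (a (c (l 16743344) (l 16747496)) (c (a (l 16750104) (l 16750992)) (l 16749384)))))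 (b (a (c (l 533264399) (l 533201423)) (a (l 533282831) (l 533157391))) (b (a (l 533278735) (l 533297167)) (a (a (b (l 16752216) (l 16751472)) (b (l 16754072) (l 16752408))) (b (l 533035791) (c (a (l 16754304) (l 16756048)) (l 16754176)))))))) (b (b (l 4) (a (a (b (l 533421583) (l 533294095)) (b (l 4) (c (l 533403151) (l 533223951)))) (a (a (a (l 533319951) (l 533457935)) (l 4)) (l 4)))) (b (b (a (a (l 533301007) (l 533451279)) (a (c (l 533564175) (l 533240335)) (a (l 533349135) (l 533355791)))) (a (a (l 533307919) (l 533324047)) (a (c (l 533435151) (l 533249295)) (a (l 533355791) (l 533362447))))) (b (a (a (l 533180431) (l 533330959)) (a (l 533480207) (c (l 533595151) (l 533264655)))) (a (a (a (a (b (l 16759688) (l 16756808)) (l 533056015)) (l 533061391)) (l 533338127)) (a (l 533420047) (c (l 533466127) (l 533273871)))))))), by decide +kernel⟩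

def k37_B00pm_011_s3 : ∃ t, chk3 f_B00pm_011_s3 t 58 126 1 = true :=
  ⟨(a (b (a (c (b (l 16737976) (l 16737880)) (l 16741800)) (c (a (l 16739408) (l 16742992)) (l 16743760))) (a (c (b (l 16737808) (l 16737768)) (b (l 16736152) (l 16735936))) (c (b (l 16739656) (l 16744800)) (b (l 16738040) (l 16737776))))) (c (b (a (a (l 16743944) (l 16744896)) (b (b (l 16754400) (l 16743752)) (l 16743536))) (a (b (l 16741440) (a (l 16740896) (l 16741744))) (b (l 16743248) (l 16742992)))) (b (a (a (l 16739976) (l 16740944)) (b (l 16753096) (l 16742152))) (a (a (l 16739312) (l 16740200)) (l 16741528))))), by decide +kernel⟩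

def k38_B00pm_011_s3 : ∃ t, chk3 f_B00pm_011_s3 t 58 127 2 = true :=
  ⟨(b (a (b (a (a (l 16737560) (l 16738344)) (c (l 16739952) (l 16739016))) (a (a (l 16738664) (l 16739288)) (c (b (l 16740248) (l 16741344)) (b (l 16739192) (l 16740056))))) (b (a (a (l 16740776) (l 16741584)) (l 16742760)) (a (b (c (l 16746920) (l 16740680)) (a (l 16741712) (l 16742328))) (b (l 16742752) (l 16743224))))) (a (a (b (c (a (l 16744200) (l 16742120)) (b (l 16739552) (l 16740456))) (a (b (c (l 16743320) (l 16741208)) (c (b (c (l 16744768) (l 16743624)) (c (c (l 22) (l 16745088)) (l 16744192))) (b (l 16741912) (l 16742384)))) (b (c (l 16743792) (l 16741736)) (c (b (l 16747264) (c (c (l 16746088) (l 16745504)) (l 16744624))) (b (l 16742408) (l 16742864)))))) (b (c (a (l 16742664) (l 16743248)) (b (l 16740856) (l 16741680))) (a (b (c (l 16744280) (l 16742272)) (c (b (l 16745096) (c (a (l 16746136) (l 16746352)) (l 16745072))) (b (l 16742920) (l 16743352))))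 (b (c (l 16744792) (l 16742840)) (b (c (l 16745584) (l 16743456)) (c (a (l 16746008) (l 16746240)) (l 16743872))))))) (a (b (a (c (l 16743784) (l 16742224)) (c (l 16744320) (l 16742800))) (a (b (c (l 16745272) (l 16743368)) (b (c (l 16746024) (l 16743952)) (c (a (l 16749072) (l 16746648)) (l 16744352)))) (b (l 16747440) (c (b (l 16746464) (l 16746944)) (l 16744632))))) (b (b (l 16743984) (l 16744752)) (b (c (l 16746416) (l 16744648)) (b (a (l 16748520) (l 16748968)) (c (a (l 16747344) (l 16747744)) (l 16745504)))))))), by decide +kernel⟩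

def k39_B00pm_011_s3 : ∃ t, chk3 f_B00pm_011_s3 t 58 127 3 = true :=
  ⟨(b (a (b (a (l 16735872) (l 16737560)) (a (l 16736264) (a (l 16737448) (l 16738152)))) (b (a (l 16739240) (l 16740960)) (a (b (l 16739136) (l 16739488)) (b (l 16740824) (l 16740960))))) (a (a (b (c (l 16738264) (l 16736504)) (c (b (l 16739280) (a (l 16739808) (l 16740344))) (a (l 16737216) (l 16737824)))) (b (c (l 16742248) (l 16737952)) (c (b (l 16740520) (a (l 16740896) (l 16741480))) (a (l 16738448) (l 16739104))))) (a (b (a (l 16739848) (l 16740496)) (a (b (l 16740504) (c (l 16742024) (l 16739888))) (b (l 16741096) (l 16741520)))) (b (l 16741464) (b (l 16741976) (c (l 16743344) (l 16741344))))))), by decide +kernel⟩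

def k40_B00pm_011_s3 : ∃ t, chk3 f_B00pm_011_s3 t 59 126 1 = true :=
  ⟨(b (a (b (a (c (b (a (l 16755912) (l 16757480)) (l 16745704)) (a (l 16754496) (l 16755784))) (a (a (b (l 16758184) (l 16756800)) (b (l 16759096) (l 16757248))) (b (l 533084431) (a (l 16757880) (a (l 16758416) (l 16758832)))))) (a (c (l 16745408) (l 16744064)) (c (a (l 16746840) (l 16747800)) (l 16751256)))) (b (a (a (b (l 533092367) (c (b (l 16761096) (l 16759952)) (l 16759472))) (a (a (b (l 16758712) (l 16761088)) (l 533101327)) (l 533103631))) (l 533507855)) (a (a (c (l 16748776) (l 16757992)) (b (a (l 16759472) (b (l 16760376) (l 16749456))) (l 16748944))) (b (c (b (a (c (l 16762728) (l 16762088)) (l 16759080)) (a (l 16761384) (c (l 16758136) (l 16762736)))) (a (l 16760784) (c (l 16762872) (l 16762336)))) (a (l 16755184) (c (l 16756768) (l 16760776))))))) (a (a (c (b (l 16745024) (l 16744664)) (l 16745936)) (c (b (l 16746824) (l 16746360)) (b (l 16745408) (l 16744824))))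 (a (c (b (l 16748664) (l 16748072)) (b (l 16747296) (l 16746624))) (b (c (l 16753168) (l 16749232)) (c (l 16749824) (l 16748448)))))), by decide +kernel⟩

def k41_B00pm_011_s3 : ∃ t, chk3 f_B00pm_011_s3 t 59 127 1 = true :=
  ⟨(b (c (b (a (a (l 16744328) (l 16745912)) (a (l 16747504) (l 16749120))) (a (a (b (l 16744248) (l 16744384)) (b (l 16745584) (l 16745536))) (a (b (l 16747088) (l 16746928)) (b (l 16748608) (l 16748416))))) (b (a (a (l 16742608) (l 16744280)) (a (l 16745976) (l 16747688))) (a (b (l 16743256) (a (l 16742320) (l 16743672))) (b (l 16746328) (a (l 16745240) (l 16746888)))))) (b (a (a (c (b (l 16745112) (l 16745800)) (l 16742760)) (c (b (l 16746256) (l 16746872)) (l 16744088))) (a (c (b (l 16747416) (l 16747952)) (l 16745432)) (c (b (l 16748592) (l 16749048)) (l 16746808)))) (a (c (b (a (c (l 16747336) (l 16745672)) (c (l 16748264) (l 16746720))) (a (b (a (l 16749424) (l 16749888)) (c (a (l 16748152) (l 16748560)) (l 16746432)))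 (b (a (l 16750352) (l 16748200)) (c (a (l 16748976) (l 16749392)) (l 16747384))))) (b (c (l 16744592) (l 16742976)) (a (c (l 16744408) (l 16742528)) (c (l 16745496) (l 16743736))))) (a (c (b (c (l 16749200) (l 16747784)) (b (a (l 16748672) (l 16749144)) (c (a (l 16749816) (l 16750240)) (l 16748352)))) (b (l 16745640) (c (l 16746608) (l 16744976)))) (c (b (c (l 16750160) (l 16748864)) (b (a (l 16749624) (l 16750112)) (c (a (l 16750664) (l 16751096)) (l 16749336)))) (b (l 16746912) (c (l 16747744) (l 16746240)))))))), by decide +kernel⟩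

def k42_B00pm_011_s3 : ∃ t, chk3 f_B00pm_011_s3 t 15 15 1 = true :=
  ⟨(b (l 4) (b (a (b (l 4) (a (a (a (a (b (b (l 4) (l 533368591)) (b (l 533375247) (l 533381903))) (l 14)) (l 14)) (l 14)) (l 14))) (l 4)) (a (b (a (a (a (a (a (b (a (a (b (l 533120783) (b (l 16758912) (l 16756752))) (l 14)) (l 14)) (b (l 16756328) (l 16750264))) (l 14)) (l 14)) (l 14)) (l 14)) (l 14)) (a (b (a (a (a (b (l 16749672) (b (l 16749072) (l 16751416))) (l 14)) (l 14)) (l 14)) (a (a (a (b (c (b (l 16749472) (l 16749880)) (l 16747848)) (c (b (l 16750288) (c (b (l 16751272) (l 16751536)) (l 16750008))) (b (l 16747880) (l 16747912)))) (l 14)) (l 14)) (l 14))) (l 14))) (l 14)))), by decide +kernel⟩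

theorem t43_B00pm_011_s3 : ∃ t, chk3 f_B00pm_011_s3 t 59 63 1 = true := ex3_b k40_B00pm_011_s3 k41_B00pm_011_s3

theorem t44_B00pm_011_s3 : ∃ t, chk3 f_B00pm_011_s3 t 58 127 1 = true := ex3_c k38_B00pm_011_s3 k39_B00pm_011_s3

theorem t45_B00pm_011_s3 : ∃ t, chk3 f_B00pm_011_s3 t 58 63 1 = true := ex3_b k37_B00pm_011_s3 t44_B00pm_011_s3

theorem t46_B00pm_011_s3 : ∃ t, chk3 f_B00pm_011_s3 t 29 63 1 = true := ex3_a t45_B00pm_011_s3 t43_B00pm_011_s3

theorem t47_B00pm_011_s3 : ∃ t, chk3 f_B00pm_011_s3 t 29 31 1 = true := ex3_b k36_B00pm_011_s3 t46_B00pm_011_s3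

theorem t48_B00pm_011_s3 : ∃ t, chk3 f_B00pm_011_s3 t 57 127 1 = true := ex3_a k34_B00pm_011_s3 k35_B00pm_011_s3

theorem t49_B00pm_011_s3 : ∃ t, chk3 f_B00pm_011_s3 t 56 127 1 = true := ex3_a k32_B00pm_011_s3 k33_B00pm_011_s3

theorem t50_B00pm_011_s3 : ∃ t, chk3 f_B00pm_011_s3 t 28 127 1 = true := ex3_a t49_B00pm_011_s3 t48_B00pm_011_s3

theorem t51_B00pm_011_s3 : ∃ t, chk3 f_B00pm_011_s3 t 28 63 1 = true := ex3_b k31_B00pm_011_s3 t50_B00pm_011_s3

theorem t52_B00pm_011_s3 : ∃ t, chk3 f_B00pm_011_s3 t 28 31 1 = true := ex3_b k30_B00pm_011_s3 t51_B00pm_011_s3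

theorem t53_B00pm_011_s3 : ∃ t, chk3 f_B00pm_011_s3 t 14 31 1 = true := ex3_a t52_B00pm_011_s3 t47_B00pm_011_s3

theorem t54_B00pm_011_s3 : ∃ t, chk3 f_B00pm_011_s3 t 14 15 1 = true := ex3_b k29_B00pm_011_s3 t53_B00pm_011_s3

theorem t55_B00pm_011_s3 : ∃ t, chk3 f_B00pm_011_s3 t 7 15 1 = true := ex3_a t54_B00pm_011_s3 k42_B00pm_011_s3

theorem t56_B00pm_011_s3 : ∃ t, chk3 f_B00pm_011_s3 t 27 127 1 = true := ex3_a k27_B00pm_011_s3 k28_B00pm_011_s3

theorem t57_B00pm_011_s3 : ∃ t, chk3 f_B00pm_011_s3 t 27 63 1 = true := ex3_b k26_B00pm_011_s3 t56_B00pm_011_s3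

theorem t58_B00pm_011_s3 : ∃ t, chk3 f_B00pm_011_s3 t 27 124 1 = true := ex3_a k23_B00pm_011_s3 k24_B00pm_011_s3

theorem t59_B00pm_011_s3 : ∃ t, chk3 f_B00pm_011_s3 t 27 62 1 = true := ex3_b t58_B00pm_011_s3 k25_B00pm_011_s3

theorem t60_B00pm_011_s3 : ∃ t, chk3 f_B00pm_011_s3 t 27 31 1 = true := ex3_b t59_B00pm_011_s3 t57_B00pm_011_s3

theorem t61_B00pm_011_s3 : ∃ t, chk3 f_B00pm_011_s3 t 26 62 1 = true := ex3_a k20_B00pm_011_s3 k21_B00pm_011_s3

theorem t62_B00pm_011_s3 : ∃ t, chk3 f_B00pm_011_s3 t 26 31 1 = true := ex3_b t61_B00pm_011_s3 k22_B00pm_011_s3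

theorem t63_B00pm_011_s3 : ∃ t, chk3 f_B00pm_011_s3 t 13 31 1 = true := ex3_a t62_B00pm_011_s3 t60_B00pm_011_s3

theorem t64_B00pm_011_s3 : ∃ t, chk3 f_B00pm_011_s3 t 27 30 1 = true := ex3_b k18_B00pm_011_s3 k19_B00pm_011_s3

theorem t65_B00pm_011_s3 : ∃ t, chk3 f_B00pm_011_s3 t 26 123 1 = true := ex3_a k16_B00pm_011_s3 k17_B00pm_011_s3

theorem t66_B00pm_011_s3 : ∃ t, chk3 f_B00pm_011_s3 t 26 61 1 = true := ex3_b k15_B00pm_011_s3 t65_B00pm_011_s3

theorem t67_B00pm_011_s3 : ∃ t, chk3 f_B00pm_011_s3 t 26 30 1 = true := ex3_b k14_B00pm_011_s3 t66_B00pm_011_s3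

theorem t68_B00pm_011_s3 : ∃ t, chk3 f_B00pm_011_s3 t 13 30 1 = true := ex3_a t67_B00pm_011_s3 t64_B00pm_011_s3

theorem t69_B00pm_011_s3 : ∃ t, chk3 f_B00pm_011_s3 t 13 15 1 = true := ex3_b t68_B00pm_011_s3 t63_B00pm_011_s3

theorem t70_B00pm_011_s3 : ∃ t, chk3 f_B00pm_011_s3 t 25 31 1 = true := ex3_b k12_B00pm_011_s3 k13_B00pm_011_s3

theorem t71_B00pm_011_s3 : ∃ t, chk3 f_B00pm_011_s3 t 12 31 1 = true := ex3_a k11_B00pm_011_s3 t70_B00pm_011_s3

theorem t72_B00pm_011_s3 : ∃ t, chk3 f_B00pm_011_s3 t 25 30 1 = true := ex3_b k9_B00pm_011_s3 k10_B00pm_011_s3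

theorem t73_B00pm_011_s3 : ∃ t, chk3 f_B00pm_011_s3 t 12 30 1 = true := ex3_a k8_B00pm_011_s3 t72_B00pm_011_s3

theorem t74_B00pm_011_s3 : ∃ t, chk3 f_B00pm_011_s3 t 12 15 1 = true := ex3_b t73_B00pm_011_s3 t71_B00pm_011_s3

theorem t75_B00pm_011_s3 : ∃ t, chk3 f_B00pm_011_s3 t 6 15 1 = true := ex3_a t74_B00pm_011_s3 t69_B00pm_011_s3

theorem t76_B00pm_011_s3 : ∃ t, chk3 f_B00pm_011_s3 t 3 15 1 = true := ex3_a t75_B00pm_011_s3 t55_B00pm_011_s3

theorem t77_B00pm_011_s3 : ∃ t, chk3 f_B00pm_011_s3 t 3 7 1 = true := ex3_b k7_B00pm_011_s3 t76_B00pm_011_s3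

theorem t78_B00pm_011_s3 : ∃ t, chk3 f_B00pm_011_s3 t 3 3 1 = true := ex3_b k6_B00pm_011_s3 t77_B00pm_011_s3

theorem t79_B00pm_011_s3 : ∃ t, chk3 f_B00pm_011_s3 t 3 1 1 = true := ex3_b k5_B00pm_011_s3 t78_B00pm_011_s3

theorem t80_B00pm_011_s3 : ∃ t, chk3 f_B00pm_011_s3 t 5 7 1 = true := ex3_b k3_B00pm_011_s3 k4_B00pm_011_s3

theorem t81_B00pm_011_s3 : ∃ t, chk3 f_B00pm_011_s3 t 2 7 1 = true := ex3_a k2_B00pm_011_s3 t80_B00pm_011_s3

theorem t82_B00pm_011_s3 : ∃ t, chk3 f_B00pm_011_s3 t 2 3 1 = true := ex3_b k1_B00pm_011_s3 t81_B00pm_011_s3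

theorem t83_B00pm_011_s3 : ∃ t, chk3 f_B00pm_011_s3 t 2 1 1 = true := ex3_b k0_B00pm_011_s3 t82_B00pm_011_s3

theorem t84_B00pm_011_s3 : ∃ t, chk3 f_B00pm_011_s3 t 1 1 1 = true := ex3_a t83_B00pm_011_s3 t79_B00pm_011_s3

theorem c_B00pm_011_s3 : CertF 0 536870912 536870912 536870912 134217728 67108864 false true false .pnn 0 1 1
    ndF0q0 ndF0q1 pcF1 cut_B00pm_011_s3 xt_B00pm_011_s3 :=
  certFK2 (fam := false) (s1 := true) (s2 := false) (a := 0) (b := 1) (c := 1) (cn := .pnn) (n1 := ndF0q0) (n2 := ndF0q1) (pc := pcF1) (cut := cut_B00pm_011_s3) (xt := xt_B00pm_011_s3) (P1 := 0) (W1 := 536870912) (P2 := 536870912) (W2 := 536870912) (P3 := 134217728) (W3 := 67108864)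
    rfl rfl rfl (fun _ => rfl) t84_B00pm_011_s3

theorem s_B00pm_011_s3 {κ x : ℝ} (hκ : κ * h0 = ken x) (hx : ((134217728 : ℕ) : ℝ) / S ≤ x)
    (hx' : x ≤ (((134217728 : ℕ) : ℝ) + (67108864 : ℕ)) / S)
    (H : CutB (VF κ) PP tKF tL pcF (Cut.of [[⟨0, 0, 0, 67108864⟩, ⟨1, 1, 0, 67108864⟩, ⟨2, 1, 0, 67108864⟩], [⟨0, 0, 1, 41943040⟩, ⟨1, 1, 2, 41943040⟩, ⟨2, 1, 0, 16777216⟩]]) 0 1 1 0 0 (sgb true) (sgb false) x) :
    AltB (VF κ) PP tKF tL pcF [⟨4, 0, 0, 2845415833⟩] 0 1 1 0 0 (sgb true) (sgb false) x :=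
  strip_altB (m := 2845415833) false rfl hκ covF00 covF01 hx hx' c_B00pm_011_s3 H ((okx hx hx').extB (T := tt) (sideF hx hx') hκ rfl rfl (.O 0 true) (.O 1 false) (Or.inr rfl))

noncomputable def cut_B00pm_012_s1 : Cut := Cut.of [[⟨4, 0, 0, 1449551462⟩], [⟨0, 0, 0, 53687091⟩, ⟨1, 1, 0, 53687091⟩, ⟨2, 1, 0, 53687091⟩], [⟨0, 0, 1, 41943040⟩, ⟨1, 1, 2, 41943040⟩, ⟨2, 1, 0, 16777216⟩]]

noncomputable def xt_B00pm_012_s1 : Ext := strExt dd false true false .u0 .u2 .u0m .pnp 0 1 2 rfl rfl gf1 vv ndF0q0 ndF0q2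

noncomputable def f_B00pm_012_s1 : ℕ → ℕ → ℕ → ℕ → Bool := onCell 0 536870912 0 536870912 134217728 67108864
    (rowFK 0 false true false .pnp 0 1 2 (qsf 0 536870912 0 536870912 1) ndF0q0 ndF0q2 pcF1 cut_B00pm_012_s1 xt_B00pm_012_s1)

def k0_B00pm_012_s1 : ∃ t, chk3 f_B00pm_012_s1 t 1 1 1 = true :=
  ⟨(a (l 6) (b (a (b (a (l 6) (b (a (l 6) (l 17170960)) (l 6))) (l 6)) (b (a (b (a (l 17131080) (l 17089408)) (l 6)) (a (b (l 17046712) (l 17138640)) (b (l 543088143) (l 17103504)))) (l 6))) (l 6))), by decide +kernel⟩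

theorem c_B00pm_012_s1 : CertF 0 536870912 0 536870912 134217728 67108864 false true false .pnp 0 1 2
    ndF0q0 ndF0q2 pcF1 cut_B00pm_012_s1 xt_B00pm_012_s1 :=
  certFK0 (fam := false) (s1 := true) (s2 := false) (a := 0) (b := 1) (c := 2) (cn := .pnp) (n1 := ndF0q0) (n2 := ndF0q2) (pc := pcF1) (cut := cut_B00pm_012_s1) (xt := xt_B00pm_012_s1) (P1 := 0) (W1 := 536870912) (P2 := 0) (W2 := 536870912) (P3 := 134217728) (W3 := 67108864)
    rfl rfl rfl k0_B00pm_012_s1

theorem s_B00pm_012_s1 {κ x : ℝ} (hκ : κ * h0 = ken x) (hx : ((134217728 : ℕ) : ℝ) / S ≤ x)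
    (hx' : x ≤ (((134217728 : ℕ) : ℝ) + (67108864 : ℕ)) / S)
    (H : CutB (VF κ) PP tKF tL pcF (Cut.of [[⟨0, 0, 0, 53687091⟩, ⟨1, 1, 0, 53687091⟩, ⟨2, 1, 0, 53687091⟩], [⟨0, 0, 1, 41943040⟩, ⟨1, 1, 2, 41943040⟩, ⟨2, 1, 0, 16777216⟩]]) 0 1 2 0 0 (sgb true) (sgb false) x) :
    AltB (VF κ) PP tKF tL pcF [⟨3, 0, 0, 1449551462⟩] 0 1 2 0 0 (sgb true) (sgb false) x :=
  strip_altB (m := 1449551462) true rfl hκ covF00 covF02 hx hx' c_B00pm_012_s1 H ((okx hx hx').extB (T := tt) (sideF hx hx') hκ rfl rfl (.O 0 true) (.O 2 false) (Or.inr rfl))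

end Pool.Agent.Strip051.G.I1_8_3_16.Tab.St.C
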