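import Pool.Agent.Strip051.G.I1_8_3_16.Tab

/-! # Certificates F0 (generated) -/

set_option linter.all false
set_option maxRecDepth 100000

namespace Pool.Agent.Strip051.G.I1_8_3_16.Tab.C.FA00

open Pool.Agent.Strip051.PB Pool.Agent.Strip051.PB.T
open Pool.Agent.Strip051.G.I1_8_3_16.Tab

noncomputable def cut_pp_001 : Cut := Cut.of [[⟨3, 0, 0, 1449551462⟩], [⟨4, 0, 0, 2845415833⟩]]

noncomputable def f_pp_001 : ℕ → ℕ → ℕ → ℕ → Bool := onCell 0 536870912 0 536870912 134217728 67108864
    (rowF 0 true true true .up 0 0 1 (qsf 0 536870912 0 536870912 1) ndF0q0 ndF0q0 pcF1 cut_pp_001 Ext.none)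

def k0_pp_001 : ∃ t, chk3 f_pp_001 t 1 1 1 = true :=
  ⟨(l 4), by decide +kernel⟩

theorem c_pp_001 : CertF 0 536870912 0 536870912 134217728 67108864 true true true .up 0 0 1
    ndF0q0 ndF0q0 pcF1 cut_pp_001 Ext.none :=
  certF0 (fam := true) (s1 := true) (s2 := true) (a := 0) (b := 0) (c := 1) (cn := .up) (n1 := ndF0q0) (n2 := ndF0q0) (pc := pcF1) (cut := cut_pp_001) (xt := Ext.none) (P1 := 0) (W1 := 536870912) (P2 := 0) (W2 := 536870912) (P3 := 134217728) (W3 := 67108864)
    rfl k0_pp_001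

noncomputable def cut_pp_011 : Cut := Cut.of [[⟨3, 0, 0, 1449551462⟩], [⟨4, 0, 0, 2845415833⟩], [⟨0, 0, 0, 67108864⟩, ⟨1, 1, 0, 67108864⟩, ⟨2, 1, 0, 67108864⟩]]

noncomputable def f_pp_011 : ℕ → ℕ → ℕ → ℕ → Bool := onCell 0 536870912 536870912 536870912 134217728 67108864
    (rowF 0 true true true .pnn 0 1 1 (qsf 0 536870912 536870912 536870912 1) ndF0q0 ndF0q1 pcF1 cut_pp_011 Ext.none)

def k0_pp_011 : ∃ t, chk3 f_pp_011 t 1 1 1 = true :=
  ⟨(l 14), by decide +kernel⟩

theorem c_pp_011 : CertF 0 536870912 536870912 536870912 134217728 67108864 true true true .pnn 0 1 1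
    ndF0q0 ndF0q1 pcF1 cut_pp_011 Ext.none :=
  certF0 (fam := true) (s1 := true) (s2 := true) (a := 0) (b := 1) (c := 1) (cn := .pnn) (n1 := ndF0q0) (n2 := ndF0q1) (pc := pcF1) (cut := cut_pp_011) (xt := Ext.none) (P1 := 0) (W1 := 536870912) (P2 := 536870912) (W2 := 536870912) (P3 := 134217728) (W3 := 67108864)
    rfl k0_pp_011

noncomputable def cut_pp_012 : Cut := Cut.of [[⟨3, 0, 0, 1449551462⟩], [⟨4, 0, 0, 2845415833⟩], [⟨0, 0, 0, 67108864⟩, ⟨1, 1, 0, 67108864⟩, ⟨2, 1, 0, 67108864⟩]]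

noncomputable def f_pp_012 : ℕ → ℕ → ℕ → ℕ → Bool := onCell 0 536870912 536870912 536870912 134217728 67108864
    (rowF 0 true true true .pnp 0 1 2 (qsf 0 536870912 536870912 536870912 2) ndF0q0 ndF0q1 pcF2 cut_pp_012 Ext.none)

def k0_pp_012 : ∃ t, chk3 f_pp_012 t 1 1 1 = true :=
  ⟨(l 14), by decide +kernel⟩

theorem c_pp_012 : CertF 0 536870912 536870912 536870912 134217728 67108864 true true true .pnp 0 1 2
    ndF0q0 ndF0q1 pcF2 cut_pp_012 Ext.none :=
  certF0 (fam := true) (s1 := true) (s2 := true) (a := 0) (b := 1) (c := 2) (cn := .pnp) (n1 := ndF0q0) (n2 := ndF0q1) (pc := pcF2) (cut := cut_pp_012) (xt := Ext.none) (P1 := 0) (W1 := 536870912) (P2 := 536870912) (W2 := 536870912) (P3 := 134217728) (W3 := 67108864)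
    rfl k0_pp_012

noncomputable def cut_pp_022 : Cut := Cut.of [[⟨3, 0, 0, 1449551462⟩], [⟨4, 0, 0, 2845415833⟩], [⟨0, 0, 0, 67108864⟩, ⟨1, 1, 0, 67108864⟩, ⟨2, 1, 0, 67108864⟩]]

noncomputable def f_pp_022 : ℕ → ℕ → ℕ → ℕ → Bool := onCell 0 536870912 0 536870912 134217728 67108864
    (rowF 0 true true true .pp 0 2 2 (qsf 0 536870912 0 536870912 2) ndF0q0 ndF0q2 pcF2 cut_pp_022 Ext.none)

def k0_pp_022 : ∃ t, chk3 f_pp_022 t 2 2 1 = true :=
  ⟨(a (b (a (a (b (a (c (b (l 17095080) (l 16847536)) (b (l 16620864) (l 16630152))) (c (b (l 17275824) (l 17259704)) (l 16677464))) (a (c (b (l 17033720) (l 16946384)) (l 16632128)) (c (l 17008760) (l 16623392)))) (b (c (a (l 17382664) (l 17455560)) (b (l 16969448) (l 16955944))) (c (a (l 17322072) (l 17397976)) (a (l 16823288) (l 16975280))))) (c (a (b (l 17511208) (l 17453184)) (l 17492128)) (a (b (l 17167040) (l 17118416)) (b (l 17262024) (l 17211816))))) (a (a (b (a (c (b (l 16749920) (a (l 16666232) (l 16829872))) (b (l 16641352)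 (l 16651248))) (c (b (l 17103104) (l 16907192)) (l 16662744))) (a (c (b (a (l 16665712) (l 16681664)) (a (c (l 16676840) (l 16676000)) (l 16676616))) (b (l 16662416) (a (l 16674064) (l 16674112)))) (c (b (a (l 16832608) (l 16950448)) (a (l 16676680) (l 16812888))) (b (l 16660648) (l 16674024))))) (b (a (c (b (l 17244048) (l 17171120)) (l 16743792)) (c (l 17296784) (l 16876112))) (a (c (b (l 17059064) (a (l 16922664) (l 17007328))) (b (l 16658704) (l 16673824))) (c (b (l 17189744) (l 17098328)) (b (l 16769376) (l 16677480)))))) (a (b (c (a (l 17346616) (l 17369432)) (a (l 16993056) (l 17070112))) (a (c (b (l 17250728) (l 17171264)) (b (l 16903456) (l 16828872))) (c (l 17242584) (l 16915432)))) (b (c (l 17370728) (l 17135216)) (c (b (l 17284128) (l 17215968)) (b (l 17062176) (l 17005192))))))) (b (a (a (b (l 17399208) (l 17336264)) (b (l 17376992) (l 17307360))) (b (l 17315024) (a (l 17262720) (l 17209248)))) (a (b (a (c (l 17336160) (l 17163112)) (l 17195304)) (a (c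 (l 17215424) (b (l 17091608) (l 17037448))) (b (l 17134952) (l 14)))) (b (a (l 17167152) (l 17109968)) (l 14))))), by decide +kernel⟩

def k1_pp_022 : ∃ t, chk3 f_pp_022 t 2 3 1 = true :=
  ⟨(a (b (a (b (a (a (c (b (a (c (l 16687520) (l 16686808)) (c (l 16688496) (l 16687704))) (a (c (b (l 16695392) (l 16700560)) (l 16697344)) (c (l 16699688) (l 16698928)))) (b (a (l 16685088) (l 16685920)) (a (b (l 16693048) (l 16698200)) (l 16697232)))) (c (b (a (l 16704704) (l 16689736)) (a (c (l 16701232) (l 16700424)) (c (l 16702696) (l 16701840)))) (b (a (l 16686680) (l 16687384)) (a (l 16698680) (l 16700080))))) (a (c (b (a (l 16775224) (l 16878984)) (a (l 16714160) (l 16704232))) (b (l 16688344) (a (l 16701424) (l 16702760)))) (b (c (a (l 16958136) (l 17017880)) (l 16689672)) (c (a (l 16824232) (l 14)) (l 16704712))))) (b (b (a (a (c (a (c (l 16705696) (l 16704952)) (c (l 16707784) (l 16706984))) (a (l 16703272) (l 16705272))) (l 14)) (l 14)) (l 14)) (l 14))) (b (a (b (a (c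 (l 17079592) (l 16743600)) (c (l 17124328) (l 16854032))) (l 14)) (l 14)) (l 14))) (l 14)) (l 14)), by decide +kernel⟩

def k2_pp_022 : ∃ t, chk3 f_pp_022 t 3 1 1 = true :=
  ⟨(b (b (a (a (b (l 17206688) (a (l 17151184) (l 17091152))) (b (a (l 17118560) (l 17059800)) (l 14))) (l 2)) (l 14)) (l 14)), by decide +kernel⟩

theorem s3_pp_022 : ∃ t, chk3 f_pp_022 t 2 1 1 = true := ex3_b k0_pp_022 k1_pp_022

theorem s4_pp_022 : ∃ t, chk3 f_pp_022 t 1 1 1 = true := ex3_a s3_pp_022 k2_pp_022

theorem c_pp_022 : CertF 0 536870912 0 536870912 134217728 67108864 true true true .pp 0 2 2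
    ndF0q0 ndF0q2 pcF2 cut_pp_022 Ext.none :=
  certF0 (fam := true) (s1 := true) (s2 := true) (a := 0) (b := 2) (c := 2) (cn := .pp) (n1 := ndF0q0) (n2 := ndF0q2) (pc := pcF2) (cut := cut_pp_022) (xt := Ext.none) (P1 := 0) (W1 := 536870912) (P2 := 0) (W2 := 536870912) (P3 := 134217728) (W3 := 67108864)
    rfl s4_pp_022

noncomputable def cut_pp_023 : Cut := Cut.of [[⟨3, 0, 0, 1449551462⟩], [⟨4, 0, 0, 2845415833⟩]]

noncomputable def f_pp_023 : ℕ → ℕ → ℕ → ℕ → Bool := onCell 1610612736 536870912 0 536870912 134217728 67108864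
    (rowF 2 true true true .up 0 2 3 (qsf 0 536870912 0 536870912 3) ndF0q0 ndF0q2 pcF3 cut_pp_023 Ext.none)

def k0_pp_023 : ∃ t, chk3 f_pp_023 t 1 1 1 = true :=
  ⟨(a (b (a (a (b (b (a (b (l 17235984) (l 14)) (l 14)) (l 14)) (l 14)) (l 14)) (l 14)) (l 4)) (l 2)), by decide +kernel⟩

theorem c_pp_023 : CertF 0 536870912 0 536870912 134217728 67108864 true true true .up 0 2 3
    ndF0q0 ndF0q2 pcF3 cut_pp_023 Ext.none :=
  certF2 (fam := true) (s1 := true) (s2 := true) (a := 0) (b := 2) (c := 3) (cn := .up) (n1 := ndF0q0) (n2 := ndF0q2) (pc := pcF3) (cut := cut_pp_023) (xt := Ext.none) (P1 := 0) (W1 := 536870912) (P2 := 0) (W2 := 536870912) (P3 := 134217728) (W3 := 67108864)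
    rfl (fun _ => rfl) k0_pp_023

noncomputable def cut_pp_101 : Cut := Cut.of [[⟨3, 0, 0, 1449551462⟩], [⟨4, 0, 0, 2845415833⟩]]

noncomputable def f_pp_101 : ℕ → ℕ → ℕ → ℕ → Bool := onCell 536870912 536870912 0 536870912 134217728 67108864
    (rowF 0 true true true .npn 1 0 1 (qsf 536870912 536870912 0 536870912 1) ndF0q1 ndF0q0 pcF1 cut_pp_101 Ext.none)

def k0_pp_101 : ∃ t, chk3 f_pp_101 t 1 1 1 = true :=
  ⟨(l 14), by decide +kernel⟩

theorem c_pp_101 : CertF 536870912 536870912 0 536870912 134217728 67108864 true true true .npn 1 0 1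
    ndF0q1 ndF0q0 pcF1 cut_pp_101 Ext.none :=
  certF0 (fam := true) (s1 := true) (s2 := true) (a := 1) (b := 0) (c := 1) (cn := .npn) (n1 := ndF0q1) (n2 := ndF0q0) (pc := pcF1) (cut := cut_pp_101) (xt := Ext.none) (P1 := 536870912) (W1 := 536870912) (P2 := 0) (W2 := 536870912) (P3 := 134217728) (W3 := 67108864)
    rfl k0_pp_101

noncomputable def cut_pp_102 : Cut := Cut.of [[⟨3, 0, 0, 1449551462⟩], [⟨4, 0, 0, 2845415833⟩]]

noncomputable def f_pp_102 : ℕ → ℕ → ℕ → ℕ → Bool := onCell 536870912 536870912 0 536870912 134217728 67108864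
    (rowF 0 true true true .npp 1 0 2 (qsf 536870912 536870912 0 536870912 2) ndF0q1 ndF0q0 pcF2 cut_pp_102 Ext.none)

def k0_pp_102 : ∃ t, chk3 f_pp_102 t 1 1 1 = true :=
  ⟨(l 14), by decide +kernel⟩

theorem c_pp_102 : CertF 536870912 536870912 0 536870912 134217728 67108864 true true true .npp 1 0 2
    ndF0q1 ndF0q0 pcF2 cut_pp_102 Ext.none :=
  certF0 (fam := true) (s1 := true) (s2 := true) (a := 1) (b := 0) (c := 2) (cn := .npp) (n1 := ndF0q1) (n2 := ndF0q0) (pc := pcF2) (cut := cut_pp_102) (xt := Ext.none) (P1 := 536870912) (W1 := 536870912) (P2 := 0) (W2 := 536870912) (P3 := 134217728) (W3 := 67108864)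
    rfl k0_pp_102

noncomputable def cut_pp_112 : Cut := Cut.of [[⟨3, 0, 0, 1449551462⟩], [⟨4, 0, 0, 2845415833⟩]]

noncomputable def f_pp_112 : ℕ → ℕ → ℕ → ℕ → Bool := onCell 536870912 536870912 536870912 536870912 134217728 67108864
    (rowF 0 true true true .dn 1 1 2 (qsf 536870912 536870912 536870912 536870912 2) ndF0q1 ndF0q1 pcF2 cut_pp_112 Ext.none)

def k0_pp_112 : ∃ t, chk3 f_pp_112 t 1 1 1 = true :=
  ⟨(l 4), by decide +kernel⟩

theorem c_pp_112 : CertF 536870912 536870912 536870912 536870912 134217728 67108864 true true true .dn 1 1 2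
    ndF0q1 ndF0q1 pcF2 cut_pp_112 Ext.none :=
  certF0 (fam := true) (s1 := true) (s2 := true) (a := 1) (b := 1) (c := 2) (cn := .dn) (n1 := ndF0q1) (n2 := ndF0q1) (pc := pcF2) (cut := cut_pp_112) (xt := Ext.none) (P1 := 536870912) (W1 := 536870912) (P2 := 536870912) (W2 := 536870912) (P3 := 134217728) (W3 := 67108864)
    rfl k0_pp_112

noncomputable def cut_pp_113 : Cut := Cut.of [[⟨3, 0, 0, 1449551462⟩], [⟨4, 0, 0, 2845415833⟩]]

noncomputable def f_pp_113 : ℕ → ℕ → ℕ → ℕ → Bool := onCell 536870912 536870912 536870912 536870912 134217728 67108864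
    (rowF 0 true true true .nn 1 1 3 (qsf 536870912 536870912 536870912 536870912 3) ndF0q1 ndF0q1 pcF3 cut_pp_113 Ext.none)

def k0_pp_113 : ∃ t, chk3 f_pp_113 t 1 1 1 = true :=
  ⟨(l 4), by decide +kernel⟩

theorem c_pp_113 : CertF 536870912 536870912 536870912 536870912 134217728 67108864 true true true .nn 1 1 3
    ndF0q1 ndF0q1 pcF3 cut_pp_113 Ext.none :=
  certF0 (fam := true) (s1 := true) (s2 := true) (a := 1) (b := 1) (c := 3) (cn := .nn) (n1 := ndF0q1) (n2 := ndF0q1) (pc := pcF3) (cut := cut_pp_113) (xt := Ext.none) (P1 := 536870912) (W1 := 536870912) (P2 := 536870912) (W2 := 536870912) (P3 := 134217728) (W3 := 67108864)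
    rfl k0_pp_113

noncomputable def cut_pp_123 : Cut := Cut.of [[⟨3, 0, 0, 1449551462⟩], [⟨4, 0, 0, 2845415833⟩]]

noncomputable def f_pp_123 : ℕ → ℕ → ℕ → ℕ → Bool := onCell 536870912 536870912 0 536870912 134217728 67108864
    (rowF 0 true true true .npn 1 2 3 (qsf 536870912 536870912 0 536870912 3) ndF0q1 ndF0q2 pcF3 cut_pp_123 Ext.none)

def k0_pp_123 : ∃ t, chk3 f_pp_123 t 1 1 1 = true :=
  ⟨(a (l 14) (l 4)), by decide +kernel⟩

theorem c_pp_123 : CertF 536870912 536870912 0 536870912 134217728 67108864 true true true .npn 1 2 3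
    ndF0q1 ndF0q2 pcF3 cut_pp_123 Ext.none :=
  certF0 (fam := true) (s1 := true) (s2 := true) (a := 1) (b := 2) (c := 3) (cn := .npn) (n1 := ndF0q1) (n2 := ndF0q2) (pc := pcF3) (cut := cut_pp_123) (xt := Ext.none) (P1 := 536870912) (W1 := 536870912) (P2 := 0) (W2 := 536870912) (P3 := 134217728) (W3 := 67108864)
    rfl k0_pp_123

noncomputable def cut_pp_202 : Cut := Cut.of [[⟨3, 0, 0, 1449551462⟩], [⟨4, 0, 0, 2845415833⟩]]

noncomputable def f_pp_202 : ℕ → ℕ → ℕ → ℕ → Bool := onCell 0 536870912 0 536870912 134217728 67108864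
    (rowF 0 true true true .pp 2 0 2 (qsf 0 536870912 0 536870912 2) ndF0q2 ndF0q0 pcF2 cut_pp_202 Ext.none)

def k0_pp_202 : ∃ t, chk3 f_pp_202 t 1 1 1 = true :=
  ⟨(l 5), by decide +kernel⟩

theorem c_pp_202 : CertF 0 536870912 0 536870912 134217728 67108864 true true true .pp 2 0 2
    ndF0q2 ndF0q0 pcF2 cut_pp_202 Ext.none :=
  certF0 (fam := true) (s1 := true) (s2 := true) (a := 2) (b := 0) (c := 2) (cn := .pp) (n1 := ndF0q2) (n2 := ndF0q0) (pc := pcF2) (cut := cut_pp_202) (xt := Ext.none) (P1 := 0) (W1 := 536870912) (P2 := 0) (W2 := 536870912) (P3 := 134217728) (W3 := 67108864)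
    rfl k0_pp_202

noncomputable def cut_pp_203 : Cut := Cut.of [[⟨3, 0, 0, 1449551462⟩], [⟨4, 0, 0, 2845415833⟩]]

noncomputable def f_pp_203 : ℕ → ℕ → ℕ → ℕ → Bool := onCell 0 536870912 0 536870912 134217728 67108864
    (rowF 0 true true true .up 2 0 3 (qsf 0 536870912 0 536870912 3) ndF0q2 ndF0q0 pcF3 cut_pp_203 Ext.none)

def k0_pp_203 : ∃ t, chk3 f_pp_203 t 1 1 1 = true :=
  ⟨(l 5), by decide +kernel⟩

theorem c_pp_203 : CertF 0 536870912 0 536870912 134217728 67108864 true true true .up 2 0 3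
    ndF0q2 ndF0q0 pcF3 cut_pp_203 Ext.none :=
  certF0 (fam := true) (s1 := true) (s2 := true) (a := 2) (b := 0) (c := 3) (cn := .up) (n1 := ndF0q2) (n2 := ndF0q0) (pc := pcF3) (cut := cut_pp_203) (xt := Ext.none) (P1 := 0) (W1 := 536870912) (P2 := 0) (W2 := 536870912) (P3 := 134217728) (W3 := 67108864)
    rfl k0_pp_203

noncomputable def cut_pp_213 : Cut := Cut.of [[⟨3, 0, 0, 1449551462⟩], [⟨4, 0, 0, 2845415833⟩]]

noncomputable def f_pp_213 : ℕ → ℕ → ℕ → ℕ → Bool := onCell 0 536870912 536870912 536870912 134217728 67108864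
    (rowF 0 true true true .pnn 2 1 3 (qsf 0 536870912 536870912 536870912 3) ndF0q2 ndF0q1 pcF3 cut_pp_213 Ext.none)

def k0_pp_213 : ∃ t, chk3 f_pp_213 t 1 1 1 = true :=
  ⟨(a (l 5) (l 4)), by decide +kernel⟩

theorem c_pp_213 : CertF 0 536870912 536870912 536870912 134217728 67108864 true true true .pnn 2 1 3
    ndF0q2 ndF0q1 pcF3 cut_pp_213 Ext.none :=
  certF0 (fam := true) (s1 := true) (s2 := true) (a := 2) (b := 1) (c := 3) (cn := .pnn) (n1 := ndF0q2) (n2 := ndF0q1) (pc := pcF3) (cut := cut_pp_213) (xt := Ext.none) (P1 := 0) (W1 := 536870912) (P2 := 536870912) (W2 := 536870912) (P3 := 134217728) (W3 := 67108864)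
    rfl k0_pp_213

noncomputable def cut_pm_001 : Cut := Cut.of [[⟨3, 0, 0, 1449551462⟩], [⟨4, 0, 0, 2845415833⟩]]

noncomputable def f_pm_001 : ℕ → ℕ → ℕ → ℕ → Bool := onCell 0 536870912 0 536870912 134217728 67108864
    (rowF 0 true true false .up 0 0 1 (qsf 0 536870912 0 536870912 1) ndF0q0 ndF0q0 pcF1 cut_pm_001 Ext.none)

def k0_pm_001 : ∃ t, chk3 f_pm_001 t 1 1 1 = true :=
  ⟨(l 3), by decide +kernel⟩

theorem c_pm_001 : CertF 0 536870912 0 536870912 134217728 67108864 true true false .up 0 0 1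
    ndF0q0 ndF0q0 pcF1 cut_pm_001 Ext.none :=
  certF0 (fam := true) (s1 := true) (s2 := false) (a := 0) (b := 0) (c := 1) (cn := .up) (n1 := ndF0q0) (n2 := ndF0q0) (pc := pcF1) (cut := cut_pm_001) (xt := Ext.none) (P1 := 0) (W1 := 536870912) (P2 := 0) (W2 := 536870912) (P3 := 134217728) (W3 := 67108864)
    rfl k0_pm_001

noncomputable def cut_pm_011 : Cut := Cut.of [[⟨3, 0, 0, 1449551462⟩], [⟨4, 0, 0, 2845415833⟩], [⟨0, 0, 0, 67108864⟩, ⟨1, 1, 0, 67108864⟩, ⟨2, 1, 0, 67108864⟩]]

noncomputable def f_pm_011 : ℕ → ℕ → ℕ → ℕ → Bool := onCell 0 536870912 536870912 536870912 134217728 67108864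
    (rowF 1 true true false .pnn 0 1 1 (qsf 0 536870912 536870912 536870912 1) ndF0q0 ndF0q1 pcF1 cut_pm_011 Ext.none)

def k0_pm_011 : ∃ t, chk3 f_pm_011 t 1 1 1 = true :=
  ⟨(l 6), by decide +kernel⟩

theorem c_pm_011 : CertF 0 536870912 536870912 536870912 134217728 67108864 true true false .pnn 0 1 1
    ndF0q0 ndF0q1 pcF1 cut_pm_011 Ext.none :=
  certF1 (fam := true) (s1 := true) (s2 := false) (a := 0) (b := 1) (c := 1) (cn := .pnn) (n1 := ndF0q0) (n2 := ndF0q1) (pc := pcF1) (cut := cut_pm_011) (xt := Ext.none) (P1 := 0) (W1 := 536870912) (P2 := 536870912) (W2 := 536870912) (P3 := 134217728) (W3 := 67108864)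
    rfl (fun _ => rfl) k0_pm_011

noncomputable def cut_pm_012 : Cut := Cut.of [[⟨3, 0, 0, 1449551462⟩], [⟨4, 0, 0, 2845415833⟩], [⟨0, 0, 0, 53687091⟩, ⟨1, 1, 0, 53687091⟩, ⟨2, 1, 0, 53687091⟩], [⟨0, 0, 1, 41943040⟩, ⟨1, 1, 0, 16777216⟩, ⟨2, 1, 1, 41943040⟩]]

noncomputable def f_pm_012 : ℕ → ℕ → ℕ → ℕ → Bool := onCell 1073741824 536870912 536870912 536870912 134217728 67108864
    (rowF 2 true true false .pnp 0 1 2 (qsf 0 536870912 536870912 536870912 2) ndF0q0 ndF0q1 pcF2 cut_pm_012 Ext.none)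

def k0_pm_012 : ∃ t, chk3 f_pm_012 t 1 1 1 = true :=
  ⟨(a (b (l 6) (a (l 6) (b (l 6) (a (l 6) (b (l 6) (a (l 6) (a (b (l 6) (b (l 6) (c (c (l 17425696) (l 17315768)) (c (b (l 17208768) (l 17201112)) (b (a (l 6) (l 17121352)) (a (c (l 17093696) (l 17034624)) (l 17106000))))))) (b (c (l 17343448) (b (l 6) (l 17216376))) (c (b (l 17393608) (l 17422328)) (b (c (l 17266016) (l 17179904)) (c (l 17270320) (b (l 17172640) (l 17142360))))))))))))) (b (a (a (l 6) (l 2)) (l 2)) (b (a (b (a (l 6) (a (l 17184952) (l 2))) (b (a (l 6) (l 17288848)) (a (a (l 6) (l 17208200)) (c (l 17263624) (l 17292360))))) (a (b (l 2) (b (l 2) (l 17328488))) (l 2))) (a (b (a (b (a (l 6) (l 17258992)) (c (a (l 17315576) (l 17354704)) (a (l 17226832) (l 17275960)))) (b (a (l 17287568) (l 17304688)) (a (l 17345096) (l 17361824)))) (a (b (c (a (l 17388008) (l 17430000)) (a (b (l 17257656) (l 17276560)) (l 17324664))) (c (a (b (l 17444944) (l 17481744)) (l 17512808)) (a (b (a (l 17271272) (l 17311944))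 (a (c (l 17324280) (l 17188544)) (l 17325560))) (b (l 17360504) (l 17382040))))) (b (a (l 17409568) (l 17426528)) (c (l 17546728) (a (l 17419512) (l 17447080)))))) (b (a (b (l 17312584) (l 17367360)) (b (l 2) (l 17346760))) (a (b (l 17429392) (c (l 17539976) (l 17458824))) (b (l 17403280) (l 17465264)))))))), by decide +kernel⟩

theorem c_pm_012 : CertF 0 536870912 536870912 536870912 134217728 67108864 true true false .pnp 0 1 2
    ndF0q0 ndF0q1 pcF2 cut_pm_012 Ext.none :=
  certF2 (fam := true) (s1 := true) (s2 := false) (a := 0) (b := 1) (c := 2) (cn := .pnp) (n1 := ndF0q0) (n2 := ndF0q1) (pc := pcF2) (cut := cut_pm_012) (xt := Ext.none) (P1 := 0) (W1 := 536870912) (P2 := 536870912) (W2 := 536870912) (P3 := 134217728) (W3 := 67108864)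
    rfl (fun _ => rfl) k0_pm_012

noncomputable def cut_pm_022 : Cut := Cut.of [[⟨3, 0, 0, 1449551462⟩], [⟨4, 0, 0, 2845415833⟩], [⟨0, 0, 0, 67108864⟩, ⟨1, 1, 0, 67108864⟩, ⟨2, 1, 0, 67108864⟩], [⟨0, 0, 1, 41943040⟩, ⟨1, 1, 0, 16777216⟩, ⟨2, 1, 1, 41943040⟩]]

noncomputable def f_pm_022 : ℕ → ℕ → ℕ → ℕ → Bool := onCell 1073741824 536870912 0 536870912 134217728 67108864
    (rowF 2 true true false .pp 0 2 2 (qsf 0 536870912 0 536870912 2) ndF0q0 ndF0q2 pcF2 cut_pm_022 Ext.none)

def k0_pm_022 : ∃ t, chk3 f_pm_022 t 4 2 1 = true :=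
  ⟨(b (l 1) (a (l 1) (a (l 1) (a (l 1) (a (l 1) (b (l 1) (b (l 1) (c (b (l 16586160) (l 16604200)) (l 16585464))))))))), by decide +kernel⟩

def k1_pm_022 : ∃ t, chk3 f_pm_022 t 5 2 1 = true :=
  ⟨(a (a (a (b (l 1) (b (a (l 1) (c (b (l 16600880) (l 16592848)) (l 16601160))) (a (c (b (l 16609296) (l 16602656)) (b (l 16568760) (l 16581176))) (c (b (l 16585240) (l 16599312)) (b (l 16564832) (l 16576904)))))) (b (a (b (l 1) (c (l 16722912) (l 16596896))) (b (a (l 1) (c (b (l 16958616) (l 16949624)) (l 16610096))) (a (c (l 16853040) (l 16594136)) (c (b (l 16937336) (l 16921056)) (l 16612840))))) (c (a (b (b (l 16699712) (l 16682448)) (b (l 16666000) (l 16652248))) (b (a (l 16818024) (a (l 16874232) (b (l 16919760) (l 16899896)))) (a (b (l 16790344) (l 16773904)) (a (b (l 16845600) (l 16828112)) (b (l 16880320) (l 16862232)))))) (a (b (l 16618320) (l 16608400)) (b (a (l 16573296) (a (l 16571496) (l 16591336))) (a (l 16573392) (a (l 16571304) (b (l 16553888) (l 16565112)))))))))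 (b (b (c (a (l 16901848) (l 17289712)) (a (l 16606136) (l 16705184))) (a (c (l 16878464) (l 16588672)) (c (l 17271888) (l 16688200)))) (b (a (c (b (l 17062240) (l 17042024)) (l 16609840)) (c (l 17070816) (l 16666608))) (a (c (b (l 16811568) (a (l 16942608) (l 17053544))) (b (l 16551560) (l 16562840))) (c (b (l 17208472) (l 17186896)) (b (l 16652344) (l 16646000))))))) (b (a (b (c (a (l 17406048) (l 17480544)) (a (l 16907392) (l 17050704))) (c (a (l 17394568) (l 17475640)) (a (l 16894984) (l 17043520)))) (b (c (l 17540552) (l 17190848)) (c (l 17544984) (l 17191136)))) (a (b (a (c (l 17366272) (l 16875096)) (c (l 17453288) (l 17026928))) (a (c (b (l 17338600) (l 17317584)) (b (l 16859600) (l 16850464))) (c (l 17418992) (l 17006584)))) (b (c (l 17532056) (a (l 17137768) (l 17217736))) (c (a (l 17482832) (l 17526192)) (a (l 17119384) (l 17203048))))))), by decide +kernel⟩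

def k2_pm_022 : ∃ t, chk3 f_pm_022 t 4 3 1 = true :=
  ⟨(b (a (l 1) (a (b (l 1) (b (b (a (l 1) (a (l 1) (a (l 1) (b (l 1) (c (l 16605128) (l 16613512)))))) (l 6)) (l 6))) (a (b (a (b (l 1) (b (l 1) (c (a (l 16605704) (l 16603352)) (a (l 16614264) (a (l 16593328) (l 16592640)))))) (b (c (b (l 1) (l 16616776)) (l 16610080)) (c (a (b (l 16602896) (l 16601352)) (l 16600400)) (b (l 16603952) (a (l 16590744) (l 16589064)))))) (a (b (b (c (a (l 16606552) (l 16603808)) (a (b (l 16606256) (l 16612880)) (l 16619128))) (c (a (l 16609624) (l 16627656)) (a (l 16622680) (l 16621776)))) (l 6)) (a (b (c (b (l 16601440) (l 16604368)) (b (l 16607296) (l 16620480))) (l 6)) (b (c (b (l 16599264) (l 16601880)) (l 16628128)) (b (c (l 16616928) (l 16631952)) (l 6)))))) (b (a (b (c (b (l 16604768) (l 16613016)) (a (l 16583256) (l 16580928))) (c (a (l 16598712) (l 16597088)) (b (l 16600704) (l 16605528)))) (c (b (l 16610864) (l 16606528)) (b (l 16589176) (l 16594232)))) (a (b (c (b (l 16608640)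 (l 16612224)) (b (l 16622312) (l 16635880))) (b (c (l 16627368) (l 16649056)) (l 6))) (b (c (b (l 16614752) (l 16614832)) (c (l 16620784) (l 16630680))) (c (b (l 16628064) (l 16643784)) (a (l 16633640) (l 16631896))))))))) (l 6)), by decide +kernel⟩

def k3_pm_022 : ∃ t, chk3 f_pm_022 t 20 3 1 = true :=
  ⟨(b (a (b (c (a (b (l 16597032) (a (l 16592296) (l 16590624))) (b (l 16593392) (l 16693248))) (a (b (l 16574000) (l 16589544)) (b (l 16569360) (l 16585952)))) (a (b (c (b (l 16589576) (l 16609752)) (l 16622232)) (c (b (l 16623424) (l 16639488)) (l 16649456))) (b (c (b (l 16606136) (l 16604520)) (l 16618480)) (c (b (l 16618992) (l 16635392)) (l 16646096))))) (a (b (c (b (l 16726304) (l 16784216)) (b (l 16564368) (l 16582760))) (b (c (b (l 16637280) (l 16639096)) (l 16636016)) (c (b (l 16642576) (l 16647832)) (l 16642992)))) (b (a (c (b (l 16760592) (l 16751272)) (b (l 16560432) (l 16559624))) (c (a (b (l 16813432) (l 16802408)) (b (c (l 17013584) (l 16679424)) (c (l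 16993744) (l 16675280)))) (a (b (l 16558104) (l 16558944)) (b (l 16577640) (l 16600304))))) (a (b (c (l 16788648) (l 16612640)) (c (b (l 16746848) (l 16748952)) (l 16619824))) (c (b (a (l 16816776) (b (l 16828432) (l 16825656))) (a (b (l 16794224) (l 16795064)) (b (l 16824240) (l 16824304)))) (b (a (l 16611824) (l 16632104)) (a (l 16640016) (c (l 16635264) (l 16643256))))))))) (a (b (b (b (c (a (l 16634592) (l 16630832)) (a (l 16648376) (l 16645288))) (l 6)) (l 6)) (l 6)) (b (a (b (c (b (l 16696912) (c (l 16806264) (l 16647640))) (b (l 16642424) (l 16656136))) (l 6)) (b (c (a (b (l 16752792) (l 16758528)) (a (b (l 16797560) (l 16801880)) (b (c (l 16959152) (l 16692936)) (c (l 16957504) (l 16701536))))) (a (b (l 16619432) (l 16633264)) (b (a (l 16618680) (l 16660016)) (a (l 16632560) (l 16663448))))) (a (l 6) (b (a (l 6) (a (l 6) (c (l 16841384) (l 16645952)))) (l 6))))) (l 6)))), by decide +kernel⟩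

def k4_pm_022 : ∃ t, chk3 f_pm_022 t 21 3 1 = true :=
  ⟨(b (b (a (c (b (a (l 16925224) (l 17033960)) (a (l 16910648) (l 17016304))) (b (c (l 16560376) (l 16548712)) (b (l 16569856) (l 16579888)))) (c (b (l 17165480) (l 17040064)) (b (l 16643224) (l 16644552)))) (a (b (c (a (b (l 16902064) (l 16897512)) (l 16980272)) (b (l 16595648) (l 16610520))) (c (b (a (l 16894200) (l 16992400)) (a (l 16892296) (l 16988024))) (b (l 16625008) (l 16628920)))) (b (c (b (l 17130600) (l 17121584)) (a (l 16594976) (l 16701904))) (c (b (l 17113528) (l 17106640)) (b (l 16658040) (l 16664992)))))) (b (b (a (c (b (a (l 16891936) (l 16985096)) (a (l 16809400) (l 16962832))) (b (l 16643312) (a (l 16629432) (l 16625480)))) (c (b (l 16996232) (c (l 17201064) (l 16993328))) (b (l 16673520) (l 16767632)))) (c (a (b (a (c (l 17014264) (l 16779048)) (l 16858504)) (a (l 6) (c (l 17092760) (l 16881248)))) (b (c (l 17195224) (l 16994600)) (c (l 17191208) (l 16997848)))) (a (b (c (l 16660152) (l 16663824))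 (a (l 6) (l 16676352))) (b (a (l 16649424) (l 16739984)) (a (l 16665240) (l 16752648)))))) (b (b (a (l 6) (a (a (l 6) (c (l 16996448) (l 16705424))) (c (l 16980272) (l 16751824)))) (l 6)) (l 6)))), by decide +kernel⟩

def k5_pm_022 : ∃ t, chk3 f_pm_022 t 22 3 1 = true :=
  ⟨(b (b (a (c (b (l 17295784) (l 17273840)) (b (l 16843200) (l 16838264))) (c (b (l 17389336) (l 17367824)) (b (l 16992384) (l 16983856)))) (b (a (c (l 17252376) (l 16836072)) (c (l 17346072) (l 16976760))) (c (a (l 17170352) (l 17326200)) (a (l 16838088) (l 16973384))))) (b (c (b (a (c (l 17312656) (l 17124976)) (l 17310440)) (a (b (l 17211688) (l 17062328)) (c (l 17380096) (l 17220616)))) (b (a (b (l 16843232) (l 16848640)) (b (l 16974400) (l 16976936))) (a (b (l 16834864) (a (l 16829936) (l 16898496))) (b (l 16981200) (l 16903496))))) (b (c (a (c (l 17291128) (b (l 17125088) (l 17129848))) (c (l 17371736) (l 17222544))) (a (b (a (l 16800392) (l 16887968)) (a (c (l 16938848) (l 16775736)) (c (l 16999528)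 (l 16844352)))) (b (c (l 17070648) (l 16921096)) (c (l 17078888) (a (l 16905960) (l 16961432)))))) (c (a (b (c (l 17291456) (l 17137048)) (l 6)) (b (l 17300200) (c (l 17372472) (l 17237640)))) (b (a (a (l 6) (c (l 17012136) (b (l 16857792) (l 6)))) (c (l 17089656) (a (l 16901520) (l 16976592)))) (a (l 6) (c (b (l 17099440) (l 17064848)) (b (a (l 16936688) (l 16989752)) (a (l 6) (l 16957456)))))))))), by decide +kernel⟩

def k6_pm_022 : ∃ t, chk3 f_pm_022 t 23 3 1 = true :=
  ⟨(b (b (a (c (l 17445928) (b (l 17104704) (l 17094656))) (c (l 17495352) (l 17185200))) (c (a (b (l 17416456) (l 17397424)) (l 17460984)) (a (b (l 17085160) (l 17079016)) (b (l 17172240) (l 17166216))))) (b (c (a (b (l 17382096) (l 17371776)) (b (l 17440376) (l 17431080))) (a (b (a (l 17054056) (l 17101048)) (a (b (l 17057904) (l 17062736)) (l 17105960))) (b (l 17164888) (l 17168928)))) (c (b (a (c (l 17436384) (l 17299752)) (l 17427232)) (a (c (l 17435056) (l 17308600)) (l 17429864))) (b (a (a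 (b (l 17069704) (l 17058072)) (b (l 17114688) (l 17123248))) (c (l 17241392) (l 17118688))) (a (b (c (l 17177096) (a (l 17025592) (l 17071704))) (c (l 17188688) (a (b (l 17037944) (l 17047040)) (l 17087384)))) (c (l 17256856) (b (l 17135240) (c (l 17177392) (l 17120968))))))))), by decide +kernel⟩

def k7_pm_022 : ∃ t, chk3 f_pm_022 t 3 1 1 = true :=
  ⟨(b (a (b (a (a (c (l 17568600) (b (l 17290768) (l 17300904))) (b (l 17440160) (l 17463808))) (b (c (l 17487288) (l 17335704)) (l 17449328))) (b (a (c (l 17586352) (a (l 17300168) (l 17362504))) (l 17475232)) (a (c (l 17580456) (a (l 17292368) (l 17364648))) (l 17491968)))) (b (a (b (l 17327112) (l 17379440)) (b (l 17218824) (l 17280144))) (a (b (l 17421264) (l 17454000)) (b (l 17332800) (l 17377152))))) (a (b (a (a (c (b (l 17544992) (b (l 17527056) (l 17514728))) (b (l 17280168) (b (l 17270688) (l 17266056)))) (b (l 17469576) (c (l 17565216) (l 17355720)))) (b (c (l 17582608) (l 17418560)) (c (l 17584896) (a (l 17408016)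 (l 17434552))))) (a (b (c (a (b (l 17504464) (l 17497216)) (l 17553256)) (a (b (l 17265272) (c (l 17325432) (l 17212312))) (b (l 17356392) (l 17360432)))) (c (a (b (l 17494120) (c (l 17546656) (l 17445424))) (l 17551016)) (a (b (c (l 17331624) (l 17182288)) (a (c (l 17318104) (b (l 17206968) (l 17219160))) (l 17319616))) (b (l 17368800) (l 17382568))))) (b (c (l 17584304) (a (l 17413952) (l 17444856))) (c (l 17630168) (b (l 17445016) (l 17457712)))))) (b (a (b (l 17478072) (l 17537912)) (b (l 17412224) (l 17440280))) (a (b (c (l 17565192) (l 17455968)) (c (l 17576152) (l 17477224))) (b (l 17463040) (l 17484736)))))), by decide +kernel⟩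

theorem s8_pm_022 : ∃ t, chk3 f_pm_022 t 11 3 1 = true := ex3_a k5_pm_022 k6_pm_022

theorem s9_pm_022 : ∃ t, chk3 f_pm_022 t 10 3 1 = true := ex3_a k3_pm_022 k4_pm_022

theorem s10_pm_022 : ∃ t, chk3 f_pm_022 t 5 3 1 = true := ex3_a s9_pm_022 s8_pm_022

theorem s11_pm_022 : ∃ t, chk3 f_pm_022 t 2 3 1 = true := ex3_a k2_pm_022 s10_pm_022

theorem s12_pm_022 : ∃ t, chk3 f_pm_022 t 2 2 1 = true := ex3_a k0_pm_022 k1_pm_022

theorem s13_pm_022 : ∃ t, chk3 f_pm_022 t 2 1 1 = true := ex3_b s12_pm_022 s11_pm_022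

theorem s14_pm_022 : ∃ t, chk3 f_pm_022 t 1 1 1 = true := ex3_a s13_pm_022 k7_pm_022

theorem c_pm_022 : CertF 0 536870912 0 536870912 134217728 67108864 true true false .pp 0 2 2
    ndF0q0 ndF0q2 pcF2 cut_pm_022 Ext.none :=
  certF2 (fam := true) (s1 := true) (s2 := false) (a := 0) (b := 2) (c := 2) (cn := .pp) (n1 := ndF0q0) (n2 := ndF0q2) (pc := pcF2) (cut := cut_pm_022) (xt := Ext.none) (P1 := 0) (W1 := 536870912) (P2 := 0) (W2 := 536870912) (P3 := 134217728) (W3 := 67108864)
    rfl (fun _ => rfl) s14_pm_022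

noncomputable def cut_pm_023 : Cut := Cut.of [[⟨3, 0, 0, 1449551462⟩], [⟨4, 0, 0, 2845415833⟩]]

noncomputable def f_pm_023 : ℕ → ℕ → ℕ → ℕ → Bool := onCell 0 536870912 0 536870912 134217728 67108864
    (rowF 0 true true false .up 0 2 3 (qsf 0 536870912 0 536870912 3) ndF0q0 ndF0q2 pcF3 cut_pm_023 Ext.none)

def k0_pm_023 : ∃ t, chk3 f_pm_023 t 1 1 1 = true :=
  ⟨(a (l 1) (b (a (a (l 1) (b (a (b (l 1) (l 1)) (b (l 17346920) (b (l 17456088) (l 17517696)))) (c (l 17641520) (l 89155778039)))) (b (a (b (a (l 17260976) (l 17178432)) (a (l 17405784) (l 17316328))) (b (a (l 16995024) (l 14)) (a (l 17233616) (l 17155568)))) (a (b (a (l 17485472) (l 17420840)) (l 17503648)) (b (a (l 17355728) (a (l 17307352) (l 17273480))) (l 17396048))))) (a (b (l 1) (l 1)) (b (a (b (l 17554088) (l 99356354055)) (b (l 17461744) (l 17530088))) (a (b (l 112241262135) (l 1)) (b (l 17599144) (l 106335780231))))))), by decide +kernel⟩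

theorem c_pm_023 : CertF 0 536870912 0 536870912 134217728 67108864 true true false .up 0 2 3
    ndF0q0 ndF0q2 pcF3 cut_pm_023 Ext.none :=
  certF0 (fam := true) (s1 := true) (s2 := false) (a := 0) (b := 2) (c := 3) (cn := .up) (n1 := ndF0q0) (n2 := ndF0q2) (pc := pcF3) (cut := cut_pm_023) (xt := Ext.none) (P1 := 0) (W1 := 536870912) (P2 := 0) (W2 := 536870912) (P3 := 134217728) (W3 := 67108864)
    rfl k0_pm_023

noncomputable def cut_pm_101 : Cut := Cut.of [[⟨3, 0, 0, 1449551462⟩], [⟨4, 0, 0, 2845415833⟩], [⟨0, 1, 0, 67108864⟩, ⟨1, 0, 0, 67108864⟩, ⟨2, 1, 0, 67108864⟩]]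

noncomputable def f_pm_101 : ℕ → ℕ → ℕ → ℕ → Bool := onCell 536870912 536870912 536870912 536870912 134217728 67108864
    (rowF 1 true true false .npn 1 0 1 (qsf 536870912 536870912 0 536870912 1) ndF0q1 ndF0q0 pcF1 cut_pm_101 Ext.none)

def k0_pm_101 : ∃ t, chk3 f_pm_101 t 1 1 1 = true :=
  ⟨(l 6), by decide +kernel⟩

theorem c_pm_101 : CertF 536870912 536870912 0 536870912 134217728 67108864 true true false .npn 1 0 1
    ndF0q1 ndF0q0 pcF1 cut_pm_101 Ext.none :=
  certF1 (fam := true) (s1 := true) (s2 := false) (a := 1) (b := 0) (c := 1) (cn := .npn) (n1 := ndF0q1) (n2 := ndF0q0) (pc := pcF1) (cut := cut_pm_101) (xt := Ext.none) (P1 := 536870912) (W1 := 536870912) (P2 := 0) (W2 := 536870912) (P3 := 134217728) (W3 := 67108864)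
    rfl (fun _ => rfl) k0_pm_101

noncomputable def cut_pm_102 : Cut := Cut.of [[⟨3, 0, 0, 1449551462⟩], [⟨4, 0, 0, 2845415833⟩], [⟨0, 1, 0, 53687091⟩, ⟨1, 0, 0, 53687091⟩, ⟨2, 1, 0, 53687091⟩], [⟨0, 1, 0, 16777216⟩, ⟨1, 0, 1, 41943040⟩, ⟨2, 1, 1, 41943040⟩]]

noncomputable def f_pm_102 : ℕ → ℕ → ℕ → ℕ → Bool := onCell 536870912 536870912 0 536870912 134217728 67108864
    (rowF 0 true true false .npp 1 0 2 (qsf 536870912 536870912 0 536870912 2) ndF0q1 ndF0q0 pcF2 cut_pm_102 Ext.none)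

def k0_pm_102 : ∃ t, chk3 f_pm_102 t 1 1 1 = true :=
  ⟨(a (l 6) (b (a (l 6) (b (l 6) (a (l 6) (b (l 6) (a (l 6) (a (l 6) (a (b (l 6) (b (l 6) (c (l 17379816) (c (l 17225184) (l 17121504))))) (b (l 6) (c (b (l 17254248) (l 17415840)) (b (c (l 17161448) (b (a (l 6) (l 17047096)) (l 17085544))) (c (l 17253584) (b (l 17126296) (l 17163368))))))))))))) (a (b (l 6) (a (l 6) (a (b (l 6) (b (l 6) (l 17180752))) (b (b (l 6) (c (l 17211712) (l 17167408))) (b (l 17223736) (l 17246408)))))) (b (a (b (l 6) (a (l 6) (b (c (l 17289952) (a (l 6) (l 17221944))) (c (l 17337032) (l 17253328))))) (b (a (b (a (l 6) (a (l 6) (c (l 17339856) (l 17181896)))) (c (l 17359648) (a (l 17203912) (l 17258048)))) (b (c (a (b (l 17372872) (l 17412472)) (c (l 17510480) (l 17417560))) (a (b (c (l 17240496) (a (l 17138656) (l 17163408))) (l 17227224)) (c (l 17324200) (b (a (l 17188344) (l 17213440)) (l 17257592))))) (c (a (l 17458744) (l 17523592)) (a (b (l 17292512) (l 17329712)) (l 17365112))))) (a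 (c (l 17430024) (b (l 17298544) (l 17346224))) (c (l 17539736) (b (l 17398440) (l 17435552)))))) (a (b (a (b (c (l 17270520) (l 17208904)) (l 17274776)) (b (l 17332032) (l 17354904))) (a (l 17304720) (l 17367680))) (b (a (c (l 17465864) (l 17386832)) (c (l 17545896) (l 17458152))) (a (l 17425392) (l 17476168)))))))), by decide +kernel⟩

theorem c_pm_102 : CertF 536870912 536870912 0 536870912 134217728 67108864 true true false .npp 1 0 2
    ndF0q1 ndF0q0 pcF2 cut_pm_102 Ext.none :=
  certF0 (fam := true) (s1 := true) (s2 := false) (a := 1) (b := 0) (c := 2) (cn := .npp) (n1 := ndF0q1) (n2 := ndF0q0) (pc := pcF2) (cut := cut_pm_102) (xt := Ext.none) (P1 := 536870912) (W1 := 536870912) (P2 := 0) (W2 := 536870912) (P3 := 134217728) (W3 := 67108864)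
    rfl k0_pm_102

noncomputable def cut_pm_112 : Cut := Cut.of [[⟨3, 0, 0, 1449551462⟩], [⟨4, 0, 0, 2845415833⟩]]

noncomputable def f_pm_112 : ℕ → ℕ → ℕ → ℕ → Bool := onCell 536870912 536870912 1073741824 536870912 134217728 67108864
    (rowF 1 true true false .dn 1 1 2 (qsf 536870912 536870912 536870912 536870912 2) ndF0q1 ndF0q1 pcF2 cut_pm_112 Ext.none)

def k0_pm_112 : ∃ t, chk3 f_pm_112 t 1 1 1 = true :=
  ⟨(a (b (l 6) (a (b (b (l 6) (a (a (b (l 17175984) (l 17233680)) (l 17296184)) (b (l 17101608) (l 17149904)))) (a (a (b (b (l 17286920) (l 17337312)) (l 17403944)) (b (l 17414552) (l 17347600))) (b (b (l 17192640) (l 17314632)) (b (l 17326672) (l 17354696))))) (b (b (l 6) (a (l 17152776) (l 17145296))) (a (b (l 17157888) (l 17211736)) (b (l 17137896) (l 17164168)))))) (b (a (l 6) (l 1)) (a (b (a (b (l 6) (l 17364792)) (a (b (l 6) (l 17246880)) (b (l 1) (l 74659906519)))) (a (a (l 17299880) (l 17325896)) (b (c (l 17279256) (l 17425360)) (l 17325440)))) (b (a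 (b (l 1) (a (l 97208388759) (l 1))) (l 1)) (a (b (a (l 17312600) (l 17367448)) (a (l 17296752) (l 17346752))) (b (a (l 17429656) (l 1)) (a (l 17403344) (l 17465552)))))))), by decide +kernel⟩

theorem c_pm_112 : CertF 536870912 536870912 536870912 536870912 134217728 67108864 true true false .dn 1 1 2
    ndF0q1 ndF0q1 pcF2 cut_pm_112 Ext.none :=
  certF1 (fam := true) (s1 := true) (s2 := false) (a := 1) (b := 1) (c := 2) (cn := .dn) (n1 := ndF0q1) (n2 := ndF0q1) (pc := pcF2) (cut := cut_pm_112) (xt := Ext.none) (P1 := 536870912) (W1 := 536870912) (P2 := 536870912) (W2 := 536870912) (P3 := 134217728) (W3 := 67108864)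
    rfl (fun _ => rfl) k0_pm_112

noncomputable def cut_pm_113 : Cut := Cut.of [[⟨3, 0, 0, 1449551462⟩], [⟨4, 0, 0, 2845415833⟩], [⟨0, 1, 0, 39843005⟩, ⟨1, 1, 0, 39843005⟩, ⟨2, 2, 0, 5814905⟩]]

noncomputable def f_pm_113 : ℕ → ℕ → ℕ → ℕ → Bool := onCell 536870912 536870912 536870912 536870912 134217728 67108864
    (rowF 0 true true false .nn 1 1 3 (qsf 536870912 536870912 536870912 536870912 3) ndF0q1 ndF0q1 pcF3 cut_pm_113 Ext.none)

def k0_pm_113 : ∃ t, chk3 f_pm_113 t 1 1 1 = true :=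
  ⟨(a (b (a (l 1) (b (l 1) (l 111703881383))) (b (a (b (l 1) (a (l 1) (l 86470977223))) (b (l 94524217111) (l 17525336))) (a (b (a (l 101503659079) (b (l 17411160) (l 17473352))) (a (b (l 17597464) (l 17654160)) (b (l 17535640) (l 17587288)))) (b (a (l 17556312) (b (l 17258912) (l 17277536))) (a (b (l 17444592) (l 17493104)) (b (l 17325712) (l 17372792))))))) (b (a (b (a (l 1) (b (l 1) (l 86470977223))) (a (l 94524217111) (l 17525336))) (b (a (b (l 101503659079) (a (l 17411160) (l 17473352))) (b (a (l 17597464) (l 17654160)) (a (l 17535640) (l 17587288)))) (a (b (l 17556312) (a (l 17258912) (l 17277536))) (b (a (l 17444592) (l 17493104)) (a (l 17325712) (l 17372792)))))) (b (a (a (l 17203584) (l 17187408)) (a (b (l 17391024) (l 17061624)) (b (a (l 17185008) (l 17402104)) (a (l 17159192) (b (a (l 17116440) (l 17138720)) (l 17182112)))))) (a (b (a (l 17391024) (l 17061624)) (a (b (l 17185008) (l 17402104)) (b (l 17159192) (a (b (l 17116440) (l 17138720)) (l 17182112)))))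 (b (a (l 16973792) (a (l 17113160) (a (l 17146496) (b (l 16998056) (l 14))))) (b (a (l 17113160) (a (l 16876744) (l 14))) (a (b (l 17146496) (a (l 16998056) (l 14))) (l 14)))))))), by decide +kernel⟩

theorem c_pm_113 : CertF 536870912 536870912 536870912 536870912 134217728 67108864 true true false .nn 1 1 3
    ndF0q1 ndF0q1 pcF3 cut_pm_113 Ext.none :=
  certF0 (fam := true) (s1 := true) (s2 := false) (a := 1) (b := 1) (c := 3) (cn := .nn) (n1 := ndF0q1) (n2 := ndF0q1) (pc := pcF3) (cut := cut_pm_113) (xt := Ext.none) (P1 := 536870912) (W1 := 536870912) (P2 := 536870912) (W2 := 536870912) (P3 := 134217728) (W3 := 67108864)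
    rfl k0_pm_113

noncomputable def cut_pm_123 : Cut := Cut.of [[⟨3, 0, 0, 1449551462⟩], [⟨4, 0, 0, 2845415833⟩], [⟨0, 1, 0, 39843005⟩, ⟨1, 1, 0, 39843005⟩, ⟨2, 2, 0, 5814905⟩]]

noncomputable def f_pm_123 : ℕ → ℕ → ℕ → ℕ → Bool := onCell 1610612736 536870912 0 536870912 134217728 67108864
    (rowF 2 true true false .npn 1 2 3 (qsf 536870912 536870912 0 536870912 3) ndF0q1 ndF0q2 pcF3 cut_pm_123 Ext.none)

def k0_pm_123 : ∃ t, chk3 f_pm_123 t 1 1 1 = true :=
  ⟨(a (b (a (b (l 1) (a (l 1) (b (l 1) (l 17399032)))) (b (a (b (l 14) (a (l 17139304) (l 14))) (l 14)) (a (b (a (b (l 17228256) (l 17280544)) (c (l 17208240) (l 17161456))) (a (l 17318536) (l 17263328))) (b (a (l 17112928) (l 14)) (a (b (l 17193656) (l 17224872)) (b (l 17127544) (l 17168056))))))) (a (b (a (l 1) (b (l 17436048) (l 17475152))) (b (a (c (l 17651760) (l 17533384)) (l 17516136)) (a (c (l 17701312) (l 17579304)) (l 17568136)))) (b (a (b (l 17336000) (l 17380776)) (b (a (l 17259288) (l 17205888)) (l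 17275464))) (a (b (l 17446056) (l 17472760)) (b (b (l 17305960) (l 17324912)) (l 17356344)))))) (a (b (a (b (l 14) (b (l 14) (a (b (l 14) (c (l 17124080) (l 17090720))) (l 14)))) (l 14)) (b (a (b (a (c (l 17167336) (l 17130784)) (b (l 14) (l 17101568))) (a (l 17190104) (l 17127592))) (b (l 14) (a (l 17063824) (l 14)))) (a (b (a (l 17223384) (l 17157728)) (l 17430976)) (b (a (l 17091080) (a (l 17041328) (l 14))) (b (l 17180072) (l 17155112)))))) (a (b (l 14) (b (l 14) (l 14))) (l 14)))), by decide +kernel⟩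

theorem c_pm_123 : CertF 536870912 536870912 0 536870912 134217728 67108864 true true false .npn 1 2 3
    ndF0q1 ndF0q2 pcF3 cut_pm_123 Ext.none :=
  certF2 (fam := true) (s1 := true) (s2 := false) (a := 1) (b := 2) (c := 3) (cn := .npn) (n1 := ndF0q1) (n2 := ndF0q2) (pc := pcF3) (cut := cut_pm_123) (xt := Ext.none) (P1 := 536870912) (W1 := 536870912) (P2 := 0) (W2 := 536870912) (P3 := 134217728) (W3 := 67108864)
    rfl (fun _ => rfl) k0_pm_123

noncomputable def cut_pm_202 : Cut := Cut.of [[⟨3, 0, 0, 1449551462⟩], [⟨4, 0, 0, 2845415833⟩], [⟨0, 1, 0, 67108864⟩, ⟨1, 0, 0, 67108864⟩, ⟨2, 1, 0, 67108864⟩], [⟨0, 1, 0, 16777216⟩, ⟨1, 0, 1, 41943040⟩, ⟨2, 1, 1, 41943040⟩]]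

noncomputable def f_pm_202 : ℕ → ℕ → ℕ → ℕ → Bool := onCell 0 536870912 1073741824 536870912 134217728 67108864
    (rowF 1 true true false .pp 2 0 2 (qsf 0 536870912 0 536870912 2) ndF0q2 ndF0q0 pcF2 cut_pm_202 Ext.none)

def k0_pm_202 : ∃ t, chk3 f_pm_202 t 4 2 1 = true :=
  ⟨(b (l 1) (b (b (b (l 1) (a (b (l 1) (b (l 1) (c (a (l 16958552) (l 16949560)) (l 16610096)))) (b (a (l 1) (c (l 16716136) (l 16592064))) (c (b (a (l 16860944) (l 16846280)) (a (l 16937328) (l 16921056))) (b (l 16594136) (l 16633816)))))) (a (c (b (a (l 17115472) (l 17107824)) (l 17289712)) (b (l 16606136) (l 16705184))) (b (c (a (l 17096280) (l 17080816)) (l 16588672)) (c (l 17271888) (l 16688200))))) (b (a (c (b (l 17406048) (l 17480544)) (b (l 16907392) (l 17050704))) (c (b (l 17394568) (l 17475640)) (b (l 16894984) (l 17043520)))) (a (c (l 17540552) (l 17190848)) (c (l 17544984) (l 17191136)))))), by decide +kernel⟩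

def k1_pm_202 : ∃ t, chk3 f_pm_202 t 5 2 1 = true :=
  ⟨(b (a (l 1) (b (l 1) (b (l 1) (b (l 1) (b (l 1) (a (l 1) (c (a (l 16586160) (l 16604200)) (l 16585464)))))))) (b (b (b (a (b (l 1) (a (c (l 16600880) (l 16585096)) (c (l 16592848) (l 16574696)))) (b (a (c (l 16609296) (l 16568760)) (c (l 16602656) (l 16581176))) (c (a (l 16585240) (l 16599312)) (a (l 16564832) (l 16576904))))) (c (b (a (a (c (l 16912208) (l 16593344)) (l 16682448)) (a (l 16666000) (l 16652248))) (a (b (a (l 16827888) (l 16808752)) (b (l 16790344) (a (l 16919760) (l 16899896)))) (b (a (l 16790344) (l 16773904)) (b (a (l 16845600) (l 16828112)) (a (l 16880320) (l 16862232)))))) (b (a (a (l 16581416) (l 16570736)) (a (l 16560560) (l 16572280))) (a (b (l 16573296) (b (l 16571496) (l 16591336))) (b (l 16573392) (b (l 16581792) (a (l 16553888) (l 16565112)))))))) (a (b (c (a (l 17062240) (l 17021056)) (l 16609840)) (c (a (l 17248784) (l 17229400)) (a (l 16672120) (l 16661400)))) (b (c (a (b (l 16962000)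 (l 17074304)) (b (l 16942608) (l 17053544))) (a (l 16551560) (l 16562840))) (c (a (l 17208472) (l 17186896)) (a (l 16652344) (l 16646000)))))) (b (a (c (b (l 17366272) (l 17453288)) (b (l 16875096) (l 17026928))) (b (c (a (l 17338600) (l 17317584)) (a (l 16859600) (l 16850464))) (c (l 17418992) (l 17006584)))) (a (c (l 17532056) (b (l 17137768) (l 17217736))) (c (b (l 17482832) (l 17526192)) (b (l 17119384) (l 17203048))))))), by decide +kernel⟩

def k2_pm_202 : ∃ t, chk3 f_pm_202 t 2 3 1 = true :=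
  ⟨(b (a (b (b (c (l 17568600) (a (l 17290768) (l 17300904))) (a (l 17440160) (l 17463808))) (a (c (l 17487288) (l 17335704)) (l 17449328))) (a (b (c (l 17586352) (b (l 17300168) (l 17362504))) (l 17475232)) (b (c (l 17580456) (b (l 17292368) (l 17364648))) (l 17491968)))) (a (b (a (l 17327112) (l 17379440)) (a (l 17218824) (l 17280144))) (b (a (l 17421264) (l 17454000)) (a (l 17332800) (l 17377152))))), by decide +kernel⟩

def k3_pm_202 : ∃ t, chk3 f_pm_202 t 6 4 1 = true :=
  ⟨(a (b (l 1) (b (l 1) (b (b (a (l 1) (a (l 1) (c (b (l 16605704) (l 16603352)) (b (l 16614264) (b (l 16593328) (l 16592640)))))) (b (a (l 1) (c (a (l 16602896) (l 16601352)) (a (l 16584640) (l 16611720)))) (a (c (l 16604224) (l 16585672)) (c (l 16600400) (a (l 16581912) (l 16589064)))))) (b (a (c (a (l 16604768) (l 16613016)) (a (l 16585000) (l 16592656))) (c (b (l 16598712) (l 16597088)) (a (l 16600704) (l 16605528)))) (c (a (l 16613480) (l 16611776)) (a (l 16589176) (l 16615208))))))) (b (l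 1) (b (a (a (b (l 1) (a (l 1) (b (l 1) (b (l 1) (c (l 16605128) (l 16613512)))))) (l 6)) (l 6)) (b (b (a (a (c (b (l 16606552) (l 16603808)) (b (a (l 16606256) (l 16612880)) (l 16619128))) (c (b (l 16609624) (l 16627656)) (b (l 16622680) (l 16621776)))) (l 6)) (b (a (c (a (l 16601440) (l 16604368)) (a (l 16607296) (l 16620480))) (l 6)) (a (c (a (l 16599264) (l 16601880)) (a (l 16605728) (l 16619000))) (a (c (l 16616928) (l 16631952)) (l 6))))) (b (a (c (a (l 16608640) (l 16612224)) (a (l 16622312) (l 16635880))) (a (c (l 16627368) (l 16649056)) (l 6))) (a (c (a (l 16614752) (l 16614832)) (c (l 16620784) (l 16630680))) (c (a (l 16628064) (l 16643784)) (b (l 16633640) (l 16631896))))))))), by decide +kernel⟩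

def k4_pm_202 : ∃ t, chk3 f_pm_202 t 6 10 1 = true :=
  ⟨(b (b (a (c (b (a (l 16597032) (b (l 16592296) (l 16590624))) (a (l 16593392) (l 16735192))) (b (a (l 16574000) (l 16589544)) (a (l 16569360) (l 16585952)))) (b (a (c (a (l 16589576) (l 16609752)) (l 16622232)) (c (a (l 16623424) (l 16639488)) (l 16649456))) (a (c (a (l 16606136) (l 16604520)) (l 16618480)) (c (a (l 16618992) (l 16635392)) (l 16646096))))) (b (a (c (a (l 16747272) (b (l 16595784) (l 16677208))) (a (l 16564368) (l 16582760))) (a (c (a (l 16637280) (l 16639096)) (l 16636016)) (c (a (l 16642576) (l 16647832)) (l 16642992)))) (a (b (c (a (l 16760592) (l 16751272)) (a (l 16560432) (l 16559624))) (c (b (a (l 16813432) (l 16802408)) (a (a (l 16850376) (l 16843416)) (a (l 16837384) (l 16832360)))) (a (b (l 16558104) (l 16577640)) (b (l 16558944) (l 16600304))))) (b (a (c (l 16788648) (l 16612640)) (c (a (l 16746848) (l 16748952)) (l 16619824))) (c (a (b (l 16816776) (a (l 16828432) (l 16825656))) (b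 (a (l 16794224) (l 16795064)) (a (l 16824240) (l 16824304)))) (a (b (l 16611824) (l 16632104)) (b (l 16640016) (c (l 16635264) (l 16643256))))))))) (a (b (c (a (b (l 16925224) (l 17033960)) (b (l 16910648) (l 17016304))) (a (b (l 16554712) (l 16551528)) (a (l 16569856) (l 16579888)))) (c (a (l 17165480) (l 17040064)) (a (l 16643224) (l 16644552)))) (b (a (c (b (a (l 16902064) (l 16897512)) (l 16980272)) (a (l 16595648) (l 16610520))) (c (a (b (l 16894200) (l 16992400)) (b (l 16892296) (l 16988024))) (a (l 16625008) (l 16628920)))) (a (c (a (l 17130600) (l 17121584)) (b (l 16594976) (l 16701904))) (c (a (l 17113528) (l 17106640)) (a (l 16658040) (l 16664992))))))), by decide +kernel⟩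

def k5_pm_202 : ∃ t, chk3 f_pm_202 t 6 11 1 = true :=
  ⟨(b (a (c (b (a (l 17295784) (l 17273840)) (a (l 17389336) (l 17367824))) (b (a (l 16843200) (l 16838264)) (a (l 16992384) (l 16983856)))) (c (a (b (l 17252376) (l 17346072)) (b (l 17191328) (l 17326200))) (a (b (l 16836072) (l 16976760)) (b (l 16838088) (l 16973384))))) (a (b (c (l 17445928) (a (l 17104704) (l 17094656))) (c (l 17495352) (l 17185200))) (c (b (a (l 17416456) (l 17397424)) (l 17460984)) (b (a (l 17085160) (l 17079016)) (a (l 17172240) (l 17166216)))))), by decide +kernel⟩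

def k6_pm_202 : ∃ t, chk3 f_pm_202 t 7 4 1 = true :=
  ⟨(l 6), by decide +kernel⟩

def k7_pm_202 : ∃ t, chk3 f_pm_202 t 7 10 1 = true :=
  ⟨(b (b (a (a (a (c (b (l 16634592) (l 16630832)) (b (l 16648376) (l 16645288))) (l 6)) (l 6)) (l 6)) (a (b (a (c (a (l 16696912) (c (l 16806264) (l 16647640))) (a (l 16642424) (l 16656136))) (l 6)) (a (c (b (a (l 16752792) (l 16758528)) (b (a (l 16797560) (l 16801880)) (a (c (l 16959152) (l 16692936)) (c (l 16957504) (l 16701536))))) (b (a (l 16619432) (l 16633264)) (a (b (l 16618680) (l 16660016)) (b (l 16632560) (l 16663448))))) (b (l 6) (a (b (l 6) (b (l 6) (c (l 16841384) (l 16645952)))) (l 6))))) (l 6))) (a (a (b (c (a (b (l 16891936) (l 16985096)) (b (l 16809400) (l 16962832))) (a (l 16643312) (b (l 16629432) (l 16625480)))) (c (a (l 16996232) (c (l 17201064) (l 16993328))) (a (l 16673520) (l 16746656)))) (b (c (a (b (c (l 17014264) (l 16779048)) (l 16858504)) (b (l 6) (c (l 17092760) (l 16881248)))) (a (c (l 16660152) (l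 16663824)) (b (l 6) (l 16676352)))) (c (a (c (l 17195224) (l 16994600)) (c (l 17191208) (l 16997848))) (a (b (l 16649424) (l 16739984)) (b (l 16665240) (l 16752648)))))) (a (a (b (l 6) (b (a (c (l 16999896) (l 16678528)) (l 6)) (c (l 17001248) (l 16746576)))) (l 6)) (l 6)))), by decide +kernel⟩

def k8_pm_202 : ∃ t, chk3 f_pm_202 t 7 11 1 = true :=
  ⟨(a (b (c (a (b (c (l 17312656) (l 17124976)) (l 17310440)) (a (b (l 17211688) (l 17302320)) (b (l 17083296) (l 17298824)))) (a (b (a (l 16843232) (l 16848640)) (a (l 16974400) (l 16976936))) (b (a (l 16834864) (b (l 16829936) (l 16898496))) (a (l 16981200) (l 16903496))))) (c (b (a (l 17382096) (l 17371776)) (a (l 17440376) (l 17431080))) (b (a (b (l 17054056) (l 17101048)) (b (a (l 17057904) (l 17062736)) (l 17105960))) (a (l 17164888) (l 17168928))))) (b (a (c (b (c (l 17291128) (a (l 17125088) (l 17129848))) (c (l 17371736) (l 17222544))) (b (a (b (l 16821360) (l 16887968)) (b (c (l 16938848) (l 16775736)) (c (l 16999528)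 (l 16844352)))) (a (c (l 17070648) (l 16921096)) (c (l 17078888) (b (l 16905960) (l 16961432)))))) (c (b (a (c (l 17291456) (l 17137048)) (l 6)) (a (l 17300200) (c (l 17372464) (l 17237632)))) (a (b (b (l 6) (c (l 17012136) (a (l 16857792) (l 6)))) (c (l 17089656) (b (l 16922488) (l 16976592)))) (b (l 6) (c (a (l 17099440) (l 17064848)) (a (b (l 16936688) (l 16989752)) (b (l 6) (l 16957456)))))))) (c (a (b (c (l 17436384) (l 17299752)) (l 17427232)) (b (c (l 17435032) (l 17308584)) (l 17429840))) (a (b (b (a (l 17069704) (l 17058072)) (c (l 17184512) (l 17053024))) (c (l 17241392) (l 17118688))) (b (a (c (l 17177096) (b (l 17025592) (l 17071704))) (c (l 17188688) (b (a (l 17037944) (l 17047040)) (l 17087384)))) (c (l 17256848) (a (l 17135240) (c (l 17177392) (l 17120968))))))))), by decide +kernel⟩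

def k9_pm_202 : ∃ t, chk3 f_pm_202 t 3 3 1 = true :=
  ⟨(b (a (b (b (a (c (l 17544992) (l 17280168)) (c (a (l 17527056) (l 17514728)) (a (l 17270688) (l 17266056)))) (a (l 17469576) (c (l 17565216) (l 17355720)))) (a (c (l 17582608) (l 17418560)) (c (l 17584896) (b (l 17408016) (l 17434552))))) (b (a (c (b (a (l 17504464) (l 17497216)) (l 17553256)) (b (a (l 17265272) (c (l 17325432) (l 17212312))) (l 17357352))) (c (b (a (l 17494120) (c (l 17546632) (l 17445400))) (l 17550920)) (b (a (c (l 17331624) (l 17224224)) (b (c (l 17318088) (a (l 17206968) (l 17219152))) (l 17319600))) (a (l 17368800) (l 17382552))))) (a (c (l 17584304) (b (l 17413952) (l 17444856))) (c (l 17588088) (a (l 17445016) (l 17457688)))))) (a (b (a (l 17478072) (l 17516936)) (a (l 17412224) (l 17440280))) (b (a (l 17594064) (c (l 17576064) (l 17477136))) (a (l 17463040) (l 17484672))))), by decide +kernel⟩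

theorem s10_pm_202 : ∃ t, chk3 f_pm_202 t 7 5 1 = true := ex3_b k7_pm_202 k8_pm_202

theorem s11_pm_202 : ∃ t, chk3 f_pm_202 t 7 2 1 = true := ex3_b k6_pm_202 s10_pm_202

theorem s12_pm_202 : ∃ t, chk3 f_pm_202 t 6 5 1 = true := ex3_b k4_pm_202 k5_pm_202

theorem s13_pm_202 : ∃ t, chk3 f_pm_202 t 6 2 1 = true := ex3_b k3_pm_202 s12_pm_202

theorem s14_pm_202 : ∃ t, chk3 f_pm_202 t 3 2 1 = true := ex3_a s13_pm_202 s11_pm_202

theorem s15_pm_202 : ∃ t, chk3 f_pm_202 t 3 1 1 = true := ex3_b s14_pm_202 k9_pm_202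

theorem s16_pm_202 : ∃ t, chk3 f_pm_202 t 2 2 1 = true := ex3_a k0_pm_202 k1_pm_202

theorem s17_pm_202 : ∃ t, chk3 f_pm_202 t 2 1 1 = true := ex3_b s16_pm_202 k2_pm_202

theorem s18_pm_202 : ∃ t, chk3 f_pm_202 t 1 1 1 = true := ex3_a s17_pm_202 s15_pm_202

theorem c_pm_202 : CertF 0 536870912 0 536870912 134217728 67108864 true true false .pp 2 0 2
    ndF0q2 ndF0q0 pcF2 cut_pm_202 Ext.none :=
  certF1 (fam := true) (s1 := true) (s2 := false) (a := 2) (b := 0) (c := 2) (cn := .pp) (n1 := ndF0q2) (n2 := ndF0q0) (pc := pcF2) (cut := cut_pm_202) (xt := Ext.none) (P1 := 0) (W1 := 536870912) (P2 := 0) (W2 := 536870912) (P3 := 134217728) (W3 := 67108864)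
    rfl (fun _ => rfl) s18_pm_202

noncomputable def cut_pm_203 : Cut := Cut.of [[⟨3, 0, 0, 1449551462⟩], [⟨4, 0, 0, 2845415833⟩]]

noncomputable def f_pm_203 : ℕ → ℕ → ℕ → ℕ → Bool := onCell 0 536870912 0 536870912 134217728 67108864
    (rowF 0 true true false .up 2 0 3 (qsf 0 536870912 0 536870912 3) ndF0q2 ndF0q0 pcF3 cut_pm_203 Ext.none)

def k0_pm_203 : ∃ t, chk3 f_pm_203 t 1 1 1 = true :=
  ⟨(a (b (l 1) (b (b (l 1) (a (b (a (l 1) (l 1)) (a (l 17346920) (a (l 17456088) (l 17517696)))) (c (l 17641520) (l 89155778039)))) (a (b (a (b (l 17260976) (l 17178432)) (b (l 17405784) (l 17316328))) (a (b (l 16995024) (l 14)) (b (l 17233616) (l 17155568)))) (b (a (b (l 17485472) (l 17420840)) (l 17503648)) (a (a (b (l 17339456) (l 17260144)) (l 17345744)) (l 17396048)))))) (b (l 1) (b (a (l 1) (l 1)) (a (b (a (l 17554088) (l 99356354055)) (a (l 17461744) (l 17530088))) (a (b (l 112241262455) (l 17599144)) (b (l 1) (l 106335780391))))))), by decide +kernel⟩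

theorem c_pm_203 : CertF 0 536870912 0 536870912 134217728 67108864 true true false .up 2 0 3
    ndF0q2 ndF0q0 pcF3 cut_pm_203 Ext.none :=
  certF0 (fam := true) (s1 := true) (s2 := false) (a := 2) (b := 0) (c := 3) (cn := .up) (n1 := ndF0q2) (n2 := ndF0q0) (pc := pcF3) (cut := cut_pm_203) (xt := Ext.none) (P1 := 0) (W1 := 536870912) (P2 := 0) (W2 := 536870912) (P3 := 134217728) (W3 := 67108864)
    rfl k0_pm_203

noncomputable def cut_pm_213 : Cut := Cut.of [[⟨3, 0, 0, 1449551462⟩], [⟨4, 0, 0, 2845415833⟩], [⟨0, 1, 0, 39843005⟩, ⟨1, 1, 0, 39843005⟩, ⟨2, 2, 0, 5814905⟩]]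

noncomputable def f_pm_213 : ℕ → ℕ → ℕ → ℕ → Bool := onCell 0 536870912 1610612736 536870912 134217728 67108864
    (rowF 1 true true false .pnn 2 1 3 (qsf 0 536870912 536870912 536870912 3) ndF0q2 ndF0q1 pcF3 cut_pm_213 Ext.none)

def k0_pm_213 : ∃ t, chk3 f_pm_213 t 1 1 1 = true :=
  ⟨(b (a (b (a (l 1) (b (l 1) (a (l 1) (l 17399032)))) (a (b (a (l 14) (b (l 17139304) (l 14))) (l 14)) (b (a (b (a (l 17228256) (l 17280544)) (c (l 17208240) (l 17161456))) (b (l 17318536) (l 17263328))) (a (b (l 17112928) (l 14)) (b (a (l 17193656) (l 17224872)) (a (l 17127544) (l 17168056))))))) (b (a (b (l 1) (a (l 17436048) (l 17475152))) (a (b (c (l 17651760) (l 17533384)) (l 17516136)) (b (c (l 17701312) (l 17579304)) (l 17568136)))) (a (a (b (l 17336000) (a (l 17221776) (l 17244752))) (b (l 17380776) (l 17275464))) (b (a (l 17446056) (l 17472760)) (a (a (l 17305960) (l 17324912)) (l 17356344)))))) (b (a (b (a (l 14) (a (l 14) (b (a (l 14) (c (l 17124080) (l 17090720))) (l 14))))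 (l 14)) (a (b (a (b (c (l 17167336) (l 17130784)) (a (l 14) (l 17101568))) (b (l 17190104) (l 17127592))) (a (l 14) (b (l 17063824) (l 14)))) (b (a (b (l 17223384) (l 17157728)) (l 17430976)) (a (b (l 17091080) (a (l 14) (l 17030728))) (a (l 17180072) (l 17155112)))))) (b (a (l 14) (a (l 14) (l 14))) (l 14)))), by decide +kernel⟩

theorem c_pm_213 : CertF 0 536870912 536870912 536870912 134217728 67108864 true true false .pnn 2 1 3
    ndF0q2 ndF0q1 pcF3 cut_pm_213 Ext.none :=
  certF1 (fam := true) (s1 := true) (s2 := false) (a := 2) (b := 1) (c := 3) (cn := .pnn) (n1 := ndF0q2) (n2 := ndF0q1) (pc := pcF3) (cut := cut_pm_213) (xt := Ext.none) (P1 := 0) (W1 := 536870912) (P2 := 536870912) (W2 := 536870912) (P3 := 134217728) (W3 := 67108864)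
    rfl (fun _ => rfl) k0_pm_213

noncomputable def cut_mm_001 : Cut := Cut.of [[⟨3, 0, 0, 1449551462⟩], [⟨4, 0, 0, 2845415833⟩]]

noncomputable def f_mm_001 : ℕ → ℕ → ℕ → ℕ → Bool := onCell 0 536870912 0 536870912 134217728 67108864
    (rowF 0 true false false .up 0 0 1 (qsf 0 536870912 0 536870912 1) ndF0q0 ndF0q0 pcF1 cut_mm_001 Ext.none)

def k0_mm_001 : ∃ t, chk3 f_mm_001 t 1 1 1 = true :=
  ⟨(l 4), by decide +kernel⟩

theorem c_mm_001 : CertF 0 536870912 0 536870912 134217728 67108864 true false false .up 0 0 1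
    ndF0q0 ndF0q0 pcF1 cut_mm_001 Ext.none :=
  certF0 (fam := true) (s1 := false) (s2 := false) (a := 0) (b := 0) (c := 1) (cn := .up) (n1 := ndF0q0) (n2 := ndF0q0) (pc := pcF1) (cut := cut_mm_001) (xt := Ext.none) (P1 := 0) (W1 := 536870912) (P2 := 0) (W2 := 536870912) (P3 := 134217728) (W3 := 67108864)
    rfl k0_mm_001

noncomputable def cut_mm_011 : Cut := Cut.of [[⟨3, 0, 0, 1449551462⟩], [⟨4, 0, 0, 2845415833⟩]]

noncomputable def f_mm_011 : ℕ → ℕ → ℕ → ℕ → Bool := onCell 0 536870912 536870912 536870912 134217728 67108864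
    (rowF 0 true false false .pnn 0 1 1 (qsf 0 536870912 536870912 536870912 1) ndF0q0 ndF0q1 pcF1 cut_mm_011 Ext.none)

def k0_mm_011 : ∃ t, chk3 f_mm_011 t 1 1 1 = true :=
  ⟨(l 14), by decide +kernel⟩

theorem c_mm_011 : CertF 0 536870912 536870912 536870912 134217728 67108864 true false false .pnn 0 1 1
    ndF0q0 ndF0q1 pcF1 cut_mm_011 Ext.none :=
  certF0 (fam := true) (s1 := false) (s2 := false) (a := 0) (b := 1) (c := 1) (cn := .pnn) (n1 := ndF0q0) (n2 := ndF0q1) (pc := pcF1) (cut := cut_mm_011) (xt := Ext.none) (P1 := 0) (W1 := 536870912) (P2 := 536870912) (W2 := 536870912) (P3 := 134217728) (W3 := 67108864)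
    rfl k0_mm_011

noncomputable def cut_mm_012 : Cut := Cut.of [[⟨3, 0, 0, 1449551462⟩], [⟨4, 0, 0, 2845415833⟩]]

noncomputable def f_mm_012 : ℕ → ℕ → ℕ → ℕ → Bool := onCell 0 536870912 536870912 536870912 134217728 67108864
    (rowF 0 true false false .pnp 0 1 2 (qsf 0 536870912 536870912 536870912 2) ndF0q0 ndF0q1 pcF2 cut_mm_012 Ext.none)

def k0_mm_012 : ∃ t, chk3 f_mm_012 t 1 1 1 = true :=
  ⟨(l 14), by decide +kernel⟩

theorem c_mm_012 : CertF 0 536870912 536870912 536870912 134217728 67108864 true false false .pnp 0 1 2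
    ndF0q0 ndF0q1 pcF2 cut_mm_012 Ext.none :=
  certF0 (fam := true) (s1 := false) (s2 := false) (a := 0) (b := 1) (c := 2) (cn := .pnp) (n1 := ndF0q0) (n2 := ndF0q1) (pc := pcF2) (cut := cut_mm_012) (xt := Ext.none) (P1 := 0) (W1 := 536870912) (P2 := 536870912) (W2 := 536870912) (P3 := 134217728) (W3 := 67108864)
    rfl k0_mm_012

noncomputable def cut_mm_022 : Cut := Cut.of [[⟨3, 0, 0, 1449551462⟩], [⟨4, 0, 0, 2845415833⟩]]

noncomputable def f_mm_022 : ℕ → ℕ → ℕ → ℕ → Bool := onCell 0 536870912 0 536870912 134217728 67108864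
    (rowF 0 true false false .pp 0 2 2 (qsf 0 536870912 0 536870912 2) ndF0q0 ndF0q2 pcF2 cut_mm_022 Ext.none)

def k0_mm_022 : ∃ t, chk3 f_mm_022 t 1 1 1 = true :=
  ⟨(l 5), by decide +kernel⟩

theorem c_mm_022 : CertF 0 536870912 0 536870912 134217728 67108864 true false false .pp 0 2 2
    ndF0q0 ndF0q2 pcF2 cut_mm_022 Ext.none :=
  certF0 (fam := true) (s1 := false) (s2 := false) (a := 0) (b := 2) (c := 2) (cn := .pp) (n1 := ndF0q0) (n2 := ndF0q2) (pc := pcF2) (cut := cut_mm_022) (xt := Ext.none) (P1 := 0) (W1 := 536870912) (P2 := 0) (W2 := 536870912) (P3 := 134217728) (W3 := 67108864)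
    rfl k0_mm_022

noncomputable def cut_mm_023 : Cut := Cut.of [[⟨3, 0, 0, 1449551462⟩], [⟨4, 0, 0, 2845415833⟩]]

noncomputable def f_mm_023 : ℕ → ℕ → ℕ → ℕ → Bool := onCell 0 536870912 0 536870912 134217728 67108864
    (rowF 0 true false false .up 0 2 3 (qsf 0 536870912 0 536870912 3) ndF0q0 ndF0q2 pcF3 cut_mm_023 Ext.none)

def k0_mm_023 : ∃ t, chk3 f_mm_023 t 1 1 1 = true :=
  ⟨(l 5), by decide +kernel⟩

theorem c_mm_023 : CertF 0 536870912 0 536870912 134217728 67108864 true false false .up 0 2 3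
    ndF0q0 ndF0q2 pcF3 cut_mm_023 Ext.none :=
  certF0 (fam := true) (s1 := false) (s2 := false) (a := 0) (b := 2) (c := 3) (cn := .up) (n1 := ndF0q0) (n2 := ndF0q2) (pc := pcF3) (cut := cut_mm_023) (xt := Ext.none) (P1 := 0) (W1 := 536870912) (P2 := 0) (W2 := 536870912) (P3 := 134217728) (W3 := 67108864)
    rfl k0_mm_023

noncomputable def cut_mm_101 : Cut := Cut.of [[⟨3, 0, 0, 1449551462⟩], [⟨4, 0, 0, 2845415833⟩], [⟨0, 1, 0, 67108864⟩, ⟨1, 0, 0, 67108864⟩, ⟨2, 1, 0, 67108864⟩]]

noncomputable def f_mm_101 : ℕ → ℕ → ℕ → ℕ → Bool := onCell 536870912 536870912 0 536870912 134217728 67108864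
    (rowF 0 true false false .npn 1 0 1 (qsf 536870912 536870912 0 536870912 1) ndF0q1 ndF0q0 pcF1 cut_mm_101 Ext.none)

def k0_mm_101 : ∃ t, chk3 f_mm_101 t 1 1 1 = true :=
  ⟨(l 14), by decide +kernel⟩

theorem c_mm_101 : CertF 536870912 536870912 0 536870912 134217728 67108864 true false false .npn 1 0 1
    ndF0q1 ndF0q0 pcF1 cut_mm_101 Ext.none :=
  certF0 (fam := true) (s1 := false) (s2 := false) (a := 1) (b := 0) (c := 1) (cn := .npn) (n1 := ndF0q1) (n2 := ndF0q0) (pc := pcF1) (cut := cut_mm_101) (xt := Ext.none) (P1 := 536870912) (W1 := 536870912) (P2 := 0) (W2 := 536870912) (P3 := 134217728) (W3 := 67108864)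
    rfl k0_mm_101

noncomputable def cut_mm_102 : Cut := Cut.of [[⟨3, 0, 0, 1449551462⟩], [⟨4, 0, 0, 2845415833⟩], [⟨0, 1, 0, 67108864⟩, ⟨1, 0, 0, 67108864⟩, ⟨2, 1, 0, 67108864⟩]]

noncomputable def f_mm_102 : ℕ → ℕ → ℕ → ℕ → Bool := onCell 536870912 536870912 0 536870912 134217728 67108864
    (rowF 0 true false false .npp 1 0 2 (qsf 536870912 536870912 0 536870912 2) ndF0q1 ndF0q0 pcF2 cut_mm_102 Ext.none)

def k0_mm_102 : ∃ t, chk3 f_mm_102 t 1 1 1 = true :=
  ⟨(l 14), by decide +kernel⟩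

theorem c_mm_102 : CertF 536870912 536870912 0 536870912 134217728 67108864 true false false .npp 1 0 2
    ndF0q1 ndF0q0 pcF2 cut_mm_102 Ext.none :=
  certF0 (fam := true) (s1 := false) (s2 := false) (a := 1) (b := 0) (c := 2) (cn := .npp) (n1 := ndF0q1) (n2 := ndF0q0) (pc := pcF2) (cut := cut_mm_102) (xt := Ext.none) (P1 := 536870912) (W1 := 536870912) (P2 := 0) (W2 := 536870912) (P3 := 134217728) (W3 := 67108864)
    rfl k0_mm_102

noncomputable def cut_mm_112 : Cut := Cut.of [[⟨3, 0, 0, 1449551462⟩], [⟨4, 0, 0, 2845415833⟩]]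

noncomputable def f_mm_112 : ℕ → ℕ → ℕ → ℕ → Bool := onCell 536870912 536870912 536870912 536870912 134217728 67108864
    (rowF 0 true false false .dn 1 1 2 (qsf 536870912 536870912 536870912 536870912 2) ndF0q1 ndF0q1 pcF2 cut_mm_112 Ext.none)

def k0_mm_112 : ∃ t, chk3 f_mm_112 t 1 1 1 = true :=
  ⟨(l 4), by decide +kernel⟩

theorem c_mm_112 : CertF 536870912 536870912 536870912 536870912 134217728 67108864 true false false .dn 1 1 2
    ndF0q1 ndF0q1 pcF2 cut_mm_112 Ext.none :=
  certF0 (fam := true) (s1 := false) (s2 := false) (a := 1) (b := 1) (c := 2) (cn := .dn) (n1 := ndF0q1) (n2 := ndF0q1) (pc := pcF2) (cut := cut_mm_112) (xt := Ext.none) (P1 := 536870912) (W1 := 536870912) (P2 := 536870912) (W2 := 536870912) (P3 := 134217728) (W3 := 67108864)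
    rfl k0_mm_112

noncomputable def cut_mm_113 : Cut := Cut.of [[⟨3, 0, 0, 1449551462⟩], [⟨4, 0, 0, 2845415833⟩]]

noncomputable def f_mm_113 : ℕ → ℕ → ℕ → ℕ → Bool := onCell 536870912 536870912 536870912 536870912 134217728 67108864
    (rowF 0 true false false .nn 1 1 3 (qsf 536870912 536870912 536870912 536870912 3) ndF0q1 ndF0q1 pcF3 cut_mm_113 Ext.none)

def k0_mm_113 : ∃ t, chk3 f_mm_113 t 1 1 1 = true :=
  ⟨(l 4), by decide +kernel⟩

theorem c_mm_113 : CertF 536870912 536870912 536870912 536870912 134217728 67108864 true false false .nn 1 1 3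
    ndF0q1 ndF0q1 pcF3 cut_mm_113 Ext.none :=
  certF0 (fam := true) (s1 := false) (s2 := false) (a := 1) (b := 1) (c := 3) (cn := .nn) (n1 := ndF0q1) (n2 := ndF0q1) (pc := pcF3) (cut := cut_mm_113) (xt := Ext.none) (P1 := 536870912) (W1 := 536870912) (P2 := 536870912) (W2 := 536870912) (P3 := 134217728) (W3 := 67108864)
    rfl k0_mm_113

noncomputable def cut_mm_123 : Cut := Cut.of [[⟨3, 0, 0, 1449551462⟩], [⟨4, 0, 0, 2845415833⟩]]

noncomputable def f_mm_123 : ℕ → ℕ → ℕ → ℕ → Bool := onCell 536870912 536870912 0 536870912 134217728 67108864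
    (rowF 0 true false false .npn 1 2 3 (qsf 536870912 536870912 0 536870912 3) ndF0q1 ndF0q2 pcF3 cut_mm_123 Ext.none)

def k0_mm_123 : ∃ t, chk3 f_mm_123 t 1 1 1 = true :=
  ⟨(a (l 5) (l 4)), by decide +kernel⟩

theorem c_mm_123 : CertF 536870912 536870912 0 536870912 134217728 67108864 true false false .npn 1 2 3
    ndF0q1 ndF0q2 pcF3 cut_mm_123 Ext.none :=
  certF0 (fam := true) (s1 := false) (s2 := false) (a := 1) (b := 2) (c := 3) (cn := .npn) (n1 := ndF0q1) (n2 := ndF0q2) (pc := pcF3) (cut := cut_mm_123) (xt := Ext.none) (P1 := 536870912) (W1 := 536870912) (P2 := 0) (W2 := 536870912) (P3 := 134217728) (W3 := 67108864)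
    rfl k0_mm_123

noncomputable def cut_mm_202 : Cut := Cut.of [[⟨3, 0, 0, 1449551462⟩], [⟨4, 0, 0, 2845415833⟩], [⟨0, 1, 0, 67108864⟩, ⟨1, 0, 0, 67108864⟩, ⟨2, 1, 0, 67108864⟩]]

noncomputable def f_mm_202 : ℕ → ℕ → ℕ → ℕ → Bool := onCell 0 536870912 0 536870912 134217728 67108864
    (rowF 0 true false false .pp 2 0 2 (qsf 0 536870912 0 536870912 2) ndF0q2 ndF0q0 pcF2 cut_mm_202 Ext.none)

def k0_mm_202 : ∃ t, chk3 f_mm_202 t 4 2 1 = true :=
  ⟨(b (b (b (a (b (a (c (l 17095072) (l 16620864)) (c (a (l 17085480) (l 17070072)) (l 16630152))) (c (a (l 17275824) (l 17259704)) (l 16677464))) (b (c (a (l 17033720) (l 16862488)) (l 16632128)) (c (a (l 17223952) (l 17172624)) (l 16623392)))) (a (c (a (l 17432440) (l 17415368)) (a (l 16969448) (l 16955944))) (c (b (l 17322072) (l 17397976)) (b (l 16823288) (l 16975280))))) (c (b (a (l 17511208) (l 17453184)) (a (l 17525224) (l 17462072))) (b (a (l 17167040) (l 17118416)) (a (l 17262024) (l 17211816))))) (b (a (b (l 17399208)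 (l 17376992)) (b (l 17336264) (l 17307360))) (a (l 17315024) (b (l 17262720) (l 17209248))))), by decide +kernel⟩

def k1_mm_202 : ∃ t, chk3 f_mm_202 t 5 2 1 = true :=
  ⟨(b (b (b (a (b (a (c (b (l 16800152) (l 16942976)) (l 16641352)) (c (b (l 16666232) (l 16829872)) (l 16651248))) (c (a (l 17103104) (l 16844272)) (a (l 16635720) (l 16647600)))) (b (c (a (b (l 16665712) (l 16681664)) (b (c (l 16676840) (l 16676000)) (l 16676616))) (a (l 16662416) (b (l 16674064) (l 16674112)))) (a (c (b (l 16832608) (l 16950448)) (l 16660648)) (c (b (l 16676680) (l 16812888)) (l 16674024))))) (a (b (c (a (l 17244048) (l 17171120)) (a (l 16741464) (l 16663800))) (c (l 17296784) (l 16855136))) (c (b (a (l 17017120) (b (l 16922664) (l 17007328))) (a (l 17189744) (l 17098328))) (b (a (l 16658704) (l 16673824)) (a (l 16769376) (l 16677480)))))) (a (b (c (b (l 17346616) (l 17369432)) (b (l 16993056) (l 17070112))) (c (l 17370728) (l 17135216))) (b (a (c (l 17268368) (l 16825920)) (b (c (l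 17171264) (l 16828872)) (c (l 17206704) (l 16925864)))) (c (a (l 17284128) (l 17215968)) (a (l 17062176) (l 17005192)))))) (b (a (b (c (l 17336160) (l 17163112)) (c (l 17280088) (l 17152368))) (b (c (l 17215424) (a (l 17091608) (l 17037448))) (a (l 17134952) (l 14)))) (a (b (l 17167152) (l 17109968)) (l 14)))), by decide +kernel⟩

def k2_mm_202 : ∃ t, chk3 f_mm_202 t 2 3 1 = true :=
  ⟨(a (b (b (a (l 17206688) (b (l 17151184) (l 17091152))) (a (b (l 17118560) (l 17059800)) (l 14))) (l 2)) (l 14)), by decide +kernel⟩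

def k3_mm_202 : ∃ t, chk3 f_mm_202 t 3 1 1 = true :=
  ⟨(b (b (a (b (a (b (b (a (c (b (c (l 16687520) (l 16686808)) (c (l 16688496) (l 16687704))) (b (l 16685088) (l 16685920))) (c (b (c (a (l 16695392) (l 16700560)) (a (l 16694704) (l 16699856))) (c (l 16699688) (l 16698928))) (b (a (l 16693048) (l 16698200)) (l 16697232)))) (a (c (b (c (l 16689368) (l 16688520)) (l 16689736)) (b (l 16686680) (l 16687384))) (c (b (c (l 16701232) (l 16700424)) (c (l 16702696) (l 16701840))) (b (l 16698680) (l 16700080))))) (b (a (c (b (l 16775224) (l 16878984)) (l 16688344)) (c (a (l 16709832) (b (l 16706816) (l 14))) (a (l 16698688) (l 16705288)))) (a (c (a (l 17019512) (l 16961048)) (l 16689672)) (c (a (l 16898072) (l 14)) (l 16725688))))) (a (a (b (b (c (b (c (l 16705696) (l 16704952)) (c (l 16707784) (l 16706984))) (b (l 16703272) (l 16705272))) (l 14)) (l 14)) (l 14)) (l 14))) (a (b (a (b (c (l 17079592) (l 16743600)) (c (l 17124328) (l 16854032))) (l 14)) (l 14)) (l 14))) (l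 14)) (l 14)) (l 14)), by decide +kernel⟩

theorem s4_mm_202 : ∃ t, chk3 f_mm_202 t 2 2 1 = true := ex3_a k0_mm_202 k1_mm_202

theorem s5_mm_202 : ∃ t, chk3 f_mm_202 t 2 1 1 = true := ex3_b s4_mm_202 k2_mm_202

theorem s6_mm_202 : ∃ t, chk3 f_mm_202 t 1 1 1 = true := ex3_a s5_mm_202 k3_mm_202

theorem c_mm_202 : CertF 0 536870912 0 536870912 134217728 67108864 true false false .pp 2 0 2
    ndF0q2 ndF0q0 pcF2 cut_mm_202 Ext.none :=
  certF0 (fam := true) (s1 := false) (s2 := false) (a := 2) (b := 0) (c := 2) (cn := .pp) (n1 := ndF0q2) (n2 := ndF0q0) (pc := pcF2) (cut := cut_mm_202) (xt := Ext.none) (P1 := 0) (W1 := 536870912) (P2 := 0) (W2 := 536870912) (P3 := 134217728) (W3 := 67108864)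
    rfl s6_mm_202

noncomputable def cut_mm_203 : Cut := Cut.of [[⟨3, 0, 0, 1449551462⟩], [⟨4, 0, 0, 2845415833⟩]]

noncomputable def f_mm_203 : ℕ → ℕ → ℕ → ℕ → Bool := onCell 0 536870912 1610612736 536870912 134217728 67108864
    (rowF 1 true false false .up 2 0 3 (qsf 0 536870912 0 536870912 3) ndF0q2 ndF0q0 pcF3 cut_mm_203 Ext.none)

def k0_mm_203 : ∃ t, chk3 f_mm_203 t 1 1 1 = true :=
  ⟨(a (b (b (b (a (a (b (a (l 17235984) (l 14)) (l 14)) (l 14)) (l 14)) (l 14)) (l 14)) (l 2)) (l 14)), by decide +kernel⟩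

theorem c_mm_203 : CertF 0 536870912 0 536870912 134217728 67108864 true false false .up 2 0 3
    ndF0q2 ndF0q0 pcF3 cut_mm_203 Ext.none :=
  certF1 (fam := true) (s1 := false) (s2 := false) (a := 2) (b := 0) (c := 3) (cn := .up) (n1 := ndF0q2) (n2 := ndF0q0) (pc := pcF3) (cut := cut_mm_203) (xt := Ext.none) (P1 := 0) (W1 := 536870912) (P2 := 0) (W2 := 536870912) (P3 := 134217728) (W3 := 67108864)
    rfl (fun _ => rfl) k0_mm_203

noncomputable def cut_mm_213 : Cut := Cut.of [[⟨3, 0, 0, 1449551462⟩], [⟨4, 0, 0, 2845415833⟩]]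

noncomputable def f_mm_213 : ℕ → ℕ → ℕ → ℕ → Bool := onCell 0 536870912 536870912 536870912 134217728 67108864
    (rowF 0 true false false .pnn 2 1 3 (qsf 0 536870912 536870912 536870912 3) ndF0q2 ndF0q1 pcF3 cut_mm_213 Ext.none)

def k0_mm_213 : ∃ t, chk3 f_mm_213 t 1 1 1 = true :=
  ⟨(a (l 14) (l 4)), by decide +kernel⟩

theorem c_mm_213 : CertF 0 536870912 536870912 536870912 134217728 67108864 true false false .pnn 2 1 3
    ndF0q2 ndF0q1 pcF3 cut_mm_213 Ext.none :=
  certF0 (fam := true) (s1 := false) (s2 := false) (a := 2) (b := 1) (c := 3) (cn := .pnn) (n1 := ndF0q2) (n2 := ndF0q1) (pc := pcF3) (cut := cut_mm_213) (xt := Ext.none) (P1 := 0) (W1 := 536870912) (P2 := 536870912) (W2 := 536870912) (P3 := 134217728) (W3 := 67108864)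
    rfl k0_mm_213

end Pool.Agent.Strip051.G.I1_8_3_16.Tab.C.FA00

namespace Pool.Agent.Strip051.G.I1_8_3_16.Tab.C.FA01

open Pool.Agent.Strip051.PB Pool.Agent.Strip051.PB.T
open Pool.Agent.Strip051.G.I1_8_3_16.Tab

noncomputable def f_pp_001 : ℕ → ℕ → ℕ → ℕ → Bool := onCell 0 536870912 0 536870912 134217728 67108864
    (rowF 0 true true true .up 0 0 1 (qsf 0 536870912 0 536870912 1) ndF0q0 ndF1q0 pcF1 Cut.none Ext.none)

def k0_pp_001 : ∃ t, chk3 f_pp_001 t 1 1 1 = true :=
  ⟨(l 4), by decide +kernel⟩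

theorem c_pp_001 : CertF 0 536870912 0 536870912 134217728 67108864 true true true .up 0 0 1
    ndF0q0 ndF1q0 pcF1 Cut.none Ext.none :=
  certF0 (fam := true) (s1 := true) (s2 := true) (a := 0) (b := 0) (c := 1) (cn := .up) (n1 := ndF0q0) (n2 := ndF1q0) (pc := pcF1) (cut := Cut.none) (xt := Ext.none) (P1 := 0) (W1 := 536870912) (P2 := 0) (W2 := 536870912) (P3 := 134217728) (W3 := 67108864)
    rfl k0_pp_001

noncomputable def f_pp_011 : ℕ → ℕ → ℕ → ℕ → Bool := onCell 0 536870912 536870912 536870912 134217728 67108864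
    (rowF 0 true true true .pnn 0 1 1 (qsf 0 536870912 536870912 536870912 1) ndF0q0 ndF1q1 pcF1 Cut.none Ext.none)

def k0_pp_011 : ∃ t, chk3 f_pp_011 t 1 1 1 = true :=
  ⟨(l 4), by decide +kernel⟩

theorem c_pp_011 : CertF 0 536870912 536870912 536870912 134217728 67108864 true true true .pnn 0 1 1
    ndF0q0 ndF1q1 pcF1 Cut.none Ext.none :=
  certF0 (fam := true) (s1 := true) (s2 := true) (a := 0) (b := 1) (c := 1) (cn := .pnn) (n1 := ndF0q0) (n2 := ndF1q1) (pc := pcF1) (cut := Cut.none) (xt := Ext.none) (P1 := 0) (W1 := 536870912) (P2 := 536870912) (W2 := 536870912) (P3 := 134217728) (W3 := 67108864)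
    rfl k0_pp_011

noncomputable def f_pp_012 : ℕ → ℕ → ℕ → ℕ → Bool := onCell 0 536870912 536870912 536870912 134217728 67108864
    (rowF 0 true true true .pnp 0 1 2 (qsf 0 536870912 536870912 536870912 2) ndF0q0 ndF1q1 pcF2 Cut.none Ext.none)

def k0_pp_012 : ∃ t, chk3 f_pp_012 t 1 1 1 = true :=
  ⟨(l 4), by decide +kernel⟩

theorem c_pp_012 : CertF 0 536870912 536870912 536870912 134217728 67108864 true true true .pnp 0 1 2
    ndF0q0 ndF1q1 pcF2 Cut.none Ext.none :=
  certF0 (fam := true) (s1 := true) (s2 := true) (a := 0) (b := 1) (c := 2) (cn := .pnp) (n1 := ndF0q0) (n2 := ndF1q1) (pc := pcF2) (cut := Cut.none) (xt := Ext.none) (P1 := 0) (W1 := 536870912) (P2 := 536870912) (W2 := 536870912) (P3 := 134217728) (W3 := 67108864)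
    rfl k0_pp_012

noncomputable def cut_pp_022_a : Cut := Cut.of [[⟨0, 0, 0, 67108864⟩, ⟨1, 1, 0, 67108864⟩, ⟨2, 1, 0, 67108864⟩]]

noncomputable def f_pp_022_a : ℕ → ℕ → ℕ → ℕ → Bool := onCell 0 536870912 0 536870912 134217728 67108864
    (rowF 0 true true true .pp 0 2 2 (qsf 0 536870912 0 536870912 2) ndF0q0 ndF1q2a pcF2 cut_pp_022_a Ext.none)

def k0_pp_022_a : ∃ t, chk3 f_pp_022_a t 4 2 1 = true :=
  ⟨(a (a (b (a (b (c (l 17057104) (l 16587320)) (c (l 16778976) (l 16588392))) (c (b (l 17236632) (l 17169280)) (l 16616248))) (b (a (c (a (l 16687776) (l 16851128)) (l 16596096)) (c (b (l 17074832) (l 16982672)) (l 16601960))) (a (c (b (l 16612392) (l 16620640)) (b (l 16605864) (l 16614632))) (c (b (l 16864160) (l 16713624)) (l 16638104))))) (b (b (c (l 17372528) (l 16941536)) (c (l 17153760) (a (l 16807496) (l 16954080)))) (b (a (c (l 17175248) (l 16685416)) (c (l 17254776) (l 16858760))) (a (c (b (l 17051312) (l 16941184)) (l 16624208)) (c (b (l 17154808) (l 17068408))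 (l 16709264)))))) (b (a (c (l 17394304) (b (l 17117608) (l 17078264))) (c (l 17365104) (l 17155040))) (a (b (c (l 17297128) (a (l 16967952) (l 17033472))) (a (c (l 17168576) (l 16848848)) (c (l 17188856) (l 16933152)))) (b (c (l 17275304) (l 17078080)) (c (b (l 17205616) (l 17148992)) (b (l 17017880) (l 16970032))))))), by decide +kernel⟩

def k1_pp_022_a : ∃ t, chk3 f_pp_022_a t 4 6 1 = true :=
  ⟨(a (a (b (a (c (b (a (l 16628592) (l 16632568)) (a (l 16640192) (l 16644256))) (b (l 16625128) (a (l 16635608) (l 16639432)))) (c (b (l 16638456) (a (l 16648288) (l 16652320))) (b (l 16632520) (l 16666040)))) (a (b (c (a (b (l 16650152) (l 16657480)) (b (l 16654248) (l 16661584))) (a (l 16649936) (l 16653856))) (a (c (b (l 16665368) (c (l 16674544) (l 16673128))) (b (l 16662080) (l 16670936))) (c (b (l 16669456) (l 16677912)) (b (l 16666048) (l 16674912))))) (b (c (a (l 16661952) (l 16665992)) (a (l 16657760) (l 16661640))) (c (a (b (l 16673512) (l 16681936)) (b (l 16677544)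 (l 16685936))) (a (b (l 16669984) (l 16678864)) (l 16699280)))))) (b (a (c (b (l 16743760) (l 16668808)) (b (l 16640024) (l 16652736))) (b (c (l 16965784) (l 16647856)) (c (a (l 16806656) (l 16880296)) (l 16660664)))) (a (b (c (a (l 16670032) (l 16674088)) (a (l 16665528) (l 16669440))) (c (a (b (l 16681552) (l 16689904)) (b (l 16685552) (l 16693856))) (a (l 16703192) (l 16696600)))) (b (c (b (l 16747328) (l 16683832)) (l 16696272)) (b (c (l 16713912) (l 16709872)) (c (a (l 16699408) (l 16709552)) (l 16727456))))))) (a (b (a (b (c (l 17048920) (l 16735016)) (c (l 16953656) (l 16669032))) (b (c (l 17084456) (l 16840352)) (c (l 17003368) (l 16772264)))) (a (b (c (b (l 16877184) (l 16824880)) (a (l 16704152) (l 16712864))) (b (l 4) (l 4))) (l 4))) (b (b (c (l 17085048) (a (l 16900144) (l 4))) (l 4)) (l 4)))), by decide +kernel⟩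

def k2_pp_022_a : ∃ t, chk3 f_pp_022_a t 4 7 1 = true :=
  ⟨(a (b (a (b (b (a (a (c (a (l 16681944) (l 16683976)) (l 16690888)) (c (c (l 16687608) (l 16686328)) (l 16684384))) (c (a (l 16701440) (l 16705384)) (a (l 16688328) (l 16692248)))) (a (a (c (a (c (l 16692288) (l 16691240)) (l 16704264)) (a (l 16689616) (l 16691616))) (c (c (l 16707752) (l 16696200)) (a (l 16693600) (l 16695576)))) (a (c (c (l 16701200) (l 16700120)) (l 16708984)) (c (b (l 16702040) (l 16707104)) (l 16712880))))) (a (a (a (l 6) (a (l 6) (b (c (l 16704992) (l 16703264)) (l 6)))) (b (c (a (c (l 16706864) (l 16706024)) (c (l 16708808) (l 16707976))) (a (l 16704736) (l 16706704))) (a (l 6) (a (l 6) (c (l 16730784) (l 16719088)))))) (b (a (c (a (l 16720808) (l 16722728)) (a (l 16708656) (l 16710600))) (c (a (l 16724632) (l 16726896)) (b (l 16710632) (l 16727160)))) (a (c (a (c (l 16732488) (l 16731904)) (c (l 16734408) (l 16733840))) (a (l 16731016) (l 16732992))) (b (c (c (l 16735864) (l 16735216))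 (l 16734248)) (a (c (l 16740640) (l 16729096)) (l 4))))))) (b (a (a (b (c (l 16698816) (l 16696144)) (c (c (l 16720096) (l 16718984)) (l 16717368))) (b (c (l 16724800) (l 16722048)) (c (l 19025281831) (l 16736176)))) (a (a (c (l 22783397127) (l 20099037143)) (l 4)) (l 4))) (a (a (b (a (c (l 16735896) (l 16739448)) (l 4)) (l 4)) (l 4)) (l 4)))) (a (a (l 6) (a (b (l 6) (l 4)) (l 4))) (l 4))) (l 4)), by decide +kernel⟩

def k3_pp_022_a : ∃ t, chk3 f_pp_022_a t 5 1 1 = true :=
  ⟨(b (a (b (a (c (l 17300272) (l 17151440)) (b (l 17190816) (l 17147800))) (a (a (b (l 17155976) (l 38353066887)) (b (l 17131632) (l 44795518359))) (b (l 36205711479) (l 4)))) (b (a (b (l 17123472) (l 17078928)) (b (l 17052768) (l 17008296))) (l 4))) (l 4)), by decide +kernel⟩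

def k4_pp_022_a : ∃ t, chk3 f_pp_022_a t 3 1 1 = true :=
  ⟨(a (b (a (b (a (b (l 16983552) (l 4)) (l 4)) (l 4)) (l 4)) (l 4)) (l 4)), by decide +kernel⟩

theorem s5_pp_022_a : ∃ t, chk3 f_pp_022_a t 4 3 1 = true := ex3_b k1_pp_022_a k2_pp_022_a

theorem s6_pp_022_a : ∃ t, chk3 f_pp_022_a t 4 1 1 = true := ex3_b k0_pp_022_a s5_pp_022_a

theorem s7_pp_022_a : ∃ t, chk3 f_pp_022_a t 2 1 1 = true := ex3_a s6_pp_022_a k3_pp_022_a

theorem s8_pp_022_a : ∃ t, chk3 f_pp_022_a t 1 1 1 = true := ex3_a s7_pp_022_a k4_pp_022_a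

theorem c_pp_022_a : CertF 0 536870912 0 536870912 134217728 67108864 true true true .pp 0 2 2
    ndF0q0 ndF1q2a pcF2 cut_pp_022_a Ext.none :=
  certF0 (fam := true) (s1 := true) (s2 := true) (a := 0) (b := 2) (c := 2) (cn := .pp) (n1 := ndF0q0) (n2 := ndF1q2a) (pc := pcF2) (cut := cut_pp_022_a) (xt := Ext.none) (P1 := 0) (W1 := 536870912) (P2 := 0) (W2 := 536870912) (P3 := 134217728) (W3 := 67108864)
    rfl s8_pp_022_a

noncomputable def cut_pp_022_b : Cut := Cut.of [[⟨0, 0, 0, 67108864⟩, ⟨1, 1, 0, 67108864⟩, ⟨2, 1, 0, 67108864⟩]]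

noncomputable def f_pp_022_b : ℕ → ℕ → ℕ → ℕ → Bool := onCell 0 536870912 1239849684 370763052 134217728 67108864
    (rowF 0 true true true .pp 0 2 2 (qsf 0 536870912 1239849684 370763052 2) ndF0q0 ndF1q2b pcF2 cut_pp_022_b Ext.none)

def k0_pp_022_b : ∃ t, chk3 f_pp_022_b t 1 1 1 = true :=
  ⟨(a (b (a (b (b (a (a (b (a (c (b (l 17167704) (l 17336400)) (l 16589152)) (c (l 17387456) (l 16838992))) (c (a (l 17551560) (l 17620264)) (a (l 16955744) (l 17119384)))) (b (c (l 17482584) (a (l 17004608) (l 17112584))) (c (l 17655488) (l 17263712)))) (c (a (l 17568216) (l 17513240)) (a (b (l 17202992) (l 17342496)) (l 17297032)))) (a (a (c (b (l 17798992) (l 17965144)) (b (l 17301640) (l 17509024))) (c (l 17863328) (l 17507400))) (a (l 17656608) (l 17594616)))) (a (b (a (c (l 18154832) (l 17750656)) (l 17908120)) (a (l 18153920) (l 18061952))) (b (a (l 17831512) (l 17740112)) (l 17901000)))) (b (a (b (a (b (l 17309432) (l 17398760)) (l 17288696)) (a (l 17516520) (l 17431928)))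 (b (a (l 17215232) (b (l 17106112) (l 17173192))) (a (l 17346560) (l 4)))) (a (b (a (l 17642912) (l 17545696)) (l 17682248)) (l 4)))) (a (a (b (b (l 18348968) (l 18287136)) (b (l 18312072) (l 4))) (b (b (l 17975696) (l 4)) (l 4))) (l 4))) (b (a (b (a (b (a (b (l 17035128) (l 4)) (l 4)) (l 4)) (l 4)) (l 4)) (l 2)) (l 2))), by decide +kernel⟩

theorem c_pp_022_b : CertF 0 536870912 1239849684 370763052 134217728 67108864 true true true .pp 0 2 2
    ndF0q0 ndF1q2b pcF2 cut_pp_022_b Ext.none :=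
  certF0 (fam := true) (s1 := true) (s2 := true) (a := 0) (b := 2) (c := 2) (cn := .pp) (n1 := ndF0q0) (n2 := ndF1q2b) (pc := pcF2) (cut := cut_pp_022_b) (xt := Ext.none) (P1 := 0) (W1 := 536870912) (P2 := 1239849684) (W2 := 370763052) (P3 := 134217728) (W3 := 67108864)
    rfl k0_pp_022_b

noncomputable def f_pp_023_a : ℕ → ℕ → ℕ → ℕ → Bool := onCell 1610612736 536870912 0 536870912 134217728 67108864
    (rowF 2 true true true .up 0 2 3 (qsf 0 536870912 0 536870912 3) ndF0q0 ndF1q2a pcF3 Cut.none Ext.none)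

def k0_pp_023_a : ∃ t, chk3 f_pp_023_a t 1 1 1 = true :=
  ⟨(a (l 4) (l 2)), by decide +kernel⟩

theorem c_pp_023_a : CertF 0 536870912 0 536870912 134217728 67108864 true true true .up 0 2 3
    ndF0q0 ndF1q2a pcF3 Cut.none Ext.none :=
  certF2 (fam := true) (s1 := true) (s2 := true) (a := 0) (b := 2) (c := 3) (cn := .up) (n1 := ndF0q0) (n2 := ndF1q2a) (pc := pcF3) (cut := Cut.none) (xt := Ext.none) (P1 := 0) (W1 := 536870912) (P2 := 0) (W2 := 536870912) (P3 := 134217728) (W3 := 67108864)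
    rfl (fun _ => rfl) k0_pp_023_a

noncomputable def f_pp_023_b : ℕ → ℕ → ℕ → ℕ → Bool := onCell 1610612736 536870912 1239849684 370763052 134217728 67108864
    (rowF 2 true true true .up 0 2 3 (qsf 0 536870912 1239849684 370763052 3) ndF0q0 ndF1q2b pcF3 Cut.none Ext.none)

def k0_pp_023_b : ∃ t, chk3 f_pp_023_b t 1 1 1 = true :=
  ⟨(a (l 4) (l 4)), by decide +kernel⟩

theorem c_pp_023_b : CertF 0 536870912 1239849684 370763052 134217728 67108864 true true true .up 0 2 3
    ndF0q0 ndF1q2b pcF3 Cut.none Ext.none :=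
  certF2 (fam := true) (s1 := true) (s2 := true) (a := 0) (b := 2) (c := 3) (cn := .up) (n1 := ndF0q0) (n2 := ndF1q2b) (pc := pcF3) (cut := Cut.none) (xt := Ext.none) (P1 := 0) (W1 := 536870912) (P2 := 1239849684) (W2 := 370763052) (P3 := 134217728) (W3 := 67108864)
    rfl (fun _ => rfl) k0_pp_023_b

noncomputable def f_pp_033 : ℕ → ℕ → ℕ → ℕ → Bool := onCell 0 536870912 1610612736 536870912 134217728 67108864
    (rowF 0 true true true .pnn 0 3 3 (qsf 0 536870912 1610612736 536870912 3) ndF0q0 ndF1q3 pcF3 Cut.none Ext.none)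

def k0_pp_033 : ∃ t, chk3 f_pp_033 t 1 1 1 = true :=
  ⟨(a (b (l 4) (l 4)) (l 4)), by decide +kernel⟩

theorem c_pp_033 : CertF 0 536870912 1610612736 536870912 134217728 67108864 true true true .pnn 0 3 3
    ndF0q0 ndF1q3 pcF3 Cut.none Ext.none :=
  certF0 (fam := true) (s1 := true) (s2 := true) (a := 0) (b := 3) (c := 3) (cn := .pnn) (n1 := ndF0q0) (n2 := ndF1q3) (pc := pcF3) (cut := Cut.none) (xt := Ext.none) (P1 := 0) (W1 := 536870912) (P2 := 1610612736) (W2 := 536870912) (P3 := 134217728) (W3 := 67108864)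
    rfl k0_pp_033

noncomputable def f_pp_101 : ℕ → ℕ → ℕ → ℕ → Bool := onCell 536870912 536870912 0 536870912 134217728 67108864
    (rowF 0 true true true .npn 1 0 1 (qsf 536870912 536870912 0 536870912 1) ndF0q1 ndF1q0 pcF1 Cut.none Ext.none)

def k0_pp_101 : ∃ t, chk3 f_pp_101 t 1 1 1 = true :=
  ⟨(l 5), by decide +kernel⟩

theorem c_pp_101 : CertF 536870912 536870912 0 536870912 134217728 67108864 true true true .npn 1 0 1
    ndF0q1 ndF1q0 pcF1 Cut.none Ext.none :=
  certF0 (fam := true) (s1 := true) (s2 := true) (a := 1) (b := 0) (c := 1) (cn := .npn) (n1 := ndF0q1) (n2 := ndF1q0) (pc := pcF1) (cut := Cut.none) (xt := Ext.none) (P1 := 536870912) (W1 := 536870912) (P2 := 0) (W2 := 536870912) (P3 := 134217728) (W3 := 67108864)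
    rfl k0_pp_101

noncomputable def f_pp_102 : ℕ → ℕ → ℕ → ℕ → Bool := onCell 536870912 536870912 0 536870912 134217728 67108864
    (rowF 0 true true true .npp 1 0 2 (qsf 536870912 536870912 0 536870912 2) ndF0q1 ndF1q0 pcF2 Cut.none Ext.none)

def k0_pp_102 : ∃ t, chk3 f_pp_102 t 1 1 1 = true :=
  ⟨(l 5), by decide +kernel⟩

theorem c_pp_102 : CertF 536870912 536870912 0 536870912 134217728 67108864 true true true .npp 1 0 2
    ndF0q1 ndF1q0 pcF2 Cut.none Ext.none :=
  certF0 (fam := true) (s1 := true) (s2 := true) (a := 1) (b := 0) (c := 2) (cn := .npp) (n1 := ndF0q1) (n2 := ndF1q0) (pc := pcF2) (cut := Cut.none) (xt := Ext.none) (P1 := 536870912) (W1 := 536870912) (P2 := 0) (W2 := 536870912) (P3 := 134217728) (W3 := 67108864)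
    rfl k0_pp_102

noncomputable def f_pp_112 : ℕ → ℕ → ℕ → ℕ → Bool := onCell 536870912 536870912 536870912 536870912 134217728 67108864
    (rowF 0 true true true .dn 1 1 2 (qsf 536870912 536870912 536870912 536870912 2) ndF0q1 ndF1q1 pcF2 Cut.none Ext.none)

def k0_pp_112 : ∃ t, chk3 f_pp_112 t 1 1 1 = true :=
  ⟨(l 4), by decide +kernel⟩

theorem c_pp_112 : CertF 536870912 536870912 536870912 536870912 134217728 67108864 true true true .dn 1 1 2
    ndF0q1 ndF1q1 pcF2 Cut.none Ext.none :=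
  certF0 (fam := true) (s1 := true) (s2 := true) (a := 1) (b := 1) (c := 2) (cn := .dn) (n1 := ndF0q1) (n2 := ndF1q1) (pc := pcF2) (cut := Cut.none) (xt := Ext.none) (P1 := 536870912) (W1 := 536870912) (P2 := 536870912) (W2 := 536870912) (P3 := 134217728) (W3 := 67108864)
    rfl k0_pp_112

noncomputable def f_pp_113 : ℕ → ℕ → ℕ → ℕ → Bool := onCell 536870912 536870912 536870912 536870912 134217728 67108864
    (rowF 0 true true true .nn 1 1 3 (qsf 536870912 536870912 536870912 536870912 3) ndF0q1 ndF1q1 pcF3 Cut.none Ext.none)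

def k0_pp_113 : ∃ t, chk3 f_pp_113 t 1 1 1 = true :=
  ⟨(l 4), by decide +kernel⟩

theorem c_pp_113 : CertF 536870912 536870912 536870912 536870912 134217728 67108864 true true true .nn 1 1 3
    ndF0q1 ndF1q1 pcF3 Cut.none Ext.none :=
  certF0 (fam := true) (s1 := true) (s2 := true) (a := 1) (b := 1) (c := 3) (cn := .nn) (n1 := ndF0q1) (n2 := ndF1q1) (pc := pcF3) (cut := Cut.none) (xt := Ext.none) (P1 := 536870912) (W1 := 536870912) (P2 := 536870912) (W2 := 536870912) (P3 := 134217728) (W3 := 67108864)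
    rfl k0_pp_113

noncomputable def f_pp_123_a : ℕ → ℕ → ℕ → ℕ → Bool := onCell 536870912 536870912 0 536870912 134217728 67108864
    (rowF 0 true true true .npn 1 2 3 (qsf 536870912 536870912 0 536870912 3) ndF0q1 ndF1q2a pcF3 Cut.none Ext.none)

def k0_pp_123_a : ∃ t, chk3 f_pp_123_a t 1 1 1 = true :=
  ⟨(l 4), by decide +kernel⟩

theorem c_pp_123_a : CertF 536870912 536870912 0 536870912 134217728 67108864 true true true .npn 1 2 3
    ndF0q1 ndF1q2a pcF3 Cut.none Ext.none :=
  certF0 (fam := true) (s1 := true) (s2 := true) (a := 1) (b := 2) (c := 3) (cn := .npn) (n1 := ndF0q1) (n2 := ndF1q2a) (pc := pcF3) (cut := Cut.none) (xt := Ext.none) (P1 := 536870912) (W1 := 536870912) (P2 := 0) (W2 := 536870912) (P3 := 134217728) (W3 := 67108864)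
    rfl k0_pp_123_a

noncomputable def f_pp_123_b : ℕ → ℕ → ℕ → ℕ → Bool := onCell 536870912 536870912 1239849684 370763052 134217728 67108864
    (rowF 0 true true true .npn 1 2 3 (qsf 536870912 536870912 1239849684 370763052 3) ndF0q1 ndF1q2b pcF3 Cut.none Ext.none)

def k0_pp_123_b : ∃ t, chk3 f_pp_123_b t 1 1 1 = true :=
  ⟨(l 4), by decide +kernel⟩

theorem c_pp_123_b : CertF 536870912 536870912 1239849684 370763052 134217728 67108864 true true true .npn 1 2 3
    ndF0q1 ndF1q2b pcF3 Cut.none Ext.none :=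
  certF0 (fam := true) (s1 := true) (s2 := true) (a := 1) (b := 2) (c := 3) (cn := .npn) (n1 := ndF0q1) (n2 := ndF1q2b) (pc := pcF3) (cut := Cut.none) (xt := Ext.none) (P1 := 536870912) (W1 := 536870912) (P2 := 1239849684) (W2 := 370763052) (P3 := 134217728) (W3 := 67108864)
    rfl k0_pp_123_b

noncomputable def f_pp_133 : ℕ → ℕ → ℕ → ℕ → Bool := onCell 536870912 536870912 1610612736 536870912 134217728 67108864
    (rowF 0 true true true .dn 1 3 3 (qsf 536870912 536870912 1610612736 536870912 3) ndF0q1 ndF1q3 pcF3 Cut.none Ext.none)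

def k0_pp_133 : ∃ t, chk3 f_pp_133 t 1 1 1 = true :=
  ⟨(l 4), by decide +kernel⟩

theorem c_pp_133 : CertF 536870912 536870912 1610612736 536870912 134217728 67108864 true true true .dn 1 3 3
    ndF0q1 ndF1q3 pcF3 Cut.none Ext.none :=
  certF0 (fam := true) (s1 := true) (s2 := true) (a := 1) (b := 3) (c := 3) (cn := .dn) (n1 := ndF0q1) (n2 := ndF1q3) (pc := pcF3) (cut := Cut.none) (xt := Ext.none) (P1 := 536870912) (W1 := 536870912) (P2 := 1610612736) (W2 := 536870912) (P3 := 134217728) (W3 := 67108864)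
    rfl k0_pp_133

noncomputable def f_pp_202 : ℕ → ℕ → ℕ → ℕ → Bool := onCell 0 536870912 0 536870912 134217728 67108864
    (rowF 0 true true true .pp 2 0 2 (qsf 0 536870912 0 536870912 2) ndF0q2 ndF1q0 pcF2 Cut.none Ext.none)

def k0_pp_202 : ∃ t, chk3 f_pp_202 t 1 1 1 = true :=
  ⟨(l 5), by decide +kernel⟩

theorem c_pp_202 : CertF 0 536870912 0 536870912 134217728 67108864 true true true .pp 2 0 2
    ndF0q2 ndF1q0 pcF2 Cut.none Ext.none :=
  certF0 (fam := true) (s1 := true) (s2 := true) (a := 2) (b := 0) (c := 2) (cn := .pp) (n1 := ndF0q2) (n2 := ndF1q0) (pc := pcF2) (cut := Cut.none) (xt := Ext.none) (P1 := 0) (W1 := 536870912) (P2 := 0) (W2 := 536870912) (P3 := 134217728) (W3 := 67108864)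
    rfl k0_pp_202

noncomputable def f_pp_203 : ℕ → ℕ → ℕ → ℕ → Bool := onCell 0 536870912 0 536870912 134217728 67108864
    (rowF 0 true true true .up 2 0 3 (qsf 0 536870912 0 536870912 3) ndF0q2 ndF1q0 pcF3 Cut.none Ext.none)

def k0_pp_203 : ∃ t, chk3 f_pp_203 t 1 1 1 = true :=
  ⟨(l 5), by decide +kernel⟩

theorem c_pp_203 : CertF 0 536870912 0 536870912 134217728 67108864 true true true .up 2 0 3
    ndF0q2 ndF1q0 pcF3 Cut.none Ext.none :=
  certF0 (fam := true) (s1 := true) (s2 := true) (a := 2) (b := 0) (c := 3) (cn := .up) (n1 := ndF0q2) (n2 := ndF1q0) (pc := pcF3) (cut := Cut.none) (xt := Ext.none) (P1 := 0) (W1 := 536870912) (P2 := 0) (W2 := 536870912) (P3 := 134217728) (W3 := 67108864)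
    rfl k0_pp_203

noncomputable def f_pp_213 : ℕ → ℕ → ℕ → ℕ → Bool := onCell 0 536870912 536870912 536870912 134217728 67108864
    (rowF 0 true true true .pnn 2 1 3 (qsf 0 536870912 536870912 536870912 3) ndF0q2 ndF1q1 pcF3 Cut.none Ext.none)

def k0_pp_213 : ∃ t, chk3 f_pp_213 t 1 1 1 = true :=
  ⟨(l 4), by decide +kernel⟩

theorem c_pp_213 : CertF 0 536870912 536870912 536870912 134217728 67108864 true true true .pnn 2 1 3
    ndF0q2 ndF1q1 pcF3 Cut.none Ext.none :=
  certF0 (fam := true) (s1 := true) (s2 := true) (a := 2) (b := 1) (c := 3) (cn := .pnn) (n1 := ndF0q2) (n2 := ndF1q1) (pc := pcF3) (cut := Cut.none) (xt := Ext.none) (P1 := 0) (W1 := 536870912) (P2 := 536870912) (W2 := 536870912) (P3 := 134217728) (W3 := 67108864)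
    rfl k0_pp_213

noncomputable def f_pm_001 : ℕ → ℕ → ℕ → ℕ → Bool := onCell 0 536870912 0 536870912 134217728 67108864
    (rowF 0 true true false .up 0 0 1 (qsf 0 536870912 0 536870912 1) ndF0q0 ndF1q0 pcF1 Cut.none Ext.none)

def k0_pm_001 : ∃ t, chk3 f_pm_001 t 1 1 1 = true :=
  ⟨(l 3), by decide +kernel⟩

theorem c_pm_001 : CertF 0 536870912 0 536870912 134217728 67108864 true true false .up 0 0 1
    ndF0q0 ndF1q0 pcF1 Cut.none Ext.none :=
  certF0 (fam := true) (s1 := true) (s2 := false) (a := 0) (b := 0) (c := 1) (cn := .up) (n1 := ndF0q0) (n2 := ndF1q0) (pc := pcF1) (cut := Cut.none) (xt := Ext.none) (P1 := 0) (W1 := 536870912) (P2 := 0) (W2 := 536870912) (P3 := 134217728) (W3 := 67108864)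
    rfl k0_pm_001

noncomputable def f_pm_011 : ℕ → ℕ → ℕ → ℕ → Bool := onCell 0 536870912 536870912 536870912 134217728 67108864
    (rowF 1 true true false .pnn 0 1 1 (qsf 0 536870912 536870912 536870912 1) ndF0q0 ndF1q1 pcF1 Cut.none Ext.none)

def k0_pm_011 : ∃ t, chk3 f_pm_011 t 1 1 1 = true :=
  ⟨(l 3), by decide +kernel⟩

theorem c_pm_011 : CertF 0 536870912 536870912 536870912 134217728 67108864 true true false .pnn 0 1 1
    ndF0q0 ndF1q1 pcF1 Cut.none Ext.none :=
  certF1 (fam := true) (s1 := true) (s2 := false) (a := 0) (b := 1) (c := 1) (cn := .pnn) (n1 := ndF0q0) (n2 := ndF1q1) (pc := pcF1) (cut := Cut.none) (xt := Ext.none) (P1 := 0) (W1 := 536870912) (P2 := 536870912) (W2 := 536870912) (P3 := 134217728) (W3 := 67108864)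
    rfl (fun _ => rfl) k0_pm_011

noncomputable def f_pm_012 : ℕ → ℕ → ℕ → ℕ → Bool := onCell 1073741824 536870912 536870912 536870912 134217728 67108864
    (rowF 2 true true false .pnp 0 1 2 (qsf 0 536870912 536870912 536870912 2) ndF0q0 ndF1q1 pcF2 Cut.none Ext.none)

def k0_pm_012 : ∃ t, chk3 f_pm_012 t 1 1 1 = true :=
  ⟨(a (b (a (a (l 3) (a (l 3) (b (b (l 2) (a (l 3) (c (l 17397440) (l 17302848)))) (a (l 3) (b (l 97342599767) (l 3)))))) (b (a (a (a (b (l 2) (l 17368696)) (l 2)) (l 2)) (l 2)) (a (a (a (b (l 17345824) (l 102174427159)) (a (b (l 17339680) (l 17316824)) (a (b (l 17348344) (l 17324760)) (a (a (l 17484120) (l 17443912)) (l 17529944))))) (b (l 17383408) (l 17362216))) (b (l 17447928) (l 17434264))))) (a (l 3) (b (a (a (a (b (c (l 17353920) (l 17360320)) (l 3)) (a (b (l 17315296) (b (l 17315312) (l 17300440))) (a (b (l 17322208) (l 17318056)) (b (a (l 17326896) (l 17330368)) (a (l 17323208) (l 17327096)))))) (b (l 17359672) (b (l 17362408) (l 17355400))))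 (b (l 17437224) (a (l 17422616) (l 17479056)))) (a (a (a (l 3) (a (b (l 3) (l 3)) (a (b (b (l 17265408) (l 17156896)) (l 3)) (b (a (b (l 17273128) (l 17169432)) (l 17112856)) (a (b (l 17049112) (c (l 17046408) (l 17034328))) (b (l 17044616) (l 17036640))))))) (b (b (l 17326192) (l 17228904)) (b (c (l 17262992) (l 17002200)) (b (l 17001496) (l 16996896))))) (b (b (l 17452512) (l 17428376)) (b (a (l 17277272) (l 17432432)) (a (l 17068976) (l 17321720)))))))) (b (a (b (l 2) (a (b (l 2) (l 17501464)) (l 2))) (l 2)) (b (a (b (a (l 17516032) (l 17558304)) (a (l 17547088) (l 17602056))) (a (b (l 2) (l 17616608)) (l 2))) (a (b (a (l 17586352) (l 17664168)) (a (b (l 17597072) (l 17571688)) (l 17733616))) (b (a (l 17689840) (l 17673904)) (a (l 17784728) (l 17775768))))))), by decide +kernel⟩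

theorem c_pm_012 : CertF 0 536870912 536870912 536870912 134217728 67108864 true true false .pnp 0 1 2
    ndF0q0 ndF1q1 pcF2 Cut.none Ext.none :=
  certF2 (fam := true) (s1 := true) (s2 := false) (a := 0) (b := 1) (c := 2) (cn := .pnp) (n1 := ndF0q0) (n2 := ndF1q1) (pc := pcF2) (cut := Cut.none) (xt := Ext.none) (P1 := 0) (W1 := 536870912) (P2 := 536870912) (W2 := 536870912) (P3 := 134217728) (W3 := 67108864)
    rfl (fun _ => rfl) k0_pm_012

noncomputable def cut_pm_022_a : Cut := Cut.of [[⟨0, 0, 0, 67108864⟩, ⟨1, 1, 0, 67108864⟩, ⟨2, 1, 0, 67108864⟩], [⟨0, 0, 1, 41943040⟩, ⟨1, 1, 0, 16777216⟩, ⟨2, 1, 1, 41943040⟩]]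

noncomputable def f_pm_022_a : ℕ → ℕ → ℕ → ℕ → Bool := onCell 1073741824 536870912 0 536870912 134217728 67108864
    (rowF 2 true true false .pp 0 2 2 (qsf 0 536870912 0 536870912 2) ndF0q0 ndF1q2a pcF2 cut_pm_022_a Ext.none)

def k0_pm_022_a : ∃ t, chk3 f_pm_022_a t 4 2 1 = true :=
  ⟨(b (l 1) (a (l 1) (a (l 1) (a (l 1) (b (l 1) (b (l 1) (a (l 1) (a (c (l 16578400) (l 16573152)) (c (l 16576344) (l 16559784)))))))))), by decide +kernel⟩

def k1_pm_022_a : ∃ t, chk3 f_pm_022_a t 20 2 1 = true :=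
  ⟨(a (b (l 1) (b (a (l 1) (c (b (l 16556384) (a (l 16556928) (l 16555672))) (b (l 16531576) (l 16554280)))) (a (c (b (b (l 16581784) (l 16582808)) (b (l 16583888) (l 16585008))) (b (l 16562440) (l 16566752))) (c (b (l 16578728) (l 16579920)) (b (l 16557464) (l 16560952)))))) (b (a (b (l 1) (c (c (l 16890760) (l 16548624)) (l 16551704))) (a (b (l 1) (c (b (l 16811696) (l 16804576)) (l 16528048))) (b (a (c (l 16862064) (l 16532832)) (c (b (l 16925664) (l 16815408)) (l 16552816))) (a (c (b (l 16874304) (l 16865568)) (l 16526312)) (c (c (l 17108096) (b (l 16711040) (l 16704344))) (l 16567232)))))) (a (b (c (b (a (l 16609712) (l 16707432)) (c (l 16868320) (l 16546904))) (b (l 16548928) (l 16549864))) (c (b (a (l 16597448) (l 16690568)) (a (l 16592656) (l 16682976))) (b (l 16552272) (l 16554952)))) (a (b (c (b (l 16795448) (l 16785400)) (l 16546448)) (c (b (l 16775040) (l 16765152)) (b (l 16527320) (l 16550376)))) (b (a (c (b (l 16855648) (l 16844672)) (l 16544472)) (c (b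 (c (l 17089112) (l 16697264)) (c (l 17073240) (l 16690184))) (b (l 16564184) (l 16564112)))) (a (c (b (l 16833152) (l 16779920)) (b (l 16545960) (l 16547776))) (c (b (c (l 17055632) (l 16683512)) (c (l 17037272) (l 16677744))) (b (c (l 16549504) (l 16539752)) (a (l 16556920) (l 16524744)))))))))), by decide +kernel⟩

def k2_pm_022_a : ∃ t, chk3 f_pm_022_a t 21 2 1 = true :=
  ⟨(b (a (b (c (a (l 16993904) (l 17141560)) (l 16552496)) (c (a (b (l 17005008) (l 16995512)) (l 17105872)) (a (l 16524488) (l 16523192)))) (b (c (l 17293240) (l 16660816)) (c (c (l 17434456) (l 17123728)) (a (l 16581704) (l 16717664))))) (a (b (c (a (b (l 16984272) (l 16908392)) (b (l 17109808) (l 17095152))) (a (l 16542320) (l 16540784))) (c (b (a (l 16831240) (l 17078432)) (a (l 16753832) (l 17060976))) (b (a (l 16521768) (l 16518984)) (c (l 16548128) (l 16538264))))) (b (c (b (l 17261488) (l 17182472)) (b (l 16646744) (l 16642664))) (c (b (l 17142408) (l 17038072)) (b (l 16638944) (l 16636496)))))),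 by decide +kernel⟩

def k3_pm_022_a : ∃ t, chk3 f_pm_022_a t 11 2 1 = true :=
  ⟨(a (b (c (a (b (l 17440472) (l 17428608)) (l 17537504)) (a (b (l 16894296) (l 16886536)) (b (l 17066552) (l 17059800)))) (b (a (c (l 17402224) (b (l 16877824) (l 16870616))) (c (l 17509192) (l 17045488))) (a (c (b (l 17374024) (l 17351736)) (b (l 16862272) (l 16854192))) (c (l 17469536) (l 17024328))))) (a (b (c (l 17610104) (b (l 17193784) (l 17188608))) (b (c (l 17585600) (l 17173968)) (c (l 17547976) (l 17150768)))) (b (c (l 17658400) (l 17282968)) (b (l 17390976) (c (l 17604488) (l 17246768)))))), by decide +kernel⟩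

def k4_pm_022_a : ∃ t, chk3 f_pm_022_a t 8 6 1 = true :=
  ⟨(l 1), by decide +kernel⟩

def k5_pm_022_a : ∃ t, chk3 f_pm_022_a t 36 6 1 = true :=
  ⟨(b (l 1) (b (l 1) (a (l 1) (a (b (l 1) (c (c (b (l 16646816) (c (b (l 16648336) (l 16649016)) (b (l 16647456) (l 16648176)))) (b (l 16644976) (a (l 16648416) (l 16644696)))) (b (l 16641024) (c (l 16644936) (l 16643384))))) (b (a (l 1) (c (c (l 16635016) (l 16633016)) (b (l 1) (l 16631120)))) (c (c (b (a (b (l 16640752) (l 16641496)) (l 16637296)) (l 16640680)) (b (a (l 16639328) (l 16635528)) (l 16639056))) (b (c (l 16635728) (l 16634096)) (c (l 16637504) (l 16636032))))))))), by decide +kernel⟩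

def k6_pm_022_a : ∃ t, chk3 f_pm_022_a t 37 6 1 = true :=
  ⟨(a (b (l 1) (b (a (l 1) (a (l 1) (b (l 1) (c (c (l 16621248) (l 16619080)) (c (l 16617024) (l 16620320)))))) (b (c (a (c (b (l 16628352) (a (l 16631888) (l 16627968))) (b (l 16626328) (l 16625440))) (a (c (l 16628464) (l 16626568)) (c (l 16619328) (l 16617464)))) (a (b (c (l 16624392) (l 16622552)) (c (l 16626280) (l 16624584))) (a (c (l 16619528) (l 16617832)) (a (l 16620984) (l 16619048))))) (c (a (c (l 16637488) (l 16641096)) (c (l 16637904) (l 16633712))) (a (c (l 16629056) (l 16627592)) (c (l 16634856) (l 16633472))))))) (b (l 1) (b (c (b (a (l 1) (b (l 1) (c (l 16616528) (l 16613592)))) (a (c (b (l 16621840) (l 16623480)) (b (a (l 16609728) (l 16607576)) (l 16621232))) (c (l 16618840) (l 16616160)))) (b (a (l 1) (b (l 1) (c (l 16610816) (l 16608208)))) (a (a (b (l 16611744) (a (l 16609112) (l 16607864))) (c (l 16611464) (l 16609328))) (c (l 16613640) (l 16611280))))) (c (a (b (c (l 16625880) (l 16623872))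 (c (l 16628872) (l 16627216))) (b (c (l 16632232) (l 16629920)) (c (l 16634944) (l 16633016)))) (a (b (c (l 16621992) (l 16620224)) (c (l 16625672) (l 16624232))) (b (c (l 16617272) (l 16615248)) (l 16621200))))))), by decide +kernel⟩

def k7_pm_022_a : ∃ t, chk3 f_pm_022_a t 38 6 1 = true :=
  ⟨(b (b (b (l 1) (a (l 1) (a (l 1) (c (l 16591224) (l 16580256))))) (b (a (l 1) (c (c (a (l 16589000) (l 16586032)) (a (l 16584024) (l 16580656))) (a (c (l 16579344) (l 16585448)) (l 16583688)))) (c (a (a (c (l 16598408) (l 16605136)) (c (b (l 16594176) (l 16595552)) (b (l 16589912) (l 16591488)))) (a (c (l 16591536) (l 16587000)) (l 16596288))) (a (a (c (l 16601592) (l 16598256)) (c (b (l 16596384) (l 16598160)) (b (l 16592624) (l 16594584)))) (a (c (l 16593224) (l 16589232)) (l 16587080)))))) (a (b (c (a (b (c (b (l 16600616) (l 16602064)) (b (l 16607624) (l 16598768))) (c (l 16604184) (l 16622144))) (c (b (l 16597576) (l 16600128)) (b (l 16604304) (l 16617760)))) (a (b (c (b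 (l 16604336) (l 16595664)) (b (l 16601264) (l 16613736))) (c (l 16608840) (l 16606208))) (b (c (l 16600776) (l 16597480)) (c (l 16604160) (l 16601248))))) (c (b (c (a (l 16627808) (l 16623480)) (a (l 16625200) (l 16620584))) (c (a (l 16630248) (l 16625632)) (a (l 16628064) (l 16623200)))) (b (a (c (l 16622768) (l 16620504)) (c (l 16617880) (l 16615384))) (a (l 16615256) (c (l 16622096) (l 16624296)))))) (b (c (a (c (l 16605656) (l 16601784)) (b (l 16598656) (l 16600880))) (a (b (c (l 16606984) (l 16603400)) (l 16598048)) (b (l 16600840) (l 16604000)))) (c (b (c (l 16613304) (l 16613880)) (c (l 16620144) (l 16617304))) (b (c (l 16612064) (l 16609176)) (a (l 16621768) (l 16620264))))))), by decide +kernel⟩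

def k8_pm_022_a : ∃ t, chk3 f_pm_022_a t 39 6 1 = true :=
  ⟨(b (b (a (c (b (c (l 16600248) (l 16593240)) (c (l 16602128) (l 16595608))) (a (b (l 16562912) (l 16576632)) (l 16576880))) (c (c (l 16596056) (l 16588496)) (b (l 16576624) (l 16579288)))) (a (a (c (c (l 16584192) (l 16578664)) (l 16586760)) (c (l 16593928) (l 16588144))) (c (c (l 16598616) (l 16592176)) (b (l 16581928) (l 16584512))))) (a (b (c (c (a (l 16608832) (l 16605240)) (a (l 16604328) (l 16600432))) (b (l 16595520) (l 16598272))) (c (b (c (l 16610024) (l 16606160)) (c (l 16611008) (l 16612400))) (b (l 16606032) (l 16617112)))) (b (c (c (l 16595432) (l 16595416)) (l 16592120)) (c (b (l 16596816) (l 16609592)) (b (l 16600312) (l 16614144)))))), by decide +kernel⟩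

def k9_pm_022_a : ∃ t, chk3 f_pm_022_a t 8 14 2 = true :=
  ⟨(c (c (a (l 1) (b (a (l 1) (a (l 1) (b (l 1) (a (b (l 1) (l 6)) (b (b (a (l 1) (b (c (l 16672184) (l 16671824)) (a (l 6) (l 16671400)))) (a (l 6) (c (l 16672864) (l 16672528)))) (a (l 6) (b (l 16673184) (l 16673648)))))))) (a (l 6) (a (l 6) (a (l 6) (a (l 6) (b (b (l 16674296) (l 16675072)) (l 16681312)))))))) (a (l 1) (b (a (l 1) (a (l 1) (b (l 1) (a (b (l 1) (l 6)) (b (b (a (l 1) (b (l 16671288) (l 16671592))) (a (l 6) (l 16672040))) (a (l 6) (l 16672816))))))) (a (l 6) (a (l 6) (a (l 6) (b (b (l 16680776) (l 16676392)) (l 16683400)))))))) (c (a (l 1) (b (a (l 1) (a (l 1) (b (l 1) (a (b (l 1) (l 6)) (b (b (l 16672512) (a (l 6) (l 16671384))) (l 16673984)))))) (a (l 6) (a (l 6) (a (l 6) (a (l 6) (b (l 16673752) (l 16675432)))))))) (a (l 1) (b (a (l 1) (a (l 1) (b (l 1) (a (b (l 1) (l 6)) (b (b (l 16671824) (l 16672496)) (l 16673384)))))) (a (l 6) (a (l 6) (a (l 6) (b (l 16680264) (l 16687360))))))))), by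 decide +kernel⟩

def k10_pm_022_a : ∃ t, chk3 f_pm_022_a t 8 14 3 = true :=
  ⟨(c (c (a (l 1) (b (a (l 1) (a (l 1) (b (l 1) (a (b (l 1) (l 6)) (b (l 16671504) (l 16672800)))))) (a (l 6) (a (l 6) (a (l 6) (b (l 16674552) (l 16687056))))))) (a (l 1) (a (b (l 1) (l 6)) (a (b (l 1) (l 6)) (b (b (l 1) (a (b (l 1) (l 6)) (b (l 16670848) (l 16672224)))) (a (l 6) (b (l 16674096) (l 16676272)))))))) (a (l 1) (b (a (l 1) (a (l 1) (b (l 1) (a (b (l 1) (l 6)) (b (l 16669880) (l 16671368)))))) (a (l 6) (a (l 6) (a (l 6) (b (l 16673416) (l 16675848)))))))), by decide +kernel⟩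

def k11_pm_022_a : ∃ t, chk3 f_pm_022_a t 8 15 1 = true :=
  ⟨(a (l 6) (b (a (l 6) (a (l 6) (a (l 6) (a (l 6) (b (c (c (l 16692848) (l 16703664)) (l 16693616)) (c (c (b (l 16696384) (l 16706024)) (l 16711616)) (l 16711440))))))) (b (a (l 6) (a (l 6) (a (l 6) (a (l 6) (c (c (b (l 16715800) (l 16725712)) (b (l 16715376) (l 16725040))) (c (l 16730128) (l 16729536))))))) (a (l 6) (b (a (l 6) (a (l 6) (a (l 6) (a (l 6) (c (c (l 16740896) (l 16734704)) (l 16738488)))))) (c (a (l 6) (a (l 6) (a (l 6) (a (l 6) (b (c (l 16743272) (l 16742120)) (b (c (l 16747120) (l 16745856)) (c (c (l 16751336) (l 16750672)) (c (l 16748688) (l 16748016))))))))) (a (l 6) (a (l 6) (a (l 6) (a (l 6) (b (l 16745592) (b (c (l 16744576) (l 16743280)) (c (c (l 16747344) (l 16746664)) (c (l 16745984) (l 16745304))))))))))))))), by decide +kernel⟩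

def k12_pm_022_a : ∃ t, chk3 f_pm_022_a t 36 28 1 = true :=
  ⟨(a (b (c (a (b (l 1) (c (b (a (l 1) (c (b (l 16663672) (l 16663976)) (l 16663064))) (c (a (b (l 16667872) (c (l 16665728) (l 16667984))) (l 16664432)) (a (l 16667288) (l 16663704)))) (b (a (l 1) (l 16661944)) (c (l 16664784) (l 16664080))))) (c (b (b (a (l 1) (c (l 16655264) (l 16654440))) (c (a (b (l 16659416) (l 16659736)) (l 16655904)) (l 16651720))) (c (a (l 16660512) (l 16656848)) (l 16657960))) (b (a (b (l 1) (l 16657624)) (l 16653616)) (l 16656904)))) (a (b (l 1) (c (a (l 16664416) (l 16660880)) (l 16661264))) (b (c (a (l 16655712) (l 16652104)) (l 16652440)) (c (l 16655528) (l 16654216))))) (c (c (b (a (c (b (a (l 16668600) (l 16665016)) (l 16672608)) (l 16671672)) (c (l 16659864) (l 16659224))) (a (c (a (l 16669880) (l 16666304)) (l 16667512)) (l 16665840))) (b (a (c (l 16665776) (l 16665136)) (l 16658288)) (c (l 16673872) (l 16673320)))) (c (b (a (l 16664192) (l 16657088)) (l 16672520)) (a (l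 16663744) (l 16656736))))) (c (a (b (c (b (c (l 16650016) (l 16649240)) (l 16656176)) (b (l 16648096) (l 16649576))) (c (b (l 16657416) (l 16653248)) (l 16656880))) (b (c (b (l 16642080) (l 16643408)) (l 16646640)) (c (l 16650480) (l 16654696)))) (b (c (b (l 16653440) (l 16655104)) (b (l 16652080) (l 16653904))) (c (b (l 16656696) (l 16668600)) (l 16656488))))), by decide +kernel⟩

def k13_pm_022_a : ∃ t, chk3 f_pm_022_a t 36 29 1 = true :=
  ⟨(c (a (b (c (a (b (c (l 16668984) (l 16668472)) (l 16674800)) (b (l 16672016) (l 16672856))) (b (c (l 16674920) (l 16674448)) (l 16673056))) (c (b (a (l 16680768) (l 16684072)) (a (l 16691864) (l 16689296))) (b (l 16676576) (l 16689872)))) (b (c (b (l 16658344) (l 16661824)) (b (l 16670640) (l 16672952))) (c (b (l 16670208) (l 16678816)) (b (l 16681248) (l 16689672))))) (b (a (c (b (l 16673760) (l 16674928)) (l 16673584)) (c (l 16660032) (l 16659856))) (a (c (l 16673896) (l 16676184)) (c (l 16676704) (l 16675760))))), by decide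 +kernel⟩

def k14_pm_022_a : ∃ t, chk3 f_pm_022_a t 36 30 1 = true :=
  ⟨(b (b (c (c (a (l 16682560) (l 16677080)) (a (l 16698624) (l 16677248))) (a (l 16685952) (l 16682656))) (c (c (a (l 16691632) (l 16685952)) (a (l 16697008) (l 16685912))) (a (l 16691904) (l 16691008)))) (b (c (c (a (l 16700944) (l 16695080)) (a (l 16695624) (l 16694808))) (a (l 16703312) (c (l 16694496) (l 16694152)))) (c (c (a (l 16710464) (l 16709648)) (a (l 16704920) (l 16703896))) (a (c (l 16704584) (l 16704216)) (c (l 16703344) (l 16702768)))))), by decide +kernel⟩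

def k15_pm_022_a : ∃ t, chk3 f_pm_022_a t 36 62 1 = true :=
  ⟨(c (a (c (a (b (l 16715224) (l 16730312)) (b (l 16714584) (l 16734824))) (b (l 16724824) (a (l 16724328) (l 16723480)))) (c (b (c (l 16714056) (l 16713680)) (c (l 16734224) (l 16723224))) (b (l 16713104) (c (l 16722704) (l 16722176))))) (a (c (b (l 16713760) (l 16733536)) (b (l 16713160) (l 16722208))) (c (b (l 16712304) (l 16731864)) (b (l 16711480) (l 16720288))))), by decide +kernel⟩

def k16_pm_022_a : ∃ t, chk3 f_pm_022_a t 36 63 2 = true :=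
  ⟨(b (c (a (c (a (l 16740552) (l 16739760)) (a (l 16745296) (l 16733952))) (c (b (l 16731088) (l 16741280)) (b (l 16730464) (l 16735336)))) (b (a (l 16733736) (c (l 16729840) (l 16729208))) (a (c (l 16736272) (l 16735696)) (c (l 16734640) (l 16733936))))) (c (b (a (c (a (l 16742944) (l 16742080)) (a (l 16742336) (l 16741408))) (c (a (l 16741344) (l 16740744)) (a (l 16740608) (l 16739936)))) (a (c (a (b (l 16746800) (b (l 16748736) (c (l 16750200) (l 16749848)))) (b (l 16745896) (c (a (l 16748864) (l 16748440)) (b (l 16747624) (l 16748904))))) (b (a (l 16746136) (l 16745168)) (b (a (l 16748040) (l 16747056)) (a (c (l 16749496) (l 16749136)) (c (l 16748512) (l 16748128)))))) (c (a (c (b (l 16745328) (a (l 16748056) (l 16747704))) (b (l 16744928) (b (l 16746824) (l 16748088)))) (c (b (l 16744712) (a (l 16747376) (c (l 16747208) (l 16746976)))) (b (l 16744280) (a (l 16746936) (l 16746632))))) (b (a (l 16744336) (l 16743624)) (b (a (l 16746200) (c (l 16745704) (l 16745256)))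 (a (c (l 16747664) (l 16747240)) (c (l 16746944) (l 16746488)))))))) (b (a (c (a (l 16741728) (l 16740736)) (l 16740560)) (c (a (l 16739872) (l 16739128)) (l 16741320))) (b (a (c (a (l 16745464) (l 16744440)) (l 16744224)) (c (a (l 16743536) (l 16742752)) (a (l 16742736) (l 16741880)))) (b (a (c (a (l 16747344) (l 16746296)) (a (l 16746648) (l 16745536))) (c (a (l 16745376) (l 16744576)) (a (l 16744544) (l 16743672)))) (a (c (a (c (l 16748776) (l 16748416)) (c (l 16747736) (l 16747344))) (a (c (l 16748064) (l 16747704)) (c (l 16746960) (l 16746568)))) (c (a (c (l 16746816) (l 16746392)) (c (l 16746024) (l 16745568))) (a (c (l 16745968) (l 16745544)) (c (l 16745104) (l 16744640)))))))))), by decide +kernel⟩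

def k17_pm_022_a : ∃ t, chk3 f_pm_022_a t 36 63 3 = true :=
  ⟨(b (b (c (a (l 16730096) (l 16728256)) (a (l 16729048) (l 16726960))) (c (a (l 16734824) (c (l 16733232) (l 16732520))) (a (l 16733640) (l 16731440)))) (b (c (a (c (l 16739904) (l 16739256)) (c (l 16737912) (l 16737128))) (a (c (l 16738592) (l 16737928)) (c (l 16736344) (l 16735552)))) (c (b (a (c (l 16743520) (l 16742816)) (c (l 16741448) (l 16740608))) (b (a (c (a (l 16745944) (l 16744768)) (a (l 16745240) (l 16744000))) (c (l 16743224) (l 16742352))) (a (c (a (c (l 16747344) (l 16746976)) (c (l 16746176) (l 16745784))) (a (c (l 16746616) (l 16746256)) (c (l 16745384) (l 16744992)))) (c (a (c (l 16745120) (l 16744696)) (c (l 16744184) (l 16743720))) (a (c (l 16744264) (l 16743840)) (c (l 16743256) (l 16742792))))))) (b (a (c (l 16742104) (l 16741384)) (c (l 16739760) (l 16738920))) (b (a (c (a (l 16744528) (l 16743232)) (a (l 16743816) (l 16742456))) (c (l 16741480) (l 16740608))) (a (c (a (c (l 16745888)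 (l 16745528)) (c (l 16744600) (l 16744200))) (a (c (l 16745160) (l 16744792)) (c (l 16743808) (l 16743408)))) (c (a (c (l 16743408) (l 16742984)) (c (l 16742328) (l 16741864))) (a (c (l 16742552) (l 16742120)) (l 16741168))))))))), by decide +kernel⟩

def k18_pm_022_a : ∃ t, chk3 f_pm_022_a t 37 14 1 = true :=
  ⟨(a (b (a (c (b (c (l 16645568) (l 16654760)) (c (l 16648080) (l 16657624))) (b (b (l 16641560) (l 16643344)) (l 16641928))) (b (c (c (l 16639440) (l 16636912)) (b (l 16635616) (l 16636104))) (c (c (l 16653192) (l 16654168)) (c (l 16655064) (l 16655880))))) (c (b (a (c (l 16668784) (l 16669480)) (c (l 16669144) (l 16669760))) (c (a (l 16685440) (l 16685640)) (a (l 16685768) (l 16685872)))) (b (a (c (l 16670120) (l 16670696)) (c (l 16670320) (l 16670800))) (a (b (l 16661184) (l 16669152)) (c (l 16686048) (l 16686160)))))) (b (a (c (b (c (l 16642104) (l 16640816)) (c (l 16652912) (l 16653936))) (b (c (l 16640408) (l 16641608)) (c (l 16654872) (l 16655720)))) (c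 (b (c (l 16637392) (l 16637336)) (c (l 16651032) (l 16652256))) (b (l 16633344) (l 16648648)))) (c (b (c (a (l 16668800) (l 16667072)) (a (l 16669448) (l 16667872))) (c (a (l 16685248) (l 16683664)) (b (l 16680016) (l 16688224)))) (b (a (c (l 16670016) (l 16670504)) (l 16663648)) (a (c (l 16685632) (l 16685728)) (l 16679104)))))), by decide +kernel⟩

def k19_pm_022_a : ∃ t, chk3 f_pm_022_a t 37 30 1 = true :=
  ⟨(b (c (a (c (a (l 16692144) (l 16692184)) (b (l 16697320) (l 16705864))) (c (b (l 16691360) (l 16694824)) (b (l 16696544) (l 16694512)))) (a (a (b (l 16677232) (l 16685416)) (c (l 16691728) (l 16691432))) (a (c (l 16701696) (l 16680376)) (b (l 16675216) (l 16683256))))) (a (a (c (c (l 16710072) (l 16709504)) (c (l 16698416) (l 16697768))) (c (c (b (l 16694912) (l 16704008)) (l 16709264)) (c (l 16708536) (l 16718248)))) (c (c (a (l 16709456) (l 16708168)) (a (l 16708704) (l 16717912))) (a (c (l 16707904) (l 16717552)) (c (l 16717112) (l 16695296)))))), by decide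 +kernel⟩

def k20_pm_022_a : ∃ t, chk3 f_pm_022_a t 37 62 1 = true :=
  ⟨(c (a (b (c (a (l 16713488) (l 16713248)) (a (l 16712528) (l 16712152))) (c (a (l 16722944) (l 16733112)) (a (l 16721704) (l 16731728)))) (c (a (b (l 16712712) (l 16732552)) (b (l 16711536) (l 16720968))) (a (b (l 16711536) (l 16731072)) (b (l 16710328) (l 16719432))))) (a (b (a (l 16721512) (a (l 16710696) (l 16710472))) (c (a (l 16720440) (l 16719840)) (a (l 16719152) (l 16718408)))) (c (a (b (l 16710320) (l 16719072)) (b (l 16709088) (l 16717864))) (a (b (l 16709072) (l 16717544)) (b (l 16707800) (l 16716280)))))), by decide +kernel⟩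

def k21_pm_022_a : ∃ t, chk3 f_pm_022_a t 74 63 2 = true :=
  ⟨(b (c (a (c (l 16743416) (l 16732168)) (b (l 16734992) (c (l 16734984) (l 16734104)))) (a (c (l 16731400) (l 16730624)) (c (l 16741368) (l 16740520)))) (b (c (a (c (l 16745528) (l 16739400)) (c (a (l 16740032) (l 16739880)) (a (l 16739088) (l 16738896)))) (a (c (l 16738512) (l 16737624)) (c (a (l 16738144) (l 16737912)) (l 16742216)))) (c (b (a (c (c (l 16744232) (l 16743760)) (l 16743048)) (a (c (l 16743712) (l 16742704)) (c (l 16743544) (l 16742496)))) (a (c (c (a (c (l 16746960) (l 16746720)) (c (l 16746752) (l 16746496))) (a (l 16746360) (c (l 16746248) (l 16745992)))) (c (a (l 16745872) (l 16745616)) (b (l 16744640) (l 16745856)))) (c (c (a (c (l 16747880) (l 16746312)) (b (l 16745656) (a (l 16746944) (l 16748184)))) (a (b (l 16745304) (l 16746536)) (b (l 16745120) (c (l 16746480) (l 16746200))))) (a (c (l 16745392) (l 16744872)) (a (c (l 16745248) (l 16744704)) (c (l 16745160) (l 16744608))))))) (b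 (a (c (l 16742104) (l 16741152)) (c (a (l 16741696) (l 16741448)) (a (l 16740688) (l 16740400)))) (a (c (b (l 16743904) (c (l 16745360) (l 16744856))) (c (l 16745072) (l 16743272))) (c (a (c (l 16744344) (l 16743824)) (c (b (l 16743496) (l 16744688)) (l 16743552))) (a (c (l 16743296) (l 16742768)) (c (l 16743000) (l 16742456))))))))), by decide +kernel⟩

def k22_pm_022_a : ∃ t, chk3 f_pm_022_a t 74 63 3 = true :=
  ⟨(b (c (a (l 16734696) (c (l 16739672) (l 16738816))) (a (l 16727880) (a (l 16727320) (l 16726952)))) (b (c (a (c (l 16736736) (l 16735840)) (c (l 16736000) (l 16735032))) (a (l 16734496) (c (l 16734056) (l 16733088)))) (c (b (a (c (l 16740200) (l 16739248)) (c (l 16742384) (l 16738408))) (a (c (c (l 16742776) (l 16742280)) (c (l 16741784) (l 16741288))) (c (a (l 16741984) (c (l 16741912) (l 16741368))) (a (l 16740928) (l 16740544))))) (b (a (l 16737824) (c (l 16737376) (l 16736344))) (a (c (c (l 16740792) (l 16740296)) (l 16742168)) (c (a (l 16739880) (l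 16739456)) (a (l 16738824) (l 16738360)))))))), by decide +kernel⟩

def k23_pm_022_a : ∃ t, chk3 f_pm_022_a t 75 63 2 = true :=
  ⟨(b (c (a (c (b (l 16729600) (l 16734432)) (l 16738984)) (c (l 16741496) (l 16740560))) (a (c (l 16740704) (l 16739792)) (b (l 16726336) (l 16730984)))) (b (c (a (c (a (l 16739600) (l 16739128)) (a (l 16738584) (l 16738088))) (c (l 16743600) (l 16737280))) (a (c (a (l 16737560) (l 16737048)) (l 16741456)) (c (l 16736208) (l 16735128)))) (c (a (b (c (a (l 16745880) (l 16742808)) (a (l 16742176) (l 16741696))) (c (a (c (a (a (l 16747488) (l 16746072)) (a (l 16745960) (l 16745856))) (b (l 16744824) (c (l 16746192) (l 16745904)))) (a (c (b (l 16745072) (l 16746312)) (l 16745120)) (c (b (l 16744864) (l 16746104)) (l 16747528)))) (a (a (c (l 16745000) (l 16744440)) (c (l 16744768) (l 16744208))) (b (l 16743512) (c (l 16745016) (l 16744432)))))) (b (c (c (l 16742352) (l 16741776)) (c (l 16741208) (l 16740632))) (c (c (a (b (l 16744528) (a (l 16745904)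 (l 14))) (l 14)) (b (l 16743632) (a (b (l 16744872) (l 16745488)) (a (l 16744904) (l 16744704))))) (b (c (l 16743048) (l 16742456)) (c (a (l 16744584) (l 16745480)) (a (l 16743992) (l 16743560))))))) (a (c (c (b (l 16741056) (a (b (l 16743152) (l 16744344)) (l 16743256))) (b (l 16740512) (a (l 16743184) (l 16742680)))) (b (a (l 16740016) (l 16739480)) (a (c (l 16742624) (l 16742056)) (b (l 16741232) (l 16742400))))) (a (c (b (l 16740112) (c (l 16742792) (l 16742208))) (b (l 16738984) (b (l 16740736) (l 16741904)))) (c (b (l 16739648) (c (l 16742344) (l 16741744))) (b (l 16738488) (b (l 16740248) (l 16741424))))))))), by decide +kernel⟩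

def k24_pm_022_a : ∃ t, chk3 f_pm_022_a t 75 63 3 = true :=
  ⟨(b (c (a (c (l 16738880) (l 16727480)) (l 16737248)) (a (a (l 16726480) (l 16725864)) (l 16724848))) (b (c (a (c (l 16735176) (l 16734144)) (c (l 16734048) (l 16732968))) (a (c (l 16733104) (l 16732064)) (l 16731344))) (c (b (a (c (a (l 16738928) (l 16738376)) (l 16737496)) (c (l 16737488) (l 16736336))) (a (c (a (c (l 16741496) (l 16740928)) (l 16740664)) (a (l 16740088) (l 16739512))) (a (c (l 16740136) (l 16738960)) (c (l 16739632) (l 16738424))))) (a (a (c (l 16740480) (l 16736752)) (c (l 16737256) (l 16736120))) (b (l 16734616) (c (l 16740024) (l 16736208))))))), by decide +kernel⟩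

def k25_pm_022_a : ∃ t, chk3 f_pm_022_a t 38 14 1 = true :=
  ⟨(a (a (b (c (b (c (l 16633952) (l 16635824)) (c (l 16649408) (l 16650816))) (b (l 16633120) (l 16647456))) (c (b (c (l 16665568) (l 16666512)) (c (l 16661304) (l 16661736))) (b (l 16657224) (l 16672696)))) (b (c (b (c (l 16632152) (l 16634248)) (c (l 16647736) (l 16649328))) (b (c (l 16636184) (l 16637952)) (c (l 16650776) (l 16652080)))) (c (b (c (l 16664024) (l 16665104)) (c (l 16659904) (l 16660424))) (b (l 16658624) (l 16674120))))) (b (c (b (c (l 16628176) (l 16630632)) (c (l 16644096) (l 16645984))) (b (a (l 16635688) (l 16634232)) (c (l 16647696) (l 16649240)))) (b (c (c (l 16660728) (l 16662032)) (c (l 16663184) (l 16664192))) (c (c (l 16677912) (l 16678592)) (c (l 16679144) (l 16679576)))))), by decide +kernel⟩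

def k26_pm_022_a : ∃ t, chk3 f_pm_022_a t 38 30 1 = true :=
  ⟨(c (b (a (c (b (l 16693560) (l 16702432)) (b (l 16693648) (l 16702208))) (c (l 16695640) (l 16695648))) (a (c (b (l 16711544) (l 16710376)) (b (l 16711008) (l 16709504))) (c (b (l 16688408) (l 16697864)) (b (l 16687880) (l 16696944))))) (b (a (a (l 16688584) (a (l 16677416) (l 16676808))) (c (l 16695552) (l 16695352))) (b (a (c (l 16710392) (l 16709720)) (l 16707896)) (a (c (l 16708568) (l 16718064)) (c (l 16695968) (l 16694912)))))), by decide +kernel⟩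

def k27_pm_022_a : ∃ t, chk3 f_pm_022_a t 38 62 1 = true :=
  ⟨(a (c (c (b (a (l 16710496) (l 16709464)) (a (l 16719992) (l 16719032))) (b (l 16718608) (a (l 16718400) (l 16717392)))) (c (b (l 16717336) (a (l 16716776) (l 16715712))) (b (l 16716016) (a (l 16715128) (l 16713992))))) (c (c (b (l 16717952) (c (l 16728136) (l 16727280))) (b (l 16716640) (a (l 16716400) (l 16715440)))) (c (b (l 16704792) (l 16726848)) (a (l 16721736) (l 16728480))))), by decide +kernel⟩

def k28_pm_022_a : ∃ t, chk3 f_pm_022_a t 38 126 1 = true :=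
  ⟨(c (a (c (a (c (l 16740608) (l 16729144)) (c (l 16739752) (l 16728256))) (a (b (l 16725336) (l 16730008)) (c (l 16727240) (l 16726208)))) (b (c (a (l 16725448) (l 16724632)) (l 16733096)) (c (c (l 14) (l 16739584)) (c (l 16738456) (l 16737328))))) (a (c (a (l 16736184) (b (l 16722408) (l 16726920))) (a (l 16723704) (l 16733072))) (c (a (l 16734152) (l 16733184)) (a (l 16721496) (l 16720448))))), by decide +kernel⟩

def k29_pm_022_a : ∃ t, chk3 f_pm_022_a t 76 127 2 = true :=
  ⟨(b (c (c (a (l 16737528) (l 16741992)) (a (l 16736408) (l 16740824))) (a (c (l 16735288) (l 16734160)) (c (l 16734408) (l 16733240)))) (c (b (c (a (c (l 14) (l 16740976)) (l 14)) (a (c (l 16740376) (l 16739776)) (c (l 16739592) (l 16738968)))) (a (c (a (c (l 14) (b (l 16743136) (a (l 16744504) (l 14)))) (l 14)) (c (b (l 16742232) (a (b (l 16743448) (l 16744072)) (b (l 16743056) (l 16743672)))) (b (l 16741616) (a (l 16743136) (l 16742728))))) (c (l 14) (a (b (l 16741416) (c (a (l 16743096)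 (l 14)) (l 16742328))) (c (l 14) (a (a (l 16741496) (l 16741400)) (l 16742568))))))) (b (a (c (l 16738880) (l 16737688)) (c (a (l 16738328) (l 16737912)) (l 16739408))) (a (a (c (c (l 16744528) (l 16741288)) (b (l 16739776) (l 16740952))) (c (c (b (l 16740880) (l 16742088)) (l 16740856)) (a (l 16740040) (l 16742432)))) (b (a (c (l 16740144) (l 16738864)) (c (l 16739736) (l 16738424))) (c (c (a (l 16741680) (b (l 16740976) (l 16741592))) (a (l 16741032) (l 16740616))) (a (c (l 16740376) (l 16739728)) (c (l 16739952) (l 16739288))))))))), by decide +kernel⟩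

def k30_pm_022_a : ∃ t, chk3 f_pm_022_a t 77 127 2 = true :=
  ⟨(b (c (c (l 14) (a (l 16734792) (l 16734056))) (c (a (l 16733576) (l 16732784)) (a (l 16732352) (l 16731512)))) (c (a (c (l 14) (c (l 14) (b (l 16738208) (a (b (l 16740336) (a (l 16741688) (l 14))) (l 14))))) (l 14)) (b (c (a (l 16737232) (l 16736472)) (a (l 16735928) (l 16735120))) (b (c (a (c (l 16739400) (l 16738728)) (c (l 16738680) (l 16737976))) (a (c (l 16738056) (l 16737384)) (c (l 16737280) (l 16736576)))) (c (a (c (a (l 16740896) (b (l 16740216) (l 16740832))) (a (l 16740216) (l 16739832))) (c (a (b (l 16739856) (l 16740480)) (l 14)) (a (l 16739456) (l 16740408)))) (a (c (a (l 16739536) (l 16739136)) (a (l 16738856) (l 16738448))) (c (a (l 16738752) (l 16738376)) (a (l 16738040) (l 16737656))))))))), by decide +kernel⟩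

def k31_pm_022_a : ∃ t, chk3 f_pm_022_a t 38 127 3 = true :=
  ⟨(a (b (c (a (c (l 16733032) (l 16731904)) (c (l 16732056) (l 16730880))) (a (l 16730200) (l 16734352))) (c (b (a (c (l 16736488) (l 16735288)) (c (l 16735528) (l 16734280))) (a (a (c (l 16739128) (l 16737896)) (c (l 16738640) (l 16737376))) (c (a (l 16738168) (b (l 16737120) (l 16739600))) (a (l 16736880) (l 16736384))))) (a (b (l 16733480) (c (l 16738928) (l 16735056))) (a (c (l 16734472) (l 16733208)) (b (l 16732208) (c (l 16735064) (l 16733744))))))) (b (c (a (c (l 16731128) (l 16729896)) (c (l 16730232) (l 16728952))) (a (l 16728048) (l 16727032))) (c (b (a (c (l 16734624) (l 16733312)) (c (l 16733760) (l 16732400))) (b (c (a (l 16736376) (l 16735528)) (a (l 16735032) (l 16734128))) (c (a (a (l 16737840) (l 16737400)) (a (l 16738288) (a (l 16736688) (l 16736480)))) (a (c (l 16736520) (l 16735832)) (c (l 16735640) (l 16734920)))))) (a (b (l 16733968) (c (b (l 16733688) (l 16734808)) (l 16732888))) (b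 (l 16732976) (c (b (l 16732720) (l 16736472)) (l 16731872))))))), by decide +kernel⟩

def k32_pm_022_a : ∃ t, chk3 f_pm_022_a t 39 14 1 = true :=
  ⟨(b (a (c (b (c (l 16624584) (l 16627424)) (c (l 16640800) (l 16642992))) (b (l 16631256) (l 16645888))) (c (b (l 16622576) (l 16638736)) (b (l 16628416) (l 16643184)))) (c (b (a (c (l 16657728) (l 16659248)) (c (l 16654728) (l 16656440))) (a (c (l 16675216) (l 16676032)) (c (l 16672528) (l 16652480)))) (b (a (l 16661208) (l 16658632)) (a (l 16676976) (l 16674528))))), by decide +kernel⟩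

def k33_pm_022_a : ∃ t, chk3 f_pm_022_a t 39 30 1 = true :=
  ⟨(c (a (b (c (l 16693240) (l 16693296)) (c (l 16706792) (l 16711280))) (b (c (l 16690888) (l 16670008)) (c (l 16699560) (l 16709248)))) (a (b (l 16693168) (c (l 16710440) (l 16709512))) (b (l 16690872) (c (l 16708352) (l 16686384))))), by decide +kernel⟩

def k34_pm_022_a : ∃ t, chk3 f_pm_022_a t 39 62 1 = true :=
  ⟨(c (b (a (c (l 16705648) (l 16704248)) (c (l 16703976) (l 16702464))) (a (c (a (l 16716352) (l 16715536)) (l 16724232)) (c (l 14) (l 16722624)))) (a (c (b (l 16702784) (l 16722336)) (a (l 16727400) (l 16726344))) (c (b (l 16700888) (l 16710096)) (b (l 16699240) (l 16708000))))), by decide +kernel⟩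

def k35_pm_022_a : ∃ t, chk3 f_pm_022_a t 39 126 1 = true :=
  ⟨(c (a (c (c (l 14) (a (l 16725816) (l 14))) (a (c (l 16724672) (l 16723520)) (l 16733784))) (c (l 14) (a (l 16733040) (l 16732344)))) (a (c (a (l 16721776) (l 16720896)) (a (l 16719432) (l 16718464))) (c (a (l 16720064) (l 16719272)) (a (l 16717536) (l 16716648))))), by decide +kernel⟩

def k36_pm_022_a : ∃ t, chk3 f_pm_022_a t 39 127 2 = true :=
  ⟨(b (c (l 14) (a (c (a (l 16732040) (l 16731352)) (a (l 16730720) (l 16729976))) (c (l 14) (a (l 16729280) (l 16728632))))) (a (c (l 14) (b (c (a (l 16735768) (l 14)) (a (l 16734360) (l 16733648))) (b (c (a (c (l 14) (l 16737280)) (l 14)) (a (c (l 16736552) (l 16735824)) (c (l 16735872) (l 16735112)))) (c (a (c (l 14) (a (b (l 16738440) (l 16739064)) (l 14))) (l 14)) (a (c (a (l 16738016) (l 16737664)) (a (l 16737280) (l 16736912))) (c (a (l 16738640) (l 14)) (a (l 16736560) (l 16736224)))))))) (a (c (l 14) (c (l 14) (b (l 16732992) (a (b (l 16735056) (c (l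 14) (l 16735904))) (l 14))))) (l 14)))), by decide +kernel⟩

def k37_pm_022_a : ∃ t, chk3 f_pm_022_a t 39 127 3 = true :=
  ⟨(b (a (c (a (c (l 16729392) (l 16728056)) (c (l 16728592) (l 16727208))) (a (l 16726056) (l 16725128))) (c (c (a (l 16727848) (l 16727152)) (a (l 16726408) (l 16725656))) (a (l 16724248) (l 16723416)))) (a (c (b (c (a (l 16732944) (l 16732176)) (a (l 16731528) (l 16730704))) (b (c (a (l 16734728) (l 16733976)) (a (l 16733272) (l 16732464))) (c (a (c (a (l 16736536) (l 16736160)) (a (l 16735800) (l 16735408))) (c (a (l 16735800) (l 16735448)) (a (l 16735032) (l 16734664)))) (a (c (l 16736120) (l 16734064)) (a (l 16733880) (l 16733496)))))) (a (a (c (b (l 16730392) (l 16732656)) (l 16730088)) (c (b (l 16729944) (l 16732208)) (l 16729616))) (a (c (b (l 16729496) (l 16731776)) (l 16729152)) (c (b (l 16729072) (l 16731360)) (l 16728696))))) (c (b (c (a (l 16731464) (l 16730800)) (a (l 16729936) (l 16729216))) (b (c (a (c (l 16733672) (l 16732888))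 (c (l 16733040) (l 16732232))) (a (l 16731704) (l 16731008))) (c (a (c (a (l 16735104) (l 16734784)) (a (l 16734312) (l 16733968))) (c (a (l 16734472) (l 14)) (a (l 16733648) (l 16733328)))) (a (c (a (l 16733512) (l 16733160)) (a (l 16732720) (l 16732352))) (c (a (l 16732816) (l 16732488)) (a (l 16731992) (l 16731656))))))) (a (a (c (b (l 16728656) (l 16730952)) (l 16733496)) (c (b (l 16728248) (l 16730560)) (l 16733072))) (c (b (l 16727632) (b (l 16729376) (c (l 16732264) (l 16730120)))) (b (l 16726048) (a (l 16728544) (l 16728144)))))))), by decide +kernel⟩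

def k38_pm_022_a : ∃ t, chk3 f_pm_022_a t 20 6 1 = true :=
  ⟨(a (b (a (c (b (c (l 16569968) (l 16582664)) (c (l 16592368) (l 16585328))) (b (l 16571224) (l 16580864))) (c (b (c (l 16655016) (l 16576784)) (b (l 16581856) (l 16582240))) (b (l 16564560) (l 16568056)))) (a (b (c (c (l 16593240) (l 16587488)) (l 16590080)) (c (b (l 16590856) (l 16603264)) (b (l 16597096) (l 16611080)))) (b (c (c (l 16649792) (l 16579488)) (l 16594576)) (c (b (l 16605040) (l 16599712)) (l 16611480))))) (a (b (c (b (c (l 16827840) (l 16570400)) (c (l 16816528) (l 16571048))) (b (l 16578680) (l 16565552))) (b (c (c (l 16807936) (l 16571080)) (l 16586088)) (c (b (l 16638248) (l 16643064)) (l 16608536)))) (a (b (c (b (l 16756416) (l 16707736)) (b (l 16552496) (l 16554424))) (b (c (l 16683064) (l 16568032)) (c (c (l 16900312) (l 16593056)) (l 16595928)))) (b (c (a (b (l 16727600) (l 16697984)) (b (c (l 17018856) (l 16673536)) (c (l 17001216) (l 16671704)))) (a (b (l 16549616) (l 16551248)) (b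 (l 16560928) (l 16561048)))) (c (b (a (l 16692112) (c (l 16985368) (l 16673248))) (a (c (l 16944520) (l 16645872)) (c (l 16972576) (l 16679432)))) (b (a (l 16588048) (l 16587304)) (a (l 16595040) (l 16615312)))))))), by decide +kernel⟩

def k39_pm_022_a : ∃ t, chk3 f_pm_022_a t 40 14 1 = true :=
  ⟨(b (c (a (b (l 16619152) (l 16635600)) (b (l 16615880) (l 16632592))) (b (a (l 16625512) (l 16622608)) (a (l 16640432) (l 16637680)))) (c (a (b (l 16652744) (c (l 16648960) (l 16649960))) (b (l 16650048) (c (l 16691272) (l 16647576)))) (a (b (l 16656024) (l 16672088)) (b (l 16632480) (l 16648744))))), by decide +kernel⟩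

def k40_pm_022_a : ∃ t, chk3 f_pm_022_a t 40 30 1 = true :=
  ⟨(a (c (b (c (l 16667688) (l 16667776)) (c (l 16697736) (l 16707352))) (b (l 16688616) (c (l 16685408) (l 16684328)))) (c (b (c (l 16706992) (l 16665720)) (c (b (l 16721048) (l 16731672)) (l 16684672))) (b (l 16686488) (c (l 16683592) (l 16682400))))), by decide +kernel⟩

def k41_pm_022_a : ∃ t, chk3 f_pm_022_a t 40 62 1 = true :=
  ⟨(b (c (a (c (l 16702472) (l 16700840)) (c (l 16743288) (l 16699416))) (a (l 16708744) (l 16712344))) (c (a (c (l 14) (l 16710704)) (l 14)) (a (c (l 16708496) (l 16706240)) (c (l 16707096) (l 16704656))))), by decide +kernel⟩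

def k42_pm_022_a : ∃ t, chk3 f_pm_022_a t 40 63 1 = true :=
  ⟨(c (b (a (c (l 14) (a (l 16731704) (l 14))) (l 14)) (l 14)) (b (a (c (a (l 16718528) (l 16717840)) (a (l 16715816) (l 16715024))) (c (a (l 16717200) (l 16716608)) (a (l 16714280) (l 16713592)))) (b (a (c (c (a (l 16726504) (l 16725904)) (a (l 16724960) (l 16724312))) (a (l 16722640) (l 16721904))) (c (c (l 14) (a (l 16723712) (l 16723176))) (a (l 16721224) (l 16720600)))) (a (c (b (c (a (l 16730192) (l 14)) (a (l 16728552) (l 16727936))) (b (c (a (c (l 14) (l 16731624)) (l 14)) (a (l 16730352) (c (l 16730192) (l 16729320)))) (c (a (c (l 14) (a (l 16733032) (l 14))) (l 14)) (a (c (a (l 16732176) (l 16731880)) (a (l 16731320) (l 16731008))) (c (a (l 16731592) (l 14)) (a (l 16730704) (l 16730416))))))) (b (c (a (l 16726904) (l 16726232)) (a (l 16725264) (l 16724536))) (a (a (c (b (l 16728872) (l 16730040)) (l 16727760)) (c (b (l 16728528) (l 16732328)) (l 16727392))) (c (a (a (l 16728872) (l 16731336)) (c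 (l 16728920) (l 16728032))) (a (l 16727032) (l 16726688)))))) (c (a (c (l 14) (b (l 16727376) (a (b (l 16729376) (c (l 14) (l 16730144))) (l 14)))) (l 14)) (b (a (c (l 16725616) (l 16723856)) (c (l 16725056) (l 16723232))) (b (c (a (l 16727408) (c (l 16727328) (l 16726400))) (a (l 16725600) (l 16724992))) (a (a (c (c (l 16729232) (l 16728312)) (l 16726944)) (c (c (l 16728952) (l 16728024)) (l 16726624))) (a (c (c (l 16728688) (l 16727744)) (l 16727640)) (c (c (l 14) (l 16727480)) (c (l 16726520) (l 16725560)))))))))))), by decide +kernel⟩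

def k43_pm_022_a : ∃ t, chk3 f_pm_022_a t 41 14 1 = true :=
  ⟨(a (c (b (b (l 16670632) (l 16700232)) (b (c (l 16810656) (l 16627672)) (c (l 16817600) (l 16645528)))) (b (b (l 16619872) (l 16635120)) (b (l 16651072) (l 16667560)))) (b (c (a (b (l 16750912) (l 16756008)) (a (b (l 16797344) (l 16800928)) (b (l 16701040) (c (l 16963240) (l 16695952))))) (a (l 16625648) (a (l 16624848) (b (l 16616440) (l 16631896))))) (a (c (b (l 16763264) (l 16751984)) (b (l 16628416) (l 16645080))) (c (a (b (l 16806576) (l 16751624)) (b (c (l 16962344) (l 16706144)) (c (l 16963464) (l 16718800)))) (a (b (l 16627696) (l 16644432)) (b (l 16648120) (l 16664904))))))), by decide +kernel⟩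

def k44_pm_022_a : ∃ t, chk3 f_pm_022_a t 41 30 1 = true :=
  ⟨(a (c (b (c (l 16827280) (l 16663984)) (c (b (l 16836584) (l 16843896)) (b (l 16678328) (l 16688216)))) (b (l 16684576) (c (l 16703016) (l 16680696)))) (c (a (b (c (l 16906712) (l 16664208)) (c (l 16915664) (l 16686408))) (a (b (c (l 16943456) (l 16706936)) (c (l 16950680) (l 16726896))) (b (c (l 16966888) (l 16734192)) (c (b (l 16971216) (l 16975040)) (b (l 16747752) (b (l 16755280) (l 16739600))))))) (a (b (l 16662296) (l 16701256)) (a (b (l 16661728) (l 16700784)) (b (c (l 16682616) (l 16660896)) (c (l 16701256) (l 16699536))))))), by decide +kernel⟩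

def k45_pm_022_a : ∃ t, chk3 f_pm_022_a t 41 31 1 = true :=
  ⟨(b (c (b (a (c (l 16747240) (l 16698288)) (a (c (l 16924496) (l 16705464)) (a (c (l 16958136) (l 16744176)) (c (c (l 17032360) (l 16926912)) (b (l 16703168) (l 16708896)))))) (l 14)) (a (c (b (l 16696256) (l 16716440)) (b (l 16694144) (l 16703320))) (a (c (l 16716064) (l 16718752)) (a (c (b (l 16695072) (l 14)) (l 16718328)) (c (b (l 16710528) (l 14)) (b (l 16713288) (b (l 16709824) (c (l 14) (l 16724256))))))))) (c (l 14) (a (c (b (a (l 16716080) (l 14)) (l 14)) (b (a (l 16712952) (l 16712376)) (b (a (l 16725272) (c (l 16720448) (l 16718608))) (b (a (c (l 16724552) (l 16722672)) (c (l 14) (l 16722168))) (b (a (c (c (l 14) (l 16725896)) (l 16724448)) (c (l 14) (a (l 16724080) (l 16723840)))) (a (c (c (l 14) (a (l 16727232) (l 14))) (c (a (l 16726256) (l 16726008)) (a (l 16725280) (l 16725016)))) (c (l 14) (a (c (l 16725776) (l 16724768)) (c (l 14) (l 16724536)))))))))) (a (c (l 14) (c (b (l 16712744) (l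 14)) (b (l 16711048) (b (l 16723400) (b (a (l 16721824) (l 16721616)) (a (c (l 14) (a (l 16723768) (l 16723656))) (l 14))))))) (c (l 14) (c (l 14) (b (a (l 16710688) (a (a (a (l 16710480) (a (l 16710464) (l 16710448))) (l 16710408)) (l 16710312))) (a (b (a (l 16717832) (l 16717744)) (l 14)) (l 14))))))))), by decide +kernel⟩

def k46_pm_022_a : ∃ t, chk3 f_pm_022_a t 21 6 1 = true :=
  ⟨(b (a (c (b (a (c (l 17092712) (l 16764056)) (l 17001536)) (a (c (l 17072608) (l 16758616)) (l 16942880))) (b (a (l 16544720) (l 16539792)) (a (l 16545456) (l 16539384)))) (c (b (c (l 17321664) (l 17047824)) (c (l 17295440) (l 17032600))) (b (l 16635968) (l 16680056)))) (a (b (c (a (c (l 17053984) (l 16756160)) (l 16886000)) (a (l 16563448) (l 16558912))) (c (a (c (l 17038072) (l 16757920)) (c (l 17130568) (l 16869224))) (a (l 16591768) (l 16587808)))) (c (b (c (l 17269760) (l 17019176)) (c (l 17245752) (l 17008712))) (b (a (l 16586064) (l 16697768)) (b (l 16651072) (l 16657672)))))),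 by decide +kernel⟩

def k47_pm_022_a : ∃ t, chk3 f_pm_022_a t 21 7 1 = true :=
  ⟨(b (a (b (c (b (c (l 17074992) (l 16817912)) (c (l 17069128) (l 16821520))) (b (l 16611576) (l 16627464))) (c (b (c (l 17064872) (l 16827120)) (c (l 17062432) (l 16793000))) (b (l 16644144) (a (l 16642272) (l 16639912))))) (c (b (c (l 17224736) (l 16960616)) (c (l 17208472) (b (l 17001896) (l 17003744)))) (b (b (l 16665872) (l 16675904)) (b (l 16688072) (a (l 16655752) (l 16747160)))))) (b (a (c (b (c (l 17041088) (a (l 16798072) (l 16890072))) (c (a (l 17025432) (l 17100984)) (a (l 16813496) (l 16901312)))) (b (a (l 16659872) (l 16657944)) (c (a (l 16679152) (l 16702168)) (l 16697072)))) (c (b (c (l 17200544) (l 17007688)) (c (l 17197712) (l 16930216))) (b (c (l 16815512) (l 16654216)) (a (l 16686456) (c (l 16869560) (l 16691968)))))) (c (b (a (c (a (b (l 17030136) (l 17034176)) (l 17104256)) (b (a (l 16827208) (l 16911720)) (l 14))) (c (l 17197216) (a (l 16968616) (l 17055488)))) (a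 (c (a (c (l 17088496) (l 14)) (a (l 17051968) (l 17126216))) (l 14)) (c (b (l 17198432) (l 17200016)) (a (c (l 17003272) (l 14)) (a (l 17009032) (l 17080688)))))) (b (a (c (b (l 16692864) (l 14)) (a (l 16706584) (l 16705544))) (b (c (l 16739872) (l 16688240)) (l 14))) (b (a (c (l 14) (a (b (l 16708136) (l 14)) (l 14))) (l 14)) (l 14)))))), by decide +kernel⟩

def k48_pm_022_a : ∃ t, chk3 f_pm_022_a t 11 6 1 = true :=
  ⟨(a (b (c (a (b (l 17328360) (l 17304672)) (l 17421584)) (a (b (l 16847184) (l 16841992)) (b (l 17007960) (l 16998176)))) (c (a (b (l 17281592) (l 17260168)) (b (l 17385256) (l 17361816))) (a (b (l 16839528) (l 16798912)) (b (l 16990480) (l 16985928))))) (c (b (a (l 17500960) (l 17560840)) (a (l 17451704) (l 17513912))) (b (a (b (l 17131624) (l 17119304)) (l 17221152)) (a (b (l 17108608) (l 17100536)) (l 17198576))))), by decide +kernel⟩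

def k49_pm_022_a : ∃ t, chk3 f_pm_022_a t 11 7 1 = true :=
  ⟨(b (a (c (b (a (l 17115848) (l 17340744)) (a (c (l 17320128) (l 17135696)) (l 17323616))) (b (a (b (l 16845112) (l 16849864)) (l 16922856)) (a (b (l 16856512) (l 16823248)) (b (l 16989576) (l 16994360))))) (c (a (b (l 17418488) (l 17399768)) (l 17470680)) (a (b (l 17033344) (a (l 17072640) (l 17121080))) (b (l 17188320) (l 17186736))))) (a (b (c (a (c (l 17305000) (b (l 17134880) (l 17136920))) (c (l 17388944) (l 17235064))) (a (b (a (l 16840512) (l 16910152)) (c (l 16971968) (l 16765632))) (b (l 16959216) (c (l 17085072) (l 16935728))))) (c (a (b (c (l 17298608) (l 17141344)) (c (l 17296840) (b (l 17146280) (l 17150368)))) (b (l 17307928) (c (l 17375504) (l 17239840)))) (c (b (a (a (l 16953624) (l 17014000)) (l 17093432)) (a (a (a (l 14) (b (l 16981080) (l 16989824))) (b (l 17024256) (l 17031992))) (b (l 17101344) (l 17107432)))) (b (a (b (l 16822544) (l 14)) (a (l 16922592) (l 16978080))) (a (l 14) (a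 (a (l 14) (b (l 16950656) (l 16939720))) (b (l 16990480) (l 16978672)))))))) (c (b (a (l 17385728) (l 17446792)) (a (c (l 17441952) (l 17314120)) (l 17436664))) (b (a (c (l 17175448) (b (l 17031824) (l 17040864))) (l 17191184)) (a (b (c (l 17182928) (a (l 17028360) (l 17075400))) (c (l 17190688) (a (b (l 17039336) (l 17047512)) (l 17088648)))) (b (l 17199528) (c (l 17264472) (l 17108816)))))))), by decide +kernel⟩

def k50_pm_022_a : ∃ t, chk3 f_pm_022_a t 3 1 1 = true :=
  ⟨(b (a (a (b (a (c (l 17703864) (l 17382408)) (l 17597496)) (a (b (l 17531880) (c (l 17662568) (l 17353528))) (b (l 17594048) (l 17575744)))) (b (l 17621264) (a (l 17615240) (l 17623920)))) (a (b (l 17589016) (l 17605984)) (b (l 17513648) (l 17542568)))) (a (b (a (a (b (c (l 17624448) (l 17329952)) (c (l 17581784) (l 17307376))) (b (l 17550000) (l 17521144))) (b (l 17600048) (a (l 17564760) (l 17584168)))) (b (a (a (c (l 17540544) (a (l 17260792) (l 17320976))) (c (l 17599264) (l 17390136))) (c (l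 17635936) (l 17472120))) (a (c (a (b (l 17515792) (l 17503512)) (l 17567352)) (a (b (a (l 17261728) (l 17319368)) (a (c (l 17323464) (b (l 17212696) (l 17221120))) (l 17324872))) (b (l 17386096) (l 17388616)))) (c (l 17606272) (b (l 17465928) (l 17465000)))))) (b (a (b (l 17596328) (l 17580456)) (l 17535568)) (a (b (l 17562064) (c (l 17595784) (l 17493832))) (b (l 17518744) (l 17504176)))))), by decide +kernel⟩

theorem s51_pm_022_a : ∃ t, chk3 f_pm_022_a t 11 3 1 = true := ex3_b k48_pm_022_a k49_pm_022_a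

theorem s52_pm_022_a : ∃ t, chk3 f_pm_022_a t 21 3 1 = true := ex3_b k46_pm_022_a k47_pm_022_a

theorem s53_pm_022_a : ∃ t, chk3 f_pm_022_a t 41 15 1 = true := ex3_b k44_pm_022_a k45_pm_022_a

theorem s54_pm_022_a : ∃ t, chk3 f_pm_022_a t 41 7 1 = true := ex3_b k43_pm_022_a s53_pm_022_a

theorem s55_pm_022_a : ∃ t, chk3 f_pm_022_a t 40 31 1 = true := ex3_b k41_pm_022_a k42_pm_022_a

theorem s56_pm_022_a : ∃ t, chk3 f_pm_022_a t 40 15 1 = true := ex3_b k40_pm_022_a s55_pm_022_a

theorem s57_pm_022_a : ∃ t, chk3 f_pm_022_a t 40 7 1 = true := ex3_b k39_pm_022_a s56_pm_022_a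

theorem s58_pm_022_a : ∃ t, chk3 f_pm_022_a t 20 7 1 = true := ex3_a s57_pm_022_a s54_pm_022_a

theorem s59_pm_022_a : ∃ t, chk3 f_pm_022_a t 20 3 1 = true := ex3_b k38_pm_022_a s58_pm_022_a

theorem s60_pm_022_a : ∃ t, chk3 f_pm_022_a t 10 3 1 = true := ex3_a s59_pm_022_a s52_pm_022_a

theorem s61_pm_022_a : ∃ t, chk3 f_pm_022_a t 5 3 1 = true := ex3_a s60_pm_022_a s51_pm_022_a

theorem s62_pm_022_a : ∃ t, chk3 f_pm_022_a t 39 127 1 = true := ex3_c k36_pm_022_a k37_pm_022_a

theorem s63_pm_022_a : ∃ t, chk3 f_pm_022_a t 39 63 1 = true := ex3_b k35_pm_022_a s62_pm_022_a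

theorem s64_pm_022_a : ∃ t, chk3 f_pm_022_a t 39 31 1 = true := ex3_b k34_pm_022_a s63_pm_022_a

theorem s65_pm_022_a : ∃ t, chk3 f_pm_022_a t 39 15 1 = true := ex3_b k33_pm_022_a s64_pm_022_a

theorem s66_pm_022_a : ∃ t, chk3 f_pm_022_a t 39 7 1 = true := ex3_b k32_pm_022_a s65_pm_022_a

theorem s67_pm_022_a : ∃ t, chk3 f_pm_022_a t 38 127 2 = true := ex3_a k29_pm_022_a k30_pm_022_a

theorem s68_pm_022_a : ∃ t, chk3 f_pm_022_a t 38 127 1 = true := ex3_c s67_pm_022_a k31_pm_022_a

theorem s69_pm_022_a : ∃ t, chk3 f_pm_022_a t 38 63 1 = true := ex3_b k28_pm_022_a s68_pm_022_a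

theorem s70_pm_022_a : ∃ t, chk3 f_pm_022_a t 38 31 1 = true := ex3_b k27_pm_022_a s69_pm_022_a

theorem s71_pm_022_a : ∃ t, chk3 f_pm_022_a t 38 15 1 = true := ex3_b k26_pm_022_a s70_pm_022_a

theorem s72_pm_022_a : ∃ t, chk3 f_pm_022_a t 38 7 1 = true := ex3_b k25_pm_022_a s71_pm_022_a

theorem s73_pm_022_a : ∃ t, chk3 f_pm_022_a t 19 7 1 = true := ex3_a s72_pm_022_a s66_pm_022_a

theorem s74_pm_022_a : ∃ t, chk3 f_pm_022_a t 75 63 1 = true := ex3_c k23_pm_022_a k24_pm_022_a

theorem s75_pm_022_a : ∃ t, chk3 f_pm_022_a t 74 63 1 = true := ex3_c k21_pm_022_a k22_pm_022_a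

theorem s76_pm_022_a : ∃ t, chk3 f_pm_022_a t 37 63 1 = true := ex3_a s75_pm_022_a s74_pm_022_a

theorem s77_pm_022_a : ∃ t, chk3 f_pm_022_a t 37 31 1 = true := ex3_b k20_pm_022_a s76_pm_022_a

theorem s78_pm_022_a : ∃ t, chk3 f_pm_022_a t 37 15 1 = true := ex3_b k19_pm_022_a s77_pm_022_a

theorem s79_pm_022_a : ∃ t, chk3 f_pm_022_a t 37 7 1 = true := ex3_b k18_pm_022_a s78_pm_022_a

theorem s80_pm_022_a : ∃ t, chk3 f_pm_022_a t 36 63 1 = true := ex3_c k16_pm_022_a k17_pm_022_a

theorem s81_pm_022_a : ∃ t, chk3 f_pm_022_a t 36 31 1 = true := ex3_b k15_pm_022_a s80_pm_022_a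

theorem s82_pm_022_a : ∃ t, chk3 f_pm_022_a t 36 15 1 = true := ex3_b k14_pm_022_a s81_pm_022_a

theorem s83_pm_022_a : ∃ t, chk3 f_pm_022_a t 36 14 1 = true := ex3_b k12_pm_022_a k13_pm_022_a

theorem s84_pm_022_a : ∃ t, chk3 f_pm_022_a t 36 7 1 = true := ex3_b s83_pm_022_a s82_pm_022_a

theorem s85_pm_022_a : ∃ t, chk3 f_pm_022_a t 18 7 1 = true := ex3_a s84_pm_022_a s79_pm_022_a

theorem s86_pm_022_a : ∃ t, chk3 f_pm_022_a t 9 7 1 = true := ex3_a s85_pm_022_a s73_pm_022_a

theorem s87_pm_022_a : ∃ t, chk3 f_pm_022_a t 8 14 1 = true := ex3_c k9_pm_022_a k10_pm_022_a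

theorem s88_pm_022_a : ∃ t, chk3 f_pm_022_a t 8 7 1 = true := ex3_b s87_pm_022_a k11_pm_022_a

theorem s89_pm_022_a : ∃ t, chk3 f_pm_022_a t 4 7 1 = true := ex3_a s88_pm_022_a s86_pm_022_a

theorem s90_pm_022_a : ∃ t, chk3 f_pm_022_a t 19 6 1 = true := ex3_a k7_pm_022_a k8_pm_022_a

theorem s91_pm_022_a : ∃ t, chk3 f_pm_022_a t 18 6 1 = true := ex3_a k5_pm_022_a k6_pm_022_a

theorem s92_pm_022_a : ∃ t, chk3 f_pm_022_a t 9 6 1 = true := ex3_a s91_pm_022_a s90_pm_022_a

theorem s93_pm_022_a : ∃ t, chk3 f_pm_022_a t 4 6 1 = true := ex3_a k4_pm_022_a s92_pm_022_a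

theorem s94_pm_022_a : ∃ t, chk3 f_pm_022_a t 4 3 1 = true := ex3_b s93_pm_022_a s89_pm_022_a

theorem s95_pm_022_a : ∃ t, chk3 f_pm_022_a t 2 3 1 = true := ex3_a s94_pm_022_a s61_pm_022_a

theorem s96_pm_022_a : ∃ t, chk3 f_pm_022_a t 10 2 1 = true := ex3_a k1_pm_022_a k2_pm_022_a

theorem s97_pm_022_a : ∃ t, chk3 f_pm_022_a t 5 2 1 = true := ex3_a s96_pm_022_a k3_pm_022_a

theorem s98_pm_022_a : ∃ t, chk3 f_pm_022_a t 2 2 1 = true := ex3_a k0_pm_022_a s97_pm_022_a

theorem s99_pm_022_a : ∃ t, chk3 f_pm_022_a t 2 1 1 = true := ex3_b s98_pm_022_a s95_pm_022_a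

theorem s100_pm_022_a : ∃ t, chk3 f_pm_022_a t 1 1 1 = true := ex3_a s99_pm_022_a k50_pm_022_a

theorem c_pm_022_a : CertF 0 536870912 0 536870912 134217728 67108864 true true false .pp 0 2 2
    ndF0q0 ndF1q2a pcF2 cut_pm_022_a Ext.none :=
  certF2 (fam := true) (s1 := true) (s2 := false) (a := 0) (b := 2) (c := 2) (cn := .pp) (n1 := ndF0q0) (n2 := ndF1q2a) (pc := pcF2) (cut := cut_pm_022_a) (xt := Ext.none) (P1 := 0) (W1 := 536870912) (P2 := 0) (W2 := 536870912) (P3 := 134217728) (W3 := 67108864)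
    rfl (fun _ => rfl) s100_pm_022_a

noncomputable def cut_pm_022_b : Cut := Cut.of [[⟨0, 0, 0, 67108864⟩, ⟨1, 1, 0, 67108864⟩, ⟨2, 1, 0, 67108864⟩], [⟨0, 0, 1, 41943040⟩, ⟨1, 1, 0, 16777216⟩, ⟨2, 1, 1, 41943040⟩]]

noncomputable def f_pm_022_b : ℕ → ℕ → ℕ → ℕ → Bool := onCell 0 536870912 1073741824 536870912 134217728 67108864
    (rowF 1 true true false .pp 0 2 2 (qsf 0 536870912 1239849684 370763052 2) ndF0q0 ndF1q2b pcF2 cut_pm_022_b Ext.none)

def k0_pm_022_b : ∃ t, chk3 f_pm_022_b t 1 1 1 = true :=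
  ⟨(a (b (a (b (l 1) (b (a (b (b (l 1) (b (l 1) (a (b (l 1) (b (l 1) (c (a (l 16914104) (l 1)) (l 16592488)))) (l 1)))) (b (a (b (c (l 1644102391) (l 16544936)) (c (l 17096904) (l 16536112))) (l 1)) (a (c (a (l 17355440) (l 17301144)) (a (l 16675440) (l 16665136))) (c (l 17161000) (l 16655880))))) (l 1)) (b (a (a (c (b (l 17540936) (l 17717744)) (b (l 16936536) (l 17160656))) (c (b (l 17417256) (l 17582184)) (b (l 16887520) (l 17087496)))) (a (c (l 90228654311) (b (l 1) (l 17023648))) (l 1))) (a (c (b (l 17792744) (l 17910656)) (b (a (l 17348456) (l 17259216)) (l 17450256))) (a (c (l 17643800) (l 26877638295)) (a (l 114387730519) (l 1))))))) (l 1)) (a (b (b (a (b (c (l 18056960) (l 17633656)) (l 18019536)) (c (l 66070413159) (b (l 17430968) (l 17611296)))) (a (l 18206456) (l 17959152))) (a (l 18416800) (l 18187208))) (b (a (b (b (l 175591552503) (l 114924947239)) (l 17596688)) (b (l 1) (l 187402649511))) (a (l 17961024) (l 165928431703))))) (b (l 1) (a (b (l 1) (a (l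 207267133799) (b (l 1) (l 204582392839)))) (l 1)))), by decide +kernel⟩

theorem c_pm_022_b : CertF 0 536870912 1239849684 370763052 134217728 67108864 true true false .pp 0 2 2
    ndF0q0 ndF1q2b pcF2 cut_pm_022_b Ext.none :=
  certF1 (fam := true) (s1 := true) (s2 := false) (a := 0) (b := 2) (c := 2) (cn := .pp) (n1 := ndF0q0) (n2 := ndF1q2b) (pc := pcF2) (cut := cut_pm_022_b) (xt := Ext.none) (P1 := 0) (W1 := 536870912) (P2 := 1239849684) (W2 := 370763052) (P3 := 134217728) (W3 := 67108864)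
    rfl (fun _ => rfl) k0_pm_022_b

noncomputable def f_pm_023_a : ℕ → ℕ → ℕ → ℕ → Bool := onCell 0 536870912 0 536870912 134217728 67108864
    (rowF 0 true true false .up 0 2 3 (qsf 0 536870912 0 536870912 3) ndF0q0 ndF1q2a pcF3 Cut.none Ext.none)

def k0_pm_023_a : ∃ t, chk3 f_pm_023_a t 1 1 1 = true :=
  ⟨(a (l 1) (a (b (a (l 1) (l 109557179383)) (b (l 1) (l 1))) (b (a (l 17580672) (l 17474192)) (b (a (l 17661264) (l 17583728)) (a (l 187403337975) (b (l 17645144) (l 97745806951))))))), by decide +kernel⟩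

theorem c_pm_023_a : CertF 0 536870912 0 536870912 134217728 67108864 true true false .up 0 2 3
    ndF0q0 ndF1q2a pcF3 Cut.none Ext.none :=
  certF0 (fam := true) (s1 := true) (s2 := false) (a := 0) (b := 2) (c := 3) (cn := .up) (n1 := ndF0q0) (n2 := ndF1q2a) (pc := pcF3) (cut := Cut.none) (xt := Ext.none) (P1 := 0) (W1 := 536870912) (P2 := 0) (W2 := 536870912) (P3 := 134217728) (W3 := 67108864)
    rfl k0_pm_023_a

noncomputable def f_pm_023_b : ℕ → ℕ → ℕ → ℕ → Bool := onCell 1610612736 536870912 1239849684 370763052 134217728 67108864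
    (rowF 2 true true false .up 0 2 3 (qsf 0 536870912 1239849684 370763052 3) ndF0q0 ndF1q2b pcF3 Cut.none Ext.none)

def k0_pm_023_b : ∃ t, chk3 f_pm_023_b t 1 1 1 = true :=
  ⟨(b (b (a (a (a (l 17673528) (l 17552664)) (a (l 89223079175) (l 306118623479))) (l 2)) (a (a (a (l 17842728) (l 17720352)) (a (l 17582704) (l 17429328))) (a (a (l 17316216) (l 282495843079)) (l 2)))) (a (a (b (l 18135000) (l 18156576)) (b (a (l 17732600) (l 17580920)) (l 17899976))) (a (b (a (l 17422448) (l 17277320)) (a (l 17595640) (l 17439296))) (l 4)))), by decide +kernel⟩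

theorem c_pm_023_b : CertF 0 536870912 1239849684 370763052 134217728 67108864 true true false .up 0 2 3
    ndF0q0 ndF1q2b pcF3 Cut.none Ext.none :=
  certF2 (fam := true) (s1 := true) (s2 := false) (a := 0) (b := 2) (c := 3) (cn := .up) (n1 := ndF0q0) (n2 := ndF1q2b) (pc := pcF3) (cut := Cut.none) (xt := Ext.none) (P1 := 0) (W1 := 536870912) (P2 := 1239849684) (W2 := 370763052) (P3 := 134217728) (W3 := 67108864)
    rfl (fun _ => rfl) k0_pm_023_b

noncomputable def f_pm_033 : ℕ → ℕ → ℕ → ℕ → Bool := onCell 0 536870912 1610612736 536870912 134217728 67108864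
    (rowF 1 true true false .pnn 0 3 3 (qsf 0 536870912 1610612736 536870912 3) ndF0q0 ndF1q3 pcF3 Cut.none Ext.none)

def k0_pm_033 : ∃ t, chk3 f_pm_033 t 1 1 1 = true :=
  ⟨(b (a (b (a (l 202436867575) (l 311958115207)) (b (l 162708201191) (a (l 18062592) (l 17771208)))) (b (l 1) (a (l 288335197543) (l 1)))) (b (a (a (l 18148720) (l 17713392)) (a (l 17562016) (l 275986520759))) (b (l 4) (l 4)))), by decide +kernel⟩

theorem c_pm_033 : CertF 0 536870912 1610612736 536870912 134217728 67108864 true true false .pnn 0 3 3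
    ndF0q0 ndF1q3 pcF3 Cut.none Ext.none :=
  certF1 (fam := true) (s1 := true) (s2 := false) (a := 0) (b := 3) (c := 3) (cn := .pnn) (n1 := ndF0q0) (n2 := ndF1q3) (pc := pcF3) (cut := Cut.none) (xt := Ext.none) (P1 := 0) (W1 := 536870912) (P2 := 1610612736) (W2 := 536870912) (P3 := 134217728) (W3 := 67108864)
    rfl (fun _ => rfl) k0_pm_033

noncomputable def cut_pm_101 : Cut := Cut.of [[⟨0, 1, 0, 67108864⟩, ⟨1, 0, 0, 67108864⟩, ⟨2, 1, 0, 67108864⟩]]

noncomputable def f_pm_101 : ℕ → ℕ → ℕ → ℕ → Bool := onCell 536870912 536870912 0 536870912 134217728 67108864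
    (rowF 2 true true false .npn 1 0 1 (qsf 536870912 536870912 0 536870912 1) ndF0q1 ndF1q0 pcF1 cut_pm_101 Ext.none)

def k0_pm_101 : ∃ t, chk3 f_pm_101 t 1 1 1 = true :=
  ⟨(a (l 3) (b (a (l 3) (b (a (l 3) (a (l 3) (a (l 3) (b (b (l 6) (l 3)) (l 3))))) (l 3))) (l 3))), by decide +kernel⟩

theorem c_pm_101 : CertF 536870912 536870912 0 536870912 134217728 67108864 true true false .npn 1 0 1
    ndF0q1 ndF1q0 pcF1 cut_pm_101 Ext.none :=
  certF2 (fam := true) (s1 := true) (s2 := false) (a := 1) (b := 0) (c := 1) (cn := .npn) (n1 := ndF0q1) (n2 := ndF1q0) (pc := pcF1) (cut := cut_pm_101) (xt := Ext.none) (P1 := 536870912) (W1 := 536870912) (P2 := 0) (W2 := 536870912) (P3 := 134217728) (W3 := 67108864)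
    rfl (fun _ => rfl) k0_pm_101

noncomputable def cut_pm_102 : Cut := Cut.of [[⟨0, 1, 0, 67108864⟩, ⟨1, 0, 0, 67108864⟩, ⟨2, 1, 0, 67108864⟩]]

noncomputable def f_pm_102 : ℕ → ℕ → ℕ → ℕ → Bool := onCell 536870912 536870912 1073741824 536870912 134217728 67108864
    (rowF 1 true true false .npp 1 0 2 (qsf 536870912 536870912 0 536870912 2) ndF0q1 ndF1q0 pcF2 cut_pm_102 Ext.none)

def k0_pm_102 : ∃ t, chk3 f_pm_102 t 1 1 1 = true :=
  ⟨(a (b (b (b (l 3) (a (b (l 3) (a (l 2) (b (l 143513381255) (l 17235848)))) (b (a (a (l 178409789399) (l 154787368967)) (b (l 132238978855) (l 17175984))) (a (b (l 17218112) (l 17134176)) (b (l 17047784) (l 17025856)))))) (b (a (b (b (a (l 2) (l 17215792)) (l 2)) (l 2)) (a (b (b (l 17113480) (b (l 17098216) (l 17088144))) (l 17063184)) (b (b (l 17004192) (l 16983928)) (l 16952576)))) (a (l 2) (l 17114592)))) (a (l 2) (b (l 17033120) (l 2)))) (b (a (b (b (b (l 3) (a (a (l 3) (l 155860832135)) (c (l 130628094311) (l 131164947943)))) (a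 (b (l 71572424759) (l 17115408)) (b (l 17041568) (l 16825384)))) (b (a (l 16880888) (b (b (l 16792600) (l 16829184)) (l 16841040))) (a (l 16796216) (l 16940728)))) (b (a (b (a (b (l 194515324759) (l 16963984)) (b (b (l 3) (l 16917344)) (l 16917440))) (b (b (l 16865792) (l 16893304)) (b (l 16796464) (l 16827696)))) (a (b (b (b (b (l 3) (l 176798445031)) (l 16892072)) (b (l 16831944) (l 16784176))) (b (b (l 16779704) (l 16778808)) (l 16957128))) (b (b (b (l 6) (a (a (l 16804000) (l 6)) (l 6))) (b (a (l 16773056) (l 16763744)) (a (l 16770232) (l 16761920)))) (b (b (a (l 16770944) (l 16763792)) (b (l 16770248) (l 16771920))) (b (l 16787216) (l 16766248)))))) (b (b (b (a (l 16866304) (l 16815800)) (a (l 16907936) (c (l 16996608) (l 17044288)))) (a (l 16971304) (a (l 17022928) (l 16977464)))) (a (l 17089064) (b (a (l 17133000) (l 17142720)) (l 17249696)))))) (a (b (a (l 16933240) (l 17089432)) (l 17116624)) (b (a (l 17376712) (b (l 17364064) (l 17452976))) (a (l 17344576)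 (l 17498112)))))), by decide +kernel⟩

theorem c_pm_102 : CertF 536870912 536870912 0 536870912 134217728 67108864 true true false .npp 1 0 2
    ndF0q1 ndF1q0 pcF2 cut_pm_102 Ext.none :=
  certF1 (fam := true) (s1 := true) (s2 := false) (a := 1) (b := 0) (c := 2) (cn := .npp) (n1 := ndF0q1) (n2 := ndF1q0) (pc := pcF2) (cut := cut_pm_102) (xt := Ext.none) (P1 := 536870912) (W1 := 536870912) (P2 := 0) (W2 := 536870912) (P3 := 134217728) (W3 := 67108864)
    rfl (fun _ => rfl) k0_pm_102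

noncomputable def f_pm_112 : ℕ → ℕ → ℕ → ℕ → Bool := onCell 536870912 536870912 1073741824 536870912 134217728 67108864
    (rowF 1 true true false .dn 1 1 2 (qsf 536870912 536870912 536870912 536870912 2) ndF0q1 ndF1q1 pcF2 Cut.none Ext.none)

def k0_pm_112 : ∃ t, chk3 f_pm_112 t 1 1 1 = true :=
  ⟨(a (b (b (b (l 3) (a (b (l 3) (b (a (l 3) (c (b (l 113449025335) (l 17471320)) (l 109690751863))) (a (c (l 17404456) (l 17309240)) (c (l 17472008) (l 17371152))))) (b (l 1) (b (l 1) (a (l 266323222935) (l 1)))))) (b (a (b (b (a (l 17361696) (l 17421712)) (b (a (l 17367936) (l 17424528)) (b (l 17417896) (b (l 17397792) (l 17397832))))) (l 17576664)) (a (b (b (l 17498472) (b (l 17497024) (l 17491128))) (l 17489872)) (b (l 1) (l 17568976)))) (a (l 17549808) (l 17524568)))) (a (b (a (l 17537872) (l 17517296)) (a (l 17679616) (l 17606376))) (b (l 17520832) (l 17525384)))) (b (a (b (l 1) (b (l 1) (c (l 253975889687) (l 264713112263)))) (l 1)) (a (b (b (l 17624504) (l 17578448))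 (l 17517856)) (b (b (l 1) (l 17672416)) (l 17572424))))), by decide +kernel⟩

theorem c_pm_112 : CertF 536870912 536870912 536870912 536870912 134217728 67108864 true true false .dn 1 1 2
    ndF0q1 ndF1q1 pcF2 Cut.none Ext.none :=
  certF1 (fam := true) (s1 := true) (s2 := false) (a := 1) (b := 1) (c := 2) (cn := .dn) (n1 := ndF0q1) (n2 := ndF1q1) (pc := pcF2) (cut := Cut.none) (xt := Ext.none) (P1 := 536870912) (W1 := 536870912) (P2 := 536870912) (W2 := 536870912) (P3 := 134217728) (W3 := 67108864)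
    rfl (fun _ => rfl) k0_pm_112

noncomputable def f_pm_113 : ℕ → ℕ → ℕ → ℕ → Bool := onCell 536870912 536870912 536870912 536870912 134217728 67108864
    (rowF 0 true true false .nn 1 1 3 (qsf 536870912 536870912 536870912 536870912 3) ndF0q1 ndF1q1 pcF3 Cut.none Ext.none)

def k0_pm_113 : ∃ t, chk3 f_pm_113 t 1 1 1 = true :=
  ⟨(a (b (a (l 1) (l 211562212391)) (a (b (l 228742369175) (a (l 17640480) (l 17574848))) (a (l 144990471735) (l 139621497575)))) (b (a (b (l 202435625223) (l 17433752)) (b (l 17436464) (a (l 17350272) (a (l 17325256) (l 17303648))))) (a (a (l 17413616) (l 17274704)) (b (a (l 17225384) (b (l 17432464) (l 17243360))) (a (b (l 17160464) (a (l 17007456) (l 16988888))) (b (l 17282952) (a (l 17038792) (b (l 16898360) (l 4))))))))), by decide +kernel⟩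

theorem c_pm_113 : CertF 536870912 536870912 536870912 536870912 134217728 67108864 true true false .nn 1 1 3
    ndF0q1 ndF1q1 pcF3 Cut.none Ext.none :=
  certF0 (fam := true) (s1 := true) (s2 := false) (a := 1) (b := 1) (c := 3) (cn := .nn) (n1 := ndF0q1) (n2 := ndF1q1) (pc := pcF3) (cut := Cut.none) (xt := Ext.none) (P1 := 536870912) (W1 := 536870912) (P2 := 536870912) (W2 := 536870912) (P3 := 134217728) (W3 := 67108864)
    rfl k0_pm_113

end Pool.Agent.Strip051.G.I1_8_3_16.Tab.C.FA01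

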