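import Pool.Agent.Strip051.G.I1_8_3_16.Tab

/-! # Certificates F1 (generated) -/

set_option linter.all false
set_option maxRecDepth 100000

namespace Pool.Agent.Strip051.G.I1_8_3_16.Tab.C.FA01

open Pool.Agent.Strip051.PB Pool.Agent.Strip051.PB.T
open Pool.Agent.Strip051.G.I1_8_3_16.Tab

noncomputable def cut_pm_123_a : Cut := Cut.of [[⟨0, 1, 0, 39843005⟩, ⟨1, 1, 0, 39843005⟩, ⟨2, 2, 0, 5814905⟩]]

noncomputable def f_pm_123_a : ℕ → ℕ → ℕ → ℕ → Bool := onCell 1610612736 536870912 0 536870912 134217728 67108864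
    (rowF 2 true true false .npn 1 2 3 (qsf 536870912 536870912 0 536870912 3) ndF0q1 ndF1q2a pcF3 cut_pm_123_a Ext.none)

def k0_pm_123_a : ∃ t, chk3 f_pm_123_a t 1 1 1 = true :=
  ⟨(a (a (b (a (l 1) (l 17608240)) (b (a (l 1) (l 17543176)) (a (b (l 17638528) (l 17697192)) (b (l 17562280) (l 17583248))))) (b (a (b (l 17377656) (l 17416816)) (b (l 17264632) (l 17308400))) (b (a (l 17444592) (l 17338216)) (a (b (l 17469672) (l 17487424)) (b (l 17356752) (l 17370352)))))) (a (b (a (b (a (l 17177904) (l 17115632)) (l 17193200)) (b (a (l 17046688) (l 16972584)) (l 17294488))) (b (a (a (l 17249096) (l 17185352)) (l 17167936)) (a (b (l 17226256) (l 17234376)) (b (l 17172800) (l 17241408))))) (a (a (b (b (l 16944600) (l 16962240)) (b (l 16986112) (b (l 16989584) (l 16994384)))) (b (b (b (l 16959520) (l 16856464)) (a (l 16909744) (l 16875448))) (b (l 17111952) (b (l 16929368) (b (l 16927576) (l 16932808)))))) (a (b (b (a (l 185992484407) (l 4)) (b (l 75934119895) (l 16998568))) (b (a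 (l 17002128) (l 17006728)) (b (l 16865600) (b (l 16951560) (a (l 16885640) (l 16854328)))))) (a (b (b (l 4) (l 95798268439)) (b (a (l 16932880) (l 16897136)) (b (a (l 16903160) (l 16927392)) (b (l 16824328) (a (l 16831176) (l 16851256)))))) (b (l 4) (a (b (l 16938928) (b (b (l 16821464) (l 16890808)) (b (l 16802160) (b (l 16801232) (b (l 16800752) (l 16821800)))))) (b (l 4) (a (b (l 16887336) (b (c (l 16881064) (l 16879416)) (b (l 16790544) (b (l 16789352) (l 16799632))))) (b (a (l 16837400) (l 4)) (b (a (l 16845888) (a (l 16825664) (a (l 16811072) (l 4)))) (l 6)))))))))))), by decide +kernel⟩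

theorem c_pm_123_a : CertF 536870912 536870912 0 536870912 134217728 67108864 true true false .npn 1 2 3
    ndF0q1 ndF1q2a pcF3 cut_pm_123_a Ext.none :=
  certF2 (fam := true) (s1 := true) (s2 := false) (a := 1) (b := 2) (c := 3) (cn := .npn) (n1 := ndF0q1) (n2 := ndF1q2a) (pc := pcF3) (cut := cut_pm_123_a) (xt := Ext.none) (P1 := 536870912) (W1 := 536870912) (P2 := 0) (W2 := 536870912) (P3 := 134217728) (W3 := 67108864)
    rfl (fun _ => rfl) k0_pm_123_a

noncomputable def cut_pm_123_b : Cut := Cut.of [[⟨0, 1, 0, 39843005⟩, ⟨1, 1, 0, 39843005⟩, ⟨2, 2, 0, 5814905⟩]]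

noncomputable def f_pm_123_b : ℕ → ℕ → ℕ → ℕ → Bool := onCell 1610612736 536870912 1239849684 370763052 134217728 67108864
    (rowF 2 true true false .npn 1 2 3 (qsf 536870912 536870912 1239849684 370763052 3) ndF0q1 ndF1q2b pcF3 cut_pm_123_b Ext.none)

def k0_pm_123_b : ∃ t, chk3 f_pm_123_b t 1 1 1 = true :=
  ⟨(a (b (a (l 1) (b (a (b (l 17389480) (l 1)) (b (l 17328736) (l 17329448))) (a (l 1) (l 17643344)))) (l 1)) (a (b (a (b (b (l 17298368) (l 17179192)) (b (l 17239792) (l 17307768))) (b (b (a (l 17025256) (l 16958376)) (l 17087632)) (a (l 17165728) (l 17105472)))) (b (a (l 1) (l 17363152)) (l 1))) (a (b (b (b (a (l 16895800) (l 88819104967)) (l 52849147575)) (a (l 17052080) (l 4))) (l 4)) (l 4)))), by decide +kernel⟩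

theorem c_pm_123_b : CertF 536870912 536870912 1239849684 370763052 134217728 67108864 true true false .npn 1 2 3
    ndF0q1 ndF1q2b pcF3 cut_pm_123_b Ext.none :=
  certF2 (fam := true) (s1 := true) (s2 := false) (a := 1) (b := 2) (c := 3) (cn := .npn) (n1 := ndF0q1) (n2 := ndF1q2b) (pc := pcF3) (cut := cut_pm_123_b) (xt := Ext.none) (P1 := 536870912) (W1 := 536870912) (P2 := 1239849684) (W2 := 370763052) (P3 := 134217728) (W3 := 67108864)
    rfl (fun _ => rfl) k0_pm_123_b

noncomputable def f_pm_133 : ℕ → ℕ → ℕ → ℕ → Bool := onCell 536870912 536870912 1610612736 536870912 134217728 67108864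
    (rowF 0 true true false .dn 1 3 3 (qsf 536870912 536870912 1610612736 536870912 3) ndF0q1 ndF1q3 pcF3 Cut.none Ext.none)

def k0_pm_133 : ∃ t, chk3 f_pm_133 t 1 1 1 = true :=
  ⟨(l 4), by decide +kernel⟩

theorem c_pm_133 : CertF 536870912 536870912 1610612736 536870912 134217728 67108864 true true false .dn 1 3 3
    ndF0q1 ndF1q3 pcF3 Cut.none Ext.none :=
  certF0 (fam := true) (s1 := true) (s2 := false) (a := 1) (b := 3) (c := 3) (cn := .dn) (n1 := ndF0q1) (n2 := ndF1q3) (pc := pcF3) (cut := Cut.none) (xt := Ext.none) (P1 := 536870912) (W1 := 536870912) (P2 := 1610612736) (W2 := 536870912) (P3 := 134217728) (W3 := 67108864)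
    rfl k0_pm_133

noncomputable def cut_pm_202 : Cut := Cut.of [[⟨0, 1, 0, 67108864⟩, ⟨1, 0, 0, 67108864⟩, ⟨2, 1, 0, 67108864⟩]]

noncomputable def f_pm_202 : ℕ → ℕ → ℕ → ℕ → Bool := onCell 0 536870912 1073741824 536870912 134217728 67108864
    (rowF 1 true true false .pp 2 0 2 (qsf 0 536870912 0 536870912 2) ndF0q2 ndF1q0 pcF2 cut_pm_202 Ext.none)

def k0_pm_202 : ∃ t, chk3 f_pm_202 t 2 1 1 = true :=
  ⟨(b (a (b (l 1) (b (b (b (l 1) (a (b (l 1) (b (l 1) (c (a (l 16958576) (l 16949400)) (l 16630920)))) (c (b (a (l 1) (l 16717152)) (b (a (l 16861096) (l 16845688)) (a (l 16936800) (l 16920032)))) (b (l 16640240) (b (l 16593800) (l 16611288)))))) (a (b (c (a (l 17115008) (l 17107320)) (l 16602608)) (l 16995456)) (b (c (l 17087568) (l 16583672)) (l 16978344)))) (b (a (b (l 17157576) (l 17272664)) (l 17213152)) (a (l 17384784) (l 17387512))))) (b (a (l 1) (a (l 1) (b (l 1) (b (l 1) (b (l 1) (b (l 1) (c (l 138545938247) (l 151430804039)))))))) (b (b (b (a (b (l 1) (c (a (l 16603264)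 (l 16593088)) (a (l 16586840) (l 16574864)))) (b (a (c (l 127271649063) (l 16590096)) (c (l 16600568) (l 16579664))) (a (c (l 16583072) (l 16563240)) (c (l 16573584) (l 16552440))))) (b (c (a (a (l 16699256) (l 16680416)) (a (l 16662400) (l 16647296))) (a (l 16617064) (l 16593120))) (a (b (c (l 16816016) (l 16570312)) (a (l 16642496) (l 16630704))) (b (l 16597328) (a (l 16619072) (l 16629016)))))) (a (b (c (l 17051120) (l 16560168)) (l 16951360)) (b (a (l 16689288) (l 16678504)) (l 16922568)))) (b (a (l 17192808) (l 17166168)) (l 17365840))))) (b (a (b (l 17486536) (l 17492752)) (b (l 17499448) (l 17545272))) (a (l 17551152) (l 17705992)))), by decide +kernel⟩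

def k1_pm_202 : ∃ t, chk3 f_pm_202 t 6 4 1 = true :=
  ⟨(a (b (l 1) (b (l 1) (b (b (a (l 1) (a (l 1) (c (b (l 69826436679) (l 137472161879)) (b (l 68215811463) (a (l 16584944) (l 169684407047)))))) (b (a (l 1) (c (l 144988358263) (a (l 16584936) (l 16611496)))) (a (c (l 107944271959) (l 131566558599)) (c (l 184179929687) (l 16584368))))) (b (a (c (b (l 99891204231) (l 143377742423)) (b (l 16588808) (l 16580504))) (c (l 16615304) (a (l 16578264) (l 16584008)))) (a (c (l 186864306215) (l 16587512)) (a (l 16607792) (l 16599256))))))) (b (l 1) (b (b (a (l 1) (b (l 1) (c (a (b (l 1) (l 73047724663)) (c (a (l 156262726455) (l 175053219063)) (l 131029796871))) (a (l 55867859719) (l 115460527303))))) (b (b (a (l 1) (a (c (l 110091795559) (l 16616320)) (c (l 16638424) (l 16626032)))) (c (a (a (l 1) (l 87006349591)) (a (a (l 16628584) (l 16630328)) (l 16642456))) (a (a (l 1) (b (l 1) (l 72510820039))) (a (a (l 114923650295) (l 16639808)) (l 16629872))))) (a (b (a (l 1) (c (l 114923608951)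 (a (l 94522525607) (l 16628128)))) (c (a (l 109554888471) (l 179884989431)) (a (a (l 1) (l 110628636327)) (l 185790593607)))) (c (b (a (l 16628768) (l 16623744)) (l 16656480)) (a (b (l 16638984) (l 16617744)) (l 16683088)))))) (b (b (b (a (c (a (l 16606464) (l 16610384)) (a (a (l 121902912887) (l 16613608)) (l 16603488))) (a (l 16653896) (l 16648160))) (a (a (c (l 16601672) (l 16609592)) (b (l 16628536) (l 16638552))) (b (l 16661920) (l 16661488)))) (a (c (a (l 16620168) (l 16603848)) (b (l 16637160) (l 16594088))) (a (l 16670280) (l 16643808)))) (a (b (c (l 16612496) (l 16590016)) (l 16639584)) (c (l 16700840) (l 16719120))))))), by decide +kernel⟩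

def k2_pm_202 : ∃ t, chk3 f_pm_202 t 6 5 1 = true :=
  ⟨(b (b (b (a (b (a (c (l 16592240) (l 16549568)) (l 16594392)) (a (l 16595528) (l 16566616))) (a (b (l 16593272) (l 16568312)) (l 16706968))) (b (a (l 16602656) (l 16609200)) (a (b (l 16578160) (l 16646256)) (a (l 16754096) (l 16788176))))) (a (b (l 16670208) (l 16900432)) (b (l 16677864) (l 16890616)))) (b (a (l 17138896) (l 17115080)) (a (l 17334104) (l 17307320)))), by decide +kernel⟩

def k3_pm_202 : ∃ t, chk3 f_pm_202 t 7 2 1 = true :=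
  ⟨(b (a (b (a (b (l 1) (b (l 1) (b (l 1) (a (l 1) (c (b (a (l 1) (l 6)) (c (a (b (l 101501960535) (l 149283462423)) (l 200823079895)) (l 149820338663))) (b (l 118144968279) (l 142841011495))))))) (b (l 1) (b (l 6) (b (l 6) (b (l 6) (a (c (l 16690984) (l 16664840)) (l 16673832))))))) (b (b (a (b (c (c (a (b (a (l 1) (l 140156648487)) (a (l 143914724999) (l 16651592))) (a (l 200823062871) (l 16678024))) (a (b (l 102575678231) (l 149820298775)) (l 16669232))) (a (b (l 93448866791) (l 143377841911)) (l 16664552))) (a (c (c (l 16651848) (l 16653056)) (l 16656288)) (c (l 16645040) (l 16651072)))) (a (c (l 16669880) (l 16664224)) (a (l 16674744) (l 16683392)))) (a (b (a (b (l 16658664) (l 16683288)) (a (l 16711520) (l 16719568))) (c (l 16708664) (l 16715808))) (b (a (l 16731784) (l 16706264)) (l 16723048)))) (b (a (b (a (l 16681448) (l 16655216)) (l 16688360)) (a (l 16766808) (l 16762624))) (a (l 16742712) (l 16733672))))) (b (b (l 6) (b (l 6) (b (l 6) (a (a (l 16691304) (l 16709936))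 (l 16738472))))) (b (b (a (a (l 16696536) (l 16714272)) (l 16741488)) (a (b (l 16731560) (l 16692752)) (b (l 16745088) (l 16747448)))) (b (a (l 16788472) (l 16771256)) (b (l 16727264) (l 16725408)))))) (b (b (b (a (b (l 16655624) (l 16652600)) (b (l 16723232) (l 16720880))) (b (a (l 16649864) (l 16718704)) (a (b (l 16648064) (l 16731912)) (l 16886296)))) (a (l 16788928) (l 16839088))) (b (a (l 17099000) (l 17103960)) (a (l 17281896) (l 17268072))))), by decide +kernel⟩

def k4_pm_202 : ∃ t, chk3 f_pm_202 t 3 3 1 = true :=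
  ⟨(b (a (b (l 17476032) (l 17555504)) (a (l 17512656) (l 17503048))) (a (l 17545824) (l 17570000))), by decide +kernel⟩

theorem s5_pm_202 : ∃ t, chk3 f_pm_202 t 6 2 1 = true := ex3_b k1_pm_202 k2_pm_202

theorem s6_pm_202 : ∃ t, chk3 f_pm_202 t 3 2 1 = true := ex3_a s5_pm_202 k3_pm_202

theorem s7_pm_202 : ∃ t, chk3 f_pm_202 t 3 1 1 = true := ex3_b s6_pm_202 k4_pm_202

theorem s8_pm_202 : ∃ t, chk3 f_pm_202 t 1 1 1 = true := ex3_a k0_pm_202 s7_pm_202

theorem c_pm_202 : CertF 0 536870912 0 536870912 134217728 67108864 true true false .pp 2 0 2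
    ndF0q2 ndF1q0 pcF2 cut_pm_202 Ext.none :=
  certF1 (fam := true) (s1 := true) (s2 := false) (a := 2) (b := 0) (c := 2) (cn := .pp) (n1 := ndF0q2) (n2 := ndF1q0) (pc := pcF2) (cut := cut_pm_202) (xt := Ext.none) (P1 := 0) (W1 := 536870912) (P2 := 0) (W2 := 536870912) (P3 := 134217728) (W3 := 67108864)
    rfl (fun _ => rfl) s8_pm_202

noncomputable def f_pm_203 : ℕ → ℕ → ℕ → ℕ → Bool := onCell 0 536870912 1610612736 536870912 134217728 67108864
    (rowF 1 true true false .up 2 0 3 (qsf 0 536870912 0 536870912 3) ndF0q2 ndF1q0 pcF3 Cut.none Ext.none)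

def k0_pm_203 : ∃ t, chk3 f_pm_203 t 1 1 1 = true :=
  ⟨(b (a (b (b (a (l 17353544) (l 17563136)) (a (l 17296976) (l 17475992))) (b (l 33522813847) (l 2))) (b (a (b (l 17766648) (l 17703024)) (l 17853424)) (a (l 2) (l 2)))) (l 2)), by decide +kernel⟩

theorem c_pm_203 : CertF 0 536870912 0 536870912 134217728 67108864 true true false .up 2 0 3
    ndF0q2 ndF1q0 pcF3 Cut.none Ext.none :=
  certF1 (fam := true) (s1 := true) (s2 := false) (a := 2) (b := 0) (c := 3) (cn := .up) (n1 := ndF0q2) (n2 := ndF1q0) (pc := pcF3) (cut := Cut.none) (xt := Ext.none) (P1 := 0) (W1 := 536870912) (P2 := 0) (W2 := 536870912) (P3 := 134217728) (W3 := 67108864)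
    rfl (fun _ => rfl) k0_pm_203

noncomputable def f_pm_213 : ℕ → ℕ → ℕ → ℕ → Bool := onCell 0 536870912 1610612736 536870912 134217728 67108864
    (rowF 1 true true false .pnn 2 1 3 (qsf 0 536870912 536870912 536870912 3) ndF0q2 ndF1q1 pcF3 Cut.none Ext.none)

def k0_pm_213 : ∃ t, chk3 f_pm_213 t 1 1 1 = true :=
  ⟨(a (b (b (b (l 1) (a (l 1) (l 17164808))) (b (l 43722380983) (l 17212424))) (l 4)) (b (b (a (b (l 1) (l 17064608)) (l 17296048)) (b (a (l 17025144) (l 17218352)) (a (l 17021272) (l 17137712)))) (b (b (l 29763714935) (a (l 4) (l 16975824))) (b (a (l 4) (l 16887344)) (l 4))))), by decide +kernel⟩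

theorem c_pm_213 : CertF 0 536870912 536870912 536870912 134217728 67108864 true true false .pnn 2 1 3
    ndF0q2 ndF1q1 pcF3 Cut.none Ext.none :=
  certF1 (fam := true) (s1 := true) (s2 := false) (a := 2) (b := 1) (c := 3) (cn := .pnn) (n1 := ndF0q2) (n2 := ndF1q1) (pc := pcF3) (cut := Cut.none) (xt := Ext.none) (P1 := 0) (W1 := 536870912) (P2 := 536870912) (W2 := 536870912) (P3 := 134217728) (W3 := 67108864)
    rfl (fun _ => rfl) k0_pm_213

noncomputable def f_mm_001 : ℕ → ℕ → ℕ → ℕ → Bool := onCell 0 536870912 0 536870912 134217728 67108864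
    (rowF 0 true false false .up 0 0 1 (qsf 0 536870912 0 536870912 1) ndF0q0 ndF1q0 pcF1 Cut.none Ext.none)

def k0_mm_001 : ∃ t, chk3 f_mm_001 t 1 1 1 = true :=
  ⟨(l 4), by decide +kernel⟩

theorem c_mm_001 : CertF 0 536870912 0 536870912 134217728 67108864 true false false .up 0 0 1
    ndF0q0 ndF1q0 pcF1 Cut.none Ext.none :=
  certF0 (fam := true) (s1 := false) (s2 := false) (a := 0) (b := 0) (c := 1) (cn := .up) (n1 := ndF0q0) (n2 := ndF1q0) (pc := pcF1) (cut := Cut.none) (xt := Ext.none) (P1 := 0) (W1 := 536870912) (P2 := 0) (W2 := 536870912) (P3 := 134217728) (W3 := 67108864)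
    rfl k0_mm_001

noncomputable def f_mm_011 : ℕ → ℕ → ℕ → ℕ → Bool := onCell 0 536870912 536870912 536870912 134217728 67108864
    (rowF 0 true false false .pnn 0 1 1 (qsf 0 536870912 536870912 536870912 1) ndF0q0 ndF1q1 pcF1 Cut.none Ext.none)

def k0_mm_011 : ∃ t, chk3 f_mm_011 t 1 1 1 = true :=
  ⟨(l 4), by decide +kernel⟩

theorem c_mm_011 : CertF 0 536870912 536870912 536870912 134217728 67108864 true false false .pnn 0 1 1
    ndF0q0 ndF1q1 pcF1 Cut.none Ext.none :=
  certF0 (fam := true) (s1 := false) (s2 := false) (a := 0) (b := 1) (c := 1) (cn := .pnn) (n1 := ndF0q0) (n2 := ndF1q1) (pc := pcF1) (cut := Cut.none) (xt := Ext.none) (P1 := 0) (W1 := 536870912) (P2 := 536870912) (W2 := 536870912) (P3 := 134217728) (W3 := 67108864)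
    rfl k0_mm_011

noncomputable def f_mm_012 : ℕ → ℕ → ℕ → ℕ → Bool := onCell 0 536870912 536870912 536870912 134217728 67108864
    (rowF 0 true false false .pnp 0 1 2 (qsf 0 536870912 536870912 536870912 2) ndF0q0 ndF1q1 pcF2 Cut.none Ext.none)

def k0_mm_012 : ∃ t, chk3 f_mm_012 t 1 1 1 = true :=
  ⟨(l 4), by decide +kernel⟩

theorem c_mm_012 : CertF 0 536870912 536870912 536870912 134217728 67108864 true false false .pnp 0 1 2
    ndF0q0 ndF1q1 pcF2 Cut.none Ext.none :=
  certF0 (fam := true) (s1 := false) (s2 := false) (a := 0) (b := 1) (c := 2) (cn := .pnp) (n1 := ndF0q0) (n2 := ndF1q1) (pc := pcF2) (cut := Cut.none) (xt := Ext.none) (P1 := 0) (W1 := 536870912) (P2 := 536870912) (W2 := 536870912) (P3 := 134217728) (W3 := 67108864)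
    rfl k0_mm_012

noncomputable def f_mm_022_a : ℕ → ℕ → ℕ → ℕ → Bool := onCell 0 536870912 0 536870912 134217728 67108864
    (rowF 0 true false false .pp 0 2 2 (qsf 0 536870912 0 536870912 2) ndF0q0 ndF1q2a pcF2 Cut.none Ext.none)

def k0_mm_022_a : ∃ t, chk3 f_mm_022_a t 1 1 1 = true :=
  ⟨(l 5), by decide +kernel⟩

theorem c_mm_022_a : CertF 0 536870912 0 536870912 134217728 67108864 true false false .pp 0 2 2
    ndF0q0 ndF1q2a pcF2 Cut.none Ext.none :=
  certF0 (fam := true) (s1 := false) (s2 := false) (a := 0) (b := 2) (c := 2) (cn := .pp) (n1 := ndF0q0) (n2 := ndF1q2a) (pc := pcF2) (cut := Cut.none) (xt := Ext.none) (P1 := 0) (W1 := 536870912) (P2 := 0) (W2 := 536870912) (P3 := 134217728) (W3 := 67108864)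
    rfl k0_mm_022_a

noncomputable def f_mm_022_b : ℕ → ℕ → ℕ → ℕ → Bool := onCell 0 536870912 1239849684 370763052 134217728 67108864
    (rowF 0 true false false .pp 0 2 2 (qsf 0 536870912 1239849684 370763052 2) ndF0q0 ndF1q2b pcF2 Cut.none Ext.none)

def k0_mm_022_b : ∃ t, chk3 f_mm_022_b t 1 1 1 = true :=
  ⟨(l 5), by decide +kernel⟩

theorem c_mm_022_b : CertF 0 536870912 1239849684 370763052 134217728 67108864 true false false .pp 0 2 2
    ndF0q0 ndF1q2b pcF2 Cut.none Ext.none :=
  certF0 (fam := true) (s1 := false) (s2 := false) (a := 0) (b := 2) (c := 2) (cn := .pp) (n1 := ndF0q0) (n2 := ndF1q2b) (pc := pcF2) (cut := Cut.none) (xt := Ext.none) (P1 := 0) (W1 := 536870912) (P2 := 1239849684) (W2 := 370763052) (P3 := 134217728) (W3 := 67108864)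
    rfl k0_mm_022_b

noncomputable def f_mm_023_a : ℕ → ℕ → ℕ → ℕ → Bool := onCell 0 536870912 0 536870912 134217728 67108864
    (rowF 0 true false false .up 0 2 3 (qsf 0 536870912 0 536870912 3) ndF0q0 ndF1q2a pcF3 Cut.none Ext.none)

def k0_mm_023_a : ∃ t, chk3 f_mm_023_a t 1 1 1 = true :=
  ⟨(l 5), by decide +kernel⟩

theorem c_mm_023_a : CertF 0 536870912 0 536870912 134217728 67108864 true false false .up 0 2 3
    ndF0q0 ndF1q2a pcF3 Cut.none Ext.none :=
  certF0 (fam := true) (s1 := false) (s2 := false) (a := 0) (b := 2) (c := 3) (cn := .up) (n1 := ndF0q0) (n2 := ndF1q2a) (pc := pcF3) (cut := Cut.none) (xt := Ext.none) (P1 := 0) (W1 := 536870912) (P2 := 0) (W2 := 536870912) (P3 := 134217728) (W3 := 67108864)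
    rfl k0_mm_023_a

noncomputable def f_mm_023_b : ℕ → ℕ → ℕ → ℕ → Bool := onCell 0 536870912 1239849684 370763052 134217728 67108864
    (rowF 0 true false false .up 0 2 3 (qsf 0 536870912 1239849684 370763052 3) ndF0q0 ndF1q2b pcF3 Cut.none Ext.none)

def k0_mm_023_b : ∃ t, chk3 f_mm_023_b t 1 1 1 = true :=
  ⟨(l 5), by decide +kernel⟩

theorem c_mm_023_b : CertF 0 536870912 1239849684 370763052 134217728 67108864 true false false .up 0 2 3
    ndF0q0 ndF1q2b pcF3 Cut.none Ext.none :=
  certF0 (fam := true) (s1 := false) (s2 := false) (a := 0) (b := 2) (c := 3) (cn := .up) (n1 := ndF0q0) (n2 := ndF1q2b) (pc := pcF3) (cut := Cut.none) (xt := Ext.none) (P1 := 0) (W1 := 536870912) (P2 := 1239849684) (W2 := 370763052) (P3 := 134217728) (W3 := 67108864)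
    rfl k0_mm_023_b

noncomputable def f_mm_033 : ℕ → ℕ → ℕ → ℕ → Bool := onCell 0 536870912 1610612736 536870912 134217728 67108864
    (rowF 0 true false false .pnn 0 3 3 (qsf 0 536870912 1610612736 536870912 3) ndF0q0 ndF1q3 pcF3 Cut.none Ext.none)

def k0_mm_033 : ∃ t, chk3 f_mm_033 t 1 1 1 = true :=
  ⟨(l 5), by decide +kernel⟩

theorem c_mm_033 : CertF 0 536870912 1610612736 536870912 134217728 67108864 true false false .pnn 0 3 3
    ndF0q0 ndF1q3 pcF3 Cut.none Ext.none :=
  certF0 (fam := true) (s1 := false) (s2 := false) (a := 0) (b := 3) (c := 3) (cn := .pnn) (n1 := ndF0q0) (n2 := ndF1q3) (pc := pcF3) (cut := Cut.none) (xt := Ext.none) (P1 := 0) (W1 := 536870912) (P2 := 1610612736) (W2 := 536870912) (P3 := 134217728) (W3 := 67108864)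
    rfl k0_mm_033

noncomputable def cut_mm_101 : Cut := Cut.of [[⟨0, 1, 0, 67108864⟩, ⟨1, 0, 0, 67108864⟩, ⟨2, 1, 0, 67108864⟩]]

noncomputable def f_mm_101 : ℕ → ℕ → ℕ → ℕ → Bool := onCell 536870912 536870912 0 536870912 134217728 67108864
    (rowF 0 true false false .npn 1 0 1 (qsf 536870912 536870912 0 536870912 1) ndF0q1 ndF1q0 pcF1 cut_mm_101 Ext.none)

def k0_mm_101 : ∃ t, chk3 f_mm_101 t 1 1 1 = true :=
  ⟨(a (l 4) (b (a (l 4) (a (l 4) (b (a (l 4) (b (b (l 6) (l 4)) (l 2))) (l 2)))) (l 4))), by decide +kernel⟩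

theorem c_mm_101 : CertF 536870912 536870912 0 536870912 134217728 67108864 true false false .npn 1 0 1
    ndF0q1 ndF1q0 pcF1 cut_mm_101 Ext.none :=
  certF0 (fam := true) (s1 := false) (s2 := false) (a := 1) (b := 0) (c := 1) (cn := .npn) (n1 := ndF0q1) (n2 := ndF1q0) (pc := pcF1) (cut := cut_mm_101) (xt := Ext.none) (P1 := 536870912) (W1 := 536870912) (P2 := 0) (W2 := 536870912) (P3 := 134217728) (W3 := 67108864)
    rfl k0_mm_101

noncomputable def cut_mm_102 : Cut := Cut.of [[⟨0, 1, 0, 67108864⟩, ⟨1, 0, 0, 67108864⟩, ⟨2, 1, 0, 67108864⟩]]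

noncomputable def f_mm_102 : ℕ → ℕ → ℕ → ℕ → Bool := onCell 536870912 536870912 0 536870912 134217728 67108864
    (rowF 0 true false false .npp 1 0 2 (qsf 536870912 536870912 0 536870912 2) ndF0q1 ndF1q0 pcF2 cut_mm_102 Ext.none)

def k0_mm_102 : ∃ t, chk3 f_mm_102 t 1 1 1 = true :=
  ⟨(a (l 4) (b (a (l 4) (b (a (l 4) (a (l 4) (b (b (l 6) (l 4)) (l 4)))) (l 4))) (l 4))), by decide +kernel⟩

theorem c_mm_102 : CertF 536870912 536870912 0 536870912 134217728 67108864 true false false .npp 1 0 2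
    ndF0q1 ndF1q0 pcF2 cut_mm_102 Ext.none :=
  certF0 (fam := true) (s1 := false) (s2 := false) (a := 1) (b := 0) (c := 2) (cn := .npp) (n1 := ndF0q1) (n2 := ndF1q0) (pc := pcF2) (cut := cut_mm_102) (xt := Ext.none) (P1 := 536870912) (W1 := 536870912) (P2 := 0) (W2 := 536870912) (P3 := 134217728) (W3 := 67108864)
    rfl k0_mm_102

noncomputable def f_mm_112 : ℕ → ℕ → ℕ → ℕ → Bool := onCell 536870912 536870912 536870912 536870912 134217728 67108864
    (rowF 0 true false false .dn 1 1 2 (qsf 536870912 536870912 536870912 536870912 2) ndF0q1 ndF1q1 pcF2 Cut.none Ext.none)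

def k0_mm_112 : ∃ t, chk3 f_mm_112 t 1 1 1 = true :=
  ⟨(l 4), by decide +kernel⟩

theorem c_mm_112 : CertF 536870912 536870912 536870912 536870912 134217728 67108864 true false false .dn 1 1 2
    ndF0q1 ndF1q1 pcF2 Cut.none Ext.none :=
  certF0 (fam := true) (s1 := false) (s2 := false) (a := 1) (b := 1) (c := 2) (cn := .dn) (n1 := ndF0q1) (n2 := ndF1q1) (pc := pcF2) (cut := Cut.none) (xt := Ext.none) (P1 := 536870912) (W1 := 536870912) (P2 := 536870912) (W2 := 536870912) (P3 := 134217728) (W3 := 67108864)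
    rfl k0_mm_112

noncomputable def f_mm_113 : ℕ → ℕ → ℕ → ℕ → Bool := onCell 536870912 536870912 536870912 536870912 134217728 67108864
    (rowF 0 true false false .nn 1 1 3 (qsf 536870912 536870912 536870912 536870912 3) ndF0q1 ndF1q1 pcF3 Cut.none Ext.none)

def k0_mm_113 : ∃ t, chk3 f_mm_113 t 1 1 1 = true :=
  ⟨(l 4), by decide +kernel⟩

theorem c_mm_113 : CertF 536870912 536870912 536870912 536870912 134217728 67108864 true false false .nn 1 1 3
    ndF0q1 ndF1q1 pcF3 Cut.none Ext.none :=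
  certF0 (fam := true) (s1 := false) (s2 := false) (a := 1) (b := 1) (c := 3) (cn := .nn) (n1 := ndF0q1) (n2 := ndF1q1) (pc := pcF3) (cut := Cut.none) (xt := Ext.none) (P1 := 536870912) (W1 := 536870912) (P2 := 536870912) (W2 := 536870912) (P3 := 134217728) (W3 := 67108864)
    rfl k0_mm_113

noncomputable def f_mm_123_a : ℕ → ℕ → ℕ → ℕ → Bool := onCell 536870912 536870912 0 536870912 134217728 67108864
    (rowF 0 true false false .npn 1 2 3 (qsf 536870912 536870912 0 536870912 3) ndF0q1 ndF1q2a pcF3 Cut.none Ext.none)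

def k0_mm_123_a : ∃ t, chk3 f_mm_123_a t 1 1 1 = true :=
  ⟨(l 4), by decide +kernel⟩

theorem c_mm_123_a : CertF 536870912 536870912 0 536870912 134217728 67108864 true false false .npn 1 2 3
    ndF0q1 ndF1q2a pcF3 Cut.none Ext.none :=
  certF0 (fam := true) (s1 := false) (s2 := false) (a := 1) (b := 2) (c := 3) (cn := .npn) (n1 := ndF0q1) (n2 := ndF1q2a) (pc := pcF3) (cut := Cut.none) (xt := Ext.none) (P1 := 536870912) (W1 := 536870912) (P2 := 0) (W2 := 536870912) (P3 := 134217728) (W3 := 67108864)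
    rfl k0_mm_123_a

noncomputable def f_mm_123_b : ℕ → ℕ → ℕ → ℕ → Bool := onCell 536870912 536870912 1239849684 370763052 134217728 67108864
    (rowF 0 true false false .npn 1 2 3 (qsf 536870912 536870912 1239849684 370763052 3) ndF0q1 ndF1q2b pcF3 Cut.none Ext.none)

def k0_mm_123_b : ∃ t, chk3 f_mm_123_b t 1 1 1 = true :=
  ⟨(l 4), by decide +kernel⟩

theorem c_mm_123_b : CertF 536870912 536870912 1239849684 370763052 134217728 67108864 true false false .npn 1 2 3
    ndF0q1 ndF1q2b pcF3 Cut.none Ext.none :=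
  certF0 (fam := true) (s1 := false) (s2 := false) (a := 1) (b := 2) (c := 3) (cn := .npn) (n1 := ndF0q1) (n2 := ndF1q2b) (pc := pcF3) (cut := Cut.none) (xt := Ext.none) (P1 := 536870912) (W1 := 536870912) (P2 := 1239849684) (W2 := 370763052) (P3 := 134217728) (W3 := 67108864)
    rfl k0_mm_123_b

noncomputable def f_mm_133 : ℕ → ℕ → ℕ → ℕ → Bool := onCell 536870912 536870912 1610612736 536870912 134217728 67108864
    (rowF 0 true false false .dn 1 3 3 (qsf 536870912 536870912 1610612736 536870912 3) ndF0q1 ndF1q3 pcF3 Cut.none Ext.none)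

def k0_mm_133 : ∃ t, chk3 f_mm_133 t 1 1 1 = true :=
  ⟨(l 4), by decide +kernel⟩

theorem c_mm_133 : CertF 536870912 536870912 1610612736 536870912 134217728 67108864 true false false .dn 1 3 3
    ndF0q1 ndF1q3 pcF3 Cut.none Ext.none :=
  certF0 (fam := true) (s1 := false) (s2 := false) (a := 1) (b := 3) (c := 3) (cn := .dn) (n1 := ndF0q1) (n2 := ndF1q3) (pc := pcF3) (cut := Cut.none) (xt := Ext.none) (P1 := 536870912) (W1 := 536870912) (P2 := 1610612736) (W2 := 536870912) (P3 := 134217728) (W3 := 67108864)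
    rfl k0_mm_133

noncomputable def cut_mm_202 : Cut := Cut.of [[⟨0, 1, 0, 67108864⟩, ⟨1, 0, 0, 67108864⟩, ⟨2, 1, 0, 67108864⟩]]

noncomputable def f_mm_202 : ℕ → ℕ → ℕ → ℕ → Bool := onCell 0 536870912 0 536870912 134217728 67108864
    (rowF 0 true false false .pp 2 0 2 (qsf 0 536870912 0 536870912 2) ndF0q2 ndF1q0 pcF2 cut_mm_202 Ext.none)

def k0_mm_202 : ∃ t, chk3 f_mm_202 t 2 1 1 = true :=
  ⟨(b (a (b (b (b (a (b (a (c (l 16967536) (l 16616528)) (c (b (l 17017920) (l 17129480)) (l 16625784))) (c (l 17267864) (l 16670664))) (b (c (a (l 17031080) (l 16880344)) (l 16626472)) (l 16787464))) (a (l 17195872) (l 17135672))) (b (l 17326976) (l 17395992))) (b (l 17407560) (l 17348608))) (b (b (b (b (a (b (c (a (l 16797824) (l 16663384)) (l 16665656)) (c (l 16880816) (l 16636944))) (c (b (a (l 16662696) (b (l 16674904) (l 16672048))) (l 16662400)) (b (a (l 16659992) (l 16671240)) (l 16660176)))) (a (c (l 17052504) (l 16625664)) (a (l 16645872) (l 16659040)))) (a (b (l 16947408) (l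 17086648)) (b (l 16751224) (l 16927384)))) (b (a (l 17210896) (l 17080360)) (l 17220688))) (b (a (l 17282656) (l 17166504)) (l 20099760791)))) (b (b (a (l 17268776) (l 17151776)) (a (l 17204072) (l 4))) (l 4))), by decide +kernel⟩

def k1_mm_202 : ∃ t, chk3 f_mm_202 t 6 4 1 = true :=
  ⟨(b (b (a (b (b (c (a (c (l 16684480) (l 16683864)) (b (c (l 16696104) (l 16695480)) (l 16693728))) (a (l 16703248) (b (l 16693912) (l 16691944)))) (c (a (l 16679384) (l 16690640)) (l 16704504))) (a (l 16671912) (l 16705216))) (b (b (a (c (b (a (c (l 16703656) (l 16702976)) (c (l 16708672) (l 16707944))) (l 16704104)) (b (a (l 16701384) (l 16706320)) (l 16702264))) (c (b (a (c (l 16713680) (l 16712896)) (c (b (l 16719112) (l 16718352)) (l 16717896))) (a (l 16711728) (l 16716872))) (b (a (l 16711240) (b (l 16716568) (l 16715912))) (l 16712400)))) (a (c (l 16701472) (l 16699832)) (c (l 16712072) (l 16710384)))) (a (c (l 16696496) (l 16695192)) (b (l 16708656) (l 16706136))))) (a (b (l 16691656) (l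 16701672)) (b (a (l 16690288) (l 16702600)) (l 16734072)))) (b (a (l 16909192) (a (l 16764464) (l 16705608))) (a (l 17020528) (a (l 16904104) (l 4))))), by decide +kernel⟩

def k2_mm_202 : ∃ t, chk3 f_mm_202 t 7 4 1 = true :=
  ⟨(b (a (b (b (a (b (c (b (b (a (c (l 16724296) (l 16723416)) (a (c (l 16728368) (l 16727464)) (l 6))) (a (l 16723192) (l 16728704))) (a (l 16722176) (l 16727752))) (b (a (c (l 16722016) (l 16720760)) (b (c (l 16727800) (l 16726560)) (l 16726664))) (a (l 16720232) (l 16725856)))) (c (a (l 16720184) (l 16725912)) (l 16742360))) (b (a (b (l 6) (c (l 16733688) (l 16731888))) (l 6)) (a (c (l 16731968) (l 16730472)) (b (l 6) (l 16737368))))) (a (b (l 16741016) (l 16717944)) (b (a (l 16729304) (l 16736000)) (l 16751792)))) (a (b (l 16735976) (l 16715072)) (b (c (l 16775984) (l 16775376)) (l 16739480)))) (b (a (b (l 6) (a (b (l 6) (l 16743848)) (l 6))) (l 6)) (a (b (a (l 16739928) (l 4)) (l 4)) (l 4)))) (a (b (a (l 39963240807) (l 4)) (l 4)) (l 4))), by decide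 +kernel⟩

def k3_mm_202 : ∃ t, chk3 f_mm_202 t 3 5 1 = true :=
  ⟨(a (b (a (l 17028584) (l 4)) (l 4)) (l 4)), by decide +kernel⟩

def k4_mm_202 : ∃ t, chk3 f_mm_202 t 3 3 1 = true :=
  ⟨(l 4), by decide +kernel⟩

theorem s5_mm_202 : ∃ t, chk3 f_mm_202 t 3 4 1 = true := ex3_a k1_mm_202 k2_mm_202

theorem s6_mm_202 : ∃ t, chk3 f_mm_202 t 3 2 1 = true := ex3_b s5_mm_202 k3_mm_202

theorem s7_mm_202 : ∃ t, chk3 f_mm_202 t 3 1 1 = true := ex3_b s6_mm_202 k4_mm_202

theorem s8_mm_202 : ∃ t, chk3 f_mm_202 t 1 1 1 = true := ex3_a k0_mm_202 s7_mm_202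

theorem c_mm_202 : CertF 0 536870912 0 536870912 134217728 67108864 true false false .pp 2 0 2
    ndF0q2 ndF1q0 pcF2 cut_mm_202 Ext.none :=
  certF0 (fam := true) (s1 := false) (s2 := false) (a := 2) (b := 0) (c := 2) (cn := .pp) (n1 := ndF0q2) (n2 := ndF1q0) (pc := pcF2) (cut := cut_mm_202) (xt := Ext.none) (P1 := 0) (W1 := 536870912) (P2 := 0) (W2 := 536870912) (P3 := 134217728) (W3 := 67108864)
    rfl s8_mm_202

noncomputable def f_mm_203 : ℕ → ℕ → ℕ → ℕ → Bool := onCell 0 536870912 0 536870912 134217728 67108864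
    (rowF 0 true false false .up 2 0 3 (qsf 0 536870912 0 536870912 3) ndF0q2 ndF1q0 pcF3 Cut.none Ext.none)

def k0_mm_203 : ∃ t, chk3 f_mm_203 t 1 1 1 = true :=
  ⟨(b (l 1) (a (b (b (l 1) (a (l 17209544) (l 4))) (l 4)) (l 4))), by decide +kernel⟩

theorem c_mm_203 : CertF 0 536870912 0 536870912 134217728 67108864 true false false .up 2 0 3
    ndF0q2 ndF1q0 pcF3 Cut.none Ext.none :=
  certF0 (fam := true) (s1 := false) (s2 := false) (a := 2) (b := 0) (c := 3) (cn := .up) (n1 := ndF0q2) (n2 := ndF1q0) (pc := pcF3) (cut := Cut.none) (xt := Ext.none) (P1 := 0) (W1 := 536870912) (P2 := 0) (W2 := 536870912) (P3 := 134217728) (W3 := 67108864)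
    rfl k0_mm_203

noncomputable def f_mm_213 : ℕ → ℕ → ℕ → ℕ → Bool := onCell 0 536870912 536870912 536870912 134217728 67108864
    (rowF 0 true false false .pnn 2 1 3 (qsf 0 536870912 536870912 536870912 3) ndF0q2 ndF1q1 pcF3 Cut.none Ext.none)

def k0_mm_213 : ∃ t, chk3 f_mm_213 t 1 1 1 = true :=
  ⟨(l 4), by decide +kernel⟩

theorem c_mm_213 : CertF 0 536870912 536870912 536870912 134217728 67108864 true false false .pnn 2 1 3
    ndF0q2 ndF1q1 pcF3 Cut.none Ext.none :=
  certF0 (fam := true) (s1 := false) (s2 := false) (a := 2) (b := 1) (c := 3) (cn := .pnn) (n1 := ndF0q2) (n2 := ndF1q1) (pc := pcF3) (cut := Cut.none) (xt := Ext.none) (P1 := 0) (W1 := 536870912) (P2 := 536870912) (W2 := 536870912) (P3 := 134217728) (W3 := 67108864)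
    rfl k0_mm_213

end Pool.Agent.Strip051.G.I1_8_3_16.Tab.C.FA01

namespace Pool.Agent.Strip051.G.I1_8_3_16.Tab.C.FA02

open Pool.Agent.Strip051.PB Pool.Agent.Strip051.PB.T
open Pool.Agent.Strip051.G.I1_8_3_16.Tab

noncomputable def f_pp_001 : ℕ → ℕ → ℕ → ℕ → Bool := onCell 0 536870912 0 536870912 134217728 67108864
    (rowF 0 true true true .up 0 0 1 (qsf 0 536870912 0 536870912 1) ndF0q0 ndF2q0 pcF1 Cut.none Ext.none)

def k0_pp_001 : ∃ t, chk3 f_pp_001 t 1 1 1 = true :=
  ⟨(l 4), by decide +kernel⟩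

theorem c_pp_001 : CertF 0 536870912 0 536870912 134217728 67108864 true true true .up 0 0 1
    ndF0q0 ndF2q0 pcF1 Cut.none Ext.none :=
  certF0 (fam := true) (s1 := true) (s2 := true) (a := 0) (b := 0) (c := 1) (cn := .up) (n1 := ndF0q0) (n2 := ndF2q0) (pc := pcF1) (cut := Cut.none) (xt := Ext.none) (P1 := 0) (W1 := 536870912) (P2 := 0) (W2 := 536870912) (P3 := 134217728) (W3 := 67108864)
    rfl k0_pp_001

noncomputable def f_pp_011 : ℕ → ℕ → ℕ → ℕ → Bool := onCell 0 536870912 536870912 536870912 134217728 67108864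
    (rowF 0 true true true .pnn 0 1 1 (qsf 0 536870912 536870912 536870912 1) ndF0q0 ndF2q1 pcF1 Cut.none Ext.none)

def k0_pp_011 : ∃ t, chk3 f_pp_011 t 1 1 1 = true :=
  ⟨(l 4), by decide +kernel⟩

theorem c_pp_011 : CertF 0 536870912 536870912 536870912 134217728 67108864 true true true .pnn 0 1 1
    ndF0q0 ndF2q1 pcF1 Cut.none Ext.none :=
  certF0 (fam := true) (s1 := true) (s2 := true) (a := 0) (b := 1) (c := 1) (cn := .pnn) (n1 := ndF0q0) (n2 := ndF2q1) (pc := pcF1) (cut := Cut.none) (xt := Ext.none) (P1 := 0) (W1 := 536870912) (P2 := 536870912) (W2 := 536870912) (P3 := 134217728) (W3 := 67108864)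
    rfl k0_pp_011

noncomputable def f_pp_012 : ℕ → ℕ → ℕ → ℕ → Bool := onCell 0 536870912 536870912 536870912 134217728 67108864
    (rowF 0 true true true .pnp 0 1 2 (qsf 0 536870912 536870912 536870912 2) ndF0q0 ndF2q1 pcF2 Cut.none Ext.none)

def k0_pp_012 : ∃ t, chk3 f_pp_012 t 1 1 1 = true :=
  ⟨(l 4), by decide +kernel⟩

theorem c_pp_012 : CertF 0 536870912 536870912 536870912 134217728 67108864 true true true .pnp 0 1 2
    ndF0q0 ndF2q1 pcF2 Cut.none Ext.none :=
  certF0 (fam := true) (s1 := true) (s2 := true) (a := 0) (b := 1) (c := 2) (cn := .pnp) (n1 := ndF0q0) (n2 := ndF2q1) (pc := pcF2) (cut := Cut.none) (xt := Ext.none) (P1 := 0) (W1 := 536870912) (P2 := 536870912) (W2 := 536870912) (P3 := 134217728) (W3 := 67108864)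
    rfl k0_pp_012

noncomputable def cut_pp_022_a : Cut := Cut.of [[⟨0, 0, 0, 67108864⟩, ⟨1, 1, 0, 67108864⟩, ⟨2, 1, 0, 67108864⟩]]

noncomputable def f_pp_022_a : ℕ → ℕ → ℕ → ℕ → Bool := onCell 0 536870912 0 536870912 134217728 67108864
    (rowF 0 true true true .pp 0 2 2 (qsf 0 536870912 0 536870912 2) ndF0q0 ndF2q2a pcF2 cut_pp_022_a Ext.none)

def k0_pp_022_a : ∃ t, chk3 f_pp_022_a t 1 1 1 = true :=
  ⟨(a (a (b (l 4) (b (l 4) (a (b (l 4) (a (b (l 4) (l 6)) (l 4))) (l 4)))) (l 4)) (l 4)), by decide +kernel⟩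

theorem c_pp_022_a : CertF 0 536870912 0 536870912 134217728 67108864 true true true .pp 0 2 2
    ndF0q0 ndF2q2a pcF2 cut_pp_022_a Ext.none :=
  certF0 (fam := true) (s1 := true) (s2 := true) (a := 0) (b := 2) (c := 2) (cn := .pp) (n1 := ndF0q0) (n2 := ndF2q2a) (pc := pcF2) (cut := cut_pp_022_a) (xt := Ext.none) (P1 := 0) (W1 := 536870912) (P2 := 0) (W2 := 536870912) (P3 := 134217728) (W3 := 67108864)
    rfl k0_pp_022_a

noncomputable def cut_pp_022_b : Cut := Cut.of [[⟨0, 0, 0, 67108864⟩, ⟨1, 1, 0, 67108864⟩, ⟨2, 1, 0, 67108864⟩]]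

noncomputable def f_pp_022_b : ℕ → ℕ → ℕ → ℕ → Bool := onCell 0 536870912 1239849684 370763052 134217728 67108864
    (rowF 0 true true true .pp 0 2 2 (qsf 0 536870912 1239849684 370763052 2) ndF0q0 ndF2q2b pcF2 cut_pp_022_b Ext.none)

def k0_pp_022_b : ∃ t, chk3 f_pp_022_b t 1 1 1 = true :=
  ⟨(a (b (l 4) (l 4)) (l 4)), by decide +kernel⟩

theorem c_pp_022_b : CertF 0 536870912 1239849684 370763052 134217728 67108864 true true true .pp 0 2 2
    ndF0q0 ndF2q2b pcF2 cut_pp_022_b Ext.none :=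
  certF0 (fam := true) (s1 := true) (s2 := true) (a := 0) (b := 2) (c := 2) (cn := .pp) (n1 := ndF0q0) (n2 := ndF2q2b) (pc := pcF2) (cut := cut_pp_022_b) (xt := Ext.none) (P1 := 0) (W1 := 536870912) (P2 := 1239849684) (W2 := 370763052) (P3 := 134217728) (W3 := 67108864)
    rfl k0_pp_022_b

noncomputable def f_pp_023_a : ℕ → ℕ → ℕ → ℕ → Bool := onCell 1610612736 536870912 0 536870912 134217728 67108864
    (rowF 2 true true true .up 0 2 3 (qsf 0 536870912 0 536870912 3) ndF0q0 ndF2q2a pcF3 Cut.none Ext.none)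

def k0_pp_023_a : ∃ t, chk3 f_pp_023_a t 1 1 1 = true :=
  ⟨(l 4), by decide +kernel⟩

theorem c_pp_023_a : CertF 0 536870912 0 536870912 134217728 67108864 true true true .up 0 2 3
    ndF0q0 ndF2q2a pcF3 Cut.none Ext.none :=
  certF2 (fam := true) (s1 := true) (s2 := true) (a := 0) (b := 2) (c := 3) (cn := .up) (n1 := ndF0q0) (n2 := ndF2q2a) (pc := pcF3) (cut := Cut.none) (xt := Ext.none) (P1 := 0) (W1 := 536870912) (P2 := 0) (W2 := 536870912) (P3 := 134217728) (W3 := 67108864)
    rfl (fun _ => rfl) k0_pp_023_a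

noncomputable def f_pp_023_b : ℕ → ℕ → ℕ → ℕ → Bool := onCell 1610612736 536870912 1239849684 370763052 134217728 67108864
    (rowF 2 true true true .up 0 2 3 (qsf 0 536870912 1239849684 370763052 3) ndF0q0 ndF2q2b pcF3 Cut.none Ext.none)

def k0_pp_023_b : ∃ t, chk3 f_pp_023_b t 1 1 1 = true :=
  ⟨(l 4), by decide +kernel⟩

theorem c_pp_023_b : CertF 0 536870912 1239849684 370763052 134217728 67108864 true true true .up 0 2 3
    ndF0q0 ndF2q2b pcF3 Cut.none Ext.none :=
  certF2 (fam := true) (s1 := true) (s2 := true) (a := 0) (b := 2) (c := 3) (cn := .up) (n1 := ndF0q0) (n2 := ndF2q2b) (pc := pcF3) (cut := Cut.none) (xt := Ext.none) (P1 := 0) (W1 := 536870912) (P2 := 1239849684) (W2 := 370763052) (P3 := 134217728) (W3 := 67108864)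
    rfl (fun _ => rfl) k0_pp_023_b

noncomputable def f_pp_033 : ℕ → ℕ → ℕ → ℕ → Bool := onCell 0 536870912 1610612736 536870912 134217728 67108864
    (rowF 0 true true true .pnn 0 3 3 (qsf 0 536870912 1610612736 536870912 3) ndF0q0 ndF2q3 pcF3 Cut.none Ext.none)

def k0_pp_033 : ∃ t, chk3 f_pp_033 t 1 1 1 = true :=
  ⟨(l 4), by decide +kernel⟩

theorem c_pp_033 : CertF 0 536870912 1610612736 536870912 134217728 67108864 true true true .pnn 0 3 3
    ndF0q0 ndF2q3 pcF3 Cut.none Ext.none :=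
  certF0 (fam := true) (s1 := true) (s2 := true) (a := 0) (b := 3) (c := 3) (cn := .pnn) (n1 := ndF0q0) (n2 := ndF2q3) (pc := pcF3) (cut := Cut.none) (xt := Ext.none) (P1 := 0) (W1 := 536870912) (P2 := 1610612736) (W2 := 536870912) (P3 := 134217728) (W3 := 67108864)
    rfl k0_pp_033

noncomputable def f_pp_101 : ℕ → ℕ → ℕ → ℕ → Bool := onCell 536870912 536870912 0 536870912 134217728 67108864
    (rowF 0 true true true .npn 1 0 1 (qsf 536870912 536870912 0 536870912 1) ndF0q1 ndF2q0 pcF1 Cut.none Ext.none)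

def k0_pp_101 : ∃ t, chk3 f_pp_101 t 1 1 1 = true :=
  ⟨(l 5), by decide +kernel⟩

theorem c_pp_101 : CertF 536870912 536870912 0 536870912 134217728 67108864 true true true .npn 1 0 1
    ndF0q1 ndF2q0 pcF1 Cut.none Ext.none :=
  certF0 (fam := true) (s1 := true) (s2 := true) (a := 1) (b := 0) (c := 1) (cn := .npn) (n1 := ndF0q1) (n2 := ndF2q0) (pc := pcF1) (cut := Cut.none) (xt := Ext.none) (P1 := 536870912) (W1 := 536870912) (P2 := 0) (W2 := 536870912) (P3 := 134217728) (W3 := 67108864)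
    rfl k0_pp_101

noncomputable def f_pp_102 : ℕ → ℕ → ℕ → ℕ → Bool := onCell 536870912 536870912 0 536870912 134217728 67108864
    (rowF 0 true true true .npp 1 0 2 (qsf 536870912 536870912 0 536870912 2) ndF0q1 ndF2q0 pcF2 Cut.none Ext.none)

def k0_pp_102 : ∃ t, chk3 f_pp_102 t 1 1 1 = true :=
  ⟨(l 5), by decide +kernel⟩

theorem c_pp_102 : CertF 536870912 536870912 0 536870912 134217728 67108864 true true true .npp 1 0 2
    ndF0q1 ndF2q0 pcF2 Cut.none Ext.none :=
  certF0 (fam := true) (s1 := true) (s2 := true) (a := 1) (b := 0) (c := 2) (cn := .npp) (n1 := ndF0q1) (n2 := ndF2q0) (pc := pcF2) (cut := Cut.none) (xt := Ext.none) (P1 := 536870912) (W1 := 536870912) (P2 := 0) (W2 := 536870912) (P3 := 134217728) (W3 := 67108864)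
    rfl k0_pp_102

noncomputable def f_pp_112 : ℕ → ℕ → ℕ → ℕ → Bool := onCell 536870912 536870912 536870912 536870912 134217728 67108864
    (rowF 0 true true true .dn 1 1 2 (qsf 536870912 536870912 536870912 536870912 2) ndF0q1 ndF2q1 pcF2 Cut.none Ext.none)

def k0_pp_112 : ∃ t, chk3 f_pp_112 t 1 1 1 = true :=
  ⟨(l 4), by decide +kernel⟩

theorem c_pp_112 : CertF 536870912 536870912 536870912 536870912 134217728 67108864 true true true .dn 1 1 2
    ndF0q1 ndF2q1 pcF2 Cut.none Ext.none :=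
  certF0 (fam := true) (s1 := true) (s2 := true) (a := 1) (b := 1) (c := 2) (cn := .dn) (n1 := ndF0q1) (n2 := ndF2q1) (pc := pcF2) (cut := Cut.none) (xt := Ext.none) (P1 := 536870912) (W1 := 536870912) (P2 := 536870912) (W2 := 536870912) (P3 := 134217728) (W3 := 67108864)
    rfl k0_pp_112

noncomputable def f_pp_113 : ℕ → ℕ → ℕ → ℕ → Bool := onCell 536870912 536870912 536870912 536870912 134217728 67108864
    (rowF 0 true true true .nn 1 1 3 (qsf 536870912 536870912 536870912 536870912 3) ndF0q1 ndF2q1 pcF3 Cut.none Ext.none)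

def k0_pp_113 : ∃ t, chk3 f_pp_113 t 1 1 1 = true :=
  ⟨(l 4), by decide +kernel⟩

theorem c_pp_113 : CertF 536870912 536870912 536870912 536870912 134217728 67108864 true true true .nn 1 1 3
    ndF0q1 ndF2q1 pcF3 Cut.none Ext.none :=
  certF0 (fam := true) (s1 := true) (s2 := true) (a := 1) (b := 1) (c := 3) (cn := .nn) (n1 := ndF0q1) (n2 := ndF2q1) (pc := pcF3) (cut := Cut.none) (xt := Ext.none) (P1 := 536870912) (W1 := 536870912) (P2 := 536870912) (W2 := 536870912) (P3 := 134217728) (W3 := 67108864)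
    rfl k0_pp_113

noncomputable def f_pp_123_a : ℕ → ℕ → ℕ → ℕ → Bool := onCell 536870912 536870912 0 536870912 134217728 67108864
    (rowF 0 true true true .npn 1 2 3 (qsf 536870912 536870912 0 536870912 3) ndF0q1 ndF2q2a pcF3 Cut.none Ext.none)

def k0_pp_123_a : ∃ t, chk3 f_pp_123_a t 1 1 1 = true :=
  ⟨(l 4), by decide +kernel⟩

theorem c_pp_123_a : CertF 536870912 536870912 0 536870912 134217728 67108864 true true true .npn 1 2 3
    ndF0q1 ndF2q2a pcF3 Cut.none Ext.none :=
  certF0 (fam := true) (s1 := true) (s2 := true) (a := 1) (b := 2) (c := 3) (cn := .npn) (n1 := ndF0q1) (n2 := ndF2q2a) (pc := pcF3) (cut := Cut.none) (xt := Ext.none) (P1 := 536870912) (W1 := 536870912) (P2 := 0) (W2 := 536870912) (P3 := 134217728) (W3 := 67108864)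
    rfl k0_pp_123_a

noncomputable def f_pp_123_b : ℕ → ℕ → ℕ → ℕ → Bool := onCell 536870912 536870912 1239849684 370763052 134217728 67108864
    (rowF 0 true true true .npn 1 2 3 (qsf 536870912 536870912 1239849684 370763052 3) ndF0q1 ndF2q2b pcF3 Cut.none Ext.none)

def k0_pp_123_b : ∃ t, chk3 f_pp_123_b t 1 1 1 = true :=
  ⟨(l 4), by decide +kernel⟩

theorem c_pp_123_b : CertF 536870912 536870912 1239849684 370763052 134217728 67108864 true true true .npn 1 2 3
    ndF0q1 ndF2q2b pcF3 Cut.none Ext.none :=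
  certF0 (fam := true) (s1 := true) (s2 := true) (a := 1) (b := 2) (c := 3) (cn := .npn) (n1 := ndF0q1) (n2 := ndF2q2b) (pc := pcF3) (cut := Cut.none) (xt := Ext.none) (P1 := 536870912) (W1 := 536870912) (P2 := 1239849684) (W2 := 370763052) (P3 := 134217728) (W3 := 67108864)
    rfl k0_pp_123_b

noncomputable def f_pp_133 : ℕ → ℕ → ℕ → ℕ → Bool := onCell 536870912 536870912 1610612736 536870912 134217728 67108864
    (rowF 0 true true true .dn 1 3 3 (qsf 536870912 536870912 1610612736 536870912 3) ndF0q1 ndF2q3 pcF3 Cut.none Ext.none)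

def k0_pp_133 : ∃ t, chk3 f_pp_133 t 1 1 1 = true :=
  ⟨(l 4), by decide +kernel⟩

theorem c_pp_133 : CertF 536870912 536870912 1610612736 536870912 134217728 67108864 true true true .dn 1 3 3
    ndF0q1 ndF2q3 pcF3 Cut.none Ext.none :=
  certF0 (fam := true) (s1 := true) (s2 := true) (a := 1) (b := 3) (c := 3) (cn := .dn) (n1 := ndF0q1) (n2 := ndF2q3) (pc := pcF3) (cut := Cut.none) (xt := Ext.none) (P1 := 536870912) (W1 := 536870912) (P2 := 1610612736) (W2 := 536870912) (P3 := 134217728) (W3 := 67108864)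
    rfl k0_pp_133

noncomputable def f_pp_202 : ℕ → ℕ → ℕ → ℕ → Bool := onCell 0 536870912 0 536870912 134217728 67108864
    (rowF 0 true true true .pp 2 0 2 (qsf 0 536870912 0 536870912 2) ndF0q2 ndF2q0 pcF2 Cut.none Ext.none)

def k0_pp_202 : ∃ t, chk3 f_pp_202 t 1 1 1 = true :=
  ⟨(l 5), by decide +kernel⟩

theorem c_pp_202 : CertF 0 536870912 0 536870912 134217728 67108864 true true true .pp 2 0 2
    ndF0q2 ndF2q0 pcF2 Cut.none Ext.none :=
  certF0 (fam := true) (s1 := true) (s2 := true) (a := 2) (b := 0) (c := 2) (cn := .pp) (n1 := ndF0q2) (n2 := ndF2q0) (pc := pcF2) (cut := Cut.none) (xt := Ext.none) (P1 := 0) (W1 := 536870912) (P2 := 0) (W2 := 536870912) (P3 := 134217728) (W3 := 67108864)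
    rfl k0_pp_202

noncomputable def f_pp_203 : ℕ → ℕ → ℕ → ℕ → Bool := onCell 0 536870912 0 536870912 134217728 67108864
    (rowF 0 true true true .up 2 0 3 (qsf 0 536870912 0 536870912 3) ndF0q2 ndF2q0 pcF3 Cut.none Ext.none)

def k0_pp_203 : ∃ t, chk3 f_pp_203 t 1 1 1 = true :=
  ⟨(l 5), by decide +kernel⟩

theorem c_pp_203 : CertF 0 536870912 0 536870912 134217728 67108864 true true true .up 2 0 3
    ndF0q2 ndF2q0 pcF3 Cut.none Ext.none :=
  certF0 (fam := true) (s1 := true) (s2 := true) (a := 2) (b := 0) (c := 3) (cn := .up) (n1 := ndF0q2) (n2 := ndF2q0) (pc := pcF3) (cut := Cut.none) (xt := Ext.none) (P1 := 0) (W1 := 536870912) (P2 := 0) (W2 := 536870912) (P3 := 134217728) (W3 := 67108864)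
    rfl k0_pp_203

noncomputable def f_pp_213 : ℕ → ℕ → ℕ → ℕ → Bool := onCell 0 536870912 536870912 536870912 134217728 67108864
    (rowF 0 true true true .pnn 2 1 3 (qsf 0 536870912 536870912 536870912 3) ndF0q2 ndF2q1 pcF3 Cut.none Ext.none)

def k0_pp_213 : ∃ t, chk3 f_pp_213 t 1 1 1 = true :=
  ⟨(l 4), by decide +kernel⟩

theorem c_pp_213 : CertF 0 536870912 536870912 536870912 134217728 67108864 true true true .pnn 2 1 3
    ndF0q2 ndF2q1 pcF3 Cut.none Ext.none :=
  certF0 (fam := true) (s1 := true) (s2 := true) (a := 2) (b := 1) (c := 3) (cn := .pnn) (n1 := ndF0q2) (n2 := ndF2q1) (pc := pcF3) (cut := Cut.none) (xt := Ext.none) (P1 := 0) (W1 := 536870912) (P2 := 536870912) (W2 := 536870912) (P3 := 134217728) (W3 := 67108864)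
    rfl k0_pp_213

noncomputable def f_pm_001 : ℕ → ℕ → ℕ → ℕ → Bool := onCell 0 536870912 536870912 536870912 134217728 67108864
    (rowF 1 true true false .up 0 0 1 (qsf 0 536870912 0 536870912 1) ndF0q0 ndF2q0 pcF1 Cut.none Ext.none)

def k0_pm_001 : ∃ t, chk3 f_pm_001 t 1 1 1 = true :=
  ⟨(b (l 3) (l 3)), by decide +kernel⟩

theorem c_pm_001 : CertF 0 536870912 0 536870912 134217728 67108864 true true false .up 0 0 1
    ndF0q0 ndF2q0 pcF1 Cut.none Ext.none :=
  certF1 (fam := true) (s1 := true) (s2 := false) (a := 0) (b := 0) (c := 1) (cn := .up) (n1 := ndF0q0) (n2 := ndF2q0) (pc := pcF1) (cut := Cut.none) (xt := Ext.none) (P1 := 0) (W1 := 536870912) (P2 := 0) (W2 := 536870912) (P3 := 134217728) (W3 := 67108864)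
    rfl (fun _ => rfl) k0_pm_001

noncomputable def f_pm_011 : ℕ → ℕ → ℕ → ℕ → Bool := onCell 0 536870912 536870912 536870912 134217728 67108864
    (rowF 1 true true false .pnn 0 1 1 (qsf 0 536870912 536870912 536870912 1) ndF0q0 ndF2q1 pcF1 Cut.none Ext.none)

def k0_pm_011 : ∃ t, chk3 f_pm_011 t 1 1 1 = true :=
  ⟨(b (l 3) (l 3)), by decide +kernel⟩

theorem c_pm_011 : CertF 0 536870912 536870912 536870912 134217728 67108864 true true false .pnn 0 1 1
    ndF0q0 ndF2q1 pcF1 Cut.none Ext.none :=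
  certF1 (fam := true) (s1 := true) (s2 := false) (a := 0) (b := 1) (c := 1) (cn := .pnn) (n1 := ndF0q0) (n2 := ndF2q1) (pc := pcF1) (cut := Cut.none) (xt := Ext.none) (P1 := 0) (W1 := 536870912) (P2 := 536870912) (W2 := 536870912) (P3 := 134217728) (W3 := 67108864)
    rfl (fun _ => rfl) k0_pm_011

noncomputable def f_pm_012 : ℕ → ℕ → ℕ → ℕ → Bool := onCell 1073741824 536870912 536870912 536870912 134217728 67108864
    (rowF 2 true true false .pnp 0 1 2 (qsf 0 536870912 536870912 536870912 2) ndF0q0 ndF2q1 pcF2 Cut.none Ext.none)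

def k0_pm_012 : ∃ t, chk3 f_pm_012 t 2 2 1 = true :=
  ⟨(a (b (a (a (a (l 3) (b (l 17615072) (l 97879839335))) (b (a (l 17653496) (l 17687648)) (a (l 17615784) (l 17660280)))) (a (a (b (l 17716584) (l 17696272)) (b (l 2) (l 17729456))) (b (l 2) (l 17775992)))) (a (a (b (l 3) (l 3)) (b (a (l 89289902023) (l 17631328)) (c (a (l 17611696) (l 17673344)) (a (l 77478533399) (l 17498528))))) (a (b (l 17699416) (a (l 17646232) (l 17699104))) (b (l 17776920) (a (l 17749616) (l 17797336)))))) (a (b (a (a (l 17817272) (l 2)) (l 2)) (a (a (b (l 17830960) (l 17843184)) (b (l 17863632) (l 17885872))) (l 17921184))) (b (l 2) (a (l 17969768) (l 18003056))))), by decide +kernel⟩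

def k1_pm_012 : ∃ t, chk3 f_pm_012 t 8 6 1 = true :=
  ⟨(a (l 3) (b (c (a (b (l 17557488) (l 17492200)) (l 17613024)) (a (b (l 17352848) (a (l 3) (l 17272328))) (b (l 17420360) (l 17327024)))) (a (a (l 3) (c (b (l 17412968) (l 249813139511)) (b (l 44728260679) (l 144049242855)))) (b (c (l 17488672) (a (l 17153664) (l 17199504))) (c (a (b (l 17343152) (l 17227712)) (l 17353976)) (b (l 16791536) (l 16776216))))))), by decide +kernel⟩

def k2_pm_012 : ∃ t, chk3 f_pm_012 t 8 7 1 = true :=
  ⟨(a (l 3) (b (a (l 3) (b (c (b (a (l 17007888) (l 17152712)) (a (l 16791512) (l 16954832))) (b (a (l 16756472) (l 16725064)) (a (l 16749056) (l 16718272)))) (c (b (a (l 26474459063) (l 16735592)) (a (c (l 16761456) (l 16749528)) (c (l 16730760) (l 16719312)))) (b (a (c (l 16747264) (l 16734776)) (l 16710784)) (a (a (l 3) (l 16725784)) (c (l 16708232) (l 16697520))))))) (b (a (l 3) (b (c (a (c (l 15737007271) (b (l 16741240) (l 16735552))) (c (l 16718960) (l 16708952))) (a (b (l 30769308055) (c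 (l 16725808) (l 16716384))) (b (l 16696600) (l 16692400)))) (c (a (a (l 3) (b (l 16727968) (l 105394352295))) (b (c (l 16709728) (l 16700864)) (c (l 16703464) (l 16695400)))) (a (a (l 3) (b (l 16710200) (l 84993227383))) (b (c (l 16692296) (l 16684016)) (c (l 16687600) (l 16680064))))))) (a (l 3) (b (a (l 3) (a (c (b (c (l 16705040) (l 16697696)) (c (l 16698552) (l 16692056))) (b (l 31842974167) (c (l 16685776) (l 16679712)))) (c (b (l 16685576) (c (l 16682832) (l 16676528))) (b (l 16671752) (l 16667456))))) (a (l 3) (c (b (c (b (l 16685832) (l 16682584)) (a (l 16686368) (l 16671032))) (b (c (l 16700296) (l 16695440)) (c (a (l 16683672) (l 16668536)) (a (l 16679192) (l 16664208))))) (a (b (c (l 16680928) (l 16675680)) (b (l 16674960) (l 18958048871))) (b (c (l 16665768) (l 16660688)) (b (l 16660056) (l 16657984))))))))))), by decide +kernel⟩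

def k3_pm_012 : ∃ t, chk3 f_pm_012 t 9 6 1 = true :=
  ⟨(a (b (a (c (l 17689864) (b (l 17485224) (l 17403560))) (c (l 17763256) (l 17519560))) (a (c (b (l 17589520) (b (l 17493840) (l 17401760))) (b (l 17271200) (b (l 17118032) (l 16977136)))) (b (c (l 17688600) (l 17369208)) (c (l 17579472) (l 17078440))))) (b (c (l 17865744) (l 17622416)) (b (c (l 17826896) (l 17512328)) (c (l 17757608) (a (l 17311120) (l 17433488)))))), by decide +kernel⟩

def k4_pm_012 : ∃ t, chk3 f_pm_012 t 9 14 1 = true :=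
  ⟨(a (a (b (c (b (l 17235144) (a (l 17055992) (l 17156320))) (a (l 16690224) (l 16683656))) (c (b (a (l 16806624) (l 16932544)) (a (l 16693032) (l 16660840))) (b (a (l 16679552) (l 16648016)) (a (l 16671768) (l 16640416))))) (b (c (b (l 17439520) (l 17302544)) (b (l 16963320) (l 16757312))) (c (b (a (l 17054712) (l 17172240)) (a (l 16775752) (l 16925648))) (b (l 16599752) (l 16634328))))) (b (c (a (l 17542824) (l 17696032)) (a (b (l 17128960) (l 16959488)) (l 17221336))) (c (a (b (l 17338440) (l 16967368)) (b (l 17540792) (l 17385992))) (a (b (l 16735272) (l 16525440)) (b (l 16967048) (l 16726840)))))), by decide +kernel⟩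

def k5_pm_012 : ∃ t, chk3 f_pm_012 t 18 15 1 = true :=
  ⟨(b (a (b (c (a (c (l 16686936) (l 16677352)) (l 16650080)) (a (b (l 16665624) (l 16661448)) (l 16632344))) (c (a (b (l 16673512) (l 16688648)) (b (l 16641560) (l 16635760))) (a (b (l 16657176) (l 16652856)) (b (l 16625968) (l 16621656))))) (c (b (a (l 16617768) (l 16584952)) (a (l 16632736) (l 16594744))) (b (a (l 16600768) (l 16568744)) (b (l 16619976) (l 16615704))))) (a (b (c (b (a (c (l 16665248) (l 16658376)) (l 16629880)) (a (c (l 16658896) (l 16652840)) (c (l 16626832) (l 16621104)))) (b (a (l 16669480) (l 16617296)) (a (c (l 16647008) (l 16641384)) (l 16612928)))) (a (c (b (c (l 16673488) (l 16668296)) (c (b (l 16647712) (l 16644528)) (b (l 16643176) (l 16640432)))) (b (b (l 16640928) (l 16659752)) (b (l 16647144) (a (l 16642384) (l 16626728))))) (c (b (c (l 16620432) (l 16615544)) (c (l 16634992) (l 16630960))) (b (l 16619048) (b (l 16605296) (l 16624112)))))) (c (b (b (c (l 16605168) (l 16599088)) (c (l 16599336)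 (l 16594048))) (a (b (l 16606784) (c (l 16602672) (l 16598904))) (b (l 16574432) (c (l 16570184) (l 16566656))))) (b (b (a (l 16585784) (l 16553792)) (a (l 16581392) (l 16549608))) (a (b (l 16597968) (b (l 16573680) (l 16592456))) (b (l 16566144) (l 16561696))))))), by decide +kernel⟩

def k6_pm_012 : ∃ t, chk3 f_pm_012 t 19 15 1 = true :=
  ⟨(a (b (b (c (c (l 17055912) (l 16644296)) (l 16539352)) (c (b (l 16559616) (l 16540664)) (l 16552536))) (b (c (a (b (l 16531824) (l 16547296)) (l 16514896)) (b (l 16546568) (l 16542528))) (c (a (b (l 16541544) (c (l 16537240) (l 16534000))) (b (l 16506472) (l 16500792))) (b (a (l 16533944) (l 16500008)) (a (l 16529496) (l 16499600)))))) (b (c (b (l 16939560) (c (l 17091776) (l 16640376))) (b (a (l 16466280) (l 16490400)) (l 16483144))) (b (c (b (l 16554560) (l 16479024)) (l 16480432)) (c (b (l 16490304) (l 16483176)) (b (l 16472888) (l 16485568)))))), by decide +kernel⟩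

def k7_pm_012 : ∃ t, chk3 f_pm_012 t 10 3 1 = true :=
  ⟨(b (a (b (a (l 17839152) (l 17902104)) (a (c (l 17938416) (l 17604056)) (c (l 18025224) (a (l 17674624) (l 17719992))))) (b (l 17976256) (c (l 18133768) (l 17824776)))) (b (a (b (c (l 17902736) (a (l 17379400) (l 17525840))) (c (a (l 17668472) (l 17845032)) (a (b (l 17176584) (l 16986016)) (b (l 17364632) (a (l 17160304) (l 17267528)))))) (b (c (l 18123600) (l 17715200)) (c (l 18066288) (b (l 17608688) (l 17507136))))) (b (a (c (a (b (l 17445216) (c (l 17426664) (l 17012192))) (b (l 17554888) (a (l 17446624) (l 17351800)))) (b (a (l 16732072) (a (l 16949040) (a (l 17049136) (l 17112960)))) (a (l 16416624) (a (l 16666032) (a (l 16792144) (l 16872192)))))) (c (b (l 17973656) (l 17854032)) (b (l 17267128) (a (l 17015072) (l 17316792))))) (a (a (c (b (c (l 16976360) (l 16654536)) (b (l 16464968) (c (l 16600448) (l 16448560)))) (b (l 16439760) (b (l 16436440) (l 16469184)))) (c (b (a (c (l 17421584) (l 16965936)) (c (l 17584872)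 (a (l 17105520) (l 17193376)))) (c (a (l 16871864) (a (l 17265584) (l 17367240))) (a (l 16561912) (a (l 16746424) (b (l 16955784) (l 16758976)))))) (a (b (l 16410160) (l 16432168)) (b (a (l 16444736) (l 16484592)) (a (l 16428080) (c (l 16427280) (l 16425088))))))) (c (b (c (l 17928712) (l 17349032)) (c (a (l 17553560) (l 17903264)) (a (b (l 17197896) (l 17036272)) (l 17449544)))) (b (a (b (l 16858488) (l 16698832)) (c (l 17293744) (l 16917312))) (b (a (l 16512464) (l 16669648)) (a (l 16421824) (c (l 16959712) (l 16509888)))))))))), by decide +kernel⟩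

def k8_pm_012 : ∃ t, chk3 f_pm_012 t 11 3 1 = true :=
  ⟨(b (b (l 18265744) (a (l 18112360) (l 18215024))) (b (a (c (l 18304216) (b (l 17926856) (l 17847784))) (c (l 18455640) (l 18085072))) (a (b (c (l 18255720) (b (l 17742008) (l 17638816))) (c (b (l 18169976) (c (l 18263520) (l 17883080))) (b (c (l 17667336) (l 17163768)) (c (a (l 17340392) (l 17631200)) (a (b (l 17030792) (l 16891904)) (l 17201896)))))) (c (b (l 18493296) (a (l 18390592) (l 18531208))) (b (l 17997568) (b (l 17769736) (a (l 17624888) (l 17890112)))))))), by decide +kernel⟩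

def k9_pm_012 : ∃ t, chk3 f_pm_012 t 3 1 1 = true :=
  ⟨(b (a (b (l 2) (a (l 18044600) (l 2))) (l 2)) (b (a (a (b (l 18201400) (l 18326040)) (l 18366192)) (b (l 2) (l 18420984))) (a (b (a (c (l 18609512) (l 18290504)) (l 18581472)) (a (c (a (l 18685072) (l 18823088)) (b (l 18312688) (a (a (l 18093360) (l 18226480)) (l 18388880)))) (c (l 18945848) (l 18582960)))) (b (l 18669776) (a (l 18856232) (l 18862184)))))), by decide +kernel⟩

theorem s10_pm_012 : ∃ t, chk3 f_pm_012 t 5 3 1 = true := ex3_a k7_pm_012 k8_pm_012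

theorem s11_pm_012 : ∃ t, chk3 f_pm_012 t 9 15 1 = true := ex3_a k5_pm_012 k6_pm_012

theorem s12_pm_012 : ∃ t, chk3 f_pm_012 t 9 7 1 = true := ex3_b k4_pm_012 s11_pm_012

theorem s13_pm_012 : ∃ t, chk3 f_pm_012 t 9 3 1 = true := ex3_b k3_pm_012 s12_pm_012

theorem s14_pm_012 : ∃ t, chk3 f_pm_012 t 8 3 1 = true := ex3_b k1_pm_012 k2_pm_012

theorem s15_pm_012 : ∃ t, chk3 f_pm_012 t 4 3 1 = true := ex3_a s14_pm_012 s13_pm_012

theorem s16_pm_012 : ∃ t, chk3 f_pm_012 t 2 3 1 = true := ex3_a s15_pm_012 s10_pm_012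

theorem s17_pm_012 : ∃ t, chk3 f_pm_012 t 2 1 1 = true := ex3_b k0_pm_012 s16_pm_012

theorem s18_pm_012 : ∃ t, chk3 f_pm_012 t 1 1 1 = true := ex3_a s17_pm_012 k9_pm_012

theorem c_pm_012 : CertF 0 536870912 536870912 536870912 134217728 67108864 true true false .pnp 0 1 2
    ndF0q0 ndF2q1 pcF2 Cut.none Ext.none :=
  certF2 (fam := true) (s1 := true) (s2 := false) (a := 0) (b := 1) (c := 2) (cn := .pnp) (n1 := ndF0q0) (n2 := ndF2q1) (pc := pcF2) (cut := Cut.none) (xt := Ext.none) (P1 := 0) (W1 := 536870912) (P2 := 536870912) (W2 := 536870912) (P3 := 134217728) (W3 := 67108864)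
    rfl (fun _ => rfl) s18_pm_012

noncomputable def cut_pm_022_a : Cut := Cut.of [[⟨0, 0, 0, 67108864⟩, ⟨1, 1, 0, 67108864⟩, ⟨2, 1, 0, 67108864⟩], [⟨0, 0, 1, 41943040⟩, ⟨1, 1, 0, 16777216⟩, ⟨2, 1, 1, 41943040⟩]]

noncomputable def f_pm_022_a : ℕ → ℕ → ℕ → ℕ → Bool := onCell 1073741824 536870912 0 536870912 134217728 67108864
    (rowF 2 true true false .pp 0 2 2 (qsf 0 536870912 0 536870912 2) ndF0q0 ndF2q2a pcF2 cut_pm_022_a Ext.none)

def k0_pm_022_a : ∃ t, chk3 f_pm_022_a t 4 2 1 = true :=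
  ⟨(b (l 1) (a (l 1) (a (l 1) (a (l 1) (b (l 1) (a (l 1) (c (b (l 1) (b (a (l 1) (c (b (c (l 16591032) (l 16589112)) (c (a (l 16592088) (l 16590224)) (a (l 16590248) (l 16588328)))) (a (b (l 1) (l 16587528)) (c (l 16586312) (l 16584432))))) (c (a (b (c (l 16595280) (l 16593560)) (c (a (l 16596384) (l 16594448)) (a (l 16594744) (l 16592760)))) (c (l 16591560) (l 16589760))) (c (a (b (l 16591864) (a (l 16593120) (l 16591080))) (l 16587984)) (a (b (l 16590184) (l 16590568)) (l 16586224)))))) (b (l 1) (b (a (l 1) (c (b (l 16582576) (a (l 16583960) (l 16581864))) (b (l 16578944) (a (l 16580472) (l 16578288))))) (c (c (a (b (l 16588512) (l 16588944)) (l 16584488)) (a (b (l 16586864) (l 16587344)) (l 16582768))) (a (b (l 16584416) (a (l 16585984) (l 16583744))) (b (l 16579976) (l 16580472))))))))))))), by decide +kernel⟩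

def k1_pm_022_a : ∃ t, chk3 f_pm_022_a t 40 4 1 = true :=
  ⟨(l 1), by decide +kernel⟩

def k2_pm_022_a : ∃ t, chk3 f_pm_022_a t 40 10 1 = true :=
  ⟨(a (l 1) (c (b (a (l 1) (b (l 1) (c (c (l 16860768) (l 16633112)) (l 16568792)))) (a (b (l 1) (a (c (c (l 16728864) (l 16577752)) (l 16574112)) (c (c (b (l 16780936) (l 16778552)) (l 16576000)) (c (l 16573520) (l 16571064))))) (c (c (b (a (l 16833072) (l 16880080)) (l 7549612007)) (b (b (l 16567720) (l 16565928)) (l 16563016))) (b (c (l 16575744) (l 16567888)) (c (l 16570840) (l 16568320)))))) (a (b (l 1) (b (l 1) (a (c (l 16569376) (l 16564776)) (c (l 16570080) (l 16562768))))) (b (c (b (l 1) (l 16563480)) (l 16557992)) (c (b (a (l 16564944) (l 16563064)) (l 16569848)) (b (a (l 16560000) (l 16558032)) (l 16559792))))))), by decide +kernel⟩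

def k3_pm_022_a : ∃ t, chk3 f_pm_022_a t 40 11 1 = true :=
  ⟨(c (a (b (c (b (a (l 1) (b (c (l 16645944) (l 16580760)) (c (l 16580912) (l 16580976)))) (a (b (c (l 16586968) (l 16584848)) (c (l 16587168) (l 16585096))) (c (l 16577448) (l 16581272)))) (b (a (l 1) (b (l 16578648) (a (l 16578488) (l 16576600)))) (a (a (l 16582760) (c (l 16581872) (l 16579808))) (c (l 16579096) (l 16576944))))) (c (b (a (c (l 16587440) (l 16585432)) (c (l 16635584) (l 16581592))) (a (c (l 16587704) (l 16585800)) (l 16582816))) (a (b (c (l 16583456) (l 16581504)) (l 16588232)) (b (l 16578480) (l 16578864))))) (b (c (b (a (c (l 16581680) (l 16577264)) (c (l 16844416) (l 16621896))) (a (c (l 16743512) (l 16577536)) (l 16643752))) (b (a (c (l 16574888) (l 16572552)) (l 16569928)) (a (l 16574136) (l 16570224)))) (c (b (a (l 16624512) (l 16722056)) (a (l 16620296) (l 16716544))) (b (a (l 16574480) (l 16570448)) (l 16572824))))) (a (a (b (b (l 1) (a (c (l 16578776) (l 16574888)) (c (b (l 16576552) (l 16576936))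 (l 16572768)))) (c (b (b (l 16578424) (l 16578800)) (l 16579328)) (b (b (l 16574624) (l 16575088)) (l 16575776)))) (b (c (b (b (l 16572880) (a (l 16574168) (l 16572184))) (b (l 16573600) (l 16573944))) (b (b (l 16568544) (l 16568992)) (l 16580152))) (c (b (l 16574448) (l 16575040)) (b (l 16570520) (l 16571328))))) (b (c (b (a (l 8086214519) (l 16565144)) (a (l 16569712) (l 16565640))) (b (a (l 16564640) (l 16560512)) (a (l 16565432) (l 16561208)))) (c (b (l 16578824) (l 16568752)) (b (l 16574672) (l 16564816)))))), by decide +kernel⟩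

def k4_pm_022_a : ∃ t, chk3 f_pm_022_a t 82 2 1 = true :=
  ⟨(b (a (l 1) (b (l 1) (b (l 1) (c (c (c (l 17046272) (b (l 16833424) (a (l 16808304) (l 16852576)))) (b (a (l 1) (l 16560144)) (a (l 16564688) (l 16560328)))) (c (b (l 16560128) (a (l 16556152) (l 16554344))) (b (l 16548992) (a (l 16550424) (l 16548560)))))))) (b (c (b (c (c (a (b (l 16956216) (l 16867928)) (l 17036480)) (a (b (a (l 1) (l 16738072)) (a (b (l 16708880) (l 16707096)) (l 16755216))) (b (a (l 16804808) (l 16848144)) (l 16821848)))) (c (a (b (l 16566384) (l 16566656)) (l 16568384)) (a (b (l 16563512) (l 16563864)) (l 16565328)))) (c (a (c (l 16900104) (b (l 16727440) (l 16722616))) (b (l 16753544) (l 16851696))) (a (c (l 16572296) (l 16569640)) (b (l 16561848) (l 16562032))))) (b (c (a (b (a (l 1) (l 16558368)) (c (l 16561120) (l 16558424))) (b (l 16555608) (l 16556000))) (a (b (l 16553832) (l 16554456)) (b (l 16550008) (l 16550560)))) (c (a (b (l 16560240) (l 16560712)) (l 16564464)) (a (b (l 16555104)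 (l 16555752)) (l 16551424))))) (c (b (c (a (b (l 16719432) (l 16817792)) (b (l 16907560) (l 16900240))) (b (a (l 16566088) (l 16562176)) (l 16574744))) (c (a (l 16681944) (l 16888840)) (b (l 16564296) (l 16564224)))) (b (a (c (l 16561368) (l 16556704)) (c (l 16557272) (l 16552496))) (c (a (l 16562008) (l 16557696)) (l 16566064)))))), by decide +kernel⟩

def k5_pm_022_a : ∃ t, chk3 f_pm_022_a t 166 8 1 = true :=
  ⟨(l 1), by decide +kernel⟩

def k6_pm_022_a : ∃ t, chk3 f_pm_022_a t 167 8 2 = true :=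
  ⟨(c (c (a (l 17192784) (b (l 17229472) (l 17225648))) (a (b (l 16989784) (b (l 16988504) (l 16986792))) (a (a (a (b (l 17012016) (l 17009032)) (b (b (l 17017056) (l 17016200)) (l 16950504))) (b (l 17023424) (l 17020224))) (l 17035360)))) (a (b (b (l 1) (a (l 1) (l 16556808))) (b (a (l 1) (a (l 16561056) (l 16550928))) (a (l 16553744) (l 16555920)))) (b (a (b (a (a (l 1) (a (l 16585392) (c (l 16815336) (l 16549256)))) (l 16636568)) (a (a (l 16549424) (a (l 16553336) (c (l 16814624) (l 16548736)))) (l 16614968))) (b (l 16673496) (l 16651880))) (a (b (a (a (l 16621816) (a (l 16562784) (c (l 16813400) (l 16547888)))) (l 16613920)) (a (a (l 16620384) (a (l 16582320) (c (l 16811680) (l 16546736)))) (l 16612472))) (b (l 16650816) (l 16649328)))))), by decide +kernel⟩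

def k7_pm_022_a : ∃ t, chk3 f_pm_022_a t 167 8 3 = true :=
  ⟨(a (a (b (l 1) (c (b (l 1) (l 16548424)) (l 16541992))) (b (c (b (l 1) (l 16547344)) (l 16540824)) (c (b (l 16552584) (l 16547400)) (b (l 16540928) (l 16541096))))) (b (c (a (b (a (a (l 1) (a (l 16546536) (c (l 16547984) (l 16544712)))) (l 16546072)) (a (b (a (l 16546728) (a (l 16546472) (c (l 16547904) (l 16544664)))) (a (l 16546704) (a (l 16546448) (c (l 16547872) (l 16544656))))) (l 16546000))) (l 16545504)) (a (b (a (a (l 1) (a (l 16540048) (l 16550392))) (l 16539632)) (a (a (l 16540272) (a (l 16540064) (c (l 16541488) (l 16538368)))) (l 16539648))) (l 16539040))) (c (a (b (a (b (a (l 16546704) (a (l 16546448) (c (l 16547856) (l 16544664)))) (a (l 16546712) (a (l 16546464) (c (l 16547856) (l 16544688))))) (l 16545992)) (a (a (l 16546768) (a (l 16546512) (c (l 16547888) (l 16544760)))) (l 16546040))) (l 16545464)) (a (b (a (b (a (l 16540328) (a (l 16540128) (l 16550464))) (a (l 16540392) (a (l 16540184) (l 16550528))))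 (l 16539736)) (a (a (l 16540528) (a (l 16540320) (c (l 16541688) (l 16538664)))) (l 16539896))) (l 16539200))))), by decide +kernel⟩

def k8_pm_022_a : ∃ t, chk3 f_pm_022_a t 83 9 2 = true :=
  ⟨(a (a (c (b (c (l 17112616) (l 16902304)) (c (l 17105320) (l 16854376))) (b (b (l 1) (l 16560528)) (b (l 16559856) (l 16581176)))) (c (b (c (l 17150568) (l 16943664)) (l 16891976)) (b (b (c (l 16737608) (l 16554752)) (l 16558472)) (b (l 16587696) (l 16627120))))) (c (c (a (l 17180024) (b (l 17218296) (l 17207680))) (a (b (l 16982368) (l 16974152)) (b (a (a (a (l 17003184) (l 16965624)) (l 17014344)) (l 17027968)) (c (l 17059912) (a (a (a (l 16945096) (l 16949592)) (l 16956504)) (l 16970384)))))) (a (b (b (a (l 16604544) (l 16552824)) (c (l 16693800) (l 16553464))) (a (l 16556760) (b (l 16621600) (l 16660760)))) (b (a (b (a (a (l 16639536) (a (l 16601472) (c (l 16809480) (l 16545288)))) (l 16631600)) (a (a (l 16658320) (a (l 16641224) (c (l 16806824) (l 16564528)))) (l 16671320))) (b (l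 16668408) (l 16687096))) (a (b (a (a (l 16697736) (a (l 16680624) (c (l 16803720) (l 16604480)))) (l 16689720)) (a (a (l 16694896) (a (l 16698736) (l 16554464))) (l 16707800))) (b (l 16726400) (l 16723424))))))), by decide +kernel⟩

def k9_pm_022_a : ∃ t, chk3 f_pm_022_a t 83 9 3 = true :=
  ⟨(a (a (b (c (b (l 1) (l 16551944)) (l 16545672)) (c (b (l 16552208) (l 16552504)) (l 16546472))) (b (c (b (l 16549920) (l 16550112)) (b (l 16543664) (l 16543984))) (c (l 16555736) (l 16544576)))) (a (a (b (c (l 16548648) (l 16542472)) (c (l 16549072) (l 16543168))) (b (c (b (l 16547512) (l 16547680)) (l 16541480)) (c (l 16548008) (l 16542152)))) (b (c (a (a (a (l 16546968) (a (b (l 16546624) (l 16546784)) (b (c (l 16547976) (l 16544904)) (c (l 16548104) (l 16545096))))) (l 16548856)) (l 16545656)) (a (a (a (l 16540896) (a (l 16540688) (b (l 16550880) (l 16540672)))) (l 16540264)) (l 16539616))) (c (a (a (a (l 16547360) (a (l 16547104) (b (l 16546792) (l 16547016)))) (l 16546624)) (l 16546016))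 (a (a (a (l 16541552) (a (l 16541344) (b (l 16541000) (l 16541368)))) (l 16540904)) (l 16540232)))))), by decide +kernel⟩

def k10_pm_022_a : ∃ t, chk3 f_pm_022_a t 83 5 1 = true :=
  ⟨(b (c (a (c (b (c (l 17110536) (l 16843680)) (c (l 17095008) (l 16894928))) (b (b (l 16564968) (l 16556944)) (b (l 16595984) (l 16593016)))) (c (a (b (c (l 17161680) (l 16963688)) (l 17027488)) (b (c (l 17194000) (a (b (l 16972848) (l 16987936)) (l 17008560))) (b (c (l 17182056) (l 16990472)) (l 16994536)))) (a (b (b (a (l 16657360) (l 16678680)) (l 16601816)) (b (l 16661344) (l 16657840))) (b (a (a (a (l 16648112) (a (l 16630960) (b (l 16551320) (l 16673760)))) (l 16660920)) (l 16676392)) (c (a (a (a (l 16779192) (a (l 16782792) (l 16785160))) (l 16791256)) (l 16805816)) (b (l 16564872) (l 16562064))))))) (a (b (c (b (l 16551760) (l 16552072)) (b (l 16546080) (l 16546568))) (c (l 16563032) (l 16547304))) (a (b (c (b (l 16548760) (l 16549024)) (l 16553832)) (c (l 16549408) (l 16544200))) (b (c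 (a (a (a (l 16547832) (a (l 16547584) (l 16552632))) (l 16547088)) (l 16546456)) (a (a (a (l 16542336) (b (l 16552296) (l 16542216))) (l 16541664)) (l 16540968))) (c (b (c (l 16559112) (l 16556432)) (l 16563192)) (b (b (l 16562888) (l 16563080)) (l 16563360))))))) (a (c (b (c (l 16895768) (b (l 16590056) (l 16587176))) (c (l 16963128) (l 16583208))) (b (c (l 16553032) (l 16548200)) (c (l 16553240) (l 16548872)))) (c (a (b (c (l 17032304) (l 16652480)) (c (l 17014800) (l 16645720))) (b (c (c (l 17158712) (l 16972528)) (a (b (c (l 16779192) (l 16590664)) (l 16618216)) (l 16702888))) (c (l 17047528) (b (l 16687296) (l 16683640))))) (a (b (c (l 16549760) (l 16544960)) (l 16558112)) (b (c (b (l 16558088) (l 16547672)) (l 16563856)) (c (l 16558088) (l 16564280))))))), by decide +kernel⟩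

def k11_pm_022_a : ∃ t, chk3 f_pm_022_a t 21 4 1 = true :=
  ⟨(c (a (c (b (a (b (l 17190240) (l 17165520)) (l 17323600)) (a (b (l 17158512) (l 17169360)) (l 17308776))) (b (a (b (a (b (l 16683040) (l 16661384)) (l 16843496)) (a (b (l 16660232) (l 16658632)) (l 16840992))) (b (l 16968968) (l 16966208))) (a (b (a (b (l 16656592) (l 16696064)) (l 16836488)) (c (l 16866360) (l 16552224))) (b (l 16961168) (l 16953992))))) (b (c (l 17463424) (a (l 17088536) (l 17192408))) (c (l 17447888) (a (l 17077456) (l 17180584))))) (a (b (a (b (c (a (l 16543776) (l 16540992)) (a (l 16537088) (l 16533928))) (c (a (l 16548928) (l 16540792)) (a (l 16537192) (l 16533944)))) (b (c (l 16610952) (l 16529544)) (c (l 16609424) (l 16529416)))) (a (b (c (a (l 16549040) (l 16540784)) (a (l 16537544) (l 16534184))) (c (b (l 16542608) (l 16542720)) (b (l 16536376) (l 16536640)))) (b (c (l 16606888) (l 16529488)) (c (l 16603488) (l 16529680))))) (b (a (b (l 16589320) (l 16566992)) (b (l 16725976) (l 16724272)))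 (b (a (l 16575312) (l 16721376)) (a (l 16582952) (l 16717448)))))), by decide +kernel⟩

def k12_pm_022_a : ∃ t, chk3 f_pm_022_a t 21 5 1 = true :=
  ⟨(c (a (b (c (a (b (l 17177312) (l 17161664)) (l 17280896)) (b (a (b (l 16661888) (l 16720672)) (l 16944912)) (a (b (l 16779184) (l 16795520)) (l 16934240)))) (b (c (a (l 17143800) (l 17253360)) (a (l 16746288) (l 16922384))) (c (l 17012672) (a (l 16778496) (l 16909912))))) (b (c (l 17418152) (b (l 17116552) (l 17103808))) (c (l 17376408) (b (l 17089416) (l 17073888))))) (b (a (b (a (c (l 16550776) (l 16537080)) (c (l 16599456) (l 16529920))) (a (c (l 16543088) (l 16537632)) (c (l 16595144) (l 16530104)))) (b (a (l 16579680) (l 16712704)) (a (l 16576312) (l 16707480)))) (a (b (a (c (l 16543072) (l 16538048)) (l 16543336)) (c (l 16555104) (l 16555568))) (b (a (l 16573304) (l 16702208)) (a (l 16571264) (l 16697456)))))), by decide +kernel⟩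

def k13_pm_022_a : ∃ t, chk3 f_pm_022_a t 11 2 1 = true :=
  ⟨(a (b (c (a (b (l 17462960) (l 17406904)) (l 17551936)) (a (b (a (l 16801760) (l 16947264)) (b (l 16787968) (l 16803768))) (b (l 17079080) (l 17070528)))) (c (b (a (l 17358656) (l 17539088)) (a (l 17278432) (l 17499488))) (b (a (b (l 16818312) (l 16852880)) (l 17054848)) (a (b (l 16865936) (l 16858008)) (l 17034400))))) (c (b (a (l 17660384) (l 17724320)) (b (l 17662192) (l 17622952))) (b (a (b (l 17218712) (l 17209680)) (l 17319984)) (a (b (l 17192408) (l 17169072)) (b (l 17298904) (l 17274728)))))), by decide +kernel⟩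

def k14_pm_022_a : ∃ t, chk3 f_pm_022_a t 8 6 1 = true :=
  ⟨(l 1), by decide +kernel⟩

def k15_pm_022_a : ∃ t, chk3 f_pm_022_a t 36 12 1 = true :=
  ⟨(l 1), by decide +kernel⟩

def k16_pm_022_a : ∃ t, chk3 f_pm_022_a t 36 26 1 = true :=
  ⟨(l 1), by decide +kernel⟩

def k17_pm_022_a : ∃ t, chk3 f_pm_022_a t 72 27 1 = true :=
  ⟨(l 1), by decide +kernel⟩

def k18_pm_022_a : ∃ t, chk3 f_pm_022_a t 73 54 1 = true :=
  ⟨(b (l 1) (b (l 1) (a (l 1) (a (l 1) (a (l 1) (b (l 1) (c (c (c (c (l 16650872) (l 16650728)) (c (l 16650584) (l 16650432))) (c (l 16650192) (l 16649864))) (c (c (l 16649520) (l 16649160)) (l 16648592))))))))), by decide +kernel⟩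

def k19_pm_022_a : ∃ t, chk3 f_pm_022_a t 73 55 2 = true :=
  ⟨(a (b (b (l 1) (a (l 1) (c (c (c (l 16658064) (l 16657936)) (l 16656424)) (c (l 16657448) (l 16657144))))) (c (a (b (c (a (l 1) (l 16660432)) (l 16660944)) (c (a (b (l 1) (c (a (l 16662568) (l 16661808)) (l 16662080))) (b (c (a (l 16660984) (l 16660216)) (l 16660488)) (l 16660608))) (a (b (l 1) (c (l 16661968) (l 16661848))) (c (l 16660408) (l 16660296))))) (c (b (a (b (l 16658224) (c (a (l 16659392) (l 16658624)) (l 16658888))) (c (l 16657448) (l 16657328))) (c (l 16658336) (l 16658232))) (b (a (b (l 16658624) (c (l 16658768) (l 16658648))) (l 16657144)) (l 16658064)))) (a (b (c (l 16660680) (l 16660400)) (c (a (b (l 1) (l 16661672)) (l 16660112)) (a (l 16661368) (l 16659848)))) (c (b (a (b (l 16658360) (l 16658448)) (l 16656880)) (l 16657816)) (b (a (l 16658128) (l 16656600)) (l 16657568)))))) (c (b (c (a (c (b (a (l 1) (l 16654080)) (b (a (l 16655736) (l 16654192)) (l 16655040))) (b (l 16653400) (b (a (l 16655600)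 (l 16654064)) (l 16654912)))) (b (a (b (c (l 16652504) (l 16652360)) (c (l 16652576) (l 16652440))) (l 7549496423)) (l 16653808))) (a (b (c (l 16654568) (l 16654424)) (a (b (l 16655400) (l 16655480)) (l 16653904))) (b (a (b (c (l 16652216) (l 16652072)) (l 16652232)) (l 16650640)) (l 16651584)))) (c (b (a (c (l 16655136) (l 16655016)) (l 16651968)) (l 16658880)) (b (a (l 16654832) (l 16651728)) (l 16653416)))) (b (a (b (c (l 16654192) (l 16653872)) (c (a (b (l 16655112) (l 16655208)) (l 16653624)) (a (l 16654864) (l 16653328)))) (c (b (c (l 16649880) (l 16651040)) (l 16651304)) (c (l 16650992) (l 16650840)))) (c (b (l 16655648) (l 16653184)) (b (l 16652760) (l 16652936)))))), by decide +kernel⟩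

def k20_pm_022_a : ∃ t, chk3 f_pm_022_a t 73 55 3 = true :=
  ⟨(a (a (b (l 1) (c (b (l 16659944) (c (l 16660336) (l 16660040))) (b (l 16659272) (c (l 16659728) (l 16659408))))) (b (a (l 1) (c (l 16655776) (l 16655056))) (c (b (c (l 16657072) (l 16656760)) (l 16657152)) (c (l 16656576) (l 16656240))))) (c (b (a (b (c (l 16653544) (l 16653192)) (c (l 16653784) (l 16653456))) (c (l 16650600) (l 16650264))) (c (l 16657824) (l 16652296))) (b (a (b (l 16652632) (c (l 16653112) (l 16652752))) (c (l 16649920) (l 16649552))) (c (l 16651992) (l 16651680))))), by decide +kernel⟩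

def k21_pm_022_a : ∃ t, chk3 f_pm_022_a t 37 12 1 = true :=
  ⟨(l 1), by decide +kernel⟩

def k22_pm_022_a : ∃ t, chk3 f_pm_022_a t 74 26 1 = true :=
  ⟨(a (l 1) (a (l 1) (b (l 1) (b (l 1) (b (l 1) (c (c (c (a (b (l 1) (l 16639128)) (b (l 16637456) (l 16637552))) (a (b (l 1) (l 16638768)) (l 16637136))) (c (a (l 16638328) (l 16636752)) (a (l 16637928) (l 16636360)))) (c (c (a (l 16637512) (l 16635944)) (a (l 16637088) (l 16635520))) (c (a (l 16636640) (l 16635080)) (a (l 16636184) (l 16634632)))))))))), by decide +kernel⟩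

def k23_pm_022_a : ∃ t, chk3 f_pm_022_a t 75 26 2 = true :=
  ⟨(b (a (l 1) (b (l 1) (b (a (l 1) (c (c (a (l 16627920) (l 16626744)) (a (l 16627336) (l 16626136))) (c (a (l 16626744) (l 16625528)) (a (l 16626136) (l 16624904))))) (c (a (c (a (l 16630488) (l 16629296)) (a (l 16629960) (l 16628752))) (c (l 16627568) (l 16626992))) (a (c (a (l 16629424) (l 16628192)) (a (l 16628872) (l 16627624))) (c (l 16626408) (l 16625808))))))) (a (c (b (b (a (l 1) (a (l 1) (c (l 16631880) (l 16631392)))) (a (c (a (l 1) (l 16634496)) (l 16634704)) (c (c (l 16632848) (l 16632624)) (a (l 16632832) (l 16631600))))) (a (c (b (a (b (l 16635856) (l 16635952)) (l 16634688)) (l 16635504)) (b (a (b (l 16635456) (l 16635560)) (l 16634272)) (l 16635120))) (c (l 16632992) (l 16632560)))) (b (b (a (l 1) (a (l 1) (c (l 16630888) (l 16630376)))) (a (c (l 16634264) (l 16633816)) (c (a (l 16632368) (l 16631120)) (l 16631320)))) (a (c (b (a (b (l 16635040) (l 16635160)) (l 16633848)) (l 16634720)) (b (a (l 16634672)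 (l 16633408)) (l 16634312))) (c (l 16632120) (l 16631664))))) (c (b (c (a (l 16630224) (l 16627800)) (a (l 16629712) (l 16627256))) (c (l 16629520) (l 16629032))) (b (c (a (l 16629200) (l 16626704)) (a (l 16628672) (l 16626144))) (c (l 16628536) (l 16628032)))))), by decide +kernel⟩

def k24_pm_022_a : ∃ t, chk3 f_pm_022_a t 75 26 3 = true :=
  ⟨(b (a (l 1) (b (l 1) (c (a (b (l 1) (a (l 16628024) (c (l 16627048) (l 16626464)))) (a (b (c (l 16625520) (l 16624896)) (l 16625488)) (c (l 16624400) (l 16623768)))) (a (b (l 1) (c (l 16626560) (l 16625960))) (b (c (l 16623672) (l 16623016)) (l 16623664)))))) (a (c (c (b (a (l 16633208) (b (l 16630552) (l 16630824))) (a (b (a (l 16634240) (l 16632960)) (l 16633888)) (l 16631208))) (b (a (l 16632720) (b (l 16630016) (l 16630312))) (a (b (a (l 16633784) (l 16632488)) (l 16633456)) (l 16630728)))) (c (b (a (l 16632208) (b (l 16629472) (l 16629792))) (a (a (l 16633480) (l 16632168)) (l 16630248))) (b (a (l 16631688) (b (l 16628920) (l 16629256)))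 (a (b (l 16632208) (l 16632544)) (l 16629744))))) (c (b (a (c (l 16628136) (l 16627584)) (c (l 16625576) (l 16625000))) (c (l 16627528) (l 16627008))) (b (a (c (l 16627024) (l 16626456)) (l 16624120)) (a (l 16627344) (l 16624688)))))), by decide +kernel⟩

def k25_pm_022_a : ∃ t, chk3 f_pm_022_a t 74 27 2 = true :=
  ⟨(a (b (b (a (l 1) (b (l 1) (c (c (a (l 16645752) (b (l 16644136) (c (l 16644304) (l 16644144)))) (a (l 16645408) (b (l 16643800) (l 16643896)))) (c (a (l 16645056) (b (l 16643440) (l 16643552))) (a (l 16644688) (l 16643128)))))) (c (c (a (b (a (l 1) (b (l 1) (c (l 16647608) (l 16647448)))) (a (b (c (l 16649240) (l 16649096)) (l 16649248)) (l 16647648))) (b (c (l 16645216) (l 16645064)) (l 16645296))) (c (a (b (a (l 1) (l 16647248)) (l 16648208)) (l 16644992)) (b (a (a (l 1) (l 16647088)) (l 16644744)) (l 16647480)))) (a (b (a (l 1) (b (l 1) (c (l 16646888) (l 16646536)))) (c (c (l 16647896) (l 16647736)) (l 16647488))) (c (b (l 16644488) (l 16644688)) (l 16644256)))))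 (c (b (a (c (b (l 16648584) (l 16648712)) (l 16648384)) (c (l 16645488) (l 16645224))) (c (l 16647280) (l 16647056))) (b (c (b (l 16646440) (l 16646608)) (b (l 16646136) (l 16646328))) (c (l 16646824) (l 16646584))))) (b (c (b (a (c (b (a (b (l 1) (l 16642472)) (b (l 16640808) (l 16640896))) (l 16643784)) (b (a (l 16642072) (b (l 16640448) (l 16640552))) (l 16641488))) (c (b (l 12381312935) (l 16638680)) (b (l 16638168) (l 16638352)))) (c (a (l 16642056) (l 16638888)) (a (l 16641752) (l 16638592)))) (b (a (c (b (a (l 16641704) (b (l 16640080) (l 16640192))) (l 16641136)) (b (a (l 16641320) (l 16639752)) (l 16640776))) (c (b (l 16637800) (l 16638008)) (l 13991923959))) (c (a (l 16641432) (l 16638280)) (a (l 16641104) (l 16637960))))) (c (b (c (l 16646096) (l 16645840)) (c (l 16640984) (l 16640784))) (b (a (l 16641624) (l 16638448)) (l 16650936))))), by decide +kernel⟩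

def k26_pm_022_a : ∃ t, chk3 f_pm_022_a t 75 27 2 = true :=
  ⟨(b (a (a (c (b (c (l 16635744) (l 16635392)) (l 16635840)) (b (c (l 16635024) (l 16634648)) (l 16635200))) (c (c (l 16633384) (l 16633024)) (b (l 16632288) (l 16632608)))) (c (c (l 16635040) (l 16634632)) (b (l 16628608) (l 16628864)))) (c (a (b (l 16640096) (l 16634928)) (l 16629728)) (a (b (l 16634280) (l 16634472)) (l 16629112)))), by decide +kernel⟩

def k27_pm_022_a : ∃ t, chk3 f_pm_022_a t 37 27 3 = true :=
  ⟨(a (a (b (a (b (l 1) (c (b (c (l 16646888) (l 16646504)) (c (l 16647144) (l 16646784))) (b (c (l 16646104) (l 16645696)) (l 16646216)))) (c (b (b (l 1) (c (a (l 16644304) (l 16642752)) (l 16643128))) (c (l 16643912) (l 16643544))) (b (b (l 1) (c (l 16642712) (l 16642288))) (c (l 16643168) (l 16642776))))) (c (b (c (l 16645936) (l 16645616)) (l 16646192)) (b (c (l 16645280) (l 16644936)) (l 16645632)))) (a (b (c (b (b (c (a (l 16640920) (l 16639352)) (a (l 16640504) (l 16638944))) (c (l 16640400) (l 16640008)))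 (c (l 16640768) (l 16640408))) (b (b (c (l 16639296) (l 16638856)) (l 16639400)) (l 16639856))) (c (l 16641248) (l 16640672))) (b (c (b (c (l 16639784) (l 16636768)) (l 16637456)) (b (c (l 16636360) (l 16635936)) (l 16636736))) (c (l 16638080) (l 16637520))))) (b (a (a (c (b (c (l 16634256) (l 16633856)) (l 16634520)) (b (l 16633232) (l 16633792))) (c (b (l 16631456) (l 16631872)) (l 16630856))) (c (b (l 16627688) (l 16628056)) (b (l 16626744) (l 16627216)))) (a (c (b (l 16633680) (l 16633984)) (l 16643752)) (c (l 16628480) (l 16627824))))), by decide +kernel⟩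

def k28_pm_022_a : ∃ t, chk3 f_pm_022_a t 76 12 1 = true :=
  ⟨(b (l 1) (c (b (l 1) (a (a (l 1) (a (l 1) (b (l 1) (b (l 1) (c (c (l 16621568) (l 16620816)) (c (l 16620064) (l 16619296))))))) (a (b (l 1) (c (c (b (a (l 16620248) (l 16619120)) (l 16619904)) (b (a (l 16619456) (l 16618304)) (l 16619120))) (c (b (a (l 16618664) (l 16617488)) (l 16618328)) (b (a (l 16617856) (l 16616664)) (l 16617536))))) (c (b (c (b (l 16617136) (a (l 16617824) (l 16616712))) (b (l 16616240) (l 16616440))) (c (l 16617552) (l 16616712))) (b (c (b (l 16615344) (l 16615568)) (b (l 16614448) (l 16614696))) (c (l 16615872) (l 16615032))))))) (b (l 1) (b (a (l 1) (a (l 1) (c (c (b (l 16613544) (l 16613816)) (b (l 16612640) (l 16612936))) (b (c (l 16611736) (l 16610824)) (c (l 16612048) (l 16611160)))))) (b (a (l 1) (c (a (c (l 16616488) (l 16615664)) (c (l 16614064) (l 16613208))) (a (c (l 16614840) (l 16614008)) (l 25803032695)))) (a (a (l 1) (c (c (l 16619192) (l 16618424)) (c (l 16617648) (l 16616872))))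 (c (a (c (l 16616744) (l 16615944)) (l 16613888)) (a (l 16614736) (l 16612208))))))))), by decide +kernel⟩

def k29_pm_022_a : ∃ t, chk3 f_pm_022_a t 77 12 1 = true :=
  ⟨(b (a (l 1) (a (l 1) (b (l 1) (b (l 1) (b (l 1) (c (c (c (l 16607672) (l 16606480)) (c (l 16605296) (l 16604120))) (c (c (l 16602944) (l 16601768)) (l 16600024)))))))) (c (b (c (a (b (c (l 16613400) (l 16612360)) (c (a (b (l 1) (l 16614760)) (b (l 16612416) (l 16612576))) (a (b (l 1) (l 16613800)) (l 16611480)))) (b (c (a (b (l 16609944) (l 16610104)) (l 16607896)) (a (b (l 16608824) (l 16609008)) (l 16606744))) (c (l 16609392) (l 16608304)))) (c (a (b (l 16611320) (a (l 16612728) (l 16610464))) (b (a (b (l 16607704) (l 16607912)) (l 16605592)) (l 16607224))) (a (b (l 16610280) (a (l 16611760) (l 16609456))) (b (a (l 16606712) (l 16604448)) (l 16606144))))) (c (c (a (b (a (l 16615008) (l 16612792)) (l 16614320)) (l 16609712)) (a (b (a (l 16614080) (l 16611824)) (l 16613424)) (l 16608704))) (a (a (b (c (l 16613160)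 (l 16612232)) (l 16613088)) (c (l 16611032) (l 16610088))) (b (l 16612272) (l 16607328))))) (b (a (c (c (b (l 16609240) (a (l 16610784) (l 16608440))) (b (l 16608200) (a (l 16609808) (l 16607432)))) (c (b (l 16607152) (a (l 16608832) (l 16606416))) (b (l 16606112) (a (l 16607856) (l 16605408))))) (c (b (a (c (l 16605608) (l 16604512)) (l 20971176615)) (c (l 16605064) (l 16604000))) (a (c (l 16603720) (l 16602656)) (b (l 16600472) (l 16601048))))) (c (a (b (a (c (l 16611304) (l 16610376)) (l 16608440)) (c (l 16610712) (l 16609816))) (b (l 16604984) (l 16605384))) (a (b (a (c (l 16609448) (l 16608520)) (l 16606520)) (l 16608472)) (l 16608464)))))), by decide +kernel⟩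

def k30_pm_022_a : ∃ t, chk3 f_pm_022_a t 38 13 2 = true :=
  ⟨(a (b (b (c (a (b (a (c (b (l 16624680) (a (l 16625392) (l 16624224))) (b (l 16624000) (a (l 16624744) (l 16623560)))) (c (l 16622448) (l 16621744))) (c (a (l 16625112) (l 16622744)) (a (l 16624488) (l 16622080)))) (a (b (c (l 16620128) (l 16619376)) (l 16620024)) (c (l 16617928) (l 16617160)))) (a (b (a (b (c (l 16623312) (l 16622624)) (c (a (l 16624088) (l 16622888)) (a (l 16623432) (l 16622200)))) (c (l 16621024) (l 16620304))) (c (a (l 16623856) (l 16621408)) (a (l 16623216) (l 16620736)))) (a (c (l 16621424) (l 16618072)) (b (l 16615832) (l 16616152))))) (c (a (b (c (l 16624384) (l 16623776)) (l 16629528)) (b (l 16619192) (l 16619304))) (a (b (c (l 16623168) (l 16622560)) (l 16623168)) (b (l 16617840) (l 16618064))))) (b (c (a (l 16629704) (l 16619344)) (a (l 16623512) (l 16618272))) (c (a (l 16624400) (l 16619080)) (a (l 16623688) (l 16618272))))) (b (c (a (b (c (l 16614592) (l 16613768)) (l 16614360)) (b (l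 16609464) (l 16609448))) (b (a (b (l 16612384) (l 16612640)) (l 16607664)) (a (l 16612928) (l 16607896)))) (b (c (a (l 16614232) (l 16609128)) (l 16621480)) (c (l 16622136) (l 16631664))))), by decide +kernel⟩

def k31_pm_022_a : ∃ t, chk3 f_pm_022_a t 38 13 3 = true :=
  ⟨(b (a (b (a (a (c (b (b (c (l 16621920) (l 16621208)) (c (l 16622184) (l 16621496))) (c (l 16622568) (l 16621912))) (b (b (c (l 16620488) (l 16619760)) (c (l 16620800) (l 16620096))) (c (l 16621248) (l 16620584)))) (c (b (c (l 16619576) (l 16618848)) (l 16619712)) (b (c (l 16618112) (l 16617368)) (l 16618336)))) (a (c (c (l 16617336) (l 16616592)) (b (l 16615184) (l 16615744))) (c (b (l 16614240) (l 16614664)) (l 16615536)))) (c (a (b (c (l 16621936) (l 16621312)) (l 16622032)) (b (l 16616480) (l 16616816))) (a (b (l 16620368) (l 16620888)) (l 16625840)))) (a (b (c (b (l 16610680) (l 16611048)) (l 16609240)) (c (l 16611512) (l 16610104))) (b (c (l 16605888) (l 16604136)) (l 16616096)))) (a (a (b (c (l 16622544)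 (l 16621568)) (l 16627856)) (b (c (l 16617208) (l 16616144)) (l 16627568))) (b (c (l 16620248) (l 16619040)) (c (l 16630728) (l 16629824))))), by decide +kernel⟩

def k32_pm_022_a : ∃ t, chk3 f_pm_022_a t 39 12 2 = true :=
  ⟨(a (b (c (b (a (c (l 16603848) (l 16602464)) (b (a (l 1) (c (l 16598600) (l 16597056))) (c (a (l 16600856) (l 16598848)) (a (l 16599416) (l 16597352))))) (a (b (c (a (l 16605208) (l 16603160)) (a (l 16603912) (l 16601816))) (c (l 16604600) (l 16603328))) (c (b (l 16600216) (l 16600408)) (l 16604168)))) (b (a (c (l 16601080) (l 16599704)) (b (a (l 1) (c (l 16595528) (l 16594016))) (c (l 16597048) (l 16595600)))) (a (b (a (c (l 16602624) (l 16601344)) (c (l 16600480) (l 16599152))) (c (l 16602056) (l 16600792))) (c (l 16602776) (l 16601400))))) (c (b (a (c (l 16610192) (l 16603744)) (c (l 16600624) (l 16599328))) (a (l 16609912) (l 16600128))) (a (b (c (l 16602544) (l 16601360)) (l 16602496)) (b (l 16597408) (l 16597792))))) (b (c (b (a (c (l 13991844615)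 (l 16139325223)) (c (l 16591856) (l 16590160))) (a (c (l 16596168) (l 16594672)) (l 16591200))) (a (b (c (l 18823676791) (l 16596360)) (l 16592456)) (b (l 16592888) (l 16588064)))) (c (b (a (l 16595600) (l 16591224)) (l 16604160)) (b (a (l 16592872) (l 16588328)) (l 16591104))))), by decide +kernel⟩

def k33_pm_022_a : ∃ t, chk3 f_pm_022_a t 39 12 3 = true :=
  ⟨(a (b (b (b (a (l 1) (a (l 1) (c (c (l 16592512) (l 16591016)) (l 16588808)))) (a (c (a (l 1) (l 16596672)) (l 16595256)) (c (c (l 16594168) (l 16592736)) (a (l 16591664) (l 16589368))))) (c (c (a (b (a (l 16600064) (l 16597832)) (l 16599544)) (l 16594800)) (a (b (a (l 16598800) (l 16596520)) (l 16598296)) (l 16593448))) (a (b (a (l 16596904) (l 16594568)) (a (l 16597504) (l 16595136))) (b (l 16601656) (l 16591696))))) (b (c (a (b (l 16604616) (l 16599792)) (l 16594896)) (a (b (l 16597000) (l 16597528)) (l 16592440))) (c (a (l 16600352) (l 16595520)) (a (l 16598256) (l 16593296))))) (b (b (c (a (c (l 16594808) (l 16588032))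 (l 16584376)) (a (b (l 16590736) (l 16586008)) (l 16581184))) (c (a (l 16589568) (l 16585016)) (a (l 16586744) (l 16582048)))) (b (c (l 16598704) (l 16585536)) (c (l 16588600) (l 16586184))))), by decide +kernel⟩

def k34_pm_022_a : ∃ t, chk3 f_pm_022_a t 39 13 1 = true :=
  ⟨(b (c (a (c (b (a (l 16604744) (l 16600016)) (l 16613024)) (b (l 16611312) (l 16600776))) (c (b (l 16593280) (l 16592576)) (b (l 16590976) (l 16590584)))) (a (b (c (l 16609328) (l 16596904)) (c (l 16599064) (l 16597408))) (b (l 16598160) (l 16608712)))) (c (a (c (b (l 16622872) (l 16621856)) (b (l 16600440) (l 16620728))) (c (l 16604000) (l 16599904))) (a (b (l 16608824) (l 16619136)) (b (l 16608504) (l 16607992))))), by decide +kernel⟩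

def k35_pm_022_a : ∃ t, chk3 f_pm_022_a t 8 14 2 = true :=
  ⟨(c (a (l 1) (b (a (l 1) (a (l 1) (b (l 1) (a (b (l 1) (l 6)) (a (b (b (l 1) (l 6)) (l 6)) (b (b (c (b (c (l 16676920) (l 16676864)) (a (l 6) (l 16676208))) (a (l 16677536) (b (l 16676024) (l 16676088)))) (c (l 16677032) (l 16676928))) (c (l 16677280) (l 16677200)))))))) (a (l 6) (a (l 6) (a (l 6) (a (l 6) (b (b (l 16677528) (l 16677712)) (l 16683016)))))))) (a (l 1) (b (a (l 1) (a (l 1) (b (l 1) (a (b (l 1) (l 6)) (a (b (b (l 1) (l 6)) (l 6)) (b (b (c (a (l 16677392) (l 16675912)) (l 16676488)) (c (l 16676808) (l 16676664))) (l 16677056))))))) (a (l 6) (a (l 6) (a (l 6) (a (l 6) (a (l 6) (b (l 16676816) (l 16677128)))))))))), by decide +kernel⟩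

def k36_pm_022_a : ∃ t, chk3 f_pm_022_a t 8 14 3 = true :=
  ⟨(c (c (a (l 1) (b (a (l 1) (a (l 1) (b (l 1) (a (b (l 1) (l 6)) (b (a (b (l 1) (l 6)) (b (l 16676312) (l 16676512))) (a (l 6) (l 16676880))))))) (a (l 6) (a (l 6) (a (l 6) (a (l 6) (b (l 16677496) (l 16677984)))))))) (a (l 1) (b (a (l 1) (a (l 1) (b (l 1) (a (b (l 1) (l 6)) (b (a (b (l 1) (l 6)) (l 16676232)) (a (l 6) (l 16676744))))))) (a (l 6) (a (l 6) (a (l 6) (a (l 6) (b (l 16677432) (l 16678016))))))))) (c (a (l 1) (b (a (l 1) (a (l 1) (b (l 1) (a (b (l 1) (l 6)) (b (a (l 16678976) (l 16676032)) (l 16680696)))))) (a (l 6) (a (l 6) (a (l 6) (a (l 6) (b (l 16677344) (l 16678048)))))))) (a (l 1) (b (a (l 1) (a (l 1) (b (l 1) (a (b (l 1) (l 6)) (b (a (l 16678752) (l 16675816)) (l 16677904)))))) (a (l 6) (a (l 6) (a (l 6) (a (l 6) (b (l 16677256) (l 16678072)))))))))), by decide +kernel⟩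

def k37_pm_022_a : ∃ t, chk3 f_pm_022_a t 8 15 1 = true :=
  ⟨(b (a (l 6) (a (l 6) (a (l 6) (a (l 6) (a (l 6) (b (c (c (l 16690368) (l 16700568)) (l 16689688)) (c (c (l 16709912) (l 16719864)) (l 16708600)))))))) (a (l 6) (b (c (a (l 6) (a (l 6) (a (l 6) (c (b (l 16714632) (l 16730104)) (b (l 16713920) (l 16723992)))))) (a (l 6) (a (l 6) (a (l 6) (a (l 6) (b (l 16712496) (l 16722336))))))) (a (l 6) (b (a (l 6) (a (l 6) (a (l 6) (c (c (l 16745512) (l 16733960)) (c (l 16732888) (l 16731808)))))) (c (a (l 6) (a (l 6) (a (l 6) (a (l 6) (b (c (l 16742864) (l 16741648)) (b (c (l 16746904) (l 16745608)) (c (c (l 16751264) (l 16750600)) (c (l 16751232) (l 16747936))))))))) (a (l 6) (a (l 6) (a (l 6) (a (l 6) (b (l 16739792) (c (b (l 16744304) (c (l 16747256) (l 16746576))) (b (l 16742984) (c (l 16745888) (l 16745200))))))))))))))), by decide +kernel⟩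

def k38_pm_022_a : ∃ t, chk3 f_pm_022_a t 72 56 2 = true :=
  ⟨(a (b (l 1) (c (a (b (l 1) (c (a (c (l 16674624) (l 16674560)) (b (c (l 16673112) (l 16673040)) (l 16673136))) (a (l 16674448) (b (l 16672928) (l 16672992))))) (b (c (a (b (l 1) (c (l 16671568) (l 16671496))) (b (c (l 16670024) (l 16669944)) (l 16670040))) (a (b (l 1) (l 16671368)) (b (l 16669808) (l 16669880)))) (c (c (l 16670904) (l 16670832)) (l 16670720)))) (a (b (l 1) (c (a (l 16674280) (l 16672800)) (l 16673360))) (b (c (a (l 16671152) (l 16669664)) (a (l 16670944) (l 16669456))) (c (l 16670560) (l 16670384)))))) (c (b (a (b (l 1) (c (a (b (l 1) (c (a (l 16668840) (l 16668088)) (l 16668376))) (b (c (a (l 16667280) (l 16666528)) (l 16666816)) (l 16666920))) (a (b (l 1) (l 16668240)) (c (l 16666752) (l 16666656))))) (c (b (a (b (l 1) (c (a (l 16665712) (l 16664960)) (l 16665240))) (b (c (a (l 16664144) (l 16663384)) (l 16663664)) (l 16663776))) (c (l 16664672) (l 16664584))) (b (a (b (l 1) (c (l 16665136) (l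 16665032))) (c (l 16663592) (l 16663488))) (l 16664440)))) (a (c (b (c (l 16667800) (l 16667720)) (l 16667848)) (b (l 16667592) (l 16667704))) (c (l 16664768) (l 16664616)))) (a (b (b (l 1) (c (a (l 16668000) (l 16666496)) (a (l 16667776) (l 16666280)))) (c (l 16667488) (l 16667296))) (b (b (c (a (l 16664824) (l 16663320)) (a (l 16664584) (l 16663080))) (c (l 16664240) (l 16664016))) (c (l 16664448) (l 16664264)))))), by decide +kernel⟩

def k39_pm_022_a : ∃ t, chk3 f_pm_022_a t 72 57 2 = true :=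
  ⟨(c (b (a (c (b (a (c (l 16673984) (l 16673928)) (l 16670952)) (l 16677784)) (b (a (l 16673832) (l 16670832)) (l 16672440))) (c (l 16671664) (l 16666312))) (a (c (l 16677992) (l 16672680)) (l 16671808))) (b (a (c (b (l 16677440) (l 16672328)) (b (l 16672040) (l 16672192))) (c (l 16666192) (l 16666064))) (a (c (l 16672592) (l 16672496)) (l 16666416)))), by decide +kernel⟩

def k40_pm_022_a : ∃ t, chk3 f_pm_022_a t 72 28 3 = true :=
  ⟨(b (a (b (l 1) (c (a (b (l 1) (c (l 16673160) (l 16672944))) (b (c (l 16669984) (l 16669752)) (l 16670080))) (a (b (l 1) (l 16672584)) (b (l 16669360) (l 16669632))))) (b (c (a (b (l 1) (c (l 16666792) (l 16666536))) (b (c (l 16663576) (l 16663296)) (l 16663664))) (a (b (l 1) (l 16666120)) (b (l 16662856) (l 16663128)))) (c (c (l 16668208) (l 16665376)) (c (l 16665144) (l 16664904))))) (c (b (a (c (l 16677208) (l 16671792)) (l 16665840)) (a (l 16672320) (l 16666224))) (b (a (b (l 16671368) (l 16671616)) (l 16665488)) (a (l 16672040) (l 16665976))))),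 by decide +kernel⟩

def k41_pm_022_a : ∃ t, chk3 f_pm_022_a t 73 28 1 = true :=
  ⟨(c (b (c (b (a (a (c (b (c (l 16661520) (l 16661416)) (l 16661568)) (b (l 16661264) (l 16661392))) (c (l 16658448) (l 16658256))) (c (l 16653760) (l 16653576))) (a (c (l 16665384) (l 16659992)) (l 16659016))) (b (a (a (c (l 16661120) (l 16660896)) (a (l 16658712) (l 16657168))) (c (l 16653384) (l 16653176))) (a (c (l 16659832) (l 16659664)) (l 16653488)))) (c (b (a (l 16665392) (l 16653784)) (a (l 16660272) (l 16653848))) (b (a (l 16659936) (l 16653616)) (l 16667480)))) (a (b (c (b (c (l 16661752) (l 16658880)) (l 16659384)) (b (c (l 16658616) (l 16658328)) (l 16658960))) (c (l 16665112) (l 16659616))) (b (c (b (l 16652840) (l 16653160)) (b (l 16652344) (l 16652776))) (c (l 16653560) (l 16653360))))), by decide +kernel⟩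

def k42_pm_022_a : ∃ t, chk3 f_pm_022_a t 36 29 1 = true :=
  ⟨(a (c (b (c (b (a (c (l 16672960) (l 16672928)) (l 16666720)) (a (l 16673072) (l 16666776))) (b (a (l 16672864) (l 16666664)) (l 16680456))) (c (b (l 16677784) (l 16680248)) (b (l 16680536) (l 16690984)))) (b (c (b (a (l 16672728) (l 16666568)) (l 16680440)) (b (l 16679992) (l 16680392))) (c (b (l 16680632) (l 16691200)) (l 16680832)))) (c (b (c (b (l 16662384) (l 16667560)) (b (l 16667632) (l 16678168))) (c (b (l 16677864) (l 16682592)) (l 16667560))) (b (c (l 16667720) (l 16667720)) (c (l 16667840) (l 16678592))))), by decide +kernel⟩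

def k43_pm_022_a : ∃ t, chk3 f_pm_022_a t 36 30 1 = true :=
  ⟨(b (c (c (b (a (l 16683872) (l 16692272)) (a (l 16693704) (l 16681192))) (a (b (l 16694072) (l 16703768)) (l 16686240))) (a (c (l 16690720) (l 16687776)) (c (l 16685768) (l 16685296)))) (c (c (a (b (l 16703488) (l 16708080)) (b (l 16691024) (l 16700912))) (a (a (l 16708400) (l 16707216)) (b (l 16690304) (l 16700032)))) (a (c (b (l 16691896) (l 16701456)) (l 16709176)) (c (l 16704856) (l 16704072))))), by decide +kernel⟩

def k44_pm_022_a : ∃ t, chk3 f_pm_022_a t 36 62 1 = true :=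
  ⟨(c (a (c (b (l 16720752) (c (l 16733896) (l 16722904))) (b (l 16712040) (a (l 16722736) (l 16721592)))) (c (b (l 16721496) (c (l 16721640) (l 16721024))) (b (l 16709968) (l 16730584)))) (a (c (b (l 16711192) (l 16721120)) (b (l 16710352) (l 16720104))) (c (b (l 16708912) (l 16718856)) (b (l 16707864) (l 16717616))))), by decide +kernel⟩

def k45_pm_022_a : ∃ t, chk3 f_pm_022_a t 36 126 1 = true :=
  ⟨(c (c (a (c (a (l 16744952) (l 16743968)) (b (l 16730712) (l 16735992))) (c (b (l 16729568) (l 16734920)) (b (l 16728872) (l 16734176)))) (a (a (l 16738280) (l 16737152)) (a (l 16738768) (l 16737888)))) (c (a (c (l 16742024) (l 16730936)) (c (l 16729352) (l 16728632))) (a (a (l 16730720) (l 16729376)) (a (l 16728128) (l 16726992))))), by decide +kernel⟩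

def k46_pm_022_a : ∃ t, chk3 f_pm_022_a t 36 127 2 = true :=
  ⟨(c (b (a (c (a (l 16742496) (l 16741536)) (a (l 16741856) (l 16740840))) (c (a (l 16740712) (l 16740016)) (a (l 16739944) (l 16739176)))) (a (b (c (a (l 16746568) (l 16745624)) (a (l 16745888) (l 16744880))) (b (c (a (l 16748616) (l 16747672)) (a (l 16747912) (l 16746912))) (c (a (c (l 16750168) (l 16749808)) (c (l 16749240) (l 16748856))) (a (c (l 16749448) (l 16749096)) (c (l 16748464) (l 16748072)))))) (b (c (a (l 16744808) (c (l 16744344) (l 16743904))) (a (l 16743992) (l 16743240))) (c (a (c (a (l 16747952) (l 16747592)) (b (l 16746656) (l 16748032))) (c (a (l 16747264) (b (l 16746272) (l 16747656))) (a (l 16746816) (l 16746496)))) (b (a (l 16746032) (l 16745280)) (a (c (l 16747608) (l 16747184)) (c (l 16746880) (l 16746416)))))))) (b (a (c (l 16743272) (l 16739968)) (c (a (l 16739176) (l 16738336)) (l 16737928))) (b (a (c (l 16744648) (l 16743928)) (c (a (l 16743184) (l 16742352)) (l 16741896))) (b (a (c (a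 (l 16747208) (l 16746144)) (a (l 16746504) (l 16745376))) (c (a (l 16745200) (l 16744376)) (a (l 16744360) (l 16743464)))) (a (c (a (c (l 16748736) (l 16748376)) (c (l 16747688) (l 16747296))) (a (c (l 16748016) (l 16747656)) (c (l 16746904) (l 16746512)))) (c (a (c (l 16746760) (l 16746336)) (c (l 16745960) (l 16745496))) (a (c (l 16745912) (l 16745480)) (c (l 16745032) (l 16744568))))))))), by decide +kernel⟩

def k47_pm_022_a : ∃ t, chk3 f_pm_022_a t 36 127 3 = true :=
  ⟨(b (c (a (c (l 16739288) (l 16738608)) (c (l 16737120) (l 16736312))) (a (l 16737584) (c (l 16735496) (l 16734680)))) (c (b (a (c (l 16743208) (l 16742488)) (c (l 16741048) (l 16740192))) (b (a (c (l 16747800) (l 16747056)) (c (l 16743016) (l 16742144))) (a (c (a (c (l 16747288) (l 16746928)) (c (l 16746120) (l 16745720))) (a (c (l 16746568) (l 16746200)) (c (l 16745328) (l 16744936)))) (c (a (c (l 16745056) (l 16744624)) (c (l 16744112) (l 16743648))) (a (c (l 16744200) (l 16743768)) (c (l 16743184) (l 16742720)))))))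 (b (a (c (l 16741760) (l 16741032)) (c (l 16739336) (l 16738480))) (b (a (c (l 16746312) (l 16742944)) (c (l 16741264) (l 16740384))) (a (c (a (c (l 16745840) (l 16745472)) (c (l 16744536) (l 16744144))) (a (c (l 16745104) (l 16744736)) (c (l 16743744) (l 16743344)))) (c (a (c (l 16743344) (l 16742912)) (c (l 16742256) (l 16741792))) (a (c (l 16742480) (l 16742048)) (l 16741088)))))))), by decide +kernel⟩

def k48_pm_022_a : ∃ t, chk3 f_pm_022_a t 37 14 1 = true :=
  ⟨(a (b (c (a (b (c (b (l 16652544) (l 16647344)) (b (l 16646944) (l 16647096))) (c (l 16652552) (l 16647232))) (b (c (b (l 16640952) (l 16640920)) (l 16645936)) (c (l 16661744) (l 16661728)))) (a (b (c (l 16651936) (l 16646304)) (c (l 16647128) (l 16646984))) (b (c (l 16650880) (l 16640056)) (c (l 16661680) (l 16661600))))) (b (c (c (a (l 16668136) (l 16661448)) (a (l 16668288) (l 16661672))) (c (l 16661752) (l 16663184))) (c (c (a (l 16676632) (l 16675864)) (l 16672768)) (c (l 16672472) (l 16674800))))) (b (c (c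 (b (a (l 16640128) (l 16629488)) (a (l 16655496) (l 16649880))) (b (a (l 16634608) (l 16629128)) (l 16646464))) (a (b (c (l 16634304) (l 16633968)) (l 16644936)) (b (l 16639056) (l 16649688)))) (c (b (c (l 16651048) (l 16654912)) (c (l 16668528) (l 16673392))) (b (a (l 16655920) (l 16654376)) (c (l 16673008) (l 16672632)))))), by decide +kernel⟩

def k49_pm_022_a : ∃ t, chk3 f_pm_022_a t 37 30 1 = true :=
  ⟨(b (c (a (c (a (l 16696056) (l 16695336)) (a (l 16695440) (l 16694632))) (c (b (l 16688408) (l 16698440)) (l 16692664))) (a (c (l 16693928) (l 16693296)) (c (l 16691912) (l 16691152)))) (c (a (c (a (l 16705360) (l 16704696)) (b (l 16709184) (l 16708480))) (c (b (l 16708424) (l 16707976)) (a (l 16713216) (l 16690952)))) (a (c (b (l 16708280) (l 16717888)) (b (l 16707384) (l 16716808))) (c (c (l 16711424) (l 16710848)) (l 16709976))))), by decide +kernel⟩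

def k50_pm_022_a : ∃ t, chk3 f_pm_022_a t 37 62 1 = true :=
  ⟨(a (c (c (b (a (l 16709976) (l 16709360)) (a (l 16720336) (l 16719744))) (b (l 16718464) (a (l 16718912) (l 16718176)))) (c (b (l 16717192) (a (l 16717480) (l 16716616))) (a (l 16732144) (l 16720664)))) (c (c (b (a (l 16708592) (l 16707440)) (a (l 16719016) (l 16717936))) (b (l 16716760) (a (l 16717344) (l 16716184)))) (c (a (l 16726408) (l 16730400)) (a (l 16730088) (l 16728760))))), by decide +kernel⟩

def k51_pm_022_a : ∃ t, chk3 f_pm_022_a t 74 63 1 = true :=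
  ⟨(c (b (c (a (c (l 16731336) (l 16730512)) (c (l 16741288) (l 16740392))) (a (c (l 16729688) (l 16728856)) (c (l 16729008) (l 16728112)))) (b (c (a (c (l 16739456) (l 16738544)) (c (a (l 16739136) (l 16738944)) (l 16743208))) (a (c (l 16737632) (l 16736720)) (c (l 16736976) (l 16735984)))) (c (b (c (a (c (l 16743816) (l 16743336)) (c (l 16743344) (l 16742824))) (a (l 16742616) (a (l 16742240) (l 16742008)))) (a (c (b (c (l 16745888) (l 16745400)) (c (a (l 16747400) (c (l 16747304) (l 16747048))) (a (l 16746912) (l 16746664)))) (c (a (l 16745736) (l 16745472)) (b (l 16744416) (l 16745784)))) (c (c (a (a (l 16748952) (l 16747560)) (b (l 16745416) (a (l 16746864) (l 16746792)))) (a (b (l 16745072) (l 16746456)) (a (l 16745624) (l 16747184)))) (c (a (l 16745240) (a (l 16745088) (l 16744992))) (a (l 16744712) (b (l 16743792) (l 16745160))))))) (b (a (c (l 16741656) (l 16740696)) (c (a (l 16741216) (l 16740944)) (l 16745208))) (a (c (b (l 16743680) (c (l 16745280) (l 16744784)))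 (c (l 16746232) (l 16743112))) (c (a (c (l 16744184) (l 16743656)) (c (l 16745888) (l 16743376))) (a (c (l 16743128) (l 16742600)) (c (l 16742832) (l 16742280))))))))) (b (c (a (l 16727616) (l 16737248)) (a (l 16725960) (l 16735448))) (b (c (a (l 16735344) (c (l 16734992) (l 16734000))) (a (l 16733512) (l 16737752))) (c (b (a (c (l 16739736) (l 16738768)) (c (l 16738928) (l 16737888))) (a (c (c (l 16742616) (l 16742120)) (c (l 16741624) (l 16741128))) (c (a (l 16741816) (c (l 16741736) (l 16741192))) (a (l 16740760) (l 16740368))))) (b (a (l 16737320) (c (l 16736848) (l 16735808))) (a (c (b (l 16739736) (l 16741024)) (l 16742000)) (c (a (l 16739704) (l 16739272)) (a (l 16738648) (l 16738176))))))))), by decide +kernel⟩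

def k52_pm_022_a : ∃ t, chk3 f_pm_022_a t 75 63 2 = true :=
  ⟨(b (c (a (c (l 16740640) (l 16729200)) (c (l 16729160) (l 16728160))) (a (c (l 16728240) (l 16727280)) (l 16737136))) (b (c (a (c (a (l 16738632) (l 16738168)) (l 16742528)) (c (l 16737408) (l 16736304))) (a (c (l 16736224) (l 16735168)) (c (l 16735192) (l 16734088)))) (c (a (a (b (c (l 16742776) (l 16741680)) (c (c (b (l 16745136) (a (l 16747968) (l 16746440))) (b (l 16744576) (c (l 16746104) (l 16745824)))) (a (c (l 16744832) (l 16744272)) (c (l 16744600) (l 16744032))))) (b (c (l 16742320) (l 16741200)) (b (c (l 16744408) (l 16743264)) (c (a (c (l 16746232) (l 16745648)) (c (l 16746024) (l 16745440))) (c (l 16744936) (l 16744352)))))) (b (c (c (l 16741872) (l 16741296)) (l 16740424)) (b (c (c (l 16743984) (l 16743392)) (c (l 16742800) (l 16742200))) (c (c (a (a (l 16745824) (l 14)) (l 14)) (a (b (l 16744752) (l 16745448)) (b (l 16744344) (l 16745704)))) (c (a (l 16744504) (l 16744080)) (a (l 16743904) (l 16743472)))))))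 (b (a (c (a (l 16740584) (l 16740072)) (l 16741784)) (c (l 16739264) (l 16738104))) (a (c (a (c (b (l 16742896) (l 16744256)) (l 16743008)) (c (l 16743080) (l 16742504))) (a (c (l 16742448) (l 16741880)) (l 16744256))) (c (a (c (l 16742624) (l 16742032)) (c (l 16742176) (l 16741568))) (b (l 16740128) (a (l 16741816) (l 16741336))))))))), by decide +kernel⟩

def k53_pm_022_a : ∃ t, chk3 f_pm_022_a t 75 63 3 = true :=
  ⟨(b (c (a (l 16736320) (l 16724640)) (a (l 16723912) (l 16722624))) (b (c (a (c (l 16734112) (l 16733056)) (l 16732424)) (a (l 16736712) (l 16730208))) (c (b (a (c (l 16738056) (l 16736952)) (c (l 16736944) (l 16735784))) (a (c (a (c (l 16741312) (l 16740752)) (l 16740480)) (a (l 16739904) (l 16739320))) (a (c (l 16739960) (l 16738768)) (c (l 16739448) (l 16738232))))) (a (a (c (l 16742728) (l 16736368)) (b (l 16735024) (l 16740208))) (b (l 16734040) (c (l 16737208) (l 16736016))))))), by decide +kernel⟩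

def k54_pm_022_a : ∃ t, chk3 f_pm_022_a t 19 14 1 = true :=
  ⟨(a (b (a (c (b (c (l 16632328) (l 16631840)) (c (l 16641872) (l 16641696))) (b (c (l 16641832) (l 16641352)) (l 16633592))) (c (b (c (l 16631608) (l 16630984)) (c (l 16630376) (l 16630824))) (b (l 16619608) (l 16631448)))) (c (a (b (c (l 16651688) (l 16651704)) (c (l 16670752) (l 16670400))) (b (c (l 16648864) (l 16648944)) (c (l 16668176) (l 16667832)))) (a (b (l 16646472) (l 16664608)) (b (l 16649016) (l 16667272))))) (b (a (c (b (c (l 16620408) (l 16619656)) (l 16622400)) (b (l 16618616) (l 16628656))) (c (c (l 16620464) (l 16616088)) (b (l 16608568) (l 16625912)))) (c (b (a (l 16640936) (l 16643536)) (a (l 16660264) (l 16652600))) (a (b (l 16646352) (l 16664744)) (b (l 16643752) (l 16641296)))))), by decide +kernel⟩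

def k55_pm_022_a : ∃ t, chk3 f_pm_022_a t 19 30 1 = true :=
  ⟨(a (b (c (a (c (l 16690664) (l 16689888)) (c (l 16688336) (l 16687520))) (a (c (l 16689096) (l 16688296)) (l 16686240))) (a (c (c (l 16705712) (l 16709720)) (c (l 16708480) (l 16707232))) (c (c (l 16698392) (l 16707544)) (c (l 16706200) (l 16683864))))) (a (c (b (c (l 16665120) (l 16664240)) (c (l 16696424) (l 16705472))) (b (l 16683832) (l 16703272))) (c (b (c (l 16662984) (l 16662040)) (c (l 16705072) (l 16682552))) (b (l 16660544) (l 16701128))))), by decide +kernel⟩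

def k56_pm_022_a : ∃ t, chk3 f_pm_022_a t 38 62 1 = true :=
  ⟨(b (c (a (c (l 16705456) (l 16703872)) (c (l 16703592) (l 16701856))) (a (c (l 16702272) (l 16700664)) (l 16709720))) (c (a (c (a (l 16716960) (l 16716016)) (l 16724712)) (c (l 16724840) (l 16712336))) (a (c (l 16722856) (l 16710504)) (c (l 16710304) (l 16708264))))), by decide +kernel⟩

def k57_pm_022_a : ∃ t, chk3 f_pm_022_a t 38 126 1 = true :=
  ⟨(c (a (c (a (c (l 16728280) (l 16727232)) (c (l 16727440) (l 16726344))) (a (l 16736136) (l 16735184))) (c (b (l 16733072) (c (l 14) (l 16727560))) (a (l 16734264) (l 16733400)))) (a (c (a (l 16723552) (l 16722496)) (a (l 16721440) (l 16720288))) (c (a (l 16721480) (l 16720520)) (a (l 16719184) (l 16718112))))), by decide +kernel⟩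

def k58_pm_022_a : ∃ t, chk3 f_pm_022_a t 38 254 2 = true :=
  ⟨(c (a (c (a (l 16736584) (l 16735808)) (a (l 16735424) (l 16734600))) (c (l 14) (a (l 16733824) (l 16733088)))) (a (a (c (l 16734264) (l 16733112)) (c (l 16733392) (l 16732176))) (c (a (l 16732560) (l 16731776)) (a (l 16731296) (l 16730456))))), by decide +kernel⟩

def k59_pm_022_a : ∃ t, chk3 f_pm_022_a t 38 255 2 = true :=
  ⟨(a (c (c (a (c (l 14) (b (l 16740488) (a (b (l 16742888) (a (l 16744424) (l 14))) (l 14)))) (l 14)) (b (a (l 16739584) (c (l 16739104) (l 16738472))) (b (a (c (l 16741984) (l 16741360)) (a (l 16741168) (l 16740784))) (a (c (a (b (l 16743328) (l 16744024)) (b (l 16742928) (l 16743632))) (a (l 16743048) (l 16742640))) (c (a (a (l 16743016) (l 14)) (l 14)) (a (l 16742248) (a (l 16741976) (l 16741792)))))))) (b (a (c (l 16738368) (l 16737152)) (c (l 16737520) (l 16736248))) (b (a (c (c (l 16740744) (l 16740120)) (l 16739184)) (c (c (l 16739920) (l 16739272)) (a (l 16738592) (l 16738160)))) (a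 (a (c (c (l 16742424) (l 16741800)) (l 16740864)) (c (c (l 16742000) (l 16741368)) (l 16741720))) (c (c (a (l 16741592) (b (l 16740848) (l 16741544))) (a (l 16740944) (l 16740528))) (a (c (l 16740288) (l 16739632)) (c (l 16739864) (l 16739192)))))))) (c (c (l 14) (a (b (l 16738040) (a (a (c (l 14) (l 16742208)) (b (l 16740344) (l 14))) (l 14))) (l 14))) (b (c (a (l 16736712) (l 16735960)) (a (l 16735392) (l 16734584))) (b (c (a (c (l 16739144) (l 16738472)) (c (l 16738424) (l 16737720))) (a (l 16737456) (l 16739280))) (c (a (c (a (l 16740808) (l 16741752)) (a (l 16740128) (l 16739744))) (c (a (b (l 16739728) (l 16740432)) (l 14)) (a (l 16739368) (l 16739008)))) (a (c (a (l 16739448) (l 16739048)) (a (l 16738768) (l 16738352))) (c (a (l 16738664) (l 16738288)) (a (l 16737952) (l 16737560))))))))), by decide +kernel⟩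

def k60_pm_022_a : ∃ t, chk3 f_pm_022_a t 38 127 3 = true :=
  ⟨(b (a (c (a (l 16731368) (l 16735600)) (a (l 16729048) (l 16727936))) (c (a (l 16729400) (l 16728480)) (a (l 16726864) (l 16725840)))) (a (c (b (a (c (l 16735936) (l 16734720)) (c (l 16734976) (l 16733712))) (a (a (c (l 16738944) (l 16737704)) (c (l 16738456) (l 16737192))) (c (a (l 16737984) (b (l 16736840) (l 16738192))) (a (l 16736688) (l 16736192))))) (a (b (l 16732896) (c (l 16736112) (l 16734856))) (a (c (l 16734080) (l 16732808)) (c (l 16738800) (l 16732256))))) (c (b (c (a (l 16734064) (l 16733200)) (a (l 16732744) (l 16731824))) (c (a (b (l 16736096) (a (l 16737744) (l 16737312))) (b (l 16735248) (c (a (l 16737240) (l 16736840)) (l 16737568)))) (a (a (l 16735712) (l 16735248)) (a (l 16734792) (l 16734352))))) (a (b (l 16730752) (c (b (l 16733392) (l 16734704)) (l 16732680))) (b (l 16729752) (c (b (l 16732424) (l 16733752)) (l 16731664))))))), by decide +kernel⟩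

def k61_pm_022_a : ∃ t, chk3 f_pm_022_a t 39 62 1 = true :=
  ⟨(c (a (c (b (l 16701848) (l 16723272)) (b (l 16699976) (l 16710592))) (c (b (l 16700280) (l 14)) (b (l 16698248) (l 16709024)))) (a (c (b (l 16698072) (l 16708384)) (l 16722128)) (c (b (l 16696192) (l 16706640)) (l 16720144)))), by decide +kernel⟩

def k62_pm_022_a : ∃ t, chk3 f_pm_022_a t 39 63 2 = true :=
  ⟨(b (c (a (c (l 14) (l 16733832)) (l 14)) (a (c (l 16732576) (l 16731312)) (c (l 16731224) (l 16729856)))) (b (c (l 14) (a (c (a (l 16731040) (l 16730352)) (a (l 16729672) (l 16728928))) (c (l 14) (a (l 16728240) (l 16727608))))) (c (l 14) (a (b (c (a (l 16735264) (l 14)) (a (l 16733824) (l 16733120))) (b (c (a (c (l 14) (l 16737024)) (l 14)) (a (c (l 16736288) (l 16735552)) (c (l 16735608) (l 16734848)))) (c (a (c (l 14) (a (b (l 16738312) (l 16739016)) (l 14))) (l 14)) (a (c (a (l 16737928) (l 16737576)) (a (l 16737184) (l 16736824))) (c (a (l 16737240) (l 14)) (a (l 16736472) (l 16736136))))))) (a (c (l 14)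 (b (l 16732464) (a (b (l 16734792) (c (l 14) (l 16735808))) (l 14)))) (l 14)))))), by decide +kernel⟩

def k63_pm_022_a : ∃ t, chk3 f_pm_022_a t 39 63 3 = true :=
  ⟨(b (a (c (a (l 16719592) (l 16718720)) (a (l 16717096) (l 16716120))) (c (a (l 16717896) (l 16717112)) (l 16725056))) (b (a (a (c (l 16727608) (l 16724864)) (c (l 16726792) (l 16723936))) (a (c (l 16726024) (l 16723056)) (c (l 16725304) (l 16722224)))) (a (c (b (c (a (l 16732392) (l 16731624)) (a (l 16730952) (l 16730136))) (b (c (a (l 16734448) (l 16733704)) (a (l 16732984) (l 16732176))) (c (a (c (a (l 16736448) (l 16736072)) (a (l 16735704) (l 16735312))) (c (a (l 16735704) (l 16735352)) (a (l 16734936) (l 16734568)))) (a (c (l 16734712) (l 16733968)) (a (l 16733784) (l 16733400)))))) (a (b (l 16728800) (c (a (l 16732456) (l 16732008)) (l 16730696))) (b (l 16727896) (a (c (l 16731576) (l 16730056)) (c (l 16731160) (l 16729608)))))) (c (b (c (a (l 16730912) (l 16730256)) (a (l 16729368) (l 16728648))) (b (c (a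 (l 16733008) (l 16734984)) (a (l 16731424) (l 16730720))) (c (a (c (a (l 16735016) (l 16734688)) (a (l 16734216) (l 16733880))) (c (a (l 16734376) (l 14)) (a (l 16733552) (l 16733240)))) (a (c (a (l 16733416) (l 16733064)) (l 16733704)) (c (a (l 16732728) (l 16732400)) (a (l 16731896) (l 16731552))))))) (a (b (l 16732280) (a (c (l 16730752) (l 16729168)) (c (l 16730360) (l 16728744)))) (a (b (l 16726472) (c (l 16729976) (l 16728336))) (b (l 16726080) (c (l 16732232) (l 16727936))))))))), by decide +kernel⟩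

def k64_pm_022_a : ∃ t, chk3 f_pm_022_a t 20 6 1 = true :=
  ⟨(a (b (c (a (b (c (b (a (l 16586936) (l 16582856)) (l 16595632)) (b (a (l 16583392) (l 16579136)) (l 16581744))) (c (b (l 16584904) (l 16584432)) (b (l 16581760) (l 16581576)))) (b (c (b (l 16617792) (l 16660696)) (b (l 16572880) (l 16572784))) (c (b (l 16656960) (l 16653944)) (l 16582784)))) (c (a (b (b (l 16588496) (l 16578448)) (l 16589320)) (b (l 16579664) (l 16569176))) (a (b (b (l 16585072) (l 16575264)) (l 16586536)) (b (l 16576104) (l 16566192))))) (c (c (b (a (b (l 16583664) (l 16582576)) (l 16651224)) (a (l 16601224) (l 16652376))) (b (a (l 16601776) (l 16591672)) (a (l 16599600) (l 16588736)))) (b (a (c (l 16599504) (l 16597336)) (l 16577568)) (a (l 16592088) (l 16586312))))) (a (b (c (b (c (b (l 16838616) (l 16831720)) (l 16574352)) (c (l 16780048) (l 16562688))) (b (c (l 16559952) (l 16556200)) (l 16576160))) (c (b (c (l 16811296) (l 16581384)) (c (l 16804744) (l 16577688))) (b (l 16577592) (l 16575184))))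 (b (a (c (b (c (l 16946176) (l 16579232)) (c (l 16929768) (l 16577736))) (b (l 16551040) (l 16550384))) (c (b (a (c (l 16996664) (l 16640080)) (c (l 17028672) (l 16678728))) (a (l 16660936) (c (l 17010000) (l 16674064)))) (b (a (l 16547456) (c (l 16568016) (l 16564264))) (a (l 16546616) (l 16559904))))) (a (c (b (l 16726640) (l 16746048)) (b (l 16569720) (l 16573088))) (c (b (a (l 16799624) (l 16664912)) (a (l 16795728) (l 16785376))) (b (a (l 16565728) (l 16563136)) (a (l 16572112) (l 16592352)))))))), by decide +kernel⟩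

def k65_pm_022_a : ∃ t, chk3 f_pm_022_a t 21 6 1 = true :=
  ⟨(b (c (a (b (c (l 17158608) (a (l 16769360) (l 16897536))) (c (l 17136408) (l 16805464))) (b (l 16989224) (l 17094112))) (a (b (a (l 16539800) (l 16531072)) (c (l 16557088) (l 16553640))) (b (l 16634648) (l 16635064)))) (a (b (c (c (l 17114952) (l 16819312)) (l 16553888)) (c (c (l 17095616) (l 16816248)) (a (l 16569312) (l 16566288)))) (c (b (l 17094800) (l 17055464)) (b (l 16639104) (l 16648256))))), by decide +kernel⟩

def k66_pm_022_a : ∃ t, chk3 f_pm_022_a t 40 14 1 = true :=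
  ⟨(b (c (a (c (l 16612280) (l 16613240)) (b (l 16600640) (l 16619328))) (a (l 16614520) (l 16611816))) (c (b (c (l 16639016) (l 16639224)) (c (l 16659280) (l 16658896))) (a (l 16661048) (l 16658672)))), by decide +kernel⟩

def k67_pm_022_a : ∃ t, chk3 f_pm_022_a t 40 30 1 = true :=
  ⟨(b (c (c (a (l 16660984) (l 16703408)) (l 16684656)) (a (l 16658328) (l 16656264))) (c (a (c (l 16682448) (l 16680768)) (c (l 16723448) (l 16679168))) (a (l 16699144) (l 16697328)))), by decide +kernel⟩

def k68_pm_022_a : ∃ t, chk3 f_pm_022_a t 40 31 1 = true :=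
  ⟨(b (c (b (c (a (l 16698896) (l 16741056)) (a (l 16696704) (l 16695352))) (c (l 14) (a (l 16707648) (l 14)))) (a (c (l 16720744) (l 16718320)) (c (l 16719296) (l 16716680)))) (c (b (c (l 14) (a (c (l 14) (l 16718112)) (l 14))) (l 14)) (b (a (c (a (l 16716384) (l 16715712)) (l 16723432)) (c (a (l 16715080) (l 16714512)) (l 16722008))) (b (a (a (c (l 16729880) (l 16721448)) (c (l 16729264) (l 16720720))) (c (c (l 14) (a (l 16722608) (l 16722072))) (a (l 16720040) (l 16719424)))) (a (c (b (c (a (l 16729648) (l 14)) (a (l 16727984) (l 16727376))) (b (c (a (c (l 14) (l 16731344)) (l 14)) (a (l 16730072) (l 16729472))) (c (a (c (l 14) (a (l 16732936) (l 14))) (l 14)) (a (c (a (l 16732080) (l 16731784)) (a (l 16731224) (l 16730912))) (c (a (l 16731496) (l 14)) (a (l 16730608) (l 16730320))))))) (b (c (a (l 16726320) (l 16725648)) (a (l 16724648) (l 16723920))) (c (a (b (l 16728368) (a (l 16729944) (l 16729600))) (a (a (l 16728680) (l 16731136)) (c (l 16728720) (l 16727832)))) (a (a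 (l 16727552) (l 16727184)) (a (l 16726832) (l 16726488)))))) (c (a (c (l 14) (b (l 16726816) (a (b (l 16729088) (c (l 14) (l 16730048))) (l 14)))) (l 14)) (b (c (a (l 16725032) (l 16724472)) (a (l 16723248) (l 16722624))) (b (c (a (l 16727112) (l 16726568)) (a (l 16725288) (l 16724688))) (c (a (c (a (l 16729128) (l 16728856)) (a (l 16728216) (l 16727920))) (c (a (l 16728592) (l 14)) (a (l 16727648) (l 16727384)))) (a (a (l 16726840) (l 16726528)) (a (l 16728848) (a (l 16726016) (l 16725872))))))))))))), by decide +kernel⟩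

def k69_pm_022_a : ∃ t, chk3 f_pm_022_a t 41 14 1 = true :=
  ⟨(a (b (c (c (l 16804496) (l 16607960)) (l 16609288)) (c (b (l 16664200) (l 16678048)) (l 16656464))) (b (c (a (l 16730192) (a (l 16798056) (c (l 16968664) (l 16687272)))) (a (l 16607448) (a (l 16606584) (l 16605936)))) (a (c (b (l 16760704) (l 16770440)) (l 16644432)) (c (a (b (l 16805176) (l 16813088)) (b (l 16833512) (l 16735424))) (a (l 16643704) (l 16653648)))))), by decide +kernel⟩

def k70_pm_022_a : ∃ t, chk3 f_pm_022_a t 41 15 1 = true :=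
  ⟨(b (a (c (b (c (l 16826576) (l 16656392)) (c (l 16818664) (l 16677816))) (b (l 16654408) (l 16695728))) (c (a (b (l 16762344) (c (l 16916688) (l 16682168))) (b (a (l 16782032) (c (l 16969560) (l 16730384))) (a (c (l 16952384) (l 16723440)) (c (l 16975168) (b (l 16744624) (l 16755144)))))) (a (b (l 16653120) (l 16673680)) (b (a (l 16652520) (l 16673040)) (a (l 16673184) (c (l 16694944) (l 16671608))))))) (b (b (c (a (c (l 16851608) (l 16694256)) (a (c (l 16925160) (l 16702184)) (a (c (l 16959296) (l 16741488)) (c (l 16981104) (l 16703704))))) (a (l 16700848) (a (l 16689448) (a (l 16689032) (c (l 16690176) (l 16687240)))))) (c (l 14) (c (a (l 16702584) (l 14)) (a (l 16699584) (a (l 16698704) (a (l 16698304) (l 16713712))))))) (c (l 14) (a (c (b (a (l 16713992) (l 14)) (l 14)) (b (a (l 16710648) (l 16710080)) (b (a (l 16718856) (l 16728840)) (b (a (c (l 16723968) (l 16722064)) (c (l 14) (l 16721568))) (b (a (c (c (l 14) (l 16725600)) (l 16724144)) (c (l 14) (a (l 16723776) (l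 16723544)))) (a (c (c (l 14) (a (l 16727136) (l 14))) (c (a (l 16726160) (l 16725912)) (a (l 16725176) (l 16724912)))) (c (l 14) (a (c (l 16725672) (l 16724664)) (c (l 14) (l 16724432)))))))))) (c (l 14) (c (a (b (l 16710496) (l 14)) (l 14)) (a (b (l 16708704) (b (l 16716968) (b (a (l 16721216) (l 16721016)) (a (c (l 14) (a (l 16723560) (l 16723456))) (l 14))))) (b (a (l 16708344) (a (a (a (l 16708144) (l 16721232)) (l 16708064)) (l 16707976))) (a (b (a (l 16716640) (l 16716552)) (l 14)) (l 14)))))))))), by decide +kernel⟩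

def k71_pm_022_a : ∃ t, chk3 f_pm_022_a t 21 7 1 = true :=
  ⟨(b (b (c (a (b (l 16845744) (l 16802184)) (c (l 17239704) (l 17009232))) (a (l 16612760) (l 16664368))) (a (c (b (c (l 17072040) (l 16826344)) (c (l 17068792) (l 16834144))) (b (l 16609304) (l 16629008))) (c (c (l 17220936) (l 17008008)) (b (l 16682104) (l 16697240))))) (b (c (c (a (b (l 17067672) (l 17047624)) (l 17207816)) (a (b (l 16844736) (a (l 16811984) (l 16901968))) (b (l 17012272) (l 17017744)))) (b (a (l 16670568) (l 16715360)) (a (c (l 16671976) (l 16669456)) (c (l 16809192) (l 16667200))))) (c (b (a (c (a (l 17034152) (l 17107584)) (b (l 16765224) (l 14))) (c (l 17202200) (a (l 16991208) (l 17058288)))) (a (c (a (c (l 17089496) (l 14)) (a (l 17073984) (l 17127480))) (l 14)) (c (b (l 17201016) (l 17200896)) (a (c (l 17046024) (l 14)) (a (l 17030872) (l 17081752)))))) (b (b (a (c (l 16688528) (l 16685408)) (c (l 16843992) (l 16683768))) (a (c (l 14) (l 16696376)) (l 14))) (b (a (c (l 14) (a (l 16708328)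 (l 14))) (l 14)) (l 14)))))), by decide +kernel⟩

def k72_pm_022_a : ∃ t, chk3 f_pm_022_a t 11 3 1 = true :=
  ⟨(b (a (c (b (a (l 17190744) (l 17451280)) (a (b (l 17302192) (l 17279360)) (l 17399640))) (b (a (b (l 16850720) (l 16844928)) (l 17013008)) (a (b (l 16841664) (l 16842248)) (b (l 17000112) (l 16994744))))) (b (c (l 17574336) (a (l 17143200) (l 17247000))) (c (a (l 17484888) (l 17552176)) (a (b (l 17125632) (l 17116256)) (l 17220744))))) (b (a (c (b (a (l 17258920) (l 17363696)) (a (l 17221128) (l 17342440))) (b (a (l 16848272) (l 16993696)) (a (b (l 16857304) (l 16865960)) (l 16935424)))) (c (a (l 17370480) (l 17498992)) (a (b (l 17110336) (l 17088104)) (b (l 17206624) (l 17201512))))) (a (b (c (a (c (l 17317392) (l 17143592)) (l 17325176)) (a (b (l 16835096) (c (l 16974912) (l 16806200))) (b (l 17006672) (l 16888840)))) (c (b (a (c (l 17305384) (l 17145736)) (l 17315128)) (a (c (l 17299208) (b (l 17148552) (l 17151144))) (l 17205304))) (c (b (a (a (l 16954840) (l 17016352))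 (l 17097336)) (a (a (c (l 16988016) (l 14)) (a (l 16993944) (l 17042512))) (b (l 17103352) (l 17108112)))) (b (a (b (l 16821464) (l 14)) (a (l 16923456) (l 16980064))) (a (l 14) (a (a (l 14) (a (l 14) (l 16920880))) (a (l 16919864) (l 17008312)))))))) (c (b (a (l 17401320) (l 17463824)) (a (c (l 17448248) (l 17319240)) (l 17442864))) (b (a (a (l 17026760) (l 17137184)) (l 17201480)) (b (a (c (l 17188488) (l 17055808)) (l 17205064)) (a (c (l 17192616) (a (l 17023424) (l 17089960))) (c (l 17266720) (l 17152320))))))))), by decide +kernel⟩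

def k73_pm_022_a : ∃ t, chk3 f_pm_022_a t 3 1 1 = true :=
  ⟨(b (a (a (b (a (c (l 17791136) (l 17439224)) (l 17693568)) (a (c (l 17742472) (l 17405856)) (l 17655896))) (b (l 17747216) (c (l 17827128) (l 17601920)))) (a (b (l 17745056) (l 17717864)) (l 17676440))) (a (b (a (a (c (b (l 17679056) (l 17626472)) (b (l 17365848) (l 17336768))) (b (l 17606384) (l 17565960))) (b (l 17669184) (l 17630688))) (a (b (a (c (l 17572488) (a (l 17280552) (l 17343504))) (c (l 17635128) (l 17416288))) (c (a (b (l 17534560) (l 17510264)) (l 17581560)) (a (b (l 17304632) (a (b (l 17273728) (c (l 17327864) (l 17222984))) (l 17329680))) (b (l 17401312) (l 17394064))))) (b (c (l 17676256) (l 17504016)) (c (l 17621864) (b (l 17484088) (l 17471448)))))) (b (a (l 17658616) (l 17614344)) (a (b (l 17603080) (c (l 17612656) (l 17508144))) (b (l 17562808) (l 17520832)))))), by decide +kernel⟩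

theorem s74_pm_022_a : ∃ t, chk3 f_pm_022_a t 41 7 1 = true := ex3_b k69_pm_022_a k70_pm_022_a

theorem s75_pm_022_a : ∃ t, chk3 f_pm_022_a t 40 15 1 = true := ex3_b k67_pm_022_a k68_pm_022_a

theorem s76_pm_022_a : ∃ t, chk3 f_pm_022_a t 40 7 1 = true := ex3_b k66_pm_022_a s75_pm_022_a

theorem s77_pm_022_a : ∃ t, chk3 f_pm_022_a t 20 7 1 = true := ex3_a s76_pm_022_a s74_pm_022_a

theorem s78_pm_022_a : ∃ t, chk3 f_pm_022_a t 10 7 1 = true := ex3_a s77_pm_022_a k71_pm_022_a

theorem s79_pm_022_a : ∃ t, chk3 f_pm_022_a t 10 6 1 = true := ex3_a k64_pm_022_a k65_pm_022_a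

theorem s80_pm_022_a : ∃ t, chk3 f_pm_022_a t 10 3 1 = true := ex3_b s79_pm_022_a s78_pm_022_a

theorem s81_pm_022_a : ∃ t, chk3 f_pm_022_a t 5 3 1 = true := ex3_a s80_pm_022_a k72_pm_022_a

theorem s82_pm_022_a : ∃ t, chk3 f_pm_022_a t 39 63 1 = true := ex3_c k62_pm_022_a k63_pm_022_a

theorem s83_pm_022_a : ∃ t, chk3 f_pm_022_a t 39 31 1 = true := ex3_b k61_pm_022_a s82_pm_022_a

theorem s84_pm_022_a : ∃ t, chk3 f_pm_022_a t 38 127 2 = true := ex3_b k58_pm_022_a k59_pm_022_a

theorem s85_pm_022_a : ∃ t, chk3 f_pm_022_a t 38 127 1 = true := ex3_c s84_pm_022_a k60_pm_022_a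

theorem s86_pm_022_a : ∃ t, chk3 f_pm_022_a t 38 63 1 = true := ex3_b k57_pm_022_a s85_pm_022_a

theorem s87_pm_022_a : ∃ t, chk3 f_pm_022_a t 38 31 1 = true := ex3_b k56_pm_022_a s86_pm_022_a

theorem s88_pm_022_a : ∃ t, chk3 f_pm_022_a t 19 31 1 = true := ex3_a s87_pm_022_a s83_pm_022_a

theorem s89_pm_022_a : ∃ t, chk3 f_pm_022_a t 19 15 1 = true := ex3_b k55_pm_022_a s88_pm_022_a

theorem s90_pm_022_a : ∃ t, chk3 f_pm_022_a t 19 7 1 = true := ex3_b k54_pm_022_a s89_pm_022_a

theorem s91_pm_022_a : ∃ t, chk3 f_pm_022_a t 75 63 1 = true := ex3_c k52_pm_022_a k53_pm_022_a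

theorem s92_pm_022_a : ∃ t, chk3 f_pm_022_a t 37 63 1 = true := ex3_a k51_pm_022_a s91_pm_022_a

theorem s93_pm_022_a : ∃ t, chk3 f_pm_022_a t 37 31 1 = true := ex3_b k50_pm_022_a s92_pm_022_a

theorem s94_pm_022_a : ∃ t, chk3 f_pm_022_a t 37 15 1 = true := ex3_b k49_pm_022_a s93_pm_022_a

theorem s95_pm_022_a : ∃ t, chk3 f_pm_022_a t 37 7 1 = true := ex3_b k48_pm_022_a s94_pm_022_a

theorem s96_pm_022_a : ∃ t, chk3 f_pm_022_a t 36 127 1 = true := ex3_c k46_pm_022_a k47_pm_022_a

theorem s97_pm_022_a : ∃ t, chk3 f_pm_022_a t 36 63 1 = true := ex3_b k45_pm_022_a s96_pm_022_a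

theorem s98_pm_022_a : ∃ t, chk3 f_pm_022_a t 36 31 1 = true := ex3_b k44_pm_022_a s97_pm_022_a

theorem s99_pm_022_a : ∃ t, chk3 f_pm_022_a t 36 15 1 = true := ex3_b k43_pm_022_a s98_pm_022_a

theorem s100_pm_022_a : ∃ t, chk3 f_pm_022_a t 72 28 2 = true := ex3_b k38_pm_022_a k39_pm_022_a

theorem s101_pm_022_a : ∃ t, chk3 f_pm_022_a t 72 28 1 = true := ex3_c s100_pm_022_a k40_pm_022_a

theorem s102_pm_022_a : ∃ t, chk3 f_pm_022_a t 36 28 1 = true := ex3_a s101_pm_022_a k41_pm_022_a

theorem s103_pm_022_a : ∃ t, chk3 f_pm_022_a t 36 14 1 = true := ex3_b s102_pm_022_a k42_pm_022_a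

theorem s104_pm_022_a : ∃ t, chk3 f_pm_022_a t 36 7 1 = true := ex3_b s103_pm_022_a s99_pm_022_a

theorem s105_pm_022_a : ∃ t, chk3 f_pm_022_a t 18 7 1 = true := ex3_a s104_pm_022_a s95_pm_022_a

theorem s106_pm_022_a : ∃ t, chk3 f_pm_022_a t 9 7 1 = true := ex3_a s105_pm_022_a s90_pm_022_a

theorem s107_pm_022_a : ∃ t, chk3 f_pm_022_a t 8 14 1 = true := ex3_c k35_pm_022_a k36_pm_022_a

theorem s108_pm_022_a : ∃ t, chk3 f_pm_022_a t 8 7 1 = true := ex3_b s107_pm_022_a k37_pm_022_a

theorem s109_pm_022_a : ∃ t, chk3 f_pm_022_a t 4 7 1 = true := ex3_a s108_pm_022_a s106_pm_022_a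

theorem s110_pm_022_a : ∃ t, chk3 f_pm_022_a t 39 12 1 = true := ex3_c k32_pm_022_a k33_pm_022_a

theorem s111_pm_022_a : ∃ t, chk3 f_pm_022_a t 39 6 1 = true := ex3_b s110_pm_022_a k34_pm_022_a

theorem s112_pm_022_a : ∃ t, chk3 f_pm_022_a t 38 13 1 = true := ex3_c k30_pm_022_a k31_pm_022_a

theorem s113_pm_022_a : ∃ t, chk3 f_pm_022_a t 38 12 1 = true := ex3_a k28_pm_022_a k29_pm_022_a

theorem s114_pm_022_a : ∃ t, chk3 f_pm_022_a t 38 6 1 = true := ex3_b s113_pm_022_a s112_pm_022_a

theorem s115_pm_022_a : ∃ t, chk3 f_pm_022_a t 19 6 1 = true := ex3_a s114_pm_022_a s111_pm_022_a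

theorem s116_pm_022_a : ∃ t, chk3 f_pm_022_a t 37 27 2 = true := ex3_a k25_pm_022_a k26_pm_022_a

theorem s117_pm_022_a : ∃ t, chk3 f_pm_022_a t 37 27 1 = true := ex3_c s116_pm_022_a k27_pm_022_a

theorem s118_pm_022_a : ∃ t, chk3 f_pm_022_a t 75 26 1 = true := ex3_c k23_pm_022_a k24_pm_022_a

theorem s119_pm_022_a : ∃ t, chk3 f_pm_022_a t 37 26 1 = true := ex3_a k22_pm_022_a s118_pm_022_a

theorem s120_pm_022_a : ∃ t, chk3 f_pm_022_a t 37 13 1 = true := ex3_b s119_pm_022_a s117_pm_022_a

theorem s121_pm_022_a : ∃ t, chk3 f_pm_022_a t 37 6 1 = true := ex3_b k21_pm_022_a s120_pm_022_a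

theorem s122_pm_022_a : ∃ t, chk3 f_pm_022_a t 73 55 1 = true := ex3_c k19_pm_022_a k20_pm_022_a

theorem s123_pm_022_a : ∃ t, chk3 f_pm_022_a t 73 27 1 = true := ex3_b k18_pm_022_a s122_pm_022_a

theorem s124_pm_022_a : ∃ t, chk3 f_pm_022_a t 36 27 1 = true := ex3_a k17_pm_022_a s123_pm_022_a

theorem s125_pm_022_a : ∃ t, chk3 f_pm_022_a t 36 13 1 = true := ex3_b k16_pm_022_a s124_pm_022_a

theorem s126_pm_022_a : ∃ t, chk3 f_pm_022_a t 36 6 1 = true := ex3_b k15_pm_022_a s125_pm_022_a

theorem s127_pm_022_a : ∃ t, chk3 f_pm_022_a t 18 6 1 = true := ex3_a s126_pm_022_a s121_pm_022_a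

theorem s128_pm_022_a : ∃ t, chk3 f_pm_022_a t 9 6 1 = true := ex3_a s127_pm_022_a s115_pm_022_a

theorem s129_pm_022_a : ∃ t, chk3 f_pm_022_a t 4 6 1 = true := ex3_a k14_pm_022_a s128_pm_022_a

theorem s130_pm_022_a : ∃ t, chk3 f_pm_022_a t 4 3 1 = true := ex3_b s129_pm_022_a s109_pm_022_a

theorem s131_pm_022_a : ∃ t, chk3 f_pm_022_a t 2 3 1 = true := ex3_a s130_pm_022_a s81_pm_022_a

theorem s132_pm_022_a : ∃ t, chk3 f_pm_022_a t 21 2 1 = true := ex3_b k11_pm_022_a k12_pm_022_a

theorem s133_pm_022_a : ∃ t, chk3 f_pm_022_a t 83 9 1 = true := ex3_c k8_pm_022_a k9_pm_022_a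

theorem s134_pm_022_a : ∃ t, chk3 f_pm_022_a t 167 8 1 = true := ex3_c k6_pm_022_a k7_pm_022_a

theorem s135_pm_022_a : ∃ t, chk3 f_pm_022_a t 83 8 1 = true := ex3_a k5_pm_022_a s134_pm_022_a

theorem s136_pm_022_a : ∃ t, chk3 f_pm_022_a t 83 4 1 = true := ex3_b s135_pm_022_a s133_pm_022_a

theorem s137_pm_022_a : ∃ t, chk3 f_pm_022_a t 83 2 1 = true := ex3_b s136_pm_022_a k10_pm_022_a

theorem s138_pm_022_a : ∃ t, chk3 f_pm_022_a t 41 2 1 = true := ex3_a k4_pm_022_a s137_pm_022_a

theorem s139_pm_022_a : ∃ t, chk3 f_pm_022_a t 40 5 1 = true := ex3_b k2_pm_022_a k3_pm_022_a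

theorem s140_pm_022_a : ∃ t, chk3 f_pm_022_a t 40 2 1 = true := ex3_b k1_pm_022_a s139_pm_022_a

theorem s141_pm_022_a : ∃ t, chk3 f_pm_022_a t 20 2 1 = true := ex3_a s140_pm_022_a s138_pm_022_a

theorem s142_pm_022_a : ∃ t, chk3 f_pm_022_a t 10 2 1 = true := ex3_a s141_pm_022_a s132_pm_022_a

theorem s143_pm_022_a : ∃ t, chk3 f_pm_022_a t 5 2 1 = true := ex3_a s142_pm_022_a k13_pm_022_a

theorem s144_pm_022_a : ∃ t, chk3 f_pm_022_a t 2 2 1 = true := ex3_a k0_pm_022_a s143_pm_022_a

theorem s145_pm_022_a : ∃ t, chk3 f_pm_022_a t 2 1 1 = true := ex3_b s144_pm_022_a s131_pm_022_a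

theorem s146_pm_022_a : ∃ t, chk3 f_pm_022_a t 1 1 1 = true := ex3_a s145_pm_022_a k73_pm_022_a

theorem c_pm_022_a : CertF 0 536870912 0 536870912 134217728 67108864 true true false .pp 0 2 2
    ndF0q0 ndF2q2a pcF2 cut_pm_022_a Ext.none :=
  certF2 (fam := true) (s1 := true) (s2 := false) (a := 0) (b := 2) (c := 2) (cn := .pp) (n1 := ndF0q0) (n2 := ndF2q2a) (pc := pcF2) (cut := cut_pm_022_a) (xt := Ext.none) (P1 := 0) (W1 := 536870912) (P2 := 0) (W2 := 536870912) (P3 := 134217728) (W3 := 67108864)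
    rfl (fun _ => rfl) s146_pm_022_a

noncomputable def cut_pm_022_b : Cut := Cut.of [[⟨0, 0, 0, 67108864⟩, ⟨1, 1, 0, 67108864⟩, ⟨2, 1, 0, 67108864⟩], [⟨0, 0, 1, 41943040⟩, ⟨1, 1, 0, 16777216⟩, ⟨2, 1, 1, 41943040⟩]]

noncomputable def f_pm_022_b : ℕ → ℕ → ℕ → ℕ → Bool := onCell 0 536870912 1073741824 536870912 134217728 67108864
    (rowF 1 true true false .pp 0 2 2 (qsf 0 536870912 1239849684 370763052 2) ndF0q0 ndF2q2b pcF2 cut_pm_022_b Ext.none)

def k0_pm_022_b : ∃ t, chk3 f_pm_022_b t 4 4 1 = true :=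
  ⟨(l 1), by decide +kernel⟩

def k1_pm_022_b : ∃ t, chk3 f_pm_022_b t 4 10 1 = true :=
  ⟨(b (b (l 1) (a (b (l 1) (a (b (l 1) (c (a (b (l 1) (a (a (c (c (l 17226168) (b (b (b (l 1) (l 17012504)) (l 17020176)) (l 17035680))) (b (b (b (l 1) (b (l 1) (c (l 16812112) (l 16589200)))) (l 16676304)) (l 16693296))) (l 1)) (l 1))) (l 1)) (b (l 1) (a (a (a (c (b (b (a (b (l 1) (b (l 1) (l 16551896))) (l 1)) (l 16546560)) (l 16545832)) (b (b (b (l 1) (b (l 1) (l 16540472))) (l 16540120)) (l 16539304))) (l 1)) (l 1)) (l 1))))) (l 1))) (l 1))) (a (a (c (b (c (a (b (c (l 17300240) (l 17109752)) (l 17344480)) (l 60163498311)) (a (b (a (c (l 16927032) (l 16544768)) (l 16753920)) (a (c (l 17082112) (l 16898048)) (l 16972912))) (b (l 1) (l 16949024)))) (c (b (l 17442344) (l 17553856)) (a (b (l 17081976) (l 17252896)) (l 17128056)))) (b (a (c (b (a (c (l 16544168) (l 16540592)) (l 16544120)) (a (l 16542632) (l 16612904))) (a (b (a (l 16534800) (l 16535864)) (l 16527344)) (l 4864947079))) (c (l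 7012448279) (l 16557424))) (a (b (c (a (l 16530912) (l 16770352)) (a (l 16520104) (l 16522072))) (c (a (l 16928728) (l 16913344)) (l 16524368))) (c (b (l 16753984) (l 16892032)) (l 16521752))))) (a (b (l 1) (c (l 64458536503) (l 14528725447))) (l 1))) (l 1))), by decide +kernel⟩

def k2_pm_022_b : ∃ t, chk3 f_pm_022_b t 4 11 1 = true :=
  ⟨(b (a (c (b (a (c (l 17701992) (b (l 17345752) (l 17450584))) (c (l 17583816) (l 17306856))) (a (l 17730192) (l 17615688))) (c (a (b (a (b (l 17052464) (l 17172408)) (l 17077416)) (l 17311168)) (b (l 17008040) (l 17228984))) (a (b (a (b (a (l 16738880) (l 16727672)) (l 16866528)) (l 16715232)) (a (b (l 16988712) (l 17100880)) (l 17013192))) (b (a (l 16758488) (l 16743112)) (l 16969768))))) (a (c (l 82175617847) (b (l 1) (l 17042528))) (l 1))) (c (a (b (a (l 17878488) (l 17759336)) (l 17937976)) (b (l 11845915399) (l 17712240))) (a (a (b (b (l 17108032) (l 17403672)) (l 17516704)) (b (l 17068880) (l 17427512))) (b (a (l 17207104) (l 1)) (l 17312552))))),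 by decide +kernel⟩

def k3_pm_022_b : ∃ t, chk3 f_pm_022_b t 5 2 1 = true :=
  ⟨(l 1), by decide +kernel⟩

def k4_pm_022_b : ∃ t, chk3 f_pm_022_b t 2 3 1 = true :=
  ⟨(b (a (b (b (a (c (l 18084168) (l 17658480)) (c (l 17856200) (l 17485776))) (a (l 17812376) (l 17818072))) (a (l 18220224) (l 18020168))) (a (b (c (l 172907633815) (l 141231672167)) (l 17837104)) (b (l 1) (l 184718666327)))) (a (b (l 18265456) (l 18347264)) (a (l 18042872) (l 17876856)))), by decide +kernel⟩

def k5_pm_022_b : ∃ t, chk3 f_pm_022_b t 3 1 1 = true :=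
  ⟨(b (l 1) (b (l 1) (a (b (l 208878159783) (l 186329768167)) (l 1)))), by decide +kernel⟩

theorem s6_pm_022_b : ∃ t, chk3 f_pm_022_b t 4 5 1 = true := ex3_b k1_pm_022_b k2_pm_022_b

theorem s7_pm_022_b : ∃ t, chk3 f_pm_022_b t 4 2 1 = true := ex3_b k0_pm_022_b s6_pm_022_b

theorem s8_pm_022_b : ∃ t, chk3 f_pm_022_b t 2 2 1 = true := ex3_a s7_pm_022_b k3_pm_022_b

theorem s9_pm_022_b : ∃ t, chk3 f_pm_022_b t 2 1 1 = true := ex3_b s8_pm_022_b k4_pm_022_b

theorem s10_pm_022_b : ∃ t, chk3 f_pm_022_b t 1 1 1 = true := ex3_a s9_pm_022_b k5_pm_022_b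

theorem c_pm_022_b : CertF 0 536870912 1239849684 370763052 134217728 67108864 true true false .pp 0 2 2
    ndF0q0 ndF2q2b pcF2 cut_pm_022_b Ext.none :=
  certF1 (fam := true) (s1 := true) (s2 := false) (a := 0) (b := 2) (c := 2) (cn := .pp) (n1 := ndF0q0) (n2 := ndF2q2b) (pc := pcF2) (cut := cut_pm_022_b) (xt := Ext.none) (P1 := 0) (W1 := 536870912) (P2 := 1239849684) (W2 := 370763052) (P3 := 134217728) (W3 := 67108864)
    rfl (fun _ => rfl) s10_pm_022_b

noncomputable def f_pm_023_a : ℕ → ℕ → ℕ → ℕ → Bool := onCell 0 536870912 0 536870912 134217728 67108864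
    (rowF 0 true true false .up 0 2 3 (qsf 0 536870912 0 536870912 3) ndF0q0 ndF2q2a pcF3 Cut.none Ext.none)

def k0_pm_023_a : ∃ t, chk3 f_pm_023_a t 1 1 1 = true :=
  ⟨(a (l 1) (a (b (l 141233135255) (b (l 1) (l 1))) (b (l 17651552) (b (l 99356959447) (a (l 253975379815) (l 99356555527)))))), by decide +kernel⟩

theorem c_pm_023_a : CertF 0 536870912 0 536870912 134217728 67108864 true true false .up 0 2 3
    ndF0q0 ndF2q2a pcF3 Cut.none Ext.none :=
  certF0 (fam := true) (s1 := true) (s2 := false) (a := 0) (b := 2) (c := 3) (cn := .up) (n1 := ndF0q0) (n2 := ndF2q2a) (pc := pcF3) (cut := Cut.none) (xt := Ext.none) (P1 := 0) (W1 := 536870912) (P2 := 0) (W2 := 536870912) (P3 := 134217728) (W3 := 67108864)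
    rfl k0_pm_023_a

noncomputable def f_pm_023_b : ℕ → ℕ → ℕ → ℕ → Bool := onCell 0 536870912 1239849684 370763052 134217728 67108864
    (rowF 0 true true false .up 0 2 3 (qsf 0 536870912 1239849684 370763052 3) ndF0q0 ndF2q2b pcF3 Cut.none Ext.none)

def k0_pm_023_b : ∃ t, chk3 f_pm_023_b t 1 1 1 = true :=
  ⟨(a (b (a (l 1) (b (l 1) (l 278135671015))) (a (l 281357220775) (b (l 18002744) (a (l 18007488) (l 17888744))))) (b (a (b (l 134790756247) (l 17815864)) (b (l 17782288) (l 17548184))) (a (b (a (l 17825440) (l 17690672)) (a (l 17758544) (l 17613392))) (b (a (l 17542712) (l 17420312)) (a (l 17463224) (b (l 17330088) (a (l 17324152) (l 4)))))))), by decide +kernel⟩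

theorem c_pm_023_b : CertF 0 536870912 1239849684 370763052 134217728 67108864 true true false .up 0 2 3
    ndF0q0 ndF2q2b pcF3 Cut.none Ext.none :=
  certF0 (fam := true) (s1 := true) (s2 := false) (a := 0) (b := 2) (c := 3) (cn := .up) (n1 := ndF0q0) (n2 := ndF2q2b) (pc := pcF3) (cut := Cut.none) (xt := Ext.none) (P1 := 0) (W1 := 536870912) (P2 := 1239849684) (W2 := 370763052) (P3 := 134217728) (W3 := 67108864)
    rfl k0_pm_023_b

noncomputable def f_pm_033 : ℕ → ℕ → ℕ → ℕ → Bool := onCell 0 536870912 1610612736 536870912 134217728 67108864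
    (rowF 1 true true false .pnn 0 3 3 (qsf 0 536870912 1610612736 536870912 3) ndF0q0 ndF2q3 pcF3 Cut.none Ext.none)

def k0_pm_033 : ∃ t, chk3 f_pm_033 t 1 1 1 = true :=
  ⟨(b (a (b (a (l 17898752) (l 17761480)) (b (l 162171004775) (a (l 17811480) (l 17595824)))) (b (l 1) (a (b (l 1) (l 17400912)) (l 1)))) (b (a (a (l 17792944) (l 17716880)) (a (l 247532627463) (l 265785879911))) (b (a (l 4) (a (l 17256056) (l 17024552))) (a (l 4) (l 4))))), by decide +kernel⟩

theorem c_pm_033 : CertF 0 536870912 1610612736 536870912 134217728 67108864 true true false .pnn 0 3 3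
    ndF0q0 ndF2q3 pcF3 Cut.none Ext.none :=
  certF1 (fam := true) (s1 := true) (s2 := false) (a := 0) (b := 3) (c := 3) (cn := .pnn) (n1 := ndF0q0) (n2 := ndF2q3) (pc := pcF3) (cut := Cut.none) (xt := Ext.none) (P1 := 0) (W1 := 536870912) (P2 := 1610612736) (W2 := 536870912) (P3 := 134217728) (W3 := 67108864)
    rfl (fun _ => rfl) k0_pm_033

noncomputable def cut_pm_101 : Cut := Cut.of [[⟨0, 1, 0, 67108864⟩, ⟨1, 0, 0, 67108864⟩, ⟨2, 1, 0, 67108864⟩]]

noncomputable def f_pm_101 : ℕ → ℕ → ℕ → ℕ → Bool := onCell 536870912 536870912 0 536870912 134217728 67108864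
    (rowF 2 true true false .npn 1 0 1 (qsf 536870912 536870912 0 536870912 1) ndF0q1 ndF2q0 pcF1 cut_pm_101 Ext.none)

def k0_pm_101 : ∃ t, chk3 f_pm_101 t 1 1 1 = true :=
  ⟨(a (l 3) (a (l 3) (b (b (a (l 3) (a (l 3) (b (a (l 3) (b (l 6) (l 3))) (l 3)))) (l 3)) (l 3)))), by decide +kernel⟩

theorem c_pm_101 : CertF 536870912 536870912 0 536870912 134217728 67108864 true true false .npn 1 0 1
    ndF0q1 ndF2q0 pcF1 cut_pm_101 Ext.none :=
  certF2 (fam := true) (s1 := true) (s2 := false) (a := 1) (b := 0) (c := 1) (cn := .npn) (n1 := ndF0q1) (n2 := ndF2q0) (pc := pcF1) (cut := cut_pm_101) (xt := Ext.none) (P1 := 536870912) (W1 := 536870912) (P2 := 0) (W2 := 536870912) (P3 := 134217728) (W3 := 67108864)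
    rfl (fun _ => rfl) k0_pm_101

noncomputable def cut_pm_102 : Cut := Cut.of [[⟨0, 1, 0, 67108864⟩, ⟨1, 0, 0, 67108864⟩, ⟨2, 1, 0, 67108864⟩]]

noncomputable def f_pm_102 : ℕ → ℕ → ℕ → ℕ → Bool := onCell 536870912 536870912 1073741824 536870912 134217728 67108864
    (rowF 1 true true false .npp 1 0 2 (qsf 536870912 536870912 0 536870912 2) ndF0q1 ndF2q0 pcF2 cut_pm_102 Ext.none)

def k0_pm_102 : ∃ t, chk3 f_pm_102 t 1 1 1 = true :=
  ⟨(a (b (a (b (b (b (a (b (l 3) (c (l 147809499207) (l 17650288))) (l 148346241239)) (a (c (l 17799336) (l 17624240)) (l 17535432))) (b (a (l 17705616) (l 17496592)) (l 17770408))) (b (b (l 119287920071) (l 2)) (l 2))) (b (b (a (b (l 17453096) (l 17411304)) (b (l 17323976) (l 17280912))) (b (b (l 17396960) (l 17418616)) (a (l 17332184) (l 17199616)))) (b (b (b (l 17274848) (l 17276240)) (l 17163664)) (l 17169520)))) (a (l 2) (b (l 17038728) (l 2)))) (b (a (b (b (a (b (l 17191624) (l 17147264)) (b (l 17168344) (l 17020824))) (b (b (l 17109104) (l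 17234168)) (a (l 17065472) (l 16938648)))) (b (b (b (l 16961848) (l 17109176)) (l 16916824)) (a (l 16936728) (l 16899416)))) (b (a (b (b (a (l 16994056) (l 16997672)) (l 16891232)) (b (b (l 16865344) (l 16843320)) (b (l 16823920) (l 16818344)))) (b (b (b (a (l 16947696) (l 6)) (a (l 16847232) (a (l 16803192) (l 6)))) (a (b (l 16827248) (l 16811192)) (b (a (l 16786744) (l 16753640)) (l 16744840)))) (b (b (a (l 16784712) (l 16727960)) (a (l 16760600) (l 16825720))) (b (l 16861888) (l 16770608))))) (b (b (b (a (l 16829440) (l 16746520)) (a (l 16923768) (l 17054520))) (a (l 16921904) (l 16963440))) (a (l 17047848) (l 17160144))))) (b (a (l 17142528) (a (l 17208248) (l 17396600))) (a (l 17023032) (l 17389184))))), by decide +kernel⟩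

theorem c_pm_102 : CertF 536870912 536870912 0 536870912 134217728 67108864 true true false .npp 1 0 2
    ndF0q1 ndF2q0 pcF2 cut_pm_102 Ext.none :=
  certF1 (fam := true) (s1 := true) (s2 := false) (a := 1) (b := 0) (c := 2) (cn := .npp) (n1 := ndF0q1) (n2 := ndF2q0) (pc := pcF2) (cut := cut_pm_102) (xt := Ext.none) (P1 := 536870912) (W1 := 536870912) (P2 := 0) (W2 := 536870912) (P3 := 134217728) (W3 := 67108864)
    rfl (fun _ => rfl) k0_pm_102

noncomputable def f_pm_112 : ℕ → ℕ → ℕ → ℕ → Bool := onCell 536870912 536870912 1073741824 536870912 134217728 67108864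
    (rowF 1 true true false .dn 1 1 2 (qsf 536870912 536870912 536870912 536870912 2) ndF0q1 ndF2q1 pcF2 Cut.none Ext.none)

def k0_pm_112 : ∃ t, chk3 f_pm_112 t 1 1 1 = true :=
  ⟨(a (b (a (b (b (a (b (l 116133634775) (l 17681408)) (l 295314724455)) (b (b (l 17726672) (l 17747560)) (a (l 17775768) (l 17782328)))) (b (b (b (l 17817664) (l 17843432)) (l 17878664)) (l 18143760))) (b (b (l 1) (b (l 1) (l 299073245671))) (b (b (b (l 17841760) (l 17851496)) (l 17858696)) (l 17875176)))) (a (b (b (l 18089616) (l 18247848)) (l 18513240)) (b (l 17973520) (l 18172376)))) (b (a (b (l 1) (b (l 1) (l 322158815031))) (l 1)) (b (a (l 17893112) (l 283504171191)) (a (l 17970248) (l 17888144))))), by decide +kernel⟩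

theorem c_pm_112 : CertF 536870912 536870912 536870912 536870912 134217728 67108864 true true false .dn 1 1 2
    ndF0q1 ndF2q1 pcF2 Cut.none Ext.none :=
  certF1 (fam := true) (s1 := true) (s2 := false) (a := 1) (b := 1) (c := 2) (cn := .dn) (n1 := ndF0q1) (n2 := ndF2q1) (pc := pcF2) (cut := Cut.none) (xt := Ext.none) (P1 := 536870912) (W1 := 536870912) (P2 := 536870912) (W2 := 536870912) (P3 := 134217728) (W3 := 67108864)
    rfl (fun _ => rfl) k0_pm_112

noncomputable def f_pm_113 : ℕ → ℕ → ℕ → ℕ → Bool := onCell 536870912 536870912 1610612736 536870912 134217728 67108864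
    (rowF 1 true true false .nn 1 1 3 (qsf 536870912 536870912 536870912 536870912 3) ndF0q1 ndF2q1 pcF3 Cut.none Ext.none)

def k0_pm_113 : ∃ t, chk3 f_pm_113 t 1 1 1 = true :=
  ⟨(b (a (b (a (a (l 18798552) (l 18444480)) (l 18004392)) (a (a (l 2) (l 18864224)) (a (l 18501224) (l 18174392)))) (b (a (l 17582656) (b (l 17334728) (l 17379624))) (a (b (l 17724408) (l 17862976)) (b (l 17485560) (l 17531704))))) (b (a (a (l 2) (b (a (l 2) (l 18432304)) (l 2))) (a (l 18213024) (l 17605120))) (a (l 2) (b (a (l 18274840) (l 4)) (l 4))))), by decide +kernel⟩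

theorem c_pm_113 : CertF 536870912 536870912 536870912 536870912 134217728 67108864 true true false .nn 1 1 3
    ndF0q1 ndF2q1 pcF3 Cut.none Ext.none :=
  certF1 (fam := true) (s1 := true) (s2 := false) (a := 1) (b := 1) (c := 3) (cn := .nn) (n1 := ndF0q1) (n2 := ndF2q1) (pc := pcF3) (cut := Cut.none) (xt := Ext.none) (P1 := 536870912) (W1 := 536870912) (P2 := 536870912) (W2 := 536870912) (P3 := 134217728) (W3 := 67108864)
    rfl (fun _ => rfl) k0_pm_113

noncomputable def cut_pm_123_a : Cut := Cut.of [[⟨0, 1, 0, 39843005⟩, ⟨1, 1, 0, 39843005⟩, ⟨2, 2, 0, 5814905⟩]]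

noncomputable def f_pm_123_a : ℕ → ℕ → ℕ → ℕ → Bool := onCell 1610612736 536870912 0 536870912 134217728 67108864
    (rowF 2 true true false .npn 1 2 3 (qsf 536870912 536870912 0 536870912 3) ndF0q1 ndF2q2a pcF3 cut_pm_123_a Ext.none)

def k0_pm_123_a : ∃ t, chk3 f_pm_123_a t 1 1 1 = true :=
  ⟨(a (b (a (a (l 1) (l 17628352)) (a (l 17521360) (l 17408296))) (a (b (a (l 1) (l 17609240)) (b (a (l 17674640) (l 17598464)) (a (l 17668624) (l 17596424)))) (b (a (l 17509384) (l 17399496)) (a (b (l 17505200) (l 17500240)) (b (l 17391000) (l 17382648)))))) (a (b (a (l 17287304) (l 17155472)) (b (a (l 17271912) (l 17196920)) (a (b (l 17259016) (l 17245960)) (b (l 17117352) (l 17252040))))) (a (b (a (l 17053216) (l 16984960)) (b (a (l 17030304) (l 16962248)) (b (l 16999336) (a (l 17004096) (l 17001312))))) (a (b (l 17024608) (b (l 17094504) (b (l 16885928) (b (l 16877256) (a (l 16889784) (l 16858200)))))) (a (b (l 16864056) (b (l 16898456) (b (l 16840016) (b (l 16832816) (b (l 16828288)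 (l 16846736)))))) (b (a (l 16832272) (l 4)) (a (b (l 16821224) (b (l 16846824) (b (l 16811144) (b (l 16805312) (b (l 16803144) (l 16801624)))))) (b (a (l 16804712) (l 72712984775)) (a (b (l 16807000) (b (l 16799984) (b (l 16794472) (b (l 16791600) (l 16800368))))) (b (a (l 16790960) (l 16975304)) (b (a (l 16798424) (b (l 16945896) (l 6))) (l 6)))))))))))), by decide +kernel⟩

theorem c_pm_123_a : CertF 536870912 536870912 0 536870912 134217728 67108864 true true false .npn 1 2 3
    ndF0q1 ndF2q2a pcF3 cut_pm_123_a Ext.none :=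
  certF2 (fam := true) (s1 := true) (s2 := false) (a := 1) (b := 2) (c := 3) (cn := .npn) (n1 := ndF0q1) (n2 := ndF2q2a) (pc := pcF3) (cut := cut_pm_123_a) (xt := Ext.none) (P1 := 536870912) (W1 := 536870912) (P2 := 0) (W2 := 536870912) (P3 := 134217728) (W3 := 67108864)
    rfl (fun _ => rfl) k0_pm_123_a

noncomputable def cut_pm_123_b : Cut := Cut.of [[⟨0, 1, 0, 39843005⟩, ⟨1, 1, 0, 39843005⟩, ⟨2, 2, 0, 5814905⟩]]

noncomputable def f_pm_123_b : ℕ → ℕ → ℕ → ℕ → Bool := onCell 536870912 536870912 1610612736 536870912 134217728 67108864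
    (rowF 1 true true false .npn 1 2 3 (qsf 536870912 536870912 1239849684 370763052 3) ndF0q1 ndF2q2b pcF3 cut_pm_123_b Ext.none)

def k0_pm_123_b : ∃ t, chk3 f_pm_123_b t 1 1 1 = true :=
  ⟨(b (a (a (b (l 1) (a (l 17700776) (l 270618283287))) (l 1)) (l 1)) (b (a (a (b (l 17343912) (l 17470016)) (a (l 17444160) (l 265248646215))) (l 1)) (a (a (b (l 17217120) (b (l 17155352) (l 4))) (b (a (l 17123816) (l 17120528)) (b (l 17022680) (l 4)))) (a (b (a (l 258269180007) (l 1)) (b (a (l 16930472) (l 311419404551)) (b (l 17114080) (b (l 16966944) (l 4))))) (l 1))))), by decide +kernel⟩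

theorem c_pm_123_b : CertF 536870912 536870912 1239849684 370763052 134217728 67108864 true true false .npn 1 2 3
    ndF0q1 ndF2q2b pcF3 cut_pm_123_b Ext.none :=
  certF1 (fam := true) (s1 := true) (s2 := false) (a := 1) (b := 2) (c := 3) (cn := .npn) (n1 := ndF0q1) (n2 := ndF2q2b) (pc := pcF3) (cut := cut_pm_123_b) (xt := Ext.none) (P1 := 536870912) (W1 := 536870912) (P2 := 1239849684) (W2 := 370763052) (P3 := 134217728) (W3 := 67108864)
    rfl (fun _ => rfl) k0_pm_123_b

noncomputable def f_pm_133 : ℕ → ℕ → ℕ → ℕ → Bool := onCell 536870912 536870912 1610612736 536870912 134217728 67108864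
    (rowF 0 true true false .dn 1 3 3 (qsf 536870912 536870912 1610612736 536870912 3) ndF0q1 ndF2q3 pcF3 Cut.none Ext.none)

def k0_pm_133 : ∃ t, chk3 f_pm_133 t 1 1 1 = true :=
  ⟨(a (l 4) (l 2)), by decide +kernel⟩

theorem c_pm_133 : CertF 536870912 536870912 1610612736 536870912 134217728 67108864 true true false .dn 1 3 3
    ndF0q1 ndF2q3 pcF3 Cut.none Ext.none :=
  certF0 (fam := true) (s1 := true) (s2 := false) (a := 1) (b := 3) (c := 3) (cn := .dn) (n1 := ndF0q1) (n2 := ndF2q3) (pc := pcF3) (cut := Cut.none) (xt := Ext.none) (P1 := 536870912) (W1 := 536870912) (P2 := 1610612736) (W2 := 536870912) (P3 := 134217728) (W3 := 67108864)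
    rfl k0_pm_133

end Pool.Agent.Strip051.G.I1_8_3_16.Tab.C.FA02

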