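import Pool.Agent.Strip051.G.I1_8_3_16.Tab

/-! # Certificates F2 (generated) -/

set_option linter.all false
set_option maxRecDepth 100000

namespace Pool.Agent.Strip051.G.I1_8_3_16.Tab.C.FA02

open Pool.Agent.Strip051.PB Pool.Agent.Strip051.PB.T
open Pool.Agent.Strip051.G.I1_8_3_16.Tab

noncomputable def cut_pm_202 : Cut := Cut.of [[⟨0, 1, 0, 67108864⟩, ⟨1, 0, 0, 67108864⟩, ⟨2, 1, 0, 67108864⟩]]

noncomputable def f_pm_202 : ℕ → ℕ → ℕ → ℕ → Bool := onCell 0 536870912 1073741824 536870912 134217728 67108864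
    (rowF 1 true true false .pp 2 0 2 (qsf 0 536870912 0 536870912 2) ndF0q2 ndF2q0 pcF2 cut_pm_202 Ext.none)

def k0_pm_202 : ∃ t, chk3 f_pm_202 t 2 1 1 = true :=
  ⟨(b (a (b (l 1) (b (b (b (l 1) (b (a (l 1) (a (l 1) (c (l 304439206711) (l 16591888)))) (a (b (l 1) (c (a (l 16937512) (l 16928896)) (l 16667768))) (a (c (b (l 16860768) (l 16938360)) (l 297459840807)) (b (l 365105454551) (l 16640392)))))) (a (b (c (b (l 17056448) (l 17170960)) (l 16605744)) (l 17003664)) (b (c (l 17095080) (l 16588320)) (l 16989792)))) (b (a (l 17243232) (l 17236312)) (l 17426200)))) (b (a (l 1) (b (l 1) (b (l 1) (b (l 1) (a (l 1) (b (l 1) (c (b (l 303902103991) (l 307660241495)) (l 333966877607)))))))) (b (b (b (a (b (l 1) (a (c (l 260415642583) (l 249678200487)) (c (l 328598236247) (l 319471402135)))) (c (b (a (l 323229525799) (l 357052382263)) (a (l 16585320) (l 16578944))) (b (a (l 317860781447) (l 16582232)) (a (l 16565568) (l 16558008))))) (b (a (c (a (l 247530798247) (l 16682896)) (l 272763666391))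 (a (l 16571376) (l 16564080))) (a (b (a (l 16586208) (l 16576688)) (a (l 16604312) (l 16594592))) (b (l 16564136) (l 16623664))))) (a (b (l 16611688) (l 16964376)) (b (l 16690592) (l 16936272)))) (b (a (l 17217368) (l 17191104)) (l 17407368))))) (b (b (a (l 17553200) (l 17563792)) (l 17836616)) (a (l 17545960) (l 17617336)))), by decide +kernel⟩

def k1_pm_202 : ∃ t, chk3 f_pm_202 t 6 2 1 = true :=
  ⟨(b (a (b (l 1) (b (l 1) (b (b (a (l 1) (a (l 1) (b (c (l 279742954855) (l 271153025095)) (c (l 331819426951) (a (l 299070281015) (l 353294257399)))))) (a (b (l 1) (c (l 304975863575) (l 325913791031))) (b (a (c (l 350073018679) (l 363494773015)) (c (l 16596904) (l 16592752))) (c (l 376916582807) (l 347925517175))))) (c (b (a (b (l 296922798231) (l 336651266423)) (l 16612096)) (a (l 378527220775) (l 16577912))) (b (a (a (l 335040643223) (l 339872478407)) (l 16591960)) (a (l 16590848) (l 16556792))))))) (b (l 1) (b (b (a (l 1) (b (l 1) (a (c (c (l 321618971383) (l 365642364999)) (l 310881538327))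 (b (c (c (l 352757489767) (l 330208901895)) (l 352757467079)) (c (a (l 321082080951) (l 16650272)) (l 308734041047)))))) (b (a (b (l 1) (a (l 1) (b (l 1) (c (l 364031697079) (l 264710604071))))) (b (a (c (a (l 381748467351) (l 343630640887)) (l 268468693751)) (c (l 16639768) (l 16622680))) (a (c (l 366179221911) (a (l 304439075703) (l 16616248))) (a (l 16659248) (l 16644024))))) (a (b (a (l 1) (c (l 324303264871) (a (l 285648570727) (l 354904927431)))) (a (c (l 353831150519) (a (l 1) (l 300680938471))) (c (l 16611336) (l 372621663303)))) (a (b (c (l 16624544) (l 16635208)) (l 16647992)) (b (l 16641504) (l 16617512)))))) (b (b (c (a (a (b (l 349536178855) (l 16603800)) (l 16632016)) (l 16639256)) (a (a (b (a (l 309807732295) (l 16611672)) (l 16605840)) (b (l 16598920) (l 16596624))) (l 16653144))) (a (c (l 16625760) (a (l 16596608) (l 16588784))) (l 16640400))) (a (b (l 16612160) (l 16587584)) (l 16700104)))))) (b (b (b (a (b (a (l 16608416) (l 16563624)) (l 16603536)) (l 16679456))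 (b (a (l 16557072) (l 16554408)) (a (b (l 16553048) (l 16570200)) (l 16692968)))) (a (l 16803160) (l 16791640))) (b (a (l 17161608) (l 17130624)) (l 17352864)))), by decide +kernel⟩

def k2_pm_202 : ∃ t, chk3 f_pm_202 t 7 2 1 = true :=
  ⟨(b (a (b (b (l 1) (b (a (l 1) (l 6)) (a (b (l 1) (a (l 1) (b (a (l 1) (l 6)) (c (c (a (b (l 322155892487) (l 351683785255)) (l 405907770647)) (l 345241353927)) (l 328598345767))))) (b (l 6) (a (b (l 6) (c (l 16674552) (l 16668720))) (l 16701384)))))) (b (b (a (b (a (c (c (b (a (l 1) (l 361884317079)) (a (l 366179264327) (l 16653136))) (b (l 325377084823) (l 344704442375))) (b (l 299070419671) (l 336651372695))) (c (a (b (c (l 405907751959) (l 16659432)) (l 16653216)) (l 16680488)) (l 16667280))) (a (c (c (l 405907719175) (l 16655888)) (l 16652072)) (l 16660400))) (c (l 16680736) (l 16680944))) (b (a (b (l 16657128) (l 16658752)) (l 16679448)) (a (l 16697664) (l 16658984)))) (b (a (a (l 16733824) (l 16725328)) (l 16723648)) (b (l 16628352) (l 16620408)))))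 (b (b (l 6) (b (l 6) (a (b (l 6) (l 16688416)) (l 16713040)))) (b (b (a (l 16683656) (l 16711648)) (a (l 16822952) (l 16809056))) (b (b (l 16692696) (l 16687528)) (l 16693672))))) (b (b (b (a (l 16688504) (l 16660688)) (b (a (l 16593976) (l 16651112)) (a (l 16693344) (l 16730008)))) (a (l 16791264) (l 16807488))) (b (a (l 17099120) (l 17070672)) (l 17274632)))), by decide +kernel⟩

def k3_pm_202 : ∃ t, chk3 f_pm_202 t 3 3 1 = true :=
  ⟨(b (a (b (l 17529800) (l 17628600)) (l 17621736)) (a (l 17650072) (l 17628256))), by decide +kernel⟩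

theorem s4_pm_202 : ∃ t, chk3 f_pm_202 t 3 2 1 = true := ex3_a k1_pm_202 k2_pm_202

theorem s5_pm_202 : ∃ t, chk3 f_pm_202 t 3 1 1 = true := ex3_b s4_pm_202 k3_pm_202

theorem s6_pm_202 : ∃ t, chk3 f_pm_202 t 1 1 1 = true := ex3_a k0_pm_202 s5_pm_202

theorem c_pm_202 : CertF 0 536870912 0 536870912 134217728 67108864 true true false .pp 2 0 2
    ndF0q2 ndF2q0 pcF2 cut_pm_202 Ext.none :=
  certF1 (fam := true) (s1 := true) (s2 := false) (a := 2) (b := 0) (c := 2) (cn := .pp) (n1 := ndF0q2) (n2 := ndF2q0) (pc := pcF2) (cut := cut_pm_202) (xt := Ext.none) (P1 := 0) (W1 := 536870912) (P2 := 0) (W2 := 536870912) (P3 := 134217728) (W3 := 67108864)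
    rfl (fun _ => rfl) s6_pm_202

noncomputable def f_pm_203 : ℕ → ℕ → ℕ → ℕ → Bool := onCell 0 536870912 1610612736 536870912 134217728 67108864
    (rowF 1 true true false .up 2 0 3 (qsf 0 536870912 0 536870912 3) ndF0q2 ndF2q0 pcF3 Cut.none Ext.none)

def k0_pm_203 : ∃ t, chk3 f_pm_203 t 1 1 1 = true :=
  ⟨(b (a (b (b (l 17959720) (l 17689296)) (l 4)) (b (b (a (l 17744672) (l 17905224)) (a (l 17690648) (l 17829512))) (b (l 17934056) (l 2)))) (l 2)), by decide +kernel⟩

theorem c_pm_203 : CertF 0 536870912 0 536870912 134217728 67108864 true true false .up 2 0 3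
    ndF0q2 ndF2q0 pcF3 Cut.none Ext.none :=
  certF1 (fam := true) (s1 := true) (s2 := false) (a := 2) (b := 0) (c := 3) (cn := .up) (n1 := ndF0q2) (n2 := ndF2q0) (pc := pcF3) (cut := Cut.none) (xt := Ext.none) (P1 := 0) (W1 := 536870912) (P2 := 0) (W2 := 536870912) (P3 := 134217728) (W3 := 67108864)
    rfl (fun _ => rfl) k0_pm_203

noncomputable def f_pm_213 : ℕ → ℕ → ℕ → ℕ → Bool := onCell 0 536870912 1610612736 536870912 134217728 67108864
    (rowF 1 true true false .pnn 2 1 3 (qsf 0 536870912 536870912 536870912 3) ndF0q2 ndF2q1 pcF3 Cut.none Ext.none)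

def k0_pm_213 : ∃ t, chk3 f_pm_213 t 1 1 1 = true :=
  ⟨(a (b (b (b (l 1) (l 17173840)) (l 4)) (l 4)) (b (b (b (a (l 1) (l 17299808)) (l 77881451527)) (b (l 17281936) (l 17282944))) (l 4))), by decide +kernel⟩

theorem c_pm_213 : CertF 0 536870912 536870912 536870912 134217728 67108864 true true false .pnn 2 1 3
    ndF0q2 ndF2q1 pcF3 Cut.none Ext.none :=
  certF1 (fam := true) (s1 := true) (s2 := false) (a := 2) (b := 1) (c := 3) (cn := .pnn) (n1 := ndF0q2) (n2 := ndF2q1) (pc := pcF3) (cut := Cut.none) (xt := Ext.none) (P1 := 0) (W1 := 536870912) (P2 := 536870912) (W2 := 536870912) (P3 := 134217728) (W3 := 67108864)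
    rfl (fun _ => rfl) k0_pm_213

noncomputable def f_mm_001 : ℕ → ℕ → ℕ → ℕ → Bool := onCell 0 536870912 0 536870912 134217728 67108864
    (rowF 0 true false false .up 0 0 1 (qsf 0 536870912 0 536870912 1) ndF0q0 ndF2q0 pcF1 Cut.none Ext.none)

def k0_mm_001 : ∃ t, chk3 f_mm_001 t 1 1 1 = true :=
  ⟨(l 4), by decide +kernel⟩

theorem c_mm_001 : CertF 0 536870912 0 536870912 134217728 67108864 true false false .up 0 0 1
    ndF0q0 ndF2q0 pcF1 Cut.none Ext.none :=
  certF0 (fam := true) (s1 := false) (s2 := false) (a := 0) (b := 0) (c := 1) (cn := .up) (n1 := ndF0q0) (n2 := ndF2q0) (pc := pcF1) (cut := Cut.none) (xt := Ext.none) (P1 := 0) (W1 := 536870912) (P2 := 0) (W2 := 536870912) (P3 := 134217728) (W3 := 67108864)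
    rfl k0_mm_001

noncomputable def f_mm_011 : ℕ → ℕ → ℕ → ℕ → Bool := onCell 0 536870912 536870912 536870912 134217728 67108864
    (rowF 0 true false false .pnn 0 1 1 (qsf 0 536870912 536870912 536870912 1) ndF0q0 ndF2q1 pcF1 Cut.none Ext.none)

def k0_mm_011 : ∃ t, chk3 f_mm_011 t 1 1 1 = true :=
  ⟨(l 4), by decide +kernel⟩

theorem c_mm_011 : CertF 0 536870912 536870912 536870912 134217728 67108864 true false false .pnn 0 1 1
    ndF0q0 ndF2q1 pcF1 Cut.none Ext.none :=
  certF0 (fam := true) (s1 := false) (s2 := false) (a := 0) (b := 1) (c := 1) (cn := .pnn) (n1 := ndF0q0) (n2 := ndF2q1) (pc := pcF1) (cut := Cut.none) (xt := Ext.none) (P1 := 0) (W1 := 536870912) (P2 := 536870912) (W2 := 536870912) (P3 := 134217728) (W3 := 67108864)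
    rfl k0_mm_011

noncomputable def f_mm_012 : ℕ → ℕ → ℕ → ℕ → Bool := onCell 0 536870912 536870912 536870912 134217728 67108864
    (rowF 0 true false false .pnp 0 1 2 (qsf 0 536870912 536870912 536870912 2) ndF0q0 ndF2q1 pcF2 Cut.none Ext.none)

def k0_mm_012 : ∃ t, chk3 f_mm_012 t 1 1 1 = true :=
  ⟨(l 4), by decide +kernel⟩

theorem c_mm_012 : CertF 0 536870912 536870912 536870912 134217728 67108864 true false false .pnp 0 1 2
    ndF0q0 ndF2q1 pcF2 Cut.none Ext.none :=
  certF0 (fam := true) (s1 := false) (s2 := false) (a := 0) (b := 1) (c := 2) (cn := .pnp) (n1 := ndF0q0) (n2 := ndF2q1) (pc := pcF2) (cut := Cut.none) (xt := Ext.none) (P1 := 0) (W1 := 536870912) (P2 := 536870912) (W2 := 536870912) (P3 := 134217728) (W3 := 67108864)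
    rfl k0_mm_012

noncomputable def f_mm_022_a : ℕ → ℕ → ℕ → ℕ → Bool := onCell 0 536870912 0 536870912 134217728 67108864
    (rowF 0 true false false .pp 0 2 2 (qsf 0 536870912 0 536870912 2) ndF0q0 ndF2q2a pcF2 Cut.none Ext.none)

def k0_mm_022_a : ∃ t, chk3 f_mm_022_a t 1 1 1 = true :=
  ⟨(l 5), by decide +kernel⟩

theorem c_mm_022_a : CertF 0 536870912 0 536870912 134217728 67108864 true false false .pp 0 2 2
    ndF0q0 ndF2q2a pcF2 Cut.none Ext.none :=
  certF0 (fam := true) (s1 := false) (s2 := false) (a := 0) (b := 2) (c := 2) (cn := .pp) (n1 := ndF0q0) (n2 := ndF2q2a) (pc := pcF2) (cut := Cut.none) (xt := Ext.none) (P1 := 0) (W1 := 536870912) (P2 := 0) (W2 := 536870912) (P3 := 134217728) (W3 := 67108864)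
    rfl k0_mm_022_a

noncomputable def f_mm_022_b : ℕ → ℕ → ℕ → ℕ → Bool := onCell 0 536870912 1239849684 370763052 134217728 67108864
    (rowF 0 true false false .pp 0 2 2 (qsf 0 536870912 1239849684 370763052 2) ndF0q0 ndF2q2b pcF2 Cut.none Ext.none)

def k0_mm_022_b : ∃ t, chk3 f_mm_022_b t 1 1 1 = true :=
  ⟨(l 5), by decide +kernel⟩

theorem c_mm_022_b : CertF 0 536870912 1239849684 370763052 134217728 67108864 true false false .pp 0 2 2
    ndF0q0 ndF2q2b pcF2 Cut.none Ext.none :=
  certF0 (fam := true) (s1 := false) (s2 := false) (a := 0) (b := 2) (c := 2) (cn := .pp) (n1 := ndF0q0) (n2 := ndF2q2b) (pc := pcF2) (cut := Cut.none) (xt := Ext.none) (P1 := 0) (W1 := 536870912) (P2 := 1239849684) (W2 := 370763052) (P3 := 134217728) (W3 := 67108864)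
    rfl k0_mm_022_b

noncomputable def f_mm_023_a : ℕ → ℕ → ℕ → ℕ → Bool := onCell 0 536870912 0 536870912 134217728 67108864
    (rowF 0 true false false .up 0 2 3 (qsf 0 536870912 0 536870912 3) ndF0q0 ndF2q2a pcF3 Cut.none Ext.none)

def k0_mm_023_a : ∃ t, chk3 f_mm_023_a t 1 1 1 = true :=
  ⟨(l 5), by decide +kernel⟩

theorem c_mm_023_a : CertF 0 536870912 0 536870912 134217728 67108864 true false false .up 0 2 3
    ndF0q0 ndF2q2a pcF3 Cut.none Ext.none :=
  certF0 (fam := true) (s1 := false) (s2 := false) (a := 0) (b := 2) (c := 3) (cn := .up) (n1 := ndF0q0) (n2 := ndF2q2a) (pc := pcF3) (cut := Cut.none) (xt := Ext.none) (P1 := 0) (W1 := 536870912) (P2 := 0) (W2 := 536870912) (P3 := 134217728) (W3 := 67108864)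
    rfl k0_mm_023_a

noncomputable def f_mm_023_b : ℕ → ℕ → ℕ → ℕ → Bool := onCell 0 536870912 1239849684 370763052 134217728 67108864
    (rowF 0 true false false .up 0 2 3 (qsf 0 536870912 1239849684 370763052 3) ndF0q0 ndF2q2b pcF3 Cut.none Ext.none)

def k0_mm_023_b : ∃ t, chk3 f_mm_023_b t 1 1 1 = true :=
  ⟨(l 5), by decide +kernel⟩

theorem c_mm_023_b : CertF 0 536870912 1239849684 370763052 134217728 67108864 true false false .up 0 2 3
    ndF0q0 ndF2q2b pcF3 Cut.none Ext.none :=
  certF0 (fam := true) (s1 := false) (s2 := false) (a := 0) (b := 2) (c := 3) (cn := .up) (n1 := ndF0q0) (n2 := ndF2q2b) (pc := pcF3) (cut := Cut.none) (xt := Ext.none) (P1 := 0) (W1 := 536870912) (P2 := 1239849684) (W2 := 370763052) (P3 := 134217728) (W3 := 67108864)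
    rfl k0_mm_023_b

noncomputable def f_mm_033 : ℕ → ℕ → ℕ → ℕ → Bool := onCell 0 536870912 1610612736 536870912 134217728 67108864
    (rowF 0 true false false .pnn 0 3 3 (qsf 0 536870912 1610612736 536870912 3) ndF0q0 ndF2q3 pcF3 Cut.none Ext.none)

def k0_mm_033 : ∃ t, chk3 f_mm_033 t 1 1 1 = true :=
  ⟨(l 4), by decide +kernel⟩

theorem c_mm_033 : CertF 0 536870912 1610612736 536870912 134217728 67108864 true false false .pnn 0 3 3
    ndF0q0 ndF2q3 pcF3 Cut.none Ext.none :=
  certF0 (fam := true) (s1 := false) (s2 := false) (a := 0) (b := 3) (c := 3) (cn := .pnn) (n1 := ndF0q0) (n2 := ndF2q3) (pc := pcF3) (cut := Cut.none) (xt := Ext.none) (P1 := 0) (W1 := 536870912) (P2 := 1610612736) (W2 := 536870912) (P3 := 134217728) (W3 := 67108864)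
    rfl k0_mm_033

noncomputable def cut_mm_101 : Cut := Cut.of [[⟨0, 1, 0, 67108864⟩, ⟨1, 0, 0, 67108864⟩, ⟨2, 1, 0, 67108864⟩]]

noncomputable def f_mm_101 : ℕ → ℕ → ℕ → ℕ → Bool := onCell 536870912 536870912 0 536870912 134217728 67108864
    (rowF 0 true false false .npn 1 0 1 (qsf 536870912 536870912 0 536870912 1) ndF0q1 ndF2q0 pcF1 cut_mm_101 Ext.none)

def k0_mm_101 : ∃ t, chk3 f_mm_101 t 1 1 1 = true :=
  ⟨(a (l 4) (b (a (l 4) (a (l 4) (b (a (l 4) (b (b (l 6) (l 4)) (l 2))) (l 2)))) (l 4))), by decide +kernel⟩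

theorem c_mm_101 : CertF 536870912 536870912 0 536870912 134217728 67108864 true false false .npn 1 0 1
    ndF0q1 ndF2q0 pcF1 cut_mm_101 Ext.none :=
  certF0 (fam := true) (s1 := false) (s2 := false) (a := 1) (b := 0) (c := 1) (cn := .npn) (n1 := ndF0q1) (n2 := ndF2q0) (pc := pcF1) (cut := cut_mm_101) (xt := Ext.none) (P1 := 536870912) (W1 := 536870912) (P2 := 0) (W2 := 536870912) (P3 := 134217728) (W3 := 67108864)
    rfl k0_mm_101

noncomputable def cut_mm_102 : Cut := Cut.of [[⟨0, 1, 0, 67108864⟩, ⟨1, 0, 0, 67108864⟩, ⟨2, 1, 0, 67108864⟩]]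

noncomputable def f_mm_102 : ℕ → ℕ → ℕ → ℕ → Bool := onCell 536870912 536870912 0 536870912 134217728 67108864
    (rowF 0 true false false .npp 1 0 2 (qsf 536870912 536870912 0 536870912 2) ndF0q1 ndF2q0 pcF2 cut_mm_102 Ext.none)

def k0_mm_102 : ∃ t, chk3 f_mm_102 t 1 1 1 = true :=
  ⟨(a (l 4) (b (a (l 4) (b (a (l 4) (a (l 4) (b (b (l 6) (l 4)) (l 4)))) (l 4))) (l 4))), by decide +kernel⟩

theorem c_mm_102 : CertF 536870912 536870912 0 536870912 134217728 67108864 true false false .npp 1 0 2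
    ndF0q1 ndF2q0 pcF2 cut_mm_102 Ext.none :=
  certF0 (fam := true) (s1 := false) (s2 := false) (a := 1) (b := 0) (c := 2) (cn := .npp) (n1 := ndF0q1) (n2 := ndF2q0) (pc := pcF2) (cut := cut_mm_102) (xt := Ext.none) (P1 := 536870912) (W1 := 536870912) (P2 := 0) (W2 := 536870912) (P3 := 134217728) (W3 := 67108864)
    rfl k0_mm_102

noncomputable def f_mm_112 : ℕ → ℕ → ℕ → ℕ → Bool := onCell 536870912 536870912 536870912 536870912 134217728 67108864
    (rowF 0 true false false .dn 1 1 2 (qsf 536870912 536870912 536870912 536870912 2) ndF0q1 ndF2q1 pcF2 Cut.none Ext.none)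

def k0_mm_112 : ∃ t, chk3 f_mm_112 t 1 1 1 = true :=
  ⟨(l 4), by decide +kernel⟩

theorem c_mm_112 : CertF 536870912 536870912 536870912 536870912 134217728 67108864 true false false .dn 1 1 2
    ndF0q1 ndF2q1 pcF2 Cut.none Ext.none :=
  certF0 (fam := true) (s1 := false) (s2 := false) (a := 1) (b := 1) (c := 2) (cn := .dn) (n1 := ndF0q1) (n2 := ndF2q1) (pc := pcF2) (cut := Cut.none) (xt := Ext.none) (P1 := 536870912) (W1 := 536870912) (P2 := 536870912) (W2 := 536870912) (P3 := 134217728) (W3 := 67108864)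
    rfl k0_mm_112

noncomputable def f_mm_113 : ℕ → ℕ → ℕ → ℕ → Bool := onCell 536870912 536870912 536870912 536870912 134217728 67108864
    (rowF 0 true false false .nn 1 1 3 (qsf 536870912 536870912 536870912 536870912 3) ndF0q1 ndF2q1 pcF3 Cut.none Ext.none)

def k0_mm_113 : ∃ t, chk3 f_mm_113 t 1 1 1 = true :=
  ⟨(l 4), by decide +kernel⟩

theorem c_mm_113 : CertF 536870912 536870912 536870912 536870912 134217728 67108864 true false false .nn 1 1 3
    ndF0q1 ndF2q1 pcF3 Cut.none Ext.none :=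
  certF0 (fam := true) (s1 := false) (s2 := false) (a := 1) (b := 1) (c := 3) (cn := .nn) (n1 := ndF0q1) (n2 := ndF2q1) (pc := pcF3) (cut := Cut.none) (xt := Ext.none) (P1 := 536870912) (W1 := 536870912) (P2 := 536870912) (W2 := 536870912) (P3 := 134217728) (W3 := 67108864)
    rfl k0_mm_113

noncomputable def f_mm_123_a : ℕ → ℕ → ℕ → ℕ → Bool := onCell 536870912 536870912 0 536870912 134217728 67108864
    (rowF 0 true false false .npn 1 2 3 (qsf 536870912 536870912 0 536870912 3) ndF0q1 ndF2q2a pcF3 Cut.none Ext.none)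

def k0_mm_123_a : ∃ t, chk3 f_mm_123_a t 1 1 1 = true :=
  ⟨(l 4), by decide +kernel⟩

theorem c_mm_123_a : CertF 536870912 536870912 0 536870912 134217728 67108864 true false false .npn 1 2 3
    ndF0q1 ndF2q2a pcF3 Cut.none Ext.none :=
  certF0 (fam := true) (s1 := false) (s2 := false) (a := 1) (b := 2) (c := 3) (cn := .npn) (n1 := ndF0q1) (n2 := ndF2q2a) (pc := pcF3) (cut := Cut.none) (xt := Ext.none) (P1 := 536870912) (W1 := 536870912) (P2 := 0) (W2 := 536870912) (P3 := 134217728) (W3 := 67108864)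
    rfl k0_mm_123_a

noncomputable def f_mm_123_b : ℕ → ℕ → ℕ → ℕ → Bool := onCell 536870912 536870912 1239849684 370763052 134217728 67108864
    (rowF 0 true false false .npn 1 2 3 (qsf 536870912 536870912 1239849684 370763052 3) ndF0q1 ndF2q2b pcF3 Cut.none Ext.none)

def k0_mm_123_b : ∃ t, chk3 f_mm_123_b t 1 1 1 = true :=
  ⟨(l 4), by decide +kernel⟩

theorem c_mm_123_b : CertF 536870912 536870912 1239849684 370763052 134217728 67108864 true false false .npn 1 2 3
    ndF0q1 ndF2q2b pcF3 Cut.none Ext.none :=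
  certF0 (fam := true) (s1 := false) (s2 := false) (a := 1) (b := 2) (c := 3) (cn := .npn) (n1 := ndF0q1) (n2 := ndF2q2b) (pc := pcF3) (cut := Cut.none) (xt := Ext.none) (P1 := 536870912) (W1 := 536870912) (P2 := 1239849684) (W2 := 370763052) (P3 := 134217728) (W3 := 67108864)
    rfl k0_mm_123_b

noncomputable def f_mm_133 : ℕ → ℕ → ℕ → ℕ → Bool := onCell 536870912 536870912 1610612736 536870912 134217728 67108864
    (rowF 0 true false false .dn 1 3 3 (qsf 536870912 536870912 1610612736 536870912 3) ndF0q1 ndF2q3 pcF3 Cut.none Ext.none)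

def k0_mm_133 : ∃ t, chk3 f_mm_133 t 1 1 1 = true :=
  ⟨(l 4), by decide +kernel⟩

theorem c_mm_133 : CertF 536870912 536870912 1610612736 536870912 134217728 67108864 true false false .dn 1 3 3
    ndF0q1 ndF2q3 pcF3 Cut.none Ext.none :=
  certF0 (fam := true) (s1 := false) (s2 := false) (a := 1) (b := 3) (c := 3) (cn := .dn) (n1 := ndF0q1) (n2 := ndF2q3) (pc := pcF3) (cut := Cut.none) (xt := Ext.none) (P1 := 536870912) (W1 := 536870912) (P2 := 1610612736) (W2 := 536870912) (P3 := 134217728) (W3 := 67108864)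
    rfl k0_mm_133

noncomputable def cut_mm_202 : Cut := Cut.of [[⟨0, 1, 0, 67108864⟩, ⟨1, 0, 0, 67108864⟩, ⟨2, 1, 0, 67108864⟩]]

noncomputable def f_mm_202 : ℕ → ℕ → ℕ → ℕ → Bool := onCell 0 536870912 0 536870912 134217728 67108864
    (rowF 0 true false false .pp 2 0 2 (qsf 0 536870912 0 536870912 2) ndF0q2 ndF2q0 pcF2 cut_mm_202 Ext.none)

def k0_mm_202 : ∃ t, chk3 f_mm_202 t 2 1 1 = true :=
  ⟨(b (a (b (b (b (a (b (c (b (a (l 17037624) (l 17019528)) (l 17142672)) (a (l 16617112) (l 16626568))) (l 16976456)) (b (c (a (l 17033560) (l 16861456)) (l 16647480)) (l 16897248))) (a (l 17214352) (l 17153456))) (l 17417320)) (b (l 17487304) (l 17458040))) (b (b (b (b (a (b (c (a (l 16798344) (l 16663488)) (l 16665648)) (l 16675800)) (b (c (a (l 16662792) (b (l 16674952) (l 16672216))) (a (l 16659992) (l 16671248))) (c (l 16662864) (l 16660352)))) (a (l 16741168) (l 16674968))) (a (l 17037856) (l 16855800))) (b (l 17172200) (l 17267984))) (b (b (l 17296216) (l 17291200)) (l 4)))) (b (a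 (l 17535392) (l 4)) (l 4))), by decide +kernel⟩

def k1_mm_202 : ∃ t, chk3 f_mm_202 t 3 1 1 = true :=
  ⟨(b (b (a (b (a (b (b (b (b (c (a (c (l 16685808) (l 16685144)) (c (l 16696176) (l 16695528))) (a (l 16683480) (l 16714904))) (c (a (l 16683200) (l 16693944)) (l 16707768))) (c (l 16685712) (l 16683776))) (a (l 16673136) (l 16685536))) (l 16742216)) (b (b (b (a (c (b (c (a (l 16703736) (l 16708760)) (a (l 16703032) (l 16708008))) (l 16704344)) (b (a (l 16701408) (l 16706352)) (l 16702376))) (c (b (a (c (l 16713768) (l 16712960)) (c (b (l 16719160) (l 16718504)) (l 16717976))) (l 16714600)) (b (a (l 16711280) (b (l 16716584) (l 16715976))) (l 16712552)))) (a (c (l 16702072) (l 16700168)) (c (l 16712744) (l 16710800)))) (a (l 16697344) (l 16729784))) (b (l 16720800) (a (l 16691568) (l 16715912))))) (a (b (l 16924232) (l 17055552)) (b (a (l 16770800) (l 16779632)) (l 4)))) (b (a (b (b (b (a (b (c (a (b (c (l 16724352) (l 16723456)) (l 16723344)) (a (c (l 16728136) (l 16727240)) (b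 (l 6) (l 16730288)))) (a (c (l 16722080) (l 16720800)) (b (c (l 16727832) (l 16726584)) (l 16726760)))) (c (l 16746272) (l 16723256))) (a (a (b (l 6) (l 16731624)) (l 6)) (l 6))) (a (c (l 16723800) (l 16721904)) (a (l 16732008) (l 16759584)))) (a (b (l 16721336) (l 16720072)) (b (l 16755048) (l 16759568)))) (a (b (l 16747168) (l 16760192)) (b (l 16808056) (l 4)))) (b (a (b (l 6) (b (l 6) (a (l 16768216) (l 4)))) (l 6)) (l 4))) (l 4))) (l 4)) (l 4)), by decide +kernel⟩

theorem s2_mm_202 : ∃ t, chk3 f_mm_202 t 1 1 1 = true := ex3_a k0_mm_202 k1_mm_202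

theorem c_mm_202 : CertF 0 536870912 0 536870912 134217728 67108864 true false false .pp 2 0 2
    ndF0q2 ndF2q0 pcF2 cut_mm_202 Ext.none :=
  certF0 (fam := true) (s1 := false) (s2 := false) (a := 2) (b := 0) (c := 2) (cn := .pp) (n1 := ndF0q2) (n2 := ndF2q0) (pc := pcF2) (cut := cut_mm_202) (xt := Ext.none) (P1 := 0) (W1 := 536870912) (P2 := 0) (W2 := 536870912) (P3 := 134217728) (W3 := 67108864)
    rfl s2_mm_202

noncomputable def f_mm_203 : ℕ → ℕ → ℕ → ℕ → Bool := onCell 0 536870912 1610612736 536870912 134217728 67108864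
    (rowF 1 true false false .up 2 0 3 (qsf 0 536870912 0 536870912 3) ndF0q2 ndF2q0 pcF3 Cut.none Ext.none)

def k0_mm_203 : ∃ t, chk3 f_mm_203 t 1 1 1 = true :=
  ⟨(l 4), by decide +kernel⟩

theorem c_mm_203 : CertF 0 536870912 0 536870912 134217728 67108864 true false false .up 2 0 3
    ndF0q2 ndF2q0 pcF3 Cut.none Ext.none :=
  certF1 (fam := true) (s1 := false) (s2 := false) (a := 2) (b := 0) (c := 3) (cn := .up) (n1 := ndF0q2) (n2 := ndF2q0) (pc := pcF3) (cut := Cut.none) (xt := Ext.none) (P1 := 0) (W1 := 536870912) (P2 := 0) (W2 := 536870912) (P3 := 134217728) (W3 := 67108864)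
    rfl (fun _ => rfl) k0_mm_203

noncomputable def f_mm_213 : ℕ → ℕ → ℕ → ℕ → Bool := onCell 0 536870912 536870912 536870912 134217728 67108864
    (rowF 0 true false false .pnn 2 1 3 (qsf 0 536870912 536870912 536870912 3) ndF0q2 ndF2q1 pcF3 Cut.none Ext.none)

def k0_mm_213 : ∃ t, chk3 f_mm_213 t 1 1 1 = true :=
  ⟨(l 4), by decide +kernel⟩

theorem c_mm_213 : CertF 0 536870912 536870912 536870912 134217728 67108864 true false false .pnn 2 1 3
    ndF0q2 ndF2q1 pcF3 Cut.none Ext.none :=
  certF0 (fam := true) (s1 := false) (s2 := false) (a := 2) (b := 1) (c := 3) (cn := .pnn) (n1 := ndF0q2) (n2 := ndF2q1) (pc := pcF3) (cut := Cut.none) (xt := Ext.none) (P1 := 0) (W1 := 536870912) (P2 := 536870912) (W2 := 536870912) (P3 := 134217728) (W3 := 67108864)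
    rfl k0_mm_213

end Pool.Agent.Strip051.G.I1_8_3_16.Tab.C.FA02

namespace Pool.Agent.Strip051.G.I1_8_3_16.Tab.C.FA03

open Pool.Agent.Strip051.PB Pool.Agent.Strip051.PB.T
open Pool.Agent.Strip051.G.I1_8_3_16.Tab

noncomputable def f_pp_001 : ℕ → ℕ → ℕ → ℕ → Bool := onCell 0 536870912 0 536870912 134217728 67108864
    (rowF 0 true true true .up 0 0 1 (qsf 0 536870912 0 536870912 1) ndF0q0 ndF3q0 pcF1 Cut.none Ext.none)

def k0_pp_001 : ∃ t, chk3 f_pp_001 t 1 1 1 = true :=
  ⟨(l 4), by decide +kernel⟩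

theorem c_pp_001 : CertF 0 536870912 0 536870912 134217728 67108864 true true true .up 0 0 1
    ndF0q0 ndF3q0 pcF1 Cut.none Ext.none :=
  certF0 (fam := true) (s1 := true) (s2 := true) (a := 0) (b := 0) (c := 1) (cn := .up) (n1 := ndF0q0) (n2 := ndF3q0) (pc := pcF1) (cut := Cut.none) (xt := Ext.none) (P1 := 0) (W1 := 536870912) (P2 := 0) (W2 := 536870912) (P3 := 134217728) (W3 := 67108864)
    rfl k0_pp_001

noncomputable def f_pp_011 : ℕ → ℕ → ℕ → ℕ → Bool := onCell 0 536870912 536870912 536870912 134217728 67108864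
    (rowF 0 true true true .pnn 0 1 1 (qsf 0 536870912 536870912 536870912 1) ndF0q0 ndF3q1 pcF1 Cut.none Ext.none)

def k0_pp_011 : ∃ t, chk3 f_pp_011 t 1 1 1 = true :=
  ⟨(l 4), by decide +kernel⟩

theorem c_pp_011 : CertF 0 536870912 536870912 536870912 134217728 67108864 true true true .pnn 0 1 1
    ndF0q0 ndF3q1 pcF1 Cut.none Ext.none :=
  certF0 (fam := true) (s1 := true) (s2 := true) (a := 0) (b := 1) (c := 1) (cn := .pnn) (n1 := ndF0q0) (n2 := ndF3q1) (pc := pcF1) (cut := Cut.none) (xt := Ext.none) (P1 := 0) (W1 := 536870912) (P2 := 536870912) (W2 := 536870912) (P3 := 134217728) (W3 := 67108864)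
    rfl k0_pp_011

noncomputable def f_pp_012 : ℕ → ℕ → ℕ → ℕ → Bool := onCell 0 536870912 536870912 536870912 134217728 67108864
    (rowF 0 true true true .pnp 0 1 2 (qsf 0 536870912 536870912 536870912 2) ndF0q0 ndF3q1 pcF2 Cut.none Ext.none)

def k0_pp_012 : ∃ t, chk3 f_pp_012 t 1 1 1 = true :=
  ⟨(l 4), by decide +kernel⟩

theorem c_pp_012 : CertF 0 536870912 536870912 536870912 134217728 67108864 true true true .pnp 0 1 2
    ndF0q0 ndF3q1 pcF2 Cut.none Ext.none :=
  certF0 (fam := true) (s1 := true) (s2 := true) (a := 0) (b := 1) (c := 2) (cn := .pnp) (n1 := ndF0q0) (n2 := ndF3q1) (pc := pcF2) (cut := Cut.none) (xt := Ext.none) (P1 := 0) (W1 := 536870912) (P2 := 536870912) (W2 := 536870912) (P3 := 134217728) (W3 := 67108864)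
    rfl k0_pp_012

noncomputable def f_pp_022 : ℕ → ℕ → ℕ → ℕ → Bool := onCell 0 536870912 1073741824 536870912 134217728 67108864
    (rowF 0 true true true .pp 0 2 2 (qsf 0 536870912 1073741824 536870912 2) ndF0q0 ndF3q2 pcF2 Cut.none Ext.none)

def k0_pp_022 : ∃ t, chk3 f_pp_022 t 1 1 1 = true :=
  ⟨(l 4), by decide +kernel⟩

theorem c_pp_022 : CertF 0 536870912 1073741824 536870912 134217728 67108864 true true true .pp 0 2 2
    ndF0q0 ndF3q2 pcF2 Cut.none Ext.none :=
  certF0 (fam := true) (s1 := true) (s2 := true) (a := 0) (b := 2) (c := 2) (cn := .pp) (n1 := ndF0q0) (n2 := ndF3q2) (pc := pcF2) (cut := Cut.none) (xt := Ext.none) (P1 := 0) (W1 := 536870912) (P2 := 1073741824) (W2 := 536870912) (P3 := 134217728) (W3 := 67108864)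
    rfl k0_pp_022

noncomputable def f_pp_023 : ℕ → ℕ → ℕ → ℕ → Bool := onCell 0 536870912 1073741824 536870912 134217728 67108864
    (rowF 0 true true true .up 0 2 3 (qsf 0 536870912 1073741824 536870912 3) ndF0q0 ndF3q2 pcF3 Cut.none Ext.none)

def k0_pp_023 : ∃ t, chk3 f_pp_023 t 1 1 1 = true :=
  ⟨(l 4), by decide +kernel⟩

theorem c_pp_023 : CertF 0 536870912 1073741824 536870912 134217728 67108864 true true true .up 0 2 3
    ndF0q0 ndF3q2 pcF3 Cut.none Ext.none :=
  certF0 (fam := true) (s1 := true) (s2 := true) (a := 0) (b := 2) (c := 3) (cn := .up) (n1 := ndF0q0) (n2 := ndF3q2) (pc := pcF3) (cut := Cut.none) (xt := Ext.none) (P1 := 0) (W1 := 536870912) (P2 := 1073741824) (W2 := 536870912) (P3 := 134217728) (W3 := 67108864)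
    rfl k0_pp_023

noncomputable def f_pp_033 : ℕ → ℕ → ℕ → ℕ → Bool := onCell 0 536870912 0 1230186008 134217728 67108864
    (rowF 0 true true true .pnn 0 3 3 (qsf 0 536870912 0 1230186008 3) ndF0q0 ndF3q3 pcF3 Cut.none Ext.none)

def k0_pp_033 : ∃ t, chk3 f_pp_033 t 1 1 1 = true :=
  ⟨(b (l 4) (l 4)), by decide +kernel⟩

theorem c_pp_033 : CertF 0 536870912 0 1230186008 134217728 67108864 true true true .pnn 0 3 3
    ndF0q0 ndF3q3 pcF3 Cut.none Ext.none :=
  certF0 (fam := true) (s1 := true) (s2 := true) (a := 0) (b := 3) (c := 3) (cn := .pnn) (n1 := ndF0q0) (n2 := ndF3q3) (pc := pcF3) (cut := Cut.none) (xt := Ext.none) (P1 := 0) (W1 := 536870912) (P2 := 0) (W2 := 1230186008) (P3 := 134217728) (W3 := 67108864)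
    rfl k0_pp_033

noncomputable def f_pp_101 : ℕ → ℕ → ℕ → ℕ → Bool := onCell 536870912 536870912 0 536870912 134217728 67108864
    (rowF 0 true true true .npn 1 0 1 (qsf 536870912 536870912 0 536870912 1) ndF0q1 ndF3q0 pcF1 Cut.none Ext.none)

def k0_pp_101 : ∃ t, chk3 f_pp_101 t 1 1 1 = true :=
  ⟨(l 4), by decide +kernel⟩

theorem c_pp_101 : CertF 536870912 536870912 0 536870912 134217728 67108864 true true true .npn 1 0 1
    ndF0q1 ndF3q0 pcF1 Cut.none Ext.none :=
  certF0 (fam := true) (s1 := true) (s2 := true) (a := 1) (b := 0) (c := 1) (cn := .npn) (n1 := ndF0q1) (n2 := ndF3q0) (pc := pcF1) (cut := Cut.none) (xt := Ext.none) (P1 := 536870912) (W1 := 536870912) (P2 := 0) (W2 := 536870912) (P3 := 134217728) (W3 := 67108864)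
    rfl k0_pp_101

noncomputable def f_pp_102 : ℕ → ℕ → ℕ → ℕ → Bool := onCell 536870912 536870912 0 536870912 134217728 67108864
    (rowF 0 true true true .npp 1 0 2 (qsf 536870912 536870912 0 536870912 2) ndF0q1 ndF3q0 pcF2 Cut.none Ext.none)

def k0_pp_102 : ∃ t, chk3 f_pp_102 t 1 1 1 = true :=
  ⟨(l 4), by decide +kernel⟩

theorem c_pp_102 : CertF 536870912 536870912 0 536870912 134217728 67108864 true true true .npp 1 0 2
    ndF0q1 ndF3q0 pcF2 Cut.none Ext.none :=
  certF0 (fam := true) (s1 := true) (s2 := true) (a := 1) (b := 0) (c := 2) (cn := .npp) (n1 := ndF0q1) (n2 := ndF3q0) (pc := pcF2) (cut := Cut.none) (xt := Ext.none) (P1 := 536870912) (W1 := 536870912) (P2 := 0) (W2 := 536870912) (P3 := 134217728) (W3 := 67108864)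
    rfl k0_pp_102

noncomputable def f_pp_112 : ℕ → ℕ → ℕ → ℕ → Bool := onCell 536870912 536870912 536870912 536870912 134217728 67108864
    (rowF 0 true true true .dn 1 1 2 (qsf 536870912 536870912 536870912 536870912 2) ndF0q1 ndF3q1 pcF2 Cut.none Ext.none)

def k0_pp_112 : ∃ t, chk3 f_pp_112 t 1 1 1 = true :=
  ⟨(l 4), by decide +kernel⟩

theorem c_pp_112 : CertF 536870912 536870912 536870912 536870912 134217728 67108864 true true true .dn 1 1 2
    ndF0q1 ndF3q1 pcF2 Cut.none Ext.none :=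
  certF0 (fam := true) (s1 := true) (s2 := true) (a := 1) (b := 1) (c := 2) (cn := .dn) (n1 := ndF0q1) (n2 := ndF3q1) (pc := pcF2) (cut := Cut.none) (xt := Ext.none) (P1 := 536870912) (W1 := 536870912) (P2 := 536870912) (W2 := 536870912) (P3 := 134217728) (W3 := 67108864)
    rfl k0_pp_112

noncomputable def f_pp_113 : ℕ → ℕ → ℕ → ℕ → Bool := onCell 536870912 536870912 536870912 536870912 134217728 67108864
    (rowF 0 true true true .nn 1 1 3 (qsf 536870912 536870912 536870912 536870912 3) ndF0q1 ndF3q1 pcF3 Cut.none Ext.none)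

def k0_pp_113 : ∃ t, chk3 f_pp_113 t 1 1 1 = true :=
  ⟨(l 4), by decide +kernel⟩

theorem c_pp_113 : CertF 536870912 536870912 536870912 536870912 134217728 67108864 true true true .nn 1 1 3
    ndF0q1 ndF3q1 pcF3 Cut.none Ext.none :=
  certF0 (fam := true) (s1 := true) (s2 := true) (a := 1) (b := 1) (c := 3) (cn := .nn) (n1 := ndF0q1) (n2 := ndF3q1) (pc := pcF3) (cut := Cut.none) (xt := Ext.none) (P1 := 536870912) (W1 := 536870912) (P2 := 536870912) (W2 := 536870912) (P3 := 134217728) (W3 := 67108864)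
    rfl k0_pp_113

noncomputable def f_pp_123 : ℕ → ℕ → ℕ → ℕ → Bool := onCell 536870912 536870912 1073741824 536870912 134217728 67108864
    (rowF 0 true true true .npn 1 2 3 (qsf 536870912 536870912 1073741824 536870912 3) ndF0q1 ndF3q2 pcF3 Cut.none Ext.none)

def k0_pp_123 : ∃ t, chk3 f_pp_123 t 1 1 1 = true :=
  ⟨(l 4), by decide +kernel⟩

theorem c_pp_123 : CertF 536870912 536870912 1073741824 536870912 134217728 67108864 true true true .npn 1 2 3
    ndF0q1 ndF3q2 pcF3 Cut.none Ext.none :=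
  certF0 (fam := true) (s1 := true) (s2 := true) (a := 1) (b := 2) (c := 3) (cn := .npn) (n1 := ndF0q1) (n2 := ndF3q2) (pc := pcF3) (cut := Cut.none) (xt := Ext.none) (P1 := 536870912) (W1 := 536870912) (P2 := 1073741824) (W2 := 536870912) (P3 := 134217728) (W3 := 67108864)
    rfl k0_pp_123

noncomputable def f_pp_133 : ℕ → ℕ → ℕ → ℕ → Bool := onCell 536870912 536870912 0 1230186008 134217728 67108864
    (rowF 0 true true true .dn 1 3 3 (qsf 536870912 536870912 0 1230186008 3) ndF0q1 ndF3q3 pcF3 Cut.none Ext.none)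

def k0_pp_133 : ∃ t, chk3 f_pp_133 t 1 1 1 = true :=
  ⟨(l 4), by decide +kernel⟩

theorem c_pp_133 : CertF 536870912 536870912 0 1230186008 134217728 67108864 true true true .dn 1 3 3
    ndF0q1 ndF3q3 pcF3 Cut.none Ext.none :=
  certF0 (fam := true) (s1 := true) (s2 := true) (a := 1) (b := 3) (c := 3) (cn := .dn) (n1 := ndF0q1) (n2 := ndF3q3) (pc := pcF3) (cut := Cut.none) (xt := Ext.none) (P1 := 536870912) (W1 := 536870912) (P2 := 0) (W2 := 1230186008) (P3 := 134217728) (W3 := 67108864)
    rfl k0_pp_133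

noncomputable def f_pp_202 : ℕ → ℕ → ℕ → ℕ → Bool := onCell 0 536870912 0 536870912 134217728 67108864
    (rowF 0 true true true .pp 2 0 2 (qsf 0 536870912 0 536870912 2) ndF0q2 ndF3q0 pcF2 Cut.none Ext.none)

def k0_pp_202 : ∃ t, chk3 f_pp_202 t 1 1 1 = true :=
  ⟨(l 5), by decide +kernel⟩

theorem c_pp_202 : CertF 0 536870912 0 536870912 134217728 67108864 true true true .pp 2 0 2
    ndF0q2 ndF3q0 pcF2 Cut.none Ext.none :=
  certF0 (fam := true) (s1 := true) (s2 := true) (a := 2) (b := 0) (c := 2) (cn := .pp) (n1 := ndF0q2) (n2 := ndF3q0) (pc := pcF2) (cut := Cut.none) (xt := Ext.none) (P1 := 0) (W1 := 536870912) (P2 := 0) (W2 := 536870912) (P3 := 134217728) (W3 := 67108864)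
    rfl k0_pp_202

noncomputable def f_pp_203 : ℕ → ℕ → ℕ → ℕ → Bool := onCell 0 536870912 0 536870912 134217728 67108864
    (rowF 0 true true true .up 2 0 3 (qsf 0 536870912 0 536870912 3) ndF0q2 ndF3q0 pcF3 Cut.none Ext.none)

def k0_pp_203 : ∃ t, chk3 f_pp_203 t 1 1 1 = true :=
  ⟨(l 5), by decide +kernel⟩

theorem c_pp_203 : CertF 0 536870912 0 536870912 134217728 67108864 true true true .up 2 0 3
    ndF0q2 ndF3q0 pcF3 Cut.none Ext.none :=
  certF0 (fam := true) (s1 := true) (s2 := true) (a := 2) (b := 0) (c := 3) (cn := .up) (n1 := ndF0q2) (n2 := ndF3q0) (pc := pcF3) (cut := Cut.none) (xt := Ext.none) (P1 := 0) (W1 := 536870912) (P2 := 0) (W2 := 536870912) (P3 := 134217728) (W3 := 67108864)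
    rfl k0_pp_203

noncomputable def f_pp_213 : ℕ → ℕ → ℕ → ℕ → Bool := onCell 0 536870912 536870912 536870912 134217728 67108864
    (rowF 0 true true true .pnn 2 1 3 (qsf 0 536870912 536870912 536870912 3) ndF0q2 ndF3q1 pcF3 Cut.none Ext.none)

def k0_pp_213 : ∃ t, chk3 f_pp_213 t 1 1 1 = true :=
  ⟨(l 4), by decide +kernel⟩

theorem c_pp_213 : CertF 0 536870912 536870912 536870912 134217728 67108864 true true true .pnn 2 1 3
    ndF0q2 ndF3q1 pcF3 Cut.none Ext.none :=
  certF0 (fam := true) (s1 := true) (s2 := true) (a := 2) (b := 1) (c := 3) (cn := .pnn) (n1 := ndF0q2) (n2 := ndF3q1) (pc := pcF3) (cut := Cut.none) (xt := Ext.none) (P1 := 0) (W1 := 536870912) (P2 := 536870912) (W2 := 536870912) (P3 := 134217728) (W3 := 67108864)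
    rfl k0_pp_213

noncomputable def f_pm_001 : ℕ → ℕ → ℕ → ℕ → Bool := onCell 0 536870912 0 536870912 134217728 67108864
    (rowF 0 true true false .up 0 0 1 (qsf 0 536870912 0 536870912 1) ndF0q0 ndF3q0 pcF1 Cut.none Ext.none)

def k0_pm_001 : ∃ t, chk3 f_pm_001 t 1 1 1 = true :=
  ⟨(a (l 3) (b (l 3) (a (l 3) (b (l 3) (a (l 3) (b (l 3) (a (l 3) (l 189148188007)))))))), by decide +kernel⟩

theorem c_pm_001 : CertF 0 536870912 0 536870912 134217728 67108864 true true false .up 0 0 1
    ndF0q0 ndF3q0 pcF1 Cut.none Ext.none :=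
  certF0 (fam := true) (s1 := true) (s2 := false) (a := 0) (b := 0) (c := 1) (cn := .up) (n1 := ndF0q0) (n2 := ndF3q0) (pc := pcF1) (cut := Cut.none) (xt := Ext.none) (P1 := 0) (W1 := 536870912) (P2 := 0) (W2 := 536870912) (P3 := 134217728) (W3 := 67108864)
    rfl k0_pm_001

noncomputable def cut_pm_011 : Cut := Cut.of [[⟨0, 0, 0, 67108864⟩, ⟨1, 1, 0, 67108864⟩, ⟨2, 1, 0, 67108864⟩]]

noncomputable def f_pm_011 : ℕ → ℕ → ℕ → ℕ → Bool := onCell 536870912 536870912 536870912 536870912 134217728 67108864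
    (rowF 2 true true false .pnn 0 1 1 (qsf 0 536870912 536870912 536870912 1) ndF0q0 ndF3q1 pcF1 cut_pm_011 Ext.none)

def k0_pm_011 : ∃ t, chk3 f_pm_011 t 2 1 1 = true :=
  ⟨(l 3), by decide +kernel⟩

def k1_pm_011 : ∃ t, chk3 f_pm_011 t 3 2 1 = true :=
  ⟨(a (l 3) (b (a (l 3) (a (b (l 3) (l 3)) (b (c (l 102175237063) (a (b (l 17612704) (l 17562200)) (l 17660088))) (c (a (l 17639712) (l 17740624)) (a (b (l 17508480) (l 17409264)) (b (l 17585888) (l 17531272))))))) (a (l 3) (a (l 3) (b (c (a (l 65130493495) (l 17628800)) (a (b (l 53855896135) (c (l 17361136) (l 44728939687))) (b (l 17471264) (c (l 17451304) (l 17356272))))) (c (a (b (l 17410000) (l 59761303751)) (b (l 17526896) (l 17443400))) (c (a (b (l 17221936) (l 50634329463)) (b (l 17374456) (a (l 17262296) (l 17301144)))) (a (a (l 3) (b (l 37212618391) (a (l 3) (l 17118040)))) (b (a (l 17258576) (l 17291280)) (a (b (l 17187896) (l 17134144)) (l 17189848))))))))))), by decide +kernel⟩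

def k2_pm_011 : ∃ t, chk3 f_pm_011 t 6 3 1 = true :=
  ⟨(l 3), by decide +kernel⟩

def k3_pm_011 : ∃ t, chk3 f_pm_011 t 7 12 1 = true :=
  ⟨(a (l 3) (a (l 3) (b (b (a (c (l 633139271431) (a (l 3) (l 50634041623))) (c (l 17263768) (a (c (l 17180088) (l 17073784)) (l 17133912)))) (a (l 3) (c (a (c (l 17340864) (l 17227784)) (l 17272840)) (a (b (c (l 17133184) (l 17002320)) (c (l 17097352) (a (l 38822747879) (l 16987920)))) (b (l 17081296) (c (l 17125600) (l 16997696))))))) (a (l 3) (c (b (a (c (l 17274704) (b (l 17174168) (l 17134328))) (c (l 17330792) (l 17193824))) (a (c (l 42581219415) (b (l 38286067095) (a (l 30232894503) (l 17052888)))) (c (l 17248008) (b (l 17125216) (l 17053176))))) (b (a (c (b (l 41507239239) (a (l 33990947943) (l 17018400))) (b (a (c (l 16965504) (l 35064559127)) (l 16942376)) (a (b (l 32380149943) (l 30769487943)) (b (l 16906024) (l 16880624))))) (c (b (l 17081336) (l 17033288)) (b (l 16948584) (a (l 16894816) (l 16895824))))) (a (c (b (a (c (l 31843483975)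 (l 30232754679)) (c (l 17002600) (l 16937680))) (a (c (l 28085288135) (b (l 27548341127) (l 25937676199))) (c (l 16951632) (b (l 16898120) (l 16870408))))) (a (a (l 3) (b (b (l 32916913671) (l 30769422711)) (a (l 3) (b (l 31843158055) (l 28621927527))))) (b (b (l 16854248) (l 16784928)) (a (b (l 16799584) (l 16774504)) (l 16761344))))) (c (b (a (l 16977472) (l 16984424)) (a (l 16922128) (l 16925872))) (b (a (l 16838712) (l 16836360)) (a (l 16756888) (l 16771520))))))))))), by decide +kernel⟩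

def k4_pm_011 : ∃ t, chk3 f_pm_011 t 14 13 1 = true :=
  ⟨(l 3), by decide +kernel⟩

def k5_pm_011 : ∃ t, chk3 f_pm_011 t 30 13 1 = true :=
  ⟨(l 3), by decide +kernel⟩

def k6_pm_011 : ∃ t, chk3 f_pm_011 t 62 26 1 = true :=
  ⟨(l 3), by decide +kernel⟩

def k7_pm_011 : ∃ t, chk3 f_pm_011 t 63 26 2 = true :=
  ⟨(b (a (c (b (l 36138641287) (a (l 3) (l 17049608))) (b (a (c (l 16978680) (l 190757193431)) (c (l 17036560) (l 35601515111))) (a (l 3) (c (l 33454057799) (b (l 16903088) (a (l 29695807463) (l 16895256))))))) (c (b (l 17175440) (a (l 17111296) (l 17130560))) (b (a (l 17012776) (l 17023648)) (a (c (l 16992760) (l 16913960)) (l 16960544))))) (a (c (a (l 3) (b (c (l 17074504) (l 31306601255)) (c (l 29696016119) (b (l 28622175863) (a (l 23790267799) (l 16922960)))))) (b (a (l 3) (c (b (l 30769635063) (a (l 26474602263) (l 16908712))) (a (b (a (l 24327033447) (l 16842160)) (a (l 51707384967) (c (l 16849976) (l 29695675543)))) (b (l 16863648) (l 16809688))))) (a (l 3) (a (a (l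 3) (c (b (c (l 16893968) (l 16834448)) (c (l 24863932151) (b (l 16809304) (l 23790109511)))) (b (c (l 27011329671) (l 27011292711)) (c (b (l 24863809655) (l 23790064999)) (b (l 24863806951) (l 23253160775)))))) (c (b (l 16854880) (b (l 16850240) (l 16790728))) (b (a (l 16775744) (l 16795656)) (b (l 16769344) (l 16761416)))))))) (c (b (a (l 17011064) (l 17068920)) (a (c (l 17032048) (b (l 16962960) (l 16928376))) (c (l 17047400) (l 16953872)))) (a (b (c (l 16908392) (b (l 16864504) (l 16829536))) (b (c (l 16877840) (l 16792888)) (c (l 16820360) (l 16754448)))) (b (a (l 16890312) (l 16891544)) (a (l 16814680) (l 16813144))))))), by decide +kernel⟩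

def k8_pm_011 : ∃ t, chk3 f_pm_011 t 63 26 3 = true :=
  ⟨(a (b (a (a (l 3) (b (c (c (l 126332556983) (b (l 25400746135) (l 54928599783))) (c (b (l 24863829863) (l 53317974839)) (l 24326838551))) (l 3))) (c (b (b (c (l 16910728) (a (l 16841840) (l 16841280))) (a (c (l 16881440) (l 16775688)) (l 16825656))) (b (a (c (l 31306341047) (a (l 29158788231) (l 16781072))) (l 16773552)) (a (c (a (l 27011310071) (l 16821288)) (a (l 26474429463) (l 16748888))) (c (l 16820400) (l 16745712))))) (b (a (c (b (l 16774200) (l 16764480)) (l 16704912)) (c (l 16755104) (l 16691344))) (c (a (b (l 31306202295) (l 16710128)) (l 16695648)) (a (l 16708392) (l 16694984)))))) (a (l 3) (c (a (b (c (b (a (c (l 24326961287) (l 23790073479)) (l 16768216)) (a (c (l 39359327959) (l 21642539799)) (c (l 29158778407) (l 16736904)))) (b (a (l 23790018967) (l 16715392)) (l 25937453303))) (c (a (l 3) (b (c (l 27011253207) (l 16710048)) (c (l 24326841431) (l 16712072)))) (b (l 23789974343) (l 21642494151)))) (b (c (b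 (l 16787296) (l 16752760)) (l 16705456)) (c (c (b (l 16736544) (l 16706376)) (l 16710112)) (l 16709640)))) (a (b (c (b (l 16711984) (l 16708640)) (l 16717320)) (c (l 22179366647) (l 16721192))) (b (l 16709736) (l 16713912)))))) (b (b (c (a (b (l 16877480) (l 16846024)) (l 16861728)) (a (l 16690704) (l 16700600))) (c (a (b (l 16813152) (l 16778784)) (l 16770328)) (a (l 16693328) (l 16666064)))) (a (c (b (c (b (l 16783344) (l 16746600)) (l 16698216)) (c (l 16703048) (l 16702520))) (b (l 16697392) (l 16701688))) (c (b (c (l 16757952) (l 16670928)) (l 16686096)) (b (l 16670312) (l 16674776)))))), by decide +kernel⟩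

def k9_pm_011 : ∃ t, chk3 f_pm_011 t 62 27 1 = true :=
  ⟨(l 3), by decide +kernel⟩

def k10_pm_011 : ∃ t, chk3 f_pm_011 t 126 54 1 = true :=
  ⟨(c (c (b (a (l 3) (c (b (l 26474716887) (a (l 153176178151) (l 16938000))) (a (a (l 3) (b (l 22716458007) (b (l 82309090439) (l 3)))) (b (c (l 16909552) (l 16867912)) (c (l 27548308487) (b (l 16840880) (l 27011351591))))))) (a (l 3) (a (l 3) (c (b (c (l 16924040) (l 25937707175)) (c (l 24327105511) (b (l 24863924567) (l 23790143527)))) (b (c (b (l 16815056) (l 25400747287)) (a (b (l 24863829047) (l 23790058551)) (l 16793080))) (a (c (b (l 22716352727) (l 21642573607)) (b (l 22179444567) (l 21105700231))) (c (l 16755784) (l 16752736)))))))) (a (l 3) (a (a (l 3) (a (l 3) (b (c (b (c (l 23253247367) (l 23253192407)) (c (l 24863803975) (l 20031967655))) (b (c (l 23253187015) (l 16713904)) (c (l 20031879591) (l 16715960)))) (l 3)))) (c (b (b (a (c (l 16805504) (b (l 16794568) (l 16776184))) (l 16805128)) (a (c (b (l 16799088) (l 16759312))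 (b (l 16757376) (l 16738120))) (l 16767056))) (b (c (a (b (l 24863800519) (l 23790048039)) (l 16749128)) (a (b (l 16718424) (l 16716576)) (l 16711928))) (c (a (b (l 22179404775) (l 21105627527)) (l 16714536)) (l 23789983543)))) (b (b (a (b (l 16733352) (l 16735296)) (l 16721112)) (c (a (l 16716080) (l 16709344)) (l 16711104))) (b (c (l 16720208) (l 16713352)) (l 23789983479))))))) (a (l 3) (a (b (c (c (b (l 20568757319) (l 18421277031)) (b (l 20031884887) (l 16722488))) (c (l 18958148151) (l 16725168))) (l 3)) (c (b (c (b (l 16708424) (l 16710648)) (l 16719248)) (c (b (l 16712896) (l 16715152)) (l 16723696))) (b (c (l 16708112) (l 16707440)) (c (l 16712560) (l 16711888))))))), by decide +kernel⟩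

def k11_pm_011 : ∃ t, chk3 f_pm_011 t 127 54 1 = true :=
  ⟨(c (a (c (b (c (b (l 16981256) (l 16945152)) (b (l 16892040) (a (l 16853560) (l 16854104)))) (b (c (l 16844248) (a (l 16793288) (l 16813048))) (c (a (l 16824480) (l 16867840)) (a (l 16757208) (l 16769760))))) (a (b (c (b (l 16803864) (l 16764464)) (l 16706960)) (c (b (l 16723088) (l 16708216)) (l 16711584))) (b (c (l 16781632) (l 16693400)) (c (l 16698568) (l 16698104))))) (c (b (a (l 16839192) (l 16905192)) (a (c (l 16890584) (l 16789248)) (c (l 16892600) (l 16786792)))) (b (a (l 16730840) (l 16725904)) (c (l 16696536) (l 16685672))))) (a (c (b (c (l 16707544) (l 16707008)) (c (l 16712192) (l 16711648))) (b (l 16706160) (l 16710792))) (c (b (l 16690752) (l 16695560)) (b (l 16679408) (l 16684192))))), by decide +kernel⟩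

def k12_pm_011 : ∃ t, chk3 f_pm_011 t 126 55 1 = true :=
  ⟨(c (a (l 3) (c (b (a (l 3) (c (b (a (c (l 20032057191) (b (l 20032005943) (l 18958222439))) (c (l 16827592) (b (l 16812760) (l 16792128)))) (b (a (c (l 46338687543) (l 17884475303)) (c (l 16817864) (l 16770968))) (a (l 3) (c (l 16775744) (l 16749264))))) (a (a (l 3) (b (c (b (l 16757688) (l 19495087591)) (l 21105629463)) (c (l 17884408711) (l 16722328)))) (b (c (b (l 16766968) (l 16745800)) (l 16717176)) (c (b (l 16724104) (l 16720472)) (l 16719544)))))) (a (l 3) (a (l 3) (c (b (c (b (l 22179440407) (l 21105697303)) (b (l 22179410263) (l 16723104))) (c (b (l 20031933367) (l 16728328)) (l 19495028983))) (b (c (l 16724800) (l 16721896)) (l 18958157895)))))) (a (l 3) (b (c (b (c (a (l 19495020423) (l 16716896)) (l 22179375095)) (c (l 20568767239) (l 20031895751))) (b (l 21642504023) (l 20031895511))) (c (b (l 18421288343) (l 16810679831)) (b (l 16727816) (l 16730096))))))) (a (l 3) (a (l 3) (c (b (c (b (l 16717416) (l 16719688))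 (l 16726888)) (b (l 17347544647) (l 15736935815))) (b (c (l 16717064) (l 16716400)) (c (l 16732096) (l 16720960))))))), by decide +kernel⟩

def k13_pm_011 : ∃ t, chk3 f_pm_011 t 127 55 1 = true :=
  ⟨(c (a (c (b (c (b (a (a (l 16783376) (l 16825096)) (l 16824688)) (a (b (l 16771936) (l 16749648)) (l 16779088))) (a (a (b (l 16730776) (l 16715600)) (l 16715312)) (l 16709104))) (c (a (b (a (c (l 16762128) (l 16718424)) (l 16734744)) (a (c (l 16721144) (l 16720880)) (l 16716912))) (b (l 16730848) (l 16710736))) (a (b (l 16721232) (l 16723696)) (l 16714048)))) (a (b (c (b (l 16710600) (l 16713016)) (l 16721568)) (c (b (l 16715456) (l 16717920)) (l 16726416))) (b (c (l 16703400) (l 16702920)) (l 16718576)))) (c (c (b (a (l 16800304) (l 16798416)) (a (l 16700960) (l 16692616))) (b (l 16701856) (l 16706920))) (b (c (l 16701488) (l 16701104)) (c (l 16706544) (l 16706144))))) (a (c (b (c (l 16716968) (l 16716424)) (c (l 16724472) (l 16721296))) (b (l 16720808) (c (l 16720728) (l 16720144))))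 (c (b (l 16700488) (l 16705512)) (b (l 16689096) (l 16704600))))), by decide +kernel⟩

def k14_pm_011 : ∃ t, chk3 f_pm_011 t 14 14 1 = true :=
  ⟨(l 3), by decide +kernel⟩

def k15_pm_011 : ∃ t, chk3 f_pm_011 t 30 28 1 = true :=
  ⟨(l 3), by decide +kernel⟩

def k16_pm_011 : ∃ t, chk3 f_pm_011 t 62 28 1 = true :=
  ⟨(l 3), by decide +kernel⟩

def k17_pm_011 : ∃ t, chk3 f_pm_011 t 63 56 1 = true :=
  ⟨(a (a (l 3) (a (l 3) (a (l 3) (b (c (c (c (b (c (l 17347550183) (l 16729728)) (l 15200071207)) (b (l 16731936) (l 16728992))) (c (b (l 16726128) (l 16728432)) (l 15200070567))) (c (c (l 16725848) (l 16725248)) (l 16729552))) (l 3))))) (c (a (b (c (c (a (b (c (l 16726832) (l 16721336)) (c (l 16729344) (l 16723848))) (l 16722160)) (a (b (l 16726192) (l 16728704)) (l 16724320))) (c (b (l 16726872) (l 16729408)) (b (l 16726352) (l 16728880)))) (c (c (a (b (c (l 16731848) (l 16726352)) (l 17347558615)) (l 16729888)) (a (b (l 16731208) (l 16733696)) (l 16729424))) (c (a (b (l 16725432) (l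 16727920)) (l 16728944)) (b (l 16731416) (l 16733960))))) (c (a (b (c (l 16706088) (l 16705680)) (c (l 16711280) (l 16710864))) (b (l 16708144) (l 16713408))) (b (c (l 16711688) (l 16711280)) (b (l 16715672) (l 16718312))))) (a (b (b (c (l 16725536) (l 16724392)) (c (l 16728072) (l 16726928))) (c (a (c (l 16735744) (l 16735176)) (l 16727688)) (b (l 16729472) (l 16732024)))) (b (c (l 16715880) (l 16709720)) (c (c (l 16716056) (l 16715608)) (l 16725400)))))), by decide +kernel⟩

def k18_pm_011 : ∃ t, chk3 f_pm_011 t 63 57 1 = true :=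
  ⟨(a (l 3) (c (a (b (c (c (a (b (l 15736950503) (l 14126342695)) (b (l 16723608) (l 16726208))) (a (b (l 16736168) (l 16738632)) (l 16734568))) (a (c (b (l 16730400) (l 16743352)) (b (l 16729856) (l 16732328))) (c (l 16734088) (l 16733600)))) (c (b (c (a (c (l 13052604679) (l 16741456)) (l 16728824)) (a (l 12515733159) (l 16728352))) (c (a (c (l 11978867367) (l 16743880)) (l 16731432)) (a (l 11441995543) (l 16730968)))) (b (a (c (l 16745800) (l 16734792)) (l 16727624)) (a (c (l 16742992) (l 16747720)) (l 16740736))))) (b (c (a (c (l 16726976) (l 16716080)) (c (l 16708400) (l 16708032))) (a (l 16725912) (l 16717944))) (c (a (c (l 16732208) (l 16731792)) (c (l 16724184) (l 16713336))) (a (l 16731144) (l 16723248))))) (b (a (a (c (b (l 16739512) (l 16741992)) (c (l 16739544) (l 16738968))) (c (l 16732840) (l 16731784))) (c (c (l 16721296) (l 16720856)) (l 16725408))) (a (a (c (b (l 13589470615) (l 13052603623)) (b (l 16732848) (l 16745816))) (c (c (l 16738272) (l 16737768)) (b (l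 16725568) (l 16728208)))) (c (b (l 16725416) (l 16728088)) (c (l 16725688) (l 16735712))))))), by decide +kernel⟩

def k19_pm_011 : ∃ t, chk3 f_pm_011 t 30 29 1 = true :=
  ⟨(l 3), by decide +kernel⟩

def k20_pm_011 : ∃ t, chk3 f_pm_011 t 31 58 1 = true :=
  ⟨(a (l 3) (a (l 3) (b (c (a (c (a (b (c (c (l 10905130007) (l 10905129351)) (l 10368258119)) (l 3)) (b (c (l 16739296) (l 16733584)) (c (l 16741992) (l 16746776)))) (b (a (c (l 10905127447) (l 16744896)) (l 16743360)) (a (l 3) (c (l 16735816) (l 16735344))))) (a (b (c (l 16731168) (l 16725064)) (c (l 16739152) (l 16727808))) (c (c (l 16729824) (l 16729448)) (l 16728872)))) (a (a (b (c (l 13052607191) (l 16743040)) (l 3)) (c (b (l 16731888) (l 16745096)) (b (l 16730864) (l 16733600)))) (c (b (l 16730776) (l 16733544)) (b (l 16729872) (l 16732656))))) (a (a (l 3) (c (c (b (c (l 16744504) (l 16749288)) (c (l 16747000) (l 16741312))) (b (c (l 16738344) (l 16737872)) (l 16745872))) (c (b (l 16747640) (l 16739696)) (b (l 16736168)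 (l 16738736))))) (c (a (c (b (l 16741736) (l 16733848)) (b (l 16730400) (l 16733008))) (b (c (l 16723384) (l 16722616)) (c (l 16726008) (l 16725248)))) (c (b (l 16736160) (l 16738792)) (b (l 16735288) (l 16737936)))))))), by decide +kernel⟩

def k21_pm_011 : ∃ t, chk3 f_pm_011 t 31 59 1 = true :=
  ⟨(a (l 3) (a (l 3) (a (c (a (l 3) (a (b (b (c (l 16747616) (l 16744768)) (l 3)) (l 3)) (c (b (c (l 16748768) (l 16743112)) (c (b (l 16746992) (l 16749192)) (l 5536427191))) (b (l 16745096) (c (l 16752576) (l 16746952)))))) (a (l 3) (a (b (c (l 16750240) (l 16744080)) (l 3)) (c (b (l 16741608) (l 16748992)) (b (l 16740712) (l 16745576)))))) (c (a (a (c (b (l 16742088) (c (l 16749648) (l 16744048))) (b (l 16738656) (l 16748744))) (c (b (l 16735584) (l 16745616)) (b (l 16734800) (l 16739672)))) (c (b (c (l 16740392) (l 16729552)) (c (l 16739968) (l 16744896))) (b (l 16739496) (l 16741784)))) (a (c (b (l 16746392) (c (l 16751528) (l 16751152))) (b (l 16735064) (l 16745336))) (c (b (l 16728256)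 (l 16743736)) (b (l 16727480) (l 16732552)))))))), by decide +kernel⟩

def k22_pm_011 : ∃ t, chk3 f_pm_011 t 7 15 1 = true :=
  ⟨(a (l 3) (a (l 3) (a (l 3) (b (a (l 3) (a (a (l 3) (a (l 3) (a (l 3) (b (a (l 3) (b (b (c (c (l 16750008) (l 16749360)) (l 18958201079)) (l 3)) (l 3))) (l 3))))) (b (b (b (c (c (a (c (l 16751184) (l 16750880)) (l 16743344)) (a (c (l 16750560) (l 16745000)) (l 16737536))) (c (a (l 16749752) (l 16736936)) (a (l 16743840) (l 16736328)))) (l 6)) (l 6)) (l 6)))) (l 6))))), by decide +kernel⟩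

theorem s23_pm_011 : ∃ t, chk3 f_pm_011 t 31 29 1 = true := ex3_b k20_pm_011 k21_pm_011

theorem s24_pm_011 : ∃ t, chk3 f_pm_011 t 15 29 1 = true := ex3_a k19_pm_011 s23_pm_011

theorem s25_pm_011 : ∃ t, chk3 f_pm_011 t 63 28 1 = true := ex3_b k17_pm_011 k18_pm_011

theorem s26_pm_011 : ∃ t, chk3 f_pm_011 t 31 28 1 = true := ex3_a k16_pm_011 s25_pm_011

theorem s27_pm_011 : ∃ t, chk3 f_pm_011 t 15 28 1 = true := ex3_a k15_pm_011 s26_pm_011

theorem s28_pm_011 : ∃ t, chk3 f_pm_011 t 15 14 1 = true := ex3_b s27_pm_011 s24_pm_011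

theorem s29_pm_011 : ∃ t, chk3 f_pm_011 t 7 14 1 = true := ex3_a k14_pm_011 s28_pm_011

theorem s30_pm_011 : ∃ t, chk3 f_pm_011 t 7 7 1 = true := ex3_b s29_pm_011 k22_pm_011

theorem s31_pm_011 : ∃ t, chk3 f_pm_011 t 63 55 1 = true := ex3_a k12_pm_011 k13_pm_011

theorem s32_pm_011 : ∃ t, chk3 f_pm_011 t 63 54 1 = true := ex3_a k10_pm_011 k11_pm_011

theorem s33_pm_011 : ∃ t, chk3 f_pm_011 t 63 27 1 = true := ex3_b s32_pm_011 s31_pm_011

theorem s34_pm_011 : ∃ t, chk3 f_pm_011 t 31 27 1 = true := ex3_a k9_pm_011 s33_pm_011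

theorem s35_pm_011 : ∃ t, chk3 f_pm_011 t 63 26 1 = true := ex3_c k7_pm_011 k8_pm_011

theorem s36_pm_011 : ∃ t, chk3 f_pm_011 t 31 26 1 = true := ex3_a k6_pm_011 s35_pm_011

theorem s37_pm_011 : ∃ t, chk3 f_pm_011 t 31 13 1 = true := ex3_b s36_pm_011 s34_pm_011

theorem s38_pm_011 : ∃ t, chk3 f_pm_011 t 15 13 1 = true := ex3_a k5_pm_011 s37_pm_011

theorem s39_pm_011 : ∃ t, chk3 f_pm_011 t 7 13 1 = true := ex3_a k4_pm_011 s38_pm_011

theorem s40_pm_011 : ∃ t, chk3 f_pm_011 t 7 6 1 = true := ex3_b k3_pm_011 s39_pm_011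

theorem s41_pm_011 : ∃ t, chk3 f_pm_011 t 7 3 1 = true := ex3_b s40_pm_011 s30_pm_011

theorem s42_pm_011 : ∃ t, chk3 f_pm_011 t 3 3 1 = true := ex3_a k2_pm_011 s41_pm_011

theorem s43_pm_011 : ∃ t, chk3 f_pm_011 t 3 1 1 = true := ex3_b k1_pm_011 s42_pm_011

theorem s44_pm_011 : ∃ t, chk3 f_pm_011 t 1 1 1 = true := ex3_a k0_pm_011 s43_pm_011

theorem c_pm_011 : CertF 0 536870912 536870912 536870912 134217728 67108864 true true false .pnn 0 1 1
    ndF0q0 ndF3q1 pcF1 cut_pm_011 Ext.none :=
  certF2 (fam := true) (s1 := true) (s2 := false) (a := 0) (b := 1) (c := 1) (cn := .pnn) (n1 := ndF0q0) (n2 := ndF3q1) (pc := pcF1) (cut := cut_pm_011) (xt := Ext.none) (P1 := 0) (W1 := 536870912) (P2 := 536870912) (W2 := 536870912) (P3 := 134217728) (W3 := 67108864)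
    rfl (fun _ => rfl) s44_pm_011

noncomputable def cut_pm_012 : Cut := Cut.of [[⟨0, 0, 0, 67108864⟩, ⟨1, 1, 0, 67108864⟩, ⟨2, 1, 0, 67108864⟩]]

noncomputable def f_pm_012 : ℕ → ℕ → ℕ → ℕ → Bool := onCell 1073741824 536870912 536870912 536870912 134217728 67108864
    (rowF 2 true true false .pnp 0 1 2 (qsf 0 536870912 536870912 536870912 2) ndF0q0 ndF3q1 pcF2 cut_pm_012 Ext.none)

def k0_pm_012 : ∃ t, chk3 f_pm_012 t 2 2 1 = true :=
  ⟨(a (b (a (a (c (b (l 17963072) (l 17881488)) (b (l 17776544) (a (l 17650408) (l 17717776)))) (b (l 17981880) (c (l 18018816) (l 17814552)))) (a (a (b (l 18059776) (l 18007648)) (b (l 2) (l 18058264))) (a (l 18183080) (l 18156912)))) (a (a (b (c (l 17784600) (a (b (l 17564576) (l 17497528)) (l 17609840))) (c (a (b (l 17644304) (l 17563536)) (l 17707736)) (a (b (l 17397008) (a (l 17254560) (l 17342232))) (b (l 17504272) (l 17412384))))) (c (b (l 17947080) (l 17852800)) (b (l 17722736) (a (l 17550880) (l 17639024))))) (a (a (b (l 17943336) (l 17834552))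 (b (l 18006040) (c (l 18065424) (l 17802840)))) (a (b (l 18062656) (l 18005712)) (b (l 18114680) (l 18072400)))))) (a (b (a (a (l 18186384) (l 2)) (l 2)) (a (a (b (l 18160192) (l 18132184)) (b (l 18202528) (l 18187600))) (l 18248288))) (b (l 2) (a (l 18300288) (l 18333992))))), by decide +kernel⟩

def k1_pm_012 : ∃ t, chk3 f_pm_012 t 8 12 1 = true :=
  ⟨(a (b (a (c (b (l 17489120) (a (l 17400160) (l 17459888))) (b (c (l 17291792) (l 17161568)) (a (b (l 17126864) (c (l 17174496) (l 17036368))) (l 17176424)))) (c (l 17577736) (b (l 17325384) (l 17254712)))) (a (c (a (b (c (l 17399736) (l 17251504)) (c (l 17315640) (a (l 17138904) (l 17170416)))) (b (l 17389096) (l 17260920))) (b (b (a (c (l 17128608) (l 16984896)) (l 17108056)) (a (c (l 17078528) (l 16886896)) (l 17056464))) (a (a (c (b (l 17010080) (l 16949736)) (b (l 16855760) (l 16788608))) (c (l 17008360) (l 16805112))) (c (l 17052536) (l 16781696))))) (c (b (l 17485976) (l 17344552)) (b (c (l 17246296) (l 17087360)) (a (c (l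 17114600) (l 16943608)) (l 17070600)))))) (c (b (l 17748536) (a (l 17582344) (l 17712128))) (b (a (l 17396128) (l 17500984)) (a (b (l 17283904) (l 17125320)) (b (l 17402400) (l 17318752)))))), by decide +kernel⟩

def k2_pm_012 : ∃ t, chk3 f_pm_012 t 16 26 1 = true :=
  ⟨(a (c (a (b (c (a (l 17173800) (l 17232008)) (a (b (l 17052704) (l 16903792)) (l 17053928))) (c (a (b (l 17102440) (c (l 17081264) (l 16982912))) (l 17086328)) (a (b (b (l 16913496) (l 16833656)) (a (c (l 16876056) (l 16778728)) (l 16844184))) (b (l 16949912) (l 16870560))))) (b (c (l 17289272) (l 17105960)) (c (l 17147696) (b (l 17004408) (l 16926752))))) (a (b (c (a (b (l 16799560) (a (l 16782472) (l 16817504))) (l 16771712)) (a (b (l 16714936) (l 16667832)) (l 16699936))) (a (c (a (b (l 16743640) (l 16675392)) (l 16671784)) (b (l 16661384) (l 16665624))) (c (b (l 16759264) (l 16669912)) (l 16667160)))) (b (c (b (l 16958296) (l 16887040)) (b (l 16780688) (l 16700776))) (c (b (l 16807976) (l 16719896)) (l 16641752)))))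 (c (b (c (l 17406416) (l 17215472)) (c (l 17233336) (a (l 17044912) (l 17126696)))) (b (a (c (l 16990288) (l 16802864)) (l 16755136)) (a (b (l 16756968) (l 16687416)) (b (l 16851280) (l 16764536)))))), by decide +kernel⟩

def k3_pm_012 : ∃ t, chk3 f_pm_012 t 16 27 1 = true :=
  ⟨(a (a (b (c (a (c (b (a (c (l 16995040) (l 16871152)) (l 16963416)) (a (c (l 16867608) (l 16737912)) (l 16833376))) (b (a (c (l 16768416) (l 16686816)) (l 16755008)) (c (l 16687920) (l 16685576)))) (c (b (l 16994232) (l 16885888)) (b (l 16781840) (l 16682184)))) (c (a (b (l 16680824) (l 16685400)) (l 16676032)) (b (l 16682680) (l 16687264)))) (c (a (c (b (a (a (b (l 16734888) (l 16739616)) (l 16739552)) (l 16775880)) (c (a (b (l 16732704) (l 16690720)) (l 16725216)) (l 16697976))) (b (c (l 16690408) (l 16690312)) (c (l 16695264) (l 16695136)))) (c (b (l 16787096) (l 16695712)) (l 16685384))) (a (b (c (l 16690096) (l 16679208)) (c (l 16694888) (l 16683960))) (c (l 16685424) (l 16685336))))) (c (b (c (b (l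 17058816) (l 16910800)) (b (l 16839752) (l 16741824))) (c (b (a (l 16853592) (l 16901456)) (a (l 16742688) (l 16792656))) (b (l 16658016) (l 16663128)))) (b (c (l 16650512) (l 16651008)) (c (l 16670704) (l 16660592))))) (a (c (b (c (l 16941880) (b (l 16923392) (l 16829312))) (b (c (l 16976424) (l 16722744)) (c (l 16850704) (l 16628720)))) (b (c (l 16624872) (l 16617328)) (c (l 16626328) (l 16627328)))) (c (b (c (l 17204936) (l 16926168)) (c (b (l 17079952) (l 16981680)) (b (l 16821480) (l 16706488)))) (b (c (l 16731904) (l 16583280)) (c (l 16592120) (l 16593776)))))), by decide +kernel⟩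

def k4_pm_012 : ∃ t, chk3 f_pm_012 t 17 13 1 = true :=
  ⟨(b (c (a (b (l 17463728) (c (l 17468024) (l 17251472))) (b (l 17613184) (l 17525728))) (a (b (a (l 17035592) (l 17107640)) (a (l 16782704) (l 16947216))) (b (l 17111568) (a (l 17049600) (l 17130816))))) (c (a (b (c (l 17348544) (a (l 17061144) (l 17154872))) (c (a (l 17140592) (l 17248752)) (a (l 16808320) (l 16978448)))) (b (c (l 17535640) (l 17294296)) (c (l 17407712) (a (l 17085344) (l 17190600))))) (a (b (a (b (l 16753328) (l 16649800)) (l 16752304)) (b (l 16562520) (a (l 16562112) (l 16543448)))) (b (a (l 16865888) (l 16937384)) (a (l 16681280) (l 16704488)))))), by decide +kernel⟩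

def k5_pm_012 : ∃ t, chk3 f_pm_012 t 9 6 1 = true :=
  ⟨(a (b (a (b (c (l 17908464) (l 17603752)) (c (l 17835800) (l 17484960))) (c (b (l 18003624) (l 17948760)) (b (l 17699552) (a (l 17573272) (l 17630152))))) (a (b (c (l 17722416) (b (l 17359248) (l 17250696))) (c (b (l 17593048) (c (l 17608880) (l 17343472))) (b (c (l 17234896) (l 16996600)) (c (l 17078432) (l 16813760))))) (b (c (l 17797736) (a (b (l 17462416) (l 17366504)) (l 17487480))) (c (a (b (l 17718592) (l 17618984)) (l 17757200)) (a (b (l 17247256) (c (l 17227928) (l 16967576))) (b (l 17331680) (l 17110864))))))) (b (a (c (l 18074584) (b (l 17789664) (l 17708616))) (b (l 18022240) (l 17978696))) (b (a (c (l 17987288) (a (l 17554648) (l 17619632))) (c (l 18103072) (l 17711576))) (c (a (b (l 17907536) (l 17834168)) (l 18019696)) (a (b (l 17408968) (a (l 17287752) (l 17377128))) (b (l 17600952) (l 17503568))))))), by decide +kernel⟩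

def k6_pm_012 : ∃ t, chk3 f_pm_012 t 16 28 1 = true :=
  ⟨(a (a (b (c (a (c (c (a (b (l 16704704) (l 16709736)) (l 16705304)) (b (l 16700320) (l 16705352))) (b (c (l 16700200) (l 16700048)) (a (l 16709296) (l 16690448)))) (c (b (l 16693704) (l 16698856)) (b (l 16672776) (l 16677872)))) (a (c (b (l 16699776) (l 16704728)) (b (l 16688816) (l 16714712))) (c (l 16695080) (l 16694920)))) (b (c (a (c (c (a (l 16714784) (l 16695808)) (l 16710400)) (a (l 16714296) (l 16695496))) (c (l 16704024) (l 16682984))) (a (c (l 16709720) (l 16719688)) (l 16703672))) (c (a (b (c (l 16717312) (l 16714320)) (c (l 16719888) (l 16716880))) (c (l 16698704) (l 16709080))) (a (c (l 16719984) (l 16724696)) (l 16708752))))) (b (b (c (c (l 16667816) (l 16668320)) (l 16668832)) (c (c (l 16673144) (l 16673560)) (l 16673976))) (c (b (c (l 16678472) (l 16678816)) (c (l 16683792) (l 16684072))) (b (l 16679144) (l 16689560))))) (b (a (c (b (c (l 16751392) (l 16634128)) (c (l 16638560) (l 16639576))) (b (l 16635560)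 (l 16640872))) (c (c (b (l 16868856) (l 16738496)) (l 16611720)) (c (l 16613328) (l 16604304)))) (a (c (c (a (l 16658984) (l 16641760)) (a (l 16654528) (l 16637592))) (b (l 16646192) (l 16651512))) (c (b (c (l 16609424) (l 16610936)) (b (a (l 16623480) (l 16606280)) (l 16618424))) (b (l 16612976) (l 16618456)))))), by decide +kernel⟩

def k7_pm_012 : ∃ t, chk3 f_pm_012 t 17 28 1 = true :=
  ⟨(a (b (c (b (c (l 16797880) (l 16710856)) (a (c (l 16868544) (l 16577856)) (l 16690960))) (a (a (l 16578056) (l 16588824)) (b (l 16553216) (l 16562984)))) (b (c (c (a (l 16728368) (l 16870832)) (l 16582168)) (l 16584048)) (c (c (a (l 16599720) (l 16721144)) (l 16591928)) (l 16590104)))) (c (c (b (a (l 17179792) (l 17300368)) (a (b (l 17011344) (l 16875760)) (b (l 17148064) (l 17025920)))) (b (a (l 16874392) (l 16997496)) (b (l 16702352) (l 16569728)))) (b (a (c (l 16569472) (l 16546008)) (c (l 16695056) (l 16534344))) (a (c (l 16568432) (l 16565360)) (c (l 16556600) (l 16552856)))))), by decide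 +kernel⟩

def k8_pm_012 : ∃ t, chk3 f_pm_012 t 16 29 1 = true :=
  ⟨(b (a (a (a (b (c (c (a (c (l 16725224) (l 16725008)) (l 16716768)) (b (l 16719440) (l 16722088))) (c (c (l 16730688) (l 16730432)) (l 16724776))) (c (c (a (c (l 16730104) (l 16729888)) (l 16721688)) (b (l 16724568) (l 16727064))) (a (c (l 16729008) (l 16728424)) (l 16720680)))) (b (c (c (l 16704208) (l 16714528)) (l 16714144)) (c (c (l 16709192) (l 16709000)) (l 16716456)))) (c (c (a (b (l 16697872) (l 16702952)) (b (l 16680976) (l 16686144))) (b (l 16689648) (a (l 16702984) (l 16686416)))) (c (b (l 16689768) (l 16694808)) (b (l 16689816) (l 16694824))))) (a (b (c (a (c (l 16664008) (l 16664592)) (l 16642152)) (a (l 16665320) (l 16648920))) (c (c (l 16660808) (l 16661448)) (l 16662264))) (b (c (a (l 16625168) (l 16609456)) (l 16624224)) (c (a (l 16631872) (c (l 16628336) (l 16627136))) (l 16629472))))) (a (a (a (c (a (c (b (l 16735160) (l 16739728)) (b (l 16724208) (l 16728824))) (c (l 16729232) (l 16728872)))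 (b (c (l 16730136) (l 16729616)) (c (a (l 16728360) (l 16720296)) (l 16734352)))) (c (c (b (l 16714448) (l 16719088)) (b (l 16703744) (l 16718904))) (c (l 16716360) (l 16716056)))) (c (a (c (l 16705448) (l 16700192)) (c (l 16683512) (l 16683720))) (a (c (l 16700136) (l 16700032)) (l 16683928)))) (a (c (a (c (l 16666760) (l 16677672)) (b (l 16658256) (l 16663160))) (c (l 16669872) (l 16670304))) (c (b (c (l 16641728) (l 16640768)) (c (l 16652552) (l 16651656))) (b (l 16639456) (l 16650416)))))), by decide +kernel⟩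

def k9_pm_012 : ∃ t, chk3 f_pm_012 t 17 29 1 = true :=
  ⟨(b (b (a (c (c (a (l 16609224) (l 16597824)) (l 16603368)) (a (l 16605016) (l 16592096))) (c (c (a (l 16716920) (l 16883248)) (l 16577640)) (c (l 16574432) (l 16571368)))) (a (c (c (a (l 16619256) (l 16607440)) (a (l 16617640) (l 16605232))) (a (l 16615376) (l 16602112))) (c (c (a (l 16574816) (l 16715336)) (a (l 16571992) (l 16559864))) (a (l 16588944) (l 16575888))))) (a (c (c (a (b (l 16629048) (l 16639488)) (b (l 16595872) (l 16605920))) (a (l 16627544) (l 16619832))) (b (c (l 16619472) (l 16617872)) (a (l 16636152) (l 16601264)))) (c (a (c (b (l 16583816) (l 16593480)) (l 16607008)) (c (b (l 16571936) (l 16581216)) (l 16594328))) (a (l 16603360) (c (l 16570312) (l 16567368)))))), by decide +kernel⟩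

def k10_pm_012 : ∃ t, chk3 f_pm_012 t 16 15 1 = true :=
  ⟨(a (b (a (b (b (a (a (c (c (l 16744160) (l 16733336)) (c (l 16732960) (l 16732536))) (c (c (l 16725464) (l 16725208)) (l 16724752))) (c (c (l 16723600) (l 16723472)) (c (l 16723304) (l 16723096)))) (a (l 6) (a (l 6) (a (l 6) (c (l 16716712) (l 16711416)))))) (l 6)) (b (a (c (a (c (l 16713536) (l 16713560)) (b (l 16697736) (l 16704976))) (b (l 16707120) (l 16711856))) (c (c (a (l 16696984) (l 16688688)) (l 16698336)) (c (l 16698552) (l 16698728)))) (a (l 6) (b (c (a (l 6) (l 16693944)) (l 16701384)) (l 6))))) (l 6)) (b (b (b (a (a (c (l 16674040) (l 16685296)) (c (l 16663344) (l 16672784))) (c (c (l 16653040) (l 16662672)) (l 16656216))) (a (c (c (a (l 16692616) (l 16685328)) (l 16679304)) (l 16679944)) (c (c (a (l 16678088) (l 16649944)) (l 16663160)) (c (l 16672840) (l 16672056))))) (a (a (b (c (c (l 16692344) (l 16702528)) (l 16691616)) (l 6)) (b (c (c (l 16695368) (l 16694920)) (l 16683776)) (c (c (l 16694752) (l 16694408))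 (l 16693896)))) (c (b (c (a (l 16687968) (l 16659664)) (a (l 16666384) (l 16658880))) (c (a (l 16687184) (l 16669208)) (b (l 16680424) (l 16685328)))) (b (c (l 16672416) (l 16671744)) (a (l 16685960) (l 16678080)))))) (b (a (l 6) (a (l 6) (a (l 6) (b (b (c (l 16674288) (l 16673064)) (l 6)) (l 6))))) (l 6)))), by decide +kernel⟩

def k11_pm_012 : ∃ t, chk3 f_pm_012 t 17 30 1 = true :=
  ⟨(a (b (c (a (b (c (l 16650088) (l 16648776)) (c (l 16650216) (l 16659448))) (b (c (l 16616144) (l 16614328)) (c (l 16636880) (l 16624656)))) (b (a (l 16646888) (l 16632672)) (a (l 16652368) (l 16632616)))) (a (c (b (c (a (l 16652664) (l 16645784)) (l 16658600)) (c (a (l 16662040) (l 16655008)) (a (l 16661216) (l 16653992)))) (b (a (l 16650224) (l 16642816)) (c (l 16667152) (l 16655728)))) (c (b (c (l 16646024) (l 16634000)) (c (a (l 16648016) (l 16641056)) (l 16653672))) (b (c (l 16632488) (l 16630984)) (c (l 16641848) (l 16640512)))))) (b (c (a (c (b (l 16603336) (l 16613232)) (b (l 16600984) (l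 16610984))) (c (b (l 16590696) (l 16610712)) (b (l 16587784) (l 16597456)))) (a (b (l 16597576) (l 16628688)) (c (b (l 16584944) (l 16594736)) (l 16608056)))) (c (a (b (c (l 16622016) (l 16620008)) (c (a (l 16634144) (l 16627256)) (l 16628904))) (c (b (l 16619160) (a (l 16620400) (l 16613624))) (b (l 16606152) (l 16614744)))) (a (b (l 16627528) (c (l 16627136) (l 16625368))) (b (c (l 16603672) (l 16601232)) (c (l 16612504) (l 16610272))))))), by decide +kernel⟩

def k12_pm_012 : ∃ t, chk3 f_pm_012 t 17 62 1 = true :=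
  ⟨(a (c (b (a (c (a (l 16682040) (l 16674848)) (a (l 16670856) (l 16663488))) (c (a (l 16657216) (l 16650104)) (a (l 16656144) (l 16648840)))) (b (a (a (l 6) (c (l 16671472) (l 16670680))) (c (a (l 16664208) (l 16656984)) (l 16659520))) (a (l 6) (c (a (l 16668904) (l 16661600)) (l 16664232))))) (b (a (c (a (l 16670136) (l 16662584)) (a (l 16669392) (l 16661656))) (c (a (l 16655056) (l 16647552)) (l 16650080))) (a (a (l 6) (c (l 16672264) (l 16671408))) (c (b (l 16658416) (l 16663176)) (b (l 16657280) (l 16662080)))))) (c (a (b (c (b (l 16637288) (l 16641736)) (b (l 16635672) (l 16640208))) (c (b (l 16645552) (c (l 16651048) (l 16650368))) (b (l 16644760) (l 16649336)))) (a (b (c (l 16628984) (l 16627080)) (c (b (l 16635520) (l 16639920)) (l 16635992))) (b (c (l 16622048) (l 16619904)) (c (b (l 16628472) (l 16632792)) (l 16628688))))) (a (b (c (l 16636320) (l 16634704)) (c (b (l 16643272) (l 16647912)) (b (l 16641752) (l 16646448)))) (b (c (a (l 16625160) (l 16617760)) (l 16619400))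 (c (a (l 16634240) (l 16626720)) (a (l 16632448) (l 16624712))))))), by decide +kernel⟩

def k13_pm_012 : ∃ t, chk3 f_pm_012 t 17 63 1 = true :=
  ⟨(a (a (l 6) (b (b (a (l 6) (a (l 6) (c (c (l 16664416) (l 16663320)) (l 16661584)))) (l 6)) (l 6))) (b (c (a (c (b (c (l 16655568) (l 16654928)) (c (a (l 16663800) (l 16656464)) (a (l 16663224) (l 16655808)))) (b (c (l 16654264) (l 16653592)) (c (l 16658872) (l 16658232)))) (c (a (b (l 16644344) (c (l 16649168) (l 16648416))) (b (c (l 16637592) (l 16636704)) (c (l 16641952) (l 16641104)))) (b (a (l 16642744) (l 16635344)) (a (l 16647264) (l 16639800))))) (a (c (b (l 16652568) (a (l 16661104) (l 16653376))) (b (l 16651144) (l 16655848))) (c (b (a (l 16641088) (l 16633488)) (a (l 16645672) (l 16638008))) (a (l 16641688) (b (l 16631584) (l 16636160)))))) (c (a (a (l 6) (b (b (c (l 16659560) (l 16658248)) (l 6)) (l 6))) (c (b (a (c (l 16653640) (l 16652920)) (c (b (l 16645248) (l 16647456)) (l 16645536))) (a (b (c (l 16657016) (l 16656320))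 (l 6)) (c (b (c (l 16649864) (l 16649472)) (a (l 16653712) (l 16650080))) (b (l 16648880) (c (l 16651312) (l 16650912)))))) (b (a (c (l 16652184) (l 16651424)) (c (l 16644704) (l 16643848))) (a (b (l 16655232) (l 6)) (c (b (l 16648064) (l 16650312)) (b (l 16647232) (l 16649496))))))) (a (a (l 6) (b (c (l 16658024) (l 16656584)) (l 6))) (c (b (a (l 16650256) (c (l 16642984) (l 16642096))) (a (c (l 16655248) (l 16654472)) (c (b (l 16646384) (l 16648656)) (l 16646656)))) (b (a (l 16648640) (l 16640736)) (a (l 16653272) (c (l 16645768) (l 16644872))))))))), by decide +kernel⟩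

def k14_pm_012 : ∃ t, chk3 f_pm_012 t 18 14 1 = true :=
  ⟨(a (b (c (b (c (l 17473344) (l 16987016)) (c (b (l 17343600) (l 17240032)) (b (l 17017064) (l 16891112)))) (b (b (l 16747448) (l 16667192)) (b (l 16527904) (l 16539736)))) (b (c (b (c (l 16951712) (l 16745336)) (c (a (l 16893032) (l 17061448)) (l 16575520))) (b (c (l 16529240) (l 16524816)) (c (l 16537920) (l 16533712)))) (c (c (a (l 16574104) (b (l 16905152) (l 16720136))) (b (l 16550560) (l 16580448))) (c (a (l 16557368) (l 16544560)) (l 16578464))))) (b (c (b (a (c (l 17635352) (l 17344256)) (l 17593696)) (a (c (l 17484376) (l 17051320)) (c (l 17603152) (l 17281608)))) (b (a (a (l 16879168) (l 16874104)) (c (l 17164488) (l 16878584))) (a (b (l 16710504) (l 16592872)) (b (l 16818560) (l 16692656))))) (b (c (a (b (c (l 17337936) (l 16976224)) (c (l 17220240) (l 16832424))) (c (l 17402776) (b (l 17120224) (l 16991824)))) (a (b (l 16530568) (l 16538744)) (b (l 16590728) (l 16527344)))) (c (a (c (a (l 16937616) (l 17007320))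 (l 16560096)) (c (b (l 17247928) (l 17105224)) (a (l 16712976) (l 16804192)))) (a (c (l 16553560) (l 16527656)) (c (l 16520984) (l 16515216))))))), by decide +kernel⟩

def k15_pm_012 : ∃ t, chk3 f_pm_012 t 19 14 1 = true :=
  ⟨(b (c (a (b (l 17633416) (a (l 17452752) (l 17666568))) (b (l 17915272) (l 17817976))) (a (b (a (l 16941328) (l 17233968)) (a (b (l 16983768) (l 16869696)) (b (l 17101272) (l 16998080)))) (b (a (l 17333072) (l 17427424)) (a (l 17063344) (l 17278784))))) (a (b (c (a (c (l 17557016) (b (l 17256160) (l 17141856))) (c (l 17681984) (l 17335696))) (a (b (l 16739648) (l 16590824)) (b (l 16880664) (l 16725696)))) (c (c (a (l 17342640) (l 17494368)) (a (l 16788552) (l 17099816))) (a (c (l 16528040) (l 16504824)) (l 16518200)))) (c (b (c (l 17854256) (l 17521960)) (c (l 17701968) (a (l 17253128) (l 17395968)))) (b (a (b (l 17013976) (l 16893480)) (b (l 17139832) (l 17031608))) (a (l 16553464) (l 16651024)))))), by decide +kernel⟩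

def k16_pm_012 : ∃ t, chk3 f_pm_012 t 36 30 1 = true :=
  ⟨(b (c (c (b (a (l 16578504) (l 16566512)) (a (l 16587672) (l 16575320))) (b (l 16589560) (a (l 16584296) (l 16571312)))) (a (c (l 16597168) (l 16572912)) (c (l 16583712) (l 16558848)))) (c (c (b (a (l 16595768) (l 16583064)) (a (l 16619480) (l 16590704))) (b (a (l 16592680) (l 16579368)) (a (l 16600952) (l 16587328)))) (a (c (b (l 16589640) (l 16598184)) (b (l 16586656) (l 16595440))) (c (b (l 16575736) (l 16583992)) (b (l 16572168) (l 16580696)))))), by decide +kernel⟩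

def k17_pm_012 : ∃ t, chk3 f_pm_012 t 36 62 1 = true :=
  ⟨(c (b (c (a (c (l 16612552) (l 16611288)) (c (l 16599312) (l 16597768))) (a (a (l 16612888) (l 16605912)) (l 16595464))) (b (c (a (c (l 16618760) (l 16617592)) (l 16604560)) (a (l 16615816) (l 16601672))) (c (a (c (l 16622944) (l 16621824)) (c (l 16609304) (l 16607920))) (a (l 16620136) (l 16605848))))) (b (c (a (l 16606856) (l 16592392)) (a (l 16604312) (l 16589328))) (a (c (b (l 16613440) (l 16617848)) (l 16613272)) (c (b (l 16598776) (l 16603056)) (l 16598048))))), by decide +kernel⟩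

def k18_pm_012 : ∃ t, chk3 f_pm_012 t 36 63 2 = true :=
  ⟨(b (c (a (b (c (l 16627160) (l 16626096)) (c (a (l 16634920) (l 16627928)) (l 16630392))) (b (c (l 16613368) (l 16612048)) (c (a (l 16620960) (l 16614008)) (l 16616208)))) (a (b (c (l 16625016) (l 16623928)) (c (l 16629360) (l 16628312))) (b (c (l 16610720) (l 16609384)) (c (l 16614936) (l 16613648))))) (c (a (b (c (a (l 16639248) (l 16632176)) (a (l 16638320) (l 16631144))) (c (a (b (l 16642512) (c (l 16644912) (l 16644472))) (b (l 16635392) (c (l 16637784) (l 16637288)))) (a (b (l 16641608) (l 16642504)) (b (l 16634384) (c (l 16636800) (l 16636296)))))) (b (c (a (l 16625136) (l 16618112)) (a (l 16623984) (l 16616840))) (c (a (b (l 16628296) (c (l 16630680) (l 16630128))) (b (l 16621216) (c (l 16623592) (l 16622992)))) (a (b (l 16627168) (c (l 16629584) (l 16629024))) (b (l 16619976) (c (l 16622384) (l 16621768))))))) (a (b (c (a (l 16637376) (l 16630088)) (a (l 16636424) (l 16629024))) (b (c (a (l 16640696) (l 16633360))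 (l 16636032)) (c (a (l 16642912) (l 16635536)) (a (l 16641992) (l 16634512))))) (b (c (a (l 16622816) (l 16615544)) (a (l 16621632) (l 16614248))) (b (c (a (l 16626032) (l 16618720)) (l 16621160)) (c (a (l 16628184) (l 16620840)) (a (l 16627048) (l 16619592)))))))), by decide +kernel⟩

def k19_pm_012 : ∃ t, chk3 f_pm_012 t 36 63 3 = true :=
  ⟨(b (c (a (b (l 16622272) (c (l 16627248) (l 16626176))) (b (l 16607368) (c (l 16612352) (l 16611040)))) (a (b (l 16620024) (l 16624536)) (b (l 16604648) (l 16609056)))) (a (c (b (c (l 16631680) (l 16630640)) (c (a (l 16639928) (l 16632352)) (a (l 16638960) (l 16631288)))) (b (c (l 16629576) (l 16628504)) (a (c (l 16637976) (l 16636968)) (c (l 16630192) (l 16629088))))) (c (b (c (l 16615360) (l 16615400)) (c (a (l 16624792) (b (l 16616168) (l 16618320))) (a (l 16623616) (l 16615952)))) (b (c (l 16614112) (l 16612816)) (c (a (l 16622416) (l 16614640)) (a (l 16621200) (l 16613312))))))), by decide +kernel⟩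

def k20_pm_012 : ∃ t, chk3 f_pm_012 t 37 30 1 = true :=
  ⟨(a (c (b (c (b (l 16621696) (l 16584752)) (b (l 16550464) (l 16559088))) (c (b (l 16592104) (a (l 16580992) (l 16574672))) (b (l 16587752) (l 16595360)))) (b (c (a (l 16552704) (l 16546152)) (a (l 16548328) (l 16541456))) (c (b (l 16562512) (l 16591416)) (a (l 16565456) (l 16558288))))) (c (b (c (b (l 16810680) (l 16567888)) (b (l 16539104) (l 16547320))) (c (b (l 16559768) (l 16582352)) (b (l 16554632) (l 16561872)))) (b (c (l 16558632) (l 16553304)) (c (b (l 16549608) (l 16557192)) (b (l 16544688) (l 16552600)))))), by decide +kernel⟩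

def k21_pm_012 : ∃ t, chk3 f_pm_012 t 37 62 1 = true :=
  ⟨(c (a (c (b (a (l 16588584) (l 16582088)) (a (c (l 16597168) (l 16595552)) (c (l 16590576) (l 16588816)))) (b (a (l 16585072) (l 16578272)) (a (l 16593128) (l 16586176)))) (a (c (b (l 16576016) (c (l 16584400) (l 16582464))) (b (l 16571848) (l 16579576))) (c (b (l 16570712) (l 16577888)) (b (l 16566112) (l 16573624))))) (a (b (c (a (l 16581576) (l 16574488)) (a (l 16578104) (l 16570736))) (c (a (l 16589888) (l 16582664)) (a (l 16586648) (l 16579152)))) (b (c (l 16585920) (l 16560648)) (c (a (l 16575728) (l 16569384)) (a (l 16571896) (l 16565168)))))), by decide +kernel⟩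

def k22_pm_012 : ∃ t, chk3 f_pm_012 t 37 63 2 = true :=
  ⟨(a (b (c (a (b (l 16602328) (c (l 16607072) (l 16605616))) (c (b (l 16596360) (l 16600272)) (b (l 16594712) (l 16598680)))) (a (b (l 16599280) (l 16603416)) (b (l 16592216) (c (l 16597080) (l 16595472))))) (c (a (b (c (l 16611104) (l 16609704)) (c (b (l 16614152) (c (l 16616528) (l 16615864))) (b (l 16612792) (c (l 16615192) (l 16614520))))) (b (c (l 16606840) (l 16602688)) (c (b (l 16609832) (c (l 16612200) (l 16608856))) (b (l 16605720) (c (l 16608120) (l 16607384)))))) (a (b (c (l 16608288) (l 16606864)) (c (b (l 16611416) (l 16613504)) (b (l 16610024) (l 16612136)))) (b (c (l 16601144) (l 16599592)) (a (c (l 16609592) (l 16605504)) (c (a (l 16604232) (l 16602408)) (l 16601808))))))) (b (c (a (b (l 16599616) (c (l 16593848) (l 16592096))) (c (l 16586248) (l 16584264))) (a (c (l 16588352) (l 16586560)) (b (l 16579368) (l 16583240)))) (c (a (b (c (l 16597704) (l 16596016)) (c (b (l 16600632) (c (l 16602992) (l 16602184)))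 (b (l 16598984) (c (l 16601376) (l 16600568))))) (b (c (l 16591856) (l 16589976)) (c (b (l 16594688) (c (l 16597040) (l 16596144))) (b (l 16592864) (l 16594792))))) (a (b (c (l 16594320) (l 16592616)) (a (c (l 16602504) (l 16598280)) (c (l 16596664) (l 16594976)))) (b (c (l 16588096) (l 16586208)) (c (b (l 16591024) (l 16592992)) (b (l 16589184) (l 16591176)))))))), by decide +kernel⟩

def k23_pm_012 : ∃ t, chk3 f_pm_012 t 37 63 3 = true :=
  ⟨(a (b (c (a (b (l 16596208) (l 16600448)) (b (l 16588880) (l 16593048))) (a (l 16595264) (b (l 16585528) (l 16589792)))) (a (c (b (c (l 16605432) (l 16603984)) (c (b (l 16608624) (l 16610760)) (l 16608280))) (b (l 16601784) (c (l 16606856) (l 16605416)))) (c (b (c (l 16598032) (l 16596456)) (c (b (l 16601184) (l 16603280)) (b (l 16599640) (l 16601768)))) (b (c (l 16594872) (l 16593280)) (c (b (l 16598088) (l 16600232)) (l 16597600)))))) (b (c (a (b (l 16581832) (l 16585928)) (b (l 16575336) (l 16579336))) (a (b (l 16578168) (l 16582368)) (l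 16573352))) (c (a (b (c (l 16590904) (l 16589184)) (c (b (l 16594000) (l 16596064)) (b (l 16592312) (l 16594400)))) (b (l 16585984) (c (b (l 16587336) (l 16589352)) (l 16586496)))) (a (b (l 16586592) (c (b (l 16590616) (l 16592728)) (l 16589976))) (b (l 16579560) (c (l 16584640) (l 16582784))))))), by decide +kernel⟩

def k24_pm_012 : ∃ t, chk3 f_pm_012 t 19 30 1 = true :=
  ⟨(a (b (c (c (a (b (l 17130608) (l 16830368)) (b (l 17309624) (l 17158272))) (a (l 16552384) (b (l 16870400) (l 16684176)))) (a (c (l 16548272) (l 16521000)) (c (l 16517248) (l 16509944)))) (c (a (c (b (l 16642720) (l 16556960)) (b (l 16544512) (l 16551272))) (c (b (l 16831048) (l 16594128)) (b (l 16534760) (l 16541032)))) (a (c (b (l 16538544) (l 16545688)) (b (l 16532712) (l 16540224))) (c (l 16552048) (l 16545464))))) (c (b (c (a (l 17390952) (l 17572784)) (a (b (l 17051096) (l 16887768)) (l 17065576))) (c (a (b (l 17187640) (l 16812984)) (b (l 17379024) (l 17198008))) (a (l 16544464) (b (l 16906928) (l 16708824)))))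 (b (a (c (l 16533056) (l 16499664)) (c (l 16704720) (l 16490184))) (a (c (l 16520856) (l 16513272)) (c (l 16511400) (l 16502760)))))), by decide +kernel⟩

def k25_pm_012 : ∃ t, chk3 f_pm_012 t 38 62 1 = true :=
  ⟨(c (a (c (b (l 16574008) (a (l 16572424) (l 16567152))) (b (l 16558232) (a (l 16567736) (l 16562016)))) (c (b (l 16553768) (c (l 16561528) (l 16558584))) (b (l 16547520) (a (l 16556488) (l 16551136))))) (a (b (c (l 16553008) (l 16547872)) (c (a (l 16563080) (l 16556936)) (a (l 16558472) (l 16551920)))) (b (c (l 16541384) (l 16535360)) (c (l 16569416) (l 16542760))))), by decide +kernel⟩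

def k26_pm_012 : ∃ t, chk3 f_pm_012 t 38 63 1 = true :=
  ⟨(c (a (b (c (c (b (l 16576720) (l 16590704)) (b (l 16574368) (l 16577952))) (b (a (l 16573320) (l 16567440)) (a (l 16577088) (l 16571104)))) (c (b (c (a (l 16586088) (l 16580504)) (a (l 16584008) (l 16578224))) (c (a (b (l 16588832) (l 16590680)) (b (l 16583168) (l 16587576))) (a (b (l 16586816) (l 16588696)) (b (l 16580944) (l 16582768))))) (b (c (a (l 16581936) (l 16575944)) (a (l 16579856) (l 16573664))) (a (c (b (l 16584792) (l 16586704)) (b (l 16582760) (l 16584704))) (c (b (l 16578720) (l 16580576)) (b (l 16576496) (l 16578392))))))) (b (c (c (b (l 16566328) (l 16569584)) (b (l 16563528) (l 16566880))) (b (l 16580336) (c (l 16564184) (l 16561504)))) (c (b (c (a (l 16575112) (l 16569912)) (a (l 16572616) (l 16567192))) (c (a (b (l 16577680) (l 16579408)) (b (l 16572392) (l 16574056))) (a (b (l 16575248) (l 16577016)) (l 16570592)))) (b (c (l 16578152) (l 16575552)) (c (a (l 16578960) (l 16567960)) (a (l 16571312) (l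 16565344))))))) (a (b (c (b (l 16576696) (a (l 16572800) (l 16566408))) (a (l 16566488) (l 16559752))) (c (b (a (l 16576736) (c (l 16571392) (l 16569112))) (a (c (l 16584336) (l 16579688)) (c (b (l 16574272) (l 16576192)) (l 16578256)))) (b (a (l 16572568) (l 16565704)) (a (c (l 16577656) (l 16575624)) (c (l 16570800) (l 16568592)))))) (a (b (c (l 16568800) (l 16553168)) (c (b (l 16563928) (c (l 16568904) (l 16566496))) (b (l 16558984) (c (l 16564088) (l 16561688))))) (b (c (l 16552296) (l 16546728)) (c (b (l 16557752) (c (l 16562728) (l 16560120))) (b (l 16552408) (c (l 16557512) (l 16554912)))))))), by decide +kernel⟩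

def k27_pm_012 : ∃ t, chk3 f_pm_012 t 39 31 1 = true :=
  ⟨(b (c (a (c (b (l 16548184) (c (l 16564240) (l 16548904))) (b (l 16537584) (l 16554280))) (c (b (c (l 17166320) (l 16889576)) (l 16546816)) (b (l 16528440) (l 16534136)))) (a (c (b (l 16530464) (l 16537080)) (b (l 16523496) (l 16530488))) (c (b (l 16520272) (l 16526416)) (b (l 16512296) (l 16518856))))) (c (b (c (a (c (b (l 16556752) (l 16559752)) (l 16565488)) (c (l 16560432) (l 16545600))) (a (c (l 16572760) (l 16569576)) (b (l 16538560) (l 16552056)))) (c (a (c (b (l 16562800) (a (l 16568088) (l 16563152))) (b (l 16559720) (a (l 16565232) (l 16560056)))) (c (b (l 16553520) (a (l 16558416) (l 16553872))) (b (l 16549944) (a (l 16555072) (l 16550280))))) (a (b (c (l 16556664) (l 16553616)) (c (a (l 16562384) (l 16556976)) (a (l 16559544) (l 16553912)))) (b (c (l 16546392) (l 16542864)) (c (a (l 16551752) (l 16546712)) (a (l 16548448) (l 16543168))))))) (b (c (a (b (l 16542168) (l 16545600)) (b (l 16531160) (l 16534368)))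 (a (b (l 16535840) (l 16539440)) (l 16546536))) (c (a (b (c (l 16550584) (l 16547568)) (c (a (l 16556712) (l 16550856)) (a (l 16553888) (l 16547816)))) (b (c (l 16539360) (l 16535880)) (c (a (l 16545168) (l 16539648)) (l 16547080)))) (a (b (a (l 16545960) (l 16539664)) (a (c (l 16551080) (l 16548280)) (l 16553768))) (b (l 16541200) (c (l 16546336) (l 16532504)))))))), by decide +kernel⟩

def k28_pm_012 : ∃ t, chk3 f_pm_012 t 5 6 1 = true :=
  ⟨(a (a (b (a (c (l 18239472) (l 17931120)) (c (l 18310912) (a (l 17990056) (l 18027304)))) (a (b (c (l 18207176) (l 17826696)) (c (l 18149976) (l 17702128))) (b (a (l 18092536) (l 18097936)) (c (l 18267048) (a (l 17802872) (l 17865968)))))) (b (c (l 18395552) (l 18108424)) (c (l 18424816) (b (l 18068376) (l 18007664))))) (b (a (l 18349848) (l 18421816)) (a (c (l 18561904) (l 18215896)) (c (l 18662336) (l 18346224))))), by decide +kernel⟩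

def k29_pm_012 : ∃ t, chk3 f_pm_012 t 10 14 1 = true :=
  ⟨(a (b (a (c (l 18041904) (b (l 17560080) (a (l 17383456) (l 17482400)))) (c (a (l 18156080) (l 18226552)) (a (l 17404160) (b (l 17759312) (a (l 17642464) (l 17685280)))))) (a (c (b (l 17901416) (c (l 17945200) (l 17592024))) (b (a (b (l 17258496) (l 17161440)) (l 17286712)) (a (l 16801040) (l 17025128)))) (c (b (a (l 18043560) (l 18130608)) (a (l 17936728) (l 18038944))) (b (a (l 17438392) (a (l 17516320) (l 17545296))) (a (l 17240016) (a (l 17353568) (a (l 17398112) (l 17427192)))))))) (b (c (l 18381320) (b (l 17931392) (l 17862352))) (c (b (l 18321968) (l 18263024)) (b (a (l 17684456) (l 17854896)) (a (l 17552224) (l 17752024)))))), by decide +kernel⟩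

def k30_pm_012 : ∃ t, chk3 f_pm_012 t 40 15 1 = true :=
  ⟨(b (c (b (c (l 17790520) (a (l 17312688) (l 17463456))) (c (a (l 17404032) (l 17657056)) (a (b (l 17100632) (l 16928088)) (b (l 17278216) (l 17127920))))) (b (a (c (l 16882952) (l 16494584)) (c (l 17068936) (l 16673720))) (a (c (l 16505136) (l 16493000)) (c (l 16565464) (l 16484024))))) (b (c (c (a (b (l 17126584) (c (l 17199744) (l 16829392))) (b (l 17455168) (c (l 17424064) (l 17151704)))) (a (b (l 16682680) (l 16525256)) (b (l 16846480) (l 16533024)))) (a (c (b (l 16510824) (l 16516472)) (b (l 16501800) (l 16507888))) (c (b (l 16502136) (l 16507264)) (b (l 16492008) (l 16497616))))) (c (b (c (a (c (b (l 17036808) (l 16809472)) (l 16538456)) (c (l 17109576) (b (l 16996136) (l 16837952)))) (a (c (l 16532752) (l 16528552)) (c (l 16517224) (l 16519640)))) (c (a (c (b (l 16548464) (a (l 16549536) (l 16585768))) (b (l 16540944) (a (l 16545680) (l 16541280)))) (c (b (l 16900704) (a (l 16700352) (l 16952136))) (a (l 16533696)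 (l 16527200)))) (a (b (c (l 16536872) (l 16532840)) (c (a (l 16541864) (l 16537192)) (l 16546232))) (c (b (l 16528112) (l 16530648)) (b (l 16523544) (l 16526200)))))) (a (b (c (b (l 16520856) (l 16523832)) (l 16514160)) (c (b (l 16537336) (c (l 16531848) (l 16527976))) (b (l 16518984) (c (l 16524144) (l 16520328))))) (c (b (l 16533584) (b (l 16537744) (c (l 16521784) (l 16517416)))) (b (l 16503416) (b (l 16507896) (c (l 16513080) (l 16508784))))))))), by decide +kernel⟩

def k31_pm_012 : ∃ t, chk3 f_pm_012 t 41 30 1 = true :=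
  ⟨(c (a (b (l 17792960) (c (l 17811480) (l 17378288))) (a (b (l 17885608) (c (l 17918544) (l 17498000))) (b (l 17944352) (c (l 17986000) (l 17426736))))) (a (b (c (l 17221760) (l 16839968)) (b (l 16580592) (l 16489184))) (b (a (l 16954288) (a (l 17091888) (c (l 17413816) (l 17049464)))) (a (c (l 17076480) (l 16653984)) (a (c (l 17139536) (l 16723104)) (c (l 17180528) (b (l 16845872) (l 16684672)))))))), by decide +kernel⟩

def k32_pm_012 : ∃ t, chk3 f_pm_012 t 82 31 1 = true :=
  ⟨(c (b (c (b (l 17638712) (l 17495968)) (b (l 17136064) (a (l 16878416) (l 17010496)))) (c (b (c (l 17465816) (l 17059104)) (c (a (l 17083848) (l 17334928)) (b (l 16837088) (a (l 16731528) (l 16933248))))) (b (b (l 16589272) (l 16514968)) (c (a (l 16526832) (l 16522312)) (b (l 16514920) (l 16527800)))))) (b (c (b (l 16674368) (l 16498728)) (b (l 16482920) (l 16488000))) (c (b (l 16524536) (b (c (l 16509856) (l 16504848)) (c (l 16512376) (l 16507480)))) (b (l 16493312) (b (l 16497432) (a (l 16502840) (l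 16497712))))))), by decide +kernel⟩

def k33_pm_012 : ∃ t, chk3 f_pm_012 t 83 31 1 = true :=
  ⟨(c (b (c (a (l 17704512) (a (l 17767864) (l 17808840))) (a (b (l 17298976) (l 17137096)) (a (l 17103928) (b (l 17409856) (l 17220024))))) (c (a (b (l 17487416) (c (l 17452968) (l 16950056))) (a (b (l 17563568) (c (l 17537080) (l 17249704))) (b (l 17612688) (c (l 17591208) (b (l 17354080) (l 17259024)))))) (c (a (b (l 17081512) (b (l 16923696) (l 16617480))) (a (b (l 17165144) (b (l 17016192) (l 16821544))) (b (l 17219128) (a (a (a (l 16996952) (a (l 17002680) (l 16859688))) (l 17016048)) (l 17038864))))) (a (b (l 16810536) (l 16509552)) (b (a (l 16899152) (b (l 17005152) (b (l 16931232) (l 16774464)))) (a (l 16506272) (a (a (a (l 16648192) (b (l 16651776) (l 16511432))) (l 16668456)) (l 16650720)))))))) (b (a (c (b (l 16831792) (l 16634600)) (l 16478936)) (a (c (b (l 16906512) (l 16719000)) (l 16475848)) (b (c (l 16892056) (l 16498992)) (c (b (l 16737744) (l 16493072)) (l 16476144)))))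 (a (c (b (l 16497280) (c (l 16504624) (l 16499288))) (b (l 16486240) (b (l 16490088) (l 16492704)))) (a (c (b (l 16499608) (c (l 16501496) (l 16495968))) (b (l 16482848) (a (l 16488488) (l 16497768)))) (c (c (b (l 16504584) (a (a (a (l 16500416) (b (l 16499032) (l 16501216))) (l 16499736)) (l 16499040))) (b (l 16489424) (a (a (a (l 16494832) (b (l 16493384) (l 16495688))) (l 16494128)) (l 16493368)))) (b (b (l 16479560) (l 16502888)) (a (a (a (l 16486576) (a (l 16486344) (b (l 16484968) (l 16487448)))) (l 16485832)) (l 16484992)))))))), by decide +kernel⟩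

def k34_pm_012 : ∃ t, chk3 f_pm_012 t 21 15 1 = true :=
  ⟨(b (c (a (b (l 18081496) (c (l 18142512) (l 17749456))) (l 18146032)) (a (b (c (l 17557080) (l 17206192)) (c (l 17103584) (a (l 16855680) (l 17039408)))) (b (l 17619424) (c (l 17628688) (l 17219064))))) (c (a (b (c (l 17981936) (b (l 17594688) (l 17301480))) (c (b (l 17819176) (a (l 17352488) (l 17778896))) (b (a (c (l 17348456) (l 17093496)) (l 17417336)) (a (c (b (l 17218304) (l 17079768)) (b (l 16948424) (a (l 16756632) (l 16902616)))) (c (l 17386968) (l 16894528)))))) (b (c (l 18247200) (l 17835472)) (c (l 18086144) (b (l 17678088) (a (l 17372864) (l 17638024)))))) (b (a (c (b (l 16950968) (a (l 16821040) (l 17099576))) (b (l 16557640) (l 16476096))) (c (b (l 17479536) (l 17360488)) (b (l 17077360) (a (l 16840000) (l 17020040))))) (a (b (c (a (l 16479752) (c (l 17051944) (l 16807896))) (a (l 16475760) (l 16468352))) (c (a (b (l 16501024) (c (l 16497144) (l 16490200))) (b (l 16574648) (c (l 16685096) (l 16543416))))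 (a (c (l 16483176) (l 16477288)) (b (l 16471240) (l 16473240))))) (c (b (a (l 17045464) (l 17310880)) (a (c (l 16977280) (b (l 16879696) (l 16761200))) (c (l 17280464) (l 17020536)))) (b (a (l 16619896) (l 16800288)) (a (c (l 16476304) (l 16461680)) (l 16451520)))))))), by decide +kernel⟩

def k35_pm_012 : ∃ t, chk3 f_pm_012 t 11 7 1 = true :=
  ⟨(b (b (a (c (l 18578616) (l 18144976)) (l 18528736)) (c (a (l 18561432) (l 18751528)) (a (b (l 18071824) (l 18004592)) (l 18291312)))) (a (b (c (l 18487192) (a (b (l 17824888) (l 17690720)) (l 17955304))) (c (b (c (l 18562936) (l 18197528)) (a (c (l 18356976) (l 17927288)) (l 18382160))) (b (a (c (l 17705248) (b (l 17375984) (l 17263128))) (l 17640856)) (a (c (b (l 17553992) (a (l 17346296) (l 17514912))) (b (a (l 17047336) (l 17216048)) (a (b (l 16930288) (l 16719136)) (l 16971632)))) (c (l 17787576) (b (l 17443640) (l 17161288))))))) (c (b (l 18743048) (a (l 18612240) (l 18760704))) (b (a (l 18121032) (l 18262448)) (a (b (l 17981208)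 (c (l 18031416) (l 17662592))) (l 18072832)))))), by decide +kernel⟩

def k36_pm_012 : ∃ t, chk3 f_pm_012 t 3 1 1 = true :=
  ⟨(b (a (b (l 2) (a (l 18392112) (l 2))) (l 2)) (b (a (b (a (l 18510768) (l 18577184)) (a (l 18636424) (l 18732848))) (b (l 2) (l 18771720))) (b (a (a (b (l 18708840) (c (l 18947528) (l 18552064))) (b (l 18841360) (l 18919304))) (a (l 18958496) (l 18960896))) (a (a (c (a (l 18936464) (l 19084688)) (a (b (l 18438352) (l 18353864)) (l 18610560))) (c (l 19218536) (l 18815960))) (a (l 19121752) (l 19139512)))))), by decide +kernel⟩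

theorem s37_pm_012 : ∃ t, chk3 f_pm_012 t 41 31 1 = true := ex3_a k32_pm_012 k33_pm_012

theorem s38_pm_012 : ∃ t, chk3 f_pm_012 t 41 15 1 = true := ex3_b k31_pm_012 s37_pm_012

theorem s39_pm_012 : ∃ t, chk3 f_pm_012 t 20 15 1 = true := ex3_a k30_pm_012 s38_pm_012

theorem s40_pm_012 : ∃ t, chk3 f_pm_012 t 10 15 1 = true := ex3_a s39_pm_012 k34_pm_012

theorem s41_pm_012 : ∃ t, chk3 f_pm_012 t 10 7 1 = true := ex3_b k29_pm_012 s40_pm_012

theorem s42_pm_012 : ∃ t, chk3 f_pm_012 t 5 7 1 = true := ex3_a s41_pm_012 k35_pm_012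

theorem s43_pm_012 : ∃ t, chk3 f_pm_012 t 5 3 1 = true := ex3_b k28_pm_012 s42_pm_012

theorem s44_pm_012 : ∃ t, chk3 f_pm_012 t 38 31 1 = true := ex3_b k25_pm_012 k26_pm_012

theorem s45_pm_012 : ∃ t, chk3 f_pm_012 t 19 31 1 = true := ex3_a s44_pm_012 k27_pm_012

theorem s46_pm_012 : ∃ t, chk3 f_pm_012 t 19 15 1 = true := ex3_b k24_pm_012 s45_pm_012

theorem s47_pm_012 : ∃ t, chk3 f_pm_012 t 37 63 1 = true := ex3_c k22_pm_012 k23_pm_012

theorem s48_pm_012 : ∃ t, chk3 f_pm_012 t 37 31 1 = true := ex3_b k21_pm_012 s47_pm_012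

theorem s49_pm_012 : ∃ t, chk3 f_pm_012 t 37 15 1 = true := ex3_b k20_pm_012 s48_pm_012

theorem s50_pm_012 : ∃ t, chk3 f_pm_012 t 36 63 1 = true := ex3_c k18_pm_012 k19_pm_012

theorem s51_pm_012 : ∃ t, chk3 f_pm_012 t 36 31 1 = true := ex3_b k17_pm_012 s50_pm_012

theorem s52_pm_012 : ∃ t, chk3 f_pm_012 t 36 15 1 = true := ex3_b k16_pm_012 s51_pm_012

theorem s53_pm_012 : ∃ t, chk3 f_pm_012 t 18 15 1 = true := ex3_a s52_pm_012 s49_pm_012

theorem s54_pm_012 : ∃ t, chk3 f_pm_012 t 9 15 1 = true := ex3_a s53_pm_012 s46_pm_012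

theorem s55_pm_012 : ∃ t, chk3 f_pm_012 t 9 14 1 = true := ex3_a k14_pm_012 k15_pm_012

theorem s56_pm_012 : ∃ t, chk3 f_pm_012 t 9 7 1 = true := ex3_b s55_pm_012 s54_pm_012

theorem s57_pm_012 : ∃ t, chk3 f_pm_012 t 17 31 1 = true := ex3_b k12_pm_012 k13_pm_012

theorem s58_pm_012 : ∃ t, chk3 f_pm_012 t 17 15 1 = true := ex3_b k11_pm_012 s57_pm_012

theorem s59_pm_012 : ∃ t, chk3 f_pm_012 t 8 15 1 = true := ex3_a k10_pm_012 s58_pm_012

theorem s60_pm_012 : ∃ t, chk3 f_pm_012 t 8 29 1 = true := ex3_a k8_pm_012 k9_pm_012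

theorem s61_pm_012 : ∃ t, chk3 f_pm_012 t 8 28 1 = true := ex3_a k6_pm_012 k7_pm_012

theorem s62_pm_012 : ∃ t, chk3 f_pm_012 t 8 14 1 = true := ex3_b s61_pm_012 s60_pm_012

theorem s63_pm_012 : ∃ t, chk3 f_pm_012 t 8 7 1 = true := ex3_b s62_pm_012 s59_pm_012

theorem s64_pm_012 : ∃ t, chk3 f_pm_012 t 4 7 1 = true := ex3_a s63_pm_012 s56_pm_012

theorem s65_pm_012 : ∃ t, chk3 f_pm_012 t 16 13 1 = true := ex3_b k2_pm_012 k3_pm_012

theorem s66_pm_012 : ∃ t, chk3 f_pm_012 t 8 13 1 = true := ex3_a s65_pm_012 k4_pm_012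

theorem s67_pm_012 : ∃ t, chk3 f_pm_012 t 8 6 1 = true := ex3_b k1_pm_012 s66_pm_012

theorem s68_pm_012 : ∃ t, chk3 f_pm_012 t 4 6 1 = true := ex3_a s67_pm_012 k5_pm_012

theorem s69_pm_012 : ∃ t, chk3 f_pm_012 t 4 3 1 = true := ex3_b s68_pm_012 s64_pm_012

theorem s70_pm_012 : ∃ t, chk3 f_pm_012 t 2 3 1 = true := ex3_a s69_pm_012 s43_pm_012

theorem s71_pm_012 : ∃ t, chk3 f_pm_012 t 2 1 1 = true := ex3_b k0_pm_012 s70_pm_012

theorem s72_pm_012 : ∃ t, chk3 f_pm_012 t 1 1 1 = true := ex3_a s71_pm_012 k36_pm_012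

theorem c_pm_012 : CertF 0 536870912 536870912 536870912 134217728 67108864 true true false .pnp 0 1 2
    ndF0q0 ndF3q1 pcF2 cut_pm_012 Ext.none :=
  certF2 (fam := true) (s1 := true) (s2 := false) (a := 0) (b := 1) (c := 2) (cn := .pnp) (n1 := ndF0q0) (n2 := ndF3q1) (pc := pcF2) (cut := cut_pm_012) (xt := Ext.none) (P1 := 0) (W1 := 536870912) (P2 := 536870912) (W2 := 536870912) (P3 := 134217728) (W3 := 67108864)
    rfl (fun _ => rfl) s72_pm_012

noncomputable def f_pm_022 : ℕ → ℕ → ℕ → ℕ → Bool := onCell 1073741824 536870912 1073741824 536870912 134217728 67108864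
    (rowF 2 true true false .pp 0 2 2 (qsf 0 536870912 1073741824 536870912 2) ndF0q0 ndF3q2 pcF2 Cut.none Ext.none)

def k0_pm_022 : ∃ t, chk3 f_pm_022 t 8 4 1 = true :=
  ⟨(l 3), by decide +kernel⟩

def k1_pm_022 : ∃ t, chk3 f_pm_022 t 9 8 1 = true :=
  ⟨(a (l 3) (a (b (b (a (l 3) (c (b (c (l 16692816) (b (l 16686512) (l 16681832))) (c (l 16662408) (l 16674760))) (c (b (a (l 16668720) (l 16672848)) (l 16666664)) (b (a (l 16666264) (l 16665368)) (l 16659096))))) (a (a (l 3) (a (l 3) (c (l 326585079719) (l 227263928887)))) (c (c (l 16668936) (l 16660376)) (b (l 16653288) (l 16643696))))) (c (b (b (a (l 16664520) (l 16649752)) (a (l 16654080) (l 16639704))) (a (l 24863576023) (l 16624456))) (b (a (c (l 16647120) (l 16640216)) (l 16630856)) (a (c (l 16628232) (l 16624320)) (c (l 16621544) (l 16627840)))))) (b (b (b (a (c (c (l 16679056) (l 16671016)) (a (c (l 16645600) (l 16659336)) (l 16656656))) (c (c (l 16664696) (l 16657336)) (l 16647104))) (a (c (l 16665736) (l 16650568)) (c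 (l 16651864) (l 16637920)))) (c (a (c (l 16655616) (l 16647568)) (l 16637872)) (a (l 16641672) (l 16623904)))) (b (c (a (l 16631928) (l 16618432)) (a (l 16622688) (l 16614992))) (c (c (l 16630128) (l 16603248)) (a (l 16616472) (l 16608648))))))), by decide +kernel⟩

def k2_pm_022 : ∃ t, chk3 f_pm_022 t 9 9 1 = true :=
  ⟨(b (a (l 3) (b (a (c (a (l 16637968) (l 16606008)) (a (l 16626808) (l 16598288))) (c (l 16599760) (l 16606496))) (b (a (c (b (l 16608864) (a (l 16609144) (l 16601336))) (b (l 16619952) (a (l 16622248) (l 16614040)))) (c (b (l 16591592) (l 16610416)) (b (l 16580992) (l 16622032)))) (b (a (c (c (l 16607256) (l 16617200)) (a (l 16618416) (l 16610048))) (c (l 16605728) (l 16617968))) (a (c (a (l 16600456) (l 16588304)) (a (l 16610672) (l 16602160))) (c (l 16596280) (l 16610008))))))) (b (a (l 3) (a (b (b (c (a (l 16602896) (l 16591016)) (a (l 16608616) (l 16594720))) (c (a (l 16610800) (l 16593944)) (a (c (l 16592088) (l 16599704)) (l 16586928)))) (c (a (c (l 16639056)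 (l 16628608)) (b (l 16597184) (l 16600544))) (a (c (l 16618888) (l 16609904)) (b (l 16578616) (l 16580824))))) (b (b (c (l 16588824) (l 16597248)) (c (l 16592032) (a (l 16578080) (l 16569800)))) (c (a (l 16611184) (l 16599128)) (a (l 16592008) (l 16580352)))))) (a (l 1) (a (a (l 1) (b (c (l 16628568) (l 16607176)) (l 1))) (c (b (a (l 16617584) (l 16584936)) (l 16629288)) (b (c (l 16595952) (l 16586152)) (l 16595864))))))), by decide +kernel⟩

def k3_pm_022 : ∃ t, chk3 f_pm_022 t 4 5 1 = true :=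
  ⟨(b (b (a (l 1) (b (a (l 1) (a (l 1) (b (c (l 16625432) (l 16600936)) (l 1)))) (l 1))) (l 1)) (l 1)), by decide +kernel⟩

def k4_pm_022 : ∃ t, chk3 f_pm_022 t 10 8 1 = true :=
  ⟨(a (a (b (b (a (c (b (c (l 16649320) (l 16642704)) (l 16637024)) (b (l 16633496) (l 16624416))) (c (c (l 16664160) (l 16622400)) (b (l 16620352) (l 16616016)))) (a (c (l 16623232) (l 16615288)) (c (l 16607264) (l 16609872)))) (b (c (a (l 16604000) (l 16593640)) (a (l 16608128) (l 16581552))) (c (a (l 16591216) (l 16586816)) (a (l 16601656) (l 16575000))))) (b (a (b (c (b (c (l 16798216) (l 16612784)) (l 16657384)) (a (l 16615520) (l 16614536))) (c (l 16652856) (l 16606440))) (a (c (b (c (l 16889600) (l 16620664)) (l 16754096)) (b (l 16612392) (l 16581928))) (b (c (c (l 16941360) (l 16679112)) (l 16599744)) (c (l 16792184) (l 16595096))))) (a (c (b (l 16645632) (l 16636664)) (b (l 16577672) (l 16591712))) (c (b (l 16783784) (l 16783272)) (b (l 16588848) (l 16580952)))))) (b (c (b (a (c (l 17046312) (l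 16697104)) (c (l 17237808) (l 17019168))) (a (l 16828544) (l 17144520))) (b (b (a (l 16603816) (l 16692000)) (l 16598504)) (l 16584912))) (c (b (a (l 16963424) (l 17160768)) (c (l 17218560) (l 16942056))) (b (l 16580168) (l 16571096))))), by decide +kernel⟩

def k5_pm_022 : ∃ t, chk3 f_pm_022 t 10 9 1 = true :=
  ⟨(b (b (a (a (c (l 16582600) (l 16592392)) (a (c (l 16625400) (l 16564384)) (c (l 16781176) (l 16552776)))) (c (l 17092328) (l 16541952))) (a (a (b (c (b (l 16558368) (l 16598016)) (b (l 16589016) (l 16607704))) (c (b (l 16593192) (l 16583600)) (b (l 16603576) (l 16595544)))) (a (b (c (l 16614720) (b (l 16560832) (l 16558432))) (c (l 16600096) (b (l 16554176) (l 16566992)))) (b (b (l 16565696) (c (l 16777832) (l 16546032))) (c (l 16588672) (l 16598304))))) (b (c (b (l 17099216) (l 17101672)) (b (l 16537248) (l 16534448))) (c (b (l 17103808) (l 17105720)) (l 16581192))))) (a (a (b (b (c (c (l 16597928) (l 16585672)) (b (l 16587960) (l 16574776))) (c (a (l 16586072) (l 16571680))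 (b (l 16571560) (l 16562792)))) (c (b (l 16597104) (a (l 16579600) (l 16565960))) (b (l 16582072) (l 16582320)))) (a (b (b (c (l 16589040) (c (l 16569640) (l 16575760))) (c (l 16611576) (l 16556568))) (c (b (l 16616304) (l 16624096)) (b (l 16545392) (l 16530672)))) (b (b (c (l 16737648) (l 16575456)) (c (l 16783920) (l 16543160))) (b (c (l 16791048) (l 16539584)) (c (l 16800936) (l 16525392)))))) (b (b (c (b (l 17108192) (l 17111144)) (l 16555384)) (c (l 16990872) (l 16530592))) (b (c (l 17125904) (l 16512328)) (c (l 17137264) (l 16511600)))))), by decide +kernel⟩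

def k6_pm_022 : ∃ t, chk3 f_pm_022 t 11 4 1 = true :=
  ⟨(b (b (c (a (b (c (l 17431920) (l 17244624)) (l 17361032)) (l 17483712)) (a (b (b (a (l 16796640) (l 17014280)) (l 16730120)) (a (l 16875176) (l 17037320))) (b (a (l 17164448) (l 17271344)) (l 17228664)))) (c (a (b (l 17384416) (l 17408136)) (l 17604352)) (a (b (l 16918000) (l 16897008)) (b (l 17238096) (l 17248256))))) (b (b (c (l 17552152) (a (l 16959664) (l 17258704))) (c (b (a (l 17447432) (l 17668888)) (a (l 17456944) (l 17680728))) (b (b (l 17127496) (l 17065608)) (a (l 16956608) (l 17268000))))) (b (b (c (l 17546112) (a (l 16954384) (l 17268408))) (c (l 17596936) (a (l 16953864) (l 17270456)))) (b (a (c (l 17482152) (l 16954816)) (l 17469648)) (c (l 17618000) (l 16882184)))))), by decide +kernel⟩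

def k7_pm_022 : ∃ t, chk3 f_pm_022 t 5 10 1 = true :=
  ⟨(a (b (a (a (b (c (b (a (l 16586800) (l 16573528)) (a (l 16572520) (l 16580584))) (b (l 16577496) (l 16583064))) (b (c (a (l 1) (l 16586408)) (l 16609040)) (l 1))) (a (b (c (b (l 16634792) (l 16648032)) (b (l 16537144) (l 16543576))) (b (c (c (l 16884312) (l 16547848)) (l 16549480)) (b (c (l 16673640) (l 16532680)) (l 1)))) (b (b (c (l 16813440) (l 16553328)) (c (l 16828280) (l 16539224))) (b (c (b (l 16840488) (l 16849240)) (l 16566496)) (b (c (a (l 16813136) (l 16898712)) (l 16549936)) (a (b (c (l 16817936) (l 16530288)) (l 1)) (b (c (l 16757800) (l 16529312)) (c (c (l 17113808) (l 16638568)) (l 16572576))))))))) (b (b (c (l 17150752) (l 16519568)) (c (l 17061352) (l 16527448))) (b (c (a (l 17062944) (l 17288776)) (a (l 16528736) (l 16624144))) (b (c (a (l 17076520) (l 17302256)) (l 16518872)) (c (b (a (l 17041032) (l 17308912)) (a (c (l 17276808) (l 16897096)) (l 17313440))) (b (l 16520952) (a (l 16557904) (l 16636464))))))))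 (b (a (b (a (l 1) (a (l 1) (a (l 1) (c (l 16920288) (l 16535792))))) (l 1)) (c (a (b (c (l 17291120) (l 16909400)) (l 55868317127)) (l 17234664)) (a (l 16569312) (l 16653120)))) (a (l 1) (c (a (l 46741582455) (c (l 17558728) (l 17213688))) (b (l 16572744) (l 16552808)))))) (b (b (c (a (l 17513488) (l 17734784)) (a (b (l 16961768) (l 16967904)) (l 17285400))) (b (c (l 17659768) (a (l 16975680) (l 17297072))) (c (b (l 17672160) (a (b (l 17556640) (l 17561144)) (l 17777232))) (b (a (l 16982576) (l 17303880)) (a (b (l 16986232) (l 16988848)) (l 17308808)))))) (a (c (b (l 17583784) (l 17629528)) (b (l 16941008) (a (l 16933560) (l 17127864)))) (c (l 17815744) (b (l 17322928) (l 17350480)))))), by decide +kernel⟩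

def k8_pm_022 : ∃ t, chk3 f_pm_022 t 5 11 1 = true :=
  ⟨(a (a (l 1) (b (b (c (l 76806694439) (l 16593648)) (l 1)) (l 1))) (b (a (c (b (l 148748096439) (l 134789550295)) (b (a (l 68752923719) (l 17168056)) (a (l 17023408) (l 17214448)))) (c (l 17903384) (b (l 17385088) (l 17427544)))) (b (c (l 165391764327) (a (l 82175091127) (l 17473040))) (c (l 151432992151) (l 105260924311))))), by decide +kernel⟩

def k9_pm_022 : ∃ t, chk3 f_pm_022 t 2 3 1 = true :=
  ⟨(a (l 1) (b (a (l 1) (b (b (a (l 1) (l 150358956823)) (l 1)) (l 1))) (l 1))), by decide +kernel⟩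

def k10_pm_022 : ∃ t, chk3 f_pm_022 t 3 1 1 = true :=
  ⟨(b (a (b (a (b (c (b (l 17659272) (l 17788520)) (b (a (b (l 17398608) (l 17412816)) (l 17529696)) (a (l 17436224) (l 17568392)))) (b (b (c (l 17839968) (l 17537112)) (b (c (l 17862712) (l 17549072)) (c (l 17876112) (l 17556184)))) (b (c (l 17879320) (b (l 17558464) (l 17562280))) (c (l 17901544) (l 17565832))))) (b (c (l 17856968) (b (l 17641496) (l 17688384))) (b (b (l 17837448) (b (l 17857600) (l 17869328))) (b (l 17868648) (l 17885792))))) (b (b (b (a (c (l 17924536) (l 17578648)) (l 17902176)) (b (a (l 17767968) (l 17915848)) (a (c (l 17958976) (b (l 17596448) (l 17601128))) (l 17926592)))) (a (c (l 17989680) (l 17621272)) (l 17944168))) (b (a (c (l 18054560) (l 17673672)) (l 17984824)) (a (c (l 18137176) (a (l 17678600) (l 17795600))) (l 18039600))))) (b (b (a (b (l 17762808) (l 17827648)) (b (l 17732616) (l 17800104))) (b (b (l 17870976) (b (l 17892808) (l 17905376))) (b (l 17987600) (l 17920392)))) (b (b (b (l 17935424)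 (b (l 17947536) (l 17956992))) (l 17967336)) (b (l 17992064) (l 18029248))))) (a (b (b (a (c (l 18253376) (a (l 17769960) (l 17903432))) (l 18157864)) (a (l 199214997815) (l 18300208))) (a (l 1) (l 232502477111))) (b (b (l 18129384) (l 18335960)) (a (b (l 18438112) (l 18534528)) (l 18439824))))), by decide +kernel⟩

theorem s11_pm_022 : ∃ t, chk3 f_pm_022 t 5 5 1 = true := ex3_b k7_pm_022 k8_pm_022

theorem s12_pm_022 : ∃ t, chk3 f_pm_022 t 10 4 1 = true := ex3_b k4_pm_022 k5_pm_022

theorem s13_pm_022 : ∃ t, chk3 f_pm_022 t 5 4 1 = true := ex3_a s12_pm_022 k6_pm_022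

theorem s14_pm_022 : ∃ t, chk3 f_pm_022 t 5 2 1 = true := ex3_b s13_pm_022 s11_pm_022

theorem s15_pm_022 : ∃ t, chk3 f_pm_022 t 9 4 1 = true := ex3_b k1_pm_022 k2_pm_022

theorem s16_pm_022 : ∃ t, chk3 f_pm_022 t 4 4 1 = true := ex3_a k0_pm_022 s15_pm_022

theorem s17_pm_022 : ∃ t, chk3 f_pm_022 t 4 2 1 = true := ex3_b s16_pm_022 k3_pm_022

theorem s18_pm_022 : ∃ t, chk3 f_pm_022 t 2 2 1 = true := ex3_a s17_pm_022 s14_pm_022

theorem s19_pm_022 : ∃ t, chk3 f_pm_022 t 2 1 1 = true := ex3_b s18_pm_022 k9_pm_022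

theorem s20_pm_022 : ∃ t, chk3 f_pm_022 t 1 1 1 = true := ex3_a s19_pm_022 k10_pm_022

theorem c_pm_022 : CertF 0 536870912 1073741824 536870912 134217728 67108864 true true false .pp 0 2 2
    ndF0q0 ndF3q2 pcF2 Cut.none Ext.none :=
  certF2 (fam := true) (s1 := true) (s2 := false) (a := 0) (b := 2) (c := 2) (cn := .pp) (n1 := ndF0q0) (n2 := ndF3q2) (pc := pcF2) (cut := Cut.none) (xt := Ext.none) (P1 := 0) (W1 := 536870912) (P2 := 1073741824) (W2 := 536870912) (P3 := 134217728) (W3 := 67108864)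
    rfl (fun _ => rfl) s20_pm_022

noncomputable def f_pm_023 : ℕ → ℕ → ℕ → ℕ → Bool := onCell 0 536870912 1073741824 536870912 134217728 67108864
    (rowF 0 true true false .up 0 2 3 (qsf 0 536870912 1073741824 536870912 3) ndF0q0 ndF3q2 pcF3 Cut.none Ext.none)

def k0_pm_023 : ∃ t, chk3 f_pm_023 t 1 1 1 = true :=
  ⟨(a (b (a (l 1) (b (l 1) (b (l 1) (l 326990989831)))) (a (b (l 295852792391) (l 18357168)) (b (l 257197877335) (l 18063168)))) (b (a (b (b (l 1) (b (l 1) (b (l 1) (l 17968992)))) (b (b (b (l 17977240) (l 173982649991)) (l 17974992)) (l 17943392))) (b (b (l 256123616679) (b (b (l 17883896) (l 18090936)) (b (l 17872464) (l 17863944)))) (b (b (b (l 17851232) (l 17841104)) (l 17803824)) (l 17750536)))) (a (b (l 17904888) (l 17812168)) (b (l 17636304) (b (a (l 17624392) (l 17476184)) (a (l 17558696) (b (l 17423904) (a (l 17426416) (b (l 17358224) (a (l 17359088) (l 4))))))))))), by decide +kernel⟩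

theorem c_pm_023 : CertF 0 536870912 1073741824 536870912 134217728 67108864 true true false .up 0 2 3
    ndF0q0 ndF3q2 pcF3 Cut.none Ext.none :=
  certF0 (fam := true) (s1 := true) (s2 := false) (a := 0) (b := 2) (c := 3) (cn := .up) (n1 := ndF0q0) (n2 := ndF3q2) (pc := pcF3) (cut := Cut.none) (xt := Ext.none) (P1 := 0) (W1 := 536870912) (P2 := 1073741824) (W2 := 536870912) (P3 := 134217728) (W3 := 67108864)
    rfl k0_pm_023

noncomputable def f_pm_033 : ℕ → ℕ → ℕ → ℕ → Bool := onCell 1610612736 536870912 0 1230186008 134217728 67108864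
    (rowF 2 true true false .pnn 0 3 3 (qsf 0 536870912 0 1230186008 3) ndF0q0 ndF3q3 pcF3 Cut.none Ext.none)

def k0_pm_033 : ∃ t, chk3 f_pm_033 t 1 1 1 = true :=
  ⟨(a (b (l 1) (b (a (l 1) (a (l 1) (b (l 1) (l 17962352)))) (a (b (l 1) (b (l 18026072) (l 17948304))) (b (a (l 17943264) (l 17816888)) (l 17718848))))) (a (b (l 1) (b (a (l 18155864) (l 17824216)) (b (l 17726832) (a (l 17503216) (l 17355032))))) (b (l 4) (a (b (l 17695336) (b (l 17427968) (l 17193648))) (b (l 4) (a (b (l 4) (l 17073136)) (l 4))))))), by decide +kernel⟩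

theorem c_pm_033 : CertF 0 536870912 0 1230186008 134217728 67108864 true true false .pnn 0 3 3
    ndF0q0 ndF3q3 pcF3 Cut.none Ext.none :=
  certF2 (fam := true) (s1 := true) (s2 := false) (a := 0) (b := 3) (c := 3) (cn := .pnn) (n1 := ndF0q0) (n2 := ndF3q3) (pc := pcF3) (cut := Cut.none) (xt := Ext.none) (P1 := 0) (W1 := 536870912) (P2 := 0) (W2 := 1230186008) (P3 := 134217728) (W3 := 67108864)
    rfl (fun _ => rfl) k0_pm_033

noncomputable def f_pm_101 : ℕ → ℕ → ℕ → ℕ → Bool := onCell 536870912 536870912 0 536870912 134217728 67108864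
    (rowF 2 true true false .npn 1 0 1 (qsf 536870912 536870912 0 536870912 1) ndF0q1 ndF3q0 pcF1 Cut.none Ext.none)

def k0_pm_101 : ∃ t, chk3 f_pm_101 t 1 1 1 = true :=
  ⟨(a (l 3) (a (l 3) (a (b (b (l 3) (l 3)) (l 3)) (b (b (b (a (b (l 17270840) (l 17255504)) (l 17264592)) (a (l 17155720) (l 17237592))) (b (a (l 17224576) (l 17199576)) (l 159082802503))) (b (b (a (l 201495731447) (l 17108272)) (b (l 202032751767) (l 176799983751))) (a (a (l 3) (a (l 3) (b (l 17498808) (l 497849337847)))) (b (l 17501928) (l 47280349655)))))))), by decide +kernel⟩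

theorem c_pm_101 : CertF 536870912 536870912 0 536870912 134217728 67108864 true true false .npn 1 0 1
    ndF0q1 ndF3q0 pcF1 Cut.none Ext.none :=
  certF2 (fam := true) (s1 := true) (s2 := false) (a := 1) (b := 0) (c := 1) (cn := .npn) (n1 := ndF0q1) (n2 := ndF3q0) (pc := pcF1) (cut := Cut.none) (xt := Ext.none) (P1 := 536870912) (W1 := 536870912) (P2 := 0) (W2 := 536870912) (P3 := 134217728) (W3 := 67108864)
    rfl (fun _ => rfl) k0_pm_101

noncomputable def f_pm_102 : ℕ → ℕ → ℕ → ℕ → Bool := onCell 536870912 536870912 1073741824 536870912 134217728 67108864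
    (rowF 1 true true false .npp 1 0 2 (qsf 536870912 536870912 0 536870912 2) ndF0q1 ndF3q0 pcF2 Cut.none Ext.none)

def k0_pm_102 : ∃ t, chk3 f_pm_102 t 1 1 1 = true :=
  ⟨(a (b (a (b (b (a (l 17546624) (l 17379824)) (b (b (l 17448376) (l 17442104)) (l 17531112))) (b (b (l 131098948759) (l 2)) (l 2))) (b (b (a (l 17211352) (l 17147248)) (b (b (l 17147144) (l 17184912)) (b (l 17135480) (l 17128224)))) (b (b (b (l 17117976) (a (l 17162584) (l 17098984))) (l 17078920)) (l 17069632)))) (a (l 2) (b (l 16982648) (l 2)))) (b (a (b (b (a (l 17187656) (l 17231440)) (b (b (l 17205704) (l 17192296)) (b (l 17174736) (l 17157832)))) (b (b (b (l 17137616) (l 17162512)) (l 17075016)) (l 17187888))) (b (b (a (b (l 17277584) (l 17265880)) (b (a (l 17302144) (l 17315360)) (l 17303952))) (b (b (l 17458856) (a (l 17252472) (l 17330344))) (b (a (l 17235112) (l 17335912)) (l 17406016)))) (b (b (b (l 17249384) (a (l 17189352) (l 17405008))) (l 17238232)) (l 17397480)))) (b (a (l 16950536) (l 17263728))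 (a (l 16944560) (l 17292824))))), by decide +kernel⟩

theorem c_pm_102 : CertF 536870912 536870912 0 536870912 134217728 67108864 true true false .npp 1 0 2
    ndF0q1 ndF3q0 pcF2 Cut.none Ext.none :=
  certF1 (fam := true) (s1 := true) (s2 := false) (a := 1) (b := 0) (c := 2) (cn := .npp) (n1 := ndF0q1) (n2 := ndF3q0) (pc := pcF2) (cut := Cut.none) (xt := Ext.none) (P1 := 536870912) (W1 := 536870912) (P2 := 0) (W2 := 536870912) (P3 := 134217728) (W3 := 67108864)
    rfl (fun _ => rfl) k0_pm_102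

noncomputable def f_pm_112 : ℕ → ℕ → ℕ → ℕ → Bool := onCell 1073741824 536870912 536870912 536870912 134217728 67108864
    (rowF 2 true true false .dn 1 1 2 (qsf 536870912 536870912 536870912 536870912 2) ndF0q1 ndF3q1 pcF2 Cut.none Ext.none)

def k0_pm_112 : ∃ t, chk3 f_pm_112 t 1 1 1 = true :=
  ⟨(a (b (a (b (a (a (b (c (l 17962712) (l 17776280)) (l 1)) (b (l 17981800) (l 265786778183))) (a (a (l 64460933879) (b (l 18100248) (l 18058160))) (a (l 18120144) (l 18156928)))) (a (l 1) (a (l 1) (a (l 1) (l 306589983623))))) (a (a (b (a (l 18186400) (l 18361160)) (a (l 270619736615) (b (l 18202448) (l 1)))) (b (l 18237104) (l 18247872))) (b (a (l 18254392) (l 18262368)) (a (l 18300160) (l 18334000))))) (a (l 1) (b (a (l 1) (b (l 361351403447) (l 1))) (l 1)))) (b (a (b (a (l 18305680) (l 18332192)) (a (l 18392048) (l 18436184))) (b (a (l 18327416) (l 18280304)) (l 18440384))) (b (a (b (l 313570222471) (l 309275540679)) (b (l 18598448) (l 18771816))) (b (a (a (l 1) (l 337193235751))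 (l 318939759591)) (a (l 1) (l 333972496887)))))), by decide +kernel⟩

theorem c_pm_112 : CertF 536870912 536870912 536870912 536870912 134217728 67108864 true true false .dn 1 1 2
    ndF0q1 ndF3q1 pcF2 Cut.none Ext.none :=
  certF2 (fam := true) (s1 := true) (s2 := false) (a := 1) (b := 1) (c := 2) (cn := .dn) (n1 := ndF0q1) (n2 := ndF3q1) (pc := pcF2) (cut := Cut.none) (xt := Ext.none) (P1 := 536870912) (W1 := 536870912) (P2 := 536870912) (W2 := 536870912) (P3 := 134217728) (W3 := 67108864)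
    rfl (fun _ => rfl) k0_pm_112

noncomputable def f_pm_113 : ℕ → ℕ → ℕ → ℕ → Bool := onCell 1610612736 536870912 536870912 536870912 134217728 67108864
    (rowF 2 true true false .nn 1 1 3 (qsf 536870912 536870912 536870912 536870912 3) ndF0q1 ndF3q1 pcF3 Cut.none Ext.none)

def k0_pm_113 : ∃ t, chk3 f_pm_113 t 1 1 1 = true :=
  ⟨(a (b (a (a (b (a (l 17692792) (l 17786416)) (l 17791376)) (b (l 17737840) (a (l 17804848) (l 17857016)))) (b (a (b (l 2) (l 17564896)) (l 2)) (a (l 17733512) (l 17606312)))) (a (b (a (l 18101720) (l 18032432)) (b (b (l 18348760) (l 18475504)) (l 18677944))) (b (a (b (l 17970608) (l 18085456)) (l 17904800)) (b (a (l 18276552) (l 18261712)) (a (l 18488624) (l 18420008)))))) (b (a (b (l 2) (l 4)) (l 2)) (a (b (a (l 17774200) (l 4)) (b (l 18001080) (l 18304608))) (b (l 4) (l 4))))), by decide +kernel⟩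

theorem c_pm_113 : CertF 536870912 536870912 536870912 536870912 134217728 67108864 true true false .nn 1 1 3
    ndF0q1 ndF3q1 pcF3 Cut.none Ext.none :=
  certF2 (fam := true) (s1 := true) (s2 := false) (a := 1) (b := 1) (c := 3) (cn := .nn) (n1 := ndF0q1) (n2 := ndF3q1) (pc := pcF3) (cut := Cut.none) (xt := Ext.none) (P1 := 536870912) (W1 := 536870912) (P2 := 536870912) (W2 := 536870912) (P3 := 134217728) (W3 := 67108864)
    rfl (fun _ => rfl) k0_pm_113

noncomputable def f_pm_123 : ℕ → ℕ → ℕ → ℕ → Bool := onCell 1610612736 536870912 1073741824 536870912 134217728 67108864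
    (rowF 2 true true false .npn 1 2 3 (qsf 536870912 536870912 1073741824 536870912 3) ndF0q1 ndF3q2 pcF3 Cut.none Ext.none)

def k0_pm_123 : ∃ t, chk3 f_pm_123 t 2 1 1 = true :=
  ⟨(b (a (b (b (a (l 17842776) (l 17685208)) (b (b (l 17815848) (l 66608242759)) (b (l 17842296) (l 17856032)))) (b (b (b (l 17865824) (l 1)) (l 1)) (l 1))) (b (b (a (l 17575480) (l 17448360)) (b (b (l 17590968) (a (l 17670592) (l 17543624))) (b (l 17623320) (l 17636800)))) (b (b (b (l 17645832) (l 17828792)) (l 17662040)) (a (l 17732240) (l 17607624))))) (a (l 1) (b (b (l 17999888) (l 1)) (l 1)))), by decide +kernel⟩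

def k1_pm_123 : ∃ t, chk3 f_pm_123 t 3 1 1 = true :=
  ⟨(b (a (b (b (a (l 17313680) (l 17184112)) (b (b (l 17319816) (a (l 17407488) (l 17267184))) (b (l 17349576) (l 17363136)))) (b (b (b (l 17379600) (l 17504360)) (l 17404368)) (a (l 17476872) (l 17421480)))) (b (a (b (l 17115896) (b (b (l 17128424) (l 17136288)) (l 17307632))) (b (a (l 16954144) (a (l 16896016) (a (l 16884224) (a (l 16896448) (l 16965984))))) (b (a (b (l 17031720) (l 17041936)) (a (b (l 16971584) (l 16986616)) (b (a (l 16942432) (a (l 16939160) (l 16960792))) (a (l 16961248) (a (l 16946392) (l 16963872)))))) (a (l 17102304) (a (l 17055192) (a (l 16985896) (a (l 16952536) (b (l 16961584) (l 16965392))))))))) (a (b (b (b (l 17157584) (l 17180000)) (l 17191616)) (l 17191888)) (b (a (b (b (l 17059752) (l 17069680)) (l 17077448)) (a (b (b (l 17010256) (l 17021376)) (l 17021992)) (b (a (b (l 16988064) (l 16997400)) (a (b (l 16975752) (l 16985280)) (b (l 16967744) (l 16998792)))) (a (l 16995728) (a (l 16982856) (l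 16971656)))))) (a (l 17080952) (a (l 17025600) (a (l 16999944) (a (l 16985448) (l 16959672))))))))) (a (b (a (l 17763360) (l 17532976)) (a (l 1) (l 17603200))) (a (b (l 17285880) (l 17468984)) (a (b (l 17182360) (l 17330840)) (a (b (l 17128448) (l 17271232)) (b (a (l 17093608) (a (l 17073976) (l 17048368))) (l 4))))))), by decide +kernel⟩

theorem s2_pm_123 : ∃ t, chk3 f_pm_123 t 1 1 1 = true := ex3_a k0_pm_123 k1_pm_123

theorem c_pm_123 : CertF 536870912 536870912 1073741824 536870912 134217728 67108864 true true false .npn 1 2 3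
    ndF0q1 ndF3q2 pcF3 Cut.none Ext.none :=
  certF2 (fam := true) (s1 := true) (s2 := false) (a := 1) (b := 2) (c := 3) (cn := .npn) (n1 := ndF0q1) (n2 := ndF3q2) (pc := pcF3) (cut := Cut.none) (xt := Ext.none) (P1 := 536870912) (W1 := 536870912) (P2 := 1073741824) (W2 := 536870912) (P3 := 134217728) (W3 := 67108864)
    rfl (fun _ => rfl) s2_pm_123

noncomputable def f_pm_133 : ℕ → ℕ → ℕ → ℕ → Bool := onCell 536870912 536870912 0 1230186008 134217728 67108864
    (rowF 0 true true false .dn 1 3 3 (qsf 536870912 536870912 0 1230186008 3) ndF0q1 ndF3q3 pcF3 Cut.none Ext.none)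

def k0_pm_133 : ∃ t, chk3 f_pm_133 t 1 1 1 = true :=
  ⟨(b (l 2) (b (l 2) (a (l 4) (l 2)))), by decide +kernel⟩

theorem c_pm_133 : CertF 536870912 536870912 0 1230186008 134217728 67108864 true true false .dn 1 3 3
    ndF0q1 ndF3q3 pcF3 Cut.none Ext.none :=
  certF0 (fam := true) (s1 := true) (s2 := false) (a := 1) (b := 3) (c := 3) (cn := .dn) (n1 := ndF0q1) (n2 := ndF3q3) (pc := pcF3) (cut := Cut.none) (xt := Ext.none) (P1 := 536870912) (W1 := 536870912) (P2 := 0) (W2 := 1230186008) (P3 := 134217728) (W3 := 67108864)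
    rfl k0_pm_133

noncomputable def f_pm_202 : ℕ → ℕ → ℕ → ℕ → Bool := onCell 0 536870912 1073741824 536870912 134217728 67108864
    (rowF 1 true true false .pp 2 0 2 (qsf 0 536870912 0 536870912 2) ndF0q2 ndF3q0 pcF2 Cut.none Ext.none)

def k0_pm_202 : ∃ t, chk3 f_pm_202 t 1 1 1 = true :=
  ⟨(a (b (a (b (l 1) (b (b (b (l 1) (l 17106360)) (l 17136576)) (l 17188456))) (b (b (l 1) (b (l 1) (b (l 1) (l 17155464)))) (b (b (b (l 17162696) (l 17170648)) (l 17186504)) (l 17244840)))) (b (b (l 17475952) (l 17481496)) (l 17390848))) (b (a (b (b (l 1) (b (a (l 1) (b (l 17272096) (b (l 17283584) (l 17288464)))) (b (a (l 17228448) (l 17278832)) (l 17382224)))) (b (b (b (l 17257136) (l 17260320)) (l 17257400)) (l 17364384))) (b (b (a (b (l 1) (a (b (l 1) (l 17291824)) (c (l 362422687927) (l 333968327015)))) (b (a (b (l 1) (l 321620247255)) (b (l 17316176) (l 17330432))) (a (b (l 17321000) (l 17342176)) (l 17360544)))) (b (b (a (l 17323576) (l 17378152)) (a (l 17326984) (l 17383360))) (b (a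 (l 17326264) (l 17383800)) (l 17355696)))) (b (b (b (l 17355000) (a (l 17329200) (l 17388040))) (l 17347208)) (l 17456056)))) (b (a (l 17551656) (l 17538160)) (a (l 17507024) (l 17515760))))), by decide +kernel⟩

theorem c_pm_202 : CertF 0 536870912 0 536870912 134217728 67108864 true true false .pp 2 0 2
    ndF0q2 ndF3q0 pcF2 Cut.none Ext.none :=
  certF1 (fam := true) (s1 := true) (s2 := false) (a := 2) (b := 0) (c := 2) (cn := .pp) (n1 := ndF0q2) (n2 := ndF3q0) (pc := pcF2) (cut := Cut.none) (xt := Ext.none) (P1 := 0) (W1 := 536870912) (P2 := 0) (W2 := 536870912) (P3 := 134217728) (W3 := 67108864)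
    rfl (fun _ => rfl) k0_pm_202

noncomputable def f_pm_203 : ℕ → ℕ → ℕ → ℕ → Bool := onCell 0 536870912 1610612736 536870912 134217728 67108864
    (rowF 1 true true false .up 2 0 3 (qsf 0 536870912 0 536870912 3) ndF0q2 ndF3q0 pcF3 Cut.none Ext.none)

def k0_pm_203 : ∃ t, chk3 f_pm_203 t 1 1 1 = true :=
  ⟨(b (a (b (l 4) (l 4)) (b (b (l 13659035159) (l 17702624)) (b (l 17751344) (l 2)))) (l 2)), by decide +kernel⟩

theorem c_pm_203 : CertF 0 536870912 0 536870912 134217728 67108864 true true false .up 2 0 3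
    ndF0q2 ndF3q0 pcF3 Cut.none Ext.none :=
  certF1 (fam := true) (s1 := true) (s2 := false) (a := 2) (b := 0) (c := 3) (cn := .up) (n1 := ndF0q2) (n2 := ndF3q0) (pc := pcF3) (cut := Cut.none) (xt := Ext.none) (P1 := 0) (W1 := 536870912) (P2 := 0) (W2 := 536870912) (P3 := 134217728) (W3 := 67108864)
    rfl (fun _ => rfl) k0_pm_203

noncomputable def f_pm_213 : ℕ → ℕ → ℕ → ℕ → Bool := onCell 0 536870912 1610612736 536870912 134217728 67108864
    (rowF 1 true true false .pnn 2 1 3 (qsf 0 536870912 536870912 536870912 3) ndF0q2 ndF3q1 pcF3 Cut.none Ext.none)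

def k0_pm_213 : ∃ t, chk3 f_pm_213 t 1 1 1 = true :=
  ⟨(b (a (b (l 4) (l 4)) (b (b (l 17846072) (l 17595024)) (l 17822024))) (l 4)), by decide +kernel⟩

theorem c_pm_213 : CertF 0 536870912 536870912 536870912 134217728 67108864 true true false .pnn 2 1 3
    ndF0q2 ndF3q1 pcF3 Cut.none Ext.none :=
  certF1 (fam := true) (s1 := true) (s2 := false) (a := 2) (b := 1) (c := 3) (cn := .pnn) (n1 := ndF0q2) (n2 := ndF3q1) (pc := pcF3) (cut := Cut.none) (xt := Ext.none) (P1 := 0) (W1 := 536870912) (P2 := 536870912) (W2 := 536870912) (P3 := 134217728) (W3 := 67108864)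
    rfl (fun _ => rfl) k0_pm_213

noncomputable def f_mm_001 : ℕ → ℕ → ℕ → ℕ → Bool := onCell 0 536870912 0 536870912 134217728 67108864
    (rowF 0 true false false .up 0 0 1 (qsf 0 536870912 0 536870912 1) ndF0q0 ndF3q0 pcF1 Cut.none Ext.none)

def k0_mm_001 : ∃ t, chk3 f_mm_001 t 1 1 1 = true :=
  ⟨(l 4), by decide +kernel⟩

theorem c_mm_001 : CertF 0 536870912 0 536870912 134217728 67108864 true false false .up 0 0 1
    ndF0q0 ndF3q0 pcF1 Cut.none Ext.none :=
  certF0 (fam := true) (s1 := false) (s2 := false) (a := 0) (b := 0) (c := 1) (cn := .up) (n1 := ndF0q0) (n2 := ndF3q0) (pc := pcF1) (cut := Cut.none) (xt := Ext.none) (P1 := 0) (W1 := 536870912) (P2 := 0) (W2 := 536870912) (P3 := 134217728) (W3 := 67108864)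
    rfl k0_mm_001

noncomputable def f_mm_011 : ℕ → ℕ → ℕ → ℕ → Bool := onCell 0 536870912 536870912 536870912 134217728 67108864
    (rowF 0 true false false .pnn 0 1 1 (qsf 0 536870912 536870912 536870912 1) ndF0q0 ndF3q1 pcF1 Cut.none Ext.none)

def k0_mm_011 : ∃ t, chk3 f_mm_011 t 1 1 1 = true :=
  ⟨(l 4), by decide +kernel⟩

theorem c_mm_011 : CertF 0 536870912 536870912 536870912 134217728 67108864 true false false .pnn 0 1 1
    ndF0q0 ndF3q1 pcF1 Cut.none Ext.none :=
  certF0 (fam := true) (s1 := false) (s2 := false) (a := 0) (b := 1) (c := 1) (cn := .pnn) (n1 := ndF0q0) (n2 := ndF3q1) (pc := pcF1) (cut := Cut.none) (xt := Ext.none) (P1 := 0) (W1 := 536870912) (P2 := 536870912) (W2 := 536870912) (P3 := 134217728) (W3 := 67108864)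
    rfl k0_mm_011

noncomputable def f_mm_012 : ℕ → ℕ → ℕ → ℕ → Bool := onCell 0 536870912 536870912 536870912 134217728 67108864
    (rowF 0 true false false .pnp 0 1 2 (qsf 0 536870912 536870912 536870912 2) ndF0q0 ndF3q1 pcF2 Cut.none Ext.none)

def k0_mm_012 : ∃ t, chk3 f_mm_012 t 1 1 1 = true :=
  ⟨(l 4), by decide +kernel⟩

theorem c_mm_012 : CertF 0 536870912 536870912 536870912 134217728 67108864 true false false .pnp 0 1 2
    ndF0q0 ndF3q1 pcF2 Cut.none Ext.none :=
  certF0 (fam := true) (s1 := false) (s2 := false) (a := 0) (b := 1) (c := 2) (cn := .pnp) (n1 := ndF0q0) (n2 := ndF3q1) (pc := pcF2) (cut := Cut.none) (xt := Ext.none) (P1 := 0) (W1 := 536870912) (P2 := 536870912) (W2 := 536870912) (P3 := 134217728) (W3 := 67108864)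
    rfl k0_mm_012

noncomputable def f_mm_022 : ℕ → ℕ → ℕ → ℕ → Bool := onCell 0 536870912 1073741824 536870912 134217728 67108864
    (rowF 0 true false false .pp 0 2 2 (qsf 0 536870912 1073741824 536870912 2) ndF0q0 ndF3q2 pcF2 Cut.none Ext.none)

def k0_mm_022 : ∃ t, chk3 f_mm_022 t 1 1 1 = true :=
  ⟨(l 4), by decide +kernel⟩

theorem c_mm_022 : CertF 0 536870912 1073741824 536870912 134217728 67108864 true false false .pp 0 2 2
    ndF0q0 ndF3q2 pcF2 Cut.none Ext.none :=
  certF0 (fam := true) (s1 := false) (s2 := false) (a := 0) (b := 2) (c := 2) (cn := .pp) (n1 := ndF0q0) (n2 := ndF3q2) (pc := pcF2) (cut := Cut.none) (xt := Ext.none) (P1 := 0) (W1 := 536870912) (P2 := 1073741824) (W2 := 536870912) (P3 := 134217728) (W3 := 67108864)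
    rfl k0_mm_022

noncomputable def f_mm_023 : ℕ → ℕ → ℕ → ℕ → Bool := onCell 0 536870912 1073741824 536870912 134217728 67108864
    (rowF 0 true false false .up 0 2 3 (qsf 0 536870912 1073741824 536870912 3) ndF0q0 ndF3q2 pcF3 Cut.none Ext.none)

def k0_mm_023 : ∃ t, chk3 f_mm_023 t 1 1 1 = true :=
  ⟨(l 4), by decide +kernel⟩

theorem c_mm_023 : CertF 0 536870912 1073741824 536870912 134217728 67108864 true false false .up 0 2 3
    ndF0q0 ndF3q2 pcF3 Cut.none Ext.none :=
  certF0 (fam := true) (s1 := false) (s2 := false) (a := 0) (b := 2) (c := 3) (cn := .up) (n1 := ndF0q0) (n2 := ndF3q2) (pc := pcF3) (cut := Cut.none) (xt := Ext.none) (P1 := 0) (W1 := 536870912) (P2 := 1073741824) (W2 := 536870912) (P3 := 134217728) (W3 := 67108864)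
    rfl k0_mm_023

noncomputable def f_mm_033 : ℕ → ℕ → ℕ → ℕ → Bool := onCell 0 536870912 0 1230186008 134217728 67108864
    (rowF 0 true false false .pnn 0 3 3 (qsf 0 536870912 0 1230186008 3) ndF0q0 ndF3q3 pcF3 Cut.none Ext.none)

def k0_mm_033 : ∃ t, chk3 f_mm_033 t 1 1 1 = true :=
  ⟨(l 5), by decide +kernel⟩

theorem c_mm_033 : CertF 0 536870912 0 1230186008 134217728 67108864 true false false .pnn 0 3 3
    ndF0q0 ndF3q3 pcF3 Cut.none Ext.none :=
  certF0 (fam := true) (s1 := false) (s2 := false) (a := 0) (b := 3) (c := 3) (cn := .pnn) (n1 := ndF0q0) (n2 := ndF3q3) (pc := pcF3) (cut := Cut.none) (xt := Ext.none) (P1 := 0) (W1 := 536870912) (P2 := 0) (W2 := 1230186008) (P3 := 134217728) (W3 := 67108864)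
    rfl k0_mm_033

noncomputable def f_mm_101 : ℕ → ℕ → ℕ → ℕ → Bool := onCell 536870912 536870912 0 536870912 134217728 67108864
    (rowF 0 true false false .npn 1 0 1 (qsf 536870912 536870912 0 536870912 1) ndF0q1 ndF3q0 pcF1 Cut.none Ext.none)

def k0_mm_101 : ∃ t, chk3 f_mm_101 t 1 1 1 = true :=
  ⟨(l 4), by decide +kernel⟩

theorem c_mm_101 : CertF 536870912 536870912 0 536870912 134217728 67108864 true false false .npn 1 0 1
    ndF0q1 ndF3q0 pcF1 Cut.none Ext.none :=
  certF0 (fam := true) (s1 := false) (s2 := false) (a := 1) (b := 0) (c := 1) (cn := .npn) (n1 := ndF0q1) (n2 := ndF3q0) (pc := pcF1) (cut := Cut.none) (xt := Ext.none) (P1 := 536870912) (W1 := 536870912) (P2 := 0) (W2 := 536870912) (P3 := 134217728) (W3 := 67108864)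
    rfl k0_mm_101

noncomputable def f_mm_102 : ℕ → ℕ → ℕ → ℕ → Bool := onCell 536870912 536870912 0 536870912 134217728 67108864
    (rowF 0 true false false .npp 1 0 2 (qsf 536870912 536870912 0 536870912 2) ndF0q1 ndF3q0 pcF2 Cut.none Ext.none)

def k0_mm_102 : ∃ t, chk3 f_mm_102 t 1 1 1 = true :=
  ⟨(l 4), by decide +kernel⟩

theorem c_mm_102 : CertF 536870912 536870912 0 536870912 134217728 67108864 true false false .npp 1 0 2
    ndF0q1 ndF3q0 pcF2 Cut.none Ext.none :=
  certF0 (fam := true) (s1 := false) (s2 := false) (a := 1) (b := 0) (c := 2) (cn := .npp) (n1 := ndF0q1) (n2 := ndF3q0) (pc := pcF2) (cut := Cut.none) (xt := Ext.none) (P1 := 536870912) (W1 := 536870912) (P2 := 0) (W2 := 536870912) (P3 := 134217728) (W3 := 67108864)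
    rfl k0_mm_102

noncomputable def f_mm_112 : ℕ → ℕ → ℕ → ℕ → Bool := onCell 536870912 536870912 536870912 536870912 134217728 67108864
    (rowF 0 true false false .dn 1 1 2 (qsf 536870912 536870912 536870912 536870912 2) ndF0q1 ndF3q1 pcF2 Cut.none Ext.none)

def k0_mm_112 : ∃ t, chk3 f_mm_112 t 1 1 1 = true :=
  ⟨(l 4), by decide +kernel⟩

theorem c_mm_112 : CertF 536870912 536870912 536870912 536870912 134217728 67108864 true false false .dn 1 1 2
    ndF0q1 ndF3q1 pcF2 Cut.none Ext.none :=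
  certF0 (fam := true) (s1 := false) (s2 := false) (a := 1) (b := 1) (c := 2) (cn := .dn) (n1 := ndF0q1) (n2 := ndF3q1) (pc := pcF2) (cut := Cut.none) (xt := Ext.none) (P1 := 536870912) (W1 := 536870912) (P2 := 536870912) (W2 := 536870912) (P3 := 134217728) (W3 := 67108864)
    rfl k0_mm_112

noncomputable def f_mm_113 : ℕ → ℕ → ℕ → ℕ → Bool := onCell 536870912 536870912 536870912 536870912 134217728 67108864
    (rowF 0 true false false .nn 1 1 3 (qsf 536870912 536870912 536870912 536870912 3) ndF0q1 ndF3q1 pcF3 Cut.none Ext.none)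

def k0_mm_113 : ∃ t, chk3 f_mm_113 t 1 1 1 = true :=
  ⟨(l 4), by decide +kernel⟩

theorem c_mm_113 : CertF 536870912 536870912 536870912 536870912 134217728 67108864 true false false .nn 1 1 3
    ndF0q1 ndF3q1 pcF3 Cut.none Ext.none :=
  certF0 (fam := true) (s1 := false) (s2 := false) (a := 1) (b := 1) (c := 3) (cn := .nn) (n1 := ndF0q1) (n2 := ndF3q1) (pc := pcF3) (cut := Cut.none) (xt := Ext.none) (P1 := 536870912) (W1 := 536870912) (P2 := 536870912) (W2 := 536870912) (P3 := 134217728) (W3 := 67108864)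
    rfl k0_mm_113

noncomputable def f_mm_123 : ℕ → ℕ → ℕ → ℕ → Bool := onCell 536870912 536870912 1073741824 536870912 134217728 67108864
    (rowF 0 true false false .npn 1 2 3 (qsf 536870912 536870912 1073741824 536870912 3) ndF0q1 ndF3q2 pcF3 Cut.none Ext.none)

def k0_mm_123 : ∃ t, chk3 f_mm_123 t 1 1 1 = true :=
  ⟨(l 4), by decide +kernel⟩

theorem c_mm_123 : CertF 536870912 536870912 1073741824 536870912 134217728 67108864 true false false .npn 1 2 3
    ndF0q1 ndF3q2 pcF3 Cut.none Ext.none :=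
  certF0 (fam := true) (s1 := false) (s2 := false) (a := 1) (b := 2) (c := 3) (cn := .npn) (n1 := ndF0q1) (n2 := ndF3q2) (pc := pcF3) (cut := Cut.none) (xt := Ext.none) (P1 := 536870912) (W1 := 536870912) (P2 := 1073741824) (W2 := 536870912) (P3 := 134217728) (W3 := 67108864)
    rfl k0_mm_123

noncomputable def f_mm_133 : ℕ → ℕ → ℕ → ℕ → Bool := onCell 536870912 536870912 0 1230186008 134217728 67108864
    (rowF 0 true false false .dn 1 3 3 (qsf 536870912 536870912 0 1230186008 3) ndF0q1 ndF3q3 pcF3 Cut.none Ext.none)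

def k0_mm_133 : ∃ t, chk3 f_mm_133 t 1 1 1 = true :=
  ⟨(l 4), by decide +kernel⟩

theorem c_mm_133 : CertF 536870912 536870912 0 1230186008 134217728 67108864 true false false .dn 1 3 3
    ndF0q1 ndF3q3 pcF3 Cut.none Ext.none :=
  certF0 (fam := true) (s1 := false) (s2 := false) (a := 1) (b := 3) (c := 3) (cn := .dn) (n1 := ndF0q1) (n2 := ndF3q3) (pc := pcF3) (cut := Cut.none) (xt := Ext.none) (P1 := 536870912) (W1 := 536870912) (P2 := 0) (W2 := 1230186008) (P3 := 134217728) (W3 := 67108864)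
    rfl k0_mm_133

noncomputable def f_mm_202 : ℕ → ℕ → ℕ → ℕ → Bool := onCell 0 536870912 0 536870912 134217728 67108864
    (rowF 0 true false false .pp 2 0 2 (qsf 0 536870912 0 536870912 2) ndF0q2 ndF3q0 pcF2 Cut.none Ext.none)

def k0_mm_202 : ∃ t, chk3 f_mm_202 t 1 1 1 = true :=
  ⟨(b (a (a (b (b (l 17174872) (l 17305744)) (l 17401704)) (b (b (b (l 17193464) (l 17206176)) (b (l 17186584) (l 4))) (l 4))) (b (a (b (b (a (l 17213592) (l 4)) (l 4)) (l 4)) (l 4)) (l 4))) (l 4)), by decide +kernel⟩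

theorem c_mm_202 : CertF 0 536870912 0 536870912 134217728 67108864 true false false .pp 2 0 2
    ndF0q2 ndF3q0 pcF2 Cut.none Ext.none :=
  certF0 (fam := true) (s1 := false) (s2 := false) (a := 2) (b := 0) (c := 2) (cn := .pp) (n1 := ndF0q2) (n2 := ndF3q0) (pc := pcF2) (cut := Cut.none) (xt := Ext.none) (P1 := 0) (W1 := 536870912) (P2 := 0) (W2 := 536870912) (P3 := 134217728) (W3 := 67108864)
    rfl k0_mm_202

noncomputable def f_mm_203 : ℕ → ℕ → ℕ → ℕ → Bool := onCell 0 536870912 1610612736 536870912 134217728 67108864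
    (rowF 1 true false false .up 2 0 3 (qsf 0 536870912 0 536870912 3) ndF0q2 ndF3q0 pcF3 Cut.none Ext.none)

def k0_mm_203 : ∃ t, chk3 f_mm_203 t 1 1 1 = true :=
  ⟨(l 4), by decide +kernel⟩

theorem c_mm_203 : CertF 0 536870912 0 536870912 134217728 67108864 true false false .up 2 0 3
    ndF0q2 ndF3q0 pcF3 Cut.none Ext.none :=
  certF1 (fam := true) (s1 := false) (s2 := false) (a := 2) (b := 0) (c := 3) (cn := .up) (n1 := ndF0q2) (n2 := ndF3q0) (pc := pcF3) (cut := Cut.none) (xt := Ext.none) (P1 := 0) (W1 := 536870912) (P2 := 0) (W2 := 536870912) (P3 := 134217728) (W3 := 67108864)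
    rfl (fun _ => rfl) k0_mm_203

noncomputable def f_mm_213 : ℕ → ℕ → ℕ → ℕ → Bool := onCell 0 536870912 536870912 536870912 134217728 67108864
    (rowF 0 true false false .pnn 2 1 3 (qsf 0 536870912 536870912 536870912 3) ndF0q2 ndF3q1 pcF3 Cut.none Ext.none)

def k0_mm_213 : ∃ t, chk3 f_mm_213 t 1 1 1 = true :=
  ⟨(l 4), by decide +kernel⟩

theorem c_mm_213 : CertF 0 536870912 536870912 536870912 134217728 67108864 true false false .pnn 2 1 3
    ndF0q2 ndF3q1 pcF3 Cut.none Ext.none :=
  certF0 (fam := true) (s1 := false) (s2 := false) (a := 2) (b := 1) (c := 3) (cn := .pnn) (n1 := ndF0q2) (n2 := ndF3q1) (pc := pcF3) (cut := Cut.none) (xt := Ext.none) (P1 := 0) (W1 := 536870912) (P2 := 536870912) (W2 := 536870912) (P3 := 134217728) (W3 := 67108864)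
    rfl k0_mm_213

end Pool.Agent.Strip051.G.I1_8_3_16.Tab.C.FA03

namespace Pool.Agent.Strip051.G.I1_8_3_16.Tab.C.FA04

open Pool.Agent.Strip051.PB Pool.Agent.Strip051.PB.T
open Pool.Agent.Strip051.G.I1_8_3_16.Tab

noncomputable def f_pp_001 : ℕ → ℕ → ℕ → ℕ → Bool := onCell 0 536870912 0 536870912 134217728 67108864
    (rowF 0 true true true .up 0 0 1 (qsf 0 536870912 0 536870912 1) ndF0q0 ndF4q0 pcF1 Cut.none Ext.none)

def k0_pp_001 : ∃ t, chk3 f_pp_001 t 1 1 1 = true :=
  ⟨(l 4), by decide +kernel⟩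

theorem c_pp_001 : CertF 0 536870912 0 536870912 134217728 67108864 true true true .up 0 0 1
    ndF0q0 ndF4q0 pcF1 Cut.none Ext.none :=
  certF0 (fam := true) (s1 := true) (s2 := true) (a := 0) (b := 0) (c := 1) (cn := .up) (n1 := ndF0q0) (n2 := ndF4q0) (pc := pcF1) (cut := Cut.none) (xt := Ext.none) (P1 := 0) (W1 := 536870912) (P2 := 0) (W2 := 536870912) (P3 := 134217728) (W3 := 67108864)
    rfl k0_pp_001

noncomputable def f_pp_011 : ℕ → ℕ → ℕ → ℕ → Bool := onCell 0 536870912 536870912 536870912 134217728 67108864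
    (rowF 0 true true true .pnn 0 1 1 (qsf 0 536870912 536870912 536870912 1) ndF0q0 ndF4q1 pcF1 Cut.none Ext.none)

def k0_pp_011 : ∃ t, chk3 f_pp_011 t 1 1 1 = true :=
  ⟨(l 4), by decide +kernel⟩

theorem c_pp_011 : CertF 0 536870912 536870912 536870912 134217728 67108864 true true true .pnn 0 1 1
    ndF0q0 ndF4q1 pcF1 Cut.none Ext.none :=
  certF0 (fam := true) (s1 := true) (s2 := true) (a := 0) (b := 1) (c := 1) (cn := .pnn) (n1 := ndF0q0) (n2 := ndF4q1) (pc := pcF1) (cut := Cut.none) (xt := Ext.none) (P1 := 0) (W1 := 536870912) (P2 := 536870912) (W2 := 536870912) (P3 := 134217728) (W3 := 67108864)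
    rfl k0_pp_011

noncomputable def f_pp_012 : ℕ → ℕ → ℕ → ℕ → Bool := onCell 0 536870912 536870912 536870912 134217728 67108864
    (rowF 0 true true true .pnp 0 1 2 (qsf 0 536870912 536870912 536870912 2) ndF0q0 ndF4q1 pcF2 Cut.none Ext.none)

def k0_pp_012 : ∃ t, chk3 f_pp_012 t 1 1 1 = true :=
  ⟨(l 4), by decide +kernel⟩

theorem c_pp_012 : CertF 0 536870912 536870912 536870912 134217728 67108864 true true true .pnp 0 1 2
    ndF0q0 ndF4q1 pcF2 Cut.none Ext.none :=
  certF0 (fam := true) (s1 := true) (s2 := true) (a := 0) (b := 1) (c := 2) (cn := .pnp) (n1 := ndF0q0) (n2 := ndF4q1) (pc := pcF2) (cut := Cut.none) (xt := Ext.none) (P1 := 0) (W1 := 536870912) (P2 := 536870912) (W2 := 536870912) (P3 := 134217728) (W3 := 67108864)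
    rfl k0_pp_012

noncomputable def f_pp_022 : ℕ → ℕ → ℕ → ℕ → Bool := onCell 0 536870912 1073741824 536870912 134217728 67108864
    (rowF 0 true true true .pp 0 2 2 (qsf 0 536870912 1073741824 536870912 2) ndF0q0 ndF4q2 pcF2 Cut.none Ext.none)

def k0_pp_022 : ∃ t, chk3 f_pp_022 t 1 1 1 = true :=
  ⟨(l 4), by decide +kernel⟩

theorem c_pp_022 : CertF 0 536870912 1073741824 536870912 134217728 67108864 true true true .pp 0 2 2
    ndF0q0 ndF4q2 pcF2 Cut.none Ext.none :=
  certF0 (fam := true) (s1 := true) (s2 := true) (a := 0) (b := 2) (c := 2) (cn := .pp) (n1 := ndF0q0) (n2 := ndF4q2) (pc := pcF2) (cut := Cut.none) (xt := Ext.none) (P1 := 0) (W1 := 536870912) (P2 := 1073741824) (W2 := 536870912) (P3 := 134217728) (W3 := 67108864)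
    rfl k0_pp_022

noncomputable def f_pp_023 : ℕ → ℕ → ℕ → ℕ → Bool := onCell 0 536870912 1073741824 536870912 134217728 67108864
    (rowF 0 true true true .up 0 2 3 (qsf 0 536870912 1073741824 536870912 3) ndF0q0 ndF4q2 pcF3 Cut.none Ext.none)

def k0_pp_023 : ∃ t, chk3 f_pp_023 t 1 1 1 = true :=
  ⟨(l 4), by decide +kernel⟩

theorem c_pp_023 : CertF 0 536870912 1073741824 536870912 134217728 67108864 true true true .up 0 2 3
    ndF0q0 ndF4q2 pcF3 Cut.none Ext.none :=
  certF0 (fam := true) (s1 := true) (s2 := true) (a := 0) (b := 2) (c := 3) (cn := .up) (n1 := ndF0q0) (n2 := ndF4q2) (pc := pcF3) (cut := Cut.none) (xt := Ext.none) (P1 := 0) (W1 := 536870912) (P2 := 1073741824) (W2 := 536870912) (P3 := 134217728) (W3 := 67108864)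
    rfl k0_pp_023

noncomputable def f_pp_033 : ℕ → ℕ → ℕ → ℕ → Bool := onCell 0 536870912 0 1230186008 134217728 67108864
    (rowF 0 true true true .pnn 0 3 3 (qsf 0 536870912 0 1230186008 3) ndF0q0 ndF4q3 pcF3 Cut.none Ext.none)

def k0_pp_033 : ∃ t, chk3 f_pp_033 t 1 1 1 = true :=
  ⟨(b (l 4) (l 4)), by decide +kernel⟩

theorem c_pp_033 : CertF 0 536870912 0 1230186008 134217728 67108864 true true true .pnn 0 3 3
    ndF0q0 ndF4q3 pcF3 Cut.none Ext.none :=
  certF0 (fam := true) (s1 := true) (s2 := true) (a := 0) (b := 3) (c := 3) (cn := .pnn) (n1 := ndF0q0) (n2 := ndF4q3) (pc := pcF3) (cut := Cut.none) (xt := Ext.none) (P1 := 0) (W1 := 536870912) (P2 := 0) (W2 := 1230186008) (P3 := 134217728) (W3 := 67108864)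
    rfl k0_pp_033

noncomputable def f_pp_101 : ℕ → ℕ → ℕ → ℕ → Bool := onCell 536870912 536870912 0 536870912 134217728 67108864
    (rowF 0 true true true .npn 1 0 1 (qsf 536870912 536870912 0 536870912 1) ndF0q1 ndF4q0 pcF1 Cut.none Ext.none)

def k0_pp_101 : ∃ t, chk3 f_pp_101 t 1 1 1 = true :=
  ⟨(l 4), by decide +kernel⟩

theorem c_pp_101 : CertF 536870912 536870912 0 536870912 134217728 67108864 true true true .npn 1 0 1
    ndF0q1 ndF4q0 pcF1 Cut.none Ext.none :=
  certF0 (fam := true) (s1 := true) (s2 := true) (a := 1) (b := 0) (c := 1) (cn := .npn) (n1 := ndF0q1) (n2 := ndF4q0) (pc := pcF1) (cut := Cut.none) (xt := Ext.none) (P1 := 536870912) (W1 := 536870912) (P2 := 0) (W2 := 536870912) (P3 := 134217728) (W3 := 67108864)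
    rfl k0_pp_101

noncomputable def f_pp_102 : ℕ → ℕ → ℕ → ℕ → Bool := onCell 536870912 536870912 0 536870912 134217728 67108864
    (rowF 0 true true true .npp 1 0 2 (qsf 536870912 536870912 0 536870912 2) ndF0q1 ndF4q0 pcF2 Cut.none Ext.none)

def k0_pp_102 : ∃ t, chk3 f_pp_102 t 1 1 1 = true :=
  ⟨(l 4), by decide +kernel⟩

theorem c_pp_102 : CertF 536870912 536870912 0 536870912 134217728 67108864 true true true .npp 1 0 2
    ndF0q1 ndF4q0 pcF2 Cut.none Ext.none :=
  certF0 (fam := true) (s1 := true) (s2 := true) (a := 1) (b := 0) (c := 2) (cn := .npp) (n1 := ndF0q1) (n2 := ndF4q0) (pc := pcF2) (cut := Cut.none) (xt := Ext.none) (P1 := 536870912) (W1 := 536870912) (P2 := 0) (W2 := 536870912) (P3 := 134217728) (W3 := 67108864)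
    rfl k0_pp_102

noncomputable def f_pp_112 : ℕ → ℕ → ℕ → ℕ → Bool := onCell 536870912 536870912 536870912 536870912 134217728 67108864
    (rowF 0 true true true .dn 1 1 2 (qsf 536870912 536870912 536870912 536870912 2) ndF0q1 ndF4q1 pcF2 Cut.none Ext.none)

def k0_pp_112 : ∃ t, chk3 f_pp_112 t 1 1 1 = true :=
  ⟨(l 4), by decide +kernel⟩

theorem c_pp_112 : CertF 536870912 536870912 536870912 536870912 134217728 67108864 true true true .dn 1 1 2
    ndF0q1 ndF4q1 pcF2 Cut.none Ext.none :=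
  certF0 (fam := true) (s1 := true) (s2 := true) (a := 1) (b := 1) (c := 2) (cn := .dn) (n1 := ndF0q1) (n2 := ndF4q1) (pc := pcF2) (cut := Cut.none) (xt := Ext.none) (P1 := 536870912) (W1 := 536870912) (P2 := 536870912) (W2 := 536870912) (P3 := 134217728) (W3 := 67108864)
    rfl k0_pp_112

noncomputable def f_pp_113 : ℕ → ℕ → ℕ → ℕ → Bool := onCell 536870912 536870912 536870912 536870912 134217728 67108864
    (rowF 0 true true true .nn 1 1 3 (qsf 536870912 536870912 536870912 536870912 3) ndF0q1 ndF4q1 pcF3 Cut.none Ext.none)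

def k0_pp_113 : ∃ t, chk3 f_pp_113 t 1 1 1 = true :=
  ⟨(l 4), by decide +kernel⟩

theorem c_pp_113 : CertF 536870912 536870912 536870912 536870912 134217728 67108864 true true true .nn 1 1 3
    ndF0q1 ndF4q1 pcF3 Cut.none Ext.none :=
  certF0 (fam := true) (s1 := true) (s2 := true) (a := 1) (b := 1) (c := 3) (cn := .nn) (n1 := ndF0q1) (n2 := ndF4q1) (pc := pcF3) (cut := Cut.none) (xt := Ext.none) (P1 := 536870912) (W1 := 536870912) (P2 := 536870912) (W2 := 536870912) (P3 := 134217728) (W3 := 67108864)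
    rfl k0_pp_113

noncomputable def f_pp_123 : ℕ → ℕ → ℕ → ℕ → Bool := onCell 536870912 536870912 1073741824 536870912 134217728 67108864
    (rowF 0 true true true .npn 1 2 3 (qsf 536870912 536870912 1073741824 536870912 3) ndF0q1 ndF4q2 pcF3 Cut.none Ext.none)

def k0_pp_123 : ∃ t, chk3 f_pp_123 t 1 1 1 = true :=
  ⟨(l 4), by decide +kernel⟩

theorem c_pp_123 : CertF 536870912 536870912 1073741824 536870912 134217728 67108864 true true true .npn 1 2 3
    ndF0q1 ndF4q2 pcF3 Cut.none Ext.none :=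
  certF0 (fam := true) (s1 := true) (s2 := true) (a := 1) (b := 2) (c := 3) (cn := .npn) (n1 := ndF0q1) (n2 := ndF4q2) (pc := pcF3) (cut := Cut.none) (xt := Ext.none) (P1 := 536870912) (W1 := 536870912) (P2 := 1073741824) (W2 := 536870912) (P3 := 134217728) (W3 := 67108864)
    rfl k0_pp_123

noncomputable def f_pp_133 : ℕ → ℕ → ℕ → ℕ → Bool := onCell 536870912 536870912 0 1230186008 134217728 67108864
    (rowF 0 true true true .dn 1 3 3 (qsf 536870912 536870912 0 1230186008 3) ndF0q1 ndF4q3 pcF3 Cut.none Ext.none)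

def k0_pp_133 : ∃ t, chk3 f_pp_133 t 1 1 1 = true :=
  ⟨(l 4), by decide +kernel⟩

theorem c_pp_133 : CertF 536870912 536870912 0 1230186008 134217728 67108864 true true true .dn 1 3 3
    ndF0q1 ndF4q3 pcF3 Cut.none Ext.none :=
  certF0 (fam := true) (s1 := true) (s2 := true) (a := 1) (b := 3) (c := 3) (cn := .dn) (n1 := ndF0q1) (n2 := ndF4q3) (pc := pcF3) (cut := Cut.none) (xt := Ext.none) (P1 := 536870912) (W1 := 536870912) (P2 := 0) (W2 := 1230186008) (P3 := 134217728) (W3 := 67108864)
    rfl k0_pp_133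

noncomputable def f_pp_202 : ℕ → ℕ → ℕ → ℕ → Bool := onCell 0 536870912 0 536870912 134217728 67108864
    (rowF 0 true true true .pp 2 0 2 (qsf 0 536870912 0 536870912 2) ndF0q2 ndF4q0 pcF2 Cut.none Ext.none)

def k0_pp_202 : ∃ t, chk3 f_pp_202 t 1 1 1 = true :=
  ⟨(l 5), by decide +kernel⟩

theorem c_pp_202 : CertF 0 536870912 0 536870912 134217728 67108864 true true true .pp 2 0 2
    ndF0q2 ndF4q0 pcF2 Cut.none Ext.none :=
  certF0 (fam := true) (s1 := true) (s2 := true) (a := 2) (b := 0) (c := 2) (cn := .pp) (n1 := ndF0q2) (n2 := ndF4q0) (pc := pcF2) (cut := Cut.none) (xt := Ext.none) (P1 := 0) (W1 := 536870912) (P2 := 0) (W2 := 536870912) (P3 := 134217728) (W3 := 67108864)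
    rfl k0_pp_202

noncomputable def f_pp_203 : ℕ → ℕ → ℕ → ℕ → Bool := onCell 0 536870912 0 536870912 134217728 67108864
    (rowF 0 true true true .up 2 0 3 (qsf 0 536870912 0 536870912 3) ndF0q2 ndF4q0 pcF3 Cut.none Ext.none)

def k0_pp_203 : ∃ t, chk3 f_pp_203 t 1 1 1 = true :=
  ⟨(l 5), by decide +kernel⟩

theorem c_pp_203 : CertF 0 536870912 0 536870912 134217728 67108864 true true true .up 2 0 3
    ndF0q2 ndF4q0 pcF3 Cut.none Ext.none :=
  certF0 (fam := true) (s1 := true) (s2 := true) (a := 2) (b := 0) (c := 3) (cn := .up) (n1 := ndF0q2) (n2 := ndF4q0) (pc := pcF3) (cut := Cut.none) (xt := Ext.none) (P1 := 0) (W1 := 536870912) (P2 := 0) (W2 := 536870912) (P3 := 134217728) (W3 := 67108864)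
    rfl k0_pp_203

noncomputable def f_pp_213 : ℕ → ℕ → ℕ → ℕ → Bool := onCell 0 536870912 536870912 536870912 134217728 67108864
    (rowF 0 true true true .pnn 2 1 3 (qsf 0 536870912 536870912 536870912 3) ndF0q2 ndF4q1 pcF3 Cut.none Ext.none)

def k0_pp_213 : ∃ t, chk3 f_pp_213 t 1 1 1 = true :=
  ⟨(l 4), by decide +kernel⟩

theorem c_pp_213 : CertF 0 536870912 536870912 536870912 134217728 67108864 true true true .pnn 2 1 3
    ndF0q2 ndF4q1 pcF3 Cut.none Ext.none :=
  certF0 (fam := true) (s1 := true) (s2 := true) (a := 2) (b := 1) (c := 3) (cn := .pnn) (n1 := ndF0q2) (n2 := ndF4q1) (pc := pcF3) (cut := Cut.none) (xt := Ext.none) (P1 := 0) (W1 := 536870912) (P2 := 536870912) (W2 := 536870912) (P3 := 134217728) (W3 := 67108864)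
    rfl k0_pp_213

noncomputable def f_pm_001 : ℕ → ℕ → ℕ → ℕ → Bool := onCell 0 536870912 0 536870912 134217728 67108864
    (rowF 0 true true false .up 0 0 1 (qsf 0 536870912 0 536870912 1) ndF0q0 ndF4q0 pcF1 Cut.none Ext.none)

def k0_pm_001 : ∃ t, chk3 f_pm_001 t 1 1 1 = true :=
  ⟨(a (l 3) (b (l 3) (a (l 3) (b (a (l 3) (b (l 3) (a (l 3) (l 341618695847)))) (c (a (b (l 3) (a (l 289542840023) (l 217601978055))) (b (a (l 280952514487) (l 215991306823)) (l 197738019431))) (a (b (l 3) (a (b (l 3) (a (l 3) (l 261088556631))) (b (l 284710732535) (l 205253881831)))) (b (a (l 284710543671) (l 186463404311)) (a (l 147808621239) (l 17349440))))))))), by decide +kernel⟩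

theorem c_pm_001 : CertF 0 536870912 0 536870912 134217728 67108864 true true false .up 0 0 1
    ndF0q0 ndF4q0 pcF1 Cut.none Ext.none :=
  certF0 (fam := true) (s1 := true) (s2 := false) (a := 0) (b := 0) (c := 1) (cn := .up) (n1 := ndF0q0) (n2 := ndF4q0) (pc := pcF1) (cut := Cut.none) (xt := Ext.none) (P1 := 0) (W1 := 536870912) (P2 := 0) (W2 := 536870912) (P3 := 134217728) (W3 := 67108864)
    rfl k0_pm_001

end Pool.Agent.Strip051.G.I1_8_3_16.Tab.C.FA04

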