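import Pool.Agent.Strip051.G.I1_8_3_16.Tab

/-! # Certificates F3 (generated) -/

set_option linter.all false
set_option maxRecDepth 100000

namespace Pool.Agent.Strip051.G.I1_8_3_16.Tab.C.FA04

open Pool.Agent.Strip051.PB Pool.Agent.Strip051.PB.T
open Pool.Agent.Strip051.G.I1_8_3_16.Tab

noncomputable def cut_pm_011 : Cut := Cut.of [[⟨0, 0, 0, 67108864⟩, ⟨1, 1, 0, 67108864⟩, ⟨2, 1, 0, 67108864⟩]]

noncomputable def f_pm_011 : ℕ → ℕ → ℕ → ℕ → Bool := onCell 0 536870912 536870912 536870912 134217728 67108864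
    (rowF 1 true true false .pnn 0 1 1 (qsf 0 536870912 536870912 536870912 1) ndF0q0 ndF4q1 pcF1 cut_pm_011 Ext.none)

def k0_pm_011 : ∃ t, chk3 f_pm_011 t 1 2 1 = true :=
  ⟨(l 3), by decide +kernel⟩

def k1_pm_011 : ∃ t, chk3 f_pm_011 t 2 6 1 = true :=
  ⟨(l 3), by decide +kernel⟩

def k2_pm_011 : ∃ t, chk3 f_pm_011 t 4 14 1 = true :=
  ⟨(l 3), by decide +kernel⟩

def k3_pm_011 : ∃ t, chk3 f_pm_011 t 8 15 1 = true :=
  ⟨(b (l 3) (a (b (l 3) (l 6)) (b (a (l 3) (b (l 3) (a (l 3) (b (l 3) (a (l 3) (a (l 3) (b (l 3) (c (c (l 47949235687) (l 16752792)) (l 16751968))))))))) (b (a (b (b (l 3) (l 6)) (l 6)) (b (a (b (b (l 3) (a (l 3) (c (a (l 3) (c (l 16757056) (l 16756408))) (l 16755248)))) (a (c (a (b (l 3) (l 6)) (c (a (l 16756120) (l 16755032)) (l 40433048567))) (b (l 16757440) (l 16755352))) (c (c (b (a (l 16757160) (l 16754920)) (a (l 16754808) (l 16757656))) (l 16754144)) (b (l 16754472) (l 16752080))))) (c (c (b (a (b (l 45264880759) (a (l 16754912) (l 16752648))) (l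 16750216)) (a (l 16750080) (l 16745200))) (b (a (l 16754128) (l 16749600)) (a (l 16749448) (l 16749840)))) (b (a (b (l 16753016) (l 16752240)) (l 16749408)) (a (b (l 16749848) (l 16752888)) (l 16749984))))) (a (c (c (b (a (l 16754528) (l 16749768)) (a (l 6) (b (l 16751144) (l 16749272)))) (b (a (l 16753880) (l 16749136)) (a (l 6) (l 16750608)))) (b (a (b (l 16754272) (l 6)) (l 16749120)) (l 16748688))) (c (b (a (b (l 16745256) (l 16743592)) (l 16740408)) (a (l 16740152) (l 16737912))) (b (l 16744312) (l 16742088)))))) (a (l 6) (b (a (a (l 6) (c (c (l 16739520) (l 16741096)) (c (l 16741632) (l 16747360)))) (c (c (b (l 16736568) (l 16739048)) (b (l 16742392) (l 16739592))) (b (l 16737920) (l 16740320)))) (a (l 6) (c (b (c (l 16746792) (l 16747304)) (c (l 16733592) (l 16734064))) (b (l 16737488) (l 16734672)))))))))), by decide +kernel⟩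

def k4_pm_011 : ∃ t, chk3 f_pm_011 t 9 30 1 = true :=
  ⟨(a (l 3) (b (l 3) (a (l 3) (a (l 3) (a (l 3) (a (l 3) (b (l 3) (b (l 3) (b (l 3) (c (c (c (l 26474565831) (l 16273945191)) (c (l 16810804887) (l 16748784))) (c (l 16733128) (l 16732264)))))))))))), by decide +kernel⟩

def k5_pm_011 : ∃ t, chk3 f_pm_011 t 18 62 1 = true :=
  ⟨(a (b (l 3) (b (b (l 3) (a (l 3) (a (l 3) (c (c (l 166060808199) (l 183240676535)) (l 207399866423))))) (a (c (b (a (l 3) (c (l 9831392103) (l 16747792))) (a (c (l 9294523207) (l 16749480)) (c (l 16745400) (l 16750096)))) (b (a (l 3) (l 197736199607)) (a (b (l 16749752) (l 16747672)) (l 16744104)))) (c (b (a (c (l 16745128) (l 16744632)) (c (b (l 16746800) (l 16744408)) (l 16745144))) (a (c (l 16745696) (l 16745200)) (a (l 16735744) (l 16733080)))) (b (a (b (l 16750272) (l 16748184)) (l 16744544)) (a (l 16744928) (l 16741368))))))) (b (a (l 3) (a (l 3) (a (l 3) (b (l 3) (c (c (l 205789245063) (l 200957399175)) (l 194514948487)))))) (b (a (c (c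 (b (a (l 3) (l 196662439543)) (a (b (l 16746248) (l 16744184)) (b (l 16741496) (l 16749584)))) (b (l 211694839543) (a (b (l 16745888) (l 16754296)) (b (l 16751688) (l 16749296))))) (b (a (l 3) (l 220821629335)) (a (b (l 16745392) (l 16743304)) (l 16740064)))) (c (c (b (a (b (l 205252366759) (a (l 16750512) (l 16747992))) (b (a (l 16747704) (l 16745808)) (l 16745160))) (a (b (a (l 16748160) (l 16746200)) (l 16745608)) (l 16743040))) (b (a (b (l 16751104) (l 16749024)) (l 16746136)) (a (l 16746576) (l 16743224)))) (b (a (l 16739728) (l 16735880)) (l 16729456)))) (a (c (c (a (b (b (l 16752272) (l 16749736)) (l 16747344)) (b (b (l 16747520) (l 16746104)) (l 16744008))) (b (a (b (l 16751896) (l 16749872)) (l 16747152)) (l 16735552))) (a (l 16734656) (l 16730480))) (c (c (a (l 16726368) (l 16728368)) (l 16724960)) (c (l 16730408) (l 16730584))))))), by decide +kernel⟩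

def k6_pm_011 : ∃ t, chk3 f_pm_011 t 38 124 1 = true :=
  ⟨(b (b (l 3) (a (l 3) (a (l 3) (c (c (c (a (l 3) (l 11442072519)) (l 38285537495)) (l 16725872)) (l 16726064))))) (a (c (b (a (l 3) (c (b (l 3) (l 12515735975)) (l 16746136))) (a (c (b (l 163376426839) (l 16744920)) (l 16746000)) (c (b (l 16743136) (l 16741576)) (l 16742336)))) (b (a (l 3) (l 16730296)) (a (l 16735584) (l 16731792)))) (c (b (a (c (c (a (l 16764248) (l 16810738135)) (l 16742296)) (l 16742160)) (c (c (b (l 8757695783) (l 16743608)) (l 16738712)) (l 16738496))) (c (c (a (l 16739128) (l 16731112)) (l 16726952)) (l 16726800))) (a (c (l 16729944) (l 16740288)) (c (l 16736816) (l 16736568)))))), by decide +kernel⟩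

def k7_pm_011 : ∃ t, chk3 f_pm_011 t 39 124 1 = true :=
  ⟨(c (b (a (c (b (a (l 3) (a (l 3) (c (l 11978964855) (l 12515830999)))) (a (c (b (l 11978949383) (l 14126430727)) (b (l 13589504679) (l 16748896))) (c (b (l 18421417431) (l 16801152)) (b (l 13589540839) (l 16749104))))) (b (a (l 3) (c (l 29695575111) (l 34527411927))) (c (a (l 37211766647) (l 17884427703)) (l 16723408)))) (c (b (a (c (b (l 14663339319) (l 20032041415)) (b (l 14126449783) (l 17884543911))) (c (a (l 18421474855) (l 16857472)) (b (l 18958294631) (l 16802168)))) (a (c (b (l 16826992) (l 16823232)) (a (l 16768344) (l 16778984))) (c (l 16847040) (l 16795064)))) (c (b (a (b (l 14663249623) (l 16754568)) (b (l 18421383559) (l 16753280))) (a (l 16722224) (l 16743168))) (b (a (l 16734568) (l 16731080)) (l 16729832))))) (a (c (b (a (c (b (l 16773424) (l 16766928)) (l 16736248)) (c (l 16793408) (l 16737928))) (a (c (l 16756112) (l 16732736)) (l 16772136))) (b (c (l 16723192) (l 16733440)) (l 16730848))) (c (b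 (a (c (l 16816768) (l 16760904)) (l 16812112)) (a (l 16776312) (l 16801416))) (b (c (l 16716536) (l 16727144)) (l 16724656))))) (c (b (a (b (l 16729536) (l 16725664)) (b (l 2315136503) (l 16729272))) (a (l 16721264) (l 16725272))) (b (a (b (l 16729032) (l 16735696)) (l 16717352)) (a (l 16731328) (l 16724608))))), by decide +kernel⟩

def k8_pm_011 : ∃ t, chk3 f_pm_011 t 19 125 1 = true :=
  ⟨(a (c (c (a (b (b (a (l 16742640) (l 16739464)) (l 16727752)) (b (l 16735472) (l 16732736))) (b (b (a (l 16736328) (l 16733200)) (l 16732024)) (b (l 16729312) (l 16726624)))) (b (a (b (l 16730576) (l 16738280)) (l 16718768)) (a (l 16723648) (l 16727784)))) (b (a (b (l 16725528) (l 16727832)) (c (l 16722520) (l 16732832))) (a (c (l 16734168) (l 16734184)) (l 16717040)))) (c (b (c (a (b (a (l 16730120) (l 16734368)) (l 16725928)) (b (l 16775288) (l 16759536))) (a (l 16711096) (l 16720688))) (c (a (a (l 16723464) (l 16720504)) (l 16752440)) (a (l 16721552) (l 16694512)))) (b (a (l 16711792)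 (l 16709192)) (a (l 16720944) (l 16714496))))), by decide +kernel⟩

def k9_pm_011 : ∃ t, chk3 f_pm_011 t 18 63 1 = true :=
  ⟨(b (a (b (a (c (b (a (c (l 16745384) (l 16750048)) (b (l 16740744) (l 16738848))) (a (b (l 16741256) (l 16739320)) (l 16735536))) (a (b (b (l 16750520) (l 16748528)) (l 16746376)) (l 16739624))) (c (a (b (b (l 16736576) (l 16735168)) (l 16733056)) (c (l 16730784) (l 16736496))) (c (l 16734728) (l 16733832)))) (a (a (c (c (l 16735504) (l 16741320)) (l 16738152)) (c (c (l 16732040) (l 16737816)) (l 16738528))) (c (c (b (l 16744048) (l 16741304)) (l 16729360)) (c (l 16733056) (l 16733424))))) (b (a (c (c (b (l 16732392) (l 16740120)) (b (l 16743248) (l 16740480))) (c (l 16731704) (l 16732000))) (c (c (b (l 16736336) (l 16733616)) (l 16724696)) (l 16722344))) (c (a (c (l 16721608) (l 16725880)) (c (l 16729584) (l 16729768))) (a (l 16726312) (l 16729976))))) (a (b (c (a (c (b (l 16745352) (l 16742624)) (l 16730064)) (c (l 16724128) (l 16727160))) (a (b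 (l 16736064) (l 16743744)) (l 16727688))) (c (a (b (l 16729672) (c (l 16737248) (l 16716696))) (b (l 16733432) (l 16720296))) (b (l 16726976) (b (l 16735400) (l 16734024))))) (c (b (a (c (l 16730680) (l 16730960)) (c (l 16724320) (l 16703472))) (b (c (l 16723544) (l 16723704)) (c (l 16720976) (l 16721096)))) (b (a (l 16731312) (l 16724576)) (b (l 16723864) (l 16721192)))))), by decide +kernel⟩

def k10_pm_011 : ∃ t, chk3 f_pm_011 t 19 63 1 = true :=
  ⟨(b (a (c (b (a (c (l 16728680) (l 16728704)) (c (l 16722632) (l 16722448))) (c (a (l 16723376) (l 16696432)) (a (l 16702400) (l 16696216)))) (b (a (l 16718232) (l 16722160)) (a (l 16723320) (l 16695872)))) (c (b (c (a (l 16716776) (l 16711088)) (l 16700208)) (c (a (l 16690712) (l 16685144)) (l 16708240))) (b (c (l 16712760) (l 16712224)) (l 16696888)))) (c (a (b (a (l 16703744) (l 16701680)) (c (a (l 16692144) (l 16686344)) (l 16699440))) (a (b (l 16706416) (l 16685744)) (b (l 16700856) (l 16680320)))) (a (b (l 16704264) (a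 (l 16691768) (l 16685448))) (b (l 16702296) (l 16697272))))), by decide +kernel⟩

def k11_pm_011 : ∃ t, chk3 f_pm_011 t 5 14 1 = true :=
  ⟨(a (l 3) (b (l 3) (b (l 3) (a (l 3) (c (l 95731278871) (c (l 140828453703) (a (l 3) (l 109689894807)))))))), by decide +kernel⟩

def k12_pm_011 : ∃ t, chk3 f_pm_011 t 20 30 1 = true :=
  ⟨(b (l 3) (c (a (b (l 3) (a (b (l 3) (a (b (l 3) (c (c (l 15737170039) (b (l 17884565175) (l 19495174743))) (c (b (l 20568917191) (l 18958300951)) (l 18958225367)))) (c (c (b (l 16874312) (l 16895280)) (b (l 25937676839) (l 20568958967))) (b (c (l 21642669207) (l 17347662087)) (c (l 21105794071) (l 22179485559)))))) (c (b (a (l 3) (c (l 16929024) (l 39359527079))) (a (c (l 18958476551) (b (l 16810907335) (l 16869112))) (c (l 16934240) (l 21642784647)))) (b (a (l 3) (c (l 29695780327) (l 27548267847))) (a (b (c (l 17884580711) (l 17347696951)) (c (l 16823288) (l 16777568))) (b (c (l 16847128) (l 16804144)) (l 16819128))))))) (a (b (l 3) (c (b (c (l 19495416151)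 (a (l 16810982567) (l 16925432))) (c (l 16963152) (l 16896824))) (b (a (b (l 3) (l 18958339143)) (b (l 29695770199) (l 16822768))) (a (b (l 16822448) (l 16837960)) (l 16838216))))) (b (a (l 3) (c (l 64055697831) (b (l 3) (l 40433256407)))) (c (b (l 23790377527) (l 16978304)) (b (a (b (l 16862368) (l 16881808)) (l 16878512)) (l 16844784)))))) (b (b (l 3) (b (l 3) (a (l 3) (a (l 3) (c (l 37211971991) (l 21642515095)))))) (a (b (a (l 3) (a (l 3) (b (l 3) (c (l 22179500823) (l 16725560))))) (a (a (c (b (l 3) (l 16730320)) (l 16720928)) (c (b (l 31843041575) (l 16726832)) (l 16717112))) (c (b (a (l 19495100775) (l 23253229927)) (c (l 16741000) (l 16721832))) (l 16810635191)))) (c (a (b (a (b (l 3) (l 17884566775)) (b (l 35064472791) (l 16803928))) (a (b (l 16756808) (l 16745320)) (l 16768952))) (b (a (l 21642705879) (l 16818760)) (l 16816704))) (b (b (a (l 22716216167) (l 17347546663)) (a (l 16720160) (l 16725048))) (a (l 16715952) (l 16705336)))))))), by decide +kernel⟩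

def k13_pm_011 : ∃ t, chk3 f_pm_011 t 21 30 1 = true :=
  ⟨(b (b (l 3) (a (l 3) (a (l 3) (a (l 3) (b (l 3) (c (l 17034280) (c (l 16940312) (l 44728196215)))))))) (c (a (b (c (a (b (l 3) (l 16995768)) (l 17021504)) (a (b (l 3) (a (l 16274096135) (l 16930720))) (l 15737293079))) (c (a (b (l 17006968) (l 17015544)) (l 17046936)) (a (b (l 16882680) (l 16923192)) (l 16958872)))) (b (c (l 17069240) (l 20569201271)) (c (l 17098456) (l 17009624)))) (a (a (b (b (l 3) (a (c (l 16810890983) (l 22716292343)) (c (l 16857864) (l 29695632071)))) (c (b (a (l 16834832) (l 16850960)) (l 16831496)) (b (a (l 16754016) (l 16769568)) (l 16740440)))) (b (c (b (l 16881728) (l 16880216)) (b (c (l 27548259527) (b (l 3) (l 27548184679))) (c (l 16825120) (b (l 12515786151) (l 16784992))))) (c (l 16850528) (b (l 16793080) (l 16775552))))) (c (b (a (l 25937772391) (l 16939000)) (l 16879624)) (b (b (c (a (l 26474570087) (l 16886632)) (a (b (l 25937631399) (l 27011364967)) (b (l 29695778599) (l 16851080))))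 (a (a (l 16807264) (l 16842528)) (l 16843024))) (b (a (l 16824488) (l 16855720)) (l 16827560))))))), by decide +kernel⟩

def k14_pm_011 : ∃ t, chk3 f_pm_011 t 10 62 1 = true :=
  ⟨(a (c (a (b (a (b (c (a (b (c (l 16872992) (l 16803488)) (l 16800872)) (c (l 16892504) (b (l 16844768) (l 16838304)))) (a (b (c (l 16797000) (l 16727696)) (l 16759280)) (b (l 16802312) (l 16759536)))) (c (a (c (l 16860344) (l 16801904)) (l 16855072)) (a (l 16756392) (l 16738328)))) (c (b (c (l 16924408) (a (l 16862712) (l 16883664))) (l 16848648)) (b (a (b (l 16791376) (l 16780864)) (l 16806936)) (l 16794904)))) (b (c (a (l 16802320) (l 16877024)) (a (l 16714800) (l 16744536))) (c (a (l 16796000) (l 16857240)) (a (l 16688712) (l 16707432))))) (b (c (a (b (l 16940640) (l 16936896)) (l 16961192)) (a (b (l 16816848) (l 16820648)) (b (l 16878576) (l 16866168)))) (b (c (l 16911664) (l 16802672)) (c (l 16942936) (l 16797720))))) (b (a (b (a (c (b (l 16725624) (l 16722976)) (l 16723312)) (c (b (l 16703104)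 (l 16716920)) (l 16716944))) (a (c (l 16719024) (l 16718088)) (c (l 16713032) (l 16690824)))) (b (c (a (l 16756528) (l 16776088)) (a (l 16710824) (l 16683992))) (c (a (l 16705000) (l 16751248)) (l 16702792)))) (a (a (b (l 16713376) (l 16687288)) (b (l 16707304) (l 16681296))) (b (c (l 16694336) (l 16697808)) (c (l 16673600) (l 16671920)))))) (c (a (b (c (a (l 17023728) (l 17063856)) (a (l 16914904) (l 16955600))) (c (l 17047496) (a (l 16889920) (l 16938952)))) (b (c (l 17121288) (l 17014088)) (c (l 17136080) (l 17007848)))) (a (b (a (c (l 16806784) (l 16699368)) (c (l 16848104) (l 16741368))) (a (c (l 16756792) (l 16666176)) (l 16743136))) (b (c (l 16907720) (b (l 16811576) (l 16791808))) (c (l 16880520) (l 16754104)))))), by decide +kernel⟩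

def k15_pm_011 : ∃ t, chk3 f_pm_011 t 10 63 1 = true :=
  ⟨(a (c (b (a (b (c (a (l 16760048) (l 16830272)) (l 16701864)) (c (l 16755408) (l 16676016))) (c (b (l 16926784) (l 16904336)) (b (l 16764968) (l 16724432)))) (b (a (c (l 16704408) (l 16671232)) (c (l 16874648) (l 16674976))) (a (c (l 16688840) (l 16666560)) (c (l 16836600) (l 16656696))))) (b (a (b (l 16700200) (l 16695272)) (c (l 16678152) (l 16685608))) (a (b (l 16669432) (l 16664648)) (b (l 16658424) (l 16653800))))) (c (b (a (c (l 17036464) (l 16875568)) (l 16938256)) (a (b (l 16881352) (l 16830696)) (c (l 17131176) (l 16950792)))) (b (a (a (l 16678768) (l 16668848)) (l 16761192)) (a (b (l 16648512) (l 16644048)) (l 16745112))))), by decide +kernel⟩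

def k16_pm_011 : ∃ t, chk3 f_pm_011 t 11 15 1 = true :=
  ⟨(b (a (c (b (a (b (l 3) (l 28085464823)) (l 32917372279)) (a (b (l 17093008) (l 17119080)) (l 17165968))) (b (b (c (l 113984801383) (a (l 3) (l 90362425015))) (c (a (l 27548484407) (l 17021216)) (a (c (a (l 26474675351) (l 16915776)) (a (b (l 3) (a (l 27011480663) (l 28622117479))) (b (l 60297526007) (l 31306500023)))) (a (c (l 16961584) (l 31306551687)) (l 16949360))))) (a (c (b (l 16981616) (l 16986096)) (b (a (b (c (l 16913480) (l 16878936)) (l 16892520)) (c (l 16940296) (l 16903656))) (a (l 16882680) (l 16914152)))) (c (l 17042968) (b (a (l 16948984) (l 16975640)) (l 16959968)))))) (c (b (a (l 17151496) (l 17202104)) (l 17248960)) (b (a (c (l 17017904) (b (l 33454115431) (l 17006184))) (b (l 38822911111) (l 17086104))) (a (b (l 17031448) (l 17061704)) (l 17089376))))) (a (c (b (a (b (l 17139776) (l 17153552)) (l 17217576)) (a (b (l 17158472) (l 17152072)) (l 17245544))) (b (a (b (c (l 16982416) (l 16878672))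 (l 16907392)) (b (l 17000536) (l 16988752))) (b (a (l 16870416) (l 16966240)) (a (l 16816128) (l 16930504))))) (c (b (l 17311472) (l 17358552)) (b (a (l 16980968) (l 17128104)) (a (l 17041464) (l 17121864)))))), by decide +kernel⟩

def k17_pm_011 : ∃ t, chk3 f_pm_011 t 3 3 1 = true :=
  ⟨(b (a (l 3) (a (l 3) (l 1))) (a (b (a (b (l 3) (c (a (b (l 3) (l 17172784)) (l 64593028439)) (a (b (l 3) (c (l 47412969191) (a (l 43117891671) (l 46876069319)))) (b (l 133849309335) (c (l 17202792) (l 52244884295)))))) (a (b (l 3) (c (l 17330168) (b (l 58150516647) (l 17254344)))) (b (c (l 159619294087) (l 133312574119)) (c (l 17411264) (b (l 17274168) (l 17328912)))))) (b (a (c (a (b (l 17273728) (l 17349184)) (l 17401192)) (a (b (a (l 17037584) (l 17165088)) (l 17121416)) (b (l 17227952) (l 17274640)))) (c (l 17521632) (a (l 17332712) (l 17407824)))) (a (b (c (l 17468248) (a (l 17213784) (l 17313968))) (c (l 17534208) (a (l 17226128) (l 17342216)))) (c (l 17670200) (a (l 17421696) (l 17502680))))))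 (b (b (a (c (l 106469346071) (a (l 80699378631) (l 122977946503))) (l 1)) (a (c (l 17523560) (a (l 17373808) (l 17442496))) (l 129957745255))) (b (a (c (l 17663312) (l 17512008)) (l 17711832)) (a (c (l 17805080) (l 17609048)) (l 17824712)))))), by decide +kernel⟩

theorem s18_pm_011 : ∃ t, chk3 f_pm_011 t 10 31 1 = true := ex3_b k14_pm_011 k15_pm_011

theorem s19_pm_011 : ∃ t, chk3 f_pm_011 t 10 30 1 = true := ex3_a k12_pm_011 k13_pm_011

theorem s20_pm_011 : ∃ t, chk3 f_pm_011 t 10 15 1 = true := ex3_b s19_pm_011 s18_pm_011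

theorem s21_pm_011 : ∃ t, chk3 f_pm_011 t 5 15 1 = true := ex3_a s20_pm_011 k16_pm_011

theorem s22_pm_011 : ∃ t, chk3 f_pm_011 t 5 7 1 = true := ex3_b k11_pm_011 s21_pm_011

theorem s23_pm_011 : ∃ t, chk3 f_pm_011 t 9 63 1 = true := ex3_a k9_pm_011 k10_pm_011

theorem s24_pm_011 : ∃ t, chk3 f_pm_011 t 19 124 1 = true := ex3_a k6_pm_011 k7_pm_011

theorem s25_pm_011 : ∃ t, chk3 f_pm_011 t 19 62 1 = true := ex3_b s24_pm_011 k8_pm_011

theorem s26_pm_011 : ∃ t, chk3 f_pm_011 t 9 62 1 = true := ex3_a k5_pm_011 s25_pm_011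

theorem s27_pm_011 : ∃ t, chk3 f_pm_011 t 9 31 1 = true := ex3_b s26_pm_011 s23_pm_011

theorem s28_pm_011 : ∃ t, chk3 f_pm_011 t 9 15 1 = true := ex3_b k4_pm_011 s27_pm_011

theorem s29_pm_011 : ∃ t, chk3 f_pm_011 t 4 15 1 = true := ex3_a k3_pm_011 s28_pm_011

theorem s30_pm_011 : ∃ t, chk3 f_pm_011 t 4 7 1 = true := ex3_b k2_pm_011 s29_pm_011

theorem s31_pm_011 : ∃ t, chk3 f_pm_011 t 2 7 1 = true := ex3_a s30_pm_011 s22_pm_011

theorem s32_pm_011 : ∃ t, chk3 f_pm_011 t 2 3 1 = true := ex3_b k1_pm_011 s31_pm_011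

theorem s33_pm_011 : ∃ t, chk3 f_pm_011 t 1 3 1 = true := ex3_a s32_pm_011 k17_pm_011

theorem s34_pm_011 : ∃ t, chk3 f_pm_011 t 1 1 1 = true := ex3_b k0_pm_011 s33_pm_011

theorem c_pm_011 : CertF 0 536870912 536870912 536870912 134217728 67108864 true true false .pnn 0 1 1
    ndF0q0 ndF4q1 pcF1 cut_pm_011 Ext.none :=
  certF1 (fam := true) (s1 := true) (s2 := false) (a := 0) (b := 1) (c := 1) (cn := .pnn) (n1 := ndF0q0) (n2 := ndF4q1) (pc := pcF1) (cut := cut_pm_011) (xt := Ext.none) (P1 := 0) (W1 := 536870912) (P2 := 536870912) (W2 := 536870912) (P3 := 134217728) (W3 := 67108864)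
    rfl (fun _ => rfl) s34_pm_011

noncomputable def cut_pm_012 : Cut := Cut.of [[⟨0, 0, 0, 67108864⟩, ⟨1, 1, 0, 67108864⟩, ⟨2, 1, 0, 67108864⟩]]

noncomputable def f_pm_012 : ℕ → ℕ → ℕ → ℕ → Bool := onCell 1073741824 536870912 536870912 536870912 134217728 67108864
    (rowF 2 true true false .pnp 0 1 2 (qsf 0 536870912 536870912 536870912 2) ndF0q0 ndF4q1 pcF2 cut_pm_012 Ext.none)

def k0_pm_012 : ∃ t, chk3 f_pm_012 t 2 2 1 = true :=
  ⟨(a (b (a (a (b (l 18024576) (c (l 18021784) (l 17800104))) (b (l 18167400) (l 18076288))) (a (a (l 18227088) (b (l 2) (l 18244008))) (a (l 18319360) (l 18357536)))) (a (a (b (c (l 17894584) (a (l 17599688) (l 17697776))) (c (a (l 17665096) (l 17788192)) (a (b (l 17448752) (a (l 17291128) (l 17351320))) (l 17419432)))) (c (b (l 18089616) (l 17960944)) (b (l 17837608) (a (l 17614824) (l 17721976))))) (a (a (b (l 18093816) (l 17970936)) (b (l 18163960) (c (l 18205128) (l 18039272)))) (a (b (l 18225408) (c (l 18281776) (l 17995096))) (b (l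 18281760) (l 18211672)))))) (a (a (b (a (l 18386968) (l 2)) (a (b (l 18329888) (l 18276232)) (a (l 18343008) (l 18618792)))) (b (l 2) (l 18409312))) (b (l 2) (a (l 18462272) (l 18502224))))), by decide +kernel⟩

def k1_pm_012 : ∃ t, chk3 f_pm_012 t 8 6 1 = true :=
  ⟨(b (a (a (c (b (l 17393600) (a (c (l 17352648) (l 17153656)) (l 17239712))) (b (a (b (l 17171920) (l 16994440)) (l 17192304)) (a (b (c (l 17055384) (l 16885032)) (a (l 16741760) (l 16861256))) (b (l 17040000) (l 16916432))))) (c (b (l 17621240) (b (l 17509168) (l 17418392))) (b (l 17291440) (b (l 17147640) (l 17009744))))) (c (b (l 17824912) (a (l 17622488) (l 17771496))) (b (a (l 17422240) (l 17549192)) (a (l 17094024) (l 17387120))))) (a (a (b (c (a (b (c (l 17187456) (l 16989008)) (c (l 16965880) (a (l 16812344) (l 16856000)))) (b (l 17155368) (l 16825472))) (a (b (a (l 16674792) (l 16711528)) (a (l 16626064) (l 16619224))) (b (l 16769344) (l 16612432)))) (a (c (b (a (c (l 16814568) (l 16645232)) (l 16689760))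 (a (c (a (l 16663112) (l 16657856)) (l 16658424)) (c (l 16697272) (l 16651480)))) (b (a (l 16639680) (l 16632576)) (a (c (l 16655592) (l 16652928)) (l 16646896)))) (c (b (c (l 16984296) (l 16739144)) (c (l 16780384) (l 16641136))) (b (l 16621968) (l 16635944))))) (b (c (b (l 17100624) (c (l 17294248) (l 17065048))) (b (l 16807424) (a (l 16677712) (l 16767864)))) (c (b (a (l 16755784) (l 16903680)) (a (c (l 16896848) (l 16617136)) (c (l 17016264) (l 16732984)))) (b (a (l 16608032) (l 16573328)) (a (l 16621512) (l 16607240)))))) (b (c (a (b (l 17486088) (l 17266408)) (l 17418616)) (a (b (l 17058976) (l 16885112)) (a (l 17117608) (l 17203680)))) (a (c (b (c (l 17358088) (l 17101776)) (a (l 16762552) (l 16922264))) (b (a (l 16666568) (l 16769880)) (c (l 16625232) (l 16584120)))) (c (b (l 17182920) (c (l 17424744) (l 17141856))) (b (a (l 16872960) (l 16974728)) (a (l 16659656) (l 16775920)))))))), by decide +kernel⟩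

def k2_pm_012 : ∃ t, chk3 f_pm_012 t 9 6 1 = true :=
  ⟨(a (a (b (c (l 17964816) (b (l 17670752) (l 17527728))) (c (b (l 17772584) (c (l 17699560) (l 17393328))) (b (l 17182504) (b (l 17123272) (l 16777688))))) (b (c (a (l 18055032) (l 18111376)) (a (l 17696736) (l 17755320))) (c (b (a (l 17887744) (l 17960024)) (a (l 17583792) (l 17798920))) (b (a (l 17449104) (l 17525528)) (a (a (l 17082088) (l 17005392)) (b (l 17355368) (l 17062992))))))) (b (a (c (l 18182424) (b (l 17881320) (l 17775864))) (c (l 18276520) (l 17934328))) (a (c (b (l 18056200) (a (l 17882440) (l 17962056))) (b (a (l 17597648) (l 17667240)) (a (b (l 17441216) (l 17307720)) (l 17465808)))) (c (b (l 18178824) (l 18072472)) (b (l 17764864) (a (l 17549752) (l 17629808))))))), by decide +kernel⟩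

def k3_pm_012 : ∃ t, chk3 f_pm_012 t 16 14 1 = true :=
  ⟨(a (b (a (b (a (c (c (a (l 16676288) (l 16672800)) (l 16672376)) (c (l 16670352) (l 16668448))) (c (c (l 16667592) (l 16665184)) (l 16661824))) (b (c (a (c (l 16684888) (l 16683288)) (l 16676824)) (l 16668184)) (c (a (c (l 16692056) (l 16690784)) (l 16684040)) (l 16677240)))) (c (b (c (l 16657264) (l 16654472)) (c (l 16665264) (l 16668504))) (b (l 16650552) (l 16665672)))) (a (b (a (c (b (c (l 16699424) (l 16698448)) (c (l 16696504) (l 16706280))) (b (l 16697096) (l 16694808))) (c (c (l 16695720) (l 16694688)) (l 16693240))) (a (c (b (a (l 16702648) (l 16712552)) (a (b (l 16711920) (l 16710704)) (l 16710016))) (b (l 16703088) (a (l 16724024) (l 16719880)))) (c (c (b (l 16707120) (l 16714896)) (l 16702536)) (b (l 16705536) (l 16713808))))) (b (c (a (c (l 16688328) (l 16687088)) (c (l 16681000) (l 16679552))) (a (l 16685336) (l 16677488))) (c (b (c (l 16695808) (l 16694872)) (c (l 16692936) (l 16702728))) (b (l 16693536)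 (l 16693840)))))) (b (c (b (a (c (l 16646328) (l 16640384)) (c (l 16781112) (l 16605528))) (a (c (l 16656448) (l 16653952)) (c (l 16642608) (l 16618624)))) (b (a (l 16635688) (l 16620976)) (a (l 16650408) (l 16635296)))) (c (b (a (c (b (l 16645672) (l 16652712)) (l 16668320)) (c (l 16650536) (l 16653528))) (a (b (c (l 16680920) (l 16658616)) (c (l 16688336) (l 16687264))) (c (b (l 16645280) (l 16652472)) (b (l 16643520) (l 16651008))))) (b (a (c (l 16666600) (l 16664944)) (l 16650288)) (a (b (l 16677656) (l 16685696)) (c (l 16666600) (l 16665056))))))), by decide +kernel⟩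

def k4_pm_012 : ∃ t, chk3 f_pm_012 t 16 15 1 = true :=
  ⟨(a (b (a (b (a (b (a (c (b (l 16714760) (l 6)) (l 16722200)) (c (l 16715472) (l 16728256))) (l 6)) (c (b (c (l 16722808) (l 16722536)) (c (l 16720360) (l 16730704))) (b (l 16722128) (l 16720008)))) (l 6)) (a (b (c (b (l 16704360) (c (l 16722992) (l 16722720))) (b (l 16714000) (l 16722296))) (l 6)) (b (c (b (l 16696584) (c (l 16694224) (l 16693808))) (b (l 16684936) (l 16693160))) (a (l 6) (b (c (l 16710392) (l 16699232)) (l 6)))))) (l 6)) (b (c (b (a (b (c (l 16685416) (l 16695064)) (c (a (l 16686480) (l 16678792)) (l 16692456))) (b (c (l 16680816) (l 16658632)) (c (l 16677832) (l 16676840)))) (a (b (a (c (l 16694176) (l 16693760)) (c (l 16686392) (l 16685824))) (a (l 6) (c (l 16704568) (l 16693648)))) (b (c (a (l 16678656) (l 16670992)) (a (l 16677936) (l 16670104))) (c (a (l 16686248) (l 16678488)) (a (l 16685672) (l 16677768)))))) (b (a (b (l 16688560) (c (l 16691800) (l 16691128))) (b (l 16667312) (a (l 16668880)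 (l 16660848)))) (a (b (a (l 16693088) (l 16684936)) (a (l 6) (l 16703416))) (b (a (l 16676816) (l 16668736)) (a (l 16684752) (l 16676616)))))) (a (l 6) (a (l 6) (a (l 6) (b (b (b (c (l 16681944) (l 16680528)) (l 6)) (l 6)) (l 6))))))), by decide +kernel⟩

def k5_pm_012 : ∃ t, chk3 f_pm_012 t 17 14 1 = true :=
  ⟨(b (a (c (b (a (c (l 16917336) (l 16595864)) (c (l 17052312) (l 16731736))) (a (c (l 16628400) (l 16604880)) (c (l 16787368) (l 16591528)))) (b (c (l 16602048) (l 16597592)) (a (l 16620712) (l 16585496)))) (c (b (a (c (l 17184296) (l 16865960)) (c (l 17312104) (l 16997000))) (a (c (l 16942840) (l 16580504)) (c (l 17093096) (l 16735960)))) (b (a (l 16558264) (l 16544688)) (a (l 16571344) (l 16557296))))) (a (b (c (a (c (l 16642136) (l 16618384)) (c (l 16628920) (l 16604592))) (a (l 16635344) (l 16620720))) (c (a (c (b (l 16631288) (l 16638264)) (l 16653600)) (c (b (l 16617736) (l 16624488)) (l 16639408))) (a (b (l 16625760) (l 16633480)) (b (l 16610888) (l 16618448)))))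 (c (b (a (c (l 16617192) (l 16590936)) (c (l 16715904) (l 16577416))) (a (c (l 16618024) (l 16604376)) (c (b (l 16591104) (l 16597424)) (l 16590448)))) (b (a (l 16585224) (l 16591776)) (a (l 16620728) (c (l 16586792) (l 16583208))))))), by decide +kernel⟩

def k6_pm_012 : ∃ t, chk3 f_pm_012 t 17 30 1 = true :=
  ⟨(a (b (c (a (b (c (l 16645416) (l 16643768)) (c (l 16652728) (l 16651328))) (c (b (l 16631432) (l 16638528)) (b (l 16629296) (l 16636672)))) (a (b (l 16641312) (l 16659704)) (b (l 16626128) (l 16633880)))) (c (a (b (c (a (l 16663632) (l 16656400)) (l 16658816)) (c (a (l 16671040) (l 16663720)) (a (l 16670144) (l 16662632)))) (b (c (l 16656104) (l 16644008)) (c (a (l 16656440) (l 16649200)) (l 16661888)))) (a (b (c (l 16657616) (l 16656392)) (a (l 16668720) (l 16660928))) (b (c (l 16642384) (l 16640744)) (c (l 16649976) (l 16648520)))))) (b (c (a (c (b (l 16617600) (l 16624488)) (b (l 16614952) (l 16622144))) (c (b (l 16603936) (l 16610616)) (b (l 16600744) (l 16607752))))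 (a (b (l 16611032) (l 16618648)) (c (b (l 16597592) (l 16604912)) (l 16619216)))) (c (a (b (c (l 16631376) (l 16629304)) (c (b (l 16636632) (l 16640168)) (l 16636560))) (c (b (l 16627792) (a (l 16627664) (l 16620592))) (b (l 16614744) (l 16621824)))) (a (b (l 16636672) (c (l 16634704) (l 16632832))) (b (c (l 16612184) (l 16609624)) (c (l 16619512) (l 16617192))))))), by decide +kernel⟩

def k7_pm_012 : ∃ t, chk3 f_pm_012 t 17 62 1 = true :=
  ⟨(a (c (b (a (c (a (b (l 16676688) (l 16680480)) (l 16671160)) (a (l 16677808) (l 16670224))) (c (a (l 16663792) (l 16656464)) (b (l 16657032) (l 16660792)))) (b (a (c (a (l 6) (l 16676824)) (l 16679792)) (c (a (l 16669384) (l 16661992)) (l 16664576))) (a (l 6) (c (a (l 16673152) (l 16665704)) (l 16668376))))) (b (a (b (c (l 16671176) (l 16670208)) (c (l 16675072) (l 16674160))) (c (b (l 16655728) (l 16659568)) (l 16656328))) (a (b (c (l 16678984) (l 16678112)) (l 6)) (c (b (l 16663416) (l 16667272)) (b (l 16662200) (l 16666104))))))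 (c (a (b (c (b (l 16643736) (l 16647336)) (b (l 16642072) (l 16645768))) (c (b (l 16650960) (c (l 16654952) (l 16654264))) (b (l 16649480) (l 16653208)))) (a (b (c (l 16634672) (l 16632736)) (c (b (l 16640016) (l 16643608)) (l 16640056))) (b (c (l 16627512) (l 16625344)) (c (b (l 16632792) (l 16636344)) (l 16632600))))) (a (b (c (l 16642240) (l 16640544)) (c (b (l 16647944) (l 16651744)) (b (l 16646352) (l 16650216)))) (b (c (a (l 16630760) (l 16623144)) (l 16624816)) (c (a (l 16638264) (l 16630592)) (a (l 16636416) (l 16628536))))))), by decide +kernel⟩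

def k8_pm_012 : ∃ t, chk3 f_pm_012 t 17 63 1 = true :=
  ⟨(a (a (l 6) (b (b (a (l 6) (a (l 6) (c (c (l 16667584) (l 16666472)) (l 16664672)))) (l 6)) (l 6))) (c (b (a (c (b (c (l 16658616) (l 16657960)) (c (a (l 16666016) (l 16658608)) (a (l 16665440) (l 16657944)))) (b (c (l 16657288) (l 16656608)) (c (l 16661040) (l 16660384)))) (c (b (c (a (l 16647616) (l 16640360)) (l 16643136)) (c (a (l 16651240) (l 16643944)) (a (l 16650480) (l 16643088)))) (b (c (l 16642272) (l 16641400)) (c (l 16645952) (l 16645112))))) (a (a (l 6) (b (b (c (l 16661056) (l 16659736)) (l 6)) (l 6))) (c (b (a (c (l 16654888) (l 16654160)) (c (b (l 16646648) (l 16648456)) (l 16646728))) (a (b (c (l 16657640) (l 16656936)) (l 6)) (c (b (c (l 16650464) (l 16650072)) (a (l 16653912) (l 16650280))) (b (l 16649480) (c (l 16651512) (l 16651112)))))) (b (a (c (l 16653416) (l 16652656)) (c (l 16645888) (l 16645040))) (a (b (l 16655848) (l 6)) (c (b (l 16648664) (l 16650512)) (b (l 16647832) (l 16649696))))))))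 (b (a (c (b (l 16655552) (a (l 16663280) (l 16655472))) (b (l 16654080) (l 16657952))) (c (b (a (l 16643920) (l 16636216)) (a (l 16647696) (l 16639960))) (a (l 16644088) (b (l 16634272) (l 16638088))))) (a (a (l 6) (b (c (l 16659288) (l 16657824)) (l 6))) (c (b (a (l 16651480) (c (l 16644160) (l 16643272))) (a (c (l 16655656) (l 16654880)) (c (b (l 16646976) (l 16648856)) (l 16647048)))) (b (a (l 16649840) (l 16641896)) (a (l 16653680) (c (l 16646160) (l 16645256))))))))), by decide +kernel⟩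

def k9_pm_012 : ∃ t, chk3 f_pm_012 t 36 14 1 = true :=
  ⟨(b (c (b (c (l 17494400) (l 17185448)) (c (l 17096832) (l 16727880))) (b (a (l 16657376) (l 16786024)) (c (l 16610648) (l 16533632)))) (c (b (c (a (l 16889888) (l 17117600)) (a (l 16571384) (l 16745632))) (c (a (l 16592264) (l 16650720)) (a (l 16576888) (l 16563480)))) (b (c (l 16573200) (l 16546944)) (a (c (l 16572608) (l 16568424)) (c (l 16558544) (l 16553728)))))), by decide +kernel⟩

def k10_pm_012 : ∃ t, chk3 f_pm_012 t 36 30 1 = true :=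
  ⟨(c (b (c (b (a (l 16590696) (l 16577648)) (a (l 16597168) (l 16583920))) (b (l 16600976) (a (l 16593728) (l 16579856)))) (c (b (a (l 16603656) (l 16590200)) (a (l 16620752) (l 16596624))) (b (a (l 16600536) (l 16586488)) (a (l 16607448) (l 16593232))))) (b (a (c (l 16586680) (l 16583168)) (c (l 16572288) (l 16568176))) (a (b (c (l 16597440) (l 16594352)) (c (l 16604624) (l 16601800))) (c (b (l 16582816) (l 16589856)) (b (l 16579168) (l 16586488)))))), by decide +kernel⟩

def k11_pm_012 : ∃ t, chk3 f_pm_012 t 36 62 1 = true :=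
  ⟨(c (b (c (a (c (l 16617672) (l 16616400)) (c (l 16603976) (l 16602432))) (a (b (l 16612728) (l 16616280)) (l 16600104))) (b (c (a (c (l 16622816) (l 16621640)) (l 16608256)) (a (l 16619856) (l 16605352))) (c (a (c (l 16626280) (l 16625152)) (c (l 16612344) (l 16610960))) (a (l 16623448) (l 16608880))))) (b (a (c (l 16611904) (l 16609304)) (c (l 16597000) (l 16593888))) (c (a (b (l 16617440) (l 16621136)) (b (l 16602432) (l 16606064))) (a (l 16616864) (l 16601336))))), by decide +kernel⟩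

def k12_pm_012 : ∃ t, chk3 f_pm_012 t 36 63 2 = true :=
  ⟨(b (c (a (b (c (l 16629768) (l 16628696)) (c (a (l 16636832) (l 16629760)) (l 16632264))) (b (c (l 16615744) (l 16614424)) (c (a (l 16622712) (l 16615672)) (l 16617920)))) (a (b (c (l 16627608) (l 16626512)) (c (l 16631224) (l 16630168))) (b (c (l 16613096) (l 16611752)) (c (l 16616640) (l 16615344))))) (c (a (b (c (a (l 16639080) (b (l 16632400) (l 16634168))) (a (l 16639464) (l 16632240))) (c (a (b (l 16643088) (c (l 16645104) (l 16644664))) (b (l 16635944) (c (l 16637968) (l 16637472)))) (a (b (l 16642184) (l 16644000)) (b (l 16634936) (c (l 16636984) (l 16636480)))))) (b (c (a (l 16626192) (l 16619120)) (a (l 16625040) (l 16617840))) (c (a (b (l 16628824) (c (l 16630856) (l 16630304))) (b (l 16621720) (c (l 16623760) (l 16623160)))) (a (b (l 16627704) (c (l 16629760) (l 16629200))) (b (l 16620480) (c (l 16622552) (l 16621936))))))) (a (b (c (a (l 16638528) (l 16631184)) (a (l 16637560) (l 16630112))) (b (c (a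 (l 16641272) (l 16633904)) (l 16636592)) (c (a (l 16643104) (l 16635720)) (a (l 16642176) (l 16634696))))) (b (c (a (l 16623864) (l 16616552)) (a (l 16622680) (l 16615248))) (b (c (a (l 16626560) (l 16619224)) (l 16621672)) (c (a (l 16628360) (l 16621008)) (a (l 16627224) (l 16619760)))))))), by decide +kernel⟩

def k13_pm_012 : ∃ t, chk3 f_pm_012 t 36 63 3 = true :=
  ⟨(b (c (a (b (l 16624840) (c (l 16629096) (l 16628008))) (b (l 16609720) (c (l 16614040) (l 16612720)))) (a (b (l 16622560) (l 16626352)) (b (l 16606968) (l 16610720)))) (a (c (b (c (l 16632792) (l 16631744)) (c (a (l 16640304) (l 16632720)) (a (l 16639336) (l 16631648)))) (b (c (l 16630680) (l 16629592)) (a (c (l 16638352) (l 16637344)) (c (l 16630552) (l 16629448))))) (c (b (c (a (l 16621480) (l 16613928)) (l 16616416)) (c (a (l 16625144) (b (l 16616664) (l 16618488))) (a (l 16623960) (l 16616280)))) (b (c (l 16615120) (l 16613816)) (c (a (l 16622760) (l 16614968)) (a (l 16621544) (l 16613640))))))), by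 decide +kernel⟩

def k14_pm_012 : ∃ t, chk3 f_pm_012 t 37 14 1 = true :=
  ⟨(b (c (a (b (c (l 17664048) (l 17362352)) (c (l 17504248) (l 17145448))) (c (l 17703112) (b (l 17473480) (l 17296384)))) (a (b (a (l 16879512) (l 16940288)) (a (l 16623504) (l 16695416))) (b (a (l 16999736) (l 17057744)) (a (l 16765664) (l 16834240))))) (a (c (b (c (l 17063184) (a (l 16870280) (l 16950480))) (c (a (l 16942568) (l 16993200)) (a (l 16553488) (l 16617920)))) (b (a (l 16532168) (l 16525472)) (a (l 16545384) (l 16559432)))) (c (b (c (l 17439848) (l 16856704)) (c (a (l 17145472) (l 17231712)) (l 16551528))) (b (a (l 16519424) (l 16547096)) (c (l 16554200) (l 16526864)))))), by decide +kernel⟩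

def k15_pm_012 : ∃ t, chk3 f_pm_012 t 37 30 1 = true :=
  ⟨(a (c (b (c (a (l 16570920) (l 16570400)) (a (l 16566192) (l 16559560))) (c (b (a (l 16580176) (l 16573704)) (a (l 16586456) (l 16579864))) (b (l 16594352) (a (l 16582624) (l 16575728))))) (b (a (c (l 16561536) (l 16556976)) (c (l 16554584) (l 16549696))) (c (b (l 16590040) (l 16602104)) (a (l 16571376) (l 16563936))))) (c (b (c (b (l 16731776) (l 16570272)) (a (l 16553520) (l 16548600))) (c (b (l 16576408) (a (l 16573832) (l 16568800))) (b (l 16560768) (l 16587944)))) (b (c (a (l 16548128) (l 16542696)) (a (l 16542848) (l 16536912))) (c (b (l 16555680) (l 16562256)) (b (l 16550680) (l 16557584)))))), by decide +kernel⟩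

def k16_pm_012 : ∃ t, chk3 f_pm_012 t 37 62 1 = true :=
  ⟨(c (a (c (b (a (l 16592896) (l 16586192)) (a (c (l 16600296) (l 16598680)) (c (l 16593560) (l 16591800)))) (b (a (l 16589376) (l 16582384)) (a (l 16596248) (l 16589160)))) (c (b (a (l 16580000) (l 16574712)) (a (c (l 16587296) (l 16585360)) (l 16580792))) (b (a (l 16575824) (l 16570088)) (a (l 16582464) (l 16576504))))) (a (b (c (a (l 16585856) (l 16578576)) (a (l 16582344) (l 16574784))) (c (a (l 16592992) (l 16585624)) (a (l 16589712) (l 16582080)))) (b (c (a (l 16571664) (l 16565496)) (a (l 16567528) (l 16560944))) (c (a (l 16578592) (l 16572232)) (a (l 16574728) (l 16567968)))))), by decide +kernel⟩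

def k17_pm_012 : ∃ t, chk3 f_pm_012 t 37 63 2 = true :=
  ⟨(a (b (c (a (b (l 16604536) (c (l 16608656) (l 16607200))) (c (b (l 16598472) (l 16601792)) (b (l 16596816) (l 16600200)))) (a (b (l 16601480) (l 16605000)) (b (l 16594328) (c (l 16598600) (l 16596992))))) (c (a (b (c (l 16612064) (l 16610664)) (c (b (l 16614632) (c (l 16616688) (l 16616024))) (b (l 16613272) (c (l 16615360) (l 16614688))))) (b (c (b (l 16604304) (l 16605984)) (l 16603608)) (c (b (l 16610952) (c (l 16612352) (l 16609008))) (b (l 16606184) (c (l 16608272) (l 16607544)))))) (a (b (c (l 16609248) (l 16607824)) (c (b (l 16611896) (l 16613672)) (b (l 16610504) (l 16612304)))) (b (c (l 16602064) (l 16600512)) (a (c (l 16607288) (l 16605816)) (c (a (l 16604536) (l 16602712)) (l 16602112))))))) (b (c (a (b (l 16601664) (c (l 16595328) (l 16593576))) (c (l 16588024) (l 16586032))) (a (c (l 16600600) (l 16588320)) (b (l 16581416) (l 16584712)))) (c (a (b (c (l 16598600) (l 16596912)) (c (b (l 16601080) (c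 (l 16603136) (l 16602336))) (b (l 16599432) (c (l 16601528) (l 16600720))))) (b (c (l 16592752) (l 16590872)) (c (b (l 16595136) (c (l 16597192) (l 16596296))) (b (l 16593312) (l 16594944))))) (a (b (c (l 16595216) (l 16593504)) (a (c (l 16602800) (l 16598576)) (c (l 16596960) (l 16595272)))) (b (c (l 16588984) (l 16587096)) (c (b (l 16591472) (l 16593144)) (b (l 16589632) (l 16591328)))))))), by decide +kernel⟩

def k18_pm_012 : ∃ t, chk3 f_pm_012 t 37 63 3 = true :=
  ⟨(a (b (c (a (b (l 16598400) (l 16602024)) (b (l 16590976) (l 16594560))) (a (l 16597128) (b (l 16587600) (l 16591288)))) (a (c (b (c (l 16606384) (l 16604928)) (c (b (l 16609104) (l 16610920)) (l 16608592))) (b (l 16602728) (c (l 16607168) (l 16605728)))) (c (b (c (l 16598944) (l 16597368)) (c (b (l 16601640) (l 16603440)) (a (l 16602832) (l 16599008)))) (b (c (l 16595776) (l 16594176)) (c (a (l 16601320) (l 16597432)) (l 16599208)))))) (b (c (a (b (l 16583864) (l 16587384)) (b (l 16577352) (l 16580792)))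 (a (b (l 16580176) (l 16583816)) (l 16575064))) (c (a (b (c (l 16591792) (l 16590064)) (c (b (l 16594440) (l 16596216)) (b (l 16592760) (l 16594552)))) (b (c (l 16585192) (l 16583296)) (c (b (l 16587776) (l 16589504)) (l 16586792)))) (a (b (c (l 16588328) (l 16586584)) (c (b (l 16591056) (l 16592880)) (l 16590264))) (b (l 16580424) (c (l 16584936) (l 16583072))))))), by decide +kernel⟩

def k19_pm_012 : ∃ t, chk3 f_pm_012 t 19 14 1 = true :=
  ⟨(a (b (c (a (c (l 17809624) (l 17503616)) (l 17613792)) (a (b (l 16932496) (c (l 17095688) (l 16772120))) (b (l 17250488) (l 16851296)))) (c (b (a (c (l 17576400) (l 17213008)) (c (l 17704304) (l 17350752))) (c (a (l 17313376) (l 17509840)) (a (b (l 17016728) (l 16859904)) (l 17025040)))) (a (b (c (l 16828368) (l 16504592)) (c (l 16526832) (l 16516336))) (b (c (l 16996808) (l 16642472)) (c (l 16686600) (l 16506048)))))) (b (c (c (l 18049296) (l 17760208)) (a (b (l 17353552) (l 17181480)) (b (l 17451472) (l 17295496)))) (c (b (c (l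 17880280) (l 17541424)) (c (l 17721040) (a (l 17265120) (l 17410520)))) (b (a (l 16732552) (l 17014480)) (a (l 16514008) (c (l 17033928) (l 16656656))))))), by decide +kernel⟩

def k20_pm_012 : ∃ t, chk3 f_pm_012 t 19 30 1 = true :=
  ⟨(a (b (c (c (a (b (l 17138488) (l 16814456)) (b (l 17320040) (l 17165640))) (a (l 16563808) (l 16533128))) (a (c (l 16556480) (l 16549888)) (c (l 16525344) (l 16517696)))) (c (a (c (b (l 16603728) (l 16562160)) (b (l 16550680) (l 16556400))) (c (b (l 16836120) (l 16576384)) (b (l 16540888) (l 16546136)))) (a (c (b (l 16544592) (l 16550728)) (b (l 16538624) (l 16545144))) (c (b (l 16533768) (l 16539464)) (b (l 16526800) (l 16532920)))))) (c (b (c (a (l 17422928) (l 17585680)) (a (b (l 17058664) (l 16892736)) (l 17074032))) (c (a (b (l 17194584) (l 16796912)) (b (l 17387616) (l 17204376))) (a (l 16551960) (b (l 16911896) (l 16712096))))) (b (a (c (l 16534240) (l 16507336)) (c (l 16687472) (l 16497824))) (a (c (l 16547288) (l 16518528)) (c (l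 16516864) (l 16507984)))))), by decide +kernel⟩

def k21_pm_012 : ∃ t, chk3 f_pm_012 t 38 62 1 = true :=
  ⟨(c (a (c (b (a (l 16569488) (l 16564472)) (c (l 16585024) (l 16593016))) (b (l 16583256) (a (l 16570608) (l 16564880)))) (c (b (l 16557888) (c (l 16564536) (l 16561560))) (b (l 16551552) (a (l 16559360) (l 16554016))))) (a (b (c (l 16556992) (l 16551760)) (c (a (l 16565912) (l 16559752)) (a (l 16561240) (l 16554664)))) (b (c (l 16545312) (l 16539168)) (c (l 16572264) (l 16566496))))), by decide +kernel⟩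

def k22_pm_012 : ∃ t, chk3 f_pm_012 t 38 63 1 = true :=
  ⟨(c (a (b (c (c (b (l 16578832) (l 16592224)) (b (l 16576472) (l 16589952))) (b (a (l 16575360) (l 16569472)) (a (l 16578552) (l 16572568)))) (c (b (c (a (l 16586984) (l 16581400)) (a (l 16584904) (l 16579112))) (c (a (b (l 16589288) (l 16590832)) (b (l 16583616) (l 16587720))) (a (b (l 16587264) (l 16588848)) (b (l 16581392) (l 16582920))))) (a (b (c (l 16582824) (l 16580744)) (c (b (l 16585240) (l 16586856)) (b (l 16583208) (l 16584856)))) (b (c (l 16576832) (l 16574544)) (c (b (l 16579168) (l 16580728)) (b (l 16576936) (l 16578536))))))) (b (c (c (b (l 16568456) (l 16571112)) (b (l 16565632) (l 16568392))) (b (l 16571920) (c (l 16565680) (l 16562984)))) (c (b (c (a (l 16576016) (l 16570824)) (a (l 16573512) (l 16568096))) (c (a (b (l 16578136) (l 16579560)) (b (l 16572848) (l 16574208))) (a (b (l 16575704) (l 16577168)) (l 16576136)))) (b (c (a (l 16571016) (l 16565376)) (a (l 16568520) (l 16562664))) (c (a (l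 16579256) (l 16568264)) (a (l 16576848) (l 16565640))))))) (a (b (c (a (b (l 16570896) (l 16574240)) (b (l 16564592) (l 16567848))) (a (l 16568176) (l 16571912))) (c (b (a (c (l 16578656) (l 16576560)) (c (l 16572264) (l 16569976))) (a (c (l 16584624) (l 16579976)) (c (b (l 16574704) (l 16576344)) (l 16578552)))) (a (b (l 16573424) (c (l 16577944) (l 16575912))) (b (l 16566552) (c (l 16571088) (l 16568872)))))) (a (b (c (l 16570512) (l 16554832)) (c (b (l 16575272) (c (l 16569192) (l 16566784))) (b (l 16559824) (c (l 16564376) (l 16561968))))) (b (c (l 16554000) (l 16548384)) (c (b (l 16558616) (c (l 16563016) (l 16560408))) (b (l 16553240) (c (l 16557800) (l 16555192)))))))), by decide +kernel⟩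

def k23_pm_012 : ∃ t, chk3 f_pm_012 t 39 31 1 = true :=
  ⟨(b (c (a (c (b (l 16551352) (c (l 16566520) (l 16551896))) (b (l 16541632) (l 16557208))) (c (b (c (l 17171336) (l 16893376)) (l 16549568)) (b (l 16532512) (l 16537088)))) (a (c (b (l 16534376) (l 16539920)) (b (l 16527264) (l 16533224))) (c (b (l 16524192) (l 16529264)) (b (l 16516056) (l 16521576))))) (c (b (c (a (b (l 16567728) (c (l 16561296) (l 16558096))) (c (l 16562128) (l 16547448))) (a (c (l 16564080) (l 16571352)) (b (l 16540656) (l 16553560)))) (c (a (c (b (l 16563736) (a (l 16568400) (l 16563464))) (b (l 16560648) (a (l 16565536) (l 16560368)))) (c (b (l 16554464) (a (l 16558728) (l 16554192))) (b (l 16550872) (a (l 16555384) (l 16550592))))) (a (b (c (l 16557568) (l 16554512)) (c (a (l 16562680) (l 16557280)) (a (l 16559840) (l 16554208)))) (b (c (l 16547312) (l 16543768)) (c (a (l 16552056) (l 16547024)) (a (l 16548752) (l 16543472))))))) (b (c (a (b (l 16544176) (l 16568024)) (b (l 16533176) (l 16535816)))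 (a (b (l 16537776) (l 16540832)) (b (l 16525816) (l 16528672)))) (c (a (b (c (l 16551464) (l 16548432)) (c (a (l 16557008) (l 16551152)) (a (l 16554176) (l 16548104)))) (a (b (l 16541048) (a (l 16550440) (l 16542344))) (c (l 16549104) (l 16535064)))) (a (b (a (l 16546800) (l 16540496)) (a (c (l 16551360) (l 16548552)) (l 16554048))) (b (l 16542040) (c (l 16546624) (l 16532784)))))))), by decide +kernel⟩

def k24_pm_012 : ∃ t, chk3 f_pm_012 t 10 6 1 = true :=
  ⟨(a (a (b (l 18193648) (c (l 18252536) (b (l 17887032) (l 17742464)))) (b (a (l 18254048) (l 18292208)) (c (a (l 18334928) (l 18386424)) (a (l 17915232) (b (l 18024192) (l 17913064)))))) (b (l 18370936) (c (l 18495936) (l 18104296)))), by decide +kernel⟩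

def k25_pm_012 : ∃ t, chk3 f_pm_012 t 10 14 2 = true :=
  ⟨(a (a (b (l 18078784) (b (l 17928728) (c (l 17968176) (l 17609936)))) (a (b (l 18195776) (l 18020672)) (b (l 18267992) (a (l 18093048) (l 18139232))))) (b (l 18425680) (l 18221448))), by decide +kernel⟩

def k26_pm_012 : ∃ t, chk3 f_pm_012 t 40 15 2 = true :=
  ⟨(b (b (c (l 17805880) (a (l 17323120) (l 17475648))) (c (a (l 17412856) (l 17667088)) (a (b (l 17107312) (l 16932872)) (b (l 17286408) (l 17134032))))) (b (c (a (b (l 17132080) (c (l 17203760) (l 16832560))) (b (l 17461616) (c (l 17428776) (l 17155640)))) (a (b (l 16664880) (l 16528240)) (b (l 16850760) (l 16514776)))) (b (c (a (c (b (l 17039448) (l 16811280)) (l 16540144)) (c (l 17112248) (b (l 16998728) (l 16839736)))) (a (c (l 16534592) (l 16530352)) (c (l 16518904) (l 16521456)))) (c (a (c (b (l 16549496) (a (l 16549856) (l 16586120))) (b (l 16541888) (a (l 16546000) (l 16541592)))) (c (b (l 16901984) (a (l 16700744) (l 16952568))) (a (l 16534320) (l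 16527912)))) (a (b (c (l 16537800) (l 16533744)) (c (a (l 16542168) (l 16537504)) (l 16546536))) (b (c (l 16529048) (l 16524456)) (c (l 16530960) (l 16526504)))))))), by decide +kernel⟩

def k27_pm_012 : ∃ t, chk3 f_pm_012 t 41 15 2 = true :=
  ⟨(b (a (b (l 17808568) (c (l 17822576) (l 17386672))) (a (b (l 17902192) (c (l 17930352) (l 17507232))) (b (l 17961536) (a (l 17668376) (l 17556808))))) (a (b (c (b (l 17645992) (l 17500928)) (b (l 17120360) (a (l 16881696) (l 17014136)))) (c (b (c (l 17468872) (l 17040736)) (c (a (l 17084792) (l 17335936)) (b (l 16817360) (a (l 16731920) (l 16933664))))) (b (b (l 16570576) (l 16516512)) (c (b (l 16517816) (l 16531696)) (b (l 16515840) (l 16528112)))))) (b (c (a (l 17711096) (a (l 17774656) (l 17815768))) (a (b (l 17304888) (l 17141056)) (a (l 17088120) (b (l 17416248) (l 17203368))))) (c (a (b (l 17490512) (c (l 17454032) (l 16930000))) (a (b (l 17566776) (c (l 17538176) (l 17250664))) (b (l 17615976) (c (l 17592328) (b (l 17355568)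 (l 17259512)))))) (c (a (b (l 17083952) (b (l 16924864) (l 16617864))) (a (b (l 17167720) (b (l 17017424) (l 16800968))) (b (l 17221792) (a (a (a (l 16997784) (a (l 17003512) (l 16860512))) (l 17016880)) (l 17039712))))) (a (b (l 16812528) (l 16510160)) (b (a (l 16901288) (a (a (a (l 16933728) (l 16940808)) (l 16951472)) (l 16972696))) (a (l 16512168) (a (a (a (l 16648872) (b (l 16610872) (l 16511760))) (l 16648168)) (l 16651416)))))))))), by decide +kernel⟩

def k28_pm_012 : ∃ t, chk3 f_pm_012 t 21 15 2 = true :=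
  ⟨(b (a (b (l 18100096) (c (l 18155800) (l 17760464))) (l 18163080)) (a (b (c (l 17989536) (b (l 17601976) (l 17285520))) (c (b (l 17822840) (a (l 17353616) (l 17780136))) (b (a (c (l 17351352) (l 17095976)) (l 17420392)) (a (c (b (l 17219704) (l 17080224)) (b (l 16949616) (a (l 16757000) (l 16903016)))) (c (l 17388024) (l 16895440)))))) (b (c (l 18255768) (l 17842784)) (c (l 18088928) (b (l 17681624) (a (l 17373960) (l 17639224))))))), by decide +kernel⟩

def k29_pm_012 : ∃ t, chk3 f_pm_012 t 20 14 3 = true :=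
  ⟨(a (b (a (l 17477768) (l 17572248)) (b (a (l 17225456) (l 17344904)) (a (l 16746544) (l 16973168)))) (b (a (l 17661560) (a (l 17725256) (l 17766240))) (a (b (l 17457080) (l 17211296)) (a (l 17247880) (a (l 17436288) (b (l 17600184) (l 17443176))))))), by decide +kernel⟩

def k30_pm_012 : ∃ t, chk3 f_pm_012 t 40 15 3 = true :=
  ⟨(b (b (a (l 16514264) (c (l 17076976) (l 16677344))) (a (c (l 16507472) (l 16498232)) (c (l 16548496) (l 16489272)))) (b (a (c (b (l 16514768) (l 16519336)) (b (l 16505552) (l 16510616))) (c (b (l 16506104) (l 16510144)) (b (l 16495776) (l 16500352)))) (a (b (c (b (l 16522880) (l 16525288)) (l 16536792)) (c (b (c (l 16529728) (l 16525736)) (c (l 16542632) (l 16528272))) (b (l 16519824) (c (l 16524424) (l 16520608))))) (c (b (l 16535336) (b (l 16528144) (c (l 16522088) (l 16517704)))) (b (l 16505080) (b (l 16508736) (c (l 16513368) (l 16509064)))))))), by decide +kernel⟩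

def k31_pm_012 : ∃ t, chk3 f_pm_012 t 41 15 3 = true :=
  ⟨(a (b (b (c (l 17231624) (l 16845672)) (b (l 16564336) (l 16502864))) (b (c (b (l 16677464) (l 16501624)) (b (l 16486696) (l 16490736))) (c (b (a (l 16507512) (l 16503224)) (b (c (l 16510752) (l 16505728)) (c (l 16523160) (l 16507776)))) (b (l 16494976) (b (l 16498280) (a (l 16503128) (l 16498000))))))) (b (b (a (l 16942464) (a (l 17080680) (c (l 17425864) (l 17057696)))) (a (c (l 17082936) (l 16657464)) (a (c (l 17146448) (l 16727112)) (c (l 17124816) (b (l 16851032) (l 16688288)))))) (b (a (c (l 16488480) (l 16482208)) (a (c (b (l 16910720) (l 16721696)) (l 16479120)) (b (c (l 16854552) (l 16501328)) (c (c (l 16836160) (l 16486104)) (l 16478896))))) (a (c (b (l 16499040) (c (l 16505224) (l 16499872))) (b (l 16487920) (b (l 16490936) (l 16492992)))) (a (c (b (l 16501040) (c (l 16502096) (l 16496560))) (b (l 16484528) (a (l 16489056) (l 16498336)))) (c (c (b (l 16506360) (a (a (a (l 16501016) (b (l 16499920) (l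 16512000))) (l 16500336)) (l 16499632))) (b (l 16501640) (a (a (a (l 16495416) (b (l 16494256) (l 16495984))) (l 16494712)) (l 16493960)))) (b (c (l 16485296) (l 16479512)) (a (a (a (l 16487144) (a (l 16486912) (b (l 16485808) (l 16487728)))) (l 16486400)) (l 16485560))))))))), by decide +kernel⟩

def k32_pm_012 : ∃ t, chk3 f_pm_012 t 21 7 3 = true :=
  ⟨(b (b (l 17893488) (a (b (l 17708304) (l 17570256)) (l 17830832))) (b (a (b (c (l 17570768) (l 17216320)) (c (a (l 17287448) (l 17436688)) (a (l 16839920) (l 17045880)))) (b (l 17634032) (c (l 17639232) (l 17206280)))) (b (a (c (b (l 16914496) (a (l 16803384) (l 17103544))) (b (l 16519216) (l 16478320))) (c (b (l 17486560) (l 17344360)) (b (l 17061672) (a (l 16843232) (l 17023896))))) (a (b (c (a (l 16481584) (c (l 17054400) (l 16809928))) (a (l 16477456) (l 16470080))) (c (a (b (l 16501880) (c (l 16497448) (l 16490504))) (b (l 16575720) (c (l 16685480) (l 16543728)))) (a (c (l 16483752) (l 16477856)) (b (l 16472104) (l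 16473528))))) (c (b (a (l 17048088) (l 17313848)) (a (c (l 16978184) (b (l 16880864) (l 16761584))) (c (l 17281488) (l 17021432)))) (b (a (l 16600728) (l 16802488)) (a (c (l 16476936) (l 16462264)) (l 16452216)))))))), by decide +kernel⟩

def k33_pm_012 : ∃ t, chk3 f_pm_012 t 11 3 1 = true :=
  ⟨(b (a (b (l 18472056) (l 18456960)) (b (l 18546088) (l 18574488))) (b (a (c (l 18611976) (b (l 18183688) (l 18068392))) (c (l 18779272) (l 18349760))) (a (b (c (l 18506128) (a (b (l 17841696) (l 17680920)) (l 17970912))) (c (b (c (l 18572576) (l 18206192)) (a (c (l 18360056) (l 17929984)) (l 18385320))) (b (a (c (l 17712296) (b (l 17382752) (l 17267816))) (l 17627296)) (a (c (b (l 17557424) (a (l 17347368) (l 17516088))) (b (a (l 17049888) (l 17218936)) (a (b (l 16931536) (l 16719544)) (l 16951600)))) (c (l 17790200) (b (l 17446976) (l 17162384))))))) (c (b (l 18763544) (a (l 18618904) (l 18767600))) (b (a (l 18137960) (l 18280336)) (a (b (l 17989424) (c (l 18034320) (l 17665136)))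 (l 18057672))))))), by decide +kernel⟩

def k34_pm_012 : ∃ t, chk3 f_pm_012 t 3 1 1 = true :=
  ⟨(b (a (b (l 2) (a (l 18572208) (l 2))) (l 2)) (b (a (a (b (l 18645792) (l 18710968)) (l 18768160)) (a (l 18800720) (l 2))) (a (b (a (a (l 18712592) (l 18820160)) (l 18923768)) (a (c (a (l 18950936) (l 19099768)) (a (b (l 18457432) (l 18360088)) (l 18624056))) (c (l 19234288) (l 18830424)))) (b (l 18995528) (a (l 19138144) (l 19156776)))))), by decide +kernel⟩

theorem s35_pm_012 : ∃ t, chk3 f_pm_012 t 20 15 3 = true := ex3_a k30_pm_012 k31_pm_012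

theorem s36_pm_012 : ∃ t, chk3 f_pm_012 t 20 7 3 = true := ex3_b k29_pm_012 s35_pm_012

theorem s37_pm_012 : ∃ t, chk3 f_pm_012 t 10 7 3 = true := ex3_a s36_pm_012 k32_pm_012

theorem s38_pm_012 : ∃ t, chk3 f_pm_012 t 20 15 2 = true := ex3_a k26_pm_012 k27_pm_012

theorem s39_pm_012 : ∃ t, chk3 f_pm_012 t 10 15 2 = true := ex3_a s38_pm_012 k28_pm_012

theorem s40_pm_012 : ∃ t, chk3 f_pm_012 t 10 7 2 = true := ex3_b k25_pm_012 s39_pm_012

theorem s41_pm_012 : ∃ t, chk3 f_pm_012 t 10 7 1 = true := ex3_c s40_pm_012 s37_pm_012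

theorem s42_pm_012 : ∃ t, chk3 f_pm_012 t 10 3 1 = true := ex3_b k24_pm_012 s41_pm_012

theorem s43_pm_012 : ∃ t, chk3 f_pm_012 t 5 3 1 = true := ex3_a s42_pm_012 k33_pm_012

theorem s44_pm_012 : ∃ t, chk3 f_pm_012 t 38 31 1 = true := ex3_b k21_pm_012 k22_pm_012

theorem s45_pm_012 : ∃ t, chk3 f_pm_012 t 19 31 1 = true := ex3_a s44_pm_012 k23_pm_012

theorem s46_pm_012 : ∃ t, chk3 f_pm_012 t 19 15 1 = true := ex3_b k20_pm_012 s45_pm_012

theorem s47_pm_012 : ∃ t, chk3 f_pm_012 t 19 7 1 = true := ex3_b k19_pm_012 s46_pm_012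

theorem s48_pm_012 : ∃ t, chk3 f_pm_012 t 37 63 1 = true := ex3_c k17_pm_012 k18_pm_012

theorem s49_pm_012 : ∃ t, chk3 f_pm_012 t 37 31 1 = true := ex3_b k16_pm_012 s48_pm_012

theorem s50_pm_012 : ∃ t, chk3 f_pm_012 t 37 15 1 = true := ex3_b k15_pm_012 s49_pm_012

theorem s51_pm_012 : ∃ t, chk3 f_pm_012 t 37 7 1 = true := ex3_b k14_pm_012 s50_pm_012

theorem s52_pm_012 : ∃ t, chk3 f_pm_012 t 36 63 1 = true := ex3_c k12_pm_012 k13_pm_012

theorem s53_pm_012 : ∃ t, chk3 f_pm_012 t 36 31 1 = true := ex3_b k11_pm_012 s52_pm_012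

theorem s54_pm_012 : ∃ t, chk3 f_pm_012 t 36 15 1 = true := ex3_b k10_pm_012 s53_pm_012

theorem s55_pm_012 : ∃ t, chk3 f_pm_012 t 36 7 1 = true := ex3_b k9_pm_012 s54_pm_012

theorem s56_pm_012 : ∃ t, chk3 f_pm_012 t 18 7 1 = true := ex3_a s55_pm_012 s51_pm_012

theorem s57_pm_012 : ∃ t, chk3 f_pm_012 t 9 7 1 = true := ex3_a s56_pm_012 s47_pm_012

theorem s58_pm_012 : ∃ t, chk3 f_pm_012 t 17 31 1 = true := ex3_b k7_pm_012 k8_pm_012

theorem s59_pm_012 : ∃ t, chk3 f_pm_012 t 17 15 1 = true := ex3_b k6_pm_012 s58_pm_012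

theorem s60_pm_012 : ∃ t, chk3 f_pm_012 t 17 7 1 = true := ex3_b k5_pm_012 s59_pm_012

theorem s61_pm_012 : ∃ t, chk3 f_pm_012 t 16 7 1 = true := ex3_b k3_pm_012 k4_pm_012

theorem s62_pm_012 : ∃ t, chk3 f_pm_012 t 8 7 1 = true := ex3_a s61_pm_012 s60_pm_012

theorem s63_pm_012 : ∃ t, chk3 f_pm_012 t 4 7 1 = true := ex3_a s62_pm_012 s57_pm_012

theorem s64_pm_012 : ∃ t, chk3 f_pm_012 t 4 6 1 = true := ex3_a k1_pm_012 k2_pm_012

theorem s65_pm_012 : ∃ t, chk3 f_pm_012 t 4 3 1 = true := ex3_b s64_pm_012 s63_pm_012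

theorem s66_pm_012 : ∃ t, chk3 f_pm_012 t 2 3 1 = true := ex3_a s65_pm_012 s43_pm_012

theorem s67_pm_012 : ∃ t, chk3 f_pm_012 t 2 1 1 = true := ex3_b k0_pm_012 s66_pm_012

theorem s68_pm_012 : ∃ t, chk3 f_pm_012 t 1 1 1 = true := ex3_a s67_pm_012 k34_pm_012

theorem c_pm_012 : CertF 0 536870912 536870912 536870912 134217728 67108864 true true false .pnp 0 1 2
    ndF0q0 ndF4q1 pcF2 cut_pm_012 Ext.none :=
  certF2 (fam := true) (s1 := true) (s2 := false) (a := 0) (b := 1) (c := 2) (cn := .pnp) (n1 := ndF0q0) (n2 := ndF4q1) (pc := pcF2) (cut := cut_pm_012) (xt := Ext.none) (P1 := 0) (W1 := 536870912) (P2 := 536870912) (W2 := 536870912) (P3 := 134217728) (W3 := 67108864)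
    rfl (fun _ => rfl) s68_pm_012

noncomputable def f_pm_022 : ℕ → ℕ → ℕ → ℕ → Bool := onCell 0 536870912 1073741824 536870912 134217728 67108864
    (rowF 1 true true false .pp 0 2 2 (qsf 0 536870912 1073741824 536870912 2) ndF0q0 ndF4q2 pcF2 Cut.none Ext.none)

def k0_pm_022 : ∃ t, chk3 f_pm_022 t 1 1 1 = true :=
  ⟨(b (b (a (l 3) (l 1)) (a (b (b (b (a (l 3) (l 3)) (b (a (l 3) (a (a (c (l 16573552) (l 16568816)) (l 1)) (l 1))) (a (b (a (a (l 3) (l 601999849447)) (a (l 16624288) (l 16597872))) (a (b (b (c (l 786146657735) (l 16626192)) (c (l 16895912) (l 16624176))) (c (l 16926800) (l 16621120))) (b (a (l 16617312) (l 16591008)) (c (l 16828560) (l 16583408))))) (a (b (a (l 16606736) (l 1)) (b (a (l 16600008) (l 1)) (c (l 16805848) (l 16544456)))) (l 1))))) (a (a (c (a (l 17219344) (l 17211464)) (a (l 16592344) (l 16578560))) (a (c (l 17172448) (l 16560208)) (l 16672560))) (a (a (l 16741680) (c (l 17153632) (l 16491456))) (a (l 130493492311) (l 1))))) (a (a (c (b (l 17661904)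 (l 17956568)) (b (l 17064816) (l 17436928))) (c (l 17768344) (b (l 16993040) (l 17379688)))) (a (c (l 17716864) (b (l 16966456) (l 17358824))) (b (c (l 17644168) (l 65531968039)) (c (l 17931760) (l 17387848)))))) (a (b (l 1) (a (b (l 1) (l 217467697367)) (l 1))) (l 1)))) (a (b (a (b (a (l 18031624) (l 17979832)) (l 18268128)) (b (a (l 17957360) (l 17762704)) (l 18198712))) (a (l 18458608) (l 18352728))) (a (b (b (a (c (l 18244584) (l 17807008)) (l 269545149303)) (a (l 18221376) (l 18273848))) (l 18318448)) (b (b (l 1) (l 294779394583)) (b (l 18391072) (l 18352176)))))), by decide +kernel⟩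

theorem c_pm_022 : CertF 0 536870912 1073741824 536870912 134217728 67108864 true true false .pp 0 2 2
    ndF0q0 ndF4q2 pcF2 Cut.none Ext.none :=
  certF1 (fam := true) (s1 := true) (s2 := false) (a := 0) (b := 2) (c := 2) (cn := .pp) (n1 := ndF0q0) (n2 := ndF4q2) (pc := pcF2) (cut := Cut.none) (xt := Ext.none) (P1 := 0) (W1 := 536870912) (P2 := 1073741824) (W2 := 536870912) (P3 := 134217728) (W3 := 67108864)
    rfl (fun _ => rfl) k0_pm_022

noncomputable def f_pm_023 : ℕ → ℕ → ℕ → ℕ → Bool := onCell 0 536870912 1073741824 536870912 134217728 67108864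
    (rowF 0 true true false .up 0 2 3 (qsf 0 536870912 1073741824 536870912 3) ndF0q0 ndF4q2 pcF3 Cut.none Ext.none)

def k0_pm_023 : ∃ t, chk3 f_pm_023 t 1 1 1 = true :=
  ⟨(a (b (a (l 1) (l 267934783159)) (a (l 282431187975) (l 257198409719))) (b (a (l 233575967175) (b (l 18279184) (l 18143248))) (a (l 18168024) (b (l 17975232) (b (l 17837440) (a (l 17822080) (b (l 17684880) (a (l 17675696) (a (l 17615000) (b (l 17588192) (b (l 17569352) (a (l 17566464) (b (l 17550184) (a (l 17548696) (l 17538944))))))))))))))), by decide +kernel⟩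

theorem c_pm_023 : CertF 0 536870912 1073741824 536870912 134217728 67108864 true true false .up 0 2 3
    ndF0q0 ndF4q2 pcF3 Cut.none Ext.none :=
  certF0 (fam := true) (s1 := true) (s2 := false) (a := 0) (b := 2) (c := 3) (cn := .up) (n1 := ndF0q0) (n2 := ndF4q2) (pc := pcF3) (cut := Cut.none) (xt := Ext.none) (P1 := 0) (W1 := 536870912) (P2 := 1073741824) (W2 := 536870912) (P3 := 134217728) (W3 := 67108864)
    rfl k0_pm_023

noncomputable def f_pm_033 : ℕ → ℕ → ℕ → ℕ → Bool := onCell 1610612736 536870912 0 1230186008 134217728 67108864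
    (rowF 2 true true false .pnn 0 3 3 (qsf 0 536870912 0 1230186008 3) ndF0q0 ndF4q3 pcF3 Cut.none Ext.none)

def k0_pm_033 : ∃ t, chk3 f_pm_033 t 1 1 1 = true :=
  ⟨(a (b (l 1) (b (a (l 1) (l 18146400)) (b (a (l 1) (l 17898360)) (a (b (l 18105448) (l 18025800)) (l 17755984))))) (a (b (l 1) (b (a (l 17855368) (l 17783192)) (b (l 17607944) (l 17434104)))) (b (a (l 17968248) (l 4)) (a (b (l 17614408) (b (l 17386600) (l 17173800))) (b (a (l 17535008) (l 4)) (a (b (l 17274784) (l 17046128)) (a (b (l 17223656) (l 16979608)) (b (a (l 17205112) (l 4)) (a (l 16948528) (b (l 17003592) (l 16879512))))))))))), by decide +kernel⟩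

theorem c_pm_033 : CertF 0 536870912 0 1230186008 134217728 67108864 true true false .pnn 0 3 3
    ndF0q0 ndF4q3 pcF3 Cut.none Ext.none :=
  certF2 (fam := true) (s1 := true) (s2 := false) (a := 0) (b := 3) (c := 3) (cn := .pnn) (n1 := ndF0q0) (n2 := ndF4q3) (pc := pcF3) (cut := Cut.none) (xt := Ext.none) (P1 := 0) (W1 := 536870912) (P2 := 0) (W2 := 1230186008) (P3 := 134217728) (W3 := 67108864)
    rfl (fun _ => rfl) k0_pm_033

noncomputable def f_pm_101 : ℕ → ℕ → ℕ → ℕ → Bool := onCell 536870912 536870912 536870912 536870912 134217728 67108864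
    (rowF 1 true true false .npn 1 0 1 (qsf 536870912 536870912 0 536870912 1) ndF0q1 ndF4q0 pcF1 Cut.none Ext.none)

def k0_pm_101 : ∃ t, chk3 f_pm_101 t 1 1 1 = true :=
  ⟨(a (b (b (a (l 3) (a (b (l 1) (l 3)) (l 1))) (l 3)) (b (a (b (l 3) (a (b (l 3) (l 17372416)) (b (l 139218139127) (l 17267408)))) (b (a (l 3) (l 210085355783)) (a (b (l 17298984) (l 17349808)) (l 102711445687)))) (a (b (a (l 17269736) (l 17329336)) (l 17363856)) (b (l 17687360) (l 17514720))))) (b (a (b (l 1) (a (b (l 1) (l 3)) (l 1))) (l 1)) (b (a (a (b (l 164451526087) (l 17519784)) (b (l 387655795879) (l 17609256))) (a (b (l 1) (l 422552998535)) (l 1))) (a (b (l 17642816) (l 17697520)) (a (l 17767576) (l 299073205463)))))), by decide +kernel⟩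

theorem c_pm_101 : CertF 536870912 536870912 0 536870912 134217728 67108864 true true false .npn 1 0 1
    ndF0q1 ndF4q0 pcF1 Cut.none Ext.none :=
  certF1 (fam := true) (s1 := true) (s2 := false) (a := 1) (b := 0) (c := 1) (cn := .npn) (n1 := ndF0q1) (n2 := ndF4q0) (pc := pcF1) (cut := Cut.none) (xt := Ext.none) (P1 := 536870912) (W1 := 536870912) (P2 := 0) (W2 := 536870912) (P3 := 134217728) (W3 := 67108864)
    rfl (fun _ => rfl) k0_pm_101

noncomputable def f_pm_102 : ℕ → ℕ → ℕ → ℕ → Bool := onCell 536870912 536870912 1073741824 536870912 134217728 67108864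
    (rowF 1 true true false .npp 1 0 2 (qsf 536870912 536870912 0 536870912 2) ndF0q1 ndF4q0 pcF2 Cut.none Ext.none)

def k0_pm_102 : ∃ t, chk3 f_pm_102 t 1 1 1 = true :=
  ⟨(a (b (a (b (b (l 17501256) (b (b (l 17529880) (l 17524400)) (l 98349948183))) (b (b (b (l 17490160) (l 2)) (l 2)) (l 2))) (b (b (l 17667496) (b (b (l 17661728) (l 17643888)) (b (l 17621512) (l 17599904)))) (b (b (b (l 17575456) (l 17553648)) (l 17504384)) (l 17411816)))) (a (l 2) (l 17222608))) (b (a (b (b (l 17891760) (b (b (l 17864320) (l 17841064)) (l 17950544))) (b (b (b (l 17760760) (l 17734960)) (l 17684936)) (l 17591320))) (b (b (l 18086272) (b (b (l 18049272) (l 18024824)) (l 17980344))) (b (b (l 17963400) (l 17888240)) (l 17815568)))) (b (a (l 17450544) (l 17657808)) (a (l 17253368) (l 17403632))))), by decide +kernel⟩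

theorem c_pm_102 : CertF 536870912 536870912 0 536870912 134217728 67108864 true true false .npp 1 0 2
    ndF0q1 ndF4q0 pcF2 Cut.none Ext.none :=
  certF1 (fam := true) (s1 := true) (s2 := false) (a := 1) (b := 0) (c := 2) (cn := .npp) (n1 := ndF0q1) (n2 := ndF4q0) (pc := pcF2) (cut := Cut.none) (xt := Ext.none) (P1 := 536870912) (W1 := 536870912) (P2 := 0) (W2 := 536870912) (P3 := 134217728) (W3 := 67108864)
    rfl (fun _ => rfl) k0_pm_102

noncomputable def f_pm_112 : ℕ → ℕ → ℕ → ℕ → Bool := onCell 536870912 536870912 1073741824 536870912 134217728 67108864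
    (rowF 1 true true false .dn 1 1 2 (qsf 536870912 536870912 536870912 536870912 2) ndF0q1 ndF4q1 pcF2 Cut.none Ext.none)

def k0_pm_112 : ∃ t, chk3 f_pm_112 t 1 1 1 = true :=
  ⟨(a (b (a (b (b (c (l 18282168) (a (l 18042464) (l 18131184))) (b (b (l 18290512) (a (l 18285960) (l 18344080))) (b (l 18338960) (l 18362312)))) (b (b (b (l 18383032) (l 18616792)) (l 18425920)) (l 18600112))) (b (a (b (l 1) (b (l 1) (l 18390528))) (l 1)) (b (b (b (l 18452496) (l 18461928)) (l 18461328)) (l 18468696)))) (a (b (l 18653992) (l 18918376)) (l 18619920))) (b (a (b (l 1) (b (l 1) (l 18505416))) (l 1)) (b (a (l 18519664) (l 18511248)) (a (l 18551144) (l 18426424))))), by decide +kernel⟩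

theorem c_pm_112 : CertF 536870912 536870912 536870912 536870912 134217728 67108864 true true false .dn 1 1 2
    ndF0q1 ndF4q1 pcF2 Cut.none Ext.none :=
  certF1 (fam := true) (s1 := true) (s2 := false) (a := 1) (b := 1) (c := 2) (cn := .dn) (n1 := ndF0q1) (n2 := ndF4q1) (pc := pcF2) (cut := Cut.none) (xt := Ext.none) (P1 := 536870912) (W1 := 536870912) (P2 := 536870912) (W2 := 536870912) (P3 := 134217728) (W3 := 67108864)
    rfl (fun _ => rfl) k0_pm_112

noncomputable def f_pm_113 : ℕ → ℕ → ℕ → ℕ → Bool := onCell 536870912 536870912 1610612736 536870912 134217728 67108864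
    (rowF 1 true true false .nn 1 1 3 (qsf 536870912 536870912 536870912 536870912 3) ndF0q1 ndF4q1 pcF3 Cut.none Ext.none)

def k0_pm_113 : ∃ t, chk3 f_pm_113 t 1 1 1 = true :=
  ⟨(a (b (b (a (l 18828376) (l 18345480)) (a (a (l 2) (l 18987016)) (b (l 18506056) (l 18630360)))) (b (a (l 2) (b (l 18771240) (l 2))) (l 2))) (b (b (a (l 18054656) (b (l 18022216) (l 18069640))) (a (l 18229296) (l 17915440))) (b (a (l 18292720) (l 4)) (l 4)))), by decide +kernel⟩

theorem c_pm_113 : CertF 536870912 536870912 536870912 536870912 134217728 67108864 true true false .nn 1 1 3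
    ndF0q1 ndF4q1 pcF3 Cut.none Ext.none :=
  certF1 (fam := true) (s1 := true) (s2 := false) (a := 1) (b := 1) (c := 3) (cn := .nn) (n1 := ndF0q1) (n2 := ndF4q1) (pc := pcF3) (cut := Cut.none) (xt := Ext.none) (P1 := 536870912) (W1 := 536870912) (P2 := 536870912) (W2 := 536870912) (P3 := 134217728) (W3 := 67108864)
    rfl (fun _ => rfl) k0_pm_113

noncomputable def f_pm_123 : ℕ → ℕ → ℕ → ℕ → Bool := onCell 536870912 536870912 1610612736 536870912 134217728 67108864
    (rowF 1 true true false .npn 1 2 3 (qsf 536870912 536870912 1073741824 536870912 3) ndF0q1 ndF4q2 pcF3 Cut.none Ext.none)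

def k0_pm_123 : ∃ t, chk3 f_pm_123 t 1 1 1 = true :=
  ⟨(b (a (a (a (l 18096592) (l 18051208)) (a (l 18101808) (l 18144592))) (a (l 212100181479) (l 1))) (b (a (a (l 17775784) (l 17661072)) (a (b (l 17576936) (l 17484208)) (b (l 1) (l 17438320)))) (a (b (a (l 17625128) (l 17505008)) (b (a (l 17550976) (l 17431384)) (b (a (l 17513624) (l 17397608)) (b (a (l 17494824) (l 17386880)) (b (l 131770099511) (a (l 17479768) (l 17391536))))))) (a (b (l 17385336) (b (l 17323224) (b (l 17303792) (l 4)))) (b (l 17356656) (b (l 17314048) (l 4))))))), by decide +kernel⟩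

theorem c_pm_123 : CertF 536870912 536870912 1073741824 536870912 134217728 67108864 true true false .npn 1 2 3
    ndF0q1 ndF4q2 pcF3 Cut.none Ext.none :=
  certF1 (fam := true) (s1 := true) (s2 := false) (a := 1) (b := 2) (c := 3) (cn := .npn) (n1 := ndF0q1) (n2 := ndF4q2) (pc := pcF3) (cut := Cut.none) (xt := Ext.none) (P1 := 536870912) (W1 := 536870912) (P2 := 1073741824) (W2 := 536870912) (P3 := 134217728) (W3 := 67108864)
    rfl (fun _ => rfl) k0_pm_123

noncomputable def f_pm_133 : ℕ → ℕ → ℕ → ℕ → Bool := onCell 536870912 536870912 0 1230186008 134217728 67108864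
    (rowF 0 true true false .dn 1 3 3 (qsf 536870912 536870912 0 1230186008 3) ndF0q1 ndF4q3 pcF3 Cut.none Ext.none)

def k0_pm_133 : ∃ t, chk3 f_pm_133 t 1 1 1 = true :=
  ⟨(b (l 2) (b (l 2) (a (b (l 2) (a (b (l 2) (a (l 16920552) (l 2))) (l 2))) (l 2)))), by decide +kernel⟩

theorem c_pm_133 : CertF 536870912 536870912 0 1230186008 134217728 67108864 true true false .dn 1 3 3
    ndF0q1 ndF4q3 pcF3 Cut.none Ext.none :=
  certF0 (fam := true) (s1 := true) (s2 := false) (a := 1) (b := 3) (c := 3) (cn := .dn) (n1 := ndF0q1) (n2 := ndF4q3) (pc := pcF3) (cut := Cut.none) (xt := Ext.none) (P1 := 536870912) (W1 := 536870912) (P2 := 0) (W2 := 1230186008) (P3 := 134217728) (W3 := 67108864)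
    rfl k0_pm_133

noncomputable def f_pm_202 : ℕ → ℕ → ℕ → ℕ → Bool := onCell 0 536870912 1073741824 536870912 134217728 67108864
    (rowF 1 true true false .pp 2 0 2 (qsf 0 536870912 0 536870912 2) ndF0q2 ndF4q0 pcF2 Cut.none Ext.none)

def k0_pm_202 : ∃ t, chk3 f_pm_202 t 1 1 1 = true :=
  ⟨(a (b (b (b (l 1) (a (l 1) (l 17830248))) (b (a (l 18030912) (l 18080328)) (l 18049336))) (b (b (l 17842240) (l 17638816)) (l 4))) (b (a (b (b (l 1) (b (a (l 1) (l 18002672)) (l 18100480))) (l 18141144)) (b (b (l 18114544) (b (b (l 18178112) (l 18210552)) (l 18129072))) (b (b (l 18073376) (l 18023608)) (l 17765440)))) (b (a (l 17821624) (l 17791152)) (l 17709024)))), by decide +kernel⟩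

theorem c_pm_202 : CertF 0 536870912 0 536870912 134217728 67108864 true true false .pp 2 0 2
    ndF0q2 ndF4q0 pcF2 Cut.none Ext.none :=
  certF1 (fam := true) (s1 := true) (s2 := false) (a := 2) (b := 0) (c := 2) (cn := .pp) (n1 := ndF0q2) (n2 := ndF4q0) (pc := pcF2) (cut := Cut.none) (xt := Ext.none) (P1 := 0) (W1 := 536870912) (P2 := 0) (W2 := 536870912) (P3 := 134217728) (W3 := 67108864)
    rfl (fun _ => rfl) k0_pm_202

noncomputable def f_pm_203 : ℕ → ℕ → ℕ → ℕ → Bool := onCell 0 536870912 1610612736 536870912 134217728 67108864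
    (rowF 1 true true false .up 2 0 3 (qsf 0 536870912 0 536870912 3) ndF0q2 ndF4q0 pcF3 Cut.none Ext.none)

def k0_pm_203 : ∃ t, chk3 f_pm_203 t 1 1 1 = true :=
  ⟨(b (a (l 4) (b (b (l 17383112) (l 17413104)) (l 4))) (l 2)), by decide +kernel⟩

theorem c_pm_203 : CertF 0 536870912 0 536870912 134217728 67108864 true true false .up 2 0 3
    ndF0q2 ndF4q0 pcF3 Cut.none Ext.none :=
  certF1 (fam := true) (s1 := true) (s2 := false) (a := 2) (b := 0) (c := 3) (cn := .up) (n1 := ndF0q2) (n2 := ndF4q0) (pc := pcF3) (cut := Cut.none) (xt := Ext.none) (P1 := 0) (W1 := 536870912) (P2 := 0) (W2 := 536870912) (P3 := 134217728) (W3 := 67108864)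
    rfl (fun _ => rfl) k0_pm_203

noncomputable def f_pm_213 : ℕ → ℕ → ℕ → ℕ → Bool := onCell 0 536870912 1610612736 536870912 134217728 67108864
    (rowF 1 true true false .pnn 2 1 3 (qsf 0 536870912 536870912 536870912 3) ndF0q2 ndF4q1 pcF3 Cut.none Ext.none)

def k0_pm_213 : ∃ t, chk3 f_pm_213 t 1 1 1 = true :=
  ⟨(b (a (l 4) (b (b (l 17742624) (l 17709552)) (l 4))) (l 4)), by decide +kernel⟩

theorem c_pm_213 : CertF 0 536870912 536870912 536870912 134217728 67108864 true true false .pnn 2 1 3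
    ndF0q2 ndF4q1 pcF3 Cut.none Ext.none :=
  certF1 (fam := true) (s1 := true) (s2 := false) (a := 2) (b := 1) (c := 3) (cn := .pnn) (n1 := ndF0q2) (n2 := ndF4q1) (pc := pcF3) (cut := Cut.none) (xt := Ext.none) (P1 := 0) (W1 := 536870912) (P2 := 536870912) (W2 := 536870912) (P3 := 134217728) (W3 := 67108864)
    rfl (fun _ => rfl) k0_pm_213

noncomputable def f_mm_001 : ℕ → ℕ → ℕ → ℕ → Bool := onCell 0 536870912 0 536870912 134217728 67108864
    (rowF 0 true false false .up 0 0 1 (qsf 0 536870912 0 536870912 1) ndF0q0 ndF4q0 pcF1 Cut.none Ext.none)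

def k0_mm_001 : ∃ t, chk3 f_mm_001 t 1 1 1 = true :=
  ⟨(l 4), by decide +kernel⟩

theorem c_mm_001 : CertF 0 536870912 0 536870912 134217728 67108864 true false false .up 0 0 1
    ndF0q0 ndF4q0 pcF1 Cut.none Ext.none :=
  certF0 (fam := true) (s1 := false) (s2 := false) (a := 0) (b := 0) (c := 1) (cn := .up) (n1 := ndF0q0) (n2 := ndF4q0) (pc := pcF1) (cut := Cut.none) (xt := Ext.none) (P1 := 0) (W1 := 536870912) (P2 := 0) (W2 := 536870912) (P3 := 134217728) (W3 := 67108864)
    rfl k0_mm_001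

noncomputable def f_mm_011 : ℕ → ℕ → ℕ → ℕ → Bool := onCell 0 536870912 536870912 536870912 134217728 67108864
    (rowF 0 true false false .pnn 0 1 1 (qsf 0 536870912 536870912 536870912 1) ndF0q0 ndF4q1 pcF1 Cut.none Ext.none)

def k0_mm_011 : ∃ t, chk3 f_mm_011 t 1 1 1 = true :=
  ⟨(l 4), by decide +kernel⟩

theorem c_mm_011 : CertF 0 536870912 536870912 536870912 134217728 67108864 true false false .pnn 0 1 1
    ndF0q0 ndF4q1 pcF1 Cut.none Ext.none :=
  certF0 (fam := true) (s1 := false) (s2 := false) (a := 0) (b := 1) (c := 1) (cn := .pnn) (n1 := ndF0q0) (n2 := ndF4q1) (pc := pcF1) (cut := Cut.none) (xt := Ext.none) (P1 := 0) (W1 := 536870912) (P2 := 536870912) (W2 := 536870912) (P3 := 134217728) (W3 := 67108864)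
    rfl k0_mm_011

noncomputable def f_mm_012 : ℕ → ℕ → ℕ → ℕ → Bool := onCell 0 536870912 536870912 536870912 134217728 67108864
    (rowF 0 true false false .pnp 0 1 2 (qsf 0 536870912 536870912 536870912 2) ndF0q0 ndF4q1 pcF2 Cut.none Ext.none)

def k0_mm_012 : ∃ t, chk3 f_mm_012 t 1 1 1 = true :=
  ⟨(l 4), by decide +kernel⟩

theorem c_mm_012 : CertF 0 536870912 536870912 536870912 134217728 67108864 true false false .pnp 0 1 2
    ndF0q0 ndF4q1 pcF2 Cut.none Ext.none :=
  certF0 (fam := true) (s1 := false) (s2 := false) (a := 0) (b := 1) (c := 2) (cn := .pnp) (n1 := ndF0q0) (n2 := ndF4q1) (pc := pcF2) (cut := Cut.none) (xt := Ext.none) (P1 := 0) (W1 := 536870912) (P2 := 536870912) (W2 := 536870912) (P3 := 134217728) (W3 := 67108864)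
    rfl k0_mm_012

noncomputable def f_mm_022 : ℕ → ℕ → ℕ → ℕ → Bool := onCell 0 536870912 1073741824 536870912 134217728 67108864
    (rowF 0 true false false .pp 0 2 2 (qsf 0 536870912 1073741824 536870912 2) ndF0q0 ndF4q2 pcF2 Cut.none Ext.none)

def k0_mm_022 : ∃ t, chk3 f_mm_022 t 1 1 1 = true :=
  ⟨(l 4), by decide +kernel⟩

theorem c_mm_022 : CertF 0 536870912 1073741824 536870912 134217728 67108864 true false false .pp 0 2 2
    ndF0q0 ndF4q2 pcF2 Cut.none Ext.none :=
  certF0 (fam := true) (s1 := false) (s2 := false) (a := 0) (b := 2) (c := 2) (cn := .pp) (n1 := ndF0q0) (n2 := ndF4q2) (pc := pcF2) (cut := Cut.none) (xt := Ext.none) (P1 := 0) (W1 := 536870912) (P2 := 1073741824) (W2 := 536870912) (P3 := 134217728) (W3 := 67108864)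
    rfl k0_mm_022

noncomputable def f_mm_023 : ℕ → ℕ → ℕ → ℕ → Bool := onCell 0 536870912 1073741824 536870912 134217728 67108864
    (rowF 0 true false false .up 0 2 3 (qsf 0 536870912 1073741824 536870912 3) ndF0q0 ndF4q2 pcF3 Cut.none Ext.none)

def k0_mm_023 : ∃ t, chk3 f_mm_023 t 1 1 1 = true :=
  ⟨(l 4), by decide +kernel⟩

theorem c_mm_023 : CertF 0 536870912 1073741824 536870912 134217728 67108864 true false false .up 0 2 3
    ndF0q0 ndF4q2 pcF3 Cut.none Ext.none :=
  certF0 (fam := true) (s1 := false) (s2 := false) (a := 0) (b := 2) (c := 3) (cn := .up) (n1 := ndF0q0) (n2 := ndF4q2) (pc := pcF3) (cut := Cut.none) (xt := Ext.none) (P1 := 0) (W1 := 536870912) (P2 := 1073741824) (W2 := 536870912) (P3 := 134217728) (W3 := 67108864)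
    rfl k0_mm_023

noncomputable def f_mm_033 : ℕ → ℕ → ℕ → ℕ → Bool := onCell 0 536870912 0 1230186008 134217728 67108864
    (rowF 0 true false false .pnn 0 3 3 (qsf 0 536870912 0 1230186008 3) ndF0q0 ndF4q3 pcF3 Cut.none Ext.none)

def k0_mm_033 : ∃ t, chk3 f_mm_033 t 1 1 1 = true :=
  ⟨(l 5), by decide +kernel⟩

theorem c_mm_033 : CertF 0 536870912 0 1230186008 134217728 67108864 true false false .pnn 0 3 3
    ndF0q0 ndF4q3 pcF3 Cut.none Ext.none :=
  certF0 (fam := true) (s1 := false) (s2 := false) (a := 0) (b := 3) (c := 3) (cn := .pnn) (n1 := ndF0q0) (n2 := ndF4q3) (pc := pcF3) (cut := Cut.none) (xt := Ext.none) (P1 := 0) (W1 := 536870912) (P2 := 0) (W2 := 1230186008) (P3 := 134217728) (W3 := 67108864)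
    rfl k0_mm_033

noncomputable def f_mm_101 : ℕ → ℕ → ℕ → ℕ → Bool := onCell 536870912 536870912 0 536870912 134217728 67108864
    (rowF 0 true false false .npn 1 0 1 (qsf 536870912 536870912 0 536870912 1) ndF0q1 ndF4q0 pcF1 Cut.none Ext.none)

def k0_mm_101 : ∃ t, chk3 f_mm_101 t 1 1 1 = true :=
  ⟨(l 4), by decide +kernel⟩

theorem c_mm_101 : CertF 536870912 536870912 0 536870912 134217728 67108864 true false false .npn 1 0 1
    ndF0q1 ndF4q0 pcF1 Cut.none Ext.none :=
  certF0 (fam := true) (s1 := false) (s2 := false) (a := 1) (b := 0) (c := 1) (cn := .npn) (n1 := ndF0q1) (n2 := ndF4q0) (pc := pcF1) (cut := Cut.none) (xt := Ext.none) (P1 := 536870912) (W1 := 536870912) (P2 := 0) (W2 := 536870912) (P3 := 134217728) (W3 := 67108864)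
    rfl k0_mm_101

noncomputable def f_mm_102 : ℕ → ℕ → ℕ → ℕ → Bool := onCell 536870912 536870912 0 536870912 134217728 67108864
    (rowF 0 true false false .npp 1 0 2 (qsf 536870912 536870912 0 536870912 2) ndF0q1 ndF4q0 pcF2 Cut.none Ext.none)

def k0_mm_102 : ∃ t, chk3 f_mm_102 t 1 1 1 = true :=
  ⟨(l 4), by decide +kernel⟩

theorem c_mm_102 : CertF 536870912 536870912 0 536870912 134217728 67108864 true false false .npp 1 0 2
    ndF0q1 ndF4q0 pcF2 Cut.none Ext.none :=
  certF0 (fam := true) (s1 := false) (s2 := false) (a := 1) (b := 0) (c := 2) (cn := .npp) (n1 := ndF0q1) (n2 := ndF4q0) (pc := pcF2) (cut := Cut.none) (xt := Ext.none) (P1 := 536870912) (W1 := 536870912) (P2 := 0) (W2 := 536870912) (P3 := 134217728) (W3 := 67108864)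
    rfl k0_mm_102

noncomputable def f_mm_112 : ℕ → ℕ → ℕ → ℕ → Bool := onCell 536870912 536870912 536870912 536870912 134217728 67108864
    (rowF 0 true false false .dn 1 1 2 (qsf 536870912 536870912 536870912 536870912 2) ndF0q1 ndF4q1 pcF2 Cut.none Ext.none)

def k0_mm_112 : ∃ t, chk3 f_mm_112 t 1 1 1 = true :=
  ⟨(l 4), by decide +kernel⟩

theorem c_mm_112 : CertF 536870912 536870912 536870912 536870912 134217728 67108864 true false false .dn 1 1 2
    ndF0q1 ndF4q1 pcF2 Cut.none Ext.none :=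
  certF0 (fam := true) (s1 := false) (s2 := false) (a := 1) (b := 1) (c := 2) (cn := .dn) (n1 := ndF0q1) (n2 := ndF4q1) (pc := pcF2) (cut := Cut.none) (xt := Ext.none) (P1 := 536870912) (W1 := 536870912) (P2 := 536870912) (W2 := 536870912) (P3 := 134217728) (W3 := 67108864)
    rfl k0_mm_112

noncomputable def f_mm_113 : ℕ → ℕ → ℕ → ℕ → Bool := onCell 536870912 536870912 536870912 536870912 134217728 67108864
    (rowF 0 true false false .nn 1 1 3 (qsf 536870912 536870912 536870912 536870912 3) ndF0q1 ndF4q1 pcF3 Cut.none Ext.none)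

def k0_mm_113 : ∃ t, chk3 f_mm_113 t 1 1 1 = true :=
  ⟨(l 4), by decide +kernel⟩

theorem c_mm_113 : CertF 536870912 536870912 536870912 536870912 134217728 67108864 true false false .nn 1 1 3
    ndF0q1 ndF4q1 pcF3 Cut.none Ext.none :=
  certF0 (fam := true) (s1 := false) (s2 := false) (a := 1) (b := 1) (c := 3) (cn := .nn) (n1 := ndF0q1) (n2 := ndF4q1) (pc := pcF3) (cut := Cut.none) (xt := Ext.none) (P1 := 536870912) (W1 := 536870912) (P2 := 536870912) (W2 := 536870912) (P3 := 134217728) (W3 := 67108864)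
    rfl k0_mm_113

noncomputable def f_mm_123 : ℕ → ℕ → ℕ → ℕ → Bool := onCell 536870912 536870912 1073741824 536870912 134217728 67108864
    (rowF 0 true false false .npn 1 2 3 (qsf 536870912 536870912 1073741824 536870912 3) ndF0q1 ndF4q2 pcF3 Cut.none Ext.none)

def k0_mm_123 : ∃ t, chk3 f_mm_123 t 1 1 1 = true :=
  ⟨(l 4), by decide +kernel⟩

theorem c_mm_123 : CertF 536870912 536870912 1073741824 536870912 134217728 67108864 true false false .npn 1 2 3
    ndF0q1 ndF4q2 pcF3 Cut.none Ext.none :=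
  certF0 (fam := true) (s1 := false) (s2 := false) (a := 1) (b := 2) (c := 3) (cn := .npn) (n1 := ndF0q1) (n2 := ndF4q2) (pc := pcF3) (cut := Cut.none) (xt := Ext.none) (P1 := 536870912) (W1 := 536870912) (P2 := 1073741824) (W2 := 536870912) (P3 := 134217728) (W3 := 67108864)
    rfl k0_mm_123

noncomputable def f_mm_133 : ℕ → ℕ → ℕ → ℕ → Bool := onCell 536870912 536870912 0 1230186008 134217728 67108864
    (rowF 0 true false false .dn 1 3 3 (qsf 536870912 536870912 0 1230186008 3) ndF0q1 ndF4q3 pcF3 Cut.none Ext.none)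

def k0_mm_133 : ∃ t, chk3 f_mm_133 t 1 1 1 = true :=
  ⟨(l 4), by decide +kernel⟩

theorem c_mm_133 : CertF 536870912 536870912 0 1230186008 134217728 67108864 true false false .dn 1 3 3
    ndF0q1 ndF4q3 pcF3 Cut.none Ext.none :=
  certF0 (fam := true) (s1 := false) (s2 := false) (a := 1) (b := 3) (c := 3) (cn := .dn) (n1 := ndF0q1) (n2 := ndF4q3) (pc := pcF3) (cut := Cut.none) (xt := Ext.none) (P1 := 536870912) (W1 := 536870912) (P2 := 0) (W2 := 1230186008) (P3 := 134217728) (W3 := 67108864)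
    rfl k0_mm_133

noncomputable def f_mm_202 : ℕ → ℕ → ℕ → ℕ → Bool := onCell 0 536870912 0 536870912 134217728 67108864
    (rowF 0 true false false .pp 2 0 2 (qsf 0 536870912 0 536870912 2) ndF0q2 ndF4q0 pcF2 Cut.none Ext.none)

def k0_mm_202 : ∃ t, chk3 f_mm_202 t 1 1 1 = true :=
  ⟨(b (a (l 4) (l 4)) (l 4)), by decide +kernel⟩

theorem c_mm_202 : CertF 0 536870912 0 536870912 134217728 67108864 true false false .pp 2 0 2
    ndF0q2 ndF4q0 pcF2 Cut.none Ext.none :=
  certF0 (fam := true) (s1 := false) (s2 := false) (a := 2) (b := 0) (c := 2) (cn := .pp) (n1 := ndF0q2) (n2 := ndF4q0) (pc := pcF2) (cut := Cut.none) (xt := Ext.none) (P1 := 0) (W1 := 536870912) (P2 := 0) (W2 := 536870912) (P3 := 134217728) (W3 := 67108864)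
    rfl k0_mm_202

noncomputable def f_mm_203 : ℕ → ℕ → ℕ → ℕ → Bool := onCell 0 536870912 1610612736 536870912 134217728 67108864
    (rowF 1 true false false .up 2 0 3 (qsf 0 536870912 0 536870912 3) ndF0q2 ndF4q0 pcF3 Cut.none Ext.none)

def k0_mm_203 : ∃ t, chk3 f_mm_203 t 1 1 1 = true :=
  ⟨(l 4), by decide +kernel⟩

theorem c_mm_203 : CertF 0 536870912 0 536870912 134217728 67108864 true false false .up 2 0 3
    ndF0q2 ndF4q0 pcF3 Cut.none Ext.none :=
  certF1 (fam := true) (s1 := false) (s2 := false) (a := 2) (b := 0) (c := 3) (cn := .up) (n1 := ndF0q2) (n2 := ndF4q0) (pc := pcF3) (cut := Cut.none) (xt := Ext.none) (P1 := 0) (W1 := 536870912) (P2 := 0) (W2 := 536870912) (P3 := 134217728) (W3 := 67108864)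
    rfl (fun _ => rfl) k0_mm_203

noncomputable def f_mm_213 : ℕ → ℕ → ℕ → ℕ → Bool := onCell 0 536870912 536870912 536870912 134217728 67108864
    (rowF 0 true false false .pnn 2 1 3 (qsf 0 536870912 536870912 536870912 3) ndF0q2 ndF4q1 pcF3 Cut.none Ext.none)

def k0_mm_213 : ∃ t, chk3 f_mm_213 t 1 1 1 = true :=
  ⟨(l 4), by decide +kernel⟩

theorem c_mm_213 : CertF 0 536870912 536870912 536870912 134217728 67108864 true false false .pnn 2 1 3
    ndF0q2 ndF4q1 pcF3 Cut.none Ext.none :=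
  certF0 (fam := true) (s1 := false) (s2 := false) (a := 2) (b := 1) (c := 3) (cn := .pnn) (n1 := ndF0q2) (n2 := ndF4q1) (pc := pcF3) (cut := Cut.none) (xt := Ext.none) (P1 := 0) (W1 := 536870912) (P2 := 536870912) (W2 := 536870912) (P3 := 134217728) (W3 := 67108864)
    rfl k0_mm_213

end Pool.Agent.Strip051.G.I1_8_3_16.Tab.C.FA04

namespace Pool.Agent.Strip051.G.I1_8_3_16.Tab.C.FA05

open Pool.Agent.Strip051.PB Pool.Agent.Strip051.PB.T
open Pool.Agent.Strip051.G.I1_8_3_16.Tab

noncomputable def cut_pp_001 : Cut := Cut.of [[⟨3, 0, 0, 1449551462⟩]]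

noncomputable def f_pp_001 : ℕ → ℕ → ℕ → ℕ → Bool := onCell 0 536870912 0 536870912 134217728 67108864
    (rowF 0 true true true .up 0 0 1 (qsf 0 536870912 0 536870912 1) ndF0q0 ndF5q0 pcF1 cut_pp_001 Ext.none)

def k0_pp_001 : ∃ t, chk3 f_pp_001 t 1 1 1 = true :=
  ⟨(l 4), by decide +kernel⟩

theorem c_pp_001 : CertF 0 536870912 0 536870912 134217728 67108864 true true true .up 0 0 1
    ndF0q0 ndF5q0 pcF1 cut_pp_001 Ext.none :=
  certF0 (fam := true) (s1 := true) (s2 := true) (a := 0) (b := 0) (c := 1) (cn := .up) (n1 := ndF0q0) (n2 := ndF5q0) (pc := pcF1) (cut := cut_pp_001) (xt := Ext.none) (P1 := 0) (W1 := 536870912) (P2 := 0) (W2 := 536870912) (P3 := 134217728) (W3 := 67108864)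
    rfl k0_pp_001

noncomputable def cut_pp_011 : Cut := Cut.of [[⟨3, 0, 0, 1449551462⟩]]

noncomputable def f_pp_011 : ℕ → ℕ → ℕ → ℕ → Bool := onCell 0 536870912 536870912 536870912 134217728 67108864
    (rowF 0 true true true .pnn 0 1 1 (qsf 0 536870912 536870912 536870912 1) ndF0q0 ndF5q1 pcF1 cut_pp_011 Ext.none)

def k0_pp_011 : ∃ t, chk3 f_pp_011 t 1 1 1 = true :=
  ⟨(l 4), by decide +kernel⟩

theorem c_pp_011 : CertF 0 536870912 536870912 536870912 134217728 67108864 true true true .pnn 0 1 1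
    ndF0q0 ndF5q1 pcF1 cut_pp_011 Ext.none :=
  certF0 (fam := true) (s1 := true) (s2 := true) (a := 0) (b := 1) (c := 1) (cn := .pnn) (n1 := ndF0q0) (n2 := ndF5q1) (pc := pcF1) (cut := cut_pp_011) (xt := Ext.none) (P1 := 0) (W1 := 536870912) (P2 := 536870912) (W2 := 536870912) (P3 := 134217728) (W3 := 67108864)
    rfl k0_pp_011

noncomputable def cut_pp_012 : Cut := Cut.of [[⟨3, 0, 0, 1449551462⟩]]

noncomputable def f_pp_012 : ℕ → ℕ → ℕ → ℕ → Bool := onCell 0 536870912 536870912 536870912 134217728 67108864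
    (rowF 0 true true true .pnp 0 1 2 (qsf 0 536870912 536870912 536870912 2) ndF0q0 ndF5q1 pcF2 cut_pp_012 Ext.none)

def k0_pp_012 : ∃ t, chk3 f_pp_012 t 1 1 1 = true :=
  ⟨(l 4), by decide +kernel⟩

theorem c_pp_012 : CertF 0 536870912 536870912 536870912 134217728 67108864 true true true .pnp 0 1 2
    ndF0q0 ndF5q1 pcF2 cut_pp_012 Ext.none :=
  certF0 (fam := true) (s1 := true) (s2 := true) (a := 0) (b := 1) (c := 2) (cn := .pnp) (n1 := ndF0q0) (n2 := ndF5q1) (pc := pcF2) (cut := cut_pp_012) (xt := Ext.none) (P1 := 0) (W1 := 536870912) (P2 := 536870912) (W2 := 536870912) (P3 := 134217728) (W3 := 67108864)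
    rfl k0_pp_012

noncomputable def cut_pp_022 : Cut := Cut.of [[⟨3, 0, 0, 1449551462⟩]]

noncomputable def f_pp_022 : ℕ → ℕ → ℕ → ℕ → Bool := onCell 0 536870912 1073741824 536870912 134217728 67108864
    (rowF 0 true true true .pp 0 2 2 (qsf 0 536870912 1073741824 536870912 2) ndF0q0 ndF5q2 pcF2 cut_pp_022 Ext.none)

def k0_pp_022 : ∃ t, chk3 f_pp_022 t 1 1 1 = true :=
  ⟨(l 4), by decide +kernel⟩

theorem c_pp_022 : CertF 0 536870912 1073741824 536870912 134217728 67108864 true true true .pp 0 2 2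
    ndF0q0 ndF5q2 pcF2 cut_pp_022 Ext.none :=
  certF0 (fam := true) (s1 := true) (s2 := true) (a := 0) (b := 2) (c := 2) (cn := .pp) (n1 := ndF0q0) (n2 := ndF5q2) (pc := pcF2) (cut := cut_pp_022) (xt := Ext.none) (P1 := 0) (W1 := 536870912) (P2 := 1073741824) (W2 := 536870912) (P3 := 134217728) (W3 := 67108864)
    rfl k0_pp_022

noncomputable def cut_pp_023 : Cut := Cut.of [[⟨3, 0, 0, 1449551462⟩]]

noncomputable def f_pp_023 : ℕ → ℕ → ℕ → ℕ → Bool := onCell 0 536870912 1073741824 536870912 134217728 67108864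
    (rowF 0 true true true .up 0 2 3 (qsf 0 536870912 1073741824 536870912 3) ndF0q0 ndF5q2 pcF3 cut_pp_023 Ext.none)

def k0_pp_023 : ∃ t, chk3 f_pp_023 t 1 1 1 = true :=
  ⟨(l 4), by decide +kernel⟩

theorem c_pp_023 : CertF 0 536870912 1073741824 536870912 134217728 67108864 true true true .up 0 2 3
    ndF0q0 ndF5q2 pcF3 cut_pp_023 Ext.none :=
  certF0 (fam := true) (s1 := true) (s2 := true) (a := 0) (b := 2) (c := 3) (cn := .up) (n1 := ndF0q0) (n2 := ndF5q2) (pc := pcF3) (cut := cut_pp_023) (xt := Ext.none) (P1 := 0) (W1 := 536870912) (P2 := 1073741824) (W2 := 536870912) (P3 := 134217728) (W3 := 67108864)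
    rfl k0_pp_023

noncomputable def cut_pp_033 : Cut := Cut.of [[⟨3, 0, 0, 1449551462⟩]]

noncomputable def f_pp_033 : ℕ → ℕ → ℕ → ℕ → Bool := onCell 0 536870912 0 1230186008 134217728 67108864
    (rowF 0 true true true .pnn 0 3 3 (qsf 0 536870912 0 1230186008 3) ndF0q0 ndF5q3 pcF3 cut_pp_033 Ext.none)

def k0_pp_033 : ∃ t, chk3 f_pp_033 t 1 1 1 = true :=
  ⟨(l 4), by decide +kernel⟩

theorem c_pp_033 : CertF 0 536870912 0 1230186008 134217728 67108864 true true true .pnn 0 3 3
    ndF0q0 ndF5q3 pcF3 cut_pp_033 Ext.none :=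
  certF0 (fam := true) (s1 := true) (s2 := true) (a := 0) (b := 3) (c := 3) (cn := .pnn) (n1 := ndF0q0) (n2 := ndF5q3) (pc := pcF3) (cut := cut_pp_033) (xt := Ext.none) (P1 := 0) (W1 := 536870912) (P2 := 0) (W2 := 1230186008) (P3 := 134217728) (W3 := 67108864)
    rfl k0_pp_033

noncomputable def cut_pp_101 : Cut := Cut.of [[⟨3, 0, 0, 1449551462⟩]]

noncomputable def f_pp_101 : ℕ → ℕ → ℕ → ℕ → Bool := onCell 536870912 536870912 0 536870912 134217728 67108864
    (rowF 0 true true true .npn 1 0 1 (qsf 536870912 536870912 0 536870912 1) ndF0q1 ndF5q0 pcF1 cut_pp_101 Ext.none)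

def k0_pp_101 : ∃ t, chk3 f_pp_101 t 1 1 1 = true :=
  ⟨(l 4), by decide +kernel⟩

theorem c_pp_101 : CertF 536870912 536870912 0 536870912 134217728 67108864 true true true .npn 1 0 1
    ndF0q1 ndF5q0 pcF1 cut_pp_101 Ext.none :=
  certF0 (fam := true) (s1 := true) (s2 := true) (a := 1) (b := 0) (c := 1) (cn := .npn) (n1 := ndF0q1) (n2 := ndF5q0) (pc := pcF1) (cut := cut_pp_101) (xt := Ext.none) (P1 := 536870912) (W1 := 536870912) (P2 := 0) (W2 := 536870912) (P3 := 134217728) (W3 := 67108864)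
    rfl k0_pp_101

noncomputable def cut_pp_102 : Cut := Cut.of [[⟨3, 0, 0, 1449551462⟩]]

noncomputable def f_pp_102 : ℕ → ℕ → ℕ → ℕ → Bool := onCell 536870912 536870912 0 536870912 134217728 67108864
    (rowF 0 true true true .npp 1 0 2 (qsf 536870912 536870912 0 536870912 2) ndF0q1 ndF5q0 pcF2 cut_pp_102 Ext.none)

def k0_pp_102 : ∃ t, chk3 f_pp_102 t 1 1 1 = true :=
  ⟨(l 4), by decide +kernel⟩

theorem c_pp_102 : CertF 536870912 536870912 0 536870912 134217728 67108864 true true true .npp 1 0 2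
    ndF0q1 ndF5q0 pcF2 cut_pp_102 Ext.none :=
  certF0 (fam := true) (s1 := true) (s2 := true) (a := 1) (b := 0) (c := 2) (cn := .npp) (n1 := ndF0q1) (n2 := ndF5q0) (pc := pcF2) (cut := cut_pp_102) (xt := Ext.none) (P1 := 536870912) (W1 := 536870912) (P2 := 0) (W2 := 536870912) (P3 := 134217728) (W3 := 67108864)
    rfl k0_pp_102

noncomputable def cut_pp_112 : Cut := Cut.of [[⟨3, 0, 0, 1449551462⟩]]

noncomputable def f_pp_112 : ℕ → ℕ → ℕ → ℕ → Bool := onCell 536870912 536870912 536870912 536870912 134217728 67108864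
    (rowF 0 true true true .dn 1 1 2 (qsf 536870912 536870912 536870912 536870912 2) ndF0q1 ndF5q1 pcF2 cut_pp_112 Ext.none)

def k0_pp_112 : ∃ t, chk3 f_pp_112 t 1 1 1 = true :=
  ⟨(l 4), by decide +kernel⟩

theorem c_pp_112 : CertF 536870912 536870912 536870912 536870912 134217728 67108864 true true true .dn 1 1 2
    ndF0q1 ndF5q1 pcF2 cut_pp_112 Ext.none :=
  certF0 (fam := true) (s1 := true) (s2 := true) (a := 1) (b := 1) (c := 2) (cn := .dn) (n1 := ndF0q1) (n2 := ndF5q1) (pc := pcF2) (cut := cut_pp_112) (xt := Ext.none) (P1 := 536870912) (W1 := 536870912) (P2 := 536870912) (W2 := 536870912) (P3 := 134217728) (W3 := 67108864)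
    rfl k0_pp_112

noncomputable def cut_pp_113 : Cut := Cut.of [[⟨3, 0, 0, 1449551462⟩]]

noncomputable def f_pp_113 : ℕ → ℕ → ℕ → ℕ → Bool := onCell 536870912 536870912 536870912 536870912 134217728 67108864
    (rowF 0 true true true .nn 1 1 3 (qsf 536870912 536870912 536870912 536870912 3) ndF0q1 ndF5q1 pcF3 cut_pp_113 Ext.none)

def k0_pp_113 : ∃ t, chk3 f_pp_113 t 1 1 1 = true :=
  ⟨(l 4), by decide +kernel⟩

theorem c_pp_113 : CertF 536870912 536870912 536870912 536870912 134217728 67108864 true true true .nn 1 1 3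
    ndF0q1 ndF5q1 pcF3 cut_pp_113 Ext.none :=
  certF0 (fam := true) (s1 := true) (s2 := true) (a := 1) (b := 1) (c := 3) (cn := .nn) (n1 := ndF0q1) (n2 := ndF5q1) (pc := pcF3) (cut := cut_pp_113) (xt := Ext.none) (P1 := 536870912) (W1 := 536870912) (P2 := 536870912) (W2 := 536870912) (P3 := 134217728) (W3 := 67108864)
    rfl k0_pp_113

noncomputable def cut_pp_123 : Cut := Cut.of [[⟨3, 0, 0, 1449551462⟩]]

noncomputable def f_pp_123 : ℕ → ℕ → ℕ → ℕ → Bool := onCell 536870912 536870912 1073741824 536870912 134217728 67108864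
    (rowF 0 true true true .npn 1 2 3 (qsf 536870912 536870912 1073741824 536870912 3) ndF0q1 ndF5q2 pcF3 cut_pp_123 Ext.none)

def k0_pp_123 : ∃ t, chk3 f_pp_123 t 1 1 1 = true :=
  ⟨(l 4), by decide +kernel⟩

theorem c_pp_123 : CertF 536870912 536870912 1073741824 536870912 134217728 67108864 true true true .npn 1 2 3
    ndF0q1 ndF5q2 pcF3 cut_pp_123 Ext.none :=
  certF0 (fam := true) (s1 := true) (s2 := true) (a := 1) (b := 2) (c := 3) (cn := .npn) (n1 := ndF0q1) (n2 := ndF5q2) (pc := pcF3) (cut := cut_pp_123) (xt := Ext.none) (P1 := 536870912) (W1 := 536870912) (P2 := 1073741824) (W2 := 536870912) (P3 := 134217728) (W3 := 67108864)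
    rfl k0_pp_123

noncomputable def cut_pp_133 : Cut := Cut.of [[⟨3, 0, 0, 1449551462⟩]]

noncomputable def f_pp_133 : ℕ → ℕ → ℕ → ℕ → Bool := onCell 536870912 536870912 0 1230186008 134217728 67108864
    (rowF 0 true true true .dn 1 3 3 (qsf 536870912 536870912 0 1230186008 3) ndF0q1 ndF5q3 pcF3 cut_pp_133 Ext.none)

def k0_pp_133 : ∃ t, chk3 f_pp_133 t 1 1 1 = true :=
  ⟨(l 4), by decide +kernel⟩

theorem c_pp_133 : CertF 536870912 536870912 0 1230186008 134217728 67108864 true true true .dn 1 3 3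
    ndF0q1 ndF5q3 pcF3 cut_pp_133 Ext.none :=
  certF0 (fam := true) (s1 := true) (s2 := true) (a := 1) (b := 3) (c := 3) (cn := .dn) (n1 := ndF0q1) (n2 := ndF5q3) (pc := pcF3) (cut := cut_pp_133) (xt := Ext.none) (P1 := 536870912) (W1 := 536870912) (P2 := 0) (W2 := 1230186008) (P3 := 134217728) (W3 := 67108864)
    rfl k0_pp_133

noncomputable def cut_pp_202 : Cut := Cut.of [[⟨3, 0, 0, 1449551462⟩]]

noncomputable def f_pp_202 : ℕ → ℕ → ℕ → ℕ → Bool := onCell 0 536870912 0 536870912 134217728 67108864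
    (rowF 0 true true true .pp 2 0 2 (qsf 0 536870912 0 536870912 2) ndF0q2 ndF5q0 pcF2 cut_pp_202 Ext.none)

def k0_pp_202 : ∃ t, chk3 f_pp_202 t 1 1 1 = true :=
  ⟨(l 4), by decide +kernel⟩

theorem c_pp_202 : CertF 0 536870912 0 536870912 134217728 67108864 true true true .pp 2 0 2
    ndF0q2 ndF5q0 pcF2 cut_pp_202 Ext.none :=
  certF0 (fam := true) (s1 := true) (s2 := true) (a := 2) (b := 0) (c := 2) (cn := .pp) (n1 := ndF0q2) (n2 := ndF5q0) (pc := pcF2) (cut := cut_pp_202) (xt := Ext.none) (P1 := 0) (W1 := 536870912) (P2 := 0) (W2 := 536870912) (P3 := 134217728) (W3 := 67108864)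
    rfl k0_pp_202

noncomputable def cut_pp_203 : Cut := Cut.of [[⟨3, 0, 0, 1449551462⟩]]

noncomputable def f_pp_203 : ℕ → ℕ → ℕ → ℕ → Bool := onCell 0 536870912 0 536870912 134217728 67108864
    (rowF 0 true true true .up 2 0 3 (qsf 0 536870912 0 536870912 3) ndF0q2 ndF5q0 pcF3 cut_pp_203 Ext.none)

def k0_pp_203 : ∃ t, chk3 f_pp_203 t 1 1 1 = true :=
  ⟨(l 4), by decide +kernel⟩

theorem c_pp_203 : CertF 0 536870912 0 536870912 134217728 67108864 true true true .up 2 0 3
    ndF0q2 ndF5q0 pcF3 cut_pp_203 Ext.none :=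
  certF0 (fam := true) (s1 := true) (s2 := true) (a := 2) (b := 0) (c := 3) (cn := .up) (n1 := ndF0q2) (n2 := ndF5q0) (pc := pcF3) (cut := cut_pp_203) (xt := Ext.none) (P1 := 0) (W1 := 536870912) (P2 := 0) (W2 := 536870912) (P3 := 134217728) (W3 := 67108864)
    rfl k0_pp_203

noncomputable def cut_pp_213 : Cut := Cut.of [[⟨3, 0, 0, 1449551462⟩]]

noncomputable def f_pp_213 : ℕ → ℕ → ℕ → ℕ → Bool := onCell 0 536870912 536870912 536870912 134217728 67108864
    (rowF 0 true true true .pnn 2 1 3 (qsf 0 536870912 536870912 536870912 3) ndF0q2 ndF5q1 pcF3 cut_pp_213 Ext.none)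

def k0_pp_213 : ∃ t, chk3 f_pp_213 t 1 1 1 = true :=
  ⟨(l 4), by decide +kernel⟩

theorem c_pp_213 : CertF 0 536870912 536870912 536870912 134217728 67108864 true true true .pnn 2 1 3
    ndF0q2 ndF5q1 pcF3 cut_pp_213 Ext.none :=
  certF0 (fam := true) (s1 := true) (s2 := true) (a := 2) (b := 1) (c := 3) (cn := .pnn) (n1 := ndF0q2) (n2 := ndF5q1) (pc := pcF3) (cut := cut_pp_213) (xt := Ext.none) (P1 := 0) (W1 := 536870912) (P2 := 536870912) (W2 := 536870912) (P3 := 134217728) (W3 := 67108864)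
    rfl k0_pp_213

noncomputable def cut_pm_001 : Cut := Cut.of [[⟨3, 0, 0, 1449551462⟩]]

noncomputable def f_pm_001 : ℕ → ℕ → ℕ → ℕ → Bool := onCell 0 536870912 536870912 536870912 134217728 67108864
    (rowF 1 true true false .up 0 0 1 (qsf 0 536870912 0 536870912 1) ndF0q0 ndF5q0 pcF1 cut_pm_001 Ext.none)

def k0_pm_001 : ∃ t, chk3 f_pm_001 t 1 1 1 = true :=
  ⟨(a (l 6) (b (l 6) (b (l 6) (a (l 6) (b (l 6) (a (l 6) (l 17783728))))))), by decide +kernel⟩

theorem c_pm_001 : CertF 0 536870912 0 536870912 134217728 67108864 true true false .up 0 0 1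
    ndF0q0 ndF5q0 pcF1 cut_pm_001 Ext.none :=
  certF1 (fam := true) (s1 := true) (s2 := false) (a := 0) (b := 0) (c := 1) (cn := .up) (n1 := ndF0q0) (n2 := ndF5q0) (pc := pcF1) (cut := cut_pm_001) (xt := Ext.none) (P1 := 0) (W1 := 536870912) (P2 := 0) (W2 := 536870912) (P3 := 134217728) (W3 := 67108864)
    rfl (fun _ => rfl) k0_pm_001

noncomputable def cut_pm_011 : Cut := Cut.of [[⟨3, 0, 0, 1449551462⟩], [⟨0, 0, 0, 67108864⟩, ⟨1, 1, 0, 67108864⟩, ⟨2, 1, 0, 67108864⟩]]

noncomputable def f_pm_011 : ℕ → ℕ → ℕ → ℕ → Bool := onCell 0 536870912 536870912 536870912 134217728 67108864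
    (rowF 1 true true false .pnn 0 1 1 (qsf 0 536870912 536870912 536870912 1) ndF0q0 ndF5q1 pcF1 cut_pm_011 Ext.none)

def k0_pm_011 : ∃ t, chk3 f_pm_011 t 1 1 1 = true :=
  ⟨(b (l 6) (a (l 6) (b (l 6) (a (l 6) (b (l 6) (a (l 6) (l 17778944))))))), by decide +kernel⟩

theorem c_pm_011 : CertF 0 536870912 536870912 536870912 134217728 67108864 true true false .pnn 0 1 1
    ndF0q0 ndF5q1 pcF1 cut_pm_011 Ext.none :=
  certF1 (fam := true) (s1 := true) (s2 := false) (a := 0) (b := 1) (c := 1) (cn := .pnn) (n1 := ndF0q0) (n2 := ndF5q1) (pc := pcF1) (cut := cut_pm_011) (xt := Ext.none) (P1 := 0) (W1 := 536870912) (P2 := 536870912) (W2 := 536870912) (P3 := 134217728) (W3 := 67108864)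
    rfl (fun _ => rfl) k0_pm_011

noncomputable def cut_pm_012 : Cut := Cut.of [[⟨3, 0, 0, 1449551462⟩], [⟨0, 0, 0, 67108864⟩, ⟨1, 1, 0, 67108864⟩, ⟨2, 1, 0, 67108864⟩]]

noncomputable def f_pm_012 : ℕ → ℕ → ℕ → ℕ → Bool := onCell 1073741824 536870912 536870912 536870912 134217728 67108864
    (rowF 2 true true false .pnp 0 1 2 (qsf 0 536870912 536870912 536870912 2) ndF0q0 ndF5q1 pcF2 cut_pm_012 Ext.none)

def k0_pm_012 : ∃ t, chk3 f_pm_012 t 2 2 1 = true :=
  ⟨(a (b (a (a (b (l 18117768) (l 17989416)) (b (l 18254296) (l 18158784))) (a (a (l 18307400) (l 18584728)) (a (l 18392392) (l 18427864)))) (a (a (l 6) (b (c (l 18163536) (l 17908944)) (l 6))) (a (a (b (l 18172024) (l 6)) (b (a (l 18230848) (l 18266176)) (a (l 18109832) (l 18154896)))) (a (b (l 18298680) (c (l 18348224) (l 18056944))) (b (l 18352616) (l 18275240)))))) (a (b (a (a (l 18455944) (l 2)) (l 2)) (a (a (b (l 18398600) (l 18338224)) (b (l 18442456) (a (l 18381336) (l 18408976)))) (l 18704568))) (b (l 2) (a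 (l 18529472) (l 18573424))))), by decide +kernel⟩

def k1_pm_012 : ∃ t, chk3 f_pm_012 t 2 3 1 = true :=
  ⟨(a (b (a (l 6) (a (l 6) (b (a (c (l 18233296) (a (l 6) (l 17906512))) (c (l 18327304) (l 17978272))) (l 6)))) (l 6)) (a (b (a (a (b (l 18241056) (b (l 18079424) (l 6))) (b (a (l 18301304) (l 18339552)) (a (c (l 18368128) (l 17940560)) (c (l 18420112) (b (l 18054736) (l 17934136)))))) (b (l 18415960) (c (l 18528832) (l 18130624)))) (a (l 6) (b (c (b (l 18446496) (l 18108784)) (b (l 17949160) (a (b (l 17715664) (l 6)) (l 17838144)))) (a (l 6) (b (c (l 18169896) (b (l 17636880) (c (l 17641168) (l 17247848)))) (l 6)))))) (b (a (b (l 18515072) (l 18486080)) (b (l 18591584) (l 18603080))) (b (a (c (l 18630168) (b (l 18199392) (l 18077632))) (c (l 18797800) (b (l 18391120) (l 18327616)))) (a (b (c (l 18514224) (a (b (l 17845976) (l 17704000)) (l 17975264))) (c (b (c (l 18576968) (l 18209312)) (a (c (l 18361384) (l 17930792)) (l 18386640))) (b (a (c (l 17713664) (b (l 17382848)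 (l 17267552))) (l 17628792)) (a (a (l 6) (c (l 17576176) (b (l 17218704) (l 16951456)))) (c (l 17790792) (b (l 17447160) (l 17141416))))))) (c (b (l 18772640) (a (l 18621944) (l 18770840))) (b (a (l 18143224) (l 18286256)) (a (b (l 17991600) (c (l 18035176) (l 17665536))) (l 17996472))))))))), by decide +kernel⟩

def k2_pm_012 : ∃ t, chk3 f_pm_012 t 3 1 1 = true :=
  ⟨(b (a (b (l 2) (a (l 18643592) (l 2))) (l 2)) (b (a (a (b (l 18698160) (l 18744496)) (l 18816200)) (b (l 2) (l 18900104))) (a (b (a (a (l 18730352) (l 18839040)) (l 18945640)) (a (c (a (l 18957992) (l 19107320)) (b (l 18562160) (a (l 18362168) (l 18603416)))) (c (l 19242408) (l 18836512)))) (b (l 19129256) (a (l 19146432) (l 19165872)))))), by decide +kernel⟩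

theorem s3_pm_012 : ∃ t, chk3 f_pm_012 t 2 1 1 = true := ex3_b k0_pm_012 k1_pm_012

theorem s4_pm_012 : ∃ t, chk3 f_pm_012 t 1 1 1 = true := ex3_a s3_pm_012 k2_pm_012

theorem c_pm_012 : CertF 0 536870912 536870912 536870912 134217728 67108864 true true false .pnp 0 1 2
    ndF0q0 ndF5q1 pcF2 cut_pm_012 Ext.none :=
  certF2 (fam := true) (s1 := true) (s2 := false) (a := 0) (b := 1) (c := 2) (cn := .pnp) (n1 := ndF0q0) (n2 := ndF5q1) (pc := pcF2) (cut := cut_pm_012) (xt := Ext.none) (P1 := 0) (W1 := 536870912) (P2 := 536870912) (W2 := 536870912) (P3 := 134217728) (W3 := 67108864)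
    rfl (fun _ => rfl) s4_pm_012

noncomputable def cut_pm_022 : Cut := Cut.of [[⟨3, 0, 0, 1449551462⟩], [⟨0, 0, 0, 67108864⟩, ⟨1, 1, 0, 67108864⟩, ⟨2, 1, 0, 67108864⟩]]

noncomputable def f_pm_022 : ℕ → ℕ → ℕ → ℕ → Bool := onCell 1073741824 536870912 1073741824 536870912 134217728 67108864
    (rowF 2 true true false .pp 0 2 2 (qsf 0 536870912 1073741824 536870912 2) ndF0q0 ndF5q2 pcF2 cut_pm_022 Ext.none)

def k0_pm_022 : ∃ t, chk3 f_pm_022 t 1 1 1 = true :=
  ⟨(a (b (a (l 6) (a (l 6) (b (b (b (a (c (a (a (l 6) (l 18028032)) (l 18242336)) (b (a (a (l 6) (a (l 6) (c (l 17460240) (l 17017048)))) (c (l 17654784) (a (l 17150384) (l 17314928)))) (a (l 6) (c (l 17589672) (l 17177720))))) (c (l 18364888) (a (c (l 17887984) (b (l 17535552) (l 17473728))) (l 17930056)))) (a (a (l 6) (a (l 6) (c (l 18158848) (l 17377440)))) (c (l 18410104) (a (l 17577952) (l 17807656))))) (a (l 6) (c (b (l 18286880) (l 18184800)) (b (a (l 17483944) (l 17707104)) (l 17525272))))) (a (l 6) (a (l 6)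 (b (b (l 17689104) (l 6)) (l 6))))))) (l 6)) (b (a (b (a (b (c (a (l 18780112) (l 18989240)) (a (b (l 18213776) (l 18089304)) (l 18434216))) (c (l 18650168) (a (l 17938136) (l 18219240)))) (b (l 18888920) (l 18735368))) (a (b (c (l 18466944) (a (l 17801320) (l 18066368))) (c (l 18346272) (l 17863608))) (b (l 18564912) (l 18439920)))) (b (a (b (l 19108112) (l 18912432)) (l 19056360)) (b (l 18800800) (l 18676816)))) (a (b (a (b (a (c (l 18233552) (l 289409111767)) (l 18162552)) (l 360813594327)) (b (l 18360680) (l 320011741879))) (a (l 1) (l 368330823479))) (b (a (l 18499464) (l 18575152)) (b (l 18486584) (l 18501432)))))), by decide +kernel⟩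

theorem c_pm_022 : CertF 0 536870912 1073741824 536870912 134217728 67108864 true true false .pp 0 2 2
    ndF0q0 ndF5q2 pcF2 cut_pm_022 Ext.none :=
  certF2 (fam := true) (s1 := true) (s2 := false) (a := 0) (b := 2) (c := 2) (cn := .pp) (n1 := ndF0q0) (n2 := ndF5q2) (pc := pcF2) (cut := cut_pm_022) (xt := Ext.none) (P1 := 0) (W1 := 536870912) (P2 := 1073741824) (W2 := 536870912) (P3 := 134217728) (W3 := 67108864)
    rfl (fun _ => rfl) k0_pm_022

noncomputable def cut_pm_023 : Cut := Cut.of [[⟨3, 0, 0, 1449551462⟩]]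

noncomputable def f_pm_023 : ℕ → ℕ → ℕ → ℕ → Bool := onCell 0 536870912 1073741824 536870912 134217728 67108864
    (rowF 0 true true false .up 0 2 3 (qsf 0 536870912 1073741824 536870912 3) ndF0q0 ndF5q2 pcF3 cut_pm_023 Ext.none)

def k0_pm_023 : ∃ t, chk3 f_pm_023 t 1 1 1 = true :=
  ⟨(a (b (b (l 1) (a (l 1) (l 372625743975))) (b (a (l 361351106135) (l 329676544679)) (a (l 319475803127) (l 18450032)))) (b (a (b (l 372626231527) (l 18759768)) (b (l 19112288) (l 18578320))) (a (b (l 18526048) (l 18225728)) (b (l 18254352) (a (l 17989120) (b (l 17906776) (a (l 17769648) (b (l 17727504) (a (l 17657272) (b (l 17637080) (a (l 17600960) (b (l 17591048) (l 4))))))))))))), by decide +kernel⟩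

theorem c_pm_023 : CertF 0 536870912 1073741824 536870912 134217728 67108864 true true false .up 0 2 3
    ndF0q0 ndF5q2 pcF3 cut_pm_023 Ext.none :=
  certF0 (fam := true) (s1 := true) (s2 := false) (a := 0) (b := 2) (c := 3) (cn := .up) (n1 := ndF0q0) (n2 := ndF5q2) (pc := pcF3) (cut := cut_pm_023) (xt := Ext.none) (P1 := 0) (W1 := 536870912) (P2 := 1073741824) (W2 := 536870912) (P3 := 134217728) (W3 := 67108864)
    rfl k0_pm_023

noncomputable def cut_pm_033 : Cut := Cut.of [[⟨3, 0, 0, 1449551462⟩]]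

noncomputable def f_pm_033 : ℕ → ℕ → ℕ → ℕ → Bool := onCell 1610612736 536870912 0 1230186008 134217728 67108864
    (rowF 2 true true false .pnn 0 3 3 (qsf 0 536870912 0 1230186008 3) ndF0q0 ndF5q3 pcF3 cut_pm_033 Ext.none)

def k0_pm_033 : ∃ t, chk3 f_pm_033 t 1 1 1 = true :=
  ⟨(a (b (l 1) (b (b (l 1) (a (l 1) (l 18265760))) (b (a (l 1) (l 18278912)) (a (l 18479680) (l 18414256))))) (a (b (l 1) (b (b (a (l 1) (l 17887808)) (l 17982656)) (b (l 18011376) (l 18243232)))) (b (b (l 4) (a (l 17842448) (a (l 17788184) (l 4)))) (a (b (l 17831696) (b (l 17788960) (l 17796296))) (b (a (l 17675256) (a (l 17634600) (b (l 4) (a (l 17605728) (l 17613200))))) (a (b (l 17674056) (l 17671440)) (a (b (l 17612640) (l 17604432)) (b (a (l 17581368) (l 17646296)) (a (l 17568632) (l 17625384)))))))))), by decide +kernel⟩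

theorem c_pm_033 : CertF 0 536870912 0 1230186008 134217728 67108864 true true false .pnn 0 3 3
    ndF0q0 ndF5q3 pcF3 cut_pm_033 Ext.none :=
  certF2 (fam := true) (s1 := true) (s2 := false) (a := 0) (b := 3) (c := 3) (cn := .pnn) (n1 := ndF0q0) (n2 := ndF5q3) (pc := pcF3) (cut := cut_pm_033) (xt := Ext.none) (P1 := 0) (W1 := 536870912) (P2 := 0) (W2 := 1230186008) (P3 := 134217728) (W3 := 67108864)
    rfl (fun _ => rfl) k0_pm_033

noncomputable def cut_pm_101 : Cut := Cut.of [[⟨3, 0, 0, 1449551462⟩]]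

noncomputable def f_pm_101 : ℕ → ℕ → ℕ → ℕ → Bool := onCell 536870912 536870912 536870912 536870912 134217728 67108864
    (rowF 1 true true false .npn 1 0 1 (qsf 536870912 536870912 0 536870912 1) ndF0q1 ndF5q0 pcF1 cut_pm_101 Ext.none)

def k0_pm_101 : ∃ t, chk3 f_pm_101 t 1 1 1 = true :=
  ⟨(b (a (b (l 6) (a (l 6) (a (l 6) (b (l 6) (l 17532776))))) (b (l 1) (a (a (l 203510013927) (l 1)) (l 1)))) (a (b (a (l 6) (a (b (l 17518752) (l 17672232)) (l 17648712))) (a (b (a (l 6) (l 17744672)) (a (l 17871992) (l 17944792))) (b (l 17892808) (l 18059016)))) (b (a (a (l 17872664) (l 18046184)) (a (l 18237672) (l 1))) (a (a (l 18113568) (l 18248688)) (a (l 18452920) (l 18711192)))))), by decide +kernel⟩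

theorem c_pm_101 : CertF 536870912 536870912 0 536870912 134217728 67108864 true true false .npn 1 0 1
    ndF0q1 ndF5q0 pcF1 cut_pm_101 Ext.none :=
  certF1 (fam := true) (s1 := true) (s2 := false) (a := 1) (b := 0) (c := 1) (cn := .npn) (n1 := ndF0q1) (n2 := ndF5q0) (pc := pcF1) (cut := cut_pm_101) (xt := Ext.none) (P1 := 536870912) (W1 := 536870912) (P2 := 0) (W2 := 536870912) (P3 := 134217728) (W3 := 67108864)
    rfl (fun _ => rfl) k0_pm_101

noncomputable def cut_pm_102 : Cut := Cut.of [[⟨3, 0, 0, 1449551462⟩]]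

noncomputable def f_pm_102 : ℕ → ℕ → ℕ → ℕ → Bool := onCell 536870912 536870912 1073741824 536870912 134217728 67108864
    (rowF 1 true true false .npp 1 0 2 (qsf 536870912 536870912 0 536870912 2) ndF0q1 ndF5q0 pcF2 cut_pm_102 Ext.none)

def k0_pm_102 : ∃ t, chk3 f_pm_102 t 1 1 1 = true :=
  ⟨(a (b (a (b (b (a (l 18242248) (l 18327536)) (b (b (l 18375552) (l 18546360)) (a (l 2) (l 18424560)))) (b (b (b (l 18465120) (l 2)) (l 2)) (l 2))) (b (b (l 18462416) (b (b (l 18491880) (l 18499592)) (l 18498376))) (b (b (b (l 18520840) (l 18530320)) (l 18539328)) (l 18568136)))) (a (l 2) (b (a (l 2) (l 18647504)) (l 2)))) (b (b (a (b (l 18661248) (b (b (l 18634896) (l 18626872)) (l 18614544))) (b (l 18915752) (b (l 18831192) (l 18784896)))) (b (a (b (l 18608608) (l 18598656)) (l 18728992)) (a (l 18596920) (l 18655352)))) (a (b (a (l 18619440) (l 18588560)) (a (l 2) (l 18582952))) (b (l 18579328) (l 18566184))))), by decide +kernel⟩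

theorem c_pm_102 : CertF 536870912 536870912 0 536870912 134217728 67108864 true true false .npp 1 0 2
    ndF0q1 ndF5q0 pcF2 cut_pm_102 Ext.none :=
  certF1 (fam := true) (s1 := true) (s2 := false) (a := 1) (b := 0) (c := 2) (cn := .npp) (n1 := ndF0q1) (n2 := ndF5q0) (pc := pcF2) (cut := cut_pm_102) (xt := Ext.none) (P1 := 536870912) (W1 := 536870912) (P2 := 0) (W2 := 536870912) (P3 := 134217728) (W3 := 67108864)
    rfl (fun _ => rfl) k0_pm_102

noncomputable def cut_pm_112 : Cut := Cut.of [[⟨3, 0, 0, 1449551462⟩]]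

noncomputable def f_pm_112 : ℕ → ℕ → ℕ → ℕ → Bool := onCell 536870912 536870912 1073741824 536870912 134217728 67108864
    (rowF 1 true true false .dn 1 1 2 (qsf 536870912 536870912 536870912 536870912 2) ndF0q1 ndF5q1 pcF2 cut_pm_112 Ext.none)

def k0_pm_112 : ∃ t, chk3 f_pm_112 t 1 1 1 = true :=
  ⟨(a (b (a (b (b (a (l 18236592) (l 18322080)) (b (b (l 18366952) (l 18390184)) (b (l 18410568) (l 18432384)))) (b (b (b (l 18452608) (l 18476072)) (l 18498064)) (l 18549200))) (b (b (l 1) (b (l 1) (l 18488016))) (b (b (l 18685264) (l 18526992)) (l 18546016)))) (a (b (l 18718920) (l 18958296)) (b (l 18631648) (l 18756216)))) (b (a (b (l 1) (b (l 1) (l 18580712))) (l 1)) (b (a (l 18584240) (l 18549816)) (a (l 18590272) (l 18423056))))), by decide +kernel⟩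

theorem c_pm_112 : CertF 536870912 536870912 536870912 536870912 134217728 67108864 true true false .dn 1 1 2
    ndF0q1 ndF5q1 pcF2 cut_pm_112 Ext.none :=
  certF1 (fam := true) (s1 := true) (s2 := false) (a := 1) (b := 1) (c := 2) (cn := .dn) (n1 := ndF0q1) (n2 := ndF5q1) (pc := pcF2) (cut := cut_pm_112) (xt := Ext.none) (P1 := 536870912) (W1 := 536870912) (P2 := 536870912) (W2 := 536870912) (P3 := 134217728) (W3 := 67108864)
    rfl (fun _ => rfl) k0_pm_112

noncomputable def cut_pm_113 : Cut := Cut.of [[⟨3, 0, 0, 1449551462⟩]]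

noncomputable def f_pm_113 : ℕ → ℕ → ℕ → ℕ → Bool := onCell 536870912 536870912 1610612736 536870912 134217728 67108864
    (rowF 1 true true false .nn 1 1 3 (qsf 536870912 536870912 536870912 536870912 3) ndF0q1 ndF5q1 pcF3 cut_pm_113 Ext.none)

def k0_pm_113 : ∃ t, chk3 f_pm_113 t 1 1 1 = true :=
  ⟨(b (a (b (a (l 18835608) (l 18375208)) (a (l 19117872) (a (l 18687800) (l 18456808)))) (b (a (l 18153752) (b (l 18173760) (l 18152416))) (a (l 18357440) (l 17936192)))) (b (a (a (l 2) (b (l 18707680) (l 2))) (a (l 18383848) (l 4))) (a (l 2) (b (l 4) (l 4))))), by decide +kernel⟩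

theorem c_pm_113 : CertF 536870912 536870912 536870912 536870912 134217728 67108864 true true false .nn 1 1 3
    ndF0q1 ndF5q1 pcF3 cut_pm_113 Ext.none :=
  certF1 (fam := true) (s1 := true) (s2 := false) (a := 1) (b := 1) (c := 3) (cn := .nn) (n1 := ndF0q1) (n2 := ndF5q1) (pc := pcF3) (cut := cut_pm_113) (xt := Ext.none) (P1 := 536870912) (W1 := 536870912) (P2 := 536870912) (W2 := 536870912) (P3 := 134217728) (W3 := 67108864)
    rfl (fun _ => rfl) k0_pm_113

noncomputable def cut_pm_123 : Cut := Cut.of [[⟨3, 0, 0, 1449551462⟩]]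

noncomputable def f_pm_123 : ℕ → ℕ → ℕ → ℕ → Bool := onCell 536870912 536870912 1610612736 536870912 134217728 67108864
    (rowF 1 true true false .npn 1 2 3 (qsf 536870912 536870912 1073741824 536870912 3) ndF0q1 ndF5q2 pcF3 cut_pm_123 Ext.none)

def k0_pm_123 : ∃ t, chk3 f_pm_123 t 1 1 1 = true :=
  ⟨(b (a (a (b (l 18844488) (l 18483120)) (b (a (l 18916408) (l 1)) (b (l 18672632) (l 18482536)))) (b (l 1) (a (b (l 1) (l 18686832)) (l 1)))) (b (a (a (b (l 18207208) (l 18029736)) (b (l 18280592) (l 18095544))) (a (b (l 18425752) (l 18191048)) (l 4))) (a (a (b (l 17845608) (b (l 17708016) (b (l 17641352) (l 4)))) (b (l 17901024) (l 4))) (b (l 4) (l 4))))), by decide +kernel⟩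

theorem c_pm_123 : CertF 536870912 536870912 1073741824 536870912 134217728 67108864 true true false .npn 1 2 3
    ndF0q1 ndF5q2 pcF3 cut_pm_123 Ext.none :=
  certF1 (fam := true) (s1 := true) (s2 := false) (a := 1) (b := 2) (c := 3) (cn := .npn) (n1 := ndF0q1) (n2 := ndF5q2) (pc := pcF3) (cut := cut_pm_123) (xt := Ext.none) (P1 := 536870912) (W1 := 536870912) (P2 := 1073741824) (W2 := 536870912) (P3 := 134217728) (W3 := 67108864)
    rfl (fun _ => rfl) k0_pm_123

noncomputable def cut_pm_133 : Cut := Cut.of [[⟨3, 0, 0, 1449551462⟩]]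

noncomputable def f_pm_133 : ℕ → ℕ → ℕ → ℕ → Bool := onCell 536870912 536870912 0 1230186008 134217728 67108864
    (rowF 0 true true false .dn 1 3 3 (qsf 536870912 536870912 0 1230186008 3) ndF0q1 ndF5q3 pcF3 cut_pm_133 Ext.none)

def k0_pm_133 : ∃ t, chk3 f_pm_133 t 1 1 1 = true :=
  ⟨(b (l 2) (b (l 2) (a (b (l 2) (l 4)) (l 2)))), by decide +kernel⟩

theorem c_pm_133 : CertF 536870912 536870912 0 1230186008 134217728 67108864 true true false .dn 1 3 3
    ndF0q1 ndF5q3 pcF3 cut_pm_133 Ext.none :=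
  certF0 (fam := true) (s1 := true) (s2 := false) (a := 1) (b := 3) (c := 3) (cn := .dn) (n1 := ndF0q1) (n2 := ndF5q3) (pc := pcF3) (cut := cut_pm_133) (xt := Ext.none) (P1 := 536870912) (W1 := 536870912) (P2 := 0) (W2 := 1230186008) (P3 := 134217728) (W3 := 67108864)
    rfl k0_pm_133

noncomputable def cut_pm_202 : Cut := Cut.of [[⟨3, 0, 0, 1449551462⟩]]

noncomputable def f_pm_202 : ℕ → ℕ → ℕ → ℕ → Bool := onCell 0 536870912 0 536870912 134217728 67108864
    (rowF 0 true true false .pp 2 0 2 (qsf 0 536870912 0 536870912 2) ndF0q2 ndF5q0 pcF2 cut_pm_202 Ext.none)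

def k0_pm_202 : ∃ t, chk3 f_pm_202 t 1 1 1 = true :=
  ⟨(a (l 4) (a (b (b (b (l 18912680) (l 18728920)) (l 18719600)) (l 4)) (b (b (b (l 19036560) (l 18953904)) (l 18901872)) (b (b (l 18490696) (l 18367504)) (a (l 4) (l 18269048)))))), by decide +kernel⟩

theorem c_pm_202 : CertF 0 536870912 0 536870912 134217728 67108864 true true false .pp 2 0 2
    ndF0q2 ndF5q0 pcF2 cut_pm_202 Ext.none :=
  certF0 (fam := true) (s1 := true) (s2 := false) (a := 2) (b := 0) (c := 2) (cn := .pp) (n1 := ndF0q2) (n2 := ndF5q0) (pc := pcF2) (cut := cut_pm_202) (xt := Ext.none) (P1 := 0) (W1 := 536870912) (P2 := 0) (W2 := 536870912) (P3 := 134217728) (W3 := 67108864)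
    rfl k0_pm_202

noncomputable def cut_pm_203 : Cut := Cut.of [[⟨3, 0, 0, 1449551462⟩]]

noncomputable def f_pm_203 : ℕ → ℕ → ℕ → ℕ → Bool := onCell 0 536870912 1610612736 536870912 134217728 67108864
    (rowF 1 true true false .up 2 0 3 (qsf 0 536870912 0 536870912 3) ndF0q2 ndF5q0 pcF3 cut_pm_203 Ext.none)

def k0_pm_203 : ∃ t, chk3 f_pm_203 t 1 1 1 = true :=
  ⟨(a (l 4) (b (l 4) (l 2))), by decide +kernel⟩

theorem c_pm_203 : CertF 0 536870912 0 536870912 134217728 67108864 true true false .up 2 0 3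
    ndF0q2 ndF5q0 pcF3 cut_pm_203 Ext.none :=
  certF1 (fam := true) (s1 := true) (s2 := false) (a := 2) (b := 0) (c := 3) (cn := .up) (n1 := ndF0q2) (n2 := ndF5q0) (pc := pcF3) (cut := cut_pm_203) (xt := Ext.none) (P1 := 0) (W1 := 536870912) (P2 := 0) (W2 := 536870912) (P3 := 134217728) (W3 := 67108864)
    rfl (fun _ => rfl) k0_pm_203

noncomputable def cut_pm_213 : Cut := Cut.of [[⟨3, 0, 0, 1449551462⟩]]

noncomputable def f_pm_213 : ℕ → ℕ → ℕ → ℕ → Bool := onCell 0 536870912 536870912 536870912 134217728 67108864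
    (rowF 0 true true false .pnn 2 1 3 (qsf 0 536870912 536870912 536870912 3) ndF0q2 ndF5q1 pcF3 cut_pm_213 Ext.none)

def k0_pm_213 : ∃ t, chk3 f_pm_213 t 1 1 1 = true :=
  ⟨(a (l 4) (b (l 4) (l 4))), by decide +kernel⟩

theorem c_pm_213 : CertF 0 536870912 536870912 536870912 134217728 67108864 true true false .pnn 2 1 3
    ndF0q2 ndF5q1 pcF3 cut_pm_213 Ext.none :=
  certF0 (fam := true) (s1 := true) (s2 := false) (a := 2) (b := 1) (c := 3) (cn := .pnn) (n1 := ndF0q2) (n2 := ndF5q1) (pc := pcF3) (cut := cut_pm_213) (xt := Ext.none) (P1 := 0) (W1 := 536870912) (P2 := 536870912) (W2 := 536870912) (P3 := 134217728) (W3 := 67108864)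
    rfl k0_pm_213

noncomputable def cut_mm_001 : Cut := Cut.of [[⟨3, 0, 0, 1449551462⟩]]

noncomputable def f_mm_001 : ℕ → ℕ → ℕ → ℕ → Bool := onCell 0 536870912 0 536870912 134217728 67108864
    (rowF 0 true false false .up 0 0 1 (qsf 0 536870912 0 536870912 1) ndF0q0 ndF5q0 pcF1 cut_mm_001 Ext.none)

def k0_mm_001 : ∃ t, chk3 f_mm_001 t 1 1 1 = true :=
  ⟨(l 4), by decide +kernel⟩

theorem c_mm_001 : CertF 0 536870912 0 536870912 134217728 67108864 true false false .up 0 0 1
    ndF0q0 ndF5q0 pcF1 cut_mm_001 Ext.none :=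
  certF0 (fam := true) (s1 := false) (s2 := false) (a := 0) (b := 0) (c := 1) (cn := .up) (n1 := ndF0q0) (n2 := ndF5q0) (pc := pcF1) (cut := cut_mm_001) (xt := Ext.none) (P1 := 0) (W1 := 536870912) (P2 := 0) (W2 := 536870912) (P3 := 134217728) (W3 := 67108864)
    rfl k0_mm_001

noncomputable def cut_mm_011 : Cut := Cut.of [[⟨3, 0, 0, 1449551462⟩]]

noncomputable def f_mm_011 : ℕ → ℕ → ℕ → ℕ → Bool := onCell 0 536870912 536870912 536870912 134217728 67108864
    (rowF 0 true false false .pnn 0 1 1 (qsf 0 536870912 536870912 536870912 1) ndF0q0 ndF5q1 pcF1 cut_mm_011 Ext.none)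

def k0_mm_011 : ∃ t, chk3 f_mm_011 t 1 1 1 = true :=
  ⟨(l 4), by decide +kernel⟩

theorem c_mm_011 : CertF 0 536870912 536870912 536870912 134217728 67108864 true false false .pnn 0 1 1
    ndF0q0 ndF5q1 pcF1 cut_mm_011 Ext.none :=
  certF0 (fam := true) (s1 := false) (s2 := false) (a := 0) (b := 1) (c := 1) (cn := .pnn) (n1 := ndF0q0) (n2 := ndF5q1) (pc := pcF1) (cut := cut_mm_011) (xt := Ext.none) (P1 := 0) (W1 := 536870912) (P2 := 536870912) (W2 := 536870912) (P3 := 134217728) (W3 := 67108864)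
    rfl k0_mm_011

noncomputable def cut_mm_012 : Cut := Cut.of [[⟨3, 0, 0, 1449551462⟩]]

noncomputable def f_mm_012 : ℕ → ℕ → ℕ → ℕ → Bool := onCell 0 536870912 536870912 536870912 134217728 67108864
    (rowF 0 true false false .pnp 0 1 2 (qsf 0 536870912 536870912 536870912 2) ndF0q0 ndF5q1 pcF2 cut_mm_012 Ext.none)

def k0_mm_012 : ∃ t, chk3 f_mm_012 t 1 1 1 = true :=
  ⟨(l 4), by decide +kernel⟩

theorem c_mm_012 : CertF 0 536870912 536870912 536870912 134217728 67108864 true false false .pnp 0 1 2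
    ndF0q0 ndF5q1 pcF2 cut_mm_012 Ext.none :=
  certF0 (fam := true) (s1 := false) (s2 := false) (a := 0) (b := 1) (c := 2) (cn := .pnp) (n1 := ndF0q0) (n2 := ndF5q1) (pc := pcF2) (cut := cut_mm_012) (xt := Ext.none) (P1 := 0) (W1 := 536870912) (P2 := 536870912) (W2 := 536870912) (P3 := 134217728) (W3 := 67108864)
    rfl k0_mm_012

noncomputable def cut_mm_022 : Cut := Cut.of [[⟨3, 0, 0, 1449551462⟩]]

noncomputable def f_mm_022 : ℕ → ℕ → ℕ → ℕ → Bool := onCell 0 536870912 1073741824 536870912 134217728 67108864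
    (rowF 0 true false false .pp 0 2 2 (qsf 0 536870912 1073741824 536870912 2) ndF0q0 ndF5q2 pcF2 cut_mm_022 Ext.none)

def k0_mm_022 : ∃ t, chk3 f_mm_022 t 1 1 1 = true :=
  ⟨(l 4), by decide +kernel⟩

theorem c_mm_022 : CertF 0 536870912 1073741824 536870912 134217728 67108864 true false false .pp 0 2 2
    ndF0q0 ndF5q2 pcF2 cut_mm_022 Ext.none :=
  certF0 (fam := true) (s1 := false) (s2 := false) (a := 0) (b := 2) (c := 2) (cn := .pp) (n1 := ndF0q0) (n2 := ndF5q2) (pc := pcF2) (cut := cut_mm_022) (xt := Ext.none) (P1 := 0) (W1 := 536870912) (P2 := 1073741824) (W2 := 536870912) (P3 := 134217728) (W3 := 67108864)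
    rfl k0_mm_022

noncomputable def cut_mm_023 : Cut := Cut.of [[⟨3, 0, 0, 1449551462⟩]]

noncomputable def f_mm_023 : ℕ → ℕ → ℕ → ℕ → Bool := onCell 0 536870912 1073741824 536870912 134217728 67108864
    (rowF 0 true false false .up 0 2 3 (qsf 0 536870912 1073741824 536870912 3) ndF0q0 ndF5q2 pcF3 cut_mm_023 Ext.none)

def k0_mm_023 : ∃ t, chk3 f_mm_023 t 1 1 1 = true :=
  ⟨(l 4), by decide +kernel⟩

theorem c_mm_023 : CertF 0 536870912 1073741824 536870912 134217728 67108864 true false false .up 0 2 3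
    ndF0q0 ndF5q2 pcF3 cut_mm_023 Ext.none :=
  certF0 (fam := true) (s1 := false) (s2 := false) (a := 0) (b := 2) (c := 3) (cn := .up) (n1 := ndF0q0) (n2 := ndF5q2) (pc := pcF3) (cut := cut_mm_023) (xt := Ext.none) (P1 := 0) (W1 := 536870912) (P2 := 1073741824) (W2 := 536870912) (P3 := 134217728) (W3 := 67108864)
    rfl k0_mm_023

noncomputable def cut_mm_033 : Cut := Cut.of [[⟨3, 0, 0, 1449551462⟩]]

noncomputable def f_mm_033 : ℕ → ℕ → ℕ → ℕ → Bool := onCell 0 536870912 0 1230186008 134217728 67108864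
    (rowF 0 true false false .pnn 0 3 3 (qsf 0 536870912 0 1230186008 3) ndF0q0 ndF5q3 pcF3 cut_mm_033 Ext.none)

def k0_mm_033 : ∃ t, chk3 f_mm_033 t 1 1 1 = true :=
  ⟨(l 4), by decide +kernel⟩

theorem c_mm_033 : CertF 0 536870912 0 1230186008 134217728 67108864 true false false .pnn 0 3 3
    ndF0q0 ndF5q3 pcF3 cut_mm_033 Ext.none :=
  certF0 (fam := true) (s1 := false) (s2 := false) (a := 0) (b := 3) (c := 3) (cn := .pnn) (n1 := ndF0q0) (n2 := ndF5q3) (pc := pcF3) (cut := cut_mm_033) (xt := Ext.none) (P1 := 0) (W1 := 536870912) (P2 := 0) (W2 := 1230186008) (P3 := 134217728) (W3 := 67108864)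
    rfl k0_mm_033

noncomputable def cut_mm_101 : Cut := Cut.of [[⟨3, 0, 0, 1449551462⟩]]

noncomputable def f_mm_101 : ℕ → ℕ → ℕ → ℕ → Bool := onCell 536870912 536870912 0 536870912 134217728 67108864
    (rowF 0 true false false .npn 1 0 1 (qsf 536870912 536870912 0 536870912 1) ndF0q1 ndF5q0 pcF1 cut_mm_101 Ext.none)

def k0_mm_101 : ∃ t, chk3 f_mm_101 t 1 1 1 = true :=
  ⟨(l 4), by decide +kernel⟩

theorem c_mm_101 : CertF 536870912 536870912 0 536870912 134217728 67108864 true false false .npn 1 0 1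
    ndF0q1 ndF5q0 pcF1 cut_mm_101 Ext.none :=
  certF0 (fam := true) (s1 := false) (s2 := false) (a := 1) (b := 0) (c := 1) (cn := .npn) (n1 := ndF0q1) (n2 := ndF5q0) (pc := pcF1) (cut := cut_mm_101) (xt := Ext.none) (P1 := 536870912) (W1 := 536870912) (P2 := 0) (W2 := 536870912) (P3 := 134217728) (W3 := 67108864)
    rfl k0_mm_101

noncomputable def cut_mm_102 : Cut := Cut.of [[⟨3, 0, 0, 1449551462⟩]]

noncomputable def f_mm_102 : ℕ → ℕ → ℕ → ℕ → Bool := onCell 536870912 536870912 0 536870912 134217728 67108864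
    (rowF 0 true false false .npp 1 0 2 (qsf 536870912 536870912 0 536870912 2) ndF0q1 ndF5q0 pcF2 cut_mm_102 Ext.none)

def k0_mm_102 : ∃ t, chk3 f_mm_102 t 1 1 1 = true :=
  ⟨(l 4), by decide +kernel⟩

theorem c_mm_102 : CertF 536870912 536870912 0 536870912 134217728 67108864 true false false .npp 1 0 2
    ndF0q1 ndF5q0 pcF2 cut_mm_102 Ext.none :=
  certF0 (fam := true) (s1 := false) (s2 := false) (a := 1) (b := 0) (c := 2) (cn := .npp) (n1 := ndF0q1) (n2 := ndF5q0) (pc := pcF2) (cut := cut_mm_102) (xt := Ext.none) (P1 := 536870912) (W1 := 536870912) (P2 := 0) (W2 := 536870912) (P3 := 134217728) (W3 := 67108864)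
    rfl k0_mm_102

noncomputable def cut_mm_112 : Cut := Cut.of [[⟨3, 0, 0, 1449551462⟩]]

noncomputable def f_mm_112 : ℕ → ℕ → ℕ → ℕ → Bool := onCell 536870912 536870912 536870912 536870912 134217728 67108864
    (rowF 0 true false false .dn 1 1 2 (qsf 536870912 536870912 536870912 536870912 2) ndF0q1 ndF5q1 pcF2 cut_mm_112 Ext.none)

def k0_mm_112 : ∃ t, chk3 f_mm_112 t 1 1 1 = true :=
  ⟨(l 4), by decide +kernel⟩

theorem c_mm_112 : CertF 536870912 536870912 536870912 536870912 134217728 67108864 true false false .dn 1 1 2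
    ndF0q1 ndF5q1 pcF2 cut_mm_112 Ext.none :=
  certF0 (fam := true) (s1 := false) (s2 := false) (a := 1) (b := 1) (c := 2) (cn := .dn) (n1 := ndF0q1) (n2 := ndF5q1) (pc := pcF2) (cut := cut_mm_112) (xt := Ext.none) (P1 := 536870912) (W1 := 536870912) (P2 := 536870912) (W2 := 536870912) (P3 := 134217728) (W3 := 67108864)
    rfl k0_mm_112

noncomputable def cut_mm_113 : Cut := Cut.of [[⟨3, 0, 0, 1449551462⟩]]

noncomputable def f_mm_113 : ℕ → ℕ → ℕ → ℕ → Bool := onCell 536870912 536870912 536870912 536870912 134217728 67108864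
    (rowF 0 true false false .nn 1 1 3 (qsf 536870912 536870912 536870912 536870912 3) ndF0q1 ndF5q1 pcF3 cut_mm_113 Ext.none)

def k0_mm_113 : ∃ t, chk3 f_mm_113 t 1 1 1 = true :=
  ⟨(l 4), by decide +kernel⟩

theorem c_mm_113 : CertF 536870912 536870912 536870912 536870912 134217728 67108864 true false false .nn 1 1 3
    ndF0q1 ndF5q1 pcF3 cut_mm_113 Ext.none :=
  certF0 (fam := true) (s1 := false) (s2 := false) (a := 1) (b := 1) (c := 3) (cn := .nn) (n1 := ndF0q1) (n2 := ndF5q1) (pc := pcF3) (cut := cut_mm_113) (xt := Ext.none) (P1 := 536870912) (W1 := 536870912) (P2 := 536870912) (W2 := 536870912) (P3 := 134217728) (W3 := 67108864)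
    rfl k0_mm_113

noncomputable def cut_mm_123 : Cut := Cut.of [[⟨3, 0, 0, 1449551462⟩]]

noncomputable def f_mm_123 : ℕ → ℕ → ℕ → ℕ → Bool := onCell 536870912 536870912 1073741824 536870912 134217728 67108864
    (rowF 0 true false false .npn 1 2 3 (qsf 536870912 536870912 1073741824 536870912 3) ndF0q1 ndF5q2 pcF3 cut_mm_123 Ext.none)

def k0_mm_123 : ∃ t, chk3 f_mm_123 t 1 1 1 = true :=
  ⟨(l 4), by decide +kernel⟩

theorem c_mm_123 : CertF 536870912 536870912 1073741824 536870912 134217728 67108864 true false false .npn 1 2 3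
    ndF0q1 ndF5q2 pcF3 cut_mm_123 Ext.none :=
  certF0 (fam := true) (s1 := false) (s2 := false) (a := 1) (b := 2) (c := 3) (cn := .npn) (n1 := ndF0q1) (n2 := ndF5q2) (pc := pcF3) (cut := cut_mm_123) (xt := Ext.none) (P1 := 536870912) (W1 := 536870912) (P2 := 1073741824) (W2 := 536870912) (P3 := 134217728) (W3 := 67108864)
    rfl k0_mm_123

noncomputable def cut_mm_133 : Cut := Cut.of [[⟨3, 0, 0, 1449551462⟩]]

noncomputable def f_mm_133 : ℕ → ℕ → ℕ → ℕ → Bool := onCell 536870912 536870912 0 1230186008 134217728 67108864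
    (rowF 0 true false false .dn 1 3 3 (qsf 536870912 536870912 0 1230186008 3) ndF0q1 ndF5q3 pcF3 cut_mm_133 Ext.none)

def k0_mm_133 : ∃ t, chk3 f_mm_133 t 1 1 1 = true :=
  ⟨(l 4), by decide +kernel⟩

theorem c_mm_133 : CertF 536870912 536870912 0 1230186008 134217728 67108864 true false false .dn 1 3 3
    ndF0q1 ndF5q3 pcF3 cut_mm_133 Ext.none :=
  certF0 (fam := true) (s1 := false) (s2 := false) (a := 1) (b := 3) (c := 3) (cn := .dn) (n1 := ndF0q1) (n2 := ndF5q3) (pc := pcF3) (cut := cut_mm_133) (xt := Ext.none) (P1 := 536870912) (W1 := 536870912) (P2 := 0) (W2 := 1230186008) (P3 := 134217728) (W3 := 67108864)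
    rfl k0_mm_133

noncomputable def cut_mm_202 : Cut := Cut.of [[⟨3, 0, 0, 1449551462⟩]]

noncomputable def f_mm_202 : ℕ → ℕ → ℕ → ℕ → Bool := onCell 0 536870912 0 536870912 134217728 67108864
    (rowF 0 true false false .pp 2 0 2 (qsf 0 536870912 0 536870912 2) ndF0q2 ndF5q0 pcF2 cut_mm_202 Ext.none)

def k0_mm_202 : ∃ t, chk3 f_mm_202 t 1 1 1 = true :=
  ⟨(l 4), by decide +kernel⟩

theorem c_mm_202 : CertF 0 536870912 0 536870912 134217728 67108864 true false false .pp 2 0 2
    ndF0q2 ndF5q0 pcF2 cut_mm_202 Ext.none :=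
  certF0 (fam := true) (s1 := false) (s2 := false) (a := 2) (b := 0) (c := 2) (cn := .pp) (n1 := ndF0q2) (n2 := ndF5q0) (pc := pcF2) (cut := cut_mm_202) (xt := Ext.none) (P1 := 0) (W1 := 536870912) (P2 := 0) (W2 := 536870912) (P3 := 134217728) (W3 := 67108864)
    rfl k0_mm_202

noncomputable def cut_mm_203 : Cut := Cut.of [[⟨3, 0, 0, 1449551462⟩]]

noncomputable def f_mm_203 : ℕ → ℕ → ℕ → ℕ → Bool := onCell 0 536870912 0 536870912 134217728 67108864
    (rowF 0 true false false .up 2 0 3 (qsf 0 536870912 0 536870912 3) ndF0q2 ndF5q0 pcF3 cut_mm_203 Ext.none)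

def k0_mm_203 : ∃ t, chk3 f_mm_203 t 1 1 1 = true :=
  ⟨(l 4), by decide +kernel⟩

theorem c_mm_203 : CertF 0 536870912 0 536870912 134217728 67108864 true false false .up 2 0 3
    ndF0q2 ndF5q0 pcF3 cut_mm_203 Ext.none :=
  certF0 (fam := true) (s1 := false) (s2 := false) (a := 2) (b := 0) (c := 3) (cn := .up) (n1 := ndF0q2) (n2 := ndF5q0) (pc := pcF3) (cut := cut_mm_203) (xt := Ext.none) (P1 := 0) (W1 := 536870912) (P2 := 0) (W2 := 536870912) (P3 := 134217728) (W3 := 67108864)
    rfl k0_mm_203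

noncomputable def cut_mm_213 : Cut := Cut.of [[⟨3, 0, 0, 1449551462⟩]]

noncomputable def f_mm_213 : ℕ → ℕ → ℕ → ℕ → Bool := onCell 0 536870912 536870912 536870912 134217728 67108864
    (rowF 0 true false false .pnn 2 1 3 (qsf 0 536870912 536870912 536870912 3) ndF0q2 ndF5q1 pcF3 cut_mm_213 Ext.none)

def k0_mm_213 : ∃ t, chk3 f_mm_213 t 1 1 1 = true :=
  ⟨(l 4), by decide +kernel⟩

theorem c_mm_213 : CertF 0 536870912 536870912 536870912 134217728 67108864 true false false .pnn 2 1 3
    ndF0q2 ndF5q1 pcF3 cut_mm_213 Ext.none :=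
  certF0 (fam := true) (s1 := false) (s2 := false) (a := 2) (b := 1) (c := 3) (cn := .pnn) (n1 := ndF0q2) (n2 := ndF5q1) (pc := pcF3) (cut := cut_mm_213) (xt := Ext.none) (P1 := 0) (W1 := 536870912) (P2 := 536870912) (W2 := 536870912) (P3 := 134217728) (W3 := 67108864)
    rfl k0_mm_213

end Pool.Agent.Strip051.G.I1_8_3_16.Tab.C.FA05

namespace Pool.Agent.Strip051.G.I1_8_3_16.Tab.C.FA11

open Pool.Agent.Strip051.PB Pool.Agent.Strip051.PB.T
open Pool.Agent.Strip051.G.I1_8_3_16.Tab

noncomputable def f_pp_001 : ℕ → ℕ → ℕ → ℕ → Bool := onCell 0 536870912 0 536870912 134217728 67108864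
    (rowF 0 true true true .up 0 0 1 (qsf 0 536870912 0 536870912 1) ndF1q0 ndF1q0 pcF1 Cut.none Ext.none)

def k0_pp_001 : ∃ t, chk3 f_pp_001 t 1 1 1 = true :=
  ⟨(l 4), by decide +kernel⟩

theorem c_pp_001 : CertF 0 536870912 0 536870912 134217728 67108864 true true true .up 0 0 1
    ndF1q0 ndF1q0 pcF1 Cut.none Ext.none :=
  certF0 (fam := true) (s1 := true) (s2 := true) (a := 0) (b := 0) (c := 1) (cn := .up) (n1 := ndF1q0) (n2 := ndF1q0) (pc := pcF1) (cut := Cut.none) (xt := Ext.none) (P1 := 0) (W1 := 536870912) (P2 := 0) (W2 := 536870912) (P3 := 134217728) (W3 := 67108864)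
    rfl k0_pp_001

noncomputable def f_pp_011 : ℕ → ℕ → ℕ → ℕ → Bool := onCell 0 536870912 536870912 536870912 134217728 67108864
    (rowF 0 true true true .pnn 0 1 1 (qsf 0 536870912 536870912 536870912 1) ndF1q0 ndF1q1 pcF1 Cut.none Ext.none)

def k0_pp_011 : ∃ t, chk3 f_pp_011 t 1 1 1 = true :=
  ⟨(l 4), by decide +kernel⟩

theorem c_pp_011 : CertF 0 536870912 536870912 536870912 134217728 67108864 true true true .pnn 0 1 1
    ndF1q0 ndF1q1 pcF1 Cut.none Ext.none :=
  certF0 (fam := true) (s1 := true) (s2 := true) (a := 0) (b := 1) (c := 1) (cn := .pnn) (n1 := ndF1q0) (n2 := ndF1q1) (pc := pcF1) (cut := Cut.none) (xt := Ext.none) (P1 := 0) (W1 := 536870912) (P2 := 536870912) (W2 := 536870912) (P3 := 134217728) (W3 := 67108864)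
    rfl k0_pp_011

noncomputable def f_pp_012 : ℕ → ℕ → ℕ → ℕ → Bool := onCell 0 536870912 536870912 536870912 134217728 67108864
    (rowF 0 true true true .pnp 0 1 2 (qsf 0 536870912 536870912 536870912 2) ndF1q0 ndF1q1 pcF2 Cut.none Ext.none)

def k0_pp_012 : ∃ t, chk3 f_pp_012 t 1 1 1 = true :=
  ⟨(l 4), by decide +kernel⟩

theorem c_pp_012 : CertF 0 536870912 536870912 536870912 134217728 67108864 true true true .pnp 0 1 2
    ndF1q0 ndF1q1 pcF2 Cut.none Ext.none :=
  certF0 (fam := true) (s1 := true) (s2 := true) (a := 0) (b := 1) (c := 2) (cn := .pnp) (n1 := ndF1q0) (n2 := ndF1q1) (pc := pcF2) (cut := Cut.none) (xt := Ext.none) (P1 := 0) (W1 := 536870912) (P2 := 536870912) (W2 := 536870912) (P3 := 134217728) (W3 := 67108864)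
    rfl k0_pp_012

noncomputable def cut_pp_022_a : Cut := Cut.of [[⟨0, 0, 0, 67108864⟩, ⟨1, 1, 0, 67108864⟩, ⟨2, 1, 0, 67108864⟩]]

noncomputable def f_pp_022_a : ℕ → ℕ → ℕ → ℕ → Bool := onCell 0 536870912 0 536870912 134217728 67108864
    (rowF 0 true true true .pp 0 2 2 (qsf 0 536870912 0 536870912 2) ndF1q0 ndF1q2a pcF2 cut_pp_022_a Ext.none)

def k0_pp_022_a : ∃ t, chk3 f_pp_022_a t 1 1 1 = true :=
  ⟨(a (b (a (a (b (a (a (b (c (l 17054848) (l 16581656)) (c (l 16776104) (l 16582736))) (c (l 17198232) (l 16604048))) (a (l 17069680) (l 17176800))) (a (a (b (c (a (l 16685192) (l 16846024)) (l 16590448)) (c (a (l 16632712) (l 16609680)) (a (l 16605832) (l 16603736)))) (b (l 16711752) (l 16625024))) (b (l 16998648) (a (l 16729128) (l 16907448))))) (b (a (l 17262288) (l 17293272)) (a (b (l 17166496) (l 17054488)) (l 4)))) (a (b (l 17252904) (l 4)) (l 4))) (a (b (a (a (b (a (a (c (b (l 16625600) (l 16637216)) (b (l 16620536) (l 16632816))) (c (l 16629648) (l 16624992))) (b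 (l 16619024) (l 16631256))) (a (b (a (c (a (l 16651304) (l 16650448)) (l 16647176)) (l 16668456)) (a (c (a (b (l 16662888) (l 16671376)) (l 16666272)) (a (l 16664144) (l 16663432))) (c (l 16665072) (l 16662408)))) (b (l 16667432) (a (l 16684136) (l 16671008))))) (b (a (l 16672088) (l 16700296)) (a (b (l 16664928) (l 4)) (l 4)))) (l 4)) (a (a (a (b (a (b (c (a (b (l 16680496) (c (l 16690824) (l 16689832))) (l 16684552)) (a (b (l 16678072) (l 16688280)) (l 16682488))) (a (l 6) (c (a (l 6) (l 16726768)) (l 16725728)))) (b (c (l 16704416) (l 16702576)) (a (c (l 16727008) (l 16725928)) (l 16740712)))) (l 6)) (b (b (b (l 16708680) (l 16745472)) (l 4)) (l 4))) (l 4)) (l 4))) (l 4))) (l 4)), by decide +kernel⟩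

theorem c_pp_022_a : CertF 0 536870912 0 536870912 134217728 67108864 true true true .pp 0 2 2
    ndF1q0 ndF1q2a pcF2 cut_pp_022_a Ext.none :=
  certF0 (fam := true) (s1 := true) (s2 := true) (a := 0) (b := 2) (c := 2) (cn := .pp) (n1 := ndF1q0) (n2 := ndF1q2a) (pc := pcF2) (cut := cut_pp_022_a) (xt := Ext.none) (P1 := 0) (W1 := 536870912) (P2 := 0) (W2 := 536870912) (P3 := 134217728) (W3 := 67108864)
    rfl k0_pp_022_a

noncomputable def cut_pp_022_b : Cut := Cut.of [[⟨0, 0, 0, 67108864⟩, ⟨1, 1, 0, 67108864⟩, ⟨2, 1, 0, 67108864⟩]]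

noncomputable def f_pp_022_b : ℕ → ℕ → ℕ → ℕ → Bool := onCell 0 536870912 1239849684 370763052 134217728 67108864
    (rowF 0 true true true .pp 0 2 2 (qsf 0 536870912 1239849684 370763052 2) ndF1q0 ndF1q2b pcF2 cut_pp_022_b Ext.none)

def k0_pp_022_b : ∃ t, chk3 f_pp_022_b t 1 1 1 = true :=
  ⟨(a (b (a (b (a (a (b (a (b (c (a (l 17208440) (l 17294528)) (l 16584016)) (c (l 17552864) (l 16953344))) (c (l 17515096) (l 16981696))) (a (c (l 17882880) (l 17366192)) (l 17675504))) (b (a (l 17346288) (l 17406024)) (l 17706016))) (a (b (l 17446896) (l 17693552)) (b (l 17445504) (l 17646640)))) (a (a (b (c (l 18165696) (l 17757320)) (l 18165016)) (b (l 17935824) (l 18093672))) (b (a (l 17876256) (l 4)) (l 17955408)))) (b (a (b (l 17593840) (l 4)) (l 4)) (l 4))) (a (a (b (a (b (l 18294696) (l 18368152)) (l 18227064)) (b (l 18332816) (l 4))) (l 4)) (l 4))) (l 4)), by decide +kernel⟩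

theorem c_pp_022_b : CertF 0 536870912 1239849684 370763052 134217728 67108864 true true true .pp 0 2 2
    ndF1q0 ndF1q2b pcF2 cut_pp_022_b Ext.none :=
  certF0 (fam := true) (s1 := true) (s2 := true) (a := 0) (b := 2) (c := 2) (cn := .pp) (n1 := ndF1q0) (n2 := ndF1q2b) (pc := pcF2) (cut := cut_pp_022_b) (xt := Ext.none) (P1 := 0) (W1 := 536870912) (P2 := 1239849684) (W2 := 370763052) (P3 := 134217728) (W3 := 67108864)
    rfl k0_pp_022_b

noncomputable def f_pp_023_a : ℕ → ℕ → ℕ → ℕ → Bool := onCell 1610612736 536870912 0 536870912 134217728 67108864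
    (rowF 2 true true true .up 0 2 3 (qsf 0 536870912 0 536870912 3) ndF1q0 ndF1q2a pcF3 Cut.none Ext.none)

def k0_pp_023_a : ∃ t, chk3 f_pp_023_a t 1 1 1 = true :=
  ⟨(l 4), by decide +kernel⟩

theorem c_pp_023_a : CertF 0 536870912 0 536870912 134217728 67108864 true true true .up 0 2 3
    ndF1q0 ndF1q2a pcF3 Cut.none Ext.none :=
  certF2 (fam := true) (s1 := true) (s2 := true) (a := 0) (b := 2) (c := 3) (cn := .up) (n1 := ndF1q0) (n2 := ndF1q2a) (pc := pcF3) (cut := Cut.none) (xt := Ext.none) (P1 := 0) (W1 := 536870912) (P2 := 0) (W2 := 536870912) (P3 := 134217728) (W3 := 67108864)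
    rfl (fun _ => rfl) k0_pp_023_a

noncomputable def f_pp_023_b : ℕ → ℕ → ℕ → ℕ → Bool := onCell 1610612736 536870912 1239849684 370763052 134217728 67108864
    (rowF 2 true true true .up 0 2 3 (qsf 0 536870912 1239849684 370763052 3) ndF1q0 ndF1q2b pcF3 Cut.none Ext.none)

def k0_pp_023_b : ∃ t, chk3 f_pp_023_b t 1 1 1 = true :=
  ⟨(a (l 4) (l 4)), by decide +kernel⟩

theorem c_pp_023_b : CertF 0 536870912 1239849684 370763052 134217728 67108864 true true true .up 0 2 3
    ndF1q0 ndF1q2b pcF3 Cut.none Ext.none :=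
  certF2 (fam := true) (s1 := true) (s2 := true) (a := 0) (b := 2) (c := 3) (cn := .up) (n1 := ndF1q0) (n2 := ndF1q2b) (pc := pcF3) (cut := Cut.none) (xt := Ext.none) (P1 := 0) (W1 := 536870912) (P2 := 1239849684) (W2 := 370763052) (P3 := 134217728) (W3 := 67108864)
    rfl (fun _ => rfl) k0_pp_023_b

noncomputable def f_pp_033 : ℕ → ℕ → ℕ → ℕ → Bool := onCell 0 536870912 1610612736 536870912 134217728 67108864
    (rowF 0 true true true .pnn 0 3 3 (qsf 0 536870912 1610612736 536870912 3) ndF1q0 ndF1q3 pcF3 Cut.none Ext.none)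

def k0_pp_033 : ∃ t, chk3 f_pp_033 t 1 1 1 = true :=
  ⟨(a (b (l 4) (l 4)) (l 4)), by decide +kernel⟩

theorem c_pp_033 : CertF 0 536870912 1610612736 536870912 134217728 67108864 true true true .pnn 0 3 3
    ndF1q0 ndF1q3 pcF3 Cut.none Ext.none :=
  certF0 (fam := true) (s1 := true) (s2 := true) (a := 0) (b := 3) (c := 3) (cn := .pnn) (n1 := ndF1q0) (n2 := ndF1q3) (pc := pcF3) (cut := Cut.none) (xt := Ext.none) (P1 := 0) (W1 := 536870912) (P2 := 1610612736) (W2 := 536870912) (P3 := 134217728) (W3 := 67108864)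
    rfl k0_pp_033

noncomputable def f_pp_101 : ℕ → ℕ → ℕ → ℕ → Bool := onCell 536870912 536870912 0 536870912 134217728 67108864
    (rowF 0 true true true .npn 1 0 1 (qsf 536870912 536870912 0 536870912 1) ndF1q1 ndF1q0 pcF1 Cut.none Ext.none)

def k0_pp_101 : ∃ t, chk3 f_pp_101 t 1 1 1 = true :=
  ⟨(l 4), by decide +kernel⟩

theorem c_pp_101 : CertF 536870912 536870912 0 536870912 134217728 67108864 true true true .npn 1 0 1
    ndF1q1 ndF1q0 pcF1 Cut.none Ext.none :=
  certF0 (fam := true) (s1 := true) (s2 := true) (a := 1) (b := 0) (c := 1) (cn := .npn) (n1 := ndF1q1) (n2 := ndF1q0) (pc := pcF1) (cut := Cut.none) (xt := Ext.none) (P1 := 536870912) (W1 := 536870912) (P2 := 0) (W2 := 536870912) (P3 := 134217728) (W3 := 67108864)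
    rfl k0_pp_101

noncomputable def f_pp_102 : ℕ → ℕ → ℕ → ℕ → Bool := onCell 536870912 536870912 0 536870912 134217728 67108864
    (rowF 0 true true true .npp 1 0 2 (qsf 536870912 536870912 0 536870912 2) ndF1q1 ndF1q0 pcF2 Cut.none Ext.none)

def k0_pp_102 : ∃ t, chk3 f_pp_102 t 1 1 1 = true :=
  ⟨(l 4), by decide +kernel⟩

theorem c_pp_102 : CertF 536870912 536870912 0 536870912 134217728 67108864 true true true .npp 1 0 2
    ndF1q1 ndF1q0 pcF2 Cut.none Ext.none :=
  certF0 (fam := true) (s1 := true) (s2 := true) (a := 1) (b := 0) (c := 2) (cn := .npp) (n1 := ndF1q1) (n2 := ndF1q0) (pc := pcF2) (cut := Cut.none) (xt := Ext.none) (P1 := 536870912) (W1 := 536870912) (P2 := 0) (W2 := 536870912) (P3 := 134217728) (W3 := 67108864)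
    rfl k0_pp_102

noncomputable def f_pp_112 : ℕ → ℕ → ℕ → ℕ → Bool := onCell 536870912 536870912 536870912 536870912 134217728 67108864
    (rowF 0 true true true .dn 1 1 2 (qsf 536870912 536870912 536870912 536870912 2) ndF1q1 ndF1q1 pcF2 Cut.none Ext.none)

def k0_pp_112 : ∃ t, chk3 f_pp_112 t 1 1 1 = true :=
  ⟨(l 4), by decide +kernel⟩

theorem c_pp_112 : CertF 536870912 536870912 536870912 536870912 134217728 67108864 true true true .dn 1 1 2
    ndF1q1 ndF1q1 pcF2 Cut.none Ext.none :=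
  certF0 (fam := true) (s1 := true) (s2 := true) (a := 1) (b := 1) (c := 2) (cn := .dn) (n1 := ndF1q1) (n2 := ndF1q1) (pc := pcF2) (cut := Cut.none) (xt := Ext.none) (P1 := 536870912) (W1 := 536870912) (P2 := 536870912) (W2 := 536870912) (P3 := 134217728) (W3 := 67108864)
    rfl k0_pp_112

noncomputable def f_pp_113 : ℕ → ℕ → ℕ → ℕ → Bool := onCell 536870912 536870912 536870912 536870912 134217728 67108864
    (rowF 0 true true true .nn 1 1 3 (qsf 536870912 536870912 536870912 536870912 3) ndF1q1 ndF1q1 pcF3 Cut.none Ext.none)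

def k0_pp_113 : ∃ t, chk3 f_pp_113 t 1 1 1 = true :=
  ⟨(l 4), by decide +kernel⟩

theorem c_pp_113 : CertF 536870912 536870912 536870912 536870912 134217728 67108864 true true true .nn 1 1 3
    ndF1q1 ndF1q1 pcF3 Cut.none Ext.none :=
  certF0 (fam := true) (s1 := true) (s2 := true) (a := 1) (b := 1) (c := 3) (cn := .nn) (n1 := ndF1q1) (n2 := ndF1q1) (pc := pcF3) (cut := Cut.none) (xt := Ext.none) (P1 := 536870912) (W1 := 536870912) (P2 := 536870912) (W2 := 536870912) (P3 := 134217728) (W3 := 67108864)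
    rfl k0_pp_113

noncomputable def f_pp_123_a : ℕ → ℕ → ℕ → ℕ → Bool := onCell 536870912 536870912 0 536870912 134217728 67108864
    (rowF 0 true true true .npn 1 2 3 (qsf 536870912 536870912 0 536870912 3) ndF1q1 ndF1q2a pcF3 Cut.none Ext.none)

def k0_pp_123_a : ∃ t, chk3 f_pp_123_a t 1 1 1 = true :=
  ⟨(l 4), by decide +kernel⟩

theorem c_pp_123_a : CertF 536870912 536870912 0 536870912 134217728 67108864 true true true .npn 1 2 3
    ndF1q1 ndF1q2a pcF3 Cut.none Ext.none :=
  certF0 (fam := true) (s1 := true) (s2 := true) (a := 1) (b := 2) (c := 3) (cn := .npn) (n1 := ndF1q1) (n2 := ndF1q2a) (pc := pcF3) (cut := Cut.none) (xt := Ext.none) (P1 := 536870912) (W1 := 536870912) (P2 := 0) (W2 := 536870912) (P3 := 134217728) (W3 := 67108864)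
    rfl k0_pp_123_a

noncomputable def f_pp_123_b : ℕ → ℕ → ℕ → ℕ → Bool := onCell 536870912 536870912 1239849684 370763052 134217728 67108864
    (rowF 0 true true true .npn 1 2 3 (qsf 536870912 536870912 1239849684 370763052 3) ndF1q1 ndF1q2b pcF3 Cut.none Ext.none)

def k0_pp_123_b : ∃ t, chk3 f_pp_123_b t 1 1 1 = true :=
  ⟨(l 4), by decide +kernel⟩

theorem c_pp_123_b : CertF 536870912 536870912 1239849684 370763052 134217728 67108864 true true true .npn 1 2 3
    ndF1q1 ndF1q2b pcF3 Cut.none Ext.none :=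
  certF0 (fam := true) (s1 := true) (s2 := true) (a := 1) (b := 2) (c := 3) (cn := .npn) (n1 := ndF1q1) (n2 := ndF1q2b) (pc := pcF3) (cut := Cut.none) (xt := Ext.none) (P1 := 536870912) (W1 := 536870912) (P2 := 1239849684) (W2 := 370763052) (P3 := 134217728) (W3 := 67108864)
    rfl k0_pp_123_b

noncomputable def f_pp_133 : ℕ → ℕ → ℕ → ℕ → Bool := onCell 536870912 536870912 1610612736 536870912 134217728 67108864
    (rowF 0 true true true .dn 1 3 3 (qsf 536870912 536870912 1610612736 536870912 3) ndF1q1 ndF1q3 pcF3 Cut.none Ext.none)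

def k0_pp_133 : ∃ t, chk3 f_pp_133 t 1 1 1 = true :=
  ⟨(l 4), by decide +kernel⟩

theorem c_pp_133 : CertF 536870912 536870912 1610612736 536870912 134217728 67108864 true true true .dn 1 3 3
    ndF1q1 ndF1q3 pcF3 Cut.none Ext.none :=
  certF0 (fam := true) (s1 := true) (s2 := true) (a := 1) (b := 3) (c := 3) (cn := .dn) (n1 := ndF1q1) (n2 := ndF1q3) (pc := pcF3) (cut := Cut.none) (xt := Ext.none) (P1 := 536870912) (W1 := 536870912) (P2 := 1610612736) (W2 := 536870912) (P3 := 134217728) (W3 := 67108864)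
    rfl k0_pp_133

noncomputable def f_pp_202_a : ℕ → ℕ → ℕ → ℕ → Bool := onCell 0 536870912 0 536870912 134217728 67108864
    (rowF 0 true true true .pp 2 0 2 (qsf 0 536870912 0 536870912 2) ndF1q2a ndF1q0 pcF2 Cut.none Ext.none)

def k0_pp_202_a : ∃ t, chk3 f_pp_202_a t 1 1 1 = true :=
  ⟨(l 5), by decide +kernel⟩

theorem c_pp_202_a : CertF 0 536870912 0 536870912 134217728 67108864 true true true .pp 2 0 2
    ndF1q2a ndF1q0 pcF2 Cut.none Ext.none :=
  certF0 (fam := true) (s1 := true) (s2 := true) (a := 2) (b := 0) (c := 2) (cn := .pp) (n1 := ndF1q2a) (n2 := ndF1q0) (pc := pcF2) (cut := Cut.none) (xt := Ext.none) (P1 := 0) (W1 := 536870912) (P2 := 0) (W2 := 536870912) (P3 := 134217728) (W3 := 67108864)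
    rfl k0_pp_202_a

noncomputable def f_pp_202_b : ℕ → ℕ → ℕ → ℕ → Bool := onCell 1239849684 370763052 0 536870912 134217728 67108864
    (rowF 0 true true true .pp 2 0 2 (qsf 1239849684 370763052 0 536870912 2) ndF1q2b ndF1q0 pcF2 Cut.none Ext.none)

def k0_pp_202_b : ∃ t, chk3 f_pp_202_b t 1 1 1 = true :=
  ⟨(l 5), by decide +kernel⟩

theorem c_pp_202_b : CertF 1239849684 370763052 0 536870912 134217728 67108864 true true true .pp 2 0 2
    ndF1q2b ndF1q0 pcF2 Cut.none Ext.none :=
  certF0 (fam := true) (s1 := true) (s2 := true) (a := 2) (b := 0) (c := 2) (cn := .pp) (n1 := ndF1q2b) (n2 := ndF1q0) (pc := pcF2) (cut := Cut.none) (xt := Ext.none) (P1 := 1239849684) (W1 := 370763052) (P2 := 0) (W2 := 536870912) (P3 := 134217728) (W3 := 67108864)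
    rfl k0_pp_202_b

noncomputable def f_pp_203_a : ℕ → ℕ → ℕ → ℕ → Bool := onCell 0 536870912 0 536870912 134217728 67108864
    (rowF 0 true true true .up 2 0 3 (qsf 0 536870912 0 536870912 3) ndF1q2a ndF1q0 pcF3 Cut.none Ext.none)

def k0_pp_203_a : ∃ t, chk3 f_pp_203_a t 1 1 1 = true :=
  ⟨(l 5), by decide +kernel⟩

theorem c_pp_203_a : CertF 0 536870912 0 536870912 134217728 67108864 true true true .up 2 0 3
    ndF1q2a ndF1q0 pcF3 Cut.none Ext.none :=
  certF0 (fam := true) (s1 := true) (s2 := true) (a := 2) (b := 0) (c := 3) (cn := .up) (n1 := ndF1q2a) (n2 := ndF1q0) (pc := pcF3) (cut := Cut.none) (xt := Ext.none) (P1 := 0) (W1 := 536870912) (P2 := 0) (W2 := 536870912) (P3 := 134217728) (W3 := 67108864)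
    rfl k0_pp_203_a

noncomputable def f_pp_203_b : ℕ → ℕ → ℕ → ℕ → Bool := onCell 1239849684 370763052 0 536870912 134217728 67108864
    (rowF 0 true true true .up 2 0 3 (qsf 1239849684 370763052 0 536870912 3) ndF1q2b ndF1q0 pcF3 Cut.none Ext.none)

def k0_pp_203_b : ∃ t, chk3 f_pp_203_b t 1 1 1 = true :=
  ⟨(l 5), by decide +kernel⟩

theorem c_pp_203_b : CertF 1239849684 370763052 0 536870912 134217728 67108864 true true true .up 2 0 3
    ndF1q2b ndF1q0 pcF3 Cut.none Ext.none :=
  certF0 (fam := true) (s1 := true) (s2 := true) (a := 2) (b := 0) (c := 3) (cn := .up) (n1 := ndF1q2b) (n2 := ndF1q0) (pc := pcF3) (cut := Cut.none) (xt := Ext.none) (P1 := 1239849684) (W1 := 370763052) (P2 := 0) (W2 := 536870912) (P3 := 134217728) (W3 := 67108864)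
    rfl k0_pp_203_b

noncomputable def f_pp_213_a : ℕ → ℕ → ℕ → ℕ → Bool := onCell 0 536870912 536870912 536870912 134217728 67108864
    (rowF 0 true true true .pnn 2 1 3 (qsf 0 536870912 536870912 536870912 3) ndF1q2a ndF1q1 pcF3 Cut.none Ext.none)

def k0_pp_213_a : ∃ t, chk3 f_pp_213_a t 1 1 1 = true :=
  ⟨(l 4), by decide +kernel⟩

theorem c_pp_213_a : CertF 0 536870912 536870912 536870912 134217728 67108864 true true true .pnn 2 1 3
    ndF1q2a ndF1q1 pcF3 Cut.none Ext.none :=
  certF0 (fam := true) (s1 := true) (s2 := true) (a := 2) (b := 1) (c := 3) (cn := .pnn) (n1 := ndF1q2a) (n2 := ndF1q1) (pc := pcF3) (cut := Cut.none) (xt := Ext.none) (P1 := 0) (W1 := 536870912) (P2 := 536870912) (W2 := 536870912) (P3 := 134217728) (W3 := 67108864)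
    rfl k0_pp_213_a

noncomputable def f_pp_213_b : ℕ → ℕ → ℕ → ℕ → Bool := onCell 1239849684 370763052 536870912 536870912 134217728 67108864
    (rowF 0 true true true .pnn 2 1 3 (qsf 1239849684 370763052 536870912 536870912 3) ndF1q2b ndF1q1 pcF3 Cut.none Ext.none)

def k0_pp_213_b : ∃ t, chk3 f_pp_213_b t 1 1 1 = true :=
  ⟨(l 4), by decide +kernel⟩

theorem c_pp_213_b : CertF 1239849684 370763052 536870912 536870912 134217728 67108864 true true true .pnn 2 1 3
    ndF1q2b ndF1q1 pcF3 Cut.none Ext.none :=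
  certF0 (fam := true) (s1 := true) (s2 := true) (a := 2) (b := 1) (c := 3) (cn := .pnn) (n1 := ndF1q2b) (n2 := ndF1q1) (pc := pcF3) (cut := Cut.none) (xt := Ext.none) (P1 := 1239849684) (W1 := 370763052) (P2 := 536870912) (W2 := 536870912) (P3 := 134217728) (W3 := 67108864)
    rfl k0_pp_213_b

noncomputable def f_pp_303 : ℕ → ℕ → ℕ → ℕ → Bool := onCell 1610612736 536870912 0 536870912 134217728 67108864
    (rowF 0 true true true .npn 3 0 3 (qsf 1610612736 536870912 0 536870912 3) ndF1q3 ndF1q0 pcF3 Cut.none Ext.none)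

def k0_pp_303 : ∃ t, chk3 f_pp_303 t 1 1 1 = true :=
  ⟨(l 5), by decide +kernel⟩

theorem c_pp_303 : CertF 1610612736 536870912 0 536870912 134217728 67108864 true true true .npn 3 0 3
    ndF1q3 ndF1q0 pcF3 Cut.none Ext.none :=
  certF0 (fam := true) (s1 := true) (s2 := true) (a := 3) (b := 0) (c := 3) (cn := .npn) (n1 := ndF1q3) (n2 := ndF1q0) (pc := pcF3) (cut := Cut.none) (xt := Ext.none) (P1 := 1610612736) (W1 := 536870912) (P2 := 0) (W2 := 536870912) (P3 := 134217728) (W3 := 67108864)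
    rfl k0_pp_303

noncomputable def f_pp_313 : ℕ → ℕ → ℕ → ℕ → Bool := onCell 1610612736 536870912 536870912 536870912 134217728 67108864
    (rowF 0 true true true .dn 3 1 3 (qsf 1610612736 536870912 536870912 536870912 3) ndF1q3 ndF1q1 pcF3 Cut.none Ext.none)

def k0_pp_313 : ∃ t, chk3 f_pp_313 t 1 1 1 = true :=
  ⟨(l 4), by decide +kernel⟩

theorem c_pp_313 : CertF 1610612736 536870912 536870912 536870912 134217728 67108864 true true true .dn 3 1 3
    ndF1q3 ndF1q1 pcF3 Cut.none Ext.none :=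
  certF0 (fam := true) (s1 := true) (s2 := true) (a := 3) (b := 1) (c := 3) (cn := .dn) (n1 := ndF1q3) (n2 := ndF1q1) (pc := pcF3) (cut := Cut.none) (xt := Ext.none) (P1 := 1610612736) (W1 := 536870912) (P2 := 536870912) (W2 := 536870912) (P3 := 134217728) (W3 := 67108864)
    rfl k0_pp_313

noncomputable def f_pm_001 : ℕ → ℕ → ℕ → ℕ → Bool := onCell 0 536870912 0 536870912 134217728 67108864
    (rowF 0 true true false .up 0 0 1 (qsf 0 536870912 0 536870912 1) ndF1q0 ndF1q0 pcF1 Cut.none Ext.none)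

def k0_pm_001 : ∃ t, chk3 f_pm_001 t 1 1 1 = true :=
  ⟨(l 3), by decide +kernel⟩

theorem c_pm_001 : CertF 0 536870912 0 536870912 134217728 67108864 true true false .up 0 0 1
    ndF1q0 ndF1q0 pcF1 Cut.none Ext.none :=
  certF0 (fam := true) (s1 := true) (s2 := false) (a := 0) (b := 0) (c := 1) (cn := .up) (n1 := ndF1q0) (n2 := ndF1q0) (pc := pcF1) (cut := Cut.none) (xt := Ext.none) (P1 := 0) (W1 := 536870912) (P2 := 0) (W2 := 536870912) (P3 := 134217728) (W3 := 67108864)
    rfl k0_pm_001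

noncomputable def f_pm_011 : ℕ → ℕ → ℕ → ℕ → Bool := onCell 0 536870912 536870912 536870912 134217728 67108864
    (rowF 1 true true false .pnn 0 1 1 (qsf 0 536870912 536870912 536870912 1) ndF1q0 ndF1q1 pcF1 Cut.none Ext.none)

def k0_pm_011 : ∃ t, chk3 f_pm_011 t 1 1 1 = true :=
  ⟨(l 3), by decide +kernel⟩

theorem c_pm_011 : CertF 0 536870912 536870912 536870912 134217728 67108864 true true false .pnn 0 1 1
    ndF1q0 ndF1q1 pcF1 Cut.none Ext.none :=
  certF1 (fam := true) (s1 := true) (s2 := false) (a := 0) (b := 1) (c := 1) (cn := .pnn) (n1 := ndF1q0) (n2 := ndF1q1) (pc := pcF1) (cut := Cut.none) (xt := Ext.none) (P1 := 0) (W1 := 536870912) (P2 := 536870912) (W2 := 536870912) (P3 := 134217728) (W3 := 67108864)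
    rfl (fun _ => rfl) k0_pm_011

noncomputable def f_pm_012 : ℕ → ℕ → ℕ → ℕ → Bool := onCell 1073741824 536870912 536870912 536870912 134217728 67108864
    (rowF 2 true true false .pnp 0 1 2 (qsf 0 536870912 536870912 536870912 2) ndF1q0 ndF1q1 pcF2 Cut.none Ext.none)

def k0_pm_012 : ∃ t, chk3 f_pm_012 t 1 1 1 = true :=
  ⟨(a (a (l 3) (b (a (a (a (l 3) (a (l 3) (b (l 2) (l 17059152)))) (l 17023392)) (l 17078640)) (a (a (a (l 3) (a (l 3) (b (l 17364064) (a (b (l 17170784) (l 17020488)) (b (l 17182792) (l 17201184)))))) (b (l 17221976) (b (l 17236664) (l 16973264)))) (b (l 17289656) (b (l 17372856) (l 17278192)))))) (b (a (l 17170544) (l 2)) (b (l 17582808) (b (l 17633552) (a (l 17648120) (l 17810136)))))), by decide +kernel⟩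

theorem c_pm_012 : CertF 0 536870912 536870912 536870912 134217728 67108864 true true false .pnp 0 1 2
    ndF1q0 ndF1q1 pcF2 Cut.none Ext.none :=
  certF2 (fam := true) (s1 := true) (s2 := false) (a := 0) (b := 1) (c := 2) (cn := .pnp) (n1 := ndF1q0) (n2 := ndF1q1) (pc := pcF2) (cut := Cut.none) (xt := Ext.none) (P1 := 0) (W1 := 536870912) (P2 := 536870912) (W2 := 536870912) (P3 := 134217728) (W3 := 67108864)
    rfl (fun _ => rfl) k0_pm_012

noncomputable def cut_pm_022_a : Cut := Cut.of [[⟨0, 0, 0, 67108864⟩, ⟨1, 1, 0, 67108864⟩, ⟨2, 1, 0, 67108864⟩]]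

noncomputable def f_pm_022_a : ℕ → ℕ → ℕ → ℕ → Bool := onCell 1073741824 536870912 0 536870912 134217728 67108864
    (rowF 2 true true false .pp 0 2 2 (qsf 0 536870912 0 536870912 2) ndF1q0 ndF1q2a pcF2 cut_pm_022_a Ext.none)

def k0_pm_022_a : ∃ t, chk3 f_pm_022_a t 2 2 1 = true :=
  ⟨(a (b (l 1) (a (l 1) (a (l 1) (a (l 1) (a (l 1) (b (l 1) (b (l 1) (a (c (l 138008989415) (l 150893864903)) (c (l 131029667175) (l 16559520)))))))))) (a (a (a (b (l 1) (a (b (l 1) (c (b (l 149283295847) (l 175053095239)) (b (l 160557546983) (l 16564048)))) (b (c (b (l 16579840) (l 142840837351)) (b (l 16554864) (l 16554576))) (c (b (l 16576448) (l 16553936)) (a (l 16556768) (l 16552728)))))) (a (b (a (l 1) (b (l 1) (c (l 87006356775) (l 16530840)))) (b (c (b (a (l 16609904) (l 16706544)) (l 16650344)) (b (l 16548512) (l 16547088))) (b (c (l 16641584) (l 16525696)) (l 16577480)))) (b (a (b (l 1) (c (b (l 16811856) (l 16803984)) (l 16527712))) (b (a (c (l 16883128) (l 16532992)) (c (b (l 16925544)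 (l 16919976)) (l 16552360))) (a (c (l 16806120) (l 16525072)) (c (b (l 16912288) (l 16902864)) (l 16544392))))) (a (b (c (l 16788312) (l 16542808)) (l 16571992)) (b (a (c (l 16848072) (l 16518960)) (c (l 16885872) (l 16559176))) (a (l 16568240) (b (l 16566696) (l 16543792)))))))) (b (a (c (a (b (l 17014312) (l 16999184)) (l 17133344)) (b (l 16527992) (l 16541240))) (b (l 16934504) (l 16860760))) (a (b (c (l 16854400) (l 16535112)) (a (l 16594232) (l 16742968))) (b (l 16948440) (l 16927792))))) (b (a (a (l 17165144) (l 17309200)) (l 17457424)) (a (b (l 17137240) (l 17194608)) (l 17425232))))), by decide +kernel⟩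

def k1_pm_022_a : ∃ t, chk3 f_pm_022_a t 8 6 1 = true :=
  ⟨(l 1), by decide +kernel⟩

def k2_pm_022_a : ∃ t, chk3 f_pm_022_a t 18 6 1 = true :=
  ⟨(a (b (l 1) (b (l 1) (a (l 1) (a (b (l 1) (c (c (b (l 109554961911) (a (l 148746543431) (l 177737571527))) (b (l 101501894567) (l 164315792183))) (c (l 137472242759) (l 137472239495)))) (b (a (l 1) (c (c (l 114923647895) (l 106870580231)) (l 96133156327))) (c (c (b (l 158410207703) (l 16639376)) (b (l 150357143415) (l 16637736))) (c (l 156799593495) (l 145525301735)))))))) (a (b (l 1) (b (a (l 1) (a (l 1) (b (l 1) (b (l 1) (c (c (l 131566617911) (l 123513550471)) (l 127808513943)))))) (a (b (c (c (l 139082840903) (l 140693444503)) (c (l 142840913959) (l 144451523159))) (c (c (l 16630080) (l 16628416)) (l 16631344))) (b (b (c (c (l 173979440471) (l 168610727399)) (a (l 164852615991) (l 16618160))) (c (c (l 16641640) (l 16639808)) (l 16626768))) (c (l 16641216) (l 16638200)))))) (b (l 1) (b (a (b (l 1) (c (c (l 150357100503) (l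 152504579495)) (c (l 154652058727) (a (l 144988371239) (l 177200619031))))) (b (c (c (l 137472165703) (l 133714084279)) (c (l 129955982199) (l 126197880455))) (c (c (l 201896694903) (l 205117915959)) (c (l 200286073655) (l 193306747703))))) (c (a (c (l 16625376) (l 16622840)) (l 16627096)) (b (a (l 16620928) (l 16601400)) (l 16629064))))))), by decide +kernel⟩

def k3_pm_022_a : ∃ t, chk3 f_pm_022_a t 19 6 1 = true :=
  ⟨(a (b (a (b (l 1) (b (l 1) (b (a (l 1) (c (c (l 133714062823) (l 133177184391)) (a (l 1) (l 172368740359)))) (a (c (c (l 102575561383) (l 96133104119)) (a (l 1) (l 101501792727))) (c (c (l 168610672663) (l 171831890807)) (a (l 159483845735) (l 217465898855))))))) (b (a (l 1) (c (b (l 1) (l 135861526535)) (l 155725726743))) (a (b (c (c (l 157873244519) (l 165389428535)) (a (l 149820156711) (l 129955928007))) (c (c (l 16590048) (l 16585456)) (b (l 198138546455) (l 16600352)))) (c (c (l 179348075719) (l 183106162807)) (b (l 176663698951) (l 16573376)))))) (a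 (b (a (b (c (c (l 169684427415) (l 172905647063)) (c (l 169147545255) (l 176663733015))) (c (l 16620400) (l 16614632))) (c (c (l 16605928) (l 16602272)) (b (b (l 16596384) (l 16586456)) (l 16587256)))) (c (l 16630480) (l 16621352))) (b (c (b (l 16608104) (l 16587256)) (b (l 16599672) (l 16600496))) (b (l 16607968) (l 16602536))))) (a (b (b (c (a (b (l 113849810007) (l 144988323623)) (l 152504512135)) (a (l 122439727847) (l 159483810823))) (c (b (l 16597888) (l 16597920)) (b (l 16586344) (l 16587160)))) (b (l 16604728) (l 16592656))) (b (b (c (b (l 16589256) (l 16589088)) (l 195991046039)) (a (l 16583560) (l 16578800))) (b (l 16582064) (l 16590040))))), by decide +kernel⟩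

def k4_pm_022_a : ∃ t, chk3 f_pm_022_a t 8 7 1 = true :=
  ⟨(a (b (l 1) (l 6)) (b (a (b (l 1) (l 6)) (b (a (l 1) (b (l 1) (b (a (l 1) (c (b (c (c (a (l 1) (a (l 123513656247) (l 156799648823))) (l 134251075063)) (l 135324814807)) (a (l 6) (a (l 6) (c (l 16671040) (l 16669728))))) (a (l 144451620487) (l 173442649127)))) (a (l 6) (a (l 6) (a (l 6) (c (l 16670536) (l 16668184)))))))) (a (l 6) (a (l 6) (a (l 6) (c (l 16679064) (l 16670120))))))) (a (l 6) (a (l 6) (a (l 6) (b (l 16695928) (l 16736536))))))), by decide +kernel⟩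

def k5_pm_022_a : ∃ t, chk3 f_pm_022_a t 9 7 1 = true :=
  ⟨(a (a (b (b (a (b (c (c (c (a (b (l 1) (a (b (l 1) (l 155725900727)) (b (l 158410246887) (l 209949860103)))) (b (a (l 143377852695) (l 171832002599)) (a (l 214781690375) (l 16655608)))) (a (b (l 1) (a (l 136398546263) (l 169684534679))) (b (l 164852683367) (l 16662240)))) (a (b (l 1) (a (l 133714189495) (l 171295151463))) (b (l 160557713703) (l 16661168)))) (a (c (l 138009149319) (l 134787920935)) (b (a (l 129956080151) (l 177737583671)) (l 189548754759)))) (a (b (c (c (a (b (c (l 208876126503) (l 16667552)) (l 16668024)) (l 16663872)) (l 200823062743)) (c (l 16663312) (l 16662072))) (c (l 16665472) (l 16663168))) (c (l 16667528) (l 16654696)))) (c (b (a (b (c (a (l 16655928) (l 16646320)) (l 16646968)) (l 16648048)) (l 16659992)) (l 16643968)) (b (b (a (l 16650024) (l 16636040)) (l 16662008)) (l 16641792)))) (b (c (a (l 16682440) (l 16651528)) (l 16673064)) (l 16690256))) (b (l 16676888) (l 16738440))) (b (a (b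 (b (c (l 16663840) (l 16666456)) (l 16678688)) (l 16705232)) (b (b (l 16656288) (l 16638784)) (l 16665296))) (b (b (l 16791696) (l 16790376)) (l 16842448)))) (a (b (b (c (l 16702472) (l 16707912)) (l 16740720)) (b (l 16736864) (l 16736080))) (b (c (l 16697544) (l 16725808)) (a (l 16719464) (l 16717656))))), by decide +kernel⟩

def k6_pm_022_a : ∃ t, chk3 f_pm_022_a t 5 3 1 = true :=
  ⟨(a (a (a (b (b (a (c (l 16591176) (l 16575800)) (b (l 16585032) (l 16563160))) (c (l 16624664) (l 16658888))) (b (a (l 16638336) (l 16635576)) (l 16712984))) (b (a (b (l 16575528) (l 16565744)) (b (a (l 16547464) (l 16625528)) (a (l 16563664) (l 16626184)))) (a (b (l 16632992) (l 16711168)) (b (l 16800160) (l 16836632))))) (b (b (a (l 16665800) (l 16907768)) (a (l 16673512) (l 16895696))) (b (l 16808560) (l 16858464)))) (b (a (b (l 17163416) (l 17133016)) (b (l 17378864) (l 17340256))) (a (b (l 17111976) (l 17109624)) (b (l 17303512) (l 17277520))))), by decide +kernel⟩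

def k7_pm_022_a : ∃ t, chk3 f_pm_022_a t 3 1 1 = true :=
  ⟨(b (a (a (b (l 17615936) (l 17597296)) (l 17679720)) (l 17785216)) (a (b (a (l 17538960) (l 17642560)) (a (l 17465584) (l 17576288))) (b (l 17655888) (l 17611072)))), by decide +kernel⟩

theorem s8_pm_022_a : ∃ t, chk3 f_pm_022_a t 4 7 1 = true := ex3_a k4_pm_022_a k5_pm_022_a

theorem s9_pm_022_a : ∃ t, chk3 f_pm_022_a t 9 6 1 = true := ex3_a k2_pm_022_a k3_pm_022_a

theorem s10_pm_022_a : ∃ t, chk3 f_pm_022_a t 4 6 1 = true := ex3_a k1_pm_022_a s9_pm_022_a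

theorem s11_pm_022_a : ∃ t, chk3 f_pm_022_a t 4 3 1 = true := ex3_b s10_pm_022_a s8_pm_022_a

theorem s12_pm_022_a : ∃ t, chk3 f_pm_022_a t 2 3 1 = true := ex3_a s11_pm_022_a k6_pm_022_a

theorem s13_pm_022_a : ∃ t, chk3 f_pm_022_a t 2 1 1 = true := ex3_b k0_pm_022_a s12_pm_022_a

theorem s14_pm_022_a : ∃ t, chk3 f_pm_022_a t 1 1 1 = true := ex3_a s13_pm_022_a k7_pm_022_a

theorem c_pm_022_a : CertF 0 536870912 0 536870912 134217728 67108864 true true false .pp 0 2 2
    ndF1q0 ndF1q2a pcF2 cut_pm_022_a Ext.none :=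
  certF2 (fam := true) (s1 := true) (s2 := false) (a := 0) (b := 2) (c := 2) (cn := .pp) (n1 := ndF1q0) (n2 := ndF1q2a) (pc := pcF2) (cut := cut_pm_022_a) (xt := Ext.none) (P1 := 0) (W1 := 536870912) (P2 := 0) (W2 := 536870912) (P3 := 134217728) (W3 := 67108864)
    rfl (fun _ => rfl) s14_pm_022_a

noncomputable def cut_pm_022_b : Cut := Cut.of [[⟨0, 0, 0, 67108864⟩, ⟨1, 1, 0, 67108864⟩, ⟨2, 1, 0, 67108864⟩]]

noncomputable def f_pm_022_b : ℕ → ℕ → ℕ → ℕ → Bool := onCell 0 536870912 1073741824 536870912 134217728 67108864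
    (rowF 1 true true false .pp 0 2 2 (qsf 0 536870912 1239849684 370763052 2) ndF1q0 ndF1q2b pcF2 cut_pm_022_b Ext.none)

def k0_pm_022_b : ∃ t, chk3 f_pm_022_b t 1 1 1 = true :=
  ⟨(a (b (a (b (l 1) (a (a (b (b (b (l 1) (b (l 1) (b (l 1) (a (b (l 1) (c (l 16913000) (l 16540784))) (l 1))))) (a (b (c (a (l 17100336) (l 17079656)) (l 16531688)) (c (l 17356192) (l 16673200))) (c (l 17080112) (l 16578000)))) (b (c (b (l 17544192) (l 17722600)) (b (l 16934384) (l 17160208))) (c (l 17933064) (l 17429000)))) (b (b (l 1) (b (l 1) (l 16939048))) (b (c (l 17514640) (l 16990352)) (l 17570928)))) (b (l 1) (b (a (l 17168984) (l 1)) (l 17411440))))) (l 1)) (b (a (b (a (c (l 18157456) (l 17747712)) (l 17726424)) (a (l 18228584) (l 18010376))) (a (l 228205851703) (l 175054577047))) (a (l 18345712) (l 17942184)))) (b (l 1) (b (l 1) (a (b (l 17447336) (l 17602832)) (l 1))))), by decide +kernel⟩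

theorem c_pm_022_b : CertF 0 536870912 1239849684 370763052 134217728 67108864 true true false .pp 0 2 2
    ndF1q0 ndF1q2b pcF2 cut_pm_022_b Ext.none :=
  certF1 (fam := true) (s1 := true) (s2 := false) (a := 0) (b := 2) (c := 2) (cn := .pp) (n1 := ndF1q0) (n2 := ndF1q2b) (pc := pcF2) (cut := cut_pm_022_b) (xt := Ext.none) (P1 := 0) (W1 := 536870912) (P2 := 1239849684) (W2 := 370763052) (P3 := 134217728) (W3 := 67108864)
    rfl (fun _ => rfl) k0_pm_022_b

noncomputable def f_pm_023_a : ℕ → ℕ → ℕ → ℕ → Bool := onCell 0 536870912 0 536870912 134217728 67108864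
    (rowF 0 true true false .up 0 2 3 (qsf 0 536870912 0 536870912 3) ndF1q0 ndF1q2a pcF3 Cut.none Ext.none)

def k0_pm_023_a : ∃ t, chk3 f_pm_023_a t 1 1 1 = true :=
  ⟨(a (l 1) (a (b (a (l 1) (l 18015040)) (l 208878890023)) (b (b (l 17719160) (l 17959608)) (b (l 17933064) (l 17874024))))), by decide +kernel⟩

theorem c_pm_023_a : CertF 0 536870912 0 536870912 134217728 67108864 true true false .up 0 2 3
    ndF1q0 ndF1q2a pcF3 Cut.none Ext.none :=
  certF0 (fam := true) (s1 := true) (s2 := false) (a := 0) (b := 2) (c := 3) (cn := .up) (n1 := ndF1q0) (n2 := ndF1q2a) (pc := pcF3) (cut := Cut.none) (xt := Ext.none) (P1 := 0) (W1 := 536870912) (P2 := 0) (W2 := 536870912) (P3 := 134217728) (W3 := 67108864)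
    rfl k0_pm_023_a

noncomputable def f_pm_023_b : ℕ → ℕ → ℕ → ℕ → Bool := onCell 1610612736 536870912 1239849684 370763052 134217728 67108864
    (rowF 2 true true false .up 0 2 3 (qsf 0 536870912 1239849684 370763052 3) ndF1q0 ndF1q2b pcF3 Cut.none Ext.none)

def k0_pm_023_b : ∃ t, chk3 f_pm_023_b t 1 1 1 = true :=
  ⟨(a (a (b (a (l 17875728) (l 17767656)) (a (l 18113112) (l 18044152))) (a (l 17989504) (b (l 17591040) (l 17842360)))) (a (l 4) (l 4))), by decide +kernel⟩

theorem c_pm_023_b : CertF 0 536870912 1239849684 370763052 134217728 67108864 true true false .up 0 2 3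
    ndF1q0 ndF1q2b pcF3 Cut.none Ext.none :=
  certF2 (fam := true) (s1 := true) (s2 := false) (a := 0) (b := 2) (c := 3) (cn := .up) (n1 := ndF1q0) (n2 := ndF1q2b) (pc := pcF3) (cut := Cut.none) (xt := Ext.none) (P1 := 0) (W1 := 536870912) (P2 := 1239849684) (W2 := 370763052) (P3 := 134217728) (W3 := 67108864)
    rfl (fun _ => rfl) k0_pm_023_b

noncomputable def f_pm_033 : ℕ → ℕ → ℕ → ℕ → Bool := onCell 0 536870912 1610612736 536870912 134217728 67108864
    (rowF 1 true true false .pnn 0 3 3 (qsf 0 536870912 1610612736 536870912 3) ndF1q0 ndF1q3 pcF3 Cut.none Ext.none)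

def k0_pm_033 : ∃ t, chk3 f_pm_033 t 1 1 1 = true :=
  ⟨(b (b (a (b (l 240017785175) (l 17993016)) (l 1)) (a (b (l 18009032) (l 18005928)) (l 314641962535))) (b (l 4) (l 4))), by decide +kernel⟩

theorem c_pm_033 : CertF 0 536870912 1610612736 536870912 134217728 67108864 true true false .pnn 0 3 3
    ndF1q0 ndF1q3 pcF3 Cut.none Ext.none :=
  certF1 (fam := true) (s1 := true) (s2 := false) (a := 0) (b := 3) (c := 3) (cn := .pnn) (n1 := ndF1q0) (n2 := ndF1q3) (pc := pcF3) (cut := Cut.none) (xt := Ext.none) (P1 := 0) (W1 := 536870912) (P2 := 1610612736) (W2 := 536870912) (P3 := 134217728) (W3 := 67108864)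
    rfl (fun _ => rfl) k0_pm_033

noncomputable def f_pm_101 : ℕ → ℕ → ℕ → ℕ → Bool := onCell 536870912 536870912 0 536870912 134217728 67108864
    (rowF 2 true true false .npn 1 0 1 (qsf 536870912 536870912 0 536870912 1) ndF1q1 ndF1q0 pcF1 Cut.none Ext.none)

def k0_pm_101 : ∃ t, chk3 f_pm_101 t 1 1 1 = true :=
  ⟨(l 3), by decide +kernel⟩

theorem c_pm_101 : CertF 536870912 536870912 0 536870912 134217728 67108864 true true false .npn 1 0 1
    ndF1q1 ndF1q0 pcF1 Cut.none Ext.none :=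
  certF2 (fam := true) (s1 := true) (s2 := false) (a := 1) (b := 0) (c := 1) (cn := .npn) (n1 := ndF1q1) (n2 := ndF1q0) (pc := pcF1) (cut := Cut.none) (xt := Ext.none) (P1 := 536870912) (W1 := 536870912) (P2 := 0) (W2 := 536870912) (P3 := 134217728) (W3 := 67108864)
    rfl (fun _ => rfl) k0_pm_101

noncomputable def f_pm_102 : ℕ → ℕ → ℕ → ℕ → Bool := onCell 536870912 536870912 1073741824 536870912 134217728 67108864
    (rowF 1 true true false .npp 1 0 2 (qsf 536870912 536870912 0 536870912 2) ndF1q1 ndF1q0 pcF2 Cut.none Ext.none)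

def k0_pm_102 : ∃ t, chk3 f_pm_102 t 1 1 1 = true :=
  ⟨(b (b (l 3) (a (b (b (b (l 3) (b (l 3) (a (l 2) (l 17059152)))) (l 17023392)) (l 17078640)) (b (b (b (l 3) (b (l 3) (a (l 17364064) (b (a (l 17170784) (l 17020488)) (a (l 17182792) (l 17201184)))))) (a (l 17221976) (a (l 17236664) (l 16973264)))) (a (l 17289656) (a (l 17372856) (l 17278192)))))) (a (b (l 17170544) (l 2)) (a (l 17582808) (a (l 17633552) (l 17919280))))), by decide +kernel⟩

theorem c_pm_102 : CertF 536870912 536870912 0 536870912 134217728 67108864 true true false .npp 1 0 2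
    ndF1q1 ndF1q0 pcF2 Cut.none Ext.none :=
  certF1 (fam := true) (s1 := true) (s2 := false) (a := 1) (b := 0) (c := 2) (cn := .npp) (n1 := ndF1q1) (n2 := ndF1q0) (pc := pcF2) (cut := Cut.none) (xt := Ext.none) (P1 := 536870912) (W1 := 536870912) (P2 := 0) (W2 := 536870912) (P3 := 134217728) (W3 := 67108864)
    rfl (fun _ => rfl) k0_pm_102

noncomputable def f_pm_112 : ℕ → ℕ → ℕ → ℕ → Bool := onCell 536870912 536870912 1073741824 536870912 134217728 67108864
    (rowF 1 true true false .dn 1 1 2 (qsf 536870912 536870912 536870912 536870912 2) ndF1q1 ndF1q1 pcF2 Cut.none Ext.none)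

def k0_pm_112 : ∃ t, chk3 f_pm_112 t 1 1 1 = true :=
  ⟨(b (b (l 3) (b (a (b (b (l 3) (b (l 3) (l 17667240))) (l 17535752)) (l 1)) (a (l 17515256) (l 17643104)))) (a (l 17432600) (l 17606072))), by decide +kernel⟩

theorem c_pm_112 : CertF 536870912 536870912 536870912 536870912 134217728 67108864 true true false .dn 1 1 2
    ndF1q1 ndF1q1 pcF2 Cut.none Ext.none :=
  certF1 (fam := true) (s1 := true) (s2 := false) (a := 1) (b := 1) (c := 2) (cn := .dn) (n1 := ndF1q1) (n2 := ndF1q1) (pc := pcF2) (cut := Cut.none) (xt := Ext.none) (P1 := 536870912) (W1 := 536870912) (P2 := 536870912) (W2 := 536870912) (P3 := 134217728) (W3 := 67108864)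
    rfl (fun _ => rfl) k0_pm_112

noncomputable def f_pm_113 : ℕ → ℕ → ℕ → ℕ → Bool := onCell 536870912 536870912 536870912 536870912 134217728 67108864
    (rowF 0 true true false .nn 1 1 3 (qsf 536870912 536870912 536870912 536870912 3) ndF1q1 ndF1q1 pcF3 Cut.none Ext.none)

def k0_pm_113 : ∃ t, chk3 f_pm_113 t 1 1 1 = true :=
  ⟨(a (b (l 17755272) (l 17407616)) (b (l 17407616) (b (l 17178320) (a (l 17138488) (a (l 16989752) (b (l 16962416) (a (l 16885256) (b (l 16869592) (a (l 16831456) (b (l 16823064) (a (l 16804352) (b (l 16800008) (a (l 16790784) (l 16953544)))))))))))))), by decide +kernel⟩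

theorem c_pm_113 : CertF 536870912 536870912 536870912 536870912 134217728 67108864 true true false .nn 1 1 3
    ndF1q1 ndF1q1 pcF3 Cut.none Ext.none :=
  certF0 (fam := true) (s1 := true) (s2 := false) (a := 1) (b := 1) (c := 3) (cn := .nn) (n1 := ndF1q1) (n2 := ndF1q1) (pc := pcF3) (cut := Cut.none) (xt := Ext.none) (P1 := 536870912) (W1 := 536870912) (P2 := 536870912) (W2 := 536870912) (P3 := 134217728) (W3 := 67108864)
    rfl k0_pm_113

noncomputable def f_pm_123_a : ℕ → ℕ → ℕ → ℕ → Bool := onCell 1610612736 536870912 0 536870912 134217728 67108864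
    (rowF 2 true true false .npn 1 2 3 (qsf 536870912 536870912 0 536870912 3) ndF1q1 ndF1q2a pcF3 Cut.none Ext.none)

def k0_pm_123_a : ∃ t, chk3 f_pm_123_a t 1 1 1 = true :=
  ⟨(a (a (b (l 134789327415) (l 17373456)) (b (a (l 17005880) (l 16998632)) (a (l 17195224) (l 17119176)))) (a (b (a (l 16876160) (l 4)) (a (l 17028512) (l 16967000))) (a (b (l 4) (l 16880400)) (l 4)))), by decide +kernel⟩

theorem c_pm_123_a : CertF 536870912 536870912 0 536870912 134217728 67108864 true true false .npn 1 2 3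
    ndF1q1 ndF1q2a pcF3 Cut.none Ext.none :=
  certF2 (fam := true) (s1 := true) (s2 := false) (a := 1) (b := 2) (c := 3) (cn := .npn) (n1 := ndF1q1) (n2 := ndF1q2a) (pc := pcF3) (cut := Cut.none) (xt := Ext.none) (P1 := 536870912) (W1 := 536870912) (P2 := 0) (W2 := 536870912) (P3 := 134217728) (W3 := 67108864)
    rfl (fun _ => rfl) k0_pm_123_a

noncomputable def f_pm_123_b : ℕ → ℕ → ℕ → ℕ → Bool := onCell 1610612736 536870912 1239849684 370763052 134217728 67108864
    (rowF 2 true true false .npn 1 2 3 (qsf 536870912 536870912 1239849684 370763052 3) ndF1q1 ndF1q2b pcF3 Cut.none Ext.none)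

def k0_pm_123_b : ∃ t, chk3 f_pm_123_b t 1 1 1 = true :=
  ⟨(a (a (l 1) (a (l 16987992) (l 17116832))) (a (l 4) (l 4))), by decide +kernel⟩

theorem c_pm_123_b : CertF 536870912 536870912 1239849684 370763052 134217728 67108864 true true false .npn 1 2 3
    ndF1q1 ndF1q2b pcF3 Cut.none Ext.none :=
  certF2 (fam := true) (s1 := true) (s2 := false) (a := 1) (b := 2) (c := 3) (cn := .npn) (n1 := ndF1q1) (n2 := ndF1q2b) (pc := pcF3) (cut := Cut.none) (xt := Ext.none) (P1 := 536870912) (W1 := 536870912) (P2 := 1239849684) (W2 := 370763052) (P3 := 134217728) (W3 := 67108864)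
    rfl (fun _ => rfl) k0_pm_123_b

noncomputable def f_pm_133 : ℕ → ℕ → ℕ → ℕ → Bool := onCell 536870912 536870912 1610612736 536870912 134217728 67108864
    (rowF 0 true true false .dn 1 3 3 (qsf 536870912 536870912 1610612736 536870912 3) ndF1q1 ndF1q3 pcF3 Cut.none Ext.none)

def k0_pm_133 : ∃ t, chk3 f_pm_133 t 1 1 1 = true :=
  ⟨(l 4), by decide +kernel⟩

theorem c_pm_133 : CertF 536870912 536870912 1610612736 536870912 134217728 67108864 true true false .dn 1 3 3
    ndF1q1 ndF1q3 pcF3 Cut.none Ext.none :=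
  certF0 (fam := true) (s1 := true) (s2 := false) (a := 1) (b := 3) (c := 3) (cn := .dn) (n1 := ndF1q1) (n2 := ndF1q3) (pc := pcF3) (cut := Cut.none) (xt := Ext.none) (P1 := 536870912) (W1 := 536870912) (P2 := 1610612736) (W2 := 536870912) (P3 := 134217728) (W3 := 67108864)
    rfl k0_pm_133

noncomputable def cut_pm_202_a : Cut := Cut.of [[⟨0, 1, 0, 67108864⟩, ⟨1, 0, 0, 67108864⟩, ⟨2, 1, 0, 67108864⟩]]

noncomputable def f_pm_202_a : ℕ → ℕ → ℕ → ℕ → Bool := onCell 0 536870912 1073741824 536870912 134217728 67108864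
    (rowF 1 true true false .pp 2 0 2 (qsf 0 536870912 0 536870912 2) ndF1q2a ndF1q0 pcF2 cut_pm_202_a Ext.none)

def k0_pm_202_a : ∃ t, chk3 f_pm_202_a t 2 1 1 = true :=
  ⟨(b (a (b (l 1) (b (b (b (l 1) (b (a (l 1) (c (a (l 1) (b (l 1) (l 16714872))) (l 85932496039))) (b (a (l 1) (c (a (l 16790848) (l 16803968)) (l 16548680))) (a (b (c (a (l 16885776) (l 16880888)) (l 16532992)) (c (a (l 16883568) (l 16878032)) (l 16552360))) (b (c (a (l 16873888) (l 16864624)) (l 16525072)) (c (a (l 16912288) (l 16902864)) (l 16544392))))))) (b (a (c (b (l 17014312) (l 17141584)) (l 16527992)) (c (b (l 16999184) (l 17126968)) (l 16541240))) (a (l 16871592) (l 16776872)))) (b (b (a (l 17170688) (l 17161328)) (l 17309200)) (l 17457424)))) (b (a (l 1) (b (l 1) (b (l 1) (b (l 1) (b (l 1) (a (l 1) (c (b (l 140156473063) (l 130492796263)) (b (l 153041348631) (l 16564760))))))))) (b (b (b (a (b (l 1) (c (a (l 76268851639) (l 143377708263)) (a (l 16554864) (l 153578211943)))) (b (c (a (l 150357037671)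 (l 173979353415)) (a (l 161631288807) (l 16564048))) (c (a (l 16576448) (l 16553936)) (a (l 16554888) (l 16534248))))) (b (a (c (c (a (l 150894189255) (l 16867368)) (l 139619599975)) (a (l 16548512) (l 16547088))) (a (c (l 16641584) (l 16525696)) (l 16577480))) (a (b (c (l 16704424) (l 16542808)) (b (c (l 16848072) (l 16518960)) (c (a (l 16892040) (l 16880248)) (l 16559176)))) (b (a (l 16551736) (l 16550112)) (b (l 16568240) (a (l 16566696) (l 16543792))))))) (b (a (c (b (l 16976464) (l 17102896)) (l 16535112)) (b (l 16594232) (l 16742968))) (a (l 16948440) (l 16927792)))) (b (a (l 17074328) (l 17194608)) (l 17425232))))) (b (b (a (l 17615936) (l 17597296)) (l 17679720)) (l 17659384))), by decide +kernel⟩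

def k1_pm_202_a : ∃ t, chk3 f_pm_202_a t 12 4 1 = true :=
  ⟨(b (l 1) (b (l 1) (b (b (a (l 1) (a (l 1) (a (b (l 1) (c (c (l 134787804647) (l 133714055303)) (b (l 1) (l 172905611271)))) (b (c (c (l 103112432295) (l 96669975031)) (b (l 1) (l 102038663639))) (c (c (l 168610672503) (l 171831890807)) (b (l 159483845735) (l 217465898855))))))) (a (a (l 1) (b (l 1) (c (l 136935268359) (l 150893892919)))) (b (a (c (c (l 158946986343) (l 166463170359)) (b (l 150893898535) (l 130492798919))) (c (c (l 16590048) (l 16595944)) (a (l 198138546455) (l 16600352)))) (c (c (l 178274333895) (l 182569291895)) (a (l 176126828039) (l 16573376)))))) (b (a (c (b (a (l 114386680919) (l 144988323623)) (a (l 135861509607) (l 16573320))) (b (a (l 127808431607) (l 151967624727)) (l 158946939911))) (c (a (l 16597888) (l 16597920)) (a (l 16586344) (l 16587160)))) (a (c (a (l 16589256) (l 16589088)) (l 194917304215)) (c (l 16588744) (l 16554928))))))), by decide +kernel⟩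

def k2_pm_202_a : ∃ t, chk3 f_pm_202_a t 13 4 1 = true :=
  ⟨(b (l 1) (b (b (a (l 1) (b (l 1) (a (a (l 1) (b (l 1) (a (l 1) (c (c (l 117608007447) (l 109018069063)) (l 103112483639))))) (b (c (c (a (b (l 1) (l 110628699383)) (b (a (l 106333741239) (l 153041518087)) (l 177737571527))) (a (l 102038765479) (l 164315792183))) (c (a (l 96670052823) (l 133177289799)) (l 137472239495))) (c (c (a (l 158410207703) (l 16639376)) (a (l 150357143415) (l 16637736))) (a (c (l 138009109351) (l 126197946679)) (l 16645904))))))) (b (a (b (l 1) (b (l 1) (a (l 1) (a (l 1) (c (c (l 132640359735) (l 124050421383)) (l 127808513943)))))) (b (a (c (c (a (l 124587310215) (l 165389513623)) (l 141230320663)) (c (l 142840913959) (l 144988394071))) (c (c (l 16651048) (l 16628416)) (l 16633968))) (a (a (c (c (l 173979440135) (l 168610727399)) (b (l 164852615991) (l 16618160))) (c (c (l 16641640) (l 16639808)) (l 16626768))) (c (l 16641216) (l 16638200))))) (a (b (a (l 1) (c (a (c (l 135324712487) (l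 128882257719)) (c (l 184716837031) (l 187401187911))) (b (a (l 91301280487) (l 168073822775)) (a (l 144988365383) (l 16604920))))) (a (c (c (l 138545928503) (l 134787826103)) (c (l 131566594935) (l 127808493191))) (c (c (l 201359823991) (l 204581045047)) (c (l 199749202743) (l 192769876791))))) (c (b (a (a (l 16621936) (l 16611792)) (l 16612232)) (l 16627096)) (a (b (l 16620928) (l 16601400)) (l 16629064)))))) (b (b (a (b (a (c (c (l 169147556503) (l 172368776151)) (c (l 168610674343) (l 176126862103))) (c (l 16620400) (l 16614632))) (c (a (c (l 16595288) (l 16591464)) (l 16593752)) (a (a (l 16596384) (l 16586456)) (l 16587256)))) (c (l 16630480) (l 16621352))) (a (c (a (l 16608104) (l 16587256)) (a (l 16599672) (l 16600496))) (a (l 16607968) (l 16602536)))) (a (c (b (l 16576792) (l 16566920)) (l 16633584)) (b (l 16592656) (l 16590040)))))), by decide +kernel⟩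

def k3_pm_202_a : ∃ t, chk3 f_pm_202_a t 6 5 1 = true :=
  ⟨(b (b (b (a (b (c (a (l 16581136) (l 16559032)) (l 16575800)) (a (l 16585032) (l 16563160))) (c (l 16624664) (l 16658888))) (b (a (l 16575528) (l 16565744)) (a (b (l 16547464) (l 16625528)) (b (l 16563664) (l 16626184))))) (a (b (l 16665800) (l 16907768)) (b (l 16673512) (l 16895696)))) (b (a (l 17163416) (l 17133016)) (a (l 17378864) (l 17340256)))), by decide +kernel⟩

def k4_pm_202_a : ∃ t, chk3 f_pm_202_a t 14 4 1 = true :=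
  ⟨(b (b (l 1) (b (a (l 1) (l 6)) (a (b (l 1) (a (l 1) (a (b (l 1) (c (c (c (b (a (l 1) (l 6)) (a (b (l 124050527159) (l 156799648823)) (b (l 6) (l 16671376)))) (b (a (l 1) (l 6)) (l 169147680551))) (b (l 137472302599) (l 170221420359))) (b (l 145525362311) (l 173442649127)))) (b (l 6) (b (l 6) (b (l 6) (c (l 16670536) (l 16668184)))))))) (b (l 6) (b (l 6) (a (c (l 16679016) (l 16671760)) (l 16673120))))))) (b (b (a (b (a (c (c (c (b (a (l 1) (b (a (l 1) (l 155725900727)) (a (l 158947117799) (l 209949860103)))) (a (b (l 144451594519) (l 171832002599)) (b (l 214781690375) (l 16655608)))) (b (a (l 1) (b (l 137472288087) (l 169684534679))) (a (b (l 141767238327) (l 172905748727)) (l 210486722983)))) (b (a (l 1) (b (l 134251060407) (l 171295151463))) (a (b (l 137472268663) (l 174516360423)) (l 202970529207)))) (b (a (l 1) (b (l 127808612391) (l 173979504087))) (a (b (l 130492951063) (l 177737583671)) (l 189011883847)))) (b (a (c (c (b (a (c (l 208876126503) (l 16667552)) (l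 16668024)) (l 16663872)) (l 200823062743)) (c (l 16663312) (l 16662072))) (c (l 16665472) (l 16663168))) (c (l 16667528) (l 16654696)))) (c (a (b (a (c (b (l 16653312) (l 16646320)) (l 16646968)) (l 16648048)) (l 16659992)) (l 16643968)) (a (a (b (l 16652648) (l 16636040)) (l 16662008)) (l 16641792)))) (a (c (b (l 16682440) (l 16651528)) (l 16673064)) (l 16690256))) (b (a (a (c (l 16663840) (l 16666456)) (l 16678688)) (l 16715720)) (a (a (l 16656288) (l 16638784)) (l 16665296)))) (b (a (c (l 16702472) (l 16710528)) (l 16740720)) (c (l 16697544) (l 16725808))))), by decide +kernel⟩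

def k5_pm_202_a : ∃ t, chk3 f_pm_202_a t 15 4 1 = true :=
  ⟨(b (b (l 6) (b (l 6) (b (l 6) (a (a (l 16685848) (l 16705392)) (l 16736312))))) (b (b (a (l 16676888) (l 16738440)) (a (a (l 16791696) (l 16790376)) (l 16842448))) (b (a (l 16736864) (l 16736080)) (b (l 16719464) (l 16717656))))), by decide +kernel⟩

def k6_pm_202_a : ∃ t, chk3 f_pm_202_a t 7 5 1 = true :=
  ⟨(b (b (b (a (l 16698264) (l 16712984)) (b (a (l 16632992) (l 16711168)) (a (l 16800160) (l 16815656)))) (a (l 16808560) (l 16858400))) (b (a (l 17111976) (l 17109512)) (a (l 17303512) (l 17277400)))), by decide +kernel⟩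

def k7_pm_202_a : ∃ t, chk3 f_pm_202_a t 3 3 1 = true :=
  ⟨(b (a (b (l 17538960) (l 17642560)) (b (l 17464864) (l 17575664))) (a (l 17655888) (l 17610304))), by decide +kernel⟩

theorem s8_pm_202_a : ∃ t, chk3 f_pm_202_a t 7 4 1 = true := ex3_a k4_pm_202_a k5_pm_202_a

theorem s9_pm_202_a : ∃ t, chk3 f_pm_202_a t 7 2 1 = true := ex3_b s8_pm_202_a k6_pm_202_a

theorem s10_pm_202_a : ∃ t, chk3 f_pm_202_a t 6 4 1 = true := ex3_a k1_pm_202_a k2_pm_202_a

theorem s11_pm_202_a : ∃ t, chk3 f_pm_202_a t 6 2 1 = true := ex3_b s10_pm_202_a k3_pm_202_a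

theorem s12_pm_202_a : ∃ t, chk3 f_pm_202_a t 3 2 1 = true := ex3_a s11_pm_202_a s9_pm_202_a

theorem s13_pm_202_a : ∃ t, chk3 f_pm_202_a t 3 1 1 = true := ex3_b s12_pm_202_a k7_pm_202_a

theorem s14_pm_202_a : ∃ t, chk3 f_pm_202_a t 1 1 1 = true := ex3_a k0_pm_202_a s13_pm_202_a

theorem c_pm_202_a : CertF 0 536870912 0 536870912 134217728 67108864 true true false .pp 2 0 2
    ndF1q2a ndF1q0 pcF2 cut_pm_202_a Ext.none :=
  certF1 (fam := true) (s1 := true) (s2 := false) (a := 2) (b := 0) (c := 2) (cn := .pp) (n1 := ndF1q2a) (n2 := ndF1q0) (pc := pcF2) (cut := cut_pm_202_a) (xt := Ext.none) (P1 := 0) (W1 := 536870912) (P2 := 0) (W2 := 536870912) (P3 := 134217728) (W3 := 67108864)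
    rfl (fun _ => rfl) s14_pm_202_a

noncomputable def cut_pm_202_b : Cut := Cut.of [[⟨0, 1, 0, 67108864⟩, ⟨1, 0, 0, 67108864⟩, ⟨2, 1, 0, 67108864⟩]]

noncomputable def f_pm_202_b : ℕ → ℕ → ℕ → ℕ → Bool := onCell 1073741824 536870912 0 536870912 134217728 67108864
    (rowF 2 true true false .pp 2 0 2 (qsf 1239849684 370763052 0 536870912 2) ndF1q2b ndF1q0 pcF2 cut_pm_202_b Ext.none)

def k0_pm_202_b : ∃ t, chk3 f_pm_202_b t 1 1 1 = true :=
  ⟨(a (b (a (l 1) (a (b (b (a (a (l 1) (a (l 1) (b (a (l 1) (b (a (l 1) (c (l 16913000) (l 16540784))) (l 1))) (l 1)))) (b (b (a (c (b (l 17100336) (l 17079656)) (l 16531688)) (c (l 17356192) (l 16673200))) (c (l 17080112) (l 16578000))) (a (l 1) (l 16939048)))) (l 1)) (l 1)) (b (b (b (a (c (a (l 17544192) (l 17722600)) (a (l 16934384) (l 17160208))) (c (l 17933064) (l 17387056))) (a (c (l 17514640) (l 16990352)) (l 17570928))) (a (b (l 17168984) (l 1)) (l 17411440))) (l 1)))) (l 1)) (a (b (b (a (b (c (l 18157456) (l 17747712)) (l 17726424))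 (b (l 18228584) (l 18010376))) (b (l 228205851703) (l 175054579671))) (l 1)) (b (b (l 18387656) (l 17942184)) (b (a (l 17447336) (l 17602832)) (l 1))))), by decide +kernel⟩

theorem c_pm_202_b : CertF 1239849684 370763052 0 536870912 134217728 67108864 true true false .pp 2 0 2
    ndF1q2b ndF1q0 pcF2 cut_pm_202_b Ext.none :=
  certF2 (fam := true) (s1 := true) (s2 := false) (a := 2) (b := 0) (c := 2) (cn := .pp) (n1 := ndF1q2b) (n2 := ndF1q0) (pc := pcF2) (cut := cut_pm_202_b) (xt := Ext.none) (P1 := 1239849684) (W1 := 370763052) (P2 := 0) (W2 := 536870912) (P3 := 134217728) (W3 := 67108864)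
    rfl (fun _ => rfl) k0_pm_202_b

noncomputable def f_pm_203_a : ℕ → ℕ → ℕ → ℕ → Bool := onCell 0 536870912 0 536870912 134217728 67108864
    (rowF 0 true true false .up 2 0 3 (qsf 0 536870912 0 536870912 3) ndF1q2a ndF1q0 pcF3 Cut.none Ext.none)

def k0_pm_203_a : ∃ t, chk3 f_pm_203_a t 1 1 1 = true :=
  ⟨(b (l 1) (b (a (b (l 1) (l 18015040)) (l 208878890023)) (a (a (l 17719160) (l 17959608)) (a (l 17933064) (l 17874024))))), by decide +kernel⟩

theorem c_pm_203_a : CertF 0 536870912 0 536870912 134217728 67108864 true true false .up 2 0 3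
    ndF1q2a ndF1q0 pcF3 Cut.none Ext.none :=
  certF0 (fam := true) (s1 := true) (s2 := false) (a := 2) (b := 0) (c := 3) (cn := .up) (n1 := ndF1q2a) (n2 := ndF1q0) (pc := pcF3) (cut := Cut.none) (xt := Ext.none) (P1 := 0) (W1 := 536870912) (P2 := 0) (W2 := 536870912) (P3 := 134217728) (W3 := 67108864)
    rfl k0_pm_203_a

noncomputable def f_pm_203_b : ℕ → ℕ → ℕ → ℕ → Bool := onCell 1239849684 370763052 1610612736 536870912 134217728 67108864
    (rowF 1 true true false .up 2 0 3 (qsf 1239849684 370763052 0 536870912 3) ndF1q2b ndF1q0 pcF3 Cut.none Ext.none)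

def k0_pm_203_b : ∃ t, chk3 f_pm_203_b t 1 1 1 = true :=
  ⟨(b (b (a (b (l 17875728) (l 17767656)) (b (l 18113112) (l 18044152))) (b (l 17989504) (a (l 17591040) (l 17842360)))) (b (l 4) (l 4))), by decide +kernel⟩

theorem c_pm_203_b : CertF 1239849684 370763052 0 536870912 134217728 67108864 true true false .up 2 0 3
    ndF1q2b ndF1q0 pcF3 Cut.none Ext.none :=
  certF1 (fam := true) (s1 := true) (s2 := false) (a := 2) (b := 0) (c := 3) (cn := .up) (n1 := ndF1q2b) (n2 := ndF1q0) (pc := pcF3) (cut := Cut.none) (xt := Ext.none) (P1 := 1239849684) (W1 := 370763052) (P2 := 0) (W2 := 536870912) (P3 := 134217728) (W3 := 67108864)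
    rfl (fun _ => rfl) k0_pm_203_b

noncomputable def f_pm_213_a : ℕ → ℕ → ℕ → ℕ → Bool := onCell 0 536870912 1610612736 536870912 134217728 67108864
    (rowF 1 true true false .pnn 2 1 3 (qsf 0 536870912 536870912 536870912 3) ndF1q2a ndF1q1 pcF3 Cut.none Ext.none)

def k0_pm_213_a : ∃ t, chk3 f_pm_213_a t 1 1 1 = true :=
  ⟨(b (b (a (l 134789327415) (l 17373448)) (a (b (l 17005880) (l 16998632)) (b (l 17195216) (l 17119168)))) (b (a (b (l 16876160) (l 4)) (b (l 17028512) (l 16966992))) (b (a (l 4) (l 16880400)) (l 4)))), by decide +kernel⟩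

theorem c_pm_213_a : CertF 0 536870912 536870912 536870912 134217728 67108864 true true false .pnn 2 1 3
    ndF1q2a ndF1q1 pcF3 Cut.none Ext.none :=
  certF1 (fam := true) (s1 := true) (s2 := false) (a := 2) (b := 1) (c := 3) (cn := .pnn) (n1 := ndF1q2a) (n2 := ndF1q1) (pc := pcF3) (cut := Cut.none) (xt := Ext.none) (P1 := 0) (W1 := 536870912) (P2 := 536870912) (W2 := 536870912) (P3 := 134217728) (W3 := 67108864)
    rfl (fun _ => rfl) k0_pm_213_a

noncomputable def f_pm_213_b : ℕ → ℕ → ℕ → ℕ → Bool := onCell 1239849684 370763052 1610612736 536870912 134217728 67108864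
    (rowF 1 true true false .pnn 2 1 3 (qsf 1239849684 370763052 536870912 536870912 3) ndF1q2b ndF1q1 pcF3 Cut.none Ext.none)

def k0_pm_213_b : ∃ t, chk3 f_pm_213_b t 1 1 1 = true :=
  ⟨(b (b (l 1) (b (l 16987992) (l 17116832))) (b (l 4) (l 4))), by decide +kernel⟩

theorem c_pm_213_b : CertF 1239849684 370763052 536870912 536870912 134217728 67108864 true true false .pnn 2 1 3
    ndF1q2b ndF1q1 pcF3 Cut.none Ext.none :=
  certF1 (fam := true) (s1 := true) (s2 := false) (a := 2) (b := 1) (c := 3) (cn := .pnn) (n1 := ndF1q2b) (n2 := ndF1q1) (pc := pcF3) (cut := Cut.none) (xt := Ext.none) (P1 := 1239849684) (W1 := 370763052) (P2 := 536870912) (W2 := 536870912) (P3 := 134217728) (W3 := 67108864)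
    rfl (fun _ => rfl) k0_pm_213_b

noncomputable def f_pm_303 : ℕ → ℕ → ℕ → ℕ → Bool := onCell 1610612736 536870912 0 536870912 134217728 67108864
    (rowF 2 true true false .npn 3 0 3 (qsf 1610612736 536870912 0 536870912 3) ndF1q3 ndF1q0 pcF3 Cut.none Ext.none)

def k0_pm_303 : ∃ t, chk3 f_pm_303 t 1 1 1 = true :=
  ⟨(a (a (b (a (l 326990872919) (l 17993016)) (l 1)) (b (a (l 18009032) (l 18005928)) (l 314641962535))) (a (l 4) (l 4))), by decide +kernel⟩

theorem c_pm_303 : CertF 1610612736 536870912 0 536870912 134217728 67108864 true true false .npn 3 0 3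
    ndF1q3 ndF1q0 pcF3 Cut.none Ext.none :=
  certF2 (fam := true) (s1 := true) (s2 := false) (a := 3) (b := 0) (c := 3) (cn := .npn) (n1 := ndF1q3) (n2 := ndF1q0) (pc := pcF3) (cut := Cut.none) (xt := Ext.none) (P1 := 1610612736) (W1 := 536870912) (P2 := 0) (W2 := 536870912) (P3 := 134217728) (W3 := 67108864)
    rfl (fun _ => rfl) k0_pm_303

noncomputable def f_pm_313 : ℕ → ℕ → ℕ → ℕ → Bool := onCell 1610612736 536870912 536870912 536870912 134217728 67108864
    (rowF 0 true true false .dn 3 1 3 (qsf 1610612736 536870912 536870912 536870912 3) ndF1q3 ndF1q1 pcF3 Cut.none Ext.none)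

def k0_pm_313 : ∃ t, chk3 f_pm_313 t 1 1 1 = true :=
  ⟨(l 4), by decide +kernel⟩

theorem c_pm_313 : CertF 1610612736 536870912 536870912 536870912 134217728 67108864 true true false .dn 3 1 3
    ndF1q3 ndF1q1 pcF3 Cut.none Ext.none :=
  certF0 (fam := true) (s1 := true) (s2 := false) (a := 3) (b := 1) (c := 3) (cn := .dn) (n1 := ndF1q3) (n2 := ndF1q1) (pc := pcF3) (cut := Cut.none) (xt := Ext.none) (P1 := 1610612736) (W1 := 536870912) (P2 := 536870912) (W2 := 536870912) (P3 := 134217728) (W3 := 67108864)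
    rfl k0_pm_313

noncomputable def f_mm_001 : ℕ → ℕ → ℕ → ℕ → Bool := onCell 0 536870912 0 536870912 134217728 67108864
    (rowF 0 true false false .up 0 0 1 (qsf 0 536870912 0 536870912 1) ndF1q0 ndF1q0 pcF1 Cut.none Ext.none)

def k0_mm_001 : ∃ t, chk3 f_mm_001 t 1 1 1 = true :=
  ⟨(l 4), by decide +kernel⟩

theorem c_mm_001 : CertF 0 536870912 0 536870912 134217728 67108864 true false false .up 0 0 1
    ndF1q0 ndF1q0 pcF1 Cut.none Ext.none :=
  certF0 (fam := true) (s1 := false) (s2 := false) (a := 0) (b := 0) (c := 1) (cn := .up) (n1 := ndF1q0) (n2 := ndF1q0) (pc := pcF1) (cut := Cut.none) (xt := Ext.none) (P1 := 0) (W1 := 536870912) (P2 := 0) (W2 := 536870912) (P3 := 134217728) (W3 := 67108864)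
    rfl k0_mm_001

noncomputable def f_mm_011 : ℕ → ℕ → ℕ → ℕ → Bool := onCell 0 536870912 536870912 536870912 134217728 67108864
    (rowF 0 true false false .pnn 0 1 1 (qsf 0 536870912 536870912 536870912 1) ndF1q0 ndF1q1 pcF1 Cut.none Ext.none)

def k0_mm_011 : ∃ t, chk3 f_mm_011 t 1 1 1 = true :=
  ⟨(l 4), by decide +kernel⟩

theorem c_mm_011 : CertF 0 536870912 536870912 536870912 134217728 67108864 true false false .pnn 0 1 1
    ndF1q0 ndF1q1 pcF1 Cut.none Ext.none :=
  certF0 (fam := true) (s1 := false) (s2 := false) (a := 0) (b := 1) (c := 1) (cn := .pnn) (n1 := ndF1q0) (n2 := ndF1q1) (pc := pcF1) (cut := Cut.none) (xt := Ext.none) (P1 := 0) (W1 := 536870912) (P2 := 536870912) (W2 := 536870912) (P3 := 134217728) (W3 := 67108864)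
    rfl k0_mm_011

noncomputable def f_mm_012 : ℕ → ℕ → ℕ → ℕ → Bool := onCell 0 536870912 536870912 536870912 134217728 67108864
    (rowF 0 true false false .pnp 0 1 2 (qsf 0 536870912 536870912 536870912 2) ndF1q0 ndF1q1 pcF2 Cut.none Ext.none)

def k0_mm_012 : ∃ t, chk3 f_mm_012 t 1 1 1 = true :=
  ⟨(l 4), by decide +kernel⟩

theorem c_mm_012 : CertF 0 536870912 536870912 536870912 134217728 67108864 true false false .pnp 0 1 2
    ndF1q0 ndF1q1 pcF2 Cut.none Ext.none :=
  certF0 (fam := true) (s1 := false) (s2 := false) (a := 0) (b := 1) (c := 2) (cn := .pnp) (n1 := ndF1q0) (n2 := ndF1q1) (pc := pcF2) (cut := Cut.none) (xt := Ext.none) (P1 := 0) (W1 := 536870912) (P2 := 536870912) (W2 := 536870912) (P3 := 134217728) (W3 := 67108864)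
    rfl k0_mm_012

noncomputable def f_mm_022_a : ℕ → ℕ → ℕ → ℕ → Bool := onCell 0 536870912 0 536870912 134217728 67108864
    (rowF 0 true false false .pp 0 2 2 (qsf 0 536870912 0 536870912 2) ndF1q0 ndF1q2a pcF2 Cut.none Ext.none)

def k0_mm_022_a : ∃ t, chk3 f_mm_022_a t 1 1 1 = true :=
  ⟨(l 5), by decide +kernel⟩

theorem c_mm_022_a : CertF 0 536870912 0 536870912 134217728 67108864 true false false .pp 0 2 2
    ndF1q0 ndF1q2a pcF2 Cut.none Ext.none :=
  certF0 (fam := true) (s1 := false) (s2 := false) (a := 0) (b := 2) (c := 2) (cn := .pp) (n1 := ndF1q0) (n2 := ndF1q2a) (pc := pcF2) (cut := Cut.none) (xt := Ext.none) (P1 := 0) (W1 := 536870912) (P2 := 0) (W2 := 536870912) (P3 := 134217728) (W3 := 67108864)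
    rfl k0_mm_022_a

noncomputable def f_mm_022_b : ℕ → ℕ → ℕ → ℕ → Bool := onCell 0 536870912 1239849684 370763052 134217728 67108864
    (rowF 0 true false false .pp 0 2 2 (qsf 0 536870912 1239849684 370763052 2) ndF1q0 ndF1q2b pcF2 Cut.none Ext.none)

def k0_mm_022_b : ∃ t, chk3 f_mm_022_b t 1 1 1 = true :=
  ⟨(l 5), by decide +kernel⟩

theorem c_mm_022_b : CertF 0 536870912 1239849684 370763052 134217728 67108864 true false false .pp 0 2 2
    ndF1q0 ndF1q2b pcF2 Cut.none Ext.none :=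
  certF0 (fam := true) (s1 := false) (s2 := false) (a := 0) (b := 2) (c := 2) (cn := .pp) (n1 := ndF1q0) (n2 := ndF1q2b) (pc := pcF2) (cut := Cut.none) (xt := Ext.none) (P1 := 0) (W1 := 536870912) (P2 := 1239849684) (W2 := 370763052) (P3 := 134217728) (W3 := 67108864)
    rfl k0_mm_022_b

noncomputable def f_mm_023_a : ℕ → ℕ → ℕ → ℕ → Bool := onCell 0 536870912 0 536870912 134217728 67108864
    (rowF 0 true false false .up 0 2 3 (qsf 0 536870912 0 536870912 3) ndF1q0 ndF1q2a pcF3 Cut.none Ext.none)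

def k0_mm_023_a : ∃ t, chk3 f_mm_023_a t 1 1 1 = true :=
  ⟨(l 5), by decide +kernel⟩

theorem c_mm_023_a : CertF 0 536870912 0 536870912 134217728 67108864 true false false .up 0 2 3
    ndF1q0 ndF1q2a pcF3 Cut.none Ext.none :=
  certF0 (fam := true) (s1 := false) (s2 := false) (a := 0) (b := 2) (c := 3) (cn := .up) (n1 := ndF1q0) (n2 := ndF1q2a) (pc := pcF3) (cut := Cut.none) (xt := Ext.none) (P1 := 0) (W1 := 536870912) (P2 := 0) (W2 := 536870912) (P3 := 134217728) (W3 := 67108864)
    rfl k0_mm_023_a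

noncomputable def f_mm_023_b : ℕ → ℕ → ℕ → ℕ → Bool := onCell 0 536870912 1239849684 370763052 134217728 67108864
    (rowF 0 true false false .up 0 2 3 (qsf 0 536870912 1239849684 370763052 3) ndF1q0 ndF1q2b pcF3 Cut.none Ext.none)

def k0_mm_023_b : ∃ t, chk3 f_mm_023_b t 1 1 1 = true :=
  ⟨(l 5), by decide +kernel⟩

theorem c_mm_023_b : CertF 0 536870912 1239849684 370763052 134217728 67108864 true false false .up 0 2 3
    ndF1q0 ndF1q2b pcF3 Cut.none Ext.none :=
  certF0 (fam := true) (s1 := false) (s2 := false) (a := 0) (b := 2) (c := 3) (cn := .up) (n1 := ndF1q0) (n2 := ndF1q2b) (pc := pcF3) (cut := Cut.none) (xt := Ext.none) (P1 := 0) (W1 := 536870912) (P2 := 1239849684) (W2 := 370763052) (P3 := 134217728) (W3 := 67108864)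
    rfl k0_mm_023_b

noncomputable def f_mm_033 : ℕ → ℕ → ℕ → ℕ → Bool := onCell 0 536870912 1610612736 536870912 134217728 67108864
    (rowF 0 true false false .pnn 0 3 3 (qsf 0 536870912 1610612736 536870912 3) ndF1q0 ndF1q3 pcF3 Cut.none Ext.none)

def k0_mm_033 : ∃ t, chk3 f_mm_033 t 1 1 1 = true :=
  ⟨(l 5), by decide +kernel⟩

theorem c_mm_033 : CertF 0 536870912 1610612736 536870912 134217728 67108864 true false false .pnn 0 3 3
    ndF1q0 ndF1q3 pcF3 Cut.none Ext.none :=
  certF0 (fam := true) (s1 := false) (s2 := false) (a := 0) (b := 3) (c := 3) (cn := .pnn) (n1 := ndF1q0) (n2 := ndF1q3) (pc := pcF3) (cut := Cut.none) (xt := Ext.none) (P1 := 0) (W1 := 536870912) (P2 := 1610612736) (W2 := 536870912) (P3 := 134217728) (W3 := 67108864)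
    rfl k0_mm_033

noncomputable def f_mm_101 : ℕ → ℕ → ℕ → ℕ → Bool := onCell 536870912 536870912 0 536870912 134217728 67108864
    (rowF 0 true false false .npn 1 0 1 (qsf 536870912 536870912 0 536870912 1) ndF1q1 ndF1q0 pcF1 Cut.none Ext.none)

def k0_mm_101 : ∃ t, chk3 f_mm_101 t 1 1 1 = true :=
  ⟨(l 4), by decide +kernel⟩

theorem c_mm_101 : CertF 536870912 536870912 0 536870912 134217728 67108864 true false false .npn 1 0 1
    ndF1q1 ndF1q0 pcF1 Cut.none Ext.none :=
  certF0 (fam := true) (s1 := false) (s2 := false) (a := 1) (b := 0) (c := 1) (cn := .npn) (n1 := ndF1q1) (n2 := ndF1q0) (pc := pcF1) (cut := Cut.none) (xt := Ext.none) (P1 := 536870912) (W1 := 536870912) (P2 := 0) (W2 := 536870912) (P3 := 134217728) (W3 := 67108864)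
    rfl k0_mm_101

noncomputable def f_mm_102 : ℕ → ℕ → ℕ → ℕ → Bool := onCell 536870912 536870912 0 536870912 134217728 67108864
    (rowF 0 true false false .npp 1 0 2 (qsf 536870912 536870912 0 536870912 2) ndF1q1 ndF1q0 pcF2 Cut.none Ext.none)

def k0_mm_102 : ∃ t, chk3 f_mm_102 t 1 1 1 = true :=
  ⟨(l 4), by decide +kernel⟩

theorem c_mm_102 : CertF 536870912 536870912 0 536870912 134217728 67108864 true false false .npp 1 0 2
    ndF1q1 ndF1q0 pcF2 Cut.none Ext.none :=
  certF0 (fam := true) (s1 := false) (s2 := false) (a := 1) (b := 0) (c := 2) (cn := .npp) (n1 := ndF1q1) (n2 := ndF1q0) (pc := pcF2) (cut := Cut.none) (xt := Ext.none) (P1 := 536870912) (W1 := 536870912) (P2 := 0) (W2 := 536870912) (P3 := 134217728) (W3 := 67108864)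
    rfl k0_mm_102

noncomputable def f_mm_112 : ℕ → ℕ → ℕ → ℕ → Bool := onCell 536870912 536870912 536870912 536870912 134217728 67108864
    (rowF 0 true false false .dn 1 1 2 (qsf 536870912 536870912 536870912 536870912 2) ndF1q1 ndF1q1 pcF2 Cut.none Ext.none)

def k0_mm_112 : ∃ t, chk3 f_mm_112 t 1 1 1 = true :=
  ⟨(l 4), by decide +kernel⟩

theorem c_mm_112 : CertF 536870912 536870912 536870912 536870912 134217728 67108864 true false false .dn 1 1 2
    ndF1q1 ndF1q1 pcF2 Cut.none Ext.none :=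
  certF0 (fam := true) (s1 := false) (s2 := false) (a := 1) (b := 1) (c := 2) (cn := .dn) (n1 := ndF1q1) (n2 := ndF1q1) (pc := pcF2) (cut := Cut.none) (xt := Ext.none) (P1 := 536870912) (W1 := 536870912) (P2 := 536870912) (W2 := 536870912) (P3 := 134217728) (W3 := 67108864)
    rfl k0_mm_112

noncomputable def f_mm_113 : ℕ → ℕ → ℕ → ℕ → Bool := onCell 536870912 536870912 536870912 536870912 134217728 67108864
    (rowF 0 true false false .nn 1 1 3 (qsf 536870912 536870912 536870912 536870912 3) ndF1q1 ndF1q1 pcF3 Cut.none Ext.none)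

def k0_mm_113 : ∃ t, chk3 f_mm_113 t 1 1 1 = true :=
  ⟨(l 4), by decide +kernel⟩

theorem c_mm_113 : CertF 536870912 536870912 536870912 536870912 134217728 67108864 true false false .nn 1 1 3
    ndF1q1 ndF1q1 pcF3 Cut.none Ext.none :=
  certF0 (fam := true) (s1 := false) (s2 := false) (a := 1) (b := 1) (c := 3) (cn := .nn) (n1 := ndF1q1) (n2 := ndF1q1) (pc := pcF3) (cut := Cut.none) (xt := Ext.none) (P1 := 536870912) (W1 := 536870912) (P2 := 536870912) (W2 := 536870912) (P3 := 134217728) (W3 := 67108864)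
    rfl k0_mm_113

noncomputable def f_mm_123_a : ℕ → ℕ → ℕ → ℕ → Bool := onCell 536870912 536870912 0 536870912 134217728 67108864
    (rowF 0 true false false .npn 1 2 3 (qsf 536870912 536870912 0 536870912 3) ndF1q1 ndF1q2a pcF3 Cut.none Ext.none)

def k0_mm_123_a : ∃ t, chk3 f_mm_123_a t 1 1 1 = true :=
  ⟨(l 4), by decide +kernel⟩

theorem c_mm_123_a : CertF 536870912 536870912 0 536870912 134217728 67108864 true false false .npn 1 2 3
    ndF1q1 ndF1q2a pcF3 Cut.none Ext.none :=
  certF0 (fam := true) (s1 := false) (s2 := false) (a := 1) (b := 2) (c := 3) (cn := .npn) (n1 := ndF1q1) (n2 := ndF1q2a) (pc := pcF3) (cut := Cut.none) (xt := Ext.none) (P1 := 536870912) (W1 := 536870912) (P2 := 0) (W2 := 536870912) (P3 := 134217728) (W3 := 67108864)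
    rfl k0_mm_123_a

noncomputable def f_mm_123_b : ℕ → ℕ → ℕ → ℕ → Bool := onCell 536870912 536870912 1239849684 370763052 134217728 67108864
    (rowF 0 true false false .npn 1 2 3 (qsf 536870912 536870912 1239849684 370763052 3) ndF1q1 ndF1q2b pcF3 Cut.none Ext.none)

def k0_mm_123_b : ∃ t, chk3 f_mm_123_b t 1 1 1 = true :=
  ⟨(l 4), by decide +kernel⟩

theorem c_mm_123_b : CertF 536870912 536870912 1239849684 370763052 134217728 67108864 true false false .npn 1 2 3
    ndF1q1 ndF1q2b pcF3 Cut.none Ext.none :=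
  certF0 (fam := true) (s1 := false) (s2 := false) (a := 1) (b := 2) (c := 3) (cn := .npn) (n1 := ndF1q1) (n2 := ndF1q2b) (pc := pcF3) (cut := Cut.none) (xt := Ext.none) (P1 := 536870912) (W1 := 536870912) (P2 := 1239849684) (W2 := 370763052) (P3 := 134217728) (W3 := 67108864)
    rfl k0_mm_123_b

noncomputable def f_mm_133 : ℕ → ℕ → ℕ → ℕ → Bool := onCell 536870912 536870912 1610612736 536870912 134217728 67108864
    (rowF 0 true false false .dn 1 3 3 (qsf 536870912 536870912 1610612736 536870912 3) ndF1q1 ndF1q3 pcF3 Cut.none Ext.none)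

def k0_mm_133 : ∃ t, chk3 f_mm_133 t 1 1 1 = true :=
  ⟨(l 4), by decide +kernel⟩

theorem c_mm_133 : CertF 536870912 536870912 1610612736 536870912 134217728 67108864 true false false .dn 1 3 3
    ndF1q1 ndF1q3 pcF3 Cut.none Ext.none :=
  certF0 (fam := true) (s1 := false) (s2 := false) (a := 1) (b := 3) (c := 3) (cn := .dn) (n1 := ndF1q1) (n2 := ndF1q3) (pc := pcF3) (cut := Cut.none) (xt := Ext.none) (P1 := 536870912) (W1 := 536870912) (P2 := 1610612736) (W2 := 536870912) (P3 := 134217728) (W3 := 67108864)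
    rfl k0_mm_133

noncomputable def cut_mm_202_a : Cut := Cut.of [[⟨0, 1, 0, 67108864⟩, ⟨1, 0, 0, 67108864⟩, ⟨2, 1, 0, 67108864⟩]]

noncomputable def f_mm_202_a : ℕ → ℕ → ℕ → ℕ → Bool := onCell 0 536870912 0 536870912 134217728 67108864
    (rowF 0 true false false .pp 2 0 2 (qsf 0 536870912 0 536870912 2) ndF1q2a ndF1q0 pcF2 cut_mm_202_a Ext.none)

def k0_mm_202_a : ∃ t, chk3 f_mm_202_a t 1 1 1 = true :=
  ⟨(b (a (b (b (a (b (b (a (c (l 16866056) (l 16581656)) (c (b (l 16854952) (l 17025184)) (l 16582736))) (a (l 16942248) (l 16868080))) (a (l 17159128) (l 17105640))) (b (a (b (c (a (l 16835416) (l 16664280)) (l 16590448)) (c (l 17023872) (l 16585816))) (b (a (c (l 16606424) (l 16600240)) (c (l 16625176) (l 16609032))) (l 16625024))) (a (l 16851848) (b (l 16729128) (l 16907448))))) (a (b (l 17262288) (l 17293272)) (b (a (l 17166496) (l 17054488)) (l 4)))) (b (a (l 17252904) (l 4)) (l 4))) (b (a (b (b (a (b (a (c (b (l 16625600) (l 16623800)) (l 16640528)) (b (c (l 16647704)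 (l 16632816)) (l 16633384))) (c (l 16648376) (l 16643712))) (b (a (b (c (b (l 16672280) (l 16650448)) (l 16668144)) (c (l 16649232) (l 16645720))) (b (c (b (a (l 16662888) (l 16671376)) (l 16666272)) (b (l 16685112) (l 16663432))) (c (l 16665072) (l 16662408)))) (a (l 16667432) (b (l 16684136) (l 16671008))))) (a (b (l 16672088) (l 16700296)) (b (a (l 16664928) (l 4)) (l 4)))) (l 4)) (b (b (b (a (a (b (c (b (a (l 16680496) (b (l 16690552) (l 16690128))) (l 16705520)) (b (a (l 16678072) (l 16688280)) (l 16682488))) (c (l 16704416) (l 16702576))) (b (b (l 6) (c (a (l 16700256) (l 6)) (l 16725728))) (b (a (l 16698840) (l 6)) (l 16742024)))) (l 6)) (a (a (a (l 16708680) (l 16745472)) (l 4)) (l 4))) (l 4)) (l 4))) (l 4))) (l 4)), by decide +kernel⟩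

theorem c_mm_202_a : CertF 0 536870912 0 536870912 134217728 67108864 true false false .pp 2 0 2
    ndF1q2a ndF1q0 pcF2 cut_mm_202_a Ext.none :=
  certF0 (fam := true) (s1 := false) (s2 := false) (a := 2) (b := 0) (c := 2) (cn := .pp) (n1 := ndF1q2a) (n2 := ndF1q0) (pc := pcF2) (cut := cut_mm_202_a) (xt := Ext.none) (P1 := 0) (W1 := 536870912) (P2 := 0) (W2 := 536870912) (P3 := 134217728) (W3 := 67108864)
    rfl k0_mm_202_a

noncomputable def cut_mm_202_b : Cut := Cut.of [[⟨0, 1, 0, 67108864⟩, ⟨1, 0, 0, 67108864⟩, ⟨2, 1, 0, 67108864⟩]]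

noncomputable def f_mm_202_b : ℕ → ℕ → ℕ → ℕ → Bool := onCell 1239849684 370763052 0 536870912 134217728 67108864
    (rowF 0 true false false .pp 2 0 2 (qsf 1239849684 370763052 0 536870912 2) ndF1q2b ndF1q0 pcF2 cut_mm_202_b Ext.none)

def k0_mm_202_b : ∃ t, chk3 f_mm_202_b t 1 1 1 = true :=
  ⟨(b (a (b (a (b (b (a (b (a (c (b (l 17208440) (l 17294528)) (l 16584016)) (c (l 17552864) (l 16953344))) (c (l 17515096) (l 16981696))) (b (c (l 17882880) (l 17366192)) (l 17675504))) (a (b (l 17346288) (l 17406024)) (l 17706016))) (b (a (l 17446896) (l 17693552)) (a (l 17445504) (l 17646640)))) (b (b (a (c (l 18165696) (l 17757320)) (l 18165016)) (a (l 17935824) (l 18093672))) (a (b (l 17876256) (l 4)) (l 17955408)))) (a (b (a (l 17593840) (l 4)) (l 4)) (l 4))) (b (b (a (b (a (l 18294696) (l 18368152)) (l 18227064)) (a (l 18332816) (l 4))) (l 4)) (l 4))) (l 4)), by decide +kernel⟩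

theorem c_mm_202_b : CertF 1239849684 370763052 0 536870912 134217728 67108864 true false false .pp 2 0 2
    ndF1q2b ndF1q0 pcF2 cut_mm_202_b Ext.none :=
  certF0 (fam := true) (s1 := false) (s2 := false) (a := 2) (b := 0) (c := 2) (cn := .pp) (n1 := ndF1q2b) (n2 := ndF1q0) (pc := pcF2) (cut := cut_mm_202_b) (xt := Ext.none) (P1 := 1239849684) (W1 := 370763052) (P2 := 0) (W2 := 536870912) (P3 := 134217728) (W3 := 67108864)
    rfl k0_mm_202_b

noncomputable def f_mm_203_a : ℕ → ℕ → ℕ → ℕ → Bool := onCell 0 536870912 1610612736 536870912 134217728 67108864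
    (rowF 1 true false false .up 2 0 3 (qsf 0 536870912 0 536870912 3) ndF1q2a ndF1q0 pcF3 Cut.none Ext.none)

def k0_mm_203_a : ∃ t, chk3 f_mm_203_a t 1 1 1 = true :=
  ⟨(l 4), by decide +kernel⟩

theorem c_mm_203_a : CertF 0 536870912 0 536870912 134217728 67108864 true false false .up 2 0 3
    ndF1q2a ndF1q0 pcF3 Cut.none Ext.none :=
  certF1 (fam := true) (s1 := false) (s2 := false) (a := 2) (b := 0) (c := 3) (cn := .up) (n1 := ndF1q2a) (n2 := ndF1q0) (pc := pcF3) (cut := Cut.none) (xt := Ext.none) (P1 := 0) (W1 := 536870912) (P2 := 0) (W2 := 536870912) (P3 := 134217728) (W3 := 67108864)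
    rfl (fun _ => rfl) k0_mm_203_a

noncomputable def f_mm_203_b : ℕ → ℕ → ℕ → ℕ → Bool := onCell 1239849684 370763052 1610612736 536870912 134217728 67108864
    (rowF 1 true false false .up 2 0 3 (qsf 1239849684 370763052 0 536870912 3) ndF1q2b ndF1q0 pcF3 Cut.none Ext.none)

def k0_mm_203_b : ∃ t, chk3 f_mm_203_b t 1 1 1 = true :=
  ⟨(b (l 4) (l 4)), by decide +kernel⟩

theorem c_mm_203_b : CertF 1239849684 370763052 0 536870912 134217728 67108864 true false false .up 2 0 3
    ndF1q2b ndF1q0 pcF3 Cut.none Ext.none :=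
  certF1 (fam := true) (s1 := false) (s2 := false) (a := 2) (b := 0) (c := 3) (cn := .up) (n1 := ndF1q2b) (n2 := ndF1q0) (pc := pcF3) (cut := Cut.none) (xt := Ext.none) (P1 := 1239849684) (W1 := 370763052) (P2 := 0) (W2 := 536870912) (P3 := 134217728) (W3 := 67108864)
    rfl (fun _ => rfl) k0_mm_203_b

noncomputable def f_mm_213_a : ℕ → ℕ → ℕ → ℕ → Bool := onCell 0 536870912 536870912 536870912 134217728 67108864
    (rowF 0 true false false .pnn 2 1 3 (qsf 0 536870912 536870912 536870912 3) ndF1q2a ndF1q1 pcF3 Cut.none Ext.none)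

def k0_mm_213_a : ∃ t, chk3 f_mm_213_a t 1 1 1 = true :=
  ⟨(l 4), by decide +kernel⟩

theorem c_mm_213_a : CertF 0 536870912 536870912 536870912 134217728 67108864 true false false .pnn 2 1 3
    ndF1q2a ndF1q1 pcF3 Cut.none Ext.none :=
  certF0 (fam := true) (s1 := false) (s2 := false) (a := 2) (b := 1) (c := 3) (cn := .pnn) (n1 := ndF1q2a) (n2 := ndF1q1) (pc := pcF3) (cut := Cut.none) (xt := Ext.none) (P1 := 0) (W1 := 536870912) (P2 := 536870912) (W2 := 536870912) (P3 := 134217728) (W3 := 67108864)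
    rfl k0_mm_213_a

noncomputable def f_mm_213_b : ℕ → ℕ → ℕ → ℕ → Bool := onCell 1239849684 370763052 536870912 536870912 134217728 67108864
    (rowF 0 true false false .pnn 2 1 3 (qsf 1239849684 370763052 536870912 536870912 3) ndF1q2b ndF1q1 pcF3 Cut.none Ext.none)

def k0_mm_213_b : ∃ t, chk3 f_mm_213_b t 1 1 1 = true :=
  ⟨(l 4), by decide +kernel⟩

theorem c_mm_213_b : CertF 1239849684 370763052 536870912 536870912 134217728 67108864 true false false .pnn 2 1 3
    ndF1q2b ndF1q1 pcF3 Cut.none Ext.none :=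
  certF0 (fam := true) (s1 := false) (s2 := false) (a := 2) (b := 1) (c := 3) (cn := .pnn) (n1 := ndF1q2b) (n2 := ndF1q1) (pc := pcF3) (cut := Cut.none) (xt := Ext.none) (P1 := 1239849684) (W1 := 370763052) (P2 := 536870912) (W2 := 536870912) (P3 := 134217728) (W3 := 67108864)
    rfl k0_mm_213_b

noncomputable def f_mm_303 : ℕ → ℕ → ℕ → ℕ → Bool := onCell 1610612736 536870912 0 536870912 134217728 67108864
    (rowF 0 true false false .npn 3 0 3 (qsf 1610612736 536870912 0 536870912 3) ndF1q3 ndF1q0 pcF3 Cut.none Ext.none)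

def k0_mm_303 : ∃ t, chk3 f_mm_303 t 1 1 1 = true :=
  ⟨(a (b (l 4) (l 4)) (l 4)), by decide +kernel⟩

theorem c_mm_303 : CertF 1610612736 536870912 0 536870912 134217728 67108864 true false false .npn 3 0 3
    ndF1q3 ndF1q0 pcF3 Cut.none Ext.none :=
  certF0 (fam := true) (s1 := false) (s2 := false) (a := 3) (b := 0) (c := 3) (cn := .npn) (n1 := ndF1q3) (n2 := ndF1q0) (pc := pcF3) (cut := Cut.none) (xt := Ext.none) (P1 := 1610612736) (W1 := 536870912) (P2 := 0) (W2 := 536870912) (P3 := 134217728) (W3 := 67108864)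
    rfl k0_mm_303

noncomputable def f_mm_313 : ℕ → ℕ → ℕ → ℕ → Bool := onCell 1610612736 536870912 536870912 536870912 134217728 67108864
    (rowF 0 true false false .dn 3 1 3 (qsf 1610612736 536870912 536870912 536870912 3) ndF1q3 ndF1q1 pcF3 Cut.none Ext.none)

def k0_mm_313 : ∃ t, chk3 f_mm_313 t 1 1 1 = true :=
  ⟨(l 4), by decide +kernel⟩

theorem c_mm_313 : CertF 1610612736 536870912 536870912 536870912 134217728 67108864 true false false .dn 3 1 3
    ndF1q3 ndF1q1 pcF3 Cut.none Ext.none :=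
  certF0 (fam := true) (s1 := false) (s2 := false) (a := 3) (b := 1) (c := 3) (cn := .dn) (n1 := ndF1q3) (n2 := ndF1q1) (pc := pcF3) (cut := Cut.none) (xt := Ext.none) (P1 := 1610612736) (W1 := 536870912) (P2 := 536870912) (W2 := 536870912) (P3 := 134217728) (W3 := 67108864)
    rfl k0_mm_313

end Pool.Agent.Strip051.G.I1_8_3_16.Tab.C.FA11

namespace Pool.Agent.Strip051.G.I1_8_3_16.Tab.C.FA12

open Pool.Agent.Strip051.PB Pool.Agent.Strip051.PB.T
open Pool.Agent.Strip051.G.I1_8_3_16.Tab

noncomputable def f_pp_001 : ℕ → ℕ → ℕ → ℕ → Bool := onCell 0 536870912 0 536870912 134217728 67108864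
    (rowF 0 true true true .up 0 0 1 (qsf 0 536870912 0 536870912 1) ndF1q0 ndF2q0 pcF1 Cut.none Ext.none)

def k0_pp_001 : ∃ t, chk3 f_pp_001 t 1 1 1 = true :=
  ⟨(l 4), by decide +kernel⟩

theorem c_pp_001 : CertF 0 536870912 0 536870912 134217728 67108864 true true true .up 0 0 1
    ndF1q0 ndF2q0 pcF1 Cut.none Ext.none :=
  certF0 (fam := true) (s1 := true) (s2 := true) (a := 0) (b := 0) (c := 1) (cn := .up) (n1 := ndF1q0) (n2 := ndF2q0) (pc := pcF1) (cut := Cut.none) (xt := Ext.none) (P1 := 0) (W1 := 536870912) (P2 := 0) (W2 := 536870912) (P3 := 134217728) (W3 := 67108864)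
    rfl k0_pp_001

noncomputable def f_pp_011 : ℕ → ℕ → ℕ → ℕ → Bool := onCell 0 536870912 536870912 536870912 134217728 67108864
    (rowF 0 true true true .pnn 0 1 1 (qsf 0 536870912 536870912 536870912 1) ndF1q0 ndF2q1 pcF1 Cut.none Ext.none)

def k0_pp_011 : ∃ t, chk3 f_pp_011 t 1 1 1 = true :=
  ⟨(l 4), by decide +kernel⟩

theorem c_pp_011 : CertF 0 536870912 536870912 536870912 134217728 67108864 true true true .pnn 0 1 1
    ndF1q0 ndF2q1 pcF1 Cut.none Ext.none :=
  certF0 (fam := true) (s1 := true) (s2 := true) (a := 0) (b := 1) (c := 1) (cn := .pnn) (n1 := ndF1q0) (n2 := ndF2q1) (pc := pcF1) (cut := Cut.none) (xt := Ext.none) (P1 := 0) (W1 := 536870912) (P2 := 536870912) (W2 := 536870912) (P3 := 134217728) (W3 := 67108864)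
    rfl k0_pp_011

noncomputable def f_pp_012 : ℕ → ℕ → ℕ → ℕ → Bool := onCell 0 536870912 536870912 536870912 134217728 67108864
    (rowF 0 true true true .pnp 0 1 2 (qsf 0 536870912 536870912 536870912 2) ndF1q0 ndF2q1 pcF2 Cut.none Ext.none)

def k0_pp_012 : ∃ t, chk3 f_pp_012 t 1 1 1 = true :=
  ⟨(l 4), by decide +kernel⟩

theorem c_pp_012 : CertF 0 536870912 536870912 536870912 134217728 67108864 true true true .pnp 0 1 2
    ndF1q0 ndF2q1 pcF2 Cut.none Ext.none :=
  certF0 (fam := true) (s1 := true) (s2 := true) (a := 0) (b := 1) (c := 2) (cn := .pnp) (n1 := ndF1q0) (n2 := ndF2q1) (pc := pcF2) (cut := Cut.none) (xt := Ext.none) (P1 := 0) (W1 := 536870912) (P2 := 536870912) (W2 := 536870912) (P3 := 134217728) (W3 := 67108864)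
    rfl k0_pp_012

noncomputable def cut_pp_022_a : Cut := Cut.of [[⟨0, 0, 0, 67108864⟩, ⟨1, 1, 0, 67108864⟩, ⟨2, 1, 0, 67108864⟩]]

noncomputable def f_pp_022_a : ℕ → ℕ → ℕ → ℕ → Bool := onCell 0 536870912 0 536870912 134217728 67108864
    (rowF 0 true true true .pp 0 2 2 (qsf 0 536870912 0 536870912 2) ndF1q0 ndF2q2a pcF2 cut_pp_022_a Ext.none)

def k0_pp_022_a : ∃ t, chk3 f_pp_022_a t 1 1 1 = true :=
  ⟨(a (b (l 4) (a (b (l 4) (a (b (l 4) (a (b (l 4) (l 6)) (l 4))) (l 4))) (l 4))) (l 4)), by decide +kernel⟩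

theorem c_pp_022_a : CertF 0 536870912 0 536870912 134217728 67108864 true true true .pp 0 2 2
    ndF1q0 ndF2q2a pcF2 cut_pp_022_a Ext.none :=
  certF0 (fam := true) (s1 := true) (s2 := true) (a := 0) (b := 2) (c := 2) (cn := .pp) (n1 := ndF1q0) (n2 := ndF2q2a) (pc := pcF2) (cut := cut_pp_022_a) (xt := Ext.none) (P1 := 0) (W1 := 536870912) (P2 := 0) (W2 := 536870912) (P3 := 134217728) (W3 := 67108864)
    rfl k0_pp_022_a

noncomputable def cut_pp_022_b : Cut := Cut.of [[⟨0, 0, 0, 67108864⟩, ⟨1, 1, 0, 67108864⟩, ⟨2, 1, 0, 67108864⟩]]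

noncomputable def f_pp_022_b : ℕ → ℕ → ℕ → ℕ → Bool := onCell 0 536870912 1239849684 370763052 134217728 67108864
    (rowF 0 true true true .pp 0 2 2 (qsf 0 536870912 1239849684 370763052 2) ndF1q0 ndF2q2b pcF2 cut_pp_022_b Ext.none)

def k0_pp_022_b : ∃ t, chk3 f_pp_022_b t 1 1 1 = true :=
  ⟨(a (b (l 4) (l 4)) (l 4)), by decide +kernel⟩

theorem c_pp_022_b : CertF 0 536870912 1239849684 370763052 134217728 67108864 true true true .pp 0 2 2
    ndF1q0 ndF2q2b pcF2 cut_pp_022_b Ext.none :=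
  certF0 (fam := true) (s1 := true) (s2 := true) (a := 0) (b := 2) (c := 2) (cn := .pp) (n1 := ndF1q0) (n2 := ndF2q2b) (pc := pcF2) (cut := cut_pp_022_b) (xt := Ext.none) (P1 := 0) (W1 := 536870912) (P2 := 1239849684) (W2 := 370763052) (P3 := 134217728) (W3 := 67108864)
    rfl k0_pp_022_b

noncomputable def f_pp_023_a : ℕ → ℕ → ℕ → ℕ → Bool := onCell 1610612736 536870912 0 536870912 134217728 67108864
    (rowF 2 true true true .up 0 2 3 (qsf 0 536870912 0 536870912 3) ndF1q0 ndF2q2a pcF3 Cut.none Ext.none)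

def k0_pp_023_a : ∃ t, chk3 f_pp_023_a t 1 1 1 = true :=
  ⟨(l 4), by decide +kernel⟩

theorem c_pp_023_a : CertF 0 536870912 0 536870912 134217728 67108864 true true true .up 0 2 3
    ndF1q0 ndF2q2a pcF3 Cut.none Ext.none :=
  certF2 (fam := true) (s1 := true) (s2 := true) (a := 0) (b := 2) (c := 3) (cn := .up) (n1 := ndF1q0) (n2 := ndF2q2a) (pc := pcF3) (cut := Cut.none) (xt := Ext.none) (P1 := 0) (W1 := 536870912) (P2 := 0) (W2 := 536870912) (P3 := 134217728) (W3 := 67108864)
    rfl (fun _ => rfl) k0_pp_023_a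

noncomputable def f_pp_023_b : ℕ → ℕ → ℕ → ℕ → Bool := onCell 1610612736 536870912 1239849684 370763052 134217728 67108864
    (rowF 2 true true true .up 0 2 3 (qsf 0 536870912 1239849684 370763052 3) ndF1q0 ndF2q2b pcF3 Cut.none Ext.none)

def k0_pp_023_b : ∃ t, chk3 f_pp_023_b t 1 1 1 = true :=
  ⟨(l 4), by decide +kernel⟩

theorem c_pp_023_b : CertF 0 536870912 1239849684 370763052 134217728 67108864 true true true .up 0 2 3
    ndF1q0 ndF2q2b pcF3 Cut.none Ext.none :=
  certF2 (fam := true) (s1 := true) (s2 := true) (a := 0) (b := 2) (c := 3) (cn := .up) (n1 := ndF1q0) (n2 := ndF2q2b) (pc := pcF3) (cut := Cut.none) (xt := Ext.none) (P1 := 0) (W1 := 536870912) (P2 := 1239849684) (W2 := 370763052) (P3 := 134217728) (W3 := 67108864)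
    rfl (fun _ => rfl) k0_pp_023_b

noncomputable def f_pp_033 : ℕ → ℕ → ℕ → ℕ → Bool := onCell 0 536870912 1610612736 536870912 134217728 67108864
    (rowF 0 true true true .pnn 0 3 3 (qsf 0 536870912 1610612736 536870912 3) ndF1q0 ndF2q3 pcF3 Cut.none Ext.none)

def k0_pp_033 : ∃ t, chk3 f_pp_033 t 1 1 1 = true :=
  ⟨(l 4), by decide +kernel⟩

theorem c_pp_033 : CertF 0 536870912 1610612736 536870912 134217728 67108864 true true true .pnn 0 3 3
    ndF1q0 ndF2q3 pcF3 Cut.none Ext.none :=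
  certF0 (fam := true) (s1 := true) (s2 := true) (a := 0) (b := 3) (c := 3) (cn := .pnn) (n1 := ndF1q0) (n2 := ndF2q3) (pc := pcF3) (cut := Cut.none) (xt := Ext.none) (P1 := 0) (W1 := 536870912) (P2 := 1610612736) (W2 := 536870912) (P3 := 134217728) (W3 := 67108864)
    rfl k0_pp_033

noncomputable def f_pp_101 : ℕ → ℕ → ℕ → ℕ → Bool := onCell 536870912 536870912 0 536870912 134217728 67108864
    (rowF 0 true true true .npn 1 0 1 (qsf 536870912 536870912 0 536870912 1) ndF1q1 ndF2q0 pcF1 Cut.none Ext.none)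

def k0_pp_101 : ∃ t, chk3 f_pp_101 t 1 1 1 = true :=
  ⟨(l 4), by decide +kernel⟩

theorem c_pp_101 : CertF 536870912 536870912 0 536870912 134217728 67108864 true true true .npn 1 0 1
    ndF1q1 ndF2q0 pcF1 Cut.none Ext.none :=
  certF0 (fam := true) (s1 := true) (s2 := true) (a := 1) (b := 0) (c := 1) (cn := .npn) (n1 := ndF1q1) (n2 := ndF2q0) (pc := pcF1) (cut := Cut.none) (xt := Ext.none) (P1 := 536870912) (W1 := 536870912) (P2 := 0) (W2 := 536870912) (P3 := 134217728) (W3 := 67108864)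
    rfl k0_pp_101

noncomputable def f_pp_102 : ℕ → ℕ → ℕ → ℕ → Bool := onCell 536870912 536870912 0 536870912 134217728 67108864
    (rowF 0 true true true .npp 1 0 2 (qsf 536870912 536870912 0 536870912 2) ndF1q1 ndF2q0 pcF2 Cut.none Ext.none)

def k0_pp_102 : ∃ t, chk3 f_pp_102 t 1 1 1 = true :=
  ⟨(l 4), by decide +kernel⟩

theorem c_pp_102 : CertF 536870912 536870912 0 536870912 134217728 67108864 true true true .npp 1 0 2
    ndF1q1 ndF2q0 pcF2 Cut.none Ext.none :=
  certF0 (fam := true) (s1 := true) (s2 := true) (a := 1) (b := 0) (c := 2) (cn := .npp) (n1 := ndF1q1) (n2 := ndF2q0) (pc := pcF2) (cut := Cut.none) (xt := Ext.none) (P1 := 536870912) (W1 := 536870912) (P2 := 0) (W2 := 536870912) (P3 := 134217728) (W3 := 67108864)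
    rfl k0_pp_102

noncomputable def f_pp_112 : ℕ → ℕ → ℕ → ℕ → Bool := onCell 536870912 536870912 536870912 536870912 134217728 67108864
    (rowF 0 true true true .dn 1 1 2 (qsf 536870912 536870912 536870912 536870912 2) ndF1q1 ndF2q1 pcF2 Cut.none Ext.none)

def k0_pp_112 : ∃ t, chk3 f_pp_112 t 1 1 1 = true :=
  ⟨(l 4), by decide +kernel⟩

theorem c_pp_112 : CertF 536870912 536870912 536870912 536870912 134217728 67108864 true true true .dn 1 1 2
    ndF1q1 ndF2q1 pcF2 Cut.none Ext.none :=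
  certF0 (fam := true) (s1 := true) (s2 := true) (a := 1) (b := 1) (c := 2) (cn := .dn) (n1 := ndF1q1) (n2 := ndF2q1) (pc := pcF2) (cut := Cut.none) (xt := Ext.none) (P1 := 536870912) (W1 := 536870912) (P2 := 536870912) (W2 := 536870912) (P3 := 134217728) (W3 := 67108864)
    rfl k0_pp_112

noncomputable def f_pp_113 : ℕ → ℕ → ℕ → ℕ → Bool := onCell 536870912 536870912 536870912 536870912 134217728 67108864
    (rowF 0 true true true .nn 1 1 3 (qsf 536870912 536870912 536870912 536870912 3) ndF1q1 ndF2q1 pcF3 Cut.none Ext.none)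

def k0_pp_113 : ∃ t, chk3 f_pp_113 t 1 1 1 = true :=
  ⟨(l 4), by decide +kernel⟩

theorem c_pp_113 : CertF 536870912 536870912 536870912 536870912 134217728 67108864 true true true .nn 1 1 3
    ndF1q1 ndF2q1 pcF3 Cut.none Ext.none :=
  certF0 (fam := true) (s1 := true) (s2 := true) (a := 1) (b := 1) (c := 3) (cn := .nn) (n1 := ndF1q1) (n2 := ndF2q1) (pc := pcF3) (cut := Cut.none) (xt := Ext.none) (P1 := 536870912) (W1 := 536870912) (P2 := 536870912) (W2 := 536870912) (P3 := 134217728) (W3 := 67108864)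
    rfl k0_pp_113

noncomputable def f_pp_123_a : ℕ → ℕ → ℕ → ℕ → Bool := onCell 536870912 536870912 0 536870912 134217728 67108864
    (rowF 0 true true true .npn 1 2 3 (qsf 536870912 536870912 0 536870912 3) ndF1q1 ndF2q2a pcF3 Cut.none Ext.none)

def k0_pp_123_a : ∃ t, chk3 f_pp_123_a t 1 1 1 = true :=
  ⟨(l 4), by decide +kernel⟩

theorem c_pp_123_a : CertF 536870912 536870912 0 536870912 134217728 67108864 true true true .npn 1 2 3
    ndF1q1 ndF2q2a pcF3 Cut.none Ext.none :=
  certF0 (fam := true) (s1 := true) (s2 := true) (a := 1) (b := 2) (c := 3) (cn := .npn) (n1 := ndF1q1) (n2 := ndF2q2a) (pc := pcF3) (cut := Cut.none) (xt := Ext.none) (P1 := 536870912) (W1 := 536870912) (P2 := 0) (W2 := 536870912) (P3 := 134217728) (W3 := 67108864)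
    rfl k0_pp_123_a

noncomputable def f_pp_123_b : ℕ → ℕ → ℕ → ℕ → Bool := onCell 536870912 536870912 1239849684 370763052 134217728 67108864
    (rowF 0 true true true .npn 1 2 3 (qsf 536870912 536870912 1239849684 370763052 3) ndF1q1 ndF2q2b pcF3 Cut.none Ext.none)

def k0_pp_123_b : ∃ t, chk3 f_pp_123_b t 1 1 1 = true :=
  ⟨(l 4), by decide +kernel⟩

theorem c_pp_123_b : CertF 536870912 536870912 1239849684 370763052 134217728 67108864 true true true .npn 1 2 3
    ndF1q1 ndF2q2b pcF3 Cut.none Ext.none :=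
  certF0 (fam := true) (s1 := true) (s2 := true) (a := 1) (b := 2) (c := 3) (cn := .npn) (n1 := ndF1q1) (n2 := ndF2q2b) (pc := pcF3) (cut := Cut.none) (xt := Ext.none) (P1 := 536870912) (W1 := 536870912) (P2 := 1239849684) (W2 := 370763052) (P3 := 134217728) (W3 := 67108864)
    rfl k0_pp_123_b

noncomputable def f_pp_133 : ℕ → ℕ → ℕ → ℕ → Bool := onCell 536870912 536870912 1610612736 536870912 134217728 67108864
    (rowF 0 true true true .dn 1 3 3 (qsf 536870912 536870912 1610612736 536870912 3) ndF1q1 ndF2q3 pcF3 Cut.none Ext.none)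

def k0_pp_133 : ∃ t, chk3 f_pp_133 t 1 1 1 = true :=
  ⟨(l 4), by decide +kernel⟩

theorem c_pp_133 : CertF 536870912 536870912 1610612736 536870912 134217728 67108864 true true true .dn 1 3 3
    ndF1q1 ndF2q3 pcF3 Cut.none Ext.none :=
  certF0 (fam := true) (s1 := true) (s2 := true) (a := 1) (b := 3) (c := 3) (cn := .dn) (n1 := ndF1q1) (n2 := ndF2q3) (pc := pcF3) (cut := Cut.none) (xt := Ext.none) (P1 := 536870912) (W1 := 536870912) (P2 := 1610612736) (W2 := 536870912) (P3 := 134217728) (W3 := 67108864)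
    rfl k0_pp_133

noncomputable def f_pp_202_a : ℕ → ℕ → ℕ → ℕ → Bool := onCell 0 536870912 0 536870912 134217728 67108864
    (rowF 0 true true true .pp 2 0 2 (qsf 0 536870912 0 536870912 2) ndF1q2a ndF2q0 pcF2 Cut.none Ext.none)

def k0_pp_202_a : ∃ t, chk3 f_pp_202_a t 1 1 1 = true :=
  ⟨(l 5), by decide +kernel⟩

theorem c_pp_202_a : CertF 0 536870912 0 536870912 134217728 67108864 true true true .pp 2 0 2
    ndF1q2a ndF2q0 pcF2 Cut.none Ext.none :=
  certF0 (fam := true) (s1 := true) (s2 := true) (a := 2) (b := 0) (c := 2) (cn := .pp) (n1 := ndF1q2a) (n2 := ndF2q0) (pc := pcF2) (cut := Cut.none) (xt := Ext.none) (P1 := 0) (W1 := 536870912) (P2 := 0) (W2 := 536870912) (P3 := 134217728) (W3 := 67108864)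
    rfl k0_pp_202_a

noncomputable def f_pp_202_b : ℕ → ℕ → ℕ → ℕ → Bool := onCell 1239849684 370763052 0 536870912 134217728 67108864
    (rowF 0 true true true .pp 2 0 2 (qsf 1239849684 370763052 0 536870912 2) ndF1q2b ndF2q0 pcF2 Cut.none Ext.none)

def k0_pp_202_b : ∃ t, chk3 f_pp_202_b t 1 1 1 = true :=
  ⟨(l 5), by decide +kernel⟩

theorem c_pp_202_b : CertF 1239849684 370763052 0 536870912 134217728 67108864 true true true .pp 2 0 2
    ndF1q2b ndF2q0 pcF2 Cut.none Ext.none :=
  certF0 (fam := true) (s1 := true) (s2 := true) (a := 2) (b := 0) (c := 2) (cn := .pp) (n1 := ndF1q2b) (n2 := ndF2q0) (pc := pcF2) (cut := Cut.none) (xt := Ext.none) (P1 := 1239849684) (W1 := 370763052) (P2 := 0) (W2 := 536870912) (P3 := 134217728) (W3 := 67108864)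
    rfl k0_pp_202_b

noncomputable def f_pp_203_a : ℕ → ℕ → ℕ → ℕ → Bool := onCell 0 536870912 0 536870912 134217728 67108864
    (rowF 0 true true true .up 2 0 3 (qsf 0 536870912 0 536870912 3) ndF1q2a ndF2q0 pcF3 Cut.none Ext.none)

def k0_pp_203_a : ∃ t, chk3 f_pp_203_a t 1 1 1 = true :=
  ⟨(l 5), by decide +kernel⟩

theorem c_pp_203_a : CertF 0 536870912 0 536870912 134217728 67108864 true true true .up 2 0 3
    ndF1q2a ndF2q0 pcF3 Cut.none Ext.none :=
  certF0 (fam := true) (s1 := true) (s2 := true) (a := 2) (b := 0) (c := 3) (cn := .up) (n1 := ndF1q2a) (n2 := ndF2q0) (pc := pcF3) (cut := Cut.none) (xt := Ext.none) (P1 := 0) (W1 := 536870912) (P2 := 0) (W2 := 536870912) (P3 := 134217728) (W3 := 67108864)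
    rfl k0_pp_203_a

noncomputable def f_pp_203_b : ℕ → ℕ → ℕ → ℕ → Bool := onCell 1239849684 370763052 0 536870912 134217728 67108864
    (rowF 0 true true true .up 2 0 3 (qsf 1239849684 370763052 0 536870912 3) ndF1q2b ndF2q0 pcF3 Cut.none Ext.none)

def k0_pp_203_b : ∃ t, chk3 f_pp_203_b t 1 1 1 = true :=
  ⟨(l 5), by decide +kernel⟩

theorem c_pp_203_b : CertF 1239849684 370763052 0 536870912 134217728 67108864 true true true .up 2 0 3
    ndF1q2b ndF2q0 pcF3 Cut.none Ext.none :=
  certF0 (fam := true) (s1 := true) (s2 := true) (a := 2) (b := 0) (c := 3) (cn := .up) (n1 := ndF1q2b) (n2 := ndF2q0) (pc := pcF3) (cut := Cut.none) (xt := Ext.none) (P1 := 1239849684) (W1 := 370763052) (P2 := 0) (W2 := 536870912) (P3 := 134217728) (W3 := 67108864)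
    rfl k0_pp_203_b

noncomputable def f_pp_213_a : ℕ → ℕ → ℕ → ℕ → Bool := onCell 0 536870912 536870912 536870912 134217728 67108864
    (rowF 0 true true true .pnn 2 1 3 (qsf 0 536870912 536870912 536870912 3) ndF1q2a ndF2q1 pcF3 Cut.none Ext.none)

def k0_pp_213_a : ∃ t, chk3 f_pp_213_a t 1 1 1 = true :=
  ⟨(l 4), by decide +kernel⟩

theorem c_pp_213_a : CertF 0 536870912 536870912 536870912 134217728 67108864 true true true .pnn 2 1 3
    ndF1q2a ndF2q1 pcF3 Cut.none Ext.none :=
  certF0 (fam := true) (s1 := true) (s2 := true) (a := 2) (b := 1) (c := 3) (cn := .pnn) (n1 := ndF1q2a) (n2 := ndF2q1) (pc := pcF3) (cut := Cut.none) (xt := Ext.none) (P1 := 0) (W1 := 536870912) (P2 := 536870912) (W2 := 536870912) (P3 := 134217728) (W3 := 67108864)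
    rfl k0_pp_213_a

noncomputable def f_pp_213_b : ℕ → ℕ → ℕ → ℕ → Bool := onCell 1239849684 370763052 536870912 536870912 134217728 67108864
    (rowF 0 true true true .pnn 2 1 3 (qsf 1239849684 370763052 536870912 536870912 3) ndF1q2b ndF2q1 pcF3 Cut.none Ext.none)

def k0_pp_213_b : ∃ t, chk3 f_pp_213_b t 1 1 1 = true :=
  ⟨(l 4), by decide +kernel⟩

theorem c_pp_213_b : CertF 1239849684 370763052 536870912 536870912 134217728 67108864 true true true .pnn 2 1 3
    ndF1q2b ndF2q1 pcF3 Cut.none Ext.none :=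
  certF0 (fam := true) (s1 := true) (s2 := true) (a := 2) (b := 1) (c := 3) (cn := .pnn) (n1 := ndF1q2b) (n2 := ndF2q1) (pc := pcF3) (cut := Cut.none) (xt := Ext.none) (P1 := 1239849684) (W1 := 370763052) (P2 := 536870912) (W2 := 536870912) (P3 := 134217728) (W3 := 67108864)
    rfl k0_pp_213_b

noncomputable def f_pp_303 : ℕ → ℕ → ℕ → ℕ → Bool := onCell 1610612736 536870912 0 536870912 134217728 67108864
    (rowF 0 true true true .npn 3 0 3 (qsf 1610612736 536870912 0 536870912 3) ndF1q3 ndF2q0 pcF3 Cut.none Ext.none)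

def k0_pp_303 : ∃ t, chk3 f_pp_303 t 1 1 1 = true :=
  ⟨(l 5), by decide +kernel⟩

theorem c_pp_303 : CertF 1610612736 536870912 0 536870912 134217728 67108864 true true true .npn 3 0 3
    ndF1q3 ndF2q0 pcF3 Cut.none Ext.none :=
  certF0 (fam := true) (s1 := true) (s2 := true) (a := 3) (b := 0) (c := 3) (cn := .npn) (n1 := ndF1q3) (n2 := ndF2q0) (pc := pcF3) (cut := Cut.none) (xt := Ext.none) (P1 := 1610612736) (W1 := 536870912) (P2 := 0) (W2 := 536870912) (P3 := 134217728) (W3 := 67108864)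
    rfl k0_pp_303

noncomputable def f_pp_313 : ℕ → ℕ → ℕ → ℕ → Bool := onCell 1610612736 536870912 536870912 536870912 134217728 67108864
    (rowF 0 true true true .dn 3 1 3 (qsf 1610612736 536870912 536870912 536870912 3) ndF1q3 ndF2q1 pcF3 Cut.none Ext.none)

def k0_pp_313 : ∃ t, chk3 f_pp_313 t 1 1 1 = true :=
  ⟨(l 4), by decide +kernel⟩

theorem c_pp_313 : CertF 1610612736 536870912 536870912 536870912 134217728 67108864 true true true .dn 3 1 3
    ndF1q3 ndF2q1 pcF3 Cut.none Ext.none :=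
  certF0 (fam := true) (s1 := true) (s2 := true) (a := 3) (b := 1) (c := 3) (cn := .dn) (n1 := ndF1q3) (n2 := ndF2q1) (pc := pcF3) (cut := Cut.none) (xt := Ext.none) (P1 := 1610612736) (W1 := 536870912) (P2 := 536870912) (W2 := 536870912) (P3 := 134217728) (W3 := 67108864)
    rfl k0_pp_313

noncomputable def f_pm_001 : ℕ → ℕ → ℕ → ℕ → Bool := onCell 0 536870912 0 536870912 134217728 67108864
    (rowF 0 true true false .up 0 0 1 (qsf 0 536870912 0 536870912 1) ndF1q0 ndF2q0 pcF1 Cut.none Ext.none)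

def k0_pm_001 : ∃ t, chk3 f_pm_001 t 1 1 1 = true :=
  ⟨(l 3), by decide +kernel⟩

theorem c_pm_001 : CertF 0 536870912 0 536870912 134217728 67108864 true true false .up 0 0 1
    ndF1q0 ndF2q0 pcF1 Cut.none Ext.none :=
  certF0 (fam := true) (s1 := true) (s2 := false) (a := 0) (b := 0) (c := 1) (cn := .up) (n1 := ndF1q0) (n2 := ndF2q0) (pc := pcF1) (cut := Cut.none) (xt := Ext.none) (P1 := 0) (W1 := 536870912) (P2 := 0) (W2 := 536870912) (P3 := 134217728) (W3 := 67108864)
    rfl k0_pm_001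

noncomputable def f_pm_011 : ℕ → ℕ → ℕ → ℕ → Bool := onCell 0 536870912 536870912 536870912 134217728 67108864
    (rowF 1 true true false .pnn 0 1 1 (qsf 0 536870912 536870912 536870912 1) ndF1q0 ndF2q1 pcF1 Cut.none Ext.none)

def k0_pm_011 : ∃ t, chk3 f_pm_011 t 1 1 1 = true :=
  ⟨(b (l 3) (b (l 3) (l 3))), by decide +kernel⟩

theorem c_pm_011 : CertF 0 536870912 536870912 536870912 134217728 67108864 true true false .pnn 0 1 1
    ndF1q0 ndF2q1 pcF1 Cut.none Ext.none :=
  certF1 (fam := true) (s1 := true) (s2 := false) (a := 0) (b := 1) (c := 1) (cn := .pnn) (n1 := ndF1q0) (n2 := ndF2q1) (pc := pcF1) (cut := Cut.none) (xt := Ext.none) (P1 := 0) (W1 := 536870912) (P2 := 536870912) (W2 := 536870912) (P3 := 134217728) (W3 := 67108864)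
    rfl (fun _ => rfl) k0_pm_011

noncomputable def f_pm_012 : ℕ → ℕ → ℕ → ℕ → Bool := onCell 1073741824 536870912 536870912 536870912 134217728 67108864
    (rowF 2 true true false .pnp 0 1 2 (qsf 0 536870912 536870912 536870912 2) ndF1q0 ndF2q1 pcF2 Cut.none Ext.none)

def k0_pm_012 : ∃ t, chk3 f_pm_012 t 1 1 1 = true :=
  ⟨(a (a (b (a (l 3) (a (l 3) (b (l 17337360) (l 17510840)))) (a (b (l 3) (l 3)) (b (a (l 3) (b (l 17591040) (l 17538264))) (b (a (l 16784760) (a (l 17117344) (l 17303312))) (a (b (l 16703448) (a (l 3) (l 16537816))) (a (b (l 16517288) (l 16491496)) (l 16476936))))))) (b (a (a (a (l 17450328) (a (l 17490000) (b (l 2) (a (l 17604392) (l 17612632))))) (l 17558384)) (l 17629344)) (a (b (a (a (l 17692640) (a (l 17741760) (a (l 17765880) (l 17780600)))) (l 17849080)) (b (a (a (l 17472088) (a (l 17587864) (a (l 17642176) (l 17676280)))) (l 17822448)) (a (a (l 16505864) (a (l 16911552) (b (l 17305792) (l 16765128)))) (b (l 17591144) (l 17222024))))) (b (l 18005112)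 (b (l 18131584) (b (l 18091088) (l 17965856))))))) (b (b (l 2) (l 17882608)) (b (l 18268128) (a (b (l 18490712) (l 18656312)) (l 18789744))))), by decide +kernel⟩

theorem c_pm_012 : CertF 0 536870912 536870912 536870912 134217728 67108864 true true false .pnp 0 1 2
    ndF1q0 ndF2q1 pcF2 Cut.none Ext.none :=
  certF2 (fam := true) (s1 := true) (s2 := false) (a := 0) (b := 1) (c := 2) (cn := .pnp) (n1 := ndF1q0) (n2 := ndF2q1) (pc := pcF2) (cut := Cut.none) (xt := Ext.none) (P1 := 0) (W1 := 536870912) (P2 := 536870912) (W2 := 536870912) (P3 := 134217728) (W3 := 67108864)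
    rfl (fun _ => rfl) k0_pm_012

end Pool.Agent.Strip051.G.I1_8_3_16.Tab.C.FA12

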