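import Pool.Agent.Strip051.G.I1_8_3_16.Tab

/-! # Certificates F4 (generated) -/

set_option linter.all false
set_option maxRecDepth 100000

namespace Pool.Agent.Strip051.G.I1_8_3_16.Tab.C.FA12

open Pool.Agent.Strip051.PB Pool.Agent.Strip051.PB.T
open Pool.Agent.Strip051.G.I1_8_3_16.Tab

noncomputable def cut_pm_022_a : Cut := Cut.of [[⟨0, 0, 0, 67108864⟩, ⟨1, 1, 0, 67108864⟩, ⟨2, 1, 0, 67108864⟩]]

noncomputable def f_pm_022_a : ℕ → ℕ → ℕ → ℕ → Bool := onCell 0 536870912 0 536870912 134217728 67108864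
    (rowF 0 true true false .pp 0 2 2 (qsf 0 536870912 0 536870912 2) ndF1q0 ndF2q2a pcF2 cut_pm_022_a Ext.none)

def k0_pm_022_a : ∃ t, chk3 f_pm_022_a t 128 16 2 = true :=
  ⟨(c (a (a (c (l 17224664) (b (l 17026048) (a (b (a (a (l 17014200) (l 17016448)) (l 17019864)) (a (l 17010824) (c (l 17065968) (l 16964616)))) (l 17024368)))) (l 17140776)) (l 17166136)) (a (a (b (a (a (b (c (l 16817240) (l 16593224)) (a (a (b (c (c (l 16865072) (l 16763504)) (l 16548104)) (l 16606624)) (c (c (l 16865664) (l 16764144)) (l 16548800))) (c (l 16816776) (l 16613752)))) (l 16678072)) (l 16727928)) (a (b (c (a (a (l 16811056) (a (b (c (l 16864680) (l 16763152)) (l 16811976)) (b (l 16815160) (b (l 16792720) (l 16812648))))) (l 16817304)) (a (a (l 16607592) (a (b (l 16547800) (l 16608640)) (l 16558568))) (l 16551520))) (c (a (l 16807496) (a (a (l 16810544) (b (b (l 16813856) (l 16812576)) (l 16810496))) (b (l 16815096) (b (c (l 16863744) (l 16762280)) (l 16811536))))) (a (l 16603864) (a (a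 (l 16607208) (b (l 16557656) (l 16607192))) (l 16560832))))) (c (l 16822344) (l 16557112)))) (l 16655952)) (l 16770592))), by decide +kernel⟩

def k1_pm_022_a : ∃ t, chk3 f_pm_022_a t 128 16 3 = true :=
  ⟨(a (c (a (b (a (a (b (l 16554120) (c (c (l 16559248) (l 16557592)) (c (l 16555952) (l 16554328)))) (l 16545928)) (l 16545512)) (a (b (c (a (a (l 16548112) (a (b (l 16547912) (l 16548056)) (l 16558360))) (l 16547688)) (a (a (l 16544840) (a (b (l 16544656) (l 16544792)) (l 16555104))) (l 16544432))) (a (l 16546624) (a (a (l 16546344) (b (b (l 16551400) (l 16546232)) (l 16546392))) (c (l 16558256) (l 16555016))))) (b (l 16545568) (l 16556248)))) (l 16544760)) (a (b (a (a (b (l 16539784) (c (c (l 16552712) (l 16551112)) (c (l 16549536) (l 16547960)))) (l 16539488)) (l 16539032)) (a (b (a (a (l 16540048) (a (b (c (l 16541456) (l 16538312)) (l 16540000)) (c (l 16551912) (l 16548768)))) (l 16550136)) (a (l 16540208) (a (a (l 16539968) (b (b (l 16539800) (l 16539872)) (l 16540008)))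 (c (l 16551832) (l 16548704))))) (l 16549784))) (l 16538256))) (c (l 16543120) (l 16536448))), by decide +kernel⟩

def k2_pm_022_a : ∃ t, chk3 f_pm_022_a t 128 17 2 = true :=
  ⟨(c (a (b (a (a (c (l 17206440) (l 17002992)) (c (l 17214720) (b (c (l 17066680) (l 16965480)) (a (l 17006328) (b (l 17012840) (l 17008800)))))) (c (l 17227080) (l 17025968))) (b (a (l 17075832) (c (l 17215112) (a (a (l 17006280) (l 17010808)) (l 17017696)))) (a (l 17086496) (a (l 17099664) (b (c (l 17211920) (l 17009936)) (l 17105504)))))) (b (l 17152080) (l 17134952))) (a (b (a (a (b (c (l 16803496) (l 16557752)) (l 16567584)) (b (c (a (a (b (b (c (l 16863112) (l 16761672)) (l 16810752)) (l 16808056)) (b (l 16814048) (a (l 16809880) (b (l 16811992) (l 16810200))))) (l 16774080)) (a (a (b (l 16556032) (l 16604744)) (l 16562088)) (l 16550488))) (a (l 16659344) (a (l 16558328) (b (a (b (l 16553160) (l 16708376)) (l 16558632)) (l 16705592)))))) (b (l 16727824) (a (b (l 16548856) (a (a (b (l 16562480)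 (l 16707016)) (l 16553440)) (l 16693680))) (l 16724760)))) (a (a (l 16559336) (l 16556832)) (b (a (a (l 16596896) (b (a (l 16564192) (l 16553720)) (l 16704344))) (l 16557640)) (a (l 16692864) (a (l 16616736) (b (l 16562240) (l 16702872))))))) (b (l 16754712) (l 16567520)))), by decide +kernel⟩

def k3_pm_022_a : ∃ t, chk3 f_pm_022_a t 128 17 3 = true :=
  ⟨(a (a (b (c (a (b (c (l 16548320) (l 16545072)) (l 16547184)) (a (a (b (b (c (l 16558256) (l 16555032)) (l 16546416)) (l 16546752)) (b (b (l 16556472) (c (l 16558232) (l 16555024))) (l 16546536))) (b (l 16556336) (a (l 16546264) (b (c (l 16547592) (l 16544392)) (l 16546280)))))) (a (b (l 16550792) (l 16540792)) (a (a (b (b (c (l 16551872) (l 16548760)) (l 16540056)) (l 16540384)) (b (b (l 16539672) (c (l 16551864) (l 16554008))) (l 16540192))) (b (l 16550000) (a (l 16539952) (b (l 16550184) (l 16539968))))))) (c (b (l 16552432) (l 16547816)) (b (l 16540856) (l 16541496)))) (c (b (c (l 16557424) (l 16559424)) (b (a (a (l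 16546288) (b (l 16556304) (l 16546072))) (l 16555976)) (a (l 16546744) (b (c (l 16557880) (l 16565200)) (l 16546080))))) (b (c (l 16556232) (l 16553096)) (b (a (a (l 16540008) (b (l 16550056) (l 16539824))) (l 16549712)) (a (l 16540464) (b (c (l 16562088) (l 16559032)) (l 16539864))))))) (b (l 16540272) (c (l 16554800) (l 16558928)))), by decide +kernel⟩

def k4_pm_022_a : ∃ t, chk3 f_pm_022_a t 129 8 1 = true :=
  ⟨(c (c (l 17202448) (b (l 16829576) (l 16804760))) (b (l 16536392) (l 16537280))), by decide +kernel⟩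

def k5_pm_022_a : ∃ t, chk3 f_pm_022_a t 65 8 1 = true :=
  ⟨(c (c (l 17292464) (l 16925584)) (l 16551672)), by decide +kernel⟩

def k6_pm_022_a : ∃ t, chk3 f_pm_022_a t 128 9 1 = true :=
  ⟨(b (c (c (a (b (a (l 17004688) (l 17043400)) (c (l 17149600) (l 16942736))) (b (a (c (b (l 17210344) (l 17197472)) (b (a (b (l 17007368) (l 17001064)) (l 17013328)) (a (l 16990712) (b (l 17003288) (l 16996328))))) (l 17120344)) (a (l 17073448) (b (a (l 17094888) (l 17103544)) (l 17083184))))) (a (b (a (c (l 16758600) (l 16553584)) (l 16561616)) (a (l 16557856) (l 16643096))) (b (a (b (a (a (l 16697960) (a (l 16570784) (l 16557712))) (l 16564336)) (a (l 16685792) (b (l 16569056) (l 16692472)))) (l 16572624)) (a (l 16664864) (b (a (l 16690232) (l 16574920)) (l 16677288)))))) (a (b (c (a (l 16548752) (l 16547184)) (a (l 16542504) (l 16540976))) (c (a (l 16550320) (l 16548952)) (l 16553888))) (b (c (a (a (a (l 16546256) (b (l 16566664) (l 16546576))) (b (l 16545256) (b (l 16566640) (l 16546216))))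 (l 16565672)) (a (a (a (l 16540088) (b (l 16560496) (l 16540376))) (b (l 16539072) (b (l 16560512) (l 16540048)))) (l 16559448))) (a (c (l 16547472) (l 16541336)) (b (a (l 16542912) (c (l 16566264) (l 16560176))) (l 16543504)))))) (c (c (b (a (c (l 17113544) (l 16904200)) (l 17046304)) (a (c (l 17070136) (l 16857824)) (l 17003072))) (b (a (a (l 16557104) (l 16601184)) (l 16634784)) (a (l 16566896) (l 16585840)))) (a (c (b (l 16561952) (l 16553672)) (b (l 16545480) (l 16547864))) (b (c (l 16548648) (l 16542624)) (l 16558496))))), by decide +kernel⟩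

def k7_pm_022_a : ∃ t, chk3 f_pm_022_a t 129 9 1 = true :=
  ⟨(c (a (b (b (l 16738464) (c (c (l 17216936) (l 17017560)) (l 16571168))) (b (c (a (l 17073192) (b (l 17100488) (l 17081456))) (a (l 16667336) (l 16583880))) (c (l 17040368) (l 16630848)))) (b (l 16885720) (c (b (l 17117008) (a (l 17067128) (l 17084904))) (b (l 16615528) (b (l 16581808) (l 16661616)))))) (b (a (b (l 16539736) (c (l 16575696) (l 16569512))) (l 16538104)) (b (a (a (l 16564336) (b (c (l 16544736) (l 16559688)) (l 16542648))) (l 16571840)) (a (l 16545120) (b (a (l 16542392) (l 16562136)) (l 16542784)))))), by decide +kernel⟩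

def k8_pm_022_a : ∃ t, chk3 f_pm_022_a t 65 9 1 = true :=
  ⟨(c (b (l 17014496) (a (c (l 17147456) (l 16570096)) (l 17023232))) (b (l 16532712) (c (l 16581200) (l 16574664)))), by decide +kernel⟩

def k9_pm_022_a : ∃ t, chk3 f_pm_022_a t 33 4 1 = true :=
  ⟨(b (c (l 17278328) (l 16611792)) (c (l 16974864) (l 16544016))), by decide +kernel⟩

def k10_pm_022_a : ∃ t, chk3 f_pm_022_a t 17 4 1 = true :=
  ⟨(b (a (l 17159120) (l 17322736)) (a (l 16883696) (l 17269136))), by decide +kernel⟩

def k11_pm_022_a : ∃ t, chk3 f_pm_022_a t 16 10 1 = true :=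
  ⟨(a (a (c (a (a (b (c (b (c (l 17018760) (l 16802944)) (c (l 16958608) (l 16738720))) (b (l 16567232) (l 16572480))) (c (b (c (l 16888704) (l 16664104)) (c (l 16744928) (l 16577840))) (b (c (l 16568928) (l 16566272)) (a (l 16576800) (l 16570256))))) (b (c (b (l 16951808) (l 16891800)) (l 16560696)) (c (l 16572216) (l 16566800)))) (b (b (c (l 17009664) (l 16597480)) (l 16570352)) (b (l 16568232) (l 16570936)))) (b (a (a (c (b (l 16556208) (l 16559096)) (b (l 16550616) (l 16553752))) (b (l 16550672) (l 16553664))) (b (l 16567112) (l 16549440))) (a (a (c (b (l 16562360) (l 16576520)) (b (l 16557296) (l 16561272))) (b (l 16557040) (l 16560832))) (b (l 16552888) (l 16556680))))) (b (b (c (a (c (a (b (l 17076888) (l 17052016)) (l 17099328)) (l 16611416)) (l 16957848)) (a (a (b (l 16583360) (l 16542928)) (l 16560656)) (l 16536136))) (c (a (a (l 16806752) (a (l 16836944) (l 16604616))) (c (l 17099152) (l 16709640))) (a (a (l 16545288) (b (l 16583336) (l 16543368))) (l 16580512))))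 (a (c (l 16576440) (l 16569680)) (b (c (a (l 16822840) (l 16610392)) (a (l 16542704) (b (l 16560336) (l 16540664)))) (c (l 16772080) (l 16545056)))))) (a (a (b (l 16555064) (c (b (l 16918704) (l 16621192)) (l 16621896))) (c (l 16991776) (l 16573592))) (l 16580144))), by decide +kernel⟩

def k12_pm_022_a : ∃ t, chk3 f_pm_022_a t 16 11 1 = true :=
  ⟨(a (a (c (b (a (a (c (b (c (l 16609688) (l 16578224)) (c (l 16586016) (l 16582144))) (b (b (l 16573632) (l 16575608)) (b (l 16577688) (l 16579888)))) (c (l 16595776) (l 16595424))) (b (l 16570720) (l 16574648))) (a (a (c (b (c (l 16588512) (l 16586528)) (c (l 16598416) (l 16601896))) (b (b (l 16582208) (l 16589896)) (c (l 16600144) (l 16598416)))) (c (b (l 16584896) (l 16589592)) (l 16604968))) (c (l 16605168) (l 16601048)))) (a (a (b (c (b (l 16578664) (a (l 16585848) (l 16573936))) (b (l 16576192) (l 16581112))) (a (c (b (b (l 16578976) (l 16581616)) (b (l 16584392) (l 16587304))) (b (l 16581984) (b (l 16580992) (l 16584096))))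 (c (b (l 16578976) (l 16584528)) (b (l 16575224) (l 16581160))))) (b (c (l 16590888) (l 16586488)) (c (l 16601184) (l 16597504)))) (b (b (l 16560880) (l 16565528)) (c (l 16597048) (l 16593176))))) (b (c (a (l 16567648) (l 16644920)) (l 16596464)) (c (l 16616352) (l 16607496)))) (b (c (a (a (l 16732272) (b (l 16854912) (l 16773496))) (l 16800728)) (a (b (a (l 16543216) (l 16579784)) (l 16564880)) (l 16616912))) (a (c (l 16582696) (l 16594720)) (a (l 16620744) (b (l 16624728) (l 16566160)))))), by decide +kernel⟩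

def k13_pm_022_a : ∃ t, chk3 f_pm_022_a t 17 5 1 = true :=
  ⟨(b (a (c (l 17267160) (l 16634280)) (l 17153328)) (a (b (l 16782480) (a (a (l 16643296) (l 16586776)) (l 16699784))) (l 16956104))), by decide +kernel⟩

def k14_pm_022_a : ∃ t, chk3 f_pm_022_a t 9 2 1 = true :=
  ⟨(b (a (a (l 17423984) (l 17523528)) (l 17633080)) (a (b (l 17373008) (a (l 17147360) (l 17295408))) (b (l 17560656) (l 17457608)))), by decide +kernel⟩

def k15_pm_022_a : ∃ t, chk3 f_pm_022_a t 5 2 1 = true :=
  ⟨(a (l 17719112) (l 17803240)), by decide +kernel⟩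

def k16_pm_022_a : ∃ t, chk3 f_pm_022_a t 64 12 1 = true :=
  ⟨(b (a (c (a (a (b (c (c (l 16604184) (l 16607896)) (c (l 16606384) (l 16604880))) (c (c (b (l 16602912) (l 16605928)) (b (l 16601560) (l 16604680))) (c (b (l 16600216) (l 16603440)) (b (l 16598872) (l 16602208))))) (c (b (l 16596784) (l 16602640)) (b (l 16593688) (l 16599976)))) (c (b (l 16594832) (l 16600640)) (b (l 16591624) (l 16597880)))) (a (a (b (c (c (l 16603392) (l 16601920)) (b (l 16587336) (l 16590728))) (c (b (l 16602128) (c (l 16600984) (l 16599768))) (b (l 16594264) (l 16597952)))) (c (b (l 16590648) (l 16597352)) (b (l 16587664) (l 16594768)))) (b (l 16597424) (c (l 16595160) (l 16592488))))) (c (c (l 16616056) (l 16612800)) (c (l 16609624) (l 16627496)))) (c (b (a (a (c (c (b (l 16608472) (l 16617048)) (b (l 16607320) (l 16616008))) (c (b (l 16606176) (l 16620208)) (b (l 16605032) (l 16613928)))) (c (l 16607096) (l 16604768))) (l 16612328)) (a (a (a (c (c (b (l 16615920) (l 16624832)) (b (l 16615000)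 (l 16621408))) (b (c (l 16614088) (l 16613176)) (c (l 16620600) (l 16619784)))) (c (b (l 16613944) (l 16617640)) (b (l 16612064) (l 16615968)))) (c (l 16614232) (l 16612344))) (c (l 16610184) (l 16608112)))) (b (a (a (a (c (b (c (l 16604584) (l 16603464)) (c (l 16608336) (l 16607320))) (b (l 16607032) (c (l 16606304) (l 16605288)))) (c (l 16604696) (l 16602504))) (c (l 16602480) (l 16600208))) (l 16596880)) (a (a (a (c (b (c (l 16612256) (l 16611336)) (c (l 16618968) (l 16618144))) (b (c (l 16610416) (l 16609496)) (c (l 16619944) (l 16619112)))) (c (b (l 16610176) (l 16614296)) (b (l 16608296) (l 16612600)))) (c (l 16610464) (l 16608592))) (l 16626016))))), by decide +kernel⟩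

def k17_pm_022_a : ∃ t, chk3 f_pm_022_a t 65 12 1 = true :=
  ⟨(c (b (a (l 16608592) (l 16581872)) (a (l 16643240) (l 16616112))) (b (a (l 16601736) (l 16574488)) (b (l 16609136) (l 16617272)))), by decide +kernel⟩

def k18_pm_022_a : ∃ t, chk3 f_pm_022_a t 33 12 1 = true :=
  ⟨(b (a (b (l 16586912) (l 16592984)) (l 16620064)) (a (c (l 16629360) (l 16622912)) (l 16634240))), by decide +kernel⟩

def k19_pm_022_a : ∃ t, chk3 f_pm_022_a t 32 26 1 = true :=
  ⟨(a (c (a (c (a (b (a (b (c (l 16628688) (l 16622752)) (a (c (l 16627816) (l 16627232)) (l 16626720))) (c (l 16635048) (l 16634368))) (a (b (b (c (l 16630424) (l 16629912)) (c (l 16632576) (l 16632112))) (c (b (l 16634776) (l 16638440)) (b (l 16634368) (l 16636760)))) (b (l 16629864) (l 16634152)))) (b (l 16632600) (l 16641336))) (a (b (a (b (c (l 16622048) (l 16621336)) (a (c (l 16626632) (l 16626024)) (l 16625512))) (b (l 16620072) (l 16624352))) (a (b (a (c (l 16632384) (l 16631872)) (l 16629984)) (c (b (l 16633936)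 (l 16636368)) (b (l 16633496) (l 16635968)))) (b (l 16628816) (l 16633304)))) (b (l 16631144) (l 16650768)))) (b (c (l 16618016) (l 16637352)) (c (l 16647704) (l 16646496)))) (a (c (a (b (b (a (c (l 16620616) (l 16619896)) (l 16618592)) (a (c (a (l 16625416) (l 16624576)) (l 16627056)) (l 16623072))) (a (b (a (c (l 16630040) (l 16629512)) (l 16628928)) (b (c (l 16633048) (l 16632576)) (c (l 16635552) (l 16635128)))) (b (l 16627728) (l 16632408)))) (b (l 16640152) (l 16649680))) (a (b (a (b (c (l 16619160) (l 16618424)) (c (l 16623800) (l 16623152))) (b (l 16617096) (l 16621760))) (a (a (b (c (l 16628960) (l 16628408)) (b (l 16632240) (c (l 16635112) (l 16634656)))) (b (l 16627824) (l 16632752))) (b (l 16626600) (l 16631464)))) (b (l 16638656) (l 16648552)))) (b (l 16634904) (l 16644640)))) (c (a (c (l 16661208) (l 16659456)) (l 16653632)) (a (a (l 16657528) (l 16654024)) (l 16649792)))), by decide +kernel⟩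

def k20_pm_022_a : ∃ t, chk3 f_pm_022_a t 32 27 1 = true :=
  ⟨(a (b (a (c (a (a (c (a (c (b (c (l 16641880) (l 16641712)) (c (l 16647664) (l 16647512))) (b (l 16641448) (c (l 16647360) (l 16647200)))) (c (l 16643744) (l 16643416))) (c (b (l 16640600) (l 16646472)) (b (l 16640232) (l 16646136)))) (c (b (l 16649880) (l 16645024)) (b (l 16638672) (l 16644376)))) (c (b (l 16636704) (l 16642096)) (b (l 16635960) (l 16641448)))) (a (a (c (c (b (l 16639840) (l 16645776)) (b (l 16639440) (l 16645408))) (c (b (l 16639024) (l 16645024)) (b (l 16638592) (l 16644624)))) (c (b (l 16637896) (l 16643672)) (b (l 16637064) (l 16642912)))) (b (c (l 16635168) (l 16634328)) (l 16640384)))) (c (c (l 16656320) (l 16655520)) (b (l 16650648) (l 16656232)))) (a (c (a (a (c (a (c (b (c (l 16653496) (l 16653368)) (c (l 16659384) (l 16659272))) (b (c (l 16653232) (l 16653088)) (c (l 16659152) (l 16659024)))) (c (l 16655144) (l 16655216))) (c (b (l 16652400) (l 16658376)) (b (l 16652096) (l 16658112))))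 (c (c (l 16654072) (l 16653816)) (l 16653408))) (c (l 16651112) (l 16650568))) (a (c (b (c (l 16650832) (l 16650496)) (c (l 16656904) (l 16656608))) (a (b (l 16650904) (l 16657040)) (l 16652136))) (c (l 16649976) (l 16649320)))) (c (l 16655536) (l 16643888)))) (c (b (c (l 16668656) (l 16667576)) (a (l 16681008) (l 16652424))) (b (a (l 16647016) (l 16641016)) (a (l 16679712) (l 16651040))))), by decide +kernel⟩

def k21_pm_022_a : ∃ t, chk3 f_pm_022_a t 33 13 1 = true :=
  ⟨(b (a (c (l 16667016) (l 16662376)) (l 16650936)) (a (c (c (l 16720872) (l 16719336)) (c (l 16728320) (l 16726840))) (b (l 16619928) (l 16651288)))), by decide +kernel⟩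

def k22_pm_022_a : ∃ t, chk3 f_pm_022_a t 17 6 1 = true :=
  ⟨(b (a (b (a (a (l 16609960) (b (l 16622912) (l 16545032))) (c (l 16867544) (l 16634504))) (a (l 16621296) (b (b (l 16685920) (l 16543640)) (l 16548912)))) (b (l 16736312) (c (l 16876088) (l 16756488)))) (a (b (a (l 16637512) (l 16603184)) (c (l 16742344) (l 16747424))) (b (a (l 16630624) (a (l 16766256) (l 16719888))) (l 16728696)))), by decide +kernel⟩

def k23_pm_022_a : ∃ t, chk3 f_pm_022_a t 9 6 1 = true :=
  ⟨(b (a (a (l 16892064) (l 17085224)) (l 17296944)) (a (b (a (l 16739792) (l 16860792)) (a (b (l 16801344) (a (l 16570752) (l 16717808))) (l 16705672))) (l 17054792))), by decide +kernel⟩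

def k24_pm_022_a : ∃ t, chk3 f_pm_022_a t 8 7 1 = true :=
  ⟨(b (a (a (b (a (a (c (a (b (a (c (a (c (b (c (l 16665312) (l 16665224)) (c (l 16671296) (l 16671224))) (b (c (l 16665120) (l 16665016)) (l 16671104))) (c (b (l 16664376) (l 16670384)) (l 16667224))) (c (b (l 16664408) (l 16670488)) (b (l 16664176) (l 16670296)))) (c (c (l 16666072) (l 16665888)) (l 16665592))) (b (a (b (c (c (l 16675352) (l 16675224)) (c (l 16675080) (l 16674920))) (l 6)) (c (l 16675112) (l 16674840))) (l 6))) (c (b (l 16663280) (l 16686232)) (b (l 16662888) (l 16675504)))) (a (b (c (b (c (l 16663032) (l 16662768)) (b (l 16667536) (l 16670656))) (b (l 16661032) (l 16668616))) (b (b (c (l 16673784) (l 16673360)) (a (l 6) (l 16675896))) (l 6))) (b (c (l 16662432) (l 16661920)) (c (l 16675192) (l 16674824))))) (c (c (b (l 16657744) (l 16670464)) (l 16684848)) (b (l 16656664) (l 16680216)))) (a (c (l 16677544) (l 16676824)) (b (a (l 16643576) (l 16672408)) (l 16676160)))) (b (a (a (l 6) (c (c (l 16683880)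 (l 16683720)) (l 16696496))) (c (l 16694136) (l 16693752))) (a (l 6) (c (l 16708464) (l 16708248))))) (b (b (a (c (l 16697128) (l 16695936)) (l 16662968)) (a (c (l 16732456) (l 16731592)) (l 16694176))) (a (c (l 16686592) (l 16686360)) (b (l 16739048) (l 16662208))))) (b (a (b (l 16704592) (c (l 16725168) (l 16722632))) (a (l 16684456) (l 16663048))) (a (a (b (l 16701992) (l 16740384)) (c (l 16830336) (l 16831872))) (a (l 16821688) (l 16763528))))) (a (a (l 6) (b (a (l 6) (l 16709096)) (l 6))) (a (b (c (l 16693112) (l 16692960)) (b (l 16724344) (l 6))) (b (b (a (l 16721080) (l 16701360)) (a (l 16704656) (l 16762560))) (l 16756616))))), by decide +kernel⟩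

def k25_pm_022_a : ∃ t, chk3 f_pm_022_a t 9 7 1 = true :=
  ⟨(b (a (b (a (l 16786488) (b (l 16795128) (a (l 16608968) (l 16734872)))) (a (a (l 16722512) (l 16680872)) (l 16889088))) (b (a (l 16715160) (l 16903256)) (a (b (l 16856016) (a (l 16650320) (l 16797928))) (l 16816296)))) (a (b (a (b (l 16752616) (l 16883744)) (a (l 16804936) (l 16764320))) (a (b (c (l 16942352) (l 16943152)) (b (l 16919056) (l 16754416))) (b (l 16835712) (c (l 16925936) (l 16947616))))) (b (a (b (l 16671704) (l 16692992)) (b (c (l 16841048) (l 16862096)) (l 16824808))) (a (a (l 16909104) (l 16870056)) (b (l 16716304) (l 16738480)))))), by decide +kernel⟩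

def k26_pm_022_a : ∃ t, chk3 f_pm_022_a t 5 3 1 = true :=
  ⟨(b (a (a (b (l 17484192) (l 17309088)) (l 17538864)) (l 17662712)) (a (b (a (b (l 17131048) (l 16983856)) (l 17408448)) (a (b (b (l 16860816) (a (l 16813288) (l 16863160))) (a (b (a (l 16719000) (l 16800224)) (l 16763232)) (b (l 16778808) (l 16989392)))) (b (l 17099416) (l 16960296)))) (b (a (l 17434184) (l 17534352)) (a (b (l 17286880) (l 17173040)) (b (l 17418624) (l 17323240)))))), by decide +kernel⟩

def k27_pm_022_a : ∃ t, chk3 f_pm_022_a t 3 1 1 = true :=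
  ⟨(b (a (l 17800016) (l 17700208)) (a (b (l 17738336) (a (l 17566528) (l 17631080))) (l 17661968))), by decide +kernel⟩

theorem s28_pm_022_a : ∃ t, chk3 f_pm_022_a t 4 7 1 = true := ex3_a k24_pm_022_a k25_pm_022_a

theorem s29_pm_022_a : ∃ t, chk3 f_pm_022_a t 32 13 1 = true := ex3_b k19_pm_022_a k20_pm_022_a

theorem s30_pm_022_a : ∃ t, chk3 f_pm_022_a t 16 13 1 = true := ex3_a s29_pm_022_a k21_pm_022_a

theorem s31_pm_022_a : ∃ t, chk3 f_pm_022_a t 32 12 1 = true := ex3_a k16_pm_022_a k17_pm_022_a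

theorem s32_pm_022_a : ∃ t, chk3 f_pm_022_a t 16 12 1 = true := ex3_a s31_pm_022_a k18_pm_022_a

theorem s33_pm_022_a : ∃ t, chk3 f_pm_022_a t 16 6 1 = true := ex3_b s32_pm_022_a s30_pm_022_a

theorem s34_pm_022_a : ∃ t, chk3 f_pm_022_a t 8 6 1 = true := ex3_a s33_pm_022_a k22_pm_022_a

theorem s35_pm_022_a : ∃ t, chk3 f_pm_022_a t 4 6 1 = true := ex3_a s34_pm_022_a k23_pm_022_a

theorem s36_pm_022_a : ∃ t, chk3 f_pm_022_a t 4 3 1 = true := ex3_b s35_pm_022_a s28_pm_022_a

theorem s37_pm_022_a : ∃ t, chk3 f_pm_022_a t 2 3 1 = true := ex3_a s36_pm_022_a k26_pm_022_a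

theorem s38_pm_022_a : ∃ t, chk3 f_pm_022_a t 16 5 1 = true := ex3_b k11_pm_022_a k12_pm_022_a

theorem s39_pm_022_a : ∃ t, chk3 f_pm_022_a t 8 5 1 = true := ex3_a s38_pm_022_a k13_pm_022_a

theorem s40_pm_022_a : ∃ t, chk3 f_pm_022_a t 64 9 1 = true := ex3_a k6_pm_022_a k7_pm_022_a

theorem s41_pm_022_a : ∃ t, chk3 f_pm_022_a t 32 9 1 = true := ex3_a s40_pm_022_a k8_pm_022_a

theorem s42_pm_022_a : ∃ t, chk3 f_pm_022_a t 128 17 1 = true := ex3_c k2_pm_022_a k3_pm_022_a

theorem s43_pm_022_a : ∃ t, chk3 f_pm_022_a t 128 16 1 = true := ex3_c k0_pm_022_a k1_pm_022_a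

theorem s44_pm_022_a : ∃ t, chk3 f_pm_022_a t 128 8 1 = true := ex3_b s43_pm_022_a s42_pm_022_a

theorem s45_pm_022_a : ∃ t, chk3 f_pm_022_a t 64 8 1 = true := ex3_a s44_pm_022_a k4_pm_022_a

theorem s46_pm_022_a : ∃ t, chk3 f_pm_022_a t 32 8 1 = true := ex3_a s45_pm_022_a k5_pm_022_a

theorem s47_pm_022_a : ∃ t, chk3 f_pm_022_a t 32 4 1 = true := ex3_b s46_pm_022_a s41_pm_022_a

theorem s48_pm_022_a : ∃ t, chk3 f_pm_022_a t 16 4 1 = true := ex3_a s47_pm_022_a k9_pm_022_a

theorem s49_pm_022_a : ∃ t, chk3 f_pm_022_a t 8 4 1 = true := ex3_a s48_pm_022_a k10_pm_022_a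

theorem s50_pm_022_a : ∃ t, chk3 f_pm_022_a t 8 2 1 = true := ex3_b s49_pm_022_a s39_pm_022_a

theorem s51_pm_022_a : ∃ t, chk3 f_pm_022_a t 4 2 1 = true := ex3_a s50_pm_022_a k14_pm_022_a

theorem s52_pm_022_a : ∃ t, chk3 f_pm_022_a t 2 2 1 = true := ex3_a s51_pm_022_a k15_pm_022_a

theorem s53_pm_022_a : ∃ t, chk3 f_pm_022_a t 2 1 1 = true := ex3_b s52_pm_022_a s37_pm_022_a

theorem s54_pm_022_a : ∃ t, chk3 f_pm_022_a t 1 1 1 = true := ex3_a s53_pm_022_a k27_pm_022_a

theorem c_pm_022_a : CertF 0 536870912 0 536870912 134217728 67108864 true true false .pp 0 2 2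
    ndF1q0 ndF2q2a pcF2 cut_pm_022_a Ext.none :=
  certF0 (fam := true) (s1 := true) (s2 := false) (a := 0) (b := 2) (c := 2) (cn := .pp) (n1 := ndF1q0) (n2 := ndF2q2a) (pc := pcF2) (cut := cut_pm_022_a) (xt := Ext.none) (P1 := 0) (W1 := 536870912) (P2 := 0) (W2 := 536870912) (P3 := 134217728) (W3 := 67108864)
    rfl s54_pm_022_a

noncomputable def cut_pm_022_b : Cut := Cut.of [[⟨0, 0, 0, 67108864⟩, ⟨1, 1, 0, 67108864⟩, ⟨2, 1, 0, 67108864⟩]]

noncomputable def f_pm_022_b : ℕ → ℕ → ℕ → ℕ → Bool := onCell 0 536870912 1239849684 370763052 134217728 67108864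
    (rowF 0 true true false .pp 0 2 2 (qsf 0 536870912 1239849684 370763052 2) ndF1q0 ndF2q2b pcF2 cut_pm_022_b Ext.none)

def k0_pm_022_b : ∃ t, chk3 f_pm_022_b t 1 1 1 = true :=
  ⟨(a (b (a (b (a (b (a (a (b (a (c (c (b (a (b (l 17060584) (l 17307960)) (l 17317616)) (l 17470352)) (a (b (a (b (c (l 16895016) (l 16592376)) (l 16723440)) (l 16850960)) (b (l 16931504) (l 17135160))) (b (l 16946384) (l 17146440)))) (a (b (c (b (c (l 16543808) (l 16540224)) (l 16540528)) (a (b (l 16546488) (l 16530288)) (l 16531280))) (b (c (l 16533536) (l 16524000)) (c (l 16633832) (l 16519080)))) (c (l 16565296) (l 16545712)))) (c (b (l 17095680) (l 17393968)) (l 16563208))) (c (a (c (l 17698176) (b (l 17191752) (l 17453048))) (l 17613288)) (a (a (c (b (b (l 16821168) (l 16980832)) (l 17114768)) (b (l 16520632) (a (l 16696048) (l 16810616)))) (b (l 16723960) (l 16947432))) (b (l 16918800) (l 17086792))))) (c (b (a (l 17406336) (l 17488248)) (l 17707432)) (b (l 16573768) (a (l 17104856) (l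 17192056))))) (b (a (c (l 17591592) (l 17036656)) (l 17450048)) (a (c (l 17803208) (l 17301840)) (l 17646576)))) (a (a (c (b (b (l 17618936) (l 17871920)) (l 18004688)) (b (a (c (b (l 17295936) (l 17433344)) (b (a (l 16973360) (l 17024216)) (l 17153328))) (b (l 17235864) (l 17366992))) (a (b (c (l 17552520) (l 17287256)) (l 17529032)) (l 17530696)))) (b (c (l 17905784) (a (l 17372856) (l 17433144))) (l 17684248))) (c (l 18056328) (l 17635232)))) (b (a (b (l 17593896) (l 17747616)) (l 17778904)) (l 17955160))) (a (a (b (c (l 18220456) (a (l 17768584) (l 17827336))) (l 18209832)) (l 18158280)) (l 18169416))) (b (l 18087456) (l 18101640))) (a (a (b (a (l 18389064) (l 18370184)) (l 18483936)) (l 18359760)) (b (a (l 18229440) (l 2)) (l 2)))) (b (a (b (l 17862960) (a (l 17976664) (l 2))) (l 2)) (l 2))), by decide +kernel⟩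

theorem c_pm_022_b : CertF 0 536870912 1239849684 370763052 134217728 67108864 true true false .pp 0 2 2
    ndF1q0 ndF2q2b pcF2 cut_pm_022_b Ext.none :=
  certF0 (fam := true) (s1 := true) (s2 := false) (a := 0) (b := 2) (c := 2) (cn := .pp) (n1 := ndF1q0) (n2 := ndF2q2b) (pc := pcF2) (cut := cut_pm_022_b) (xt := Ext.none) (P1 := 0) (W1 := 536870912) (P2 := 1239849684) (W2 := 370763052) (P3 := 134217728) (W3 := 67108864)
    rfl k0_pm_022_b

noncomputable def f_pm_023_a : ℕ → ℕ → ℕ → ℕ → Bool := onCell 1610612736 536870912 0 536870912 134217728 67108864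
    (rowF 2 true true false .up 0 2 3 (qsf 0 536870912 0 536870912 3) ndF1q0 ndF2q2a pcF3 Cut.none Ext.none)

def k0_pm_023_a : ∃ t, chk3 f_pm_023_a t 1 1 1 = true :=
  ⟨(a (a (l 18068880) (b (l 17846440) (l 17869760))) (l 2)), by decide +kernel⟩

theorem c_pm_023_a : CertF 0 536870912 0 536870912 134217728 67108864 true true false .up 0 2 3
    ndF1q0 ndF2q2a pcF3 Cut.none Ext.none :=
  certF2 (fam := true) (s1 := true) (s2 := false) (a := 0) (b := 2) (c := 3) (cn := .up) (n1 := ndF1q0) (n2 := ndF2q2a) (pc := pcF3) (cut := Cut.none) (xt := Ext.none) (P1 := 0) (W1 := 536870912) (P2 := 0) (W2 := 536870912) (P3 := 134217728) (W3 := 67108864)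
    rfl (fun _ => rfl) k0_pm_023_a

noncomputable def f_pm_023_b : ℕ → ℕ → ℕ → ℕ → Bool := onCell 1610612736 536870912 1239849684 370763052 134217728 67108864
    (rowF 2 true true false .up 0 2 3 (qsf 0 536870912 1239849684 370763052 3) ndF1q0 ndF2q2b pcF3 Cut.none Ext.none)

def k0_pm_023_b : ∃ t, chk3 f_pm_023_b t 1 1 1 = true :=
  ⟨(a (a (b (l 17999288) (l 18118184)) (a (l 17942688) (l 17849352))) (a (b (l 17813704) (l 17778656)) (l 4))), by decide +kernel⟩

theorem c_pm_023_b : CertF 0 536870912 1239849684 370763052 134217728 67108864 true true false .up 0 2 3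
    ndF1q0 ndF2q2b pcF3 Cut.none Ext.none :=
  certF2 (fam := true) (s1 := true) (s2 := false) (a := 0) (b := 2) (c := 3) (cn := .up) (n1 := ndF1q0) (n2 := ndF2q2b) (pc := pcF3) (cut := Cut.none) (xt := Ext.none) (P1 := 0) (W1 := 536870912) (P2 := 1239849684) (W2 := 370763052) (P3 := 134217728) (W3 := 67108864)
    rfl (fun _ => rfl) k0_pm_023_b

noncomputable def f_pm_033 : ℕ → ℕ → ℕ → ℕ → Bool := onCell 0 536870912 1610612736 536870912 134217728 67108864
    (rowF 1 true true false .pnn 0 3 3 (qsf 0 536870912 1610612736 536870912 3) ndF1q0 ndF2q3 pcF3 Cut.none Ext.none)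

def k0_pm_033 : ∃ t, chk3 f_pm_033 t 1 1 1 = true :=
  ⟨(b (b (a (l 17882016) (l 1)) (a (b (l 17802232) (l 17797440)) (l 346854195447))) (b (a (b (l 17791024) (l 4)) (l 287797873095)) (l 4))), by decide +kernel⟩

theorem c_pm_033 : CertF 0 536870912 1610612736 536870912 134217728 67108864 true true false .pnn 0 3 3
    ndF1q0 ndF2q3 pcF3 Cut.none Ext.none :=
  certF1 (fam := true) (s1 := true) (s2 := false) (a := 0) (b := 3) (c := 3) (cn := .pnn) (n1 := ndF1q0) (n2 := ndF2q3) (pc := pcF3) (cut := Cut.none) (xt := Ext.none) (P1 := 0) (W1 := 536870912) (P2 := 1610612736) (W2 := 536870912) (P3 := 134217728) (W3 := 67108864)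
    rfl (fun _ => rfl) k0_pm_033

noncomputable def f_pm_101 : ℕ → ℕ → ℕ → ℕ → Bool := onCell 536870912 536870912 0 536870912 134217728 67108864
    (rowF 2 true true false .npn 1 0 1 (qsf 536870912 536870912 0 536870912 1) ndF1q1 ndF2q0 pcF1 Cut.none Ext.none)

def k0_pm_101 : ∃ t, chk3 f_pm_101 t 1 1 1 = true :=
  ⟨(a (l 3) (l 3)), by decide +kernel⟩

theorem c_pm_101 : CertF 536870912 536870912 0 536870912 134217728 67108864 true true false .npn 1 0 1
    ndF1q1 ndF2q0 pcF1 Cut.none Ext.none :=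
  certF2 (fam := true) (s1 := true) (s2 := false) (a := 1) (b := 0) (c := 1) (cn := .npn) (n1 := ndF1q1) (n2 := ndF2q0) (pc := pcF1) (cut := Cut.none) (xt := Ext.none) (P1 := 536870912) (W1 := 536870912) (P2 := 0) (W2 := 536870912) (P3 := 134217728) (W3 := 67108864)
    rfl (fun _ => rfl) k0_pm_101

noncomputable def f_pm_102 : ℕ → ℕ → ℕ → ℕ → Bool := onCell 536870912 536870912 1073741824 536870912 134217728 67108864
    (rowF 1 true true false .npp 1 0 2 (qsf 536870912 536870912 0 536870912 2) ndF1q1 ndF2q0 pcF2 Cut.none Ext.none)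

def k0_pm_102 : ∃ t, chk3 f_pm_102 t 1 1 1 = true :=
  ⟨(a (b (b (b (l 3) (l 221359788807)) (b (b (b (l 17065824) (b (l 17048792) (l 17268472))) (l 17009688)) (l 16949976))) (b (l 16916832) (l 2))) (b (b (b (l 3) (l 3)) (b (b (b (a (l 17144848) (a (l 17160112) (l 17103840))) (a (b (l 17166528) (l 17289648)) (b (a (l 17156392) (l 17091072)) (b (a (l 17170040) (l 17084176)) (a (l 17178256) (l 17077192)))))) (a (l 17160672) (a (l 17218296) (l 17043824)))) (a (l 17189016) (a (l 17332840) (l 17255056))))) (a (l 17345152) (b (a (l 17517312) (l 17637920)) (l 17732320))))), by decide +kernel⟩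

theorem c_pm_102 : CertF 536870912 536870912 0 536870912 134217728 67108864 true true false .npp 1 0 2
    ndF1q1 ndF2q0 pcF2 Cut.none Ext.none :=
  certF1 (fam := true) (s1 := true) (s2 := false) (a := 1) (b := 0) (c := 2) (cn := .npp) (n1 := ndF1q1) (n2 := ndF2q0) (pc := pcF2) (cut := Cut.none) (xt := Ext.none) (P1 := 536870912) (W1 := 536870912) (P2 := 0) (W2 := 536870912) (P3 := 134217728) (W3 := 67108864)
    rfl (fun _ => rfl) k0_pm_102

noncomputable def f_pm_112 : ℕ → ℕ → ℕ → ℕ → Bool := onCell 536870912 536870912 1073741824 536870912 134217728 67108864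
    (rowF 1 true true false .dn 1 1 2 (qsf 536870912 536870912 536870912 536870912 2) ndF1q1 ndF2q1 pcF2 Cut.none Ext.none)

def k0_pm_112 : ∃ t, chk3 f_pm_112 t 1 1 1 = true :=
  ⟨(a (b (b (b (l 3) (l 465637131559)) (b (b (b (l 17724496) (b (l 17739832) (l 17791096))) (l 17776256)) (l 17839856))) (b (l 17966472) (l 18153760))) (b (b (l 1) (b (l 1) (l 17713656))) (l 373161164887))), by decide +kernel⟩

theorem c_pm_112 : CertF 536870912 536870912 536870912 536870912 134217728 67108864 true true false .dn 1 1 2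
    ndF1q1 ndF2q1 pcF2 Cut.none Ext.none :=
  certF1 (fam := true) (s1 := true) (s2 := false) (a := 1) (b := 1) (c := 2) (cn := .dn) (n1 := ndF1q1) (n2 := ndF2q1) (pc := pcF2) (cut := Cut.none) (xt := Ext.none) (P1 := 536870912) (W1 := 536870912) (P2 := 536870912) (W2 := 536870912) (P3 := 134217728) (W3 := 67108864)
    rfl (fun _ => rfl) k0_pm_112

noncomputable def f_pm_113 : ℕ → ℕ → ℕ → ℕ → Bool := onCell 536870912 536870912 1610612736 536870912 134217728 67108864
    (rowF 1 true true false .nn 1 1 3 (qsf 536870912 536870912 536870912 536870912 3) ndF1q1 ndF2q1 pcF3 Cut.none Ext.none)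

def k0_pm_113 : ∃ t, chk3 f_pm_113 t 1 1 1 = true :=
  ⟨(a (b (b (l 18202096) (l 18465944)) (b (l 118753678439) (l 2))) (b (b (l 17485784) (l 17574680)) (b (l 17725384) (b (l 17895696) (b (l 18014496) (b (l 18101472) (b (l 18152952) (l 18225152)))))))), by decide +kernel⟩

theorem c_pm_113 : CertF 536870912 536870912 536870912 536870912 134217728 67108864 true true false .nn 1 1 3
    ndF1q1 ndF2q1 pcF3 Cut.none Ext.none :=
  certF1 (fam := true) (s1 := true) (s2 := false) (a := 1) (b := 1) (c := 3) (cn := .nn) (n1 := ndF1q1) (n2 := ndF2q1) (pc := pcF3) (cut := Cut.none) (xt := Ext.none) (P1 := 536870912) (W1 := 536870912) (P2 := 536870912) (W2 := 536870912) (P3 := 134217728) (W3 := 67108864)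
    rfl (fun _ => rfl) k0_pm_113

noncomputable def f_pm_123_a : ℕ → ℕ → ℕ → ℕ → Bool := onCell 1610612736 536870912 0 536870912 134217728 67108864
    (rowF 2 true true false .npn 1 2 3 (qsf 536870912 536870912 0 536870912 3) ndF1q1 ndF2q2a pcF3 Cut.none Ext.none)

def k0_pm_123_a : ∃ t, chk3 f_pm_123_a t 1 1 1 = true :=
  ⟨(a (a (l 17276576) (b (l 17134952) (l 17225024))) (b (a (l 16991960) (l 4)) (a (a (l 17097136) (l 17015320)) (a (l 16928704) (l 4))))), by decide +kernel⟩

theorem c_pm_123_a : CertF 536870912 536870912 0 536870912 134217728 67108864 true true false .npn 1 2 3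
    ndF1q1 ndF2q2a pcF3 Cut.none Ext.none :=
  certF2 (fam := true) (s1 := true) (s2 := false) (a := 1) (b := 2) (c := 3) (cn := .npn) (n1 := ndF1q1) (n2 := ndF2q2a) (pc := pcF3) (cut := Cut.none) (xt := Ext.none) (P1 := 536870912) (W1 := 536870912) (P2 := 0) (W2 := 536870912) (P3 := 134217728) (W3 := 67108864)
    rfl (fun _ => rfl) k0_pm_123_a

noncomputable def f_pm_123_b : ℕ → ℕ → ℕ → ℕ → Bool := onCell 1610612736 536870912 1239849684 370763052 134217728 67108864
    (rowF 2 true true false .npn 1 2 3 (qsf 536870912 536870912 1239849684 370763052 3) ndF1q1 ndF2q2b pcF3 Cut.none Ext.none)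

def k0_pm_123_b : ∃ t, chk3 f_pm_123_b t 1 1 1 = true :=
  ⟨(a (a (l 1) (a (l 17055112) (l 16968752))) (a (a (l 17095824) (l 16971392)) (l 4))), by decide +kernel⟩

theorem c_pm_123_b : CertF 536870912 536870912 1239849684 370763052 134217728 67108864 true true false .npn 1 2 3
    ndF1q1 ndF2q2b pcF3 Cut.none Ext.none :=
  certF2 (fam := true) (s1 := true) (s2 := false) (a := 1) (b := 2) (c := 3) (cn := .npn) (n1 := ndF1q1) (n2 := ndF2q2b) (pc := pcF3) (cut := Cut.none) (xt := Ext.none) (P1 := 536870912) (W1 := 536870912) (P2 := 1239849684) (W2 := 370763052) (P3 := 134217728) (W3 := 67108864)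
    rfl (fun _ => rfl) k0_pm_123_b

noncomputable def f_pm_133 : ℕ → ℕ → ℕ → ℕ → Bool := onCell 536870912 536870912 1610612736 536870912 134217728 67108864
    (rowF 0 true true false .dn 1 3 3 (qsf 536870912 536870912 1610612736 536870912 3) ndF1q1 ndF2q3 pcF3 Cut.none Ext.none)

def k0_pm_133 : ∃ t, chk3 f_pm_133 t 1 1 1 = true :=
  ⟨(l 4), by decide +kernel⟩

theorem c_pm_133 : CertF 536870912 536870912 1610612736 536870912 134217728 67108864 true true false .dn 1 3 3
    ndF1q1 ndF2q3 pcF3 Cut.none Ext.none :=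
  certF0 (fam := true) (s1 := true) (s2 := false) (a := 1) (b := 3) (c := 3) (cn := .dn) (n1 := ndF1q1) (n2 := ndF2q3) (pc := pcF3) (cut := Cut.none) (xt := Ext.none) (P1 := 536870912) (W1 := 536870912) (P2 := 1610612736) (W2 := 536870912) (P3 := 134217728) (W3 := 67108864)
    rfl k0_pm_133

noncomputable def cut_pm_202_a : Cut := Cut.of [[⟨0, 1, 0, 67108864⟩, ⟨1, 0, 0, 67108864⟩, ⟨2, 1, 0, 67108864⟩]]

noncomputable def f_pm_202_a : ℕ → ℕ → ℕ → ℕ → Bool := onCell 0 536870912 1073741824 536870912 134217728 67108864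
    (rowF 1 true true false .pp 2 0 2 (qsf 0 536870912 0 536870912 2) ndF1q2a ndF2q0 pcF2 cut_pm_202_a Ext.none)

def k0_pm_202_a : ∃ t, chk3 f_pm_202_a t 2 1 1 = true :=
  ⟨(b (a (b (l 1) (b (b (b (l 1) (b (a (l 1) (b (l 1) (a (l 1) (c (l 299070375975) (l 16528696))))) (b (a (l 1) (c (a (l 293164794903) (l 16763216)) (l 296922730439))) (a (b (c (a (l 16885192) (l 16880872)) (l 16532824)) (c (a (l 16863000) (l 16878992)) (l 16552824))) (b (c (a (l 16874960) (l 16867208)) (l 16526400)) (c (a (l 16914344) (l 16906424)) (l 16546368))))))) (b (c (b (a (l 17017624) (l 17004560)) (l 17142208)) (a (l 16531144) (l 16524920))) (a (l 16986664) (l 16976928)))) (b (b (l 17183880) (l 17336464)) (l 17498224)))) (b (a (l 1) (b (l 1) (b (l 1) (b (l 1) (c (b (l 1) (a (l 1) (b (l 347925487367) (l 334503709799)))) (b (l 1) (a (l 1) (b (l 353294165863) (l 328598131239))))))))) (b (b (b (c (a (b (l 1) (a (l 282964105175) (l 346851743767))) (b (a (l 355441719063) (l 376379685143)) (a (l 370474099271)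 (l 16559096)))) (a (b (l 1) (a (l 282964056087) (l 348999180663))) (b (a (l 359736636551) (l 369937204775)) (a (l 16556440) (l 16538032))))) (b (c (a (c (a (l 328061583543) (l 16870728)) (l 336651220951)) (l 16642672)) (a (a (l 324840031335) (l 16549120)) (l 16551640))) (a (b (c (l 16792408) (l 16525320)) (b (l 16571640) (a (l 16554600) (l 16554048)))) (b (l 16559040) (a (l 16617504) (l 16576488)))))) (a (b (c (l 17053928) (l 16522040)) (l 16961312)) (b (l 16679024) (l 16941488)))) (b (a (l 17245664) (l 17219688)) (l 17467072))))) (b (b (l 17666712) (l 17770560)) (l 17822360))), by decide +kernel⟩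

def k1_pm_202_a : ∃ t, chk3 f_pm_202_a t 12 4 1 = true :=
  ⟨(b (l 1) (b (l 1) (b (b (a (l 1) (a (l 1) (a (b (l 1) (b (l 1) (b (c (l 339335588039) (l 334503744375)) (c (l 333966879943) (l 324840058631))))) (b (b (l 1) (b (l 1) (c (l 316250157783) (l 295312178151)))) (c (c (l 374769102903) (l 368326628311)) (c (l 364031653255) (l 359199828759))))))) (a (b (l 1) (a (l 1) (c (l 345778029495) (l 351683588295)))) (c (c (b (a (l 369400365735) (l 398391416391)) (l 383895897847)) (b (a (l 372621581463) (l 395707053335)) (l 381211533607))) (a (b (a (l 335577473751) (l 391948942951)) (l 366179131527)) (b (b (l 388190846071) (l 16578416)) (l 16575264)))))) (b (c (a (b (a (l 323766311975) (l 347388635751)) (a (l 328598144311) (l 16574816))) (a (l 16600552) (l 16581640))) (a (b (a (l 328598125847) (l 339872419335)) (l 346851751607)) (a (l 16588336) (l 16569728)))) (a (c (b (l 390875193879) (l 16568632)) (b (l 16567184) (l 16552848))) (l 16587920)))))), by decide +kernel⟩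

def k2_pm_202_a : ∃ t, chk3 f_pm_202_a t 13 8 1 = true :=
  ⟨(l 1), by decide +kernel⟩

def k3_pm_202_a : ∃ t, chk3 f_pm_202_a t 13 18 1 = true :=
  ⟨(b (a (l 1) (b (l 1) (a (b (l 1) (b (l 1) (a (l 1) (c (c (l 323766431367) (l 309807783975)) (l 289943554983))))) (b (b (a (l 1) (c (c (a (l 308197202599) (l 373158584759)) (l 340409454887)) (l 322692710039))) (a (c (c (l 314102772967) (l 300680996695)) (l 281890509831)) (c (c (l 380674769527) (l 376379798807)) (l 369937342999)))) (a (c (c (b (l 340946311303) (l 388727814983)) (l 358126173175)) (b (l 329135142631) (l 349536240039))) (c (c (l 16640920) (l 16639152)) (l 16636640))))))) (b (a (b (l 1) (a (l 1) (a (l 1) (b (l 1) (c (c (l 351146810263) (l 332356324231)) (l 314102717927)))))) (a (b (b (a (l 1) (c (c (l 350609969319) (l 345778127335)) (l 338798800167))) (a (c (c (l 336114443735) (l 320008312471)) (l 300680954135)) (c (c (l 402149575863) (l 388727800535)) (l 357589285031)))) (c (c (a (l 376916642839) (l 16622312))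 (a (l 372084800583) (l 16641296))) (a (b (l 351146811671) (l 369400427095)) (l 16638528)))) (b (c (c (l 16632336) (l 16630480)) (l 16638360)) (c (l 16623656) (l 16620016))))) (a (b (a (l 1) (a (c (c (l 349536186711) (l 338798784727)) (b (l 285111668103) (l 331282561047))) (b (c (c (l 379600969959) (l 375842869527)) (l 357589254775)) (c (l 16615472) (l 16605648))))) (a (a (l 1) (c (c (l 360273594119) (l 349536170039)) (b (l 301754652391) (l 351146770775)))) (a (c (c (l 403223286423) (l 399465185287)) (b (l 375305980935) (l 16598584))) (c (l 16607320) (l 16601992))))) (a (b (c (l 16624376) (l 16630600)) (l 16622496)) (b (l 16614784) (l 16609800)))))), by decide +kernel⟩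

def k4_pm_202_a : ∃ t, chk3 f_pm_202_a t 13 19 1 = true :=
  ⟨(b (b (a (a (b (a (c (c (l 373695355943) (l 362957930695)) (b (l 322155733319) (l 364568541511))) (c (c (l 16601840) (l 16598392)) (b (l 16599680) (l 16591760)))) (a (c (l 16605064) (l 16597416)) (c (l 16595816) (l 16588280)))) (c (l 16623000) (l 16621208))) (a (l 16632672) (l 16604160))) (a (c (l 16613328) (l 16604080)) (l 16592936))) (b (a (l 16599984) (l 16584088)) (l 16594720))), by decide +kernel⟩

def k5_pm_202_a : ∃ t, chk3 f_pm_202_a t 6 5 1 = true :=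
  ⟨(b (b (b (a (b (a (l 16588144) (l 16560208)) (l 16573496)) (l 16628168)) (b (a (l 16546496) (l 16553000)) (a (b (l 16541856) (l 16579496)) (l 16669480)))) (a (b (l 16670848) (l 16919688)) (l 16792248))) (b (l 17165896) (l 17392984))), by decide +kernel⟩

def k6_pm_202_a : ∃ t, chk3 f_pm_202_a t 7 2 1 = true :=
  ⟨(b (a (b (b (l 1) (b (a (l 1) (l 6)) (a (b (l 1) (a (l 1) (b (a (l 1) (l 6)) (b (a (a (l 1) (l 6)) (l 6)) (a (c (c (c (a (b (l 327524601863) (l 359736853575)) (b (l 6) (l 16672320))) (l 368863662903)) (l 366179303671)) (l 360810590583)) (c (l 16673592) (l 16670912))))))) (b (l 6) (a (b (l 6) (c (l 16678312) (l 16675640))) (l 16705512)))))) (b (b (a (b (a (b (a (l 1) (c (b (c (c (a (l 1) (l 359199975959)) (l 338798878839)) (l 331819554839)) (c (c (a (l 362421193111) (l 414497676023)) (l 369937385367)) (l 367253028583))) (b (l 318397777895) (l 361347444279)))) (a (c (c (b (c (l 348999410903) (l 343093829287)) (a (l 367789884375) (l 420940112103))) (b (l 335040763303)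 (l 370474236679))) (b (l 319471502391) (l 364568652055))) (b (c (c (c (l 420403250007) (l 416645149591)) (l 414497664135)) (l 387117248471)) (c (l 16656392) (l 16653344))))) (b (b (a (c (c (c (a (l 411276456503) (l 16669992)) (l 415034554615)) (l 412887069495)) (l 396244068423)) (l 16674248)) (c (l 16666152) (l 16663296))) (c (l 16661056) (l 16658080)))) (a (a (b (c (a (c (l 424698201399) (l 16647912)) (l 16649656)) (l 382285396423)) (l 16650544)) (c (l 16647360) (l 16644136))) (l 16669464))) (a (b (l 16687888) (l 16652096)) (l 16663576))) (a (b (c (l 16676552) (l 16673000)) (l 16660360)) (a (l 16763072) (l 16748992)))) (b (b (l 16686112) (l 16617320)) (l 16665216)))) (b (b (l 6) (b (l 6) (a (b (l 6) (l 16691368)) (l 16711168)))) (b (b (a (l 16675984) (l 16708600)) (b (l 16712504) (l 16690872))) (b (l 16737112) (l 16665376))))) (b (b (b (a (l 16588968) (l 16653216)) (b (l 16633240) (b (l 16606472) (l 16687704)))) (a (l 16788584) (l 16803400))) (b (l 17088816) (l 17288600)))),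 by decide +kernel⟩

def k7_pm_202_a : ∃ t, chk3 f_pm_202_a t 3 3 1 = true :=
  ⟨(b (a (l 17669136) (l 17566840)) (a (l 17751344) (l 17664696))), by decide +kernel⟩

theorem s8_pm_202_a : ∃ t, chk3 f_pm_202_a t 13 9 1 = true := ex3_b k3_pm_202_a k4_pm_202_a

theorem s9_pm_202_a : ∃ t, chk3 f_pm_202_a t 13 4 1 = true := ex3_b k2_pm_202_a s8_pm_202_a

theorem s10_pm_202_a : ∃ t, chk3 f_pm_202_a t 6 4 1 = true := ex3_a k1_pm_202_a s9_pm_202_a

theorem s11_pm_202_a : ∃ t, chk3 f_pm_202_a t 6 2 1 = true := ex3_b s10_pm_202_a k5_pm_202_a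

theorem s12_pm_202_a : ∃ t, chk3 f_pm_202_a t 3 2 1 = true := ex3_a s11_pm_202_a k6_pm_202_a

theorem s13_pm_202_a : ∃ t, chk3 f_pm_202_a t 3 1 1 = true := ex3_b s12_pm_202_a k7_pm_202_a

theorem s14_pm_202_a : ∃ t, chk3 f_pm_202_a t 1 1 1 = true := ex3_a k0_pm_202_a s13_pm_202_a

theorem c_pm_202_a : CertF 0 536870912 0 536870912 134217728 67108864 true true false .pp 2 0 2
    ndF1q2a ndF2q0 pcF2 cut_pm_202_a Ext.none :=
  certF1 (fam := true) (s1 := true) (s2 := false) (a := 2) (b := 0) (c := 2) (cn := .pp) (n1 := ndF1q2a) (n2 := ndF2q0) (pc := pcF2) (cut := cut_pm_202_a) (xt := Ext.none) (P1 := 0) (W1 := 536870912) (P2 := 0) (W2 := 536870912) (P3 := 134217728) (W3 := 67108864)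
    rfl (fun _ => rfl) s14_pm_202_a

noncomputable def cut_pm_202_b : Cut := Cut.of [[⟨0, 1, 0, 67108864⟩, ⟨1, 0, 0, 67108864⟩, ⟨2, 1, 0, 67108864⟩]]

noncomputable def f_pm_202_b : ℕ → ℕ → ℕ → ℕ → Bool := onCell 1073741824 536870912 0 536870912 134217728 67108864
    (rowF 2 true true false .pp 2 0 2 (qsf 1239849684 370763052 0 536870912 2) ndF1q2b ndF2q0 pcF2 cut_pm_202_b Ext.none)

def k0_pm_202_b : ∃ t, chk3 f_pm_202_b t 1 1 1 = true :=
  ⟨(a (b (a (l 1) (b (b (a (a (a (l 1) (a (l 1) (b (a (l 1) (a (l 1) (b (c (l 16790832) (l 16543408)) (l 1)))) (l 1)))) (b (b (a (c (b (l 17060632) (l 17085832)) (l 16534072)) (c (l 17361464) (l 16675560))) (l 16627896)) (l 16661680))) (b (a (b (c (l 17676152) (a (l 16952440) (l 17183968))) (l 17147608)) (c (l 17948032) (b (l 17457704) (l 17420336)))) (a (l 17274984) (l 17601424)))) (a (l 1) (a (l 17154616) (l 17453096)))) (l 1))) (l 1)) (a (b (b (b (a (b (c (l 18240224) (l 17812136)) (l 17939176)) (l 18263664)) (a (l 17788528) (l 18090952)))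 (a (b (l 17568928) (l 1)) (l 17767064))) (l 1)) (b (b (b (l 18484392) (l 18347840)) (l 18071432)) (b (a (l 17539976) (l 17741816)) (l 1))))), by decide +kernel⟩

theorem c_pm_202_b : CertF 1239849684 370763052 0 536870912 134217728 67108864 true true false .pp 2 0 2
    ndF1q2b ndF2q0 pcF2 cut_pm_202_b Ext.none :=
  certF2 (fam := true) (s1 := true) (s2 := false) (a := 2) (b := 0) (c := 2) (cn := .pp) (n1 := ndF1q2b) (n2 := ndF2q0) (pc := pcF2) (cut := cut_pm_202_b) (xt := Ext.none) (P1 := 1239849684) (W1 := 370763052) (P2 := 0) (W2 := 536870912) (P3 := 134217728) (W3 := 67108864)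
    rfl (fun _ => rfl) k0_pm_202_b

noncomputable def f_pm_203_a : ℕ → ℕ → ℕ → ℕ → Bool := onCell 0 536870912 1610612736 536870912 134217728 67108864
    (rowF 1 true true false .up 2 0 3 (qsf 0 536870912 0 536870912 3) ndF1q2a ndF2q0 pcF3 Cut.none Ext.none)

def k0_pm_203_a : ∃ t, chk3 f_pm_203_a t 1 1 1 = true :=
  ⟨(b (b (a (b (l 17843192) (l 17773136)) (b (l 17956560) (l 17871864))) (a (l 17831248) (b (l 17807512) (l 2)))) (l 2)), by decide +kernel⟩

theorem c_pm_203_a : CertF 0 536870912 0 536870912 134217728 67108864 true true false .up 2 0 3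
    ndF1q2a ndF2q0 pcF3 Cut.none Ext.none :=
  certF1 (fam := true) (s1 := true) (s2 := false) (a := 2) (b := 0) (c := 3) (cn := .up) (n1 := ndF1q2a) (n2 := ndF2q0) (pc := pcF3) (cut := Cut.none) (xt := Ext.none) (P1 := 0) (W1 := 536870912) (P2 := 0) (W2 := 536870912) (P3 := 134217728) (W3 := 67108864)
    rfl (fun _ => rfl) k0_pm_203_a

noncomputable def f_pm_203_b : ℕ → ℕ → ℕ → ℕ → Bool := onCell 1239849684 370763052 1610612736 536870912 134217728 67108864
    (rowF 1 true true false .up 2 0 3 (qsf 1239849684 370763052 0 536870912 3) ndF1q2b ndF2q0 pcF3 Cut.none Ext.none)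

def k0_pm_203_b : ∃ t, chk3 f_pm_203_b t 1 1 1 = true :=
  ⟨(b (b (a (b (l 17984440) (l 17903680)) (b (a (l 18223320) (l 18251144)) (l 18216360))) (a (l 4) (l 18078016))) (l 4)), by decide +kernel⟩

theorem c_pm_203_b : CertF 1239849684 370763052 0 536870912 134217728 67108864 true true false .up 2 0 3
    ndF1q2b ndF2q0 pcF3 Cut.none Ext.none :=
  certF1 (fam := true) (s1 := true) (s2 := false) (a := 2) (b := 0) (c := 3) (cn := .up) (n1 := ndF1q2b) (n2 := ndF2q0) (pc := pcF3) (cut := Cut.none) (xt := Ext.none) (P1 := 1239849684) (W1 := 370763052) (P2 := 0) (W2 := 536870912) (P3 := 134217728) (W3 := 67108864)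
    rfl (fun _ => rfl) k0_pm_203_b

noncomputable def f_pm_213_a : ℕ → ℕ → ℕ → ℕ → Bool := onCell 0 536870912 1610612736 536870912 134217728 67108864
    (rowF 1 true true false .pnn 2 1 3 (qsf 0 536870912 536870912 536870912 3) ndF1q2a ndF2q1 pcF3 Cut.none Ext.none)

def k0_pm_213_a : ∃ t, chk3 f_pm_213_a t 1 1 1 = true :=
  ⟨(b (b (b (a (l 1) (l 17247064)) (a (l 17382936) (l 17343736))) (a (l 17148064) (b (l 17402744) (l 17397896)))) (b (l 4) (l 4))), by decide +kernel⟩

theorem c_pm_213_a : CertF 0 536870912 536870912 536870912 134217728 67108864 true true false .pnn 2 1 3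
    ndF1q2a ndF2q1 pcF3 Cut.none Ext.none :=
  certF1 (fam := true) (s1 := true) (s2 := false) (a := 2) (b := 1) (c := 3) (cn := .pnn) (n1 := ndF1q2a) (n2 := ndF2q1) (pc := pcF3) (cut := Cut.none) (xt := Ext.none) (P1 := 0) (W1 := 536870912) (P2 := 536870912) (W2 := 536870912) (P3 := 134217728) (W3 := 67108864)
    rfl (fun _ => rfl) k0_pm_213_a

noncomputable def f_pm_213_b : ℕ → ℕ → ℕ → ℕ → Bool := onCell 1239849684 370763052 536870912 536870912 134217728 67108864
    (rowF 0 true true false .pnn 2 1 3 (qsf 1239849684 370763052 536870912 536870912 3) ndF1q2b ndF2q1 pcF3 Cut.none Ext.none)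

def k0_pm_213_b : ∃ t, chk3 f_pm_213_b t 1 1 1 = true :=
  ⟨(l 4), by decide +kernel⟩

theorem c_pm_213_b : CertF 1239849684 370763052 536870912 536870912 134217728 67108864 true true false .pnn 2 1 3
    ndF1q2b ndF2q1 pcF3 Cut.none Ext.none :=
  certF0 (fam := true) (s1 := true) (s2 := false) (a := 2) (b := 1) (c := 3) (cn := .pnn) (n1 := ndF1q2b) (n2 := ndF2q1) (pc := pcF3) (cut := Cut.none) (xt := Ext.none) (P1 := 1239849684) (W1 := 370763052) (P2 := 536870912) (W2 := 536870912) (P3 := 134217728) (W3 := 67108864)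
    rfl k0_pm_213_b

noncomputable def f_pm_303 : ℕ → ℕ → ℕ → ℕ → Bool := onCell 1610612736 536870912 0 536870912 134217728 67108864
    (rowF 2 true true false .npn 3 0 3 (qsf 1610612736 536870912 0 536870912 3) ndF1q3 ndF2q0 pcF3 Cut.none Ext.none)

def k0_pm_303 : ∃ t, chk3 f_pm_303 t 1 1 1 = true :=
  ⟨(a (a (b (b (a (l 18152008) (l 18179136)) (l 18054552)) (l 1)) (b (a (b (l 18206184) (l 18080856)) (l 18062800)) (l 18033128))) (a (b (l 4) (l 4)) (l 4))), by decide +kernel⟩

theorem c_pm_303 : CertF 1610612736 536870912 0 536870912 134217728 67108864 true true false .npn 3 0 3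
    ndF1q3 ndF2q0 pcF3 Cut.none Ext.none :=
  certF2 (fam := true) (s1 := true) (s2 := false) (a := 3) (b := 0) (c := 3) (cn := .npn) (n1 := ndF1q3) (n2 := ndF2q0) (pc := pcF3) (cut := Cut.none) (xt := Ext.none) (P1 := 1610612736) (W1 := 536870912) (P2 := 0) (W2 := 536870912) (P3 := 134217728) (W3 := 67108864)
    rfl (fun _ => rfl) k0_pm_303

noncomputable def f_pm_313 : ℕ → ℕ → ℕ → ℕ → Bool := onCell 1610612736 536870912 536870912 536870912 134217728 67108864
    (rowF 0 true true false .dn 3 1 3 (qsf 1610612736 536870912 536870912 536870912 3) ndF1q3 ndF2q1 pcF3 Cut.none Ext.none)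

def k0_pm_313 : ∃ t, chk3 f_pm_313 t 1 1 1 = true :=
  ⟨(l 4), by decide +kernel⟩

theorem c_pm_313 : CertF 1610612736 536870912 536870912 536870912 134217728 67108864 true true false .dn 3 1 3
    ndF1q3 ndF2q1 pcF3 Cut.none Ext.none :=
  certF0 (fam := true) (s1 := true) (s2 := false) (a := 3) (b := 1) (c := 3) (cn := .dn) (n1 := ndF1q3) (n2 := ndF2q1) (pc := pcF3) (cut := Cut.none) (xt := Ext.none) (P1 := 1610612736) (W1 := 536870912) (P2 := 536870912) (W2 := 536870912) (P3 := 134217728) (W3 := 67108864)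
    rfl k0_pm_313

noncomputable def f_mm_001 : ℕ → ℕ → ℕ → ℕ → Bool := onCell 0 536870912 0 536870912 134217728 67108864
    (rowF 0 true false false .up 0 0 1 (qsf 0 536870912 0 536870912 1) ndF1q0 ndF2q0 pcF1 Cut.none Ext.none)

def k0_mm_001 : ∃ t, chk3 f_mm_001 t 1 1 1 = true :=
  ⟨(l 4), by decide +kernel⟩

theorem c_mm_001 : CertF 0 536870912 0 536870912 134217728 67108864 true false false .up 0 0 1
    ndF1q0 ndF2q0 pcF1 Cut.none Ext.none :=
  certF0 (fam := true) (s1 := false) (s2 := false) (a := 0) (b := 0) (c := 1) (cn := .up) (n1 := ndF1q0) (n2 := ndF2q0) (pc := pcF1) (cut := Cut.none) (xt := Ext.none) (P1 := 0) (W1 := 536870912) (P2 := 0) (W2 := 536870912) (P3 := 134217728) (W3 := 67108864)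
    rfl k0_mm_001

noncomputable def f_mm_011 : ℕ → ℕ → ℕ → ℕ → Bool := onCell 0 536870912 536870912 536870912 134217728 67108864
    (rowF 0 true false false .pnn 0 1 1 (qsf 0 536870912 536870912 536870912 1) ndF1q0 ndF2q1 pcF1 Cut.none Ext.none)

def k0_mm_011 : ∃ t, chk3 f_mm_011 t 1 1 1 = true :=
  ⟨(l 4), by decide +kernel⟩

theorem c_mm_011 : CertF 0 536870912 536870912 536870912 134217728 67108864 true false false .pnn 0 1 1
    ndF1q0 ndF2q1 pcF1 Cut.none Ext.none :=
  certF0 (fam := true) (s1 := false) (s2 := false) (a := 0) (b := 1) (c := 1) (cn := .pnn) (n1 := ndF1q0) (n2 := ndF2q1) (pc := pcF1) (cut := Cut.none) (xt := Ext.none) (P1 := 0) (W1 := 536870912) (P2 := 536870912) (W2 := 536870912) (P3 := 134217728) (W3 := 67108864)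
    rfl k0_mm_011

noncomputable def f_mm_012 : ℕ → ℕ → ℕ → ℕ → Bool := onCell 0 536870912 536870912 536870912 134217728 67108864
    (rowF 0 true false false .pnp 0 1 2 (qsf 0 536870912 536870912 536870912 2) ndF1q0 ndF2q1 pcF2 Cut.none Ext.none)

def k0_mm_012 : ∃ t, chk3 f_mm_012 t 1 1 1 = true :=
  ⟨(l 4), by decide +kernel⟩

theorem c_mm_012 : CertF 0 536870912 536870912 536870912 134217728 67108864 true false false .pnp 0 1 2
    ndF1q0 ndF2q1 pcF2 Cut.none Ext.none :=
  certF0 (fam := true) (s1 := false) (s2 := false) (a := 0) (b := 1) (c := 2) (cn := .pnp) (n1 := ndF1q0) (n2 := ndF2q1) (pc := pcF2) (cut := Cut.none) (xt := Ext.none) (P1 := 0) (W1 := 536870912) (P2 := 536870912) (W2 := 536870912) (P3 := 134217728) (W3 := 67108864)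
    rfl k0_mm_012

noncomputable def f_mm_022_a : ℕ → ℕ → ℕ → ℕ → Bool := onCell 0 536870912 0 536870912 134217728 67108864
    (rowF 0 true false false .pp 0 2 2 (qsf 0 536870912 0 536870912 2) ndF1q0 ndF2q2a pcF2 Cut.none Ext.none)

def k0_mm_022_a : ∃ t, chk3 f_mm_022_a t 1 1 1 = true :=
  ⟨(l 5), by decide +kernel⟩

theorem c_mm_022_a : CertF 0 536870912 0 536870912 134217728 67108864 true false false .pp 0 2 2
    ndF1q0 ndF2q2a pcF2 Cut.none Ext.none :=
  certF0 (fam := true) (s1 := false) (s2 := false) (a := 0) (b := 2) (c := 2) (cn := .pp) (n1 := ndF1q0) (n2 := ndF2q2a) (pc := pcF2) (cut := Cut.none) (xt := Ext.none) (P1 := 0) (W1 := 536870912) (P2 := 0) (W2 := 536870912) (P3 := 134217728) (W3 := 67108864)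
    rfl k0_mm_022_a

noncomputable def f_mm_022_b : ℕ → ℕ → ℕ → ℕ → Bool := onCell 0 536870912 1239849684 370763052 134217728 67108864
    (rowF 0 true false false .pp 0 2 2 (qsf 0 536870912 1239849684 370763052 2) ndF1q0 ndF2q2b pcF2 Cut.none Ext.none)

def k0_mm_022_b : ∃ t, chk3 f_mm_022_b t 1 1 1 = true :=
  ⟨(l 5), by decide +kernel⟩

theorem c_mm_022_b : CertF 0 536870912 1239849684 370763052 134217728 67108864 true false false .pp 0 2 2
    ndF1q0 ndF2q2b pcF2 Cut.none Ext.none :=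
  certF0 (fam := true) (s1 := false) (s2 := false) (a := 0) (b := 2) (c := 2) (cn := .pp) (n1 := ndF1q0) (n2 := ndF2q2b) (pc := pcF2) (cut := Cut.none) (xt := Ext.none) (P1 := 0) (W1 := 536870912) (P2 := 1239849684) (W2 := 370763052) (P3 := 134217728) (W3 := 67108864)
    rfl k0_mm_022_b

noncomputable def f_mm_023_a : ℕ → ℕ → ℕ → ℕ → Bool := onCell 0 536870912 0 536870912 134217728 67108864
    (rowF 0 true false false .up 0 2 3 (qsf 0 536870912 0 536870912 3) ndF1q0 ndF2q2a pcF3 Cut.none Ext.none)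

def k0_mm_023_a : ∃ t, chk3 f_mm_023_a t 1 1 1 = true :=
  ⟨(l 5), by decide +kernel⟩

theorem c_mm_023_a : CertF 0 536870912 0 536870912 134217728 67108864 true false false .up 0 2 3
    ndF1q0 ndF2q2a pcF3 Cut.none Ext.none :=
  certF0 (fam := true) (s1 := false) (s2 := false) (a := 0) (b := 2) (c := 3) (cn := .up) (n1 := ndF1q0) (n2 := ndF2q2a) (pc := pcF3) (cut := Cut.none) (xt := Ext.none) (P1 := 0) (W1 := 536870912) (P2 := 0) (W2 := 536870912) (P3 := 134217728) (W3 := 67108864)
    rfl k0_mm_023_a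

noncomputable def f_mm_023_b : ℕ → ℕ → ℕ → ℕ → Bool := onCell 0 536870912 1239849684 370763052 134217728 67108864
    (rowF 0 true false false .up 0 2 3 (qsf 0 536870912 1239849684 370763052 3) ndF1q0 ndF2q2b pcF3 Cut.none Ext.none)

def k0_mm_023_b : ∃ t, chk3 f_mm_023_b t 1 1 1 = true :=
  ⟨(l 5), by decide +kernel⟩

theorem c_mm_023_b : CertF 0 536870912 1239849684 370763052 134217728 67108864 true false false .up 0 2 3
    ndF1q0 ndF2q2b pcF3 Cut.none Ext.none :=
  certF0 (fam := true) (s1 := false) (s2 := false) (a := 0) (b := 2) (c := 3) (cn := .up) (n1 := ndF1q0) (n2 := ndF2q2b) (pc := pcF3) (cut := Cut.none) (xt := Ext.none) (P1 := 0) (W1 := 536870912) (P2 := 1239849684) (W2 := 370763052) (P3 := 134217728) (W3 := 67108864)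
    rfl k0_mm_023_b

noncomputable def f_mm_033 : ℕ → ℕ → ℕ → ℕ → Bool := onCell 0 536870912 1610612736 536870912 134217728 67108864
    (rowF 0 true false false .pnn 0 3 3 (qsf 0 536870912 1610612736 536870912 3) ndF1q0 ndF2q3 pcF3 Cut.none Ext.none)

def k0_mm_033 : ∃ t, chk3 f_mm_033 t 1 1 1 = true :=
  ⟨(l 4), by decide +kernel⟩

theorem c_mm_033 : CertF 0 536870912 1610612736 536870912 134217728 67108864 true false false .pnn 0 3 3
    ndF1q0 ndF2q3 pcF3 Cut.none Ext.none :=
  certF0 (fam := true) (s1 := false) (s2 := false) (a := 0) (b := 3) (c := 3) (cn := .pnn) (n1 := ndF1q0) (n2 := ndF2q3) (pc := pcF3) (cut := Cut.none) (xt := Ext.none) (P1 := 0) (W1 := 536870912) (P2 := 1610612736) (W2 := 536870912) (P3 := 134217728) (W3 := 67108864)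
    rfl k0_mm_033

noncomputable def f_mm_101 : ℕ → ℕ → ℕ → ℕ → Bool := onCell 536870912 536870912 0 536870912 134217728 67108864
    (rowF 0 true false false .npn 1 0 1 (qsf 536870912 536870912 0 536870912 1) ndF1q1 ndF2q0 pcF1 Cut.none Ext.none)

def k0_mm_101 : ∃ t, chk3 f_mm_101 t 1 1 1 = true :=
  ⟨(l 4), by decide +kernel⟩

theorem c_mm_101 : CertF 536870912 536870912 0 536870912 134217728 67108864 true false false .npn 1 0 1
    ndF1q1 ndF2q0 pcF1 Cut.none Ext.none :=
  certF0 (fam := true) (s1 := false) (s2 := false) (a := 1) (b := 0) (c := 1) (cn := .npn) (n1 := ndF1q1) (n2 := ndF2q0) (pc := pcF1) (cut := Cut.none) (xt := Ext.none) (P1 := 536870912) (W1 := 536870912) (P2 := 0) (W2 := 536870912) (P3 := 134217728) (W3 := 67108864)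
    rfl k0_mm_101

noncomputable def f_mm_102 : ℕ → ℕ → ℕ → ℕ → Bool := onCell 536870912 536870912 0 536870912 134217728 67108864
    (rowF 0 true false false .npp 1 0 2 (qsf 536870912 536870912 0 536870912 2) ndF1q1 ndF2q0 pcF2 Cut.none Ext.none)

def k0_mm_102 : ∃ t, chk3 f_mm_102 t 1 1 1 = true :=
  ⟨(l 4), by decide +kernel⟩

theorem c_mm_102 : CertF 536870912 536870912 0 536870912 134217728 67108864 true false false .npp 1 0 2
    ndF1q1 ndF2q0 pcF2 Cut.none Ext.none :=
  certF0 (fam := true) (s1 := false) (s2 := false) (a := 1) (b := 0) (c := 2) (cn := .npp) (n1 := ndF1q1) (n2 := ndF2q0) (pc := pcF2) (cut := Cut.none) (xt := Ext.none) (P1 := 536870912) (W1 := 536870912) (P2 := 0) (W2 := 536870912) (P3 := 134217728) (W3 := 67108864)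
    rfl k0_mm_102

noncomputable def f_mm_112 : ℕ → ℕ → ℕ → ℕ → Bool := onCell 536870912 536870912 536870912 536870912 134217728 67108864
    (rowF 0 true false false .dn 1 1 2 (qsf 536870912 536870912 536870912 536870912 2) ndF1q1 ndF2q1 pcF2 Cut.none Ext.none)

def k0_mm_112 : ∃ t, chk3 f_mm_112 t 1 1 1 = true :=
  ⟨(l 4), by decide +kernel⟩

theorem c_mm_112 : CertF 536870912 536870912 536870912 536870912 134217728 67108864 true false false .dn 1 1 2
    ndF1q1 ndF2q1 pcF2 Cut.none Ext.none :=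
  certF0 (fam := true) (s1 := false) (s2 := false) (a := 1) (b := 1) (c := 2) (cn := .dn) (n1 := ndF1q1) (n2 := ndF2q1) (pc := pcF2) (cut := Cut.none) (xt := Ext.none) (P1 := 536870912) (W1 := 536870912) (P2 := 536870912) (W2 := 536870912) (P3 := 134217728) (W3 := 67108864)
    rfl k0_mm_112

noncomputable def f_mm_113 : ℕ → ℕ → ℕ → ℕ → Bool := onCell 536870912 536870912 536870912 536870912 134217728 67108864
    (rowF 0 true false false .nn 1 1 3 (qsf 536870912 536870912 536870912 536870912 3) ndF1q1 ndF2q1 pcF3 Cut.none Ext.none)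

def k0_mm_113 : ∃ t, chk3 f_mm_113 t 1 1 1 = true :=
  ⟨(l 4), by decide +kernel⟩

theorem c_mm_113 : CertF 536870912 536870912 536870912 536870912 134217728 67108864 true false false .nn 1 1 3
    ndF1q1 ndF2q1 pcF3 Cut.none Ext.none :=
  certF0 (fam := true) (s1 := false) (s2 := false) (a := 1) (b := 1) (c := 3) (cn := .nn) (n1 := ndF1q1) (n2 := ndF2q1) (pc := pcF3) (cut := Cut.none) (xt := Ext.none) (P1 := 536870912) (W1 := 536870912) (P2 := 536870912) (W2 := 536870912) (P3 := 134217728) (W3 := 67108864)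
    rfl k0_mm_113

noncomputable def f_mm_123_a : ℕ → ℕ → ℕ → ℕ → Bool := onCell 536870912 536870912 0 536870912 134217728 67108864
    (rowF 0 true false false .npn 1 2 3 (qsf 536870912 536870912 0 536870912 3) ndF1q1 ndF2q2a pcF3 Cut.none Ext.none)

def k0_mm_123_a : ∃ t, chk3 f_mm_123_a t 1 1 1 = true :=
  ⟨(l 4), by decide +kernel⟩

theorem c_mm_123_a : CertF 536870912 536870912 0 536870912 134217728 67108864 true false false .npn 1 2 3
    ndF1q1 ndF2q2a pcF3 Cut.none Ext.none :=
  certF0 (fam := true) (s1 := false) (s2 := false) (a := 1) (b := 2) (c := 3) (cn := .npn) (n1 := ndF1q1) (n2 := ndF2q2a) (pc := pcF3) (cut := Cut.none) (xt := Ext.none) (P1 := 536870912) (W1 := 536870912) (P2 := 0) (W2 := 536870912) (P3 := 134217728) (W3 := 67108864)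
    rfl k0_mm_123_a

noncomputable def f_mm_123_b : ℕ → ℕ → ℕ → ℕ → Bool := onCell 536870912 536870912 1239849684 370763052 134217728 67108864
    (rowF 0 true false false .npn 1 2 3 (qsf 536870912 536870912 1239849684 370763052 3) ndF1q1 ndF2q2b pcF3 Cut.none Ext.none)

def k0_mm_123_b : ∃ t, chk3 f_mm_123_b t 1 1 1 = true :=
  ⟨(l 4), by decide +kernel⟩

theorem c_mm_123_b : CertF 536870912 536870912 1239849684 370763052 134217728 67108864 true false false .npn 1 2 3
    ndF1q1 ndF2q2b pcF3 Cut.none Ext.none :=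
  certF0 (fam := true) (s1 := false) (s2 := false) (a := 1) (b := 2) (c := 3) (cn := .npn) (n1 := ndF1q1) (n2 := ndF2q2b) (pc := pcF3) (cut := Cut.none) (xt := Ext.none) (P1 := 536870912) (W1 := 536870912) (P2 := 1239849684) (W2 := 370763052) (P3 := 134217728) (W3 := 67108864)
    rfl k0_mm_123_b

noncomputable def f_mm_133 : ℕ → ℕ → ℕ → ℕ → Bool := onCell 536870912 536870912 1610612736 536870912 134217728 67108864
    (rowF 0 true false false .dn 1 3 3 (qsf 536870912 536870912 1610612736 536870912 3) ndF1q1 ndF2q3 pcF3 Cut.none Ext.none)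

def k0_mm_133 : ∃ t, chk3 f_mm_133 t 1 1 1 = true :=
  ⟨(l 4), by decide +kernel⟩

theorem c_mm_133 : CertF 536870912 536870912 1610612736 536870912 134217728 67108864 true false false .dn 1 3 3
    ndF1q1 ndF2q3 pcF3 Cut.none Ext.none :=
  certF0 (fam := true) (s1 := false) (s2 := false) (a := 1) (b := 3) (c := 3) (cn := .dn) (n1 := ndF1q1) (n2 := ndF2q3) (pc := pcF3) (cut := Cut.none) (xt := Ext.none) (P1 := 536870912) (W1 := 536870912) (P2 := 1610612736) (W2 := 536870912) (P3 := 134217728) (W3 := 67108864)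
    rfl k0_mm_133

noncomputable def cut_mm_202_a : Cut := Cut.of [[⟨0, 1, 0, 67108864⟩, ⟨1, 0, 0, 67108864⟩, ⟨2, 1, 0, 67108864⟩]]

noncomputable def f_mm_202_a : ℕ → ℕ → ℕ → ℕ → Bool := onCell 0 536870912 0 536870912 134217728 67108864
    (rowF 0 true false false .pp 2 0 2 (qsf 0 536870912 0 536870912 2) ndF1q2a ndF2q0 pcF2 cut_mm_202_a Ext.none)

def k0_mm_202_a : ∃ t, chk3 f_mm_202_a t 1 1 1 = true :=
  ⟨(b (a (b (b (a (c (b (b (a (l 16847880) (b (l 16855896) (l 17029112))) (l 17209024)) (l 17380008)) (b (b (a (l 16581696) (l 16582768)) (l 16604144)) (l 16915976))) (b (b (a (b (c (a (l 16756656) (l 16614920)) (l 16591856)) (l 16592968)) (b (c (a (l 16607696) (l 16615872)) (l 16626808)) (l 16628016))) (a (l 16713736) (l 16605232))) (a (l 17016096) (b (l 16737464) (l 4))))) (a (b (l 17304656) (l 17357264)) (l 4))) (l 4)) (b (b (a (b (a (b (b (c (a (l 16625712) (l 16647832)) (a (l 16620560) (l 16632856))) (c (l 16630176) (l 16625240))) (a (l 16620944) (l 16638096))) (b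 (a (b (c (b (l 16672344) (l 16650688)) (l 16668208)) (l 16647952)) (b (c (b (a (l 16662968) (l 16671464)) (l 16666552)) (b (l 16685152) (l 16663584))) (l 16685648))) (a (l 16682216) (l 16731720)))) (a (b (l 16685256) (l 4)) (l 4))) (b (b (a (b (a (b (c (a (l 16680592) (b (l 16690608) (l 16690296))) (a (l 16678128) (l 16688344))) (c (l 16684880) (l 16682696))) (b (l 6) (c (l 16727952) (l 16726568)))) (a (b (l 16704984) (l 16710976)) (a (l 16730496) (l 16758496)))) (l 6)) (l 4)) (l 4))) (l 4)) (l 4))) (l 4)), by decide +kernel⟩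

theorem c_mm_202_a : CertF 0 536870912 0 536870912 134217728 67108864 true false false .pp 2 0 2
    ndF1q2a ndF2q0 pcF2 cut_mm_202_a Ext.none :=
  certF0 (fam := true) (s1 := false) (s2 := false) (a := 2) (b := 0) (c := 2) (cn := .pp) (n1 := ndF1q2a) (n2 := ndF2q0) (pc := pcF2) (cut := cut_mm_202_a) (xt := Ext.none) (P1 := 0) (W1 := 536870912) (P2 := 0) (W2 := 536870912) (P3 := 134217728) (W3 := 67108864)
    rfl k0_mm_202_a

noncomputable def cut_mm_202_b : Cut := Cut.of [[⟨0, 1, 0, 67108864⟩, ⟨1, 0, 0, 67108864⟩, ⟨2, 1, 0, 67108864⟩]]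

noncomputable def f_mm_202_b : ℕ → ℕ → ℕ → ℕ → Bool := onCell 1239849684 370763052 0 536870912 134217728 67108864
    (rowF 0 true false false .pp 2 0 2 (qsf 1239849684 370763052 0 536870912 2) ndF1q2b ndF2q0 pcF2 cut_mm_202_b Ext.none)

def k0_mm_202_b : ∃ t, chk3 f_mm_202_b t 1 1 1 = true :=
  ⟨(b (a (b (a (b (b (a (a (b (c (b (l 17210304) (l 17300864)) (l 16584032)) (l 17119952)) (b (c (l 17558640) (l 16955648)) (l 17386584))) (b (c (l 17890552) (l 17370976)) (l 17694808))) (a (b (l 17368472) (l 17439088)) (l 17744784))) (b (a (l 17496888) (l 17758064)) (l 17843072))) (b (b (a (b (l 17969168) (l 17984136)) (l 18182992)) (a (l 17981984) (l 18143040))) (b (l 18020632) (l 4)))) (l 4)) (b (b (a (b (a (l 18313280) (l 18386464)) (l 18277600)) (b (l 18417816) (l 4))) (l 4)) (l 4))) (l 4)), by decide +kernel⟩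

theorem c_mm_202_b : CertF 1239849684 370763052 0 536870912 134217728 67108864 true false false .pp 2 0 2
    ndF1q2b ndF2q0 pcF2 cut_mm_202_b Ext.none :=
  certF0 (fam := true) (s1 := false) (s2 := false) (a := 2) (b := 0) (c := 2) (cn := .pp) (n1 := ndF1q2b) (n2 := ndF2q0) (pc := pcF2) (cut := cut_mm_202_b) (xt := Ext.none) (P1 := 1239849684) (W1 := 370763052) (P2 := 0) (W2 := 536870912) (P3 := 134217728) (W3 := 67108864)
    rfl k0_mm_202_b

noncomputable def f_mm_203_a : ℕ → ℕ → ℕ → ℕ → Bool := onCell 0 536870912 1610612736 536870912 134217728 67108864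
    (rowF 1 true false false .up 2 0 3 (qsf 0 536870912 0 536870912 3) ndF1q2a ndF2q0 pcF3 Cut.none Ext.none)

def k0_mm_203_a : ∃ t, chk3 f_mm_203_a t 1 1 1 = true :=
  ⟨(l 4), by decide +kernel⟩

theorem c_mm_203_a : CertF 0 536870912 0 536870912 134217728 67108864 true false false .up 2 0 3
    ndF1q2a ndF2q0 pcF3 Cut.none Ext.none :=
  certF1 (fam := true) (s1 := false) (s2 := false) (a := 2) (b := 0) (c := 3) (cn := .up) (n1 := ndF1q2a) (n2 := ndF2q0) (pc := pcF3) (cut := Cut.none) (xt := Ext.none) (P1 := 0) (W1 := 536870912) (P2 := 0) (W2 := 536870912) (P3 := 134217728) (W3 := 67108864)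
    rfl (fun _ => rfl) k0_mm_203_a

noncomputable def f_mm_203_b : ℕ → ℕ → ℕ → ℕ → Bool := onCell 1239849684 370763052 1610612736 536870912 134217728 67108864
    (rowF 1 true false false .up 2 0 3 (qsf 1239849684 370763052 0 536870912 3) ndF1q2b ndF2q0 pcF3 Cut.none Ext.none)

def k0_mm_203_b : ∃ t, chk3 f_mm_203_b t 1 1 1 = true :=
  ⟨(b (b (l 4) (l 4)) (l 4)), by decide +kernel⟩

theorem c_mm_203_b : CertF 1239849684 370763052 0 536870912 134217728 67108864 true false false .up 2 0 3
    ndF1q2b ndF2q0 pcF3 Cut.none Ext.none :=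
  certF1 (fam := true) (s1 := false) (s2 := false) (a := 2) (b := 0) (c := 3) (cn := .up) (n1 := ndF1q2b) (n2 := ndF2q0) (pc := pcF3) (cut := Cut.none) (xt := Ext.none) (P1 := 1239849684) (W1 := 370763052) (P2 := 0) (W2 := 536870912) (P3 := 134217728) (W3 := 67108864)
    rfl (fun _ => rfl) k0_mm_203_b

noncomputable def f_mm_213_a : ℕ → ℕ → ℕ → ℕ → Bool := onCell 0 536870912 536870912 536870912 134217728 67108864
    (rowF 0 true false false .pnn 2 1 3 (qsf 0 536870912 536870912 536870912 3) ndF1q2a ndF2q1 pcF3 Cut.none Ext.none)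

def k0_mm_213_a : ∃ t, chk3 f_mm_213_a t 1 1 1 = true :=
  ⟨(l 4), by decide +kernel⟩

theorem c_mm_213_a : CertF 0 536870912 536870912 536870912 134217728 67108864 true false false .pnn 2 1 3
    ndF1q2a ndF2q1 pcF3 Cut.none Ext.none :=
  certF0 (fam := true) (s1 := false) (s2 := false) (a := 2) (b := 1) (c := 3) (cn := .pnn) (n1 := ndF1q2a) (n2 := ndF2q1) (pc := pcF3) (cut := Cut.none) (xt := Ext.none) (P1 := 0) (W1 := 536870912) (P2 := 536870912) (W2 := 536870912) (P3 := 134217728) (W3 := 67108864)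
    rfl k0_mm_213_a

noncomputable def f_mm_213_b : ℕ → ℕ → ℕ → ℕ → Bool := onCell 1239849684 370763052 536870912 536870912 134217728 67108864
    (rowF 0 true false false .pnn 2 1 3 (qsf 1239849684 370763052 536870912 536870912 3) ndF1q2b ndF2q1 pcF3 Cut.none Ext.none)

def k0_mm_213_b : ∃ t, chk3 f_mm_213_b t 1 1 1 = true :=
  ⟨(l 4), by decide +kernel⟩

theorem c_mm_213_b : CertF 1239849684 370763052 536870912 536870912 134217728 67108864 true false false .pnn 2 1 3
    ndF1q2b ndF2q1 pcF3 Cut.none Ext.none :=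
  certF0 (fam := true) (s1 := false) (s2 := false) (a := 2) (b := 1) (c := 3) (cn := .pnn) (n1 := ndF1q2b) (n2 := ndF2q1) (pc := pcF3) (cut := Cut.none) (xt := Ext.none) (P1 := 1239849684) (W1 := 370763052) (P2 := 536870912) (W2 := 536870912) (P3 := 134217728) (W3 := 67108864)
    rfl k0_mm_213_b

noncomputable def f_mm_303 : ℕ → ℕ → ℕ → ℕ → Bool := onCell 1610612736 536870912 0 536870912 134217728 67108864
    (rowF 0 true false false .npn 3 0 3 (qsf 1610612736 536870912 0 536870912 3) ndF1q3 ndF2q0 pcF3 Cut.none Ext.none)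

def k0_mm_303 : ∃ t, chk3 f_mm_303 t 1 1 1 = true :=
  ⟨(a (b (l 4) (l 4)) (l 4)), by decide +kernel⟩

theorem c_mm_303 : CertF 1610612736 536870912 0 536870912 134217728 67108864 true false false .npn 3 0 3
    ndF1q3 ndF2q0 pcF3 Cut.none Ext.none :=
  certF0 (fam := true) (s1 := false) (s2 := false) (a := 3) (b := 0) (c := 3) (cn := .npn) (n1 := ndF1q3) (n2 := ndF2q0) (pc := pcF3) (cut := Cut.none) (xt := Ext.none) (P1 := 1610612736) (W1 := 536870912) (P2 := 0) (W2 := 536870912) (P3 := 134217728) (W3 := 67108864)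
    rfl k0_mm_303

noncomputable def f_mm_313 : ℕ → ℕ → ℕ → ℕ → Bool := onCell 1610612736 536870912 536870912 536870912 134217728 67108864
    (rowF 0 true false false .dn 3 1 3 (qsf 1610612736 536870912 536870912 536870912 3) ndF1q3 ndF2q1 pcF3 Cut.none Ext.none)

def k0_mm_313 : ∃ t, chk3 f_mm_313 t 1 1 1 = true :=
  ⟨(l 4), by decide +kernel⟩

theorem c_mm_313 : CertF 1610612736 536870912 536870912 536870912 134217728 67108864 true false false .dn 3 1 3
    ndF1q3 ndF2q1 pcF3 Cut.none Ext.none :=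
  certF0 (fam := true) (s1 := false) (s2 := false) (a := 3) (b := 1) (c := 3) (cn := .dn) (n1 := ndF1q3) (n2 := ndF2q1) (pc := pcF3) (cut := Cut.none) (xt := Ext.none) (P1 := 1610612736) (W1 := 536870912) (P2 := 536870912) (W2 := 536870912) (P3 := 134217728) (W3 := 67108864)
    rfl k0_mm_313

end Pool.Agent.Strip051.G.I1_8_3_16.Tab.C.FA12

namespace Pool.Agent.Strip051.G.I1_8_3_16.Tab.C.FA13

open Pool.Agent.Strip051.PB Pool.Agent.Strip051.PB.T
open Pool.Agent.Strip051.G.I1_8_3_16.Tab

noncomputable def f_pp_001 : ℕ → ℕ → ℕ → ℕ → Bool := onCell 0 536870912 0 536870912 134217728 67108864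
    (rowF 0 true true true .up 0 0 1 (qsf 0 536870912 0 536870912 1) ndF1q0 ndF3q0 pcF1 Cut.none Ext.none)

def k0_pp_001 : ∃ t, chk3 f_pp_001 t 1 1 1 = true :=
  ⟨(l 4), by decide +kernel⟩

theorem c_pp_001 : CertF 0 536870912 0 536870912 134217728 67108864 true true true .up 0 0 1
    ndF1q0 ndF3q0 pcF1 Cut.none Ext.none :=
  certF0 (fam := true) (s1 := true) (s2 := true) (a := 0) (b := 0) (c := 1) (cn := .up) (n1 := ndF1q0) (n2 := ndF3q0) (pc := pcF1) (cut := Cut.none) (xt := Ext.none) (P1 := 0) (W1 := 536870912) (P2 := 0) (W2 := 536870912) (P3 := 134217728) (W3 := 67108864)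
    rfl k0_pp_001

noncomputable def f_pp_011 : ℕ → ℕ → ℕ → ℕ → Bool := onCell 0 536870912 536870912 536870912 134217728 67108864
    (rowF 0 true true true .pnn 0 1 1 (qsf 0 536870912 536870912 536870912 1) ndF1q0 ndF3q1 pcF1 Cut.none Ext.none)

def k0_pp_011 : ∃ t, chk3 f_pp_011 t 1 1 1 = true :=
  ⟨(l 4), by decide +kernel⟩

theorem c_pp_011 : CertF 0 536870912 536870912 536870912 134217728 67108864 true true true .pnn 0 1 1
    ndF1q0 ndF3q1 pcF1 Cut.none Ext.none :=
  certF0 (fam := true) (s1 := true) (s2 := true) (a := 0) (b := 1) (c := 1) (cn := .pnn) (n1 := ndF1q0) (n2 := ndF3q1) (pc := pcF1) (cut := Cut.none) (xt := Ext.none) (P1 := 0) (W1 := 536870912) (P2 := 536870912) (W2 := 536870912) (P3 := 134217728) (W3 := 67108864)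
    rfl k0_pp_011

noncomputable def f_pp_012 : ℕ → ℕ → ℕ → ℕ → Bool := onCell 0 536870912 536870912 536870912 134217728 67108864
    (rowF 0 true true true .pnp 0 1 2 (qsf 0 536870912 536870912 536870912 2) ndF1q0 ndF3q1 pcF2 Cut.none Ext.none)

def k0_pp_012 : ∃ t, chk3 f_pp_012 t 1 1 1 = true :=
  ⟨(l 4), by decide +kernel⟩

theorem c_pp_012 : CertF 0 536870912 536870912 536870912 134217728 67108864 true true true .pnp 0 1 2
    ndF1q0 ndF3q1 pcF2 Cut.none Ext.none :=
  certF0 (fam := true) (s1 := true) (s2 := true) (a := 0) (b := 1) (c := 2) (cn := .pnp) (n1 := ndF1q0) (n2 := ndF3q1) (pc := pcF2) (cut := Cut.none) (xt := Ext.none) (P1 := 0) (W1 := 536870912) (P2 := 536870912) (W2 := 536870912) (P3 := 134217728) (W3 := 67108864)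
    rfl k0_pp_012

noncomputable def f_pp_022 : ℕ → ℕ → ℕ → ℕ → Bool := onCell 0 536870912 1073741824 536870912 134217728 67108864
    (rowF 0 true true true .pp 0 2 2 (qsf 0 536870912 1073741824 536870912 2) ndF1q0 ndF3q2 pcF2 Cut.none Ext.none)

def k0_pp_022 : ∃ t, chk3 f_pp_022 t 1 1 1 = true :=
  ⟨(l 4), by decide +kernel⟩

theorem c_pp_022 : CertF 0 536870912 1073741824 536870912 134217728 67108864 true true true .pp 0 2 2
    ndF1q0 ndF3q2 pcF2 Cut.none Ext.none :=
  certF0 (fam := true) (s1 := true) (s2 := true) (a := 0) (b := 2) (c := 2) (cn := .pp) (n1 := ndF1q0) (n2 := ndF3q2) (pc := pcF2) (cut := Cut.none) (xt := Ext.none) (P1 := 0) (W1 := 536870912) (P2 := 1073741824) (W2 := 536870912) (P3 := 134217728) (W3 := 67108864)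
    rfl k0_pp_022

noncomputable def f_pp_023 : ℕ → ℕ → ℕ → ℕ → Bool := onCell 0 536870912 1073741824 536870912 134217728 67108864
    (rowF 0 true true true .up 0 2 3 (qsf 0 536870912 1073741824 536870912 3) ndF1q0 ndF3q2 pcF3 Cut.none Ext.none)

def k0_pp_023 : ∃ t, chk3 f_pp_023 t 1 1 1 = true :=
  ⟨(l 4), by decide +kernel⟩

theorem c_pp_023 : CertF 0 536870912 1073741824 536870912 134217728 67108864 true true true .up 0 2 3
    ndF1q0 ndF3q2 pcF3 Cut.none Ext.none :=
  certF0 (fam := true) (s1 := true) (s2 := true) (a := 0) (b := 2) (c := 3) (cn := .up) (n1 := ndF1q0) (n2 := ndF3q2) (pc := pcF3) (cut := Cut.none) (xt := Ext.none) (P1 := 0) (W1 := 536870912) (P2 := 1073741824) (W2 := 536870912) (P3 := 134217728) (W3 := 67108864)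
    rfl k0_pp_023

noncomputable def f_pp_033 : ℕ → ℕ → ℕ → ℕ → Bool := onCell 0 536870912 0 1230186008 134217728 67108864
    (rowF 0 true true true .pnn 0 3 3 (qsf 0 536870912 0 1230186008 3) ndF1q0 ndF3q3 pcF3 Cut.none Ext.none)

def k0_pp_033 : ∃ t, chk3 f_pp_033 t 1 1 1 = true :=
  ⟨(b (l 4) (l 4)), by decide +kernel⟩

theorem c_pp_033 : CertF 0 536870912 0 1230186008 134217728 67108864 true true true .pnn 0 3 3
    ndF1q0 ndF3q3 pcF3 Cut.none Ext.none :=
  certF0 (fam := true) (s1 := true) (s2 := true) (a := 0) (b := 3) (c := 3) (cn := .pnn) (n1 := ndF1q0) (n2 := ndF3q3) (pc := pcF3) (cut := Cut.none) (xt := Ext.none) (P1 := 0) (W1 := 536870912) (P2 := 0) (W2 := 1230186008) (P3 := 134217728) (W3 := 67108864)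
    rfl k0_pp_033

noncomputable def f_pp_101 : ℕ → ℕ → ℕ → ℕ → Bool := onCell 536870912 536870912 0 536870912 134217728 67108864
    (rowF 0 true true true .npn 1 0 1 (qsf 536870912 536870912 0 536870912 1) ndF1q1 ndF3q0 pcF1 Cut.none Ext.none)

def k0_pp_101 : ∃ t, chk3 f_pp_101 t 1 1 1 = true :=
  ⟨(l 4), by decide +kernel⟩

theorem c_pp_101 : CertF 536870912 536870912 0 536870912 134217728 67108864 true true true .npn 1 0 1
    ndF1q1 ndF3q0 pcF1 Cut.none Ext.none :=
  certF0 (fam := true) (s1 := true) (s2 := true) (a := 1) (b := 0) (c := 1) (cn := .npn) (n1 := ndF1q1) (n2 := ndF3q0) (pc := pcF1) (cut := Cut.none) (xt := Ext.none) (P1 := 536870912) (W1 := 536870912) (P2 := 0) (W2 := 536870912) (P3 := 134217728) (W3 := 67108864)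
    rfl k0_pp_101

noncomputable def f_pp_102 : ℕ → ℕ → ℕ → ℕ → Bool := onCell 536870912 536870912 0 536870912 134217728 67108864
    (rowF 0 true true true .npp 1 0 2 (qsf 536870912 536870912 0 536870912 2) ndF1q1 ndF3q0 pcF2 Cut.none Ext.none)

def k0_pp_102 : ∃ t, chk3 f_pp_102 t 1 1 1 = true :=
  ⟨(l 4), by decide +kernel⟩

theorem c_pp_102 : CertF 536870912 536870912 0 536870912 134217728 67108864 true true true .npp 1 0 2
    ndF1q1 ndF3q0 pcF2 Cut.none Ext.none :=
  certF0 (fam := true) (s1 := true) (s2 := true) (a := 1) (b := 0) (c := 2) (cn := .npp) (n1 := ndF1q1) (n2 := ndF3q0) (pc := pcF2) (cut := Cut.none) (xt := Ext.none) (P1 := 536870912) (W1 := 536870912) (P2 := 0) (W2 := 536870912) (P3 := 134217728) (W3 := 67108864)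
    rfl k0_pp_102

noncomputable def f_pp_112 : ℕ → ℕ → ℕ → ℕ → Bool := onCell 536870912 536870912 536870912 536870912 134217728 67108864
    (rowF 0 true true true .dn 1 1 2 (qsf 536870912 536870912 536870912 536870912 2) ndF1q1 ndF3q1 pcF2 Cut.none Ext.none)

def k0_pp_112 : ∃ t, chk3 f_pp_112 t 1 1 1 = true :=
  ⟨(l 4), by decide +kernel⟩

theorem c_pp_112 : CertF 536870912 536870912 536870912 536870912 134217728 67108864 true true true .dn 1 1 2
    ndF1q1 ndF3q1 pcF2 Cut.none Ext.none :=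
  certF0 (fam := true) (s1 := true) (s2 := true) (a := 1) (b := 1) (c := 2) (cn := .dn) (n1 := ndF1q1) (n2 := ndF3q1) (pc := pcF2) (cut := Cut.none) (xt := Ext.none) (P1 := 536870912) (W1 := 536870912) (P2 := 536870912) (W2 := 536870912) (P3 := 134217728) (W3 := 67108864)
    rfl k0_pp_112

noncomputable def f_pp_113 : ℕ → ℕ → ℕ → ℕ → Bool := onCell 536870912 536870912 536870912 536870912 134217728 67108864
    (rowF 0 true true true .nn 1 1 3 (qsf 536870912 536870912 536870912 536870912 3) ndF1q1 ndF3q1 pcF3 Cut.none Ext.none)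

def k0_pp_113 : ∃ t, chk3 f_pp_113 t 1 1 1 = true :=
  ⟨(l 4), by decide +kernel⟩

theorem c_pp_113 : CertF 536870912 536870912 536870912 536870912 134217728 67108864 true true true .nn 1 1 3
    ndF1q1 ndF3q1 pcF3 Cut.none Ext.none :=
  certF0 (fam := true) (s1 := true) (s2 := true) (a := 1) (b := 1) (c := 3) (cn := .nn) (n1 := ndF1q1) (n2 := ndF3q1) (pc := pcF3) (cut := Cut.none) (xt := Ext.none) (P1 := 536870912) (W1 := 536870912) (P2 := 536870912) (W2 := 536870912) (P3 := 134217728) (W3 := 67108864)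
    rfl k0_pp_113

noncomputable def f_pp_123 : ℕ → ℕ → ℕ → ℕ → Bool := onCell 536870912 536870912 1073741824 536870912 134217728 67108864
    (rowF 0 true true true .npn 1 2 3 (qsf 536870912 536870912 1073741824 536870912 3) ndF1q1 ndF3q2 pcF3 Cut.none Ext.none)

def k0_pp_123 : ∃ t, chk3 f_pp_123 t 1 1 1 = true :=
  ⟨(l 4), by decide +kernel⟩

theorem c_pp_123 : CertF 536870912 536870912 1073741824 536870912 134217728 67108864 true true true .npn 1 2 3
    ndF1q1 ndF3q2 pcF3 Cut.none Ext.none :=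
  certF0 (fam := true) (s1 := true) (s2 := true) (a := 1) (b := 2) (c := 3) (cn := .npn) (n1 := ndF1q1) (n2 := ndF3q2) (pc := pcF3) (cut := Cut.none) (xt := Ext.none) (P1 := 536870912) (W1 := 536870912) (P2 := 1073741824) (W2 := 536870912) (P3 := 134217728) (W3 := 67108864)
    rfl k0_pp_123

noncomputable def f_pp_133 : ℕ → ℕ → ℕ → ℕ → Bool := onCell 536870912 536870912 0 1230186008 134217728 67108864
    (rowF 0 true true true .dn 1 3 3 (qsf 536870912 536870912 0 1230186008 3) ndF1q1 ndF3q3 pcF3 Cut.none Ext.none)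

def k0_pp_133 : ∃ t, chk3 f_pp_133 t 1 1 1 = true :=
  ⟨(l 4), by decide +kernel⟩

theorem c_pp_133 : CertF 536870912 536870912 0 1230186008 134217728 67108864 true true true .dn 1 3 3
    ndF1q1 ndF3q3 pcF3 Cut.none Ext.none :=
  certF0 (fam := true) (s1 := true) (s2 := true) (a := 1) (b := 3) (c := 3) (cn := .dn) (n1 := ndF1q1) (n2 := ndF3q3) (pc := pcF3) (cut := Cut.none) (xt := Ext.none) (P1 := 536870912) (W1 := 536870912) (P2 := 0) (W2 := 1230186008) (P3 := 134217728) (W3 := 67108864)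
    rfl k0_pp_133

noncomputable def f_pp_202_a : ℕ → ℕ → ℕ → ℕ → Bool := onCell 0 536870912 0 536870912 134217728 67108864
    (rowF 0 true true true .pp 2 0 2 (qsf 0 536870912 0 536870912 2) ndF1q2a ndF3q0 pcF2 Cut.none Ext.none)

def k0_pp_202_a : ∃ t, chk3 f_pp_202_a t 1 1 1 = true :=
  ⟨(l 5), by decide +kernel⟩

theorem c_pp_202_a : CertF 0 536870912 0 536870912 134217728 67108864 true true true .pp 2 0 2
    ndF1q2a ndF3q0 pcF2 Cut.none Ext.none :=
  certF0 (fam := true) (s1 := true) (s2 := true) (a := 2) (b := 0) (c := 2) (cn := .pp) (n1 := ndF1q2a) (n2 := ndF3q0) (pc := pcF2) (cut := Cut.none) (xt := Ext.none) (P1 := 0) (W1 := 536870912) (P2 := 0) (W2 := 536870912) (P3 := 134217728) (W3 := 67108864)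
    rfl k0_pp_202_a

noncomputable def f_pp_202_b : ℕ → ℕ → ℕ → ℕ → Bool := onCell 1239849684 370763052 0 536870912 134217728 67108864
    (rowF 0 true true true .pp 2 0 2 (qsf 1239849684 370763052 0 536870912 2) ndF1q2b ndF3q0 pcF2 Cut.none Ext.none)

def k0_pp_202_b : ∃ t, chk3 f_pp_202_b t 1 1 1 = true :=
  ⟨(l 5), by decide +kernel⟩

theorem c_pp_202_b : CertF 1239849684 370763052 0 536870912 134217728 67108864 true true true .pp 2 0 2
    ndF1q2b ndF3q0 pcF2 Cut.none Ext.none :=
  certF0 (fam := true) (s1 := true) (s2 := true) (a := 2) (b := 0) (c := 2) (cn := .pp) (n1 := ndF1q2b) (n2 := ndF3q0) (pc := pcF2) (cut := Cut.none) (xt := Ext.none) (P1 := 1239849684) (W1 := 370763052) (P2 := 0) (W2 := 536870912) (P3 := 134217728) (W3 := 67108864)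
    rfl k0_pp_202_b

noncomputable def f_pp_203_a : ℕ → ℕ → ℕ → ℕ → Bool := onCell 0 536870912 0 536870912 134217728 67108864
    (rowF 0 true true true .up 2 0 3 (qsf 0 536870912 0 536870912 3) ndF1q2a ndF3q0 pcF3 Cut.none Ext.none)

def k0_pp_203_a : ∃ t, chk3 f_pp_203_a t 1 1 1 = true :=
  ⟨(l 5), by decide +kernel⟩

theorem c_pp_203_a : CertF 0 536870912 0 536870912 134217728 67108864 true true true .up 2 0 3
    ndF1q2a ndF3q0 pcF3 Cut.none Ext.none :=
  certF0 (fam := true) (s1 := true) (s2 := true) (a := 2) (b := 0) (c := 3) (cn := .up) (n1 := ndF1q2a) (n2 := ndF3q0) (pc := pcF3) (cut := Cut.none) (xt := Ext.none) (P1 := 0) (W1 := 536870912) (P2 := 0) (W2 := 536870912) (P3 := 134217728) (W3 := 67108864)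
    rfl k0_pp_203_a

noncomputable def f_pp_203_b : ℕ → ℕ → ℕ → ℕ → Bool := onCell 1239849684 370763052 0 536870912 134217728 67108864
    (rowF 0 true true true .up 2 0 3 (qsf 1239849684 370763052 0 536870912 3) ndF1q2b ndF3q0 pcF3 Cut.none Ext.none)

def k0_pp_203_b : ∃ t, chk3 f_pp_203_b t 1 1 1 = true :=
  ⟨(l 5), by decide +kernel⟩

theorem c_pp_203_b : CertF 1239849684 370763052 0 536870912 134217728 67108864 true true true .up 2 0 3
    ndF1q2b ndF3q0 pcF3 Cut.none Ext.none :=
  certF0 (fam := true) (s1 := true) (s2 := true) (a := 2) (b := 0) (c := 3) (cn := .up) (n1 := ndF1q2b) (n2 := ndF3q0) (pc := pcF3) (cut := Cut.none) (xt := Ext.none) (P1 := 1239849684) (W1 := 370763052) (P2 := 0) (W2 := 536870912) (P3 := 134217728) (W3 := 67108864)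
    rfl k0_pp_203_b

noncomputable def f_pp_213_a : ℕ → ℕ → ℕ → ℕ → Bool := onCell 0 536870912 536870912 536870912 134217728 67108864
    (rowF 0 true true true .pnn 2 1 3 (qsf 0 536870912 536870912 536870912 3) ndF1q2a ndF3q1 pcF3 Cut.none Ext.none)

def k0_pp_213_a : ∃ t, chk3 f_pp_213_a t 1 1 1 = true :=
  ⟨(l 4), by decide +kernel⟩

theorem c_pp_213_a : CertF 0 536870912 536870912 536870912 134217728 67108864 true true true .pnn 2 1 3
    ndF1q2a ndF3q1 pcF3 Cut.none Ext.none :=
  certF0 (fam := true) (s1 := true) (s2 := true) (a := 2) (b := 1) (c := 3) (cn := .pnn) (n1 := ndF1q2a) (n2 := ndF3q1) (pc := pcF3) (cut := Cut.none) (xt := Ext.none) (P1 := 0) (W1 := 536870912) (P2 := 536870912) (W2 := 536870912) (P3 := 134217728) (W3 := 67108864)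
    rfl k0_pp_213_a

noncomputable def f_pp_213_b : ℕ → ℕ → ℕ → ℕ → Bool := onCell 1239849684 370763052 536870912 536870912 134217728 67108864
    (rowF 0 true true true .pnn 2 1 3 (qsf 1239849684 370763052 536870912 536870912 3) ndF1q2b ndF3q1 pcF3 Cut.none Ext.none)

def k0_pp_213_b : ∃ t, chk3 f_pp_213_b t 1 1 1 = true :=
  ⟨(l 4), by decide +kernel⟩

theorem c_pp_213_b : CertF 1239849684 370763052 536870912 536870912 134217728 67108864 true true true .pnn 2 1 3
    ndF1q2b ndF3q1 pcF3 Cut.none Ext.none :=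
  certF0 (fam := true) (s1 := true) (s2 := true) (a := 2) (b := 1) (c := 3) (cn := .pnn) (n1 := ndF1q2b) (n2 := ndF3q1) (pc := pcF3) (cut := Cut.none) (xt := Ext.none) (P1 := 1239849684) (W1 := 370763052) (P2 := 536870912) (W2 := 536870912) (P3 := 134217728) (W3 := 67108864)
    rfl k0_pp_213_b

noncomputable def f_pp_303 : ℕ → ℕ → ℕ → ℕ → Bool := onCell 1610612736 536870912 0 536870912 134217728 67108864
    (rowF 0 true true true .npn 3 0 3 (qsf 1610612736 536870912 0 536870912 3) ndF1q3 ndF3q0 pcF3 Cut.none Ext.none)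

def k0_pp_303 : ∃ t, chk3 f_pp_303 t 1 1 1 = true :=
  ⟨(l 4), by decide +kernel⟩

theorem c_pp_303 : CertF 1610612736 536870912 0 536870912 134217728 67108864 true true true .npn 3 0 3
    ndF1q3 ndF3q0 pcF3 Cut.none Ext.none :=
  certF0 (fam := true) (s1 := true) (s2 := true) (a := 3) (b := 0) (c := 3) (cn := .npn) (n1 := ndF1q3) (n2 := ndF3q0) (pc := pcF3) (cut := Cut.none) (xt := Ext.none) (P1 := 1610612736) (W1 := 536870912) (P2 := 0) (W2 := 536870912) (P3 := 134217728) (W3 := 67108864)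
    rfl k0_pp_303

noncomputable def f_pp_313 : ℕ → ℕ → ℕ → ℕ → Bool := onCell 1610612736 536870912 536870912 536870912 134217728 67108864
    (rowF 0 true true true .dn 3 1 3 (qsf 1610612736 536870912 536870912 536870912 3) ndF1q3 ndF3q1 pcF3 Cut.none Ext.none)

def k0_pp_313 : ∃ t, chk3 f_pp_313 t 1 1 1 = true :=
  ⟨(l 4), by decide +kernel⟩

theorem c_pp_313 : CertF 1610612736 536870912 536870912 536870912 134217728 67108864 true true true .dn 3 1 3
    ndF1q3 ndF3q1 pcF3 Cut.none Ext.none :=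
  certF0 (fam := true) (s1 := true) (s2 := true) (a := 3) (b := 1) (c := 3) (cn := .dn) (n1 := ndF1q3) (n2 := ndF3q1) (pc := pcF3) (cut := Cut.none) (xt := Ext.none) (P1 := 1610612736) (W1 := 536870912) (P2 := 536870912) (W2 := 536870912) (P3 := 134217728) (W3 := 67108864)
    rfl k0_pp_313

noncomputable def f_pm_001 : ℕ → ℕ → ℕ → ℕ → Bool := onCell 0 536870912 0 536870912 134217728 67108864
    (rowF 0 true true false .up 0 0 1 (qsf 0 536870912 0 536870912 1) ndF1q0 ndF3q0 pcF1 Cut.none Ext.none)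

def k0_pm_001 : ∃ t, chk3 f_pm_001 t 1 1 1 = true :=
  ⟨(a (l 3) (l 3)), by decide +kernel⟩

theorem c_pm_001 : CertF 0 536870912 0 536870912 134217728 67108864 true true false .up 0 0 1
    ndF1q0 ndF3q0 pcF1 Cut.none Ext.none :=
  certF0 (fam := true) (s1 := true) (s2 := false) (a := 0) (b := 0) (c := 1) (cn := .up) (n1 := ndF1q0) (n2 := ndF3q0) (pc := pcF1) (cut := Cut.none) (xt := Ext.none) (P1 := 0) (W1 := 536870912) (P2 := 0) (W2 := 536870912) (P3 := 134217728) (W3 := 67108864)
    rfl k0_pm_001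

noncomputable def cut_pm_011 : Cut := Cut.of [[⟨0, 0, 0, 67108864⟩, ⟨1, 1, 0, 67108864⟩, ⟨2, 1, 0, 67108864⟩]]

noncomputable def f_pm_011 : ℕ → ℕ → ℕ → ℕ → Bool := onCell 0 536870912 536870912 536870912 134217728 67108864
    (rowF 1 true true false .pnn 0 1 1 (qsf 0 536870912 536870912 536870912 1) ndF1q0 ndF3q1 pcF1 cut_pm_011 Ext.none)

def k0_pm_011 : ∃ t, chk3 f_pm_011 t 1 1 1 = true :=
  ⟨(b (l 3) (a (a (b (l 3) (a (b (l 3) (b (l 3) (a (b (l 3) (l 6)) (l 3)))) (l 3))) (l 3)) (l 3))), by decide +kernel⟩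

theorem c_pm_011 : CertF 0 536870912 536870912 536870912 134217728 67108864 true true false .pnn 0 1 1
    ndF1q0 ndF3q1 pcF1 cut_pm_011 Ext.none :=
  certF1 (fam := true) (s1 := true) (s2 := false) (a := 0) (b := 1) (c := 1) (cn := .pnn) (n1 := ndF1q0) (n2 := ndF3q1) (pc := pcF1) (cut := cut_pm_011) (xt := Ext.none) (P1 := 0) (W1 := 536870912) (P2 := 536870912) (W2 := 536870912) (P3 := 134217728) (W3 := 67108864)
    rfl (fun _ => rfl) k0_pm_011

noncomputable def cut_pm_012 : Cut := Cut.of [[⟨0, 0, 0, 67108864⟩, ⟨1, 1, 0, 67108864⟩, ⟨2, 1, 0, 67108864⟩]]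

noncomputable def f_pm_012 : ℕ → ℕ → ℕ → ℕ → Bool := onCell 1073741824 536870912 536870912 536870912 134217728 67108864
    (rowF 2 true true false .pnp 0 1 2 (qsf 0 536870912 536870912 536870912 2) ndF1q0 ndF3q1 pcF2 cut_pm_012 Ext.none)

def k0_pm_012 : ∃ t, chk3 f_pm_012 t 1 1 1 = true :=
  ⟨(a (b (a (a (l 3) (a (l 17909480) (l 17997752))) (a (a (a (l 17809488) (a (l 17834400) (l 17845608))) (l 17884344)) (l 17965080))) (a (b (a (a (l 3) (b (l 3) (b (l 17224832) (l 16970968)))) (b (a (l 17630128) (l 17804360)) (a (l 17432192) (l 17707760)))) (b (a (a (l 3) (b (l 16618640) (b (l 16591888) (l 16604992)))) (a (b (l 17025368) (b (l 16644776) (l 16559584))) (b (l 17453136) (l 16854760)))) (a (a (a (b (l 3) (l 6)) (b (l 16702616) (b (a (l 6) (l 16689904)) (l 6)))) (b (a (l 16637624) (l 16617288)) (a (b (l 16668720) (b (l 16681760) (l 6))) (b (l 16640464) (l 16656616))))) (a (b (a (l 16592608) (l 16569512)) (b (l 16601608) (l 16616368))) (b (l 16541464) (l 16563912)))))) (a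 (b (b (a (a (l 17923600) (l 17987224)) (l 18080592)) (l 18038736)) (b (b (l 17946336) (l 17796384)) (b (a (l 17211752) (l 17753328)) (a (l 16521552) (l 17345432))))) (b (b (l 18235024) (l 18350312)) (b (l 18400392) (b (l 18303592) (l 18147464))))))) (b (a (l 18059664) (l 2)) (b (a (l 18691272) (l 18619536)) (b (a (l 18799968) (l 18980272)) (a (l 18901952) (l 19192720)))))), by decide +kernel⟩

theorem c_pm_012 : CertF 0 536870912 536870912 536870912 134217728 67108864 true true false .pnp 0 1 2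
    ndF1q0 ndF3q1 pcF2 cut_pm_012 Ext.none :=
  certF2 (fam := true) (s1 := true) (s2 := false) (a := 0) (b := 1) (c := 2) (cn := .pnp) (n1 := ndF1q0) (n2 := ndF3q1) (pc := pcF2) (cut := cut_pm_012) (xt := Ext.none) (P1 := 0) (W1 := 536870912) (P2 := 536870912) (W2 := 536870912) (P3 := 134217728) (W3 := 67108864)
    rfl (fun _ => rfl) k0_pm_012

noncomputable def f_pm_022 : ℕ → ℕ → ℕ → ℕ → Bool := onCell 0 536870912 1073741824 536870912 134217728 67108864
    (rowF 0 true true false .pp 0 2 2 (qsf 0 536870912 1073741824 536870912 2) ndF1q0 ndF3q2 pcF2 Cut.none Ext.none)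

def k0_pm_022 : ∃ t, chk3 f_pm_022 t 8 4 1 = true :=
  ⟨(b (a (b (l 3) (a (l 3) (b (l 3) (c (l 124184916375) (l 120963668759))))) (b (b (l 3) (a (l 3) (l 115058193111))) (a (b (l 118279383031) (c (l 16706352) (l 16714168))) (b (l 39359288615) (a (l 16623600) (l 16597128)))))) (b (a (b (a (a (l 3) (b (l 3) (l 16650440))) (a (c (l 16680072) (l 16688400)) (l 16651264))) (b (a (b (l 98951766455) (c (l 101099244167) (l 96804275015))) (b (l 16635040) (l 16639392))) (a (b (c (l 103783560279) (a (l 16643144) (l 16617128))) (a (c (l 16624120) (l 16632984)) (c (l 16590864) (l 16583936)))) (c (l 16647792) (l 16665144))))) (b (a (a (l 16637200) (l 16589040)) (c (l 16697744) (l 16707608))) (a (b (b (l 16580472) (l 16596328)) (c (l 16637232) (l 16668400))) (a (b (l 16608888) (l 16634312)) (b (l 16558808) (l 16576312)))))) (a (b (c (a (a (b (b (l 16609224) (l 16606040)) (c (l 16620864) (l 16610640))) (b (l 16607576) (l 16600904))) (b (l 16626352) (a (l 16563832) (l 16547128)))) (a (b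 (a (b (l 16611816) (l 16610280)) (l 16625504)) (a (a (l 16599880) (l 16593128)) (l 16582656))) (b (a (l 16597080) (l 16570056)) (a (l 16574032) (l 16547488))))) (a (a (b (c (l 16610416) (l 16589600)) (c (l 16605232) (l 16582832))) (b (b (l 16584000) (l 16580856)) (b (l 16577568) (l 16574496)))) (b (a (l 16589312) (l 16602792)) (a (b (l 16540344) (l 16559720)) (l 16575896))))) (b (a (b (a (l 16600440) (l 16635840)) (a (l 16596608) (l 16561984))) (b (l 16576024) (l 16567592))) (b (l 16605784) (l 16727248)))))), by decide +kernel⟩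

def k1_pm_022 : ∃ t, chk3 f_pm_022 t 9 4 1 = true :=
  ⟨(b (b (a (b (a (l 162302613127) (l 16728336)) (a (l 16753280) (l 16747448))) (b (a (l 16703088) (l 16729608)) (a (l 16739200) (l 16590800)))) (a (a (b (a (l 16610936) (l 16606192)) (l 16739424)) (b (l 16728472) (a (l 16749688) (l 16567592)))) (l 16614560))) (b (b (a (a (a (l 16762056) (l 16557400)) (l 16555344)) (l 16921984)) (b (a (l 16603008) (l 17080864)) (a (l 16724736) (l 17177312)))) (b (b (l 17083272) (l 17182272)) (a (l 17142960) (l 17457144))))), by decide +kernel⟩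

def k2_pm_022 : ∃ t, chk3 f_pm_022 t 4 5 1 = true :=
  ⟨(b (b (a (a (b (a (b (a (c (l 16599712) (l 16575896)) (c (l 16605360) (l 16592304))) (a (c (a (l 16576992) (l 16598200)) (a (l 16551832) (l 16565576))) (c (l 16742120) (l 16561968)))) (c (l 16668664) (l 16632320))) (b (a (a (a (b (c (l 16658600) (l 16526456)) (c (l 16761024) (l 16527048))) (c (l 16802024) (l 16566840))) (c (l 16920408) (l 16534328))) (l 16759072)) (b (a (c (c (l 17169208) (l 16770696)) (l 16557336)) (l 16872880)) (c (a (b (a (l 16813696) (l 17099016)) (c (l 17262032) (l 16709488))) (l 17289288)) (a (b (l 16534984) (l 16555648)) (l 16594568)))))) (b (b (l 16873616) (l 17005208)) (b (l 17125176) (b (l 17208280) (c (l 17555016) (l 16963480)))))) (b (l 17474752) (b (l 17579120) (b (l 17627040) (l 17657784))))) (a (a (a (b (c (b (l 16975592) (l 17280688)) (l 16552528)) (c (l 17357568) (l 16817352))) (c (l 17543584) (l 16771328))) (c (l 17741560) (l 17202192))) (l 17779000))) (a (a (b (b (a (c (l 17686088)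 (l 17078520)) (l 17466696)) (c (l 17898952) (l 17368456))) (c (l 18074672) (b (l 17534480) (l 17666528)))) (b (l 17761464) (l 17966088))) (b (l 17907120) (l 18073208)))), by decide +kernel⟩

def k3_pm_022 : ∃ t, chk3 f_pm_022 t 5 2 1 = true :=
  ⟨(b (a (b (b (a (l 16596560) (l 17007304)) (l 17190152)) (b (b (l 17418880) (b (l 17517248) (l 17577064))) (b (l 17647272) (l 17741952)))) (b (b (l 17388608) (l 17608688)) (b (b (l 17748784) (l 17819048)) (b (l 17878248) (l 17932048))))) (b (b (b (a (l 17823776) (l 17977200)) (a (l 17939872) (l 18019600))) (l 18028272)) (b (l 18085040) (l 18125304)))), by decide +kernel⟩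

def k4_pm_022 : ∃ t, chk3 f_pm_022 t 2 3 1 = true :=
  ⟨(a (b (a (b (a (c (l 18312552) (l 17919168)) (l 18177096)) (l 18343440)) (l 18283696)) (a (l 18586192) (l 18408408))) (b (l 18222880) (l 18262608))), by decide +kernel⟩

def k5_pm_022 : ∃ t, chk3 f_pm_022 t 3 1 1 = true :=
  ⟨(b (b (b (a (a (l 17730520) (l 17835336)) (l 17880064)) (b (b (l 17968664) (a (l 17971888) (l 17976056))) (b (l 18003872) (l 18015288)))) (b (b (b (l 18021864) (a (l 18056448) (l 2))) (l 18015328)) (a (l 18047840) (l 2)))) (a (b (l 18065168) (l 2)) (l 2))), by decide +kernel⟩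

theorem s6_pm_022 : ∃ t, chk3 f_pm_022 t 4 4 1 = true := ex3_a k0_pm_022 k1_pm_022

theorem s7_pm_022 : ∃ t, chk3 f_pm_022 t 4 2 1 = true := ex3_b s6_pm_022 k2_pm_022

theorem s8_pm_022 : ∃ t, chk3 f_pm_022 t 2 2 1 = true := ex3_a s7_pm_022 k3_pm_022

theorem s9_pm_022 : ∃ t, chk3 f_pm_022 t 2 1 1 = true := ex3_b s8_pm_022 k4_pm_022

theorem s10_pm_022 : ∃ t, chk3 f_pm_022 t 1 1 1 = true := ex3_a s9_pm_022 k5_pm_022

theorem c_pm_022 : CertF 0 536870912 1073741824 536870912 134217728 67108864 true true false .pp 0 2 2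
    ndF1q0 ndF3q2 pcF2 Cut.none Ext.none :=
  certF0 (fam := true) (s1 := true) (s2 := false) (a := 0) (b := 2) (c := 2) (cn := .pp) (n1 := ndF1q0) (n2 := ndF3q2) (pc := pcF2) (cut := Cut.none) (xt := Ext.none) (P1 := 0) (W1 := 536870912) (P2 := 1073741824) (W2 := 536870912) (P3 := 134217728) (W3 := 67108864)
    rfl s10_pm_022

noncomputable def f_pm_023 : ℕ → ℕ → ℕ → ℕ → Bool := onCell 1610612736 536870912 1073741824 536870912 134217728 67108864
    (rowF 2 true true false .up 0 2 3 (qsf 0 536870912 1073741824 536870912 3) ndF1q0 ndF3q2 pcF3 Cut.none Ext.none)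

def k0_pm_023 : ∃ t, chk3 f_pm_023 t 1 1 1 = true :=
  ⟨(a (b (b (b (l 18084824) (b (b (l 18128728) (l 18129560)) (a (l 18120016) (l 18056408)))) (b (b (b (l 18118048) (l 18116504)) (l 18094816)) (l 18059792))) (a (l 18177480) (l 18043976))) (b (a (b (l 2) (b (l 2) (l 17881344))) (l 2)) (a (l 17988664) (a (l 17755752) (l 4))))), by decide +kernel⟩

theorem c_pm_023 : CertF 0 536870912 1073741824 536870912 134217728 67108864 true true false .up 0 2 3
    ndF1q0 ndF3q2 pcF3 Cut.none Ext.none :=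
  certF2 (fam := true) (s1 := true) (s2 := false) (a := 0) (b := 2) (c := 3) (cn := .up) (n1 := ndF1q0) (n2 := ndF3q2) (pc := pcF3) (cut := Cut.none) (xt := Ext.none) (P1 := 0) (W1 := 536870912) (P2 := 1073741824) (W2 := 536870912) (P3 := 134217728) (W3 := 67108864)
    rfl (fun _ => rfl) k0_pm_023

noncomputable def f_pm_033 : ℕ → ℕ → ℕ → ℕ → Bool := onCell 1610612736 536870912 0 1230186008 134217728 67108864
    (rowF 2 true true false .pnn 0 3 3 (qsf 0 536870912 0 1230186008 3) ndF1q0 ndF3q3 pcF3 Cut.none Ext.none)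

def k0_pm_033 : ∃ t, chk3 f_pm_033 t 1 1 1 = true :=
  ⟨(a (b (l 1) (b (b (l 1) (a (l 1) (a (l 1) (l 17864080)))) (a (b (l 1) (a (l 314105952087) (l 17925432))) (b (a (l 17900416) (l 17826760)) (l 17773192))))) (a (b (l 1) (b (b (l 604015910391) (l 17776512)) (a (l 17669736) (l 17573784)))) (b (b (l 4) (l 4)) (a (b (l 4) (l 17462232)) (l 4))))), by decide +kernel⟩

theorem c_pm_033 : CertF 0 536870912 0 1230186008 134217728 67108864 true true false .pnn 0 3 3
    ndF1q0 ndF3q3 pcF3 Cut.none Ext.none :=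
  certF2 (fam := true) (s1 := true) (s2 := false) (a := 0) (b := 3) (c := 3) (cn := .pnn) (n1 := ndF1q0) (n2 := ndF3q3) (pc := pcF3) (cut := Cut.none) (xt := Ext.none) (P1 := 0) (W1 := 536870912) (P2 := 0) (W2 := 1230186008) (P3 := 134217728) (W3 := 67108864)
    rfl (fun _ => rfl) k0_pm_033

noncomputable def f_pm_101 : ℕ → ℕ → ℕ → ℕ → Bool := onCell 536870912 536870912 0 536870912 134217728 67108864
    (rowF 2 true true false .npn 1 0 1 (qsf 536870912 536870912 0 536870912 1) ndF1q1 ndF3q0 pcF1 Cut.none Ext.none)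

def k0_pm_101 : ∃ t, chk3 f_pm_101 t 1 1 1 = true :=
  ⟨(a (l 3) (l 3)), by decide +kernel⟩

theorem c_pm_101 : CertF 536870912 536870912 0 536870912 134217728 67108864 true true false .npn 1 0 1
    ndF1q1 ndF3q0 pcF1 Cut.none Ext.none :=
  certF2 (fam := true) (s1 := true) (s2 := false) (a := 1) (b := 0) (c := 1) (cn := .npn) (n1 := ndF1q1) (n2 := ndF3q0) (pc := pcF1) (cut := Cut.none) (xt := Ext.none) (P1 := 536870912) (W1 := 536870912) (P2 := 0) (W2 := 536870912) (P3 := 134217728) (W3 := 67108864)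
    rfl (fun _ => rfl) k0_pm_101

noncomputable def f_pm_102 : ℕ → ℕ → ℕ → ℕ → Bool := onCell 536870912 536870912 1073741824 536870912 134217728 67108864
    (rowF 1 true true false .npp 1 0 2 (qsf 536870912 536870912 0 536870912 2) ndF1q1 ndF3q0 pcF2 Cut.none Ext.none)

def k0_pm_102 : ∃ t, chk3 f_pm_102 t 1 1 1 = true :=
  ⟨(b (a (b (b (l 3) (l 17186480)) (b (b (b (l 16919520) (b (l 16907864) (l 17087736))) (l 16878896)) (l 16833808))) (b (b (l 3) (a (l 17012008) (b (l 3) (l 16946688)))) (b (b (b (a (l 16875352) (l 16977264)) (b (l 17023352) (a (l 16918064) (l 17152848)))) (a (l 16960736) (l 17149000))) (l 17067976)))) (a (l 17052304) (b (a (l 17188800) (l 17604576)) (l 17443264)))), by decide +kernel⟩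

theorem c_pm_102 : CertF 536870912 536870912 0 536870912 134217728 67108864 true true false .npp 1 0 2
    ndF1q1 ndF3q0 pcF2 Cut.none Ext.none :=
  certF1 (fam := true) (s1 := true) (s2 := false) (a := 1) (b := 0) (c := 2) (cn := .npp) (n1 := ndF1q1) (n2 := ndF3q0) (pc := pcF2) (cut := Cut.none) (xt := Ext.none) (P1 := 536870912) (W1 := 536870912) (P2 := 0) (W2 := 536870912) (P3 := 134217728) (W3 := 67108864)
    rfl (fun _ => rfl) k0_pm_102

noncomputable def f_pm_112 : ℕ → ℕ → ℕ → ℕ → Bool := onCell 1073741824 536870912 536870912 536870912 134217728 67108864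
    (rowF 2 true true false .dn 1 1 2 (qsf 536870912 536870912 536870912 536870912 2) ndF1q1 ndF3q1 pcF2 Cut.none Ext.none)

def k0_pm_112 : ∃ t, chk3 f_pm_112 t 1 1 1 = true :=
  ⟨(a (b (a (a (l 3) (a (l 18062176) (l 18142480))) (a (a (a (l 18186616) (a (l 18201424) (l 18206976))) (l 18224384)) (l 18248168))) (a (l 1) (b (a (l 1) (l 401616965719)) (l 1)))) (b (a (l 18231264) (l 18130552)) (b (a (l 18581688) (l 18488048)) (b (l 407523087079) (l 18901344))))), by decide +kernel⟩

theorem c_pm_112 : CertF 536870912 536870912 536870912 536870912 134217728 67108864 true true false .dn 1 1 2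
    ndF1q1 ndF3q1 pcF2 Cut.none Ext.none :=
  certF2 (fam := true) (s1 := true) (s2 := false) (a := 1) (b := 1) (c := 2) (cn := .dn) (n1 := ndF1q1) (n2 := ndF3q1) (pc := pcF2) (cut := Cut.none) (xt := Ext.none) (P1 := 536870912) (W1 := 536870912) (P2 := 536870912) (W2 := 536870912) (P3 := 134217728) (W3 := 67108864)
    rfl (fun _ => rfl) k0_pm_112

noncomputable def f_pm_113 : ℕ → ℕ → ℕ → ℕ → Bool := onCell 536870912 536870912 536870912 536870912 134217728 67108864
    (rowF 0 true true false .nn 1 1 3 (qsf 536870912 536870912 536870912 536870912 3) ndF1q1 ndF3q1 pcF3 Cut.none Ext.none)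

def k0_pm_113 : ∃ t, chk3 f_pm_113 t 1 1 1 = true :=
  ⟨(a (b (l 426312093943) (b (l 444566103639) (b (l 18404088) (l 18478272)))) (b (l 387656749783) (a (b (l 17941584) (b (l 18065712) (l 18108104))) (b (b (l 17649520) (l 17723616)) (a (b (l 17895808) (l 17934032)) (b (l 17769760) (b (l 17828584) (a (l 17901104) (l 4))))))))), by decide +kernel⟩

theorem c_pm_113 : CertF 536870912 536870912 536870912 536870912 134217728 67108864 true true false .nn 1 1 3
    ndF1q1 ndF3q1 pcF3 Cut.none Ext.none :=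
  certF0 (fam := true) (s1 := true) (s2 := false) (a := 1) (b := 1) (c := 3) (cn := .nn) (n1 := ndF1q1) (n2 := ndF3q1) (pc := pcF3) (cut := Cut.none) (xt := Ext.none) (P1 := 536870912) (W1 := 536870912) (P2 := 536870912) (W2 := 536870912) (P3 := 134217728) (W3 := 67108864)
    rfl k0_pm_113

noncomputable def f_pm_123 : ℕ → ℕ → ℕ → ℕ → Bool := onCell 1610612736 536870912 1073741824 536870912 134217728 67108864
    (rowF 2 true true false .npn 1 2 3 (qsf 536870912 536870912 1073741824 536870912 3) ndF1q1 ndF3q2 pcF3 Cut.none Ext.none)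

def k0_pm_123 : ∃ t, chk3 f_pm_123 t 1 1 1 = true :=
  ⟨(a (b (b (b (l 17567304) (b (b (l 17514384) (l 17500408)) (l 17440176))) (b (b (l 226058019927) (l 17366568)) (l 17265072))) (l 289944967703)) (b (a (b (b (l 17279880) (b (b (l 17307768) (l 17302616)) (l 17355848))) (b (b (a (l 17291664) (l 17221536)) (l 17204080)) (l 17125104))) (b (a (b (l 17144120) (b (b (l 17175040) (l 17170176)) (l 17124224))) (a (b (l 17039736) (b (b (l 17071288) (l 17067712)) (l 17024376))) (l 4))) (a (b (b (l 17127568) (l 17083456)) (l 17015352)) (b (a (b (l 17039848) (l 4)) (l 4)) (l 4))))) (a (a (l 17038840) (l 17006640)) (a (l 16957888) (l 4))))), by decide +kernel⟩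

theorem c_pm_123 : CertF 536870912 536870912 1073741824 536870912 134217728 67108864 true true false .npn 1 2 3
    ndF1q1 ndF3q2 pcF3 Cut.none Ext.none :=
  certF2 (fam := true) (s1 := true) (s2 := false) (a := 1) (b := 2) (c := 3) (cn := .npn) (n1 := ndF1q1) (n2 := ndF3q2) (pc := pcF3) (cut := Cut.none) (xt := Ext.none) (P1 := 536870912) (W1 := 536870912) (P2 := 1073741824) (W2 := 536870912) (P3 := 134217728) (W3 := 67108864)
    rfl (fun _ => rfl) k0_pm_123

noncomputable def f_pm_133 : ℕ → ℕ → ℕ → ℕ → Bool := onCell 536870912 536870912 0 1230186008 134217728 67108864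
    (rowF 0 true true false .dn 1 3 3 (qsf 536870912 536870912 0 1230186008 3) ndF1q1 ndF3q3 pcF3 Cut.none Ext.none)

def k0_pm_133 : ∃ t, chk3 f_pm_133 t 1 1 1 = true :=
  ⟨(b (l 2) (b (l 2) (l 4))), by decide +kernel⟩

theorem c_pm_133 : CertF 536870912 536870912 0 1230186008 134217728 67108864 true true false .dn 1 3 3
    ndF1q1 ndF3q3 pcF3 Cut.none Ext.none :=
  certF0 (fam := true) (s1 := true) (s2 := false) (a := 1) (b := 3) (c := 3) (cn := .dn) (n1 := ndF1q1) (n2 := ndF3q3) (pc := pcF3) (cut := Cut.none) (xt := Ext.none) (P1 := 536870912) (W1 := 536870912) (P2 := 0) (W2 := 1230186008) (P3 := 134217728) (W3 := 67108864)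
    rfl k0_pm_133

noncomputable def f_pm_202_a : ℕ → ℕ → ℕ → ℕ → Bool := onCell 0 536870912 1073741824 536870912 134217728 67108864
    (rowF 1 true true false .pp 2 0 2 (qsf 0 536870912 0 536870912 2) ndF1q2a ndF3q0 pcF2 Cut.none Ext.none)

def k0_pm_202_a : ∃ t, chk3 f_pm_202_a t 1 1 1 = true :=
  ⟨(a (b (a (b (l 1) (b (b (b (l 1) (l 17153272)) (l 17148416)) (l 17212680))) (b (b (l 1) (b (l 1) (b (l 1) (l 17192800)))) (b (b (b (l 17192312) (l 17277952)) (l 17182152)) (l 17269464)))) (b (b (l 17570320) (l 17640856)) (l 17605840))) (b (a (b (b (l 1) (b (a (l 1) (b (l 17276200) (b (l 17288048) (l 17292792)))) (b (a (l 17240240) (l 17278160)) (l 17258376)))) (b (b (b (l 17254808) (l 17254648)) (l 17239600)) (l 17365896))) (b (b (a (b (l 1) (a (b (l 1) (l 17288816)) (b (l 330747067399) (l 17313024)))) (b (a (b (l 1) (l 326452066599)) (l 172370125591)) (a (b (l 17318680) (l 17338376)) (l 17358832)))) (b (b (a (l 17321032) (l 17375584)) (a (l 17323496) (l 17380440))) (b (a (l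 17321104) (l 17380248)) (l 17349944)))) (b (b (b (l 17347712) (l 17370360)) (l 17334144)) (l 17458592)))) (b (a (l 17621048) (l 17563728)) (l 17579184)))), by decide +kernel⟩

theorem c_pm_202_a : CertF 0 536870912 0 536870912 134217728 67108864 true true false .pp 2 0 2
    ndF1q2a ndF3q0 pcF2 Cut.none Ext.none :=
  certF1 (fam := true) (s1 := true) (s2 := false) (a := 2) (b := 0) (c := 2) (cn := .pp) (n1 := ndF1q2a) (n2 := ndF3q0) (pc := pcF2) (cut := Cut.none) (xt := Ext.none) (P1 := 0) (W1 := 536870912) (P2 := 0) (W2 := 536870912) (P3 := 134217728) (W3 := 67108864)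
    rfl (fun _ => rfl) k0_pm_202_a

noncomputable def f_pm_202_b : ℕ → ℕ → ℕ → ℕ → Bool := onCell 1073741824 536870912 0 536870912 134217728 67108864
    (rowF 2 true true false .pp 2 0 2 (qsf 1239849684 370763052 0 536870912 2) ndF1q2b ndF3q0 pcF2 Cut.none Ext.none)

def k0_pm_202_b : ∃ t, chk3 f_pm_202_b t 1 1 1 = true :=
  ⟨(a (b (b (a (l 1) (b (a (a (a (l 1) (l 17194096)) (l 17159792)) (l 17115120)) (a (l 1) (l 17270920)))) (l 1)) (l 1)) (a (b (b (b (l 17755920) (l 17695800)) (a (l 17471008) (l 17619296))) (l 1)) (b (b (l 18225984) (l 17802352)) (a (l 369402074711) (l 17463584))))), by decide +kernel⟩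

theorem c_pm_202_b : CertF 1239849684 370763052 0 536870912 134217728 67108864 true true false .pp 2 0 2
    ndF1q2b ndF3q0 pcF2 Cut.none Ext.none :=
  certF2 (fam := true) (s1 := true) (s2 := false) (a := 2) (b := 0) (c := 2) (cn := .pp) (n1 := ndF1q2b) (n2 := ndF3q0) (pc := pcF2) (cut := Cut.none) (xt := Ext.none) (P1 := 1239849684) (W1 := 370763052) (P2 := 0) (W2 := 536870912) (P3 := 134217728) (W3 := 67108864)
    rfl (fun _ => rfl) k0_pm_202_b

noncomputable def f_pm_203_a : ℕ → ℕ → ℕ → ℕ → Bool := onCell 0 536870912 1610612736 536870912 134217728 67108864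
    (rowF 1 true true false .up 2 0 3 (qsf 0 536870912 0 536870912 3) ndF1q2a ndF3q0 pcF3 Cut.none Ext.none)

def k0_pm_203_a : ∃ t, chk3 f_pm_203_a t 1 1 1 = true :=
  ⟨(b (b (a (l 17679744) (b (l 17685528) (l 17657848))) (a (l 4) (l 17785000))) (l 2)), by decide +kernel⟩

theorem c_pm_203_a : CertF 0 536870912 0 536870912 134217728 67108864 true true false .up 2 0 3
    ndF1q2a ndF3q0 pcF3 Cut.none Ext.none :=
  certF1 (fam := true) (s1 := true) (s2 := false) (a := 2) (b := 0) (c := 3) (cn := .up) (n1 := ndF1q2a) (n2 := ndF3q0) (pc := pcF3) (cut := Cut.none) (xt := Ext.none) (P1 := 0) (W1 := 536870912) (P2 := 0) (W2 := 536870912) (P3 := 134217728) (W3 := 67108864)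
    rfl (fun _ => rfl) k0_pm_203_a

noncomputable def f_pm_203_b : ℕ → ℕ → ℕ → ℕ → Bool := onCell 1239849684 370763052 1610612736 536870912 134217728 67108864
    (rowF 1 true true false .up 2 0 3 (qsf 1239849684 370763052 0 536870912 3) ndF1q2b ndF3q0 pcF3 Cut.none Ext.none)

def k0_pm_203_b : ∃ t, chk3 f_pm_203_b t 1 1 1 = true :=
  ⟨(b (b (a (b (l 17694600) (l 4)) (b (l 17928496) (l 17890744))) (l 4)) (l 4)), by decide +kernel⟩

theorem c_pm_203_b : CertF 1239849684 370763052 0 536870912 134217728 67108864 true true false .up 2 0 3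
    ndF1q2b ndF3q0 pcF3 Cut.none Ext.none :=
  certF1 (fam := true) (s1 := true) (s2 := false) (a := 2) (b := 0) (c := 3) (cn := .up) (n1 := ndF1q2b) (n2 := ndF3q0) (pc := pcF3) (cut := Cut.none) (xt := Ext.none) (P1 := 1239849684) (W1 := 370763052) (P2 := 0) (W2 := 536870912) (P3 := 134217728) (W3 := 67108864)
    rfl (fun _ => rfl) k0_pm_203_b

noncomputable def f_pm_213_a : ℕ → ℕ → ℕ → ℕ → Bool := onCell 0 536870912 1610612736 536870912 134217728 67108864
    (rowF 1 true true false .pnn 2 1 3 (qsf 0 536870912 536870912 536870912 3) ndF1q2a ndF3q1 pcF3 Cut.none Ext.none)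

def k0_pm_213_a : ∃ t, chk3 f_pm_213_a t 1 1 1 = true :=
  ⟨(b (b (b (a (l 1) (l 17737776)) (l 17600328)) (a (l 4) (l 17554792))) (l 4)), by decide +kernel⟩

theorem c_pm_213_a : CertF 0 536870912 536870912 536870912 134217728 67108864 true true false .pnn 2 1 3
    ndF1q2a ndF3q1 pcF3 Cut.none Ext.none :=
  certF1 (fam := true) (s1 := true) (s2 := false) (a := 2) (b := 1) (c := 3) (cn := .pnn) (n1 := ndF1q2a) (n2 := ndF3q1) (pc := pcF3) (cut := Cut.none) (xt := Ext.none) (P1 := 0) (W1 := 536870912) (P2 := 536870912) (W2 := 536870912) (P3 := 134217728) (W3 := 67108864)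
    rfl (fun _ => rfl) k0_pm_213_a

noncomputable def f_pm_213_b : ℕ → ℕ → ℕ → ℕ → Bool := onCell 1239849684 370763052 536870912 536870912 134217728 67108864
    (rowF 0 true true false .pnn 2 1 3 (qsf 1239849684 370763052 536870912 536870912 3) ndF1q2b ndF3q1 pcF3 Cut.none Ext.none)

def k0_pm_213_b : ∃ t, chk3 f_pm_213_b t 1 1 1 = true :=
  ⟨(l 4), by decide +kernel⟩

theorem c_pm_213_b : CertF 1239849684 370763052 536870912 536870912 134217728 67108864 true true false .pnn 2 1 3
    ndF1q2b ndF3q1 pcF3 Cut.none Ext.none :=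
  certF0 (fam := true) (s1 := true) (s2 := false) (a := 2) (b := 1) (c := 3) (cn := .pnn) (n1 := ndF1q2b) (n2 := ndF3q1) (pc := pcF3) (cut := Cut.none) (xt := Ext.none) (P1 := 1239849684) (W1 := 370763052) (P2 := 536870912) (W2 := 536870912) (P3 := 134217728) (W3 := 67108864)
    rfl k0_pm_213_b

noncomputable def f_pm_303 : ℕ → ℕ → ℕ → ℕ → Bool := onCell 1610612736 536870912 0 536870912 134217728 67108864
    (rowF 2 true true false .npn 3 0 3 (qsf 1610612736 536870912 0 536870912 3) ndF1q3 ndF3q0 pcF3 Cut.none Ext.none)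

def k0_pm_303 : ∃ t, chk3 f_pm_303 t 1 1 1 = true :=
  ⟨(a (a (b (a (l 17779944) (l 17758056)) (l 1)) (b (a (l 17708424) (l 4)) (l 4))) (l 4)), by decide +kernel⟩

theorem c_pm_303 : CertF 1610612736 536870912 0 536870912 134217728 67108864 true true false .npn 3 0 3
    ndF1q3 ndF3q0 pcF3 Cut.none Ext.none :=
  certF2 (fam := true) (s1 := true) (s2 := false) (a := 3) (b := 0) (c := 3) (cn := .npn) (n1 := ndF1q3) (n2 := ndF3q0) (pc := pcF3) (cut := Cut.none) (xt := Ext.none) (P1 := 1610612736) (W1 := 536870912) (P2 := 0) (W2 := 536870912) (P3 := 134217728) (W3 := 67108864)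
    rfl (fun _ => rfl) k0_pm_303

noncomputable def f_pm_313 : ℕ → ℕ → ℕ → ℕ → Bool := onCell 1610612736 536870912 536870912 536870912 134217728 67108864
    (rowF 0 true true false .dn 3 1 3 (qsf 1610612736 536870912 536870912 536870912 3) ndF1q3 ndF3q1 pcF3 Cut.none Ext.none)

def k0_pm_313 : ∃ t, chk3 f_pm_313 t 1 1 1 = true :=
  ⟨(l 4), by decide +kernel⟩

theorem c_pm_313 : CertF 1610612736 536870912 536870912 536870912 134217728 67108864 true true false .dn 3 1 3
    ndF1q3 ndF3q1 pcF3 Cut.none Ext.none :=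
  certF0 (fam := true) (s1 := true) (s2 := false) (a := 3) (b := 1) (c := 3) (cn := .dn) (n1 := ndF1q3) (n2 := ndF3q1) (pc := pcF3) (cut := Cut.none) (xt := Ext.none) (P1 := 1610612736) (W1 := 536870912) (P2 := 536870912) (W2 := 536870912) (P3 := 134217728) (W3 := 67108864)
    rfl k0_pm_313

noncomputable def f_mm_001 : ℕ → ℕ → ℕ → ℕ → Bool := onCell 0 536870912 0 536870912 134217728 67108864
    (rowF 0 true false false .up 0 0 1 (qsf 0 536870912 0 536870912 1) ndF1q0 ndF3q0 pcF1 Cut.none Ext.none)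

def k0_mm_001 : ∃ t, chk3 f_mm_001 t 1 1 1 = true :=
  ⟨(l 4), by decide +kernel⟩

theorem c_mm_001 : CertF 0 536870912 0 536870912 134217728 67108864 true false false .up 0 0 1
    ndF1q0 ndF3q0 pcF1 Cut.none Ext.none :=
  certF0 (fam := true) (s1 := false) (s2 := false) (a := 0) (b := 0) (c := 1) (cn := .up) (n1 := ndF1q0) (n2 := ndF3q0) (pc := pcF1) (cut := Cut.none) (xt := Ext.none) (P1 := 0) (W1 := 536870912) (P2 := 0) (W2 := 536870912) (P3 := 134217728) (W3 := 67108864)
    rfl k0_mm_001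

noncomputable def f_mm_011 : ℕ → ℕ → ℕ → ℕ → Bool := onCell 0 536870912 536870912 536870912 134217728 67108864
    (rowF 0 true false false .pnn 0 1 1 (qsf 0 536870912 536870912 536870912 1) ndF1q0 ndF3q1 pcF1 Cut.none Ext.none)

def k0_mm_011 : ∃ t, chk3 f_mm_011 t 1 1 1 = true :=
  ⟨(l 4), by decide +kernel⟩

theorem c_mm_011 : CertF 0 536870912 536870912 536870912 134217728 67108864 true false false .pnn 0 1 1
    ndF1q0 ndF3q1 pcF1 Cut.none Ext.none :=
  certF0 (fam := true) (s1 := false) (s2 := false) (a := 0) (b := 1) (c := 1) (cn := .pnn) (n1 := ndF1q0) (n2 := ndF3q1) (pc := pcF1) (cut := Cut.none) (xt := Ext.none) (P1 := 0) (W1 := 536870912) (P2 := 536870912) (W2 := 536870912) (P3 := 134217728) (W3 := 67108864)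
    rfl k0_mm_011

noncomputable def f_mm_012 : ℕ → ℕ → ℕ → ℕ → Bool := onCell 0 536870912 536870912 536870912 134217728 67108864
    (rowF 0 true false false .pnp 0 1 2 (qsf 0 536870912 536870912 536870912 2) ndF1q0 ndF3q1 pcF2 Cut.none Ext.none)

def k0_mm_012 : ∃ t, chk3 f_mm_012 t 1 1 1 = true :=
  ⟨(l 4), by decide +kernel⟩

theorem c_mm_012 : CertF 0 536870912 536870912 536870912 134217728 67108864 true false false .pnp 0 1 2
    ndF1q0 ndF3q1 pcF2 Cut.none Ext.none :=
  certF0 (fam := true) (s1 := false) (s2 := false) (a := 0) (b := 1) (c := 2) (cn := .pnp) (n1 := ndF1q0) (n2 := ndF3q1) (pc := pcF2) (cut := Cut.none) (xt := Ext.none) (P1 := 0) (W1 := 536870912) (P2 := 536870912) (W2 := 536870912) (P3 := 134217728) (W3 := 67108864)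
    rfl k0_mm_012

noncomputable def f_mm_022 : ℕ → ℕ → ℕ → ℕ → Bool := onCell 0 536870912 1073741824 536870912 134217728 67108864
    (rowF 0 true false false .pp 0 2 2 (qsf 0 536870912 1073741824 536870912 2) ndF1q0 ndF3q2 pcF2 Cut.none Ext.none)

def k0_mm_022 : ∃ t, chk3 f_mm_022 t 1 1 1 = true :=
  ⟨(l 4), by decide +kernel⟩

theorem c_mm_022 : CertF 0 536870912 1073741824 536870912 134217728 67108864 true false false .pp 0 2 2
    ndF1q0 ndF3q2 pcF2 Cut.none Ext.none :=
  certF0 (fam := true) (s1 := false) (s2 := false) (a := 0) (b := 2) (c := 2) (cn := .pp) (n1 := ndF1q0) (n2 := ndF3q2) (pc := pcF2) (cut := Cut.none) (xt := Ext.none) (P1 := 0) (W1 := 536870912) (P2 := 1073741824) (W2 := 536870912) (P3 := 134217728) (W3 := 67108864)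
    rfl k0_mm_022

noncomputable def f_mm_023 : ℕ → ℕ → ℕ → ℕ → Bool := onCell 0 536870912 1073741824 536870912 134217728 67108864
    (rowF 0 true false false .up 0 2 3 (qsf 0 536870912 1073741824 536870912 3) ndF1q0 ndF3q2 pcF3 Cut.none Ext.none)

def k0_mm_023 : ∃ t, chk3 f_mm_023 t 1 1 1 = true :=
  ⟨(l 4), by decide +kernel⟩

theorem c_mm_023 : CertF 0 536870912 1073741824 536870912 134217728 67108864 true false false .up 0 2 3
    ndF1q0 ndF3q2 pcF3 Cut.none Ext.none :=
  certF0 (fam := true) (s1 := false) (s2 := false) (a := 0) (b := 2) (c := 3) (cn := .up) (n1 := ndF1q0) (n2 := ndF3q2) (pc := pcF3) (cut := Cut.none) (xt := Ext.none) (P1 := 0) (W1 := 536870912) (P2 := 1073741824) (W2 := 536870912) (P3 := 134217728) (W3 := 67108864)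
    rfl k0_mm_023

noncomputable def f_mm_033 : ℕ → ℕ → ℕ → ℕ → Bool := onCell 0 536870912 0 1230186008 134217728 67108864
    (rowF 0 true false false .pnn 0 3 3 (qsf 0 536870912 0 1230186008 3) ndF1q0 ndF3q3 pcF3 Cut.none Ext.none)

def k0_mm_033 : ∃ t, chk3 f_mm_033 t 1 1 1 = true :=
  ⟨(l 5), by decide +kernel⟩

theorem c_mm_033 : CertF 0 536870912 0 1230186008 134217728 67108864 true false false .pnn 0 3 3
    ndF1q0 ndF3q3 pcF3 Cut.none Ext.none :=
  certF0 (fam := true) (s1 := false) (s2 := false) (a := 0) (b := 3) (c := 3) (cn := .pnn) (n1 := ndF1q0) (n2 := ndF3q3) (pc := pcF3) (cut := Cut.none) (xt := Ext.none) (P1 := 0) (W1 := 536870912) (P2 := 0) (W2 := 1230186008) (P3 := 134217728) (W3 := 67108864)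
    rfl k0_mm_033

noncomputable def f_mm_101 : ℕ → ℕ → ℕ → ℕ → Bool := onCell 536870912 536870912 0 536870912 134217728 67108864
    (rowF 0 true false false .npn 1 0 1 (qsf 536870912 536870912 0 536870912 1) ndF1q1 ndF3q0 pcF1 Cut.none Ext.none)

def k0_mm_101 : ∃ t, chk3 f_mm_101 t 1 1 1 = true :=
  ⟨(l 4), by decide +kernel⟩

theorem c_mm_101 : CertF 536870912 536870912 0 536870912 134217728 67108864 true false false .npn 1 0 1
    ndF1q1 ndF3q0 pcF1 Cut.none Ext.none :=
  certF0 (fam := true) (s1 := false) (s2 := false) (a := 1) (b := 0) (c := 1) (cn := .npn) (n1 := ndF1q1) (n2 := ndF3q0) (pc := pcF1) (cut := Cut.none) (xt := Ext.none) (P1 := 536870912) (W1 := 536870912) (P2 := 0) (W2 := 536870912) (P3 := 134217728) (W3 := 67108864)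
    rfl k0_mm_101

noncomputable def f_mm_102 : ℕ → ℕ → ℕ → ℕ → Bool := onCell 536870912 536870912 0 536870912 134217728 67108864
    (rowF 0 true false false .npp 1 0 2 (qsf 536870912 536870912 0 536870912 2) ndF1q1 ndF3q0 pcF2 Cut.none Ext.none)

def k0_mm_102 : ∃ t, chk3 f_mm_102 t 1 1 1 = true :=
  ⟨(l 4), by decide +kernel⟩

theorem c_mm_102 : CertF 536870912 536870912 0 536870912 134217728 67108864 true false false .npp 1 0 2
    ndF1q1 ndF3q0 pcF2 Cut.none Ext.none :=
  certF0 (fam := true) (s1 := false) (s2 := false) (a := 1) (b := 0) (c := 2) (cn := .npp) (n1 := ndF1q1) (n2 := ndF3q0) (pc := pcF2) (cut := Cut.none) (xt := Ext.none) (P1 := 536870912) (W1 := 536870912) (P2 := 0) (W2 := 536870912) (P3 := 134217728) (W3 := 67108864)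
    rfl k0_mm_102

noncomputable def f_mm_112 : ℕ → ℕ → ℕ → ℕ → Bool := onCell 536870912 536870912 536870912 536870912 134217728 67108864
    (rowF 0 true false false .dn 1 1 2 (qsf 536870912 536870912 536870912 536870912 2) ndF1q1 ndF3q1 pcF2 Cut.none Ext.none)

def k0_mm_112 : ∃ t, chk3 f_mm_112 t 1 1 1 = true :=
  ⟨(l 4), by decide +kernel⟩

theorem c_mm_112 : CertF 536870912 536870912 536870912 536870912 134217728 67108864 true false false .dn 1 1 2
    ndF1q1 ndF3q1 pcF2 Cut.none Ext.none :=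
  certF0 (fam := true) (s1 := false) (s2 := false) (a := 1) (b := 1) (c := 2) (cn := .dn) (n1 := ndF1q1) (n2 := ndF3q1) (pc := pcF2) (cut := Cut.none) (xt := Ext.none) (P1 := 536870912) (W1 := 536870912) (P2 := 536870912) (W2 := 536870912) (P3 := 134217728) (W3 := 67108864)
    rfl k0_mm_112

noncomputable def f_mm_113 : ℕ → ℕ → ℕ → ℕ → Bool := onCell 536870912 536870912 536870912 536870912 134217728 67108864
    (rowF 0 true false false .nn 1 1 3 (qsf 536870912 536870912 536870912 536870912 3) ndF1q1 ndF3q1 pcF3 Cut.none Ext.none)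

def k0_mm_113 : ∃ t, chk3 f_mm_113 t 1 1 1 = true :=
  ⟨(l 4), by decide +kernel⟩

theorem c_mm_113 : CertF 536870912 536870912 536870912 536870912 134217728 67108864 true false false .nn 1 1 3
    ndF1q1 ndF3q1 pcF3 Cut.none Ext.none :=
  certF0 (fam := true) (s1 := false) (s2 := false) (a := 1) (b := 1) (c := 3) (cn := .nn) (n1 := ndF1q1) (n2 := ndF3q1) (pc := pcF3) (cut := Cut.none) (xt := Ext.none) (P1 := 536870912) (W1 := 536870912) (P2 := 536870912) (W2 := 536870912) (P3 := 134217728) (W3 := 67108864)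
    rfl k0_mm_113

noncomputable def f_mm_123 : ℕ → ℕ → ℕ → ℕ → Bool := onCell 536870912 536870912 1073741824 536870912 134217728 67108864
    (rowF 0 true false false .npn 1 2 3 (qsf 536870912 536870912 1073741824 536870912 3) ndF1q1 ndF3q2 pcF3 Cut.none Ext.none)

def k0_mm_123 : ∃ t, chk3 f_mm_123 t 1 1 1 = true :=
  ⟨(l 4), by decide +kernel⟩

theorem c_mm_123 : CertF 536870912 536870912 1073741824 536870912 134217728 67108864 true false false .npn 1 2 3
    ndF1q1 ndF3q2 pcF3 Cut.none Ext.none :=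
  certF0 (fam := true) (s1 := false) (s2 := false) (a := 1) (b := 2) (c := 3) (cn := .npn) (n1 := ndF1q1) (n2 := ndF3q2) (pc := pcF3) (cut := Cut.none) (xt := Ext.none) (P1 := 536870912) (W1 := 536870912) (P2 := 1073741824) (W2 := 536870912) (P3 := 134217728) (W3 := 67108864)
    rfl k0_mm_123

noncomputable def f_mm_133 : ℕ → ℕ → ℕ → ℕ → Bool := onCell 536870912 536870912 0 1230186008 134217728 67108864
    (rowF 0 true false false .dn 1 3 3 (qsf 536870912 536870912 0 1230186008 3) ndF1q1 ndF3q3 pcF3 Cut.none Ext.none)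

def k0_mm_133 : ∃ t, chk3 f_mm_133 t 1 1 1 = true :=
  ⟨(l 4), by decide +kernel⟩

theorem c_mm_133 : CertF 536870912 536870912 0 1230186008 134217728 67108864 true false false .dn 1 3 3
    ndF1q1 ndF3q3 pcF3 Cut.none Ext.none :=
  certF0 (fam := true) (s1 := false) (s2 := false) (a := 1) (b := 3) (c := 3) (cn := .dn) (n1 := ndF1q1) (n2 := ndF3q3) (pc := pcF3) (cut := Cut.none) (xt := Ext.none) (P1 := 536870912) (W1 := 536870912) (P2 := 0) (W2 := 1230186008) (P3 := 134217728) (W3 := 67108864)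
    rfl k0_mm_133

noncomputable def f_mm_202_a : ℕ → ℕ → ℕ → ℕ → Bool := onCell 0 536870912 0 536870912 134217728 67108864
    (rowF 0 true false false .pp 2 0 2 (qsf 0 536870912 0 536870912 2) ndF1q2a ndF3q0 pcF2 Cut.none Ext.none)

def k0_mm_202_a : ∃ t, chk3 f_mm_202_a t 1 1 1 = true :=
  ⟨(b (a (b (b (a (b (l 17136512) (l 4)) (l 4)) (l 4)) (l 4)) (l 4)) (l 4)), by decide +kernel⟩

theorem c_mm_202_a : CertF 0 536870912 0 536870912 134217728 67108864 true false false .pp 2 0 2
    ndF1q2a ndF3q0 pcF2 Cut.none Ext.none :=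
  certF0 (fam := true) (s1 := false) (s2 := false) (a := 2) (b := 0) (c := 2) (cn := .pp) (n1 := ndF1q2a) (n2 := ndF3q0) (pc := pcF2) (cut := Cut.none) (xt := Ext.none) (P1 := 0) (W1 := 536870912) (P2 := 0) (W2 := 536870912) (P3 := 134217728) (W3 := 67108864)
    rfl k0_mm_202_a

noncomputable def f_mm_202_b : ℕ → ℕ → ℕ → ℕ → Bool := onCell 1239849684 370763052 0 536870912 134217728 67108864
    (rowF 0 true false false .pp 2 0 2 (qsf 1239849684 370763052 0 536870912 2) ndF1q2b ndF3q0 pcF2 Cut.none Ext.none)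

def k0_mm_202_b : ∃ t, chk3 f_mm_202_b t 1 1 1 = true :=
  ⟨(b (a (b (b (a (b (a (l 17115392) (l 4)) (l 4)) (l 4)) (l 4)) (l 4)) (l 4)) (l 4)), by decide +kernel⟩

theorem c_mm_202_b : CertF 1239849684 370763052 0 536870912 134217728 67108864 true false false .pp 2 0 2
    ndF1q2b ndF3q0 pcF2 Cut.none Ext.none :=
  certF0 (fam := true) (s1 := false) (s2 := false) (a := 2) (b := 0) (c := 2) (cn := .pp) (n1 := ndF1q2b) (n2 := ndF3q0) (pc := pcF2) (cut := Cut.none) (xt := Ext.none) (P1 := 1239849684) (W1 := 370763052) (P2 := 0) (W2 := 536870912) (P3 := 134217728) (W3 := 67108864)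
    rfl k0_mm_202_b

noncomputable def f_mm_203_a : ℕ → ℕ → ℕ → ℕ → Bool := onCell 0 536870912 1610612736 536870912 134217728 67108864
    (rowF 1 true false false .up 2 0 3 (qsf 0 536870912 0 536870912 3) ndF1q2a ndF3q0 pcF3 Cut.none Ext.none)

def k0_mm_203_a : ∃ t, chk3 f_mm_203_a t 1 1 1 = true :=
  ⟨(l 4), by decide +kernel⟩

theorem c_mm_203_a : CertF 0 536870912 0 536870912 134217728 67108864 true false false .up 2 0 3
    ndF1q2a ndF3q0 pcF3 Cut.none Ext.none :=
  certF1 (fam := true) (s1 := false) (s2 := false) (a := 2) (b := 0) (c := 3) (cn := .up) (n1 := ndF1q2a) (n2 := ndF3q0) (pc := pcF3) (cut := Cut.none) (xt := Ext.none) (P1 := 0) (W1 := 536870912) (P2 := 0) (W2 := 536870912) (P3 := 134217728) (W3 := 67108864)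
    rfl (fun _ => rfl) k0_mm_203_a

noncomputable def f_mm_203_b : ℕ → ℕ → ℕ → ℕ → Bool := onCell 1239849684 370763052 1610612736 536870912 134217728 67108864
    (rowF 1 true false false .up 2 0 3 (qsf 1239849684 370763052 0 536870912 3) ndF1q2b ndF3q0 pcF3 Cut.none Ext.none)

def k0_mm_203_b : ∃ t, chk3 f_mm_203_b t 1 1 1 = true :=
  ⟨(l 4), by decide +kernel⟩

theorem c_mm_203_b : CertF 1239849684 370763052 0 536870912 134217728 67108864 true false false .up 2 0 3
    ndF1q2b ndF3q0 pcF3 Cut.none Ext.none :=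
  certF1 (fam := true) (s1 := false) (s2 := false) (a := 2) (b := 0) (c := 3) (cn := .up) (n1 := ndF1q2b) (n2 := ndF3q0) (pc := pcF3) (cut := Cut.none) (xt := Ext.none) (P1 := 1239849684) (W1 := 370763052) (P2 := 0) (W2 := 536870912) (P3 := 134217728) (W3 := 67108864)
    rfl (fun _ => rfl) k0_mm_203_b

noncomputable def f_mm_213_a : ℕ → ℕ → ℕ → ℕ → Bool := onCell 0 536870912 536870912 536870912 134217728 67108864
    (rowF 0 true false false .pnn 2 1 3 (qsf 0 536870912 536870912 536870912 3) ndF1q2a ndF3q1 pcF3 Cut.none Ext.none)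

def k0_mm_213_a : ∃ t, chk3 f_mm_213_a t 1 1 1 = true :=
  ⟨(l 4), by decide +kernel⟩

theorem c_mm_213_a : CertF 0 536870912 536870912 536870912 134217728 67108864 true false false .pnn 2 1 3
    ndF1q2a ndF3q1 pcF3 Cut.none Ext.none :=
  certF0 (fam := true) (s1 := false) (s2 := false) (a := 2) (b := 1) (c := 3) (cn := .pnn) (n1 := ndF1q2a) (n2 := ndF3q1) (pc := pcF3) (cut := Cut.none) (xt := Ext.none) (P1 := 0) (W1 := 536870912) (P2 := 536870912) (W2 := 536870912) (P3 := 134217728) (W3 := 67108864)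
    rfl k0_mm_213_a

noncomputable def f_mm_213_b : ℕ → ℕ → ℕ → ℕ → Bool := onCell 1239849684 370763052 536870912 536870912 134217728 67108864
    (rowF 0 true false false .pnn 2 1 3 (qsf 1239849684 370763052 536870912 536870912 3) ndF1q2b ndF3q1 pcF3 Cut.none Ext.none)

def k0_mm_213_b : ∃ t, chk3 f_mm_213_b t 1 1 1 = true :=
  ⟨(l 4), by decide +kernel⟩

theorem c_mm_213_b : CertF 1239849684 370763052 536870912 536870912 134217728 67108864 true false false .pnn 2 1 3
    ndF1q2b ndF3q1 pcF3 Cut.none Ext.none :=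
  certF0 (fam := true) (s1 := false) (s2 := false) (a := 2) (b := 1) (c := 3) (cn := .pnn) (n1 := ndF1q2b) (n2 := ndF3q1) (pc := pcF3) (cut := Cut.none) (xt := Ext.none) (P1 := 1239849684) (W1 := 370763052) (P2 := 536870912) (W2 := 536870912) (P3 := 134217728) (W3 := 67108864)
    rfl k0_mm_213_b

noncomputable def f_mm_303 : ℕ → ℕ → ℕ → ℕ → Bool := onCell 1610612736 536870912 0 536870912 134217728 67108864
    (rowF 0 true false false .npn 3 0 3 (qsf 1610612736 536870912 0 536870912 3) ndF1q3 ndF3q0 pcF3 Cut.none Ext.none)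

def k0_mm_303 : ∃ t, chk3 f_mm_303 t 1 1 1 = true :=
  ⟨(l 4), by decide +kernel⟩

theorem c_mm_303 : CertF 1610612736 536870912 0 536870912 134217728 67108864 true false false .npn 3 0 3
    ndF1q3 ndF3q0 pcF3 Cut.none Ext.none :=
  certF0 (fam := true) (s1 := false) (s2 := false) (a := 3) (b := 0) (c := 3) (cn := .npn) (n1 := ndF1q3) (n2 := ndF3q0) (pc := pcF3) (cut := Cut.none) (xt := Ext.none) (P1 := 1610612736) (W1 := 536870912) (P2 := 0) (W2 := 536870912) (P3 := 134217728) (W3 := 67108864)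
    rfl k0_mm_303

noncomputable def f_mm_313 : ℕ → ℕ → ℕ → ℕ → Bool := onCell 1610612736 536870912 536870912 536870912 134217728 67108864
    (rowF 0 true false false .dn 3 1 3 (qsf 1610612736 536870912 536870912 536870912 3) ndF1q3 ndF3q1 pcF3 Cut.none Ext.none)

def k0_mm_313 : ∃ t, chk3 f_mm_313 t 1 1 1 = true :=
  ⟨(l 4), by decide +kernel⟩

theorem c_mm_313 : CertF 1610612736 536870912 536870912 536870912 134217728 67108864 true false false .dn 3 1 3
    ndF1q3 ndF3q1 pcF3 Cut.none Ext.none :=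
  certF0 (fam := true) (s1 := false) (s2 := false) (a := 3) (b := 1) (c := 3) (cn := .dn) (n1 := ndF1q3) (n2 := ndF3q1) (pc := pcF3) (cut := Cut.none) (xt := Ext.none) (P1 := 1610612736) (W1 := 536870912) (P2 := 536870912) (W2 := 536870912) (P3 := 134217728) (W3 := 67108864)
    rfl k0_mm_313

end Pool.Agent.Strip051.G.I1_8_3_16.Tab.C.FA13

namespace Pool.Agent.Strip051.G.I1_8_3_16.Tab.C.FA14

open Pool.Agent.Strip051.PB Pool.Agent.Strip051.PB.T
open Pool.Agent.Strip051.G.I1_8_3_16.Tab

noncomputable def f_pp_001 : ℕ → ℕ → ℕ → ℕ → Bool := onCell 0 536870912 0 536870912 134217728 67108864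
    (rowF 0 true true true .up 0 0 1 (qsf 0 536870912 0 536870912 1) ndF1q0 ndF4q0 pcF1 Cut.none Ext.none)

def k0_pp_001 : ∃ t, chk3 f_pp_001 t 1 1 1 = true :=
  ⟨(l 4), by decide +kernel⟩

theorem c_pp_001 : CertF 0 536870912 0 536870912 134217728 67108864 true true true .up 0 0 1
    ndF1q0 ndF4q0 pcF1 Cut.none Ext.none :=
  certF0 (fam := true) (s1 := true) (s2 := true) (a := 0) (b := 0) (c := 1) (cn := .up) (n1 := ndF1q0) (n2 := ndF4q0) (pc := pcF1) (cut := Cut.none) (xt := Ext.none) (P1 := 0) (W1 := 536870912) (P2 := 0) (W2 := 536870912) (P3 := 134217728) (W3 := 67108864)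
    rfl k0_pp_001

noncomputable def f_pp_011 : ℕ → ℕ → ℕ → ℕ → Bool := onCell 0 536870912 536870912 536870912 134217728 67108864
    (rowF 0 true true true .pnn 0 1 1 (qsf 0 536870912 536870912 536870912 1) ndF1q0 ndF4q1 pcF1 Cut.none Ext.none)

def k0_pp_011 : ∃ t, chk3 f_pp_011 t 1 1 1 = true :=
  ⟨(l 4), by decide +kernel⟩

theorem c_pp_011 : CertF 0 536870912 536870912 536870912 134217728 67108864 true true true .pnn 0 1 1
    ndF1q0 ndF4q1 pcF1 Cut.none Ext.none :=
  certF0 (fam := true) (s1 := true) (s2 := true) (a := 0) (b := 1) (c := 1) (cn := .pnn) (n1 := ndF1q0) (n2 := ndF4q1) (pc := pcF1) (cut := Cut.none) (xt := Ext.none) (P1 := 0) (W1 := 536870912) (P2 := 536870912) (W2 := 536870912) (P3 := 134217728) (W3 := 67108864)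
    rfl k0_pp_011

noncomputable def f_pp_012 : ℕ → ℕ → ℕ → ℕ → Bool := onCell 0 536870912 536870912 536870912 134217728 67108864
    (rowF 0 true true true .pnp 0 1 2 (qsf 0 536870912 536870912 536870912 2) ndF1q0 ndF4q1 pcF2 Cut.none Ext.none)

def k0_pp_012 : ∃ t, chk3 f_pp_012 t 1 1 1 = true :=
  ⟨(l 4), by decide +kernel⟩

theorem c_pp_012 : CertF 0 536870912 536870912 536870912 134217728 67108864 true true true .pnp 0 1 2
    ndF1q0 ndF4q1 pcF2 Cut.none Ext.none :=
  certF0 (fam := true) (s1 := true) (s2 := true) (a := 0) (b := 1) (c := 2) (cn := .pnp) (n1 := ndF1q0) (n2 := ndF4q1) (pc := pcF2) (cut := Cut.none) (xt := Ext.none) (P1 := 0) (W1 := 536870912) (P2 := 536870912) (W2 := 536870912) (P3 := 134217728) (W3 := 67108864)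
    rfl k0_pp_012

noncomputable def f_pp_022 : ℕ → ℕ → ℕ → ℕ → Bool := onCell 0 536870912 1073741824 536870912 134217728 67108864
    (rowF 0 true true true .pp 0 2 2 (qsf 0 536870912 1073741824 536870912 2) ndF1q0 ndF4q2 pcF2 Cut.none Ext.none)

def k0_pp_022 : ∃ t, chk3 f_pp_022 t 1 1 1 = true :=
  ⟨(l 4), by decide +kernel⟩

theorem c_pp_022 : CertF 0 536870912 1073741824 536870912 134217728 67108864 true true true .pp 0 2 2
    ndF1q0 ndF4q2 pcF2 Cut.none Ext.none :=
  certF0 (fam := true) (s1 := true) (s2 := true) (a := 0) (b := 2) (c := 2) (cn := .pp) (n1 := ndF1q0) (n2 := ndF4q2) (pc := pcF2) (cut := Cut.none) (xt := Ext.none) (P1 := 0) (W1 := 536870912) (P2 := 1073741824) (W2 := 536870912) (P3 := 134217728) (W3 := 67108864)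
    rfl k0_pp_022

noncomputable def f_pp_023 : ℕ → ℕ → ℕ → ℕ → Bool := onCell 0 536870912 1073741824 536870912 134217728 67108864
    (rowF 0 true true true .up 0 2 3 (qsf 0 536870912 1073741824 536870912 3) ndF1q0 ndF4q2 pcF3 Cut.none Ext.none)

def k0_pp_023 : ∃ t, chk3 f_pp_023 t 1 1 1 = true :=
  ⟨(l 4), by decide +kernel⟩

theorem c_pp_023 : CertF 0 536870912 1073741824 536870912 134217728 67108864 true true true .up 0 2 3
    ndF1q0 ndF4q2 pcF3 Cut.none Ext.none :=
  certF0 (fam := true) (s1 := true) (s2 := true) (a := 0) (b := 2) (c := 3) (cn := .up) (n1 := ndF1q0) (n2 := ndF4q2) (pc := pcF3) (cut := Cut.none) (xt := Ext.none) (P1 := 0) (W1 := 536870912) (P2 := 1073741824) (W2 := 536870912) (P3 := 134217728) (W3 := 67108864)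
    rfl k0_pp_023

noncomputable def f_pp_033 : ℕ → ℕ → ℕ → ℕ → Bool := onCell 0 536870912 0 1230186008 134217728 67108864
    (rowF 0 true true true .pnn 0 3 3 (qsf 0 536870912 0 1230186008 3) ndF1q0 ndF4q3 pcF3 Cut.none Ext.none)

def k0_pp_033 : ∃ t, chk3 f_pp_033 t 1 1 1 = true :=
  ⟨(b (l 4) (l 4)), by decide +kernel⟩

theorem c_pp_033 : CertF 0 536870912 0 1230186008 134217728 67108864 true true true .pnn 0 3 3
    ndF1q0 ndF4q3 pcF3 Cut.none Ext.none :=
  certF0 (fam := true) (s1 := true) (s2 := true) (a := 0) (b := 3) (c := 3) (cn := .pnn) (n1 := ndF1q0) (n2 := ndF4q3) (pc := pcF3) (cut := Cut.none) (xt := Ext.none) (P1 := 0) (W1 := 536870912) (P2 := 0) (W2 := 1230186008) (P3 := 134217728) (W3 := 67108864)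
    rfl k0_pp_033

noncomputable def f_pp_101 : ℕ → ℕ → ℕ → ℕ → Bool := onCell 536870912 536870912 0 536870912 134217728 67108864
    (rowF 0 true true true .npn 1 0 1 (qsf 536870912 536870912 0 536870912 1) ndF1q1 ndF4q0 pcF1 Cut.none Ext.none)

def k0_pp_101 : ∃ t, chk3 f_pp_101 t 1 1 1 = true :=
  ⟨(l 4), by decide +kernel⟩

theorem c_pp_101 : CertF 536870912 536870912 0 536870912 134217728 67108864 true true true .npn 1 0 1
    ndF1q1 ndF4q0 pcF1 Cut.none Ext.none :=
  certF0 (fam := true) (s1 := true) (s2 := true) (a := 1) (b := 0) (c := 1) (cn := .npn) (n1 := ndF1q1) (n2 := ndF4q0) (pc := pcF1) (cut := Cut.none) (xt := Ext.none) (P1 := 536870912) (W1 := 536870912) (P2 := 0) (W2 := 536870912) (P3 := 134217728) (W3 := 67108864)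
    rfl k0_pp_101

noncomputable def f_pp_102 : ℕ → ℕ → ℕ → ℕ → Bool := onCell 536870912 536870912 0 536870912 134217728 67108864
    (rowF 0 true true true .npp 1 0 2 (qsf 536870912 536870912 0 536870912 2) ndF1q1 ndF4q0 pcF2 Cut.none Ext.none)

def k0_pp_102 : ∃ t, chk3 f_pp_102 t 1 1 1 = true :=
  ⟨(l 4), by decide +kernel⟩

theorem c_pp_102 : CertF 536870912 536870912 0 536870912 134217728 67108864 true true true .npp 1 0 2
    ndF1q1 ndF4q0 pcF2 Cut.none Ext.none :=
  certF0 (fam := true) (s1 := true) (s2 := true) (a := 1) (b := 0) (c := 2) (cn := .npp) (n1 := ndF1q1) (n2 := ndF4q0) (pc := pcF2) (cut := Cut.none) (xt := Ext.none) (P1 := 536870912) (W1 := 536870912) (P2 := 0) (W2 := 536870912) (P3 := 134217728) (W3 := 67108864)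
    rfl k0_pp_102

noncomputable def f_pp_112 : ℕ → ℕ → ℕ → ℕ → Bool := onCell 536870912 536870912 536870912 536870912 134217728 67108864
    (rowF 0 true true true .dn 1 1 2 (qsf 536870912 536870912 536870912 536870912 2) ndF1q1 ndF4q1 pcF2 Cut.none Ext.none)

def k0_pp_112 : ∃ t, chk3 f_pp_112 t 1 1 1 = true :=
  ⟨(l 4), by decide +kernel⟩

theorem c_pp_112 : CertF 536870912 536870912 536870912 536870912 134217728 67108864 true true true .dn 1 1 2
    ndF1q1 ndF4q1 pcF2 Cut.none Ext.none :=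
  certF0 (fam := true) (s1 := true) (s2 := true) (a := 1) (b := 1) (c := 2) (cn := .dn) (n1 := ndF1q1) (n2 := ndF4q1) (pc := pcF2) (cut := Cut.none) (xt := Ext.none) (P1 := 536870912) (W1 := 536870912) (P2 := 536870912) (W2 := 536870912) (P3 := 134217728) (W3 := 67108864)
    rfl k0_pp_112

noncomputable def f_pp_113 : ℕ → ℕ → ℕ → ℕ → Bool := onCell 536870912 536870912 536870912 536870912 134217728 67108864
    (rowF 0 true true true .nn 1 1 3 (qsf 536870912 536870912 536870912 536870912 3) ndF1q1 ndF4q1 pcF3 Cut.none Ext.none)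

def k0_pp_113 : ∃ t, chk3 f_pp_113 t 1 1 1 = true :=
  ⟨(l 4), by decide +kernel⟩

theorem c_pp_113 : CertF 536870912 536870912 536870912 536870912 134217728 67108864 true true true .nn 1 1 3
    ndF1q1 ndF4q1 pcF3 Cut.none Ext.none :=
  certF0 (fam := true) (s1 := true) (s2 := true) (a := 1) (b := 1) (c := 3) (cn := .nn) (n1 := ndF1q1) (n2 := ndF4q1) (pc := pcF3) (cut := Cut.none) (xt := Ext.none) (P1 := 536870912) (W1 := 536870912) (P2 := 536870912) (W2 := 536870912) (P3 := 134217728) (W3 := 67108864)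
    rfl k0_pp_113

noncomputable def f_pp_123 : ℕ → ℕ → ℕ → ℕ → Bool := onCell 536870912 536870912 1073741824 536870912 134217728 67108864
    (rowF 0 true true true .npn 1 2 3 (qsf 536870912 536870912 1073741824 536870912 3) ndF1q1 ndF4q2 pcF3 Cut.none Ext.none)

def k0_pp_123 : ∃ t, chk3 f_pp_123 t 1 1 1 = true :=
  ⟨(l 4), by decide +kernel⟩

theorem c_pp_123 : CertF 536870912 536870912 1073741824 536870912 134217728 67108864 true true true .npn 1 2 3
    ndF1q1 ndF4q2 pcF3 Cut.none Ext.none :=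
  certF0 (fam := true) (s1 := true) (s2 := true) (a := 1) (b := 2) (c := 3) (cn := .npn) (n1 := ndF1q1) (n2 := ndF4q2) (pc := pcF3) (cut := Cut.none) (xt := Ext.none) (P1 := 536870912) (W1 := 536870912) (P2 := 1073741824) (W2 := 536870912) (P3 := 134217728) (W3 := 67108864)
    rfl k0_pp_123

noncomputable def f_pp_133 : ℕ → ℕ → ℕ → ℕ → Bool := onCell 536870912 536870912 0 1230186008 134217728 67108864
    (rowF 0 true true true .dn 1 3 3 (qsf 536870912 536870912 0 1230186008 3) ndF1q1 ndF4q3 pcF3 Cut.none Ext.none)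

def k0_pp_133 : ∃ t, chk3 f_pp_133 t 1 1 1 = true :=
  ⟨(l 4), by decide +kernel⟩

theorem c_pp_133 : CertF 536870912 536870912 0 1230186008 134217728 67108864 true true true .dn 1 3 3
    ndF1q1 ndF4q3 pcF3 Cut.none Ext.none :=
  certF0 (fam := true) (s1 := true) (s2 := true) (a := 1) (b := 3) (c := 3) (cn := .dn) (n1 := ndF1q1) (n2 := ndF4q3) (pc := pcF3) (cut := Cut.none) (xt := Ext.none) (P1 := 536870912) (W1 := 536870912) (P2 := 0) (W2 := 1230186008) (P3 := 134217728) (W3 := 67108864)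
    rfl k0_pp_133

noncomputable def f_pp_202_a : ℕ → ℕ → ℕ → ℕ → Bool := onCell 0 536870912 0 536870912 134217728 67108864
    (rowF 0 true true true .pp 2 0 2 (qsf 0 536870912 0 536870912 2) ndF1q2a ndF4q0 pcF2 Cut.none Ext.none)

def k0_pp_202_a : ∃ t, chk3 f_pp_202_a t 1 1 1 = true :=
  ⟨(l 4), by decide +kernel⟩

theorem c_pp_202_a : CertF 0 536870912 0 536870912 134217728 67108864 true true true .pp 2 0 2
    ndF1q2a ndF4q0 pcF2 Cut.none Ext.none :=
  certF0 (fam := true) (s1 := true) (s2 := true) (a := 2) (b := 0) (c := 2) (cn := .pp) (n1 := ndF1q2a) (n2 := ndF4q0) (pc := pcF2) (cut := Cut.none) (xt := Ext.none) (P1 := 0) (W1 := 536870912) (P2 := 0) (W2 := 536870912) (P3 := 134217728) (W3 := 67108864)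
    rfl k0_pp_202_a

noncomputable def f_pp_202_b : ℕ → ℕ → ℕ → ℕ → Bool := onCell 1239849684 370763052 0 536870912 134217728 67108864
    (rowF 0 true true true .pp 2 0 2 (qsf 1239849684 370763052 0 536870912 2) ndF1q2b ndF4q0 pcF2 Cut.none Ext.none)

def k0_pp_202_b : ∃ t, chk3 f_pp_202_b t 1 1 1 = true :=
  ⟨(l 4), by decide +kernel⟩

theorem c_pp_202_b : CertF 1239849684 370763052 0 536870912 134217728 67108864 true true true .pp 2 0 2
    ndF1q2b ndF4q0 pcF2 Cut.none Ext.none :=
  certF0 (fam := true) (s1 := true) (s2 := true) (a := 2) (b := 0) (c := 2) (cn := .pp) (n1 := ndF1q2b) (n2 := ndF4q0) (pc := pcF2) (cut := Cut.none) (xt := Ext.none) (P1 := 1239849684) (W1 := 370763052) (P2 := 0) (W2 := 536870912) (P3 := 134217728) (W3 := 67108864)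
    rfl k0_pp_202_b

noncomputable def f_pp_203_a : ℕ → ℕ → ℕ → ℕ → Bool := onCell 0 536870912 0 536870912 134217728 67108864
    (rowF 0 true true true .up 2 0 3 (qsf 0 536870912 0 536870912 3) ndF1q2a ndF4q0 pcF3 Cut.none Ext.none)

def k0_pp_203_a : ∃ t, chk3 f_pp_203_a t 1 1 1 = true :=
  ⟨(l 4), by decide +kernel⟩

theorem c_pp_203_a : CertF 0 536870912 0 536870912 134217728 67108864 true true true .up 2 0 3
    ndF1q2a ndF4q0 pcF3 Cut.none Ext.none :=
  certF0 (fam := true) (s1 := true) (s2 := true) (a := 2) (b := 0) (c := 3) (cn := .up) (n1 := ndF1q2a) (n2 := ndF4q0) (pc := pcF3) (cut := Cut.none) (xt := Ext.none) (P1 := 0) (W1 := 536870912) (P2 := 0) (W2 := 536870912) (P3 := 134217728) (W3 := 67108864)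
    rfl k0_pp_203_a

noncomputable def f_pp_203_b : ℕ → ℕ → ℕ → ℕ → Bool := onCell 1239849684 370763052 0 536870912 134217728 67108864
    (rowF 0 true true true .up 2 0 3 (qsf 1239849684 370763052 0 536870912 3) ndF1q2b ndF4q0 pcF3 Cut.none Ext.none)

def k0_pp_203_b : ∃ t, chk3 f_pp_203_b t 1 1 1 = true :=
  ⟨(l 4), by decide +kernel⟩

theorem c_pp_203_b : CertF 1239849684 370763052 0 536870912 134217728 67108864 true true true .up 2 0 3
    ndF1q2b ndF4q0 pcF3 Cut.none Ext.none :=
  certF0 (fam := true) (s1 := true) (s2 := true) (a := 2) (b := 0) (c := 3) (cn := .up) (n1 := ndF1q2b) (n2 := ndF4q0) (pc := pcF3) (cut := Cut.none) (xt := Ext.none) (P1 := 1239849684) (W1 := 370763052) (P2 := 0) (W2 := 536870912) (P3 := 134217728) (W3 := 67108864)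
    rfl k0_pp_203_b

noncomputable def f_pp_213_a : ℕ → ℕ → ℕ → ℕ → Bool := onCell 0 536870912 536870912 536870912 134217728 67108864
    (rowF 0 true true true .pnn 2 1 3 (qsf 0 536870912 536870912 536870912 3) ndF1q2a ndF4q1 pcF3 Cut.none Ext.none)

def k0_pp_213_a : ∃ t, chk3 f_pp_213_a t 1 1 1 = true :=
  ⟨(l 4), by decide +kernel⟩

theorem c_pp_213_a : CertF 0 536870912 536870912 536870912 134217728 67108864 true true true .pnn 2 1 3
    ndF1q2a ndF4q1 pcF3 Cut.none Ext.none :=
  certF0 (fam := true) (s1 := true) (s2 := true) (a := 2) (b := 1) (c := 3) (cn := .pnn) (n1 := ndF1q2a) (n2 := ndF4q1) (pc := pcF3) (cut := Cut.none) (xt := Ext.none) (P1 := 0) (W1 := 536870912) (P2 := 536870912) (W2 := 536870912) (P3 := 134217728) (W3 := 67108864)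
    rfl k0_pp_213_a

noncomputable def f_pp_213_b : ℕ → ℕ → ℕ → ℕ → Bool := onCell 1239849684 370763052 536870912 536870912 134217728 67108864
    (rowF 0 true true true .pnn 2 1 3 (qsf 1239849684 370763052 536870912 536870912 3) ndF1q2b ndF4q1 pcF3 Cut.none Ext.none)

def k0_pp_213_b : ∃ t, chk3 f_pp_213_b t 1 1 1 = true :=
  ⟨(l 4), by decide +kernel⟩

theorem c_pp_213_b : CertF 1239849684 370763052 536870912 536870912 134217728 67108864 true true true .pnn 2 1 3
    ndF1q2b ndF4q1 pcF3 Cut.none Ext.none :=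
  certF0 (fam := true) (s1 := true) (s2 := true) (a := 2) (b := 1) (c := 3) (cn := .pnn) (n1 := ndF1q2b) (n2 := ndF4q1) (pc := pcF3) (cut := Cut.none) (xt := Ext.none) (P1 := 1239849684) (W1 := 370763052) (P2 := 536870912) (W2 := 536870912) (P3 := 134217728) (W3 := 67108864)
    rfl k0_pp_213_b

noncomputable def f_pp_303 : ℕ → ℕ → ℕ → ℕ → Bool := onCell 1610612736 536870912 0 536870912 134217728 67108864
    (rowF 0 true true true .npn 3 0 3 (qsf 1610612736 536870912 0 536870912 3) ndF1q3 ndF4q0 pcF3 Cut.none Ext.none)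

def k0_pp_303 : ∃ t, chk3 f_pp_303 t 1 1 1 = true :=
  ⟨(l 4), by decide +kernel⟩

theorem c_pp_303 : CertF 1610612736 536870912 0 536870912 134217728 67108864 true true true .npn 3 0 3
    ndF1q3 ndF4q0 pcF3 Cut.none Ext.none :=
  certF0 (fam := true) (s1 := true) (s2 := true) (a := 3) (b := 0) (c := 3) (cn := .npn) (n1 := ndF1q3) (n2 := ndF4q0) (pc := pcF3) (cut := Cut.none) (xt := Ext.none) (P1 := 1610612736) (W1 := 536870912) (P2 := 0) (W2 := 536870912) (P3 := 134217728) (W3 := 67108864)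
    rfl k0_pp_303

noncomputable def f_pp_313 : ℕ → ℕ → ℕ → ℕ → Bool := onCell 1610612736 536870912 536870912 536870912 134217728 67108864
    (rowF 0 true true true .dn 3 1 3 (qsf 1610612736 536870912 536870912 536870912 3) ndF1q3 ndF4q1 pcF3 Cut.none Ext.none)

def k0_pp_313 : ∃ t, chk3 f_pp_313 t 1 1 1 = true :=
  ⟨(l 4), by decide +kernel⟩

theorem c_pp_313 : CertF 1610612736 536870912 536870912 536870912 134217728 67108864 true true true .dn 3 1 3
    ndF1q3 ndF4q1 pcF3 Cut.none Ext.none :=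
  certF0 (fam := true) (s1 := true) (s2 := true) (a := 3) (b := 1) (c := 3) (cn := .dn) (n1 := ndF1q3) (n2 := ndF4q1) (pc := pcF3) (cut := Cut.none) (xt := Ext.none) (P1 := 1610612736) (W1 := 536870912) (P2 := 536870912) (W2 := 536870912) (P3 := 134217728) (W3 := 67108864)
    rfl k0_pp_313

noncomputable def f_pm_001 : ℕ → ℕ → ℕ → ℕ → Bool := onCell 0 536870912 0 536870912 134217728 67108864
    (rowF 0 true true false .up 0 0 1 (qsf 0 536870912 0 536870912 1) ndF1q0 ndF4q0 pcF1 Cut.none Ext.none)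

def k0_pm_001 : ∃ t, chk3 f_pm_001 t 1 1 1 = true :=
  ⟨(a (l 3) (l 3)), by decide +kernel⟩

theorem c_pm_001 : CertF 0 536870912 0 536870912 134217728 67108864 true true false .up 0 0 1
    ndF1q0 ndF4q0 pcF1 Cut.none Ext.none :=
  certF0 (fam := true) (s1 := true) (s2 := false) (a := 0) (b := 0) (c := 1) (cn := .up) (n1 := ndF1q0) (n2 := ndF4q0) (pc := pcF1) (cut := Cut.none) (xt := Ext.none) (P1 := 0) (W1 := 536870912) (P2 := 0) (W2 := 536870912) (P3 := 134217728) (W3 := 67108864)
    rfl k0_pm_001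

noncomputable def cut_pm_011 : Cut := Cut.of [[⟨0, 0, 0, 67108864⟩, ⟨1, 1, 0, 67108864⟩, ⟨2, 1, 0, 67108864⟩]]

noncomputable def f_pm_011 : ℕ → ℕ → ℕ → ℕ → Bool := onCell 0 536870912 536870912 536870912 134217728 67108864
    (rowF 1 true true false .pnn 0 1 1 (qsf 0 536870912 536870912 536870912 1) ndF1q0 ndF4q1 pcF1 cut_pm_011 Ext.none)

def k0_pm_011 : ∃ t, chk3 f_pm_011 t 1 1 1 = true :=
  ⟨(b (l 3) (b (l 3) (a (a (b (l 3) (a (b (l 3) (a (b (l 3) (l 6)) (l 3))) (l 3))) (l 3)) (l 3)))), by decide +kernel⟩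

theorem c_pm_011 : CertF 0 536870912 536870912 536870912 134217728 67108864 true true false .pnn 0 1 1
    ndF1q0 ndF4q1 pcF1 cut_pm_011 Ext.none :=
  certF1 (fam := true) (s1 := true) (s2 := false) (a := 0) (b := 1) (c := 1) (cn := .pnn) (n1 := ndF1q0) (n2 := ndF4q1) (pc := pcF1) (cut := cut_pm_011) (xt := Ext.none) (P1 := 0) (W1 := 536870912) (P2 := 536870912) (W2 := 536870912) (P3 := 134217728) (W3 := 67108864)
    rfl (fun _ => rfl) k0_pm_011

noncomputable def cut_pm_012 : Cut := Cut.of [[⟨0, 0, 0, 67108864⟩, ⟨1, 1, 0, 67108864⟩, ⟨2, 1, 0, 67108864⟩]]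

noncomputable def f_pm_012 : ℕ → ℕ → ℕ → ℕ → Bool := onCell 1073741824 536870912 536870912 536870912 134217728 67108864
    (rowF 2 true true false .pnp 0 1 2 (qsf 0 536870912 536870912 536870912 2) ndF1q0 ndF4q1 pcF2 cut_pm_012 Ext.none)

def k0_pm_012 : ∃ t, chk3 f_pm_012 t 1 1 1 = true :=
  ⟨(a (b (a (a (b (l 17662976) (l 262699773863)) (a (l 17826952) (l 17925456))) (a (b (l 17980712) (l 18096176)) (l 18144240))) (a (a (b (a (b (l 3) (l 3)) (b (l 17477352) (l 17122728))) (a (b (a (l 3) (l 16667480)) (a (b (b (l 3) (l 261623861175)) (l 6)) (b (b (l 16676560) (l 16689016)) (b (a (l 6) (l 16695776)) (l 6))))) (b (a (l 16595584) (l 16593792)) (b (a (l 16674400) (l 16627896)) (b (a (l 16674176) (l 16645640)) (a (b (l 16684288) (l 6)) (l 16658576))))))) (b (a (b (l 17705240) (l 17459664)) (l 17846256)) (b (a (b (l 17030696) (l 16571304)) (l 17319448)) (a (b (l 16612352) (b (l 16607296) (l 16618152))) (b (l 16551568) (l 16567232)))))) (b (a (l 18131880) (l 18395632)) (b (a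 (a (l 17737728) (l 18062656)) (l 18420352)) (a (b (a (l 17219976) (l 17766912)) (a (l 16523576) (l 17349272))) (b (l 18321640) (l 18153136))))))) (b (a (l 18234232) (l 2)) (b (a (l 18622592) (l 18723992)) (a (b (l 18823200) (l 18916656)) (l 19102272))))), by decide +kernel⟩

theorem c_pm_012 : CertF 0 536870912 536870912 536870912 134217728 67108864 true true false .pnp 0 1 2
    ndF1q0 ndF4q1 pcF2 cut_pm_012 Ext.none :=
  certF2 (fam := true) (s1 := true) (s2 := false) (a := 0) (b := 1) (c := 2) (cn := .pnp) (n1 := ndF1q0) (n2 := ndF4q1) (pc := pcF2) (cut := cut_pm_012) (xt := Ext.none) (P1 := 0) (W1 := 536870912) (P2 := 536870912) (W2 := 536870912) (P3 := 134217728) (W3 := 67108864)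
    rfl (fun _ => rfl) k0_pm_012

noncomputable def f_pm_022 : ℕ → ℕ → ℕ → ℕ → Bool := onCell 0 536870912 1073741824 536870912 134217728 67108864
    (rowF 1 true true false .pp 0 2 2 (qsf 0 536870912 1073741824 536870912 2) ndF1q0 ndF4q2 pcF2 Cut.none Ext.none)

def k0_pm_022 : ∃ t, chk3 f_pm_022 t 1 1 1 = true :=
  ⟨(b (b (l 3) (b (a (b (b (l 3) (b (l 3) (b (l 3) (a (a (c (b (b (l 3) (l 16889224)) (l 16920616)) (b (a (l 16622896) (l 16594576)) (l 16605016))) (b (l 16546312) (l 16542232))) (a (l 16661696) (l 1)))))) (a (a (a (c (l 17218560) (l 16583416)) (l 16848416)) (l 16793080)) (l 16823880))) (l 1)) (a (a (a (a (c (l 17846168) (l 17286672)) (l 17534472)) (l 17501104)) (l 17505536)) (l 295315114343)))) (a (a (b (a (b (l 18047368) (l 18321072)) (l 18174344)) (l 18503992)) (b (l 18148712) (l 18444392))) (b (a (l 18209232) (l 18318064)) (l 18418816)))), by decide +kernel⟩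

theorem c_pm_022 : CertF 0 536870912 1073741824 536870912 134217728 67108864 true true false .pp 0 2 2
    ndF1q0 ndF4q2 pcF2 Cut.none Ext.none :=
  certF1 (fam := true) (s1 := true) (s2 := false) (a := 0) (b := 2) (c := 2) (cn := .pp) (n1 := ndF1q0) (n2 := ndF4q2) (pc := pcF2) (cut := Cut.none) (xt := Ext.none) (P1 := 0) (W1 := 536870912) (P2 := 1073741824) (W2 := 536870912) (P3 := 134217728) (W3 := 67108864)
    rfl (fun _ => rfl) k0_pm_022

noncomputable def f_pm_023 : ℕ → ℕ → ℕ → ℕ → Bool := onCell 1610612736 536870912 1073741824 536870912 134217728 67108864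
    (rowF 2 true true false .up 0 2 3 (qsf 0 536870912 1073741824 536870912 3) ndF1q0 ndF4q2 pcF3 Cut.none Ext.none)

def k0_pm_023 : ∃ t, chk3 f_pm_023 t 1 1 1 = true :=
  ⟨(b (a (l 18468080) (a (l 18237368) (l 2))) (a (a (l 18448808) (l 18335728)) (a (l 18177064) (a (l 18057032) (a (l 17994264) (a (l 17960160) (l 18049144))))))), by decide +kernel⟩

theorem c_pm_023 : CertF 0 536870912 1073741824 536870912 134217728 67108864 true true false .up 0 2 3
    ndF1q0 ndF4q2 pcF3 Cut.none Ext.none :=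
  certF2 (fam := true) (s1 := true) (s2 := false) (a := 0) (b := 2) (c := 3) (cn := .up) (n1 := ndF1q0) (n2 := ndF4q2) (pc := pcF3) (cut := Cut.none) (xt := Ext.none) (P1 := 0) (W1 := 536870912) (P2 := 1073741824) (W2 := 536870912) (P3 := 134217728) (W3 := 67108864)
    rfl (fun _ => rfl) k0_pm_023

noncomputable def f_pm_033 : ℕ → ℕ → ℕ → ℕ → Bool := onCell 1610612736 536870912 0 1230186008 134217728 67108864
    (rowF 2 true true false .pnn 0 3 3 (qsf 0 536870912 0 1230186008 3) ndF1q0 ndF4q3 pcF3 Cut.none Ext.none)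

def k0_pm_033 : ∃ t, chk3 f_pm_033 t 1 1 1 = true :=
  ⟨(a (b (l 1) (b (b (l 1) (a (l 1) (a (l 1) (l 17848280)))) (b (a (l 1) (l 17891768)) (a (a (l 306053090807) (l 17990200)) (l 17785136))))) (a (b (l 1) (b (b (l 651797273879) (l 17720392)) (b (l 17647792) (l 17540952)))) (a (b (l 18065528) (b (l 17654576) (l 17424528))) (b (l 4) (b (l 4) (a (l 17346752) (a (l 17312000) (l 4)))))))), by decide +kernel⟩

theorem c_pm_033 : CertF 0 536870912 0 1230186008 134217728 67108864 true true false .pnn 0 3 3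
    ndF1q0 ndF4q3 pcF3 Cut.none Ext.none :=
  certF2 (fam := true) (s1 := true) (s2 := false) (a := 0) (b := 3) (c := 3) (cn := .pnn) (n1 := ndF1q0) (n2 := ndF4q3) (pc := pcF3) (cut := Cut.none) (xt := Ext.none) (P1 := 0) (W1 := 536870912) (P2 := 0) (W2 := 1230186008) (P3 := 134217728) (W3 := 67108864)
    rfl (fun _ => rfl) k0_pm_033

noncomputable def f_pm_101 : ℕ → ℕ → ℕ → ℕ → Bool := onCell 536870912 536870912 0 536870912 134217728 67108864
    (rowF 2 true true false .npn 1 0 1 (qsf 536870912 536870912 0 536870912 1) ndF1q1 ndF4q0 pcF1 Cut.none Ext.none)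

def k0_pm_101 : ∃ t, chk3 f_pm_101 t 1 1 1 = true :=
  ⟨(a (l 3) (b (l 3) (l 3))), by decide +kernel⟩

theorem c_pm_101 : CertF 536870912 536870912 0 536870912 134217728 67108864 true true false .npn 1 0 1
    ndF1q1 ndF4q0 pcF1 Cut.none Ext.none :=
  certF2 (fam := true) (s1 := true) (s2 := false) (a := 1) (b := 0) (c := 1) (cn := .npn) (n1 := ndF1q1) (n2 := ndF4q0) (pc := pcF1) (cut := Cut.none) (xt := Ext.none) (P1 := 536870912) (W1 := 536870912) (P2 := 0) (W2 := 536870912) (P3 := 134217728) (W3 := 67108864)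
    rfl (fun _ => rfl) k0_pm_101

noncomputable def f_pm_102 : ℕ → ℕ → ℕ → ℕ → Bool := onCell 536870912 536870912 1073741824 536870912 134217728 67108864
    (rowF 1 true true false .npp 1 0 2 (qsf 536870912 536870912 0 536870912 2) ndF1q1 ndF4q0 pcF2 Cut.none Ext.none)

def k0_pm_102 : ∃ t, chk3 f_pm_102 t 1 1 1 = true :=
  ⟨(b (b (b (a (l 17442856) (l 17642336)) (a (l 17358872) (b (b (l 17613632) (l 17597408)) (l 17724424)))) (b (a (b (l 17279960) (l 17231864)) (b (a (l 17445544) (l 17624648)) (l 17472488))) (a (l 17166256) (l 17437232)))) (a (l 16994376) (b (l 17364976) (l 17337400)))), by decide +kernel⟩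

theorem c_pm_102 : CertF 536870912 536870912 0 536870912 134217728 67108864 true true false .npp 1 0 2
    ndF1q1 ndF4q0 pcF2 Cut.none Ext.none :=
  certF1 (fam := true) (s1 := true) (s2 := false) (a := 1) (b := 0) (c := 2) (cn := .npp) (n1 := ndF1q1) (n2 := ndF4q0) (pc := pcF2) (cut := Cut.none) (xt := Ext.none) (P1 := 536870912) (W1 := 536870912) (P2 := 0) (W2 := 536870912) (P3 := 134217728) (W3 := 67108864)
    rfl (fun _ => rfl) k0_pm_102

noncomputable def f_pm_112 : ℕ → ℕ → ℕ → ℕ → Bool := onCell 536870912 536870912 1073741824 536870912 134217728 67108864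
    (rowF 1 true true false .dn 1 1 2 (qsf 536870912 536870912 536870912 536870912 2) ndF1q1 ndF4q1 pcF2 Cut.none Ext.none)

def k0_pm_112 : ∃ t, chk3 f_pm_112 t 1 1 1 = true :=
  ⟨(b (b (a (b (l 18173912) (b (l 18246792) (l 18290480))) (l 1)) (b (a (b (l 18313872) (l 18344448)) (l 1)) (a (l 18389688) (l 18219904)))) (a (l 18563064) (l 235723267735))), by decide +kernel⟩

theorem c_pm_112 : CertF 536870912 536870912 536870912 536870912 134217728 67108864 true true false .dn 1 1 2
    ndF1q1 ndF4q1 pcF2 Cut.none Ext.none :=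
  certF1 (fam := true) (s1 := true) (s2 := false) (a := 1) (b := 1) (c := 2) (cn := .dn) (n1 := ndF1q1) (n2 := ndF4q1) (pc := pcF2) (cut := Cut.none) (xt := Ext.none) (P1 := 536870912) (W1 := 536870912) (P2 := 536870912) (W2 := 536870912) (P3 := 134217728) (W3 := 67108864)
    rfl (fun _ => rfl) k0_pm_112

noncomputable def f_pm_113 : ℕ → ℕ → ℕ → ℕ → Bool := onCell 536870912 536870912 1610612736 536870912 134217728 67108864
    (rowF 1 true true false .nn 1 1 3 (qsf 536870912 536870912 536870912 536870912 3) ndF1q1 ndF4q1 pcF3 Cut.none Ext.none)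

def k0_pm_113 : ∃ t, chk3 f_pm_113 t 1 1 1 = true :=
  ⟨(a (b (l 18513344) (b (l 18722720) (l 2))) (b (l 17856248) (b (l 17987896) (b (l 18072160) (b (l 18135184) (b (l 18195560) (l 4))))))), by decide +kernel⟩

theorem c_pm_113 : CertF 536870912 536870912 536870912 536870912 134217728 67108864 true true false .nn 1 1 3
    ndF1q1 ndF4q1 pcF3 Cut.none Ext.none :=
  certF1 (fam := true) (s1 := true) (s2 := false) (a := 1) (b := 1) (c := 3) (cn := .nn) (n1 := ndF1q1) (n2 := ndF4q1) (pc := pcF3) (cut := Cut.none) (xt := Ext.none) (P1 := 536870912) (W1 := 536870912) (P2 := 536870912) (W2 := 536870912) (P3 := 134217728) (W3 := 67108864)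
    rfl (fun _ => rfl) k0_pm_113

noncomputable def f_pm_123 : ℕ → ℕ → ℕ → ℕ → Bool := onCell 536870912 536870912 1610612736 536870912 134217728 67108864
    (rowF 1 true true false .npn 1 2 3 (qsf 536870912 536870912 1073741824 536870912 3) ndF1q1 ndF4q2 pcF3 Cut.none Ext.none)

def k0_pm_123 : ∃ t, chk3 f_pm_123 t 1 1 1 = true :=
  ⟨(b (a (l 298536505847) (l 364571937079)) (b (a (l 17501816) (l 17748656)) (b (a (l 17323192) (l 17418912)) (b (a (l 17245144) (l 17322360)) (a (b (l 17198560) (b (l 17175040) (l 17148600))) (b (l 17274624) (b (l 17250544) (a (l 17232840) (l 17246392))))))))), by decide +kernel⟩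

theorem c_pm_123 : CertF 536870912 536870912 1073741824 536870912 134217728 67108864 true true false .npn 1 2 3
    ndF1q1 ndF4q2 pcF3 Cut.none Ext.none :=
  certF1 (fam := true) (s1 := true) (s2 := false) (a := 1) (b := 2) (c := 3) (cn := .npn) (n1 := ndF1q1) (n2 := ndF4q2) (pc := pcF3) (cut := Cut.none) (xt := Ext.none) (P1 := 536870912) (W1 := 536870912) (P2 := 1073741824) (W2 := 536870912) (P3 := 134217728) (W3 := 67108864)
    rfl (fun _ => rfl) k0_pm_123

noncomputable def f_pm_133 : ℕ → ℕ → ℕ → ℕ → Bool := onCell 536870912 536870912 0 1230186008 134217728 67108864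
    (rowF 0 true true false .dn 1 3 3 (qsf 536870912 536870912 0 1230186008 3) ndF1q1 ndF4q3 pcF3 Cut.none Ext.none)

def k0_pm_133 : ∃ t, chk3 f_pm_133 t 1 1 1 = true :=
  ⟨(b (l 2) (b (l 2) (a (b (l 2) (l 4)) (l 2)))), by decide +kernel⟩

theorem c_pm_133 : CertF 536870912 536870912 0 1230186008 134217728 67108864 true true false .dn 1 3 3
    ndF1q1 ndF4q3 pcF3 Cut.none Ext.none :=
  certF0 (fam := true) (s1 := true) (s2 := false) (a := 1) (b := 3) (c := 3) (cn := .dn) (n1 := ndF1q1) (n2 := ndF4q3) (pc := pcF3) (cut := Cut.none) (xt := Ext.none) (P1 := 536870912) (W1 := 536870912) (P2 := 0) (W2 := 1230186008) (P3 := 134217728) (W3 := 67108864)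
    rfl k0_pm_133

noncomputable def f_pm_202_a : ℕ → ℕ → ℕ → ℕ → Bool := onCell 0 536870912 1073741824 536870912 134217728 67108864
    (rowF 1 true true false .pp 2 0 2 (qsf 0 536870912 0 536870912 2) ndF1q2a ndF4q0 pcF2 Cut.none Ext.none)

def k0_pm_202_a : ∃ t, chk3 f_pm_202_a t 1 1 1 = true :=
  ⟨(a (b (b (b (l 1) (b (l 1) (l 237869984279))) (b (l 17887056) (l 18074776))) (b (l 17895600) (l 17518304))) (b (b (b (a (l 1) (l 18090984)) (b (b (l 18073088) (a (l 18048656) (l 18205248))) (a (l 18070784) (l 18128184)))) (b (a (l 18109552) (l 18282232)) (l 17989144))) (b (l 17816296) (l 17515520)))), by decide +kernel⟩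

theorem c_pm_202_a : CertF 0 536870912 0 536870912 134217728 67108864 true true false .pp 2 0 2
    ndF1q2a ndF4q0 pcF2 Cut.none Ext.none :=
  certF1 (fam := true) (s1 := true) (s2 := false) (a := 2) (b := 0) (c := 2) (cn := .pp) (n1 := ndF1q2a) (n2 := ndF4q0) (pc := pcF2) (cut := Cut.none) (xt := Ext.none) (P1 := 0) (W1 := 536870912) (P2 := 0) (W2 := 536870912) (P3 := 134217728) (W3 := 67108864)
    rfl (fun _ => rfl) k0_pm_202_a

noncomputable def f_pm_202_b : ℕ → ℕ → ℕ → ℕ → Bool := onCell 1073741824 536870912 0 536870912 134217728 67108864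
    (rowF 2 true true false .pp 2 0 2 (qsf 1239849684 370763052 0 536870912 2) ndF1q2b ndF4q0 pcF2 Cut.none Ext.none)

def k0_pm_202_b : ∃ t, chk3 f_pm_202_b t 1 1 1 = true :=
  ⟨(a (a (l 1) (b (b (l 345781458439) (l 1)) (l 1))) (a (b (b (l 17883184) (l 17817896)) (l 1)) (b (a (l 17740992) (l 4)) (l 4)))), by decide +kernel⟩

theorem c_pm_202_b : CertF 1239849684 370763052 0 536870912 134217728 67108864 true true false .pp 2 0 2
    ndF1q2b ndF4q0 pcF2 Cut.none Ext.none :=
  certF2 (fam := true) (s1 := true) (s2 := false) (a := 2) (b := 0) (c := 2) (cn := .pp) (n1 := ndF1q2b) (n2 := ndF4q0) (pc := pcF2) (cut := Cut.none) (xt := Ext.none) (P1 := 1239849684) (W1 := 370763052) (P2 := 0) (W2 := 536870912) (P3 := 134217728) (W3 := 67108864)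
    rfl (fun _ => rfl) k0_pm_202_b

noncomputable def f_pm_203_a : ℕ → ℕ → ℕ → ℕ → Bool := onCell 0 536870912 1610612736 536870912 134217728 67108864
    (rowF 1 true true false .up 2 0 3 (qsf 0 536870912 0 536870912 3) ndF1q2a ndF4q0 pcF3 Cut.none Ext.none)

def k0_pm_203_a : ∃ t, chk3 f_pm_203_a t 1 1 1 = true :=
  ⟨(b (b (b (l 17484224) (l 17399944)) (l 4)) (l 2)), by decide +kernel⟩

theorem c_pm_203_a : CertF 0 536870912 0 536870912 134217728 67108864 true true false .up 2 0 3
    ndF1q2a ndF4q0 pcF3 Cut.none Ext.none :=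
  certF1 (fam := true) (s1 := true) (s2 := false) (a := 2) (b := 0) (c := 3) (cn := .up) (n1 := ndF1q2a) (n2 := ndF4q0) (pc := pcF3) (cut := Cut.none) (xt := Ext.none) (P1 := 0) (W1 := 536870912) (P2 := 0) (W2 := 536870912) (P3 := 134217728) (W3 := 67108864)
    rfl (fun _ => rfl) k0_pm_203_a

noncomputable def f_pm_203_b : ℕ → ℕ → ℕ → ℕ → Bool := onCell 1239849684 370763052 1610612736 536870912 134217728 67108864
    (rowF 1 true true false .up 2 0 3 (qsf 1239849684 370763052 0 536870912 3) ndF1q2b ndF4q0 pcF3 Cut.none Ext.none)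

def k0_pm_203_b : ∃ t, chk3 f_pm_203_b t 1 1 1 = true :=
  ⟨(l 4), by decide +kernel⟩

theorem c_pm_203_b : CertF 1239849684 370763052 0 536870912 134217728 67108864 true true false .up 2 0 3
    ndF1q2b ndF4q0 pcF3 Cut.none Ext.none :=
  certF1 (fam := true) (s1 := true) (s2 := false) (a := 2) (b := 0) (c := 3) (cn := .up) (n1 := ndF1q2b) (n2 := ndF4q0) (pc := pcF3) (cut := Cut.none) (xt := Ext.none) (P1 := 1239849684) (W1 := 370763052) (P2 := 0) (W2 := 536870912) (P3 := 134217728) (W3 := 67108864)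
    rfl (fun _ => rfl) k0_pm_203_b

noncomputable def f_pm_213_a : ℕ → ℕ → ℕ → ℕ → Bool := onCell 0 536870912 1610612736 536870912 134217728 67108864
    (rowF 1 true true false .pnn 2 1 3 (qsf 0 536870912 536870912 536870912 3) ndF1q2a ndF4q1 pcF3 Cut.none Ext.none)

def k0_pm_213_a : ∃ t, chk3 f_pm_213_a t 1 1 1 = true :=
  ⟨(b (b (b (l 17767328) (l 17647880)) (l 4)) (l 4)), by decide +kernel⟩

theorem c_pm_213_a : CertF 0 536870912 536870912 536870912 134217728 67108864 true true false .pnn 2 1 3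
    ndF1q2a ndF4q1 pcF3 Cut.none Ext.none :=
  certF1 (fam := true) (s1 := true) (s2 := false) (a := 2) (b := 1) (c := 3) (cn := .pnn) (n1 := ndF1q2a) (n2 := ndF4q1) (pc := pcF3) (cut := Cut.none) (xt := Ext.none) (P1 := 0) (W1 := 536870912) (P2 := 536870912) (W2 := 536870912) (P3 := 134217728) (W3 := 67108864)
    rfl (fun _ => rfl) k0_pm_213_a

noncomputable def f_pm_213_b : ℕ → ℕ → ℕ → ℕ → Bool := onCell 1239849684 370763052 536870912 536870912 134217728 67108864
    (rowF 0 true true false .pnn 2 1 3 (qsf 1239849684 370763052 536870912 536870912 3) ndF1q2b ndF4q1 pcF3 Cut.none Ext.none)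

def k0_pm_213_b : ∃ t, chk3 f_pm_213_b t 1 1 1 = true :=
  ⟨(l 4), by decide +kernel⟩

theorem c_pm_213_b : CertF 1239849684 370763052 536870912 536870912 134217728 67108864 true true false .pnn 2 1 3
    ndF1q2b ndF4q1 pcF3 Cut.none Ext.none :=
  certF0 (fam := true) (s1 := true) (s2 := false) (a := 2) (b := 1) (c := 3) (cn := .pnn) (n1 := ndF1q2b) (n2 := ndF4q1) (pc := pcF3) (cut := Cut.none) (xt := Ext.none) (P1 := 1239849684) (W1 := 370763052) (P2 := 536870912) (W2 := 536870912) (P3 := 134217728) (W3 := 67108864)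
    rfl k0_pm_213_b

noncomputable def f_pm_303 : ℕ → ℕ → ℕ → ℕ → Bool := onCell 1610612736 536870912 0 536870912 134217728 67108864
    (rowF 2 true true false .npn 3 0 3 (qsf 1610612736 536870912 0 536870912 3) ndF1q3 ndF4q0 pcF3 Cut.none Ext.none)

def k0_pm_303 : ∃ t, chk3 f_pm_303 t 1 1 1 = true :=
  ⟨(l 4), by decide +kernel⟩

theorem c_pm_303 : CertF 1610612736 536870912 0 536870912 134217728 67108864 true true false .npn 3 0 3
    ndF1q3 ndF4q0 pcF3 Cut.none Ext.none :=
  certF2 (fam := true) (s1 := true) (s2 := false) (a := 3) (b := 0) (c := 3) (cn := .npn) (n1 := ndF1q3) (n2 := ndF4q0) (pc := pcF3) (cut := Cut.none) (xt := Ext.none) (P1 := 1610612736) (W1 := 536870912) (P2 := 0) (W2 := 536870912) (P3 := 134217728) (W3 := 67108864)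
    rfl (fun _ => rfl) k0_pm_303

noncomputable def f_pm_313 : ℕ → ℕ → ℕ → ℕ → Bool := onCell 1610612736 536870912 536870912 536870912 134217728 67108864
    (rowF 0 true true false .dn 3 1 3 (qsf 1610612736 536870912 536870912 536870912 3) ndF1q3 ndF4q1 pcF3 Cut.none Ext.none)

def k0_pm_313 : ∃ t, chk3 f_pm_313 t 1 1 1 = true :=
  ⟨(l 4), by decide +kernel⟩

theorem c_pm_313 : CertF 1610612736 536870912 536870912 536870912 134217728 67108864 true true false .dn 3 1 3
    ndF1q3 ndF4q1 pcF3 Cut.none Ext.none :=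
  certF0 (fam := true) (s1 := true) (s2 := false) (a := 3) (b := 1) (c := 3) (cn := .dn) (n1 := ndF1q3) (n2 := ndF4q1) (pc := pcF3) (cut := Cut.none) (xt := Ext.none) (P1 := 1610612736) (W1 := 536870912) (P2 := 536870912) (W2 := 536870912) (P3 := 134217728) (W3 := 67108864)
    rfl k0_pm_313

noncomputable def f_mm_001 : ℕ → ℕ → ℕ → ℕ → Bool := onCell 0 536870912 0 536870912 134217728 67108864
    (rowF 0 true false false .up 0 0 1 (qsf 0 536870912 0 536870912 1) ndF1q0 ndF4q0 pcF1 Cut.none Ext.none)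

def k0_mm_001 : ∃ t, chk3 f_mm_001 t 1 1 1 = true :=
  ⟨(l 4), by decide +kernel⟩

theorem c_mm_001 : CertF 0 536870912 0 536870912 134217728 67108864 true false false .up 0 0 1
    ndF1q0 ndF4q0 pcF1 Cut.none Ext.none :=
  certF0 (fam := true) (s1 := false) (s2 := false) (a := 0) (b := 0) (c := 1) (cn := .up) (n1 := ndF1q0) (n2 := ndF4q0) (pc := pcF1) (cut := Cut.none) (xt := Ext.none) (P1 := 0) (W1 := 536870912) (P2 := 0) (W2 := 536870912) (P3 := 134217728) (W3 := 67108864)
    rfl k0_mm_001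

noncomputable def f_mm_011 : ℕ → ℕ → ℕ → ℕ → Bool := onCell 0 536870912 536870912 536870912 134217728 67108864
    (rowF 0 true false false .pnn 0 1 1 (qsf 0 536870912 536870912 536870912 1) ndF1q0 ndF4q1 pcF1 Cut.none Ext.none)

def k0_mm_011 : ∃ t, chk3 f_mm_011 t 1 1 1 = true :=
  ⟨(l 4), by decide +kernel⟩

theorem c_mm_011 : CertF 0 536870912 536870912 536870912 134217728 67108864 true false false .pnn 0 1 1
    ndF1q0 ndF4q1 pcF1 Cut.none Ext.none :=
  certF0 (fam := true) (s1 := false) (s2 := false) (a := 0) (b := 1) (c := 1) (cn := .pnn) (n1 := ndF1q0) (n2 := ndF4q1) (pc := pcF1) (cut := Cut.none) (xt := Ext.none) (P1 := 0) (W1 := 536870912) (P2 := 536870912) (W2 := 536870912) (P3 := 134217728) (W3 := 67108864)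
    rfl k0_mm_011

noncomputable def f_mm_012 : ℕ → ℕ → ℕ → ℕ → Bool := onCell 0 536870912 536870912 536870912 134217728 67108864
    (rowF 0 true false false .pnp 0 1 2 (qsf 0 536870912 536870912 536870912 2) ndF1q0 ndF4q1 pcF2 Cut.none Ext.none)

def k0_mm_012 : ∃ t, chk3 f_mm_012 t 1 1 1 = true :=
  ⟨(l 4), by decide +kernel⟩

theorem c_mm_012 : CertF 0 536870912 536870912 536870912 134217728 67108864 true false false .pnp 0 1 2
    ndF1q0 ndF4q1 pcF2 Cut.none Ext.none :=
  certF0 (fam := true) (s1 := false) (s2 := false) (a := 0) (b := 1) (c := 2) (cn := .pnp) (n1 := ndF1q0) (n2 := ndF4q1) (pc := pcF2) (cut := Cut.none) (xt := Ext.none) (P1 := 0) (W1 := 536870912) (P2 := 536870912) (W2 := 536870912) (P3 := 134217728) (W3 := 67108864)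
    rfl k0_mm_012

noncomputable def f_mm_022 : ℕ → ℕ → ℕ → ℕ → Bool := onCell 0 536870912 1073741824 536870912 134217728 67108864
    (rowF 0 true false false .pp 0 2 2 (qsf 0 536870912 1073741824 536870912 2) ndF1q0 ndF4q2 pcF2 Cut.none Ext.none)

def k0_mm_022 : ∃ t, chk3 f_mm_022 t 1 1 1 = true :=
  ⟨(l 4), by decide +kernel⟩

theorem c_mm_022 : CertF 0 536870912 1073741824 536870912 134217728 67108864 true false false .pp 0 2 2
    ndF1q0 ndF4q2 pcF2 Cut.none Ext.none :=
  certF0 (fam := true) (s1 := false) (s2 := false) (a := 0) (b := 2) (c := 2) (cn := .pp) (n1 := ndF1q0) (n2 := ndF4q2) (pc := pcF2) (cut := Cut.none) (xt := Ext.none) (P1 := 0) (W1 := 536870912) (P2 := 1073741824) (W2 := 536870912) (P3 := 134217728) (W3 := 67108864)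
    rfl k0_mm_022

noncomputable def f_mm_023 : ℕ → ℕ → ℕ → ℕ → Bool := onCell 0 536870912 1073741824 536870912 134217728 67108864
    (rowF 0 true false false .up 0 2 3 (qsf 0 536870912 1073741824 536870912 3) ndF1q0 ndF4q2 pcF3 Cut.none Ext.none)

def k0_mm_023 : ∃ t, chk3 f_mm_023 t 1 1 1 = true :=
  ⟨(l 4), by decide +kernel⟩

theorem c_mm_023 : CertF 0 536870912 1073741824 536870912 134217728 67108864 true false false .up 0 2 3
    ndF1q0 ndF4q2 pcF3 Cut.none Ext.none :=
  certF0 (fam := true) (s1 := false) (s2 := false) (a := 0) (b := 2) (c := 3) (cn := .up) (n1 := ndF1q0) (n2 := ndF4q2) (pc := pcF3) (cut := Cut.none) (xt := Ext.none) (P1 := 0) (W1 := 536870912) (P2 := 1073741824) (W2 := 536870912) (P3 := 134217728) (W3 := 67108864)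
    rfl k0_mm_023

noncomputable def f_mm_033 : ℕ → ℕ → ℕ → ℕ → Bool := onCell 0 536870912 0 1230186008 134217728 67108864
    (rowF 0 true false false .pnn 0 3 3 (qsf 0 536870912 0 1230186008 3) ndF1q0 ndF4q3 pcF3 Cut.none Ext.none)

def k0_mm_033 : ∃ t, chk3 f_mm_033 t 1 1 1 = true :=
  ⟨(l 5), by decide +kernel⟩

theorem c_mm_033 : CertF 0 536870912 0 1230186008 134217728 67108864 true false false .pnn 0 3 3
    ndF1q0 ndF4q3 pcF3 Cut.none Ext.none :=
  certF0 (fam := true) (s1 := false) (s2 := false) (a := 0) (b := 3) (c := 3) (cn := .pnn) (n1 := ndF1q0) (n2 := ndF4q3) (pc := pcF3) (cut := Cut.none) (xt := Ext.none) (P1 := 0) (W1 := 536870912) (P2 := 0) (W2 := 1230186008) (P3 := 134217728) (W3 := 67108864)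
    rfl k0_mm_033

noncomputable def f_mm_101 : ℕ → ℕ → ℕ → ℕ → Bool := onCell 536870912 536870912 0 536870912 134217728 67108864
    (rowF 0 true false false .npn 1 0 1 (qsf 536870912 536870912 0 536870912 1) ndF1q1 ndF4q0 pcF1 Cut.none Ext.none)

def k0_mm_101 : ∃ t, chk3 f_mm_101 t 1 1 1 = true :=
  ⟨(l 4), by decide +kernel⟩

theorem c_mm_101 : CertF 536870912 536870912 0 536870912 134217728 67108864 true false false .npn 1 0 1
    ndF1q1 ndF4q0 pcF1 Cut.none Ext.none :=
  certF0 (fam := true) (s1 := false) (s2 := false) (a := 1) (b := 0) (c := 1) (cn := .npn) (n1 := ndF1q1) (n2 := ndF4q0) (pc := pcF1) (cut := Cut.none) (xt := Ext.none) (P1 := 536870912) (W1 := 536870912) (P2 := 0) (W2 := 536870912) (P3 := 134217728) (W3 := 67108864)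
    rfl k0_mm_101

noncomputable def f_mm_102 : ℕ → ℕ → ℕ → ℕ → Bool := onCell 536870912 536870912 0 536870912 134217728 67108864
    (rowF 0 true false false .npp 1 0 2 (qsf 536870912 536870912 0 536870912 2) ndF1q1 ndF4q0 pcF2 Cut.none Ext.none)

def k0_mm_102 : ∃ t, chk3 f_mm_102 t 1 1 1 = true :=
  ⟨(l 4), by decide +kernel⟩

theorem c_mm_102 : CertF 536870912 536870912 0 536870912 134217728 67108864 true false false .npp 1 0 2
    ndF1q1 ndF4q0 pcF2 Cut.none Ext.none :=
  certF0 (fam := true) (s1 := false) (s2 := false) (a := 1) (b := 0) (c := 2) (cn := .npp) (n1 := ndF1q1) (n2 := ndF4q0) (pc := pcF2) (cut := Cut.none) (xt := Ext.none) (P1 := 536870912) (W1 := 536870912) (P2 := 0) (W2 := 536870912) (P3 := 134217728) (W3 := 67108864)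
    rfl k0_mm_102

noncomputable def f_mm_112 : ℕ → ℕ → ℕ → ℕ → Bool := onCell 536870912 536870912 536870912 536870912 134217728 67108864
    (rowF 0 true false false .dn 1 1 2 (qsf 536870912 536870912 536870912 536870912 2) ndF1q1 ndF4q1 pcF2 Cut.none Ext.none)

def k0_mm_112 : ∃ t, chk3 f_mm_112 t 1 1 1 = true :=
  ⟨(l 4), by decide +kernel⟩

theorem c_mm_112 : CertF 536870912 536870912 536870912 536870912 134217728 67108864 true false false .dn 1 1 2
    ndF1q1 ndF4q1 pcF2 Cut.none Ext.none :=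
  certF0 (fam := true) (s1 := false) (s2 := false) (a := 1) (b := 1) (c := 2) (cn := .dn) (n1 := ndF1q1) (n2 := ndF4q1) (pc := pcF2) (cut := Cut.none) (xt := Ext.none) (P1 := 536870912) (W1 := 536870912) (P2 := 536870912) (W2 := 536870912) (P3 := 134217728) (W3 := 67108864)
    rfl k0_mm_112

noncomputable def f_mm_113 : ℕ → ℕ → ℕ → ℕ → Bool := onCell 536870912 536870912 536870912 536870912 134217728 67108864
    (rowF 0 true false false .nn 1 1 3 (qsf 536870912 536870912 536870912 536870912 3) ndF1q1 ndF4q1 pcF3 Cut.none Ext.none)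

def k0_mm_113 : ∃ t, chk3 f_mm_113 t 1 1 1 = true :=
  ⟨(l 4), by decide +kernel⟩

theorem c_mm_113 : CertF 536870912 536870912 536870912 536870912 134217728 67108864 true false false .nn 1 1 3
    ndF1q1 ndF4q1 pcF3 Cut.none Ext.none :=
  certF0 (fam := true) (s1 := false) (s2 := false) (a := 1) (b := 1) (c := 3) (cn := .nn) (n1 := ndF1q1) (n2 := ndF4q1) (pc := pcF3) (cut := Cut.none) (xt := Ext.none) (P1 := 536870912) (W1 := 536870912) (P2 := 536870912) (W2 := 536870912) (P3 := 134217728) (W3 := 67108864)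
    rfl k0_mm_113

noncomputable def f_mm_123 : ℕ → ℕ → ℕ → ℕ → Bool := onCell 536870912 536870912 1073741824 536870912 134217728 67108864
    (rowF 0 true false false .npn 1 2 3 (qsf 536870912 536870912 1073741824 536870912 3) ndF1q1 ndF4q2 pcF3 Cut.none Ext.none)

def k0_mm_123 : ∃ t, chk3 f_mm_123 t 1 1 1 = true :=
  ⟨(l 4), by decide +kernel⟩

theorem c_mm_123 : CertF 536870912 536870912 1073741824 536870912 134217728 67108864 true false false .npn 1 2 3
    ndF1q1 ndF4q2 pcF3 Cut.none Ext.none :=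
  certF0 (fam := true) (s1 := false) (s2 := false) (a := 1) (b := 2) (c := 3) (cn := .npn) (n1 := ndF1q1) (n2 := ndF4q2) (pc := pcF3) (cut := Cut.none) (xt := Ext.none) (P1 := 536870912) (W1 := 536870912) (P2 := 1073741824) (W2 := 536870912) (P3 := 134217728) (W3 := 67108864)
    rfl k0_mm_123

noncomputable def f_mm_133 : ℕ → ℕ → ℕ → ℕ → Bool := onCell 536870912 536870912 0 1230186008 134217728 67108864
    (rowF 0 true false false .dn 1 3 3 (qsf 536870912 536870912 0 1230186008 3) ndF1q1 ndF4q3 pcF3 Cut.none Ext.none)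

def k0_mm_133 : ∃ t, chk3 f_mm_133 t 1 1 1 = true :=
  ⟨(l 4), by decide +kernel⟩

theorem c_mm_133 : CertF 536870912 536870912 0 1230186008 134217728 67108864 true false false .dn 1 3 3
    ndF1q1 ndF4q3 pcF3 Cut.none Ext.none :=
  certF0 (fam := true) (s1 := false) (s2 := false) (a := 1) (b := 3) (c := 3) (cn := .dn) (n1 := ndF1q1) (n2 := ndF4q3) (pc := pcF3) (cut := Cut.none) (xt := Ext.none) (P1 := 536870912) (W1 := 536870912) (P2 := 0) (W2 := 1230186008) (P3 := 134217728) (W3 := 67108864)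
    rfl k0_mm_133

noncomputable def f_mm_202_a : ℕ → ℕ → ℕ → ℕ → Bool := onCell 0 536870912 0 536870912 134217728 67108864
    (rowF 0 true false false .pp 2 0 2 (qsf 0 536870912 0 536870912 2) ndF1q2a ndF4q0 pcF2 Cut.none Ext.none)

def k0_mm_202_a : ∃ t, chk3 f_mm_202_a t 1 1 1 = true :=
  ⟨(l 4), by decide +kernel⟩

theorem c_mm_202_a : CertF 0 536870912 0 536870912 134217728 67108864 true false false .pp 2 0 2
    ndF1q2a ndF4q0 pcF2 Cut.none Ext.none :=
  certF0 (fam := true) (s1 := false) (s2 := false) (a := 2) (b := 0) (c := 2) (cn := .pp) (n1 := ndF1q2a) (n2 := ndF4q0) (pc := pcF2) (cut := Cut.none) (xt := Ext.none) (P1 := 0) (W1 := 536870912) (P2 := 0) (W2 := 536870912) (P3 := 134217728) (W3 := 67108864)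
    rfl k0_mm_202_a

noncomputable def f_mm_202_b : ℕ → ℕ → ℕ → ℕ → Bool := onCell 1239849684 370763052 0 536870912 134217728 67108864
    (rowF 0 true false false .pp 2 0 2 (qsf 1239849684 370763052 0 536870912 2) ndF1q2b ndF4q0 pcF2 Cut.none Ext.none)

def k0_mm_202_b : ∃ t, chk3 f_mm_202_b t 1 1 1 = true :=
  ⟨(l 4), by decide +kernel⟩

theorem c_mm_202_b : CertF 1239849684 370763052 0 536870912 134217728 67108864 true false false .pp 2 0 2
    ndF1q2b ndF4q0 pcF2 Cut.none Ext.none :=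
  certF0 (fam := true) (s1 := false) (s2 := false) (a := 2) (b := 0) (c := 2) (cn := .pp) (n1 := ndF1q2b) (n2 := ndF4q0) (pc := pcF2) (cut := Cut.none) (xt := Ext.none) (P1 := 1239849684) (W1 := 370763052) (P2 := 0) (W2 := 536870912) (P3 := 134217728) (W3 := 67108864)
    rfl k0_mm_202_b

noncomputable def f_mm_203_a : ℕ → ℕ → ℕ → ℕ → Bool := onCell 0 536870912 0 536870912 134217728 67108864
    (rowF 0 true false false .up 2 0 3 (qsf 0 536870912 0 536870912 3) ndF1q2a ndF4q0 pcF3 Cut.none Ext.none)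

def k0_mm_203_a : ∃ t, chk3 f_mm_203_a t 1 1 1 = true :=
  ⟨(l 4), by decide +kernel⟩

theorem c_mm_203_a : CertF 0 536870912 0 536870912 134217728 67108864 true false false .up 2 0 3
    ndF1q2a ndF4q0 pcF3 Cut.none Ext.none :=
  certF0 (fam := true) (s1 := false) (s2 := false) (a := 2) (b := 0) (c := 3) (cn := .up) (n1 := ndF1q2a) (n2 := ndF4q0) (pc := pcF3) (cut := Cut.none) (xt := Ext.none) (P1 := 0) (W1 := 536870912) (P2 := 0) (W2 := 536870912) (P3 := 134217728) (W3 := 67108864)
    rfl k0_mm_203_a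

noncomputable def f_mm_203_b : ℕ → ℕ → ℕ → ℕ → Bool := onCell 1239849684 370763052 0 536870912 134217728 67108864
    (rowF 0 true false false .up 2 0 3 (qsf 1239849684 370763052 0 536870912 3) ndF1q2b ndF4q0 pcF3 Cut.none Ext.none)

def k0_mm_203_b : ∃ t, chk3 f_mm_203_b t 1 1 1 = true :=
  ⟨(l 4), by decide +kernel⟩

theorem c_mm_203_b : CertF 1239849684 370763052 0 536870912 134217728 67108864 true false false .up 2 0 3
    ndF1q2b ndF4q0 pcF3 Cut.none Ext.none :=
  certF0 (fam := true) (s1 := false) (s2 := false) (a := 2) (b := 0) (c := 3) (cn := .up) (n1 := ndF1q2b) (n2 := ndF4q0) (pc := pcF3) (cut := Cut.none) (xt := Ext.none) (P1 := 1239849684) (W1 := 370763052) (P2 := 0) (W2 := 536870912) (P3 := 134217728) (W3 := 67108864)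
    rfl k0_mm_203_b

noncomputable def f_mm_213_a : ℕ → ℕ → ℕ → ℕ → Bool := onCell 0 536870912 536870912 536870912 134217728 67108864
    (rowF 0 true false false .pnn 2 1 3 (qsf 0 536870912 536870912 536870912 3) ndF1q2a ndF4q1 pcF3 Cut.none Ext.none)

def k0_mm_213_a : ∃ t, chk3 f_mm_213_a t 1 1 1 = true :=
  ⟨(l 4), by decide +kernel⟩

theorem c_mm_213_a : CertF 0 536870912 536870912 536870912 134217728 67108864 true false false .pnn 2 1 3
    ndF1q2a ndF4q1 pcF3 Cut.none Ext.none :=
  certF0 (fam := true) (s1 := false) (s2 := false) (a := 2) (b := 1) (c := 3) (cn := .pnn) (n1 := ndF1q2a) (n2 := ndF4q1) (pc := pcF3) (cut := Cut.none) (xt := Ext.none) (P1 := 0) (W1 := 536870912) (P2 := 536870912) (W2 := 536870912) (P3 := 134217728) (W3 := 67108864)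
    rfl k0_mm_213_a

noncomputable def f_mm_213_b : ℕ → ℕ → ℕ → ℕ → Bool := onCell 1239849684 370763052 536870912 536870912 134217728 67108864
    (rowF 0 true false false .pnn 2 1 3 (qsf 1239849684 370763052 536870912 536870912 3) ndF1q2b ndF4q1 pcF3 Cut.none Ext.none)

def k0_mm_213_b : ∃ t, chk3 f_mm_213_b t 1 1 1 = true :=
  ⟨(l 4), by decide +kernel⟩

theorem c_mm_213_b : CertF 1239849684 370763052 536870912 536870912 134217728 67108864 true false false .pnn 2 1 3
    ndF1q2b ndF4q1 pcF3 Cut.none Ext.none :=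
  certF0 (fam := true) (s1 := false) (s2 := false) (a := 2) (b := 1) (c := 3) (cn := .pnn) (n1 := ndF1q2b) (n2 := ndF4q1) (pc := pcF3) (cut := Cut.none) (xt := Ext.none) (P1 := 1239849684) (W1 := 370763052) (P2 := 536870912) (W2 := 536870912) (P3 := 134217728) (W3 := 67108864)
    rfl k0_mm_213_b

noncomputable def f_mm_303 : ℕ → ℕ → ℕ → ℕ → Bool := onCell 1610612736 536870912 0 536870912 134217728 67108864
    (rowF 0 true false false .npn 3 0 3 (qsf 1610612736 536870912 0 536870912 3) ndF1q3 ndF4q0 pcF3 Cut.none Ext.none)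

def k0_mm_303 : ∃ t, chk3 f_mm_303 t 1 1 1 = true :=
  ⟨(l 4), by decide +kernel⟩

theorem c_mm_303 : CertF 1610612736 536870912 0 536870912 134217728 67108864 true false false .npn 3 0 3
    ndF1q3 ndF4q0 pcF3 Cut.none Ext.none :=
  certF0 (fam := true) (s1 := false) (s2 := false) (a := 3) (b := 0) (c := 3) (cn := .npn) (n1 := ndF1q3) (n2 := ndF4q0) (pc := pcF3) (cut := Cut.none) (xt := Ext.none) (P1 := 1610612736) (W1 := 536870912) (P2 := 0) (W2 := 536870912) (P3 := 134217728) (W3 := 67108864)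
    rfl k0_mm_303

noncomputable def f_mm_313 : ℕ → ℕ → ℕ → ℕ → Bool := onCell 1610612736 536870912 536870912 536870912 134217728 67108864
    (rowF 0 true false false .dn 3 1 3 (qsf 1610612736 536870912 536870912 536870912 3) ndF1q3 ndF4q1 pcF3 Cut.none Ext.none)

def k0_mm_313 : ∃ t, chk3 f_mm_313 t 1 1 1 = true :=
  ⟨(l 4), by decide +kernel⟩

theorem c_mm_313 : CertF 1610612736 536870912 536870912 536870912 134217728 67108864 true false false .dn 3 1 3
    ndF1q3 ndF4q1 pcF3 Cut.none Ext.none :=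
  certF0 (fam := true) (s1 := false) (s2 := false) (a := 3) (b := 1) (c := 3) (cn := .dn) (n1 := ndF1q3) (n2 := ndF4q1) (pc := pcF3) (cut := Cut.none) (xt := Ext.none) (P1 := 1610612736) (W1 := 536870912) (P2 := 536870912) (W2 := 536870912) (P3 := 134217728) (W3 := 67108864)
    rfl k0_mm_313

end Pool.Agent.Strip051.G.I1_8_3_16.Tab.C.FA14

namespace Pool.Agent.Strip051.G.I1_8_3_16.Tab.C.FA15

open Pool.Agent.Strip051.PB Pool.Agent.Strip051.PB.T
open Pool.Agent.Strip051.G.I1_8_3_16.Tab

noncomputable def f_pp_001 : ℕ → ℕ → ℕ → ℕ → Bool := onCell 0 536870912 0 536870912 134217728 67108864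
    (rowF 0 true true true .up 0 0 1 (qsf 0 536870912 0 536870912 1) ndF1q0 ndF5q0 pcF1 Cut.none Ext.none)

def k0_pp_001 : ∃ t, chk3 f_pp_001 t 1 1 1 = true :=
  ⟨(l 4), by decide +kernel⟩

theorem c_pp_001 : CertF 0 536870912 0 536870912 134217728 67108864 true true true .up 0 0 1
    ndF1q0 ndF5q0 pcF1 Cut.none Ext.none :=
  certF0 (fam := true) (s1 := true) (s2 := true) (a := 0) (b := 0) (c := 1) (cn := .up) (n1 := ndF1q0) (n2 := ndF5q0) (pc := pcF1) (cut := Cut.none) (xt := Ext.none) (P1 := 0) (W1 := 536870912) (P2 := 0) (W2 := 536870912) (P3 := 134217728) (W3 := 67108864)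
    rfl k0_pp_001

noncomputable def f_pp_011 : ℕ → ℕ → ℕ → ℕ → Bool := onCell 0 536870912 536870912 536870912 134217728 67108864
    (rowF 0 true true true .pnn 0 1 1 (qsf 0 536870912 536870912 536870912 1) ndF1q0 ndF5q1 pcF1 Cut.none Ext.none)

def k0_pp_011 : ∃ t, chk3 f_pp_011 t 1 1 1 = true :=
  ⟨(l 4), by decide +kernel⟩

theorem c_pp_011 : CertF 0 536870912 536870912 536870912 134217728 67108864 true true true .pnn 0 1 1
    ndF1q0 ndF5q1 pcF1 Cut.none Ext.none :=
  certF0 (fam := true) (s1 := true) (s2 := true) (a := 0) (b := 1) (c := 1) (cn := .pnn) (n1 := ndF1q0) (n2 := ndF5q1) (pc := pcF1) (cut := Cut.none) (xt := Ext.none) (P1 := 0) (W1 := 536870912) (P2 := 536870912) (W2 := 536870912) (P3 := 134217728) (W3 := 67108864)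
    rfl k0_pp_011

noncomputable def f_pp_012 : ℕ → ℕ → ℕ → ℕ → Bool := onCell 0 536870912 536870912 536870912 134217728 67108864
    (rowF 0 true true true .pnp 0 1 2 (qsf 0 536870912 536870912 536870912 2) ndF1q0 ndF5q1 pcF2 Cut.none Ext.none)

def k0_pp_012 : ∃ t, chk3 f_pp_012 t 1 1 1 = true :=
  ⟨(l 4), by decide +kernel⟩

theorem c_pp_012 : CertF 0 536870912 536870912 536870912 134217728 67108864 true true true .pnp 0 1 2
    ndF1q0 ndF5q1 pcF2 Cut.none Ext.none :=
  certF0 (fam := true) (s1 := true) (s2 := true) (a := 0) (b := 1) (c := 2) (cn := .pnp) (n1 := ndF1q0) (n2 := ndF5q1) (pc := pcF2) (cut := Cut.none) (xt := Ext.none) (P1 := 0) (W1 := 536870912) (P2 := 536870912) (W2 := 536870912) (P3 := 134217728) (W3 := 67108864)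
    rfl k0_pp_012

noncomputable def f_pp_022 : ℕ → ℕ → ℕ → ℕ → Bool := onCell 0 536870912 1073741824 536870912 134217728 67108864
    (rowF 0 true true true .pp 0 2 2 (qsf 0 536870912 1073741824 536870912 2) ndF1q0 ndF5q2 pcF2 Cut.none Ext.none)

def k0_pp_022 : ∃ t, chk3 f_pp_022 t 1 1 1 = true :=
  ⟨(l 4), by decide +kernel⟩

theorem c_pp_022 : CertF 0 536870912 1073741824 536870912 134217728 67108864 true true true .pp 0 2 2
    ndF1q0 ndF5q2 pcF2 Cut.none Ext.none :=
  certF0 (fam := true) (s1 := true) (s2 := true) (a := 0) (b := 2) (c := 2) (cn := .pp) (n1 := ndF1q0) (n2 := ndF5q2) (pc := pcF2) (cut := Cut.none) (xt := Ext.none) (P1 := 0) (W1 := 536870912) (P2 := 1073741824) (W2 := 536870912) (P3 := 134217728) (W3 := 67108864)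
    rfl k0_pp_022

noncomputable def f_pp_023 : ℕ → ℕ → ℕ → ℕ → Bool := onCell 0 536870912 1073741824 536870912 134217728 67108864
    (rowF 0 true true true .up 0 2 3 (qsf 0 536870912 1073741824 536870912 3) ndF1q0 ndF5q2 pcF3 Cut.none Ext.none)

def k0_pp_023 : ∃ t, chk3 f_pp_023 t 1 1 1 = true :=
  ⟨(l 4), by decide +kernel⟩

theorem c_pp_023 : CertF 0 536870912 1073741824 536870912 134217728 67108864 true true true .up 0 2 3
    ndF1q0 ndF5q2 pcF3 Cut.none Ext.none :=
  certF0 (fam := true) (s1 := true) (s2 := true) (a := 0) (b := 2) (c := 3) (cn := .up) (n1 := ndF1q0) (n2 := ndF5q2) (pc := pcF3) (cut := Cut.none) (xt := Ext.none) (P1 := 0) (W1 := 536870912) (P2 := 1073741824) (W2 := 536870912) (P3 := 134217728) (W3 := 67108864)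
    rfl k0_pp_023

noncomputable def f_pp_033 : ℕ → ℕ → ℕ → ℕ → Bool := onCell 0 536870912 0 1230186008 134217728 67108864
    (rowF 0 true true true .pnn 0 3 3 (qsf 0 536870912 0 1230186008 3) ndF1q0 ndF5q3 pcF3 Cut.none Ext.none)

def k0_pp_033 : ∃ t, chk3 f_pp_033 t 1 1 1 = true :=
  ⟨(l 4), by decide +kernel⟩

theorem c_pp_033 : CertF 0 536870912 0 1230186008 134217728 67108864 true true true .pnn 0 3 3
    ndF1q0 ndF5q3 pcF3 Cut.none Ext.none :=
  certF0 (fam := true) (s1 := true) (s2 := true) (a := 0) (b := 3) (c := 3) (cn := .pnn) (n1 := ndF1q0) (n2 := ndF5q3) (pc := pcF3) (cut := Cut.none) (xt := Ext.none) (P1 := 0) (W1 := 536870912) (P2 := 0) (W2 := 1230186008) (P3 := 134217728) (W3 := 67108864)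
    rfl k0_pp_033

noncomputable def f_pp_101 : ℕ → ℕ → ℕ → ℕ → Bool := onCell 536870912 536870912 0 536870912 134217728 67108864
    (rowF 0 true true true .npn 1 0 1 (qsf 536870912 536870912 0 536870912 1) ndF1q1 ndF5q0 pcF1 Cut.none Ext.none)

def k0_pp_101 : ∃ t, chk3 f_pp_101 t 1 1 1 = true :=
  ⟨(l 4), by decide +kernel⟩

theorem c_pp_101 : CertF 536870912 536870912 0 536870912 134217728 67108864 true true true .npn 1 0 1
    ndF1q1 ndF5q0 pcF1 Cut.none Ext.none :=
  certF0 (fam := true) (s1 := true) (s2 := true) (a := 1) (b := 0) (c := 1) (cn := .npn) (n1 := ndF1q1) (n2 := ndF5q0) (pc := pcF1) (cut := Cut.none) (xt := Ext.none) (P1 := 536870912) (W1 := 536870912) (P2 := 0) (W2 := 536870912) (P3 := 134217728) (W3 := 67108864)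
    rfl k0_pp_101

noncomputable def f_pp_102 : ℕ → ℕ → ℕ → ℕ → Bool := onCell 536870912 536870912 0 536870912 134217728 67108864
    (rowF 0 true true true .npp 1 0 2 (qsf 536870912 536870912 0 536870912 2) ndF1q1 ndF5q0 pcF2 Cut.none Ext.none)

def k0_pp_102 : ∃ t, chk3 f_pp_102 t 1 1 1 = true :=
  ⟨(l 4), by decide +kernel⟩

theorem c_pp_102 : CertF 536870912 536870912 0 536870912 134217728 67108864 true true true .npp 1 0 2
    ndF1q1 ndF5q0 pcF2 Cut.none Ext.none :=
  certF0 (fam := true) (s1 := true) (s2 := true) (a := 1) (b := 0) (c := 2) (cn := .npp) (n1 := ndF1q1) (n2 := ndF5q0) (pc := pcF2) (cut := Cut.none) (xt := Ext.none) (P1 := 536870912) (W1 := 536870912) (P2 := 0) (W2 := 536870912) (P3 := 134217728) (W3 := 67108864)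
    rfl k0_pp_102

noncomputable def f_pp_112 : ℕ → ℕ → ℕ → ℕ → Bool := onCell 536870912 536870912 536870912 536870912 134217728 67108864
    (rowF 0 true true true .dn 1 1 2 (qsf 536870912 536870912 536870912 536870912 2) ndF1q1 ndF5q1 pcF2 Cut.none Ext.none)

def k0_pp_112 : ∃ t, chk3 f_pp_112 t 1 1 1 = true :=
  ⟨(l 4), by decide +kernel⟩

theorem c_pp_112 : CertF 536870912 536870912 536870912 536870912 134217728 67108864 true true true .dn 1 1 2
    ndF1q1 ndF5q1 pcF2 Cut.none Ext.none :=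
  certF0 (fam := true) (s1 := true) (s2 := true) (a := 1) (b := 1) (c := 2) (cn := .dn) (n1 := ndF1q1) (n2 := ndF5q1) (pc := pcF2) (cut := Cut.none) (xt := Ext.none) (P1 := 536870912) (W1 := 536870912) (P2 := 536870912) (W2 := 536870912) (P3 := 134217728) (W3 := 67108864)
    rfl k0_pp_112

noncomputable def f_pp_113 : ℕ → ℕ → ℕ → ℕ → Bool := onCell 536870912 536870912 536870912 536870912 134217728 67108864
    (rowF 0 true true true .nn 1 1 3 (qsf 536870912 536870912 536870912 536870912 3) ndF1q1 ndF5q1 pcF3 Cut.none Ext.none)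

def k0_pp_113 : ∃ t, chk3 f_pp_113 t 1 1 1 = true :=
  ⟨(l 4), by decide +kernel⟩

theorem c_pp_113 : CertF 536870912 536870912 536870912 536870912 134217728 67108864 true true true .nn 1 1 3
    ndF1q1 ndF5q1 pcF3 Cut.none Ext.none :=
  certF0 (fam := true) (s1 := true) (s2 := true) (a := 1) (b := 1) (c := 3) (cn := .nn) (n1 := ndF1q1) (n2 := ndF5q1) (pc := pcF3) (cut := Cut.none) (xt := Ext.none) (P1 := 536870912) (W1 := 536870912) (P2 := 536870912) (W2 := 536870912) (P3 := 134217728) (W3 := 67108864)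
    rfl k0_pp_113

noncomputable def f_pp_123 : ℕ → ℕ → ℕ → ℕ → Bool := onCell 536870912 536870912 1073741824 536870912 134217728 67108864
    (rowF 0 true true true .npn 1 2 3 (qsf 536870912 536870912 1073741824 536870912 3) ndF1q1 ndF5q2 pcF3 Cut.none Ext.none)

def k0_pp_123 : ∃ t, chk3 f_pp_123 t 1 1 1 = true :=
  ⟨(l 4), by decide +kernel⟩

theorem c_pp_123 : CertF 536870912 536870912 1073741824 536870912 134217728 67108864 true true true .npn 1 2 3
    ndF1q1 ndF5q2 pcF3 Cut.none Ext.none :=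
  certF0 (fam := true) (s1 := true) (s2 := true) (a := 1) (b := 2) (c := 3) (cn := .npn) (n1 := ndF1q1) (n2 := ndF5q2) (pc := pcF3) (cut := Cut.none) (xt := Ext.none) (P1 := 536870912) (W1 := 536870912) (P2 := 1073741824) (W2 := 536870912) (P3 := 134217728) (W3 := 67108864)
    rfl k0_pp_123

noncomputable def f_pp_133 : ℕ → ℕ → ℕ → ℕ → Bool := onCell 536870912 536870912 0 1230186008 134217728 67108864
    (rowF 0 true true true .dn 1 3 3 (qsf 536870912 536870912 0 1230186008 3) ndF1q1 ndF5q3 pcF3 Cut.none Ext.none)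

def k0_pp_133 : ∃ t, chk3 f_pp_133 t 1 1 1 = true :=
  ⟨(l 4), by decide +kernel⟩

theorem c_pp_133 : CertF 536870912 536870912 0 1230186008 134217728 67108864 true true true .dn 1 3 3
    ndF1q1 ndF5q3 pcF3 Cut.none Ext.none :=
  certF0 (fam := true) (s1 := true) (s2 := true) (a := 1) (b := 3) (c := 3) (cn := .dn) (n1 := ndF1q1) (n2 := ndF5q3) (pc := pcF3) (cut := Cut.none) (xt := Ext.none) (P1 := 536870912) (W1 := 536870912) (P2 := 0) (W2 := 1230186008) (P3 := 134217728) (W3 := 67108864)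
    rfl k0_pp_133

noncomputable def f_pp_202_a : ℕ → ℕ → ℕ → ℕ → Bool := onCell 0 536870912 0 536870912 134217728 67108864
    (rowF 0 true true true .pp 2 0 2 (qsf 0 536870912 0 536870912 2) ndF1q2a ndF5q0 pcF2 Cut.none Ext.none)

def k0_pp_202_a : ∃ t, chk3 f_pp_202_a t 1 1 1 = true :=
  ⟨(l 4), by decide +kernel⟩

theorem c_pp_202_a : CertF 0 536870912 0 536870912 134217728 67108864 true true true .pp 2 0 2
    ndF1q2a ndF5q0 pcF2 Cut.none Ext.none :=
  certF0 (fam := true) (s1 := true) (s2 := true) (a := 2) (b := 0) (c := 2) (cn := .pp) (n1 := ndF1q2a) (n2 := ndF5q0) (pc := pcF2) (cut := Cut.none) (xt := Ext.none) (P1 := 0) (W1 := 536870912) (P2 := 0) (W2 := 536870912) (P3 := 134217728) (W3 := 67108864)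
    rfl k0_pp_202_a

noncomputable def f_pp_202_b : ℕ → ℕ → ℕ → ℕ → Bool := onCell 1239849684 370763052 0 536870912 134217728 67108864
    (rowF 0 true true true .pp 2 0 2 (qsf 1239849684 370763052 0 536870912 2) ndF1q2b ndF5q0 pcF2 Cut.none Ext.none)

def k0_pp_202_b : ∃ t, chk3 f_pp_202_b t 1 1 1 = true :=
  ⟨(l 4), by decide +kernel⟩

theorem c_pp_202_b : CertF 1239849684 370763052 0 536870912 134217728 67108864 true true true .pp 2 0 2
    ndF1q2b ndF5q0 pcF2 Cut.none Ext.none :=
  certF0 (fam := true) (s1 := true) (s2 := true) (a := 2) (b := 0) (c := 2) (cn := .pp) (n1 := ndF1q2b) (n2 := ndF5q0) (pc := pcF2) (cut := Cut.none) (xt := Ext.none) (P1 := 1239849684) (W1 := 370763052) (P2 := 0) (W2 := 536870912) (P3 := 134217728) (W3 := 67108864)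
    rfl k0_pp_202_b

noncomputable def f_pp_203_a : ℕ → ℕ → ℕ → ℕ → Bool := onCell 0 536870912 0 536870912 134217728 67108864
    (rowF 0 true true true .up 2 0 3 (qsf 0 536870912 0 536870912 3) ndF1q2a ndF5q0 pcF3 Cut.none Ext.none)

def k0_pp_203_a : ∃ t, chk3 f_pp_203_a t 1 1 1 = true :=
  ⟨(l 4), by decide +kernel⟩

theorem c_pp_203_a : CertF 0 536870912 0 536870912 134217728 67108864 true true true .up 2 0 3
    ndF1q2a ndF5q0 pcF3 Cut.none Ext.none :=
  certF0 (fam := true) (s1 := true) (s2 := true) (a := 2) (b := 0) (c := 3) (cn := .up) (n1 := ndF1q2a) (n2 := ndF5q0) (pc := pcF3) (cut := Cut.none) (xt := Ext.none) (P1 := 0) (W1 := 536870912) (P2 := 0) (W2 := 536870912) (P3 := 134217728) (W3 := 67108864)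
    rfl k0_pp_203_a

noncomputable def f_pp_203_b : ℕ → ℕ → ℕ → ℕ → Bool := onCell 1239849684 370763052 0 536870912 134217728 67108864
    (rowF 0 true true true .up 2 0 3 (qsf 1239849684 370763052 0 536870912 3) ndF1q2b ndF5q0 pcF3 Cut.none Ext.none)

def k0_pp_203_b : ∃ t, chk3 f_pp_203_b t 1 1 1 = true :=
  ⟨(l 4), by decide +kernel⟩

theorem c_pp_203_b : CertF 1239849684 370763052 0 536870912 134217728 67108864 true true true .up 2 0 3
    ndF1q2b ndF5q0 pcF3 Cut.none Ext.none :=
  certF0 (fam := true) (s1 := true) (s2 := true) (a := 2) (b := 0) (c := 3) (cn := .up) (n1 := ndF1q2b) (n2 := ndF5q0) (pc := pcF3) (cut := Cut.none) (xt := Ext.none) (P1 := 1239849684) (W1 := 370763052) (P2 := 0) (W2 := 536870912) (P3 := 134217728) (W3 := 67108864)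
    rfl k0_pp_203_b

noncomputable def f_pp_213_a : ℕ → ℕ → ℕ → ℕ → Bool := onCell 0 536870912 536870912 536870912 134217728 67108864
    (rowF 0 true true true .pnn 2 1 3 (qsf 0 536870912 536870912 536870912 3) ndF1q2a ndF5q1 pcF3 Cut.none Ext.none)

def k0_pp_213_a : ∃ t, chk3 f_pp_213_a t 1 1 1 = true :=
  ⟨(l 4), by decide +kernel⟩

theorem c_pp_213_a : CertF 0 536870912 536870912 536870912 134217728 67108864 true true true .pnn 2 1 3
    ndF1q2a ndF5q1 pcF3 Cut.none Ext.none :=
  certF0 (fam := true) (s1 := true) (s2 := true) (a := 2) (b := 1) (c := 3) (cn := .pnn) (n1 := ndF1q2a) (n2 := ndF5q1) (pc := pcF3) (cut := Cut.none) (xt := Ext.none) (P1 := 0) (W1 := 536870912) (P2 := 536870912) (W2 := 536870912) (P3 := 134217728) (W3 := 67108864)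
    rfl k0_pp_213_a

noncomputable def f_pp_213_b : ℕ → ℕ → ℕ → ℕ → Bool := onCell 1239849684 370763052 536870912 536870912 134217728 67108864
    (rowF 0 true true true .pnn 2 1 3 (qsf 1239849684 370763052 536870912 536870912 3) ndF1q2b ndF5q1 pcF3 Cut.none Ext.none)

def k0_pp_213_b : ∃ t, chk3 f_pp_213_b t 1 1 1 = true :=
  ⟨(l 4), by decide +kernel⟩

theorem c_pp_213_b : CertF 1239849684 370763052 536870912 536870912 134217728 67108864 true true true .pnn 2 1 3
    ndF1q2b ndF5q1 pcF3 Cut.none Ext.none :=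
  certF0 (fam := true) (s1 := true) (s2 := true) (a := 2) (b := 1) (c := 3) (cn := .pnn) (n1 := ndF1q2b) (n2 := ndF5q1) (pc := pcF3) (cut := Cut.none) (xt := Ext.none) (P1 := 1239849684) (W1 := 370763052) (P2 := 536870912) (W2 := 536870912) (P3 := 134217728) (W3 := 67108864)
    rfl k0_pp_213_b

noncomputable def f_pp_303 : ℕ → ℕ → ℕ → ℕ → Bool := onCell 1610612736 536870912 0 536870912 134217728 67108864
    (rowF 0 true true true .npn 3 0 3 (qsf 1610612736 536870912 0 536870912 3) ndF1q3 ndF5q0 pcF3 Cut.none Ext.none)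

def k0_pp_303 : ∃ t, chk3 f_pp_303 t 1 1 1 = true :=
  ⟨(l 4), by decide +kernel⟩

theorem c_pp_303 : CertF 1610612736 536870912 0 536870912 134217728 67108864 true true true .npn 3 0 3
    ndF1q3 ndF5q0 pcF3 Cut.none Ext.none :=
  certF0 (fam := true) (s1 := true) (s2 := true) (a := 3) (b := 0) (c := 3) (cn := .npn) (n1 := ndF1q3) (n2 := ndF5q0) (pc := pcF3) (cut := Cut.none) (xt := Ext.none) (P1 := 1610612736) (W1 := 536870912) (P2 := 0) (W2 := 536870912) (P3 := 134217728) (W3 := 67108864)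
    rfl k0_pp_303

noncomputable def f_pp_313 : ℕ → ℕ → ℕ → ℕ → Bool := onCell 1610612736 536870912 536870912 536870912 134217728 67108864
    (rowF 0 true true true .dn 3 1 3 (qsf 1610612736 536870912 536870912 536870912 3) ndF1q3 ndF5q1 pcF3 Cut.none Ext.none)

def k0_pp_313 : ∃ t, chk3 f_pp_313 t 1 1 1 = true :=
  ⟨(l 4), by decide +kernel⟩

theorem c_pp_313 : CertF 1610612736 536870912 536870912 536870912 134217728 67108864 true true true .dn 3 1 3
    ndF1q3 ndF5q1 pcF3 Cut.none Ext.none :=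
  certF0 (fam := true) (s1 := true) (s2 := true) (a := 3) (b := 1) (c := 3) (cn := .dn) (n1 := ndF1q3) (n2 := ndF5q1) (pc := pcF3) (cut := Cut.none) (xt := Ext.none) (P1 := 1610612736) (W1 := 536870912) (P2 := 536870912) (W2 := 536870912) (P3 := 134217728) (W3 := 67108864)
    rfl k0_pp_313

noncomputable def f_pm_001 : ℕ → ℕ → ℕ → ℕ → Bool := onCell 0 536870912 536870912 536870912 134217728 67108864
    (rowF 1 true true false .up 0 0 1 (qsf 0 536870912 0 536870912 1) ndF1q0 ndF5q0 pcF1 Cut.none Ext.none)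

def k0_pm_001 : ∃ t, chk3 f_pm_001 t 1 1 1 = true :=
  ⟨(b (l 3) (b (l 3) (a (l 2) (b (l 3) (a (l 2) (l 150426355047)))))), by decide +kernel⟩

theorem c_pm_001 : CertF 0 536870912 0 536870912 134217728 67108864 true true false .up 0 0 1
    ndF1q0 ndF5q0 pcF1 Cut.none Ext.none :=
  certF1 (fam := true) (s1 := true) (s2 := false) (a := 0) (b := 0) (c := 1) (cn := .up) (n1 := ndF1q0) (n2 := ndF5q0) (pc := pcF1) (cut := Cut.none) (xt := Ext.none) (P1 := 0) (W1 := 536870912) (P2 := 0) (W2 := 536870912) (P3 := 134217728) (W3 := 67108864)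
    rfl (fun _ => rfl) k0_pm_001

noncomputable def cut_pm_011 : Cut := Cut.of [[⟨0, 0, 0, 67108864⟩, ⟨1, 1, 0, 67108864⟩, ⟨2, 1, 0, 67108864⟩]]

noncomputable def f_pm_011 : ℕ → ℕ → ℕ → ℕ → Bool := onCell 0 536870912 536870912 536870912 134217728 67108864
    (rowF 1 true true false .pnn 0 1 1 (qsf 0 536870912 536870912 536870912 1) ndF1q0 ndF5q1 pcF1 cut_pm_011 Ext.none)

def k0_pm_011 : ∃ t, chk3 f_pm_011 t 1 1 1 = true :=
  ⟨(b (l 3) (b (l 3) (b (l 3) (a (a (a (b (l 3) (a (b (l 3) (l 6)) (l 3))) (l 3)) (l 3)) (a (b (l 3) (l 17409808)) (l 17704648)))))), by decide +kernel⟩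

theorem c_pm_011 : CertF 0 536870912 536870912 536870912 134217728 67108864 true true false .pnn 0 1 1
    ndF1q0 ndF5q1 pcF1 cut_pm_011 Ext.none :=
  certF1 (fam := true) (s1 := true) (s2 := false) (a := 0) (b := 1) (c := 1) (cn := .pnn) (n1 := ndF1q0) (n2 := ndF5q1) (pc := pcF1) (cut := cut_pm_011) (xt := Ext.none) (P1 := 0) (W1 := 536870912) (P2 := 536870912) (W2 := 536870912) (P3 := 134217728) (W3 := 67108864)
    rfl (fun _ => rfl) k0_pm_011

noncomputable def cut_pm_012 : Cut := Cut.of [[⟨0, 0, 0, 67108864⟩, ⟨1, 1, 0, 67108864⟩, ⟨2, 1, 0, 67108864⟩]]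

noncomputable def f_pm_012 : ℕ → ℕ → ℕ → ℕ → Bool := onCell 1073741824 536870912 536870912 536870912 134217728 67108864
    (rowF 2 true true false .pnp 0 1 2 (qsf 0 536870912 536870912 536870912 2) ndF1q0 ndF5q1 pcF2 cut_pm_012 Ext.none)

def k0_pm_012 : ∃ t, chk3 f_pm_012 t 1 1 1 = true :=
  ⟨(a (b (a (a (b (l 17763640) (a (l 17580328) (l 17741592))) (a (b (l 17923936) (l 17882464)) (b (l 17958672) (l 18005784)))) (a (a (a (l 18058696) (l 18182648)) (l 18135768)) (l 18282984))) (a (b (a (a (b (l 17271968) (a (l 16705448) (l 16873584))) (b (l 17521800) (l 17140440))) (b (l 17852424) (l 17635632))) (a (a (b (a (l 16733232) (l 16670608)) (a (b (a (l 16749424) (l 16721896)) (l 6)) (b (b (l 16669968) (l 16686072)) (b (a (l 6) (l 16695096)) (l 6))))) (b (b (l 16579176) (l 16608288)) (b (a (l 16671480) (l 16624208)) (b (a (l 16672696) (l 16644616)) (a (b (l 16683920) (l 6)) (l 16658312)))))) (b (a (l 16623376) (l 17325584)) (b (a (l 16588296) (l 16547320)) (a (b (l 16606016)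 (l 16617864)) (l 16566344)))))) (a (b (a (b (l 18111120) (l 18022408)) (l 18243144)) (b (a (l 17748728) (l 18076560)) (b (a (l 17219920) (l 17770544)) (a (l 16521400) (l 17349496))))) (b (l 18434640) (b (l 18437480) (b (l 18328408) (l 18154976))))))) (b (a (l 18439896) (l 2)) (b (a (l 18662464) (l 18762464)) (a (b (l 18843016) (l 18923440)) (l 19119056))))), by decide +kernel⟩

theorem c_pm_012 : CertF 0 536870912 536870912 536870912 134217728 67108864 true true false .pnp 0 1 2
    ndF1q0 ndF5q1 pcF2 cut_pm_012 Ext.none :=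
  certF2 (fam := true) (s1 := true) (s2 := false) (a := 0) (b := 1) (c := 2) (cn := .pnp) (n1 := ndF1q0) (n2 := ndF5q1) (pc := pcF2) (cut := cut_pm_012) (xt := Ext.none) (P1 := 0) (W1 := 536870912) (P2 := 536870912) (W2 := 536870912) (P3 := 134217728) (W3 := 67108864)
    rfl (fun _ => rfl) k0_pm_012

noncomputable def cut_pm_022 : Cut := Cut.of [[⟨0, 0, 0, 67108864⟩, ⟨1, 1, 0, 67108864⟩, ⟨2, 1, 0, 67108864⟩]]

noncomputable def f_pm_022 : ℕ → ℕ → ℕ → ℕ → Bool := onCell 0 536870912 1073741824 536870912 134217728 67108864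
    (rowF 0 true true false .pp 0 2 2 (qsf 0 536870912 1073741824 536870912 2) ndF1q0 ndF5q2 pcF2 cut_pm_022 Ext.none)

def k0_pm_022 : ∃ t, chk3 f_pm_022 t 1 1 1 = true :=
  ⟨(a (b (a (b (a (b (b (a (a (l 6) (b (l 6) (a (l 6) (l 16685744)))) (b (a (b (l 6) (l 16668816)) (l 16648304)) (a (l 16663488) (l 16614456)))) (a (a (a (b (l 6) (b (a (l 6) (l 16684344)) (c (l 16679408) (l 16678248)))) (b (c (l 16680520) (l 16680304)) (l 16663424))) (b (c (l 16657160) (l 16656840)) (l 16630968))) (a (b (l 16590944) (l 16561728)) (l 16606480)))) (a (c (b (a (a (b (a (l 16667360) (l 16650944)) (l 16632336)) (l 16633056)) (l 16608040)) (a (a (b (l 16605648) (l 16578880)) (l 16578384)) (l 16600712))) (b (a (a (b (l 16657656) (l 16630336)) (l 16631912)) (l 16608504)) (a (a (b (l 16603008) (l 16554536)) (l 16555112)) (l 16593728)))) (b (a (l 16594312) (l 16576632)) (a (c (l 16673056) (l 16505416)) (l 16603952))))) (b (b (a (b (l 16608216) (l 16576784)) (l 16649056)) (a (a (l 16562408) (l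 16556592)) (l 16521592))) (a (b (b (l 16516416) (l 16601504)) (l 17126952)) (l 17447192)))) (a (b (a (a (b (c (a (b (l 16551352) (a (l 16701584) (l 16867984))) (b (l 16613000) (l 16981728))) (a (c (l 16611224) (l 16603384)) (l 16551304))) (c (l 17326920) (l 16621232))) (b (c (l 16892800) (l 16523376)) (l 17155360))) (b (l 17022496) (l 17572528))) (a (b (c (l 17856520) (l 17256912)) (c (l 18121520) (l 17605112))) (l 18012280))) (b (a (l 17786232) (l 18112704)) (l 18338528)))) (b (b (a (a (b (l 16498600) (l 17254848)) (l 17626440)) (l 18312168)) (a (l 18107240) (l 18628000))) (b (l 18627416) (l 18707528)))) (b (a (a (b (a (l 18164320) (l 18329456)) (l 18431512)) (l 18555376)) (l 18686552)) (a (a (l 18510064) (l 18545792)) (l 18513952)))) (b (b (a (b (l 18982720) (l 18995592)) (l 19189320)) (l 18914736)) (b (l 18622592) (l 2)))), by decide +kernel⟩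

theorem c_pm_022 : CertF 0 536870912 1073741824 536870912 134217728 67108864 true true false .pp 0 2 2
    ndF1q0 ndF5q2 pcF2 cut_pm_022 Ext.none :=
  certF0 (fam := true) (s1 := true) (s2 := false) (a := 0) (b := 2) (c := 2) (cn := .pp) (n1 := ndF1q0) (n2 := ndF5q2) (pc := pcF2) (cut := cut_pm_022) (xt := Ext.none) (P1 := 0) (W1 := 536870912) (P2 := 1073741824) (W2 := 536870912) (P3 := 134217728) (W3 := 67108864)
    rfl k0_pm_022

noncomputable def f_pm_023 : ℕ → ℕ → ℕ → ℕ → Bool := onCell 1610612736 536870912 1073741824 536870912 134217728 67108864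
    (rowF 2 true true false .up 0 2 3 (qsf 0 536870912 1073741824 536870912 3) ndF1q0 ndF5q2 pcF3 Cut.none Ext.none)

def k0_pm_023 : ∃ t, chk3 f_pm_023 t 1 1 1 = true :=
  ⟨(b (a (b (l 18999176) (l 18831592)) (a (b (l 2) (l 18609208)) (l 2))) (a (b (l 18673352) (a (l 18566688) (l 18461848))) (a (l 18586784) (a (l 18235968) (a (l 18163640) (a (l 18129664) (b (l 2) (l 18006968)))))))), by decide +kernel⟩

theorem c_pm_023 : CertF 0 536870912 1073741824 536870912 134217728 67108864 true true false .up 0 2 3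
    ndF1q0 ndF5q2 pcF3 Cut.none Ext.none :=
  certF2 (fam := true) (s1 := true) (s2 := false) (a := 0) (b := 2) (c := 3) (cn := .up) (n1 := ndF1q0) (n2 := ndF5q2) (pc := pcF3) (cut := Cut.none) (xt := Ext.none) (P1 := 0) (W1 := 536870912) (P2 := 1073741824) (W2 := 536870912) (P3 := 134217728) (W3 := 67108864)
    rfl (fun _ => rfl) k0_pm_023

noncomputable def f_pm_033 : ℕ → ℕ → ℕ → ℕ → Bool := onCell 1610612736 536870912 0 1230186008 134217728 67108864
    (rowF 2 true true false .pnn 0 3 3 (qsf 0 536870912 0 1230186008 3) ndF1q0 ndF5q3 pcF3 Cut.none Ext.none)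

def k0_pm_033 : ∃ t, chk3 f_pm_033 t 1 1 1 = true :=
  ⟨(b (a (l 1) (a (l 1) (a (b (l 1) (l 17802016)) (a (l 17990648) (l 4))))) (b (a (b (l 1) (a (l 1) (a (l 1) (l 18167736)))) (a (b (l 17913216) (l 18010560)) (a (l 17791336) (a (l 17728552) (a (l 17710232) (b (l 4) (l 4))))))) (a (a (b (l 1) (b (l 690990039095) (l 18481288))) (b (l 601869285175) (l 18335880))) (a (b (l 18058984) (l 18143840)) (a (b (l 17870032) (l 17981904)) (a (l 17817240) (a (l 17798640) (b (l 17739224) (l 17831848))))))))), by decide +kernel⟩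

theorem c_pm_033 : CertF 0 536870912 0 1230186008 134217728 67108864 true true false .pnn 0 3 3
    ndF1q0 ndF5q3 pcF3 Cut.none Ext.none :=
  certF2 (fam := true) (s1 := true) (s2 := false) (a := 0) (b := 3) (c := 3) (cn := .pnn) (n1 := ndF1q0) (n2 := ndF5q3) (pc := pcF3) (cut := Cut.none) (xt := Ext.none) (P1 := 0) (W1 := 536870912) (P2 := 0) (W2 := 1230186008) (P3 := 134217728) (W3 := 67108864)
    rfl (fun _ => rfl) k0_pm_033

noncomputable def f_pm_101 : ℕ → ℕ → ℕ → ℕ → Bool := onCell 536870912 536870912 0 536870912 134217728 67108864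
    (rowF 2 true true false .npn 1 0 1 (qsf 536870912 536870912 0 536870912 1) ndF1q1 ndF5q0 pcF1 Cut.none Ext.none)

def k0_pm_101 : ∃ t, chk3 f_pm_101 t 1 1 1 = true :=
  ⟨(a (l 3) (b (a (a (l 3) (l 346452234615)) (a (l 193444430615) (l 18261984))) (a (l 3) (a (l 498386866423) (b (l 18143624) (l 18090056)))))), by decide +kernel⟩

theorem c_pm_101 : CertF 536870912 536870912 0 536870912 134217728 67108864 true true false .npn 1 0 1
    ndF1q1 ndF5q0 pcF1 Cut.none Ext.none :=
  certF2 (fam := true) (s1 := true) (s2 := false) (a := 1) (b := 0) (c := 1) (cn := .npn) (n1 := ndF1q1) (n2 := ndF5q0) (pc := pcF1) (cut := Cut.none) (xt := Ext.none) (P1 := 536870912) (W1 := 536870912) (P2 := 0) (W2 := 536870912) (P3 := 134217728) (W3 := 67108864)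
    rfl (fun _ => rfl) k0_pm_101

noncomputable def f_pm_102 : ℕ → ℕ → ℕ → ℕ → Bool := onCell 536870912 536870912 1073741824 536870912 134217728 67108864
    (rowF 1 true true false .npp 1 0 2 (qsf 536870912 536870912 0 536870912 2) ndF1q1 ndF5q0 pcF2 Cut.none Ext.none)

def k0_pm_102 : ∃ t, chk3 f_pm_102 t 1 1 1 = true :=
  ⟨(a (b (a (b (b (l 18245080) (b (l 115531470807) (l 18361936))) (b (b (l 18665872) (l 2)) (l 2))) (b (b (l 18280576) (b (b (l 18308816) (l 18317232)) (l 18320016))) (b (b (l 18349040) (l 18360296)) (l 18387720)))) (a (l 2) (b (l 222906067431) (l 2)))) (b (b (b (l 18418432) (b (b (l 18401056) (l 18389072)) (a (l 18304808) (l 18364960)))) (b (b (b (l 18351816) (l 18552384)) (l 18321712)) (a (l 18274272) (l 18230136)))) (a (b (l 18314608) (l 18402600)) (b (l 18204456) (l 18206360))))), by decide +kernel⟩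

theorem c_pm_102 : CertF 536870912 536870912 0 536870912 134217728 67108864 true true false .npp 1 0 2
    ndF1q1 ndF5q0 pcF2 Cut.none Ext.none :=
  certF1 (fam := true) (s1 := true) (s2 := false) (a := 1) (b := 0) (c := 2) (cn := .npp) (n1 := ndF1q1) (n2 := ndF5q0) (pc := pcF2) (cut := Cut.none) (xt := Ext.none) (P1 := 536870912) (W1 := 536870912) (P2 := 0) (W2 := 536870912) (P3 := 134217728) (W3 := 67108864)
    rfl (fun _ => rfl) k0_pm_102

noncomputable def f_pm_112 : ℕ → ℕ → ℕ → ℕ → Bool := onCell 536870912 536870912 1073741824 536870912 134217728 67108864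
    (rowF 1 true true false .dn 1 1 2 (qsf 536870912 536870912 536870912 536870912 2) ndF1q1 ndF5q1 pcF2 Cut.none Ext.none)

def k0_pm_112 : ∃ t, chk3 f_pm_112 t 1 1 1 = true :=
  ⟨(a (b (b (b (l 18275568) (b (b (l 18302256) (l 18317160)) (a (l 18346784) (l 18309088)))) (b (b (b (l 18360632) (l 18376408)) (l 18393600)) (l 18429872))) (b (l 18520128) (l 18631048))) (b (b (l 1) (b (l 1) (l 18232408))) (b (l 18226776) (l 18248120)))), by decide +kernel⟩

theorem c_pm_112 : CertF 536870912 536870912 536870912 536870912 134217728 67108864 true true false .dn 1 1 2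
    ndF1q1 ndF5q1 pcF2 Cut.none Ext.none :=
  certF1 (fam := true) (s1 := true) (s2 := false) (a := 1) (b := 1) (c := 2) (cn := .dn) (n1 := ndF1q1) (n2 := ndF5q1) (pc := pcF2) (cut := Cut.none) (xt := Ext.none) (P1 := 536870912) (W1 := 536870912) (P2 := 536870912) (W2 := 536870912) (P3 := 134217728) (W3 := 67108864)
    rfl (fun _ => rfl) k0_pm_112

noncomputable def f_pm_113 : ℕ → ℕ → ℕ → ℕ → Bool := onCell 536870912 536870912 1610612736 536870912 134217728 67108864
    (rowF 1 true true false .nn 1 1 3 (qsf 536870912 536870912 536870912 536870912 3) ndF1q1 ndF5q1 pcF3 Cut.none Ext.none)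

def k0_pm_113 : ∃ t, chk3 f_pm_113 t 1 1 1 = true :=
  ⟨(a (b (b (l 18465328) (l 18592576)) (b (l 18680280) (l 2))) (b (b (l 17834104) (a (l 18064880) (l 17758632))) (b (l 18012624) (b (l 18079736) (b (l 18132840) (b (l 18172712) (l 18333368))))))), by decide +kernel⟩

theorem c_pm_113 : CertF 536870912 536870912 536870912 536870912 134217728 67108864 true true false .nn 1 1 3
    ndF1q1 ndF5q1 pcF3 Cut.none Ext.none :=
  certF1 (fam := true) (s1 := true) (s2 := false) (a := 1) (b := 1) (c := 3) (cn := .nn) (n1 := ndF1q1) (n2 := ndF5q1) (pc := pcF3) (cut := Cut.none) (xt := Ext.none) (P1 := 536870912) (W1 := 536870912) (P2 := 536870912) (W2 := 536870912) (P3 := 134217728) (W3 := 67108864)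
    rfl (fun _ => rfl) k0_pm_113

noncomputable def f_pm_123 : ℕ → ℕ → ℕ → ℕ → Bool := onCell 1610612736 536870912 1073741824 536870912 134217728 67108864
    (rowF 2 true true false .npn 1 2 3 (qsf 536870912 536870912 1073741824 536870912 3) ndF1q1 ndF5q2 pcF3 Cut.none Ext.none)

def k0_pm_123 : ∃ t, chk3 f_pm_123 t 1 1 1 = true :=
  ⟨(a (b (b (l 18550304) (l 18182416)) (b (l 17882872) (l 1))) (a (b (b (l 18072312) (l 17906888)) (l 17712272)) (a (b (l 17840176) (l 17452376)) (b (a (l 17763560) (a (l 17739752) (a (l 17745352) (l 48555443575)))) (a (l 17389560) (a (l 17358832) (b (l 17442432) (l 17214616)))))))), by decide +kernel⟩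

theorem c_pm_123 : CertF 536870912 536870912 1073741824 536870912 134217728 67108864 true true false .npn 1 2 3
    ndF1q1 ndF5q2 pcF3 Cut.none Ext.none :=
  certF2 (fam := true) (s1 := true) (s2 := false) (a := 1) (b := 2) (c := 3) (cn := .npn) (n1 := ndF1q1) (n2 := ndF5q2) (pc := pcF3) (cut := Cut.none) (xt := Ext.none) (P1 := 536870912) (W1 := 536870912) (P2 := 1073741824) (W2 := 536870912) (P3 := 134217728) (W3 := 67108864)
    rfl (fun _ => rfl) k0_pm_123

noncomputable def f_pm_133 : ℕ → ℕ → ℕ → ℕ → Bool := onCell 536870912 536870912 0 1230186008 134217728 67108864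
    (rowF 0 true true false .dn 1 3 3 (qsf 536870912 536870912 0 1230186008 3) ndF1q1 ndF5q3 pcF3 Cut.none Ext.none)

def k0_pm_133 : ∃ t, chk3 f_pm_133 t 1 1 1 = true :=
  ⟨(b (l 2) (b (l 2) (a (b (l 2) (a (b (l 2) (a (l 16947560) (l 2))) (l 2))) (l 2)))), by decide +kernel⟩

theorem c_pm_133 : CertF 536870912 536870912 0 1230186008 134217728 67108864 true true false .dn 1 3 3
    ndF1q1 ndF5q3 pcF3 Cut.none Ext.none :=
  certF0 (fam := true) (s1 := true) (s2 := false) (a := 1) (b := 3) (c := 3) (cn := .dn) (n1 := ndF1q1) (n2 := ndF5q3) (pc := pcF3) (cut := Cut.none) (xt := Ext.none) (P1 := 536870912) (W1 := 536870912) (P2 := 0) (W2 := 1230186008) (P3 := 134217728) (W3 := 67108864)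
    rfl k0_pm_133

noncomputable def f_pm_202_a : ℕ → ℕ → ℕ → ℕ → Bool := onCell 0 536870912 1073741824 536870912 134217728 67108864
    (rowF 1 true true false .pp 2 0 2 (qsf 0 536870912 0 536870912 2) ndF1q2a ndF5q0 pcF2 Cut.none Ext.none)

def k0_pm_202_a : ∃ t, chk3 f_pm_202_a t 1 1 1 = true :=
  ⟨(b (b (a (l 143382721287) (a (l 18931840) (l 19039880))) (a (l 18706344) (a (l 18768944) (l 18767344)))) (b (a (l 18345816) (l 18604680)) (a (l 4) (a (l 4) (l 18285760))))), by decide +kernel⟩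

theorem c_pm_202_a : CertF 0 536870912 0 536870912 134217728 67108864 true true false .pp 2 0 2
    ndF1q2a ndF5q0 pcF2 Cut.none Ext.none :=
  certF1 (fam := true) (s1 := true) (s2 := false) (a := 2) (b := 0) (c := 2) (cn := .pp) (n1 := ndF1q2a) (n2 := ndF5q0) (pc := pcF2) (cut := Cut.none) (xt := Ext.none) (P1 := 0) (W1 := 536870912) (P2 := 0) (W2 := 536870912) (P3 := 134217728) (W3 := 67108864)
    rfl (fun _ => rfl) k0_pm_202_a

noncomputable def f_pm_202_b : ℕ → ℕ → ℕ → ℕ → Bool := onCell 1239849684 370763052 0 536870912 134217728 67108864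
    (rowF 0 true true false .pp 2 0 2 (qsf 1239849684 370763052 0 536870912 2) ndF1q2b ndF5q0 pcF2 Cut.none Ext.none)

def k0_pm_202_b : ∃ t, chk3 f_pm_202_b t 1 1 1 = true :=
  ⟨(l 4), by decide +kernel⟩

theorem c_pm_202_b : CertF 1239849684 370763052 0 536870912 134217728 67108864 true true false .pp 2 0 2
    ndF1q2b ndF5q0 pcF2 Cut.none Ext.none :=
  certF0 (fam := true) (s1 := true) (s2 := false) (a := 2) (b := 0) (c := 2) (cn := .pp) (n1 := ndF1q2b) (n2 := ndF5q0) (pc := pcF2) (cut := Cut.none) (xt := Ext.none) (P1 := 1239849684) (W1 := 370763052) (P2 := 0) (W2 := 536870912) (P3 := 134217728) (W3 := 67108864)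
    rfl k0_pm_202_b

noncomputable def f_pm_203_a : ℕ → ℕ → ℕ → ℕ → Bool := onCell 0 536870912 1610612736 536870912 134217728 67108864
    (rowF 1 true true false .up 2 0 3 (qsf 0 536870912 0 536870912 3) ndF1q2a ndF5q0 pcF3 Cut.none Ext.none)

def k0_pm_203_a : ∃ t, chk3 f_pm_203_a t 1 1 1 = true :=
  ⟨(a (l 4) (b (l 4) (l 2))), by decide +kernel⟩

theorem c_pm_203_a : CertF 0 536870912 0 536870912 134217728 67108864 true true false .up 2 0 3
    ndF1q2a ndF5q0 pcF3 Cut.none Ext.none :=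
  certF1 (fam := true) (s1 := true) (s2 := false) (a := 2) (b := 0) (c := 3) (cn := .up) (n1 := ndF1q2a) (n2 := ndF5q0) (pc := pcF3) (cut := Cut.none) (xt := Ext.none) (P1 := 0) (W1 := 536870912) (P2 := 0) (W2 := 536870912) (P3 := 134217728) (W3 := 67108864)
    rfl (fun _ => rfl) k0_pm_203_a

noncomputable def f_pm_203_b : ℕ → ℕ → ℕ → ℕ → Bool := onCell 1239849684 370763052 0 536870912 134217728 67108864
    (rowF 0 true true false .up 2 0 3 (qsf 1239849684 370763052 0 536870912 3) ndF1q2b ndF5q0 pcF3 Cut.none Ext.none)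

def k0_pm_203_b : ∃ t, chk3 f_pm_203_b t 1 1 1 = true :=
  ⟨(l 4), by decide +kernel⟩

theorem c_pm_203_b : CertF 1239849684 370763052 0 536870912 134217728 67108864 true true false .up 2 0 3
    ndF1q2b ndF5q0 pcF3 Cut.none Ext.none :=
  certF0 (fam := true) (s1 := true) (s2 := false) (a := 2) (b := 0) (c := 3) (cn := .up) (n1 := ndF1q2b) (n2 := ndF5q0) (pc := pcF3) (cut := Cut.none) (xt := Ext.none) (P1 := 1239849684) (W1 := 370763052) (P2 := 0) (W2 := 536870912) (P3 := 134217728) (W3 := 67108864)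
    rfl k0_pm_203_b

noncomputable def f_pm_213_a : ℕ → ℕ → ℕ → ℕ → Bool := onCell 0 536870912 536870912 536870912 134217728 67108864
    (rowF 0 true true false .pnn 2 1 3 (qsf 0 536870912 536870912 536870912 3) ndF1q2a ndF5q1 pcF3 Cut.none Ext.none)

def k0_pm_213_a : ∃ t, chk3 f_pm_213_a t 1 1 1 = true :=
  ⟨(a (l 4) (b (l 4) (l 4))), by decide +kernel⟩

theorem c_pm_213_a : CertF 0 536870912 536870912 536870912 134217728 67108864 true true false .pnn 2 1 3
    ndF1q2a ndF5q1 pcF3 Cut.none Ext.none :=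
  certF0 (fam := true) (s1 := true) (s2 := false) (a := 2) (b := 1) (c := 3) (cn := .pnn) (n1 := ndF1q2a) (n2 := ndF5q1) (pc := pcF3) (cut := Cut.none) (xt := Ext.none) (P1 := 0) (W1 := 536870912) (P2 := 536870912) (W2 := 536870912) (P3 := 134217728) (W3 := 67108864)
    rfl k0_pm_213_a

noncomputable def f_pm_213_b : ℕ → ℕ → ℕ → ℕ → Bool := onCell 1239849684 370763052 536870912 536870912 134217728 67108864
    (rowF 0 true true false .pnn 2 1 3 (qsf 1239849684 370763052 536870912 536870912 3) ndF1q2b ndF5q1 pcF3 Cut.none Ext.none)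

def k0_pm_213_b : ∃ t, chk3 f_pm_213_b t 1 1 1 = true :=
  ⟨(l 4), by decide +kernel⟩

theorem c_pm_213_b : CertF 1239849684 370763052 536870912 536870912 134217728 67108864 true true false .pnn 2 1 3
    ndF1q2b ndF5q1 pcF3 Cut.none Ext.none :=
  certF0 (fam := true) (s1 := true) (s2 := false) (a := 2) (b := 1) (c := 3) (cn := .pnn) (n1 := ndF1q2b) (n2 := ndF5q1) (pc := pcF3) (cut := Cut.none) (xt := Ext.none) (P1 := 1239849684) (W1 := 370763052) (P2 := 536870912) (W2 := 536870912) (P3 := 134217728) (W3 := 67108864)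
    rfl k0_pm_213_b

noncomputable def f_pm_303 : ℕ → ℕ → ℕ → ℕ → Bool := onCell 1610612736 536870912 0 536870912 134217728 67108864
    (rowF 0 true true false .npn 3 0 3 (qsf 1610612736 536870912 0 536870912 3) ndF1q3 ndF5q0 pcF3 Cut.none Ext.none)

def k0_pm_303 : ∃ t, chk3 f_pm_303 t 1 1 1 = true :=
  ⟨(l 4), by decide +kernel⟩

theorem c_pm_303 : CertF 1610612736 536870912 0 536870912 134217728 67108864 true true false .npn 3 0 3
    ndF1q3 ndF5q0 pcF3 Cut.none Ext.none :=
  certF0 (fam := true) (s1 := true) (s2 := false) (a := 3) (b := 0) (c := 3) (cn := .npn) (n1 := ndF1q3) (n2 := ndF5q0) (pc := pcF3) (cut := Cut.none) (xt := Ext.none) (P1 := 1610612736) (W1 := 536870912) (P2 := 0) (W2 := 536870912) (P3 := 134217728) (W3 := 67108864)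
    rfl k0_pm_303

noncomputable def f_pm_313 : ℕ → ℕ → ℕ → ℕ → Bool := onCell 1610612736 536870912 536870912 536870912 134217728 67108864
    (rowF 0 true true false .dn 3 1 3 (qsf 1610612736 536870912 536870912 536870912 3) ndF1q3 ndF5q1 pcF3 Cut.none Ext.none)

def k0_pm_313 : ∃ t, chk3 f_pm_313 t 1 1 1 = true :=
  ⟨(l 4), by decide +kernel⟩

theorem c_pm_313 : CertF 1610612736 536870912 536870912 536870912 134217728 67108864 true true false .dn 3 1 3
    ndF1q3 ndF5q1 pcF3 Cut.none Ext.none :=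
  certF0 (fam := true) (s1 := true) (s2 := false) (a := 3) (b := 1) (c := 3) (cn := .dn) (n1 := ndF1q3) (n2 := ndF5q1) (pc := pcF3) (cut := Cut.none) (xt := Ext.none) (P1 := 1610612736) (W1 := 536870912) (P2 := 536870912) (W2 := 536870912) (P3 := 134217728) (W3 := 67108864)
    rfl k0_pm_313

noncomputable def f_mm_001 : ℕ → ℕ → ℕ → ℕ → Bool := onCell 0 536870912 0 536870912 134217728 67108864
    (rowF 0 true false false .up 0 0 1 (qsf 0 536870912 0 536870912 1) ndF1q0 ndF5q0 pcF1 Cut.none Ext.none)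

def k0_mm_001 : ∃ t, chk3 f_mm_001 t 1 1 1 = true :=
  ⟨(l 4), by decide +kernel⟩

theorem c_mm_001 : CertF 0 536870912 0 536870912 134217728 67108864 true false false .up 0 0 1
    ndF1q0 ndF5q0 pcF1 Cut.none Ext.none :=
  certF0 (fam := true) (s1 := false) (s2 := false) (a := 0) (b := 0) (c := 1) (cn := .up) (n1 := ndF1q0) (n2 := ndF5q0) (pc := pcF1) (cut := Cut.none) (xt := Ext.none) (P1 := 0) (W1 := 536870912) (P2 := 0) (W2 := 536870912) (P3 := 134217728) (W3 := 67108864)
    rfl k0_mm_001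

noncomputable def f_mm_011 : ℕ → ℕ → ℕ → ℕ → Bool := onCell 0 536870912 536870912 536870912 134217728 67108864
    (rowF 0 true false false .pnn 0 1 1 (qsf 0 536870912 536870912 536870912 1) ndF1q0 ndF5q1 pcF1 Cut.none Ext.none)

def k0_mm_011 : ∃ t, chk3 f_mm_011 t 1 1 1 = true :=
  ⟨(l 4), by decide +kernel⟩

theorem c_mm_011 : CertF 0 536870912 536870912 536870912 134217728 67108864 true false false .pnn 0 1 1
    ndF1q0 ndF5q1 pcF1 Cut.none Ext.none :=
  certF0 (fam := true) (s1 := false) (s2 := false) (a := 0) (b := 1) (c := 1) (cn := .pnn) (n1 := ndF1q0) (n2 := ndF5q1) (pc := pcF1) (cut := Cut.none) (xt := Ext.none) (P1 := 0) (W1 := 536870912) (P2 := 536870912) (W2 := 536870912) (P3 := 134217728) (W3 := 67108864)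
    rfl k0_mm_011

noncomputable def f_mm_012 : ℕ → ℕ → ℕ → ℕ → Bool := onCell 0 536870912 536870912 536870912 134217728 67108864
    (rowF 0 true false false .pnp 0 1 2 (qsf 0 536870912 536870912 536870912 2) ndF1q0 ndF5q1 pcF2 Cut.none Ext.none)

def k0_mm_012 : ∃ t, chk3 f_mm_012 t 1 1 1 = true :=
  ⟨(l 4), by decide +kernel⟩

theorem c_mm_012 : CertF 0 536870912 536870912 536870912 134217728 67108864 true false false .pnp 0 1 2
    ndF1q0 ndF5q1 pcF2 Cut.none Ext.none :=
  certF0 (fam := true) (s1 := false) (s2 := false) (a := 0) (b := 1) (c := 2) (cn := .pnp) (n1 := ndF1q0) (n2 := ndF5q1) (pc := pcF2) (cut := Cut.none) (xt := Ext.none) (P1 := 0) (W1 := 536870912) (P2 := 536870912) (W2 := 536870912) (P3 := 134217728) (W3 := 67108864)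
    rfl k0_mm_012

noncomputable def f_mm_022 : ℕ → ℕ → ℕ → ℕ → Bool := onCell 0 536870912 1073741824 536870912 134217728 67108864
    (rowF 0 true false false .pp 0 2 2 (qsf 0 536870912 1073741824 536870912 2) ndF1q0 ndF5q2 pcF2 Cut.none Ext.none)

def k0_mm_022 : ∃ t, chk3 f_mm_022 t 1 1 1 = true :=
  ⟨(l 4), by decide +kernel⟩

theorem c_mm_022 : CertF 0 536870912 1073741824 536870912 134217728 67108864 true false false .pp 0 2 2
    ndF1q0 ndF5q2 pcF2 Cut.none Ext.none :=
  certF0 (fam := true) (s1 := false) (s2 := false) (a := 0) (b := 2) (c := 2) (cn := .pp) (n1 := ndF1q0) (n2 := ndF5q2) (pc := pcF2) (cut := Cut.none) (xt := Ext.none) (P1 := 0) (W1 := 536870912) (P2 := 1073741824) (W2 := 536870912) (P3 := 134217728) (W3 := 67108864)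
    rfl k0_mm_022

noncomputable def f_mm_023 : ℕ → ℕ → ℕ → ℕ → Bool := onCell 0 536870912 1073741824 536870912 134217728 67108864
    (rowF 0 true false false .up 0 2 3 (qsf 0 536870912 1073741824 536870912 3) ndF1q0 ndF5q2 pcF3 Cut.none Ext.none)

def k0_mm_023 : ∃ t, chk3 f_mm_023 t 1 1 1 = true :=
  ⟨(l 4), by decide +kernel⟩

theorem c_mm_023 : CertF 0 536870912 1073741824 536870912 134217728 67108864 true false false .up 0 2 3
    ndF1q0 ndF5q2 pcF3 Cut.none Ext.none :=
  certF0 (fam := true) (s1 := false) (s2 := false) (a := 0) (b := 2) (c := 3) (cn := .up) (n1 := ndF1q0) (n2 := ndF5q2) (pc := pcF3) (cut := Cut.none) (xt := Ext.none) (P1 := 0) (W1 := 536870912) (P2 := 1073741824) (W2 := 536870912) (P3 := 134217728) (W3 := 67108864)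
    rfl k0_mm_023

noncomputable def f_mm_033 : ℕ → ℕ → ℕ → ℕ → Bool := onCell 0 536870912 0 1230186008 134217728 67108864
    (rowF 0 true false false .pnn 0 3 3 (qsf 0 536870912 0 1230186008 3) ndF1q0 ndF5q3 pcF3 Cut.none Ext.none)

def k0_mm_033 : ∃ t, chk3 f_mm_033 t 1 1 1 = true :=
  ⟨(l 4), by decide +kernel⟩

theorem c_mm_033 : CertF 0 536870912 0 1230186008 134217728 67108864 true false false .pnn 0 3 3
    ndF1q0 ndF5q3 pcF3 Cut.none Ext.none :=
  certF0 (fam := true) (s1 := false) (s2 := false) (a := 0) (b := 3) (c := 3) (cn := .pnn) (n1 := ndF1q0) (n2 := ndF5q3) (pc := pcF3) (cut := Cut.none) (xt := Ext.none) (P1 := 0) (W1 := 536870912) (P2 := 0) (W2 := 1230186008) (P3 := 134217728) (W3 := 67108864)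
    rfl k0_mm_033

noncomputable def f_mm_101 : ℕ → ℕ → ℕ → ℕ → Bool := onCell 536870912 536870912 0 536870912 134217728 67108864
    (rowF 0 true false false .npn 1 0 1 (qsf 536870912 536870912 0 536870912 1) ndF1q1 ndF5q0 pcF1 Cut.none Ext.none)

def k0_mm_101 : ∃ t, chk3 f_mm_101 t 1 1 1 = true :=
  ⟨(l 4), by decide +kernel⟩

theorem c_mm_101 : CertF 536870912 536870912 0 536870912 134217728 67108864 true false false .npn 1 0 1
    ndF1q1 ndF5q0 pcF1 Cut.none Ext.none :=
  certF0 (fam := true) (s1 := false) (s2 := false) (a := 1) (b := 0) (c := 1) (cn := .npn) (n1 := ndF1q1) (n2 := ndF5q0) (pc := pcF1) (cut := Cut.none) (xt := Ext.none) (P1 := 536870912) (W1 := 536870912) (P2 := 0) (W2 := 536870912) (P3 := 134217728) (W3 := 67108864)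
    rfl k0_mm_101

noncomputable def f_mm_102 : ℕ → ℕ → ℕ → ℕ → Bool := onCell 536870912 536870912 0 536870912 134217728 67108864
    (rowF 0 true false false .npp 1 0 2 (qsf 536870912 536870912 0 536870912 2) ndF1q1 ndF5q0 pcF2 Cut.none Ext.none)

def k0_mm_102 : ∃ t, chk3 f_mm_102 t 1 1 1 = true :=
  ⟨(l 4), by decide +kernel⟩

theorem c_mm_102 : CertF 536870912 536870912 0 536870912 134217728 67108864 true false false .npp 1 0 2
    ndF1q1 ndF5q0 pcF2 Cut.none Ext.none :=
  certF0 (fam := true) (s1 := false) (s2 := false) (a := 1) (b := 0) (c := 2) (cn := .npp) (n1 := ndF1q1) (n2 := ndF5q0) (pc := pcF2) (cut := Cut.none) (xt := Ext.none) (P1 := 536870912) (W1 := 536870912) (P2 := 0) (W2 := 536870912) (P3 := 134217728) (W3 := 67108864)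
    rfl k0_mm_102

noncomputable def f_mm_112 : ℕ → ℕ → ℕ → ℕ → Bool := onCell 536870912 536870912 536870912 536870912 134217728 67108864
    (rowF 0 true false false .dn 1 1 2 (qsf 536870912 536870912 536870912 536870912 2) ndF1q1 ndF5q1 pcF2 Cut.none Ext.none)

def k0_mm_112 : ∃ t, chk3 f_mm_112 t 1 1 1 = true :=
  ⟨(l 4), by decide +kernel⟩

theorem c_mm_112 : CertF 536870912 536870912 536870912 536870912 134217728 67108864 true false false .dn 1 1 2
    ndF1q1 ndF5q1 pcF2 Cut.none Ext.none :=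
  certF0 (fam := true) (s1 := false) (s2 := false) (a := 1) (b := 1) (c := 2) (cn := .dn) (n1 := ndF1q1) (n2 := ndF5q1) (pc := pcF2) (cut := Cut.none) (xt := Ext.none) (P1 := 536870912) (W1 := 536870912) (P2 := 536870912) (W2 := 536870912) (P3 := 134217728) (W3 := 67108864)
    rfl k0_mm_112

noncomputable def f_mm_113 : ℕ → ℕ → ℕ → ℕ → Bool := onCell 536870912 536870912 536870912 536870912 134217728 67108864
    (rowF 0 true false false .nn 1 1 3 (qsf 536870912 536870912 536870912 536870912 3) ndF1q1 ndF5q1 pcF3 Cut.none Ext.none)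

def k0_mm_113 : ∃ t, chk3 f_mm_113 t 1 1 1 = true :=
  ⟨(l 4), by decide +kernel⟩

theorem c_mm_113 : CertF 536870912 536870912 536870912 536870912 134217728 67108864 true false false .nn 1 1 3
    ndF1q1 ndF5q1 pcF3 Cut.none Ext.none :=
  certF0 (fam := true) (s1 := false) (s2 := false) (a := 1) (b := 1) (c := 3) (cn := .nn) (n1 := ndF1q1) (n2 := ndF5q1) (pc := pcF3) (cut := Cut.none) (xt := Ext.none) (P1 := 536870912) (W1 := 536870912) (P2 := 536870912) (W2 := 536870912) (P3 := 134217728) (W3 := 67108864)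
    rfl k0_mm_113

noncomputable def f_mm_123 : ℕ → ℕ → ℕ → ℕ → Bool := onCell 536870912 536870912 1073741824 536870912 134217728 67108864
    (rowF 0 true false false .npn 1 2 3 (qsf 536870912 536870912 1073741824 536870912 3) ndF1q1 ndF5q2 pcF3 Cut.none Ext.none)

def k0_mm_123 : ∃ t, chk3 f_mm_123 t 1 1 1 = true :=
  ⟨(l 4), by decide +kernel⟩

theorem c_mm_123 : CertF 536870912 536870912 1073741824 536870912 134217728 67108864 true false false .npn 1 2 3
    ndF1q1 ndF5q2 pcF3 Cut.none Ext.none :=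
  certF0 (fam := true) (s1 := false) (s2 := false) (a := 1) (b := 2) (c := 3) (cn := .npn) (n1 := ndF1q1) (n2 := ndF5q2) (pc := pcF3) (cut := Cut.none) (xt := Ext.none) (P1 := 536870912) (W1 := 536870912) (P2 := 1073741824) (W2 := 536870912) (P3 := 134217728) (W3 := 67108864)
    rfl k0_mm_123

noncomputable def f_mm_133 : ℕ → ℕ → ℕ → ℕ → Bool := onCell 536870912 536870912 0 1230186008 134217728 67108864
    (rowF 0 true false false .dn 1 3 3 (qsf 536870912 536870912 0 1230186008 3) ndF1q1 ndF5q3 pcF3 Cut.none Ext.none)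

def k0_mm_133 : ∃ t, chk3 f_mm_133 t 1 1 1 = true :=
  ⟨(l 4), by decide +kernel⟩

theorem c_mm_133 : CertF 536870912 536870912 0 1230186008 134217728 67108864 true false false .dn 1 3 3
    ndF1q1 ndF5q3 pcF3 Cut.none Ext.none :=
  certF0 (fam := true) (s1 := false) (s2 := false) (a := 1) (b := 3) (c := 3) (cn := .dn) (n1 := ndF1q1) (n2 := ndF5q3) (pc := pcF3) (cut := Cut.none) (xt := Ext.none) (P1 := 536870912) (W1 := 536870912) (P2 := 0) (W2 := 1230186008) (P3 := 134217728) (W3 := 67108864)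
    rfl k0_mm_133

noncomputable def f_mm_202_a : ℕ → ℕ → ℕ → ℕ → Bool := onCell 0 536870912 0 536870912 134217728 67108864
    (rowF 0 true false false .pp 2 0 2 (qsf 0 536870912 0 536870912 2) ndF1q2a ndF5q0 pcF2 Cut.none Ext.none)

def k0_mm_202_a : ∃ t, chk3 f_mm_202_a t 1 1 1 = true :=
  ⟨(l 4), by decide +kernel⟩

theorem c_mm_202_a : CertF 0 536870912 0 536870912 134217728 67108864 true false false .pp 2 0 2
    ndF1q2a ndF5q0 pcF2 Cut.none Ext.none :=
  certF0 (fam := true) (s1 := false) (s2 := false) (a := 2) (b := 0) (c := 2) (cn := .pp) (n1 := ndF1q2a) (n2 := ndF5q0) (pc := pcF2) (cut := Cut.none) (xt := Ext.none) (P1 := 0) (W1 := 536870912) (P2 := 0) (W2 := 536870912) (P3 := 134217728) (W3 := 67108864)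
    rfl k0_mm_202_a

noncomputable def f_mm_202_b : ℕ → ℕ → ℕ → ℕ → Bool := onCell 1239849684 370763052 0 536870912 134217728 67108864
    (rowF 0 true false false .pp 2 0 2 (qsf 1239849684 370763052 0 536870912 2) ndF1q2b ndF5q0 pcF2 Cut.none Ext.none)

def k0_mm_202_b : ∃ t, chk3 f_mm_202_b t 1 1 1 = true :=
  ⟨(l 4), by decide +kernel⟩

theorem c_mm_202_b : CertF 1239849684 370763052 0 536870912 134217728 67108864 true false false .pp 2 0 2
    ndF1q2b ndF5q0 pcF2 Cut.none Ext.none :=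
  certF0 (fam := true) (s1 := false) (s2 := false) (a := 2) (b := 0) (c := 2) (cn := .pp) (n1 := ndF1q2b) (n2 := ndF5q0) (pc := pcF2) (cut := Cut.none) (xt := Ext.none) (P1 := 1239849684) (W1 := 370763052) (P2 := 0) (W2 := 536870912) (P3 := 134217728) (W3 := 67108864)
    rfl k0_mm_202_b

noncomputable def f_mm_203_a : ℕ → ℕ → ℕ → ℕ → Bool := onCell 0 536870912 0 536870912 134217728 67108864
    (rowF 0 true false false .up 2 0 3 (qsf 0 536870912 0 536870912 3) ndF1q2a ndF5q0 pcF3 Cut.none Ext.none)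

def k0_mm_203_a : ∃ t, chk3 f_mm_203_a t 1 1 1 = true :=
  ⟨(l 4), by decide +kernel⟩

theorem c_mm_203_a : CertF 0 536870912 0 536870912 134217728 67108864 true false false .up 2 0 3
    ndF1q2a ndF5q0 pcF3 Cut.none Ext.none :=
  certF0 (fam := true) (s1 := false) (s2 := false) (a := 2) (b := 0) (c := 3) (cn := .up) (n1 := ndF1q2a) (n2 := ndF5q0) (pc := pcF3) (cut := Cut.none) (xt := Ext.none) (P1 := 0) (W1 := 536870912) (P2 := 0) (W2 := 536870912) (P3 := 134217728) (W3 := 67108864)
    rfl k0_mm_203_a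

noncomputable def f_mm_203_b : ℕ → ℕ → ℕ → ℕ → Bool := onCell 1239849684 370763052 0 536870912 134217728 67108864
    (rowF 0 true false false .up 2 0 3 (qsf 1239849684 370763052 0 536870912 3) ndF1q2b ndF5q0 pcF3 Cut.none Ext.none)

def k0_mm_203_b : ∃ t, chk3 f_mm_203_b t 1 1 1 = true :=
  ⟨(l 4), by decide +kernel⟩

theorem c_mm_203_b : CertF 1239849684 370763052 0 536870912 134217728 67108864 true false false .up 2 0 3
    ndF1q2b ndF5q0 pcF3 Cut.none Ext.none :=
  certF0 (fam := true) (s1 := false) (s2 := false) (a := 2) (b := 0) (c := 3) (cn := .up) (n1 := ndF1q2b) (n2 := ndF5q0) (pc := pcF3) (cut := Cut.none) (xt := Ext.none) (P1 := 1239849684) (W1 := 370763052) (P2 := 0) (W2 := 536870912) (P3 := 134217728) (W3 := 67108864)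
    rfl k0_mm_203_b

noncomputable def f_mm_213_a : ℕ → ℕ → ℕ → ℕ → Bool := onCell 0 536870912 536870912 536870912 134217728 67108864
    (rowF 0 true false false .pnn 2 1 3 (qsf 0 536870912 536870912 536870912 3) ndF1q2a ndF5q1 pcF3 Cut.none Ext.none)

def k0_mm_213_a : ∃ t, chk3 f_mm_213_a t 1 1 1 = true :=
  ⟨(l 4), by decide +kernel⟩

theorem c_mm_213_a : CertF 0 536870912 536870912 536870912 134217728 67108864 true false false .pnn 2 1 3
    ndF1q2a ndF5q1 pcF3 Cut.none Ext.none :=
  certF0 (fam := true) (s1 := false) (s2 := false) (a := 2) (b := 1) (c := 3) (cn := .pnn) (n1 := ndF1q2a) (n2 := ndF5q1) (pc := pcF3) (cut := Cut.none) (xt := Ext.none) (P1 := 0) (W1 := 536870912) (P2 := 536870912) (W2 := 536870912) (P3 := 134217728) (W3 := 67108864)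
    rfl k0_mm_213_a

noncomputable def f_mm_213_b : ℕ → ℕ → ℕ → ℕ → Bool := onCell 1239849684 370763052 536870912 536870912 134217728 67108864
    (rowF 0 true false false .pnn 2 1 3 (qsf 1239849684 370763052 536870912 536870912 3) ndF1q2b ndF5q1 pcF3 Cut.none Ext.none)

def k0_mm_213_b : ∃ t, chk3 f_mm_213_b t 1 1 1 = true :=
  ⟨(l 4), by decide +kernel⟩

theorem c_mm_213_b : CertF 1239849684 370763052 536870912 536870912 134217728 67108864 true false false .pnn 2 1 3
    ndF1q2b ndF5q1 pcF3 Cut.none Ext.none :=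
  certF0 (fam := true) (s1 := false) (s2 := false) (a := 2) (b := 1) (c := 3) (cn := .pnn) (n1 := ndF1q2b) (n2 := ndF5q1) (pc := pcF3) (cut := Cut.none) (xt := Ext.none) (P1 := 1239849684) (W1 := 370763052) (P2 := 536870912) (W2 := 536870912) (P3 := 134217728) (W3 := 67108864)
    rfl k0_mm_213_b

noncomputable def f_mm_303 : ℕ → ℕ → ℕ → ℕ → Bool := onCell 1610612736 536870912 0 536870912 134217728 67108864
    (rowF 0 true false false .npn 3 0 3 (qsf 1610612736 536870912 0 536870912 3) ndF1q3 ndF5q0 pcF3 Cut.none Ext.none)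

def k0_mm_303 : ∃ t, chk3 f_mm_303 t 1 1 1 = true :=
  ⟨(l 4), by decide +kernel⟩

theorem c_mm_303 : CertF 1610612736 536870912 0 536870912 134217728 67108864 true false false .npn 3 0 3
    ndF1q3 ndF5q0 pcF3 Cut.none Ext.none :=
  certF0 (fam := true) (s1 := false) (s2 := false) (a := 3) (b := 0) (c := 3) (cn := .npn) (n1 := ndF1q3) (n2 := ndF5q0) (pc := pcF3) (cut := Cut.none) (xt := Ext.none) (P1 := 1610612736) (W1 := 536870912) (P2 := 0) (W2 := 536870912) (P3 := 134217728) (W3 := 67108864)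
    rfl k0_mm_303

noncomputable def f_mm_313 : ℕ → ℕ → ℕ → ℕ → Bool := onCell 1610612736 536870912 536870912 536870912 134217728 67108864
    (rowF 0 true false false .dn 3 1 3 (qsf 1610612736 536870912 536870912 536870912 3) ndF1q3 ndF5q1 pcF3 Cut.none Ext.none)

def k0_mm_313 : ∃ t, chk3 f_mm_313 t 1 1 1 = true :=
  ⟨(l 4), by decide +kernel⟩

theorem c_mm_313 : CertF 1610612736 536870912 536870912 536870912 134217728 67108864 true false false .dn 3 1 3
    ndF1q3 ndF5q1 pcF3 Cut.none Ext.none :=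
  certF0 (fam := true) (s1 := false) (s2 := false) (a := 3) (b := 1) (c := 3) (cn := .dn) (n1 := ndF1q3) (n2 := ndF5q1) (pc := pcF3) (cut := Cut.none) (xt := Ext.none) (P1 := 1610612736) (W1 := 536870912) (P2 := 536870912) (W2 := 536870912) (P3 := 134217728) (W3 := 67108864)
    rfl k0_mm_313

end Pool.Agent.Strip051.G.I1_8_3_16.Tab.C.FA15

namespace Pool.Agent.Strip051.G.I1_8_3_16.Tab.C.FA22

open Pool.Agent.Strip051.PB Pool.Agent.Strip051.PB.T
open Pool.Agent.Strip051.G.I1_8_3_16.Tab

noncomputable def f_pp_001 : ℕ → ℕ → ℕ → ℕ → Bool := onCell 0 536870912 0 536870912 134217728 67108864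
    (rowF 0 true true true .up 0 0 1 (qsf 0 536870912 0 536870912 1) ndF2q0 ndF2q0 pcF1 Cut.none Ext.none)

def k0_pp_001 : ∃ t, chk3 f_pp_001 t 1 1 1 = true :=
  ⟨(l 4), by decide +kernel⟩

theorem c_pp_001 : CertF 0 536870912 0 536870912 134217728 67108864 true true true .up 0 0 1
    ndF2q0 ndF2q0 pcF1 Cut.none Ext.none :=
  certF0 (fam := true) (s1 := true) (s2 := true) (a := 0) (b := 0) (c := 1) (cn := .up) (n1 := ndF2q0) (n2 := ndF2q0) (pc := pcF1) (cut := Cut.none) (xt := Ext.none) (P1 := 0) (W1 := 536870912) (P2 := 0) (W2 := 536870912) (P3 := 134217728) (W3 := 67108864)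
    rfl k0_pp_001

noncomputable def f_pp_011 : ℕ → ℕ → ℕ → ℕ → Bool := onCell 0 536870912 536870912 536870912 134217728 67108864
    (rowF 0 true true true .pnn 0 1 1 (qsf 0 536870912 536870912 536870912 1) ndF2q0 ndF2q1 pcF1 Cut.none Ext.none)

def k0_pp_011 : ∃ t, chk3 f_pp_011 t 1 1 1 = true :=
  ⟨(l 4), by decide +kernel⟩

theorem c_pp_011 : CertF 0 536870912 536870912 536870912 134217728 67108864 true true true .pnn 0 1 1
    ndF2q0 ndF2q1 pcF1 Cut.none Ext.none :=
  certF0 (fam := true) (s1 := true) (s2 := true) (a := 0) (b := 1) (c := 1) (cn := .pnn) (n1 := ndF2q0) (n2 := ndF2q1) (pc := pcF1) (cut := Cut.none) (xt := Ext.none) (P1 := 0) (W1 := 536870912) (P2 := 536870912) (W2 := 536870912) (P3 := 134217728) (W3 := 67108864)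
    rfl k0_pp_011

noncomputable def f_pp_012 : ℕ → ℕ → ℕ → ℕ → Bool := onCell 0 536870912 536870912 536870912 134217728 67108864
    (rowF 0 true true true .pnp 0 1 2 (qsf 0 536870912 536870912 536870912 2) ndF2q0 ndF2q1 pcF2 Cut.none Ext.none)

def k0_pp_012 : ∃ t, chk3 f_pp_012 t 1 1 1 = true :=
  ⟨(l 4), by decide +kernel⟩

theorem c_pp_012 : CertF 0 536870912 536870912 536870912 134217728 67108864 true true true .pnp 0 1 2
    ndF2q0 ndF2q1 pcF2 Cut.none Ext.none :=
  certF0 (fam := true) (s1 := true) (s2 := true) (a := 0) (b := 1) (c := 2) (cn := .pnp) (n1 := ndF2q0) (n2 := ndF2q1) (pc := pcF2) (cut := Cut.none) (xt := Ext.none) (P1 := 0) (W1 := 536870912) (P2 := 536870912) (W2 := 536870912) (P3 := 134217728) (W3 := 67108864)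
    rfl k0_pp_012

noncomputable def cut_pp_022_a : Cut := Cut.of [[⟨0, 0, 0, 67108864⟩, ⟨1, 1, 0, 67108864⟩, ⟨2, 1, 0, 67108864⟩]]

noncomputable def f_pp_022_a : ℕ → ℕ → ℕ → ℕ → Bool := onCell 0 536870912 0 536870912 134217728 67108864
    (rowF 0 true true true .pp 0 2 2 (qsf 0 536870912 0 536870912 2) ndF2q0 ndF2q2a pcF2 cut_pp_022_a Ext.none)

def k0_pp_022_a : ∃ t, chk3 f_pp_022_a t 1 1 1 = true :=
  ⟨(a (b (l 4) (a (a (b (l 4) (b (l 4) (a (b (l 4) (l 6)) (l 4)))) (l 4)) (l 4))) (l 4)), by decide +kernel⟩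

theorem c_pp_022_a : CertF 0 536870912 0 536870912 134217728 67108864 true true true .pp 0 2 2
    ndF2q0 ndF2q2a pcF2 cut_pp_022_a Ext.none :=
  certF0 (fam := true) (s1 := true) (s2 := true) (a := 0) (b := 2) (c := 2) (cn := .pp) (n1 := ndF2q0) (n2 := ndF2q2a) (pc := pcF2) (cut := cut_pp_022_a) (xt := Ext.none) (P1 := 0) (W1 := 536870912) (P2 := 0) (W2 := 536870912) (P3 := 134217728) (W3 := 67108864)
    rfl k0_pp_022_a

noncomputable def cut_pp_022_b : Cut := Cut.of [[⟨0, 0, 0, 67108864⟩, ⟨1, 1, 0, 67108864⟩, ⟨2, 1, 0, 67108864⟩]]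

noncomputable def f_pp_022_b : ℕ → ℕ → ℕ → ℕ → Bool := onCell 0 536870912 1239849684 370763052 134217728 67108864
    (rowF 0 true true true .pp 0 2 2 (qsf 0 536870912 1239849684 370763052 2) ndF2q0 ndF2q2b pcF2 cut_pp_022_b Ext.none)

def k0_pp_022_b : ∃ t, chk3 f_pp_022_b t 1 1 1 = true :=
  ⟨(a (b (l 4) (l 4)) (l 4)), by decide +kernel⟩

theorem c_pp_022_b : CertF 0 536870912 1239849684 370763052 134217728 67108864 true true true .pp 0 2 2
    ndF2q0 ndF2q2b pcF2 cut_pp_022_b Ext.none :=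
  certF0 (fam := true) (s1 := true) (s2 := true) (a := 0) (b := 2) (c := 2) (cn := .pp) (n1 := ndF2q0) (n2 := ndF2q2b) (pc := pcF2) (cut := cut_pp_022_b) (xt := Ext.none) (P1 := 0) (W1 := 536870912) (P2 := 1239849684) (W2 := 370763052) (P3 := 134217728) (W3 := 67108864)
    rfl k0_pp_022_b

noncomputable def f_pp_023_a : ℕ → ℕ → ℕ → ℕ → Bool := onCell 1610612736 536870912 0 536870912 134217728 67108864
    (rowF 2 true true true .up 0 2 3 (qsf 0 536870912 0 536870912 3) ndF2q0 ndF2q2a pcF3 Cut.none Ext.none)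

def k0_pp_023_a : ∃ t, chk3 f_pp_023_a t 1 1 1 = true :=
  ⟨(l 4), by decide +kernel⟩

theorem c_pp_023_a : CertF 0 536870912 0 536870912 134217728 67108864 true true true .up 0 2 3
    ndF2q0 ndF2q2a pcF3 Cut.none Ext.none :=
  certF2 (fam := true) (s1 := true) (s2 := true) (a := 0) (b := 2) (c := 3) (cn := .up) (n1 := ndF2q0) (n2 := ndF2q2a) (pc := pcF3) (cut := Cut.none) (xt := Ext.none) (P1 := 0) (W1 := 536870912) (P2 := 0) (W2 := 536870912) (P3 := 134217728) (W3 := 67108864)
    rfl (fun _ => rfl) k0_pp_023_a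

noncomputable def f_pp_023_b : ℕ → ℕ → ℕ → ℕ → Bool := onCell 1610612736 536870912 1239849684 370763052 134217728 67108864
    (rowF 2 true true true .up 0 2 3 (qsf 0 536870912 1239849684 370763052 3) ndF2q0 ndF2q2b pcF3 Cut.none Ext.none)

def k0_pp_023_b : ∃ t, chk3 f_pp_023_b t 1 1 1 = true :=
  ⟨(l 4), by decide +kernel⟩

theorem c_pp_023_b : CertF 0 536870912 1239849684 370763052 134217728 67108864 true true true .up 0 2 3
    ndF2q0 ndF2q2b pcF3 Cut.none Ext.none :=
  certF2 (fam := true) (s1 := true) (s2 := true) (a := 0) (b := 2) (c := 3) (cn := .up) (n1 := ndF2q0) (n2 := ndF2q2b) (pc := pcF3) (cut := Cut.none) (xt := Ext.none) (P1 := 0) (W1 := 536870912) (P2 := 1239849684) (W2 := 370763052) (P3 := 134217728) (W3 := 67108864)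
    rfl (fun _ => rfl) k0_pp_023_b

noncomputable def f_pp_033 : ℕ → ℕ → ℕ → ℕ → Bool := onCell 0 536870912 1610612736 536870912 134217728 67108864
    (rowF 0 true true true .pnn 0 3 3 (qsf 0 536870912 1610612736 536870912 3) ndF2q0 ndF2q3 pcF3 Cut.none Ext.none)

def k0_pp_033 : ∃ t, chk3 f_pp_033 t 1 1 1 = true :=
  ⟨(l 4), by decide +kernel⟩

theorem c_pp_033 : CertF 0 536870912 1610612736 536870912 134217728 67108864 true true true .pnn 0 3 3
    ndF2q0 ndF2q3 pcF3 Cut.none Ext.none :=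
  certF0 (fam := true) (s1 := true) (s2 := true) (a := 0) (b := 3) (c := 3) (cn := .pnn) (n1 := ndF2q0) (n2 := ndF2q3) (pc := pcF3) (cut := Cut.none) (xt := Ext.none) (P1 := 0) (W1 := 536870912) (P2 := 1610612736) (W2 := 536870912) (P3 := 134217728) (W3 := 67108864)
    rfl k0_pp_033

noncomputable def f_pp_101 : ℕ → ℕ → ℕ → ℕ → Bool := onCell 536870912 536870912 0 536870912 134217728 67108864
    (rowF 0 true true true .npn 1 0 1 (qsf 536870912 536870912 0 536870912 1) ndF2q1 ndF2q0 pcF1 Cut.none Ext.none)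

def k0_pp_101 : ∃ t, chk3 f_pp_101 t 1 1 1 = true :=
  ⟨(l 4), by decide +kernel⟩

theorem c_pp_101 : CertF 536870912 536870912 0 536870912 134217728 67108864 true true true .npn 1 0 1
    ndF2q1 ndF2q0 pcF1 Cut.none Ext.none :=
  certF0 (fam := true) (s1 := true) (s2 := true) (a := 1) (b := 0) (c := 1) (cn := .npn) (n1 := ndF2q1) (n2 := ndF2q0) (pc := pcF1) (cut := Cut.none) (xt := Ext.none) (P1 := 536870912) (W1 := 536870912) (P2 := 0) (W2 := 536870912) (P3 := 134217728) (W3 := 67108864)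
    rfl k0_pp_101

noncomputable def f_pp_102 : ℕ → ℕ → ℕ → ℕ → Bool := onCell 536870912 536870912 0 536870912 134217728 67108864
    (rowF 0 true true true .npp 1 0 2 (qsf 536870912 536870912 0 536870912 2) ndF2q1 ndF2q0 pcF2 Cut.none Ext.none)

def k0_pp_102 : ∃ t, chk3 f_pp_102 t 1 1 1 = true :=
  ⟨(l 4), by decide +kernel⟩

theorem c_pp_102 : CertF 536870912 536870912 0 536870912 134217728 67108864 true true true .npp 1 0 2
    ndF2q1 ndF2q0 pcF2 Cut.none Ext.none :=
  certF0 (fam := true) (s1 := true) (s2 := true) (a := 1) (b := 0) (c := 2) (cn := .npp) (n1 := ndF2q1) (n2 := ndF2q0) (pc := pcF2) (cut := Cut.none) (xt := Ext.none) (P1 := 536870912) (W1 := 536870912) (P2 := 0) (W2 := 536870912) (P3 := 134217728) (W3 := 67108864)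
    rfl k0_pp_102

noncomputable def f_pp_112 : ℕ → ℕ → ℕ → ℕ → Bool := onCell 536870912 536870912 536870912 536870912 134217728 67108864
    (rowF 0 true true true .dn 1 1 2 (qsf 536870912 536870912 536870912 536870912 2) ndF2q1 ndF2q1 pcF2 Cut.none Ext.none)

def k0_pp_112 : ∃ t, chk3 f_pp_112 t 1 1 1 = true :=
  ⟨(l 4), by decide +kernel⟩

theorem c_pp_112 : CertF 536870912 536870912 536870912 536870912 134217728 67108864 true true true .dn 1 1 2
    ndF2q1 ndF2q1 pcF2 Cut.none Ext.none :=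
  certF0 (fam := true) (s1 := true) (s2 := true) (a := 1) (b := 1) (c := 2) (cn := .dn) (n1 := ndF2q1) (n2 := ndF2q1) (pc := pcF2) (cut := Cut.none) (xt := Ext.none) (P1 := 536870912) (W1 := 536870912) (P2 := 536870912) (W2 := 536870912) (P3 := 134217728) (W3 := 67108864)
    rfl k0_pp_112

noncomputable def f_pp_113 : ℕ → ℕ → ℕ → ℕ → Bool := onCell 536870912 536870912 536870912 536870912 134217728 67108864
    (rowF 0 true true true .nn 1 1 3 (qsf 536870912 536870912 536870912 536870912 3) ndF2q1 ndF2q1 pcF3 Cut.none Ext.none)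

def k0_pp_113 : ∃ t, chk3 f_pp_113 t 1 1 1 = true :=
  ⟨(l 4), by decide +kernel⟩

theorem c_pp_113 : CertF 536870912 536870912 536870912 536870912 134217728 67108864 true true true .nn 1 1 3
    ndF2q1 ndF2q1 pcF3 Cut.none Ext.none :=
  certF0 (fam := true) (s1 := true) (s2 := true) (a := 1) (b := 1) (c := 3) (cn := .nn) (n1 := ndF2q1) (n2 := ndF2q1) (pc := pcF3) (cut := Cut.none) (xt := Ext.none) (P1 := 536870912) (W1 := 536870912) (P2 := 536870912) (W2 := 536870912) (P3 := 134217728) (W3 := 67108864)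
    rfl k0_pp_113

noncomputable def f_pp_123_a : ℕ → ℕ → ℕ → ℕ → Bool := onCell 536870912 536870912 0 536870912 134217728 67108864
    (rowF 0 true true true .npn 1 2 3 (qsf 536870912 536870912 0 536870912 3) ndF2q1 ndF2q2a pcF3 Cut.none Ext.none)

def k0_pp_123_a : ∃ t, chk3 f_pp_123_a t 1 1 1 = true :=
  ⟨(l 4), by decide +kernel⟩

theorem c_pp_123_a : CertF 536870912 536870912 0 536870912 134217728 67108864 true true true .npn 1 2 3
    ndF2q1 ndF2q2a pcF3 Cut.none Ext.none :=
  certF0 (fam := true) (s1 := true) (s2 := true) (a := 1) (b := 2) (c := 3) (cn := .npn) (n1 := ndF2q1) (n2 := ndF2q2a) (pc := pcF3) (cut := Cut.none) (xt := Ext.none) (P1 := 536870912) (W1 := 536870912) (P2 := 0) (W2 := 536870912) (P3 := 134217728) (W3 := 67108864)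
    rfl k0_pp_123_a

noncomputable def f_pp_123_b : ℕ → ℕ → ℕ → ℕ → Bool := onCell 536870912 536870912 1239849684 370763052 134217728 67108864
    (rowF 0 true true true .npn 1 2 3 (qsf 536870912 536870912 1239849684 370763052 3) ndF2q1 ndF2q2b pcF3 Cut.none Ext.none)

def k0_pp_123_b : ∃ t, chk3 f_pp_123_b t 1 1 1 = true :=
  ⟨(l 4), by decide +kernel⟩

theorem c_pp_123_b : CertF 536870912 536870912 1239849684 370763052 134217728 67108864 true true true .npn 1 2 3
    ndF2q1 ndF2q2b pcF3 Cut.none Ext.none :=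
  certF0 (fam := true) (s1 := true) (s2 := true) (a := 1) (b := 2) (c := 3) (cn := .npn) (n1 := ndF2q1) (n2 := ndF2q2b) (pc := pcF3) (cut := Cut.none) (xt := Ext.none) (P1 := 536870912) (W1 := 536870912) (P2 := 1239849684) (W2 := 370763052) (P3 := 134217728) (W3 := 67108864)
    rfl k0_pp_123_b

noncomputable def f_pp_133 : ℕ → ℕ → ℕ → ℕ → Bool := onCell 536870912 536870912 1610612736 536870912 134217728 67108864
    (rowF 0 true true true .dn 1 3 3 (qsf 536870912 536870912 1610612736 536870912 3) ndF2q1 ndF2q3 pcF3 Cut.none Ext.none)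

def k0_pp_133 : ∃ t, chk3 f_pp_133 t 1 1 1 = true :=
  ⟨(l 4), by decide +kernel⟩

theorem c_pp_133 : CertF 536870912 536870912 1610612736 536870912 134217728 67108864 true true true .dn 1 3 3
    ndF2q1 ndF2q3 pcF3 Cut.none Ext.none :=
  certF0 (fam := true) (s1 := true) (s2 := true) (a := 1) (b := 3) (c := 3) (cn := .dn) (n1 := ndF2q1) (n2 := ndF2q3) (pc := pcF3) (cut := Cut.none) (xt := Ext.none) (P1 := 536870912) (W1 := 536870912) (P2 := 1610612736) (W2 := 536870912) (P3 := 134217728) (W3 := 67108864)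
    rfl k0_pp_133

noncomputable def f_pp_202_a : ℕ → ℕ → ℕ → ℕ → Bool := onCell 0 536870912 0 536870912 134217728 67108864
    (rowF 0 true true true .pp 2 0 2 (qsf 0 536870912 0 536870912 2) ndF2q2a ndF2q0 pcF2 Cut.none Ext.none)

def k0_pp_202_a : ∃ t, chk3 f_pp_202_a t 1 1 1 = true :=
  ⟨(l 5), by decide +kernel⟩

theorem c_pp_202_a : CertF 0 536870912 0 536870912 134217728 67108864 true true true .pp 2 0 2
    ndF2q2a ndF2q0 pcF2 Cut.none Ext.none :=
  certF0 (fam := true) (s1 := true) (s2 := true) (a := 2) (b := 0) (c := 2) (cn := .pp) (n1 := ndF2q2a) (n2 := ndF2q0) (pc := pcF2) (cut := Cut.none) (xt := Ext.none) (P1 := 0) (W1 := 536870912) (P2 := 0) (W2 := 536870912) (P3 := 134217728) (W3 := 67108864)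
    rfl k0_pp_202_a

noncomputable def f_pp_202_b : ℕ → ℕ → ℕ → ℕ → Bool := onCell 1239849684 370763052 0 536870912 134217728 67108864
    (rowF 0 true true true .pp 2 0 2 (qsf 1239849684 370763052 0 536870912 2) ndF2q2b ndF2q0 pcF2 Cut.none Ext.none)

def k0_pp_202_b : ∃ t, chk3 f_pp_202_b t 1 1 1 = true :=
  ⟨(l 5), by decide +kernel⟩

theorem c_pp_202_b : CertF 1239849684 370763052 0 536870912 134217728 67108864 true true true .pp 2 0 2
    ndF2q2b ndF2q0 pcF2 Cut.none Ext.none :=
  certF0 (fam := true) (s1 := true) (s2 := true) (a := 2) (b := 0) (c := 2) (cn := .pp) (n1 := ndF2q2b) (n2 := ndF2q0) (pc := pcF2) (cut := Cut.none) (xt := Ext.none) (P1 := 1239849684) (W1 := 370763052) (P2 := 0) (W2 := 536870912) (P3 := 134217728) (W3 := 67108864)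
    rfl k0_pp_202_b

noncomputable def f_pp_203_a : ℕ → ℕ → ℕ → ℕ → Bool := onCell 0 536870912 0 536870912 134217728 67108864
    (rowF 0 true true true .up 2 0 3 (qsf 0 536870912 0 536870912 3) ndF2q2a ndF2q0 pcF3 Cut.none Ext.none)

def k0_pp_203_a : ∃ t, chk3 f_pp_203_a t 1 1 1 = true :=
  ⟨(l 5), by decide +kernel⟩

theorem c_pp_203_a : CertF 0 536870912 0 536870912 134217728 67108864 true true true .up 2 0 3
    ndF2q2a ndF2q0 pcF3 Cut.none Ext.none :=
  certF0 (fam := true) (s1 := true) (s2 := true) (a := 2) (b := 0) (c := 3) (cn := .up) (n1 := ndF2q2a) (n2 := ndF2q0) (pc := pcF3) (cut := Cut.none) (xt := Ext.none) (P1 := 0) (W1 := 536870912) (P2 := 0) (W2 := 536870912) (P3 := 134217728) (W3 := 67108864)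
    rfl k0_pp_203_a

noncomputable def f_pp_203_b : ℕ → ℕ → ℕ → ℕ → Bool := onCell 1239849684 370763052 0 536870912 134217728 67108864
    (rowF 0 true true true .up 2 0 3 (qsf 1239849684 370763052 0 536870912 3) ndF2q2b ndF2q0 pcF3 Cut.none Ext.none)

def k0_pp_203_b : ∃ t, chk3 f_pp_203_b t 1 1 1 = true :=
  ⟨(l 5), by decide +kernel⟩

theorem c_pp_203_b : CertF 1239849684 370763052 0 536870912 134217728 67108864 true true true .up 2 0 3
    ndF2q2b ndF2q0 pcF3 Cut.none Ext.none :=
  certF0 (fam := true) (s1 := true) (s2 := true) (a := 2) (b := 0) (c := 3) (cn := .up) (n1 := ndF2q2b) (n2 := ndF2q0) (pc := pcF3) (cut := Cut.none) (xt := Ext.none) (P1 := 1239849684) (W1 := 370763052) (P2 := 0) (W2 := 536870912) (P3 := 134217728) (W3 := 67108864)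
    rfl k0_pp_203_b

noncomputable def f_pp_213_a : ℕ → ℕ → ℕ → ℕ → Bool := onCell 0 536870912 536870912 536870912 134217728 67108864
    (rowF 0 true true true .pnn 2 1 3 (qsf 0 536870912 536870912 536870912 3) ndF2q2a ndF2q1 pcF3 Cut.none Ext.none)

def k0_pp_213_a : ∃ t, chk3 f_pp_213_a t 1 1 1 = true :=
  ⟨(l 4), by decide +kernel⟩

theorem c_pp_213_a : CertF 0 536870912 536870912 536870912 134217728 67108864 true true true .pnn 2 1 3
    ndF2q2a ndF2q1 pcF3 Cut.none Ext.none :=
  certF0 (fam := true) (s1 := true) (s2 := true) (a := 2) (b := 1) (c := 3) (cn := .pnn) (n1 := ndF2q2a) (n2 := ndF2q1) (pc := pcF3) (cut := Cut.none) (xt := Ext.none) (P1 := 0) (W1 := 536870912) (P2 := 536870912) (W2 := 536870912) (P3 := 134217728) (W3 := 67108864)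
    rfl k0_pp_213_a

noncomputable def f_pp_213_b : ℕ → ℕ → ℕ → ℕ → Bool := onCell 1239849684 370763052 536870912 536870912 134217728 67108864
    (rowF 0 true true true .pnn 2 1 3 (qsf 1239849684 370763052 536870912 536870912 3) ndF2q2b ndF2q1 pcF3 Cut.none Ext.none)

def k0_pp_213_b : ∃ t, chk3 f_pp_213_b t 1 1 1 = true :=
  ⟨(l 4), by decide +kernel⟩

theorem c_pp_213_b : CertF 1239849684 370763052 536870912 536870912 134217728 67108864 true true true .pnn 2 1 3
    ndF2q2b ndF2q1 pcF3 Cut.none Ext.none :=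
  certF0 (fam := true) (s1 := true) (s2 := true) (a := 2) (b := 1) (c := 3) (cn := .pnn) (n1 := ndF2q2b) (n2 := ndF2q1) (pc := pcF3) (cut := Cut.none) (xt := Ext.none) (P1 := 1239849684) (W1 := 370763052) (P2 := 536870912) (W2 := 536870912) (P3 := 134217728) (W3 := 67108864)
    rfl k0_pp_213_b

noncomputable def f_pp_303 : ℕ → ℕ → ℕ → ℕ → Bool := onCell 1610612736 536870912 0 536870912 134217728 67108864
    (rowF 0 true true true .npn 3 0 3 (qsf 1610612736 536870912 0 536870912 3) ndF2q3 ndF2q0 pcF3 Cut.none Ext.none)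

def k0_pp_303 : ∃ t, chk3 f_pp_303 t 1 1 1 = true :=
  ⟨(l 4), by decide +kernel⟩

theorem c_pp_303 : CertF 1610612736 536870912 0 536870912 134217728 67108864 true true true .npn 3 0 3
    ndF2q3 ndF2q0 pcF3 Cut.none Ext.none :=
  certF0 (fam := true) (s1 := true) (s2 := true) (a := 3) (b := 0) (c := 3) (cn := .npn) (n1 := ndF2q3) (n2 := ndF2q0) (pc := pcF3) (cut := Cut.none) (xt := Ext.none) (P1 := 1610612736) (W1 := 536870912) (P2 := 0) (W2 := 536870912) (P3 := 134217728) (W3 := 67108864)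
    rfl k0_pp_303

noncomputable def f_pp_313 : ℕ → ℕ → ℕ → ℕ → Bool := onCell 1610612736 536870912 536870912 536870912 134217728 67108864
    (rowF 0 true true true .dn 3 1 3 (qsf 1610612736 536870912 536870912 536870912 3) ndF2q3 ndF2q1 pcF3 Cut.none Ext.none)

def k0_pp_313 : ∃ t, chk3 f_pp_313 t 1 1 1 = true :=
  ⟨(l 4), by decide +kernel⟩

theorem c_pp_313 : CertF 1610612736 536870912 536870912 536870912 134217728 67108864 true true true .dn 3 1 3
    ndF2q3 ndF2q1 pcF3 Cut.none Ext.none :=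
  certF0 (fam := true) (s1 := true) (s2 := true) (a := 3) (b := 1) (c := 3) (cn := .dn) (n1 := ndF2q3) (n2 := ndF2q1) (pc := pcF3) (cut := Cut.none) (xt := Ext.none) (P1 := 1610612736) (W1 := 536870912) (P2 := 536870912) (W2 := 536870912) (P3 := 134217728) (W3 := 67108864)
    rfl k0_pp_313

noncomputable def f_pm_001 : ℕ → ℕ → ℕ → ℕ → Bool := onCell 0 536870912 0 536870912 134217728 67108864
    (rowF 0 true true false .up 0 0 1 (qsf 0 536870912 0 536870912 1) ndF2q0 ndF2q0 pcF1 Cut.none Ext.none)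

def k0_pm_001 : ∃ t, chk3 f_pm_001 t 1 1 1 = true :=
  ⟨(a (l 3) (l 3)), by decide +kernel⟩

theorem c_pm_001 : CertF 0 536870912 0 536870912 134217728 67108864 true true false .up 0 0 1
    ndF2q0 ndF2q0 pcF1 Cut.none Ext.none :=
  certF0 (fam := true) (s1 := true) (s2 := false) (a := 0) (b := 0) (c := 1) (cn := .up) (n1 := ndF2q0) (n2 := ndF2q0) (pc := pcF1) (cut := Cut.none) (xt := Ext.none) (P1 := 0) (W1 := 536870912) (P2 := 0) (W2 := 536870912) (P3 := 134217728) (W3 := 67108864)
    rfl k0_pm_001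

noncomputable def f_pm_011 : ℕ → ℕ → ℕ → ℕ → Bool := onCell 0 536870912 536870912 536870912 134217728 67108864
    (rowF 1 true true false .pnn 0 1 1 (qsf 0 536870912 536870912 536870912 1) ndF2q0 ndF2q1 pcF1 Cut.none Ext.none)

def k0_pm_011 : ∃ t, chk3 f_pm_011 t 1 1 1 = true :=
  ⟨(b (l 3) (b (l 3) (l 3))), by decide +kernel⟩

theorem c_pm_011 : CertF 0 536870912 536870912 536870912 134217728 67108864 true true false .pnn 0 1 1
    ndF2q0 ndF2q1 pcF1 Cut.none Ext.none :=
  certF1 (fam := true) (s1 := true) (s2 := false) (a := 0) (b := 1) (c := 1) (cn := .pnn) (n1 := ndF2q0) (n2 := ndF2q1) (pc := pcF1) (cut := Cut.none) (xt := Ext.none) (P1 := 0) (W1 := 536870912) (P2 := 536870912) (W2 := 536870912) (P3 := 134217728) (W3 := 67108864)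
    rfl (fun _ => rfl) k0_pm_011

noncomputable def f_pm_012 : ℕ → ℕ → ℕ → ℕ → Bool := onCell 1073741824 536870912 536870912 536870912 134217728 67108864
    (rowF 2 true true false .pnp 0 1 2 (qsf 0 536870912 536870912 536870912 2) ndF2q0 ndF2q1 pcF2 Cut.none Ext.none)

def k0_pm_012 : ∃ t, chk3 f_pm_012 t 1 1 1 = true :=
  ⟨(a (b (a (l 3) (a (a (a (l 3) (a (l 17201496) (l 17299608))) (l 17250744)) (l 17324016))) (a (a (l 3) (b (l 3) (a (l 3) (b (l 3) (b (l 16548456) (l 285782663863)))))) (a (b (a (a (l 17577120) (c (l 17736648) (l 17533016))) (l 17723960)) (b (a (a (l 17434672) (a (l 17543472) (l 17863608))) (l 17770608)) (a (a (l 16592912) (a (l 16873872) (b (l 17354152) (l 16815720)))) (l 17395024)))) (b (l 17873608) (b (l 18073672) (l 18005624)))))) (b (b (l 2) (l 17675480)) (b (l 18148704) (b (l 18560728) (l 18871680))))), by decide +kernel⟩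

theorem c_pm_012 : CertF 0 536870912 536870912 536870912 134217728 67108864 true true false .pnp 0 1 2
    ndF2q0 ndF2q1 pcF2 Cut.none Ext.none :=
  certF2 (fam := true) (s1 := true) (s2 := false) (a := 0) (b := 1) (c := 2) (cn := .pnp) (n1 := ndF2q0) (n2 := ndF2q1) (pc := pcF2) (cut := Cut.none) (xt := Ext.none) (P1 := 0) (W1 := 536870912) (P2 := 536870912) (W2 := 536870912) (P3 := 134217728) (W3 := 67108864)
    rfl (fun _ => rfl) k0_pm_012

noncomputable def cut_pm_022_a : Cut := Cut.of [[⟨0, 0, 0, 67108864⟩, ⟨1, 1, 0, 67108864⟩, ⟨2, 1, 0, 67108864⟩]]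

noncomputable def f_pm_022_a : ℕ → ℕ → ℕ → ℕ → Bool := onCell 0 536870912 0 536870912 134217728 67108864
    (rowF 0 true true false .pp 0 2 2 (qsf 0 536870912 0 536870912 2) ndF2q0 ndF2q2a pcF2 cut_pm_022_a Ext.none)

def k0_pm_022_a : ∃ t, chk3 f_pm_022_a t 256 16 1 = true :=
  ⟨(c (c (a (c (l 17204040) (b (l 17026336) (a (a (b (a (l 17014240) (l 17016552)) (l 17010896)) (b (l 17020080) (l 17015512))) (l 17024800)))) (l 17141744)) (a (b (a (a (a (a (b (c (l 16815344) (l 16591152)) (b (c (c (l 16865080) (l 16763520)) (l 16548112)) (l 16606632))) (b (l 16694088) (c (b (l 16815568) (l 16772408)) (l 16548832)))) (b (l 16717088) (l 16552848))) (l 16720160)) (l 16728224)) (a (b (c (a (a (l 16811080) (c (l 16843408) (b (l 16763880) (a (l 16761240) (l 16741488))))) (l 16817472)) (a (a (l 16607616) (a (b (l 16547848) (l 16608688)) (l 16558632))) (l 16551648))) (c (a (l 16807552) (a (a (l 16810672) (b (l 16813368) (l 16810656))) (b (l 16815288) (b (l 16813224) (l 16811736)))))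 (a (l 16603904) (a (a (l 16607296) (l 16561496)) (l 16558352))))) (l 16553744))) (l 16740432))) (a (c (b (a (a (b (l 16554152) (c (c (l 16559280) (l 16557624)) (c (l 16555984) (l 16554352)))) (l 16546024)) (l 16545704)) (a (a (a (b (l 16551728) (l 16546800)) (b (c (c (l 16559288) (l 16557640)) (c (l 16556008) (l 16554392))) (l 16546600))) (a (b (l 16556688) (b (c (l 16558432) (l 16555184)) (l 16546520))) (c (l 16558320) (l 16555048)))) (l 16545896))) (b (a (a (b (l 16539816) (c (c (l 16552744) (l 16551144)) (c (l 16549560) (l 16547992)))) (l 16539568)) (l 16539192)) (a (a (a (b (l 16540056) (l 16540360)) (b (c (c (l 16552784) (l 16551200)) (c (l 16549624) (l 16548064))) (l 16540176))) (a (b (l 16539792) (b (c (l 16552000) (l 16548864)) (l 16540112))) (c (l 16551840) (l 16548688)))) (l 16539456)))) (c (l 16545152) (l 16538584)))), by decide +kernel⟩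

def k1_pm_022_a : ∃ t, chk3 f_pm_022_a t 256 17 1 = true :=
  ⟨(c (c (b (a (a (c (l 17206616) (l 17003136)) (c (l 17215240) (b (l 17016520) (a (l 17006680) (l 17011240))))) (l 17127520)) (a (c (l 17193832) (l 16989592)) (c (l 17211088) (a (b (a (l 17006920) (l 17011592)) (l 16998784)) (l 17013336))))) (b (a (a (b (c (l 16803608) (l 16557824)) (l 16567680)) (a (a (b (b (b (l 16559096) (l 16709440)) (l 16706656)) (l 16700240)) (b (b (l 16545160) (b (l 16552888) (l 16708312))) (l 16702880))) (b (l 16547312) (a (l 16705432) (b (l 16563584) (l 16705952)))))) (l 16556536)) (a (a (l 16559424) (l 16551872)) (a (a (l 16549320) (b (l 16560712) (l 16696056))) (b (l 16673648) (l 16567608)))))) (a (b (c (a (b (c (l 16548384) (l 16545136)) (l 16547248)) (a (b (c (c (l 16559248) (l 16557608)) (c (l 16561232) (l 16559632))) (l 16546776)) (b (l 16546072) (b (l 16562016) (l 16546584))))) (a (b (l 16550848) (l 16540848)) (a (a (b (b (l 16550424) (l 16540176)) (l 16540504)) (b (b (l 16539816)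 (l 16550456)) (l 16540336))) (b (l 16539704) (b (l 16550440) (l 16540224)))))) (c (b (l 16552560) (l 16547944)) (b (l 16540968) (l 16541608)))) (c (b (l 16556184) (a (a (l 16546712) (b (l 16567256) (l 16546960))) (b (l 16545944) (l 16567344)))) (b (l 16560224) (a (a (l 16540408) (b (l 16560936) (l 16540616))) (b (l 16539600) (l 16561040))))))), by decide +kernel⟩

def k2_pm_022_a : ∃ t, chk3 f_pm_022_a t 257 8 1 = true :=
  ⟨(c (b (c (l 17168096) (l 16771824)) (c (l 17145224) (l 16557176))) (b (l 16540472) (c (l 16544816) (l 16538232)))), by decide +kernel⟩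

def k3_pm_022_a : ∃ t, chk3 f_pm_022_a t 129 8 1 = true :=
  ⟨(c (b (l 17025584) (l 17002120)) (l 16538512)), by decide +kernel⟩

def k4_pm_022_a : ∃ t, chk3 f_pm_022_a t 65 8 1 = true :=
  ⟨(c (l 17116120) (l 16533904)), by decide +kernel⟩

def k5_pm_022_a : ∃ t, chk3 f_pm_022_a t 32 9 1 = true :=
  ⟨(a (a (b (c (a (c (b (a (l 17005000) (l 17086272)) (a (l 16953424) (l 17056384))) (b (a (c (l 16758808) (l 16553736)) (l 16614592)) (a (l 16558024) (l 16643616)))) (c (b (a (a (b (l 17106576) (l 17093600)) (l 17108976)) (l 17122528)) (a (l 17074968) (b (l 17101312) (l 17085304)))) (b (a (a (b (l 16575536) (l 16686616)) (l 16578768)) (l 16720744)) (a (l 16665744) (l 16582464))))) (a (a (c (b (l 16548880) (l 16550456)) (b (l 16542616) (l 16544304))) (b (c (l 16547576) (l 16541296)) (l 16556696))) (a (b (a (b (c (l 16567384) (l 16561112)) (l 16544136)) (c (l 16567224) (l 16560920))) (l 16544976)) (b (l 16563368) (b (c (l 16567456) (l 16561200)) (l 16544344)))))) (c (a (a (c (b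 (l 16852808) (c (l 17060944) (l 16847544))) (b (l 16557256) (l 16560496))) (c (l 16870928) (l 16555088))) (c (l 16921008) (l 16568672))) (a (c (b (l 16562216) (l 16553936)) (b (l 16545688) (l 16548080))) (b (l 16546328) (l 16548736))))) (b (c (c (l 17152192) (l 16589112)) (b (l 16540096) (l 16583408))) (a (c (b (c (a (l 17075872) (l 17094152)) (l 16595816)) (l 16838008)) (b (a (l 16544448) (l 16585360)) (l 16546336))) (c (c (l 17079576) (l 16615552)) (b (l 16542112) (l 16606752)))))) (a (c (b (l 17027944) (l 16958224)) (l 16602280)) (l 16582936))), by decide +kernel⟩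

def k6_pm_022_a : ∃ t, chk3 f_pm_022_a t 33 4 1 = true :=
  ⟨(b (c (l 17293320) (l 16617296)) (a (l 16718528) (l 16937984))), by decide +kernel⟩

def k7_pm_022_a : ∃ t, chk3 f_pm_022_a t 17 4 1 = true :=
  ⟨(a (b (l 17178984) (l 17111632)) (l 17322080)), by decide +kernel⟩

def k8_pm_022_a : ∃ t, chk3 f_pm_022_a t 16 10 1 = true :=
  ⟨(a (a (c (a (a (a (b (c (b (c (l 17009080) (l 16792144)) (c (l 16948360) (l 16727312))) (b (l 16562784) (l 16565392))) (c (b (c (l 16877792) (l 16651984)) (c (l 16796144) (l 16575488))) (b (l 16573608) (l 16576960)))) (b (c (b (l 16922096) (l 16860392)) (l 16563144)) (c (l 16579640) (l 16569192)))) (b (c (l 16923200) (l 16561632)) (c (l 16783280) (l 16567744)))) (b (b (l 16722392) (l 16745760)) (l 16592584))) (a (b (a (c (b (l 16556464) (l 16559352)) (b (l 16550832) (l 16553968))) (l 16573808)) (a (c (b (l 16573104) (l 16576776)) (b (l 16557512) (l 16561488))) (l 16580736))) (b (l 16590616) (l 16556256)))) (b (a (c (c (b (l 17087712) (a (l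 17015416) (l 17052408))) (l 16636400)) (a (b (l 16586072) (l 16547536)) (l 16606448))) (c (l 16937784) (l 16562128))) (a (c (l 16726880) (l 16551200)) (b (c (l 16848112) (l 16607512)) (l 16554816))))) (a (b (l 16674048) (c (l 16931264) (l 16625320))) (l 16766776))), by decide +kernel⟩

def k9_pm_022_a : ∃ t, chk3 f_pm_022_a t 16 11 1 = true :=
  ⟨(a (a (a (c (a (a (b (c (b (c (l 16680952) (l 16578976)) (c (l 16593272) (l 16582896))) (b (c (l 16576632) (l 16574320)) (c (l 16580744) (l 16578624)))) (c (b (c (l 16589248) (l 16587272)) (c (l 16593912) (l 16592152))) (b (c (l 16585328) (l 16583400)) (c (l 16590416) (l 16588696))))) (b (c (l 16591968) (l 16587336)) (c (b (l 16587296) (l 16592024)) (l 16607392)))) (b (c (l 16596816) (l 16575384)) (c (l 16588944) (l 16584920)))) (b (a (a (c (b (l 16570920) (l 16580736)) (b (l 16566496) (l 16571416))) (c (l 16593320) (l 16588952))) (l 16589384)) (a (a (c (b (b (l 16579104) (l 16581744)) (b (l 16584520) (l 16587424))) (b (l 16582088)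 (b (l 16581096) (l 16584200)))) (b (l 16577432) (l 16588424))) (b (l 16575640) (l 16581360))))) (c (b (l 16575056) (l 16605136)) (b (l 16564968) (l 16596584)))) (b (c (l 16601440) (l 16578544)) (c (l 16599648) (l 16589648)))) (b (b (a (a (l 16554144) (l 16613224)) (l 16603560)) (a (a (l 16559024) (l 16553832)) (l 16612176))) (a (l 16605760) (c (l 16764720) (l 16757200))))), by decide +kernel⟩

def k10_pm_022_a : ∃ t, chk3 f_pm_022_a t 17 5 1 = true :=
  ⟨(a (b (l 16965888) (b (l 16792848) (l 16717272))) (a (l 17022048) (l 17124632))), by decide +kernel⟩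

def k11_pm_022_a : ∃ t, chk3 f_pm_022_a t 9 2 1 = true :=
  ⟨(b (a (l 17519448) (l 17691048)) (a (b (l 17410624) (l 17256144)) (l 17556872))), by decide +kernel⟩

def k12_pm_022_a : ∃ t, chk3 f_pm_022_a t 5 2 1 = true :=
  ⟨(l 17859496), by decide +kernel⟩

def k13_pm_022_a : ∃ t, chk3 f_pm_022_a t 16 12 1 = true :=
  ⟨(a (a (b (a (a (c (a (b (c (c (l 16604360) (l 16608064)) (c (l 16606536) (l 16605024))) (c (c (b (l 16603088) (l 16606096)) (b (l 16601720) (l 16604840))) (c (b (l 16600360) (l 16603592)) (b (l 16599016) (l 16602352))))) (c (b (l 16597296) (l 16603144)) (b (l 16594128) (l 16600416)))) (a (b (c (c (l 16603528) (l 16602040)) (b (l 16587440) (l 16590832))) (c (b (l 16602248) (a (l 16606032) (l 16600136))) (b (l 16594368) (l 16598056)))) (c (b (l 16591024) (l 16597736)) (b (l 16587984) (l 16595088))))) (c (c (l 16620864) (l 16617696)) (b (l 16587648) (l 16594528)))) (c (l 16626960) (l 16609584))) (c (b (a (a (a (c (c (b (l 16609264) (l 16612592)) (b (l 16608120)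 (l 16611552))) (c (b (l 16606976) (l 16610528)) (b (l 16605840) (l 16609496)))) (c (l 16609632) (l 16607344))) (l 16617368)) (l 16603816)) (a (a (a (c (c (b (l 16616088) (l 16622376)) (b (l 16615160) (l 16621232))) (b (c (l 16614240) (l 16613312)) (c (a (l 16618384) (l 16617744)) (l 16619264)))) (c (l 16616800) (l 16614944))) (c (l 16615248) (l 16613240))) (l 16611120))) (a (a (b (a (a (c (b (c (l 16604992) (l 16603880)) (c (l 16608752) (l 16607736))) (b (l 16602216) (l 16608832))) (c (l 16606000) (l 16603816))) (c (l 16605072) (l 16602824))) (a (c (b (c (l 16612384) (l 16611456)) (c (l 16619096) (l 16618264))) (b (b (l 16608880) (l 16611000)) (c (l 16617432) (l 16619216)))) (c (l 16613088) (l 16611232)))) (b (l 16602056) (l 16631224))) (a (l 16647008) (l 16623240))))) (b (a (b (l 16582928) (l 16589176)) (l 16603400)) (c (l 16667320) (l 16660776)))) (b (c (l 16703424) (l 16692384)) (c (l 16719864) (l 16710416)))), by decide +kernel⟩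

def k14_pm_022_a : ∃ t, chk3 f_pm_022_a t 32 26 1 = true :=
  ⟨(a (a (c (a (c (a (b (b (c (l 16628856) (l 16625528)) (a (c (l 16627896) (l 16627304)) (l 16626968))) (a (b (c (a (l 16634880) (l 16631936)) (a (l 16631776) (l 16631440))) (c (b (l 16635216) (l 16637632)) (b (l 16634800) (l 16637264)))) (b (l 16631240) (l 16635616)))) (b (l 16624728) (b (l 16630352) (l 16634640)))) (a (b (b (c (l 16622192) (l 16621472)) (a (c (l 16626704) (l 16626096)) (l 16625728))) (a (b (c (l 16632456) (l 16631944)) (c (b (l 16634376) (l 16636872)) (b (l 16633936) (l 16636472)))) (b (l 16630200) (l 16634776)))) (b (l 16623288) (b (l 16629256) (l 16633744))))) (b (c (l 16623136) (l 16621568)) (c (l 16631888) (l 16630728)))) (a (c (a (b (b (c (l 16620744) (l 16620016)) (a (c (l 16625480) (l 16624848)) (l 16624456))) (a (b (c (l 16630104) (l 16629568)) (c (b (l 16633488) (l 16636048)) (b (l 16633024) (l 16635624)))) (b (l 16629120) (l 16633872)))) (b (l 16621832) (b (l 16628120) (l 16632800))))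 (a (b (b (b (l 16617600) (l 16619888)) (b (l 16622216) (l 16624592))) (a (b (c (l 16629024) (l 16628464)) (b (l 16632296) (c (l 16635176) (l 16634712)))) (b (l 16627992) (l 16632920)))) (b (l 16620352) (b (l 16626944) (l 16631808))))) (b (l 16640152) (l 16649904)))) (c (b (l 16619200) (l 16649144)) (b (l 16615480) (l 16646256)))) (c (a (l 16664096) (l 16637912)) (a (l 16659840) (l 16653928)))), by decide +kernel⟩

def k15_pm_022_a : ∃ t, chk3 f_pm_022_a t 32 27 1 = true :=
  ⟨(a (b (a (a (c (a (a (c (a (c (b (c (l 16642168) (l 16642000)) (c (l 16647952) (l 16647800))) (b (l 16641736) (l 16647560))) (c (l 16644608) (l 16644272))) (c (b (l 16641168) (l 16647040)) (b (l 16640792) (l 16646696)))) (c (c (l 16644008) (l 16643672)) (l 16643136))) (c (b (l 16639904) (l 16645552)) (b (l 16639128) (l 16644856)))) (b (a (c (c (l 16639984) (l 16639576)) (c (l 16639152) (l 16638712))) (c (l 16638304) (l 16637432))) (c (c (l 16645120) (l 16644736)) (b (l 16642608) (l 16645648))))) (c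 (c (l 16662344) (l 16661520)) (c (l 16660640) (l 16659720)))) (c (l 16668440) (l 16666376))) (a (a (c (a (a (c (a (c (b (c (l 16653784) (l 16653648)) (c (l 16659664) (l 16659544))) (b (c (l 16653512) (l 16653368)) (c (l 16659432) (l 16659304)))) (c (l 16655992) (l 16656056))) (c (b (l 16652960) (l 16658928)) (b (l 16652648) (l 16658656)))) (c (c (l 16655776) (l 16655504)) (l 16655072))) (c (l 16654528) (l 16653928))) (c (b (c (l 16651152) (l 16650800)) (c (l 16657248) (l 16656928))) (a (c (l 16652512) (l 16653960)) (l 16652568)))) (c (l 16651936) (l 16650544))) (c (l 16647144) (l 16645600)))) (b (c (l 16672672) (l 16669616)) (c (l 16704704) (l 16702392)))), by decide +kernel⟩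

def k16_pm_022_a : ∃ t, chk3 f_pm_022_a t 33 13 1 = true :=
  ⟨(a (b (b (l 16621424) (l 16630424)) (b (l 16661488) (l 16672896))) (b (l 16639856) (l 16724808))), by decide +kernel⟩

def k17_pm_022_a : ∃ t, chk3 f_pm_022_a t 17 6 1 = true :=
  ⟨(b (a (b (a (b (l 16699952) (l 16559624)) (l 16655624)) (a (l 16570736) (b (l 16701832) (l 16564344)))) (b (l 16744744) (c (l 16887744) (l 16733504)))) (a (b (l 16753160) (a (l 16649976) (l 16617680))) (b (a (l 16586400) (l 16807576)) (l 16729752)))), by decide +kernel⟩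

def k18_pm_022_a : ∃ t, chk3 f_pm_022_a t 9 6 1 = true :=
  ⟨(a (b (l 17012352) (a (b (l 16717528) (a (b (l 16555808) (l 16568448)) (l 16765168))) (l 16909976))) (b (l 17328488) (l 17064624))), by decide +kernel⟩

def k19_pm_022_a : ∃ t, chk3 f_pm_022_a t 8 7 1 = true :=
  ⟨(b (a (a (b (a (a (c (a (a (a (b (c (c (b (c (l 16665424) (l 16665328)) (b (l 16669864) (l 16672872))) (b (a (l 16665344) (l 16665000)) (l 16671208))) (c (b (l 16664952) (l 16671032)) (b (l 16664720) (l 16670832)))) (b (b (c (c (l 16675896) (l 16675760)) (l 16675536)) (l 6)) (l 6))) (b (c (c (l 16667736) (l 16667544)) (l 16667224)) (c (b (l 16676744) (l 6)) (l 16679056)))) (c (b (l 16666624) (l 16679048)) (b (l 16666176) (l 16678752)))) (c (b (l 16664544) (l 16677152)) (l 16691488))) (a (a (b (c (c (b (l 16664112) (l 16670280)) (l 16665328)) (c (l 16666696) (l 16666408))) (b (b (c (l 16674840) (l 16674400)) (l 6)) (l 6))) (b (c (l 16665672) (l 16665104)) (c (l 16678392) (l 16677968)))) (b (l 16663200)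 (l 16676160)))) (c (b (l 16659904) (l 16672960)) (l 16686352))) (b (a (l 16652928) (l 16690656)) (l 16663552))) (b (a (a (l 6) (c (l 16686696) (l 16685864))) (l 16699040)) (a (l 6) (l 16714000)))) (b (a (b (l 16724776) (l 16761160)) (c (l 16810896) (l 16828176))) (a (l 16694776) (b (l 16743064) (l 16668744))))) (b (a (a (l 16782912) (l 16706320)) (l 16821832)) (a (b (l 16876536) (a (l 16768016) (l 16709624))) (a (l 16842712) (l 16754704))))) (a (b (a (l 6) (a (l 6) (l 16695288))) (l 6)) (b (a (l 16675376) (b (c (l 16887832) (l 16882960)) (a (l 16679112) (l 16752152)))) (a (l 16742640) (l 16707328))))), by decide +kernel⟩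

def k20_pm_022_a : ∃ t, chk3 f_pm_022_a t 9 7 1 = true :=
  ⟨(b (a (b (a (l 16792120) (a (b (l 16702600) (l 16568128)) (l 16807480))) (a (a (l 16719680) (l 16685704)) (b (l 16619976) (l 16641360)))) (b (l 16957632) (a (b (a (l 16739464) (l 16582392)) (a (l 16593888) (l 16779360))) (l 16785520)))) (a (b (a (b (l 16759752) (l 16886408)) (a (l 16798872) (l 16754920))) (a (b (a (l 16810880) (l 16749432)) (a (l 16716240) (l 16869632))) (b (l 16848616) (b (l 16800688) (l 16852376))))) (b (a (b (l 16656440) (l 16678896)) (b (a (l 16820928) (l 16639784)) (l 16805248))) (a (b (l 16722112) (l 16825752)) (b (l 16674896) (l 16719256)))))), by decide +kernel⟩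

def k21_pm_022_a : ∃ t, chk3 f_pm_022_a t 5 3 1 = true :=
  ⟨(b (a (a (b (l 17529744) (l 17333304)) (l 17588160)) (l 17729216)) (a (b (a (b (l 17131112) (l 16962104)) (l 17288600)) (a (b (a (l 16924048) (l 16858880)) (a (b (a (l 16651504) (l 16747696)) (l 16737688)) (b (l 16714936) (a (l 16835736) (l 16667488))))) (b (l 17068512) (l 16897120)))) (b (a (l 17456304) (l 17569848)) (c (l 17440792) (l 17234336))))), by decide +kernel⟩

def k22_pm_022_a : ∃ t, chk3 f_pm_022_a t 3 1 1 = true :=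
  ⟨(b (a (l 17919760) (l 17976304)) (a (b (l 17827648) (l 17650304)) (b (l 17806552) (l 17718488)))), by decide +kernel⟩

theorem s23_pm_022_a : ∃ t, chk3 f_pm_022_a t 4 7 1 = true := ex3_a k19_pm_022_a k20_pm_022_a

theorem s24_pm_022_a : ∃ t, chk3 f_pm_022_a t 32 13 1 = true := ex3_b k14_pm_022_a k15_pm_022_a

theorem s25_pm_022_a : ∃ t, chk3 f_pm_022_a t 16 13 1 = true := ex3_a s24_pm_022_a k16_pm_022_a

theorem s26_pm_022_a : ∃ t, chk3 f_pm_022_a t 16 6 1 = true := ex3_b k13_pm_022_a s25_pm_022_a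

theorem s27_pm_022_a : ∃ t, chk3 f_pm_022_a t 8 6 1 = true := ex3_a s26_pm_022_a k17_pm_022_a

theorem s28_pm_022_a : ∃ t, chk3 f_pm_022_a t 4 6 1 = true := ex3_a s27_pm_022_a k18_pm_022_a

theorem s29_pm_022_a : ∃ t, chk3 f_pm_022_a t 4 3 1 = true := ex3_b s28_pm_022_a s23_pm_022_a

theorem s30_pm_022_a : ∃ t, chk3 f_pm_022_a t 2 3 1 = true := ex3_a s29_pm_022_a k21_pm_022_a

theorem s31_pm_022_a : ∃ t, chk3 f_pm_022_a t 16 5 1 = true := ex3_b k8_pm_022_a k9_pm_022_a

theorem s32_pm_022_a : ∃ t, chk3 f_pm_022_a t 8 5 1 = true := ex3_a s31_pm_022_a k10_pm_022_a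

theorem s33_pm_022_a : ∃ t, chk3 f_pm_022_a t 256 8 1 = true := ex3_b k0_pm_022_a k1_pm_022_a

theorem s34_pm_022_a : ∃ t, chk3 f_pm_022_a t 128 8 1 = true := ex3_a s33_pm_022_a k2_pm_022_a

theorem s35_pm_022_a : ∃ t, chk3 f_pm_022_a t 64 8 1 = true := ex3_a s34_pm_022_a k3_pm_022_a

theorem s36_pm_022_a : ∃ t, chk3 f_pm_022_a t 32 8 1 = true := ex3_a s35_pm_022_a k4_pm_022_a

theorem s37_pm_022_a : ∃ t, chk3 f_pm_022_a t 32 4 1 = true := ex3_b s36_pm_022_a k5_pm_022_a

theorem s38_pm_022_a : ∃ t, chk3 f_pm_022_a t 16 4 1 = true := ex3_a s37_pm_022_a k6_pm_022_a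

theorem s39_pm_022_a : ∃ t, chk3 f_pm_022_a t 8 4 1 = true := ex3_a s38_pm_022_a k7_pm_022_a

theorem s40_pm_022_a : ∃ t, chk3 f_pm_022_a t 8 2 1 = true := ex3_b s39_pm_022_a s32_pm_022_a

theorem s41_pm_022_a : ∃ t, chk3 f_pm_022_a t 4 2 1 = true := ex3_a s40_pm_022_a k11_pm_022_a

theorem s42_pm_022_a : ∃ t, chk3 f_pm_022_a t 2 2 1 = true := ex3_a s41_pm_022_a k12_pm_022_a

theorem s43_pm_022_a : ∃ t, chk3 f_pm_022_a t 2 1 1 = true := ex3_b s42_pm_022_a s30_pm_022_a

theorem s44_pm_022_a : ∃ t, chk3 f_pm_022_a t 1 1 1 = true := ex3_a s43_pm_022_a k22_pm_022_a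

theorem c_pm_022_a : CertF 0 536870912 0 536870912 134217728 67108864 true true false .pp 0 2 2
    ndF2q0 ndF2q2a pcF2 cut_pm_022_a Ext.none :=
  certF0 (fam := true) (s1 := true) (s2 := false) (a := 0) (b := 2) (c := 2) (cn := .pp) (n1 := ndF2q0) (n2 := ndF2q2a) (pc := pcF2) (cut := cut_pm_022_a) (xt := Ext.none) (P1 := 0) (W1 := 536870912) (P2 := 0) (W2 := 536870912) (P3 := 134217728) (W3 := 67108864)
    rfl s44_pm_022_a

noncomputable def cut_pm_022_b : Cut := Cut.of [[⟨0, 0, 0, 67108864⟩, ⟨1, 1, 0, 67108864⟩, ⟨2, 1, 0, 67108864⟩]]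

noncomputable def f_pm_022_b : ℕ → ℕ → ℕ → ℕ → Bool := onCell 0 536870912 1239849684 370763052 134217728 67108864
    (rowF 0 true true false .pp 0 2 2 (qsf 0 536870912 1239849684 370763052 2) ndF2q0 ndF2q2b pcF2 cut_pm_022_b Ext.none)

def k0_pm_022_b : ∃ t, chk3 f_pm_022_b t 1 1 1 = true :=
  ⟨(a (b (a (b (a (a (b (a (a (b (c (a (c (b (b (l 17020008) (l 17309448)) (l 17447344)) (b (a (b (c (l 16895512) (l 16592752)) (l 16702976)) (l 16894360)) (b (l 16911688) (l 17136440)))) (c (l 17414520) (l 17033736))) (a (a (b (b (a (c (l 16548760) (l 16536648)) (l 16539136)) (c (l 16538144) (l 16530512))) (c (a (l 16541384) (l 16717720)) (l 16533520))) (c (l 16550392) (l 16549240))) (l 16551672))) (c (c (l 17702048) (b (l 17131768) (l 17456360))) (a (c (b (b (l 16801160) (l 16981920)) (l 17116032)) (b (l 16521208) (a (l 16675488) (l 16811896)))) (b (l 16831408) (l 17013640))))) (c (b (l 17152528) (l 17623904)) (b (l 16629592) (l 17012528)))) (b (c (l 17467056) (l 16834352)) (c (l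 17728680) (l 17164016)))) (a (c (b (a (c (l 17940456) (l 17656664)) (l 17856976)) (a (l 17992968) (l 18033232))) (b (a (a (c (l 17306736) (b (l 16974432) (l 17132328))) (b (l 17174696) (l 17317584))) (l 17311936)) (a (b (c (l 17556064) (l 17290168)) (l 17532456)) (l 17540584)))) (b (c (l 17929464) (l 17420760)) (l 17853472)))) (b (a (b (l 17338928) (l 17583128)) (b (l 17484632) (l 17687272))) (l 17887440))) (b (a (a (l 17686584) (l 17761912)) (l 17847264)) (l 18028320))) (a (a (b (a (c (l 18215872) (l 17776064)) (l 18055568)) (l 18227792)) (l 18206712)) (l 18257280))) (b (l 18055136) (a (l 18262096) (l 18220088)))) (a (a (b (a (l 18409104) (l 18426400)) (l 18524904)) (b (l 18420376) (l 18485608))) (b (a (l 18371456) (l 2)) (l 2)))) (b (a (b (a (l 18036952) (l 17989672)) (a (l 18149936) (l 2))) (l 2)) (l 2))), by decide +kernel⟩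

theorem c_pm_022_b : CertF 0 536870912 1239849684 370763052 134217728 67108864 true true false .pp 0 2 2
    ndF2q0 ndF2q2b pcF2 cut_pm_022_b Ext.none :=
  certF0 (fam := true) (s1 := true) (s2 := false) (a := 0) (b := 2) (c := 2) (cn := .pp) (n1 := ndF2q0) (n2 := ndF2q2b) (pc := pcF2) (cut := cut_pm_022_b) (xt := Ext.none) (P1 := 0) (W1 := 536870912) (P2 := 1239849684) (W2 := 370763052) (P3 := 134217728) (W3 := 67108864)
    rfl k0_pm_022_b

noncomputable def f_pm_023_a : ℕ → ℕ → ℕ → ℕ → Bool := onCell 1610612736 536870912 0 536870912 134217728 67108864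
    (rowF 2 true true false .up 0 2 3 (qsf 0 536870912 0 536870912 3) ndF2q0 ndF2q2a pcF3 Cut.none Ext.none)

def k0_pm_023_a : ∃ t, chk3 f_pm_023_a t 1 1 1 = true :=
  ⟨(a (a (b (l 18086576) (a (l 18066280) (l 17976296))) (a (l 17900864) (l 17850416))) (l 2)), by decide +kernel⟩

theorem c_pm_023_a : CertF 0 536870912 0 536870912 134217728 67108864 true true false .up 0 2 3
    ndF2q0 ndF2q2a pcF3 Cut.none Ext.none :=
  certF2 (fam := true) (s1 := true) (s2 := false) (a := 0) (b := 2) (c := 3) (cn := .up) (n1 := ndF2q0) (n2 := ndF2q2a) (pc := pcF3) (cut := Cut.none) (xt := Ext.none) (P1 := 0) (W1 := 536870912) (P2 := 0) (W2 := 536870912) (P3 := 134217728) (W3 := 67108864)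
    rfl (fun _ => rfl) k0_pm_023_a

noncomputable def f_pm_023_b : ℕ → ℕ → ℕ → ℕ → Bool := onCell 1610612736 536870912 1239849684 370763052 134217728 67108864
    (rowF 2 true true false .up 0 2 3 (qsf 0 536870912 1239849684 370763052 3) ndF2q0 ndF2q2b pcF3 Cut.none Ext.none)

def k0_pm_023_b : ∃ t, chk3 f_pm_023_b t 1 1 1 = true :=
  ⟨(a (a (b (a (l 18206968) (l 18126448)) (a (l 18266792) (l 18240024))) (b (l 18029344) (l 18279568))) (l 4)), by decide +kernel⟩

theorem c_pm_023_b : CertF 0 536870912 1239849684 370763052 134217728 67108864 true true false .up 0 2 3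
    ndF2q0 ndF2q2b pcF3 Cut.none Ext.none :=
  certF2 (fam := true) (s1 := true) (s2 := false) (a := 0) (b := 2) (c := 3) (cn := .up) (n1 := ndF2q0) (n2 := ndF2q2b) (pc := pcF3) (cut := Cut.none) (xt := Ext.none) (P1 := 0) (W1 := 536870912) (P2 := 1239849684) (W2 := 370763052) (P3 := 134217728) (W3 := 67108864)
    rfl (fun _ => rfl) k0_pm_023_b

noncomputable def f_pm_033 : ℕ → ℕ → ℕ → ℕ → Bool := onCell 0 536870912 1610612736 536870912 134217728 67108864
    (rowF 1 true true false .pnn 0 3 3 (qsf 0 536870912 1610612736 536870912 3) ndF2q0 ndF2q3 pcF3 Cut.none Ext.none)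

def k0_pm_033 : ∃ t, chk3 f_pm_033 t 1 1 1 = true :=
  ⟨(b (b (a (b (l 18022360) (l 17970088)) (l 1)) (a (a (b (l 17945080) (l 17975880)) (l 17899728)) (l 394635589575))) (b (a (b (l 17867672) (l 4)) (l 4)) (l 4))), by decide +kernel⟩

theorem c_pm_033 : CertF 0 536870912 1610612736 536870912 134217728 67108864 true true false .pnn 0 3 3
    ndF2q0 ndF2q3 pcF3 Cut.none Ext.none :=
  certF1 (fam := true) (s1 := true) (s2 := false) (a := 0) (b := 3) (c := 3) (cn := .pnn) (n1 := ndF2q0) (n2 := ndF2q3) (pc := pcF3) (cut := Cut.none) (xt := Ext.none) (P1 := 0) (W1 := 536870912) (P2 := 1610612736) (W2 := 536870912) (P3 := 134217728) (W3 := 67108864)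
    rfl (fun _ => rfl) k0_pm_033

noncomputable def f_pm_101 : ℕ → ℕ → ℕ → ℕ → Bool := onCell 536870912 536870912 0 536870912 134217728 67108864
    (rowF 2 true true false .npn 1 0 1 (qsf 536870912 536870912 0 536870912 1) ndF2q1 ndF2q0 pcF1 Cut.none Ext.none)

def k0_pm_101 : ∃ t, chk3 f_pm_101 t 1 1 1 = true :=
  ⟨(a (l 3) (a (l 3) (l 3))), by decide +kernel⟩

theorem c_pm_101 : CertF 536870912 536870912 0 536870912 134217728 67108864 true true false .npn 1 0 1
    ndF2q1 ndF2q0 pcF1 Cut.none Ext.none :=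
  certF2 (fam := true) (s1 := true) (s2 := false) (a := 1) (b := 0) (c := 1) (cn := .npn) (n1 := ndF2q1) (n2 := ndF2q0) (pc := pcF1) (cut := Cut.none) (xt := Ext.none) (P1 := 536870912) (W1 := 536870912) (P2 := 0) (W2 := 536870912) (P3 := 134217728) (W3 := 67108864)
    rfl (fun _ => rfl) k0_pm_101

noncomputable def f_pm_102 : ℕ → ℕ → ℕ → ℕ → Bool := onCell 536870912 536870912 1073741824 536870912 134217728 67108864
    (rowF 1 true true false .npp 1 0 2 (qsf 536870912 536870912 0 536870912 2) ndF2q1 ndF2q0 pcF2 Cut.none Ext.none)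

def k0_pm_102 : ∃ t, chk3 f_pm_102 t 1 1 1 = true :=
  ⟨(a (b (b (l 3) (b (b (b (l 3) (b (l 17201496) (l 17299608))) (l 17250744)) (l 17324016))) (a (l 2) (l 17675480))) (b (b (b (l 3) (a (l 3) (b (l 3) (a (l 3) (b (l 216526571447) (l 16529608)))))) (b (a (b (b (l 17577120) (c (l 17736648) (l 17533016))) (l 17723960)) (a (b (b (l 17434672) (b (l 17543472) (l 17863608))) (l 17770608)) (b (b (l 16592912) (b (l 16873872) (a (l 17354152) (l 16815720)))) (l 17395024)))) (a (l 17873608) (a (l 18073672) (l 18005624))))) (a (l 18148704) (b (l 18558512) (l 18774216))))), by decide +kernel⟩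

theorem c_pm_102 : CertF 536870912 536870912 0 536870912 134217728 67108864 true true false .npp 1 0 2
    ndF2q1 ndF2q0 pcF2 Cut.none Ext.none :=
  certF1 (fam := true) (s1 := true) (s2 := false) (a := 1) (b := 0) (c := 2) (cn := .npp) (n1 := ndF2q1) (n2 := ndF2q0) (pc := pcF2) (cut := Cut.none) (xt := Ext.none) (P1 := 536870912) (W1 := 536870912) (P2 := 0) (W2 := 536870912) (P3 := 134217728) (W3 := 67108864)
    rfl (fun _ => rfl) k0_pm_102

noncomputable def f_pm_112 : ℕ → ℕ → ℕ → ℕ → Bool := onCell 536870912 536870912 1073741824 536870912 134217728 67108864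
    (rowF 1 true true false .dn 1 1 2 (qsf 536870912 536870912 536870912 536870912 2) ndF2q1 ndF2q1 pcF2 Cut.none Ext.none)

def k0_pm_112 : ∃ t, chk3 f_pm_112 t 1 1 1 = true :=
  ⟨(b (a (b (l 3) (b (b (b (l 3) (l 44596843495)) (l 18043760)) (l 18055152))) (b (l 1) (b (l 1) (l 18355112)))) (a (l 18010920) (l 18482648))), by decide +kernel⟩

theorem c_pm_112 : CertF 536870912 536870912 536870912 536870912 134217728 67108864 true true false .dn 1 1 2
    ndF2q1 ndF2q1 pcF2 Cut.none Ext.none :=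
  certF1 (fam := true) (s1 := true) (s2 := false) (a := 1) (b := 1) (c := 2) (cn := .dn) (n1 := ndF2q1) (n2 := ndF2q1) (pc := pcF2) (cut := Cut.none) (xt := Ext.none) (P1 := 536870912) (W1 := 536870912) (P2 := 536870912) (W2 := 536870912) (P3 := 134217728) (W3 := 67108864)
    rfl (fun _ => rfl) k0_pm_112

noncomputable def f_pm_113 : ℕ → ℕ → ℕ → ℕ → Bool := onCell 536870912 536870912 1610612736 536870912 134217728 67108864
    (rowF 1 true true false .nn 1 1 3 (qsf 536870912 536870912 536870912 536870912 3) ndF2q1 ndF2q1 pcF3 Cut.none Ext.none)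

def k0_pm_113 : ∃ t, chk3 f_pm_113 t 1 1 1 = true :=
  ⟨(a (b (l 18160112) (b (l 18442552) (l 2))) (b (l 17777664) (b (l 17340368) (b (l 17311296) (b (l 17315424) (b (l 17325608) (l 163847892183))))))), by decide +kernel⟩

theorem c_pm_113 : CertF 536870912 536870912 536870912 536870912 134217728 67108864 true true false .nn 1 1 3
    ndF2q1 ndF2q1 pcF3 Cut.none Ext.none :=
  certF1 (fam := true) (s1 := true) (s2 := false) (a := 1) (b := 1) (c := 3) (cn := .nn) (n1 := ndF2q1) (n2 := ndF2q1) (pc := pcF3) (cut := Cut.none) (xt := Ext.none) (P1 := 536870912) (W1 := 536870912) (P2 := 536870912) (W2 := 536870912) (P3 := 134217728) (W3 := 67108864)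
    rfl (fun _ => rfl) k0_pm_113

noncomputable def f_pm_123_a : ℕ → ℕ → ℕ → ℕ → Bool := onCell 1610612736 536870912 0 536870912 134217728 67108864
    (rowF 2 true true false .npn 1 2 3 (qsf 536870912 536870912 0 536870912 3) ndF2q1 ndF2q2a pcF3 Cut.none Ext.none)

def k0_pm_123_a : ∃ t, chk3 f_pm_123_a t 1 1 1 = true :=
  ⟨(a (a (a (l 17408160) (l 17225880)) (a (l 17302944) (l 17321992))) (l 4)), by decide +kernel⟩

theorem c_pm_123_a : CertF 536870912 536870912 0 536870912 134217728 67108864 true true false .npn 1 2 3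
    ndF2q1 ndF2q2a pcF3 Cut.none Ext.none :=
  certF2 (fam := true) (s1 := true) (s2 := false) (a := 1) (b := 2) (c := 3) (cn := .npn) (n1 := ndF2q1) (n2 := ndF2q2a) (pc := pcF3) (cut := Cut.none) (xt := Ext.none) (P1 := 536870912) (W1 := 536870912) (P2 := 0) (W2 := 536870912) (P3 := 134217728) (W3 := 67108864)
    rfl (fun _ => rfl) k0_pm_123_a

noncomputable def f_pm_123_b : ℕ → ℕ → ℕ → ℕ → Bool := onCell 536870912 536870912 1610612736 536870912 134217728 67108864
    (rowF 1 true true false .npn 1 2 3 (qsf 536870912 536870912 1239849684 370763052 3) ndF2q1 ndF2q2b pcF3 Cut.none Ext.none)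

def k0_pm_123_b : ∃ t, chk3 f_pm_123_b t 1 1 1 = true :=
  ⟨(b (b (l 1) (a (b (l 403225536311) (l 251290806583)) (l 1))) (l 4)), by decide +kernel⟩

theorem c_pm_123_b : CertF 536870912 536870912 1239849684 370763052 134217728 67108864 true true false .npn 1 2 3
    ndF2q1 ndF2q2b pcF3 Cut.none Ext.none :=
  certF1 (fam := true) (s1 := true) (s2 := false) (a := 1) (b := 2) (c := 3) (cn := .npn) (n1 := ndF2q1) (n2 := ndF2q2b) (pc := pcF3) (cut := Cut.none) (xt := Ext.none) (P1 := 536870912) (W1 := 536870912) (P2 := 1239849684) (W2 := 370763052) (P3 := 134217728) (W3 := 67108864)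
    rfl (fun _ => rfl) k0_pm_123_b

noncomputable def f_pm_133 : ℕ → ℕ → ℕ → ℕ → Bool := onCell 536870912 536870912 1610612736 536870912 134217728 67108864
    (rowF 0 true true false .dn 1 3 3 (qsf 536870912 536870912 1610612736 536870912 3) ndF2q1 ndF2q3 pcF3 Cut.none Ext.none)

def k0_pm_133 : ∃ t, chk3 f_pm_133 t 1 1 1 = true :=
  ⟨(l 4), by decide +kernel⟩

theorem c_pm_133 : CertF 536870912 536870912 1610612736 536870912 134217728 67108864 true true false .dn 1 3 3
    ndF2q1 ndF2q3 pcF3 Cut.none Ext.none :=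
  certF0 (fam := true) (s1 := true) (s2 := false) (a := 1) (b := 3) (c := 3) (cn := .dn) (n1 := ndF2q1) (n2 := ndF2q3) (pc := pcF3) (cut := Cut.none) (xt := Ext.none) (P1 := 536870912) (W1 := 536870912) (P2 := 1610612736) (W2 := 536870912) (P3 := 134217728) (W3 := 67108864)
    rfl k0_pm_133

noncomputable def cut_pm_202_a : Cut := Cut.of [[⟨0, 1, 0, 67108864⟩, ⟨1, 0, 0, 67108864⟩, ⟨2, 1, 0, 67108864⟩]]

noncomputable def f_pm_202_a : ℕ → ℕ → ℕ → ℕ → Bool := onCell 0 536870912 0 536870912 134217728 67108864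
    (rowF 0 true true false .pp 2 0 2 (qsf 0 536870912 0 536870912 2) ndF2q2a ndF2q0 pcF2 cut_pm_202_a Ext.none)

def k0_pm_202_a : ∃ t, chk3 f_pm_202_a t 16 128 1 = true :=
  ⟨(c (b (c (b (a (c (l 17228176) (l 17026336)) (c (l 17222424) (b (a (a (l 17018760) (c (l 17067504) (l 16945168))) (b (l 17010896) (l 17015512))) (l 17024800)))) (l 17141744)) (b (a (b (b (b (b (a (c (l 16815344) (l 16570176)) (a (c (c (l 16865080) (l 16763520)) (l 16548112)) (l 16606632))) (a (l 16694088) (c (a (l 16815568) (l 16772408)) (l 16548832)))) (a (l 16717088) (l 16552848))) (l 16720160)) (l 16728224)) (b (a (c (b (b (l 16811080) (b (a (c (l 16864752) (l 16763216)) (l 16812048)) (a (l 16815256) (a (l 16813792) (l 16812744))))) (l 16817472)) (b (b (l 16607616) (b (a (l 16547848) (l 16608688)) (l 16558632))) (l 16551648))) (c (b (l 16807552) (b (a (b (l 16812128) (l 16813368)) (l 16810016)) (a (l 16815288) (a (l 16813224) (l 16811736))))) (b (l 16603904) (a (l 16558488) (b (l 16606616) (l 16556856))))))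 (l 16553744))) (l 16740432))) (c (l 17168096) (l 16771824))) (b (b (c (a (b (b (a (l 16554152) (c (c (l 16559280) (l 16557624)) (c (l 16555984) (l 16554352)))) (l 16546024)) (l 16545704)) (b (b (b (a (l 16551728) (l 16546800)) (a (c (c (l 16559288) (l 16557640)) (c (l 16556008) (l 16554392))) (l 16546600))) (b (a (l 16556688) (a (c (l 16558432) (l 16555184)) (l 16546520))) (c (l 16558320) (l 16555048)))) (l 16545896))) (a (b (b (a (l 16539816) (c (c (l 16552744) (l 16551144)) (c (l 16549560) (l 16547992)))) (l 16539568)) (l 16539192)) (b (b (b (a (l 16540056) (l 16540360)) (a (c (c (l 16552784) (l 16551200)) (c (l 16549624) (l 16548064))) (l 16540176))) (b (a (l 16539792) (a (c (l 16552000) (l 16548864)) (l 16540112))) (c (l 16551840) (l 16548688)))) (l 16539456)))) (c (l 16545152) (l 16538584))) (l 16540472))), by decide +kernel⟩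

def k1_pm_202_a : ∃ t, chk3 f_pm_202_a t 17 128 1 = true :=
  ⟨(b (c (c (a (b (b (c (l 17206616) (l 17003136)) (c (l 17215240) (a (l 17016520) (b (l 17006680) (l 17011240))))) (l 17127520)) (b (c (l 17193832) (l 16989592)) (c (l 17211088) (b (a (b (l 17006920) (l 17011592)) (l 16998784)) (l 17013336))))) (a (b (b (a (c (l 16803608) (l 16557824)) (l 16567680)) (b (b (a (a (a (l 16559096) (l 16709440)) (l 16706656)) (l 16700240)) (a (a (l 16545160) (a (l 16552888) (l 16708312))) (l 16702880))) (a (l 16547312) (a (b (l 16707768) (l 16563584)) (l 16704608))))) (l 16556536)) (b (b (a (l 16620544) (l 16629688)) (l 16551872)) (b (a (b (l 16702184) (l 16560712)) (l 16693336)) (a (l 16673648) (l 16567608)))))) (b (a (c (b (a (c (l 16548384) (l 16545136)) (l 16547248)) (b (a (c (c (l 16559248) (l 16557608)) (c (l 16561232) (l 16559632))) (l 16546776)) (a (l 16546072) (a (l 16559400) (l 16546584))))) (b (a (l 16550848) (l 16540848)) (b (b (a (a (l 16550424) (l 16540176)) (l 16540504))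 (a (a (l 16539816) (l 16550456)) (l 16540336))) (a (l 16539704) (a (l 16550440) (l 16540224)))))) (c (a (l 16552560) (l 16547944)) (a (l 16540968) (l 16541608)))) (a (c (l 16556184) (l 16560224)) (b (b (c (l 16546712) (l 16540408)) (a (c (l 16567256) (l 16560936)) (l 16543760))) (c (a (l 16545944) (l 16567344)) (a (l 16539600) (l 16561040))))))) (c (c (l 17145224) (l 16557176)) (c (l 16544816) (l 16559200)))), by decide +kernel⟩

def k2_pm_202_a : ∃ t, chk3 f_pm_202_a t 8 129 1 = true :=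
  ⟨(c (a (l 17025584) (l 17002120)) (l 16559480)), by decide +kernel⟩

def k3_pm_202_a : ∃ t, chk3 f_pm_202_a t 8 65 1 = true :=
  ⟨(c (l 17116120) (l 16533904)), by decide +kernel⟩

def k4_pm_202_a : ∃ t, chk3 f_pm_202_a t 9 32 1 = true :=
  ⟨(b (b (a (c (b (c (a (b (l 16984024) (l 17086272)) (b (l 16932456) (l 17056384))) (a (b (c (l 16758808) (l 16553736)) (l 16593616)) (b (l 16558024) (l 16643616)))) (c (a (a (l 17057328) (b (b (l 17093600) (l 17102392)) (l 17116016))) (b (l 17074968) (a (l 17101312) (l 17085304)))) (a (b (b (a (l 16575536) (l 16686616)) (l 16578768)) (l 16720744)) (b (l 16665744) (l 16582464))))) (b (b (c (a (l 16548880) (l 16550456)) (a (l 16542616) (l 16544304))) (a (c (l 16547576) (l 16541296)) (l 16556696))) (b (a (a (c (l 16567168) (l 16560856)) (b (l 16544136) (b (l 16543672) (l 16564240)))) (l 16544976)) (a (l 16563368) (a (c (l 16567456) (l 16561200)) (l 16544344)))))) (c (b (b (c (a (l 16810864) (c (l 17060944) (l 16847544))) (a (l 16557256)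 (l 16560496))) (c (a (l 17019360) (l 16974816)) (l 16555088))) (c (a (l 17048072) (l 17004784)) (l 16568672))) (b (c (a (l 16562216) (l 16553936)) (a (l 16545688) (l 16548080))) (a (l 16546328) (l 16548736))))) (a (c (c (l 17152192) (l 16589112)) (a (l 16540096) (l 16583408))) (a (b (c (c (b (l 17075872) (l 17094152)) (l 16595816)) (b (l 16544448) (l 16585360))) (c (l 16880296) (l 16542112))) (c (b (l 16838008) (c (l 17080112) (l 16592456))) (b (l 16546336) (l 16606752)))))) (b (c (a (l 17027944) (l 16937256)) (l 16602280)) (l 16582936))), by decide +kernel⟩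

def k5_pm_202_a : ∃ t, chk3 f_pm_202_a t 4 33 1 = true :=
  ⟨(a (c (l 17293320) (l 16617296)) (c (l 17219512) (l 16530344))), by decide +kernel⟩

def k6_pm_202_a : ∃ t, chk3 f_pm_202_a t 4 17 1 = true :=
  ⟨(b (a (l 17178984) (l 17111632)) (l 17322080)), by decide +kernel⟩

def k7_pm_202_a : ∃ t, chk3 f_pm_202_a t 4 9 1 = true :=
  ⟨(b (l 17519448) (l 17691048)), by decide +kernel⟩

def k8_pm_202_a : ∃ t, chk3 f_pm_202_a t 4 5 1 = true :=
  ⟨(l 17897912), by decide +kernel⟩

def k9_pm_202_a : ∃ t, chk3 f_pm_202_a t 10 16 1 = true :=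
  ⟨(b (b (c (b (b (b (a (c (a (c (l 17009072) (l 16792144)) (c (l 16948360) (l 16727312))) (a (l 16562784) (l 16565392))) (c (a (c (l 16877792) (l 16651984)) (c (l 16775176) (l 16575488))) (a (l 16573608) (c (l 16572960) (l 16570472))))) (a (c (a (l 16922096) (l 16860392)) (l 16563144)) (c (l 16579640) (l 16569192)))) (a (c (l 16923200) (l 16561632)) (c (l 16783280) (l 16567744)))) (a (a (l 16722392) (l 16745760)) (l 16592584))) (b (a (b (c (a (l 16556464) (l 16559352)) (a (l 16550832) (l 16553968))) (l 16573808)) (b (c (a (l 16573104) (l 16571536)) (a (l 16557512) (l 16561488))) (l 16580736))) (a (l 16590616) (l 16556256)))) (a (b (c (c (a (l 17087712) (b (l 17015416) (l 17052408))) (l 16636400)) (b (a (l 16586072) (l 16547536)) (l 16606448))) (c (l 16937784) (l 16562128))) (b (c (l 16726880) (l 16551200)) (a (c (l 16848112) (l 16607512)) (l 16554816))))) (b (a (l 16674048) (c (l 16931264) (l 16625320))) (l 16766776))), by decide +kernel⟩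

def k10_pm_202_a : ∃ t, chk3 f_pm_202_a t 11 16 1 = true :=
  ⟨(b (b (b (c (b (b (a (c (a (c (l 16639008) (l 16578976)) (c (l 16593272) (l 16582896))) (a (c (l 16576632) (l 16574320)) (c (l 16580744) (l 16578624)))) (c (a (c (l 16589248) (l 16587272)) (c (l 16593912) (l 16592152))) (a (c (l 16585328) (l 16583400)) (c (l 16590416) (l 16588696))))) (a (c (l 16591968) (l 16587336)) (c (a (l 16587296) (l 16592024)) (a (l 16583272) (l 16588424))))) (a (c (l 16596816) (l 16575384)) (c (l 16588944) (l 16584920)))) (a (b (b (c (a (l 16581408) (b (l 16586240) (l 16575168))) (a (l 16566496) (l 16571416))) (c (l 16593320) (l 16588952))) (a (l 16565768) (l 16570456))) (b (b (c (a (a (l 16579104) (l 16581744)) (a (l 16584520) (l 16587424))) (a (a (l 16575304) (l 16578136)) (a (l 16581096) (l 16584200)))) (a (l 16587920) (l 16588424))) (a (l 16575640) (l 16581360))))) (c (a (l 16575056) (l 16605136)) (a (l 16564968) (l 16596584)))) (a (c (l 16601440) (l 16578544)) (c (l 16599648) (l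 16589648)))) (a (a (b (b (l 16554144) (l 16613224)) (l 16603560)) (b (b (l 16559024) (l 16553832)) (l 16612176))) (b (l 16605760) (c (l 16764720) (l 16757200))))), by decide +kernel⟩

def k11_pm_202_a : ∃ t, chk3 f_pm_202_a t 5 17 1 = true :=
  ⟨(a (b (l 16965888) (l 17177048)) (b (a (l 16792848) (l 16717272)) (l 16972672))), by decide +kernel⟩

def k12_pm_202_a : ∃ t, chk3 f_pm_202_a t 5 9 1 = true :=
  ⟨(b (a (l 17410624) (l 17256144)) (l 17556872)), by decide +kernel⟩

def k13_pm_202_a : ∃ t, chk3 f_pm_202_a t 5 5 1 = true :=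
  ⟨(l 17829216), by decide +kernel⟩

def k14_pm_202_a : ∃ t, chk3 f_pm_202_a t 2 3 1 = true :=
  ⟨(b (l 17919760) (l 18081160)), by decide +kernel⟩

def k15_pm_202_a : ∃ t, chk3 f_pm_202_a t 12 16 1 = true :=
  ⟨(b (b (a (b (b (c (b (a (c (c (a (l 16597520) (l 16600232)) (l 16605440)) (c (l 16603920) (l 16599784))) (c (c (a (l 16603088) (l 16606096)) (a (l 16601720) (l 16604840))) (c (a (l 16600360) (l 16603592)) (a (l 16599016) (l 16602352))))) (c (a (l 16597296) (l 16603144)) (a (l 16594128) (l 16600416)))) (b (a (c (a (l 16590480) (l 16593672)) (a (l 16587440) (l 16590832))) (c (a (l 16602248) (b (l 16603416) (l 16600136))) (a (l 16594368) (l 16598056)))) (c (a (l 16591024) (l 16597736)) (a (l 16587984) (l 16595088))))) (c (c (l 16620864) (l 16617696)) (a (l 16587648) (l 16594528)))) (c (l 16626960) (l 16609584))) (c (a (b (b (b (c (c (a (l 16609264) (l 16612592)) (a (l 16608120) (l 16611552))) (a (c (l 16606976) (l 16605840)) (c (l 16610528) (l 16609496)))) (c (l 16609632)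 (l 16607344))) (l 16617368)) (l 16603816)) (b (b (b (c (c (a (l 16616088) (l 16622376)) (a (l 16615160) (b (l 16619192) (l 16618568)))) (a (c (l 16614240) (l 16613312)) (b (c (l 16618384) (l 16617576)) (l 16617328)))) (c (l 16616800) (l 16614944))) (c (l 16615248) (l 16613240))) (l 16611120))) (b (b (a (b (b (c (a (c (l 16604992) (l 16603880)) (c (l 16608752) (l 16607736))) (a (l 16602216) (l 16608832))) (c (l 16606000) (l 16603816))) (c (l 16605072) (l 16602824))) (b (c (a (c (l 16612384) (l 16611456)) (c (l 16619096) (l 16618264))) (a (a (l 16608880) (l 16611000)) (c (l 16617432) (l 16619216)))) (c (l 16613088) (l 16611232)))) (a (l 16602056) (l 16631224))) (b (l 16647008) (l 16623240))))) (a (b (c (l 16591104) (l 16583344)) (l 16603400)) (c (l 16667320) (l 16660776)))) (a (c (l 16703424) (l 16713360)) (c (l 16719864) (l 16710416)))), by decide +kernel⟩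

def k16_pm_202_a : ∃ t, chk3 f_pm_202_a t 26 32 1 = true :=
  ⟨(b (c (b (b (c (b (a (a (c (l 16626232) (l 16624216)) (b (c (l 16627896) (l 16627304)) (l 16626968))) (b (a (c (b (l 16633568) (l 16631936)) (a (l 16630344) (l 16632552))) (c (a (l 16635216) (l 16637632)) (a (l 16634800) (l 16637264)))) (a (l 16631240) (l 16635616)))) (a (l 16624728) (a (l 16630352) (l 16634640)))) (b (a (a (c (l 16624816) (l 16621472)) (b (c (l 16626704) (l 16626096)) (l 16625728))) (b (a (c (a (l 16629824) (l 16632080)) (l 16631944)) (c (a (l 16634376) (l 16636872)) (a (l 16633936) (l 16636472)))) (a (l 16630200) (l 16634776)))) (a (l 16623288) (a (l 16629256) (l 16633744))))) (a (c (l 16623136) (l 16621568)) (c (l 16631888) (l 16630728)))) (a (l 16619200) (l 16649144))) (b (b (c (b (a (a (c (l 16620744) (l 16620016)) (b (c (l 16625480) (l 16624848)) (l 16624456))) (b (a (c (l 16632728) (l 16629568)) (c (a (l 16633488) (l 16636048)) (a (l 16633024) (l 16635624)))) (a (l 16629120) (l 16633872))))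 (a (l 16621832) (a (l 16628120) (l 16632800)))) (b (a (a (a (l 16617600) (l 16619888)) (a (l 16622216) (l 16624592))) (b (a (c (l 16629024) (l 16628464)) (a (l 16632296) (c (l 16635176) (l 16634712)))) (a (l 16627992) (l 16632920)))) (a (l 16620352) (a (l 16626944) (l 16631808))))) (a (l 16640152) (l 16649904))) (a (l 16615480) (l 16646256)))) (c (b (l 16664096) (l 16637912)) (b (l 16659840) (l 16653928)))), by decide +kernel⟩

def k17_pm_202_a : ∃ t, chk3 f_pm_202_a t 27 32 1 = true :=
  ⟨(b (a (b (b (c (b (b (c (b (c (a (c (l 16642168) (l 16642000)) (c (l 16647952) (l 16647800))) (a (l 16641736) (l 16648216))) (c (l 16644608) (l 16644272))) (c (a (l 16641168) (l 16647040)) (a (l 16640792) (l 16646696)))) (c (c (l 16644008) (l 16643672)) (l 16643136))) (c (a (l 16639904) (l 16645552)) (a (l 16639128) (l 16644856)))) (a (b (c (c (l 16639984) (l 16639576)) (c (l 16639152) (l 16638712))) (c (l 16638304) (l 16637432))) (c (c (l 16645120) (l 16644736)) (a (l 16642608) (l 16645648)))))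 (c (c (l 16662344) (l 16661520)) (c (l 16660640) (l 16659720)))) (c (l 16668440) (l 16666376))) (b (b (c (b (b (c (b (c (a (c (l 16653784) (l 16653648)) (c (l 16659664) (l 16659544))) (a (c (l 16653512) (l 16653368)) (c (l 16659432) (l 16659304)))) (c (a (l 16653344) (l 16659248)) (l 16656056))) (c (a (l 16652960) (l 16658928)) (a (l 16652648) (l 16658656)))) (c (c (l 16655776) (l 16655504)) (l 16655072))) (c (l 16654528) (l 16653928))) (c (a (c (l 16651152) (l 16650800)) (c (l 16657248) (l 16656928))) (b (a (l 16649736) (l 16657192)) (l 16652568)))) (c (l 16651936) (l 16650544))) (c (l 16647144) (l 16645600)))) (a (c (l 16672672) (l 16669616)) (c (l 16704704) (l 16702392)))), by decide +kernel⟩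

def k18_pm_202_a : ∃ t, chk3 f_pm_202_a t 13 33 1 = true :=
  ⟨(b (a (a (l 16621424) (l 16630424)) (a (l 16661488) (l 16672896))) (a (l 16639856) (l 16724808))), by decide +kernel⟩

def k19_pm_202_a : ∃ t, chk3 f_pm_202_a t 6 17 1 = true :=
  ⟨(a (b (a (b (a (l 16699952) (l 16559624)) (l 16655624)) (b (l 16570736) (a (l 16701832) (l 16564344)))) (a (l 16744744) (c (l 16887744) (l 16733504)))) (b (a (l 16753160) (b (l 16649976) (l 16617680))) (a (b (l 16586400) (l 16807576)) (l 16729752)))), by decide +kernel⟩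

def k20_pm_202_a : ∃ t, chk3 f_pm_202_a t 6 9 1 = true :=
  ⟨(b (a (l 17012352) (b (a (l 16717528) (b (a (l 16555808) (l 16568448)) (l 16765168))) (l 16909976))) (a (l 17328488) (l 17064624))), by decide +kernel⟩

def k21_pm_202_a : ∃ t, chk3 f_pm_202_a t 6 5 1 = true :=
  ⟨(b (b (a (l 17529744) (l 17333304)) (l 17588160)) (l 17729216)), by decide +kernel⟩

def k22_pm_202_a : ∃ t, chk3 f_pm_202_a t 14 4 1 = true :=
  ⟨(b (b (b (a (b (b (c (b (b (b (a (c (c (a (c (l 16665424) (l 16665328)) (a (l 16669864) (l 16672872))) (a (b (l 16664688) (l 16665000)) (l 16671208))) (c (a (l 16664952) (l 16671032)) (a (l 16664720) (l 16670832)))) (a (a (c (c (l 16675896) (l 16675760)) (l 16675536)) (l 6)) (l 6))) (a (c (c (l 16667736) (l 16667544)) (l 16667224)) (c (a (l 16676744) (l 6)) (l 16679216)))) (c (a (l 16666624) (l 16679048)) (a (l 16666176) (l 16678752)))) (c (a (l 16664544) (l 16677152)) (l 16691488))) (b (b (a (a (c (c (l 16664112) (l 16663840)) (l 16663400)) (c (c (l 16670280)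 (l 16670048)) (l 16669664))) (a (a (c (l 16674840) (l 16674400)) (l 6)) (l 6))) (a (c (l 16665672) (l 16665104)) (c (l 16678392) (l 16677968)))) (a (l 16663200) (l 16676160)))) (c (a (l 16659904) (l 16672960)) (a (l 16658624) (l 16671944)))) (a (b (l 16652928) (l 16690656)) (l 16663552))) (a (b (b (l 6) (c (l 16686696) (l 16685864))) (l 16699040)) (b (l 6) (l 16714000)))) (a (b (a (l 16724776) (l 16761160)) (c (l 16810896) (l 16828176))) (b (l 16694776) (a (l 16743064) (l 16668744))))) (a (b (b (l 16782912) (l 16706320)) (l 16821832)) (b (a (l 16876536) (b (l 16768016) (l 16709624))) (b (l 16842712) (l 16754704))))) (b (a (b (l 16792120) (b (a (l 16702600) (l 16568128)) (l 16807480))) (b (b (l 16719680) (l 16685704)) (a (l 16619976) (l 16641360)))) (a (l 16957632) (b (a (b (l 16739464) (l 16582392)) (b (l 16593888) (l 16779360))) (l 16785520))))), by decide +kernel⟩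

def k23_pm_202_a : ∃ t, chk3 f_pm_202_a t 15 4 1 = true :=
  ⟨(b (a (b (b (l 6) (b (l 6) (l 16695288))) (b (l 16675376) (a (c (l 16887832) (l 16882960)) (b (l 16679112) (l 16752152))))) (b (l 6) (b (l 16737400) (l 16707328)))) (b (a (b (a (l 16759752) (l 16886408)) (b (l 16798872) (l 16754920))) (b (a (b (l 16810880) (l 16749432)) (b (l 16716240) (l 16869632))) (a (l 16848616) (a (l 16800688) (l 16852376))))) (a (b (a (l 16656440) (l 16678896)) (a (b (l 16820928) (l 16639784)) (l 16805248))) (b (a (l 16722112) (l 16825752)) (a (l 16674896) (l 16719256)))))), by decide +kernel⟩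

def k24_pm_202_a : ∃ t, chk3 f_pm_202_a t 7 5 1 = true :=
  ⟨(b (a (b (a (l 17131112) (l 16962104)) (l 17288600)) (b (a (b (l 16924048) (l 16858880)) (b (a (b (l 16651504) (l 16747696)) (l 16737688)) (a (l 16714936) (b (l 16835736) (l 16667488))))) (a (l 17068512) (l 16897120)))) (a (b (l 17456304) (l 17569848)) (c (l 17440824) (l 17213384)))), by decide +kernel⟩

def k25_pm_202_a : ∃ t, chk3 f_pm_202_a t 3 3 1 = true :=
  ⟨(b (a (l 17827648) (l 17650496)) (a (l 17806552) (l 17697600))), by decide +kernel⟩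

theorem s26_pm_202_a : ∃ t, chk3 f_pm_202_a t 7 4 1 = true := ex3_a k22_pm_202_a k23_pm_202_a

theorem s27_pm_202_a : ∃ t, chk3 f_pm_202_a t 7 2 1 = true := ex3_b s26_pm_202_a k24_pm_202_a

theorem s28_pm_202_a : ∃ t, chk3 f_pm_202_a t 13 32 1 = true := ex3_a k16_pm_202_a k17_pm_202_a

theorem s29_pm_202_a : ∃ t, chk3 f_pm_202_a t 13 16 1 = true := ex3_b s28_pm_202_a k18_pm_202_a

theorem s30_pm_202_a : ∃ t, chk3 f_pm_202_a t 6 16 1 = true := ex3_a k15_pm_202_a s29_pm_202_a

theorem s31_pm_202_a : ∃ t, chk3 f_pm_202_a t 6 8 1 = true := ex3_b s30_pm_202_a k19_pm_202_a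

theorem s32_pm_202_a : ∃ t, chk3 f_pm_202_a t 6 4 1 = true := ex3_b s31_pm_202_a k20_pm_202_a

theorem s33_pm_202_a : ∃ t, chk3 f_pm_202_a t 6 2 1 = true := ex3_b s32_pm_202_a k21_pm_202_a

theorem s34_pm_202_a : ∃ t, chk3 f_pm_202_a t 3 2 1 = true := ex3_a s33_pm_202_a s27_pm_202_a

theorem s35_pm_202_a : ∃ t, chk3 f_pm_202_a t 3 1 1 = true := ex3_b s34_pm_202_a k25_pm_202_a

theorem s36_pm_202_a : ∃ t, chk3 f_pm_202_a t 5 16 1 = true := ex3_a k9_pm_202_a k10_pm_202_a

theorem s37_pm_202_a : ∃ t, chk3 f_pm_202_a t 5 8 1 = true := ex3_b s36_pm_202_a k11_pm_202_a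

theorem s38_pm_202_a : ∃ t, chk3 f_pm_202_a t 5 4 1 = true := ex3_b s37_pm_202_a k12_pm_202_a

theorem s39_pm_202_a : ∃ t, chk3 f_pm_202_a t 5 2 1 = true := ex3_b s38_pm_202_a k13_pm_202_a

theorem s40_pm_202_a : ∃ t, chk3 f_pm_202_a t 8 128 1 = true := ex3_a k0_pm_202_a k1_pm_202_a

theorem s41_pm_202_a : ∃ t, chk3 f_pm_202_a t 8 64 1 = true := ex3_b s40_pm_202_a k2_pm_202_a

theorem s42_pm_202_a : ∃ t, chk3 f_pm_202_a t 8 32 1 = true := ex3_b s41_pm_202_a k3_pm_202_a

theorem s43_pm_202_a : ∃ t, chk3 f_pm_202_a t 4 32 1 = true := ex3_a s42_pm_202_a k4_pm_202_a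

theorem s44_pm_202_a : ∃ t, chk3 f_pm_202_a t 4 16 1 = true := ex3_b s43_pm_202_a k5_pm_202_a

theorem s45_pm_202_a : ∃ t, chk3 f_pm_202_a t 4 8 1 = true := ex3_b s44_pm_202_a k6_pm_202_a

theorem s46_pm_202_a : ∃ t, chk3 f_pm_202_a t 4 4 1 = true := ex3_b s45_pm_202_a k7_pm_202_a

theorem s47_pm_202_a : ∃ t, chk3 f_pm_202_a t 4 2 1 = true := ex3_b s46_pm_202_a k8_pm_202_a

theorem s48_pm_202_a : ∃ t, chk3 f_pm_202_a t 2 2 1 = true := ex3_a s47_pm_202_a s39_pm_202_a

theorem s49_pm_202_a : ∃ t, chk3 f_pm_202_a t 2 1 1 = true := ex3_b s48_pm_202_a k14_pm_202_a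

theorem s50_pm_202_a : ∃ t, chk3 f_pm_202_a t 1 1 1 = true := ex3_a s49_pm_202_a s35_pm_202_a

theorem c_pm_202_a : CertF 0 536870912 0 536870912 134217728 67108864 true true false .pp 2 0 2
    ndF2q2a ndF2q0 pcF2 cut_pm_202_a Ext.none :=
  certF0 (fam := true) (s1 := true) (s2 := false) (a := 2) (b := 0) (c := 2) (cn := .pp) (n1 := ndF2q2a) (n2 := ndF2q0) (pc := pcF2) (cut := cut_pm_202_a) (xt := Ext.none) (P1 := 0) (W1 := 536870912) (P2 := 0) (W2 := 536870912) (P3 := 134217728) (W3 := 67108864)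
    rfl s50_pm_202_a

noncomputable def cut_pm_202_b : Cut := Cut.of [[⟨0, 1, 0, 67108864⟩, ⟨1, 0, 0, 67108864⟩, ⟨2, 1, 0, 67108864⟩]]

noncomputable def f_pm_202_b : ℕ → ℕ → ℕ → ℕ → Bool := onCell 1239849684 370763052 0 536870912 134217728 67108864
    (rowF 0 true true false .pp 2 0 2 (qsf 1239849684 370763052 0 536870912 2) ndF2q2b ndF2q0 pcF2 cut_pm_202_b Ext.none)

def k0_pm_202_b : ∃ t, chk3 f_pm_202_b t 1 1 1 = true :=
  ⟨(b (a (b (a (b (b (a (b (b (a (c (b (c (a (a (l 17020008) (l 17309448)) (l 17447344)) (a (b (a (c (l 16895512) (l 16592752)) (l 16702976)) (l 16894360)) (a (l 16911688) (l 17136440)))) (c (l 17414520) (l 17033736))) (b (b (a (a (b (c (l 16548760) (l 16536648)) (l 16539136)) (c (l 16538144) (l 16530512))) (c (b (l 16541384) (l 16717720)) (l 16533520))) (c (l 16550392) (l 16549240))) (l 16551672))) (c (c (l 17702048) (a (l 17110800) (l 17456360))) (b (c (a (a (l 16801160) (l 16981920)) (l 17116032)) (a (l 16521208) (b (l 16675488) (l 16811896)))) (a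 (l 16831408) (l 17013640))))) (c (a (l 17152528) (l 17623904)) (a (l 16629592) (l 17012528)))) (a (c (l 17467056) (l 16834352)) (c (l 17728680) (l 17164016)))) (b (c (a (b (c (l 17940456) (l 17656664)) (l 17856976)) (b (l 17992968) (l 18033232))) (a (b (b (c (l 17306736) (a (l 16974432) (l 17132328))) (a (l 17174696) (l 17317584))) (l 17311936)) (b (a (c (l 17556064) (l 17290168)) (l 17532456)) (l 17540584)))) (a (c (l 17929464) (l 17420760)) (l 17853472)))) (a (b (a (l 17338928) (l 17583128)) (a (l 17484632) (l 17687272))) (l 17887440))) (a (b (b (l 17686584) (l 17761912)) (l 17847264)) (l 18028320))) (b (b (a (b (c (l 18215872) (l 17776064)) (l 18055568)) (l 18227792)) (l 18206712)) (l 18257280))) (a (l 18055136) (b (l 18262096) (l 18220088)))) (b (b (a (b (l 18409104) (l 18426400)) (l 18524904)) (a (l 18420376) (l 18485608))) (a (b (l 18371456) (l 2)) (l 2)))) (a (b (a (b (l 18036952) (l 17989672)) (b (l 18149936) (l 2))) (l 2)) (l 2))), by decide +kernel⟩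

theorem c_pm_202_b : CertF 1239849684 370763052 0 536870912 134217728 67108864 true true false .pp 2 0 2
    ndF2q2b ndF2q0 pcF2 cut_pm_202_b Ext.none :=
  certF0 (fam := true) (s1 := true) (s2 := false) (a := 2) (b := 0) (c := 2) (cn := .pp) (n1 := ndF2q2b) (n2 := ndF2q0) (pc := pcF2) (cut := cut_pm_202_b) (xt := Ext.none) (P1 := 1239849684) (W1 := 370763052) (P2 := 0) (W2 := 536870912) (P3 := 134217728) (W3 := 67108864)
    rfl k0_pm_202_b

noncomputable def f_pm_203_a : ℕ → ℕ → ℕ → ℕ → Bool := onCell 0 536870912 1610612736 536870912 134217728 67108864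
    (rowF 1 true true false .up 2 0 3 (qsf 0 536870912 0 536870912 3) ndF2q2a ndF2q0 pcF3 Cut.none Ext.none)

def k0_pm_203_a : ∃ t, chk3 f_pm_203_a t 1 1 1 = true :=
  ⟨(b (b (a (l 18086576) (b (l 18066280) (l 17976296))) (b (l 17900864) (l 17850416))) (l 2)), by decide +kernel⟩

theorem c_pm_203_a : CertF 0 536870912 0 536870912 134217728 67108864 true true false .up 2 0 3
    ndF2q2a ndF2q0 pcF3 Cut.none Ext.none :=
  certF1 (fam := true) (s1 := true) (s2 := false) (a := 2) (b := 0) (c := 3) (cn := .up) (n1 := ndF2q2a) (n2 := ndF2q0) (pc := pcF3) (cut := Cut.none) (xt := Ext.none) (P1 := 0) (W1 := 536870912) (P2 := 0) (W2 := 536870912) (P3 := 134217728) (W3 := 67108864)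
    rfl (fun _ => rfl) k0_pm_203_a

noncomputable def f_pm_203_b : ℕ → ℕ → ℕ → ℕ → Bool := onCell 1239849684 370763052 1610612736 536870912 134217728 67108864
    (rowF 1 true true false .up 2 0 3 (qsf 1239849684 370763052 0 536870912 3) ndF2q2b ndF2q0 pcF3 Cut.none Ext.none)

def k0_pm_203_b : ∃ t, chk3 f_pm_203_b t 1 1 1 = true :=
  ⟨(b (b (a (b (l 18206968) (l 18126448)) (b (l 18266792) (l 18240024))) (a (l 18029344) (l 18279568))) (l 4)), by decide +kernel⟩

theorem c_pm_203_b : CertF 1239849684 370763052 0 536870912 134217728 67108864 true true false .up 2 0 3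
    ndF2q2b ndF2q0 pcF3 Cut.none Ext.none :=
  certF1 (fam := true) (s1 := true) (s2 := false) (a := 2) (b := 0) (c := 3) (cn := .up) (n1 := ndF2q2b) (n2 := ndF2q0) (pc := pcF3) (cut := Cut.none) (xt := Ext.none) (P1 := 1239849684) (W1 := 370763052) (P2 := 0) (W2 := 536870912) (P3 := 134217728) (W3 := 67108864)
    rfl (fun _ => rfl) k0_pm_203_b

noncomputable def f_pm_213_a : ℕ → ℕ → ℕ → ℕ → Bool := onCell 0 536870912 1610612736 536870912 134217728 67108864
    (rowF 1 true true false .pnn 2 1 3 (qsf 0 536870912 536870912 536870912 3) ndF2q2a ndF2q1 pcF3 Cut.none Ext.none)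

def k0_pm_213_a : ∃ t, chk3 f_pm_213_a t 1 1 1 = true :=
  ⟨(b (b (b (l 17408160) (l 17225864)) (b (l 17302880) (l 17321832))) (l 4)), by decide +kernel⟩

theorem c_pm_213_a : CertF 0 536870912 536870912 536870912 134217728 67108864 true true false .pnn 2 1 3
    ndF2q2a ndF2q1 pcF3 Cut.none Ext.none :=
  certF1 (fam := true) (s1 := true) (s2 := false) (a := 2) (b := 1) (c := 3) (cn := .pnn) (n1 := ndF2q2a) (n2 := ndF2q1) (pc := pcF3) (cut := Cut.none) (xt := Ext.none) (P1 := 0) (W1 := 536870912) (P2 := 536870912) (W2 := 536870912) (P3 := 134217728) (W3 := 67108864)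
    rfl (fun _ => rfl) k0_pm_213_a

noncomputable def f_pm_213_b : ℕ → ℕ → ℕ → ℕ → Bool := onCell 1239849684 370763052 1610612736 536870912 134217728 67108864
    (rowF 1 true true false .pnn 2 1 3 (qsf 1239849684 370763052 536870912 536870912 3) ndF2q2b ndF2q1 pcF3 Cut.none Ext.none)

def k0_pm_213_b : ∃ t, chk3 f_pm_213_b t 1 1 1 = true :=
  ⟨(b (b (l 1) (a (b (l 17117072) (l 17113448)) (l 1))) (l 4)), by decide +kernel⟩

theorem c_pm_213_b : CertF 1239849684 370763052 536870912 536870912 134217728 67108864 true true false .pnn 2 1 3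
    ndF2q2b ndF2q1 pcF3 Cut.none Ext.none :=
  certF1 (fam := true) (s1 := true) (s2 := false) (a := 2) (b := 1) (c := 3) (cn := .pnn) (n1 := ndF2q2b) (n2 := ndF2q1) (pc := pcF3) (cut := Cut.none) (xt := Ext.none) (P1 := 1239849684) (W1 := 370763052) (P2 := 536870912) (W2 := 536870912) (P3 := 134217728) (W3 := 67108864)
    rfl (fun _ => rfl) k0_pm_213_b

noncomputable def f_pm_303 : ℕ → ℕ → ℕ → ℕ → Bool := onCell 1610612736 536870912 0 536870912 134217728 67108864
    (rowF 2 true true false .npn 3 0 3 (qsf 1610612736 536870912 0 536870912 3) ndF2q3 ndF2q0 pcF3 Cut.none Ext.none)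

def k0_pm_303 : ∃ t, chk3 f_pm_303 t 1 1 1 = true :=
  ⟨(a (a (b (a (l 18022360) (l 17970088)) (l 1)) (b (a (b (l 17945080) (l 17915664)) (l 17915688)) (l 394635589575))) (a (b (a (l 17867672) (l 4)) (l 4)) (l 4))), by decide +kernel⟩

theorem c_pm_303 : CertF 1610612736 536870912 0 536870912 134217728 67108864 true true false .npn 3 0 3
    ndF2q3 ndF2q0 pcF3 Cut.none Ext.none :=
  certF2 (fam := true) (s1 := true) (s2 := false) (a := 3) (b := 0) (c := 3) (cn := .npn) (n1 := ndF2q3) (n2 := ndF2q0) (pc := pcF3) (cut := Cut.none) (xt := Ext.none) (P1 := 1610612736) (W1 := 536870912) (P2 := 0) (W2 := 536870912) (P3 := 134217728) (W3 := 67108864)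
    rfl (fun _ => rfl) k0_pm_303

noncomputable def f_pm_313 : ℕ → ℕ → ℕ → ℕ → Bool := onCell 1610612736 536870912 536870912 536870912 134217728 67108864
    (rowF 0 true true false .dn 3 1 3 (qsf 1610612736 536870912 536870912 536870912 3) ndF2q3 ndF2q1 pcF3 Cut.none Ext.none)

def k0_pm_313 : ∃ t, chk3 f_pm_313 t 1 1 1 = true :=
  ⟨(l 4), by decide +kernel⟩

theorem c_pm_313 : CertF 1610612736 536870912 536870912 536870912 134217728 67108864 true true false .dn 3 1 3
    ndF2q3 ndF2q1 pcF3 Cut.none Ext.none :=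
  certF0 (fam := true) (s1 := true) (s2 := false) (a := 3) (b := 1) (c := 3) (cn := .dn) (n1 := ndF2q3) (n2 := ndF2q1) (pc := pcF3) (cut := Cut.none) (xt := Ext.none) (P1 := 1610612736) (W1 := 536870912) (P2 := 536870912) (W2 := 536870912) (P3 := 134217728) (W3 := 67108864)
    rfl k0_pm_313

noncomputable def f_mm_001 : ℕ → ℕ → ℕ → ℕ → Bool := onCell 0 536870912 0 536870912 134217728 67108864
    (rowF 0 true false false .up 0 0 1 (qsf 0 536870912 0 536870912 1) ndF2q0 ndF2q0 pcF1 Cut.none Ext.none)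

def k0_mm_001 : ∃ t, chk3 f_mm_001 t 1 1 1 = true :=
  ⟨(l 4), by decide +kernel⟩

theorem c_mm_001 : CertF 0 536870912 0 536870912 134217728 67108864 true false false .up 0 0 1
    ndF2q0 ndF2q0 pcF1 Cut.none Ext.none :=
  certF0 (fam := true) (s1 := false) (s2 := false) (a := 0) (b := 0) (c := 1) (cn := .up) (n1 := ndF2q0) (n2 := ndF2q0) (pc := pcF1) (cut := Cut.none) (xt := Ext.none) (P1 := 0) (W1 := 536870912) (P2 := 0) (W2 := 536870912) (P3 := 134217728) (W3 := 67108864)
    rfl k0_mm_001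

noncomputable def f_mm_011 : ℕ → ℕ → ℕ → ℕ → Bool := onCell 0 536870912 536870912 536870912 134217728 67108864
    (rowF 0 true false false .pnn 0 1 1 (qsf 0 536870912 536870912 536870912 1) ndF2q0 ndF2q1 pcF1 Cut.none Ext.none)

def k0_mm_011 : ∃ t, chk3 f_mm_011 t 1 1 1 = true :=
  ⟨(l 4), by decide +kernel⟩

theorem c_mm_011 : CertF 0 536870912 536870912 536870912 134217728 67108864 true false false .pnn 0 1 1
    ndF2q0 ndF2q1 pcF1 Cut.none Ext.none :=
  certF0 (fam := true) (s1 := false) (s2 := false) (a := 0) (b := 1) (c := 1) (cn := .pnn) (n1 := ndF2q0) (n2 := ndF2q1) (pc := pcF1) (cut := Cut.none) (xt := Ext.none) (P1 := 0) (W1 := 536870912) (P2 := 536870912) (W2 := 536870912) (P3 := 134217728) (W3 := 67108864)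
    rfl k0_mm_011

noncomputable def f_mm_012 : ℕ → ℕ → ℕ → ℕ → Bool := onCell 0 536870912 536870912 536870912 134217728 67108864
    (rowF 0 true false false .pnp 0 1 2 (qsf 0 536870912 536870912 536870912 2) ndF2q0 ndF2q1 pcF2 Cut.none Ext.none)

def k0_mm_012 : ∃ t, chk3 f_mm_012 t 1 1 1 = true :=
  ⟨(l 4), by decide +kernel⟩

theorem c_mm_012 : CertF 0 536870912 536870912 536870912 134217728 67108864 true false false .pnp 0 1 2
    ndF2q0 ndF2q1 pcF2 Cut.none Ext.none :=
  certF0 (fam := true) (s1 := false) (s2 := false) (a := 0) (b := 1) (c := 2) (cn := .pnp) (n1 := ndF2q0) (n2 := ndF2q1) (pc := pcF2) (cut := Cut.none) (xt := Ext.none) (P1 := 0) (W1 := 536870912) (P2 := 536870912) (W2 := 536870912) (P3 := 134217728) (W3 := 67108864)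
    rfl k0_mm_012

noncomputable def f_mm_022_a : ℕ → ℕ → ℕ → ℕ → Bool := onCell 0 536870912 0 536870912 134217728 67108864
    (rowF 0 true false false .pp 0 2 2 (qsf 0 536870912 0 536870912 2) ndF2q0 ndF2q2a pcF2 Cut.none Ext.none)

def k0_mm_022_a : ∃ t, chk3 f_mm_022_a t 1 1 1 = true :=
  ⟨(l 5), by decide +kernel⟩

theorem c_mm_022_a : CertF 0 536870912 0 536870912 134217728 67108864 true false false .pp 0 2 2
    ndF2q0 ndF2q2a pcF2 Cut.none Ext.none :=
  certF0 (fam := true) (s1 := false) (s2 := false) (a := 0) (b := 2) (c := 2) (cn := .pp) (n1 := ndF2q0) (n2 := ndF2q2a) (pc := pcF2) (cut := Cut.none) (xt := Ext.none) (P1 := 0) (W1 := 536870912) (P2 := 0) (W2 := 536870912) (P3 := 134217728) (W3 := 67108864)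
    rfl k0_mm_022_a

noncomputable def f_mm_022_b : ℕ → ℕ → ℕ → ℕ → Bool := onCell 0 536870912 1239849684 370763052 134217728 67108864
    (rowF 0 true false false .pp 0 2 2 (qsf 0 536870912 1239849684 370763052 2) ndF2q0 ndF2q2b pcF2 Cut.none Ext.none)

def k0_mm_022_b : ∃ t, chk3 f_mm_022_b t 1 1 1 = true :=
  ⟨(l 5), by decide +kernel⟩

theorem c_mm_022_b : CertF 0 536870912 1239849684 370763052 134217728 67108864 true false false .pp 0 2 2
    ndF2q0 ndF2q2b pcF2 Cut.none Ext.none :=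
  certF0 (fam := true) (s1 := false) (s2 := false) (a := 0) (b := 2) (c := 2) (cn := .pp) (n1 := ndF2q0) (n2 := ndF2q2b) (pc := pcF2) (cut := Cut.none) (xt := Ext.none) (P1 := 0) (W1 := 536870912) (P2 := 1239849684) (W2 := 370763052) (P3 := 134217728) (W3 := 67108864)
    rfl k0_mm_022_b

noncomputable def f_mm_023_a : ℕ → ℕ → ℕ → ℕ → Bool := onCell 0 536870912 0 536870912 134217728 67108864
    (rowF 0 true false false .up 0 2 3 (qsf 0 536870912 0 536870912 3) ndF2q0 ndF2q2a pcF3 Cut.none Ext.none)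

def k0_mm_023_a : ∃ t, chk3 f_mm_023_a t 1 1 1 = true :=
  ⟨(l 5), by decide +kernel⟩

theorem c_mm_023_a : CertF 0 536870912 0 536870912 134217728 67108864 true false false .up 0 2 3
    ndF2q0 ndF2q2a pcF3 Cut.none Ext.none :=
  certF0 (fam := true) (s1 := false) (s2 := false) (a := 0) (b := 2) (c := 3) (cn := .up) (n1 := ndF2q0) (n2 := ndF2q2a) (pc := pcF3) (cut := Cut.none) (xt := Ext.none) (P1 := 0) (W1 := 536870912) (P2 := 0) (W2 := 536870912) (P3 := 134217728) (W3 := 67108864)
    rfl k0_mm_023_a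

noncomputable def f_mm_023_b : ℕ → ℕ → ℕ → ℕ → Bool := onCell 0 536870912 1239849684 370763052 134217728 67108864
    (rowF 0 true false false .up 0 2 3 (qsf 0 536870912 1239849684 370763052 3) ndF2q0 ndF2q2b pcF3 Cut.none Ext.none)

def k0_mm_023_b : ∃ t, chk3 f_mm_023_b t 1 1 1 = true :=
  ⟨(l 5), by decide +kernel⟩

theorem c_mm_023_b : CertF 0 536870912 1239849684 370763052 134217728 67108864 true false false .up 0 2 3
    ndF2q0 ndF2q2b pcF3 Cut.none Ext.none :=
  certF0 (fam := true) (s1 := false) (s2 := false) (a := 0) (b := 2) (c := 3) (cn := .up) (n1 := ndF2q0) (n2 := ndF2q2b) (pc := pcF3) (cut := Cut.none) (xt := Ext.none) (P1 := 0) (W1 := 536870912) (P2 := 1239849684) (W2 := 370763052) (P3 := 134217728) (W3 := 67108864)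
    rfl k0_mm_023_b

noncomputable def f_mm_033 : ℕ → ℕ → ℕ → ℕ → Bool := onCell 0 536870912 1610612736 536870912 134217728 67108864
    (rowF 0 true false false .pnn 0 3 3 (qsf 0 536870912 1610612736 536870912 3) ndF2q0 ndF2q3 pcF3 Cut.none Ext.none)

def k0_mm_033 : ∃ t, chk3 f_mm_033 t 1 1 1 = true :=
  ⟨(l 4), by decide +kernel⟩

theorem c_mm_033 : CertF 0 536870912 1610612736 536870912 134217728 67108864 true false false .pnn 0 3 3
    ndF2q0 ndF2q3 pcF3 Cut.none Ext.none :=
  certF0 (fam := true) (s1 := false) (s2 := false) (a := 0) (b := 3) (c := 3) (cn := .pnn) (n1 := ndF2q0) (n2 := ndF2q3) (pc := pcF3) (cut := Cut.none) (xt := Ext.none) (P1 := 0) (W1 := 536870912) (P2 := 1610612736) (W2 := 536870912) (P3 := 134217728) (W3 := 67108864)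
    rfl k0_mm_033

noncomputable def f_mm_101 : ℕ → ℕ → ℕ → ℕ → Bool := onCell 536870912 536870912 0 536870912 134217728 67108864
    (rowF 0 true false false .npn 1 0 1 (qsf 536870912 536870912 0 536870912 1) ndF2q1 ndF2q0 pcF1 Cut.none Ext.none)

def k0_mm_101 : ∃ t, chk3 f_mm_101 t 1 1 1 = true :=
  ⟨(l 4), by decide +kernel⟩

theorem c_mm_101 : CertF 536870912 536870912 0 536870912 134217728 67108864 true false false .npn 1 0 1
    ndF2q1 ndF2q0 pcF1 Cut.none Ext.none :=
  certF0 (fam := true) (s1 := false) (s2 := false) (a := 1) (b := 0) (c := 1) (cn := .npn) (n1 := ndF2q1) (n2 := ndF2q0) (pc := pcF1) (cut := Cut.none) (xt := Ext.none) (P1 := 536870912) (W1 := 536870912) (P2 := 0) (W2 := 536870912) (P3 := 134217728) (W3 := 67108864)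
    rfl k0_mm_101

noncomputable def f_mm_102 : ℕ → ℕ → ℕ → ℕ → Bool := onCell 536870912 536870912 0 536870912 134217728 67108864
    (rowF 0 true false false .npp 1 0 2 (qsf 536870912 536870912 0 536870912 2) ndF2q1 ndF2q0 pcF2 Cut.none Ext.none)

def k0_mm_102 : ∃ t, chk3 f_mm_102 t 1 1 1 = true :=
  ⟨(l 4), by decide +kernel⟩

theorem c_mm_102 : CertF 536870912 536870912 0 536870912 134217728 67108864 true false false .npp 1 0 2
    ndF2q1 ndF2q0 pcF2 Cut.none Ext.none :=
  certF0 (fam := true) (s1 := false) (s2 := false) (a := 1) (b := 0) (c := 2) (cn := .npp) (n1 := ndF2q1) (n2 := ndF2q0) (pc := pcF2) (cut := Cut.none) (xt := Ext.none) (P1 := 536870912) (W1 := 536870912) (P2 := 0) (W2 := 536870912) (P3 := 134217728) (W3 := 67108864)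
    rfl k0_mm_102

noncomputable def f_mm_112 : ℕ → ℕ → ℕ → ℕ → Bool := onCell 536870912 536870912 536870912 536870912 134217728 67108864
    (rowF 0 true false false .dn 1 1 2 (qsf 536870912 536870912 536870912 536870912 2) ndF2q1 ndF2q1 pcF2 Cut.none Ext.none)

def k0_mm_112 : ∃ t, chk3 f_mm_112 t 1 1 1 = true :=
  ⟨(l 4), by decide +kernel⟩

theorem c_mm_112 : CertF 536870912 536870912 536870912 536870912 134217728 67108864 true false false .dn 1 1 2
    ndF2q1 ndF2q1 pcF2 Cut.none Ext.none :=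
  certF0 (fam := true) (s1 := false) (s2 := false) (a := 1) (b := 1) (c := 2) (cn := .dn) (n1 := ndF2q1) (n2 := ndF2q1) (pc := pcF2) (cut := Cut.none) (xt := Ext.none) (P1 := 536870912) (W1 := 536870912) (P2 := 536870912) (W2 := 536870912) (P3 := 134217728) (W3 := 67108864)
    rfl k0_mm_112

noncomputable def f_mm_113 : ℕ → ℕ → ℕ → ℕ → Bool := onCell 536870912 536870912 536870912 536870912 134217728 67108864
    (rowF 0 true false false .nn 1 1 3 (qsf 536870912 536870912 536870912 536870912 3) ndF2q1 ndF2q1 pcF3 Cut.none Ext.none)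

def k0_mm_113 : ∃ t, chk3 f_mm_113 t 1 1 1 = true :=
  ⟨(l 4), by decide +kernel⟩

theorem c_mm_113 : CertF 536870912 536870912 536870912 536870912 134217728 67108864 true false false .nn 1 1 3
    ndF2q1 ndF2q1 pcF3 Cut.none Ext.none :=
  certF0 (fam := true) (s1 := false) (s2 := false) (a := 1) (b := 1) (c := 3) (cn := .nn) (n1 := ndF2q1) (n2 := ndF2q1) (pc := pcF3) (cut := Cut.none) (xt := Ext.none) (P1 := 536870912) (W1 := 536870912) (P2 := 536870912) (W2 := 536870912) (P3 := 134217728) (W3 := 67108864)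
    rfl k0_mm_113

noncomputable def f_mm_123_a : ℕ → ℕ → ℕ → ℕ → Bool := onCell 536870912 536870912 0 536870912 134217728 67108864
    (rowF 0 true false false .npn 1 2 3 (qsf 536870912 536870912 0 536870912 3) ndF2q1 ndF2q2a pcF3 Cut.none Ext.none)

def k0_mm_123_a : ∃ t, chk3 f_mm_123_a t 1 1 1 = true :=
  ⟨(l 4), by decide +kernel⟩

theorem c_mm_123_a : CertF 536870912 536870912 0 536870912 134217728 67108864 true false false .npn 1 2 3
    ndF2q1 ndF2q2a pcF3 Cut.none Ext.none :=
  certF0 (fam := true) (s1 := false) (s2 := false) (a := 1) (b := 2) (c := 3) (cn := .npn) (n1 := ndF2q1) (n2 := ndF2q2a) (pc := pcF3) (cut := Cut.none) (xt := Ext.none) (P1 := 536870912) (W1 := 536870912) (P2 := 0) (W2 := 536870912) (P3 := 134217728) (W3 := 67108864)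
    rfl k0_mm_123_a

end Pool.Agent.Strip051.G.I1_8_3_16.Tab.C.FA22

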