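import Pool.Agent.Strip051.G.I1_8_3_16.AsmH
import Pool.Agent.Strip051.G.I1_8_3_16.TrF0
import Pool.Agent.Strip051.G.I1_8_3_16.TrF1
import Pool.Agent.Strip051.G.I1_8_3_16.TrF2
import Pool.Agent.Strip051.G.I1_8_3_16.TrF3
import Pool.Agent.Strip051.G.I1_8_3_16.TrF4
import Pool.Agent.Strip051.G.I1_8_3_16.Crn12C
import Pool.Agent.Strip051.G.I1_8_3_16.Crn12F
import Pool.Agent.Strip051.G.I1_8_3_16.CrnF_0
import Pool.Agent.Strip051.G.I1_8_3_16.DgY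
import Pool.Agent.Strip051.G.I1_8_3_16.MolT
import Pool.Agent.Strip051.G.I1_8_3_16.St0
import Pool.Agent.Strip051.G.I1_8_3_16.St1
import Pool.Agent.Strip051.G.I1_8_3_16.St2
import Pool.Agent.Strip051.G.I1_8_3_16.St3
import Pool.Agent.Strip051.G.I1_8_3_16.St4
import Pool.Agent.Strip051.G.I1_8_3_16.St5

/-! # Rows from certificates (generated) -/

set_option linter.all false
set_option maxRecDepth 100000

namespace Pool.Agent.Strip051.G.I1_8_3_16.Tab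

open Pool.Agent.Strip051.PB Pool.Agent.StripNear Pool.Agent.Strip051.LC

theorem FA00_pp_001 {κ x : ℝ} (hκ : κ * h0 = ken x) (hx : ((134217728 : ℕ) : ℝ) / S ≤ x) (hx' : x ≤ (((134217728 : ℕ) : ℝ) + (67108864 : ℕ)) / S) :
    TriA PP.cur (farS κ (h0 * x) (tbl tKF x) (tbl tL x)) 0 0 1 0 0 1 1 :=
  (sideF hx hx').farA (Or.inl rfl) (Or.inl rfl) fun y y' F =>
    farA_cert (s1 := true) (s2 := true) rfl hκ covF00 covF00 hx hx'
        Pool.Agent.Strip051.G.I1_8_3_16.Tab.C.FA00.c_pp_001 (cutA_cons (Pool.Agent.Strip051.G.I1_8_3_16.Tab.St.C.s_A00pp_001_s1 hκ hx hx') (cutA_cons (Pool.Agent.Strip051.G.I1_8_3_16.Tab.St.C.s_A00pp_001_s3 hκ hx hx') cutA_nil)) noExt_A F trivial trivial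

theorem FA00_pp_011 {κ x : ℝ} (hκ : κ * h0 = ken x) (hx : ((134217728 : ℕ) : ℝ) / S ≤ x) (hx' : x ≤ (((134217728 : ℕ) : ℝ) + (67108864 : ℕ)) / S) :
    TriA PP.cur (farS κ (h0 * x) (tbl tKF x) (tbl tL x)) 0 1 1 0 0 1 1 :=
  (sideF hx hx').farA (Or.inl rfl) (Or.inl rfl) fun y y' F =>
    farA_cert (s1 := true) (s2 := true) rfl hκ covF00 covF01 hx hx'
        Pool.Agent.Strip051.G.I1_8_3_16.Tab.C.FA00.c_pp_011 (cutA_cons (Pool.Agent.Strip051.G.I1_8_3_16.Tab.St.C.s_A00pp_011_s1 hκ hx hx' (cutA_cons (Pool.Agent.Strip051.G.I1_8_3_16.Tab.altF_A011L_00 hκ hx hx') cutA_nil)) (cutA_cons (Pool.Agent.Strip051.G.I1_8_3_16.Tab.St.C.s_A00pp_011_s3 hκ hx hx' (cutA_cons (Pool.Agent.Strip051.G.I1_8_3_16.Tab.altF_A011L_00 hκ hx hx') cutA_nil)) (cutA_cons (Pool.Agent.Strip051.G.I1_8_3_16.Tab.altF_A011L_00 hκ hx hx') cutA_nil))) noExt_A F trivial trivial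

theorem FA00_pp_012 {κ x : ℝ} (hκ : κ * h0 = ken x) (hx : ((134217728 : ℕ) : ℝ) / S ≤ x) (hx' : x ≤ (((134217728 : ℕ) : ℝ) + (67108864 : ℕ)) / S) :
    TriA PP.cur (farS κ (h0 * x) (tbl tKF x) (tbl tL x)) 0 1 2 0 0 1 1 :=
  (sideF hx hx').farA (Or.inl rfl) (Or.inl rfl) fun y y' F =>
    farA_cert (s1 := true) (s2 := true) rfl hκ covF00 covF01 hx hx'
        Pool.Agent.Strip051.G.I1_8_3_16.Tab.C.FA00.c_pp_012 (cutA_cons (Pool.Agent.Strip051.G.I1_8_3_16.Tab.St.C.s_A00pp_012_s1 hκ hx hx' (cutA_cons (Pool.Agent.Strip051.G.I1_8_3_16.Tab.altF_A012L_00 hκ hx hx') cutA_nil)) (cutA_cons (Pool.Agent.Strip051.G.I1_8_3_16.Tab.St.C.s_A00pp_012_s3 hκ hx hx' (cutA_cons (Pool.Agent.Strip051.G.I1_8_3_16.Tab.altF_A012L_00 hκ hx hx') cutA_nil)) (cutA_cons (Pool.Agent.Strip051.G.I1_8_3_16.Tab.altF_A012L_00 hκ hx hx') cutA_nil))) noExt_A F trivial trivial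

theorem FA00_pp_022 {κ x : ℝ} (hκ : κ * h0 = ken x) (hx : ((134217728 : ℕ) : ℝ) / S ≤ x) (hx' : x ≤ (((134217728 : ℕ) : ℝ) + (67108864 : ℕ)) / S) :
    TriA PP.cur (farS κ (h0 * x) (tbl tKF x) (tbl tL x)) 0 2 2 0 0 1 1 :=
  (sideF hx hx').farA (Or.inl rfl) (Or.inl rfl) fun y y' F =>
    farA_cert (s1 := true) (s2 := true) rfl hκ covF00 covF02 hx hx'
        Pool.Agent.Strip051.G.I1_8_3_16.Tab.C.FA00.c_pp_022 (cutA_cons (Pool.Agent.Strip051.G.I1_8_3_16.Tab.St.C.s_A00pp_022_s1 hκ hx hx' (cutA_cons (Pool.Agent.Strip051.G.I1_8_3_16.Tab.altF_A022L_00 hκ hx hx') cutA_nil)) (cutA_cons (Pool.Agent.Strip051.G.I1_8_3_16.Tab.St.C.s_A00pp_022_s3 hκ hx hx' (cutA_cons (Pool.Agent.Strip051.G.I1_8_3_16.Tab.altF_A022L_00 hκ hx hx') cutA_nil)) (cutA_cons (Pool.Agent.Strip051.G.I1_8_3_16.Tab.altF_A022L_00 hκ hx hx') cutA_nil))) noExt_A F trivial trivial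

theorem FA00_pp_023 {κ x : ℝ} (hκ : κ * h0 = ken x) (hx : ((134217728 : ℕ) : ℝ) / S ≤ x) (hx' : x ≤ (((134217728 : ℕ) : ℝ) + (67108864 : ℕ)) / S) :
    TriA PP.cur (farS κ (h0 * x) (tbl tKF x) (tbl tL x)) 0 2 3 0 0 1 1 :=
  (sideF hx hx').farA (Or.inl rfl) (Or.inl rfl) fun y y' F =>
    farA_cert (s1 := true) (s2 := true) rfl hκ covF00 covF02 hx hx'
        Pool.Agent.Strip051.G.I1_8_3_16.Tab.C.FA00.c_pp_023 (cutA_cons (Pool.Agent.Strip051.G.I1_8_3_16.Tab.St.C.s_A00pp_023_s1 hκ hx hx') (cutA_cons (Pool.Agent.Strip051.G.I1_8_3_16.Tab.St.C.s_A00pp_023_s3 hκ hx hx') cutA_nil)) noExt_A F trivial trivial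

theorem FA00_pp_033 {κ x : ℝ} (hκ : κ * h0 = ken x) (hx : ((134217728 : ℕ) : ℝ) / S ≤ x) (hx' : x ≤ (((134217728 : ℕ) : ℝ) + (67108864 : ℕ)) / S) :
    TriA PP.cur (farS κ (h0 * x) (tbl tKF x) (tbl tL x)) 0 3 3 0 0 1 1 :=
  triA_k0

theorem FA00_pp_101 {κ x : ℝ} (hκ : κ * h0 = ken x) (hx : ((134217728 : ℕ) : ℝ) / S ≤ x) (hx' : x ≤ (((134217728 : ℕ) : ℝ) + (67108864 : ℕ)) / S) :
    TriA PP.cur (farS κ (h0 * x) (tbl tKF x) (tbl tL x)) 1 0 1 0 0 1 1 :=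
  (sideF hx hx').farA (Or.inl rfl) (Or.inl rfl) fun y y' F =>
    farA_cert (s1 := true) (s2 := true) rfl hκ covF01 covF00 hx hx'
        Pool.Agent.Strip051.G.I1_8_3_16.Tab.C.FA00.c_pp_101 (cutA_cons (Pool.Agent.Strip051.G.I1_8_3_16.Tab.St.C.s_A00pp_101_s1 hκ hx hx') (cutA_cons (Pool.Agent.Strip051.G.I1_8_3_16.Tab.St.C.s_A00pp_101_s3 hκ hx hx') cutA_nil)) noExt_A F trivial trivial

theorem FA00_pp_102 {κ x : ℝ} (hκ : κ * h0 = ken x) (hx : ((134217728 : ℕ) : ℝ) / S ≤ x) (hx' : x ≤ (((134217728 : ℕ) : ℝ) + (67108864 : ℕ)) / S) :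
    TriA PP.cur (farS κ (h0 * x) (tbl tKF x) (tbl tL x)) 1 0 2 0 0 1 1 :=
  (sideF hx hx').farA (Or.inl rfl) (Or.inl rfl) fun y y' F =>
    farA_cert (s1 := true) (s2 := true) rfl hκ covF01 covF00 hx hx'
        Pool.Agent.Strip051.G.I1_8_3_16.Tab.C.FA00.c_pp_102 (cutA_cons (Pool.Agent.Strip051.G.I1_8_3_16.Tab.St.C.s_A00pp_102_s1 hκ hx hx') (cutA_cons (Pool.Agent.Strip051.G.I1_8_3_16.Tab.St.C.s_A00pp_102_s3 hκ hx hx') cutA_nil)) noExt_A F trivial trivial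

theorem FA00_pp_112 {κ x : ℝ} (hκ : κ * h0 = ken x) (hx : ((134217728 : ℕ) : ℝ) / S ≤ x) (hx' : x ≤ (((134217728 : ℕ) : ℝ) + (67108864 : ℕ)) / S) :
    TriA PP.cur (farS κ (h0 * x) (tbl tKF x) (tbl tL x)) 1 1 2 0 0 1 1 :=
  (sideF hx hx').farA (Or.inl rfl) (Or.inl rfl) fun y y' F =>
    farA_cert (s1 := true) (s2 := true) rfl hκ covF01 covF01 hx hx'
        Pool.Agent.Strip051.G.I1_8_3_16.Tab.C.FA00.c_pp_112 (cutA_cons (Pool.Agent.Strip051.G.I1_8_3_16.Tab.St.C.s_A00pp_112_s1 hκ hx hx') (cutA_cons (Pool.Agent.Strip051.G.I1_8_3_16.Tab.St.C.s_A00pp_112_s3 hκ hx hx') cutA_nil)) noExt_A F trivial trivial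

theorem FA00_pp_113 {κ x : ℝ} (hκ : κ * h0 = ken x) (hx : ((134217728 : ℕ) : ℝ) / S ≤ x) (hx' : x ≤ (((134217728 : ℕ) : ℝ) + (67108864 : ℕ)) / S) :
    TriA PP.cur (farS κ (h0 * x) (tbl tKF x) (tbl tL x)) 1 1 3 0 0 1 1 :=
  (sideF hx hx').farA (Or.inl rfl) (Or.inl rfl) fun y y' F =>
    farA_cert (s1 := true) (s2 := true) rfl hκ covF01 covF01 hx hx'
        Pool.Agent.Strip051.G.I1_8_3_16.Tab.C.FA00.c_pp_113 (cutA_cons (Pool.Agent.Strip051.G.I1_8_3_16.Tab.St.C.s_A00pp_113_s1 hκ hx hx') (cutA_cons (Pool.Agent.Strip051.G.I1_8_3_16.Tab.St.C.s_A00pp_113_s3 hκ hx hx') cutA_nil)) noExt_A F trivial trivial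

theorem FA00_pp_123 {κ x : ℝ} (hκ : κ * h0 = ken x) (hx : ((134217728 : ℕ) : ℝ) / S ≤ x) (hx' : x ≤ (((134217728 : ℕ) : ℝ) + (67108864 : ℕ)) / S) :
    TriA PP.cur (farS κ (h0 * x) (tbl tKF x) (tbl tL x)) 1 2 3 0 0 1 1 :=
  (sideF hx hx').farA (Or.inl rfl) (Or.inl rfl) fun y y' F =>
    farA_cert (s1 := true) (s2 := true) rfl hκ covF01 covF02 hx hx'
        Pool.Agent.Strip051.G.I1_8_3_16.Tab.C.FA00.c_pp_123 (cutA_cons (Pool.Agent.Strip051.G.I1_8_3_16.Tab.St.C.s_A00pp_123_s1 hκ hx hx') (cutA_cons (Pool.Agent.Strip051.G.I1_8_3_16.Tab.St.C.s_A00pp_123_s3 hκ hx hx') cutA_nil)) noExt_A F trivial trivial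

theorem FA00_pp_133 {κ x : ℝ} (hκ : κ * h0 = ken x) (hx : ((134217728 : ℕ) : ℝ) / S ≤ x) (hx' : x ≤ (((134217728 : ℕ) : ℝ) + (67108864 : ℕ)) / S) :
    TriA PP.cur (farS κ (h0 * x) (tbl tKF x) (tbl tL x)) 1 3 3 0 0 1 1 :=
  triA_k0

theorem FA00_pp_202 {κ x : ℝ} (hκ : κ * h0 = ken x) (hx : ((134217728 : ℕ) : ℝ) / S ≤ x) (hx' : x ≤ (((134217728 : ℕ) : ℝ) + (67108864 : ℕ)) / S) :
    TriA PP.cur (farS κ (h0 * x) (tbl tKF x) (tbl tL x)) 2 0 2 0 0 1 1 :=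
  (sideF hx hx').farA (Or.inl rfl) (Or.inl rfl) fun y y' F =>
    farA_cert (s1 := true) (s2 := true) rfl hκ covF02 covF00 hx hx'
        Pool.Agent.Strip051.G.I1_8_3_16.Tab.C.FA00.c_pp_202 (cutA_cons (Pool.Agent.Strip051.G.I1_8_3_16.Tab.St.C.s_A00pp_202_s1 hκ hx hx') (cutA_cons (Pool.Agent.Strip051.G.I1_8_3_16.Tab.St.C.s_A00pp_202_s3 hκ hx hx') cutA_nil)) noExt_A F trivial trivial

theorem FA00_pp_203 {κ x : ℝ} (hκ : κ * h0 = ken x) (hx : ((134217728 : ℕ) : ℝ) / S ≤ x) (hx' : x ≤ (((134217728 : ℕ) : ℝ) + (67108864 : ℕ)) / S) :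
    TriA PP.cur (farS κ (h0 * x) (tbl tKF x) (tbl tL x)) 2 0 3 0 0 1 1 :=
  (sideF hx hx').farA (Or.inl rfl) (Or.inl rfl) fun y y' F =>
    farA_cert (s1 := true) (s2 := true) rfl hκ covF02 covF00 hx hx'
        Pool.Agent.Strip051.G.I1_8_3_16.Tab.C.FA00.c_pp_203 (cutA_cons (Pool.Agent.Strip051.G.I1_8_3_16.Tab.St.C.s_A00pp_203_s1 hκ hx hx') (cutA_cons (Pool.Agent.Strip051.G.I1_8_3_16.Tab.St.C.s_A00pp_203_s3 hκ hx hx') cutA_nil)) noExt_A F trivial trivial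

theorem FA00_pp_213 {κ x : ℝ} (hκ : κ * h0 = ken x) (hx : ((134217728 : ℕ) : ℝ) / S ≤ x) (hx' : x ≤ (((134217728 : ℕ) : ℝ) + (67108864 : ℕ)) / S) :
    TriA PP.cur (farS κ (h0 * x) (tbl tKF x) (tbl tL x)) 2 1 3 0 0 1 1 :=
  (sideF hx hx').farA (Or.inl rfl) (Or.inl rfl) fun y y' F =>
    farA_cert (s1 := true) (s2 := true) rfl hκ covF02 covF01 hx hx'
        Pool.Agent.Strip051.G.I1_8_3_16.Tab.C.FA00.c_pp_213 (cutA_cons (Pool.Agent.Strip051.G.I1_8_3_16.Tab.St.C.s_A00pp_213_s1 hκ hx hx') (cutA_cons (Pool.Agent.Strip051.G.I1_8_3_16.Tab.St.C.s_A00pp_213_s3 hκ hx hx') cutA_nil)) noExt_A F trivial trivial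

theorem FA00_pp_303 {κ x : ℝ} (hκ : κ * h0 = ken x) (hx : ((134217728 : ℕ) : ℝ) / S ≤ x) (hx' : x ≤ (((134217728 : ℕ) : ℝ) + (67108864 : ℕ)) / S) :
    TriA PP.cur (farS κ (h0 * x) (tbl tKF x) (tbl tL x)) 3 0 3 0 0 1 1 :=
  triA_j0

theorem FA00_pp_313 {κ x : ℝ} (hκ : κ * h0 = ken x) (hx : ((134217728 : ℕ) : ℝ) / S ≤ x) (hx' : x ≤ (((134217728 : ℕ) : ℝ) + (67108864 : ℕ)) / S) :
    TriA PP.cur (farS κ (h0 * x) (tbl tKF x) (tbl tL x)) 3 1 3 0 0 1 1 :=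
  triA_j0

theorem FA00_pm_001 {κ x : ℝ} (hκ : κ * h0 = ken x) (hx : ((134217728 : ℕ) : ℝ) / S ≤ x) (hx' : x ≤ (((134217728 : ℕ) : ℝ) + (67108864 : ℕ)) / S) :
    TriA PP.cur (farS κ (h0 * x) (tbl tKF x) (tbl tL x)) 0 0 1 0 0 1 (-1) :=
  (sideF hx hx').farA (Or.inl rfl) (Or.inr rfl) fun y y' F =>
    farA_cert (s1 := true) (s2 := false) rfl hκ covF00 covF00 hx hx'
        Pool.Agent.Strip051.G.I1_8_3_16.Tab.C.FA00.c_pm_001 (cutA_cons (Pool.Agent.Strip051.G.I1_8_3_16.Tab.St.C.s_A00pm_001_s1 hκ hx hx') (cutA_cons (Pool.Agent.Strip051.G.I1_8_3_16.Tab.St.C.s_A00pm_001_s3 hκ hx hx') cutA_nil)) noExt_A F trivial trivial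

theorem FA00_pm_011 {κ x : ℝ} (hκ : κ * h0 = ken x) (hx : ((134217728 : ℕ) : ℝ) / S ≤ x) (hx' : x ≤ (((134217728 : ℕ) : ℝ) + (67108864 : ℕ)) / S) :
    TriA PP.cur (farS κ (h0 * x) (tbl tKF x) (tbl tL x)) 0 1 1 0 0 1 (-1) :=
  (sideF hx hx').farA (Or.inl rfl) (Or.inr rfl) fun y y' F =>
    farA_cert (s1 := true) (s2 := false) rfl hκ covF00 covF01 hx hx'
        Pool.Agent.Strip051.G.I1_8_3_16.Tab.C.FA00.c_pm_011 (cutA_cons (Pool.Agent.Strip051.G.I1_8_3_16.Tab.St.C.s_A00pm_011_s1 hκ hx hx' (cutA_cons (Pool.Agent.Strip051.G.I1_8_3_16.Tab.altF_A011E_00 hκ hx hx') cutA_nil)) (cutA_cons (Pool.Agent.Strip051.G.I1_8_3_16.Tab.St.C.s_A00pm_011_s3 hκ hx hx' (cutA_cons (Pool.Agent.Strip051.G.I1_8_3_16.Tab.altF_A011E_00 hκ hx hx') cutA_nil)) (cutA_cons (Pool.Agent.Strip051.G.I1_8_3_16.Tab.altF_A011E_00 hκ hx hx') cutA_nil))) noExt_A F trivial trivial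

theorem FA00_pm_012 {κ x : ℝ} (hκ : κ * h0 = ken x) (hx : ((134217728 : ℕ) : ℝ) / S ≤ x) (hx' : x ≤ (((134217728 : ℕ) : ℝ) + (67108864 : ℕ)) / S) :
    TriA PP.cur (farS κ (h0 * x) (tbl tKF x) (tbl tL x)) 0 1 2 0 0 1 (-1) :=
  (sideF hx hx').farA (Or.inl rfl) (Or.inr rfl) fun y y' F =>
    farA_cert (s1 := true) (s2 := false) rfl hκ covF00 covF01 hx hx'
        Pool.Agent.Strip051.G.I1_8_3_16.Tab.C.FA00.c_pm_012 (cutA_cons (Pool.Agent.Strip051.G.I1_8_3_16.Tab.St.C.s_A00pm_012_s1 hκ hx hx' (cutA_cons (Pool.Agent.Strip051.G.I1_8_3_16.Tab.altF_A012E_00 hκ hx hx') (cutA_cons (Pool.Agent.Strip051.G.I1_8_3_16.Tab.Mo.molF_A_012_00_0 hκ hx hx') cutA_nil))) (cutA_cons (Pool.Agent.Strip051.G.I1_8_3_16.Tab.St.C.s_A00pm_012_s3 hκ hx hx' (cutA_cons (Pool.Agent.Strip051.G.I1_8_3_16.Tab.altF_A012E_00 hκ hx hx') (cutA_cons (Pool.Agent.Strip051.G.I1_8_3_16.Tab.Mo.molF_A_012_00_0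 hκ hx hx') cutA_nil))) (cutA_cons (Pool.Agent.Strip051.G.I1_8_3_16.Tab.altF_A012E_00 hκ hx hx') (cutA_cons (Pool.Agent.Strip051.G.I1_8_3_16.Tab.Mo.molF_A_012_00_0 hκ hx hx') cutA_nil)))) noExt_A F trivial trivial

theorem FA00_pm_022 {κ x : ℝ} (hκ : κ * h0 = ken x) (hx : ((134217728 : ℕ) : ℝ) / S ≤ x) (hx' : x ≤ (((134217728 : ℕ) : ℝ) + (67108864 : ℕ)) / S) :
    TriA PP.cur (farS κ (h0 * x) (tbl tKF x) (tbl tL x)) 0 2 2 0 0 1 (-1) :=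
  (sideF hx hx').farA (Or.inl rfl) (Or.inr rfl) fun y y' F =>
    farA_cert (s1 := true) (s2 := false) rfl hκ covF00 covF02 hx hx'
        Pool.Agent.Strip051.G.I1_8_3_16.Tab.C.FA00.c_pm_022 (cutA_cons (Pool.Agent.Strip051.G.I1_8_3_16.Tab.St.C.s_A00pm_022_s1 hκ hx hx' (cutA_cons (Pool.Agent.Strip051.G.I1_8_3_16.Tab.altF_A022E_00 hκ hx hx') (cutA_cons (Pool.Agent.Strip051.G.I1_8_3_16.Tab.Mo.molF_A_022_00_0 hκ hx hx') cutA_nil))) (cutA_cons (Pool.Agent.Strip051.G.I1_8_3_16.Tab.St.C.s_A00pm_022_s3 hκ hx hx' (cutA_cons (Pool.Agent.Strip051.G.I1_8_3_16.Tab.altF_A022E_00 hκ hx hx') (cutA_cons (Pool.Agent.Strip051.G.I1_8_3_16.Tab.Mo.molF_A_022_00_0 hκ hx hx') cutA_nil))) (cutA_cons (Pool.Agent.Strip051.G.I1_8_3_16.Tab.altF_A022E_00 hκ hx hx') (cutA_cons (Pool.Agent.Strip051.G.I1_8_3_16.Tab.Mo.molF_A_022_00_0 hκ hx hx') cutA_nil)))) noExt_A F trivial trivial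

theorem FA00_pm_023 {κ x : ℝ} (hκ : κ * h0 = ken x) (hx : ((134217728 : ℕ) : ℝ) / S ≤ x) (hx' : x ≤ (((134217728 : ℕ) : ℝ) + (67108864 : ℕ)) / S) :
    TriA PP.cur (farS κ (h0 * x) (tbl tKF x) (tbl tL x)) 0 2 3 0 0 1 (-1) :=
  (sideF hx hx').farA (Or.inl rfl) (Or.inr rfl) fun y y' F =>
    farA_cert (s1 := true) (s2 := false) rfl hκ covF00 covF02 hx hx'
        Pool.Agent.Strip051.G.I1_8_3_16.Tab.C.FA00.c_pm_023 (cutA_cons (Pool.Agent.Strip051.G.I1_8_3_16.Tab.St.C.s_A00pm_023_s1 hκ hx hx') (cutA_cons (Pool.Agent.Strip051.G.I1_8_3_16.Tab.St.C.s_A00pm_023_s3 hκ hx hx') cutA_nil)) noExt_A F trivial trivial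

theorem FA00_pm_033 {κ x : ℝ} (hκ : κ * h0 = ken x) (hx : ((134217728 : ℕ) : ℝ) / S ≤ x) (hx' : x ≤ (((134217728 : ℕ) : ℝ) + (67108864 : ℕ)) / S) :
    TriA PP.cur (farS κ (h0 * x) (tbl tKF x) (tbl tL x)) 0 3 3 0 0 1 (-1) :=
  triA_k0

theorem FA00_pm_101 {κ x : ℝ} (hκ : κ * h0 = ken x) (hx : ((134217728 : ℕ) : ℝ) / S ≤ x) (hx' : x ≤ (((134217728 : ℕ) : ℝ) + (67108864 : ℕ)) / S) :
    TriA PP.cur (farS κ (h0 * x) (tbl tKF x) (tbl tL x)) 1 0 1 0 0 1 (-1) :=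
  (sideF hx hx').farA (Or.inl rfl) (Or.inr rfl) fun y y' F =>
    farA_cert (s1 := true) (s2 := false) rfl hκ covF01 covF00 hx hx'
        Pool.Agent.Strip051.G.I1_8_3_16.Tab.C.FA00.c_pm_101 (cutA_cons (Pool.Agent.Strip051.G.I1_8_3_16.Tab.St.C.s_A00pm_101_s1 hκ hx hx' (cutA_cons (Pool.Agent.Strip051.G.I1_8_3_16.Tab.altF_A101E_00 hκ hx hx') cutA_nil)) (cutA_cons (Pool.Agent.Strip051.G.I1_8_3_16.Tab.St.C.s_A00pm_101_s3 hκ hx hx' (cutA_cons (Pool.Agent.Strip051.G.I1_8_3_16.Tab.altF_A101E_00 hκ hx hx') cutA_nil)) (cutA_cons (Pool.Agent.Strip051.G.I1_8_3_16.Tab.altF_A101E_00 hκ hx hx') cutA_nil))) noExt_A F trivial trivial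

theorem FA00_pm_102 {κ x : ℝ} (hκ : κ * h0 = ken x) (hx : ((134217728 : ℕ) : ℝ) / S ≤ x) (hx' : x ≤ (((134217728 : ℕ) : ℝ) + (67108864 : ℕ)) / S) :
    TriA PP.cur (farS κ (h0 * x) (tbl tKF x) (tbl tL x)) 1 0 2 0 0 1 (-1) :=
  (sideF hx hx').farA (Or.inl rfl) (Or.inr rfl) fun y y' F =>
    farA_cert (s1 := true) (s2 := false) rfl hκ covF01 covF00 hx hx'
        Pool.Agent.Strip051.G.I1_8_3_16.Tab.C.FA00.c_pm_102 (cutA_cons (Pool.Agent.Strip051.G.I1_8_3_16.Tab.St.C.s_A00pm_102_s1 hκ hx hx' (cutA_cons (Pool.Agent.Strip051.G.I1_8_3_16.Tab.altF_A102E_00 hκ hx hx') (cutA_cons (Pool.Agent.Strip051.G.I1_8_3_16.Tab.Mo.molF_A_102_00_1 hκ hx hx') cutA_nil))) (cutA_cons (Pool.Agent.Strip051.G.I1_8_3_16.Tab.St.C.s_A00pm_102_s3 hκ hx hx' (cutA_cons (Pool.Agent.Strip051.G.I1_8_3_16.Tab.altF_A102E_00 hκ hx hx') (cutA_cons (Pool.Agent.Strip051.G.I1_8_3_16.Tab.Mo.molF_A_102_00_1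 hκ hx hx') cutA_nil))) (cutA_cons (Pool.Agent.Strip051.G.I1_8_3_16.Tab.altF_A102E_00 hκ hx hx') (cutA_cons (Pool.Agent.Strip051.G.I1_8_3_16.Tab.Mo.molF_A_102_00_1 hκ hx hx') cutA_nil)))) noExt_A F trivial trivial

theorem FA00_pm_112 {κ x : ℝ} (hκ : κ * h0 = ken x) (hx : ((134217728 : ℕ) : ℝ) / S ≤ x) (hx' : x ≤ (((134217728 : ℕ) : ℝ) + (67108864 : ℕ)) / S) :
    TriA PP.cur (farS κ (h0 * x) (tbl tKF x) (tbl tL x)) 1 1 2 0 0 1 (-1) :=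
  (sideF hx hx').farA (Or.inl rfl) (Or.inr rfl) fun y y' F =>
    farA_cert (s1 := true) (s2 := false) rfl hκ covF01 covF01 hx hx'
        Pool.Agent.Strip051.G.I1_8_3_16.Tab.C.FA00.c_pm_112 (cutA_cons (Pool.Agent.Strip051.G.I1_8_3_16.Tab.St.C.s_A00pm_112_s1 hκ hx hx') (cutA_cons (Pool.Agent.Strip051.G.I1_8_3_16.Tab.St.C.s_A00pm_112_s3 hκ hx hx') cutA_nil)) noExt_A F trivial trivial

theorem FA00_pm_113 {κ x : ℝ} (hκ : κ * h0 = ken x) (hx : ((134217728 : ℕ) : ℝ) / S ≤ x) (hx' : x ≤ (((134217728 : ℕ) : ℝ) + (67108864 : ℕ)) / S) :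
    TriA PP.cur (farS κ (h0 * x) (tbl tKF x) (tbl tL x)) 1 1 3 0 0 1 (-1) :=
  (sideF hx hx').farA (Or.inl rfl) (Or.inr rfl) fun y y' F =>
    farA_cert (s1 := true) (s2 := false) rfl hκ covF01 covF01 hx hx'
        Pool.Agent.Strip051.G.I1_8_3_16.Tab.C.FA00.c_pm_113 (cutA_cons (Pool.Agent.Strip051.G.I1_8_3_16.Tab.St.C.s_A00pm_113_s1 hκ hx hx' (cutA_cons (Pool.Agent.Strip051.G.I1_8_3_16.Tab.alt12F_A113_00 hκ hx hx') cutA_nil)) (cutA_cons (Pool.Agent.Strip051.G.I1_8_3_16.Tab.St.C.s_A00pm_113_s3 hκ hx hx' (cutA_cons (Pool.Agent.Strip051.G.I1_8_3_16.Tab.alt12F_A113_00 hκ hx hx') cutA_nil)) (cutA_cons (Pool.Agent.Strip051.G.I1_8_3_16.Tab.alt12F_A113_00 hκ hx hx') cutA_nil))) noExt_A F trivial trivial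

theorem FA00_pm_123 {κ x : ℝ} (hκ : κ * h0 = ken x) (hx : ((134217728 : ℕ) : ℝ) / S ≤ x) (hx' : x ≤ (((134217728 : ℕ) : ℝ) + (67108864 : ℕ)) / S) :
    TriA PP.cur (farS κ (h0 * x) (tbl tKF x) (tbl tL x)) 1 2 3 0 0 1 (-1) :=
  (sideF hx hx').farA (Or.inl rfl) (Or.inr rfl) fun y y' F =>
    farA_cert (s1 := true) (s2 := false) rfl hκ covF01 covF02 hx hx'
        Pool.Agent.Strip051.G.I1_8_3_16.Tab.C.FA00.c_pm_123 (cutA_cons (Pool.Agent.Strip051.G.I1_8_3_16.Tab.St.C.s_A00pm_123_s1 hκ hx hx' (cutA_cons (Pool.Agent.Strip051.G.I1_8_3_16.Tab.DG.alt12F_A123_00 hκ hx hx') cutA_nil)) (cutA_cons (Pool.Agent.Strip051.G.I1_8_3_16.Tab.St.C.s_A00pm_123_s3 hκ hx hx' (cutA_cons (Pool.Agent.Strip051.G.I1_8_3_16.Tab.DG.alt12F_A123_00 hκ hx hx') cutA_nil)) (cutA_cons (Pool.Agent.Strip051.G.I1_8_3_16.Tab.DG.alt12F_A123_00 hκ hx hx') cutA_nil))) noExt_A F trivial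 trivial

theorem FA00_pm_133 {κ x : ℝ} (hκ : κ * h0 = ken x) (hx : ((134217728 : ℕ) : ℝ) / S ≤ x) (hx' : x ≤ (((134217728 : ℕ) : ℝ) + (67108864 : ℕ)) / S) :
    TriA PP.cur (farS κ (h0 * x) (tbl tKF x) (tbl tL x)) 1 3 3 0 0 1 (-1) :=
  triA_k0

theorem FA00_pm_202 {κ x : ℝ} (hκ : κ * h0 = ken x) (hx : ((134217728 : ℕ) : ℝ) / S ≤ x) (hx' : x ≤ (((134217728 : ℕ) : ℝ) + (67108864 : ℕ)) / S) :
    TriA PP.cur (farS κ (h0 * x) (tbl tKF x) (tbl tL x)) 2 0 2 0 0 1 (-1) :=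
  (sideF hx hx').farA (Or.inl rfl) (Or.inr rfl) fun y y' F =>
    farA_cert (s1 := true) (s2 := false) rfl hκ covF02 covF00 hx hx'
        Pool.Agent.Strip051.G.I1_8_3_16.Tab.C.FA00.c_pm_202 (cutA_cons (Pool.Agent.Strip051.G.I1_8_3_16.Tab.St.C.s_A00pm_202_s1 hκ hx hx' (cutA_cons (Pool.Agent.Strip051.G.I1_8_3_16.Tab.altF_A202E_00 hκ hx hx') (cutA_cons (Pool.Agent.Strip051.G.I1_8_3_16.Tab.Mo.molF_A_202_00_1 hκ hx hx') cutA_nil))) (cutA_cons (Pool.Agent.Strip051.G.I1_8_3_16.Tab.St.C.s_A00pm_202_s3 hκ hx hx' (cutA_cons (Pool.Agent.Strip051.G.I1_8_3_16.Tab.altF_A202E_00 hκ hx hx') (cutA_cons (Pool.Agent.Strip051.G.I1_8_3_16.Tab.Mo.molF_A_202_00_1 hκ hx hx') cutA_nil))) (cutA_cons (Pool.Agent.Strip051.G.I1_8_3_16.Tab.altF_A202E_00 hκ hx hx') (cutA_cons (Pool.Agent.Strip051.G.I1_8_3_16.Tab.Mo.molF_A_202_00_1 hκ hx hx') cutA_nil)))) noExt_A F trivial trivial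

theorem FA00_pm_203 {κ x : ℝ} (hκ : κ * h0 = ken x) (hx : ((134217728 : ℕ) : ℝ) / S ≤ x) (hx' : x ≤ (((134217728 : ℕ) : ℝ) + (67108864 : ℕ)) / S) :
    TriA PP.cur (farS κ (h0 * x) (tbl tKF x) (tbl tL x)) 2 0 3 0 0 1 (-1) :=
  (sideF hx hx').farA (Or.inl rfl) (Or.inr rfl) fun y y' F =>
    farA_cert (s1 := true) (s2 := false) rfl hκ covF02 covF00 hx hx'
        Pool.Agent.Strip051.G.I1_8_3_16.Tab.C.FA00.c_pm_203 (cutA_cons (Pool.Agent.Strip051.G.I1_8_3_16.Tab.St.C.s_A00pm_203_s1 hκ hx hx') (cutA_cons (Pool.Agent.Strip051.G.I1_8_3_16.Tab.St.C.s_A00pm_203_s3 hκ hx hx') cutA_nil)) noExt_A F trivial trivial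

theorem FA00_pm_213 {κ x : ℝ} (hκ : κ * h0 = ken x) (hx : ((134217728 : ℕ) : ℝ) / S ≤ x) (hx' : x ≤ (((134217728 : ℕ) : ℝ) + (67108864 : ℕ)) / S) :
    TriA PP.cur (farS κ (h0 * x) (tbl tKF x) (tbl tL x)) 2 1 3 0 0 1 (-1) :=
  (sideF hx hx').farA (Or.inl rfl) (Or.inr rfl) fun y y' F =>
    farA_cert (s1 := true) (s2 := false) rfl hκ covF02 covF01 hx hx'
        Pool.Agent.Strip051.G.I1_8_3_16.Tab.C.FA00.c_pm_213 (cutA_cons (Pool.Agent.Strip051.G.I1_8_3_16.Tab.St.C.s_A00pm_213_s1 hκ hx hx' (cutA_cons (Pool.Agent.Strip051.G.I1_8_3_16.Tab.DG.alt12F_A213_00 hκ hx hx') cutA_nil)) (cutA_cons (Pool.Agent.Strip051.G.I1_8_3_16.Tab.St.C.s_A00pm_213_s3 hκ hx hx' (cutA_cons (Pool.Agent.Strip051.G.I1_8_3_16.Tab.DG.alt12F_A213_00 hκ hx hx') cutA_nil)) (cutA_cons (Pool.Agent.Strip051.G.I1_8_3_16.Tab.DG.alt12F_A213_00 hκ hx hx') cutA_nil))) noExt_A F trivial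 trivial

theorem FA00_pm_303 {κ x : ℝ} (hκ : κ * h0 = ken x) (hx : ((134217728 : ℕ) : ℝ) / S ≤ x) (hx' : x ≤ (((134217728 : ℕ) : ℝ) + (67108864 : ℕ)) / S) :
    TriA PP.cur (farS κ (h0 * x) (tbl tKF x) (tbl tL x)) 3 0 3 0 0 1 (-1) :=
  triA_j0

theorem FA00_pm_313 {κ x : ℝ} (hκ : κ * h0 = ken x) (hx : ((134217728 : ℕ) : ℝ) / S ≤ x) (hx' : x ≤ (((134217728 : ℕ) : ℝ) + (67108864 : ℕ)) / S) :
    TriA PP.cur (farS κ (h0 * x) (tbl tKF x) (tbl tL x)) 3 1 3 0 0 1 (-1) :=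
  triA_j0

theorem FA00_mm_001 {κ x : ℝ} (hκ : κ * h0 = ken x) (hx : ((134217728 : ℕ) : ℝ) / S ≤ x) (hx' : x ≤ (((134217728 : ℕ) : ℝ) + (67108864 : ℕ)) / S) :
    TriA PP.cur (farS κ (h0 * x) (tbl tKF x) (tbl tL x)) 0 0 1 0 0 (-1) (-1) :=
  (sideF hx hx').farA (Or.inr rfl) (Or.inr rfl) fun y y' F =>
    farA_cert (s1 := false) (s2 := false) rfl hκ covF00 covF00 hx hx'
        Pool.Agent.Strip051.G.I1_8_3_16.Tab.C.FA00.c_mm_001 (cutA_cons (Pool.Agent.Strip051.G.I1_8_3_16.Tab.St.C.s_A00mm_001_s1 hκ hx hx') (cutA_cons (Pool.Agent.Strip051.G.I1_8_3_16.Tab.St.C.s_A00mm_001_s3 hκ hx hx') cutA_nil)) noExt_A F trivial trivial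

theorem FA00_mm_011 {κ x : ℝ} (hκ : κ * h0 = ken x) (hx : ((134217728 : ℕ) : ℝ) / S ≤ x) (hx' : x ≤ (((134217728 : ℕ) : ℝ) + (67108864 : ℕ)) / S) :
    TriA PP.cur (farS κ (h0 * x) (tbl tKF x) (tbl tL x)) 0 1 1 0 0 (-1) (-1) :=
  (sideF hx hx').farA (Or.inr rfl) (Or.inr rfl) fun y y' F =>
    farA_cert (s1 := false) (s2 := false) rfl hκ covF00 covF01 hx hx'
        Pool.Agent.Strip051.G.I1_8_3_16.Tab.C.FA00.c_mm_011 (cutA_cons (Pool.Agent.Strip051.G.I1_8_3_16.Tab.St.C.s_A00mm_011_s1 hκ hx hx') (cutA_cons (Pool.Agent.Strip051.G.I1_8_3_16.Tab.St.C.s_A00mm_011_s3 hκ hx hx') cutA_nil)) noExt_A F trivial trivial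

theorem FA00_mm_012 {κ x : ℝ} (hκ : κ * h0 = ken x) (hx : ((134217728 : ℕ) : ℝ) / S ≤ x) (hx' : x ≤ (((134217728 : ℕ) : ℝ) + (67108864 : ℕ)) / S) :
    TriA PP.cur (farS κ (h0 * x) (tbl tKF x) (tbl tL x)) 0 1 2 0 0 (-1) (-1) :=
  (sideF hx hx').farA (Or.inr rfl) (Or.inr rfl) fun y y' F =>
    farA_cert (s1 := false) (s2 := false) rfl hκ covF00 covF01 hx hx'
        Pool.Agent.Strip051.G.I1_8_3_16.Tab.C.FA00.c_mm_012 (cutA_cons (Pool.Agent.Strip051.G.I1_8_3_16.Tab.St.C.s_A00mm_012_s1 hκ hx hx') (cutA_cons (Pool.Agent.Strip051.G.I1_8_3_16.Tab.St.C.s_A00mm_012_s3 hκ hx hx') cutA_nil)) noExt_A F trivial trivial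

theorem FA00_mm_022 {κ x : ℝ} (hκ : κ * h0 = ken x) (hx : ((134217728 : ℕ) : ℝ) / S ≤ x) (hx' : x ≤ (((134217728 : ℕ) : ℝ) + (67108864 : ℕ)) / S) :
    TriA PP.cur (farS κ (h0 * x) (tbl tKF x) (tbl tL x)) 0 2 2 0 0 (-1) (-1) :=
  (sideF hx hx').farA (Or.inr rfl) (Or.inr rfl) fun y y' F =>
    farA_cert (s1 := false) (s2 := false) rfl hκ covF00 covF02 hx hx'
        Pool.Agent.Strip051.G.I1_8_3_16.Tab.C.FA00.c_mm_022 (cutA_cons (Pool.Agent.Strip051.G.I1_8_3_16.Tab.St.C.s_A00mm_022_s1 hκ hx hx') (cutA_cons (Pool.Agent.Strip051.G.I1_8_3_16.Tab.St.C.s_A00mm_022_s3 hκ hx hx') cutA_nil)) noExt_A F trivial trivial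

theorem FA00_mm_023 {κ x : ℝ} (hκ : κ * h0 = ken x) (hx : ((134217728 : ℕ) : ℝ) / S ≤ x) (hx' : x ≤ (((134217728 : ℕ) : ℝ) + (67108864 : ℕ)) / S) :
    TriA PP.cur (farS κ (h0 * x) (tbl tKF x) (tbl tL x)) 0 2 3 0 0 (-1) (-1) :=
  (sideF hx hx').farA (Or.inr rfl) (Or.inr rfl) fun y y' F =>
    farA_cert (s1 := false) (s2 := false) rfl hκ covF00 covF02 hx hx'
        Pool.Agent.Strip051.G.I1_8_3_16.Tab.C.FA00.c_mm_023 (cutA_cons (Pool.Agent.Strip051.G.I1_8_3_16.Tab.St.C.s_A00mm_023_s1 hκ hx hx') (cutA_cons (Pool.Agent.Strip051.G.I1_8_3_16.Tab.St.C.s_A00mm_023_s3 hκ hx hx') cutA_nil)) noExt_A F trivial trivial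

theorem FA00_mm_033 {κ x : ℝ} (hκ : κ * h0 = ken x) (hx : ((134217728 : ℕ) : ℝ) / S ≤ x) (hx' : x ≤ (((134217728 : ℕ) : ℝ) + (67108864 : ℕ)) / S) :
    TriA PP.cur (farS κ (h0 * x) (tbl tKF x) (tbl tL x)) 0 3 3 0 0 (-1) (-1) :=
  triA_k0

theorem FA00_mm_101 {κ x : ℝ} (hκ : κ * h0 = ken x) (hx : ((134217728 : ℕ) : ℝ) / S ≤ x) (hx' : x ≤ (((134217728 : ℕ) : ℝ) + (67108864 : ℕ)) / S) :
    TriA PP.cur (farS κ (h0 * x) (tbl tKF x) (tbl tL x)) 1 0 1 0 0 (-1) (-1) :=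
  (sideF hx hx').farA (Or.inr rfl) (Or.inr rfl) fun y y' F =>
    farA_cert (s1 := false) (s2 := false) rfl hκ covF01 covF00 hx hx'
        Pool.Agent.Strip051.G.I1_8_3_16.Tab.C.FA00.c_mm_101 (cutA_cons (Pool.Agent.Strip051.G.I1_8_3_16.Tab.St.C.s_A00mm_101_s1 hκ hx hx' (cutA_cons (Pool.Agent.Strip051.G.I1_8_3_16.Tab.altF_A101R_00 hκ hx hx') cutA_nil)) (cutA_cons (Pool.Agent.Strip051.G.I1_8_3_16.Tab.St.C.s_A00mm_101_s3 hκ hx hx' (cutA_cons (Pool.Agent.Strip051.G.I1_8_3_16.Tab.altF_A101R_00 hκ hx hx') cutA_nil)) (cutA_cons (Pool.Agent.Strip051.G.I1_8_3_16.Tab.altF_A101R_00 hκ hx hx') cutA_nil))) noExt_A F trivial trivial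

theorem FA00_mm_102 {κ x : ℝ} (hκ : κ * h0 = ken x) (hx : ((134217728 : ℕ) : ℝ) / S ≤ x) (hx' : x ≤ (((134217728 : ℕ) : ℝ) + (67108864 : ℕ)) / S) :
    TriA PP.cur (farS κ (h0 * x) (tbl tKF x) (tbl tL x)) 1 0 2 0 0 (-1) (-1) :=
  (sideF hx hx').farA (Or.inr rfl) (Or.inr rfl) fun y y' F =>
    farA_cert (s1 := false) (s2 := false) rfl hκ covF01 covF00 hx hx'
        Pool.Agent.Strip051.G.I1_8_3_16.Tab.C.FA00.c_mm_102 (cutA_cons (Pool.Agent.Strip051.G.I1_8_3_16.Tab.St.C.s_A00mm_102_s1 hκ hx hx' (cutA_cons (Pool.Agent.Strip051.G.I1_8_3_16.Tab.altF_A102R_00 hκ hx hx') cutA_nil)) (cutA_cons (Pool.Agent.Strip051.G.I1_8_3_16.Tab.St.C.s_A00mm_102_s3 hκ hx hx' (cutA_cons (Pool.Agent.Strip051.G.I1_8_3_16.Tab.altF_A102R_00 hκ hx hx') cutA_nil)) (cutA_cons (Pool.Agent.Strip051.G.I1_8_3_16.Tab.altF_A102R_00 hκ hx hx') cutA_nil))) noExt_A F trivial trivial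

theorem FA00_mm_112 {κ x : ℝ} (hκ : κ * h0 = ken x) (hx : ((134217728 : ℕ) : ℝ) / S ≤ x) (hx' : x ≤ (((134217728 : ℕ) : ℝ) + (67108864 : ℕ)) / S) :
    TriA PP.cur (farS κ (h0 * x) (tbl tKF x) (tbl tL x)) 1 1 2 0 0 (-1) (-1) :=
  (sideF hx hx').farA (Or.inr rfl) (Or.inr rfl) fun y y' F =>
    farA_cert (s1 := false) (s2 := false) rfl hκ covF01 covF01 hx hx'
        Pool.Agent.Strip051.G.I1_8_3_16.Tab.C.FA00.c_mm_112 (cutA_cons (Pool.Agent.Strip051.G.I1_8_3_16.Tab.St.C.s_A00mm_112_s1 hκ hx hx') (cutA_cons (Pool.Agent.Strip051.G.I1_8_3_16.Tab.St.C.s_A00mm_112_s3 hκ hx hx') cutA_nil)) noExt_A F trivial trivial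

theorem FA00_mm_113 {κ x : ℝ} (hκ : κ * h0 = ken x) (hx : ((134217728 : ℕ) : ℝ) / S ≤ x) (hx' : x ≤ (((134217728 : ℕ) : ℝ) + (67108864 : ℕ)) / S) :
    TriA PP.cur (farS κ (h0 * x) (tbl tKF x) (tbl tL x)) 1 1 3 0 0 (-1) (-1) :=
  (sideF hx hx').farA (Or.inr rfl) (Or.inr rfl) fun y y' F =>
    farA_cert (s1 := false) (s2 := false) rfl hκ covF01 covF01 hx hx'
        Pool.Agent.Strip051.G.I1_8_3_16.Tab.C.FA00.c_mm_113 (cutA_cons (Pool.Agent.Strip051.G.I1_8_3_16.Tab.St.C.s_A00mm_113_s1 hκ hx hx') (cutA_cons (Pool.Agent.Strip051.G.I1_8_3_16.Tab.St.C.s_A00mm_113_s3 hκ hx hx') cutA_nil)) noExt_A F trivial trivial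

theorem FA00_mm_123 {κ x : ℝ} (hκ : κ * h0 = ken x) (hx : ((134217728 : ℕ) : ℝ) / S ≤ x) (hx' : x ≤ (((134217728 : ℕ) : ℝ) + (67108864 : ℕ)) / S) :
    TriA PP.cur (farS κ (h0 * x) (tbl tKF x) (tbl tL x)) 1 2 3 0 0 (-1) (-1) :=
  (sideF hx hx').farA (Or.inr rfl) (Or.inr rfl) fun y y' F =>
    farA_cert (s1 := false) (s2 := false) rfl hκ covF01 covF02 hx hx'
        Pool.Agent.Strip051.G.I1_8_3_16.Tab.C.FA00.c_mm_123 (cutA_cons (Pool.Agent.Strip051.G.I1_8_3_16.Tab.St.C.s_A00mm_123_s1 hκ hx hx') (cutA_cons (Pool.Agent.Strip051.G.I1_8_3_16.Tab.St.C.s_A00mm_123_s3 hκ hx hx') cutA_nil)) noExt_A F trivial trivial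

theorem FA00_mm_133 {κ x : ℝ} (hκ : κ * h0 = ken x) (hx : ((134217728 : ℕ) : ℝ) / S ≤ x) (hx' : x ≤ (((134217728 : ℕ) : ℝ) + (67108864 : ℕ)) / S) :
    TriA PP.cur (farS κ (h0 * x) (tbl tKF x) (tbl tL x)) 1 3 3 0 0 (-1) (-1) :=
  triA_k0

theorem FA00_mm_202 {κ x : ℝ} (hκ : κ * h0 = ken x) (hx : ((134217728 : ℕ) : ℝ) / S ≤ x) (hx' : x ≤ (((134217728 : ℕ) : ℝ) + (67108864 : ℕ)) / S) :
    TriA PP.cur (farS κ (h0 * x) (tbl tKF x) (tbl tL x)) 2 0 2 0 0 (-1) (-1) :=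
  (sideF hx hx').farA (Or.inr rfl) (Or.inr rfl) fun y y' F =>
    farA_cert (s1 := false) (s2 := false) rfl hκ covF02 covF00 hx hx'
        Pool.Agent.Strip051.G.I1_8_3_16.Tab.C.FA00.c_mm_202 (cutA_cons (Pool.Agent.Strip051.G.I1_8_3_16.Tab.St.C.s_A00mm_202_s1 hκ hx hx' (cutA_cons (Pool.Agent.Strip051.G.I1_8_3_16.Tab.altF_A202R_00 hκ hx hx') cutA_nil)) (cutA_cons (Pool.Agent.Strip051.G.I1_8_3_16.Tab.St.C.s_A00mm_202_s3 hκ hx hx' (cutA_cons (Pool.Agent.Strip051.G.I1_8_3_16.Tab.altF_A202R_00 hκ hx hx') cutA_nil)) (cutA_cons (Pool.Agent.Strip051.G.I1_8_3_16.Tab.altF_A202R_00 hκ hx hx') cutA_nil))) noExt_A F trivial trivial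

theorem FA00_mm_203 {κ x : ℝ} (hκ : κ * h0 = ken x) (hx : ((134217728 : ℕ) : ℝ) / S ≤ x) (hx' : x ≤ (((134217728 : ℕ) : ℝ) + (67108864 : ℕ)) / S) :
    TriA PP.cur (farS κ (h0 * x) (tbl tKF x) (tbl tL x)) 2 0 3 0 0 (-1) (-1) :=
  (sideF hx hx').farA (Or.inr rfl) (Or.inr rfl) fun y y' F =>
    farA_cert (s1 := false) (s2 := false) rfl hκ covF02 covF00 hx hx'
        Pool.Agent.Strip051.G.I1_8_3_16.Tab.C.FA00.c_mm_203 (cutA_cons (Pool.Agent.Strip051.G.I1_8_3_16.Tab.St.C.s_A00mm_203_s1 hκ hx hx') (cutA_cons (Pool.Agent.Strip051.G.I1_8_3_16.Tab.St.C.s_A00mm_203_s3 hκ hx hx') cutA_nil)) noExt_A F trivial trivial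

theorem FA00_mm_213 {κ x : ℝ} (hκ : κ * h0 = ken x) (hx : ((134217728 : ℕ) : ℝ) / S ≤ x) (hx' : x ≤ (((134217728 : ℕ) : ℝ) + (67108864 : ℕ)) / S) :
    TriA PP.cur (farS κ (h0 * x) (tbl tKF x) (tbl tL x)) 2 1 3 0 0 (-1) (-1) :=
  (sideF hx hx').farA (Or.inr rfl) (Or.inr rfl) fun y y' F =>
    farA_cert (s1 := false) (s2 := false) rfl hκ covF02 covF01 hx hx'
        Pool.Agent.Strip051.G.I1_8_3_16.Tab.C.FA00.c_mm_213 (cutA_cons (Pool.Agent.Strip051.G.I1_8_3_16.Tab.St.C.s_A00mm_213_s1 hκ hx hx') (cutA_cons (Pool.Agent.Strip051.G.I1_8_3_16.Tab.St.C.s_A00mm_213_s3 hκ hx hx') cutA_nil)) noExt_A F trivial trivial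

theorem FA00_mm_303 {κ x : ℝ} (hκ : κ * h0 = ken x) (hx : ((134217728 : ℕ) : ℝ) / S ≤ x) (hx' : x ≤ (((134217728 : ℕ) : ℝ) + (67108864 : ℕ)) / S) :
    TriA PP.cur (farS κ (h0 * x) (tbl tKF x) (tbl tL x)) 3 0 3 0 0 (-1) (-1) :=
  triA_j0

theorem FA00_mm_313 {κ x : ℝ} (hκ : κ * h0 = ken x) (hx : ((134217728 : ℕ) : ℝ) / S ≤ x) (hx' : x ≤ (((134217728 : ℕ) : ℝ) + (67108864 : ℕ)) / S) :
    TriA PP.cur (farS κ (h0 * x) (tbl tKF x) (tbl tL x)) 3 1 3 0 0 (-1) (-1) :=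
  triA_j0

theorem FA00 {κ x : ℝ} (hκ : κ * h0 = ken x) (hx : ((134217728 : ℕ) : ℝ) / S ≤ x) (hx' : x ≤ (((134217728 : ℕ) : ℝ) + (67108864 : ℕ)) / S) : AllTA PP.cur (farS κ (h0 * x) (tbl tKF x) (tbl tL x)) 0 0 where
  pp := all17 (Q := fun a b c => TriA PP.cur (farS κ (h0 * x) (tbl tKF x) (tbl tL x)) a b c 0 0 1 1)
    (FA00_pp_001 hκ hx hx') (FA00_pp_011 hκ hx hx') (FA00_pp_012 hκ hx hx') (FA00_pp_022 hκ hx hx') (FA00_pp_023 hκ hx hx') (FA00_pp_033 hκ hx hx') (FA00_pp_101 hκ hx hx') (FA00_pp_102 hκ hx hx') (FA00_pp_112 hκ hx hx') (FA00_pp_113 hκ hx hx') (FA00_pp_123 hκ hx hx') (FA00_pp_133 hκ hx hx') (FA00_pp_202 hκ hx hx') (FA00_pp_203 hκ hx hx') (FA00_pp_213 hκ hx hx') (FA00_pp_303 hκ hx hx') (FA00_pp_313 hκ hx hx')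
  pm := all17 (Q := fun a b c => TriA PP.cur (farS κ (h0 * x) (tbl tKF x) (tbl tL x)) a b c 0 0 1 (-1))
    (FA00_pm_001 hκ hx hx') (FA00_pm_011 hκ hx hx') (FA00_pm_012 hκ hx hx') (FA00_pm_022 hκ hx hx') (FA00_pm_023 hκ hx hx') (FA00_pm_033 hκ hx hx') (FA00_pm_101 hκ hx hx') (FA00_pm_102 hκ hx hx') (FA00_pm_112 hκ hx hx') (FA00_pm_113 hκ hx hx') (FA00_pm_123 hκ hx hx') (FA00_pm_133 hκ hx hx') (FA00_pm_202 hκ hx hx') (FA00_pm_203 hκ hx hx') (FA00_pm_213 hκ hx hx') (FA00_pm_303 hκ hx hx') (FA00_pm_313 hκ hx hx')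
  mm := all17 (Q := fun a b c => TriA PP.cur (farS κ (h0 * x) (tbl tKF x) (tbl tL x)) a b c 0 0 (-1) (-1))
    (FA00_mm_001 hκ hx hx') (FA00_mm_011 hκ hx hx') (FA00_mm_012 hκ hx hx') (FA00_mm_022 hκ hx hx') (FA00_mm_023 hκ hx hx') (FA00_mm_033 hκ hx hx') (FA00_mm_101 hκ hx hx') (FA00_mm_102 hκ hx hx') (FA00_mm_112 hκ hx hx') (FA00_mm_113 hκ hx hx') (FA00_mm_123 hκ hx hx') (FA00_mm_133 hκ hx hx') (FA00_mm_202 hκ hx hx') (FA00_mm_203 hκ hx hx') (FA00_mm_213 hκ hx hx') (FA00_mm_303 hκ hx hx') (FA00_mm_313 hκ hx hx')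

theorem FA01_pp_001 {κ x : ℝ} (hκ : κ * h0 = ken x) (hx : ((134217728 : ℕ) : ℝ) / S ≤ x) (hx' : x ≤ (((134217728 : ℕ) : ℝ) + (67108864 : ℕ)) / S) :
    TriA PP.cur (farS κ (h0 * x) (tbl tKF x) (tbl tL x)) 0 0 1 0 1 1 1 :=
  (sideF hx hx').farA (Or.inl rfl) (Or.inl rfl) fun y y' F =>
    farA_cert (s1 := true) (s2 := true) rfl hκ covF00 covF10 hx hx'
        Pool.Agent.Strip051.G.I1_8_3_16.Tab.C.FA01.c_pp_001 noCut_A noExt_A F trivial trivial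

theorem FA01_pp_011 {κ x : ℝ} (hκ : κ * h0 = ken x) (hx : ((134217728 : ℕ) : ℝ) / S ≤ x) (hx' : x ≤ (((134217728 : ℕ) : ℝ) + (67108864 : ℕ)) / S) :
    TriA PP.cur (farS κ (h0 * x) (tbl tKF x) (tbl tL x)) 0 1 1 0 1 1 1 :=
  (sideF hx hx').farA (Or.inl rfl) (Or.inl rfl) fun y y' F =>
    farA_cert (s1 := true) (s2 := true) rfl hκ covF00 covF11 hx hx'
        Pool.Agent.Strip051.G.I1_8_3_16.Tab.C.FA01.c_pp_011 noCut_A noExt_A F trivial trivial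

theorem FA01_pp_012 {κ x : ℝ} (hκ : κ * h0 = ken x) (hx : ((134217728 : ℕ) : ℝ) / S ≤ x) (hx' : x ≤ (((134217728 : ℕ) : ℝ) + (67108864 : ℕ)) / S) :
    TriA PP.cur (farS κ (h0 * x) (tbl tKF x) (tbl tL x)) 0 1 2 0 1 1 1 :=
  (sideF hx hx').farA (Or.inl rfl) (Or.inl rfl) fun y y' F =>
    farA_cert (s1 := true) (s2 := true) rfl hκ covF00 covF11 hx hx'
        Pool.Agent.Strip051.G.I1_8_3_16.Tab.C.FA01.c_pp_012 noCut_A noExt_A F trivial trivial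

theorem FA01_pp_022 {κ x : ℝ} (hκ : κ * h0 = ken x) (hx : ((134217728 : ℕ) : ℝ) / S ≤ x) (hx' : x ≤ (((134217728 : ℕ) : ℝ) + (67108864 : ℕ)) / S) :
    TriA PP.cur (farS κ (h0 * x) (tbl tKF x) (tbl tL x)) 0 2 2 0 1 1 1 :=
  (sideF hx hx').farA (Or.inl rfl) (Or.inl rfl) fun y y' F =>
    (lt_or_ge (h0 * y') 1).elim
      (fun g => farA_cert (s1 := true) (s2 := true) rfl hκ covF00 covF12a hx hx'
        Pool.Agent.Strip051.G.I1_8_3_16.Tab.C.FA01.c_pp_022_a (cutA_cons (Pool.Agent.Strip051.G.I1_8_3_16.Tab.altF_A022L_01 hκ hx hx') cutA_nil) noExt_A F trivial g)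
      (fun g => farA_cert (s1 := true) (s2 := true) rfl hκ covF00 covF12b hx hx'
        Pool.Agent.Strip051.G.I1_8_3_16.Tab.C.FA01.c_pp_022_b (cutA_cons (Pool.Agent.Strip051.G.I1_8_3_16.Tab.altF_A022L_01 hκ hx hx') cutA_nil) noExt_A F trivial g)

theorem FA01_pp_023 {κ x : ℝ} (hκ : κ * h0 = ken x) (hx : ((134217728 : ℕ) : ℝ) / S ≤ x) (hx' : x ≤ (((134217728 : ℕ) : ℝ) + (67108864 : ℕ)) / S) :
    TriA PP.cur (farS κ (h0 * x) (tbl tKF x) (tbl tL x)) 0 2 3 0 1 1 1 :=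
  (sideF hx hx').farA (Or.inl rfl) (Or.inl rfl) fun y y' F =>
    (lt_or_ge (h0 * y') 1).elim
      (fun g => farA_cert (s1 := true) (s2 := true) rfl hκ covF00 covF12a hx hx'
        Pool.Agent.Strip051.G.I1_8_3_16.Tab.C.FA01.c_pp_023_a noCut_A noExt_A F trivial g)
      (fun g => farA_cert (s1 := true) (s2 := true) rfl hκ covF00 covF12b hx hx'
        Pool.Agent.Strip051.G.I1_8_3_16.Tab.C.FA01.c_pp_023_b noCut_A noExt_A F trivial g)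

theorem FA01_pp_033 {κ x : ℝ} (hκ : κ * h0 = ken x) (hx : ((134217728 : ℕ) : ℝ) / S ≤ x) (hx' : x ≤ (((134217728 : ℕ) : ℝ) + (67108864 : ℕ)) / S) :
    TriA PP.cur (farS κ (h0 * x) (tbl tKF x) (tbl tL x)) 0 3 3 0 1 1 1 :=
  (sideF hx hx').farA (Or.inl rfl) (Or.inl rfl) fun y y' F =>
    farA_cert (s1 := true) (s2 := true) rfl hκ covF00 covF13 hx hx'
        Pool.Agent.Strip051.G.I1_8_3_16.Tab.C.FA01.c_pp_033 noCut_A noExt_A F trivial trivial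

theorem FA01_pp_101 {κ x : ℝ} (hκ : κ * h0 = ken x) (hx : ((134217728 : ℕ) : ℝ) / S ≤ x) (hx' : x ≤ (((134217728 : ℕ) : ℝ) + (67108864 : ℕ)) / S) :
    TriA PP.cur (farS κ (h0 * x) (tbl tKF x) (tbl tL x)) 1 0 1 0 1 1 1 :=
  (sideF hx hx').farA (Or.inl rfl) (Or.inl rfl) fun y y' F =>
    farA_cert (s1 := true) (s2 := true) rfl hκ covF01 covF10 hx hx'
        Pool.Agent.Strip051.G.I1_8_3_16.Tab.C.FA01.c_pp_101 noCut_A noExt_A F trivial trivial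

theorem FA01_pp_102 {κ x : ℝ} (hκ : κ * h0 = ken x) (hx : ((134217728 : ℕ) : ℝ) / S ≤ x) (hx' : x ≤ (((134217728 : ℕ) : ℝ) + (67108864 : ℕ)) / S) :
    TriA PP.cur (farS κ (h0 * x) (tbl tKF x) (tbl tL x)) 1 0 2 0 1 1 1 :=
  (sideF hx hx').farA (Or.inl rfl) (Or.inl rfl) fun y y' F =>
    farA_cert (s1 := true) (s2 := true) rfl hκ covF01 covF10 hx hx'
        Pool.Agent.Strip051.G.I1_8_3_16.Tab.C.FA01.c_pp_102 noCut_A noExt_A F trivial trivial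

theorem FA01_pp_112 {κ x : ℝ} (hκ : κ * h0 = ken x) (hx : ((134217728 : ℕ) : ℝ) / S ≤ x) (hx' : x ≤ (((134217728 : ℕ) : ℝ) + (67108864 : ℕ)) / S) :
    TriA PP.cur (farS κ (h0 * x) (tbl tKF x) (tbl tL x)) 1 1 2 0 1 1 1 :=
  (sideF hx hx').farA (Or.inl rfl) (Or.inl rfl) fun y y' F =>
    farA_cert (s1 := true) (s2 := true) rfl hκ covF01 covF11 hx hx'
        Pool.Agent.Strip051.G.I1_8_3_16.Tab.C.FA01.c_pp_112 noCut_A noExt_A F trivial trivial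

theorem FA01_pp_113 {κ x : ℝ} (hκ : κ * h0 = ken x) (hx : ((134217728 : ℕ) : ℝ) / S ≤ x) (hx' : x ≤ (((134217728 : ℕ) : ℝ) + (67108864 : ℕ)) / S) :
    TriA PP.cur (farS κ (h0 * x) (tbl tKF x) (tbl tL x)) 1 1 3 0 1 1 1 :=
  (sideF hx hx').farA (Or.inl rfl) (Or.inl rfl) fun y y' F =>
    farA_cert (s1 := true) (s2 := true) rfl hκ covF01 covF11 hx hx'
        Pool.Agent.Strip051.G.I1_8_3_16.Tab.C.FA01.c_pp_113 noCut_A noExt_A F trivial trivial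

theorem FA01_pp_123 {κ x : ℝ} (hκ : κ * h0 = ken x) (hx : ((134217728 : ℕ) : ℝ) / S ≤ x) (hx' : x ≤ (((134217728 : ℕ) : ℝ) + (67108864 : ℕ)) / S) :
    TriA PP.cur (farS κ (h0 * x) (tbl tKF x) (tbl tL x)) 1 2 3 0 1 1 1 :=
  (sideF hx hx').farA (Or.inl rfl) (Or.inl rfl) fun y y' F =>
    (lt_or_ge (h0 * y') 1).elim
      (fun g => farA_cert (s1 := true) (s2 := true) rfl hκ covF01 covF12a hx hx'
        Pool.Agent.Strip051.G.I1_8_3_16.Tab.C.FA01.c_pp_123_a noCut_A noExt_A F trivial g)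
      (fun g => farA_cert (s1 := true) (s2 := true) rfl hκ covF01 covF12b hx hx'
        Pool.Agent.Strip051.G.I1_8_3_16.Tab.C.FA01.c_pp_123_b noCut_A noExt_A F trivial g)

theorem FA01_pp_133 {κ x : ℝ} (hκ : κ * h0 = ken x) (hx : ((134217728 : ℕ) : ℝ) / S ≤ x) (hx' : x ≤ (((134217728 : ℕ) : ℝ) + (67108864 : ℕ)) / S) :
    TriA PP.cur (farS κ (h0 * x) (tbl tKF x) (tbl tL x)) 1 3 3 0 1 1 1 :=
  (sideF hx hx').farA (Or.inl rfl) (Or.inl rfl) fun y y' F =>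
    farA_cert (s1 := true) (s2 := true) rfl hκ covF01 covF13 hx hx'
        Pool.Agent.Strip051.G.I1_8_3_16.Tab.C.FA01.c_pp_133 noCut_A noExt_A F trivial trivial

theorem FA01_pp_202 {κ x : ℝ} (hκ : κ * h0 = ken x) (hx : ((134217728 : ℕ) : ℝ) / S ≤ x) (hx' : x ≤ (((134217728 : ℕ) : ℝ) + (67108864 : ℕ)) / S) :
    TriA PP.cur (farS κ (h0 * x) (tbl tKF x) (tbl tL x)) 2 0 2 0 1 1 1 :=
  (sideF hx hx').farA (Or.inl rfl) (Or.inl rfl) fun y y' F =>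
    farA_cert (s1 := true) (s2 := true) rfl hκ covF02 covF10 hx hx'
        Pool.Agent.Strip051.G.I1_8_3_16.Tab.C.FA01.c_pp_202 noCut_A noExt_A F trivial trivial

theorem FA01_pp_203 {κ x : ℝ} (hκ : κ * h0 = ken x) (hx : ((134217728 : ℕ) : ℝ) / S ≤ x) (hx' : x ≤ (((134217728 : ℕ) : ℝ) + (67108864 : ℕ)) / S) :
    TriA PP.cur (farS κ (h0 * x) (tbl tKF x) (tbl tL x)) 2 0 3 0 1 1 1 :=
  (sideF hx hx').farA (Or.inl rfl) (Or.inl rfl) fun y y' F =>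
    farA_cert (s1 := true) (s2 := true) rfl hκ covF02 covF10 hx hx'
        Pool.Agent.Strip051.G.I1_8_3_16.Tab.C.FA01.c_pp_203 noCut_A noExt_A F trivial trivial

theorem FA01_pp_213 {κ x : ℝ} (hκ : κ * h0 = ken x) (hx : ((134217728 : ℕ) : ℝ) / S ≤ x) (hx' : x ≤ (((134217728 : ℕ) : ℝ) + (67108864 : ℕ)) / S) :
    TriA PP.cur (farS κ (h0 * x) (tbl tKF x) (tbl tL x)) 2 1 3 0 1 1 1 :=
  (sideF hx hx').farA (Or.inl rfl) (Or.inl rfl) fun y y' F =>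
    farA_cert (s1 := true) (s2 := true) rfl hκ covF02 covF11 hx hx'
        Pool.Agent.Strip051.G.I1_8_3_16.Tab.C.FA01.c_pp_213 noCut_A noExt_A F trivial trivial

theorem FA01_pp_303 {κ x : ℝ} (hκ : κ * h0 = ken x) (hx : ((134217728 : ℕ) : ℝ) / S ≤ x) (hx' : x ≤ (((134217728 : ℕ) : ℝ) + (67108864 : ℕ)) / S) :
    TriA PP.cur (farS κ (h0 * x) (tbl tKF x) (tbl tL x)) 3 0 3 0 1 1 1 :=
  triA_j0

theorem FA01_pp_313 {κ x : ℝ} (hκ : κ * h0 = ken x) (hx : ((134217728 : ℕ) : ℝ) / S ≤ x) (hx' : x ≤ (((134217728 : ℕ) : ℝ) + (67108864 : ℕ)) / S) :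
    TriA PP.cur (farS κ (h0 * x) (tbl tKF x) (tbl tL x)) 3 1 3 0 1 1 1 :=
  triA_j0

theorem FA01_pm_001 {κ x : ℝ} (hκ : κ * h0 = ken x) (hx : ((134217728 : ℕ) : ℝ) / S ≤ x) (hx' : x ≤ (((134217728 : ℕ) : ℝ) + (67108864 : ℕ)) / S) :
    TriA PP.cur (farS κ (h0 * x) (tbl tKF x) (tbl tL x)) 0 0 1 0 1 1 (-1) :=
  (sideF hx hx').farA (Or.inl rfl) (Or.inr rfl) fun y y' F =>
    farA_cert (s1 := true) (s2 := false) rfl hκ covF00 covF10 hx hx'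
        Pool.Agent.Strip051.G.I1_8_3_16.Tab.C.FA01.c_pm_001 noCut_A noExt_A F trivial trivial

theorem FA01_pm_011 {κ x : ℝ} (hκ : κ * h0 = ken x) (hx : ((134217728 : ℕ) : ℝ) / S ≤ x) (hx' : x ≤ (((134217728 : ℕ) : ℝ) + (67108864 : ℕ)) / S) :
    TriA PP.cur (farS κ (h0 * x) (tbl tKF x) (tbl tL x)) 0 1 1 0 1 1 (-1) :=
  (sideF hx hx').farA (Or.inl rfl) (Or.inr rfl) fun y y' F =>
    farA_cert (s1 := true) (s2 := false) rfl hκ covF00 covF11 hx hx'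
        Pool.Agent.Strip051.G.I1_8_3_16.Tab.C.FA01.c_pm_011 noCut_A noExt_A F trivial trivial

theorem FA01_pm_012 {κ x : ℝ} (hκ : κ * h0 = ken x) (hx : ((134217728 : ℕ) : ℝ) / S ≤ x) (hx' : x ≤ (((134217728 : ℕ) : ℝ) + (67108864 : ℕ)) / S) :
    TriA PP.cur (farS κ (h0 * x) (tbl tKF x) (tbl tL x)) 0 1 2 0 1 1 (-1) :=
  (sideF hx hx').farA (Or.inl rfl) (Or.inr rfl) fun y y' F =>
    farA_cert (s1 := true) (s2 := false) rfl hκ covF00 covF11 hx hx'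
        Pool.Agent.Strip051.G.I1_8_3_16.Tab.C.FA01.c_pm_012 noCut_A noExt_A F trivial trivial

theorem FA01_pm_022 {κ x : ℝ} (hκ : κ * h0 = ken x) (hx : ((134217728 : ℕ) : ℝ) / S ≤ x) (hx' : x ≤ (((134217728 : ℕ) : ℝ) + (67108864 : ℕ)) / S) :
    TriA PP.cur (farS κ (h0 * x) (tbl tKF x) (tbl tL x)) 0 2 2 0 1 1 (-1) :=
  (sideF hx hx').farA (Or.inl rfl) (Or.inr rfl) fun y y' F =>
    (lt_or_ge (h0 * y') 1).elim
      (fun g => farA_cert (s1 := true) (s2 := false) rfl hκ covF00 covF12a hx hx'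
        Pool.Agent.Strip051.G.I1_8_3_16.Tab.C.FA01.c_pm_022_a (cutA_cons (Pool.Agent.Strip051.G.I1_8_3_16.Tab.altF_A022E_01 hκ hx hx') (cutA_cons (Pool.Agent.Strip051.G.I1_8_3_16.Tab.Mo.molF_A_022_01_0 hκ hx hx') cutA_nil)) noExt_A F trivial g)
      (fun g => farA_cert (s1 := true) (s2 := false) rfl hκ covF00 covF12b hx hx'
        Pool.Agent.Strip051.G.I1_8_3_16.Tab.C.FA01.c_pm_022_b (cutA_cons (Pool.Agent.Strip051.G.I1_8_3_16.Tab.altF_A022E_01 hκ hx hx') (cutA_cons (Pool.Agent.Strip051.G.I1_8_3_16.Tab.Mo.molF_A_022_01_0 hκ hx hx') cutA_nil)) noExt_A F trivial g)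

theorem FA01_pm_023 {κ x : ℝ} (hκ : κ * h0 = ken x) (hx : ((134217728 : ℕ) : ℝ) / S ≤ x) (hx' : x ≤ (((134217728 : ℕ) : ℝ) + (67108864 : ℕ)) / S) :
    TriA PP.cur (farS κ (h0 * x) (tbl tKF x) (tbl tL x)) 0 2 3 0 1 1 (-1) :=
  (sideF hx hx').farA (Or.inl rfl) (Or.inr rfl) fun y y' F =>
    (lt_or_ge (h0 * y') 1).elim
      (fun g => farA_cert (s1 := true) (s2 := false) rfl hκ covF00 covF12a hx hx'
        Pool.Agent.Strip051.G.I1_8_3_16.Tab.C.FA01.c_pm_023_a noCut_A noExt_A F trivial g)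
      (fun g => farA_cert (s1 := true) (s2 := false) rfl hκ covF00 covF12b hx hx'
        Pool.Agent.Strip051.G.I1_8_3_16.Tab.C.FA01.c_pm_023_b noCut_A noExt_A F trivial g)

theorem FA01_pm_033 {κ x : ℝ} (hκ : κ * h0 = ken x) (hx : ((134217728 : ℕ) : ℝ) / S ≤ x) (hx' : x ≤ (((134217728 : ℕ) : ℝ) + (67108864 : ℕ)) / S) :
    TriA PP.cur (farS κ (h0 * x) (tbl tKF x) (tbl tL x)) 0 3 3 0 1 1 (-1) :=
  (sideF hx hx').farA (Or.inl rfl) (Or.inr rfl) fun y y' F =>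
    farA_cert (s1 := true) (s2 := false) rfl hκ covF00 covF13 hx hx'
        Pool.Agent.Strip051.G.I1_8_3_16.Tab.C.FA01.c_pm_033 noCut_A noExt_A F trivial trivial

theorem FA01_pm_101 {κ x : ℝ} (hκ : κ * h0 = ken x) (hx : ((134217728 : ℕ) : ℝ) / S ≤ x) (hx' : x ≤ (((134217728 : ℕ) : ℝ) + (67108864 : ℕ)) / S) :
    TriA PP.cur (farS κ (h0 * x) (tbl tKF x) (tbl tL x)) 1 0 1 0 1 1 (-1) :=
  (sideF hx hx').farA (Or.inl rfl) (Or.inr rfl) fun y y' F =>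
    farA_cert (s1 := true) (s2 := false) rfl hκ covF01 covF10 hx hx'
        Pool.Agent.Strip051.G.I1_8_3_16.Tab.C.FA01.c_pm_101 (cutA_cons (Pool.Agent.Strip051.G.I1_8_3_16.Tab.altF_A101E_01 hκ hx hx') cutA_nil) noExt_A F trivial trivial

theorem FA01_pm_102 {κ x : ℝ} (hκ : κ * h0 = ken x) (hx : ((134217728 : ℕ) : ℝ) / S ≤ x) (hx' : x ≤ (((134217728 : ℕ) : ℝ) + (67108864 : ℕ)) / S) :
    TriA PP.cur (farS κ (h0 * x) (tbl tKF x) (tbl tL x)) 1 0 2 0 1 1 (-1) :=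
  (sideF hx hx').farA (Or.inl rfl) (Or.inr rfl) fun y y' F =>
    farA_cert (s1 := true) (s2 := false) rfl hκ covF01 covF10 hx hx'
        Pool.Agent.Strip051.G.I1_8_3_16.Tab.C.FA01.c_pm_102 (cutA_cons (Pool.Agent.Strip051.G.I1_8_3_16.Tab.altF_A102E_01 hκ hx hx') cutA_nil) noExt_A F trivial trivial

theorem FA01_pm_112 {κ x : ℝ} (hκ : κ * h0 = ken x) (hx : ((134217728 : ℕ) : ℝ) / S ≤ x) (hx' : x ≤ (((134217728 : ℕ) : ℝ) + (67108864 : ℕ)) / S) :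
    TriA PP.cur (farS κ (h0 * x) (tbl tKF x) (tbl tL x)) 1 1 2 0 1 1 (-1) :=
  (sideF hx hx').farA (Or.inl rfl) (Or.inr rfl) fun y y' F =>
    farA_cert (s1 := true) (s2 := false) rfl hκ covF01 covF11 hx hx'
        Pool.Agent.Strip051.G.I1_8_3_16.Tab.C.FA01.c_pm_112 noCut_A noExt_A F trivial trivial

theorem FA01_pm_113 {κ x : ℝ} (hκ : κ * h0 = ken x) (hx : ((134217728 : ℕ) : ℝ) / S ≤ x) (hx' : x ≤ (((134217728 : ℕ) : ℝ) + (67108864 : ℕ)) / S) :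
    TriA PP.cur (farS κ (h0 * x) (tbl tKF x) (tbl tL x)) 1 1 3 0 1 1 (-1) :=
  (sideF hx hx').farA (Or.inl rfl) (Or.inr rfl) fun y y' F =>
    farA_cert (s1 := true) (s2 := false) rfl hκ covF01 covF11 hx hx'
        Pool.Agent.Strip051.G.I1_8_3_16.Tab.C.FA01.c_pm_113 noCut_A noExt_A F trivial trivial

theorem FA01_pm_123 {κ x : ℝ} (hκ : κ * h0 = ken x) (hx : ((134217728 : ℕ) : ℝ) / S ≤ x) (hx' : x ≤ (((134217728 : ℕ) : ℝ) + (67108864 : ℕ)) / S) :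
    TriA PP.cur (farS κ (h0 * x) (tbl tKF x) (tbl tL x)) 1 2 3 0 1 1 (-1) :=
  (sideF hx hx').farA (Or.inl rfl) (Or.inr rfl) fun y y' F =>
    (lt_or_ge (h0 * y') 1).elim
      (fun g => farA_cert (s1 := true) (s2 := false) rfl hκ covF01 covF12a hx hx'
        Pool.Agent.Strip051.G.I1_8_3_16.Tab.C.FA01.c_pm_123_a (cutA_cons (Pool.Agent.Strip051.G.I1_8_3_16.Tab.alt12cF_A123_01 hκ hx hx') cutA_nil) noExt_A F trivial g)
      (fun g => farA_cert (s1 := true) (s2 := false) rfl hκ covF01 covF12b hx hx'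
        Pool.Agent.Strip051.G.I1_8_3_16.Tab.C.FA01.c_pm_123_b (cutA_cons (Pool.Agent.Strip051.G.I1_8_3_16.Tab.alt12cF_A123_01 hκ hx hx') cutA_nil) noExt_A F trivial g)

theorem FA01_pm_133 {κ x : ℝ} (hκ : κ * h0 = ken x) (hx : ((134217728 : ℕ) : ℝ) / S ≤ x) (hx' : x ≤ (((134217728 : ℕ) : ℝ) + (67108864 : ℕ)) / S) :
    TriA PP.cur (farS κ (h0 * x) (tbl tKF x) (tbl tL x)) 1 3 3 0 1 1 (-1) :=
  (sideF hx hx').farA (Or.inl rfl) (Or.inr rfl) fun y y' F =>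
    farA_cert (s1 := true) (s2 := false) rfl hκ covF01 covF13 hx hx'
        Pool.Agent.Strip051.G.I1_8_3_16.Tab.C.FA01.c_pm_133 noCut_A noExt_A F trivial trivial

theorem FA01_pm_202 {κ x : ℝ} (hκ : κ * h0 = ken x) (hx : ((134217728 : ℕ) : ℝ) / S ≤ x) (hx' : x ≤ (((134217728 : ℕ) : ℝ) + (67108864 : ℕ)) / S) :
    TriA PP.cur (farS κ (h0 * x) (tbl tKF x) (tbl tL x)) 2 0 2 0 1 1 (-1) :=
  (sideF hx hx').farA (Or.inl rfl) (Or.inr rfl) fun y y' F =>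
    farA_cert (s1 := true) (s2 := false) rfl hκ covF02 covF10 hx hx'
        Pool.Agent.Strip051.G.I1_8_3_16.Tab.C.FA01.c_pm_202 (cutA_cons (Pool.Agent.Strip051.G.I1_8_3_16.Tab.altF_A202E_01 hκ hx hx') cutA_nil) noExt_A F trivial trivial

theorem FA01_pm_203 {κ x : ℝ} (hκ : κ * h0 = ken x) (hx : ((134217728 : ℕ) : ℝ) / S ≤ x) (hx' : x ≤ (((134217728 : ℕ) : ℝ) + (67108864 : ℕ)) / S) :
    TriA PP.cur (farS κ (h0 * x) (tbl tKF x) (tbl tL x)) 2 0 3 0 1 1 (-1) :=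
  (sideF hx hx').farA (Or.inl rfl) (Or.inr rfl) fun y y' F =>
    farA_cert (s1 := true) (s2 := false) rfl hκ covF02 covF10 hx hx'
        Pool.Agent.Strip051.G.I1_8_3_16.Tab.C.FA01.c_pm_203 noCut_A noExt_A F trivial trivial

theorem FA01_pm_213 {κ x : ℝ} (hκ : κ * h0 = ken x) (hx : ((134217728 : ℕ) : ℝ) / S ≤ x) (hx' : x ≤ (((134217728 : ℕ) : ℝ) + (67108864 : ℕ)) / S) :
    TriA PP.cur (farS κ (h0 * x) (tbl tKF x) (tbl tL x)) 2 1 3 0 1 1 (-1) :=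
  (sideF hx hx').farA (Or.inl rfl) (Or.inr rfl) fun y y' F =>
    farA_cert (s1 := true) (s2 := false) rfl hκ covF02 covF11 hx hx'
        Pool.Agent.Strip051.G.I1_8_3_16.Tab.C.FA01.c_pm_213 noCut_A noExt_A F trivial trivial

theorem FA01_pm_303 {κ x : ℝ} (hκ : κ * h0 = ken x) (hx : ((134217728 : ℕ) : ℝ) / S ≤ x) (hx' : x ≤ (((134217728 : ℕ) : ℝ) + (67108864 : ℕ)) / S) :
    TriA PP.cur (farS κ (h0 * x) (tbl tKF x) (tbl tL x)) 3 0 3 0 1 1 (-1) :=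
  triA_j0

theorem FA01_pm_313 {κ x : ℝ} (hκ : κ * h0 = ken x) (hx : ((134217728 : ℕ) : ℝ) / S ≤ x) (hx' : x ≤ (((134217728 : ℕ) : ℝ) + (67108864 : ℕ)) / S) :
    TriA PP.cur (farS κ (h0 * x) (tbl tKF x) (tbl tL x)) 3 1 3 0 1 1 (-1) :=
  triA_j0

theorem FA01_mm_001 {κ x : ℝ} (hκ : κ * h0 = ken x) (hx : ((134217728 : ℕ) : ℝ) / S ≤ x) (hx' : x ≤ (((134217728 : ℕ) : ℝ) + (67108864 : ℕ)) / S) :
    TriA PP.cur (farS κ (h0 * x) (tbl tKF x) (tbl tL x)) 0 0 1 0 1 (-1) (-1) :=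
  (sideF hx hx').farA (Or.inr rfl) (Or.inr rfl) fun y y' F =>
    farA_cert (s1 := false) (s2 := false) rfl hκ covF00 covF10 hx hx'
        Pool.Agent.Strip051.G.I1_8_3_16.Tab.C.FA01.c_mm_001 noCut_A noExt_A F trivial trivial

theorem FA01_mm_011 {κ x : ℝ} (hκ : κ * h0 = ken x) (hx : ((134217728 : ℕ) : ℝ) / S ≤ x) (hx' : x ≤ (((134217728 : ℕ) : ℝ) + (67108864 : ℕ)) / S) :
    TriA PP.cur (farS κ (h0 * x) (tbl tKF x) (tbl tL x)) 0 1 1 0 1 (-1) (-1) :=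
  (sideF hx hx').farA (Or.inr rfl) (Or.inr rfl) fun y y' F =>
    farA_cert (s1 := false) (s2 := false) rfl hκ covF00 covF11 hx hx'
        Pool.Agent.Strip051.G.I1_8_3_16.Tab.C.FA01.c_mm_011 noCut_A noExt_A F trivial trivial

theorem FA01_mm_012 {κ x : ℝ} (hκ : κ * h0 = ken x) (hx : ((134217728 : ℕ) : ℝ) / S ≤ x) (hx' : x ≤ (((134217728 : ℕ) : ℝ) + (67108864 : ℕ)) / S) :
    TriA PP.cur (farS κ (h0 * x) (tbl tKF x) (tbl tL x)) 0 1 2 0 1 (-1) (-1) :=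
  (sideF hx hx').farA (Or.inr rfl) (Or.inr rfl) fun y y' F =>
    farA_cert (s1 := false) (s2 := false) rfl hκ covF00 covF11 hx hx'
        Pool.Agent.Strip051.G.I1_8_3_16.Tab.C.FA01.c_mm_012 noCut_A noExt_A F trivial trivial

theorem FA01_mm_022 {κ x : ℝ} (hκ : κ * h0 = ken x) (hx : ((134217728 : ℕ) : ℝ) / S ≤ x) (hx' : x ≤ (((134217728 : ℕ) : ℝ) + (67108864 : ℕ)) / S) :
    TriA PP.cur (farS κ (h0 * x) (tbl tKF x) (tbl tL x)) 0 2 2 0 1 (-1) (-1) :=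
  (sideF hx hx').farA (Or.inr rfl) (Or.inr rfl) fun y y' F =>
    (lt_or_ge (h0 * y') 1).elim
      (fun g => farA_cert (s1 := false) (s2 := false) rfl hκ covF00 covF12a hx hx'
        Pool.Agent.Strip051.G.I1_8_3_16.Tab.C.FA01.c_mm_022_a noCut_A noExt_A F trivial g)
      (fun g => farA_cert (s1 := false) (s2 := false) rfl hκ covF00 covF12b hx hx'
        Pool.Agent.Strip051.G.I1_8_3_16.Tab.C.FA01.c_mm_022_b noCut_A noExt_A F trivial g)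

theorem FA01_mm_023 {κ x : ℝ} (hκ : κ * h0 = ken x) (hx : ((134217728 : ℕ) : ℝ) / S ≤ x) (hx' : x ≤ (((134217728 : ℕ) : ℝ) + (67108864 : ℕ)) / S) :
    TriA PP.cur (farS κ (h0 * x) (tbl tKF x) (tbl tL x)) 0 2 3 0 1 (-1) (-1) :=
  (sideF hx hx').farA (Or.inr rfl) (Or.inr rfl) fun y y' F =>
    (lt_or_ge (h0 * y') 1).elim
      (fun g => farA_cert (s1 := false) (s2 := false) rfl hκ covF00 covF12a hx hx'
        Pool.Agent.Strip051.G.I1_8_3_16.Tab.C.FA01.c_mm_023_a noCut_A noExt_A F trivial g)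
      (fun g => farA_cert (s1 := false) (s2 := false) rfl hκ covF00 covF12b hx hx'
        Pool.Agent.Strip051.G.I1_8_3_16.Tab.C.FA01.c_mm_023_b noCut_A noExt_A F trivial g)

theorem FA01_mm_033 {κ x : ℝ} (hκ : κ * h0 = ken x) (hx : ((134217728 : ℕ) : ℝ) / S ≤ x) (hx' : x ≤ (((134217728 : ℕ) : ℝ) + (67108864 : ℕ)) / S) :
    TriA PP.cur (farS κ (h0 * x) (tbl tKF x) (tbl tL x)) 0 3 3 0 1 (-1) (-1) :=
  (sideF hx hx').farA (Or.inr rfl) (Or.inr rfl) fun y y' F =>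
    farA_cert (s1 := false) (s2 := false) rfl hκ covF00 covF13 hx hx'
        Pool.Agent.Strip051.G.I1_8_3_16.Tab.C.FA01.c_mm_033 noCut_A noExt_A F trivial trivial

theorem FA01_mm_101 {κ x : ℝ} (hκ : κ * h0 = ken x) (hx : ((134217728 : ℕ) : ℝ) / S ≤ x) (hx' : x ≤ (((134217728 : ℕ) : ℝ) + (67108864 : ℕ)) / S) :
    TriA PP.cur (farS κ (h0 * x) (tbl tKF x) (tbl tL x)) 1 0 1 0 1 (-1) (-1) :=
  (sideF hx hx').farA (Or.inr rfl) (Or.inr rfl) fun y y' F =>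
    farA_cert (s1 := false) (s2 := false) rfl hκ covF01 covF10 hx hx'
        Pool.Agent.Strip051.G.I1_8_3_16.Tab.C.FA01.c_mm_101 (cutA_cons (Pool.Agent.Strip051.G.I1_8_3_16.Tab.altF_A101R_01 hκ hx hx') cutA_nil) noExt_A F trivial trivial

theorem FA01_mm_102 {κ x : ℝ} (hκ : κ * h0 = ken x) (hx : ((134217728 : ℕ) : ℝ) / S ≤ x) (hx' : x ≤ (((134217728 : ℕ) : ℝ) + (67108864 : ℕ)) / S) :
    TriA PP.cur (farS κ (h0 * x) (tbl tKF x) (tbl tL x)) 1 0 2 0 1 (-1) (-1) :=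
  (sideF hx hx').farA (Or.inr rfl) (Or.inr rfl) fun y y' F =>
    farA_cert (s1 := false) (s2 := false) rfl hκ covF01 covF10 hx hx'
        Pool.Agent.Strip051.G.I1_8_3_16.Tab.C.FA01.c_mm_102 (cutA_cons (Pool.Agent.Strip051.G.I1_8_3_16.Tab.altF_A102R_01 hκ hx hx') cutA_nil) noExt_A F trivial trivial

theorem FA01_mm_112 {κ x : ℝ} (hκ : κ * h0 = ken x) (hx : ((134217728 : ℕ) : ℝ) / S ≤ x) (hx' : x ≤ (((134217728 : ℕ) : ℝ) + (67108864 : ℕ)) / S) :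
    TriA PP.cur (farS κ (h0 * x) (tbl tKF x) (tbl tL x)) 1 1 2 0 1 (-1) (-1) :=
  (sideF hx hx').farA (Or.inr rfl) (Or.inr rfl) fun y y' F =>
    farA_cert (s1 := false) (s2 := false) rfl hκ covF01 covF11 hx hx'
        Pool.Agent.Strip051.G.I1_8_3_16.Tab.C.FA01.c_mm_112 noCut_A noExt_A F trivial trivial

theorem FA01_mm_113 {κ x : ℝ} (hκ : κ * h0 = ken x) (hx : ((134217728 : ℕ) : ℝ) / S ≤ x) (hx' : x ≤ (((134217728 : ℕ) : ℝ) + (67108864 : ℕ)) / S) :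
    TriA PP.cur (farS κ (h0 * x) (tbl tKF x) (tbl tL x)) 1 1 3 0 1 (-1) (-1) :=
  (sideF hx hx').farA (Or.inr rfl) (Or.inr rfl) fun y y' F =>
    farA_cert (s1 := false) (s2 := false) rfl hκ covF01 covF11 hx hx'
        Pool.Agent.Strip051.G.I1_8_3_16.Tab.C.FA01.c_mm_113 noCut_A noExt_A F trivial trivial

theorem FA01_mm_123 {κ x : ℝ} (hκ : κ * h0 = ken x) (hx : ((134217728 : ℕ) : ℝ) / S ≤ x) (hx' : x ≤ (((134217728 : ℕ) : ℝ) + (67108864 : ℕ)) / S) :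
    TriA PP.cur (farS κ (h0 * x) (tbl tKF x) (tbl tL x)) 1 2 3 0 1 (-1) (-1) :=
  (sideF hx hx').farA (Or.inr rfl) (Or.inr rfl) fun y y' F =>
    (lt_or_ge (h0 * y') 1).elim
      (fun g => farA_cert (s1 := false) (s2 := false) rfl hκ covF01 covF12a hx hx'
        Pool.Agent.Strip051.G.I1_8_3_16.Tab.C.FA01.c_mm_123_a noCut_A noExt_A F trivial g)
      (fun g => farA_cert (s1 := false) (s2 := false) rfl hκ covF01 covF12b hx hx'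
        Pool.Agent.Strip051.G.I1_8_3_16.Tab.C.FA01.c_mm_123_b noCut_A noExt_A F trivial g)

theorem FA01_mm_133 {κ x : ℝ} (hκ : κ * h0 = ken x) (hx : ((134217728 : ℕ) : ℝ) / S ≤ x) (hx' : x ≤ (((134217728 : ℕ) : ℝ) + (67108864 : ℕ)) / S) :
    TriA PP.cur (farS κ (h0 * x) (tbl tKF x) (tbl tL x)) 1 3 3 0 1 (-1) (-1) :=
  (sideF hx hx').farA (Or.inr rfl) (Or.inr rfl) fun y y' F =>
    farA_cert (s1 := false) (s2 := false) rfl hκ covF01 covF13 hx hx'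
        Pool.Agent.Strip051.G.I1_8_3_16.Tab.C.FA01.c_mm_133 noCut_A noExt_A F trivial trivial

theorem FA01_mm_202 {κ x : ℝ} (hκ : κ * h0 = ken x) (hx : ((134217728 : ℕ) : ℝ) / S ≤ x) (hx' : x ≤ (((134217728 : ℕ) : ℝ) + (67108864 : ℕ)) / S) :
    TriA PP.cur (farS κ (h0 * x) (tbl tKF x) (tbl tL x)) 2 0 2 0 1 (-1) (-1) :=
  (sideF hx hx').farA (Or.inr rfl) (Or.inr rfl) fun y y' F =>
    farA_cert (s1 := false) (s2 := false) rfl hκ covF02 covF10 hx hx'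
        Pool.Agent.Strip051.G.I1_8_3_16.Tab.C.FA01.c_mm_202 (cutA_cons (Pool.Agent.Strip051.G.I1_8_3_16.Tab.altF_A202R_01 hκ hx hx') cutA_nil) noExt_A F trivial trivial

theorem FA01_mm_203 {κ x : ℝ} (hκ : κ * h0 = ken x) (hx : ((134217728 : ℕ) : ℝ) / S ≤ x) (hx' : x ≤ (((134217728 : ℕ) : ℝ) + (67108864 : ℕ)) / S) :
    TriA PP.cur (farS κ (h0 * x) (tbl tKF x) (tbl tL x)) 2 0 3 0 1 (-1) (-1) :=
  (sideF hx hx').farA (Or.inr rfl) (Or.inr rfl) fun y y' F =>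
    farA_cert (s1 := false) (s2 := false) rfl hκ covF02 covF10 hx hx'
        Pool.Agent.Strip051.G.I1_8_3_16.Tab.C.FA01.c_mm_203 noCut_A noExt_A F trivial trivial

theorem FA01_mm_213 {κ x : ℝ} (hκ : κ * h0 = ken x) (hx : ((134217728 : ℕ) : ℝ) / S ≤ x) (hx' : x ≤ (((134217728 : ℕ) : ℝ) + (67108864 : ℕ)) / S) :
    TriA PP.cur (farS κ (h0 * x) (tbl tKF x) (tbl tL x)) 2 1 3 0 1 (-1) (-1) :=
  (sideF hx hx').farA (Or.inr rfl) (Or.inr rfl) fun y y' F =>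
    farA_cert (s1 := false) (s2 := false) rfl hκ covF02 covF11 hx hx'
        Pool.Agent.Strip051.G.I1_8_3_16.Tab.C.FA01.c_mm_213 noCut_A noExt_A F trivial trivial

theorem FA01_mm_303 {κ x : ℝ} (hκ : κ * h0 = ken x) (hx : ((134217728 : ℕ) : ℝ) / S ≤ x) (hx' : x ≤ (((134217728 : ℕ) : ℝ) + (67108864 : ℕ)) / S) :
    TriA PP.cur (farS κ (h0 * x) (tbl tKF x) (tbl tL x)) 3 0 3 0 1 (-1) (-1) :=
  triA_j0

theorem FA01_mm_313 {κ x : ℝ} (hκ : κ * h0 = ken x) (hx : ((134217728 : ℕ) : ℝ) / S ≤ x) (hx' : x ≤ (((134217728 : ℕ) : ℝ) + (67108864 : ℕ)) / S) :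
    TriA PP.cur (farS κ (h0 * x) (tbl tKF x) (tbl tL x)) 3 1 3 0 1 (-1) (-1) :=
  triA_j0

theorem FA01 {κ x : ℝ} (hκ : κ * h0 = ken x) (hx : ((134217728 : ℕ) : ℝ) / S ≤ x) (hx' : x ≤ (((134217728 : ℕ) : ℝ) + (67108864 : ℕ)) / S) : AllTA PP.cur (farS κ (h0 * x) (tbl tKF x) (tbl tL x)) 0 1 where
  pp := all17 (Q := fun a b c => TriA PP.cur (farS κ (h0 * x) (tbl tKF x) (tbl tL x)) a b c 0 1 1 1)
    (FA01_pp_001 hκ hx hx') (FA01_pp_011 hκ hx hx') (FA01_pp_012 hκ hx hx') (FA01_pp_022 hκ hx hx') (FA01_pp_023 hκ hx hx') (FA01_pp_033 hκ hx hx') (FA01_pp_101 hκ hx hx') (FA01_pp_102 hκ hx hx') (FA01_pp_112 hκ hx hx') (FA01_pp_113 hκ hx hx') (FA01_pp_123 hκ hx hx') (FA01_pp_133 hκ hx hx') (FA01_pp_202 hκ hx hx') (FA01_pp_203 hκ hx hx') (FA01_pp_213 hκ hx hx') (FA01_pp_303 hκ hx hx') (FA01_pp_313 hκ hx hx')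
  pm := all17 (Q := fun a b c => TriA PP.cur (farS κ (h0 * x) (tbl tKF x) (tbl tL x)) a b c 0 1 1 (-1))
    (FA01_pm_001 hκ hx hx') (FA01_pm_011 hκ hx hx') (FA01_pm_012 hκ hx hx') (FA01_pm_022 hκ hx hx') (FA01_pm_023 hκ hx hx') (FA01_pm_033 hκ hx hx') (FA01_pm_101 hκ hx hx') (FA01_pm_102 hκ hx hx') (FA01_pm_112 hκ hx hx') (FA01_pm_113 hκ hx hx') (FA01_pm_123 hκ hx hx') (FA01_pm_133 hκ hx hx') (FA01_pm_202 hκ hx hx') (FA01_pm_203 hκ hx hx') (FA01_pm_213 hκ hx hx') (FA01_pm_303 hκ hx hx') (FA01_pm_313 hκ hx hx')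
  mm := all17 (Q := fun a b c => TriA PP.cur (farS κ (h0 * x) (tbl tKF x) (tbl tL x)) a b c 0 1 (-1) (-1))
    (FA01_mm_001 hκ hx hx') (FA01_mm_011 hκ hx hx') (FA01_mm_012 hκ hx hx') (FA01_mm_022 hκ hx hx') (FA01_mm_023 hκ hx hx') (FA01_mm_033 hκ hx hx') (FA01_mm_101 hκ hx hx') (FA01_mm_102 hκ hx hx') (FA01_mm_112 hκ hx hx') (FA01_mm_113 hκ hx hx') (FA01_mm_123 hκ hx hx') (FA01_mm_133 hκ hx hx') (FA01_mm_202 hκ hx hx') (FA01_mm_203 hκ hx hx') (FA01_mm_213 hκ hx hx') (FA01_mm_303 hκ hx hx') (FA01_mm_313 hκ hx hx')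

theorem FA02_pp_001 {κ x : ℝ} (hκ : κ * h0 = ken x) (hx : ((134217728 : ℕ) : ℝ) / S ≤ x) (hx' : x ≤ (((134217728 : ℕ) : ℝ) + (67108864 : ℕ)) / S) :
    TriA PP.cur (farS κ (h0 * x) (tbl tKF x) (tbl tL x)) 0 0 1 0 2 1 1 :=
  (sideF hx hx').farA (Or.inl rfl) (Or.inl rfl) fun y y' F =>
    farA_cert (s1 := true) (s2 := true) rfl hκ covF00 covF20 hx hx'
        Pool.Agent.Strip051.G.I1_8_3_16.Tab.C.FA02.c_pp_001 noCut_A noExt_A F trivial trivial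

theorem FA02_pp_011 {κ x : ℝ} (hκ : κ * h0 = ken x) (hx : ((134217728 : ℕ) : ℝ) / S ≤ x) (hx' : x ≤ (((134217728 : ℕ) : ℝ) + (67108864 : ℕ)) / S) :
    TriA PP.cur (farS κ (h0 * x) (tbl tKF x) (tbl tL x)) 0 1 1 0 2 1 1 :=
  (sideF hx hx').farA (Or.inl rfl) (Or.inl rfl) fun y y' F =>
    farA_cert (s1 := true) (s2 := true) rfl hκ covF00 covF21 hx hx'
        Pool.Agent.Strip051.G.I1_8_3_16.Tab.C.FA02.c_pp_011 noCut_A noExt_A F trivial trivial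

theorem FA02_pp_012 {κ x : ℝ} (hκ : κ * h0 = ken x) (hx : ((134217728 : ℕ) : ℝ) / S ≤ x) (hx' : x ≤ (((134217728 : ℕ) : ℝ) + (67108864 : ℕ)) / S) :
    TriA PP.cur (farS κ (h0 * x) (tbl tKF x) (tbl tL x)) 0 1 2 0 2 1 1 :=
  (sideF hx hx').farA (Or.inl rfl) (Or.inl rfl) fun y y' F =>
    farA_cert (s1 := true) (s2 := true) rfl hκ covF00 covF21 hx hx'
        Pool.Agent.Strip051.G.I1_8_3_16.Tab.C.FA02.c_pp_012 noCut_A noExt_A F trivial trivial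

theorem FA02_pp_022 {κ x : ℝ} (hκ : κ * h0 = ken x) (hx : ((134217728 : ℕ) : ℝ) / S ≤ x) (hx' : x ≤ (((134217728 : ℕ) : ℝ) + (67108864 : ℕ)) / S) :
    TriA PP.cur (farS κ (h0 * x) (tbl tKF x) (tbl tL x)) 0 2 2 0 2 1 1 :=
  (sideF hx hx').farA (Or.inl rfl) (Or.inl rfl) fun y y' F =>
    (lt_or_ge (h0 * y') 1).elim
      (fun g => farA_cert (s1 := true) (s2 := true) rfl hκ covF00 covF22a hx hx'
        Pool.Agent.Strip051.G.I1_8_3_16.Tab.C.FA02.c_pp_022_a (cutA_cons (Pool.Agent.Strip051.G.I1_8_3_16.Tab.altF_A022L_02 hκ hx hx') cutA_nil) noExt_A F trivial g)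
      (fun g => farA_cert (s1 := true) (s2 := true) rfl hκ covF00 covF22b hx hx'
        Pool.Agent.Strip051.G.I1_8_3_16.Tab.C.FA02.c_pp_022_b (cutA_cons (Pool.Agent.Strip051.G.I1_8_3_16.Tab.altF_A022L_02 hκ hx hx') cutA_nil) noExt_A F trivial g)

theorem FA02_pp_023 {κ x : ℝ} (hκ : κ * h0 = ken x) (hx : ((134217728 : ℕ) : ℝ) / S ≤ x) (hx' : x ≤ (((134217728 : ℕ) : ℝ) + (67108864 : ℕ)) / S) :
    TriA PP.cur (farS κ (h0 * x) (tbl tKF x) (tbl tL x)) 0 2 3 0 2 1 1 :=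
  (sideF hx hx').farA (Or.inl rfl) (Or.inl rfl) fun y y' F =>
    (lt_or_ge (h0 * y') 1).elim
      (fun g => farA_cert (s1 := true) (s2 := true) rfl hκ covF00 covF22a hx hx'
        Pool.Agent.Strip051.G.I1_8_3_16.Tab.C.FA02.c_pp_023_a noCut_A noExt_A F trivial g)
      (fun g => farA_cert (s1 := true) (s2 := true) rfl hκ covF00 covF22b hx hx'
        Pool.Agent.Strip051.G.I1_8_3_16.Tab.C.FA02.c_pp_023_b noCut_A noExt_A F trivial g)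

theorem FA02_pp_033 {κ x : ℝ} (hκ : κ * h0 = ken x) (hx : ((134217728 : ℕ) : ℝ) / S ≤ x) (hx' : x ≤ (((134217728 : ℕ) : ℝ) + (67108864 : ℕ)) / S) :
    TriA PP.cur (farS κ (h0 * x) (tbl tKF x) (tbl tL x)) 0 3 3 0 2 1 1 :=
  (sideF hx hx').farA (Or.inl rfl) (Or.inl rfl) fun y y' F =>
    farA_cert (s1 := true) (s2 := true) rfl hκ covF00 covF23 hx hx'
        Pool.Agent.Strip051.G.I1_8_3_16.Tab.C.FA02.c_pp_033 noCut_A noExt_A F trivial trivial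

theorem FA02_pp_101 {κ x : ℝ} (hκ : κ * h0 = ken x) (hx : ((134217728 : ℕ) : ℝ) / S ≤ x) (hx' : x ≤ (((134217728 : ℕ) : ℝ) + (67108864 : ℕ)) / S) :
    TriA PP.cur (farS κ (h0 * x) (tbl tKF x) (tbl tL x)) 1 0 1 0 2 1 1 :=
  (sideF hx hx').farA (Or.inl rfl) (Or.inl rfl) fun y y' F =>
    farA_cert (s1 := true) (s2 := true) rfl hκ covF01 covF20 hx hx'
        Pool.Agent.Strip051.G.I1_8_3_16.Tab.C.FA02.c_pp_101 noCut_A noExt_A F trivial trivial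

theorem FA02_pp_102 {κ x : ℝ} (hκ : κ * h0 = ken x) (hx : ((134217728 : ℕ) : ℝ) / S ≤ x) (hx' : x ≤ (((134217728 : ℕ) : ℝ) + (67108864 : ℕ)) / S) :
    TriA PP.cur (farS κ (h0 * x) (tbl tKF x) (tbl tL x)) 1 0 2 0 2 1 1 :=
  (sideF hx hx').farA (Or.inl rfl) (Or.inl rfl) fun y y' F =>
    farA_cert (s1 := true) (s2 := true) rfl hκ covF01 covF20 hx hx'
        Pool.Agent.Strip051.G.I1_8_3_16.Tab.C.FA02.c_pp_102 noCut_A noExt_A F trivial trivial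

theorem FA02_pp_112 {κ x : ℝ} (hκ : κ * h0 = ken x) (hx : ((134217728 : ℕ) : ℝ) / S ≤ x) (hx' : x ≤ (((134217728 : ℕ) : ℝ) + (67108864 : ℕ)) / S) :
    TriA PP.cur (farS κ (h0 * x) (tbl tKF x) (tbl tL x)) 1 1 2 0 2 1 1 :=
  (sideF hx hx').farA (Or.inl rfl) (Or.inl rfl) fun y y' F =>
    farA_cert (s1 := true) (s2 := true) rfl hκ covF01 covF21 hx hx'
        Pool.Agent.Strip051.G.I1_8_3_16.Tab.C.FA02.c_pp_112 noCut_A noExt_A F trivial trivial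

theorem FA02_pp_113 {κ x : ℝ} (hκ : κ * h0 = ken x) (hx : ((134217728 : ℕ) : ℝ) / S ≤ x) (hx' : x ≤ (((134217728 : ℕ) : ℝ) + (67108864 : ℕ)) / S) :
    TriA PP.cur (farS κ (h0 * x) (tbl tKF x) (tbl tL x)) 1 1 3 0 2 1 1 :=
  (sideF hx hx').farA (Or.inl rfl) (Or.inl rfl) fun y y' F =>
    farA_cert (s1 := true) (s2 := true) rfl hκ covF01 covF21 hx hx'
        Pool.Agent.Strip051.G.I1_8_3_16.Tab.C.FA02.c_pp_113 noCut_A noExt_A F trivial trivial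

theorem FA02_pp_123 {κ x : ℝ} (hκ : κ * h0 = ken x) (hx : ((134217728 : ℕ) : ℝ) / S ≤ x) (hx' : x ≤ (((134217728 : ℕ) : ℝ) + (67108864 : ℕ)) / S) :
    TriA PP.cur (farS κ (h0 * x) (tbl tKF x) (tbl tL x)) 1 2 3 0 2 1 1 :=
  (sideF hx hx').farA (Or.inl rfl) (Or.inl rfl) fun y y' F =>
    (lt_or_ge (h0 * y') 1).elim
      (fun g => farA_cert (s1 := true) (s2 := true) rfl hκ covF01 covF22a hx hx'
        Pool.Agent.Strip051.G.I1_8_3_16.Tab.C.FA02.c_pp_123_a noCut_A noExt_A F trivial g)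
      (fun g => farA_cert (s1 := true) (s2 := true) rfl hκ covF01 covF22b hx hx'
        Pool.Agent.Strip051.G.I1_8_3_16.Tab.C.FA02.c_pp_123_b noCut_A noExt_A F trivial g)

theorem FA02_pp_133 {κ x : ℝ} (hκ : κ * h0 = ken x) (hx : ((134217728 : ℕ) : ℝ) / S ≤ x) (hx' : x ≤ (((134217728 : ℕ) : ℝ) + (67108864 : ℕ)) / S) :
    TriA PP.cur (farS κ (h0 * x) (tbl tKF x) (tbl tL x)) 1 3 3 0 2 1 1 :=
  (sideF hx hx').farA (Or.inl rfl) (Or.inl rfl) fun y y' F =>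
    farA_cert (s1 := true) (s2 := true) rfl hκ covF01 covF23 hx hx'
        Pool.Agent.Strip051.G.I1_8_3_16.Tab.C.FA02.c_pp_133 noCut_A noExt_A F trivial trivial

theorem FA02_pp_202 {κ x : ℝ} (hκ : κ * h0 = ken x) (hx : ((134217728 : ℕ) : ℝ) / S ≤ x) (hx' : x ≤ (((134217728 : ℕ) : ℝ) + (67108864 : ℕ)) / S) :
    TriA PP.cur (farS κ (h0 * x) (tbl tKF x) (tbl tL x)) 2 0 2 0 2 1 1 :=
  (sideF hx hx').farA (Or.inl rfl) (Or.inl rfl) fun y y' F =>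
    farA_cert (s1 := true) (s2 := true) rfl hκ covF02 covF20 hx hx'
        Pool.Agent.Strip051.G.I1_8_3_16.Tab.C.FA02.c_pp_202 noCut_A noExt_A F trivial trivial

theorem FA02_pp_203 {κ x : ℝ} (hκ : κ * h0 = ken x) (hx : ((134217728 : ℕ) : ℝ) / S ≤ x) (hx' : x ≤ (((134217728 : ℕ) : ℝ) + (67108864 : ℕ)) / S) :
    TriA PP.cur (farS κ (h0 * x) (tbl tKF x) (tbl tL x)) 2 0 3 0 2 1 1 :=
  (sideF hx hx').farA (Or.inl rfl) (Or.inl rfl) fun y y' F =>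
    farA_cert (s1 := true) (s2 := true) rfl hκ covF02 covF20 hx hx'
        Pool.Agent.Strip051.G.I1_8_3_16.Tab.C.FA02.c_pp_203 noCut_A noExt_A F trivial trivial

theorem FA02_pp_213 {κ x : ℝ} (hκ : κ * h0 = ken x) (hx : ((134217728 : ℕ) : ℝ) / S ≤ x) (hx' : x ≤ (((134217728 : ℕ) : ℝ) + (67108864 : ℕ)) / S) :
    TriA PP.cur (farS κ (h0 * x) (tbl tKF x) (tbl tL x)) 2 1 3 0 2 1 1 :=
  (sideF hx hx').farA (Or.inl rfl) (Or.inl rfl) fun y y' F =>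
    farA_cert (s1 := true) (s2 := true) rfl hκ covF02 covF21 hx hx'
        Pool.Agent.Strip051.G.I1_8_3_16.Tab.C.FA02.c_pp_213 noCut_A noExt_A F trivial trivial

theorem FA02_pp_303 {κ x : ℝ} (hκ : κ * h0 = ken x) (hx : ((134217728 : ℕ) : ℝ) / S ≤ x) (hx' : x ≤ (((134217728 : ℕ) : ℝ) + (67108864 : ℕ)) / S) :
    TriA PP.cur (farS κ (h0 * x) (tbl tKF x) (tbl tL x)) 3 0 3 0 2 1 1 :=
  triA_j0

theorem FA02_pp_313 {κ x : ℝ} (hκ : κ * h0 = ken x) (hx : ((134217728 : ℕ) : ℝ) / S ≤ x) (hx' : x ≤ (((134217728 : ℕ) : ℝ) + (67108864 : ℕ)) / S) :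
    TriA PP.cur (farS κ (h0 * x) (tbl tKF x) (tbl tL x)) 3 1 3 0 2 1 1 :=
  triA_j0

theorem FA02_pm_001 {κ x : ℝ} (hκ : κ * h0 = ken x) (hx : ((134217728 : ℕ) : ℝ) / S ≤ x) (hx' : x ≤ (((134217728 : ℕ) : ℝ) + (67108864 : ℕ)) / S) :
    TriA PP.cur (farS κ (h0 * x) (tbl tKF x) (tbl tL x)) 0 0 1 0 2 1 (-1) :=
  (sideF hx hx').farA (Or.inl rfl) (Or.inr rfl) fun y y' F =>
    farA_cert (s1 := true) (s2 := false) rfl hκ covF00 covF20 hx hx'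
        Pool.Agent.Strip051.G.I1_8_3_16.Tab.C.FA02.c_pm_001 noCut_A noExt_A F trivial trivial

theorem FA02_pm_011 {κ x : ℝ} (hκ : κ * h0 = ken x) (hx : ((134217728 : ℕ) : ℝ) / S ≤ x) (hx' : x ≤ (((134217728 : ℕ) : ℝ) + (67108864 : ℕ)) / S) :
    TriA PP.cur (farS κ (h0 * x) (tbl tKF x) (tbl tL x)) 0 1 1 0 2 1 (-1) :=
  (sideF hx hx').farA (Or.inl rfl) (Or.inr rfl) fun y y' F =>
    farA_cert (s1 := true) (s2 := false) rfl hκ covF00 covF21 hx hx'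
        Pool.Agent.Strip051.G.I1_8_3_16.Tab.C.FA02.c_pm_011 noCut_A noExt_A F trivial trivial

theorem FA02_pm_012 {κ x : ℝ} (hκ : κ * h0 = ken x) (hx : ((134217728 : ℕ) : ℝ) / S ≤ x) (hx' : x ≤ (((134217728 : ℕ) : ℝ) + (67108864 : ℕ)) / S) :
    TriA PP.cur (farS κ (h0 * x) (tbl tKF x) (tbl tL x)) 0 1 2 0 2 1 (-1) :=
  (sideF hx hx').farA (Or.inl rfl) (Or.inr rfl) fun y y' F =>
    farA_cert (s1 := true) (s2 := false) rfl hκ covF00 covF21 hx hx'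
        Pool.Agent.Strip051.G.I1_8_3_16.Tab.C.FA02.c_pm_012 noCut_A noExt_A F trivial trivial

theorem FA02_pm_022 {κ x : ℝ} (hκ : κ * h0 = ken x) (hx : ((134217728 : ℕ) : ℝ) / S ≤ x) (hx' : x ≤ (((134217728 : ℕ) : ℝ) + (67108864 : ℕ)) / S) :
    TriA PP.cur (farS κ (h0 * x) (tbl tKF x) (tbl tL x)) 0 2 2 0 2 1 (-1) :=
  (sideF hx hx').farA (Or.inl rfl) (Or.inr rfl) fun y y' F =>
    (lt_or_ge (h0 * y') 1).elim
      (fun g => farA_cert (s1 := true) (s2 := false) rfl hκ covF00 covF22a hx hx'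
        Pool.Agent.Strip051.G.I1_8_3_16.Tab.C.FA02.c_pm_022_a (cutA_cons (Pool.Agent.Strip051.G.I1_8_3_16.Tab.altF_A022E_02 hκ hx hx') (cutA_cons (Pool.Agent.Strip051.G.I1_8_3_16.Tab.Mo.molF_A_022_02_0 hκ hx hx') cutA_nil)) noExt_A F trivial g)
      (fun g => farA_cert (s1 := true) (s2 := false) rfl hκ covF00 covF22b hx hx'
        Pool.Agent.Strip051.G.I1_8_3_16.Tab.C.FA02.c_pm_022_b (cutA_cons (Pool.Agent.Strip051.G.I1_8_3_16.Tab.altF_A022E_02 hκ hx hx') (cutA_cons (Pool.Agent.Strip051.G.I1_8_3_16.Tab.Mo.molF_A_022_02_0 hκ hx hx') cutA_nil)) noExt_A F trivial g)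

theorem FA02_pm_023 {κ x : ℝ} (hκ : κ * h0 = ken x) (hx : ((134217728 : ℕ) : ℝ) / S ≤ x) (hx' : x ≤ (((134217728 : ℕ) : ℝ) + (67108864 : ℕ)) / S) :
    TriA PP.cur (farS κ (h0 * x) (tbl tKF x) (tbl tL x)) 0 2 3 0 2 1 (-1) :=
  (sideF hx hx').farA (Or.inl rfl) (Or.inr rfl) fun y y' F =>
    (lt_or_ge (h0 * y') 1).elim
      (fun g => farA_cert (s1 := true) (s2 := false) rfl hκ covF00 covF22a hx hx'
        Pool.Agent.Strip051.G.I1_8_3_16.Tab.C.FA02.c_pm_023_a noCut_A noExt_A F trivial g)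
      (fun g => farA_cert (s1 := true) (s2 := false) rfl hκ covF00 covF22b hx hx'
        Pool.Agent.Strip051.G.I1_8_3_16.Tab.C.FA02.c_pm_023_b noCut_A noExt_A F trivial g)

theorem FA02_pm_033 {κ x : ℝ} (hκ : κ * h0 = ken x) (hx : ((134217728 : ℕ) : ℝ) / S ≤ x) (hx' : x ≤ (((134217728 : ℕ) : ℝ) + (67108864 : ℕ)) / S) :
    TriA PP.cur (farS κ (h0 * x) (tbl tKF x) (tbl tL x)) 0 3 3 0 2 1 (-1) :=
  (sideF hx hx').farA (Or.inl rfl) (Or.inr rfl) fun y y' F =>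
    farA_cert (s1 := true) (s2 := false) rfl hκ covF00 covF23 hx hx'
        Pool.Agent.Strip051.G.I1_8_3_16.Tab.C.FA02.c_pm_033 noCut_A noExt_A F trivial trivial

theorem FA02_pm_101 {κ x : ℝ} (hκ : κ * h0 = ken x) (hx : ((134217728 : ℕ) : ℝ) / S ≤ x) (hx' : x ≤ (((134217728 : ℕ) : ℝ) + (67108864 : ℕ)) / S) :
    TriA PP.cur (farS κ (h0 * x) (tbl tKF x) (tbl tL x)) 1 0 1 0 2 1 (-1) :=
  (sideF hx hx').farA (Or.inl rfl) (Or.inr rfl) fun y y' F =>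
    farA_cert (s1 := true) (s2 := false) rfl hκ covF01 covF20 hx hx'
        Pool.Agent.Strip051.G.I1_8_3_16.Tab.C.FA02.c_pm_101 (cutA_cons (Pool.Agent.Strip051.G.I1_8_3_16.Tab.altF_A101E_02 hκ hx hx') cutA_nil) noExt_A F trivial trivial

theorem FA02_pm_102 {κ x : ℝ} (hκ : κ * h0 = ken x) (hx : ((134217728 : ℕ) : ℝ) / S ≤ x) (hx' : x ≤ (((134217728 : ℕ) : ℝ) + (67108864 : ℕ)) / S) :
    TriA PP.cur (farS κ (h0 * x) (tbl tKF x) (tbl tL x)) 1 0 2 0 2 1 (-1) :=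
  (sideF hx hx').farA (Or.inl rfl) (Or.inr rfl) fun y y' F =>
    farA_cert (s1 := true) (s2 := false) rfl hκ covF01 covF20 hx hx'
        Pool.Agent.Strip051.G.I1_8_3_16.Tab.C.FA02.c_pm_102 (cutA_cons (Pool.Agent.Strip051.G.I1_8_3_16.Tab.altF_A102E_02 hκ hx hx') cutA_nil) noExt_A F trivial trivial

theorem FA02_pm_112 {κ x : ℝ} (hκ : κ * h0 = ken x) (hx : ((134217728 : ℕ) : ℝ) / S ≤ x) (hx' : x ≤ (((134217728 : ℕ) : ℝ) + (67108864 : ℕ)) / S) :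
    TriA PP.cur (farS κ (h0 * x) (tbl tKF x) (tbl tL x)) 1 1 2 0 2 1 (-1) :=
  (sideF hx hx').farA (Or.inl rfl) (Or.inr rfl) fun y y' F =>
    farA_cert (s1 := true) (s2 := false) rfl hκ covF01 covF21 hx hx'
        Pool.Agent.Strip051.G.I1_8_3_16.Tab.C.FA02.c_pm_112 noCut_A noExt_A F trivial trivial

theorem FA02_pm_113 {κ x : ℝ} (hκ : κ * h0 = ken x) (hx : ((134217728 : ℕ) : ℝ) / S ≤ x) (hx' : x ≤ (((134217728 : ℕ) : ℝ) + (67108864 : ℕ)) / S) :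
    TriA PP.cur (farS κ (h0 * x) (tbl tKF x) (tbl tL x)) 1 1 3 0 2 1 (-1) :=
  (sideF hx hx').farA (Or.inl rfl) (Or.inr rfl) fun y y' F =>
    farA_cert (s1 := true) (s2 := false) rfl hκ covF01 covF21 hx hx'
        Pool.Agent.Strip051.G.I1_8_3_16.Tab.C.FA02.c_pm_113 noCut_A noExt_A F trivial trivial

theorem FA02_pm_123 {κ x : ℝ} (hκ : κ * h0 = ken x) (hx : ((134217728 : ℕ) : ℝ) / S ≤ x) (hx' : x ≤ (((134217728 : ℕ) : ℝ) + (67108864 : ℕ)) / S) :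
    TriA PP.cur (farS κ (h0 * x) (tbl tKF x) (tbl tL x)) 1 2 3 0 2 1 (-1) :=
  (sideF hx hx').farA (Or.inl rfl) (Or.inr rfl) fun y y' F =>
    (lt_or_ge (h0 * y') 1).elim
      (fun g => farA_cert (s1 := true) (s2 := false) rfl hκ covF01 covF22a hx hx'
        Pool.Agent.Strip051.G.I1_8_3_16.Tab.C.FA02.c_pm_123_a (cutA_cons (Pool.Agent.Strip051.G.I1_8_3_16.Tab.alt12cF_A123_02 hκ hx hx') cutA_nil) noExt_A F trivial g)
      (fun g => farA_cert (s1 := true) (s2 := false) rfl hκ covF01 covF22b hx hx'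
        Pool.Agent.Strip051.G.I1_8_3_16.Tab.C.FA02.c_pm_123_b (cutA_cons (Pool.Agent.Strip051.G.I1_8_3_16.Tab.alt12cF_A123_02 hκ hx hx') cutA_nil) noExt_A F trivial g)

theorem FA02_pm_133 {κ x : ℝ} (hκ : κ * h0 = ken x) (hx : ((134217728 : ℕ) : ℝ) / S ≤ x) (hx' : x ≤ (((134217728 : ℕ) : ℝ) + (67108864 : ℕ)) / S) :
    TriA PP.cur (farS κ (h0 * x) (tbl tKF x) (tbl tL x)) 1 3 3 0 2 1 (-1) :=
  (sideF hx hx').farA (Or.inl rfl) (Or.inr rfl) fun y y' F =>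
    farA_cert (s1 := true) (s2 := false) rfl hκ covF01 covF23 hx hx'
        Pool.Agent.Strip051.G.I1_8_3_16.Tab.C.FA02.c_pm_133 noCut_A noExt_A F trivial trivial

theorem FA02_pm_202 {κ x : ℝ} (hκ : κ * h0 = ken x) (hx : ((134217728 : ℕ) : ℝ) / S ≤ x) (hx' : x ≤ (((134217728 : ℕ) : ℝ) + (67108864 : ℕ)) / S) :
    TriA PP.cur (farS κ (h0 * x) (tbl tKF x) (tbl tL x)) 2 0 2 0 2 1 (-1) :=
  (sideF hx hx').farA (Or.inl rfl) (Or.inr rfl) fun y y' F =>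
    farA_cert (s1 := true) (s2 := false) rfl hκ covF02 covF20 hx hx'
        Pool.Agent.Strip051.G.I1_8_3_16.Tab.C.FA02.c_pm_202 (cutA_cons (Pool.Agent.Strip051.G.I1_8_3_16.Tab.altF_A202E_02 hκ hx hx') cutA_nil) noExt_A F trivial trivial

theorem FA02_pm_203 {κ x : ℝ} (hκ : κ * h0 = ken x) (hx : ((134217728 : ℕ) : ℝ) / S ≤ x) (hx' : x ≤ (((134217728 : ℕ) : ℝ) + (67108864 : ℕ)) / S) :
    TriA PP.cur (farS κ (h0 * x) (tbl tKF x) (tbl tL x)) 2 0 3 0 2 1 (-1) :=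
  (sideF hx hx').farA (Or.inl rfl) (Or.inr rfl) fun y y' F =>
    farA_cert (s1 := true) (s2 := false) rfl hκ covF02 covF20 hx hx'
        Pool.Agent.Strip051.G.I1_8_3_16.Tab.C.FA02.c_pm_203 noCut_A noExt_A F trivial trivial

theorem FA02_pm_213 {κ x : ℝ} (hκ : κ * h0 = ken x) (hx : ((134217728 : ℕ) : ℝ) / S ≤ x) (hx' : x ≤ (((134217728 : ℕ) : ℝ) + (67108864 : ℕ)) / S) :
    TriA PP.cur (farS κ (h0 * x) (tbl tKF x) (tbl tL x)) 2 1 3 0 2 1 (-1) :=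
  (sideF hx hx').farA (Or.inl rfl) (Or.inr rfl) fun y y' F =>
    farA_cert (s1 := true) (s2 := false) rfl hκ covF02 covF21 hx hx'
        Pool.Agent.Strip051.G.I1_8_3_16.Tab.C.FA02.c_pm_213 noCut_A noExt_A F trivial trivial

theorem FA02_pm_303 {κ x : ℝ} (hκ : κ * h0 = ken x) (hx : ((134217728 : ℕ) : ℝ) / S ≤ x) (hx' : x ≤ (((134217728 : ℕ) : ℝ) + (67108864 : ℕ)) / S) :
    TriA PP.cur (farS κ (h0 * x) (tbl tKF x) (tbl tL x)) 3 0 3 0 2 1 (-1) :=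
  triA_j0

theorem FA02_pm_313 {κ x : ℝ} (hκ : κ * h0 = ken x) (hx : ((134217728 : ℕ) : ℝ) / S ≤ x) (hx' : x ≤ (((134217728 : ℕ) : ℝ) + (67108864 : ℕ)) / S) :
    TriA PP.cur (farS κ (h0 * x) (tbl tKF x) (tbl tL x)) 3 1 3 0 2 1 (-1) :=
  triA_j0

theorem FA02_mm_001 {κ x : ℝ} (hκ : κ * h0 = ken x) (hx : ((134217728 : ℕ) : ℝ) / S ≤ x) (hx' : x ≤ (((134217728 : ℕ) : ℝ) + (67108864 : ℕ)) / S) :
    TriA PP.cur (farS κ (h0 * x) (tbl tKF x) (tbl tL x)) 0 0 1 0 2 (-1) (-1) :=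
  (sideF hx hx').farA (Or.inr rfl) (Or.inr rfl) fun y y' F =>
    farA_cert (s1 := false) (s2 := false) rfl hκ covF00 covF20 hx hx'
        Pool.Agent.Strip051.G.I1_8_3_16.Tab.C.FA02.c_mm_001 noCut_A noExt_A F trivial trivial

theorem FA02_mm_011 {κ x : ℝ} (hκ : κ * h0 = ken x) (hx : ((134217728 : ℕ) : ℝ) / S ≤ x) (hx' : x ≤ (((134217728 : ℕ) : ℝ) + (67108864 : ℕ)) / S) :
    TriA PP.cur (farS κ (h0 * x) (tbl tKF x) (tbl tL x)) 0 1 1 0 2 (-1) (-1) :=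
  (sideF hx hx').farA (Or.inr rfl) (Or.inr rfl) fun y y' F =>
    farA_cert (s1 := false) (s2 := false) rfl hκ covF00 covF21 hx hx'
        Pool.Agent.Strip051.G.I1_8_3_16.Tab.C.FA02.c_mm_011 noCut_A noExt_A F trivial trivial

theorem FA02_mm_012 {κ x : ℝ} (hκ : κ * h0 = ken x) (hx : ((134217728 : ℕ) : ℝ) / S ≤ x) (hx' : x ≤ (((134217728 : ℕ) : ℝ) + (67108864 : ℕ)) / S) :
    TriA PP.cur (farS κ (h0 * x) (tbl tKF x) (tbl tL x)) 0 1 2 0 2 (-1) (-1) :=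
  (sideF hx hx').farA (Or.inr rfl) (Or.inr rfl) fun y y' F =>
    farA_cert (s1 := false) (s2 := false) rfl hκ covF00 covF21 hx hx'
        Pool.Agent.Strip051.G.I1_8_3_16.Tab.C.FA02.c_mm_012 noCut_A noExt_A F trivial trivial

theorem FA02_mm_022 {κ x : ℝ} (hκ : κ * h0 = ken x) (hx : ((134217728 : ℕ) : ℝ) / S ≤ x) (hx' : x ≤ (((134217728 : ℕ) : ℝ) + (67108864 : ℕ)) / S) :
    TriA PP.cur (farS κ (h0 * x) (tbl tKF x) (tbl tL x)) 0 2 2 0 2 (-1) (-1) :=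
  (sideF hx hx').farA (Or.inr rfl) (Or.inr rfl) fun y y' F =>
    (lt_or_ge (h0 * y') 1).elim
      (fun g => farA_cert (s1 := false) (s2 := false) rfl hκ covF00 covF22a hx hx'
        Pool.Agent.Strip051.G.I1_8_3_16.Tab.C.FA02.c_mm_022_a noCut_A noExt_A F trivial g)
      (fun g => farA_cert (s1 := false) (s2 := false) rfl hκ covF00 covF22b hx hx'
        Pool.Agent.Strip051.G.I1_8_3_16.Tab.C.FA02.c_mm_022_b noCut_A noExt_A F trivial g)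

theorem FA02_mm_023 {κ x : ℝ} (hκ : κ * h0 = ken x) (hx : ((134217728 : ℕ) : ℝ) / S ≤ x) (hx' : x ≤ (((134217728 : ℕ) : ℝ) + (67108864 : ℕ)) / S) :
    TriA PP.cur (farS κ (h0 * x) (tbl tKF x) (tbl tL x)) 0 2 3 0 2 (-1) (-1) :=
  (sideF hx hx').farA (Or.inr rfl) (Or.inr rfl) fun y y' F =>
    (lt_or_ge (h0 * y') 1).elim
      (fun g => farA_cert (s1 := false) (s2 := false) rfl hκ covF00 covF22a hx hx'
        Pool.Agent.Strip051.G.I1_8_3_16.Tab.C.FA02.c_mm_023_a noCut_A noExt_A F trivial g)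
      (fun g => farA_cert (s1 := false) (s2 := false) rfl hκ covF00 covF22b hx hx'
        Pool.Agent.Strip051.G.I1_8_3_16.Tab.C.FA02.c_mm_023_b noCut_A noExt_A F trivial g)

theorem FA02_mm_033 {κ x : ℝ} (hκ : κ * h0 = ken x) (hx : ((134217728 : ℕ) : ℝ) / S ≤ x) (hx' : x ≤ (((134217728 : ℕ) : ℝ) + (67108864 : ℕ)) / S) :
    TriA PP.cur (farS κ (h0 * x) (tbl tKF x) (tbl tL x)) 0 3 3 0 2 (-1) (-1) :=
  (sideF hx hx').farA (Or.inr rfl) (Or.inr rfl) fun y y' F =>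
    farA_cert (s1 := false) (s2 := false) rfl hκ covF00 covF23 hx hx'
        Pool.Agent.Strip051.G.I1_8_3_16.Tab.C.FA02.c_mm_033 noCut_A noExt_A F trivial trivial

theorem FA02_mm_101 {κ x : ℝ} (hκ : κ * h0 = ken x) (hx : ((134217728 : ℕ) : ℝ) / S ≤ x) (hx' : x ≤ (((134217728 : ℕ) : ℝ) + (67108864 : ℕ)) / S) :
    TriA PP.cur (farS κ (h0 * x) (tbl tKF x) (tbl tL x)) 1 0 1 0 2 (-1) (-1) :=
  (sideF hx hx').farA (Or.inr rfl) (Or.inr rfl) fun y y' F =>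
    farA_cert (s1 := false) (s2 := false) rfl hκ covF01 covF20 hx hx'
        Pool.Agent.Strip051.G.I1_8_3_16.Tab.C.FA02.c_mm_101 (cutA_cons (Pool.Agent.Strip051.G.I1_8_3_16.Tab.altF_A101R_02 hκ hx hx') cutA_nil) noExt_A F trivial trivial

theorem FA02_mm_102 {κ x : ℝ} (hκ : κ * h0 = ken x) (hx : ((134217728 : ℕ) : ℝ) / S ≤ x) (hx' : x ≤ (((134217728 : ℕ) : ℝ) + (67108864 : ℕ)) / S) :
    TriA PP.cur (farS κ (h0 * x) (tbl tKF x) (tbl tL x)) 1 0 2 0 2 (-1) (-1) :=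
  (sideF hx hx').farA (Or.inr rfl) (Or.inr rfl) fun y y' F =>
    farA_cert (s1 := false) (s2 := false) rfl hκ covF01 covF20 hx hx'
        Pool.Agent.Strip051.G.I1_8_3_16.Tab.C.FA02.c_mm_102 (cutA_cons (Pool.Agent.Strip051.G.I1_8_3_16.Tab.altF_A102R_02 hκ hx hx') cutA_nil) noExt_A F trivial trivial

theorem FA02_mm_112 {κ x : ℝ} (hκ : κ * h0 = ken x) (hx : ((134217728 : ℕ) : ℝ) / S ≤ x) (hx' : x ≤ (((134217728 : ℕ) : ℝ) + (67108864 : ℕ)) / S) :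
    TriA PP.cur (farS κ (h0 * x) (tbl tKF x) (tbl tL x)) 1 1 2 0 2 (-1) (-1) :=
  (sideF hx hx').farA (Or.inr rfl) (Or.inr rfl) fun y y' F =>
    farA_cert (s1 := false) (s2 := false) rfl hκ covF01 covF21 hx hx'
        Pool.Agent.Strip051.G.I1_8_3_16.Tab.C.FA02.c_mm_112 noCut_A noExt_A F trivial trivial

theorem FA02_mm_113 {κ x : ℝ} (hκ : κ * h0 = ken x) (hx : ((134217728 : ℕ) : ℝ) / S ≤ x) (hx' : x ≤ (((134217728 : ℕ) : ℝ) + (67108864 : ℕ)) / S) :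
    TriA PP.cur (farS κ (h0 * x) (tbl tKF x) (tbl tL x)) 1 1 3 0 2 (-1) (-1) :=
  (sideF hx hx').farA (Or.inr rfl) (Or.inr rfl) fun y y' F =>
    farA_cert (s1 := false) (s2 := false) rfl hκ covF01 covF21 hx hx'
        Pool.Agent.Strip051.G.I1_8_3_16.Tab.C.FA02.c_mm_113 noCut_A noExt_A F trivial trivial

theorem FA02_mm_123 {κ x : ℝ} (hκ : κ * h0 = ken x) (hx : ((134217728 : ℕ) : ℝ) / S ≤ x) (hx' : x ≤ (((134217728 : ℕ) : ℝ) + (67108864 : ℕ)) / S) :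
    TriA PP.cur (farS κ (h0 * x) (tbl tKF x) (tbl tL x)) 1 2 3 0 2 (-1) (-1) :=
  (sideF hx hx').farA (Or.inr rfl) (Or.inr rfl) fun y y' F =>
    (lt_or_ge (h0 * y') 1).elim
      (fun g => farA_cert (s1 := false) (s2 := false) rfl hκ covF01 covF22a hx hx'
        Pool.Agent.Strip051.G.I1_8_3_16.Tab.C.FA02.c_mm_123_a noCut_A noExt_A F trivial g)
      (fun g => farA_cert (s1 := false) (s2 := false) rfl hκ covF01 covF22b hx hx'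
        Pool.Agent.Strip051.G.I1_8_3_16.Tab.C.FA02.c_mm_123_b noCut_A noExt_A F trivial g)

theorem FA02_mm_133 {κ x : ℝ} (hκ : κ * h0 = ken x) (hx : ((134217728 : ℕ) : ℝ) / S ≤ x) (hx' : x ≤ (((134217728 : ℕ) : ℝ) + (67108864 : ℕ)) / S) :
    TriA PP.cur (farS κ (h0 * x) (tbl tKF x) (tbl tL x)) 1 3 3 0 2 (-1) (-1) :=
  (sideF hx hx').farA (Or.inr rfl) (Or.inr rfl) fun y y' F =>
    farA_cert (s1 := false) (s2 := false) rfl hκ covF01 covF23 hx hx'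
        Pool.Agent.Strip051.G.I1_8_3_16.Tab.C.FA02.c_mm_133 noCut_A noExt_A F trivial trivial

theorem FA02_mm_202 {κ x : ℝ} (hκ : κ * h0 = ken x) (hx : ((134217728 : ℕ) : ℝ) / S ≤ x) (hx' : x ≤ (((134217728 : ℕ) : ℝ) + (67108864 : ℕ)) / S) :
    TriA PP.cur (farS κ (h0 * x) (tbl tKF x) (tbl tL x)) 2 0 2 0 2 (-1) (-1) :=
  (sideF hx hx').farA (Or.inr rfl) (Or.inr rfl) fun y y' F =>
    farA_cert (s1 := false) (s2 := false) rfl hκ covF02 covF20 hx hx'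
        Pool.Agent.Strip051.G.I1_8_3_16.Tab.C.FA02.c_mm_202 (cutA_cons (Pool.Agent.Strip051.G.I1_8_3_16.Tab.altF_A202R_02 hκ hx hx') cutA_nil) noExt_A F trivial trivial

theorem FA02_mm_203 {κ x : ℝ} (hκ : κ * h0 = ken x) (hx : ((134217728 : ℕ) : ℝ) / S ≤ x) (hx' : x ≤ (((134217728 : ℕ) : ℝ) + (67108864 : ℕ)) / S) :
    TriA PP.cur (farS κ (h0 * x) (tbl tKF x) (tbl tL x)) 2 0 3 0 2 (-1) (-1) :=
  (sideF hx hx').farA (Or.inr rfl) (Or.inr rfl) fun y y' F =>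
    farA_cert (s1 := false) (s2 := false) rfl hκ covF02 covF20 hx hx'
        Pool.Agent.Strip051.G.I1_8_3_16.Tab.C.FA02.c_mm_203 noCut_A noExt_A F trivial trivial

theorem FA02_mm_213 {κ x : ℝ} (hκ : κ * h0 = ken x) (hx : ((134217728 : ℕ) : ℝ) / S ≤ x) (hx' : x ≤ (((134217728 : ℕ) : ℝ) + (67108864 : ℕ)) / S) :
    TriA PP.cur (farS κ (h0 * x) (tbl tKF x) (tbl tL x)) 2 1 3 0 2 (-1) (-1) :=
  (sideF hx hx').farA (Or.inr rfl) (Or.inr rfl) fun y y' F =>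
    farA_cert (s1 := false) (s2 := false) rfl hκ covF02 covF21 hx hx'
        Pool.Agent.Strip051.G.I1_8_3_16.Tab.C.FA02.c_mm_213 noCut_A noExt_A F trivial trivial

theorem FA02_mm_303 {κ x : ℝ} (hκ : κ * h0 = ken x) (hx : ((134217728 : ℕ) : ℝ) / S ≤ x) (hx' : x ≤ (((134217728 : ℕ) : ℝ) + (67108864 : ℕ)) / S) :
    TriA PP.cur (farS κ (h0 * x) (tbl tKF x) (tbl tL x)) 3 0 3 0 2 (-1) (-1) :=
  triA_j0

theorem FA02_mm_313 {κ x : ℝ} (hκ : κ * h0 = ken x) (hx : ((134217728 : ℕ) : ℝ) / S ≤ x) (hx' : x ≤ (((134217728 : ℕ) : ℝ) + (67108864 : ℕ)) / S) :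
    TriA PP.cur (farS κ (h0 * x) (tbl tKF x) (tbl tL x)) 3 1 3 0 2 (-1) (-1) :=
  triA_j0

theorem FA02 {κ x : ℝ} (hκ : κ * h0 = ken x) (hx : ((134217728 : ℕ) : ℝ) / S ≤ x) (hx' : x ≤ (((134217728 : ℕ) : ℝ) + (67108864 : ℕ)) / S) : AllTA PP.cur (farS κ (h0 * x) (tbl tKF x) (tbl tL x)) 0 2 where
  pp := all17 (Q := fun a b c => TriA PP.cur (farS κ (h0 * x) (tbl tKF x) (tbl tL x)) a b c 0 2 1 1)
    (FA02_pp_001 hκ hx hx') (FA02_pp_011 hκ hx hx') (FA02_pp_012 hκ hx hx') (FA02_pp_022 hκ hx hx') (FA02_pp_023 hκ hx hx') (FA02_pp_033 hκ hx hx') (FA02_pp_101 hκ hx hx') (FA02_pp_102 hκ hx hx') (FA02_pp_112 hκ hx hx') (FA02_pp_113 hκ hx hx') (FA02_pp_123 hκ hx hx') (FA02_pp_133 hκ hx hx') (FA02_pp_202 hκ hx hx') (FA02_pp_203 hκ hx hx') (FA02_pp_213 hκ hx hx') (FA02_pp_303 hκ hx hx') (FA02_pp_313 hκ hx hx')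
  pm := all17 (Q := fun a b c => TriA PP.cur (farS κ (h0 * x) (tbl tKF x) (tbl tL x)) a b c 0 2 1 (-1))
    (FA02_pm_001 hκ hx hx') (FA02_pm_011 hκ hx hx') (FA02_pm_012 hκ hx hx') (FA02_pm_022 hκ hx hx') (FA02_pm_023 hκ hx hx') (FA02_pm_033 hκ hx hx') (FA02_pm_101 hκ hx hx') (FA02_pm_102 hκ hx hx') (FA02_pm_112 hκ hx hx') (FA02_pm_113 hκ hx hx') (FA02_pm_123 hκ hx hx') (FA02_pm_133 hκ hx hx') (FA02_pm_202 hκ hx hx') (FA02_pm_203 hκ hx hx') (FA02_pm_213 hκ hx hx') (FA02_pm_303 hκ hx hx') (FA02_pm_313 hκ hx hx')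
  mm := all17 (Q := fun a b c => TriA PP.cur (farS κ (h0 * x) (tbl tKF x) (tbl tL x)) a b c 0 2 (-1) (-1))
    (FA02_mm_001 hκ hx hx') (FA02_mm_011 hκ hx hx') (FA02_mm_012 hκ hx hx') (FA02_mm_022 hκ hx hx') (FA02_mm_023 hκ hx hx') (FA02_mm_033 hκ hx hx') (FA02_mm_101 hκ hx hx') (FA02_mm_102 hκ hx hx') (FA02_mm_112 hκ hx hx') (FA02_mm_113 hκ hx hx') (FA02_mm_123 hκ hx hx') (FA02_mm_133 hκ hx hx') (FA02_mm_202 hκ hx hx') (FA02_mm_203 hκ hx hx') (FA02_mm_213 hκ hx hx') (FA02_mm_303 hκ hx hx') (FA02_mm_313 hκ hx hx')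

theorem FA03_pp_001 {κ x : ℝ} (hκ : κ * h0 = ken x) (hx : ((134217728 : ℕ) : ℝ) / S ≤ x) (hx' : x ≤ (((134217728 : ℕ) : ℝ) + (67108864 : ℕ)) / S) :
    TriA PP.cur (farS κ (h0 * x) (tbl tKF x) (tbl tL x)) 0 0 1 0 3 1 1 :=
  (sideF hx hx').farA (Or.inl rfl) (Or.inl rfl) fun y y' F =>
    farA_cert (s1 := true) (s2 := true) rfl hκ covF00 covF30 hx hx'
        Pool.Agent.Strip051.G.I1_8_3_16.Tab.C.FA03.c_pp_001 noCut_A noExt_A F trivial trivial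

theorem FA03_pp_011 {κ x : ℝ} (hκ : κ * h0 = ken x) (hx : ((134217728 : ℕ) : ℝ) / S ≤ x) (hx' : x ≤ (((134217728 : ℕ) : ℝ) + (67108864 : ℕ)) / S) :
    TriA PP.cur (farS κ (h0 * x) (tbl tKF x) (tbl tL x)) 0 1 1 0 3 1 1 :=
  (sideF hx hx').farA (Or.inl rfl) (Or.inl rfl) fun y y' F =>
    farA_cert (s1 := true) (s2 := true) rfl hκ covF00 covF31 hx hx'
        Pool.Agent.Strip051.G.I1_8_3_16.Tab.C.FA03.c_pp_011 noCut_A noExt_A F trivial trivial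

theorem FA03_pp_012 {κ x : ℝ} (hκ : κ * h0 = ken x) (hx : ((134217728 : ℕ) : ℝ) / S ≤ x) (hx' : x ≤ (((134217728 : ℕ) : ℝ) + (67108864 : ℕ)) / S) :
    TriA PP.cur (farS κ (h0 * x) (tbl tKF x) (tbl tL x)) 0 1 2 0 3 1 1 :=
  (sideF hx hx').farA (Or.inl rfl) (Or.inl rfl) fun y y' F =>
    farA_cert (s1 := true) (s2 := true) rfl hκ covF00 covF31 hx hx'
        Pool.Agent.Strip051.G.I1_8_3_16.Tab.C.FA03.c_pp_012 noCut_A noExt_A F trivial trivial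

theorem FA03_pp_022 {κ x : ℝ} (hκ : κ * h0 = ken x) (hx : ((134217728 : ℕ) : ℝ) / S ≤ x) (hx' : x ≤ (((134217728 : ℕ) : ℝ) + (67108864 : ℕ)) / S) :
    TriA PP.cur (farS κ (h0 * x) (tbl tKF x) (tbl tL x)) 0 2 2 0 3 1 1 :=
  (sideF hx hx').farA (Or.inl rfl) (Or.inl rfl) fun y y' F =>
    farA_cert (s1 := true) (s2 := true) rfl hκ covF00 covF32 hx hx'
        Pool.Agent.Strip051.G.I1_8_3_16.Tab.C.FA03.c_pp_022 noCut_A noExt_A F trivial trivial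

theorem FA03_pp_023 {κ x : ℝ} (hκ : κ * h0 = ken x) (hx : ((134217728 : ℕ) : ℝ) / S ≤ x) (hx' : x ≤ (((134217728 : ℕ) : ℝ) + (67108864 : ℕ)) / S) :
    TriA PP.cur (farS κ (h0 * x) (tbl tKF x) (tbl tL x)) 0 2 3 0 3 1 1 :=
  (sideF hx hx').farA (Or.inl rfl) (Or.inl rfl) fun y y' F =>
    farA_cert (s1 := true) (s2 := true) rfl hκ covF00 covF32 hx hx'
        Pool.Agent.Strip051.G.I1_8_3_16.Tab.C.FA03.c_pp_023 noCut_A noExt_A F trivial trivial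

theorem FA03_pp_033 {κ x : ℝ} (hκ : κ * h0 = ken x) (hx : ((134217728 : ℕ) : ℝ) / S ≤ x) (hx' : x ≤ (((134217728 : ℕ) : ℝ) + (67108864 : ℕ)) / S) :
    TriA PP.cur (farS κ (h0 * x) (tbl tKF x) (tbl tL x)) 0 3 3 0 3 1 1 :=
  (sideF hx hx').farA (Or.inl rfl) (Or.inl rfl) fun y y' F =>
    farA_cert (s1 := true) (s2 := true) rfl hκ covF00 covF33 hx hx'
        Pool.Agent.Strip051.G.I1_8_3_16.Tab.C.FA03.c_pp_033 noCut_A noExt_A F trivial trivial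

theorem FA03_pp_101 {κ x : ℝ} (hκ : κ * h0 = ken x) (hx : ((134217728 : ℕ) : ℝ) / S ≤ x) (hx' : x ≤ (((134217728 : ℕ) : ℝ) + (67108864 : ℕ)) / S) :
    TriA PP.cur (farS κ (h0 * x) (tbl tKF x) (tbl tL x)) 1 0 1 0 3 1 1 :=
  (sideF hx hx').farA (Or.inl rfl) (Or.inl rfl) fun y y' F =>
    farA_cert (s1 := true) (s2 := true) rfl hκ covF01 covF30 hx hx'
        Pool.Agent.Strip051.G.I1_8_3_16.Tab.C.FA03.c_pp_101 noCut_A noExt_A F trivial trivial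

theorem FA03_pp_102 {κ x : ℝ} (hκ : κ * h0 = ken x) (hx : ((134217728 : ℕ) : ℝ) / S ≤ x) (hx' : x ≤ (((134217728 : ℕ) : ℝ) + (67108864 : ℕ)) / S) :
    TriA PP.cur (farS κ (h0 * x) (tbl tKF x) (tbl tL x)) 1 0 2 0 3 1 1 :=
  (sideF hx hx').farA (Or.inl rfl) (Or.inl rfl) fun y y' F =>
    farA_cert (s1 := true) (s2 := true) rfl hκ covF01 covF30 hx hx'
        Pool.Agent.Strip051.G.I1_8_3_16.Tab.C.FA03.c_pp_102 noCut_A noExt_A F trivial trivial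

theorem FA03_pp_112 {κ x : ℝ} (hκ : κ * h0 = ken x) (hx : ((134217728 : ℕ) : ℝ) / S ≤ x) (hx' : x ≤ (((134217728 : ℕ) : ℝ) + (67108864 : ℕ)) / S) :
    TriA PP.cur (farS κ (h0 * x) (tbl tKF x) (tbl tL x)) 1 1 2 0 3 1 1 :=
  (sideF hx hx').farA (Or.inl rfl) (Or.inl rfl) fun y y' F =>
    farA_cert (s1 := true) (s2 := true) rfl hκ covF01 covF31 hx hx'
        Pool.Agent.Strip051.G.I1_8_3_16.Tab.C.FA03.c_pp_112 noCut_A noExt_A F trivial trivial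

theorem FA03_pp_113 {κ x : ℝ} (hκ : κ * h0 = ken x) (hx : ((134217728 : ℕ) : ℝ) / S ≤ x) (hx' : x ≤ (((134217728 : ℕ) : ℝ) + (67108864 : ℕ)) / S) :
    TriA PP.cur (farS κ (h0 * x) (tbl tKF x) (tbl tL x)) 1 1 3 0 3 1 1 :=
  (sideF hx hx').farA (Or.inl rfl) (Or.inl rfl) fun y y' F =>
    farA_cert (s1 := true) (s2 := true) rfl hκ covF01 covF31 hx hx'
        Pool.Agent.Strip051.G.I1_8_3_16.Tab.C.FA03.c_pp_113 noCut_A noExt_A F trivial trivial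

theorem FA03_pp_123 {κ x : ℝ} (hκ : κ * h0 = ken x) (hx : ((134217728 : ℕ) : ℝ) / S ≤ x) (hx' : x ≤ (((134217728 : ℕ) : ℝ) + (67108864 : ℕ)) / S) :
    TriA PP.cur (farS κ (h0 * x) (tbl tKF x) (tbl tL x)) 1 2 3 0 3 1 1 :=
  (sideF hx hx').farA (Or.inl rfl) (Or.inl rfl) fun y y' F =>
    farA_cert (s1 := true) (s2 := true) rfl hκ covF01 covF32 hx hx'
        Pool.Agent.Strip051.G.I1_8_3_16.Tab.C.FA03.c_pp_123 noCut_A noExt_A F trivial trivial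

theorem FA03_pp_133 {κ x : ℝ} (hκ : κ * h0 = ken x) (hx : ((134217728 : ℕ) : ℝ) / S ≤ x) (hx' : x ≤ (((134217728 : ℕ) : ℝ) + (67108864 : ℕ)) / S) :
    TriA PP.cur (farS κ (h0 * x) (tbl tKF x) (tbl tL x)) 1 3 3 0 3 1 1 :=
  (sideF hx hx').farA (Or.inl rfl) (Or.inl rfl) fun y y' F =>
    farA_cert (s1 := true) (s2 := true) rfl hκ covF01 covF33 hx hx'
        Pool.Agent.Strip051.G.I1_8_3_16.Tab.C.FA03.c_pp_133 noCut_A noExt_A F trivial trivial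

theorem FA03_pp_202 {κ x : ℝ} (hκ : κ * h0 = ken x) (hx : ((134217728 : ℕ) : ℝ) / S ≤ x) (hx' : x ≤ (((134217728 : ℕ) : ℝ) + (67108864 : ℕ)) / S) :
    TriA PP.cur (farS κ (h0 * x) (tbl tKF x) (tbl tL x)) 2 0 2 0 3 1 1 :=
  (sideF hx hx').farA (Or.inl rfl) (Or.inl rfl) fun y y' F =>
    farA_cert (s1 := true) (s2 := true) rfl hκ covF02 covF30 hx hx'
        Pool.Agent.Strip051.G.I1_8_3_16.Tab.C.FA03.c_pp_202 noCut_A noExt_A F trivial trivial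

theorem FA03_pp_203 {κ x : ℝ} (hκ : κ * h0 = ken x) (hx : ((134217728 : ℕ) : ℝ) / S ≤ x) (hx' : x ≤ (((134217728 : ℕ) : ℝ) + (67108864 : ℕ)) / S) :
    TriA PP.cur (farS κ (h0 * x) (tbl tKF x) (tbl tL x)) 2 0 3 0 3 1 1 :=
  (sideF hx hx').farA (Or.inl rfl) (Or.inl rfl) fun y y' F =>
    farA_cert (s1 := true) (s2 := true) rfl hκ covF02 covF30 hx hx'
        Pool.Agent.Strip051.G.I1_8_3_16.Tab.C.FA03.c_pp_203 noCut_A noExt_A F trivial trivial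

theorem FA03_pp_213 {κ x : ℝ} (hκ : κ * h0 = ken x) (hx : ((134217728 : ℕ) : ℝ) / S ≤ x) (hx' : x ≤ (((134217728 : ℕ) : ℝ) + (67108864 : ℕ)) / S) :
    TriA PP.cur (farS κ (h0 * x) (tbl tKF x) (tbl tL x)) 2 1 3 0 3 1 1 :=
  (sideF hx hx').farA (Or.inl rfl) (Or.inl rfl) fun y y' F =>
    farA_cert (s1 := true) (s2 := true) rfl hκ covF02 covF31 hx hx'
        Pool.Agent.Strip051.G.I1_8_3_16.Tab.C.FA03.c_pp_213 noCut_A noExt_A F trivial trivial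

theorem FA03_pp_303 {κ x : ℝ} (hκ : κ * h0 = ken x) (hx : ((134217728 : ℕ) : ℝ) / S ≤ x) (hx' : x ≤ (((134217728 : ℕ) : ℝ) + (67108864 : ℕ)) / S) :
    TriA PP.cur (farS κ (h0 * x) (tbl tKF x) (tbl tL x)) 3 0 3 0 3 1 1 :=
  triA_j0

theorem FA03_pp_313 {κ x : ℝ} (hκ : κ * h0 = ken x) (hx : ((134217728 : ℕ) : ℝ) / S ≤ x) (hx' : x ≤ (((134217728 : ℕ) : ℝ) + (67108864 : ℕ)) / S) :
    TriA PP.cur (farS κ (h0 * x) (tbl tKF x) (tbl tL x)) 3 1 3 0 3 1 1 :=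
  triA_j0

theorem FA03_pm_001 {κ x : ℝ} (hκ : κ * h0 = ken x) (hx : ((134217728 : ℕ) : ℝ) / S ≤ x) (hx' : x ≤ (((134217728 : ℕ) : ℝ) + (67108864 : ℕ)) / S) :
    TriA PP.cur (farS κ (h0 * x) (tbl tKF x) (tbl tL x)) 0 0 1 0 3 1 (-1) :=
  (sideF hx hx').farA (Or.inl rfl) (Or.inr rfl) fun y y' F =>
    farA_cert (s1 := true) (s2 := false) rfl hκ covF00 covF30 hx hx'
        Pool.Agent.Strip051.G.I1_8_3_16.Tab.C.FA03.c_pm_001 noCut_A noExt_A F trivial trivial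

theorem FA03_pm_011 {κ x : ℝ} (hκ : κ * h0 = ken x) (hx : ((134217728 : ℕ) : ℝ) / S ≤ x) (hx' : x ≤ (((134217728 : ℕ) : ℝ) + (67108864 : ℕ)) / S) :
    TriA PP.cur (farS κ (h0 * x) (tbl tKF x) (tbl tL x)) 0 1 1 0 3 1 (-1) :=
  (sideF hx hx').farA (Or.inl rfl) (Or.inr rfl) fun y y' F =>
    farA_cert (s1 := true) (s2 := false) rfl hκ covF00 covF31 hx hx'
        Pool.Agent.Strip051.G.I1_8_3_16.Tab.C.FA03.c_pm_011 (cutA_cons (Pool.Agent.Strip051.G.I1_8_3_16.Tab.altF_A011R_03 hκ hx hx') cutA_nil) noExt_A F trivial trivial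

theorem FA03_pm_012 {κ x : ℝ} (hκ : κ * h0 = ken x) (hx : ((134217728 : ℕ) : ℝ) / S ≤ x) (hx' : x ≤ (((134217728 : ℕ) : ℝ) + (67108864 : ℕ)) / S) :
    TriA PP.cur (farS κ (h0 * x) (tbl tKF x) (tbl tL x)) 0 1 2 0 3 1 (-1) :=
  (sideF hx hx').farA (Or.inl rfl) (Or.inr rfl) fun y y' F =>
    farA_cert (s1 := true) (s2 := false) rfl hκ covF00 covF31 hx hx'
        Pool.Agent.Strip051.G.I1_8_3_16.Tab.C.FA03.c_pm_012 (cutA_cons (Pool.Agent.Strip051.G.I1_8_3_16.Tab.altF_A012R_03 hκ hx hx') cutA_nil) noExt_A F trivial trivial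

theorem FA03_pm_022 {κ x : ℝ} (hκ : κ * h0 = ken x) (hx : ((134217728 : ℕ) : ℝ) / S ≤ x) (hx' : x ≤ (((134217728 : ℕ) : ℝ) + (67108864 : ℕ)) / S) :
    TriA PP.cur (farS κ (h0 * x) (tbl tKF x) (tbl tL x)) 0 2 2 0 3 1 (-1) :=
  (sideF hx hx').farA (Or.inl rfl) (Or.inr rfl) fun y y' F =>
    farA_cert (s1 := true) (s2 := false) rfl hκ covF00 covF32 hx hx'
        Pool.Agent.Strip051.G.I1_8_3_16.Tab.C.FA03.c_pm_022 noCut_A noExt_A F trivial trivial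

theorem FA03_pm_023 {κ x : ℝ} (hκ : κ * h0 = ken x) (hx : ((134217728 : ℕ) : ℝ) / S ≤ x) (hx' : x ≤ (((134217728 : ℕ) : ℝ) + (67108864 : ℕ)) / S) :
    TriA PP.cur (farS κ (h0 * x) (tbl tKF x) (tbl tL x)) 0 2 3 0 3 1 (-1) :=
  (sideF hx hx').farA (Or.inl rfl) (Or.inr rfl) fun y y' F =>
    farA_cert (s1 := true) (s2 := false) rfl hκ covF00 covF32 hx hx'
        Pool.Agent.Strip051.G.I1_8_3_16.Tab.C.FA03.c_pm_023 noCut_A noExt_A F trivial trivial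

theorem FA03_pm_033 {κ x : ℝ} (hκ : κ * h0 = ken x) (hx : ((134217728 : ℕ) : ℝ) / S ≤ x) (hx' : x ≤ (((134217728 : ℕ) : ℝ) + (67108864 : ℕ)) / S) :
    TriA PP.cur (farS κ (h0 * x) (tbl tKF x) (tbl tL x)) 0 3 3 0 3 1 (-1) :=
  (sideF hx hx').farA (Or.inl rfl) (Or.inr rfl) fun y y' F =>
    farA_cert (s1 := true) (s2 := false) rfl hκ covF00 covF33 hx hx'
        Pool.Agent.Strip051.G.I1_8_3_16.Tab.C.FA03.c_pm_033 noCut_A noExt_A F trivial trivial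

theorem FA03_pm_101 {κ x : ℝ} (hκ : κ * h0 = ken x) (hx : ((134217728 : ℕ) : ℝ) / S ≤ x) (hx' : x ≤ (((134217728 : ℕ) : ℝ) + (67108864 : ℕ)) / S) :
    TriA PP.cur (farS κ (h0 * x) (tbl tKF x) (tbl tL x)) 1 0 1 0 3 1 (-1) :=
  (sideF hx hx').farA (Or.inl rfl) (Or.inr rfl) fun y y' F =>
    farA_cert (s1 := true) (s2 := false) rfl hκ covF01 covF30 hx hx'
        Pool.Agent.Strip051.G.I1_8_3_16.Tab.C.FA03.c_pm_101 noCut_A noExt_A F trivial trivial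

theorem FA03_pm_102 {κ x : ℝ} (hκ : κ * h0 = ken x) (hx : ((134217728 : ℕ) : ℝ) / S ≤ x) (hx' : x ≤ (((134217728 : ℕ) : ℝ) + (67108864 : ℕ)) / S) :
    TriA PP.cur (farS κ (h0 * x) (tbl tKF x) (tbl tL x)) 1 0 2 0 3 1 (-1) :=
  (sideF hx hx').farA (Or.inl rfl) (Or.inr rfl) fun y y' F =>
    farA_cert (s1 := true) (s2 := false) rfl hκ covF01 covF30 hx hx'
        Pool.Agent.Strip051.G.I1_8_3_16.Tab.C.FA03.c_pm_102 noCut_A noExt_A F trivial trivial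

theorem FA03_pm_112 {κ x : ℝ} (hκ : κ * h0 = ken x) (hx : ((134217728 : ℕ) : ℝ) / S ≤ x) (hx' : x ≤ (((134217728 : ℕ) : ℝ) + (67108864 : ℕ)) / S) :
    TriA PP.cur (farS κ (h0 * x) (tbl tKF x) (tbl tL x)) 1 1 2 0 3 1 (-1) :=
  (sideF hx hx').farA (Or.inl rfl) (Or.inr rfl) fun y y' F =>
    farA_cert (s1 := true) (s2 := false) rfl hκ covF01 covF31 hx hx'
        Pool.Agent.Strip051.G.I1_8_3_16.Tab.C.FA03.c_pm_112 noCut_A noExt_A F trivial trivial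

theorem FA03_pm_113 {κ x : ℝ} (hκ : κ * h0 = ken x) (hx : ((134217728 : ℕ) : ℝ) / S ≤ x) (hx' : x ≤ (((134217728 : ℕ) : ℝ) + (67108864 : ℕ)) / S) :
    TriA PP.cur (farS κ (h0 * x) (tbl tKF x) (tbl tL x)) 1 1 3 0 3 1 (-1) :=
  (sideF hx hx').farA (Or.inl rfl) (Or.inr rfl) fun y y' F =>
    farA_cert (s1 := true) (s2 := false) rfl hκ covF01 covF31 hx hx'
        Pool.Agent.Strip051.G.I1_8_3_16.Tab.C.FA03.c_pm_113 noCut_A noExt_A F trivial trivial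

theorem FA03_pm_123 {κ x : ℝ} (hκ : κ * h0 = ken x) (hx : ((134217728 : ℕ) : ℝ) / S ≤ x) (hx' : x ≤ (((134217728 : ℕ) : ℝ) + (67108864 : ℕ)) / S) :
    TriA PP.cur (farS κ (h0 * x) (tbl tKF x) (tbl tL x)) 1 2 3 0 3 1 (-1) :=
  (sideF hx hx').farA (Or.inl rfl) (Or.inr rfl) fun y y' F =>
    farA_cert (s1 := true) (s2 := false) rfl hκ covF01 covF32 hx hx'
        Pool.Agent.Strip051.G.I1_8_3_16.Tab.C.FA03.c_pm_123 noCut_A noExt_A F trivial trivial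

theorem FA03_pm_133 {κ x : ℝ} (hκ : κ * h0 = ken x) (hx : ((134217728 : ℕ) : ℝ) / S ≤ x) (hx' : x ≤ (((134217728 : ℕ) : ℝ) + (67108864 : ℕ)) / S) :
    TriA PP.cur (farS κ (h0 * x) (tbl tKF x) (tbl tL x)) 1 3 3 0 3 1 (-1) :=
  (sideF hx hx').farA (Or.inl rfl) (Or.inr rfl) fun y y' F =>
    farA_cert (s1 := true) (s2 := false) rfl hκ covF01 covF33 hx hx'
        Pool.Agent.Strip051.G.I1_8_3_16.Tab.C.FA03.c_pm_133 noCut_A noExt_A F trivial trivial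

theorem FA03_pm_202 {κ x : ℝ} (hκ : κ * h0 = ken x) (hx : ((134217728 : ℕ) : ℝ) / S ≤ x) (hx' : x ≤ (((134217728 : ℕ) : ℝ) + (67108864 : ℕ)) / S) :
    TriA PP.cur (farS κ (h0 * x) (tbl tKF x) (tbl tL x)) 2 0 2 0 3 1 (-1) :=
  (sideF hx hx').farA (Or.inl rfl) (Or.inr rfl) fun y y' F =>
    farA_cert (s1 := true) (s2 := false) rfl hκ covF02 covF30 hx hx'
        Pool.Agent.Strip051.G.I1_8_3_16.Tab.C.FA03.c_pm_202 noCut_A noExt_A F trivial trivial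

theorem FA03_pm_203 {κ x : ℝ} (hκ : κ * h0 = ken x) (hx : ((134217728 : ℕ) : ℝ) / S ≤ x) (hx' : x ≤ (((134217728 : ℕ) : ℝ) + (67108864 : ℕ)) / S) :
    TriA PP.cur (farS κ (h0 * x) (tbl tKF x) (tbl tL x)) 2 0 3 0 3 1 (-1) :=
  (sideF hx hx').farA (Or.inl rfl) (Or.inr rfl) fun y y' F =>
    farA_cert (s1 := true) (s2 := false) rfl hκ covF02 covF30 hx hx'
        Pool.Agent.Strip051.G.I1_8_3_16.Tab.C.FA03.c_pm_203 noCut_A noExt_A F trivial trivial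

theorem FA03_pm_213 {κ x : ℝ} (hκ : κ * h0 = ken x) (hx : ((134217728 : ℕ) : ℝ) / S ≤ x) (hx' : x ≤ (((134217728 : ℕ) : ℝ) + (67108864 : ℕ)) / S) :
    TriA PP.cur (farS κ (h0 * x) (tbl tKF x) (tbl tL x)) 2 1 3 0 3 1 (-1) :=
  (sideF hx hx').farA (Or.inl rfl) (Or.inr rfl) fun y y' F =>
    farA_cert (s1 := true) (s2 := false) rfl hκ covF02 covF31 hx hx'
        Pool.Agent.Strip051.G.I1_8_3_16.Tab.C.FA03.c_pm_213 noCut_A noExt_A F trivial trivial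

theorem FA03_pm_303 {κ x : ℝ} (hκ : κ * h0 = ken x) (hx : ((134217728 : ℕ) : ℝ) / S ≤ x) (hx' : x ≤ (((134217728 : ℕ) : ℝ) + (67108864 : ℕ)) / S) :
    TriA PP.cur (farS κ (h0 * x) (tbl tKF x) (tbl tL x)) 3 0 3 0 3 1 (-1) :=
  triA_j0

theorem FA03_pm_313 {κ x : ℝ} (hκ : κ * h0 = ken x) (hx : ((134217728 : ℕ) : ℝ) / S ≤ x) (hx' : x ≤ (((134217728 : ℕ) : ℝ) + (67108864 : ℕ)) / S) :
    TriA PP.cur (farS κ (h0 * x) (tbl tKF x) (tbl tL x)) 3 1 3 0 3 1 (-1) :=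
  triA_j0

theorem FA03_mm_001 {κ x : ℝ} (hκ : κ * h0 = ken x) (hx : ((134217728 : ℕ) : ℝ) / S ≤ x) (hx' : x ≤ (((134217728 : ℕ) : ℝ) + (67108864 : ℕ)) / S) :
    TriA PP.cur (farS κ (h0 * x) (tbl tKF x) (tbl tL x)) 0 0 1 0 3 (-1) (-1) :=
  (sideF hx hx').farA (Or.inr rfl) (Or.inr rfl) fun y y' F =>
    farA_cert (s1 := false) (s2 := false) rfl hκ covF00 covF30 hx hx'
        Pool.Agent.Strip051.G.I1_8_3_16.Tab.C.FA03.c_mm_001 noCut_A noExt_A F trivial trivial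

theorem FA03_mm_011 {κ x : ℝ} (hκ : κ * h0 = ken x) (hx : ((134217728 : ℕ) : ℝ) / S ≤ x) (hx' : x ≤ (((134217728 : ℕ) : ℝ) + (67108864 : ℕ)) / S) :
    TriA PP.cur (farS κ (h0 * x) (tbl tKF x) (tbl tL x)) 0 1 1 0 3 (-1) (-1) :=
  (sideF hx hx').farA (Or.inr rfl) (Or.inr rfl) fun y y' F =>
    farA_cert (s1 := false) (s2 := false) rfl hκ covF00 covF31 hx hx'
        Pool.Agent.Strip051.G.I1_8_3_16.Tab.C.FA03.c_mm_011 noCut_A noExt_A F trivial trivial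

theorem FA03_mm_012 {κ x : ℝ} (hκ : κ * h0 = ken x) (hx : ((134217728 : ℕ) : ℝ) / S ≤ x) (hx' : x ≤ (((134217728 : ℕ) : ℝ) + (67108864 : ℕ)) / S) :
    TriA PP.cur (farS κ (h0 * x) (tbl tKF x) (tbl tL x)) 0 1 2 0 3 (-1) (-1) :=
  (sideF hx hx').farA (Or.inr rfl) (Or.inr rfl) fun y y' F =>
    farA_cert (s1 := false) (s2 := false) rfl hκ covF00 covF31 hx hx'
        Pool.Agent.Strip051.G.I1_8_3_16.Tab.C.FA03.c_mm_012 noCut_A noExt_A F trivial trivial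

theorem FA03_mm_022 {κ x : ℝ} (hκ : κ * h0 = ken x) (hx : ((134217728 : ℕ) : ℝ) / S ≤ x) (hx' : x ≤ (((134217728 : ℕ) : ℝ) + (67108864 : ℕ)) / S) :
    TriA PP.cur (farS κ (h0 * x) (tbl tKF x) (tbl tL x)) 0 2 2 0 3 (-1) (-1) :=
  (sideF hx hx').farA (Or.inr rfl) (Or.inr rfl) fun y y' F =>
    farA_cert (s1 := false) (s2 := false) rfl hκ covF00 covF32 hx hx'
        Pool.Agent.Strip051.G.I1_8_3_16.Tab.C.FA03.c_mm_022 noCut_A noExt_A F trivial trivial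

theorem FA03_mm_023 {κ x : ℝ} (hκ : κ * h0 = ken x) (hx : ((134217728 : ℕ) : ℝ) / S ≤ x) (hx' : x ≤ (((134217728 : ℕ) : ℝ) + (67108864 : ℕ)) / S) :
    TriA PP.cur (farS κ (h0 * x) (tbl tKF x) (tbl tL x)) 0 2 3 0 3 (-1) (-1) :=
  (sideF hx hx').farA (Or.inr rfl) (Or.inr rfl) fun y y' F =>
    farA_cert (s1 := false) (s2 := false) rfl hκ covF00 covF32 hx hx'
        Pool.Agent.Strip051.G.I1_8_3_16.Tab.C.FA03.c_mm_023 noCut_A noExt_A F trivial trivial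

theorem FA03_mm_033 {κ x : ℝ} (hκ : κ * h0 = ken x) (hx : ((134217728 : ℕ) : ℝ) / S ≤ x) (hx' : x ≤ (((134217728 : ℕ) : ℝ) + (67108864 : ℕ)) / S) :
    TriA PP.cur (farS κ (h0 * x) (tbl tKF x) (tbl tL x)) 0 3 3 0 3 (-1) (-1) :=
  (sideF hx hx').farA (Or.inr rfl) (Or.inr rfl) fun y y' F =>
    farA_cert (s1 := false) (s2 := false) rfl hκ covF00 covF33 hx hx'
        Pool.Agent.Strip051.G.I1_8_3_16.Tab.C.FA03.c_mm_033 noCut_A noExt_A F trivial trivial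

theorem FA03_mm_101 {κ x : ℝ} (hκ : κ * h0 = ken x) (hx : ((134217728 : ℕ) : ℝ) / S ≤ x) (hx' : x ≤ (((134217728 : ℕ) : ℝ) + (67108864 : ℕ)) / S) :
    TriA PP.cur (farS κ (h0 * x) (tbl tKF x) (tbl tL x)) 1 0 1 0 3 (-1) (-1) :=
  (sideF hx hx').farA (Or.inr rfl) (Or.inr rfl) fun y y' F =>
    farA_cert (s1 := false) (s2 := false) rfl hκ covF01 covF30 hx hx'
        Pool.Agent.Strip051.G.I1_8_3_16.Tab.C.FA03.c_mm_101 noCut_A noExt_A F trivial trivial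

theorem FA03_mm_102 {κ x : ℝ} (hκ : κ * h0 = ken x) (hx : ((134217728 : ℕ) : ℝ) / S ≤ x) (hx' : x ≤ (((134217728 : ℕ) : ℝ) + (67108864 : ℕ)) / S) :
    TriA PP.cur (farS κ (h0 * x) (tbl tKF x) (tbl tL x)) 1 0 2 0 3 (-1) (-1) :=
  (sideF hx hx').farA (Or.inr rfl) (Or.inr rfl) fun y y' F =>
    farA_cert (s1 := false) (s2 := false) rfl hκ covF01 covF30 hx hx'
        Pool.Agent.Strip051.G.I1_8_3_16.Tab.C.FA03.c_mm_102 noCut_A noExt_A F trivial trivial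

theorem FA03_mm_112 {κ x : ℝ} (hκ : κ * h0 = ken x) (hx : ((134217728 : ℕ) : ℝ) / S ≤ x) (hx' : x ≤ (((134217728 : ℕ) : ℝ) + (67108864 : ℕ)) / S) :
    TriA PP.cur (farS κ (h0 * x) (tbl tKF x) (tbl tL x)) 1 1 2 0 3 (-1) (-1) :=
  (sideF hx hx').farA (Or.inr rfl) (Or.inr rfl) fun y y' F =>
    farA_cert (s1 := false) (s2 := false) rfl hκ covF01 covF31 hx hx'
        Pool.Agent.Strip051.G.I1_8_3_16.Tab.C.FA03.c_mm_112 noCut_A noExt_A F trivial trivial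

theorem FA03_mm_113 {κ x : ℝ} (hκ : κ * h0 = ken x) (hx : ((134217728 : ℕ) : ℝ) / S ≤ x) (hx' : x ≤ (((134217728 : ℕ) : ℝ) + (67108864 : ℕ)) / S) :
    TriA PP.cur (farS κ (h0 * x) (tbl tKF x) (tbl tL x)) 1 1 3 0 3 (-1) (-1) :=
  (sideF hx hx').farA (Or.inr rfl) (Or.inr rfl) fun y y' F =>
    farA_cert (s1 := false) (s2 := false) rfl hκ covF01 covF31 hx hx'
        Pool.Agent.Strip051.G.I1_8_3_16.Tab.C.FA03.c_mm_113 noCut_A noExt_A F trivial trivial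

theorem FA03_mm_123 {κ x : ℝ} (hκ : κ * h0 = ken x) (hx : ((134217728 : ℕ) : ℝ) / S ≤ x) (hx' : x ≤ (((134217728 : ℕ) : ℝ) + (67108864 : ℕ)) / S) :
    TriA PP.cur (farS κ (h0 * x) (tbl tKF x) (tbl tL x)) 1 2 3 0 3 (-1) (-1) :=
  (sideF hx hx').farA (Or.inr rfl) (Or.inr rfl) fun y y' F =>
    farA_cert (s1 := false) (s2 := false) rfl hκ covF01 covF32 hx hx'
        Pool.Agent.Strip051.G.I1_8_3_16.Tab.C.FA03.c_mm_123 noCut_A noExt_A F trivial trivial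

theorem FA03_mm_133 {κ x : ℝ} (hκ : κ * h0 = ken x) (hx : ((134217728 : ℕ) : ℝ) / S ≤ x) (hx' : x ≤ (((134217728 : ℕ) : ℝ) + (67108864 : ℕ)) / S) :
    TriA PP.cur (farS κ (h0 * x) (tbl tKF x) (tbl tL x)) 1 3 3 0 3 (-1) (-1) :=
  (sideF hx hx').farA (Or.inr rfl) (Or.inr rfl) fun y y' F =>
    farA_cert (s1 := false) (s2 := false) rfl hκ covF01 covF33 hx hx'
        Pool.Agent.Strip051.G.I1_8_3_16.Tab.C.FA03.c_mm_133 noCut_A noExt_A F trivial trivial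

theorem FA03_mm_202 {κ x : ℝ} (hκ : κ * h0 = ken x) (hx : ((134217728 : ℕ) : ℝ) / S ≤ x) (hx' : x ≤ (((134217728 : ℕ) : ℝ) + (67108864 : ℕ)) / S) :
    TriA PP.cur (farS κ (h0 * x) (tbl tKF x) (tbl tL x)) 2 0 2 0 3 (-1) (-1) :=
  (sideF hx hx').farA (Or.inr rfl) (Or.inr rfl) fun y y' F =>
    farA_cert (s1 := false) (s2 := false) rfl hκ covF02 covF30 hx hx'
        Pool.Agent.Strip051.G.I1_8_3_16.Tab.C.FA03.c_mm_202 noCut_A noExt_A F trivial trivial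

theorem FA03_mm_203 {κ x : ℝ} (hκ : κ * h0 = ken x) (hx : ((134217728 : ℕ) : ℝ) / S ≤ x) (hx' : x ≤ (((134217728 : ℕ) : ℝ) + (67108864 : ℕ)) / S) :
    TriA PP.cur (farS κ (h0 * x) (tbl tKF x) (tbl tL x)) 2 0 3 0 3 (-1) (-1) :=
  (sideF hx hx').farA (Or.inr rfl) (Or.inr rfl) fun y y' F =>
    farA_cert (s1 := false) (s2 := false) rfl hκ covF02 covF30 hx hx'
        Pool.Agent.Strip051.G.I1_8_3_16.Tab.C.FA03.c_mm_203 noCut_A noExt_A F trivial trivial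

theorem FA03_mm_213 {κ x : ℝ} (hκ : κ * h0 = ken x) (hx : ((134217728 : ℕ) : ℝ) / S ≤ x) (hx' : x ≤ (((134217728 : ℕ) : ℝ) + (67108864 : ℕ)) / S) :
    TriA PP.cur (farS κ (h0 * x) (tbl tKF x) (tbl tL x)) 2 1 3 0 3 (-1) (-1) :=
  (sideF hx hx').farA (Or.inr rfl) (Or.inr rfl) fun y y' F =>
    farA_cert (s1 := false) (s2 := false) rfl hκ covF02 covF31 hx hx'
        Pool.Agent.Strip051.G.I1_8_3_16.Tab.C.FA03.c_mm_213 noCut_A noExt_A F trivial trivial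

theorem FA03_mm_303 {κ x : ℝ} (hκ : κ * h0 = ken x) (hx : ((134217728 : ℕ) : ℝ) / S ≤ x) (hx' : x ≤ (((134217728 : ℕ) : ℝ) + (67108864 : ℕ)) / S) :
    TriA PP.cur (farS κ (h0 * x) (tbl tKF x) (tbl tL x)) 3 0 3 0 3 (-1) (-1) :=
  triA_j0

theorem FA03_mm_313 {κ x : ℝ} (hκ : κ * h0 = ken x) (hx : ((134217728 : ℕ) : ℝ) / S ≤ x) (hx' : x ≤ (((134217728 : ℕ) : ℝ) + (67108864 : ℕ)) / S) :
    TriA PP.cur (farS κ (h0 * x) (tbl tKF x) (tbl tL x)) 3 1 3 0 3 (-1) (-1) :=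
  triA_j0

theorem FA03 {κ x : ℝ} (hκ : κ * h0 = ken x) (hx : ((134217728 : ℕ) : ℝ) / S ≤ x) (hx' : x ≤ (((134217728 : ℕ) : ℝ) + (67108864 : ℕ)) / S) : AllTA PP.cur (farS κ (h0 * x) (tbl tKF x) (tbl tL x)) 0 3 where
  pp := all17 (Q := fun a b c => TriA PP.cur (farS κ (h0 * x) (tbl tKF x) (tbl tL x)) a b c 0 3 1 1)
    (FA03_pp_001 hκ hx hx') (FA03_pp_011 hκ hx hx') (FA03_pp_012 hκ hx hx') (FA03_pp_022 hκ hx hx') (FA03_pp_023 hκ hx hx') (FA03_pp_033 hκ hx hx') (FA03_pp_101 hκ hx hx') (FA03_pp_102 hκ hx hx') (FA03_pp_112 hκ hx hx') (FA03_pp_113 hκ hx hx') (FA03_pp_123 hκ hx hx') (FA03_pp_133 hκ hx hx') (FA03_pp_202 hκ hx hx') (FA03_pp_203 hκ hx hx') (FA03_pp_213 hκ hx hx') (FA03_pp_303 hκ hx hx') (FA03_pp_313 hκ hx hx')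
  pm := all17 (Q := fun a b c => TriA PP.cur (farS κ (h0 * x) (tbl tKF x) (tbl tL x)) a b c 0 3 1 (-1))
    (FA03_pm_001 hκ hx hx') (FA03_pm_011 hκ hx hx') (FA03_pm_012 hκ hx hx') (FA03_pm_022 hκ hx hx') (FA03_pm_023 hκ hx hx') (FA03_pm_033 hκ hx hx') (FA03_pm_101 hκ hx hx') (FA03_pm_102 hκ hx hx') (FA03_pm_112 hκ hx hx') (FA03_pm_113 hκ hx hx') (FA03_pm_123 hκ hx hx') (FA03_pm_133 hκ hx hx') (FA03_pm_202 hκ hx hx') (FA03_pm_203 hκ hx hx') (FA03_pm_213 hκ hx hx') (FA03_pm_303 hκ hx hx') (FA03_pm_313 hκ hx hx')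
  mm := all17 (Q := fun a b c => TriA PP.cur (farS κ (h0 * x) (tbl tKF x) (tbl tL x)) a b c 0 3 (-1) (-1))
    (FA03_mm_001 hκ hx hx') (FA03_mm_011 hκ hx hx') (FA03_mm_012 hκ hx hx') (FA03_mm_022 hκ hx hx') (FA03_mm_023 hκ hx hx') (FA03_mm_033 hκ hx hx') (FA03_mm_101 hκ hx hx') (FA03_mm_102 hκ hx hx') (FA03_mm_112 hκ hx hx') (FA03_mm_113 hκ hx hx') (FA03_mm_123 hκ hx hx') (FA03_mm_133 hκ hx hx') (FA03_mm_202 hκ hx hx') (FA03_mm_203 hκ hx hx') (FA03_mm_213 hκ hx hx') (FA03_mm_303 hκ hx hx') (FA03_mm_313 hκ hx hx')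

theorem FA04_pp_001 {κ x : ℝ} (hκ : κ * h0 = ken x) (hx : ((134217728 : ℕ) : ℝ) / S ≤ x) (hx' : x ≤ (((134217728 : ℕ) : ℝ) + (67108864 : ℕ)) / S) :
    TriA PP.cur (farS κ (h0 * x) (tbl tKF x) (tbl tL x)) 0 0 1 0 4 1 1 :=
  (sideF hx hx').farA (Or.inl rfl) (Or.inl rfl) fun y y' F =>
    farA_cert (s1 := true) (s2 := true) rfl hκ covF00 covF40 hx hx'
        Pool.Agent.Strip051.G.I1_8_3_16.Tab.C.FA04.c_pp_001 noCut_A noExt_A F trivial trivial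

theorem FA04_pp_011 {κ x : ℝ} (hκ : κ * h0 = ken x) (hx : ((134217728 : ℕ) : ℝ) / S ≤ x) (hx' : x ≤ (((134217728 : ℕ) : ℝ) + (67108864 : ℕ)) / S) :
    TriA PP.cur (farS κ (h0 * x) (tbl tKF x) (tbl tL x)) 0 1 1 0 4 1 1 :=
  (sideF hx hx').farA (Or.inl rfl) (Or.inl rfl) fun y y' F =>
    farA_cert (s1 := true) (s2 := true) rfl hκ covF00 covF41 hx hx'
        Pool.Agent.Strip051.G.I1_8_3_16.Tab.C.FA04.c_pp_011 noCut_A noExt_A F trivial trivial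

theorem FA04_pp_012 {κ x : ℝ} (hκ : κ * h0 = ken x) (hx : ((134217728 : ℕ) : ℝ) / S ≤ x) (hx' : x ≤ (((134217728 : ℕ) : ℝ) + (67108864 : ℕ)) / S) :
    TriA PP.cur (farS κ (h0 * x) (tbl tKF x) (tbl tL x)) 0 1 2 0 4 1 1 :=
  (sideF hx hx').farA (Or.inl rfl) (Or.inl rfl) fun y y' F =>
    farA_cert (s1 := true) (s2 := true) rfl hκ covF00 covF41 hx hx'
        Pool.Agent.Strip051.G.I1_8_3_16.Tab.C.FA04.c_pp_012 noCut_A noExt_A F trivial trivial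

theorem FA04_pp_022 {κ x : ℝ} (hκ : κ * h0 = ken x) (hx : ((134217728 : ℕ) : ℝ) / S ≤ x) (hx' : x ≤ (((134217728 : ℕ) : ℝ) + (67108864 : ℕ)) / S) :
    TriA PP.cur (farS κ (h0 * x) (tbl tKF x) (tbl tL x)) 0 2 2 0 4 1 1 :=
  (sideF hx hx').farA (Or.inl rfl) (Or.inl rfl) fun y y' F =>
    farA_cert (s1 := true) (s2 := true) rfl hκ covF00 covF42 hx hx'
        Pool.Agent.Strip051.G.I1_8_3_16.Tab.C.FA04.c_pp_022 noCut_A noExt_A F trivial trivial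

theorem FA04_pp_023 {κ x : ℝ} (hκ : κ * h0 = ken x) (hx : ((134217728 : ℕ) : ℝ) / S ≤ x) (hx' : x ≤ (((134217728 : ℕ) : ℝ) + (67108864 : ℕ)) / S) :
    TriA PP.cur (farS κ (h0 * x) (tbl tKF x) (tbl tL x)) 0 2 3 0 4 1 1 :=
  (sideF hx hx').farA (Or.inl rfl) (Or.inl rfl) fun y y' F =>
    farA_cert (s1 := true) (s2 := true) rfl hκ covF00 covF42 hx hx'
        Pool.Agent.Strip051.G.I1_8_3_16.Tab.C.FA04.c_pp_023 noCut_A noExt_A F trivial trivial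

theorem FA04_pp_033 {κ x : ℝ} (hκ : κ * h0 = ken x) (hx : ((134217728 : ℕ) : ℝ) / S ≤ x) (hx' : x ≤ (((134217728 : ℕ) : ℝ) + (67108864 : ℕ)) / S) :
    TriA PP.cur (farS κ (h0 * x) (tbl tKF x) (tbl tL x)) 0 3 3 0 4 1 1 :=
  (sideF hx hx').farA (Or.inl rfl) (Or.inl rfl) fun y y' F =>
    farA_cert (s1 := true) (s2 := true) rfl hκ covF00 covF43 hx hx'
        Pool.Agent.Strip051.G.I1_8_3_16.Tab.C.FA04.c_pp_033 noCut_A noExt_A F trivial trivial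

theorem FA04_pp_101 {κ x : ℝ} (hκ : κ * h0 = ken x) (hx : ((134217728 : ℕ) : ℝ) / S ≤ x) (hx' : x ≤ (((134217728 : ℕ) : ℝ) + (67108864 : ℕ)) / S) :
    TriA PP.cur (farS κ (h0 * x) (tbl tKF x) (tbl tL x)) 1 0 1 0 4 1 1 :=
  (sideF hx hx').farA (Or.inl rfl) (Or.inl rfl) fun y y' F =>
    farA_cert (s1 := true) (s2 := true) rfl hκ covF01 covF40 hx hx'
        Pool.Agent.Strip051.G.I1_8_3_16.Tab.C.FA04.c_pp_101 noCut_A noExt_A F trivial trivial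

theorem FA04_pp_102 {κ x : ℝ} (hκ : κ * h0 = ken x) (hx : ((134217728 : ℕ) : ℝ) / S ≤ x) (hx' : x ≤ (((134217728 : ℕ) : ℝ) + (67108864 : ℕ)) / S) :
    TriA PP.cur (farS κ (h0 * x) (tbl tKF x) (tbl tL x)) 1 0 2 0 4 1 1 :=
  (sideF hx hx').farA (Or.inl rfl) (Or.inl rfl) fun y y' F =>
    farA_cert (s1 := true) (s2 := true) rfl hκ covF01 covF40 hx hx'
        Pool.Agent.Strip051.G.I1_8_3_16.Tab.C.FA04.c_pp_102 noCut_A noExt_A F trivial trivial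

theorem FA04_pp_112 {κ x : ℝ} (hκ : κ * h0 = ken x) (hx : ((134217728 : ℕ) : ℝ) / S ≤ x) (hx' : x ≤ (((134217728 : ℕ) : ℝ) + (67108864 : ℕ)) / S) :
    TriA PP.cur (farS κ (h0 * x) (tbl tKF x) (tbl tL x)) 1 1 2 0 4 1 1 :=
  (sideF hx hx').farA (Or.inl rfl) (Or.inl rfl) fun y y' F =>
    farA_cert (s1 := true) (s2 := true) rfl hκ covF01 covF41 hx hx'
        Pool.Agent.Strip051.G.I1_8_3_16.Tab.C.FA04.c_pp_112 noCut_A noExt_A F trivial trivial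

theorem FA04_pp_113 {κ x : ℝ} (hκ : κ * h0 = ken x) (hx : ((134217728 : ℕ) : ℝ) / S ≤ x) (hx' : x ≤ (((134217728 : ℕ) : ℝ) + (67108864 : ℕ)) / S) :
    TriA PP.cur (farS κ (h0 * x) (tbl tKF x) (tbl tL x)) 1 1 3 0 4 1 1 :=
  (sideF hx hx').farA (Or.inl rfl) (Or.inl rfl) fun y y' F =>
    farA_cert (s1 := true) (s2 := true) rfl hκ covF01 covF41 hx hx'
        Pool.Agent.Strip051.G.I1_8_3_16.Tab.C.FA04.c_pp_113 noCut_A noExt_A F trivial trivial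

theorem FA04_pp_123 {κ x : ℝ} (hκ : κ * h0 = ken x) (hx : ((134217728 : ℕ) : ℝ) / S ≤ x) (hx' : x ≤ (((134217728 : ℕ) : ℝ) + (67108864 : ℕ)) / S) :
    TriA PP.cur (farS κ (h0 * x) (tbl tKF x) (tbl tL x)) 1 2 3 0 4 1 1 :=
  (sideF hx hx').farA (Or.inl rfl) (Or.inl rfl) fun y y' F =>
    farA_cert (s1 := true) (s2 := true) rfl hκ covF01 covF42 hx hx'
        Pool.Agent.Strip051.G.I1_8_3_16.Tab.C.FA04.c_pp_123 noCut_A noExt_A F trivial trivial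

theorem FA04_pp_133 {κ x : ℝ} (hκ : κ * h0 = ken x) (hx : ((134217728 : ℕ) : ℝ) / S ≤ x) (hx' : x ≤ (((134217728 : ℕ) : ℝ) + (67108864 : ℕ)) / S) :
    TriA PP.cur (farS κ (h0 * x) (tbl tKF x) (tbl tL x)) 1 3 3 0 4 1 1 :=
  (sideF hx hx').farA (Or.inl rfl) (Or.inl rfl) fun y y' F =>
    farA_cert (s1 := true) (s2 := true) rfl hκ covF01 covF43 hx hx'
        Pool.Agent.Strip051.G.I1_8_3_16.Tab.C.FA04.c_pp_133 noCut_A noExt_A F trivial trivial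

theorem FA04_pp_202 {κ x : ℝ} (hκ : κ * h0 = ken x) (hx : ((134217728 : ℕ) : ℝ) / S ≤ x) (hx' : x ≤ (((134217728 : ℕ) : ℝ) + (67108864 : ℕ)) / S) :
    TriA PP.cur (farS κ (h0 * x) (tbl tKF x) (tbl tL x)) 2 0 2 0 4 1 1 :=
  (sideF hx hx').farA (Or.inl rfl) (Or.inl rfl) fun y y' F =>
    farA_cert (s1 := true) (s2 := true) rfl hκ covF02 covF40 hx hx'
        Pool.Agent.Strip051.G.I1_8_3_16.Tab.C.FA04.c_pp_202 noCut_A noExt_A F trivial trivial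

theorem FA04_pp_203 {κ x : ℝ} (hκ : κ * h0 = ken x) (hx : ((134217728 : ℕ) : ℝ) / S ≤ x) (hx' : x ≤ (((134217728 : ℕ) : ℝ) + (67108864 : ℕ)) / S) :
    TriA PP.cur (farS κ (h0 * x) (tbl tKF x) (tbl tL x)) 2 0 3 0 4 1 1 :=
  (sideF hx hx').farA (Or.inl rfl) (Or.inl rfl) fun y y' F =>
    farA_cert (s1 := true) (s2 := true) rfl hκ covF02 covF40 hx hx'
        Pool.Agent.Strip051.G.I1_8_3_16.Tab.C.FA04.c_pp_203 noCut_A noExt_A F trivial trivial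

theorem FA04_pp_213 {κ x : ℝ} (hκ : κ * h0 = ken x) (hx : ((134217728 : ℕ) : ℝ) / S ≤ x) (hx' : x ≤ (((134217728 : ℕ) : ℝ) + (67108864 : ℕ)) / S) :
    TriA PP.cur (farS κ (h0 * x) (tbl tKF x) (tbl tL x)) 2 1 3 0 4 1 1 :=
  (sideF hx hx').farA (Or.inl rfl) (Or.inl rfl) fun y y' F =>
    farA_cert (s1 := true) (s2 := true) rfl hκ covF02 covF41 hx hx'
        Pool.Agent.Strip051.G.I1_8_3_16.Tab.C.FA04.c_pp_213 noCut_A noExt_A F trivial trivial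

theorem FA04_pp_303 {κ x : ℝ} (hκ : κ * h0 = ken x) (hx : ((134217728 : ℕ) : ℝ) / S ≤ x) (hx' : x ≤ (((134217728 : ℕ) : ℝ) + (67108864 : ℕ)) / S) :
    TriA PP.cur (farS κ (h0 * x) (tbl tKF x) (tbl tL x)) 3 0 3 0 4 1 1 :=
  triA_j0

theorem FA04_pp_313 {κ x : ℝ} (hκ : κ * h0 = ken x) (hx : ((134217728 : ℕ) : ℝ) / S ≤ x) (hx' : x ≤ (((134217728 : ℕ) : ℝ) + (67108864 : ℕ)) / S) :
    TriA PP.cur (farS κ (h0 * x) (tbl tKF x) (tbl tL x)) 3 1 3 0 4 1 1 :=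
  triA_j0

theorem FA04_pm_001 {κ x : ℝ} (hκ : κ * h0 = ken x) (hx : ((134217728 : ℕ) : ℝ) / S ≤ x) (hx' : x ≤ (((134217728 : ℕ) : ℝ) + (67108864 : ℕ)) / S) :
    TriA PP.cur (farS κ (h0 * x) (tbl tKF x) (tbl tL x)) 0 0 1 0 4 1 (-1) :=
  (sideF hx hx').farA (Or.inl rfl) (Or.inr rfl) fun y y' F =>
    farA_cert (s1 := true) (s2 := false) rfl hκ covF00 covF40 hx hx'
        Pool.Agent.Strip051.G.I1_8_3_16.Tab.C.FA04.c_pm_001 noCut_A noExt_A F trivial trivial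

theorem FA04_pm_011 {κ x : ℝ} (hκ : κ * h0 = ken x) (hx : ((134217728 : ℕ) : ℝ) / S ≤ x) (hx' : x ≤ (((134217728 : ℕ) : ℝ) + (67108864 : ℕ)) / S) :
    TriA PP.cur (farS κ (h0 * x) (tbl tKF x) (tbl tL x)) 0 1 1 0 4 1 (-1) :=
  (sideF hx hx').farA (Or.inl rfl) (Or.inr rfl) fun y y' F =>
    farA_cert (s1 := true) (s2 := false) rfl hκ covF00 covF41 hx hx'
        Pool.Agent.Strip051.G.I1_8_3_16.Tab.C.FA04.c_pm_011 (cutA_cons (Pool.Agent.Strip051.G.I1_8_3_16.Tab.altF_A011R_04 hκ hx hx') cutA_nil) noExt_A F trivial trivial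

theorem FA04_pm_012 {κ x : ℝ} (hκ : κ * h0 = ken x) (hx : ((134217728 : ℕ) : ℝ) / S ≤ x) (hx' : x ≤ (((134217728 : ℕ) : ℝ) + (67108864 : ℕ)) / S) :
    TriA PP.cur (farS κ (h0 * x) (tbl tKF x) (tbl tL x)) 0 1 2 0 4 1 (-1) :=
  (sideF hx hx').farA (Or.inl rfl) (Or.inr rfl) fun y y' F =>
    farA_cert (s1 := true) (s2 := false) rfl hκ covF00 covF41 hx hx'
        Pool.Agent.Strip051.G.I1_8_3_16.Tab.C.FA04.c_pm_012 (cutA_cons (Pool.Agent.Strip051.G.I1_8_3_16.Tab.altF_A012R_04 hκ hx hx') cutA_nil) noExt_A F trivial trivial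

theorem FA04_pm_022 {κ x : ℝ} (hκ : κ * h0 = ken x) (hx : ((134217728 : ℕ) : ℝ) / S ≤ x) (hx' : x ≤ (((134217728 : ℕ) : ℝ) + (67108864 : ℕ)) / S) :
    TriA PP.cur (farS κ (h0 * x) (tbl tKF x) (tbl tL x)) 0 2 2 0 4 1 (-1) :=
  (sideF hx hx').farA (Or.inl rfl) (Or.inr rfl) fun y y' F =>
    farA_cert (s1 := true) (s2 := false) rfl hκ covF00 covF42 hx hx'
        Pool.Agent.Strip051.G.I1_8_3_16.Tab.C.FA04.c_pm_022 noCut_A noExt_A F trivial trivial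

theorem FA04_pm_023 {κ x : ℝ} (hκ : κ * h0 = ken x) (hx : ((134217728 : ℕ) : ℝ) / S ≤ x) (hx' : x ≤ (((134217728 : ℕ) : ℝ) + (67108864 : ℕ)) / S) :
    TriA PP.cur (farS κ (h0 * x) (tbl tKF x) (tbl tL x)) 0 2 3 0 4 1 (-1) :=
  (sideF hx hx').farA (Or.inl rfl) (Or.inr rfl) fun y y' F =>
    farA_cert (s1 := true) (s2 := false) rfl hκ covF00 covF42 hx hx'
        Pool.Agent.Strip051.G.I1_8_3_16.Tab.C.FA04.c_pm_023 noCut_A noExt_A F trivial trivial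

theorem FA04_pm_033 {κ x : ℝ} (hκ : κ * h0 = ken x) (hx : ((134217728 : ℕ) : ℝ) / S ≤ x) (hx' : x ≤ (((134217728 : ℕ) : ℝ) + (67108864 : ℕ)) / S) :
    TriA PP.cur (farS κ (h0 * x) (tbl tKF x) (tbl tL x)) 0 3 3 0 4 1 (-1) :=
  (sideF hx hx').farA (Or.inl rfl) (Or.inr rfl) fun y y' F =>
    farA_cert (s1 := true) (s2 := false) rfl hκ covF00 covF43 hx hx'
        Pool.Agent.Strip051.G.I1_8_3_16.Tab.C.FA04.c_pm_033 noCut_A noExt_A F trivial trivial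

theorem FA04_pm_101 {κ x : ℝ} (hκ : κ * h0 = ken x) (hx : ((134217728 : ℕ) : ℝ) / S ≤ x) (hx' : x ≤ (((134217728 : ℕ) : ℝ) + (67108864 : ℕ)) / S) :
    TriA PP.cur (farS κ (h0 * x) (tbl tKF x) (tbl tL x)) 1 0 1 0 4 1 (-1) :=
  (sideF hx hx').farA (Or.inl rfl) (Or.inr rfl) fun y y' F =>
    farA_cert (s1 := true) (s2 := false) rfl hκ covF01 covF40 hx hx'
        Pool.Agent.Strip051.G.I1_8_3_16.Tab.C.FA04.c_pm_101 noCut_A noExt_A F trivial trivial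

theorem FA04_pm_102 {κ x : ℝ} (hκ : κ * h0 = ken x) (hx : ((134217728 : ℕ) : ℝ) / S ≤ x) (hx' : x ≤ (((134217728 : ℕ) : ℝ) + (67108864 : ℕ)) / S) :
    TriA PP.cur (farS κ (h0 * x) (tbl tKF x) (tbl tL x)) 1 0 2 0 4 1 (-1) :=
  (sideF hx hx').farA (Or.inl rfl) (Or.inr rfl) fun y y' F =>
    farA_cert (s1 := true) (s2 := false) rfl hκ covF01 covF40 hx hx'
        Pool.Agent.Strip051.G.I1_8_3_16.Tab.C.FA04.c_pm_102 noCut_A noExt_A F trivial trivial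

theorem FA04_pm_112 {κ x : ℝ} (hκ : κ * h0 = ken x) (hx : ((134217728 : ℕ) : ℝ) / S ≤ x) (hx' : x ≤ (((134217728 : ℕ) : ℝ) + (67108864 : ℕ)) / S) :
    TriA PP.cur (farS κ (h0 * x) (tbl tKF x) (tbl tL x)) 1 1 2 0 4 1 (-1) :=
  (sideF hx hx').farA (Or.inl rfl) (Or.inr rfl) fun y y' F =>
    farA_cert (s1 := true) (s2 := false) rfl hκ covF01 covF41 hx hx'
        Pool.Agent.Strip051.G.I1_8_3_16.Tab.C.FA04.c_pm_112 noCut_A noExt_A F trivial trivial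

theorem FA04_pm_113 {κ x : ℝ} (hκ : κ * h0 = ken x) (hx : ((134217728 : ℕ) : ℝ) / S ≤ x) (hx' : x ≤ (((134217728 : ℕ) : ℝ) + (67108864 : ℕ)) / S) :
    TriA PP.cur (farS κ (h0 * x) (tbl tKF x) (tbl tL x)) 1 1 3 0 4 1 (-1) :=
  (sideF hx hx').farA (Or.inl rfl) (Or.inr rfl) fun y y' F =>
    farA_cert (s1 := true) (s2 := false) rfl hκ covF01 covF41 hx hx'
        Pool.Agent.Strip051.G.I1_8_3_16.Tab.C.FA04.c_pm_113 noCut_A noExt_A F trivial trivial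

theorem FA04_pm_123 {κ x : ℝ} (hκ : κ * h0 = ken x) (hx : ((134217728 : ℕ) : ℝ) / S ≤ x) (hx' : x ≤ (((134217728 : ℕ) : ℝ) + (67108864 : ℕ)) / S) :
    TriA PP.cur (farS κ (h0 * x) (tbl tKF x) (tbl tL x)) 1 2 3 0 4 1 (-1) :=
  (sideF hx hx').farA (Or.inl rfl) (Or.inr rfl) fun y y' F =>
    farA_cert (s1 := true) (s2 := false) rfl hκ covF01 covF42 hx hx'
        Pool.Agent.Strip051.G.I1_8_3_16.Tab.C.FA04.c_pm_123 noCut_A noExt_A F trivial trivial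

theorem FA04_pm_133 {κ x : ℝ} (hκ : κ * h0 = ken x) (hx : ((134217728 : ℕ) : ℝ) / S ≤ x) (hx' : x ≤ (((134217728 : ℕ) : ℝ) + (67108864 : ℕ)) / S) :
    TriA PP.cur (farS κ (h0 * x) (tbl tKF x) (tbl tL x)) 1 3 3 0 4 1 (-1) :=
  (sideF hx hx').farA (Or.inl rfl) (Or.inr rfl) fun y y' F =>
    farA_cert (s1 := true) (s2 := false) rfl hκ covF01 covF43 hx hx'
        Pool.Agent.Strip051.G.I1_8_3_16.Tab.C.FA04.c_pm_133 noCut_A noExt_A F trivial trivial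

theorem FA04_pm_202 {κ x : ℝ} (hκ : κ * h0 = ken x) (hx : ((134217728 : ℕ) : ℝ) / S ≤ x) (hx' : x ≤ (((134217728 : ℕ) : ℝ) + (67108864 : ℕ)) / S) :
    TriA PP.cur (farS κ (h0 * x) (tbl tKF x) (tbl tL x)) 2 0 2 0 4 1 (-1) :=
  (sideF hx hx').farA (Or.inl rfl) (Or.inr rfl) fun y y' F =>
    farA_cert (s1 := true) (s2 := false) rfl hκ covF02 covF40 hx hx'
        Pool.Agent.Strip051.G.I1_8_3_16.Tab.C.FA04.c_pm_202 noCut_A noExt_A F trivial trivial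

theorem FA04_pm_203 {κ x : ℝ} (hκ : κ * h0 = ken x) (hx : ((134217728 : ℕ) : ℝ) / S ≤ x) (hx' : x ≤ (((134217728 : ℕ) : ℝ) + (67108864 : ℕ)) / S) :
    TriA PP.cur (farS κ (h0 * x) (tbl tKF x) (tbl tL x)) 2 0 3 0 4 1 (-1) :=
  (sideF hx hx').farA (Or.inl rfl) (Or.inr rfl) fun y y' F =>
    farA_cert (s1 := true) (s2 := false) rfl hκ covF02 covF40 hx hx'
        Pool.Agent.Strip051.G.I1_8_3_16.Tab.C.FA04.c_pm_203 noCut_A noExt_A F trivial trivial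

theorem FA04_pm_213 {κ x : ℝ} (hκ : κ * h0 = ken x) (hx : ((134217728 : ℕ) : ℝ) / S ≤ x) (hx' : x ≤ (((134217728 : ℕ) : ℝ) + (67108864 : ℕ)) / S) :
    TriA PP.cur (farS κ (h0 * x) (tbl tKF x) (tbl tL x)) 2 1 3 0 4 1 (-1) :=
  (sideF hx hx').farA (Or.inl rfl) (Or.inr rfl) fun y y' F =>
    farA_cert (s1 := true) (s2 := false) rfl hκ covF02 covF41 hx hx'
        Pool.Agent.Strip051.G.I1_8_3_16.Tab.C.FA04.c_pm_213 noCut_A noExt_A F trivial trivial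

theorem FA04_pm_303 {κ x : ℝ} (hκ : κ * h0 = ken x) (hx : ((134217728 : ℕ) : ℝ) / S ≤ x) (hx' : x ≤ (((134217728 : ℕ) : ℝ) + (67108864 : ℕ)) / S) :
    TriA PP.cur (farS κ (h0 * x) (tbl tKF x) (tbl tL x)) 3 0 3 0 4 1 (-1) :=
  triA_j0

theorem FA04_pm_313 {κ x : ℝ} (hκ : κ * h0 = ken x) (hx : ((134217728 : ℕ) : ℝ) / S ≤ x) (hx' : x ≤ (((134217728 : ℕ) : ℝ) + (67108864 : ℕ)) / S) :
    TriA PP.cur (farS κ (h0 * x) (tbl tKF x) (tbl tL x)) 3 1 3 0 4 1 (-1) :=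
  triA_j0

theorem FA04_mm_001 {κ x : ℝ} (hκ : κ * h0 = ken x) (hx : ((134217728 : ℕ) : ℝ) / S ≤ x) (hx' : x ≤ (((134217728 : ℕ) : ℝ) + (67108864 : ℕ)) / S) :
    TriA PP.cur (farS κ (h0 * x) (tbl tKF x) (tbl tL x)) 0 0 1 0 4 (-1) (-1) :=
  (sideF hx hx').farA (Or.inr rfl) (Or.inr rfl) fun y y' F =>
    farA_cert (s1 := false) (s2 := false) rfl hκ covF00 covF40 hx hx'
        Pool.Agent.Strip051.G.I1_8_3_16.Tab.C.FA04.c_mm_001 noCut_A noExt_A F trivial trivial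

theorem FA04_mm_011 {κ x : ℝ} (hκ : κ * h0 = ken x) (hx : ((134217728 : ℕ) : ℝ) / S ≤ x) (hx' : x ≤ (((134217728 : ℕ) : ℝ) + (67108864 : ℕ)) / S) :
    TriA PP.cur (farS κ (h0 * x) (tbl tKF x) (tbl tL x)) 0 1 1 0 4 (-1) (-1) :=
  (sideF hx hx').farA (Or.inr rfl) (Or.inr rfl) fun y y' F =>
    farA_cert (s1 := false) (s2 := false) rfl hκ covF00 covF41 hx hx'
        Pool.Agent.Strip051.G.I1_8_3_16.Tab.C.FA04.c_mm_011 noCut_A noExt_A F trivial trivial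

theorem FA04_mm_012 {κ x : ℝ} (hκ : κ * h0 = ken x) (hx : ((134217728 : ℕ) : ℝ) / S ≤ x) (hx' : x ≤ (((134217728 : ℕ) : ℝ) + (67108864 : ℕ)) / S) :
    TriA PP.cur (farS κ (h0 * x) (tbl tKF x) (tbl tL x)) 0 1 2 0 4 (-1) (-1) :=
  (sideF hx hx').farA (Or.inr rfl) (Or.inr rfl) fun y y' F =>
    farA_cert (s1 := false) (s2 := false) rfl hκ covF00 covF41 hx hx'
        Pool.Agent.Strip051.G.I1_8_3_16.Tab.C.FA04.c_mm_012 noCut_A noExt_A F trivial trivial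

theorem FA04_mm_022 {κ x : ℝ} (hκ : κ * h0 = ken x) (hx : ((134217728 : ℕ) : ℝ) / S ≤ x) (hx' : x ≤ (((134217728 : ℕ) : ℝ) + (67108864 : ℕ)) / S) :
    TriA PP.cur (farS κ (h0 * x) (tbl tKF x) (tbl tL x)) 0 2 2 0 4 (-1) (-1) :=
  (sideF hx hx').farA (Or.inr rfl) (Or.inr rfl) fun y y' F =>
    farA_cert (s1 := false) (s2 := false) rfl hκ covF00 covF42 hx hx'
        Pool.Agent.Strip051.G.I1_8_3_16.Tab.C.FA04.c_mm_022 noCut_A noExt_A F trivial trivial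

theorem FA04_mm_023 {κ x : ℝ} (hκ : κ * h0 = ken x) (hx : ((134217728 : ℕ) : ℝ) / S ≤ x) (hx' : x ≤ (((134217728 : ℕ) : ℝ) + (67108864 : ℕ)) / S) :
    TriA PP.cur (farS κ (h0 * x) (tbl tKF x) (tbl tL x)) 0 2 3 0 4 (-1) (-1) :=
  (sideF hx hx').farA (Or.inr rfl) (Or.inr rfl) fun y y' F =>
    farA_cert (s1 := false) (s2 := false) rfl hκ covF00 covF42 hx hx'
        Pool.Agent.Strip051.G.I1_8_3_16.Tab.C.FA04.c_mm_023 noCut_A noExt_A F trivial trivial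

theorem FA04_mm_033 {κ x : ℝ} (hκ : κ * h0 = ken x) (hx : ((134217728 : ℕ) : ℝ) / S ≤ x) (hx' : x ≤ (((134217728 : ℕ) : ℝ) + (67108864 : ℕ)) / S) :
    TriA PP.cur (farS κ (h0 * x) (tbl tKF x) (tbl tL x)) 0 3 3 0 4 (-1) (-1) :=
  (sideF hx hx').farA (Or.inr rfl) (Or.inr rfl) fun y y' F =>
    farA_cert (s1 := false) (s2 := false) rfl hκ covF00 covF43 hx hx'
        Pool.Agent.Strip051.G.I1_8_3_16.Tab.C.FA04.c_mm_033 noCut_A noExt_A F trivial trivial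

theorem FA04_mm_101 {κ x : ℝ} (hκ : κ * h0 = ken x) (hx : ((134217728 : ℕ) : ℝ) / S ≤ x) (hx' : x ≤ (((134217728 : ℕ) : ℝ) + (67108864 : ℕ)) / S) :
    TriA PP.cur (farS κ (h0 * x) (tbl tKF x) (tbl tL x)) 1 0 1 0 4 (-1) (-1) :=
  (sideF hx hx').farA (Or.inr rfl) (Or.inr rfl) fun y y' F =>
    farA_cert (s1 := false) (s2 := false) rfl hκ covF01 covF40 hx hx'
        Pool.Agent.Strip051.G.I1_8_3_16.Tab.C.FA04.c_mm_101 noCut_A noExt_A F trivial trivial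

theorem FA04_mm_102 {κ x : ℝ} (hκ : κ * h0 = ken x) (hx : ((134217728 : ℕ) : ℝ) / S ≤ x) (hx' : x ≤ (((134217728 : ℕ) : ℝ) + (67108864 : ℕ)) / S) :
    TriA PP.cur (farS κ (h0 * x) (tbl tKF x) (tbl tL x)) 1 0 2 0 4 (-1) (-1) :=
  (sideF hx hx').farA (Or.inr rfl) (Or.inr rfl) fun y y' F =>
    farA_cert (s1 := false) (s2 := false) rfl hκ covF01 covF40 hx hx'
        Pool.Agent.Strip051.G.I1_8_3_16.Tab.C.FA04.c_mm_102 noCut_A noExt_A F trivial trivial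

theorem FA04_mm_112 {κ x : ℝ} (hκ : κ * h0 = ken x) (hx : ((134217728 : ℕ) : ℝ) / S ≤ x) (hx' : x ≤ (((134217728 : ℕ) : ℝ) + (67108864 : ℕ)) / S) :
    TriA PP.cur (farS κ (h0 * x) (tbl tKF x) (tbl tL x)) 1 1 2 0 4 (-1) (-1) :=
  (sideF hx hx').farA (Or.inr rfl) (Or.inr rfl) fun y y' F =>
    farA_cert (s1 := false) (s2 := false) rfl hκ covF01 covF41 hx hx'
        Pool.Agent.Strip051.G.I1_8_3_16.Tab.C.FA04.c_mm_112 noCut_A noExt_A F trivial trivial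

theorem FA04_mm_113 {κ x : ℝ} (hκ : κ * h0 = ken x) (hx : ((134217728 : ℕ) : ℝ) / S ≤ x) (hx' : x ≤ (((134217728 : ℕ) : ℝ) + (67108864 : ℕ)) / S) :
    TriA PP.cur (farS κ (h0 * x) (tbl tKF x) (tbl tL x)) 1 1 3 0 4 (-1) (-1) :=
  (sideF hx hx').farA (Or.inr rfl) (Or.inr rfl) fun y y' F =>
    farA_cert (s1 := false) (s2 := false) rfl hκ covF01 covF41 hx hx'
        Pool.Agent.Strip051.G.I1_8_3_16.Tab.C.FA04.c_mm_113 noCut_A noExt_A F trivial trivial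

theorem FA04_mm_123 {κ x : ℝ} (hκ : κ * h0 = ken x) (hx : ((134217728 : ℕ) : ℝ) / S ≤ x) (hx' : x ≤ (((134217728 : ℕ) : ℝ) + (67108864 : ℕ)) / S) :
    TriA PP.cur (farS κ (h0 * x) (tbl tKF x) (tbl tL x)) 1 2 3 0 4 (-1) (-1) :=
  (sideF hx hx').farA (Or.inr rfl) (Or.inr rfl) fun y y' F =>
    farA_cert (s1 := false) (s2 := false) rfl hκ covF01 covF42 hx hx'
        Pool.Agent.Strip051.G.I1_8_3_16.Tab.C.FA04.c_mm_123 noCut_A noExt_A F trivial trivial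

theorem FA04_mm_133 {κ x : ℝ} (hκ : κ * h0 = ken x) (hx : ((134217728 : ℕ) : ℝ) / S ≤ x) (hx' : x ≤ (((134217728 : ℕ) : ℝ) + (67108864 : ℕ)) / S) :
    TriA PP.cur (farS κ (h0 * x) (tbl tKF x) (tbl tL x)) 1 3 3 0 4 (-1) (-1) :=
  (sideF hx hx').farA (Or.inr rfl) (Or.inr rfl) fun y y' F =>
    farA_cert (s1 := false) (s2 := false) rfl hκ covF01 covF43 hx hx'
        Pool.Agent.Strip051.G.I1_8_3_16.Tab.C.FA04.c_mm_133 noCut_A noExt_A F trivial trivial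

theorem FA04_mm_202 {κ x : ℝ} (hκ : κ * h0 = ken x) (hx : ((134217728 : ℕ) : ℝ) / S ≤ x) (hx' : x ≤ (((134217728 : ℕ) : ℝ) + (67108864 : ℕ)) / S) :
    TriA PP.cur (farS κ (h0 * x) (tbl tKF x) (tbl tL x)) 2 0 2 0 4 (-1) (-1) :=
  (sideF hx hx').farA (Or.inr rfl) (Or.inr rfl) fun y y' F =>
    farA_cert (s1 := false) (s2 := false) rfl hκ covF02 covF40 hx hx'
        Pool.Agent.Strip051.G.I1_8_3_16.Tab.C.FA04.c_mm_202 noCut_A noExt_A F trivial trivial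

theorem FA04_mm_203 {κ x : ℝ} (hκ : κ * h0 = ken x) (hx : ((134217728 : ℕ) : ℝ) / S ≤ x) (hx' : x ≤ (((134217728 : ℕ) : ℝ) + (67108864 : ℕ)) / S) :
    TriA PP.cur (farS κ (h0 * x) (tbl tKF x) (tbl tL x)) 2 0 3 0 4 (-1) (-1) :=
  (sideF hx hx').farA (Or.inr rfl) (Or.inr rfl) fun y y' F =>
    farA_cert (s1 := false) (s2 := false) rfl hκ covF02 covF40 hx hx'
        Pool.Agent.Strip051.G.I1_8_3_16.Tab.C.FA04.c_mm_203 noCut_A noExt_A F trivial trivial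

theorem FA04_mm_213 {κ x : ℝ} (hκ : κ * h0 = ken x) (hx : ((134217728 : ℕ) : ℝ) / S ≤ x) (hx' : x ≤ (((134217728 : ℕ) : ℝ) + (67108864 : ℕ)) / S) :
    TriA PP.cur (farS κ (h0 * x) (tbl tKF x) (tbl tL x)) 2 1 3 0 4 (-1) (-1) :=
  (sideF hx hx').farA (Or.inr rfl) (Or.inr rfl) fun y y' F =>
    farA_cert (s1 := false) (s2 := false) rfl hκ covF02 covF41 hx hx'
        Pool.Agent.Strip051.G.I1_8_3_16.Tab.C.FA04.c_mm_213 noCut_A noExt_A F trivial trivial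

theorem FA04_mm_303 {κ x : ℝ} (hκ : κ * h0 = ken x) (hx : ((134217728 : ℕ) : ℝ) / S ≤ x) (hx' : x ≤ (((134217728 : ℕ) : ℝ) + (67108864 : ℕ)) / S) :
    TriA PP.cur (farS κ (h0 * x) (tbl tKF x) (tbl tL x)) 3 0 3 0 4 (-1) (-1) :=
  triA_j0

theorem FA04_mm_313 {κ x : ℝ} (hκ : κ * h0 = ken x) (hx : ((134217728 : ℕ) : ℝ) / S ≤ x) (hx' : x ≤ (((134217728 : ℕ) : ℝ) + (67108864 : ℕ)) / S) :
    TriA PP.cur (farS κ (h0 * x) (tbl tKF x) (tbl tL x)) 3 1 3 0 4 (-1) (-1) :=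
  triA_j0

theorem FA04 {κ x : ℝ} (hκ : κ * h0 = ken x) (hx : ((134217728 : ℕ) : ℝ) / S ≤ x) (hx' : x ≤ (((134217728 : ℕ) : ℝ) + (67108864 : ℕ)) / S) : AllTA PP.cur (farS κ (h0 * x) (tbl tKF x) (tbl tL x)) 0 4 where
  pp := all17 (Q := fun a b c => TriA PP.cur (farS κ (h0 * x) (tbl tKF x) (tbl tL x)) a b c 0 4 1 1)
    (FA04_pp_001 hκ hx hx') (FA04_pp_011 hκ hx hx') (FA04_pp_012 hκ hx hx') (FA04_pp_022 hκ hx hx') (FA04_pp_023 hκ hx hx') (FA04_pp_033 hκ hx hx') (FA04_pp_101 hκ hx hx') (FA04_pp_102 hκ hx hx') (FA04_pp_112 hκ hx hx') (FA04_pp_113 hκ hx hx') (FA04_pp_123 hκ hx hx') (FA04_pp_133 hκ hx hx') (FA04_pp_202 hκ hx hx') (FA04_pp_203 hκ hx hx') (FA04_pp_213 hκ hx hx') (FA04_pp_303 hκ hx hx') (FA04_pp_313 hκ hx hx')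
  pm := all17 (Q := fun a b c => TriA PP.cur (farS κ (h0 * x) (tbl tKF x) (tbl tL x)) a b c 0 4 1 (-1))
    (FA04_pm_001 hκ hx hx') (FA04_pm_011 hκ hx hx') (FA04_pm_012 hκ hx hx') (FA04_pm_022 hκ hx hx') (FA04_pm_023 hκ hx hx') (FA04_pm_033 hκ hx hx') (FA04_pm_101 hκ hx hx') (FA04_pm_102 hκ hx hx') (FA04_pm_112 hκ hx hx') (FA04_pm_113 hκ hx hx') (FA04_pm_123 hκ hx hx') (FA04_pm_133 hκ hx hx') (FA04_pm_202 hκ hx hx') (FA04_pm_203 hκ hx hx') (FA04_pm_213 hκ hx hx') (FA04_pm_303 hκ hx hx') (FA04_pm_313 hκ hx hx')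
  mm := all17 (Q := fun a b c => TriA PP.cur (farS κ (h0 * x) (tbl tKF x) (tbl tL x)) a b c 0 4 (-1) (-1))
    (FA04_mm_001 hκ hx hx') (FA04_mm_011 hκ hx hx') (FA04_mm_012 hκ hx hx') (FA04_mm_022 hκ hx hx') (FA04_mm_023 hκ hx hx') (FA04_mm_033 hκ hx hx') (FA04_mm_101 hκ hx hx') (FA04_mm_102 hκ hx hx') (FA04_mm_112 hκ hx hx') (FA04_mm_113 hκ hx hx') (FA04_mm_123 hκ hx hx') (FA04_mm_133 hκ hx hx') (FA04_mm_202 hκ hx hx') (FA04_mm_203 hκ hx hx') (FA04_mm_213 hκ hx hx') (FA04_mm_303 hκ hx hx') (FA04_mm_313 hκ hx hx')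

theorem FA05_pp_001 {κ x : ℝ} (hκ : κ * h0 = ken x) (hx : ((134217728 : ℕ) : ℝ) / S ≤ x) (hx' : x ≤ (((134217728 : ℕ) : ℝ) + (67108864 : ℕ)) / S) :
    TriA PP.cur (farS κ (h0 * x) (tbl tKF x) (tbl tL x)) 0 0 1 0 5 1 1 :=
  (sideF hx hx').farA (Or.inl rfl) (Or.inl rfl) fun y y' F =>
    farA_cert (s1 := true) (s2 := true) rfl hκ covF00 covF50 hx hx'
        Pool.Agent.Strip051.G.I1_8_3_16.Tab.C.FA05.c_pp_001 (cutA_cons (Pool.Agent.Strip051.G.I1_8_3_16.Tab.St.C.s_A05pp_001_s1 hκ hx hx') cutA_nil) noExt_A F trivial trivial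

theorem FA05_pp_011 {κ x : ℝ} (hκ : κ * h0 = ken x) (hx : ((134217728 : ℕ) : ℝ) / S ≤ x) (hx' : x ≤ (((134217728 : ℕ) : ℝ) + (67108864 : ℕ)) / S) :
    TriA PP.cur (farS κ (h0 * x) (tbl tKF x) (tbl tL x)) 0 1 1 0 5 1 1 :=
  (sideF hx hx').farA (Or.inl rfl) (Or.inl rfl) fun y y' F =>
    farA_cert (s1 := true) (s2 := true) rfl hκ covF00 covF51 hx hx'
        Pool.Agent.Strip051.G.I1_8_3_16.Tab.C.FA05.c_pp_011 (cutA_cons (Pool.Agent.Strip051.G.I1_8_3_16.Tab.St.C.s_A05pp_011_s1 hκ hx hx') cutA_nil) noExt_A F trivial trivial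

theorem FA05_pp_012 {κ x : ℝ} (hκ : κ * h0 = ken x) (hx : ((134217728 : ℕ) : ℝ) / S ≤ x) (hx' : x ≤ (((134217728 : ℕ) : ℝ) + (67108864 : ℕ)) / S) :
    TriA PP.cur (farS κ (h0 * x) (tbl tKF x) (tbl tL x)) 0 1 2 0 5 1 1 :=
  (sideF hx hx').farA (Or.inl rfl) (Or.inl rfl) fun y y' F =>
    farA_cert (s1 := true) (s2 := true) rfl hκ covF00 covF51 hx hx'
        Pool.Agent.Strip051.G.I1_8_3_16.Tab.C.FA05.c_pp_012 (cutA_cons (Pool.Agent.Strip051.G.I1_8_3_16.Tab.St.C.s_A05pp_012_s1 hκ hx hx') cutA_nil) noExt_A F trivial trivial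

theorem FA05_pp_022 {κ x : ℝ} (hκ : κ * h0 = ken x) (hx : ((134217728 : ℕ) : ℝ) / S ≤ x) (hx' : x ≤ (((134217728 : ℕ) : ℝ) + (67108864 : ℕ)) / S) :
    TriA PP.cur (farS κ (h0 * x) (tbl tKF x) (tbl tL x)) 0 2 2 0 5 1 1 :=
  (sideF hx hx').farA (Or.inl rfl) (Or.inl rfl) fun y y' F =>
    farA_cert (s1 := true) (s2 := true) rfl hκ covF00 covF52 hx hx'
        Pool.Agent.Strip051.G.I1_8_3_16.Tab.C.FA05.c_pp_022 (cutA_cons (Pool.Agent.Strip051.G.I1_8_3_16.Tab.St.C.s_A05pp_022_s1 hκ hx hx') cutA_nil) noExt_A F trivial trivial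

theorem FA05_pp_023 {κ x : ℝ} (hκ : κ * h0 = ken x) (hx : ((134217728 : ℕ) : ℝ) / S ≤ x) (hx' : x ≤ (((134217728 : ℕ) : ℝ) + (67108864 : ℕ)) / S) :
    TriA PP.cur (farS κ (h0 * x) (tbl tKF x) (tbl tL x)) 0 2 3 0 5 1 1 :=
  (sideF hx hx').farA (Or.inl rfl) (Or.inl rfl) fun y y' F =>
    farA_cert (s1 := true) (s2 := true) rfl hκ covF00 covF52 hx hx'
        Pool.Agent.Strip051.G.I1_8_3_16.Tab.C.FA05.c_pp_023 (cutA_cons (Pool.Agent.Strip051.G.I1_8_3_16.Tab.St.C.s_A05pp_023_s1 hκ hx hx') cutA_nil) noExt_A F trivial trivial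

theorem FA05_pp_033 {κ x : ℝ} (hκ : κ * h0 = ken x) (hx : ((134217728 : ℕ) : ℝ) / S ≤ x) (hx' : x ≤ (((134217728 : ℕ) : ℝ) + (67108864 : ℕ)) / S) :
    TriA PP.cur (farS κ (h0 * x) (tbl tKF x) (tbl tL x)) 0 3 3 0 5 1 1 :=
  (sideF hx hx').farA (Or.inl rfl) (Or.inl rfl) fun y y' F =>
    farA_cert (s1 := true) (s2 := true) rfl hκ covF00 covF53 hx hx'
        Pool.Agent.Strip051.G.I1_8_3_16.Tab.C.FA05.c_pp_033 (cutA_cons (Pool.Agent.Strip051.G.I1_8_3_16.Tab.St.C.s_A05pp_033_s1 hκ hx hx') cutA_nil) noExt_A F trivial trivial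

theorem FA05_pp_101 {κ x : ℝ} (hκ : κ * h0 = ken x) (hx : ((134217728 : ℕ) : ℝ) / S ≤ x) (hx' : x ≤ (((134217728 : ℕ) : ℝ) + (67108864 : ℕ)) / S) :
    TriA PP.cur (farS κ (h0 * x) (tbl tKF x) (tbl tL x)) 1 0 1 0 5 1 1 :=
  (sideF hx hx').farA (Or.inl rfl) (Or.inl rfl) fun y y' F =>
    farA_cert (s1 := true) (s2 := true) rfl hκ covF01 covF50 hx hx'
        Pool.Agent.Strip051.G.I1_8_3_16.Tab.C.FA05.c_pp_101 (cutA_cons (Pool.Agent.Strip051.G.I1_8_3_16.Tab.St.C.s_A05pp_101_s1 hκ hx hx') cutA_nil) noExt_A F trivial trivial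

theorem FA05_pp_102 {κ x : ℝ} (hκ : κ * h0 = ken x) (hx : ((134217728 : ℕ) : ℝ) / S ≤ x) (hx' : x ≤ (((134217728 : ℕ) : ℝ) + (67108864 : ℕ)) / S) :
    TriA PP.cur (farS κ (h0 * x) (tbl tKF x) (tbl tL x)) 1 0 2 0 5 1 1 :=
  (sideF hx hx').farA (Or.inl rfl) (Or.inl rfl) fun y y' F =>
    farA_cert (s1 := true) (s2 := true) rfl hκ covF01 covF50 hx hx'
        Pool.Agent.Strip051.G.I1_8_3_16.Tab.C.FA05.c_pp_102 (cutA_cons (Pool.Agent.Strip051.G.I1_8_3_16.Tab.St.C.s_A05pp_102_s1 hκ hx hx') cutA_nil) noExt_A F trivial trivial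

theorem FA05_pp_112 {κ x : ℝ} (hκ : κ * h0 = ken x) (hx : ((134217728 : ℕ) : ℝ) / S ≤ x) (hx' : x ≤ (((134217728 : ℕ) : ℝ) + (67108864 : ℕ)) / S) :
    TriA PP.cur (farS κ (h0 * x) (tbl tKF x) (tbl tL x)) 1 1 2 0 5 1 1 :=
  (sideF hx hx').farA (Or.inl rfl) (Or.inl rfl) fun y y' F =>
    farA_cert (s1 := true) (s2 := true) rfl hκ covF01 covF51 hx hx'
        Pool.Agent.Strip051.G.I1_8_3_16.Tab.C.FA05.c_pp_112 (cutA_cons (Pool.Agent.Strip051.G.I1_8_3_16.Tab.St.C.s_A05pp_112_s1 hκ hx hx') cutA_nil) noExt_A F trivial trivial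

theorem FA05_pp_113 {κ x : ℝ} (hκ : κ * h0 = ken x) (hx : ((134217728 : ℕ) : ℝ) / S ≤ x) (hx' : x ≤ (((134217728 : ℕ) : ℝ) + (67108864 : ℕ)) / S) :
    TriA PP.cur (farS κ (h0 * x) (tbl tKF x) (tbl tL x)) 1 1 3 0 5 1 1 :=
  (sideF hx hx').farA (Or.inl rfl) (Or.inl rfl) fun y y' F =>
    farA_cert (s1 := true) (s2 := true) rfl hκ covF01 covF51 hx hx'
        Pool.Agent.Strip051.G.I1_8_3_16.Tab.C.FA05.c_pp_113 (cutA_cons (Pool.Agent.Strip051.G.I1_8_3_16.Tab.St.C.s_A05pp_113_s1 hκ hx hx') cutA_nil) noExt_A F trivial trivial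

theorem FA05_pp_123 {κ x : ℝ} (hκ : κ * h0 = ken x) (hx : ((134217728 : ℕ) : ℝ) / S ≤ x) (hx' : x ≤ (((134217728 : ℕ) : ℝ) + (67108864 : ℕ)) / S) :
    TriA PP.cur (farS κ (h0 * x) (tbl tKF x) (tbl tL x)) 1 2 3 0 5 1 1 :=
  (sideF hx hx').farA (Or.inl rfl) (Or.inl rfl) fun y y' F =>
    farA_cert (s1 := true) (s2 := true) rfl hκ covF01 covF52 hx hx'
        Pool.Agent.Strip051.G.I1_8_3_16.Tab.C.FA05.c_pp_123 (cutA_cons (Pool.Agent.Strip051.G.I1_8_3_16.Tab.St.C.s_A05pp_123_s1 hκ hx hx') cutA_nil) noExt_A F trivial trivial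

theorem FA05_pp_133 {κ x : ℝ} (hκ : κ * h0 = ken x) (hx : ((134217728 : ℕ) : ℝ) / S ≤ x) (hx' : x ≤ (((134217728 : ℕ) : ℝ) + (67108864 : ℕ)) / S) :
    TriA PP.cur (farS κ (h0 * x) (tbl tKF x) (tbl tL x)) 1 3 3 0 5 1 1 :=
  (sideF hx hx').farA (Or.inl rfl) (Or.inl rfl) fun y y' F =>
    farA_cert (s1 := true) (s2 := true) rfl hκ covF01 covF53 hx hx'
        Pool.Agent.Strip051.G.I1_8_3_16.Tab.C.FA05.c_pp_133 (cutA_cons (Pool.Agent.Strip051.G.I1_8_3_16.Tab.St.C.s_A05pp_133_s1 hκ hx hx') cutA_nil) noExt_A F trivial trivial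

theorem FA05_pp_202 {κ x : ℝ} (hκ : κ * h0 = ken x) (hx : ((134217728 : ℕ) : ℝ) / S ≤ x) (hx' : x ≤ (((134217728 : ℕ) : ℝ) + (67108864 : ℕ)) / S) :
    TriA PP.cur (farS κ (h0 * x) (tbl tKF x) (tbl tL x)) 2 0 2 0 5 1 1 :=
  (sideF hx hx').farA (Or.inl rfl) (Or.inl rfl) fun y y' F =>
    farA_cert (s1 := true) (s2 := true) rfl hκ covF02 covF50 hx hx'
        Pool.Agent.Strip051.G.I1_8_3_16.Tab.C.FA05.c_pp_202 (cutA_cons (Pool.Agent.Strip051.G.I1_8_3_16.Tab.St.C.s_A05pp_202_s1 hκ hx hx') cutA_nil) noExt_A F trivial trivial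

theorem FA05_pp_203 {κ x : ℝ} (hκ : κ * h0 = ken x) (hx : ((134217728 : ℕ) : ℝ) / S ≤ x) (hx' : x ≤ (((134217728 : ℕ) : ℝ) + (67108864 : ℕ)) / S) :
    TriA PP.cur (farS κ (h0 * x) (tbl tKF x) (tbl tL x)) 2 0 3 0 5 1 1 :=
  (sideF hx hx').farA (Or.inl rfl) (Or.inl rfl) fun y y' F =>
    farA_cert (s1 := true) (s2 := true) rfl hκ covF02 covF50 hx hx'
        Pool.Agent.Strip051.G.I1_8_3_16.Tab.C.FA05.c_pp_203 (cutA_cons (Pool.Agent.Strip051.G.I1_8_3_16.Tab.St.C.s_A05pp_203_s1 hκ hx hx') cutA_nil) noExt_A F trivial trivial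

theorem FA05_pp_213 {κ x : ℝ} (hκ : κ * h0 = ken x) (hx : ((134217728 : ℕ) : ℝ) / S ≤ x) (hx' : x ≤ (((134217728 : ℕ) : ℝ) + (67108864 : ℕ)) / S) :
    TriA PP.cur (farS κ (h0 * x) (tbl tKF x) (tbl tL x)) 2 1 3 0 5 1 1 :=
  (sideF hx hx').farA (Or.inl rfl) (Or.inl rfl) fun y y' F =>
    farA_cert (s1 := true) (s2 := true) rfl hκ covF02 covF51 hx hx'
        Pool.Agent.Strip051.G.I1_8_3_16.Tab.C.FA05.c_pp_213 (cutA_cons (Pool.Agent.Strip051.G.I1_8_3_16.Tab.St.C.s_A05pp_213_s1 hκ hx hx') cutA_nil) noExt_A F trivial trivial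

theorem FA05_pp_303 {κ x : ℝ} (hκ : κ * h0 = ken x) (hx : ((134217728 : ℕ) : ℝ) / S ≤ x) (hx' : x ≤ (((134217728 : ℕ) : ℝ) + (67108864 : ℕ)) / S) :
    TriA PP.cur (farS κ (h0 * x) (tbl tKF x) (tbl tL x)) 3 0 3 0 5 1 1 :=
  triA_j0

theorem FA05_pp_313 {κ x : ℝ} (hκ : κ * h0 = ken x) (hx : ((134217728 : ℕ) : ℝ) / S ≤ x) (hx' : x ≤ (((134217728 : ℕ) : ℝ) + (67108864 : ℕ)) / S) :
    TriA PP.cur (farS κ (h0 * x) (tbl tKF x) (tbl tL x)) 3 1 3 0 5 1 1 :=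
  triA_j0

theorem FA05_pm_001 {κ x : ℝ} (hκ : κ * h0 = ken x) (hx : ((134217728 : ℕ) : ℝ) / S ≤ x) (hx' : x ≤ (((134217728 : ℕ) : ℝ) + (67108864 : ℕ)) / S) :
    TriA PP.cur (farS κ (h0 * x) (tbl tKF x) (tbl tL x)) 0 0 1 0 5 1 (-1) :=
  (sideF hx hx').farA (Or.inl rfl) (Or.inr rfl) fun y y' F =>
    farA_cert (s1 := true) (s2 := false) rfl hκ covF00 covF50 hx hx'
        Pool.Agent.Strip051.G.I1_8_3_16.Tab.C.FA05.c_pm_001 (cutA_cons (Pool.Agent.Strip051.G.I1_8_3_16.Tab.St.C.s_A05pm_001_s1 hκ hx hx') cutA_nil) noExt_A F trivial trivial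

theorem FA05_pm_011 {κ x : ℝ} (hκ : κ * h0 = ken x) (hx : ((134217728 : ℕ) : ℝ) / S ≤ x) (hx' : x ≤ (((134217728 : ℕ) : ℝ) + (67108864 : ℕ)) / S) :
    TriA PP.cur (farS κ (h0 * x) (tbl tKF x) (tbl tL x)) 0 1 1 0 5 1 (-1) :=
  (sideF hx hx').farA (Or.inl rfl) (Or.inr rfl) fun y y' F =>
    farA_cert (s1 := true) (s2 := false) rfl hκ covF00 covF51 hx hx'
        Pool.Agent.Strip051.G.I1_8_3_16.Tab.C.FA05.c_pm_011 (cutA_cons (Pool.Agent.Strip051.G.I1_8_3_16.Tab.St.C.s_A05pm_011_s1 hκ hx hx' (cutA_cons (Pool.Agent.Strip051.G.I1_8_3_16.Tab.altF_A011R_05 hκ hx hx') cutA_nil)) (cutA_cons (Pool.Agent.Strip051.G.I1_8_3_16.Tab.altF_A011R_05 hκ hx hx') cutA_nil)) noExt_A F trivial trivial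

theorem FA05_pm_012 {κ x : ℝ} (hκ : κ * h0 = ken x) (hx : ((134217728 : ℕ) : ℝ) / S ≤ x) (hx' : x ≤ (((134217728 : ℕ) : ℝ) + (67108864 : ℕ)) / S) :
    TriA PP.cur (farS κ (h0 * x) (tbl tKF x) (tbl tL x)) 0 1 2 0 5 1 (-1) :=
  (sideF hx hx').farA (Or.inl rfl) (Or.inr rfl) fun y y' F =>
    farA_cert (s1 := true) (s2 := false) rfl hκ covF00 covF51 hx hx'
        Pool.Agent.Strip051.G.I1_8_3_16.Tab.C.FA05.c_pm_012 (cutA_cons (Pool.Agent.Strip051.G.I1_8_3_16.Tab.St.C.s_A05pm_012_s1 hκ hx hx' (cutA_cons (Pool.Agent.Strip051.G.I1_8_3_16.Tab.altF_A012R_05 hκ hx hx') cutA_nil)) (cutA_cons (Pool.Agent.Strip051.G.I1_8_3_16.Tab.altF_A012R_05 hκ hx hx') cutA_nil)) noExt_A F trivial trivial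

theorem FA05_pm_022 {κ x : ℝ} (hκ : κ * h0 = ken x) (hx : ((134217728 : ℕ) : ℝ) / S ≤ x) (hx' : x ≤ (((134217728 : ℕ) : ℝ) + (67108864 : ℕ)) / S) :
    TriA PP.cur (farS κ (h0 * x) (tbl tKF x) (tbl tL x)) 0 2 2 0 5 1 (-1) :=
  (sideF hx hx').farA (Or.inl rfl) (Or.inr rfl) fun y y' F =>
    farA_cert (s1 := true) (s2 := false) rfl hκ covF00 covF52 hx hx'
        Pool.Agent.Strip051.G.I1_8_3_16.Tab.C.FA05.c_pm_022 (cutA_cons (Pool.Agent.Strip051.G.I1_8_3_16.Tab.St.C.s_A05pm_022_s1 hκ hx hx' (cutA_cons (Pool.Agent.Strip051.G.I1_8_3_16.Tab.altF_A022R_05 hκ hx hx') cutA_nil)) (cutA_cons (Pool.Agent.Strip051.G.I1_8_3_16.Tab.altF_A022R_05 hκ hx hx') cutA_nil)) noExt_A F trivial trivial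

theorem FA05_pm_023 {κ x : ℝ} (hκ : κ * h0 = ken x) (hx : ((134217728 : ℕ) : ℝ) / S ≤ x) (hx' : x ≤ (((134217728 : ℕ) : ℝ) + (67108864 : ℕ)) / S) :
    TriA PP.cur (farS κ (h0 * x) (tbl tKF x) (tbl tL x)) 0 2 3 0 5 1 (-1) :=
  (sideF hx hx').farA (Or.inl rfl) (Or.inr rfl) fun y y' F =>
    farA_cert (s1 := true) (s2 := false) rfl hκ covF00 covF52 hx hx'
        Pool.Agent.Strip051.G.I1_8_3_16.Tab.C.FA05.c_pm_023 (cutA_cons (Pool.Agent.Strip051.G.I1_8_3_16.Tab.St.C.s_A05pm_023_s1 hκ hx hx') cutA_nil) noExt_A F trivial trivial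

theorem FA05_pm_033 {κ x : ℝ} (hκ : κ * h0 = ken x) (hx : ((134217728 : ℕ) : ℝ) / S ≤ x) (hx' : x ≤ (((134217728 : ℕ) : ℝ) + (67108864 : ℕ)) / S) :
    TriA PP.cur (farS κ (h0 * x) (tbl tKF x) (tbl tL x)) 0 3 3 0 5 1 (-1) :=
  (sideF hx hx').farA (Or.inl rfl) (Or.inr rfl) fun y y' F =>
    farA_cert (s1 := true) (s2 := false) rfl hκ covF00 covF53 hx hx'
        Pool.Agent.Strip051.G.I1_8_3_16.Tab.C.FA05.c_pm_033 (cutA_cons (Pool.Agent.Strip051.G.I1_8_3_16.Tab.St.C.s_A05pm_033_s1 hκ hx hx') cutA_nil) noExt_A F trivial trivial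

theorem FA05_pm_101 {κ x : ℝ} (hκ : κ * h0 = ken x) (hx : ((134217728 : ℕ) : ℝ) / S ≤ x) (hx' : x ≤ (((134217728 : ℕ) : ℝ) + (67108864 : ℕ)) / S) :
    TriA PP.cur (farS κ (h0 * x) (tbl tKF x) (tbl tL x)) 1 0 1 0 5 1 (-1) :=
  (sideF hx hx').farA (Or.inl rfl) (Or.inr rfl) fun y y' F =>
    farA_cert (s1 := true) (s2 := false) rfl hκ covF01 covF50 hx hx'
        Pool.Agent.Strip051.G.I1_8_3_16.Tab.C.FA05.c_pm_101 (cutA_cons (Pool.Agent.Strip051.G.I1_8_3_16.Tab.St.C.s_A05pm_101_s1 hκ hx hx') cutA_nil) noExt_A F trivial trivial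

theorem FA05_pm_102 {κ x : ℝ} (hκ : κ * h0 = ken x) (hx : ((134217728 : ℕ) : ℝ) / S ≤ x) (hx' : x ≤ (((134217728 : ℕ) : ℝ) + (67108864 : ℕ)) / S) :
    TriA PP.cur (farS κ (h0 * x) (tbl tKF x) (tbl tL x)) 1 0 2 0 5 1 (-1) :=
  (sideF hx hx').farA (Or.inl rfl) (Or.inr rfl) fun y y' F =>
    farA_cert (s1 := true) (s2 := false) rfl hκ covF01 covF50 hx hx'
        Pool.Agent.Strip051.G.I1_8_3_16.Tab.C.FA05.c_pm_102 (cutA_cons (Pool.Agent.Strip051.G.I1_8_3_16.Tab.St.C.s_A05pm_102_s1 hκ hx hx') cutA_nil) noExt_A F trivial trivial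

theorem FA05_pm_112 {κ x : ℝ} (hκ : κ * h0 = ken x) (hx : ((134217728 : ℕ) : ℝ) / S ≤ x) (hx' : x ≤ (((134217728 : ℕ) : ℝ) + (67108864 : ℕ)) / S) :
    TriA PP.cur (farS κ (h0 * x) (tbl tKF x) (tbl tL x)) 1 1 2 0 5 1 (-1) :=
  (sideF hx hx').farA (Or.inl rfl) (Or.inr rfl) fun y y' F =>
    farA_cert (s1 := true) (s2 := false) rfl hκ covF01 covF51 hx hx'
        Pool.Agent.Strip051.G.I1_8_3_16.Tab.C.FA05.c_pm_112 (cutA_cons (Pool.Agent.Strip051.G.I1_8_3_16.Tab.St.C.s_A05pm_112_s1 hκ hx hx') cutA_nil) noExt_A F trivial trivial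

theorem FA05_pm_113 {κ x : ℝ} (hκ : κ * h0 = ken x) (hx : ((134217728 : ℕ) : ℝ) / S ≤ x) (hx' : x ≤ (((134217728 : ℕ) : ℝ) + (67108864 : ℕ)) / S) :
    TriA PP.cur (farS κ (h0 * x) (tbl tKF x) (tbl tL x)) 1 1 3 0 5 1 (-1) :=
  (sideF hx hx').farA (Or.inl rfl) (Or.inr rfl) fun y y' F =>
    farA_cert (s1 := true) (s2 := false) rfl hκ covF01 covF51 hx hx'
        Pool.Agent.Strip051.G.I1_8_3_16.Tab.C.FA05.c_pm_113 (cutA_cons (Pool.Agent.Strip051.G.I1_8_3_16.Tab.St.C.s_A05pm_113_s1 hκ hx hx') cutA_nil) noExt_A F trivial trivial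

theorem FA05_pm_123 {κ x : ℝ} (hκ : κ * h0 = ken x) (hx : ((134217728 : ℕ) : ℝ) / S ≤ x) (hx' : x ≤ (((134217728 : ℕ) : ℝ) + (67108864 : ℕ)) / S) :
    TriA PP.cur (farS κ (h0 * x) (tbl tKF x) (tbl tL x)) 1 2 3 0 5 1 (-1) :=
  (sideF hx hx').farA (Or.inl rfl) (Or.inr rfl) fun y y' F =>
    farA_cert (s1 := true) (s2 := false) rfl hκ covF01 covF52 hx hx'
        Pool.Agent.Strip051.G.I1_8_3_16.Tab.C.FA05.c_pm_123 (cutA_cons (Pool.Agent.Strip051.G.I1_8_3_16.Tab.St.C.s_A05pm_123_s1 hκ hx hx') cutA_nil) noExt_A F trivial trivial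

theorem FA05_pm_133 {κ x : ℝ} (hκ : κ * h0 = ken x) (hx : ((134217728 : ℕ) : ℝ) / S ≤ x) (hx' : x ≤ (((134217728 : ℕ) : ℝ) + (67108864 : ℕ)) / S) :
    TriA PP.cur (farS κ (h0 * x) (tbl tKF x) (tbl tL x)) 1 3 3 0 5 1 (-1) :=
  (sideF hx hx').farA (Or.inl rfl) (Or.inr rfl) fun y y' F =>
    farA_cert (s1 := true) (s2 := false) rfl hκ covF01 covF53 hx hx'
        Pool.Agent.Strip051.G.I1_8_3_16.Tab.C.FA05.c_pm_133 (cutA_cons (Pool.Agent.Strip051.G.I1_8_3_16.Tab.St.C.s_A05pm_133_s1 hκ hx hx') cutA_nil) noExt_A F trivial trivial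

theorem FA05_pm_202 {κ x : ℝ} (hκ : κ * h0 = ken x) (hx : ((134217728 : ℕ) : ℝ) / S ≤ x) (hx' : x ≤ (((134217728 : ℕ) : ℝ) + (67108864 : ℕ)) / S) :
    TriA PP.cur (farS κ (h0 * x) (tbl tKF x) (tbl tL x)) 2 0 2 0 5 1 (-1) :=
  (sideF hx hx').farA (Or.inl rfl) (Or.inr rfl) fun y y' F =>
    farA_cert (s1 := true) (s2 := false) rfl hκ covF02 covF50 hx hx'
        Pool.Agent.Strip051.G.I1_8_3_16.Tab.C.FA05.c_pm_202 (cutA_cons (Pool.Agent.Strip051.G.I1_8_3_16.Tab.St.C.s_A05pm_202_s1 hκ hx hx') cutA_nil) noExt_A F trivial trivial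

theorem FA05_pm_203 {κ x : ℝ} (hκ : κ * h0 = ken x) (hx : ((134217728 : ℕ) : ℝ) / S ≤ x) (hx' : x ≤ (((134217728 : ℕ) : ℝ) + (67108864 : ℕ)) / S) :
    TriA PP.cur (farS κ (h0 * x) (tbl tKF x) (tbl tL x)) 2 0 3 0 5 1 (-1) :=
  (sideF hx hx').farA (Or.inl rfl) (Or.inr rfl) fun y y' F =>
    farA_cert (s1 := true) (s2 := false) rfl hκ covF02 covF50 hx hx'
        Pool.Agent.Strip051.G.I1_8_3_16.Tab.C.FA05.c_pm_203 (cutA_cons (Pool.Agent.Strip051.G.I1_8_3_16.Tab.St.C.s_A05pm_203_s1 hκ hx hx') cutA_nil) noExt_A F trivial trivial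

theorem FA05_pm_213 {κ x : ℝ} (hκ : κ * h0 = ken x) (hx : ((134217728 : ℕ) : ℝ) / S ≤ x) (hx' : x ≤ (((134217728 : ℕ) : ℝ) + (67108864 : ℕ)) / S) :
    TriA PP.cur (farS κ (h0 * x) (tbl tKF x) (tbl tL x)) 2 1 3 0 5 1 (-1) :=
  (sideF hx hx').farA (Or.inl rfl) (Or.inr rfl) fun y y' F =>
    farA_cert (s1 := true) (s2 := false) rfl hκ covF02 covF51 hx hx'
        Pool.Agent.Strip051.G.I1_8_3_16.Tab.C.FA05.c_pm_213 (cutA_cons (Pool.Agent.Strip051.G.I1_8_3_16.Tab.St.C.s_A05pm_213_s1 hκ hx hx') cutA_nil) noExt_A F trivial trivial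

theorem FA05_pm_303 {κ x : ℝ} (hκ : κ * h0 = ken x) (hx : ((134217728 : ℕ) : ℝ) / S ≤ x) (hx' : x ≤ (((134217728 : ℕ) : ℝ) + (67108864 : ℕ)) / S) :
    TriA PP.cur (farS κ (h0 * x) (tbl tKF x) (tbl tL x)) 3 0 3 0 5 1 (-1) :=
  triA_j0

theorem FA05_pm_313 {κ x : ℝ} (hκ : κ * h0 = ken x) (hx : ((134217728 : ℕ) : ℝ) / S ≤ x) (hx' : x ≤ (((134217728 : ℕ) : ℝ) + (67108864 : ℕ)) / S) :
    TriA PP.cur (farS κ (h0 * x) (tbl tKF x) (tbl tL x)) 3 1 3 0 5 1 (-1) :=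
  triA_j0

theorem FA05_mm_001 {κ x : ℝ} (hκ : κ * h0 = ken x) (hx : ((134217728 : ℕ) : ℝ) / S ≤ x) (hx' : x ≤ (((134217728 : ℕ) : ℝ) + (67108864 : ℕ)) / S) :
    TriA PP.cur (farS κ (h0 * x) (tbl tKF x) (tbl tL x)) 0 0 1 0 5 (-1) (-1) :=
  (sideF hx hx').farA (Or.inr rfl) (Or.inr rfl) fun y y' F =>
    farA_cert (s1 := false) (s2 := false) rfl hκ covF00 covF50 hx hx'
        Pool.Agent.Strip051.G.I1_8_3_16.Tab.C.FA05.c_mm_001 (cutA_cons (Pool.Agent.Strip051.G.I1_8_3_16.Tab.St.C.s_A05mm_001_s1 hκ hx hx') cutA_nil) noExt_A F trivial trivial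

theorem FA05_mm_011 {κ x : ℝ} (hκ : κ * h0 = ken x) (hx : ((134217728 : ℕ) : ℝ) / S ≤ x) (hx' : x ≤ (((134217728 : ℕ) : ℝ) + (67108864 : ℕ)) / S) :
    TriA PP.cur (farS κ (h0 * x) (tbl tKF x) (tbl tL x)) 0 1 1 0 5 (-1) (-1) :=
  (sideF hx hx').farA (Or.inr rfl) (Or.inr rfl) fun y y' F =>
    farA_cert (s1 := false) (s2 := false) rfl hκ covF00 covF51 hx hx'
        Pool.Agent.Strip051.G.I1_8_3_16.Tab.C.FA05.c_mm_011 (cutA_cons (Pool.Agent.Strip051.G.I1_8_3_16.Tab.St.C.s_A05mm_011_s1 hκ hx hx') cutA_nil) noExt_A F trivial trivial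

theorem FA05_mm_012 {κ x : ℝ} (hκ : κ * h0 = ken x) (hx : ((134217728 : ℕ) : ℝ) / S ≤ x) (hx' : x ≤ (((134217728 : ℕ) : ℝ) + (67108864 : ℕ)) / S) :
    TriA PP.cur (farS κ (h0 * x) (tbl tKF x) (tbl tL x)) 0 1 2 0 5 (-1) (-1) :=
  (sideF hx hx').farA (Or.inr rfl) (Or.inr rfl) fun y y' F =>
    farA_cert (s1 := false) (s2 := false) rfl hκ covF00 covF51 hx hx'
        Pool.Agent.Strip051.G.I1_8_3_16.Tab.C.FA05.c_mm_012 (cutA_cons (Pool.Agent.Strip051.G.I1_8_3_16.Tab.St.C.s_A05mm_012_s1 hκ hx hx') cutA_nil) noExt_A F trivial trivial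

theorem FA05_mm_022 {κ x : ℝ} (hκ : κ * h0 = ken x) (hx : ((134217728 : ℕ) : ℝ) / S ≤ x) (hx' : x ≤ (((134217728 : ℕ) : ℝ) + (67108864 : ℕ)) / S) :
    TriA PP.cur (farS κ (h0 * x) (tbl tKF x) (tbl tL x)) 0 2 2 0 5 (-1) (-1) :=
  (sideF hx hx').farA (Or.inr rfl) (Or.inr rfl) fun y y' F =>
    farA_cert (s1 := false) (s2 := false) rfl hκ covF00 covF52 hx hx'
        Pool.Agent.Strip051.G.I1_8_3_16.Tab.C.FA05.c_mm_022 (cutA_cons (Pool.Agent.Strip051.G.I1_8_3_16.Tab.St.C.s_A05mm_022_s1 hκ hx hx') cutA_nil) noExt_A F trivial trivial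

theorem FA05_mm_023 {κ x : ℝ} (hκ : κ * h0 = ken x) (hx : ((134217728 : ℕ) : ℝ) / S ≤ x) (hx' : x ≤ (((134217728 : ℕ) : ℝ) + (67108864 : ℕ)) / S) :
    TriA PP.cur (farS κ (h0 * x) (tbl tKF x) (tbl tL x)) 0 2 3 0 5 (-1) (-1) :=
  (sideF hx hx').farA (Or.inr rfl) (Or.inr rfl) fun y y' F =>
    farA_cert (s1 := false) (s2 := false) rfl hκ covF00 covF52 hx hx'
        Pool.Agent.Strip051.G.I1_8_3_16.Tab.C.FA05.c_mm_023 (cutA_cons (Pool.Agent.Strip051.G.I1_8_3_16.Tab.St.C.s_A05mm_023_s1 hκ hx hx') cutA_nil) noExt_A F trivial trivial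

theorem FA05_mm_033 {κ x : ℝ} (hκ : κ * h0 = ken x) (hx : ((134217728 : ℕ) : ℝ) / S ≤ x) (hx' : x ≤ (((134217728 : ℕ) : ℝ) + (67108864 : ℕ)) / S) :
    TriA PP.cur (farS κ (h0 * x) (tbl tKF x) (tbl tL x)) 0 3 3 0 5 (-1) (-1) :=
  (sideF hx hx').farA (Or.inr rfl) (Or.inr rfl) fun y y' F =>
    farA_cert (s1 := false) (s2 := false) rfl hκ covF00 covF53 hx hx'
        Pool.Agent.Strip051.G.I1_8_3_16.Tab.C.FA05.c_mm_033 (cutA_cons (Pool.Agent.Strip051.G.I1_8_3_16.Tab.St.C.s_A05mm_033_s1 hκ hx hx') cutA_nil) noExt_A F trivial trivial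

theorem FA05_mm_101 {κ x : ℝ} (hκ : κ * h0 = ken x) (hx : ((134217728 : ℕ) : ℝ) / S ≤ x) (hx' : x ≤ (((134217728 : ℕ) : ℝ) + (67108864 : ℕ)) / S) :
    TriA PP.cur (farS κ (h0 * x) (tbl tKF x) (tbl tL x)) 1 0 1 0 5 (-1) (-1) :=
  (sideF hx hx').farA (Or.inr rfl) (Or.inr rfl) fun y y' F =>
    farA_cert (s1 := false) (s2 := false) rfl hκ covF01 covF50 hx hx'
        Pool.Agent.Strip051.G.I1_8_3_16.Tab.C.FA05.c_mm_101 (cutA_cons (Pool.Agent.Strip051.G.I1_8_3_16.Tab.St.C.s_A05mm_101_s1 hκ hx hx') cutA_nil) noExt_A F trivial trivial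

theorem FA05_mm_102 {κ x : ℝ} (hκ : κ * h0 = ken x) (hx : ((134217728 : ℕ) : ℝ) / S ≤ x) (hx' : x ≤ (((134217728 : ℕ) : ℝ) + (67108864 : ℕ)) / S) :
    TriA PP.cur (farS κ (h0 * x) (tbl tKF x) (tbl tL x)) 1 0 2 0 5 (-1) (-1) :=
  (sideF hx hx').farA (Or.inr rfl) (Or.inr rfl) fun y y' F =>
    farA_cert (s1 := false) (s2 := false) rfl hκ covF01 covF50 hx hx'
        Pool.Agent.Strip051.G.I1_8_3_16.Tab.C.FA05.c_mm_102 (cutA_cons (Pool.Agent.Strip051.G.I1_8_3_16.Tab.St.C.s_A05mm_102_s1 hκ hx hx') cutA_nil) noExt_A F trivial trivial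

theorem FA05_mm_112 {κ x : ℝ} (hκ : κ * h0 = ken x) (hx : ((134217728 : ℕ) : ℝ) / S ≤ x) (hx' : x ≤ (((134217728 : ℕ) : ℝ) + (67108864 : ℕ)) / S) :
    TriA PP.cur (farS κ (h0 * x) (tbl tKF x) (tbl tL x)) 1 1 2 0 5 (-1) (-1) :=
  (sideF hx hx').farA (Or.inr rfl) (Or.inr rfl) fun y y' F =>
    farA_cert (s1 := false) (s2 := false) rfl hκ covF01 covF51 hx hx'
        Pool.Agent.Strip051.G.I1_8_3_16.Tab.C.FA05.c_mm_112 (cutA_cons (Pool.Agent.Strip051.G.I1_8_3_16.Tab.St.C.s_A05mm_112_s1 hκ hx hx') cutA_nil) noExt_A F trivial trivial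

theorem FA05_mm_113 {κ x : ℝ} (hκ : κ * h0 = ken x) (hx : ((134217728 : ℕ) : ℝ) / S ≤ x) (hx' : x ≤ (((134217728 : ℕ) : ℝ) + (67108864 : ℕ)) / S) :
    TriA PP.cur (farS κ (h0 * x) (tbl tKF x) (tbl tL x)) 1 1 3 0 5 (-1) (-1) :=
  (sideF hx hx').farA (Or.inr rfl) (Or.inr rfl) fun y y' F =>
    farA_cert (s1 := false) (s2 := false) rfl hκ covF01 covF51 hx hx'
        Pool.Agent.Strip051.G.I1_8_3_16.Tab.C.FA05.c_mm_113 (cutA_cons (Pool.Agent.Strip051.G.I1_8_3_16.Tab.St.C.s_A05mm_113_s1 hκ hx hx') cutA_nil) noExt_A F trivial trivial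

theorem FA05_mm_123 {κ x : ℝ} (hκ : κ * h0 = ken x) (hx : ((134217728 : ℕ) : ℝ) / S ≤ x) (hx' : x ≤ (((134217728 : ℕ) : ℝ) + (67108864 : ℕ)) / S) :
    TriA PP.cur (farS κ (h0 * x) (tbl tKF x) (tbl tL x)) 1 2 3 0 5 (-1) (-1) :=
  (sideF hx hx').farA (Or.inr rfl) (Or.inr rfl) fun y y' F =>
    farA_cert (s1 := false) (s2 := false) rfl hκ covF01 covF52 hx hx'
        Pool.Agent.Strip051.G.I1_8_3_16.Tab.C.FA05.c_mm_123 (cutA_cons (Pool.Agent.Strip051.G.I1_8_3_16.Tab.St.C.s_A05mm_123_s1 hκ hx hx') cutA_nil) noExt_A F trivial trivial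

theorem FA05_mm_133 {κ x : ℝ} (hκ : κ * h0 = ken x) (hx : ((134217728 : ℕ) : ℝ) / S ≤ x) (hx' : x ≤ (((134217728 : ℕ) : ℝ) + (67108864 : ℕ)) / S) :
    TriA PP.cur (farS κ (h0 * x) (tbl tKF x) (tbl tL x)) 1 3 3 0 5 (-1) (-1) :=
  (sideF hx hx').farA (Or.inr rfl) (Or.inr rfl) fun y y' F =>
    farA_cert (s1 := false) (s2 := false) rfl hκ covF01 covF53 hx hx'
        Pool.Agent.Strip051.G.I1_8_3_16.Tab.C.FA05.c_mm_133 (cutA_cons (Pool.Agent.Strip051.G.I1_8_3_16.Tab.St.C.s_A05mm_133_s1 hκ hx hx') cutA_nil) noExt_A F trivial trivial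

theorem FA05_mm_202 {κ x : ℝ} (hκ : κ * h0 = ken x) (hx : ((134217728 : ℕ) : ℝ) / S ≤ x) (hx' : x ≤ (((134217728 : ℕ) : ℝ) + (67108864 : ℕ)) / S) :
    TriA PP.cur (farS κ (h0 * x) (tbl tKF x) (tbl tL x)) 2 0 2 0 5 (-1) (-1) :=
  (sideF hx hx').farA (Or.inr rfl) (Or.inr rfl) fun y y' F =>
    farA_cert (s1 := false) (s2 := false) rfl hκ covF02 covF50 hx hx'
        Pool.Agent.Strip051.G.I1_8_3_16.Tab.C.FA05.c_mm_202 (cutA_cons (Pool.Agent.Strip051.G.I1_8_3_16.Tab.St.C.s_A05mm_202_s1 hκ hx hx') cutA_nil) noExt_A F trivial trivial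

theorem FA05_mm_203 {κ x : ℝ} (hκ : κ * h0 = ken x) (hx : ((134217728 : ℕ) : ℝ) / S ≤ x) (hx' : x ≤ (((134217728 : ℕ) : ℝ) + (67108864 : ℕ)) / S) :
    TriA PP.cur (farS κ (h0 * x) (tbl tKF x) (tbl tL x)) 2 0 3 0 5 (-1) (-1) :=
  (sideF hx hx').farA (Or.inr rfl) (Or.inr rfl) fun y y' F =>
    farA_cert (s1 := false) (s2 := false) rfl hκ covF02 covF50 hx hx'
        Pool.Agent.Strip051.G.I1_8_3_16.Tab.C.FA05.c_mm_203 (cutA_cons (Pool.Agent.Strip051.G.I1_8_3_16.Tab.St.C.s_A05mm_203_s1 hκ hx hx') cutA_nil) noExt_A F trivial trivial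

theorem FA05_mm_213 {κ x : ℝ} (hκ : κ * h0 = ken x) (hx : ((134217728 : ℕ) : ℝ) / S ≤ x) (hx' : x ≤ (((134217728 : ℕ) : ℝ) + (67108864 : ℕ)) / S) :
    TriA PP.cur (farS κ (h0 * x) (tbl tKF x) (tbl tL x)) 2 1 3 0 5 (-1) (-1) :=
  (sideF hx hx').farA (Or.inr rfl) (Or.inr rfl) fun y y' F =>
    farA_cert (s1 := false) (s2 := false) rfl hκ covF02 covF51 hx hx'
        Pool.Agent.Strip051.G.I1_8_3_16.Tab.C.FA05.c_mm_213 (cutA_cons (Pool.Agent.Strip051.G.I1_8_3_16.Tab.St.C.s_A05mm_213_s1 hκ hx hx') cutA_nil) noExt_A F trivial trivial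

theorem FA05_mm_303 {κ x : ℝ} (hκ : κ * h0 = ken x) (hx : ((134217728 : ℕ) : ℝ) / S ≤ x) (hx' : x ≤ (((134217728 : ℕ) : ℝ) + (67108864 : ℕ)) / S) :
    TriA PP.cur (farS κ (h0 * x) (tbl tKF x) (tbl tL x)) 3 0 3 0 5 (-1) (-1) :=
  triA_j0

theorem FA05_mm_313 {κ x : ℝ} (hκ : κ * h0 = ken x) (hx : ((134217728 : ℕ) : ℝ) / S ≤ x) (hx' : x ≤ (((134217728 : ℕ) : ℝ) + (67108864 : ℕ)) / S) :
    TriA PP.cur (farS κ (h0 * x) (tbl tKF x) (tbl tL x)) 3 1 3 0 5 (-1) (-1) :=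
  triA_j0

theorem FA05 {κ x : ℝ} (hκ : κ * h0 = ken x) (hx : ((134217728 : ℕ) : ℝ) / S ≤ x) (hx' : x ≤ (((134217728 : ℕ) : ℝ) + (67108864 : ℕ)) / S) : AllTA PP.cur (farS κ (h0 * x) (tbl tKF x) (tbl tL x)) 0 5 where
  pp := all17 (Q := fun a b c => TriA PP.cur (farS κ (h0 * x) (tbl tKF x) (tbl tL x)) a b c 0 5 1 1)
    (FA05_pp_001 hκ hx hx') (FA05_pp_011 hκ hx hx') (FA05_pp_012 hκ hx hx') (FA05_pp_022 hκ hx hx') (FA05_pp_023 hκ hx hx') (FA05_pp_033 hκ hx hx') (FA05_pp_101 hκ hx hx') (FA05_pp_102 hκ hx hx') (FA05_pp_112 hκ hx hx') (FA05_pp_113 hκ hx hx') (FA05_pp_123 hκ hx hx') (FA05_pp_133 hκ hx hx') (FA05_pp_202 hκ hx hx') (FA05_pp_203 hκ hx hx') (FA05_pp_213 hκ hx hx') (FA05_pp_303 hκ hx hx') (FA05_pp_313 hκ hx hx')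
  pm := all17 (Q := fun a b c => TriA PP.cur (farS κ (h0 * x) (tbl tKF x) (tbl tL x)) a b c 0 5 1 (-1))
    (FA05_pm_001 hκ hx hx') (FA05_pm_011 hκ hx hx') (FA05_pm_012 hκ hx hx') (FA05_pm_022 hκ hx hx') (FA05_pm_023 hκ hx hx') (FA05_pm_033 hκ hx hx') (FA05_pm_101 hκ hx hx') (FA05_pm_102 hκ hx hx') (FA05_pm_112 hκ hx hx') (FA05_pm_113 hκ hx hx') (FA05_pm_123 hκ hx hx') (FA05_pm_133 hκ hx hx') (FA05_pm_202 hκ hx hx') (FA05_pm_203 hκ hx hx') (FA05_pm_213 hκ hx hx') (FA05_pm_303 hκ hx hx') (FA05_pm_313 hκ hx hx')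
  mm := all17 (Q := fun a b c => TriA PP.cur (farS κ (h0 * x) (tbl tKF x) (tbl tL x)) a b c 0 5 (-1) (-1))
    (FA05_mm_001 hκ hx hx') (FA05_mm_011 hκ hx hx') (FA05_mm_012 hκ hx hx') (FA05_mm_022 hκ hx hx') (FA05_mm_023 hκ hx hx') (FA05_mm_033 hκ hx hx') (FA05_mm_101 hκ hx hx') (FA05_mm_102 hκ hx hx') (FA05_mm_112 hκ hx hx') (FA05_mm_113 hκ hx hx') (FA05_mm_123 hκ hx hx') (FA05_mm_133 hκ hx hx') (FA05_mm_202 hκ hx hx') (FA05_mm_203 hκ hx hx') (FA05_mm_213 hκ hx hx') (FA05_mm_303 hκ hx hx') (FA05_mm_313 hκ hx hx')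

theorem FA11_pp_001 {κ x : ℝ} (hκ : κ * h0 = ken x) (hx : ((134217728 : ℕ) : ℝ) / S ≤ x) (hx' : x ≤ (((134217728 : ℕ) : ℝ) + (67108864 : ℕ)) / S) :
    TriA PP.cur (farS κ (h0 * x) (tbl tKF x) (tbl tL x)) 0 0 1 1 1 1 1 :=
  (sideF hx hx').farA (Or.inl rfl) (Or.inl rfl) fun y y' F =>
    farA_cert (s1 := true) (s2 := true) rfl hκ covF10 covF10 hx hx'
        Pool.Agent.Strip051.G.I1_8_3_16.Tab.C.FA11.c_pp_001 noCut_A noExt_A F trivial trivial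

theorem FA11_pp_011 {κ x : ℝ} (hκ : κ * h0 = ken x) (hx : ((134217728 : ℕ) : ℝ) / S ≤ x) (hx' : x ≤ (((134217728 : ℕ) : ℝ) + (67108864 : ℕ)) / S) :
    TriA PP.cur (farS κ (h0 * x) (tbl tKF x) (tbl tL x)) 0 1 1 1 1 1 1 :=
  (sideF hx hx').farA (Or.inl rfl) (Or.inl rfl) fun y y' F =>
    farA_cert (s1 := true) (s2 := true) rfl hκ covF10 covF11 hx hx'
        Pool.Agent.Strip051.G.I1_8_3_16.Tab.C.FA11.c_pp_011 noCut_A noExt_A F trivial trivial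

theorem FA11_pp_012 {κ x : ℝ} (hκ : κ * h0 = ken x) (hx : ((134217728 : ℕ) : ℝ) / S ≤ x) (hx' : x ≤ (((134217728 : ℕ) : ℝ) + (67108864 : ℕ)) / S) :
    TriA PP.cur (farS κ (h0 * x) (tbl tKF x) (tbl tL x)) 0 1 2 1 1 1 1 :=
  (sideF hx hx').farA (Or.inl rfl) (Or.inl rfl) fun y y' F =>
    farA_cert (s1 := true) (s2 := true) rfl hκ covF10 covF11 hx hx'
        Pool.Agent.Strip051.G.I1_8_3_16.Tab.C.FA11.c_pp_012 noCut_A noExt_A F trivial trivial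

theorem FA11_pp_022 {κ x : ℝ} (hκ : κ * h0 = ken x) (hx : ((134217728 : ℕ) : ℝ) / S ≤ x) (hx' : x ≤ (((134217728 : ℕ) : ℝ) + (67108864 : ℕ)) / S) :
    TriA PP.cur (farS κ (h0 * x) (tbl tKF x) (tbl tL x)) 0 2 2 1 1 1 1 :=
  (sideF hx hx').farA (Or.inl rfl) (Or.inl rfl) fun y y' F =>
    (lt_or_ge (h0 * y') 1).elim
      (fun g => farA_cert (s1 := true) (s2 := true) rfl hκ covF10 covF12a hx hx'
        Pool.Agent.Strip051.G.I1_8_3_16.Tab.C.FA11.c_pp_022_a (cutA_cons (Pool.Agent.Strip051.G.I1_8_3_16.Tab.altF_A022L_11 hκ hx hx') cutA_nil) noExt_A F trivial g)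
      (fun g => farA_cert (s1 := true) (s2 := true) rfl hκ covF10 covF12b hx hx'
        Pool.Agent.Strip051.G.I1_8_3_16.Tab.C.FA11.c_pp_022_b (cutA_cons (Pool.Agent.Strip051.G.I1_8_3_16.Tab.altF_A022L_11 hκ hx hx') cutA_nil) noExt_A F trivial g)

theorem FA11_pp_023 {κ x : ℝ} (hκ : κ * h0 = ken x) (hx : ((134217728 : ℕ) : ℝ) / S ≤ x) (hx' : x ≤ (((134217728 : ℕ) : ℝ) + (67108864 : ℕ)) / S) :
    TriA PP.cur (farS κ (h0 * x) (tbl tKF x) (tbl tL x)) 0 2 3 1 1 1 1 :=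
  (sideF hx hx').farA (Or.inl rfl) (Or.inl rfl) fun y y' F =>
    (lt_or_ge (h0 * y') 1).elim
      (fun g => farA_cert (s1 := true) (s2 := true) rfl hκ covF10 covF12a hx hx'
        Pool.Agent.Strip051.G.I1_8_3_16.Tab.C.FA11.c_pp_023_a noCut_A noExt_A F trivial g)
      (fun g => farA_cert (s1 := true) (s2 := true) rfl hκ covF10 covF12b hx hx'
        Pool.Agent.Strip051.G.I1_8_3_16.Tab.C.FA11.c_pp_023_b noCut_A noExt_A F trivial g)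

theorem FA11_pp_033 {κ x : ℝ} (hκ : κ * h0 = ken x) (hx : ((134217728 : ℕ) : ℝ) / S ≤ x) (hx' : x ≤ (((134217728 : ℕ) : ℝ) + (67108864 : ℕ)) / S) :
    TriA PP.cur (farS κ (h0 * x) (tbl tKF x) (tbl tL x)) 0 3 3 1 1 1 1 :=
  (sideF hx hx').farA (Or.inl rfl) (Or.inl rfl) fun y y' F =>
    farA_cert (s1 := true) (s2 := true) rfl hκ covF10 covF13 hx hx'
        Pool.Agent.Strip051.G.I1_8_3_16.Tab.C.FA11.c_pp_033 noCut_A noExt_A F trivial trivial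

theorem FA11_pp_101 {κ x : ℝ} (hκ : κ * h0 = ken x) (hx : ((134217728 : ℕ) : ℝ) / S ≤ x) (hx' : x ≤ (((134217728 : ℕ) : ℝ) + (67108864 : ℕ)) / S) :
    TriA PP.cur (farS κ (h0 * x) (tbl tKF x) (tbl tL x)) 1 0 1 1 1 1 1 :=
  (sideF hx hx').farA (Or.inl rfl) (Or.inl rfl) fun y y' F =>
    farA_cert (s1 := true) (s2 := true) rfl hκ covF11 covF10 hx hx'
        Pool.Agent.Strip051.G.I1_8_3_16.Tab.C.FA11.c_pp_101 noCut_A noExt_A F trivial trivial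

theorem FA11_pp_102 {κ x : ℝ} (hκ : κ * h0 = ken x) (hx : ((134217728 : ℕ) : ℝ) / S ≤ x) (hx' : x ≤ (((134217728 : ℕ) : ℝ) + (67108864 : ℕ)) / S) :
    TriA PP.cur (farS κ (h0 * x) (tbl tKF x) (tbl tL x)) 1 0 2 1 1 1 1 :=
  (sideF hx hx').farA (Or.inl rfl) (Or.inl rfl) fun y y' F =>
    farA_cert (s1 := true) (s2 := true) rfl hκ covF11 covF10 hx hx'
        Pool.Agent.Strip051.G.I1_8_3_16.Tab.C.FA11.c_pp_102 noCut_A noExt_A F trivial trivial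

theorem FA11_pp_112 {κ x : ℝ} (hκ : κ * h0 = ken x) (hx : ((134217728 : ℕ) : ℝ) / S ≤ x) (hx' : x ≤ (((134217728 : ℕ) : ℝ) + (67108864 : ℕ)) / S) :
    TriA PP.cur (farS κ (h0 * x) (tbl tKF x) (tbl tL x)) 1 1 2 1 1 1 1 :=
  (sideF hx hx').farA (Or.inl rfl) (Or.inl rfl) fun y y' F =>
    farA_cert (s1 := true) (s2 := true) rfl hκ covF11 covF11 hx hx'
        Pool.Agent.Strip051.G.I1_8_3_16.Tab.C.FA11.c_pp_112 noCut_A noExt_A F trivial trivial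

theorem FA11_pp_113 {κ x : ℝ} (hκ : κ * h0 = ken x) (hx : ((134217728 : ℕ) : ℝ) / S ≤ x) (hx' : x ≤ (((134217728 : ℕ) : ℝ) + (67108864 : ℕ)) / S) :
    TriA PP.cur (farS κ (h0 * x) (tbl tKF x) (tbl tL x)) 1 1 3 1 1 1 1 :=
  (sideF hx hx').farA (Or.inl rfl) (Or.inl rfl) fun y y' F =>
    farA_cert (s1 := true) (s2 := true) rfl hκ covF11 covF11 hx hx'
        Pool.Agent.Strip051.G.I1_8_3_16.Tab.C.FA11.c_pp_113 noCut_A noExt_A F trivial trivial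

theorem FA11_pp_123 {κ x : ℝ} (hκ : κ * h0 = ken x) (hx : ((134217728 : ℕ) : ℝ) / S ≤ x) (hx' : x ≤ (((134217728 : ℕ) : ℝ) + (67108864 : ℕ)) / S) :
    TriA PP.cur (farS κ (h0 * x) (tbl tKF x) (tbl tL x)) 1 2 3 1 1 1 1 :=
  (sideF hx hx').farA (Or.inl rfl) (Or.inl rfl) fun y y' F =>
    (lt_or_ge (h0 * y') 1).elim
      (fun g => farA_cert (s1 := true) (s2 := true) rfl hκ covF11 covF12a hx hx'
        Pool.Agent.Strip051.G.I1_8_3_16.Tab.C.FA11.c_pp_123_a noCut_A noExt_A F trivial g)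
      (fun g => farA_cert (s1 := true) (s2 := true) rfl hκ covF11 covF12b hx hx'
        Pool.Agent.Strip051.G.I1_8_3_16.Tab.C.FA11.c_pp_123_b noCut_A noExt_A F trivial g)

theorem FA11_pp_133 {κ x : ℝ} (hκ : κ * h0 = ken x) (hx : ((134217728 : ℕ) : ℝ) / S ≤ x) (hx' : x ≤ (((134217728 : ℕ) : ℝ) + (67108864 : ℕ)) / S) :
    TriA PP.cur (farS κ (h0 * x) (tbl tKF x) (tbl tL x)) 1 3 3 1 1 1 1 :=
  (sideF hx hx').farA (Or.inl rfl) (Or.inl rfl) fun y y' F =>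
    farA_cert (s1 := true) (s2 := true) rfl hκ covF11 covF13 hx hx'
        Pool.Agent.Strip051.G.I1_8_3_16.Tab.C.FA11.c_pp_133 noCut_A noExt_A F trivial trivial

theorem FA11_pp_202 {κ x : ℝ} (hκ : κ * h0 = ken x) (hx : ((134217728 : ℕ) : ℝ) / S ≤ x) (hx' : x ≤ (((134217728 : ℕ) : ℝ) + (67108864 : ℕ)) / S) :
    TriA PP.cur (farS κ (h0 * x) (tbl tKF x) (tbl tL x)) 2 0 2 1 1 1 1 :=
  (sideF hx hx').farA (Or.inl rfl) (Or.inl rfl) fun y y' F =>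
    (lt_or_ge (h0 * y) 1).elim
      (fun h => farA_cert (s1 := true) (s2 := true) rfl hκ covF12a covF10 hx hx'
        Pool.Agent.Strip051.G.I1_8_3_16.Tab.C.FA11.c_pp_202_a noCut_A noExt_A F h trivial)
      (fun h => farA_cert (s1 := true) (s2 := true) rfl hκ covF12b covF10 hx hx'
        Pool.Agent.Strip051.G.I1_8_3_16.Tab.C.FA11.c_pp_202_b noCut_A noExt_A F h trivial)

theorem FA11_pp_203 {κ x : ℝ} (hκ : κ * h0 = ken x) (hx : ((134217728 : ℕ) : ℝ) / S ≤ x) (hx' : x ≤ (((134217728 : ℕ) : ℝ) + (67108864 : ℕ)) / S) :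
    TriA PP.cur (farS κ (h0 * x) (tbl tKF x) (tbl tL x)) 2 0 3 1 1 1 1 :=
  (sideF hx hx').farA (Or.inl rfl) (Or.inl rfl) fun y y' F =>
    (lt_or_ge (h0 * y) 1).elim
      (fun h => farA_cert (s1 := true) (s2 := true) rfl hκ covF12a covF10 hx hx'
        Pool.Agent.Strip051.G.I1_8_3_16.Tab.C.FA11.c_pp_203_a noCut_A noExt_A F h trivial)
      (fun h => farA_cert (s1 := true) (s2 := true) rfl hκ covF12b covF10 hx hx'
        Pool.Agent.Strip051.G.I1_8_3_16.Tab.C.FA11.c_pp_203_b noCut_A noExt_A F h trivial)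

theorem FA11_pp_213 {κ x : ℝ} (hκ : κ * h0 = ken x) (hx : ((134217728 : ℕ) : ℝ) / S ≤ x) (hx' : x ≤ (((134217728 : ℕ) : ℝ) + (67108864 : ℕ)) / S) :
    TriA PP.cur (farS κ (h0 * x) (tbl tKF x) (tbl tL x)) 2 1 3 1 1 1 1 :=
  (sideF hx hx').farA (Or.inl rfl) (Or.inl rfl) fun y y' F =>
    (lt_or_ge (h0 * y) 1).elim
      (fun h => farA_cert (s1 := true) (s2 := true) rfl hκ covF12a covF11 hx hx'
        Pool.Agent.Strip051.G.I1_8_3_16.Tab.C.FA11.c_pp_213_a noCut_A noExt_A F h trivial)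
      (fun h => farA_cert (s1 := true) (s2 := true) rfl hκ covF12b covF11 hx hx'
        Pool.Agent.Strip051.G.I1_8_3_16.Tab.C.FA11.c_pp_213_b noCut_A noExt_A F h trivial)

theorem FA11_pp_303 {κ x : ℝ} (hκ : κ * h0 = ken x) (hx : ((134217728 : ℕ) : ℝ) / S ≤ x) (hx' : x ≤ (((134217728 : ℕ) : ℝ) + (67108864 : ℕ)) / S) :
    TriA PP.cur (farS κ (h0 * x) (tbl tKF x) (tbl tL x)) 3 0 3 1 1 1 1 :=
  (sideF hx hx').farA (Or.inl rfl) (Or.inl rfl) fun y y' F =>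
    farA_cert (s1 := true) (s2 := true) rfl hκ covF13 covF10 hx hx'
        Pool.Agent.Strip051.G.I1_8_3_16.Tab.C.FA11.c_pp_303 noCut_A noExt_A F trivial trivial

theorem FA11_pp_313 {κ x : ℝ} (hκ : κ * h0 = ken x) (hx : ((134217728 : ℕ) : ℝ) / S ≤ x) (hx' : x ≤ (((134217728 : ℕ) : ℝ) + (67108864 : ℕ)) / S) :
    TriA PP.cur (farS κ (h0 * x) (tbl tKF x) (tbl tL x)) 3 1 3 1 1 1 1 :=
  (sideF hx hx').farA (Or.inl rfl) (Or.inl rfl) fun y y' F =>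
    farA_cert (s1 := true) (s2 := true) rfl hκ covF13 covF11 hx hx'
        Pool.Agent.Strip051.G.I1_8_3_16.Tab.C.FA11.c_pp_313 noCut_A noExt_A F trivial trivial

theorem FA11_pm_001 {κ x : ℝ} (hκ : κ * h0 = ken x) (hx : ((134217728 : ℕ) : ℝ) / S ≤ x) (hx' : x ≤ (((134217728 : ℕ) : ℝ) + (67108864 : ℕ)) / S) :
    TriA PP.cur (farS κ (h0 * x) (tbl tKF x) (tbl tL x)) 0 0 1 1 1 1 (-1) :=
  (sideF hx hx').farA (Or.inl rfl) (Or.inr rfl) fun y y' F =>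
    farA_cert (s1 := true) (s2 := false) rfl hκ covF10 covF10 hx hx'
        Pool.Agent.Strip051.G.I1_8_3_16.Tab.C.FA11.c_pm_001 noCut_A noExt_A F trivial trivial

theorem FA11_pm_011 {κ x : ℝ} (hκ : κ * h0 = ken x) (hx : ((134217728 : ℕ) : ℝ) / S ≤ x) (hx' : x ≤ (((134217728 : ℕ) : ℝ) + (67108864 : ℕ)) / S) :
    TriA PP.cur (farS κ (h0 * x) (tbl tKF x) (tbl tL x)) 0 1 1 1 1 1 (-1) :=
  (sideF hx hx').farA (Or.inl rfl) (Or.inr rfl) fun y y' F =>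
    farA_cert (s1 := true) (s2 := false) rfl hκ covF10 covF11 hx hx'
        Pool.Agent.Strip051.G.I1_8_3_16.Tab.C.FA11.c_pm_011 noCut_A noExt_A F trivial trivial

theorem FA11_pm_012 {κ x : ℝ} (hκ : κ * h0 = ken x) (hx : ((134217728 : ℕ) : ℝ) / S ≤ x) (hx' : x ≤ (((134217728 : ℕ) : ℝ) + (67108864 : ℕ)) / S) :
    TriA PP.cur (farS κ (h0 * x) (tbl tKF x) (tbl tL x)) 0 1 2 1 1 1 (-1) :=
  (sideF hx hx').farA (Or.inl rfl) (Or.inr rfl) fun y y' F =>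
    farA_cert (s1 := true) (s2 := false) rfl hκ covF10 covF11 hx hx'
        Pool.Agent.Strip051.G.I1_8_3_16.Tab.C.FA11.c_pm_012 noCut_A noExt_A F trivial trivial

theorem FA11_pm_022 {κ x : ℝ} (hκ : κ * h0 = ken x) (hx : ((134217728 : ℕ) : ℝ) / S ≤ x) (hx' : x ≤ (((134217728 : ℕ) : ℝ) + (67108864 : ℕ)) / S) :
    TriA PP.cur (farS κ (h0 * x) (tbl tKF x) (tbl tL x)) 0 2 2 1 1 1 (-1) :=
  (sideF hx hx').farA (Or.inl rfl) (Or.inr rfl) fun y y' F =>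
    (lt_or_ge (h0 * y') 1).elim
      (fun g => farA_cert (s1 := true) (s2 := false) rfl hκ covF10 covF12a hx hx'
        Pool.Agent.Strip051.G.I1_8_3_16.Tab.C.FA11.c_pm_022_a (cutA_cons (Pool.Agent.Strip051.G.I1_8_3_16.Tab.altF_A022E_11 hκ hx hx') cutA_nil) noExt_A F trivial g)
      (fun g => farA_cert (s1 := true) (s2 := false) rfl hκ covF10 covF12b hx hx'
        Pool.Agent.Strip051.G.I1_8_3_16.Tab.C.FA11.c_pm_022_b (cutA_cons (Pool.Agent.Strip051.G.I1_8_3_16.Tab.altF_A022E_11 hκ hx hx') cutA_nil) noExt_A F trivial g)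

theorem FA11_pm_023 {κ x : ℝ} (hκ : κ * h0 = ken x) (hx : ((134217728 : ℕ) : ℝ) / S ≤ x) (hx' : x ≤ (((134217728 : ℕ) : ℝ) + (67108864 : ℕ)) / S) :
    TriA PP.cur (farS κ (h0 * x) (tbl tKF x) (tbl tL x)) 0 2 3 1 1 1 (-1) :=
  (sideF hx hx').farA (Or.inl rfl) (Or.inr rfl) fun y y' F =>
    (lt_or_ge (h0 * y') 1).elim
      (fun g => farA_cert (s1 := true) (s2 := false) rfl hκ covF10 covF12a hx hx'
        Pool.Agent.Strip051.G.I1_8_3_16.Tab.C.FA11.c_pm_023_a noCut_A noExt_A F trivial g)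
      (fun g => farA_cert (s1 := true) (s2 := false) rfl hκ covF10 covF12b hx hx'
        Pool.Agent.Strip051.G.I1_8_3_16.Tab.C.FA11.c_pm_023_b noCut_A noExt_A F trivial g)

theorem FA11_pm_033 {κ x : ℝ} (hκ : κ * h0 = ken x) (hx : ((134217728 : ℕ) : ℝ) / S ≤ x) (hx' : x ≤ (((134217728 : ℕ) : ℝ) + (67108864 : ℕ)) / S) :
    TriA PP.cur (farS κ (h0 * x) (tbl tKF x) (tbl tL x)) 0 3 3 1 1 1 (-1) :=
  (sideF hx hx').farA (Or.inl rfl) (Or.inr rfl) fun y y' F =>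
    farA_cert (s1 := true) (s2 := false) rfl hκ covF10 covF13 hx hx'
        Pool.Agent.Strip051.G.I1_8_3_16.Tab.C.FA11.c_pm_033 noCut_A noExt_A F trivial trivial

theorem FA11_pm_101 {κ x : ℝ} (hκ : κ * h0 = ken x) (hx : ((134217728 : ℕ) : ℝ) / S ≤ x) (hx' : x ≤ (((134217728 : ℕ) : ℝ) + (67108864 : ℕ)) / S) :
    TriA PP.cur (farS κ (h0 * x) (tbl tKF x) (tbl tL x)) 1 0 1 1 1 1 (-1) :=
  (sideF hx hx').farA (Or.inl rfl) (Or.inr rfl) fun y y' F =>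
    farA_cert (s1 := true) (s2 := false) rfl hκ covF11 covF10 hx hx'
        Pool.Agent.Strip051.G.I1_8_3_16.Tab.C.FA11.c_pm_101 noCut_A noExt_A F trivial trivial

theorem FA11_pm_102 {κ x : ℝ} (hκ : κ * h0 = ken x) (hx : ((134217728 : ℕ) : ℝ) / S ≤ x) (hx' : x ≤ (((134217728 : ℕ) : ℝ) + (67108864 : ℕ)) / S) :
    TriA PP.cur (farS κ (h0 * x) (tbl tKF x) (tbl tL x)) 1 0 2 1 1 1 (-1) :=
  (sideF hx hx').farA (Or.inl rfl) (Or.inr rfl) fun y y' F =>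
    farA_cert (s1 := true) (s2 := false) rfl hκ covF11 covF10 hx hx'
        Pool.Agent.Strip051.G.I1_8_3_16.Tab.C.FA11.c_pm_102 noCut_A noExt_A F trivial trivial

theorem FA11_pm_112 {κ x : ℝ} (hκ : κ * h0 = ken x) (hx : ((134217728 : ℕ) : ℝ) / S ≤ x) (hx' : x ≤ (((134217728 : ℕ) : ℝ) + (67108864 : ℕ)) / S) :
    TriA PP.cur (farS κ (h0 * x) (tbl tKF x) (tbl tL x)) 1 1 2 1 1 1 (-1) :=
  (sideF hx hx').farA (Or.inl rfl) (Or.inr rfl) fun y y' F =>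
    farA_cert (s1 := true) (s2 := false) rfl hκ covF11 covF11 hx hx'
        Pool.Agent.Strip051.G.I1_8_3_16.Tab.C.FA11.c_pm_112 noCut_A noExt_A F trivial trivial

theorem FA11_pm_113 {κ x : ℝ} (hκ : κ * h0 = ken x) (hx : ((134217728 : ℕ) : ℝ) / S ≤ x) (hx' : x ≤ (((134217728 : ℕ) : ℝ) + (67108864 : ℕ)) / S) :
    TriA PP.cur (farS κ (h0 * x) (tbl tKF x) (tbl tL x)) 1 1 3 1 1 1 (-1) :=
  (sideF hx hx').farA (Or.inl rfl) (Or.inr rfl) fun y y' F =>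
    farA_cert (s1 := true) (s2 := false) rfl hκ covF11 covF11 hx hx'
        Pool.Agent.Strip051.G.I1_8_3_16.Tab.C.FA11.c_pm_113 noCut_A noExt_A F trivial trivial

theorem FA11_pm_123 {κ x : ℝ} (hκ : κ * h0 = ken x) (hx : ((134217728 : ℕ) : ℝ) / S ≤ x) (hx' : x ≤ (((134217728 : ℕ) : ℝ) + (67108864 : ℕ)) / S) :
    TriA PP.cur (farS κ (h0 * x) (tbl tKF x) (tbl tL x)) 1 2 3 1 1 1 (-1) :=
  (sideF hx hx').farA (Or.inl rfl) (Or.inr rfl) fun y y' F =>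
    (lt_or_ge (h0 * y') 1).elim
      (fun g => farA_cert (s1 := true) (s2 := false) rfl hκ covF11 covF12a hx hx'
        Pool.Agent.Strip051.G.I1_8_3_16.Tab.C.FA11.c_pm_123_a noCut_A noExt_A F trivial g)
      (fun g => farA_cert (s1 := true) (s2 := false) rfl hκ covF11 covF12b hx hx'
        Pool.Agent.Strip051.G.I1_8_3_16.Tab.C.FA11.c_pm_123_b noCut_A noExt_A F trivial g)

theorem FA11_pm_133 {κ x : ℝ} (hκ : κ * h0 = ken x) (hx : ((134217728 : ℕ) : ℝ) / S ≤ x) (hx' : x ≤ (((134217728 : ℕ) : ℝ) + (67108864 : ℕ)) / S) :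
    TriA PP.cur (farS κ (h0 * x) (tbl tKF x) (tbl tL x)) 1 3 3 1 1 1 (-1) :=
  (sideF hx hx').farA (Or.inl rfl) (Or.inr rfl) fun y y' F =>
    farA_cert (s1 := true) (s2 := false) rfl hκ covF11 covF13 hx hx'
        Pool.Agent.Strip051.G.I1_8_3_16.Tab.C.FA11.c_pm_133 noCut_A noExt_A F trivial trivial

theorem FA11_pm_202 {κ x : ℝ} (hκ : κ * h0 = ken x) (hx : ((134217728 : ℕ) : ℝ) / S ≤ x) (hx' : x ≤ (((134217728 : ℕ) : ℝ) + (67108864 : ℕ)) / S) :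
    TriA PP.cur (farS κ (h0 * x) (tbl tKF x) (tbl tL x)) 2 0 2 1 1 1 (-1) :=
  (sideF hx hx').farA (Or.inl rfl) (Or.inr rfl) fun y y' F =>
    (lt_or_ge (h0 * y) 1).elim
      (fun h => farA_cert (s1 := true) (s2 := false) rfl hκ covF12a covF10 hx hx'
        Pool.Agent.Strip051.G.I1_8_3_16.Tab.C.FA11.c_pm_202_a (cutA_cons (Pool.Agent.Strip051.G.I1_8_3_16.Tab.altF_A202E_11 hκ hx hx') cutA_nil) noExt_A F h trivial)
      (fun h => farA_cert (s1 := true) (s2 := false) rfl hκ covF12b covF10 hx hx'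
        Pool.Agent.Strip051.G.I1_8_3_16.Tab.C.FA11.c_pm_202_b (cutA_cons (Pool.Agent.Strip051.G.I1_8_3_16.Tab.altF_A202E_11 hκ hx hx') cutA_nil) noExt_A F h trivial)

theorem FA11_pm_203 {κ x : ℝ} (hκ : κ * h0 = ken x) (hx : ((134217728 : ℕ) : ℝ) / S ≤ x) (hx' : x ≤ (((134217728 : ℕ) : ℝ) + (67108864 : ℕ)) / S) :
    TriA PP.cur (farS κ (h0 * x) (tbl tKF x) (tbl tL x)) 2 0 3 1 1 1 (-1) :=
  (sideF hx hx').farA (Or.inl rfl) (Or.inr rfl) fun y y' F =>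
    (lt_or_ge (h0 * y) 1).elim
      (fun h => farA_cert (s1 := true) (s2 := false) rfl hκ covF12a covF10 hx hx'
        Pool.Agent.Strip051.G.I1_8_3_16.Tab.C.FA11.c_pm_203_a noCut_A noExt_A F h trivial)
      (fun h => farA_cert (s1 := true) (s2 := false) rfl hκ covF12b covF10 hx hx'
        Pool.Agent.Strip051.G.I1_8_3_16.Tab.C.FA11.c_pm_203_b noCut_A noExt_A F h trivial)

theorem FA11_pm_213 {κ x : ℝ} (hκ : κ * h0 = ken x) (hx : ((134217728 : ℕ) : ℝ) / S ≤ x) (hx' : x ≤ (((134217728 : ℕ) : ℝ) + (67108864 : ℕ)) / S) :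
    TriA PP.cur (farS κ (h0 * x) (tbl tKF x) (tbl tL x)) 2 1 3 1 1 1 (-1) :=
  (sideF hx hx').farA (Or.inl rfl) (Or.inr rfl) fun y y' F =>
    (lt_or_ge (h0 * y) 1).elim
      (fun h => farA_cert (s1 := true) (s2 := false) rfl hκ covF12a covF11 hx hx'
        Pool.Agent.Strip051.G.I1_8_3_16.Tab.C.FA11.c_pm_213_a noCut_A noExt_A F h trivial)
      (fun h => farA_cert (s1 := true) (s2 := false) rfl hκ covF12b covF11 hx hx'
        Pool.Agent.Strip051.G.I1_8_3_16.Tab.C.FA11.c_pm_213_b noCut_A noExt_A F h trivial)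

theorem FA11_pm_303 {κ x : ℝ} (hκ : κ * h0 = ken x) (hx : ((134217728 : ℕ) : ℝ) / S ≤ x) (hx' : x ≤ (((134217728 : ℕ) : ℝ) + (67108864 : ℕ)) / S) :
    TriA PP.cur (farS κ (h0 * x) (tbl tKF x) (tbl tL x)) 3 0 3 1 1 1 (-1) :=
  (sideF hx hx').farA (Or.inl rfl) (Or.inr rfl) fun y y' F =>
    farA_cert (s1 := true) (s2 := false) rfl hκ covF13 covF10 hx hx'
        Pool.Agent.Strip051.G.I1_8_3_16.Tab.C.FA11.c_pm_303 noCut_A noExt_A F trivial trivial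

theorem FA11_pm_313 {κ x : ℝ} (hκ : κ * h0 = ken x) (hx : ((134217728 : ℕ) : ℝ) / S ≤ x) (hx' : x ≤ (((134217728 : ℕ) : ℝ) + (67108864 : ℕ)) / S) :
    TriA PP.cur (farS κ (h0 * x) (tbl tKF x) (tbl tL x)) 3 1 3 1 1 1 (-1) :=
  (sideF hx hx').farA (Or.inl rfl) (Or.inr rfl) fun y y' F =>
    farA_cert (s1 := true) (s2 := false) rfl hκ covF13 covF11 hx hx'
        Pool.Agent.Strip051.G.I1_8_3_16.Tab.C.FA11.c_pm_313 noCut_A noExt_A F trivial trivial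

theorem FA11_mm_001 {κ x : ℝ} (hκ : κ * h0 = ken x) (hx : ((134217728 : ℕ) : ℝ) / S ≤ x) (hx' : x ≤ (((134217728 : ℕ) : ℝ) + (67108864 : ℕ)) / S) :
    TriA PP.cur (farS κ (h0 * x) (tbl tKF x) (tbl tL x)) 0 0 1 1 1 (-1) (-1) :=
  (sideF hx hx').farA (Or.inr rfl) (Or.inr rfl) fun y y' F =>
    farA_cert (s1 := false) (s2 := false) rfl hκ covF10 covF10 hx hx'
        Pool.Agent.Strip051.G.I1_8_3_16.Tab.C.FA11.c_mm_001 noCut_A noExt_A F trivial trivial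

theorem FA11_mm_011 {κ x : ℝ} (hκ : κ * h0 = ken x) (hx : ((134217728 : ℕ) : ℝ) / S ≤ x) (hx' : x ≤ (((134217728 : ℕ) : ℝ) + (67108864 : ℕ)) / S) :
    TriA PP.cur (farS κ (h0 * x) (tbl tKF x) (tbl tL x)) 0 1 1 1 1 (-1) (-1) :=
  (sideF hx hx').farA (Or.inr rfl) (Or.inr rfl) fun y y' F =>
    farA_cert (s1 := false) (s2 := false) rfl hκ covF10 covF11 hx hx'
        Pool.Agent.Strip051.G.I1_8_3_16.Tab.C.FA11.c_mm_011 noCut_A noExt_A F trivial trivial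

theorem FA11_mm_012 {κ x : ℝ} (hκ : κ * h0 = ken x) (hx : ((134217728 : ℕ) : ℝ) / S ≤ x) (hx' : x ≤ (((134217728 : ℕ) : ℝ) + (67108864 : ℕ)) / S) :
    TriA PP.cur (farS κ (h0 * x) (tbl tKF x) (tbl tL x)) 0 1 2 1 1 (-1) (-1) :=
  (sideF hx hx').farA (Or.inr rfl) (Or.inr rfl) fun y y' F =>
    farA_cert (s1 := false) (s2 := false) rfl hκ covF10 covF11 hx hx'
        Pool.Agent.Strip051.G.I1_8_3_16.Tab.C.FA11.c_mm_012 noCut_A noExt_A F trivial trivial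

theorem FA11_mm_022 {κ x : ℝ} (hκ : κ * h0 = ken x) (hx : ((134217728 : ℕ) : ℝ) / S ≤ x) (hx' : x ≤ (((134217728 : ℕ) : ℝ) + (67108864 : ℕ)) / S) :
    TriA PP.cur (farS κ (h0 * x) (tbl tKF x) (tbl tL x)) 0 2 2 1 1 (-1) (-1) :=
  (sideF hx hx').farA (Or.inr rfl) (Or.inr rfl) fun y y' F =>
    (lt_or_ge (h0 * y') 1).elim
      (fun g => farA_cert (s1 := false) (s2 := false) rfl hκ covF10 covF12a hx hx'
        Pool.Agent.Strip051.G.I1_8_3_16.Tab.C.FA11.c_mm_022_a noCut_A noExt_A F trivial g)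
      (fun g => farA_cert (s1 := false) (s2 := false) rfl hκ covF10 covF12b hx hx'
        Pool.Agent.Strip051.G.I1_8_3_16.Tab.C.FA11.c_mm_022_b noCut_A noExt_A F trivial g)

theorem FA11_mm_023 {κ x : ℝ} (hκ : κ * h0 = ken x) (hx : ((134217728 : ℕ) : ℝ) / S ≤ x) (hx' : x ≤ (((134217728 : ℕ) : ℝ) + (67108864 : ℕ)) / S) :
    TriA PP.cur (farS κ (h0 * x) (tbl tKF x) (tbl tL x)) 0 2 3 1 1 (-1) (-1) :=
  (sideF hx hx').farA (Or.inr rfl) (Or.inr rfl) fun y y' F =>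
    (lt_or_ge (h0 * y') 1).elim
      (fun g => farA_cert (s1 := false) (s2 := false) rfl hκ covF10 covF12a hx hx'
        Pool.Agent.Strip051.G.I1_8_3_16.Tab.C.FA11.c_mm_023_a noCut_A noExt_A F trivial g)
      (fun g => farA_cert (s1 := false) (s2 := false) rfl hκ covF10 covF12b hx hx'
        Pool.Agent.Strip051.G.I1_8_3_16.Tab.C.FA11.c_mm_023_b noCut_A noExt_A F trivial g)

theorem FA11_mm_033 {κ x : ℝ} (hκ : κ * h0 = ken x) (hx : ((134217728 : ℕ) : ℝ) / S ≤ x) (hx' : x ≤ (((134217728 : ℕ) : ℝ) + (67108864 : ℕ)) / S) :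
    TriA PP.cur (farS κ (h0 * x) (tbl tKF x) (tbl tL x)) 0 3 3 1 1 (-1) (-1) :=
  (sideF hx hx').farA (Or.inr rfl) (Or.inr rfl) fun y y' F =>
    farA_cert (s1 := false) (s2 := false) rfl hκ covF10 covF13 hx hx'
        Pool.Agent.Strip051.G.I1_8_3_16.Tab.C.FA11.c_mm_033 noCut_A noExt_A F trivial trivial

theorem FA11_mm_101 {κ x : ℝ} (hκ : κ * h0 = ken x) (hx : ((134217728 : ℕ) : ℝ) / S ≤ x) (hx' : x ≤ (((134217728 : ℕ) : ℝ) + (67108864 : ℕ)) / S) :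
    TriA PP.cur (farS κ (h0 * x) (tbl tKF x) (tbl tL x)) 1 0 1 1 1 (-1) (-1) :=
  (sideF hx hx').farA (Or.inr rfl) (Or.inr rfl) fun y y' F =>
    farA_cert (s1 := false) (s2 := false) rfl hκ covF11 covF10 hx hx'
        Pool.Agent.Strip051.G.I1_8_3_16.Tab.C.FA11.c_mm_101 noCut_A noExt_A F trivial trivial

theorem FA11_mm_102 {κ x : ℝ} (hκ : κ * h0 = ken x) (hx : ((134217728 : ℕ) : ℝ) / S ≤ x) (hx' : x ≤ (((134217728 : ℕ) : ℝ) + (67108864 : ℕ)) / S) :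
    TriA PP.cur (farS κ (h0 * x) (tbl tKF x) (tbl tL x)) 1 0 2 1 1 (-1) (-1) :=
  (sideF hx hx').farA (Or.inr rfl) (Or.inr rfl) fun y y' F =>
    farA_cert (s1 := false) (s2 := false) rfl hκ covF11 covF10 hx hx'
        Pool.Agent.Strip051.G.I1_8_3_16.Tab.C.FA11.c_mm_102 noCut_A noExt_A F trivial trivial

theorem FA11_mm_112 {κ x : ℝ} (hκ : κ * h0 = ken x) (hx : ((134217728 : ℕ) : ℝ) / S ≤ x) (hx' : x ≤ (((134217728 : ℕ) : ℝ) + (67108864 : ℕ)) / S) :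
    TriA PP.cur (farS κ (h0 * x) (tbl tKF x) (tbl tL x)) 1 1 2 1 1 (-1) (-1) :=
  (sideF hx hx').farA (Or.inr rfl) (Or.inr rfl) fun y y' F =>
    farA_cert (s1 := false) (s2 := false) rfl hκ covF11 covF11 hx hx'
        Pool.Agent.Strip051.G.I1_8_3_16.Tab.C.FA11.c_mm_112 noCut_A noExt_A F trivial trivial

theorem FA11_mm_113 {κ x : ℝ} (hκ : κ * h0 = ken x) (hx : ((134217728 : ℕ) : ℝ) / S ≤ x) (hx' : x ≤ (((134217728 : ℕ) : ℝ) + (67108864 : ℕ)) / S) :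
    TriA PP.cur (farS κ (h0 * x) (tbl tKF x) (tbl tL x)) 1 1 3 1 1 (-1) (-1) :=
  (sideF hx hx').farA (Or.inr rfl) (Or.inr rfl) fun y y' F =>
    farA_cert (s1 := false) (s2 := false) rfl hκ covF11 covF11 hx hx'
        Pool.Agent.Strip051.G.I1_8_3_16.Tab.C.FA11.c_mm_113 noCut_A noExt_A F trivial trivial

theorem FA11_mm_123 {κ x : ℝ} (hκ : κ * h0 = ken x) (hx : ((134217728 : ℕ) : ℝ) / S ≤ x) (hx' : x ≤ (((134217728 : ℕ) : ℝ) + (67108864 : ℕ)) / S) :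
    TriA PP.cur (farS κ (h0 * x) (tbl tKF x) (tbl tL x)) 1 2 3 1 1 (-1) (-1) :=
  (sideF hx hx').farA (Or.inr rfl) (Or.inr rfl) fun y y' F =>
    (lt_or_ge (h0 * y') 1).elim
      (fun g => farA_cert (s1 := false) (s2 := false) rfl hκ covF11 covF12a hx hx'
        Pool.Agent.Strip051.G.I1_8_3_16.Tab.C.FA11.c_mm_123_a noCut_A noExt_A F trivial g)
      (fun g => farA_cert (s1 := false) (s2 := false) rfl hκ covF11 covF12b hx hx'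
        Pool.Agent.Strip051.G.I1_8_3_16.Tab.C.FA11.c_mm_123_b noCut_A noExt_A F trivial g)

theorem FA11_mm_133 {κ x : ℝ} (hκ : κ * h0 = ken x) (hx : ((134217728 : ℕ) : ℝ) / S ≤ x) (hx' : x ≤ (((134217728 : ℕ) : ℝ) + (67108864 : ℕ)) / S) :
    TriA PP.cur (farS κ (h0 * x) (tbl tKF x) (tbl tL x)) 1 3 3 1 1 (-1) (-1) :=
  (sideF hx hx').farA (Or.inr rfl) (Or.inr rfl) fun y y' F =>
    farA_cert (s1 := false) (s2 := false) rfl hκ covF11 covF13 hx hx'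
        Pool.Agent.Strip051.G.I1_8_3_16.Tab.C.FA11.c_mm_133 noCut_A noExt_A F trivial trivial

theorem FA11_mm_202 {κ x : ℝ} (hκ : κ * h0 = ken x) (hx : ((134217728 : ℕ) : ℝ) / S ≤ x) (hx' : x ≤ (((134217728 : ℕ) : ℝ) + (67108864 : ℕ)) / S) :
    TriA PP.cur (farS κ (h0 * x) (tbl tKF x) (tbl tL x)) 2 0 2 1 1 (-1) (-1) :=
  (sideF hx hx').farA (Or.inr rfl) (Or.inr rfl) fun y y' F =>
    (lt_or_ge (h0 * y) 1).elim
      (fun h => farA_cert (s1 := false) (s2 := false) rfl hκ covF12a covF10 hx hx'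
        Pool.Agent.Strip051.G.I1_8_3_16.Tab.C.FA11.c_mm_202_a (cutA_cons (Pool.Agent.Strip051.G.I1_8_3_16.Tab.altF_A202R_11 hκ hx hx') cutA_nil) noExt_A F h trivial)
      (fun h => farA_cert (s1 := false) (s2 := false) rfl hκ covF12b covF10 hx hx'
        Pool.Agent.Strip051.G.I1_8_3_16.Tab.C.FA11.c_mm_202_b (cutA_cons (Pool.Agent.Strip051.G.I1_8_3_16.Tab.altF_A202R_11 hκ hx hx') cutA_nil) noExt_A F h trivial)

theorem FA11_mm_203 {κ x : ℝ} (hκ : κ * h0 = ken x) (hx : ((134217728 : ℕ) : ℝ) / S ≤ x) (hx' : x ≤ (((134217728 : ℕ) : ℝ) + (67108864 : ℕ)) / S) :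
    TriA PP.cur (farS κ (h0 * x) (tbl tKF x) (tbl tL x)) 2 0 3 1 1 (-1) (-1) :=
  (sideF hx hx').farA (Or.inr rfl) (Or.inr rfl) fun y y' F =>
    (lt_or_ge (h0 * y) 1).elim
      (fun h => farA_cert (s1 := false) (s2 := false) rfl hκ covF12a covF10 hx hx'
        Pool.Agent.Strip051.G.I1_8_3_16.Tab.C.FA11.c_mm_203_a noCut_A noExt_A F h trivial)
      (fun h => farA_cert (s1 := false) (s2 := false) rfl hκ covF12b covF10 hx hx'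
        Pool.Agent.Strip051.G.I1_8_3_16.Tab.C.FA11.c_mm_203_b noCut_A noExt_A F h trivial)

theorem FA11_mm_213 {κ x : ℝ} (hκ : κ * h0 = ken x) (hx : ((134217728 : ℕ) : ℝ) / S ≤ x) (hx' : x ≤ (((134217728 : ℕ) : ℝ) + (67108864 : ℕ)) / S) :
    TriA PP.cur (farS κ (h0 * x) (tbl tKF x) (tbl tL x)) 2 1 3 1 1 (-1) (-1) :=
  (sideF hx hx').farA (Or.inr rfl) (Or.inr rfl) fun y y' F =>
    (lt_or_ge (h0 * y) 1).elim
      (fun h => farA_cert (s1 := false) (s2 := false) rfl hκ covF12a covF11 hx hx'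
        Pool.Agent.Strip051.G.I1_8_3_16.Tab.C.FA11.c_mm_213_a noCut_A noExt_A F h trivial)
      (fun h => farA_cert (s1 := false) (s2 := false) rfl hκ covF12b covF11 hx hx'
        Pool.Agent.Strip051.G.I1_8_3_16.Tab.C.FA11.c_mm_213_b noCut_A noExt_A F h trivial)

theorem FA11_mm_303 {κ x : ℝ} (hκ : κ * h0 = ken x) (hx : ((134217728 : ℕ) : ℝ) / S ≤ x) (hx' : x ≤ (((134217728 : ℕ) : ℝ) + (67108864 : ℕ)) / S) :
    TriA PP.cur (farS κ (h0 * x) (tbl tKF x) (tbl tL x)) 3 0 3 1 1 (-1) (-1) :=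
  (sideF hx hx').farA (Or.inr rfl) (Or.inr rfl) fun y y' F =>
    farA_cert (s1 := false) (s2 := false) rfl hκ covF13 covF10 hx hx'
        Pool.Agent.Strip051.G.I1_8_3_16.Tab.C.FA11.c_mm_303 noCut_A noExt_A F trivial trivial

theorem FA11_mm_313 {κ x : ℝ} (hκ : κ * h0 = ken x) (hx : ((134217728 : ℕ) : ℝ) / S ≤ x) (hx' : x ≤ (((134217728 : ℕ) : ℝ) + (67108864 : ℕ)) / S) :
    TriA PP.cur (farS κ (h0 * x) (tbl tKF x) (tbl tL x)) 3 1 3 1 1 (-1) (-1) :=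
  (sideF hx hx').farA (Or.inr rfl) (Or.inr rfl) fun y y' F =>
    farA_cert (s1 := false) (s2 := false) rfl hκ covF13 covF11 hx hx'
        Pool.Agent.Strip051.G.I1_8_3_16.Tab.C.FA11.c_mm_313 noCut_A noExt_A F trivial trivial

theorem FA11 {κ x : ℝ} (hκ : κ * h0 = ken x) (hx : ((134217728 : ℕ) : ℝ) / S ≤ x) (hx' : x ≤ (((134217728 : ℕ) : ℝ) + (67108864 : ℕ)) / S) : AllTA PP.cur (farS κ (h0 * x) (tbl tKF x) (tbl tL x)) 1 1 where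
  pp := all17 (Q := fun a b c => TriA PP.cur (farS κ (h0 * x) (tbl tKF x) (tbl tL x)) a b c 1 1 1 1)
    (FA11_pp_001 hκ hx hx') (FA11_pp_011 hκ hx hx') (FA11_pp_012 hκ hx hx') (FA11_pp_022 hκ hx hx') (FA11_pp_023 hκ hx hx') (FA11_pp_033 hκ hx hx') (FA11_pp_101 hκ hx hx') (FA11_pp_102 hκ hx hx') (FA11_pp_112 hκ hx hx') (FA11_pp_113 hκ hx hx') (FA11_pp_123 hκ hx hx') (FA11_pp_133 hκ hx hx') (FA11_pp_202 hκ hx hx') (FA11_pp_203 hκ hx hx') (FA11_pp_213 hκ hx hx') (FA11_pp_303 hκ hx hx') (FA11_pp_313 hκ hx hx')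
  pm := all17 (Q := fun a b c => TriA PP.cur (farS κ (h0 * x) (tbl tKF x) (tbl tL x)) a b c 1 1 1 (-1))
    (FA11_pm_001 hκ hx hx') (FA11_pm_011 hκ hx hx') (FA11_pm_012 hκ hx hx') (FA11_pm_022 hκ hx hx') (FA11_pm_023 hκ hx hx') (FA11_pm_033 hκ hx hx') (FA11_pm_101 hκ hx hx') (FA11_pm_102 hκ hx hx') (FA11_pm_112 hκ hx hx') (FA11_pm_113 hκ hx hx') (FA11_pm_123 hκ hx hx') (FA11_pm_133 hκ hx hx') (FA11_pm_202 hκ hx hx') (FA11_pm_203 hκ hx hx') (FA11_pm_213 hκ hx hx') (FA11_pm_303 hκ hx hx') (FA11_pm_313 hκ hx hx')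
  mm := all17 (Q := fun a b c => TriA PP.cur (farS κ (h0 * x) (tbl tKF x) (tbl tL x)) a b c 1 1 (-1) (-1))
    (FA11_mm_001 hκ hx hx') (FA11_mm_011 hκ hx hx') (FA11_mm_012 hκ hx hx') (FA11_mm_022 hκ hx hx') (FA11_mm_023 hκ hx hx') (FA11_mm_033 hκ hx hx') (FA11_mm_101 hκ hx hx') (FA11_mm_102 hκ hx hx') (FA11_mm_112 hκ hx hx') (FA11_mm_113 hκ hx hx') (FA11_mm_123 hκ hx hx') (FA11_mm_133 hκ hx hx') (FA11_mm_202 hκ hx hx') (FA11_mm_203 hκ hx hx') (FA11_mm_213 hκ hx hx') (FA11_mm_303 hκ hx hx') (FA11_mm_313 hκ hx hx')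

theorem FA12_pp_001 {κ x : ℝ} (hκ : κ * h0 = ken x) (hx : ((134217728 : ℕ) : ℝ) / S ≤ x) (hx' : x ≤ (((134217728 : ℕ) : ℝ) + (67108864 : ℕ)) / S) :
    TriA PP.cur (farS κ (h0 * x) (tbl tKF x) (tbl tL x)) 0 0 1 1 2 1 1 :=
  (sideF hx hx').farA (Or.inl rfl) (Or.inl rfl) fun y y' F =>
    farA_cert (s1 := true) (s2 := true) rfl hκ covF10 covF20 hx hx'
        Pool.Agent.Strip051.G.I1_8_3_16.Tab.C.FA12.c_pp_001 noCut_A noExt_A F trivial trivial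

theorem FA12_pp_011 {κ x : ℝ} (hκ : κ * h0 = ken x) (hx : ((134217728 : ℕ) : ℝ) / S ≤ x) (hx' : x ≤ (((134217728 : ℕ) : ℝ) + (67108864 : ℕ)) / S) :
    TriA PP.cur (farS κ (h0 * x) (tbl tKF x) (tbl tL x)) 0 1 1 1 2 1 1 :=
  (sideF hx hx').farA (Or.inl rfl) (Or.inl rfl) fun y y' F =>
    farA_cert (s1 := true) (s2 := true) rfl hκ covF10 covF21 hx hx'
        Pool.Agent.Strip051.G.I1_8_3_16.Tab.C.FA12.c_pp_011 noCut_A noExt_A F trivial trivial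

theorem FA12_pp_012 {κ x : ℝ} (hκ : κ * h0 = ken x) (hx : ((134217728 : ℕ) : ℝ) / S ≤ x) (hx' : x ≤ (((134217728 : ℕ) : ℝ) + (67108864 : ℕ)) / S) :
    TriA PP.cur (farS κ (h0 * x) (tbl tKF x) (tbl tL x)) 0 1 2 1 2 1 1 :=
  (sideF hx hx').farA (Or.inl rfl) (Or.inl rfl) fun y y' F =>
    farA_cert (s1 := true) (s2 := true) rfl hκ covF10 covF21 hx hx'
        Pool.Agent.Strip051.G.I1_8_3_16.Tab.C.FA12.c_pp_012 noCut_A noExt_A F trivial trivial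

theorem FA12_pp_022 {κ x : ℝ} (hκ : κ * h0 = ken x) (hx : ((134217728 : ℕ) : ℝ) / S ≤ x) (hx' : x ≤ (((134217728 : ℕ) : ℝ) + (67108864 : ℕ)) / S) :
    TriA PP.cur (farS κ (h0 * x) (tbl tKF x) (tbl tL x)) 0 2 2 1 2 1 1 :=
  (sideF hx hx').farA (Or.inl rfl) (Or.inl rfl) fun y y' F =>
    (lt_or_ge (h0 * y') 1).elim
      (fun g => farA_cert (s1 := true) (s2 := true) rfl hκ covF10 covF22a hx hx'
        Pool.Agent.Strip051.G.I1_8_3_16.Tab.C.FA12.c_pp_022_a (cutA_cons (Pool.Agent.Strip051.G.I1_8_3_16.Tab.altF_A022L_12 hκ hx hx') cutA_nil) noExt_A F trivial g)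
      (fun g => farA_cert (s1 := true) (s2 := true) rfl hκ covF10 covF22b hx hx'
        Pool.Agent.Strip051.G.I1_8_3_16.Tab.C.FA12.c_pp_022_b (cutA_cons (Pool.Agent.Strip051.G.I1_8_3_16.Tab.altF_A022L_12 hκ hx hx') cutA_nil) noExt_A F trivial g)

theorem FA12_pp_023 {κ x : ℝ} (hκ : κ * h0 = ken x) (hx : ((134217728 : ℕ) : ℝ) / S ≤ x) (hx' : x ≤ (((134217728 : ℕ) : ℝ) + (67108864 : ℕ)) / S) :
    TriA PP.cur (farS κ (h0 * x) (tbl tKF x) (tbl tL x)) 0 2 3 1 2 1 1 :=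
  (sideF hx hx').farA (Or.inl rfl) (Or.inl rfl) fun y y' F =>
    (lt_or_ge (h0 * y') 1).elim
      (fun g => farA_cert (s1 := true) (s2 := true) rfl hκ covF10 covF22a hx hx'
        Pool.Agent.Strip051.G.I1_8_3_16.Tab.C.FA12.c_pp_023_a noCut_A noExt_A F trivial g)
      (fun g => farA_cert (s1 := true) (s2 := true) rfl hκ covF10 covF22b hx hx'
        Pool.Agent.Strip051.G.I1_8_3_16.Tab.C.FA12.c_pp_023_b noCut_A noExt_A F trivial g)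

theorem FA12_pp_033 {κ x : ℝ} (hκ : κ * h0 = ken x) (hx : ((134217728 : ℕ) : ℝ) / S ≤ x) (hx' : x ≤ (((134217728 : ℕ) : ℝ) + (67108864 : ℕ)) / S) :
    TriA PP.cur (farS κ (h0 * x) (tbl tKF x) (tbl tL x)) 0 3 3 1 2 1 1 :=
  (sideF hx hx').farA (Or.inl rfl) (Or.inl rfl) fun y y' F =>
    farA_cert (s1 := true) (s2 := true) rfl hκ covF10 covF23 hx hx'
        Pool.Agent.Strip051.G.I1_8_3_16.Tab.C.FA12.c_pp_033 noCut_A noExt_A F trivial trivial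

theorem FA12_pp_101 {κ x : ℝ} (hκ : κ * h0 = ken x) (hx : ((134217728 : ℕ) : ℝ) / S ≤ x) (hx' : x ≤ (((134217728 : ℕ) : ℝ) + (67108864 : ℕ)) / S) :
    TriA PP.cur (farS κ (h0 * x) (tbl tKF x) (tbl tL x)) 1 0 1 1 2 1 1 :=
  (sideF hx hx').farA (Or.inl rfl) (Or.inl rfl) fun y y' F =>
    farA_cert (s1 := true) (s2 := true) rfl hκ covF11 covF20 hx hx'
        Pool.Agent.Strip051.G.I1_8_3_16.Tab.C.FA12.c_pp_101 noCut_A noExt_A F trivial trivial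

theorem FA12_pp_102 {κ x : ℝ} (hκ : κ * h0 = ken x) (hx : ((134217728 : ℕ) : ℝ) / S ≤ x) (hx' : x ≤ (((134217728 : ℕ) : ℝ) + (67108864 : ℕ)) / S) :
    TriA PP.cur (farS κ (h0 * x) (tbl tKF x) (tbl tL x)) 1 0 2 1 2 1 1 :=
  (sideF hx hx').farA (Or.inl rfl) (Or.inl rfl) fun y y' F =>
    farA_cert (s1 := true) (s2 := true) rfl hκ covF11 covF20 hx hx'
        Pool.Agent.Strip051.G.I1_8_3_16.Tab.C.FA12.c_pp_102 noCut_A noExt_A F trivial trivial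

theorem FA12_pp_112 {κ x : ℝ} (hκ : κ * h0 = ken x) (hx : ((134217728 : ℕ) : ℝ) / S ≤ x) (hx' : x ≤ (((134217728 : ℕ) : ℝ) + (67108864 : ℕ)) / S) :
    TriA PP.cur (farS κ (h0 * x) (tbl tKF x) (tbl tL x)) 1 1 2 1 2 1 1 :=
  (sideF hx hx').farA (Or.inl rfl) (Or.inl rfl) fun y y' F =>
    farA_cert (s1 := true) (s2 := true) rfl hκ covF11 covF21 hx hx'
        Pool.Agent.Strip051.G.I1_8_3_16.Tab.C.FA12.c_pp_112 noCut_A noExt_A F trivial trivial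

theorem FA12_pp_113 {κ x : ℝ} (hκ : κ * h0 = ken x) (hx : ((134217728 : ℕ) : ℝ) / S ≤ x) (hx' : x ≤ (((134217728 : ℕ) : ℝ) + (67108864 : ℕ)) / S) :
    TriA PP.cur (farS κ (h0 * x) (tbl tKF x) (tbl tL x)) 1 1 3 1 2 1 1 :=
  (sideF hx hx').farA (Or.inl rfl) (Or.inl rfl) fun y y' F =>
    farA_cert (s1 := true) (s2 := true) rfl hκ covF11 covF21 hx hx'
        Pool.Agent.Strip051.G.I1_8_3_16.Tab.C.FA12.c_pp_113 noCut_A noExt_A F trivial trivial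

theorem FA12_pp_123 {κ x : ℝ} (hκ : κ * h0 = ken x) (hx : ((134217728 : ℕ) : ℝ) / S ≤ x) (hx' : x ≤ (((134217728 : ℕ) : ℝ) + (67108864 : ℕ)) / S) :
    TriA PP.cur (farS κ (h0 * x) (tbl tKF x) (tbl tL x)) 1 2 3 1 2 1 1 :=
  (sideF hx hx').farA (Or.inl rfl) (Or.inl rfl) fun y y' F =>
    (lt_or_ge (h0 * y') 1).elim
      (fun g => farA_cert (s1 := true) (s2 := true) rfl hκ covF11 covF22a hx hx'
        Pool.Agent.Strip051.G.I1_8_3_16.Tab.C.FA12.c_pp_123_a noCut_A noExt_A F trivial g)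
      (fun g => farA_cert (s1 := true) (s2 := true) rfl hκ covF11 covF22b hx hx'
        Pool.Agent.Strip051.G.I1_8_3_16.Tab.C.FA12.c_pp_123_b noCut_A noExt_A F trivial g)

theorem FA12_pp_133 {κ x : ℝ} (hκ : κ * h0 = ken x) (hx : ((134217728 : ℕ) : ℝ) / S ≤ x) (hx' : x ≤ (((134217728 : ℕ) : ℝ) + (67108864 : ℕ)) / S) :
    TriA PP.cur (farS κ (h0 * x) (tbl tKF x) (tbl tL x)) 1 3 3 1 2 1 1 :=
  (sideF hx hx').farA (Or.inl rfl) (Or.inl rfl) fun y y' F =>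
    farA_cert (s1 := true) (s2 := true) rfl hκ covF11 covF23 hx hx'
        Pool.Agent.Strip051.G.I1_8_3_16.Tab.C.FA12.c_pp_133 noCut_A noExt_A F trivial trivial

theorem FA12_pp_202 {κ x : ℝ} (hκ : κ * h0 = ken x) (hx : ((134217728 : ℕ) : ℝ) / S ≤ x) (hx' : x ≤ (((134217728 : ℕ) : ℝ) + (67108864 : ℕ)) / S) :
    TriA PP.cur (farS κ (h0 * x) (tbl tKF x) (tbl tL x)) 2 0 2 1 2 1 1 :=
  (sideF hx hx').farA (Or.inl rfl) (Or.inl rfl) fun y y' F =>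
    (lt_or_ge (h0 * y) 1).elim
      (fun h => farA_cert (s1 := true) (s2 := true) rfl hκ covF12a covF20 hx hx'
        Pool.Agent.Strip051.G.I1_8_3_16.Tab.C.FA12.c_pp_202_a noCut_A noExt_A F h trivial)
      (fun h => farA_cert (s1 := true) (s2 := true) rfl hκ covF12b covF20 hx hx'
        Pool.Agent.Strip051.G.I1_8_3_16.Tab.C.FA12.c_pp_202_b noCut_A noExt_A F h trivial)

theorem FA12_pp_203 {κ x : ℝ} (hκ : κ * h0 = ken x) (hx : ((134217728 : ℕ) : ℝ) / S ≤ x) (hx' : x ≤ (((134217728 : ℕ) : ℝ) + (67108864 : ℕ)) / S) :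
    TriA PP.cur (farS κ (h0 * x) (tbl tKF x) (tbl tL x)) 2 0 3 1 2 1 1 :=
  (sideF hx hx').farA (Or.inl rfl) (Or.inl rfl) fun y y' F =>
    (lt_or_ge (h0 * y) 1).elim
      (fun h => farA_cert (s1 := true) (s2 := true) rfl hκ covF12a covF20 hx hx'
        Pool.Agent.Strip051.G.I1_8_3_16.Tab.C.FA12.c_pp_203_a noCut_A noExt_A F h trivial)
      (fun h => farA_cert (s1 := true) (s2 := true) rfl hκ covF12b covF20 hx hx'
        Pool.Agent.Strip051.G.I1_8_3_16.Tab.C.FA12.c_pp_203_b noCut_A noExt_A F h trivial)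

theorem FA12_pp_213 {κ x : ℝ} (hκ : κ * h0 = ken x) (hx : ((134217728 : ℕ) : ℝ) / S ≤ x) (hx' : x ≤ (((134217728 : ℕ) : ℝ) + (67108864 : ℕ)) / S) :
    TriA PP.cur (farS κ (h0 * x) (tbl tKF x) (tbl tL x)) 2 1 3 1 2 1 1 :=
  (sideF hx hx').farA (Or.inl rfl) (Or.inl rfl) fun y y' F =>
    (lt_or_ge (h0 * y) 1).elim
      (fun h => farA_cert (s1 := true) (s2 := true) rfl hκ covF12a covF21 hx hx'
        Pool.Agent.Strip051.G.I1_8_3_16.Tab.C.FA12.c_pp_213_a noCut_A noExt_A F h trivial)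
      (fun h => farA_cert (s1 := true) (s2 := true) rfl hκ covF12b covF21 hx hx'
        Pool.Agent.Strip051.G.I1_8_3_16.Tab.C.FA12.c_pp_213_b noCut_A noExt_A F h trivial)

theorem FA12_pp_303 {κ x : ℝ} (hκ : κ * h0 = ken x) (hx : ((134217728 : ℕ) : ℝ) / S ≤ x) (hx' : x ≤ (((134217728 : ℕ) : ℝ) + (67108864 : ℕ)) / S) :
    TriA PP.cur (farS κ (h0 * x) (tbl tKF x) (tbl tL x)) 3 0 3 1 2 1 1 :=
  (sideF hx hx').farA (Or.inl rfl) (Or.inl rfl) fun y y' F =>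
    farA_cert (s1 := true) (s2 := true) rfl hκ covF13 covF20 hx hx'
        Pool.Agent.Strip051.G.I1_8_3_16.Tab.C.FA12.c_pp_303 noCut_A noExt_A F trivial trivial

theorem FA12_pp_313 {κ x : ℝ} (hκ : κ * h0 = ken x) (hx : ((134217728 : ℕ) : ℝ) / S ≤ x) (hx' : x ≤ (((134217728 : ℕ) : ℝ) + (67108864 : ℕ)) / S) :
    TriA PP.cur (farS κ (h0 * x) (tbl tKF x) (tbl tL x)) 3 1 3 1 2 1 1 :=
  (sideF hx hx').farA (Or.inl rfl) (Or.inl rfl) fun y y' F =>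
    farA_cert (s1 := true) (s2 := true) rfl hκ covF13 covF21 hx hx'
        Pool.Agent.Strip051.G.I1_8_3_16.Tab.C.FA12.c_pp_313 noCut_A noExt_A F trivial trivial

theorem FA12_pm_001 {κ x : ℝ} (hκ : κ * h0 = ken x) (hx : ((134217728 : ℕ) : ℝ) / S ≤ x) (hx' : x ≤ (((134217728 : ℕ) : ℝ) + (67108864 : ℕ)) / S) :
    TriA PP.cur (farS κ (h0 * x) (tbl tKF x) (tbl tL x)) 0 0 1 1 2 1 (-1) :=
  (sideF hx hx').farA (Or.inl rfl) (Or.inr rfl) fun y y' F =>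
    farA_cert (s1 := true) (s2 := false) rfl hκ covF10 covF20 hx hx'
        Pool.Agent.Strip051.G.I1_8_3_16.Tab.C.FA12.c_pm_001 noCut_A noExt_A F trivial trivial

theorem FA12_pm_011 {κ x : ℝ} (hκ : κ * h0 = ken x) (hx : ((134217728 : ℕ) : ℝ) / S ≤ x) (hx' : x ≤ (((134217728 : ℕ) : ℝ) + (67108864 : ℕ)) / S) :
    TriA PP.cur (farS κ (h0 * x) (tbl tKF x) (tbl tL x)) 0 1 1 1 2 1 (-1) :=
  (sideF hx hx').farA (Or.inl rfl) (Or.inr rfl) fun y y' F =>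
    farA_cert (s1 := true) (s2 := false) rfl hκ covF10 covF21 hx hx'
        Pool.Agent.Strip051.G.I1_8_3_16.Tab.C.FA12.c_pm_011 noCut_A noExt_A F trivial trivial

theorem FA12_pm_012 {κ x : ℝ} (hκ : κ * h0 = ken x) (hx : ((134217728 : ℕ) : ℝ) / S ≤ x) (hx' : x ≤ (((134217728 : ℕ) : ℝ) + (67108864 : ℕ)) / S) :
    TriA PP.cur (farS κ (h0 * x) (tbl tKF x) (tbl tL x)) 0 1 2 1 2 1 (-1) :=
  (sideF hx hx').farA (Or.inl rfl) (Or.inr rfl) fun y y' F =>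
    farA_cert (s1 := true) (s2 := false) rfl hκ covF10 covF21 hx hx'
        Pool.Agent.Strip051.G.I1_8_3_16.Tab.C.FA12.c_pm_012 noCut_A noExt_A F trivial trivial

theorem FA12_pm_022 {κ x : ℝ} (hκ : κ * h0 = ken x) (hx : ((134217728 : ℕ) : ℝ) / S ≤ x) (hx' : x ≤ (((134217728 : ℕ) : ℝ) + (67108864 : ℕ)) / S) :
    TriA PP.cur (farS κ (h0 * x) (tbl tKF x) (tbl tL x)) 0 2 2 1 2 1 (-1) :=
  (sideF hx hx').farA (Or.inl rfl) (Or.inr rfl) fun y y' F =>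
    (lt_or_ge (h0 * y') 1).elim
      (fun g => farA_cert (s1 := true) (s2 := false) rfl hκ covF10 covF22a hx hx'
        Pool.Agent.Strip051.G.I1_8_3_16.Tab.C.FA12.c_pm_022_a (cutA_cons (Pool.Agent.Strip051.G.I1_8_3_16.Tab.altF_A022E_12 hκ hx hx') cutA_nil) noExt_A F trivial g)
      (fun g => farA_cert (s1 := true) (s2 := false) rfl hκ covF10 covF22b hx hx'
        Pool.Agent.Strip051.G.I1_8_3_16.Tab.C.FA12.c_pm_022_b (cutA_cons (Pool.Agent.Strip051.G.I1_8_3_16.Tab.altF_A022E_12 hκ hx hx') cutA_nil) noExt_A F trivial g)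

theorem FA12_pm_023 {κ x : ℝ} (hκ : κ * h0 = ken x) (hx : ((134217728 : ℕ) : ℝ) / S ≤ x) (hx' : x ≤ (((134217728 : ℕ) : ℝ) + (67108864 : ℕ)) / S) :
    TriA PP.cur (farS κ (h0 * x) (tbl tKF x) (tbl tL x)) 0 2 3 1 2 1 (-1) :=
  (sideF hx hx').farA (Or.inl rfl) (Or.inr rfl) fun y y' F =>
    (lt_or_ge (h0 * y') 1).elim
      (fun g => farA_cert (s1 := true) (s2 := false) rfl hκ covF10 covF22a hx hx'
        Pool.Agent.Strip051.G.I1_8_3_16.Tab.C.FA12.c_pm_023_a noCut_A noExt_A F trivial g)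
      (fun g => farA_cert (s1 := true) (s2 := false) rfl hκ covF10 covF22b hx hx'
        Pool.Agent.Strip051.G.I1_8_3_16.Tab.C.FA12.c_pm_023_b noCut_A noExt_A F trivial g)

theorem FA12_pm_033 {κ x : ℝ} (hκ : κ * h0 = ken x) (hx : ((134217728 : ℕ) : ℝ) / S ≤ x) (hx' : x ≤ (((134217728 : ℕ) : ℝ) + (67108864 : ℕ)) / S) :
    TriA PP.cur (farS κ (h0 * x) (tbl tKF x) (tbl tL x)) 0 3 3 1 2 1 (-1) :=
  (sideF hx hx').farA (Or.inl rfl) (Or.inr rfl) fun y y' F =>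
    farA_cert (s1 := true) (s2 := false) rfl hκ covF10 covF23 hx hx'
        Pool.Agent.Strip051.G.I1_8_3_16.Tab.C.FA12.c_pm_033 noCut_A noExt_A F trivial trivial

theorem FA12_pm_101 {κ x : ℝ} (hκ : κ * h0 = ken x) (hx : ((134217728 : ℕ) : ℝ) / S ≤ x) (hx' : x ≤ (((134217728 : ℕ) : ℝ) + (67108864 : ℕ)) / S) :
    TriA PP.cur (farS κ (h0 * x) (tbl tKF x) (tbl tL x)) 1 0 1 1 2 1 (-1) :=
  (sideF hx hx').farA (Or.inl rfl) (Or.inr rfl) fun y y' F =>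
    farA_cert (s1 := true) (s2 := false) rfl hκ covF11 covF20 hx hx'
        Pool.Agent.Strip051.G.I1_8_3_16.Tab.C.FA12.c_pm_101 noCut_A noExt_A F trivial trivial

theorem FA12_pm_102 {κ x : ℝ} (hκ : κ * h0 = ken x) (hx : ((134217728 : ℕ) : ℝ) / S ≤ x) (hx' : x ≤ (((134217728 : ℕ) : ℝ) + (67108864 : ℕ)) / S) :
    TriA PP.cur (farS κ (h0 * x) (tbl tKF x) (tbl tL x)) 1 0 2 1 2 1 (-1) :=
  (sideF hx hx').farA (Or.inl rfl) (Or.inr rfl) fun y y' F =>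
    farA_cert (s1 := true) (s2 := false) rfl hκ covF11 covF20 hx hx'
        Pool.Agent.Strip051.G.I1_8_3_16.Tab.C.FA12.c_pm_102 noCut_A noExt_A F trivial trivial

theorem FA12_pm_112 {κ x : ℝ} (hκ : κ * h0 = ken x) (hx : ((134217728 : ℕ) : ℝ) / S ≤ x) (hx' : x ≤ (((134217728 : ℕ) : ℝ) + (67108864 : ℕ)) / S) :
    TriA PP.cur (farS κ (h0 * x) (tbl tKF x) (tbl tL x)) 1 1 2 1 2 1 (-1) :=
  (sideF hx hx').farA (Or.inl rfl) (Or.inr rfl) fun y y' F =>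
    farA_cert (s1 := true) (s2 := false) rfl hκ covF11 covF21 hx hx'
        Pool.Agent.Strip051.G.I1_8_3_16.Tab.C.FA12.c_pm_112 noCut_A noExt_A F trivial trivial

theorem FA12_pm_113 {κ x : ℝ} (hκ : κ * h0 = ken x) (hx : ((134217728 : ℕ) : ℝ) / S ≤ x) (hx' : x ≤ (((134217728 : ℕ) : ℝ) + (67108864 : ℕ)) / S) :
    TriA PP.cur (farS κ (h0 * x) (tbl tKF x) (tbl tL x)) 1 1 3 1 2 1 (-1) :=
  (sideF hx hx').farA (Or.inl rfl) (Or.inr rfl) fun y y' F =>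
    farA_cert (s1 := true) (s2 := false) rfl hκ covF11 covF21 hx hx'
        Pool.Agent.Strip051.G.I1_8_3_16.Tab.C.FA12.c_pm_113 noCut_A noExt_A F trivial trivial

theorem FA12_pm_123 {κ x : ℝ} (hκ : κ * h0 = ken x) (hx : ((134217728 : ℕ) : ℝ) / S ≤ x) (hx' : x ≤ (((134217728 : ℕ) : ℝ) + (67108864 : ℕ)) / S) :
    TriA PP.cur (farS κ (h0 * x) (tbl tKF x) (tbl tL x)) 1 2 3 1 2 1 (-1) :=
  (sideF hx hx').farA (Or.inl rfl) (Or.inr rfl) fun y y' F =>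
    (lt_or_ge (h0 * y') 1).elim
      (fun g => farA_cert (s1 := true) (s2 := false) rfl hκ covF11 covF22a hx hx'
        Pool.Agent.Strip051.G.I1_8_3_16.Tab.C.FA12.c_pm_123_a noCut_A noExt_A F trivial g)
      (fun g => farA_cert (s1 := true) (s2 := false) rfl hκ covF11 covF22b hx hx'
        Pool.Agent.Strip051.G.I1_8_3_16.Tab.C.FA12.c_pm_123_b noCut_A noExt_A F trivial g)

theorem FA12_pm_133 {κ x : ℝ} (hκ : κ * h0 = ken x) (hx : ((134217728 : ℕ) : ℝ) / S ≤ x) (hx' : x ≤ (((134217728 : ℕ) : ℝ) + (67108864 : ℕ)) / S) :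
    TriA PP.cur (farS κ (h0 * x) (tbl tKF x) (tbl tL x)) 1 3 3 1 2 1 (-1) :=
  (sideF hx hx').farA (Or.inl rfl) (Or.inr rfl) fun y y' F =>
    farA_cert (s1 := true) (s2 := false) rfl hκ covF11 covF23 hx hx'
        Pool.Agent.Strip051.G.I1_8_3_16.Tab.C.FA12.c_pm_133 noCut_A noExt_A F trivial trivial

theorem FA12_pm_202 {κ x : ℝ} (hκ : κ * h0 = ken x) (hx : ((134217728 : ℕ) : ℝ) / S ≤ x) (hx' : x ≤ (((134217728 : ℕ) : ℝ) + (67108864 : ℕ)) / S) :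
    TriA PP.cur (farS κ (h0 * x) (tbl tKF x) (tbl tL x)) 2 0 2 1 2 1 (-1) :=
  (sideF hx hx').farA (Or.inl rfl) (Or.inr rfl) fun y y' F =>
    (lt_or_ge (h0 * y) 1).elim
      (fun h => farA_cert (s1 := true) (s2 := false) rfl hκ covF12a covF20 hx hx'
        Pool.Agent.Strip051.G.I1_8_3_16.Tab.C.FA12.c_pm_202_a (cutA_cons (Pool.Agent.Strip051.G.I1_8_3_16.Tab.altF_A202E_12 hκ hx hx') cutA_nil) noExt_A F h trivial)
      (fun h => farA_cert (s1 := true) (s2 := false) rfl hκ covF12b covF20 hx hx'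
        Pool.Agent.Strip051.G.I1_8_3_16.Tab.C.FA12.c_pm_202_b (cutA_cons (Pool.Agent.Strip051.G.I1_8_3_16.Tab.altF_A202E_12 hκ hx hx') cutA_nil) noExt_A F h trivial)

theorem FA12_pm_203 {κ x : ℝ} (hκ : κ * h0 = ken x) (hx : ((134217728 : ℕ) : ℝ) / S ≤ x) (hx' : x ≤ (((134217728 : ℕ) : ℝ) + (67108864 : ℕ)) / S) :
    TriA PP.cur (farS κ (h0 * x) (tbl tKF x) (tbl tL x)) 2 0 3 1 2 1 (-1) :=
  (sideF hx hx').farA (Or.inl rfl) (Or.inr rfl) fun y y' F =>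
    (lt_or_ge (h0 * y) 1).elim
      (fun h => farA_cert (s1 := true) (s2 := false) rfl hκ covF12a covF20 hx hx'
        Pool.Agent.Strip051.G.I1_8_3_16.Tab.C.FA12.c_pm_203_a noCut_A noExt_A F h trivial)
      (fun h => farA_cert (s1 := true) (s2 := false) rfl hκ covF12b covF20 hx hx'
        Pool.Agent.Strip051.G.I1_8_3_16.Tab.C.FA12.c_pm_203_b noCut_A noExt_A F h trivial)

theorem FA12_pm_213 {κ x : ℝ} (hκ : κ * h0 = ken x) (hx : ((134217728 : ℕ) : ℝ) / S ≤ x) (hx' : x ≤ (((134217728 : ℕ) : ℝ) + (67108864 : ℕ)) / S) :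
    TriA PP.cur (farS κ (h0 * x) (tbl tKF x) (tbl tL x)) 2 1 3 1 2 1 (-1) :=
  (sideF hx hx').farA (Or.inl rfl) (Or.inr rfl) fun y y' F =>
    (lt_or_ge (h0 * y) 1).elim
      (fun h => farA_cert (s1 := true) (s2 := false) rfl hκ covF12a covF21 hx hx'
        Pool.Agent.Strip051.G.I1_8_3_16.Tab.C.FA12.c_pm_213_a noCut_A noExt_A F h trivial)
      (fun h => farA_cert (s1 := true) (s2 := false) rfl hκ covF12b covF21 hx hx'
        Pool.Agent.Strip051.G.I1_8_3_16.Tab.C.FA12.c_pm_213_b noCut_A noExt_A F h trivial)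

theorem FA12_pm_303 {κ x : ℝ} (hκ : κ * h0 = ken x) (hx : ((134217728 : ℕ) : ℝ) / S ≤ x) (hx' : x ≤ (((134217728 : ℕ) : ℝ) + (67108864 : ℕ)) / S) :
    TriA PP.cur (farS κ (h0 * x) (tbl tKF x) (tbl tL x)) 3 0 3 1 2 1 (-1) :=
  (sideF hx hx').farA (Or.inl rfl) (Or.inr rfl) fun y y' F =>
    farA_cert (s1 := true) (s2 := false) rfl hκ covF13 covF20 hx hx'
        Pool.Agent.Strip051.G.I1_8_3_16.Tab.C.FA12.c_pm_303 noCut_A noExt_A F trivial trivial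

theorem FA12_pm_313 {κ x : ℝ} (hκ : κ * h0 = ken x) (hx : ((134217728 : ℕ) : ℝ) / S ≤ x) (hx' : x ≤ (((134217728 : ℕ) : ℝ) + (67108864 : ℕ)) / S) :
    TriA PP.cur (farS κ (h0 * x) (tbl tKF x) (tbl tL x)) 3 1 3 1 2 1 (-1) :=
  (sideF hx hx').farA (Or.inl rfl) (Or.inr rfl) fun y y' F =>
    farA_cert (s1 := true) (s2 := false) rfl hκ covF13 covF21 hx hx'
        Pool.Agent.Strip051.G.I1_8_3_16.Tab.C.FA12.c_pm_313 noCut_A noExt_A F trivial trivial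

theorem FA12_mm_001 {κ x : ℝ} (hκ : κ * h0 = ken x) (hx : ((134217728 : ℕ) : ℝ) / S ≤ x) (hx' : x ≤ (((134217728 : ℕ) : ℝ) + (67108864 : ℕ)) / S) :
    TriA PP.cur (farS κ (h0 * x) (tbl tKF x) (tbl tL x)) 0 0 1 1 2 (-1) (-1) :=
  (sideF hx hx').farA (Or.inr rfl) (Or.inr rfl) fun y y' F =>
    farA_cert (s1 := false) (s2 := false) rfl hκ covF10 covF20 hx hx'
        Pool.Agent.Strip051.G.I1_8_3_16.Tab.C.FA12.c_mm_001 noCut_A noExt_A F trivial trivial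

theorem FA12_mm_011 {κ x : ℝ} (hκ : κ * h0 = ken x) (hx : ((134217728 : ℕ) : ℝ) / S ≤ x) (hx' : x ≤ (((134217728 : ℕ) : ℝ) + (67108864 : ℕ)) / S) :
    TriA PP.cur (farS κ (h0 * x) (tbl tKF x) (tbl tL x)) 0 1 1 1 2 (-1) (-1) :=
  (sideF hx hx').farA (Or.inr rfl) (Or.inr rfl) fun y y' F =>
    farA_cert (s1 := false) (s2 := false) rfl hκ covF10 covF21 hx hx'
        Pool.Agent.Strip051.G.I1_8_3_16.Tab.C.FA12.c_mm_011 noCut_A noExt_A F trivial trivial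

theorem FA12_mm_012 {κ x : ℝ} (hκ : κ * h0 = ken x) (hx : ((134217728 : ℕ) : ℝ) / S ≤ x) (hx' : x ≤ (((134217728 : ℕ) : ℝ) + (67108864 : ℕ)) / S) :
    TriA PP.cur (farS κ (h0 * x) (tbl tKF x) (tbl tL x)) 0 1 2 1 2 (-1) (-1) :=
  (sideF hx hx').farA (Or.inr rfl) (Or.inr rfl) fun y y' F =>
    farA_cert (s1 := false) (s2 := false) rfl hκ covF10 covF21 hx hx'
        Pool.Agent.Strip051.G.I1_8_3_16.Tab.C.FA12.c_mm_012 noCut_A noExt_A F trivial trivial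

theorem FA12_mm_022 {κ x : ℝ} (hκ : κ * h0 = ken x) (hx : ((134217728 : ℕ) : ℝ) / S ≤ x) (hx' : x ≤ (((134217728 : ℕ) : ℝ) + (67108864 : ℕ)) / S) :
    TriA PP.cur (farS κ (h0 * x) (tbl tKF x) (tbl tL x)) 0 2 2 1 2 (-1) (-1) :=
  (sideF hx hx').farA (Or.inr rfl) (Or.inr rfl) fun y y' F =>
    (lt_or_ge (h0 * y') 1).elim
      (fun g => farA_cert (s1 := false) (s2 := false) rfl hκ covF10 covF22a hx hx'
        Pool.Agent.Strip051.G.I1_8_3_16.Tab.C.FA12.c_mm_022_a noCut_A noExt_A F trivial g)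
      (fun g => farA_cert (s1 := false) (s2 := false) rfl hκ covF10 covF22b hx hx'
        Pool.Agent.Strip051.G.I1_8_3_16.Tab.C.FA12.c_mm_022_b noCut_A noExt_A F trivial g)

theorem FA12_mm_023 {κ x : ℝ} (hκ : κ * h0 = ken x) (hx : ((134217728 : ℕ) : ℝ) / S ≤ x) (hx' : x ≤ (((134217728 : ℕ) : ℝ) + (67108864 : ℕ)) / S) :
    TriA PP.cur (farS κ (h0 * x) (tbl tKF x) (tbl tL x)) 0 2 3 1 2 (-1) (-1) :=
  (sideF hx hx').farA (Or.inr rfl) (Or.inr rfl) fun y y' F =>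
    (lt_or_ge (h0 * y') 1).elim
      (fun g => farA_cert (s1 := false) (s2 := false) rfl hκ covF10 covF22a hx hx'
        Pool.Agent.Strip051.G.I1_8_3_16.Tab.C.FA12.c_mm_023_a noCut_A noExt_A F trivial g)
      (fun g => farA_cert (s1 := false) (s2 := false) rfl hκ covF10 covF22b hx hx'
        Pool.Agent.Strip051.G.I1_8_3_16.Tab.C.FA12.c_mm_023_b noCut_A noExt_A F trivial g)

theorem FA12_mm_033 {κ x : ℝ} (hκ : κ * h0 = ken x) (hx : ((134217728 : ℕ) : ℝ) / S ≤ x) (hx' : x ≤ (((134217728 : ℕ) : ℝ) + (67108864 : ℕ)) / S) :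
    TriA PP.cur (farS κ (h0 * x) (tbl tKF x) (tbl tL x)) 0 3 3 1 2 (-1) (-1) :=
  (sideF hx hx').farA (Or.inr rfl) (Or.inr rfl) fun y y' F =>
    farA_cert (s1 := false) (s2 := false) rfl hκ covF10 covF23 hx hx'
        Pool.Agent.Strip051.G.I1_8_3_16.Tab.C.FA12.c_mm_033 noCut_A noExt_A F trivial trivial

theorem FA12_mm_101 {κ x : ℝ} (hκ : κ * h0 = ken x) (hx : ((134217728 : ℕ) : ℝ) / S ≤ x) (hx' : x ≤ (((134217728 : ℕ) : ℝ) + (67108864 : ℕ)) / S) :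
    TriA PP.cur (farS κ (h0 * x) (tbl tKF x) (tbl tL x)) 1 0 1 1 2 (-1) (-1) :=
  (sideF hx hx').farA (Or.inr rfl) (Or.inr rfl) fun y y' F =>
    farA_cert (s1 := false) (s2 := false) rfl hκ covF11 covF20 hx hx'
        Pool.Agent.Strip051.G.I1_8_3_16.Tab.C.FA12.c_mm_101 noCut_A noExt_A F trivial trivial

theorem FA12_mm_102 {κ x : ℝ} (hκ : κ * h0 = ken x) (hx : ((134217728 : ℕ) : ℝ) / S ≤ x) (hx' : x ≤ (((134217728 : ℕ) : ℝ) + (67108864 : ℕ)) / S) :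
    TriA PP.cur (farS κ (h0 * x) (tbl tKF x) (tbl tL x)) 1 0 2 1 2 (-1) (-1) :=
  (sideF hx hx').farA (Or.inr rfl) (Or.inr rfl) fun y y' F =>
    farA_cert (s1 := false) (s2 := false) rfl hκ covF11 covF20 hx hx'
        Pool.Agent.Strip051.G.I1_8_3_16.Tab.C.FA12.c_mm_102 noCut_A noExt_A F trivial trivial

theorem FA12_mm_112 {κ x : ℝ} (hκ : κ * h0 = ken x) (hx : ((134217728 : ℕ) : ℝ) / S ≤ x) (hx' : x ≤ (((134217728 : ℕ) : ℝ) + (67108864 : ℕ)) / S) :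
    TriA PP.cur (farS κ (h0 * x) (tbl tKF x) (tbl tL x)) 1 1 2 1 2 (-1) (-1) :=
  (sideF hx hx').farA (Or.inr rfl) (Or.inr rfl) fun y y' F =>
    farA_cert (s1 := false) (s2 := false) rfl hκ covF11 covF21 hx hx'
        Pool.Agent.Strip051.G.I1_8_3_16.Tab.C.FA12.c_mm_112 noCut_A noExt_A F trivial trivial

theorem FA12_mm_113 {κ x : ℝ} (hκ : κ * h0 = ken x) (hx : ((134217728 : ℕ) : ℝ) / S ≤ x) (hx' : x ≤ (((134217728 : ℕ) : ℝ) + (67108864 : ℕ)) / S) :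
    TriA PP.cur (farS κ (h0 * x) (tbl tKF x) (tbl tL x)) 1 1 3 1 2 (-1) (-1) :=
  (sideF hx hx').farA (Or.inr rfl) (Or.inr rfl) fun y y' F =>
    farA_cert (s1 := false) (s2 := false) rfl hκ covF11 covF21 hx hx'
        Pool.Agent.Strip051.G.I1_8_3_16.Tab.C.FA12.c_mm_113 noCut_A noExt_A F trivial trivial

theorem FA12_mm_123 {κ x : ℝ} (hκ : κ * h0 = ken x) (hx : ((134217728 : ℕ) : ℝ) / S ≤ x) (hx' : x ≤ (((134217728 : ℕ) : ℝ) + (67108864 : ℕ)) / S) :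
    TriA PP.cur (farS κ (h0 * x) (tbl tKF x) (tbl tL x)) 1 2 3 1 2 (-1) (-1) :=
  (sideF hx hx').farA (Or.inr rfl) (Or.inr rfl) fun y y' F =>
    (lt_or_ge (h0 * y') 1).elim
      (fun g => farA_cert (s1 := false) (s2 := false) rfl hκ covF11 covF22a hx hx'
        Pool.Agent.Strip051.G.I1_8_3_16.Tab.C.FA12.c_mm_123_a noCut_A noExt_A F trivial g)
      (fun g => farA_cert (s1 := false) (s2 := false) rfl hκ covF11 covF22b hx hx'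
        Pool.Agent.Strip051.G.I1_8_3_16.Tab.C.FA12.c_mm_123_b noCut_A noExt_A F trivial g)

theorem FA12_mm_133 {κ x : ℝ} (hκ : κ * h0 = ken x) (hx : ((134217728 : ℕ) : ℝ) / S ≤ x) (hx' : x ≤ (((134217728 : ℕ) : ℝ) + (67108864 : ℕ)) / S) :
    TriA PP.cur (farS κ (h0 * x) (tbl tKF x) (tbl tL x)) 1 3 3 1 2 (-1) (-1) :=
  (sideF hx hx').farA (Or.inr rfl) (Or.inr rfl) fun y y' F =>
    farA_cert (s1 := false) (s2 := false) rfl hκ covF11 covF23 hx hx'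
        Pool.Agent.Strip051.G.I1_8_3_16.Tab.C.FA12.c_mm_133 noCut_A noExt_A F trivial trivial

theorem FA12_mm_202 {κ x : ℝ} (hκ : κ * h0 = ken x) (hx : ((134217728 : ℕ) : ℝ) / S ≤ x) (hx' : x ≤ (((134217728 : ℕ) : ℝ) + (67108864 : ℕ)) / S) :
    TriA PP.cur (farS κ (h0 * x) (tbl tKF x) (tbl tL x)) 2 0 2 1 2 (-1) (-1) :=
  (sideF hx hx').farA (Or.inr rfl) (Or.inr rfl) fun y y' F =>
    (lt_or_ge (h0 * y) 1).elim
      (fun h => farA_cert (s1 := false) (s2 := false) rfl hκ covF12a covF20 hx hx'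
        Pool.Agent.Strip051.G.I1_8_3_16.Tab.C.FA12.c_mm_202_a (cutA_cons (Pool.Agent.Strip051.G.I1_8_3_16.Tab.altF_A202R_12 hκ hx hx') cutA_nil) noExt_A F h trivial)
      (fun h => farA_cert (s1 := false) (s2 := false) rfl hκ covF12b covF20 hx hx'
        Pool.Agent.Strip051.G.I1_8_3_16.Tab.C.FA12.c_mm_202_b (cutA_cons (Pool.Agent.Strip051.G.I1_8_3_16.Tab.altF_A202R_12 hκ hx hx') cutA_nil) noExt_A F h trivial)

theorem FA12_mm_203 {κ x : ℝ} (hκ : κ * h0 = ken x) (hx : ((134217728 : ℕ) : ℝ) / S ≤ x) (hx' : x ≤ (((134217728 : ℕ) : ℝ) + (67108864 : ℕ)) / S) :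
    TriA PP.cur (farS κ (h0 * x) (tbl tKF x) (tbl tL x)) 2 0 3 1 2 (-1) (-1) :=
  (sideF hx hx').farA (Or.inr rfl) (Or.inr rfl) fun y y' F =>
    (lt_or_ge (h0 * y) 1).elim
      (fun h => farA_cert (s1 := false) (s2 := false) rfl hκ covF12a covF20 hx hx'
        Pool.Agent.Strip051.G.I1_8_3_16.Tab.C.FA12.c_mm_203_a noCut_A noExt_A F h trivial)
      (fun h => farA_cert (s1 := false) (s2 := false) rfl hκ covF12b covF20 hx hx'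
        Pool.Agent.Strip051.G.I1_8_3_16.Tab.C.FA12.c_mm_203_b noCut_A noExt_A F h trivial)

theorem FA12_mm_213 {κ x : ℝ} (hκ : κ * h0 = ken x) (hx : ((134217728 : ℕ) : ℝ) / S ≤ x) (hx' : x ≤ (((134217728 : ℕ) : ℝ) + (67108864 : ℕ)) / S) :
    TriA PP.cur (farS κ (h0 * x) (tbl tKF x) (tbl tL x)) 2 1 3 1 2 (-1) (-1) :=
  (sideF hx hx').farA (Or.inr rfl) (Or.inr rfl) fun y y' F =>
    (lt_or_ge (h0 * y) 1).elim
      (fun h => farA_cert (s1 := false) (s2 := false) rfl hκ covF12a covF21 hx hx'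
        Pool.Agent.Strip051.G.I1_8_3_16.Tab.C.FA12.c_mm_213_a noCut_A noExt_A F h trivial)
      (fun h => farA_cert (s1 := false) (s2 := false) rfl hκ covF12b covF21 hx hx'
        Pool.Agent.Strip051.G.I1_8_3_16.Tab.C.FA12.c_mm_213_b noCut_A noExt_A F h trivial)

theorem FA12_mm_303 {κ x : ℝ} (hκ : κ * h0 = ken x) (hx : ((134217728 : ℕ) : ℝ) / S ≤ x) (hx' : x ≤ (((134217728 : ℕ) : ℝ) + (67108864 : ℕ)) / S) :
    TriA PP.cur (farS κ (h0 * x) (tbl tKF x) (tbl tL x)) 3 0 3 1 2 (-1) (-1) :=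
  (sideF hx hx').farA (Or.inr rfl) (Or.inr rfl) fun y y' F =>
    farA_cert (s1 := false) (s2 := false) rfl hκ covF13 covF20 hx hx'
        Pool.Agent.Strip051.G.I1_8_3_16.Tab.C.FA12.c_mm_303 noCut_A noExt_A F trivial trivial

theorem FA12_mm_313 {κ x : ℝ} (hκ : κ * h0 = ken x) (hx : ((134217728 : ℕ) : ℝ) / S ≤ x) (hx' : x ≤ (((134217728 : ℕ) : ℝ) + (67108864 : ℕ)) / S) :
    TriA PP.cur (farS κ (h0 * x) (tbl tKF x) (tbl tL x)) 3 1 3 1 2 (-1) (-1) :=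
  (sideF hx hx').farA (Or.inr rfl) (Or.inr rfl) fun y y' F =>
    farA_cert (s1 := false) (s2 := false) rfl hκ covF13 covF21 hx hx'
        Pool.Agent.Strip051.G.I1_8_3_16.Tab.C.FA12.c_mm_313 noCut_A noExt_A F trivial trivial

theorem FA12 {κ x : ℝ} (hκ : κ * h0 = ken x) (hx : ((134217728 : ℕ) : ℝ) / S ≤ x) (hx' : x ≤ (((134217728 : ℕ) : ℝ) + (67108864 : ℕ)) / S) : AllTA PP.cur (farS κ (h0 * x) (tbl tKF x) (tbl tL x)) 1 2 where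
  pp := all17 (Q := fun a b c => TriA PP.cur (farS κ (h0 * x) (tbl tKF x) (tbl tL x)) a b c 1 2 1 1)
    (FA12_pp_001 hκ hx hx') (FA12_pp_011 hκ hx hx') (FA12_pp_012 hκ hx hx') (FA12_pp_022 hκ hx hx') (FA12_pp_023 hκ hx hx') (FA12_pp_033 hκ hx hx') (FA12_pp_101 hκ hx hx') (FA12_pp_102 hκ hx hx') (FA12_pp_112 hκ hx hx') (FA12_pp_113 hκ hx hx') (FA12_pp_123 hκ hx hx') (FA12_pp_133 hκ hx hx') (FA12_pp_202 hκ hx hx') (FA12_pp_203 hκ hx hx') (FA12_pp_213 hκ hx hx') (FA12_pp_303 hκ hx hx') (FA12_pp_313 hκ hx hx')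
  pm := all17 (Q := fun a b c => TriA PP.cur (farS κ (h0 * x) (tbl tKF x) (tbl tL x)) a b c 1 2 1 (-1))
    (FA12_pm_001 hκ hx hx') (FA12_pm_011 hκ hx hx') (FA12_pm_012 hκ hx hx') (FA12_pm_022 hκ hx hx') (FA12_pm_023 hκ hx hx') (FA12_pm_033 hκ hx hx') (FA12_pm_101 hκ hx hx') (FA12_pm_102 hκ hx hx') (FA12_pm_112 hκ hx hx') (FA12_pm_113 hκ hx hx') (FA12_pm_123 hκ hx hx') (FA12_pm_133 hκ hx hx') (FA12_pm_202 hκ hx hx') (FA12_pm_203 hκ hx hx') (FA12_pm_213 hκ hx hx') (FA12_pm_303 hκ hx hx') (FA12_pm_313 hκ hx hx')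
  mm := all17 (Q := fun a b c => TriA PP.cur (farS κ (h0 * x) (tbl tKF x) (tbl tL x)) a b c 1 2 (-1) (-1))
    (FA12_mm_001 hκ hx hx') (FA12_mm_011 hκ hx hx') (FA12_mm_012 hκ hx hx') (FA12_mm_022 hκ hx hx') (FA12_mm_023 hκ hx hx') (FA12_mm_033 hκ hx hx') (FA12_mm_101 hκ hx hx') (FA12_mm_102 hκ hx hx') (FA12_mm_112 hκ hx hx') (FA12_mm_113 hκ hx hx') (FA12_mm_123 hκ hx hx') (FA12_mm_133 hκ hx hx') (FA12_mm_202 hκ hx hx') (FA12_mm_203 hκ hx hx') (FA12_mm_213 hκ hx hx') (FA12_mm_303 hκ hx hx') (FA12_mm_313 hκ hx hx')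

end Pool.Agent.Strip051.G.I1_8_3_16.Tab
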