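import Pool.Agent.Strip051.G.I1_8_3_16.StF

/-! # Unit strips 6 (generated) -/

set_option linter.all false
set_option maxRecDepth 100000

namespace Pool.Agent.Strip051.G.I1_8_3_16.Tab.St.C

open Pool.Agent.Strip051.PB Pool.Agent.Strip051.PB.T Pool.Agent.StripNear Pool.Agent.Strip051.LC
open Pool.Agent.Strip051.G.I1_8_3_16.Tab Pool.Agent.Strip051.G.I1_8_3_16.Tab.St

noncomputable def cut_B00pm_012_s3 : Cut := Cut.of [[⟨3, 0, 0, 2845415833⟩], [⟨0, 0, 0, 53687091⟩, ⟨1, 1, 0, 53687091⟩, ⟨2, 1, 0, 53687091⟩], [⟨0, 0, 1, 41943040⟩, ⟨1, 1, 2, 41943040⟩, ⟨2, 1, 0, 16777216⟩]]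

noncomputable def f_B00pm_012_s3 : ℕ → ℕ → ℕ → ℕ → Bool := onCell 536870912 536870912 0 536870912 134217728 67108864
    (rowFK 2 false true false .pnp 0 1 2 (qsf 0 536870912 0 536870912 1) ndF0q0 ndF0q2 pcF1 cut_B00pm_012_s3 Ext.none)

def k0_B00pm_012_s3 : ∃ t, chk3 f_B00pm_012_s3 t 2 1 1 = true :=
  ⟨(b (l 6) (a (l 6) (l 6))), by decide +kernel⟩

def k1_B00pm_012_s3 : ∃ t, chk3 f_B00pm_012_s3 t 3 2 1 = true :=
  ⟨(l 6), by decide +kernel⟩

def k2_B00pm_012_s3 : ∃ t, chk3 f_B00pm_012_s3 t 3 6 1 = true :=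
  ⟨(a (l 6) (l 6)), by decide +kernel⟩

def k3_B00pm_012_s3 : ∃ t, chk3 f_B00pm_012_s3 t 6 14 1 = true :=
  ⟨(l 6), by decide +kernel⟩

def k4_B00pm_012_s3 : ∃ t, chk3 f_B00pm_012_s3 t 12 15 1 = true :=
  ⟨(b (l 6) (a (a (l 6) (a (l 6) (c (l 17423232) (b (l 6) (b (l 6) (l 17047144)))))) (a (b (l 6) (c (l 17261496) (a (b (l 6) (a (l 17014928) (l 16908256))) (b (l 16993824) (c (l 17107008) (c (l 17006024) (l 22))))))) (c (b (l 17343240) (b (l 17287872) (c (l 17318600) (l 17090728)))) (b (b (l 6) (a (l 6) (l 16928952))) (b (c (a (l 17097880) (l 17045688)) (a (l 16873208) (l 22))) (c (a (l 16973472) (c (l 17039320) (l 22))) (l 22)))))))), by decide +kernel⟩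

def k5_B00pm_012_s3 : ∃ t, chk3 f_B00pm_012_s3 t 13 30 1 = true :=
  ⟨(b (a (l 6) (a (l 6) (a (l 6) (l 16788008)))) (b (a (l 6) (a (l 16776328) (a (l 16724480) (l 16757904)))) (a (a (l 6) (c (l 17218016) (l 16743760))) (a (c (l 16754792) (l 16748184)) (a (l 16754728) (l 16751992)))))), by decide +kernel⟩

def k6_B00pm_012_s3 : ∃ t, chk3 f_B00pm_012_s3 t 13 62 1 = true :=
  ⟨(a (b (c (a (l 17278656) (l 16922424)) (a (l 16733848) (l 16749192))) (a (c (l 17154216) (b (l 16743840) (l 16742752))) (c (a (l 17073416) (l 16926680)) (l 22)))) (c (a (c (b (l 17053440) (a (l 17119232) (l 22))) (b (l 16750920) (l 22))) (b (a (l 16742504) (l 16745168)) (l 22))) (b (a (a (l 16743616) (l 16741848)) (a (l 16740192) (l 16738672))) (a (a (l 16738280) (l 16737192)) (a (b (l 16737144) (l 16735360)) (b (l 16736184) (l 16734768))))))), by decide +kernel⟩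

def k7_B00pm_012_s3 : ∃ t, chk3 f_B00pm_012_s3 t 26 63 1 = true :=
  ⟨(c (b (a (a (l 17219680) (l 17083368)) (c (a (l 17194136) (l 17132720)) (a (l 16896600) (l 22)))) (a (c (l 17142184) (a (l 17012560) (c (l 17077520) (l 22)))) (c (a (l 17057928) (c (l 17122160) (l 22))) (l 22)))) (b (a (c (a (l 16903712) (l 22)) (l 22)) (l 22)) (l 22))), by decide +kernel⟩

def k8_B00pm_012_s3 : ∃ t, chk3 f_B00pm_012_s3 t 27 126 1 = true :=
  ⟨(c (a (c (a (b (l 17077552) (l 22)) (l 22)) (l 22)) (l 22)) (a (b (a (l 16734736) (l 16734160)) (c (l 22) (a (l 16729608) (l 16729536)))) (a (b (l 16733768) (a (l 16732480) (l 16732520))) (b (a (l 16733728) (l 16733672)) (a (l 16732608) (l 16732752)))))), by decide +kernel⟩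

def k9_B00pm_012_s3 : ∃ t, chk3 f_B00pm_012_s3 t 54 127 1 = true :=
  ⟨(b (c (l 22) (c (l 22) (a (a (l 22) (l 16728192)) (a (l 16728336) (l 16728528))))) (b (c (l 22) (c (l 22) (a (a (l 22) (b (l 16727368) (l 16727064))) (a (b (l 16727608) (l 16727344)) (b (l 16727904) (l 16727688)))))) (b (c (l 22) (c (l 22) (a (a (l 22) (c (l 22) (l 16725648))) (a (c (l 22) (l 16726008)) (c (l 16728536) (l 16726424)))))) (a (a (l 22) (a (l 22) (a (l 22) (a (l 22) (c (l 22) (c (l 22) (c (l 22) (l 16725616)))))))) (c (l 22) (c (l 22) (a (c (l 22) (a (l 16725736) (l 16725952))) (c (a (l 22) (b (l 16728488) (l 16728384))) (a (l 16726184) (l 16726424)))))))))), by decide +kernel⟩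

def k10_B00pm_012_s3 : ∃ t, chk3 f_B00pm_012_s3 t 55 127 1 = true :=
  ⟨(b (c (l 22) (a (a (c (l 22) (l 16728768)) (b (l 16731664) (c (l 16733440) (l 16728888)))) (a (b (l 16731896) (c (l 16733696) (l 16729280))) (b (l 16732176) (c (l 16734000) (l 16729720)))))) (b (c (l 22) (a (a (c (l 22) (b (l 16728256) (l 16728080))) (a (c (l 22) (l 16728520)) (c (l 16732936) (l 16728752)))) (a (a (c (l 16733120) (l 16728992)) (c (l 16733304) (l 16729248))) (c (a (l 16733512) (l 16733728)) (l 16732232))))) (c (l 22) (a (c (a (l 22) (a (l 22) (a (l 22) (c (l 22) (l 16731496))))) (a (c (b (l 16728944) (a (l 16728664) (l 16728904))) (a (l 16726744) (l 16727008))) (c (b (l 16729400) (a (l 16729160) (l 16729432))) (a (l 16727280) (l 16727568))))) (a (b (c (a (l 16732736) (l 16732960)) (c (l 16729920) (l 16728000))) (c (c (l 22) (a (l 16731568) (l 16731832))) (c (a (l 16729712) (l 16730008)) (l 16727976)))) (c (b (a (l 16733200)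 (l 16733456)) (a (c (l 22) (l 16732112)) (c (b (l 16734224) (l 16734120)) (l 16732408)))) (a (b (l 16729448) (l 16729424)) (c (l 16730664) (l 16728864))))))))), by decide +kernel⟩

def k11_B00pm_012_s3 : ∃ t, chk3 f_B00pm_012_s3 t 14 14 1 = true :=
  ⟨(b (l 6) (a (b (l 6) (a (l 6) (b (l 6) (l 16758432)))) (b (a (l 6) (b (l 6) (a (l 16744272) (l 16736736)))) (a (a (l 16731128) (b (l 16747560) (l 16744352))) (b (a (l 16741136) (l 16734792)) (a (l 16738864) (l 16733416))))))), by decide +kernel⟩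

def k12_B00pm_012_s3 : ∃ t, chk3 f_B00pm_012_s3 t 28 30 1 = true :=
  ⟨(b (a (a (l 16763392) (l 16737664)) (b (a (l 16756312) (l 16751312)) (a (l 16751624) (l 16747528)))) (a (b (a (l 16754400) (l 16750944)) (a (l 16749320) (l 16736240))) (a (b (l 16747608) (b (l 16745008) (l 16743512))) (b (l 16733912) (b (l 16742480) (l 16741424)))))), by decide +kernel⟩

def k13_B00pm_012_s3 : ∃ t, chk3 f_B00pm_012_s3 t 28 62 1 = true :=
  ⟨(c (a (b (a (l 16752824) (l 16750664)) (a (b (l 16749016) (l 16746720)) (b (l 16747536) (l 16745704)))) (b (a (l 16748656) (b (l 16747432) (l 16746176))) (a (a (l 16746032) (l 16745560)) (b (l 16745096) (a (l 16744632) (l 16744368)))))) (a (b (a (l 16737256) (l 16735944)) (a (b (l 16735344) (l 16734328)) (b (l 16734640) (l 16734024)))) (b (a (l 16734784) (b (l 16733856) (l 16733696))) (a (a (l 16734280) (l 16734168)) (b (l 16733720) (a (l 16734168) (l 16734248))))))), by decide +kernel⟩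

def k14_B00pm_012_s3 : ∃ t, chk3 f_B00pm_012_s3 t 56 126 1 = true :=
  ⟨(b (a (c (a (l 22) (l 16744640)) (a (l 16733656) (l 16733680))) (c (a (l 16744376) (l 16744160)) (a (l 16733744) (l 16733856)))) (a (c (a (l 22) (l 16742840)) (a (l 16732928) (l 16733152))) (c (a (l 16742800) (b (l 16743128) (l 16742504))) (a (l 16733416) (l 16738976))))), by decide +kernel⟩

def k15_B00pm_012_s3 : ∃ t, chk3 f_B00pm_012_s3 t 56 127 1 = true :=
  ⟨(b (a (c (a (l 22) (b (l 16741600) (c (l 22) (l 16738800)))) (a (b (l 16732496) (c (l 16734360) (l 16730216))) (b (l 16732872) (c (l 16734760) (l 16730752))))) (c (b (a (l 16741736) (l 16741920)) (c (l 22) (a (l 16739120) (l 16739488)))) (a (b (l 16733288) (c (l 16735208) (l 16731336))) (b (l 16733760) (c (l 16735712) (l 16731976)))))) (c (b (c (l 22) (c (a (l 22) (a (l 22) (b (l 16740128) (l 16739936)))) (a (a (l 22) (l 16737320)) (a (l 16737784) (l 16738296))))) (a (c (l 22) (a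 (l 22) (a (l 22) (a (l 22) (a (l 22) (c (l 22) (l 16737216))))))) (c (l 22) (c (c (l 22) (a (l 22) (a (l 22) (a (l 22) (l 16739592))))) (a (b (a (l 16737464) (l 16737744)) (a (b (l 16737344) (l 16737264)) (l 16737616))) (b (a (l 16738048) (l 16738360)) (a (l 16737944) (l 16738288)))))))) (b (a (a (c (a (l 16733952) (l 16734200)) (l 16732816)) (c (a (l 16734448) (l 16734720)) (l 16730832))) (a (c (a (l 16735000) (l 16735288)) (l 16731512)) (c (a (l 16735600) (l 16735920)) (l 16732248)))) (a (c (b (a (a (l 16733720) (l 16734000)) (a (l 16734296) (l 16734600))) (c (a (a (b (l 16734496) (l 16734408)) (l 16734736)) (a (l 16735040) (l 16735360))) (a (a (l 16732712) (l 16733032)) (a (l 16733368) (l 16733712))))) (a (a (b (l 16730096) (l 16730112)) (l 16730456)) (a (l 16730824) (l 16731200)))) (a (b (c (a (l 16734920) (l 16735248)) (l 16731680)) (a (c (b (l 16734888) (l 16734872)) (l 16731656)) (c (b (l 16735240) (l 16735240))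 (l 16732072)))) (a (c (a (l 16735528) (l 16735712)) (l 16732416)) (c (a (l 16735896) (l 16736088)) (l 16732848)))))))), by decide +kernel⟩

def k16_B00pm_012_s3 : ∃ t, chk3 f_B00pm_012_s3 t 57 126 1 = true :=
  ⟨(b (c (a (a (l 16743992) (l 16743872)) (a (l 16743800) (l 16743776))) (a (a (l 16734016) (l 16734216)) (a (l 16734472) (l 16734760)))) (c (a (a (b (l 16743136) (l 16742624)) (b (l 16743192) (l 16742792))) (a (b (l 16743288) (l 16743016)) (b (l 16743440) (l 16743280)))) (a (a (l 16739336) (b (l 16734408) (l 16734600))) (a (b (l 16734816) (l 16735104)) (b (l 16735264) (l 16735664)))))), by decide +kernel⟩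

def k17_B00pm_012_s3 : ∃ t, chk3 f_B00pm_012_s3 t 57 254 1 = true :=
  ⟨(c (a (a (b (l 16742160) (c (l 22) (l 16739904))) (b (c (l 16744376) (l 16740528)) (c (l 16743920) (l 16740376)))) (a (a (b (l 16742776) (l 16745184)) (b (l 16742960) (l 16745424))) (a (b (l 16743152) (l 16745680)) (b (l 16743360) (l 16745944))))) (a (a (b (l 16739512) (c (l 16736264) (l 16732656))) (b (l 16740080) (c (l 16736864) (l 16733392)))) (a (b (l 16740688) (c (l 16737512) (l 16734168))) (c (b (l 16737856) (l 16738216)) (b (l 16734368) (l 16734992)))))), by decide +kernel⟩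

def k18_B00pm_012_s3 : ∃ t, chk3 f_B00pm_012_s3 t 57 510 1 = true :=
  ⟨(c (a (a (c (l 22) (a (l 16739624) (l 16739904))) (a (c (l 22) (l 16740200)) (c (l 16743712) (l 16740504)))) (a (c (a (l 16743968) (l 16744240)) (a (l 16740824) (l 16741152))) (c (a (l 16747144) (l 16747440)) (a (l 16741496) (l 16741856))))) (a (a (c (a (l 16736248) (l 16736592)) (l 16733032)) (c (a (l 16736944) (l 16737320)) (l 16733864))) (a (c (a (l 16737696) (l 16738088)) (l 16734744)) (c (a (l 16738496) (l 16738912)) (l 16735672))))), by decide +kernel⟩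

def k19_B00pm_012_s3 : ∃ t, chk3 f_B00pm_012_s3 t 57 511 1 = true :=
  ⟨(c (a (b (a (c (l 22) (a (l 16739472) (l 16739792))) (c (a (l 22) (c (l 22) (l 16742712))) (a (l 16740128) (l 16740480)))) (c (c (l 22) (a (l 22) (a (l 22) (a (l 22) (l 16742704))))) (c (a (a (b (l 16740168) (l 16740104)) (b (l 16740496) (l 16740448))) (a (b (l 16740840) (l 16740808)) (l 16741184))) (a (a (l 16738640) (l 16739000)) (a (l 16739384) (l 16739776)))))) (b (a (c (c (l 22) (a (l 16743024) (l 16743360))) (a (l 16740840) (l 16741216))) (c (a (c (l 22) (l 16743696)) (c (l 16745424) (l 16744056))) (a (l 16741600) (l 16742000)))) (b (a (c (c (l 22) (a (l 16742960) (l 16743312))) (a (l 16740856) (l 16741256))) (c (a (c (l 22) (l 16743680)) (c (l 16745368) (l 16744056))) (a (l 16741664) (l 16742080)))) (c (c (a (l 22) (a (l 22) (a (l 22) (l 16745456)))) (a (a (b (l 16742928) (l 16742912)) (l 16743288)) (a (l 16743664) (l 16744056))))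 (a (a (c (l 16741560) (l 16740192)) (c (l 16741952) (l 16740616))) (a (l 16741704) (l 16742144))))))) (a (a (a (c (a (l 16736280) (l 16736472)) (l 16733296)) (c (a (l 16736672) (l 16736872)) (l 16733752))) (b (c (a (l 16737104) (l 16737512)) (l 16734248)) (c (a (l 16737224) (l 16737656)) (l 16737144)))) (a (a (c (a (l 16737928) (l 16738152)) (l 16735192)) (c (l 16741088) (l 16735696))) (a (c (l 16738928) (l 16736216)) (c (l 16739400) (l 16736744)))))), by decide +kernel⟩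

def k20_B00pm_012_s3 : ∃ t, chk3 f_B00pm_012_s3 t 29 30 1 = true :=
  ⟨(a (b (a (b (l 16746536) (l 16743680)) (b (l 16741752) (l 16729320))) (b (a (b (l 16741944) (l 16741024)) (a (l 16739400) (l 16737968))) (a (a (l 16740568) (l 16739600)) (a (b (l 16738696) (l 16738464)) (l 16732368))))) (b (b (a (l 16737208) (l 16711680)) (a (l 16725704) (b (l 16732464) (l 16732560)))) (b (a (b (l 16735824) (l 16735808)) (b (l 16732824) (c (l 16739712) (l 16726984)))) (a (b (l 16725472) (c (l 16742352) (l 16730392))) (b (a (l 16734352) (l 16733312)) (a (l 16735000) (l 16734184))))))), by decide +kernel⟩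

def k21_B00pm_012_s3 : ∃ t, chk3 f_B00pm_012_s3 t 29 62 1 = true :=
  ⟨(a (a (b (a (b (l 16739704) (l 16739360)) (b (l 16739080) (l 16738968))) (a (b (l 16739192) (c (l 16744152) (l 16734376))) (b (c (l 16744336) (l 16733856)) (c (l 16744040) (l 16734608))))) (b (a (b (l 16738400) (l 16738512)) (b (l 16737768) (l 16738096))) (a (b (c (l 16743912) (l 16733808)) (c (l 16743856) (l 16734768))) (b (c (l 16743544) (l 16733800)) (c (l 16743728) (l 16734976)))))) (b (a (b (c (l 16742376) (l 16731336)) (a (l 16737648) (l 16734592))) (b (a (l 16735816) (c (l 16740264) (l 16730336))) (a (c (l 16741624) (l 16732136)) (c (l 16741032) (l 16731968))))) (a (b (c (a (l 16743120) (l 16742712)) (a (l 16733760) (l 16733736))) (c (a (l 16743528) (l 16743360)) (a (l 16735128) (l 16735312)))) (b (a (c (l 16742328) (l 16733744)) (c (l 16741976) (l 16733784))) (c (a (l 16743208) (b (l 16742784) (l 16743384))) (a (l 16740768) (b (l 16735256)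 (l 16736304)))))))), by decide +kernel⟩

def k22_B00pm_012_s3 : ∃ t, chk3 f_B00pm_012_s3 t 58 126 1 = true :=
  ⟨(a (a (b (c (l 16743792) (l 16735104)) (c (b (l 16743640) (l 16743600)) (b (l 16735760) (l 16736264)))) (b (c (b (l 16743936) (l 16743920)) (l 16740792)) (a (c (l 16743944) (l 16736544)) (c (l 16744128) (l 16736872))))) (a (b (c (a (l 16744032) (l 16744064)) (a (l 16735888) (l 16736064))) (c (a (b (l 16744192) (l 16744360)) (l 16744424)) (a (l 16737168) (l 16737448)))) (b (c (l 16744080) (l 16736328)) (c (b (l 16744456) (l 16744768)) (b (l 16737456) (l 16738272)))))), by decide +kernel⟩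

def k23_B00pm_012_s3 : ∃ t, chk3 f_B00pm_012_s3 t 58 254 1 = true :=
  ⟨(a (a (a (c (b (l 16743584) (l 16746224)) (c (l 16738640) (l 16735384))) (c (b (l 16743816) (l 16746520)) (c (l 16739000) (l 16735808)))) (a (c (b (l 16744064) (c (l 16745736) (l 16742672))) (c (l 16739376) (l 16736248))) (c (b (l 16744336) (c (l 16746040) (l 16743040))) (c (l 16739776) (l 16736712))))) (a (c (a (b (l 16744568) (c (l 16746296) (l 16743368))) (b (l 16744800) (l 16747736))) (a (c (l 16740136) (l 16737144)) (b (l 16738608) (l 16739440)))) (c (b (c (l 16746648) (l 16743608)) (c (l 16746912) (l 16744144))) (b (l 16739136) (c (l 16741400) (l 16738696)))))), by decide +kernel⟩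

def k24_B00pm_012_s3 : ∃ t, chk3 f_B00pm_012_s3 t 58 255 1 = true :=
  ⟨(a (b (a (c (c (a (l 16747744) (l 16748064)) (a (l 16742224) (l 16742608))) (c (a (l 16739344) (l 16739784)) (l 16736640))) (c (a (c (l 16748392) (l 16743000)) (c (b (l 16746104) (l 16746168)) (l 16743424))) (a (l 16744112) (c (l 16740728) (l 16738048))))) (c (a (b (a (c (c (l 16745760) (l 16744424)) (l 16742408)) (c (c (l 16746112) (l 16744800)) (l 16742832))) (b (c (a (c (l 16745728) (l 16744440)) (c (l 16746104) (l 16744848))) (a (l 16742512) (l 16742960))) (c (a (c (a (l 16745640) (l 16745832)) (l 16744464)) (c (b (l 16746096) (l 16746096)) (l 16744880))) (a (l 16742584) (l 16743048))))) (b (a (c (c (l 16746472) (l 16745192)) (l 16743272)) (c (c (l 16746872) (l 16745616)) (l 16743736))) (a (c (c (a (l 16746424) (l 16746624)) (l 16745280)) (l 16746088)) (c (c (a (l 16746824) (l 16747040)) (l 16745736)) (l 16746584))))) (a (a (c (l 16739880)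 (l 16737288)) (c (l 16740376) (l 16737840))) (a (c (l 16740880) (l 16738408)) (c (l 16741424) (l 16739000)))))) (b (a (c (a (c (b (l 16746416) (l 16746504)) (l 16743808)) (c (l 16746776) (l 16744176))) (a (c (l 16741168) (l 16738552)) (l 16740320))) (c (c (b (l 16747144) (l 16747312)) (l 16747344)) (c (l 16742240) (l 16739776)))) (c (b (a (a (c (c (l 16747224) (l 16746000)) (l 16744160)) (c (l 16746968) (l 16744576))) (c (c (l 16748064) (l 16746912)) (l 16745184))) (a (a (c (a (a (l 16746608) (l 16746696)) (l 16746840)) (l 16747040)) (c (c (l 16747680) (l 16746552)) (l 16744864))) (c (c (b (l 16748176) (l 16748256)) (b (l 16747080) (l 16747192))) (c (l 16746048) (l 16744968))))) (a (a (c (l 16741920) (l 16739552)) (c (l 16742408) (l 16740096))) (c (b (l 16742896) (l 16743344)) (l 16740904)))))), by decide +kernel⟩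

def k25_B00pm_012_s3 : ∃ t, chk3 f_B00pm_012_s3 t 59 126 1 = true :=
  ⟨(a (b (c (a (b (l 16743944) (l 16744288)) (b (l 16743944) (l 16744400))) (a (l 16741928) (b (l 16736616) (l 16737544)))) (c (a (b (l 16744672) (l 16745096)) (b (l 16744904) (c (l 16746952) (l 16743952)))) (a (b (l 16737976) (l 16738888)) (b (l 16738520) (l 16739544))))) (b (c (a (b (l 16743976) (l 16744544)) (b (l 16744024) (l 16744712))) (a (b (l 16736984) (l 16738016)) (b (l 16737392) (l 16738528)))) (c (a (b (l 16745160) (c (l 16747248) (l 16744400))) (b (c (l 16746912) (l 16743984)) (c (l 16747560) (l 16744880)))) (a (b (l 16739096) (l 16745464)) (b (l 16739712) (l 16746184)))))), by decide +kernel⟩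

def k26_B00pm_012_s3 : ∃ t, chk3 f_B00pm_012_s3 t 59 254 1 = true :=
  ⟨(a (c (b (a (c (l 16747024) (l 16744128)) (c (l 16747416) (l 16744664))) (a (a (l 16748560) (l 16748848)) (c (b (l 16747784) (l 16748048)) (l 16745424)))) (a (b (l 16745104) (c (l 16742168) (l 16739584))) (b (l 16745856) (c (l 16742952) (l 16740512))))) (c (b (a (c (l 16747824) (l 16745224)) (a (l 16749520) (l 16749776))) (a (c (b (l 16748288) (l 16748608)) (l 16748720)) (c (b (l 16748808) (l 16749184)) (b (l 16746544) (l 16747040))))) (a (b (c (l 16742664) (l 16740144)) (c (l 16743768) (l 16741472))) (b (c (l 16743400) (l 16741032)) (c (l 16744616) (l 16742464)))))), by decide +kernel⟩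

def k27_B00pm_012_s3 : ∃ t, chk3 f_B00pm_012_s3 t 59 255 1 = true :=
  ⟨(b (a (c (a (c (b (l 16747720) (l 16747952)) (b (l 16745280) (l 16745640))) (c (b (l 16748320) (c (l 16749152) (l 16748064))) (b (l 16746016) (l 16746432)))) (a (c (l 16743104) (l 16740768)) (c (l 16744000) (l 16741792)))) (c (a (c (b (l 16748944) (c (l 16749800) (l 16748776))) (b (l 16746776) (l 16747240))) (c (b (l 16749576) (c (l 16750456) (l 16749504))) (a (l 16747608) (l 16748016)))) (a (c (l 16744920) (l 16742848)) (c (l 16745872) (l 16743936))))) (b (a (a (c (c (c (l 16748736) (l 16747640)) (l 16746008)) (l 16742760)) (c (c (c (l 16749416) (l 16748392)) (l 16746856)) (l 16743800))) (a (c (c (c (l 16750120) (l 16749160)) (l 16747728)) (l 16744864)) (c (c (c (l 16750840) (l 16749944)) (l 16748616)) (l 16745960)))) (a (c (c (a (c (b (l 16748896) (l 16749000)) (b (l 16747856) (l 16748000))) (c (b (l 16749624) (l 16749768)) (b (l 16748648)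 (l 16748816)))) (a (c (l 16746904) (l 16745880)) (c (l 16747776) (l 16746816)))) (c (a (l 16744352) (l 16745376)) (l 16745512))) (c (a (c (c (b (l 16750368) (l 16750536)) (b (l 16749456) (l 16749656))) (c (l 16748664) (l 16747768))) (c (c (b (l 16751128) (l 16751328)) (b (l 16750288) (l 16750512))) (c (l 16749576) (l 16748744)))) (c (a (l 16746424) (l 16747504)) (a (l 16744640) (l 16745848))))))), by decide +kernel⟩

def k28_B00pm_012_s3 : ∃ t, chk3 f_B00pm_012_s3 t 15 14 1 = true :=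
  ⟨(a (b (a (l 6) (b (l 6) (a (l 16716056) (l 16687080)))) (a (b (b (a (l 16730368) (l 16723296)) (a (l 16729648) (l 16722720))) (a (b (l 16728592) (l 16707136)) (b (l 16701600) (c (l 16730728) (l 16715496))))) (b (a (b (l 16705720) (l 16716048)) (b (b (l 16708296) (l 16708560)) (l 16688648))) (a (b (c (l 16724560) (l 16709464)) (b (l 16717856) (l 16708216))) (a (b (l 16712792) (l 16714952)) (b (l 16710144) (l 16702328))))))) (b (b (a (a (l 6) (b (l 6) (l 16692248))) (a (a (l 16686288) (l 16682048)) (a (l 16677816) (b (l 16673712) (l 16673480))))) (a (a (b (l 16700056) (l 16699576)) (b (l 16691928) (a (l 16693552) (l 16689688)))) (a (b (l 16683824) (a (l 16685976) (l 16682384))) (b (a (l 16677768) (l 16673752)) (a (l 16678896) (b (l 16674088) (l 16676104))))))) (a (b (a (b (a (l 16703240) (l 16699376)) (a (l 16704960) (l 16701952))) (b (a (l 16695936) (l 16692584)) (a (l 16699024) (l 16696168)))) (a (b (a (l 16707576)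 (l 16705072)) (a (l 16700256) (b (l 16707752) (l 16709720)))) (b (a (l 16702640) (l 16700272)) (a (b (l 16705680) (l 16707904)) (b (l 16703680) (l 16706144)))))) (a (b (b (a (l 16689304) (l 16686104)) (a (l 16693376) (l 16690664))) (b (a (l 16692728) (b (l 16694408) (l 16697072))) (a (b (l 16701744) (l 16704440)) (b (l 16699872) (l 16702808))))) (b (a (b (l 16682984) (l 16688032)) (b (l 16679944) (b (l 16684016) (l 16686904)))) (a (b (b (l 16692128) (l 16695032)) (b (l 16698064) (l 14))) (b (a (l 16692000) (l 14)) (l 14)))))))), by decide +kernel⟩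

def k29_B00pm_012_s3 : ∃ t, chk3 f_B00pm_012_s3 t 30 30 1 = true :=
  ⟨(a (b (a (b (b (l 16728112) (l 16728328)) (b (l 16728704) (l 16718752))) (b (a (l 16724992) (b (l 16722584) (l 16723360))) (a (b (l 16725976) (l 16726840)) (b (l 16724296) (l 16725392))))) (b (a (b (a (l 16730640) (l 16729232)) (a (l 16731392) (l 16730208))) (b (a (l 16727864) (l 16726656)) (a (l 16729064) (l 16722840)))) (a (b (a (l 16732312) (l 16731352)) (a (l 16733400) (c (l 16737648) (l 16727824)))) (b (a (l 16725184) (c (l 16734560) (l 16724952))) (a (c (l 16736696) (l 16727368)) (c (l 16735936) (l 16727072))))))) (b (a (b (b (l 16709216) (a (l 16721672) (l 16720048))) (b (a (l 16722864) (l 16721488)) (a (l 16724208) (l 16723088)))) (b (a (b (l 16716944) (l 16718472)) (b (l 16715184) (l 16716968))) (a (b (l 16720168) (l 16722016)) (b (l 16718904) (l 16720992))))) (b (a (b (a (l 16725720) (l 16724848)) (a (l 16727400) (l 16721528))) (b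 (a (l 16724024) (l 16723248)) (a (l 16723568) (l 16723032)))) (a (b (a (c (l 16733904) (l 16724720)) (c (l 16733304) (l 16724544))) (a (c (l 16735544) (l 16727072)) (c (l 16735208) (l 16727128)))) (b (a (c (l 16732752) (l 16724424)) (c (l 16732232) (l 16724336))) (a (c (l 16734904) (l 16727224)) (c (l 16734640) (l 16727368)))))))), by decide +kernel⟩

def k30_B00pm_012_s3 : ∃ t, chk3 f_B00pm_012_s3 t 31 30 1 = true :=
  ⟨(a (b (a (b (a (b (l 16713480) (l 16715512)) (b (l 16711840) (l 16714112))) (a (b (l 16717696) (l 16720024)) (b (l 16716536) (l 16719112)))) (b (a (b (l 16710264) (l 16712776)) (b (l 16708744) (l 16711496))) (a (b (l 16715440) (l 16715624)) (b (l 16711768) (a (l 16717632) (l 14)))))) (a (b (a (b (l 16719896) (c (l 16729248) (l 16721224))) (b (c (l 16725960) (l 16717872)) (c (l 16728568) (l 16721016)))) (a (b (c (l 16731760) (l 16724304)) (c (l 16734424) (l 16727552))) (b (c (l 16731328) (l 16724320))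 (l 14)))) (b (a (b (c (l 16725072) (l 16717496)) (a (l 16724416) (l 14))) (l 14)) (l 14)))) (a (b (b (a (b (l 16707280) (l 16710264)) (b (l 16705880) (l 14))) (l 14)) (l 14)) (l 14))), by decide +kernel⟩

def k31_B00pm_012_s3 : ∃ t, chk3 f_B00pm_012_s3 t 30 62 1 = true :=
  ⟨(a (b (a (b (a (c (l 16739472) (l 16730000)) (c (l 16738712) (l 16729704))) (a (c (l 16740472) (l 16731840)) (c (l 16739952) (l 16731752)))) (b (a (c (l 16737992) (l 16729448)) (c (l 16737472) (l 16729368))) (a (c (l 16739456) (l 16731704)) (c (b (l 16738728) (l 16739624)) (b (l 16731192) (l 16732472)))))) (a (b (a (c (l 16741648) (l 16733864)) (c (b (l 16740984) (l 16741720)) (l 16736600))) (c (a (b (l 16742632) (l 16743344)) (b (l 16742512) (l 16743336))) (a (b (l 16735496) (l 16736640)) (b (l 16735768) (l 16737016))))) (b (a (c (b (l 16740656) (l 16741512)) (b (l 16733504) (l 16734768))) (c (b (l 16740560) (l 16741528)) (b (l 16733792)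 (l 16735160)))) (b (a (c (l 16742416) (l 16736072)) (c (l 16742544) (l 16736568))) (a (c (l 16743352) (l 16737416)) (c (a (l 16743440) (l 16743760)) (l 16740640))))))) (b (a (b (a (c (l 16737344) (l 16729592)) (c (l 16737264) (l 16729872))) (a (c (b (l 16738792) (l 16739816)) (l 16734904)) (b (l 16735416) (a (l 16736632) (l 16736840))))) (b (a (c (l 16737216) (l 16730192)) (c (b (l 16736544) (l 16737864)) (l 16735800))) (a (c (b (l 16739048) (l 16740320)) (b (l 16732520) (l 16734136))) (c (b (l 16739224) (l 16740624)) (b (l 16733048) (l 16734768)))))) (a (b (a (c (b (l 16740872) (l 16741976)) (b (l 16734416) (l 16735888))) (c (b (l 16741240) (l 16742464)) (b (l 16735080) (l 16736664)))) (a (c (b (l 16743120) (l 16744304)) (b (l 16737408) (l 16738968))) (c (b (l 16743728) (l 16745040)) (b (l 16738296) (l 16739968))))) (b (b (a (c (l 16741632) (l 16735784)) (c (l 16742056) (l 16736528))) (a (c (l 16742984) (l 16737480))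 (l 14))) (a (a (b (l 16744176) (a (l 16745640) (l 14))) (l 14)) (l 14)))))), by decide +kernel⟩

def k32_B00pm_012_s3 : ∃ t, chk3 f_B00pm_012_s3 t 30 126 1 = true :=
  ⟨(a (a (b (a (c (b (l 16744104) (l 16744904)) (b (l 16737832) (l 16739072))) (c (b (l 16744208) (c (l 16746528) (l 16743728))) (b (l 16738304) (l 16744888)))) (c (a (b (c (l 16747128) (l 16744376)) (c (l 16747896) (l 16745376))) (b (c (l 16747368) (l 16744792)) (c (b (l 16748024) (l 16748480)) (l 16748528)))) (a (b (l 16745592) (c (l 16742904) (l 16740472))) (b (c (l 16742272) (l 16739800)) (c (l 16743592) (l 16741328)))))) (c (b (a (b (a (l 16744296) (l 16744368)) (a (l 16745296) (l 16745424))) (b (a (l 16744504) (l 16744896)) (a (l 16745616) (l 16746064)))) (a (a (b (l 16746336) (c (l 16748528) (l 16746312))) (b (l 16746520) (c (l 16748720) (l 16746592)))) (b (a (c (l 16747904) (l 16745640)) (l 16747272)) (a (c (l 16748984) (l 16746936)) (c (l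 16749536) (l 16747536)))))) (b (a (b (c (l 16740168) (l 16737472)) (c (l 16741504) (l 16739008))) (b (a (l 16739256) (l 16739768)) (a (l 16740776) (l 16741336)))) (a (b (c (l 16742888) (l 16740592)) (c (l 16746936) (l 16742224))) (b (a (l 16742328) (l 16742952)) (a (l 16746552) (l 16744608))))))) (a (b (a (c (b (a (l 16745312) (l 16745736)) (a (l 16746544) (l 16747032))) (b (l 16743200) (a (l 16741928) (l 16742528)))) (c (b (a (l 16746168) (l 16746608)) (a (l 16747528) (l 14))) (b (l 16744304) (a (l 16743136) (l 14))))) (b (a (c (a (l 16747816) (l 16748368)) (a (l 16743592) (l 16744248))) (a (c (l 16748920) (l 16744904)) (l 14))) (a (a (c (c (l 16750112) (l 16748160)) (l 16745304)) (c (c (l 16750704) (l 16748800)) (l 16746016))) (l 14)))) (l 14))), by decide +kernel⟩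

def k33_B00pm_012_s3 : ∃ t, chk3 f_B00pm_012_s3 t 60 254 1 = true :=
  ⟨(a (c (a (b (c (b (l 16748496) (l 16748912)) (l 16749040)) (c (b (l 16749344) (l 16749784)) (a (l 16747328) (l 16747696)))) (b (c (b (l 16748944) (l 16749416)) (a (l 16746896) (l 16747216))) (a (c (l 16752616) (l 16748064)) (b (l 16749080) (l 16752272))))) (a (b (c (l 16744168) (l 16741952)) (c (l 16745488) (l 16743480))) (b (c (l 16744968) (l 16742912)) (c (l 16749000) (l 16744536))))) (a (a (c (b (c (l 16749544) (l 16747544)) (c (b (l 16750328) (l 16750864)) (l 16748824))) (b (l 16744608) (l 16748824))) (c (b (b (l 16748528) (l 16751752)) (c (b (l 16750616) (l 16751184)) (l 16751832))) (b (l 16747688) (c (l 16747536) (l 16745888))))) (b (c (b (a (c (l 16749824) (l 16747936)) (l 16749496)) (a (c (l 16750400) (l 16748624)) (l 16752776))) (a (c (l 16746472) (l 16744696)) (l 16748928))) (c (a (a (b (l 16750000) (l 16753256)) (b (l 16750288)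 (l 16753568))) (c (b (l 16751640) (l 16752264)) (b (l 16750016) (l 16750744)))) (a (c (l 16748064) (l 16746488)) (c (l 16748824) (l 16747288))))))), by decide +kernel⟩

def k34_B00pm_012_s3 : ∃ t, chk3 f_B00pm_012_s3 t 60 510 1 = true :=
  ⟨(a (b (c (a (a (l 16751728) (l 16752096)) (c (a (l 16750728) (l 16751064)) (l 16749176))) (a (l 16745576) (l 16749248))) (c (a (c (c (l 16751128) (l 16750248)) (l 16748936)) (c (a (l 16751232) (l 16751592)) (l 16749808))) (a (l 16746320) (l 16750040)))) (c (b (a (c (a (l 16751408) (l 16751752)) (a (l 16749808) (l 16750232))) (a (c (c (l 16752544) (l 16751816)) (l 16750728)) (c (l 16752896) (l 16751488)))) (a (c (a (l 16751968) (c (l 16752696) (l 16751992))) (c (l 16751072) (l 16750344))) (a (c (a (l 16752632) (l 16752952)) (l 16751456)) (c (l 16753544) (l 16752240))))) (a (c (b (l 16748472) (l 16749264)) (l 16747376)) (c (a (l 16749704) (l 16750520)) (a (l 16748328) (l 16749176)))))),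 by decide +kernel⟩

def k35_B00pm_012_s3 : ∃ t, chk3 f_B00pm_012_s3 t 60 511 1 = true :=
  ⟨(c (a (b (a (c (a (l 16750960) (l 16751352)) (l 16749520)) (c (a (l 16751744) (l 16752136)) (l 16750456))) (b (c (a (c (l 16751904) (l 16751128)) (c (l 16752688) (l 16751992))) (a (l 16749968) (l 16750944))) (a (c (c (l 16752128) (l 16751392)) (l 16750272)) (c (a (l 16752400) (l 16752824)) (l 16751272))))) (b (a (c (c (a (l 16752880) (l 16753264)) (a (l 16752192) (l 16752616))) (c (l 16751736) (l 16751072))) (c (a (a (l 16753248) (l 16753584)) (c (l 16754496) (l 16753904))) (a (l 16752192) (l 16753008)))) (a (a (c (a (l 16753008) (l 16753224)) (l 16751856)) (c (c (b (l 16753696) (l 16753984)) (l 16753248)) (l 16752360))) (a (c (a (a (l 16753816) (l 16753928)) (a (l 16754128) (l 14))) (c (l 16753216) (l 16752656))) (l 14))))) (a (a (c (b (l 16747888) (l 16748608)) (l 16746680)) (c (b (l 16748968) (l 16749728)) (b (l 16747488)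 (l 16748352)))) (a (c (b (l 16750064) (l 16750880)) (b (l 16748728) (l 16749648))) (a (c (b (l 16750960) (l 16751816)) (l 16750208)) (b (l 16751216) (l 14)))))), by decide +kernel⟩

def k36_B00pm_012_s3 : ∃ t, chk3 f_B00pm_012_s3 t 61 127 1 = true :=
  ⟨(b (a (a (a (c (b (c (l 16751368) (l 16749624)) (c (b (l 16752328) (l 16752992)) (l 16751128))) (b (l 16747064) (c (l 16749616) (l 16748112)))) (a (b (c (l 16750992) (l 16747632)) (l 14)) (l 14))) (l 14)) (l 14)) (l 14)), by decide +kernel⟩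

def k37_B00pm_012_s3 : ∃ t, chk3 f_B00pm_012_s3 t 31 31 1 = true :=
  ⟨(b (a (a (b (a (a (b (a (l 16733944) (l 16734008)) (l 14)) (l 14)) (l 14)) (l 14)) (l 14)) (l 14)) (l 14)), by decide +kernel⟩

theorem t38_B00pm_012_s3 : ∃ t, chk3 f_B00pm_012_s3 t 60 255 1 = true := ex3_b k34_B00pm_012_s3 k35_B00pm_012_s3

theorem t39_B00pm_012_s3 : ∃ t, chk3 f_B00pm_012_s3 t 60 127 1 = true := ex3_b k33_B00pm_012_s3 t38_B00pm_012_s3

theorem t40_B00pm_012_s3 : ∃ t, chk3 f_B00pm_012_s3 t 30 127 1 = true := ex3_a t39_B00pm_012_s3 k36_B00pm_012_s3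

theorem t41_B00pm_012_s3 : ∃ t, chk3 f_B00pm_012_s3 t 30 63 1 = true := ex3_b k32_B00pm_012_s3 t40_B00pm_012_s3

theorem t42_B00pm_012_s3 : ∃ t, chk3 f_B00pm_012_s3 t 30 31 1 = true := ex3_b k31_B00pm_012_s3 t41_B00pm_012_s3

theorem t43_B00pm_012_s3 : ∃ t, chk3 f_B00pm_012_s3 t 15 31 1 = true := ex3_a t42_B00pm_012_s3 k37_B00pm_012_s3

theorem t44_B00pm_012_s3 : ∃ t, chk3 f_B00pm_012_s3 t 15 30 1 = true := ex3_a k29_B00pm_012_s3 k30_B00pm_012_s3

theorem t45_B00pm_012_s3 : ∃ t, chk3 f_B00pm_012_s3 t 15 15 1 = true := ex3_b t44_B00pm_012_s3 t43_B00pm_012_s3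

theorem t46_B00pm_012_s3 : ∃ t, chk3 f_B00pm_012_s3 t 15 7 1 = true := ex3_b k28_B00pm_012_s3 t45_B00pm_012_s3

theorem t47_B00pm_012_s3 : ∃ t, chk3 f_B00pm_012_s3 t 59 127 1 = true := ex3_b k26_B00pm_012_s3 k27_B00pm_012_s3

theorem t48_B00pm_012_s3 : ∃ t, chk3 f_B00pm_012_s3 t 59 63 1 = true := ex3_b k25_B00pm_012_s3 t47_B00pm_012_s3

theorem t49_B00pm_012_s3 : ∃ t, chk3 f_B00pm_012_s3 t 58 127 1 = true := ex3_b k23_B00pm_012_s3 k24_B00pm_012_s3

theorem t50_B00pm_012_s3 : ∃ t, chk3 f_B00pm_012_s3 t 58 63 1 = true := ex3_b k22_B00pm_012_s3 t49_B00pm_012_s3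

theorem t51_B00pm_012_s3 : ∃ t, chk3 f_B00pm_012_s3 t 29 63 1 = true := ex3_a t50_B00pm_012_s3 t48_B00pm_012_s3

theorem t52_B00pm_012_s3 : ∃ t, chk3 f_B00pm_012_s3 t 29 31 1 = true := ex3_b k21_B00pm_012_s3 t51_B00pm_012_s3

theorem t53_B00pm_012_s3 : ∃ t, chk3 f_B00pm_012_s3 t 29 15 1 = true := ex3_b k20_B00pm_012_s3 t52_B00pm_012_s3

theorem t54_B00pm_012_s3 : ∃ t, chk3 f_B00pm_012_s3 t 57 255 1 = true := ex3_b k18_B00pm_012_s3 k19_B00pm_012_s3

theorem t55_B00pm_012_s3 : ∃ t, chk3 f_B00pm_012_s3 t 57 127 1 = true := ex3_b k17_B00pm_012_s3 t54_B00pm_012_s3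

theorem t56_B00pm_012_s3 : ∃ t, chk3 f_B00pm_012_s3 t 57 63 1 = true := ex3_b k16_B00pm_012_s3 t55_B00pm_012_s3

theorem t57_B00pm_012_s3 : ∃ t, chk3 f_B00pm_012_s3 t 56 63 1 = true := ex3_b k14_B00pm_012_s3 k15_B00pm_012_s3

theorem t58_B00pm_012_s3 : ∃ t, chk3 f_B00pm_012_s3 t 28 63 1 = true := ex3_a t57_B00pm_012_s3 t56_B00pm_012_s3

theorem t59_B00pm_012_s3 : ∃ t, chk3 f_B00pm_012_s3 t 28 31 1 = true := ex3_b k13_B00pm_012_s3 t58_B00pm_012_s3

theorem t60_B00pm_012_s3 : ∃ t, chk3 f_B00pm_012_s3 t 28 15 1 = true := ex3_b k12_B00pm_012_s3 t59_B00pm_012_s3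

theorem t61_B00pm_012_s3 : ∃ t, chk3 f_B00pm_012_s3 t 14 15 1 = true := ex3_a t60_B00pm_012_s3 t53_B00pm_012_s3

theorem t62_B00pm_012_s3 : ∃ t, chk3 f_B00pm_012_s3 t 14 7 1 = true := ex3_b k11_B00pm_012_s3 t61_B00pm_012_s3

theorem t63_B00pm_012_s3 : ∃ t, chk3 f_B00pm_012_s3 t 7 7 1 = true := ex3_a t62_B00pm_012_s3 t46_B00pm_012_s3

theorem t64_B00pm_012_s3 : ∃ t, chk3 f_B00pm_012_s3 t 27 127 1 = true := ex3_a k9_B00pm_012_s3 k10_B00pm_012_s3

theorem t65_B00pm_012_s3 : ∃ t, chk3 f_B00pm_012_s3 t 27 63 1 = true := ex3_b k8_B00pm_012_s3 t64_B00pm_012_s3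

theorem t66_B00pm_012_s3 : ∃ t, chk3 f_B00pm_012_s3 t 13 63 1 = true := ex3_a k7_B00pm_012_s3 t65_B00pm_012_s3

theorem t67_B00pm_012_s3 : ∃ t, chk3 f_B00pm_012_s3 t 13 31 1 = true := ex3_b k6_B00pm_012_s3 t66_B00pm_012_s3

theorem t68_B00pm_012_s3 : ∃ t, chk3 f_B00pm_012_s3 t 13 15 1 = true := ex3_b k5_B00pm_012_s3 t67_B00pm_012_s3

theorem t69_B00pm_012_s3 : ∃ t, chk3 f_B00pm_012_s3 t 6 15 1 = true := ex3_a k4_B00pm_012_s3 t68_B00pm_012_s3

theorem t70_B00pm_012_s3 : ∃ t, chk3 f_B00pm_012_s3 t 6 7 1 = true := ex3_b k3_B00pm_012_s3 t69_B00pm_012_s3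

theorem t71_B00pm_012_s3 : ∃ t, chk3 f_B00pm_012_s3 t 3 7 1 = true := ex3_a t70_B00pm_012_s3 t63_B00pm_012_s3

theorem t72_B00pm_012_s3 : ∃ t, chk3 f_B00pm_012_s3 t 3 3 1 = true := ex3_b k2_B00pm_012_s3 t71_B00pm_012_s3

theorem t73_B00pm_012_s3 : ∃ t, chk3 f_B00pm_012_s3 t 3 1 1 = true := ex3_b k1_B00pm_012_s3 t72_B00pm_012_s3

theorem t74_B00pm_012_s3 : ∃ t, chk3 f_B00pm_012_s3 t 1 1 1 = true := ex3_a k0_B00pm_012_s3 t73_B00pm_012_s3

theorem c_B00pm_012_s3 : CertF 0 536870912 0 536870912 134217728 67108864 false true false .pnp 0 1 2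
    ndF0q0 ndF0q2 pcF1 cut_B00pm_012_s3 Ext.none :=
  certFK2 (fam := false) (s1 := true) (s2 := false) (a := 0) (b := 1) (c := 2) (cn := .pnp) (n1 := ndF0q0) (n2 := ndF0q2) (pc := pcF1) (cut := cut_B00pm_012_s3) (xt := Ext.none) (P1 := 0) (W1 := 536870912) (P2 := 0) (W2 := 536870912) (P3 := 134217728) (W3 := 67108864)
    rfl rfl rfl (fun _ => rfl) t74_B00pm_012_s3

theorem s_B00pm_012_s3 {κ x : ℝ} (hκ : κ * h0 = ken x) (hx : ((134217728 : ℕ) : ℝ) / S ≤ x)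
    (hx' : x ≤ (((134217728 : ℕ) : ℝ) + (67108864 : ℕ)) / S)
    (H : CutB (VF κ) PP tKF tL pcF (Cut.of [[⟨0, 0, 0, 53687091⟩, ⟨1, 1, 0, 53687091⟩, ⟨2, 1, 0, 53687091⟩], [⟨0, 0, 1, 41943040⟩, ⟨1, 1, 2, 41943040⟩, ⟨2, 1, 0, 16777216⟩]]) 0 1 2 0 0 (sgb true) (sgb false) x) :
    AltB (VF κ) PP tKF tL pcF [⟨4, 0, 0, 2845415833⟩] 0 1 2 0 0 (sgb true) (sgb false) x :=
  strip_altB (m := 2845415833) false rfl hκ covF00 covF02 hx hx' c_B00pm_012_s3 H (noExt_B)

noncomputable def cut_B00pm_022_s1 : Cut := Cut.of [[⟨4, 0, 0, 1449551462⟩], [⟨0, 0, 0, 67108864⟩, ⟨1, 1, 0, 67108864⟩, ⟨2, 1, 0, 67108864⟩]]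

noncomputable def f_B00pm_022_s1 : ℕ → ℕ → ℕ → ℕ → Bool := onCell 1073741824 536870912 0 536870912 134217728 67108864
    (rowFK 2 false true false .pp 0 2 2 (qsf 0 536870912 0 536870912 2) ndF0q0 ndF0q2 pcF2 cut_B00pm_022_s1 Ext.none)

def k0_B00pm_022_s1 : ∃ t, chk3 f_B00pm_022_s1 t 1 1 1 = true :=
  ⟨(l 6), by decide +kernel⟩

theorem c_B00pm_022_s1 : CertF 0 536870912 0 536870912 134217728 67108864 false true false .pp 0 2 2
    ndF0q0 ndF0q2 pcF2 cut_B00pm_022_s1 Ext.none :=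
  certFK2 (fam := false) (s1 := true) (s2 := false) (a := 0) (b := 2) (c := 2) (cn := .pp) (n1 := ndF0q0) (n2 := ndF0q2) (pc := pcF2) (cut := cut_B00pm_022_s1) (xt := Ext.none) (P1 := 0) (W1 := 536870912) (P2 := 0) (W2 := 536870912) (P3 := 134217728) (W3 := 67108864)
    rfl rfl rfl (fun _ => rfl) k0_B00pm_022_s1

theorem s_B00pm_022_s1 {κ x : ℝ} (hκ : κ * h0 = ken x) (hx : ((134217728 : ℕ) : ℝ) / S ≤ x)
    (hx' : x ≤ (((134217728 : ℕ) : ℝ) + (67108864 : ℕ)) / S)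
    (H : CutB (VF κ) PP tKF tL pcF (Cut.of [[⟨0, 0, 0, 67108864⟩, ⟨1, 1, 0, 67108864⟩, ⟨2, 1, 0, 67108864⟩]]) 0 2 2 0 0 (sgb true) (sgb false) x) :
    AltB (VF κ) PP tKF tL pcF [⟨3, 0, 0, 1449551462⟩] 0 2 2 0 0 (sgb true) (sgb false) x :=
  strip_altB (m := 1449551462) true rfl hκ covF00 covF02 hx hx' c_B00pm_022_s1 H (noExt_B)

noncomputable def cut_B00pm_022_s3 : Cut := Cut.of [[⟨3, 0, 0, 2845415833⟩], [⟨0, 0, 0, 67108864⟩, ⟨1, 1, 0, 67108864⟩, ⟨2, 1, 0, 67108864⟩]]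

noncomputable def f_B00pm_022_s3 : ℕ → ℕ → ℕ → ℕ → Bool := onCell 0 536870912 0 536870912 134217728 67108864
    (rowFK 0 false true false .pp 0 2 2 (qsf 0 536870912 0 536870912 2) ndF0q0 ndF0q2 pcF2 cut_B00pm_022_s3 Ext.none)

def k0_B00pm_022_s3 : ∃ t, chk3 f_B00pm_022_s3 t 1 1 1 = true :=
  ⟨(a (b (l 6) (a (b (a (b (l 6) (a (a (b (b (c (l 16714496) (l 16692016)) (a (l 16723856) (l 16691992))) (b (a (c (l 16708392) (l 16706480)) (l 16696296)) (a (b (l 16711112) (l 16734488)) (c (l 16701320) (l 16699824))))) (a (b (b (l 6) (l 16681008)) (b (l 16684944) (l 16709936))) (b (l 6) (b (l 16673488) (l 16677152))))) (b (l 6) (a (b (c (l 16655664) (l 16656272)) (b (l 16700352) (l 16680976))) (b (l 6) (b (l 16676264) (l 16656520))))))) (b (l 6) (a (b (l 6) (l 6)) (l 6)))) (a (a (b (b (a (a (b (b (c (l 16716880) (l 16714880)) (c (l 16719440) (l 16717432))) (b (c (l 16743048) (l 16720072)) (l 14))) (b (c (l 16726936) (l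 16704400)) (b (l 16708936) (l 14)))) (b (a (c (l 16693664) (l 16692568)) (l 16702008)) (b (a (l 16696608) (l 16684176)) (l 14)))) (l 14)) (l 14)) (a (b (b (b (a (l 16689728) (l 16677336)) (b (a (l 16671624) (l 16658968)) (l 14))) (l 14)) (l 14)) (a (b (b (b (l 16664832) (b (l 16646192) (l 14))) (l 14)) (l 1)) (b (b (b (l 16652208) (b (a (l 16636552) (l 16630072)) (a (l 14) (l 16631552)))) (a (l 14) (l 1))) (l 1))))) (b (a (b (a (b (a (b (l 16638928) (a (l 16622296) (l 16615856))) (l 16626624)) (a (b (l 16662240) (l 1)) (l 1))) (l 1)) (l 1)) (l 1)) (l 1)))) (b (l 1) (l 1)))) (l 1)), by decide +kernel⟩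

theorem c_B00pm_022_s3 : CertF 0 536870912 0 536870912 134217728 67108864 false true false .pp 0 2 2
    ndF0q0 ndF0q2 pcF2 cut_B00pm_022_s3 Ext.none :=
  certFK0 (fam := false) (s1 := true) (s2 := false) (a := 0) (b := 2) (c := 2) (cn := .pp) (n1 := ndF0q0) (n2 := ndF0q2) (pc := pcF2) (cut := cut_B00pm_022_s3) (xt := Ext.none) (P1 := 0) (W1 := 536870912) (P2 := 0) (W2 := 536870912) (P3 := 134217728) (W3 := 67108864)
    rfl rfl rfl k0_B00pm_022_s3

theorem s_B00pm_022_s3 {κ x : ℝ} (hκ : κ * h0 = ken x) (hx : ((134217728 : ℕ) : ℝ) / S ≤ x)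
    (hx' : x ≤ (((134217728 : ℕ) : ℝ) + (67108864 : ℕ)) / S)
    (H : CutB (VF κ) PP tKF tL pcF (Cut.of [[⟨0, 0, 0, 67108864⟩, ⟨1, 1, 0, 67108864⟩, ⟨2, 1, 0, 67108864⟩]]) 0 2 2 0 0 (sgb true) (sgb false) x) :
    AltB (VF κ) PP tKF tL pcF [⟨4, 0, 0, 2845415833⟩] 0 2 2 0 0 (sgb true) (sgb false) x :=
  strip_altB (m := 2845415833) false rfl hκ covF00 covF02 hx hx' c_B00pm_022_s3 H (noExt_B)

noncomputable def cut_B00pm_101_s1 : Cut := Cut.of [[⟨4, 0, 0, 1449551462⟩], [⟨0, 1, 0, 53687091⟩, ⟨1, 0, 0, 53687091⟩, ⟨2, 1, 0, 53687091⟩]]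

noncomputable def f_B00pm_101_s1 : ℕ → ℕ → ℕ → ℕ → Bool := onCell 0 536870912 536870912 536870912 134217728 67108864
    (rowFK 2 false true false .npn 1 0 1 (qsf 536870912 536870912 536870912 536870912 0) ndF0q1 ndF0q1 pcF0 cut_B00pm_101_s1 Ext.none)

def k0_B00pm_101_s1 : ∃ t, chk3 f_B00pm_101_s1 t 1 1 1 = true :=
  ⟨(a (b (l 6) (b (l 6) (a (b (a (l 6) (l 6)) (b (a (b (a (b (l 17292000) (l 17254080)) (l 6)) (a (a (l 17163536) (l 17162096)) (l 17160000))) (l 6)) (a (a (b (a (l 14) (b (l 17065016) (l 16993744))) (l 14)) (b (l 17201536) (b (l 16926112) (l 16931048)))) (b (l 17124712) (l 17159864))))) (a (b (l 6) (b (l 6) (l 17321608))) (l 6))))) (l 6)), by decide +kernel⟩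

theorem c_B00pm_101_s1 : CertF 536870912 536870912 536870912 536870912 134217728 67108864 false true false .npn 1 0 1
    ndF0q1 ndF0q1 pcF0 cut_B00pm_101_s1 Ext.none :=
  certFK2 (fam := false) (s1 := true) (s2 := false) (a := 1) (b := 0) (c := 1) (cn := .npn) (n1 := ndF0q1) (n2 := ndF0q1) (pc := pcF0) (cut := cut_B00pm_101_s1) (xt := Ext.none) (P1 := 536870912) (W1 := 536870912) (P2 := 536870912) (W2 := 536870912) (P3 := 134217728) (W3 := 67108864)
    rfl rfl rfl (fun _ => rfl) k0_B00pm_101_s1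

theorem s_B00pm_101_s1 {κ x : ℝ} (hκ : κ * h0 = ken x) (hx : ((134217728 : ℕ) : ℝ) / S ≤ x)
    (hx' : x ≤ (((134217728 : ℕ) : ℝ) + (67108864 : ℕ)) / S)
    (H : CutB (VF κ) PP tKF tL pcF (Cut.of [[⟨0, 1, 0, 53687091⟩, ⟨1, 0, 0, 53687091⟩, ⟨2, 1, 0, 53687091⟩]]) 1 0 1 0 0 (sgb true) (sgb false) x) :
    AltB (VF κ) PP tKF tL pcF [⟨3, 0, 0, 1449551462⟩] 1 0 1 0 0 (sgb true) (sgb false) x :=
  strip_altB (m := 1449551462) true rfl hκ covF01 covF01 hx hx' c_B00pm_101_s1 H (noExt_B)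

noncomputable def cut_B00pm_101_s3 : Cut := Cut.of [[⟨3, 0, 0, 2845415833⟩], [⟨0, 1, 0, 53687091⟩, ⟨1, 0, 0, 53687091⟩, ⟨2, 1, 0, 53687091⟩]]

noncomputable def xt_B00pm_101_s3 : Ext := strExt dd false true false .u0 .u0m .s0m .npn 1 0 1 rfl rfl gl0 vv ndF0q1 ndF0q1

noncomputable def f_B00pm_101_s3 : ℕ → ℕ → ℕ → ℕ → Bool := onCell 536870912 536870912 536870912 536870912 134217728 67108864
    (rowFK 0 false true false .npn 1 0 1 (qsf 536870912 536870912 536870912 536870912 0) ndF0q1 ndF0q1 pcF0 cut_B00pm_101_s3 xt_B00pm_101_s3)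

def k0_B00pm_101_s3 : ∃ t, chk3 f_B00pm_101_s3 t 1 1 1 = true :=
  ⟨(a (b (a (b (b (a (l 4) (l 544924431)) (a (l 544888079) (l 544367375))) (b (b (a (l 544525839) (l 543961103)) (a (a (l 544646159) (l 544206863)) (l 543745295))) (a (a (a (l 544546831) (l 544289295)) (l 543955471)) (b (l 543552271) (l 17133192))))) (b (a (b (l 1) (a (l 544057615) (l 1))) (l 1)) (a (b (a (l 543504655) (l 17128872)) (b (l 17178848) (l 6))) (b (a (l 17193008) (l 1)) (l 6))))) (b (a (b (a (a (l 545111311) (a (l 17137856) (l 17157552))) (b (l 17184536) (l 6))) (a (b (l 17193960) (l 6)) (l 6))) (l 6)) (l 6))) (b (a (b (l 1) (l 6)) (l 1)) (l 6))), by decide +kernel⟩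

theorem c_B00pm_101_s3 : CertF 536870912 536870912 536870912 536870912 134217728 67108864 false true false .npn 1 0 1
    ndF0q1 ndF0q1 pcF0 cut_B00pm_101_s3 xt_B00pm_101_s3 :=
  certFK0 (fam := false) (s1 := true) (s2 := false) (a := 1) (b := 0) (c := 1) (cn := .npn) (n1 := ndF0q1) (n2 := ndF0q1) (pc := pcF0) (cut := cut_B00pm_101_s3) (xt := xt_B00pm_101_s3) (P1 := 536870912) (W1 := 536870912) (P2 := 536870912) (W2 := 536870912) (P3 := 134217728) (W3 := 67108864)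
    rfl rfl rfl k0_B00pm_101_s3

theorem s_B00pm_101_s3 {κ x : ℝ} (hκ : κ * h0 = ken x) (hx : ((134217728 : ℕ) : ℝ) / S ≤ x)
    (hx' : x ≤ (((134217728 : ℕ) : ℝ) + (67108864 : ℕ)) / S)
    (H : CutB (VF κ) PP tKF tL pcF (Cut.of [[⟨0, 1, 0, 53687091⟩, ⟨1, 0, 0, 53687091⟩, ⟨2, 1, 0, 53687091⟩]]) 1 0 1 0 0 (sgb true) (sgb false) x) :
    AltB (VF κ) PP tKF tL pcF [⟨4, 0, 0, 2845415833⟩] 1 0 1 0 0 (sgb true) (sgb false) x :=
  strip_altB (m := 2845415833) false rfl hκ covF01 covF01 hx hx' c_B00pm_101_s3 H ((okx hx hx').extB (T := tt) (sideF hx hx') hκ rfl rfl (.O 1 true) (.O 1 false) (Or.inl rfl))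

noncomputable def cut_B00pm_102_s1 : Cut := Cut.of [[⟨4, 0, 0, 1449551462⟩], [⟨0, 1, 0, 53687091⟩, ⟨1, 0, 0, 53687091⟩, ⟨2, 1, 0, 53687091⟩]]

noncomputable def xt_B00pm_102_s1 : Ext := strExt dd false true false .u0 .u2 .u0m .npp 1 0 2 rfl rfl gf0 vv ndF0q1 ndF0q2

noncomputable def f_B00pm_102_s1 : ℕ → ℕ → ℕ → ℕ → Bool := onCell 536870912 536870912 0 536870912 134217728 67108864
    (rowFK 0 false true false .npp 1 0 2 (qsf 536870912 536870912 0 536870912 0) ndF0q1 ndF0q2 pcF0 cut_B00pm_102_s1 xt_B00pm_102_s1)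

def k0_B00pm_102_s1 : ∃ t, chk3 f_B00pm_102_s1 t 2 1 1 = true :=
  ⟨(b (a (b (l 2) (a (l 2) (b (l 2) (a (l 2) (l 16999472))))) (b (a (b (a (l 541835535) (l 3)) (a (l 541925647) (l 541710095))) (b (l 3) (a (l 541439503) (l 3)))) (a (a (b (l 541991951) (l 542041359)) (b (l 541779983) (l 541828367))) (b (l 542711311) (a (l 541561871) (l 541272335)))))) (a (b (l 6) (l 6)) (a (b (b (a (a (l 17144064) (l 17110160)) (l 541849359)) (l 6)) (l 6)) (b (b (a (l 541593359) (l 541309967)) (a (b (l 17069232) (l 6)) (b (l 17003224) (l 17051504)))) (l 6))))), by decide +kernel⟩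

def k1_B00pm_102_s1 : ∃ t, chk3 f_B00pm_102_s1 t 3 1 1 = true :=
  ⟨(b (a (b (l 3) (a (b (a (l 540875791) (l 3)) (a (l 540949775) (l 540615183))) (l 3))) (l 3)) (a (b (a (b (a (l 540998671) (l 540690959)) (b (a (l 16942392) (l 16887080)) (a (l 16986200) (l 17010992)))) (b (a (l 540370191) (a (l 540137999) (l 539988495))) (a (b (l 540425999) (l 16874304)) (a (l 539968783) (l 540674063))))) (b (a (a (b (l 16950248) (l 6)) (b (l 17054608) (l 17026048))) (b (a (l 16828848) (l 16862184)) (a (l 16875320) (a (l 16998640) (l 16804112))))) (a (l 6) (b (a (l 17025520) (l 16875584)) (b (l 17212216) (l 17214552)))))) (b (a (b (l 3) (a (l 541267727) (a (l 539762959) (l 3)))) (l 3)) (b (a (a (b (l 540009487) (a (l 16821048) (l 16839928))) (a (l 539900687) (l 539821839))) (a (a (l 540571407) (a (l 539711759) (l 3))) (l 3))) (a (b (a (b (l 16881936) (l 16828696)) (a (b (l 16843408) (l 16866512)) (b (l 16905072) (l 16840032))))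 (a (c (l 17122496) (l 17113008)) (b (l 16885704) (l 17076776)))) (b (a (a (b (l 539856911) (b (l 16853656) (l 16904152))) (a (l 539832079) (l 539805199))) (a (a (l 540041231) (a (l 539754511) (l 3))) (l 3))) (a (a (b (a (l 16930128) (l 16831768)) (l 16949864)) (b (a (b (l 16811840) (l 16823512)) (b (l 16800600) (l 16809896))) (a (l 16929536) (l 14)))) (a (b (a (b (l 539848719) (l 14)) (l 14)) (l 14)) (l 14))))))))), by decide +kernel⟩

theorem t2_B00pm_102_s1 : ∃ t, chk3 f_B00pm_102_s1 t 1 1 1 = true := ex3_a k0_B00pm_102_s1 k1_B00pm_102_s1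

theorem c_B00pm_102_s1 : CertF 536870912 536870912 0 536870912 134217728 67108864 false true false .npp 1 0 2
    ndF0q1 ndF0q2 pcF0 cut_B00pm_102_s1 xt_B00pm_102_s1 :=
  certFK0 (fam := false) (s1 := true) (s2 := false) (a := 1) (b := 0) (c := 2) (cn := .npp) (n1 := ndF0q1) (n2 := ndF0q2) (pc := pcF0) (cut := cut_B00pm_102_s1) (xt := xt_B00pm_102_s1) (P1 := 536870912) (W1 := 536870912) (P2 := 0) (W2 := 536870912) (P3 := 134217728) (W3 := 67108864)
    rfl rfl rfl t2_B00pm_102_s1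

theorem s_B00pm_102_s1 {κ x : ℝ} (hκ : κ * h0 = ken x) (hx : ((134217728 : ℕ) : ℝ) / S ≤ x)
    (hx' : x ≤ (((134217728 : ℕ) : ℝ) + (67108864 : ℕ)) / S)
    (H : CutB (VF κ) PP tKF tL pcF (Cut.of [[⟨0, 1, 0, 53687091⟩, ⟨1, 0, 0, 53687091⟩, ⟨2, 1, 0, 53687091⟩]]) 1 0 2 0 0 (sgb true) (sgb false) x) :
    AltB (VF κ) PP tKF tL pcF [⟨3, 0, 0, 1449551462⟩] 1 0 2 0 0 (sgb true) (sgb false) x :=
  strip_altB (m := 1449551462) true rfl hκ covF01 covF02 hx hx' c_B00pm_102_s1 H ((okx hx hx').extB (T := tt) (sideF hx hx') hκ rfl rfl (.O 1 true) (.O 2 false) (Or.inl rfl))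

noncomputable def cut_B00pm_102_s3 : Cut := Cut.of [[⟨3, 0, 0, 2845415833⟩], [⟨0, 1, 0, 53687091⟩, ⟨1, 0, 0, 53687091⟩, ⟨2, 1, 0, 53687091⟩]]

noncomputable def f_B00pm_102_s3 : ℕ → ℕ → ℕ → ℕ → Bool := onCell 536870912 536870912 0 536870912 134217728 67108864
    (rowFK 0 false true false .npp 1 0 2 (qsf 536870912 536870912 0 536870912 0) ndF0q1 ndF0q2 pcF0 cut_B00pm_102_s3 Ext.none)

def k0_B00pm_102_s3 : ∃ t, chk3 f_B00pm_102_s3 t 1 1 1 = true :=
  ⟨(l 6), by decide +kernel⟩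

theorem c_B00pm_102_s3 : CertF 536870912 536870912 0 536870912 134217728 67108864 false true false .npp 1 0 2
    ndF0q1 ndF0q2 pcF0 cut_B00pm_102_s3 Ext.none :=
  certFK0 (fam := false) (s1 := true) (s2 := false) (a := 1) (b := 0) (c := 2) (cn := .npp) (n1 := ndF0q1) (n2 := ndF0q2) (pc := pcF0) (cut := cut_B00pm_102_s3) (xt := Ext.none) (P1 := 536870912) (W1 := 536870912) (P2 := 0) (W2 := 536870912) (P3 := 134217728) (W3 := 67108864)
    rfl rfl rfl k0_B00pm_102_s3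

theorem s_B00pm_102_s3 {κ x : ℝ} (hκ : κ * h0 = ken x) (hx : ((134217728 : ℕ) : ℝ) / S ≤ x)
    (hx' : x ≤ (((134217728 : ℕ) : ℝ) + (67108864 : ℕ)) / S)
    (H : CutB (VF κ) PP tKF tL pcF (Cut.of [[⟨0, 1, 0, 53687091⟩, ⟨1, 0, 0, 53687091⟩, ⟨2, 1, 0, 53687091⟩]]) 1 0 2 0 0 (sgb true) (sgb false) x) :
    AltB (VF κ) PP tKF tL pcF [⟨4, 0, 0, 2845415833⟩] 1 0 2 0 0 (sgb true) (sgb false) x :=
  strip_altB (m := 2845415833) false rfl hκ covF01 covF02 hx hx' c_B00pm_102_s3 H (noExt_B)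

noncomputable def cut_B00pm_112_s1 : Cut := Cut.of [[⟨4, 0, 0, 1449551462⟩]]

noncomputable def xt_B00pm_112_s1 : Ext := strExt dd false true false .u0 .u2 .u0m .dn 1 1 2 rfl rfl gf1 vv ndF0q1 ndF0q2

noncomputable def f_B00pm_112_s1 : ℕ → ℕ → ℕ → ℕ → Bool := onCell 536870912 536870912 0 536870912 134217728 67108864
    (rowFK 0 false true false .dn 1 1 2 (qsf 536870912 536870912 0 536870912 1) ndF0q1 ndF0q2 pcF1 cut_B00pm_112_s1 xt_B00pm_112_s1)

def k0_B00pm_112_s1 : ∃ t, chk3 f_B00pm_112_s1 t 1 1 1 = true :=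
  ⟨(a (b (a (b (a (b (l 543679247) (a (l 543110671) (l 543593487))) (b (l 544833295) (b (l 544525327) (l 545294351)))) (a (b (a (l 17176768) (l 17147632)) (l 6)) (b (a (l 544049935) (l 544801807)) (a (l 544497167) (b (l 17186296) (l 17264488)))))) (a (b (b (a (l 545981455) (l 1)) (a (b (l 545814287) (l 545797903)) (l 1))) (a (b (b (l 545733391) (l 545697807)) (b (l 545941007) (l 37615514103))) (l 1))) (l 1))) (a (b (l 6) (l 6)) (b (l 1) (l 1)))) (l 1)), by decide +kernel⟩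

theorem c_B00pm_112_s1 : CertF 536870912 536870912 0 536870912 134217728 67108864 false true false .dn 1 1 2
    ndF0q1 ndF0q2 pcF1 cut_B00pm_112_s1 xt_B00pm_112_s1 :=
  certFK0 (fam := false) (s1 := true) (s2 := false) (a := 1) (b := 1) (c := 2) (cn := .dn) (n1 := ndF0q1) (n2 := ndF0q2) (pc := pcF1) (cut := cut_B00pm_112_s1) (xt := xt_B00pm_112_s1) (P1 := 536870912) (W1 := 536870912) (P2 := 0) (W2 := 536870912) (P3 := 134217728) (W3 := 67108864)
    rfl rfl rfl k0_B00pm_112_s1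

theorem s_B00pm_112_s1 {κ x : ℝ} (hκ : κ * h0 = ken x) (hx : ((134217728 : ℕ) : ℝ) / S ≤ x)
    (hx' : x ≤ (((134217728 : ℕ) : ℝ) + (67108864 : ℕ)) / S) :
    AltB (VF κ) PP tKF tL pcF [⟨3, 0, 0, 1449551462⟩] 1 1 2 0 0 (sgb true) (sgb false) x :=
  strip_altB (m := 1449551462) true rfl hκ covF01 covF02 hx hx' c_B00pm_112_s1 cutB_nil ((okx hx hx').extB (T := tt) (sideF hx hx') hκ rfl rfl (.O 1 true) (.O 2 false) (Or.inr rfl))

noncomputable def cut_B00pm_112_s3 : Cut := Cut.of [[⟨3, 0, 0, 2845415833⟩]]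

noncomputable def f_B00pm_112_s3 : ℕ → ℕ → ℕ → ℕ → Bool := onCell 536870912 536870912 0 536870912 134217728 67108864
    (rowFK 0 false true false .dn 1 1 2 (qsf 536870912 536870912 0 536870912 1) ndF0q1 ndF0q2 pcF1 cut_B00pm_112_s3 Ext.none)

def k0_B00pm_112_s3 : ∃ t, chk3 f_B00pm_112_s3 t 1 1 1 = true :=
  ⟨(l 6), by decide +kernel⟩

theorem c_B00pm_112_s3 : CertF 536870912 536870912 0 536870912 134217728 67108864 false true false .dn 1 1 2
    ndF0q1 ndF0q2 pcF1 cut_B00pm_112_s3 Ext.none :=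
  certFK0 (fam := false) (s1 := true) (s2 := false) (a := 1) (b := 1) (c := 2) (cn := .dn) (n1 := ndF0q1) (n2 := ndF0q2) (pc := pcF1) (cut := cut_B00pm_112_s3) (xt := Ext.none) (P1 := 536870912) (W1 := 536870912) (P2 := 0) (W2 := 536870912) (P3 := 134217728) (W3 := 67108864)
    rfl rfl rfl k0_B00pm_112_s3

theorem s_B00pm_112_s3 {κ x : ℝ} (hκ : κ * h0 = ken x) (hx : ((134217728 : ℕ) : ℝ) / S ≤ x)
    (hx' : x ≤ (((134217728 : ℕ) : ℝ) + (67108864 : ℕ)) / S) :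
    AltB (VF κ) PP tKF tL pcF [⟨4, 0, 0, 2845415833⟩] 1 1 2 0 0 (sgb true) (sgb false) x :=
  strip_altB (m := 2845415833) false rfl hκ covF01 covF02 hx hx' c_B00pm_112_s3 cutB_nil (noExt_B)

noncomputable def cut_B00pm_202_s1 : Cut := Cut.of [[⟨4, 0, 0, 1449551462⟩], [⟨0, 1, 0, 67108864⟩, ⟨1, 0, 0, 67108864⟩, ⟨2, 1, 0, 67108864⟩]]

noncomputable def f_B00pm_202_s1 : ℕ → ℕ → ℕ → ℕ → Bool := onCell 0 536870912 0 536870912 134217728 67108864
    (rowFK 0 false true false .pp 2 0 2 (qsf 0 536870912 0 536870912 0) ndF0q2 ndF0q2 pcF0 cut_B00pm_202_s1 Ext.none)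

def k0_B00pm_202_s1 : ∃ t, chk3 f_B00pm_202_s1 t 1 1 1 = true :=
  ⟨(a (l 3) (b (l 3) (a (l 3) (a (l 3) (b (l 3) (b (l 3) (l 14))))))), by decide +kernel⟩

theorem c_B00pm_202_s1 : CertF 0 536870912 0 536870912 134217728 67108864 false true false .pp 2 0 2
    ndF0q2 ndF0q2 pcF0 cut_B00pm_202_s1 Ext.none :=
  certFK0 (fam := false) (s1 := true) (s2 := false) (a := 2) (b := 0) (c := 2) (cn := .pp) (n1 := ndF0q2) (n2 := ndF0q2) (pc := pcF0) (cut := cut_B00pm_202_s1) (xt := Ext.none) (P1 := 0) (W1 := 536870912) (P2 := 0) (W2 := 536870912) (P3 := 134217728) (W3 := 67108864)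
    rfl rfl rfl k0_B00pm_202_s1

theorem s_B00pm_202_s1 {κ x : ℝ} (hκ : κ * h0 = ken x) (hx : ((134217728 : ℕ) : ℝ) / S ≤ x)
    (hx' : x ≤ (((134217728 : ℕ) : ℝ) + (67108864 : ℕ)) / S)
    (H : CutB (VF κ) PP tKF tL pcF (Cut.of [[⟨0, 1, 0, 67108864⟩, ⟨1, 0, 0, 67108864⟩, ⟨2, 1, 0, 67108864⟩]]) 2 0 2 0 0 (sgb true) (sgb false) x) :
    AltB (VF κ) PP tKF tL pcF [⟨3, 0, 0, 1449551462⟩] 2 0 2 0 0 (sgb true) (sgb false) x :=
  strip_altB (m := 1449551462) true rfl hκ covF02 covF02 hx hx' c_B00pm_202_s1 H (noExt_B)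

noncomputable def cut_B00pm_202_s3 : Cut := Cut.of [[⟨3, 0, 0, 2845415833⟩], [⟨0, 1, 0, 67108864⟩, ⟨1, 0, 0, 67108864⟩, ⟨2, 1, 0, 67108864⟩]]

noncomputable def f_B00pm_202_s3 : ℕ → ℕ → ℕ → ℕ → Bool := onCell 0 536870912 0 536870912 134217728 67108864
    (rowFK 0 false true false .pp 2 0 2 (qsf 0 536870912 0 536870912 0) ndF0q2 ndF0q2 pcF0 cut_B00pm_202_s3 Ext.none)

def k0_B00pm_202_s3 : ∃ t, chk3 f_B00pm_202_s3 t 1 1 1 = true :=
  ⟨(l 6), by decide +kernel⟩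

theorem c_B00pm_202_s3 : CertF 0 536870912 0 536870912 134217728 67108864 false true false .pp 2 0 2
    ndF0q2 ndF0q2 pcF0 cut_B00pm_202_s3 Ext.none :=
  certFK0 (fam := false) (s1 := true) (s2 := false) (a := 2) (b := 0) (c := 2) (cn := .pp) (n1 := ndF0q2) (n2 := ndF0q2) (pc := pcF0) (cut := cut_B00pm_202_s3) (xt := Ext.none) (P1 := 0) (W1 := 536870912) (P2 := 0) (W2 := 536870912) (P3 := 134217728) (W3 := 67108864)
    rfl rfl rfl k0_B00pm_202_s3

theorem s_B00pm_202_s3 {κ x : ℝ} (hκ : κ * h0 = ken x) (hx : ((134217728 : ℕ) : ℝ) / S ≤ x)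
    (hx' : x ≤ (((134217728 : ℕ) : ℝ) + (67108864 : ℕ)) / S)
    (H : CutB (VF κ) PP tKF tL pcF (Cut.of [[⟨0, 1, 0, 67108864⟩, ⟨1, 0, 0, 67108864⟩, ⟨2, 1, 0, 67108864⟩]]) 2 0 2 0 0 (sgb true) (sgb false) x) :
    AltB (VF κ) PP tKF tL pcF [⟨4, 0, 0, 2845415833⟩] 2 0 2 0 0 (sgb true) (sgb false) x :=
  strip_altB (m := 2845415833) false rfl hκ covF02 covF02 hx hx' c_B00pm_202_s3 H (noExt_B)

noncomputable def cut_B00mm_001_s1 : Cut := Cut.of [[⟨4, 0, 0, 1449551462⟩]]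

noncomputable def f_B00mm_001_s1 : ℕ → ℕ → ℕ → ℕ → Bool := onCell 0 536870912 0 536870912 134217728 67108864
    (rowFK 1 false false false .up 0 0 1 (qsf 0 536870912 536870912 536870912 0) ndF0q0 ndF0q1 pcF0 cut_B00mm_001_s1 Ext.none)

def k0_B00mm_001_s1 : ∃ t, chk3 f_B00mm_001_s1 t 1 1 1 = true :=
  ⟨(l 3), by decide +kernel⟩

theorem c_B00mm_001_s1 : CertF 0 536870912 536870912 536870912 134217728 67108864 false false false .up 0 0 1
    ndF0q0 ndF0q1 pcF0 cut_B00mm_001_s1 Ext.none :=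
  certFK1 (fam := false) (s1 := false) (s2 := false) (a := 0) (b := 0) (c := 1) (cn := .up) (n1 := ndF0q0) (n2 := ndF0q1) (pc := pcF0) (cut := cut_B00mm_001_s1) (xt := Ext.none) (P1 := 0) (W1 := 536870912) (P2 := 536870912) (W2 := 536870912) (P3 := 134217728) (W3 := 67108864)
    rfl rfl rfl (fun _ => rfl) k0_B00mm_001_s1

theorem s_B00mm_001_s1 {κ x : ℝ} (hκ : κ * h0 = ken x) (hx : ((134217728 : ℕ) : ℝ) / S ≤ x)
    (hx' : x ≤ (((134217728 : ℕ) : ℝ) + (67108864 : ℕ)) / S) :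
    AltB (VF κ) PP tKF tL pcF [⟨3, 0, 0, 1449551462⟩] 0 0 1 0 0 (sgb false) (sgb false) x :=
  strip_altB (m := 1449551462) true rfl hκ covF00 covF01 hx hx' c_B00mm_001_s1 cutB_nil (noExt_B)

noncomputable def cut_B00mm_001_s3 : Cut := Cut.of [[⟨3, 0, 0, 2845415833⟩]]

noncomputable def f_B00mm_001_s3 : ℕ → ℕ → ℕ → ℕ → Bool := onCell 0 536870912 536870912 536870912 134217728 67108864
    (rowFK 0 false false false .up 0 0 1 (qsf 0 536870912 536870912 536870912 0) ndF0q0 ndF0q1 pcF0 cut_B00mm_001_s3 Ext.none)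

def k0_B00mm_001_s3 : ∃ t, chk3 f_B00mm_001_s3 t 1 1 1 = true :=
  ⟨(l 6), by decide +kernel⟩

theorem c_B00mm_001_s3 : CertF 0 536870912 536870912 536870912 134217728 67108864 false false false .up 0 0 1
    ndF0q0 ndF0q1 pcF0 cut_B00mm_001_s3 Ext.none :=
  certFK0 (fam := false) (s1 := false) (s2 := false) (a := 0) (b := 0) (c := 1) (cn := .up) (n1 := ndF0q0) (n2 := ndF0q1) (pc := pcF0) (cut := cut_B00mm_001_s3) (xt := Ext.none) (P1 := 0) (W1 := 536870912) (P2 := 536870912) (W2 := 536870912) (P3 := 134217728) (W3 := 67108864)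
    rfl rfl rfl k0_B00mm_001_s3

theorem s_B00mm_001_s3 {κ x : ℝ} (hκ : κ * h0 = ken x) (hx : ((134217728 : ℕ) : ℝ) / S ≤ x)
    (hx' : x ≤ (((134217728 : ℕ) : ℝ) + (67108864 : ℕ)) / S) :
    AltB (VF κ) PP tKF tL pcF [⟨4, 0, 0, 2845415833⟩] 0 0 1 0 0 (sgb false) (sgb false) x :=
  strip_altB (m := 2845415833) false rfl hκ covF00 covF01 hx hx' c_B00mm_001_s3 cutB_nil (noExt_B)

noncomputable def cut_B00mm_011_s1 : Cut := Cut.of [[⟨4, 0, 0, 1449551462⟩]]

noncomputable def f_B00mm_011_s1 : ℕ → ℕ → ℕ → ℕ → Bool := onCell 0 536870912 536870912 536870912 134217728 67108864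
    (rowFK 1 false false false .pnn 0 1 1 (qsf 0 536870912 536870912 536870912 1) ndF0q0 ndF0q1 pcF1 cut_B00mm_011_s1 Ext.none)

def k0_B00mm_011_s1 : ∃ t, chk3 f_B00mm_011_s1 t 1 1 1 = true :=
  ⟨(l 5), by decide +kernel⟩

theorem c_B00mm_011_s1 : CertF 0 536870912 536870912 536870912 134217728 67108864 false false false .pnn 0 1 1
    ndF0q0 ndF0q1 pcF1 cut_B00mm_011_s1 Ext.none :=
  certFK1 (fam := false) (s1 := false) (s2 := false) (a := 0) (b := 1) (c := 1) (cn := .pnn) (n1 := ndF0q0) (n2 := ndF0q1) (pc := pcF1) (cut := cut_B00mm_011_s1) (xt := Ext.none) (P1 := 0) (W1 := 536870912) (P2 := 536870912) (W2 := 536870912) (P3 := 134217728) (W3 := 67108864)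
    rfl rfl rfl (fun _ => rfl) k0_B00mm_011_s1

theorem s_B00mm_011_s1 {κ x : ℝ} (hκ : κ * h0 = ken x) (hx : ((134217728 : ℕ) : ℝ) / S ≤ x)
    (hx' : x ≤ (((134217728 : ℕ) : ℝ) + (67108864 : ℕ)) / S) :
    AltB (VF κ) PP tKF tL pcF [⟨3, 0, 0, 1449551462⟩] 0 1 1 0 0 (sgb false) (sgb false) x :=
  strip_altB (m := 1449551462) true rfl hκ covF00 covF01 hx hx' c_B00mm_011_s1 cutB_nil (noExt_B)

noncomputable def cut_B00mm_011_s3 : Cut := Cut.of [[⟨3, 0, 0, 2845415833⟩]]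

noncomputable def f_B00mm_011_s3 : ℕ → ℕ → ℕ → ℕ → Bool := onCell 0 536870912 536870912 536870912 134217728 67108864
    (rowFK 0 false false false .pnn 0 1 1 (qsf 0 536870912 536870912 536870912 1) ndF0q0 ndF0q1 pcF1 cut_B00mm_011_s3 Ext.none)

def k0_B00mm_011_s3 : ∃ t, chk3 f_B00mm_011_s3 t 1 1 1 = true :=
  ⟨(l 6), by decide +kernel⟩

theorem c_B00mm_011_s3 : CertF 0 536870912 536870912 536870912 134217728 67108864 false false false .pnn 0 1 1
    ndF0q0 ndF0q1 pcF1 cut_B00mm_011_s3 Ext.none :=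
  certFK0 (fam := false) (s1 := false) (s2 := false) (a := 0) (b := 1) (c := 1) (cn := .pnn) (n1 := ndF0q0) (n2 := ndF0q1) (pc := pcF1) (cut := cut_B00mm_011_s3) (xt := Ext.none) (P1 := 0) (W1 := 536870912) (P2 := 536870912) (W2 := 536870912) (P3 := 134217728) (W3 := 67108864)
    rfl rfl rfl k0_B00mm_011_s3

theorem s_B00mm_011_s3 {κ x : ℝ} (hκ : κ * h0 = ken x) (hx : ((134217728 : ℕ) : ℝ) / S ≤ x)
    (hx' : x ≤ (((134217728 : ℕ) : ℝ) + (67108864 : ℕ)) / S) :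
    AltB (VF κ) PP tKF tL pcF [⟨4, 0, 0, 2845415833⟩] 0 1 1 0 0 (sgb false) (sgb false) x :=
  strip_altB (m := 2845415833) false rfl hκ covF00 covF01 hx hx' c_B00mm_011_s3 cutB_nil (noExt_B)

noncomputable def cut_B00mm_012_s1 : Cut := Cut.of [[⟨4, 0, 0, 1449551462⟩]]

noncomputable def f_B00mm_012_s1 : ℕ → ℕ → ℕ → ℕ → Bool := onCell 0 536870912 0 536870912 134217728 67108864
    (rowFK 0 false false false .pnp 0 1 2 (qsf 0 536870912 0 536870912 1) ndF0q0 ndF0q2 pcF1 cut_B00mm_012_s1 Ext.none)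

def k0_B00mm_012_s1 : ∃ t, chk3 f_B00mm_012_s1 t 1 1 1 = true :=
  ⟨(l 5), by decide +kernel⟩

theorem c_B00mm_012_s1 : CertF 0 536870912 0 536870912 134217728 67108864 false false false .pnp 0 1 2
    ndF0q0 ndF0q2 pcF1 cut_B00mm_012_s1 Ext.none :=
  certFK0 (fam := false) (s1 := false) (s2 := false) (a := 0) (b := 1) (c := 2) (cn := .pnp) (n1 := ndF0q0) (n2 := ndF0q2) (pc := pcF1) (cut := cut_B00mm_012_s1) (xt := Ext.none) (P1 := 0) (W1 := 536870912) (P2 := 0) (W2 := 536870912) (P3 := 134217728) (W3 := 67108864)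
    rfl rfl rfl k0_B00mm_012_s1

theorem s_B00mm_012_s1 {κ x : ℝ} (hκ : κ * h0 = ken x) (hx : ((134217728 : ℕ) : ℝ) / S ≤ x)
    (hx' : x ≤ (((134217728 : ℕ) : ℝ) + (67108864 : ℕ)) / S) :
    AltB (VF κ) PP tKF tL pcF [⟨3, 0, 0, 1449551462⟩] 0 1 2 0 0 (sgb false) (sgb false) x :=
  strip_altB (m := 1449551462) true rfl hκ covF00 covF02 hx hx' c_B00mm_012_s1 cutB_nil (noExt_B)

noncomputable def cut_B00mm_012_s3 : Cut := Cut.of [[⟨3, 0, 0, 2845415833⟩]]

noncomputable def f_B00mm_012_s3 : ℕ → ℕ → ℕ → ℕ → Bool := onCell 0 536870912 0 536870912 134217728 67108864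
    (rowFK 0 false false false .pnp 0 1 2 (qsf 0 536870912 0 536870912 1) ndF0q0 ndF0q2 pcF1 cut_B00mm_012_s3 Ext.none)

def k0_B00mm_012_s3 : ∃ t, chk3 f_B00mm_012_s3 t 1 1 1 = true :=
  ⟨(l 5), by decide +kernel⟩

theorem c_B00mm_012_s3 : CertF 0 536870912 0 536870912 134217728 67108864 false false false .pnp 0 1 2
    ndF0q0 ndF0q2 pcF1 cut_B00mm_012_s3 Ext.none :=
  certFK0 (fam := false) (s1 := false) (s2 := false) (a := 0) (b := 1) (c := 2) (cn := .pnp) (n1 := ndF0q0) (n2 := ndF0q2) (pc := pcF1) (cut := cut_B00mm_012_s3) (xt := Ext.none) (P1 := 0) (W1 := 536870912) (P2 := 0) (W2 := 536870912) (P3 := 134217728) (W3 := 67108864)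
    rfl rfl rfl k0_B00mm_012_s3

theorem s_B00mm_012_s3 {κ x : ℝ} (hκ : κ * h0 = ken x) (hx : ((134217728 : ℕ) : ℝ) / S ≤ x)
    (hx' : x ≤ (((134217728 : ℕ) : ℝ) + (67108864 : ℕ)) / S) :
    AltB (VF κ) PP tKF tL pcF [⟨4, 0, 0, 2845415833⟩] 0 1 2 0 0 (sgb false) (sgb false) x :=
  strip_altB (m := 2845415833) false rfl hκ covF00 covF02 hx hx' c_B00mm_012_s3 cutB_nil (noExt_B)

noncomputable def cut_B00mm_022_s1 : Cut := Cut.of [[⟨4, 0, 0, 1449551462⟩]]

noncomputable def f_B00mm_022_s1 : ℕ → ℕ → ℕ → ℕ → Bool := onCell 0 536870912 0 536870912 134217728 67108864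
    (rowFK 0 false false false .pp 0 2 2 (qsf 0 536870912 0 536870912 2) ndF0q0 ndF0q2 pcF2 cut_B00mm_022_s1 Ext.none)

def k0_B00mm_022_s1 : ∃ t, chk3 f_B00mm_022_s1 t 1 1 1 = true :=
  ⟨(l 5), by decide +kernel⟩

theorem c_B00mm_022_s1 : CertF 0 536870912 0 536870912 134217728 67108864 false false false .pp 0 2 2
    ndF0q0 ndF0q2 pcF2 cut_B00mm_022_s1 Ext.none :=
  certFK0 (fam := false) (s1 := false) (s2 := false) (a := 0) (b := 2) (c := 2) (cn := .pp) (n1 := ndF0q0) (n2 := ndF0q2) (pc := pcF2) (cut := cut_B00mm_022_s1) (xt := Ext.none) (P1 := 0) (W1 := 536870912) (P2 := 0) (W2 := 536870912) (P3 := 134217728) (W3 := 67108864)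
    rfl rfl rfl k0_B00mm_022_s1

theorem s_B00mm_022_s1 {κ x : ℝ} (hκ : κ * h0 = ken x) (hx : ((134217728 : ℕ) : ℝ) / S ≤ x)
    (hx' : x ≤ (((134217728 : ℕ) : ℝ) + (67108864 : ℕ)) / S) :
    AltB (VF κ) PP tKF tL pcF [⟨3, 0, 0, 1449551462⟩] 0 2 2 0 0 (sgb false) (sgb false) x :=
  strip_altB (m := 1449551462) true rfl hκ covF00 covF02 hx hx' c_B00mm_022_s1 cutB_nil (noExt_B)

noncomputable def cut_B00mm_022_s3 : Cut := Cut.of [[⟨3, 0, 0, 2845415833⟩]]

noncomputable def f_B00mm_022_s3 : ℕ → ℕ → ℕ → ℕ → Bool := onCell 0 536870912 0 536870912 134217728 67108864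
    (rowFK 0 false false false .pp 0 2 2 (qsf 0 536870912 0 536870912 2) ndF0q0 ndF0q2 pcF2 cut_B00mm_022_s3 Ext.none)

def k0_B00mm_022_s3 : ∃ t, chk3 f_B00mm_022_s3 t 1 1 1 = true :=
  ⟨(l 5), by decide +kernel⟩

theorem c_B00mm_022_s3 : CertF 0 536870912 0 536870912 134217728 67108864 false false false .pp 0 2 2
    ndF0q0 ndF0q2 pcF2 cut_B00mm_022_s3 Ext.none :=
  certFK0 (fam := false) (s1 := false) (s2 := false) (a := 0) (b := 2) (c := 2) (cn := .pp) (n1 := ndF0q0) (n2 := ndF0q2) (pc := pcF2) (cut := cut_B00mm_022_s3) (xt := Ext.none) (P1 := 0) (W1 := 536870912) (P2 := 0) (W2 := 536870912) (P3 := 134217728) (W3 := 67108864)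
    rfl rfl rfl k0_B00mm_022_s3

theorem s_B00mm_022_s3 {κ x : ℝ} (hκ : κ * h0 = ken x) (hx : ((134217728 : ℕ) : ℝ) / S ≤ x)
    (hx' : x ≤ (((134217728 : ℕ) : ℝ) + (67108864 : ℕ)) / S) :
    AltB (VF κ) PP tKF tL pcF [⟨4, 0, 0, 2845415833⟩] 0 2 2 0 0 (sgb false) (sgb false) x :=
  strip_altB (m := 2845415833) false rfl hκ covF00 covF02 hx hx' c_B00mm_022_s3 cutB_nil (noExt_B)

noncomputable def cut_B00mm_101_s1 : Cut := Cut.of [[⟨4, 0, 0, 1449551462⟩]]

noncomputable def f_B00mm_101_s1 : ℕ → ℕ → ℕ → ℕ → Bool := onCell 536870912 536870912 536870912 536870912 134217728 67108864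
    (rowFK 0 false false false .npn 1 0 1 (qsf 536870912 536870912 536870912 536870912 0) ndF0q1 ndF0q1 pcF0 cut_B00mm_101_s1 Ext.none)

def k0_B00mm_101_s1 : ∃ t, chk3 f_B00mm_101_s1 t 1 1 1 = true :=
  ⟨(l 3), by decide +kernel⟩

theorem c_B00mm_101_s1 : CertF 536870912 536870912 536870912 536870912 134217728 67108864 false false false .npn 1 0 1
    ndF0q1 ndF0q1 pcF0 cut_B00mm_101_s1 Ext.none :=
  certFK0 (fam := false) (s1 := false) (s2 := false) (a := 1) (b := 0) (c := 1) (cn := .npn) (n1 := ndF0q1) (n2 := ndF0q1) (pc := pcF0) (cut := cut_B00mm_101_s1) (xt := Ext.none) (P1 := 536870912) (W1 := 536870912) (P2 := 536870912) (W2 := 536870912) (P3 := 134217728) (W3 := 67108864)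
    rfl rfl rfl k0_B00mm_101_s1

theorem s_B00mm_101_s1 {κ x : ℝ} (hκ : κ * h0 = ken x) (hx : ((134217728 : ℕ) : ℝ) / S ≤ x)
    (hx' : x ≤ (((134217728 : ℕ) : ℝ) + (67108864 : ℕ)) / S) :
    AltB (VF κ) PP tKF tL pcF [⟨3, 0, 0, 1449551462⟩] 1 0 1 0 0 (sgb false) (sgb false) x :=
  strip_altB (m := 1449551462) true rfl hκ covF01 covF01 hx hx' c_B00mm_101_s1 cutB_nil (noExt_B)

noncomputable def cut_B00mm_101_s3 : Cut := Cut.of [[⟨3, 0, 0, 2845415833⟩]]

noncomputable def f_B00mm_101_s3 : ℕ → ℕ → ℕ → ℕ → Bool := onCell 536870912 536870912 536870912 536870912 134217728 67108864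
    (rowFK 0 false false false .npn 1 0 1 (qsf 536870912 536870912 536870912 536870912 0) ndF0q1 ndF0q1 pcF0 cut_B00mm_101_s3 Ext.none)

def k0_B00mm_101_s3 : ∃ t, chk3 f_B00mm_101_s3 t 1 1 1 = true :=
  ⟨(l 3), by decide +kernel⟩

theorem c_B00mm_101_s3 : CertF 536870912 536870912 536870912 536870912 134217728 67108864 false false false .npn 1 0 1
    ndF0q1 ndF0q1 pcF0 cut_B00mm_101_s3 Ext.none :=
  certFK0 (fam := false) (s1 := false) (s2 := false) (a := 1) (b := 0) (c := 1) (cn := .npn) (n1 := ndF0q1) (n2 := ndF0q1) (pc := pcF0) (cut := cut_B00mm_101_s3) (xt := Ext.none) (P1 := 536870912) (W1 := 536870912) (P2 := 536870912) (W2 := 536870912) (P3 := 134217728) (W3 := 67108864)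
    rfl rfl rfl k0_B00mm_101_s3

theorem s_B00mm_101_s3 {κ x : ℝ} (hκ : κ * h0 = ken x) (hx : ((134217728 : ℕ) : ℝ) / S ≤ x)
    (hx' : x ≤ (((134217728 : ℕ) : ℝ) + (67108864 : ℕ)) / S) :
    AltB (VF κ) PP tKF tL pcF [⟨4, 0, 0, 2845415833⟩] 1 0 1 0 0 (sgb false) (sgb false) x :=
  strip_altB (m := 2845415833) false rfl hκ covF01 covF01 hx hx' c_B00mm_101_s3 cutB_nil (noExt_B)

noncomputable def cut_B00mm_102_s1 : Cut := Cut.of [[⟨4, 0, 0, 1449551462⟩]]

noncomputable def f_B00mm_102_s1 : ℕ → ℕ → ℕ → ℕ → Bool := onCell 536870912 536870912 0 536870912 134217728 67108864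
    (rowFK 0 false false false .npp 1 0 2 (qsf 536870912 536870912 0 536870912 0) ndF0q1 ndF0q2 pcF0 cut_B00mm_102_s1 Ext.none)

def k0_B00mm_102_s1 : ∃ t, chk3 f_B00mm_102_s1 t 1 1 1 = true :=
  ⟨(a (l 5) (l 3)), by decide +kernel⟩

theorem c_B00mm_102_s1 : CertF 536870912 536870912 0 536870912 134217728 67108864 false false false .npp 1 0 2
    ndF0q1 ndF0q2 pcF0 cut_B00mm_102_s1 Ext.none :=
  certFK0 (fam := false) (s1 := false) (s2 := false) (a := 1) (b := 0) (c := 2) (cn := .npp) (n1 := ndF0q1) (n2 := ndF0q2) (pc := pcF0) (cut := cut_B00mm_102_s1) (xt := Ext.none) (P1 := 536870912) (W1 := 536870912) (P2 := 0) (W2 := 536870912) (P3 := 134217728) (W3 := 67108864)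
    rfl rfl rfl k0_B00mm_102_s1

theorem s_B00mm_102_s1 {κ x : ℝ} (hκ : κ * h0 = ken x) (hx : ((134217728 : ℕ) : ℝ) / S ≤ x)
    (hx' : x ≤ (((134217728 : ℕ) : ℝ) + (67108864 : ℕ)) / S) :
    AltB (VF κ) PP tKF tL pcF [⟨3, 0, 0, 1449551462⟩] 1 0 2 0 0 (sgb false) (sgb false) x :=
  strip_altB (m := 1449551462) true rfl hκ covF01 covF02 hx hx' c_B00mm_102_s1 cutB_nil (noExt_B)

noncomputable def cut_B00mm_102_s3 : Cut := Cut.of [[⟨3, 0, 0, 2845415833⟩]]

noncomputable def f_B00mm_102_s3 : ℕ → ℕ → ℕ → ℕ → Bool := onCell 536870912 536870912 0 536870912 134217728 67108864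
    (rowFK 0 false false false .npp 1 0 2 (qsf 536870912 536870912 0 536870912 0) ndF0q1 ndF0q2 pcF0 cut_B00mm_102_s3 Ext.none)

def k0_B00mm_102_s3 : ∃ t, chk3 f_B00mm_102_s3 t 1 1 1 = true :=
  ⟨(l 6), by decide +kernel⟩

theorem c_B00mm_102_s3 : CertF 536870912 536870912 0 536870912 134217728 67108864 false false false .npp 1 0 2
    ndF0q1 ndF0q2 pcF0 cut_B00mm_102_s3 Ext.none :=
  certFK0 (fam := false) (s1 := false) (s2 := false) (a := 1) (b := 0) (c := 2) (cn := .npp) (n1 := ndF0q1) (n2 := ndF0q2) (pc := pcF0) (cut := cut_B00mm_102_s3) (xt := Ext.none) (P1 := 536870912) (W1 := 536870912) (P2 := 0) (W2 := 536870912) (P3 := 134217728) (W3 := 67108864)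
    rfl rfl rfl k0_B00mm_102_s3

theorem s_B00mm_102_s3 {κ x : ℝ} (hκ : κ * h0 = ken x) (hx : ((134217728 : ℕ) : ℝ) / S ≤ x)
    (hx' : x ≤ (((134217728 : ℕ) : ℝ) + (67108864 : ℕ)) / S) :
    AltB (VF κ) PP tKF tL pcF [⟨4, 0, 0, 2845415833⟩] 1 0 2 0 0 (sgb false) (sgb false) x :=
  strip_altB (m := 2845415833) false rfl hκ covF01 covF02 hx hx' c_B00mm_102_s3 cutB_nil (noExt_B)

noncomputable def cut_B00mm_112_s1 : Cut := Cut.of [[⟨4, 0, 0, 1449551462⟩]]

noncomputable def f_B00mm_112_s1 : ℕ → ℕ → ℕ → ℕ → Bool := onCell 536870912 536870912 0 536870912 134217728 67108864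
    (rowFK 2 false false false .dn 1 1 2 (qsf 536870912 536870912 0 536870912 1) ndF0q1 ndF0q2 pcF1 cut_B00mm_112_s1 Ext.none)

def k0_B00mm_112_s1 : ∃ t, chk3 f_B00mm_112_s1 t 1 1 1 = true :=
  ⟨(l 5), by decide +kernel⟩

theorem c_B00mm_112_s1 : CertF 536870912 536870912 0 536870912 134217728 67108864 false false false .dn 1 1 2
    ndF0q1 ndF0q2 pcF1 cut_B00mm_112_s1 Ext.none :=
  certFK2 (fam := false) (s1 := false) (s2 := false) (a := 1) (b := 1) (c := 2) (cn := .dn) (n1 := ndF0q1) (n2 := ndF0q2) (pc := pcF1) (cut := cut_B00mm_112_s1) (xt := Ext.none) (P1 := 536870912) (W1 := 536870912) (P2 := 0) (W2 := 536870912) (P3 := 134217728) (W3 := 67108864)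
    rfl rfl rfl (fun _ => rfl) k0_B00mm_112_s1

theorem s_B00mm_112_s1 {κ x : ℝ} (hκ : κ * h0 = ken x) (hx : ((134217728 : ℕ) : ℝ) / S ≤ x)
    (hx' : x ≤ (((134217728 : ℕ) : ℝ) + (67108864 : ℕ)) / S) :
    AltB (VF κ) PP tKF tL pcF [⟨3, 0, 0, 1449551462⟩] 1 1 2 0 0 (sgb false) (sgb false) x :=
  strip_altB (m := 1449551462) true rfl hκ covF01 covF02 hx hx' c_B00mm_112_s1 cutB_nil (noExt_B)

noncomputable def cut_B00mm_112_s3 : Cut := Cut.of [[⟨3, 0, 0, 2845415833⟩]]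

noncomputable def f_B00mm_112_s3 : ℕ → ℕ → ℕ → ℕ → Bool := onCell 536870912 536870912 0 536870912 134217728 67108864
    (rowFK 0 false false false .dn 1 1 2 (qsf 536870912 536870912 0 536870912 1) ndF0q1 ndF0q2 pcF1 cut_B00mm_112_s3 Ext.none)

def k0_B00mm_112_s3 : ∃ t, chk3 f_B00mm_112_s3 t 1 1 1 = true :=
  ⟨(l 6), by decide +kernel⟩

theorem c_B00mm_112_s3 : CertF 536870912 536870912 0 536870912 134217728 67108864 false false false .dn 1 1 2
    ndF0q1 ndF0q2 pcF1 cut_B00mm_112_s3 Ext.none :=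
  certFK0 (fam := false) (s1 := false) (s2 := false) (a := 1) (b := 1) (c := 2) (cn := .dn) (n1 := ndF0q1) (n2 := ndF0q2) (pc := pcF1) (cut := cut_B00mm_112_s3) (xt := Ext.none) (P1 := 536870912) (W1 := 536870912) (P2 := 0) (W2 := 536870912) (P3 := 134217728) (W3 := 67108864)
    rfl rfl rfl k0_B00mm_112_s3

theorem s_B00mm_112_s3 {κ x : ℝ} (hκ : κ * h0 = ken x) (hx : ((134217728 : ℕ) : ℝ) / S ≤ x)
    (hx' : x ≤ (((134217728 : ℕ) : ℝ) + (67108864 : ℕ)) / S) :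
    AltB (VF κ) PP tKF tL pcF [⟨4, 0, 0, 2845415833⟩] 1 1 2 0 0 (sgb false) (sgb false) x :=
  strip_altB (m := 2845415833) false rfl hκ covF01 covF02 hx hx' c_B00mm_112_s3 cutB_nil (noExt_B)

noncomputable def cut_B00mm_202_s1 : Cut := Cut.of [[⟨4, 0, 0, 1449551462⟩]]

noncomputable def f_B00mm_202_s1 : ℕ → ℕ → ℕ → ℕ → Bool := onCell 0 536870912 0 536870912 134217728 67108864
    (rowFK 0 false false false .pp 2 0 2 (qsf 0 536870912 0 536870912 0) ndF0q2 ndF0q2 pcF0 cut_B00mm_202_s1 Ext.none)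

def k0_B00mm_202_s1 : ∃ t, chk3 f_B00mm_202_s1 t 1 1 1 = true :=
  ⟨(l 3), by decide +kernel⟩

theorem c_B00mm_202_s1 : CertF 0 536870912 0 536870912 134217728 67108864 false false false .pp 2 0 2
    ndF0q2 ndF0q2 pcF0 cut_B00mm_202_s1 Ext.none :=
  certFK0 (fam := false) (s1 := false) (s2 := false) (a := 2) (b := 0) (c := 2) (cn := .pp) (n1 := ndF0q2) (n2 := ndF0q2) (pc := pcF0) (cut := cut_B00mm_202_s1) (xt := Ext.none) (P1 := 0) (W1 := 536870912) (P2 := 0) (W2 := 536870912) (P3 := 134217728) (W3 := 67108864)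
    rfl rfl rfl k0_B00mm_202_s1

theorem s_B00mm_202_s1 {κ x : ℝ} (hκ : κ * h0 = ken x) (hx : ((134217728 : ℕ) : ℝ) / S ≤ x)
    (hx' : x ≤ (((134217728 : ℕ) : ℝ) + (67108864 : ℕ)) / S) :
    AltB (VF κ) PP tKF tL pcF [⟨3, 0, 0, 1449551462⟩] 2 0 2 0 0 (sgb false) (sgb false) x :=
  strip_altB (m := 1449551462) true rfl hκ covF02 covF02 hx hx' c_B00mm_202_s1 cutB_nil (noExt_B)

noncomputable def cut_B00mm_202_s3 : Cut := Cut.of [[⟨3, 0, 0, 2845415833⟩]]

noncomputable def f_B00mm_202_s3 : ℕ → ℕ → ℕ → ℕ → Bool := onCell 0 536870912 0 536870912 134217728 67108864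
    (rowFK 0 false false false .pp 2 0 2 (qsf 0 536870912 0 536870912 0) ndF0q2 ndF0q2 pcF0 cut_B00mm_202_s3 Ext.none)

def k0_B00mm_202_s3 : ∃ t, chk3 f_B00mm_202_s3 t 1 1 1 = true :=
  ⟨(l 3), by decide +kernel⟩

theorem c_B00mm_202_s3 : CertF 0 536870912 0 536870912 134217728 67108864 false false false .pp 2 0 2
    ndF0q2 ndF0q2 pcF0 cut_B00mm_202_s3 Ext.none :=
  certFK0 (fam := false) (s1 := false) (s2 := false) (a := 2) (b := 0) (c := 2) (cn := .pp) (n1 := ndF0q2) (n2 := ndF0q2) (pc := pcF0) (cut := cut_B00mm_202_s3) (xt := Ext.none) (P1 := 0) (W1 := 536870912) (P2 := 0) (W2 := 536870912) (P3 := 134217728) (W3 := 67108864)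
    rfl rfl rfl k0_B00mm_202_s3

theorem s_B00mm_202_s3 {κ x : ℝ} (hκ : κ * h0 = ken x) (hx : ((134217728 : ℕ) : ℝ) / S ≤ x)
    (hx' : x ≤ (((134217728 : ℕ) : ℝ) + (67108864 : ℕ)) / S) :
    AltB (VF κ) PP tKF tL pcF [⟨4, 0, 0, 2845415833⟩] 2 0 2 0 0 (sgb false) (sgb false) x :=
  strip_altB (m := 2845415833) false rfl hκ covF02 covF02 hx hx' c_B00mm_202_s3 cutB_nil (noExt_B)

noncomputable def cut_B05pp_001_s1 : Cut := Cut.of [[⟨4, 0, 0, 1449551462⟩]]

noncomputable def f_B05pp_001_s1 : ℕ → ℕ → ℕ → ℕ → Bool := onCell 0 536870912 0 536870912 134217728 67108864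
    (rowFK 1 false true true .up 0 0 1 (qsf 0 536870912 536870912 536870912 0) ndF0q0 ndF5q1 pcF0 cut_B05pp_001_s1 Ext.none)

def k0_B05pp_001_s1 : ∃ t, chk3 f_B05pp_001_s1 t 1 1 1 = true :=
  ⟨(l 3), by decide +kernel⟩

theorem c_B05pp_001_s1 : CertF 0 536870912 536870912 536870912 134217728 67108864 false true true .up 0 0 1
    ndF0q0 ndF5q1 pcF0 cut_B05pp_001_s1 Ext.none :=
  certFK1 (fam := false) (s1 := true) (s2 := true) (a := 0) (b := 0) (c := 1) (cn := .up) (n1 := ndF0q0) (n2 := ndF5q1) (pc := pcF0) (cut := cut_B05pp_001_s1) (xt := Ext.none) (P1 := 0) (W1 := 536870912) (P2 := 536870912) (W2 := 536870912) (P3 := 134217728) (W3 := 67108864)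
    rfl rfl rfl (fun _ => rfl) k0_B05pp_001_s1

theorem s_B05pp_001_s1 {κ x : ℝ} (hκ : κ * h0 = ken x) (hx : ((134217728 : ℕ) : ℝ) / S ≤ x)
    (hx' : x ≤ (((134217728 : ℕ) : ℝ) + (67108864 : ℕ)) / S) :
    AltB (VF κ) PP tKF tL pcF [⟨3, 0, 0, 1449551462⟩] 0 0 1 0 5 (sgb true) (sgb true) x :=
  strip_altB (m := 1449551462) true rfl hκ covF00 covF51 hx hx' c_B05pp_001_s1 cutB_nil (noExt_B)

noncomputable def cut_B05pp_011_s1 : Cut := Cut.of [[⟨4, 0, 0, 1449551462⟩], [⟨0, 0, 0, 67108864⟩, ⟨1, 1, 0, 67108864⟩, ⟨2, 1, 0, 67108864⟩]]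

noncomputable def f_B05pp_011_s1 : ℕ → ℕ → ℕ → ℕ → Bool := onCell 0 536870912 536870912 536870912 134217728 67108864
    (rowFK 1 false true true .pnn 0 1 1 (qsf 0 536870912 536870912 536870912 1) ndF0q0 ndF5q1 pcF1 cut_B05pp_011_s1 Ext.none)

def k0_B05pp_011_s1 : ∃ t, chk3 f_B05pp_011_s1 t 1 1 1 = true :=
  ⟨(b (l 3) (a (b (l 3) (a (b (l 3) (a (b (l 3) (a (l 14) (l 3))) (l 3))) (l 3))) (l 3))), by decide +kernel⟩

theorem c_B05pp_011_s1 : CertF 0 536870912 536870912 536870912 134217728 67108864 false true true .pnn 0 1 1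
    ndF0q0 ndF5q1 pcF1 cut_B05pp_011_s1 Ext.none :=
  certFK1 (fam := false) (s1 := true) (s2 := true) (a := 0) (b := 1) (c := 1) (cn := .pnn) (n1 := ndF0q0) (n2 := ndF5q1) (pc := pcF1) (cut := cut_B05pp_011_s1) (xt := Ext.none) (P1 := 0) (W1 := 536870912) (P2 := 536870912) (W2 := 536870912) (P3 := 134217728) (W3 := 67108864)
    rfl rfl rfl (fun _ => rfl) k0_B05pp_011_s1

theorem s_B05pp_011_s1 {κ x : ℝ} (hκ : κ * h0 = ken x) (hx : ((134217728 : ℕ) : ℝ) / S ≤ x)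
    (hx' : x ≤ (((134217728 : ℕ) : ℝ) + (67108864 : ℕ)) / S)
    (H : CutB (VF κ) PP tKF tL pcF (Cut.of [[⟨0, 0, 0, 67108864⟩, ⟨1, 1, 0, 67108864⟩, ⟨2, 1, 0, 67108864⟩]]) 0 1 1 0 5 (sgb true) (sgb true) x) :
    AltB (VF κ) PP tKF tL pcF [⟨3, 0, 0, 1449551462⟩] 0 1 1 0 5 (sgb true) (sgb true) x :=
  strip_altB (m := 1449551462) true rfl hκ covF00 covF51 hx hx' c_B05pp_011_s1 H (noExt_B)

noncomputable def cut_B05pp_012_s1 : Cut := Cut.of [[⟨4, 0, 0, 1449551462⟩], [⟨0, 0, 0, 67108864⟩, ⟨1, 1, 0, 67108864⟩, ⟨2, 1, 0, 67108864⟩]]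

noncomputable def f_B05pp_012_s1 : ℕ → ℕ → ℕ → ℕ → Bool := onCell 0 536870912 536870912 536870912 134217728 67108864
    (rowFK 1 false true true .pnp 0 1 2 (qsf 0 536870912 1073741824 536870912 1) ndF0q0 ndF5q2 pcF1 cut_B05pp_012_s1 Ext.none)

def k0_B05pp_012_s1 : ∃ t, chk3 f_B05pp_012_s1 t 1 1 1 = true :=
  ⟨(b (l 3) (a (b (l 3) (a (a (a (b (l 1) (b (l 3) (l 14))) (l 3)) (l 3)) (l 3))) (l 3))), by decide +kernel⟩

theorem c_B05pp_012_s1 : CertF 0 536870912 1073741824 536870912 134217728 67108864 false true true .pnp 0 1 2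
    ndF0q0 ndF5q2 pcF1 cut_B05pp_012_s1 Ext.none :=
  certFK1 (fam := false) (s1 := true) (s2 := true) (a := 0) (b := 1) (c := 2) (cn := .pnp) (n1 := ndF0q0) (n2 := ndF5q2) (pc := pcF1) (cut := cut_B05pp_012_s1) (xt := Ext.none) (P1 := 0) (W1 := 536870912) (P2 := 1073741824) (W2 := 536870912) (P3 := 134217728) (W3 := 67108864)
    rfl rfl rfl (fun _ => rfl) k0_B05pp_012_s1

theorem s_B05pp_012_s1 {κ x : ℝ} (hκ : κ * h0 = ken x) (hx : ((134217728 : ℕ) : ℝ) / S ≤ x)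
    (hx' : x ≤ (((134217728 : ℕ) : ℝ) + (67108864 : ℕ)) / S)
    (H : CutB (VF κ) PP tKF tL pcF (Cut.of [[⟨0, 0, 0, 67108864⟩, ⟨1, 1, 0, 67108864⟩, ⟨2, 1, 0, 67108864⟩]]) 0 1 2 0 5 (sgb true) (sgb true) x) :
    AltB (VF κ) PP tKF tL pcF [⟨3, 0, 0, 1449551462⟩] 0 1 2 0 5 (sgb true) (sgb true) x :=
  strip_altB (m := 1449551462) true rfl hκ covF00 covF52 hx hx' c_B05pp_012_s1 H (noExt_B)

noncomputable def cut_B05pp_022_s1 : Cut := Cut.of [[⟨4, 0, 0, 1449551462⟩], [⟨0, 0, 0, 67108864⟩, ⟨1, 1, 0, 67108864⟩, ⟨2, 1, 0, 67108864⟩]]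

noncomputable def xt_B05pp_022_s1 : Ext := strExt dd false true true .u0 .s2 .u2 .pp 0 2 2 rfl rfl gf2 vv ndF0q0 ndF5q2

noncomputable def f_B05pp_022_s1 : ℕ → ℕ → ℕ → ℕ → Bool := onCell 0 536870912 1073741824 536870912 134217728 67108864
    (rowFK 1 false true true .pp 0 2 2 (qsf 0 536870912 1073741824 536870912 2) ndF0q0 ndF5q2 pcF2 cut_B05pp_022_s1 xt_B05pp_022_s1)

def k0_B05pp_022_s1 : ∃ t, chk3 f_B05pp_022_s1 t 8 8 1 = true :=
  ⟨(b (a (b (l 14) (a (l 14) (a (l 14) (a (l 14) (a (l 14) (b (l 14) (l 527878015))))))) (a (a (b (l 14) (a (b (l 14) (a (l 527633023) (l 527388031))) (b (a (l 14) (l 527554943)) (a (l 527143039) (l 526897791))))) (b (l 3) (a (b (b (l 527342463) (l 527134591)) (b (l 527190655) (l 527246719))) (b (c (l 528238207) (l 527813759)) (l 528310399))))) (b (l 3) (a (b (a (l 528207487) (l 3)) (a (l 527821695) (l 527332735))) (b (l 3) (a (l 527111807) (l 527427711))))))) (a (a (b (a (l 14)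 (b (l 14) (a (l 14) (l 16724352)))) (a (b (a (l 14) (l 16693200)) (l 16688320)) (b (a (l 16696888) (l 16700536)) (l 16695840)))) (a (b (b (b (l 14) (a (l 14) (l 16730760))) (a (l 16727864) (l 16731368))) (b (c (l 16717096) (l 16715680)) (l 16703184))) (b (b (a (b (l 16751296) (l 16734176)) (b (l 16754704) (l 16737592))) (b (l 16739656) (l 16733224))) (b (b (l 16726816) (l 16709680)) (l 16710352))))) (b (a (a (a (b (b (l 16758064) (l 16761944)) (l 16741584)) (b (a (l 526770559) (l 526794623)) (l 16744936))) (a (b (b (l 527329407) (l 16768560)) (l 16748240)) (b (l 527940991) (l 528099199)))) (a (b (a (l 527453823) (l 527234431)) (a (l 527612799) (l 527394431))) (b (a (l 527283583) (l 527063935)) (a (l 527175807) (l 527225471))))) (a (b (b (a (l 16743920) (l 16750664)) (a (l 16716456) (l 16723248))) (a (l 16717480) (l 16723888))) (a (b (a (l 16752312) (l 16755512)) (l 16741120)) (b (a (l 16758672) (l 16761784)) (l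 16747480))))))), by decide +kernel⟩

def k1_B05pp_022_s1 : ∃ t, chk3 f_B05pp_022_s1 t 9 8 1 = true :=
  ⟨(a (b (b (l 3) (a (a (b (l 3) (b (l 3) (l 527810431))) (l 3)) (l 3))) (a (b (a (b (l 528730127) (a (l 527274623) (l 527332223))) (b (l 528024191) (l 528994943))) (a (b (l 528472447) (l 528576639)) (b (l 528032639) (l 527865727)))) (b (a (b (l 528921727) (a (l 527466879) (l 527513471))) (b (l 3) (l 527585663))) (a (b (l 527591551) (l 527697279)) (l 529061391))))) (b (l 3) (b (a (b (l 3) (a (l 527699583) (l 3))) (l 3)) (a (a (l 528895359) (l 528473983)) (b (l 533833855) (l 539263615)))))), by decide +kernel⟩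

def k2_B05pp_022_s1 : ∃ t, chk3 f_B05pp_022_s1 t 4 9 1 = true :=
  ⟨(a (b (a (a (a (b (a (l 16676624) (l 16701528)) (l 16651752)) (b (l 16686320) (l 16659768))) (a (b (l 16693912) (l 16688576)) (b (l 16701320) (l 16696232)))) (b (a (b (a (l 16694096) (l 16743096)) (l 16705784)) (a (b (l 16749448) (l 16695424)) (b (l 16756040) (l 16701712)))) (a (b (l 16692968) (l 16659096)) (b (l 16728392) (l 16673616))))) (a (a (b (a (l 16604000) (l 16612168)) (l 16602216)) (b (l 16645008) (l 16681416))) (a (b (b (l 16646120) (l 16633128)) (l 16613296)) (b (l 16675304) (l 16801528))))) (b (b (a (a (a (b (l 16762272) (l 16708192)) (b (l 16768360) (l 16714336))) (a (b (l 16774320) (l 16720368)) (b (l 16780144) (l 16747368)))) (a (b (l 534372479) (l 539683199)) (b (l 543690367) (l 547307135)))) (a (b (a (l 16740928) (l 16762224)) (a (l 16698128) (l 16805960))) (a (b (l 16822520) (l 16860504)) (b (l 16762888) (l 16882344))))) (a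 (b (a (l 16697064) (b (l 16854920) (l 16907248))) (a (l 16922904) (l 16989072))) (b (c (b (l 16988832) (l 17038088)) (a (l 16837576) (l 16875112))) (a (l 17020040) (l 17028760)))))), by decide +kernel⟩

def k3_B05pp_022_s1 : ∃ t, chk3 f_B05pp_022_s1 t 4 5 1 = true :=
  ⟨(b (b (b (a (a (a (l 16554072) (l 16570536)) (a (l 16813032) (l 16966328))) (a (a (l 17054136) (l 17099776)) (b (l 17096384) (l 17143256)))) (a (a (a (l 16576456) (l 16598024)) (a (b (l 16963248) (l 17055688)) (l 16952304))) (a (b (l 17168864) (l 17225784)) (b (l 17189880) (l 17236504))))) (a (a (a (l 16641928) (l 16991472)) (a (l 17267360) (l 17327120))) (a (l 17192232) (l 17345088)))) (a (b (a (a (l 17423528) (l 17504720)) (l 17555240)) (a (l 17753776) (l 17754384))) (b (a (l 17548152) (l 17499896)) (l 17669080)))), by decide +kernel⟩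

def k4_B05pp_022_s1 : ∃ t, chk3 f_B05pp_022_s1 t 5 2 1 = true :=
  ⟨(b (b (a (b (l 3) (a (b (l 3) (a (b (l 3) (l 547042687)) (l 3))) (l 3))) (l 3)) (b (b (a (a (a (b (l 550068095) (l 552537727)) (b (l 554452863) (l 556123007))) (a (b (l 557457791) (l 558573695)) (l 559891583))) (l 3)) (a (a (a (b (l 554552703) (l 16883984)) (l 558076799)) (c (l 566112895) (l 555016319))) (a (l 562020223) (a (l 562309759) (l 3))))) (a (b (a (b (a (l 16921736) (l 16910456)) (l 16872456)) (b (l 561216383) (l 561493375))) (a (a (l 17023184) (l 17008816)) (a (l 16988992) (l 16966016)))) (b (a (c (l 566038287) (b (l 558108031) (l 558319743))) (a (b (l 562191743) (l 562042239)) (l 561994111))) (a (b (l 562027903) (l 16947784)) (b (l 561781119) (l 561533055))))))) (b (b (b (a (a (l 17098856) (l 17054784)) (a (c (l 17032240) (l 16975768)) (a (l 16965712) (l 16940912)))) (b (a (a (l 17160664) (l 17111680)) (a (l 17058408) (l 17006360)))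 (b (a (l 17167808) (l 17058456)) (a (l 17188648) (b (l 17072064) (l 17081832)))))) (a (a (l 17298568) (l 17240144)) (a (l 17179200) (l 17120368)))) (a (b (l 17400248) (l 17512688)) (b (l 17265808) (l 17368808))))), by decide +kernel⟩

def k5_B05pp_022_s1 : ∃ t, chk3 f_B05pp_022_s1 t 2 3 1 = true :=
  ⟨(b (a (a (b (a (l 18044064) (l 17972456)) (l 6)) (b (b (l 17784784) (l 17877128)) (l 17981672))) (a (b (l 17652568) (l 17786280)) (b (l 17499064) (l 17627984)))) (l 6)), by decide +kernel⟩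

def k6_B05pp_022_s1 : ∃ t, chk3 f_B05pp_022_s1 t 3 1 1 = true :=
  ⟨(b (b (b (l 3) (a (b (l 3) (b (a (a (l 561637503) (l 3)) (l 3)) (a (a (l 561154175) (l 560414079)) (a (l 559585151) (l 3))))) (l 3))) (a (b (b (b (a (b (l 560258943) (a (l 16923240) (l 559404159))) (b (l 558596223) (l 558232191))) (a (a (b (l 16958120) (b (l 16982984) (b (l 16994840) (l 17003016)))) (b (l 16914496) (b (l 16939056) (b (l 16950608) (l 16958136))))) (a (b (l 558059391) (b (l 16900064) (b (l 16911320) (l 16918600)))) (b (b (l 557329279) (l 29628667543)) (b (l 16866160) (b (l 16877144) (l 16884184))))))) (a (a (l 17067592) (l 17020664)) (a (l 16895312) (a (l 16951368) (l 2))))) (a (b (l 17153392) (l 17250640)) (a (l 17132288) (l 2)))) (b (b (a (b (b (l 556929151) (l 2)) (l 2)) (l 2)) (l 2)) (l 2)))) (a (b (b (a (l 17374280) (l 2)) (l 2)) (l 2)) (l 2))), by decide +kernel⟩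

theorem t7_B05pp_022_s1 : ∃ t, chk3 f_B05pp_022_s1 t 4 8 1 = true := ex3_a k0_B05pp_022_s1 k1_B05pp_022_s1

theorem t8_B05pp_022_s1 : ∃ t, chk3 f_B05pp_022_s1 t 4 4 1 = true := ex3_b t7_B05pp_022_s1 k2_B05pp_022_s1

theorem t9_B05pp_022_s1 : ∃ t, chk3 f_B05pp_022_s1 t 4 2 1 = true := ex3_b t8_B05pp_022_s1 k3_B05pp_022_s1

theorem t10_B05pp_022_s1 : ∃ t, chk3 f_B05pp_022_s1 t 2 2 1 = true := ex3_a t9_B05pp_022_s1 k4_B05pp_022_s1

theorem t11_B05pp_022_s1 : ∃ t, chk3 f_B05pp_022_s1 t 2 1 1 = true := ex3_b t10_B05pp_022_s1 k5_B05pp_022_s1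

theorem t12_B05pp_022_s1 : ∃ t, chk3 f_B05pp_022_s1 t 1 1 1 = true := ex3_a t11_B05pp_022_s1 k6_B05pp_022_s1

theorem c_B05pp_022_s1 : CertF 0 536870912 1073741824 536870912 134217728 67108864 false true true .pp 0 2 2
    ndF0q0 ndF5q2 pcF2 cut_B05pp_022_s1 xt_B05pp_022_s1 :=
  certFK1 (fam := false) (s1 := true) (s2 := true) (a := 0) (b := 2) (c := 2) (cn := .pp) (n1 := ndF0q0) (n2 := ndF5q2) (pc := pcF2) (cut := cut_B05pp_022_s1) (xt := xt_B05pp_022_s1) (P1 := 0) (W1 := 536870912) (P2 := 1073741824) (W2 := 536870912) (P3 := 134217728) (W3 := 67108864)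
    rfl rfl rfl (fun _ => rfl) t12_B05pp_022_s1

theorem s_B05pp_022_s1 {κ x : ℝ} (hκ : κ * h0 = ken x) (hx : ((134217728 : ℕ) : ℝ) / S ≤ x)
    (hx' : x ≤ (((134217728 : ℕ) : ℝ) + (67108864 : ℕ)) / S)
    (H : CutB (VF κ) PP tKF tL pcF (Cut.of [[⟨0, 0, 0, 67108864⟩, ⟨1, 1, 0, 67108864⟩, ⟨2, 1, 0, 67108864⟩]]) 0 2 2 0 5 (sgb true) (sgb true) x) :
    AltB (VF κ) PP tKF tL pcF [⟨3, 0, 0, 1449551462⟩] 0 2 2 0 5 (sgb true) (sgb true) x :=
  strip_altB (m := 1449551462) true rfl hκ covF00 covF52 hx hx' c_B05pp_022_s1 H ((okx hx hx').extB (T := tt) (sideF hx hx') hκ rfl rfl (.O 0 true) (.N 2 true) rfl)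

noncomputable def cut_B05pp_023_s1 : Cut := Cut.of [[⟨4, 0, 0, 1449551462⟩]]

noncomputable def xt_B05pp_023_s1 : Ext := strExt dd false true true .u0 .s2 .u2 .up 0 2 3 rfl rfl gf2 vv ndF0q0 ndF5q3

noncomputable def f_B05pp_023_s1 : ℕ → ℕ → ℕ → ℕ → Bool := onCell 1073741824 536870912 0 1230186008 134217728 67108864
    (rowFK 2 false true true .up 0 2 3 (qsf 0 536870912 0 1230186008 2) ndF0q0 ndF5q3 pcF2 cut_B05pp_023_s1 xt_B05pp_023_s1)

def k0_B05pp_023_s1 : ∃ t, chk3 f_B05pp_023_s1 t 1 2 1 = true :=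
  ⟨(a (l 2) (a (l 2) (l 6))), by decide +kernel⟩

def k1_B05pp_023_s1 : ∃ t, chk3 f_B05pp_023_s1 t 1 6 1 = true :=
  ⟨(a (a (l 2) (a (l 2) (b (l 2) (l 450536534295)))) (a (b (l 418324856119) (a (l 17197320) (l 17275848))) (l 6))), by decide +kernel⟩

def k2_B05pp_023_s1 : ∃ t, chk3 f_B05pp_023_s1 t 1 7 1 = true :=
  ⟨(a (a (b (l 2) (l 3)) (a (b (a (b (l 2) (a (l 3) (a (l 3) (b (l 2) (a (a (l 551431039) (l 550693247)) (b (a (a (l 549276799) (l 16795760)) (l 16790224)) (a (a (l 550530687) (l 16790232)) (l 16795400)))))))) (b (l 457515075511) (b (a (a (l 246524427111) (l 16825720)) (l 16864088)) (a (a (a (l 16802992) (l 16816560)) (l 16837032)) (l 16878280))))) (a (b (a (l 3) (b (a (a (l 3) (b (l 553302655) (l 553708415))) (a (a (b (l 552744319) (l 553454207)) (b (l 552110719) (l 552870271))) (b (a (a (l 16793008) (l 16796576)) (l 16801944)) (a (a (l 16800528) (l 16804224)) (l 16809800))))) (a (a (l 554843519) (l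 554534783)) (a (a (l 554207359) (b (l 16803528) (l 16813752))) (a (a (b (l 16809432) (l 16819856)) (l 16860448)) (l 16824376)))))) (a (b (a (l 3) (l 556150399)) (a (l 557400703) (l 557142655))) (b (a (a (l 555913599) (l 555607423)) (a (b (l 554970895) (l 16834512)) (a (a (l 16838632) (l 16842816)) (l 16849112)))) (a (a (l 556857727) (b (l 16830336) (l 16847088))) (a (b (l 16849744) (l 16866912)) (a (l 16945400) (l 16880944))))))) (a (b (b (a (a (l 16858632) (l 16831504)) (l 16853568)) (b (l 16853824) (l 16865792))) (b (a (l 16870208) (l 16903960)) (l 16837536))) (b (a (l 16979008) (l 16925792)) (b (l 16954728) (l 16993840)))))) (b (a (b (l 16838632) (l 17119128)) (b (l 17017264) (l 17060440))) (b (a (a (l 16972008) (l 17033496)) (l 17126008)) (b (a (l 17056256) (l 17191624)) (l 17090656)))))) (a (b (a (b (l 17161984) (l 17223616)) (l 17480600)) (a (b (l 17308872) (l 17424976)) (b (l 17545472) (l 17692664)))) (l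 6))), by decide +kernel⟩

theorem t3_B05pp_023_s1 : ∃ t, chk3 f_B05pp_023_s1 t 1 3 1 = true := ex3_b k1_B05pp_023_s1 k2_B05pp_023_s1

theorem t4_B05pp_023_s1 : ∃ t, chk3 f_B05pp_023_s1 t 1 1 1 = true := ex3_b k0_B05pp_023_s1 t3_B05pp_023_s1

theorem c_B05pp_023_s1 : CertF 0 536870912 0 1230186008 134217728 67108864 false true true .up 0 2 3
    ndF0q0 ndF5q3 pcF2 cut_B05pp_023_s1 xt_B05pp_023_s1 :=
  certFK2 (fam := false) (s1 := true) (s2 := true) (a := 0) (b := 2) (c := 3) (cn := .up) (n1 := ndF0q0) (n2 := ndF5q3) (pc := pcF2) (cut := cut_B05pp_023_s1) (xt := xt_B05pp_023_s1) (P1 := 0) (W1 := 536870912) (P2 := 0) (W2 := 1230186008) (P3 := 134217728) (W3 := 67108864)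
    rfl rfl rfl (fun _ => rfl) t4_B05pp_023_s1

theorem s_B05pp_023_s1 {κ x : ℝ} (hκ : κ * h0 = ken x) (hx : ((134217728 : ℕ) : ℝ) / S ≤ x)
    (hx' : x ≤ (((134217728 : ℕ) : ℝ) + (67108864 : ℕ)) / S) :
    AltB (VF κ) PP tKF tL pcF [⟨3, 0, 0, 1449551462⟩] 0 2 3 0 5 (sgb true) (sgb true) x :=
  strip_altB (m := 1449551462) true rfl hκ covF00 covF53 hx hx' c_B05pp_023_s1 cutB_nil ((okx hx hx').extB (T := tt) (sideF hx hx') hκ rfl rfl (.O 0 true) (.N 3 true) rfl)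

noncomputable def cut_B05pp_033_s1 : Cut := Cut.of [[⟨4, 0, 0, 1449551462⟩]]

noncomputable def f_B05pp_033_s1 : ℕ → ℕ → ℕ → ℕ → Bool := onCell 1610612736 536870912 0 1230186008 134217728 67108864
    (rowFK 2 false true true .pnn 0 3 3 (qsf 0 536870912 0 1230186008 3) ndF0q0 ndF5q3 pcF3 cut_B05pp_033_s1 Ext.none)

def k0_B05pp_033_s1 : ∃ t, chk3 f_B05pp_033_s1 t 1 1 1 = true :=
  ⟨(b (l 6) (l 6)), by decide +kernel⟩

theorem c_B05pp_033_s1 : CertF 0 536870912 0 1230186008 134217728 67108864 false true true .pnn 0 3 3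
    ndF0q0 ndF5q3 pcF3 cut_B05pp_033_s1 Ext.none :=
  certFK2 (fam := false) (s1 := true) (s2 := true) (a := 0) (b := 3) (c := 3) (cn := .pnn) (n1 := ndF0q0) (n2 := ndF5q3) (pc := pcF3) (cut := cut_B05pp_033_s1) (xt := Ext.none) (P1 := 0) (W1 := 536870912) (P2 := 0) (W2 := 1230186008) (P3 := 134217728) (W3 := 67108864)
    rfl rfl rfl (fun _ => rfl) k0_B05pp_033_s1

theorem s_B05pp_033_s1 {κ x : ℝ} (hκ : κ * h0 = ken x) (hx : ((134217728 : ℕ) : ℝ) / S ≤ x)
    (hx' : x ≤ (((134217728 : ℕ) : ℝ) + (67108864 : ℕ)) / S) :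
    AltB (VF κ) PP tKF tL pcF [⟨3, 0, 0, 1449551462⟩] 0 3 3 0 5 (sgb true) (sgb true) x :=
  strip_altB (m := 1449551462) true rfl hκ covF00 covF53 hx hx' c_B05pp_033_s1 cutB_nil (noExt_B)

noncomputable def cut_B05pp_101_s1 : Cut := Cut.of [[⟨4, 0, 0, 1449551462⟩]]

noncomputable def f_B05pp_101_s1 : ℕ → ℕ → ℕ → ℕ → Bool := onCell 536870912 536870912 536870912 536870912 134217728 67108864
    (rowFK 0 false true true .npn 1 0 1 (qsf 536870912 536870912 536870912 536870912 0) ndF0q1 ndF5q1 pcF0 cut_B05pp_101_s1 Ext.none)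

def k0_B05pp_101_s1 : ∃ t, chk3 f_B05pp_101_s1 t 1 1 1 = true :=
  ⟨(a (l 3) (l 5)), by decide +kernel⟩

theorem c_B05pp_101_s1 : CertF 536870912 536870912 536870912 536870912 134217728 67108864 false true true .npn 1 0 1
    ndF0q1 ndF5q1 pcF0 cut_B05pp_101_s1 Ext.none :=
  certFK0 (fam := false) (s1 := true) (s2 := true) (a := 1) (b := 0) (c := 1) (cn := .npn) (n1 := ndF0q1) (n2 := ndF5q1) (pc := pcF0) (cut := cut_B05pp_101_s1) (xt := Ext.none) (P1 := 536870912) (W1 := 536870912) (P2 := 536870912) (W2 := 536870912) (P3 := 134217728) (W3 := 67108864)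
    rfl rfl rfl k0_B05pp_101_s1

theorem s_B05pp_101_s1 {κ x : ℝ} (hκ : κ * h0 = ken x) (hx : ((134217728 : ℕ) : ℝ) / S ≤ x)
    (hx' : x ≤ (((134217728 : ℕ) : ℝ) + (67108864 : ℕ)) / S) :
    AltB (VF κ) PP tKF tL pcF [⟨3, 0, 0, 1449551462⟩] 1 0 1 0 5 (sgb true) (sgb true) x :=
  strip_altB (m := 1449551462) true rfl hκ covF01 covF51 hx hx' c_B05pp_101_s1 cutB_nil (noExt_B)

noncomputable def cut_B05pp_102_s1 : Cut := Cut.of [[⟨4, 0, 0, 1449551462⟩]]

noncomputable def f_B05pp_102_s1 : ℕ → ℕ → ℕ → ℕ → Bool := onCell 536870912 536870912 1073741824 536870912 134217728 67108864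
    (rowFK 0 false true true .npp 1 0 2 (qsf 536870912 536870912 1073741824 536870912 0) ndF0q1 ndF5q2 pcF0 cut_B05pp_102_s1 Ext.none)

def k0_B05pp_102_s1 : ∃ t, chk3 f_B05pp_102_s1 t 1 1 1 = true :=
  ⟨(a (l 3) (b (l 5) (l 3))), by decide +kernel⟩

theorem c_B05pp_102_s1 : CertF 536870912 536870912 1073741824 536870912 134217728 67108864 false true true .npp 1 0 2
    ndF0q1 ndF5q2 pcF0 cut_B05pp_102_s1 Ext.none :=
  certFK0 (fam := false) (s1 := true) (s2 := true) (a := 1) (b := 0) (c := 2) (cn := .npp) (n1 := ndF0q1) (n2 := ndF5q2) (pc := pcF0) (cut := cut_B05pp_102_s1) (xt := Ext.none) (P1 := 536870912) (W1 := 536870912) (P2 := 1073741824) (W2 := 536870912) (P3 := 134217728) (W3 := 67108864)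
    rfl rfl rfl k0_B05pp_102_s1

theorem s_B05pp_102_s1 {κ x : ℝ} (hκ : κ * h0 = ken x) (hx : ((134217728 : ℕ) : ℝ) / S ≤ x)
    (hx' : x ≤ (((134217728 : ℕ) : ℝ) + (67108864 : ℕ)) / S) :
    AltB (VF κ) PP tKF tL pcF [⟨3, 0, 0, 1449551462⟩] 1 0 2 0 5 (sgb true) (sgb true) x :=
  strip_altB (m := 1449551462) true rfl hκ covF01 covF52 hx hx' c_B05pp_102_s1 cutB_nil (noExt_B)

noncomputable def cut_B05pp_112_s1 : Cut := Cut.of [[⟨4, 0, 0, 1449551462⟩]]

noncomputable def f_B05pp_112_s1 : ℕ → ℕ → ℕ → ℕ → Bool := onCell 536870912 536870912 1073741824 536870912 134217728 67108864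
    (rowFK 0 false true true .dn 1 1 2 (qsf 536870912 536870912 1073741824 536870912 1) ndF0q1 ndF5q2 pcF1 cut_B05pp_112_s1 Ext.none)

def k0_B05pp_112_s1 : ∃ t, chk3 f_B05pp_112_s1 t 1 1 1 = true :=
  ⟨(a (l 3) (b (l 5) (l 3))), by decide +kernel⟩

theorem c_B05pp_112_s1 : CertF 536870912 536870912 1073741824 536870912 134217728 67108864 false true true .dn 1 1 2
    ndF0q1 ndF5q2 pcF1 cut_B05pp_112_s1 Ext.none :=
  certFK0 (fam := false) (s1 := true) (s2 := true) (a := 1) (b := 1) (c := 2) (cn := .dn) (n1 := ndF0q1) (n2 := ndF5q2) (pc := pcF1) (cut := cut_B05pp_112_s1) (xt := Ext.none) (P1 := 536870912) (W1 := 536870912) (P2 := 1073741824) (W2 := 536870912) (P3 := 134217728) (W3 := 67108864)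
    rfl rfl rfl k0_B05pp_112_s1

theorem s_B05pp_112_s1 {κ x : ℝ} (hκ : κ * h0 = ken x) (hx : ((134217728 : ℕ) : ℝ) / S ≤ x)
    (hx' : x ≤ (((134217728 : ℕ) : ℝ) + (67108864 : ℕ)) / S) :
    AltB (VF κ) PP tKF tL pcF [⟨3, 0, 0, 1449551462⟩] 1 1 2 0 5 (sgb true) (sgb true) x :=
  strip_altB (m := 1449551462) true rfl hκ covF01 covF52 hx hx' c_B05pp_112_s1 cutB_nil (noExt_B)

noncomputable def cut_B05pp_113_s1 : Cut := Cut.of [[⟨4, 0, 0, 1449551462⟩], [⟨0, 1, 0, 39843005⟩, ⟨1, 1, 0, 39843005⟩, ⟨2, 2, 0, 5814905⟩]]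

noncomputable def f_B05pp_113_s1 : ℕ → ℕ → ℕ → ℕ → Bool := onCell 536870912 536870912 0 1230186008 134217728 67108864
    (rowFK 2 false true true .nn 1 1 3 (qsf 536870912 536870912 0 1230186008 1) ndF0q1 ndF5q3 pcF1 cut_B05pp_113_s1 Ext.none)

def k0_B05pp_113_s1 : ∃ t, chk3 f_B05pp_113_s1 t 1 1 1 = true :=
  ⟨(b (a (l 2) (a (l 2) (b (a (l 2) (a (l 2) (b (b (l 14) (l 3)) (l 3)))) (l 3)))) (a (b (a (l 2) (b (l 2) (a (l 2) (l 3)))) (a (b (l 2) (l 3)) (l 3))) (b (a (l 3) (l 3)) (l 3)))), by decide +kernel⟩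

theorem c_B05pp_113_s1 : CertF 536870912 536870912 0 1230186008 134217728 67108864 false true true .nn 1 1 3
    ndF0q1 ndF5q3 pcF1 cut_B05pp_113_s1 Ext.none :=
  certFK2 (fam := false) (s1 := true) (s2 := true) (a := 1) (b := 1) (c := 3) (cn := .nn) (n1 := ndF0q1) (n2 := ndF5q3) (pc := pcF1) (cut := cut_B05pp_113_s1) (xt := Ext.none) (P1 := 536870912) (W1 := 536870912) (P2 := 0) (W2 := 1230186008) (P3 := 134217728) (W3 := 67108864)
    rfl rfl rfl (fun _ => rfl) k0_B05pp_113_s1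

theorem s_B05pp_113_s1 {κ x : ℝ} (hκ : κ * h0 = ken x) (hx : ((134217728 : ℕ) : ℝ) / S ≤ x)
    (hx' : x ≤ (((134217728 : ℕ) : ℝ) + (67108864 : ℕ)) / S)
    (H : CutB (VF κ) PP tKF tL pcF (Cut.of [[⟨0, 1, 0, 39843005⟩, ⟨1, 1, 0, 39843005⟩, ⟨2, 2, 0, 5814905⟩]]) 1 1 3 0 5 (sgb true) (sgb true) x) :
    AltB (VF κ) PP tKF tL pcF [⟨3, 0, 0, 1449551462⟩] 1 1 3 0 5 (sgb true) (sgb true) x :=
  strip_altB (m := 1449551462) true rfl hκ covF01 covF53 hx hx' c_B05pp_113_s1 H (noExt_B)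

noncomputable def cut_B05pp_123_s1 : Cut := Cut.of [[⟨4, 0, 0, 1449551462⟩], [⟨0, 1, 0, 39843005⟩, ⟨1, 1, 0, 39843005⟩, ⟨2, 2, 0, 5814905⟩]]

noncomputable def xt_B05pp_123_s1 : Ext := strExt dd false true true .u0 .s2 .u2 .npn 1 2 3 rfl rfl gf2 vv ndF0q1 ndF5q3

noncomputable def f_B05pp_123_s1 : ℕ → ℕ → ℕ → ℕ → Bool := onCell 1073741824 536870912 0 1230186008 134217728 67108864
    (rowFK 2 false true true .npn 1 2 3 (qsf 536870912 536870912 0 1230186008 2) ndF0q1 ndF5q3 pcF2 cut_B05pp_123_s1 xt_B05pp_123_s1)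

def k0_B05pp_123_s1 : ∃ t, chk3 f_B05pp_123_s1 t 1 2 1 = true :=
  ⟨(b (a (b (a (a (a (b (l 14) (b (l 14) (l 3))) (b (a (l 16895128) (l 16825088)) (a (b (a (b (l 16828784) (a (l 538909327) (b (l 16784056) (l 16781632)))) (l 16879120)) (a (l 538908047) (b (a (l 539061391) (l 16785392)) (l 539079311)))) (b (l 16806848) (a (b (l 16790912) (a (l 16784552) (l 16788432))) (l 16803704)))))) (a (a (l 16921016) (l 17195080)) (b (l 17134640) (l 17109584)))) (a (a (a (l 16915368) (l 17020960)) (l 16954168)) (l 6))) (a (b (a (a (l 3) (a (a (l 3) (l 539079055)) (b (a (l 539222159) (b (l 16789288) (l 539363471))) (l 539253903)))) (a (a (b (l 16887096) (a (l 539547535) (l 16874032))) (b (l 16818336) (l 16809744))) (l 17263784))) (a (l 3) (a (a (l 539645839) (b (a (l 16794344) (l 16804592)) (l 540043663))) (a (b (l 16823064) (l 16804888)) (l 16841744))))) (a (a (a (l 16865248) (l 16971208)) (l 16912456)) (l 16964736)))) (a (l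 6) (l 6))) (a (b (a (a (l 3) (a (b (a (l 3) (l 540167567)) (l 3)) (b (a (l 540558111) (l 16898224)) (a (l 540771983) (l 541240207))))) (a (a (a (b (l 16843872) (l 16904432)) (a (l 16851016) (l 16859704))) (l 16971936)) (l 17297928))) (a (a (l 3) (a (l 3) (a (l 3) (b (l 541509775) (l 541802383))))) (a (a (a (b (l 542157855) (l 542172447)) (a (b (l 16824112) (b (l 16809840) (l 16842664))) (a (b (l 16834712) (l 16816304)) (a (l 16915216) (l 16918824))))) (a (l 16936768) (l 16885688))) (a (l 16933712) (l 16993608))))) (a (a (b (l 17063624) (l 17075488)) (l 6)) (l 6)))), by decide +kernel⟩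

def k1_B05pp_123_s1 : ∃ t, chk3 f_B05pp_123_s1 t 4 6 1 = true :=
  ⟨(l 3), by decide +kernel⟩

def k2_B05pp_123_s1 : ∃ t, chk3 f_B05pp_123_s1 t 40 6 1 = true :=
  ⟨(a (l 3) (b (b (l 542895647) (l 3)) (l 3))), by decide +kernel⟩

def k3_B05pp_123_s1 : ∃ t, chk3 f_B05pp_123_s1 t 41 6 1 = true :=
  ⟨(b (b (a (b (l 542580111) (l 543059999)) (a (a (l 16839384) (l 16801528)) (a (l 16889864) (l 16810656)))) (a (b (l 543233823) (a (l 3) (l 543286671))) (a (b (a (l 16796944) (l 16790608)) (a (l 543339919) (b (l 16785912) (l 543708815)))) (a (b (l 16837176) (a (l 16788120) (l 16790616))) (l 16828864))))) (a (l 3) (a (b (b (a (l 543534735) (l 544085791)) (a (l 3) (b (l 544640399) (l 3)))) (l 3)) (a (a (b (b (b (l 16784128) (l 544772495)) (b (l 545296527) (l 545841039))) (l 546158159)) (a (b (b (l 16784880) (l 545410703)) (l 546156367)) (a (a (b (b (l 16785672) (l 545410447)) (l 546155855)) (a (b (b (l 16785912) (l 545409935))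 (b (l 545913423) (l 3))) (a (b (b (l 16786024) (l 545409679)) (b (l 545913167) (l 3))) (b (b (l 16786104) (l 545409167)) (b (l 545913167) (l 3)))))) (b (b (l 16786456) (l 545404815)) (b (l 545912399) (l 546406991)))))) (a (a (b (b (l 16787400) (b (l 16783832) (l 16781744))) (b (l 545910319) (l 546404911))) (a (a (b (b (l 16788192) (l 16794136)) (b (b (l 16780824) (l 16782056)) (b (l 546274095) (l 546533935)))) (a (b (b (l 16788424) (l 16783880)) (b (b (l 16781064) (l 16779688)) (b (b (l 16778880) (l 16778472)) (b (l 16778176) (l 16777984))))) (a (b (b (l 16788544) (l 16784000)) (b (b (l 16781184) (l 16779808)) (b (b (l 16779000) (l 16778600)) (b (l 16778304) (l 16778112))))) (b (b (l 16788624) (l 16784080)) (b (b (l 16781264) (l 16779888)) (b (b (l 16779088) (l 16778688)) (b (l 16778384) (l 16778200)))))))) (b (b (l 16788976) (l 16784432)) (b (b (l 16781632) (l 16780264)) (b (b (l 16779464) (l 16779064)) (b (l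 16778768) (l 16778584))))))) (b (b (l 16790536) (l 16786008)) (b (l 545903199) (l 546398047)))))))), by decide +kernel⟩

def k4_B05pp_123_s1 : ∃ t, chk3 f_B05pp_123_s1 t 21 6 1 = true :=
  ⟨(b (a (b (l 16831552) (a (l 16851584) (l 16829280))) (l 17031240)) (b (a (a (b (l 16801536) (l 16786848)) (l 16903512)) (l 16849336)) (a (a (a (a (l 546139231) (b (l 16791728) (l 16790184))) (l 16830472)) (l 16898792)) (l 16846632)))), by decide +kernel⟩

def k5_B05pp_123_s1 : ∃ t, chk3 f_B05pp_123_s1 t 11 6 1 = true :=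
  ⟨(b (a (l 17002248) (l 16990184)) (a (b (l 16907408) (l 16909896)) (l 16904440))), by decide +kernel⟩

def k6_B05pp_123_s1 : ∃ t, chk3 f_B05pp_123_s1 t 3 6 1 = true :=
  ⟨(a (b (a (l 17088240) (l 17217624)) (a (b (l 17100504) (l 17123680)) (l 17280072))) (l 6)), by decide +kernel⟩

def k7_B05pp_123_s1 : ∃ t, chk3 f_B05pp_123_s1 t 1 7 1 = true :=
  ⟨(a (a (b (l 3) (l 3)) (b (a (a (b (a (l 3) (a (l 3) (a (l 3) (a (b (l 3) (l 547571519)) (a (a (b (l 546952495) (l 547560239)) (a (a (b (b (l 546807599) (l 547095599)) (b (l 547399215) (l 547719471))) (a (b (b (b (l 16777904) (l 16777936)) (b (l 16778096) (l 16778384))) (b (b (l 16778800) (l 16779360)) (l 16780496))) (a (b (b (b (l 16778032) (l 16778072)) (b (l 16778232) (l 16778520))) (b (l 16781848) (l 16780632))) (b (b (b (l 16778120) (l 16778160)) (b (l 16778320) (l 16778608))) (b (l 16781936) (l 16780728)))))) (b (b (b (l 16778512) (l 16778552)) (b (l 16778720)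 (l 16779016))) (b (l 16782344) (l 16781152))))) (b (l 546945375) (l 547553375))))))) (a (l 3) (a (l 3) (b (b (a (l 3) (a (l 548069183) (b (l 16777736) (l 16784176)))) (a (a (l 3) (l 548856447)) (a (a (l 548495743) (l 548512895)) (l 16781120)))) (a (a (l 551431039) (l 550693247)) (b (a (a (l 549276799) (l 16795768)) (l 16790224)) (l 1))))))) (a (b (a (b (b (l 16782360) (l 16783016)) (b (l 16784208) (l 16775512))) (l 16859576)) (b (b (a (l 16777904) (l 16823552)) (l 16794120)) (b (l 16778288) (l 1)))) (b (l 16809864) (b (l 16864160) (l 1))))) (a (b (l 16922680) (l 1)) (l 17461552))) (a (a (b (a (l 3) (l 1)) (l 1)) (l 1)) (l 1)))) (l 1)), by decide +kernel⟩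

theorem t8_B05pp_123_s1 : ∃ t, chk3 f_B05pp_123_s1 t 20 6 1 = true := ex3_a k2_B05pp_123_s1 k3_B05pp_123_s1

theorem t9_B05pp_123_s1 : ∃ t, chk3 f_B05pp_123_s1 t 10 6 1 = true := ex3_a t8_B05pp_123_s1 k4_B05pp_123_s1

theorem t10_B05pp_123_s1 : ∃ t, chk3 f_B05pp_123_s1 t 5 6 1 = true := ex3_a t9_B05pp_123_s1 k5_B05pp_123_s1

theorem t11_B05pp_123_s1 : ∃ t, chk3 f_B05pp_123_s1 t 2 6 1 = true := ex3_a k1_B05pp_123_s1 t10_B05pp_123_s1

theorem t12_B05pp_123_s1 : ∃ t, chk3 f_B05pp_123_s1 t 1 6 1 = true := ex3_a t11_B05pp_123_s1 k6_B05pp_123_s1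

theorem t13_B05pp_123_s1 : ∃ t, chk3 f_B05pp_123_s1 t 1 3 1 = true := ex3_b t12_B05pp_123_s1 k7_B05pp_123_s1

theorem t14_B05pp_123_s1 : ∃ t, chk3 f_B05pp_123_s1 t 1 1 1 = true := ex3_b k0_B05pp_123_s1 t13_B05pp_123_s1

theorem c_B05pp_123_s1 : CertF 536870912 536870912 0 1230186008 134217728 67108864 false true true .npn 1 2 3
    ndF0q1 ndF5q3 pcF2 cut_B05pp_123_s1 xt_B05pp_123_s1 :=
  certFK2 (fam := false) (s1 := true) (s2 := true) (a := 1) (b := 2) (c := 3) (cn := .npn) (n1 := ndF0q1) (n2 := ndF5q3) (pc := pcF2) (cut := cut_B05pp_123_s1) (xt := xt_B05pp_123_s1) (P1 := 536870912) (W1 := 536870912) (P2 := 0) (W2 := 1230186008) (P3 := 134217728) (W3 := 67108864)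
    rfl rfl rfl (fun _ => rfl) t14_B05pp_123_s1

theorem s_B05pp_123_s1 {κ x : ℝ} (hκ : κ * h0 = ken x) (hx : ((134217728 : ℕ) : ℝ) / S ≤ x)
    (hx' : x ≤ (((134217728 : ℕ) : ℝ) + (67108864 : ℕ)) / S)
    (H : CutB (VF κ) PP tKF tL pcF (Cut.of [[⟨0, 1, 0, 39843005⟩, ⟨1, 1, 0, 39843005⟩, ⟨2, 2, 0, 5814905⟩]]) 1 2 3 0 5 (sgb true) (sgb true) x) :
    AltB (VF κ) PP tKF tL pcF [⟨3, 0, 0, 1449551462⟩] 1 2 3 0 5 (sgb true) (sgb true) x :=
  strip_altB (m := 1449551462) true rfl hκ covF01 covF53 hx hx' c_B05pp_123_s1 H ((okx hx hx').extB (T := tt) (sideF hx hx') hκ rfl rfl (.O 1 true) (.N 3 true) rfl)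

noncomputable def cut_B05pp_133_s1 : Cut := Cut.of [[⟨4, 0, 0, 1449551462⟩]]

noncomputable def f_B05pp_133_s1 : ℕ → ℕ → ℕ → ℕ → Bool := onCell 1610612736 536870912 0 1230186008 134217728 67108864
    (rowFK 2 false true true .dn 1 3 3 (qsf 536870912 536870912 0 1230186008 3) ndF0q1 ndF5q3 pcF3 cut_B05pp_133_s1 Ext.none)

def k0_B05pp_133_s1 : ∃ t, chk3 f_B05pp_133_s1 t 1 1 1 = true :=
  ⟨(b (l 6) (l 1)), by decide +kernel⟩

theorem c_B05pp_133_s1 : CertF 536870912 536870912 0 1230186008 134217728 67108864 false true true .dn 1 3 3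
    ndF0q1 ndF5q3 pcF3 cut_B05pp_133_s1 Ext.none :=
  certFK2 (fam := false) (s1 := true) (s2 := true) (a := 1) (b := 3) (c := 3) (cn := .dn) (n1 := ndF0q1) (n2 := ndF5q3) (pc := pcF3) (cut := cut_B05pp_133_s1) (xt := Ext.none) (P1 := 536870912) (W1 := 536870912) (P2 := 0) (W2 := 1230186008) (P3 := 134217728) (W3 := 67108864)
    rfl rfl rfl (fun _ => rfl) k0_B05pp_133_s1

theorem s_B05pp_133_s1 {κ x : ℝ} (hκ : κ * h0 = ken x) (hx : ((134217728 : ℕ) : ℝ) / S ≤ x)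
    (hx' : x ≤ (((134217728 : ℕ) : ℝ) + (67108864 : ℕ)) / S) :
    AltB (VF κ) PP tKF tL pcF [⟨3, 0, 0, 1449551462⟩] 1 3 3 0 5 (sgb true) (sgb true) x :=
  strip_altB (m := 1449551462) true rfl hκ covF01 covF53 hx hx' c_B05pp_133_s1 cutB_nil (noExt_B)

noncomputable def cut_B05pp_202_s1 : Cut := Cut.of [[⟨4, 0, 0, 1449551462⟩]]

noncomputable def f_B05pp_202_s1 : ℕ → ℕ → ℕ → ℕ → Bool := onCell 0 536870912 1073741824 536870912 134217728 67108864
    (rowFK 0 false true true .pp 2 0 2 (qsf 0 536870912 1073741824 536870912 0) ndF0q2 ndF5q2 pcF0 cut_B05pp_202_s1 Ext.none)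

def k0_B05pp_202_s1 : ∃ t, chk3 f_B05pp_202_s1 t 1 1 1 = true :=
  ⟨(l 5), by decide +kernel⟩

theorem c_B05pp_202_s1 : CertF 0 536870912 1073741824 536870912 134217728 67108864 false true true .pp 2 0 2
    ndF0q2 ndF5q2 pcF0 cut_B05pp_202_s1 Ext.none :=
  certFK0 (fam := false) (s1 := true) (s2 := true) (a := 2) (b := 0) (c := 2) (cn := .pp) (n1 := ndF0q2) (n2 := ndF5q2) (pc := pcF0) (cut := cut_B05pp_202_s1) (xt := Ext.none) (P1 := 0) (W1 := 536870912) (P2 := 1073741824) (W2 := 536870912) (P3 := 134217728) (W3 := 67108864)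
    rfl rfl rfl k0_B05pp_202_s1

theorem s_B05pp_202_s1 {κ x : ℝ} (hκ : κ * h0 = ken x) (hx : ((134217728 : ℕ) : ℝ) / S ≤ x)
    (hx' : x ≤ (((134217728 : ℕ) : ℝ) + (67108864 : ℕ)) / S) :
    AltB (VF κ) PP tKF tL pcF [⟨3, 0, 0, 1449551462⟩] 2 0 2 0 5 (sgb true) (sgb true) x :=
  strip_altB (m := 1449551462) true rfl hκ covF02 covF52 hx hx' c_B05pp_202_s1 cutB_nil (noExt_B)

noncomputable def cut_B05pp_203_s1 : Cut := Cut.of [[⟨4, 0, 0, 1449551462⟩]]

noncomputable def f_B05pp_203_s1 : ℕ → ℕ → ℕ → ℕ → Bool := onCell 0 536870912 0 1230186008 134217728 67108864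
    (rowFK 0 false true true .up 2 0 3 (qsf 0 536870912 0 1230186008 0) ndF0q2 ndF5q3 pcF0 cut_B05pp_203_s1 Ext.none)

def k0_B05pp_203_s1 : ∃ t, chk3 f_B05pp_203_s1 t 1 1 1 = true :=
  ⟨(b (l 2) (b (l 2) (a (l 5) (l 3)))), by decide +kernel⟩

theorem c_B05pp_203_s1 : CertF 0 536870912 0 1230186008 134217728 67108864 false true true .up 2 0 3
    ndF0q2 ndF5q3 pcF0 cut_B05pp_203_s1 Ext.none :=
  certFK0 (fam := false) (s1 := true) (s2 := true) (a := 2) (b := 0) (c := 3) (cn := .up) (n1 := ndF0q2) (n2 := ndF5q3) (pc := pcF0) (cut := cut_B05pp_203_s1) (xt := Ext.none) (P1 := 0) (W1 := 536870912) (P2 := 0) (W2 := 1230186008) (P3 := 134217728) (W3 := 67108864)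
    rfl rfl rfl k0_B05pp_203_s1

theorem s_B05pp_203_s1 {κ x : ℝ} (hκ : κ * h0 = ken x) (hx : ((134217728 : ℕ) : ℝ) / S ≤ x)
    (hx' : x ≤ (((134217728 : ℕ) : ℝ) + (67108864 : ℕ)) / S) :
    AltB (VF κ) PP tKF tL pcF [⟨3, 0, 0, 1449551462⟩] 2 0 3 0 5 (sgb true) (sgb true) x :=
  strip_altB (m := 1449551462) true rfl hκ covF02 covF53 hx hx' c_B05pp_203_s1 cutB_nil (noExt_B)

noncomputable def cut_B05pp_213_s1 : Cut := Cut.of [[⟨4, 0, 0, 1449551462⟩], [⟨0, 1, 0, 39843005⟩, ⟨1, 1, 0, 39843005⟩, ⟨2, 2, 0, 5814905⟩]]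

noncomputable def f_B05pp_213_s1 : ℕ → ℕ → ℕ → ℕ → Bool := onCell 0 536870912 0 1230186008 134217728 67108864
    (rowFK 0 false true true .pnn 2 1 3 (qsf 0 536870912 0 1230186008 1) ndF0q2 ndF5q3 pcF1 cut_B05pp_213_s1 Ext.none)

def k0_B05pp_213_s1 : ∃ t, chk3 f_B05pp_213_s1 t 1 1 1 = true :=
  ⟨(a (b (l 3) (l 5)) (b (b (a (l 3) (b (a (l 3) (b (a (l 3) (l 14)) (l 3))) (l 3))) (l 3)) (b (l 3) (l 3)))), by decide +kernel⟩

theorem c_B05pp_213_s1 : CertF 0 536870912 0 1230186008 134217728 67108864 false true true .pnn 2 1 3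
    ndF0q2 ndF5q3 pcF1 cut_B05pp_213_s1 Ext.none :=
  certFK0 (fam := false) (s1 := true) (s2 := true) (a := 2) (b := 1) (c := 3) (cn := .pnn) (n1 := ndF0q2) (n2 := ndF5q3) (pc := pcF1) (cut := cut_B05pp_213_s1) (xt := Ext.none) (P1 := 0) (W1 := 536870912) (P2 := 0) (W2 := 1230186008) (P3 := 134217728) (W3 := 67108864)
    rfl rfl rfl k0_B05pp_213_s1

theorem s_B05pp_213_s1 {κ x : ℝ} (hκ : κ * h0 = ken x) (hx : ((134217728 : ℕ) : ℝ) / S ≤ x)
    (hx' : x ≤ (((134217728 : ℕ) : ℝ) + (67108864 : ℕ)) / S)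
    (H : CutB (VF κ) PP tKF tL pcF (Cut.of [[⟨0, 1, 0, 39843005⟩, ⟨1, 1, 0, 39843005⟩, ⟨2, 2, 0, 5814905⟩]]) 2 1 3 0 5 (sgb true) (sgb true) x) :
    AltB (VF κ) PP tKF tL pcF [⟨3, 0, 0, 1449551462⟩] 2 1 3 0 5 (sgb true) (sgb true) x :=
  strip_altB (m := 1449551462) true rfl hκ covF02 covF53 hx hx' c_B05pp_213_s1 H (noExt_B)

noncomputable def cut_B05pm_001_s1 : Cut := Cut.of [[⟨4, 0, 0, 1449551462⟩]]

noncomputable def f_B05pm_001_s1 : ℕ → ℕ → ℕ → ℕ → Bool := onCell 0 536870912 536870912 536870912 134217728 67108864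
    (rowFK 0 false true false .up 0 0 1 (qsf 0 536870912 536870912 536870912 0) ndF0q0 ndF5q1 pcF0 cut_B05pm_001_s1 Ext.none)

def k0_B05pm_001_s1 : ∃ t, chk3 f_B05pm_001_s1 t 1 1 1 = true :=
  ⟨(l 4), by decide +kernel⟩

theorem c_B05pm_001_s1 : CertF 0 536870912 536870912 536870912 134217728 67108864 false true false .up 0 0 1
    ndF0q0 ndF5q1 pcF0 cut_B05pm_001_s1 Ext.none :=
  certFK0 (fam := false) (s1 := true) (s2 := false) (a := 0) (b := 0) (c := 1) (cn := .up) (n1 := ndF0q0) (n2 := ndF5q1) (pc := pcF0) (cut := cut_B05pm_001_s1) (xt := Ext.none) (P1 := 0) (W1 := 536870912) (P2 := 536870912) (W2 := 536870912) (P3 := 134217728) (W3 := 67108864)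
    rfl rfl rfl k0_B05pm_001_s1

theorem s_B05pm_001_s1 {κ x : ℝ} (hκ : κ * h0 = ken x) (hx : ((134217728 : ℕ) : ℝ) / S ≤ x)
    (hx' : x ≤ (((134217728 : ℕ) : ℝ) + (67108864 : ℕ)) / S) :
    AltB (VF κ) PP tKF tL pcF [⟨3, 0, 0, 1449551462⟩] 0 0 1 0 5 (sgb true) (sgb false) x :=
  strip_altB (m := 1449551462) true rfl hκ covF00 covF51 hx hx' c_B05pm_001_s1 cutB_nil (noExt_B)

noncomputable def cut_B05pm_011_s1 : Cut := Cut.of [[⟨4, 0, 0, 1449551462⟩]]

noncomputable def f_B05pm_011_s1 : ℕ → ℕ → ℕ → ℕ → Bool := onCell 0 536870912 536870912 536870912 134217728 67108864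
    (rowFK 0 false true false .pnn 0 1 1 (qsf 0 536870912 536870912 536870912 1) ndF0q0 ndF5q1 pcF1 cut_B05pm_011_s1 Ext.none)

def k0_B05pm_011_s1 : ∃ t, chk3 f_B05pm_011_s1 t 1 1 1 = true :=
  ⟨(l 4), by decide +kernel⟩

theorem c_B05pm_011_s1 : CertF 0 536870912 536870912 536870912 134217728 67108864 false true false .pnn 0 1 1
    ndF0q0 ndF5q1 pcF1 cut_B05pm_011_s1 Ext.none :=
  certFK0 (fam := false) (s1 := true) (s2 := false) (a := 0) (b := 1) (c := 1) (cn := .pnn) (n1 := ndF0q0) (n2 := ndF5q1) (pc := pcF1) (cut := cut_B05pm_011_s1) (xt := Ext.none) (P1 := 0) (W1 := 536870912) (P2 := 536870912) (W2 := 536870912) (P3 := 134217728) (W3 := 67108864)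
    rfl rfl rfl k0_B05pm_011_s1

theorem s_B05pm_011_s1 {κ x : ℝ} (hκ : κ * h0 = ken x) (hx : ((134217728 : ℕ) : ℝ) / S ≤ x)
    (hx' : x ≤ (((134217728 : ℕ) : ℝ) + (67108864 : ℕ)) / S) :
    AltB (VF κ) PP tKF tL pcF [⟨3, 0, 0, 1449551462⟩] 0 1 1 0 5 (sgb true) (sgb false) x :=
  strip_altB (m := 1449551462) true rfl hκ covF00 covF51 hx hx' c_B05pm_011_s1 cutB_nil (noExt_B)

noncomputable def cut_B05pm_012_s1 : Cut := Cut.of [[⟨4, 0, 0, 1449551462⟩]]

noncomputable def f_B05pm_012_s1 : ℕ → ℕ → ℕ → ℕ → Bool := onCell 0 536870912 1073741824 536870912 134217728 67108864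
    (rowFK 0 false true false .pnp 0 1 2 (qsf 0 536870912 1073741824 536870912 1) ndF0q0 ndF5q2 pcF1 cut_B05pm_012_s1 Ext.none)

def k0_B05pm_012_s1 : ∃ t, chk3 f_B05pm_012_s1 t 1 1 1 = true :=
  ⟨(l 4), by decide +kernel⟩

theorem c_B05pm_012_s1 : CertF 0 536870912 1073741824 536870912 134217728 67108864 false true false .pnp 0 1 2
    ndF0q0 ndF5q2 pcF1 cut_B05pm_012_s1 Ext.none :=
  certFK0 (fam := false) (s1 := true) (s2 := false) (a := 0) (b := 1) (c := 2) (cn := .pnp) (n1 := ndF0q0) (n2 := ndF5q2) (pc := pcF1) (cut := cut_B05pm_012_s1) (xt := Ext.none) (P1 := 0) (W1 := 536870912) (P2 := 1073741824) (W2 := 536870912) (P3 := 134217728) (W3 := 67108864)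
    rfl rfl rfl k0_B05pm_012_s1

theorem s_B05pm_012_s1 {κ x : ℝ} (hκ : κ * h0 = ken x) (hx : ((134217728 : ℕ) : ℝ) / S ≤ x)
    (hx' : x ≤ (((134217728 : ℕ) : ℝ) + (67108864 : ℕ)) / S) :
    AltB (VF κ) PP tKF tL pcF [⟨3, 0, 0, 1449551462⟩] 0 1 2 0 5 (sgb true) (sgb false) x :=
  strip_altB (m := 1449551462) true rfl hκ covF00 covF52 hx hx' c_B05pm_012_s1 cutB_nil (noExt_B)

noncomputable def cut_B05pm_022_s1 : Cut := Cut.of [[⟨4, 0, 0, 1449551462⟩]]

noncomputable def f_B05pm_022_s1 : ℕ → ℕ → ℕ → ℕ → Bool := onCell 0 536870912 1073741824 536870912 134217728 67108864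
    (rowFK 0 false true false .pp 0 2 2 (qsf 0 536870912 1073741824 536870912 2) ndF0q0 ndF5q2 pcF2 cut_B05pm_022_s1 Ext.none)

def k0_B05pm_022_s1 : ∃ t, chk3 f_B05pm_022_s1 t 1 1 1 = true :=
  ⟨(l 4), by decide +kernel⟩

theorem c_B05pm_022_s1 : CertF 0 536870912 1073741824 536870912 134217728 67108864 false true false .pp 0 2 2
    ndF0q0 ndF5q2 pcF2 cut_B05pm_022_s1 Ext.none :=
  certFK0 (fam := false) (s1 := true) (s2 := false) (a := 0) (b := 2) (c := 2) (cn := .pp) (n1 := ndF0q0) (n2 := ndF5q2) (pc := pcF2) (cut := cut_B05pm_022_s1) (xt := Ext.none) (P1 := 0) (W1 := 536870912) (P2 := 1073741824) (W2 := 536870912) (P3 := 134217728) (W3 := 67108864)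
    rfl rfl rfl k0_B05pm_022_s1

theorem s_B05pm_022_s1 {κ x : ℝ} (hκ : κ * h0 = ken x) (hx : ((134217728 : ℕ) : ℝ) / S ≤ x)
    (hx' : x ≤ (((134217728 : ℕ) : ℝ) + (67108864 : ℕ)) / S) :
    AltB (VF κ) PP tKF tL pcF [⟨3, 0, 0, 1449551462⟩] 0 2 2 0 5 (sgb true) (sgb false) x :=
  strip_altB (m := 1449551462) true rfl hκ covF00 covF52 hx hx' c_B05pm_022_s1 cutB_nil (noExt_B)

noncomputable def cut_B05pm_023_s1 : Cut := Cut.of [[⟨4, 0, 0, 1449551462⟩]]

noncomputable def f_B05pm_023_s1 : ℕ → ℕ → ℕ → ℕ → Bool := onCell 0 536870912 0 1230186008 134217728 67108864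
    (rowFK 0 false true false .up 0 2 3 (qsf 0 536870912 0 1230186008 2) ndF0q0 ndF5q3 pcF2 cut_B05pm_023_s1 Ext.none)

def k0_B05pm_023_s1 : ∃ t, chk3 f_B05pm_023_s1 t 1 1 1 = true :=
  ⟨(l 6), by decide +kernel⟩

theorem c_B05pm_023_s1 : CertF 0 536870912 0 1230186008 134217728 67108864 false true false .up 0 2 3
    ndF0q0 ndF5q3 pcF2 cut_B05pm_023_s1 Ext.none :=
  certFK0 (fam := false) (s1 := true) (s2 := false) (a := 0) (b := 2) (c := 3) (cn := .up) (n1 := ndF0q0) (n2 := ndF5q3) (pc := pcF2) (cut := cut_B05pm_023_s1) (xt := Ext.none) (P1 := 0) (W1 := 536870912) (P2 := 0) (W2 := 1230186008) (P3 := 134217728) (W3 := 67108864)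
    rfl rfl rfl k0_B05pm_023_s1

theorem s_B05pm_023_s1 {κ x : ℝ} (hκ : κ * h0 = ken x) (hx : ((134217728 : ℕ) : ℝ) / S ≤ x)
    (hx' : x ≤ (((134217728 : ℕ) : ℝ) + (67108864 : ℕ)) / S) :
    AltB (VF κ) PP tKF tL pcF [⟨3, 0, 0, 1449551462⟩] 0 2 3 0 5 (sgb true) (sgb false) x :=
  strip_altB (m := 1449551462) true rfl hκ covF00 covF53 hx hx' c_B05pm_023_s1 cutB_nil (noExt_B)

noncomputable def cut_B05pm_033_s1 : Cut := Cut.of [[⟨4, 0, 0, 1449551462⟩]]

noncomputable def f_B05pm_033_s1 : ℕ → ℕ → ℕ → ℕ → Bool := onCell 0 536870912 0 1230186008 134217728 67108864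
    (rowFK 0 false true false .pnn 0 3 3 (qsf 0 536870912 0 1230186008 3) ndF0q0 ndF5q3 pcF3 cut_B05pm_033_s1 Ext.none)

def k0_B05pm_033_s1 : ∃ t, chk3 f_B05pm_033_s1 t 1 1 1 = true :=
  ⟨(l 6), by decide +kernel⟩

theorem c_B05pm_033_s1 : CertF 0 536870912 0 1230186008 134217728 67108864 false true false .pnn 0 3 3
    ndF0q0 ndF5q3 pcF3 cut_B05pm_033_s1 Ext.none :=
  certFK0 (fam := false) (s1 := true) (s2 := false) (a := 0) (b := 3) (c := 3) (cn := .pnn) (n1 := ndF0q0) (n2 := ndF5q3) (pc := pcF3) (cut := cut_B05pm_033_s1) (xt := Ext.none) (P1 := 0) (W1 := 536870912) (P2 := 0) (W2 := 1230186008) (P3 := 134217728) (W3 := 67108864)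
    rfl rfl rfl k0_B05pm_033_s1

theorem s_B05pm_033_s1 {κ x : ℝ} (hκ : κ * h0 = ken x) (hx : ((134217728 : ℕ) : ℝ) / S ≤ x)
    (hx' : x ≤ (((134217728 : ℕ) : ℝ) + (67108864 : ℕ)) / S) :
    AltB (VF κ) PP tKF tL pcF [⟨3, 0, 0, 1449551462⟩] 0 3 3 0 5 (sgb true) (sgb false) x :=
  strip_altB (m := 1449551462) true rfl hκ covF00 covF53 hx hx' c_B05pm_033_s1 cutB_nil (noExt_B)

noncomputable def cut_B05pm_101_s1 : Cut := Cut.of [[⟨4, 0, 0, 1449551462⟩]]

noncomputable def f_B05pm_101_s1 : ℕ → ℕ → ℕ → ℕ → Bool := onCell 536870912 536870912 536870912 536870912 134217728 67108864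
    (rowFK 0 false true false .npn 1 0 1 (qsf 536870912 536870912 536870912 536870912 0) ndF0q1 ndF5q1 pcF0 cut_B05pm_101_s1 Ext.none)

def k0_B05pm_101_s1 : ∃ t, chk3 f_B05pm_101_s1 t 1 1 1 = true :=
  ⟨(l 4), by decide +kernel⟩

theorem c_B05pm_101_s1 : CertF 536870912 536870912 536870912 536870912 134217728 67108864 false true false .npn 1 0 1
    ndF0q1 ndF5q1 pcF0 cut_B05pm_101_s1 Ext.none :=
  certFK0 (fam := false) (s1 := true) (s2 := false) (a := 1) (b := 0) (c := 1) (cn := .npn) (n1 := ndF0q1) (n2 := ndF5q1) (pc := pcF0) (cut := cut_B05pm_101_s1) (xt := Ext.none) (P1 := 536870912) (W1 := 536870912) (P2 := 536870912) (W2 := 536870912) (P3 := 134217728) (W3 := 67108864)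
    rfl rfl rfl k0_B05pm_101_s1

theorem s_B05pm_101_s1 {κ x : ℝ} (hκ : κ * h0 = ken x) (hx : ((134217728 : ℕ) : ℝ) / S ≤ x)
    (hx' : x ≤ (((134217728 : ℕ) : ℝ) + (67108864 : ℕ)) / S) :
    AltB (VF κ) PP tKF tL pcF [⟨3, 0, 0, 1449551462⟩] 1 0 1 0 5 (sgb true) (sgb false) x :=
  strip_altB (m := 1449551462) true rfl hκ covF01 covF51 hx hx' c_B05pm_101_s1 cutB_nil (noExt_B)

noncomputable def cut_B05pm_102_s1 : Cut := Cut.of [[⟨4, 0, 0, 1449551462⟩]]

noncomputable def f_B05pm_102_s1 : ℕ → ℕ → ℕ → ℕ → Bool := onCell 536870912 536870912 1073741824 536870912 134217728 67108864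
    (rowFK 0 false true false .npp 1 0 2 (qsf 536870912 536870912 1073741824 536870912 0) ndF0q1 ndF5q2 pcF0 cut_B05pm_102_s1 Ext.none)

def k0_B05pm_102_s1 : ∃ t, chk3 f_B05pm_102_s1 t 1 1 1 = true :=
  ⟨(l 6), by decide +kernel⟩

theorem c_B05pm_102_s1 : CertF 536870912 536870912 1073741824 536870912 134217728 67108864 false true false .npp 1 0 2
    ndF0q1 ndF5q2 pcF0 cut_B05pm_102_s1 Ext.none :=
  certFK0 (fam := false) (s1 := true) (s2 := false) (a := 1) (b := 0) (c := 2) (cn := .npp) (n1 := ndF0q1) (n2 := ndF5q2) (pc := pcF0) (cut := cut_B05pm_102_s1) (xt := Ext.none) (P1 := 536870912) (W1 := 536870912) (P2 := 1073741824) (W2 := 536870912) (P3 := 134217728) (W3 := 67108864)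
    rfl rfl rfl k0_B05pm_102_s1

theorem s_B05pm_102_s1 {κ x : ℝ} (hκ : κ * h0 = ken x) (hx : ((134217728 : ℕ) : ℝ) / S ≤ x)
    (hx' : x ≤ (((134217728 : ℕ) : ℝ) + (67108864 : ℕ)) / S) :
    AltB (VF κ) PP tKF tL pcF [⟨3, 0, 0, 1449551462⟩] 1 0 2 0 5 (sgb true) (sgb false) x :=
  strip_altB (m := 1449551462) true rfl hκ covF01 covF52 hx hx' c_B05pm_102_s1 cutB_nil (noExt_B)

noncomputable def cut_B05pm_112_s1 : Cut := Cut.of [[⟨4, 0, 0, 1449551462⟩]]

noncomputable def f_B05pm_112_s1 : ℕ → ℕ → ℕ → ℕ → Bool := onCell 536870912 536870912 1073741824 536870912 134217728 67108864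
    (rowFK 0 false true false .dn 1 1 2 (qsf 536870912 536870912 1073741824 536870912 1) ndF0q1 ndF5q2 pcF1 cut_B05pm_112_s1 Ext.none)

def k0_B05pm_112_s1 : ∃ t, chk3 f_B05pm_112_s1 t 1 1 1 = true :=
  ⟨(l 6), by decide +kernel⟩

theorem c_B05pm_112_s1 : CertF 536870912 536870912 1073741824 536870912 134217728 67108864 false true false .dn 1 1 2
    ndF0q1 ndF5q2 pcF1 cut_B05pm_112_s1 Ext.none :=
  certFK0 (fam := false) (s1 := true) (s2 := false) (a := 1) (b := 1) (c := 2) (cn := .dn) (n1 := ndF0q1) (n2 := ndF5q2) (pc := pcF1) (cut := cut_B05pm_112_s1) (xt := Ext.none) (P1 := 536870912) (W1 := 536870912) (P2 := 1073741824) (W2 := 536870912) (P3 := 134217728) (W3 := 67108864)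
    rfl rfl rfl k0_B05pm_112_s1

theorem s_B05pm_112_s1 {κ x : ℝ} (hκ : κ * h0 = ken x) (hx : ((134217728 : ℕ) : ℝ) / S ≤ x)
    (hx' : x ≤ (((134217728 : ℕ) : ℝ) + (67108864 : ℕ)) / S) :
    AltB (VF κ) PP tKF tL pcF [⟨3, 0, 0, 1449551462⟩] 1 1 2 0 5 (sgb true) (sgb false) x :=
  strip_altB (m := 1449551462) true rfl hκ covF01 covF52 hx hx' c_B05pm_112_s1 cutB_nil (noExt_B)

noncomputable def cut_B05pm_113_s1 : Cut := Cut.of [[⟨4, 0, 0, 1449551462⟩], [⟨0, 1, 0, 39843005⟩, ⟨1, 1, 0, 39843005⟩, ⟨2, 2, 0, 5814905⟩]]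

noncomputable def f_B05pm_113_s1 : ℕ → ℕ → ℕ → ℕ → Bool := onCell 536870912 536870912 0 1230186008 134217728 67108864
    (rowFK 0 false true false .nn 1 1 3 (qsf 536870912 536870912 0 1230186008 1) ndF0q1 ndF5q3 pcF1 cut_B05pm_113_s1 Ext.none)

def k0_B05pm_113_s1 : ∃ t, chk3 f_B05pm_113_s1 t 1 1 1 = true :=
  ⟨(a (b (l 2) (l 6)) (b (a (l 2) (b (a (l 2) (b (a (l 2) (b (l 14) (l 16814776))) (l 16854048))) (a (l 6) (b (l 16904976) (l 6))))) (l 6))), by decide +kernel⟩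

theorem c_B05pm_113_s1 : CertF 536870912 536870912 0 1230186008 134217728 67108864 false true false .nn 1 1 3
    ndF0q1 ndF5q3 pcF1 cut_B05pm_113_s1 Ext.none :=
  certFK0 (fam := false) (s1 := true) (s2 := false) (a := 1) (b := 1) (c := 3) (cn := .nn) (n1 := ndF0q1) (n2 := ndF5q3) (pc := pcF1) (cut := cut_B05pm_113_s1) (xt := Ext.none) (P1 := 536870912) (W1 := 536870912) (P2 := 0) (W2 := 1230186008) (P3 := 134217728) (W3 := 67108864)
    rfl rfl rfl k0_B05pm_113_s1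

theorem s_B05pm_113_s1 {κ x : ℝ} (hκ : κ * h0 = ken x) (hx : ((134217728 : ℕ) : ℝ) / S ≤ x)
    (hx' : x ≤ (((134217728 : ℕ) : ℝ) + (67108864 : ℕ)) / S)
    (H : CutB (VF κ) PP tKF tL pcF (Cut.of [[⟨0, 1, 0, 39843005⟩, ⟨1, 1, 0, 39843005⟩, ⟨2, 2, 0, 5814905⟩]]) 1 1 3 0 5 (sgb true) (sgb false) x) :
    AltB (VF κ) PP tKF tL pcF [⟨3, 0, 0, 1449551462⟩] 1 1 3 0 5 (sgb true) (sgb false) x :=
  strip_altB (m := 1449551462) true rfl hκ covF01 covF53 hx hx' c_B05pm_113_s1 H (noExt_B)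

noncomputable def cut_B05pm_123_s1 : Cut := Cut.of [[⟨4, 0, 0, 1449551462⟩], [⟨0, 1, 0, 39843005⟩, ⟨1, 1, 0, 39843005⟩, ⟨2, 2, 0, 5814905⟩]]

noncomputable def f_B05pm_123_s1 : ℕ → ℕ → ℕ → ℕ → Bool := onCell 1073741824 536870912 0 1230186008 134217728 67108864
    (rowFK 2 false true false .npn 1 2 3 (qsf 536870912 536870912 0 1230186008 2) ndF0q1 ndF5q3 pcF2 cut_B05pm_123_s1 Ext.none)

def k0_B05pm_123_s1 : ∃ t, chk3 f_B05pm_123_s1 t 1 1 1 = true :=
  ⟨(b (a (b (b (a (a (a (b (l 14) (l 16819136)) (l 16861984)) (a (a (l 16914656) (l 17021904)) (a (l 16957688) (l 16978208)))) (l 6)) (a (a (l 17372208) (l 6)) (l 6))) (b (l 6) (l 6))) (l 6)) (l 6)), by decide +kernel⟩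

theorem c_B05pm_123_s1 : CertF 536870912 536870912 0 1230186008 134217728 67108864 false true false .npn 1 2 3
    ndF0q1 ndF5q3 pcF2 cut_B05pm_123_s1 Ext.none :=
  certFK2 (fam := false) (s1 := true) (s2 := false) (a := 1) (b := 2) (c := 3) (cn := .npn) (n1 := ndF0q1) (n2 := ndF5q3) (pc := pcF2) (cut := cut_B05pm_123_s1) (xt := Ext.none) (P1 := 536870912) (W1 := 536870912) (P2 := 0) (W2 := 1230186008) (P3 := 134217728) (W3 := 67108864)
    rfl rfl rfl (fun _ => rfl) k0_B05pm_123_s1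

theorem s_B05pm_123_s1 {κ x : ℝ} (hκ : κ * h0 = ken x) (hx : ((134217728 : ℕ) : ℝ) / S ≤ x)
    (hx' : x ≤ (((134217728 : ℕ) : ℝ) + (67108864 : ℕ)) / S)
    (H : CutB (VF κ) PP tKF tL pcF (Cut.of [[⟨0, 1, 0, 39843005⟩, ⟨1, 1, 0, 39843005⟩, ⟨2, 2, 0, 5814905⟩]]) 1 2 3 0 5 (sgb true) (sgb false) x) :
    AltB (VF κ) PP tKF tL pcF [⟨3, 0, 0, 1449551462⟩] 1 2 3 0 5 (sgb true) (sgb false) x :=
  strip_altB (m := 1449551462) true rfl hκ covF01 covF53 hx hx' c_B05pm_123_s1 H (noExt_B)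

noncomputable def cut_B05pm_133_s1 : Cut := Cut.of [[⟨4, 0, 0, 1449551462⟩]]

noncomputable def f_B05pm_133_s1 : ℕ → ℕ → ℕ → ℕ → Bool := onCell 1610612736 536870912 0 1230186008 134217728 67108864
    (rowFK 2 false true false .dn 1 3 3 (qsf 536870912 536870912 0 1230186008 3) ndF0q1 ndF5q3 pcF3 cut_B05pm_133_s1 Ext.none)

def k0_B05pm_133_s1 : ∃ t, chk3 f_B05pm_133_s1 t 1 1 1 = true :=
  ⟨(l 6), by decide +kernel⟩

theorem c_B05pm_133_s1 : CertF 536870912 536870912 0 1230186008 134217728 67108864 false true false .dn 1 3 3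
    ndF0q1 ndF5q3 pcF3 cut_B05pm_133_s1 Ext.none :=
  certFK2 (fam := false) (s1 := true) (s2 := false) (a := 1) (b := 3) (c := 3) (cn := .dn) (n1 := ndF0q1) (n2 := ndF5q3) (pc := pcF3) (cut := cut_B05pm_133_s1) (xt := Ext.none) (P1 := 536870912) (W1 := 536870912) (P2 := 0) (W2 := 1230186008) (P3 := 134217728) (W3 := 67108864)
    rfl rfl rfl (fun _ => rfl) k0_B05pm_133_s1

theorem s_B05pm_133_s1 {κ x : ℝ} (hκ : κ * h0 = ken x) (hx : ((134217728 : ℕ) : ℝ) / S ≤ x)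
    (hx' : x ≤ (((134217728 : ℕ) : ℝ) + (67108864 : ℕ)) / S) :
    AltB (VF κ) PP tKF tL pcF [⟨3, 0, 0, 1449551462⟩] 1 3 3 0 5 (sgb true) (sgb false) x :=
  strip_altB (m := 1449551462) true rfl hκ covF01 covF53 hx hx' c_B05pm_133_s1 cutB_nil (noExt_B)

noncomputable def cut_B05pm_202_s1 : Cut := Cut.of [[⟨4, 0, 0, 1449551462⟩]]

noncomputable def f_B05pm_202_s1 : ℕ → ℕ → ℕ → ℕ → Bool := onCell 0 536870912 1073741824 536870912 134217728 67108864
    (rowFK 0 false true false .pp 2 0 2 (qsf 0 536870912 1073741824 536870912 0) ndF0q2 ndF5q2 pcF0 cut_B05pm_202_s1 Ext.none)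

def k0_B05pm_202_s1 : ∃ t, chk3 f_B05pm_202_s1 t 1 1 1 = true :=
  ⟨(a (b (l 6) (b (l 6) (l 6))) (l 6)), by decide +kernel⟩

theorem c_B05pm_202_s1 : CertF 0 536870912 1073741824 536870912 134217728 67108864 false true false .pp 2 0 2
    ndF0q2 ndF5q2 pcF0 cut_B05pm_202_s1 Ext.none :=
  certFK0 (fam := false) (s1 := true) (s2 := false) (a := 2) (b := 0) (c := 2) (cn := .pp) (n1 := ndF0q2) (n2 := ndF5q2) (pc := pcF0) (cut := cut_B05pm_202_s1) (xt := Ext.none) (P1 := 0) (W1 := 536870912) (P2 := 1073741824) (W2 := 536870912) (P3 := 134217728) (W3 := 67108864)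
    rfl rfl rfl k0_B05pm_202_s1

theorem s_B05pm_202_s1 {κ x : ℝ} (hκ : κ * h0 = ken x) (hx : ((134217728 : ℕ) : ℝ) / S ≤ x)
    (hx' : x ≤ (((134217728 : ℕ) : ℝ) + (67108864 : ℕ)) / S) :
    AltB (VF κ) PP tKF tL pcF [⟨3, 0, 0, 1449551462⟩] 2 0 2 0 5 (sgb true) (sgb false) x :=
  strip_altB (m := 1449551462) true rfl hκ covF02 covF52 hx hx' c_B05pm_202_s1 cutB_nil (noExt_B)

noncomputable def cut_B05pm_203_s1 : Cut := Cut.of [[⟨4, 0, 0, 1449551462⟩]]

noncomputable def f_B05pm_203_s1 : ℕ → ℕ → ℕ → ℕ → Bool := onCell 0 536870912 0 1230186008 134217728 67108864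
    (rowFK 0 false true false .up 2 0 3 (qsf 0 536870912 0 1230186008 0) ndF0q2 ndF5q3 pcF0 cut_B05pm_203_s1 Ext.none)

def k0_B05pm_203_s1 : ∃ t, chk3 f_B05pm_203_s1 t 1 1 1 = true :=
  ⟨(b (l 2) (b (l 2) (a (b (b (l 2) (a (l 197669230071) (l 17818072))) (a (b (a (l 17158128) (l 17295024)) (a (l 17284440) (l 6))) (l 6))) (l 6)))), by decide +kernel⟩

theorem c_B05pm_203_s1 : CertF 0 536870912 0 1230186008 134217728 67108864 false true false .up 2 0 3
    ndF0q2 ndF5q3 pcF0 cut_B05pm_203_s1 Ext.none :=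
  certFK0 (fam := false) (s1 := true) (s2 := false) (a := 2) (b := 0) (c := 3) (cn := .up) (n1 := ndF0q2) (n2 := ndF5q3) (pc := pcF0) (cut := cut_B05pm_203_s1) (xt := Ext.none) (P1 := 0) (W1 := 536870912) (P2 := 0) (W2 := 1230186008) (P3 := 134217728) (W3 := 67108864)
    rfl rfl rfl k0_B05pm_203_s1

theorem s_B05pm_203_s1 {κ x : ℝ} (hκ : κ * h0 = ken x) (hx : ((134217728 : ℕ) : ℝ) / S ≤ x)
    (hx' : x ≤ (((134217728 : ℕ) : ℝ) + (67108864 : ℕ)) / S) :
    AltB (VF κ) PP tKF tL pcF [⟨3, 0, 0, 1449551462⟩] 2 0 3 0 5 (sgb true) (sgb false) x :=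
  strip_altB (m := 1449551462) true rfl hκ covF02 covF53 hx hx' c_B05pm_203_s1 cutB_nil (noExt_B)

noncomputable def cut_B05pm_213_s1 : Cut := Cut.of [[⟨4, 0, 0, 1449551462⟩], [⟨0, 1, 0, 39843005⟩, ⟨1, 1, 0, 39843005⟩, ⟨2, 2, 0, 5814905⟩]]

noncomputable def xt_B05pm_213_s1 : Ext := strExt dd false true false .u2 .s2m .u0m .pnn 2 1 3 rfl rfl gf1 vv ndF0q2 ndF5q3

noncomputable def f_B05pm_213_s1 : ℕ → ℕ → ℕ → ℕ → Bool := onCell 0 536870912 0 1230186008 134217728 67108864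
    (rowFK 0 false true false .pnn 2 1 3 (qsf 0 536870912 0 1230186008 1) ndF0q2 ndF5q3 pcF1 cut_B05pm_213_s1 xt_B05pm_213_s1)

def k0_B05pm_213_s1 : ∃ t, chk3 f_B05pm_213_s1 t 1 1 1 = true :=
  ⟨(b (a (b (l 3) (a (l 3) (b (l 3) (a (l 539135503) (l 538989327))))) (b (a (a (l 3) (b (l 3) (a (l 3) (l 539110671)))) (b (a (a (l 3) (a (l 3) (l 539037967))) (b (a (a (l 3) (l 14)) (l 14)) (a (a (l 539112207) (a (l 539069199) (l 539061775))) (b (l 14) (l 16813384))))) (a (a (l 539861263) (b (l 539940111) (l 16815160))) (b (a (l 16810800) (l 16835240)) (l 16851208))))) (b (a (a (b (l 539228943) (l 539104527)) (a (l 539022351) (l 538954511))) (a (c (l 17012048) (l 17013840)) (l 16894920))) (a (a (l 538844687) (l 16934328)) (a (l 16892928) (l 16934496)))))) (b (b (a (a (a (l 3) (b (l 3) (l 538483983))) (a (l 539901199) (b (l 538624015) (l 16822944)))) (a (l 17197944) (l 6))) (a (a (a (l 539141391) (b (l 539898383) (l 539595023)))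 (b (l 17100256) (l 16917224))) (a (l 17520784) (l 6)))) (a (a (b (a (b (l 540503823) (l 16930344)) (b (l 16908880) (l 17037256))) (l 1)) (b (b (l 17030376) (l 17190440)) (l 6))) (l 6)))), by decide +kernel⟩

theorem c_B05pm_213_s1 : CertF 0 536870912 0 1230186008 134217728 67108864 false true false .pnn 2 1 3
    ndF0q2 ndF5q3 pcF1 cut_B05pm_213_s1 xt_B05pm_213_s1 :=
  certFK0 (fam := false) (s1 := true) (s2 := false) (a := 2) (b := 1) (c := 3) (cn := .pnn) (n1 := ndF0q2) (n2 := ndF5q3) (pc := pcF1) (cut := cut_B05pm_213_s1) (xt := xt_B05pm_213_s1) (P1 := 0) (W1 := 536870912) (P2 := 0) (W2 := 1230186008) (P3 := 134217728) (W3 := 67108864)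
    rfl rfl rfl k0_B05pm_213_s1

theorem s_B05pm_213_s1 {κ x : ℝ} (hκ : κ * h0 = ken x) (hx : ((134217728 : ℕ) : ℝ) / S ≤ x)
    (hx' : x ≤ (((134217728 : ℕ) : ℝ) + (67108864 : ℕ)) / S)
    (H : CutB (VF κ) PP tKF tL pcF (Cut.of [[⟨0, 1, 0, 39843005⟩, ⟨1, 1, 0, 39843005⟩, ⟨2, 2, 0, 5814905⟩]]) 2 1 3 0 5 (sgb true) (sgb false) x) :
    AltB (VF κ) PP tKF tL pcF [⟨3, 0, 0, 1449551462⟩] 2 1 3 0 5 (sgb true) (sgb false) x :=
  strip_altB (m := 1449551462) true rfl hκ covF02 covF53 hx hx' c_B05pm_213_s1 H ((okx hx hx').extB (T := tt) (sideF hx hx') hκ rfl rfl (.O 2 true) (.N 3 false) (Or.inr rfl))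

noncomputable def cut_B05mm_001_s1 : Cut := Cut.of [[⟨4, 0, 0, 1449551462⟩]]

noncomputable def f_B05mm_001_s1 : ℕ → ℕ → ℕ → ℕ → Bool := onCell 0 536870912 0 536870912 134217728 67108864
    (rowFK 1 false false false .up 0 0 1 (qsf 0 536870912 536870912 536870912 0) ndF0q0 ndF5q1 pcF0 cut_B05mm_001_s1 Ext.none)

def k0_B05mm_001_s1 : ∃ t, chk3 f_B05mm_001_s1 t 1 1 1 = true :=
  ⟨(l 3), by decide +kernel⟩

theorem c_B05mm_001_s1 : CertF 0 536870912 536870912 536870912 134217728 67108864 false false false .up 0 0 1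
    ndF0q0 ndF5q1 pcF0 cut_B05mm_001_s1 Ext.none :=
  certFK1 (fam := false) (s1 := false) (s2 := false) (a := 0) (b := 0) (c := 1) (cn := .up) (n1 := ndF0q0) (n2 := ndF5q1) (pc := pcF0) (cut := cut_B05mm_001_s1) (xt := Ext.none) (P1 := 0) (W1 := 536870912) (P2 := 536870912) (W2 := 536870912) (P3 := 134217728) (W3 := 67108864)
    rfl rfl rfl (fun _ => rfl) k0_B05mm_001_s1

theorem s_B05mm_001_s1 {κ x : ℝ} (hκ : κ * h0 = ken x) (hx : ((134217728 : ℕ) : ℝ) / S ≤ x)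
    (hx' : x ≤ (((134217728 : ℕ) : ℝ) + (67108864 : ℕ)) / S) :
    AltB (VF κ) PP tKF tL pcF [⟨3, 0, 0, 1449551462⟩] 0 0 1 0 5 (sgb false) (sgb false) x :=
  strip_altB (m := 1449551462) true rfl hκ covF00 covF51 hx hx' c_B05mm_001_s1 cutB_nil (noExt_B)

noncomputable def cut_B05mm_011_s1 : Cut := Cut.of [[⟨4, 0, 0, 1449551462⟩]]

noncomputable def f_B05mm_011_s1 : ℕ → ℕ → ℕ → ℕ → Bool := onCell 0 536870912 536870912 536870912 134217728 67108864
    (rowFK 1 false false false .pnn 0 1 1 (qsf 0 536870912 536870912 536870912 1) ndF0q0 ndF5q1 pcF1 cut_B05mm_011_s1 Ext.none)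

def k0_B05mm_011_s1 : ∃ t, chk3 f_B05mm_011_s1 t 1 1 1 = true :=
  ⟨(l 5), by decide +kernel⟩

theorem c_B05mm_011_s1 : CertF 0 536870912 536870912 536870912 134217728 67108864 false false false .pnn 0 1 1
    ndF0q0 ndF5q1 pcF1 cut_B05mm_011_s1 Ext.none :=
  certFK1 (fam := false) (s1 := false) (s2 := false) (a := 0) (b := 1) (c := 1) (cn := .pnn) (n1 := ndF0q0) (n2 := ndF5q1) (pc := pcF1) (cut := cut_B05mm_011_s1) (xt := Ext.none) (P1 := 0) (W1 := 536870912) (P2 := 536870912) (W2 := 536870912) (P3 := 134217728) (W3 := 67108864)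
    rfl rfl rfl (fun _ => rfl) k0_B05mm_011_s1

theorem s_B05mm_011_s1 {κ x : ℝ} (hκ : κ * h0 = ken x) (hx : ((134217728 : ℕ) : ℝ) / S ≤ x)
    (hx' : x ≤ (((134217728 : ℕ) : ℝ) + (67108864 : ℕ)) / S) :
    AltB (VF κ) PP tKF tL pcF [⟨3, 0, 0, 1449551462⟩] 0 1 1 0 5 (sgb false) (sgb false) x :=
  strip_altB (m := 1449551462) true rfl hκ covF00 covF51 hx hx' c_B05mm_011_s1 cutB_nil (noExt_B)

noncomputable def cut_B05mm_012_s1 : Cut := Cut.of [[⟨4, 0, 0, 1449551462⟩]]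

noncomputable def f_B05mm_012_s1 : ℕ → ℕ → ℕ → ℕ → Bool := onCell 0 536870912 1073741824 536870912 134217728 67108864
    (rowFK 0 false false false .pnp 0 1 2 (qsf 0 536870912 1073741824 536870912 1) ndF0q0 ndF5q2 pcF1 cut_B05mm_012_s1 Ext.none)

def k0_B05mm_012_s1 : ∃ t, chk3 f_B05mm_012_s1 t 1 1 1 = true :=
  ⟨(l 5), by decide +kernel⟩

theorem c_B05mm_012_s1 : CertF 0 536870912 1073741824 536870912 134217728 67108864 false false false .pnp 0 1 2
    ndF0q0 ndF5q2 pcF1 cut_B05mm_012_s1 Ext.none :=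
  certFK0 (fam := false) (s1 := false) (s2 := false) (a := 0) (b := 1) (c := 2) (cn := .pnp) (n1 := ndF0q0) (n2 := ndF5q2) (pc := pcF1) (cut := cut_B05mm_012_s1) (xt := Ext.none) (P1 := 0) (W1 := 536870912) (P2 := 1073741824) (W2 := 536870912) (P3 := 134217728) (W3 := 67108864)
    rfl rfl rfl k0_B05mm_012_s1

theorem s_B05mm_012_s1 {κ x : ℝ} (hκ : κ * h0 = ken x) (hx : ((134217728 : ℕ) : ℝ) / S ≤ x)
    (hx' : x ≤ (((134217728 : ℕ) : ℝ) + (67108864 : ℕ)) / S) :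
    AltB (VF κ) PP tKF tL pcF [⟨3, 0, 0, 1449551462⟩] 0 1 2 0 5 (sgb false) (sgb false) x :=
  strip_altB (m := 1449551462) true rfl hκ covF00 covF52 hx hx' c_B05mm_012_s1 cutB_nil (noExt_B)

noncomputable def cut_B05mm_022_s1 : Cut := Cut.of [[⟨4, 0, 0, 1449551462⟩]]

noncomputable def f_B05mm_022_s1 : ℕ → ℕ → ℕ → ℕ → Bool := onCell 0 536870912 1073741824 536870912 134217728 67108864
    (rowFK 0 false false false .pp 0 2 2 (qsf 0 536870912 1073741824 536870912 2) ndF0q0 ndF5q2 pcF2 cut_B05mm_022_s1 Ext.none)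

def k0_B05mm_022_s1 : ∃ t, chk3 f_B05mm_022_s1 t 1 1 1 = true :=
  ⟨(l 5), by decide +kernel⟩

theorem c_B05mm_022_s1 : CertF 0 536870912 1073741824 536870912 134217728 67108864 false false false .pp 0 2 2
    ndF0q0 ndF5q2 pcF2 cut_B05mm_022_s1 Ext.none :=
  certFK0 (fam := false) (s1 := false) (s2 := false) (a := 0) (b := 2) (c := 2) (cn := .pp) (n1 := ndF0q0) (n2 := ndF5q2) (pc := pcF2) (cut := cut_B05mm_022_s1) (xt := Ext.none) (P1 := 0) (W1 := 536870912) (P2 := 1073741824) (W2 := 536870912) (P3 := 134217728) (W3 := 67108864)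
    rfl rfl rfl k0_B05mm_022_s1

theorem s_B05mm_022_s1 {κ x : ℝ} (hκ : κ * h0 = ken x) (hx : ((134217728 : ℕ) : ℝ) / S ≤ x)
    (hx' : x ≤ (((134217728 : ℕ) : ℝ) + (67108864 : ℕ)) / S) :
    AltB (VF κ) PP tKF tL pcF [⟨3, 0, 0, 1449551462⟩] 0 2 2 0 5 (sgb false) (sgb false) x :=
  strip_altB (m := 1449551462) true rfl hκ covF00 covF52 hx hx' c_B05mm_022_s1 cutB_nil (noExt_B)

noncomputable def cut_B05mm_023_s1 : Cut := Cut.of [[⟨4, 0, 0, 1449551462⟩]]

noncomputable def f_B05mm_023_s1 : ℕ → ℕ → ℕ → ℕ → Bool := onCell 0 536870912 0 1230186008 134217728 67108864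
    (rowFK 0 false false false .up 0 2 3 (qsf 0 536870912 0 1230186008 2) ndF0q0 ndF5q3 pcF2 cut_B05mm_023_s1 Ext.none)

def k0_B05mm_023_s1 : ∃ t, chk3 f_B05mm_023_s1 t 1 1 1 = true :=
  ⟨(l 5), by decide +kernel⟩

theorem c_B05mm_023_s1 : CertF 0 536870912 0 1230186008 134217728 67108864 false false false .up 0 2 3
    ndF0q0 ndF5q3 pcF2 cut_B05mm_023_s1 Ext.none :=
  certFK0 (fam := false) (s1 := false) (s2 := false) (a := 0) (b := 2) (c := 3) (cn := .up) (n1 := ndF0q0) (n2 := ndF5q3) (pc := pcF2) (cut := cut_B05mm_023_s1) (xt := Ext.none) (P1 := 0) (W1 := 536870912) (P2 := 0) (W2 := 1230186008) (P3 := 134217728) (W3 := 67108864)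
    rfl rfl rfl k0_B05mm_023_s1

theorem s_B05mm_023_s1 {κ x : ℝ} (hκ : κ * h0 = ken x) (hx : ((134217728 : ℕ) : ℝ) / S ≤ x)
    (hx' : x ≤ (((134217728 : ℕ) : ℝ) + (67108864 : ℕ)) / S) :
    AltB (VF κ) PP tKF tL pcF [⟨3, 0, 0, 1449551462⟩] 0 2 3 0 5 (sgb false) (sgb false) x :=
  strip_altB (m := 1449551462) true rfl hκ covF00 covF53 hx hx' c_B05mm_023_s1 cutB_nil (noExt_B)

noncomputable def cut_B05mm_033_s1 : Cut := Cut.of [[⟨4, 0, 0, 1449551462⟩]]

noncomputable def f_B05mm_033_s1 : ℕ → ℕ → ℕ → ℕ → Bool := onCell 0 536870912 0 1230186008 134217728 67108864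
    (rowFK 0 false false false .pnn 0 3 3 (qsf 0 536870912 0 1230186008 3) ndF0q0 ndF5q3 pcF3 cut_B05mm_033_s1 Ext.none)

def k0_B05mm_033_s1 : ∃ t, chk3 f_B05mm_033_s1 t 1 1 1 = true :=
  ⟨(l 5), by decide +kernel⟩

theorem c_B05mm_033_s1 : CertF 0 536870912 0 1230186008 134217728 67108864 false false false .pnn 0 3 3
    ndF0q0 ndF5q3 pcF3 cut_B05mm_033_s1 Ext.none :=
  certFK0 (fam := false) (s1 := false) (s2 := false) (a := 0) (b := 3) (c := 3) (cn := .pnn) (n1 := ndF0q0) (n2 := ndF5q3) (pc := pcF3) (cut := cut_B05mm_033_s1) (xt := Ext.none) (P1 := 0) (W1 := 536870912) (P2 := 0) (W2 := 1230186008) (P3 := 134217728) (W3 := 67108864)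
    rfl rfl rfl k0_B05mm_033_s1

theorem s_B05mm_033_s1 {κ x : ℝ} (hκ : κ * h0 = ken x) (hx : ((134217728 : ℕ) : ℝ) / S ≤ x)
    (hx' : x ≤ (((134217728 : ℕ) : ℝ) + (67108864 : ℕ)) / S) :
    AltB (VF κ) PP tKF tL pcF [⟨3, 0, 0, 1449551462⟩] 0 3 3 0 5 (sgb false) (sgb false) x :=
  strip_altB (m := 1449551462) true rfl hκ covF00 covF53 hx hx' c_B05mm_033_s1 cutB_nil (noExt_B)

noncomputable def cut_B05mm_101_s1 : Cut := Cut.of [[⟨4, 0, 0, 1449551462⟩], [⟨0, 1, 0, 67108864⟩, ⟨1, 0, 0, 67108864⟩, ⟨2, 1, 0, 67108864⟩]]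

noncomputable def f_B05mm_101_s1 : ℕ → ℕ → ℕ → ℕ → Bool := onCell 536870912 536870912 0 536870912 134217728 67108864
    (rowFK 1 false false false .npn 1 0 1 (qsf 536870912 536870912 536870912 536870912 0) ndF0q1 ndF5q1 pcF0 cut_B05mm_101_s1 Ext.none)

def k0_B05mm_101_s1 : ∃ t, chk3 f_B05mm_101_s1 t 1 1 1 = true :=
  ⟨(a (l 3) (b (a (l 3) (b (a (l 3) (b (a (l 3) (b (l 14) (l 3))) (l 3))) (l 3))) (l 3))), by decide +kernel⟩

theorem c_B05mm_101_s1 : CertF 536870912 536870912 536870912 536870912 134217728 67108864 false false false .npn 1 0 1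
    ndF0q1 ndF5q1 pcF0 cut_B05mm_101_s1 Ext.none :=
  certFK1 (fam := false) (s1 := false) (s2 := false) (a := 1) (b := 0) (c := 1) (cn := .npn) (n1 := ndF0q1) (n2 := ndF5q1) (pc := pcF0) (cut := cut_B05mm_101_s1) (xt := Ext.none) (P1 := 536870912) (W1 := 536870912) (P2 := 536870912) (W2 := 536870912) (P3 := 134217728) (W3 := 67108864)
    rfl rfl rfl (fun _ => rfl) k0_B05mm_101_s1

theorem s_B05mm_101_s1 {κ x : ℝ} (hκ : κ * h0 = ken x) (hx : ((134217728 : ℕ) : ℝ) / S ≤ x)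
    (hx' : x ≤ (((134217728 : ℕ) : ℝ) + (67108864 : ℕ)) / S)
    (H : CutB (VF κ) PP tKF tL pcF (Cut.of [[⟨0, 1, 0, 67108864⟩, ⟨1, 0, 0, 67108864⟩, ⟨2, 1, 0, 67108864⟩]]) 1 0 1 0 5 (sgb false) (sgb false) x) :
    AltB (VF κ) PP tKF tL pcF [⟨3, 0, 0, 1449551462⟩] 1 0 1 0 5 (sgb false) (sgb false) x :=
  strip_altB (m := 1449551462) true rfl hκ covF01 covF51 hx hx' c_B05mm_101_s1 H (noExt_B)

noncomputable def cut_B05mm_102_s1 : Cut := Cut.of [[⟨4, 0, 0, 1449551462⟩], [⟨0, 1, 0, 67108864⟩, ⟨1, 0, 0, 67108864⟩, ⟨2, 1, 0, 67108864⟩]]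

noncomputable def f_B05mm_102_s1 : ℕ → ℕ → ℕ → ℕ → Bool := onCell 536870912 536870912 0 536870912 134217728 67108864
    (rowFK 1 false false false .npp 1 0 2 (qsf 536870912 536870912 1073741824 536870912 0) ndF0q1 ndF5q2 pcF0 cut_B05mm_102_s1 Ext.none)

def k0_B05mm_102_s1 : ∃ t, chk3 f_B05mm_102_s1 t 1 1 1 = true :=
  ⟨(b (a (l 3) (a (l 3) (b (a (l 3) (a (l 3) (b (b (l 14) (l 3)) (l 3)))) (l 3)))) (l 3)), by decide +kernel⟩

theorem c_B05mm_102_s1 : CertF 536870912 536870912 1073741824 536870912 134217728 67108864 false false false .npp 1 0 2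
    ndF0q1 ndF5q2 pcF0 cut_B05mm_102_s1 Ext.none :=
  certFK1 (fam := false) (s1 := false) (s2 := false) (a := 1) (b := 0) (c := 2) (cn := .npp) (n1 := ndF0q1) (n2 := ndF5q2) (pc := pcF0) (cut := cut_B05mm_102_s1) (xt := Ext.none) (P1 := 536870912) (W1 := 536870912) (P2 := 1073741824) (W2 := 536870912) (P3 := 134217728) (W3 := 67108864)
    rfl rfl rfl (fun _ => rfl) k0_B05mm_102_s1

theorem s_B05mm_102_s1 {κ x : ℝ} (hκ : κ * h0 = ken x) (hx : ((134217728 : ℕ) : ℝ) / S ≤ x)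
    (hx' : x ≤ (((134217728 : ℕ) : ℝ) + (67108864 : ℕ)) / S)
    (H : CutB (VF κ) PP tKF tL pcF (Cut.of [[⟨0, 1, 0, 67108864⟩, ⟨1, 0, 0, 67108864⟩, ⟨2, 1, 0, 67108864⟩]]) 1 0 2 0 5 (sgb false) (sgb false) x) :
    AltB (VF κ) PP tKF tL pcF [⟨3, 0, 0, 1449551462⟩] 1 0 2 0 5 (sgb false) (sgb false) x :=
  strip_altB (m := 1449551462) true rfl hκ covF01 covF52 hx hx' c_B05mm_102_s1 H (noExt_B)

noncomputable def cut_B05mm_112_s1 : Cut := Cut.of [[⟨4, 0, 0, 1449551462⟩]]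

noncomputable def f_B05mm_112_s1 : ℕ → ℕ → ℕ → ℕ → Bool := onCell 536870912 536870912 1073741824 536870912 134217728 67108864
    (rowFK 2 false false false .dn 1 1 2 (qsf 536870912 536870912 1073741824 536870912 1) ndF0q1 ndF5q2 pcF1 cut_B05mm_112_s1 Ext.none)

def k0_B05mm_112_s1 : ∃ t, chk3 f_B05mm_112_s1 t 1 1 1 = true :=
  ⟨(a (l 3) (l 5)), by decide +kernel⟩

theorem c_B05mm_112_s1 : CertF 536870912 536870912 1073741824 536870912 134217728 67108864 false false false .dn 1 1 2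
    ndF0q1 ndF5q2 pcF1 cut_B05mm_112_s1 Ext.none :=
  certFK2 (fam := false) (s1 := false) (s2 := false) (a := 1) (b := 1) (c := 2) (cn := .dn) (n1 := ndF0q1) (n2 := ndF5q2) (pc := pcF1) (cut := cut_B05mm_112_s1) (xt := Ext.none) (P1 := 536870912) (W1 := 536870912) (P2 := 1073741824) (W2 := 536870912) (P3 := 134217728) (W3 := 67108864)
    rfl rfl rfl (fun _ => rfl) k0_B05mm_112_s1

theorem s_B05mm_112_s1 {κ x : ℝ} (hκ : κ * h0 = ken x) (hx : ((134217728 : ℕ) : ℝ) / S ≤ x)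
    (hx' : x ≤ (((134217728 : ℕ) : ℝ) + (67108864 : ℕ)) / S) :
    AltB (VF κ) PP tKF tL pcF [⟨3, 0, 0, 1449551462⟩] 1 1 2 0 5 (sgb false) (sgb false) x :=
  strip_altB (m := 1449551462) true rfl hκ covF01 covF52 hx hx' c_B05mm_112_s1 cutB_nil (noExt_B)

noncomputable def cut_B05mm_113_s1 : Cut := Cut.of [[⟨4, 0, 0, 1449551462⟩]]

noncomputable def f_B05mm_113_s1 : ℕ → ℕ → ℕ → ℕ → Bool := onCell 536870912 536870912 0 1230186008 134217728 67108864
    (rowFK 0 false false false .nn 1 1 3 (qsf 536870912 536870912 0 1230186008 1) ndF0q1 ndF5q3 pcF1 cut_B05mm_113_s1 Ext.none)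

def k0_B05mm_113_s1 : ∃ t, chk3 f_B05mm_113_s1 t 1 1 1 = true :=
  ⟨(b (l 5) (a (l 5) (b (a (l 5) (l 3)) (l 3)))), by decide +kernel⟩

theorem c_B05mm_113_s1 : CertF 536870912 536870912 0 1230186008 134217728 67108864 false false false .nn 1 1 3
    ndF0q1 ndF5q3 pcF1 cut_B05mm_113_s1 Ext.none :=
  certFK0 (fam := false) (s1 := false) (s2 := false) (a := 1) (b := 1) (c := 3) (cn := .nn) (n1 := ndF0q1) (n2 := ndF5q3) (pc := pcF1) (cut := cut_B05mm_113_s1) (xt := Ext.none) (P1 := 536870912) (W1 := 536870912) (P2 := 0) (W2 := 1230186008) (P3 := 134217728) (W3 := 67108864)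
    rfl rfl rfl k0_B05mm_113_s1

theorem s_B05mm_113_s1 {κ x : ℝ} (hκ : κ * h0 = ken x) (hx : ((134217728 : ℕ) : ℝ) / S ≤ x)
    (hx' : x ≤ (((134217728 : ℕ) : ℝ) + (67108864 : ℕ)) / S) :
    AltB (VF κ) PP tKF tL pcF [⟨3, 0, 0, 1449551462⟩] 1 1 3 0 5 (sgb false) (sgb false) x :=
  strip_altB (m := 1449551462) true rfl hκ covF01 covF53 hx hx' c_B05mm_113_s1 cutB_nil (noExt_B)

noncomputable def cut_B05mm_123_s1 : Cut := Cut.of [[⟨4, 0, 0, 1449551462⟩]]

noncomputable def f_B05mm_123_s1 : ℕ → ℕ → ℕ → ℕ → Bool := onCell 1073741824 536870912 0 1230186008 134217728 67108864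
    (rowFK 2 false false false .npn 1 2 3 (qsf 536870912 536870912 0 1230186008 2) ndF0q1 ndF5q3 pcF2 cut_B05mm_123_s1 Ext.none)

def k0_B05mm_123_s1 : ∃ t, chk3 f_B05mm_123_s1 t 1 1 1 = true :=
  ⟨(b (l 5) (l 5)), by decide +kernel⟩

theorem c_B05mm_123_s1 : CertF 536870912 536870912 0 1230186008 134217728 67108864 false false false .npn 1 2 3
    ndF0q1 ndF5q3 pcF2 cut_B05mm_123_s1 Ext.none :=
  certFK2 (fam := false) (s1 := false) (s2 := false) (a := 1) (b := 2) (c := 3) (cn := .npn) (n1 := ndF0q1) (n2 := ndF5q3) (pc := pcF2) (cut := cut_B05mm_123_s1) (xt := Ext.none) (P1 := 536870912) (W1 := 536870912) (P2 := 0) (W2 := 1230186008) (P3 := 134217728) (W3 := 67108864)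
    rfl rfl rfl (fun _ => rfl) k0_B05mm_123_s1

theorem s_B05mm_123_s1 {κ x : ℝ} (hκ : κ * h0 = ken x) (hx : ((134217728 : ℕ) : ℝ) / S ≤ x)
    (hx' : x ≤ (((134217728 : ℕ) : ℝ) + (67108864 : ℕ)) / S) :
    AltB (VF κ) PP tKF tL pcF [⟨3, 0, 0, 1449551462⟩] 1 2 3 0 5 (sgb false) (sgb false) x :=
  strip_altB (m := 1449551462) true rfl hκ covF01 covF53 hx hx' c_B05mm_123_s1 cutB_nil (noExt_B)

noncomputable def cut_B05mm_133_s1 : Cut := Cut.of [[⟨4, 0, 0, 1449551462⟩]]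

noncomputable def f_B05mm_133_s1 : ℕ → ℕ → ℕ → ℕ → Bool := onCell 1610612736 536870912 0 1230186008 134217728 67108864
    (rowFK 2 false false false .dn 1 3 3 (qsf 536870912 536870912 0 1230186008 3) ndF0q1 ndF5q3 pcF3 cut_B05mm_133_s1 Ext.none)

def k0_B05mm_133_s1 : ∃ t, chk3 f_B05mm_133_s1 t 1 1 1 = true :=
  ⟨(l 5), by decide +kernel⟩

theorem c_B05mm_133_s1 : CertF 536870912 536870912 0 1230186008 134217728 67108864 false false false .dn 1 3 3
    ndF0q1 ndF5q3 pcF3 cut_B05mm_133_s1 Ext.none :=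
  certFK2 (fam := false) (s1 := false) (s2 := false) (a := 1) (b := 3) (c := 3) (cn := .dn) (n1 := ndF0q1) (n2 := ndF5q3) (pc := pcF3) (cut := cut_B05mm_133_s1) (xt := Ext.none) (P1 := 536870912) (W1 := 536870912) (P2 := 0) (W2 := 1230186008) (P3 := 134217728) (W3 := 67108864)
    rfl rfl rfl (fun _ => rfl) k0_B05mm_133_s1

theorem s_B05mm_133_s1 {κ x : ℝ} (hκ : κ * h0 = ken x) (hx : ((134217728 : ℕ) : ℝ) / S ≤ x)
    (hx' : x ≤ (((134217728 : ℕ) : ℝ) + (67108864 : ℕ)) / S) :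
    AltB (VF κ) PP tKF tL pcF [⟨3, 0, 0, 1449551462⟩] 1 3 3 0 5 (sgb false) (sgb false) x :=
  strip_altB (m := 1449551462) true rfl hκ covF01 covF53 hx hx' c_B05mm_133_s1 cutB_nil (noExt_B)

noncomputable def cut_B05mm_202_s1 : Cut := Cut.of [[⟨4, 0, 0, 1449551462⟩], [⟨0, 1, 0, 67108864⟩, ⟨1, 0, 0, 67108864⟩, ⟨2, 1, 0, 67108864⟩]]

noncomputable def xt_B05mm_202_s1 : Ext := strExt dd false false false .u2 .s2m .u0m .pp 2 0 2 rfl rfl gf0 vv ndF0q2 ndF5q2

noncomputable def f_B05mm_202_s1 : ℕ → ℕ → ℕ → ℕ → Bool := onCell 0 536870912 0 536870912 134217728 67108864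
    (rowFK 1 false false false .pp 2 0 2 (qsf 0 536870912 1073741824 536870912 0) ndF0q2 ndF5q2 pcF0 cut_B05mm_202_s1 xt_B05mm_202_s1)

def k0_B05mm_202_s1 : ∃ t, chk3 f_B05mm_202_s1 t 1 2 1 = true :=
  ⟨(a (a (b (l 6) (b (l 6) (a (l 6) (l 17328752)))) (b (b (a (l 6) (b (l 6) (l 17173512))) (a (b (l 6) (l 17250448)) (b (l 17033232) (l 17171456)))) (b (a (b (l 17311944) (l 17313960)) (b (l 17200344) (l 17162008))) (a (b (l 17253832) (l 17182632)) (b (a (l 17135712) (l 17057280)) (l 17028656)))))) (b (a (b (a (b (l 17517776) (l 16937408)) (b (b (l 17213168) (l 16924064)) (b (l 16795648) (l 16867792)))) (a (b (l 16896272) (a (l 17077256) (l 16990696))) (b (a (l 16783024) (b (l 16700680) (l 16733576))) (a (b (l 16885264) (l 16914048)) (l 16744712))))) (b (a (b (a (b (l 16792760) (l 16796104)) (b (a (l 16863776) (b (l 14) (l 16801008))) (a (l 16826504) (l 16827432)))) (a (b (l 16813704) (l 16800048)) (b (b (l 16788280)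 (l 16765848)) (a (l 16775496) (l 16766624))))) (b (a (b (l 14) (a (b (l 14) (l 16787496)) (l 14))) (l 14)) (a (a (a (b (b (l 16742080) (l 16748184)) (l 531966735)) (l 532596751)) (a (a (l 531771663) (l 531745039)) (a (l 531717647) (l 532226063)))) (b (a (a (a (l 531718415) (l 531686671)) (l 3)) (l 3)) (l 3))))) (a (a (b (b (a (l 16711960) (l 16725840)) (l 16815064)) (l 537101839)) (a (b (l 532125455) (l 532605199)) (b (a (l 532112655) (l 532064015)) (a (l 532246543) (l 3))))) (b (a (a (a (l 532012303) (l 531958031)) (l 3)) (l 3)) (l 3))))) (a (a (b (b (a (l 17080048) (l 16996088)) (l 16827672)) (a (b (l 16976840) (l 16908104)) (l 548516879))) (b (a (l 547623951) (b (l 545381903) (l 547748623))) (b (l 548929551) (a (l 549178895) (l 3))))) (b (a (a (l 545913359) (l 3)) (l 3)) (l 3))))), by decide +kernel⟩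

def k1_B05mm_202_s1 : ∃ t, chk3 f_B05mm_202_s1 t 1 3 1 = true :=
  ⟨(a (a (b (b (a (l 17312336) (b (l 17257472) (l 17189600))) (a (l 17657616) (l 224513074455))) (l 2)) (b (a (b (l 16993888) (a (l 16977560) (l 547059215))) (b (a (l 16837440) (l 547848463)) (l 547825423))) (a (l 2) (b (l 548140559) (l 2))))) (b (a (a (b (l 548680463) (l 3)) (l 3)) (l 3)) (l 3))), by decide +kernel⟩

theorem t2_B05mm_202_s1 : ∃ t, chk3 f_B05mm_202_s1 t 1 1 1 = true := ex3_b k0_B05mm_202_s1 k1_B05mm_202_s1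

theorem c_B05mm_202_s1 : CertF 0 536870912 1073741824 536870912 134217728 67108864 false false false .pp 2 0 2
    ndF0q2 ndF5q2 pcF0 cut_B05mm_202_s1 xt_B05mm_202_s1 :=
  certFK1 (fam := false) (s1 := false) (s2 := false) (a := 2) (b := 0) (c := 2) (cn := .pp) (n1 := ndF0q2) (n2 := ndF5q2) (pc := pcF0) (cut := cut_B05mm_202_s1) (xt := xt_B05mm_202_s1) (P1 := 0) (W1 := 536870912) (P2 := 1073741824) (W2 := 536870912) (P3 := 134217728) (W3 := 67108864)
    rfl rfl rfl (fun _ => rfl) t2_B05mm_202_s1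

theorem s_B05mm_202_s1 {κ x : ℝ} (hκ : κ * h0 = ken x) (hx : ((134217728 : ℕ) : ℝ) / S ≤ x)
    (hx' : x ≤ (((134217728 : ℕ) : ℝ) + (67108864 : ℕ)) / S)
    (H : CutB (VF κ) PP tKF tL pcF (Cut.of [[⟨0, 1, 0, 67108864⟩, ⟨1, 0, 0, 67108864⟩, ⟨2, 1, 0, 67108864⟩]]) 2 0 2 0 5 (sgb false) (sgb false) x) :
    AltB (VF κ) PP tKF tL pcF [⟨3, 0, 0, 1449551462⟩] 2 0 2 0 5 (sgb false) (sgb false) x :=
  strip_altB (m := 1449551462) true rfl hκ covF02 covF52 hx hx' c_B05mm_202_s1 H ((okx hx hx').extB (T := tt) (sideF hx hx') hκ rfl rfl (.O 2 false) (.N 2 false) (Or.inl rfl))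

noncomputable def cut_B05mm_203_s1 : Cut := Cut.of [[⟨4, 0, 0, 1449551462⟩]]

noncomputable def xt_B05mm_203_s1 : Ext := strExt dd false false false .u2 .s2m .u0m .up 2 0 3 rfl rfl gf0 vv ndF0q2 ndF5q3

noncomputable def f_B05mm_203_s1 : ℕ → ℕ → ℕ → ℕ → Bool := onCell 0 536870912 0 1230186008 134217728 67108864
    (rowFK 0 false false false .up 2 0 3 (qsf 0 536870912 0 1230186008 0) ndF0q2 ndF5q3 pcF0 cut_B05mm_203_s1 xt_B05mm_203_s1)

def k0_B05mm_203_s1 : ∃ t, chk3 f_B05mm_203_s1 t 1 1 1 = true :=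
  ⟨(b (l 2) (b (l 2) (a (a (b (b (l 2) (a (l 545694991) (a (l 546389263) (l 546949647)))) (b (a (l 545451023) (l 547740943)) (a (b (l 17114432) (l 17186832)) (l 547110671)))) (b (l 3) (b (a (l 547442959) (l 3)) (a (l 547103247) (l 548176655))))) (l 3)))), by decide +kernel⟩

theorem c_B05mm_203_s1 : CertF 0 536870912 0 1230186008 134217728 67108864 false false false .up 2 0 3
    ndF0q2 ndF5q3 pcF0 cut_B05mm_203_s1 xt_B05mm_203_s1 :=
  certFK0 (fam := false) (s1 := false) (s2 := false) (a := 2) (b := 0) (c := 3) (cn := .up) (n1 := ndF0q2) (n2 := ndF5q3) (pc := pcF0) (cut := cut_B05mm_203_s1) (xt := xt_B05mm_203_s1) (P1 := 0) (W1 := 536870912) (P2 := 0) (W2 := 1230186008) (P3 := 134217728) (W3 := 67108864)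
    rfl rfl rfl k0_B05mm_203_s1

theorem s_B05mm_203_s1 {κ x : ℝ} (hκ : κ * h0 = ken x) (hx : ((134217728 : ℕ) : ℝ) / S ≤ x)
    (hx' : x ≤ (((134217728 : ℕ) : ℝ) + (67108864 : ℕ)) / S) :
    AltB (VF κ) PP tKF tL pcF [⟨3, 0, 0, 1449551462⟩] 2 0 3 0 5 (sgb false) (sgb false) x :=
  strip_altB (m := 1449551462) true rfl hκ covF02 covF53 hx hx' c_B05mm_203_s1 cutB_nil ((okx hx hx').extB (T := tt) (sideF hx hx') hκ rfl rfl (.O 2 false) (.N 3 false) (Or.inl rfl))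

noncomputable def cut_B05mm_213_s1 : Cut := Cut.of [[⟨4, 0, 0, 1449551462⟩]]

noncomputable def xt_B05mm_213_s1 : Ext := strExt dd false false false .u2 .s2m .u0m .pnn 2 1 3 rfl rfl gf1 vv ndF0q2 ndF5q3

noncomputable def f_B05mm_213_s1 : ℕ → ℕ → ℕ → ℕ → Bool := onCell 0 536870912 0 1230186008 134217728 67108864
    (rowFK 0 false false false .pnn 2 1 3 (qsf 0 536870912 0 1230186008 1) ndF0q2 ndF5q3 pcF1 cut_B05mm_213_s1 xt_B05mm_213_s1)

def k0_B05mm_213_s1 : ∃ t, chk3 f_B05mm_213_s1 t 1 1 1 = true :=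
  ⟨(b (a (l 3) (b (l 5) (l 3))) (b (b (l 3) (a (a (l 3) (l 3)) (l 3))) (a (b (a (b (a (l 540366095) (l 3)) (a (l 541647631) (a (l 541480207) (l 541319951)))) (l 3)) (a (l 1) (b (a (l 1) (l 3)) (l 1)))) (l 3)))), by decide +kernel⟩

theorem c_B05mm_213_s1 : CertF 0 536870912 0 1230186008 134217728 67108864 false false false .pnn 2 1 3
    ndF0q2 ndF5q3 pcF1 cut_B05mm_213_s1 xt_B05mm_213_s1 :=
  certFK0 (fam := false) (s1 := false) (s2 := false) (a := 2) (b := 1) (c := 3) (cn := .pnn) (n1 := ndF0q2) (n2 := ndF5q3) (pc := pcF1) (cut := cut_B05mm_213_s1) (xt := xt_B05mm_213_s1) (P1 := 0) (W1 := 536870912) (P2 := 0) (W2 := 1230186008) (P3 := 134217728) (W3 := 67108864)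
    rfl rfl rfl k0_B05mm_213_s1

theorem s_B05mm_213_s1 {κ x : ℝ} (hκ : κ * h0 = ken x) (hx : ((134217728 : ℕ) : ℝ) / S ≤ x)
    (hx' : x ≤ (((134217728 : ℕ) : ℝ) + (67108864 : ℕ)) / S) :
    AltB (VF κ) PP tKF tL pcF [⟨3, 0, 0, 1449551462⟩] 2 1 3 0 5 (sgb false) (sgb false) x :=
  strip_altB (m := 1449551462) true rfl hκ covF02 covF53 hx hx' c_B05mm_213_s1 cutB_nil ((okx hx hx').extB (T := tt) (sideF hx hx') hκ rfl rfl (.O 2 false) (.N 3 false) (Or.inr rfl))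

noncomputable def cut_B50pp_001_s1 : Cut := Cut.of [[⟨4, 0, 0, 1449551462⟩]]

noncomputable def xt_B50pp_001_s1 : Ext := strExt dd false true true .s0 .u0 .u0m .up 0 0 1 rfl rfl gf0 vv ndF5q0 ndF0q1

noncomputable def f_B50pp_001_s1 : ℕ → ℕ → ℕ → ℕ → Bool := onCell 0 536870912 536870912 536870912 134217728 67108864
    (rowFK 2 false true true .up 0 0 1 (qsf 0 536870912 536870912 536870912 0) ndF5q0 ndF0q1 pcF0 cut_B50pp_001_s1 xt_B50pp_001_s1)

def k0_B50pp_001_s1 : ∃ t, chk3 f_B50pp_001_s1 t 1 1 1 = true :=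
  ⟨(a (b (l 3) (b (b (l 3) (l 2)) (l 2))) (a (b (l 3) (b (b (a (l 554226703) (l 552419855)) (a (l 553443087) (l 551691535))) (b (a (l 2) (l 186395352759)) (l 2)))) (b (b (l 3) (b (a (l 3) (b (l 549431823) (l 549485071))) (a (l 551091727) (l 549355791)))) (b (a (b (l 550606607) (l 549928975)) (b (l 548869135) (l 17330808))) (b (a (l 17526656) (l 17332248)) (a (l 17496488) (l 17526360))))))), by decide +kernel⟩

theorem c_B50pp_001_s1 : CertF 0 536870912 536870912 536870912 134217728 67108864 false true true .up 0 0 1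
    ndF5q0 ndF0q1 pcF0 cut_B50pp_001_s1 xt_B50pp_001_s1 :=
  certFK2 (fam := false) (s1 := true) (s2 := true) (a := 0) (b := 0) (c := 1) (cn := .up) (n1 := ndF5q0) (n2 := ndF0q1) (pc := pcF0) (cut := cut_B50pp_001_s1) (xt := xt_B50pp_001_s1) (P1 := 0) (W1 := 536870912) (P2 := 536870912) (W2 := 536870912) (P3 := 134217728) (W3 := 67108864)
    rfl rfl rfl (fun _ => rfl) k0_B50pp_001_s1

theorem s_B50pp_001_s1 {κ x : ℝ} (hκ : κ * h0 = ken x) (hx : ((134217728 : ℕ) : ℝ) / S ≤ x)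
    (hx' : x ≤ (((134217728 : ℕ) : ℝ) + (67108864 : ℕ)) / S) :
    AltB (VF κ) PP tKF tL pcF [⟨3, 0, 0, 1449551462⟩] 0 0 1 5 0 (sgb true) (sgb true) x :=
  strip_altB (m := 1449551462) true rfl hκ covF50 covF01 hx hx' c_B50pp_001_s1 cutB_nil ((okx hx hx').extB (T := tt) (sideF hx hx') hκ rfl rfl (.N 0 true) (.O 1 true) (Or.inl rfl))

noncomputable def cut_B50pp_011_s1 : Cut := Cut.of [[⟨4, 0, 0, 1449551462⟩]]

noncomputable def xt_B50pp_011_s1 : Ext := strExt dd false true true .s0 .u0 .u0m .pnn 0 1 1 rfl rfl gf1 vv ndF5q0 ndF0q1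

noncomputable def f_B50pp_011_s1 : ℕ → ℕ → ℕ → ℕ → Bool := onCell 536870912 536870912 536870912 536870912 134217728 67108864
    (rowFK 2 false true true .pnn 0 1 1 (qsf 0 536870912 536870912 536870912 1) ndF5q0 ndF0q1 pcF1 cut_B50pp_011_s1 xt_B50pp_011_s1)

def k0_B50pp_011_s1 : ∃ t, chk3 f_B50pp_011_s1 t 1 1 1 = true :=
  ⟨(a (a (b (b (a (l 559073807) (l 557675023)) (b (a (l 557874191) (l 555740687)) (a (a (l 558159887) (l 556733711)) (l 555144463)))) (b (b (a (b (l 17296192) (l 17420432)) (l 17482536)) (a (l 17613200) (l 17705384))) (b (a (l 17867408) (l 17928400)) (l 6)))) (b (b (a (a (l 556821007) (l 1)) (l 1)) (a (b (l 554304527) (l 17399640)) (b (l 17380504) (l 17533656)))) (b (b (l 18072200) (l 17835160)) (l 6)))) (b (a (b (l 1) (a (l 262566230455) (l 1))) (l 1)) (a (b (b (l 6) (l 6)) (l 6)) (l 6)))), by decide +kernel⟩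

theorem c_B50pp_011_s1 : CertF 0 536870912 536870912 536870912 134217728 67108864 false true true .pnn 0 1 1
    ndF5q0 ndF0q1 pcF1 cut_B50pp_011_s1 xt_B50pp_011_s1 :=
  certFK2 (fam := false) (s1 := true) (s2 := true) (a := 0) (b := 1) (c := 1) (cn := .pnn) (n1 := ndF5q0) (n2 := ndF0q1) (pc := pcF1) (cut := cut_B50pp_011_s1) (xt := xt_B50pp_011_s1) (P1 := 0) (W1 := 536870912) (P2 := 536870912) (W2 := 536870912) (P3 := 134217728) (W3 := 67108864)
    rfl rfl rfl (fun _ => rfl) k0_B50pp_011_s1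

theorem s_B50pp_011_s1 {κ x : ℝ} (hκ : κ * h0 = ken x) (hx : ((134217728 : ℕ) : ℝ) / S ≤ x)
    (hx' : x ≤ (((134217728 : ℕ) : ℝ) + (67108864 : ℕ)) / S) :
    AltB (VF κ) PP tKF tL pcF [⟨3, 0, 0, 1449551462⟩] 0 1 1 5 0 (sgb true) (sgb true) x :=
  strip_altB (m := 1449551462) true rfl hκ covF50 covF01 hx hx' c_B50pp_011_s1 cutB_nil ((okx hx hx').extB (T := tt) (sideF hx hx') hκ rfl rfl (.N 0 true) (.O 1 true) (Or.inr rfl))

noncomputable def cut_B50pp_012_s1 : Cut := Cut.of [[⟨4, 0, 0, 1449551462⟩]]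

noncomputable def f_B50pp_012_s1 : ℕ → ℕ → ℕ → ℕ → Bool := onCell 0 536870912 0 536870912 134217728 67108864
    (rowFK 0 false true true .pnp 0 1 2 (qsf 0 536870912 0 536870912 1) ndF5q0 ndF0q2 pcF1 cut_B50pp_012_s1 Ext.none)

def k0_B50pp_012_s1 : ∃ t, chk3 f_B50pp_012_s1 t 1 1 1 = true :=
  ⟨(a (l 6) (l 6)), by decide +kernel⟩

theorem c_B50pp_012_s1 : CertF 0 536870912 0 536870912 134217728 67108864 false true true .pnp 0 1 2
    ndF5q0 ndF0q2 pcF1 cut_B50pp_012_s1 Ext.none :=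
  certFK0 (fam := false) (s1 := true) (s2 := true) (a := 0) (b := 1) (c := 2) (cn := .pnp) (n1 := ndF5q0) (n2 := ndF0q2) (pc := pcF1) (cut := cut_B50pp_012_s1) (xt := Ext.none) (P1 := 0) (W1 := 536870912) (P2 := 0) (W2 := 536870912) (P3 := 134217728) (W3 := 67108864)
    rfl rfl rfl k0_B50pp_012_s1

theorem s_B50pp_012_s1 {κ x : ℝ} (hκ : κ * h0 = ken x) (hx : ((134217728 : ℕ) : ℝ) / S ≤ x)
    (hx' : x ≤ (((134217728 : ℕ) : ℝ) + (67108864 : ℕ)) / S) :
    AltB (VF κ) PP tKF tL pcF [⟨3, 0, 0, 1449551462⟩] 0 1 2 5 0 (sgb true) (sgb true) x :=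
  strip_altB (m := 1449551462) true rfl hκ covF50 covF02 hx hx' c_B50pp_012_s1 cutB_nil (noExt_B)

noncomputable def cut_B50pp_022_s1 : Cut := Cut.of [[⟨4, 0, 0, 1449551462⟩]]

noncomputable def f_B50pp_022_s1 : ℕ → ℕ → ℕ → ℕ → Bool := onCell 1073741824 536870912 0 536870912 134217728 67108864
    (rowFK 2 false true true .pp 0 2 2 (qsf 0 536870912 0 536870912 2) ndF5q0 ndF0q2 pcF2 cut_B50pp_022_s1 Ext.none)

def k0_B50pp_022_s1 : ∃ t, chk3 f_B50pp_022_s1 t 1 1 1 = true :=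
  ⟨(l 6), by decide +kernel⟩

theorem c_B50pp_022_s1 : CertF 0 536870912 0 536870912 134217728 67108864 false true true .pp 0 2 2
    ndF5q0 ndF0q2 pcF2 cut_B50pp_022_s1 Ext.none :=
  certFK2 (fam := false) (s1 := true) (s2 := true) (a := 0) (b := 2) (c := 2) (cn := .pp) (n1 := ndF5q0) (n2 := ndF0q2) (pc := pcF2) (cut := cut_B50pp_022_s1) (xt := Ext.none) (P1 := 0) (W1 := 536870912) (P2 := 0) (W2 := 536870912) (P3 := 134217728) (W3 := 67108864)
    rfl rfl rfl (fun _ => rfl) k0_B50pp_022_s1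

theorem s_B50pp_022_s1 {κ x : ℝ} (hκ : κ * h0 = ken x) (hx : ((134217728 : ℕ) : ℝ) / S ≤ x)
    (hx' : x ≤ (((134217728 : ℕ) : ℝ) + (67108864 : ℕ)) / S) :
    AltB (VF κ) PP tKF tL pcF [⟨3, 0, 0, 1449551462⟩] 0 2 2 5 0 (sgb true) (sgb true) x :=
  strip_altB (m := 1449551462) true rfl hκ covF50 covF02 hx hx' c_B50pp_022_s1 cutB_nil (noExt_B)

noncomputable def cut_B50pp_101_s1 : Cut := Cut.of [[⟨4, 0, 0, 1449551462⟩], [⟨0, 1, 0, 67108864⟩, ⟨1, 0, 0, 67108864⟩, ⟨2, 1, 0, 67108864⟩]]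

noncomputable def xt_B50pp_101_s1 : Ext := strExt dd false true true .s0 .u0 .u0m .npn 1 0 1 rfl rfl gf0 vv ndF5q1 ndF0q1

noncomputable def f_B50pp_101_s1 : ℕ → ℕ → ℕ → ℕ → Bool := onCell 536870912 536870912 536870912 536870912 134217728 67108864
    (rowFK 0 false true true .npn 1 0 1 (qsf 536870912 536870912 536870912 536870912 0) ndF5q1 ndF0q1 pcF0 cut_B50pp_101_s1 xt_B50pp_101_s1)

def k0_B50pp_101_s1 : ∃ t, chk3 f_B50pp_101_s1 t 1 1 1 = true :=
  ⟨(a (b (l 3) (b (a (b (a (a (l 554647567) (l 3)) (l 3)) (a (l 552553743) (b (l 554851087) (l 553557519)))) (b (l 3) (a (b (l 3) (l 554842639)) (l 3)))) (a (b (a (b (l 17153624) (l 17306616)) (b (l 552245263) (l 17215536))) (b (l 17504264) (l 17814040))) (b (a (b (l 553549327) (l 552258319)) (b (l 553638927) (l 552448783))) (a (b (l 17281152) (l 17464368)) (b (l 551264271) (l 17322384))))))) (b (l 3) (b (l 3) (a (b (b (l 3) (a (a (l 550330383) (l 546287119)) (a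 (l 537406479) (l 3)))) (a (b (l 547970319) (l 547141135)) (a (l 537904143) (b (l 531781903) (l 531310607))))) (b (l 3) (b (a (b (l 3) (a (l 531257615) (a (l 531037711) (l 3)))) (l 3)) (a (a (b (l 531174671) (l 16740392)) (a (l 531215375) (b (l 531135503) (l 531326479)))) (a (a (a (l 531606799) (l 14)) (l 14)) (l 14))))))))), by decide +kernel⟩

theorem c_B50pp_101_s1 : CertF 536870912 536870912 536870912 536870912 134217728 67108864 false true true .npn 1 0 1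
    ndF5q1 ndF0q1 pcF0 cut_B50pp_101_s1 xt_B50pp_101_s1 :=
  certFK0 (fam := false) (s1 := true) (s2 := true) (a := 1) (b := 0) (c := 1) (cn := .npn) (n1 := ndF5q1) (n2 := ndF0q1) (pc := pcF0) (cut := cut_B50pp_101_s1) (xt := xt_B50pp_101_s1) (P1 := 536870912) (W1 := 536870912) (P2 := 536870912) (W2 := 536870912) (P3 := 134217728) (W3 := 67108864)
    rfl rfl rfl k0_B50pp_101_s1

theorem s_B50pp_101_s1 {κ x : ℝ} (hκ : κ * h0 = ken x) (hx : ((134217728 : ℕ) : ℝ) / S ≤ x)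
    (hx' : x ≤ (((134217728 : ℕ) : ℝ) + (67108864 : ℕ)) / S)
    (H : CutB (VF κ) PP tKF tL pcF (Cut.of [[⟨0, 1, 0, 67108864⟩, ⟨1, 0, 0, 67108864⟩, ⟨2, 1, 0, 67108864⟩]]) 1 0 1 5 0 (sgb true) (sgb true) x) :
    AltB (VF κ) PP tKF tL pcF [⟨3, 0, 0, 1449551462⟩] 1 0 1 5 0 (sgb true) (sgb true) x :=
  strip_altB (m := 1449551462) true rfl hκ covF51 covF01 hx hx' c_B50pp_101_s1 H ((okx hx hx').extB (T := tt) (sideF hx hx') hκ rfl rfl (.N 1 true) (.O 1 true) (Or.inl rfl))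

noncomputable def cut_B50pp_102_s1 : Cut := Cut.of [[⟨4, 0, 0, 1449551462⟩], [⟨0, 1, 0, 67108864⟩, ⟨1, 0, 0, 67108864⟩, ⟨2, 1, 0, 67108864⟩]]

noncomputable def f_B50pp_102_s1 : ℕ → ℕ → ℕ → ℕ → Bool := onCell 536870912 536870912 0 536870912 134217728 67108864
    (rowFK 0 false true true .npp 1 0 2 (qsf 536870912 536870912 0 536870912 0) ndF5q1 ndF0q2 pcF0 cut_B50pp_102_s1 Ext.none)

def k0_B50pp_102_s1 : ∃ t, chk3 f_B50pp_102_s1 t 1 1 1 = true :=
  ⟨(a (b (l 6) (b (l 6) (a (l 6) (b (l 6) (b (l 17611336) (l 17541720)))))) (b (l 6) (b (a (l 6) (b (l 6) (a (l 16895328) (b (l 16808592) (l 16893952))))) (a (b (a (l 17537584) (l 17223232)) (a (b (l 17372128) (l 17233832)) (b (l 16946768) (l 16649712)))) (b (a (b (l 16601040) (l 16547384)) (a (b (l 16603056) (l 16687832)) (a (l 16841640) (l 16898952)))) (b (a (l 16683320) (a (l 16708400) (a (l 16724008) (l 14)))) (a (b (l 16722888) (l 16732984)) (a (b (l 16708032)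 (b (l 16790136) (l 16744848))) (l 14))))))))), by decide +kernel⟩

theorem c_B50pp_102_s1 : CertF 536870912 536870912 0 536870912 134217728 67108864 false true true .npp 1 0 2
    ndF5q1 ndF0q2 pcF0 cut_B50pp_102_s1 Ext.none :=
  certFK0 (fam := false) (s1 := true) (s2 := true) (a := 1) (b := 0) (c := 2) (cn := .npp) (n1 := ndF5q1) (n2 := ndF0q2) (pc := pcF0) (cut := cut_B50pp_102_s1) (xt := Ext.none) (P1 := 536870912) (W1 := 536870912) (P2 := 0) (W2 := 536870912) (P3 := 134217728) (W3 := 67108864)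
    rfl rfl rfl k0_B50pp_102_s1

theorem s_B50pp_102_s1 {κ x : ℝ} (hκ : κ * h0 = ken x) (hx : ((134217728 : ℕ) : ℝ) / S ≤ x)
    (hx' : x ≤ (((134217728 : ℕ) : ℝ) + (67108864 : ℕ)) / S)
    (H : CutB (VF κ) PP tKF tL pcF (Cut.of [[⟨0, 1, 0, 67108864⟩, ⟨1, 0, 0, 67108864⟩, ⟨2, 1, 0, 67108864⟩]]) 1 0 2 5 0 (sgb true) (sgb true) x) :
    AltB (VF κ) PP tKF tL pcF [⟨3, 0, 0, 1449551462⟩] 1 0 2 5 0 (sgb true) (sgb true) x :=
  strip_altB (m := 1449551462) true rfl hκ covF51 covF02 hx hx' c_B50pp_102_s1 H (noExt_B)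

noncomputable def cut_B50pp_112_s1 : Cut := Cut.of [[⟨4, 0, 0, 1449551462⟩]]

noncomputable def f_B50pp_112_s1 : ℕ → ℕ → ℕ → ℕ → Bool := onCell 536870912 536870912 0 536870912 134217728 67108864
    (rowFK 2 false true true .dn 1 1 2 (qsf 536870912 536870912 0 536870912 1) ndF5q1 ndF0q2 pcF1 cut_B50pp_112_s1 Ext.none)

def k0_B50pp_112_s1 : ∃ t, chk3 f_B50pp_112_s1 t 1 1 1 = true :=
  ⟨(a (l 6) (l 1)), by decide +kernel⟩

theorem c_B50pp_112_s1 : CertF 536870912 536870912 0 536870912 134217728 67108864 false true true .dn 1 1 2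
    ndF5q1 ndF0q2 pcF1 cut_B50pp_112_s1 Ext.none :=
  certFK2 (fam := false) (s1 := true) (s2 := true) (a := 1) (b := 1) (c := 2) (cn := .dn) (n1 := ndF5q1) (n2 := ndF0q2) (pc := pcF1) (cut := cut_B50pp_112_s1) (xt := Ext.none) (P1 := 536870912) (W1 := 536870912) (P2 := 0) (W2 := 536870912) (P3 := 134217728) (W3 := 67108864)
    rfl rfl rfl (fun _ => rfl) k0_B50pp_112_s1

theorem s_B50pp_112_s1 {κ x : ℝ} (hκ : κ * h0 = ken x) (hx : ((134217728 : ℕ) : ℝ) / S ≤ x)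
    (hx' : x ≤ (((134217728 : ℕ) : ℝ) + (67108864 : ℕ)) / S) :
    AltB (VF κ) PP tKF tL pcF [⟨3, 0, 0, 1449551462⟩] 1 1 2 5 0 (sgb true) (sgb true) x :=
  strip_altB (m := 1449551462) true rfl hκ covF51 covF02 hx hx' c_B50pp_112_s1 cutB_nil (noExt_B)

noncomputable def cut_B50pp_202_s1 : Cut := Cut.of [[⟨4, 0, 0, 1449551462⟩], [⟨0, 1, 0, 67108864⟩, ⟨1, 0, 0, 67108864⟩, ⟨2, 1, 0, 67108864⟩]]

noncomputable def f_B50pp_202_s1 : ℕ → ℕ → ℕ → ℕ → Bool := onCell 0 536870912 0 536870912 134217728 67108864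
    (rowFK 2 false true true .pp 2 0 2 (qsf 1073741824 536870912 0 536870912 0) ndF5q2 ndF0q2 pcF0 cut_B50pp_202_s1 Ext.none)

def k0_B50pp_202_s1 : ∃ t, chk3 f_B50pp_202_s1 t 1 1 1 = true :=
  ⟨(a (b (a (l 6) (l 6)) (a (b (a (b (l 17464992) (b (l 17062280) (l 17132344))) (b (l 6) (a (l 16877944) (l 16800264)))) (a (b (a (b (l 16924600) (l 14)) (b (l 16823408) (a (l 14) (l 16725616)))) (a (l 14) (a (l 14) (l 1)))) (b (a (b (l 16733064) (l 1)) (l 1)) (l 1)))) (b (l 1) (l 1)))) (l 1)), by decide +kernel⟩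

theorem c_B50pp_202_s1 : CertF 1073741824 536870912 0 536870912 134217728 67108864 false true true .pp 2 0 2
    ndF5q2 ndF0q2 pcF0 cut_B50pp_202_s1 Ext.none :=
  certFK2 (fam := false) (s1 := true) (s2 := true) (a := 2) (b := 0) (c := 2) (cn := .pp) (n1 := ndF5q2) (n2 := ndF0q2) (pc := pcF0) (cut := cut_B50pp_202_s1) (xt := Ext.none) (P1 := 1073741824) (W1 := 536870912) (P2 := 0) (W2 := 536870912) (P3 := 134217728) (W3 := 67108864)
    rfl rfl rfl (fun _ => rfl) k0_B50pp_202_s1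

theorem s_B50pp_202_s1 {κ x : ℝ} (hκ : κ * h0 = ken x) (hx : ((134217728 : ℕ) : ℝ) / S ≤ x)
    (hx' : x ≤ (((134217728 : ℕ) : ℝ) + (67108864 : ℕ)) / S)
    (H : CutB (VF κ) PP tKF tL pcF (Cut.of [[⟨0, 1, 0, 67108864⟩, ⟨1, 0, 0, 67108864⟩, ⟨2, 1, 0, 67108864⟩]]) 2 0 2 5 0 (sgb true) (sgb true) x) :
    AltB (VF κ) PP tKF tL pcF [⟨3, 0, 0, 1449551462⟩] 2 0 2 5 0 (sgb true) (sgb true) x :=
  strip_altB (m := 1449551462) true rfl hκ covF52 covF02 hx hx' c_B50pp_202_s1 H (noExt_B)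

noncomputable def cut_B50pm_001_s1 : Cut := Cut.of [[⟨4, 0, 0, 1449551462⟩]]

noncomputable def f_B50pm_001_s1 : ℕ → ℕ → ℕ → ℕ → Bool := onCell 0 536870912 536870912 536870912 134217728 67108864
    (rowFK 0 false true false .up 0 0 1 (qsf 0 536870912 536870912 536870912 0) ndF5q0 ndF0q1 pcF0 cut_B50pm_001_s1 Ext.none)

def k0_B50pm_001_s1 : ∃ t, chk3 f_B50pm_001_s1 t 1 1 1 = true :=
  ⟨(l 4), by decide +kernel⟩

theorem c_B50pm_001_s1 : CertF 0 536870912 536870912 536870912 134217728 67108864 false true false .up 0 0 1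
    ndF5q0 ndF0q1 pcF0 cut_B50pm_001_s1 Ext.none :=
  certFK0 (fam := false) (s1 := true) (s2 := false) (a := 0) (b := 0) (c := 1) (cn := .up) (n1 := ndF5q0) (n2 := ndF0q1) (pc := pcF0) (cut := cut_B50pm_001_s1) (xt := Ext.none) (P1 := 0) (W1 := 536870912) (P2 := 536870912) (W2 := 536870912) (P3 := 134217728) (W3 := 67108864)
    rfl rfl rfl k0_B50pm_001_s1

theorem s_B50pm_001_s1 {κ x : ℝ} (hκ : κ * h0 = ken x) (hx : ((134217728 : ℕ) : ℝ) / S ≤ x)
    (hx' : x ≤ (((134217728 : ℕ) : ℝ) + (67108864 : ℕ)) / S) :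
    AltB (VF κ) PP tKF tL pcF [⟨3, 0, 0, 1449551462⟩] 0 0 1 5 0 (sgb true) (sgb false) x :=
  strip_altB (m := 1449551462) true rfl hκ covF50 covF01 hx hx' c_B50pm_001_s1 cutB_nil (noExt_B)

noncomputable def cut_B50pm_011_s1 : Cut := Cut.of [[⟨4, 0, 0, 1449551462⟩]]

noncomputable def f_B50pm_011_s1 : ℕ → ℕ → ℕ → ℕ → Bool := onCell 0 536870912 536870912 536870912 134217728 67108864
    (rowFK 0 false true false .pnn 0 1 1 (qsf 0 536870912 536870912 536870912 1) ndF5q0 ndF0q1 pcF1 cut_B50pm_011_s1 Ext.none)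

def k0_B50pm_011_s1 : ∃ t, chk3 f_B50pm_011_s1 t 1 1 1 = true :=
  ⟨(l 4), by decide +kernel⟩

theorem c_B50pm_011_s1 : CertF 0 536870912 536870912 536870912 134217728 67108864 false true false .pnn 0 1 1
    ndF5q0 ndF0q1 pcF1 cut_B50pm_011_s1 Ext.none :=
  certFK0 (fam := false) (s1 := true) (s2 := false) (a := 0) (b := 1) (c := 1) (cn := .pnn) (n1 := ndF5q0) (n2 := ndF0q1) (pc := pcF1) (cut := cut_B50pm_011_s1) (xt := Ext.none) (P1 := 0) (W1 := 536870912) (P2 := 536870912) (W2 := 536870912) (P3 := 134217728) (W3 := 67108864)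
    rfl rfl rfl k0_B50pm_011_s1

theorem s_B50pm_011_s1 {κ x : ℝ} (hκ : κ * h0 = ken x) (hx : ((134217728 : ℕ) : ℝ) / S ≤ x)
    (hx' : x ≤ (((134217728 : ℕ) : ℝ) + (67108864 : ℕ)) / S) :
    AltB (VF κ) PP tKF tL pcF [⟨3, 0, 0, 1449551462⟩] 0 1 1 5 0 (sgb true) (sgb false) x :=
  strip_altB (m := 1449551462) true rfl hκ covF50 covF01 hx hx' c_B50pm_011_s1 cutB_nil (noExt_B)

noncomputable def cut_B50pm_012_s1 : Cut := Cut.of [[⟨4, 0, 0, 1449551462⟩]]

noncomputable def f_B50pm_012_s1 : ℕ → ℕ → ℕ → ℕ → Bool := onCell 0 536870912 0 536870912 134217728 67108864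
    (rowFK 0 false true false .pnp 0 1 2 (qsf 0 536870912 0 536870912 1) ndF5q0 ndF0q2 pcF1 cut_B50pm_012_s1 Ext.none)

def k0_B50pm_012_s1 : ∃ t, chk3 f_B50pm_012_s1 t 1 1 1 = true :=
  ⟨(l 6), by decide +kernel⟩

theorem c_B50pm_012_s1 : CertF 0 536870912 0 536870912 134217728 67108864 false true false .pnp 0 1 2
    ndF5q0 ndF0q2 pcF1 cut_B50pm_012_s1 Ext.none :=
  certFK0 (fam := false) (s1 := true) (s2 := false) (a := 0) (b := 1) (c := 2) (cn := .pnp) (n1 := ndF5q0) (n2 := ndF0q2) (pc := pcF1) (cut := cut_B50pm_012_s1) (xt := Ext.none) (P1 := 0) (W1 := 536870912) (P2 := 0) (W2 := 536870912) (P3 := 134217728) (W3 := 67108864)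
    rfl rfl rfl k0_B50pm_012_s1

theorem s_B50pm_012_s1 {κ x : ℝ} (hκ : κ * h0 = ken x) (hx : ((134217728 : ℕ) : ℝ) / S ≤ x)
    (hx' : x ≤ (((134217728 : ℕ) : ℝ) + (67108864 : ℕ)) / S) :
    AltB (VF κ) PP tKF tL pcF [⟨3, 0, 0, 1449551462⟩] 0 1 2 5 0 (sgb true) (sgb false) x :=
  strip_altB (m := 1449551462) true rfl hκ covF50 covF02 hx hx' c_B50pm_012_s1 cutB_nil (noExt_B)

noncomputable def cut_B50pm_022_s1 : Cut := Cut.of [[⟨4, 0, 0, 1449551462⟩]]

noncomputable def f_B50pm_022_s1 : ℕ → ℕ → ℕ → ℕ → Bool := onCell 0 536870912 0 536870912 134217728 67108864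
    (rowFK 0 false true false .pp 0 2 2 (qsf 0 536870912 0 536870912 2) ndF5q0 ndF0q2 pcF2 cut_B50pm_022_s1 Ext.none)

def k0_B50pm_022_s1 : ∃ t, chk3 f_B50pm_022_s1 t 1 1 1 = true :=
  ⟨(l 6), by decide +kernel⟩

theorem c_B50pm_022_s1 : CertF 0 536870912 0 536870912 134217728 67108864 false true false .pp 0 2 2
    ndF5q0 ndF0q2 pcF2 cut_B50pm_022_s1 Ext.none :=
  certFK0 (fam := false) (s1 := true) (s2 := false) (a := 0) (b := 2) (c := 2) (cn := .pp) (n1 := ndF5q0) (n2 := ndF0q2) (pc := pcF2) (cut := cut_B50pm_022_s1) (xt := Ext.none) (P1 := 0) (W1 := 536870912) (P2 := 0) (W2 := 536870912) (P3 := 134217728) (W3 := 67108864)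
    rfl rfl rfl k0_B50pm_022_s1

theorem s_B50pm_022_s1 {κ x : ℝ} (hκ : κ * h0 = ken x) (hx : ((134217728 : ℕ) : ℝ) / S ≤ x)
    (hx' : x ≤ (((134217728 : ℕ) : ℝ) + (67108864 : ℕ)) / S) :
    AltB (VF κ) PP tKF tL pcF [⟨3, 0, 0, 1449551462⟩] 0 2 2 5 0 (sgb true) (sgb false) x :=
  strip_altB (m := 1449551462) true rfl hκ covF50 covF02 hx hx' c_B50pm_022_s1 cutB_nil (noExt_B)

noncomputable def cut_B50pm_101_s1 : Cut := Cut.of [[⟨4, 0, 0, 1449551462⟩]]

noncomputable def f_B50pm_101_s1 : ℕ → ℕ → ℕ → ℕ → Bool := onCell 536870912 536870912 536870912 536870912 134217728 67108864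
    (rowFK 0 false true false .npn 1 0 1 (qsf 536870912 536870912 536870912 536870912 0) ndF5q1 ndF0q1 pcF0 cut_B50pm_101_s1 Ext.none)

def k0_B50pm_101_s1 : ∃ t, chk3 f_B50pm_101_s1 t 1 1 1 = true :=
  ⟨(l 4), by decide +kernel⟩

theorem c_B50pm_101_s1 : CertF 536870912 536870912 536870912 536870912 134217728 67108864 false true false .npn 1 0 1
    ndF5q1 ndF0q1 pcF0 cut_B50pm_101_s1 Ext.none :=
  certFK0 (fam := false) (s1 := true) (s2 := false) (a := 1) (b := 0) (c := 1) (cn := .npn) (n1 := ndF5q1) (n2 := ndF0q1) (pc := pcF0) (cut := cut_B50pm_101_s1) (xt := Ext.none) (P1 := 536870912) (W1 := 536870912) (P2 := 536870912) (W2 := 536870912) (P3 := 134217728) (W3 := 67108864)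
    rfl rfl rfl k0_B50pm_101_s1

theorem s_B50pm_101_s1 {κ x : ℝ} (hκ : κ * h0 = ken x) (hx : ((134217728 : ℕ) : ℝ) / S ≤ x)
    (hx' : x ≤ (((134217728 : ℕ) : ℝ) + (67108864 : ℕ)) / S) :
    AltB (VF κ) PP tKF tL pcF [⟨3, 0, 0, 1449551462⟩] 1 0 1 5 0 (sgb true) (sgb false) x :=
  strip_altB (m := 1449551462) true rfl hκ covF51 covF01 hx hx' c_B50pm_101_s1 cutB_nil (noExt_B)

noncomputable def cut_B50pm_102_s1 : Cut := Cut.of [[⟨4, 0, 0, 1449551462⟩]]

noncomputable def f_B50pm_102_s1 : ℕ → ℕ → ℕ → ℕ → Bool := onCell 536870912 536870912 0 536870912 134217728 67108864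
    (rowFK 0 false true false .npp 1 0 2 (qsf 536870912 536870912 0 536870912 0) ndF5q1 ndF0q2 pcF0 cut_B50pm_102_s1 Ext.none)

def k0_B50pm_102_s1 : ∃ t, chk3 f_B50pm_102_s1 t 1 1 1 = true :=
  ⟨(l 6), by decide +kernel⟩

theorem c_B50pm_102_s1 : CertF 536870912 536870912 0 536870912 134217728 67108864 false true false .npp 1 0 2
    ndF5q1 ndF0q2 pcF0 cut_B50pm_102_s1 Ext.none :=
  certFK0 (fam := false) (s1 := true) (s2 := false) (a := 1) (b := 0) (c := 2) (cn := .npp) (n1 := ndF5q1) (n2 := ndF0q2) (pc := pcF0) (cut := cut_B50pm_102_s1) (xt := Ext.none) (P1 := 536870912) (W1 := 536870912) (P2 := 0) (W2 := 536870912) (P3 := 134217728) (W3 := 67108864)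
    rfl rfl rfl k0_B50pm_102_s1

theorem s_B50pm_102_s1 {κ x : ℝ} (hκ : κ * h0 = ken x) (hx : ((134217728 : ℕ) : ℝ) / S ≤ x)
    (hx' : x ≤ (((134217728 : ℕ) : ℝ) + (67108864 : ℕ)) / S) :
    AltB (VF κ) PP tKF tL pcF [⟨3, 0, 0, 1449551462⟩] 1 0 2 5 0 (sgb true) (sgb false) x :=
  strip_altB (m := 1449551462) true rfl hκ covF51 covF02 hx hx' c_B50pm_102_s1 cutB_nil (noExt_B)

noncomputable def cut_B50pm_112_s1 : Cut := Cut.of [[⟨4, 0, 0, 1449551462⟩]]

noncomputable def f_B50pm_112_s1 : ℕ → ℕ → ℕ → ℕ → Bool := onCell 536870912 536870912 0 536870912 134217728 67108864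
    (rowFK 0 false true false .dn 1 1 2 (qsf 536870912 536870912 0 536870912 1) ndF5q1 ndF0q2 pcF1 cut_B50pm_112_s1 Ext.none)

def k0_B50pm_112_s1 : ∃ t, chk3 f_B50pm_112_s1 t 1 1 1 = true :=
  ⟨(l 6), by decide +kernel⟩

theorem c_B50pm_112_s1 : CertF 536870912 536870912 0 536870912 134217728 67108864 false true false .dn 1 1 2
    ndF5q1 ndF0q2 pcF1 cut_B50pm_112_s1 Ext.none :=
  certFK0 (fam := false) (s1 := true) (s2 := false) (a := 1) (b := 1) (c := 2) (cn := .dn) (n1 := ndF5q1) (n2 := ndF0q2) (pc := pcF1) (cut := cut_B50pm_112_s1) (xt := Ext.none) (P1 := 536870912) (W1 := 536870912) (P2 := 0) (W2 := 536870912) (P3 := 134217728) (W3 := 67108864)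
    rfl rfl rfl k0_B50pm_112_s1

theorem s_B50pm_112_s1 {κ x : ℝ} (hκ : κ * h0 = ken x) (hx : ((134217728 : ℕ) : ℝ) / S ≤ x)
    (hx' : x ≤ (((134217728 : ℕ) : ℝ) + (67108864 : ℕ)) / S) :
    AltB (VF κ) PP tKF tL pcF [⟨3, 0, 0, 1449551462⟩] 1 1 2 5 0 (sgb true) (sgb false) x :=
  strip_altB (m := 1449551462) true rfl hκ covF51 covF02 hx hx' c_B50pm_112_s1 cutB_nil (noExt_B)

noncomputable def cut_B50pm_202_s1 : Cut := Cut.of [[⟨4, 0, 0, 1449551462⟩]]

noncomputable def f_B50pm_202_s1 : ℕ → ℕ → ℕ → ℕ → Bool := onCell 0 536870912 0 536870912 134217728 67108864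
    (rowFK 2 false true false .pp 2 0 2 (qsf 1073741824 536870912 0 536870912 0) ndF5q2 ndF0q2 pcF0 cut_B50pm_202_s1 Ext.none)

def k0_B50pm_202_s1 : ∃ t, chk3 f_B50pm_202_s1 t 1 1 1 = true :=
  ⟨(l 6), by decide +kernel⟩

theorem c_B50pm_202_s1 : CertF 1073741824 536870912 0 536870912 134217728 67108864 false true false .pp 2 0 2
    ndF5q2 ndF0q2 pcF0 cut_B50pm_202_s1 Ext.none :=
  certFK2 (fam := false) (s1 := true) (s2 := false) (a := 2) (b := 0) (c := 2) (cn := .pp) (n1 := ndF5q2) (n2 := ndF0q2) (pc := pcF0) (cut := cut_B50pm_202_s1) (xt := Ext.none) (P1 := 1073741824) (W1 := 536870912) (P2 := 0) (W2 := 536870912) (P3 := 134217728) (W3 := 67108864)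
    rfl rfl rfl (fun _ => rfl) k0_B50pm_202_s1

theorem s_B50pm_202_s1 {κ x : ℝ} (hκ : κ * h0 = ken x) (hx : ((134217728 : ℕ) : ℝ) / S ≤ x)
    (hx' : x ≤ (((134217728 : ℕ) : ℝ) + (67108864 : ℕ)) / S) :
    AltB (VF κ) PP tKF tL pcF [⟨3, 0, 0, 1449551462⟩] 2 0 2 5 0 (sgb true) (sgb false) x :=
  strip_altB (m := 1449551462) true rfl hκ covF52 covF02 hx hx' c_B50pm_202_s1 cutB_nil (noExt_B)

noncomputable def cut_B50mm_001_s1 : Cut := Cut.of [[⟨4, 0, 0, 1449551462⟩]]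

noncomputable def f_B50mm_001_s1 : ℕ → ℕ → ℕ → ℕ → Bool := onCell 0 536870912 536870912 536870912 134217728 67108864
    (rowFK 0 false false false .up 0 0 1 (qsf 0 536870912 536870912 536870912 0) ndF5q0 ndF0q1 pcF0 cut_B50mm_001_s1 Ext.none)

def k0_B50mm_001_s1 : ∃ t, chk3 f_B50mm_001_s1 t 1 1 1 = true :=
  ⟨(l 5), by decide +kernel⟩

theorem c_B50mm_001_s1 : CertF 0 536870912 536870912 536870912 134217728 67108864 false false false .up 0 0 1
    ndF5q0 ndF0q1 pcF0 cut_B50mm_001_s1 Ext.none :=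
  certFK0 (fam := false) (s1 := false) (s2 := false) (a := 0) (b := 0) (c := 1) (cn := .up) (n1 := ndF5q0) (n2 := ndF0q1) (pc := pcF0) (cut := cut_B50mm_001_s1) (xt := Ext.none) (P1 := 0) (W1 := 536870912) (P2 := 536870912) (W2 := 536870912) (P3 := 134217728) (W3 := 67108864)
    rfl rfl rfl k0_B50mm_001_s1

theorem s_B50mm_001_s1 {κ x : ℝ} (hκ : κ * h0 = ken x) (hx : ((134217728 : ℕ) : ℝ) / S ≤ x)
    (hx' : x ≤ (((134217728 : ℕ) : ℝ) + (67108864 : ℕ)) / S) :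
    AltB (VF κ) PP tKF tL pcF [⟨3, 0, 0, 1449551462⟩] 0 0 1 5 0 (sgb false) (sgb false) x :=
  strip_altB (m := 1449551462) true rfl hκ covF50 covF01 hx hx' c_B50mm_001_s1 cutB_nil (noExt_B)

noncomputable def cut_B50mm_011_s1 : Cut := Cut.of [[⟨4, 0, 0, 1449551462⟩]]

noncomputable def f_B50mm_011_s1 : ℕ → ℕ → ℕ → ℕ → Bool := onCell 0 536870912 536870912 536870912 134217728 67108864
    (rowFK 0 false false false .pnn 0 1 1 (qsf 0 536870912 536870912 536870912 1) ndF5q0 ndF0q1 pcF1 cut_B50mm_011_s1 Ext.none)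

def k0_B50mm_011_s1 : ∃ t, chk3 f_B50mm_011_s1 t 1 1 1 = true :=
  ⟨(l 5), by decide +kernel⟩

theorem c_B50mm_011_s1 : CertF 0 536870912 536870912 536870912 134217728 67108864 false false false .pnn 0 1 1
    ndF5q0 ndF0q1 pcF1 cut_B50mm_011_s1 Ext.none :=
  certFK0 (fam := false) (s1 := false) (s2 := false) (a := 0) (b := 1) (c := 1) (cn := .pnn) (n1 := ndF5q0) (n2 := ndF0q1) (pc := pcF1) (cut := cut_B50mm_011_s1) (xt := Ext.none) (P1 := 0) (W1 := 536870912) (P2 := 536870912) (W2 := 536870912) (P3 := 134217728) (W3 := 67108864)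
    rfl rfl rfl k0_B50mm_011_s1

theorem s_B50mm_011_s1 {κ x : ℝ} (hκ : κ * h0 = ken x) (hx : ((134217728 : ℕ) : ℝ) / S ≤ x)
    (hx' : x ≤ (((134217728 : ℕ) : ℝ) + (67108864 : ℕ)) / S) :
    AltB (VF κ) PP tKF tL pcF [⟨3, 0, 0, 1449551462⟩] 0 1 1 5 0 (sgb false) (sgb false) x :=
  strip_altB (m := 1449551462) true rfl hκ covF50 covF01 hx hx' c_B50mm_011_s1 cutB_nil (noExt_B)

noncomputable def cut_B50mm_012_s1 : Cut := Cut.of [[⟨4, 0, 0, 1449551462⟩]]

noncomputable def f_B50mm_012_s1 : ℕ → ℕ → ℕ → ℕ → Bool := onCell 0 536870912 0 536870912 134217728 67108864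
    (rowFK 0 false false false .pnp 0 1 2 (qsf 0 536870912 0 536870912 1) ndF5q0 ndF0q2 pcF1 cut_B50mm_012_s1 Ext.none)

def k0_B50mm_012_s1 : ∃ t, chk3 f_B50mm_012_s1 t 1 1 1 = true :=
  ⟨(l 5), by decide +kernel⟩

theorem c_B50mm_012_s1 : CertF 0 536870912 0 536870912 134217728 67108864 false false false .pnp 0 1 2
    ndF5q0 ndF0q2 pcF1 cut_B50mm_012_s1 Ext.none :=
  certFK0 (fam := false) (s1 := false) (s2 := false) (a := 0) (b := 1) (c := 2) (cn := .pnp) (n1 := ndF5q0) (n2 := ndF0q2) (pc := pcF1) (cut := cut_B50mm_012_s1) (xt := Ext.none) (P1 := 0) (W1 := 536870912) (P2 := 0) (W2 := 536870912) (P3 := 134217728) (W3 := 67108864)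
    rfl rfl rfl k0_B50mm_012_s1

theorem s_B50mm_012_s1 {κ x : ℝ} (hκ : κ * h0 = ken x) (hx : ((134217728 : ℕ) : ℝ) / S ≤ x)
    (hx' : x ≤ (((134217728 : ℕ) : ℝ) + (67108864 : ℕ)) / S) :
    AltB (VF κ) PP tKF tL pcF [⟨3, 0, 0, 1449551462⟩] 0 1 2 5 0 (sgb false) (sgb false) x :=
  strip_altB (m := 1449551462) true rfl hκ covF50 covF02 hx hx' c_B50mm_012_s1 cutB_nil (noExt_B)

noncomputable def cut_B50mm_022_s1 : Cut := Cut.of [[⟨4, 0, 0, 1449551462⟩]]

noncomputable def f_B50mm_022_s1 : ℕ → ℕ → ℕ → ℕ → Bool := onCell 0 536870912 0 536870912 134217728 67108864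
    (rowFK 0 false false false .pp 0 2 2 (qsf 0 536870912 0 536870912 2) ndF5q0 ndF0q2 pcF2 cut_B50mm_022_s1 Ext.none)

def k0_B50mm_022_s1 : ∃ t, chk3 f_B50mm_022_s1 t 1 1 1 = true :=
  ⟨(l 5), by decide +kernel⟩

theorem c_B50mm_022_s1 : CertF 0 536870912 0 536870912 134217728 67108864 false false false .pp 0 2 2
    ndF5q0 ndF0q2 pcF2 cut_B50mm_022_s1 Ext.none :=
  certFK0 (fam := false) (s1 := false) (s2 := false) (a := 0) (b := 2) (c := 2) (cn := .pp) (n1 := ndF5q0) (n2 := ndF0q2) (pc := pcF2) (cut := cut_B50mm_022_s1) (xt := Ext.none) (P1 := 0) (W1 := 536870912) (P2 := 0) (W2 := 536870912) (P3 := 134217728) (W3 := 67108864)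
    rfl rfl rfl k0_B50mm_022_s1

theorem s_B50mm_022_s1 {κ x : ℝ} (hκ : κ * h0 = ken x) (hx : ((134217728 : ℕ) : ℝ) / S ≤ x)
    (hx' : x ≤ (((134217728 : ℕ) : ℝ) + (67108864 : ℕ)) / S) :
    AltB (VF κ) PP tKF tL pcF [⟨3, 0, 0, 1449551462⟩] 0 2 2 5 0 (sgb false) (sgb false) x :=
  strip_altB (m := 1449551462) true rfl hκ covF50 covF02 hx hx' c_B50mm_022_s1 cutB_nil (noExt_B)

noncomputable def cut_B50mm_101_s1 : Cut := Cut.of [[⟨4, 0, 0, 1449551462⟩]]

noncomputable def f_B50mm_101_s1 : ℕ → ℕ → ℕ → ℕ → Bool := onCell 0 536870912 536870912 536870912 134217728 67108864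
    (rowFK 2 false false false .npn 1 0 1 (qsf 536870912 536870912 536870912 536870912 0) ndF5q1 ndF0q1 pcF0 cut_B50mm_101_s1 Ext.none)

def k0_B50mm_101_s1 : ∃ t, chk3 f_B50mm_101_s1 t 1 1 1 = true :=
  ⟨(l 5), by decide +kernel⟩

theorem c_B50mm_101_s1 : CertF 536870912 536870912 536870912 536870912 134217728 67108864 false false false .npn 1 0 1
    ndF5q1 ndF0q1 pcF0 cut_B50mm_101_s1 Ext.none :=
  certFK2 (fam := false) (s1 := false) (s2 := false) (a := 1) (b := 0) (c := 1) (cn := .npn) (n1 := ndF5q1) (n2 := ndF0q1) (pc := pcF0) (cut := cut_B50mm_101_s1) (xt := Ext.none) (P1 := 536870912) (W1 := 536870912) (P2 := 536870912) (W2 := 536870912) (P3 := 134217728) (W3 := 67108864)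
    rfl rfl rfl (fun _ => rfl) k0_B50mm_101_s1

theorem s_B50mm_101_s1 {κ x : ℝ} (hκ : κ * h0 = ken x) (hx : ((134217728 : ℕ) : ℝ) / S ≤ x)
    (hx' : x ≤ (((134217728 : ℕ) : ℝ) + (67108864 : ℕ)) / S) :
    AltB (VF κ) PP tKF tL pcF [⟨3, 0, 0, 1449551462⟩] 1 0 1 5 0 (sgb false) (sgb false) x :=
  strip_altB (m := 1449551462) true rfl hκ covF51 covF01 hx hx' c_B50mm_101_s1 cutB_nil (noExt_B)

noncomputable def cut_B50mm_102_s1 : Cut := Cut.of [[⟨4, 0, 0, 1449551462⟩]]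

noncomputable def f_B50mm_102_s1 : ℕ → ℕ → ℕ → ℕ → Bool := onCell 536870912 536870912 0 536870912 134217728 67108864
    (rowFK 0 false false false .npp 1 0 2 (qsf 536870912 536870912 0 536870912 0) ndF5q1 ndF0q2 pcF0 cut_B50mm_102_s1 Ext.none)

def k0_B50mm_102_s1 : ∃ t, chk3 f_B50mm_102_s1 t 1 1 1 = true :=
  ⟨(l 5), by decide +kernel⟩

theorem c_B50mm_102_s1 : CertF 536870912 536870912 0 536870912 134217728 67108864 false false false .npp 1 0 2
    ndF5q1 ndF0q2 pcF0 cut_B50mm_102_s1 Ext.none :=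
  certFK0 (fam := false) (s1 := false) (s2 := false) (a := 1) (b := 0) (c := 2) (cn := .npp) (n1 := ndF5q1) (n2 := ndF0q2) (pc := pcF0) (cut := cut_B50mm_102_s1) (xt := Ext.none) (P1 := 536870912) (W1 := 536870912) (P2 := 0) (W2 := 536870912) (P3 := 134217728) (W3 := 67108864)
    rfl rfl rfl k0_B50mm_102_s1

theorem s_B50mm_102_s1 {κ x : ℝ} (hκ : κ * h0 = ken x) (hx : ((134217728 : ℕ) : ℝ) / S ≤ x)
    (hx' : x ≤ (((134217728 : ℕ) : ℝ) + (67108864 : ℕ)) / S) :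
    AltB (VF κ) PP tKF tL pcF [⟨3, 0, 0, 1449551462⟩] 1 0 2 5 0 (sgb false) (sgb false) x :=
  strip_altB (m := 1449551462) true rfl hκ covF51 covF02 hx hx' c_B50mm_102_s1 cutB_nil (noExt_B)

noncomputable def cut_B50mm_112_s1 : Cut := Cut.of [[⟨4, 0, 0, 1449551462⟩]]

noncomputable def f_B50mm_112_s1 : ℕ → ℕ → ℕ → ℕ → Bool := onCell 536870912 536870912 0 536870912 134217728 67108864
    (rowFK 0 false false false .dn 1 1 2 (qsf 536870912 536870912 0 536870912 1) ndF5q1 ndF0q2 pcF1 cut_B50mm_112_s1 Ext.none)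

def k0_B50mm_112_s1 : ∃ t, chk3 f_B50mm_112_s1 t 1 1 1 = true :=
  ⟨(l 5), by decide +kernel⟩

theorem c_B50mm_112_s1 : CertF 536870912 536870912 0 536870912 134217728 67108864 false false false .dn 1 1 2
    ndF5q1 ndF0q2 pcF1 cut_B50mm_112_s1 Ext.none :=
  certFK0 (fam := false) (s1 := false) (s2 := false) (a := 1) (b := 1) (c := 2) (cn := .dn) (n1 := ndF5q1) (n2 := ndF0q2) (pc := pcF1) (cut := cut_B50mm_112_s1) (xt := Ext.none) (P1 := 536870912) (W1 := 536870912) (P2 := 0) (W2 := 536870912) (P3 := 134217728) (W3 := 67108864)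
    rfl rfl rfl k0_B50mm_112_s1

theorem s_B50mm_112_s1 {κ x : ℝ} (hκ : κ * h0 = ken x) (hx : ((134217728 : ℕ) : ℝ) / S ≤ x)
    (hx' : x ≤ (((134217728 : ℕ) : ℝ) + (67108864 : ℕ)) / S) :
    AltB (VF κ) PP tKF tL pcF [⟨3, 0, 0, 1449551462⟩] 1 1 2 5 0 (sgb false) (sgb false) x :=
  strip_altB (m := 1449551462) true rfl hκ covF51 covF02 hx hx' c_B50mm_112_s1 cutB_nil (noExt_B)

noncomputable def cut_B50mm_202_s1 : Cut := Cut.of [[⟨4, 0, 0, 1449551462⟩]]

noncomputable def f_B50mm_202_s1 : ℕ → ℕ → ℕ → ℕ → Bool := onCell 1073741824 536870912 0 536870912 134217728 67108864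
    (rowFK 0 false false false .pp 2 0 2 (qsf 1073741824 536870912 0 536870912 0) ndF5q2 ndF0q2 pcF0 cut_B50mm_202_s1 Ext.none)

def k0_B50mm_202_s1 : ∃ t, chk3 f_B50mm_202_s1 t 1 1 1 = true :=
  ⟨(l 5), by decide +kernel⟩

theorem c_B50mm_202_s1 : CertF 1073741824 536870912 0 536870912 134217728 67108864 false false false .pp 2 0 2
    ndF5q2 ndF0q2 pcF0 cut_B50mm_202_s1 Ext.none :=
  certFK0 (fam := false) (s1 := false) (s2 := false) (a := 2) (b := 0) (c := 2) (cn := .pp) (n1 := ndF5q2) (n2 := ndF0q2) (pc := pcF0) (cut := cut_B50mm_202_s1) (xt := Ext.none) (P1 := 1073741824) (W1 := 536870912) (P2 := 0) (W2 := 536870912) (P3 := 134217728) (W3 := 67108864)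
    rfl rfl rfl k0_B50mm_202_s1

theorem s_B50mm_202_s1 {κ x : ℝ} (hκ : κ * h0 = ken x) (hx : ((134217728 : ℕ) : ℝ) / S ≤ x)
    (hx' : x ≤ (((134217728 : ℕ) : ℝ) + (67108864 : ℕ)) / S) :
    AltB (VF κ) PP tKF tL pcF [⟨3, 0, 0, 1449551462⟩] 2 0 2 5 0 (sgb false) (sgb false) x :=
  strip_altB (m := 1449551462) true rfl hκ covF52 covF02 hx hx' c_B50mm_202_s1 cutB_nil (noExt_B)

end Pool.Agent.Strip051.G.I1_8_3_16.Tab.St.C
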