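import Pool.Agent.Strip051.G.I1_8_3_16.Tab

/-! # Certificates F6 (generated) -/

set_option linter.all false
set_option maxRecDepth 100000

namespace Pool.Agent.Strip051.G.I1_8_3_16.Tab.C.FB01

open Pool.Agent.Strip051.PB Pool.Agent.Strip051.PB.T
open Pool.Agent.Strip051.G.I1_8_3_16.Tab

noncomputable def cut_pp_012_a : Cut := Cut.of [[⟨0, 0, 0, 67108864⟩, ⟨1, 1, 0, 67108864⟩, ⟨2, 1, 0, 67108864⟩]]

noncomputable def f_pp_012_a : ℕ → ℕ → ℕ → ℕ → Bool := onCell 536870912 536870912 0 536870912 134217728 67108864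
    (rowF 2 false true true .pnp 0 1 2 (qsf 0 536870912 0 536870912 1) ndF0q0 ndF1q2a pcF1 cut_pp_012_a Ext.none)

def k0_pp_012_a : ∃ t, chk3 f_pp_012_a t 2 1 1 = true :=
  ⟨(l 3), by decide +kernel⟩

def k1_pp_012_a : ∃ t, chk3 f_pp_012_a t 6 1 1 = true :=
  ⟨(b (a (b (l 3) (l 3)) (b (a (b (c (a (b (a (l 28622112807) (l 16907360)) (l 38285810983)) (b (l 16934144) (a (l 27011530055) (l 16925304)))) (a (b (a (l 28622085415) (l 22716526743)) (l 35064549063)) (b (l 16897752) (a (l 25937749079) (l 16891144))))) (a (l 3) (b (a (l 3) (c (l 33454022663) (l 29695870423))) (l 3)))) (b (a (c (b (l 16969360) (l 16951936)) (b (l 16918920) (l 16906968))) (c (l 16994688) (l 16930656))) (a (b (c (a (l 26474684695) (l 16941168)) (a (l 24864016775) (l 16898368))) (a (l 3) (c (l 28085283495) (l 26474627703)))) (c (b (l 16967224) (a (l 20032253767) (l 16954032))) (b (l 16911888) (a (l 20032190583) (l 16900720))))))) (a (l 3) (b (a (l 3) (b (a (c (l 32917163879) (l 28085252119)) (c (b (l 16936120) (l 27011549095))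 (b (l 16888200) (l 25937765959)))) (l 3))) (l 3))))) (l 3)), by decide +kernel⟩

def k2_pp_012_a : ∃ t, chk3 f_pp_012_a t 14 4 1 = true :=
  ⟨(a (b (a (c (l 17026584) (l 16943184)) (c (l 17054160) (l 16947296))) (a (c (b (l 17000120) (l 16978688)) (b (l 16925456) (l 16910520))) (c (l 17018304) (b (l 16931072) (l 16916544))))) (b (c (a (l 17074648) (l 17083824)) (a (l 16938784) (l 16911480))) (a (c (l 17040712) (l 16917032)) (c (l 17052008) (l 16891928))))), by decide +kernel⟩

def k3_pp_012_a : ∃ t, chk3 f_pp_012_a t 14 5 1 = true :=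
  ⟨(b (a (a (b (c (a (l 20032263607) (l 16962376)) (a (b (l 16895272) (l 16886320)) (l 16895936))) (b (c (a (l 25937811495) (l 16942696)) (a (l 24864022327) (l 16882176))) (a (l 3) (c (l 24327199287) (l 23790271719))))) (c (b (l 16984112) (a (b (l 16957440) (l 16943296)) (l 16963512))) (b (l 16878608) (a (b (l 16885096) (l 16875200)) (l 16880112))))) (a (c (b (l 17006880) (a (l 16974784) (l 16983456))) (b (l 16893216) (a (l 16876672) (l 16868792)))) (c (b (l 17018152) (l 16989832)) (b (l 16867576) (l 16846112))))) (a (a (a (l 3) (a (l 3) (b (c (l 28085320119) (l 28622088071)) (l 3)))) (a (b (c (b (c (l 16943696) (l 21642839111)) (l 22179678583)) (b (a (l 22716516343) (l 16865160)) (l 21642763159))) (l 3)) (b (c (b (l 16941488) (c (l 16943384) (l 16907872))) (b (l 16864672) (a (l 18958400855) (l 16853200)))) (b (a (c (l 22716532215) (l 20568997911)) (c (l 21642801991) (l 21105869863))) (l 3))))) (a (b (c (a (b (l 16952464) (l 16936536)) (l 16952480)) (a (b (l 16860768) (l 16849576)) (l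 16846240))) (c (a (b (c (l 16940088) (l 16899640)) (c (l 23790329847) (l 18421556807))) (b (l 16927400) (c (l 16932816) (l 16886528)))) (b (a (c (l 16858760) (l 16817472)) (l 16828480)) (a (c (a (l 20032120391) (l 16844768)) (a (l 17884550999) (l 16804296))) (c (l 16839840) (l 16792760)))))) (b (c (a (l 16956928) (l 16956624)) (a (l 16831520) (l 16809296))) (c (a (b (l 16930984) (l 16912584)) (b (l 16929440) (l 16910024))) (a (b (l 16812488) (l 16799328)) (l 16812432))))))), by decide +kernel⟩

def k4_pp_012_a : ∃ t, chk3 f_pp_012_a t 15 2 1 = true :=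
  ⟨(a (b (b (a (l 16881736) (l 16898744)) (a (c (l 17045448) (l 16838632)) (c (l 17010472) (l 16742528)))) (b (a (c (b (l 17010584) (l 16980016)) (b (l 16812304) (l 16787400))) (c (b (l 16972584) (l 16937312)) (b (l 16711408) (l 16679656)))) (a (c (b (a (l 16950160) (l 16935784)) (a (l 16910632) (l 16892720))) (b (l 16799496) (a (l 16745784) (l 16718304)))) (b (c (l 16894256) (l 16692760)) (c (a (l 16863184) (l 16818536)) (a (l 16701944) (l 16695496))))))) (b (b (a (l 16778136) (l 16763832)) (a (c (l 16930256) (l 16693656)) (c (l 16776960) (l 16698064)))) (b (a (c (b (l 16885464) (l 16840800)) (l 16700032)) (c (b (l 16717840) (l 16673104)) (b (l 16684864) (l 16679832)))) (a (c (b (l 16783848) (a (l 16754184) (l 16669216))) (b (l 16674952) (l 16676168))) (b (c (l 16692024) (l 16677520)) (c (a (l 16671008) (l 16672808)) (l 16698912))))))), by decide +kernel⟩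

def k5_pp_012_a : ∃ t, chk3 f_pp_012_a t 14 3 1 = true :=
  ⟨(b (a (l 3) (b (a (b (c (a (b (c (l 22179672967) (l 22179657383)) (l 3)) (b (c (l 18421604263) (a (l 20569007751) (l 16869680))) (c (l 21105916951) (a (l 3) (l 18421489735))))) (b (a (c (l 22716462471) (l 25400744055)) (c (a (l 19495222375) (l 16823712)) (a (l 17347644167) (l 16777336)))) (a (l 3) (a (l 3) (b (l 16810773959) (l 3)))))) (l 3)) (b (c (a (b (c (l 16920200) (l 16866896)) (c (a (l 16897856) (l 16899936)) (a (l 15737132327) (l 16847192)))) (b (l 16868888) (c (l 16900080) (l 16838184)))) (a (b (c (l 16813216) (l 16759168)) (c (b (l 16802488) (l 17347642647)) (a (l 17884505463) (l 16757832)))) (b (l 16759160) (c (l 16775944) (l 16767864))))) (c (b (a (c (a (l 18958397911) (l 20032144247)) (a (l 16810840695) (l 17347705495))) (c (a (l 16878112) (l 16876152)) (a (l 16823104) (l 16814520)))) (a (l 3) (a (c (b (l 16861152) (l 17884607703)) (b (l 16810815815) (l 16273942375))) (c (b (l 16858800) (l 16847176)) (b (l 16800248)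 (l 16790936)))))) (a (b (b (a (l 22716350871) (l 17347633943)) (c (l 15737038599) (l 26474442999))) (l 3)) (a (b (c (l 16767720) (l 16769920)) (c (l 22179481543) (a (l 31843138039) (l 33453758711)))) (b (l 16775200) (c (l 16273892439) (b (l 16759000) (l 26474431559))))))))) (a (l 3) (a (l 3) (a (l 3) (b (b (b (c (c (l 16810839975) (l 15737062695)) (c (l 30232538871) (l 29158790519))) (l 3)) (l 3)) (l 3))))))) (l 3)), by decide +kernel⟩

def k6_pp_012_a : ∃ t, chk3 f_pp_012_a t 30 12 1 = true :=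
  ⟨(a (b (a (c (b (l 16878520) (l 16813992)) (b (l 16746056) (l 16755288))) (c (b (l 16857200) (l 16831856)) (l 16735912))) (c (b (a (c (l 16869184) (l 16796536)) (c (l 16850496) (l 16760808))) (a (c (a (l 16847816) (l 16840008)) (b (l 16780744) (l 16770448))) (c (l 16822328) (l 16764376)))) (a (b (c (l 16766312) (l 16762488)) (c (l 16767280) (b (l 16748360) (l 16763392)))) (b (l 16749920) (l 16748600))))) (c (b (a (b (l 16822800) (l 16793512)) (l 16753616)) (a (b (l 16762760) (c (l 16784752) (l 16728840))) (c (l 16724928) (l 16730656)))) (b (a (l 16721288) (l 16706824)) (a (b (l 16735496) (l 16744824)) (l 16725904))))), by decide +kernel⟩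

def k7_pp_012_a : ∃ t, chk3 f_pp_012_a t 60 13 1 = true :=
  ⟨(b (a (b (c (c (a (b (l 16829904) (l 15737064263)) (b (l 16821024) (l 16808616))) (b (a (l 16768608) (l 16760688)) (a (l 14663285575) (l 16764912)))) (a (b (c (l 16764216) (l 27011298487)) (c (l 30769406775) (a (l 27011301255) (l 31843136855)))) (b (l 16755560) (c (l 16761616) (l 16763712))))) (a (c (c (l 26474458327) (l 25937570919)) (b (c (l 25400691687) (l 25937556615)) (l 3))) (c (b (c (l 14663287927) (l 20031990999)) (c (l 14126420599) (l 25937573943))) (b (c (l 21642597495) (a (l 28085040999) (l 25937552791))) (a (l 3) (c (l 25400692455) (l 24863807911))))))) (b (c (c (a (l 16801976) (l 16785216)) (l 16766512)) (c (l 16759304) (l 16756192))) (c (c (a (b (l 16782376) (l 16775104)) (b (l 16763760) (l 16762320))) (b (l 16769056) (a (l 21105728151) (l 16759336)))) (a (b (c (l 16759016) (l 16756080)) (c (c (l 21642594679) (l 22716333655)) (b (l 16764744) (a (l 23253197431) (l 16760072))))) (c (l 16764728) (l 16761936))))))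 (a (l 3) (b (c (a (b (c (l 15200158295) (b (l 17347633575) (l 23253215127))) (l 3)) (b (c (l 16771664) (l 21642594231)) (a (c (l 24863829511) (l 23790082775)) (c (l 18421374311) (l 19495111239))))) (a (b (c (a (l 22179466503) (c (l 26474432807) (l 25937559399))) (a (l 24326939767) (b (l 24326938023) (l 27011292247)))) (l 3)) (b (c (c (l 16766832) (l 22716329367)) (a (b (l 16758936) (l 25937548839)) (l 16756664))) (a (c (b (l 18958235703) (l 21642588983)) (b (a (l 25400679383) (l 26474419223)) (l 21642585383))) (c (b (l 16762560) (l 20031976007)) (b (l 16760120) (c (l 21105714423) (l 22716324599)))))))) (a (l 3) (a (l 3) (a (l 3) (b (b (c (c (l 16770632) (l 24863815447)) (c (l 24326941351) (l 24863808039))) (l 3)) (l 3)))))))), by decide +kernel⟩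

def k8_pp_012_a : ∃ t, chk3 f_pp_012_a t 61 13 1 = true :=
  ⟨(b (a (c (b (c (l 16751032) (l 16758712)) (c (a (l 16753104) (l 16745944)) (l 16757056))) (b (l 16754128) (a (l 16756368) (l 16759904)))) (b (c (c (l 16747400) (l 16744352)) (l 16740112)) (c (c (l 16756144) (l 16753384)) (l 16749520)))) (a (b (c (a (b (l 16763256) (c (l 16763576) (l 16766240))) (c (l 16764928) (l 16762336))) (a (b (l 16763248) (a (c (l 16760240) (l 16757872)) (l 16755632))) (c (l 16759864) (l 16757520)))) (c (a (b (c (b (l 16771920) (c (l 15737021575) (l 16273890167))) (b (c (l 16770072) (l 16768872)) (c (l 16810758807) (a (l 22179464311) (l 16764128))))) (c (b (a (l 17884503431) (l 15737017623)) (c (l 18421378967) (l 17884495463))) (a (b (l 18958237623) (l 3)) (b (c (l 16273885127) (l 16810753831)) (c (l 17884499303) (l 17884497015)))))) (b (c (l 16760808) (l 16763696)) (c (b (l 16769216) (c (l 16810758695) (l 17347627591))) (a (b (l 16763456) (a (l 18958234855) (l 16764792))) (l 16761136))))) (a (b (a (c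 (b (l 21642586935) (c (l 21642591127) (l 21642588743))) (b (c (l 16764488) (l 23790064791)) (a (l 22179453991) (l 27548161415)))) (c (c (l 16767120) (l 16766000)) (b (l 16757960) (c (l 16760816) (l 16759760))))) (a (a (l 3) (b (c (l 18958232887) (l 19495099719)) (l 3))) (c (b (c (l 17884493399) (l 18421362103)) (c (l 17884494775) (l 18421363159))) (b (a (l 24863807703) (l 27548159719)) (a (l 3) (l 21642581719)))))) (b (c (l 16761448) (l 16764552)) (a (c (b (l 16761312) (c (l 18958233607) (l 19495102327))) (b (l 16759256) (a (c (l 23253195415) (l 24326935623)) (l 16760752)))) (c (l 16764304) (l 16762312))))))) (b (c (c (l 16754344) (l 16751872)) (a (l 16751832) (l 16755488))) (c (a (b (l 16757936) (c (l 16758136) (l 16766496))) (a (l 16757544) (l 16756704))) (a (b (l 16758832) (c (l 16764472) (l 16762536))) (l 16754400)))))), by decide +kernel⟩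

def k9_pp_012_a : ∃ t, chk3 f_pp_012_a t 31 6 1 = true :=
  ⟨(b (a (b (c (a (l 16699048) (l 16694680)) (l 16695912)) (a (c (l 16717632) (l 16711824)) (c (l 16702960) (l 16707928)))) (c (b (a (l 16674968) (l 16676256)) (a (l 16702712) (l 16692936))) (b (a (l 16680872) (l 16681240)) (a (l 16686888) (l 16686776))))) (a (b (a (c (b (l 16731392) (l 16729984)) (l 16730944)) (c (l 16723008) (l 16717200))) (a (b (c (l 16744264) (l 16745264)) (c (c (l 16749048) (l 16747064)) (b (l 16752408) (l 16746680)))) (a (c (a (l 16739984) (l 16736480)) (l 16734616)) (c (l 16731224) (l 16727872))))) (b (b (c (l 16699304) (l 16693960)) (c (a (l 16714728) (l 16693680)) (l 16704600))) (b (c (a (l 16721288) (l 16699360)) (a (l 16724320) (l 16702320))) (c (a (l 16725424) (b (l 16703984) (l 16707296))) (a (l 16730488) (l 16718728))))))), by decide +kernel⟩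

def k10_pp_012_a : ∃ t, chk3 f_pp_012_a t 60 14 1 = true :=
  ⟨(l 3), by decide +kernel⟩

def k11_pp_012_a : ∃ t, chk3 f_pp_012_a t 122 28 1 = true :=
  ⟨(b (c (a (l 3) (a (b (b (c (c (l 19495115351) (l 18958242343)) (c (l 18958240119) (l 18421361943))) (l 3)) (l 3)) (b (c (b (c (l 16767008) (l 16765960)) (c (l 13589533671) (l 14126402583))) (b (c (l 16764944) (l 16763936)) (c (b (l 16273882343) (l 14126399799)) (a (l 19495105959) (l 16766920))))) (a (l 3) (b (b (c (l 18958237991) (l 19495105383)) (l 3)) (l 3)))))) (a (l 3) (b (b (a (a (c (l 18421361751) (l 18958227719)) (c (c (l 22716328935) (l 22716327175)) (b (l 27011289271) (l 22716323639)))) (c (c (l 16762960) (l 16764616)) (c (l 16763680) (l 16762760)))) (a (l 3) (c (c (a (l 20031975223) (l 20568844039)) (a (l 20031973799) (l 23253196103))) (a (b (l 23253194055) (l 18958227815)) (c (l 23790065703) (l 24326935335)))))) (a (l 3) (a (l 3) (b (b (c (l 20031972823) (l 21105711319)) (l 3)) (l 3))))))) (l 3)), by decide +kernel⟩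

def k12_pp_012_a : ∃ t, chk3 f_pp_012_a t 123 56 1 = true :=
  ⟨(c (a (a (b (c (c (l 16769880) (l 16768872)) (c (l 16767880) (l 16766912))) (c (b (c (l 14663273559) (b (l 16766320) (l 15200142135))) (c (b (l 11978919863) (l 14126403911)) (b (l 12515788791) (l 14126401799)))) (b (c (b (l 16765384) (l 15737011223)) (b (l 16764464) (l 16273880327))) (c (a (l 14663270391) (l 17884492279)) (a (l 14663268663) (l 18421361127)))))) (b (c (l 16760712) (l 16758760)) (b (c (l 16763936) (l 16762112)) (a (c (c (l 16767384) (l 16766488)) (c (l 16768224) (l 19495103335))) (c (l 16765248) (l 16763504)))))) (a (b (l 16761552) (c (l 16766864) (l 16765096))) (b (l 16752896) (b (l 16756232) (l 16763696))))) (a (b (a (c (c (l 16765960) (l 16765040)) (b (l 16757264) (l 16764864))) (c (l 16756896) (l 16755120))) (a (b (a (c (c (l 18958232007) (l 20568842903)) (c (l 22716325239) (l 22716323895))) (c (l 16763512) (l 16763776))) (c (c (a (l 15737008791) (l 19495103559)) (a (l 16273878199) (l 19495101079))) (a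 (c (l 16810747639) (l 17347616967)) (b (l 23790065495) (l 18421357655))))) (a (c (b (l 16761192) (c (l 21105714055) (l 23253195719))) (b (l 16759504) (c (l 16763576) (l 16764088)))) (c (b (l 16759520) (l 16761824)) (l 16761656))))) (b (l 16761464) (a (c (l 16763408) (l 16761800)) (l 16759272))))), by decide +kernel⟩

def k13_pp_012_a : ∃ t, chk3 f_pp_012_a t 123 57 2 = true :=
  ⟨(a (a (l 3) (a (b (b (c (c (l 15200144279) (l 15200139799)) (c (b (l 16273880919) (l 13589527159)) (b (l 17347621079) (l 15737009191)))) (l 3)) (l 3)) (a (b (b (c (c (l 18958238487) (l 19495107367)) (c (l 20568847031) (l 20568845895))) (l 3)) (l 3)) (b (c (b (c (l 16767408) (l 16766560)) (c (l 13589529943) (l 13589528823))) (b (c (l 16765728) (l 16764912)) (c (l 13589527255) (l 14126396615)))) (l 3))))) (b (c (a (a (b (c (l 16766144) (l 16765304)) (c (b (l 16767744) (l 14663271111)) (b (l 16768240) (l 15200140615)))) (b (l 16764032) (c (l 16769240) (l 16768448)))) (a (b (l 16762344) (l 16764536)) (l 16766992)))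 (a (b (c (l 16768880) (l 16768072)) (c (a (b (l 16767440) (l 15200139223)) (l 16767664)) (a (b (l 16766656) (l 15737008615)) (l 16766896)))) (b (l 16759880) (l 16764776)))) (a (b (c (c (a (b (l 11442046391) (l 3)) (b (l 14126399783) (l 11442046263))) (a (b (l 11978915943) (l 3)) (b (l 15737010679) (l 11978915783)))) (c (a (l 11442043511) (b (l 16810751319) (l 12515785255))) (a (l 11978912967) (b (l 17347620935) (l 13052654743))))) (l 3)) (a (c (b (c (b (l 16766600) (l 15200140951)) (b (l 16765840) (l 17884493399))) (c (b (l 13052658151) (l 11442046311)) (b (l 13052657063) (l 11442045111)))) (b (b (l 16764728) (c (l 18421363191) (l 18958233175))) (c (b (l 13589526743) (l 11978914679)) (b (l 14663267271) (l 11978913527))))) (c (b (c (l 16765480) (l 16764744)) (c (b (l 16767168) (l 13589528871)) (b (l 16766456) (l 15200139911)))) (b (l 16766272) (c (b (l 16765760) (l 15200139047)) (b (l 16765080) (l 15737008967))))))))), by decide +kernel⟩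

def k14_pp_012_a : ∃ t, chk3 f_pp_012_a t 123 57 3 = true :=
  ⟨(a (b (a (l 3) (a (b (c (c (b (l 17884490535) (l 14126394951)) (b (l 18958230759) (l 14126393479))) (b (l 20031970567) (l 14663262455))) (l 3)) (c (b (c (b (l 16763960) (l 19495102679)) (l 21105713223)) (a (l 3) (c (l 14126395271) (l 14663264855)))) (b (c (l 22179453927) (l 22179453079)) (b (l 16273875479) (l 3)))))) (l 3)) (b (a (c (b (c (l 16767280) (l 16766504)) (a (b (c (l 16765888) (l 16766448)) (c (l 16273878199) (l 17347618727))) (c (l 16766144) (l 16762784)))) (b (c (l 16760504) (l 16759760)) (c (a (b (l 16763088) (l 17347617783)) (l 16762064)) (a (l 18958228967) (l 16761352))))) (b (l 16762816) (c (l 16765912) (l 16759248)))) (a (b (c (c (a (l 11978911719) (b (l 18421361319) (l 13589524423))) (a (l 11978911799) (b (l 18958231383) (l 14126394295)))) (a (c (l 12515781351) (l 13052651255)) (b (c (l 18958230567) (l 18421358631)) (l 14663263895)))) (l 3)) (a (c (b (c (b (l 16763648) (l 16766144)) (l 18421359431)) (c (b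 (l 15200137079) (l 11978912551)) (b (l 15737007079) (l 11978911607)))) (b (c (l 18421358567) (l 18421357735)) (b (l 16273876471) (l 11978910391)))) (c (b (l 16762256) (b (l 16765392) (a (l 15200136855) (l 18421361607)))) (b (l 16760912) (c (l 16273876263) (l 16273875431)))))))), by decide +kernel⟩

def k15_pp_012_a : ∃ t, chk3 f_pp_012_a t 61 29 1 = true :=
  ⟨(a (l 3) (a (l 3) (a (l 3) (a (l 3) (a (l 3) (b (b (b (b (c (c (c (l 11978916215) (l 11978915143)) (c (l 11978914327) (l 12515784295))) (c (l 13052653831) (l 14126393815))) (l 3)) (l 3)) (l 3)) (l 3))))))), by decide +kernel⟩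

def k16_pp_012_a : ∃ t, chk3 f_pp_012_a t 30 15 1 = true :=
  ⟨(l 3), by decide +kernel⟩

def k17_pp_012_a : ∃ t, chk3 f_pp_012_a t 62 28 1 = true :=
  ⟨(a (b (a (b (c (l 16758240) (l 16744296)) (c (a (l 16759192) (l 16750544)) (l 16759536))) (c (c (l 16754480) (l 16752816)) (l 16750488))) (c (a (a (b (c (l 16764464) (l 16762904)) (b (c (l 16767840) (l 16761160)) (c (a (c (l 16766056) (l 16765360)) (l 16764040)) (c (l 16766472) (l 16765808))))) (b (c (l 16755832) (l 16754312)) (c (c (l 16765968) (l 16765272)) (l 16764248)))) (b (c (l 16761224) (l 16749272)) (c (l 16763192) (l 16759248)))) (a (b (c (l 16759760) (l 16758360)) (c (a (b (l 16759776) (c (l 16765160) (l 16767144))) (l 16762944)) (a (b (l 16758464) (c (l 16766520) (l 16765912))) (l 16761688)))) (b (l 16757688) (c (l 16757984) (l 16762032)))))) (b (a (c (l 16746784) (l 16754320)) (c (l 16739912) (l 16747664))) (c (a (c (b (l 16743920) (l 16759040)) (l 16755392)) (c (l 16749880) (l 16748656))) (a (c (l 16754144) (l 16752968))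 (l 16746944))))), by decide +kernel⟩

def k18_pp_012_a : ∃ t, chk3 f_pp_012_a t 248 58 2 = true :=
  ⟨(b (a (a (b (c (c (b (l 14663270087) (l 11442045783)) (b (l 15737010599) (l 11978915591))) (c (b (l 15737009623) (l 12515785575)) (b (l 16767088) (l 12515784679)))) (l 3)) (c (b (b (l 16768376) (c (l 16767216) (l 16766584))) (c (b (c (l 11978917015) (l 11978916247)) (l 8220821111)) (b (l 12515786407) (l 8757691175)))) (b (c (l 16767336) (l 16767376)) (c (b (l 13052656439) (l 9294561271)) (b (l 14126397255) (l 9294560503)))))) (c (b (c (l 16766768) (l 16768752)) (a (c (b (l 16766688) (l 12515787079)) (b (l 16766080) (l 12515786391))) (c (l 16765592) (l 16765000)))) (b (l 16765200) (a (b (l 16767808) (c (l 13052656487) (l 16767376))) (l 16766752))))) (c (a (l 3) (a (b (b (c (c (l 9294563031) (l 9294562711)) (l 9294562119)) (l 3)) (l 3)) (b (c (b (l 16769928) (c (l 9831433831) (l 9831433463))) (b (l 16766744) (l 9831432983))) (a (l 3) (b (c (l 7683950327) (l 8220820215)) (l 3)))))) (a (l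 3) (a (b (b (c (l 9831432263) (l 10905172999)) (l 3)) (l 3)) (b (c (b (l 16766192) (l 10905173751)) (b (l 16765656) (l 11978914535))) (b (c (l 7683949223) (l 8220819143)) (l 3))))))), by decide +kernel⟩

def k19_pp_012_a : ∃ t, chk3 f_pp_012_a t 248 58 3 = true :=
  ⟨(b (a (a (b (b (c (c (l 16766464) (l 16767160)) (l 16810747383)) (c (c (l 13589525543) (l 14126395511)) (l 14663265015))) (l 3)) (c (b (c (l 16766760) (l 16766168)) (c (b (l 14126396583) (l 10368301255)) (b (l 15200137431) (l 10905171159)))) (b (l 15737004679) (c (l 13052652551) (l 14126394775))))) (c (b (l 16766624) (a (c (l 12515783271) (l 12515782487)) (l 16763016))) (b (l 16760232) (a (c (l 13052652311) (l 16765896)) (l 16761936))))) (a (l 3) (a (b (b (c (a (l 9294558775) (l 13052654695)) (l 13052653639)) (l 3)) (l 3)) (c (b (b (l 16767480) (a (l 11978913383) (l 16768280))) (b (l 8757687847) (l 3))) (b (c (l 10905170215) (l 11978910967)) (c (l 8757688983) (l 9294558983))))))), by decide +kernel⟩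

def k20_pp_012_a : ∃ t, chk3 f_pp_012_a t 249 58 1 = true :=
  ⟨(c (b (a (b (c (l 16760480) (l 16759256)) (c (l 16768040) (l 16766896))) (c (l 16763528) (l 16762376))) (c (a (a (b (c (l 16768840) (l 16768296)) (c (b (c (l 10368304391) (l 10905174791)) (c (l 7147080055) (l 7683950471))) (b (l 10905174343) (c (l 8220820887) (l 8757691271))))) (b (l 16766904) (b (l 16768648) (c (l 16768744) (l 16769568))))) (b (l 16767024) (c (l 16766992) (l 16769120)))) (a (a (b (c (l 16765136) (l 16764608)) (c (b (l 10905173335) (l 9294561671)) (b (l 16769000) (l 9831431783)))) (b (l 16763224) (c (l 10905172695) (l 16768000)))) (a (b (l 16761568) (l 16763976)) (l 16766360))))) (a (b (c (l 16764560) (l 16763472)) (c (b (c (l 16765896) (l 16768008)) (a (b (l 11978913015) (l 9831429735)) (c (l 16767528) (l 16764432)))) (b (l 16765960) (a (a (l 8757687495) (l 11442040935)) (l 16766368))))) (b (l 16760736) (b (l 16764496) (c (l 16767464) (l 16766560)))))), by decide +kernel⟩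

def k21_pp_012_a : ∃ t, chk3 f_pp_012_a t 124 59 1 = true :=
  ⟨(a (l 3) (b (c (a (a (l 3) (b (c (c (b (c (l 8220821495) (l 8757691927)) (c (l 5536467687) (l 6073338151))) (b (l 8757691559) (l 6073337799))) (c (b (l 9831432455) (l 6610207831)) (b (l 10905173207) (l 7147077879)))) (l 3))) (c (a (b (c (b (l 16766944) (c (l 9294562679) (l 9294562231))) (b (l 16766472) (l 8757691127))) (b (c (a (l 4999596039) (l 8757692039)) (l 7147079431)) (l 3))) (b (c (l 16765864) (l 16765416)) (c (b (l 16770232) (c (l 7147079991) (l 7683950487))) (b (l 16767184) (l 7683950055))))) (a (b (b (l 16768408) (a (l 9831431767) (l 16766584))) (b (a (l 11442045367) (l 8220819511)) (l 3))) (b (l 16767368) (c (b (l 16766768) (l 8757691079)) (b (l 16766352) (l 16768736))))))) (b (c (a (a (l 3) (b (l 11442043271) (l 7683948007))) (a (b (l 16764896) (l 9831430263)) (l 16763888))) (b (a (a (l 3) (l 13052654583)) (l 16763224)) (a (l 10368300167) (c (l 16767288) (l 16766888))))) (a (l 3) (c (a (b (l 9294560679) (l 3))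 (b (l 16765744) (l 9831431447))) (c (a (l 8220818791) (l 6610204967)) (a (l 8757689271) (l 16767928))))))) (a (l 3) (a (l 3) (a (l 3) (b (b (c (c (c (l 16770512) (l 16768816)) (l 6610207479)) (c (l 16767512) (l 16766792))) (l 3)) (l 3))))))), by decide +kernel⟩

def k22_pp_012_a : ∃ t, chk3 f_pp_012_a t 125 29 1 = true :=
  ⟨(b (a (c (b (c (l 16758488) (l 16757376)) (c (a (l 16764864) (l 16761520)) (b (l 16761016) (l 16763440)))) (b (l 16758440) (c (b (l 16765296) (l 16762544)) (l 16763032)))) (b (c (l 16753824) (l 16754488)) (c (c (l 16756488) (l 16755584)) (l 16754304)))) (a (c (b (a (a (b (c (l 16763984) (l 16763104)) (c (c (l 16769168) (l 16768760)) (c (l 16768352) (l 16765328)))) (b (c (l 16762328) (l 16761456)) (c (l 16767312) (l 16763888)))) (c (c (l 16766472) (l 16766056)) (c (l 16765648) (l 16765240)))) (a (c (a (b (b (c (l 8220821191) (l 7147078599)) (a (l 3) (c (l 16770232) (l 16768552)))) (l 3)) (b (b (l 16769096) (c (l 16770456) (l 16767472))) (b (c (l 6073338583) (l 6610208807))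 (l 6)))) (a (b (c (b (l 16770104) (l 6610208247)) (b (l 16767112) (l 16769384))) (l 3)) (b (c (l 16769128) (l 16768768)) (a (b (l 7147078711) (l 3)) (l 6))))) (b (c (c (l 16767400) (l 16769656)) (l 16767480)) (l 6)))) (b (c (a (b (l 16761432) (c (l 16766744) (l 16768984))) (l 16764656)) (a (b (l 16760624) (l 16765792)) (l 16763896))) (a (a (b (b (c (l 16769184) (l 16765840)) (c (l 7683948887) (l 16769496))) (l 3)) (c (b (l 6610205479) (a (l 5536463607) (l 6))) (b (l 16767544) (c (l 6610207495) (l 16769584))))) (b (c (l 16768416) (l 16767744)) (l 6))))) (b (c (c (b (l 16760080) (l 16762472)) (b (l 16764504) (l 16761728))) (c (l 16762368) (l 16759032))) (l 6)))), by decide +kernel⟩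

def k23_pp_012_a : ∃ t, chk3 f_pp_012_a t 63 14 1 = true :=
  ⟨(b (a (b (c (c (l 16730224) (l 16728936)) (l 16729808)) (c (c (b (l 16737216) (l 16741976)) (l 16742432)) (b (l 16734528) (l 16739544)))) (b (c (l 16719816) (l 16717408)) (c (b (l 16723408) (l 16729200)) (a (l 16743328) (l 16731952))))) (a (b (c (b (a (l 16749696) (l 16742920)) (a (l 16751944) (l 16742592))) (b (l 16744616) (a (l 16752992) (l 16756912)))) (a (a (b (c (l 16755888) (l 16759728)) (l 6)) (l 6)) (l 6))) (a (b (c (l 16738912) (l 16735152)) (l 6)) (l 6)))), by decide +kernel⟩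

def k24_pp_012_a : ∃ t, chk3 f_pp_012_a t 31 15 1 = true :=
  ⟨(a (a (l 3) (b (l 6) (l 3))) (l 6)), by decide +kernel⟩

theorem s25_pp_012_a : ∃ t, chk3 f_pp_012_a t 248 58 1 = true := ex3_c k18_pp_012_a k19_pp_012_a

theorem s26_pp_012_a : ∃ t, chk3 f_pp_012_a t 124 58 1 = true := ex3_a s25_pp_012_a k20_pp_012_a

theorem s27_pp_012_a : ∃ t, chk3 f_pp_012_a t 124 29 1 = true := ex3_b s26_pp_012_a k21_pp_012_a

theorem s28_pp_012_a : ∃ t, chk3 f_pp_012_a t 62 29 1 = true := ex3_a s27_pp_012_a k22_pp_012_a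

theorem s29_pp_012_a : ∃ t, chk3 f_pp_012_a t 62 14 1 = true := ex3_b k17_pp_012_a s28_pp_012_a

theorem s30_pp_012_a : ∃ t, chk3 f_pp_012_a t 31 14 1 = true := ex3_a s29_pp_012_a k23_pp_012_a

theorem s31_pp_012_a : ∃ t, chk3 f_pp_012_a t 31 7 1 = true := ex3_b s30_pp_012_a k24_pp_012_a

theorem s32_pp_012_a : ∃ t, chk3 f_pp_012_a t 123 57 1 = true := ex3_c k13_pp_012_a k14_pp_012_a

theorem s33_pp_012_a : ∃ t, chk3 f_pp_012_a t 123 28 1 = true := ex3_b k12_pp_012_a s32_pp_012_a

theorem s34_pp_012_a : ∃ t, chk3 f_pp_012_a t 61 28 1 = true := ex3_a k11_pp_012_a s33_pp_012_a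

theorem s35_pp_012_a : ∃ t, chk3 f_pp_012_a t 61 14 1 = true := ex3_b s34_pp_012_a k15_pp_012_a

theorem s36_pp_012_a : ∃ t, chk3 f_pp_012_a t 30 14 1 = true := ex3_a k10_pp_012_a s35_pp_012_a

theorem s37_pp_012_a : ∃ t, chk3 f_pp_012_a t 30 7 1 = true := ex3_b s36_pp_012_a k16_pp_012_a

theorem s38_pp_012_a : ∃ t, chk3 f_pp_012_a t 15 7 1 = true := ex3_a s37_pp_012_a s31_pp_012_a

theorem s39_pp_012_a : ∃ t, chk3 f_pp_012_a t 30 13 1 = true := ex3_a k7_pp_012_a k8_pp_012_a

theorem s40_pp_012_a : ∃ t, chk3 f_pp_012_a t 30 6 1 = true := ex3_b k6_pp_012_a s39_pp_012_a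

theorem s41_pp_012_a : ∃ t, chk3 f_pp_012_a t 15 6 1 = true := ex3_a s40_pp_012_a k9_pp_012_a

theorem s42_pp_012_a : ∃ t, chk3 f_pp_012_a t 15 3 1 = true := ex3_b s41_pp_012_a s38_pp_012_a

theorem s43_pp_012_a : ∃ t, chk3 f_pp_012_a t 7 3 1 = true := ex3_a k5_pp_012_a s42_pp_012_a

theorem s44_pp_012_a : ∃ t, chk3 f_pp_012_a t 14 2 1 = true := ex3_b k2_pp_012_a k3_pp_012_a

theorem s45_pp_012_a : ∃ t, chk3 f_pp_012_a t 7 2 1 = true := ex3_a s44_pp_012_a k4_pp_012_a

theorem s46_pp_012_a : ∃ t, chk3 f_pp_012_a t 7 1 1 = true := ex3_b s45_pp_012_a s43_pp_012_a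

theorem s47_pp_012_a : ∃ t, chk3 f_pp_012_a t 3 1 1 = true := ex3_a k1_pp_012_a s46_pp_012_a

theorem s48_pp_012_a : ∃ t, chk3 f_pp_012_a t 1 1 1 = true := ex3_a k0_pp_012_a s47_pp_012_a

theorem c_pp_012_a : CertF 0 536870912 0 536870912 134217728 67108864 false true true .pnp 0 1 2
    ndF0q0 ndF1q2a pcF1 cut_pp_012_a Ext.none :=
  certF2 (fam := false) (s1 := true) (s2 := true) (a := 0) (b := 1) (c := 2) (cn := .pnp) (n1 := ndF0q0) (n2 := ndF1q2a) (pc := pcF1) (cut := cut_pp_012_a) (xt := Ext.none) (P1 := 0) (W1 := 536870912) (P2 := 0) (W2 := 536870912) (P3 := 134217728) (W3 := 67108864)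
    rfl (fun _ => rfl) s48_pp_012_a

noncomputable def cut_pp_012_b : Cut := Cut.of [[⟨0, 0, 0, 67108864⟩, ⟨1, 1, 0, 67108864⟩, ⟨2, 1, 0, 67108864⟩]]

noncomputable def f_pp_012_b : ℕ → ℕ → ℕ → ℕ → Bool := onCell 536870912 536870912 1239849684 370763052 134217728 67108864
    (rowF 2 false true true .pnp 0 1 2 (qsf 0 536870912 1239849684 370763052 1) ndF0q0 ndF1q2b pcF1 cut_pp_012_b Ext.none)

def k0_pp_012_b : ∃ t, chk3 f_pp_012_b t 1 1 1 = true :=
  ⟨(a (b (l 3) (l 2)) (a (b (a (b (a (l 3) (b (l 3) (l 3))) (l 3)) (b (b (a (a (b (c (a (l 16892664) (l 16941976)) (a (b (l 16886232) (l 16909824)) (l 16909872))) (c (l 16981936) (a (l 16944344) (l 16956952)))) (b (c (l 16968808) (l 16927216)) (c (l 17018792) (l 16974760)))) (a (b (c (l 17004528) (l 16948928)) (l 16985112)) (b (c (l 17039352) (l 16967648)) (l 17056184)))) (b (a (a (c (l 17025488) (l 16994200)) (l 17000072)) (c (l 17121344) (l 17056704))) (a (a (l 32917366503) (l 17082024)) (c (l 17161928) (l 17099992))))) (a (a (l 3) (b (c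 (l 17148928) (l 17112248)) (l 17174712))) (a (b (l 17165392) (l 17212304)) (b (l 17200136) (l 17248592)))))) (a (l 2) (b (a (l 3) (b (l 17254632) (l 17258816))) (l 2)))) (b (a (b (a (a (b (b (c (l 17072120) (l 16981472)) (l 17083200)) (c (l 17201720) (l 17114432))) (b (c (l 17132760) (l 17019512)) (l 17146168))) (a (b (b (c (l 17124360) (l 16983216)) (l 17124216)) (l 17152256)) (b (c (l 17178816) (l 17006808)) (l 17174736)))) (a (b (c (l 17295520) (l 17210824)) (l 17305080)) (b (c (l 17383184) (l 17262656)) (l 17383304)))) (b (a (b (a (c (l 17185928) (l 16973488)) (c (l 17174280) (l 16910640))) (c (l 17356992) (b (l 17110480) (l 17198040)))) (b (a (c (l 17133688) (l 16804160)) (b (l 16755384) (l 16951704))) (a (c (l 17377768) (l 17112200)) (c (l 17369320) (l 17047208))))) (a (b (c (l 17468600) (l 17300760)) (l 17462312)) (b (c (l 17539832) (l 17305968)) (l 17534704))))) (a (b (a (b (l 17331656) (l 17337336)) (b (l 17413336) (l 17418928))) (b (l 184785937287) (l 2))) (b (a (b (l 17500392)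 (l 17508152)) (b (l 17589832) (l 17604640))) (a (l 17480368) (l 17575952))))))), by decide +kernel⟩

theorem c_pp_012_b : CertF 0 536870912 1239849684 370763052 134217728 67108864 false true true .pnp 0 1 2
    ndF0q0 ndF1q2b pcF1 cut_pp_012_b Ext.none :=
  certF2 (fam := false) (s1 := true) (s2 := true) (a := 0) (b := 1) (c := 2) (cn := .pnp) (n1 := ndF0q0) (n2 := ndF1q2b) (pc := pcF1) (cut := cut_pp_012_b) (xt := Ext.none) (P1 := 0) (W1 := 536870912) (P2 := 1239849684) (W2 := 370763052) (P3 := 134217728) (W3 := 67108864)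
    rfl (fun _ => rfl) k0_pp_012_b

noncomputable def cut_pp_022_a : Cut := Cut.of [[⟨0, 0, 0, 67108864⟩, ⟨1, 1, 0, 67108864⟩, ⟨2, 1, 0, 67108864⟩]]

noncomputable def f_pp_022_a : ℕ → ℕ → ℕ → ℕ → Bool := onCell 1073741824 536870912 0 536870912 134217728 67108864
    (rowF 2 false true true .pp 0 2 2 (qsf 0 536870912 0 536870912 2) ndF0q0 ndF1q2a pcF2 cut_pp_022_a Ext.none)

def k0_pp_022_a : ∃ t, chk3 f_pp_022_a t 4 4 1 = true :=
  ⟨(a (a (b (a (c (c (l 16945264) (l 16670248)) (l 16598520)) (c (l 16808800) (l 16587536))) (a (c (b (c (l 16902200) (l 16631496)) (a (c (l 16852856) (l 16620608)) (l 16716192))) (b (l 16610336) (l 16620552))) (c (b (l 16765880) (l 16711656)) (l 16604560)))) (c (b (a (l 16809576) (l 16809832)) (a (l 16713144) (l 16729448))) (b (a (l 16577336) (l 16567824)) (a (l 16594680) (l 16585808))))) (a (a (c (b (l 16809272) (l 16723368)) (b (l 16537856) (l 16556576))) (a (a (b (l 16550448) (l 16569088)) (c (l 16568656) (l 16581176))) (c (b (l 16808408) (l 16589616)) (b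 (l 16581976) (a (l 16565104) (l 16556784)))))) (a (a (c (b (l 16811360) (l 16564536)) (b (l 16544224) (l 16578264))) (c (b (l 16816328) (l 16719848)) (b (l 16515112) (l 16546144)))) (a (c (l 16560232) (l 16542472)) (c (l 16559176) (l 16549056)))))), by decide +kernel⟩

def k1_pp_022_a : ∃ t, chk3 f_pp_022_a t 4 5 1 = true :=
  ⟨(a (a (a (b (c (a (c (b (l 16791592) (l 16708224)) (l 16642312)) (l 16638400)) (b (l 16634136) (l 16647312))) (b (c (c (l 16656904) (l 16658376)) (l 16660184)) (c (a (c (l 16675312) (l 16655392)) (l 16665744)) (c (l 16672336) (l 16673168))))) (c (a (b (l 16625336) (l 16649992)) (b (l 16617960) (l 16641016))) (b (l 16626288) (l 16659432)))) (b (c (a (l 16607640) (l 16595544)) (a (l 16613424) (l 16602136))) (c (a (l 16628088) (b (l 16608200) (l 16616304))) (a (l 16632688) (l 16617608))))) (a (a (b (c (l 16585088) (l 16592280)) (c (b (l 16594712) (l 16600872)) (b (l 16579992) (l 16606584)))) (a (b (c (a (l 16558448) (l 16576272)) (a (l 16565880) (l 16583840))) (c (a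 (l 16589592) (b (l 16583424) (l 16587928))) (a (l 16595816) (b (l 16590040) (l 16593976))))) (a (b (c (l 16570864) (l 16579208)) (c (b (l 16577680) (l 16581960)) (b (l 16584984) (l 16588624)))) (b (c (l 16561128) (l 16571008)) (c (b (l 16568072) (l 16572488)) (b (l 16576760) (l 16580408))))))) (a (a (b (c (b (l 16567200) (l 16569744)) (a (l 16563184) (l 16565520))) (b (c (a (l 16558880) (l 16554200)) (a (l 16568912) (l 16560776))) (c (a (l 16567984) (l 16570472)) (a (l 16572520) (l 16564376))))) (b (c (b (l 16578576) (l 16569288)) (a (l 16567368) (l 16537480))) (c (b (l 16582512) (a (l 16573208) (l 16576040))) (b (l 16568504) (a (l 16561408) (l 16563208)))))) (b (a (c (l 16571808) (l 16553176)) (c (l 16579568) (l 16558768))) (a (c (b (l 16588632) (c (l 16585840) (l 16578136))) (b (l 16572456) (l 16583216))) (c (b (l 16574008) (c (l 16591624) (l 16582992))) (b (l 16555848) (l 16581496)))))))), by decide +kernel⟩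

def k2_pp_022_a : ∃ t, chk3 f_pp_022_a t 5 2 1 = true :=
  ⟨(a (a (a (b (a (c (b (l 16845888) (l 16746312)) (l 16555760)) (c (b (l 16860104) (l 16760040)) (l 16562328))) (b (c (a (l 16587256) (b (l 16613120) (l 16576896))) (a (l 16564600) (l 16570416))) (c (a (b (l 16580312) (l 16592496)) (b (l 16586240) (l 1))) (a (b (l 16560416) (l 16574696)) (l 16592896))))) (a (b (c (b (l 16875760) (c (l 16987360) (l 16562072))) (b (l 16526320) (l 16546064))) (b (c (l 37614176263) (l 16575752)) (l 1))) (b (a (c (b (l 16888128) (l 16660744)) (l 103649213991)) (a (c (b (l 16893688) (l 16770232)) (l 93448670679)) (b (c (l 198675528135) (l 16554432)) (l 1)))) (l 1)))) (b (b (l 1) (l 1)) (l 1))) (l 1)), by decide +kernel⟩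

def k3_pp_022_a : ∃ t, chk3 f_pp_022_a t 8 6 1 = true :=
  ⟨(a (b (a (b (c (a (c (l 16677944) (l 16668328)) (l 16678096)) (a (l 16690288) (l 16659176))) (a (c (c (l 16690744) (l 16691496)) (c (l 16692088) (l 16703016))) (c (l 16690200) (l 16671040)))) (c (b (l 16662536) (l 16673576)) (b (l 16665464) (l 16676216)))) (a (a (a (b (c (c (l 16706536) (l 16707128)) (l 16713008)) (c (c (l 16724528) (l 16719840)) (b (l 16706808) (l 16713136)))) (b (c (l 16700744) (l 16691480)) (c (l 16718400) (l 16714296)))) (c (b (l 16691688) (b (l 16711160) (l 16717128))) (b (l 16703832) (l 16715632)))) (b (c (b (l 16681840) (l 16687296)) (a (l 16692552) (l 16681464))) (c (a (l 16696400) (b (l 16665824) (l 16692112))) (b (l 16694984) (l 16700336)))))) (b (a (c (b (l 16642752) (l 16652224)) (b (l 16625704) (l 16655784))) (c (b (b (l 16622264) (l 16626160)) (a (l 16636920) (c (l 16625912) (l 16628288)))) (b (l 16628864) (b (l 16634368) (l 16638000))))) (b (a (c (a (l 16667368) (l 16648208)) (l 16664856)) (c (a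 (b (l 16643296) (l 16654176)) (c (b (l 16618848) (l 16650832)) (l 16643248))) (a (l 16648784) (l 16637616)))) (c (a (b (a (l 16674768) (l 16669208)) (a (l 16683792) (c (l 16681512) (l 16658928)))) (c (b (a (l 16666400) (c (l 16652232) (l 16661736))) (a (l 16667488) (a (l 16664504) (c (l 16662856) (l 16651488))))) (b (a (l 16643568) (l 16660320)) (a (l 16676296) (c (l 16662192) (l 16671848)))))) (a (b (l 16671712) (l 16668928)) (a (b (l 16641008) (l 16673960)) (b (l 16647192) (c (l 16660152) (l 16669104))))))))), by decide +kernel⟩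

def k4_pp_022_a : ∃ t, chk3 f_pp_022_a t 36 6 1 = true :=
  ⟨(b (b (c (a (l 16611144) (l 16602832)) (l 16609464)) (c (c (b (l 16610816) (l 16621416)) (l 16610232)) (a (l 16622128) (l 16602584)))) (b (b (c (c (l 16624528) (l 16619552)) (a (l 16629400) (l 16624040))) (c (a (c (l 16646184) (l 16644040)) (c (l 16630640) (l 16638968))) (a (l 16641088) (c (l 16636936) (l 16635032))))) (c (b (c (a (a (l 16658912) (l 16646120)) (a (l 16643688) (l 16641144))) (a (l 16645352) (a (l 16631248) (l 16639192)))) (a (c (b (c (l 16646144) (l 16645224)) (c (a (l 16653224) (l 16651032)) (l 16656536))) (a (l 16658568) (b (l 16642744) (l 16648912)))) (c (a (b (l 16642184) (c (a (l 16649296) (l 16648112)) (l 16647848))) (b (c (l 16640160) (l 16639248)) (l 1))) (b (a (l 16640384) (l 16637912)) (a (l 16646592) (l 1)))))) (a (b (c (l 16654008) (l 16652280)) (c (a (l 16646432) (l 16654680)) (l 16654248))) (b (c (a (l 16629400) (l 16637344)) (l 16636888)) (c (b (l 16637456) (a (l 16644968) (l 1))) (b (l 16635816)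 (l 16642216)))))))), by decide +kernel⟩

def k5_pp_022_a : ∃ t, chk3 f_pp_022_a t 37 6 1 = true :=
  ⟨(a (b (b (c (a (l 16596888) (l 16589736)) (a (l 16581304) (l 16597840))) (c (a (l 16602120) (c (l 16606208) (l 16603520))) (a (l 16606504) (b (l 16600704) (l 16605504))))) (b (c (b (a (l 16613696) (a (l 16611472) (c (l 16600792) (l 16598448)))) (c (a (l 16616048) (l 16629424)) (a (l 16613896) (l 14528769495)))) (a (b (l 16619768) (l 16621384)) (b (c (l 16618392) (l 16616320)) (a (l 16619264) (c (l 16618888) (l 16616992)))))) (b (b (c (a (c (l 16624944) (l 16622952)) (c (a (l 16622848) (l 16621528)) (l 16631120))) (a (l 10233802391) (c (l 16629232) (l 16627432)))) (a (c (c (l 16630992) (l 16629104)) (c (l 16627304) (l 16625600))) (l 1))) (l 1)))) (b (b (c (a (l 16586184) (l 16587384)) (a (l 16592208) (l 16578752))) (c (a (c (l 16605296) (l 16602376)) (c (l 16607336) (l 16603920))) (a (b (l 16594872) (l 16598784)) (c (l 16600728) (l 16597760))))) (b (c (a (b (c (l 16621968) (l 16619400))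 (c (b (l 16620128) (l 16626016)) (b (l 16617736) (l 16623744)))) (b (c (l 16613072) (l 16610072)) (c (l 16624392) (l 16621664)))) (a (c (b (l 16606512) (b (l 16615480) (l 16621592))) (b (l 16604256) (b (l 16613360) (l 16619552)))) (b (c (l 16607248) (l 16604600)) (c (l 16619080) (l 16619912))))) (l 1)))), by decide +kernel⟩

def k6_pp_022_a : ∃ t, chk3 f_pp_022_a t 19 6 1 = true :=
  ⟨(a (b (a (b (c (c (a (l 16588920) (l 16591192)) (a (l 16584408) (l 16586144))) (a (l 16580832) (c (l 16581432) (l 16577056)))) (c (a (c (l 16608952) (b (l 16599616) (l 16599848))) (c (b (l 16584544) (l 16594664)) (b (l 16601008) (l 16600992)))) (a (b (l 16588808) (c (l 16596352) (l 16593088))) (b (c (l 16596776) (l 16592824)) (c (l 16597080) (b (l 16590576) (l 16596192))))))) (c (b (c (b (l 16592392) (l 16601168)) (a (l 16588112) (l 16590168))) (a (c (l 16612544) (b (l 16581616) (l 16591824))) (c (l 16593504) (l 16609296)))) (b (a (c (l 16582920) (l 16578088)) (c (l 16584520) (l 16579248))) (a (b (c (l 16587440)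 (l 16583080)) (c (l 16587512) (l 16593952))) (c (l 16604416) (l 16599840)))))) (b (a (a (b (c (c (l 16614288) (l 16610880)) (c (l 16607656) (b (l 16601680) (l 16597048)))) (l 1)) (l 1)) (l 1)) (l 1))) (b (b (c (a (c (l 16601432) (l 16605152)) (c (l 16585112) (l 16598488))) (a (a (l 16583272) (l 16584752)) (l 16598408))) (l 1)) (l 1))), by decide +kernel⟩

def k7_pp_022_a : ∃ t, chk3 f_pp_022_a t 8 7 1 = true :=
  ⟨(a (b (b (a (a (b (c (c (a (l 16718408) (l 16711704)) (l 16726088)) (a (l 16729952) (l 16713072))) (b (c (a (l 16728736) (l 16716736)) (l 16731456)) (l 6))) (c (b (l 16723120) (l 16718736)) (b (l 16724512) (l 16730520)))) (b (c (a (l 16710176) (l 16687648)) (a (l 16690984) (l 16699584))) (b (c (a (l 16714496) (l 16707000)) (l 16704552)) (l 6)))) (l 6)) (l 6)) (b (a (b (b (c (a (b (l 16692480) (l 16687936)) (c (b (l 16669280) (l 16675248)) (l 16681352))) (a (l 16692960) (l 16679344))) (b (c (a (l 16690032) (c (l 16686536) (l 16679992))) (a (l 16681176) (l 16678168))) (l 6))) (l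 6)) (b (c (b (a (c (a (l 16680280) (b (l 16664920) (l 16670968))) (b (l 16664320) (l 16670456))) (c (a (b (l 16662968) (c (l 16669424) (l 16668688))) (b (c (l 16661328) (l 16660536)) (c (a (l 16673152) (b (l 16665376) (l 16668440))) (l 16671920)))) (a (l 16675024) (b (l 16659368) (l 16665592))))) (b (a (c (a (l 16678864) (c (l 16677440) (l 16676752))) (l 16681904)) (c (a (c (b (l 16674000) (l 6)) (l 16680104)) (c (a (b (c (l 16672680) (l 16672328)) (l 6)) (b (c (a (l 16671944) (l 16670144)) (l 16671352)) (a (l 6) (l 1)))) (a (l 16674680) (b (l 16670824) (l 16673944))))) (a (l 16673856) (c (a (l 16672696) (l 16671712)) (l 16671544))))) (a (l 6) (a (l 6) (a (l 6) (l 1)))))) (b (a (c (l 16676488) (l 16664664)) (a (l 16672888) (c (l 16671544) (l 16659664)))) (b (a (l 16682608) (a (l 16671904) (c (l 16670560) (l 16669280)))) (a (l 6) (a (l 6) (c (l 16676888) (l 16675672))))))) (a (l 6) (a (l 6) (l 1))))) (a (l 6) (l 1)))), by decide +kernel⟩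

def k8_pp_022_a : ∃ t, chk3 f_pp_022_a t 9 7 1 = true :=
  ⟨(a (a (c (c (c (b (b (b (a (b (a (l 16664528) (a (l 16657672) (b (l 16655024) (l 16658088)))) (a (a (b (l 16664376) (c (l 16667632) (l 16667264))) (b (l 16663336) (l 16666416))) (l 16660664))) (b (l 16653664) (l 1))) (a (b (a (a (b (a (l 16670784) (l 1)) (l 1)) (l 1)) (l 1)) (l 1)) (l 1))) (l 1)) (l 1)) (b (b (b (a (b (a (l 16658480) (a (l 16656872) (l 16655760))) (a (a (l 16665176) (l 16664144)) (l 16662536))) (b (l 16652864) (l 1))) (a (b (a (l 16670904) (l 1)) (l 1)) (l 1))) (l 1)) (l 1))) (b (b (b (a (b (a (l 16657304) (c (l 16655528) (l 16654752))) (a (c (l 16663928) (l 16663208)) (l 16661440))) (b (l 16651688) (l 1))) (a (b (a (l 16669888) (l 1)) (l 1)) (l 1))) (l 1)) (l 1))) (b (b (b (a (c (b (a (l 16655792) (l 16653616)) (a (l 16662144) (l 16660000))) (b (l 16653256) (l 16659704))) (b (c (l 16650160) (l 16648680)) (l 1))) (a (b (c (l 16667528) (l 16666216)) (l 1)) (l 1))) (l 1)) (l 1))) (l 1)) (l 1)), by decide +kernel⟩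

def k9_pp_022_a : ∃ t, chk3 f_pp_022_a t 5 3 1 = true :=
  ⟨(b (l 1) (l 1)), by decide +kernel⟩

def k10_pp_022_a : ∃ t, chk3 f_pp_022_a t 3 1 1 = true :=
  ⟨(l 1), by decide +kernel⟩

theorem s11_pp_022_a : ∃ t, chk3 f_pp_022_a t 4 7 1 = true := ex3_a k7_pp_022_a k8_pp_022_a

theorem s12_pp_022_a : ∃ t, chk3 f_pp_022_a t 18 6 1 = true := ex3_a k4_pp_022_a k5_pp_022_a

theorem s13_pp_022_a : ∃ t, chk3 f_pp_022_a t 9 6 1 = true := ex3_a s12_pp_022_a k6_pp_022_a

theorem s14_pp_022_a : ∃ t, chk3 f_pp_022_a t 4 6 1 = true := ex3_a k3_pp_022_a s13_pp_022_a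

theorem s15_pp_022_a : ∃ t, chk3 f_pp_022_a t 4 3 1 = true := ex3_b s14_pp_022_a s11_pp_022_a

theorem s16_pp_022_a : ∃ t, chk3 f_pp_022_a t 2 3 1 = true := ex3_a s15_pp_022_a k9_pp_022_a

theorem s17_pp_022_a : ∃ t, chk3 f_pp_022_a t 4 2 1 = true := ex3_b k0_pp_022_a k1_pp_022_a

theorem s18_pp_022_a : ∃ t, chk3 f_pp_022_a t 2 2 1 = true := ex3_a s17_pp_022_a k2_pp_022_a

theorem s19_pp_022_a : ∃ t, chk3 f_pp_022_a t 2 1 1 = true := ex3_b s18_pp_022_a s16_pp_022_a

theorem s20_pp_022_a : ∃ t, chk3 f_pp_022_a t 1 1 1 = true := ex3_a s19_pp_022_a k10_pp_022_a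

theorem c_pp_022_a : CertF 0 536870912 0 536870912 134217728 67108864 false true true .pp 0 2 2
    ndF0q0 ndF1q2a pcF2 cut_pp_022_a Ext.none :=
  certF2 (fam := false) (s1 := true) (s2 := true) (a := 0) (b := 2) (c := 2) (cn := .pp) (n1 := ndF0q0) (n2 := ndF1q2a) (pc := pcF2) (cut := cut_pp_022_a) (xt := Ext.none) (P1 := 0) (W1 := 536870912) (P2 := 0) (W2 := 536870912) (P3 := 134217728) (W3 := 67108864)
    rfl (fun _ => rfl) s20_pp_022_a

noncomputable def cut_pp_022_b : Cut := Cut.of [[⟨0, 0, 0, 67108864⟩, ⟨1, 1, 0, 67108864⟩, ⟨2, 1, 0, 67108864⟩]]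

noncomputable def f_pp_022_b : ℕ → ℕ → ℕ → ℕ → Bool := onCell 1073741824 536870912 1239849684 370763052 134217728 67108864
    (rowF 2 false true true .pp 0 2 2 (qsf 0 536870912 1239849684 370763052 2) ndF0q0 ndF1q2b pcF2 cut_pp_022_b Ext.none)

def k0_pp_022_b : ∃ t, chk3 f_pp_022_b t 4 2 1 = true :=
  ⟨(b (a (a (b (c (a (b (c (l 17108392) (l 16850128)) (l 17147872)) (b (l 16986592) (l 17247656))) (a (b (l 16590488) (l 16722368)) (l 16571736))) (c (b (l 17345104) (l 17569960)) (a (b (l 16966408) (l 17215528)) (b (l 17028624) (l 17221648))))) (b (c (a (b (l 16994040) (l 17263888)) (b (l 17001400) (l 17280160))) (a (l 16603696) (l 16588784))) (c (b (l 17473616) (l 17623552)) (a (l 17093240) (l 17118408))))) (a (a (b (c (l 17121792) (l 16573768)) (c (l 17591008) (l 17143744))) (b (a (c (a (l 17171032) (l 17173712)) (l 16572768)) (c (b (l 17016112) (l 17313472)) (l 16555192))) (a (c (l 17607312) (l 17145704)) (c (l 17617160) (l 17146768))))) (a (b (a (c (b (l 17020544) (l 17319064)) (l 16529080))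 (c (l 17000152) (l 16546648))) (a (c (l 17623704) (l 17146224)) (c (l 17631944) (l 17147184)))) (b (c (a (l 17155640) (l 17207992)) (a (l 16545360) (l 16546216))) (c (l 17644392) (a (l 17149152) (l 17152336))))))) (a (c (a (b (l 17716144) (l 17826728)) (b (l 17779576) (l 17899824))) (b (a (b (l 17363992) (l 17475704)) (l 17431032)) (a (l 17594792) (l 17637400)))) (a (a (b (l 17546088) (l 17812024)) (a (c (l 17922680) (l 17596336)) (b (l 17674616) (l 17841400)))) (a (c (l 17941064) (b (l 17487624) (l 17691016))) (c (l 17963120) (b (l 17497792) (l 17703968))))))), by decide +kernel⟩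

def k1_pp_022_b : ∃ t, chk3 f_pp_022_b t 5 2 1 = true :=
  ⟨(a (a (a (b (b (c (a (l 17178216) (l 17024216)) (a (l 16549224) (l 16554296))) (c (l 17667920) (l 17159552))) (b (l 17709976) (l 17879168))) (b (b (a (c (b (l 17087560) (l 17385680)) (l 16561128)) (a (c (b (l 17099792) (l 17397360)) (l 16567344)) (c (b (a (l 17105680) (l 21508510519)) (l 17405136)) (a (l 16570584) (l 16572968))))) (a (c (l 17688104) (l 17169616)) (c (a (l 17698920) (l 17706496)) (a (l 17175688) (l 17117096))))) (a (l 17779464) (b (c (l 17942288) (l 17528192)) (l 17904672))))) (b (b (c (b (a (b (l 16851008) (l 17216664)) (l 80027605847)) (a (l 17428616) (l 17469168))) (a (b (l 16545192) (l 16774408)) (b (l 16539392) (l 16804048)))) (c (l 17743280) (a (l 17193152) (l 17218432)))) (b (c (l 17974072) (l 17550336)) (l 17927104)))) (b (b (a (a (b (l 1) (c (l 17509512) (l 16840416))) (l 1)) (l 1)) (c (a (b (l 17740488) (l 17889776)) (l 192772270807)) (a (a (l 17249760) (l 147136696151)) (a (l 141768059927) (l 17346096)))))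 (a (c (l 18103872) (l 17710608)) (b (c (l 18112432) (l 17661936)) (l 18032080))))), by decide +kernel⟩

def k2_pp_022_b : ∃ t, chk3 f_pp_022_b t 2 3 1 = true :=
  ⟨(a (b (a (a (b (l 17780144) (l 17799232)) (c (l 17960736) (l 17769176))) (a (a (l 17917144) (a (l 17939392) (l 17952472))) (a (l 17955784) (l 17975768)))) (a (a (l 17764920) (l 17848056)) (a (a (l 17907464) (l 17932320)) (a (l 17953320) (l 17975600))))) (a (a (a (b (l 17994392) (l 17996128)) (b (a (l 18009320) (l 18020368)) (l 18019992))) (b (l 18039280) (l 18042176))) (b (a (l 18078688) (l 18126976)) (l 18098736)))), by decide +kernel⟩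

def k3_pp_022_b : ∃ t, chk3 f_pp_022_b t 3 1 1 = true :=
  ⟨(b (a (b (l 1) (a (b (c (l 18200184) (l 17733272)) (l 18131144)) (l 223374507831))) (l 1)) (a (b (a (l 18225064) (l 18346928)) (l 18283000)) (b (l 259882958599) (l 18509784)))), by decide +kernel⟩

theorem s4_pp_022_b : ∃ t, chk3 f_pp_022_b t 2 2 1 = true := ex3_a k0_pp_022_b k1_pp_022_b

theorem s5_pp_022_b : ∃ t, chk3 f_pp_022_b t 2 1 1 = true := ex3_b s4_pp_022_b k2_pp_022_b

theorem s6_pp_022_b : ∃ t, chk3 f_pp_022_b t 1 1 1 = true := ex3_a s5_pp_022_b k3_pp_022_b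

theorem c_pp_022_b : CertF 0 536870912 1239849684 370763052 134217728 67108864 false true true .pp 0 2 2
    ndF0q0 ndF1q2b pcF2 cut_pp_022_b Ext.none :=
  certF2 (fam := false) (s1 := true) (s2 := true) (a := 0) (b := 2) (c := 2) (cn := .pp) (n1 := ndF0q0) (n2 := ndF1q2b) (pc := pcF2) (cut := cut_pp_022_b) (xt := Ext.none) (P1 := 0) (W1 := 536870912) (P2 := 1239849684) (W2 := 370763052) (P3 := 134217728) (W3 := 67108864)
    rfl (fun _ => rfl) s6_pp_022_b

noncomputable def f_pp_023 : ℕ → ℕ → ℕ → ℕ → Bool := onCell 0 536870912 1073741824 536870912 134217728 67108864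
    (rowF 1 false true true .up 0 2 3 (qsf 0 536870912 1610612736 536870912 2) ndF0q0 ndF1q3 pcF2 Cut.none Ext.none)

def k0_pp_023 : ∃ t, chk3 f_pp_023 t 1 1 1 = true :=
  ⟨(a (b (a (l 1) (b (l 1) (b (l 1) (l 297463224647)))) (b (l 255587598791) (l 245387248727))) (b (a (b (a (l 1) (b (l 1) (b (l 1) (l 300684164407)))) (b (b (b (l 18027816) (l 18123792)) (l 18039512)) (l 18034040))) (b (b (l 278135317495) (b (b (l 17906136) (l 18011360)) (b (l 17901464) (l 17896792)))) (b (b (b (l 17888696) (l 17883024)) (l 17857304)) (l 17812320)))) (b (a (l 18056920) (l 17791568)) (a (l 18050888) (l 17753280))))), by decide +kernel⟩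

theorem c_pp_023 : CertF 0 536870912 1610612736 536870912 134217728 67108864 false true true .up 0 2 3
    ndF0q0 ndF1q3 pcF2 Cut.none Ext.none :=
  certF1 (fam := false) (s1 := true) (s2 := true) (a := 0) (b := 2) (c := 3) (cn := .up) (n1 := ndF0q0) (n2 := ndF1q3) (pc := pcF2) (cut := Cut.none) (xt := Ext.none) (P1 := 0) (W1 := 536870912) (P2 := 1610612736) (W2 := 536870912) (P3 := 134217728) (W3 := 67108864)
    rfl (fun _ => rfl) k0_pp_023

noncomputable def f_pp_033 : ℕ → ℕ → ℕ → ℕ → Bool := onCell 1610612736 536870912 1610612736 536870912 134217728 67108864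
    (rowF 2 false true true .pnn 0 3 3 (qsf 0 536870912 1610612736 536870912 3) ndF0q0 ndF1q3 pcF3 Cut.none Ext.none)

def k0_pp_033 : ∃ t, chk3 f_pp_033 t 1 1 1 = true :=
  ⟨(a (b (a (b (a (l 18035224) (l 18183984)) (l 18044840)) (a (l 18492592) (l 18498152))) (a (b (a (l 17446368) (l 17697304)) (l 17568008)) (a (b (l 17891664) (l 17641376)) (b (l 18020272) (l 17736824))))) (a (b (a (l 271157084615) (l 1)) (l 4)) (l 4))), by decide +kernel⟩

theorem c_pp_033 : CertF 0 536870912 1610612736 536870912 134217728 67108864 false true true .pnn 0 3 3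
    ndF0q0 ndF1q3 pcF3 Cut.none Ext.none :=
  certF2 (fam := false) (s1 := true) (s2 := true) (a := 0) (b := 3) (c := 3) (cn := .pnn) (n1 := ndF0q0) (n2 := ndF1q3) (pc := pcF3) (cut := Cut.none) (xt := Ext.none) (P1 := 0) (W1 := 536870912) (P2 := 1610612736) (W2 := 536870912) (P3 := 134217728) (W3 := 67108864)
    rfl (fun _ => rfl) k0_pp_033

noncomputable def f_pp_101 : ℕ → ℕ → ℕ → ℕ → Bool := onCell 536870912 536870912 536870912 536870912 134217728 67108864
    (rowF 0 false true true .npn 1 0 1 (qsf 536870912 536870912 536870912 536870912 0) ndF0q1 ndF1q1 pcF0 Cut.none Ext.none)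

def k0_pp_101 : ∃ t, chk3 f_pp_101 t 1 1 1 = true :=
  ⟨(l 3), by decide +kernel⟩

theorem c_pp_101 : CertF 536870912 536870912 536870912 536870912 134217728 67108864 false true true .npn 1 0 1
    ndF0q1 ndF1q1 pcF0 Cut.none Ext.none :=
  certF0 (fam := false) (s1 := true) (s2 := true) (a := 1) (b := 0) (c := 1) (cn := .npn) (n1 := ndF0q1) (n2 := ndF1q1) (pc := pcF0) (cut := Cut.none) (xt := Ext.none) (P1 := 536870912) (W1 := 536870912) (P2 := 536870912) (W2 := 536870912) (P3 := 134217728) (W3 := 67108864)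
    rfl k0_pp_101

noncomputable def f_pp_102_a : ℕ → ℕ → ℕ → ℕ → Bool := onCell 536870912 536870912 0 536870912 134217728 67108864
    (rowF 0 false true true .npp 1 0 2 (qsf 536870912 536870912 0 536870912 0) ndF0q1 ndF1q2a pcF0 Cut.none Ext.none)

def k0_pp_102_a : ∃ t, chk3 f_pp_102_a t 1 1 1 = true :=
  ⟨(l 3), by decide +kernel⟩

theorem c_pp_102_a : CertF 536870912 536870912 0 536870912 134217728 67108864 false true true .npp 1 0 2
    ndF0q1 ndF1q2a pcF0 Cut.none Ext.none :=
  certF0 (fam := false) (s1 := true) (s2 := true) (a := 1) (b := 0) (c := 2) (cn := .npp) (n1 := ndF0q1) (n2 := ndF1q2a) (pc := pcF0) (cut := Cut.none) (xt := Ext.none) (P1 := 536870912) (W1 := 536870912) (P2 := 0) (W2 := 536870912) (P3 := 134217728) (W3 := 67108864)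
    rfl k0_pp_102_a

noncomputable def f_pp_102_b : ℕ → ℕ → ℕ → ℕ → Bool := onCell 536870912 536870912 0 536870912 134217728 67108864
    (rowF 1 false true true .npp 1 0 2 (qsf 536870912 536870912 1239849684 370763052 0) ndF0q1 ndF1q2b pcF0 Cut.none Ext.none)

def k0_pp_102_b : ∃ t, chk3 f_pp_102_b t 1 1 1 = true :=
  ⟨(l 3), by decide +kernel⟩

theorem c_pp_102_b : CertF 536870912 536870912 1239849684 370763052 134217728 67108864 false true true .npp 1 0 2
    ndF0q1 ndF1q2b pcF0 Cut.none Ext.none :=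
  certF1 (fam := false) (s1 := true) (s2 := true) (a := 1) (b := 0) (c := 2) (cn := .npp) (n1 := ndF0q1) (n2 := ndF1q2b) (pc := pcF0) (cut := Cut.none) (xt := Ext.none) (P1 := 536870912) (W1 := 536870912) (P2 := 1239849684) (W2 := 370763052) (P3 := 134217728) (W3 := 67108864)
    rfl (fun _ => rfl) k0_pp_102_b

noncomputable def f_pp_112_a : ℕ → ℕ → ℕ → ℕ → Bool := onCell 536870912 536870912 0 536870912 134217728 67108864
    (rowF 0 false true true .dn 1 1 2 (qsf 536870912 536870912 0 536870912 1) ndF0q1 ndF1q2a pcF1 Cut.none Ext.none)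

def k0_pp_112_a : ∃ t, chk3 f_pp_112_a t 1 1 1 = true :=
  ⟨(l 3), by decide +kernel⟩

theorem c_pp_112_a : CertF 536870912 536870912 0 536870912 134217728 67108864 false true true .dn 1 1 2
    ndF0q1 ndF1q2a pcF1 Cut.none Ext.none :=
  certF0 (fam := false) (s1 := true) (s2 := true) (a := 1) (b := 1) (c := 2) (cn := .dn) (n1 := ndF0q1) (n2 := ndF1q2a) (pc := pcF1) (cut := Cut.none) (xt := Ext.none) (P1 := 536870912) (W1 := 536870912) (P2 := 0) (W2 := 536870912) (P3 := 134217728) (W3 := 67108864)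
    rfl k0_pp_112_a

noncomputable def f_pp_112_b : ℕ → ℕ → ℕ → ℕ → Bool := onCell 536870912 536870912 536870912 536870912 134217728 67108864
    (rowF 1 false true true .dn 1 1 2 (qsf 536870912 536870912 1239849684 370763052 1) ndF0q1 ndF1q2b pcF1 Cut.none Ext.none)

def k0_pp_112_b : ∃ t, chk3 f_pp_112_b t 1 1 1 = true :=
  ⟨(b (a (l 3) (l 3)) (a (b (a (b (l 3) (b (l 3) (b (l 145661206071) (l 17520864)))) (l 3)) (a (b (a (b (l 17331504) (l 17396648)) (l 17386600)) (a (l 17488696) (l 17414608))) (b (b (l 127944395639) (l 2)) (l 2)))) (b (l 3) (l 2)))), by decide +kernel⟩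

theorem c_pp_112_b : CertF 536870912 536870912 1239849684 370763052 134217728 67108864 false true true .dn 1 1 2
    ndF0q1 ndF1q2b pcF1 Cut.none Ext.none :=
  certF1 (fam := false) (s1 := true) (s2 := true) (a := 1) (b := 1) (c := 2) (cn := .dn) (n1 := ndF0q1) (n2 := ndF1q2b) (pc := pcF1) (cut := Cut.none) (xt := Ext.none) (P1 := 536870912) (W1 := 536870912) (P2 := 1239849684) (W2 := 370763052) (P3 := 134217728) (W3 := 67108864)
    rfl (fun _ => rfl) k0_pp_112_b

noncomputable def cut_pp_113 : Cut := Cut.of [[⟨0, 1, 0, 39843005⟩, ⟨1, 1, 0, 39843005⟩, ⟨2, 2, 0, 5814905⟩]]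

noncomputable def f_pp_113 : ℕ → ℕ → ℕ → ℕ → Bool := onCell 536870912 536870912 536870912 536870912 134217728 67108864
    (rowF 1 false true true .nn 1 1 3 (qsf 536870912 536870912 1610612736 536870912 1) ndF0q1 ndF1q3 pcF1 cut_pp_113 Ext.none)

def k0_pp_113 : ∃ t, chk3 f_pp_113 t 1 1 1 = true :=
  ⟨(b (a (l 3) (l 3)) (a (b (a (b (l 1) (a (l 1) (l 255585185703))) (l 3)) (a (a (b (l 266323035223) (l 17582144)) (b (l 17425728) (l 17501224))) (b (a (l 17349376) (l 107005993095)) (a (l 17398408) (l 17277096))))) (b (l 3) (a (b (a (l 17301808) (l 3)) (a (l 17147184) (l 17020264))) (b (l 3) (a (l 160155901287) (b (l 3) (a (l 158544986759) (b (l 3) (a (l 159081711415) (b (l 3) (a (l 159618509063) (b (l 3) (a (l 160155342007) (b (l 3) (a (l 160155323079) (l 6))))))))))))))))), by decide +kernel⟩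

theorem c_pp_113 : CertF 536870912 536870912 1610612736 536870912 134217728 67108864 false true true .nn 1 1 3
    ndF0q1 ndF1q3 pcF1 cut_pp_113 Ext.none :=
  certF1 (fam := false) (s1 := true) (s2 := true) (a := 1) (b := 1) (c := 3) (cn := .nn) (n1 := ndF0q1) (n2 := ndF1q3) (pc := pcF1) (cut := cut_pp_113) (xt := Ext.none) (P1 := 536870912) (W1 := 536870912) (P2 := 1610612736) (W2 := 536870912) (P3 := 134217728) (W3 := 67108864)
    rfl (fun _ => rfl) k0_pp_113

noncomputable def cut_pp_123 : Cut := Cut.of [[⟨0, 1, 0, 39843005⟩, ⟨1, 1, 0, 39843005⟩, ⟨2, 2, 0, 5814905⟩]]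

noncomputable def f_pp_123 : ℕ → ℕ → ℕ → ℕ → Bool := onCell 536870912 536870912 1073741824 536870912 134217728 67108864
    (rowF 1 false true true .npn 1 2 3 (qsf 536870912 536870912 1610612736 536870912 2) ndF0q1 ndF1q3 pcF2 cut_pp_123 Ext.none)

def k0_pp_123 : ∃ t, chk3 f_pp_123 t 1 1 1 = true :=
  ⟨(a (b (a (b (b (l 17932360) (b (b (l 17699632) (l 17795496)) (b (l 17676728) (l 17663928)))) (b (b (b (l 17648136) (l 17698504)) (l 17599632)) (l 17539024))) (b (b (l 17603584) (b (b (l 17422232) (l 17474720)) (b (l 17459576) (l 17382312)))) (b (b (b (l 17364480) (l 17350336)) (l 17311816)) (l 17250400)))) (b (a (l 17505960) (l 17235824)) (a (l 17460080) (a (b (l 17287296) (l 2)) (l 2))))) (b (a (b (b (a (l 17186456) (l 17039456)) (b (b (l 17108640) (l 17099320)) (b (l 17086744) (l 17075056)))) (b (b (b (l 17060568) (l 31777157911)) (l 17014120)) (l 17052320))) (b (b (a (l 16911592) (b (a (l 16835200) (a (l 16799904) (b (a (l 16787384) (b (a (l 16781992) (b (l 6) (l 16775896))) (l 16775120)))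 (l 16775176)))) (l 326518348247))) (b (b (l 246524840903) (l 239545800951)) (b (l 257799341239) (l 17096584)))) (b (b (b (l 17055808) (l 2)) (l 2)) (l 2)))) (a (b (a (b (l 17033912) (l 2)) (l 2)) (l 2)) (l 2)))), by decide +kernel⟩

theorem c_pp_123 : CertF 536870912 536870912 1610612736 536870912 134217728 67108864 false true true .npn 1 2 3
    ndF0q1 ndF1q3 pcF2 cut_pp_123 Ext.none :=
  certF1 (fam := false) (s1 := true) (s2 := true) (a := 1) (b := 2) (c := 3) (cn := .npn) (n1 := ndF0q1) (n2 := ndF1q3) (pc := pcF2) (cut := cut_pp_123) (xt := Ext.none) (P1 := 536870912) (W1 := 536870912) (P2 := 1610612736) (W2 := 536870912) (P3 := 134217728) (W3 := 67108864)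
    rfl (fun _ => rfl) k0_pp_123

noncomputable def f_pp_133 : ℕ → ℕ → ℕ → ℕ → Bool := onCell 536870912 536870912 1610612736 536870912 134217728 67108864
    (rowF 0 false true true .dn 1 3 3 (qsf 536870912 536870912 1610612736 536870912 3) ndF0q1 ndF1q3 pcF3 Cut.none Ext.none)

def k0_pp_133 : ∃ t, chk3 f_pp_133 t 1 1 1 = true :=
  ⟨(a (a (a (b (l 1) (b (l 1) (l 374770071623))) (l 1)) (l 1)) (l 1)), by decide +kernel⟩

theorem c_pp_133 : CertF 536870912 536870912 1610612736 536870912 134217728 67108864 false true true .dn 1 3 3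
    ndF0q1 ndF1q3 pcF3 Cut.none Ext.none :=
  certF0 (fam := false) (s1 := true) (s2 := true) (a := 1) (b := 3) (c := 3) (cn := .dn) (n1 := ndF0q1) (n2 := ndF1q3) (pc := pcF3) (cut := Cut.none) (xt := Ext.none) (P1 := 536870912) (W1 := 536870912) (P2 := 1610612736) (W2 := 536870912) (P3 := 134217728) (W3 := 67108864)
    rfl k0_pp_133

noncomputable def f_pp_202_a : ℕ → ℕ → ℕ → ℕ → Bool := onCell 0 536870912 0 536870912 134217728 67108864
    (rowF 0 false true true .pp 2 0 2 (qsf 0 536870912 0 536870912 0) ndF0q2 ndF1q2a pcF0 Cut.none Ext.none)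

def k0_pp_202_a : ∃ t, chk3 f_pp_202_a t 1 1 1 = true :=
  ⟨(l 3), by decide +kernel⟩

theorem c_pp_202_a : CertF 0 536870912 0 536870912 134217728 67108864 false true true .pp 2 0 2
    ndF0q2 ndF1q2a pcF0 Cut.none Ext.none :=
  certF0 (fam := false) (s1 := true) (s2 := true) (a := 2) (b := 0) (c := 2) (cn := .pp) (n1 := ndF0q2) (n2 := ndF1q2a) (pc := pcF0) (cut := Cut.none) (xt := Ext.none) (P1 := 0) (W1 := 536870912) (P2 := 0) (W2 := 536870912) (P3 := 134217728) (W3 := 67108864)
    rfl k0_pp_202_a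

noncomputable def f_pp_202_b : ℕ → ℕ → ℕ → ℕ → Bool := onCell 0 536870912 1239849684 370763052 134217728 67108864
    (rowF 0 false true true .pp 2 0 2 (qsf 0 536870912 1239849684 370763052 0) ndF0q2 ndF1q2b pcF0 Cut.none Ext.none)

def k0_pp_202_b : ∃ t, chk3 f_pp_202_b t 1 1 1 = true :=
  ⟨(l 3), by decide +kernel⟩

theorem c_pp_202_b : CertF 0 536870912 1239849684 370763052 134217728 67108864 false true true .pp 2 0 2
    ndF0q2 ndF1q2b pcF0 Cut.none Ext.none :=
  certF0 (fam := false) (s1 := true) (s2 := true) (a := 2) (b := 0) (c := 2) (cn := .pp) (n1 := ndF0q2) (n2 := ndF1q2b) (pc := pcF0) (cut := Cut.none) (xt := Ext.none) (P1 := 0) (W1 := 536870912) (P2 := 1239849684) (W2 := 370763052) (P3 := 134217728) (W3 := 67108864)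
    rfl k0_pp_202_b

noncomputable def f_pp_203 : ℕ → ℕ → ℕ → ℕ → Bool := onCell 0 536870912 0 536870912 134217728 67108864
    (rowF 1 false true true .up 2 0 3 (qsf 0 536870912 1610612736 536870912 0) ndF0q2 ndF1q3 pcF0 Cut.none Ext.none)

def k0_pp_203 : ∃ t, chk3 f_pp_203 t 1 1 1 = true :=
  ⟨(l 3), by decide +kernel⟩

theorem c_pp_203 : CertF 0 536870912 1610612736 536870912 134217728 67108864 false true true .up 2 0 3
    ndF0q2 ndF1q3 pcF0 Cut.none Ext.none :=
  certF1 (fam := false) (s1 := true) (s2 := true) (a := 2) (b := 0) (c := 3) (cn := .up) (n1 := ndF0q2) (n2 := ndF1q3) (pc := pcF0) (cut := Cut.none) (xt := Ext.none) (P1 := 0) (W1 := 536870912) (P2 := 1610612736) (W2 := 536870912) (P3 := 134217728) (W3 := 67108864)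
    rfl (fun _ => rfl) k0_pp_203

noncomputable def cut_pp_213 : Cut := Cut.of [[⟨0, 1, 0, 39843005⟩, ⟨1, 1, 0, 39843005⟩, ⟨2, 2, 0, 5814905⟩]]

noncomputable def f_pp_213 : ℕ → ℕ → ℕ → ℕ → Bool := onCell 0 536870912 1610612736 536870912 134217728 67108864
    (rowF 0 false true true .pnn 2 1 3 (qsf 0 536870912 1610612736 536870912 1) ndF0q2 ndF1q3 pcF1 cut_pp_213 Ext.none)

def k0_pp_213 : ∃ t, chk3 f_pp_213 t 1 1 1 = true :=
  ⟨(b (l 3) (a (l 3) (b (l 3) (a (l 3) (b (l 3) (a (l 3) (a (l 3) (b (l 3) (a (l 3) (b (l 3) (b (l 3) (b (l 3) (l 6))))))))))))), by decide +kernel⟩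

theorem c_pp_213 : CertF 0 536870912 1610612736 536870912 134217728 67108864 false true true .pnn 2 1 3
    ndF0q2 ndF1q3 pcF1 cut_pp_213 Ext.none :=
  certF0 (fam := false) (s1 := true) (s2 := true) (a := 2) (b := 1) (c := 3) (cn := .pnn) (n1 := ndF0q2) (n2 := ndF1q3) (pc := pcF1) (cut := cut_pp_213) (xt := Ext.none) (P1 := 0) (W1 := 536870912) (P2 := 1610612736) (W2 := 536870912) (P3 := 134217728) (W3 := 67108864)
    rfl k0_pp_213

noncomputable def f_pm_001 : ℕ → ℕ → ℕ → ℕ → Bool := onCell 0 536870912 536870912 536870912 134217728 67108864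
    (rowF 0 false true false .up 0 0 1 (qsf 0 536870912 536870912 536870912 0) ndF0q0 ndF1q1 pcF0 Cut.none Ext.none)

def k0_pm_001 : ∃ t, chk3 f_pm_001 t 1 1 1 = true :=
  ⟨(l 4), by decide +kernel⟩

theorem c_pm_001 : CertF 0 536870912 536870912 536870912 134217728 67108864 false true false .up 0 0 1
    ndF0q0 ndF1q1 pcF0 Cut.none Ext.none :=
  certF0 (fam := false) (s1 := true) (s2 := false) (a := 0) (b := 0) (c := 1) (cn := .up) (n1 := ndF0q0) (n2 := ndF1q1) (pc := pcF0) (cut := Cut.none) (xt := Ext.none) (P1 := 0) (W1 := 536870912) (P2 := 536870912) (W2 := 536870912) (P3 := 134217728) (W3 := 67108864)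
    rfl k0_pm_001

noncomputable def f_pm_011 : ℕ → ℕ → ℕ → ℕ → Bool := onCell 0 536870912 536870912 536870912 134217728 67108864
    (rowF 0 false true false .pnn 0 1 1 (qsf 0 536870912 536870912 536870912 1) ndF0q0 ndF1q1 pcF1 Cut.none Ext.none)

def k0_pm_011 : ∃ t, chk3 f_pm_011 t 1 1 1 = true :=
  ⟨(l 4), by decide +kernel⟩

theorem c_pm_011 : CertF 0 536870912 536870912 536870912 134217728 67108864 false true false .pnn 0 1 1
    ndF0q0 ndF1q1 pcF1 Cut.none Ext.none :=
  certF0 (fam := false) (s1 := true) (s2 := false) (a := 0) (b := 1) (c := 1) (cn := .pnn) (n1 := ndF0q0) (n2 := ndF1q1) (pc := pcF1) (cut := Cut.none) (xt := Ext.none) (P1 := 0) (W1 := 536870912) (P2 := 536870912) (W2 := 536870912) (P3 := 134217728) (W3 := 67108864)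
    rfl k0_pm_011

noncomputable def cut_pm_012_a : Cut := Cut.of [[⟨0, 0, 0, 67108864⟩, ⟨1, 1, 0, 67108864⟩, ⟨2, 1, 0, 67108864⟩], [⟨0, 0, 1, 41943040⟩, ⟨1, 1, 2, 41943040⟩, ⟨2, 1, 0, 16777216⟩]]

noncomputable def f_pm_012_a : ℕ → ℕ → ℕ → ℕ → Bool := onCell 536870912 536870912 0 536870912 134217728 67108864
    (rowF 2 false true false .pnp 0 1 2 (qsf 0 536870912 0 536870912 1) ndF0q0 ndF1q2a pcF1 cut_pm_012_a Ext.none)

def k0_pm_012_a : ∃ t, chk3 f_pm_012_a t 2 1 1 = true :=
  ⟨(b (a (a (l 2) (b (l 2) (l 17528944))) (a (b (b (l 17408344) (l 17474624)) (l 17559928)) (b (l 17494952) (l 17601752)))) (a (b (a (l 2) (l 6545302151)) (b (a (l 17662832) (c (l 17710872) (l 17587320))) (a (c (l 17794056) (b (l 17620088) (l 17626120))) (c (b (l 17721120) (l 17718256)) (b (l 17584224) (a (l 17584664) (l 17552392))))))) (b (a (b (l 17623544) (l 17641536)) (b (l 17645824) (c (l 17727424) (l 17556032)))) (b (a (c (l 17707224) (b (l 17566896) (l 17553992))) (c (b (l 17706576) (l 17682664)) (b (l 17527592)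 (a (l 17514784) (l 17470280))))) (a (c (b (l 17693120) (l 17661976)) (b (l 17533128) (a (l 17514816) (l 17427232)))) (b (c (l 17641288) (a (l 17472984) (l 17412256))) (c (a (l 17601224) (l 17544040)) (a (b (l 17428872) (c (l 17439848) (l 17344792))) (b (l 17355528) (c (l 17363048) (a (l 17282304) (l 17232008)))))))))))), by decide +kernel⟩

def k1_pm_012_a : ∃ t, chk3 f_pm_012_a t 3 2 1 = true :=
  ⟨(a (a (b (l 17553808) (c (l 17733552) (l 17540752))) (b (c (l 17699536) (l 17461792)) (c (a (l 17758488) (l 17747424)) (a (l 17506248) (b (l 17453928) (l 17416928)))))) (a (b (a (c (l 17690472) (l 17353584)) (c (l 17615408) (b (l 17182256) (l 17170608)))) (a (b (c (l 17712016) (l 17333872)) (c (l 17669072) (l 17108896))) (c (b (l 17597504) (a (l 17556416) (l 17437216))) (b (a (l 17175416) (l 17019944)) (a (l 17050848) (l 16789528)))))) (b (a (c (b (l 17432312) (a (l 17490384) (l 17342840))) (b (l 16855296) (l 16640920))) (b (c (a (l 17167608) (l 16882688)) (a (l 16613728) (l 16590104))) (a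 (c (l 17126536) (l 16566056)) (c (b (l 16844936) (l 16775768)) (b (l 16553320) (l 16533696)))))) (a (b (c (a (l 17424832) (l 17074200)) (a (l 16807608) (l 16553336))) (c (a (b (l 17320112) (l 17210456)) (b (l 17094560) (l 16797112))) (a (l 16561488) (b (l 16538176) (l 16534376))))) (b (a (c (b (l 17031160) (l 16900896)) (b (l 16539272) (l 16527024))) (c (b (l 16666960) (l 16526976)) (b (l 16518008) (l 16506568)))) (a (c (b (l 16663400) (l 16536832)) (b (l 16519232) (l 16516240))) (c (b (a (l 16510232) (l 16499248)) (a (l 16508536) (l 16497928))) (b (a (l 16504568) (l 16494664)) (a (l 16502272) (l 16492872)))))))))), by decide +kernel⟩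

def k2_pm_012_a : ∃ t, chk3 f_pm_012_a t 6 6 1 = true :=
  ⟨(a (b (c (l 17753920) (l 17537936)) (a (l 17621488) (c (l 17708608) (l 17454672)))) (b (a (c (l 17737744) (l 17452152)) (c (l 17683168) (l 17285664))) (a (c (l 17659336) (b (l 17382240) (l 17314072))) (b (c (l 17596984) (l 17215944)) (c (l 17427664) (a (l 17173280) (l 17041984))))))), by decide +kernel⟩

def k3_pm_012_a : ∃ t, chk3 f_pm_012_a t 6 14 1 = true :=
  ⟨(a (c (a (l 17680152) (b (l 17639576) (l 17569112))) (a (b (l 17458104) (l 17400768)) (b (l 17370952) (a (l 17322544) (l 17252320))))) (a (c (b (l 17555552) (a (l 17488712) (l 17370912))) (b (a (l 17268472) (l 17174584)) (a (b (l 17192120) (l 17133072)) (b (l 17083296) (l 16992544))))) (b (c (a (l 17447112) (l 17236952)) (a (l 16989864) (l 16663200))) (c (a (b (l 17349976) (l 17210656)) (b (l 17139792) (c (l 17249008) (l 17014368)))) (b (a (l 16943024) (l 16760648)) (a (l 16755112) (l 16666736))))))), by decide +kernel⟩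

def k4_pm_012_a : ∃ t, chk3 f_pm_012_a t 12 15 1 = true :=
  ⟨(b (a (c (l 17563024) (a (l 17349080) (l 17252944))) (c (a (l 17498552) (l 17335136)) (a (b (l 17252720) (l 17199112)) (b (l 17170816) (c (l 17184408) (l 17033672)))))) (a (c (b (l 17492040) (a (l 17459352) (l 17408632))) (c (b (l 17312192) (a (l 17287424) (l 17161648))) (b (a (l 17223608) (l 17157024)) (a (l 17172824) (b (l 17115888) (a (l 17107288) (l 17066624))))))) (c (b (a (l 17412040) (c (l 17415248) (l 17266464))) (a (c (l 17411304) (l 17277872)) (c (l 17338176) (b (l 17211184) (a (l 17196232) (l 17147568)))))) (b (a (c (l 17208496) (b (l 17087272) (l 17057168))) (c (b (l 17134624) (l 17099760)) (b (l 16984528) (a (l 16979456) (l 14))))) (a (b (c (l 17160848) (a (l 17050592) (l 17000872))) (c (a (l 17149864) (l 17104424)) (a (b (l 17027664) (l 16991264)) (c (l 17002608) (l 14))))) (b (c (a (l 17090072) (l 17036344)) (a (c (l 16982000) (l 14)) (l 14))) (c (a (b (l 17063288) (l 17024232)) (c (l 17035960) (l 14))) (l 14)))))))),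 by decide +kernel⟩

def k5_pm_012_a : ∃ t, chk3 f_pm_012_a t 13 30 1 = true :=
  ⟨(a (c (a (b (l 17399256) (l 17203376)) (b (l 17244688) (c (l 17318928) (l 17070896)))) (a (b (l 16941888) (c (l 17080032) (b (l 16931392) (l 16894744)))) (b (c (l 17030008) (l 16843888)) (c (b (l 16969168) (l 16905864)) (l 16698728))))) (c (a (b (c (l 17291840) (l 17083656)) (c (a (l 17231272) (l 17162040)) (a (l 17028832) (l 16883496)))) (b (c (l 17064584) (a (l 16958904) (l 16859792))) (c (a (l 17040480) (b (l 17020336) (l 16960552))) (b (l 16786128) (l 16707864))))) (a (b (l 16691208) (c (l 16705872) (l 16698056))) (b (c (l 16680432) (l 16673056)) (b (l 16696016) (a (l 16693120) (l 16692456))))))), by decide +kernel⟩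

def k6_pm_012_a : ∃ t, chk3 f_pm_012_a t 26 31 1 = true :=
  ⟨(b (b (c (a (l 17082856) (c (l 17252680) (l 16984392))) (a (c (l 17023344) (l 16773352)) (c (a (l 16921704) (l 16843128)) (l 16698728)))) (c (a (c (l 17312776) (l 17148608)) (c (l 17205816) (a (l 17057200) (l 14)))) (a (c (a (l 17015552) (l 14)) (l 14)) (l 14)))) (c (a (c (b (l 17269408) (a (l 17249656) (l 17197520))) (b (a (l 17135248) (l 17077080)) (a (b (l 17104040) (l 17082928)) (c (l 17074320) (l 14))))) (b (c (a (l 17187920) (l 17124800)) (a (c (l 17055928) (l 14)) (l 14))) (c (a (b (l 17151472) (l 17126760)) (c (l 17119232) (l 14))) (l 14)))) (b (a (c (a (c (l 17016296) (l 14)) (l 14)) (l 14)) (l 14)) (l 14)))), by decide +kernel⟩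

def k7_pm_012_a : ∃ t, chk3 f_pm_012_a t 27 62 1 = true :=
  ⟨(c (a (c (b (a (l 17157808) (l 17083176)) (a (l 17106328) (l 14))) (b (a (l 16956304) (l 16868616)) (l 14))) (b (c (a (l 16976632) (l 16815144)) (a (l 16768448) (l 16708040))) (l 14))) (a (c (b (l 16705240) (l 14)) (b (l 16697520) (a (l 16705408) (l 16705312)))) (c (b (l 16715376) (a (l 16710496) (l 16710456))) (b (l 16707304) (a (l 16705400) (l 16705672)))))), by decide +kernel⟩

def k8_pm_012_a : ∃ t, chk3 f_pm_012_a t 54 63 1 = true :=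
  ⟨(c (b (c (a (c (l 17102712) (l 14)) (l 14)) (l 14)) (l 14)) (b (c (l 14) (a (b (l 16711200) (l 16715264)) (b (l 16711360) (l 16715592)))) (b (c (l 14) (a (c (l 14) (l 16723552)) (c (a (l 14) (l 16721360)) (a (l 16718832) (l 16719176))))) (c (l 14) (c (a (l 14) (a (l 14) (b (l 16724720) (c (l 14) (a (l 14) (b (l 16726072) (l 16727248))))))) (a (a (l 14) (a (l 14) (b (l 16721984) (c (l 14) (l 16726360))))) (b (a (l 16722224) (l 16722640)) (b (a (l 16723960) (l 16724408)) (a (c (a (l 14) (l 16725784)) (a (l 16724528) (l 16724760))) (c (a (l 16726008) (l 16726256)) (a (l 16725000) (l 16725256)))))))))))), by decide +kernel⟩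

def k9_pm_012_a : ∃ t, chk3 f_pm_012_a t 55 63 1 = true :=
  ⟨(c (l 14) (b (c (a (c (l 14) (l 16727840)) (b (l 16716672) (c (l 16722072) (l 16719984)))) (a (b (l 16711720) (l 16716136)) (b (l 16712272) (l 16727360)))) (b (c (a (c (l 14) (a (l 14) (l 16724136))) (c (a (l 14) (l 16726872)) (a (l 16724512) (l 16724944)))) (a (c (a (l 16721696) (l 16722080)) (a (l 16719576) (l 16720032))) (c (a (l 16722528) (l 16723024)) (a (l 16720544) (l 16721104))))) (c (c (a (l 14) (a (l 14) (b (l 16730336) (c (l 14) (a (l 14) (b (l 16731832) (l 16733040))))))) (a (a (l 14) (b (l 16727544) (c (l 14) (a (l 14) (b (l 16728968) (l 16730152)))))) (b (a (l 16727992) (l 16728504)) (b (a (c (l 16730232) (l 16729312)) (c (l 16730760) (l 16729864))) (a (c (a (l 14) (l 16731600)) (a (l 16730416) (l 16730696))) (c (a (l 16731872) (l 16732168)) (a (l 16730992) (l 16731296)))))))) (a (b (c (a (l 16725128) (l 16725584)) (a (l 16723112) (l 16723632))) (c (a (c (a (l 14) (b (l 16727520) (l 16728704))) (a (l 16729512)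 (l 16727144))) (c (a (b (l 16727760) (l 16728952)) (l 16728624)) (a (l 16727408) (l 16727680)))) (b (a (l 16724912) (l 16725464)) (a (c (a (l 16726512) (l 16726776)) (l 16725640)) (c (l 16727168) (l 16726232)))))) (b (c (a (l 16726104) (l 16726672)) (a (l 16724208) (l 16724840))) (c (a (c (a (l 16728896) (l 16729184)) (a (l 16727976) (l 16728272))) (c (a (l 16729488) (l 16729800)) (a (l 16728592) (l 16728928)))) (b (a (l 16726080) (l 16726744)) (a (c (l 16727792) (l 16726888)) (c (l 16728464) (l 16727592))))))))))), by decide +kernel⟩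

def k10_pm_012_a : ∃ t, chk3 f_pm_012_a t 14 6 1 = true :=
  ⟨(b (a (c (a (l 17599536) (l 17512088)) (b (l 17152312) (l 16864088))) (c (a (b (l 17443384) (l 17330344)) (b (l 17285576) (l 17094688))) (b (l 16593640) (a (l 16751024) (l 16573128))))) (a (c (b (l 17229656) (a (l 17355160) (b (l 17242688) (l 17156352)))) (b (a (l 17013552) (l 16821800)) (a (l 16721888) (l 16638016)))) (a (b (c (b (l 17222680) (l 17137184)) (l 16641296)) (c (b (l 17039688) (l 16823536)) (l 16630736))) (b (c (b (l 16995208) (l 16882856)) (l 16602952)) (c (b (l 16754416) (l 16617488)) (b (l 16593472) (l 16601312))))))), by decide +kernel⟩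

def k11_pm_012_a : ∃ t, chk3 f_pm_012_a t 28 14 1 = true :=
  ⟨(b (c (a (b (l 17242552) (l 17027824)) (b (l 16932008) (c (l 17096864) (l 16795248)))) (a (l 16663744) (b (l 16629080) (l 16636400)))) (a (c (b (c (l 17185944) (l 16920552)) (c (l 16992752) (l 16763928))) (b (l 16652256) (l 16682808))) (c (b (c (l 16912592) (l 16665688)) (c (l 16671880) (l 16667312))) (b (l 16645784) (a (l 16658936) (l 16656824)))))), by decide +kernel⟩

def k12_pm_012_a : ∃ t, chk3 f_pm_012_a t 28 30 1 = true :=
  ⟨(a (c (c (b (a (l 17009544) (l 16897184)) (a (l 16705536) (l 16706816))) (b (l 16683416) (a (l 16697040) (l 16695880)))) (b (a (l 16674760) (l 16673280)) (a (c (l 16691160) (l 16685424)) (c (l 16690368) (l 16684992))))) (c (b (c (a (l 16765168) (l 16685128)) (a (l 16681056) (l 16679248))) (c (a (l 16710648) (b (l 16695160) (l 16702696))) (a (l 16694880) (l 16704528)))) (b (a (l 16671936) (l 16670728)) (a (c (l 16689728) (l 16684704)) (b (l 16682512) (l 16691200)))))), by decide +kernel⟩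

def k13_pm_012_a : ∃ t, chk3 f_pm_012_a t 28 62 1 = true :=
  ⟨(a (c (c (b (a (l 16721928) (l 16711824)) (l 14)) (b (a (l 16707432) (l 16706976)) (a (l 16725640) (l 16725648)))) (a (c (b (l 16702352) (l 16710592)) (b (l 16697368) (l 16706104))) (c (b (l 16702216) (l 16710896)) (b (l 16697552) (l 16706704))))) (c (c (a (b (l 16711216) (b (l 16717256) (l 16721480))) (b (l 16710792) (b (l 16717208) (l 16732168)))) (a (b (l 16706688) (b (l 16713096) (l 16717568))) (b (l 16706584) (a (l 16715920) (l 16716176))))) (a (b (c (l 16702256) (l 16697904)) (c (l 16721864) (l 16707472))) (b (c (l 16702456) (l 16698416)) (c (l 16722520) (l 16708416)))))), by decide +kernel⟩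

def k14_pm_012_a : ∃ t, chk3 f_pm_012_a t 56 63 2 = true :=
  ⟨(b (c (l 14) (a (c (l 14) (b (l 16720248) (l 16724624))) (b (l 16721648) (c (l 16727104) (l 16725272))))) (c (l 14) (b (a (c (l 14) (a (l 14) (l 16729560))) (c (a (l 14) (l 16732208)) (a (l 16730016) (l 16730520)))) (a (c (l 14) (a (l 14) (a (l 14) (a (l 14) (b (l 16733352) (c (l 14) (l 16738000))))))) (a (c (l 14) (b (l 16736248) (a (b (l 16735376) (c (l 14) (l 16736216))) (b (l 16735680) (c (c (l 14) (l 16737128)) (l 16736544)))))) (b (c (c (l 14) (l 16735416)) (l 16734216)) (b (c (c (l 14) (l 16737264)) (c (l 16736488) (l 16735712))) (c (c (l 14) (a (l 14) (c (l 14) (l 16738552)))) (c (a (l 16738960) (l 16737984)) (a (l 16736880) (l 16737232))))))))))), by decide +kernel⟩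

def k15_pm_012_a : ∃ t, chk3 f_pm_012_a t 56 63 3 = true :=
  ⟨(b (c (a (b (l 16717128) (c (l 16722664) (l 16720712))) (b (l 16717752) (c (l 16723440) (l 16721624)))) (a (b (l 16713000) (l 16728288)) (b (l 16713904) (l 16729400)))) (b (c (a (c (a (l 16727288) (l 16727752)) (a (l 16725424) (l 16725952))) (c (a (l 16728272) (l 16728840)) (a (l 16726536) (l 16727168)))) (b (a (c (l 16722416) (l 16720568)) (l 16728000)) (a (c (l 16724896) (l 16723112)) (c (l 16726200) (l 16724536))))) (c (a (b (c (a (l 16730832) (l 16731376)) (a (l 16729056) (l 16729664))) (c (b (a (c (l 16733064) (l 16732200)) (c (l 16733640) (l 16732808))) (a (c (a (l 14) (l 16734472)) (a (l 16733328) (l 16733632))) (c (a (l 16734776) (l 16735088)) (a (l 16733952) (l 16734280))))) (a (c (a (l 16733168) (l 16732168)) (a (l 16730992) (l 16731320))) (c (a (l 16732496) (l 16732832)) (a (l 16731664) (l 16732016)))))) (a (c (b (l 16731976) (c (b (l 16734264) (a (l 16735416) (l 16735760))) (a (l 16733984) (l 16734336)))) (b (l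 16730328) (b (l 16732256) (a (l 16734736) (l 16733808))))) (c (b (l 16732632) (c (a (l 16738096) (l 16735832)) (a (l 16734704) (l 16735080)))) (b (l 16731040) (b (l 16733008) (c (l 16736032) (l 16733960))))))) (a (b (c (a (l 16727288) (l 16727960)) (a (l 16725520) (l 16726256))) (b (c (a (l 16729184) (l 16729896)) (a (l 16727464) (l 16728232))) (c (a (c (l 16732200) (l 16730040)) (c (l 16731608) (l 16730792))) (a (c (l 16729192) (l 16728344)) (l 16729568))))) (b (c (a (l 16728680) (l 16729456)) (a (l 16727040) (l 16727872))) (c (a (a (l 16731176) (l 16731576)) (a (l 16731992) (l 16732424))) (a (b (l 16729056) (l 16730408)) (b (l 16729928) (l 16731304))))))))), by decide +kernel⟩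

def k16_pm_012_a : ∃ t, chk3 f_pm_012_a t 57 126 1 = true :=
  ⟨(c (c (c (a (l 14) (b (l 16727160) (a (l 14) (l 16732440)))) (a (b (l 16724936) (l 16734760)) (a (l 16738528) (l 16733680)))) (a (b (l 16732672) (c (l 16738296) (l 16726104))) (b (c (l 16723752) (l 16722072)) (c (l 16733944) (l 16737616))))) (a (c (b (l 16718568) (a (l 16723560) (l 16724144))) (a (l 16717552) (l 16728704))) (c (b (l 16719560) (a (l 16724784) (l 16725464))) (a (l 16729408) (l 16730168))))), by decide +kernel⟩

def k17_pm_012_a : ∃ t, chk3 f_pm_012_a t 114 127 2 = true :=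
  ⟨(b (c (c (l 14) (a (l 14) (l 16740048))) (c (a (l 16732696) (l 16733240)) (a (l 16731080) (l 16731688)))) (c (a (l 14) (a (l 14) (c (l 14) (b (l 16738736) (c (l 14) (b (l 16740272) (c (l 14) (l 16741384)))))))) (b (c (a (c (l 16736776) (l 16736008)) (c (l 16737392) (l 16736656))) (a (l 16734864) (l 16735552))) (b (c (a (c (l 16738648) (l 16737904)) (c (l 16739312) (l 16738592))) (a (c (l 16737160) (l 16736416)) (c (l 16737880) (l 16737168)))) (c (a (c (a (l 14) (c (l 14) (l 16739968))) (a (c (l 16739264) (l 16738888)) (l 16740736))) (c (a (c (l 16740672) (l 16740320)) (c (l 16741032) (l 16740688))) (a (l 16739792) (l 16740168)))) (a (c (a (l 16738336) (l 16738704)) (a (l 16737600) (l 16737984))) (c (a (l 16739080) (l 16739472)) (a (l 16738376) (l 16738776))))))))), by decide +kernel⟩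

def k18_pm_012_a : ∃ t, chk3 f_pm_012_a t 115 127 2 = true :=
  ⟨(b (c (c (a (l 14) (b (l 16736112) (l 16738616))) (a (l 16739600) (b (l 16734640) (l 16737200)))) (c (a (l 16733840) (l 16734480)) (a (l 16732336) (l 16733048)))) (c (b (c (a (l 14) (c (l 14) (l 16740816))) (a (c (l 16739480) (l 16738768)) (c (l 16740136) (l 16739456)))) (c (c (l 14) (a (l 14) (a (l 14) (a (l 14) (b (l 16743144) (l 16744464)))))) (a (c (a (l 14) (b (l 16741656) (c (l 14) (l 16742784)))) (b (l 16740704) (a (c (l 16742080) (l 16741744)) (b (l 16741960) (l 16742616))))) (b (c (a (l 16742008) (l 16742376)) (l 16741440)) (c (a (a (l 16743256) (l 16743440)) (b (l 16743376) (l 16744040))) (a (b (l 16742336) (l 16743008)) (l 16744384))))))) (b (c (a (c (l 16738064) (l 16737352)) (c (l 16738784) (l 16738104))) (a (l 16736296) (l 16737088))) (b (c (a (c (l 16740024) (l 16739336)) (c (l 16740784) (l 16740128))) (a (c (l 16738648) (l 16737968)) (c (l 16739472) (l 16738816)))) (c (a (c (a (l 16742544) (l 16741624)) (a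 (l 16740552) (l 16740960))) (c (a (l 16742024) (l 16742432)) (a (l 16741368) (l 16741800)))) (a (c (a (l 16739880) (l 16740296)) (a (l 16739200) (l 16739624))) (c (a (l 16740720) (l 16741160)) (a (l 16740072) (l 16740528))))))))), by decide +kernel⟩

def k19_pm_012_a : ∃ t, chk3 f_pm_012_a t 57 127 3 = true :=
  ⟨(b (a (c (c (a (l 16729464) (l 16730128)) (a (l 16727848) (l 16728576))) (a (l 16730680) (l 16731504))) (c (a (c (l 16730848) (l 16729360)) (c (l 16731616) (l 16730184))) (a (l 16732376) (l 16733296)))) (a (c (b (c (a (l 16733328) (l 16734080)) (a (l 16731800) (l 16732616))) (c (c (a (a (l 16736208) (l 16736600)) (a (l 16737000) (l 16737408))) (a (a (l 16735464) (l 16735864)) (a (l 16736280) (l 16736712)))) (a (b (l 16733816) (c (l 16735536) (l 16734808))) (a (l 16735208) (l 16735656))))) (a (a (c (b (l 16730136) (l 16732864)) (l 16735232)) (c (b (l 16730560) (l 16733320)) (l 16735704))) (b (c (l 16731152) (l 16729688)) (c (b (l 16733240) (l 16734648)) (l 16735160))))) (c (b (c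 (a (l 16734888) (l 16735736)) (a (l 16733480) (l 16734384))) (a (a (c (b (l 16736800) (l 16738176)) (l 16736120)) (c (b (l 16737240) (l 16738632)) (l 16736592))) (a (c (b (l 16737688) (l 16739096)) (l 16737080)) (c (b (l 16738152) (l 16739568)) (l 16737576))))) (a (b (c (l 16732072) (l 16730672)) (c (b (l 16734200) (l 16735640)) (l 16733568))) (b (c (l 16733040) (l 16731696)) (c (b (l 16735208) (l 16736672)) (l 16734648))))))), by decide +kernel⟩

def k20_pm_012_a : ∃ t, chk3 f_pm_012_a t 29 14 1 = true :=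
  ⟨(b (a (c (b (l 16654864) (a (l 16739712) (l 16642280))) (b (l 16619648) (l 16628896))) (c (b (l 16625488) (c (l 16638744) (l 16631888))) (b (l 16610808) (l 16622088)))) (a (c (b (a (l 16656344) (l 16652480)) (a (l 16677912) (c (l 16667608) (l 16661656)))) (b (a (l 16642136) (l 16639296)) (a (l 16655016) (l 16653096)))) (c (b (c (l 16650152) (l 16644096)) (c (a (l 16664888) (l 16661992)) (l 16668688))) (b (a (l 16636712) (l 16634040)) (a (l 16651472) (l 16649720)))))), by decide +kernel⟩

def k21_pm_012_a : ∃ t, chk3 f_pm_012_a t 29 30 1 = true :=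
  ⟨(a (b (c (a (c (l 16683280) (l 16677792)) (c (l 16681296) (l 16676208))) (a (l 16690840) (l 16689840))) (c (a (c (b (l 16694120) (l 16702192)) (b (l 16689320) (l 16697832))) (c (b (l 16692912) (l 16701496)) (b (l 16688464) (l 16697472)))) (a (c (l 16710120) (l 16705776)) (c (b (l 16684144) (l 16693552)) (l 16705848))))) (b (c (c (a (l 16679656) (l 16677800)) (a (l 16674952) (l 16673504))) (a (l 16689160) (b (l 16662648) (l 16671960)))) (c (b (c (a (l 16692072) (l 16690984)) (l 16687640)) (c (a (l 16701184) (l 16700592)) (a (l 16697480) (l 16697232)))) (b (a (l 16682056) (l 16681880)) (a (l 16692112) (l 16702864)))))), by decide +kernel⟩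

def k22_pm_012_a : ∃ t, chk3 f_pm_012_a t 58 62 1 = true :=
  ⟨(c (b (a (c (l 16721296) (l 16706896)) (c (a (l 16710928) (l 16710920)) (l 16717504))) (a (a (c (l 16720024) (l 16716480)) (c (l 16730800) (l 16716904))) (c (a (l 16730992) (l 16720752)) (a (l 16717240) (l 16717624))))) (b (a (c (l 16703072) (l 16699328)) (c (l 16703496) (l 16700056))) (a (c (a (l 16713000) (l 16713560)) (l 16720256)) (c (a (l 16714032) (l 16714552)) (a (l 16710888) (l 16711544)))))), by decide +kernel⟩

def k23_pm_012_a : ∃ t, chk3 f_pm_012_a t 58 126 1 = true :=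
  ⟨(c (b (a (c (a (l 16727168) (l 16727648)) (a (l 16723960) (l 16724568))) (c (a (l 16728024) (l 16728464)) (a (l 16725080) (l 16725640)))) (c (a (c (a (l 16732888) (l 16733456)) (a (l 16731384) (l 16732016))) (a (c (l 16733928) (l 16732552)) (c (l 16734456) (l 16733144)))) (a (a (l 16729152) (l 16735120)) (a (l 16735752) (l 16731184))))) (a (c (b (l 16731480) (a (l 16726200) (l 16727048))) (a (l 16730976) (l 16731888))) (c (a (b (l 16722176) (l 16727800)) (b (l 16722864) (l 16728600))) (a (l 16731400) (l 16733584))))), by decide +kernel⟩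

def k24_pm_012_a : ∃ t, chk3 f_pm_012_a t 116 127 2 = true :=
  ⟨(b (c (c (a (b (l 16736656) (l 16739216)) (b (l 16737320) (l 16739952))) (a (b (l 16735240) (l 16737864)) (b (l 16735968) (l 16738648)))) (a (c (l 16740416) (l 16733800)) (c (l 16741232) (l 16734672)))) (c (a (b (c (c (l 16744768) (l 16741496)) (c (l 16740848) (l 16740192))) (c (a (c (l 14) (b (l 16743400) (a (l 16744656) (l 16744848)))) (c (a (l 14) (c (l 14) (l 16746344))) (b (l 16743776) (a (l 16745048) (l 16745248))))) (b (c (l 16744328) (l 16742224)) (c (a (b (l 16743768) (l 16744440)) (b (l 16744176) (l 16744856))) (a (l 16743480) (l 16743904)))))) (a (b (c (l 16742464) (l 16741208)) (b (c (c (l 16744776) (l 16744168)) (l 16743256)) (c (a (c (l 16747368) (l 16745456)) (c (l 16746256) (l 16745664))) (c (b (l 16744592) (l 16745280)) (l 16744344))))) (b (c (l 16742856) (l 16741632)) (b (c (c (l 16745192) (l 16744592)) (l 16743704)) (c (a (c (l 16746456) (l 16745872)) (c (l 16746672) (l 16746096))) (c (c (l 16745536) (l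 16745248)) (l 16744808))))))) (a (c (b (c (l 16739544) (l 16738896)) (c (b (l 16741592) (a (l 16742864) (l 16743296))) (a (l 16744168) (l 16744608)))) (c (b (l 16738248) (a (l 16740920) (l 16741376))) (b (l 16737600) (a (l 16740288) (l 16740760))))) (a (c (b (l 16739952) (b (l 16742040) (c (l 16743744) (l 16743152)))) (b (l 16738696) (b (l 16740832) (l 16742264)))) (c (b (l 16740400) (b (l 16742520) (c (l 16744232) (l 16743648)))) (b (l 16739176) (b (l 16741328) (l 16742776)))))))), by decide +kernel⟩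

def k25_pm_012_a : ∃ t, chk3 f_pm_012_a t 117 127 2 = true :=
  ⟨(b (c (a (c (a (l 16739168) (l 16739464)) (a (l 16737880) (l 16738208))) (c (b (l 16738504) (l 16741256)) (l 16743920))) (a (c (a (l 16736600) (l 16736960)) (l 16740688)) (c (l 16737472) (l 16736272)))) (c (a (a (b (c (l 16743208) (l 16742008)) (b (c (c (l 16745560) (l 16744976)) (l 16744104)) (c (a (c (l 16746864) (l 16746288)) (c (l 16747040) (l 16746480))) (c (l 16747112) (l 16745232))))) (c (b (l 16743552) (b (l 16746944) (c (c (l 16747448) (l 16747176)) (l 16746760)))) (b (l 16742384) (c (b (l 16744784) (l 16746208)) (l 16746248))))) (c (b (c (l 16744328) (l 16743768)) (c (b (l 16746432) (b (l 16747496) (a (l 16748024) (l 16748384)))) (b (l 16745888) (a (l 16747128) (l 16747504))))) (b (l 16742920) (b (l 16745072) (c (a (l 16746592) (l 16746984)) (l 16747568)))))) (b (a (c (a (l 16740808) (l 16741208)) (l 16744992)) (c (l 16741792) (l 16740672))) (b (a (c (c (l 16745984) (l 16742792)) (a (l 16741792) (l 16742240)))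 (c (l 16743984) (l 16742896))) (a (c (a (c (l 16744664) (l 16744104)) (l 16746136)) (a (l 16743256) (l 16743720))) (c (c (l 16745728) (l 16745192)) (l 16745712))))))), by decide +kernel⟩

def k26_pm_012_a : ∃ t, chk3 f_pm_012_a t 58 127 3 = true :=
  ⟨(a (b (c (a (c (l 16732424) (l 16731056)) (c (l 16733360) (l 16732048))) (a (l 16734264) (l 16735336))) (c (b (a (c (l 16736632) (l 16735344)) (c (l 16737656) (l 16736416))) (a (a (c (l 16741968) (l 16738088)) (c (l 16742464) (l 16738616))) (a (c (l 16740344) (l 16739144)) (c (l 16740880) (l 16739712))))) (a (b (c (l 16734056) (l 16732768)) (c (b (l 16736264) (l 16737752)) (l 16735776))) (a (c (l 16739072) (l 16735232)) (c (l 16740960) (l 16735840)))))) (b (c (a (c (l 16734192) (l 16732944)) (c (l 16735080) (l 16733888))) (a (l 16736320) (l 16732112))) (c (b (a (c (l 16738576) (l 16737400)) (c (l 16739544) (l 16738424))) (a (c (a (l 16744000) (l 16741864)) (a (l 16740232) (l 16740752))) (c (c (l 16742848) (l 16742312)) (l 16741504)))) (b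 (a (c (l 16736224) (l 16735056)) (l 16736752)) (a (c (a (l 16739088) (l 16739632)) (l 16741440)) (c (l 16740432) (l 16739360))))))), by decide +kernel⟩

def k27_pm_012_a : ∃ t, chk3 f_pm_012_a t 59 62 1 = true :=
  ⟨(c (b (c (a (l 16710832) (l 16718600)) (a (l 16707520) (l 16707752))) (c (a (b (l 16718392) (l 16723632)) (b (l 16718680) (l 16724168))) (a (b (l 16715384) (l 16720816)) (b (l 16715976) (l 16721648))))) (b (a (c (l 16704296) (l 16701144)) (c (l 16704848) (l 16702016))) (a (c (l 16725744) (l 16712464)) (c (b (l 16713336) (l 16719184)) (l 16724264))))), by decide +kernel⟩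

def k28_pm_012_a : ∃ t, chk3 f_pm_012_a t 59 126 1 = true :=
  ⟨(c (c (a (b (c (l 16729672) (l 16728352)) (c (l 16739080) (l 16739176))) (b (c (l 16730384) (l 16729208)) (c (a (l 16735848) (l 16736352)) (l 16740272)))) (a (b (l 16726400) (c (l 16732720) (l 16731520))) (b (l 16732712) (c (l 16733960) (l 16732904))))) (a (c (b (l 16723824) (l 16734976)) (b (l 16721288) (l 16727376))) (c (b (l 16725184) (c (l 16731848) (l 16730800))) (b (l 16722936) (l 16729240))))), by decide +kernel⟩

def k29_pm_012_a : ∃ t, chk3 f_pm_012_a t 59 254 2 = true :=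
  ⟨(b (c (a (c (l 16739336) (l 16738192)) (c (l 16740480) (l 16739480))) (a (c (l 16737064) (l 16735928)) (c (l 16738480) (l 16737488)))) (c (a (c (a (l 16741864) (l 16742480)) (l 16743712)) (c (a (l 16743120) (l 16743776)) (a (l 16742136) (l 16742856)))) (a (c (l 16740008) (l 16738928)) (c (l 16741552) (l 16740600))))), by decide +kernel⟩

def k30_pm_012_a : ∃ t, chk3 f_pm_012_a t 59 255 2 = true :=
  ⟨(c (b (a (c (b (l 16745648) (a (l 16745432) (l 16746128))) (a (l 16743648) (l 16744392))) (c (a (c (l 16746328) (l 16745864)) (c (l 16747024) (l 16746592))) (a (l 16745160) (l 16745944)))) (a (b (c (a (c (l 16747136) (l 16746616)) (c (l 16747848) (l 16747360))) (a (l 16745848) (l 16746640))) (b (c (c (a (l 16748216) (l 16748952)) (a (l 16747712) (l 16748480))) (c (a (l 16747208) (l 16748008)) (l 16747120))) (c (c (a (a (l 16748752) (l 16749128)) (a (l 16749504) (l 16749888))) (a (l 16748448) (l 16749232))) (a (c (l 16747944) (l 16747448)) (c (l 16748760) (l 16748296)))))) (c (b (a (c (l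 16748576) (l 16748128)) (c (l 16749320) (l 16748896))) (b (a (c (l 16749704) (l 16749264)) (c (l 16750472) (l 16750064))) (a (c (a (l 16750264) (l 16750656)) (l 16750024)) (c (a (l 16751040) (l 16751432)) (l 16750840))))) (b (a (l 16747448) (l 16748272)) (b (a (l 16748600) (l 16749448)) (a (c (l 16749592) (l 16749160)) (c (l 16750440) (l 16750040)))))))) (a (b (c (a (l 16742584) (l 16743392)) (a (l 16741520) (l 16742392))) (b (c (a (l 16744816) (l 16745672)) (a (l 16743792) (l 16744712))) (c (a (c (l 16746576) (l 16746072)) (c (l 16747448) (l 16746976))) (b (l 16746720) (a (l 16745704) (l 16746656)))))) (b (c (a (l 16744224) (l 16745072)) (a (l 16743288) (l 16744208))) (b (c (a (l 16746552) (l 16747440)) (a (l 16745648) (l 16746608))) (c (a (c (l 16748328) (l 16747896)) (c (l 16749240) (l 16748832))) (a (c (l 16747456) (l 16747016)) (c (l 16748432) (l 16748024)))))))), by decide +kernel⟩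

def k31_pm_012_a : ∃ t, chk3 f_pm_012_a t 59 127 3 = true :=
  ⟨(b (b (c (a (l 16734248) (l 16736008)) (a (l 16732024) (l 16734056))) (c (a (c (l 16737848) (l 16736776)) (c (l 16739656) (l 16738720))) (a (l 16735176) (l 16737320)))) (c (b (a (c (l 16743552) (l 16739904)) (c (a (l 16742352) (l 16743344)) (l 16741960))) (b (a (c (l 16743264) (l 16742272)) (c (l 16745272) (l 16744408))) (a (c (a (l 16744320) (l 16745328)) (a (l 16743320) (l 16744392))) (c (a (l 16746360) (l 16747416)) (a (l 16745488) (l 16746608)))))) (b (a (c (l 16738880) (l 16737856)) (c (l 16741064) (l 16740168))) (a (c (a (l 16741520) (l 16742640)) (a (l 16740512) (l 16741688))) (c (a (l 16743784) (l 16744960)) (a (l 16742904) (l 16744144))))))), by decide +kernel⟩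

def k32_pm_012_a : ∃ t, chk3 f_pm_012_a t 15 6 1 = true :=
  ⟨(b (a (c (a (b (l 16956504) (l 16673184)) (b (l 16572392) (a (l 16579872) (l 16549792)))) (a (b (l 16552240) (l 16558008)) (b (l 16535592) (l 16542176)))) (a (c (b (a (l 16532088) (l 16522144)) (a (l 16540360) (l 16551768))) (b (l 16539336) (a (l 16529976) (l 16521792)))) (b (c (a (l 16512064) (b (l 16500136) (l 16503464))) (a (l 16505160) (l 16517288))) (c (a (c (l 16523144) (l 16519176)) (b (l 16508216) (l 16534920))) (a (l 16534552) (b (l 16502288) (l 16528784))))))) (a (a (b (c (b (l 16672072) (l 16589544)) (b (l 16565744) (l 16573616))) (c (b (l 16595592) (c (l 16607576) (l 16600592))) (b (l 16580904) (l 16590624)))) (b (c (b (l 16583840) (a (l 16576104) (l 16567544))) (a (l 16579600) (l 16573008))) (c (b (a (l 16584424) (l 16577368)) (a (l 16594616) (l 16588768))) (a (l 16598616) (l 16593528))))) (b (a (c (b (c (l 16569536) (l 16564232)) (a (l 16559528) (l 16551800))) (a (b (l 16539056) (l 16549144)) (b (l 16532256) (l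 16542960)))) (c (a (b (l 16554216) (l 16565344)) (b (c (l 16547216) (l 16543960)) (c (l 16559792) (l 16556704)))) (a (b (l 16546432) (l 16558032)) (b (l 16539424) (l 16552424))))) (b (a (c (a (l 16570560) (l 16585000)) (a (l 16560928) (l 16555800))) (c (a (c (l 16559624) (l 16556000)) (c (l 16574296) (l 16571376))) (a (l 16571912) (l 16562088)))) (a (c (a (l 16604136) (c (l 16579856) (l 16575832))) (a (l 16574280) (l 16591160))) (c (a (c (l 16595432) (l 16571072)) (c (l 16585088) (l 16587584))) (a (l 16587328) (l 16574616)))))))), by decide +kernel⟩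

def k33_pm_012_a : ∃ t, chk3 f_pm_012_a t 30 14 1 = true :=
  ⟨(b (a (c (b (c (l 16617376) (l 16611032)) (a (l 16628264) (l 16634312))) (b (l 16622968) (a (l 16616768) (l 16613464)))) (c (b (a (l 16606456) (l 16612296)) (a (c (l 16622512) (l 16617624)) (c (l 16618800) (l 16614416)))) (b (a (l 16596064) (l 16592544)) (a (l 16610696) (l 16608224))))) (a (c (b (a (c (l 16644288) (l 16639016)) (c (l 16640640) (l 16635880))) (a (c (l 16659192) (l 16654616)) (c (l 16656584) (l 16652472)))) (b (a (l 16631480) (l 16629104)) (a (l 16669040) (l 16667584)))) (b (c (a (c (l 16637776) (l 16633464)) (c (l 16635248) (l 16631368))) (a (l 16648320) (l 16646864))) (c (a (c (l 16665368) (l 16651152)) (c (b (l 16648696) (l 16658304)) (l 16660672))) (a (b (l 16640968) (l 16650696)) (b (l 16640280) (l 16650520))))))), by decide +kernel⟩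

def k34_pm_012_a : ∃ t, chk3 f_pm_012_a t 31 14 1 = true :=
  ⟨(b (b (a (c (a (c (l 16599552) (l 16595272)) (c (l 16595088) (l 16591376))) (a (l 16589248) (l 16607152))) (c (a (c (l 16611856) (l 16608720)) (a (c (l 16608872) (l 16606160)) (c (l 16606984) (l 16604560)))) (a (a (l 16605016) (l 16603680)) (l 16595288)))) (a (c (a (c (l 16615288) (l 16611408)) (c (l 16622504) (l 16629608))) (a (l 16626920) (c (l 16626416) (l 16623416)))) (c (a (c (a (l 16609704) (l 16629224)) (l 16621848)) (a (c (l 16627848) (l 16625360)) (c (l 16621280) (l 16624296)))) (a (a (l 16623520) (l 16622696)) (b (l 16605896) (l 16616288)))))) (a (b (c (a (c (l 16643416) (l 16639976)) (c (b (l 16625864) (l 16635720)) (l 16643560))) (a (b (l 16619720) (l 16629528)) (a (l 16644832) (l 16644392)))) (b (c (a (c (l 16647256) (l 16644160)) (c (l 16646024) (l 16643328))) (a (l 16639808) (l 16650048))) (c (a (c (l 16657448) (l 16654584)) (c (l 16656776) (l 16654280))) (a (l 16650560) (l 16661944))))) (b (c (a (c (a (l 16650360)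 (l 16649480)) (a (l 16647696) (l 16647040))) (a (c (l 16643416) (l 16646448)) (l 6))) (a (a (l 16638760) (l 16638440)) (b (l 16627152) (l 6)))) (b (a (a (c (l 16654488) (l 16639504)) (l 6)) (l 6)) (l 6))))), by decide +kernel⟩

def k35_pm_012_a : ∃ t, chk3 f_pm_012_a t 15 30 1 = true :=
  ⟨(a (b (a (c (a (c (l 16686504) (l 16672144)) (c (b (l 16669704) (l 16679128)) (l 16686720))) (a (b (l 16661688) (l 16671440)) (c (l 16688632) (l 16685440)))) (c (a (c (b (l 16668864) (l 16678856)) (b (l 16665584) (l 16675872))) (b (c (l 16668392) (l 16665432)) (c (l 16678960) (l 16676272)))) (a (b (l 16660912) (l 16671624)) (b (l 16661248) (l 16682952))))) (a (c (a (c (b (l 16689968) (l 16700088)) (b (l 16686624) (l 16697088))) (b (c (l 16689168) (l 16686200)) (c (l 16710288) (l 16697160)))) (a (b (l 16681808) (c (l 16694184) (l 16691368))) (b (l 16692440) (c (l 16694616) (l 16692152))))) (c (a (b (c (l 16689464) (l 16686776)) (c (l 16711128) (l 16708752))) (b (c (l 16700616) (l 16687712)) (a (b (l 16697416)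 (l 6)) (l 6)))) (a (b (l 16693432) (c (l 16695968) (l 16693768))) (b (c (l 16685400) (l 16683192)) (c (l 16708152) (l 16695704))))))) (a (a (b (c (b (c (l 16668104) (l 16665472)) (c (l 16689712) (l 16676840))) (b (l 16672264) (c (l 16674576) (l 16672432)))) (l 6)) (l 6)) (l 6))), by decide +kernel⟩

def k36_pm_012_a : ∃ t, chk3 f_pm_012_a t 30 62 1 = true :=
  ⟨(a (c (b (a (c (b (l 16707992) (l 16713456)) (l 16718576)) (c (b (l 16708088) (l 16713800)) (b (l 16705696) (l 16711576)))) (a (c (b (l 16719056) (l 16730032)) (b (l 16716672) (l 16722592))) (c (b (l 16724888) (a (l 16725304) (l 16725928))) (b (l 16717592) (l 16728984))))) (b (a (c (l 16705520) (l 16703016)) (c (l 16716904) (l 16704248))) (a (c (b (l 16714352) (l 16720440)) (l 16723088)) (c (b (l 16715592) (l 16721904)) (b (l 16713648) (l 16720104)))))) (b (a (c (c (a (l 16722392) (l 16723240)) (b (l 16707192) (l 16713320))) (c (b (l 16705112) (l 16711392)) (l 16711568))) (l 6)) (l 6))), by decide +kernel⟩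

def k37_pm_012_a : ∃ t, chk3 f_pm_012_a t 30 63 1 = true :=
  ⟨(b (a (b (c (c (a (c (l 16731176) (l 16730160)) (a (l 16731360) (l 6))) (a (c (l 16729144) (l 16728144)) (a (l 16729584) (l 6)))) (a (c (l 16726664) (l 16724712)) (c (a (l 16727840) (l 6)) (l 16726704)))) (a (c (a (c (c (l 16736864) (l 16735904)) (l 16734472)) (c (c (l 16737408) (l 16736520)) (l 16740440))) (c (a (l 16732576) (l 16733456)) (l 16736472))) (l 6))) (l 6)) (a (c (b (a (b (c (c (l 16744320) (l 16740848)) (c (l 16739992) (l 16739144))) (a (c (c (l 16744440) (l 16743600)) (c (l 16742752) (l 16741912))) (l 6))) (l 6)) (b (a (a (c (c (c (l 16747736) (l 16747336)) (l 16749360)) (c (l 16745944) (l 16745144))) (l 6)) (l 6)) (a (a (a (b (c (c (l 16749688) (l 16748904)) (c (l 16748120) (l 16747344))) (c (c (c (l 16752752) (l 16751064)) (c (l 16750688) (l 16750304))) (c (l 16749736) (l 16748984)))) (l 6)) (l 6)) (l 6)))) (a (a (c (b (c (l 16739456) (l 16738600)) (a (b (l 16743688) (c (l 16747392) (l 16746624))) (b (l 16744216)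 (l 6)))) (b (l 16737328) (b (l 16742368) (c (l 16748784) (l 16745408))))) (a (b (c (l 16745008) (l 16738168)) (l 6)) (l 6))) (l 6))) (l 6))), by decide +kernel⟩

def k38_pm_012_a : ∃ t, chk3 f_pm_012_a t 31 31 1 = true :=
  ⟨(l 6), by decide +kernel⟩

theorem s39_pm_012_a : ∃ t, chk3 f_pm_012_a t 30 31 1 = true := ex3_b k36_pm_012_a k37_pm_012_a

theorem s40_pm_012_a : ∃ t, chk3 f_pm_012_a t 15 31 1 = true := ex3_a s39_pm_012_a k38_pm_012_a

theorem s41_pm_012_a : ∃ t, chk3 f_pm_012_a t 15 15 1 = true := ex3_b k35_pm_012_a s40_pm_012_a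

theorem s42_pm_012_a : ∃ t, chk3 f_pm_012_a t 15 14 1 = true := ex3_a k33_pm_012_a k34_pm_012_a

theorem s43_pm_012_a : ∃ t, chk3 f_pm_012_a t 15 7 1 = true := ex3_b s42_pm_012_a s41_pm_012_a

theorem s44_pm_012_a : ∃ t, chk3 f_pm_012_a t 15 3 1 = true := ex3_b k32_pm_012_a s43_pm_012_a

theorem s45_pm_012_a : ∃ t, chk3 f_pm_012_a t 59 127 2 = true := ex3_b k29_pm_012_a k30_pm_012_a

theorem s46_pm_012_a : ∃ t, chk3 f_pm_012_a t 59 127 1 = true := ex3_c s45_pm_012_a k31_pm_012_a

theorem s47_pm_012_a : ∃ t, chk3 f_pm_012_a t 59 63 1 = true := ex3_b k28_pm_012_a s46_pm_012_a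

theorem s48_pm_012_a : ∃ t, chk3 f_pm_012_a t 59 31 1 = true := ex3_b k27_pm_012_a s47_pm_012_a

theorem s49_pm_012_a : ∃ t, chk3 f_pm_012_a t 58 127 2 = true := ex3_a k24_pm_012_a k25_pm_012_a

theorem s50_pm_012_a : ∃ t, chk3 f_pm_012_a t 58 127 1 = true := ex3_c s49_pm_012_a k26_pm_012_a

theorem s51_pm_012_a : ∃ t, chk3 f_pm_012_a t 58 63 1 = true := ex3_b k23_pm_012_a s50_pm_012_a

theorem s52_pm_012_a : ∃ t, chk3 f_pm_012_a t 58 31 1 = true := ex3_b k22_pm_012_a s51_pm_012_a

theorem s53_pm_012_a : ∃ t, chk3 f_pm_012_a t 29 31 1 = true := ex3_a s52_pm_012_a s48_pm_012_a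

theorem s54_pm_012_a : ∃ t, chk3 f_pm_012_a t 29 15 1 = true := ex3_b k21_pm_012_a s53_pm_012_a

theorem s55_pm_012_a : ∃ t, chk3 f_pm_012_a t 29 7 1 = true := ex3_b k20_pm_012_a s54_pm_012_a

theorem s56_pm_012_a : ∃ t, chk3 f_pm_012_a t 57 127 2 = true := ex3_a k17_pm_012_a k18_pm_012_a

theorem s57_pm_012_a : ∃ t, chk3 f_pm_012_a t 57 127 1 = true := ex3_c s56_pm_012_a k19_pm_012_a

theorem s58_pm_012_a : ∃ t, chk3 f_pm_012_a t 57 63 1 = true := ex3_b k16_pm_012_a s57_pm_012_a

theorem s59_pm_012_a : ∃ t, chk3 f_pm_012_a t 56 63 1 = true := ex3_c k14_pm_012_a k15_pm_012_a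

theorem s60_pm_012_a : ∃ t, chk3 f_pm_012_a t 28 63 1 = true := ex3_a s59_pm_012_a s58_pm_012_a

theorem s61_pm_012_a : ∃ t, chk3 f_pm_012_a t 28 31 1 = true := ex3_b k13_pm_012_a s60_pm_012_a

theorem s62_pm_012_a : ∃ t, chk3 f_pm_012_a t 28 15 1 = true := ex3_b k12_pm_012_a s61_pm_012_a

theorem s63_pm_012_a : ∃ t, chk3 f_pm_012_a t 28 7 1 = true := ex3_b k11_pm_012_a s62_pm_012_a

theorem s64_pm_012_a : ∃ t, chk3 f_pm_012_a t 14 7 1 = true := ex3_a s63_pm_012_a s55_pm_012_a

theorem s65_pm_012_a : ∃ t, chk3 f_pm_012_a t 14 3 1 = true := ex3_b k10_pm_012_a s64_pm_012_a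

theorem s66_pm_012_a : ∃ t, chk3 f_pm_012_a t 7 3 1 = true := ex3_a s65_pm_012_a s44_pm_012_a

theorem s67_pm_012_a : ∃ t, chk3 f_pm_012_a t 27 63 1 = true := ex3_a k8_pm_012_a k9_pm_012_a

theorem s68_pm_012_a : ∃ t, chk3 f_pm_012_a t 27 31 1 = true := ex3_b k7_pm_012_a s67_pm_012_a

theorem s69_pm_012_a : ∃ t, chk3 f_pm_012_a t 13 31 1 = true := ex3_a k6_pm_012_a s68_pm_012_a

theorem s70_pm_012_a : ∃ t, chk3 f_pm_012_a t 13 15 1 = true := ex3_b k5_pm_012_a s69_pm_012_a

theorem s71_pm_012_a : ∃ t, chk3 f_pm_012_a t 6 15 1 = true := ex3_a k4_pm_012_a s70_pm_012_a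

theorem s72_pm_012_a : ∃ t, chk3 f_pm_012_a t 6 7 1 = true := ex3_b k3_pm_012_a s71_pm_012_a

theorem s73_pm_012_a : ∃ t, chk3 f_pm_012_a t 6 3 1 = true := ex3_b k2_pm_012_a s72_pm_012_a

theorem s74_pm_012_a : ∃ t, chk3 f_pm_012_a t 3 3 1 = true := ex3_a s73_pm_012_a s66_pm_012_a

theorem s75_pm_012_a : ∃ t, chk3 f_pm_012_a t 3 1 1 = true := ex3_b k1_pm_012_a s74_pm_012_a

theorem s76_pm_012_a : ∃ t, chk3 f_pm_012_a t 1 1 1 = true := ex3_a k0_pm_012_a s75_pm_012_a

theorem c_pm_012_a : CertF 0 536870912 0 536870912 134217728 67108864 false true false .pnp 0 1 2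
    ndF0q0 ndF1q2a pcF1 cut_pm_012_a Ext.none :=
  certF2 (fam := false) (s1 := true) (s2 := false) (a := 0) (b := 1) (c := 2) (cn := .pnp) (n1 := ndF0q0) (n2 := ndF1q2a) (pc := pcF1) (cut := cut_pm_012_a) (xt := Ext.none) (P1 := 0) (W1 := 536870912) (P2 := 0) (W2 := 536870912) (P3 := 134217728) (W3 := 67108864)
    rfl (fun _ => rfl) s76_pm_012_a

noncomputable def cut_pm_012_b : Cut := Cut.of [[⟨0, 0, 0, 67108864⟩, ⟨1, 1, 0, 67108864⟩, ⟨2, 1, 0, 67108864⟩], [⟨0, 0, 1, 41943040⟩, ⟨1, 1, 2, 41943040⟩, ⟨2, 1, 0, 16777216⟩]]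

noncomputable def f_pm_012_b : ℕ → ℕ → ℕ → ℕ → Bool := onCell 536870912 536870912 1239849684 370763052 134217728 67108864
    (rowF 2 false true false .pnp 0 1 2 (qsf 0 536870912 1239849684 370763052 1) ndF0q0 ndF1q2b pcF1 cut_pm_012_b Ext.none)

def k0_pm_012_b : ∃ t, chk3 f_pm_012_b t 1 1 1 = true :=
  ⟨(a (b (a (l 2) (b (a (b (l 17390704) (l 2)) (b (l 17450312) (l 17472864))) (a (l 2) (l 17527192)))) (l 2)) (b (a (b (a (b (l 17528240) (l 17572568)) (b (a (l 17581208) (l 17600656)) (l 17681200))) (a (l 17814784) (b (l 17727608) (l 17735456)))) (b (a (b (a (c (l 17741944) (l 17442832)) (c (l 17725160) (b (l 17260248) (l 17411872)))) (a (l 17744600) (l 17758640))) (b (a (c (b (l 17532552) (l 17725880)) (b (l 16912232) (l 17236352))) (a (c (b (l 17330464) (l 17610048)) (l 16748000)) (c (b (l 17110144) (l 17476944)) (b (l 16587360) (l 16758520))))) (a (c (l 17940816) (l 17512784)) (c (b (l 17793408) (l 17978224)) (a (l 17390360) (l 17262304)))))) (a (b (l 17868256) (l 17919984)) (b (a (l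 17940184) (c (l 18171552) (l 17716056))) (a (l 18055216) (l 18128952)))))) (a (b (a (l 2) (l 17688544)) (l 2)) (a (b (l 17947328) (l 17896560)) (b (b (l 18154704) (l 18151040)) (l 18057440)))))), by decide +kernel⟩

theorem c_pm_012_b : CertF 0 536870912 1239849684 370763052 134217728 67108864 false true false .pnp 0 1 2
    ndF0q0 ndF1q2b pcF1 cut_pm_012_b Ext.none :=
  certF2 (fam := false) (s1 := true) (s2 := false) (a := 0) (b := 1) (c := 2) (cn := .pnp) (n1 := ndF0q0) (n2 := ndF1q2b) (pc := pcF1) (cut := cut_pm_012_b) (xt := Ext.none) (P1 := 0) (W1 := 536870912) (P2 := 1239849684) (W2 := 370763052) (P3 := 134217728) (W3 := 67108864)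
    rfl (fun _ => rfl) k0_pm_012_b

noncomputable def cut_pm_022_a : Cut := Cut.of [[⟨0, 0, 0, 67108864⟩, ⟨1, 1, 0, 67108864⟩, ⟨2, 1, 0, 67108864⟩]]

noncomputable def f_pm_022_a : ℕ → ℕ → ℕ → ℕ → Bool := onCell 1073741824 536870912 0 536870912 134217728 67108864
    (rowF 2 false true false .pp 0 2 2 (qsf 0 536870912 0 536870912 2) ndF0q0 ndF1q2a pcF2 cut_pm_022_a Ext.none)

def k0_pm_022_a : ∃ t, chk3 f_pm_022_a t 4 2 1 = true :=
  ⟨(a (b (a (b (c (l 16824560) (l 16432184)) (c (b (l 16755080) (l 16658120)) (l 16441960))) (b (c (l 16810616) (l 16474544)) (c (b (l 16740872) (l 16646792)) (l 16488232)))) (b (a (c (a (b (l 16521456) (l 16465024)) (l 16457664)) (a (l 16452072) (l 16446736))) (c (b (l 16510424) (l 16497520)) (b (l 16471656) (l 16501376)))) (a (a (c (c (a (l 16488704) (l 16485592)) (l 16494400)) (b (l 16471216) (l 16487880))) (c (b (l 16471504) (l 16482832)) (l 16486168))) (a (c (b (l 16476976) (l 16516448)) (l 16510992)) (c (b (l 16504136) (l 16523088)) (b (l 16485120) (l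 16524200))))))) (b (a (b (c (l 16819488) (l 16493520)) (c (l 16705032) (l 16490232))) (b (c (l 16849728) (l 16532216)) (c (l 16741432) (l 16532872)))) (b (a (c (b (l 16533408) (l 16528720)) (l 16544552)) (c (b (l 16583608) (l 16579160)) (l 16569696))) (a (c (b (l 16564920) (a (l 16529272) (l 16556000))) (b (l 16543080) (l 16583136))) (c (a (l 16614328) (b (l 16587344) (l 34929892647))) (b (l 16591408) (a (l 16578528) (l 16603040)))))))), by decide +kernel⟩

def k1_pm_022_a : ∃ t, chk3 f_pm_022_a t 8 6 1 = true :=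
  ⟨(a (b (b (c (a (c (l 16503064) (l 16511192)) (c (l 16508736) (l 16507304))) (a (l 16507912) (l 16505360))) (c (a (c (b (l 16508896) (l 16521080)) (l 16534160)) (c (l 16532112) (l 16531192))) (a (c (l 16532496) (l 16530912)) (l 16529936)))) (b (c (c (a (b (l 16544760) (l 16559056)) (b (l 16552232) (l 16567048))) (a (a (l 16561584) (l 16560704)) (l 16559120))) (a (a (l 16559608) (l 16559288)) (b (l 16550888) (l 16566224)))) (a (a (c (c (b (l 16564464) (l 16601984)) (b (l 16563496) (l 16580304))) (c (l 16592000) (l 16591200))) (c (c (l 16592928) (l 16592416)) (c (l 16591920) (l 16591440)))) (b (c (a (l 16583432) (l 16587488)) (l 16582696)) (c (a (l 16592760) (l 16608312)) (a (l 16600424) (l 16608424))))))) (b (b (c (a (l 16529320) (l 16546808)) (a (l 16520832) (l 16547088))) (c (a (c (l 16567848) (l 16568416)) (c (l 16575520) (l 16575320))) (a (l 16569160) (l 16574936)))) (b (c (a (c (l 16591168) (l 16601760)) (c (l 16619896) (l 16629840))) (a (a (l 16574048) (l 16587696)) (l 16628968)))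 (a (a (c (b (l 16601952) (l 16622760)) (l 16622664)) (c (b (l 16616288) (l 16637080)) (l 16636432))) (a (c (b (l 16630504) (l 16651280)) (l 16650104)) (c (b (l 16644600) (l 16665360)) (l 16663680))))))), by decide +kernel⟩

def k2_pm_022_a : ∃ t, chk3 f_pm_022_a t 9 6 1 = true :=
  ⟨(b (a (b (c (a (l 16574344) (l 16601448)) (a (l 16552072) (l 16577712))) (c (a (l 16613712) (l 16641072)) (a (l 16601336) (l 16627400)))) (a (b (c (l 16628144) (l 16603024)) (c (a (b (l 16621872) (l 16658664)) (b (l 16656200) (l 125661137479))) (a (l 16646736) (l 91838263687)))) (b (c (a (l 86469525463) (l 141230329895)) (l 98280706407)) (l 1)))) (a (b (a (c (b (l 16627880) (l 16646064)) (a (l 16628080) (l 16641360))) (c (b (c (l 16656176) (l 16633560)) (a (l 16666752) (c (l 92912028087) (l 90764541143)))) (b (l 16651960) (a (l 16642552) (l 86469573111))))) (a (b (c (c (l 16666136) (l 16664888)) (l 16662952)) (c (a (l 16679328) (c (b (l 16667520) (l 76269056727)) (l 65531637207))) (a (l 16655928) (a (l 16686960)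 (l 83785245959))))) (b (a (c (c (l 79490267991) (l 76805910727)) (l 72510943047)) (l 1)) (l 1)))) (b (a (b (a (c (l 106870663895) (l 102575689159)) (l 1)) (l 1)) (l 1)) (l 1)))), by decide +kernel⟩

def k3_pm_022_a : ∃ t, chk3 f_pm_022_a t 4 7 1 = true :=
  ⟨(a (b (a (b (a (b (c (a (c (l 16609336) (l 16608864)) (c (l 16619512) (l 16619320))) (a (b (l 16592920) (l 16602448)) (l 16619024))) (b (b (b (c (c (l 16619888) (l 16630160)) (l 16614088)) (l 6)) (l 6)) (l 6))) (b (c (c (a (l 16619088) (l 16630600)) (a (l 16619152) (l 16630472))) (a (l 16619248) (l 16630280))) (b (a (c (l 16633848) (l 16634192)) (c (l 16648056) (l 16647568))) (l 6)))) (l 6)) (b (a (b (a (c (c (l 16645136) (l 16644768)) (l 16644208)) (c (l 16659240) (l 16658032))) (b (a (c (l 16662440) (l 16640536)) (c (l 16676696) (l 16654376))) (l 6))) (b (c (a (c (l 16673808) (l 16652032)) (c (l 16687960) (l 16665976))) (a (l 16671752) (l 16685368))) (b (c (a (l 16690824) (c (l 30098171447) (l 16704320))) (a (l 16668104) (l 26340073879)))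 (a (l 6) (a (l 6) (a (l 6) (l 1))))))) (a (l 6) (a (l 6) (a (l 6) (l 1)))))) (a (l 6) (a (l 6) (l 1)))) (b (a (b (a (b (a (c (b (c (l 16696272) (l 16674096)) (a (l 48351772839) (l 143377912567))) (b (l 16693192) (l 71974105063))) (c (b (l 146599136055) (l 1)) (l 151967850807))) (a (b (c (l 142841058119) (l 152504729543)) (l 1)) (l 1))) (l 1)) (l 1)) (l 1)) (l 1))), by decide +kernel⟩

def k4_pm_022_a : ∃ t, chk3 f_pm_022_a t 5 1 1 = true :=
  ⟨(b (a (b (b (a (c (l 16857944) (l 16570112)) (l 1)) (a (c (a (l 16783640) (l 53720415479)) (l 16616656)) (l 1))) (a (b (c (a (l 16609712) (l 126197959047)) (a (l 16582736) (l 123513597527))) (a (b (c (l 67142149575) (l 16627072)) (c (l 142304059447) (l 144451529959))) (l 1))) (l 1))) (l 1)) (b (l 1) (l 1))), by decide +kernel⟩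

def k5_pm_022_a : ∃ t, chk3 f_pm_022_a t 3 1 1 = true :=
  ⟨(l 1), by decide +kernel⟩

theorem s6_pm_022_a : ∃ t, chk3 f_pm_022_a t 4 6 1 = true := ex3_a k1_pm_022_a k2_pm_022_a

theorem s7_pm_022_a : ∃ t, chk3 f_pm_022_a t 4 3 1 = true := ex3_b s6_pm_022_a k3_pm_022_a

theorem s8_pm_022_a : ∃ t, chk3 f_pm_022_a t 4 1 1 = true := ex3_b k0_pm_022_a s7_pm_022_a

theorem s9_pm_022_a : ∃ t, chk3 f_pm_022_a t 2 1 1 = true := ex3_a s8_pm_022_a k4_pm_022_a

theorem s10_pm_022_a : ∃ t, chk3 f_pm_022_a t 1 1 1 = true := ex3_a s9_pm_022_a k5_pm_022_a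

theorem c_pm_022_a : CertF 0 536870912 0 536870912 134217728 67108864 false true false .pp 0 2 2
    ndF0q0 ndF1q2a pcF2 cut_pm_022_a Ext.none :=
  certF2 (fam := false) (s1 := true) (s2 := false) (a := 0) (b := 2) (c := 2) (cn := .pp) (n1 := ndF0q0) (n2 := ndF1q2a) (pc := pcF2) (cut := cut_pm_022_a) (xt := Ext.none) (P1 := 0) (W1 := 536870912) (P2 := 0) (W2 := 536870912) (P3 := 134217728) (W3 := 67108864)
    rfl (fun _ => rfl) s10_pm_022_a

noncomputable def cut_pm_022_b : Cut := Cut.of [[⟨0, 0, 0, 67108864⟩, ⟨1, 1, 0, 67108864⟩, ⟨2, 1, 0, 67108864⟩]]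

noncomputable def f_pm_022_b : ℕ → ℕ → ℕ → ℕ → Bool := onCell 1073741824 536870912 1239849684 370763052 134217728 67108864
    (rowF 2 false true false .pp 0 2 2 (qsf 0 536870912 1239849684 370763052 2) ndF0q0 ndF1q2b pcF2 cut_pm_022_b Ext.none)

def k0_pm_022_b : ∃ t, chk3 f_pm_022_b t 1 1 1 = true :=
  ⟨(a (b (a (b (a (b (a (c (b (l 17105248) (l 17527696)) (b (l 16448424) (l 16735736))) (c (b (l 17081952) (l 17491320)) (l 16499104))) (c (b (l 17822200) (l 18062208)) (a (l 17162992) (l 17276264)))) (b (c (a (b (l 17077912) (l 17469848)) (b (l 17091800) (l 17462200))) (a (l 16510904) (l 16541688))) (c (b (l 17762448) (l 17996352)) (a (l 17256104) (l 17247992))))) (a (b (c (l 18318784) (l 17782344)) (l 18303640)) (b (c (l 18255568) (l 17726976)) (l 18253648)))) (b (a (c (b (a (b (l 17101432) (l 17467576)) (b (a (l 149283927591) (l 182569993575)) (l 17486672))) (l 17859464)) (b (a (l 16590896) (b (l 132640397815) (l 16816536))) (a (l 17251336) (l 17266016)))) (b (a (b (l 1) (c (l 221225380199)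 (l 162705199431))) (l 1)) (c (b (l 95061669015) (l 17966664)) (a (l 17295000) (l 216393207623))))) (a (b (c (l 18213584) (l 17701752)) (l 18219224)) (b (c (l 18191928) (l 17705592)) (l 18197304))))) (a (b (a (l 18473264) (l 18451304)) (a (l 18462624) (l 18482504))) (b (a (l 18433896) (l 18417704)) (l 18632760)))) (a (b (b (l 1) (a (b (c (l 18222592) (l 302830835015)) (l 18194672)) (l 340412527143))) (b (a (l 18402896) (l 18400952)) (l 18509296))) (b (l 1) (a (a (l 355982864215) (l 360814716999)) (l 1213567096503))))), by decide +kernel⟩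

theorem c_pm_022_b : CertF 0 536870912 1239849684 370763052 134217728 67108864 false true false .pp 0 2 2
    ndF0q0 ndF1q2b pcF2 cut_pm_022_b Ext.none :=
  certF2 (fam := false) (s1 := true) (s2 := false) (a := 0) (b := 2) (c := 2) (cn := .pp) (n1 := ndF0q0) (n2 := ndF1q2b) (pc := pcF2) (cut := cut_pm_022_b) (xt := Ext.none) (P1 := 0) (W1 := 536870912) (P2 := 1239849684) (W2 := 370763052) (P3 := 134217728) (W3 := 67108864)
    rfl (fun _ => rfl) k0_pm_022_b

noncomputable def f_pm_023 : ℕ → ℕ → ℕ → ℕ → Bool := onCell 0 536870912 1073741824 536870912 134217728 67108864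
    (rowF 1 false true false .up 0 2 3 (qsf 0 536870912 1610612736 536870912 2) ndF0q0 ndF1q3 pcF2 Cut.none Ext.none)

def k0_pm_023 : ∃ t, chk3 f_pm_023 t 1 1 1 = true :=
  ⟨(a (b (b (l 1) (a (l 1) (l 320549058007))) (b (a (l 343634571175) (l 18535032)) (a (l 314643938263) (l 18416416)))) (b (a (b (l 287263287799) (l 18469552)) (b (b (l 18379704) (l 18327808)) (l 18223752))) (b (a (l 18366248) (l 18046080)) (a (l 18163568) (l 17824152))))), by decide +kernel⟩

theorem c_pm_023 : CertF 0 536870912 1610612736 536870912 134217728 67108864 false true false .up 0 2 3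
    ndF0q0 ndF1q3 pcF2 Cut.none Ext.none :=
  certF1 (fam := false) (s1 := true) (s2 := false) (a := 0) (b := 2) (c := 3) (cn := .up) (n1 := ndF0q0) (n2 := ndF1q3) (pc := pcF2) (cut := Cut.none) (xt := Ext.none) (P1 := 0) (W1 := 536870912) (P2 := 1610612736) (W2 := 536870912) (P3 := 134217728) (W3 := 67108864)
    rfl (fun _ => rfl) k0_pm_023

noncomputable def f_pm_033 : ℕ → ℕ → ℕ → ℕ → Bool := onCell 1610612736 536870912 1610612736 536870912 134217728 67108864
    (rowF 2 false true false .pnn 0 3 3 (qsf 0 536870912 1610612736 536870912 3) ndF0q0 ndF1q3 pcF3 Cut.none Ext.none)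

def k0_pm_033 : ∃ t, chk3 f_pm_033 t 1 1 1 = true :=
  ⟨(a (b (a (a (b (l 4) (l 18272624)) (l 4)) (l 4)) (a (b (a (l 17915968) (l 17999064)) (a (l 17366848) (l 17580352))) (b (l 4) (l 189215498919)))) (l 4)), by decide +kernel⟩

theorem c_pm_033 : CertF 0 536870912 1610612736 536870912 134217728 67108864 false true false .pnn 0 3 3
    ndF0q0 ndF1q3 pcF3 Cut.none Ext.none :=
  certF2 (fam := false) (s1 := true) (s2 := false) (a := 0) (b := 3) (c := 3) (cn := .pnn) (n1 := ndF0q0) (n2 := ndF1q3) (pc := pcF3) (cut := Cut.none) (xt := Ext.none) (P1 := 0) (W1 := 536870912) (P2 := 1610612736) (W2 := 536870912) (P3 := 134217728) (W3 := 67108864)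
    rfl (fun _ => rfl) k0_pm_033

noncomputable def f_pm_101 : ℕ → ℕ → ℕ → ℕ → Bool := onCell 0 536870912 536870912 536870912 134217728 67108864
    (rowF 2 false true false .npn 1 0 1 (qsf 536870912 536870912 536870912 536870912 0) ndF0q1 ndF1q1 pcF0 Cut.none Ext.none)

def k0_pm_101 : ∃ t, chk3 f_pm_101 t 1 1 1 = true :=
  ⟨(a (b (l 4) (a (b (a (b (l 4) (l 17999880)) (l 4)) (b (a (l 18137680) (l 18090344)) (a (l 18103584) (l 18155040)))) (b (l 4) (b (l 4) (a (l 18170280) (l 18142680)))))) (l 4)), by decide +kernel⟩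

theorem c_pm_101 : CertF 536870912 536870912 536870912 536870912 134217728 67108864 false true false .npn 1 0 1
    ndF0q1 ndF1q1 pcF0 Cut.none Ext.none :=
  certF2 (fam := false) (s1 := true) (s2 := false) (a := 1) (b := 0) (c := 1) (cn := .npn) (n1 := ndF0q1) (n2 := ndF1q1) (pc := pcF0) (cut := Cut.none) (xt := Ext.none) (P1 := 536870912) (W1 := 536870912) (P2 := 536870912) (W2 := 536870912) (P3 := 134217728) (W3 := 67108864)
    rfl (fun _ => rfl) k0_pm_101

end Pool.Agent.Strip051.G.I1_8_3_16.Tab.C.FB01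

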