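import Pool.Agent.Strip051.G.I1_8_3_16.Tab

/-! # Certificates F7 (generated) -/

set_option linter.all false
set_option maxRecDepth 100000

namespace Pool.Agent.Strip051.G.I1_8_3_16.Tab.C.FB01

open Pool.Agent.Strip051.PB Pool.Agent.Strip051.PB.T
open Pool.Agent.Strip051.G.I1_8_3_16.Tab

noncomputable def cut_pm_102_a : Cut := Cut.of [[⟨0, 1, 0, 67108864⟩, ⟨1, 0, 0, 67108864⟩, ⟨2, 1, 0, 67108864⟩]]

noncomputable def f_pm_102_a : ℕ → ℕ → ℕ → ℕ → Bool := onCell 536870912 536870912 0 536870912 134217728 67108864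
    (rowF 0 false true false .npp 1 0 2 (qsf 536870912 536870912 0 536870912 0) ndF0q1 ndF1q2a pcF0 cut_pm_102_a Ext.none)

def k0_pm_102_a : ∃ t, chk3 f_pm_102_a t 2 1 1 = true :=
  ⟨(b (a (a (l 2) (b (l 2) (l 353363195639))) (a (b (a (l 17060632) (l 16989944)) (b (l 17245216) (l 17190256))) (a (b (l 16921296) (l 17028000)) (b (l 16857008) (l 16946856))))) (a (b (a (l 2) (l 17381488)) (b (a (l 61306148215) (l 17494800)) (a (c (l 17811544) (l 17627040)) (c (l 17559256) (l 17510296))))) (b (a (l 17453840) (b (a (l 17101864) (l 17027024)) (l 17135680))) (b (a (l 17361640) (l 17220776)) (a (c (l 17432712) (l 17393048)) (c (l 17403712) (l 17393336))))))), by decide +kernel⟩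

def k1_pm_102_a : ∃ t, chk3 f_pm_102_a t 6 2 1 = true :=
  ⟨(a (b (a (l 16840496) (b (a (l 16815544) (b (a (l 16848384) (l 16864128)) (l 16839608))) (l 16795576))) (l 17099480)) (b (a (c (b (a (b (l 146196902503) (l 98952253735)) (b (l 3) (l 144049454263))) (a (l 16848720) (b (a (l 16888056) (l 148881272343)) (l 16874616)))) (b (a (b (l 147270596519) (l 102173430583)) (b (l 3) (l 146733747927))) (a (l 16835936) (b (a (l 16864824) (l 109152766999)) (l 16853640))))) (c (b (l 3) (a (b (l 143512614759) (a (l 16901896) (l 145123203063))) (b (l 3) (a (l 143512624295) (l 3))))) (b (l 3) (a (b (l 146196892855) (a (l 16871824) (b (l 146733751223) (l 16878584)))) (b (l 3) (a (l 145660020279) (l 3))))))) (c (a (l 16850280) (b (a (l 16872120) (b (a (l 147270684295) (l 141901998295)) (l 16894584))) (l 16829344))) (a (l 16852888) (b (a (l 16847840) (b (a (l 110763371271) (l 145123131479)) (l 16858976))) (l 16814408)))))), by decide +kernel⟩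

def k2_pm_102_a : ∃ t, chk3 f_pm_102_a t 7 2 1 = true :=
  ⟨(a (b (l 3) (a (b (a (b (c (a (l 140291417783) (l 3)) (a (l 142975663031) (l 3))) (a (c (l 144586332791) (b (l 146733730391) (l 16866248))) (c (b (l 138143926983) (l 144586350359)) (b (l 141365033351) (l 144586237847))))) (l 3)) (a (b (a (l 16869944) (a (l 16878368) (c (l 115595275543) (l 116668929671)))) (l 16847616)) (b (a (c (b (l 141365124519) (l 145123189815)) (b (l 144586223511) (a (l 16852952) (l 123648235863)))) (c (b (l 3) (l 139754485655)) (b (l 3) (l 142975589591)))) (c (a (l 16887872) (b (a (l 147807491719) (l 140828221431)) (l 16892240))) (a (l 16835672) (b (a (l 119890126967) (b (l 144049312615) (l 123648205575))) (l 16830184))))))) (c (b (l 3) (a (b (l 3) (a (b (a (l 138143877639) (l 3)) (a (l 142975681079) (l 140828185671))) (l 3))) (l 3))) (b (l 3) (a (b (l 3) (a (b (l 141364946855) (c (l 142975572183) (a (l 123648146727) (l 141901748487)))) (l 3))) (l 3)))))) (l 3)), by decide +kernel⟩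

def k3_pm_102_a : ∃ t, chk3 f_pm_102_a t 6 3 1 = true :=
  ⟨(b (a (b (l 17073304) (a (l 17027496) (l 16955448))) (b (l 16953520) (a (l 16892048) (l 16836040)))) (b (a (l 17203240) (a (l 16995280) (l 16907360))) (a (a (l 17271256) (l 17247104)) (a (b (l 17050616) (l 17097128)) (b (l 16984128) (l 17038024)))))), by decide +kernel⟩

def k4_pm_102_a : ∃ t, chk3 f_pm_102_a t 14 6 1 = true :=
  ⟨(a (b (a (l 16803568) (b (l 16836048) (l 16807424))) (l 16830568)) (b (a (b (a (c (b (a (l 16882328) (l 124185121399)) (l 16866024)) (b (a (l 16815432) (l 110226412279)) (l 16801736))) (c (c (b (l 140828223095) (l 140828181767)) (b (l 142975620919) (a (l 16852336) (l 142975585223)))) (b (a (b (l 140828019031) (l 124721899335)) (b (l 3) (l 139217381015))) (a (l 16794808) (b (a (l 123648114279) (l 142438589079)) (l 16785048)))))) (a (l 16811704) (b (l 16816520) (l 16801616)))) (b (a (b (l 3) (a (b (c (l 141365006455) (l 138143609623)) (c (l 142975557127) (a (l 127406202647) (l 139754203383)))) (l 3)))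 (l 3)) (a (b (a (c (c (l 126869505863) (l 125795676743)) (c (l 123111255063) (l 116668743863))) (a (b (c (l 141901836551) (b (l 138143580503) (l 128479904343))) (c (l 125795630215) (l 16774992))) (b (l 3) (c (l 140291180567) (b (l 141364804919) (l 124721807095)))))) (c (l 16834264) (l 16771408))) (b (a (b (l 3) (a (c (l 139217436359) (l 138680449111)) (l 3))) (l 3)) (a (b (a (c (b (l 141364924903) (l 16833848)) (b (l 127406160359) (l 16768576))) (c (l 140828002951) (b (l 137069835319) (l 130090513719)))) (a (l 16777528) (c (b (l 127943092727) (l 16821176)) (l 117742480183)))) (b (l 3) (c (c (l 140828091911) (l 140827979751)) (c (l 132774870519) (l 131164250631))))))))) (a (l 16824112) (b (a (l 16776376) (b (a (l 16773080) (b (c (c (l 140828067799) (l 127943057975)) (c (l 126332420471) (l 120963704743))) (c (l 16798056) (l 16768480)))) (l 16773568))) (l 16777896))))), by decide +kernel⟩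

def k5_pm_102_a : ∃ t, chk3 f_pm_102_a t 30 12 1 = true :=
  ⟨(l 3), by decide +kernel⟩

def k6_pm_102_a : ∃ t, chk3 f_pm_102_a t 60 26 1 = true :=
  ⟨(a (b (a (b (c (c (l 139217445367) (l 138680455623)) (c (l 135459223031) (l 134385474375))) (a (c (c (l 129553747095) (l 126869296391)) (c (l 120426838935) (l 120426832695))) (b (c (l 138143620119) (a (l 133848606807) (l 3))) (c (a (l 119890011479) (l 140291089383)) (c (l 129553642935) (l 127943023943)))))) (b (l 3) (l 3))) (a (a (l 16771176) (b (b (c (l 16777744) (l 16763944)) (l 16764760)) (l 16770624))) (b (a (b (c (c (l 140291131015) (l 133311744679)) (c (l 132237996503) (l 131164248583))) (c (a (l 16772320) (l 129553659159)) (c (l 121500578871) (l 121500573063)))) (a (b (l 3) (c (l 138680456135) (c (l 133311737671) (l 132237989927)))) (l 3))) (a (c (l 16772472) (l 16766888)) (b (c (c (l 131701160087) (l 130090518359)) (c (l 124721803335) (l 124721797671))) (c (l 16771688) (l 16766096))))))) (b (l 3) (a (b (l 3) (a (a (b (c (l 138143584151)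 (c (l 136532962327) (l 136532956583))) (c (b (l 132238001415) (l 120963711607)) (c (l 124721802711) (l 124721797223)))) (b (l 3) (c (c (l 137606715687) (l 135459226039)) (c (l 134385478439) (l 133848601991))))) (l 3))) (l 3)))), by decide +kernel⟩

def k7_pm_102_a : ∃ t, chk3 f_pm_102_a t 60 27 1 = true :=
  ⟨(a (b (c (l 16773784) (l 16769256)) (l 16773496)) (b (a (b (a (b (c (c (l 120963744455) (l 122037450791)) (c (l 121500574103) (l 122037443383))) (c (l 16771360) (l 16766224))) (a (b (c (c (l 134385489591) (l 133311741991)) (c (l 132237994615) (l 131164247463))) (c (c (l 16772032) (l 16769296)) (c (l 16766664) (l 16764144)))) (b (l 3) (c (c (l 132238005383) (l 126332419799)) (c (l 126869285383) (l 126869280279)))))) (c (l 16771400) (a (l 16767184) (l 16766088)))) (b (a (a (b (l 3) (c (c (l 137606713991) (l 137069837479)) (c (l 136532961191) (l 135459214199)))) (l 3)) (l 3)) (a (b (c (c (l 133311746471) (l 132237999303)) (c (l 131164252343) (a (l 124721796823) (l 133311730631)))) (c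 (c (l 16771432) (l 122574320215)) (c (l 122037444471) (l 121500568903)))) (b (l 3) (c (c (l 135459229063) (l 134385482087)) (c (a (l 129016768215) (l 137606702279)) (a (l 129016763479) (l 137069826583)))))))) (a (l 16770560) (b (a (c (l 16770728) (l 16766336)) (b (c (c (l 125258681911) (l 125795547959)) (a (l 16765160) (c (l 126869284583) (l 126869277431)))) (c (l 16769976) (l 16765584)))) (l 16769112))))), by decide +kernel⟩

def k8_pm_102_a : ∃ t, chk3 f_pm_102_a t 61 13 1 = true :=
  ⟨(b (l 3) (a (b (l 3) (a (b (a (a (b (c (c (l 137069840999) (l 135996094215)) (c (l 135459218535) (l 134922343031))) (c (c (l 125258681127) (l 125258676439)) (c (l 125258671943) (l 124721796711)))) (b (l 3) (c (c (l 134922356887) (l 133848610327)) (b (c (l 137069831063) (l 135996084791)) (c (l 131164251303) (l 130090505175)))))) (l 3)) (a (b (c (c (l 16770544) (l 123111190151)) (c (l 122574314823) (l 122037439831))) (l 16762616)) (b (c (c (a (l 129016776471) (l 138143581527)) (a (l 129016771959) (l 137606706039)))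 (c (a (b (l 133848605575) (l 126332413223)) (l 137069830743)) (a (b (l 132774859511) (l 125795538199)) (l 137069826535)))) (c (a (l 16769144) (c (l 127406163431) (l 127406156519))) (a (l 16765080) (b (c (l 130627380183) (l 129016763415)) (c (l 16765696) (l 16763752)))))))) (b (l 3) (a (a (b (l 3) (c (c (l 135996097463) (a (l 131701125895) (l 138143576631))) (b (c (l 138680443351) (l 138143568375)) (c (l 133311734471) (l 132774858295))))) (l 3)) (l 3))))) (l 3))), by decide +kernel⟩

def k9_pm_102_a : ∃ t, chk3 f_pm_102_a t 31 6 1 = true :=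
  ⟨(l 3), by decide +kernel⟩

def k10_pm_102_a : ∃ t, chk3 f_pm_102_a t 14 14 1 = true :=
  ⟨(a (b (l 16829712) (l 16867376)) (b (l 16806272) (l 16814592))), by decide +kernel⟩

def k11_pm_102_a : ∃ t, chk3 f_pm_102_a t 60 14 1 = true :=
  ⟨(b (a (l 16777040) (b (l 16771952) (l 16774688))) (l 16781456)), by decide +kernel⟩

def k12_pm_102_a : ∃ t, chk3 f_pm_102_a t 122 28 1 = true :=
  ⟨(b (a (b (c (l 16770104) (l 16766496)) (l 16769560)) (b (a (b (c (c (c (l 129016776727) (l 132238000103)) (a (l 125795546423) (b (l 136532963751) (l 131164254871)))) (a (b (c (l 126332413079) (l 125795538343)) (l 16764912)) (b (c (l 135996088807) (l 135459214023)) (c (a (l 125258668823) (l 131164250743)) (a (l 124721794999) (l 131164246967)))))) (c (c (l 16769856) (l 16767944)) (c (l 16766104) (l 16764344)))) (a (b (c (c (l 139217322247) (l 139217318087)) (c (l 138680443159) (l 138143568391))) (b (c (c (l 134385483991) (a (l 129016770999) (l 137069834407))) (c (a (l 129016767191) (l 135996088743)) (a (l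 129553634439) (l 135996085063)))) (c (c (l 126332418263) (l 126332414423)) (c (l 125795539815) (l 126332408647))))) (b (l 3) (b (l 3) (c (c (l 137069838199) (a (l 134922350711) (l 3))) (a (c (l 134385476071) (l 133311730663)) (l 3))))))) (a (l 16765384) (b (c (a (l 16768672) (b (c (a (l 125795547239) (l 130627387191)) (c (l 131164255479) (l 130627382727))) (c (l 16769224) (l 16767408)))) (a (l 16765176) (b (c (c (l 130627380919) (l 130090508231)) (a (l 124721796471) (l 131701118119))) (l 16764160)))) (c (l 16768968) (l 16765704)))))) (c (l 16771928) (l 16774752))), by decide +kernel⟩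

def k13_pm_102_a : ∃ t, chk3 f_pm_102_a t 123 56 1 = true :=
  ⟨(a (b (l 3) (a (b (a (b (c (c (l 138680450647) (l 138680446823)) (c (l 138143572247) (l 137606697815))) (c (c (c (l 134385484343) (l 133848611559)) (c (l 133848609719) (l 133311736999))) (c (a (l 129016765863) (l 135459216503)) (a (l 129016763783) (l 135459214391))))) (l 3)) (c (a (a (l 16768344) (b (c (l 127406159639) (l 127406156071)) (l 16768240))) (b (c (c (l 136532967639) (l 136532965815)) (c (l 135996093095) (l 135996091335))) (c (c (l 129553645959) (l 129553644183)) (c (l 129553642455) (l 129553640743))))) (a (b (c (a (l 16765632) (l 126869282471)) (l 126332410151)) (l 16765080)) (b (c (c (l 135459218695) (l 135459216983)) (a (l 133311732263) (l 139217310759))) (c (c (l 129553639079) (l 129553637447)) (c (l 129553635831) (l 129016763351))))))) (a (a (b (l 3) (b (l 3) (b (l 3) (c (c (c (l 137069838279) (l 137069836503)) (l 137069833911)) (c (l 136532959655) (l 135996085527)))))) (l 3)) (l 3)))) (l 3)), by decide +kernel⟩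

def k14_pm_102_a : ∃ t, chk3 f_pm_102_a t 246 57 1 = true :=
  ⟨(b (a (b (a (l 16767216) (c (c (l 16769120) (l 16767480)) (l 16765144))) (l 16767680)) (b (c (a (a (b (c (c (l 129553645671) (l 129553643959)) (c (l 129553642263) (l 129016769703))) (l 16768064)) (b (c (c (l 136532967255) (l 135996094615)) (c (l 135996092903) (l 135459220327))) (b (c (c (l 127943031735) (l 127943029959)) (l 127943027175)) (l 16767888)))) (b (l 3) (a (b (c (c (l 137069838007) (l 137069836311)) (c (l 137069834647) (l 136532962103))) (c (c (l 130627387159) (l 130627385495)) (c (l 130627383847) (l 130627382247)))) (b (l 3) (c (c (l 139217321543) (l 139217319863)) (l 138680446487)))))) (a (b (c (c (a (l 129016768071) (l 135459218695)) (l 132237991815)) (c (l 132237990247) (l 131701117799))) (c (a (l 16765696) (l 127406154823)) (l 126869281895))) (b (l 3) (c (c (l 135459218727) (l 134922346247)) (c (l 134922344711) (l 134385472295)))))) (c (a (l 16768400) (b (c (c (l 129553645479) (l 129553643847)) (c (l 130627384087)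 (l 130627382519))) (l 16768056))) (a (l 16765448) (b (c (c (l 130090510071) (l 129553637655)) (c (l 129553636183) (l 129016763831))) (l 16765120)))))) (c (l 16769680) (l 16767144))), by decide +kernel⟩

def k15_pm_102_a : ∃ t, chk3 f_pm_102_a t 247 114 1 = true :=
  ⟨(a (b (l 3) (c (a (a (b (c (c (l 137606708711) (l 137606707063)) (c (l 137069834551) (l 137069832967))) (c (c (l 130090516183) (l 130627385511)) (c (l 130090513047) (l 130090511543)))) (b (l 3) (b (c (c (l 138680450423) (l 138680448807)) (c (l 138680447239) (l 138143574775))) (c (c (l 134385483191) (l 133848610711)) (c (l 133848609175) (l 133311736743)))))) (l 3)) (a (b (a (b (l 3) (c (l 135996090183) (l 135996085927))) (l 3)) (c (a (c (l 129553639143) (l 129553637671)) (c (l 134922347911) (l 134922346439))) (a (l 129016764631) (b (l 138143569591) (l 132774860759))))) (l 3)))) (l 3)), by decide +kernel⟩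

def k16_pm_102_a : ∃ t, chk3 f_pm_102_a t 494 115 1 = true :=
  ⟨(b (c (a (a (l 16768200) (c (c (l 128479902503) (l 128479901191)) (c (l 127943029399) (l 127943028519)))) (a (b (b (c (c (l 136532966743) (l 135996094279)) (c (l 135996092759) (l 135996091271))) (c (c (l 131701128679) (l 131701127175)) (c (l 131164254775) (l 130627382407)))) (c (l 16768600) (l 16767168))) (b (c (c (l 139217321223) (l 138680448775)) (c (l 138680447255) (l 138680445783))) (b (c (c (l 133848612199) (l 133848610711)) (c (l 133311738327) (l 133311736903))) (c (c (l 129016773399) (l 129016772519)) (c (l 16767360) (l 16766656))))))) (a (b (c (a (l 16765872) (l 127943026983)) (l 126332411399)) (l 16765528)) (a (b (c (c (l 133311735415) (l 133311733991)) (b (l 135459215351) (l 130090507751))) (l 16765112)) (b (b (l 3) (c (l 138143572759) (l 138143569975))) (c (c (l 131701122951) (l 131164250663)) (b (l 132774861159) (l 126869282551))))))) (c (a (l 16768792) (l 16768296)) (l 16765984))), by decide +kernel⟩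

def k17_pm_102_a : ∃ t, chk3 f_pm_102_a t 495 115 1 = true :=
  ⟨(b (a (a (b (l 3) (b (l 3) (c (c (c (l 135996095751) (l 135996094279)) (c (l 135996092839) (l 135459220503))) (c (c (l 135459219111) (l 135459217751)) (l 135459215751))))) (l 3)) (l 3)) (c (a (a (b (c (c (l 130627386455) (l 130627385575)) (c (l 130627384551) (l 130090512183))) (l 16768096)) (b (b (c (c (l 138143579319) (l 138143577879)) (c (l 138143576455) (l 138143575063))) (c (c (l 133848612135) (l 133311739815)) (c (l 133311738423) (l 133311737063)))) (b (c (c (l 16768784) (l 16768096)) (l 128479900679)) (l 16767936)))) (b (l 3) (a (b (c (c (l 135996095687) (l 135996094311)) (c (l 135459222023) (l 135459220679))) (c (c (l 131701128823) (l 131164256807)) (c (l 131164255479) (l 130627383255)))) (c (c (l 138680450183) (l 138680448807)) (c (l 138680447447) (l 138680446103)))))) (a (b (c (a (b (l 130627381687) (l 16765816)) (c (l 134922348359) (l 134922347031))) (a (l 128479895351) (l 134922346407))) (c (l 127406156423) (l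 16764792))) (b (l 3) (c (c (a (l 133311735895) (l 138680444791)) (l 135459218183)) (a (l 132774863143) (l 138680441607))))))), by decide +kernel⟩

def k18_pm_102_a : ∃ t, chk3 f_pm_102_a t 61 29 1 = true :=
  ⟨(a (l 16796848) (b (a (l 16771008) (b (a (l 16768552) (b (c (a (l 16768536) (b (c (a (l 16768608) (c (l 132237999527) (l 132237998199))) (a (l 16767328) (c (l 132237996903) (l 131701124727)))) (l 16768216))) (a (l 16766152) (a (l 16765736) (b (c (b (l 132237993543) (l 16765936)) (l 131164249527)) (l 16765712))))) (l 16766640))) (l 16769848))) (l 16773760))), by decide +kernel⟩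

def k19_pm_102_a : ∃ t, chk3 f_pm_102_a t 62 28 1 = true :=
  ⟨(l 3), by decide +kernel⟩

def k20_pm_102_a : ∃ t, chk3 f_pm_102_a t 248 116 1 = true :=
  ⟨(a (b (c (a (a (b (b (c (c (l 140291062903) (l 140291061543)) (l 140291059575)) (c (c (l 135996095671) (l 135996094359)) (c (l 135459222151) (l 135459220887)))) (c (c (l 130627387239) (l 130627385943)) (c (l 130090513751) (l 130090512439)))) (b (l 3) (b (c (c (l 138143579255) (l 138143577975)) (c (l 137606705783) (l 137606704535))) (c (c (l 133311741191) (l 133311739943)) (c (l 133311738695) (l 132774866567)))))) (a (c (c (l 140291062887) (l 140291061559)) (c (l 140291060263) (l 140291058983))) (l 3))) (a (b (a (c (b (l 140827927927) (l 135459219031)) (l 137069829239)) (l 3)) (c (a (l 129553640391) (b (l 138143573623) (l 132774864791))) (a (l 128479896087) (l 134922345975)))) (b (l 3) (c (l 140827928135) (l 140827925767))))) (c (a (b (c (a (l 16768816) (l 16768568)) (l 16767504)) (l 16768488)) (a (b (b (c (c (l 135996095671) (l 135996094439))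 (c (l 135459222311) (l 135459221111))) (c (c (l 131164258023) (l 131164256807)) (c (l 130627384759) (l 130627383543)))) (l 16768104)) (b (c (c (l 138680450167) (l 138680448935)) (c (l 138680447719) (l 138680446535))) (c (c (l 132237999559) (l 132237998391)) (c (l 131701126327) (l 131701125191)))))) (c (a (l 16766600) (b (c (l 135459220039) (l 135459218903)) (a (l 16766432) (l 131701124855)))) (a (l 16765528) (b (a (l 133311733671) (l 138680442519)) (l 129016767095)))))) (a (a (b (l 3) (b (l 3) (c (b (c (c (l 140291062903) (l 139754190791)) (l 140291059943)) (c (c (l 135996095703) (l 135459223623)) (c (l 135459222487) (l 135459221351)))) (c (b (l 140291057671) (l 134922348791)) (l 137069830167))))) (l 3)) (l 3))), by decide +kernel⟩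

def k21_pm_102_a : ∃ t, chk3 f_pm_102_a t 248 117 1 = true :=
  ⟨(a (c (b (l 16768832) (l 16769640)) (l 16767328)) (b (c (a (b (a (b (c (c (l 131164258055) (l 131164256935)) (l 130627384839)) (l 16768088)) (b (c (c (l 137606708391) (l 137606707239)) (c (l 137606706119) (l 137606705015))) (c (c (l 133311741271) (l 133311740151)) (c (l 133311739063) (l 132774867079))))) (c (l 16768784) (l 16767744))) (a (b (b (l 3) (c (c (l 139754192023) (l 139754190903)) (l 140291060151))) (b (c (c (l 135996095751) (l 135459223751)) (c (l 135459222679) (l 135459221607))) (c (c (l 131164258039) (l 130627386071)) (l 130627385079)))) (b (l 3) (c (c (l 138680450247) (l 138680449159)) (c (l 138680448087) (l 138680447031)))))) (a (b (c (c (l 132774866119) (l 132237994151)) (a (l 128479896903) (l 134922346935))) (c (l 16766728) (l 16765752))) (b (c (l 140827928823) (l 140827926695)) (c (c (l 135996091607) (l 135996090583)) (a (l 132237992823) (l 138680443479)))))) (c (a (l 16768872) (a (l 16768488) (b (c (c (l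 132237999687) (l 132237998663)) (c (l 131701126743) (l 131701125751))) (l 16768440)))) (a (l 16767024) (b (c (a (l 16766816) (l 130627382455)) (l 129553639431)) (l 16766728)))))), by decide +kernel⟩

def k22_pm_102_a : ∃ t, chk3 f_pm_102_a t 249 58 1 = true :=
  ⟨(b (l 3) (a (b (l 3) (c (a (a (b (b (c (c (l 139754192087) (l 139754191031)) (l 140291060391)) (c (c (l 135996095831) (l 135459223895)) (c (l 135459222887) (l 135459221895)))) (b (c (c (l 131164258135) (l 130627386151)) (l 130090514263)) (l 16768280))) (b (l 3) (b (c (c (l 137606708519) (l 137606707527)) (c (l 137606706535) (l 137606705559))) (c (c (l 133311741431) (l 133311740471)) (c (l 132774868599) (l 132774867655)))))) (a (b (l 3) (b (l 3) (c (c (l 139754192167) (l 139754191175)) (l 140291060647)))) (l 3))) (a (b (c (a (l 137069833063) (l 3)) (l 138680443815)) (c (a (l 129016770631) (l 135459220679)) (l 132237993623))) (b (l 3) (c (l 140827929559) (l 141364798599)))))) (l 3))), by decide +kernel⟩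

def k23_pm_102_a : ∃ t, chk3 f_pm_102_a t 124 59 1 = true :=
  ⟨(a (a (l 16771136) (c (l 16775992) (l 16774656))) (b (a (b (c (c (c (a (l 16769352) (b (a (b (l 135459225015) (l 131164258135)) (l 138680450423)) (a (l 16769160) (l 132237999927)))) (a (l 16768904) (b (a (l 133848611511) (l 138680449479)) (l 131164257463)))) (c (a (l 16768456) (b (a (l 133848610583) (l 138680448535)) (l 131164256503))) (a (l 16768024) (b (l 135996093223) (l 130627384695))))) (a (b (l 16766696) (l 16767232)) (b (c (a (l 132774866503) (l 138680446247)) (l 135459219207)) (c (l 130090512951) (l 129553640311))))) (c (l 16769288) (l 16767760))) (b (a (b (l 3) (c (a (c (c (a (l 135996096023) (l 139217321399)) (l 137606707831)) (b (l 140291060919) (l 135459222951))) (l 3)) (c (a (l 137606704775) (l 3)) (l 138680444855)))) (l 3)) (c (a (b (c (c (a (l 130627387399) (b (l 138143579671) (l 133311741959))) (a (l 16768624) (l 135996095319))) (a (l 130090514759) (b (l 137606706615) (l 132774869367)))) (c (l 16769120) (l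 16768328))) (a (b (c (c (l 140827934215) (l 140827933351)) (l 140827932071)) (c (c (l 134385483655) (l 133848611927)) (b (l 134922352343) (l 16768048)))) (b (l 3) (b (l 3) (c (c (l 138143579831) (l 138143579031)) (l 138143577831)))))) (a (b (c (a (l 16767184) (l 135459221495)) (l 132237994679)) (l 16767192)) (b (c (l 141364801287) (l 141364799655)) (c (a (l 133848609175) (l 139217318007)) (l 135459220279))))))) (a (l 16770008) (b (a (l 16768696) (b (c (a (l 16768768) (c (c (l 132238000343) (l 132237999495)) (l 131701127943))) (c (l 130627384599) (l 129553641255))) (c (l 16769096) (l 16767728)))) (l 16769440))))), by decide +kernel⟩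

def k24_pm_102_a : ∃ t, chk3 f_pm_102_a t 125 29 1 = true :=
  ⟨(b (l 3) (a (b (l 3) (a (b (a (b (c (c (a (c (l 137606709063) (l 137606708279)) (b (l 3) (l 142438546807))) (c (l 139217320215) (l 139217319447))) (c (l 139217318327) (l 139217316855))) (c (c (a (b (l 16768944) (l 16769160)) (c (l 135996096535) (l 135996095799))) (c (l 133848611671) (l 133311740055))) (c (l 133311738999) (l 132774866727)))) (b (l 3) (b (l 3) (c (c (c (l 141364805527) (l 141364804791)) (l 141364803703)) (c (l 141364802279) (l 141364800887)))))) (a (c (b (l 16769024) (l 16769488)) (l 16768000)) (b (c (a (c (c (l 133848613143) (l 133848612455)) (l 133311740519)) (l 6)) (c (l 137069836775) (l 135459221415))) (l 6)))) (b (l 3) (l 6)))) (l 3))), by decide +kernel⟩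

def k25_pm_102_a : ∃ t, chk3 f_pm_102_a t 63 14 1 = true :=
  ⟨(l 3), by decide +kernel⟩

def k26_pm_102_a : ∃ t, chk3 f_pm_102_a t 7 15 1 = true :=
  ⟨(a (b (a (l 16898384) (a (l 16871800) (l 16840808))) (a (l 17063032) (b (l 16898032) (l 16994320)))) (a (b (a (b (l 16802616) (l 16822504)) (b (l 16780224) (l 16796504))) (a (l 16941304) (a (l 16896872) (l 6)))) (b (a (a (b (c (l 16781880) (l 16781248)) (l 6)) (l 6)) (l 6)) (l 6)))), by decide +kernel⟩

theorem s27_pm_102_a : ∃ t, chk3 f_pm_102_a t 248 58 1 = true := ex3_b k20_pm_102_a k21_pm_102_a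

theorem s28_pm_102_a : ∃ t, chk3 f_pm_102_a t 124 58 1 = true := ex3_a s27_pm_102_a k22_pm_102_a

theorem s29_pm_102_a : ∃ t, chk3 f_pm_102_a t 124 29 1 = true := ex3_b s28_pm_102_a k23_pm_102_a

theorem s30_pm_102_a : ∃ t, chk3 f_pm_102_a t 62 29 1 = true := ex3_a s29_pm_102_a k24_pm_102_a

theorem s31_pm_102_a : ∃ t, chk3 f_pm_102_a t 62 14 1 = true := ex3_b k19_pm_102_a s30_pm_102_a

theorem s32_pm_102_a : ∃ t, chk3 f_pm_102_a t 31 14 1 = true := ex3_a s31_pm_102_a k25_pm_102_a

theorem s33_pm_102_a : ∃ t, chk3 f_pm_102_a t 247 115 1 = true := ex3_a k16_pm_102_a k17_pm_102_a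

theorem s34_pm_102_a : ∃ t, chk3 f_pm_102_a t 247 57 1 = true := ex3_b k15_pm_102_a s33_pm_102_a

theorem s35_pm_102_a : ∃ t, chk3 f_pm_102_a t 123 57 1 = true := ex3_a k14_pm_102_a s34_pm_102_a

theorem s36_pm_102_a : ∃ t, chk3 f_pm_102_a t 123 28 1 = true := ex3_b k13_pm_102_a s35_pm_102_a

theorem s37_pm_102_a : ∃ t, chk3 f_pm_102_a t 61 28 1 = true := ex3_a k12_pm_102_a s36_pm_102_a

theorem s38_pm_102_a : ∃ t, chk3 f_pm_102_a t 61 14 1 = true := ex3_b s37_pm_102_a k18_pm_102_a

theorem s39_pm_102_a : ∃ t, chk3 f_pm_102_a t 30 14 1 = true := ex3_a k11_pm_102_a s38_pm_102_a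

theorem s40_pm_102_a : ∃ t, chk3 f_pm_102_a t 15 14 1 = true := ex3_a s39_pm_102_a s32_pm_102_a

theorem s41_pm_102_a : ∃ t, chk3 f_pm_102_a t 7 14 1 = true := ex3_a k10_pm_102_a s40_pm_102_a

theorem s42_pm_102_a : ∃ t, chk3 f_pm_102_a t 7 7 1 = true := ex3_b s41_pm_102_a k26_pm_102_a

theorem s43_pm_102_a : ∃ t, chk3 f_pm_102_a t 60 13 1 = true := ex3_b k6_pm_102_a k7_pm_102_a

theorem s44_pm_102_a : ∃ t, chk3 f_pm_102_a t 30 13 1 = true := ex3_a s43_pm_102_a k8_pm_102_a

theorem s45_pm_102_a : ∃ t, chk3 f_pm_102_a t 30 6 1 = true := ex3_b k5_pm_102_a s44_pm_102_a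

theorem s46_pm_102_a : ∃ t, chk3 f_pm_102_a t 15 6 1 = true := ex3_a s45_pm_102_a k9_pm_102_a

theorem s47_pm_102_a : ∃ t, chk3 f_pm_102_a t 7 6 1 = true := ex3_a k4_pm_102_a s46_pm_102_a

theorem s48_pm_102_a : ∃ t, chk3 f_pm_102_a t 7 3 1 = true := ex3_b s47_pm_102_a s42_pm_102_a

theorem s49_pm_102_a : ∃ t, chk3 f_pm_102_a t 3 3 1 = true := ex3_a k3_pm_102_a s48_pm_102_a

theorem s50_pm_102_a : ∃ t, chk3 f_pm_102_a t 3 2 1 = true := ex3_a k1_pm_102_a k2_pm_102_a

theorem s51_pm_102_a : ∃ t, chk3 f_pm_102_a t 3 1 1 = true := ex3_b s50_pm_102_a s49_pm_102_a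

theorem s52_pm_102_a : ∃ t, chk3 f_pm_102_a t 1 1 1 = true := ex3_a k0_pm_102_a s51_pm_102_a

theorem c_pm_102_a : CertF 536870912 536870912 0 536870912 134217728 67108864 false true false .npp 1 0 2
    ndF0q1 ndF1q2a pcF0 cut_pm_102_a Ext.none :=
  certF0 (fam := false) (s1 := true) (s2 := false) (a := 1) (b := 0) (c := 2) (cn := .npp) (n1 := ndF0q1) (n2 := ndF1q2a) (pc := pcF0) (cut := cut_pm_102_a) (xt := Ext.none) (P1 := 536870912) (W1 := 536870912) (P2 := 0) (W2 := 536870912) (P3 := 134217728) (W3 := 67108864)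
    rfl s52_pm_102_a

noncomputable def cut_pm_102_b : Cut := Cut.of [[⟨0, 1, 0, 67108864⟩, ⟨1, 0, 0, 67108864⟩, ⟨2, 1, 0, 67108864⟩]]

noncomputable def f_pm_102_b : ℕ → ℕ → ℕ → ℕ → Bool := onCell 536870912 536870912 1239849684 370763052 134217728 67108864
    (rowF 0 false true false .npp 1 0 2 (qsf 536870912 536870912 1239849684 370763052 0) ndF0q1 ndF1q2b pcF0 cut_pm_102_b Ext.none)

def k0_pm_102_b : ∃ t, chk3 f_pm_102_b t 1 1 1 = true :=
  ⟨(a (b (a (l 2) (b (a (b (l 17053848) (l 2)) (a (l 16942336) (l 16981304))) (a (l 2) (l 17051128)))) (l 2)) (b (a (a (b (a (b (l 16851672) (l 16909120)) (b (a (l 16879336) (b (a (l 16880328) (b (l 16883928) (l 16908160))) (l 16934832))) (a (l 16961824) (l 16996656)))) (b (l 17154008) (l 17051224))) (b (a (c (b (a (b (a (l 144049470151) (l 3)) (l 147807682215)) (l 3)) (a (l 156397745335) (l 271825062087))) (a (b (b (b (l 141901922567) (l 145123195527)) (l 149955103335)) (a (l 17007240) (l 156934566807))) (b (l 3) (l 248202660007)))) (l 3)) (a (b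 (a (l 17097096) (b (l 154787271431) (l 161229768743))) (a (l 17142392) (l 17177408))) (b (l 3) (l 289542089991))))) (l 3)) (a (a (l 2) (b (a (b (l 17186920) (l 2)) (b (l 167135575975) (l 151566679479))) (l 2))) (a (b (l 3) (a (l 2) (l 3))) (l 3))))), by decide +kernel⟩

theorem c_pm_102_b : CertF 536870912 536870912 1239849684 370763052 134217728 67108864 false true false .npp 1 0 2
    ndF0q1 ndF1q2b pcF0 cut_pm_102_b Ext.none :=
  certF0 (fam := false) (s1 := true) (s2 := false) (a := 1) (b := 0) (c := 2) (cn := .npp) (n1 := ndF0q1) (n2 := ndF1q2b) (pc := pcF0) (cut := cut_pm_102_b) (xt := Ext.none) (P1 := 536870912) (W1 := 536870912) (P2 := 1239849684) (W2 := 370763052) (P3 := 134217728) (W3 := 67108864)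
    rfl k0_pm_102_b

noncomputable def f_pm_112_a : ℕ → ℕ → ℕ → ℕ → Bool := onCell 536870912 536870912 0 536870912 134217728 67108864
    (rowF 2 false true false .dn 1 1 2 (qsf 536870912 536870912 0 536870912 1) ndF0q1 ndF1q2a pcF1 Cut.none Ext.none)

def k0_pm_112_a : ∃ t, chk3 f_pm_112_a t 1 1 1 = true :=
  ⟨(a (a (b (a (b (b (l 17337880) (a (l 17412952) (l 17424736))) (b (l 17482448) (l 17543544))) (b (b (l 17374480) (l 17437264)) (l 17528944))) (b (a (l 17678248) (l 17682280)) (b (a (l 17662784) (l 91303857479)) (a (c (l 17751720) (b (l 17619992) (l 17625904))) (l 1))))) (b (a (b (a (l 17429480) (l 17453776)) (l 17559800)) (l 1)) (b (l 1) (l 1)))) (l 1)), by decide +kernel⟩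

theorem c_pm_112_a : CertF 536870912 536870912 0 536870912 134217728 67108864 false true false .dn 1 1 2
    ndF0q1 ndF1q2a pcF1 Cut.none Ext.none :=
  certF2 (fam := false) (s1 := true) (s2 := false) (a := 1) (b := 1) (c := 2) (cn := .dn) (n1 := ndF0q1) (n2 := ndF1q2a) (pc := pcF1) (cut := Cut.none) (xt := Ext.none) (P1 := 536870912) (W1 := 536870912) (P2 := 0) (W2 := 536870912) (P3 := 134217728) (W3 := 67108864)
    rfl (fun _ => rfl) k0_pm_112_a

noncomputable def f_pm_112_b : ℕ → ℕ → ℕ → ℕ → Bool := onCell 536870912 536870912 536870912 536870912 134217728 67108864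
    (rowF 1 false true false .dn 1 1 2 (qsf 536870912 536870912 1239849684 370763052 1) ndF0q1 ndF1q2b pcF1 Cut.none Ext.none)

def k0_pm_112_b : ∃ t, chk3 f_pm_112_b t 1 1 1 = true :=
  ⟨(b (a (b (a (a (b (l 1) (l 176665176055)) (b (l 178275731047) (l 17350152))) (b (a (l 134252478391) (l 17252456)) (a (l 17341424) (l 17304424)))) (a (a (b (l 146600641911) (l 17478280)) (l 17443224)) (a (l 17419888) (l 17368216)))) (b (a (a (b (l 17204656) (l 17248264)) (b (a (l 17211720) (l 112375224119)) (l 17397352))) (a (b (l 3) (a (l 240687331335) (l 3))) (l 3))) (a (a (l 17292784) (b (l 17196960) (l 17201344))) (a (b (l 418860936711) (l 2)) (l 2))))) (a (b (a (a (l 17624704) (l 17573984)) (a (l 17510832) (l 17425048))) (a (a (l 17880344) (l 17724384)) (l 17763456))) (a (b (l 215387365015) (l 2)) (l 2)))), by decide +kernel⟩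

theorem c_pm_112_b : CertF 536870912 536870912 1239849684 370763052 134217728 67108864 false true false .dn 1 1 2
    ndF0q1 ndF1q2b pcF1 Cut.none Ext.none :=
  certF1 (fam := false) (s1 := true) (s2 := false) (a := 1) (b := 1) (c := 2) (cn := .dn) (n1 := ndF0q1) (n2 := ndF1q2b) (pc := pcF1) (cut := Cut.none) (xt := Ext.none) (P1 := 536870912) (W1 := 536870912) (P2 := 1239849684) (W2 := 370763052) (P3 := 134217728) (W3 := 67108864)
    rfl (fun _ => rfl) k0_pm_112_b

noncomputable def cut_pm_113 : Cut := Cut.of [[⟨0, 1, 0, 39843005⟩, ⟨1, 1, 0, 39843005⟩, ⟨2, 2, 0, 5814905⟩]]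

noncomputable def f_pm_113 : ℕ → ℕ → ℕ → ℕ → Bool := onCell 536870912 536870912 536870912 536870912 134217728 67108864
    (rowF 1 false true false .nn 1 1 3 (qsf 536870912 536870912 1610612736 536870912 1) ndF0q1 ndF1q3 pcF1 cut_pm_113 Ext.none)

def k0_pm_113 : ∃ t, chk3 f_pm_113 t 1 1 1 = true :=
  ⟨(b (a (b (l 1) (a (l 1) (l 208877799447))) (b (a (a (l 1) (b (l 1) (l 160022702727))) (a (b (l 3) (l 284710638983)) (l 3))) (a (a (l 17222360) (b (l 17291808) (l 17228152))) (a (b (l 178410141911) (l 196126730055)) (l 3))))) (a (b (a (l 200825139319) (l 17354936)) (a (a (l 17773320) (l 17625848)) (l 17434832))) (a (b (a (l 17232080) (l 17153856)) (l 17274832)) (b (a (b (l 17173224) (l 17047856)) (b (l 290078818535) (l 276119930311))) (a (l 17135496) (a (l 17160296) (a (b (l 16957880) (l 16866240)) (b (l 3) (a (l 16908768) (a (b (l 3) (l 16822768)) (b (l 3) (a (b (l 3) (l 16810704)) (c (b (l 3) (a (l 16807992) (b (l 3) (b (l 3) (l 6))))) (b (l 3) (b (l 3) (b (l 379735530759) (a (l 16781576)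 (l 6)))))))))))))))))), by decide +kernel⟩

theorem c_pm_113 : CertF 536870912 536870912 1610612736 536870912 134217728 67108864 false true false .nn 1 1 3
    ndF0q1 ndF1q3 pcF1 cut_pm_113 Ext.none :=
  certF1 (fam := false) (s1 := true) (s2 := false) (a := 1) (b := 1) (c := 3) (cn := .nn) (n1 := ndF0q1) (n2 := ndF1q3) (pc := pcF1) (cut := cut_pm_113) (xt := Ext.none) (P1 := 536870912) (W1 := 536870912) (P2 := 1610612736) (W2 := 536870912) (P3 := 134217728) (W3 := 67108864)
    rfl (fun _ => rfl) k0_pm_113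

noncomputable def cut_pm_123 : Cut := Cut.of [[⟨0, 1, 0, 39843005⟩, ⟨1, 1, 0, 39843005⟩, ⟨2, 2, 0, 5814905⟩]]

noncomputable def f_pm_123 : ℕ → ℕ → ℕ → ℕ → Bool := onCell 1073741824 536870912 1610612736 536870912 134217728 67108864
    (rowF 2 false true false .npn 1 2 3 (qsf 536870912 536870912 1610612736 536870912 2) ndF0q1 ndF1q3 pcF2 cut_pm_123 Ext.none)

def k0_pm_123 : ∃ t, chk3 f_pm_123 t 1 1 1 = true :=
  ⟨(a (b (a (b (a (l 18298816) (a (b (l 18312584) (l 18163424)) (l 18278352))) (a (l 17881208) (a (a (l 17907520) (l 17926928)) (l 17973440)))) (a (b (l 18446992) (a (l 18098320) (l 18031832))) (b (l 1) (l 18098872)))) (a (b (a (b (l 17532296) (l 17308992)) (a (a (l 17507176) (l 17701184)) (l 17759400))) (a (b (a (l 17054392) (l 17131160)) (a (b (l 16916336) (b (l 16851864) (b (l 16819912) (b (l 16856504) (l 6))))) (b (l 16975288) (l 16874840)))) (a (a (b (l 17188912) (l 16972672)) (b (l 17212856) (l 17059008))) (a (b (l 17233312) (l 17016040)) (l 17223304))))) (a (b (a (a (l 17597840)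 (l 17619872)) (l 17645544)) (a (a (l 17158912) (b (l 17300552) (l 17077856))) (l 17202232))) (b (l 17944880) (b (l 17385472) (l 17145224)))))) (b (a (b (l 1) (a (l 18192648) (l 1))) (l 1)) (a (b (a (l 17811288) (l 17906776)) (a (l 17376304) (l 17502456))) (b (a (l 17985592) (l 1)) (a (l 17600616) (l 17681544)))))), by decide +kernel⟩

theorem c_pm_123 : CertF 536870912 536870912 1610612736 536870912 134217728 67108864 false true false .npn 1 2 3
    ndF0q1 ndF1q3 pcF2 cut_pm_123 Ext.none :=
  certF2 (fam := false) (s1 := true) (s2 := false) (a := 1) (b := 2) (c := 3) (cn := .npn) (n1 := ndF0q1) (n2 := ndF1q3) (pc := pcF2) (cut := cut_pm_123) (xt := Ext.none) (P1 := 536870912) (W1 := 536870912) (P2 := 1610612736) (W2 := 536870912) (P3 := 134217728) (W3 := 67108864)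
    rfl (fun _ => rfl) k0_pm_123

noncomputable def f_pm_133 : ℕ → ℕ → ℕ → ℕ → Bool := onCell 536870912 536870912 1610612736 536870912 134217728 67108864
    (rowF 0 false true false .dn 1 3 3 (qsf 536870912 536870912 1610612736 536870912 3) ndF0q1 ndF1q3 pcF3 Cut.none Ext.none)

def k0_pm_133 : ∃ t, chk3 f_pm_133 t 1 1 1 = true :=
  ⟨(a (a (b (l 1) (a (b (l 1) (l 16990280)) (l 1))) (l 1)) (l 1)), by decide +kernel⟩

theorem c_pm_133 : CertF 536870912 536870912 1610612736 536870912 134217728 67108864 false true false .dn 1 3 3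
    ndF0q1 ndF1q3 pcF3 Cut.none Ext.none :=
  certF0 (fam := false) (s1 := true) (s2 := false) (a := 1) (b := 3) (c := 3) (cn := .dn) (n1 := ndF0q1) (n2 := ndF1q3) (pc := pcF3) (cut := Cut.none) (xt := Ext.none) (P1 := 536870912) (W1 := 536870912) (P2 := 1610612736) (W2 := 536870912) (P3 := 134217728) (W3 := 67108864)
    rfl k0_pm_133

noncomputable def cut_pm_202_a : Cut := Cut.of [[⟨0, 1, 0, 67108864⟩, ⟨1, 0, 0, 67108864⟩, ⟨2, 1, 0, 67108864⟩]]

noncomputable def f_pm_202_a : ℕ → ℕ → ℕ → ℕ → Bool := onCell 0 536870912 0 536870912 134217728 67108864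
    (rowF 0 false true false .pp 2 0 2 (qsf 0 536870912 0 536870912 0) ndF0q2 ndF1q2a pcF0 cut_pm_202_a Ext.none)

def k0_pm_202_a : ∃ t, chk3 f_pm_202_a t 1 1 1 = true :=
  ⟨(a (l 3) (b (l 3) (a (l 3) (b (l 3) (a (l 3) (b (l 3) (l 6))))))), by decide +kernel⟩

theorem c_pm_202_a : CertF 0 536870912 0 536870912 134217728 67108864 false true false .pp 2 0 2
    ndF0q2 ndF1q2a pcF0 cut_pm_202_a Ext.none :=
  certF0 (fam := false) (s1 := true) (s2 := false) (a := 2) (b := 0) (c := 2) (cn := .pp) (n1 := ndF0q2) (n2 := ndF1q2a) (pc := pcF0) (cut := cut_pm_202_a) (xt := Ext.none) (P1 := 0) (W1 := 536870912) (P2 := 0) (W2 := 536870912) (P3 := 134217728) (W3 := 67108864)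
    rfl k0_pm_202_a

noncomputable def cut_pm_202_b : Cut := Cut.of [[⟨0, 1, 0, 67108864⟩, ⟨1, 0, 0, 67108864⟩, ⟨2, 1, 0, 67108864⟩]]

noncomputable def f_pm_202_b : ℕ → ℕ → ℕ → ℕ → Bool := onCell 0 536870912 1239849684 370763052 134217728 67108864
    (rowF 0 false true false .pp 2 0 2 (qsf 0 536870912 1239849684 370763052 0) ndF0q2 ndF1q2b pcF0 cut_pm_202_b Ext.none)

def k0_pm_202_b : ∃ t, chk3 f_pm_202_b t 1 1 1 = true :=
  ⟨(l 3), by decide +kernel⟩

theorem c_pm_202_b : CertF 0 536870912 1239849684 370763052 134217728 67108864 false true false .pp 2 0 2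
    ndF0q2 ndF1q2b pcF0 cut_pm_202_b Ext.none :=
  certF0 (fam := false) (s1 := true) (s2 := false) (a := 2) (b := 0) (c := 2) (cn := .pp) (n1 := ndF0q2) (n2 := ndF1q2b) (pc := pcF0) (cut := cut_pm_202_b) (xt := Ext.none) (P1 := 0) (W1 := 536870912) (P2 := 1239849684) (W2 := 370763052) (P3 := 134217728) (W3 := 67108864)
    rfl k0_pm_202_b

noncomputable def f_pm_203 : ℕ → ℕ → ℕ → ℕ → Bool := onCell 0 536870912 0 536870912 134217728 67108864
    (rowF 1 false true false .up 2 0 3 (qsf 0 536870912 1610612736 536870912 0) ndF0q2 ndF1q3 pcF0 Cut.none Ext.none)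

def k0_pm_203 : ∃ t, chk3 f_pm_203 t 1 1 1 = true :=
  ⟨(l 3), by decide +kernel⟩

theorem c_pm_203 : CertF 0 536870912 1610612736 536870912 134217728 67108864 false true false .up 2 0 3
    ndF0q2 ndF1q3 pcF0 Cut.none Ext.none :=
  certF1 (fam := false) (s1 := true) (s2 := false) (a := 2) (b := 0) (c := 3) (cn := .up) (n1 := ndF0q2) (n2 := ndF1q3) (pc := pcF0) (cut := Cut.none) (xt := Ext.none) (P1 := 0) (W1 := 536870912) (P2 := 1610612736) (W2 := 536870912) (P3 := 134217728) (W3 := 67108864)
    rfl (fun _ => rfl) k0_pm_203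

noncomputable def cut_pm_213 : Cut := Cut.of [[⟨0, 1, 0, 39843005⟩, ⟨1, 1, 0, 39843005⟩, ⟨2, 2, 0, 5814905⟩]]

noncomputable def f_pm_213 : ℕ → ℕ → ℕ → ℕ → Bool := onCell 0 536870912 1610612736 536870912 134217728 67108864
    (rowF 0 false true false .pnn 2 1 3 (qsf 0 536870912 1610612736 536870912 1) ndF0q2 ndF1q3 pcF1 cut_pm_213 Ext.none)

def k0_pm_213 : ∃ t, chk3 f_pm_213 t 1 1 1 = true :=
  ⟨(b (l 3) (a (l 3) (b (l 3) (a (l 3) (a (l 3) (b (l 3) (a (l 3) (a (l 3) (a (l 3) (b (l 3) (a (l 3) (a (l 3) (b (l 3) (c (b (l 3) (b (l 3) (l 6))) (b (l 3) (b (l 3) (l 6))))))))))))))))), by decide +kernel⟩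

theorem c_pm_213 : CertF 0 536870912 1610612736 536870912 134217728 67108864 false true false .pnn 2 1 3
    ndF0q2 ndF1q3 pcF1 cut_pm_213 Ext.none :=
  certF0 (fam := false) (s1 := true) (s2 := false) (a := 2) (b := 1) (c := 3) (cn := .pnn) (n1 := ndF0q2) (n2 := ndF1q3) (pc := pcF1) (cut := cut_pm_213) (xt := Ext.none) (P1 := 0) (W1 := 536870912) (P2 := 1610612736) (W2 := 536870912) (P3 := 134217728) (W3 := 67108864)
    rfl k0_pm_213

noncomputable def f_mm_001 : ℕ → ℕ → ℕ → ℕ → Bool := onCell 0 536870912 536870912 536870912 134217728 67108864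
    (rowF 0 false false false .up 0 0 1 (qsf 0 536870912 536870912 536870912 0) ndF0q0 ndF1q1 pcF0 Cut.none Ext.none)

def k0_mm_001 : ∃ t, chk3 f_mm_001 t 1 1 1 = true :=
  ⟨(l 3), by decide +kernel⟩

theorem c_mm_001 : CertF 0 536870912 536870912 536870912 134217728 67108864 false false false .up 0 0 1
    ndF0q0 ndF1q1 pcF0 Cut.none Ext.none :=
  certF0 (fam := false) (s1 := false) (s2 := false) (a := 0) (b := 0) (c := 1) (cn := .up) (n1 := ndF0q0) (n2 := ndF1q1) (pc := pcF0) (cut := Cut.none) (xt := Ext.none) (P1 := 0) (W1 := 536870912) (P2 := 536870912) (W2 := 536870912) (P3 := 134217728) (W3 := 67108864)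
    rfl k0_mm_001

noncomputable def f_mm_011 : ℕ → ℕ → ℕ → ℕ → Bool := onCell 0 536870912 536870912 536870912 134217728 67108864
    (rowF 0 false false false .pnn 0 1 1 (qsf 0 536870912 536870912 536870912 1) ndF0q0 ndF1q1 pcF1 Cut.none Ext.none)

def k0_mm_011 : ∃ t, chk3 f_mm_011 t 1 1 1 = true :=
  ⟨(l 3), by decide +kernel⟩

theorem c_mm_011 : CertF 0 536870912 536870912 536870912 134217728 67108864 false false false .pnn 0 1 1
    ndF0q0 ndF1q1 pcF1 Cut.none Ext.none :=
  certF0 (fam := false) (s1 := false) (s2 := false) (a := 0) (b := 1) (c := 1) (cn := .pnn) (n1 := ndF0q0) (n2 := ndF1q1) (pc := pcF1) (cut := Cut.none) (xt := Ext.none) (P1 := 0) (W1 := 536870912) (P2 := 536870912) (W2 := 536870912) (P3 := 134217728) (W3 := 67108864)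
    rfl k0_mm_011

noncomputable def f_mm_012_a : ℕ → ℕ → ℕ → ℕ → Bool := onCell 0 536870912 0 536870912 134217728 67108864
    (rowF 0 false false false .pnp 0 1 2 (qsf 0 536870912 0 536870912 1) ndF0q0 ndF1q2a pcF1 Cut.none Ext.none)

def k0_mm_012_a : ∃ t, chk3 f_mm_012_a t 1 1 1 = true :=
  ⟨(l 5), by decide +kernel⟩

theorem c_mm_012_a : CertF 0 536870912 0 536870912 134217728 67108864 false false false .pnp 0 1 2
    ndF0q0 ndF1q2a pcF1 Cut.none Ext.none :=
  certF0 (fam := false) (s1 := false) (s2 := false) (a := 0) (b := 1) (c := 2) (cn := .pnp) (n1 := ndF0q0) (n2 := ndF1q2a) (pc := pcF1) (cut := Cut.none) (xt := Ext.none) (P1 := 0) (W1 := 536870912) (P2 := 0) (W2 := 536870912) (P3 := 134217728) (W3 := 67108864)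
    rfl k0_mm_012_a

noncomputable def f_mm_012_b : ℕ → ℕ → ℕ → ℕ → Bool := onCell 0 536870912 1239849684 370763052 134217728 67108864
    (rowF 0 false false false .pnp 0 1 2 (qsf 0 536870912 1239849684 370763052 1) ndF0q0 ndF1q2b pcF1 Cut.none Ext.none)

def k0_mm_012_b : ∃ t, chk3 f_mm_012_b t 1 1 1 = true :=
  ⟨(l 5), by decide +kernel⟩

theorem c_mm_012_b : CertF 0 536870912 1239849684 370763052 134217728 67108864 false false false .pnp 0 1 2
    ndF0q0 ndF1q2b pcF1 Cut.none Ext.none :=
  certF0 (fam := false) (s1 := false) (s2 := false) (a := 0) (b := 1) (c := 2) (cn := .pnp) (n1 := ndF0q0) (n2 := ndF1q2b) (pc := pcF1) (cut := Cut.none) (xt := Ext.none) (P1 := 0) (W1 := 536870912) (P2 := 1239849684) (W2 := 370763052) (P3 := 134217728) (W3 := 67108864)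
    rfl k0_mm_012_b

noncomputable def f_mm_022_a : ℕ → ℕ → ℕ → ℕ → Bool := onCell 0 536870912 0 536870912 134217728 67108864
    (rowF 0 false false false .pp 0 2 2 (qsf 0 536870912 0 536870912 2) ndF0q0 ndF1q2a pcF2 Cut.none Ext.none)

def k0_mm_022_a : ∃ t, chk3 f_mm_022_a t 1 1 1 = true :=
  ⟨(l 5), by decide +kernel⟩

theorem c_mm_022_a : CertF 0 536870912 0 536870912 134217728 67108864 false false false .pp 0 2 2
    ndF0q0 ndF1q2a pcF2 Cut.none Ext.none :=
  certF0 (fam := false) (s1 := false) (s2 := false) (a := 0) (b := 2) (c := 2) (cn := .pp) (n1 := ndF0q0) (n2 := ndF1q2a) (pc := pcF2) (cut := Cut.none) (xt := Ext.none) (P1 := 0) (W1 := 536870912) (P2 := 0) (W2 := 536870912) (P3 := 134217728) (W3 := 67108864)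
    rfl k0_mm_022_a

noncomputable def f_mm_022_b : ℕ → ℕ → ℕ → ℕ → Bool := onCell 0 536870912 1239849684 370763052 134217728 67108864
    (rowF 0 false false false .pp 0 2 2 (qsf 0 536870912 1239849684 370763052 2) ndF0q0 ndF1q2b pcF2 Cut.none Ext.none)

def k0_mm_022_b : ∃ t, chk3 f_mm_022_b t 1 1 1 = true :=
  ⟨(l 5), by decide +kernel⟩

theorem c_mm_022_b : CertF 0 536870912 1239849684 370763052 134217728 67108864 false false false .pp 0 2 2
    ndF0q0 ndF1q2b pcF2 Cut.none Ext.none :=
  certF0 (fam := false) (s1 := false) (s2 := false) (a := 0) (b := 2) (c := 2) (cn := .pp) (n1 := ndF0q0) (n2 := ndF1q2b) (pc := pcF2) (cut := Cut.none) (xt := Ext.none) (P1 := 0) (W1 := 536870912) (P2 := 1239849684) (W2 := 370763052) (P3 := 134217728) (W3 := 67108864)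
    rfl k0_mm_022_b

noncomputable def f_mm_023 : ℕ → ℕ → ℕ → ℕ → Bool := onCell 0 536870912 1610612736 536870912 134217728 67108864
    (rowF 0 false false false .up 0 2 3 (qsf 0 536870912 1610612736 536870912 2) ndF0q0 ndF1q3 pcF2 Cut.none Ext.none)

def k0_mm_023 : ∃ t, chk3 f_mm_023 t 1 1 1 = true :=
  ⟨(l 5), by decide +kernel⟩

theorem c_mm_023 : CertF 0 536870912 1610612736 536870912 134217728 67108864 false false false .up 0 2 3
    ndF0q0 ndF1q3 pcF2 Cut.none Ext.none :=
  certF0 (fam := false) (s1 := false) (s2 := false) (a := 0) (b := 2) (c := 3) (cn := .up) (n1 := ndF0q0) (n2 := ndF1q3) (pc := pcF2) (cut := Cut.none) (xt := Ext.none) (P1 := 0) (W1 := 536870912) (P2 := 1610612736) (W2 := 536870912) (P3 := 134217728) (W3 := 67108864)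
    rfl k0_mm_023

noncomputable def f_mm_033 : ℕ → ℕ → ℕ → ℕ → Bool := onCell 0 536870912 1610612736 536870912 134217728 67108864
    (rowF 0 false false false .pnn 0 3 3 (qsf 0 536870912 1610612736 536870912 3) ndF0q0 ndF1q3 pcF3 Cut.none Ext.none)

def k0_mm_033 : ∃ t, chk3 f_mm_033 t 1 1 1 = true :=
  ⟨(l 5), by decide +kernel⟩

theorem c_mm_033 : CertF 0 536870912 1610612736 536870912 134217728 67108864 false false false .pnn 0 3 3
    ndF0q0 ndF1q3 pcF3 Cut.none Ext.none :=
  certF0 (fam := false) (s1 := false) (s2 := false) (a := 0) (b := 3) (c := 3) (cn := .pnn) (n1 := ndF0q0) (n2 := ndF1q3) (pc := pcF3) (cut := Cut.none) (xt := Ext.none) (P1 := 0) (W1 := 536870912) (P2 := 1610612736) (W2 := 536870912) (P3 := 134217728) (W3 := 67108864)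
    rfl k0_mm_033

noncomputable def f_mm_101 : ℕ → ℕ → ℕ → ℕ → Bool := onCell 536870912 536870912 536870912 536870912 134217728 67108864
    (rowF 0 false false false .npn 1 0 1 (qsf 536870912 536870912 536870912 536870912 0) ndF0q1 ndF1q1 pcF0 Cut.none Ext.none)

def k0_mm_101 : ∃ t, chk3 f_mm_101 t 1 1 1 = true :=
  ⟨(l 3), by decide +kernel⟩

theorem c_mm_101 : CertF 536870912 536870912 536870912 536870912 134217728 67108864 false false false .npn 1 0 1
    ndF0q1 ndF1q1 pcF0 Cut.none Ext.none :=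
  certF0 (fam := false) (s1 := false) (s2 := false) (a := 1) (b := 0) (c := 1) (cn := .npn) (n1 := ndF0q1) (n2 := ndF1q1) (pc := pcF0) (cut := Cut.none) (xt := Ext.none) (P1 := 536870912) (W1 := 536870912) (P2 := 536870912) (W2 := 536870912) (P3 := 134217728) (W3 := 67108864)
    rfl k0_mm_101

noncomputable def f_mm_102_a : ℕ → ℕ → ℕ → ℕ → Bool := onCell 536870912 536870912 0 536870912 134217728 67108864
    (rowF 0 false false false .npp 1 0 2 (qsf 536870912 536870912 0 536870912 0) ndF0q1 ndF1q2a pcF0 Cut.none Ext.none)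

def k0_mm_102_a : ∃ t, chk3 f_mm_102_a t 1 1 1 = true :=
  ⟨(l 3), by decide +kernel⟩

theorem c_mm_102_a : CertF 536870912 536870912 0 536870912 134217728 67108864 false false false .npp 1 0 2
    ndF0q1 ndF1q2a pcF0 Cut.none Ext.none :=
  certF0 (fam := false) (s1 := false) (s2 := false) (a := 1) (b := 0) (c := 2) (cn := .npp) (n1 := ndF0q1) (n2 := ndF1q2a) (pc := pcF0) (cut := Cut.none) (xt := Ext.none) (P1 := 536870912) (W1 := 536870912) (P2 := 0) (W2 := 536870912) (P3 := 134217728) (W3 := 67108864)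
    rfl k0_mm_102_a

noncomputable def f_mm_102_b : ℕ → ℕ → ℕ → ℕ → Bool := onCell 536870912 536870912 1239849684 370763052 134217728 67108864
    (rowF 0 false false false .npp 1 0 2 (qsf 536870912 536870912 1239849684 370763052 0) ndF0q1 ndF1q2b pcF0 Cut.none Ext.none)

def k0_mm_102_b : ∃ t, chk3 f_mm_102_b t 1 1 1 = true :=
  ⟨(l 5), by decide +kernel⟩

theorem c_mm_102_b : CertF 536870912 536870912 1239849684 370763052 134217728 67108864 false false false .npp 1 0 2
    ndF0q1 ndF1q2b pcF0 Cut.none Ext.none :=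
  certF0 (fam := false) (s1 := false) (s2 := false) (a := 1) (b := 0) (c := 2) (cn := .npp) (n1 := ndF0q1) (n2 := ndF1q2b) (pc := pcF0) (cut := Cut.none) (xt := Ext.none) (P1 := 536870912) (W1 := 536870912) (P2 := 1239849684) (W2 := 370763052) (P3 := 134217728) (W3 := 67108864)
    rfl k0_mm_102_b

noncomputable def f_mm_112_a : ℕ → ℕ → ℕ → ℕ → Bool := onCell 536870912 536870912 0 536870912 134217728 67108864
    (rowF 0 false false false .dn 1 1 2 (qsf 536870912 536870912 0 536870912 1) ndF0q1 ndF1q2a pcF1 Cut.none Ext.none)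

def k0_mm_112_a : ∃ t, chk3 f_mm_112_a t 1 1 1 = true :=
  ⟨(l 3), by decide +kernel⟩

theorem c_mm_112_a : CertF 536870912 536870912 0 536870912 134217728 67108864 false false false .dn 1 1 2
    ndF0q1 ndF1q2a pcF1 Cut.none Ext.none :=
  certF0 (fam := false) (s1 := false) (s2 := false) (a := 1) (b := 1) (c := 2) (cn := .dn) (n1 := ndF0q1) (n2 := ndF1q2a) (pc := pcF1) (cut := Cut.none) (xt := Ext.none) (P1 := 536870912) (W1 := 536870912) (P2 := 0) (W2 := 536870912) (P3 := 134217728) (W3 := 67108864)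
    rfl k0_mm_112_a

noncomputable def f_mm_112_b : ℕ → ℕ → ℕ → ℕ → Bool := onCell 536870912 536870912 1239849684 370763052 134217728 67108864
    (rowF 0 false false false .dn 1 1 2 (qsf 536870912 536870912 1239849684 370763052 1) ndF0q1 ndF1q2b pcF1 Cut.none Ext.none)

def k0_mm_112_b : ∃ t, chk3 f_mm_112_b t 1 1 1 = true :=
  ⟨(l 5), by decide +kernel⟩

theorem c_mm_112_b : CertF 536870912 536870912 1239849684 370763052 134217728 67108864 false false false .dn 1 1 2
    ndF0q1 ndF1q2b pcF1 Cut.none Ext.none :=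
  certF0 (fam := false) (s1 := false) (s2 := false) (a := 1) (b := 1) (c := 2) (cn := .dn) (n1 := ndF0q1) (n2 := ndF1q2b) (pc := pcF1) (cut := Cut.none) (xt := Ext.none) (P1 := 536870912) (W1 := 536870912) (P2 := 1239849684) (W2 := 370763052) (P3 := 134217728) (W3 := 67108864)
    rfl k0_mm_112_b

noncomputable def f_mm_113 : ℕ → ℕ → ℕ → ℕ → Bool := onCell 536870912 536870912 1610612736 536870912 134217728 67108864
    (rowF 0 false false false .nn 1 1 3 (qsf 536870912 536870912 1610612736 536870912 1) ndF0q1 ndF1q3 pcF1 Cut.none Ext.none)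

def k0_mm_113 : ∃ t, chk3 f_mm_113 t 1 1 1 = true :=
  ⟨(l 5), by decide +kernel⟩

theorem c_mm_113 : CertF 536870912 536870912 1610612736 536870912 134217728 67108864 false false false .nn 1 1 3
    ndF0q1 ndF1q3 pcF1 Cut.none Ext.none :=
  certF0 (fam := false) (s1 := false) (s2 := false) (a := 1) (b := 1) (c := 3) (cn := .nn) (n1 := ndF0q1) (n2 := ndF1q3) (pc := pcF1) (cut := Cut.none) (xt := Ext.none) (P1 := 536870912) (W1 := 536870912) (P2 := 1610612736) (W2 := 536870912) (P3 := 134217728) (W3 := 67108864)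
    rfl k0_mm_113

noncomputable def f_mm_123 : ℕ → ℕ → ℕ → ℕ → Bool := onCell 536870912 536870912 1610612736 536870912 134217728 67108864
    (rowF 0 false false false .npn 1 2 3 (qsf 536870912 536870912 1610612736 536870912 2) ndF0q1 ndF1q3 pcF2 Cut.none Ext.none)

def k0_mm_123 : ∃ t, chk3 f_mm_123 t 1 1 1 = true :=
  ⟨(l 5), by decide +kernel⟩

theorem c_mm_123 : CertF 536870912 536870912 1610612736 536870912 134217728 67108864 false false false .npn 1 2 3
    ndF0q1 ndF1q3 pcF2 Cut.none Ext.none :=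
  certF0 (fam := false) (s1 := false) (s2 := false) (a := 1) (b := 2) (c := 3) (cn := .npn) (n1 := ndF0q1) (n2 := ndF1q3) (pc := pcF2) (cut := Cut.none) (xt := Ext.none) (P1 := 536870912) (W1 := 536870912) (P2 := 1610612736) (W2 := 536870912) (P3 := 134217728) (W3 := 67108864)
    rfl k0_mm_123

noncomputable def f_mm_133 : ℕ → ℕ → ℕ → ℕ → Bool := onCell 536870912 536870912 1610612736 536870912 134217728 67108864
    (rowF 0 false false false .dn 1 3 3 (qsf 536870912 536870912 1610612736 536870912 3) ndF0q1 ndF1q3 pcF3 Cut.none Ext.none)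

def k0_mm_133 : ∃ t, chk3 f_mm_133 t 1 1 1 = true :=
  ⟨(l 5), by decide +kernel⟩

theorem c_mm_133 : CertF 536870912 536870912 1610612736 536870912 134217728 67108864 false false false .dn 1 3 3
    ndF0q1 ndF1q3 pcF3 Cut.none Ext.none :=
  certF0 (fam := false) (s1 := false) (s2 := false) (a := 1) (b := 3) (c := 3) (cn := .dn) (n1 := ndF0q1) (n2 := ndF1q3) (pc := pcF3) (cut := Cut.none) (xt := Ext.none) (P1 := 536870912) (W1 := 536870912) (P2 := 1610612736) (W2 := 536870912) (P3 := 134217728) (W3 := 67108864)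
    rfl k0_mm_133

noncomputable def f_mm_202_a : ℕ → ℕ → ℕ → ℕ → Bool := onCell 0 536870912 0 536870912 134217728 67108864
    (rowF 0 false false false .pp 2 0 2 (qsf 0 536870912 0 536870912 0) ndF0q2 ndF1q2a pcF0 Cut.none Ext.none)

def k0_mm_202_a : ∃ t, chk3 f_mm_202_a t 1 1 1 = true :=
  ⟨(l 3), by decide +kernel⟩

theorem c_mm_202_a : CertF 0 536870912 0 536870912 134217728 67108864 false false false .pp 2 0 2
    ndF0q2 ndF1q2a pcF0 Cut.none Ext.none :=
  certF0 (fam := false) (s1 := false) (s2 := false) (a := 2) (b := 0) (c := 2) (cn := .pp) (n1 := ndF0q2) (n2 := ndF1q2a) (pc := pcF0) (cut := Cut.none) (xt := Ext.none) (P1 := 0) (W1 := 536870912) (P2 := 0) (W2 := 536870912) (P3 := 134217728) (W3 := 67108864)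
    rfl k0_mm_202_a

noncomputable def f_mm_202_b : ℕ → ℕ → ℕ → ℕ → Bool := onCell 0 536870912 1239849684 370763052 134217728 67108864
    (rowF 0 false false false .pp 2 0 2 (qsf 0 536870912 1239849684 370763052 0) ndF0q2 ndF1q2b pcF0 Cut.none Ext.none)

def k0_mm_202_b : ∃ t, chk3 f_mm_202_b t 1 1 1 = true :=
  ⟨(l 3), by decide +kernel⟩

theorem c_mm_202_b : CertF 0 536870912 1239849684 370763052 134217728 67108864 false false false .pp 2 0 2
    ndF0q2 ndF1q2b pcF0 Cut.none Ext.none :=
  certF0 (fam := false) (s1 := false) (s2 := false) (a := 2) (b := 0) (c := 2) (cn := .pp) (n1 := ndF0q2) (n2 := ndF1q2b) (pc := pcF0) (cut := Cut.none) (xt := Ext.none) (P1 := 0) (W1 := 536870912) (P2 := 1239849684) (W2 := 370763052) (P3 := 134217728) (W3 := 67108864)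
    rfl k0_mm_202_b

noncomputable def f_mm_203 : ℕ → ℕ → ℕ → ℕ → Bool := onCell 0 536870912 0 536870912 134217728 67108864
    (rowF 1 false false false .up 2 0 3 (qsf 0 536870912 1610612736 536870912 0) ndF0q2 ndF1q3 pcF0 Cut.none Ext.none)

def k0_mm_203 : ∃ t, chk3 f_mm_203 t 1 1 1 = true :=
  ⟨(l 3), by decide +kernel⟩

theorem c_mm_203 : CertF 0 536870912 1610612736 536870912 134217728 67108864 false false false .up 2 0 3
    ndF0q2 ndF1q3 pcF0 Cut.none Ext.none :=
  certF1 (fam := false) (s1 := false) (s2 := false) (a := 2) (b := 0) (c := 3) (cn := .up) (n1 := ndF0q2) (n2 := ndF1q3) (pc := pcF0) (cut := Cut.none) (xt := Ext.none) (P1 := 0) (W1 := 536870912) (P2 := 1610612736) (W2 := 536870912) (P3 := 134217728) (W3 := 67108864)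
    rfl (fun _ => rfl) k0_mm_203

noncomputable def f_mm_213 : ℕ → ℕ → ℕ → ℕ → Bool := onCell 0 536870912 1610612736 536870912 134217728 67108864
    (rowF 0 false false false .pnn 2 1 3 (qsf 0 536870912 1610612736 536870912 1) ndF0q2 ndF1q3 pcF1 Cut.none Ext.none)

def k0_mm_213 : ∃ t, chk3 f_mm_213 t 1 1 1 = true :=
  ⟨(a (l 3) (l 5)), by decide +kernel⟩

theorem c_mm_213 : CertF 0 536870912 1610612736 536870912 134217728 67108864 false false false .pnn 2 1 3
    ndF0q2 ndF1q3 pcF1 Cut.none Ext.none :=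
  certF0 (fam := false) (s1 := false) (s2 := false) (a := 2) (b := 1) (c := 3) (cn := .pnn) (n1 := ndF0q2) (n2 := ndF1q3) (pc := pcF1) (cut := Cut.none) (xt := Ext.none) (P1 := 0) (W1 := 536870912) (P2 := 1610612736) (W2 := 536870912) (P3 := 134217728) (W3 := 67108864)
    rfl k0_mm_213

end Pool.Agent.Strip051.G.I1_8_3_16.Tab.C.FB01

namespace Pool.Agent.Strip051.G.I1_8_3_16.Tab.C.FB02

open Pool.Agent.Strip051.PB Pool.Agent.Strip051.PB.T
open Pool.Agent.Strip051.G.I1_8_3_16.Tab

noncomputable def f_pp_001 : ℕ → ℕ → ℕ → ℕ → Bool := onCell 0 536870912 0 536870912 134217728 67108864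
    (rowF 1 false true true .up 0 0 1 (qsf 0 536870912 536870912 536870912 0) ndF0q0 ndF2q1 pcF0 Cut.none Ext.none)

def k0_pp_001 : ∃ t, chk3 f_pp_001 t 1 1 1 = true :=
  ⟨(l 3), by decide +kernel⟩

theorem c_pp_001 : CertF 0 536870912 536870912 536870912 134217728 67108864 false true true .up 0 0 1
    ndF0q0 ndF2q1 pcF0 Cut.none Ext.none :=
  certF1 (fam := false) (s1 := true) (s2 := true) (a := 0) (b := 0) (c := 1) (cn := .up) (n1 := ndF0q0) (n2 := ndF2q1) (pc := pcF0) (cut := Cut.none) (xt := Ext.none) (P1 := 0) (W1 := 536870912) (P2 := 536870912) (W2 := 536870912) (P3 := 134217728) (W3 := 67108864)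
    rfl (fun _ => rfl) k0_pp_001

noncomputable def f_pp_011 : ℕ → ℕ → ℕ → ℕ → Bool := onCell 0 536870912 536870912 536870912 134217728 67108864
    (rowF 0 false true true .pnn 0 1 1 (qsf 0 536870912 536870912 536870912 1) ndF0q0 ndF2q1 pcF1 Cut.none Ext.none)

def k0_pp_011 : ∃ t, chk3 f_pp_011 t 1 1 1 = true :=
  ⟨(a (l 3) (l 3)), by decide +kernel⟩

theorem c_pp_011 : CertF 0 536870912 536870912 536870912 134217728 67108864 false true true .pnn 0 1 1
    ndF0q0 ndF2q1 pcF1 Cut.none Ext.none :=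
  certF0 (fam := false) (s1 := true) (s2 := true) (a := 0) (b := 1) (c := 1) (cn := .pnn) (n1 := ndF0q0) (n2 := ndF2q1) (pc := pcF1) (cut := Cut.none) (xt := Ext.none) (P1 := 0) (W1 := 536870912) (P2 := 536870912) (W2 := 536870912) (P3 := 134217728) (W3 := 67108864)
    rfl k0_pp_011

noncomputable def cut_pp_012_a : Cut := Cut.of [[⟨0, 0, 0, 67108864⟩, ⟨1, 1, 0, 67108864⟩, ⟨2, 1, 0, 67108864⟩]]

noncomputable def f_pp_012_a : ℕ → ℕ → ℕ → ℕ → Bool := onCell 536870912 536870912 0 536870912 134217728 67108864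
    (rowF 2 false true true .pnp 0 1 2 (qsf 0 536870912 0 536870912 1) ndF0q0 ndF2q2a pcF1 cut_pp_012_a Ext.none)

def k0_pp_012_a : ∃ t, chk3 f_pp_012_a t 2 1 1 = true :=
  ⟨(l 3), by decide +kernel⟩

def k1_pp_012_a : ∃ t, chk3 f_pp_012_a t 6 1 1 = true :=
  ⟨(l 3), by decide +kernel⟩

def k2_pp_012_a : ∃ t, chk3 f_pp_012_a t 14 2 1 = true :=
  ⟨(l 3), by decide +kernel⟩

def k3_pp_012_a : ∃ t, chk3 f_pp_012_a t 30 2 1 = true :=
  ⟨(b (a (l 3) (a (l 3) (a (l 3) (b (b (c (l 15737355767) (c (l 33453886823) (l 32379963335))) (l 3)) (l 3))))) (l 3)), by decide +kernel⟩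

def k4_pp_012_a : ∃ t, chk3 f_pp_012_a t 31 4 1 = true :=
  ⟨(a (c (b (b (c (l 17080408) (a (l 16965888) (l 16929304))) (c (l 12516334695) (a (l 16938768) (l 16922680)))) (c (b (a (l 17067392) (l 17049096)) (a (l 17046440) (l 17025928))) (b (a (b (l 16950560) (l 3389251239)) (b (l 16912384) (l 16902408))) (a (a (l 3) (b (l 16922776) (l 3389152423))) (b (l 16848120) (a (l 16867000) (l 16861288))))))) (b (b (a (c (b (l 16844152) (l 16273978599)) (b (l 16727264) (l 23253146935))) (c (l 16787232) (l 16710576))) (a (c (b (a (l 16851904) (l 16827992)) (a (l 9294627751) (l 16823064))) (b (a (l 18421309975) (l 16726928)) (a (l 15200086199) (l 16728896)))) (c (b (l 16783696) (l 16778072)) (l 16714632)))) (a (a (b (b (c (l 35064413991) (l 28621859847)) (l 3)) (l 3)) (b (c (b (l 20031980087) (l 18421317239)) (b (l 23253139655) (c (l 19495049879) (l 20031913879)))) (a (b (c (l 28621865735) (l 26474359383)) (l 3)) (c (b (l 20031925639) (c (l 11442062215) (l 14663215543))) (b (c (l 16733936) (l 16733256))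 (c (l 15200079255) (l 16273813015))))))) (a (b (c (l 16734184) (b (l 16721984) (l 16723896))) (c (b (l 16732504) (c (l 16783728) (l 16732480))) (b (l 16725784) (c (l 16729248) (l 16731312))))) (b (c (l 16746568) (l 16714152)) (c (l 16724288) (l 16718000))))))) (a (b (c (b (l 16958608) (c (l 17032952) (l 16868632))) (b (l 16696072) (l 16700128))) (c (b (c (l 17015800) (l 16850240)) (c (l 16988440) (b (l 16829544) (l 16811592)))) (b (c (l 16707136) (l 16701064)) (c (l 16710920) (l 16705008))))) (b (c (b (l 16898232) (c (l 16984760) (l 16793200))) (b (l 16678448) (l 16682488))) (c (b (c (l 16964288) (l 16770800)) (b (l 16707184) (l 16712384))) (b (l 16686480) (l 16700944)))))), by decide +kernel⟩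

def k5_pp_012_a : ∃ t, chk3 f_pp_012_a t 62 10 2 = true :=
  ⟨(b (c (a (l 73719453591) (b (l 17002864) (l 3926182439))) (a (a (l 3) (b (l 45265047351) (l 3))) (b (a (c (l 16906168) (l 13589615895)) (l 16842976)) (a (c (l 16886984) (b (l 16800848) (l 11442088599))) (l 16737808))))) (a (l 3) (c (b (a (l 16950512) (l 16951912)) (c (l 16974880) (a (l 16911672) (l 16887024)))) (b (a (a (c (l 16871120) (l 22716289207)) (c (l 16858472) (l 16810705383))) (c (l 16835960) (l 16737448))) (a (a (l 3) (c (b (l 16839688) (l 16784024)) (b (l 12515738647) (l 9831384663)))) (b (c (l 16815880) (l 16737528)) (c (a (l 16810024) (l 16792144)) (l 16742400)))))))), by decide +kernel⟩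

def k6_pp_012_a : ∃ t, chk3 f_pp_012_a t 62 10 3 = true :=
  ⟨(a (a (l 3) (a (l 3) (b (b (a (l 3) (b (c (l 25400632775) (l 24326873079)) (l 3))) (l 3)) (l 3)))) (b (a (c (b (c (l 19495056391) (b (l 16733808) (l 20031920583))) (c (b (l 17347573863) (l 15736962231)) (b (l 17884438183) (a (l 11441986407) (l 16734272))))) (b (c (b (l 16730616) (l 20568784871)) (b (l 23253131111) (a (l 21642516839) (l 16726304)))) (a (b (c (l 16273815943) (l 17884422343)) (c (l 13589460919) (l 14663197799))) (b (l 16728776) (c (l 16731232) (l 16728232)))))) (c (b (l 16726992) (l 16734024)) (b (l 16720880) (l 16733304)))) (a (a (b (b (c (c (l 20568799191) (l 17884436631)) (c (l 16273817143) (l 14663198423))) (l 3)) (l 3)) (c (b (c (b (l 16738208) (l 16273827783)) (b (l 16735152) (l 17347562599))) (c (b (l 13052603175) (l 10368248839)) (b (l 14663208343) (l 16273820119)))) (b (b (c (l 16732144) (l 16731816)) (c (l 20031908695) (l 20568776167))) (b (c (l 16273814775) (l 16810682263)) (c (l 14126332055) (l 13052588551))))))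 (c (b (c (l 16732056) (l 16734344)) (a (c (b (l 16735568) (l 16736448)) (b (l 16732656) (l 16733592))) (l 16730224))) (b (c (l 16731448) (l 16733840)) (a (b (c (l 16729800) (l 16726984)) (c (l 16730776) (l 16728016))) (l 16724664))))))), by decide +kernel⟩

def k7_pp_012_a : ∃ t, chk3 f_pp_012_a t 124 11 1 = true :=
  ⟨(l 3), by decide +kernel⟩

def k8_pp_012_a : ∃ t, chk3 f_pp_012_a t 125 11 2 = true :=
  ⟨(b (c (b (a (c (l 16956864) (l 47412512791)) (c (l 16936656) (b (l 16865112) (a (l 16856992) (l 16841024))))) (a (l 3) (c (b (l 16912824) (l 16895536)) (b (a (l 6610275463) (l 16823696)) (a (c (l 16842656) (l 4999625623)) (l 16763328)))))) (b (b (a (a (l 3) (c (l 28085058359) (l 16273835735))) (a (c (l 16742440) (l 17884443271)) (l 16737240))) (a (l 3) (c (a (l 14663224871) (l 16759176)) (a (l 15200089879) (l 16736688))))) (a (l 3) (a (c (b (l 11442000295) (c (l 8220776823) (l 8220774039))) (b (c (l 11441996087) (l 11978864231)) (c (l 8757642151) (l 11978864519)))) (c (b (l 16741096)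 (l 16741144)) (b (l 16737568) (l 16738472))))))) (c (a (l 3) (a (b (c (l 39359418423) (b (b (l 15736971911) (l 3)) (l 3))) (l 3)) (b (c (b (l 16869752) (c (l 16870992) (l 16828552))) (b (b (l 16769768) (l 16746552)) (c (l 13052615735) (l 13052614071)))) (b (c (c (l 16849952) (b (l 16812600) (l 6073369639))) (c (l 9831392151) (l 10368260343))) (a (l 3) (c (c (l 16802176) (l 16747736)) (a (l 8757644855) (l 13052611863)))))))) (a (l 3) (a (a (l 3) (b (b (c (l 11441997463) (l 8757636231)) (l 3)) (l 3))) (b (c (b (b (l 16741784) (l 16273833735)) (c (l 13589482327) (l 13589479671))) (b (b (l 16739152) (l 17347569383)) (b (l 15736957671) (l 13589475991)))) (c (b (c (l 10368257831) (l 10905126087)) (c (l 7683903975) (l 7683903111))) (b (b (l 11441994279) (l 9831383447)) (b (l 8220771095) (l 6610158727))))))))), by decide +kernel⟩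

def k9_pp_012_a : ∃ t, chk3 f_pp_012_a t 125 11 3 = true :=
  ⟨(b (a (a (l 3) (b (b (c (c (l 13052602839) (l 11441983751)) (c (l 9831366231) (l 9294494567))) (l 3)) (l 3))) (c (a (b (c (b (l 18958178551) (b (l 17347565783) (l 15736953495))) (b (l 20568783719) (l 17884430551))) (c (b (b (l 14126340855) (l 13052598103)) (b (l 11441986519) (l 9294503687))) (b (l 14126337415) (b (l 10905114247) (l 8757632119))))) (b (c (l 16733472) (l 16730744)) (c (b (l 16734880) (l 16735840)) (b (l 16732232) (l 16733248))))) (a (b (b (c (l 20568781463) (l 16734280)) (c (l 16810688231) (l 17884425879))) (b (c (l 13589465463) (l 15200072663)) (c (l 10905111847) (l 11978848583)))) (b (b (l 16726216) (l 16727272)) (b (l 16733592) (c (l 16730704) (l 16728208))))))) (a (l 3) (a (a (l 3) (b (b (c (c (l 7147021895) (l 7683889319)) (c (l 16734432) (l 16731960))) (l 3)) (l 3))) (c (b (c (b (l 15736954983) (b (l 15200085815) (l 13589473639))) (b (l 12515725447) (l 15200081767))) (c (b (b (l 11978861751) (l 10368249511))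 (l 8757636199)) (b (l 11978857639) (l 10368244439)))) (b (b (c (l 16731784) (l 16729336)) (c (l 16738056) (l 16730432))) (c (b (l 16736416) (l 16734736)) (b (l 16731472) (l 16732480)))))))), by decide +kernel⟩

def k10_pp_012_a : ∃ t, chk3 f_pp_012_a t 63 10 1 = true :=
  ⟨(a (a (c (b (c (l 16962376) (l 16724088)) (c (b (l 16926920) (l 16856600)) (b (l 16758672) (l 16729328)))) (b (c (l 16719056) (l 16713256)) (c (b (l 16721856) (l 16723744)) (b (l 16716280) (l 16718352))))) (c (b (c (l 16935488) (l 16756528)) (c (b (l 16896336) (l 16864856)) (l 16719544))) (b (c (l 16710264) (l 16704712)) (c (l 16714112) (l 16708872))))) (c (b (c (b (l 16897848) (l 16870184)) (l 16712952)) (b (c (l 16838048) (l 16705256)) (c (a (l 16824200) (l 16775472)) (l 16707136)))) (b (c (l 16697104) (l 16691944)) (c (b (l 16700120) (l 16702176)) (l 16706760))))), by decide +kernel⟩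

def k11_pp_012_a : ∃ t, chk3 f_pp_012_a t 63 11 1 = true :=
  ⟨(a (c (b (c (a (b (c (l 16909600) (l 16822736)) (c (l 16873736) (l 16737904))) (b (l 16807872) (l 16735296))) (b (a (c (l 16735680) (l 16729696)) (l 16722264)) (a (c (l 16739392) (l 16736768)) (l 16724128)))) (a (a (c (b (c (b (l 16852936) (l 16831896)) (b (l 16764872) (l 16742816))) (c (b (l 16746600) (b (l 16770864) (l 16746784))) (b (l 16741944) (c (l 16743424) (l 16742216))))) (b (c (l 16740720) (l 16740816)) (c (b (l 16739472) (l 16745664)) (b (l 16737048) (l 16738056))))) (c (b (c (l 16823200) (l 16736280)) (c (l 16741608) (l 16738040))) (b (l 16737768) (c (l 16735664) (l 16733320))))) (c (b (c (l 16790608) (l 16729696)) (c (l 16738560) (l 16731536))) (b (l 16731312) (c (l 16729240) (l 16726984)))))) (a (b (c (b (l 16736160) (b (l 16727176) (l 16738680))) (b (l 16720480) (b (l 16722136) (l 16723264)))) (a (c (b (c (l 16733088) (l 16730640)) (c (b (l 16734656) (l 16735736)) (l 16738112))) (b (l 16732296) (c (l 16730584)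 (l 16728344)))) (c (b (l 16727664) (l 16735120)) (b (l 16722968) (l 16725416))))) (b (c (b (l 16717120) (l 16719200)) (l 16723776)) (c (b (l 16721376) (l 16723664)) (b (l 16716848) (l 16719368)))))) (a (c (b (c (l 16726728) (l 16714424)) (c (b (l 16722072) (l 16723960)) (b (l 16717456) (l 16719600)))) (b (c (l 16709640) (l 16705024)) (c (l 16724656) (l 16709984)))) (c (b (c (l 16715616) (l 16705672)) (c (b (l 16713208) (l 16715200)) (l 16720424))) (b (c (l 16701144) (l 16696784)) (c (l 16705848) (l 16701904)))))), by decide +kernel⟩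

def k12_pp_012_a : ∃ t, chk3 f_pp_012_a t 14 3 1 = true :=
  ⟨(l 3), by decide +kernel⟩

def k13_pp_012_a : ∃ t, chk3 f_pp_012_a t 30 6 1 = true :=
  ⟨(l 3), by decide +kernel⟩

def k14_pp_012_a : ∃ t, chk3 f_pp_012_a t 62 12 1 = true :=
  ⟨(b (a (l 3) (a (l 3) (a (l 3) (a (l 3) (b (b (b (c (c (c (l 10905135223) (l 6073293527)) (c (l 16743944) (l 16741600))) (c (c (l 16739296) (l 16737024)) (l 16733688))) (l 3)) (l 3)) (l 3)))))) (l 3)), by decide +kernel⟩

def k15_pp_012_a : ∃ t, chk3 f_pp_012_a t 126 24 1 = true :=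
  ⟨(c (a (c (b (c (b (a (a (b (l 16747608) (l 13052617239)) (l 16744016)) (l 16741744)) (a (c (b (l 13052618711) (l 10905136071)) (b (l 13052617767) (l 11442005639))) (l 16742640))) (b (a (c (l 14663227655) (l 15200096231)) (l 16739432)) (a (c (l 11978874407) (l 11978872295)) (l 16740400)))) (a (c (a (b (c (l 5536428151) (l 4462684183)) (l 3)) (b (c (l 13052618471) (l 16746184)) (c (l 8220781527) (l 8757650391)))) (b (c (b (l 9831391159) (l 8220778999)) (l 9294519031)) (c (l 6073297191) (l 6610165495)))) (c (b (c (l 16744104) (l 16743016)) (c (l 16747664) (l 16743992))) (b (l 16741392) (l 16747672))))) (a (b (c (b (b (l 16746392) (l 15200093719)) (c (l 11978870039) (l 16745008))) (b (l 7683896695) (l 12515736711))) (c (b (c (l 9294516855) (l 16745232)) (c (l 6610162743) (l 16743448))) (b (l 10368253303) (l 8220769479)))) (b (c (l 16742912) (l 16735464)) (c (b (l 16739264) (l 16740368)) (l 16742984))))) (c (b (c (b (l 16735224) (l 16736160)) (l 16738736)) (c (b (l 16737136) (l 16743384))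 (b (l 16735048) (l 16736128)))) (b (c (l 16731328) (l 16729200)) (c (l 16738800) (l 16731568))))) (b (c (a (c (a (b (l 16736824) (l 16737880)) (l 16733288)) (b (l 16737816) (l 15200082551))) (l 16736560)) (a (a (b (l 16731336) (l 16732560)) (l 16728008)) (l 16722024))) (c (a (a (c (a (l 7147022631) (l 16738624)) (l 11978857367)) (b (l 16734072) (l 16735352))) (l 16739128)) (a (b (c (l 16732888) (l 16730896)) (l 12515727479)) (l 16724848))))), by decide +kernel⟩

def k16_pp_012_a : ∃ t, chk3 f_pp_012_a t 126 25 1 = true :=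
  ⟨(c (a (b (c (c (b (a (a (l 3) (c (l 3925815623) (l 16747680))) (c (b (l 16745776) (l 16746256)) (l 16747616))) (a (l 3) (c (b (l 16749352) (l 16749808)) (l 10905134279)))) (b (a (c (l 3388942679) (l 16748888)) (c (l 16743984) (l 16742984))) (a (l 3) (c (l 16744992) (l 16744032))))) (b (c (a (l 4462678471) (l 16741504)) (a (l 16742760) (l 16739544))) (a (l 3) (c (l 16742600) (l 16740720))))) (a (l 3) (c (c (b (c (b (l 16750256) (l 16748072)) (l 7683910503)) (c (l 4999558887) (l 5536428023))) (b (l 8220779303) (l 5536426343))) (b (c (l 16743672) (l 16741872)) (c (l 16744720) (l 16743000)))))) (a (c (b (c (b (l 16741296) (l 16742376)) (l 16745144)) (c (b (l 16743496) (c (l 16745112) (l 16744240))) (b (l 16741680) (l 16742944)))) (b (c (l 16738000) (l 16736128)) (c (l 16745800) (l 16738832)))) (c (b (c (l 16737616) (l 16735744)) (c (l 16745176) (l 16738208))) (b (l 16732976) (l 16740912))))) (a (a (b (c (b (l 6073283655) (l 3)) (l 17347569559)) (l 3)) (b (c (c (l 16738208) (l 16736344))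 (l 14663211207)) (c (b (l 22716276423) (l 21105666023)) (b (l 22179403847) (l 20031922983))))) (b (c (b (l 16730680) (l 16732096)) (l 16727848)) (c (b (l 16733568) (l 16740344)) (b (l 16730240) (l 16731912)))))), by decide +kernel⟩

def k17_pp_012_a : ∃ t, chk3 f_pp_012_a t 127 12 1 = true :=
  ⟨(a (c (b (c (b (l 16731200) (c (l 16729072) (l 16727128))) (b (l 16721856) (l 16724264))) (c (b (c (l 16731296) (l 16729496)) (c (l 16738960) (l 16732064))) (b (l 16726848) (l 16740112)))) (b (c (b (l 16717888) (l 16720560)) (l 16715496)) (b (c (l 16723408) (l 16720080)) (c (l 16726464) (l 16723392))))) (c (b (c (b (l 16717312) (l 16719568)) (b (l 16713448) (l 16715968))) (c (b (l 16727240) (l 16732480)) (b (l 16718664) (l 16721560)))) (b (c (l 16721560) (l 16707592)) (b (l 16713864) (l 16727640))))), by decide +kernel⟩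

def k18_pp_012_a : ∃ t, chk3 f_pp_012_a t 62 13 1 = true :=
  ⟨(l 3), by decide +kernel⟩

def k19_pp_012_a : ∃ t, chk3 f_pp_012_a t 126 13 1 = true :=
  ⟨(b (c (a (b (b (a (l 3) (b (c (c (l 6073295415) (l 16747200)) (l 11978868631)) (l 3))) (l 3)) (l 3)) (c (a (b (c (b (b (l 16750848) (l 11978876807)) (c (b (l 16747240) (l 16750456)) (l 9831394151))) (b (l 16749496) (l 9831392775))) (c (c (b (b (l 7683912743) (l 6610171751)) (b (l 5536430583) (l 16750136))) (b (l 7147041671) (l 5536429687))) (b (l 7147037799) (b (l 16747776) (l 16748400))))) (b (c (b (l 16741832) (l 16743168)) (l 16746160)) (c (b (l 16744568) (c (l 16746384) (l 16745696))) (b (l 16743120) (l 16744664))))) (b (b (c (l 12515742407) (l 16739032)) (c (a (l 16743984) (l 16740128)) (l 16745784))) (b (c (a (l 16745336) (l 16741680)) (l 10905129351)) (c (a (l 16746672) (l 16743304)) (a (l 16745296) (l 16741960))))))) (a (a (l 3) (a (l 3) (b (c (l 17884445367) (l 17347572423)) (l 3)))) (a (b (c (b (l 16738632) (l 16740192)) (b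 (l 16735536) (l 16737240))) (c (b (l 16745664) (l 16810710407)) (b (l 16738928) (l 16745856)))) (b (c (l 16735584) (l 16732648)) (c (l 16744304) (l 16736408)))))) (c (a (l 3) (a (b (b (a (l 3) (c (c (l 4462687223) (l 16748744)) (l 4999554935))) (l 3)) (l 3)) (b (c (b (c (b (l 16747184) (l 16753200)) (l 16746264)) (c (b (l 16751352) (l 16752112)) (l 16750488))) (b (c (l 16744976) (l 16743712)) (c (l 16746656) (l 16745464)))) (c (b (c (b (l 16750256) (l 16751008)) (l 6610174487)) (c (b (l 14126370215) (l 13589500471)) (l 14126369767))) (b (c (l 7683914039) (l 16752448)) (c (l 15200109479) (l 15736978471))))))) (a (l 3) (a (b (b (c (l 15200100055) (l 16747528)) (l 3)) (l 3)) (b (c (b (l 16741832) (l 16748936)) (b (l 16739384) (l 16741384))) (c (b (l 17347586215) (l 16273847431)) (b (l 16748624) (l 17347585367)))))))), by decide +kernel⟩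

def k20_pp_012_a : ∃ t, chk3 f_pp_012_a t 127 13 1 = true :=
  ⟨(b (c (a (c (b (c (b (l 16735688) (l 16737080)) (l 16745360)) (b (c (l 16738536) (l 16737152)) (c (l 16745304) (l 16738744)))) (b (b (l 16731880) (l 16733456)) (b (l 16735096) (l 16747288)))) (b (c (b (l 16726752) (l 16728248)) (l 16724720)) (c (c (l 16739120) (l 16740480)) (l 16738616)))) (b (a (c (l 16729776) (l 16726976)) (c (l 16722024) (l 16719416))) (a (c (l 16743824) (l 16730808)) (c (l 16725712) (l 16723352))))) (c (a (a (b (c (c (b (l 16743632) (l 16745280)) (l 16748464)) (b (l 16740512) (l 16742344))) (c (b (c (l 16747008) (l 16745896)) (c (l 16748816) (l 16747776))) (b (l 16744248) (l 16751480)))) (b (c (c (l 16740512) (l 16739328)) (l 16737576)) (c (b (l 16742592) (l 16744464)) (l 16746704)))) (a (c (b (l 16735992) (l 16744904)) (b (l 16733736) (l 16737680))) (b (c (l 16732056) (l 16729888)) (c (l 16735792) (l 16733888))))) (a (b (c (b (l 16736192) (l 16738184)) (b (l 16733864) (l 16735984))) (c (b (l 16745488)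 (a (l 16744216) (l 16740528))) (b (l 16738176) (l 16750920)))) (b (c (l 16740144) (l 16727552)) (c (b (l 16732800) (l 16734984)) (l 16742512)))))), by decide +kernel⟩

def k21_pp_012_a : ∃ t, chk3 f_pp_012_a t 30 7 1 = true :=
  ⟨(l 3), by decide +kernel⟩

def k22_pp_012_a : ∃ t, chk3 f_pp_012_a t 62 14 1 = true :=
  ⟨(l 3), by decide +kernel⟩

def k23_pp_012_a : ∃ t, chk3 f_pp_012_a t 126 14 1 = true :=
  ⟨(a (l 3) (a (l 3) (a (l 3) (b (b (b (c (c (c (l 27011273783) (l 24863788151)) (l 20031948167)) (c (l 17347589927) (l 16746840))) (l 3)) (l 3)) (l 3))))), by decide +kernel⟩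

def k24_pp_012_a : ∃ t, chk3 f_pp_012_a t 127 14 1 = true :=
  ⟨(b (a (c (b (a (c (b (c (b (l 16750224) (l 16756416)) (l 16273851735)) (c (b (l 15736984151) (a (l 15200114695) (l 16752240))) (b (l 16754152) (l 15736984439)))) (b (c (l 16754000) (l 16747808)) (c (b (l 16750296) (l 16810724519)) (l 17347593911)))) (c (b (l 16751664) (c (l 16748896) (l 16748024))) (b (l 16744568) (l 16746736)))) (c (a (a (b (b (c (l 30232501655) (l 28085016295)) (l 3)) (l 3)) (b (c (b (l 16753272) (c (l 16810728599) (l 16754088))) (b (l 16752432) (l 16756104))) (c (b (c (l 15736988263) (l 16755016)) (c (l 14663247863) (l 16757216))) (b (l 16757056) (l 15736988503))))) (b (c (b (l 16750464) (l 16751528)) (l 16754120)) (c (b (l 16755152) (a (l 16754456) (l 6))) (b (l 16751776) (l 16752816))))) (a (a (b (c (l 18958210983) (l 17884467671)) (l 3)) (b (c (l 18421338311) (l 16751312)) (c (l 16273858263) (l 16756008)))) (b (c (l 16749384) (l 16748592)) (c (l 16754184) (l 16750840)))))) (a (b (c (b (l 16751640) (c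 (l 16754256) (l 16748144))) (b (l 16744552) (l 16752104))) (c (b (c (l 16810725543) (l 17347594855)) (c (l 15736986807) (l 16273856423))) (b (l 17884464359) (l 16810725975)))) (b (c (b (l 16742744) (l 16745040)) (l 16742168)) (c (b (l 16747416) (l 16755008)) (b (l 16745872) (l 16748344)))))) (a (c (b (c (b (l 16742616) (l 16744696)) (l 16741920)) (c (b (l 16752096) (l 16752248)) (b (l 16745320) (l 16747560)))) (b (c (l 16740232) (l 16738576)) (c (l 16750224) (l 16743560)))) (c (b (c (b (l 16738800) (l 16740920)) (l 16738192)) (b (c (l 16743120) (l 16741640)) (l 6))) (b (c (l 16736576) (l 16734992)) (c (l 16751864) (l 16740024)))))) (a (a (a (l 3) (l 6)) (l 6)) (l 6))), by decide +kernel⟩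

def k25_pp_012_a : ∃ t, chk3 f_pp_012_a t 31 15 1 = true :=
  ⟨(a (l 3) (l 6)), by decide +kernel⟩

theorem s26_pp_012_a : ∃ t, chk3 f_pp_012_a t 63 14 1 = true := ex3_a k23_pp_012_a k24_pp_012_a

theorem s27_pp_012_a : ∃ t, chk3 f_pp_012_a t 31 14 1 = true := ex3_a k22_pp_012_a s26_pp_012_a

theorem s28_pp_012_a : ∃ t, chk3 f_pp_012_a t 31 7 1 = true := ex3_b s27_pp_012_a k25_pp_012_a

theorem s29_pp_012_a : ∃ t, chk3 f_pp_012_a t 15 7 1 = true := ex3_a k21_pp_012_a s28_pp_012_a

theorem s30_pp_012_a : ∃ t, chk3 f_pp_012_a t 63 13 1 = true := ex3_a k19_pp_012_a k20_pp_012_a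

theorem s31_pp_012_a : ∃ t, chk3 f_pp_012_a t 31 13 1 = true := ex3_a k18_pp_012_a s30_pp_012_a

theorem s32_pp_012_a : ∃ t, chk3 f_pp_012_a t 126 12 1 = true := ex3_b k15_pp_012_a k16_pp_012_a

theorem s33_pp_012_a : ∃ t, chk3 f_pp_012_a t 63 12 1 = true := ex3_a s32_pp_012_a k17_pp_012_a

theorem s34_pp_012_a : ∃ t, chk3 f_pp_012_a t 31 12 1 = true := ex3_a k14_pp_012_a s33_pp_012_a

theorem s35_pp_012_a : ∃ t, chk3 f_pp_012_a t 31 6 1 = true := ex3_b s34_pp_012_a s31_pp_012_a

theorem s36_pp_012_a : ∃ t, chk3 f_pp_012_a t 15 6 1 = true := ex3_a k13_pp_012_a s35_pp_012_a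

theorem s37_pp_012_a : ∃ t, chk3 f_pp_012_a t 15 3 1 = true := ex3_b s36_pp_012_a s29_pp_012_a

theorem s38_pp_012_a : ∃ t, chk3 f_pp_012_a t 7 3 1 = true := ex3_a k12_pp_012_a s37_pp_012_a

theorem s39_pp_012_a : ∃ t, chk3 f_pp_012_a t 63 5 1 = true := ex3_b k10_pp_012_a k11_pp_012_a

theorem s40_pp_012_a : ∃ t, chk3 f_pp_012_a t 125 11 1 = true := ex3_c k8_pp_012_a k9_pp_012_a

theorem s41_pp_012_a : ∃ t, chk3 f_pp_012_a t 62 11 1 = true := ex3_a k7_pp_012_a s40_pp_012_a

theorem s42_pp_012_a : ∃ t, chk3 f_pp_012_a t 62 10 1 = true := ex3_c k5_pp_012_a k6_pp_012_a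

theorem s43_pp_012_a : ∃ t, chk3 f_pp_012_a t 62 5 1 = true := ex3_b s42_pp_012_a s41_pp_012_a

theorem s44_pp_012_a : ∃ t, chk3 f_pp_012_a t 31 5 1 = true := ex3_a s43_pp_012_a s39_pp_012_a

theorem s45_pp_012_a : ∃ t, chk3 f_pp_012_a t 31 2 1 = true := ex3_b k4_pp_012_a s44_pp_012_a

theorem s46_pp_012_a : ∃ t, chk3 f_pp_012_a t 15 2 1 = true := ex3_a k3_pp_012_a s45_pp_012_a

theorem s47_pp_012_a : ∃ t, chk3 f_pp_012_a t 7 2 1 = true := ex3_a k2_pp_012_a s46_pp_012_a

theorem s48_pp_012_a : ∃ t, chk3 f_pp_012_a t 7 1 1 = true := ex3_b s47_pp_012_a s38_pp_012_a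

theorem s49_pp_012_a : ∃ t, chk3 f_pp_012_a t 3 1 1 = true := ex3_a k1_pp_012_a s48_pp_012_a

theorem s50_pp_012_a : ∃ t, chk3 f_pp_012_a t 1 1 1 = true := ex3_a k0_pp_012_a s49_pp_012_a

theorem c_pp_012_a : CertF 0 536870912 0 536870912 134217728 67108864 false true true .pnp 0 1 2
    ndF0q0 ndF2q2a pcF1 cut_pp_012_a Ext.none :=
  certF2 (fam := false) (s1 := true) (s2 := true) (a := 0) (b := 1) (c := 2) (cn := .pnp) (n1 := ndF0q0) (n2 := ndF2q2a) (pc := pcF1) (cut := cut_pp_012_a) (xt := Ext.none) (P1 := 0) (W1 := 536870912) (P2 := 0) (W2 := 536870912) (P3 := 134217728) (W3 := 67108864)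
    rfl (fun _ => rfl) s50_pp_012_a

noncomputable def cut_pp_012_b : Cut := Cut.of [[⟨0, 0, 0, 67108864⟩, ⟨1, 1, 0, 67108864⟩, ⟨2, 1, 0, 67108864⟩]]

noncomputable def f_pp_012_b : ℕ → ℕ → ℕ → ℕ → Bool := onCell 536870912 536870912 1239849684 370763052 134217728 67108864
    (rowF 2 false true true .pnp 0 1 2 (qsf 0 536870912 1239849684 370763052 1) ndF0q0 ndF2q2b pcF1 cut_pp_012_b Ext.none)

def k0_pp_012_b : ∃ t, chk3 f_pp_012_b t 1 1 1 = true :=
  ⟨(a (l 3) (a (l 3) (b (a (l 3) (b (a (b (a (l 3) (a (l 3) (a (l 3) (c (b (c (l 17148304) (l 16981160)) (l 17194872)) (b (c (b (l 16886808) (l 16968952)) (b (l 14126347991) (l 9294620087))) (c (l 17050912) (b (l 16925576) (l 3)))))))) (l 3)) (b (a (a (c (b (c (l 17149040) (b (l 17000640) (l 17063760))) (l 17178568)) (b (c (b (a (l 16890936) (l 16869960)) (l 16949648)) (a (b (l 16753648) (l 16825008)) (l 16721728))) (c (l 17040824) (b (a (l 16911152) (l 16892936)) (l 16963912))))) (c (b (c (l 17141528) (l 16986800)) (l 17198728)) (b (b (l 16720056)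 (l 16720936)) (c (l 17018280) (b (l 16860192) (l 16931544)))))) (a (c (b (c (l 17123904) (l 16969744)) (l 17190736)) (b (l 16705352) (c (l 16985608) (l 16847616)))) (c (b (c (l 17093072) (l 16915248)) (l 17152552)) (b (l 16677384) (l 16694216))))) (c (a (b (l 17291800) (l 17364008)) (b (l 17301800) (l 17391960))) (b (a (c (l 17139272) (a (l 17045656) (l 17025200))) (a (l 17037072) (l 16985056))) (a (l 17180248) (l 17100032)))))) (a (l 3) (a (b (c (l 17442504) (l 15201039031)) (l 17377968)) (b (c (l 17487096) (b (l 17256200) (l 17328704))) (l 17483712)))))) (a (l 3) (a (l 3) (b (b (c (l 17558344) (l 17446176)) (l 17510648)) (b (l 17495240) (l 17464088)))))))), by decide +kernel⟩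

theorem c_pp_012_b : CertF 0 536870912 1239849684 370763052 134217728 67108864 false true true .pnp 0 1 2
    ndF0q0 ndF2q2b pcF1 cut_pp_012_b Ext.none :=
  certF2 (fam := false) (s1 := true) (s2 := true) (a := 0) (b := 1) (c := 2) (cn := .pnp) (n1 := ndF0q0) (n2 := ndF2q2b) (pc := pcF1) (cut := cut_pp_012_b) (xt := Ext.none) (P1 := 0) (W1 := 536870912) (P2 := 1239849684) (W2 := 370763052) (P3 := 134217728) (W3 := 67108864)
    rfl (fun _ => rfl) k0_pp_012_b

noncomputable def cut_pp_022_a : Cut := Cut.of [[⟨0, 0, 0, 67108864⟩, ⟨1, 1, 0, 67108864⟩, ⟨2, 1, 0, 67108864⟩]]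

noncomputable def f_pp_022_a : ℕ → ℕ → ℕ → ℕ → Bool := onCell 1073741824 536870912 0 536870912 134217728 67108864
    (rowF 2 false true true .pp 0 2 2 (qsf 0 536870912 0 536870912 2) ndF0q0 ndF2q2a pcF2 cut_pp_022_a Ext.none)

def k0_pp_022_a : ∃ t, chk3 f_pp_022_a t 8 2 1 = true :=
  ⟨(a (b (a (a (b (c (b (l 16766976) (c (l 16965928) (l 16753800))) (b (l 16683000) (l 16685552))) (c (c (b (l 16941320) (l 16902288)) (l 16709240)) (b (l 16688120) (l 16690736)))) (b (c (l 16789072) (l 16668368)) (c (b (l 16818752) (l 16774696)) (l 16673280)))) (b (c (b (l 16843768) (l 16829504)) (l 16645104)) (c (b (l 16799288) (l 16751384)) (l 16670616)))) (a (b (c (c (a (b (l 16846568) (l 16770616)) (l 16696672)) (b (l 16712000) (l 16714584))) (b (a (l 16693472) (l 16677272)) (a (l 16706888) (l 16680216)))) (a (c (b (c (l 16708600) (l 16704968)) (c (l 16721832) (l 16718584))) (b (c (l 16701400) (l 16697888)) (a (l 16717856) (l 16699272)))) (c (b (c (l 16691136) (l 16688040)) (c (l 16694016) (l 16691272)))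 (b (l 16683488) (l 16687224))))) (b (c (c (b (l 16813056) (l 16725144)) (l 16685144)) (b (l 16653512) (l 16677408))) (c (b (c (l 16686512) (l 16663200)) (c (l 16689544) (l 16687512))) (b (l 16680712) (l 16684512)))))) (b (c (b (a (l 16819696) (c (l 16953528) (l 16666352))) (a (b (l 16779400) (l 16726728)) (c (l 16885456) (l 16611264)))) (b (a (l 16614784) (l 16606384)) (a (l 16639744) (c (l 16610264) (l 16609264))))) (a (b (c (b (l 16651208) (l 16649416)) (l 16649992)) (c (b (c (l 16652952) (l 16630576)) (c (l 16656096) (l 16654960))) (b (l 16649480) (l 16653272)))) (c (b (c (b (l 16783832) (l 16679104)) (l 16615528)) (a (b (l 16627928) (l 16620728)) (c (b (l 16612248) (l 16615408)) (l 16608264)))) (a (b (l 16621888) (l 16622992)) (b (l 16596456) (a (l 16616904) (l 16598880)))))))), by decide +kernel⟩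

def k1_pp_022_a : ∃ t, chk3 f_pp_022_a t 18 2 1 = true :=
  ⟨(a (b (c (b (c (l 16960384) (l 16651296)) (b (l 16758992) (l 16677016))) (b (l 16578056) (c (l 16580768) (l 16580600)))) (b (c (b (c (l 16779384) (l 16583600)) (c (l 16667216) (l 16585848))) (b (l 16583528) (l 16580688))) (c (b (c (l 16591256) (l 16591072)) (c (a (l 16605208) (l 16604488)) (l 16594200))) (b (c (l 16590904) (l 16590736)) (a (l 16604896) (l 16603432)))))) (b (a (c (b (a (l 16805784) (l 16701384)) (a (l 16661728) (b (l 16756968) (l 16692776)))) (b (a (l 16539968) (l 16553880)) (b (l 16556224) (l 16562216)))) (c (b (a (l 16681256) (l 16724664)) (c (b (l 16929232) (l 16869088)) (l 16560488))) (b (l 16548376) (b (l 16549992) (l 16558896))))) (b (a (c (b (a (l 16602664) (l 16600280)) (c (l 16578800) (l 16578560))) (a (l 16572008) (a (l 16571184) (l 16570672)))) (c (b (c (l 16782384) (l 16568592)) (c (l 16578040) (l 16578448))) (b (a (l 16565776) (l 16545744)) (c (l 16577352) (l 16576288))))) (c (a (b (c (a (l 16568984)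 (l 16589480)) (l 16590280)) (c (a (l 16582536) (l 16602944)) (a (l 16581912) (l 16581216)))) (b (c (l 16588504) (l 16589976)) (c (b (l 16590224) (l 16602400)) (a (l 16581024) (l 16581920))))) (a (b (a (l 16567616) (l 16587752)) (a (l 16580984) (l 16590576))) (b (c (l 16588856) (l 16587760)) (a (l 16592696) (l 16590496)))))))), by decide +kernel⟩

def k2_pp_022_a : ∃ t, chk3 f_pp_022_a t 38 2 1 = true :=
  ⟨(b (a (c (b (c (l 16984456) (l 16639400)) (c (a (l 16903560) (l 16907720)) (l 16557648))) (b (b (l 16548504) (l 16550880)) (b (l 16555120) (l 16555936)))) (c (b (c (l 16995200) (l 16640568)) (c (l 16810384) (l 16556800))) (b (l 16541312) (c (l 16561296) (l 16558664))))) (b (c (a (b (c (l 16787480) (l 16571792)) (c (l 16580392) (l 16581248))) (b (c (l 16794544) (l 16553240)) (c (l 16605784) (l 16562344)))) (a (b (a (l 16546456) (l 16547208)) (a (l 16556120) (l 16556728))) (b (l 16559840) (b (l 16566512) (l 16571520))))) (c (b (a (c (a (l 16571448) (l 16572728)) (l 16587096)) (c (a (l 16574040)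 (l 16575352)) (l 16588752))) (a (a (c (l 16584232) (l 16582616)) (c (l 16595728) (l 16593800))) (c (b (l 16594832) (a (l 16589464) (l 16590424))) (b (l 16592392) (a (l 16587256) (l 16587920)))))) (b (a (c (l 16585280) (l 16588760)) (c (l 16581056) (l 16578672))) (a (a (a (l 16590408) (l 16590544)) (c (l 16581416) (l 16579568))) (a (c (l 16581856) (l 16579720)) (c (l 16592792) (l 16590368)))))))), by decide +kernel⟩

def k3_pp_022_a : ∃ t, chk3 f_pp_022_a t 39 4 1 = true :=
  ⟨(c (c (b (a (l 17007896) (l 17022496)) (a (b (l 16959208) (l 16895712)) (b (l 16973112) (l 16908632)))) (b (a (l 16643928) (l 16649448)) (a (l 16558248) (l 16561960)))) (b (a (l 16543544) (l 16545856)) (a (c (l 16553048) (l 16560168)) (b (l 16539960) (l 16555840))))), by decide +kernel⟩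

def k4_pp_022_a : ∃ t, chk3 f_pp_022_a t 39 5 1 = true :=
  ⟨(b (c (a (b (c (l 16803800) (l 16555776)) (c (l 16570624) (l 16564504))) (b (c (l 16710344) (l 16558304)) (c (b (l 16701632) (l 16572672)) (b (l 16564328) (l 16568872))))) (a (b (l 16561328) (c (l 16561304) (l 16558216))) (b (c (l 16554312) (l 16550464)) (c (l 16573296) (l 16569592))))) (a (c (b (c (b (l 16575152) (l 16591048)) (b (l 16571960) (l 16587928))) (c (b (a (l 16585184) (l 16586240)) (a (l 16596600) (c (l 16593048) (l 16591496)))) (b (a (l 16582320) (l 16583080)) (a (l 16588576) (c (l 16589968) (l 16588448)))))) (b (c (b (l 16568856) (l 16574408)) (a (l 16567960) (l 16568312))) (c (b (a (l 16579520) (l 16580000)) (a (l 16585848) (c (l 16586952) (l 16585464)))) (b (a (l 16576792) (l 16576992)) (a (l 16583176) (l 16583264)))))) (c (b (c (a (b (l 16576480) (l 16581704)) (c (l 16586416) (l 16584600))) (b (l 16584256) (a (l 16578160) (l 16579000)))) (c (b (a (c (l 16588144) (l 16586400)) (c (l 16589200) (l 16587320))) (a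 (c (b (l 16592480) (l 16595480)) (b (l 16590776) (l 16593808))) (b (c (l 16593424) (l 16591592)) (l 1)))) (b (a (c (l 16584680) (l 16582976)) (c (l 16585456) (l 16583616))) (a (b (c (l 16589096) (l 16587432)) (c (l 16592152) (l 16590520))) (b (c (l 16589776) (l 16587976)) (l 1)))))) (b (c (b (l 16580552) (a (l 16574704) (l 16575264))) (b (l 16566472) (a (l 16571352) (l 16571632)))) (c (b (a (l 16580464) (a (l 16580696) (l 16580920))) (a (b (l 16590216) (c (l 16588896) (l 16587288))) (b (a (l 16585144) (l 1)) (l 1)))) (b (a (l 16577176) (l 16580632)) (a (c (l 16584136) (l 16582552)) (c (l 16584264) (l 16582560))))))))), by decide +kernel⟩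

def k5_pp_022_a : ∃ t, chk3 f_pp_022_a t 40 4 1 = true :=
  ⟨(c (b (a (c (l 17038960) (l 16657080)) (c (l 17057176) (b (l 16680272) (l 16656024)))) (a (b (c (l 16988912) (l 16597424)) (c (l 16923528) (l 16554312))) (b (c (l 17006504) (l 16606064)) (c (a (l 16935752) (l 16902656)) (a (l 16556040) (l 16557360)))))) (c (b (a (l 16540256) (l 16542832)) (a (b (l 16544440) (l 16549496)) (b (l 16546720) (l 16561992)))) (b (a (l 16535192) (l 16537144)) (a (l 16563352) (b (l 16541312) (l 16556784)))))), by decide +kernel⟩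

def k6_pp_022_a : ∃ t, chk3 f_pp_022_a t 40 10 1 = true :=
  ⟨(c (a (b (c (b (l 16856696) (l 16569976)) (l 16571240)) (a (c (l 16577168) (l 16567824)) (c (b (l 16695648) (l 16578104)) (b (l 16566696) (l 16570984))))) (b (c (a (b (l 16868200) (l 16748616)) (c (l 16956656) (l 16571624))) (a (l 16562240) (b (l 16561656) (l 16565032)))) (c (c (a (b (l 16856624) (b (l 16801776) (a (l 16759088) (l 16762560)))) (b (a (l 16863016) (l 16866824)) (l 16788040))) (a (b (l 16632560) (l 16575608)) (b (l 16575720) (l 16576688)))) (c (a (l 10770573927) (b (l 16570072) (l 16574112))) (a (l 10770570983) (b (l 16567464) (l 16571568))))))) (a (b (c (l 16566616) (l 16551664)) (c (b (l 16562008) (a (l 16565760) (l 16566488))) (a (l 16559432) (l 16570408)))) (b (c (a (l 16557192) (b (l 16556288) (l 16559776))) (a (l 16552312) (l 16563416))) (c (a (b (l 16562880) (l 16567168)) (b (l 16563624) (l 16567816))) (a (b (l 16558152) (l 16562544)) (b (l 16558640) (l 16562944))))))), by decide +kernel⟩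

def k7_pp_022_a : ∃ t, chk3 f_pp_022_a t 40 11 1 = true :=
  ⟨(c (a (a (b (c (b (c (l 16679440) (l 16577888)) (c (l 16584968) (l 16582880))) (b (l 16574728) (c (l 16580824) (l 16578792)))) (b (a (c (c (l 16589872) (l 16587896)) (c (l 16585936) (l 16584000))) (l 1)) (l 1))) (b (c (b (c (l 16580992) (l 16578984)) (c (l 16586064) (l 16583848))) (b (c (l 16576728) (l 16574504)) (c (l 16581656) (l 16579496)))) (l 1))) (a (b (a (b (b (c (c (l 16714688) (l 16578544)) (l 16575000)) (l 1)) (l 1)) (l 1)) (l 1)) (l 1))) (a (a (b (c (b (l 16570608) (b (l 16574448) (l 16577120))) (b (l 16566608) (l 16571896))) (a (b (c (b (l 16579696) (l 1)) (l 16577400)) (l 1)) (l 1))) (b (c (b (l 16576464) (c (l 16577360) (l 16575248))) (b (l 16566960) (b (l 16570792) (l 1)))) (l 1))) (a (b (a (b (c (l 16571608) (l 16567152)) (l 1)) (l 1)) (l 1)) (l 1)))), by decide +kernel⟩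

def k8_pp_022_a : ∃ t, chk3 f_pp_022_a t 82 4 1 = true :=
  ⟨(c (b (c (b (l 17088360) (l 16941976)) (b (l 16555544) (a (l 16664240) (l 16670328)))) (c (b (a (l 17020696) (l 16925816)) (c (a (l 17058792) (l 17068824)) (a (l 16848832) (b (l 16878792) (a (l 16833936) (l 16837576)))))) (b (a (l 16613696) (l 16561744)) (a (b (l 16557824) (l 16559840)) (b (l 37614091255) (l 16566144)))))) (b (c (b (l 16544272) (l 16556184)) (b (l 16537976) (l 16550080))) (b (c (a (l 16548200) (l 16549216)) (a (l 16542408) (l 16543208))) (c (a (l 16552800) (b (l 16552352) (l 16554960))) (a (l 16547216) (l 13991758167)))))), by decide +kernel⟩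

def k9_pp_022_a : ∃ t, chk3 f_pp_022_a t 83 4 1 = true :=
  ⟨(c (a (b (c (b (l 17104064) (l 16894600)) (b (l 16554784) (a (l 16675152) (b (l 16688176) (l 16606408))))) (c (b (c (l 17143680) (b (l 16951472) (l 16922408))) (c (l 17076584) (a (l 16862432) (l 1)))) (b (b (a (l 16640608) (l 16554560)) (a (l 16555464) (l 16558352))) (b (a (l 16556880) (l 1)) (l 1))))) (c (b (a (b (l 67142720823) (c (l 17192616) (l 16988336))) (b (c (l 17217536) (a (a (a (l 17013280) (l 17013528)) (l 17014056)) (l 1))) (l 1))) (a (b (c (l 17149552) (l 16941768)) (l 1)) (l 1))) (b (a (a (b (l 16643000) (l 40298431015)) (b (b (l 16606144) (l 78416258455)) (b (l 36540333639) (l 16557672)))) (b (a (b (a (a (l 16670024) (a (l 16607304) (c (l 16813856) (l 16547616)))) (l 1)) (a (a (l 16600760) (a (l 16600912) (l 1))) (l 1))) (l 1)) (l 1))) (a (a (b (l 16555656) (l 1)) (l 1)) (l 1))))) (b (a (c (b (l 16545848) (b (l 16546616) (l 16552904))) (b (l 16539304) (a (l 16540728) (l 16541104)))) (a (a (b (c (l 16546536) (l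 16539944)) (c (l 16547800) (l 16541400))) (c (b (l 16551864) (l 16555744)) (b (l 16540072) (l 16541512)))) (c (b (a (b (a (a (l 16546536) (a (l 16546488) (c (l 16548072) (l 16544800)))) (l 1)) (a (a (l 16546776) (a (l 16546728) (l 1))) (l 1))) (l 1)) (l 1)) (b (a (a (a (l 16540192) (a (l 16540192) (b (l 16550472) (l 1)))) (l 16540248)) (l 1)) (l 1))))) (a (a (b (c (l 16549936) (l 16543800)) (c (l 16559552) (l 16548384))) (b (c (l 16550328) (l 16544136)) (l 1))) (a (a (b (c (l 16550600) (l 16544392)) (l 1)) (l 1)) (l 1))))), by decide +kernel⟩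

def k10_pp_022_a : ∃ t, chk3 f_pp_022_a t 41 5 1 = true :=
  ⟨(a (b (c (a (b (c (b (c (l 16993616) (l 21508159575)) (c (l 16937920) (a (l 16714616) (l 16717816)))) (c (l 16565864) (l 16563040))) (b (l 1) (l 1))) (b (a (b (c (c (l 17000072) (l 16782240)) (l 16563528)) (l 1)) (l 1)) (l 1))) (a (b (c (b (l 16557152) (l 16560552)) (b (l 16551720) (l 16555232))) (b (l 1) (l 1))) (b (b (c (l 16557928) (l 16552288)) (l 1)) (l 1)))) (l 1)) (l 1)), by decide +kernel⟩

def k11_pp_022_a : ∃ t, chk3 f_pp_022_a t 21 2 1 = true :=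
  ⟨(b (b (l 1) (l 1)) (l 1)), by decide +kernel⟩

def k12_pp_022_a : ∃ t, chk3 f_pp_022_a t 11 2 1 = true :=
  ⟨(l 1), by decide +kernel⟩

def k13_pp_022_a : ∃ t, chk3 f_pp_022_a t 16 6 1 = true :=
  ⟨(a (b (a (a (c (b (c (l 16729408) (l 16715960)) (c (b (l 16721728) (l 16723832)) (b (l 16719096) (l 16721432)))) (b (c (l 16713032) (l 16710144)) (b (c (l 16716496) (l 16713920)) (c (l 16719056) (l 16716704))))) (c (b (c (l 16710256) (l 16707544)) (c (l 16714184) (l 16711904))) (b (l 16703536) (l 16708520)))) (c (b (c (l 16697392) (l 16695032)) (c (l 16711952) (l 16699512))) (b (l 16702040) (l 16717600)))) (a (b (c (a (c (b (l 16726192) (l 16739304)) (b (l 16724032) (l 16726888))) (c (l 16729504) (l 16717184))) (a (b (c (l 16721888) (l 16719752)) (c (l 16724976) (l 16723064))) (l 16724944))) (c (a (a (c (b (l 16733816) (l 16742232)) (b (l 16732072) (l 16735464))) (c (l 16741664) (l 16740128))) (c (l 16735400) (l 16734000))) (a (b (c (l 16728320) (l 16726632)) (c (l 16737184) (l 16730456)))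 (b (l 16719576) (l 16723320))))) (b (c (c (b (l 16705112) (l 16707856)) (l 16715384)) (b (l 16701032) (l 16704280))) (c (b (c (l 16710872) (l 16709632)) (c (l 16724672) (l 16713136))) (b (l 16718264) (l 16722040)))))) (b (c (b (c (b (l 16692200) (l 16694144)) (l 16691440)) (c (b (l 16696288) (l 16698632)) (b (l 16694856) (l 16697376)))) (b (c (l 16689776) (l 16688120)) (b (l 16692736) (l 16695512)))) (a (b (c (c (l 16700376) (l 16699216)) (l 16697480)) (c (b (c (l 16694456) (l 16693544)) (c (l 16718848) (l 16697120))) (b (l 16692176) (l 16716960)))) (b (c (c (l 16684064) (l 16693712)) (l 16681976)) (c (b (l 16689752) (c (l 16702768) (l 16702256))) (b (l 16697688) (l 16701520))))))), by decide +kernel⟩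

def k14_pp_022_a : ∃ t, chk3 f_pp_022_a t 17 6 1 = true :=
  ⟨(b (a (c (b (c (l 16659816) (l 16658944)) (c (a (l 16672672) (l 16656112)) (l 16663704))) (b (l 16657664) (b (l 16661456) (l 16664232)))) (b (c (a (c (l 16635264) (l 16634936)) (c (l 16620984) (l 16621040))) (a (l 16634464) (l 16621112))) (c (c (a (l 16639840) (b (l 16612600) (l 16642480))) (a (l 16639712) (l 16638024))) (c (l 16630272) (l 16630624))))) (a (a (b (c (c (l 16667576) (l 16677544)) (l 16666304)) (c (b (c (l 16682872) (l 16682528)) (c (l 16686496) (l 16686240))) (b (l 16682032) (l 16685888)))) (b (c (b (l 16649512) (l 16652608)) (l 16650616)) (c (b (c (l 16672384) (l 16672528)) (c (l 16672416) (l 16682984))) (b (l 16672712) (l 16672568))))) (b (c (a (c (b (l 16631304) (l 16661984)) (l 16646752)) (c (b (l 16641216) (a (l 16640472) (l 16639976))) (b (l 16630560) (l 16640040)))) (a (b (l 16631416) (l 16661920)) (c (b (l 16630376) (l 16639800)) (l 16645416)))) (c (b (a (c (l 16661504) (l 16650952)) (c (a (l 16650328)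 (l 16654976)) (a (l 16650128) (l 16649448)))) (a (c (b (l 16658672) (l 16663880)) (l 16666440)) (c (a (l 16668312) (b (l 16657192) (c (l 16662320) (l 16662192)))) (a (l 16660224) (b (l 16656896) (l 16661968)))))) (a (b (l 16661288) (c (l 16661064) (l 16660888))) (b (c (l 16654776) (l 16649224)) (a (l 16667680) (c (l 16669600) (l 16658728))))))))), by decide +kernel⟩

def k15_pp_022_a : ∃ t, chk3 f_pp_022_a t 16 7 1 = true :=
  ⟨(b (a (a (b (a (a (c (b (c (b (l 16739584) (l 16746656)) (b (l 16738216) (l 16740152))) (b (b (c (l 16742856) (l 16741656)) (l 6)) (l 6))) (b (c (l 16737848) (l 16736520)) (c (b (l 16740992) (l 6)) (l 16740888)))) (c (c (b (l 16736344) (l 16740152)) (b (l 16735112) (l 16739112))) (b (l 16733248) (l 16737536)))) (c (b (c (l 16730152) (l 16729040)) (c (l 16734008) (l 16733072))) (b (l 16727360) (l 16742152)))) (l 6)) (b (c (b (c (l 16728336) (l 16727448)) (c (b (l 16741808) (l 6)) (l 16731552))) (b (c (l 16726552) (l 16725664)) (c (l 16730824) (l 16730088)))) (l 6)))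 (b (a (c (b (c (l 16712144) (l 16722000)) (c (l 16716224) (l 16715720))) (b (l 16710584) (c (l 16715224) (l 16714736)))) (c (b (c (l 16696168) (l 16706248)) (c (l 16700376) (l 16700064))) (b (l 16695192) (c (l 16699768) (l 16699496))))) (l 6))) (l 6)), by decide +kernel⟩

def k16_pp_022_a : ∃ t, chk3 f_pp_022_a t 17 7 1 = true :=
  ⟨(b (b (a (c (b (a (c (l 16683496) (l 16694208)) (c (b (l 16669960) (l 16675416)) (l 16677992))) (b (a (c (l 16702400) (l 16681616)) (c (l 16686176) (l 16680944))) (l 6))) (b (a (l 16684024) (c (l 16683232) (l 16683208))) (b (a (l 16692328) (a (l 16681168) (l 16680568))) (l 6)))) (a (b (c (c (b (l 16674400) (a (l 16674760) (l 16674152))) (b (l 16669032) (l 16674352))) (c (b (l 16668864) (l 16674184)) (b (l 16668664) (l 16673960)))) (b (b (c (c (a (l 16678808) (l 16678152)) (l 16678376)) (c (l 16678200) (l 16677976))) (l 6)) (l 6))) (c (b (c (a (b (l 16668168) (c (l 16673456) (l 16673352))) (b (c (a (l 16667624) (l 16667256)) (l 16667312)) (c (a (l 16672808) (b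 (l 16671112) (l 16673704))) (a (l 16672696) (l 16672280))))) (a (b (l 16667944) (l 16673184)) (b (c (l 16667176) (l 16667016)) (c (a (l 16672568) (l 16672136)) (l 16677448))))) (b (b (c (a (c (l 16677400) (l 16677312)) (c (a (l 16676728) (b (l 16675648) (a (l 6) (l 16676848)))) (a (l 16676616) (c (l 16676216) (l 16676152))))) (a (l 16677144) (c (a (l 16676496) (l 16676048)) (l 16676128)))) (a (l 6) (a (l 6) (a (l 6) (l 1))))) (a (l 6) (a (l 6) (l 1))))) (b (a (c (b (l 16667672) (l 16672912)) (l 16669984)) (c (b (l 16666752) (a (l 16672176) (l 16671704))) (b (l 16666352) (a (l 16671800) (l 16671288))))) (a (b (c (l 16683464) (l 16677888)) (l 6)) (a (b (c (b (l 16676112) (l 6)) (l 16677072)) (l 6)) (b (c (b (l 16675624) (l 16678264)) (b (l 16675208) (l 16677856))) (l 1)))))))) (a (l 6) (a (l 6) (a (l 6) (l 1))))) (a (l 6) (l 1))), by decide +kernel⟩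

def k17_pp_022_a : ∃ t, chk3 f_pp_022_a t 36 12 1 = true :=
  ⟨(c (b (c (a (l 16620600) (l 16609200)) (a (l 16620360) (l 16619176))) (c (a (b (l 16612024) (l 16620792)) (b (l 16610928) (l 16624792))) (a (l 16626640) (b (l 16610376) (l 16618976))))) (b (a (l 16609512) (c (l 16597696) (l 16597176))) (a (c (l 16636776) (l 16636408)) (c (l 16624648) (l 16624048))))), by decide +kernel⟩

def k18_pp_022_a : ∃ t, chk3 f_pp_022_a t 36 26 1 = true :=
  ⟨(c (a (c (b (l 16635088) (a (l 16639472) (l 16644088))) (b (l 16629456) (l 16644016))) (c (b (a (l 16628840) (l 16633240)) (a (c (l 16638192) (l 16637920)) (c (l 16642520) (l 16642216)))) (b (a (l 16628296) (l 16627360)) (a (l 16637504) (b (l 16634152) (l 16638792)))))) (a (b (c (l 16629040) (l 16628600)) (c (l 16638328) (l 16637848))) (b (c (l 16627240) (l 16626592)) (c (a (l 16636920) (l 16646304)) (a (l 16636288) (l 16635104)))))), by decide +kernel⟩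

def k19_pp_022_a : ∃ t, chk3 f_pp_022_a t 36 54 2 = true :=
  ⟨(a (c (a (b (l 16646664) (l 16651560)) (c (b (l 16646072) (l 16650920)) (l 16653536))) (a (l 16648760) (b (l 16645496) (l 16650344)))) (c (a (c (b (l 16645240) (a (l 16650264) (l 16649784))) (b (l 16644976) (l 16649776))) (b (c (l 16646880) (l 16643960)) (c (a (b (l 16648064) (l 16650456)) (b (l 16647520) (c (l 16649968) (l 16649832)))) (a (l 16648992) (b (l 16647224) (l 16649608)))))) (a (b (l 16644560) (c (l 16649504) (l 16649224))) (b (c (l 16643648) (l 16643328)) (c (a (l 16648696) (b (l 16646912) (l 16649304))) (a (l 16648384) (l 16650408))))))), by decide +kernel⟩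

def k20_pp_022_a : ∃ t, chk3 f_pp_022_a t 72 55 2 = true :=
  ⟨(c (a (b (c (l 16656608) (l 16656424)) (c (l 16661616) (l 16661440))) (b (c (l 16658440) (l 16655600)) (c (a (l 16660992) (b (l 16659288) (c (l 16661824) (l 16661720)))) (a (l 16660792) (b (l 16659072) (l 16661560)))))) (a (b (l 16656136) (c (l 16661256) (l 16661056))) (b (c (l 16655376) (l 16655136)) (c (a (l 16660584) (l 16660088)) (a (l 16660352) (l 16659848)))))), by decide +kernel⟩

def k21_pp_022_a : ∃ t, chk3 f_pp_022_a t 73 55 2 = true :=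
  ⟨(a (c (b (c (a (b (l 16653896) (l 16656344)) (b (l 16653400) (c (l 16655896) (l 16655768)))) (a (l 16654888) (b (l 16653144) (l 16655576)))) (a (c (b (c (l 16658856) (l 16658744)) (a (c (c (l 16660168) (l 16661424)) (l 16661344)) (b (c (a (l 16660640) (l 16660504)) (l 16660464)) (l 16661752)))) (b (l 16658568) (b (c (l 16660480) (l 16660360)) (a (l 16661792) (l 16661528))))) (b (c (a (b (l 16657792) (c (a (l 16659144) (l 16659008)) (l 16658960))) (b (c (a (l 16657656) (l 16657520)) (l 16657464)) (l 1))) (a (c (l 16658224) (l 16658104)) (b (c (l 16657336) (l 16657208)) (l 1)))) (l 1)))) (b (c (a (l 16654632) (b (l 16652872) (l 16655312))) (a (l 16654360) (l 16653808))) (a (c (b (l 16658320) (a (l 16660936) (b (l 16660040) (l 16661280)))) (b (l 16658056) (a (l 16660680) (l 16660400)))) (b (c (a (l 16657904) (b (l 16657008) (l 1))) (a (l 16657632) (l 16657336))) (l 1))))) (b (c (a (c (b (c (l 16652928) (l 16652800)) (a (b (l 16654816) (c (a (l 16656160) (l 16656024)) (l 16655968))) (b (c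 (a (l 16654672) (l 16654528)) (l 16654464)) (l 1)))) (c (b (l 16652664) (a (l 16655224) (l 16654936))) (b (l 16652520) (a (l 16655088) (l 16654800))))) (b (c (c (a (b (l 16651904) (l 16653104)) (l 16652216)) (a (b (l 16651768) (l 16652968)) (l 16652072))) (b (a (l 16651552) (l 16651248)) (c (l 16652680) (l 16652536)))) (l 1))) (a (c (b (l 16652304) (a (l 16654880) (l 16654584))) (b (l 16652000) (a (l 16654584) (l 16654280)))) (b (c (a (b (l 16651248) (l 16652456)) (l 16651552)) (a (l 16651544) (l 16651224))) (l 1)))) (l 1))), by decide +kernel⟩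

def k22_pp_022_a : ∃ t, chk3 f_pp_022_a t 36 27 3 = true :=
  ⟨(b (a (c (a (l 16648336) (l 16647432)) (a (l 16647880) (l 16646880))) (c (a (b (l 16643968) (l 16648776)) (b (l 16645440) (c (a (l 16648064) (l 16647448)) (l 19360652583)))) (a (b (l 16643328) (l 16648136)) (b (l 16642104) (c (l 16647056) (l 16646688)))))) (a (c (a (b (l 16655712) (l 16660736)) (b (l 16654744) (c (l 16659856) (l 16659592)))) (a (l 16668248) (b (l 16654184) (c (l 16659304) (l 16659008))))) (a (c (b (c (a (l 16654080) (l 16653512)) (l 16653496)) (a (c (l 16659024) (l 16658728)) (b (c (l 16657192) (l 16656880)) (l 1)))) (b (c (l 16653176) (l 16652840)) (a (l 16658264) (b (l 16656376) (l 1))))) (b (c (a (c (b (l 16651680) (l 16654120)) (l 16652576)) (b (c (l 16651056) (l 16650704)) (l 1))) (a (b (l 16650824) (l 16653264)) (c (l 16648936) (l 16651176)))) (l 1))))), by decide +kernel⟩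

def k23_pp_022_a : ∃ t, chk3 f_pp_022_a t 72 56 2 = true :=
  ⟨(a (c (b (c (a (l 16666880) (b (l 16665192) (l 16669040))) (a (l 16666720) (b (l 16665016) (l 16667560)))) (a (c (b (l 16670712) (b (l 16672640) (a (l 16674040) (c (l 16673856) (l 16673784))))) (b (l 16670560) (b (l 16672496) (a (l 16673904) (l 16673672))))) (a (b (c (l 16670384) (l 16670224)) (c (c (l 16672984) (l 16672912)) (l 16672800))) (b (c (b (c (l 16669560) (l 16669480)) (c (l 16670832) (l 16670760))) (b (l 16669352) (l 16670632))) (l 1))))) (b (c (a (l 16666552) (l 16666104)) (l 16671384)) (a (c (b (l 16670400) (l 16672984)) (l 16671520)) (b (c (b (l 16669288) (l 16670568)) (l 16669728)) (c (l 16672504) (l 16672312)))))) (b (c (c (c (b (a (l 16664792) (a (l 16664440) (b (l 16663568) (l 16664816)))) (a (b (l 16666680) (a (l 16668064) (l 16667824))) (l 16666824))) (b (a (l 16664704) (b (l 16663592) (a (l 16664968) (l 16664712)))) (a (b (l 16666592) (a (l 16667976) (l 16667736))) (l 16666728)))) (b (a (l 16664552) (a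 (l 16664184) (b (l 16663304) (l 16664552)))) (a (a (l 16667208) (b (l 16666328) (l 16667592))) (l 16666576)))) (a (c (b (l 16664344) (b (l 16666248) (l 16667512))) (b (l 16664128) (l 16666664))) (b (c (a (l 16663968) (b (l 16663072) (l 16664328))) (l 16663600)) (c (l 16666360) (l 16666120))))) (a (a (b (c (c (c (l 16669968) (l 16669880)) (l 16669752)) (c (l 16669552) (l 16669344))) (l 1)) (l 1)) (l 1)))), by decide +kernel⟩

def k24_pp_022_a : ∃ t, chk3 f_pp_022_a t 72 56 3 = true :=
  ⟨(a (b (c (c (l 16665928) (l 16665704)) (l 16665336)) (b (c (c (l 16669776) (l 16669552)) (l 16669184)) (c (a (l 16672504) (l 16671984)) (a (l 16672048) (l 16671488))))) (b (c (a (c (l 16665160) (l 16664904)) (b (c (l 16663344) (l 16663072)) (l 16665736))) (a (l 16664496) (b (l 16662632) (l 16665160)))) (c (c (l 16669992) (l 16669736)) (l 16669312)))), by decide +kernel⟩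

def k25_pp_022_a : ∃ t, chk3 f_pp_022_a t 72 57 1 = true :=
  ⟨(a (a (a (b (b (c (a (b (c (c (l 16675384) (l 16675256)) (l 16675024)) (l 1)) (l 1)) (c (l 16675248) (l 16674800))) (l 1)) (l 1)) (l 1)) (l 1)) (l 1)), by decide +kernel⟩

def k26_pp_022_a : ∃ t, chk3 f_pp_022_a t 72 29 1 = true :=
  ⟨(l 1), by decide +kernel⟩

def k27_pp_022_a : ∃ t, chk3 f_pp_022_a t 72 15 1 = true :=
  ⟨(l 1), by decide +kernel⟩

def k28_pp_022_a : ∃ t, chk3 f_pp_022_a t 73 7 1 = true :=
  ⟨(a (a (b (b (b (b (b (c (c (c (c (l 16663800) (l 16663696)) (l 16663528)) (c (l 16663296) (l 16663040))) (c (l 16662624) (l 16662008))) (l 1)) (l 1)) (l 1)) (l 1)) (l 1)) (b (l 1) (l 1))) (l 1)), by decide +kernel⟩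

def k29_pp_022_a : ∃ t, chk3 f_pp_022_a t 37 12 1 = true :=
  ⟨(b (c (a (a (c (l 16597592) (l 16596912)) (c (l 16607400) (l 16606600))) (c (a (l 16609872) (b (l 16593840) (l 16601408))) (a (l 16606264) (l 16606896)))) (a (a (l 16606368) (c (l 16616288) (l 16615480))) (a (c (l 16605272) (l 16604272)) (c (l 16605616) (l 16604344))))) (c (a (b (c (a (l 16609680) (l 16608904)) (a (l 16608976) (l 16608096))) (c (a (l 16618208) (c (l 16617544) (l 16617144))) (a (l 16617488) (l 16627024)))) (b (c (a (l 16608600) (l 16614528)) (a (l 16607616) (l 16608032))) (c (a (a (l 16616680) (l 16616912)) (c (l 16625608) (l 16622384))) (a (b (l 16613824) (l 16618064)) (c (l 16627024) (l 16626408)))))) (a (a (c (l 16623056) (l 16622304)) (c (b (l 16607264) (l 16615704)) (b (l 16606424) (l 16614840)))) (a (c (b (l 16606616) (l 16625456)) (b (l 16605608) (l 16624440))) (b (c (l 16606776) (l 16605512)) (c (b (l 16612888) (l 16617064)) (b (l 16611632) (l 16615816)))))))), by decide +kernel⟩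

def k30_pp_022_a : ∃ t, chk3 f_pp_022_a t 74 26 2 = true :=
  ⟨(a (c (b (c (l 16627168) (l 16626816)) (c (b (l 16633896) (l 16638480)) (b (l 16633552) (l 16638144)))) (b (l 16626280) (b (l 16633024) (c (l 16637800) (l 16637440))))) (b (a (c (c (l 16626328) (l 16625952)) (l 16625368)) (c (c (l 16625768) (l 16625376)) (b (l 16622536) (l 16626960)))) (a (c (c (b (l 16633016) (l 16640184)) (b (l 16632648) (l 16637208))) (b (l 16632072) (c (l 16636840) (l 16636456)))) (c (b (c (l 16632424) (l 16632040)) (c (b (l 16635808) (a (l 16638208) (b (l 16637312) (l 16638448)))) (b (l 16635432) (a (l 16637848) (b (l 16636936) (l 16638080)))))) (b (c (l 16631648) (l 16631240)) (c (a (l 16636328) (c (l 16636088) (l 16635888))) (b (l 16634648) (a (l 16637072) (l 16636728))))))))), by decide +kernel⟩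

def k31_pp_022_a : ∃ t, chk3 f_pp_022_a t 75 26 2 = true :=
  ⟨(b (c (a (a (c (l 16630768) (l 16625096)) (b (l 16623272) (c (l 16627848) (l 16627368)))) (b (c (a (l 16623664) (l 16623816)) (a (l 16623120) (l 16623208))) (c (a (l 16627952) (b (a (l 16626896) (l 16626952)) (l 16629120))) (a (l 16627416) (b (l 16626392) (l 16628536)))))) (a (a (c (l 16624656) (l 16624208)) (b (l 16622272) (c (l 16626872) (l 16626376)))) (a (b (l 16627520) (c (l 16626872) (l 16626320))) (b (c (l 16622600) (l 16621976)) (c (b (l 16625784) (l 16627936)) (b (l 16625176) (l 16627328))))))) (a (a (c (b (c (b (l 16631008) (l 16633240)) (l 14528785271)) (c (b (a (l 16635440) (l 16635472)) (l 16637752)) (b (a (l 16635048) (l 16635056)) (l 16637352)))) (b (c (l 16633912) (l 16636088)) (b (c (a (l 16634648) (l 16634624)) (a (l 16634224) (l 16634176))) (c (l 16636936) (l 16636512))))) (b (c (c (b (l 16631128) (a (l 16633256) (l 16633288))) (b (l 16630656) (a (l 16632808) (l 16632808)))) (c (b (l 16630176) (a (l 16632344)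 (l 16632320))) (b (l 16629680) (a (l 16631872) (l 16631824))))) (l 1))) (a (a (b (b (c (c (l 16631120) (l 16630608)) (c (l 16630088) (l 16629560))) (l 1)) (l 1)) (l 1)) (l 1)))), by decide +kernel⟩

def k32_pp_022_a : ∃ t, chk3 f_pp_022_a t 37 26 3 = true :=
  ⟨(a (a (b (c (l 16625528) (l 16624744)) (c (b (l 16632272) (c (l 16637064) (l 16636680))) (b (l 16631480) (l 16636080)))) (b (c (a (l 16624560) (l 16634408)) (a (l 16623712) (l 16623040))) (c (b (a (l 16631272) (c (l 16630824) (l 16630392))) (a (c (l 16636056) (l 16635648)) (c (a (l 16635520) (l 16635168)) (l 16634960)))) (a (b (l 16630424) (c (l 16635224) (l 16634784))) (b (l 16629728) (c (l 16634520) (l 16634064))))))) (b (a (a (c (b (l 16621296) (l 16625696)) (l 16627800)) (c (c (l 16628944) (l 16628416)) (b (l 16620168) (l 16624536)))) (a (c (b (l 16621136) (c (l 16625752) (l 16625176))) (b (l 16619952) (c (l 16624592) (l 16623992)))) (c (b (c (l 16621344) (l 16620712)) (b (c (l 16624552) (l 16623920)) (c (l 16626712) (l 16626088))))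 (b (l 16622360) (b (c (l 16623280) (l 16622632)) (c (l 16625456) (l 16624808))))))) (a (c (b (a (c (l 16630400) (l 16629936)) (c (b (l 16629176) (a (l 16631384) (l 16631312))) (b (l 16628656) (l 16630888)))) (a (b (c (a (l 16633792) (l 16633720)) (a (l 16633344) (l 16633248))) (c (l 16636064) (l 16635608))) (l 1))) (b (a (c (l 16629456) (l 16628968)) (c (b (l 16628128) (l 16630360)) (l 16628712))) (a (b (c (l 16632848) (l 16632360)) (c (l 16635136) (l 16634648))) (l 1)))) (a (b (b (c (c (l 16629032) (l 16628464)) (c (l 16627888) (l 16627296))) (l 1)) (l 1)) (l 1))))), by decide +kernel⟩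

def k33_pp_022_a : ∃ t, chk3 f_pp_022_a t 37 27 1 = true :=
  ⟨(a (b (c (a (c (b (c (a (b (l 16642240) (l 16644584)) (b (l 16641640) (c (l 16644056) (l 16643888)))) (a (l 16643096) (c (l 16642568) (l 16642392)))) (a (c (b (c (l 16647008) (l 16646856)) (b (a (c (l 16648936) (l 16648784)) (l 16648552)) (c (l 16649968) (l 16649824)))) (b (l 16646624) (a (b (l 16648552) (l 16649744)) (l 16648840)))) (b (a (c (b (c (l 16645960) (l 16645800)) (l 16647056)) (b (l 16645560) (l 16646736))) (l 1)) (l 1)))) (b (c (a (l 16642768) (b (l 16640960) (l 16643296))) (a (l 16642416) (l 16644392))) (a (c (b (l 16646296) (a (b (l 16648240) (l 16649432)) (l 16648512))) (b (l 16645960) (a (l 16648504) (l 16648176)))) (a (b (c (b (l 16645224) (l 16646408)) (l 16645464)) (l 1)) (l 1))))) (b (b (c (a (c (a (l 16641168) (c (l 16640928) (l 16640752))) (c (l 16640744) (l 16640568))) (a (c (l 16640504) (l 16640144)) (l 1))) (a (c (a (l 16640464) (l 16640120)) (l 16639920)) (c (a (l 16639776) (l 1)) (l 16639248))))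 (a (a (b (c (c (c (l 16642992) (l 16642824)) (l 16642568)) (c (l 16642208) (l 16641840))) (l 1)) (l 1)) (l 1))) (l 1))) (a (c (b (c (a (l 16642056) (l 16641392)) (a (l 16641680) (l 16641000))) (a (c (b (l 16645600) (l 16647984)) (b (l 16645232) (l 16647616))) (b (c (l 16644920) (l 16644536)) (l 1)))) (c (b (a (l 16641296) (l 16640600)) (a (l 16646048) (l 16645328))) (b (l 16676283959) (a (l 16645640) (l 16644912))))) (b (c (a (b (c (l 16639520) (l 16639120)) (c (l 16641864) (l 16641456))) (b (c (l 16638840) (l 16638416)) (l 1))) (a (b (l 16638480) (c (l 16641040) (l 16640600))) (c (l 16639152) (l 16638696)))) (l 1)))) (l 1)) (l 1)), by decide +kernel⟩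

def k34_pp_022_a : ∃ t, chk3 f_pp_022_a t 37 7 1 = true :=
  ⟨(l 1), by decide +kernel⟩

def k35_pp_022_a : ∃ t, chk3 f_pp_022_a t 76 12 2 = true :=
  ⟨(b (c (b (a (l 16594640) (l 16595440)) (a (l 16602056) (c (l 16603160) (l 16602240)))) (b (a (l 16593056) (l 16593568)) (a (l 16600504) (c (l 16601336) (l 16600424))))) (b (c (a (c (l 16610144) (l 16609400)) (c (b (l 16608760) (l 16612600)) (b (l 16607872) (l 16611728)))) (a (b (l 16606272) (l 16610232)) (c (b (l 16606984) (l 16610856)) (b (l 16606096) (l 16609992))))) (c (a (b (c (l 16616088) (l 16615360)) (c (a (l 16619824) (l 16620008)) (a (l 16619144) (l 16619272)))) (b (c (a (l 16616200) (c (l 16616640) (l 16616208))) (a (l 16615384) (a (l 16615456) (l 16614232)))) (a (c (b (l 16619184) (l 16621192)) (b (l 16618384) (l 16620400))) (c (l 16620368) (l 16619520))))) (a (a (c (l 16616424) (l 16615728)) (b (l 16614080) (c (l 16618528) (l 16617784)))) (b (a (c (l 16614568) (l 16613744)) (a (c (l 16614592) (l 16613728)) (c (l 16614656) (l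 16613760)))) (a (c (b (l 16617576) (l 16619600)) (b (l 16616768) (l 16618800))) (c (l 16618656) (l 16617792)))))))), by decide +kernel⟩

def k36_pp_022_a : ∃ t, chk3 f_pp_022_a t 77 12 2 = true :=
  ⟨(b (c (b (a (l 16596256) (c (l 16597672) (l 16596456))) (a (c (l 16603880) (l 16602840)) (c (b (l 16602816) (l 16606344)) (b (l 16601624) (l 16605184))))) (b (a (l 16594104) (c (l 16595240) (l 16594040))) (a (c (l 16601800) (l 16600760)) (b (c (l 16600440) (l 16599272)) (c (l 16604024) (l 16602864)))))) (b (b (c (a (c (l 16609360) (l 16608344)) (c (a (l 16609640) (l 16609936)) (a (l 16608536) (l 16608768)))) (a (c (l 16607336) (l 16606320)) (a (c (l 16607432) (l 16606336)) (c (l 16607608) (l 16606448))))) (a (c (c (a (l 16612808) (b (l 16612128) (l 16614008))) (a (l 16611848) (b (l 16611104) (l 16613000)))) (a (c (l 16610888) (l 16609928)) (c (b (l 16610080) (l 16611984)) (b (l 16609056) (l 16610976))))) (l 1))) (a (b (b (a (c (c (l 16615680) (l 16614736)) (c (l 16613792) (l 16612848))) (l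 1)) (l 1)) (l 1)) (l 1)))), by decide +kernel⟩

def k37_pp_022_a : ∃ t, chk3 f_pp_022_a t 38 12 3 = true :=
  ⟨(a (b (c (a (b (l 16591496) (l 16598968)) (b (l 16591720) (l 16604320))) (a (b (l 16589944) (l 16597432)) (b (l 16589904) (l 16607768)))) (b (c (a (l 16617248) (b (l 16610016) (a (l 16608496) (l 16611112)))) (a (l 16615728) (a (l 16604856) (b (l 16602768) (l 16606688))))) (a (c (a (b (l 16612592) (l 16616728)) (b (l 16612552) (c (l 16617032) (l 16616272)))) (b (l 16611280) (a (l 16615312) (c (l 16615504) (l 16614736))))) (c (b (b (c (l 13991874119) (l 13991872391)) (a (l 16613512) (c (l 16613904) (l 16613016)))) (a (c (b (l 16615952) (l 16617992)) (b (l 16615136) (l 16617184))) (c (l 16616928) (l 16616056)))) (b (a (l 16610848) (c (b (l 16610120) (l 16612136)) (l 16610240))) (a (c (b (l 16614312) (l 16616368)) (l 16614520)) (c (l 16615184) (l 16614304)))))))) (b (c (b (a (l 16591984) (l 16592248)) (a (b (l 16597352) (l 16601040)) (b (l 16597520) (c (l 16601720) (l 16600576)))))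 (b (a (l 16589896) (l 16589896)) (a (b (l 16595296) (l 16599008)) (b (l 16595208) (c (l 16599432) (l 16598296)))))) (b (b (a (c (c (l 16605312) (l 16604304)) (c (l 16603304) (l 16602296))) (c (a (c (l 16605240) (l 16604144)) (c (l 16605296) (l 16604136))) (a (c (l 16603056) (l 16601968)) (c (l 16602992) (l 16601840))))) (a (c (a (c (l 16608976) (l 16608016)) (c (b (l 16608032) (l 16609960)) (b (l 16607008) (l 16608952)))) (a (l 16606576) (c (l 16606968) (l 16605952)))) (l 1))) (b (b (a (a (c (c (l 16611904) (l 16610960)) (c (l 16610008) (l 16609064))) (l 1)) (l 1)) (l 1)) (l 1))))), by decide +kernel⟩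

def k38_pp_022_a : ∃ t, chk3 f_pp_022_a t 39 12 1 = true :=
  ⟨(b (a (c (b (c (a (c (l 16603768) (l 16602416)) (b (c (l 16597720) (l 16596216)) (c (a (l 16600624) (l 16601016)) (a (l 16599184) (l 16599512))))) (a (c (l 16595824) (l 16594488)) (b (c (l 16594720) (l 16593240)) (a (c (l 16597752) (l 16596328)) (c (l 16598016) (l 16596528)))))) (a (a (c (b (c (l 16603216) (l 16601936)) (c (l 16606688) (l 16605432))) (b (c (l 16600656) (l 16599392)) (c (l 16604184) (l 16602936)))) (b (c (c (l 16603584) (l 16602232)) (c (l 16600896) (l 16599568))) (l 1))) (l 1))) (b (c (a (c (l 16593160) (l 16591840)) (a (c (l 16593264) (l 16591856)) (b (l 16591000) (l 16594328)))) (a (b (l 16588152) (l 16591592)) (b (l 16588160) (a (l 16591448) (l 16591424))))) (a (c (b (a (l 16597504) (c (l 16598240) (l 16596928))) (a (c (l 16601696) (l 16600464)) (l 1))) (b (c (l 16595752) (l 16594480)) (a (c (l 16599240) (l 16598016)) (l 1)))) (l 1)))) (a (a (b (b (c (c (c (l 16598232) (l 16596632)) (c (l 16595040) (l 16593464)))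 (c (l 16591128) (l 16588064))) (l 1)) (l 1)) (l 1)) (l 1))) (l 1)), by decide +kernel⟩

def k39_pp_022_a : ∃ t, chk3 f_pp_022_a t 19 13 1 = true :=
  ⟨(a (b (a (c (b (a (a (c (b (c (c (l 16624120) (l 16623792)) (c (l 16623464) (l 16623128))) (c (l 16628152) (l 16627512))) (b (c (b (l 16621576) (l 16623672)) (b (l 16620896) (l 16623000))) (c (l 16626856) (l 16626192)))) (b (b (c (c (a (l 16622976) (l 16623048)) (a (l 16622264) (l 16622312))) (c (l 16621608) (l 16620872))) (l 1)) (l 1))) (l 1)) (l 1)) (b (a (c (c (b (a (l 16621264) (b (l 16620128) (l 1))) (l 16625656)) (b (a (l 16620576) (b (l 16619384) (l 1))) (l 16624944))) (b (a (c (l 16619872) (l 16619168)) (b (c (l 16618624) (l 16617864)) (l 1))) (a (l 16623800) (l 1)))) (l 1)) (l 1))) (l 1)) (l 1)) (l 1)), by decide +kernel⟩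

def k40_pp_022_a : ∃ t, chk3 f_pp_022_a t 19 7 1 = true :=
  ⟨(l 1), by decide +kernel⟩

def k41_pp_022_a : ∃ t, chk3 f_pp_022_a t 5 3 1 = true :=
  ⟨(b (l 1) (l 1)), by decide +kernel⟩

def k42_pp_022_a : ∃ t, chk3 f_pp_022_a t 3 1 1 = true :=
  ⟨(l 1), by decide +kernel⟩

theorem s43_pp_022_a : ∃ t, chk3 f_pp_022_a t 38 12 2 = true := ex3_a k35_pp_022_a k36_pp_022_a

theorem s44_pp_022_a : ∃ t, chk3 f_pp_022_a t 38 12 1 = true := ex3_c s43_pp_022_a k37_pp_022_a

theorem s45_pp_022_a : ∃ t, chk3 f_pp_022_a t 19 12 1 = true := ex3_a s44_pp_022_a k38_pp_022_a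

theorem s46_pp_022_a : ∃ t, chk3 f_pp_022_a t 19 6 1 = true := ex3_b s45_pp_022_a k39_pp_022_a

theorem s47_pp_022_a : ∃ t, chk3 f_pp_022_a t 19 3 1 = true := ex3_b s46_pp_022_a k40_pp_022_a

theorem s48_pp_022_a : ∃ t, chk3 f_pp_022_a t 37 26 2 = true := ex3_a k30_pp_022_a k31_pp_022_a

theorem s49_pp_022_a : ∃ t, chk3 f_pp_022_a t 37 26 1 = true := ex3_c s48_pp_022_a k32_pp_022_a

theorem s50_pp_022_a : ∃ t, chk3 f_pp_022_a t 37 13 1 = true := ex3_b s49_pp_022_a k33_pp_022_a

theorem s51_pp_022_a : ∃ t, chk3 f_pp_022_a t 37 6 1 = true := ex3_b k29_pp_022_a s50_pp_022_a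

theorem s52_pp_022_a : ∃ t, chk3 f_pp_022_a t 37 3 1 = true := ex3_b s51_pp_022_a k34_pp_022_a

theorem s53_pp_022_a : ∃ t, chk3 f_pp_022_a t 72 56 1 = true := ex3_c k23_pp_022_a k24_pp_022_a

theorem s54_pp_022_a : ∃ t, chk3 f_pp_022_a t 72 28 1 = true := ex3_b s53_pp_022_a k25_pp_022_a

theorem s55_pp_022_a : ∃ t, chk3 f_pp_022_a t 72 14 1 = true := ex3_b s54_pp_022_a k26_pp_022_a

theorem s56_pp_022_a : ∃ t, chk3 f_pp_022_a t 72 7 1 = true := ex3_b s55_pp_022_a k27_pp_022_a

theorem s57_pp_022_a : ∃ t, chk3 f_pp_022_a t 36 7 1 = true := ex3_a s56_pp_022_a k28_pp_022_a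

theorem s58_pp_022_a : ∃ t, chk3 f_pp_022_a t 36 55 2 = true := ex3_a k20_pp_022_a k21_pp_022_a

theorem s59_pp_022_a : ∃ t, chk3 f_pp_022_a t 36 27 2 = true := ex3_b k19_pp_022_a s58_pp_022_a

theorem s60_pp_022_a : ∃ t, chk3 f_pp_022_a t 36 27 1 = true := ex3_c s59_pp_022_a k22_pp_022_a

theorem s61_pp_022_a : ∃ t, chk3 f_pp_022_a t 36 13 1 = true := ex3_b k18_pp_022_a s60_pp_022_a

theorem s62_pp_022_a : ∃ t, chk3 f_pp_022_a t 36 6 1 = true := ex3_b k17_pp_022_a s61_pp_022_a

theorem s63_pp_022_a : ∃ t, chk3 f_pp_022_a t 36 3 1 = true := ex3_b s62_pp_022_a s57_pp_022_a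

theorem s64_pp_022_a : ∃ t, chk3 f_pp_022_a t 18 3 1 = true := ex3_a s63_pp_022_a s52_pp_022_a

theorem s65_pp_022_a : ∃ t, chk3 f_pp_022_a t 9 3 1 = true := ex3_a s64_pp_022_a s47_pp_022_a

theorem s66_pp_022_a : ∃ t, chk3 f_pp_022_a t 8 7 1 = true := ex3_a k15_pp_022_a k16_pp_022_a

theorem s67_pp_022_a : ∃ t, chk3 f_pp_022_a t 8 6 1 = true := ex3_a k13_pp_022_a k14_pp_022_a

theorem s68_pp_022_a : ∃ t, chk3 f_pp_022_a t 8 3 1 = true := ex3_b s67_pp_022_a s66_pp_022_a

theorem s69_pp_022_a : ∃ t, chk3 f_pp_022_a t 4 3 1 = true := ex3_a s68_pp_022_a s65_pp_022_a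

theorem s70_pp_022_a : ∃ t, chk3 f_pp_022_a t 2 3 1 = true := ex3_a s69_pp_022_a k41_pp_022_a

theorem s71_pp_022_a : ∃ t, chk3 f_pp_022_a t 41 4 1 = true := ex3_a k8_pp_022_a k9_pp_022_a

theorem s72_pp_022_a : ∃ t, chk3 f_pp_022_a t 41 2 1 = true := ex3_b s71_pp_022_a k10_pp_022_a

theorem s73_pp_022_a : ∃ t, chk3 f_pp_022_a t 40 5 1 = true := ex3_b k6_pp_022_a k7_pp_022_a

theorem s74_pp_022_a : ∃ t, chk3 f_pp_022_a t 40 2 1 = true := ex3_b k5_pp_022_a s73_pp_022_a

theorem s75_pp_022_a : ∃ t, chk3 f_pp_022_a t 20 2 1 = true := ex3_a s74_pp_022_a s72_pp_022_a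

theorem s76_pp_022_a : ∃ t, chk3 f_pp_022_a t 10 2 1 = true := ex3_a s75_pp_022_a k11_pp_022_a

theorem s77_pp_022_a : ∃ t, chk3 f_pp_022_a t 5 2 1 = true := ex3_a s76_pp_022_a k12_pp_022_a

theorem s78_pp_022_a : ∃ t, chk3 f_pp_022_a t 39 2 1 = true := ex3_b k3_pp_022_a k4_pp_022_a

theorem s79_pp_022_a : ∃ t, chk3 f_pp_022_a t 19 2 1 = true := ex3_a k2_pp_022_a s78_pp_022_a

theorem s80_pp_022_a : ∃ t, chk3 f_pp_022_a t 9 2 1 = true := ex3_a k1_pp_022_a s79_pp_022_a

theorem s81_pp_022_a : ∃ t, chk3 f_pp_022_a t 4 2 1 = true := ex3_a k0_pp_022_a s80_pp_022_a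

theorem s82_pp_022_a : ∃ t, chk3 f_pp_022_a t 2 2 1 = true := ex3_a s81_pp_022_a s77_pp_022_a

theorem s83_pp_022_a : ∃ t, chk3 f_pp_022_a t 2 1 1 = true := ex3_b s82_pp_022_a s70_pp_022_a

theorem s84_pp_022_a : ∃ t, chk3 f_pp_022_a t 1 1 1 = true := ex3_a s83_pp_022_a k42_pp_022_a

theorem c_pp_022_a : CertF 0 536870912 0 536870912 134217728 67108864 false true true .pp 0 2 2
    ndF0q0 ndF2q2a pcF2 cut_pp_022_a Ext.none :=
  certF2 (fam := false) (s1 := true) (s2 := true) (a := 0) (b := 2) (c := 2) (cn := .pp) (n1 := ndF0q0) (n2 := ndF2q2a) (pc := pcF2) (cut := cut_pp_022_a) (xt := Ext.none) (P1 := 0) (W1 := 536870912) (P2 := 0) (W2 := 536870912) (P3 := 134217728) (W3 := 67108864)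
    rfl (fun _ => rfl) s84_pp_022_a

noncomputable def cut_pp_022_b : Cut := Cut.of [[⟨0, 0, 0, 67108864⟩, ⟨1, 1, 0, 67108864⟩, ⟨2, 1, 0, 67108864⟩]]

noncomputable def f_pp_022_b : ℕ → ℕ → ℕ → ℕ → Bool := onCell 1073741824 536870912 1239849684 370763052 134217728 67108864
    (rowF 2 false true true .pp 0 2 2 (qsf 0 536870912 1239849684 370763052 2) ndF0q0 ndF2q2b pcF2 cut_pp_022_b Ext.none)

def k0_pp_022_b : ∃ t, chk3 f_pp_022_b t 4 4 1 = true :=
  ⟨(a (a (b (a (a (c (b (c (l 17090024) (l 16810728)) (l 17034160)) (b (a (l 16686184) (l 16677984)) (l 16736920))) (c (b (l 16922880) (l 17182144)) (l 16681944))) (c (b (c (l 17089448) (l 16867848)) (l 17186304)) (b (l 16642176) (l 16804824)))) (c (a (b (l 17323384) (l 17429072)) (l 17397864)) (a (b (a (l 17003568) (l 17016240)) (l 17162680)) (b (l 17006208) (l 17158736))))) (a (b (c (b (l 16827480) (l 17195840)) (b (l 16611472) (l 16781648))) (c (l 17419240) (b (l 16996984) (l 17158872)))) (b (c (b (c (l 17106040) (l 16844432)) (l 17209872))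 (b (l 16602816) (l 16763840))) (c (l 17444120) (b (l 16992312) (l 17163016)))))) (a (a (b (c (b (c (l 17121592) (l 16840720)) (l 17228000)) (b (l 16574392) (l 16750816))) (c (l 17472280) (b (l 16991800) (l 17170840)))) (b (b (a (c (a (l 16924152) (l 16738144)) (a (l 16536344) (l 16529296))) (c (c (l 17146248) (a (l 16841760) (l 16842872))) (l 16543776))) (c (a (c (l 17368272) (l 17118640)) (c (l 17383128) (l 17126168))) (a (l 16554888) (a (l 16741000) (l 16739448))))) (c (a (l 17452608) (l 17509776)) (a (b (a (l 16993384) (l 16994272)) (l 17178216)) (b (l 16890528) (l 17183840)))))) (a (b (c (a (b (c (l 17157960) (l 16740712)) (l 17161296)) (b (c (l 17171352) (l 16808656)) (l 17258128))) (a (b (a (l 16527136) (l 16528488)) (a (l 16738288) (l 16737512))) (b (l 16542384) (l 16590432)))) (c (a (l 17524064) (l 17539592)) (a (b (l 16976760) (l 17189112)) (b (l 17001424) (l 17195584))))) (b (c (b (a (c (l 17186408) (l 16857504)) (c (l 17203128) (l 16824344))) (a (l 17293352) (l 17308960))) (b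 (a (l 16545184) (l 16537600)) (a (l 16696232) (l 16740752)))) (c (b (l 17490608) (l 17625440)) (b (a (l 17006320) (l 17012488)) (l 17206528))))))), by decide +kernel⟩

def k1_pp_022_b : ∃ t, chk3 f_pp_022_b t 4 5 1 = true :=
  ⟨(a (a (b (c (l 17551528) (a (l 17317024) (l 17322952))) (c (l 17636136) (l 17452520))) (b (c (l 17609368) (b (l 17286616) (l 17382920))) (c (l 17701488) (l 17485408)))) (a (a (b (c (l 17659880) (l 17360520)) (l 17637128)) (c (b (l 17691616) (l 17789408)) (b (a (l 17373352) (l 17382360)) (l 17536664)))) (b (a (c (l 17724192) (a (l 17390256) (l 17399184))) (c (l 17759632) (l 17412664))) (a (c (l 17822408) (l 17557448)) (l 17719536))))), by decide +kernel⟩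

def k2_pp_022_b : ∃ t, chk3 f_pp_022_b t 40 4 1 = true :=
  ⟨(b (c (b (a (c (l 17221480) (l 16688176)) (c (l 17115568) (b (l 16792232) (l 16977232)))) (a (l 17325944) (l 17239408))) (a (b (c (l 16531456) (l 16537976)) (l 16682096)) (b (b (l 16551584) (l 16514016)) (l 16583152)))) (c (b (l 17527080) (l 17662680)) (b (a (l 17019960) (l 17028744)) (l 17225680)))), by decide +kernel⟩

def k3_pp_022_b : ∃ t, chk3 f_pp_022_b t 41 4 1 = true :=
  ⟨(b (a (c (b (c (b (l 17182000) (l 17335360)) (b (l 16553520) (l 16992056))) (c (l 17514608) (l 17212832))) (b (b (c (l 16557200) (l 16550792)) (l 16537840)) (b (l 16630240) (l 16837432)))) (c (b (a (c (b (l 17198296) (l 17352424)) (b (b (l 16636688) (l 16866512)) (l 17004080))) (c (a (b (l 17017720) (l 17361032)) (b (a (a (a (l 17209528) (a (l 17209936) (l 17042400))) (l 17169088)) (l 17087352)) (l 17366864))) (b (a (b (a (l 16767056) (l 16600936)) (l 16809232)) (b (a (a (a (l 16664880) (a (l 16623152) (c (l 16848200) (l 16545056)))) (l 16550440)) (l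 21507940343)) (a (a (a (l 16874304) (a (l 16874568) (l 16790824))) (l 16875336)) (l 16876984)))) (a (l 17010208) (a (a (a (l 17012552) (l 16866144)) (l 17013720)) (l 17015448)))))) (a (c (l 17532208) (l 17226064)) (c (l 17544120) (a (l 17232840) (l 17174544))))) (a (b (b (c (l 16548504) (l 16531352)) (l 16529368)) (l 16513344)) (b (a (b (c (b (l 16552976) (l 16534824)) (b (l 16546320) (l 16528144))) (c (l 16658248) (l 16516400))) (b (c (a (a (a (l 16538992) (a (l 16549424) (c (l 16551032) (l 16547720)))) (l 16549456)) (l 27413516471)) (a (a (a (l 16532376) (a (l 16532376) (b (l 16546656) (l 16528520)))) (l 16532448)) (l 16543168))) (b (a (c (l 16545256) (l 16541744)) (l 16524392)) (c (l 16532192) (l 16534072))))) (a (b (l 16576536) (l 16848416)) (b (b (c (l 16781952) (l 16505136)) (l 16518648)) (c (l 17000624) (l 16701392)))))))) (c (a (l 17630824) (a (l 17646600) (a (l 17654696) (l 17618216)))) (a (b (l 17038784) (l 17242584)) (a (b (l 17047160) (l 17251864)) (b (a (l 17051568) (c (l 17187864)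 (l 16921192))) (a (l 17256720) (l 17260040))))))), by decide +kernel⟩

def k4_pp_022_b : ∃ t, chk3 f_pp_022_b t 21 4 1 = true :=
  ⟨(b (c (b (a (c (b (a (b (a (l 17132576) (l 1)) (l 17268536)) (l 17241608)) (a (l 17382760) (l 17407384))) (b (a (b (a (c (l 16792464) (b (l 16647872) (l 16663984))) (l 1)) (a (l 16735864) (c (l 16987296) (b (l 16768816) (l 16821640))))) (a (b (l 1) (l 16857432)) (l 1))) (a (b (l 16961416) (l 17068256)) (b (a (l 8086638263) (l 16942888)) (l 17088984))))) (a (c (l 30098958967) (b (l 1) (b (l 1) (l 17045240)))) (l 1))) (a (c (l 17576408) (b (l 17193184) (l 17322320))) (c (l 17607360) (b (a (l 17225936) (l 17246160)) (l 17368064))))) (a (b (b (b (a (a (c (c (l 16545888) (l 16542392)) (l 16537256)) (l 1)) (l 1)) (a (c (a (l 16536624) (l 16538408)) (a (l 16529712) (l 16531032))) (c (a (l 16540256) (l 1)) (l 16533304)))) (a (c (b (l 16553608) (l 16718592)) (l 16529656)) (c (b (l 16543432) (l 16533824)) (b (l 16525952) (l 16518488))))) (b (a (c (l 16854816) (l 16526120))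 (c (l 16807224) (l 16535392))) (a (l 16774824) (l 16620416)))) (b (a (b (l 1) (b (l 1) (c (a (l 16534880) (l 16752176)) (l 16521984)))) (l 1)) (b (a (c (b (a (l 16839040) (l 3791393335)) (l 16929208)) (l 20434146631)) (c (b (l 16796792) (a (l 16943328) (l 16952200))) (l 16518304))) (a (c (l 17043800) (l 16730384)) (c (l 17063448) (l 16535216))))))) (c (b (a (l 17612040) (l 17661264)) (l 17769280)) (b (a (b (l 16776872) (l 17127856)) (b (c (l 17184720) (l 16892752)) (l 17159720))) (a (l 17276048) (l 17308048))))), by decide +kernel⟩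

def k5_pp_022_b : ∃ t, chk3 f_pp_022_b t 10 5 1 = true :=
  ⟨(a (a (b (c (l 17796616) (l 17435120)) (l 17749536)) (b (a (c (l 17826032) (l 17453840)) (c (l 17846616) (a (l 17463688) (l 17470512)))) (a (l 17773232) (c (l 17940800) (l 17638160))))) (b (c (l 17897064) (b (l 17442832) (l 17554688))) (c (l 17985232) (l 17671192)))), by decide +kernel⟩

def k6_pp_022_b : ∃ t, chk3 f_pp_022_b t 11 2 1 = true :=
  ⟨(b (a (b (a (b (l 1) (b (l 1) (c (c (l 17730480) (l 17412112)) (a (c (b (l 17045880) (l 17119560)) (a (b (l 16692536) (l 16798480)) (l 16513224))) (c (l 17101112) (l 16735224)))))) (l 1)) (c (b (a (l 15604182487) (l 115999138167)) (l 17871008)) (b (a (b (c (l 17226752) (a (l 16917048) (b (l 16898792) (l 16970864)))) (c (l 17337096) (l 17058016))) (a (b (c (l 17257952) (l 16890448)) (l 31172470407)) (b (l 1) (l 76269669127)))) (a (l 17345224) (l 17178440))))) (b (l 1) (c (b (l 88618825255) (a (l 17950560) (l 17986968))) (a (b (c (l 17363704) (l 23119124423)) (c (l 17562248) (b (l 17250688)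 (l 17348208)))) (b (l 1) (l 17461616)))))) (b (a (c (l 17988248) (b (l 17514184) (l 17622408))) (c (l 18089616) (a (l 17634656) (l 17676000)))) (a (l 17899168) (c (l 18151624) (l 17805968))))), by decide +kernel⟩

def k7_pp_022_b : ∃ t, chk3 f_pp_022_b t 2 3 1 = true :=
  ⟨(a (a (b (a (b (l 17597456) (l 17611056)) (b (l 17653184) (l 17671336))) (a (l 17581984) (l 17646248))) (a (a (b (l 17715064) (l 17698264)) (b (c (l 17835824) (l 17650456)) (l 17728400))) (b (a (b (l 17756056) (l 17778344)) (l 17801592)) (a (l 17757496) (l 17787320))))) (a (a (b (a (l 17831032) (a (l 17853816) (c (l 17980928) (l 17757576)))) (a (l 17816264) (l 17847336))) (b (b (l 17889472) (l 17907800)) (l 17882688))) (b (a (l 17962176) (l 18048384)) (a (l 17932000) (l 17985144))))), by decide +kernel⟩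

def k8_pp_022_b : ∃ t, chk3 f_pp_022_b t 3 1 1 = true :=
  ⟨(b (a (b (l 1) (a (c (b (l 168076956775) (l 18295752)) (b (a (l 146063968455) (l 17775920)) (l 17923416))) (b (l 1) (l 169150305943)))) (l 1)) (a (b (a (b (l 18149896) (l 18145104)) (b (l 18307888) (l 18309688))) (a (l 18097168) (l 18250016))) (b (a (l 18426840) (l 1)) (l 18501552)))), by decide +kernel⟩

theorem s9_pp_022_b : ∃ t, chk3 f_pp_022_b t 20 4 1 = true := ex3_a k2_pp_022_b k3_pp_022_b

theorem s10_pp_022_b : ∃ t, chk3 f_pp_022_b t 10 4 1 = true := ex3_a s9_pp_022_b k4_pp_022_b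

theorem s11_pp_022_b : ∃ t, chk3 f_pp_022_b t 10 2 1 = true := ex3_b s10_pp_022_b k5_pp_022_b

theorem s12_pp_022_b : ∃ t, chk3 f_pp_022_b t 5 2 1 = true := ex3_a s11_pp_022_b k6_pp_022_b

theorem s13_pp_022_b : ∃ t, chk3 f_pp_022_b t 4 2 1 = true := ex3_b k0_pp_022_b k1_pp_022_b

theorem s14_pp_022_b : ∃ t, chk3 f_pp_022_b t 2 2 1 = true := ex3_a s13_pp_022_b s12_pp_022_b

theorem s15_pp_022_b : ∃ t, chk3 f_pp_022_b t 2 1 1 = true := ex3_b s14_pp_022_b k7_pp_022_b

theorem s16_pp_022_b : ∃ t, chk3 f_pp_022_b t 1 1 1 = true := ex3_a s15_pp_022_b k8_pp_022_b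

theorem c_pp_022_b : CertF 0 536870912 1239849684 370763052 134217728 67108864 false true true .pp 0 2 2
    ndF0q0 ndF2q2b pcF2 cut_pp_022_b Ext.none :=
  certF2 (fam := false) (s1 := true) (s2 := true) (a := 0) (b := 2) (c := 2) (cn := .pp) (n1 := ndF0q0) (n2 := ndF2q2b) (pc := pcF2) (cut := cut_pp_022_b) (xt := Ext.none) (P1 := 0) (W1 := 536870912) (P2 := 1239849684) (W2 := 370763052) (P3 := 134217728) (W3 := 67108864)
    rfl (fun _ => rfl) s16_pp_022_b

noncomputable def f_pp_023 : ℕ → ℕ → ℕ → ℕ → Bool := onCell 0 536870912 1073741824 536870912 134217728 67108864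
    (rowF 1 false true true .up 0 2 3 (qsf 0 536870912 1610612736 536870912 2) ndF0q0 ndF2q3 pcF2 Cut.none Ext.none)

def k0_pp_023 : ∃ t, chk3 f_pp_023 t 1 1 1 = true :=
  ⟨(a (b (a (l 1) (b (l 1) (b (l 1) (l 314642930663)))) (b (a (l 287799717447) (l 281893948775)) (a (l 18277552) (l 18137400)))) (b (a (b (b (l 1) (b (l 1) (l 296388988439))) (b (b (b (l 17911912) (l 162171374343)) (l 17934840)) (l 169687568231))) (b (b (a (l 286187499687) (l 303367491735)) (b (b (l 17794432) (l 17819168)) (b (l 17798984) (l 17799000)))) (b (b (b (l 17796008) (l 17793720)) (l 17774096)) (l 17787552)))) (b (a (l 17938384) (l 17708648)) (a (l 17943728) (b (l 17702432) (l 17695920)))))), by decide +kernel⟩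

theorem c_pp_023 : CertF 0 536870912 1610612736 536870912 134217728 67108864 false true true .up 0 2 3
    ndF0q0 ndF2q3 pcF2 Cut.none Ext.none :=
  certF1 (fam := false) (s1 := true) (s2 := true) (a := 0) (b := 2) (c := 3) (cn := .up) (n1 := ndF0q0) (n2 := ndF2q3) (pc := pcF2) (cut := Cut.none) (xt := Ext.none) (P1 := 0) (W1 := 536870912) (P2 := 1610612736) (W2 := 536870912) (P3 := 134217728) (W3 := 67108864)
    rfl (fun _ => rfl) k0_pp_023

noncomputable def f_pp_033 : ℕ → ℕ → ℕ → ℕ → Bool := onCell 1610612736 536870912 1610612736 536870912 134217728 67108864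
    (rowF 2 false true true .pnn 0 3 3 (qsf 0 536870912 1610612736 536870912 3) ndF0q0 ndF2q3 pcF3 Cut.none Ext.none)

def k0_pp_033 : ∃ t, chk3 f_pp_033 t 1 1 1 = true :=
  ⟨(b (a (a (b (l 17977296) (l 17719592)) (a (l 243238864967) (b (l 1) (l 17998568)))) (a (a (l 235186050583) (l 1)) (l 1))) (a (a (b (a (l 17371000) (l 17515272)) (a (l 17107752) (l 17362512))) (b (a (l 17700280) (l 17857880)) (a (l 17570640) (l 17567424)))) (a (a (b (l 17878072) (l 4)) (l 18015936)) (l 4)))), by decide +kernel⟩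

theorem c_pp_033 : CertF 0 536870912 1610612736 536870912 134217728 67108864 false true true .pnn 0 3 3
    ndF0q0 ndF2q3 pcF3 Cut.none Ext.none :=
  certF2 (fam := false) (s1 := true) (s2 := true) (a := 0) (b := 3) (c := 3) (cn := .pnn) (n1 := ndF0q0) (n2 := ndF2q3) (pc := pcF3) (cut := Cut.none) (xt := Ext.none) (P1 := 0) (W1 := 536870912) (P2 := 1610612736) (W2 := 536870912) (P3 := 134217728) (W3 := 67108864)
    rfl (fun _ => rfl) k0_pp_033

noncomputable def f_pp_101 : ℕ → ℕ → ℕ → ℕ → Bool := onCell 536870912 536870912 536870912 536870912 134217728 67108864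
    (rowF 0 false true true .npn 1 0 1 (qsf 536870912 536870912 536870912 536870912 0) ndF0q1 ndF2q1 pcF0 Cut.none Ext.none)

def k0_pp_101 : ∃ t, chk3 f_pp_101 t 1 1 1 = true :=
  ⟨(a (l 3) (l 5)), by decide +kernel⟩

theorem c_pp_101 : CertF 536870912 536870912 536870912 536870912 134217728 67108864 false true true .npn 1 0 1
    ndF0q1 ndF2q1 pcF0 Cut.none Ext.none :=
  certF0 (fam := false) (s1 := true) (s2 := true) (a := 1) (b := 0) (c := 1) (cn := .npn) (n1 := ndF0q1) (n2 := ndF2q1) (pc := pcF0) (cut := Cut.none) (xt := Ext.none) (P1 := 536870912) (W1 := 536870912) (P2 := 536870912) (W2 := 536870912) (P3 := 134217728) (W3 := 67108864)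
    rfl k0_pp_101

noncomputable def f_pp_102_a : ℕ → ℕ → ℕ → ℕ → Bool := onCell 536870912 536870912 0 536870912 134217728 67108864
    (rowF 0 false true true .npp 1 0 2 (qsf 536870912 536870912 0 536870912 0) ndF0q1 ndF2q2a pcF0 Cut.none Ext.none)

def k0_pp_102_a : ∃ t, chk3 f_pp_102_a t 1 1 1 = true :=
  ⟨(l 3), by decide +kernel⟩

theorem c_pp_102_a : CertF 536870912 536870912 0 536870912 134217728 67108864 false true true .npp 1 0 2
    ndF0q1 ndF2q2a pcF0 Cut.none Ext.none :=
  certF0 (fam := false) (s1 := true) (s2 := true) (a := 1) (b := 0) (c := 2) (cn := .npp) (n1 := ndF0q1) (n2 := ndF2q2a) (pc := pcF0) (cut := Cut.none) (xt := Ext.none) (P1 := 536870912) (W1 := 536870912) (P2 := 0) (W2 := 536870912) (P3 := 134217728) (W3 := 67108864)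
    rfl k0_pp_102_a

noncomputable def f_pp_102_b : ℕ → ℕ → ℕ → ℕ → Bool := onCell 536870912 536870912 0 536870912 134217728 67108864
    (rowF 1 false true true .npp 1 0 2 (qsf 536870912 536870912 1239849684 370763052 0) ndF0q1 ndF2q2b pcF0 Cut.none Ext.none)

def k0_pp_102_b : ∃ t, chk3 f_pp_102_b t 1 1 1 = true :=
  ⟨(l 3), by decide +kernel⟩

theorem c_pp_102_b : CertF 536870912 536870912 1239849684 370763052 134217728 67108864 false true true .npp 1 0 2
    ndF0q1 ndF2q2b pcF0 Cut.none Ext.none :=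
  certF1 (fam := false) (s1 := true) (s2 := true) (a := 1) (b := 0) (c := 2) (cn := .npp) (n1 := ndF0q1) (n2 := ndF2q2b) (pc := pcF0) (cut := Cut.none) (xt := Ext.none) (P1 := 536870912) (W1 := 536870912) (P2 := 1239849684) (W2 := 370763052) (P3 := 134217728) (W3 := 67108864)
    rfl (fun _ => rfl) k0_pp_102_b

noncomputable def f_pp_112_a : ℕ → ℕ → ℕ → ℕ → Bool := onCell 536870912 536870912 0 536870912 134217728 67108864
    (rowF 0 false true true .dn 1 1 2 (qsf 536870912 536870912 0 536870912 1) ndF0q1 ndF2q2a pcF1 Cut.none Ext.none)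

def k0_pp_112_a : ∃ t, chk3 f_pp_112_a t 1 1 1 = true :=
  ⟨(l 3), by decide +kernel⟩

theorem c_pp_112_a : CertF 536870912 536870912 0 536870912 134217728 67108864 false true true .dn 1 1 2
    ndF0q1 ndF2q2a pcF1 Cut.none Ext.none :=
  certF0 (fam := false) (s1 := true) (s2 := true) (a := 1) (b := 1) (c := 2) (cn := .dn) (n1 := ndF0q1) (n2 := ndF2q2a) (pc := pcF1) (cut := Cut.none) (xt := Ext.none) (P1 := 536870912) (W1 := 536870912) (P2 := 0) (W2 := 536870912) (P3 := 134217728) (W3 := 67108864)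
    rfl k0_pp_112_a

noncomputable def f_pp_112_b : ℕ → ℕ → ℕ → ℕ → Bool := onCell 536870912 536870912 536870912 536870912 134217728 67108864
    (rowF 1 false true true .dn 1 1 2 (qsf 536870912 536870912 1239849684 370763052 1) ndF0q1 ndF2q2b pcF1 Cut.none Ext.none)

def k0_pp_112_b : ∃ t, chk3 f_pp_112_b t 1 1 1 = true :=
  ⟨(b (l 3) (b (l 3) (a (b (l 3) (a (a (l 151567095287) (l 164988736039)) (l 2))) (l 2)))), by decide +kernel⟩

theorem c_pp_112_b : CertF 536870912 536870912 1239849684 370763052 134217728 67108864 false true true .dn 1 1 2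
    ndF0q1 ndF2q2b pcF1 Cut.none Ext.none :=
  certF1 (fam := false) (s1 := true) (s2 := true) (a := 1) (b := 1) (c := 2) (cn := .dn) (n1 := ndF0q1) (n2 := ndF2q2b) (pc := pcF1) (cut := Cut.none) (xt := Ext.none) (P1 := 536870912) (W1 := 536870912) (P2 := 1239849684) (W2 := 370763052) (P3 := 134217728) (W3 := 67108864)
    rfl (fun _ => rfl) k0_pp_112_b

noncomputable def cut_pp_113 : Cut := Cut.of [[⟨0, 1, 0, 39843005⟩, ⟨1, 1, 0, 39843005⟩, ⟨2, 2, 0, 5814905⟩]]

noncomputable def f_pp_113 : ℕ → ℕ → ℕ → ℕ → Bool := onCell 536870912 536870912 536870912 536870912 134217728 67108864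
    (rowF 1 false true true .nn 1 1 3 (qsf 536870912 536870912 1610612736 536870912 1) ndF0q1 ndF2q3 pcF1 cut_pp_113 Ext.none)

def k0_pp_113 : ∃ t, chk3 f_pp_113 t 1 1 1 = true :=
  ⟨(b (l 3) (b (l 3) (b (a (l 3) (l 3)) (b (a (l 3) (l 3)) (a (a (a (l 17658296) (l 17591160)) (a (l 17497440) (l 17378768))) (a (a (l 17243816) (l 178409948311)) (a (a (l 182167658759) (l 183777949255)) (b (l 3) (a (l 189683398839) (b (l 3) (a (l 193441397975) (b (l 3) (a (l 195588811847) (a (l 193978196119) (a (l 207399967399) (b (l 3) (l 6))))))))))))))))), by decide +kernel⟩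

theorem c_pp_113 : CertF 536870912 536870912 1610612736 536870912 134217728 67108864 false true true .nn 1 1 3
    ndF0q1 ndF2q3 pcF1 cut_pp_113 Ext.none :=
  certF1 (fam := false) (s1 := true) (s2 := true) (a := 1) (b := 1) (c := 3) (cn := .nn) (n1 := ndF0q1) (n2 := ndF2q3) (pc := pcF1) (cut := cut_pp_113) (xt := Ext.none) (P1 := 536870912) (W1 := 536870912) (P2 := 1610612736) (W2 := 536870912) (P3 := 134217728) (W3 := 67108864)
    rfl (fun _ => rfl) k0_pp_113

noncomputable def cut_pp_123 : Cut := Cut.of [[⟨0, 1, 0, 39843005⟩, ⟨1, 1, 0, 39843005⟩, ⟨2, 2, 0, 5814905⟩]]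

noncomputable def f_pp_123 : ℕ → ℕ → ℕ → ℕ → Bool := onCell 536870912 536870912 1073741824 536870912 134217728 67108864
    (rowF 1 false true true .npn 1 2 3 (qsf 536870912 536870912 1610612736 536870912 2) ndF0q1 ndF2q3 pcF2 cut_pp_123 Ext.none)

def k0_pp_123 : ∃ t, chk3 f_pp_123 t 1 1 1 = true :=
  ⟨(a (b (a (b (b (a (l 17690256) (l 17604592)) (b (b (l 17639192) (l 17630984)) (b (l 17620888) (l 17611144)))) (b (b (b (l 17599080) (l 17651816)) (l 17556472)) (l 17722800))) (b (b (a (l 17496616) (l 17366264)) (b (b (l 17409104) (l 17480728)) (b (l 17383008) (l 17369904)))) (b (b (b (l 17354576) (l 17530480)) (l 17303336)) (b (l 17255320) (l 17220856))))) (a (b (l 17526184) (b (l 17471288) (l 17398784))) (b (b (l 17225376) (a (l 17291536) (l 17176712))) (a (b (l 17281256) (l 2)) (l 2))))) (b (a (b (b (a (l 17221960) (l 17223120)) (b (b (l 17121280) (l 17213616)) (b (l 17094824) (l 17081880)))) (b (b (b (l 17066520) (a (l 17127784) (l 16986728))) (l 17032632)) (a (l 17031496) (l 16941584))))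 (b (a (b (b (l 17057712) (l 16904392)) (b (b (l 16914856) (l 16903344)) (b (l 16890192) (l 16877368)))) (b (b (b (a (l 16884368) (b (a (l 16819816) (a (l 16785072) (a (l 16804472) (b (l 6) (l 16773488))))) (l 16855880))) (l 208943789015)) (l 16918976)) (b (b (l 16785904) (l 2)) (l 2)))) (a (b (b (b (l 16861920) (l 2)) (l 2)) (l 2)) (l 2)))) (a (b (a (b (l 17037304) (l 2)) (l 2)) (l 2)) (l 2)))), by decide +kernel⟩

theorem c_pp_123 : CertF 536870912 536870912 1610612736 536870912 134217728 67108864 false true true .npn 1 2 3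
    ndF0q1 ndF2q3 pcF2 cut_pp_123 Ext.none :=
  certF1 (fam := false) (s1 := true) (s2 := true) (a := 1) (b := 2) (c := 3) (cn := .npn) (n1 := ndF0q1) (n2 := ndF2q3) (pc := pcF2) (cut := cut_pp_123) (xt := Ext.none) (P1 := 536870912) (W1 := 536870912) (P2 := 1610612736) (W2 := 536870912) (P3 := 134217728) (W3 := 67108864)
    rfl (fun _ => rfl) k0_pp_123

noncomputable def f_pp_133 : ℕ → ℕ → ℕ → ℕ → Bool := onCell 1610612736 536870912 1610612736 536870912 134217728 67108864
    (rowF 2 false true true .dn 1 3 3 (qsf 536870912 536870912 1610612736 536870912 3) ndF0q1 ndF2q3 pcF3 Cut.none Ext.none)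

def k0_pp_133 : ∃ t, chk3 f_pp_133 t 1 1 1 = true :=
  ⟨(a (b (l 1) (a (b (l 1) (a (l 17308272) (l 1))) (l 1))) (l 1)), by decide +kernel⟩

theorem c_pp_133 : CertF 536870912 536870912 1610612736 536870912 134217728 67108864 false true true .dn 1 3 3
    ndF0q1 ndF2q3 pcF3 Cut.none Ext.none :=
  certF2 (fam := false) (s1 := true) (s2 := true) (a := 1) (b := 3) (c := 3) (cn := .dn) (n1 := ndF0q1) (n2 := ndF2q3) (pc := pcF3) (cut := Cut.none) (xt := Ext.none) (P1 := 536870912) (W1 := 536870912) (P2 := 1610612736) (W2 := 536870912) (P3 := 134217728) (W3 := 67108864)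
    rfl (fun _ => rfl) k0_pp_133

noncomputable def f_pp_202_a : ℕ → ℕ → ℕ → ℕ → Bool := onCell 0 536870912 0 536870912 134217728 67108864
    (rowF 0 false true true .pp 2 0 2 (qsf 0 536870912 0 536870912 0) ndF0q2 ndF2q2a pcF0 Cut.none Ext.none)

def k0_pp_202_a : ∃ t, chk3 f_pp_202_a t 1 1 1 = true :=
  ⟨(l 3), by decide +kernel⟩

theorem c_pp_202_a : CertF 0 536870912 0 536870912 134217728 67108864 false true true .pp 2 0 2
    ndF0q2 ndF2q2a pcF0 Cut.none Ext.none :=
  certF0 (fam := false) (s1 := true) (s2 := true) (a := 2) (b := 0) (c := 2) (cn := .pp) (n1 := ndF0q2) (n2 := ndF2q2a) (pc := pcF0) (cut := Cut.none) (xt := Ext.none) (P1 := 0) (W1 := 536870912) (P2 := 0) (W2 := 536870912) (P3 := 134217728) (W3 := 67108864)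
    rfl k0_pp_202_a

noncomputable def f_pp_202_b : ℕ → ℕ → ℕ → ℕ → Bool := onCell 0 536870912 1239849684 370763052 134217728 67108864
    (rowF 0 false true true .pp 2 0 2 (qsf 0 536870912 1239849684 370763052 0) ndF0q2 ndF2q2b pcF0 Cut.none Ext.none)

def k0_pp_202_b : ∃ t, chk3 f_pp_202_b t 1 1 1 = true :=
  ⟨(l 3), by decide +kernel⟩

theorem c_pp_202_b : CertF 0 536870912 1239849684 370763052 134217728 67108864 false true true .pp 2 0 2
    ndF0q2 ndF2q2b pcF0 Cut.none Ext.none :=
  certF0 (fam := false) (s1 := true) (s2 := true) (a := 2) (b := 0) (c := 2) (cn := .pp) (n1 := ndF0q2) (n2 := ndF2q2b) (pc := pcF0) (cut := Cut.none) (xt := Ext.none) (P1 := 0) (W1 := 536870912) (P2 := 1239849684) (W2 := 370763052) (P3 := 134217728) (W3 := 67108864)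
    rfl k0_pp_202_b

noncomputable def f_pp_203 : ℕ → ℕ → ℕ → ℕ → Bool := onCell 0 536870912 0 536870912 134217728 67108864
    (rowF 1 false true true .up 2 0 3 (qsf 0 536870912 1610612736 536870912 0) ndF0q2 ndF2q3 pcF0 Cut.none Ext.none)

def k0_pp_203 : ∃ t, chk3 f_pp_203 t 1 1 1 = true :=
  ⟨(l 3), by decide +kernel⟩

theorem c_pp_203 : CertF 0 536870912 1610612736 536870912 134217728 67108864 false true true .up 2 0 3
    ndF0q2 ndF2q3 pcF0 Cut.none Ext.none :=
  certF1 (fam := false) (s1 := true) (s2 := true) (a := 2) (b := 0) (c := 3) (cn := .up) (n1 := ndF0q2) (n2 := ndF2q3) (pc := pcF0) (cut := Cut.none) (xt := Ext.none) (P1 := 0) (W1 := 536870912) (P2 := 1610612736) (W2 := 536870912) (P3 := 134217728) (W3 := 67108864)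
    rfl (fun _ => rfl) k0_pp_203

noncomputable def cut_pp_213 : Cut := Cut.of [[⟨0, 1, 0, 39843005⟩, ⟨1, 1, 0, 39843005⟩, ⟨2, 2, 0, 5814905⟩]]

noncomputable def f_pp_213 : ℕ → ℕ → ℕ → ℕ → Bool := onCell 0 536870912 1610612736 536870912 134217728 67108864
    (rowF 0 false true true .pnn 2 1 3 (qsf 0 536870912 1610612736 536870912 1) ndF0q2 ndF2q3 pcF1 cut_pp_213 Ext.none)

def k0_pp_213 : ∃ t, chk3 f_pp_213 t 1 1 1 = true :=
  ⟨(b (l 3) (a (l 3) (b (l 3) (a (l 3) (b (l 3) (a (l 3) (b (l 3) (a (l 3) (b (l 3) (b (l 3) (b (l 3) (l 6)))))))))))), by decide +kernel⟩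

theorem c_pp_213 : CertF 0 536870912 1610612736 536870912 134217728 67108864 false true true .pnn 2 1 3
    ndF0q2 ndF2q3 pcF1 cut_pp_213 Ext.none :=
  certF0 (fam := false) (s1 := true) (s2 := true) (a := 2) (b := 1) (c := 3) (cn := .pnn) (n1 := ndF0q2) (n2 := ndF2q3) (pc := pcF1) (cut := cut_pp_213) (xt := Ext.none) (P1 := 0) (W1 := 536870912) (P2 := 1610612736) (W2 := 536870912) (P3 := 134217728) (W3 := 67108864)
    rfl k0_pp_213

noncomputable def f_pm_001 : ℕ → ℕ → ℕ → ℕ → Bool := onCell 0 536870912 536870912 536870912 134217728 67108864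
    (rowF 0 false true false .up 0 0 1 (qsf 0 536870912 536870912 536870912 0) ndF0q0 ndF2q1 pcF0 Cut.none Ext.none)

def k0_pm_001 : ∃ t, chk3 f_pm_001 t 1 1 1 = true :=
  ⟨(l 4), by decide +kernel⟩

theorem c_pm_001 : CertF 0 536870912 536870912 536870912 134217728 67108864 false true false .up 0 0 1
    ndF0q0 ndF2q1 pcF0 Cut.none Ext.none :=
  certF0 (fam := false) (s1 := true) (s2 := false) (a := 0) (b := 0) (c := 1) (cn := .up) (n1 := ndF0q0) (n2 := ndF2q1) (pc := pcF0) (cut := Cut.none) (xt := Ext.none) (P1 := 0) (W1 := 536870912) (P2 := 536870912) (W2 := 536870912) (P3 := 134217728) (W3 := 67108864)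
    rfl k0_pm_001

noncomputable def f_pm_011 : ℕ → ℕ → ℕ → ℕ → Bool := onCell 0 536870912 536870912 536870912 134217728 67108864
    (rowF 0 false true false .pnn 0 1 1 (qsf 0 536870912 536870912 536870912 1) ndF0q0 ndF2q1 pcF1 Cut.none Ext.none)

def k0_pm_011 : ∃ t, chk3 f_pm_011 t 1 1 1 = true :=
  ⟨(l 4), by decide +kernel⟩

theorem c_pm_011 : CertF 0 536870912 536870912 536870912 134217728 67108864 false true false .pnn 0 1 1
    ndF0q0 ndF2q1 pcF1 Cut.none Ext.none :=
  certF0 (fam := false) (s1 := true) (s2 := false) (a := 0) (b := 1) (c := 1) (cn := .pnn) (n1 := ndF0q0) (n2 := ndF2q1) (pc := pcF1) (cut := Cut.none) (xt := Ext.none) (P1 := 0) (W1 := 536870912) (P2 := 536870912) (W2 := 536870912) (P3 := 134217728) (W3 := 67108864)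
    rfl k0_pm_011

end Pool.Agent.Strip051.G.I1_8_3_16.Tab.C.FB02

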