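import Pool.Agent.Strip051.G.I1_8_3_16.Tab

/-! # Certificates F8 (generated) -/

set_option linter.all false
set_option maxRecDepth 100000

namespace Pool.Agent.Strip051.G.I1_8_3_16.Tab.C.FB02

open Pool.Agent.Strip051.PB Pool.Agent.Strip051.PB.T
open Pool.Agent.Strip051.G.I1_8_3_16.Tab

noncomputable def cut_pm_012_a : Cut := Cut.of [[⟨0, 0, 0, 67108864⟩, ⟨1, 1, 0, 67108864⟩, ⟨2, 1, 0, 67108864⟩], [⟨0, 0, 1, 41943040⟩, ⟨1, 1, 2, 41943040⟩, ⟨2, 1, 0, 16777216⟩]]

noncomputable def f_pm_012_a : ℕ → ℕ → ℕ → ℕ → Bool := onCell 536870912 536870912 0 536870912 134217728 67108864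
    (rowF 2 false true false .pnp 0 1 2 (qsf 0 536870912 0 536870912 1) ndF0q0 ndF2q2a pcF1 cut_pm_012_a Ext.none)

def k0_pm_012_a : ∃ t, chk3 f_pm_012_a t 2 1 1 = true :=
  ⟨(b (a (a (l 2) (l 17748584)) (a (l 17791704) (b (l 17839720) (l 17836312)))) (a (b (a (l 2) (l 18008704)) (a (b (l 17745520) (c (l 17791712) (b (l 17665416) (l 17640144)))) (b (c (l 17808784) (l 17662776)) (c (b (l 17776432) (l 17735408)) (b (l 17623280) (a (l 17596952) (l 17563152))))))) (b (a (b (l 17782760) (l 17763848)) (b (l 17804624) (c (l 17859248) (l 17651824)))) (a (b (c (l 17802304) (l 17628560)) (c (b (l 17739448) (l 17675680)) (b (l 17562568) (a (l 17523720) (l 17475864))))) (b (c (l 17775040) (a (l 17582560) (l 17533128))) (b (c (l 17674904) (a (l 17492752) (l 17424240))) (c (a (l 17611392) (l 17551336)) (a (b (l 17436032) (l 17331032)) (b (l 17358256) (c (l 17363840) (a (l 17282048) (l 17230848)))))))))))), by decide +kernel⟩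

def k1_pm_012_a : ∃ t, chk3 f_pm_012_a t 6 2 1 = true :=
  ⟨(a (b (l 17886248) (c (l 17980232) (l 17735152))) (b (c (l 18044408) (l 17718848)) (c (a (l 17996536) (l 17973584)) (a (l 17677488) (b (l 17630360) (l 17541784)))))), by decide +kernel⟩

def k2_pm_012_a : ∃ t, chk3 f_pm_012_a t 14 2 1 = true :=
  ⟨(a (b (c (l 18012232) (l 17568848)) (c (b (l 17952288) (l 17848968)) (b (l 17484264) (a (l 17410832) (l 17288032))))) (b (c (a (l 17947520) (l 17874480)) (a (l 17421008) (b (l 17309728) (l 17255944)))) (c (a (b (l 17859600) (l 17718184)) (b (l 17761928) (c (l 17754424) (l 17417296)))) (a (b (l 17302456) (b (l 17181632) (l 17070136))) (b (l 17004608) (b (l 16980272) (l 16841552))))))), by decide +kernel⟩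

def k3_pm_012_a : ∃ t, chk3 f_pm_012_a t 15 4 1 = true :=
  ⟨(a (c (b (a (l 17795920) (l 17650912)) (a (l 17746144) (c (l 17781720) (l 17387400)))) (b (a (l 17128832) (c (l 17076848) (l 16693680))) (a (c (l 17231352) (l 16887632)) (b (l 16685096) (l 16572344))))) (c (a (c (b (l 17664464) (l 17562024)) (b (l 17074048) (b (l 17164088) (l 16919720)))) (b (c (a (l 17478808) (b (l 17336960) (l 17310024))) (b (a (l 16994480) (l 16691424)) (a (l 16967024) (b (l 16776856) (l 16709608))))) (c (b (a (l 17418432) (l 17082648)) (a (l 17336176) (c (l 17297232) (l 16948576)))) (b (a (l 16907408) (l 16463296)) (a (l 16728264) (l 16478056)))))) (b (a (b (l 16444768) (l 16438016)) (b (c (l 16451480) (l 16447360)) (a (l 16447704) (c (l 16459576) (l 16455232))))) (a (a (l 16453208) (b (l 16442688) (l 16448984))) (b (c (a (l 16454408) (l 16464168)) (a (l 16450344) (l 16459832))) (c (a (l 16460640) (l 16470344)) (a (l 16456648) (l 16466112)))))))), by decide +kernel⟩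

def k4_pm_012_a : ∃ t, chk3 f_pm_012_a t 30 5 1 = true :=
  ⟨(c (b (a (c (l 17803504) (l 17442832)) (c (l 17634600) (b (l 17275344) (l 17161448)))) (a (c (l 17595240) (b (l 17282088) (l 17131272))) (c (b (l 17452808) (l 17028256)) (b (l 16885536) (l 16564832))))) (b (a (b (l 16912488) (l 16765144)) (b (l 16492840) (l 16462632))) (a (b (l 16627912) (l 16536080)) (b (l 16474512) (c (l 16468344) (l 16465984)))))), by decide +kernel⟩

def k5_pm_012_a : ∃ t, chk3 f_pm_012_a t 31 5 1 = true :=
  ⟨(b (a (c (c (b (l 17455616) (a (l 17399328) (l 17243240))) (b (a (l 17061944) (l 16885800)) (a (l 16922760) (l 16725432)))) (b (c (l 16457688) (l 16450280)) (a (l 16456904) (l 16477208)))) (c (c (c (b (a (l 17352808) (l 17058848)) (a (l 17195704) (b (l 17033056) (l 16821704)))) (b (a (l 17081936) (b (l 16909992) (l 16825648))) (a (l 16892216) (l 16502368)))) (b (a (l 16570776) (b (l 16480072) (l 16484376))) (a (l 16489456) (b (l 16489128) (l 16494368))))) (b (c (a (l 16468536) (b (l 16476040)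 (l 16480440))) (a (l 16464688) (l 16484664))) (a (c (l 16478264) (l 16474640)) (c (b (l 16485320) (l 16490712)) (b (l 16481432) (l 16486960))))))) (a (c (c (b (a (l 17237216) (l 16825272)) (a (l 16919416) (b (l 16878904) (l 16737448)))) (b (l 16494368) (a (l 16498160) (l 16496656)))) (b (c (l 16496000) (l 16471984)) (c (a (l 16483776) (l 16493936)) (l 16507072)))) (c (b (c (a (b (l 16730856) (l 16626504)) (a (l 16514696) (b (l 16506288) (l 16512184)))) (a (l 16493256) (b (l 16500128) (l 16516904)))) (c (a (b (l 16566000) (l 16513280)) (b (c (l 16517056) (l 16515568)) (c (l 16524256) (l 16522872)))) (a (l 16527856) (a (l 16514504) (b (l 16515800) (l 16523280)))))) (b (a (c (l 16490016) (l 16486688)) (c (b (l 16496624) (l 16503096)) (b (l 16493032) (l 16499680)))) (a (c (l 16504008) (l 16501040)) (c (b (l 16510152) (l 16528312)) (b (l 16506928) (l 16514808)))))))), by decide +kernel⟩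

def k6_pm_012_a : ∃ t, chk3 f_pm_012_a t 6 6 1 = true :=
  ⟨(a (a (b (l 17799264) (l 17676944)) (b (l 17774696) (c (l 17816376) (l 17514688)))) (a (b (c (l 17890632) (l 17545728)) (c (l 17752000) (b (l 17435472) (l 17340064)))) (b (c (l 17820040) (a (l 17442416) (l 17346616))) (c (b (l 17686672) (a (l 17611136) (l 17517944))) (b (a (l 17301496) (l 17179056)) (a (l 17180304) (l 17035080))))))), by decide +kernel⟩

def k7_pm_012_a : ∃ t, chk3 f_pm_012_a t 12 7 1 = true :=
  ⟨(b (c (a (l 17720976) (b (l 17702992) (l 17603000))) (a (b (l 17498000) (l 17418824)) (b (l 17393440) (a (l 17329440) (l 17250528))))) (b (a (c (l 17584456) (a (l 17354432) (l 17274336))) (c (a (l 17512784) (l 17343728)) (a (b (l 17249472) (l 17192048)) (b (l 17160144) (c (l 17175520) (l 17016320)))))) (a (c (b (l 17499312) (a (l 17461304) (l 17409616))) (b (a (l 17280616) (c (l 17280320) (l 17150728))) (a (c (l 17286824) (l 17170672)) (c (l 17222904) (b (l 17111440) (a (l 17105656) (l 17064656))))))) (c (b (a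 (l 17414928) (c (l 17417624) (l 17262840))) (a (c (l 17412096) (l 17276696)) (c (l 17337648) (b (l 17207792) (a (l 17194912) (l 17145840)))))) (b (a (c (l 17203312) (b (l 17076520) (l 17047880))) (c (b (l 17125024) (l 17091112)) (b (l 16968784) (a (l 16967336) (l 14))))) (a (b (c (l 17156808) (a (l 17044560) (l 16993664))) (c (a (l 17148360) (l 17102528)) (a (b (l 17024248) (l 17011008)) (c (l 17000032) (l 14))))) (b (c (a (l 17084336) (l 17029384)) (a (l 16874584) (l 14))) (c (a (b (l 17059968) (l 17044000)) (c (l 17033448) (l 14))) (l 14))))))))), by decide +kernel⟩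

def k8_pm_012_a : ∃ t, chk3 f_pm_012_a t 13 14 1 = true :=
  ⟨(a (c (b (l 17601368) (a (l 17510888) (l 17321200))) (b (a (l 17275576) (l 17170184)) (a (b (l 17184712) (l 17118472)) (b (l 17065032) (l 16925832))))) (c (b (a (l 17477136) (c (l 17484168) (l 17236064))) (a (c (l 17427240) (l 17119912)) (b (c (l 17347728) (l 17095736)) (c (l 17245792) (l 16992440))))) (b (a (l 16805216) (b (l 16909832) (l 16817032))) (a (b (l 16891904) (l 16698144)) (b (l 16717480) (l 16601728)))))), by decide +kernel⟩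

def k9_pm_012_a : ∃ t, chk3 f_pm_012_a t 13 30 1 = true :=
  ⟨(a (c (a (b (l 17405592) (l 17202384)) (b (l 17180312) (c (l 17316784) (l 17058120)))) (a (b (l 16901984) (c (l 17064568) (b (l 16906536) (l 16871008)))) (b (c (l 17008304) (l 16809568)) (a (c (l 16963296) (l 16772752)) (c (l 16885088) (l 16683560)))))) (c (a (b (c (l 17289080) (l 17066144)) (c (a (l 17223928) (l 17150920)) (a (l 17010408) (l 16902904)))) (b (c (l 16926552) (a (l 16933880) (l 16829344))) (c (a (l 17046296) (b (l 17001672) (l 16940672))) (a (l 16783200) (l 16711968))))) (b (a (c (l 16801152) (l 16619936)) (c (l 16629944) (l 16611664))) (a (b (l 16650904) (c (l 16724528) (l 16649984))) (a (l 16666024) (l 16666600)))))), by decide +kernel⟩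

def k10_pm_012_a : ∃ t, chk3 f_pm_012_a t 26 31 1 = true :=
  ⟨(b (b (c (a (l 17099608) (c (l 17247216) (l 17013080))) (a (c (l 17008560) (l 16793968)) (c (a (l 16902624) (l 16820928)) (l 16670424)))) (c (a (c (l 17310616) (l 17141056)) (c (l 17199792) (a (l 17046544) (l 14)))) (a (c (a (l 17003960) (l 14)) (l 14)) (l 14)))) (c (a (c (b (l 17266936) (l 17139088)) (c (b (l 17142520) (a (l 17130640) (l 17071968))) (b (l 17017616) (a (l 17051992) (l 14))))) (b (c (a (l 17183584) (l 17119104)) (a (c (l 17048944) (l 14)) (l 14))) (c (a (l 17032328) (c (l 17117120) (l 14))) (l 14)))) (a (b (c (a (l 16863488) (l 14)) (l 14)) (l 14)) (l 14)))), by decide +kernel⟩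

def k11_pm_012_a : ∃ t, chk3 f_pm_012_a t 27 62 1 = true :=
  ⟨(c (a (c (a (b (l 17148192) (l 17097048)) (b (l 17070520) (l 14))) (b (a (l 16938520) (l 16847528)) (l 14))) (b (c (a (l 16981680) (l 16816664)) (a (l 16743800) (l 16674888))) (l 14))) (a (c (b (l 16677904) (l 14)) (b (l 16666160) (l 16699776))) (c (b (l 16681136) (a (l 16687824) (l 16688536))) (a (l 16696952) (l 16697864))))), by decide +kernel⟩

def k12_pm_012_a : ∃ t, chk3 f_pm_012_a t 54 63 1 = true :=
  ⟨(c (b (c (a (c (l 17096512) (l 14)) (l 14)) (l 14)) (l 14)) (b (c (l 14) (a (l 16710392) (l 16711024))) (b (c (l 14) (a (c (l 14) (l 16711800)) (c (l 16714544) (l 16712560)))) (c (l 14) (c (c (l 14) (a (l 14) (b (l 16720656) (a (l 14) (b (l 16724328) (a (l 14) (l 16726712))))))) (a (a (l 14) (a (l 14) (b (l 16718776) (c (l 14) (l 16725304))))) (b (a (l 16719056) (l 16719520)) (b (a (l 16722376) (l 16722848)) (a (c (a (l 14) (l 16725256)) (a (l 16724008) (l 16724240))) (c (a (l 16725488) (l 16725728)) (a (l 16724488)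 (l 16724752)))))))))))), by decide +kernel⟩

def k13_pm_012_a : ∃ t, chk3 f_pm_012_a t 55 63 1 = true :=
  ⟨(c (l 14) (b (c (a (b (l 16700648) (l 16709360)) (c (l 16717176) (l 16715480))) (a (l 16711872) (l 16718176))) (b (c (a (c (l 14) (l 16727736)) (c (a (l 14) (l 16720360)) (l 16728688))) (a (c (l 16715400) (l 16713544)) (c (l 16716472) (l 16714744)))) (c (c (a (l 14) (a (l 14) (b (l 16727088) (c (l 14) (b (l 16730048) (a (l 14) (l 16732504))))))) (a (a (l 14) (b (l 16724304) (c (l 14) (b (l 16727200) (a (l 14) (l 16729624)))))) (b (a (l 16724808) (l 16725368)) (b (a (l 16728176) (l 16728752)) (a (c (a (l 14) (l 16731064)) (a (l 16729888) (l 16730176))) (c (a (l 16731352) (l 16731648)) (a (l 16730472) (l 16730784)))))))) (a (b (c (a (l 16721944) (l 16722456)) (a (l 16720040) (l 16720616))) (b (c (a (l 16725288) (l 16725808)) (a (l 16723376) (l 16723960))) (c (a (c (a (l 14) (l 16728168)) (a (l 16726960) (l 16727216))) (c (a (l 16728424) (l 16728696)) (a (l 16727488) (l 16727776))))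 (a (c (a (l 16725992) (l 16726264)) (l 16725136)) (c (l 16729288) (l 16725736)))))) (b (c (a (l 16723024) (l 16723648)) (a (l 16721240) (l 16721928))) (c (a (a (c (l 16727856) (l 16726952)) (c (l 16728160) (l 16727264))) (b (l 16727016) (c (a (l 16729592) (l 16729920)) (l 16728848)))) (a (b (l 16724600) (c (l 16727296) (l 16726392))) (a (l 16726280) (l 16726640)))))))))), by decide +kernel⟩

def k14_pm_012_a : ∃ t, chk3 f_pm_012_a t 14 6 1 = true :=
  ⟨(a (b (c (a (l 17720504) (l 17537328)) (a (l 17095864) (b (l 17128672) (l 16987224)))) (c (a (b (l 17546680) (l 17246072)) (b (l 17305936) (c (l 17379992) (l 17026464)))) (a (b (l 17020352) (l 16679216)) (b (l 16750208) (a (l 16668984) (l 16527848)))))) (b (a (c (b (l 17556680) (c (l 17573320) (l 17246408))) (b (l 16888128) (l 16650752))) (c (b (l 17154352) (c (l 17390320) (l 17013192))) (b (l 16666600) (l 16478136)))) (a (b (c (c (l 17396640) (l 16970048)) (a (l 16615488) (l 16480960))) (c (a (c (l 17232256) (l 16885392)) (c (l 17111664)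 (l 16737360))) (a (l 16491544) (l 16503824)))) (b (c (c (l 17001048) (l 16728584)) (l 16498424)) (c (c (b (l 16965768) (l 16807920)) (l 16526944)) (b (l 16515728) (l 16528352))))))), by decide +kernel⟩

def k15_pm_012_a : ∃ t, chk3 f_pm_012_a t 28 14 1 = true :=
  ⟨(b (c (a (c (l 17345416) (b (l 17115912) (l 17010168))) (b (c (l 17218200) (l 16896776)) (c (l 17095016) (l 16767288)))) (a (b (l 16695792) (l 16583568)) (c (l 16544944) (l 16543488)))) (b (c (a (c (l 17183048) (l 16895136)) (a (l 16736208) (l 16655784))) (a (l 16574952) (l 16575280))) (c (c (a (a (l 17113392) (l 17007000)) (a (l 16882720) (l 16736688))) (a (l 16687680) (l 16607848))) (a (l 16604216) (c (l 16605952) (l 16604096)))))), by decide +kernel⟩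

def k16_pm_012_a : ∃ t, chk3 f_pm_012_a t 28 30 1 = true :=
  ⟨(b (c (a (c (a (l 16989544) (l 16871536)) (l 16641312)) (c (a (l 16733496) (l 16643144)) (a (l 16619456) (l 16620120)))) (a (c (l 16636256) (l 16633712)) (a (l 16637072) (l 16638080)))) (c (a (c (a (b (l 16892768) (l 16827040)) (b (l 16766080) (l 16694824))) (a (l 16650720) (l 16672248))) (c (a (l 16675432) (l 16676128)) (a (l 16672984) (l 16673912)))) (a (a (l 16669976) (l 16668280)) (a (l 16674616) (c (l 16671728) (l 16648600)))))), by decide +kernel⟩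

def k17_pm_012_a : ∃ t, chk3 f_pm_012_a t 28 62 1 = true :=
  ⟨(b (a (c (c (a (l 16740616) (l 16678960)) (a (l 16675440) (l 16676176))) (c (l 16692944) (l 16690120))) (c (c (a (l 16679656) (l 16680544)) (a (l 16677112) (l 16678224))) (a (l 16683816) (l 16695760)))) (a (c (c (l 14) (a (l 16692520) (l 16693376))) (c (a (l 16689440) (l 16690536)) (a (l 16686376) (l 16687712)))) (c (c (a (l 16707536) (l 16711168)) (a (l 16704912) (l 16706152))) (a (c (l 16691824) (l 16689232)) (c (l 16693288) (l 16690928)))))), by decide +kernel⟩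

def k18_pm_012_a : ∃ t, chk3 f_pm_012_a t 56 126 1 = true :=
  ⟨(c (c (l 14) (a (c (l 14) (l 16719712)) (c (l 16724176) (l 16720744)))) (c (a (c (l 16718128) (l 16716552)) (c (l 16719288) (l 16728312))) (a (l 16719432) (l 16720888)))), by decide +kernel⟩

def k19_pm_012_a : ∃ t, chk3 f_pm_012_a t 56 127 2 = true :=
  ⟨(b (c (l 14) (a (c (l 14) (a (l 14) (l 16723064))) (c (a (l 14) (l 16725744)) (a (l 16723640) (l 16724280))))) (c (l 14) (a (c (l 14) (a (l 14) (a (l 14) (a (l 14) (b (l 16730144) (c (l 14) (l 16736936))))))) (b (c (a (l 14) (l 16732592)) (a (l 16730456) (l 16731112))) (c (c (l 14) (a (l 14) (a (l 14) (b (l 16735904) (b (l 16737632) (l 16738792)))))) (a (b (c (l 16734272) (l 16733496)) (c (a (l 14) (b (l 16736216) (l 16737368))) (a (l 16735688) (l 16736024)))) (b (c (l 16734920) (l 16734176)) (c (a (l 16738432) (l 16737472)) (a (l 16736368) (l 16736728)))))))))), by decide +kernel⟩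

def k20_pm_012_a : ∃ t, chk3 f_pm_012_a t 56 127 3 = true :=
  ⟨(b (c (a (c (a (l 16720888) (l 16721480)) (l 16729840)) (a (l 16731840) (l 16732560))) (a (a (l 16716784) (l 16717520)) (c (l 16729712) (l 16717736)))) (b (c (a (c (a (l 16727640) (l 16728248)) (a (l 16725984) (l 16726648))) (c (a (l 16728912) (l 16729624)) (a (l 16727368) (l 16728136)))) (a (a (a (l 16723352) (l 16723720)) (l 16729488)) (a (l 16730296) (l 16725912)))) (c (a (b (c (a (c (l 16731464) (l 16730624)) (l 16731664)) (a (l 16729376) (l 16730048))) (c (a (c (a (l 14) (l 16736560)) (a (l 16732800) (l 16733112))) (c (a (l 16734248) (l 16734568)) (a (l 16733432) (l 16733768)))) (a (c (a (l 16731952) (l 16732280)) (a (l 16731112) (l 16731448))) (c (a (l 16732616) (l 16732968)) (a (l 16731800) (l 16732160)))))) (b (c (a (l 16732336) (l 16733056)) (a (l 16730784) (l 16731560))) (c (a (c (a (l 16734904) (l 16735248)) (a (l 16734112) (l 16734480))) (c (a (l 16735608) (l 16735984)) (a (l 16734848) (l 16735240)))) (a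 (a (l 16735560) (l 16733320)) (c (l 16735544) (l 16733480)))))) (a (c (a (b (l 16727704) (c (l 16733008) (l 16729552))) (a (l 16732064) (l 16735064))) (a (a (l 16727016) (l 16727408)) (b (l 16726832) (l 16731720)))) (c (a (a (l 16730224) (l 16730632)) (a (l 16731056) (l 16731496))) (a (b (l 16727680) (l 16729952)) (b (l 16728576) (l 16730856)))))))), by decide +kernel⟩

def k21_pm_012_a : ∃ t, chk3 f_pm_012_a t 57 126 1 = true :=
  ⟨(b (c (c (a (l 16720816) (l 16721920)) (a (l 16707656) (l 16708984))) (c (a (l 16704984) (l 16706544)) (a (l 16702328) (l 16704120)))) (c (c (a (c (l 14) (l 16718664)) (c (l 16731616) (l 16719880))) (a (c (l 16717304) (l 16715952)) (a (l 16718000) (l 16718776)))) (a (c (l 16724408) (l 16711216)) (c (l 16726024) (l 16713064))))), by decide +kernel⟩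

def k22_pm_012_a : ∃ t, chk3 f_pm_012_a t 57 254 2 = true :=
  ⟨(c (a (c (l 14) (a (l 14) (l 16728408))) (c (a (l 14) (l 16741528)) (a (l 16729072) (l 16729800)))) (a (c (a (l 16726376) (l 16727048)) (a (l 16724960) (l 16725696))) (c (a (l 16727776) (l 16728552)) (a (l 16726480) (l 16727312))))), by decide +kernel⟩

def k23_pm_012_a : ∃ t, chk3 f_pm_012_a t 57 255 2 = true :=
  ⟨(a (c (c (l 14) (a (l 14) (a (l 14) (a (l 14) (a (l 14) (b (l 16735720) (c (l 14) (l 16742648)))))))) (b (c (a (l 16733240) (l 16733944)) (a (l 16731816) (l 16732568))) (b (c (a (c (l 16737064) (l 16736344)) (c (l 16737752) (l 16737064))) (a (l 16737888) (l 16736032))) (c (a (c (a (l 14) (a (l 14) (l 16739728))) (a (b (l 16737976) (l 16739136)) (l 16740224))) (c (b (l 16739496) (a (l 16740560) (l 16740928))) (a (l 16739280) (l 16739664)))) (a (c (a (l 16737824) (l 16738200)) (a (l 16737096) (l 16737480))) (c (a (l 16738576) (l 16738976)) (a (l 16737880) (l 16738288)))))))) (c (b (c (a (l 14) (c (l 14) (l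 16737688))) (a (l 16741248) (l 16741992))) (c (c (l 14) (a (l 14) (a (l 14) (a (l 14) (b (l 16741600) (l 16745264)))))) (a (b (c (l 16739824) (l 16739160)) (c (a (l 14) (a (l 14) (l 16742552))) (b (l 16742224) (a (l 16743288) (l 16742360))))) (b (c (l 16740560) (l 16739928)) (b (c (a (l 16742224) (l 16742616)) (l 16741688)) (c (a (c (l 16743560) (l 16743232)) (l 16745096)) (a (l 16742752) (l 16743160)))))))) (b (c (a (l 16734688) (l 16735488)) (a (l 16733376) (l 16734232))) (b (c (a (c (l 16738504) (l 16737840)) (c (l 16739296) (l 16738664))) (a (l 16736848) (l 16737720))) (c (a (c (a (l 16742040) (l 16741120)) (a (l 16740056) (l 16740464))) (c (a (l 16741528) (l 16741944)) (a (l 16740880) (l 16741312)))) (a (c (a (l 16739384) (l 16739808)) (a (l 16738712) (l 16739152))) (c (a (l 16740240) (l 16740688)) (a (l 16739600) (l 16740056))))))))), by decide +kernel⟩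

def k24_pm_012_a : ∃ t, chk3 f_pm_012_a t 57 127 3 = true :=
  ⟨(b (a (a (c (l 16733328) (l 16720032)) (c (l 16734152) (l 16720968))) (c (a (l 16735024) (l 16735936)) (a (l 16721952) (l 16722976)))) (a (a (c (b (c (l 16730384) (l 16728960)) (c (a (c (l 16735216) (l 16734488)) (c (l 16735616) (l 16734904))) (b (l 16732400) (c (l 16735056) (l 16734336))))) (b (l 16726824) (a (c (l 16731944) (l 16730496)) (c (l 16732408) (l 16730984))))) (c (b (c (l 16731200) (l 16729832)) (c (b (l 16734656) (c (a (l 16737184) (l 16737608)) (l 16738592))) (a (l 16739520) (l 16734736)))) (b (l 16727784) (c (b (l 16731904) (l 16736824)) (l 16734296))))) (c (b (a (c (l 16732064) (l 16730752)) (c (l 16732976) (l 16731720))) (a (a (c (b (l 16735392) (l 16737704)) (l 16735208)) (c (b (l 16735840) (l 16738168)) (l 16735696))) (a (c (b (l 16736312) (l 16738632)) (l 16736192)) (c (b (l 16736784) (l 16739120)) (l 16736696))))) (a (b (l 16728784) (c (b (l 16732888) (l 16735200)) (l 16737968))) (b (l 16729840)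 (c (b (l 16733928) (l 16736248)) (l 16739064))))))), by decide +kernel⟩

def k25_pm_012_a : ∃ t, chk3 f_pm_012_a t 29 14 1 = true :=
  ⟨(a (b (c (a (b (l 16799944) (l 16692824)) (b (l 16704096) (c (l 16735648) (l 16550920)))) (a (l 16545952) (l 16548856))) (c (b (c (a (l 16738064) (l 16581392)) (l 16584200)) (a (c (l 16611896) (l 16589272)) (c (l 16612288) (l 16610856)))) (b (a (l 16577696) (l 16578376)) (a (l 16607856) (l 16608800))))) (b (a (c (b (l 16537096) (l 16551800)) (l 16563736)) (c (b (l 16547408) (l 16561600)) (l 16560736))) (b (c (c (l 16576832) (l 16581144)) (l 16574608)) (c (c (a (l 16613104) (l 16613576)) (l 16607024)) (l 16610680))))), by decide +kernel⟩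

def k26_pm_012_a : ∃ t, chk3 f_pm_012_a t 29 30 1 = true :=
  ⟨(a (b (a (c (c (l 16644056) (l 16642216)) (l 16639528)) (c (c (l 16644728) (l 16643096)) (l 16640736))) (a (c (c (l 16677312) (l 16675304)) (c (l 16673328) (l 16671384))) (c (c (a (l 16678304) (l 16678864)) (l 16676448)) (c (l 16674688) (l 16672960))))) (b (c (c (b (l 16637760) (l 16644080)) (l 16644920)) (a (l 16642328) (l 16643632))) (c (c (b (l 16661008) (l 16680776)) (a (l 16678008) (l 16679224))) (a (l 16675680) (c (l 16677896) (l 16676600)))))), by decide +kernel⟩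

def k27_pm_012_a : ∃ t, chk3 f_pm_012_a t 58 62 1 = true :=
  ⟨(c (a (c (b (l 16692408) (c (l 16710600) (l 16709504))) (b (l 16679808) (l 16707864))) (c (b (l 16693528) (c (l 16711792) (l 16710800))) (b (l 16702120) (l 16709328)))) (b (a (l 16697656) (l 16699320)) (a (c (l 16716184) (l 16693064)) (c (l 16717864) (l 16715936))))), by decide +kernel⟩

def k28_pm_012_a : ∃ t, chk3 f_pm_012_a t 58 126 1 = true :=
  ⟨(c (a (c (b (a (l 16712824) (l 16713632)) (c (l 16733216) (l 16732080))) (a (l 16725568) (l 16729120))) (c (a (c (l 16729960) (l 16728912)) (c (l 16730712) (l 16729712))) (a (b (l 16712264) (l 16721400)) (l 16728216)))) (a (c (a (l 16723256) (l 16724296)) (c (l 16727160) (l 16731288))) (c (a (l 16725240) (l 16726224)) (a (l 16712672) (l 16713768))))), by decide +kernel⟩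

def k29_pm_012_a : ∃ t, chk3 f_pm_012_a t 116 127 2 = true :=
  ⟨(b (c (c (a (l 16742240) (l 16743088)) (a (l 16730568) (l 16731464))) (a (c (l 16729384) (l 16728192)) (c (l 16730336) (l 16729200)))) (c (b (c (a (c (l 16739040) (l 16738440)) (c (l 16739896) (l 16739320))) (a (l 16742784) (l 16743704))) (c (b (a (c (l 16745176) (l 16741952)) (a (l 16742968) (l 16743400))) (a (c (a (l 14) (b (l 16744624) (c (l 14) (l 16745656)))) (a (a (l 16746768) (l 16744344)) (a (l 16744544) (l 16744744)))) (b (c (a (l 16745024) (l 16745456)) (a (l 16744440) (l 16744888))) (c (a (c (l 16746352) (l 16746064)) (c (l 16746784) (l 16746496))) (a (c (l 16745768) (l 16745472)) (l 16747376)))))) (b (a (c (l 16741352) (l 16740744)) (c (l 16742264) (l 16741688))) (a (c (a (b (l 16743016) (l 16744192)) (b (l 16743432) (l 16744608))) (a (l 16745608) (l 16743416))) (c (a (b (l 16743856) (l 16745032)) (c (l 16745048) (l 16744760))) (a (l 16743856) (l 16744336))))))) (a (c (b (l 16736336) (c (b (l 16740144)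 (a (l 16742376) (l 16742816))) (a (l 16743296) (l 16743664)))) (b (l 16735136) (a (a (l 16742200) (l 16742432)) (a (l 16742672) (l 16742912))))) (c (b (l 16737312) (c (b (l 16741112) (a (l 16743272) (l 16743760))) (a (l 16744136) (l 16744632)))) (b (l 16736168) (b (l 16739672) (a (l 16744432) (l 16742328)))))))), by decide +kernel⟩

def k30_pm_012_a : ∃ t, chk3 f_pm_012_a t 117 127 2 = true :=
  ⟨(b (c (a (c (l 16743824) (l 16742744)) (c (l 16734136) (l 16733104))) (a (c (l 16731184) (l 16730104)) (l 16736816))) (c (a (b (c (a (l 16740256) (l 16740640)) (l 16744520)) (b (a (c (l 16743792) (l 16742680)) (c (l 16744176) (l 16743096))) (c (c (a (a (l 16746368) (l 16746552)) (c (l 16746960) (l 16746688))) (a (c (l 16746016) (l 16745744)) (l 16746280))) (a (c (l 16746632) (l 16744760)) (c (l 16745728) (l 16745184)))))) (c (b (l 16741184) (b (l 16744736) (b (a (l 16746328) (l 16746696)) (c (a (l 16747784) (l 16748152)) (l 16747440))))) (b (l 16740144) (b (l 16743688) (b (l 16745464) (c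 (l 16746920) (l 16746392))))))) (a (c (b (l 16738184) (b (a (l 16741568) (l 16742008)) (a (c (l 16744208) (l 16743648)) (l 16746992)))) (b (l 16737096) (a (b (l 16740456) (l 16745432)) (l 16744720)))) (c (b (l 16739112) (b (l 16742648) (a (l 16746104) (l 16746544)))) (b (l 16738072) (b (l 16741600) (l 16745280))))))), by decide +kernel⟩

def k31_pm_012_a : ∃ t, chk3 f_pm_012_a t 58 127 3 = true :=
  ⟨(a (b (c (a (l 16736904) (l 16737992)) (a (l 16724056) (l 16725256))) (c (b (a (c (l 16733936) (l 16732736)) (c (l 16735024) (l 16733880))) (a (a (c (l 16741720) (l 16737216)) (c (l 16741568) (l 16737752))) (a (c (l 16742088) (l 16738296)) (c (l 16742632) (l 16738872))))) (a (b (l 16730944) (c (b (l 16735016) (l 16737336)) (l 16740208))) (b (l 16732160) (c (b (l 16736216) (l 16738552)) (l 16738848)))))) (b (c (a (l 16738976) (l 16729528)) (a (l 16726352) (l 16727496))) (b (c (a (c (l 16736000) (l 16734912)) (l 16736520)) (a (l 16733280) (l 16734456))) (c (a (a (c (l 16745760) (l 16739400))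 (c (l 16741016) (l 16739928))) (c (c (l 16742008) (l 16741480)) (l 16745944))) (a (a (a (l 16742856) (l 16737888)) (l 16740920)) (c (l 16739656) (l 16738616))))))), by decide +kernel⟩

def k32_pm_012_a : ∃ t, chk3 f_pm_012_a t 59 62 1 = true :=
  ⟨(c (b (c (a (l 16684600) (l 16696272)) (a (l 16682904) (l 16684328))) (c (a (l 16712976) (l 16714296)) (a (l 16711208) (l 16712776)))) (b (c (l 16692576) (l 16691048)) (c (a (l 16698984) (l 16700784)) (a (l 16697264) (l 16699296))))), by decide +kernel⟩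

def k33_pm_012_a : ∃ t, chk3 f_pm_012_a t 59 126 1 = true :=
  ⟨(c (c (a (b (l 16716136) (c (l 16725856) (l 16724928))) (b (l 16717560) (c (l 16727280) (l 16726480)))) (a (b (l 16714328) (l 16723552)) (b (l 16715992) (l 16725280)))) (a (c (b (l 16712536) (l 16721720)) (l 16725832)) (b (l 16718912) (c (l 16723696) (l 16722120))))), by decide +kernel⟩

def k34_pm_012_a : ∃ t, chk3 f_pm_012_a t 59 127 2 = true :=
  ⟨(b (b (c (a (l 16735008) (c (l 16734328) (l 16733520))) (a (l 16730520) (l 16732304))) (c (a (c (l 16737568) (l 16736624)) (c (l 16739072) (l 16738256))) (a (l 16737832) (c (l 16737440) (l 16736624))))) (c (b (a (c (a (l 16741920) (l 16742672)) (a (l 16740944) (l 16741752))) (c (a (l 16743440) (l 16744224)) (a (l 16742584) (l 16743432)))) (a (b (c (a (l 16745480) (l 16746248)) (a (l 16744496) (l 16745320))) (b (c (c (a (l 16747512) (l 16748272)) (l 16747416)) (c (l 16746944) (l 16746464))) (c (c (a (a (l 16748520) (l 16748896)) (a (l 16749272) (l 16749656))) (a (l 16748872)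 (l 16749656))) (a (c (l 16747720) (l 16747224)) (c (l 16748544) (l 16748080)))))) (c (b (a (l 16747024) (l 16747816)) (b (a (c (l 16749040) (l 16748608)) (c (l 16749816) (l 16749424))) (a (c (a (l 16750040) (l 16750432)) (l 16749808)) (c (a (l 16750824) (l 16751224)) (l 16750624))))) (b (a (l 16746168) (l 16747024)) (b (a (l 16747960) (l 16748824)) (a (c (l 16749376) (l 16748944)) (c (l 16750232) (l 16749832)))))))) (b (a (c (l 16745648) (l 16739456)) (c (a (l 16741728) (l 16742648)) (l 16741376))) (b (a (c (l 16745272) (l 16743008)) (c (a (l 16745304) (l 16746232)) (l 16744944))) (a (c (a (c (l 16746136) (l 16745640)) (c (l 16747016) (l 16746552))) (b (l 16744792) (a (l 16745496) (l 16746456)))) (c (a (c (l 16747912) (l 16747480)) (c (l 16748832) (l 16748432))) (b (l 16746744) (a (l 16747432) (l 16748440))))))))), by decide +kernel⟩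

def k35_pm_012_a : ∃ t, chk3 f_pm_012_a t 59 127 3 = true :=
  ⟨(b (c (a (c (l 16731472) (l 16730544)) (c (l 16738704) (l 16732656))) (a (l 16729144) (l 16736688))) (b (c (a (c (l 16738512) (l 16737568)) (c (l 16740552) (l 16739736))) (a (l 16736152) (l 16738504))) (b (c (a (c (l 16742056) (l 16741104)) (c (l 16744120) (l 16743296))) (a (l 16739672) (l 16742056))) (c (a (c (a (l 16743912) (l 16744936)) (a (l 16742928) (l 16744008))) (c (a (l 16745976) (l 16747040)) (a (l 16745112) (l 16746240)))) (a (c (l 16745136) (l 16741560)) (c (a (l 16744248) (l 16745448)) (l 16744024))))))), by decide +kernel⟩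

def k36_pm_012_a : ∃ t, chk3 f_pm_012_a t 30 6 1 = true :=
  ⟨(b (a (c (b (c (l 17354928) (l 16875272)) (c (a (l 17205880) (l 17052856)) (l 16607832))) (b (l 16482864) (l 16501048))) (c (b (c (a (l 17140840) (l 16919696)) (l 16501864)) (c (a (l 16848072) (l 16647256)) (l 16525248))) (b (a (l 16478072) (l 16488472)) (c (l 16523728) (l 16522120))))) (a (c (c (b (a (l 16938608) (l 16746768)) (a (l 16595416) (l 16553544))) (b (l 16523288) (a (l 16540712) (l 16553200)))) (b (c (l 16522528) (l 16521704)) (a (l 16540416) (l 16552560)))) (b (c (c (a (l 16520712) (l 16552864)) (a (l 16519768) (l 16530848))) (a (l 16539184) (l 16550088))) (c (a (c (l 16565280) (l 16564824)) (c (l 16576712) (l 16576160))) (a (l 16563992) (c (l 16575528) (l 16574800))))))), by decide +kernel⟩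

def k37_pm_012_a : ∃ t, chk3 f_pm_012_a t 31 12 1 = true :=
  ⟨(a (c (b (c (a (l 16619432) (l 16525272)) (a (l 16502096) (l 16512568))) (c (a (l 16522136) (l 16553896)) (a (l 16520504) (l 16552152)))) (b (a (l 16519784) (c (l 16510264) (l 16507856))) (a (c (l 16518784) (l 16516968)) (c (l 16529328) (l 16527376))))) (c (b (c (c (a (l 16536352) (b (l 16532080) (l 16551048))) (a (l 16524720) (b (l 16530808) (l 16539416)))) (a (b (l 16518632) (l 16527320)) (b (a (l 16526320) (l 16531408)) (a (l 16535080) (l 16540208))))) (a (c (b (l 16538712) (l 16559072)) (b (l 16536720) (l 16546848))) (c (b (c (l 16560224) (l 16548720)) (a (l 16556576) (c (l 16562312) (l 16561400)))) (b (a (l 16544544) (l 16549720)) (a (l 16554752) (l 16559976)))))) (b (a (c (l 16541472) (l 16517952)) (c (a (l 16528136) (b (l 16528672) (l 16537704))) (b (l 16523344) (l 16532584)))) (a (c (b (l 16534616) (l 16544992)) (b (l 16532408) (l 16543024))) (b (c (a (l 16542352) (l 16547464)) (l 16542560)) (c (a (l 16552808)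 (l 16557976)) (l 16553288))))))), by decide +kernel⟩

def k38_pm_012_a : ∃ t, chk3 f_pm_012_a t 31 13 1 = true :=
  ⟨(a (b (c (a (c (l 16563960) (l 16562808)) (c (b (l 16548376) (l 16559696)) (l 16573704))) (a (c (l 16540592) (l 16539248)) (c (l 16572344) (l 16570888)))) (c (a (c (b (l 16560688) (l 16573616)) (l 16592664)) (c (b (l 16571872) (l 16595424)) (b (l 16570992) (l 16584328)))) (a (b (l 16558560) (l 16593112)) (b (c (l 16570016) (l 16568928)) (c (l 16583600) (l 16582776)))))) (b (c (a (c (b (l 16569704) (a (l 16567936) (l 16573392))) (b (l 16557720) (l 16569416))) (c (b (a (l 16567288) (c (l 16573016) (l 16572232))) (a (l 16589304) (c (l 16584544) (l 16583888)))) (b (a (l 16565720) (l 16576240)) (a (l 16577504) (c (l 16583208) (l 16582488)))))) (a (c (b (l 16556120) (l 16568072)) (b (l 16554400) (l 16566608))) (b (c (a (l 16564024) (l 16569248)) (a (l 16562208) (l 16567368))) (c (a (l 16576064) (l 16581352)) (a (l 16574504) (l 16579736)))))) (c (a (c (b (a (l 16580208)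 (l 16585728)) (c (l 16617296) (l 16616968))) (b (a (l 16579256) (l 16584720)) (a (l 16592696) (l 16598224)))) (b (c (a (c (l 16591464) (l 16590968)) (c (l 16596936) (l 16596408))) (a (l 16590160) (b (l 16592288) (l 16598872)))) (c (a (c (l 16604696) (l 16604328)) (c (a (l 16608864) (l 16611616)) (l 16609840))) (a (l 16603720) (b (l 16605680) (l 16612720)))))) (a (b (c (l 16580888) (l 16579680)) (c (a (l 16591888) (l 16597360)) (l 16593664))) (b (c (a (l 16588984) (l 16594328)) (a (l 16587680) (l 16592960))) (c (a (l 16602800) (b (l 16604632) (l 16611792))) (a (l 16601752) (l 16607088)))))))), by decide +kernel⟩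

def k39_pm_012_a : ∃ t, chk3 f_pm_012_a t 30 14 1 = true :=
  ⟨(b (a (c (b (c (l 16566760) (l 16566896)) (c (l 16583760) (l 16581520))) (b (l 16566976) (a (l 16575688) (l 16588320)))) (c (a (c (b (l 16564288) (l 16599904)) (l 16592544)) (b (c (l 16575936) (l 16575760)) (c (l 16611696) (l 16590800)))) (a (b (l 16563928) (l 16600160)) (b (l 16575344) (l 16611728))))) (a (b (c (c (a (l 16590240) (l 16603632)) (l 16600096)) (a (l 16591848) (l 16604680))) (c (b (c (l 16606824) (l 16610168)) (a (l 16621752) (l 16617504))) (a (l 16612264) (l 16622136)))) (b (c (a (c (l 16615920) (l 16616280)) (c (l 16617392) (l 16628152))) (a (l 16616688) (l 16628416))) (c (a (c (l 16627816) (l 16633608)) (c (a (l 16642168) (l 16648192)) (l 16640376))) (a (l 16629072) (c (l 16635520) (l 16646320))))))), by decide +kernel⟩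

def k40_pm_012_a : ∃ t, chk3 f_pm_012_a t 62 14 1 = true :=
  ⟨(b (c (a (b (c (l 16587488) (l 16587232)) (c (l 16612928) (l 16623400))) (b (c (l 16619936) (l 16619576)) (c (b (l 16610112) (l 16618032)) (l 16634904)))) (a (b (l 16607632) (c (l 16602320) (l 16602112))) (b (c (l 16598144) (l 16597568)) (c (l 16634680) (l 16613384))))) (a (c (b (c (l 16634480) (l 16639904)) (c (a (l 16654192) (l 16649672)) (b (l 16632032) (l 16641112)))) (b (c (l 16640000) (l 16640000)) (c (l 16657800) (l 16657992)))) (b (c (c (b (l 16626272) (l 16645264)) (b (l 16626296) (l 16634896))) (c (b (l 16626224) (l 16634920)) (b (l 16626056) (l 16634840)))) (c (c (b (l 16654056) (l 16663128)) (a (l 16655896) (l 16661752))) (b (c (l 16643880) (l 16643896)) (a (l 16650304) (l 6))))))), by decide +kernel⟩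

def k41_pm_012_a : ∃ t, chk3 f_pm_012_a t 63 14 1 = true :=
  ⟨(b (a (c (b (c (b (l 16617160) (l 16624480)) (a (l 16607072) (l 16612664))) (c (b (l 16632056) (a (l 16626688) (l 16632424))) (a (l 16622496) (l 16628152)))) (b (c (a (l 16606520) (l 16612056)) (a (l 16605856) (l 16611328))) (c (b (l 16620896) (l 16629080)) (b (l 16620392) (l 16628680))))) (c (b (c (a (b (l 16615096) (l 16622464)) (b (c (l 16620816) (l 16620512)) (l 16628064))) (a (l 16618224) (b (l 16619992) (l 16627512)))) (c (a (b (l 16630088) (l 16638128)) (b (l 16635728) (c (l 16643864) (l 16643728)))) (a (b (l 16629720) (l 16637856)) (b (l 16635296) (l 16643464))))) (b (a (c (l 16617552) (l 16616760)) (c (b (l 16619192) (l 16626840)) (b (l 16618272) (l 16626040)))) (a (c (l 16633336) (l 16632784)) (c (b (l 16634736) (l 16643008)) (b (l 16634056) (l 16642424))))))) (a (a (c (b (c (l 16649736) (l 16639240)) (a (c (l 16665968) (l 16655648)) (l 6))) (b (c (l 16639120) (l 16638896)) (b (l 16652488) (l 6)))) (b (c (c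 (b (l 16640752) (l 16649360)) (b (l 16640632) (l 16649320))) (c (l 16644776) (l 16644480))) (l 6))) (b (b (a (c (c (l 16646496) (l 16646304)) (c (l 16646008) (l 16645600))) (l 6)) (l 6)) (l 6)))), by decide +kernel⟩

def k42_pm_012_a : ∃ t, chk3 f_pm_012_a t 15 30 1 = true :=
  ⟨(a (b (a (c (c (b (l 16628800) (l 16648496)) (b (l 16627992) (l 16644968))) (b (l 16626864) (l 16646312))) (c (b (a (c (l 16646640) (l 16647320)) (a (l 16656136) (l 16651704))) (a (c (l 16659248) (l 16658568)) (c (l 16668352) (l 16669016)))) (a (l 16647784) (b (l 16660200) (l 16669904))))) (a (b (c (c (a (l 16651952) (l 16674128)) (l 16662088)) (c (l 16661152) (l 16660248))) (c (c (a (l 16669304) (l 16681128)) (a (l 16668144) (l 16690704))) (a (l 16687448) (l 16678912)))) (b (c (c (a (l 16676656) (l 16669096)) (l 16669568)) (a (l 16674864) (l 16669656))) (c (a (c (l 16683792) (l 16682992)) (c (l 16686848) (l 16686144))) (a (l 16681872) (l 16685176)))))) (a (a (b (c (c (b (l 16660480) (l 16670056)) (b (l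 16671440) (l 16670616))) (b (l 16661536) (l 16676560))) (l 6)) (l 6)) (l 6))), by decide +kernel⟩

def k43_pm_012_a : ∃ t, chk3 f_pm_012_a t 15 31 1 = true :=
  ⟨(a (b (a (b (c (a (c (l 16697536) (l 16685840)) (c (l 16699016) (l 16698056))) (a (l 16694552) (c (l 16697120) (l 16706688)))) (c (a (c (a (l 16715320) (l 16716040)) (l 16714424)) (c (a (l 16716776) (l 16717800)) (a (l 16715712) (l 16716848)))) (a (c (l 16713176) (l 16701456)) (b (l 16699712) (l 16719376))))) (a (b (c (c (a (l 16711496) (l 16702576)) (l 16700968)) (c (l 16700152) (l 16699376))) (l 6)) (l 6))) (b (b (a (c (c (a (l 16719056) (a (l 16720216) (l 6))) (a (l 16717744) (l 16719712))) (a (l 16721056) (c (l 16718680) (l 16717656)))) (l 6)) (a (a (c (c (c (l 16728768) (l 16728104)) (l 16732344)) (c (l 16725784) (l 16724464))) (l 6)) (l 6))) (a (c (b (a (a (c (c (l 16748336) (l 16737144)) (l 16742632)) (b (c (l 16735928) (l 16734656)) (l 6))) (l 6)) (b (a (a (c (c (l 16745016) (l 16744296)) (c (l 16743576) (l 16742856)))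 (l 6)) (l 6)) (a (a (a (b (c (c (l 16748416) (l 16747680)) (c (l 16746936) (l 16746192))) (c (c (c (l 16752328) (l 16750648)) (c (l 16750272) (l 16749904))) (c (l 16749344) (l 16748600)))) (l 6)) (l 6)) (l 6)))) (a (a (b (c (l 16734656) (l 16733240)) (c (b (l 16741776) (a (c (l 16746656) (l 16745912)) (l 6))) (b (l 16740344) (c (l 16748096) (l 16744744))))) (b (c (l 16735760) (l 16734480)) (l 6))) (l 6))) (l 6)))) (l 6)), by decide +kernel⟩

theorem s44_pm_012_a : ∃ t, chk3 f_pm_012_a t 15 15 1 = true := ex3_b k42_pm_012_a k43_pm_012_a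

theorem s45_pm_012_a : ∃ t, chk3 f_pm_012_a t 31 14 1 = true := ex3_a k40_pm_012_a k41_pm_012_a

theorem s46_pm_012_a : ∃ t, chk3 f_pm_012_a t 15 14 1 = true := ex3_a k39_pm_012_a s45_pm_012_a

theorem s47_pm_012_a : ∃ t, chk3 f_pm_012_a t 15 7 1 = true := ex3_b s46_pm_012_a s44_pm_012_a

theorem s48_pm_012_a : ∃ t, chk3 f_pm_012_a t 31 6 1 = true := ex3_b k37_pm_012_a k38_pm_012_a

theorem s49_pm_012_a : ∃ t, chk3 f_pm_012_a t 15 6 1 = true := ex3_a k36_pm_012_a s48_pm_012_a

theorem s50_pm_012_a : ∃ t, chk3 f_pm_012_a t 15 3 1 = true := ex3_b s49_pm_012_a s47_pm_012_a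

theorem s51_pm_012_a : ∃ t, chk3 f_pm_012_a t 59 127 1 = true := ex3_c k34_pm_012_a k35_pm_012_a

theorem s52_pm_012_a : ∃ t, chk3 f_pm_012_a t 59 63 1 = true := ex3_b k33_pm_012_a s51_pm_012_a

theorem s53_pm_012_a : ∃ t, chk3 f_pm_012_a t 59 31 1 = true := ex3_b k32_pm_012_a s52_pm_012_a

theorem s54_pm_012_a : ∃ t, chk3 f_pm_012_a t 58 127 2 = true := ex3_a k29_pm_012_a k30_pm_012_a

theorem s55_pm_012_a : ∃ t, chk3 f_pm_012_a t 58 127 1 = true := ex3_c s54_pm_012_a k31_pm_012_a

theorem s56_pm_012_a : ∃ t, chk3 f_pm_012_a t 58 63 1 = true := ex3_b k28_pm_012_a s55_pm_012_a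

theorem s57_pm_012_a : ∃ t, chk3 f_pm_012_a t 58 31 1 = true := ex3_b k27_pm_012_a s56_pm_012_a

theorem s58_pm_012_a : ∃ t, chk3 f_pm_012_a t 29 31 1 = true := ex3_a s57_pm_012_a s53_pm_012_a

theorem s59_pm_012_a : ∃ t, chk3 f_pm_012_a t 29 15 1 = true := ex3_b k26_pm_012_a s58_pm_012_a

theorem s60_pm_012_a : ∃ t, chk3 f_pm_012_a t 29 7 1 = true := ex3_b k25_pm_012_a s59_pm_012_a

theorem s61_pm_012_a : ∃ t, chk3 f_pm_012_a t 57 127 2 = true := ex3_b k22_pm_012_a k23_pm_012_a

theorem s62_pm_012_a : ∃ t, chk3 f_pm_012_a t 57 127 1 = true := ex3_c s61_pm_012_a k24_pm_012_a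

theorem s63_pm_012_a : ∃ t, chk3 f_pm_012_a t 57 63 1 = true := ex3_b k21_pm_012_a s62_pm_012_a

theorem s64_pm_012_a : ∃ t, chk3 f_pm_012_a t 56 127 1 = true := ex3_c k19_pm_012_a k20_pm_012_a

theorem s65_pm_012_a : ∃ t, chk3 f_pm_012_a t 56 63 1 = true := ex3_b k18_pm_012_a s64_pm_012_a

theorem s66_pm_012_a : ∃ t, chk3 f_pm_012_a t 28 63 1 = true := ex3_a s65_pm_012_a s63_pm_012_a

theorem s67_pm_012_a : ∃ t, chk3 f_pm_012_a t 28 31 1 = true := ex3_b k17_pm_012_a s66_pm_012_a

theorem s68_pm_012_a : ∃ t, chk3 f_pm_012_a t 28 15 1 = true := ex3_b k16_pm_012_a s67_pm_012_a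

theorem s69_pm_012_a : ∃ t, chk3 f_pm_012_a t 28 7 1 = true := ex3_b k15_pm_012_a s68_pm_012_a

theorem s70_pm_012_a : ∃ t, chk3 f_pm_012_a t 14 7 1 = true := ex3_a s69_pm_012_a s60_pm_012_a

theorem s71_pm_012_a : ∃ t, chk3 f_pm_012_a t 14 3 1 = true := ex3_b k14_pm_012_a s70_pm_012_a

theorem s72_pm_012_a : ∃ t, chk3 f_pm_012_a t 7 3 1 = true := ex3_a s71_pm_012_a s50_pm_012_a

theorem s73_pm_012_a : ∃ t, chk3 f_pm_012_a t 27 63 1 = true := ex3_a k12_pm_012_a k13_pm_012_a

theorem s74_pm_012_a : ∃ t, chk3 f_pm_012_a t 27 31 1 = true := ex3_b k11_pm_012_a s73_pm_012_a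

theorem s75_pm_012_a : ∃ t, chk3 f_pm_012_a t 13 31 1 = true := ex3_a k10_pm_012_a s74_pm_012_a

theorem s76_pm_012_a : ∃ t, chk3 f_pm_012_a t 13 15 1 = true := ex3_b k9_pm_012_a s75_pm_012_a

theorem s77_pm_012_a : ∃ t, chk3 f_pm_012_a t 13 7 1 = true := ex3_b k8_pm_012_a s76_pm_012_a

theorem s78_pm_012_a : ∃ t, chk3 f_pm_012_a t 6 7 1 = true := ex3_a k7_pm_012_a s77_pm_012_a

theorem s79_pm_012_a : ∃ t, chk3 f_pm_012_a t 6 3 1 = true := ex3_b k6_pm_012_a s78_pm_012_a

theorem s80_pm_012_a : ∃ t, chk3 f_pm_012_a t 3 3 1 = true := ex3_a s79_pm_012_a s72_pm_012_a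

theorem s81_pm_012_a : ∃ t, chk3 f_pm_012_a t 15 5 1 = true := ex3_a k4_pm_012_a k5_pm_012_a

theorem s82_pm_012_a : ∃ t, chk3 f_pm_012_a t 15 2 1 = true := ex3_b k3_pm_012_a s81_pm_012_a

theorem s83_pm_012_a : ∃ t, chk3 f_pm_012_a t 7 2 1 = true := ex3_a k2_pm_012_a s82_pm_012_a

theorem s84_pm_012_a : ∃ t, chk3 f_pm_012_a t 3 2 1 = true := ex3_a k1_pm_012_a s83_pm_012_a

theorem s85_pm_012_a : ∃ t, chk3 f_pm_012_a t 3 1 1 = true := ex3_b s84_pm_012_a s80_pm_012_a

theorem s86_pm_012_a : ∃ t, chk3 f_pm_012_a t 1 1 1 = true := ex3_a k0_pm_012_a s85_pm_012_a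

theorem c_pm_012_a : CertF 0 536870912 0 536870912 134217728 67108864 false true false .pnp 0 1 2
    ndF0q0 ndF2q2a pcF1 cut_pm_012_a Ext.none :=
  certF2 (fam := false) (s1 := true) (s2 := false) (a := 0) (b := 1) (c := 2) (cn := .pnp) (n1 := ndF0q0) (n2 := ndF2q2a) (pc := pcF1) (cut := cut_pm_012_a) (xt := Ext.none) (P1 := 0) (W1 := 536870912) (P2 := 0) (W2 := 536870912) (P3 := 134217728) (W3 := 67108864)
    rfl (fun _ => rfl) s86_pm_012_a

noncomputable def cut_pm_012_b : Cut := Cut.of [[⟨0, 0, 0, 67108864⟩, ⟨1, 1, 0, 67108864⟩, ⟨2, 1, 0, 67108864⟩], [⟨0, 0, 1, 41943040⟩, ⟨1, 1, 2, 41943040⟩, ⟨2, 1, 0, 16777216⟩]]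

noncomputable def f_pm_012_b : ℕ → ℕ → ℕ → ℕ → Bool := onCell 536870912 536870912 1239849684 370763052 134217728 67108864
    (rowF 2 false true false .pnp 0 1 2 (qsf 0 536870912 1239849684 370763052 1) ndF0q0 ndF2q2b pcF1 cut_pm_012_b Ext.none)

def k0_pm_012_b : ∃ t, chk3 f_pm_012_b t 2 1 1 = true :=
  ⟨(b (a (l 2) (b (a (l 17793184) (l 17876152)) (a (l 2) (l 17866576)))) (l 2)), by decide +kernel⟩

def k1_pm_012_b : ∃ t, chk3 f_pm_012_b t 3 1 1 = true :=
  ⟨(b (a (b (a (b (l 17930464) (l 17996488)) (b (a (l 17968856) (l 17974280)) (l 18103032))) (a (l 18012792) (l 18411608))) (a (b (a (b (c (l 18149544) (l 17746288)) (l 18159184)) (b (c (b (l 18032560) (l 18195472)) (a (l 17657136) (b (l 17449760) (l 17677192)))) (c (l 18378960) (l 17954016)))) (b (c (l 18479672) (l 18149704)) (l 18382496))) (b (a (b (c (b (a (l 17932536) (l 17738800)) (l 18126080)) (b (a (l 17176576) (c (l 17283440) (l 16818528))) (a (l 17579736) (l 17214888)))) (c (l 18391096) (b (a (l 17801120) (l 17716256))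 (l 17956728)))) (b (c (b (a (c (l 17869120) (a (l 17508608) (l 17397344))) (c (a (l 17728208) (b (l 17479872) (l 17727472))) (a (b (l 17136632) (l 17384384)) (b (a (l 17007256) (l 16847904)) (l 17159200))))) (a (l 17978792) (c (l 18070864) (a (l 17695904) (l 17574920))))) (a (b (c (a (l 17109224) (l 16862824)) (l 16438048)) (c (l 17447024) (a (l 17135208) (l 17016448)))) (b (a (c (b (l 16657360) (l 16935696)) (l 16427768)) (c (a (l 16573456) (l 16445952)) (b (l 16443984) (l 16430424)))) (c (a (l 17224496) (b (l 16844912) (l 17272592))) (a (b (l 16756520) (l 16993064)) (a (l 16592808) (l 16422400))))))) (c (a (l 18360464) (b (l 18181304) (l 18423264))) (b (a (c (l 17761864) (l 17431008)) (c (l 17408904) (a (l 17295504) (b (l 17059736) (l 17285552))))) (a (l 17856776) (c (l 17920576) (l 17584776))))))) (b (a (c (l 18608312) (l 18169008)) (c (l 18666664) (a (l 18143008) (l 17955224)))) (c (l 18771480) (a (l 18341912) (l 18382840))))))) (a (b (a (l 2) (l 18122776)) (l 2)) (a (b (l 18367616)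 (l 18199256)) (b (b (l 18637336) (l 18630672)) (l 18517928))))), by decide +kernel⟩

theorem s2_pm_012_b : ∃ t, chk3 f_pm_012_b t 1 1 1 = true := ex3_a k0_pm_012_b k1_pm_012_b

theorem c_pm_012_b : CertF 0 536870912 1239849684 370763052 134217728 67108864 false true false .pnp 0 1 2
    ndF0q0 ndF2q2b pcF1 cut_pm_012_b Ext.none :=
  certF2 (fam := false) (s1 := true) (s2 := false) (a := 0) (b := 1) (c := 2) (cn := .pnp) (n1 := ndF0q0) (n2 := ndF2q2b) (pc := pcF1) (cut := cut_pm_012_b) (xt := Ext.none) (P1 := 0) (W1 := 536870912) (P2 := 1239849684) (W2 := 370763052) (P3 := 134217728) (W3 := 67108864)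
    rfl (fun _ => rfl) s2_pm_012_b

noncomputable def cut_pm_022_a : Cut := Cut.of [[⟨0, 0, 0, 67108864⟩, ⟨1, 1, 0, 67108864⟩, ⟨2, 1, 0, 67108864⟩]]

noncomputable def f_pm_022_a : ℕ → ℕ → ℕ → ℕ → Bool := onCell 1073741824 536870912 0 536870912 134217728 67108864
    (rowF 2 false true false .pp 0 2 2 (qsf 0 536870912 0 536870912 2) ndF0q0 ndF2q2a pcF2 cut_pm_022_a Ext.none)

def k0_pm_022_a : ∃ t, chk3 f_pm_022_a t 8 4 1 = true :=
  ⟨(a (c (b (c (a (b (l 17247528) (c (l 17358776) (l 17074816))) (l 17184944)) (a (a (b (l 16485152) (b (l 16588952) (l 16519056))) (l 16488224)) (l 16526808))) (c (a (b (c (l 17295688) (l 16943608)) (a (c (l 17207256) (b (l 16941864) (l 16876160))) (l 16972232))) (b (l 17106872) (l 17003992))) (a (c (a (b (l 16601336) (l 16494824)) (l 16501728)) (a (b (l 16490120) (l 16495040)) (l 16490520))) (b (l 16541384) (l 16491104))))) (c (b (a (a (b (l 16479552) (l 16481616)) (l 16478720)) (l 16475728)) (a (b (a (b (l 16484072) (l 16486232)) (l 16483384)) (a (b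 (l 16488792) (l 16497008)) (l 16488664))) (l 16493920))) (b (a (b (l 16482544) (a (l 16474912) (l 16473552))) (l 16470360)) (a (b (a (l 16478632) (l 16477384)) (a (b (l 16482432) (l 16485552)) (l 16482920))) (l 16478376))))) (c (b (a (c (l 17145704) (l 16605184)) (l 16828080)) (a (c (l 17017072) (l 16483664)) (c (l 16986808) (l 16478440)))) (b (a (l 16469360) (l 16465312)) (a (l 16477648) (l 16474008))))), by decide +kernel⟩

def k1_pm_022_a : ∃ t, chk3 f_pm_022_a t 16 10 1 = true :=
  ⟨(c (a (b (c (a (c (b (l 17104432) (l 17018984)) (b (l 16798088) (l 16622456))) (c (l 17038408) (l 16732504))) (a (a (c (l 16505112) (l 16502040)) (l 16502608)) (l 16501128))) (c (a (b (c (l 16877272) (l 16515440)) (c (a (l 16724752) (l 16798024)) (l 16517704))) (c (l 16840352) (l 16520368))) (a (b (c (l 16510448) (l 16507608)) (c (l 16514984) (l 16512264))) (l 16509624)))) (c (b (l 16751848) (a (l 16663304) (l 16648192))) (b (l 16498088) (l 16506944)))) (a (b (c (a (a (b (l 16495528) (l 16499360))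 (l 16496760)) (l 16495688)) (a (b (l 16489128) (l 16493176)) (l 16490264))) (c (a (a (c (l 16507488) (l 16504656)) (l 16505496)) (l 16504600)) (a (b (l 16497720) (l 16502784)) (l 16499584)))) (b (c (l 16493440) (l 16488800)) (c (l 16502688) (l 16498424))))), by decide +kernel⟩

def k2_pm_022_a : ∃ t, chk3 f_pm_022_a t 16 11 1 = true :=
  ⟨(c (a (a (c (a (b (c (b (l 16548016) (l 16530968)) (b (l 16523072) (l 16528456))) (c (b (l 16536760) (b (l 16541464) (l 16544800))) (b (l 16534400) (l 16540928)))) (b (c (l 16545096) (l 16524880)) (c (l 16539096) (l 16536944)))) (b (b (c (l 16520016) (l 16517432)) (c (l 16525584) (l 16523136))) (b (c (l 16533032) (l 16529416)) (c (a (l 16538728) (l 16538176)) (l 16536304))))) (c (b (b (l 16521896) (l 16527416)) (b (l 16533496) (l 16540176))) (b (l 16520120) (b (l 16529392) (l 16536368))))) (c (b (l 16532112) (a (l 16535168) (l 16533416))) (b (l 16517856) (l 16531048)))) (a (b (c (a (a (c (a (l 16518144) (l 16517896)) (l 16515440)) (l 16516288))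 (l 16515592)) (a (a (b (l 16508504) (l 16514648)) (l 16511384)) (l 16511056))) (c (c (a (b (l 16527112) (l 16534152)) (l 16529888)) (a (b (l 16524808) (l 16532000)) (l 16527888))) (a (a (b (l 16521392) (l 16528768)) (l 16525024)) (l 16524888)))) (b (c (l 16514056) (l 16510240)) (c (l 16527768) (l 16524456))))), by decide +kernel⟩

def k3_pm_022_a : ∃ t, chk3 f_pm_022_a t 17 5 1 = true :=
  ⟨(b (c (a (c (b (l 16824608) (l 16629208)) (l 16498440)) (c (l 16704848) (l 16493904))) (a (b (l 16488344) (l 16498176)) (l 16490248))) (c (a (b (c (l 16517304) (l 16514504)) (c (l 16530584) (l 16528248))) (b (l 16511536) (l 16546304))) (a (b (l 16510232) (l 16524656)) (b (l 16507688) (l 16522280))))), by decide +kernel⟩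

def k4_pm_022_a : ∃ t, chk3 f_pm_022_a t 9 2 1 = true :=
  ⟨(b (a (c (b (l 16654416) (a (l 16699104) (l 16691088))) (b (l 16458256) (l 16498104))) (c (b (l 16814632) (l 16618400)) (b (l 16478040) (l 16498592)))) (a (a (c (b (l 16509992) (b (l 16503024) (l 16532968))) (b (l 16486096) (l 16536968))) (b (c (l 16516440) (l 16494880)) (l 4))) (l 4))), by decide +kernel⟩

def k5_pm_022_a : ∃ t, chk3 f_pm_022_a t 16 12 1 = true :=
  ⟨(c (a (b (a (c (b (c (a (b (l 16548288) (l 16551944)) (l 16549424)) (a (l 16548080) (l 16547512))) (c (a (b (l 16555768) (l 16559760)) (l 16557168)) (a (l 16555904) (l 16555424)))) (c (a (b (l 16546048) (l 16554040)) (l 16549616)) (b (l 16543832) (l 16552040)))) (c (b (l 16547480) (l 16555456)) (b (l 16543984) (l 16552280)))) (a (c (b (c (a (b (l 16563936) (l 16568288)) (l 16565616)) (a (l 16564424) (l 16564048))) (c (a (b (l 16572832) (l 16577560)) (l 16574808)) (a (l 16573696) (l 16573416)))) (c (a (b (l 16562736) (l 16572184)) (l 16567216)) (b (l 16560960)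 (l 16570624)))) (c (b (l 16564144) (l 16573576)) (b (l 16561296) (l 16571064))))) (b (c (a (l 16550168) (l 16548752)) (a (l 16547280) (l 16546296))) (c (a (l 16567912) (l 16566864)) (a (l 16565640) (l 16564976))))) (a (b (c (c (a (b (l 16541840) (l 16550208)) (l 16545592)) (a (b (l 16539840) (l 16548376)) (l 16543896))) (a (b (l 16536832) (l 16545600)) (l 16541328))) (a (c (b (a (l 16558464) (l 16558464)) (a (l 16568352) (l 16568432))) (b (l 16555096) (l 16565360))) (c (l 16563432) (l 16560640)))) (b (c (l 16544072) (l 16541296)) (a (c (l 16563304) (l 16560904)) (l 16562024))))), by decide +kernel⟩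

def k6_pm_022_a : ∃ t, chk3 f_pm_022_a t 16 13 1 = true :=
  ⟨(b (a (c (a (c (b (c (a (b (l 16582488) (l 16587616)) (l 16584768)) (a (l 16583728) (l 16583552))) (c (a (b (l 16592952) (l 16598512)) (l 16595552)) (a (l 16594592) (l 16594512)))) (b (a (c (l 16582400) (l 16581056)) (l 16581696)) (a (c (l 16593440) (l 16592272)) (l 16592920)))) (c (b (l 16583768) (l 16594792)) (b (l 16581592) (l 16592936)))) (a (c (b (a (l 16579008) (l 16579168)) (a (l 16593112) (l 16590728))) (b (l 16576400) (a (l 16588048) (l 16588464)))) (c (b (l 16579336) (l 16591008)) (l 16588224)))) (c (c (a (b (l 16583136) (l 16594336)) (l 16588000)) (a (l 16587040) (l 16586672))) (a (c (l 16585304) (l 16583496)) (l 16605520)))) (a (c (a (b (c (a (c (b (l 16604288) (l 16610288)) (l 16606328)) (c (l 16607216) (l 16606344))) (a (c (l 16605360) (l 16604368)) (l 16605008))) (c (a (c (b (l 16616520) (l 16622992)) (l 16618976)) (c (l 16619784) (l 16619088))) (a (c (l 16618176) (l 16617360)) (l 16618000)))) (c (b (c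 (l 16607048) (l 16606296)) (a (l 16619480) (l 16619480))) (b (l 16605144) (l 16618264)))) (a (b (c (a (c (l 16603360) (l 16602328)) (l 16603152)) (a (l 16600744) (l 16601224))) (c (a (c (l 16616528) (l 16615672)) (l 16616480)) (a (l 16614344) (l 16614872)))) (b (c (l 16603536) (l 16601840)) (c (l 16616968) (l 16615584))))) (c (a (c (b (l 16606408) (l 16619416)) (b (l 16605192) (l 16618480))) (c (l 16633352) (l 16632560))) (a (b (l 16603208) (l 16616928)) (b (l 16603536) (l 16617168)))))), by decide +kernel⟩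

def k7_pm_022_a : ∃ t, chk3 f_pm_022_a t 17 6 1 = true :=
  ⟨(a (b (c (b (c (l 16546376) (l 16544536)) (c (l 16585808) (l 16563504))) (b (l 16541664) (a (l 16561744) (l 16561072)))) (c (b (c (b (l 16579720) (l 16610520)) (l 16614832)) (a (c (l 16629464) (l 16629048)) (l 4))) (b (a (l 16584320) (l 16601800)) (b (l 16619456) (l 16635552))))) (b (c (b (c (l 16539888) (l 16538920)) (c (l 16574752) (l 16574368))) (b (l 16558320) (l 16573664))) (l 4))), by decide +kernel⟩

def k8_pm_022_a : ∃ t, chk3 f_pm_022_a t 9 6 1 = true :=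
  ⟨(l 4), by decide +kernel⟩

def k9_pm_022_a : ∃ t, chk3 f_pm_022_a t 4 7 1 = true :=
  ⟨(a (b (a (b (a (c (a (b (c (a (c (b (l 16629712) (l 16636688)) (l 16632584)) (c (l 16633328) (l 16632800))) (a (c (l 16631960) (l 16631312)) (l 16631952))) (b (c (a (c (l 16643928) (l 16643448)) (l 16643944)) (a (l 16642688) (l 16643072))) (l 6))) (c (b (a (l 16633208) (l 16633320)) (a (l 16648064) (l 16648280))) (b (l 16632352) (l 16648192)))) (a (b (c (a (b (l 16626640) (l 16633992)) (l 16630760)) (a (l 16628880) (l 16629472))) (b (b (c (l 16639920) (l 16638760)) (l 6)) (l 6))) (b (c (l 16631352) (l 16630272)) (c (l 16646816) (l 16646016))))) (c (a (b (c (l 16633416) (l 16632744)) (c (l 16658816) (l 16647912))) (b (c (l 16631680) (l 16631296)) (c (l 16665144) (l 16665064)))) (a (b (l 16631600) (c (l 16647424) (l 16646856))) (b (l 16651568) (l 16664832))))) (l 6)) (l 4)) (a (l 6) (l 4))) (l 4)), by decide +kernel⟩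

def k10_pm_022_a : ∃ t, chk3 f_pm_022_a t 5 1 1 = true :=
  ⟨(b (l 4) (l 4)), by decide +kernel⟩

def k11_pm_022_a : ∃ t, chk3 f_pm_022_a t 3 1 1 = true :=
  ⟨(l 1), by decide +kernel⟩

theorem s12_pm_022_a : ∃ t, chk3 f_pm_022_a t 16 6 1 = true := ex3_b k5_pm_022_a k6_pm_022_a

theorem s13_pm_022_a : ∃ t, chk3 f_pm_022_a t 8 6 1 = true := ex3_a s12_pm_022_a k7_pm_022_a

theorem s14_pm_022_a : ∃ t, chk3 f_pm_022_a t 4 6 1 = true := ex3_a s13_pm_022_a k8_pm_022_a

theorem s15_pm_022_a : ∃ t, chk3 f_pm_022_a t 4 3 1 = true := ex3_b s14_pm_022_a k9_pm_022_a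

theorem s16_pm_022_a : ∃ t, chk3 f_pm_022_a t 16 5 1 = true := ex3_b k1_pm_022_a k2_pm_022_a

theorem s17_pm_022_a : ∃ t, chk3 f_pm_022_a t 8 5 1 = true := ex3_a s16_pm_022_a k3_pm_022_a

theorem s18_pm_022_a : ∃ t, chk3 f_pm_022_a t 8 2 1 = true := ex3_b k0_pm_022_a s17_pm_022_a

theorem s19_pm_022_a : ∃ t, chk3 f_pm_022_a t 4 2 1 = true := ex3_a s18_pm_022_a k4_pm_022_a

theorem s20_pm_022_a : ∃ t, chk3 f_pm_022_a t 4 1 1 = true := ex3_b s19_pm_022_a s15_pm_022_a

theorem s21_pm_022_a : ∃ t, chk3 f_pm_022_a t 2 1 1 = true := ex3_a s20_pm_022_a k10_pm_022_a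

theorem s22_pm_022_a : ∃ t, chk3 f_pm_022_a t 1 1 1 = true := ex3_a s21_pm_022_a k11_pm_022_a

theorem c_pm_022_a : CertF 0 536870912 0 536870912 134217728 67108864 false true false .pp 0 2 2
    ndF0q0 ndF2q2a pcF2 cut_pm_022_a Ext.none :=
  certF2 (fam := false) (s1 := true) (s2 := false) (a := 0) (b := 2) (c := 2) (cn := .pp) (n1 := ndF0q0) (n2 := ndF2q2a) (pc := pcF2) (cut := cut_pm_022_a) (xt := Ext.none) (P1 := 0) (W1 := 536870912) (P2 := 0) (W2 := 536870912) (P3 := 134217728) (W3 := 67108864)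
    rfl (fun _ => rfl) s22_pm_022_a

noncomputable def cut_pm_022_b : Cut := Cut.of [[⟨0, 0, 0, 67108864⟩, ⟨1, 1, 0, 67108864⟩, ⟨2, 1, 0, 67108864⟩]]

noncomputable def f_pm_022_b : ℕ → ℕ → ℕ → ℕ → Bool := onCell 1073741824 536870912 1239849684 370763052 134217728 67108864
    (rowF 2 false true false .pp 0 2 2 (qsf 0 536870912 1239849684 370763052 2) ndF0q0 ndF2q2b pcF2 cut_pm_022_b Ext.none)

def k0_pm_022_b : ∃ t, chk3 f_pm_022_b t 2 2 1 = true :=
  ⟨(a (b (a (b (c (b (a (c (a (b (l 17170688) (l 17666056)) (l 17405248)) (a (b (a (c (l 17007080) (l 16735736)) (l 16851264)) (a (l 17027544) (l 17151776))) (b (l 16823928) (l 17120408)))) (a (c (l 17444504) (l 16943240)) (c (l 17405016) (l 16914776)))) (a (c (l 17966720) (a (b (l 17422552) (l 17647032)) (l 17491784))) (c (l 17867544) (l 17429544)))) (a (a (b (c (a (b (l 16472280) (l 16459456)) (l 16488496)) (a (b (l 16465048) (l 16451608)) (l 16456208))) (c (b (a (l 16711056) (l 16942112)) (l 17164016)) (a (b (l 16469680) (l 16522952))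 (l 16535344)))) (b (c (l 16466288) (l 16453336)) (c (l 16854344) (l 16552560)))) (a (b (l 16451912) (l 16535352)) (b (l 16447096) (l 16760520))))) (c (a (b (c (l 18304696) (l 17904336)) (l 18379352)) (b (l 18008880) (l 18285600))) (b (a (c (a (l 17526672) (l 17482264)) (a (b (a (l 17022576) (l 17001976)) (l 17228976)) (l 17084048))) (a (l 17098384) (l 17211312))) (a (c (l 17842632) (a (l 17506216) (l 17463992))) (l 17583072))))) (b (c (a (b (a (l 16963736) (l 17108968)) (l 17405088)) (b (a (l 17092408) (l 17083792)) (l 17514424))) (a (a (l 16474808) (l 16466768)) (a (b (l 16429360) (l 16713256)) (l 16451328)))) (c (a (l 18071760) (l 17998560)) (a (b (l 17168224) (l 17515592)) (b (l 17125512) (l 17461224)))))) (b (c (a (l 18625952) (l 18468176)) (a (a (b (l 17942752) (l 18159104)) (l 17978424)) (a (l 17908760) (l 17848288)))) (a (c (l 18863088) (l 18357280)) (c (l 18730224) (l 18230944))))) (a (a (b (b (l 4) (c (l 17934896) (l 196730115463))) (b (c (l 18363024) (l 17795344)) (l 18394272)))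 (b (l 4) (l 282631312183))) (l 4))), by decide +kernel⟩

def k1_pm_022_b : ∃ t, chk3 f_pm_022_b t 2 3 1 = true :=
  ⟨(a (b (a (b (l 18764272) (l 18823816)) (b (l 18661168) (l 18749280))) (a (l 18787368) (l 18755992))) (b (a (l 18628400) (l 18531536)) (a (l 18720800) (l 18672440)))), by decide +kernel⟩

def k2_pm_022_b : ∃ t, chk3 f_pm_022_b t 3 1 1 = true :=
  ⟨(b (l 4) (a (b (l 4) (l 233777903639)) (l 4))), by decide +kernel⟩

theorem s3_pm_022_b : ∃ t, chk3 f_pm_022_b t 2 1 1 = true := ex3_b k0_pm_022_b k1_pm_022_b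

theorem s4_pm_022_b : ∃ t, chk3 f_pm_022_b t 1 1 1 = true := ex3_a s3_pm_022_b k2_pm_022_b

theorem c_pm_022_b : CertF 0 536870912 1239849684 370763052 134217728 67108864 false true false .pp 0 2 2
    ndF0q0 ndF2q2b pcF2 cut_pm_022_b Ext.none :=
  certF2 (fam := false) (s1 := true) (s2 := false) (a := 0) (b := 2) (c := 2) (cn := .pp) (n1 := ndF0q0) (n2 := ndF2q2b) (pc := pcF2) (cut := cut_pm_022_b) (xt := Ext.none) (P1 := 0) (W1 := 536870912) (P2 := 1239849684) (W2 := 370763052) (P3 := 134217728) (W3 := 67108864)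
    rfl (fun _ => rfl) s4_pm_022_b

noncomputable def f_pm_023 : ℕ → ℕ → ℕ → ℕ → Bool := onCell 0 536870912 1073741824 536870912 134217728 67108864
    (rowF 1 false true false .up 0 2 3 (qsf 0 536870912 1610612736 536870912 2) ndF0q0 ndF2q3 pcF2 Cut.none Ext.none)

def k0_pm_023 : ∃ t, chk3 f_pm_023 t 1 1 1 = true :=
  ⟨(a (b (b (l 1) (a (l 1) (l 347929643399))) (b (a (l 4) (l 330213431783)) (l 4))) (b (a (b (l 329676200183) (l 18792072)) (b (l 18673144) (l 18364640))) (b (a (l 18490432) (l 18122432)) (a (l 18222128) (l 17846816))))), by decide +kernel⟩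

theorem c_pm_023 : CertF 0 536870912 1610612736 536870912 134217728 67108864 false true false .up 0 2 3
    ndF0q0 ndF2q3 pcF2 Cut.none Ext.none :=
  certF1 (fam := false) (s1 := true) (s2 := false) (a := 0) (b := 2) (c := 3) (cn := .up) (n1 := ndF0q0) (n2 := ndF2q3) (pc := pcF2) (cut := Cut.none) (xt := Ext.none) (P1 := 0) (W1 := 536870912) (P2 := 1610612736) (W2 := 536870912) (P3 := 134217728) (W3 := 67108864)
    rfl (fun _ => rfl) k0_pm_023

noncomputable def f_pm_033 : ℕ → ℕ → ℕ → ℕ → Bool := onCell 1610612736 536870912 1610612736 536870912 134217728 67108864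
    (rowF 2 false true false .pnn 0 3 3 (qsf 0 536870912 1610612736 536870912 3) ndF0q0 ndF2q3 pcF3 Cut.none Ext.none)

def k0_pm_033 : ∃ t, chk3 f_pm_033 t 1 1 1 = true :=
  ⟨(a (b (l 4) (a (b (a (l 18042136) (l 4)) (a (l 17446800) (l 17444720))) (b (l 4) (l 103853080007)))) (l 4)), by decide +kernel⟩

theorem c_pm_033 : CertF 0 536870912 1610612736 536870912 134217728 67108864 false true false .pnn 0 3 3
    ndF0q0 ndF2q3 pcF3 Cut.none Ext.none :=
  certF2 (fam := false) (s1 := true) (s2 := false) (a := 0) (b := 3) (c := 3) (cn := .pnn) (n1 := ndF0q0) (n2 := ndF2q3) (pc := pcF3) (cut := Cut.none) (xt := Ext.none) (P1 := 0) (W1 := 536870912) (P2 := 1610612736) (W2 := 536870912) (P3 := 134217728) (W3 := 67108864)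
    rfl (fun _ => rfl) k0_pm_033

noncomputable def f_pm_101 : ℕ → ℕ → ℕ → ℕ → Bool := onCell 536870912 536870912 536870912 536870912 134217728 67108864
    (rowF 0 false true false .npn 1 0 1 (qsf 536870912 536870912 536870912 536870912 0) ndF0q1 ndF2q1 pcF0 Cut.none Ext.none)

def k0_pm_101 : ∃ t, chk3 f_pm_101 t 1 1 1 = true :=
  ⟨(l 4), by decide +kernel⟩

theorem c_pm_101 : CertF 536870912 536870912 536870912 536870912 134217728 67108864 false true false .npn 1 0 1
    ndF0q1 ndF2q1 pcF0 Cut.none Ext.none :=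
  certF0 (fam := false) (s1 := true) (s2 := false) (a := 1) (b := 0) (c := 1) (cn := .npn) (n1 := ndF0q1) (n2 := ndF2q1) (pc := pcF0) (cut := Cut.none) (xt := Ext.none) (P1 := 536870912) (W1 := 536870912) (P2 := 536870912) (W2 := 536870912) (P3 := 134217728) (W3 := 67108864)
    rfl k0_pm_101

noncomputable def cut_pm_102_a : Cut := Cut.of [[⟨0, 1, 0, 67108864⟩, ⟨1, 0, 0, 67108864⟩, ⟨2, 1, 0, 67108864⟩]]

noncomputable def f_pm_102_a : ℕ → ℕ → ℕ → ℕ → Bool := onCell 536870912 536870912 0 536870912 134217728 67108864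
    (rowF 0 false true false .npp 1 0 2 (qsf 536870912 536870912 0 536870912 0) ndF0q1 ndF2q2a pcF0 cut_pm_102_a Ext.none)

def k0_pm_102_a : ∃ t, chk3 f_pm_102_a t 2 1 1 = true :=
  ⟨(a (b (l 43589027735) (b (a (l 2) (l 17454936)) (a (b (l 17627824) (l 17639816)) (b (l 17509184) (l 17513848))))) (b (a (l 17227040) (l 17079520)) (b (a (l 17320584) (l 17175936)) (a (b (l 17387696) (l 17393512)) (b (l 17254000) (l 17336176)))))), by decide +kernel⟩

def k1_pm_102_a : ∃ t, chk3 f_pm_102_a t 6 2 1 = true :=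
  ⟨(a (l 16930504) (b (l 16795408) (l 16850000))), by decide +kernel⟩

def k2_pm_102_a : ∃ t, chk3 f_pm_102_a t 14 2 1 = true :=
  ⟨(a (l 16894656) (b (l 16950488) (a (l 16882704) (l 16887952)))), by decide +kernel⟩

def k3_pm_102_a : ∃ t, chk3 f_pm_102_a t 30 2 1 = true :=
  ⟨(a (b (l 16953128) (l 16872096)) (b (a (b (l 16949864) (l 16926696)) (b (a (c (l 17039256) (l 16833424)) (c (b (l 138680767095) (l 17032056)) (b (c (l 120426931783) (l 120963653463)) (l 16811976)))) (c (l 17012160) (l 16797400)))) (b (l 16760888) (l 16783584)))), by decide +kernel⟩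

def k4_pm_102_a : ∃ t, chk3 f_pm_102_a t 31 4 1 = true :=
  ⟨(a (a (b (a (c (b (l 151565753847) (c (l 150492240935) (l 144586427239))) (c (b (l 146733690039) (b (l 142438714023) (l 139217435655))) (b (l 142438486439) (a (l 122037379911) (b (l 143512221671) (l 137606642151)))))) (l 3)) (a (c (b (c (l 17070688) (l 16953040)) (l 16991016)) (b (b (c (l 119353112231) (l 122037379031)) (l 16749472)) (l 16751600))) (c (c (b (l 151565945575) (l 146197193191)) (b (l 149418210231) (a (l 16920200) (b (l 148881298343) (l 144049410903))))) (c (c (b (a (l 144586192487) (l 3)) (a (l 117205691319) (b (l 146196748839) (l 140828009863)))) (b (a (b (l 145122948823) (l 139754219303)) (l 3)) (a (l 123111141687) (b (l 143512263799) (l 137606642375))))) (b (a (b (l 142438478375) (a (l 124184861495) (l 140827865335))) (l 3)) (a (b (l 124184861127) (l 16735328)) (c (b (l 142438480087) (a (l 125795479143) (l 140290996071))) (b (l 141901602535) (a (l 126332343575) (l 139754118663)))))))))) (b (l 3) (l 3)))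 (l 3)), by decide +kernel⟩

def k5_pm_102_a : ∃ t, chk3 f_pm_102_a t 124 5 1 = true :=
  ⟨(c (b (a (l 16942872) (b (c (l 17013744) (b (l 113447638087) (l 16874624))) (l 16907968))) (l 16814168)) (b (a (l 16741488) (b (a (l 16738992) (b (c (b (l 124721743111) (l 16751336)) (c (l 126332349575) (l 126869214119))) (l 16737672))) (l 16738960))) (l 16742008))), by decide +kernel⟩

def k6_pm_102_a : ∃ t, chk3 f_pm_102_a t 125 10 1 = true :=
  ⟨(a (b (c (a (c (l 148344600375) (c (a (l 110226564823) (l 148344389911)) (b (l 146733664935) (a (l 16826992) (l 144049263495))))) (l 3)) (a (b (a (a (c (b (l 142438491879) (l 127406096919)) (c (l 132237931815) (l 133311667335))) (c (c (l 145122918503) (l 143512226839)) (c (l 142975349495) (l 142438472279)))) (l 3)) (a (b (c (c (l 126332360535) (l 127406096359)) (c (l 127942961015) (l 129016696679))) (c (l 16739736) (l 16733592))) (a (b (c (c (l 142438525911) (l 141364742695)) (c (l 141364736423) (l 140827859351))) (c (c (l 127942973111) (l 129016708599))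 (c (l 129553573351) (l 130627309863)))) (b (l 3) (c (c (l 141901624567) (l 141364742247)) (c (l 141364736087) (l 140827859111))))))) (l 3))) (a (c (c (l 16963688) (b (c (l 16870848) (l 121500590391)) (l 16810192))) (b (a (l 16736920) (b (c (c (l 127406101623) (l 128479837303)) (c (l 129553573079) (l 130627311591))) (c (l 16739264) (l 16733344)))) (l 16736976))) (c (b (c (l 149955138071) (c (l 147270566183) (b (l 146733562855) (l 143512227623)))) (b (c (l 146197005383) (c (l 142975560103) (a (l 127942977287) (l 144049146951)))) (c (l 143512540647) (c (l 139754243639) (a (l 16755840) (l 139217279079)))))) (b (a (a (b (c (c (l 141901618887) (l 141364741815)) (c (l 140827864855) (l 140827858903))) (c (c (l 129016713975) (l 130090449591)) (c (l 131164185639) (l 132237926231)))) (b (l 3) (c (c (l 141901618375) (l 141364741415)) (c (l 140827864567) (l 140827858727))))) (l 3)) (a (b (c (c (l 129016713351) (l 130090449271)) (c (l 131164186583) (l 132774798199))) (c (l 16738856) (l 16733176)))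 (a (b (c (c (l 141364746983) (l 141364741063)) (c (l 140827864327) (l 140827858615))) (c (c (l 130627325927) (l 131701061959)) (c (l 133311672535) (l 133311668823)))) (b (l 3) (c (c (l 141364746535) (l 141364740727)) (c (l 140827864135) (l 141364729447)))))))))) (l 3)), by decide +kernel⟩

def k7_pm_102_a : ∃ t, chk3 f_pm_102_a t 250 11 1 = true :=
  ⟨(b (a (c (l 16837568) (l 16737776)) (c (b (a (c (l 16917824) (l 16769568)) (c (l 109152714887) (a (l 16763480) (c (l 123648078647) (l 130090460935))))) (c (l 16883728) (l 16744608))) (b (a (l 16736384) (b (c (c (l 130627325543) (l 132237933127)) (c (l 133311674311) (l 132774797927))) (c (l 16738528) (l 16733112)))) (l 16736640)))) (c (l 16758640) (l 16738520))), by decide +kernel⟩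

def k8_pm_102_a : ∃ t, chk3 f_pm_102_a t 251 22 1 = true :=
  ⟨(a (c (b (a (c (c (l 147807609751) (l 145659930343)) (c (b (l 145659813591) (a (l 129553597943) (l 143512292951))) (b (l 143512235319) (a (l 131164201671) (l 141901622295))))) (l 3)) (a (c (c (l 16913656) (l 116668829927)) (b (c (l 129553598359) (l 131164201239)) (l 16743624))) (c (c (l 146733792631) (b (l 146733650823) (a (l 122037491655) (l 144586084903)))) (c (b (l 144049105255) (a (l 131701077303) (l 141901626855))) (b (l 142975360839) (a (l 133311684631) (l 141364750535))))))) (b (a (a (b (b (c (c (l 144585971559) (l 144049094951)) (c (l 144049089351) (l 145122825671))) (c (c (l 139754133399) (l 139754127767)) (c (l 139754122231) (l 140827858615)))) (c (c (l 132237937879) (l 134385419207)) (c (l 133848545079) (l 133311668663)))) (b (l 3) (b (c (c (l 144049100279) (l 144049094711)) (c (l 145122831063) (l 146196567511))) (c (c (l 139754133047) (l 139754127559)) (c (l 139217251239) (l 140827858663)))))) (l 3)) (a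 (b (c (c (l 132774809335) (l 133848550359)) (c (l 133311673991) (l 132774797879))) (c (l 16738312) (l 16733168))) (a (b (c (c (l 141364745447) (l 141901610967)) (c (l 143512218407) (l 144585955031))) (c (c (l 134922295639) (l 134385421047)) (c (l 133848544903) (l 133311668759)))) (b (l 3) (c (c (l 141364745207) (l 142975352695)) (c (l 144585960263) (l 145659697015)))))))) (l 3)), by decide +kernel⟩

def k9_pm_102_a : ∃ t, chk3 f_pm_102_a t 251 23 1 = true :=
  ⟨(a (c (b (b (a (l 16746712) (c (c (l 16880808) (l 130090472743)) (c (l 131701076999) (l 133311685959)))) (c (l 16824064) (l 16743592))) (c (l 16791968) (l 16743904))) (b (a (l 16736296) (b (c (c (l 133848555287) (l 133848550039)) (c (l 133311673959) (l 132774797959))) (c (l 16738224) (l 16733368)))) (l 16736824))) (b (c (a (a (b (c (c (l 146733728391) (l 144049114279)) (c (l 141901626375) (l 141364750199))) (c (c (l 115595110647) (l 132237952295)) (c (l 133848560359) (l 135459172583)))) (b (l 3) (c (c (l 146196789223) (b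 (l 145659760375) (l 141364771159))) (c (l 141901625959) (l 141901620839))))) (l 3)) (a (a (b (c (c (l 142438486839) (l 144049094471)) (c (l 145659702199) (l 146733439095))) (c (c (l 134922296807) (l 134385420791)) (c (l 133848544919) (l 133848540055)))) (b (l 3) (c (c (l 143512228551) (l 145122836327)) (b (l 150491537991) (l 139217254439))))) (l 3))) (c (a (b (c (a (l 16792408) (c (l 121500639031) (l 133311693959))) (c (l 134385434215) (l 134385430743))) (c (l 16767000) (l 16743000))) (a (b (c (b (c (l 147807383079) (l 144585985351)) (c (l 143512351351) (l 140827888791))) (c (l 141901625607) (l 142975362471))) (c (c (b (l 128479905607) (l 16797520)) (l 134385437879)) (c (l 135459176727) (l 135459172423)))) (b (l 3) (c (c (c (l 145123006263) (l 142975413223)) (b (l 144585984743) (l 140827888375))) (c (a (l 141364754503) (l 145122850679)) (l 144585975095)))))) (a (b (b (c (c (l 134385425543) (l 133848549639)) (l 133311674071)) (c (l 16737984) (l 16733304))) (c (l 16738296) (l 16733736)))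 (a (b (c (c (l 145122841255) (l 146733449191)) (b (l 151565280135) (l 139217249559))) (c (c (l 134922296551) (l 134385420919)) (l 133848545479))) (b (l 3) (c (c (l 146196583111) (l 147807191207)) (l 149954668023)))))))), by decide +kernel⟩

def k10_pm_102_a : ∃ t, chk3 f_pm_102_a t 63 5 1 = true :=
  ⟨(a (b (l 3) (l 3)) (l 3)), by decide +kernel⟩

def k11_pm_102_a : ∃ t, chk3 f_pm_102_a t 6 3 1 = true :=
  ⟨(b (a (l 17029040) (l 16930464)) (a (b (l 17115056) (b (l 17156920) (l 17145616))) (b (l 16977504) (c (a (l 17113752) (l 17051016)) (b (l 17061880) (l 17029408)))))), by decide +kernel⟩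

def k12_pm_102_a : ∃ t, chk3 f_pm_102_a t 14 6 1 = true :=
  ⟨(a (l 16833008) (a (l 16788064) (l 16795640))), by decide +kernel⟩

def k13_pm_102_a : ∃ t, chk3 f_pm_102_a t 30 6 1 = true :=
  ⟨(a (l 16789904) (b (l 16757376) (l 16763392))), by decide +kernel⟩

def k14_pm_102_a : ∃ t, chk3 f_pm_102_a t 62 6 1 = true :=
  ⟨(b (a (l 16749688) (a (b (l 16744728) (l 16746936)) (b (a (c (l 16746984) (l 16738488)) (b (b (c (a (l 16745608) (c (c (c (l 124721840007) (l 133311701175)) (b (l 135459182951) (l 16746144))) (a (l 16742768) (c (l 135459176855) (l 135459172151))))) (c (c (l 133311683943) (l 132774808551)) (l 132237933191))) (c (c (l 16747776) (l 16743272)) (c (l 16738896) (l 16734656)))) (c (c (l 16748096) (l 16743856)) (l 16737728)))) (c (l 16747880) (l 16740728))))) (a (l 16756048) (b (a (l 16750184) (l 16747568)) (l 16753384)))), by decide +kernel⟩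

def k15_pm_102_a : ∃ t, chk3 f_pm_102_a t 252 24 1 = true :=
  ⟨(a (b (c (a (a (b (c (c (c (l 144049163847) (l 141901633415)) (b (l 144585984359) (l 140827888023))) (c (l 144049111415) (l 145659716903))) (c (c (c (l 133311712327) (l 135996055799)) (b (l 136532923655) (l 16745848))) (c (l 135459176743) (l 135459172119)))) (b (l 3) (c (c (c (l 142438508519) (l 141901633015)) (b (l 145659725911) (l 142438500519))) (c (l 145122850519) (l 147270329703))))) (l 3)) (a (b (c (c (l 148880937655) (l 150491545895)) (l 153175893863)) (c (c (l 138143520087) (l 138143515767)) (l 137606638487))) (l 3))) (c (a (b (c (a (l 16747136) (c (c (l 135996057383) (l 136532926231)) (b (l 136532922631) (l 16745768)))) (c (l 134922305671) (l 134385430311))) (c (l 16747224) (l 16743048))) (b (a (c (b (b (l 3) (c (l 144585988359) (l 147270338471))) (c (c (l 141364764039) (l 140827890919)) (l 140291016727))) (c (l 146733463255) (l 148880942599))) (l 3)) (c (a (b (c (c (l 137069798647) (l 137069795511)) (l 136532922519))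 (c (l 16747840) (l 16745744))) (b (c (a (l 145659732599) (l 3)) (l 148344080183)) (c (c (l 142438505591) (l 140827890743)) (l 140291016679)))) (c (a (l 135459176503) (l 148344076087)) (l 138680395831))))) (c (c (b (l 138680391447) (l 135459166951)) (a (l 133311680727) (l 151565289159))) (a (l 132774805623) (l 153712766807))))) (l 3)), by decide +kernel⟩

def k16_pm_102_a : ∃ t, chk3 f_pm_102_a t 252 25 1 = true :=
  ⟨(a (b (c (a (l 16750984) (b (c (a (l 16747024) (c (c (l 136532926663) (l 135996053703)) (l 135996051639))) (c (l 134922305655) (l 134385430743))) (c (l 16747224) (l 16743400)))) (b (c (l 133311685159) (l 132237935623)) (l 16738208))) (c (c (l 16748224) (l 16744680)) (l 16739536))) (b (c (a (a (b (c (c (c (l 145122859943) (l 146196599719)) (l 147807209415)) (c (l 149417818135) (l 151565297831))) (c (c (c (l 136532926599) (l 135996053639)) (l 135996051639)) (c (l 135459176887) (l 135459172935)))) (b (l 3) (c (c (b (l 149417826087) (l 140827891703)) (l 149417822311)) (c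 (l 151028431207) (l 153175911063))))) (l 3)) (c (b (l 156934000727) (l 140827874487)) (l 141364737463))) (c (a (b (c (c (b (l 135996055511) (l 16748024)) (l 134922310007)) (b (l 134922306103) (l 16743488))) (c (l 16747488) (l 16744016))) (a (b (c (c (a (l 146733471815) (l 150491568039)) (l 149954693511)) (l 152639047847)) (c (c (l 133311701143) (l 132774826711)) (l 131701081143))) (b (l 3) (c (c (l 141901633799) (l 141364759351)) (l 141364754151))))) (a (c (l 133848558087) (l 137069776487)) (c (l 139754134199) (l 138680385623)))))), by decide +kernel⟩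

def k17_pm_102_a : ∃ t, chk3 f_pm_102_a t 253 12 1 = true :=
  ⟨(l 3), by decide +kernel⟩

def k18_pm_102_a : ∃ t, chk3 f_pm_102_a t 127 12 1 = true :=
  ⟨(l 3), by decide +kernel⟩

def k19_pm_102_a : ∃ t, chk3 f_pm_102_a t 63 13 1 = true :=
  ⟨(a (a (b (a (c (l 16748536) (l 16742680)) (b (c (a (l 16746768) (b (c (a (l 16747568) (c (l 134922314135) (l 133848568871))) (l 132237952919)) (c (l 16748056) (l 16744936)))) (a (l 16740536) (c (l 133848559895) (l 143512229975)))) (c (l 16748080) (l 16742520)))) (c (l 16751800) (l 16747272))) (b (a (b (a (c (a (b (c (c (a (l 139217279719) (l 144049117783)) (l 141364759959)) (l 141364755015)) (c (c (a (l 16748440) (l 136532925959)) (l 134922311351)) (l 133848566327))) (b (l 3) (c (c (a (l 140291022103) (l 144049118343)) (l 141364760711)) (l 141364756023)))) (c (l 139754136615) (l 142438485063))) (l 3)) (c (a (b (c (c (b (l 135459184967) (l 16749064)) (l 134922312087)) (a (l 16745344) (l 135459180055))) (c (l 16748944) (l 16746168))) (a (b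 (c (c (a (l 141364764663) (l 145122860903)) (l 141901632519)) (l 141364757191)) (c (c (l 135996056807) (l 135996054807)) (l 135996051959))) (b (l 3) (c (c (l 144049120055) (l 142975375415)) (l 141364758519))))) (c (a (l 131164207831) (l 139754144871)) (l 140291010903)))) (l 3)) (a (b (c (a (l 16749064) (b (c (a (l 16749352) (c (l 135996058679) (l 135996055879))) (l 134385440551)) (c (l 16750176) (l 16747744)))) (a (l 16744152) (c (l 133848565703) (l 133311689655)))) (c (l 16751064) (l 16746800))) (b (a (c (b (c (c (l 146196607303) (l 145122860215)) (l 143512243575)) (c (c (a (l 135996059671) (l 146196606023)) (l 138680411031)) (a (l 135459183719) (l 142975374439)))) (c (a (l 137069788855) (l 142438497639)) (l 138143525735))) (l 3)) (c (a (b (c (c (l 134922319271) (l 134922316903)) (l 134385443703)) (c (l 16751784) (l 16749680))) (b (c (c (l 147807220119) (l 146196605095)) (l 144049118039)) (c (c (l 138680416567) (l 138680414423)) (l 138680411271)))) (c (b (l 138143534007) (l 135996053175))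 (a (l 133311694183) (l 138143530711)))))))) (l 3)), by decide +kernel⟩

def k20_pm_102_a : ∃ t, chk3 f_pm_102_a t 7 7 1 = true :=
  ⟨(b (a (a (l 16879536) (l 16836808)) (a (a (l 16798632) (b (l 16771104) (l 16776336))) (a (a (l 16788240) (b (l 16759216) (l 16766056))) (a (a (b (c (l 16757096) (l 16753800)) (l 16762376)) (b (a (c (l 16755208) (l 16751864)) (b (c (a (l 16752792) (b (c (c (l 131701096919) (l 132774836695)) (l 135459189319)) (c (l 16753784) (l 16751984)))) (b (c (l 133311702007) (l 132774827175)) (l 16749672))) (c (l 16755480) (l 16752392)))) (b (c (l 16759256) (l 16756784)) (l 6)))) (b (a (a (b (a (c (b (a (c (c (l 136532934503) (l 136532932535)) (l 136532929607)) (l 3)) (c (c (a (l 130090485959) (l 136532936519)) (l 138143547671)) (a (l 133848578663) (l 136532937255)))) (c (b (l 140827892983) (l 138680412343)) (l 137606665415))) (l 3)) (c (a (b (c (a (l 16754768) (c (b (l 129016745639) (l 16755232)) (l 133311711863))) (b (l 135459193479) (l 16753368))) (c (l 16756032)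 (l 16754536))) (a (b (c (c (b (l 134385454471) (l 137069810279)) (l 136532937079)) (b (l 134922321127) (l 137069806215))) (c (c (b (l 138680424231) (l 16756272)) (l 139217294151)) (b (l 139217292279) (l 16754448)))) (b (l 3) (c (c (b (l 139754165767) (l 140827908759)) (l 140291035767)) (b (l 138680420087) (l 137069808711)))))) (a (b (c (l 136532932535) (l 137069800087)) (l 16752336)) (b (c (l 135996060343) (l 136532928039)) (c (l 138143547143) (l 138680415127)))))) (l 3)) (l 3)) (a (a (a (b (c (l 16757664) (l 16755168)) (l 6)) (l 6)) (l 6)) (l 3))))))) (a (a (l 17104848) (b (l 16873504) (l 17007640))) (a (b (a (l 16825208) (l 16814472)) (a (b (l 16858976) (l 16870760)) (b (l 16826040) (l 6)))) (b (a (b (l 16774512) (l 6)) (l 6)) (l 6))))), by decide +kernel⟩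

theorem s21_pm_102_a : ∃ t, chk3 f_pm_102_a t 252 12 1 = true := ex3_b k15_pm_102_a k16_pm_102_a

theorem s22_pm_102_a : ∃ t, chk3 f_pm_102_a t 126 12 1 = true := ex3_a s21_pm_102_a k17_pm_102_a

theorem s23_pm_102_a : ∃ t, chk3 f_pm_102_a t 63 12 1 = true := ex3_a s22_pm_102_a k18_pm_102_a

theorem s24_pm_102_a : ∃ t, chk3 f_pm_102_a t 63 6 1 = true := ex3_b s23_pm_102_a k19_pm_102_a

theorem s25_pm_102_a : ∃ t, chk3 f_pm_102_a t 31 6 1 = true := ex3_a k14_pm_102_a s24_pm_102_a

theorem s26_pm_102_a : ∃ t, chk3 f_pm_102_a t 15 6 1 = true := ex3_a k13_pm_102_a s25_pm_102_a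

theorem s27_pm_102_a : ∃ t, chk3 f_pm_102_a t 7 6 1 = true := ex3_a k12_pm_102_a s26_pm_102_a

theorem s28_pm_102_a : ∃ t, chk3 f_pm_102_a t 7 3 1 = true := ex3_b s27_pm_102_a k20_pm_102_a

theorem s29_pm_102_a : ∃ t, chk3 f_pm_102_a t 3 3 1 = true := ex3_a k11_pm_102_a s28_pm_102_a

theorem s30_pm_102_a : ∃ t, chk3 f_pm_102_a t 251 11 1 = true := ex3_b k8_pm_102_a k9_pm_102_a

theorem s31_pm_102_a : ∃ t, chk3 f_pm_102_a t 125 11 1 = true := ex3_a k7_pm_102_a s30_pm_102_a

theorem s32_pm_102_a : ∃ t, chk3 f_pm_102_a t 125 5 1 = true := ex3_b k6_pm_102_a s31_pm_102_a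

theorem s33_pm_102_a : ∃ t, chk3 f_pm_102_a t 62 5 1 = true := ex3_a k5_pm_102_a s32_pm_102_a

theorem s34_pm_102_a : ∃ t, chk3 f_pm_102_a t 31 5 1 = true := ex3_a s33_pm_102_a k10_pm_102_a

theorem s35_pm_102_a : ∃ t, chk3 f_pm_102_a t 31 2 1 = true := ex3_b k4_pm_102_a s34_pm_102_a

theorem s36_pm_102_a : ∃ t, chk3 f_pm_102_a t 15 2 1 = true := ex3_a k3_pm_102_a s35_pm_102_a

theorem s37_pm_102_a : ∃ t, chk3 f_pm_102_a t 7 2 1 = true := ex3_a k2_pm_102_a s36_pm_102_a

theorem s38_pm_102_a : ∃ t, chk3 f_pm_102_a t 3 2 1 = true := ex3_a k1_pm_102_a s37_pm_102_a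

theorem s39_pm_102_a : ∃ t, chk3 f_pm_102_a t 3 1 1 = true := ex3_b s38_pm_102_a s29_pm_102_a

theorem s40_pm_102_a : ∃ t, chk3 f_pm_102_a t 1 1 1 = true := ex3_a k0_pm_102_a s39_pm_102_a

theorem c_pm_102_a : CertF 536870912 536870912 0 536870912 134217728 67108864 false true false .npp 1 0 2
    ndF0q1 ndF2q2a pcF0 cut_pm_102_a Ext.none :=
  certF0 (fam := false) (s1 := true) (s2 := false) (a := 1) (b := 0) (c := 2) (cn := .npp) (n1 := ndF0q1) (n2 := ndF2q2a) (pc := pcF0) (cut := cut_pm_102_a) (xt := Ext.none) (P1 := 536870912) (W1 := 536870912) (P2 := 0) (W2 := 536870912) (P3 := 134217728) (W3 := 67108864)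
    rfl s40_pm_102_a

noncomputable def cut_pm_102_b : Cut := Cut.of [[⟨0, 1, 0, 67108864⟩, ⟨1, 0, 0, 67108864⟩, ⟨2, 1, 0, 67108864⟩]]

noncomputable def f_pm_102_b : ℕ → ℕ → ℕ → ℕ → Bool := onCell 536870912 536870912 1239849684 370763052 134217728 67108864
    (rowF 0 false true false .npp 1 0 2 (qsf 536870912 536870912 1239849684 370763052 0) ndF0q1 ndF2q2b pcF0 cut_pm_102_b Ext.none)

def k0_pm_102_b : ∃ t, chk3 f_pm_102_b t 1 1 1 = true :=
  ⟨(a (b (a (l 2) (a (l 17069760) (l 17105752))) (l 2)) (b (a (b (a (l 17013680) (a (l 16865560) (l 16951192))) (a (l 16911632) (l 17070336))) (a (b (a (l 17029728) (b (l 17032704) (l 17152920))) (a (l 17197728) (l 17362416))) (b (a (a (b (a (l 17053472) (l 17056680)) (l 17198112)) (b (a (c (l 17143144) (l 16947136)) (c (a (l 17021632) (b (c (l 17149232) (l 140291410311)) (l 17196256))) (a (b (l 16899544) (l 17009200)) (b (a (l 16763680) (b (c (l 138143670903) (l 136532975191)) (c (l 16966568) (l 134385493079)))) (b (c (l 17025160) (l 16925336))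 (l 17028728)))))) (a (l 17111056) (c (l 17307544) (b (l 17017144) (l 17179824)))))) (a (a (a (a (b (b (l 3) (c (l 154787154071) (c (l 663203889031) (b (l 527375285415) (l 152639504983))))) (c (l 17275144) (b (l 151028873079) (l 17181640)))) (b (l 3) (l 3))) (l 3)) (l 3)) (l 3))) (a (a (l 17420040) (b (c (l 17399008) (l 17266608)) (l 17402744))) (a (a (b (c (l 154250904887) (l 155861345047)) (l 160156431495)) (l 3)) (l 3)))))) (a (a (l 2) (b (l 17166760) (l 2))) (a (b (a (l 17283768) (l 17357904)) (a (l 2) (l 17368048))) (a (b (b (l 17420840) (l 17433616)) (l 17442720)) (a (b (b (l 159082923591) (l 17484648)) (l 17691120)) (l 3))))))), by decide +kernel⟩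

theorem c_pm_102_b : CertF 536870912 536870912 1239849684 370763052 134217728 67108864 false true false .npp 1 0 2
    ndF0q1 ndF2q2b pcF0 cut_pm_102_b Ext.none :=
  certF0 (fam := false) (s1 := true) (s2 := false) (a := 1) (b := 0) (c := 2) (cn := .npp) (n1 := ndF0q1) (n2 := ndF2q2b) (pc := pcF0) (cut := cut_pm_102_b) (xt := Ext.none) (P1 := 536870912) (W1 := 536870912) (P2 := 1239849684) (W2 := 370763052) (P3 := 134217728) (W3 := 67108864)
    rfl k0_pm_102_b

noncomputable def f_pm_112_a : ℕ → ℕ → ℕ → ℕ → Bool := onCell 536870912 536870912 0 536870912 134217728 67108864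
    (rowF 0 false true false .dn 1 1 2 (qsf 536870912 536870912 0 536870912 1) ndF0q1 ndF2q2a pcF1 Cut.none Ext.none)

def k0_pm_112_a : ∃ t, chk3 f_pm_112_a t 1 1 1 = true :=
  ⟨(a (a (a (b (l 17758664) (b (l 17750560) (b (l 17747472) (c (l 17814024) (l 17683208))))) (b (l 17726368) (b (l 17743288) (l 189014600935)))) (b (l 51575543527) (b (l 1) (l 1)))) (l 1)), by decide +kernel⟩

theorem c_pm_112_a : CertF 536870912 536870912 0 536870912 134217728 67108864 false true false .dn 1 1 2
    ndF0q1 ndF2q2a pcF1 Cut.none Ext.none :=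
  certF0 (fam := false) (s1 := true) (s2 := false) (a := 1) (b := 1) (c := 2) (cn := .dn) (n1 := ndF0q1) (n2 := ndF2q2a) (pc := pcF1) (cut := Cut.none) (xt := Ext.none) (P1 := 536870912) (W1 := 536870912) (P2 := 0) (W2 := 536870912) (P3 := 134217728) (W3 := 67108864)
    rfl k0_pm_112_a

noncomputable def f_pm_112_b : ℕ → ℕ → ℕ → ℕ → Bool := onCell 536870912 536870912 1239849684 370763052 134217728 67108864
    (rowF 0 false true false .dn 1 1 2 (qsf 536870912 536870912 1239849684 370763052 1) ndF0q1 ndF2q2b pcF1 Cut.none Ext.none)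

def k0_pm_112_b : ∃ t, chk3 f_pm_112_b t 1 1 1 = true :=
  ⟨(a (b (a (b (a (l 17808304) (l 17738672)) (l 17918712)) (a (l 17698056) (l 17885728))) (a (a (l 18245808) (l 17959032)) (a (l 17757616) (l 17601856)))) (b (a (b (l 1) (a (l 17825632) (l 150359397639))) (l 1)) (a (a (b (l 17549592) (l 17472136)) (b (l 17443560) (l 17382128))) (a (b (l 217467947927) (l 17470568)) (b (l 1) (a (l 102040726951) (a (l 64996834615) (l 3)))))))), by decide +kernel⟩

theorem c_pm_112_b : CertF 536870912 536870912 1239849684 370763052 134217728 67108864 false true false .dn 1 1 2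
    ndF0q1 ndF2q2b pcF1 Cut.none Ext.none :=
  certF0 (fam := false) (s1 := true) (s2 := false) (a := 1) (b := 1) (c := 2) (cn := .dn) (n1 := ndF0q1) (n2 := ndF2q2b) (pc := pcF1) (cut := Cut.none) (xt := Ext.none) (P1 := 536870912) (W1 := 536870912) (P2 := 1239849684) (W2 := 370763052) (P3 := 134217728) (W3 := 67108864)
    rfl k0_pm_112_b

noncomputable def cut_pm_113 : Cut := Cut.of [[⟨0, 1, 0, 39843005⟩, ⟨1, 1, 0, 39843005⟩, ⟨2, 2, 0, 5814905⟩]]

noncomputable def f_pm_113 : ℕ → ℕ → ℕ → ℕ → Bool := onCell 536870912 536870912 536870912 536870912 134217728 67108864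
    (rowF 1 false true false .nn 1 1 3 (qsf 536870912 536870912 1610612736 536870912 1) ndF0q1 ndF2q3 pcF1 cut_pm_113 Ext.none)

def k0_pm_113 : ∃ t, chk3 f_pm_113 t 1 1 1 = true :=
  ⟨(a (b (b (l 1) (a (l 1) (l 17356904))) (b (a (l 191161935159) (l 17411816)) (a (a (l 18070904) (l 17862016)) (l 17468048)))) (b (b (a (a (l 1) (l 17422160)) (a (b (l 17507512) (l 17480904)) (a (b (l 17594192) (l 17544880)) (a (b (l 138682305719) (l 17582168)) (l 3))))) (a (a (l 17325792) (l 17360688)) (a (b (l 17430704) (l 17359016)) (b (a (l 17470736) (l 195053555607)) (l 155862044087))))) (b (a (l 17419272) (a (l 17220216) (b (l 17488288) (a (l 17142200) (l 17306568))))) (a (a (l 17129024) (l 17055992)) (a (l 17052776) (b (a (l 17023528) (b (l 17020592) (l 17020136))) (a (l 16905856) (a (l 16874104) (b (l 293836531639) (a (l 16827008) (b (l 320679885351) (a (l 16802456) (b (l 16819592) (a (l 16789920) (a (l 16787424) (b (l 16800232) (l 6))))))))))))))))), by decide +kernel⟩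

theorem c_pm_113 : CertF 536870912 536870912 1610612736 536870912 134217728 67108864 false true false .nn 1 1 3
    ndF0q1 ndF2q3 pcF1 cut_pm_113 Ext.none :=
  certF1 (fam := false) (s1 := true) (s2 := false) (a := 1) (b := 1) (c := 3) (cn := .nn) (n1 := ndF0q1) (n2 := ndF2q3) (pc := pcF1) (cut := cut_pm_113) (xt := Ext.none) (P1 := 536870912) (W1 := 536870912) (P2 := 1610612736) (W2 := 536870912) (P3 := 134217728) (W3 := 67108864)
    rfl (fun _ => rfl) k0_pm_113

noncomputable def cut_pm_123 : Cut := Cut.of [[⟨0, 1, 0, 39843005⟩, ⟨1, 1, 0, 39843005⟩, ⟨2, 2, 0, 5814905⟩]]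

noncomputable def f_pm_123 : ℕ → ℕ → ℕ → ℕ → Bool := onCell 1073741824 536870912 1610612736 536870912 134217728 67108864
    (rowF 2 false true false .npn 1 2 3 (qsf 536870912 536870912 1610612736 536870912 2) ndF0q1 ndF2q3 pcF2 cut_pm_123 Ext.none)

def k0_pm_123 : ∃ t, chk3 f_pm_123 t 1 1 1 = true :=
  ⟨(a (b (a (a (b (l 18364728) (l 17877760)) (b (l 18563728) (a (l 18155000) (l 18027096)))) (b (a (l 18768280) (l 1)) (a (l 18111360) (l 18213120)))) (a (b (a (l 17396648) (a (a (l 17494208) (l 17525088)) (l 17564360))) (a (b (a (l 17026248) (l 17107952)) (b (a (l 16889440) (l 16957808)) (a (b (l 16836912) (b (l 16812008) (b (l 16841960) (l 6)))) (l 16867824)))) (a (a (b (l 17168128) (l 16963152)) (b (l 17194864) (l 17197224))) (a (b (l 17218680) (l 17008152)) (l 17380712))))) (a (b (a (b (l 17741160) (l 17512616)) (l 17679528)) (a (a (l 17192592) (b (l 17295504) (l 17135424))) (l 17200632))) (b (l 17732568) (b (l 17401128) (l 17147344)))))) (b (a (b (l 1) (a (l 18298832) (l 1)))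 (l 1)) (a (b (a (l 17861032) (l 17960768)) (a (l 17398472) (l 17492744))) (b (a (l 18031976) (l 1)) (a (l 17609176) (l 17688912)))))), by decide +kernel⟩

theorem c_pm_123 : CertF 536870912 536870912 1610612736 536870912 134217728 67108864 false true false .npn 1 2 3
    ndF0q1 ndF2q3 pcF2 cut_pm_123 Ext.none :=
  certF2 (fam := false) (s1 := true) (s2 := false) (a := 1) (b := 2) (c := 3) (cn := .npn) (n1 := ndF0q1) (n2 := ndF2q3) (pc := pcF2) (cut := cut_pm_123) (xt := Ext.none) (P1 := 536870912) (W1 := 536870912) (P2 := 1610612736) (W2 := 536870912) (P3 := 134217728) (W3 := 67108864)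
    rfl (fun _ => rfl) k0_pm_123

noncomputable def f_pm_133 : ℕ → ℕ → ℕ → ℕ → Bool := onCell 1610612736 536870912 1610612736 536870912 134217728 67108864
    (rowF 2 false true false .dn 1 3 3 (qsf 536870912 536870912 1610612736 536870912 3) ndF0q1 ndF2q3 pcF3 Cut.none Ext.none)

def k0_pm_133 : ∃ t, chk3 f_pm_133 t 1 1 1 = true :=
  ⟨(a (b (l 1) (a (b (l 1) (a (l 17500528) (l 1))) (l 1))) (l 1)), by decide +kernel⟩

theorem c_pm_133 : CertF 536870912 536870912 1610612736 536870912 134217728 67108864 false true false .dn 1 3 3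
    ndF0q1 ndF2q3 pcF3 Cut.none Ext.none :=
  certF2 (fam := false) (s1 := true) (s2 := false) (a := 1) (b := 3) (c := 3) (cn := .dn) (n1 := ndF0q1) (n2 := ndF2q3) (pc := pcF3) (cut := Cut.none) (xt := Ext.none) (P1 := 536870912) (W1 := 536870912) (P2 := 1610612736) (W2 := 536870912) (P3 := 134217728) (W3 := 67108864)
    rfl (fun _ => rfl) k0_pm_133

noncomputable def cut_pm_202_a : Cut := Cut.of [[⟨0, 1, 0, 67108864⟩, ⟨1, 0, 0, 67108864⟩, ⟨2, 1, 0, 67108864⟩]]

noncomputable def f_pm_202_a : ℕ → ℕ → ℕ → ℕ → Bool := onCell 0 536870912 0 536870912 134217728 67108864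
    (rowF 0 false true false .pp 2 0 2 (qsf 0 536870912 0 536870912 0) ndF0q2 ndF2q2a pcF0 cut_pm_202_a Ext.none)

def k0_pm_202_a : ∃ t, chk3 f_pm_202_a t 1 1 1 = true :=
  ⟨(a (l 3) (b (l 3) (a (l 3) (b (l 3) (b (l 3) (a (l 3) (l 6))))))), by decide +kernel⟩

theorem c_pm_202_a : CertF 0 536870912 0 536870912 134217728 67108864 false true false .pp 2 0 2
    ndF0q2 ndF2q2a pcF0 cut_pm_202_a Ext.none :=
  certF0 (fam := false) (s1 := true) (s2 := false) (a := 2) (b := 0) (c := 2) (cn := .pp) (n1 := ndF0q2) (n2 := ndF2q2a) (pc := pcF0) (cut := cut_pm_202_a) (xt := Ext.none) (P1 := 0) (W1 := 536870912) (P2 := 0) (W2 := 536870912) (P3 := 134217728) (W3 := 67108864)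
    rfl k0_pm_202_a

noncomputable def cut_pm_202_b : Cut := Cut.of [[⟨0, 1, 0, 67108864⟩, ⟨1, 0, 0, 67108864⟩, ⟨2, 1, 0, 67108864⟩]]

noncomputable def f_pm_202_b : ℕ → ℕ → ℕ → ℕ → Bool := onCell 0 536870912 1239849684 370763052 134217728 67108864
    (rowF 0 false true false .pp 2 0 2 (qsf 0 536870912 1239849684 370763052 0) ndF0q2 ndF2q2b pcF0 cut_pm_202_b Ext.none)

def k0_pm_202_b : ∃ t, chk3 f_pm_202_b t 1 1 1 = true :=
  ⟨(a (l 3) (l 3)), by decide +kernel⟩

theorem c_pm_202_b : CertF 0 536870912 1239849684 370763052 134217728 67108864 false true false .pp 2 0 2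
    ndF0q2 ndF2q2b pcF0 cut_pm_202_b Ext.none :=
  certF0 (fam := false) (s1 := true) (s2 := false) (a := 2) (b := 0) (c := 2) (cn := .pp) (n1 := ndF0q2) (n2 := ndF2q2b) (pc := pcF0) (cut := cut_pm_202_b) (xt := Ext.none) (P1 := 0) (W1 := 536870912) (P2 := 1239849684) (W2 := 370763052) (P3 := 134217728) (W3 := 67108864)
    rfl k0_pm_202_b

noncomputable def f_pm_203 : ℕ → ℕ → ℕ → ℕ → Bool := onCell 0 536870912 0 536870912 134217728 67108864
    (rowF 1 false true false .up 2 0 3 (qsf 0 536870912 1610612736 536870912 0) ndF0q2 ndF2q3 pcF0 Cut.none Ext.none)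

def k0_pm_203 : ∃ t, chk3 f_pm_203 t 1 1 1 = true :=
  ⟨(b (l 1) (a (l 3) (l 3))), by decide +kernel⟩

theorem c_pm_203 : CertF 0 536870912 1610612736 536870912 134217728 67108864 false true false .up 2 0 3
    ndF0q2 ndF2q3 pcF0 Cut.none Ext.none :=
  certF1 (fam := false) (s1 := true) (s2 := false) (a := 2) (b := 0) (c := 3) (cn := .up) (n1 := ndF0q2) (n2 := ndF2q3) (pc := pcF0) (cut := Cut.none) (xt := Ext.none) (P1 := 0) (W1 := 536870912) (P2 := 1610612736) (W2 := 536870912) (P3 := 134217728) (W3 := 67108864)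
    rfl (fun _ => rfl) k0_pm_203

noncomputable def cut_pm_213 : Cut := Cut.of [[⟨0, 1, 0, 39843005⟩, ⟨1, 1, 0, 39843005⟩, ⟨2, 2, 0, 5814905⟩]]

noncomputable def f_pm_213 : ℕ → ℕ → ℕ → ℕ → Bool := onCell 0 536870912 1610612736 536870912 134217728 67108864
    (rowF 0 false true false .pnn 2 1 3 (qsf 0 536870912 1610612736 536870912 1) ndF0q2 ndF2q3 pcF1 cut_pm_213 Ext.none)

def k0_pm_213 : ∃ t, chk3 f_pm_213 t 1 1 1 = true :=
  ⟨(a (l 3) (a (l 3) (a (b (l 3) (l 3)) (b (l 3) (b (l 3) (b (l 3) (a (l 3) (a (l 3) (b (l 3) (a (l 3) (b (l 3) (b (l 3) (b (l 3) (l 6)))))))))))))), by decide +kernel⟩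

theorem c_pm_213 : CertF 0 536870912 1610612736 536870912 134217728 67108864 false true false .pnn 2 1 3
    ndF0q2 ndF2q3 pcF1 cut_pm_213 Ext.none :=
  certF0 (fam := false) (s1 := true) (s2 := false) (a := 2) (b := 1) (c := 3) (cn := .pnn) (n1 := ndF0q2) (n2 := ndF2q3) (pc := pcF1) (cut := cut_pm_213) (xt := Ext.none) (P1 := 0) (W1 := 536870912) (P2 := 1610612736) (W2 := 536870912) (P3 := 134217728) (W3 := 67108864)
    rfl k0_pm_213

noncomputable def f_mm_001 : ℕ → ℕ → ℕ → ℕ → Bool := onCell 0 536870912 0 536870912 134217728 67108864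
    (rowF 1 false false false .up 0 0 1 (qsf 0 536870912 536870912 536870912 0) ndF0q0 ndF2q1 pcF0 Cut.none Ext.none)

def k0_mm_001 : ∃ t, chk3 f_mm_001 t 1 1 1 = true :=
  ⟨(l 3), by decide +kernel⟩

theorem c_mm_001 : CertF 0 536870912 536870912 536870912 134217728 67108864 false false false .up 0 0 1
    ndF0q0 ndF2q1 pcF0 Cut.none Ext.none :=
  certF1 (fam := false) (s1 := false) (s2 := false) (a := 0) (b := 0) (c := 1) (cn := .up) (n1 := ndF0q0) (n2 := ndF2q1) (pc := pcF0) (cut := Cut.none) (xt := Ext.none) (P1 := 0) (W1 := 536870912) (P2 := 536870912) (W2 := 536870912) (P3 := 134217728) (W3 := 67108864)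
    rfl (fun _ => rfl) k0_mm_001

noncomputable def f_mm_011 : ℕ → ℕ → ℕ → ℕ → Bool := onCell 0 536870912 536870912 536870912 134217728 67108864
    (rowF 1 false false false .pnn 0 1 1 (qsf 0 536870912 536870912 536870912 1) ndF0q0 ndF2q1 pcF1 Cut.none Ext.none)

def k0_mm_011 : ∃ t, chk3 f_mm_011 t 1 1 1 = true :=
  ⟨(l 5), by decide +kernel⟩

theorem c_mm_011 : CertF 0 536870912 536870912 536870912 134217728 67108864 false false false .pnn 0 1 1
    ndF0q0 ndF2q1 pcF1 Cut.none Ext.none :=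
  certF1 (fam := false) (s1 := false) (s2 := false) (a := 0) (b := 1) (c := 1) (cn := .pnn) (n1 := ndF0q0) (n2 := ndF2q1) (pc := pcF1) (cut := Cut.none) (xt := Ext.none) (P1 := 0) (W1 := 536870912) (P2 := 536870912) (W2 := 536870912) (P3 := 134217728) (W3 := 67108864)
    rfl (fun _ => rfl) k0_mm_011

noncomputable def f_mm_012_a : ℕ → ℕ → ℕ → ℕ → Bool := onCell 0 536870912 0 536870912 134217728 67108864
    (rowF 0 false false false .pnp 0 1 2 (qsf 0 536870912 0 536870912 1) ndF0q0 ndF2q2a pcF1 Cut.none Ext.none)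

def k0_mm_012_a : ∃ t, chk3 f_mm_012_a t 1 1 1 = true :=
  ⟨(l 5), by decide +kernel⟩

theorem c_mm_012_a : CertF 0 536870912 0 536870912 134217728 67108864 false false false .pnp 0 1 2
    ndF0q0 ndF2q2a pcF1 Cut.none Ext.none :=
  certF0 (fam := false) (s1 := false) (s2 := false) (a := 0) (b := 1) (c := 2) (cn := .pnp) (n1 := ndF0q0) (n2 := ndF2q2a) (pc := pcF1) (cut := Cut.none) (xt := Ext.none) (P1 := 0) (W1 := 536870912) (P2 := 0) (W2 := 536870912) (P3 := 134217728) (W3 := 67108864)
    rfl k0_mm_012_a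

noncomputable def f_mm_012_b : ℕ → ℕ → ℕ → ℕ → Bool := onCell 0 536870912 1239849684 370763052 134217728 67108864
    (rowF 0 false false false .pnp 0 1 2 (qsf 0 536870912 1239849684 370763052 1) ndF0q0 ndF2q2b pcF1 Cut.none Ext.none)

def k0_mm_012_b : ∃ t, chk3 f_mm_012_b t 1 1 1 = true :=
  ⟨(l 5), by decide +kernel⟩

theorem c_mm_012_b : CertF 0 536870912 1239849684 370763052 134217728 67108864 false false false .pnp 0 1 2
    ndF0q0 ndF2q2b pcF1 Cut.none Ext.none :=
  certF0 (fam := false) (s1 := false) (s2 := false) (a := 0) (b := 1) (c := 2) (cn := .pnp) (n1 := ndF0q0) (n2 := ndF2q2b) (pc := pcF1) (cut := Cut.none) (xt := Ext.none) (P1 := 0) (W1 := 536870912) (P2 := 1239849684) (W2 := 370763052) (P3 := 134217728) (W3 := 67108864)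
    rfl k0_mm_012_b

noncomputable def f_mm_022_a : ℕ → ℕ → ℕ → ℕ → Bool := onCell 0 536870912 0 536870912 134217728 67108864
    (rowF 0 false false false .pp 0 2 2 (qsf 0 536870912 0 536870912 2) ndF0q0 ndF2q2a pcF2 Cut.none Ext.none)

def k0_mm_022_a : ∃ t, chk3 f_mm_022_a t 1 1 1 = true :=
  ⟨(l 5), by decide +kernel⟩

theorem c_mm_022_a : CertF 0 536870912 0 536870912 134217728 67108864 false false false .pp 0 2 2
    ndF0q0 ndF2q2a pcF2 Cut.none Ext.none :=
  certF0 (fam := false) (s1 := false) (s2 := false) (a := 0) (b := 2) (c := 2) (cn := .pp) (n1 := ndF0q0) (n2 := ndF2q2a) (pc := pcF2) (cut := Cut.none) (xt := Ext.none) (P1 := 0) (W1 := 536870912) (P2 := 0) (W2 := 536870912) (P3 := 134217728) (W3 := 67108864)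
    rfl k0_mm_022_a

noncomputable def f_mm_022_b : ℕ → ℕ → ℕ → ℕ → Bool := onCell 0 536870912 1239849684 370763052 134217728 67108864
    (rowF 0 false false false .pp 0 2 2 (qsf 0 536870912 1239849684 370763052 2) ndF0q0 ndF2q2b pcF2 Cut.none Ext.none)

def k0_mm_022_b : ∃ t, chk3 f_mm_022_b t 1 1 1 = true :=
  ⟨(l 5), by decide +kernel⟩

theorem c_mm_022_b : CertF 0 536870912 1239849684 370763052 134217728 67108864 false false false .pp 0 2 2
    ndF0q0 ndF2q2b pcF2 Cut.none Ext.none :=
  certF0 (fam := false) (s1 := false) (s2 := false) (a := 0) (b := 2) (c := 2) (cn := .pp) (n1 := ndF0q0) (n2 := ndF2q2b) (pc := pcF2) (cut := Cut.none) (xt := Ext.none) (P1 := 0) (W1 := 536870912) (P2 := 1239849684) (W2 := 370763052) (P3 := 134217728) (W3 := 67108864)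
    rfl k0_mm_022_b

noncomputable def f_mm_023 : ℕ → ℕ → ℕ → ℕ → Bool := onCell 0 536870912 1610612736 536870912 134217728 67108864
    (rowF 0 false false false .up 0 2 3 (qsf 0 536870912 1610612736 536870912 2) ndF0q0 ndF2q3 pcF2 Cut.none Ext.none)

def k0_mm_023 : ∃ t, chk3 f_mm_023 t 1 1 1 = true :=
  ⟨(l 5), by decide +kernel⟩

theorem c_mm_023 : CertF 0 536870912 1610612736 536870912 134217728 67108864 false false false .up 0 2 3
    ndF0q0 ndF2q3 pcF2 Cut.none Ext.none :=
  certF0 (fam := false) (s1 := false) (s2 := false) (a := 0) (b := 2) (c := 3) (cn := .up) (n1 := ndF0q0) (n2 := ndF2q3) (pc := pcF2) (cut := Cut.none) (xt := Ext.none) (P1 := 0) (W1 := 536870912) (P2 := 1610612736) (W2 := 536870912) (P3 := 134217728) (W3 := 67108864)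
    rfl k0_mm_023

noncomputable def f_mm_033 : ℕ → ℕ → ℕ → ℕ → Bool := onCell 0 536870912 1610612736 536870912 134217728 67108864
    (rowF 0 false false false .pnn 0 3 3 (qsf 0 536870912 1610612736 536870912 3) ndF0q0 ndF2q3 pcF3 Cut.none Ext.none)

def k0_mm_033 : ∃ t, chk3 f_mm_033 t 1 1 1 = true :=
  ⟨(l 5), by decide +kernel⟩

theorem c_mm_033 : CertF 0 536870912 1610612736 536870912 134217728 67108864 false false false .pnn 0 3 3
    ndF0q0 ndF2q3 pcF3 Cut.none Ext.none :=
  certF0 (fam := false) (s1 := false) (s2 := false) (a := 0) (b := 3) (c := 3) (cn := .pnn) (n1 := ndF0q0) (n2 := ndF2q3) (pc := pcF3) (cut := Cut.none) (xt := Ext.none) (P1 := 0) (W1 := 536870912) (P2 := 1610612736) (W2 := 536870912) (P3 := 134217728) (W3 := 67108864)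
    rfl k0_mm_033

noncomputable def f_mm_101 : ℕ → ℕ → ℕ → ℕ → Bool := onCell 0 536870912 536870912 536870912 134217728 67108864
    (rowF 2 false false false .npn 1 0 1 (qsf 536870912 536870912 536870912 536870912 0) ndF0q1 ndF2q1 pcF0 Cut.none Ext.none)

def k0_mm_101 : ∃ t, chk3 f_mm_101 t 1 1 1 = true :=
  ⟨(a (l 3) (l 3)), by decide +kernel⟩

theorem c_mm_101 : CertF 536870912 536870912 536870912 536870912 134217728 67108864 false false false .npn 1 0 1
    ndF0q1 ndF2q1 pcF0 Cut.none Ext.none :=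
  certF2 (fam := false) (s1 := false) (s2 := false) (a := 1) (b := 0) (c := 1) (cn := .npn) (n1 := ndF0q1) (n2 := ndF2q1) (pc := pcF0) (cut := Cut.none) (xt := Ext.none) (P1 := 536870912) (W1 := 536870912) (P2 := 536870912) (W2 := 536870912) (P3 := 134217728) (W3 := 67108864)
    rfl (fun _ => rfl) k0_mm_101

noncomputable def f_mm_102_a : ℕ → ℕ → ℕ → ℕ → Bool := onCell 536870912 536870912 0 536870912 134217728 67108864
    (rowF 0 false false false .npp 1 0 2 (qsf 536870912 536870912 0 536870912 0) ndF0q1 ndF2q2a pcF0 Cut.none Ext.none)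

def k0_mm_102_a : ∃ t, chk3 f_mm_102_a t 1 1 1 = true :=
  ⟨(l 3), by decide +kernel⟩

theorem c_mm_102_a : CertF 536870912 536870912 0 536870912 134217728 67108864 false false false .npp 1 0 2
    ndF0q1 ndF2q2a pcF0 Cut.none Ext.none :=
  certF0 (fam := false) (s1 := false) (s2 := false) (a := 1) (b := 0) (c := 2) (cn := .npp) (n1 := ndF0q1) (n2 := ndF2q2a) (pc := pcF0) (cut := Cut.none) (xt := Ext.none) (P1 := 536870912) (W1 := 536870912) (P2 := 0) (W2 := 536870912) (P3 := 134217728) (W3 := 67108864)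
    rfl k0_mm_102_a

noncomputable def f_mm_102_b : ℕ → ℕ → ℕ → ℕ → Bool := onCell 536870912 536870912 1239849684 370763052 134217728 67108864
    (rowF 0 false false false .npp 1 0 2 (qsf 536870912 536870912 1239849684 370763052 0) ndF0q1 ndF2q2b pcF0 Cut.none Ext.none)

def k0_mm_102_b : ∃ t, chk3 f_mm_102_b t 1 1 1 = true :=
  ⟨(l 5), by decide +kernel⟩

theorem c_mm_102_b : CertF 536870912 536870912 1239849684 370763052 134217728 67108864 false false false .npp 1 0 2
    ndF0q1 ndF2q2b pcF0 Cut.none Ext.none :=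
  certF0 (fam := false) (s1 := false) (s2 := false) (a := 1) (b := 0) (c := 2) (cn := .npp) (n1 := ndF0q1) (n2 := ndF2q2b) (pc := pcF0) (cut := Cut.none) (xt := Ext.none) (P1 := 536870912) (W1 := 536870912) (P2 := 1239849684) (W2 := 370763052) (P3 := 134217728) (W3 := 67108864)
    rfl k0_mm_102_b

noncomputable def f_mm_112_a : ℕ → ℕ → ℕ → ℕ → Bool := onCell 536870912 536870912 0 536870912 134217728 67108864
    (rowF 0 false false false .dn 1 1 2 (qsf 536870912 536870912 0 536870912 1) ndF0q1 ndF2q2a pcF1 Cut.none Ext.none)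

def k0_mm_112_a : ∃ t, chk3 f_mm_112_a t 1 1 1 = true :=
  ⟨(l 3), by decide +kernel⟩

theorem c_mm_112_a : CertF 536870912 536870912 0 536870912 134217728 67108864 false false false .dn 1 1 2
    ndF0q1 ndF2q2a pcF1 Cut.none Ext.none :=
  certF0 (fam := false) (s1 := false) (s2 := false) (a := 1) (b := 1) (c := 2) (cn := .dn) (n1 := ndF0q1) (n2 := ndF2q2a) (pc := pcF1) (cut := Cut.none) (xt := Ext.none) (P1 := 536870912) (W1 := 536870912) (P2 := 0) (W2 := 536870912) (P3 := 134217728) (W3 := 67108864)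
    rfl k0_mm_112_a

noncomputable def f_mm_112_b : ℕ → ℕ → ℕ → ℕ → Bool := onCell 536870912 536870912 1239849684 370763052 134217728 67108864
    (rowF 0 false false false .dn 1 1 2 (qsf 536870912 536870912 1239849684 370763052 1) ndF0q1 ndF2q2b pcF1 Cut.none Ext.none)

def k0_mm_112_b : ∃ t, chk3 f_mm_112_b t 1 1 1 = true :=
  ⟨(l 5), by decide +kernel⟩

theorem c_mm_112_b : CertF 536870912 536870912 1239849684 370763052 134217728 67108864 false false false .dn 1 1 2
    ndF0q1 ndF2q2b pcF1 Cut.none Ext.none :=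
  certF0 (fam := false) (s1 := false) (s2 := false) (a := 1) (b := 1) (c := 2) (cn := .dn) (n1 := ndF0q1) (n2 := ndF2q2b) (pc := pcF1) (cut := Cut.none) (xt := Ext.none) (P1 := 536870912) (W1 := 536870912) (P2 := 1239849684) (W2 := 370763052) (P3 := 134217728) (W3 := 67108864)
    rfl k0_mm_112_b

noncomputable def f_mm_113 : ℕ → ℕ → ℕ → ℕ → Bool := onCell 536870912 536870912 1610612736 536870912 134217728 67108864
    (rowF 0 false false false .nn 1 1 3 (qsf 536870912 536870912 1610612736 536870912 1) ndF0q1 ndF2q3 pcF1 Cut.none Ext.none)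

def k0_mm_113 : ∃ t, chk3 f_mm_113 t 1 1 1 = true :=
  ⟨(l 5), by decide +kernel⟩

theorem c_mm_113 : CertF 536870912 536870912 1610612736 536870912 134217728 67108864 false false false .nn 1 1 3
    ndF0q1 ndF2q3 pcF1 Cut.none Ext.none :=
  certF0 (fam := false) (s1 := false) (s2 := false) (a := 1) (b := 1) (c := 3) (cn := .nn) (n1 := ndF0q1) (n2 := ndF2q3) (pc := pcF1) (cut := Cut.none) (xt := Ext.none) (P1 := 536870912) (W1 := 536870912) (P2 := 1610612736) (W2 := 536870912) (P3 := 134217728) (W3 := 67108864)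
    rfl k0_mm_113

noncomputable def f_mm_123 : ℕ → ℕ → ℕ → ℕ → Bool := onCell 536870912 536870912 1610612736 536870912 134217728 67108864
    (rowF 0 false false false .npn 1 2 3 (qsf 536870912 536870912 1610612736 536870912 2) ndF0q1 ndF2q3 pcF2 Cut.none Ext.none)

def k0_mm_123 : ∃ t, chk3 f_mm_123 t 1 1 1 = true :=
  ⟨(l 5), by decide +kernel⟩

theorem c_mm_123 : CertF 536870912 536870912 1610612736 536870912 134217728 67108864 false false false .npn 1 2 3
    ndF0q1 ndF2q3 pcF2 Cut.none Ext.none :=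
  certF0 (fam := false) (s1 := false) (s2 := false) (a := 1) (b := 2) (c := 3) (cn := .npn) (n1 := ndF0q1) (n2 := ndF2q3) (pc := pcF2) (cut := Cut.none) (xt := Ext.none) (P1 := 536870912) (W1 := 536870912) (P2 := 1610612736) (W2 := 536870912) (P3 := 134217728) (W3 := 67108864)
    rfl k0_mm_123

noncomputable def f_mm_133 : ℕ → ℕ → ℕ → ℕ → Bool := onCell 536870912 536870912 1610612736 536870912 134217728 67108864
    (rowF 0 false false false .dn 1 3 3 (qsf 536870912 536870912 1610612736 536870912 3) ndF0q1 ndF2q3 pcF3 Cut.none Ext.none)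

def k0_mm_133 : ∃ t, chk3 f_mm_133 t 1 1 1 = true :=
  ⟨(l 5), by decide +kernel⟩

theorem c_mm_133 : CertF 536870912 536870912 1610612736 536870912 134217728 67108864 false false false .dn 1 3 3
    ndF0q1 ndF2q3 pcF3 Cut.none Ext.none :=
  certF0 (fam := false) (s1 := false) (s2 := false) (a := 1) (b := 3) (c := 3) (cn := .dn) (n1 := ndF0q1) (n2 := ndF2q3) (pc := pcF3) (cut := Cut.none) (xt := Ext.none) (P1 := 536870912) (W1 := 536870912) (P2 := 1610612736) (W2 := 536870912) (P3 := 134217728) (W3 := 67108864)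
    rfl k0_mm_133

noncomputable def f_mm_202_a : ℕ → ℕ → ℕ → ℕ → Bool := onCell 0 536870912 0 536870912 134217728 67108864
    (rowF 0 false false false .pp 2 0 2 (qsf 0 536870912 0 536870912 0) ndF0q2 ndF2q2a pcF0 Cut.none Ext.none)

def k0_mm_202_a : ∃ t, chk3 f_mm_202_a t 1 1 1 = true :=
  ⟨(l 3), by decide +kernel⟩

theorem c_mm_202_a : CertF 0 536870912 0 536870912 134217728 67108864 false false false .pp 2 0 2
    ndF0q2 ndF2q2a pcF0 Cut.none Ext.none :=
  certF0 (fam := false) (s1 := false) (s2 := false) (a := 2) (b := 0) (c := 2) (cn := .pp) (n1 := ndF0q2) (n2 := ndF2q2a) (pc := pcF0) (cut := Cut.none) (xt := Ext.none) (P1 := 0) (W1 := 536870912) (P2 := 0) (W2 := 536870912) (P3 := 134217728) (W3 := 67108864)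
    rfl k0_mm_202_a

noncomputable def f_mm_202_b : ℕ → ℕ → ℕ → ℕ → Bool := onCell 0 536870912 1239849684 370763052 134217728 67108864
    (rowF 0 false false false .pp 2 0 2 (qsf 0 536870912 1239849684 370763052 0) ndF0q2 ndF2q2b pcF0 Cut.none Ext.none)

def k0_mm_202_b : ∃ t, chk3 f_mm_202_b t 1 1 1 = true :=
  ⟨(l 3), by decide +kernel⟩

theorem c_mm_202_b : CertF 0 536870912 1239849684 370763052 134217728 67108864 false false false .pp 2 0 2
    ndF0q2 ndF2q2b pcF0 Cut.none Ext.none :=
  certF0 (fam := false) (s1 := false) (s2 := false) (a := 2) (b := 0) (c := 2) (cn := .pp) (n1 := ndF0q2) (n2 := ndF2q2b) (pc := pcF0) (cut := Cut.none) (xt := Ext.none) (P1 := 0) (W1 := 536870912) (P2 := 1239849684) (W2 := 370763052) (P3 := 134217728) (W3 := 67108864)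
    rfl k0_mm_202_b

noncomputable def f_mm_203 : ℕ → ℕ → ℕ → ℕ → Bool := onCell 0 536870912 0 536870912 134217728 67108864
    (rowF 1 false false false .up 2 0 3 (qsf 0 536870912 1610612736 536870912 0) ndF0q2 ndF2q3 pcF0 Cut.none Ext.none)

def k0_mm_203 : ∃ t, chk3 f_mm_203 t 1 1 1 = true :=
  ⟨(l 3), by decide +kernel⟩

theorem c_mm_203 : CertF 0 536870912 1610612736 536870912 134217728 67108864 false false false .up 2 0 3
    ndF0q2 ndF2q3 pcF0 Cut.none Ext.none :=
  certF1 (fam := false) (s1 := false) (s2 := false) (a := 2) (b := 0) (c := 3) (cn := .up) (n1 := ndF0q2) (n2 := ndF2q3) (pc := pcF0) (cut := Cut.none) (xt := Ext.none) (P1 := 0) (W1 := 536870912) (P2 := 1610612736) (W2 := 536870912) (P3 := 134217728) (W3 := 67108864)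
    rfl (fun _ => rfl) k0_mm_203

noncomputable def f_mm_213 : ℕ → ℕ → ℕ → ℕ → Bool := onCell 0 536870912 1610612736 536870912 134217728 67108864
    (rowF 0 false false false .pnn 2 1 3 (qsf 0 536870912 1610612736 536870912 1) ndF0q2 ndF2q3 pcF1 Cut.none Ext.none)

def k0_mm_213 : ∃ t, chk3 f_mm_213 t 1 1 1 = true :=
  ⟨(b (l 3) (a (l 3) (l 5))), by decide +kernel⟩

theorem c_mm_213 : CertF 0 536870912 1610612736 536870912 134217728 67108864 false false false .pnn 2 1 3
    ndF0q2 ndF2q3 pcF1 Cut.none Ext.none :=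
  certF0 (fam := false) (s1 := false) (s2 := false) (a := 2) (b := 1) (c := 3) (cn := .pnn) (n1 := ndF0q2) (n2 := ndF2q3) (pc := pcF1) (cut := Cut.none) (xt := Ext.none) (P1 := 0) (W1 := 536870912) (P2 := 1610612736) (W2 := 536870912) (P3 := 134217728) (W3 := 67108864)
    rfl k0_mm_213

end Pool.Agent.Strip051.G.I1_8_3_16.Tab.C.FB02

namespace Pool.Agent.Strip051.G.I1_8_3_16.Tab.C.FB03

open Pool.Agent.Strip051.PB Pool.Agent.Strip051.PB.T
open Pool.Agent.Strip051.G.I1_8_3_16.Tab

noncomputable def f_pp_001 : ℕ → ℕ → ℕ → ℕ → Bool := onCell 0 536870912 0 536870912 134217728 67108864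
    (rowF 1 false true true .up 0 0 1 (qsf 0 536870912 536870912 536870912 0) ndF0q0 ndF3q1 pcF0 Cut.none Ext.none)

def k0_pp_001 : ∃ t, chk3 f_pp_001 t 1 1 1 = true :=
  ⟨(l 3), by decide +kernel⟩

theorem c_pp_001 : CertF 0 536870912 536870912 536870912 134217728 67108864 false true true .up 0 0 1
    ndF0q0 ndF3q1 pcF0 Cut.none Ext.none :=
  certF1 (fam := false) (s1 := true) (s2 := true) (a := 0) (b := 0) (c := 1) (cn := .up) (n1 := ndF0q0) (n2 := ndF3q1) (pc := pcF0) (cut := Cut.none) (xt := Ext.none) (P1 := 0) (W1 := 536870912) (P2 := 536870912) (W2 := 536870912) (P3 := 134217728) (W3 := 67108864)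
    rfl (fun _ => rfl) k0_pp_001

noncomputable def cut_pp_011 : Cut := Cut.of [[⟨0, 0, 0, 67108864⟩, ⟨1, 1, 0, 67108864⟩, ⟨2, 1, 0, 67108864⟩]]

noncomputable def f_pp_011 : ℕ → ℕ → ℕ → ℕ → Bool := onCell 0 536870912 536870912 536870912 134217728 67108864
    (rowF 1 false true true .pnn 0 1 1 (qsf 0 536870912 536870912 536870912 1) ndF0q0 ndF3q1 pcF1 cut_pp_011 Ext.none)

def k0_pp_011 : ∃ t, chk3 f_pp_011 t 1 1 1 = true :=
  ⟨(b (l 3) (a (a (b (l 3) (b (l 3) (a (b (l 3) (a (l 6) (l 3))) (l 3)))) (l 3)) (l 3))), by decide +kernel⟩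

theorem c_pp_011 : CertF 0 536870912 536870912 536870912 134217728 67108864 false true true .pnn 0 1 1
    ndF0q0 ndF3q1 pcF1 cut_pp_011 Ext.none :=
  certF1 (fam := false) (s1 := true) (s2 := true) (a := 0) (b := 1) (c := 1) (cn := .pnn) (n1 := ndF0q0) (n2 := ndF3q1) (pc := pcF1) (cut := cut_pp_011) (xt := Ext.none) (P1 := 0) (W1 := 536870912) (P2 := 536870912) (W2 := 536870912) (P3 := 134217728) (W3 := 67108864)
    rfl (fun _ => rfl) k0_pp_011

noncomputable def f_pp_012 : ℕ → ℕ → ℕ → ℕ → Bool := onCell 0 536870912 536870912 536870912 134217728 67108864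
    (rowF 1 false true true .pnp 0 1 2 (qsf 0 536870912 1073741824 536870912 1) ndF0q0 ndF3q2 pcF1 Cut.none Ext.none)

def k0_pp_012 : ∃ t, chk3 f_pp_012 t 1 1 1 = true :=
  ⟨(l 3), by decide +kernel⟩

theorem c_pp_012 : CertF 0 536870912 1073741824 536870912 134217728 67108864 false true true .pnp 0 1 2
    ndF0q0 ndF3q2 pcF1 Cut.none Ext.none :=
  certF1 (fam := false) (s1 := true) (s2 := true) (a := 0) (b := 1) (c := 2) (cn := .pnp) (n1 := ndF0q0) (n2 := ndF3q2) (pc := pcF1) (cut := Cut.none) (xt := Ext.none) (P1 := 0) (W1 := 536870912) (P2 := 1073741824) (W2 := 536870912) (P3 := 134217728) (W3 := 67108864)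
    rfl (fun _ => rfl) k0_pp_012

noncomputable def f_pp_022 : ℕ → ℕ → ℕ → ℕ → Bool := onCell 1073741824 536870912 1073741824 536870912 134217728 67108864
    (rowF 2 false true true .pp 0 2 2 (qsf 0 536870912 1073741824 536870912 2) ndF0q0 ndF3q2 pcF2 Cut.none Ext.none)

def k0_pp_022 : ∃ t, chk3 f_pp_022 t 4 4 1 = true :=
  ⟨(a (l 3) (b (a (l 3) (l 1)) (b (a (l 3) (b (l 1) (b (l 1) (b (l 1) (a (c (l 87677411399) (a (l 16621712) (l 1))) (l 1)))))) (b (a (l 3) (a (b (b (a (c (l 16608120) (a (l 16605320) (l 16594920))) (l 1)) (a (c (l 19494779191) (a (l 16604416) (b (l 16594968) (l 16594272)))) (c (l 16601664) (l 16584144)))) (a (c (b (l 16600784) (l 16598800)) (b (l 16618600) (l 16595960))) (c (b (l 16599744) (l 16587512)) (c (l 16597248) (l 16589568))))) (a (b (l 1) (c (l 16610776) (l 16591616))) (l 1)))) (a (l 3) (a (b (c (a (l 16613744) (l 16608040)) (a (l 16612320) (l 16597072))) (c (a (l 16614920) (l 16593944)) (b (l 16599488) (l 16597288)))) (b (c (a (l 16607096) (l 16594824))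 (a (l 16585864) (l 16573936))) (c (a (l 16593352) (l 16591904)) (a (l 16570232) (l 16569088)))))))))), by decide +kernel⟩

def k1_pp_022 : ∃ t, chk3 f_pp_022 t 4 10 1 = true :=
  ⟨(b (a (l 3) (b (b (a (l 3) (a (c (a (l 16590000) (l 16590440)) (b (l 16595024) (l 16592712))) (c (l 16600440) (l 16575840)))) (a (a (l 3) (c (l 16609704) (l 16628440))) (a (c (a (l 16606792) (l 16586672)) (l 16604448)) (c (l 16597192) (l 16581848))))) (a (a (l 3) (a (l 3) (b (c (l 16639568) (l 16595968)) (c (b (l 16747144) (b (l 16795776) (l 16826560))) (b (l 16572584) (b (l 16571776) (l 16613032))))))) (b (a (c (a (l 16636448) (l 16636512)) (b (l 16585776) (l 16583648))) (c (c (l 16836528) (l 16575528)) (l 16577040))) (b (a (c (a (l 16748672) (l 16752896)) (l 16581920)) (c (l 16762944) (l 16552280))) (a (c (b (a (l 16799232) (l 16805184)) (a (l 16831216) (l 16838232))) (b (l 16601888) (c (l 16595256) (l 16606640)))) (c (b (l 16733824) (a (l 16805192) (l 16731840))) (b (l 16549976) (l 16576448)))))))))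 (a (l 3) (a (a (l 3) (a (l 3) (b (c (b (l 16898688) (l 16999632)) (l 16604704)) (c (l 17123720) (l 16651280))))) (a (b (c (a (b (l 16906432) (l 17011504)) (b (l 16916272) (l 17025128))) (a (l 16583264) (l 16566560))) (c (a (l 17140336) (l 17158336)) (a (l 16645352) (l 16641568)))) (b (c (b (a (l 16927896) (l 16941088)) (l 16964776)) (b (l 16547080) (l 16544696))) (c (c (l 17324416) (l 17051456)) (b (l 16576232) (l 16697616)))))))), by decide +kernel⟩

def k2_pp_022 : ∃ t, chk3 f_pp_022 t 4 11 1 = true :=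
  ⟨(a (l 3) (a (a (l 3) (b (c (b (l 17239840) (l 17333144)) (b (l 16835136) (l 16972552))) (c (b (l 17404568) (l 17460760)) (b (l 17079496) (l 17167056))))) (b (a (c (b (l 17219000) (l 17380376)) (b (l 16839296) (l 16987912))) (c (b (l 17328192) (l 17431072)) (b (l 16849672) (l 17008296)))) (a (c (b (l 17454432) (l 17510696)) (b (l 17102312) (l 17192992))) (c (l 17537304) (b (l 17129360) (l 17222672))))))), by decide +kernel⟩

def k3_pp_022 : ∃ t, chk3 f_pp_022 t 5 4 1 = true :=
  ⟨(a (b (l 1) (b (l 1) (a (a (b (l 1) (b (l 1) (c (l 16608664) (l 16586400)))) (l 1)) (l 1)))) (l 1)), by decide +kernel⟩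

def k4_pp_022 : ∃ t, chk3 f_pp_022 t 10 20 1 = true :=
  ⟨(a (a (b (b (c (a (l 16586800) (l 16562112)) (a (l 16562648) (l 16538248))) (c (a (l 16563048) (l 16580584)) (a (l 16558576) (l 16555376)))) (b (c (a (l 16647856) (l 16653776)) (a (l 16554168) (l 16551184))) (b (c (a (l 16776136) (l 16786008)) (l 16560064)) (b (c (a (l 16833344) (l 16844856)) (c (l 16553456) (l 16541784))) (c (a (c (l 17053152) (l 16685088)) (c (l 17072368) (l 16690904))) (a (l 16568216) (l 16565568))))))) (a (b (b (l 1) (c (l 16557400) (l 16552984))) (b (c (b (l 16612376) (c (l 16927384) (l 16547176))) (l 16549480)) (b (c (l 16799136) (l 16525768)) (c (b (l 16859584) (c (l 17094376) (l 16700160))) (b (l 16524008) (l 16564920)))))) (b (l 1) (b (c (b (l 1) (l 16727032)) (l 16554624)) (b (c (a (l 16812688) (l 16821952)) (l 16552192)) (c (b (a (l 16874848) (c (l 17092912) (l 16677512))) (a (c (l 17114400) (l 16711536)) (c (l 17129008) (a (l 16719048) (l 16724160))))) (b (l 16550560) (a (l 16546904) (l 16571456)))))))))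 (b (l 1) (b (l 1) (b (l 1) (b (l 1) (b (l 1) (c (l 16954248) (l 16520040)))))))), by decide +kernel⟩

def k5_pp_022 : ∃ t, chk3 f_pp_022 t 10 21 1 = true :=
  ⟨(a (a (b (c (a (b (l 16955496) (l 17075088)) (b (l 16970768) (l 17093928))) (a (l 16546520) (l 16544360))) (c (a (l 17220592) (l 17243480)) (a (l 16640832) (l 16643208)))) (b (c (a (b (l 16905024) (l 17115408)) (b (c (l 17204832) (l 16820616)) (l 16952776))) (a (l 16554840) (b (l 16549224) (l 16527664)))) (c (a (l 17268440) (c (l 17453960) (l 17138576))) (a (l 16648920) (b (l 16587552) (l 16725304)))))) (b (c (a (b (a (c (l 17228272) (l 16835528)) (l 17042272)) (a (l 17166640) (l 17122496))) (b (l 1) (l 17200904))) (a (b (l 16525840) (l 16525752)) (l 16516472))) (c (a (b (l 17288808) (l 17381688)) (b (l 17286592) (l 17434408))) (a (b (l 16597904) (l 16740704)) (b (a (l 16605896) (l 16611112)) (l 16759088)))))), by decide +kernel⟩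

def k6_pp_022 : ∃ t, chk3 f_pp_022 t 11 10 1 = true :=
  ⟨(b (l 1) (b (l 1) (a (c (l 17419400) (b (l 1) (l 16780768))) (l 1)))), by decide +kernel⟩

def k7_pp_022 : ∃ t, chk3 f_pp_022 t 5 11 1 = true :=
  ⟨(a (a (a (b (c (b (l 17358000) (l 17485816)) (b (a (l 16861112) (l 16870184)) (l 17033736))) (c (b (l 17563824) (l 17619560)) (b (l 17160976) (l 17256616)))) (b (c (b (a (l 17419832) (l 17449456)) (l 17543824)) (b (a (l 16881880) (l 16897040)) (a (l 17056256) (l 17074216)))) (c (b (l 17622032) (l 17676008)) (b (l 17197240) (l 17293632))))) (b (b (c (l 17335656) (b (l 16875728) (l 16983872))) (c (l 17637304) (l 17119312))) (b (c (l 17716488) (l 17258120)) (l 17395848)))) (b (c (a (b (a (l 17605656) (l 17637040)) (l 17654656)) (l 17757848)) (a (b (a (b (l 16911568) (l 17031032)) (l 16992248)) (a (l 17177016) (l 17148672))) (b (l 1) (l 17244792)))) (c (b (a (l 17848208) (l 17953296)) (l 17960784)) (b (a (l 17346128) (a (l 17409184) (l 17436176))) (a (l 17447800) (l 17540056)))))),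 by decide +kernel⟩

def k8_pp_022 : ∃ t, chk3 f_pp_022 t 2 3 1 = true :=
  ⟨(a (a (l 3) (b (b (a (a (l 3) (b (c (l 17522112) (l 17267760)) (l 17297576))) (a (c (l 17599536) (b (l 17296272) (l 17389624))) (c (l 17650536) (l 17380888)))) (a (c (l 113986137015) (a (l 17392552) (l 17435560))) (a (l 17556360) (l 17596936)))) (b (a (a (l 17476104) (l 17524536)) (a (l 17561712) (l 17600824))) (a (l 131165811063) (a (l 17521336) (l 17559248)))))) (a (b (a (a (b (c (l 17703976) (l 17416904)) (l 17639256)) (b (c (l 17754280) (l 17452384)) (l 17678136))) (b (b (l 17475064) (l 17707280)) (l 17748184))) (b (a (l 17654968) (l 17740656)) (l 17655488))) (b (b (b (c (l 18011248) (l 17605640)) (l 17868352)) (b (l 17894504) (l 17899568))) (b (l 17880208) (l 17821080))))), by decide +kernel⟩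

def k9_pp_022 : ∃ t, chk3 f_pp_022 t 3 1 1 = true :=
  ⟨(b (a (b (l 1) (a (b (l 1) (b (l 1) (b (l 1) (l 67144110759)))) (l 1))) (l 1)) (b (a (b (a (c (b (l 18213128) (l 18272736)) (b (l 17764016) (l 17886776))) (l 120831929175)) (a (l 18109784) (l 18288016))) (b (l 1) (l 158951170167))) (a (a (b (l 18070840) (l 17997168)) (b (l 18264736) (l 18173616))) (b (a (l 18429352) (l 18536792)) (l 18423440))))), by decide +kernel⟩

theorem s10_pp_022 : ∃ t, chk3 f_pp_022 t 10 10 1 = true := ex3_b k4_pp_022 k5_pp_022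

theorem s11_pp_022 : ∃ t, chk3 f_pp_022 t 5 10 1 = true := ex3_a s10_pp_022 k6_pp_022

theorem s12_pp_022 : ∃ t, chk3 f_pp_022 t 5 5 1 = true := ex3_b s11_pp_022 k7_pp_022

theorem s13_pp_022 : ∃ t, chk3 f_pp_022 t 5 2 1 = true := ex3_b k3_pp_022 s12_pp_022

theorem s14_pp_022 : ∃ t, chk3 f_pp_022 t 4 5 1 = true := ex3_b k1_pp_022 k2_pp_022

theorem s15_pp_022 : ∃ t, chk3 f_pp_022 t 4 2 1 = true := ex3_b k0_pp_022 s14_pp_022

theorem s16_pp_022 : ∃ t, chk3 f_pp_022 t 2 2 1 = true := ex3_a s15_pp_022 s13_pp_022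

theorem s17_pp_022 : ∃ t, chk3 f_pp_022 t 2 1 1 = true := ex3_b s16_pp_022 k8_pp_022

theorem s18_pp_022 : ∃ t, chk3 f_pp_022 t 1 1 1 = true := ex3_a s17_pp_022 k9_pp_022

theorem c_pp_022 : CertF 0 536870912 1073741824 536870912 134217728 67108864 false true true .pp 0 2 2
    ndF0q0 ndF3q2 pcF2 Cut.none Ext.none :=
  certF2 (fam := false) (s1 := true) (s2 := true) (a := 0) (b := 2) (c := 2) (cn := .pp) (n1 := ndF0q0) (n2 := ndF3q2) (pc := pcF2) (cut := Cut.none) (xt := Ext.none) (P1 := 0) (W1 := 536870912) (P2 := 1073741824) (W2 := 536870912) (P3 := 134217728) (W3 := 67108864)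
    rfl (fun _ => rfl) s18_pp_022

noncomputable def f_pp_023 : ℕ → ℕ → ℕ → ℕ → Bool := onCell 1073741824 536870912 0 1230186008 134217728 67108864
    (rowF 2 false true true .up 0 2 3 (qsf 0 536870912 0 1230186008 2) ndF0q0 ndF3q3 pcF2 Cut.none Ext.none)

def k0_pp_023 : ∃ t, chk3 f_pp_023 t 1 1 1 = true :=
  ⟨(b (a (l 2) (a (l 2) (b (l 17452368) (l 17582512)))) (b (a (b (l 2) (a (l 2) (a (l 2) (l 17544304)))) (a (b (a (l 2) (l 17453096)) (a (l 17487984) (l 17590408))) (b (l 17637656) (l 17769152)))) (a (b (a (l 2) (a (a (a (l 17455096) (l 17480120)) (l 17506432)) (l 17757864))) (a (a (b (l 2) (l 3)) (a (b (l 17610888) (a (l 17577352) (l 17598544))) (b (l 17557248) (a (l 17620856) (l 17644496))))) (a (b (a (l 17595600) (l 17637416)) (l 17711632)) (b (l 17715120) (l 17819304))))) (a (b (a (l 17666424) (l 17776336)) (a (b (l 17822960) (l 17928008)) (l 17978536))) (b (l 17934288) (l 18112488)))))), by decide +kernel⟩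

theorem c_pp_023 : CertF 0 536870912 0 1230186008 134217728 67108864 false true true .up 0 2 3
    ndF0q0 ndF3q3 pcF2 Cut.none Ext.none :=
  certF2 (fam := false) (s1 := true) (s2 := true) (a := 0) (b := 2) (c := 3) (cn := .up) (n1 := ndF0q0) (n2 := ndF3q3) (pc := pcF2) (cut := Cut.none) (xt := Ext.none) (P1 := 0) (W1 := 536870912) (P2 := 0) (W2 := 1230186008) (P3 := 134217728) (W3 := 67108864)
    rfl (fun _ => rfl) k0_pp_023

noncomputable def f_pp_033 : ℕ → ℕ → ℕ → ℕ → Bool := onCell 1610612736 536870912 0 1230186008 134217728 67108864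
    (rowF 2 false true true .pnn 0 3 3 (qsf 0 536870912 0 1230186008 3) ndF0q0 ndF3q3 pcF3 Cut.none Ext.none)

def k0_pp_033 : ∃ t, chk3 f_pp_033 t 1 1 1 = true :=
  ⟨(a (b (a (b (l 17313584) (a (l 17055720) (l 17229224))) (b (l 17403792) (a (l 17440480) (l 17558824)))) (b (a (b (l 17312288) (l 17497904)) (a (l 17590760) (l 17720944))) (a (b (l 17708616) (l 18182624)) (b (b (l 17835856) (l 17939768)) (l 18094856))))) (a (b (a (l 17727656) (l 4)) (b (a (l 17887784) (l 17920384)) (l 1))) (b (l 4) (a (b (l 18008744) (l 1)) (l 1))))), by decide +kernel⟩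

theorem c_pp_033 : CertF 0 536870912 0 1230186008 134217728 67108864 false true true .pnn 0 3 3
    ndF0q0 ndF3q3 pcF3 Cut.none Ext.none :=
  certF2 (fam := false) (s1 := true) (s2 := true) (a := 0) (b := 3) (c := 3) (cn := .pnn) (n1 := ndF0q0) (n2 := ndF3q3) (pc := pcF3) (cut := Cut.none) (xt := Ext.none) (P1 := 0) (W1 := 536870912) (P2 := 0) (W2 := 1230186008) (P3 := 134217728) (W3 := 67108864)
    rfl (fun _ => rfl) k0_pp_033

noncomputable def f_pp_101 : ℕ → ℕ → ℕ → ℕ → Bool := onCell 536870912 536870912 536870912 536870912 134217728 67108864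
    (rowF 0 false true true .npn 1 0 1 (qsf 536870912 536870912 536870912 536870912 0) ndF0q1 ndF3q1 pcF0 Cut.none Ext.none)

def k0_pp_101 : ∃ t, chk3 f_pp_101 t 1 1 1 = true :=
  ⟨(a (l 3) (l 5)), by decide +kernel⟩

theorem c_pp_101 : CertF 536870912 536870912 536870912 536870912 134217728 67108864 false true true .npn 1 0 1
    ndF0q1 ndF3q1 pcF0 Cut.none Ext.none :=
  certF0 (fam := false) (s1 := true) (s2 := true) (a := 1) (b := 0) (c := 1) (cn := .npn) (n1 := ndF0q1) (n2 := ndF3q1) (pc := pcF0) (cut := Cut.none) (xt := Ext.none) (P1 := 536870912) (W1 := 536870912) (P2 := 536870912) (W2 := 536870912) (P3 := 134217728) (W3 := 67108864)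
    rfl k0_pp_101

noncomputable def f_pp_102 : ℕ → ℕ → ℕ → ℕ → Bool := onCell 536870912 536870912 0 536870912 134217728 67108864
    (rowF 1 false true true .npp 1 0 2 (qsf 536870912 536870912 1073741824 536870912 0) ndF0q1 ndF3q2 pcF0 Cut.none Ext.none)

def k0_pp_102 : ∃ t, chk3 f_pp_102 t 1 1 1 = true :=
  ⟨(l 3), by decide +kernel⟩

theorem c_pp_102 : CertF 536870912 536870912 1073741824 536870912 134217728 67108864 false true true .npp 1 0 2
    ndF0q1 ndF3q2 pcF0 Cut.none Ext.none :=
  certF1 (fam := false) (s1 := true) (s2 := true) (a := 1) (b := 0) (c := 2) (cn := .npp) (n1 := ndF0q1) (n2 := ndF3q2) (pc := pcF0) (cut := Cut.none) (xt := Ext.none) (P1 := 536870912) (W1 := 536870912) (P2 := 1073741824) (W2 := 536870912) (P3 := 134217728) (W3 := 67108864)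
    rfl (fun _ => rfl) k0_pp_102

noncomputable def f_pp_112 : ℕ → ℕ → ℕ → ℕ → Bool := onCell 536870912 536870912 1073741824 536870912 134217728 67108864
    (rowF 0 false true true .dn 1 1 2 (qsf 536870912 536870912 1073741824 536870912 1) ndF0q1 ndF3q2 pcF1 Cut.none Ext.none)

def k0_pp_112 : ∃ t, chk3 f_pp_112 t 1 1 1 = true :=
  ⟨(a (l 3) (l 3)), by decide +kernel⟩

theorem c_pp_112 : CertF 536870912 536870912 1073741824 536870912 134217728 67108864 false true true .dn 1 1 2
    ndF0q1 ndF3q2 pcF1 Cut.none Ext.none :=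
  certF0 (fam := false) (s1 := true) (s2 := true) (a := 1) (b := 1) (c := 2) (cn := .dn) (n1 := ndF0q1) (n2 := ndF3q2) (pc := pcF1) (cut := Cut.none) (xt := Ext.none) (P1 := 536870912) (W1 := 536870912) (P2 := 1073741824) (W2 := 536870912) (P3 := 134217728) (W3 := 67108864)
    rfl k0_pp_112

noncomputable def cut_pp_113 : Cut := Cut.of [[⟨0, 1, 0, 39843005⟩, ⟨1, 1, 0, 39843005⟩, ⟨2, 2, 0, 5814905⟩]]

noncomputable def f_pp_113 : ℕ → ℕ → ℕ → ℕ → Bool := onCell 536870912 536870912 0 1230186008 134217728 67108864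
    (rowF 2 false true true .nn 1 1 3 (qsf 536870912 536870912 0 1230186008 1) ndF0q1 ndF3q3 pcF1 cut_pp_113 Ext.none)

def k0_pp_113 : ∃ t, chk3 f_pp_113 t 1 1 1 = true :=
  ⟨(b (a (l 2) (a (l 2) (b (a (l 2) (a (l 2) (b (b (l 6) (l 3)) (l 3)))) (l 3)))) (a (b (l 3) (a (l 3) (l 3))) (b (a (l 3) (l 3)) (l 3)))), by decide +kernel⟩

theorem c_pp_113 : CertF 536870912 536870912 0 1230186008 134217728 67108864 false true true .nn 1 1 3
    ndF0q1 ndF3q3 pcF1 cut_pp_113 Ext.none :=
  certF2 (fam := false) (s1 := true) (s2 := true) (a := 1) (b := 1) (c := 3) (cn := .nn) (n1 := ndF0q1) (n2 := ndF3q3) (pc := pcF1) (cut := cut_pp_113) (xt := Ext.none) (P1 := 536870912) (W1 := 536870912) (P2 := 0) (W2 := 1230186008) (P3 := 134217728) (W3 := 67108864)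
    rfl (fun _ => rfl) k0_pp_113

noncomputable def cut_pp_123 : Cut := Cut.of [[⟨0, 1, 0, 39843005⟩, ⟨1, 1, 0, 39843005⟩, ⟨2, 2, 0, 5814905⟩]]

noncomputable def f_pp_123 : ℕ → ℕ → ℕ → ℕ → Bool := onCell 1073741824 536870912 0 1230186008 134217728 67108864
    (rowF 2 false true true .npn 1 2 3 (qsf 536870912 536870912 0 1230186008 2) ndF0q1 ndF3q3 pcF2 cut_pp_123 Ext.none)

def k0_pp_123 : ∃ t, chk3 f_pp_123 t 1 2 1 = true :=
  ⟨(b (a (b (a (a (a (b (l 6) (b (l 6) (a (a (a (l 3) (l 294909942647)) (a (l 167134674775) (l 16792936))) (l 16801216)))) (l 16825360)) (a (a (l 16864576) (l 16886552)) (l 17021216))) (a (a (a (l 16947112) (l 16968976)) (l 16982584)) (l 17023512))) (a (a (a (a (a (l 3) (b (a (b (l 246054696071) (l 253570873847)) (l 16818152)) (l 247128487879))) (b (l 16851488) (l 16884064))) (a (l 16831896) (l 16848832))) (a (a (l 16872344) (l 16893448)) (l 17011752))) (a (a (a (l 16955320) (l 16977840)) (l 16993104)) (l 17035728)))) (a (l 17210936) (l 17452360))) (a (a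 (a (a (a (b (l 3) (l 3)) (b (b (l 255718575207) (l 250886797911)) (b (l 229948799959) (l 234243971655)))) (a (b (l 16914792) (b (l 16918424) (l 16957392))) (a (l 17175232) (l 17137152)))) (a (a (l 17175592) (b (l 16928512) (l 16996416))) (a (l 17193296) (l 17069112)))) (a (a (a (l 17028568) (b (l 17016144) (l 17088280))) (l 17073480)) (a (l 17102488) (l 17130192)))) (a (a (l 17213672) (l 17336336)) (l 17606080)))), by decide +kernel⟩

def k1_pp_123 : ∃ t, chk3 f_pp_123 t 1 3 1 = true :=
  ⟨(b (a (b (a (a (a (l 3) (b (l 17145152) (l 206864063623))) (a (a (l 17108912) (l 17123136)) (a (l 17125072) (l 17147824)))) (a (a (a (l 17171024) (l 17216480)) (l 17220832)) (l 17367800))) (a (a (a (l 3) (b (l 200421761127) (l 192905698599))) (a (a (l 17376984) (l 17248448)) (a (l 17265136) (l 17285376)))) (a (a (a (l 17306016) (l 17326416)) (l 17353984)) (l 17544240)))) (a (b (a (l 17347112) (l 17453504)) (a (l 17488920) (l 17594608))) (b (l 17837088) (l 1)))) (a (b (a (a (a (l 3) (b (l 172504487255)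 (l 173578513271))) (a (b (l 17356984) (l 17432928)) (b (l 17390944) (l 17468960)))) (a (a (a (l 17455064) (l 17480168)) (l 17506848)) (a (l 17550104) (l 17592856)))) (a (a (b (a (l 3) (l 168746890679)) (l 3)) (b (a (a (l 17506760) (l 17523224)) (l 17620512)) (a (c (l 17645672) (l 102040992567)) (l 1)))) (a (b (a (l 17596424) (l 1)) (l 1)) (l 1)))) (l 1))), by decide +kernel⟩

theorem s2_pp_123 : ∃ t, chk3 f_pp_123 t 1 1 1 = true := ex3_b k0_pp_123 k1_pp_123

theorem c_pp_123 : CertF 536870912 536870912 0 1230186008 134217728 67108864 false true true .npn 1 2 3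
    ndF0q1 ndF3q3 pcF2 cut_pp_123 Ext.none :=
  certF2 (fam := false) (s1 := true) (s2 := true) (a := 1) (b := 2) (c := 3) (cn := .npn) (n1 := ndF0q1) (n2 := ndF3q3) (pc := pcF2) (cut := cut_pp_123) (xt := Ext.none) (P1 := 536870912) (W1 := 536870912) (P2 := 0) (W2 := 1230186008) (P3 := 134217728) (W3 := 67108864)
    rfl (fun _ => rfl) s2_pp_123

noncomputable def f_pp_133 : ℕ → ℕ → ℕ → ℕ → Bool := onCell 1610612736 536870912 0 1230186008 134217728 67108864
    (rowF 2 false true true .dn 1 3 3 (qsf 536870912 536870912 0 1230186008 3) ndF0q1 ndF3q3 pcF3 Cut.none Ext.none)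

def k0_pp_133 : ∃ t, chk3 f_pp_133 t 1 1 1 = true :=
  ⟨(b (b (a (a (l 446711363415) (l 1)) (l 1)) (l 1)) (l 1)), by decide +kernel⟩

theorem c_pp_133 : CertF 536870912 536870912 0 1230186008 134217728 67108864 false true true .dn 1 3 3
    ndF0q1 ndF3q3 pcF3 Cut.none Ext.none :=
  certF2 (fam := false) (s1 := true) (s2 := true) (a := 1) (b := 3) (c := 3) (cn := .dn) (n1 := ndF0q1) (n2 := ndF3q3) (pc := pcF3) (cut := Cut.none) (xt := Ext.none) (P1 := 536870912) (W1 := 536870912) (P2 := 0) (W2 := 1230186008) (P3 := 134217728) (W3 := 67108864)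
    rfl (fun _ => rfl) k0_pp_133

noncomputable def f_pp_202 : ℕ → ℕ → ℕ → ℕ → Bool := onCell 0 536870912 1073741824 536870912 134217728 67108864
    (rowF 0 false true true .pp 2 0 2 (qsf 0 536870912 1073741824 536870912 0) ndF0q2 ndF3q2 pcF0 Cut.none Ext.none)

def k0_pp_202 : ∃ t, chk3 f_pp_202 t 1 1 1 = true :=
  ⟨(l 3), by decide +kernel⟩

theorem c_pp_202 : CertF 0 536870912 1073741824 536870912 134217728 67108864 false true true .pp 2 0 2
    ndF0q2 ndF3q2 pcF0 Cut.none Ext.none :=
  certF0 (fam := false) (s1 := true) (s2 := true) (a := 2) (b := 0) (c := 2) (cn := .pp) (n1 := ndF0q2) (n2 := ndF3q2) (pc := pcF0) (cut := Cut.none) (xt := Ext.none) (P1 := 0) (W1 := 536870912) (P2 := 1073741824) (W2 := 536870912) (P3 := 134217728) (W3 := 67108864)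
    rfl k0_pp_202

noncomputable def f_pp_203 : ℕ → ℕ → ℕ → ℕ → Bool := onCell 0 536870912 0 1230186008 134217728 67108864
    (rowF 0 false true true .up 2 0 3 (qsf 0 536870912 0 1230186008 0) ndF0q2 ndF3q3 pcF0 Cut.none Ext.none)

def k0_pp_203 : ∃ t, chk3 f_pp_203 t 1 1 1 = true :=
  ⟨(b (l 2) (l 3)), by decide +kernel⟩

theorem c_pp_203 : CertF 0 536870912 0 1230186008 134217728 67108864 false true true .up 2 0 3
    ndF0q2 ndF3q3 pcF0 Cut.none Ext.none :=
  certF0 (fam := false) (s1 := true) (s2 := true) (a := 2) (b := 0) (c := 3) (cn := .up) (n1 := ndF0q2) (n2 := ndF3q3) (pc := pcF0) (cut := Cut.none) (xt := Ext.none) (P1 := 0) (W1 := 536870912) (P2 := 0) (W2 := 1230186008) (P3 := 134217728) (W3 := 67108864)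
    rfl k0_pp_203

noncomputable def cut_pp_213 : Cut := Cut.of [[⟨0, 1, 0, 39843005⟩, ⟨1, 1, 0, 39843005⟩, ⟨2, 2, 0, 5814905⟩]]

noncomputable def f_pp_213 : ℕ → ℕ → ℕ → ℕ → Bool := onCell 0 536870912 0 1230186008 134217728 67108864
    (rowF 0 false true true .pnn 2 1 3 (qsf 0 536870912 0 1230186008 1) ndF0q2 ndF3q3 pcF1 cut_pp_213 Ext.none)

def k0_pp_213 : ∃ t, chk3 f_pp_213 t 1 1 1 = true :=
  ⟨(b (a (l 3) (b (a (l 3) (a (l 3) (a (l 3) (b (b (l 6) (l 3)) (l 3))))) (l 3))) (l 3)), by decide +kernel⟩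

theorem c_pp_213 : CertF 0 536870912 0 1230186008 134217728 67108864 false true true .pnn 2 1 3
    ndF0q2 ndF3q3 pcF1 cut_pp_213 Ext.none :=
  certF0 (fam := false) (s1 := true) (s2 := true) (a := 2) (b := 1) (c := 3) (cn := .pnn) (n1 := ndF0q2) (n2 := ndF3q3) (pc := pcF1) (cut := cut_pp_213) (xt := Ext.none) (P1 := 0) (W1 := 536870912) (P2 := 0) (W2 := 1230186008) (P3 := 134217728) (W3 := 67108864)
    rfl k0_pp_213

noncomputable def f_pm_001 : ℕ → ℕ → ℕ → ℕ → Bool := onCell 0 536870912 536870912 536870912 134217728 67108864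
    (rowF 0 false true false .up 0 0 1 (qsf 0 536870912 536870912 536870912 0) ndF0q0 ndF3q1 pcF0 Cut.none Ext.none)

def k0_pm_001 : ∃ t, chk3 f_pm_001 t 1 1 1 = true :=
  ⟨(l 4), by decide +kernel⟩

theorem c_pm_001 : CertF 0 536870912 536870912 536870912 134217728 67108864 false true false .up 0 0 1
    ndF0q0 ndF3q1 pcF0 Cut.none Ext.none :=
  certF0 (fam := false) (s1 := true) (s2 := false) (a := 0) (b := 0) (c := 1) (cn := .up) (n1 := ndF0q0) (n2 := ndF3q1) (pc := pcF0) (cut := Cut.none) (xt := Ext.none) (P1 := 0) (W1 := 536870912) (P2 := 536870912) (W2 := 536870912) (P3 := 134217728) (W3 := 67108864)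
    rfl k0_pm_001

noncomputable def f_pm_011 : ℕ → ℕ → ℕ → ℕ → Bool := onCell 0 536870912 536870912 536870912 134217728 67108864
    (rowF 0 false true false .pnn 0 1 1 (qsf 0 536870912 536870912 536870912 1) ndF0q0 ndF3q1 pcF1 Cut.none Ext.none)

def k0_pm_011 : ∃ t, chk3 f_pm_011 t 1 1 1 = true :=
  ⟨(l 4), by decide +kernel⟩

theorem c_pm_011 : CertF 0 536870912 536870912 536870912 134217728 67108864 false true false .pnn 0 1 1
    ndF0q0 ndF3q1 pcF1 Cut.none Ext.none :=
  certF0 (fam := false) (s1 := true) (s2 := false) (a := 0) (b := 1) (c := 1) (cn := .pnn) (n1 := ndF0q0) (n2 := ndF3q1) (pc := pcF1) (cut := Cut.none) (xt := Ext.none) (P1 := 0) (W1 := 536870912) (P2 := 536870912) (W2 := 536870912) (P3 := 134217728) (W3 := 67108864)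
    rfl k0_pm_011

noncomputable def f_pm_012 : ℕ → ℕ → ℕ → ℕ → Bool := onCell 0 536870912 1073741824 536870912 134217728 67108864
    (rowF 0 false true false .pnp 0 1 2 (qsf 0 536870912 1073741824 536870912 1) ndF0q0 ndF3q2 pcF1 Cut.none Ext.none)

def k0_pm_012 : ∃ t, chk3 f_pm_012 t 1 1 1 = true :=
  ⟨(a (l 4) (b (a (b (a (l 4) (b (c (l 55535339095) (b (l 51239584423) (l 4))) (l 4))) (l 4)) (b (a (b (c (l 18114024) (b (l 17821328) (l 17935624))) (b (b (l 18151096) (c (l 18331744) (l 18063952))) (b (l 18241552) (l 18286728)))) (b (c (l 18188928) (l 17976888)) (b (b (l 18216072) (l 18253760)) (b (l 18287280) (l 18322464))))) (b (b (b (a (l 18330016) (l 18355280)) (a (l 55536277703) (l 18391696))) (a (l 18426960) (l 18429920))) (a (b (l 18507816) (l 18597280)) (a (l 18530352) (l 18502872)))))) (a (l 4) (b (a (b (l 18766544) (l 18995840)) (b (a (l 18711344) (l 18653824)) (a (b (l 18856416) (l 18951624)) (b (l 18782088) (l 18866544))))) (a (l 4) (b (b (a (a (l 19071848) (l 19029952))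 (l 18951296)) (a (l 19133104) (a (l 19043432) (l 18995584)))) (l 19167384))))))), by decide +kernel⟩

theorem c_pm_012 : CertF 0 536870912 1073741824 536870912 134217728 67108864 false true false .pnp 0 1 2
    ndF0q0 ndF3q2 pcF1 Cut.none Ext.none :=
  certF0 (fam := false) (s1 := true) (s2 := false) (a := 0) (b := 1) (c := 2) (cn := .pnp) (n1 := ndF0q0) (n2 := ndF3q2) (pc := pcF1) (cut := Cut.none) (xt := Ext.none) (P1 := 0) (W1 := 536870912) (P2 := 1073741824) (W2 := 536870912) (P3 := 134217728) (W3 := 67108864)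
    rfl k0_pm_012

noncomputable def f_pm_022 : ℕ → ℕ → ℕ → ℕ → Bool := onCell 1073741824 536870912 1073741824 536870912 134217728 67108864
    (rowF 2 false true false .pp 0 2 2 (qsf 0 536870912 1073741824 536870912 2) ndF0q0 ndF3q2 pcF2 Cut.none Ext.none)

def k0_pm_022 : ∃ t, chk3 f_pm_022 t 1 1 1 = true :=
  ⟨(a (b (l 4) (b (l 4) (a (a (l 111372368423) (l 4)) (l 4)))) (l 4)), by decide +kernel⟩

theorem c_pm_022 : CertF 0 536870912 1073741824 536870912 134217728 67108864 false true false .pp 0 2 2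
    ndF0q0 ndF3q2 pcF2 Cut.none Ext.none :=
  certF2 (fam := false) (s1 := true) (s2 := false) (a := 0) (b := 2) (c := 2) (cn := .pp) (n1 := ndF0q0) (n2 := ndF3q2) (pc := pcF2) (cut := Cut.none) (xt := Ext.none) (P1 := 0) (W1 := 536870912) (P2 := 1073741824) (W2 := 536870912) (P3 := 134217728) (W3 := 67108864)
    rfl (fun _ => rfl) k0_pm_022

noncomputable def f_pm_023 : ℕ → ℕ → ℕ → ℕ → Bool := onCell 0 536870912 0 1230186008 134217728 67108864
    (rowF 0 false true false .up 0 2 3 (qsf 0 536870912 0 1230186008 2) ndF0q0 ndF3q3 pcF2 Cut.none Ext.none)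

def k0_pm_023 : ∃ t, chk3 f_pm_023 t 1 1 1 = true :=
  ⟨(a (b (l 2) (l 4)) (a (b (l 2) (b (l 4) (l 4))) (b (b (l 17588272) (a (l 17752560) (l 17711640))) (b (b (a (l 17952984) (l 17927448)) (a (l 18165624) (l 18140032))) (b (a (l 18418176) (l 18401368)) (a (l 4) (l 18710520))))))), by decide +kernel⟩

theorem c_pm_023 : CertF 0 536870912 0 1230186008 134217728 67108864 false true false .up 0 2 3
    ndF0q0 ndF3q3 pcF2 Cut.none Ext.none :=
  certF0 (fam := false) (s1 := true) (s2 := false) (a := 0) (b := 2) (c := 3) (cn := .up) (n1 := ndF0q0) (n2 := ndF3q3) (pc := pcF2) (cut := Cut.none) (xt := Ext.none) (P1 := 0) (W1 := 536870912) (P2 := 0) (W2 := 1230186008) (P3 := 134217728) (W3 := 67108864)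
    rfl k0_pm_023

noncomputable def f_pm_033 : ℕ → ℕ → ℕ → ℕ → Bool := onCell 1610612736 536870912 0 1230186008 134217728 67108864
    (rowF 2 false true false .pnn 0 3 3 (qsf 0 536870912 0 1230186008 3) ndF0q0 ndF3q3 pcF3 Cut.none Ext.none)

def k0_pm_033 : ∃ t, chk3 f_pm_033 t 1 1 1 = true :=
  ⟨(b (a (a (b (a (l 17190232) (l 17423344)) (a (l 17613912) (l 17466352))) (b (l 17425832) (l 4))) (l 4)) (a (b (a (l 4) (l 4)) (l 4)) (l 4))), by decide +kernel⟩

theorem c_pm_033 : CertF 0 536870912 0 1230186008 134217728 67108864 false true false .pnn 0 3 3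
    ndF0q0 ndF3q3 pcF3 Cut.none Ext.none :=
  certF2 (fam := false) (s1 := true) (s2 := false) (a := 0) (b := 3) (c := 3) (cn := .pnn) (n1 := ndF0q0) (n2 := ndF3q3) (pc := pcF3) (cut := Cut.none) (xt := Ext.none) (P1 := 0) (W1 := 536870912) (P2 := 0) (W2 := 1230186008) (P3 := 134217728) (W3 := 67108864)
    rfl (fun _ => rfl) k0_pm_033

noncomputable def f_pm_101 : ℕ → ℕ → ℕ → ℕ → Bool := onCell 536870912 536870912 536870912 536870912 134217728 67108864
    (rowF 0 false true false .npn 1 0 1 (qsf 536870912 536870912 536870912 536870912 0) ndF0q1 ndF3q1 pcF0 Cut.none Ext.none)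

def k0_pm_101 : ∃ t, chk3 f_pm_101 t 1 1 1 = true :=
  ⟨(l 4), by decide +kernel⟩

theorem c_pm_101 : CertF 536870912 536870912 536870912 536870912 134217728 67108864 false true false .npn 1 0 1
    ndF0q1 ndF3q1 pcF0 Cut.none Ext.none :=
  certF0 (fam := false) (s1 := true) (s2 := false) (a := 1) (b := 0) (c := 1) (cn := .npn) (n1 := ndF0q1) (n2 := ndF3q1) (pc := pcF0) (cut := Cut.none) (xt := Ext.none) (P1 := 536870912) (W1 := 536870912) (P2 := 536870912) (W2 := 536870912) (P3 := 134217728) (W3 := 67108864)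
    rfl k0_pm_101

noncomputable def f_pm_102 : ℕ → ℕ → ℕ → ℕ → Bool := onCell 536870912 536870912 1073741824 536870912 134217728 67108864
    (rowF 0 false true false .npp 1 0 2 (qsf 536870912 536870912 1073741824 536870912 0) ndF0q1 ndF3q2 pcF0 Cut.none Ext.none)

def k0_pm_102 : ∃ t, chk3 f_pm_102 t 1 1 1 = true :=
  ⟨(a (b (a (b (a (b (a (l 17622848) (l 17556128)) (b (b (l 17597592) (l 2)) (l 2))) (b (l 17515232) (b (b (l 17493992) (l 17474512)) (l 17407184)))) (b (a (l 2) (b (l 17389336) (l 2))) (l 2))) (b (b (l 17705776) (b (b (l 17430008) (l 17395144)) (b (l 17354720) (l 17315216)))) (b (b (b (l 17272160) (l 17232696)) (l 17234336)) (a (l 17092328) (l 16973088))))) (a (l 2) (b (a (l 2) (l 17115904)) (l 2)))) (b (a (b (b (a (l 17462616) (l 17450792)) (b (b (l 17371704) (l 17383152)) (b (l 17463288) (l 17240064)))) (b (b (b (l 17167344) (a (l 17119720) (l 17061680))) (l 17224896)) (a (l 16868848) (l 16873872)))) (b (a (b (b (l 17466008) (l 17380584)) (b (b (l 17307320) (l 17418992))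 (b (l 17192464) (l 17119608)))) (b (b (l 17435504) (a (l 17341048) (l 17313248))) (b (b (l 17409704) (b (l 17254640) (l 17255648))) (b (l 17246656) (l 17102984))))) (b (b (b (a (l 17056656) (l 17012400)) (a (l 17009048) (b (l 16972096) (l 16976016)))) (a (l 16966712) (l 17108824))) (a (l 17190576) (b (l 17113312) (l 17226792)))))) (a (b (a (b (l 16824752) (l 16885456)) (b (l 16986320) (l 17078464))) (l 17075616)) (b (a (b (l 17182752) (l 17271368)) (a (l 17371968) (b (l 17395640) (l 17498296)))) (a (l 17338400) (b (l 17725112) (l 17561928))))))), by decide +kernel⟩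

theorem c_pm_102 : CertF 536870912 536870912 1073741824 536870912 134217728 67108864 false true false .npp 1 0 2
    ndF0q1 ndF3q2 pcF0 Cut.none Ext.none :=
  certF0 (fam := false) (s1 := true) (s2 := false) (a := 1) (b := 0) (c := 2) (cn := .npp) (n1 := ndF0q1) (n2 := ndF3q2) (pc := pcF0) (cut := Cut.none) (xt := Ext.none) (P1 := 536870912) (W1 := 536870912) (P2 := 1073741824) (W2 := 536870912) (P3 := 134217728) (W3 := 67108864)
    rfl k0_pm_102

noncomputable def f_pm_112 : ℕ → ℕ → ℕ → ℕ → Bool := onCell 536870912 536870912 1073741824 536870912 134217728 67108864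
    (rowF 2 false true false .dn 1 1 2 (qsf 536870912 536870912 1073741824 536870912 1) ndF0q1 ndF3q2 pcF1 Cut.none Ext.none)

def k0_pm_112 : ∃ t, chk3 f_pm_112 t 1 1 1 = true :=
  ⟨(a (b (a (b (b (a (c (l 18220744) (l 18016856)) (l 255586843415)) (b (b (l 46744747207) (a (l 18301000) (l 18269736))) (b (l 18479976) (l 18334904)))) (b (b (b (l 18346248) (a (l 18336640) (l 18374920))) (l 18351688)) (a (l 18219632) (l 18298616)))) (b (b (l 1) (b (l 1) (b (l 1) (l 275988752999)))) (b (b (b (l 233576042807) (a (l 18391712) (l 1))) (l 103116534599)) (b (l 18434104) (l 18440752))))) (a (b (a (b (l 18029832) (l 17909504)) (b (l 18190824) (l 17999592))) (a (b (l 17701096) (l 17513408)) (l 17668440))) (b (a (b (l 18325784) (l 18124384)) (b (l 18460208) (l 18344608))) (b (l 18293216) (l 17824032))))) (b (a (b (l 1) (b (l 1) (a (b (l 1) (l 18540064)) (l 1)))) (l 1)) (a (b (a (b (l 18611472) (l 18542520)) (b (l 18948520) (l 18752848))) (a (b (l 18344728) (l 18164240)) (b (l 18630512) (l 18402912))))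 (a (a (b (l 296390941127) (l 18727528)) (b (l 1) (l 214786582199))) (b (l 1) (b (l 19125888) (l 19036344))))))), by decide +kernel⟩

theorem c_pm_112 : CertF 536870912 536870912 1073741824 536870912 134217728 67108864 false true false .dn 1 1 2
    ndF0q1 ndF3q2 pcF1 Cut.none Ext.none :=
  certF2 (fam := false) (s1 := true) (s2 := false) (a := 1) (b := 1) (c := 2) (cn := .dn) (n1 := ndF0q1) (n2 := ndF3q2) (pc := pcF1) (cut := Cut.none) (xt := Ext.none) (P1 := 536870912) (W1 := 536870912) (P2 := 1073741824) (W2 := 536870912) (P3 := 134217728) (W3 := 67108864)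
    rfl (fun _ => rfl) k0_pm_112

noncomputable def cut_pm_113 : Cut := Cut.of [[⟨0, 1, 0, 39843005⟩, ⟨1, 1, 0, 39843005⟩, ⟨2, 2, 0, 5814905⟩]]

noncomputable def f_pm_113 : ℕ → ℕ → ℕ → ℕ → Bool := onCell 536870912 536870912 0 1230186008 134217728 67108864
    (rowF 0 false true false .nn 1 1 3 (qsf 536870912 536870912 0 1230186008 1) ndF0q1 ndF3q3 pcF1 cut_pm_113 Ext.none)

def k0_pm_113 : ∃ t, chk3 f_pm_113 t 1 1 1 = true :=
  ⟨(b (a (l 2) (a (l 2) (b (a (l 2) (a (l 2) (b (b (l 6) (l 16829416)) (l 16856288)))) (a (b (l 16839624) (l 16903640)) (b (l 17009456) (l 17004464)))))) (b (a (b (l 2) (a (l 2) (a (l 2) (l 17783632)))) (a (b (a (l 2) (l 16999008)) (a (l 17338048) (l 17048880))) (b (a (l 17001136) (l 17046992)) (a (l 17120384) (l 17200432))))) (a (b (a (l 2) (l 18103296)) (a (a (b (l 2) (l 18722656)) (b (l 18455200) (b (a (l 18457408) (l 18250256)) (a (l 18391456) (l 18183632))))) (l 17964456))) (a (b (a (l 17371632) (l 17167688)) (l 17451912)) (b (a (l 17249720) (a (l 17304624)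 (l 17352032))) (a (l 17551392) (b (l 17422992) (l 17467848)))))))), by decide +kernel⟩

theorem c_pm_113 : CertF 536870912 536870912 0 1230186008 134217728 67108864 false true false .nn 1 1 3
    ndF0q1 ndF3q3 pcF1 cut_pm_113 Ext.none :=
  certF0 (fam := false) (s1 := true) (s2 := false) (a := 1) (b := 1) (c := 3) (cn := .nn) (n1 := ndF0q1) (n2 := ndF3q3) (pc := pcF1) (cut := cut_pm_113) (xt := Ext.none) (P1 := 536870912) (W1 := 536870912) (P2 := 0) (W2 := 1230186008) (P3 := 134217728) (W3 := 67108864)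
    rfl k0_pm_113

noncomputable def cut_pm_123 : Cut := Cut.of [[⟨0, 1, 0, 39843005⟩, ⟨1, 1, 0, 39843005⟩, ⟨2, 2, 0, 5814905⟩]]

noncomputable def f_pm_123 : ℕ → ℕ → ℕ → ℕ → Bool := onCell 1073741824 536870912 0 1230186008 134217728 67108864
    (rowF 2 false true false .npn 1 2 3 (qsf 536870912 536870912 0 1230186008 2) ndF0q1 ndF3q3 pcF2 cut_pm_123 Ext.none)

def k0_pm_123 : ∃ t, chk3 f_pm_123 t 1 1 1 = true :=
  ⟨(b (b (a (a (a (a (b (b (l 6) (l 16822400)) (l 16834032)) (b (l 16840040) (l 16891872))) (a (a (l 16916448) (b (l 16907848) (l 16970144))) (a (l 16959944) (l 16980832)))) (a (a (a (l 16999216) (l 17146992)) (l 17037872)) (l 17090240))) (a (l 17284832) (l 17508952))) (a (a (a (b (l 17207112) (l 17116032)) (a (a (l 17134688) (l 17154648)) (a (l 17177136) (l 17201320)))) (a (a (a (l 17225360) (l 17251520)) (l 17283440)) (l 17371240))) (a (a (l 17484376) (l 17584616)) (a (l 17666112) (l 17715856))))) (b (a (b (a (a (l 17350776) (a (a (l 17437568) (l 17470512)) (l 17492224)))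 (a (a (l 17573696) (l 17630344)) (l 17717064))) (a (a (l 17767344) (a (l 17763416) (l 17856016))) (l 18237104))) (a (a (l 17971624) (l 110094924759)) (b (l 18102904) (l 1)))) (a (a (a (b (l 18141264) (l 18640264)) (b (l 18248400) (l 18894704))) (b (a (l 18333320) (l 18388656)) (a (l 208343803095) (l 1)))) (l 1)))), by decide +kernel⟩

theorem c_pm_123 : CertF 536870912 536870912 0 1230186008 134217728 67108864 false true false .npn 1 2 3
    ndF0q1 ndF3q3 pcF2 cut_pm_123 Ext.none :=
  certF2 (fam := false) (s1 := true) (s2 := false) (a := 1) (b := 2) (c := 3) (cn := .npn) (n1 := ndF0q1) (n2 := ndF3q3) (pc := pcF2) (cut := cut_pm_123) (xt := Ext.none) (P1 := 536870912) (W1 := 536870912) (P2 := 0) (W2 := 1230186008) (P3 := 134217728) (W3 := 67108864)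
    rfl (fun _ => rfl) k0_pm_123

noncomputable def f_pm_133 : ℕ → ℕ → ℕ → ℕ → Bool := onCell 536870912 536870912 0 1230186008 134217728 67108864
    (rowF 0 false true false .dn 1 3 3 (qsf 536870912 536870912 0 1230186008 3) ndF0q1 ndF3q3 pcF3 Cut.none Ext.none)

def k0_pm_133 : ∃ t, chk3 f_pm_133 t 1 1 1 = true :=
  ⟨(b (b (a (a (a (l 16837616) (l 1)) (l 1)) (l 1)) (l 1)) (l 1)), by decide +kernel⟩

theorem c_pm_133 : CertF 536870912 536870912 0 1230186008 134217728 67108864 false true false .dn 1 3 3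
    ndF0q1 ndF3q3 pcF3 Cut.none Ext.none :=
  certF0 (fam := false) (s1 := true) (s2 := false) (a := 1) (b := 3) (c := 3) (cn := .dn) (n1 := ndF0q1) (n2 := ndF3q3) (pc := pcF3) (cut := Cut.none) (xt := Ext.none) (P1 := 536870912) (W1 := 536870912) (P2 := 0) (W2 := 1230186008) (P3 := 134217728) (W3 := 67108864)
    rfl k0_pm_133

noncomputable def f_pm_202 : ℕ → ℕ → ℕ → ℕ → Bool := onCell 0 536870912 1073741824 536870912 134217728 67108864
    (rowF 0 false true false .pp 2 0 2 (qsf 0 536870912 1073741824 536870912 0) ndF0q2 ndF3q2 pcF0 Cut.none Ext.none)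

def k0_pm_202 : ∃ t, chk3 f_pm_202 t 2 1 1 = true :=
  ⟨(b (l 3) (l 3)), by decide +kernel⟩

def k1_pm_202 : ∃ t, chk3 f_pm_202 t 6 4 1 = true :=
  ⟨(a (b (l 1) (b (l 1) (b (a (l 3) (l 3)) (l 3)))) (b (l 1) (b (b (a (l 1) (b (l 1) (l 16879400))) (b (a (b (l 1) (l 643204995911)) (a (l 16890168) (l 16850792))) (a (a (a (l 1) (b (l 1) (c (l 16651224) (l 16654720)))) (b (l 16723112) (l 16711200))) (l 16901856)))) (b (c (a (b (a (b (a (b (l 16618064) (l 139753872071)) (l 16614304)) (a (l 144048840375) (l 16602928))) (l 16739624)) (a (a (a (l 141364509831) (l 16621608)) (l 16621640)) (l 16667512))) (b (l 16713512) (a (l 16619136) (l 16670744)))) (b (a (a (b (a (a (b (l 16623928) (l 16618848)) (l 16648168)) (l 16624168)) (a (a (l 16604232) (l 16608496)) (l 16618552))) (l 16747408)) (l 16710512)) (a (a (a (b (l 16610184) (l 16604464)) (l 16628560)) (l 16663656)) (l 16695416)))) (a (b (a (c (l 139753886775) (l 140827658535)) (a (l 16645288) (l 16631216))) (a (c (a (l 139753963015) (l 16590376))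 (l 140290783623)) (b (l 16646776) (l 16584992)))) (b (l 16736640) (l 16679368))))))), by decide +kernel⟩

def k2_pm_202 : ∃ t, chk3 f_pm_202 t 6 5 1 = true :=
  ⟨(b (b (a (l 3) (b (a (c (a (b (l 137606661559) (l 134385134631)) (l 16646728)) (a (b (l 138143279975) (l 138143269831)) (l 16670912))) (b (l 16657576) (l 16677664))) (b (a (a (c (l 137606445495) (l 138680138647)) (l 16676448)) (a (l 16589752) (l 16605240))) (a (a (b (c (l 138143536615) (l 138680110007)) (b (c (l 138143635799) (l 138680108999)) (c (l 138143698455) (l 139217013303)))) (b (l 16610960) (c (l 16810336) (l 16663840)))) (a (l 16798568) (l 16753224)))))) (a (l 3) (a (a (a (l 3) (b (c (l 135996241319) (l 136533007431)) (c (l 137070311575) (l 138143697847)))) (b (b (l 16782032) (l 16810032)) (c (l 17123328) (l 16652016)))) (b (l 16684024) (l 16887632))))) (a (l 3) (a (b (b (c (l 133849577975) (l 134922488663)) (c (l 134386634215) (l 135459639719))) (a (l 3) (b (c (l 17411840) (l 17083136)) (l 133849441431)))) (b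 (c (l 17289688) (l 16911720)) (b (l 17242328) (l 17314304)))))), by decide +kernel⟩

def k3_pm_202 : ∃ t, chk3 f_pm_202 t 7 2 1 = true :=
  ⟨(b (a (b (b (l 1) (a (b (l 1) (l 17024872)) (b (b (l 17230808) (l 17195240)) (l 17140520)))) (b (b (a (l 16984712) (l 17064472)) (b (a (l 16916120) (l 17001224)) (l 17058928))) (b (a (l 16976104) (b (l 16900376) (l 16844864))) (a (l 16890688) (l 16751552))))) (b (b (a (c (l 300146173863) (a (l 245921578679) (l 17309016))) (l 17402712)) (a (b (l 17285504) (l 17213728)) (l 17409240))) (b (b (l 17185736) (b (l 17129296) (l 17089016))) (b (l 17189880) (b (l 16934616) (l 16880344)))))) (b (b (b (a (a (l 16717192) (l 16716424)) (l 16815712)) (a (b (l 16737808) (a (l 16766704) (l 16669208))) (b (l 16714672) (b (l 16684624) (l 16694304))))) (a (a (b (l 16698192) (l 16892520)) (l 16809288)) (l 16853104))) (a (b (a (l 17096704) (l 17094800)) (a (l 17275824) (l 17271440))) (b (l 17085288) (l 17261552))))), by decide +kernel⟩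

def k4_pm_202 : ∃ t, chk3 f_pm_202 t 3 3 1 = true :=
  ⟨(b (a (a (l 3) (b (b (c (l 131702632407) (a (l 130091511431) (l 17269680))) (a (l 144050534071) (l 17462600))) (a (l 3) (c (l 17589200) (l 17427984))))) (a (b (a (l 17435368) (l 17435992)) (l 17523320)) (b (l 17433688) (l 17538488)))) (a (a (l 3) (b (a (l 3) (l 142440044231)) (l 152103555783))) (a (b (l 17528240) (l 17482552)) (b (l 17560240) (l 17533712))))), by decide +kernel⟩

theorem s5_pm_202 : ∃ t, chk3 f_pm_202 t 6 2 1 = true := ex3_b k1_pm_202 k2_pm_202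

theorem s6_pm_202 : ∃ t, chk3 f_pm_202 t 3 2 1 = true := ex3_a s5_pm_202 k3_pm_202

theorem s7_pm_202 : ∃ t, chk3 f_pm_202 t 3 1 1 = true := ex3_b s6_pm_202 k4_pm_202

theorem s8_pm_202 : ∃ t, chk3 f_pm_202 t 1 1 1 = true := ex3_a k0_pm_202 s7_pm_202

theorem c_pm_202 : CertF 0 536870912 1073741824 536870912 134217728 67108864 false true false .pp 2 0 2
    ndF0q2 ndF3q2 pcF0 Cut.none Ext.none :=
  certF0 (fam := false) (s1 := true) (s2 := false) (a := 2) (b := 0) (c := 2) (cn := .pp) (n1 := ndF0q2) (n2 := ndF3q2) (pc := pcF0) (cut := Cut.none) (xt := Ext.none) (P1 := 0) (W1 := 536870912) (P2 := 1073741824) (W2 := 536870912) (P3 := 134217728) (W3 := 67108864)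
    rfl s8_pm_202

noncomputable def f_pm_203 : ℕ → ℕ → ℕ → ℕ → Bool := onCell 0 536870912 0 1230186008 134217728 67108864
    (rowF 0 false true false .up 2 0 3 (qsf 0 536870912 0 1230186008 0) ndF0q2 ndF3q3 pcF0 Cut.none Ext.none)

def k0_pm_203 : ∃ t, chk3 f_pm_203 t 1 1 1 = true :=
  ⟨(b (l 2) (b (l 2) (a (l 3) (b (l 2) (a (a (l 3) (b (l 3) (l 3))) (b (a (a (l 159083037847) (l 2)) (l 2)) (a (a (l 130092225655) (l 17646600)) (l 17736104)))))))), by decide +kernel⟩

theorem c_pm_203 : CertF 0 536870912 0 1230186008 134217728 67108864 false true false .up 2 0 3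
    ndF0q2 ndF3q3 pcF0 Cut.none Ext.none :=
  certF0 (fam := false) (s1 := true) (s2 := false) (a := 2) (b := 0) (c := 3) (cn := .up) (n1 := ndF0q2) (n2 := ndF3q3) (pc := pcF0) (cut := Cut.none) (xt := Ext.none) (P1 := 0) (W1 := 536870912) (P2 := 0) (W2 := 1230186008) (P3 := 134217728) (W3 := 67108864)
    rfl k0_pm_203

noncomputable def cut_pm_213 : Cut := Cut.of [[⟨0, 1, 0, 39843005⟩, ⟨1, 1, 0, 39843005⟩, ⟨2, 2, 0, 5814905⟩]]

noncomputable def f_pm_213 : ℕ → ℕ → ℕ → ℕ → Bool := onCell 0 536870912 0 1230186008 134217728 67108864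
    (rowF 0 false true false .pnn 2 1 3 (qsf 0 536870912 0 1230186008 1) ndF0q2 ndF3q3 pcF1 cut_pm_213 Ext.none)

def k0_pm_213 : ∃ t, chk3 f_pm_213 t 1 1 1 = true :=
  ⟨(b (a (l 3) (a (l 3) (b (a (l 3) (a (b (l 3) (l 3)) (b (a (l 3) (b (l 6) (b (l 6) (a (l 264845173719) (l 16792144))))) (a (b (a (l 3) (l 359871365207)) (b (l 266455810439) (l 261087123751))) (b (a (b (l 268603290295) (l 16804392)) (l 16805304)) (l 16803848)))))) (a (b (l 3) (l 3)) (b (a (b (l 479056771223) (l 261087241495)) (a (b (l 258402894999) (l 16877328)) (l 16870904))) (a (b (l 250886750999) (l 244444561735)) (b (l 16924536) (l 16974016)))))))) (a (l 3) (b (a (l 3) (b (a (b (l 3) (l 242297146519)) (b (l 226728091607) (l 17131840))) (a (b (l 229412400119) (l 215990798807)) (a (l 17434680) (l 17234440))))) (b (a (l 3) (a (b (a (l 3) (l 17329984)) (a (l 187536994439) (l 17412912))) (b (l 17333080) (l 17410952)))) (b (a (l 3) (a (a (l 180558018327) (l 17483648)) (l 17477304))) (a (l 1) (a (b (l 156399050567) (l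 1)) (l 17524408)))))))), by decide +kernel⟩

theorem c_pm_213 : CertF 0 536870912 0 1230186008 134217728 67108864 false true false .pnn 2 1 3
    ndF0q2 ndF3q3 pcF1 cut_pm_213 Ext.none :=
  certF0 (fam := false) (s1 := true) (s2 := false) (a := 2) (b := 1) (c := 3) (cn := .pnn) (n1 := ndF0q2) (n2 := ndF3q3) (pc := pcF1) (cut := cut_pm_213) (xt := Ext.none) (P1 := 0) (W1 := 536870912) (P2 := 0) (W2 := 1230186008) (P3 := 134217728) (W3 := 67108864)
    rfl k0_pm_213

noncomputable def f_mm_001 : ℕ → ℕ → ℕ → ℕ → Bool := onCell 0 536870912 0 536870912 134217728 67108864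
    (rowF 1 false false false .up 0 0 1 (qsf 0 536870912 536870912 536870912 0) ndF0q0 ndF3q1 pcF0 Cut.none Ext.none)

def k0_mm_001 : ∃ t, chk3 f_mm_001 t 1 1 1 = true :=
  ⟨(l 3), by decide +kernel⟩

theorem c_mm_001 : CertF 0 536870912 536870912 536870912 134217728 67108864 false false false .up 0 0 1
    ndF0q0 ndF3q1 pcF0 Cut.none Ext.none :=
  certF1 (fam := false) (s1 := false) (s2 := false) (a := 0) (b := 0) (c := 1) (cn := .up) (n1 := ndF0q0) (n2 := ndF3q1) (pc := pcF0) (cut := Cut.none) (xt := Ext.none) (P1 := 0) (W1 := 536870912) (P2 := 536870912) (W2 := 536870912) (P3 := 134217728) (W3 := 67108864)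
    rfl (fun _ => rfl) k0_mm_001

noncomputable def f_mm_011 : ℕ → ℕ → ℕ → ℕ → Bool := onCell 0 536870912 536870912 536870912 134217728 67108864
    (rowF 1 false false false .pnn 0 1 1 (qsf 0 536870912 536870912 536870912 1) ndF0q0 ndF3q1 pcF1 Cut.none Ext.none)

def k0_mm_011 : ∃ t, chk3 f_mm_011 t 1 1 1 = true :=
  ⟨(l 5), by decide +kernel⟩

theorem c_mm_011 : CertF 0 536870912 536870912 536870912 134217728 67108864 false false false .pnn 0 1 1
    ndF0q0 ndF3q1 pcF1 Cut.none Ext.none :=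
  certF1 (fam := false) (s1 := false) (s2 := false) (a := 0) (b := 1) (c := 1) (cn := .pnn) (n1 := ndF0q0) (n2 := ndF3q1) (pc := pcF1) (cut := Cut.none) (xt := Ext.none) (P1 := 0) (W1 := 536870912) (P2 := 536870912) (W2 := 536870912) (P3 := 134217728) (W3 := 67108864)
    rfl (fun _ => rfl) k0_mm_011

noncomputable def f_mm_012 : ℕ → ℕ → ℕ → ℕ → Bool := onCell 0 536870912 1073741824 536870912 134217728 67108864
    (rowF 0 false false false .pnp 0 1 2 (qsf 0 536870912 1073741824 536870912 1) ndF0q0 ndF3q2 pcF1 Cut.none Ext.none)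

def k0_mm_012 : ∃ t, chk3 f_mm_012 t 1 1 1 = true :=
  ⟨(l 5), by decide +kernel⟩

theorem c_mm_012 : CertF 0 536870912 1073741824 536870912 134217728 67108864 false false false .pnp 0 1 2
    ndF0q0 ndF3q2 pcF1 Cut.none Ext.none :=
  certF0 (fam := false) (s1 := false) (s2 := false) (a := 0) (b := 1) (c := 2) (cn := .pnp) (n1 := ndF0q0) (n2 := ndF3q2) (pc := pcF1) (cut := Cut.none) (xt := Ext.none) (P1 := 0) (W1 := 536870912) (P2 := 1073741824) (W2 := 536870912) (P3 := 134217728) (W3 := 67108864)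
    rfl k0_mm_012

noncomputable def f_mm_022 : ℕ → ℕ → ℕ → ℕ → Bool := onCell 0 536870912 1073741824 536870912 134217728 67108864
    (rowF 0 false false false .pp 0 2 2 (qsf 0 536870912 1073741824 536870912 2) ndF0q0 ndF3q2 pcF2 Cut.none Ext.none)

def k0_mm_022 : ∃ t, chk3 f_mm_022 t 1 1 1 = true :=
  ⟨(l 5), by decide +kernel⟩

theorem c_mm_022 : CertF 0 536870912 1073741824 536870912 134217728 67108864 false false false .pp 0 2 2
    ndF0q0 ndF3q2 pcF2 Cut.none Ext.none :=
  certF0 (fam := false) (s1 := false) (s2 := false) (a := 0) (b := 2) (c := 2) (cn := .pp) (n1 := ndF0q0) (n2 := ndF3q2) (pc := pcF2) (cut := Cut.none) (xt := Ext.none) (P1 := 0) (W1 := 536870912) (P2 := 1073741824) (W2 := 536870912) (P3 := 134217728) (W3 := 67108864)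
    rfl k0_mm_022

noncomputable def f_mm_023 : ℕ → ℕ → ℕ → ℕ → Bool := onCell 0 536870912 0 1230186008 134217728 67108864
    (rowF 0 false false false .up 0 2 3 (qsf 0 536870912 0 1230186008 2) ndF0q0 ndF3q3 pcF2 Cut.none Ext.none)

def k0_mm_023 : ∃ t, chk3 f_mm_023 t 1 1 1 = true :=
  ⟨(l 5), by decide +kernel⟩

theorem c_mm_023 : CertF 0 536870912 0 1230186008 134217728 67108864 false false false .up 0 2 3
    ndF0q0 ndF3q3 pcF2 Cut.none Ext.none :=
  certF0 (fam := false) (s1 := false) (s2 := false) (a := 0) (b := 2) (c := 3) (cn := .up) (n1 := ndF0q0) (n2 := ndF3q3) (pc := pcF2) (cut := Cut.none) (xt := Ext.none) (P1 := 0) (W1 := 536870912) (P2 := 0) (W2 := 1230186008) (P3 := 134217728) (W3 := 67108864)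
    rfl k0_mm_023

noncomputable def f_mm_033 : ℕ → ℕ → ℕ → ℕ → Bool := onCell 0 536870912 0 1230186008 134217728 67108864
    (rowF 0 false false false .pnn 0 3 3 (qsf 0 536870912 0 1230186008 3) ndF0q0 ndF3q3 pcF3 Cut.none Ext.none)

def k0_mm_033 : ∃ t, chk3 f_mm_033 t 1 1 1 = true :=
  ⟨(l 5), by decide +kernel⟩

theorem c_mm_033 : CertF 0 536870912 0 1230186008 134217728 67108864 false false false .pnn 0 3 3
    ndF0q0 ndF3q3 pcF3 Cut.none Ext.none :=
  certF0 (fam := false) (s1 := false) (s2 := false) (a := 0) (b := 3) (c := 3) (cn := .pnn) (n1 := ndF0q0) (n2 := ndF3q3) (pc := pcF3) (cut := Cut.none) (xt := Ext.none) (P1 := 0) (W1 := 536870912) (P2 := 0) (W2 := 1230186008) (P3 := 134217728) (W3 := 67108864)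
    rfl k0_mm_033

noncomputable def cut_mm_101 : Cut := Cut.of [[⟨0, 1, 0, 67108864⟩, ⟨1, 0, 0, 67108864⟩, ⟨2, 1, 0, 67108864⟩]]

noncomputable def f_mm_101 : ℕ → ℕ → ℕ → ℕ → Bool := onCell 536870912 536870912 0 536870912 134217728 67108864
    (rowF 1 false false false .npn 1 0 1 (qsf 536870912 536870912 536870912 536870912 0) ndF0q1 ndF3q1 pcF0 cut_mm_101 Ext.none)

def k0_mm_101 : ∃ t, chk3 f_mm_101 t 1 1 1 = true :=
  ⟨(a (l 3) (b (a (l 3) (b (b (a (l 3) (a (l 3) (b (l 6) (l 3)))) (l 3)) (l 3))) (l 3))), by decide +kernel⟩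

theorem c_mm_101 : CertF 536870912 536870912 536870912 536870912 134217728 67108864 false false false .npn 1 0 1
    ndF0q1 ndF3q1 pcF0 cut_mm_101 Ext.none :=
  certF1 (fam := false) (s1 := false) (s2 := false) (a := 1) (b := 0) (c := 1) (cn := .npn) (n1 := ndF0q1) (n2 := ndF3q1) (pc := pcF0) (cut := cut_mm_101) (xt := Ext.none) (P1 := 536870912) (W1 := 536870912) (P2 := 536870912) (W2 := 536870912) (P3 := 134217728) (W3 := 67108864)
    rfl (fun _ => rfl) k0_mm_101

noncomputable def f_mm_102 : ℕ → ℕ → ℕ → ℕ → Bool := onCell 536870912 536870912 0 536870912 134217728 67108864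
    (rowF 1 false false false .npp 1 0 2 (qsf 536870912 536870912 1073741824 536870912 0) ndF0q1 ndF3q2 pcF0 Cut.none Ext.none)

def k0_mm_102 : ∃ t, chk3 f_mm_102 t 1 1 1 = true :=
  ⟨(l 3), by decide +kernel⟩

theorem c_mm_102 : CertF 536870912 536870912 1073741824 536870912 134217728 67108864 false false false .npp 1 0 2
    ndF0q1 ndF3q2 pcF0 Cut.none Ext.none :=
  certF1 (fam := false) (s1 := false) (s2 := false) (a := 1) (b := 0) (c := 2) (cn := .npp) (n1 := ndF0q1) (n2 := ndF3q2) (pc := pcF0) (cut := Cut.none) (xt := Ext.none) (P1 := 536870912) (W1 := 536870912) (P2 := 1073741824) (W2 := 536870912) (P3 := 134217728) (W3 := 67108864)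
    rfl (fun _ => rfl) k0_mm_102

noncomputable def f_mm_112 : ℕ → ℕ → ℕ → ℕ → Bool := onCell 536870912 536870912 1073741824 536870912 134217728 67108864
    (rowF 2 false false false .dn 1 1 2 (qsf 536870912 536870912 1073741824 536870912 1) ndF0q1 ndF3q2 pcF1 Cut.none Ext.none)

def k0_mm_112 : ∃ t, chk3 f_mm_112 t 1 1 1 = true :=
  ⟨(l 5), by decide +kernel⟩

theorem c_mm_112 : CertF 536870912 536870912 1073741824 536870912 134217728 67108864 false false false .dn 1 1 2
    ndF0q1 ndF3q2 pcF1 Cut.none Ext.none :=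
  certF2 (fam := false) (s1 := false) (s2 := false) (a := 1) (b := 1) (c := 2) (cn := .dn) (n1 := ndF0q1) (n2 := ndF3q2) (pc := pcF1) (cut := Cut.none) (xt := Ext.none) (P1 := 536870912) (W1 := 536870912) (P2 := 1073741824) (W2 := 536870912) (P3 := 134217728) (W3 := 67108864)
    rfl (fun _ => rfl) k0_mm_112

noncomputable def f_mm_113 : ℕ → ℕ → ℕ → ℕ → Bool := onCell 536870912 536870912 0 1230186008 134217728 67108864
    (rowF 0 false false false .nn 1 1 3 (qsf 536870912 536870912 0 1230186008 1) ndF0q1 ndF3q3 pcF1 Cut.none Ext.none)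

def k0_mm_113 : ∃ t, chk3 f_mm_113 t 1 1 1 = true :=
  ⟨(b (l 5) (l 5)), by decide +kernel⟩

theorem c_mm_113 : CertF 536870912 536870912 0 1230186008 134217728 67108864 false false false .nn 1 1 3
    ndF0q1 ndF3q3 pcF1 Cut.none Ext.none :=
  certF0 (fam := false) (s1 := false) (s2 := false) (a := 1) (b := 1) (c := 3) (cn := .nn) (n1 := ndF0q1) (n2 := ndF3q3) (pc := pcF1) (cut := Cut.none) (xt := Ext.none) (P1 := 536870912) (W1 := 536870912) (P2 := 0) (W2 := 1230186008) (P3 := 134217728) (W3 := 67108864)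
    rfl k0_mm_113

noncomputable def f_mm_123 : ℕ → ℕ → ℕ → ℕ → Bool := onCell 536870912 536870912 0 1230186008 134217728 67108864
    (rowF 0 false false false .npn 1 2 3 (qsf 536870912 536870912 0 1230186008 2) ndF0q1 ndF3q3 pcF2 Cut.none Ext.none)

def k0_mm_123 : ∃ t, chk3 f_mm_123 t 1 1 1 = true :=
  ⟨(b (l 5) (l 5)), by decide +kernel⟩

theorem c_mm_123 : CertF 536870912 536870912 0 1230186008 134217728 67108864 false false false .npn 1 2 3
    ndF0q1 ndF3q3 pcF2 Cut.none Ext.none :=
  certF0 (fam := false) (s1 := false) (s2 := false) (a := 1) (b := 2) (c := 3) (cn := .npn) (n1 := ndF0q1) (n2 := ndF3q3) (pc := pcF2) (cut := Cut.none) (xt := Ext.none) (P1 := 536870912) (W1 := 536870912) (P2 := 0) (W2 := 1230186008) (P3 := 134217728) (W3 := 67108864)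
    rfl k0_mm_123

noncomputable def f_mm_133 : ℕ → ℕ → ℕ → ℕ → Bool := onCell 1610612736 536870912 0 1230186008 134217728 67108864
    (rowF 2 false false false .dn 1 3 3 (qsf 536870912 536870912 0 1230186008 3) ndF0q1 ndF3q3 pcF3 Cut.none Ext.none)

def k0_mm_133 : ∃ t, chk3 f_mm_133 t 1 1 1 = true :=
  ⟨(l 5), by decide +kernel⟩

theorem c_mm_133 : CertF 536870912 536870912 0 1230186008 134217728 67108864 false false false .dn 1 3 3
    ndF0q1 ndF3q3 pcF3 Cut.none Ext.none :=
  certF2 (fam := false) (s1 := false) (s2 := false) (a := 1) (b := 3) (c := 3) (cn := .dn) (n1 := ndF0q1) (n2 := ndF3q3) (pc := pcF3) (cut := Cut.none) (xt := Ext.none) (P1 := 536870912) (W1 := 536870912) (P2 := 0) (W2 := 1230186008) (P3 := 134217728) (W3 := 67108864)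
    rfl (fun _ => rfl) k0_mm_133

noncomputable def f_mm_202 : ℕ → ℕ → ℕ → ℕ → Bool := onCell 0 536870912 1073741824 536870912 134217728 67108864
    (rowF 0 false false false .pp 2 0 2 (qsf 0 536870912 1073741824 536870912 0) ndF0q2 ndF3q2 pcF0 Cut.none Ext.none)

def k0_mm_202 : ∃ t, chk3 f_mm_202 t 1 1 1 = true :=
  ⟨(l 3), by decide +kernel⟩

theorem c_mm_202 : CertF 0 536870912 1073741824 536870912 134217728 67108864 false false false .pp 2 0 2
    ndF0q2 ndF3q2 pcF0 Cut.none Ext.none :=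
  certF0 (fam := false) (s1 := false) (s2 := false) (a := 2) (b := 0) (c := 2) (cn := .pp) (n1 := ndF0q2) (n2 := ndF3q2) (pc := pcF0) (cut := Cut.none) (xt := Ext.none) (P1 := 0) (W1 := 536870912) (P2 := 1073741824) (W2 := 536870912) (P3 := 134217728) (W3 := 67108864)
    rfl k0_mm_202

noncomputable def f_mm_203 : ℕ → ℕ → ℕ → ℕ → Bool := onCell 0 536870912 0 1230186008 134217728 67108864
    (rowF 0 false false false .up 2 0 3 (qsf 0 536870912 0 1230186008 0) ndF0q2 ndF3q3 pcF0 Cut.none Ext.none)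

def k0_mm_203 : ∃ t, chk3 f_mm_203 t 1 1 1 = true :=
  ⟨(b (l 2) (l 3)), by decide +kernel⟩

theorem c_mm_203 : CertF 0 536870912 0 1230186008 134217728 67108864 false false false .up 2 0 3
    ndF0q2 ndF3q3 pcF0 Cut.none Ext.none :=
  certF0 (fam := false) (s1 := false) (s2 := false) (a := 2) (b := 0) (c := 3) (cn := .up) (n1 := ndF0q2) (n2 := ndF3q3) (pc := pcF0) (cut := Cut.none) (xt := Ext.none) (P1 := 0) (W1 := 536870912) (P2 := 0) (W2 := 1230186008) (P3 := 134217728) (W3 := 67108864)
    rfl k0_mm_203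

noncomputable def f_mm_213 : ℕ → ℕ → ℕ → ℕ → Bool := onCell 0 536870912 0 1230186008 134217728 67108864
    (rowF 0 false false false .pnn 2 1 3 (qsf 0 536870912 0 1230186008 1) ndF0q2 ndF3q3 pcF1 Cut.none Ext.none)

def k0_mm_213 : ∃ t, chk3 f_mm_213 t 1 1 1 = true :=
  ⟨(b (a (l 3) (l 5)) (l 3)), by decide +kernel⟩

theorem c_mm_213 : CertF 0 536870912 0 1230186008 134217728 67108864 false false false .pnn 2 1 3
    ndF0q2 ndF3q3 pcF1 Cut.none Ext.none :=
  certF0 (fam := false) (s1 := false) (s2 := false) (a := 2) (b := 1) (c := 3) (cn := .pnn) (n1 := ndF0q2) (n2 := ndF3q3) (pc := pcF1) (cut := Cut.none) (xt := Ext.none) (P1 := 0) (W1 := 536870912) (P2 := 0) (W2 := 1230186008) (P3 := 134217728) (W3 := 67108864)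
    rfl k0_mm_213

end Pool.Agent.Strip051.G.I1_8_3_16.Tab.C.FB03

namespace Pool.Agent.Strip051.G.I1_8_3_16.Tab.C.FB04

open Pool.Agent.Strip051.PB Pool.Agent.Strip051.PB.T
open Pool.Agent.Strip051.G.I1_8_3_16.Tab

noncomputable def f_pp_001 : ℕ → ℕ → ℕ → ℕ → Bool := onCell 0 536870912 0 536870912 134217728 67108864
    (rowF 1 false true true .up 0 0 1 (qsf 0 536870912 536870912 536870912 0) ndF0q0 ndF4q1 pcF0 Cut.none Ext.none)

def k0_pp_001 : ∃ t, chk3 f_pp_001 t 1 1 1 = true :=
  ⟨(l 3), by decide +kernel⟩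

theorem c_pp_001 : CertF 0 536870912 536870912 536870912 134217728 67108864 false true true .up 0 0 1
    ndF0q0 ndF4q1 pcF0 Cut.none Ext.none :=
  certF1 (fam := false) (s1 := true) (s2 := true) (a := 0) (b := 0) (c := 1) (cn := .up) (n1 := ndF0q0) (n2 := ndF4q1) (pc := pcF0) (cut := Cut.none) (xt := Ext.none) (P1 := 0) (W1 := 536870912) (P2 := 536870912) (W2 := 536870912) (P3 := 134217728) (W3 := 67108864)
    rfl (fun _ => rfl) k0_pp_001

noncomputable def cut_pp_011 : Cut := Cut.of [[⟨0, 0, 0, 67108864⟩, ⟨1, 1, 0, 67108864⟩, ⟨2, 1, 0, 67108864⟩]]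

noncomputable def f_pp_011 : ℕ → ℕ → ℕ → ℕ → Bool := onCell 0 536870912 536870912 536870912 134217728 67108864
    (rowF 1 false true true .pnn 0 1 1 (qsf 0 536870912 536870912 536870912 1) ndF0q0 ndF4q1 pcF1 cut_pp_011 Ext.none)

def k0_pp_011 : ∃ t, chk3 f_pp_011 t 1 1 1 = true :=
  ⟨(b (l 3) (a (b (l 3) (a (b (l 3) (a (b (l 3) (a (l 6) (l 3))) (l 3))) (l 3))) (l 3))), by decide +kernel⟩

theorem c_pp_011 : CertF 0 536870912 536870912 536870912 134217728 67108864 false true true .pnn 0 1 1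
    ndF0q0 ndF4q1 pcF1 cut_pp_011 Ext.none :=
  certF1 (fam := false) (s1 := true) (s2 := true) (a := 0) (b := 1) (c := 1) (cn := .pnn) (n1 := ndF0q0) (n2 := ndF4q1) (pc := pcF1) (cut := cut_pp_011) (xt := Ext.none) (P1 := 0) (W1 := 536870912) (P2 := 536870912) (W2 := 536870912) (P3 := 134217728) (W3 := 67108864)
    rfl (fun _ => rfl) k0_pp_011

noncomputable def f_pp_012 : ℕ → ℕ → ℕ → ℕ → Bool := onCell 0 536870912 536870912 536870912 134217728 67108864
    (rowF 1 false true true .pnp 0 1 2 (qsf 0 536870912 1073741824 536870912 1) ndF0q0 ndF4q2 pcF1 Cut.none Ext.none)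

def k0_pp_012 : ∃ t, chk3 f_pp_012 t 1 1 1 = true :=
  ⟨(l 3), by decide +kernel⟩

theorem c_pp_012 : CertF 0 536870912 1073741824 536870912 134217728 67108864 false true true .pnp 0 1 2
    ndF0q0 ndF4q2 pcF1 Cut.none Ext.none :=
  certF1 (fam := false) (s1 := true) (s2 := true) (a := 0) (b := 1) (c := 2) (cn := .pnp) (n1 := ndF0q0) (n2 := ndF4q2) (pc := pcF1) (cut := Cut.none) (xt := Ext.none) (P1 := 0) (W1 := 536870912) (P2 := 1073741824) (W2 := 536870912) (P3 := 134217728) (W3 := 67108864)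
    rfl (fun _ => rfl) k0_pp_012

noncomputable def f_pp_022 : ℕ → ℕ → ℕ → ℕ → Bool := onCell 0 536870912 1073741824 536870912 134217728 67108864
    (rowF 1 false true true .pp 0 2 2 (qsf 0 536870912 1073741824 536870912 2) ndF0q0 ndF4q2 pcF2 Cut.none Ext.none)

def k0_pp_022 : ∃ t, chk3 f_pp_022 t 1 1 1 = true :=
  ⟨(a (b (b (l 3) (b (a (b (a (b (l 3) (b (l 3) (b (l 3) (b (a (c (a (l 41506931111) (l 17259984)) (b (l 3) (l 16625304))) (c (l 17419432) (l 16936192))) (a (c (a (l 17112456) (l 17286408)) (l 16622168)) (c (l 17438744) (l 16979352))))))) (b (l 3) (b (l 3) (b (l 3) (b (l 3) (a (l 17229016) (l 17417184))))))) (a (a (a (c (b (l 17234928) (l 17476000)) (l 16735384)) (c (l 17489760) (l 16947272))) (c (l 17464672) (a (l 17096544) (l 17202224)))) (a (c (l 17642024) (l 17305496)) (l 17385376)))) (b (b (l 3) (b (l 3) (b (l 3) (a (b (l 2241068097287) (l 17435408)) (b (l 17391664) (l 17398848)))))) (a (c (l 17605264) (l 17412368)) (l 17457480)))) (a (c (a (a (b (l 17768784) (l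 18011152)) (l 17921848)) (l 17883832)) (a (a (a (l 17134968) (l 17455360)) (l 17539944)) (b (l 17527528) (l 17676664)))) (a (l 17688840) (l 17603752))))) (b (a (a (b (a (l 18066360) (l 18045408)) (l 18274272)) (b (l 17980720) (l 18139472))) (b (l 17900016) (l 17936992))) (a (b (l 18322648) (l 18382888)) (l 18032880)))) (b (b (l 3) (b (a (b (b (l 3) (b (a (l 3) (l 17237608)) (b (a (l 17320832) (l 17248976)) (a (b (l 17329088) (l 17335112)) (b (l 17255944) (l 17261096)))))) (a (l 17384456) (l 17303584))) (b (b (a (l 3) (l 2)) (l 2)) (l 2))) (a (a (l 17509040) (l 17412032)) (l 2)))) (b (a (b (l 17586976) (l 2)) (l 2)) (l 2)))), by decide +kernel⟩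

theorem c_pp_022 : CertF 0 536870912 1073741824 536870912 134217728 67108864 false true true .pp 0 2 2
    ndF0q0 ndF4q2 pcF2 Cut.none Ext.none :=
  certF1 (fam := false) (s1 := true) (s2 := true) (a := 0) (b := 2) (c := 2) (cn := .pp) (n1 := ndF0q0) (n2 := ndF4q2) (pc := pcF2) (cut := Cut.none) (xt := Ext.none) (P1 := 0) (W1 := 536870912) (P2 := 1073741824) (W2 := 536870912) (P3 := 134217728) (W3 := 67108864)
    rfl (fun _ => rfl) k0_pp_022

noncomputable def f_pp_023 : ℕ → ℕ → ℕ → ℕ → Bool := onCell 1073741824 536870912 0 1230186008 134217728 67108864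
    (rowF 2 false true true .up 0 2 3 (qsf 0 536870912 0 1230186008 2) ndF0q0 ndF4q3 pcF2 Cut.none Ext.none)

def k0_pp_023 : ∃ t, chk3 f_pp_023 t 1 1 1 = true :=
  ⟨(b (a (l 2) (a (l 2) (b (l 225051405639) (a (l 17353136) (l 17466464))))) (b (a (b (l 2) (a (l 2) (a (l 2) (l 17427536)))) (a (b (a (l 2) (l 17354088)) (a (l 17372368) (l 17477048))) (b (l 17529248) (l 17644376)))) (a (a (b (l 2) (l 3)) (b (b (a (a (l 2) (l 17264992)) (l 17359056)) (a (a (a (l 365173923207) (a (l 17276528) (a (l 17286944) (a (l 17293072) (l 17297384))))) (l 17334272)) (l 17437744))) (a (a (a (b (l 189684382951) (l 3)) (a (b (l 17359672) (l 180558019623)) (b (a (l 17371648) (a (l 17378504) (l 17383296))) (a (l 17483600) (a (l 17490904) (l 17495944)))))) (b (l 17423216) (l 17537904))) (b (l 17534976) (l 17650000))))) (b (a (a (l 17527752) (l 17651704)) (l 17810760)) (a (b (l 17738312) (l 18011496)) (l 18084976)))))), by decide +kernel⟩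

theorem c_pp_023 : CertF 0 536870912 0 1230186008 134217728 67108864 false true true .up 0 2 3
    ndF0q0 ndF4q3 pcF2 Cut.none Ext.none :=
  certF2 (fam := false) (s1 := true) (s2 := true) (a := 0) (b := 2) (c := 3) (cn := .up) (n1 := ndF0q0) (n2 := ndF4q3) (pc := pcF2) (cut := Cut.none) (xt := Ext.none) (P1 := 0) (W1 := 536870912) (P2 := 0) (W2 := 1230186008) (P3 := 134217728) (W3 := 67108864)
    rfl (fun _ => rfl) k0_pp_023

noncomputable def f_pp_033 : ℕ → ℕ → ℕ → ℕ → Bool := onCell 1610612736 536870912 0 1230186008 134217728 67108864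
    (rowF 2 false true true .pnn 0 3 3 (qsf 0 536870912 0 1230186008 3) ndF0q0 ndF4q3 pcF3 Cut.none Ext.none)

def k0_pp_033 : ∃ t, chk3 f_pp_033 t 1 1 1 = true :=
  ⟨(a (b (a (b (a (l 16949296) (l 17128488)) (b (l 17050816) (l 17139192))) (b (l 17390424) (a (l 17367984) (l 17449336)))) (b (a (b (l 17306104) (l 17513496)) (l 17680304)) (b (a (l 17749928) (l 17906232)) (a (b (l 17971752) (l 18126792)) (l 18295824))))) (a (b (a (l 17516128) (l 17660840)) (b (a (l 17740184) (l 17832104)) (l 1))) (b (a (l 17780112) (l 4)) (a (b (l 17911616) (l 1)) (l 1))))), by decide +kernel⟩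

theorem c_pp_033 : CertF 0 536870912 0 1230186008 134217728 67108864 false true true .pnn 0 3 3
    ndF0q0 ndF4q3 pcF3 Cut.none Ext.none :=
  certF2 (fam := false) (s1 := true) (s2 := true) (a := 0) (b := 3) (c := 3) (cn := .pnn) (n1 := ndF0q0) (n2 := ndF4q3) (pc := pcF3) (cut := Cut.none) (xt := Ext.none) (P1 := 0) (W1 := 536870912) (P2 := 0) (W2 := 1230186008) (P3 := 134217728) (W3 := 67108864)
    rfl (fun _ => rfl) k0_pp_033

noncomputable def f_pp_101 : ℕ → ℕ → ℕ → ℕ → Bool := onCell 536870912 536870912 536870912 536870912 134217728 67108864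
    (rowF 0 false true true .npn 1 0 1 (qsf 536870912 536870912 536870912 536870912 0) ndF0q1 ndF4q1 pcF0 Cut.none Ext.none)

def k0_pp_101 : ∃ t, chk3 f_pp_101 t 1 1 1 = true :=
  ⟨(a (l 3) (l 5)), by decide +kernel⟩

theorem c_pp_101 : CertF 536870912 536870912 536870912 536870912 134217728 67108864 false true true .npn 1 0 1
    ndF0q1 ndF4q1 pcF0 Cut.none Ext.none :=
  certF0 (fam := false) (s1 := true) (s2 := true) (a := 1) (b := 0) (c := 1) (cn := .npn) (n1 := ndF0q1) (n2 := ndF4q1) (pc := pcF0) (cut := Cut.none) (xt := Ext.none) (P1 := 536870912) (W1 := 536870912) (P2 := 536870912) (W2 := 536870912) (P3 := 134217728) (W3 := 67108864)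
    rfl k0_pp_101

noncomputable def f_pp_102 : ℕ → ℕ → ℕ → ℕ → Bool := onCell 536870912 536870912 1073741824 536870912 134217728 67108864
    (rowF 0 false true true .npp 1 0 2 (qsf 536870912 536870912 1073741824 536870912 0) ndF0q1 ndF4q2 pcF0 Cut.none Ext.none)

def k0_pp_102 : ∃ t, chk3 f_pp_102 t 1 1 1 = true :=
  ⟨(l 3), by decide +kernel⟩

theorem c_pp_102 : CertF 536870912 536870912 1073741824 536870912 134217728 67108864 false true true .npp 1 0 2
    ndF0q1 ndF4q2 pcF0 Cut.none Ext.none :=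
  certF0 (fam := false) (s1 := true) (s2 := true) (a := 1) (b := 0) (c := 2) (cn := .npp) (n1 := ndF0q1) (n2 := ndF4q2) (pc := pcF0) (cut := Cut.none) (xt := Ext.none) (P1 := 536870912) (W1 := 536870912) (P2 := 1073741824) (W2 := 536870912) (P3 := 134217728) (W3 := 67108864)
    rfl k0_pp_102

noncomputable def f_pp_112 : ℕ → ℕ → ℕ → ℕ → Bool := onCell 536870912 536870912 1073741824 536870912 134217728 67108864
    (rowF 0 false true true .dn 1 1 2 (qsf 536870912 536870912 1073741824 536870912 1) ndF0q1 ndF4q2 pcF1 Cut.none Ext.none)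

def k0_pp_112 : ∃ t, chk3 f_pp_112 t 1 1 1 = true :=
  ⟨(l 3), by decide +kernel⟩

theorem c_pp_112 : CertF 536870912 536870912 1073741824 536870912 134217728 67108864 false true true .dn 1 1 2
    ndF0q1 ndF4q2 pcF1 Cut.none Ext.none :=
  certF0 (fam := false) (s1 := true) (s2 := true) (a := 1) (b := 1) (c := 2) (cn := .dn) (n1 := ndF0q1) (n2 := ndF4q2) (pc := pcF1) (cut := Cut.none) (xt := Ext.none) (P1 := 536870912) (W1 := 536870912) (P2 := 1073741824) (W2 := 536870912) (P3 := 134217728) (W3 := 67108864)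
    rfl k0_pp_112

noncomputable def cut_pp_113 : Cut := Cut.of [[⟨0, 1, 0, 39843005⟩, ⟨1, 1, 0, 39843005⟩, ⟨2, 2, 0, 5814905⟩]]

noncomputable def f_pp_113 : ℕ → ℕ → ℕ → ℕ → Bool := onCell 536870912 536870912 0 1230186008 134217728 67108864
    (rowF 2 false true true .nn 1 1 3 (qsf 536870912 536870912 0 1230186008 1) ndF0q1 ndF4q3 pcF1 cut_pp_113 Ext.none)

def k0_pp_113 : ∃ t, chk3 f_pp_113 t 1 1 1 = true :=
  ⟨(b (a (l 2) (a (l 2) (b (a (l 2) (a (l 2) (b (b (l 6) (l 3)) (l 3)))) (l 3)))) (a (b (b (l 2) (l 3)) (a (b (l 2) (l 3)) (l 3))) (b (l 3) (l 3)))), by decide +kernel⟩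

theorem c_pp_113 : CertF 536870912 536870912 0 1230186008 134217728 67108864 false true true .nn 1 1 3
    ndF0q1 ndF4q3 pcF1 cut_pp_113 Ext.none :=
  certF2 (fam := false) (s1 := true) (s2 := true) (a := 1) (b := 1) (c := 3) (cn := .nn) (n1 := ndF0q1) (n2 := ndF4q3) (pc := pcF1) (cut := cut_pp_113) (xt := Ext.none) (P1 := 536870912) (W1 := 536870912) (P2 := 0) (W2 := 1230186008) (P3 := 134217728) (W3 := 67108864)
    rfl (fun _ => rfl) k0_pp_113

end Pool.Agent.Strip051.G.I1_8_3_16.Tab.C.FB04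

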