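import Pool.Agent.Strip051.G.I1_8_3_16.Gn
import Pool.Agent.Strip051.PB.Corns

/-! # Certificates of the aligned corners (generated) -/

set_option linter.all false

namespace Pool.Agent.Strip051.G.I1_8_3_16.Tab.CF

open Pool.Agent.Strip051.PB

def B012R_022_2_2_1 :
    ∃ t, chk3 (onCell 0 67108864 0 1073741824 134217728 67108864 (corT true 1 c0F cB012R gF0q0 gF2q2 gF2q1 gF3q1 false true)) t 2 2 1 = true :=
  ⟨(T.c (T.b (T.b (T.c (T.b (T.b (T.b (T.c (T.c (T.l 204) (T.l 204)) (T.l 204)) (T.l 476)) (T.l 204)) (T.l 204)) (T.b (T.c (T.a (T.l 204) (T.l 204)) (T.l 220)) (T.l 204))) (T.c (T.l 204) (T.l 204))) (T.b (T.l 204) (T.l 0))) (T.b (T.b (T.b (T.c (T.c (T.l 204) (T.l 204)) (T.l 204)) (T.l 460)) (T.l 204)) (T.l 0))), by decide +kernel⟩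

def B012R_022_6_2_1 :
    ∃ t, chk3 (onCell 0 67108864 0 1073741824 134217728 67108864 (corT true 1 c0F cB012R gF0q0 gF2q2 gF2q1 gF3q1 false true)) t 6 2 1 = true :=
  ⟨(T.c (T.b (T.c (T.b (T.b (T.b (T.c (T.c (T.l 460) (T.l 460)) (T.a (T.l 204) (T.l 460))) (T.l 460)) (T.l 204)) (T.l 204)) (T.b (T.b (T.c (T.b (T.l 460) (T.l 204)) (T.l 460)) (T.l 204)) (T.l 204))) (T.b (T.l 204) (T.l 0))) (T.b (T.b (T.c (T.b (T.c (T.l 460) (T.l 204)) (T.l 204)) (T.c (T.l 460) (T.l 460))) (T.l 204)) (T.l 0))), by decide +kernel⟩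

def B012R_022_7_4_2 :
    ∃ t, chk3 (onCell 0 67108864 0 1073741824 134217728 67108864 (corT true 1 c0F cB012R gF0q0 gF2q2 gF2q1 gF3q1 false true)) t 7 4 2 = true :=
  ⟨(T.b (T.a (T.c (T.b (T.b (T.c (T.a (T.b (T.c (T.a (T.l 460) (T.a (T.l 460) (T.l 460))) (T.a (T.l 460) (T.l 460))) (T.l 204)) (T.b (T.b (T.c (T.a (T.l 460) (T.l 460)) (T.l 460)) (T.l 460)) (T.l 460))) (T.a (T.b (T.a (T.l 460) (T.c (T.l 460) (T.l 460))) (T.l 204)) (T.b (T.c (T.l 460) (T.l 460)) (T.l 460)))) (T.c (T.b (T.l 460) (T.l 204)) (T.l 460))) (T.a (T.l 204) (T.l 460))) (T.b (T.b (T.c (T.a (T.b (T.c (T.l 460) (T.l 460)) (T.l 204)) (T.b (T.a (T.l 460) (T.l 460)) (T.l 204))) (T.a (T.c (T.l 460) (T.l 460)) (T.b (T.l 460) (T.l 204)))) (T.a (T.l 204) (T.l 460))) (T.b (T.l 204) (T.l 204)))) (T.c (T.b (T.b (T.c (T.a (T.b (T.c (T.b (T.l 460) (T.l 460)) (T.l 460)) (T.l 460)) (T.b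 (T.c (T.b (T.l 460) (T.l 460)) (T.l 460)) (T.l 460))) (T.a (T.b (T.c (T.l 460) (T.l 460)) (T.l 204)) (T.b (T.c (T.l 460) (T.l 460)) (T.l 460)))) (T.c (T.l 460) (T.l 460))) (T.a (T.l 460) (T.l 460))) (T.b (T.b (T.c (T.b (T.a (T.b (T.l 460) (T.l 204)) (T.a (T.l 460) (T.l 460))) (T.l 460)) (T.b (T.a (T.l 460) (T.l 460)) (T.l 460))) (T.a (T.l 460) (T.l 460))) (T.b (T.l 460) (T.l 204))))) (T.a (T.c (T.l 204) (T.l 204)) (T.c (T.b (T.l 204) (T.l 204)) (T.b (T.l 204) (T.l 204))))), by decide +kernel⟩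

def B012R_022_7_4_3 :
    ∃ t, chk3 (onCell 0 67108864 0 1073741824 134217728 67108864 (corT true 1 c0F cB012R gF0q0 gF2q2 gF2q1 gF3q1 false true)) t 7 4 3 = true :=
  ⟨(T.b (T.a (T.b (T.c (T.b (T.a (T.c (T.b (T.l 460) (T.l 204)) (T.l 460)) (T.c (T.b (T.l 460) (T.l 204)) (T.l 460))) (T.b (T.l 460) (T.l 204))) (T.b (T.a (T.c (T.l 460) (T.l 204)) (T.c (T.l 460) (T.l 204))) (T.l 460))) (T.c (T.l 460) (T.l 204))) (T.b (T.c (T.b (T.c (T.a (T.l 460) (T.l 460)) (T.a (T.l 460) (T.l 460))) (T.b (T.l 460) (T.l 204))) (T.b (T.a (T.c (T.l 204) (T.l 204)) (T.c (T.l 460) (T.l 204))) (T.l 460))) (T.c (T.l 460) (T.l 204)))) (T.a (T.l 204) (T.c (T.l 460) (T.l 204)))), by decide +kernel⟩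

def B012R_022_7_5_1 :
    ∃ t, chk3 (onCell 0 67108864 0 1073741824 134217728 67108864 (corT true 1 c0F cB012R gF0q0 gF2q2 gF2q1 gF3q1 false true)) t 7 5 1 = true :=
  ⟨(T.b (T.c (T.b (T.l 460) (T.l 204)) (T.l 204)) (T.c (T.b (T.l 0) (T.l 0)) (T.l 256))), by decide +kernel⟩

def B012R_022_1_3_1 :
    ∃ t, chk3 (onCell 0 67108864 0 1073741824 134217728 67108864 (corT true 1 c0F cB012R gF0q0 gF2q2 gF2q1 gF3q1 false true)) t 1 3 1 = true :=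
  ⟨(T.b (T.a (T.c (T.b (T.l 816) (T.l 880)) (T.l 816)) (T.a (T.b (T.c (T.l 816) (T.l 816)) (T.c (T.a (T.l 816) (T.c (T.l 816) (T.l 816))) (T.b (T.l 816) (T.l 880)))) (T.c (T.b (T.c (T.l 64) (T.l 0)) (T.c (T.b (T.l 816) (T.l 816)) (T.l 880))) (T.b (T.b (T.l 816) (T.l 816)) (T.b (T.l 816) (T.l 880)))))) (T.a (T.b (T.c (T.c (T.l 816) (T.l 816)) (T.l 816)) (T.a (T.c (T.c (T.l 816) (T.l 816)) (T.l 816)) (T.c (T.a (T.c (T.l 816) (T.l 816)) (T.c (T.b (T.l 816) (T.l 816)) (T.l 816))) (T.a (T.l 816) (T.c (T.l 816) (T.l 816)))))) (T.a (T.c (T.b (T.c (T.a (T.l 816) (T.l 816)) (T.b (T.l 816) (T.l 880))) (T.c (T.a (T.b (T.l 816) (T.l 816)) (T.b (T.l 816) (T.l 816))) (T.a (T.l 816) (T.l 816)))) (T.b (T.a (T.b (T.l 816) (T.l 816)) (T.b (T.l 816) (T.l 816))) (T.a (T.c (T.l 816) (T.l 816)) (T.c (T.l 816) (T.l 816))))) (T.c (T.b (T.c (T.b (T.l 816) (T.l 880))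 (T.b (T.l 816) (T.l 816))) (T.c (T.a (T.b (T.l 816) (T.l 816)) (T.b (T.l 816) (T.l 880))) (T.a (T.l 880) (T.b (T.l 816) (T.l 816))))) (T.b (T.c (T.b (T.l 816) (T.l 816)) (T.b (T.l 816) (T.l 816))) (T.c (T.a (T.l 816) (T.l 880)) (T.a (T.l 816) (T.l 816)))))))), by decide +kernel⟩

theorem B012R_022_7_4_1 :
    ∃ t, chk3 (onCell 0 67108864 0 1073741824 134217728 67108864 (corT true 1 c0F cB012R gF0q0 gF2q2 gF2q1 gF3q1 false true)) t 7 4 1 = true :=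
  ex3_c B012R_022_7_4_2 B012R_022_7_4_3
theorem B012R_022_7_2_1 :
    ∃ t, chk3 (onCell 0 67108864 0 1073741824 134217728 67108864 (corT true 1 c0F cB012R gF0q0 gF2q2 gF2q1 gF3q1 false true)) t 7 2 1 = true :=
  ex3_b B012R_022_7_4_1 B012R_022_7_5_1
theorem B012R_022_3_2_1 :
    ∃ t, chk3 (onCell 0 67108864 0 1073741824 134217728 67108864 (corT true 1 c0F cB012R gF0q0 gF2q2 gF2q1 gF3q1 false true)) t 3 2 1 = true :=
  ex3_a B012R_022_6_2_1 B012R_022_7_2_1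
theorem B012R_022_1_2_1 :
    ∃ t, chk3 (onCell 0 67108864 0 1073741824 134217728 67108864 (corT true 1 c0F cB012R gF0q0 gF2q2 gF2q1 gF3q1 false true)) t 1 2 1 = true :=
  ex3_a B012R_022_2_2_1 B012R_022_3_2_1
theorem B012R_022 :
    ∃ t, chk3 (onCell 0 67108864 0 1073741824 134217728 67108864 (corT true 1 c0F cB012R gF0q0 gF2q2 gF2q1 gF3q1 false true)) t 1 1 1 = true :=
  ex3_b B012R_022_1_2_1 B012R_022_1_3_1

def B012R_023 :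
    ∃ t, chk3 (onCell 0 67108864 0 1073741824 134217728 67108864 (corT true 1 c0F cB012R gF0q0 gF2q2 gF3q1 gF4q1 true true)) t 1 1 1 = true :=
  ⟨(T.l 1), by decide +kernel⟩

def B012R_024 :
    ∃ t, chk3 (onCell 0 67108864 0 1073741824 134217728 67108864 (corT true 1 c0F cB012R gF0q0 gF2q2 gF4q1 gF5q1 true true)) t 1 1 1 = true :=
  ⟨(T.l 1), by decide +kernel⟩

def B012R_102 :
    ∃ t, chk3 (onCell 0 67108864 0 1073741824 134217728 67108864 (corT true 1 c0F cB012R gF1q0 gF0q2 gF2q1 gF3q1 false true)) t 1 1 1 = true :=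
  ⟨(T.b (T.b (T.l 2) (T.a (T.l 0) (T.b (T.l 2) (T.l 0)))) (T.a (T.b (T.l 0) (T.a (T.l 0) (T.l 0))) (T.b (T.a (T.l 0) (T.b (T.l 0) (T.l 0))) (T.a (T.b (T.l 0) (T.l 0)) (T.b (T.l 0) (T.l 0)))))), by decide +kernel⟩

def B012R_103 :
    ∃ t, chk3 (onCell 0 67108864 0 1073741824 134217728 67108864 (corT true 1 c0F cB012R gF1q0 gF0q2 gF3q1 gF4q1 true true)) t 1 1 1 = true :=
  ⟨(T.b (T.b (T.l 2) (T.b (T.l 816) (T.a (T.l 816) (T.l 816)))) (T.b (T.b (T.l 1) (T.l 1)) (T.l 1))), by decide +kernel⟩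

def B012R_104 :
    ∃ t, chk3 (onCell 0 67108864 0 1073741824 134217728 67108864 (corT true 1 c0F cB012R gF1q0 gF0q2 gF4q1 gF5q1 true true)) t 1 1 1 = true :=
  ⟨(T.b (T.b (T.a (T.l 0) (T.b (T.l 2) (T.l 0))) (T.b (T.l 0) (T.a (T.l 816) (T.l 1)))) (T.b (T.l 1) (T.l 1))), by decide +kernel⟩

def B012R_112 :
    ∃ t, chk3 (onCell 0 67108864 0 1073741824 134217728 67108864 (corT true 1 c0F cB012R gF1q0 gF1q2 gF2q1 gF3q1 false true)) t 1 1 1 = true :=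
  ⟨(T.b (T.l 2) (T.b (T.a (T.l 2) (T.l 2)) (T.a (T.a (T.l 816) (T.l 0)) (T.b (T.l 0) (T.l 0))))), by decide +kernel⟩

def B012R_113 :
    ∃ t, chk3 (onCell 0 67108864 0 1073741824 134217728 67108864 (corT true 1 c0F cB012R gF1q0 gF1q2 gF3q1 gF4q1 true true)) t 1 1 1 = true :=
  ⟨(T.b (T.l 2) (T.b (T.a (T.l 2) (T.b (T.l 2) (T.l 0))) (T.a (T.a (T.l 816) (T.l 0)) (T.b (T.l 0) (T.l 0))))), by decide +kernel⟩

def B012R_114 :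
    ∃ t, chk3 (onCell 0 67108864 0 1073741824 134217728 67108864 (corT true 1 c0F cB012R gF1q0 gF1q2 gF4q1 gF5q1 true true)) t 1 1 1 = true :=
  ⟨(T.b (T.b (T.l 2) (T.l 2)) (T.b (T.a (T.l 816) (T.b (T.l 0) (T.l 0))) (T.a (T.a (T.l 816) (T.l 0)) (T.b (T.l 0) (T.l 1))))), by decide +kernel⟩

def B012R_122 :
    ∃ t, chk3 (onCell 0 67108864 0 1073741824 134217728 67108864 (corT true 1 c0F cB012R gF1q0 gF2q2 gF2q1 gF3q1 false true)) t 1 1 1 = true :=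
  ⟨(T.l 2), by decide +kernel⟩

def B012R_123 :
    ∃ t, chk3 (onCell 0 67108864 0 1073741824 134217728 67108864 (corT true 1 c0F cB012R gF1q0 gF2q2 gF3q1 gF4q1 true true)) t 1 1 1 = true :=
  ⟨(T.l 2), by decide +kernel⟩

def B012R_124 :
    ∃ t, chk3 (onCell 0 67108864 0 1073741824 134217728 67108864 (corT true 1 c0F cB012R gF1q0 gF2q2 gF4q1 gF5q1 true true)) t 1 1 1 = true :=
  ⟨(T.l 2), by decide +kernel⟩

def B012R_202 :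
    ∃ t, chk3 (onCell 0 67108864 0 1073741824 134217728 67108864 (corT true 1 c0F cB012R gF2q0 gF0q2 gF2q1 gF3q1 false true)) t 1 1 1 = true :=
  ⟨(T.b (T.l 2) (T.b (T.a (T.l 2) (T.a (T.l 0) (T.l 0))) (T.b (T.a (T.l 0) (T.b (T.l 0) (T.l 0))) (T.a (T.a (T.l 0) (T.l 0)) (T.b (T.l 0) (T.l 0)))))), by decide +kernel⟩

def B012R_203 :
    ∃ t, chk3 (onCell 0 67108864 0 1073741824 134217728 67108864 (corT true 1 c0F cB012R gF2q0 gF0q2 gF3q1 gF4q1 true true)) t 1 1 1 = true :=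
  ⟨(T.b (T.l 2) (T.b (T.a (T.l 2) (T.a (T.l 0) (T.l 0))) (T.b (T.a (T.l 0) (T.b (T.l 0) (T.l 1))) (T.a (T.b (T.l 0) (T.l 1)) (T.l 1))))), by decide +kernel⟩

def B012R_204 :
    ∃ t, chk3 (onCell 0 67108864 0 1073741824 134217728 67108864 (corT true 1 c0F cB012R gF2q0 gF0q2 gF4q1 gF5q1 true true)) t 1 1 1 = true :=
  ⟨(T.b (T.l 2) (T.b (T.a (T.l 0) (T.a (T.l 0) (T.l 0))) (T.b (T.a (T.l 0) (T.b (T.l 0) (T.l 1))) (T.a (T.b (T.l 816) (T.l 1)) (T.l 1))))), by decide +kernel⟩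

def B012R_212 :
    ∃ t, chk3 (onCell 0 67108864 0 1073741824 134217728 67108864 (corT true 1 c0F cB012R gF2q0 gF1q2 gF2q1 gF3q1 false true)) t 1 1 1 = true :=
  ⟨(T.l 2), by decide +kernel⟩

def B012R_213 :
    ∃ t, chk3 (onCell 0 67108864 0 1073741824 134217728 67108864 (corT true 1 c0F cB012R gF2q0 gF1q2 gF3q1 gF4q1 true true)) t 1 1 1 = true :=
  ⟨(T.l 2), by decide +kernel⟩

def B012R_214 :
    ∃ t, chk3 (onCell 0 67108864 0 1073741824 134217728 67108864 (corT true 1 c0F cB012R gF2q0 gF1q2 gF4q1 gF5q1 true true)) t 1 1 1 = true :=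
  ⟨(T.l 2), by decide +kernel⟩

def B012R_222 :
    ∃ t, chk3 (onCell 0 67108864 0 1073741824 134217728 67108864 (corT true 1 c0F cB012R gF2q0 gF2q2 gF2q1 gF3q1 false true)) t 1 1 1 = true :=
  ⟨(T.l 2), by decide +kernel⟩

def B012R_223 :
    ∃ t, chk3 (onCell 0 67108864 0 1073741824 134217728 67108864 (corT true 1 c0F cB012R gF2q0 gF2q2 gF3q1 gF4q1 true true)) t 1 1 1 = true :=
  ⟨(T.l 2), by decide +kernel⟩

def B012R_224 :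
    ∃ t, chk3 (onCell 0 67108864 0 1073741824 134217728 67108864 (corT true 1 c0F cB012R gF2q0 gF2q2 gF4q1 gF5q1 true true)) t 1 1 1 = true :=
  ⟨(T.l 2), by decide +kernel⟩

def B022E_000 :
    ∃ t, chk3 (onCell 0 67108864 0 1073741824 134217728 67108864 (corT true 1 c0F cB022E gF0q0 gF0q2 gF0q2 gF1q2 true true)) t 1 1 1 = true :=
  ⟨(T.l 2), by decide +kernel⟩

def B022E_001 :
    ∃ t, chk3 (onCell 0 67108864 0 1073741824 134217728 67108864 (corT true 1 c0F cB022E gF0q0 gF0q2 gF1q2 gF2q2 true true)) t 1 1 1 = true :=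
  ⟨(T.l 2), by decide +kernel⟩

def B022E_002_2_1_1 :
    ∃ t, chk3 (onCell 0 67108864 0 1073741824 134217728 67108864 (corT true 1 c0F cB022E gF0q0 gF0q2 gF2q2 gF3q2 true false)) t 2 1 1 = true :=
  ⟨(T.a (T.c (T.b (T.c (T.b (T.b (T.l 204) (T.l 204)) (T.l 204)) (T.b (T.b (T.l 204) (T.l 204)) (T.l 204))) (T.b (T.c (T.b (T.l 204) (T.l 204)) (T.l 204)) (T.c (T.b (T.b (T.l 204) (T.l 204)) (T.b (T.a (T.l 0) (T.l 204)) (T.a (T.b (T.l 0) (T.c (T.c (T.a (T.l 0) (T.l 0)) (T.l 0)) (T.a (T.l 816) (T.l 816)))) (T.c (T.l 0) (T.l 0))))) (T.b (T.l 204) (T.b (T.l 0) (T.a (T.b (T.l 0) (T.c (T.l 816) (T.l 816))) (T.l 0))))))) (T.b (T.b (T.c (T.l 204) (T.l 204)) (T.l 204)) (T.b (T.b (T.l 204) (T.l 204)) (T.b (T.l 0) (T.b (T.b (T.l 0) (T.l 0)) (T.c (T.a (T.c (T.l 816) (T.l 816)) (T.l 816)) (T.a (T.c (T.l 816) (T.l 816)) (T.l 816)))))))) (T.b (T.a (T.c (T.c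 (T.b (T.l 204) (T.l 204)) (T.l 204)) (T.b (T.l 204) (T.l 204))) (T.b (T.c (T.b (T.c (T.a (T.l 204) (T.l 204)) (T.b (T.l 204) (T.l 204))) (T.c (T.l 204) (T.l 204))) (T.a (T.l 204) (T.b (T.l 204) (T.l 204)))) (T.c (T.l 220) (T.l 204)))) (T.c (T.a (T.b (T.b (T.l 204) (T.l 460)) (T.c (T.b (T.l 204) (T.b (T.l 204) (T.l 0))) (T.b (T.l 204) (T.l 0)))) (T.b (T.c (T.l 204) (T.l 204)) (T.c (T.b (T.l 204) (T.a (T.l 0) (T.l 0))) (T.a (T.l 0) (T.l 0))))) (T.a (T.b (T.l 204) (T.b (T.l 0) (T.c (T.l 0) (T.l 0)))) (T.b (T.l 204) (T.b (T.l 0) (T.c (T.l 0) (T.l 64)))))))), by decide +kernel⟩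

def B022E_002_3_1_1 :
    ∃ t, chk3 (onCell 0 67108864 0 1073741824 134217728 67108864 (corT true 1 c0F cB022E gF0q0 gF0q2 gF2q2 gF3q2 true false)) t 3 1 1 = true :=
  ⟨(T.b (T.a (T.b (T.c (T.a (T.c (T.b (T.b (T.l 204) (T.l 204)) (T.l 204)) (T.b (T.l 204) (T.l 204))) (T.c (T.b (T.a (T.l 204) (T.l 204)) (T.l 204)) (T.b (T.l 204) (T.l 204)))) (T.a (T.b (T.b (T.l 204) (T.l 204)) (T.l 204)) (T.b (T.l 204) (T.l 204)))) (T.a (T.c (T.l 204) (T.l 204)) (T.c (T.b (T.b (T.l 204) (T.l 204)) (T.l 204)) (T.b (T.l 204) (T.l 204))))) (T.b (T.c (T.a (T.c (T.b (T.b (T.l 204) (T.l 204)) (T.l 204)) (T.b (T.l 204) (T.l 204))) (T.c (T.b (T.a (T.l 204) (T.l 204)) (T.l 204)) (T.b (T.l 204) (T.l 204)))) (T.a (T.b (T.l 204) (T.l 204)) (T.b (T.l 204) (T.l 204)))) (T.c (T.a (T.b (T.l 220) (T.l 204)) (T.b (T.l 204) (T.l 204))) (T.a (T.l 0) (T.l 0))))) (T.b (T.a (T.c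 (T.a (T.b (T.l 204) (T.l 204)) (T.b (T.l 204) (T.l 204))) (T.a (T.l 0) (T.l 0))) (T.b (T.c (T.b (T.l 460) (T.l 460)) (T.b (T.l 0) (T.l 0))) (T.c (T.a (T.l 204) (T.l 204)) (T.b (T.l 0) (T.l 256))))) (T.a (T.c (T.a (T.c (T.a (T.l 256) (T.l 256)) (T.l 0)) (T.c (T.a (T.l 256) (T.l 256)) (T.b (T.l 204) (T.l 256)))) (T.a (T.c (T.l 0) (T.l 0)) (T.b (T.l 0) (T.c (T.l 0) (T.l 64))))) (T.c (T.a (T.c (T.a (T.l 460) (T.l 460)) (T.b (T.l 204) (T.l 256))) (T.b (T.l 460) (T.c (T.b (T.l 204) (T.l 460)) (T.b (T.l 0) (T.l 256))))) (T.a (T.b (T.l 0) (T.c (T.l 0) (T.l 0))) (T.b (T.l 0) (T.b (T.l 0) (T.c (T.l 0) (T.b (T.l 0) (T.l 816)))))))))), by decide +kernel⟩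

theorem B022E_002 :
    ∃ t, chk3 (onCell 0 67108864 0 1073741824 134217728 67108864 (corT true 1 c0F cB022E gF0q0 gF0q2 gF2q2 gF3q2 true false)) t 1 1 1 = true :=
  ex3_a B022E_002_2_1_1 B022E_002_3_1_1

def B022E_010 :
    ∃ t, chk3 (onCell 0 67108864 0 1073741824 134217728 67108864 (corT true 1 c0F cB022E gF0q0 gF1q2 gF0q2 gF1q2 true true)) t 1 1 1 = true :=
  ⟨(T.l 2), by decide +kernel⟩

def B022E_011 :
    ∃ t, chk3 (onCell 0 67108864 0 1073741824 134217728 67108864 (corT true 1 c0F cB022E gF0q0 gF1q2 gF1q2 gF2q2 true true)) t 1 1 1 = true :=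
  ⟨(T.l 2), by decide +kernel⟩

def B022E_012_2_2_1 :
    ∃ t, chk3 (onCell 0 67108864 0 1073741824 134217728 67108864 (corT true 1 c0F cB022E gF0q0 gF1q2 gF2q2 gF3q2 true false)) t 2 2 1 = true :=
  ⟨(T.a (T.c (T.b (T.c (T.b (T.c (T.b (T.c (T.b (T.l 204) (T.l 204)) (T.l 220)) (T.l 204)) (T.b (T.c (T.l 204) (T.l 204)) (T.l 204))) (T.b (T.l 204) (T.l 204))) (T.b (T.a (T.c (T.b (T.l 204) (T.l 204)) (T.l 220)) (T.l 204)) (T.l 204))) (T.c (T.l 204) (T.l 204))) (T.b (T.c (T.b (T.b (T.c (T.l 204) (T.l 204)) (T.l 204)) (T.l 204)) (T.b (T.c (T.b (T.l 204) (T.l 204)) (T.l 204)) (T.l 204))) (T.b (T.l 204) (T.l 204)))) (T.a (T.c (T.c (T.b (T.b (T.l 204) (T.l 204)) (T.l 204)) (T.b (T.l 204) (T.l 204))) (T.c (T.l 220) (T.l 204))) (T.b (T.c (T.b (T.c (T.a (T.l 204) (T.b (T.l 204) (T.l 204))) (T.a (T.l 204) (T.l 204))) (T.c (T.l 204) (T.l 204))) (T.a (T.l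 204) (T.b (T.b (T.l 204) (T.l 204)) (T.l 204)))) (T.c (T.c (T.l 204) (T.l 204)) (T.l 204))))), by decide +kernel⟩

def B022E_012_3_2_1 :
    ∃ t, chk3 (onCell 0 67108864 0 1073741824 134217728 67108864 (corT true 1 c0F cB022E gF0q0 gF1q2 gF2q2 gF3q2 true false)) t 3 2 1 = true :=
  ⟨(T.b (T.a (T.c (T.a (T.b (T.c (T.a (T.c (T.l 204) (T.l 204)) (T.c (T.l 220) (T.l 204))) (T.a (T.l 204) (T.l 204))) (T.c (T.b (T.l 220) (T.l 204)) (T.l 204))) (T.b (T.c (T.b (T.c (T.a (T.l 204) (T.l 220)) (T.b (T.l 204) (T.l 204))) (T.a (T.l 204) (T.l 204))) (T.a (T.l 204) (T.l 204))) (T.c (T.b (T.l 204) (T.l 204)) (T.l 204)))) (T.a (T.b (T.c (T.b (T.l 204) (T.l 204)) (T.l 204)) (T.b (T.l 204) (T.l 204))) (T.b (T.c (T.l 204) (T.l 204)) (T.b (T.l 204) (T.l 204))))) (T.c (T.b (T.c (T.a (T.b (T.c (T.b (T.a (T.l 204) (T.l 220)) (T.l 220)) (T.l 220)) (T.a (T.l 220)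 (T.l 220))) (T.b (T.c (T.a (T.a (T.l 220) (T.l 220)) (T.b (T.c (T.b (T.l 220) (T.l 204)) (T.l 204)) (T.l 204))) (T.b (T.l 220) (T.l 204))) (T.a (T.l 220) (T.l 220)))) (T.a (T.a (T.l 204) (T.l 204)) (T.b (T.b (T.l 220) (T.l 204)) (T.l 204)))) (T.c (T.a (T.b (T.l 204) (T.l 204)) (T.b (T.l 204) (T.l 204))) (T.a (T.l 204) (T.l 204)))) (T.b (T.a (T.c (T.l 204) (T.l 204)) (T.c (T.l 220) (T.l 204))) (T.a (T.l 220) (T.l 204))))) (T.a (T.a (T.c (T.b (T.l 220) (T.l 204)) (T.l 204)) (T.c (T.b (T.c (T.l 204) (T.l 204)) (T.l 204)) (T.b (T.l 204) (T.l 204)))) (T.c (T.b (T.c (T.b (T.l 220) (T.l 204)) (T.b (T.l 204) (T.l 204))) (T.a (T.l 220) (T.l 220))) (T.b (T.b (T.l 220) (T.l 204)) (T.b (T.l 0) (T.l 0)))))), by decide +kernel⟩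

def B022E_012_1_3_1 :
    ∃ t, chk3 (onCell 0 67108864 0 1073741824 134217728 67108864 (corT true 1 c0F cB022E gF0q0 gF1q2 gF2q2 gF3q2 true false)) t 1 3 1 = true :=
  ⟨(T.a (T.a (T.c (T.b (T.l 0) (T.c (T.l 64) (T.l 0))) (T.b (T.l 0) (T.b (T.l 816) (T.l 816)))) (T.c (T.a (T.b (T.l 0) (T.c (T.l 0) (T.l 816))) (T.b (T.l 0) (T.b (T.l 0) (T.c (T.b (T.l 816) (T.l 816)) (T.l 816))))) (T.a (T.b (T.l 0) (T.b (T.l 816) (T.l 816))) (T.b (T.l 0) (T.b (T.l 0) (T.c (T.l 816) (T.l 816))))))) (T.b (T.a (T.c (T.b (T.l 16) (T.l 0)) (T.l 0)) (T.b (T.c (T.b (T.l 0) (T.l 0)) (T.l 0)) (T.c (T.l 0) (T.l 0)))) (T.a (T.c (T.b (T.b (T.l 0) (T.l 0)) (T.c (T.a (T.l 816) (T.l 816)) (T.a (T.l 816) (T.l 816)))) (T.b (T.l 0) (T.a (T.c (T.l 816) (T.l 816)) (T.l 816)))) (T.c (T.b (T.l 0) (T.b (T.l 816) (T.a (T.l 816) (T.l 816)))) (T.b (T.l 0) (T.a (T.l 816) (T.l 816))))))),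 by decide +kernel⟩

theorem B022E_012_1_2_1 :
    ∃ t, chk3 (onCell 0 67108864 0 1073741824 134217728 67108864 (corT true 1 c0F cB022E gF0q0 gF1q2 gF2q2 gF3q2 true false)) t 1 2 1 = true :=
  ex3_a B022E_012_2_2_1 B022E_012_3_2_1
theorem B022E_012 :
    ∃ t, chk3 (onCell 0 67108864 0 1073741824 134217728 67108864 (corT true 1 c0F cB022E gF0q0 gF1q2 gF2q2 gF3q2 true false)) t 1 1 1 = true :=
  ex3_b B022E_012_1_2_1 B022E_012_1_3_1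

def B022E_020 :
    ∃ t, chk3 (onCell 0 67108864 0 1073741824 134217728 67108864 (corT true 1 c0F cB022E gF0q0 gF2q2 gF0q2 gF1q2 true true)) t 1 1 1 = true :=
  ⟨(T.l 2), by decide +kernel⟩

def B022E_021 :
    ∃ t, chk3 (onCell 0 67108864 0 1073741824 134217728 67108864 (corT true 1 c0F cB022E gF0q0 gF2q2 gF1q2 gF2q2 true true)) t 1 1 1 = true :=
  ⟨(T.l 2), by decide +kernel⟩

def B022E_022_1_4_1 :
    ∃ t, chk3 (onCell 0 67108864 0 1073741824 134217728 67108864 (corT true 1 c0F cB022E gF0q0 gF2q2 gF2q2 gF3q2 true false)) t 1 4 1 = true :=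
  ⟨(T.a (T.a (T.c (T.c (T.c (T.l 204) (T.l 204)) (T.b (T.l 204) (T.l 204))) (T.b (T.c (T.l 204) (T.l 204)) (T.l 204))) (T.a (T.c (T.c (T.l 204) (T.l 204)) (T.c (T.l 204) (T.l 204))) (T.c (T.b (T.c (T.a (T.l 204) (T.b (T.l 204) (T.l 204))) (T.a (T.l 204) (T.l 204))) (T.c (T.l 204) (T.l 204))) (T.b (T.a (T.l 204) (T.c (T.l 204) (T.l 204))) (T.l 204))))) (T.a (T.c (T.a (T.b (T.c (T.a (T.b (T.l 204) (T.l 204)) (T.c (T.l 204) (T.l 204))) (T.a (T.l 220) (T.b (T.l 204) (T.l 204)))) (T.c (T.b (T.l 204) (T.l 204)) (T.l 220))) (T.b (T.c (T.b (T.c (T.a (T.l 204) (T.l 204)) (T.b (T.l 204) (T.l 204))) (T.b (T.l 220) (T.l 204))) (T.b (T.a (T.l 204) (T.l 220)) (T.l 204))) (T.c (T.b (T.l 204) (T.l 204)) (T.l 220)))) (T.a (T.b (T.c (T.a (T.l 204) (T.l 204)) (T.a (T.l 204) (T.l 204))) (T.c (T.l 204) (T.l 204))) (T.b (T.c (T.a (T.l 220) (T.l 220)) (T.b (T.l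 220) (T.l 204))) (T.c (T.l 204) (T.l 204))))) (T.c (T.b (T.c (T.a (T.b (T.c (T.a (T.l 204) (T.l 204)) (T.b (T.l 204) (T.l 204))) (T.b (T.l 220) (T.l 204))) (T.b (T.c (T.a (T.l 204) (T.b (T.l 220) (T.l 204))) (T.a (T.l 204) (T.l 204))) (T.a (T.l 204) (T.l 220)))) (T.a (T.b (T.c (T.l 204) (T.l 204)) (T.l 204)) (T.b (T.c (T.b (T.l 204) (T.l 204)) (T.l 204)) (T.l 204)))) (T.c (T.a (T.b (T.l 204) (T.l 204)) (T.b (T.l 204) (T.l 204))) (T.a (T.l 204) (T.l 204)))) (T.b (T.a (T.c (T.b (T.b (T.l 204) (T.l 204)) (T.l 204)) (T.b (T.l 204) (T.l 204))) (T.c (T.b (T.b (T.l 220) (T.l 204)) (T.l 204)) (T.b (T.l 220) (T.l 204)))) (T.a (T.c (T.l 204) (T.l 204)) (T.b (T.l 220) (T.l 204))))))), by decide +kernel⟩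

def B022E_022_1_5_1 :
    ∃ t, chk3 (onCell 0 67108864 0 1073741824 134217728 67108864 (corT true 1 c0F cB022E gF0q0 gF2q2 gF2q2 gF3q2 true false)) t 1 5 1 = true :=
  ⟨(T.a (T.a (T.c (T.c (T.l 0) (T.l 0)) (T.l 0)) (T.c (T.a (T.l 0) (T.b (T.l 204) (T.l 0))) (T.a (T.l 0) (T.l 0)))) (T.a (T.b (T.c (T.a (T.l 204) (T.c (T.l 204) (T.l 204))) (T.a (T.l 204) (T.l 220))) (T.c (T.b (T.l 0) (T.l 0)) (T.l 0))) (T.c (T.b (T.c (T.b (T.l 204) (T.l 204)) (T.b (T.l 204) (T.l 204))) (T.c (T.l 16) (T.l 0))) (T.b (T.a (T.l 204) (T.l 204)) (T.b (T.l 0) (T.l 0)))))), by decide +kernel⟩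

def B022E_022_1_3_1 :
    ∃ t, chk3 (onCell 0 67108864 0 1073741824 134217728 67108864 (corT true 1 c0F cB022E gF0q0 gF2q2 gF2q2 gF3q2 true false)) t 1 3 1 = true :=
  ⟨(T.b (T.b (T.a (T.a (T.c (T.l 0) (T.l 0)) (T.c (T.a (T.l 816) (T.l 0)) (T.b (T.l 0) (T.l 0)))) (T.a (T.c (T.l 0) (T.l 0)) (T.c (T.b (T.l 0) (T.l 816)) (T.l 4)))) (T.a (T.a (T.c (T.l 816) (T.l 816)) (T.c (T.a (T.l 816) (T.l 816)) (T.a (T.l 816) (T.l 816)))) (T.c (T.a (T.b (T.l 816) (T.l 820)) (T.l 816)) (T.a (T.l 816) (T.l 816))))) (T.a (T.a (T.c (T.b (T.l 816) (T.c (T.b (T.l 816) (T.l 816)) (T.l 816))) (T.c (T.b (T.l 816) (T.l 816)) (T.l 816))) (T.c (T.a (T.b (T.l 816) (T.c (T.c (T.l 816) (T.l 816)) (T.l 816))) (T.b (T.b (T.l 816) (T.l 816)) (T.c (T.b (T.l 816) (T.b (T.l 816) (T.c (T.a (T.l 816) (T.l 816)) (T.b (T.l 816) (T.l 880))))) (T.b (T.l 816) (T.c (T.l 880) (T.l 816))))))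 (T.a (T.c (T.b (T.l 816) (T.l 816)) (T.l 816)) (T.b (T.l 816) (T.b (T.l 816) (T.c (T.a (T.l 816) (T.l 816)) (T.b (T.l 816) (T.l 816)))))))) (T.a (T.c (T.b (T.a (T.l 820) (T.l 816)) (T.c (T.b (T.l 816) (T.a (T.c (T.l 880) (T.l 816)) (T.a (T.l 880) (T.l 816)))) (T.b (T.l 816) (T.a (T.a (T.l 880) (T.l 816)) (T.l 816))))) (T.b (T.l 820) (T.c (T.a (T.b (T.l 816) (T.l 880)) (T.l 816)) (T.a (T.l 880) (T.l 816))))) (T.c (T.b (T.b (T.l 816) (T.l 820)) (T.b (T.a (T.l 816) (T.l 880)) (T.c (T.b (T.l 816) (T.a (T.l 880) (T.a (T.l 816) (T.l 880)))) (T.a (T.l 816) (T.b (T.l 816) (T.l 816)))))) (T.b (T.l 816) (T.b (T.l 816) (T.b (T.l 880) (T.c (T.a (T.l 816) (T.l 816)) (T.a (T.l 816) (T.l 816)))))))))), by decide +kernel⟩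

theorem B022E_022_1_2_1 :
    ∃ t, chk3 (onCell 0 67108864 0 1073741824 134217728 67108864 (corT true 1 c0F cB022E gF0q0 gF2q2 gF2q2 gF3q2 true false)) t 1 2 1 = true :=
  ex3_b B022E_022_1_4_1 B022E_022_1_5_1
theorem B022E_022 :
    ∃ t, chk3 (onCell 0 67108864 0 1073741824 134217728 67108864 (corT true 1 c0F cB022E gF0q0 gF2q2 gF2q2 gF3q2 true false)) t 1 1 1 = true :=
  ex3_b B022E_022_1_2_1 B022E_022_1_3_1

def B022E_100 :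
    ∃ t, chk3 (onCell 0 67108864 0 1073741824 134217728 67108864 (corT true 1 c0F cB022E gF1q0 gF0q2 gF0q2 gF1q2 true true)) t 1 1 1 = true :=
  ⟨(T.l 2), by decide +kernel⟩

def B022E_101 :
    ∃ t, chk3 (onCell 0 67108864 0 1073741824 134217728 67108864 (corT true 1 c0F cB022E gF1q0 gF0q2 gF1q2 gF2q2 true true)) t 1 1 1 = true :=
  ⟨(T.l 2), by decide +kernel⟩

def B022E_102 :
    ∃ t, chk3 (onCell 0 67108864 0 1073741824 134217728 67108864 (corT true 1 c0F cB022E gF1q0 gF0q2 gF2q2 gF3q2 true false)) t 1 1 1 = true :=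
  ⟨(T.b (T.a (T.a (T.b (T.c (T.b (T.c (T.l 204) (T.l 204)) (T.l 204)) (T.c (T.l 220) (T.l 204))) (T.l 204)) (T.b (T.a (T.c (T.c (T.l 204) (T.l 204)) (T.l 204)) (T.b (T.c (T.b (T.c (T.b (T.l 204) (T.l 204)) (T.l 204)) (T.l 204)) (T.c (T.l 204) (T.l 204))) (T.l 204))) (T.l 204))) (T.a (T.b (T.c (T.b (T.a (T.c (T.b (T.l 204) (T.l 204)) (T.l 204)) (T.c (T.a (T.l 204) (T.l 204)) (T.l 204))) (T.b (T.l 204) (T.l 204))) (T.b (T.a (T.b (T.l 204) (T.l 204)) (T.l 204)) (T.l 0))) (T.c (T.l 0) (T.l 0))) (T.b (T.c (T.b (T.a (T.c (T.b (T.l 204) (T.l 204)) (T.l 204)) (T.c (T.a (T.l 204) (T.l 204)) (T.l 204))) (T.l 204)) (T.b (T.a (T.l 204) (T.l 204)) (T.l 0))) (T.b (T.l 0) (T.l 0))))) (T.a (T.a (T.l 0) (T.l 0)) (T.b (T.a (T.l 0) (T.l 0)) (T.l 0)))), by decide +kernel⟩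

def B022E_110 :
    ∃ t, chk3 (onCell 0 67108864 0 1073741824 134217728 67108864 (corT true 1 c0F cB022E gF1q0 gF1q2 gF0q2 gF1q2 true true)) t 1 1 1 = true :=
  ⟨(T.l 2), by decide +kernel⟩

def B022E_111 :
    ∃ t, chk3 (onCell 0 67108864 0 1073741824 134217728 67108864 (corT true 1 c0F cB022E gF1q0 gF1q2 gF1q2 gF2q2 true true)) t 1 1 1 = true :=
  ⟨(T.l 2), by decide +kernel⟩

def B022E_112 :
    ∃ t, chk3 (onCell 0 67108864 0 1073741824 134217728 67108864 (corT true 1 c0F cB022E gF1q0 gF1q2 gF2q2 gF3q2 true false)) t 1 1 1 = true :=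
  ⟨(T.b (T.a (T.a (T.b (T.b (T.c (T.b (T.c (T.b (T.b (T.c (T.c (T.l 204) (T.l 204)) (T.a (T.l 204) (T.l 204))) (T.l 204)) (T.l 204)) (T.a (T.c (T.l 204) (T.l 204)) (T.l 204))) (T.l 204)) (T.b (T.b (T.c (T.c (T.l 204) (T.l 204)) (T.c (T.l 204) (T.l 204))) (T.l 204)) (T.l 204))) (T.l 204)) (T.l 204)) (T.b (T.a (T.c (T.c (T.b (T.l 220) (T.l 204)) (T.l 204)) (T.c (T.l 204) (T.l 204))) (T.b (T.c (T.b (T.c (T.a (T.l 204) (T.l 204)) (T.a (T.l 204) (T.l 204))) (T.l 204)) (T.a (T.l 204) (T.b (T.l 204) (T.l 204)))) (T.l 204))) (T.l 0))) (T.b (T.a (T.b (T.c (T.b (T.a (T.c (T.b (T.a (T.l 204) (T.c (T.l 204) (T.l 204))) (T.l 204)) (T.a (T.l 204) (T.l 204))) (T.c (T.b (T.c (T.a (T.l 204) (T.l 204)) (T.l 204)) (T.l 204)) (T.b (T.l 220) (T.l 204)))) (T.a (T.l 204) (T.l 204))) (T.b (T.a (T.c (T.l 204) (T.l 204)) (T.c (T.l 204) (T.l 204))) (T.l 204))) (T.c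 (T.l 204) (T.l 204))) (T.b (T.c (T.b (T.c (T.a (T.c (T.b (T.a (T.l 204) (T.l 220)) (T.l 204)) (T.l 220)) (T.b (T.c (T.b (T.a (T.l 220) (T.c (T.l 220) (T.l 204))) (T.l 204)) (T.l 220)) (T.l 204))) (T.b (T.a (T.l 204) (T.b (T.l 204) (T.l 204))) (T.l 204))) (T.l 204)) (T.b (T.a (T.c (T.l 204) (T.l 204)) (T.c (T.l 204) (T.l 204))) (T.l 204))) (T.c (T.l 204) (T.l 204)))) (T.a (T.b (T.l 0) (T.l 0)) (T.l 16)))) (T.b (T.a (T.a (T.l 0) (T.l 0)) (T.b (T.l 0) (T.l 0))) (T.a (T.a (T.l 0) (T.l 0)) (T.l 0)))), by decide +kernel⟩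

def B022E_120 :
    ∃ t, chk3 (onCell 0 67108864 0 1073741824 134217728 67108864 (corT true 1 c0F cB022E gF1q0 gF2q2 gF0q2 gF1q2 true true)) t 1 1 1 = true :=
  ⟨(T.l 2), by decide +kernel⟩

def B022E_121 :
    ∃ t, chk3 (onCell 0 67108864 0 1073741824 134217728 67108864 (corT true 1 c0F cB022E gF1q0 gF2q2 gF1q2 gF2q2 true true)) t 1 1 1 = true :=
  ⟨(T.l 2), by decide +kernel⟩

def B022E_122 :
    ∃ t, chk3 (onCell 0 67108864 0 1073741824 134217728 67108864 (corT true 1 c0F cB022E gF1q0 gF2q2 gF2q2 gF3q2 true false)) t 1 1 1 = true :=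
  ⟨(T.b (T.b (T.a (T.a (T.c (T.b (T.b (T.c (T.a (T.l 204) (T.l 204)) (T.l 204)) (T.l 204)) (T.l 204)) (T.b (T.c (T.l 204) (T.l 204)) (T.l 204))) (T.a (T.c (T.c (T.l 220) (T.l 204)) (T.c (T.l 204) (T.l 204))) (T.b (T.c (T.b (T.b (T.c (T.a (T.l 204) (T.l 204)) (T.b (T.l 204) (T.l 204))) (T.l 204)) (T.l 204)) (T.a (T.l 220) (T.c (T.l 204) (T.l 204)))) (T.l 204)))) (T.a (T.b (T.c (T.b (T.a (T.b (T.c (T.a (T.l 204) (T.l 220)) (T.a (T.l 204) (T.l 204))) (T.l 220)) (T.b (T.c (T.c (T.b (T.l 204) (T.l 204)) (T.l 204)) (T.a (T.l 204) (T.l 204))) (T.l 220))) (T.b (T.l 204) (T.l 204))) (T.b (T.a (T.b (T.c (T.l 220) (T.l 204)) (T.l 204)) (T.c (T.b (T.l 220) (T.l 204)) (T.l 220))) (T.l 204))) (T.c (T.l 204) (T.l 204))) (T.b (T.c (T.b (T.c (T.b (T.a (T.c (T.b (T.l 220) (T.l 204)) (T.l 204)) (T.b (T.c (T.a (T.l 204) (T.l 220)) (T.l 220)) (T.l 204))) (T.l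 204)) (T.b (T.a (T.a (T.l 204) (T.l 204)) (T.c (T.l 204) (T.l 204))) (T.l 204))) (T.l 204)) (T.b (T.b (T.c (T.a (T.l 204) (T.b (T.l 204) (T.l 204))) (T.a (T.l 204) (T.l 204))) (T.a (T.l 204) (T.l 204))) (T.l 204))) (T.c (T.l 204) (T.l 204))))) (T.a (T.a (T.l 204) (T.l 0)) (T.a (T.b (T.l 0) (T.l 0)) (T.l 0)))) (T.b (T.a (T.a (T.l 0) (T.l 0)) (T.b (T.l 0) (T.l 0))) (T.a (T.a (T.l 816) (T.l 0)) (T.l 0)))), by decide +kernel⟩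

def B022E_200 :
    ∃ t, chk3 (onCell 0 67108864 0 1073741824 134217728 67108864 (corT true 1 c0F cB022E gF2q0 gF0q2 gF0q2 gF1q2 true true)) t 1 1 1 = true :=
  ⟨(T.l 2), by decide +kernel⟩

def B022E_201 :
    ∃ t, chk3 (onCell 0 67108864 0 1073741824 134217728 67108864 (corT true 1 c0F cB022E gF2q0 gF0q2 gF1q2 gF2q2 true true)) t 1 1 1 = true :=
  ⟨(T.l 2), by decide +kernel⟩

def B022E_202 :
    ∃ t, chk3 (onCell 0 67108864 0 1073741824 134217728 67108864 (corT true 1 c0F cB022E gF2q0 gF0q2 gF2q2 gF3q2 true false)) t 1 1 1 = true :=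
  ⟨(T.b (T.a (T.a (T.b (T.c (T.b (T.c (T.l 204) (T.l 204)) (T.l 204)) (T.b (T.c (T.l 204) (T.l 204)) (T.l 204))) (T.l 204)) (T.b (T.b (T.a (T.c (T.c (T.l 204) (T.l 204)) (T.l 204)) (T.c (T.b (T.c (T.b (T.l 204) (T.l 204)) (T.l 204)) (T.l 204)) (T.c (T.l 204) (T.l 204)))) (T.l 204)) (T.l 204))) (T.b (T.a (T.b (T.c (T.b (T.a (T.c (T.l 204) (T.l 204)) (T.c (T.b (T.l 204) (T.l 204)) (T.l 204))) (T.l 204)) (T.a (T.b (T.l 204) (T.l 204)) (T.l 204))) (T.b (T.l 220) (T.l 204))) (T.b (T.c (T.b (T.a (T.c (T.l 204) (T.l 204)) (T.c (T.a (T.l 204) (T.l 204)) (T.l 204))) (T.l 204)) (T.a (T.l 204) (T.l 204))) (T.l 0))) (T.a (T.l 0) (T.l 0)))) (T.a (T.a (T.l 204) (T.l 204)) (T.b (T.b (T.l 0) (T.l 0)) (T.l 0)))), by decide +kernel⟩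

def B022E_210 :
    ∃ t, chk3 (onCell 0 67108864 0 1073741824 134217728 67108864 (corT true 1 c0F cB022E gF2q0 gF1q2 gF0q2 gF1q2 true true)) t 1 1 1 = true :=
  ⟨(T.l 2), by decide +kernel⟩

def B022E_211 :
    ∃ t, chk3 (onCell 0 67108864 0 1073741824 134217728 67108864 (corT true 1 c0F cB022E gF2q0 gF1q2 gF1q2 gF2q2 true true)) t 1 1 1 = true :=
  ⟨(T.l 2), by decide +kernel⟩

def B022E_212 :
    ∃ t, chk3 (onCell 0 67108864 0 1073741824 134217728 67108864 (corT true 1 c0F cB022E gF2q0 gF1q2 gF2q2 gF3q2 true false)) t 1 1 1 = true :=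
  ⟨(T.b (T.a (T.a (T.b (T.b (T.c (T.b (T.b (T.c (T.b (T.b (T.c (T.c (T.l 204) (T.l 204)) (T.a (T.l 204) (T.l 204))) (T.l 204)) (T.l 204)) (T.a (T.c (T.l 204) (T.l 204)) (T.l 204))) (T.l 204)) (T.l 204)) (T.b (T.b (T.b (T.c (T.c (T.l 204) (T.l 204)) (T.c (T.l 204) (T.l 204))) (T.l 204)) (T.l 204)) (T.l 204))) (T.l 204)) (T.l 204)) (T.b (T.b (T.a (T.c (T.c (T.b (T.l 204) (T.l 204)) (T.l 204)) (T.c (T.l 204) (T.l 204))) (T.b (T.c (T.b (T.c (T.a (T.l 204) (T.l 204)) (T.a (T.l 204) (T.l 204))) (T.l 204)) (T.a (T.l 204) (T.l 204))) (T.l 204))) (T.l 204)) (T.l 204))) (T.b (T.a (T.b (T.c (T.b (T.a (T.b (T.c (T.a (T.l 204) (T.c (T.l 204) (T.l 204))) (T.b (T.l 220) (T.l 204))) (T.l 204)) (T.b (T.c (T.c (T.a (T.l 204) (T.l 204)) (T.l 204)) (T.l 220)) (T.l 204))) (T.l 204)) (T.b (T.b (T.a (T.c (T.l 204) (T.l 204)) (T.c (T.l 204) (T.l 204))) (T.l 204))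 (T.l 204))) (T.l 204)) (T.b (T.c (T.b (T.c (T.b (T.a (T.c (T.a (T.l 204) (T.l 220)) (T.l 204)) (T.b (T.c (T.a (T.l 220) (T.c (T.l 220) (T.l 204))) (T.l 204)) (T.l 204))) (T.l 204)) (T.b (T.a (T.l 204) (T.b (T.l 204) (T.l 204))) (T.l 204))) (T.l 204)) (T.b (T.b (T.a (T.c (T.l 204) (T.l 204)) (T.c (T.l 204) (T.l 204))) (T.l 204)) (T.l 204))) (T.l 204))) (T.b (T.l 0) (T.l 0)))) (T.b (T.a (T.a (T.l 204) (T.l 204)) (T.b (T.l 0) (T.l 204))) (T.a (T.a (T.l 204) (T.l 204)) (T.l 204)))), by decide +kernel⟩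

def B022E_220 :
    ∃ t, chk3 (onCell 0 67108864 0 1073741824 134217728 67108864 (corT true 1 c0F cB022E gF2q0 gF2q2 gF0q2 gF1q2 true true)) t 1 1 1 = true :=
  ⟨(T.l 2), by decide +kernel⟩

def B022E_221 :
    ∃ t, chk3 (onCell 0 67108864 0 1073741824 134217728 67108864 (corT true 1 c0F cB022E gF2q0 gF2q2 gF1q2 gF2q2 true true)) t 1 1 1 = true :=
  ⟨(T.l 2), by decide +kernel⟩

def B022E_222 :
    ∃ t, chk3 (onCell 0 67108864 0 1073741824 134217728 67108864 (corT true 1 c0F cB022E gF2q0 gF2q2 gF2q2 gF3q2 true false)) t 1 1 1 = true :=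
  ⟨(T.b (T.b (T.a (T.a (T.b (T.c (T.b (T.c (T.c (T.l 204) (T.l 204)) (T.l 204)) (T.l 204)) (T.c (T.b (T.l 204) (T.l 204)) (T.l 204))) (T.l 204)) (T.b (T.a (T.c (T.c (T.l 204) (T.l 204)) (T.c (T.l 204) (T.l 204))) (T.b (T.c (T.b (T.b (T.c (T.a (T.l 204) (T.l 204)) (T.l 204)) (T.l 204)) (T.l 204)) (T.a (T.l 204) (T.c (T.l 204) (T.l 204)))) (T.l 204))) (T.l 204))) (T.b (T.a (T.c (T.b (T.b (T.c (T.b (T.a (T.a (T.l 204) (T.l 204)) (T.c (T.l 204) (T.l 204))) (T.l 204)) (T.b (T.a (T.a (T.l 204) (T.l 204)) (T.a (T.l 204) (T.l 204))) (T.l 204))) (T.a (T.l 204) (T.l 204))) (T.l 204)) (T.b (T.b (T.a (T.c (T.l 220) (T.l 204)) (T.c (T.l 220) (T.l 204))) (T.l 204)) (T.l 204))) (T.c (T.b (T.b (T.c (T.b (T.a (T.c (T.l 220) (T.l 204)) (T.c (T.a (T.l 204) (T.l 220)) (T.l 220))) (T.l 204)) (T.b (T.a (T.a (T.l 204) (T.l 204)) (T.a (T.l 204) (T.l 220))) (T.l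 204))) (T.l 204)) (T.l 204)) (T.b (T.b (T.c (T.a (T.l 204) (T.b (T.l 220) (T.l 204))) (T.a (T.l 204) (T.l 204))) (T.l 204)) (T.l 204)))) (T.a (T.l 204) (T.l 204)))) (T.a (T.a (T.l 204) (T.l 204)) (T.b (T.l 0) (T.l 0)))) (T.b (T.a (T.a (T.l 204) (T.l 204)) (T.b (T.l 0) (T.l 204))) (T.a (T.a (T.l 204) (T.l 204)) (T.l 204)))), by decide +kernel⟩

def B022L_050 :
    ∃ t, chk3 (onCell 0 67108864 0 1073741824 134217728 67108864 (corX 1 c0F cB022L tB022L gF0q0 gF5q2 gF0q2 gF1q2 gF0q2 true true)) t 1 1 1 = true :=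
  ⟨(T.b (T.b (T.l 2) (T.b (T.b (T.l 2) (T.a (T.c (T.l 207) (T.l 207)) (T.b (T.l 2) (T.b (T.a (T.b (T.l 2) (T.a (T.c (T.l 207) (T.l 207)) (T.c (T.l 204) (T.l 204)))) (T.l 2)) (T.a (T.a (T.c (T.l 207) (T.l 207)) (T.c (T.l 204) (T.l 204))) (T.b (T.a (T.c (T.l 204) (T.l 204)) (T.c (T.l 204) (T.l 204))) (T.c (T.a (T.l 204) (T.l 204)) (T.l 204)))))))) (T.a (T.c (T.b (T.l 207) (T.l 207)) (T.b (T.l 207) (T.l 207))) (T.a (T.c (T.l 207) (T.l 207)) (T.b (T.c (T.a (T.b (T.l 204) (T.l 204)) (T.b (T.l 204) (T.l 204))) (T.a (T.l 220) (T.l 204))) (T.c (T.a (T.b (T.l 204) (T.l 207)) (T.b (T.l 204) (T.l 204))) (T.a (T.b (T.l 204) (T.l 207)) (T.b (T.l 204) (T.l 204))))))))) (T.b (T.b (T.b (T.a (T.c (T.l 207) (T.l 207)) (T.a (T.c (T.l 207) (T.l 207)) (T.a (T.c (T.l 207) (T.l 207)) (T.c (T.b (T.l 204) (T.l 207)) (T.b (T.l 204) (T.l 207)))))) (T.c (T.a (T.l 207)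 (T.l 207)) (T.a (T.l 207) (T.l 207)))) (T.b (T.b (T.c (T.a (T.l 207) (T.l 207)) (T.a (T.l 207) (T.l 207))) (T.c (T.a (T.l 207) (T.l 207)) (T.a (T.l 207) (T.l 207)))) (T.l 1))) (T.l 1))), by decide +kernel⟩

def B022L_051 :
    ∃ t, chk3 (onCell 0 67108864 0 1073741824 134217728 67108864 (corT true 1 c0F cB022L gF0q0 gF5q2 gF1q2 gF2q2 true true)) t 1 1 1 = true :=
  ⟨(T.b (T.b (T.b (T.a (T.a (T.c (T.l 204) (T.l 204)) (T.a (T.c (T.l 204) (T.l 204)) (T.c (T.b (T.l 204) (T.l 204)) (T.b (T.l 204) (T.l 204))))) (T.a (T.c (T.a (T.b (T.l 204) (T.l 204)) (T.b (T.l 204) (T.l 204))) (T.a (T.l 204) (T.l 204))) (T.c (T.b (T.l 460) (T.l 460)) (T.b (T.l 204) (T.l 204))))) (T.a (T.c (T.l 204) (T.l 204)) (T.a (T.c (T.a (T.b (T.l 204) (T.l 204)) (T.b (T.l 204) (T.l 204))) (T.a (T.b (T.l 204) (T.l 204)) (T.l 204))) (T.c (T.b (T.l 460) (T.l 460)) (T.b (T.l 204)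 (T.l 204)))))) (T.b (T.a (T.c (T.l 204) (T.l 204)) (T.a (T.a (T.c (T.l 204) (T.l 204)) (T.c (T.b (T.l 204) (T.l 204)) (T.b (T.l 204) (T.l 204)))) (T.c (T.b (T.b (T.l 204) (T.l 204)) (T.b (T.l 204) (T.l 204))) (T.b (T.l 204) (T.l 204))))) (T.l 1))) (T.l 1)), by decide +kernel⟩

def B022L_052 :
    ∃ t, chk3 (onCell 0 67108864 0 1073741824 134217728 67108864 (corT true 1 c0F cB022L gF0q0 gF5q2 gF2q2 gF3q2 true false)) t 1 1 1 = true :=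
  ⟨(T.l 1), by decide +kernel⟩

def B022L_150 :
    ∃ t, chk3 (onCell 0 67108864 0 1073741824 134217728 67108864 (corT true 1 c0F cB022L gF1q0 gF5q2 gF0q2 gF1q2 true true)) t 1 1 1 = true :=
  ⟨(T.b (T.b (T.b (T.l 2) (T.a (T.l 204) (T.b (T.a (T.a (T.l 204) (T.l 2)) (T.l 2)) (T.a (T.b (T.l 0) (T.l 0)) (T.a (T.l 0) (T.l 0)))))) (T.a (T.l 0) (T.b (T.a (T.b (T.l 0) (T.l 0)) (T.b (T.b (T.l 0) (T.l 0)) (T.l 0))) (T.b (T.l 0) (T.l 0))))) (T.l 1)), by decide +kernel⟩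

def B022L_151 :
    ∃ t, chk3 (onCell 0 67108864 0 1073741824 134217728 67108864 (corT true 1 c0F cB022L gF1q0 gF5q2 gF1q2 gF2q2 true true)) t 1 1 1 = true :=
  ⟨(T.b (T.b (T.b (T.a (T.a (T.c (T.l 204) (T.l 204)) (T.a (T.c (T.l 204) (T.l 204)) (T.c (T.b (T.l 204) (T.l 204)) (T.l 0)))) (T.a (T.c (T.a (T.b (T.l 204) (T.l 204)) (T.l 204)) (T.a (T.l 0) (T.l 204))) (T.c (T.b (T.l 204) (T.l 204)) (T.b (T.l 204) (T.l 204))))) (T.a (T.l 204) (T.a (T.b (T.l 0) (T.l 0)) (T.b (T.l 204) (T.l 204))))) (T.l 1)) (T.l 1)), by decide +kernel⟩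

def B022L_152 :
    ∃ t, chk3 (onCell 0 67108864 0 1073741824 134217728 67108864 (corT true 1 c0F cB022L gF1q0 gF5q2 gF2q2 gF3q2 true false)) t 1 1 1 = true :=
  ⟨(T.l 1), by decide +kernel⟩

def B022L_250 :
    ∃ t, chk3 (onCell 0 67108864 0 1073741824 134217728 67108864 (corT true 1 c0F cB022L gF2q0 gF5q2 gF0q2 gF1q2 true true)) t 1 1 1 = true :=
  ⟨(T.b (T.b (T.b (T.a (T.b (T.l 2) (T.a (T.l 204) (T.l 2))) (T.l 2)) (T.a (T.l 204) (T.b (T.b (T.b (T.a (T.c (T.l 0) (T.l 0)) (T.l 2)) (T.a (T.c (T.l 0) (T.l 0)) (T.l 0))) (T.a (T.l 204) (T.l 0))) (T.a (T.l 204) (T.b (T.l 0) (T.l 0)))))) (T.a (T.l 204) (T.b (T.a (T.l 0) (T.b (T.l 0) (T.l 0))) (T.b (T.l 204) (T.l 1))))) (T.l 1)), by decide +kernel⟩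

def B022L_251 :
    ∃ t, chk3 (onCell 0 67108864 0 1073741824 134217728 67108864 (corT true 1 c0F cB022L gF2q0 gF5q2 gF1q2 gF2q2 true true)) t 1 1 1 = true :=
  ⟨(T.b (T.b (T.b (T.b (T.a (T.a (T.c (T.l 204) (T.l 204)) (T.a (T.c (T.l 204) (T.l 204)) (T.c (T.l 204) (T.l 204)))) (T.a (T.c (T.a (T.l 204) (T.l 204)) (T.b (T.l 204) (T.l 204))) (T.c (T.l 204) (T.l 204)))) (T.a (T.l 204) (T.a (T.c (T.l 0) (T.l 0)) (T.l 204)))) (T.b (T.a (T.l 204) (T.a (T.l 0) (T.l 204))) (T.l 1))) (T.l 1)) (T.l 1)), by decide +kernel⟩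

def B022L_252 :
    ∃ t, chk3 (onCell 0 67108864 0 1073741824 134217728 67108864 (corT true 1 c0F cB022L gF2q0 gF5q2 gF2q2 gF3q2 true false)) t 1 1 1 = true :=
  ⟨(T.l 1), by decide +kernel⟩

def B022R_004_2_1_1 :
    ∃ t, chk3 (onCell 0 67108864 0 1073741824 134217728 67108864 (corT true 1 c0F cB022R gF0q0 gF0q2 gF4q2 gF5q2 false true)) t 2 1 1 = true :=
  ⟨(T.a (T.c (T.b (T.b (T.c (T.b (T.b (T.a (T.c (T.c (T.l 204) (T.l 204)) (T.c (T.l 204) (T.l 204))) (T.l 204)) (T.b (T.l 204) (T.l 204))) (T.b (T.l 204) (T.l 204))) (T.b (T.b (T.a (T.c (T.b (T.l 204) (T.l 204)) (T.l 204)) (T.l 204)) (T.l 204)) (T.l 204))) (T.c (T.b (T.l 204) (T.l 204)) (T.b (T.l 204) (T.l 204)))) (T.c (T.b (T.l 204) (T.l 204)) (T.b (T.l 204) (T.l 204)))) (T.b (T.b (T.c (T.b (T.b (T.a (T.c (T.l 204) (T.l 204)) (T.l 204)) (T.l 204)) (T.l 204)) (T.b (T.b (T.c (T.b (T.l 204)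 (T.l 204)) (T.l 204)) (T.l 204)) (T.l 204))) (T.c (T.l 204) (T.l 204))) (T.b (T.b (T.l 204) (T.l 204)) (T.l 204)))) (T.c (T.a (T.b (T.c (T.b (T.c (T.l 204) (T.l 204)) (T.l 204)) (T.b (T.b (T.l 204) (T.l 204)) (T.l 204))) (T.c (T.l 460) (T.l 204))) (T.b (T.c (T.b (T.b (T.a (T.l 204) (T.l 204)) (T.l 460)) (T.l 460)) (T.b (T.b (T.a (T.l 204) (T.l 204)) (T.l 460)) (T.l 460))) (T.c (T.b (T.l 204) (T.l 204)) (T.l 460)))) (T.a (T.b (T.b (T.c (T.b (T.l 204) (T.l 204)) (T.b (T.l 204) (T.l 204))) (T.b (T.l 460) (T.l 204))) (T.b (T.l 204) (T.l 204))) (T.b (T.b (T.c (T.b (T.a (T.l 204) (T.l 204)) (T.l 204)) (T.a (T.l 204) (T.l 460))) (T.c (T.l 204) (T.l 204))) (T.b (T.l 460) (T.l 204)))))), by decide +kernel⟩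

def B022R_004_3_1_1 :
    ∃ t, chk3 (onCell 0 67108864 0 1073741824 134217728 67108864 (corT true 1 c0F cB022R gF0q0 gF0q2 gF4q2 gF5q2 false true)) t 3 1 1 = true :=
  ⟨(T.b (T.a (T.c (T.a (T.c (T.b (T.b (T.a (T.l 204) (T.l 204)) (T.l 460)) (T.l 460)) (T.b (T.b (T.a (T.l 204) (T.l 204)) (T.l 204)) (T.l 204))) (T.c (T.b (T.b (T.a (T.l 204) (T.l 204)) (T.l 460)) (T.l 460)) (T.b (T.a (T.l 460) (T.l 204)) (T.l 460)))) (T.a (T.b (T.c (T.a (T.l 460) (T.l 460)) (T.a (T.l 460) (T.l 204))) (T.c (T.l 204) (T.l 204))) (T.b (T.c (T.a (T.l 460) (T.l 204)) (T.a (T.l 204) (T.l 204))) (T.c (T.l 204) (T.l 204))))) (T.c (T.b (T.a (T.c (T.a (T.l 460) (T.l 204)) (T.b (T.l 460) (T.l 204))) (T.c (T.b (T.l 204) (T.l 204)) (T.b (T.l 204) (T.l 204)))) (T.c (T.a (T.l 460) (T.l 204)) (T.a (T.l 204) (T.l 204)))) (T.b (T.a (T.c (T.b (T.l 204) (T.l 204)) (T.b (T.l 204)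 (T.l 204))) (T.c (T.l 460) (T.l 204))) (T.a (T.b (T.l 460) (T.l 204)) (T.l 460))))) (T.a (T.c (T.a (T.c (T.l 460) (T.l 460)) (T.c (T.b (T.l 204) (T.l 204)) (T.l 460))) (T.a (T.b (T.l 460) (T.l 204)) (T.b (T.l 460) (T.l 204)))) (T.b (T.c (T.c (T.b (T.l 460) (T.l 460)) (T.b (T.l 460) (T.l 460))) (T.a (T.l 460) (T.l 460))) (T.c (T.a (T.b (T.l 460) (T.l 460)) (T.b (T.l 460) (T.l 460))) (T.a (T.l 204) (T.l 460)))))), by decide +kernel⟩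

theorem B022R_004 :
    ∃ t, chk3 (onCell 0 67108864 0 1073741824 134217728 67108864 (corT true 1 c0F cB022R gF0q0 gF0q2 gF4q2 gF5q2 false true)) t 1 1 1 = true :=
  ex3_a B022R_004_2_1_1 B022R_004_3_1_1

def B022R_014 :
    ∃ t, chk3 (onCell 0 67108864 0 1073741824 134217728 67108864 (corT true 1 c0F cB022R gF0q0 gF1q2 gF4q2 gF5q2 false true)) t 1 1 1 = true :=
  ⟨(T.b (T.a (T.a (T.c (T.b (T.l 204) (T.l 204)) (T.l 204)) (T.c (T.a (T.l 204) (T.b (T.l 204) (T.l 204))) (T.a (T.l 204) (T.l 0)))) (T.c (T.a (T.c (T.b (T.l 204) (T.l 0)) (T.l 256)) (T.c (T.l 256) (T.l 256))) (T.a (T.b (T.l 204) (T.l 0)) (T.b (T.l 204) (T.l 204))))) (T.a (T.a (T.c (T.b (T.l 0) (T.l 816)) (T.l 0)) (T.c (T.a (T.b (T.l 0) (T.l 816)) (T.c (T.l 0) (T.l 0))) (T.a (T.l 0) (T.l 0)))) (T.a (T.c (T.c (T.a (T.l 0) (T.l 0)) (T.b (T.l 0) (T.l 0))) (T.a (T.l 64) (T.b (T.l 0)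 (T.l 816)))) (T.b (T.c (T.b (T.l 0) (T.l 0)) (T.l 0)) (T.c (T.b (T.a (T.l 816) (T.l 816)) (T.c (T.l 880) (T.l 816))) (T.a (T.l 816) (T.b (T.l 816) (T.l 816)))))))), by decide +kernel⟩

def B022R_024 :
    ∃ t, chk3 (onCell 0 67108864 0 1073741824 134217728 67108864 (corT true 1 c0F cB022R gF0q0 gF2q2 gF4q2 gF5q2 false true)) t 1 1 1 = true :=
  ⟨(T.b (T.l 2) (T.b (T.b (T.b (T.l 2) (T.a (T.l 2) (T.b (T.l 2) (T.a (T.l 2) (T.c (T.l 816) (T.l 816)))))) (T.b (T.a (T.b (T.a (T.l 2) (T.c (T.a (T.l 2) (T.l 816)) (T.l 816))) (T.a (T.c (T.l 816) (T.l 816)) (T.c (T.a (T.l 816) (T.l 816)) (T.l 880)))) (T.c (T.a (T.l 880) (T.l 880)) (T.a (T.l 816) (T.l 816)))) (T.a (T.b (T.a (T.c (T.l 816) (T.l 816)) (T.c (T.a (T.l 816) (T.l 816)) (T.a (T.l 816) (T.l 816)))) (T.a (T.c (T.l 816) (T.l 816)) (T.c (T.a (T.l 816) (T.l 816)) (T.a (T.l 816) (T.l 816))))) (T.c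 (T.a (T.a (T.l 816) (T.l 816)) (T.b (T.l 880) (T.l 880))) (T.a (T.l 816) (T.l 816)))))) (T.a (T.a (T.c (T.c (T.l 816) (T.l 816)) (T.b (T.l 816) (T.l 816))) (T.c (T.c (T.a (T.l 816) (T.l 816)) (T.a (T.l 816) (T.l 816))) (T.a (T.l 880) (T.c (T.l 816) (T.l 816))))) (T.a (T.c (T.c (T.a (T.l 880) (T.b (T.l 816) (T.l 816))) (T.a (T.l 816) (T.l 816))) (T.c (T.a (T.l 816) (T.l 816)) (T.b (T.l 816) (T.l 880)))) (T.c (T.b (T.c (T.l 816) (T.l 816)) (T.c (T.a (T.l 880) (T.c (T.l 816) (T.l 816))) (T.a (T.l 816) (T.b (T.l 816) (T.l 816))))) (T.b (T.b (T.l 816) (T.l 880)) (T.c (T.a (T.l 816) (T.l 880)) (T.a (T.l 816) (T.l 816))))))))), by decide +kernel⟩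

def B022R_104 :
    ∃ t, chk3 (onCell 0 67108864 0 1073741824 134217728 67108864 (corT true 1 c0F cB022R gF1q0 gF0q2 gF4q2 gF5q2 false true)) t 1 1 1 = true :=
  ⟨(T.a (T.a (T.b (T.b (T.c (T.b (T.b (T.c (T.a (T.b (T.b (T.c (T.c (T.l 204) (T.l 204)) (T.l 204)) (T.l 204)) (T.l 204)) (T.l 204)) (T.a (T.c (T.b (T.l 204) (T.l 204)) (T.l 204)) (T.l 204))) (T.l 204)) (T.l 204)) (T.b (T.b (T.b (T.c (T.c (T.l 204) (T.l 204)) (T.c (T.l 204) (T.l 204))) (T.l 204)) (T.l 204)) (T.l 204))) (T.l 204)) (T.l 0)) (T.b (T.b (T.c (T.b (T.a (T.c (T.b (T.l 204) (T.l 204)) (T.l 204)) (T.b (T.b (T.c (T.a (T.l 204) (T.l 204)) (T.a (T.l 204) (T.l 204))) (T.l 460)) (T.l 204))) (T.l 204)) (T.b (T.a (T.c (T.l 204) (T.l 204)) (T.b (T.b (T.c (T.a (T.l 204) (T.l 204)) (T.a (T.l 204) (T.l 204))) (T.l 204)) (T.l 204))) (T.l 204))) (T.l 204)) (T.l 0))) (T.b (T.a (T.b (T.c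 (T.b (T.a (T.b (T.b (T.c (T.a (T.l 204) (T.l 204)) (T.l 204)) (T.l 204)) (T.l 204)) (T.b (T.b (T.c (T.a (T.l 204) (T.l 204)) (T.b (T.l 460) (T.l 204))) (T.l 204)) (T.l 204))) (T.l 204)) (T.b (T.a (T.b (T.c (T.l 460) (T.l 460)) (T.l 204)) (T.b (T.c (T.b (T.l 460) (T.l 204)) (T.l 460)) (T.l 204))) (T.l 204))) (T.l 460)) (T.b (T.c (T.b (T.b (T.c (T.a (T.l 204) (T.l 204)) (T.a (T.l 204) (T.l 204))) (T.l 204)) (T.l 204)) (T.b (T.b (T.a (T.c (T.l 204) (T.l 204)) (T.c (T.l 204) (T.l 204))) (T.l 204)) (T.l 204))) (T.l 204))) (T.a (T.l 0) (T.l 0)))), by decide +kernel⟩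

def B022R_114 :
    ∃ t, chk3 (onCell 0 67108864 0 1073741824 134217728 67108864 (corT true 1 c0F cB022R gF1q0 gF1q2 gF4q2 gF5q2 false true)) t 1 1 1 = true :=
  ⟨(T.a (T.a (T.b (T.c (T.b (T.l 204) (T.l 0)) (T.l 0)) (T.l 816)) (T.b (T.b (T.c (T.a (T.l 204) (T.l 204)) (T.a (T.l 204) (T.l 204))) (T.l 0)) (T.l 0))) (T.b (T.b (T.c (T.b (T.a (T.b (T.l 204) (T.l 204)) (T.l 204)) (T.l 0)) (T.a (T.l 0) (T.l 204))) (T.l 0)) (T.l 0))), by decide +kernel⟩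

def B022R_124 :
    ∃ t, chk3 (onCell 0 67108864 0 1073741824 134217728 67108864 (corT true 1 c0F cB022R gF1q0 gF2q2 gF4q2 gF5q2 false true)) t 1 1 1 = true :=
  ⟨(T.l 2), by decide +kernel⟩

def B022R_204 :
    ∃ t, chk3 (onCell 0 67108864 0 1073741824 134217728 67108864 (corT true 1 c0F cB022R gF2q0 gF0q2 gF4q2 gF5q2 false true)) t 1 1 1 = true :=
  ⟨(T.a (T.a (T.b (T.b (T.b (T.c (T.b (T.b (T.c (T.a (T.b (T.c (T.c (T.l 204) (T.l 204)) (T.l 204)) (T.l 204)) (T.l 204)) (T.a (T.c (T.l 204) (T.l 204)) (T.l 204))) (T.l 204)) (T.l 204)) (T.b (T.b (T.b (T.c (T.c (T.l 204) (T.l 204)) (T.a (T.l 204) (T.l 204))) (T.l 204)) (T.l 204)) (T.l 204))) (T.l 204)) (T.l 204)) (T.l 0)) (T.b (T.b (T.c (T.b (T.b (T.a (T.c (T.l 204) (T.l 204)) (T.b (T.c (T.a (T.l 204) (T.l 204)) (T.a (T.l 204) (T.l 204))) (T.l 204))) (T.l 460)) (T.l 204)) (T.b (T.b (T.a (T.c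 (T.l 204) (T.l 204)) (T.b (T.b (T.c (T.a (T.l 204) (T.l 204)) (T.a (T.l 204) (T.l 204))) (T.l 204)) (T.l 204))) (T.l 204)) (T.l 204))) (T.l 204)) (T.l 0))) (T.b (T.a (T.b (T.c (T.b (T.b (T.a (T.b (T.c (T.a (T.l 204) (T.l 204)) (T.l 460)) (T.l 204)) (T.b (T.c (T.a (T.l 204) (T.l 204)) (T.a (T.l 204) (T.l 204))) (T.l 204))) (T.l 204)) (T.l 204)) (T.b (T.b (T.a (T.b (T.c (T.l 204) (T.l 204)) (T.l 204)) (T.b (T.c (T.l 460) (T.l 460)) (T.l 204))) (T.l 204)) (T.l 204))) (T.l 204)) (T.b (T.b (T.c (T.b (T.c (T.a (T.l 460) (T.l 204)) (T.a (T.l 204) (T.l 204))) (T.l 204)) (T.b (T.b (T.a (T.c (T.l 204) (T.l 204)) (T.c (T.l 204) (T.l 204))) (T.l 204)) (T.l 204))) (T.l 204)) (T.l 204))) (T.l 256))), by decide +kernel⟩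

def B022R_214 :
    ∃ t, chk3 (onCell 0 67108864 0 1073741824 134217728 67108864 (corT true 1 c0F cB022R gF2q0 gF1q2 gF4q2 gF5q2 false true)) t 1 1 1 = true :=
  ⟨(T.b (T.a (T.a (T.b (T.c (T.b (T.l 204) (T.l 204)) (T.l 204)) (T.l 0)) (T.b (T.c (T.a (T.l 204) (T.l 204)) (T.a (T.l 204) (T.l 204))) (T.l 0))) (T.b (T.c (T.b (T.a (T.a (T.l 204) (T.l 204)) (T.l 204)) (T.l 0)) (T.a (T.b (T.l 204) (T.l 204)) (T.l 204))) (T.l 0))) (T.a (T.l 2) (T.l 0))), by decide +kernel⟩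

def B022R_224 :
    ∃ t, chk3 (onCell 0 67108864 0 1073741824 134217728 67108864 (corT true 1 c0F cB022R gF2q0 gF2q2 gF4q2 gF5q2 false true)) t 1 1 1 = true :=
  ⟨(T.l 2), by decide +kernel⟩

def B101E_000 :
    ∃ t, chk3 (onCell 0 53687091 0 1073741824 134217728 67108864 (corT true 1 c0F cB101E gF0q1 gF0q1 gF0q0 gF1q0 true true)) t 1 1 1 = true :=
  ⟨(T.l 2), by decide +kernel⟩

def B101E_001 :
    ∃ t, chk3 (onCell 0 53687091 0 1073741824 134217728 67108864 (corT true 1 c0F cB101E gF0q1 gF0q1 gF1q0 gF2q0 true true)) t 1 1 1 = true :=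
  ⟨(T.b (T.l 2) (T.l 2)), by decide +kernel⟩

def B101E_002 :
    ∃ t, chk3 (onCell 0 53687091 0 1073741824 134217728 67108864 (corT true 1 c0F cB101E gF0q1 gF0q1 gF2q0 gF3q0 true false)) t 1 1 1 = true :=
  ⟨(T.a (T.b (T.l 204) (T.l 0)) (T.b (T.b (T.b (T.l 204) (T.l 204)) (T.l 204)) (T.l 0))), by decide +kernel⟩

def B101L_300 :
    ∃ t, chk3 (onCell 0 67108864 0 1073741824 134217728 67108864 (corT true 1 c0F cB101L gF3q1 gF0q1 gF0q0 gF1q0 true true)) t 1 1 1 = true :=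
  ⟨(T.b (T.l 1) (T.b (T.l 1) (T.b (T.l 1) (T.b (T.b (T.l 1) (T.b (T.l 1) (T.b (T.l 1) (T.b (T.a (T.b (T.l 1) (T.a (T.b (T.l 1) (T.b (T.l 1) (T.c (T.c (T.a (T.l 816) (T.l 816)) (T.l 816)) (T.c (T.l 816) (T.l 816))))) (T.l 1))) (T.l 1)) (T.b (T.a (T.c (T.c (T.a (T.l 816) (T.l 816)) (T.l 816)) (T.c (T.l 816) (T.l 816))) (T.b (T.a (T.c (T.c (T.l 820) (T.l 816)) (T.a (T.l 816) (T.l 820))) (T.b (T.l 1) (T.c (T.a (T.c (T.a (T.l 820) (T.l 816)) (T.l 820)) (T.c (T.l 820) (T.l 816))) (T.a (T.c (T.l 816) (T.l 816)) (T.c (T.l 816) (T.l 816)))))) (T.a (T.c (T.c (T.l 816) (T.l 816)) (T.l 816)) (T.b (T.c (T.a (T.c (T.a (T.l 816) (T.l 816)) (T.l 816)) (T.c (T.l 820) (T.l 816))) (T.c (T.a (T.l 816) (T.l 816)) (T.a (T.l 816) (T.l 816)))) (T.c (T.c (T.a (T.l 820) (T.l 816)) (T.a (T.l 816) (T.l 816))) (T.a (T.c (T.l 816) (T.l 816)) (T.l 820))))))) (T.a (T.c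 (T.c (T.l 816) (T.l 816)) (T.l 816)) (T.b (T.a (T.c (T.c (T.l 816) (T.l 816)) (T.l 816)) (T.b (T.c (T.c (T.a (T.l 816) (T.l 816)) (T.a (T.l 816) (T.l 816))) (T.c (T.a (T.l 816) (T.l 816)) (T.l 820))) (T.c (T.c (T.a (T.l 816) (T.l 816)) (T.a (T.l 816) (T.l 816))) (T.c (T.l 820) (T.l 820))))) (T.a (T.c (T.c (T.l 816) (T.l 816)) (T.l 816)) (T.c (T.c (T.a (T.l 816) (T.l 816)) (T.a (T.l 816) (T.l 816))) (T.a (T.l 820) (T.l 816))))))))))) (T.a (T.b (T.c (T.c (T.l 816) (T.l 816)) (T.l 880)) (T.l 816)) (T.a (T.c (T.c (T.l 816) (T.l 816)) (T.l 820)) (T.c (T.b (T.b (T.c (T.a (T.l 816) (T.l 816)) (T.l 820)) (T.l 816)) (T.l 816)) (T.b (T.a (T.l 820) (T.l 816)) (T.l 816))))))))), by decide +kernel⟩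

def B101L_301 :
    ∃ t, chk3 (onCell 0 67108864 0 1073741824 134217728 67108864 (corT true 1 c0F cB101L gF3q1 gF0q1 gF1q0 gF2q0 true true)) t 1 1 1 = true :=
  ⟨(T.l 1), by decide +kernel⟩

def B101L_302 :
    ∃ t, chk3 (onCell 0 67108864 0 1073741824 134217728 67108864 (corT true 1 c0F cB101L gF3q1 gF0q1 gF2q0 gF3q0 true false)) t 1 1 1 = true :=
  ⟨(T.l 1), by decide +kernel⟩

def B101L_400 :
    ∃ t, chk3 (onCell 0 67108864 0 1073741824 134217728 67108864 (corT true 1 c0F cB101L gF4q1 gF0q1 gF0q0 gF1q0 true true)) t 1 1 1 = true :=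
  ⟨(T.b (T.l 1) (T.b (T.l 1) (T.a (T.b (T.b (T.b (T.l 1) (T.b (T.l 1) (T.c (T.b (T.b (T.b (T.l 1) (T.c (T.a (T.b (T.l 1) (T.c (T.l 816) (T.l 816))) (T.a (T.l 816) (T.l 816))) (T.a (T.l 816) (T.l 816)))) (T.c (T.a (T.l 816) (T.l 816)) (T.l 816))) (T.l 816)) (T.c (T.a (T.a (T.l 816) (T.l 816)) (T.l 816)) (T.l 816))))) (T.c (T.l 816) (T.l 816))) (T.l 816)) (T.b (T.b (T.b (T.l 1) (T.b (T.l 1) (T.a (T.c (T.c (T.c (T.a (T.l 880) (T.l 816)) (T.l 816)) (T.l 816)) (T.l 816)) (T.c (T.b (T.c (T.b (T.b (T.l 1) (T.a (T.l 816) (T.l 816))) (T.l 816)) (T.a (T.l 816) (T.l 816))) (T.l 816)) (T.a (T.l 0) (T.l 0)))))) (T.a (T.c (T.l 816) (T.l 816)) (T.c (T.l 816) (T.l 0)))) (T.b (T.l 0) (T.l 0)))))), by decide +kernel⟩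

def B101L_401 :
    ∃ t, chk3 (onCell 0 67108864 0 1073741824 134217728 67108864 (corT true 1 c0F cB101L gF4q1 gF0q1 gF1q0 gF2q0 true true)) t 1 1 1 = true :=
  ⟨(T.l 1), by decide +kernel⟩

def B101L_402 :
    ∃ t, chk3 (onCell 0 67108864 0 1073741824 134217728 67108864 (corT true 1 c0F cB101L gF4q1 gF0q1 gF2q0 gF3q0 true false)) t 1 1 1 = true :=
  ⟨(T.l 1), by decide +kernel⟩

def B101L_500 :
    ∃ t, chk3 (onCell 0 67108864 0 1073741824 134217728 67108864 (corX 1 c0F cB101L tB101L gF5q1 gF0q1 gF0q0 gF1q0 gF0q0 true true)) t 1 1 1 = true :=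
  ⟨(T.b (T.l 1) (T.b (T.l 3) (T.a (T.l 819) (T.b (T.l 819) (T.l 816))))), by decide +kernel⟩

def B101L_501 :
    ∃ t, chk3 (onCell 0 67108864 0 1073741824 134217728 67108864 (corT true 1 c0F cB101L gF5q1 gF0q1 gF1q0 gF2q0 true true)) t 1 1 1 = true :=
  ⟨(T.l 1), by decide +kernel⟩

def B101L_502 :
    ∃ t, chk3 (onCell 0 67108864 0 1073741824 134217728 67108864 (corT true 1 c0F cB101L gF5q1 gF0q1 gF2q0 gF3q0 true false)) t 1 1 1 = true :=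
  ⟨(T.l 1), by decide +kernel⟩

def B101R_030 :
    ∃ t, chk3 (onCell 0 67108864 0 1073741824 134217728 67108864 (corT true 1 c0F cB101R gF0q1 gF3q1 gF0q0 gF1q0 true true)) t 1 1 1 = true :=
  ⟨(T.l 1), by decide +kernel⟩

def B101R_031 :
    ∃ t, chk3 (onCell 0 67108864 0 1073741824 134217728 67108864 (corT true 1 c0F cB101R gF0q1 gF3q1 gF1q0 gF2q0 true true)) t 1 1 1 = true :=
  ⟨(T.l 1), by decide +kernel⟩

def B101R_032 :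
    ∃ t, chk3 (onCell 0 67108864 0 1073741824 134217728 67108864 (corT true 1 c0F cB101R gF0q1 gF3q1 gF2q0 gF3q0 true false)) t 1 1 1 = true :=
  ⟨(T.l 1), by decide +kernel⟩

def B101R_040 :
    ∃ t, chk3 (onCell 0 67108864 0 1073741824 134217728 67108864 (corT true 1 c0F cB101R gF0q1 gF4q1 gF0q0 gF1q0 true true)) t 1 1 1 = true :=
  ⟨(T.l 1), by decide +kernel⟩

def B101R_041 :
    ∃ t, chk3 (onCell 0 67108864 0 1073741824 134217728 67108864 (corT true 1 c0F cB101R gF0q1 gF4q1 gF1q0 gF2q0 true true)) t 1 1 1 = true :=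
  ⟨(T.l 1), by decide +kernel⟩

def B101R_042 :
    ∃ t, chk3 (onCell 0 67108864 0 1073741824 134217728 67108864 (corT true 1 c0F cB101R gF0q1 gF4q1 gF2q0 gF3q0 true false)) t 1 1 1 = true :=
  ⟨(T.l 1), by decide +kernel⟩

def B101R_050 :
    ∃ t, chk3 (onCell 0 67108864 0 1073741824 134217728 67108864 (corT true 1 c0F cB101R gF0q1 gF5q1 gF0q0 gF1q0 true true)) t 1 1 1 = true :=
  ⟨(T.l 1), by decide +kernel⟩

def B101R_051 :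
    ∃ t, chk3 (onCell 0 67108864 0 1073741824 134217728 67108864 (corT true 1 c0F cB101R gF0q1 gF5q1 gF1q0 gF2q0 true true)) t 1 1 1 = true :=
  ⟨(T.l 1), by decide +kernel⟩

def B101R_052 :
    ∃ t, chk3 (onCell 0 67108864 0 1073741824 134217728 67108864 (corT true 1 c0F cB101R gF0q1 gF5q1 gF2q0 gF3q0 true false)) t 1 1 1 = true :=
  ⟨(T.l 1), by decide +kernel⟩

def B102E_000 :
    ∃ t, chk3 (onCell 0 53687091 0 1073741824 134217728 67108864 (corX 1 c0F cB102E tB102E gF0q1 gF0q2 gF0q0 gF1q0 gF0q0 true true)) t 1 1 1 = true :=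
  ⟨(T.b (T.b (T.l 1) (T.a (T.l 819) (T.l 1))) (T.b (T.b (T.b (T.a (T.l 819) (T.l 819)) (T.l 0)) (T.l 0)) (T.b (T.b (T.l 816) (T.l 2)) (T.l 2)))), by decide +kernel⟩

def B102E_001 :
    ∃ t, chk3 (onCell 0 53687091 0 1073741824 134217728 67108864 (corT true 1 c0F cB102E gF0q1 gF0q2 gF1q0 gF2q0 true true)) t 1 1 1 = true :=
  ⟨(T.b (T.l 1) (T.b (T.b (T.l 1) (T.b (T.l 1) (T.l 0))) (T.a (T.l 816) (T.b (T.l 816) (T.l 816))))), by decide +kernel⟩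

def B102E_002 :
    ∃ t, chk3 (onCell 0 53687091 0 1073741824 134217728 67108864 (corT true 1 c0F cB102E gF0q1 gF0q2 gF2q0 gF3q0 true false)) t 1 1 1 = true :=
  ⟨(T.b (T.l 1) (T.b (T.l 1) (T.b (T.l 1) (T.a (T.l 816) (T.l 0))))), by decide +kernel⟩

def B102E_010_1_4_1 :
    ∃ t, chk3 (onCell 0 67108864 0 1073741824 134217728 67108864 (corT true 1 c0F cB102E gF0q1 gF1q2 gF0q0 gF1q0 true true)) t 1 4 1 = true :=
  ⟨(T.l 1), by decide +kernel⟩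

def B102E_010_1_20_1 :
    ∃ t, chk3 (onCell 0 67108864 0 1073741824 134217728 67108864 (corT true 1 c0F cB102E gF0q1 gF1q2 gF0q0 gF1q0 true true)) t 1 20 1 = true :=
  ⟨(T.l 1), by decide +kernel⟩

def B102E_010_2_84_1 :
    ∃ t, chk3 (onCell 0 67108864 0 1073741824 134217728 67108864 (corT true 1 c0F cB102E gF0q1 gF1q2 gF0q0 gF1q0 true true)) t 2 84 1 = true :=
  ⟨(T.l 1), by decide +kernel⟩

def B102E_010_4_340_1 :
    ∃ t, chk3 (onCell 0 67108864 0 1073741824 134217728 67108864 (corT true 1 c0F cB102E gF0q1 gF1q2 gF0q0 gF1q0 true true)) t 4 340 1 = true :=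
  ⟨(T.l 1), by decide +kernel⟩

def B102E_010_16_1364_1 :
    ∃ t, chk3 (onCell 0 67108864 0 1073741824 134217728 67108864 (corT true 1 c0F cB102E gF0q1 gF1q2 gF0q0 gF1q0 true true)) t 16 1364 1 = true :=
  ⟨(T.l 1), by decide +kernel⟩

def B102E_010_32_2730_1 :
    ∃ t, chk3 (onCell 0 67108864 0 1073741824 134217728 67108864 (corT true 1 c0F cB102E gF0q1 gF1q2 gF0q0 gF1q0 true true)) t 32 2730 1 = true :=
  ⟨(T.a (T.b (T.l 1) (T.c (T.a (T.c (T.c (T.c (T.b (T.a (T.b (T.l 1) (T.c (T.l 204) (T.l 204))) (T.l 1)) (T.c (T.l 204) (T.l 204))) (T.b (T.a (T.b (T.l 1) (T.l 204)) (T.l 1)) (T.l 204))) (T.c (T.b (T.a (T.c (T.l 204) (T.l 204)) (T.l 1)) (T.l 204)) (T.a (T.l 204) (T.b (T.l 1) (T.l 204))))) (T.c (T.b (T.a (T.c (T.l 204) (T.l 204)) (T.l 1)) (T.l 204)) (T.c (T.l 204) (T.l 204)))) (T.a (T.a (T.a (T.b (T.l 1) (T.a (T.b (T.l 1) (T.b (T.l 1) (T.b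 (T.l 1) (T.c (T.c (T.c (T.l 204) (T.l 204)) (T.l 204)) (T.c (T.l 204) (T.l 204)))))) (T.l 1))) (T.l 1)) (T.l 1)) (T.l 1))) (T.a (T.c (T.c (T.c (T.l 204) (T.l 204)) (T.l 204)) (T.c (T.l 204) (T.l 204))) (T.a (T.a (T.a (T.b (T.l 1) (T.a (T.b (T.l 1) (T.c (T.c (T.l 204) (T.l 204)) (T.l 204))) (T.l 1))) (T.l 1)) (T.l 1)) (T.l 1))))) (T.l 1)), by decide +kernel⟩

def B102E_010_32_2731_1 :
    ∃ t, chk3 (onCell 0 67108864 0 1073741824 134217728 67108864 (corT true 1 c0F cB102E gF0q1 gF1q2 gF0q0 gF1q0 true true)) t 32 2731 1 = true :=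
  ⟨(T.a (T.c (T.c (T.c (T.a (T.l 204) (T.b (T.c (T.c (T.c (T.l 460) (T.l 460)) (T.l 460)) (T.c (T.l 204) (T.l 204))) (T.l 204))) (T.c (T.l 204) (T.l 204))) (T.c (T.c (T.l 204) (T.l 204)) (T.l 204))) (T.c (T.c (T.l 204) (T.l 204)) (T.c (T.l 204) (T.l 204)))) (T.c (T.b (T.a (T.b (T.l 1) (T.c (T.c (T.c (T.a (T.l 204) (T.b (T.l 1) (T.l 460))) (T.c (T.l 460) (T.l 204))) (T.c (T.l 460) (T.l 204))) (T.c (T.c (T.l 204) (T.l 204)) (T.l 204)))) (T.l 1)) (T.c (T.c (T.c (T.a (T.l 204) (T.a (T.l 460) (T.b (T.l 1) (T.l 204)))) (T.c (T.c (T.a (T.l 204) (T.a (T.l 204) (T.b (T.l 1) (T.l 204)))) (T.l 460)) (T.l 460))) (T.c (T.c (T.l 460) (T.l 204)) (T.l 460))) (T.c (T.c (T.l 204) (T.l 204)) (T.l 460)))) (T.c (T.c (T.b (T.a (T.c (T.l 204) (T.l 204)) (T.l 1)) (T.l 204)) (T.b (T.a (T.c (T.l 204) (T.l 204)) (T.l 1)) (T.l 204))) (T.c (T.a (T.l 204) (T.b (T.l 1)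 (T.l 204))) (T.c (T.c (T.l 460) (T.l 460)) (T.l 460)))))), by decide +kernel⟩

def B102E_010_33_1365_1 :
    ∃ t, chk3 (onCell 0 67108864 0 1073741824 134217728 67108864 (corT true 1 c0F cB102E gF0q1 gF1q2 gF0q0 gF1q0 true true)) t 33 1365 1 = true :=
  ⟨(T.a (T.a (T.a (T.b (T.l 1) (T.a (T.b (T.l 1) (T.b (T.l 1) (T.b (T.l 1) (T.c (T.c (T.c (T.c (T.l 204) (T.l 204)) (T.l 204)) (T.c (T.l 204) (T.l 204))) (T.c (T.c (T.l 204) (T.l 204)) (T.l 204)))))) (T.l 1))) (T.l 1)) (T.l 1)) (T.l 1)), by decide +kernel⟩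

def B102E_010_17_682_1 :
    ∃ t, chk3 (onCell 0 67108864 0 1073741824 134217728 67108864 (corT true 1 c0F cB102E gF0q1 gF1q2 gF0q0 gF1q0 true true)) t 17 682 1 = true :=
  ⟨(T.l 1), by decide +kernel⟩

def B102E_010_8_683_4 :
    ∃ t, chk3 (onCell 0 67108864 0 1073741824 134217728 67108864 (corT true 1 c0F cB102E gF0q1 gF1q2 gF0q0 gF1q0 true true)) t 8 683 4 = true :=
  ⟨(T.a (T.b (T.c (T.a (T.l 204) (T.b (T.a (T.b (T.c (T.a (T.l 204) (T.b (T.a (T.a (T.l 460) (T.l 1)) (T.l 1)) (T.l 460))) (T.a (T.l 204) (T.b (T.a (T.c (T.l 460) (T.l 204)) (T.l 1)) (T.l 204)))) (T.l 204)) (T.b (T.l 1) (T.c (T.a (T.c (T.l 460) (T.l 204)) (T.b (T.l 1) (T.c (T.l 460) (T.l 460)))) (T.a (T.l 460) (T.b (T.l 1) (T.l 460)))))) (T.c (T.l 204) (T.l 204)))) (T.a (T.l 204) (T.b (T.a (T.a (T.l 460) (T.b (T.c (T.b (T.a (T.l 460) (T.l 1)) (T.l 204)) (T.c (T.l 460) (T.l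 460))) (T.l 204))) (T.b (T.l 1) (T.c (T.a (T.l 204) (T.b (T.l 1) (T.l 204))) (T.a (T.l 204) (T.a (T.l 460) (T.l 1)))))) (T.l 204)))) (T.l 204)) (T.b (T.a (T.b (T.l 1) (T.a (T.c (T.c (T.b (T.a (T.c (T.c (T.c (T.a (T.l 204) (T.b (T.l 1) (T.l 204))) (T.l 460)) (T.l 460)) (T.l 460)) (T.l 1)) (T.l 204)) (T.b (T.a (T.c (T.l 460) (T.l 460)) (T.l 1)) (T.l 204))) (T.b (T.a (T.c (T.l 460) (T.l 204)) (T.l 1)) (T.l 460))) (T.a (T.b (T.l 1) (T.b (T.l 1) (T.c (T.c (T.l 460) (T.l 204)) (T.l 460)))) (T.l 1)))) (T.l 1)) (T.c (T.a (T.c (T.l 460) (T.l 460)) (T.b (T.a (T.b (T.a (T.a (T.b (T.l 1) (T.c (T.l 204) (T.l 204))) (T.l 1)) (T.l 1)) (T.c (T.c (T.l 460) (T.l 460)) (T.l 460))) (T.l 1)) (T.a (T.l 204) (T.b (T.c (T.c (T.a (T.l 204) (T.a (T.l 460) (T.l 1))) (T.l 460)) (T.c (T.l 460) (T.l 460))) (T.l 460))))) (T.a (T.l 460) (T.b (T.a (T.b (T.a (T.c (T.a (T.l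 460) (T.l 1)) (T.l 460)) (T.l 1)) (T.c (T.l 460) (T.l 204))) (T.l 1)) (T.c (T.l 460) (T.l 460))))))), by decide +kernel⟩

def B102E_010_8_683_5 :
    ∃ t, chk3 (onCell 0 67108864 0 1073741824 134217728 67108864 (corT true 1 c0F cB102E gF0q1 gF1q2 gF0q0 gF1q0 true true)) t 8 683 5 = true :=
  ⟨(T.a (T.b (T.c (T.a (T.l 204) (T.b (T.a (T.c (T.l 460) (T.l 204)) (T.b (T.l 1) (T.c (T.c (T.l 460) (T.l 460)) (T.l 460)))) (T.l 204))) (T.a (T.l 204) (T.b (T.a (T.c (T.l 204) (T.l 204)) (T.b (T.l 1) (T.c (T.l 460) (T.l 204)))) (T.l 204)))) (T.l 204)) (T.b (T.a (T.b (T.l 1) (T.a (T.c (T.a (T.l 460) (T.b (T.l 1) (T.l 204))) (T.c (T.l 460) (T.l 460))) (T.a (T.b (T.l 1) (T.c (T.c (T.l 460) (T.l 204)) (T.l 460))) (T.l 1)))) (T.l 1)) (T.c (T.a (T.l 204) (T.b (T.a (T.b (T.a (T.c (T.l 460) (T.l 460)) (T.l 1)) (T.l 460)) (T.l 1)) (T.l 460))) (T.a (T.l 204) (T.b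 (T.a (T.b (T.a (T.l 460) (T.l 1)) (T.l 204)) (T.l 1)) (T.l 204)))))), by decide +kernel⟩

def B102E_010_8_683_3 :
    ∃ t, chk3 (onCell 0 67108864 0 1073741824 134217728 67108864 (corT true 1 c0F cB102E gF0q1 gF1q2 gF0q0 gF1q0 true true)) t 8 683 3 = true :=
  ⟨(T.c (T.a (T.a (T.l 204) (T.b (T.b (T.c (T.a (T.l 204) (T.b (T.l 1) (T.l 460))) (T.a (T.l 204) (T.b (T.l 1) (T.l 204)))) (T.l 460)) (T.l 204))) (T.b (T.a (T.b (T.l 1) (T.c (T.a (T.l 460) (T.b (T.l 1) (T.c (T.l 460) (T.l 204)))) (T.a (T.l 204) (T.b (T.l 1) (T.l 460))))) (T.l 1)) (T.c (T.a (T.l 204) (T.b (T.a (T.c (T.l 460) (T.l 460)) (T.l 1)) (T.l 204))) (T.a (T.l 204) (T.a (T.l 460) (T.b (T.l 1) (T.l 204))))))) (T.a (T.a (T.l 204) (T.b (T.b (T.c (T.a (T.l 204) (T.b (T.l 1) (T.l 204))) (T.a (T.l 204) (T.b (T.l 1) (T.l 204)))) (T.l 204)) (T.l 204))) (T.b (T.a (T.b (T.l 1) (T.c (T.a (T.l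 204) (T.b (T.l 1) (T.l 204))) (T.a (T.l 204) (T.a (T.l 460) (T.l 1))))) (T.l 1)) (T.a (T.l 204) (T.b (T.a (T.c (T.l 204) (T.l 204)) (T.l 1)) (T.l 204)))))), by decide +kernel⟩

def B102E_010_9_341_1 :
    ∃ t, chk3 (onCell 0 67108864 0 1073741824 134217728 67108864 (corT true 1 c0F cB102E gF0q1 gF1q2 gF0q0 gF1q0 true true)) t 9 341 1 = true :=
  ⟨(T.a (T.a (T.a (T.b (T.l 1) (T.a (T.b (T.l 1) (T.b (T.l 1) (T.b (T.l 1) (T.b (T.l 1) (T.c (T.c (T.c (T.l 460) (T.l 204)) (T.c (T.l 204) (T.l 204))) (T.c (T.l 204) (T.l 204))))))) (T.l 1))) (T.l 1)) (T.l 1)) (T.l 1)), by decide +kernel⟩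

def B102E_010_5_170_1 :
    ∃ t, chk3 (onCell 0 67108864 0 1073741824 134217728 67108864 (corT true 1 c0F cB102E gF0q1 gF1q2 gF0q0 gF1q0 true true)) t 5 170 1 = true :=
  ⟨(T.l 1), by decide +kernel⟩

def B102E_010_4_171_2 :
    ∃ t, chk3 (onCell 0 67108864 0 1073741824 134217728 67108864 (corT true 1 c0F cB102E gF0q1 gF1q2 gF0q0 gF1q0 true true)) t 4 171 2 = true :=
  ⟨(T.b (T.c (T.a (T.c (T.l 204) (T.l 204)) (T.b (T.a (T.c (T.b (T.a (T.a (T.l 460) (T.b (T.b (T.a (T.c (T.l 460) (T.l 460)) (T.l 1)) (T.l 460)) (T.l 204))) (T.b (T.l 1) (T.c (T.a (T.l 460) (T.b (T.l 1) (T.l 460))) (T.a (T.l 460) (T.b (T.l 1) (T.l 460)))))) (T.l 204)) (T.b (T.a (T.c (T.c (T.a (T.l 204) (T.c (T.c (T.l 460) (T.l 460)) (T.l 460))) (T.l 460)) (T.l 460)) (T.b (T.l 1) (T.a (T.l 460) (T.b (T.l 1) (T.l 460))))) (T.l 204))) (T.b (T.l 1) (T.a (T.c (T.b (T.a (T.c (T.l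 460) (T.l 460)) (T.a (T.b (T.l 1) (T.l 460)) (T.l 1))) (T.l 460)) (T.a (T.l 460) (T.b (T.a (T.b (T.l 1) (T.l 460)) (T.l 1)) (T.l 204)))) (T.a (T.b (T.l 1) (T.b (T.l 1) (T.c (T.l 460) (T.l 204)))) (T.l 1))))) (T.c (T.a (T.l 204) (T.l 460)) (T.l 460)))) (T.a (T.l 460) (T.b (T.a (T.b (T.c (T.a (T.c (T.l 460) (T.l 460)) (T.b (T.l 1) (T.c (T.c (T.l 460) (T.l 460)) (T.l 460)))) (T.a (T.l 460) (T.b (T.l 1) (T.l 460)))) (T.l 460)) (T.b (T.l 1) (T.a (T.b (T.c (T.a (T.l 460) (T.b (T.l 1) (T.l 460))) (T.c (T.l 460) (T.l 460))) (T.l 460)) (T.a (T.b (T.l 1) (T.c (T.l 460) (T.l 460))) (T.l 1))))) (T.c (T.l 460) (T.l 204))))) (T.c (T.l 204) (T.l 204))), by decide +kernel⟩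

def B102E_010_5_171_2 :
    ∃ t, chk3 (onCell 0 67108864 0 1073741824 134217728 67108864 (corT true 1 c0F cB102E gF0q1 gF1q2 gF0q0 gF1q0 true true)) t 5 171 2 = true :=
  ⟨(T.b (T.a (T.b (T.l 1) (T.a (T.c (T.b (T.a (T.b (T.a (T.a (T.c (T.c (T.l 460) (T.l 460)) (T.l 460)) (T.l 1)) (T.l 1)) (T.c (T.c (T.l 460) (T.l 460)) (T.l 460))) (T.l 1)) (T.c (T.c (T.c (T.l 460) (T.l 460)) (T.l 460)) (T.l 460))) (T.b (T.a (T.b (T.a (T.c (T.l 460) (T.l 460)) (T.l 1)) (T.c (T.l 460) (T.l 204))) (T.l 1)) (T.c (T.l 460) (T.l 460)))) (T.a (T.a (T.b (T.l 1) (T.b (T.l 1) (T.c (T.c (T.l 460) (T.l 460)) (T.l 460)))) (T.l 1)) (T.l 1)))) (T.l 1)) (T.c (T.a (T.a (T.l 204) (T.b (T.b (T.c (T.a (T.l 204) (T.b (T.a (T.l 460) (T.l 1)) (T.l 460))) (T.c (T.a (T.l 204) (T.c (T.l 460) (T.l 460))) (T.l 460))) (T.l 460)) (T.l 204))) (T.b (T.a (T.b (T.l 1) (T.c (T.a (T.l 460)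 (T.b (T.l 1) (T.l 460))) (T.a (T.l 460) (T.a (T.l 460) (T.l 1))))) (T.l 1)) (T.a (T.l 460) (T.b (T.a (T.c (T.l 460) (T.l 460)) (T.l 1)) (T.l 460))))) (T.a (T.c (T.c (T.l 460) (T.l 460)) (T.l 460)) (T.b (T.a (T.b (T.l 1) (T.c (T.c (T.a (T.l 204) (T.a (T.l 460) (T.l 1))) (T.l 460)) (T.l 460))) (T.l 1)) (T.a (T.l 204) (T.a (T.l 460) (T.b (T.l 1) (T.l 460)))))))), by decide +kernel⟩

def B102E_010_2_171_3 :
    ∃ t, chk3 (onCell 0 67108864 0 1073741824 134217728 67108864 (corT true 1 c0F cB102E gF0q1 gF1q2 gF0q0 gF1q0 true true)) t 2 171 3 = true :=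
  ⟨(T.a (T.b (T.a (T.c (T.l 204) (T.l 204)) (T.c (T.b (T.a (T.b (T.c (T.a (T.l 204) (T.b (T.l 1) (T.l 460))) (T.a (T.l 204) (T.b (T.l 1) (T.l 204)))) (T.l 204)) (T.b (T.l 1) (T.a (T.c (T.l 460) (T.l 460)) (T.b (T.l 1) (T.c (T.l 460) (T.l 460)))))) (T.l 460)) (T.b (T.a (T.a (T.l 460) (T.b (T.b (T.l 1) (T.l 460)) (T.l 204))) (T.b (T.l 1) (T.a (T.l 460) (T.b (T.l 1) (T.l 460))))) (T.l 204)))) (T.l 204)) (T.b (T.a (T.b (T.l 1) (T.a (T.c (T.b (T.a (T.c (T.c (T.l 460) (T.l 460)) (T.l 460)) (T.l 1)) (T.l 460)) (T.b (T.a (T.c (T.l 460) (T.l 204)) (T.l 1)) (T.l 204))) (T.a (T.a (T.b (T.l 1) (T.c (T.c (T.l 460) (T.l 460)) (T.l 460))) (T.l 1)) (T.l 1)))) (T.l 1)) (T.a (T.c (T.a (T.l 204) (T.l 460)) (T.l 460)) (T.b (T.a (T.b (T.l 1) (T.c (T.c (T.l 460) (T.l 460)) (T.l 460))) (T.l 1)) (T.c (T.c (T.l 460) (T.l 460)) (T.l 460)))))), by decide +kernel⟩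

def B102E_010_2_43_1 :
    ∃ t, chk3 (onCell 0 67108864 0 1073741824 134217728 67108864 (corT true 1 c0F cB102E gF0q1 gF1q2 gF0q0 gF1q0 true true)) t 2 43 1 = true :=
  ⟨(T.b (T.c (T.a (T.l 204) (T.c (T.l 460) (T.l 204))) (T.c (T.l 460) (T.l 204))) (T.l 204)), by decide +kernel⟩

def B102E_010_3_42_1 :
    ∃ t, chk3 (onCell 0 67108864 0 1073741824 134217728 67108864 (corT true 1 c0F cB102E gF0q1 gF1q2 gF0q0 gF1q0 true true)) t 3 42 1 = true :=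
  ⟨(T.a (T.a (T.b (T.l 1) (T.a (T.b (T.l 1) (T.a (T.b (T.l 1) (T.a (T.b (T.l 1) (T.a (T.b (T.l 1) (T.b (T.l 1) (T.c (T.c (T.l 460) (T.l 204)) (T.l 460)))) (T.l 1))) (T.l 1))) (T.l 1))) (T.l 1))) (T.l 1)) (T.l 1)), by decide +kernel⟩

def B102E_010_6_43_1 :
    ∃ t, chk3 (onCell 0 67108864 0 1073741824 134217728 67108864 (corT true 1 c0F cB102E gF0q1 gF1q2 gF0q0 gF1q0 true true)) t 6 43 1 = true :=
  ⟨(T.a (T.b (T.c (T.b (T.b (T.c (T.b (T.a (T.c (T.l 476) (T.l 476)) (T.b (T.l 1) (T.a (T.l 476) (T.a (T.c (T.l 476) (T.l 476)) (T.l 1))))) (T.l 476)) (T.a (T.l 476) (T.b (T.b (T.l 1) (T.a (T.l 220) (T.b (T.l 1) (T.l 220)))) (T.l 220)))) (T.l 204)) (T.l 204)) (T.b (T.b (T.c (T.a (T.l 204) (T.b (T.b (T.l 1) (T.c (T.l 220) (T.l 220))) (T.l 204))) (T.a (T.l 204) (T.b (T.b (T.l 1) (T.l 220)) (T.l 204)))) (T.l 204)) (T.l 204))) (T.l 204)) (T.b (T.c (T.b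 (T.b (T.a (T.b (T.l 1) (T.c (T.b (T.a (T.b (T.l 1) (T.c (T.l 220) (T.l 220))) (T.l 1)) (T.a (T.l 220) (T.c (T.c (T.c (T.a (T.l 220) (T.c (T.l 220) (T.l 220))) (T.l 220)) (T.l 220)) (T.c (T.l 220) (T.l 220))))) (T.b (T.a (T.b (T.l 1) (T.l 220)) (T.l 1)) (T.c (T.l 220) (T.l 220))))) (T.l 1)) (T.c (T.a (T.l 220) (T.b (T.a (T.c (T.c (T.l 220) (T.l 220)) (T.l 220)) (T.b (T.a (T.b (T.l 1) (T.c (T.l 220) (T.l 220))) (T.l 1)) (T.c (T.l 220) (T.l 220)))) (T.l 220))) (T.a (T.l 204) (T.b (T.a (T.c (T.l 220) (T.l 220)) (T.b (T.b (T.l 1) (T.a (T.c (T.l 220) (T.l 220)) (T.l 1))) (T.c (T.l 220) (T.l 220)))) (T.l 204))))) (T.l 220)) (T.b (T.b (T.a (T.b (T.l 1) (T.c (T.b (T.a (T.c (T.l 220) (T.l 220)) (T.l 1)) (T.l 220)) (T.a (T.l 220) (T.b (T.l 1) (T.l 220))))) (T.l 1)) (T.a (T.l 220) (T.b (T.c (T.a (T.l 220) (T.b (T.b (T.l 1) (T.c (T.l 220) (T.l 220)))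 (T.l 220))) (T.a (T.l 220) (T.b (T.b (T.l 1) (T.l 220)) (T.l 220)))) (T.l 220)))) (T.l 204))) (T.l 204))), by decide +kernel⟩

def B102E_010_7_172_1 :
    ∃ t, chk3 (onCell 0 67108864 0 1073741824 134217728 67108864 (corT true 1 c0F cB102E gF0q1 gF1q2 gF0q0 gF1q0 true true)) t 7 172 1 = true :=
  ⟨(T.a (T.b (T.l 1) (T.b (T.a (T.a (T.b (T.l 1) (T.b (T.a (T.a (T.a (T.b (T.l 1) (T.b (T.l 1) (T.b (T.l 1) (T.c (T.c (T.l 220) (T.l 220)) (T.c (T.l 204) (T.l 204)))))) (T.l 1)) (T.l 1)) (T.l 1)) (T.c (T.c (T.c (T.l 220) (T.l 220)) (T.l 220)) (T.c (T.l 220) (T.l 220))))) (T.l 1)) (T.l 1)) (T.c (T.a (T.c (T.c (T.l 476) (T.l 476)) (T.c (T.l 476) (T.l 476))) (T.b (T.a (T.a (T.a (T.c (T.c (T.l 476) (T.l 476)) (T.l 476)) (T.l 1)) (T.l 1)) (T.l 1)) (T.c (T.a (T.l 476) (T.b (T.l 1) (T.c (T.l 476) (T.l 476)))) (T.a (T.l 476) (T.b (T.l 1) (T.l 476)))))) (T.a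 (T.c (T.l 476) (T.l 220)) (T.b (T.a (T.c (T.c (T.l 476) (T.l 476)) (T.l 476)) (T.l 1)) (T.c (T.c (T.l 476) (T.l 476)) (T.l 476))))))) (T.l 1)), by decide +kernel⟩

def B102E_010_7_173_1 :
    ∃ t, chk3 (onCell 0 67108864 0 1073741824 134217728 67108864 (corT true 1 c0F cB102E gF0q1 gF1q2 gF0q0 gF1q0 true true)) t 7 173 1 = true :=
  ⟨(T.c (T.a (T.a (T.l 476) (T.c (T.c (T.l 476) (T.l 460)) (T.l 476))) (T.b (T.b (T.a (T.c (T.b (T.a (T.c (T.a (T.l 476) (T.b (T.l 1) (T.l 476))) (T.c (T.a (T.l 460) (T.l 476)) (T.l 476))) (T.l 1)) (T.a (T.l 460) (T.c (T.c (T.a (T.l 460) (T.l 476)) (T.l 476)) (T.c (T.l 476) (T.l 460))))) (T.a (T.c (T.l 476) (T.l 476)) (T.b (T.l 1) (T.c (T.l 460) (T.l 460))))) (T.a (T.a (T.b (T.l 1) (T.b (T.l 1) (T.b (T.l 1) (T.c (T.c (T.l 460) (T.l 460)) (T.l 460))))) (T.l 1)) (T.l 1))) (T.c (T.a (T.l 460) (T.a (T.c (T.l 460) (T.l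 460)) (T.b (T.b (T.l 1) (T.a (T.c (T.l 460) (T.l 460)) (T.a (T.c (T.c (T.l 460) (T.l 460)) (T.l 460)) (T.l 1)))) (T.c (T.l 460) (T.l 460))))) (T.a (T.l 460) (T.a (T.c (T.l 460) (T.l 460)) (T.b (T.b (T.l 1) (T.c (T.c (T.a (T.l 460) (T.l 460)) (T.l 460)) (T.l 460))) (T.l 460)))))) (T.c (T.a (T.l 204) (T.l 460)) (T.l 460)))) (T.a (T.c (T.a (T.l 204) (T.l 460)) (T.l 476)) (T.b (T.a (T.c (T.a (T.l 476) (T.b (T.b (T.l 1) (T.l 460)) (T.l 204))) (T.a (T.l 460) (T.a (T.l 476) (T.c (T.b (T.b (T.l 1) (T.l 460)) (T.l 204)) (T.l 476))))) (T.b (T.a (T.a (T.b (T.l 1) (T.c (T.c (T.l 476) (T.l 460)) (T.l 460))) (T.l 1)) (T.l 1)) (T.c (T.a (T.l 460) (T.b (T.b (T.l 1) (T.c (T.l 460) (T.l 460))) (T.l 460))) (T.c (T.a (T.l 460) (T.l 460)) (T.l 460))))) (T.c (T.l 460) (T.l 460))))), by decide +kernel⟩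

def B102E_010_7_87_1 :
    ∃ t, chk3 (onCell 0 67108864 0 1073741824 134217728 67108864 (corT true 1 c0F cB102E gF0q1 gF1q2 gF0q0 gF1q0 true true)) t 7 87 1 = true :=
  ⟨(T.c (T.a (T.l 204) (T.l 204)) (T.a (T.l 204) (T.l 204))), by decide +kernel⟩

def B102E_010_1_11_1 :
    ∃ t, chk3 (onCell 0 67108864 0 1073741824 134217728 67108864 (corT true 1 c0F cB102E gF0q1 gF1q2 gF0q0 gF1q0 true true)) t 1 11 1 = true :=
  ⟨(T.a (T.l 0) (T.a (T.l 0) (T.b (T.b (T.l 204) (T.l 0)) (T.l 0)))), by decide +kernel⟩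

def B102E_010_1_3_1 :
    ∃ t, chk3 (onCell 0 67108864 0 1073741824 134217728 67108864 (corT true 1 c0F cB102E gF0q1 gF1q2 gF0q0 gF1q0 true true)) t 1 3 1 = true :=
  ⟨(T.a (T.l 0) (T.b (T.b (T.b (T.l 0) (T.l 0)) (T.l 0)) (T.l 2))), by decide +kernel⟩

theorem B102E_010_7_86_1 :
    ∃ t, chk3 (onCell 0 67108864 0 1073741824 134217728 67108864 (corT true 1 c0F cB102E gF0q1 gF1q2 gF0q0 gF1q0 true true)) t 7 86 1 = true :=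
  ex3_b B102E_010_7_172_1 B102E_010_7_173_1
theorem B102E_010_7_43_1 :
    ∃ t, chk3 (onCell 0 67108864 0 1073741824 134217728 67108864 (corT true 1 c0F cB102E gF0q1 gF1q2 gF0q0 gF1q0 true true)) t 7 43 1 = true :=
  ex3_b B102E_010_7_86_1 B102E_010_7_87_1
theorem B102E_010_3_43_1 :
    ∃ t, chk3 (onCell 0 67108864 0 1073741824 134217728 67108864 (corT true 1 c0F cB102E gF0q1 gF1q2 gF0q0 gF1q0 true true)) t 3 43 1 = true :=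
  ex3_a B102E_010_6_43_1 B102E_010_7_43_1
theorem B102E_010_3_21_1 :
    ∃ t, chk3 (onCell 0 67108864 0 1073741824 134217728 67108864 (corT true 1 c0F cB102E gF0q1 gF1q2 gF0q0 gF1q0 true true)) t 3 21 1 = true :=
  ex3_b B102E_010_3_42_1 B102E_010_3_43_1
theorem B102E_010_2_171_2 :
    ∃ t, chk3 (onCell 0 67108864 0 1073741824 134217728 67108864 (corT true 1 c0F cB102E gF0q1 gF1q2 gF0q0 gF1q0 true true)) t 2 171 2 = true :=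
  ex3_a B102E_010_4_171_2 B102E_010_5_171_2
theorem B102E_010_2_171_1 :
    ∃ t, chk3 (onCell 0 67108864 0 1073741824 134217728 67108864 (corT true 1 c0F cB102E gF0q1 gF1q2 gF0q0 gF1q0 true true)) t 2 171 1 = true :=
  ex3_c B102E_010_2_171_2 B102E_010_2_171_3
theorem B102E_010_8_683_2 :
    ∃ t, chk3 (onCell 0 67108864 0 1073741824 134217728 67108864 (corT true 1 c0F cB102E gF0q1 gF1q2 gF0q0 gF1q0 true true)) t 8 683 2 = true :=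
  ex3_c B102E_010_8_683_4 B102E_010_8_683_5
theorem B102E_010_8_683_1 :
    ∃ t, chk3 (onCell 0 67108864 0 1073741824 134217728 67108864 (corT true 1 c0F cB102E gF0q1 gF1q2 gF0q0 gF1q0 true true)) t 8 683 1 = true :=
  ex3_c B102E_010_8_683_2 B102E_010_8_683_3
theorem B102E_010_32_1365_1 :
    ∃ t, chk3 (onCell 0 67108864 0 1073741824 134217728 67108864 (corT true 1 c0F cB102E gF0q1 gF1q2 gF0q0 gF1q0 true true)) t 32 1365 1 = true :=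
  ex3_b B102E_010_32_2730_1 B102E_010_32_2731_1
theorem B102E_010_16_1365_1 :
    ∃ t, chk3 (onCell 0 67108864 0 1073741824 134217728 67108864 (corT true 1 c0F cB102E gF0q1 gF1q2 gF0q0 gF1q0 true true)) t 16 1365 1 = true :=
  ex3_a B102E_010_32_1365_1 B102E_010_33_1365_1
theorem B102E_010_16_682_1 :
    ∃ t, chk3 (onCell 0 67108864 0 1073741824 134217728 67108864 (corT true 1 c0F cB102E gF0q1 gF1q2 gF0q0 gF1q0 true true)) t 16 682 1 = true :=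
  ex3_b B102E_010_16_1364_1 B102E_010_16_1365_1
theorem B102E_010_8_682_1 :
    ∃ t, chk3 (onCell 0 67108864 0 1073741824 134217728 67108864 (corT true 1 c0F cB102E gF0q1 gF1q2 gF0q0 gF1q0 true true)) t 8 682 1 = true :=
  ex3_a B102E_010_16_682_1 B102E_010_17_682_1
theorem B102E_010_8_341_1 :
    ∃ t, chk3 (onCell 0 67108864 0 1073741824 134217728 67108864 (corT true 1 c0F cB102E gF0q1 gF1q2 gF0q0 gF1q0 true true)) t 8 341 1 = true :=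
  ex3_b B102E_010_8_682_1 B102E_010_8_683_1
theorem B102E_010_4_341_1 :
    ∃ t, chk3 (onCell 0 67108864 0 1073741824 134217728 67108864 (corT true 1 c0F cB102E gF0q1 gF1q2 gF0q0 gF1q0 true true)) t 4 341 1 = true :=
  ex3_a B102E_010_8_341_1 B102E_010_9_341_1
theorem B102E_010_4_170_1 :
    ∃ t, chk3 (onCell 0 67108864 0 1073741824 134217728 67108864 (corT true 1 c0F cB102E gF0q1 gF1q2 gF0q0 gF1q0 true true)) t 4 170 1 = true :=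
  ex3_b B102E_010_4_340_1 B102E_010_4_341_1
theorem B102E_010_2_170_1 :
    ∃ t, chk3 (onCell 0 67108864 0 1073741824 134217728 67108864 (corT true 1 c0F cB102E gF0q1 gF1q2 gF0q0 gF1q0 true true)) t 2 170 1 = true :=
  ex3_a B102E_010_4_170_1 B102E_010_5_170_1
theorem B102E_010_2_85_1 :
    ∃ t, chk3 (onCell 0 67108864 0 1073741824 134217728 67108864 (corT true 1 c0F cB102E gF0q1 gF1q2 gF0q0 gF1q0 true true)) t 2 85 1 = true :=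
  ex3_b B102E_010_2_170_1 B102E_010_2_171_1
theorem B102E_010_2_42_1 :
    ∃ t, chk3 (onCell 0 67108864 0 1073741824 134217728 67108864 (corT true 1 c0F cB102E gF0q1 gF1q2 gF0q0 gF1q0 true true)) t 2 42 1 = true :=
  ex3_b B102E_010_2_84_1 B102E_010_2_85_1
theorem B102E_010_2_21_1 :
    ∃ t, chk3 (onCell 0 67108864 0 1073741824 134217728 67108864 (corT true 1 c0F cB102E gF0q1 gF1q2 gF0q0 gF1q0 true true)) t 2 21 1 = true :=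
  ex3_b B102E_010_2_42_1 B102E_010_2_43_1
theorem B102E_010_1_21_1 :
    ∃ t, chk3 (onCell 0 67108864 0 1073741824 134217728 67108864 (corT true 1 c0F cB102E gF0q1 gF1q2 gF0q0 gF1q0 true true)) t 1 21 1 = true :=
  ex3_a B102E_010_2_21_1 B102E_010_3_21_1
theorem B102E_010_1_10_1 :
    ∃ t, chk3 (onCell 0 67108864 0 1073741824 134217728 67108864 (corT true 1 c0F cB102E gF0q1 gF1q2 gF0q0 gF1q0 true true)) t 1 10 1 = true :=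
  ex3_b B102E_010_1_20_1 B102E_010_1_21_1
theorem B102E_010_1_5_1 :
    ∃ t, chk3 (onCell 0 67108864 0 1073741824 134217728 67108864 (corT true 1 c0F cB102E gF0q1 gF1q2 gF0q0 gF1q0 true true)) t 1 5 1 = true :=
  ex3_b B102E_010_1_10_1 B102E_010_1_11_1
theorem B102E_010_1_2_1 :
    ∃ t, chk3 (onCell 0 67108864 0 1073741824 134217728 67108864 (corT true 1 c0F cB102E gF0q1 gF1q2 gF0q0 gF1q0 true true)) t 1 2 1 = true :=
  ex3_b B102E_010_1_4_1 B102E_010_1_5_1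
theorem B102E_010 :
    ∃ t, chk3 (onCell 0 67108864 0 1073741824 134217728 67108864 (corT true 1 c0F cB102E gF0q1 gF1q2 gF0q0 gF1q0 true true)) t 1 1 1 = true :=
  ex3_b B102E_010_1_2_1 B102E_010_1_3_1

def B102E_011 :
    ∃ t, chk3 (onCell 0 67108864 0 1073741824 134217728 67108864 (corT true 1 c0F cB102E gF0q1 gF1q2 gF1q0 gF2q0 true true)) t 1 1 1 = true :=
  ⟨(T.b (T.l 1) (T.b (T.b (T.l 1) (T.a (T.l 0) (T.l 0))) (T.a (T.l 816) (T.b (T.l 0) (T.l 816))))), by decide +kernel⟩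

def B102E_012 :
    ∃ t, chk3 (onCell 0 67108864 0 1073741824 134217728 67108864 (corT true 1 c0F cB102E gF0q1 gF1q2 gF2q0 gF3q0 true false)) t 1 1 1 = true :=
  ⟨(T.b (T.l 1) (T.b (T.l 1) (T.a (T.l 816) (T.b (T.l 1) (T.l 0))))), by decide +kernel⟩

end Pool.Agent.Strip051.G.I1_8_3_16.Tab.CF
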