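import Pool.Agent.Strip051.G.I1_8_3_16.CrnB
import Pool.Agent.Strip051.G.I1_8_3_16.CF_3
import Pool.Agent.Strip051.G.I1_8_3_16.CF_4
import Pool.Agent.Strip051.G.I1_8_3_16.CF_5

/-! # Aligned corners: the alternatives (generated) -/

set_option linter.all false

namespace Pool.Agent.Strip051.G.I1_8_3_16.Tab

open Pool.Agent.Strip051.PB Pool.Agent.StripNear Pool.Agent.Strip051.LC

theorem altF_B012E_11 {κ x : ℝ} (hκ : κ * h0 = ken x) (hx : ((134217728 : ℕ) : ℝ) / S ≤ x) (hx' : x ≤ (((134217728 : ℕ) : ℝ) + (67108864 : ℕ)) / S) :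
    AltB (VF κ) PP tKF tL pcF [⟨0, 0, 0, 67108864⟩, ⟨1, 1, 0, 67108864⟩, ⟨2, 1, 0, 67108864⟩] 0 1 2 1 1 (sgb true) (sgb true) x := by
  have X : XR 67108864 x := XR.of hx hx' (by norm_num) (by norm_num) (by norm_num) (by norm_num)
  refine (cornS_of (C := cB012E) (C0 := c0F) (j := (1 : Fin 6)) (k := (1 : Fin 6)) (lo := 0) (hi := 0) (W := 67108864) (N0 := 1) cB012E_q (sideF hx hx') gokF X (by norm_num) (by norm_num) (l := (0 : Fin 6)) rfl
    (gatF10 x) (gatF12 x) (gatF01 x) ?_).altFB rfl hκ le_rfl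
  intro ρ a B hρ hd i h1 h2
  fin_cases i
  · exact corT_cert (G1 := gF1q0) (G2 := gF1q2) (Ga := gF0q1) (Gb := gF1q1) cB012E_ok B hρ (gatF10 x) (gatF12 x) (fun _ => gatF01 x) (fun h => absurd h (by decide)) hd hx hx' CF.B012E_110
  · exact absurd h2 (by norm_num)
  · exact absurd h2 (by norm_num)
  · exact absurd h2 (by norm_num)
  · exact absurd h2 (by norm_num)

theorem altF_B012E_12 {κ x : ℝ} (hκ : κ * h0 = ken x) (hx : ((134217728 : ℕ) : ℝ) / S ≤ x) (hx' : x ≤ (((134217728 : ℕ) : ℝ) + (67108864 : ℕ)) / S) :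
    AltB (VF κ) PP tKF tL pcF [⟨0, 0, 0, 67108864⟩, ⟨1, 1, 0, 67108864⟩, ⟨2, 1, 0, 67108864⟩] 0 1 2 1 2 (sgb true) (sgb true) x := by
  have X : XR 67108864 x := XR.of hx hx' (by norm_num) (by norm_num) (by norm_num) (by norm_num)
  refine (cornS_of (C := cB012E) (C0 := c0F) (j := (1 : Fin 6)) (k := (2 : Fin 6)) (lo := 0) (hi := 0) (W := 67108864) (N0 := 1) cB012E_q (sideF hx hx') gokF X (by norm_num) (by norm_num) (l := (0 : Fin 6)) rfl
    (gatF10 x) (gatF22 x) (gatF01 x) ?_).altFB rfl hκ le_rfl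
  intro ρ a B hρ hd i h1 h2
  fin_cases i
  · exact corT_cert (G1 := gF1q0) (G2 := gF2q2) (Ga := gF0q1) (Gb := gF1q1) cB012E_ok B hρ (gatF10 x) (gatF22 x) (fun _ => gatF01 x) (fun h => absurd h (by decide)) hd hx hx' CF.B012E_120
  · exact absurd h2 (by norm_num)
  · exact absurd h2 (by norm_num)
  · exact absurd h2 (by norm_num)
  · exact absurd h2 (by norm_num)

theorem altF_B012E_20 {κ x : ℝ} (hκ : κ * h0 = ken x) (hx : ((134217728 : ℕ) : ℝ) / S ≤ x) (hx' : x ≤ (((134217728 : ℕ) : ℝ) + (67108864 : ℕ)) / S) :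
    AltB (VF κ) PP tKF tL pcF [⟨0, 0, 0, 67108864⟩, ⟨1, 1, 0, 67108864⟩, ⟨2, 1, 0, 67108864⟩] 0 1 2 2 0 (sgb true) (sgb true) x := by
  have X : XR 67108864 x := XR.of hx hx' (by norm_num) (by norm_num) (by norm_num) (by norm_num)
  refine (cornS_of (C := cB012E) (C0 := c0F) (j := (2 : Fin 6)) (k := (0 : Fin 6)) (lo := 0) (hi := 0) (W := 67108864) (N0 := 1) cB012E_q (sideF hx hx') gokF X (by norm_num) (by norm_num) (l := (0 : Fin 6)) rfl
    (gatF20 x) (gatF02 x) (gatF01 x) ?_).altFB rfl hκ le_rfl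
  intro ρ a B hρ hd i h1 h2
  fin_cases i
  · exact corT_cert (G1 := gF2q0) (G2 := gF0q2) (Ga := gF0q1) (Gb := gF1q1) cB012E_ok B hρ (gatF20 x) (gatF02 x) (fun _ => gatF01 x) (fun h => absurd h (by decide)) hd hx hx' CF.B012E_200
  · exact absurd h2 (by norm_num)
  · exact absurd h2 (by norm_num)
  · exact absurd h2 (by norm_num)
  · exact absurd h2 (by norm_num)

theorem altF_B012E_21 {κ x : ℝ} (hκ : κ * h0 = ken x) (hx : ((134217728 : ℕ) : ℝ) / S ≤ x) (hx' : x ≤ (((134217728 : ℕ) : ℝ) + (67108864 : ℕ)) / S) :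
    AltB (VF κ) PP tKF tL pcF [⟨0, 0, 0, 67108864⟩, ⟨1, 1, 0, 67108864⟩, ⟨2, 1, 0, 67108864⟩] 0 1 2 2 1 (sgb true) (sgb true) x := by
  have X : XR 67108864 x := XR.of hx hx' (by norm_num) (by norm_num) (by norm_num) (by norm_num)
  refine (cornS_of (C := cB012E) (C0 := c0F) (j := (2 : Fin 6)) (k := (1 : Fin 6)) (lo := 0) (hi := 0) (W := 67108864) (N0 := 1) cB012E_q (sideF hx hx') gokF X (by norm_num) (by norm_num) (l := (0 : Fin 6)) rfl
    (gatF20 x) (gatF12 x) (gatF01 x) ?_).altFB rfl hκ le_rfl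
  intro ρ a B hρ hd i h1 h2
  fin_cases i
  · exact corT_cert (G1 := gF2q0) (G2 := gF1q2) (Ga := gF0q1) (Gb := gF1q1) cB012E_ok B hρ (gatF20 x) (gatF12 x) (fun _ => gatF01 x) (fun h => absurd h (by decide)) hd hx hx' CF.B012E_210
  · exact absurd h2 (by norm_num)
  · exact absurd h2 (by norm_num)
  · exact absurd h2 (by norm_num)
  · exact absurd h2 (by norm_num)

theorem altF_B012E_22 {κ x : ℝ} (hκ : κ * h0 = ken x) (hx : ((134217728 : ℕ) : ℝ) / S ≤ x) (hx' : x ≤ (((134217728 : ℕ) : ℝ) + (67108864 : ℕ)) / S) :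
    AltB (VF κ) PP tKF tL pcF [⟨0, 0, 0, 67108864⟩, ⟨1, 1, 0, 67108864⟩, ⟨2, 1, 0, 67108864⟩] 0 1 2 2 2 (sgb true) (sgb true) x := by
  have X : XR 67108864 x := XR.of hx hx' (by norm_num) (by norm_num) (by norm_num) (by norm_num)
  refine (cornS_of (C := cB012E) (C0 := c0F) (j := (2 : Fin 6)) (k := (2 : Fin 6)) (lo := 0) (hi := 0) (W := 67108864) (N0 := 1) cB012E_q (sideF hx hx') gokF X (by norm_num) (by norm_num) (l := (0 : Fin 6)) rfl
    (gatF20 x) (gatF22 x) (gatF01 x) ?_).altFB rfl hκ le_rfl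
  intro ρ a B hρ hd i h1 h2
  fin_cases i
  · exact corT_cert (G1 := gF2q0) (G2 := gF2q2) (Ga := gF0q1) (Gb := gF1q1) cB012E_ok B hρ (gatF20 x) (gatF22 x) (fun _ => gatF01 x) (fun h => absurd h (by decide)) hd hx hx' CF.B012E_220
  · exact absurd h2 (by norm_num)
  · exact absurd h2 (by norm_num)
  · exact absurd h2 (by norm_num)
  · exact absurd h2 (by norm_num)

theorem altF_B012L_05 {κ x : ℝ} (hκ : κ * h0 = ken x) (hx : ((134217728 : ℕ) : ℝ) / S ≤ x) (hx' : x ≤ (((134217728 : ℕ) : ℝ) + (67108864 : ℕ)) / S) :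
    AltB (VF κ) PP tKF tL pcF [⟨0, 0, 0, 67108864⟩, ⟨1, 1, 0, 67108864⟩, ⟨2, 1, 0, 67108864⟩] 0 1 2 0 5 (sgb true) (sgb true) x := by
  have X : XR 67108864 x := XR.of hx hx' (by norm_num) (by norm_num) (by norm_num) (by norm_num)
  refine (cornS_of (C := cB012L) (C0 := c0F) (j := (0 : Fin 6)) (k := (5 : Fin 6)) (lo := 0) (hi := 0) (W := 67108864) (N0 := 1) cB012L_q (sideF hx hx') gokF X (by norm_num) (by norm_num) (l := (0 : Fin 6)) rfl
    (gatF00 x) (gatF52 x) (gatF01 x) ?_).altFB rfl hκ le_rfl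
  intro ρ a B hρ hd i h1 h2
  fin_cases i
  · exact corT_cert (G1 := gF0q0) (G2 := gF5q2) (Ga := gF0q1) (Gb := gF1q1) cB012L_ok B hρ (gatF00 x) (gatF52 x) (fun _ => gatF01 x) (fun h => absurd h (by decide)) hd hx hx' CF.B012L_050
  · exact absurd h2 (by norm_num)
  · exact absurd h2 (by norm_num)
  · exact absurd h2 (by norm_num)
  · exact absurd h2 (by norm_num)

theorem altF_B012L_15 {κ x : ℝ} (hκ : κ * h0 = ken x) (hx : ((134217728 : ℕ) : ℝ) / S ≤ x) (hx' : x ≤ (((134217728 : ℕ) : ℝ) + (67108864 : ℕ)) / S) :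
    AltB (VF κ) PP tKF tL pcF [⟨0, 0, 0, 67108864⟩, ⟨1, 1, 0, 67108864⟩, ⟨2, 1, 0, 67108864⟩] 0 1 2 1 5 (sgb true) (sgb true) x := by
  have X : XR 67108864 x := XR.of hx hx' (by norm_num) (by norm_num) (by norm_num) (by norm_num)
  refine (cornS_of (C := cB012L) (C0 := c0F) (j := (1 : Fin 6)) (k := (5 : Fin 6)) (lo := 0) (hi := 0) (W := 67108864) (N0 := 1) cB012L_q (sideF hx hx') gokF X (by norm_num) (by norm_num) (l := (0 : Fin 6)) rfl
    (gatF10 x) (gatF52 x) (gatF01 x) ?_).altFB rfl hκ le_rfl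
  intro ρ a B hρ hd i h1 h2
  fin_cases i
  · exact corT_cert (G1 := gF1q0) (G2 := gF5q2) (Ga := gF0q1) (Gb := gF1q1) cB012L_ok B hρ (gatF10 x) (gatF52 x) (fun _ => gatF01 x) (fun h => absurd h (by decide)) hd hx hx' CF.B012L_150
  · exact absurd h2 (by norm_num)
  · exact absurd h2 (by norm_num)
  · exact absurd h2 (by norm_num)
  · exact absurd h2 (by norm_num)

theorem altF_B012L_25 {κ x : ℝ} (hκ : κ * h0 = ken x) (hx : ((134217728 : ℕ) : ℝ) / S ≤ x) (hx' : x ≤ (((134217728 : ℕ) : ℝ) + (67108864 : ℕ)) / S) :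
    AltB (VF κ) PP tKF tL pcF [⟨0, 0, 0, 67108864⟩, ⟨1, 1, 0, 67108864⟩, ⟨2, 1, 0, 67108864⟩] 0 1 2 2 5 (sgb true) (sgb true) x := by
  have X : XR 67108864 x := XR.of hx hx' (by norm_num) (by norm_num) (by norm_num) (by norm_num)
  refine (cornS_of (C := cB012L) (C0 := c0F) (j := (2 : Fin 6)) (k := (5 : Fin 6)) (lo := 0) (hi := 0) (W := 67108864) (N0 := 1) cB012L_q (sideF hx hx') gokF X (by norm_num) (by norm_num) (l := (0 : Fin 6)) rfl
    (gatF20 x) (gatF52 x) (gatF01 x) ?_).altFB rfl hκ le_rfl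
  intro ρ a B hρ hd i h1 h2
  fin_cases i
  · exact corT_cert (G1 := gF2q0) (G2 := gF5q2) (Ga := gF0q1) (Gb := gF1q1) cB012L_ok B hρ (gatF20 x) (gatF52 x) (fun _ => gatF01 x) (fun h => absurd h (by decide)) hd hx hx' CF.B012L_250
  · exact absurd h2 (by norm_num)
  · exact absurd h2 (by norm_num)
  · exact absurd h2 (by norm_num)
  · exact absurd h2 (by norm_num)

theorem altF_B012R_00 {κ x : ℝ} (hκ : κ * h0 = ken x) (hx : ((134217728 : ℕ) : ℝ) / S ≤ x) (hx' : x ≤ (((134217728 : ℕ) : ℝ) + (67108864 : ℕ)) / S) :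
    AltB (VF κ) PP tKF tL pcF [⟨0, 0, 0, 53687091⟩, ⟨1, 1, 0, 53687091⟩, ⟨2, 1, 0, 53687091⟩] 0 1 2 0 0 (sgb true) (sgb false) x := by
  have X : XR 53687091 x := XR.of hx hx' (by norm_num) (by norm_num) (by norm_num) (by norm_num)
  refine (cornS_of (C := cB012R) (C0 := c0F) (j := (0 : Fin 6)) (k := (0 : Fin 6)) (lo := 3) (hi := 5) (W := 53687091) (N0 := 1) cB012R_q (sideF hx hx') gokF X (by norm_num) (by norm_num) (l := (3 : Fin 6)) rfl
    (gatF00 x) (gatF02 x) (gatF31 x) ?_).altFB rfl hκ le_rfl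
  intro ρ a B hρ hd i h1 h2
  fin_cases i
  · exact absurd h1 (by norm_num)
  · exact absurd h1 (by norm_num)
  · exact corT_cert (G1 := gF0q0) (G2 := gF0q2) (Ga := gF2q1) (Gb := gF3q1) cB012R_ok B hρ (gatF00 x) (gatF02 x) (fun h => absurd h (by decide)) (fun _ => gatF31 x) hd hx hx' CF.B012R_002
  · exact corT_cert (G1 := gF0q0) (G2 := gF0q2) (Ga := gF3q1) (Gb := gF4q1) cB012R_ok B hρ (gatF00 x) (gatF02 x) (fun _ => gatF31 x) (fun _ => gatF41 x) hd hx hx' CF.B012R_003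
  · exact corT_cert (G1 := gF0q0) (G2 := gF0q2) (Ga := gF4q1) (Gb := gF5q1) cB012R_ok B hρ (gatF00 x) (gatF02 x) (fun _ => gatF41 x) (fun _ => gatF51 x) hd hx hx' CF.B012R_004

theorem altF_B012R_01 {κ x : ℝ} (hκ : κ * h0 = ken x) (hx : ((134217728 : ℕ) : ℝ) / S ≤ x) (hx' : x ≤ (((134217728 : ℕ) : ℝ) + (67108864 : ℕ)) / S) :
    AltB (VF κ) PP tKF tL pcF [⟨0, 0, 0, 67108864⟩, ⟨1, 1, 0, 67108864⟩, ⟨2, 1, 0, 67108864⟩] 0 1 2 0 1 (sgb true) (sgb false) x := by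
  have X : XR 67108864 x := XR.of hx hx' (by norm_num) (by norm_num) (by norm_num) (by norm_num)
  refine (cornS_of (C := cB012R) (C0 := c0F) (j := (0 : Fin 6)) (k := (1 : Fin 6)) (lo := 3) (hi := 5) (W := 67108864) (N0 := 1) cB012R_q (sideF hx hx') gokF X (by norm_num) (by norm_num) (l := (3 : Fin 6)) rfl
    (gatF00 x) (gatF12 x) (gatF31 x) ?_).altFB rfl hκ le_rfl
  intro ρ a B hρ hd i h1 h2
  fin_cases i
  · exact absurd h1 (by norm_num)
  · exact absurd h1 (by norm_num)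
  · exact corT_cert (G1 := gF0q0) (G2 := gF1q2) (Ga := gF2q1) (Gb := gF3q1) cB012R_ok B hρ (gatF00 x) (gatF12 x) (fun h => absurd h (by decide)) (fun _ => gatF31 x) hd hx hx' CF.B012R_012
  · exact corT_cert (G1 := gF0q0) (G2 := gF1q2) (Ga := gF3q1) (Gb := gF4q1) cB012R_ok B hρ (gatF00 x) (gatF12 x) (fun _ => gatF31 x) (fun _ => gatF41 x) hd hx hx' CF.B012R_013
  · exact corT_cert (G1 := gF0q0) (G2 := gF1q2) (Ga := gF4q1) (Gb := gF5q1) cB012R_ok B hρ (gatF00 x) (gatF12 x) (fun _ => gatF41 x) (fun _ => gatF51 x) hd hx hx' CF.B012R_014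

theorem altF_B012R_02 {κ x : ℝ} (hκ : κ * h0 = ken x) (hx : ((134217728 : ℕ) : ℝ) / S ≤ x) (hx' : x ≤ (((134217728 : ℕ) : ℝ) + (67108864 : ℕ)) / S) :
    AltB (VF κ) PP tKF tL pcF [⟨0, 0, 0, 67108864⟩, ⟨1, 1, 0, 67108864⟩, ⟨2, 1, 0, 67108864⟩] 0 1 2 0 2 (sgb true) (sgb false) x := by
  have X : XR 67108864 x := XR.of hx hx' (by norm_num) (by norm_num) (by norm_num) (by norm_num)
  refine (cornS_of (C := cB012R) (C0 := c0F) (j := (0 : Fin 6)) (k := (2 : Fin 6)) (lo := 3) (hi := 5) (W := 67108864) (N0 := 1) cB012R_q (sideF hx hx') gokF X (by norm_num) (by norm_num) (l := (3 : Fin 6)) rfl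
    (gatF00 x) (gatF22 x) (gatF31 x) ?_).altFB rfl hκ le_rfl
  intro ρ a B hρ hd i h1 h2
  fin_cases i
  · exact absurd h1 (by norm_num)
  · exact absurd h1 (by norm_num)
  · exact corT_cert (G1 := gF0q0) (G2 := gF2q2) (Ga := gF2q1) (Gb := gF3q1) cB012R_ok B hρ (gatF00 x) (gatF22 x) (fun h => absurd h (by decide)) (fun _ => gatF31 x) hd hx hx' CF.B012R_022
  · exact corT_cert (G1 := gF0q0) (G2 := gF2q2) (Ga := gF3q1) (Gb := gF4q1) cB012R_ok B hρ (gatF00 x) (gatF22 x) (fun _ => gatF31 x) (fun _ => gatF41 x) hd hx hx' CF.B012R_023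
  · exact corT_cert (G1 := gF0q0) (G2 := gF2q2) (Ga := gF4q1) (Gb := gF5q1) cB012R_ok B hρ (gatF00 x) (gatF22 x) (fun _ => gatF41 x) (fun _ => gatF51 x) hd hx hx' CF.B012R_024

theorem altF_B012R_10 {κ x : ℝ} (hκ : κ * h0 = ken x) (hx : ((134217728 : ℕ) : ℝ) / S ≤ x) (hx' : x ≤ (((134217728 : ℕ) : ℝ) + (67108864 : ℕ)) / S) :
    AltB (VF κ) PP tKF tL pcF [⟨0, 0, 0, 67108864⟩, ⟨1, 1, 0, 67108864⟩, ⟨2, 1, 0, 67108864⟩] 0 1 2 1 0 (sgb true) (sgb false) x := by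
  have X : XR 67108864 x := XR.of hx hx' (by norm_num) (by norm_num) (by norm_num) (by norm_num)
  refine (cornS_of (C := cB012R) (C0 := c0F) (j := (1 : Fin 6)) (k := (0 : Fin 6)) (lo := 3) (hi := 5) (W := 67108864) (N0 := 1) cB012R_q (sideF hx hx') gokF X (by norm_num) (by norm_num) (l := (3 : Fin 6)) rfl
    (gatF10 x) (gatF02 x) (gatF31 x) ?_).altFB rfl hκ le_rfl
  intro ρ a B hρ hd i h1 h2
  fin_cases i
  · exact absurd h1 (by norm_num)
  · exact absurd h1 (by norm_num)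
  · exact corT_cert (G1 := gF1q0) (G2 := gF0q2) (Ga := gF2q1) (Gb := gF3q1) cB012R_ok B hρ (gatF10 x) (gatF02 x) (fun h => absurd h (by decide)) (fun _ => gatF31 x) hd hx hx' CF.B012R_102
  · exact corT_cert (G1 := gF1q0) (G2 := gF0q2) (Ga := gF3q1) (Gb := gF4q1) cB012R_ok B hρ (gatF10 x) (gatF02 x) (fun _ => gatF31 x) (fun _ => gatF41 x) hd hx hx' CF.B012R_103
  · exact corT_cert (G1 := gF1q0) (G2 := gF0q2) (Ga := gF4q1) (Gb := gF5q1) cB012R_ok B hρ (gatF10 x) (gatF02 x) (fun _ => gatF41 x) (fun _ => gatF51 x) hd hx hx' CF.B012R_104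

theorem altF_B012R_11 {κ x : ℝ} (hκ : κ * h0 = ken x) (hx : ((134217728 : ℕ) : ℝ) / S ≤ x) (hx' : x ≤ (((134217728 : ℕ) : ℝ) + (67108864 : ℕ)) / S) :
    AltB (VF κ) PP tKF tL pcF [⟨0, 0, 0, 67108864⟩, ⟨1, 1, 0, 67108864⟩, ⟨2, 1, 0, 67108864⟩] 0 1 2 1 1 (sgb true) (sgb false) x := by
  have X : XR 67108864 x := XR.of hx hx' (by norm_num) (by norm_num) (by norm_num) (by norm_num)
  refine (cornS_of (C := cB012R) (C0 := c0F) (j := (1 : Fin 6)) (k := (1 : Fin 6)) (lo := 3) (hi := 5) (W := 67108864) (N0 := 1) cB012R_q (sideF hx hx') gokF X (by norm_num) (by norm_num) (l := (3 : Fin 6)) rfl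
    (gatF10 x) (gatF12 x) (gatF31 x) ?_).altFB rfl hκ le_rfl
  intro ρ a B hρ hd i h1 h2
  fin_cases i
  · exact absurd h1 (by norm_num)
  · exact absurd h1 (by norm_num)
  · exact corT_cert (G1 := gF1q0) (G2 := gF1q2) (Ga := gF2q1) (Gb := gF3q1) cB012R_ok B hρ (gatF10 x) (gatF12 x) (fun h => absurd h (by decide)) (fun _ => gatF31 x) hd hx hx' CF.B012R_112
  · exact corT_cert (G1 := gF1q0) (G2 := gF1q2) (Ga := gF3q1) (Gb := gF4q1) cB012R_ok B hρ (gatF10 x) (gatF12 x) (fun _ => gatF31 x) (fun _ => gatF41 x) hd hx hx' CF.B012R_113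
  · exact corT_cert (G1 := gF1q0) (G2 := gF1q2) (Ga := gF4q1) (Gb := gF5q1) cB012R_ok B hρ (gatF10 x) (gatF12 x) (fun _ => gatF41 x) (fun _ => gatF51 x) hd hx hx' CF.B012R_114

theorem altF_B012R_12 {κ x : ℝ} (hκ : κ * h0 = ken x) (hx : ((134217728 : ℕ) : ℝ) / S ≤ x) (hx' : x ≤ (((134217728 : ℕ) : ℝ) + (67108864 : ℕ)) / S) :
    AltB (VF κ) PP tKF tL pcF [⟨0, 0, 0, 67108864⟩, ⟨1, 1, 0, 67108864⟩, ⟨2, 1, 0, 67108864⟩] 0 1 2 1 2 (sgb true) (sgb false) x := by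
  have X : XR 67108864 x := XR.of hx hx' (by norm_num) (by norm_num) (by norm_num) (by norm_num)
  refine (cornS_of (C := cB012R) (C0 := c0F) (j := (1 : Fin 6)) (k := (2 : Fin 6)) (lo := 3) (hi := 5) (W := 67108864) (N0 := 1) cB012R_q (sideF hx hx') gokF X (by norm_num) (by norm_num) (l := (3 : Fin 6)) rfl
    (gatF10 x) (gatF22 x) (gatF31 x) ?_).altFB rfl hκ le_rfl
  intro ρ a B hρ hd i h1 h2
  fin_cases i
  · exact absurd h1 (by norm_num)
  · exact absurd h1 (by norm_num)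
  · exact corT_cert (G1 := gF1q0) (G2 := gF2q2) (Ga := gF2q1) (Gb := gF3q1) cB012R_ok B hρ (gatF10 x) (gatF22 x) (fun h => absurd h (by decide)) (fun _ => gatF31 x) hd hx hx' CF.B012R_122
  · exact corT_cert (G1 := gF1q0) (G2 := gF2q2) (Ga := gF3q1) (Gb := gF4q1) cB012R_ok B hρ (gatF10 x) (gatF22 x) (fun _ => gatF31 x) (fun _ => gatF41 x) hd hx hx' CF.B012R_123
  · exact corT_cert (G1 := gF1q0) (G2 := gF2q2) (Ga := gF4q1) (Gb := gF5q1) cB012R_ok B hρ (gatF10 x) (gatF22 x) (fun _ => gatF41 x) (fun _ => gatF51 x) hd hx hx' CF.B012R_124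

theorem altF_B012R_20 {κ x : ℝ} (hκ : κ * h0 = ken x) (hx : ((134217728 : ℕ) : ℝ) / S ≤ x) (hx' : x ≤ (((134217728 : ℕ) : ℝ) + (67108864 : ℕ)) / S) :
    AltB (VF κ) PP tKF tL pcF [⟨0, 0, 0, 67108864⟩, ⟨1, 1, 0, 67108864⟩, ⟨2, 1, 0, 67108864⟩] 0 1 2 2 0 (sgb true) (sgb false) x := by
  have X : XR 67108864 x := XR.of hx hx' (by norm_num) (by norm_num) (by norm_num) (by norm_num)
  refine (cornS_of (C := cB012R) (C0 := c0F) (j := (2 : Fin 6)) (k := (0 : Fin 6)) (lo := 3) (hi := 5) (W := 67108864) (N0 := 1) cB012R_q (sideF hx hx') gokF X (by norm_num) (by norm_num) (l := (3 : Fin 6)) rfl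
    (gatF20 x) (gatF02 x) (gatF31 x) ?_).altFB rfl hκ le_rfl
  intro ρ a B hρ hd i h1 h2
  fin_cases i
  · exact absurd h1 (by norm_num)
  · exact absurd h1 (by norm_num)
  · exact corT_cert (G1 := gF2q0) (G2 := gF0q2) (Ga := gF2q1) (Gb := gF3q1) cB012R_ok B hρ (gatF20 x) (gatF02 x) (fun h => absurd h (by decide)) (fun _ => gatF31 x) hd hx hx' CF.B012R_202
  · exact corT_cert (G1 := gF2q0) (G2 := gF0q2) (Ga := gF3q1) (Gb := gF4q1) cB012R_ok B hρ (gatF20 x) (gatF02 x) (fun _ => gatF31 x) (fun _ => gatF41 x) hd hx hx' CF.B012R_203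
  · exact corT_cert (G1 := gF2q0) (G2 := gF0q2) (Ga := gF4q1) (Gb := gF5q1) cB012R_ok B hρ (gatF20 x) (gatF02 x) (fun _ => gatF41 x) (fun _ => gatF51 x) hd hx hx' CF.B012R_204

theorem altF_B012R_21 {κ x : ℝ} (hκ : κ * h0 = ken x) (hx : ((134217728 : ℕ) : ℝ) / S ≤ x) (hx' : x ≤ (((134217728 : ℕ) : ℝ) + (67108864 : ℕ)) / S) :
    AltB (VF κ) PP tKF tL pcF [⟨0, 0, 0, 67108864⟩, ⟨1, 1, 0, 67108864⟩, ⟨2, 1, 0, 67108864⟩] 0 1 2 2 1 (sgb true) (sgb false) x := by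
  have X : XR 67108864 x := XR.of hx hx' (by norm_num) (by norm_num) (by norm_num) (by norm_num)
  refine (cornS_of (C := cB012R) (C0 := c0F) (j := (2 : Fin 6)) (k := (1 : Fin 6)) (lo := 3) (hi := 5) (W := 67108864) (N0 := 1) cB012R_q (sideF hx hx') gokF X (by norm_num) (by norm_num) (l := (3 : Fin 6)) rfl
    (gatF20 x) (gatF12 x) (gatF31 x) ?_).altFB rfl hκ le_rfl
  intro ρ a B hρ hd i h1 h2
  fin_cases i
  · exact absurd h1 (by norm_num)
  · exact absurd h1 (by norm_num)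
  · exact corT_cert (G1 := gF2q0) (G2 := gF1q2) (Ga := gF2q1) (Gb := gF3q1) cB012R_ok B hρ (gatF20 x) (gatF12 x) (fun h => absurd h (by decide)) (fun _ => gatF31 x) hd hx hx' CF.B012R_212
  · exact corT_cert (G1 := gF2q0) (G2 := gF1q2) (Ga := gF3q1) (Gb := gF4q1) cB012R_ok B hρ (gatF20 x) (gatF12 x) (fun _ => gatF31 x) (fun _ => gatF41 x) hd hx hx' CF.B012R_213
  · exact corT_cert (G1 := gF2q0) (G2 := gF1q2) (Ga := gF4q1) (Gb := gF5q1) cB012R_ok B hρ (gatF20 x) (gatF12 x) (fun _ => gatF41 x) (fun _ => gatF51 x) hd hx hx' CF.B012R_214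

theorem altF_B012R_22 {κ x : ℝ} (hκ : κ * h0 = ken x) (hx : ((134217728 : ℕ) : ℝ) / S ≤ x) (hx' : x ≤ (((134217728 : ℕ) : ℝ) + (67108864 : ℕ)) / S) :
    AltB (VF κ) PP tKF tL pcF [⟨0, 0, 0, 67108864⟩, ⟨1, 1, 0, 67108864⟩, ⟨2, 1, 0, 67108864⟩] 0 1 2 2 2 (sgb true) (sgb false) x := by
  have X : XR 67108864 x := XR.of hx hx' (by norm_num) (by norm_num) (by norm_num) (by norm_num)
  refine (cornS_of (C := cB012R) (C0 := c0F) (j := (2 : Fin 6)) (k := (2 : Fin 6)) (lo := 3) (hi := 5) (W := 67108864) (N0 := 1) cB012R_q (sideF hx hx') gokF X (by norm_num) (by norm_num) (l := (3 : Fin 6)) rfl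
    (gatF20 x) (gatF22 x) (gatF31 x) ?_).altFB rfl hκ le_rfl
  intro ρ a B hρ hd i h1 h2
  fin_cases i
  · exact absurd h1 (by norm_num)
  · exact absurd h1 (by norm_num)
  · exact corT_cert (G1 := gF2q0) (G2 := gF2q2) (Ga := gF2q1) (Gb := gF3q1) cB012R_ok B hρ (gatF20 x) (gatF22 x) (fun h => absurd h (by decide)) (fun _ => gatF31 x) hd hx hx' CF.B012R_222
  · exact corT_cert (G1 := gF2q0) (G2 := gF2q2) (Ga := gF3q1) (Gb := gF4q1) cB012R_ok B hρ (gatF20 x) (gatF22 x) (fun _ => gatF31 x) (fun _ => gatF41 x) hd hx hx' CF.B012R_223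
  · exact corT_cert (G1 := gF2q0) (G2 := gF2q2) (Ga := gF4q1) (Gb := gF5q1) cB012R_ok B hρ (gatF20 x) (gatF22 x) (fun _ => gatF41 x) (fun _ => gatF51 x) hd hx hx' CF.B012R_224

theorem altF_B022E_00 {κ x : ℝ} (hκ : κ * h0 = ken x) (hx : ((134217728 : ℕ) : ℝ) / S ≤ x) (hx' : x ≤ (((134217728 : ℕ) : ℝ) + (67108864 : ℕ)) / S) :
    AltB (VF κ) PP tKF tL pcF [⟨0, 0, 0, 67108864⟩, ⟨1, 1, 0, 67108864⟩, ⟨2, 1, 0, 67108864⟩] 0 2 2 0 0 (sgb true) (sgb true) x := by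
  have X : XR 67108864 x := XR.of hx hx' (by norm_num) (by norm_num) (by norm_num) (by norm_num)
  refine (cornS_of (C := cB022E) (C0 := c0F) (j := (0 : Fin 6)) (k := (0 : Fin 6)) (lo := 0) (hi := 2) (W := 67108864) (N0 := 1) cB022E_q (sideF hx hx') gokF X (by norm_num) (by norm_num) (l := (0 : Fin 6)) rfl
    (gatF00 x) (gatF02 x) (gatF02 x) ?_).altFB rfl hκ le_rfl
  intro ρ a B hρ hd i h1 h2
  fin_cases i
  · exact corT_cert (G1 := gF0q0) (G2 := gF0q2) (Ga := gF0q2) (Gb := gF1q2) cB022E_ok B hρ (gatF00 x) (gatF02 x) (fun _ => gatF02 x) (fun _ => gatF12 x) hd hx hx' CF.B022E_000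
  · exact corT_cert (G1 := gF0q0) (G2 := gF0q2) (Ga := gF1q2) (Gb := gF2q2) cB022E_ok B hρ (gatF00 x) (gatF02 x) (fun _ => gatF12 x) (fun _ => gatF22 x) hd hx hx' CF.B022E_001
  · exact corT_cert (G1 := gF0q0) (G2 := gF0q2) (Ga := gF2q2) (Gb := gF3q2) cB022E_ok B hρ (gatF00 x) (gatF02 x) (fun _ => gatF22 x) (fun h => absurd h (by decide)) hd hx hx' CF.B022E_002
  · exact absurd h2 (by norm_num)
  · exact absurd h2 (by norm_num)

theorem altF_B022E_01 {κ x : ℝ} (hκ : κ * h0 = ken x) (hx : ((134217728 : ℕ) : ℝ) / S ≤ x) (hx' : x ≤ (((134217728 : ℕ) : ℝ) + (67108864 : ℕ)) / S) :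
    AltB (VF κ) PP tKF tL pcF [⟨0, 0, 0, 67108864⟩, ⟨1, 1, 0, 67108864⟩, ⟨2, 1, 0, 67108864⟩] 0 2 2 0 1 (sgb true) (sgb true) x := by
  have X : XR 67108864 x := XR.of hx hx' (by norm_num) (by norm_num) (by norm_num) (by norm_num)
  refine (cornS_of (C := cB022E) (C0 := c0F) (j := (0 : Fin 6)) (k := (1 : Fin 6)) (lo := 0) (hi := 2) (W := 67108864) (N0 := 1) cB022E_q (sideF hx hx') gokF X (by norm_num) (by norm_num) (l := (0 : Fin 6)) rfl
    (gatF00 x) (gatF12 x) (gatF02 x) ?_).altFB rfl hκ le_rfl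
  intro ρ a B hρ hd i h1 h2
  fin_cases i
  · exact corT_cert (G1 := gF0q0) (G2 := gF1q2) (Ga := gF0q2) (Gb := gF1q2) cB022E_ok B hρ (gatF00 x) (gatF12 x) (fun _ => gatF02 x) (fun _ => gatF12 x) hd hx hx' CF.B022E_010
  · exact corT_cert (G1 := gF0q0) (G2 := gF1q2) (Ga := gF1q2) (Gb := gF2q2) cB022E_ok B hρ (gatF00 x) (gatF12 x) (fun _ => gatF12 x) (fun _ => gatF22 x) hd hx hx' CF.B022E_011
  · exact corT_cert (G1 := gF0q0) (G2 := gF1q2) (Ga := gF2q2) (Gb := gF3q2) cB022E_ok B hρ (gatF00 x) (gatF12 x) (fun _ => gatF22 x) (fun h => absurd h (by decide)) hd hx hx' CF.B022E_012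
  · exact absurd h2 (by norm_num)
  · exact absurd h2 (by norm_num)

theorem altF_B022E_02 {κ x : ℝ} (hκ : κ * h0 = ken x) (hx : ((134217728 : ℕ) : ℝ) / S ≤ x) (hx' : x ≤ (((134217728 : ℕ) : ℝ) + (67108864 : ℕ)) / S) :
    AltB (VF κ) PP tKF tL pcF [⟨0, 0, 0, 67108864⟩, ⟨1, 1, 0, 67108864⟩, ⟨2, 1, 0, 67108864⟩] 0 2 2 0 2 (sgb true) (sgb true) x := by
  have X : XR 67108864 x := XR.of hx hx' (by norm_num) (by norm_num) (by norm_num) (by norm_num)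
  refine (cornS_of (C := cB022E) (C0 := c0F) (j := (0 : Fin 6)) (k := (2 : Fin 6)) (lo := 0) (hi := 2) (W := 67108864) (N0 := 1) cB022E_q (sideF hx hx') gokF X (by norm_num) (by norm_num) (l := (0 : Fin 6)) rfl
    (gatF00 x) (gatF22 x) (gatF02 x) ?_).altFB rfl hκ le_rfl
  intro ρ a B hρ hd i h1 h2
  fin_cases i
  · exact corT_cert (G1 := gF0q0) (G2 := gF2q2) (Ga := gF0q2) (Gb := gF1q2) cB022E_ok B hρ (gatF00 x) (gatF22 x) (fun _ => gatF02 x) (fun _ => gatF12 x) hd hx hx' CF.B022E_020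
  · exact corT_cert (G1 := gF0q0) (G2 := gF2q2) (Ga := gF1q2) (Gb := gF2q2) cB022E_ok B hρ (gatF00 x) (gatF22 x) (fun _ => gatF12 x) (fun _ => gatF22 x) hd hx hx' CF.B022E_021
  · exact corT_cert (G1 := gF0q0) (G2 := gF2q2) (Ga := gF2q2) (Gb := gF3q2) cB022E_ok B hρ (gatF00 x) (gatF22 x) (fun _ => gatF22 x) (fun h => absurd h (by decide)) hd hx hx' CF.B022E_022
  · exact absurd h2 (by norm_num)
  · exact absurd h2 (by norm_num)

theorem altF_B022E_10 {κ x : ℝ} (hκ : κ * h0 = ken x) (hx : ((134217728 : ℕ) : ℝ) / S ≤ x) (hx' : x ≤ (((134217728 : ℕ) : ℝ) + (67108864 : ℕ)) / S) :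
    AltB (VF κ) PP tKF tL pcF [⟨0, 0, 0, 67108864⟩, ⟨1, 1, 0, 67108864⟩, ⟨2, 1, 0, 67108864⟩] 0 2 2 1 0 (sgb true) (sgb true) x := by
  have X : XR 67108864 x := XR.of hx hx' (by norm_num) (by norm_num) (by norm_num) (by norm_num)
  refine (cornS_of (C := cB022E) (C0 := c0F) (j := (1 : Fin 6)) (k := (0 : Fin 6)) (lo := 0) (hi := 2) (W := 67108864) (N0 := 1) cB022E_q (sideF hx hx') gokF X (by norm_num) (by norm_num) (l := (0 : Fin 6)) rfl
    (gatF10 x) (gatF02 x) (gatF02 x) ?_).altFB rfl hκ le_rfl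
  intro ρ a B hρ hd i h1 h2
  fin_cases i
  · exact corT_cert (G1 := gF1q0) (G2 := gF0q2) (Ga := gF0q2) (Gb := gF1q2) cB022E_ok B hρ (gatF10 x) (gatF02 x) (fun _ => gatF02 x) (fun _ => gatF12 x) hd hx hx' CF.B022E_100
  · exact corT_cert (G1 := gF1q0) (G2 := gF0q2) (Ga := gF1q2) (Gb := gF2q2) cB022E_ok B hρ (gatF10 x) (gatF02 x) (fun _ => gatF12 x) (fun _ => gatF22 x) hd hx hx' CF.B022E_101
  · exact corT_cert (G1 := gF1q0) (G2 := gF0q2) (Ga := gF2q2) (Gb := gF3q2) cB022E_ok B hρ (gatF10 x) (gatF02 x) (fun _ => gatF22 x) (fun h => absurd h (by decide)) hd hx hx' CF.B022E_102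
  · exact absurd h2 (by norm_num)
  · exact absurd h2 (by norm_num)

theorem altF_B022E_11 {κ x : ℝ} (hκ : κ * h0 = ken x) (hx : ((134217728 : ℕ) : ℝ) / S ≤ x) (hx' : x ≤ (((134217728 : ℕ) : ℝ) + (67108864 : ℕ)) / S) :
    AltB (VF κ) PP tKF tL pcF [⟨0, 0, 0, 67108864⟩, ⟨1, 1, 0, 67108864⟩, ⟨2, 1, 0, 67108864⟩] 0 2 2 1 1 (sgb true) (sgb true) x := by
  have X : XR 67108864 x := XR.of hx hx' (by norm_num) (by norm_num) (by norm_num) (by norm_num)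
  refine (cornS_of (C := cB022E) (C0 := c0F) (j := (1 : Fin 6)) (k := (1 : Fin 6)) (lo := 0) (hi := 2) (W := 67108864) (N0 := 1) cB022E_q (sideF hx hx') gokF X (by norm_num) (by norm_num) (l := (0 : Fin 6)) rfl
    (gatF10 x) (gatF12 x) (gatF02 x) ?_).altFB rfl hκ le_rfl
  intro ρ a B hρ hd i h1 h2
  fin_cases i
  · exact corT_cert (G1 := gF1q0) (G2 := gF1q2) (Ga := gF0q2) (Gb := gF1q2) cB022E_ok B hρ (gatF10 x) (gatF12 x) (fun _ => gatF02 x) (fun _ => gatF12 x) hd hx hx' CF.B022E_110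
  · exact corT_cert (G1 := gF1q0) (G2 := gF1q2) (Ga := gF1q2) (Gb := gF2q2) cB022E_ok B hρ (gatF10 x) (gatF12 x) (fun _ => gatF12 x) (fun _ => gatF22 x) hd hx hx' CF.B022E_111
  · exact corT_cert (G1 := gF1q0) (G2 := gF1q2) (Ga := gF2q2) (Gb := gF3q2) cB022E_ok B hρ (gatF10 x) (gatF12 x) (fun _ => gatF22 x) (fun h => absurd h (by decide)) hd hx hx' CF.B022E_112
  · exact absurd h2 (by norm_num)
  · exact absurd h2 (by norm_num)

theorem altF_B022E_12 {κ x : ℝ} (hκ : κ * h0 = ken x) (hx : ((134217728 : ℕ) : ℝ) / S ≤ x) (hx' : x ≤ (((134217728 : ℕ) : ℝ) + (67108864 : ℕ)) / S) :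
    AltB (VF κ) PP tKF tL pcF [⟨0, 0, 0, 67108864⟩, ⟨1, 1, 0, 67108864⟩, ⟨2, 1, 0, 67108864⟩] 0 2 2 1 2 (sgb true) (sgb true) x := by
  have X : XR 67108864 x := XR.of hx hx' (by norm_num) (by norm_num) (by norm_num) (by norm_num)
  refine (cornS_of (C := cB022E) (C0 := c0F) (j := (1 : Fin 6)) (k := (2 : Fin 6)) (lo := 0) (hi := 2) (W := 67108864) (N0 := 1) cB022E_q (sideF hx hx') gokF X (by norm_num) (by norm_num) (l := (0 : Fin 6)) rfl
    (gatF10 x) (gatF22 x) (gatF02 x) ?_).altFB rfl hκ le_rfl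
  intro ρ a B hρ hd i h1 h2
  fin_cases i
  · exact corT_cert (G1 := gF1q0) (G2 := gF2q2) (Ga := gF0q2) (Gb := gF1q2) cB022E_ok B hρ (gatF10 x) (gatF22 x) (fun _ => gatF02 x) (fun _ => gatF12 x) hd hx hx' CF.B022E_120
  · exact corT_cert (G1 := gF1q0) (G2 := gF2q2) (Ga := gF1q2) (Gb := gF2q2) cB022E_ok B hρ (gatF10 x) (gatF22 x) (fun _ => gatF12 x) (fun _ => gatF22 x) hd hx hx' CF.B022E_121
  · exact corT_cert (G1 := gF1q0) (G2 := gF2q2) (Ga := gF2q2) (Gb := gF3q2) cB022E_ok B hρ (gatF10 x) (gatF22 x) (fun _ => gatF22 x) (fun h => absurd h (by decide)) hd hx hx' CF.B022E_122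
  · exact absurd h2 (by norm_num)
  · exact absurd h2 (by norm_num)

theorem altF_B022E_20 {κ x : ℝ} (hκ : κ * h0 = ken x) (hx : ((134217728 : ℕ) : ℝ) / S ≤ x) (hx' : x ≤ (((134217728 : ℕ) : ℝ) + (67108864 : ℕ)) / S) :
    AltB (VF κ) PP tKF tL pcF [⟨0, 0, 0, 67108864⟩, ⟨1, 1, 0, 67108864⟩, ⟨2, 1, 0, 67108864⟩] 0 2 2 2 0 (sgb true) (sgb true) x := by
  have X : XR 67108864 x := XR.of hx hx' (by norm_num) (by norm_num) (by norm_num) (by norm_num)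
  refine (cornS_of (C := cB022E) (C0 := c0F) (j := (2 : Fin 6)) (k := (0 : Fin 6)) (lo := 0) (hi := 2) (W := 67108864) (N0 := 1) cB022E_q (sideF hx hx') gokF X (by norm_num) (by norm_num) (l := (0 : Fin 6)) rfl
    (gatF20 x) (gatF02 x) (gatF02 x) ?_).altFB rfl hκ le_rfl
  intro ρ a B hρ hd i h1 h2
  fin_cases i
  · exact corT_cert (G1 := gF2q0) (G2 := gF0q2) (Ga := gF0q2) (Gb := gF1q2) cB022E_ok B hρ (gatF20 x) (gatF02 x) (fun _ => gatF02 x) (fun _ => gatF12 x) hd hx hx' CF.B022E_200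
  · exact corT_cert (G1 := gF2q0) (G2 := gF0q2) (Ga := gF1q2) (Gb := gF2q2) cB022E_ok B hρ (gatF20 x) (gatF02 x) (fun _ => gatF12 x) (fun _ => gatF22 x) hd hx hx' CF.B022E_201
  · exact corT_cert (G1 := gF2q0) (G2 := gF0q2) (Ga := gF2q2) (Gb := gF3q2) cB022E_ok B hρ (gatF20 x) (gatF02 x) (fun _ => gatF22 x) (fun h => absurd h (by decide)) hd hx hx' CF.B022E_202
  · exact absurd h2 (by norm_num)
  · exact absurd h2 (by norm_num)

theorem altF_B022E_21 {κ x : ℝ} (hκ : κ * h0 = ken x) (hx : ((134217728 : ℕ) : ℝ) / S ≤ x) (hx' : x ≤ (((134217728 : ℕ) : ℝ) + (67108864 : ℕ)) / S) :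
    AltB (VF κ) PP tKF tL pcF [⟨0, 0, 0, 67108864⟩, ⟨1, 1, 0, 67108864⟩, ⟨2, 1, 0, 67108864⟩] 0 2 2 2 1 (sgb true) (sgb true) x := by
  have X : XR 67108864 x := XR.of hx hx' (by norm_num) (by norm_num) (by norm_num) (by norm_num)
  refine (cornS_of (C := cB022E) (C0 := c0F) (j := (2 : Fin 6)) (k := (1 : Fin 6)) (lo := 0) (hi := 2) (W := 67108864) (N0 := 1) cB022E_q (sideF hx hx') gokF X (by norm_num) (by norm_num) (l := (0 : Fin 6)) rfl
    (gatF20 x) (gatF12 x) (gatF02 x) ?_).altFB rfl hκ le_rfl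
  intro ρ a B hρ hd i h1 h2
  fin_cases i
  · exact corT_cert (G1 := gF2q0) (G2 := gF1q2) (Ga := gF0q2) (Gb := gF1q2) cB022E_ok B hρ (gatF20 x) (gatF12 x) (fun _ => gatF02 x) (fun _ => gatF12 x) hd hx hx' CF.B022E_210
  · exact corT_cert (G1 := gF2q0) (G2 := gF1q2) (Ga := gF1q2) (Gb := gF2q2) cB022E_ok B hρ (gatF20 x) (gatF12 x) (fun _ => gatF12 x) (fun _ => gatF22 x) hd hx hx' CF.B022E_211
  · exact corT_cert (G1 := gF2q0) (G2 := gF1q2) (Ga := gF2q2) (Gb := gF3q2) cB022E_ok B hρ (gatF20 x) (gatF12 x) (fun _ => gatF22 x) (fun h => absurd h (by decide)) hd hx hx' CF.B022E_212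
  · exact absurd h2 (by norm_num)
  · exact absurd h2 (by norm_num)

theorem altF_B022E_22 {κ x : ℝ} (hκ : κ * h0 = ken x) (hx : ((134217728 : ℕ) : ℝ) / S ≤ x) (hx' : x ≤ (((134217728 : ℕ) : ℝ) + (67108864 : ℕ)) / S) :
    AltB (VF κ) PP tKF tL pcF [⟨0, 0, 0, 67108864⟩, ⟨1, 1, 0, 67108864⟩, ⟨2, 1, 0, 67108864⟩] 0 2 2 2 2 (sgb true) (sgb true) x := by
  have X : XR 67108864 x := XR.of hx hx' (by norm_num) (by norm_num) (by norm_num) (by norm_num)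
  refine (cornS_of (C := cB022E) (C0 := c0F) (j := (2 : Fin 6)) (k := (2 : Fin 6)) (lo := 0) (hi := 2) (W := 67108864) (N0 := 1) cB022E_q (sideF hx hx') gokF X (by norm_num) (by norm_num) (l := (0 : Fin 6)) rfl
    (gatF20 x) (gatF22 x) (gatF02 x) ?_).altFB rfl hκ le_rfl
  intro ρ a B hρ hd i h1 h2
  fin_cases i
  · exact corT_cert (G1 := gF2q0) (G2 := gF2q2) (Ga := gF0q2) (Gb := gF1q2) cB022E_ok B hρ (gatF20 x) (gatF22 x) (fun _ => gatF02 x) (fun _ => gatF12 x) hd hx hx' CF.B022E_220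
  · exact corT_cert (G1 := gF2q0) (G2 := gF2q2) (Ga := gF1q2) (Gb := gF2q2) cB022E_ok B hρ (gatF20 x) (gatF22 x) (fun _ => gatF12 x) (fun _ => gatF22 x) hd hx hx' CF.B022E_221
  · exact corT_cert (G1 := gF2q0) (G2 := gF2q2) (Ga := gF2q2) (Gb := gF3q2) cB022E_ok B hρ (gatF20 x) (gatF22 x) (fun _ => gatF22 x) (fun h => absurd h (by decide)) hd hx hx' CF.B022E_222
  · exact absurd h2 (by norm_num)
  · exact absurd h2 (by norm_num)

theorem altF_B022L_05 {κ x : ℝ} (hκ : κ * h0 = ken x) (hx : ((134217728 : ℕ) : ℝ) / S ≤ x) (hx' : x ≤ (((134217728 : ℕ) : ℝ) + (67108864 : ℕ)) / S) :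
    AltB (VF κ) PP tKF tL pcF [⟨0, 0, 0, 67108864⟩, ⟨1, 1, 0, 67108864⟩, ⟨2, 1, 0, 67108864⟩] 0 2 2 0 5 (sgb true) (sgb true) x := by
  have X : XR 67108864 x := XR.of hx hx' (by norm_num) (by norm_num) (by norm_num) (by norm_num)
  refine (cornS_of (C := cB022L) (C0 := c0F) (j := (0 : Fin 6)) (k := (5 : Fin 6)) (lo := 0) (hi := 2) (W := 67108864) (N0 := 1) cB022L_q (sideF hx hx') gokF X (by norm_num) (by norm_num) (l := (0 : Fin 6)) rfl
    (gatF00 x) (gatF52 x) (gatF02 x) ?_).altFB rfl hκ le_rfl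
  intro ρ a B hρ hd i h1 h2
  fin_cases i
  · exact corX_cert (G1 := gF0q0) (G2 := gF5q2) (Ga := gF0q2) (Gb := gF1q2) (GT := gF0q2) cB022L_ok tB022L_ok B hρ (gatF00 x) (gatF52 x) (fun _ => gatF02 x) (fun _ => gatF12 x) rfl (tgh_B022L (kodd x) (gpu0 x) (gpt2 x) (gpu2 x) (gatF00 x) (gatF52 x) (gatF02 x) B (le_sixteenth hd (by norm_num))) hd hx hx' CF.B022L_050
  · exact corT_cert (G1 := gF0q0) (G2 := gF5q2) (Ga := gF1q2) (Gb := gF2q2) cB022L_ok B hρ (gatF00 x) (gatF52 x) (fun _ => gatF12 x) (fun _ => gatF22 x) hd hx hx' CF.B022L_051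
  · exact corT_cert (G1 := gF0q0) (G2 := gF5q2) (Ga := gF2q2) (Gb := gF3q2) cB022L_ok B hρ (gatF00 x) (gatF52 x) (fun _ => gatF22 x) (fun h => absurd h (by decide)) hd hx hx' CF.B022L_052
  · exact absurd h2 (by norm_num)
  · exact absurd h2 (by norm_num)

theorem altF_B022L_15 {κ x : ℝ} (hκ : κ * h0 = ken x) (hx : ((134217728 : ℕ) : ℝ) / S ≤ x) (hx' : x ≤ (((134217728 : ℕ) : ℝ) + (67108864 : ℕ)) / S) :
    AltB (VF κ) PP tKF tL pcF [⟨0, 0, 0, 67108864⟩, ⟨1, 1, 0, 67108864⟩, ⟨2, 1, 0, 67108864⟩] 0 2 2 1 5 (sgb true) (sgb true) x := by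
  have X : XR 67108864 x := XR.of hx hx' (by norm_num) (by norm_num) (by norm_num) (by norm_num)
  refine (cornS_of (C := cB022L) (C0 := c0F) (j := (1 : Fin 6)) (k := (5 : Fin 6)) (lo := 0) (hi := 2) (W := 67108864) (N0 := 1) cB022L_q (sideF hx hx') gokF X (by norm_num) (by norm_num) (l := (0 : Fin 6)) rfl
    (gatF10 x) (gatF52 x) (gatF02 x) ?_).altFB rfl hκ le_rfl
  intro ρ a B hρ hd i h1 h2
  fin_cases i
  · exact corT_cert (G1 := gF1q0) (G2 := gF5q2) (Ga := gF0q2) (Gb := gF1q2) cB022L_ok B hρ (gatF10 x) (gatF52 x) (fun _ => gatF02 x) (fun _ => gatF12 x) hd hx hx' CF.B022L_150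
  · exact corT_cert (G1 := gF1q0) (G2 := gF5q2) (Ga := gF1q2) (Gb := gF2q2) cB022L_ok B hρ (gatF10 x) (gatF52 x) (fun _ => gatF12 x) (fun _ => gatF22 x) hd hx hx' CF.B022L_151
  · exact corT_cert (G1 := gF1q0) (G2 := gF5q2) (Ga := gF2q2) (Gb := gF3q2) cB022L_ok B hρ (gatF10 x) (gatF52 x) (fun _ => gatF22 x) (fun h => absurd h (by decide)) hd hx hx' CF.B022L_152
  · exact absurd h2 (by norm_num)
  · exact absurd h2 (by norm_num)

theorem altF_B022L_25 {κ x : ℝ} (hκ : κ * h0 = ken x) (hx : ((134217728 : ℕ) : ℝ) / S ≤ x) (hx' : x ≤ (((134217728 : ℕ) : ℝ) + (67108864 : ℕ)) / S) :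
    AltB (VF κ) PP tKF tL pcF [⟨0, 0, 0, 67108864⟩, ⟨1, 1, 0, 67108864⟩, ⟨2, 1, 0, 67108864⟩] 0 2 2 2 5 (sgb true) (sgb true) x := by
  have X : XR 67108864 x := XR.of hx hx' (by norm_num) (by norm_num) (by norm_num) (by norm_num)
  refine (cornS_of (C := cB022L) (C0 := c0F) (j := (2 : Fin 6)) (k := (5 : Fin 6)) (lo := 0) (hi := 2) (W := 67108864) (N0 := 1) cB022L_q (sideF hx hx') gokF X (by norm_num) (by norm_num) (l := (0 : Fin 6)) rfl
    (gatF20 x) (gatF52 x) (gatF02 x) ?_).altFB rfl hκ le_rfl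
  intro ρ a B hρ hd i h1 h2
  fin_cases i
  · exact corT_cert (G1 := gF2q0) (G2 := gF5q2) (Ga := gF0q2) (Gb := gF1q2) cB022L_ok B hρ (gatF20 x) (gatF52 x) (fun _ => gatF02 x) (fun _ => gatF12 x) hd hx hx' CF.B022L_250
  · exact corT_cert (G1 := gF2q0) (G2 := gF5q2) (Ga := gF1q2) (Gb := gF2q2) cB022L_ok B hρ (gatF20 x) (gatF52 x) (fun _ => gatF12 x) (fun _ => gatF22 x) hd hx hx' CF.B022L_251
  · exact corT_cert (G1 := gF2q0) (G2 := gF5q2) (Ga := gF2q2) (Gb := gF3q2) cB022L_ok B hρ (gatF20 x) (gatF52 x) (fun _ => gatF22 x) (fun h => absurd h (by decide)) hd hx hx' CF.B022L_252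
  · exact absurd h2 (by norm_num)
  · exact absurd h2 (by norm_num)

theorem altF_B022R_00 {κ x : ℝ} (hκ : κ * h0 = ken x) (hx : ((134217728 : ℕ) : ℝ) / S ≤ x) (hx' : x ≤ (((134217728 : ℕ) : ℝ) + (67108864 : ℕ)) / S) :
    AltB (VF κ) PP tKF tL pcF [⟨0, 0, 0, 67108864⟩, ⟨1, 1, 0, 67108864⟩, ⟨2, 1, 0, 67108864⟩] 0 2 2 0 0 (sgb true) (sgb false) x := by
  have X : XR 67108864 x := XR.of hx hx' (by norm_num) (by norm_num) (by norm_num) (by norm_num)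
  refine (cornS_of (C := cB022R) (C0 := c0F) (j := (0 : Fin 6)) (k := (0 : Fin 6)) (lo := 5) (hi := 5) (W := 67108864) (N0 := 1) cB022R_q (sideF hx hx') gokF X (by norm_num) (by norm_num) (l := (5 : Fin 6)) rfl
    (gatF00 x) (gatF02 x) (gatF52 x) ?_).altFB rfl hκ le_rfl
  intro ρ a B hρ hd i h1 h2
  fin_cases i
  · exact absurd h1 (by norm_num)
  · exact absurd h1 (by norm_num)
  · exact absurd h1 (by norm_num)
  · exact absurd h1 (by norm_num)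
  · exact corT_cert (G1 := gF0q0) (G2 := gF0q2) (Ga := gF4q2) (Gb := gF5q2) cB022R_ok B hρ (gatF00 x) (gatF02 x) (fun h => absurd h (by decide)) (fun _ => gatF52 x) hd hx hx' CF.B022R_004

theorem altF_B022R_01 {κ x : ℝ} (hκ : κ * h0 = ken x) (hx : ((134217728 : ℕ) : ℝ) / S ≤ x) (hx' : x ≤ (((134217728 : ℕ) : ℝ) + (67108864 : ℕ)) / S) :
    AltB (VF κ) PP tKF tL pcF [⟨0, 0, 0, 67108864⟩, ⟨1, 1, 0, 67108864⟩, ⟨2, 1, 0, 67108864⟩] 0 2 2 0 1 (sgb true) (sgb false) x := by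
  have X : XR 67108864 x := XR.of hx hx' (by norm_num) (by norm_num) (by norm_num) (by norm_num)
  refine (cornS_of (C := cB022R) (C0 := c0F) (j := (0 : Fin 6)) (k := (1 : Fin 6)) (lo := 5) (hi := 5) (W := 67108864) (N0 := 1) cB022R_q (sideF hx hx') gokF X (by norm_num) (by norm_num) (l := (5 : Fin 6)) rfl
    (gatF00 x) (gatF12 x) (gatF52 x) ?_).altFB rfl hκ le_rfl
  intro ρ a B hρ hd i h1 h2
  fin_cases i
  · exact absurd h1 (by norm_num)
  · exact absurd h1 (by norm_num)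
  · exact absurd h1 (by norm_num)
  · exact absurd h1 (by norm_num)
  · exact corT_cert (G1 := gF0q0) (G2 := gF1q2) (Ga := gF4q2) (Gb := gF5q2) cB022R_ok B hρ (gatF00 x) (gatF12 x) (fun h => absurd h (by decide)) (fun _ => gatF52 x) hd hx hx' CF.B022R_014

theorem altF_B022R_02 {κ x : ℝ} (hκ : κ * h0 = ken x) (hx : ((134217728 : ℕ) : ℝ) / S ≤ x) (hx' : x ≤ (((134217728 : ℕ) : ℝ) + (67108864 : ℕ)) / S) :
    AltB (VF κ) PP tKF tL pcF [⟨0, 0, 0, 67108864⟩, ⟨1, 1, 0, 67108864⟩, ⟨2, 1, 0, 67108864⟩] 0 2 2 0 2 (sgb true) (sgb false) x := by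
  have X : XR 67108864 x := XR.of hx hx' (by norm_num) (by norm_num) (by norm_num) (by norm_num)
  refine (cornS_of (C := cB022R) (C0 := c0F) (j := (0 : Fin 6)) (k := (2 : Fin 6)) (lo := 5) (hi := 5) (W := 67108864) (N0 := 1) cB022R_q (sideF hx hx') gokF X (by norm_num) (by norm_num) (l := (5 : Fin 6)) rfl
    (gatF00 x) (gatF22 x) (gatF52 x) ?_).altFB rfl hκ le_rfl
  intro ρ a B hρ hd i h1 h2
  fin_cases i
  · exact absurd h1 (by norm_num)
  · exact absurd h1 (by norm_num)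
  · exact absurd h1 (by norm_num)
  · exact absurd h1 (by norm_num)
  · exact corT_cert (G1 := gF0q0) (G2 := gF2q2) (Ga := gF4q2) (Gb := gF5q2) cB022R_ok B hρ (gatF00 x) (gatF22 x) (fun h => absurd h (by decide)) (fun _ => gatF52 x) hd hx hx' CF.B022R_024

theorem altF_B022R_10 {κ x : ℝ} (hκ : κ * h0 = ken x) (hx : ((134217728 : ℕ) : ℝ) / S ≤ x) (hx' : x ≤ (((134217728 : ℕ) : ℝ) + (67108864 : ℕ)) / S) :
    AltB (VF κ) PP tKF tL pcF [⟨0, 0, 0, 67108864⟩, ⟨1, 1, 0, 67108864⟩, ⟨2, 1, 0, 67108864⟩] 0 2 2 1 0 (sgb true) (sgb false) x := by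
  have X : XR 67108864 x := XR.of hx hx' (by norm_num) (by norm_num) (by norm_num) (by norm_num)
  refine (cornS_of (C := cB022R) (C0 := c0F) (j := (1 : Fin 6)) (k := (0 : Fin 6)) (lo := 5) (hi := 5) (W := 67108864) (N0 := 1) cB022R_q (sideF hx hx') gokF X (by norm_num) (by norm_num) (l := (5 : Fin 6)) rfl
    (gatF10 x) (gatF02 x) (gatF52 x) ?_).altFB rfl hκ le_rfl
  intro ρ a B hρ hd i h1 h2
  fin_cases i
  · exact absurd h1 (by norm_num)
  · exact absurd h1 (by norm_num)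
  · exact absurd h1 (by norm_num)
  · exact absurd h1 (by norm_num)
  · exact corT_cert (G1 := gF1q0) (G2 := gF0q2) (Ga := gF4q2) (Gb := gF5q2) cB022R_ok B hρ (gatF10 x) (gatF02 x) (fun h => absurd h (by decide)) (fun _ => gatF52 x) hd hx hx' CF.B022R_104

theorem altF_B022R_11 {κ x : ℝ} (hκ : κ * h0 = ken x) (hx : ((134217728 : ℕ) : ℝ) / S ≤ x) (hx' : x ≤ (((134217728 : ℕ) : ℝ) + (67108864 : ℕ)) / S) :
    AltB (VF κ) PP tKF tL pcF [⟨0, 0, 0, 67108864⟩, ⟨1, 1, 0, 67108864⟩, ⟨2, 1, 0, 67108864⟩] 0 2 2 1 1 (sgb true) (sgb false) x := by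
  have X : XR 67108864 x := XR.of hx hx' (by norm_num) (by norm_num) (by norm_num) (by norm_num)
  refine (cornS_of (C := cB022R) (C0 := c0F) (j := (1 : Fin 6)) (k := (1 : Fin 6)) (lo := 5) (hi := 5) (W := 67108864) (N0 := 1) cB022R_q (sideF hx hx') gokF X (by norm_num) (by norm_num) (l := (5 : Fin 6)) rfl
    (gatF10 x) (gatF12 x) (gatF52 x) ?_).altFB rfl hκ le_rfl
  intro ρ a B hρ hd i h1 h2
  fin_cases i
  · exact absurd h1 (by norm_num)
  · exact absurd h1 (by norm_num)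
  · exact absurd h1 (by norm_num)
  · exact absurd h1 (by norm_num)
  · exact corT_cert (G1 := gF1q0) (G2 := gF1q2) (Ga := gF4q2) (Gb := gF5q2) cB022R_ok B hρ (gatF10 x) (gatF12 x) (fun h => absurd h (by decide)) (fun _ => gatF52 x) hd hx hx' CF.B022R_114

theorem altF_B022R_12 {κ x : ℝ} (hκ : κ * h0 = ken x) (hx : ((134217728 : ℕ) : ℝ) / S ≤ x) (hx' : x ≤ (((134217728 : ℕ) : ℝ) + (67108864 : ℕ)) / S) :
    AltB (VF κ) PP tKF tL pcF [⟨0, 0, 0, 67108864⟩, ⟨1, 1, 0, 67108864⟩, ⟨2, 1, 0, 67108864⟩] 0 2 2 1 2 (sgb true) (sgb false) x := by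
  have X : XR 67108864 x := XR.of hx hx' (by norm_num) (by norm_num) (by norm_num) (by norm_num)
  refine (cornS_of (C := cB022R) (C0 := c0F) (j := (1 : Fin 6)) (k := (2 : Fin 6)) (lo := 5) (hi := 5) (W := 67108864) (N0 := 1) cB022R_q (sideF hx hx') gokF X (by norm_num) (by norm_num) (l := (5 : Fin 6)) rfl
    (gatF10 x) (gatF22 x) (gatF52 x) ?_).altFB rfl hκ le_rfl
  intro ρ a B hρ hd i h1 h2
  fin_cases i
  · exact absurd h1 (by norm_num)
  · exact absurd h1 (by norm_num)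
  · exact absurd h1 (by norm_num)
  · exact absurd h1 (by norm_num)
  · exact corT_cert (G1 := gF1q0) (G2 := gF2q2) (Ga := gF4q2) (Gb := gF5q2) cB022R_ok B hρ (gatF10 x) (gatF22 x) (fun h => absurd h (by decide)) (fun _ => gatF52 x) hd hx hx' CF.B022R_124

theorem altF_B022R_20 {κ x : ℝ} (hκ : κ * h0 = ken x) (hx : ((134217728 : ℕ) : ℝ) / S ≤ x) (hx' : x ≤ (((134217728 : ℕ) : ℝ) + (67108864 : ℕ)) / S) :
    AltB (VF κ) PP tKF tL pcF [⟨0, 0, 0, 67108864⟩, ⟨1, 1, 0, 67108864⟩, ⟨2, 1, 0, 67108864⟩] 0 2 2 2 0 (sgb true) (sgb false) x := by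
  have X : XR 67108864 x := XR.of hx hx' (by norm_num) (by norm_num) (by norm_num) (by norm_num)
  refine (cornS_of (C := cB022R) (C0 := c0F) (j := (2 : Fin 6)) (k := (0 : Fin 6)) (lo := 5) (hi := 5) (W := 67108864) (N0 := 1) cB022R_q (sideF hx hx') gokF X (by norm_num) (by norm_num) (l := (5 : Fin 6)) rfl
    (gatF20 x) (gatF02 x) (gatF52 x) ?_).altFB rfl hκ le_rfl
  intro ρ a B hρ hd i h1 h2
  fin_cases i
  · exact absurd h1 (by norm_num)
  · exact absurd h1 (by norm_num)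
  · exact absurd h1 (by norm_num)
  · exact absurd h1 (by norm_num)
  · exact corT_cert (G1 := gF2q0) (G2 := gF0q2) (Ga := gF4q2) (Gb := gF5q2) cB022R_ok B hρ (gatF20 x) (gatF02 x) (fun h => absurd h (by decide)) (fun _ => gatF52 x) hd hx hx' CF.B022R_204

theorem altF_B022R_21 {κ x : ℝ} (hκ : κ * h0 = ken x) (hx : ((134217728 : ℕ) : ℝ) / S ≤ x) (hx' : x ≤ (((134217728 : ℕ) : ℝ) + (67108864 : ℕ)) / S) :
    AltB (VF κ) PP tKF tL pcF [⟨0, 0, 0, 67108864⟩, ⟨1, 1, 0, 67108864⟩, ⟨2, 1, 0, 67108864⟩] 0 2 2 2 1 (sgb true) (sgb false) x := by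
  have X : XR 67108864 x := XR.of hx hx' (by norm_num) (by norm_num) (by norm_num) (by norm_num)
  refine (cornS_of (C := cB022R) (C0 := c0F) (j := (2 : Fin 6)) (k := (1 : Fin 6)) (lo := 5) (hi := 5) (W := 67108864) (N0 := 1) cB022R_q (sideF hx hx') gokF X (by norm_num) (by norm_num) (l := (5 : Fin 6)) rfl
    (gatF20 x) (gatF12 x) (gatF52 x) ?_).altFB rfl hκ le_rfl
  intro ρ a B hρ hd i h1 h2
  fin_cases i
  · exact absurd h1 (by norm_num)
  · exact absurd h1 (by norm_num)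
  · exact absurd h1 (by norm_num)
  · exact absurd h1 (by norm_num)
  · exact corT_cert (G1 := gF2q0) (G2 := gF1q2) (Ga := gF4q2) (Gb := gF5q2) cB022R_ok B hρ (gatF20 x) (gatF12 x) (fun h => absurd h (by decide)) (fun _ => gatF52 x) hd hx hx' CF.B022R_214

theorem altF_B022R_22 {κ x : ℝ} (hκ : κ * h0 = ken x) (hx : ((134217728 : ℕ) : ℝ) / S ≤ x) (hx' : x ≤ (((134217728 : ℕ) : ℝ) + (67108864 : ℕ)) / S) :
    AltB (VF κ) PP tKF tL pcF [⟨0, 0, 0, 67108864⟩, ⟨1, 1, 0, 67108864⟩, ⟨2, 1, 0, 67108864⟩] 0 2 2 2 2 (sgb true) (sgb false) x := by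
  have X : XR 67108864 x := XR.of hx hx' (by norm_num) (by norm_num) (by norm_num) (by norm_num)
  refine (cornS_of (C := cB022R) (C0 := c0F) (j := (2 : Fin 6)) (k := (2 : Fin 6)) (lo := 5) (hi := 5) (W := 67108864) (N0 := 1) cB022R_q (sideF hx hx') gokF X (by norm_num) (by norm_num) (l := (5 : Fin 6)) rfl
    (gatF20 x) (gatF22 x) (gatF52 x) ?_).altFB rfl hκ le_rfl
  intro ρ a B hρ hd i h1 h2
  fin_cases i
  · exact absurd h1 (by norm_num)
  · exact absurd h1 (by norm_num)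
  · exact absurd h1 (by norm_num)
  · exact absurd h1 (by norm_num)
  · exact corT_cert (G1 := gF2q0) (G2 := gF2q2) (Ga := gF4q2) (Gb := gF5q2) cB022R_ok B hρ (gatF20 x) (gatF22 x) (fun h => absurd h (by decide)) (fun _ => gatF52 x) hd hx hx' CF.B022R_224

theorem altF_B101E_00 {κ x : ℝ} (hκ : κ * h0 = ken x) (hx : ((134217728 : ℕ) : ℝ) / S ≤ x) (hx' : x ≤ (((134217728 : ℕ) : ℝ) + (67108864 : ℕ)) / S) :
    AltB (VF κ) PP tKF tL pcF [⟨0, 1, 0, 53687091⟩, ⟨1, 0, 0, 53687091⟩, ⟨2, 1, 0, 53687091⟩] 1 0 1 0 0 (sgb true) (sgb false) x := by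
  have X : XR 53687091 x := XR.of hx hx' (by norm_num) (by norm_num) (by norm_num) (by norm_num)
  refine (cornS_of (C := cB101E) (C0 := c0F) (j := (0 : Fin 6)) (k := (0 : Fin 6)) (lo := 0) (hi := 2) (W := 53687091) (N0 := 1) cB101E_q (sideF hx hx') gokF X (by norm_num) (by norm_num) (l := (0 : Fin 6)) rfl
    (gatF01 x) (gatF01 x) (gatF00 x) ?_).altFB rfl hκ le_rfl
  intro ρ a B hρ hd i h1 h2
  fin_cases i
  · exact corT_cert (G1 := gF0q1) (G2 := gF0q1) (Ga := gF0q0) (Gb := gF1q0) cB101E_ok B hρ (gatF01 x) (gatF01 x) (fun _ => gatF00 x) (fun _ => gatF10 x) hd hx hx' CF.B101E_000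
  · exact corT_cert (G1 := gF0q1) (G2 := gF0q1) (Ga := gF1q0) (Gb := gF2q0) cB101E_ok B hρ (gatF01 x) (gatF01 x) (fun _ => gatF10 x) (fun _ => gatF20 x) hd hx hx' CF.B101E_001
  · exact corT_cert (G1 := gF0q1) (G2 := gF0q1) (Ga := gF2q0) (Gb := gF3q0) cB101E_ok B hρ (gatF01 x) (gatF01 x) (fun _ => gatF20 x) (fun h => absurd h (by decide)) hd hx hx' CF.B101E_002
  · exact absurd h2 (by norm_num)
  · exact absurd h2 (by norm_num)

theorem altF_B101L_30 {κ x : ℝ} (hκ : κ * h0 = ken x) (hx : ((134217728 : ℕ) : ℝ) / S ≤ x) (hx' : x ≤ (((134217728 : ℕ) : ℝ) + (67108864 : ℕ)) / S) :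
    AltB (VF κ) PP tKF tL pcF [⟨0, 1, 0, 67108864⟩, ⟨1, 0, 0, 67108864⟩, ⟨2, 1, 0, 67108864⟩] 1 0 1 3 0 (sgb true) (sgb true) x := by
  have X : XR 67108864 x := XR.of hx hx' (by norm_num) (by norm_num) (by norm_num) (by norm_num)
  refine (cornS_of (C := cB101L) (C0 := c0F) (j := (3 : Fin 6)) (k := (0 : Fin 6)) (lo := 0) (hi := 2) (W := 67108864) (N0 := 1) cB101L_q (sideF hx hx') gokF X (by norm_num) (by norm_num) (l := (0 : Fin 6)) rfl
    (gatF31 x) (gatF01 x) (gatF00 x) ?_).altFB rfl hκ le_rfl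
  intro ρ a B hρ hd i h1 h2
  fin_cases i
  · exact corT_cert (G1 := gF3q1) (G2 := gF0q1) (Ga := gF0q0) (Gb := gF1q0) cB101L_ok B hρ (gatF31 x) (gatF01 x) (fun _ => gatF00 x) (fun _ => gatF10 x) hd hx hx' CF.B101L_300
  · exact corT_cert (G1 := gF3q1) (G2 := gF0q1) (Ga := gF1q0) (Gb := gF2q0) cB101L_ok B hρ (gatF31 x) (gatF01 x) (fun _ => gatF10 x) (fun _ => gatF20 x) hd hx hx' CF.B101L_301
  · exact corT_cert (G1 := gF3q1) (G2 := gF0q1) (Ga := gF2q0) (Gb := gF3q0) cB101L_ok B hρ (gatF31 x) (gatF01 x) (fun _ => gatF20 x) (fun h => absurd h (by decide)) hd hx hx' CF.B101L_302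
  · exact absurd h2 (by norm_num)
  · exact absurd h2 (by norm_num)

theorem altF_B101L_40 {κ x : ℝ} (hκ : κ * h0 = ken x) (hx : ((134217728 : ℕ) : ℝ) / S ≤ x) (hx' : x ≤ (((134217728 : ℕ) : ℝ) + (67108864 : ℕ)) / S) :
    AltB (VF κ) PP tKF tL pcF [⟨0, 1, 0, 67108864⟩, ⟨1, 0, 0, 67108864⟩, ⟨2, 1, 0, 67108864⟩] 1 0 1 4 0 (sgb true) (sgb true) x := by
  have X : XR 67108864 x := XR.of hx hx' (by norm_num) (by norm_num) (by norm_num) (by norm_num)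
  refine (cornS_of (C := cB101L) (C0 := c0F) (j := (4 : Fin 6)) (k := (0 : Fin 6)) (lo := 0) (hi := 2) (W := 67108864) (N0 := 1) cB101L_q (sideF hx hx') gokF X (by norm_num) (by norm_num) (l := (0 : Fin 6)) rfl
    (gatF41 x) (gatF01 x) (gatF00 x) ?_).altFB rfl hκ le_rfl
  intro ρ a B hρ hd i h1 h2
  fin_cases i
  · exact corT_cert (G1 := gF4q1) (G2 := gF0q1) (Ga := gF0q0) (Gb := gF1q0) cB101L_ok B hρ (gatF41 x) (gatF01 x) (fun _ => gatF00 x) (fun _ => gatF10 x) hd hx hx' CF.B101L_400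
  · exact corT_cert (G1 := gF4q1) (G2 := gF0q1) (Ga := gF1q0) (Gb := gF2q0) cB101L_ok B hρ (gatF41 x) (gatF01 x) (fun _ => gatF10 x) (fun _ => gatF20 x) hd hx hx' CF.B101L_401
  · exact corT_cert (G1 := gF4q1) (G2 := gF0q1) (Ga := gF2q0) (Gb := gF3q0) cB101L_ok B hρ (gatF41 x) (gatF01 x) (fun _ => gatF20 x) (fun h => absurd h (by decide)) hd hx hx' CF.B101L_402
  · exact absurd h2 (by norm_num)
  · exact absurd h2 (by norm_num)

theorem altF_B101L_50 {κ x : ℝ} (hκ : κ * h0 = ken x) (hx : ((134217728 : ℕ) : ℝ) / S ≤ x) (hx' : x ≤ (((134217728 : ℕ) : ℝ) + (67108864 : ℕ)) / S) :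
    AltB (VF κ) PP tKF tL pcF [⟨0, 1, 0, 67108864⟩, ⟨1, 0, 0, 67108864⟩, ⟨2, 1, 0, 67108864⟩] 1 0 1 5 0 (sgb true) (sgb true) x := by
  have X : XR 67108864 x := XR.of hx hx' (by norm_num) (by norm_num) (by norm_num) (by norm_num)
  refine (cornS_of (C := cB101L) (C0 := c0F) (j := (5 : Fin 6)) (k := (0 : Fin 6)) (lo := 0) (hi := 2) (W := 67108864) (N0 := 1) cB101L_q (sideF hx hx') gokF X (by norm_num) (by norm_num) (l := (0 : Fin 6)) rfl
    (gatF51 x) (gatF01 x) (gatF00 x) ?_).altFB rfl hκ le_rfl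
  intro ρ a B hρ hd i h1 h2
  fin_cases i
  · exact corX_cert (G1 := gF5q1) (G2 := gF0q1) (Ga := gF0q0) (Gb := gF1q0) (GT := gF0q0) cB101L_ok tB101L_ok B hρ (gatF51 x) (gatF01 x) (fun _ => gatF00 x) (fun _ => gatF10 x) rfl (tgh_B101L (kodd x) (gpt1 x) (gpu1 x) (gpu0 x) (gatF51 x) (gatF01 x) (gatF00 x) B (le_sixteenth hd (by norm_num))) hd hx hx' CF.B101L_500
  · exact corT_cert (G1 := gF5q1) (G2 := gF0q1) (Ga := gF1q0) (Gb := gF2q0) cB101L_ok B hρ (gatF51 x) (gatF01 x) (fun _ => gatF10 x) (fun _ => gatF20 x) hd hx hx' CF.B101L_501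
  · exact corT_cert (G1 := gF5q1) (G2 := gF0q1) (Ga := gF2q0) (Gb := gF3q0) cB101L_ok B hρ (gatF51 x) (gatF01 x) (fun _ => gatF20 x) (fun h => absurd h (by decide)) hd hx hx' CF.B101L_502
  · exact absurd h2 (by norm_num)
  · exact absurd h2 (by norm_num)

theorem altF_B101R_03 {κ x : ℝ} (hκ : κ * h0 = ken x) (hx : ((134217728 : ℕ) : ℝ) / S ≤ x) (hx' : x ≤ (((134217728 : ℕ) : ℝ) + (67108864 : ℕ)) / S) :
    AltB (VF κ) PP tKF tL pcF [⟨0, 1, 0, 67108864⟩, ⟨1, 0, 0, 67108864⟩, ⟨2, 1, 0, 67108864⟩] 1 0 1 0 3 (sgb false) (sgb false) x := by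
  have X : XR 67108864 x := XR.of hx hx' (by norm_num) (by norm_num) (by norm_num) (by norm_num)
  refine (cornS_of (C := cB101R) (C0 := c0F) (j := (0 : Fin 6)) (k := (3 : Fin 6)) (lo := 0) (hi := 2) (W := 67108864) (N0 := 1) cB101R_q (sideF hx hx') gokF X (by norm_num) (by norm_num) (l := (0 : Fin 6)) rfl
    (gatF01 x) (gatF31 x) (gatF00 x) ?_).altFB rfl hκ le_rfl
  intro ρ a B hρ hd i h1 h2
  fin_cases i
  · exact corT_cert (G1 := gF0q1) (G2 := gF3q1) (Ga := gF0q0) (Gb := gF1q0) cB101R_ok B hρ (gatF01 x) (gatF31 x) (fun _ => gatF00 x) (fun _ => gatF10 x) hd hx hx' CF.B101R_030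
  · exact corT_cert (G1 := gF0q1) (G2 := gF3q1) (Ga := gF1q0) (Gb := gF2q0) cB101R_ok B hρ (gatF01 x) (gatF31 x) (fun _ => gatF10 x) (fun _ => gatF20 x) hd hx hx' CF.B101R_031
  · exact corT_cert (G1 := gF0q1) (G2 := gF3q1) (Ga := gF2q0) (Gb := gF3q0) cB101R_ok B hρ (gatF01 x) (gatF31 x) (fun _ => gatF20 x) (fun h => absurd h (by decide)) hd hx hx' CF.B101R_032
  · exact absurd h2 (by norm_num)
  · exact absurd h2 (by norm_num)

theorem altF_B101R_04 {κ x : ℝ} (hκ : κ * h0 = ken x) (hx : ((134217728 : ℕ) : ℝ) / S ≤ x) (hx' : x ≤ (((134217728 : ℕ) : ℝ) + (67108864 : ℕ)) / S) :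
    AltB (VF κ) PP tKF tL pcF [⟨0, 1, 0, 67108864⟩, ⟨1, 0, 0, 67108864⟩, ⟨2, 1, 0, 67108864⟩] 1 0 1 0 4 (sgb false) (sgb false) x := by
  have X : XR 67108864 x := XR.of hx hx' (by norm_num) (by norm_num) (by norm_num) (by norm_num)
  refine (cornS_of (C := cB101R) (C0 := c0F) (j := (0 : Fin 6)) (k := (4 : Fin 6)) (lo := 0) (hi := 2) (W := 67108864) (N0 := 1) cB101R_q (sideF hx hx') gokF X (by norm_num) (by norm_num) (l := (0 : Fin 6)) rfl
    (gatF01 x) (gatF41 x) (gatF00 x) ?_).altFB rfl hκ le_rfl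
  intro ρ a B hρ hd i h1 h2
  fin_cases i
  · exact corT_cert (G1 := gF0q1) (G2 := gF4q1) (Ga := gF0q0) (Gb := gF1q0) cB101R_ok B hρ (gatF01 x) (gatF41 x) (fun _ => gatF00 x) (fun _ => gatF10 x) hd hx hx' CF.B101R_040
  · exact corT_cert (G1 := gF0q1) (G2 := gF4q1) (Ga := gF1q0) (Gb := gF2q0) cB101R_ok B hρ (gatF01 x) (gatF41 x) (fun _ => gatF10 x) (fun _ => gatF20 x) hd hx hx' CF.B101R_041
  · exact corT_cert (G1 := gF0q1) (G2 := gF4q1) (Ga := gF2q0) (Gb := gF3q0) cB101R_ok B hρ (gatF01 x) (gatF41 x) (fun _ => gatF20 x) (fun h => absurd h (by decide)) hd hx hx' CF.B101R_042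
  · exact absurd h2 (by norm_num)
  · exact absurd h2 (by norm_num)

theorem altF_B101R_05 {κ x : ℝ} (hκ : κ * h0 = ken x) (hx : ((134217728 : ℕ) : ℝ) / S ≤ x) (hx' : x ≤ (((134217728 : ℕ) : ℝ) + (67108864 : ℕ)) / S) :
    AltB (VF κ) PP tKF tL pcF [⟨0, 1, 0, 67108864⟩, ⟨1, 0, 0, 67108864⟩, ⟨2, 1, 0, 67108864⟩] 1 0 1 0 5 (sgb false) (sgb false) x := by
  have X : XR 67108864 x := XR.of hx hx' (by norm_num) (by norm_num) (by norm_num) (by norm_num)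
  refine (cornS_of (C := cB101R) (C0 := c0F) (j := (0 : Fin 6)) (k := (5 : Fin 6)) (lo := 0) (hi := 2) (W := 67108864) (N0 := 1) cB101R_q (sideF hx hx') gokF X (by norm_num) (by norm_num) (l := (0 : Fin 6)) rfl
    (gatF01 x) (gatF51 x) (gatF00 x) ?_).altFB rfl hκ le_rfl
  intro ρ a B hρ hd i h1 h2
  fin_cases i
  · exact corT_cert (G1 := gF0q1) (G2 := gF5q1) (Ga := gF0q0) (Gb := gF1q0) cB101R_ok B hρ (gatF01 x) (gatF51 x) (fun _ => gatF00 x) (fun _ => gatF10 x) hd hx hx' CF.B101R_050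
  · exact corT_cert (G1 := gF0q1) (G2 := gF5q1) (Ga := gF1q0) (Gb := gF2q0) cB101R_ok B hρ (gatF01 x) (gatF51 x) (fun _ => gatF10 x) (fun _ => gatF20 x) hd hx hx' CF.B101R_051
  · exact corT_cert (G1 := gF0q1) (G2 := gF5q1) (Ga := gF2q0) (Gb := gF3q0) cB101R_ok B hρ (gatF01 x) (gatF51 x) (fun _ => gatF20 x) (fun h => absurd h (by decide)) hd hx hx' CF.B101R_052
  · exact absurd h2 (by norm_num)
  · exact absurd h2 (by norm_num)

theorem altF_B102E_00 {κ x : ℝ} (hκ : κ * h0 = ken x) (hx : ((134217728 : ℕ) : ℝ) / S ≤ x) (hx' : x ≤ (((134217728 : ℕ) : ℝ) + (67108864 : ℕ)) / S) :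
    AltB (VF κ) PP tKF tL pcF [⟨0, 1, 0, 53687091⟩, ⟨1, 0, 0, 53687091⟩, ⟨2, 1, 0, 53687091⟩] 1 0 2 0 0 (sgb true) (sgb false) x := by
  have X : XR 53687091 x := XR.of hx hx' (by norm_num) (by norm_num) (by norm_num) (by norm_num)
  refine (cornS_of (C := cB102E) (C0 := c0F) (j := (0 : Fin 6)) (k := (0 : Fin 6)) (lo := 0) (hi := 2) (W := 53687091) (N0 := 1) cB102E_q (sideF hx hx') gokF X (by norm_num) (by norm_num) (l := (0 : Fin 6)) rfl
    (gatF01 x) (gatF02 x) (gatF00 x) ?_).altFB rfl hκ le_rfl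
  intro ρ a B hρ hd i h1 h2
  fin_cases i
  · exact corX_cert (G1 := gF0q1) (G2 := gF0q2) (Ga := gF0q0) (Gb := gF1q0) (GT := gF0q0) cB102E_ok tB102E_ok B hρ (gatF01 x) (gatF02 x) (fun _ => gatF00 x) (fun _ => gatF10 x) rfl (tgh_B102E (kodd x) (gpu1 x) (gpu2 x) (gpu0 x) (gatF01 x) (gatF02 x) (gatF00 x) B (le_sixteenth hd (by norm_num))) hd hx hx' CF.B102E_000
  · exact corT_cert (G1 := gF0q1) (G2 := gF0q2) (Ga := gF1q0) (Gb := gF2q0) cB102E_ok B hρ (gatF01 x) (gatF02 x) (fun _ => gatF10 x) (fun _ => gatF20 x) hd hx hx' CF.B102E_001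
  · exact corT_cert (G1 := gF0q1) (G2 := gF0q2) (Ga := gF2q0) (Gb := gF3q0) cB102E_ok B hρ (gatF01 x) (gatF02 x) (fun _ => gatF20 x) (fun h => absurd h (by decide)) hd hx hx' CF.B102E_002
  · exact absurd h2 (by norm_num)
  · exact absurd h2 (by norm_num)

theorem altF_B102E_01 {κ x : ℝ} (hκ : κ * h0 = ken x) (hx : ((134217728 : ℕ) : ℝ) / S ≤ x) (hx' : x ≤ (((134217728 : ℕ) : ℝ) + (67108864 : ℕ)) / S) :
    AltB (VF κ) PP tKF tL pcF [⟨0, 1, 0, 67108864⟩, ⟨1, 0, 0, 67108864⟩, ⟨2, 1, 0, 67108864⟩] 1 0 2 0 1 (sgb true) (sgb false) x := by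
  have X : XR 67108864 x := XR.of hx hx' (by norm_num) (by norm_num) (by norm_num) (by norm_num)
  refine (cornS_of (C := cB102E) (C0 := c0F) (j := (0 : Fin 6)) (k := (1 : Fin 6)) (lo := 0) (hi := 2) (W := 67108864) (N0 := 1) cB102E_q (sideF hx hx') gokF X (by norm_num) (by norm_num) (l := (0 : Fin 6)) rfl
    (gatF01 x) (gatF12 x) (gatF00 x) ?_).altFB rfl hκ le_rfl
  intro ρ a B hρ hd i h1 h2
  fin_cases i
  · exact corT_cert (G1 := gF0q1) (G2 := gF1q2) (Ga := gF0q0) (Gb := gF1q0) cB102E_ok B hρ (gatF01 x) (gatF12 x) (fun _ => gatF00 x) (fun _ => gatF10 x) hd hx hx' CF.B102E_010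
  · exact corT_cert (G1 := gF0q1) (G2 := gF1q2) (Ga := gF1q0) (Gb := gF2q0) cB102E_ok B hρ (gatF01 x) (gatF12 x) (fun _ => gatF10 x) (fun _ => gatF20 x) hd hx hx' CF.B102E_011
  · exact corT_cert (G1 := gF0q1) (G2 := gF1q2) (Ga := gF2q0) (Gb := gF3q0) cB102E_ok B hρ (gatF01 x) (gatF12 x) (fun _ => gatF20 x) (fun h => absurd h (by decide)) hd hx hx' CF.B102E_012
  · exact absurd h2 (by norm_num)
  · exact absurd h2 (by norm_num)

theorem altF_B102E_02 {κ x : ℝ} (hκ : κ * h0 = ken x) (hx : ((134217728 : ℕ) : ℝ) / S ≤ x) (hx' : x ≤ (((134217728 : ℕ) : ℝ) + (67108864 : ℕ)) / S) :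
    AltB (VF κ) PP tKF tL pcF [⟨0, 1, 0, 67108864⟩, ⟨1, 0, 0, 67108864⟩, ⟨2, 1, 0, 67108864⟩] 1 0 2 0 2 (sgb true) (sgb false) x := by
  have X : XR 67108864 x := XR.of hx hx' (by norm_num) (by norm_num) (by norm_num) (by norm_num)
  refine (cornS_of (C := cB102E) (C0 := c0F) (j := (0 : Fin 6)) (k := (2 : Fin 6)) (lo := 0) (hi := 2) (W := 67108864) (N0 := 1) cB102E_q (sideF hx hx') gokF X (by norm_num) (by norm_num) (l := (0 : Fin 6)) rfl
    (gatF01 x) (gatF22 x) (gatF00 x) ?_).altFB rfl hκ le_rfl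
  intro ρ a B hρ hd i h1 h2
  fin_cases i
  · exact corT_cert (G1 := gF0q1) (G2 := gF2q2) (Ga := gF0q0) (Gb := gF1q0) cB102E_ok B hρ (gatF01 x) (gatF22 x) (fun _ => gatF00 x) (fun _ => gatF10 x) hd hx hx' CF.B102E_020
  · exact corT_cert (G1 := gF0q1) (G2 := gF2q2) (Ga := gF1q0) (Gb := gF2q0) cB102E_ok B hρ (gatF01 x) (gatF22 x) (fun _ => gatF10 x) (fun _ => gatF20 x) hd hx hx' CF.B102E_021
  · exact corT_cert (G1 := gF0q1) (G2 := gF2q2) (Ga := gF2q0) (Gb := gF3q0) cB102E_ok B hρ (gatF01 x) (gatF22 x) (fun _ => gatF20 x) (fun h => absurd h (by decide)) hd hx hx' CF.B102E_022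
  · exact absurd h2 (by norm_num)
  · exact absurd h2 (by norm_num)

theorem altF_B102L_30 {κ x : ℝ} (hκ : κ * h0 = ken x) (hx : ((134217728 : ℕ) : ℝ) / S ≤ x) (hx' : x ≤ (((134217728 : ℕ) : ℝ) + (67108864 : ℕ)) / S) :
    AltB (VF κ) PP tKF tL pcF [⟨0, 1, 0, 67108864⟩, ⟨1, 0, 0, 67108864⟩, ⟨2, 1, 0, 67108864⟩] 1 0 2 3 0 (sgb true) (sgb true) x := by
  have X : XR 67108864 x := XR.of hx hx' (by norm_num) (by norm_num) (by norm_num) (by norm_num)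
  refine (cornS_of (C := cB102L) (C0 := c0F) (j := (3 : Fin 6)) (k := (0 : Fin 6)) (lo := 0) (hi := 2) (W := 67108864) (N0 := 1) cB102L_q (sideF hx hx') gokF X (by norm_num) (by norm_num) (l := (0 : Fin 6)) rfl
    (gatF31 x) (gatF02 x) (gatF00 x) ?_).altFB rfl hκ le_rfl
  intro ρ a B hρ hd i h1 h2
  fin_cases i
  · exact corT_cert (G1 := gF3q1) (G2 := gF0q2) (Ga := gF0q0) (Gb := gF1q0) cB102L_ok B hρ (gatF31 x) (gatF02 x) (fun _ => gatF00 x) (fun _ => gatF10 x) hd hx hx' CF.B102L_300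
  · exact corT_cert (G1 := gF3q1) (G2 := gF0q2) (Ga := gF1q0) (Gb := gF2q0) cB102L_ok B hρ (gatF31 x) (gatF02 x) (fun _ => gatF10 x) (fun _ => gatF20 x) hd hx hx' CF.B102L_301
  · exact corT_cert (G1 := gF3q1) (G2 := gF0q2) (Ga := gF2q0) (Gb := gF3q0) cB102L_ok B hρ (gatF31 x) (gatF02 x) (fun _ => gatF20 x) (fun h => absurd h (by decide)) hd hx hx' CF.B102L_302
  · exact absurd h2 (by norm_num)
  · exact absurd h2 (by norm_num)

theorem altF_B102L_31 {κ x : ℝ} (hκ : κ * h0 = ken x) (hx : ((134217728 : ℕ) : ℝ) / S ≤ x) (hx' : x ≤ (((134217728 : ℕ) : ℝ) + (67108864 : ℕ)) / S) :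
    AltB (VF κ) PP tKF tL pcF [⟨0, 1, 0, 67108864⟩, ⟨1, 0, 0, 67108864⟩, ⟨2, 1, 0, 67108864⟩] 1 0 2 3 1 (sgb true) (sgb true) x := by
  have X : XR 67108864 x := XR.of hx hx' (by norm_num) (by norm_num) (by norm_num) (by norm_num)
  refine (cornS_of (C := cB102L) (C0 := c0F) (j := (3 : Fin 6)) (k := (1 : Fin 6)) (lo := 0) (hi := 2) (W := 67108864) (N0 := 1) cB102L_q (sideF hx hx') gokF X (by norm_num) (by norm_num) (l := (0 : Fin 6)) rfl
    (gatF31 x) (gatF12 x) (gatF00 x) ?_).altFB rfl hκ le_rfl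
  intro ρ a B hρ hd i h1 h2
  fin_cases i
  · exact corT_cert (G1 := gF3q1) (G2 := gF1q2) (Ga := gF0q0) (Gb := gF1q0) cB102L_ok B hρ (gatF31 x) (gatF12 x) (fun _ => gatF00 x) (fun _ => gatF10 x) hd hx hx' CF.B102L_310
  · exact corT_cert (G1 := gF3q1) (G2 := gF1q2) (Ga := gF1q0) (Gb := gF2q0) cB102L_ok B hρ (gatF31 x) (gatF12 x) (fun _ => gatF10 x) (fun _ => gatF20 x) hd hx hx' CF.B102L_311
  · exact corT_cert (G1 := gF3q1) (G2 := gF1q2) (Ga := gF2q0) (Gb := gF3q0) cB102L_ok B hρ (gatF31 x) (gatF12 x) (fun _ => gatF20 x) (fun h => absurd h (by decide)) hd hx hx' CF.B102L_312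
  · exact absurd h2 (by norm_num)
  · exact absurd h2 (by norm_num)

theorem altF_B102L_32 {κ x : ℝ} (hκ : κ * h0 = ken x) (hx : ((134217728 : ℕ) : ℝ) / S ≤ x) (hx' : x ≤ (((134217728 : ℕ) : ℝ) + (67108864 : ℕ)) / S) :
    AltB (VF κ) PP tKF tL pcF [⟨0, 1, 0, 67108864⟩, ⟨1, 0, 0, 67108864⟩, ⟨2, 1, 0, 67108864⟩] 1 0 2 3 2 (sgb true) (sgb true) x := by
  have X : XR 67108864 x := XR.of hx hx' (by norm_num) (by norm_num) (by norm_num) (by norm_num)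
  refine (cornS_of (C := cB102L) (C0 := c0F) (j := (3 : Fin 6)) (k := (2 : Fin 6)) (lo := 0) (hi := 2) (W := 67108864) (N0 := 1) cB102L_q (sideF hx hx') gokF X (by norm_num) (by norm_num) (l := (0 : Fin 6)) rfl
    (gatF31 x) (gatF22 x) (gatF00 x) ?_).altFB rfl hκ le_rfl
  intro ρ a B hρ hd i h1 h2
  fin_cases i
  · exact corT_cert (G1 := gF3q1) (G2 := gF2q2) (Ga := gF0q0) (Gb := gF1q0) cB102L_ok B hρ (gatF31 x) (gatF22 x) (fun _ => gatF00 x) (fun _ => gatF10 x) hd hx hx' CF.B102L_320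
  · exact corT_cert (G1 := gF3q1) (G2 := gF2q2) (Ga := gF1q0) (Gb := gF2q0) cB102L_ok B hρ (gatF31 x) (gatF22 x) (fun _ => gatF10 x) (fun _ => gatF20 x) hd hx hx' CF.B102L_321
  · exact corT_cert (G1 := gF3q1) (G2 := gF2q2) (Ga := gF2q0) (Gb := gF3q0) cB102L_ok B hρ (gatF31 x) (gatF22 x) (fun _ => gatF20 x) (fun h => absurd h (by decide)) hd hx hx' CF.B102L_322
  · exact absurd h2 (by norm_num)
  · exact absurd h2 (by norm_num)

theorem altF_B102L_40 {κ x : ℝ} (hκ : κ * h0 = ken x) (hx : ((134217728 : ℕ) : ℝ) / S ≤ x) (hx' : x ≤ (((134217728 : ℕ) : ℝ) + (67108864 : ℕ)) / S) :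
    AltB (VF κ) PP tKF tL pcF [⟨0, 1, 0, 67108864⟩, ⟨1, 0, 0, 67108864⟩, ⟨2, 1, 0, 67108864⟩] 1 0 2 4 0 (sgb true) (sgb true) x := by
  have X : XR 67108864 x := XR.of hx hx' (by norm_num) (by norm_num) (by norm_num) (by norm_num)
  refine (cornS_of (C := cB102L) (C0 := c0F) (j := (4 : Fin 6)) (k := (0 : Fin 6)) (lo := 0) (hi := 2) (W := 67108864) (N0 := 1) cB102L_q (sideF hx hx') gokF X (by norm_num) (by norm_num) (l := (0 : Fin 6)) rfl
    (gatF41 x) (gatF02 x) (gatF00 x) ?_).altFB rfl hκ le_rfl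
  intro ρ a B hρ hd i h1 h2
  fin_cases i
  · exact corT_cert (G1 := gF4q1) (G2 := gF0q2) (Ga := gF0q0) (Gb := gF1q0) cB102L_ok B hρ (gatF41 x) (gatF02 x) (fun _ => gatF00 x) (fun _ => gatF10 x) hd hx hx' CF.B102L_400
  · exact corT_cert (G1 := gF4q1) (G2 := gF0q2) (Ga := gF1q0) (Gb := gF2q0) cB102L_ok B hρ (gatF41 x) (gatF02 x) (fun _ => gatF10 x) (fun _ => gatF20 x) hd hx hx' CF.B102L_401
  · exact corT_cert (G1 := gF4q1) (G2 := gF0q2) (Ga := gF2q0) (Gb := gF3q0) cB102L_ok B hρ (gatF41 x) (gatF02 x) (fun _ => gatF20 x) (fun h => absurd h (by decide)) hd hx hx' CF.B102L_402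
  · exact absurd h2 (by norm_num)
  · exact absurd h2 (by norm_num)

theorem altF_B102L_41 {κ x : ℝ} (hκ : κ * h0 = ken x) (hx : ((134217728 : ℕ) : ℝ) / S ≤ x) (hx' : x ≤ (((134217728 : ℕ) : ℝ) + (67108864 : ℕ)) / S) :
    AltB (VF κ) PP tKF tL pcF [⟨0, 1, 0, 67108864⟩, ⟨1, 0, 0, 67108864⟩, ⟨2, 1, 0, 67108864⟩] 1 0 2 4 1 (sgb true) (sgb true) x := by
  have X : XR 67108864 x := XR.of hx hx' (by norm_num) (by norm_num) (by norm_num) (by norm_num)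
  refine (cornS_of (C := cB102L) (C0 := c0F) (j := (4 : Fin 6)) (k := (1 : Fin 6)) (lo := 0) (hi := 2) (W := 67108864) (N0 := 1) cB102L_q (sideF hx hx') gokF X (by norm_num) (by norm_num) (l := (0 : Fin 6)) rfl
    (gatF41 x) (gatF12 x) (gatF00 x) ?_).altFB rfl hκ le_rfl
  intro ρ a B hρ hd i h1 h2
  fin_cases i
  · exact corT_cert (G1 := gF4q1) (G2 := gF1q2) (Ga := gF0q0) (Gb := gF1q0) cB102L_ok B hρ (gatF41 x) (gatF12 x) (fun _ => gatF00 x) (fun _ => gatF10 x) hd hx hx' CF.B102L_410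
  · exact corT_cert (G1 := gF4q1) (G2 := gF1q2) (Ga := gF1q0) (Gb := gF2q0) cB102L_ok B hρ (gatF41 x) (gatF12 x) (fun _ => gatF10 x) (fun _ => gatF20 x) hd hx hx' CF.B102L_411
  · exact corT_cert (G1 := gF4q1) (G2 := gF1q2) (Ga := gF2q0) (Gb := gF3q0) cB102L_ok B hρ (gatF41 x) (gatF12 x) (fun _ => gatF20 x) (fun h => absurd h (by decide)) hd hx hx' CF.B102L_412
  · exact absurd h2 (by norm_num)
  · exact absurd h2 (by norm_num)

theorem altF_B102L_42 {κ x : ℝ} (hκ : κ * h0 = ken x) (hx : ((134217728 : ℕ) : ℝ) / S ≤ x) (hx' : x ≤ (((134217728 : ℕ) : ℝ) + (67108864 : ℕ)) / S) :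
    AltB (VF κ) PP tKF tL pcF [⟨0, 1, 0, 67108864⟩, ⟨1, 0, 0, 67108864⟩, ⟨2, 1, 0, 67108864⟩] 1 0 2 4 2 (sgb true) (sgb true) x := by
  have X : XR 67108864 x := XR.of hx hx' (by norm_num) (by norm_num) (by norm_num) (by norm_num)
  refine (cornS_of (C := cB102L) (C0 := c0F) (j := (4 : Fin 6)) (k := (2 : Fin 6)) (lo := 0) (hi := 2) (W := 67108864) (N0 := 1) cB102L_q (sideF hx hx') gokF X (by norm_num) (by norm_num) (l := (0 : Fin 6)) rfl
    (gatF41 x) (gatF22 x) (gatF00 x) ?_).altFB rfl hκ le_rfl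
  intro ρ a B hρ hd i h1 h2
  fin_cases i
  · exact corT_cert (G1 := gF4q1) (G2 := gF2q2) (Ga := gF0q0) (Gb := gF1q0) cB102L_ok B hρ (gatF41 x) (gatF22 x) (fun _ => gatF00 x) (fun _ => gatF10 x) hd hx hx' CF.B102L_420
  · exact corT_cert (G1 := gF4q1) (G2 := gF2q2) (Ga := gF1q0) (Gb := gF2q0) cB102L_ok B hρ (gatF41 x) (gatF22 x) (fun _ => gatF10 x) (fun _ => gatF20 x) hd hx hx' CF.B102L_421
  · exact corT_cert (G1 := gF4q1) (G2 := gF2q2) (Ga := gF2q0) (Gb := gF3q0) cB102L_ok B hρ (gatF41 x) (gatF22 x) (fun _ => gatF20 x) (fun h => absurd h (by decide)) hd hx hx' CF.B102L_422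
  · exact absurd h2 (by norm_num)
  · exact absurd h2 (by norm_num)

theorem altF_B102L_50 {κ x : ℝ} (hκ : κ * h0 = ken x) (hx : ((134217728 : ℕ) : ℝ) / S ≤ x) (hx' : x ≤ (((134217728 : ℕ) : ℝ) + (67108864 : ℕ)) / S) :
    AltB (VF κ) PP tKF tL pcF [⟨0, 1, 0, 67108864⟩, ⟨1, 0, 0, 67108864⟩, ⟨2, 1, 0, 67108864⟩] 1 0 2 5 0 (sgb true) (sgb true) x := by
  have X : XR 67108864 x := XR.of hx hx' (by norm_num) (by norm_num) (by norm_num) (by norm_num)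
  refine (cornS_of (C := cB102L) (C0 := c0F) (j := (5 : Fin 6)) (k := (0 : Fin 6)) (lo := 0) (hi := 2) (W := 67108864) (N0 := 1) cB102L_q (sideF hx hx') gokF X (by norm_num) (by norm_num) (l := (0 : Fin 6)) rfl
    (gatF51 x) (gatF02 x) (gatF00 x) ?_).altFB rfl hκ le_rfl
  intro ρ a B hρ hd i h1 h2
  fin_cases i
  · exact corT_cert (G1 := gF5q1) (G2 := gF0q2) (Ga := gF0q0) (Gb := gF1q0) cB102L_ok B hρ (gatF51 x) (gatF02 x) (fun _ => gatF00 x) (fun _ => gatF10 x) hd hx hx' CF.B102L_500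
  · exact corT_cert (G1 := gF5q1) (G2 := gF0q2) (Ga := gF1q0) (Gb := gF2q0) cB102L_ok B hρ (gatF51 x) (gatF02 x) (fun _ => gatF10 x) (fun _ => gatF20 x) hd hx hx' CF.B102L_501
  · exact corT_cert (G1 := gF5q1) (G2 := gF0q2) (Ga := gF2q0) (Gb := gF3q0) cB102L_ok B hρ (gatF51 x) (gatF02 x) (fun _ => gatF20 x) (fun h => absurd h (by decide)) hd hx hx' CF.B102L_502
  · exact absurd h2 (by norm_num)
  · exact absurd h2 (by norm_num)

theorem altF_B102L_51 {κ x : ℝ} (hκ : κ * h0 = ken x) (hx : ((134217728 : ℕ) : ℝ) / S ≤ x) (hx' : x ≤ (((134217728 : ℕ) : ℝ) + (67108864 : ℕ)) / S) :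
    AltB (VF κ) PP tKF tL pcF [⟨0, 1, 0, 67108864⟩, ⟨1, 0, 0, 67108864⟩, ⟨2, 1, 0, 67108864⟩] 1 0 2 5 1 (sgb true) (sgb true) x := by
  have X : XR 67108864 x := XR.of hx hx' (by norm_num) (by norm_num) (by norm_num) (by norm_num)
  refine (cornS_of (C := cB102L) (C0 := c0F) (j := (5 : Fin 6)) (k := (1 : Fin 6)) (lo := 0) (hi := 2) (W := 67108864) (N0 := 1) cB102L_q (sideF hx hx') gokF X (by norm_num) (by norm_num) (l := (0 : Fin 6)) rfl
    (gatF51 x) (gatF12 x) (gatF00 x) ?_).altFB rfl hκ le_rfl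
  intro ρ a B hρ hd i h1 h2
  fin_cases i
  · exact corT_cert (G1 := gF5q1) (G2 := gF1q2) (Ga := gF0q0) (Gb := gF1q0) cB102L_ok B hρ (gatF51 x) (gatF12 x) (fun _ => gatF00 x) (fun _ => gatF10 x) hd hx hx' CF.B102L_510
  · exact corT_cert (G1 := gF5q1) (G2 := gF1q2) (Ga := gF1q0) (Gb := gF2q0) cB102L_ok B hρ (gatF51 x) (gatF12 x) (fun _ => gatF10 x) (fun _ => gatF20 x) hd hx hx' CF.B102L_511
  · exact corT_cert (G1 := gF5q1) (G2 := gF1q2) (Ga := gF2q0) (Gb := gF3q0) cB102L_ok B hρ (gatF51 x) (gatF12 x) (fun _ => gatF20 x) (fun h => absurd h (by decide)) hd hx hx' CF.B102L_512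
  · exact absurd h2 (by norm_num)
  · exact absurd h2 (by norm_num)

theorem altF_B102L_52 {κ x : ℝ} (hκ : κ * h0 = ken x) (hx : ((134217728 : ℕ) : ℝ) / S ≤ x) (hx' : x ≤ (((134217728 : ℕ) : ℝ) + (67108864 : ℕ)) / S) :
    AltB (VF κ) PP tKF tL pcF [⟨0, 1, 0, 67108864⟩, ⟨1, 0, 0, 67108864⟩, ⟨2, 1, 0, 67108864⟩] 1 0 2 5 2 (sgb true) (sgb true) x := by
  have X : XR 67108864 x := XR.of hx hx' (by norm_num) (by norm_num) (by norm_num) (by norm_num)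
  refine (cornS_of (C := cB102L) (C0 := c0F) (j := (5 : Fin 6)) (k := (2 : Fin 6)) (lo := 0) (hi := 2) (W := 67108864) (N0 := 1) cB102L_q (sideF hx hx') gokF X (by norm_num) (by norm_num) (l := (0 : Fin 6)) rfl
    (gatF51 x) (gatF22 x) (gatF00 x) ?_).altFB rfl hκ le_rfl
  intro ρ a B hρ hd i h1 h2
  fin_cases i
  · exact corT_cert (G1 := gF5q1) (G2 := gF2q2) (Ga := gF0q0) (Gb := gF1q0) cB102L_ok B hρ (gatF51 x) (gatF22 x) (fun _ => gatF00 x) (fun _ => gatF10 x) hd hx hx' CF.B102L_520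
  · exact corT_cert (G1 := gF5q1) (G2 := gF2q2) (Ga := gF1q0) (Gb := gF2q0) cB102L_ok B hρ (gatF51 x) (gatF22 x) (fun _ => gatF10 x) (fun _ => gatF20 x) hd hx hx' CF.B102L_521
  · exact corT_cert (G1 := gF5q1) (G2 := gF2q2) (Ga := gF2q0) (Gb := gF3q0) cB102L_ok B hρ (gatF51 x) (gatF22 x) (fun _ => gatF20 x) (fun h => absurd h (by decide)) hd hx hx' CF.B102L_522
  · exact absurd h2 (by norm_num)
  · exact absurd h2 (by norm_num)

theorem altF_B102R_05 {κ x : ℝ} (hκ : κ * h0 = ken x) (hx : ((134217728 : ℕ) : ℝ) / S ≤ x) (hx' : x ≤ (((134217728 : ℕ) : ℝ) + (67108864 : ℕ)) / S) :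
    AltB (VF κ) PP tKF tL pcF [⟨0, 1, 0, 67108864⟩, ⟨1, 0, 0, 67108864⟩, ⟨2, 1, 0, 67108864⟩] 1 0 2 0 5 (sgb false) (sgb false) x := by
  have X : XR 67108864 x := XR.of hx hx' (by norm_num) (by norm_num) (by norm_num) (by norm_num)
  refine (cornS_of (C := cB102R) (C0 := c0F) (j := (0 : Fin 6)) (k := (5 : Fin 6)) (lo := 0) (hi := 2) (W := 67108864) (N0 := 1) cB102R_q (sideF hx hx') gokF X (by norm_num) (by norm_num) (l := (0 : Fin 6)) rfl
    (gatF01 x) (gatF52 x) (gatF00 x) ?_).altFB rfl hκ le_rfl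
  intro ρ a B hρ hd i h1 h2
  fin_cases i
  · exact corT_cert (G1 := gF0q1) (G2 := gF5q2) (Ga := gF0q0) (Gb := gF1q0) cB102R_ok B hρ (gatF01 x) (gatF52 x) (fun _ => gatF00 x) (fun _ => gatF10 x) hd hx hx' CF.B102R_050
  · exact corT_cert (G1 := gF0q1) (G2 := gF5q2) (Ga := gF1q0) (Gb := gF2q0) cB102R_ok B hρ (gatF01 x) (gatF52 x) (fun _ => gatF10 x) (fun _ => gatF20 x) hd hx hx' CF.B102R_051
  · exact corT_cert (G1 := gF0q1) (G2 := gF5q2) (Ga := gF2q0) (Gb := gF3q0) cB102R_ok B hρ (gatF01 x) (gatF52 x) (fun _ => gatF20 x) (fun h => absurd h (by decide)) hd hx hx' CF.B102R_052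
  · exact absurd h2 (by norm_num)
  · exact absurd h2 (by norm_num)

theorem altF_B202E_00 {κ x : ℝ} (hκ : κ * h0 = ken x) (hx : ((134217728 : ℕ) : ℝ) / S ≤ x) (hx' : x ≤ (((134217728 : ℕ) : ℝ) + (67108864 : ℕ)) / S) :
    AltB (VF κ) PP tKF tL pcF [⟨0, 1, 0, 67108864⟩, ⟨1, 0, 0, 67108864⟩, ⟨2, 1, 0, 67108864⟩] 2 0 2 0 0 (sgb true) (sgb false) x := by
  have X : XR 67108864 x := XR.of hx hx' (by norm_num) (by norm_num) (by norm_num) (by norm_num)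
  refine (cornS_of (C := cB202E) (C0 := c0F) (j := (0 : Fin 6)) (k := (0 : Fin 6)) (lo := 0) (hi := 2) (W := 67108864) (N0 := 1) cB202E_q (sideF hx hx') gokF X (by norm_num) (by norm_num) (l := (0 : Fin 6)) rfl
    (gatF02 x) (gatF02 x) (gatF00 x) ?_).altFB rfl hκ le_rfl
  intro ρ a B hρ hd i h1 h2
  fin_cases i
  · exact corT_cert (G1 := gF0q2) (G2 := gF0q2) (Ga := gF0q0) (Gb := gF1q0) cB202E_ok B hρ (gatF02 x) (gatF02 x) (fun _ => gatF00 x) (fun _ => gatF10 x) hd hx hx' CF.B202E_000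
  · exact corT_cert (G1 := gF0q2) (G2 := gF0q2) (Ga := gF1q0) (Gb := gF2q0) cB202E_ok B hρ (gatF02 x) (gatF02 x) (fun _ => gatF10 x) (fun _ => gatF20 x) hd hx hx' CF.B202E_001
  · exact corT_cert (G1 := gF0q2) (G2 := gF0q2) (Ga := gF2q0) (Gb := gF3q0) cB202E_ok B hρ (gatF02 x) (gatF02 x) (fun _ => gatF20 x) (fun h => absurd h (by decide)) hd hx hx' CF.B202E_002
  · exact absurd h2 (by norm_num)
  · exact absurd h2 (by norm_num)

theorem altF_B202E_01 {κ x : ℝ} (hκ : κ * h0 = ken x) (hx : ((134217728 : ℕ) : ℝ) / S ≤ x) (hx' : x ≤ (((134217728 : ℕ) : ℝ) + (67108864 : ℕ)) / S) :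
    AltB (VF κ) PP tKF tL pcF [⟨0, 1, 0, 67108864⟩, ⟨1, 0, 0, 67108864⟩, ⟨2, 1, 0, 67108864⟩] 2 0 2 0 1 (sgb true) (sgb false) x := by
  have X : XR 67108864 x := XR.of hx hx' (by norm_num) (by norm_num) (by norm_num) (by norm_num)
  refine (cornS_of (C := cB202E) (C0 := c0F) (j := (0 : Fin 6)) (k := (1 : Fin 6)) (lo := 0) (hi := 2) (W := 67108864) (N0 := 1) cB202E_q (sideF hx hx') gokF X (by norm_num) (by norm_num) (l := (0 : Fin 6)) rfl
    (gatF02 x) (gatF12 x) (gatF00 x) ?_).altFB rfl hκ le_rfl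
  intro ρ a B hρ hd i h1 h2
  fin_cases i
  · exact corT_cert (G1 := gF0q2) (G2 := gF1q2) (Ga := gF0q0) (Gb := gF1q0) cB202E_ok B hρ (gatF02 x) (gatF12 x) (fun _ => gatF00 x) (fun _ => gatF10 x) hd hx hx' CF.B202E_010
  · exact corT_cert (G1 := gF0q2) (G2 := gF1q2) (Ga := gF1q0) (Gb := gF2q0) cB202E_ok B hρ (gatF02 x) (gatF12 x) (fun _ => gatF10 x) (fun _ => gatF20 x) hd hx hx' CF.B202E_011
  · exact corT_cert (G1 := gF0q2) (G2 := gF1q2) (Ga := gF2q0) (Gb := gF3q0) cB202E_ok B hρ (gatF02 x) (gatF12 x) (fun _ => gatF20 x) (fun h => absurd h (by decide)) hd hx hx' CF.B202E_012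
  · exact absurd h2 (by norm_num)
  · exact absurd h2 (by norm_num)

theorem altF_B202E_02 {κ x : ℝ} (hκ : κ * h0 = ken x) (hx : ((134217728 : ℕ) : ℝ) / S ≤ x) (hx' : x ≤ (((134217728 : ℕ) : ℝ) + (67108864 : ℕ)) / S) :
    AltB (VF κ) PP tKF tL pcF [⟨0, 1, 0, 67108864⟩, ⟨1, 0, 0, 67108864⟩, ⟨2, 1, 0, 67108864⟩] 2 0 2 0 2 (sgb true) (sgb false) x := by
  have X : XR 67108864 x := XR.of hx hx' (by norm_num) (by norm_num) (by norm_num) (by norm_num)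
  refine (cornS_of (C := cB202E) (C0 := c0F) (j := (0 : Fin 6)) (k := (2 : Fin 6)) (lo := 0) (hi := 2) (W := 67108864) (N0 := 1) cB202E_q (sideF hx hx') gokF X (by norm_num) (by norm_num) (l := (0 : Fin 6)) rfl
    (gatF02 x) (gatF22 x) (gatF00 x) ?_).altFB rfl hκ le_rfl
  intro ρ a B hρ hd i h1 h2
  fin_cases i
  · exact corT_cert (G1 := gF0q2) (G2 := gF2q2) (Ga := gF0q0) (Gb := gF1q0) cB202E_ok B hρ (gatF02 x) (gatF22 x) (fun _ => gatF00 x) (fun _ => gatF10 x) hd hx hx' CF.B202E_020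
  · exact corT_cert (G1 := gF0q2) (G2 := gF2q2) (Ga := gF1q0) (Gb := gF2q0) cB202E_ok B hρ (gatF02 x) (gatF22 x) (fun _ => gatF10 x) (fun _ => gatF20 x) hd hx hx' CF.B202E_021
  · exact corT_cert (G1 := gF0q2) (G2 := gF2q2) (Ga := gF2q0) (Gb := gF3q0) cB202E_ok B hρ (gatF02 x) (gatF22 x) (fun _ => gatF20 x) (fun h => absurd h (by decide)) hd hx hx' CF.B202E_022
  · exact absurd h2 (by norm_num)
  · exact absurd h2 (by norm_num)

theorem altF_B202E_10 {κ x : ℝ} (hκ : κ * h0 = ken x) (hx : ((134217728 : ℕ) : ℝ) / S ≤ x) (hx' : x ≤ (((134217728 : ℕ) : ℝ) + (67108864 : ℕ)) / S) :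
    AltB (VF κ) PP tKF tL pcF [⟨0, 1, 0, 67108864⟩, ⟨1, 0, 0, 67108864⟩, ⟨2, 1, 0, 67108864⟩] 2 0 2 1 0 (sgb true) (sgb false) x := by
  have X : XR 67108864 x := XR.of hx hx' (by norm_num) (by norm_num) (by norm_num) (by norm_num)
  refine (cornS_of (C := cB202E) (C0 := c0F) (j := (1 : Fin 6)) (k := (0 : Fin 6)) (lo := 0) (hi := 2) (W := 67108864) (N0 := 1) cB202E_q (sideF hx hx') gokF X (by norm_num) (by norm_num) (l := (0 : Fin 6)) rfl
    (gatF12 x) (gatF02 x) (gatF00 x) ?_).altFB rfl hκ le_rfl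
  intro ρ a B hρ hd i h1 h2
  fin_cases i
  · exact corT_cert (G1 := gF1q2) (G2 := gF0q2) (Ga := gF0q0) (Gb := gF1q0) cB202E_ok B hρ (gatF12 x) (gatF02 x) (fun _ => gatF00 x) (fun _ => gatF10 x) hd hx hx' CF.B202E_100
  · exact corT_cert (G1 := gF1q2) (G2 := gF0q2) (Ga := gF1q0) (Gb := gF2q0) cB202E_ok B hρ (gatF12 x) (gatF02 x) (fun _ => gatF10 x) (fun _ => gatF20 x) hd hx hx' CF.B202E_101
  · exact corT_cert (G1 := gF1q2) (G2 := gF0q2) (Ga := gF2q0) (Gb := gF3q0) cB202E_ok B hρ (gatF12 x) (gatF02 x) (fun _ => gatF20 x) (fun h => absurd h (by decide)) hd hx hx' CF.B202E_102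
  · exact absurd h2 (by norm_num)
  · exact absurd h2 (by norm_num)

theorem altF_B202E_11 {κ x : ℝ} (hκ : κ * h0 = ken x) (hx : ((134217728 : ℕ) : ℝ) / S ≤ x) (hx' : x ≤ (((134217728 : ℕ) : ℝ) + (67108864 : ℕ)) / S) :
    AltB (VF κ) PP tKF tL pcF [⟨0, 1, 0, 67108864⟩, ⟨1, 0, 0, 67108864⟩, ⟨2, 1, 0, 67108864⟩] 2 0 2 1 1 (sgb true) (sgb false) x := by
  have X : XR 67108864 x := XR.of hx hx' (by norm_num) (by norm_num) (by norm_num) (by norm_num)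
  refine (cornS_of (C := cB202E) (C0 := c0F) (j := (1 : Fin 6)) (k := (1 : Fin 6)) (lo := 0) (hi := 2) (W := 67108864) (N0 := 1) cB202E_q (sideF hx hx') gokF X (by norm_num) (by norm_num) (l := (0 : Fin 6)) rfl
    (gatF12 x) (gatF12 x) (gatF00 x) ?_).altFB rfl hκ le_rfl
  intro ρ a B hρ hd i h1 h2
  fin_cases i
  · exact corT_cert (G1 := gF1q2) (G2 := gF1q2) (Ga := gF0q0) (Gb := gF1q0) cB202E_ok B hρ (gatF12 x) (gatF12 x) (fun _ => gatF00 x) (fun _ => gatF10 x) hd hx hx' CF.B202E_110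
  · exact corT_cert (G1 := gF1q2) (G2 := gF1q2) (Ga := gF1q0) (Gb := gF2q0) cB202E_ok B hρ (gatF12 x) (gatF12 x) (fun _ => gatF10 x) (fun _ => gatF20 x) hd hx hx' CF.B202E_111
  · exact corT_cert (G1 := gF1q2) (G2 := gF1q2) (Ga := gF2q0) (Gb := gF3q0) cB202E_ok B hρ (gatF12 x) (gatF12 x) (fun _ => gatF20 x) (fun h => absurd h (by decide)) hd hx hx' CF.B202E_112
  · exact absurd h2 (by norm_num)
  · exact absurd h2 (by norm_num)

theorem altF_B202E_12 {κ x : ℝ} (hκ : κ * h0 = ken x) (hx : ((134217728 : ℕ) : ℝ) / S ≤ x) (hx' : x ≤ (((134217728 : ℕ) : ℝ) + (67108864 : ℕ)) / S) :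
    AltB (VF κ) PP tKF tL pcF [⟨0, 1, 0, 67108864⟩, ⟨1, 0, 0, 67108864⟩, ⟨2, 1, 0, 67108864⟩] 2 0 2 1 2 (sgb true) (sgb false) x := by
  have X : XR 67108864 x := XR.of hx hx' (by norm_num) (by norm_num) (by norm_num) (by norm_num)
  refine (cornS_of (C := cB202E) (C0 := c0F) (j := (1 : Fin 6)) (k := (2 : Fin 6)) (lo := 0) (hi := 2) (W := 67108864) (N0 := 1) cB202E_q (sideF hx hx') gokF X (by norm_num) (by norm_num) (l := (0 : Fin 6)) rfl
    (gatF12 x) (gatF22 x) (gatF00 x) ?_).altFB rfl hκ le_rfl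
  intro ρ a B hρ hd i h1 h2
  fin_cases i
  · exact corT_cert (G1 := gF1q2) (G2 := gF2q2) (Ga := gF0q0) (Gb := gF1q0) cB202E_ok B hρ (gatF12 x) (gatF22 x) (fun _ => gatF00 x) (fun _ => gatF10 x) hd hx hx' CF.B202E_120
  · exact corT_cert (G1 := gF1q2) (G2 := gF2q2) (Ga := gF1q0) (Gb := gF2q0) cB202E_ok B hρ (gatF12 x) (gatF22 x) (fun _ => gatF10 x) (fun _ => gatF20 x) hd hx hx' CF.B202E_121
  · exact corT_cert (G1 := gF1q2) (G2 := gF2q2) (Ga := gF2q0) (Gb := gF3q0) cB202E_ok B hρ (gatF12 x) (gatF22 x) (fun _ => gatF20 x) (fun h => absurd h (by decide)) hd hx hx' CF.B202E_122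
  · exact absurd h2 (by norm_num)
  · exact absurd h2 (by norm_num)

theorem altF_B202E_20 {κ x : ℝ} (hκ : κ * h0 = ken x) (hx : ((134217728 : ℕ) : ℝ) / S ≤ x) (hx' : x ≤ (((134217728 : ℕ) : ℝ) + (67108864 : ℕ)) / S) :
    AltB (VF κ) PP tKF tL pcF [⟨0, 1, 0, 67108864⟩, ⟨1, 0, 0, 67108864⟩, ⟨2, 1, 0, 67108864⟩] 2 0 2 2 0 (sgb true) (sgb false) x := by
  have X : XR 67108864 x := XR.of hx hx' (by norm_num) (by norm_num) (by norm_num) (by norm_num)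
  refine (cornS_of (C := cB202E) (C0 := c0F) (j := (2 : Fin 6)) (k := (0 : Fin 6)) (lo := 0) (hi := 2) (W := 67108864) (N0 := 1) cB202E_q (sideF hx hx') gokF X (by norm_num) (by norm_num) (l := (0 : Fin 6)) rfl
    (gatF22 x) (gatF02 x) (gatF00 x) ?_).altFB rfl hκ le_rfl
  intro ρ a B hρ hd i h1 h2
  fin_cases i
  · exact corT_cert (G1 := gF2q2) (G2 := gF0q2) (Ga := gF0q0) (Gb := gF1q0) cB202E_ok B hρ (gatF22 x) (gatF02 x) (fun _ => gatF00 x) (fun _ => gatF10 x) hd hx hx' CF.B202E_200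
  · exact corT_cert (G1 := gF2q2) (G2 := gF0q2) (Ga := gF1q0) (Gb := gF2q0) cB202E_ok B hρ (gatF22 x) (gatF02 x) (fun _ => gatF10 x) (fun _ => gatF20 x) hd hx hx' CF.B202E_201
  · exact corT_cert (G1 := gF2q2) (G2 := gF0q2) (Ga := gF2q0) (Gb := gF3q0) cB202E_ok B hρ (gatF22 x) (gatF02 x) (fun _ => gatF20 x) (fun h => absurd h (by decide)) hd hx hx' CF.B202E_202
  · exact absurd h2 (by norm_num)
  · exact absurd h2 (by norm_num)

theorem altF_B202E_21 {κ x : ℝ} (hκ : κ * h0 = ken x) (hx : ((134217728 : ℕ) : ℝ) / S ≤ x) (hx' : x ≤ (((134217728 : ℕ) : ℝ) + (67108864 : ℕ)) / S) :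
    AltB (VF κ) PP tKF tL pcF [⟨0, 1, 0, 67108864⟩, ⟨1, 0, 0, 67108864⟩, ⟨2, 1, 0, 67108864⟩] 2 0 2 2 1 (sgb true) (sgb false) x := by
  have X : XR 67108864 x := XR.of hx hx' (by norm_num) (by norm_num) (by norm_num) (by norm_num)
  refine (cornS_of (C := cB202E) (C0 := c0F) (j := (2 : Fin 6)) (k := (1 : Fin 6)) (lo := 0) (hi := 2) (W := 67108864) (N0 := 1) cB202E_q (sideF hx hx') gokF X (by norm_num) (by norm_num) (l := (0 : Fin 6)) rfl
    (gatF22 x) (gatF12 x) (gatF00 x) ?_).altFB rfl hκ le_rfl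
  intro ρ a B hρ hd i h1 h2
  fin_cases i
  · exact corT_cert (G1 := gF2q2) (G2 := gF1q2) (Ga := gF0q0) (Gb := gF1q0) cB202E_ok B hρ (gatF22 x) (gatF12 x) (fun _ => gatF00 x) (fun _ => gatF10 x) hd hx hx' CF.B202E_210
  · exact corT_cert (G1 := gF2q2) (G2 := gF1q2) (Ga := gF1q0) (Gb := gF2q0) cB202E_ok B hρ (gatF22 x) (gatF12 x) (fun _ => gatF10 x) (fun _ => gatF20 x) hd hx hx' CF.B202E_211
  · exact corT_cert (G1 := gF2q2) (G2 := gF1q2) (Ga := gF2q0) (Gb := gF3q0) cB202E_ok B hρ (gatF22 x) (gatF12 x) (fun _ => gatF20 x) (fun h => absurd h (by decide)) hd hx hx' CF.B202E_212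
  · exact absurd h2 (by norm_num)
  · exact absurd h2 (by norm_num)

theorem altF_B202E_22 {κ x : ℝ} (hκ : κ * h0 = ken x) (hx : ((134217728 : ℕ) : ℝ) / S ≤ x) (hx' : x ≤ (((134217728 : ℕ) : ℝ) + (67108864 : ℕ)) / S) :
    AltB (VF κ) PP tKF tL pcF [⟨0, 1, 0, 67108864⟩, ⟨1, 0, 0, 67108864⟩, ⟨2, 1, 0, 67108864⟩] 2 0 2 2 2 (sgb true) (sgb false) x := by
  have X : XR 67108864 x := XR.of hx hx' (by norm_num) (by norm_num) (by norm_num) (by norm_num)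
  refine (cornS_of (C := cB202E) (C0 := c0F) (j := (2 : Fin 6)) (k := (2 : Fin 6)) (lo := 0) (hi := 2) (W := 67108864) (N0 := 1) cB202E_q (sideF hx hx') gokF X (by norm_num) (by norm_num) (l := (0 : Fin 6)) rfl
    (gatF22 x) (gatF22 x) (gatF00 x) ?_).altFB rfl hκ le_rfl
  intro ρ a B hρ hd i h1 h2
  fin_cases i
  · exact corT_cert (G1 := gF2q2) (G2 := gF2q2) (Ga := gF0q0) (Gb := gF1q0) cB202E_ok B hρ (gatF22 x) (gatF22 x) (fun _ => gatF00 x) (fun _ => gatF10 x) hd hx hx' CF.B202E_220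
  · exact corT_cert (G1 := gF2q2) (G2 := gF2q2) (Ga := gF1q0) (Gb := gF2q0) cB202E_ok B hρ (gatF22 x) (gatF22 x) (fun _ => gatF10 x) (fun _ => gatF20 x) hd hx hx' CF.B202E_221
  · exact corT_cert (G1 := gF2q2) (G2 := gF2q2) (Ga := gF2q0) (Gb := gF3q0) cB202E_ok B hρ (gatF22 x) (gatF22 x) (fun _ => gatF20 x) (fun h => absurd h (by decide)) hd hx hx' CF.B202E_222
  · exact absurd h2 (by norm_num)
  · exact absurd h2 (by norm_num)

theorem altF_B202L_50 {κ x : ℝ} (hκ : κ * h0 = ken x) (hx : ((134217728 : ℕ) : ℝ) / S ≤ x) (hx' : x ≤ (((134217728 : ℕ) : ℝ) + (67108864 : ℕ)) / S) :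
    AltB (VF κ) PP tKF tL pcF [⟨0, 1, 0, 67108864⟩, ⟨1, 0, 0, 67108864⟩, ⟨2, 1, 0, 67108864⟩] 2 0 2 5 0 (sgb true) (sgb true) x := by
  have X : XR 67108864 x := XR.of hx hx' (by norm_num) (by norm_num) (by norm_num) (by norm_num)
  refine (cornS_of (C := cB202L) (C0 := c0F) (j := (5 : Fin 6)) (k := (0 : Fin 6)) (lo := 0) (hi := 2) (W := 67108864) (N0 := 1) cB202L_q (sideF hx hx') gokF X (by norm_num) (by norm_num) (l := (0 : Fin 6)) rfl
    (gatF52 x) (gatF02 x) (gatF00 x) ?_).altFB rfl hκ le_rfl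
  intro ρ a B hρ hd i h1 h2
  fin_cases i
  · exact corT_cert (G1 := gF5q2) (G2 := gF0q2) (Ga := gF0q0) (Gb := gF1q0) cB202L_ok B hρ (gatF52 x) (gatF02 x) (fun _ => gatF00 x) (fun _ => gatF10 x) hd hx hx' CF.B202L_500
  · exact corT_cert (G1 := gF5q2) (G2 := gF0q2) (Ga := gF1q0) (Gb := gF2q0) cB202L_ok B hρ (gatF52 x) (gatF02 x) (fun _ => gatF10 x) (fun _ => gatF20 x) hd hx hx' CF.B202L_501
  · exact corT_cert (G1 := gF5q2) (G2 := gF0q2) (Ga := gF2q0) (Gb := gF3q0) cB202L_ok B hρ (gatF52 x) (gatF02 x) (fun _ => gatF20 x) (fun h => absurd h (by decide)) hd hx hx' CF.B202L_502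
  · exact absurd h2 (by norm_num)
  · exact absurd h2 (by norm_num)

theorem altF_B202L_51 {κ x : ℝ} (hκ : κ * h0 = ken x) (hx : ((134217728 : ℕ) : ℝ) / S ≤ x) (hx' : x ≤ (((134217728 : ℕ) : ℝ) + (67108864 : ℕ)) / S) :
    AltB (VF κ) PP tKF tL pcF [⟨0, 1, 0, 67108864⟩, ⟨1, 0, 0, 67108864⟩, ⟨2, 1, 0, 67108864⟩] 2 0 2 5 1 (sgb true) (sgb true) x := by
  have X : XR 67108864 x := XR.of hx hx' (by norm_num) (by norm_num) (by norm_num) (by norm_num)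
  refine (cornS_of (C := cB202L) (C0 := c0F) (j := (5 : Fin 6)) (k := (1 : Fin 6)) (lo := 0) (hi := 2) (W := 67108864) (N0 := 1) cB202L_q (sideF hx hx') gokF X (by norm_num) (by norm_num) (l := (0 : Fin 6)) rfl
    (gatF52 x) (gatF12 x) (gatF00 x) ?_).altFB rfl hκ le_rfl
  intro ρ a B hρ hd i h1 h2
  fin_cases i
  · exact corT_cert (G1 := gF5q2) (G2 := gF1q2) (Ga := gF0q0) (Gb := gF1q0) cB202L_ok B hρ (gatF52 x) (gatF12 x) (fun _ => gatF00 x) (fun _ => gatF10 x) hd hx hx' CF.B202L_510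
  · exact corT_cert (G1 := gF5q2) (G2 := gF1q2) (Ga := gF1q0) (Gb := gF2q0) cB202L_ok B hρ (gatF52 x) (gatF12 x) (fun _ => gatF10 x) (fun _ => gatF20 x) hd hx hx' CF.B202L_511
  · exact corT_cert (G1 := gF5q2) (G2 := gF1q2) (Ga := gF2q0) (Gb := gF3q0) cB202L_ok B hρ (gatF52 x) (gatF12 x) (fun _ => gatF20 x) (fun h => absurd h (by decide)) hd hx hx' CF.B202L_512
  · exact absurd h2 (by norm_num)
  · exact absurd h2 (by norm_num)

theorem altF_B202L_52 {κ x : ℝ} (hκ : κ * h0 = ken x) (hx : ((134217728 : ℕ) : ℝ) / S ≤ x) (hx' : x ≤ (((134217728 : ℕ) : ℝ) + (67108864 : ℕ)) / S) :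
    AltB (VF κ) PP tKF tL pcF [⟨0, 1, 0, 67108864⟩, ⟨1, 0, 0, 67108864⟩, ⟨2, 1, 0, 67108864⟩] 2 0 2 5 2 (sgb true) (sgb true) x := by
  have X : XR 67108864 x := XR.of hx hx' (by norm_num) (by norm_num) (by norm_num) (by norm_num)
  refine (cornS_of (C := cB202L) (C0 := c0F) (j := (5 : Fin 6)) (k := (2 : Fin 6)) (lo := 0) (hi := 2) (W := 67108864) (N0 := 1) cB202L_q (sideF hx hx') gokF X (by norm_num) (by norm_num) (l := (0 : Fin 6)) rfl
    (gatF52 x) (gatF22 x) (gatF00 x) ?_).altFB rfl hκ le_rfl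
  intro ρ a B hρ hd i h1 h2
  fin_cases i
  · exact corT_cert (G1 := gF5q2) (G2 := gF2q2) (Ga := gF0q0) (Gb := gF1q0) cB202L_ok B hρ (gatF52 x) (gatF22 x) (fun _ => gatF00 x) (fun _ => gatF10 x) hd hx hx' CF.B202L_520
  · exact corT_cert (G1 := gF5q2) (G2 := gF2q2) (Ga := gF1q0) (Gb := gF2q0) cB202L_ok B hρ (gatF52 x) (gatF22 x) (fun _ => gatF10 x) (fun _ => gatF20 x) hd hx hx' CF.B202L_521
  · exact corT_cert (G1 := gF5q2) (G2 := gF2q2) (Ga := gF2q0) (Gb := gF3q0) cB202L_ok B hρ (gatF52 x) (gatF22 x) (fun _ => gatF20 x) (fun h => absurd h (by decide)) hd hx hx' CF.B202L_522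
  · exact absurd h2 (by norm_num)
  · exact absurd h2 (by norm_num)

theorem altF_B202R_05 {κ x : ℝ} (hκ : κ * h0 = ken x) (hx : ((134217728 : ℕ) : ℝ) / S ≤ x) (hx' : x ≤ (((134217728 : ℕ) : ℝ) + (67108864 : ℕ)) / S) :
    AltB (VF κ) PP tKF tL pcF [⟨0, 1, 0, 67108864⟩, ⟨1, 0, 0, 67108864⟩, ⟨2, 1, 0, 67108864⟩] 2 0 2 0 5 (sgb false) (sgb false) x := by
  have X : XR 67108864 x := XR.of hx hx' (by norm_num) (by norm_num) (by norm_num) (by norm_num)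
  refine (cornS_of (C := cB202R) (C0 := c0F) (j := (0 : Fin 6)) (k := (5 : Fin 6)) (lo := 0) (hi := 2) (W := 67108864) (N0 := 1) cB202R_q (sideF hx hx') gokF X (by norm_num) (by norm_num) (l := (0 : Fin 6)) rfl
    (gatF02 x) (gatF52 x) (gatF00 x) ?_).altFB rfl hκ le_rfl
  intro ρ a B hρ hd i h1 h2
  fin_cases i
  · exact corX_cert (G1 := gF0q2) (G2 := gF5q2) (Ga := gF0q0) (Gb := gF1q0) (GT := gF0q0) cB202R_ok tB202R_ok B hρ (gatF02 x) (gatF52 x) (fun _ => gatF00 x) (fun _ => gatF10 x) rfl (tgh_B202R (kodd x) (gpu2 x) (gpt2 x) (gpu0 x) (gatF02 x) (gatF52 x) (gatF00 x) B (le_sixteenth hd (by norm_num))) hd hx hx' CF.B202R_050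
  · exact corT_cert (G1 := gF0q2) (G2 := gF5q2) (Ga := gF1q0) (Gb := gF2q0) cB202R_ok B hρ (gatF02 x) (gatF52 x) (fun _ => gatF10 x) (fun _ => gatF20 x) hd hx hx' CF.B202R_051
  · exact corT_cert (G1 := gF0q2) (G2 := gF5q2) (Ga := gF2q0) (Gb := gF3q0) cB202R_ok B hρ (gatF02 x) (gatF52 x) (fun _ => gatF20 x) (fun h => absurd h (by decide)) hd hx hx' CF.B202R_052
  · exact absurd h2 (by norm_num)
  · exact absurd h2 (by norm_num)

theorem altF_B202R_15 {κ x : ℝ} (hκ : κ * h0 = ken x) (hx : ((134217728 : ℕ) : ℝ) / S ≤ x) (hx' : x ≤ (((134217728 : ℕ) : ℝ) + (67108864 : ℕ)) / S) :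
    AltB (VF κ) PP tKF tL pcF [⟨0, 1, 0, 67108864⟩, ⟨1, 0, 0, 67108864⟩, ⟨2, 1, 0, 67108864⟩] 2 0 2 1 5 (sgb false) (sgb false) x := by
  have X : XR 67108864 x := XR.of hx hx' (by norm_num) (by norm_num) (by norm_num) (by norm_num)
  refine (cornS_of (C := cB202R) (C0 := c0F) (j := (1 : Fin 6)) (k := (5 : Fin 6)) (lo := 0) (hi := 2) (W := 67108864) (N0 := 1) cB202R_q (sideF hx hx') gokF X (by norm_num) (by norm_num) (l := (0 : Fin 6)) rfl
    (gatF12 x) (gatF52 x) (gatF00 x) ?_).altFB rfl hκ le_rfl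
  intro ρ a B hρ hd i h1 h2
  fin_cases i
  · exact corT_cert (G1 := gF1q2) (G2 := gF5q2) (Ga := gF0q0) (Gb := gF1q0) cB202R_ok B hρ (gatF12 x) (gatF52 x) (fun _ => gatF00 x) (fun _ => gatF10 x) hd hx hx' CF.B202R_150
  · exact corT_cert (G1 := gF1q2) (G2 := gF5q2) (Ga := gF1q0) (Gb := gF2q0) cB202R_ok B hρ (gatF12 x) (gatF52 x) (fun _ => gatF10 x) (fun _ => gatF20 x) hd hx hx' CF.B202R_151
  · exact corT_cert (G1 := gF1q2) (G2 := gF5q2) (Ga := gF2q0) (Gb := gF3q0) cB202R_ok B hρ (gatF12 x) (gatF52 x) (fun _ => gatF20 x) (fun h => absurd h (by decide)) hd hx hx' CF.B202R_152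
  · exact absurd h2 (by norm_num)
  · exact absurd h2 (by norm_num)

theorem altF_B202R_25 {κ x : ℝ} (hκ : κ * h0 = ken x) (hx : ((134217728 : ℕ) : ℝ) / S ≤ x) (hx' : x ≤ (((134217728 : ℕ) : ℝ) + (67108864 : ℕ)) / S) :
    AltB (VF κ) PP tKF tL pcF [⟨0, 1, 0, 67108864⟩, ⟨1, 0, 0, 67108864⟩, ⟨2, 1, 0, 67108864⟩] 2 0 2 2 5 (sgb false) (sgb false) x := by
  have X : XR 67108864 x := XR.of hx hx' (by norm_num) (by norm_num) (by norm_num) (by norm_num)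
  refine (cornS_of (C := cB202R) (C0 := c0F) (j := (2 : Fin 6)) (k := (5 : Fin 6)) (lo := 0) (hi := 2) (W := 67108864) (N0 := 1) cB202R_q (sideF hx hx') gokF X (by norm_num) (by norm_num) (l := (0 : Fin 6)) rfl
    (gatF22 x) (gatF52 x) (gatF00 x) ?_).altFB rfl hκ le_rfl
  intro ρ a B hρ hd i h1 h2
  fin_cases i
  · exact corT_cert (G1 := gF2q2) (G2 := gF5q2) (Ga := gF0q0) (Gb := gF1q0) cB202R_ok B hρ (gatF22 x) (gatF52 x) (fun _ => gatF00 x) (fun _ => gatF10 x) hd hx hx' CF.B202R_250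
  · exact corT_cert (G1 := gF2q2) (G2 := gF5q2) (Ga := gF1q0) (Gb := gF2q0) cB202R_ok B hρ (gatF22 x) (gatF52 x) (fun _ => gatF10 x) (fun _ => gatF20 x) hd hx hx' CF.B202R_251
  · exact corT_cert (G1 := gF2q2) (G2 := gF5q2) (Ga := gF2q0) (Gb := gF3q0) cB202R_ok B hρ (gatF22 x) (gatF52 x) (fun _ => gatF20 x) (fun h => absurd h (by decide)) hd hx hx' CF.B202R_252
  · exact absurd h2 (by norm_num)
  · exact absurd h2 (by norm_num)

end Pool.Agent.Strip051.G.I1_8_3_16.Tab
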