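import Pool.Agent.Strip051.G.I1_8_3_16.Tab

/-! # Certificates F10 (generated) -/

set_option linter.all false
set_option maxRecDepth 100000

namespace Pool.Agent.Strip051.G.I1_8_3_16.Tab.C.FB15

open Pool.Agent.Strip051.PB Pool.Agent.Strip051.PB.T
open Pool.Agent.Strip051.G.I1_8_3_16.Tab

noncomputable def cut_pp_022 : Cut := Cut.of [[⟨0, 0, 0, 67108864⟩, ⟨1, 1, 0, 67108864⟩, ⟨2, 1, 0, 67108864⟩]]

noncomputable def f_pp_022 : ℕ → ℕ → ℕ → ℕ → Bool := onCell 0 536870912 1073741824 536870912 134217728 67108864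
    (rowF 1 false true true .pp 0 2 2 (qsf 0 536870912 1073741824 536870912 2) ndF1q0 ndF5q2 pcF2 cut_pp_022 Ext.none)

def k0_pp_022 : ∃ t, chk3 f_pp_022 t 4 4 1 = true :=
  ⟨(b (a (b (a (b (l 6) (a (l 6) (a (l 6) (l 16810820247)))) (l 3)) (a (b (a (a (l 6) (a (l 6) (l 16742136))) (a (a (l 16743080) (l 16746152)) (l 16753224))) (a (a (a (c (c (l 16704296) (l 16703680)) (l 16702728)) (c (l 16707280) (l 16706032))) (c (l 16712408) (l 16711176))) (a (l 16717024) (l 16702360)))) (a (b (l 71034697575) (l 16731272)) (c (l 16818472) (l 16818208))))) (b (l 3) (a (b (l 3) (l 3)) (l 3)))) (a (b (a (a (a (c (b (a (l 16677264) (l 16659736)) (l 16652368)) (b (a (l 16654536) (l 16657952)) (l 16650024))) (c (b (l 16664736) (l 16638344)) (l 16690936))) (b (a (l 16691328) (l 16696336)) (a (l 16643672) (l 16649784)))) (b (a (l 16683496) (l 16692928)) (a (l 16656416) (l 16665864)))) (a (a (a (c (b (l 16604872) (l 16578312)) (l 16632200)) (c (l 16618824) (l 16615168))) (b (l 16640728)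 (l 16592384))) (b (a (l 16609800) (l 16639248)) (a (l 16604872) (l 16800272))))) (b (a (b (l 16717928) (l 16728744)) (b (l 3) (l 16880976))) (b (a (l 16848440) (l 16972552)) (a (l 16976864) (l 17072800)))))), by decide +kernel⟩

def k1_pp_022 : ∃ t, chk3 f_pp_022 t 4 5 1 = true :=
  ⟨(b (b (b (a (a (a (c (l 16575496) (l 16549624)) (l 16564248)) (a (l 16811776) (l 16973512))) (a (l 17105144) (l 17174736))) (b (a (a (a (c (l 16819688) (l 16528232)) (l 16759424)) (l 17037888)) (l 17232088)) (a (a (a (c (a (l 16906448) (l 17038856)) (l 16533840)) (l 16884072)) (l 17122168)) (b (l 17272272) (b (l 17292368) (l 17305848)))))) (a (a (a (c (a (l 17268344) (l 17350096)) (a (l 16563800) (l 16713720))) (c (l 17437456) (l 16887400))) (a (l 17278440) (l 17348568))) (a (l 17400152) (l 17413864)))) (a (a (b (a (c (l 17710552) (l 17140128)) (l 17513808)) (a (l 17576024) (l 17774632))) (b (l 17579152) (l 17783936))) (a (l 17681800) (l 17650432)))), by decide +kernel⟩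

def k2_pp_022 : ∃ t, chk3 f_pp_022 t 5 2 1 = true :=
  ⟨(b (b (l 3) (b (l 3) (a (b (l 17019488) (l 17103536)) (l 3)))) (b (b (b (a (l 17187616) (l 17169784)) (b (a (l 17252528) (l 17226208)) (b (a (l 17283736) (l 17255528)) (a (b (l 17298840) (l 17308880)) (l 17357256))))) (a (l 17390440) (l 17350088))) (a (l 17593392) (l 17530576)))), by decide +kernel⟩

def k3_pp_022 : ∃ t, chk3 f_pp_022 t 2 3 1 = true :=
  ⟨(a (b (a (b (a (b (l 17972376) (l 18126800)) (l 18007472)) (a (l 18280912) (l 18192088))) (b (l 17913312) (l 18069536))) (a (b (l 18337096) (l 18371904)) (l 18332136))) (b (a (b (l 17799128) (l 17938512)) (l 17811024)) (a (l 18054256) (l 2)))), by decide +kernel⟩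

def k4_pp_022 : ∃ t, chk3 f_pp_022 t 3 1 1 = true :=
  ⟨(b (b (b (l 3) (l 3)) (a (b (b (b (l 3) (b (l 17221432) (b (l 17245224) (l 17481248)))) (l 17329728)) (a (l 17496232) (l 17492736))) (b (b (b (l 17263376) (l 2)) (l 2)) (l 2)))) (a (b (b (l 17658496) (l 2)) (l 2)) (l 2))), by decide +kernel⟩

theorem s5_pp_022 : ∃ t, chk3 f_pp_022 t 4 2 1 = true := ex3_b k0_pp_022 k1_pp_022

theorem s6_pp_022 : ∃ t, chk3 f_pp_022 t 2 2 1 = true := ex3_a s5_pp_022 k2_pp_022

theorem s7_pp_022 : ∃ t, chk3 f_pp_022 t 2 1 1 = true := ex3_b s6_pp_022 k3_pp_022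

theorem s8_pp_022 : ∃ t, chk3 f_pp_022 t 1 1 1 = true := ex3_a s7_pp_022 k4_pp_022

theorem c_pp_022 : CertF 0 536870912 1073741824 536870912 134217728 67108864 false true true .pp 0 2 2
    ndF1q0 ndF5q2 pcF2 cut_pp_022 Ext.none :=
  certF1 (fam := false) (s1 := true) (s2 := true) (a := 0) (b := 2) (c := 2) (cn := .pp) (n1 := ndF1q0) (n2 := ndF5q2) (pc := pcF2) (cut := cut_pp_022) (xt := Ext.none) (P1 := 0) (W1 := 536870912) (P2 := 1073741824) (W2 := 536870912) (P3 := 134217728) (W3 := 67108864)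
    rfl (fun _ => rfl) s8_pp_022

noncomputable def f_pp_023 : ℕ → ℕ → ℕ → ℕ → Bool := onCell 1073741824 536870912 0 1230186008 134217728 67108864
    (rowF 2 false true true .up 0 2 3 (qsf 0 536870912 0 1230186008 2) ndF1q0 ndF5q3 pcF2 Cut.none Ext.none)

def k0_pp_023 : ∃ t, chk3 f_pp_023 t 1 1 1 = true :=
  ⟨(a (b (l 2) (a (b (l 2) (b (l 2) (l 3))) (b (a (l 2) (l 17912264)) (a (b (a (a (l 17423928) (a (l 17439400) (l 17569360))) (l 17478736)) (a (a (l 3) (a (l 17290912) (b (l 17344128) (l 17411688)))) (l 17363592))) (b (l 17553760) (l 17489792)))))) (b (a (l 2) (b (l 17927648) (l 17867552))) (b (a (l 17717584) (l 17820640)) (b (l 17964640) (a (l 17744600) (l 18085440)))))), by decide +kernel⟩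

theorem c_pp_023 : CertF 0 536870912 0 1230186008 134217728 67108864 false true true .up 0 2 3
    ndF1q0 ndF5q3 pcF2 Cut.none Ext.none :=
  certF2 (fam := false) (s1 := true) (s2 := true) (a := 0) (b := 2) (c := 3) (cn := .up) (n1 := ndF1q0) (n2 := ndF5q3) (pc := pcF2) (cut := Cut.none) (xt := Ext.none) (P1 := 0) (W1 := 536870912) (P2 := 0) (W2 := 1230186008) (P3 := 134217728) (W3 := 67108864)
    rfl (fun _ => rfl) k0_pp_023

noncomputable def f_pp_033 : ℕ → ℕ → ℕ → ℕ → Bool := onCell 0 536870912 0 1230186008 134217728 67108864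
    (rowF 0 false true true .pnn 0 3 3 (qsf 0 536870912 0 1230186008 3) ndF1q0 ndF5q3 pcF3 Cut.none Ext.none)

def k0_pp_033 : ∃ t, chk3 f_pp_033 t 1 1 1 = true :=
  ⟨(b (a (a (b (l 4) (b (a (l 4) (l 17695968)) (a (l 17748168) (l 17677184)))) (b (l 17640720) (b (l 17549360) (l 17638320)))) (a (b (l 17549952) (b (l 17448608) (b (l 17400736) (l 17419040)))) (b (a (l 17527440) (l 17325920)) (b (a (l 17313360) (l 17240256)) (l 17269248))))) (b (a (a (b (a (l 17820904) (l 17738952)) (l 17948232)) (l 17693440)) (b (l 17402552) (l 17464472))) (a (b (b (l 17996424) (l 18065952)) (a (l 18296480) (l 17922864))) (l 1)))), by decide +kernel⟩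

theorem c_pp_033 : CertF 0 536870912 0 1230186008 134217728 67108864 false true true .pnn 0 3 3
    ndF1q0 ndF5q3 pcF3 Cut.none Ext.none :=
  certF0 (fam := false) (s1 := true) (s2 := true) (a := 0) (b := 3) (c := 3) (cn := .pnn) (n1 := ndF1q0) (n2 := ndF5q3) (pc := pcF3) (cut := Cut.none) (xt := Ext.none) (P1 := 0) (W1 := 536870912) (P2 := 0) (W2 := 1230186008) (P3 := 134217728) (W3 := 67108864)
    rfl k0_pp_033

noncomputable def f_pp_101 : ℕ → ℕ → ℕ → ℕ → Bool := onCell 536870912 536870912 536870912 536870912 134217728 67108864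
    (rowF 0 false true true .npn 1 0 1 (qsf 536870912 536870912 536870912 536870912 0) ndF1q1 ndF5q1 pcF0 Cut.none Ext.none)

def k0_pp_101 : ∃ t, chk3 f_pp_101 t 1 1 1 = true :=
  ⟨(l 3), by decide +kernel⟩

theorem c_pp_101 : CertF 536870912 536870912 536870912 536870912 134217728 67108864 false true true .npn 1 0 1
    ndF1q1 ndF5q1 pcF0 Cut.none Ext.none :=
  certF0 (fam := false) (s1 := true) (s2 := true) (a := 1) (b := 0) (c := 1) (cn := .npn) (n1 := ndF1q1) (n2 := ndF5q1) (pc := pcF0) (cut := Cut.none) (xt := Ext.none) (P1 := 536870912) (W1 := 536870912) (P2 := 536870912) (W2 := 536870912) (P3 := 134217728) (W3 := 67108864)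
    rfl k0_pp_101

noncomputable def f_pp_102 : ℕ → ℕ → ℕ → ℕ → Bool := onCell 536870912 536870912 1073741824 536870912 134217728 67108864
    (rowF 0 false true true .npp 1 0 2 (qsf 536870912 536870912 1073741824 536870912 0) ndF1q1 ndF5q2 pcF0 Cut.none Ext.none)

def k0_pp_102 : ∃ t, chk3 f_pp_102 t 1 1 1 = true :=
  ⟨(l 3), by decide +kernel⟩

theorem c_pp_102 : CertF 536870912 536870912 1073741824 536870912 134217728 67108864 false true true .npp 1 0 2
    ndF1q1 ndF5q2 pcF0 Cut.none Ext.none :=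
  certF0 (fam := false) (s1 := true) (s2 := true) (a := 1) (b := 0) (c := 2) (cn := .npp) (n1 := ndF1q1) (n2 := ndF5q2) (pc := pcF0) (cut := Cut.none) (xt := Ext.none) (P1 := 536870912) (W1 := 536870912) (P2 := 1073741824) (W2 := 536870912) (P3 := 134217728) (W3 := 67108864)
    rfl k0_pp_102

noncomputable def f_pp_112 : ℕ → ℕ → ℕ → ℕ → Bool := onCell 536870912 536870912 1073741824 536870912 134217728 67108864
    (rowF 0 false true true .dn 1 1 2 (qsf 536870912 536870912 1073741824 536870912 1) ndF1q1 ndF5q2 pcF1 Cut.none Ext.none)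

def k0_pp_112 : ∃ t, chk3 f_pp_112 t 1 1 1 = true :=
  ⟨(l 3), by decide +kernel⟩

theorem c_pp_112 : CertF 536870912 536870912 1073741824 536870912 134217728 67108864 false true true .dn 1 1 2
    ndF1q1 ndF5q2 pcF1 Cut.none Ext.none :=
  certF0 (fam := false) (s1 := true) (s2 := true) (a := 1) (b := 1) (c := 2) (cn := .dn) (n1 := ndF1q1) (n2 := ndF5q2) (pc := pcF1) (cut := Cut.none) (xt := Ext.none) (P1 := 536870912) (W1 := 536870912) (P2 := 1073741824) (W2 := 536870912) (P3 := 134217728) (W3 := 67108864)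
    rfl k0_pp_112

noncomputable def f_pp_113 : ℕ → ℕ → ℕ → ℕ → Bool := onCell 536870912 536870912 0 1230186008 134217728 67108864
    (rowF 2 false true true .nn 1 1 3 (qsf 536870912 536870912 0 1230186008 1) ndF1q1 ndF5q3 pcF1 Cut.none Ext.none)

def k0_pp_113 : ∃ t, chk3 f_pp_113 t 1 1 1 = true :=
  ⟨(b (a (l 2) (a (l 2) (b (b (l 17049464) (l 16838184)) (a (l 282562576055) (l 16930280))))) (a (l 3) (b (a (l 3) (b (l 3) (l 3))) (l 3)))), by decide +kernel⟩

theorem c_pp_113 : CertF 536870912 536870912 0 1230186008 134217728 67108864 false true true .nn 1 1 3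
    ndF1q1 ndF5q3 pcF1 Cut.none Ext.none :=
  certF2 (fam := false) (s1 := true) (s2 := true) (a := 1) (b := 1) (c := 3) (cn := .nn) (n1 := ndF1q1) (n2 := ndF5q3) (pc := pcF1) (cut := Cut.none) (xt := Ext.none) (P1 := 536870912) (W1 := 536870912) (P2 := 0) (W2 := 1230186008) (P3 := 134217728) (W3 := 67108864)
    rfl (fun _ => rfl) k0_pp_113

noncomputable def f_pp_123 : ℕ → ℕ → ℕ → ℕ → Bool := onCell 1073741824 536870912 0 1230186008 134217728 67108864
    (rowF 2 false true true .npn 1 2 3 (qsf 536870912 536870912 0 1230186008 2) ndF1q1 ndF5q3 pcF2 Cut.none Ext.none)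

def k0_pp_123 : ∃ t, chk3 f_pp_123 t 1 1 1 = true :=
  ⟨(b (b (a (a (a (l 17132720) (a (a (l 17176544) (l 17184024)) (l 17186656))) (a (a (l 17211904) (l 17216544)) (l 17220200))) (a (l 17234624) (l 17134968))) (a (a (a (l 17215400) (a (a (l 17074912) (l 17080000)) (a (l 17081056) (l 17082408)))) (a (a (a (l 17080872) (l 17081496)) (l 17065304)) (l 17063608))) (a (l 17048744) (l 17047456)))) (b (a (a (a (b (l 16936816) (l 17044408)) (b (a (a (l 16961392) (l 16967856)) (l 16968856)) (l 17047776))) (a (a (b (l 16963896) (a (l 16953912) (b (l 16904360) (l 17007024)))) (l 16924088)) (b (l 16940648) (l 16903976)))) (a (l 17123248) (l 16903112))) (a (a (b (a (l 3) (l 521470718263)) (l 3)) (b (a (a (a (l 17138328) (a (l 17129464) (l 17166192))) (l 17109200)) (l 17077640)) (a (a (a (l 3) (l 1)) (l 1)) (l 1)))) (l 1)))), by decide +kernel⟩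

theorem c_pp_123 : CertF 536870912 536870912 0 1230186008 134217728 67108864 false true true .npn 1 2 3
    ndF1q1 ndF5q3 pcF2 Cut.none Ext.none :=
  certF2 (fam := false) (s1 := true) (s2 := true) (a := 1) (b := 2) (c := 3) (cn := .npn) (n1 := ndF1q1) (n2 := ndF5q3) (pc := pcF2) (cut := Cut.none) (xt := Ext.none) (P1 := 536870912) (W1 := 536870912) (P2 := 0) (W2 := 1230186008) (P3 := 134217728) (W3 := 67108864)
    rfl (fun _ => rfl) k0_pp_123

noncomputable def f_pp_133 : ℕ → ℕ → ℕ → ℕ → Bool := onCell 1610612736 536870912 0 1230186008 134217728 67108864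
    (rowF 2 false true true .dn 1 3 3 (qsf 536870912 536870912 0 1230186008 3) ndF1q1 ndF5q3 pcF3 Cut.none Ext.none)

def k0_pp_133 : ∃ t, chk3 f_pp_133 t 1 1 1 = true :=
  ⟨(b (a (a (b (l 17012312) (l 1)) (l 1)) (l 1)) (l 1)), by decide +kernel⟩

theorem c_pp_133 : CertF 536870912 536870912 0 1230186008 134217728 67108864 false true true .dn 1 3 3
    ndF1q1 ndF5q3 pcF3 Cut.none Ext.none :=
  certF2 (fam := false) (s1 := true) (s2 := true) (a := 1) (b := 3) (c := 3) (cn := .dn) (n1 := ndF1q1) (n2 := ndF5q3) (pc := pcF3) (cut := Cut.none) (xt := Ext.none) (P1 := 536870912) (W1 := 536870912) (P2 := 0) (W2 := 1230186008) (P3 := 134217728) (W3 := 67108864)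
    rfl (fun _ => rfl) k0_pp_133

noncomputable def f_pp_202_a : ℕ → ℕ → ℕ → ℕ → Bool := onCell 0 536870912 1073741824 536870912 134217728 67108864
    (rowF 0 false true true .pp 2 0 2 (qsf 0 536870912 1073741824 536870912 0) ndF1q2a ndF5q2 pcF0 Cut.none Ext.none)

def k0_pp_202_a : ∃ t, chk3 f_pp_202_a t 1 1 1 = true :=
  ⟨(l 5), by decide +kernel⟩

theorem c_pp_202_a : CertF 0 536870912 1073741824 536870912 134217728 67108864 false true true .pp 2 0 2
    ndF1q2a ndF5q2 pcF0 Cut.none Ext.none :=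
  certF0 (fam := false) (s1 := true) (s2 := true) (a := 2) (b := 0) (c := 2) (cn := .pp) (n1 := ndF1q2a) (n2 := ndF5q2) (pc := pcF0) (cut := Cut.none) (xt := Ext.none) (P1 := 0) (W1 := 536870912) (P2 := 1073741824) (W2 := 536870912) (P3 := 134217728) (W3 := 67108864)
    rfl k0_pp_202_a

noncomputable def f_pp_202_b : ℕ → ℕ → ℕ → ℕ → Bool := onCell 1239849684 370763052 1073741824 536870912 134217728 67108864
    (rowF 0 false true true .pp 2 0 2 (qsf 1239849684 370763052 1073741824 536870912 0) ndF1q2b ndF5q2 pcF0 Cut.none Ext.none)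

def k0_pp_202_b : ∃ t, chk3 f_pp_202_b t 1 1 1 = true :=
  ⟨(l 5), by decide +kernel⟩

theorem c_pp_202_b : CertF 1239849684 370763052 1073741824 536870912 134217728 67108864 false true true .pp 2 0 2
    ndF1q2b ndF5q2 pcF0 Cut.none Ext.none :=
  certF0 (fam := false) (s1 := true) (s2 := true) (a := 2) (b := 0) (c := 2) (cn := .pp) (n1 := ndF1q2b) (n2 := ndF5q2) (pc := pcF0) (cut := Cut.none) (xt := Ext.none) (P1 := 1239849684) (W1 := 370763052) (P2 := 1073741824) (W2 := 536870912) (P3 := 134217728) (W3 := 67108864)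
    rfl k0_pp_202_b

noncomputable def f_pp_203_a : ℕ → ℕ → ℕ → ℕ → Bool := onCell 0 536870912 0 1230186008 134217728 67108864
    (rowF 0 false true true .up 2 0 3 (qsf 0 536870912 0 1230186008 0) ndF1q2a ndF5q3 pcF0 Cut.none Ext.none)

def k0_pp_203_a : ∃ t, chk3 f_pp_203_a t 1 1 1 = true :=
  ⟨(b (l 2) (b (l 2) (l 3))), by decide +kernel⟩

theorem c_pp_203_a : CertF 0 536870912 0 1230186008 134217728 67108864 false true true .up 2 0 3
    ndF1q2a ndF5q3 pcF0 Cut.none Ext.none :=
  certF0 (fam := false) (s1 := true) (s2 := true) (a := 2) (b := 0) (c := 3) (cn := .up) (n1 := ndF1q2a) (n2 := ndF5q3) (pc := pcF0) (cut := Cut.none) (xt := Ext.none) (P1 := 0) (W1 := 536870912) (P2 := 0) (W2 := 1230186008) (P3 := 134217728) (W3 := 67108864)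
    rfl k0_pp_203_a

noncomputable def f_pp_203_b : ℕ → ℕ → ℕ → ℕ → Bool := onCell 1239849684 370763052 0 1230186008 134217728 67108864
    (rowF 0 false true true .up 2 0 3 (qsf 1239849684 370763052 0 1230186008 0) ndF1q2b ndF5q3 pcF0 Cut.none Ext.none)

def k0_pp_203_b : ∃ t, chk3 f_pp_203_b t 1 1 1 = true :=
  ⟨(b (l 3) (l 5)), by decide +kernel⟩

theorem c_pp_203_b : CertF 1239849684 370763052 0 1230186008 134217728 67108864 false true true .up 2 0 3
    ndF1q2b ndF5q3 pcF0 Cut.none Ext.none :=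
  certF0 (fam := false) (s1 := true) (s2 := true) (a := 2) (b := 0) (c := 3) (cn := .up) (n1 := ndF1q2b) (n2 := ndF5q3) (pc := pcF0) (cut := Cut.none) (xt := Ext.none) (P1 := 1239849684) (W1 := 370763052) (P2 := 0) (W2 := 1230186008) (P3 := 134217728) (W3 := 67108864)
    rfl k0_pp_203_b

noncomputable def cut_pp_213_a : Cut := Cut.of [[⟨0, 1, 0, 39843005⟩, ⟨1, 1, 0, 39843005⟩, ⟨2, 2, 0, 5814905⟩]]

noncomputable def f_pp_213_a : ℕ → ℕ → ℕ → ℕ → Bool := onCell 0 536870912 0 1230186008 134217728 67108864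
    (rowF 0 false true true .pnn 2 1 3 (qsf 0 536870912 0 1230186008 1) ndF1q2a ndF5q3 pcF1 cut_pp_213_a Ext.none)

def k0_pp_213_a : ∃ t, chk3 f_pp_213_a t 1 1 1 = true :=
  ⟨(b (a (l 3) (b (a (l 3) (b (a (l 3) (b (a (l 3) (l 6)) (l 3))) (l 3))) (l 3))) (b (l 3) (l 3))), by decide +kernel⟩

theorem c_pp_213_a : CertF 0 536870912 0 1230186008 134217728 67108864 false true true .pnn 2 1 3
    ndF1q2a ndF5q3 pcF1 cut_pp_213_a Ext.none :=
  certF0 (fam := false) (s1 := true) (s2 := true) (a := 2) (b := 1) (c := 3) (cn := .pnn) (n1 := ndF1q2a) (n2 := ndF5q3) (pc := pcF1) (cut := cut_pp_213_a) (xt := Ext.none) (P1 := 0) (W1 := 536870912) (P2 := 0) (W2 := 1230186008) (P3 := 134217728) (W3 := 67108864)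
    rfl k0_pp_213_a

noncomputable def cut_pp_213_b : Cut := Cut.of [[⟨0, 1, 0, 39843005⟩, ⟨1, 1, 0, 39843005⟩, ⟨2, 2, 0, 5814905⟩]]

noncomputable def f_pp_213_b : ℕ → ℕ → ℕ → ℕ → Bool := onCell 1239849684 370763052 0 1230186008 134217728 67108864
    (rowF 0 false true true .pnn 2 1 3 (qsf 1239849684 370763052 0 1230186008 1) ndF1q2b ndF5q3 pcF1 cut_pp_213_b Ext.none)

def k0_pp_213_b : ∃ t, chk3 f_pp_213_b t 1 1 1 = true :=
  ⟨(b (l 3) (l 5)), by decide +kernel⟩

theorem c_pp_213_b : CertF 1239849684 370763052 0 1230186008 134217728 67108864 false true true .pnn 2 1 3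
    ndF1q2b ndF5q3 pcF1 cut_pp_213_b Ext.none :=
  certF0 (fam := false) (s1 := true) (s2 := true) (a := 2) (b := 1) (c := 3) (cn := .pnn) (n1 := ndF1q2b) (n2 := ndF5q3) (pc := pcF1) (cut := cut_pp_213_b) (xt := Ext.none) (P1 := 1239849684) (W1 := 370763052) (P2 := 0) (W2 := 1230186008) (P3 := 134217728) (W3 := 67108864)
    rfl k0_pp_213_b

noncomputable def f_pp_303 : ℕ → ℕ → ℕ → ℕ → Bool := onCell 1610612736 536870912 0 1230186008 134217728 67108864
    (rowF 0 false true true .npn 3 0 3 (qsf 1610612736 536870912 0 1230186008 0) ndF1q3 ndF5q3 pcF0 Cut.none Ext.none)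

def k0_pp_303 : ∃ t, chk3 f_pp_303 t 1 1 1 = true :=
  ⟨(b (l 3) (l 5)), by decide +kernel⟩

theorem c_pp_303 : CertF 1610612736 536870912 0 1230186008 134217728 67108864 false true true .npn 3 0 3
    ndF1q3 ndF5q3 pcF0 Cut.none Ext.none :=
  certF0 (fam := false) (s1 := true) (s2 := true) (a := 3) (b := 0) (c := 3) (cn := .npn) (n1 := ndF1q3) (n2 := ndF5q3) (pc := pcF0) (cut := Cut.none) (xt := Ext.none) (P1 := 1610612736) (W1 := 536870912) (P2 := 0) (W2 := 1230186008) (P3 := 134217728) (W3 := 67108864)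
    rfl k0_pp_303

noncomputable def f_pp_313 : ℕ → ℕ → ℕ → ℕ → Bool := onCell 1610612736 536870912 0 1230186008 134217728 67108864
    (rowF 0 false true true .dn 3 1 3 (qsf 1610612736 536870912 0 1230186008 1) ndF1q3 ndF5q3 pcF1 Cut.none Ext.none)

def k0_pp_313 : ∃ t, chk3 f_pp_313 t 1 1 1 = true :=
  ⟨(b (l 3) (l 1)), by decide +kernel⟩

theorem c_pp_313 : CertF 1610612736 536870912 0 1230186008 134217728 67108864 false true true .dn 3 1 3
    ndF1q3 ndF5q3 pcF1 Cut.none Ext.none :=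
  certF0 (fam := false) (s1 := true) (s2 := true) (a := 3) (b := 1) (c := 3) (cn := .dn) (n1 := ndF1q3) (n2 := ndF5q3) (pc := pcF1) (cut := Cut.none) (xt := Ext.none) (P1 := 1610612736) (W1 := 536870912) (P2 := 0) (W2 := 1230186008) (P3 := 134217728) (W3 := 67108864)
    rfl k0_pp_313

noncomputable def f_pm_001 : ℕ → ℕ → ℕ → ℕ → Bool := onCell 0 536870912 536870912 536870912 134217728 67108864
    (rowF 0 false true false .up 0 0 1 (qsf 0 536870912 536870912 536870912 0) ndF1q0 ndF5q1 pcF0 Cut.none Ext.none)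

def k0_pm_001 : ∃ t, chk3 f_pm_001 t 1 1 1 = true :=
  ⟨(l 4), by decide +kernel⟩

theorem c_pm_001 : CertF 0 536870912 536870912 536870912 134217728 67108864 false true false .up 0 0 1
    ndF1q0 ndF5q1 pcF0 Cut.none Ext.none :=
  certF0 (fam := false) (s1 := true) (s2 := false) (a := 0) (b := 0) (c := 1) (cn := .up) (n1 := ndF1q0) (n2 := ndF5q1) (pc := pcF0) (cut := Cut.none) (xt := Ext.none) (P1 := 0) (W1 := 536870912) (P2 := 536870912) (W2 := 536870912) (P3 := 134217728) (W3 := 67108864)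
    rfl k0_pm_001

noncomputable def f_pm_011 : ℕ → ℕ → ℕ → ℕ → Bool := onCell 0 536870912 536870912 536870912 134217728 67108864
    (rowF 0 false true false .pnn 0 1 1 (qsf 0 536870912 536870912 536870912 1) ndF1q0 ndF5q1 pcF1 Cut.none Ext.none)

def k0_pm_011 : ∃ t, chk3 f_pm_011 t 1 1 1 = true :=
  ⟨(l 4), by decide +kernel⟩

theorem c_pm_011 : CertF 0 536870912 536870912 536870912 134217728 67108864 false true false .pnn 0 1 1
    ndF1q0 ndF5q1 pcF1 Cut.none Ext.none :=
  certF0 (fam := false) (s1 := true) (s2 := false) (a := 0) (b := 1) (c := 1) (cn := .pnn) (n1 := ndF1q0) (n2 := ndF5q1) (pc := pcF1) (cut := Cut.none) (xt := Ext.none) (P1 := 0) (W1 := 536870912) (P2 := 536870912) (W2 := 536870912) (P3 := 134217728) (W3 := 67108864)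
    rfl k0_pm_011

noncomputable def f_pm_012 : ℕ → ℕ → ℕ → ℕ → Bool := onCell 0 536870912 1073741824 536870912 134217728 67108864
    (rowF 0 false true false .pnp 0 1 2 (qsf 0 536870912 1073741824 536870912 1) ndF1q0 ndF5q2 pcF1 Cut.none Ext.none)

def k0_pm_012 : ∃ t, chk3 f_pm_012 t 1 1 1 = true :=
  ⟨(l 4), by decide +kernel⟩

theorem c_pm_012 : CertF 0 536870912 1073741824 536870912 134217728 67108864 false true false .pnp 0 1 2
    ndF1q0 ndF5q2 pcF1 Cut.none Ext.none :=
  certF0 (fam := false) (s1 := true) (s2 := false) (a := 0) (b := 1) (c := 2) (cn := .pnp) (n1 := ndF1q0) (n2 := ndF5q2) (pc := pcF1) (cut := Cut.none) (xt := Ext.none) (P1 := 0) (W1 := 536870912) (P2 := 1073741824) (W2 := 536870912) (P3 := 134217728) (W3 := 67108864)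
    rfl k0_pm_012

noncomputable def f_pm_022 : ℕ → ℕ → ℕ → ℕ → Bool := onCell 0 536870912 1073741824 536870912 134217728 67108864
    (rowF 0 false true false .pp 0 2 2 (qsf 0 536870912 1073741824 536870912 2) ndF1q0 ndF5q2 pcF2 Cut.none Ext.none)

def k0_pm_022 : ∃ t, chk3 f_pm_022 t 1 1 1 = true :=
  ⟨(l 4), by decide +kernel⟩

theorem c_pm_022 : CertF 0 536870912 1073741824 536870912 134217728 67108864 false true false .pp 0 2 2
    ndF1q0 ndF5q2 pcF2 Cut.none Ext.none :=
  certF0 (fam := false) (s1 := true) (s2 := false) (a := 0) (b := 2) (c := 2) (cn := .pp) (n1 := ndF1q0) (n2 := ndF5q2) (pc := pcF2) (cut := Cut.none) (xt := Ext.none) (P1 := 0) (W1 := 536870912) (P2 := 1073741824) (W2 := 536870912) (P3 := 134217728) (W3 := 67108864)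
    rfl k0_pm_022

noncomputable def f_pm_023 : ℕ → ℕ → ℕ → ℕ → Bool := onCell 0 536870912 0 1230186008 134217728 67108864
    (rowF 0 false true false .up 0 2 3 (qsf 0 536870912 0 1230186008 2) ndF1q0 ndF5q3 pcF2 Cut.none Ext.none)

def k0_pm_023 : ∃ t, chk3 f_pm_023 t 1 1 1 = true :=
  ⟨(b (b (a (l 2) (a (l 2) (l 17899344))) (l 4)) (l 4)), by decide +kernel⟩

theorem c_pm_023 : CertF 0 536870912 0 1230186008 134217728 67108864 false true false .up 0 2 3
    ndF1q0 ndF5q3 pcF2 Cut.none Ext.none :=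
  certF0 (fam := false) (s1 := true) (s2 := false) (a := 0) (b := 2) (c := 3) (cn := .up) (n1 := ndF1q0) (n2 := ndF5q3) (pc := pcF2) (cut := Cut.none) (xt := Ext.none) (P1 := 0) (W1 := 536870912) (P2 := 0) (W2 := 1230186008) (P3 := 134217728) (W3 := 67108864)
    rfl k0_pm_023

noncomputable def f_pm_033 : ℕ → ℕ → ℕ → ℕ → Bool := onCell 0 536870912 0 1230186008 134217728 67108864
    (rowF 0 false true false .pnn 0 3 3 (qsf 0 536870912 0 1230186008 3) ndF1q0 ndF5q3 pcF3 Cut.none Ext.none)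

def k0_pm_033 : ∃ t, chk3 f_pm_033 t 1 1 1 = true :=
  ⟨(b (a (l 4) (a (l 4) (b (l 17550360) (l 4)))) (l 4)), by decide +kernel⟩

theorem c_pm_033 : CertF 0 536870912 0 1230186008 134217728 67108864 false true false .pnn 0 3 3
    ndF1q0 ndF5q3 pcF3 Cut.none Ext.none :=
  certF0 (fam := false) (s1 := true) (s2 := false) (a := 0) (b := 3) (c := 3) (cn := .pnn) (n1 := ndF1q0) (n2 := ndF5q3) (pc := pcF3) (cut := Cut.none) (xt := Ext.none) (P1 := 0) (W1 := 536870912) (P2 := 0) (W2 := 1230186008) (P3 := 134217728) (W3 := 67108864)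
    rfl k0_pm_033

noncomputable def f_pm_101 : ℕ → ℕ → ℕ → ℕ → Bool := onCell 536870912 536870912 536870912 536870912 134217728 67108864
    (rowF 0 false true false .npn 1 0 1 (qsf 536870912 536870912 536870912 536870912 0) ndF1q1 ndF5q1 pcF0 Cut.none Ext.none)

def k0_pm_101 : ∃ t, chk3 f_pm_101 t 1 1 1 = true :=
  ⟨(l 4), by decide +kernel⟩

theorem c_pm_101 : CertF 536870912 536870912 536870912 536870912 134217728 67108864 false true false .npn 1 0 1
    ndF1q1 ndF5q1 pcF0 Cut.none Ext.none :=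
  certF0 (fam := false) (s1 := true) (s2 := false) (a := 1) (b := 0) (c := 1) (cn := .npn) (n1 := ndF1q1) (n2 := ndF5q1) (pc := pcF0) (cut := Cut.none) (xt := Ext.none) (P1 := 536870912) (W1 := 536870912) (P2 := 536870912) (W2 := 536870912) (P3 := 134217728) (W3 := 67108864)
    rfl k0_pm_101

noncomputable def f_pm_102 : ℕ → ℕ → ℕ → ℕ → Bool := onCell 536870912 536870912 1073741824 536870912 134217728 67108864
    (rowF 0 false true false .npp 1 0 2 (qsf 536870912 536870912 1073741824 536870912 0) ndF1q1 ndF5q2 pcF0 Cut.none Ext.none)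

def k0_pm_102 : ∃ t, chk3 f_pm_102 t 1 1 1 = true :=
  ⟨(l 4), by decide +kernel⟩

theorem c_pm_102 : CertF 536870912 536870912 1073741824 536870912 134217728 67108864 false true false .npp 1 0 2
    ndF1q1 ndF5q2 pcF0 Cut.none Ext.none :=
  certF0 (fam := false) (s1 := true) (s2 := false) (a := 1) (b := 0) (c := 2) (cn := .npp) (n1 := ndF1q1) (n2 := ndF5q2) (pc := pcF0) (cut := Cut.none) (xt := Ext.none) (P1 := 536870912) (W1 := 536870912) (P2 := 1073741824) (W2 := 536870912) (P3 := 134217728) (W3 := 67108864)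
    rfl k0_pm_102

noncomputable def f_pm_112 : ℕ → ℕ → ℕ → ℕ → Bool := onCell 536870912 536870912 1073741824 536870912 134217728 67108864
    (rowF 0 false true false .dn 1 1 2 (qsf 536870912 536870912 1073741824 536870912 1) ndF1q1 ndF5q2 pcF1 Cut.none Ext.none)

def k0_pm_112 : ∃ t, chk3 f_pm_112 t 1 1 1 = true :=
  ⟨(l 4), by decide +kernel⟩

theorem c_pm_112 : CertF 536870912 536870912 1073741824 536870912 134217728 67108864 false true false .dn 1 1 2
    ndF1q1 ndF5q2 pcF1 Cut.none Ext.none :=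
  certF0 (fam := false) (s1 := true) (s2 := false) (a := 1) (b := 1) (c := 2) (cn := .dn) (n1 := ndF1q1) (n2 := ndF5q2) (pc := pcF1) (cut := Cut.none) (xt := Ext.none) (P1 := 536870912) (W1 := 536870912) (P2 := 1073741824) (W2 := 536870912) (P3 := 134217728) (W3 := 67108864)
    rfl k0_pm_112

noncomputable def f_pm_113 : ℕ → ℕ → ℕ → ℕ → Bool := onCell 536870912 536870912 0 1230186008 134217728 67108864
    (rowF 0 false true false .nn 1 1 3 (qsf 536870912 536870912 0 1230186008 1) ndF1q1 ndF5q3 pcF1 Cut.none Ext.none)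

def k0_pm_113 : ∃ t, chk3 f_pm_113 t 1 1 1 = true :=
  ⟨(a (b (l 2) (l 4)) (b (a (l 2) (b (a (l 2) (l 17194816)) (b (l 17743184) (a (l 17985712) (a (l 17832528) (b (l 17712352) (l 17788680))))))) (b (l 18069192) (l 4)))), by decide +kernel⟩

theorem c_pm_113 : CertF 536870912 536870912 0 1230186008 134217728 67108864 false true false .nn 1 1 3
    ndF1q1 ndF5q3 pcF1 Cut.none Ext.none :=
  certF0 (fam := false) (s1 := true) (s2 := false) (a := 1) (b := 1) (c := 3) (cn := .nn) (n1 := ndF1q1) (n2 := ndF5q3) (pc := pcF1) (cut := Cut.none) (xt := Ext.none) (P1 := 536870912) (W1 := 536870912) (P2 := 0) (W2 := 1230186008) (P3 := 134217728) (W3 := 67108864)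
    rfl k0_pm_113

noncomputable def f_pm_123 : ℕ → ℕ → ℕ → ℕ → Bool := onCell 1073741824 536870912 0 1230186008 134217728 67108864
    (rowF 2 false true false .npn 1 2 3 (qsf 536870912 536870912 0 1230186008 2) ndF1q1 ndF5q3 pcF2 Cut.none Ext.none)

def k0_pm_123 : ∃ t, chk3 f_pm_123 t 1 1 1 = true :=
  ⟨(a (b (b (a (a (l 17332440) (a (l 17375208) (l 17404712))) (l 17400040)) (a (l 17516128) (l 17431904))) (l 4)) (b (a (l 17312112) (l 17205552)) (l 4))), by decide +kernel⟩

theorem c_pm_123 : CertF 536870912 536870912 0 1230186008 134217728 67108864 false true false .npn 1 2 3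
    ndF1q1 ndF5q3 pcF2 Cut.none Ext.none :=
  certF2 (fam := false) (s1 := true) (s2 := false) (a := 1) (b := 2) (c := 3) (cn := .npn) (n1 := ndF1q1) (n2 := ndF5q3) (pc := pcF2) (cut := Cut.none) (xt := Ext.none) (P1 := 536870912) (W1 := 536870912) (P2 := 0) (W2 := 1230186008) (P3 := 134217728) (W3 := 67108864)
    rfl (fun _ => rfl) k0_pm_123

noncomputable def f_pm_133 : ℕ → ℕ → ℕ → ℕ → Bool := onCell 1610612736 536870912 0 1230186008 134217728 67108864
    (rowF 2 false true false .dn 1 3 3 (qsf 536870912 536870912 0 1230186008 3) ndF1q1 ndF5q3 pcF3 Cut.none Ext.none)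

def k0_pm_133 : ∃ t, chk3 f_pm_133 t 1 1 1 = true :=
  ⟨(b (a (a (b (l 16932176) (l 1)) (l 1)) (l 1)) (l 1)), by decide +kernel⟩

theorem c_pm_133 : CertF 536870912 536870912 0 1230186008 134217728 67108864 false true false .dn 1 3 3
    ndF1q1 ndF5q3 pcF3 Cut.none Ext.none :=
  certF2 (fam := false) (s1 := true) (s2 := false) (a := 1) (b := 3) (c := 3) (cn := .dn) (n1 := ndF1q1) (n2 := ndF5q3) (pc := pcF3) (cut := Cut.none) (xt := Ext.none) (P1 := 536870912) (W1 := 536870912) (P2 := 0) (W2 := 1230186008) (P3 := 134217728) (W3 := 67108864)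
    rfl (fun _ => rfl) k0_pm_133

noncomputable def f_pm_202_a : ℕ → ℕ → ℕ → ℕ → Bool := onCell 0 536870912 1073741824 536870912 134217728 67108864
    (rowF 0 false true false .pp 2 0 2 (qsf 0 536870912 1073741824 536870912 0) ndF1q2a ndF5q2 pcF0 Cut.none Ext.none)

def k0_pm_202_a : ∃ t, chk3 f_pm_202_a t 1 1 1 = true :=
  ⟨(a (b (b (b (l 1) (l 18803696)) (b (l 18641880) (l 18546288))) (b (b (l 18259408) (a (l 17856976) (l 18042152))) (b (a (l 17597808) (l 17683456)) (a (l 17525088) (l 17453104))))) (b (b (l 4) (a (l 18853760) (l 4))) (b (a (l 18205072) (b (l 4) (l 18469880))) (a (b (l 17935448) (b (l 17627080) (l 17428552))) (b (l 17973696) (l 17983376)))))), by decide +kernel⟩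

theorem c_pm_202_a : CertF 0 536870912 1073741824 536870912 134217728 67108864 false true false .pp 2 0 2
    ndF1q2a ndF5q2 pcF0 Cut.none Ext.none :=
  certF0 (fam := false) (s1 := true) (s2 := false) (a := 2) (b := 0) (c := 2) (cn := .pp) (n1 := ndF1q2a) (n2 := ndF5q2) (pc := pcF0) (cut := Cut.none) (xt := Ext.none) (P1 := 0) (W1 := 536870912) (P2 := 1073741824) (W2 := 536870912) (P3 := 134217728) (W3 := 67108864)
    rfl k0_pm_202_a

noncomputable def f_pm_202_b : ℕ → ℕ → ℕ → ℕ → Bool := onCell 0 536870912 1073741824 536870912 134217728 67108864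
    (rowF 2 false true false .pp 2 0 2 (qsf 1239849684 370763052 1073741824 536870912 0) ndF1q2b ndF5q2 pcF0 Cut.none Ext.none)

def k0_pm_202_b : ∃ t, chk3 f_pm_202_b t 1 1 1 = true :=
  ⟨(a (b (b (l 1) (a (l 18476784) (l 1))) (b (a (l 18079976) (l 18122536)) (a (l 17732904) (b (l 17679520) (l 17683000))))) (b (l 1) (b (l 1) (a (b (l 17389576) (l 17537768)) (l 1))))), by decide +kernel⟩

theorem c_pm_202_b : CertF 1239849684 370763052 1073741824 536870912 134217728 67108864 false true false .pp 2 0 2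
    ndF1q2b ndF5q2 pcF0 Cut.none Ext.none :=
  certF2 (fam := false) (s1 := true) (s2 := false) (a := 2) (b := 0) (c := 2) (cn := .pp) (n1 := ndF1q2b) (n2 := ndF5q2) (pc := pcF0) (cut := Cut.none) (xt := Ext.none) (P1 := 1239849684) (W1 := 370763052) (P2 := 1073741824) (W2 := 536870912) (P3 := 134217728) (W3 := 67108864)
    rfl (fun _ => rfl) k0_pm_202_b

noncomputable def f_pm_203_a : ℕ → ℕ → ℕ → ℕ → Bool := onCell 0 536870912 0 1230186008 134217728 67108864
    (rowF 0 false true false .up 2 0 3 (qsf 0 536870912 0 1230186008 0) ndF1q2a ndF5q3 pcF0 Cut.none Ext.none)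

def k0_pm_203_a : ∃ t, chk3 f_pm_203_a t 1 1 1 = true :=
  ⟨(b (l 2) (b (l 2) (b (a (a (l 353363774663) (l 17647528)) (l 2)) (a (b (b (l 17659552) (l 17608720)) (l 17634312)) (b (a (l 17582456) (a (l 17596416) (l 2))) (a (b (l 17480496) (l 17382752)) (b (a (l 17373336) (l 17274824)) (a (l 17349128) (l 17591312))))))))), by decide +kernel⟩

theorem c_pm_203_a : CertF 0 536870912 0 1230186008 134217728 67108864 false true false .up 2 0 3
    ndF1q2a ndF5q3 pcF0 Cut.none Ext.none :=
  certF0 (fam := false) (s1 := true) (s2 := false) (a := 2) (b := 0) (c := 3) (cn := .up) (n1 := ndF1q2a) (n2 := ndF5q3) (pc := pcF0) (cut := Cut.none) (xt := Ext.none) (P1 := 0) (W1 := 536870912) (P2 := 0) (W2 := 1230186008) (P3 := 134217728) (W3 := 67108864)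
    rfl k0_pm_203_a

noncomputable def f_pm_203_b : ℕ → ℕ → ℕ → ℕ → Bool := onCell 0 536870912 0 1230186008 134217728 67108864
    (rowF 2 false true false .up 2 0 3 (qsf 1239849684 370763052 0 1230186008 0) ndF1q2b ndF5q3 pcF0 Cut.none Ext.none)

def k0_pm_203_b : ∃ t, chk3 f_pm_203_b t 1 1 1 = true :=
  ⟨(b (l 3) (a (b (b (l 2) (a (l 2) (l 17838800))) (b (a (l 2) (b (l 18044728) (l 18141952))) (a (b (l 18269464) (l 17884112)) (a (l 18143320) (b (l 18040752) (l 17825608)))))) (b (a (b (l 3) (l 17673696)) (a (l 122039315863) (a (l 115059792039) (l 112375524439)))) (a (b (l 17862552) (b (l 17970896) (l 17896528))) (b (l 17798984) (a (l 17635536) (l 17488392))))))), by decide +kernel⟩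

theorem c_pm_203_b : CertF 1239849684 370763052 0 1230186008 134217728 67108864 false true false .up 2 0 3
    ndF1q2b ndF5q3 pcF0 Cut.none Ext.none :=
  certF2 (fam := false) (s1 := true) (s2 := false) (a := 2) (b := 0) (c := 3) (cn := .up) (n1 := ndF1q2b) (n2 := ndF5q3) (pc := pcF0) (cut := Cut.none) (xt := Ext.none) (P1 := 1239849684) (W1 := 370763052) (P2 := 0) (W2 := 1230186008) (P3 := 134217728) (W3 := 67108864)
    rfl (fun _ => rfl) k0_pm_203_b

noncomputable def cut_pm_213_a : Cut := Cut.of [[⟨0, 1, 0, 39843005⟩, ⟨1, 1, 0, 39843005⟩, ⟨2, 2, 0, 5814905⟩]]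

noncomputable def f_pm_213_a : ℕ → ℕ → ℕ → ℕ → Bool := onCell 0 536870912 0 1230186008 134217728 67108864
    (rowF 0 false true false .pnn 2 1 3 (qsf 0 536870912 0 1230186008 1) ndF1q2a ndF5q3 pcF1 cut_pm_213_a Ext.none)

def k0_pm_213_a : ∃ t, chk3 f_pm_213_a t 1 1 1 = true :=
  ⟨(b (a (b (b (l 3) (l 3)) (b (a (l 369535137239) (b (l 283635736855) (l 228874955767))) (a (b (l 280951361687) (l 16873168)) (l 16954168)))) (b (a (b (l 3) (a (l 286856955399) (b (l 266455812791) (l 16819792)))) (b (a (b (l 3) (l 270750863031)) (b (a (l 285246294391) (l 6)) (b (l 175724736519) (l 16811456)))) (b (a (l 183777855303) (l 16833096)) (l 17015472)))) (a (b (b (l 16941160) (l 16861480)) (l 16896696)) (b (a (l 16879528) (l 16906008)) (l 17075664))))) (b (a (b (a (l 16872744) (l 16896208)) (b (l 16880952) (l 16986792))) (b (a (l 16905440) (l 17140752)) (a (l 17033424) (l 17185344)))) (a (b (b (l 17118296) (l 17355744)) (b (l 17648112) (l 1))) (b (b (l 17385312) (l 17633920)) (b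 (l 17810456) (l 18047488)))))), by decide +kernel⟩

theorem c_pm_213_a : CertF 0 536870912 0 1230186008 134217728 67108864 false true false .pnn 2 1 3
    ndF1q2a ndF5q3 pcF1 cut_pm_213_a Ext.none :=
  certF0 (fam := false) (s1 := true) (s2 := false) (a := 2) (b := 1) (c := 3) (cn := .pnn) (n1 := ndF1q2a) (n2 := ndF5q3) (pc := pcF1) (cut := cut_pm_213_a) (xt := Ext.none) (P1 := 0) (W1 := 536870912) (P2 := 0) (W2 := 1230186008) (P3 := 134217728) (W3 := 67108864)
    rfl k0_pm_213_a

noncomputable def cut_pm_213_b : Cut := Cut.of [[⟨0, 1, 0, 39843005⟩, ⟨1, 1, 0, 39843005⟩, ⟨2, 2, 0, 5814905⟩]]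

noncomputable def f_pm_213_b : ℕ → ℕ → ℕ → ℕ → Bool := onCell 1239849684 370763052 0 1230186008 134217728 67108864
    (rowF 0 false true false .pnn 2 1 3 (qsf 1239849684 370763052 0 1230186008 1) ndF1q2b ndF5q3 pcF1 cut_pm_213_b Ext.none)

def k0_pm_213_b : ∃ t, chk3 f_pm_213_b t 1 1 1 = true :=
  ⟨(b (a (b (l 3) (b (l 3) (a (b (l 3) (b (l 283636381959) (l 16999784))) (l 3)))) (l 3)) (b (a (b (a (b (l 17004192) (l 16918896)) (b (l 17206720) (l 17078568))) (a (b (l 16908320) (l 16891344)) (b (l 17044248) (l 16984640)))) (b (a (b (l 3) (l 17308664)) (l 1)) (l 1))) (a (b (b (a (l 17025128) (l 1)) (l 17154024)) (l 1)) (l 1)))), by decide +kernel⟩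

theorem c_pm_213_b : CertF 1239849684 370763052 0 1230186008 134217728 67108864 false true false .pnn 2 1 3
    ndF1q2b ndF5q3 pcF1 cut_pm_213_b Ext.none :=
  certF0 (fam := false) (s1 := true) (s2 := false) (a := 2) (b := 1) (c := 3) (cn := .pnn) (n1 := ndF1q2b) (n2 := ndF5q3) (pc := pcF1) (cut := cut_pm_213_b) (xt := Ext.none) (P1 := 1239849684) (W1 := 370763052) (P2 := 0) (W2 := 1230186008) (P3 := 134217728) (W3 := 67108864)
    rfl k0_pm_213_b

noncomputable def f_pm_303 : ℕ → ℕ → ℕ → ℕ → Bool := onCell 0 536870912 0 1230186008 134217728 67108864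
    (rowF 2 false true false .npn 3 0 3 (qsf 1610612736 536870912 0 1230186008 0) ndF1q3 ndF5q3 pcF0 Cut.none Ext.none)

def k0_pm_303 : ∃ t, chk3 f_pm_303 t 1 1 1 = true :=
  ⟨(b (l 3) (a (b (a (b (l 3) (l 17926320)) (l 150493597303)) (b (a (a (b (l 18292032) (l 17962856)) (b (l 18139032) (l 18136656))) (b (l 17920592) (l 18148456))) (a (c (l 17999104) (l 17887368)) (a (l 17819016) (l 1))))) (b (a (b (l 3) (l 17584120)) (a (l 126870865335) (l 1))) (l 1)))), by decide +kernel⟩

theorem c_pm_303 : CertF 1610612736 536870912 0 1230186008 134217728 67108864 false true false .npn 3 0 3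
    ndF1q3 ndF5q3 pcF0 Cut.none Ext.none :=
  certF2 (fam := false) (s1 := true) (s2 := false) (a := 3) (b := 0) (c := 3) (cn := .npn) (n1 := ndF1q3) (n2 := ndF5q3) (pc := pcF0) (cut := Cut.none) (xt := Ext.none) (P1 := 1610612736) (W1 := 536870912) (P2 := 0) (W2 := 1230186008) (P3 := 134217728) (W3 := 67108864)
    rfl (fun _ => rfl) k0_pm_303

noncomputable def f_pm_313 : ℕ → ℕ → ℕ → ℕ → Bool := onCell 1610612736 536870912 0 1230186008 134217728 67108864
    (rowF 0 false true false .dn 3 1 3 (qsf 1610612736 536870912 0 1230186008 1) ndF1q3 ndF5q3 pcF1 Cut.none Ext.none)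

def k0_pm_313 : ∃ t, chk3 f_pm_313 t 1 1 1 = true :=
  ⟨(b (l 3) (l 1)), by decide +kernel⟩

theorem c_pm_313 : CertF 1610612736 536870912 0 1230186008 134217728 67108864 false true false .dn 3 1 3
    ndF1q3 ndF5q3 pcF1 Cut.none Ext.none :=
  certF0 (fam := false) (s1 := true) (s2 := false) (a := 3) (b := 1) (c := 3) (cn := .dn) (n1 := ndF1q3) (n2 := ndF5q3) (pc := pcF1) (cut := Cut.none) (xt := Ext.none) (P1 := 1610612736) (W1 := 536870912) (P2 := 0) (W2 := 1230186008) (P3 := 134217728) (W3 := 67108864)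
    rfl k0_pm_313

noncomputable def f_mm_001 : ℕ → ℕ → ℕ → ℕ → Bool := onCell 0 536870912 0 536870912 134217728 67108864
    (rowF 1 false false false .up 0 0 1 (qsf 0 536870912 536870912 536870912 0) ndF1q0 ndF5q1 pcF0 Cut.none Ext.none)

def k0_mm_001 : ∃ t, chk3 f_mm_001 t 1 1 1 = true :=
  ⟨(l 3), by decide +kernel⟩

theorem c_mm_001 : CertF 0 536870912 536870912 536870912 134217728 67108864 false false false .up 0 0 1
    ndF1q0 ndF5q1 pcF0 Cut.none Ext.none :=
  certF1 (fam := false) (s1 := false) (s2 := false) (a := 0) (b := 0) (c := 1) (cn := .up) (n1 := ndF1q0) (n2 := ndF5q1) (pc := pcF0) (cut := Cut.none) (xt := Ext.none) (P1 := 0) (W1 := 536870912) (P2 := 536870912) (W2 := 536870912) (P3 := 134217728) (W3 := 67108864)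
    rfl (fun _ => rfl) k0_mm_001

noncomputable def f_mm_011 : ℕ → ℕ → ℕ → ℕ → Bool := onCell 0 536870912 536870912 536870912 134217728 67108864
    (rowF 1 false false false .pnn 0 1 1 (qsf 0 536870912 536870912 536870912 1) ndF1q0 ndF5q1 pcF1 Cut.none Ext.none)

def k0_mm_011 : ∃ t, chk3 f_mm_011 t 1 1 1 = true :=
  ⟨(l 5), by decide +kernel⟩

theorem c_mm_011 : CertF 0 536870912 536870912 536870912 134217728 67108864 false false false .pnn 0 1 1
    ndF1q0 ndF5q1 pcF1 Cut.none Ext.none :=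
  certF1 (fam := false) (s1 := false) (s2 := false) (a := 0) (b := 1) (c := 1) (cn := .pnn) (n1 := ndF1q0) (n2 := ndF5q1) (pc := pcF1) (cut := Cut.none) (xt := Ext.none) (P1 := 0) (W1 := 536870912) (P2 := 536870912) (W2 := 536870912) (P3 := 134217728) (W3 := 67108864)
    rfl (fun _ => rfl) k0_mm_011

noncomputable def f_mm_012 : ℕ → ℕ → ℕ → ℕ → Bool := onCell 0 536870912 1073741824 536870912 134217728 67108864
    (rowF 0 false false false .pnp 0 1 2 (qsf 0 536870912 1073741824 536870912 1) ndF1q0 ndF5q2 pcF1 Cut.none Ext.none)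

def k0_mm_012 : ∃ t, chk3 f_mm_012 t 1 1 1 = true :=
  ⟨(l 5), by decide +kernel⟩

theorem c_mm_012 : CertF 0 536870912 1073741824 536870912 134217728 67108864 false false false .pnp 0 1 2
    ndF1q0 ndF5q2 pcF1 Cut.none Ext.none :=
  certF0 (fam := false) (s1 := false) (s2 := false) (a := 0) (b := 1) (c := 2) (cn := .pnp) (n1 := ndF1q0) (n2 := ndF5q2) (pc := pcF1) (cut := Cut.none) (xt := Ext.none) (P1 := 0) (W1 := 536870912) (P2 := 1073741824) (W2 := 536870912) (P3 := 134217728) (W3 := 67108864)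
    rfl k0_mm_012

noncomputable def f_mm_022 : ℕ → ℕ → ℕ → ℕ → Bool := onCell 0 536870912 1073741824 536870912 134217728 67108864
    (rowF 0 false false false .pp 0 2 2 (qsf 0 536870912 1073741824 536870912 2) ndF1q0 ndF5q2 pcF2 Cut.none Ext.none)

def k0_mm_022 : ∃ t, chk3 f_mm_022 t 1 1 1 = true :=
  ⟨(l 5), by decide +kernel⟩

theorem c_mm_022 : CertF 0 536870912 1073741824 536870912 134217728 67108864 false false false .pp 0 2 2
    ndF1q0 ndF5q2 pcF2 Cut.none Ext.none :=
  certF0 (fam := false) (s1 := false) (s2 := false) (a := 0) (b := 2) (c := 2) (cn := .pp) (n1 := ndF1q0) (n2 := ndF5q2) (pc := pcF2) (cut := Cut.none) (xt := Ext.none) (P1 := 0) (W1 := 536870912) (P2 := 1073741824) (W2 := 536870912) (P3 := 134217728) (W3 := 67108864)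
    rfl k0_mm_022

noncomputable def f_mm_023 : ℕ → ℕ → ℕ → ℕ → Bool := onCell 0 536870912 0 1230186008 134217728 67108864
    (rowF 0 false false false .up 0 2 3 (qsf 0 536870912 0 1230186008 2) ndF1q0 ndF5q3 pcF2 Cut.none Ext.none)

def k0_mm_023 : ∃ t, chk3 f_mm_023 t 1 1 1 = true :=
  ⟨(l 5), by decide +kernel⟩

theorem c_mm_023 : CertF 0 536870912 0 1230186008 134217728 67108864 false false false .up 0 2 3
    ndF1q0 ndF5q3 pcF2 Cut.none Ext.none :=
  certF0 (fam := false) (s1 := false) (s2 := false) (a := 0) (b := 2) (c := 3) (cn := .up) (n1 := ndF1q0) (n2 := ndF5q3) (pc := pcF2) (cut := Cut.none) (xt := Ext.none) (P1 := 0) (W1 := 536870912) (P2 := 0) (W2 := 1230186008) (P3 := 134217728) (W3 := 67108864)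
    rfl k0_mm_023

noncomputable def f_mm_033 : ℕ → ℕ → ℕ → ℕ → Bool := onCell 0 536870912 0 1230186008 134217728 67108864
    (rowF 0 false false false .pnn 0 3 3 (qsf 0 536870912 0 1230186008 3) ndF1q0 ndF5q3 pcF3 Cut.none Ext.none)

def k0_mm_033 : ∃ t, chk3 f_mm_033 t 1 1 1 = true :=
  ⟨(l 5), by decide +kernel⟩

theorem c_mm_033 : CertF 0 536870912 0 1230186008 134217728 67108864 false false false .pnn 0 3 3
    ndF1q0 ndF5q3 pcF3 Cut.none Ext.none :=
  certF0 (fam := false) (s1 := false) (s2 := false) (a := 0) (b := 3) (c := 3) (cn := .pnn) (n1 := ndF1q0) (n2 := ndF5q3) (pc := pcF3) (cut := Cut.none) (xt := Ext.none) (P1 := 0) (W1 := 536870912) (P2 := 0) (W2 := 1230186008) (P3 := 134217728) (W3 := 67108864)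
    rfl k0_mm_033

noncomputable def f_mm_101 : ℕ → ℕ → ℕ → ℕ → Bool := onCell 536870912 536870912 536870912 536870912 134217728 67108864
    (rowF 0 false false false .npn 1 0 1 (qsf 536870912 536870912 536870912 536870912 0) ndF1q1 ndF5q1 pcF0 Cut.none Ext.none)

def k0_mm_101 : ∃ t, chk3 f_mm_101 t 1 1 1 = true :=
  ⟨(l 3), by decide +kernel⟩

theorem c_mm_101 : CertF 536870912 536870912 536870912 536870912 134217728 67108864 false false false .npn 1 0 1
    ndF1q1 ndF5q1 pcF0 Cut.none Ext.none :=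
  certF0 (fam := false) (s1 := false) (s2 := false) (a := 1) (b := 0) (c := 1) (cn := .npn) (n1 := ndF1q1) (n2 := ndF5q1) (pc := pcF0) (cut := Cut.none) (xt := Ext.none) (P1 := 536870912) (W1 := 536870912) (P2 := 536870912) (W2 := 536870912) (P3 := 134217728) (W3 := 67108864)
    rfl k0_mm_101

noncomputable def f_mm_102 : ℕ → ℕ → ℕ → ℕ → Bool := onCell 536870912 536870912 1073741824 536870912 134217728 67108864
    (rowF 0 false false false .npp 1 0 2 (qsf 536870912 536870912 1073741824 536870912 0) ndF1q1 ndF5q2 pcF0 Cut.none Ext.none)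

def k0_mm_102 : ∃ t, chk3 f_mm_102 t 1 1 1 = true :=
  ⟨(l 3), by decide +kernel⟩

theorem c_mm_102 : CertF 536870912 536870912 1073741824 536870912 134217728 67108864 false false false .npp 1 0 2
    ndF1q1 ndF5q2 pcF0 Cut.none Ext.none :=
  certF0 (fam := false) (s1 := false) (s2 := false) (a := 1) (b := 0) (c := 2) (cn := .npp) (n1 := ndF1q1) (n2 := ndF5q2) (pc := pcF0) (cut := Cut.none) (xt := Ext.none) (P1 := 536870912) (W1 := 536870912) (P2 := 1073741824) (W2 := 536870912) (P3 := 134217728) (W3 := 67108864)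
    rfl k0_mm_102

noncomputable def f_mm_112 : ℕ → ℕ → ℕ → ℕ → Bool := onCell 536870912 536870912 1073741824 536870912 134217728 67108864
    (rowF 0 false false false .dn 1 1 2 (qsf 536870912 536870912 1073741824 536870912 1) ndF1q1 ndF5q2 pcF1 Cut.none Ext.none)

def k0_mm_112 : ∃ t, chk3 f_mm_112 t 1 1 1 = true :=
  ⟨(l 3), by decide +kernel⟩

theorem c_mm_112 : CertF 536870912 536870912 1073741824 536870912 134217728 67108864 false false false .dn 1 1 2
    ndF1q1 ndF5q2 pcF1 Cut.none Ext.none :=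
  certF0 (fam := false) (s1 := false) (s2 := false) (a := 1) (b := 1) (c := 2) (cn := .dn) (n1 := ndF1q1) (n2 := ndF5q2) (pc := pcF1) (cut := Cut.none) (xt := Ext.none) (P1 := 536870912) (W1 := 536870912) (P2 := 1073741824) (W2 := 536870912) (P3 := 134217728) (W3 := 67108864)
    rfl k0_mm_112

noncomputable def f_mm_113 : ℕ → ℕ → ℕ → ℕ → Bool := onCell 536870912 536870912 0 1230186008 134217728 67108864
    (rowF 0 false false false .nn 1 1 3 (qsf 536870912 536870912 0 1230186008 1) ndF1q1 ndF5q3 pcF1 Cut.none Ext.none)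

def k0_mm_113 : ∃ t, chk3 f_mm_113 t 1 1 1 = true :=
  ⟨(l 5), by decide +kernel⟩

theorem c_mm_113 : CertF 536870912 536870912 0 1230186008 134217728 67108864 false false false .nn 1 1 3
    ndF1q1 ndF5q3 pcF1 Cut.none Ext.none :=
  certF0 (fam := false) (s1 := false) (s2 := false) (a := 1) (b := 1) (c := 3) (cn := .nn) (n1 := ndF1q1) (n2 := ndF5q3) (pc := pcF1) (cut := Cut.none) (xt := Ext.none) (P1 := 536870912) (W1 := 536870912) (P2 := 0) (W2 := 1230186008) (P3 := 134217728) (W3 := 67108864)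
    rfl k0_mm_113

noncomputable def f_mm_123 : ℕ → ℕ → ℕ → ℕ → Bool := onCell 536870912 536870912 0 1230186008 134217728 67108864
    (rowF 0 false false false .npn 1 2 3 (qsf 536870912 536870912 0 1230186008 2) ndF1q1 ndF5q3 pcF2 Cut.none Ext.none)

def k0_mm_123 : ∃ t, chk3 f_mm_123 t 1 1 1 = true :=
  ⟨(l 5), by decide +kernel⟩

theorem c_mm_123 : CertF 536870912 536870912 0 1230186008 134217728 67108864 false false false .npn 1 2 3
    ndF1q1 ndF5q3 pcF2 Cut.none Ext.none :=
  certF0 (fam := false) (s1 := false) (s2 := false) (a := 1) (b := 2) (c := 3) (cn := .npn) (n1 := ndF1q1) (n2 := ndF5q3) (pc := pcF2) (cut := Cut.none) (xt := Ext.none) (P1 := 536870912) (W1 := 536870912) (P2 := 0) (W2 := 1230186008) (P3 := 134217728) (W3 := 67108864)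
    rfl k0_mm_123

noncomputable def f_mm_133 : ℕ → ℕ → ℕ → ℕ → Bool := onCell 536870912 536870912 0 1230186008 134217728 67108864
    (rowF 0 false false false .dn 1 3 3 (qsf 536870912 536870912 0 1230186008 3) ndF1q1 ndF5q3 pcF3 Cut.none Ext.none)

def k0_mm_133 : ∃ t, chk3 f_mm_133 t 1 1 1 = true :=
  ⟨(l 5), by decide +kernel⟩

theorem c_mm_133 : CertF 536870912 536870912 0 1230186008 134217728 67108864 false false false .dn 1 3 3
    ndF1q1 ndF5q3 pcF3 Cut.none Ext.none :=
  certF0 (fam := false) (s1 := false) (s2 := false) (a := 1) (b := 3) (c := 3) (cn := .dn) (n1 := ndF1q1) (n2 := ndF5q3) (pc := pcF3) (cut := Cut.none) (xt := Ext.none) (P1 := 536870912) (W1 := 536870912) (P2 := 0) (W2 := 1230186008) (P3 := 134217728) (W3 := 67108864)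
    rfl k0_mm_133

noncomputable def cut_mm_202_a : Cut := Cut.of [[⟨0, 1, 0, 67108864⟩, ⟨1, 0, 0, 67108864⟩, ⟨2, 1, 0, 67108864⟩]]

noncomputable def f_mm_202_a : ℕ → ℕ → ℕ → ℕ → Bool := onCell 0 536870912 0 536870912 134217728 67108864
    (rowF 1 false false false .pp 2 0 2 (qsf 0 536870912 1073741824 536870912 0) ndF1q2a ndF5q2 pcF0 cut_mm_202_a Ext.none)

def k0_mm_202_a : ∃ t, chk3 f_mm_202_a t 2 4 1 = true :=
  ⟨(b (a (b (a (l 17092016) (l 16939080)) (l 17087696)) (b (a (l 16856936) (b (l 16786168) (l 16637896))) (a (b (l 16862536) (l 17057456)) (b (l 16711400) (l 16909768))))) (a (b (a (l 17285416) (b (l 17233984) (l 17270728))) (a (l 17333512) (l 17272952))) (b (a (c (l 17324776) (l 17013864)) (b (a (l 17049736) (l 16975072)) (l 17066112))) (a (l 17189680) (a (b (l 17116744) (l 17113208)) (b (l 17058408) (l 181093543175))))))), by decide +kernel⟩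

def k1_mm_202_a : ∃ t, chk3 f_mm_202_a t 3 16 1 = true :=
  ⟨(a (a (b (a (l 16728440) (l 16721136)) (b (l 16669040) (l 16701744))) (b (b (a (l 16714280) (l 16743688)) (a (l 16644216) (l 16696544))) (a (b (l 16687072) (l 16668992)) (b (b (l 16699576) (l 16683848)) (b (l 16664368) (l 16667368)))))) (a (b (a (b (a (l 16718544) (l 16760632)) (a (l 16722128) (b (l 16715896) (l 16687696)))) (b (a (b (l 6) (l 16704832)) (l 6)) (a (c (l 16728488) (l 16727648)) (a (b (l 6) (l 16721064)) (l 6))))) (a (b (a (l 16700544) (b (l 16688624) (l 16692024))) (a (l 16684512) (c (l 16719808) (l 16697000)))) (a (b (c (l 16715392) (l 16724608)) (b (c (l 16731800) (l 16709400)) (c (l 138680365543) (l 137606621047)))) (b (b (c (l 16728128) (l 16737688)) (c (a (l 16717800) (l 16730440)) (l 135996023655))) (a (c (b (l 138143499703) (l 166597650343)) (l 146196570807)) (b (c (l 165523915911) (l 169282010423)) (l 3))))))) (a (b (l 6) (b (l 6) (l 3))) (l 6)))), by decide +kernel⟩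

def k2_mm_202_a : ∃ t, chk3 f_mm_202_a t 3 17 1 = true :=
  ⟨(a (a (b (a (l 16637136) (l 16657408)) (a (b (l 16708040) (l 16797272)) (l 16668688))) (c (a (b (b (l 16675072) (l 16659680)) (a (l 16744656) (l 16698832))) (b (b (l 16674920) (l 16704112)) (b (a (l 16685376) (l 145122785047)) (l 187535604439)))) (a (b (l 16674480) (a (l 16661896) (l 16694464))) (b (a (l 16669640) (l 16703104)) (a (l 146733387847) (l 154249594567)))))) (a (c (a (b (a (b (l 16693696) (l 141901568855)) (b (a (l 16703392) (l 139217223463)) (l 178945679271))) (a (b (l 180019389687) (l 3)) (l 3))) (b (a (b (a (l 144585936407) (l 170892623991)) (l 3)) (l 3)) (l 3))) (a (b (a (b (l 16691272) (l 141901564279)) (b (l 138143480695) (l 181093158727))) (a (b (l 181093126119) (l 3)) (l 3))) (b (a (b (a (l 150491502631) (l 174113836215)) (l 3)) (l 3)) (l 3)))) (l 3))), by decide +kernel⟩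

def k3_mm_202_a : ∃ t, chk3 f_mm_202_a t 3 9 1 = true :=
  ⟨(a (b (b (a (a (l 16891440) (c (l 16954232) (l 16682584))) (a (c (a (l 139754261735) (l 188072684919)) (l 183777487847)) (l 3))) (c (a (a (l 17086840) (l 197736718375)) (l 3)) (a (a (l 16840096) (l 192367547479)) (l 3)))) (a (a (b (a (l 142438701687) (l 208474087719)) (l 3)) (l 3)) (l 3))) (l 3)), by decide +kernel⟩

def k4_mm_202_a : ∃ t, chk3 f_mm_202_a t 1 5 1 = true :=
  ⟨(a (b (a (a (b (l 17288288) (l 17216672)) (b (l 17226072) (l 17136784))) (a (b (a (l 17172304) (l 137607215703)) (a (l 154787070439) (l 193978739495))) (b (a (l 153176549975) (l 217600996519)) (l 3)))) (a (a (b (l 17139064) (l 154787017799)) (b (l 173577677543) (l 191294250071))) (l 3))) (l 3)), by decide +kernel⟩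

def k5_mm_202_a : ∃ t, chk3 f_mm_202_a t 1 3 1 = true :=
  ⟨(b (a (b (a (a (b (l 193978565223) (l 3)) (l 3)) (l 3)) (l 3)) (l 3)) (l 3)), by decide +kernel⟩

theorem s6_mm_202_a : ∃ t, chk3 f_mm_202_a t 3 8 1 = true := ex3_b k1_mm_202_a k2_mm_202_a

theorem s7_mm_202_a : ∃ t, chk3 f_mm_202_a t 3 4 1 = true := ex3_b s6_mm_202_a k3_mm_202_a

theorem s8_mm_202_a : ∃ t, chk3 f_mm_202_a t 1 4 1 = true := ex3_a k0_mm_202_a s7_mm_202_a

theorem s9_mm_202_a : ∃ t, chk3 f_mm_202_a t 1 2 1 = true := ex3_b s8_mm_202_a k4_mm_202_a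

theorem s10_mm_202_a : ∃ t, chk3 f_mm_202_a t 1 1 1 = true := ex3_b s9_mm_202_a k5_mm_202_a

theorem c_mm_202_a : CertF 0 536870912 1073741824 536870912 134217728 67108864 false false false .pp 2 0 2
    ndF1q2a ndF5q2 pcF0 cut_mm_202_a Ext.none :=
  certF1 (fam := false) (s1 := false) (s2 := false) (a := 2) (b := 0) (c := 2) (cn := .pp) (n1 := ndF1q2a) (n2 := ndF5q2) (pc := pcF0) (cut := cut_mm_202_a) (xt := Ext.none) (P1 := 0) (W1 := 536870912) (P2 := 1073741824) (W2 := 536870912) (P3 := 134217728) (W3 := 67108864)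
    rfl (fun _ => rfl) s10_mm_202_a

noncomputable def cut_mm_202_b : Cut := Cut.of [[⟨0, 1, 0, 67108864⟩, ⟨1, 0, 0, 67108864⟩, ⟨2, 1, 0, 67108864⟩]]

noncomputable def f_mm_202_b : ℕ → ℕ → ℕ → ℕ → Bool := onCell 1239849684 370763052 0 536870912 134217728 67108864
    (rowF 1 false false false .pp 2 0 2 (qsf 1239849684 370763052 1073741824 536870912 0) ndF1q2b ndF5q2 pcF0 cut_mm_202_b Ext.none)

def k0_mm_202_b : ∃ t, chk3 f_mm_202_b t 1 1 1 = true :=
  ⟨(b (a (b (b (a (b (a (l 17062728) (l 17342728)) (l 17590496)) (b (l 17909496) (a (l 17922376) (l 18093864)))) (a (b (a (l 17449936) (l 17709464)) (a (l 17468088) (l 17644544))) (b (l 17938496) (l 17802600)))) (b (a (b (a (l 17402136) (l 17543304)) (a (l 17317648) (l 17442296))) (b (l 17673072) (l 203106941191))) (a (b (a (l 17231824) (l 17339344)) (a (l 33991444967) (l 3))) (l 3)))) (b (b (a (b (a (l 18245712) (l 18339000)) (l 18188304)) (b (l 18326032) (l 3))) (a (b (l 18022624) (l 3)) (l 3))) (l 3))) (a (b (a (b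 (b (a (b (l 43654972919) (l 198273652679)) (l 3)) (l 3)) (l 3)) (l 3)) (l 2)) (l 2))), by decide +kernel⟩

theorem c_mm_202_b : CertF 1239849684 370763052 1073741824 536870912 134217728 67108864 false false false .pp 2 0 2
    ndF1q2b ndF5q2 pcF0 cut_mm_202_b Ext.none :=
  certF1 (fam := false) (s1 := false) (s2 := false) (a := 2) (b := 0) (c := 2) (cn := .pp) (n1 := ndF1q2b) (n2 := ndF5q2) (pc := pcF0) (cut := cut_mm_202_b) (xt := Ext.none) (P1 := 1239849684) (W1 := 370763052) (P2 := 1073741824) (W2 := 536870912) (P3 := 134217728) (W3 := 67108864)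
    rfl (fun _ => rfl) k0_mm_202_b

noncomputable def f_mm_203_a : ℕ → ℕ → ℕ → ℕ → Bool := onCell 0 536870912 0 1230186008 134217728 67108864
    (rowF 0 false false false .up 2 0 3 (qsf 0 536870912 0 1230186008 0) ndF1q2a ndF5q3 pcF0 Cut.none Ext.none)

def k0_mm_203_a : ∃ t, chk3 f_mm_203_a t 1 1 1 = true :=
  ⟨(b (l 2) (b (l 2) (l 3))), by decide +kernel⟩

theorem c_mm_203_a : CertF 0 536870912 0 1230186008 134217728 67108864 false false false .up 2 0 3
    ndF1q2a ndF5q3 pcF0 Cut.none Ext.none :=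
  certF0 (fam := false) (s1 := false) (s2 := false) (a := 2) (b := 0) (c := 3) (cn := .up) (n1 := ndF1q2a) (n2 := ndF5q3) (pc := pcF0) (cut := Cut.none) (xt := Ext.none) (P1 := 0) (W1 := 536870912) (P2 := 0) (W2 := 1230186008) (P3 := 134217728) (W3 := 67108864)
    rfl k0_mm_203_a

noncomputable def f_mm_203_b : ℕ → ℕ → ℕ → ℕ → Bool := onCell 1239849684 370763052 0 1230186008 134217728 67108864
    (rowF 0 false false false .up 2 0 3 (qsf 1239849684 370763052 0 1230186008 0) ndF1q2b ndF5q3 pcF0 Cut.none Ext.none)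

def k0_mm_203_b : ∃ t, chk3 f_mm_203_b t 1 1 1 = true :=
  ⟨(b (l 3) (b (l 3) (a (l 3) (l 3)))), by decide +kernel⟩

theorem c_mm_203_b : CertF 1239849684 370763052 0 1230186008 134217728 67108864 false false false .up 2 0 3
    ndF1q2b ndF5q3 pcF0 Cut.none Ext.none :=
  certF0 (fam := false) (s1 := false) (s2 := false) (a := 2) (b := 0) (c := 3) (cn := .up) (n1 := ndF1q2b) (n2 := ndF5q3) (pc := pcF0) (cut := Cut.none) (xt := Ext.none) (P1 := 1239849684) (W1 := 370763052) (P2 := 0) (W2 := 1230186008) (P3 := 134217728) (W3 := 67108864)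
    rfl k0_mm_203_b

noncomputable def f_mm_213_a : ℕ → ℕ → ℕ → ℕ → Bool := onCell 0 536870912 0 1230186008 134217728 67108864
    (rowF 0 false false false .pnn 2 1 3 (qsf 0 536870912 0 1230186008 1) ndF1q2a ndF5q3 pcF1 Cut.none Ext.none)

def k0_mm_213_a : ∃ t, chk3 f_mm_213_a t 1 1 1 = true :=
  ⟨(b (a (l 3) (l 5)) (b (l 3) (l 3))), by decide +kernel⟩

theorem c_mm_213_a : CertF 0 536870912 0 1230186008 134217728 67108864 false false false .pnn 2 1 3
    ndF1q2a ndF5q3 pcF1 Cut.none Ext.none :=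
  certF0 (fam := false) (s1 := false) (s2 := false) (a := 2) (b := 1) (c := 3) (cn := .pnn) (n1 := ndF1q2a) (n2 := ndF5q3) (pc := pcF1) (cut := Cut.none) (xt := Ext.none) (P1 := 0) (W1 := 536870912) (P2 := 0) (W2 := 1230186008) (P3 := 134217728) (W3 := 67108864)
    rfl k0_mm_213_a

noncomputable def f_mm_213_b : ℕ → ℕ → ℕ → ℕ → Bool := onCell 1239849684 370763052 0 1230186008 134217728 67108864
    (rowF 0 false false false .pnn 2 1 3 (qsf 1239849684 370763052 0 1230186008 1) ndF1q2b ndF5q3 pcF1 Cut.none Ext.none)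

def k0_mm_213_b : ∃ t, chk3 f_mm_213_b t 1 1 1 = true :=
  ⟨(b (l 3) (b (l 3) (a (l 3) (l 1)))), by decide +kernel⟩

theorem c_mm_213_b : CertF 1239849684 370763052 0 1230186008 134217728 67108864 false false false .pnn 2 1 3
    ndF1q2b ndF5q3 pcF1 Cut.none Ext.none :=
  certF0 (fam := false) (s1 := false) (s2 := false) (a := 2) (b := 1) (c := 3) (cn := .pnn) (n1 := ndF1q2b) (n2 := ndF5q3) (pc := pcF1) (cut := Cut.none) (xt := Ext.none) (P1 := 1239849684) (W1 := 370763052) (P2 := 0) (W2 := 1230186008) (P3 := 134217728) (W3 := 67108864)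
    rfl k0_mm_213_b

noncomputable def f_mm_303 : ℕ → ℕ → ℕ → ℕ → Bool := onCell 0 536870912 0 1230186008 134217728 67108864
    (rowF 2 false false false .npn 3 0 3 (qsf 1610612736 536870912 0 1230186008 0) ndF1q3 ndF5q3 pcF0 Cut.none Ext.none)

def k0_mm_303 : ∃ t, chk3 f_mm_303 t 1 1 1 = true :=
  ⟨(b (l 3) (b (l 3) (a (l 3) (l 1)))), by decide +kernel⟩

theorem c_mm_303 : CertF 1610612736 536870912 0 1230186008 134217728 67108864 false false false .npn 3 0 3
    ndF1q3 ndF5q3 pcF0 Cut.none Ext.none :=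
  certF2 (fam := false) (s1 := false) (s2 := false) (a := 3) (b := 0) (c := 3) (cn := .npn) (n1 := ndF1q3) (n2 := ndF5q3) (pc := pcF0) (cut := Cut.none) (xt := Ext.none) (P1 := 1610612736) (W1 := 536870912) (P2 := 0) (W2 := 1230186008) (P3 := 134217728) (W3 := 67108864)
    rfl (fun _ => rfl) k0_mm_303

noncomputable def f_mm_313 : ℕ → ℕ → ℕ → ℕ → Bool := onCell 1610612736 536870912 0 1230186008 134217728 67108864
    (rowF 0 false false false .dn 3 1 3 (qsf 1610612736 536870912 0 1230186008 1) ndF1q3 ndF5q3 pcF1 Cut.none Ext.none)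

def k0_mm_313 : ∃ t, chk3 f_mm_313 t 1 1 1 = true :=
  ⟨(b (l 3) (l 1)), by decide +kernel⟩

theorem c_mm_313 : CertF 1610612736 536870912 0 1230186008 134217728 67108864 false false false .dn 3 1 3
    ndF1q3 ndF5q3 pcF1 Cut.none Ext.none :=
  certF0 (fam := false) (s1 := false) (s2 := false) (a := 3) (b := 1) (c := 3) (cn := .dn) (n1 := ndF1q3) (n2 := ndF5q3) (pc := pcF1) (cut := Cut.none) (xt := Ext.none) (P1 := 1610612736) (W1 := 536870912) (P2 := 0) (W2 := 1230186008) (P3 := 134217728) (W3 := 67108864)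
    rfl k0_mm_313

end Pool.Agent.Strip051.G.I1_8_3_16.Tab.C.FB15

namespace Pool.Agent.Strip051.G.I1_8_3_16.Tab.C.FB20

open Pool.Agent.Strip051.PB Pool.Agent.Strip051.PB.T
open Pool.Agent.Strip051.G.I1_8_3_16.Tab

noncomputable def f_pp_001 : ℕ → ℕ → ℕ → ℕ → Bool := onCell 0 536870912 0 536870912 134217728 67108864
    (rowF 1 false true true .up 0 0 1 (qsf 0 536870912 536870912 536870912 0) ndF2q0 ndF0q1 pcF0 Cut.none Ext.none)

def k0_pp_001 : ∃ t, chk3 f_pp_001 t 1 1 1 = true :=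
  ⟨(a (l 3) (b (l 3) (l 3))), by decide +kernel⟩

theorem c_pp_001 : CertF 0 536870912 536870912 536870912 134217728 67108864 false true true .up 0 0 1
    ndF2q0 ndF0q1 pcF0 Cut.none Ext.none :=
  certF1 (fam := false) (s1 := true) (s2 := true) (a := 0) (b := 0) (c := 1) (cn := .up) (n1 := ndF2q0) (n2 := ndF0q1) (pc := pcF0) (cut := Cut.none) (xt := Ext.none) (P1 := 0) (W1 := 536870912) (P2 := 536870912) (W2 := 536870912) (P3 := 134217728) (W3 := 67108864)
    rfl (fun _ => rfl) k0_pp_001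

noncomputable def cut_pp_011 : Cut := Cut.of [[⟨0, 0, 0, 67108864⟩, ⟨1, 1, 0, 67108864⟩, ⟨2, 1, 0, 67108864⟩]]

noncomputable def f_pp_011 : ℕ → ℕ → ℕ → ℕ → Bool := onCell 0 536870912 536870912 536870912 134217728 67108864
    (rowF 0 false true true .pnn 0 1 1 (qsf 0 536870912 536870912 536870912 1) ndF2q0 ndF0q1 pcF1 cut_pp_011 Ext.none)

def k0_pp_011 : ∃ t, chk3 f_pp_011 t 1 1 1 = true :=
  ⟨(b (l 3) (b (l 3) (b (l 3) (a (a (b (l 3) (a (b (l 3) (a (l 6) (l 3))) (l 3))) (l 3)) (l 3))))), by decide +kernel⟩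

theorem c_pp_011 : CertF 0 536870912 536870912 536870912 134217728 67108864 false true true .pnn 0 1 1
    ndF2q0 ndF0q1 pcF1 cut_pp_011 Ext.none :=
  certF0 (fam := false) (s1 := true) (s2 := true) (a := 0) (b := 1) (c := 1) (cn := .pnn) (n1 := ndF2q0) (n2 := ndF0q1) (pc := pcF1) (cut := cut_pp_011) (xt := Ext.none) (P1 := 0) (W1 := 536870912) (P2 := 536870912) (W2 := 536870912) (P3 := 134217728) (W3 := 67108864)
    rfl k0_pp_011

noncomputable def cut_pp_012 : Cut := Cut.of [[⟨0, 0, 0, 67108864⟩, ⟨1, 1, 0, 67108864⟩, ⟨2, 1, 0, 67108864⟩]]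

noncomputable def f_pp_012 : ℕ → ℕ → ℕ → ℕ → Bool := onCell 536870912 536870912 0 536870912 134217728 67108864
    (rowF 2 false true true .pnp 0 1 2 (qsf 0 536870912 0 536870912 1) ndF2q0 ndF0q2 pcF1 cut_pp_012 Ext.none)

def k0_pp_012 : ∃ t, chk3 f_pp_012 t 1 1 1 = true :=
  ⟨(a (b (a (b (l 2) (l 17167704)) (b (l 17124064) (b (l 17020352) (l 17073272)))) (a (a (b (l 2) (b (l 17749936) (b (a (a (l 2) (l 154251826263)) (l 146735595591)) (l 3)))) (b (l 17253952) (b (l 17440056) (b (l 17537896) (l 586432429351))))) (a (b (l 17202024) (b (l 17341616) (l 142977200455))) (b (l 17143864) (b (l 17239560) (l 130628894791)))))) (b (a (b (l 17296160) (l 17239616)) (b (a (l 17263992) (l 16911064)) (a (l 17107576) (a (l 17062920) (l 17027896))))) (a (b (a (l 17082928) (l 17027888)) (a (b (l 17137232) (l 17311624)) (b (l 17040920) (l 17212664)))) (b (a (l 17138800) (a (l 16977280) (b (l 16955928) (a (l 16920328) (l 16896000))))) (a (b (l 16974408) (a (l 16983272) (l 17013672)))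 (b (a (l 16916760) (a (l 16880336) (a (l 16860448) (a (l 16850416) (l 16843648))))) (b (a (l 16880360) (a (l 16851552) (l 6))) (a (b (l 16874736) (l 16913208)) (l 6))))))))), by decide +kernel⟩

theorem c_pp_012 : CertF 0 536870912 0 536870912 134217728 67108864 false true true .pnp 0 1 2
    ndF2q0 ndF0q2 pcF1 cut_pp_012 Ext.none :=
  certF2 (fam := false) (s1 := true) (s2 := true) (a := 0) (b := 1) (c := 2) (cn := .pnp) (n1 := ndF2q0) (n2 := ndF0q2) (pc := pcF1) (cut := cut_pp_012) (xt := Ext.none) (P1 := 0) (W1 := 536870912) (P2 := 0) (W2 := 536870912) (P3 := 134217728) (W3 := 67108864)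
    rfl (fun _ => rfl) k0_pp_012

noncomputable def cut_pp_022 : Cut := Cut.of [[⟨0, 0, 0, 67108864⟩, ⟨1, 1, 0, 67108864⟩, ⟨2, 1, 0, 67108864⟩]]

noncomputable def f_pp_022 : ℕ → ℕ → ℕ → ℕ → Bool := onCell 0 536870912 0 536870912 134217728 67108864
    (rowF 0 false true true .pp 0 2 2 (qsf 0 536870912 0 536870912 2) ndF2q0 ndF0q2 pcF2 cut_pp_022 Ext.none)

def k0_pp_022 : ∃ t, chk3 f_pp_022 t 2 2 1 = true :=
  ⟨(a (b (a (a (b (a (b (a (a (c (l 16959296) (l 16612840)) (l 16614848)) (l 16611704)) (a (c (l 16924664) (l 16603160)) (l 16604200))) (l 16644896)) (a (a (b (c (l 16868304) (l 16595984)) (c (l 16781552) (l 16588400))) (b (l 16597600) (l 16590728))) (b (l 16592560) (l 16628688)))) (b (a (l 16595872) (l 16607632)) (a (l 16775296) (b (l 16581672) (l 16636448))))) (a (a (b (l 16640136) (a (b (l 16572312) (l 16568552)) (l 16568008))) (l 16562040)) (l 16551144))) (a (a (b (a (b (a (c (l 16659040) (l 16580360)) (l 16604624)) (a (c (l 16632800) (l 16615304)) (l 16619760)))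 (b (l 16665552) (c (l 16712216) (l 16698648)))) (a (b (a (c (a (l 16629208) (l 16605528)) (a (l 16609816) (l 16587104))) (c (l 16646088) (l 16628968))) (a (c (b (l 16625848) (l 16635952)) (b (l 16606360) (l 16626864))) (c (l 16710120) (l 16692360)))) (b (a (l 16655584) (l 16674984)) (a (a (l 16673944) (l 16673232)) (c (l 16730200) (l 16716624)))))) (b (a (b (l 16683800) (a (l 16589752) (l 16567976))) (b (a (l 16564640) (l 16564888)) (a (l 16584176) (l 16610208)))) (a (b (a (l 16675152) (l 16690288)) (a (c (l 16764152) (l 16774096)) (b (l 16607920) (l 16564176)))) (b (a (b (l 16562552) (l 16559760)) (l 16563864)) (l 16572032))))) (a (l 16574760) (l 16587728)))) (a (b (l 16544624) (l 16596416)) (l 1))), by decide +kernel⟩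

def k1_pp_022 : ∃ t, chk3 f_pp_022 t 8 6 1 = true :=
  ⟨(b (a (a (b (a (a (c (b (l 16602976) (l 16624472)) (b (l 16604224) (l 16605248))) (c (b (l 16600488) (l 16622320)) (b (l 16581960) (l 16604344)))) (b (c (l 16643680) (l 16626616)) (c (l 16678312) (l 16661760)))) (a (b (c (a (a (l 16624704) (l 16623648)) (l 16645600)) (a (a (l 16606112) (l 16605704)) (l 16628464))) (a (c (b (l 16614456) (l 16621224)) (b (a (l 16587536) (l 16589720)) (c (l 16614120) (l 16621776)))) (c (l 16660400) (l 16647040)))) (a (b (c (l 16623528) (l 16628688)) (c (l 16665640) (l 16682968))) (b (l 16657368) (l 16691736))))) (b (a (b (l 16676416) (a (l 16610760) (l 16607048))) (b (l 16671336) (l 16763960))) (a (b (c (l 16752096) (l 16738888)) (a (l 16707112) (l 16580184))) (l 16581872)))) (a (b (a (b (l 16700296) (l 16573520)) (l 16577760)) (l 16597960)) (l 16604392))) (a (a (b (a (b (b (c (a (l 16629040) (l 16627736)) (a (b (l 16626728) (l 16630672)) (l 16631112))) (a (c (l 16633320) (a (l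 16634888) (l 16616600))) (c (l 16651024) (l 16661464)))) (a (c (b (a (l 16634848) (l 16613672)) (a (l 16631448) (l 16600232))) (b (b (l 16642336) (l 16645112)) (a (l 16648008) (l 16608128)))) (a (c (l 16686448) (l 16675608)) (l 16622328)))) (b (a (c (l 16718328) (l 16707808)) (l 16592272)) (l 16622040))) (a (c (c (b (l 16641040) (l 16661352)) (l 16656632)) (b (l 16633952) (l 16649392))) (c (l 16658664) (l 16626744)))) (c (l 16719408) (l 16717040))) (b (l 16664296) (a (l 16673280) (l 16698888))))), by decide +kernel⟩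

def k2_pp_022 : ∃ t, chk3 f_pp_022 t 8 7 1 = true :=
  ⟨(b (b (b (a (a (a (a (c (c (a (l 16677680) (l 16658952)) (l 16674480)) (l 16668560)) (c (l 16660160) (l 16651672))) (l 16683736)) (l 16678616)) (l 16698712)) (b (a (a (a (a (c (c (l 16682600) (l 16668280)) (l 16662992)) (l 16691728)) (l 16677704)) (l 16693344)) (l 16731688)) (a (l 6) (l 16741064)))) (a (l 6) (a (l 6) (b (l 16769416) (l 16786928))))) (a (l 6) (a (l 6) (l 1)))), by decide +kernel⟩

def k3_pp_022 : ∃ t, chk3 f_pp_022 t 9 3 1 = true :=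
  ⟨(b (a (b (l 16629952) (b (l 16685592) (l 16734704))) (b (l 16658920) (l 195454767095))) (b (a (b (a (l 16772960) (l 1)) (l 1)) (l 1)) (l 1))), by decide +kernel⟩

def k4_pp_022 : ∃ t, chk3 f_pp_022 t 5 3 1 = true :=
  ⟨(b (l 1) (l 1)), by decide +kernel⟩

def k5_pp_022 : ∃ t, chk3 f_pp_022 t 3 1 1 = true :=
  ⟨(l 1), by decide +kernel⟩

theorem s6_pp_022 : ∃ t, chk3 f_pp_022 t 8 3 1 = true := ex3_b k1_pp_022 k2_pp_022

theorem s7_pp_022 : ∃ t, chk3 f_pp_022 t 4 3 1 = true := ex3_a s6_pp_022 k3_pp_022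

theorem s8_pp_022 : ∃ t, chk3 f_pp_022 t 2 3 1 = true := ex3_a s7_pp_022 k4_pp_022

theorem s9_pp_022 : ∃ t, chk3 f_pp_022 t 2 1 1 = true := ex3_b k0_pp_022 s8_pp_022

theorem s10_pp_022 : ∃ t, chk3 f_pp_022 t 1 1 1 = true := ex3_a s9_pp_022 k5_pp_022

theorem c_pp_022 : CertF 0 536870912 0 536870912 134217728 67108864 false true true .pp 0 2 2
    ndF2q0 ndF0q2 pcF2 cut_pp_022 Ext.none :=
  certF0 (fam := false) (s1 := true) (s2 := true) (a := 0) (b := 2) (c := 2) (cn := .pp) (n1 := ndF2q0) (n2 := ndF0q2) (pc := pcF2) (cut := cut_pp_022) (xt := Ext.none) (P1 := 0) (W1 := 536870912) (P2 := 0) (W2 := 536870912) (P3 := 134217728) (W3 := 67108864)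
    rfl s10_pp_022

noncomputable def f_pp_101 : ℕ → ℕ → ℕ → ℕ → Bool := onCell 536870912 536870912 536870912 536870912 134217728 67108864
    (rowF 0 false true true .npn 1 0 1 (qsf 536870912 536870912 536870912 536870912 0) ndF2q1 ndF0q1 pcF0 Cut.none Ext.none)

def k0_pp_101 : ∃ t, chk3 f_pp_101 t 1 1 1 = true :=
  ⟨(b (l 3) (a (l 3) (l 3))), by decide +kernel⟩

theorem c_pp_101 : CertF 536870912 536870912 536870912 536870912 134217728 67108864 false true true .npn 1 0 1
    ndF2q1 ndF0q1 pcF0 Cut.none Ext.none :=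
  certF0 (fam := false) (s1 := true) (s2 := true) (a := 1) (b := 0) (c := 1) (cn := .npn) (n1 := ndF2q1) (n2 := ndF0q1) (pc := pcF0) (cut := Cut.none) (xt := Ext.none) (P1 := 536870912) (W1 := 536870912) (P2 := 536870912) (W2 := 536870912) (P3 := 134217728) (W3 := 67108864)
    rfl k0_pp_101

noncomputable def f_pp_102 : ℕ → ℕ → ℕ → ℕ → Bool := onCell 536870912 536870912 0 536870912 134217728 67108864
    (rowF 0 false true true .npp 1 0 2 (qsf 536870912 536870912 0 536870912 0) ndF2q1 ndF0q2 pcF0 Cut.none Ext.none)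

def k0_pp_102 : ∃ t, chk3 f_pp_102 t 2 1 1 = true :=
  ⟨(b (a (b (l 2) (l 17332744)) (b (l 17379840) (a (l 17453944) (l 17538440)))) (a (a (b (l 2) (b (l 17580080) (b (l 177337056807) (l 3)))) (b (l 17506152) (b (l 17578344) (b (l 175726386263) (l 3))))) (b (b (l 17622064) (a (l 17565184) (l 17582712))) (b (a (b (l 17575088) (l 17573000)) (b (l 17564624) (a (l 17553048) (l 182168245335)))) (b (a (b (l 176799831367) (l 3)) (a (l 170357353479) (l 346450940519))) (l 3)))))), by decide +kernel⟩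

def k1_pp_102 : ∃ t, chk3 f_pp_102 t 3 2 1 = true :=
  ⟨(a (b (a (l 17549136) (l 17661336)) (a (l 17794040) (b (l 17630248) (l 17602352)))) (b (a (l 17646096) (b (l 17675936) (l 17395200))) (b (a (l 17505392) (l 17022368)) (a (l 17379704) (a (l 16834064) (l 16584848)))))), by decide +kernel⟩

def k2_pp_102 : ∃ t, chk3 f_pp_102 t 3 6 1 = true :=
  ⟨(a (b (a (l 17602696) (l 17530848)) (a (l 17558416) (b (l 17447720) (l 17374640)))) (b (a (a (l 17320184) (l 17005168)) (a (l 16575072) (b (l 16492072) (l 16524616)))) (a (b (l 16980672) (a (l 17015744) (l 16646488))) (a (b (l 16571032) (l 16622360)) (b (l 16530952) (b (l 16605360) (a (l 16619344) (l 16608024)))))))), by decide +kernel⟩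

def k3_pp_102 : ∃ t, chk3 f_pp_102 t 3 7 1 = true :=
  ⟨(a (b (b (a (l 17502392) (a (l 17366360) (b (l 17211032) (l 17154232)))) (c (a (b (l 17577296) (l 176799776839)) (a (a (l 171967515127) (l 173041451655)) (a (l 170356921303) (a (l 167672395079) (l 165524772775))))) (a (b (l 17353144) (a (l 17369424) (l 168209030023))) (b (a (l 17152176) (l 163376545719)) (a (b (l 162839840711) (l 3)) (l 213842490519)))))) (a (b (l 3) (l 3)) (l 3))) (b (a (c (b (a (l 17106192) (b (l 16700680) (l 16730496))) (b (a (a (l 160155391511) (l 158007939751)) (a (l 154786572935) (a (l 153175942983) (l 152102189415)))) (l 3))) (b (a (l 16710072) (b (l 16677360) (l 16706664))) (b (a (a (l 159081549527) (l 158007763527)) (b (a (l 16733240) (l 160692059943)) (a (l 153712793719) (l 192904352359)))) (l 3)))) (b (a (b (a (l 16672256) (l 16661184)) (b (a (l 16694952) (l 16684312)) (a (c (l 16720336) (l 16700760)) (a (c (l 16711376) (l 16694096)) (c (l 16705384) (l 16689680)))))) (b (a (l 16650184)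 (a (l 16642088) (l 16636808))) (a (b (c (l 16680232) (l 16667464)) (b (c (a (l 16695328) (l 16689368)) (l 16679216)) (c (a (l 157470791831) (c (l 152102083255) (l 153712683959))) (a (l 161228861879) (l 157470758327))))) (b (c (a (l 16671160) (l 16665224)) (a (l 16660912) (l 16656696))) (b (a (c (c (l 16686248) (l 16680736)) (l 16672808)) (c (a (l 155860136775) (l 153712648231)) (a (l 16669696) (l 156933857639)))) (b (a (c (c (l 152102063639) (l 153712666455)) (l 156933873143)) (a (c (l 162302595159) (l 156933868183)) (l 3))) (l 3))))))) (b (b (a (a (b (c (l 160155195831) (l 162839514199)) (c (l 193441225255) (l 189146217703))) (a (c (l 151028397511) (l 153712716567)) (c (l 149417772343) (l 153175836343)))) (a (a (a (c (l 182703759495) (l 174113794935)) (l 3)) (l 3)) (l 3))) (l 3)) (l 3)))) (l 3))), by decide +kernel⟩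

theorem s4_pp_102 : ∃ t, chk3 f_pp_102 t 3 3 1 = true := ex3_b k2_pp_102 k3_pp_102

theorem s5_pp_102 : ∃ t, chk3 f_pp_102 t 3 1 1 = true := ex3_b k1_pp_102 s4_pp_102

theorem s6_pp_102 : ∃ t, chk3 f_pp_102 t 1 1 1 = true := ex3_a k0_pp_102 s5_pp_102

theorem c_pp_102 : CertF 536870912 536870912 0 536870912 134217728 67108864 false true true .npp 1 0 2
    ndF2q1 ndF0q2 pcF0 Cut.none Ext.none :=
  certF0 (fam := false) (s1 := true) (s2 := true) (a := 1) (b := 0) (c := 2) (cn := .npp) (n1 := ndF2q1) (n2 := ndF0q2) (pc := pcF0) (cut := Cut.none) (xt := Ext.none) (P1 := 536870912) (W1 := 536870912) (P2 := 0) (W2 := 536870912) (P3 := 134217728) (W3 := 67108864)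
    rfl s6_pp_102

noncomputable def f_pp_112 : ℕ → ℕ → ℕ → ℕ → Bool := onCell 536870912 536870912 0 536870912 134217728 67108864
    (rowF 2 false true true .dn 1 1 2 (qsf 536870912 536870912 0 536870912 1) ndF2q1 ndF0q2 pcF1 Cut.none Ext.none)

def k0_pp_112 : ∃ t, chk3 f_pp_112 t 1 1 1 = true :=
  ⟨(a (b (b (l 88083422327) (a (l 17777304) (l 17712336))) (b (a (b (l 17733488) (l 17709272)) (l 1)) (a (a (b (l 17677352) (b (l 153714739495) (l 3))) (l 592740887559)) (l 1)))) (l 1)), by decide +kernel⟩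

theorem c_pp_112 : CertF 536870912 536870912 0 536870912 134217728 67108864 false true true .dn 1 1 2
    ndF2q1 ndF0q2 pcF1 Cut.none Ext.none :=
  certF2 (fam := false) (s1 := true) (s2 := true) (a := 1) (b := 1) (c := 2) (cn := .dn) (n1 := ndF2q1) (n2 := ndF0q2) (pc := pcF1) (cut := Cut.none) (xt := Ext.none) (P1 := 536870912) (W1 := 536870912) (P2 := 0) (W2 := 536870912) (P3 := 134217728) (W3 := 67108864)
    rfl (fun _ => rfl) k0_pp_112

noncomputable def f_pp_202_a : ℕ → ℕ → ℕ → ℕ → Bool := onCell 0 536870912 0 536870912 134217728 67108864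
    (rowF 0 false true true .pp 2 0 2 (qsf 0 536870912 0 536870912 0) ndF2q2a ndF0q2 pcF0 Cut.none Ext.none)

def k0_pp_202_a : ∃ t, chk3 f_pp_202_a t 1 1 1 = true :=
  ⟨(l 3), by decide +kernel⟩

theorem c_pp_202_a : CertF 0 536870912 0 536870912 134217728 67108864 false true true .pp 2 0 2
    ndF2q2a ndF0q2 pcF0 Cut.none Ext.none :=
  certF0 (fam := false) (s1 := true) (s2 := true) (a := 2) (b := 0) (c := 2) (cn := .pp) (n1 := ndF2q2a) (n2 := ndF0q2) (pc := pcF0) (cut := Cut.none) (xt := Ext.none) (P1 := 0) (W1 := 536870912) (P2 := 0) (W2 := 536870912) (P3 := 134217728) (W3 := 67108864)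
    rfl k0_pp_202_a

noncomputable def f_pp_202_b : ℕ → ℕ → ℕ → ℕ → Bool := onCell 1239849684 370763052 0 536870912 134217728 67108864
    (rowF 0 false true true .pp 2 0 2 (qsf 1239849684 370763052 0 536870912 0) ndF2q2b ndF0q2 pcF0 Cut.none Ext.none)

def k0_pp_202_b : ∃ t, chk3 f_pp_202_b t 1 1 1 = true :=
  ⟨(l 3), by decide +kernel⟩

theorem c_pp_202_b : CertF 1239849684 370763052 0 536870912 134217728 67108864 false true true .pp 2 0 2
    ndF2q2b ndF0q2 pcF0 Cut.none Ext.none :=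
  certF0 (fam := false) (s1 := true) (s2 := true) (a := 2) (b := 0) (c := 2) (cn := .pp) (n1 := ndF2q2b) (n2 := ndF0q2) (pc := pcF0) (cut := Cut.none) (xt := Ext.none) (P1 := 1239849684) (W1 := 370763052) (P2 := 0) (W2 := 536870912) (P3 := 134217728) (W3 := 67108864)
    rfl k0_pp_202_b

noncomputable def f_pm_001 : ℕ → ℕ → ℕ → ℕ → Bool := onCell 0 536870912 0 536870912 134217728 67108864
    (rowF 1 false true false .up 0 0 1 (qsf 0 536870912 536870912 536870912 0) ndF2q0 ndF0q1 pcF0 Cut.none Ext.none)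

def k0_pm_001 : ∃ t, chk3 f_pm_001 t 1 1 1 = true :=
  ⟨(a (l 4) (l 4)), by decide +kernel⟩

theorem c_pm_001 : CertF 0 536870912 536870912 536870912 134217728 67108864 false true false .up 0 0 1
    ndF2q0 ndF0q1 pcF0 Cut.none Ext.none :=
  certF1 (fam := false) (s1 := true) (s2 := false) (a := 0) (b := 0) (c := 1) (cn := .up) (n1 := ndF2q0) (n2 := ndF0q1) (pc := pcF0) (cut := Cut.none) (xt := Ext.none) (P1 := 0) (W1 := 536870912) (P2 := 536870912) (W2 := 536870912) (P3 := 134217728) (W3 := 67108864)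
    rfl (fun _ => rfl) k0_pm_001

noncomputable def cut_pm_011 : Cut := Cut.of [[⟨0, 0, 0, 67108864⟩, ⟨1, 1, 0, 67108864⟩, ⟨2, 1, 0, 67108864⟩]]

noncomputable def f_pm_011 : ℕ → ℕ → ℕ → ℕ → Bool := onCell 0 536870912 536870912 536870912 134217728 67108864
    (rowF 0 false true false .pnn 0 1 1 (qsf 0 536870912 536870912 536870912 1) ndF2q0 ndF0q1 pcF1 cut_pm_011 Ext.none)

def k0_pm_011 : ∃ t, chk3 f_pm_011 t 1 1 1 = true :=
  ⟨(a (b (l 4) (a (b (l 4) (b (l 4) (a (b (l 4) (a (b (l 4) (l 6)) (l 4))) (l 4)))) (l 4))) (l 4)), by decide +kernel⟩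

theorem c_pm_011 : CertF 0 536870912 536870912 536870912 134217728 67108864 false true false .pnn 0 1 1
    ndF2q0 ndF0q1 pcF1 cut_pm_011 Ext.none :=
  certF0 (fam := false) (s1 := true) (s2 := false) (a := 0) (b := 1) (c := 1) (cn := .pnn) (n1 := ndF2q0) (n2 := ndF0q1) (pc := pcF1) (cut := cut_pm_011) (xt := Ext.none) (P1 := 0) (W1 := 536870912) (P2 := 536870912) (W2 := 536870912) (P3 := 134217728) (W3 := 67108864)
    rfl k0_pm_011

noncomputable def cut_pm_012 : Cut := Cut.of [[⟨0, 0, 0, 67108864⟩, ⟨1, 1, 0, 67108864⟩, ⟨2, 1, 0, 67108864⟩]]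

noncomputable def f_pm_012 : ℕ → ℕ → ℕ → ℕ → Bool := onCell 536870912 536870912 0 536870912 134217728 67108864
    (rowF 2 false true false .pnp 0 1 2 (qsf 0 536870912 0 536870912 1) ndF2q0 ndF0q2 pcF1 cut_pm_012 Ext.none)

def k0_pm_012 : ∃ t, chk3 f_pm_012 t 1 1 1 = true :=
  ⟨(a (b (a (l 292696923255) (a (l 17444640) (l 17525680))) (a (l 29228141271) (b (l 17742832) (l 4)))) (b (a (a (b (l 17510008) (l 17691080)) (b (l 17531024) (l 17664832))) (a (b (l 17428056) (a (l 17522016) (l 17315752))) (b (l 16868248) (b (l 16721840) (l 16634184))))) (a (a (b (l 17722584) (l 4)) (b (a (l 17620608) (l 17487744)) (l 4))) (a (b (a (l 17271784) (b (l 17030048) (l 16686936))) (b (a (l 16693016) (l 96871588887)) (l 4))) (a (b (b (l 16494576) (l 16496512)) (b (l 101166418791) (l 4))) (b (b (l 16510984) (l 16556712)) (b (a (l 16673576) (b (l 16584912) (l 16648288))) (b (a (l 16697080) (l 6)) (l 6))))))))), by decide +kernel⟩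

theorem c_pm_012 : CertF 0 536870912 0 536870912 134217728 67108864 false true false .pnp 0 1 2
    ndF2q0 ndF0q2 pcF1 cut_pm_012 Ext.none :=
  certF2 (fam := false) (s1 := true) (s2 := false) (a := 0) (b := 1) (c := 2) (cn := .pnp) (n1 := ndF2q0) (n2 := ndF0q2) (pc := pcF1) (cut := cut_pm_012) (xt := Ext.none) (P1 := 0) (W1 := 536870912) (P2 := 0) (W2 := 536870912) (P3 := 134217728) (W3 := 67108864)
    rfl (fun _ => rfl) k0_pm_012

noncomputable def cut_pm_022 : Cut := Cut.of [[⟨0, 0, 0, 67108864⟩, ⟨1, 1, 0, 67108864⟩, ⟨2, 1, 0, 67108864⟩]]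

noncomputable def f_pm_022 : ℕ → ℕ → ℕ → ℕ → Bool := onCell 0 536870912 0 536870912 134217728 67108864
    (rowF 0 false true false .pp 0 2 2 (qsf 0 536870912 0 536870912 2) ndF2q0 ndF0q2 pcF2 cut_pm_022 Ext.none)

def k0_pm_022 : ∃ t, chk3 f_pm_022 t 2 2 1 = true :=
  ⟨(a (a (b (a (a (b (a (b (c (l 16962408) (l 16622504)) (c (l 16943928) (l 16631912))) (l 16685184)) (c (a (l 16850808) (l 16830040)) (l 16626976))) (b (l 16635768) (l 16608848))) (b (a (l 16602576) (l 16584968)) (l 16577048))) (a (a (a (b (c (l 16677752) (l 16642960)) (c (b (l 16659256) (l 16690112)) (b (l 16656840) (l 16667192)))) (b (l 16632912) (c (l 16650432) (l 16649080)))) (b (l 16614680) (l 16628912))) (b (l 16576816) (l 16585488)))) (b (l 16627184) (a (l 16588464) (l 16465456)))) (a (b (l 16426744) (l 16519800)) (l 1))), by decide +kernel⟩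

def k1_pm_022 : ∃ t, chk3 f_pm_022 t 2 3 1 = true :=
  ⟨(a (b (a (a (a (b (a (a (c (b (c (l 16683160) (l 16682592)) (c (l 16693152) (l 16692592))) (b (l 16681048) (l 16691112))) (c (l 16701256) (l 16678840))) (c (l 16668424) (l 16667544))) (a (a (c (a (b (c (l 16726032) (l 16704368)) (c (b (l 16712360) (l 16717312)) (b (l 16711584) (l 16716488)))) (b (l 16700592) (l 16731160))) (b (b (l 16698328) (l 16703104)) (b (l 16707880) (l 16723208)))) (c (b (l 16694320) (l 16703704)) (b (l 16692792) (l 16702032)))) (b (l 16723288) (c (l 16690640) (l 16689464))))) (b (l 16686608) (b (l 16656296) (l 16685184)))) (b (l 16659240) (a (l 16667608) (l 16590280)))) (b (a (l 16529392) (l 16471680)) (a (l 16598424) (l 16539520)))) (a (a (b (b (a (a (a (a (c (c (b (l 16722440) (l 16733112)) (b (l 16721576) (l 16726976))) (b (c (l 16720512) (l 16719240)) (c (l 16725920) (l 16724688)))) (c (b (l 16717632) (l 16722992)) (l 16718352))) (c (l 16713648) (l 16711904))) (c (l 16700224) (l 16698920)))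 (l 16714840)) (l 6)) (l 6)) (a (b (b (l 16636624) (l 6)) (l 6)) (b (b (l 16599576) (l 16639872)) (l 1)))) (b (a (b (l 16595232) (l 1)) (l 1)) (l 1)))) (b (l 1) (l 1))), by decide +kernel⟩

def k2_pm_022 : ∃ t, chk3 f_pm_022 t 3 1 1 = true :=
  ⟨(l 1), by decide +kernel⟩

theorem s3_pm_022 : ∃ t, chk3 f_pm_022 t 2 1 1 = true := ex3_b k0_pm_022 k1_pm_022

theorem s4_pm_022 : ∃ t, chk3 f_pm_022 t 1 1 1 = true := ex3_a s3_pm_022 k2_pm_022

theorem c_pm_022 : CertF 0 536870912 0 536870912 134217728 67108864 false true false .pp 0 2 2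
    ndF2q0 ndF0q2 pcF2 cut_pm_022 Ext.none :=
  certF0 (fam := false) (s1 := true) (s2 := false) (a := 0) (b := 2) (c := 2) (cn := .pp) (n1 := ndF2q0) (n2 := ndF0q2) (pc := pcF2) (cut := cut_pm_022) (xt := Ext.none) (P1 := 0) (W1 := 536870912) (P2 := 0) (W2 := 536870912) (P3 := 134217728) (W3 := 67108864)
    rfl s4_pm_022

noncomputable def f_pm_101 : ℕ → ℕ → ℕ → ℕ → Bool := onCell 536870912 536870912 536870912 536870912 134217728 67108864
    (rowF 0 false true false .npn 1 0 1 (qsf 536870912 536870912 536870912 536870912 0) ndF2q1 ndF0q1 pcF0 Cut.none Ext.none)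

def k0_pm_101 : ∃ t, chk3 f_pm_101 t 1 1 1 = true :=
  ⟨(l 4), by decide +kernel⟩

theorem c_pm_101 : CertF 536870912 536870912 536870912 536870912 134217728 67108864 false true false .npn 1 0 1
    ndF2q1 ndF0q1 pcF0 Cut.none Ext.none :=
  certF0 (fam := false) (s1 := true) (s2 := false) (a := 1) (b := 0) (c := 1) (cn := .npn) (n1 := ndF2q1) (n2 := ndF0q1) (pc := pcF0) (cut := Cut.none) (xt := Ext.none) (P1 := 536870912) (W1 := 536870912) (P2 := 536870912) (W2 := 536870912) (P3 := 134217728) (W3 := 67108864)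
    rfl k0_pm_101

noncomputable def f_pm_102 : ℕ → ℕ → ℕ → ℕ → Bool := onCell 0 536870912 0 536870912 134217728 67108864
    (rowF 2 false true false .npp 1 0 2 (qsf 536870912 536870912 0 536870912 0) ndF2q1 ndF0q2 pcF0 Cut.none Ext.none)

def k0_pm_102 : ∃ t, chk3 f_pm_102 t 1 1 1 = true :=
  ⟨(a (b (a (b (l 2) (l 18938816)) (b (a (l 18092248) (l 17991760)) (l 18557848))) (b (a (l 19242672) (l 18754312)) (l 4))) (b (a (a (b (l 17810480) (l 18256032)) (b (l 17534328) (l 18045736))) (b (l 17332192) (b (l 17584544) (l 17877184)))) (b (a (l 18461992) (b (l 18266152) (l 4))) (l 4)))), by decide +kernel⟩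

theorem c_pm_102 : CertF 536870912 536870912 0 536870912 134217728 67108864 false true false .npp 1 0 2
    ndF2q1 ndF0q2 pcF0 Cut.none Ext.none :=
  certF2 (fam := false) (s1 := true) (s2 := false) (a := 1) (b := 0) (c := 2) (cn := .npp) (n1 := ndF2q1) (n2 := ndF0q2) (pc := pcF0) (cut := Cut.none) (xt := Ext.none) (P1 := 536870912) (W1 := 536870912) (P2 := 0) (W2 := 536870912) (P3 := 134217728) (W3 := 67108864)
    rfl (fun _ => rfl) k0_pm_102

noncomputable def f_pm_112 : ℕ → ℕ → ℕ → ℕ → Bool := onCell 536870912 536870912 0 536870912 134217728 67108864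
    (rowF 0 false true false .dn 1 1 2 (qsf 536870912 536870912 0 536870912 1) ndF2q1 ndF0q2 pcF1 Cut.none Ext.none)

def k0_pm_112 : ∃ t, chk3 f_pm_112 t 1 1 1 = true :=
  ⟨(a (b (a (b (l 18093824) (l 18264520)) (l 18319576)) (b (l 18401536) (l 4))) (l 1)), by decide +kernel⟩

theorem c_pm_112 : CertF 536870912 536870912 0 536870912 134217728 67108864 false true false .dn 1 1 2
    ndF2q1 ndF0q2 pcF1 Cut.none Ext.none :=
  certF0 (fam := false) (s1 := true) (s2 := false) (a := 1) (b := 1) (c := 2) (cn := .dn) (n1 := ndF2q1) (n2 := ndF0q2) (pc := pcF1) (cut := Cut.none) (xt := Ext.none) (P1 := 536870912) (W1 := 536870912) (P2 := 0) (W2 := 536870912) (P3 := 134217728) (W3 := 67108864)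
    rfl k0_pm_112

noncomputable def cut_pm_202_a : Cut := Cut.of [[⟨0, 1, 0, 67108864⟩, ⟨1, 0, 0, 67108864⟩, ⟨2, 1, 0, 67108864⟩]]

noncomputable def f_pm_202_a : ℕ → ℕ → ℕ → ℕ → Bool := onCell 0 536870912 0 536870912 134217728 67108864
    (rowF 0 false true false .pp 2 0 2 (qsf 0 536870912 0 536870912 0) ndF2q2a ndF0q2 pcF0 cut_pm_202_a Ext.none)

def k0_pm_202_a : ∃ t, chk3 f_pm_202_a t 1 1 1 = true :=
  ⟨(b (l 3) (b (l 3) (a (l 1) (a (l 3) (b (l 3) (a (l 3) (l 6))))))), by decide +kernel⟩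

theorem c_pm_202_a : CertF 0 536870912 0 536870912 134217728 67108864 false true false .pp 2 0 2
    ndF2q2a ndF0q2 pcF0 cut_pm_202_a Ext.none :=
  certF0 (fam := false) (s1 := true) (s2 := false) (a := 2) (b := 0) (c := 2) (cn := .pp) (n1 := ndF2q2a) (n2 := ndF0q2) (pc := pcF0) (cut := cut_pm_202_a) (xt := Ext.none) (P1 := 0) (W1 := 536870912) (P2 := 0) (W2 := 536870912) (P3 := 134217728) (W3 := 67108864)
    rfl k0_pm_202_a

noncomputable def cut_pm_202_b : Cut := Cut.of [[⟨0, 1, 0, 67108864⟩, ⟨1, 0, 0, 67108864⟩, ⟨2, 1, 0, 67108864⟩]]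

noncomputable def f_pm_202_b : ℕ → ℕ → ℕ → ℕ → Bool := onCell 1239849684 370763052 0 536870912 134217728 67108864
    (rowF 0 false true false .pp 2 0 2 (qsf 1239849684 370763052 0 536870912 0) ndF2q2b ndF0q2 pcF0 cut_pm_202_b Ext.none)

def k0_pm_202_b : ∃ t, chk3 f_pm_202_b t 1 1 1 = true :=
  ⟨(b (l 3) (l 1)), by decide +kernel⟩

theorem c_pm_202_b : CertF 1239849684 370763052 0 536870912 134217728 67108864 false true false .pp 2 0 2
    ndF2q2b ndF0q2 pcF0 cut_pm_202_b Ext.none :=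
  certF0 (fam := false) (s1 := true) (s2 := false) (a := 2) (b := 0) (c := 2) (cn := .pp) (n1 := ndF2q2b) (n2 := ndF0q2) (pc := pcF0) (cut := cut_pm_202_b) (xt := Ext.none) (P1 := 1239849684) (W1 := 370763052) (P2 := 0) (W2 := 536870912) (P3 := 134217728) (W3 := 67108864)
    rfl k0_pm_202_b

noncomputable def f_mm_001 : ℕ → ℕ → ℕ → ℕ → Bool := onCell 0 536870912 536870912 536870912 134217728 67108864
    (rowF 0 false false false .up 0 0 1 (qsf 0 536870912 536870912 536870912 0) ndF2q0 ndF0q1 pcF0 Cut.none Ext.none)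

def k0_mm_001 : ∃ t, chk3 f_mm_001 t 1 1 1 = true :=
  ⟨(l 5), by decide +kernel⟩

theorem c_mm_001 : CertF 0 536870912 536870912 536870912 134217728 67108864 false false false .up 0 0 1
    ndF2q0 ndF0q1 pcF0 Cut.none Ext.none :=
  certF0 (fam := false) (s1 := false) (s2 := false) (a := 0) (b := 0) (c := 1) (cn := .up) (n1 := ndF2q0) (n2 := ndF0q1) (pc := pcF0) (cut := Cut.none) (xt := Ext.none) (P1 := 0) (W1 := 536870912) (P2 := 536870912) (W2 := 536870912) (P3 := 134217728) (W3 := 67108864)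
    rfl k0_mm_001

noncomputable def f_mm_011 : ℕ → ℕ → ℕ → ℕ → Bool := onCell 0 536870912 536870912 536870912 134217728 67108864
    (rowF 0 false false false .pnn 0 1 1 (qsf 0 536870912 536870912 536870912 1) ndF2q0 ndF0q1 pcF1 Cut.none Ext.none)

def k0_mm_011 : ∃ t, chk3 f_mm_011 t 1 1 1 = true :=
  ⟨(l 5), by decide +kernel⟩

theorem c_mm_011 : CertF 0 536870912 536870912 536870912 134217728 67108864 false false false .pnn 0 1 1
    ndF2q0 ndF0q1 pcF1 Cut.none Ext.none :=
  certF0 (fam := false) (s1 := false) (s2 := false) (a := 0) (b := 1) (c := 1) (cn := .pnn) (n1 := ndF2q0) (n2 := ndF0q1) (pc := pcF1) (cut := Cut.none) (xt := Ext.none) (P1 := 0) (W1 := 536870912) (P2 := 536870912) (W2 := 536870912) (P3 := 134217728) (W3 := 67108864)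
    rfl k0_mm_011

noncomputable def f_mm_012 : ℕ → ℕ → ℕ → ℕ → Bool := onCell 0 536870912 0 536870912 134217728 67108864
    (rowF 0 false false false .pnp 0 1 2 (qsf 0 536870912 0 536870912 1) ndF2q0 ndF0q2 pcF1 Cut.none Ext.none)

def k0_mm_012 : ∃ t, chk3 f_mm_012 t 1 1 1 = true :=
  ⟨(l 5), by decide +kernel⟩

theorem c_mm_012 : CertF 0 536870912 0 536870912 134217728 67108864 false false false .pnp 0 1 2
    ndF2q0 ndF0q2 pcF1 Cut.none Ext.none :=
  certF0 (fam := false) (s1 := false) (s2 := false) (a := 0) (b := 1) (c := 2) (cn := .pnp) (n1 := ndF2q0) (n2 := ndF0q2) (pc := pcF1) (cut := Cut.none) (xt := Ext.none) (P1 := 0) (W1 := 536870912) (P2 := 0) (W2 := 536870912) (P3 := 134217728) (W3 := 67108864)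
    rfl k0_mm_012

noncomputable def f_mm_022 : ℕ → ℕ → ℕ → ℕ → Bool := onCell 0 536870912 0 536870912 134217728 67108864
    (rowF 0 false false false .pp 0 2 2 (qsf 0 536870912 0 536870912 2) ndF2q0 ndF0q2 pcF2 Cut.none Ext.none)

def k0_mm_022 : ∃ t, chk3 f_mm_022 t 1 1 1 = true :=
  ⟨(l 5), by decide +kernel⟩

theorem c_mm_022 : CertF 0 536870912 0 536870912 134217728 67108864 false false false .pp 0 2 2
    ndF2q0 ndF0q2 pcF2 Cut.none Ext.none :=
  certF0 (fam := false) (s1 := false) (s2 := false) (a := 0) (b := 2) (c := 2) (cn := .pp) (n1 := ndF2q0) (n2 := ndF0q2) (pc := pcF2) (cut := Cut.none) (xt := Ext.none) (P1 := 0) (W1 := 536870912) (P2 := 0) (W2 := 536870912) (P3 := 134217728) (W3 := 67108864)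
    rfl k0_mm_022

noncomputable def f_mm_101 : ℕ → ℕ → ℕ → ℕ → Bool := onCell 536870912 536870912 536870912 536870912 134217728 67108864
    (rowF 0 false false false .npn 1 0 1 (qsf 536870912 536870912 536870912 536870912 0) ndF2q1 ndF0q1 pcF0 Cut.none Ext.none)

def k0_mm_101 : ∃ t, chk3 f_mm_101 t 1 1 1 = true :=
  ⟨(b (l 3) (l 5)), by decide +kernel⟩

theorem c_mm_101 : CertF 536870912 536870912 536870912 536870912 134217728 67108864 false false false .npn 1 0 1
    ndF2q1 ndF0q1 pcF0 Cut.none Ext.none :=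
  certF0 (fam := false) (s1 := false) (s2 := false) (a := 1) (b := 0) (c := 1) (cn := .npn) (n1 := ndF2q1) (n2 := ndF0q1) (pc := pcF0) (cut := Cut.none) (xt := Ext.none) (P1 := 536870912) (W1 := 536870912) (P2 := 536870912) (W2 := 536870912) (P3 := 134217728) (W3 := 67108864)
    rfl k0_mm_101

noncomputable def f_mm_102 : ℕ → ℕ → ℕ → ℕ → Bool := onCell 536870912 536870912 0 536870912 134217728 67108864
    (rowF 0 false false false .npp 1 0 2 (qsf 536870912 536870912 0 536870912 0) ndF2q1 ndF0q2 pcF0 Cut.none Ext.none)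

def k0_mm_102 : ∃ t, chk3 f_mm_102 t 1 1 1 = true :=
  ⟨(l 5), by decide +kernel⟩

theorem c_mm_102 : CertF 536870912 536870912 0 536870912 134217728 67108864 false false false .npp 1 0 2
    ndF2q1 ndF0q2 pcF0 Cut.none Ext.none :=
  certF0 (fam := false) (s1 := false) (s2 := false) (a := 1) (b := 0) (c := 2) (cn := .npp) (n1 := ndF2q1) (n2 := ndF0q2) (pc := pcF0) (cut := Cut.none) (xt := Ext.none) (P1 := 536870912) (W1 := 536870912) (P2 := 0) (W2 := 536870912) (P3 := 134217728) (W3 := 67108864)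
    rfl k0_mm_102

noncomputable def f_mm_112 : ℕ → ℕ → ℕ → ℕ → Bool := onCell 536870912 536870912 0 536870912 134217728 67108864
    (rowF 0 false false false .dn 1 1 2 (qsf 536870912 536870912 0 536870912 1) ndF2q1 ndF0q2 pcF1 Cut.none Ext.none)

def k0_mm_112 : ∃ t, chk3 f_mm_112 t 1 1 1 = true :=
  ⟨(l 5), by decide +kernel⟩

theorem c_mm_112 : CertF 536870912 536870912 0 536870912 134217728 67108864 false false false .dn 1 1 2
    ndF2q1 ndF0q2 pcF1 Cut.none Ext.none :=
  certF0 (fam := false) (s1 := false) (s2 := false) (a := 1) (b := 1) (c := 2) (cn := .dn) (n1 := ndF2q1) (n2 := ndF0q2) (pc := pcF1) (cut := Cut.none) (xt := Ext.none) (P1 := 536870912) (W1 := 536870912) (P2 := 0) (W2 := 536870912) (P3 := 134217728) (W3 := 67108864)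
    rfl k0_mm_112

noncomputable def f_mm_202_a : ℕ → ℕ → ℕ → ℕ → Bool := onCell 0 536870912 0 536870912 134217728 67108864
    (rowF 0 false false false .pp 2 0 2 (qsf 0 536870912 0 536870912 0) ndF2q2a ndF0q2 pcF0 Cut.none Ext.none)

def k0_mm_202_a : ∃ t, chk3 f_mm_202_a t 1 1 1 = true :=
  ⟨(l 3), by decide +kernel⟩

theorem c_mm_202_a : CertF 0 536870912 0 536870912 134217728 67108864 false false false .pp 2 0 2
    ndF2q2a ndF0q2 pcF0 Cut.none Ext.none :=
  certF0 (fam := false) (s1 := false) (s2 := false) (a := 2) (b := 0) (c := 2) (cn := .pp) (n1 := ndF2q2a) (n2 := ndF0q2) (pc := pcF0) (cut := Cut.none) (xt := Ext.none) (P1 := 0) (W1 := 536870912) (P2 := 0) (W2 := 536870912) (P3 := 134217728) (W3 := 67108864)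
    rfl k0_mm_202_a

noncomputable def f_mm_202_b : ℕ → ℕ → ℕ → ℕ → Bool := onCell 1239849684 370763052 0 536870912 134217728 67108864
    (rowF 0 false false false .pp 2 0 2 (qsf 1239849684 370763052 0 536870912 0) ndF2q2b ndF0q2 pcF0 Cut.none Ext.none)

def k0_mm_202_b : ∃ t, chk3 f_mm_202_b t 1 1 1 = true :=
  ⟨(l 3), by decide +kernel⟩

theorem c_mm_202_b : CertF 1239849684 370763052 0 536870912 134217728 67108864 false false false .pp 2 0 2
    ndF2q2b ndF0q2 pcF0 Cut.none Ext.none :=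
  certF0 (fam := false) (s1 := false) (s2 := false) (a := 2) (b := 0) (c := 2) (cn := .pp) (n1 := ndF2q2b) (n2 := ndF0q2) (pc := pcF0) (cut := Cut.none) (xt := Ext.none) (P1 := 1239849684) (W1 := 370763052) (P2 := 0) (W2 := 536870912) (P3 := 134217728) (W3 := 67108864)
    rfl k0_mm_202_b

end Pool.Agent.Strip051.G.I1_8_3_16.Tab.C.FB20

namespace Pool.Agent.Strip051.G.I1_8_3_16.Tab.C.FB21

open Pool.Agent.Strip051.PB Pool.Agent.Strip051.PB.T
open Pool.Agent.Strip051.G.I1_8_3_16.Tab

noncomputable def f_pp_001 : ℕ → ℕ → ℕ → ℕ → Bool := onCell 0 536870912 536870912 536870912 134217728 67108864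
    (rowF 0 false true true .up 0 0 1 (qsf 0 536870912 536870912 536870912 0) ndF2q0 ndF1q1 pcF0 Cut.none Ext.none)

def k0_pp_001 : ∃ t, chk3 f_pp_001 t 1 1 1 = true :=
  ⟨(l 3), by decide +kernel⟩

theorem c_pp_001 : CertF 0 536870912 536870912 536870912 134217728 67108864 false true true .up 0 0 1
    ndF2q0 ndF1q1 pcF0 Cut.none Ext.none :=
  certF0 (fam := false) (s1 := true) (s2 := true) (a := 0) (b := 0) (c := 1) (cn := .up) (n1 := ndF2q0) (n2 := ndF1q1) (pc := pcF0) (cut := Cut.none) (xt := Ext.none) (P1 := 0) (W1 := 536870912) (P2 := 536870912) (W2 := 536870912) (P3 := 134217728) (W3 := 67108864)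
    rfl k0_pp_001

noncomputable def f_pp_011 : ℕ → ℕ → ℕ → ℕ → Bool := onCell 0 536870912 536870912 536870912 134217728 67108864
    (rowF 0 false true true .pnn 0 1 1 (qsf 0 536870912 536870912 536870912 1) ndF2q0 ndF1q1 pcF1 Cut.none Ext.none)

def k0_pp_011 : ∃ t, chk3 f_pp_011 t 1 1 1 = true :=
  ⟨(l 3), by decide +kernel⟩

theorem c_pp_011 : CertF 0 536870912 536870912 536870912 134217728 67108864 false true true .pnn 0 1 1
    ndF2q0 ndF1q1 pcF1 Cut.none Ext.none :=
  certF0 (fam := false) (s1 := true) (s2 := true) (a := 0) (b := 1) (c := 1) (cn := .pnn) (n1 := ndF2q0) (n2 := ndF1q1) (pc := pcF1) (cut := Cut.none) (xt := Ext.none) (P1 := 0) (W1 := 536870912) (P2 := 536870912) (W2 := 536870912) (P3 := 134217728) (W3 := 67108864)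
    rfl k0_pp_011

noncomputable def cut_pp_012_a : Cut := Cut.of [[⟨0, 0, 0, 67108864⟩, ⟨1, 1, 0, 67108864⟩, ⟨2, 1, 0, 67108864⟩]]

noncomputable def f_pp_012_a : ℕ → ℕ → ℕ → ℕ → Bool := onCell 536870912 536870912 0 536870912 134217728 67108864
    (rowF 2 false true true .pnp 0 1 2 (qsf 0 536870912 0 536870912 1) ndF2q0 ndF1q2a pcF1 cut_pp_012_a Ext.none)

def k0_pp_012_a : ∃ t, chk3 f_pp_012_a t 1 1 1 = true :=
  ⟨(a (a (b (b (l 2) (l 17312408)) (b (a (l 2) (l 17366056)) (a (b (l 88149677527) (l 684143161127)) (b (l 17493968) (l 217602085271))))) (b (l 17241032) (b (l 17408696) (a (l 180558171831) (l 175189212295))))) (a (b (a (l 17027040) (l 17073520)) (b (a (l 17078280) (l 16991960)) (a (l 173578350391) (b (l 17028392) (l 17167072))))) (b (a (l 17031752) (b (l 16960816) (a (l 16933432) (l 16889760)))) (b (a (l 16961944) (a (l 16902264) (c (l 16855480) (l 16850072)))) (b (a (l 16931008) (a (l 16883984) (b (l 16835632) (b (l 16830576) (l 16826976))))) (a (a (l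 16977192) (l 16964296)) (b (a (l 16867192) (a (l 16835776) (l 6))) (a (l 16952736) (l 6))))))))), by decide +kernel⟩

theorem c_pp_012_a : CertF 0 536870912 0 536870912 134217728 67108864 false true true .pnp 0 1 2
    ndF2q0 ndF1q2a pcF1 cut_pp_012_a Ext.none :=
  certF2 (fam := false) (s1 := true) (s2 := true) (a := 0) (b := 1) (c := 2) (cn := .pnp) (n1 := ndF2q0) (n2 := ndF1q2a) (pc := pcF1) (cut := cut_pp_012_a) (xt := Ext.none) (P1 := 0) (W1 := 536870912) (P2 := 0) (W2 := 536870912) (P3 := 134217728) (W3 := 67108864)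
    rfl (fun _ => rfl) k0_pp_012_a

noncomputable def cut_pp_012_b : Cut := Cut.of [[⟨0, 0, 0, 67108864⟩, ⟨1, 1, 0, 67108864⟩, ⟨2, 1, 0, 67108864⟩]]

noncomputable def f_pp_012_b : ℕ → ℕ → ℕ → ℕ → Bool := onCell 536870912 536870912 1239849684 370763052 134217728 67108864
    (rowF 2 false true true .pnp 0 1 2 (qsf 0 536870912 1239849684 370763052 1) ndF2q0 ndF1q2b pcF1 cut_pp_012_b Ext.none)

def k0_pp_012_b : ∃ t, chk3 f_pp_012_b t 1 1 1 = true :=
  ⟨(a (a (l 2) (b (b (l 16984280) (l 17011672)) (l 2))) (a (b (b (l 17128776) (l 17271760)) (l 17508176)) (b (b (a (l 17243864) (a (l 17183576) (l 17002768))) (a (l 17493048) (l 17592120))) (a (l 17822104) (l 18055784))))), by decide +kernel⟩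

theorem c_pp_012_b : CertF 0 536870912 1239849684 370763052 134217728 67108864 false true true .pnp 0 1 2
    ndF2q0 ndF1q2b pcF1 cut_pp_012_b Ext.none :=
  certF2 (fam := false) (s1 := true) (s2 := true) (a := 0) (b := 1) (c := 2) (cn := .pnp) (n1 := ndF2q0) (n2 := ndF1q2b) (pc := pcF1) (cut := cut_pp_012_b) (xt := Ext.none) (P1 := 0) (W1 := 536870912) (P2 := 1239849684) (W2 := 370763052) (P3 := 134217728) (W3 := 67108864)
    rfl (fun _ => rfl) k0_pp_012_b

noncomputable def cut_pp_022_a : Cut := Cut.of [[⟨0, 0, 0, 67108864⟩, ⟨1, 1, 0, 67108864⟩, ⟨2, 1, 0, 67108864⟩]]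

noncomputable def f_pp_022_a : ℕ → ℕ → ℕ → ℕ → Bool := onCell 0 536870912 0 536870912 134217728 67108864
    (rowF 0 false true true .pp 0 2 2 (qsf 0 536870912 0 536870912 2) ndF2q0 ndF1q2a pcF2 cut_pp_022_a Ext.none)

def k0_pp_022_a : ∃ t, chk3 f_pp_022_a t 4 4 1 = true :=
  ⟨(a (a (a (b (a (a (a (b (b (c (a (c (l 17117632) (l 16708416)) (l 16912608)) (l 16576112)) (c (l 16904744) (l 16532040))) (c (b (l 16891208) (l 16871080)) (l 16550488))) (c (b (l 16905816) (l 16877592)) (l 16593496))) (b (l 16562112) (l 16579784))) (c (l 16874568) (l 16588280))) (a (a (b (c (a (l 16826368) (l 16823032)) (l 16547912)) (c (b (l 16765944) (l 16715672)) (l 16547592))) (c (b (l 16817616) (l 16733408)) (l 16639928))) (b (l 16574048) (l 16594984)))) (b (b (l 16593792) (l 16633192)) (a (a (l 16632968) (l 16630192)) (l 16691872)))) (a (b (l 16734248) (b (l 16648584) (l 16737056))) (b (c (l 16825968) (l 16686800)) (a (l 16748336) (b (l 16506936) (l 16547352)))))) (a (a (b (a (l 16587736)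 (l 16502904)) (a (b (l 16503832) (l 16575192)) (l 16507952))) (l 16517752)) (l 16538504))), by decide +kernel⟩

def k1_pp_022_a : ∃ t, chk3 f_pp_022_a t 4 5 1 = true :=
  ⟨(a (a (b (a (a (b (c (a (l 16600480) (l 16614600)) (a (l 16569336) (l 16545936))) (c (a (l 16607856) (l 16593992)) (b (l 16570688) (l 16573984)))) (b (a (l 16575712) (l 16572712)) (b (l 16597144) (l 16599608)))) (b (c (l 16722752) (l 16713704)) (a (l 16658704) (l 16634768)))) (a (c (b (a (a (b (l 16557568) (l 16581304)) (l 16599256)) (l 16640104)) (a (a (b (l 16584776) (l 16589064)) (l 16628928)) (a (l 16626616) (l 16603464)))) (b (a (b (l 16578208) (l 16583176)) (l 16641440)) (a (a (b (l 16567440) (l 16573632)) (l 16623184)) (c (l 16681352) (l 16673880))))) (b (a (c (l 16656920) (l 16638368)) (c (l 16654192) (l 16658272))) (a (b (l 16630312) (l 16648640)) (c (l 16756568) (l 16763608)))))) (b (a (b (c (l 16776112) (l 16780544)) (a (l 16633280) (l 16655352))) (b (a (l 16595184) (l 16641432)) (a (l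 16711928) (l 16766376)))) (a (b (a (c (l 16696528) (l 16702808)) (c (l 16750168) (l 16759560))) (a (a (l 16730600) (l 16754344)) (a (l 16802032) (l 16551032)))) (b (a (a (l 16680568) (l 16534776)) (l 16537400)) (l 16556672))))) (a (l 16558184) (l 16597392))), by decide +kernel⟩

def k2_pp_022_a : ∃ t, chk3 f_pp_022_a t 5 2 1 = true :=
  ⟨(b (l 16586448) (a (l 16625464) (l 1))), by decide +kernel⟩

def k3_pp_022_a : ∃ t, chk3 f_pp_022_a t 8 12 1 = true :=
  ⟨(a (a (b (b (a (c (a (c (l 16597912) (l 16590720)) (l 16591808)) (a (l 16591232) (l 16578720))) (c (l 16634552) (l 16621888))) (a (a (c (c (l 16603616) (l 16597440)) (a (l 16593536) (l 16587344))) (c (l 16598424) (l 16608224))) (c (l 16663824) (l 16653032)))) (a (b (a (c (c (a (l 16609568) (l 16608552)) (b (l 16601472) (l 16605480))) (a (c (l 16599520) (l 16600208)) (l 16606944))) (c (l 16627296) (l 16618000))) (b (a (c (c (l 16614192) (l 16609832)) (a (c (l 16605104) (l 16590760)) (l 16602464))) (c (l 16610432)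 (l 16581760))) (a (c (a (c (l 16596664) (l 16592776)) (l 16593896)) (a (c (l 16610088) (l 16596168)) (l 16607800))) (c (l 16615152) (l 16608360))))) (b (c (l 16684336) (a (l 16596264) (l 16595880))) (a (a (l 16630248) (l 16627920)) (l 16661432))))) (b (a (b (a (l 16600016) (l 16577656)) (c (l 16655824) (l 16667720))) (b (l 16682560) (l 16739616))) (a (b (a (l 16638256) (l 16640144)) (a (l 16674720) (l 16589200))) (l 16586552)))) (a (b (a (b (l 16732696) (l 16569192)) (l 16570792)) (l 16600160)) (l 16605424))), by decide +kernel⟩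

def k4_pp_022_a : ∃ t, chk3 f_pp_022_a t 8 13 1 = true :=
  ⟨(a (a (b (a (b (b (a (c (a (c (l 16601032) (l 16618592)) (l 16619592)) (a (c (l 16615384) (l 16601880)) (l 16613416))) (c (l 16620216) (l 16614304))) (a (c (c (l 16627840) (a (l 16623760) (l 16602296))) (a (b (l 16607016) (l 16609944)) (l 16619336))) (c (l 16624488) (l 16619416)))) (b (a (c (a (c (l 16620544) (l 16618064)) (l 16629680)) (a (a (c (l 16626448) (l 16624216)) (l 16624728)) (l 16625152))) (c (l 16653080) (l 16627408))) (a (a (c (a (c (l 16636832) (l 16624200)) (l 16625680)) (a (c (l 16622168) (l 16620256)) (l 16632088))) (c (l 16615552) (l 16611408))) (c (l 16617688) (l 16613304))))) (b (a (c (l 16667304) (l 16661744)) (l 16599720)) (l 16636544))) (a (a (c (a (b (c (l 16649008) (l 16626064)) (c (b (l 16640624) (l 16654232)) (l 16653568))) (c (l 16659048) (l 16657088))) (a (b (c (l 16624184) (l 16622408)) (c (l 16641376) (l 16639744))) (l 16654312))) (c (l 16660256) (l 16656280))) (c (l 16644144)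 (l 16639664)))) (a (b (l 16592832) (l 16648904)) (l 16637512))) (b (l 16645992) (l 16660952))), by decide +kernel⟩

def k5_pp_022_a : ∃ t, chk3 f_pp_022_a t 8 7 1 = true :=
  ⟨(b (a (a (a (b (a (b (c (a (a (c (c (b (l 16657344) (l 16670800)) (l 16671200)) (b (l 16655336) (l 16663688))) (c (l 16661840) (l 16660256))) (c (l 16662968) (l 16661320))) (a (c (l 16658392) (l 16656936)) (l 16658960))) (b (b (c (a (a (c (c (l 16671656) (l 16670944)) (l 16669904)) (l 16672640)) (l 16672480)) (a (l 16668200) (l 16669560))) (l 6)) (l 6))) (c (l 16694032) (l 16690792))) (l 6)) (b (b (l 16688576) (l 16684760)) (l 6))) (b (b (l 16679080) (l 16696552)) (l 6))) (b (a (l 16707144) (l 16730208)) (a (l 6) (b (l 16757240) (l 16775320))))) (a (l 6) (a (l 6) (l 1)))), by decide +kernel⟩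

def k6_pp_022_a : ∃ t, chk3 f_pp_022_a t 9 3 1 = true :=
  ⟨(a (b (b (l 16642992) (b (l 16700528) (l 16734632))) (b (b (l 140693892439) (l 1)) (l 1))) (b (b (l 16691768) (l 173443163463)) (l 1))), by decide +kernel⟩

def k7_pp_022_a : ∃ t, chk3 f_pp_022_a t 5 3 1 = true :=
  ⟨(b (l 1) (l 1)), by decide +kernel⟩

def k8_pp_022_a : ∃ t, chk3 f_pp_022_a t 3 1 1 = true :=
  ⟨(l 1), by decide +kernel⟩

theorem s9_pp_022_a : ∃ t, chk3 f_pp_022_a t 8 6 1 = true := ex3_b k3_pp_022_a k4_pp_022_a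

theorem s10_pp_022_a : ∃ t, chk3 f_pp_022_a t 8 3 1 = true := ex3_b s9_pp_022_a k5_pp_022_a

theorem s11_pp_022_a : ∃ t, chk3 f_pp_022_a t 4 3 1 = true := ex3_a s10_pp_022_a k6_pp_022_a

theorem s12_pp_022_a : ∃ t, chk3 f_pp_022_a t 2 3 1 = true := ex3_a s11_pp_022_a k7_pp_022_a

theorem s13_pp_022_a : ∃ t, chk3 f_pp_022_a t 4 2 1 = true := ex3_b k0_pp_022_a k1_pp_022_a

theorem s14_pp_022_a : ∃ t, chk3 f_pp_022_a t 2 2 1 = true := ex3_a s13_pp_022_a k2_pp_022_a

theorem s15_pp_022_a : ∃ t, chk3 f_pp_022_a t 2 1 1 = true := ex3_b s14_pp_022_a s12_pp_022_a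

theorem s16_pp_022_a : ∃ t, chk3 f_pp_022_a t 1 1 1 = true := ex3_a s15_pp_022_a k8_pp_022_a

theorem c_pp_022_a : CertF 0 536870912 0 536870912 134217728 67108864 false true true .pp 0 2 2
    ndF2q0 ndF1q2a pcF2 cut_pp_022_a Ext.none :=
  certF0 (fam := false) (s1 := true) (s2 := true) (a := 0) (b := 2) (c := 2) (cn := .pp) (n1 := ndF2q0) (n2 := ndF1q2a) (pc := pcF2) (cut := cut_pp_022_a) (xt := Ext.none) (P1 := 0) (W1 := 536870912) (P2 := 0) (W2 := 536870912) (P3 := 134217728) (W3 := 67108864)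
    rfl s16_pp_022_a

noncomputable def cut_pp_022_b : Cut := Cut.of [[⟨0, 0, 0, 67108864⟩, ⟨1, 1, 0, 67108864⟩, ⟨2, 1, 0, 67108864⟩]]

noncomputable def f_pp_022_b : ℕ → ℕ → ℕ → ℕ → Bool := onCell 0 536870912 1073741824 536870912 134217728 67108864
    (rowF 1 false true true .pp 0 2 2 (qsf 0 536870912 1239849684 370763052 2) ndF2q0 ndF1q2b pcF2 cut_pp_022_b Ext.none)

def k0_pp_022_b : ∃ t, chk3 f_pp_022_b t 1 1 1 = true :=
  ⟨(a (b (a (b (a (b (l 1) (b (b (l 1) (a (l 1) (l 412350494119))) (b (a (l 1) (l 16660792)) (a (l 435435723031) (l 16661088))))) (b (b (l 16771968) (l 400001917751)) (b (b (l 16642848) (b (l 16866088) (l 16999544))) (b (l 17178688) (l 17386968))))) (b (b (a (b (a (l 448320547431) (l 16962216)) (a (b (a (l 458520953383) (l 16766872)) (b (c (l 505766130151) (l 16531056)) (a (b (c (l 17036072) (l 16522216)) (c (l 16927136) (l 16519304))) (l 16953656)))) (b (l 17153944) (l 17267968)))) (b (l 17564872) (l 17718168))) (a (a (b (c (c (l 17525424) (l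 16988344)) (l 16545944)) (c (l 17365240) (l 16764856))) (l 17516256)) (l 17907600))) (a (a (b (a (c (l 17773320) (b (l 17070520) (l 17286184))) (l 17629752)) (c (l 18094656) (l 17603280))) (b (l 17818704) (l 18038472))) (l 18183904)))) (b (b (l 160022205239) (b (b (l 17808560) (l 17924280)) (l 18191256))) (b (b (a (l 18085160) (l 18347032)) (l 18351680)) (l 18491752)))) (b (a (a (a (c (l 18465664) (l 18066976)) (l 18381856)) (l 18504712)) (l 18644336)) (a (a (l 18587832) (l 18648048)) (l 18653288)))) (b (b (b (l 18451312) (b (a (l 18415480) (l 18642480)) (l 18601224))) (b (a (l 18591128) (l 18710168)) (l 18697752))) (b (l 18673352) (l 2)))), by decide +kernel⟩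

theorem c_pp_022_b : CertF 0 536870912 1239849684 370763052 134217728 67108864 false true true .pp 0 2 2
    ndF2q0 ndF1q2b pcF2 cut_pp_022_b Ext.none :=
  certF1 (fam := false) (s1 := true) (s2 := true) (a := 0) (b := 2) (c := 2) (cn := .pp) (n1 := ndF2q0) (n2 := ndF1q2b) (pc := pcF2) (cut := cut_pp_022_b) (xt := Ext.none) (P1 := 0) (W1 := 536870912) (P2 := 1239849684) (W2 := 370763052) (P3 := 134217728) (W3 := 67108864)
    rfl (fun _ => rfl) k0_pp_022_b

noncomputable def f_pp_023 : ℕ → ℕ → ℕ → ℕ → Bool := onCell 1073741824 536870912 1610612736 536870912 134217728 67108864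
    (rowF 2 false true true .up 0 2 3 (qsf 0 536870912 1610612736 536870912 2) ndF2q0 ndF1q3 pcF2 Cut.none Ext.none)

def k0_pp_023 : ∃ t, chk3 f_pp_023 t 1 1 1 = true :=
  ⟨(a (b (l 18740400) (a (l 2) (l 18662536))) (a (b (l 18674752) (l 18541944)) (b (b (l 18598896) (l 18598224)) (l 18351616)))), by decide +kernel⟩

theorem c_pp_023 : CertF 0 536870912 1610612736 536870912 134217728 67108864 false true true .up 0 2 3
    ndF2q0 ndF1q3 pcF2 Cut.none Ext.none :=
  certF2 (fam := false) (s1 := true) (s2 := true) (a := 0) (b := 2) (c := 3) (cn := .up) (n1 := ndF2q0) (n2 := ndF1q3) (pc := pcF2) (cut := Cut.none) (xt := Ext.none) (P1 := 0) (W1 := 536870912) (P2 := 1610612736) (W2 := 536870912) (P3 := 134217728) (W3 := 67108864)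
    rfl (fun _ => rfl) k0_pp_023

noncomputable def f_pp_033 : ℕ → ℕ → ℕ → ℕ → Bool := onCell 0 536870912 1610612736 536870912 134217728 67108864
    (rowF 1 false true true .pnn 0 3 3 (qsf 0 536870912 1610612736 536870912 3) ndF2q0 ndF1q3 pcF3 Cut.none Ext.none)

def k0_pp_033 : ∃ t, chk3 f_pp_033 t 1 1 1 = true :=
  ⟨(a (b (b (b (a (l 18160600) (l 18329456)) (a (l 18324528) (l 18301968))) (b (l 18096888) (l 18005480))) (b (l 18148480) (a (l 4) (a (b (l 4) (l 2)) (l 2))))) (b (b (b (l 17894808) (l 17796096)) (a (l 4) (a (b (l 4) (l 2)) (l 2)))) (a (b (a (b (l 4) (l 2)) (l 2)) (l 2)) (l 2)))), by decide +kernel⟩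

theorem c_pp_033 : CertF 0 536870912 1610612736 536870912 134217728 67108864 false true true .pnn 0 3 3
    ndF2q0 ndF1q3 pcF3 Cut.none Ext.none :=
  certF1 (fam := false) (s1 := true) (s2 := true) (a := 0) (b := 3) (c := 3) (cn := .pnn) (n1 := ndF2q0) (n2 := ndF1q3) (pc := pcF3) (cut := Cut.none) (xt := Ext.none) (P1 := 0) (W1 := 536870912) (P2 := 1610612736) (W2 := 536870912) (P3 := 134217728) (W3 := 67108864)
    rfl (fun _ => rfl) k0_pp_033

noncomputable def f_pp_101 : ℕ → ℕ → ℕ → ℕ → Bool := onCell 536870912 536870912 536870912 536870912 134217728 67108864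
    (rowF 0 false true true .npn 1 0 1 (qsf 536870912 536870912 536870912 536870912 0) ndF2q1 ndF1q1 pcF0 Cut.none Ext.none)

def k0_pp_101 : ∃ t, chk3 f_pp_101 t 1 1 1 = true :=
  ⟨(l 3), by decide +kernel⟩

theorem c_pp_101 : CertF 536870912 536870912 536870912 536870912 134217728 67108864 false true true .npn 1 0 1
    ndF2q1 ndF1q1 pcF0 Cut.none Ext.none :=
  certF0 (fam := false) (s1 := true) (s2 := true) (a := 1) (b := 0) (c := 1) (cn := .npn) (n1 := ndF2q1) (n2 := ndF1q1) (pc := pcF0) (cut := Cut.none) (xt := Ext.none) (P1 := 536870912) (W1 := 536870912) (P2 := 536870912) (W2 := 536870912) (P3 := 134217728) (W3 := 67108864)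
    rfl k0_pp_101

noncomputable def f_pp_102_a : ℕ → ℕ → ℕ → ℕ → Bool := onCell 536870912 536870912 0 536870912 134217728 67108864
    (rowF 0 false true true .npp 1 0 2 (qsf 536870912 536870912 0 536870912 0) ndF2q1 ndF1q2a pcF0 Cut.none Ext.none)

def k0_pp_102_a : ∃ t, chk3 f_pp_102_a t 1 1 1 = true :=
  ⟨(a (b (a (b (l 2) (l 17572616)) (b (l 17646104) (l 17687632))) (a (a (b (l 2) (b (l 17762408) (l 3))) (b (l 17644744) (b (l 212770746775) (l 3)))) (b (b (l 17688096) (a (l 17662600) (l 17661800))) (b (a (b (l 17641816) (l 274510493543)) (b (l 205790941383) (l 3))) (l 3))))) (b (a (b (l 17774952) (a (l 17750160) (l 17717072))) (a (b (l 17644096) (a (l 17577480) (l 17364480))) (b (a (l 17277456) (l 16718256)) (b (a (l 17095792) (l 16428576)) (a (l 16824016) (l 16480160)))))) (a (b (b (a (l 17693640) (a (l 17632776) (l 17535120))) (a (b (l 17641080) (a (l 17616304) (l 17377272))) (b (a (l 17546984) (c (l 17608048) (l 17218352))) (a (c (l 17632880) (l 185388850567))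 (c (l 186462943239) (l 180020198359)))))) (b (a (b (a (l 194516184663) (l 377052605271)) (l 3)) (l 3)) (l 3))) (b (a (b (a (b (l 17404880) (l 17300528)) (c (l 17225912) (l 16703168))) (b (a (c (l 17340488) (b (l 16959816) (l 16886792))) (a (c (l 16931584) (l 16580888)) (c (l 160691999111) (l 155323129783)))) (b (a (c (l 185926195735) (l 158544437447)) (c (l 285783361047) (l 196125330391))) (l 3)))) (b (b (a (l 16520128) (a (l 16455808) (l 16483064))) (a (c (a (l 16871256) (l 16519616)) (l 16553504)) (a (c (l 16549680) (l 16519112)) (a (c (l 16540720) (l 16512464)) (b (l 16508784) (c (l 144585546935) (l 16520288))))))) (b (c (a (a (l 153712493991) (a (l 154249314887) (l 152638690359))) (b (a (b (l 147269959319) (l 204178300359)) (a (l 148343661991) (l 168744765223))) (l 3))) (a (a (l 156933674871) (a (l 154786157255) (l 153712406455))) (b (a (l 152638647703) (b (l 192903953655) (l 3))) (l 3)))) (l 3)))) (l 3))))), by decide +kernel⟩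

theorem c_pp_102_a : CertF 536870912 536870912 0 536870912 134217728 67108864 false true true .npp 1 0 2
    ndF2q1 ndF1q2a pcF0 Cut.none Ext.none :=
  certF0 (fam := false) (s1 := true) (s2 := true) (a := 1) (b := 0) (c := 2) (cn := .npp) (n1 := ndF2q1) (n2 := ndF1q2a) (pc := pcF0) (cut := Cut.none) (xt := Ext.none) (P1 := 536870912) (W1 := 536870912) (P2 := 0) (W2 := 536870912) (P3 := 134217728) (W3 := 67108864)
    rfl k0_pp_102_a

noncomputable def f_pp_102_b : ℕ → ℕ → ℕ → ℕ → Bool := onCell 536870912 536870912 1239849684 370763052 134217728 67108864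
    (rowF 0 false true true .npp 1 0 2 (qsf 536870912 536870912 1239849684 370763052 0) ndF2q1 ndF1q2b pcF0 Cut.none Ext.none)

def k0_pp_102_b : ∃ t, chk3 f_pp_102_b t 1 1 1 = true :=
  ⟨(a (b (a (l 2) (b (l 17719952) (l 17810184))) (l 2)) (b (a (b (l 17925672) (l 18143728)) (a (b (l 17992376) (l 18402792)) (b (a (l 17878336) (l 17653416)) (l 18522296)))) (a (l 18275008) (l 18770464)))), by decide +kernel⟩

theorem c_pp_102_b : CertF 536870912 536870912 1239849684 370763052 134217728 67108864 false true true .npp 1 0 2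
    ndF2q1 ndF1q2b pcF0 Cut.none Ext.none :=
  certF0 (fam := false) (s1 := true) (s2 := true) (a := 1) (b := 0) (c := 2) (cn := .npp) (n1 := ndF2q1) (n2 := ndF1q2b) (pc := pcF0) (cut := Cut.none) (xt := Ext.none) (P1 := 536870912) (W1 := 536870912) (P2 := 1239849684) (W2 := 370763052) (P3 := 134217728) (W3 := 67108864)
    rfl k0_pp_102_b

noncomputable def f_pp_112_a : ℕ → ℕ → ℕ → ℕ → Bool := onCell 536870912 536870912 0 536870912 134217728 67108864
    (rowF 2 false true true .dn 1 1 2 (qsf 536870912 536870912 0 536870912 1) ndF2q1 ndF1q2a pcF1 Cut.none Ext.none)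

def k0_pp_112_a : ∃ t, chk3 f_pp_112_a t 1 1 1 = true :=
  ⟨(a (a (a (b (l 17803096) (b (l 17735280) (b (l 17687112) (l 200422396919)))) (b (l 17766232) (b (l 17739080) (l 443490796727)))) (b (l 17737632) (b (l 1) (l 1)))) (l 1)), by decide +kernel⟩

theorem c_pp_112_a : CertF 536870912 536870912 0 536870912 134217728 67108864 false true true .dn 1 1 2
    ndF2q1 ndF1q2a pcF1 Cut.none Ext.none :=
  certF2 (fam := false) (s1 := true) (s2 := true) (a := 1) (b := 1) (c := 2) (cn := .dn) (n1 := ndF2q1) (n2 := ndF1q2a) (pc := pcF1) (cut := Cut.none) (xt := Ext.none) (P1 := 536870912) (W1 := 536870912) (P2 := 0) (W2 := 536870912) (P3 := 134217728) (W3 := 67108864)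
    rfl (fun _ => rfl) k0_pp_112_a

noncomputable def f_pp_112_b : ℕ → ℕ → ℕ → ℕ → Bool := onCell 536870912 536870912 536870912 536870912 134217728 67108864
    (rowF 1 false true true .dn 1 1 2 (qsf 536870912 536870912 1239849684 370763052 1) ndF2q1 ndF1q2b pcF1 Cut.none Ext.none)

def k0_pp_112_b : ∃ t, chk3 f_pp_112_b t 1 1 1 = true :=
  ⟨(a (b (b (l 390341495943) (l 18043168)) (b (l 17787544) (l 17626504))) (b (b (l 18301888) (l 18108200)) (b (l 17791464) (l 2)))), by decide +kernel⟩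

theorem c_pp_112_b : CertF 536870912 536870912 1239849684 370763052 134217728 67108864 false true true .dn 1 1 2
    ndF2q1 ndF1q2b pcF1 Cut.none Ext.none :=
  certF1 (fam := false) (s1 := true) (s2 := true) (a := 1) (b := 1) (c := 2) (cn := .dn) (n1 := ndF2q1) (n2 := ndF1q2b) (pc := pcF1) (cut := Cut.none) (xt := Ext.none) (P1 := 536870912) (W1 := 536870912) (P2 := 1239849684) (W2 := 370763052) (P3 := 134217728) (W3 := 67108864)
    rfl (fun _ => rfl) k0_pp_112_b

noncomputable def f_pp_113 : ℕ → ℕ → ℕ → ℕ → Bool := onCell 536870912 536870912 536870912 536870912 134217728 67108864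
    (rowF 1 false true true .nn 1 1 3 (qsf 536870912 536870912 1610612736 536870912 1) ndF2q1 ndF1q3 pcF1 Cut.none Ext.none)

def k0_pp_113 : ∃ t, chk3 f_pp_113 t 1 1 1 = true :=
  ⟨(a (b (b (l 1) (l 17838792)) (b (l 17676480) (l 17632744))) (b (b (l 18197600) (l 18016832)) (b (l 17732192) (b (l 17431400) (l 17175536))))), by decide +kernel⟩

theorem c_pp_113 : CertF 536870912 536870912 1610612736 536870912 134217728 67108864 false true true .nn 1 1 3
    ndF2q1 ndF1q3 pcF1 Cut.none Ext.none :=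
  certF1 (fam := false) (s1 := true) (s2 := true) (a := 1) (b := 1) (c := 3) (cn := .nn) (n1 := ndF2q1) (n2 := ndF1q3) (pc := pcF1) (cut := Cut.none) (xt := Ext.none) (P1 := 536870912) (W1 := 536870912) (P2 := 1610612736) (W2 := 536870912) (P3 := 134217728) (W3 := 67108864)
    rfl (fun _ => rfl) k0_pp_113

noncomputable def f_pp_123 : ℕ → ℕ → ℕ → ℕ → Bool := onCell 1073741824 536870912 1610612736 536870912 134217728 67108864
    (rowF 2 false true true .npn 1 2 3 (qsf 536870912 536870912 1610612736 536870912 2) ndF2q1 ndF1q3 pcF2 Cut.none Ext.none)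

def k0_pp_123 : ∃ t, chk3 f_pp_123 t 1 1 1 = true :=
  ⟨(a (b (a (l 17860736) (l 17794624)) (a (l 17323992) (l 17394488))) (b (a (l 17652632) (l 1)) (a (l 17357040) (l 17182488)))), by decide +kernel⟩

theorem c_pp_123 : CertF 536870912 536870912 1610612736 536870912 134217728 67108864 false true true .npn 1 2 3
    ndF2q1 ndF1q3 pcF2 Cut.none Ext.none :=
  certF2 (fam := false) (s1 := true) (s2 := true) (a := 1) (b := 2) (c := 3) (cn := .npn) (n1 := ndF2q1) (n2 := ndF1q3) (pc := pcF2) (cut := Cut.none) (xt := Ext.none) (P1 := 536870912) (W1 := 536870912) (P2 := 1610612736) (W2 := 536870912) (P3 := 134217728) (W3 := 67108864)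
    rfl (fun _ => rfl) k0_pp_123

noncomputable def f_pp_133 : ℕ → ℕ → ℕ → ℕ → Bool := onCell 1610612736 536870912 1610612736 536870912 134217728 67108864
    (rowF 2 false true true .dn 1 3 3 (qsf 536870912 536870912 1610612736 536870912 3) ndF2q1 ndF1q3 pcF3 Cut.none Ext.none)

def k0_pp_133 : ∃ t, chk3 f_pp_133 t 1 1 1 = true :=
  ⟨(a (b (l 1) (b (l 1) (l 4))) (l 1)), by decide +kernel⟩

theorem c_pp_133 : CertF 536870912 536870912 1610612736 536870912 134217728 67108864 false true true .dn 1 3 3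
    ndF2q1 ndF1q3 pcF3 Cut.none Ext.none :=
  certF2 (fam := false) (s1 := true) (s2 := true) (a := 1) (b := 3) (c := 3) (cn := .dn) (n1 := ndF2q1) (n2 := ndF1q3) (pc := pcF3) (cut := Cut.none) (xt := Ext.none) (P1 := 536870912) (W1 := 536870912) (P2 := 1610612736) (W2 := 536870912) (P3 := 134217728) (W3 := 67108864)
    rfl (fun _ => rfl) k0_pp_133

noncomputable def f_pp_202_aa : ℕ → ℕ → ℕ → ℕ → Bool := onCell 0 536870912 0 536870912 134217728 67108864
    (rowF 0 false true true .pp 2 0 2 (qsf 0 536870912 0 536870912 0) ndF2q2a ndF1q2a pcF0 Cut.none Ext.none)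

def k0_pp_202_aa : ∃ t, chk3 f_pp_202_aa t 1 1 1 = true :=
  ⟨(l 3), by decide +kernel⟩

theorem c_pp_202_aa : CertF 0 536870912 0 536870912 134217728 67108864 false true true .pp 2 0 2
    ndF2q2a ndF1q2a pcF0 Cut.none Ext.none :=
  certF0 (fam := false) (s1 := true) (s2 := true) (a := 2) (b := 0) (c := 2) (cn := .pp) (n1 := ndF2q2a) (n2 := ndF1q2a) (pc := pcF0) (cut := Cut.none) (xt := Ext.none) (P1 := 0) (W1 := 536870912) (P2 := 0) (W2 := 536870912) (P3 := 134217728) (W3 := 67108864)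
    rfl k0_pp_202_aa

noncomputable def f_pp_202_ab : ℕ → ℕ → ℕ → ℕ → Bool := onCell 0 536870912 1239849684 370763052 134217728 67108864
    (rowF 0 false true true .pp 2 0 2 (qsf 0 536870912 1239849684 370763052 0) ndF2q2a ndF1q2b pcF0 Cut.none Ext.none)

def k0_pp_202_ab : ∃ t, chk3 f_pp_202_ab t 1 1 1 = true :=
  ⟨(l 3), by decide +kernel⟩

theorem c_pp_202_ab : CertF 0 536870912 1239849684 370763052 134217728 67108864 false true true .pp 2 0 2
    ndF2q2a ndF1q2b pcF0 Cut.none Ext.none :=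
  certF0 (fam := false) (s1 := true) (s2 := true) (a := 2) (b := 0) (c := 2) (cn := .pp) (n1 := ndF2q2a) (n2 := ndF1q2b) (pc := pcF0) (cut := Cut.none) (xt := Ext.none) (P1 := 0) (W1 := 536870912) (P2 := 1239849684) (W2 := 370763052) (P3 := 134217728) (W3 := 67108864)
    rfl k0_pp_202_ab

noncomputable def f_pp_202_ba : ℕ → ℕ → ℕ → ℕ → Bool := onCell 1239849684 370763052 0 536870912 134217728 67108864
    (rowF 0 false true true .pp 2 0 2 (qsf 1239849684 370763052 0 536870912 0) ndF2q2b ndF1q2a pcF0 Cut.none Ext.none)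

def k0_pp_202_ba : ∃ t, chk3 f_pp_202_ba t 1 1 1 = true :=
  ⟨(l 3), by decide +kernel⟩

theorem c_pp_202_ba : CertF 1239849684 370763052 0 536870912 134217728 67108864 false true true .pp 2 0 2
    ndF2q2b ndF1q2a pcF0 Cut.none Ext.none :=
  certF0 (fam := false) (s1 := true) (s2 := true) (a := 2) (b := 0) (c := 2) (cn := .pp) (n1 := ndF2q2b) (n2 := ndF1q2a) (pc := pcF0) (cut := Cut.none) (xt := Ext.none) (P1 := 1239849684) (W1 := 370763052) (P2 := 0) (W2 := 536870912) (P3 := 134217728) (W3 := 67108864)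
    rfl k0_pp_202_ba

noncomputable def f_pp_202_bb : ℕ → ℕ → ℕ → ℕ → Bool := onCell 1239849684 370763052 1239849684 370763052 134217728 67108864
    (rowF 0 false true true .pp 2 0 2 (qsf 1239849684 370763052 1239849684 370763052 0) ndF2q2b ndF1q2b pcF0 Cut.none Ext.none)

def k0_pp_202_bb : ∃ t, chk3 f_pp_202_bb t 1 1 1 = true :=
  ⟨(l 3), by decide +kernel⟩

theorem c_pp_202_bb : CertF 1239849684 370763052 1239849684 370763052 134217728 67108864 false true true .pp 2 0 2
    ndF2q2b ndF1q2b pcF0 Cut.none Ext.none :=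
  certF0 (fam := false) (s1 := true) (s2 := true) (a := 2) (b := 0) (c := 2) (cn := .pp) (n1 := ndF2q2b) (n2 := ndF1q2b) (pc := pcF0) (cut := Cut.none) (xt := Ext.none) (P1 := 1239849684) (W1 := 370763052) (P2 := 1239849684) (W2 := 370763052) (P3 := 134217728) (W3 := 67108864)
    rfl k0_pp_202_bb

noncomputable def f_pp_203_a : ℕ → ℕ → ℕ → ℕ → Bool := onCell 0 536870912 0 536870912 134217728 67108864
    (rowF 1 false true true .up 2 0 3 (qsf 0 536870912 1610612736 536870912 0) ndF2q2a ndF1q3 pcF0 Cut.none Ext.none)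

def k0_pp_203_a : ∃ t, chk3 f_pp_203_a t 1 1 1 = true :=
  ⟨(l 3), by decide +kernel⟩

theorem c_pp_203_a : CertF 0 536870912 1610612736 536870912 134217728 67108864 false true true .up 2 0 3
    ndF2q2a ndF1q3 pcF0 Cut.none Ext.none :=
  certF1 (fam := false) (s1 := true) (s2 := true) (a := 2) (b := 0) (c := 3) (cn := .up) (n1 := ndF2q2a) (n2 := ndF1q3) (pc := pcF0) (cut := Cut.none) (xt := Ext.none) (P1 := 0) (W1 := 536870912) (P2 := 1610612736) (W2 := 536870912) (P3 := 134217728) (W3 := 67108864)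
    rfl (fun _ => rfl) k0_pp_203_a

noncomputable def f_pp_203_b : ℕ → ℕ → ℕ → ℕ → Bool := onCell 1239849684 370763052 1610612736 536870912 134217728 67108864
    (rowF 0 false true true .up 2 0 3 (qsf 1239849684 370763052 1610612736 536870912 0) ndF2q2b ndF1q3 pcF0 Cut.none Ext.none)

def k0_pp_203_b : ∃ t, chk3 f_pp_203_b t 1 1 1 = true :=
  ⟨(l 3), by decide +kernel⟩

theorem c_pp_203_b : CertF 1239849684 370763052 1610612736 536870912 134217728 67108864 false true true .up 2 0 3
    ndF2q2b ndF1q3 pcF0 Cut.none Ext.none :=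
  certF0 (fam := false) (s1 := true) (s2 := true) (a := 2) (b := 0) (c := 3) (cn := .up) (n1 := ndF2q2b) (n2 := ndF1q3) (pc := pcF0) (cut := Cut.none) (xt := Ext.none) (P1 := 1239849684) (W1 := 370763052) (P2 := 1610612736) (W2 := 536870912) (P3 := 134217728) (W3 := 67108864)
    rfl k0_pp_203_b

noncomputable def cut_pp_213_a : Cut := Cut.of [[⟨0, 1, 0, 39843005⟩, ⟨1, 1, 0, 39843005⟩, ⟨2, 2, 0, 5814905⟩]]

noncomputable def f_pp_213_a : ℕ → ℕ → ℕ → ℕ → Bool := onCell 0 536870912 1610612736 536870912 134217728 67108864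
    (rowF 0 false true true .pnn 2 1 3 (qsf 0 536870912 1610612736 536870912 1) ndF2q2a ndF1q3 pcF1 cut_pp_213_a Ext.none)

def k0_pp_213_a : ∃ t, chk3 f_pp_213_a t 1 1 1 = true :=
  ⟨(b (l 3) (b (l 3) (a (l 3) (a (l 3) (b (l 3) (b (l 3) (a (l 3) (b (l 3) (b (l 3) (a (l 3) (b (l 3) (l 6)))))))))))), by decide +kernel⟩

theorem c_pp_213_a : CertF 0 536870912 1610612736 536870912 134217728 67108864 false true true .pnn 2 1 3
    ndF2q2a ndF1q3 pcF1 cut_pp_213_a Ext.none :=
  certF0 (fam := false) (s1 := true) (s2 := true) (a := 2) (b := 1) (c := 3) (cn := .pnn) (n1 := ndF2q2a) (n2 := ndF1q3) (pc := pcF1) (cut := cut_pp_213_a) (xt := Ext.none) (P1 := 0) (W1 := 536870912) (P2 := 1610612736) (W2 := 536870912) (P3 := 134217728) (W3 := 67108864)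
    rfl k0_pp_213_a

noncomputable def cut_pp_213_b : Cut := Cut.of [[⟨0, 1, 0, 39843005⟩, ⟨1, 1, 0, 39843005⟩, ⟨2, 2, 0, 5814905⟩]]

noncomputable def f_pp_213_b : ℕ → ℕ → ℕ → ℕ → Bool := onCell 1239849684 370763052 1610612736 536870912 134217728 67108864
    (rowF 0 false true true .pnn 2 1 3 (qsf 1239849684 370763052 1610612736 536870912 1) ndF2q2b ndF1q3 pcF1 cut_pp_213_b Ext.none)

def k0_pp_213_b : ∃ t, chk3 f_pp_213_b t 1 1 1 = true :=
  ⟨(l 3), by decide +kernel⟩

theorem c_pp_213_b : CertF 1239849684 370763052 1610612736 536870912 134217728 67108864 false true true .pnn 2 1 3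
    ndF2q2b ndF1q3 pcF1 cut_pp_213_b Ext.none :=
  certF0 (fam := false) (s1 := true) (s2 := true) (a := 2) (b := 1) (c := 3) (cn := .pnn) (n1 := ndF2q2b) (n2 := ndF1q3) (pc := pcF1) (cut := cut_pp_213_b) (xt := Ext.none) (P1 := 1239849684) (W1 := 370763052) (P2 := 1610612736) (W2 := 536870912) (P3 := 134217728) (W3 := 67108864)
    rfl k0_pp_213_b

noncomputable def f_pp_303 : ℕ → ℕ → ℕ → ℕ → Bool := onCell 1610612736 536870912 1610612736 536870912 134217728 67108864
    (rowF 0 false true true .npn 3 0 3 (qsf 1610612736 536870912 1610612736 536870912 0) ndF2q3 ndF1q3 pcF0 Cut.none Ext.none)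

def k0_pp_303 : ∃ t, chk3 f_pp_303 t 1 1 1 = true :=
  ⟨(l 3), by decide +kernel⟩

theorem c_pp_303 : CertF 1610612736 536870912 1610612736 536870912 134217728 67108864 false true true .npn 3 0 3
    ndF2q3 ndF1q3 pcF0 Cut.none Ext.none :=
  certF0 (fam := false) (s1 := true) (s2 := true) (a := 3) (b := 0) (c := 3) (cn := .npn) (n1 := ndF2q3) (n2 := ndF1q3) (pc := pcF0) (cut := Cut.none) (xt := Ext.none) (P1 := 1610612736) (W1 := 536870912) (P2 := 1610612736) (W2 := 536870912) (P3 := 134217728) (W3 := 67108864)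
    rfl k0_pp_303

noncomputable def f_pp_313 : ℕ → ℕ → ℕ → ℕ → Bool := onCell 1610612736 536870912 1610612736 536870912 134217728 67108864
    (rowF 0 false true true .dn 3 1 3 (qsf 1610612736 536870912 1610612736 536870912 1) ndF2q3 ndF1q3 pcF1 Cut.none Ext.none)

def k0_pp_313 : ∃ t, chk3 f_pp_313 t 1 1 1 = true :=
  ⟨(l 3), by decide +kernel⟩

theorem c_pp_313 : CertF 1610612736 536870912 1610612736 536870912 134217728 67108864 false true true .dn 3 1 3
    ndF2q3 ndF1q3 pcF1 Cut.none Ext.none :=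
  certF0 (fam := false) (s1 := true) (s2 := true) (a := 3) (b := 1) (c := 3) (cn := .dn) (n1 := ndF2q3) (n2 := ndF1q3) (pc := pcF1) (cut := Cut.none) (xt := Ext.none) (P1 := 1610612736) (W1 := 536870912) (P2 := 1610612736) (W2 := 536870912) (P3 := 134217728) (W3 := 67108864)
    rfl k0_pp_313

noncomputable def f_pm_001 : ℕ → ℕ → ℕ → ℕ → Bool := onCell 0 536870912 536870912 536870912 134217728 67108864
    (rowF 0 false true false .up 0 0 1 (qsf 0 536870912 536870912 536870912 0) ndF2q0 ndF1q1 pcF0 Cut.none Ext.none)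

def k0_pm_001 : ∃ t, chk3 f_pm_001 t 1 1 1 = true :=
  ⟨(l 4), by decide +kernel⟩

theorem c_pm_001 : CertF 0 536870912 536870912 536870912 134217728 67108864 false true false .up 0 0 1
    ndF2q0 ndF1q1 pcF0 Cut.none Ext.none :=
  certF0 (fam := false) (s1 := true) (s2 := false) (a := 0) (b := 0) (c := 1) (cn := .up) (n1 := ndF2q0) (n2 := ndF1q1) (pc := pcF0) (cut := Cut.none) (xt := Ext.none) (P1 := 0) (W1 := 536870912) (P2 := 536870912) (W2 := 536870912) (P3 := 134217728) (W3 := 67108864)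
    rfl k0_pm_001

noncomputable def f_pm_011 : ℕ → ℕ → ℕ → ℕ → Bool := onCell 0 536870912 536870912 536870912 134217728 67108864
    (rowF 0 false true false .pnn 0 1 1 (qsf 0 536870912 536870912 536870912 1) ndF2q0 ndF1q1 pcF1 Cut.none Ext.none)

def k0_pm_011 : ∃ t, chk3 f_pm_011 t 1 1 1 = true :=
  ⟨(l 4), by decide +kernel⟩

theorem c_pm_011 : CertF 0 536870912 536870912 536870912 134217728 67108864 false true false .pnn 0 1 1
    ndF2q0 ndF1q1 pcF1 Cut.none Ext.none :=
  certF0 (fam := false) (s1 := true) (s2 := false) (a := 0) (b := 1) (c := 1) (cn := .pnn) (n1 := ndF2q0) (n2 := ndF1q1) (pc := pcF1) (cut := Cut.none) (xt := Ext.none) (P1 := 0) (W1 := 536870912) (P2 := 536870912) (W2 := 536870912) (P3 := 134217728) (W3 := 67108864)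
    rfl k0_pm_011

noncomputable def cut_pm_012_a : Cut := Cut.of [[⟨0, 0, 0, 67108864⟩, ⟨1, 1, 0, 67108864⟩, ⟨2, 1, 0, 67108864⟩]]

noncomputable def f_pm_012_a : ℕ → ℕ → ℕ → ℕ → Bool := onCell 536870912 536870912 0 536870912 134217728 67108864
    (rowF 2 false true false .pnp 0 1 2 (qsf 0 536870912 0 536870912 1) ndF2q0 ndF1q2a pcF1 cut_pm_012_a Ext.none)

def k0_pm_012_a : ∃ t, chk3 f_pm_012_a t 1 1 1 = true :=
  ⟨(a (b (a (l 17756728) (l 17914840)) (l 4)) (b (a (a (l 17965264) (l 30302431991)) (a (a (l 17770360) (b (l 17672472) (l 17466048))) (a (b (l 17336408) (l 17004040)) (b (l 16711944) (l 16432520))))) (a (l 4) (a (l 4) (a (l 4) (b (l 203708579623) (a (l 4) (b (l 4) (l 6))))))))), by decide +kernel⟩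

theorem c_pm_012_a : CertF 0 536870912 0 536870912 134217728 67108864 false true false .pnp 0 1 2
    ndF2q0 ndF1q2a pcF1 cut_pm_012_a Ext.none :=
  certF2 (fam := false) (s1 := true) (s2 := false) (a := 0) (b := 1) (c := 2) (cn := .pnp) (n1 := ndF2q0) (n2 := ndF1q2a) (pc := pcF1) (cut := cut_pm_012_a) (xt := Ext.none) (P1 := 0) (W1 := 536870912) (P2 := 0) (W2 := 536870912) (P3 := 134217728) (W3 := 67108864)
    rfl (fun _ => rfl) k0_pm_012_a

noncomputable def cut_pm_012_b : Cut := Cut.of [[⟨0, 0, 0, 67108864⟩, ⟨1, 1, 0, 67108864⟩, ⟨2, 1, 0, 67108864⟩]]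

noncomputable def f_pm_012_b : ℕ → ℕ → ℕ → ℕ → Bool := onCell 536870912 536870912 1239849684 370763052 134217728 67108864
    (rowF 2 false true false .pnp 0 1 2 (qsf 0 536870912 1239849684 370763052 1) ndF2q0 ndF1q2b pcF1 cut_pm_012_b Ext.none)

def k0_pm_012_b : ∃ t, chk3 f_pm_012_b t 1 1 1 = true :=
  ⟨(a (a (l 2) (b (l 18122160) (l 2))) (b (a (a (l 18298840) (b (l 18208760) (l 18576952))) (a (a (l 18455488) (b (l 18129880) (l 18716312))) (b (a (l 17981928) (l 17704112)) (l 18733304)))) (a (l 18688296) (l 19109416)))), by decide +kernel⟩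

theorem c_pm_012_b : CertF 0 536870912 1239849684 370763052 134217728 67108864 false true false .pnp 0 1 2
    ndF2q0 ndF1q2b pcF1 cut_pm_012_b Ext.none :=
  certF2 (fam := false) (s1 := true) (s2 := false) (a := 0) (b := 1) (c := 2) (cn := .pnp) (n1 := ndF2q0) (n2 := ndF1q2b) (pc := pcF1) (cut := cut_pm_012_b) (xt := Ext.none) (P1 := 0) (W1 := 536870912) (P2 := 1239849684) (W2 := 370763052) (P3 := 134217728) (W3 := 67108864)
    rfl (fun _ => rfl) k0_pm_012_b

noncomputable def cut_pm_022_a : Cut := Cut.of [[⟨0, 0, 0, 67108864⟩, ⟨1, 1, 0, 67108864⟩, ⟨2, 1, 0, 67108864⟩]]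

noncomputable def f_pm_022_a : ℕ → ℕ → ℕ → ℕ → Bool := onCell 0 536870912 0 536870912 134217728 67108864
    (rowF 0 false true false .pp 0 2 2 (qsf 0 536870912 0 536870912 2) ndF2q0 ndF1q2a pcF2 cut_pm_022_a Ext.none)

def k0_pm_022_a : ∃ t, chk3 f_pm_022_a t 1 1 1 = true :=
  ⟨(a (b (a (a (a (b (a (b (c (l 16908720) (l 16570648)) (c (l 16799352) (l 16569856))) (l 16561624)) (b (a (c (l 16602824) (l 16576040)) (l 16543088)) (a (c (a (l 16624512) (l 16584696)) (l 16630968)) (l 16554328)))) (b (a (l 16506624) (l 16471776)) (a (l 16553568) (l 16473384)))) (b (l 16471840) (a (l 16477928) (l 16448616)))) (a (b (l 16418568) (a (l 16454880) (l 1))) (l 1))) (a (b (a (a (a (a (b (c (b (l 16617080) (l 16628536)) (b (l 16612392) (l 16624464))) (b (c (l 16663024) (l 16638656)) (c (a (l 16683672) (l 16652976)) (l 16676088)))) (b (c (l 16603504) (l 16599928)) (b (l 16621232) (l 16658224)))) (b (l 16614816) (a (l 16651720) (l 16611136)))) (b (l 16576568) (b (l 16585080) (l 16615352))))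 (b (a (l 16503120) (l 16497728)) (a (l 16587120) (l 4)))) (a (a (b (b (a (a (a (c (c (l 16702464) (l 16701416)) (l 16705024)) (c (l 16671256) (l 16669384))) (l 16676824)) (l 16669728)) (l 6)) (l 6)) (b (b (l 16655040) (l 4)) (l 4))) (l 4))) (b (l 1) (l 1)))) (l 1)), by decide +kernel⟩

theorem c_pm_022_a : CertF 0 536870912 0 536870912 134217728 67108864 false true false .pp 0 2 2
    ndF2q0 ndF1q2a pcF2 cut_pm_022_a Ext.none :=
  certF0 (fam := false) (s1 := true) (s2 := false) (a := 0) (b := 2) (c := 2) (cn := .pp) (n1 := ndF2q0) (n2 := ndF1q2a) (pc := pcF2) (cut := cut_pm_022_a) (xt := Ext.none) (P1 := 0) (W1 := 536870912) (P2 := 0) (W2 := 536870912) (P3 := 134217728) (W3 := 67108864)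
    rfl k0_pm_022_a

noncomputable def cut_pm_022_b : Cut := Cut.of [[⟨0, 0, 0, 67108864⟩, ⟨1, 1, 0, 67108864⟩, ⟨2, 1, 0, 67108864⟩]]

noncomputable def f_pm_022_b : ℕ → ℕ → ℕ → ℕ → Bool := onCell 0 536870912 1239849684 370763052 134217728 67108864
    (rowF 0 false true false .pp 0 2 2 (qsf 0 536870912 1239849684 370763052 2) ndF2q0 ndF1q2b pcF2 cut_pm_022_b Ext.none)

def k0_pm_022_b : ∃ t, chk3 f_pm_022_b t 1 1 1 = true :=
  ⟨(a (b (a (a (b (a (b (a (c (b (l 17146760) (l 17496816)) (l 16602176)) (l 16952712)) (c (l 17882072) (l 17300528))) (b (l 16923232) (l 17605232))) (a (b (l 17975512) (l 18218960)) (l 18161064))) (b (b (l 16904032) (l 17647600)) (l 18243016))) (b (a (b (l 16964448) (l 17753944)) (b (l 17100520) (l 17900704))) (a (l 18373600) (l 18529360)))) (a (b (a (b (l 18403000) (l 18493504)) (l 18585904)) (a (l 18788136) (l 4))) (b (a (l 18716248) (l 18851416)) (l 4)))) (b (a (b (l 1) (a (l 18684648) (l 18829992))) (l 1)) (b (a (l 4) (l 4)) (l 4)))), by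 decide +kernel⟩

theorem c_pm_022_b : CertF 0 536870912 1239849684 370763052 134217728 67108864 false true false .pp 0 2 2
    ndF2q0 ndF1q2b pcF2 cut_pm_022_b Ext.none :=
  certF0 (fam := false) (s1 := true) (s2 := false) (a := 0) (b := 2) (c := 2) (cn := .pp) (n1 := ndF2q0) (n2 := ndF1q2b) (pc := pcF2) (cut := cut_pm_022_b) (xt := Ext.none) (P1 := 0) (W1 := 536870912) (P2 := 1239849684) (W2 := 370763052) (P3 := 134217728) (W3 := 67108864)
    rfl k0_pm_022_b

noncomputable def f_pm_023 : ℕ → ℕ → ℕ → ℕ → Bool := onCell 0 536870912 1610612736 536870912 134217728 67108864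
    (rowF 0 false true false .up 0 2 3 (qsf 0 536870912 1610612736 536870912 2) ndF2q0 ndF1q3 pcF2 Cut.none Ext.none)

def k0_pm_023 : ∃ t, chk3 f_pm_023 t 1 1 1 = true :=
  ⟨(b (a (l 4) (l 4)) (l 4)), by decide +kernel⟩

theorem c_pm_023 : CertF 0 536870912 1610612736 536870912 134217728 67108864 false true false .up 0 2 3
    ndF2q0 ndF1q3 pcF2 Cut.none Ext.none :=
  certF0 (fam := false) (s1 := true) (s2 := false) (a := 0) (b := 2) (c := 3) (cn := .up) (n1 := ndF2q0) (n2 := ndF1q3) (pc := pcF2) (cut := Cut.none) (xt := Ext.none) (P1 := 0) (W1 := 536870912) (P2 := 1610612736) (W2 := 536870912) (P3 := 134217728) (W3 := 67108864)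
    rfl k0_pm_023

noncomputable def f_pm_033 : ℕ → ℕ → ℕ → ℕ → Bool := onCell 0 536870912 1610612736 536870912 134217728 67108864
    (rowF 0 false true false .pnn 0 3 3 (qsf 0 536870912 1610612736 536870912 3) ndF2q0 ndF1q3 pcF3 Cut.none Ext.none)

def k0_pm_033 : ∃ t, chk3 f_pm_033 t 1 1 1 = true :=
  ⟨(b (a (l 4) (l 4)) (l 4)), by decide +kernel⟩

theorem c_pm_033 : CertF 0 536870912 1610612736 536870912 134217728 67108864 false true false .pnn 0 3 3
    ndF2q0 ndF1q3 pcF3 Cut.none Ext.none :=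
  certF0 (fam := false) (s1 := true) (s2 := false) (a := 0) (b := 3) (c := 3) (cn := .pnn) (n1 := ndF2q0) (n2 := ndF1q3) (pc := pcF3) (cut := Cut.none) (xt := Ext.none) (P1 := 0) (W1 := 536870912) (P2 := 1610612736) (W2 := 536870912) (P3 := 134217728) (W3 := 67108864)
    rfl k0_pm_033

noncomputable def f_pm_101 : ℕ → ℕ → ℕ → ℕ → Bool := onCell 536870912 536870912 536870912 536870912 134217728 67108864
    (rowF 0 false true false .npn 1 0 1 (qsf 536870912 536870912 536870912 536870912 0) ndF2q1 ndF1q1 pcF0 Cut.none Ext.none)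

def k0_pm_101 : ∃ t, chk3 f_pm_101 t 1 1 1 = true :=
  ⟨(l 4), by decide +kernel⟩

theorem c_pm_101 : CertF 536870912 536870912 536870912 536870912 134217728 67108864 false true false .npn 1 0 1
    ndF2q1 ndF1q1 pcF0 Cut.none Ext.none :=
  certF0 (fam := false) (s1 := true) (s2 := false) (a := 1) (b := 0) (c := 1) (cn := .npn) (n1 := ndF2q1) (n2 := ndF1q1) (pc := pcF0) (cut := Cut.none) (xt := Ext.none) (P1 := 536870912) (W1 := 536870912) (P2 := 536870912) (W2 := 536870912) (P3 := 134217728) (W3 := 67108864)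
    rfl k0_pm_101

noncomputable def f_pm_102_a : ℕ → ℕ → ℕ → ℕ → Bool := onCell 536870912 536870912 0 536870912 134217728 67108864
    (rowF 0 false true false .npp 1 0 2 (qsf 536870912 536870912 0 536870912 0) ndF2q1 ndF1q2a pcF0 Cut.none Ext.none)

def k0_pm_102_a : ∃ t, chk3 f_pm_102_a t 1 1 1 = true :=
  ⟨(b (b (a (a (l 2) (l 18311136)) (a (l 18457112) (l 18798688))) (a (l 4) (a (l 4) (l 18875104)))) (l 4)), by decide +kernel⟩

theorem c_pm_102_a : CertF 536870912 536870912 0 536870912 134217728 67108864 false true false .npp 1 0 2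
    ndF2q1 ndF1q2a pcF0 Cut.none Ext.none :=
  certF0 (fam := false) (s1 := true) (s2 := false) (a := 1) (b := 0) (c := 2) (cn := .npp) (n1 := ndF2q1) (n2 := ndF1q2a) (pc := pcF0) (cut := Cut.none) (xt := Ext.none) (P1 := 536870912) (W1 := 536870912) (P2 := 0) (W2 := 536870912) (P3 := 134217728) (W3 := 67108864)
    rfl k0_pm_102_a

noncomputable def f_pm_102_b : ℕ → ℕ → ℕ → ℕ → Bool := onCell 536870912 536870912 0 536870912 134217728 67108864
    (rowF 1 false true false .npp 1 0 2 (qsf 536870912 536870912 1239849684 370763052 0) ndF2q1 ndF1q2b pcF0 Cut.none Ext.none)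

def k0_pm_102_b : ∃ t, chk3 f_pm_102_b t 1 1 1 = true :=
  ⟨(b (a (l 1) (b (l 1) (l 432218559111))) (a (b (l 1) (a (l 1) (l 18064736))) (b (l 420944351223) (a (l 18265856) (l 18392736))))), by decide +kernel⟩

theorem c_pm_102_b : CertF 536870912 536870912 1239849684 370763052 134217728 67108864 false true false .npp 1 0 2
    ndF2q1 ndF1q2b pcF0 Cut.none Ext.none :=
  certF1 (fam := false) (s1 := true) (s2 := false) (a := 1) (b := 0) (c := 2) (cn := .npp) (n1 := ndF2q1) (n2 := ndF1q2b) (pc := pcF0) (cut := Cut.none) (xt := Ext.none) (P1 := 536870912) (W1 := 536870912) (P2 := 1239849684) (W2 := 370763052) (P3 := 134217728) (W3 := 67108864)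
    rfl (fun _ => rfl) k0_pm_102_b

noncomputable def f_pm_112_a : ℕ → ℕ → ℕ → ℕ → Bool := onCell 536870912 536870912 0 536870912 134217728 67108864
    (rowF 0 false true false .dn 1 1 2 (qsf 536870912 536870912 0 536870912 1) ndF2q1 ndF1q2a pcF1 Cut.none Ext.none)

def k0_pm_112_a : ∃ t, chk3 f_pm_112_a t 1 1 1 = true :=
  ⟨(a (b (l 18450536) (l 4)) (l 1)), by decide +kernel⟩

theorem c_pm_112_a : CertF 536870912 536870912 0 536870912 134217728 67108864 false true false .dn 1 1 2
    ndF2q1 ndF1q2a pcF1 Cut.none Ext.none :=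
  certF0 (fam := false) (s1 := true) (s2 := false) (a := 1) (b := 1) (c := 2) (cn := .dn) (n1 := ndF2q1) (n2 := ndF1q2a) (pc := pcF1) (cut := Cut.none) (xt := Ext.none) (P1 := 536870912) (W1 := 536870912) (P2 := 0) (W2 := 536870912) (P3 := 134217728) (W3 := 67108864)
    rfl k0_pm_112_a

noncomputable def f_pm_112_b : ℕ → ℕ → ℕ → ℕ → Bool := onCell 536870912 536870912 536870912 536870912 134217728 67108864
    (rowF 1 false true false .dn 1 1 2 (qsf 536870912 536870912 1239849684 370763052 1) ndF2q1 ndF1q2b pcF1 Cut.none Ext.none)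

def k0_pm_112_b : ∃ t, chk3 f_pm_112_b t 1 1 1 = true :=
  ⟨(b (a (l 411280604807) (l 18318656)) (a (l 18505888) (b (b (l 17840440) (l 2)) (l 2)))), by decide +kernel⟩

theorem c_pm_112_b : CertF 536870912 536870912 1239849684 370763052 134217728 67108864 false true false .dn 1 1 2
    ndF2q1 ndF1q2b pcF1 Cut.none Ext.none :=
  certF1 (fam := false) (s1 := true) (s2 := false) (a := 1) (b := 1) (c := 2) (cn := .dn) (n1 := ndF2q1) (n2 := ndF1q2b) (pc := pcF1) (cut := Cut.none) (xt := Ext.none) (P1 := 536870912) (W1 := 536870912) (P2 := 1239849684) (W2 := 370763052) (P3 := 134217728) (W3 := 67108864)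
    rfl (fun _ => rfl) k0_pm_112_b

noncomputable def f_pm_113 : ℕ → ℕ → ℕ → ℕ → Bool := onCell 536870912 536870912 536870912 536870912 134217728 67108864
    (rowF 1 false true false .nn 1 1 3 (qsf 536870912 536870912 1610612736 536870912 1) ndF2q1 ndF1q3 pcF1 Cut.none Ext.none)

def k0_pm_113 : ∃ t, chk3 f_pm_113 t 1 1 1 = true :=
  ⟨(b (a (l 531539535111) (l 18118968)) (a (l 18409312) (b (b (l 17772768) (l 17721120)) (b (l 17628224) (l 17475328))))), by decide +kernel⟩

theorem c_pm_113 : CertF 536870912 536870912 1610612736 536870912 134217728 67108864 false true false .nn 1 1 3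
    ndF2q1 ndF1q3 pcF1 Cut.none Ext.none :=
  certF1 (fam := false) (s1 := true) (s2 := false) (a := 1) (b := 1) (c := 3) (cn := .nn) (n1 := ndF2q1) (n2 := ndF1q3) (pc := pcF1) (cut := Cut.none) (xt := Ext.none) (P1 := 536870912) (W1 := 536870912) (P2 := 1610612736) (W2 := 536870912) (P3 := 134217728) (W3 := 67108864)
    rfl (fun _ => rfl) k0_pm_113

noncomputable def f_pm_123 : ℕ → ℕ → ℕ → ℕ → Bool := onCell 1073741824 536870912 1610612736 536870912 134217728 67108864
    (rowF 2 false true false .npn 1 2 3 (qsf 536870912 536870912 1610612736 536870912 2) ndF2q1 ndF1q3 pcF2 Cut.none Ext.none)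

def k0_pm_123 : ∃ t, chk3 f_pm_123 t 1 1 1 = true :=
  ⟨(a (b (l 4) (a (l 17508224) (l 17493496))) (a (l 4) (b (l 1) (l 4)))), by decide +kernel⟩

theorem c_pm_123 : CertF 536870912 536870912 1610612736 536870912 134217728 67108864 false true false .npn 1 2 3
    ndF2q1 ndF1q3 pcF2 Cut.none Ext.none :=
  certF2 (fam := false) (s1 := true) (s2 := false) (a := 1) (b := 2) (c := 3) (cn := .npn) (n1 := ndF2q1) (n2 := ndF1q3) (pc := pcF2) (cut := Cut.none) (xt := Ext.none) (P1 := 536870912) (W1 := 536870912) (P2 := 1610612736) (W2 := 536870912) (P3 := 134217728) (W3 := 67108864)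
    rfl (fun _ => rfl) k0_pm_123

noncomputable def f_pm_133 : ℕ → ℕ → ℕ → ℕ → Bool := onCell 536870912 536870912 1610612736 536870912 134217728 67108864
    (rowF 0 false true false .dn 1 3 3 (qsf 536870912 536870912 1610612736 536870912 3) ndF2q1 ndF1q3 pcF3 Cut.none Ext.none)

def k0_pm_133 : ∃ t, chk3 f_pm_133 t 1 1 1 = true :=
  ⟨(a (b (l 1) (l 4)) (l 1)), by decide +kernel⟩

theorem c_pm_133 : CertF 536870912 536870912 1610612736 536870912 134217728 67108864 false true false .dn 1 3 3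
    ndF2q1 ndF1q3 pcF3 Cut.none Ext.none :=
  certF0 (fam := false) (s1 := true) (s2 := false) (a := 1) (b := 3) (c := 3) (cn := .dn) (n1 := ndF2q1) (n2 := ndF1q3) (pc := pcF3) (cut := Cut.none) (xt := Ext.none) (P1 := 536870912) (W1 := 536870912) (P2 := 1610612736) (W2 := 536870912) (P3 := 134217728) (W3 := 67108864)
    rfl k0_pm_133

noncomputable def cut_pm_202_aa : Cut := Cut.of [[⟨0, 1, 0, 67108864⟩, ⟨1, 0, 0, 67108864⟩, ⟨2, 1, 0, 67108864⟩]]

noncomputable def f_pm_202_aa : ℕ → ℕ → ℕ → ℕ → Bool := onCell 0 536870912 0 536870912 134217728 67108864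
    (rowF 0 false true false .pp 2 0 2 (qsf 0 536870912 0 536870912 0) ndF2q2a ndF1q2a pcF0 cut_pm_202_aa Ext.none)

def k0_pm_202_aa : ∃ t, chk3 f_pm_202_aa t 1 1 1 = true :=
  ⟨(b (l 3) (a (l 3) (b (l 3) (a (l 3) (b (l 3) (a (l 3) (l 6))))))), by decide +kernel⟩

theorem c_pm_202_aa : CertF 0 536870912 0 536870912 134217728 67108864 false true false .pp 2 0 2
    ndF2q2a ndF1q2a pcF0 cut_pm_202_aa Ext.none :=
  certF0 (fam := false) (s1 := true) (s2 := false) (a := 2) (b := 0) (c := 2) (cn := .pp) (n1 := ndF2q2a) (n2 := ndF1q2a) (pc := pcF0) (cut := cut_pm_202_aa) (xt := Ext.none) (P1 := 0) (W1 := 536870912) (P2 := 0) (W2 := 536870912) (P3 := 134217728) (W3 := 67108864)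
    rfl k0_pm_202_aa

noncomputable def cut_pm_202_ab : Cut := Cut.of [[⟨0, 1, 0, 67108864⟩, ⟨1, 0, 0, 67108864⟩, ⟨2, 1, 0, 67108864⟩]]

noncomputable def f_pm_202_ab : ℕ → ℕ → ℕ → ℕ → Bool := onCell 0 536870912 1239849684 370763052 134217728 67108864
    (rowF 0 false true false .pp 2 0 2 (qsf 0 536870912 1239849684 370763052 0) ndF2q2a ndF1q2b pcF0 cut_pm_202_ab Ext.none)

def k0_pm_202_ab : ∃ t, chk3 f_pm_202_ab t 1 1 1 = true :=
  ⟨(l 3), by decide +kernel⟩

theorem c_pm_202_ab : CertF 0 536870912 1239849684 370763052 134217728 67108864 false true false .pp 2 0 2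
    ndF2q2a ndF1q2b pcF0 cut_pm_202_ab Ext.none :=
  certF0 (fam := false) (s1 := true) (s2 := false) (a := 2) (b := 0) (c := 2) (cn := .pp) (n1 := ndF2q2a) (n2 := ndF1q2b) (pc := pcF0) (cut := cut_pm_202_ab) (xt := Ext.none) (P1 := 0) (W1 := 536870912) (P2 := 1239849684) (W2 := 370763052) (P3 := 134217728) (W3 := 67108864)
    rfl k0_pm_202_ab

noncomputable def cut_pm_202_ba : Cut := Cut.of [[⟨0, 1, 0, 67108864⟩, ⟨1, 0, 0, 67108864⟩, ⟨2, 1, 0, 67108864⟩]]

noncomputable def f_pm_202_ba : ℕ → ℕ → ℕ → ℕ → Bool := onCell 1239849684 370763052 0 536870912 134217728 67108864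
    (rowF 0 false true false .pp 2 0 2 (qsf 1239849684 370763052 0 536870912 0) ndF2q2b ndF1q2a pcF0 cut_pm_202_ba Ext.none)

def k0_pm_202_ba : ∃ t, chk3 f_pm_202_ba t 1 1 1 = true :=
  ⟨(b (l 3) (l 1)), by decide +kernel⟩

theorem c_pm_202_ba : CertF 1239849684 370763052 0 536870912 134217728 67108864 false true false .pp 2 0 2
    ndF2q2b ndF1q2a pcF0 cut_pm_202_ba Ext.none :=
  certF0 (fam := false) (s1 := true) (s2 := false) (a := 2) (b := 0) (c := 2) (cn := .pp) (n1 := ndF2q2b) (n2 := ndF1q2a) (pc := pcF0) (cut := cut_pm_202_ba) (xt := Ext.none) (P1 := 1239849684) (W1 := 370763052) (P2 := 0) (W2 := 536870912) (P3 := 134217728) (W3 := 67108864)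
    rfl k0_pm_202_ba

noncomputable def cut_pm_202_bb : Cut := Cut.of [[⟨0, 1, 0, 67108864⟩, ⟨1, 0, 0, 67108864⟩, ⟨2, 1, 0, 67108864⟩]]

noncomputable def f_pm_202_bb : ℕ → ℕ → ℕ → ℕ → Bool := onCell 1239849684 370763052 1239849684 370763052 134217728 67108864
    (rowF 0 false true false .pp 2 0 2 (qsf 1239849684 370763052 1239849684 370763052 0) ndF2q2b ndF1q2b pcF0 cut_pm_202_bb Ext.none)

def k0_pm_202_bb : ∃ t, chk3 f_pm_202_bb t 1 1 1 = true :=
  ⟨(l 3), by decide +kernel⟩

theorem c_pm_202_bb : CertF 1239849684 370763052 1239849684 370763052 134217728 67108864 false true false .pp 2 0 2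
    ndF2q2b ndF1q2b pcF0 cut_pm_202_bb Ext.none :=
  certF0 (fam := false) (s1 := true) (s2 := false) (a := 2) (b := 0) (c := 2) (cn := .pp) (n1 := ndF2q2b) (n2 := ndF1q2b) (pc := pcF0) (cut := cut_pm_202_bb) (xt := Ext.none) (P1 := 1239849684) (W1 := 370763052) (P2 := 1239849684) (W2 := 370763052) (P3 := 134217728) (W3 := 67108864)
    rfl k0_pm_202_bb

noncomputable def f_pm_203_a : ℕ → ℕ → ℕ → ℕ → Bool := onCell 0 536870912 0 536870912 134217728 67108864
    (rowF 1 false true false .up 2 0 3 (qsf 0 536870912 1610612736 536870912 0) ndF2q2a ndF1q3 pcF0 Cut.none Ext.none)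

def k0_pm_203_a : ∃ t, chk3 f_pm_203_a t 1 1 1 = true :=
  ⟨(l 3), by decide +kernel⟩

theorem c_pm_203_a : CertF 0 536870912 1610612736 536870912 134217728 67108864 false true false .up 2 0 3
    ndF2q2a ndF1q3 pcF0 Cut.none Ext.none :=
  certF1 (fam := false) (s1 := true) (s2 := false) (a := 2) (b := 0) (c := 3) (cn := .up) (n1 := ndF2q2a) (n2 := ndF1q3) (pc := pcF0) (cut := Cut.none) (xt := Ext.none) (P1 := 0) (W1 := 536870912) (P2 := 1610612736) (W2 := 536870912) (P3 := 134217728) (W3 := 67108864)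
    rfl (fun _ => rfl) k0_pm_203_a

noncomputable def f_pm_203_b : ℕ → ℕ → ℕ → ℕ → Bool := onCell 1239849684 370763052 1610612736 536870912 134217728 67108864
    (rowF 0 false true false .up 2 0 3 (qsf 1239849684 370763052 1610612736 536870912 0) ndF2q2b ndF1q3 pcF0 Cut.none Ext.none)

def k0_pm_203_b : ∃ t, chk3 f_pm_203_b t 1 1 1 = true :=
  ⟨(l 3), by decide +kernel⟩

theorem c_pm_203_b : CertF 1239849684 370763052 1610612736 536870912 134217728 67108864 false true false .up 2 0 3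
    ndF2q2b ndF1q3 pcF0 Cut.none Ext.none :=
  certF0 (fam := false) (s1 := true) (s2 := false) (a := 2) (b := 0) (c := 3) (cn := .up) (n1 := ndF2q2b) (n2 := ndF1q3) (pc := pcF0) (cut := Cut.none) (xt := Ext.none) (P1 := 1239849684) (W1 := 370763052) (P2 := 1610612736) (W2 := 536870912) (P3 := 134217728) (W3 := 67108864)
    rfl k0_pm_203_b

noncomputable def cut_pm_213_a : Cut := Cut.of [[⟨0, 1, 0, 39843005⟩, ⟨1, 1, 0, 39843005⟩, ⟨2, 2, 0, 5814905⟩]]

noncomputable def f_pm_213_a : ℕ → ℕ → ℕ → ℕ → Bool := onCell 0 536870912 1610612736 536870912 134217728 67108864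
    (rowF 0 false true false .pnn 2 1 3 (qsf 0 536870912 1610612736 536870912 1) ndF2q2a ndF1q3 pcF1 cut_pm_213_a Ext.none)

def k0_pm_213_a : ∃ t, chk3 f_pm_213_a t 1 1 1 = true :=
  ⟨(b (l 3) (a (l 3) (b (l 3) (a (l 3) (b (l 3) (a (l 3) (a (l 3) (b (l 3) (a (l 3) (b (l 3) (a (l 3) (a (l 3) (b (l 3) (b (l 3) (l 6))))))))))))))), by decide +kernel⟩

theorem c_pm_213_a : CertF 0 536870912 1610612736 536870912 134217728 67108864 false true false .pnn 2 1 3
    ndF2q2a ndF1q3 pcF1 cut_pm_213_a Ext.none :=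
  certF0 (fam := false) (s1 := true) (s2 := false) (a := 2) (b := 1) (c := 3) (cn := .pnn) (n1 := ndF2q2a) (n2 := ndF1q3) (pc := pcF1) (cut := cut_pm_213_a) (xt := Ext.none) (P1 := 0) (W1 := 536870912) (P2 := 1610612736) (W2 := 536870912) (P3 := 134217728) (W3 := 67108864)
    rfl k0_pm_213_a

noncomputable def cut_pm_213_b : Cut := Cut.of [[⟨0, 1, 0, 39843005⟩, ⟨1, 1, 0, 39843005⟩, ⟨2, 2, 0, 5814905⟩]]

noncomputable def f_pm_213_b : ℕ → ℕ → ℕ → ℕ → Bool := onCell 1239849684 370763052 1610612736 536870912 134217728 67108864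
    (rowF 0 false true false .pnn 2 1 3 (qsf 1239849684 370763052 1610612736 536870912 1) ndF2q2b ndF1q3 pcF1 cut_pm_213_b Ext.none)

def k0_pm_213_b : ∃ t, chk3 f_pm_213_b t 1 1 1 = true :=
  ⟨(l 3), by decide +kernel⟩

theorem c_pm_213_b : CertF 1239849684 370763052 1610612736 536870912 134217728 67108864 false true false .pnn 2 1 3
    ndF2q2b ndF1q3 pcF1 cut_pm_213_b Ext.none :=
  certF0 (fam := false) (s1 := true) (s2 := false) (a := 2) (b := 1) (c := 3) (cn := .pnn) (n1 := ndF2q2b) (n2 := ndF1q3) (pc := pcF1) (cut := cut_pm_213_b) (xt := Ext.none) (P1 := 1239849684) (W1 := 370763052) (P2 := 1610612736) (W2 := 536870912) (P3 := 134217728) (W3 := 67108864)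
    rfl k0_pm_213_b

noncomputable def f_pm_303 : ℕ → ℕ → ℕ → ℕ → Bool := onCell 1610612736 536870912 1610612736 536870912 134217728 67108864
    (rowF 0 false true false .npn 3 0 3 (qsf 1610612736 536870912 1610612736 536870912 0) ndF2q3 ndF1q3 pcF0 Cut.none Ext.none)

def k0_pm_303 : ∃ t, chk3 f_pm_303 t 1 1 1 = true :=
  ⟨(l 3), by decide +kernel⟩

theorem c_pm_303 : CertF 1610612736 536870912 1610612736 536870912 134217728 67108864 false true false .npn 3 0 3
    ndF2q3 ndF1q3 pcF0 Cut.none Ext.none :=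
  certF0 (fam := false) (s1 := true) (s2 := false) (a := 3) (b := 0) (c := 3) (cn := .npn) (n1 := ndF2q3) (n2 := ndF1q3) (pc := pcF0) (cut := Cut.none) (xt := Ext.none) (P1 := 1610612736) (W1 := 536870912) (P2 := 1610612736) (W2 := 536870912) (P3 := 134217728) (W3 := 67108864)
    rfl k0_pm_303

noncomputable def f_pm_313 : ℕ → ℕ → ℕ → ℕ → Bool := onCell 1610612736 536870912 1610612736 536870912 134217728 67108864
    (rowF 0 false true false .dn 3 1 3 (qsf 1610612736 536870912 1610612736 536870912 1) ndF2q3 ndF1q3 pcF1 Cut.none Ext.none)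

def k0_pm_313 : ∃ t, chk3 f_pm_313 t 1 1 1 = true :=
  ⟨(l 3), by decide +kernel⟩

theorem c_pm_313 : CertF 1610612736 536870912 1610612736 536870912 134217728 67108864 false true false .dn 3 1 3
    ndF2q3 ndF1q3 pcF1 Cut.none Ext.none :=
  certF0 (fam := false) (s1 := true) (s2 := false) (a := 3) (b := 1) (c := 3) (cn := .dn) (n1 := ndF2q3) (n2 := ndF1q3) (pc := pcF1) (cut := Cut.none) (xt := Ext.none) (P1 := 1610612736) (W1 := 536870912) (P2 := 1610612736) (W2 := 536870912) (P3 := 134217728) (W3 := 67108864)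
    rfl k0_pm_313

noncomputable def f_mm_001 : ℕ → ℕ → ℕ → ℕ → Bool := onCell 0 536870912 536870912 536870912 134217728 67108864
    (rowF 0 false false false .up 0 0 1 (qsf 0 536870912 536870912 536870912 0) ndF2q0 ndF1q1 pcF0 Cut.none Ext.none)

def k0_mm_001 : ∃ t, chk3 f_mm_001 t 1 1 1 = true :=
  ⟨(l 3), by decide +kernel⟩

theorem c_mm_001 : CertF 0 536870912 536870912 536870912 134217728 67108864 false false false .up 0 0 1
    ndF2q0 ndF1q1 pcF0 Cut.none Ext.none :=
  certF0 (fam := false) (s1 := false) (s2 := false) (a := 0) (b := 0) (c := 1) (cn := .up) (n1 := ndF2q0) (n2 := ndF1q1) (pc := pcF0) (cut := Cut.none) (xt := Ext.none) (P1 := 0) (W1 := 536870912) (P2 := 536870912) (W2 := 536870912) (P3 := 134217728) (W3 := 67108864)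
    rfl k0_mm_001

noncomputable def f_mm_011 : ℕ → ℕ → ℕ → ℕ → Bool := onCell 0 536870912 536870912 536870912 134217728 67108864
    (rowF 0 false false false .pnn 0 1 1 (qsf 0 536870912 536870912 536870912 1) ndF2q0 ndF1q1 pcF1 Cut.none Ext.none)

def k0_mm_011 : ∃ t, chk3 f_mm_011 t 1 1 1 = true :=
  ⟨(l 3), by decide +kernel⟩

theorem c_mm_011 : CertF 0 536870912 536870912 536870912 134217728 67108864 false false false .pnn 0 1 1
    ndF2q0 ndF1q1 pcF1 Cut.none Ext.none :=
  certF0 (fam := false) (s1 := false) (s2 := false) (a := 0) (b := 1) (c := 1) (cn := .pnn) (n1 := ndF2q0) (n2 := ndF1q1) (pc := pcF1) (cut := Cut.none) (xt := Ext.none) (P1 := 0) (W1 := 536870912) (P2 := 536870912) (W2 := 536870912) (P3 := 134217728) (W3 := 67108864)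
    rfl k0_mm_011

noncomputable def f_mm_012_a : ℕ → ℕ → ℕ → ℕ → Bool := onCell 0 536870912 0 536870912 134217728 67108864
    (rowF 0 false false false .pnp 0 1 2 (qsf 0 536870912 0 536870912 1) ndF2q0 ndF1q2a pcF1 Cut.none Ext.none)

def k0_mm_012_a : ∃ t, chk3 f_mm_012_a t 1 1 1 = true :=
  ⟨(l 5), by decide +kernel⟩

theorem c_mm_012_a : CertF 0 536870912 0 536870912 134217728 67108864 false false false .pnp 0 1 2
    ndF2q0 ndF1q2a pcF1 Cut.none Ext.none :=
  certF0 (fam := false) (s1 := false) (s2 := false) (a := 0) (b := 1) (c := 2) (cn := .pnp) (n1 := ndF2q0) (n2 := ndF1q2a) (pc := pcF1) (cut := Cut.none) (xt := Ext.none) (P1 := 0) (W1 := 536870912) (P2 := 0) (W2 := 536870912) (P3 := 134217728) (W3 := 67108864)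
    rfl k0_mm_012_a

noncomputable def f_mm_012_b : ℕ → ℕ → ℕ → ℕ → Bool := onCell 0 536870912 1239849684 370763052 134217728 67108864
    (rowF 0 false false false .pnp 0 1 2 (qsf 0 536870912 1239849684 370763052 1) ndF2q0 ndF1q2b pcF1 Cut.none Ext.none)

def k0_mm_012_b : ∃ t, chk3 f_mm_012_b t 1 1 1 = true :=
  ⟨(l 5), by decide +kernel⟩

theorem c_mm_012_b : CertF 0 536870912 1239849684 370763052 134217728 67108864 false false false .pnp 0 1 2
    ndF2q0 ndF1q2b pcF1 Cut.none Ext.none :=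
  certF0 (fam := false) (s1 := false) (s2 := false) (a := 0) (b := 1) (c := 2) (cn := .pnp) (n1 := ndF2q0) (n2 := ndF1q2b) (pc := pcF1) (cut := Cut.none) (xt := Ext.none) (P1 := 0) (W1 := 536870912) (P2 := 1239849684) (W2 := 370763052) (P3 := 134217728) (W3 := 67108864)
    rfl k0_mm_012_b

noncomputable def f_mm_022_a : ℕ → ℕ → ℕ → ℕ → Bool := onCell 0 536870912 0 536870912 134217728 67108864
    (rowF 0 false false false .pp 0 2 2 (qsf 0 536870912 0 536870912 2) ndF2q0 ndF1q2a pcF2 Cut.none Ext.none)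

def k0_mm_022_a : ∃ t, chk3 f_mm_022_a t 1 1 1 = true :=
  ⟨(l 5), by decide +kernel⟩

theorem c_mm_022_a : CertF 0 536870912 0 536870912 134217728 67108864 false false false .pp 0 2 2
    ndF2q0 ndF1q2a pcF2 Cut.none Ext.none :=
  certF0 (fam := false) (s1 := false) (s2 := false) (a := 0) (b := 2) (c := 2) (cn := .pp) (n1 := ndF2q0) (n2 := ndF1q2a) (pc := pcF2) (cut := Cut.none) (xt := Ext.none) (P1 := 0) (W1 := 536870912) (P2 := 0) (W2 := 536870912) (P3 := 134217728) (W3 := 67108864)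
    rfl k0_mm_022_a

noncomputable def f_mm_022_b : ℕ → ℕ → ℕ → ℕ → Bool := onCell 0 536870912 1239849684 370763052 134217728 67108864
    (rowF 0 false false false .pp 0 2 2 (qsf 0 536870912 1239849684 370763052 2) ndF2q0 ndF1q2b pcF2 Cut.none Ext.none)

def k0_mm_022_b : ∃ t, chk3 f_mm_022_b t 1 1 1 = true :=
  ⟨(l 5), by decide +kernel⟩

theorem c_mm_022_b : CertF 0 536870912 1239849684 370763052 134217728 67108864 false false false .pp 0 2 2
    ndF2q0 ndF1q2b pcF2 Cut.none Ext.none :=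
  certF0 (fam := false) (s1 := false) (s2 := false) (a := 0) (b := 2) (c := 2) (cn := .pp) (n1 := ndF2q0) (n2 := ndF1q2b) (pc := pcF2) (cut := Cut.none) (xt := Ext.none) (P1 := 0) (W1 := 536870912) (P2 := 1239849684) (W2 := 370763052) (P3 := 134217728) (W3 := 67108864)
    rfl k0_mm_022_b

noncomputable def f_mm_023 : ℕ → ℕ → ℕ → ℕ → Bool := onCell 0 536870912 1610612736 536870912 134217728 67108864
    (rowF 0 false false false .up 0 2 3 (qsf 0 536870912 1610612736 536870912 2) ndF2q0 ndF1q3 pcF2 Cut.none Ext.none)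

def k0_mm_023 : ∃ t, chk3 f_mm_023 t 1 1 1 = true :=
  ⟨(l 5), by decide +kernel⟩

theorem c_mm_023 : CertF 0 536870912 1610612736 536870912 134217728 67108864 false false false .up 0 2 3
    ndF2q0 ndF1q3 pcF2 Cut.none Ext.none :=
  certF0 (fam := false) (s1 := false) (s2 := false) (a := 0) (b := 2) (c := 3) (cn := .up) (n1 := ndF2q0) (n2 := ndF1q3) (pc := pcF2) (cut := Cut.none) (xt := Ext.none) (P1 := 0) (W1 := 536870912) (P2 := 1610612736) (W2 := 536870912) (P3 := 134217728) (W3 := 67108864)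
    rfl k0_mm_023

noncomputable def f_mm_033 : ℕ → ℕ → ℕ → ℕ → Bool := onCell 0 536870912 1610612736 536870912 134217728 67108864
    (rowF 0 false false false .pnn 0 3 3 (qsf 0 536870912 1610612736 536870912 3) ndF2q0 ndF1q3 pcF3 Cut.none Ext.none)

def k0_mm_033 : ∃ t, chk3 f_mm_033 t 1 1 1 = true :=
  ⟨(l 5), by decide +kernel⟩

theorem c_mm_033 : CertF 0 536870912 1610612736 536870912 134217728 67108864 false false false .pnn 0 3 3
    ndF2q0 ndF1q3 pcF3 Cut.none Ext.none :=
  certF0 (fam := false) (s1 := false) (s2 := false) (a := 0) (b := 3) (c := 3) (cn := .pnn) (n1 := ndF2q0) (n2 := ndF1q3) (pc := pcF3) (cut := Cut.none) (xt := Ext.none) (P1 := 0) (W1 := 536870912) (P2 := 1610612736) (W2 := 536870912) (P3 := 134217728) (W3 := 67108864)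
    rfl k0_mm_033

noncomputable def f_mm_101 : ℕ → ℕ → ℕ → ℕ → Bool := onCell 536870912 536870912 536870912 536870912 134217728 67108864
    (rowF 0 false false false .npn 1 0 1 (qsf 536870912 536870912 536870912 536870912 0) ndF2q1 ndF1q1 pcF0 Cut.none Ext.none)

def k0_mm_101 : ∃ t, chk3 f_mm_101 t 1 1 1 = true :=
  ⟨(l 3), by decide +kernel⟩

theorem c_mm_101 : CertF 536870912 536870912 536870912 536870912 134217728 67108864 false false false .npn 1 0 1
    ndF2q1 ndF1q1 pcF0 Cut.none Ext.none :=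
  certF0 (fam := false) (s1 := false) (s2 := false) (a := 1) (b := 0) (c := 1) (cn := .npn) (n1 := ndF2q1) (n2 := ndF1q1) (pc := pcF0) (cut := Cut.none) (xt := Ext.none) (P1 := 536870912) (W1 := 536870912) (P2 := 536870912) (W2 := 536870912) (P3 := 134217728) (W3 := 67108864)
    rfl k0_mm_101

noncomputable def f_mm_102_a : ℕ → ℕ → ℕ → ℕ → Bool := onCell 536870912 536870912 0 536870912 134217728 67108864
    (rowF 0 false false false .npp 1 0 2 (qsf 536870912 536870912 0 536870912 0) ndF2q1 ndF1q2a pcF0 Cut.none Ext.none)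

def k0_mm_102_a : ∃ t, chk3 f_mm_102_a t 1 1 1 = true :=
  ⟨(l 5), by decide +kernel⟩

theorem c_mm_102_a : CertF 536870912 536870912 0 536870912 134217728 67108864 false false false .npp 1 0 2
    ndF2q1 ndF1q2a pcF0 Cut.none Ext.none :=
  certF0 (fam := false) (s1 := false) (s2 := false) (a := 1) (b := 0) (c := 2) (cn := .npp) (n1 := ndF2q1) (n2 := ndF1q2a) (pc := pcF0) (cut := Cut.none) (xt := Ext.none) (P1 := 536870912) (W1 := 536870912) (P2 := 0) (W2 := 536870912) (P3 := 134217728) (W3 := 67108864)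
    rfl k0_mm_102_a

noncomputable def f_mm_102_b : ℕ → ℕ → ℕ → ℕ → Bool := onCell 536870912 536870912 1239849684 370763052 134217728 67108864
    (rowF 0 false false false .npp 1 0 2 (qsf 536870912 536870912 1239849684 370763052 0) ndF2q1 ndF1q2b pcF0 Cut.none Ext.none)

def k0_mm_102_b : ∃ t, chk3 f_mm_102_b t 1 1 1 = true :=
  ⟨(l 5), by decide +kernel⟩

theorem c_mm_102_b : CertF 536870912 536870912 1239849684 370763052 134217728 67108864 false false false .npp 1 0 2
    ndF2q1 ndF1q2b pcF0 Cut.none Ext.none :=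
  certF0 (fam := false) (s1 := false) (s2 := false) (a := 1) (b := 0) (c := 2) (cn := .npp) (n1 := ndF2q1) (n2 := ndF1q2b) (pc := pcF0) (cut := Cut.none) (xt := Ext.none) (P1 := 536870912) (W1 := 536870912) (P2 := 1239849684) (W2 := 370763052) (P3 := 134217728) (W3 := 67108864)
    rfl k0_mm_102_b

noncomputable def f_mm_112_a : ℕ → ℕ → ℕ → ℕ → Bool := onCell 536870912 536870912 0 536870912 134217728 67108864
    (rowF 0 false false false .dn 1 1 2 (qsf 536870912 536870912 0 536870912 1) ndF2q1 ndF1q2a pcF1 Cut.none Ext.none)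

def k0_mm_112_a : ∃ t, chk3 f_mm_112_a t 1 1 1 = true :=
  ⟨(l 5), by decide +kernel⟩

theorem c_mm_112_a : CertF 536870912 536870912 0 536870912 134217728 67108864 false false false .dn 1 1 2
    ndF2q1 ndF1q2a pcF1 Cut.none Ext.none :=
  certF0 (fam := false) (s1 := false) (s2 := false) (a := 1) (b := 1) (c := 2) (cn := .dn) (n1 := ndF2q1) (n2 := ndF1q2a) (pc := pcF1) (cut := Cut.none) (xt := Ext.none) (P1 := 536870912) (W1 := 536870912) (P2 := 0) (W2 := 536870912) (P3 := 134217728) (W3 := 67108864)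
    rfl k0_mm_112_a

noncomputable def f_mm_112_b : ℕ → ℕ → ℕ → ℕ → Bool := onCell 536870912 536870912 1239849684 370763052 134217728 67108864
    (rowF 0 false false false .dn 1 1 2 (qsf 536870912 536870912 1239849684 370763052 1) ndF2q1 ndF1q2b pcF1 Cut.none Ext.none)

def k0_mm_112_b : ∃ t, chk3 f_mm_112_b t 1 1 1 = true :=
  ⟨(l 5), by decide +kernel⟩

theorem c_mm_112_b : CertF 536870912 536870912 1239849684 370763052 134217728 67108864 false false false .dn 1 1 2
    ndF2q1 ndF1q2b pcF1 Cut.none Ext.none :=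
  certF0 (fam := false) (s1 := false) (s2 := false) (a := 1) (b := 1) (c := 2) (cn := .dn) (n1 := ndF2q1) (n2 := ndF1q2b) (pc := pcF1) (cut := Cut.none) (xt := Ext.none) (P1 := 536870912) (W1 := 536870912) (P2 := 1239849684) (W2 := 370763052) (P3 := 134217728) (W3 := 67108864)
    rfl k0_mm_112_b

noncomputable def f_mm_113 : ℕ → ℕ → ℕ → ℕ → Bool := onCell 536870912 536870912 1610612736 536870912 134217728 67108864
    (rowF 0 false false false .nn 1 1 3 (qsf 536870912 536870912 1610612736 536870912 1) ndF2q1 ndF1q3 pcF1 Cut.none Ext.none)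

def k0_mm_113 : ∃ t, chk3 f_mm_113 t 1 1 1 = true :=
  ⟨(l 5), by decide +kernel⟩

theorem c_mm_113 : CertF 536870912 536870912 1610612736 536870912 134217728 67108864 false false false .nn 1 1 3
    ndF2q1 ndF1q3 pcF1 Cut.none Ext.none :=
  certF0 (fam := false) (s1 := false) (s2 := false) (a := 1) (b := 1) (c := 3) (cn := .nn) (n1 := ndF2q1) (n2 := ndF1q3) (pc := pcF1) (cut := Cut.none) (xt := Ext.none) (P1 := 536870912) (W1 := 536870912) (P2 := 1610612736) (W2 := 536870912) (P3 := 134217728) (W3 := 67108864)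
    rfl k0_mm_113

noncomputable def f_mm_123 : ℕ → ℕ → ℕ → ℕ → Bool := onCell 536870912 536870912 1610612736 536870912 134217728 67108864
    (rowF 0 false false false .npn 1 2 3 (qsf 536870912 536870912 1610612736 536870912 2) ndF2q1 ndF1q3 pcF2 Cut.none Ext.none)

def k0_mm_123 : ∃ t, chk3 f_mm_123 t 1 1 1 = true :=
  ⟨(l 5), by decide +kernel⟩

theorem c_mm_123 : CertF 536870912 536870912 1610612736 536870912 134217728 67108864 false false false .npn 1 2 3
    ndF2q1 ndF1q3 pcF2 Cut.none Ext.none :=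
  certF0 (fam := false) (s1 := false) (s2 := false) (a := 1) (b := 2) (c := 3) (cn := .npn) (n1 := ndF2q1) (n2 := ndF1q3) (pc := pcF2) (cut := Cut.none) (xt := Ext.none) (P1 := 536870912) (W1 := 536870912) (P2 := 1610612736) (W2 := 536870912) (P3 := 134217728) (W3 := 67108864)
    rfl k0_mm_123

noncomputable def f_mm_133 : ℕ → ℕ → ℕ → ℕ → Bool := onCell 536870912 536870912 1610612736 536870912 134217728 67108864
    (rowF 0 false false false .dn 1 3 3 (qsf 536870912 536870912 1610612736 536870912 3) ndF2q1 ndF1q3 pcF3 Cut.none Ext.none)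

def k0_mm_133 : ∃ t, chk3 f_mm_133 t 1 1 1 = true :=
  ⟨(l 5), by decide +kernel⟩

theorem c_mm_133 : CertF 536870912 536870912 1610612736 536870912 134217728 67108864 false false false .dn 1 3 3
    ndF2q1 ndF1q3 pcF3 Cut.none Ext.none :=
  certF0 (fam := false) (s1 := false) (s2 := false) (a := 1) (b := 3) (c := 3) (cn := .dn) (n1 := ndF2q1) (n2 := ndF1q3) (pc := pcF3) (cut := Cut.none) (xt := Ext.none) (P1 := 536870912) (W1 := 536870912) (P2 := 1610612736) (W2 := 536870912) (P3 := 134217728) (W3 := 67108864)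
    rfl k0_mm_133

noncomputable def f_mm_202_aa : ℕ → ℕ → ℕ → ℕ → Bool := onCell 0 536870912 0 536870912 134217728 67108864
    (rowF 0 false false false .pp 2 0 2 (qsf 0 536870912 0 536870912 0) ndF2q2a ndF1q2a pcF0 Cut.none Ext.none)

def k0_mm_202_aa : ∃ t, chk3 f_mm_202_aa t 1 1 1 = true :=
  ⟨(l 3), by decide +kernel⟩

theorem c_mm_202_aa : CertF 0 536870912 0 536870912 134217728 67108864 false false false .pp 2 0 2
    ndF2q2a ndF1q2a pcF0 Cut.none Ext.none :=
  certF0 (fam := false) (s1 := false) (s2 := false) (a := 2) (b := 0) (c := 2) (cn := .pp) (n1 := ndF2q2a) (n2 := ndF1q2a) (pc := pcF0) (cut := Cut.none) (xt := Ext.none) (P1 := 0) (W1 := 536870912) (P2 := 0) (W2 := 536870912) (P3 := 134217728) (W3 := 67108864)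
    rfl k0_mm_202_aa

noncomputable def f_mm_202_ab : ℕ → ℕ → ℕ → ℕ → Bool := onCell 0 536870912 1239849684 370763052 134217728 67108864
    (rowF 0 false false false .pp 2 0 2 (qsf 0 536870912 1239849684 370763052 0) ndF2q2a ndF1q2b pcF0 Cut.none Ext.none)

def k0_mm_202_ab : ∃ t, chk3 f_mm_202_ab t 1 1 1 = true :=
  ⟨(l 3), by decide +kernel⟩

theorem c_mm_202_ab : CertF 0 536870912 1239849684 370763052 134217728 67108864 false false false .pp 2 0 2
    ndF2q2a ndF1q2b pcF0 Cut.none Ext.none :=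
  certF0 (fam := false) (s1 := false) (s2 := false) (a := 2) (b := 0) (c := 2) (cn := .pp) (n1 := ndF2q2a) (n2 := ndF1q2b) (pc := pcF0) (cut := Cut.none) (xt := Ext.none) (P1 := 0) (W1 := 536870912) (P2 := 1239849684) (W2 := 370763052) (P3 := 134217728) (W3 := 67108864)
    rfl k0_mm_202_ab

noncomputable def f_mm_202_ba : ℕ → ℕ → ℕ → ℕ → Bool := onCell 1239849684 370763052 0 536870912 134217728 67108864
    (rowF 0 false false false .pp 2 0 2 (qsf 1239849684 370763052 0 536870912 0) ndF2q2b ndF1q2a pcF0 Cut.none Ext.none)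

def k0_mm_202_ba : ∃ t, chk3 f_mm_202_ba t 1 1 1 = true :=
  ⟨(l 3), by decide +kernel⟩

theorem c_mm_202_ba : CertF 1239849684 370763052 0 536870912 134217728 67108864 false false false .pp 2 0 2
    ndF2q2b ndF1q2a pcF0 Cut.none Ext.none :=
  certF0 (fam := false) (s1 := false) (s2 := false) (a := 2) (b := 0) (c := 2) (cn := .pp) (n1 := ndF2q2b) (n2 := ndF1q2a) (pc := pcF0) (cut := Cut.none) (xt := Ext.none) (P1 := 1239849684) (W1 := 370763052) (P2 := 0) (W2 := 536870912) (P3 := 134217728) (W3 := 67108864)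
    rfl k0_mm_202_ba

noncomputable def f_mm_202_bb : ℕ → ℕ → ℕ → ℕ → Bool := onCell 1239849684 370763052 1239849684 370763052 134217728 67108864
    (rowF 0 false false false .pp 2 0 2 (qsf 1239849684 370763052 1239849684 370763052 0) ndF2q2b ndF1q2b pcF0 Cut.none Ext.none)

def k0_mm_202_bb : ∃ t, chk3 f_mm_202_bb t 1 1 1 = true :=
  ⟨(l 3), by decide +kernel⟩

theorem c_mm_202_bb : CertF 1239849684 370763052 1239849684 370763052 134217728 67108864 false false false .pp 2 0 2
    ndF2q2b ndF1q2b pcF0 Cut.none Ext.none :=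
  certF0 (fam := false) (s1 := false) (s2 := false) (a := 2) (b := 0) (c := 2) (cn := .pp) (n1 := ndF2q2b) (n2 := ndF1q2b) (pc := pcF0) (cut := Cut.none) (xt := Ext.none) (P1 := 1239849684) (W1 := 370763052) (P2 := 1239849684) (W2 := 370763052) (P3 := 134217728) (W3 := 67108864)
    rfl k0_mm_202_bb

noncomputable def f_mm_203_a : ℕ → ℕ → ℕ → ℕ → Bool := onCell 0 536870912 1610612736 536870912 134217728 67108864
    (rowF 0 false false false .up 2 0 3 (qsf 0 536870912 1610612736 536870912 0) ndF2q2a ndF1q3 pcF0 Cut.none Ext.none)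

def k0_mm_203_a : ∃ t, chk3 f_mm_203_a t 1 1 1 = true :=
  ⟨(l 5), by decide +kernel⟩

theorem c_mm_203_a : CertF 0 536870912 1610612736 536870912 134217728 67108864 false false false .up 2 0 3
    ndF2q2a ndF1q3 pcF0 Cut.none Ext.none :=
  certF0 (fam := false) (s1 := false) (s2 := false) (a := 2) (b := 0) (c := 3) (cn := .up) (n1 := ndF2q2a) (n2 := ndF1q3) (pc := pcF0) (cut := Cut.none) (xt := Ext.none) (P1 := 0) (W1 := 536870912) (P2 := 1610612736) (W2 := 536870912) (P3 := 134217728) (W3 := 67108864)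
    rfl k0_mm_203_a

noncomputable def f_mm_203_b : ℕ → ℕ → ℕ → ℕ → Bool := onCell 1239849684 370763052 1610612736 536870912 134217728 67108864
    (rowF 0 false false false .up 2 0 3 (qsf 1239849684 370763052 1610612736 536870912 0) ndF2q2b ndF1q3 pcF0 Cut.none Ext.none)

def k0_mm_203_b : ∃ t, chk3 f_mm_203_b t 1 1 1 = true :=
  ⟨(l 3), by decide +kernel⟩

theorem c_mm_203_b : CertF 1239849684 370763052 1610612736 536870912 134217728 67108864 false false false .up 2 0 3
    ndF2q2b ndF1q3 pcF0 Cut.none Ext.none :=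
  certF0 (fam := false) (s1 := false) (s2 := false) (a := 2) (b := 0) (c := 3) (cn := .up) (n1 := ndF2q2b) (n2 := ndF1q3) (pc := pcF0) (cut := Cut.none) (xt := Ext.none) (P1 := 1239849684) (W1 := 370763052) (P2 := 1610612736) (W2 := 536870912) (P3 := 134217728) (W3 := 67108864)
    rfl k0_mm_203_b

noncomputable def f_mm_213_a : ℕ → ℕ → ℕ → ℕ → Bool := onCell 0 536870912 1610612736 536870912 134217728 67108864
    (rowF 0 false false false .pnn 2 1 3 (qsf 0 536870912 1610612736 536870912 1) ndF2q2a ndF1q3 pcF1 Cut.none Ext.none)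

def k0_mm_213_a : ∃ t, chk3 f_mm_213_a t 1 1 1 = true :=
  ⟨(l 5), by decide +kernel⟩

theorem c_mm_213_a : CertF 0 536870912 1610612736 536870912 134217728 67108864 false false false .pnn 2 1 3
    ndF2q2a ndF1q3 pcF1 Cut.none Ext.none :=
  certF0 (fam := false) (s1 := false) (s2 := false) (a := 2) (b := 1) (c := 3) (cn := .pnn) (n1 := ndF2q2a) (n2 := ndF1q3) (pc := pcF1) (cut := Cut.none) (xt := Ext.none) (P1 := 0) (W1 := 536870912) (P2 := 1610612736) (W2 := 536870912) (P3 := 134217728) (W3 := 67108864)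
    rfl k0_mm_213_a

noncomputable def f_mm_213_b : ℕ → ℕ → ℕ → ℕ → Bool := onCell 1239849684 370763052 1610612736 536870912 134217728 67108864
    (rowF 0 false false false .pnn 2 1 3 (qsf 1239849684 370763052 1610612736 536870912 1) ndF2q2b ndF1q3 pcF1 Cut.none Ext.none)

def k0_mm_213_b : ∃ t, chk3 f_mm_213_b t 1 1 1 = true :=
  ⟨(l 3), by decide +kernel⟩

theorem c_mm_213_b : CertF 1239849684 370763052 1610612736 536870912 134217728 67108864 false false false .pnn 2 1 3
    ndF2q2b ndF1q3 pcF1 Cut.none Ext.none :=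
  certF0 (fam := false) (s1 := false) (s2 := false) (a := 2) (b := 1) (c := 3) (cn := .pnn) (n1 := ndF2q2b) (n2 := ndF1q3) (pc := pcF1) (cut := Cut.none) (xt := Ext.none) (P1 := 1239849684) (W1 := 370763052) (P2 := 1610612736) (W2 := 536870912) (P3 := 134217728) (W3 := 67108864)
    rfl k0_mm_213_b

noncomputable def f_mm_303 : ℕ → ℕ → ℕ → ℕ → Bool := onCell 1610612736 536870912 1610612736 536870912 134217728 67108864
    (rowF 0 false false false .npn 3 0 3 (qsf 1610612736 536870912 1610612736 536870912 0) ndF2q3 ndF1q3 pcF0 Cut.none Ext.none)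

def k0_mm_303 : ∃ t, chk3 f_mm_303 t 1 1 1 = true :=
  ⟨(l 3), by decide +kernel⟩

theorem c_mm_303 : CertF 1610612736 536870912 1610612736 536870912 134217728 67108864 false false false .npn 3 0 3
    ndF2q3 ndF1q3 pcF0 Cut.none Ext.none :=
  certF0 (fam := false) (s1 := false) (s2 := false) (a := 3) (b := 0) (c := 3) (cn := .npn) (n1 := ndF2q3) (n2 := ndF1q3) (pc := pcF0) (cut := Cut.none) (xt := Ext.none) (P1 := 1610612736) (W1 := 536870912) (P2 := 1610612736) (W2 := 536870912) (P3 := 134217728) (W3 := 67108864)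
    rfl k0_mm_303

noncomputable def f_mm_313 : ℕ → ℕ → ℕ → ℕ → Bool := onCell 1610612736 536870912 1610612736 536870912 134217728 67108864
    (rowF 0 false false false .dn 3 1 3 (qsf 1610612736 536870912 1610612736 536870912 1) ndF2q3 ndF1q3 pcF1 Cut.none Ext.none)

def k0_mm_313 : ∃ t, chk3 f_mm_313 t 1 1 1 = true :=
  ⟨(l 3), by decide +kernel⟩

theorem c_mm_313 : CertF 1610612736 536870912 1610612736 536870912 134217728 67108864 false false false .dn 3 1 3
    ndF2q3 ndF1q3 pcF1 Cut.none Ext.none :=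
  certF0 (fam := false) (s1 := false) (s2 := false) (a := 3) (b := 1) (c := 3) (cn := .dn) (n1 := ndF2q3) (n2 := ndF1q3) (pc := pcF1) (cut := Cut.none) (xt := Ext.none) (P1 := 1610612736) (W1 := 536870912) (P2 := 1610612736) (W2 := 536870912) (P3 := 134217728) (W3 := 67108864)
    rfl k0_mm_313

end Pool.Agent.Strip051.G.I1_8_3_16.Tab.C.FB21

namespace Pool.Agent.Strip051.G.I1_8_3_16.Tab.C.FB22

open Pool.Agent.Strip051.PB Pool.Agent.Strip051.PB.T
open Pool.Agent.Strip051.G.I1_8_3_16.Tab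

noncomputable def f_pp_001 : ℕ → ℕ → ℕ → ℕ → Bool := onCell 0 536870912 0 536870912 134217728 67108864
    (rowF 1 false true true .up 0 0 1 (qsf 0 536870912 536870912 536870912 0) ndF2q0 ndF2q1 pcF0 Cut.none Ext.none)

def k0_pp_001 : ∃ t, chk3 f_pp_001 t 1 1 1 = true :=
  ⟨(l 3), by decide +kernel⟩

theorem c_pp_001 : CertF 0 536870912 536870912 536870912 134217728 67108864 false true true .up 0 0 1
    ndF2q0 ndF2q1 pcF0 Cut.none Ext.none :=
  certF1 (fam := false) (s1 := true) (s2 := true) (a := 0) (b := 0) (c := 1) (cn := .up) (n1 := ndF2q0) (n2 := ndF2q1) (pc := pcF0) (cut := Cut.none) (xt := Ext.none) (P1 := 0) (W1 := 536870912) (P2 := 536870912) (W2 := 536870912) (P3 := 134217728) (W3 := 67108864)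
    rfl (fun _ => rfl) k0_pp_001

noncomputable def f_pp_011 : ℕ → ℕ → ℕ → ℕ → Bool := onCell 0 536870912 536870912 536870912 134217728 67108864
    (rowF 0 false true true .pnn 0 1 1 (qsf 0 536870912 536870912 536870912 1) ndF2q0 ndF2q1 pcF1 Cut.none Ext.none)

def k0_pp_011 : ∃ t, chk3 f_pp_011 t 1 1 1 = true :=
  ⟨(a (l 3) (l 3)), by decide +kernel⟩

theorem c_pp_011 : CertF 0 536870912 536870912 536870912 134217728 67108864 false true true .pnn 0 1 1
    ndF2q0 ndF2q1 pcF1 Cut.none Ext.none :=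
  certF0 (fam := false) (s1 := true) (s2 := true) (a := 0) (b := 1) (c := 1) (cn := .pnn) (n1 := ndF2q0) (n2 := ndF2q1) (pc := pcF1) (cut := Cut.none) (xt := Ext.none) (P1 := 0) (W1 := 536870912) (P2 := 536870912) (W2 := 536870912) (P3 := 134217728) (W3 := 67108864)
    rfl k0_pp_011

noncomputable def cut_pp_012_a : Cut := Cut.of [[⟨0, 0, 0, 67108864⟩, ⟨1, 1, 0, 67108864⟩, ⟨2, 1, 0, 67108864⟩]]

noncomputable def f_pp_012_a : ℕ → ℕ → ℕ → ℕ → Bool := onCell 536870912 536870912 0 536870912 134217728 67108864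
    (rowF 2 false true true .pnp 0 1 2 (qsf 0 536870912 0 536870912 1) ndF2q0 ndF2q2a pcF1 cut_pp_012_a Ext.none)

def k0_pp_012_a : ∃ t, chk3 f_pp_012_a t 1 1 1 = true :=
  ⟨(a (a (b (l 85464910631) (b (a (l 2) (l 17455264)) (a (l 3) (l 497311790231)))) (b (a (l 17236456) (l 17123504)) (b (l 17492104) (a (l 386179759735) (l 300817020247))))) (a (b (a (l 17017976) (l 16935984)) (b (a (l 17081320) (l 16973864)) (a (l 17372240) (l 286320996823)))) (b (a (l 16938848) (b (l 16818984) (l 16817224))) (b (a (l 16907104) (a (l 16851488) (c (l 16801072) (l 16797784)))) (b (a (l 16914008) (a (l 16858320) (a (l 16819280) (c (l 16792080) (l 16790088))))) (a (b (l 16934032) (l 17076440)) (b (a (l 16855448) (a (l 16821608) (l 6))) (a (l 16927944) (l 6))))))))), by decide +kernel⟩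

theorem c_pp_012_a : CertF 0 536870912 0 536870912 134217728 67108864 false true true .pnp 0 1 2
    ndF2q0 ndF2q2a pcF1 cut_pp_012_a Ext.none :=
  certF2 (fam := false) (s1 := true) (s2 := true) (a := 0) (b := 1) (c := 2) (cn := .pnp) (n1 := ndF2q0) (n2 := ndF2q2a) (pc := pcF1) (cut := cut_pp_012_a) (xt := Ext.none) (P1 := 0) (W1 := 536870912) (P2 := 0) (W2 := 536870912) (P3 := 134217728) (W3 := 67108864)
    rfl (fun _ => rfl) k0_pp_012_a

noncomputable def cut_pp_012_b : Cut := Cut.of [[⟨0, 0, 0, 67108864⟩, ⟨1, 1, 0, 67108864⟩, ⟨2, 1, 0, 67108864⟩]]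

noncomputable def f_pp_012_b : ℕ → ℕ → ℕ → ℕ → Bool := onCell 536870912 536870912 1239849684 370763052 134217728 67108864
    (rowF 2 false true true .pnp 0 1 2 (qsf 0 536870912 1239849684 370763052 1) ndF2q0 ndF2q2b pcF1 cut_pp_012_b Ext.none)

def k0_pp_012_b : ∃ t, chk3 f_pp_012_b t 1 1 1 = true :=
  ⟨(a (a (l 2) (b (b (l 17055432) (l 16946192)) (l 2))) (a (b (b (l 17047928) (l 17085416)) (l 17278768)) (b (b (a (l 17110464) (a (l 17126856) (l 17030664))) (l 17413848)) (a (l 17564656) (l 17763504))))), by decide +kernel⟩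

theorem c_pp_012_b : CertF 0 536870912 1239849684 370763052 134217728 67108864 false true true .pnp 0 1 2
    ndF2q0 ndF2q2b pcF1 cut_pp_012_b Ext.none :=
  certF2 (fam := false) (s1 := true) (s2 := true) (a := 0) (b := 1) (c := 2) (cn := .pnp) (n1 := ndF2q0) (n2 := ndF2q2b) (pc := pcF1) (cut := cut_pp_012_b) (xt := Ext.none) (P1 := 0) (W1 := 536870912) (P2 := 1239849684) (W2 := 370763052) (P3 := 134217728) (W3 := 67108864)
    rfl (fun _ => rfl) k0_pp_012_b

noncomputable def cut_pp_022_a : Cut := Cut.of [[⟨0, 0, 0, 67108864⟩, ⟨1, 1, 0, 67108864⟩, ⟨2, 1, 0, 67108864⟩]]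

noncomputable def f_pp_022_a : ℕ → ℕ → ℕ → ℕ → Bool := onCell 0 536870912 0 536870912 134217728 67108864
    (rowF 0 false true true .pp 0 2 2 (qsf 0 536870912 0 536870912 2) ndF2q0 ndF2q2a pcF2 cut_pp_022_a Ext.none)

def k0_pp_022_a : ∃ t, chk3 f_pp_022_a t 32 4 1 = true :=
  ⟨(b (a (a (a (c (b (c (a (a (b (b (c (l 17219864) (a (l 17017488) (l 17017256))) (l 17117112)) (l 17069920)) (l 17113624)) (l 17112200)) (a (a (b (a (a (a (b (b (c (l 16814912) (l 16548736)) (l 16587072)) (l 16554136)) (b (l 16692120) (l 16690416))) (l 16565224)) (l 16711808)) (b (l 16555744) (l 16576992))) (l 16560624)) (l 16706312))) (a (b (c (l 17099592) (b (l 16554168) (l 16582488))) (c (l 17081736) (l 16558400))) (c (l 17088312) (l 16679288)))) (b (a (b (c (a (a (a (a (b (c (l 16548056) (l 16544760)) (l 16546472)) (l 16546456)) (l 16546480)) (l 16546480)) (l 16546408)) (a (a (a (a (b (b (l 16550408) (l 16539944)) (l 16540008)) (l 16539960)) (l 16539952)) (l 16539896)) (l 16539776))) (b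 (c (a (l 16546560) (l 16546536)) (l 16550384)) (c (l 16546688) (l 16540176)))) (c (l 16546264) (l 16539592))) (a (c (b (a (l 16547272) (l 16547168)) (l 16548080)) (b (l 16540688) (l 16541696))) (c (l 16547280) (l 16540792))))) (c (b (c (l 17109184) (l 16703952)) (c (l 17085272) (l 16676920))) (b (l 16542320) (l 16543424)))) (c (b (l 16901256) (l 16875848)) (b (l 16541024) (l 16542176)))) (c (b (l 16890504) (l 16865344)) (l 16581032))) (a (a (b (c (a (c (b (l 16972576) (l 16878776)) (a (b (l 16559792) (l 16556232)) (l 16624232))) (c (l 17036656) (l 16621928))) (a (c (b (l 16554312) (l 16550616)) (b (l 16542784) (l 16544464))) (l 16545944))) (c (a (c (c (l 17070704) (b (l 16882000) (l 16834816))) (b (l 16564840) (l 16565888))) (c (l 16960552) (l 16558992))) (a (c (b (l 16552472) (l 16554656)) (b (l 16546488) (l 16548880))) (l 16549872)))) (c (b (l 16824184) (l 16743424)) (b (l 16544744) (l 16548768)))) (c (l 16626496) (l 16607944)))), by decide +kernel⟩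

def k1_pp_022_a : ∃ t, chk3 f_pp_022_a t 33 4 1 = true :=
  ⟨(b (a (l 16584472) (l 16580232)) (a (c (l 16761584) (l 16584200)) (l 16629448))), by decide +kernel⟩

def k2_pp_022_a : ∃ t, chk3 f_pp_022_a t 17 4 1 = true :=
  ⟨(a (b (l 16705768) (b (l 16626008) (l 16674928))) (b (c (l 16823168) (l 16699672)) (a (l 16665192) (l 16698696)))), by decide +kernel⟩

def k3_pp_022_a : ∃ t, chk3 f_pp_022_a t 9 4 1 = true :=
  ⟨(a (a (b (a (l 16620800) (l 16514224)) (a (b (l 16523368) (l 16556144)) (l 16528632))) (l 16535648)) (l 16569264)), by decide +kernel⟩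

def k4_pp_022_a : ∃ t, chk3 f_pp_022_a t 16 5 1 = true :=
  ⟨(b (a (a (c (b (a (a (a (c (b (c (l 16997656) (l 16779880)) (c (l 16936440) (l 16714528))) (b (l 16563096) (l 16565712))) (c (l 16687440) (l 16564144))) (c (l 16852480) (l 16563680))) (l 16628912)) (a (c (c (a (b (l 16864376) (l 16740200)) (l 16819880)) (b (l 16573488) (l 16580752))) (a (a (b (l 16568696) (l 16577304)) (l 16570240)) (l 16569848))) (l 16571712))) (a (b (a (c (b (l 16557192) (l 16560096)) (b (l 16551640) (l 16554800))) (l 16555288)) (a (c (b (l 16563392) (l 16577584)) (b (l 16558376) (l 16562392))) (l 16583328))) (b (l 16554328) (l 16561600)))) (c (b (l 16621040) (l 16570688)) (b (l 16552688) (l 16581496)))) (a (c (l 16651992) (l 16662056)) (a (l 16642704) (l 16641792)))) (a (a (a (c (a (a (b (c (b (c (l 16667008) (l 16579296)) (c (l 16585384) (l 16583240))) (b (c (l 16576984) (l 16574704)) (c (l 16581120) (l 16579024)))) (c (b (c (l 16589584) (l 16587640)) (c (l 16594280) (l 16592552)))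 (b (c (l 16585728) (l 16583832)) (c (l 16590848) (l 16589152))))) (b (c (l 16592960) (l 16588512)) (c (b (l 16588344) (l 16593168)) (b (l 16584504) (l 16589744))))) (b (c (l 16582208) (l 16577736)) (c (l 16591304) (l 16608608)))) (b (a (a (c (b (l 16571344) (l 16581176)) (b (l 16566968) (l 16571912))) (c (l 16594664) (l 16590456))) (b (l 16568424) (l 16573264))) (a (a (c (b (b (l 16579560) (l 16582216)) (b (l 16585008) (l 16587928))) (b (l 16582608) (b (l 16581640) (l 16584752)))) (b (l 16578920) (a (l 16584768) (l 16584648)))) (c (l 16605032) (l 16601544))))) (c (b (l 16600464) (l 16610344)) (b (l 16591760) (l 16603176)))) (b (c (l 16600216) (l 16591480)) (c (l 16632224) (l 16625016)))) (b (a (l 16615216) (l 16635208)) (a (a (l 16604496) (l 16624920)) (l 16692416))))), by decide +kernel⟩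

def k5_pp_022_a : ∃ t, chk3 f_pp_022_a t 17 5 1 = true :=
  ⟨(b (b (a (l 16726848) (a (l 16561480) (l 16584688))) (a (b (l 16667760) (l 16716464)) (a (l 16616776) (l 16666168)))) (a (b (a (l 16635544) (l 16651296)) (a (l 16730424) (l 16800480))) (b (a (l 16699880) (l 16567536)) (l 16585232)))), by decide +kernel⟩

def k6_pp_022_a : ∃ t, chk3 f_pp_022_a t 9 5 1 = true :=
  ⟨(a (l 16580632) (l 16624904)), by decide +kernel⟩

def k7_pp_022_a : ∃ t, chk3 f_pp_022_a t 5 2 1 = true :=
  ⟨(a (b (l 16646880) (a (l 16706616) (l 1))) (l 1)), by decide +kernel⟩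

def k8_pp_022_a : ∃ t, chk3 f_pp_022_a t 32 12 1 = true :=
  ⟨(a (b (a (a (c (a (b (c (c (l 16604760) (l 16603256)) (c (l 16607000) (l 16605512))) (c (c (b (l 16603512) (l 16606536)) (b (l 16602168) (l 16605312))) (c (b (l 16600840) (l 16604088)) (b (l 16599520) (l 16602872))))) (c (b (l 16598536) (l 16604504)) (b (l 16595544) (l 16601944)))) (a (b (c (b (l 16590992) (l 16594200)) (b (l 16588008) (l 16591416))) (c (b (l 16597552) (a (l 16601072) (l 16600968))) (b (l 16594960) (l 16598664)))) (c (b (l 16592608) (l 16599416)) (b (l 16589720) (l 16596920))))) (c (c (l 16623736) (l 16620912)) (c (l 16618128) (l 16625880)))) (c (a (l 16622048) (l 16621784)) (a (l 16616520) (l 16616296)))) (a (b (c (a (a (c (c (b (l 16609720) (l 16613072)) (b (l 16608608) (l 16612064))) (c (b (l 16607488) (l 16611056)) (b (l 16606384) (l 16610056)))) (c (l 16611112) (l 16608984))) (c (l 16611088) (l 16608968))) (a (a (a (c (b (c (l 16605280) (l 16604176)) (c (l 16609040) (l 16608040)))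 (b (l 16602528) (l 16609152))) (c (l 16606896) (l 16604784))) (c (l 16606864) (l 16604760))) (l 16605808))) (a (c (a (c (c (b (l 16616584) (l 16620288)) (b (l 16615688) (l 16619496))) (b (c (l 16614792) (l 16613888)) (c (l 16618704) (l 16617904)))) (c (l 16618432) (l 16616728))) (a (c (b (c (l 16612984) (l 16612080)) (c (l 16617104) (l 16616296))) (b (c (l 16611176) (l 16610264)) (b (l 16613824) (l 16616040)))) (c (l 16615016) (l 16613288)))) (c (c (l 16618536) (l 16616840)) (l 16624768)))) (c (c (l 16660584) (l 16669040)) (b (l 16606056) (l 16614872))))) (b (c (a (l 16622520) (l 16622376)) (b (l 16612256) (l 16620248))) (c (a (l 16678128) (l 16678440)) (b (l 16650136) (l 16657072))))), by decide +kernel⟩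

def k9_pp_022_a : ∃ t, chk3 f_pp_022_a t 33 12 1 = true :=
  ⟨(b (a (c (l 16705936) (l 16700856)) (a (l 16659056) (l 16681712))) (a (b (l 16671296) (l 16703968)) (l 16613152))), by decide +kernel⟩

def k10_pp_022_a : ∃ t, chk3 f_pp_022_a t 17 12 1 = true :=
  ⟨(a (b (a (a (l 16684712) (l 16595176)) (l 16599000)) (l 16620440)) (l 16621376)), by decide +kernel⟩

def k11_pp_022_a : ∃ t, chk3 f_pp_022_a t 32 26 1 = true :=
  ⟨(a (a (c (a (a (b (c (b (c (l 16626792) (l 16623480)) (a (c (l 16628184) (l 16627608)) (l 16627840))) (b (c (l 16622792) (l 16622096)) (a (c (l 16627016) (l 16626416)) (l 16626672)))) (c (a (b (c (a (l 16635032) (l 16632384)) (b (l 16630648) (l 16632856))) (c (b (l 16635488) (l 16638096)) (b (l 16635088) (l 16637720)))) (b (l 16632152) (l 16636808))) (a (b (c (l 16632776) (l 16632272)) (c (b (l 16634672) (l 16637336)) (b (l 16634240) (l 16636936)))) (b (l 16631176) (l 16636000))))) (c (b (l 16626520) (b (l 16631992) (l 16637032))) (b (l 16625224)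 (b (l 16631032) (l 16636208))))) (b (c (l 16626784) (l 16625496)) (c (l 16656584) (l 16655648)))) (a (a (b (c (b (c (l 16621392) (l 16620680)) (a (c (l 16625808) (l 16625192)) (l 16625464))) (b (b (l 16618288) (l 16620584)) (b (l 16622920) (l 16625304)))) (c (a (b (c (l 16630448) (l 16629920)) (c (b (l 16633800) (l 16636520)) (b (l 16633344) (l 16636088)))) (b (l 16630160) (l 16635136))) (a (b (c (l 16629384) (l 16628832)) (c (b (l 16632872) (l 16635648)) (b (l 16632392) (l 16635192)))) (b (l 16629088) (l 16634216))))) (b (c (l 16623904) (l 16622544)) (c (b (l 16630032) (l 16635336)) (b (l 16628976) (l 16634400))))) (b (l 16644488) (c (l 16654656) (l 16653632))))) (c (b (l 16646888) (l 16668264)) (b (l 16644344) (l 16676632)))) (b (c (l 16692256) (l 16689456)) (l 16635984))), by decide +kernel⟩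

def k12_pp_022_a : ∃ t, chk3 f_pp_022_a t 32 27 1 = true :=
  ⟨(a (a (c (a (a (c (b (c (c (b (l 16642520) (l 16648304)) (b (l 16642344) (l 16648152))) (a (b (l 16642008) (l 16648488)) (l 16645096))) (c (c (b (l 16654144) (l 16660032)) (b (l 16654008) (l 16659912))) (a (a (b (l 16653672) (l 16659096)) (l 16656744)) (l 16656872)))) (a (b (c (b (l 16641648) (l 16647504)) (b (l 16641272) (l 16647160))) (c (b (l 16653416) (l 16659384)) (b (l 16653112) (l 16659112)))) (b (l 16644568) (l 16656448)))) (c (b (l 16645504) (l 16657288)) (b (l 16644792) (l 16656712)))) (c (l 16652032) (l 16651352))) (a (a (a (b (c (c (b (l 16640880) (l 16646808)) (b (l 16640480) (l 16646432))) (c (l 16641104) (l 16642656))) (c (c (b (l 16652784) (l 16658824)) (l 16654192)) (c (l 16655168) (l 16654808)))) (c (b (l 16643808) (l 16655824)) (b (l 16642992) (l 16655144)))) (c (b (l 16644016) (l 16656072)) (b (l 16643184) (l 16655376)))) (c (l 16650608) (l 16649824)))) (c (l 16652848) (l 16651240)))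 (c (l 16655568) (l 16653664))), by decide +kernel⟩

def k13_pp_022_a : ∃ t, chk3 f_pp_022_a t 33 13 1 = true :=
  ⟨(b (l 16635568) (l 16661456)), by decide +kernel⟩

def k14_pp_022_a : ∃ t, chk3 f_pp_022_a t 17 13 1 = true :=
  ⟨(b (l 16632224) (l 16660776)), by decide +kernel⟩

def k15_pp_022_a : ∃ t, chk3 f_pp_022_a t 8 7 1 = true :=
  ⟨(b (a (a (a (b (a (a (c (a (b (a (c (c (b (c (l 16665864) (l 16665768)) (c (l 16671840) (l 16671768))) (b (l 16664960) (l 16671640))) (c (b (l 16665400) (l 16671464)) (b (l 16665160) (l 16671272)))) (c (c (l 16669048) (l 16668856)) (l 16668544))) (b (b (c (c (l 16676432) (l 16676304)) (c (l 16676152) (l 16675984))) (l 6)) (l 6))) (c (b (l 16669280) (l 16681688)) (b (l 16668856) (l 16681400)))) (a (b (c (c (a (l 16666368) (l 16668200)) (l 16666544)) (c (l 16667584) (l 16667304))) (b (b (c (l 16675704) (l 16675272)) (l 6)) (l 6))) (b (c (l 16668360) (l 16667808)) (c (l 16681048) (l 16680632))))) (c (c (l 16692072) (l 16696912)) (b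 (l 16668680) (l 16681568)))) (c (l 16698704) (l 16697608))) (l 6)) (b (b (l 16673784) (l 16687216)) (l 6))) (b (l 16688976) (l 6))) (b (l 16701920) (a (l 6) (b (l 16747408) (l 16765184))))) (a (l 6) (a (l 6) (l 1)))), by decide +kernel⟩

def k16_pp_022_a : ∃ t, chk3 f_pp_022_a t 9 3 1 = true :=
  ⟨(a (b (b (l 16647864) (l 16664816)) (b (b (l 142841314167) (l 1)) (l 1))) (b (b (l 16696552) (l 164316234135)) (l 1))), by decide +kernel⟩

def k17_pp_022_a : ∃ t, chk3 f_pp_022_a t 5 3 1 = true :=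
  ⟨(b (l 1) (l 1)), by decide +kernel⟩

def k18_pp_022_a : ∃ t, chk3 f_pp_022_a t 3 1 1 = true :=
  ⟨(l 1), by decide +kernel⟩

theorem s19_pp_022_a : ∃ t, chk3 f_pp_022_a t 32 13 1 = true := ex3_b k11_pp_022_a k12_pp_022_a

theorem s20_pp_022_a : ∃ t, chk3 f_pp_022_a t 16 13 1 = true := ex3_a s19_pp_022_a k13_pp_022_a

theorem s21_pp_022_a : ∃ t, chk3 f_pp_022_a t 8 13 1 = true := ex3_a s20_pp_022_a k14_pp_022_a

theorem s22_pp_022_a : ∃ t, chk3 f_pp_022_a t 16 12 1 = true := ex3_a k8_pp_022_a k9_pp_022_a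

theorem s23_pp_022_a : ∃ t, chk3 f_pp_022_a t 8 12 1 = true := ex3_a s22_pp_022_a k10_pp_022_a

theorem s24_pp_022_a : ∃ t, chk3 f_pp_022_a t 8 6 1 = true := ex3_b s23_pp_022_a s21_pp_022_a

theorem s25_pp_022_a : ∃ t, chk3 f_pp_022_a t 8 3 1 = true := ex3_b s24_pp_022_a k15_pp_022_a

theorem s26_pp_022_a : ∃ t, chk3 f_pp_022_a t 4 3 1 = true := ex3_a s25_pp_022_a k16_pp_022_a

theorem s27_pp_022_a : ∃ t, chk3 f_pp_022_a t 2 3 1 = true := ex3_a s26_pp_022_a k17_pp_022_a

theorem s28_pp_022_a : ∃ t, chk3 f_pp_022_a t 8 5 1 = true := ex3_a k4_pp_022_a k5_pp_022_a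

theorem s29_pp_022_a : ∃ t, chk3 f_pp_022_a t 4 5 1 = true := ex3_a s28_pp_022_a k6_pp_022_a

theorem s30_pp_022_a : ∃ t, chk3 f_pp_022_a t 16 4 1 = true := ex3_a k0_pp_022_a k1_pp_022_a

theorem s31_pp_022_a : ∃ t, chk3 f_pp_022_a t 8 4 1 = true := ex3_a s30_pp_022_a k2_pp_022_a

theorem s32_pp_022_a : ∃ t, chk3 f_pp_022_a t 4 4 1 = true := ex3_a s31_pp_022_a k3_pp_022_a

theorem s33_pp_022_a : ∃ t, chk3 f_pp_022_a t 4 2 1 = true := ex3_b s32_pp_022_a s29_pp_022_a

theorem s34_pp_022_a : ∃ t, chk3 f_pp_022_a t 2 2 1 = true := ex3_a s33_pp_022_a k7_pp_022_a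

theorem s35_pp_022_a : ∃ t, chk3 f_pp_022_a t 2 1 1 = true := ex3_b s34_pp_022_a s27_pp_022_a

theorem s36_pp_022_a : ∃ t, chk3 f_pp_022_a t 1 1 1 = true := ex3_a s35_pp_022_a k18_pp_022_a

theorem c_pp_022_a : CertF 0 536870912 0 536870912 134217728 67108864 false true true .pp 0 2 2
    ndF2q0 ndF2q2a pcF2 cut_pp_022_a Ext.none :=
  certF0 (fam := false) (s1 := true) (s2 := true) (a := 0) (b := 2) (c := 2) (cn := .pp) (n1 := ndF2q0) (n2 := ndF2q2a) (pc := pcF2) (cut := cut_pp_022_a) (xt := Ext.none) (P1 := 0) (W1 := 536870912) (P2 := 0) (W2 := 536870912) (P3 := 134217728) (W3 := 67108864)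
    rfl s36_pp_022_a

noncomputable def cut_pp_022_b : Cut := Cut.of [[⟨0, 0, 0, 67108864⟩, ⟨1, 1, 0, 67108864⟩, ⟨2, 1, 0, 67108864⟩]]

noncomputable def f_pp_022_b : ℕ → ℕ → ℕ → ℕ → Bool := onCell 0 536870912 1073741824 536870912 134217728 67108864
    (rowF 1 false true true .pp 0 2 2 (qsf 0 536870912 1239849684 370763052 2) ndF2q0 ndF2q2b pcF2 cut_pp_022_b Ext.none)

def k0_pp_022_b : ∃ t, chk3 f_pp_022_b t 4 4 1 = true :=
  ⟨(a (b (l 1) (b (b (l 1) (a (l 1) (l 409665971239))) (b (a (l 1) (l 398391624535)) (a (l 468184684327) (l 16645800))))) (b (b (l 330208937815) (l 337725043015)) (b (b (l 16657848) (b (l 16858808) (l 16980944))) (b (a (l 16927720) (l 17327552)) (l 17341968))))), by decide +kernel⟩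

def k1_pp_022_b : ∃ t, chk3 f_pp_022_b t 4 10 1 = true :=
  ⟨(b (b (a (a (a (l 447246724311) (l 16612304)) (l 16872640)) (l 17511272)) (a (a (a (b (c (l 484291262839) (l 438119819095)) (a (a (c (b (l 493418006007) (c (b (l 17064384) (b (b (b (l 17149352) (b (l 17152872) (l 17155176))) (l 17161248)) (l 17175896))) (b (l 456373397703) (a (b (b (b (l 16686248) (b (l 16669368) (c (l 16835752) (l 16592144)))) (l 16679048)) (l 16695904)) (l 16788280))))) (b (l 444025357431) (b (c (l 448320323639) (l 16548880)) (c (a (a (b (b (b (l 16546176) (b (l 16545872) (l 16550880))) (l 16545288)) (l 16544568)) (l 16564632)) (l 16541384)) (a (a (b (b (b (l 16539568) (b (l 16539312) (l 16539128))) (l 16538768)) (l 16537960)) (l 16557920)) (l 16534560)))))) (b (c (l 16939536) (l 16539008)) (c (b (l 17000576) (l 16851176)) (b (l 16535472) (l 16533232))))) (b (c (l 17048120) (l 16529376)) (c (b (l 17104088) (l 17140208)) (l 16566392))))) (b (l 16771552) (b (l 16885192) (c (l 17299800)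 (l 16610688))))) (b (l 17142360) (b (l 17226784) (l 17279920)))) (b (l 17623368) (a (l 17570216) (l 17797288))))) (a (a (a (a (c (b (a (c (b (l 17239792) (l 17398960)) (b (c (l 16971864) (l 16673968)) (l 16843768))) (l 16955648)) (c (l 17603400) (b (l 17181808) (l 17327552)))) (a (a (b (c (b (l 16550368) (l 16561424)) (b (l 16532680) (l 16524704))) (c (b (l 16701432) (l 16952096)) (b (l 16517520) (l 16613192)))) (b (l 16551224) (l 16532704))) (b (l 16525696) (l 16791712)))) (c (b (l 17294344) (l 17527936)) (l 16558224))) (c (l 17553840) (l 16929984))) (c (l 17768504) (l 17222544))) (l 17840304))), by decide +kernel⟩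

def k2_pp_022_b : ∃ t, chk3 f_pp_022_b t 4 11 1 = true :=
  ⟨(a (a (b (a (c (b (c (l 17834504) (l 17534592)) (l 17851544)) (a (b (a (c (l 17096368) (b (l 16775912) (l 16908768))) (l 17055064)) (c (l 17397112) (l 17026920))) (l 17112328))) (c (l 17889840) (l 17358512))) (a (c (l 17983952) (b (b (l 17351224) (l 17515952)) (l 17622040))) (c (l 18121888) (l 17663120)))) (b (l 17792888) (l 18005568))) (b (l 18027736) (l 18168704))), by decide +kernel⟩

def k3_pp_022_b : ∃ t, chk3 f_pp_022_b t 5 2 1 = true :=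
  ⟨(b (b (a (l 145526038503) (l 17571736)) (b (b (l 17687280) (l 18008936)) (b (l 17896992) (l 17985264)))) (b (b (b (l 18062528) (l 18133264)) (l 18215120)) (l 18341976))), by decide +kernel⟩

def k4_pp_022_b : ∃ t, chk3 f_pp_022_b t 2 3 1 = true :=
  ⟨(a (b (a (b (a (c (l 18329816) (a (l 17898176) (l 17965264))) (l 18226920)) (l 18363440)) (l 18415120)) (a (a (l 18521960) (l 18553232)) (l 18586624))) (b (l 18523992) (l 18609624))), by decide +kernel⟩

def k5_pp_022_b : ∃ t, chk3 f_pp_022_b t 3 1 1 = true :=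
  ⟨(b (b (b (l 18211112) (b (b (l 18329944) (l 18365776)) (l 18547936))) (b (b (a (l 18392472) (l 18509272)) (l 18505768)) (l 18546088))) (b (a (l 18585184) (l 2)) (l 2))), by decide +kernel⟩

theorem s6_pp_022_b : ∃ t, chk3 f_pp_022_b t 4 5 1 = true := ex3_b k1_pp_022_b k2_pp_022_b

theorem s7_pp_022_b : ∃ t, chk3 f_pp_022_b t 4 2 1 = true := ex3_b k0_pp_022_b s6_pp_022_b

theorem s8_pp_022_b : ∃ t, chk3 f_pp_022_b t 2 2 1 = true := ex3_a s7_pp_022_b k3_pp_022_b

theorem s9_pp_022_b : ∃ t, chk3 f_pp_022_b t 2 1 1 = true := ex3_b s8_pp_022_b k4_pp_022_b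

theorem s10_pp_022_b : ∃ t, chk3 f_pp_022_b t 1 1 1 = true := ex3_a s9_pp_022_b k5_pp_022_b

theorem c_pp_022_b : CertF 0 536870912 1239849684 370763052 134217728 67108864 false true true .pp 0 2 2
    ndF2q0 ndF2q2b pcF2 cut_pp_022_b Ext.none :=
  certF1 (fam := false) (s1 := true) (s2 := true) (a := 0) (b := 2) (c := 2) (cn := .pp) (n1 := ndF2q0) (n2 := ndF2q2b) (pc := pcF2) (cut := cut_pp_022_b) (xt := Ext.none) (P1 := 0) (W1 := 536870912) (P2 := 1239849684) (W2 := 370763052) (P3 := 134217728) (W3 := 67108864)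
    rfl (fun _ => rfl) s10_pp_022_b

noncomputable def f_pp_023 : ℕ → ℕ → ℕ → ℕ → Bool := onCell 1073741824 536870912 1610612736 536870912 134217728 67108864
    (rowF 2 false true true .up 0 2 3 (qsf 0 536870912 1610612736 536870912 2) ndF2q0 ndF2q3 pcF2 Cut.none Ext.none)

def k0_pp_023 : ∃ t, chk3 f_pp_023 t 1 1 1 = true :=
  ⟨(a (b (a (a (l 18688360) (a (a (l 18682304) (l 18677704)) (l 18666768))) (a (b (l 18605008) (l 18667792)) (l 18622928))) (a (l 2) (l 18586120))) (b (a (l 18574416) (b (l 18469040) (l 18525696))) (a (l 18464088) (l 18353192)))), by decide +kernel⟩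

theorem c_pp_023 : CertF 0 536870912 1610612736 536870912 134217728 67108864 false true true .up 0 2 3
    ndF2q0 ndF2q3 pcF2 Cut.none Ext.none :=
  certF2 (fam := false) (s1 := true) (s2 := true) (a := 0) (b := 2) (c := 3) (cn := .up) (n1 := ndF2q0) (n2 := ndF2q3) (pc := pcF2) (cut := Cut.none) (xt := Ext.none) (P1 := 0) (W1 := 536870912) (P2 := 1610612736) (W2 := 536870912) (P3 := 134217728) (W3 := 67108864)
    rfl (fun _ => rfl) k0_pp_023

noncomputable def f_pp_033 : ℕ → ℕ → ℕ → ℕ → Bool := onCell 0 536870912 1610612736 536870912 134217728 67108864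
    (rowF 0 false true true .pnn 0 3 3 (qsf 0 536870912 1610612736 536870912 3) ndF2q0 ndF2q3 pcF3 Cut.none Ext.none)

def k0_pp_033 : ∃ t, chk3 f_pp_033 t 1 1 1 = true :=
  ⟨(a (b (a (b (l 17998920) (b (l 17945280) (l 18013008))) (b (l 17999544) (b (l 17947528) (l 18057072)))) (b (a (a (b (l 18025728) (l 4)) (l 18189832)) (b (l 18149040) (l 17948832))) (l 4))) (b (a (b (l 1) (b (l 1) (l 18032312))) (l 1)) (b (a (b (l 18176248) (l 18319744)) (b (l 1) (l 18310896))) (a (l 4) (b (l 18525728) (l 4)))))), by decide +kernel⟩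

theorem c_pp_033 : CertF 0 536870912 1610612736 536870912 134217728 67108864 false true true .pnn 0 3 3
    ndF2q0 ndF2q3 pcF3 Cut.none Ext.none :=
  certF0 (fam := false) (s1 := true) (s2 := true) (a := 0) (b := 3) (c := 3) (cn := .pnn) (n1 := ndF2q0) (n2 := ndF2q3) (pc := pcF3) (cut := Cut.none) (xt := Ext.none) (P1 := 0) (W1 := 536870912) (P2 := 1610612736) (W2 := 536870912) (P3 := 134217728) (W3 := 67108864)
    rfl k0_pp_033

noncomputable def f_pp_101 : ℕ → ℕ → ℕ → ℕ → Bool := onCell 536870912 536870912 536870912 536870912 134217728 67108864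
    (rowF 0 false true true .npn 1 0 1 (qsf 536870912 536870912 536870912 536870912 0) ndF2q1 ndF2q1 pcF0 Cut.none Ext.none)

def k0_pp_101 : ∃ t, chk3 f_pp_101 t 1 1 1 = true :=
  ⟨(l 3), by decide +kernel⟩

theorem c_pp_101 : CertF 536870912 536870912 536870912 536870912 134217728 67108864 false true true .npn 1 0 1
    ndF2q1 ndF2q1 pcF0 Cut.none Ext.none :=
  certF0 (fam := false) (s1 := true) (s2 := true) (a := 1) (b := 0) (c := 1) (cn := .npn) (n1 := ndF2q1) (n2 := ndF2q1) (pc := pcF0) (cut := Cut.none) (xt := Ext.none) (P1 := 536870912) (W1 := 536870912) (P2 := 536870912) (W2 := 536870912) (P3 := 134217728) (W3 := 67108864)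
    rfl k0_pp_101

noncomputable def f_pp_102_a : ℕ → ℕ → ℕ → ℕ → Bool := onCell 0 536870912 0 536870912 134217728 67108864
    (rowF 2 false true true .npp 1 0 2 (qsf 536870912 536870912 0 536870912 0) ndF2q1 ndF2q2a pcF0 Cut.none Ext.none)

def k0_pp_102_a : ∃ t, chk3 f_pp_102_a t 1 1 1 = true :=
  ⟨(a (b (a (l 3) (l 3)) (l 3)) (a (b (a (b (a (l 3) (l 408728203239)) (l 3)) (b (l 17898792) (l 377590103367))) (l 3)) (b (a (b (l 17881712) (l 17840224)) (l 17820848)) (b (a (l 303501955847) (l 311555067479)) (l 3))))), by decide +kernel⟩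

theorem c_pp_102_a : CertF 536870912 536870912 0 536870912 134217728 67108864 false true true .npp 1 0 2
    ndF2q1 ndF2q2a pcF0 Cut.none Ext.none :=
  certF2 (fam := false) (s1 := true) (s2 := true) (a := 1) (b := 0) (c := 2) (cn := .npp) (n1 := ndF2q1) (n2 := ndF2q2a) (pc := pcF0) (cut := Cut.none) (xt := Ext.none) (P1 := 536870912) (W1 := 536870912) (P2 := 0) (W2 := 536870912) (P3 := 134217728) (W3 := 67108864)
    rfl (fun _ => rfl) k0_pp_102_a

noncomputable def f_pp_102_b : ℕ → ℕ → ℕ → ℕ → Bool := onCell 536870912 536870912 0 536870912 134217728 67108864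
    (rowF 1 false true true .npp 1 0 2 (qsf 536870912 536870912 1239849684 370763052 0) ndF2q1 ndF2q2b pcF0 Cut.none Ext.none)

def k0_pp_102_b : ∃ t, chk3 f_pp_102_b t 1 1 1 = true :=
  ⟨(b (a (l 1) (b (l 1) (a (l 1) (l 3)))) (b (a (l 1) (a (b (a (l 1) (b (l 3) (l 401211915063))) (a (l 285650791943) (l 113315422791))) (b (c (a (l 443088771831) (l 458658773335)) (b (a (l 361483138919) (l 388327253591)) (a (l 17892048) (l 18198176)))) (a (l 18333152) (l 18669136))))) (a (a (l 1) (b (l 297461898263) (l 243238452151))) (a (b (a (l 17996504) (l 18239296)) (l 18229040)) (b (l 18668976) (l 18744888)))))), by decide +kernel⟩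

theorem c_pp_102_b : CertF 536870912 536870912 1239849684 370763052 134217728 67108864 false true true .npp 1 0 2
    ndF2q1 ndF2q2b pcF0 Cut.none Ext.none :=
  certF1 (fam := false) (s1 := true) (s2 := true) (a := 1) (b := 0) (c := 2) (cn := .npp) (n1 := ndF2q1) (n2 := ndF2q2b) (pc := pcF0) (cut := Cut.none) (xt := Ext.none) (P1 := 536870912) (W1 := 536870912) (P2 := 1239849684) (W2 := 370763052) (P3 := 134217728) (W3 := 67108864)
    rfl (fun _ => rfl) k0_pp_102_b

noncomputable def f_pp_112_a : ℕ → ℕ → ℕ → ℕ → Bool := onCell 536870912 536870912 0 536870912 134217728 67108864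
    (rowF 2 false true true .dn 1 1 2 (qsf 536870912 536870912 0 536870912 1) ndF2q1 ndF2q2a pcF1 Cut.none Ext.none)

def k0_pp_112_a : ∃ t, chk3 f_pp_112_a t 1 1 1 = true :=
  ⟨(a (a (b (l 18039400) (a (b (l 17752536) (l 3)) (b (l 17760208) (l 335177115671)))) (b (l 17799216) (b (l 1) (l 1)))) (l 1)), by decide +kernel⟩

theorem c_pp_112_a : CertF 536870912 536870912 0 536870912 134217728 67108864 false true true .dn 1 1 2
    ndF2q1 ndF2q2a pcF1 Cut.none Ext.none :=
  certF2 (fam := false) (s1 := true) (s2 := true) (a := 1) (b := 1) (c := 2) (cn := .dn) (n1 := ndF2q1) (n2 := ndF2q2a) (pc := pcF1) (cut := Cut.none) (xt := Ext.none) (P1 := 536870912) (W1 := 536870912) (P2 := 0) (W2 := 536870912) (P3 := 134217728) (W3 := 67108864)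
    rfl (fun _ => rfl) k0_pp_112_a

noncomputable def f_pp_112_b : ℕ → ℕ → ℕ → ℕ → Bool := onCell 536870912 536870912 1239849684 370763052 134217728 67108864
    (rowF 2 false true true .dn 1 1 2 (qsf 536870912 536870912 1239849684 370763052 1) ndF2q1 ndF2q2b pcF1 Cut.none Ext.none)

def k0_pp_112_b : ∃ t, chk3 f_pp_112_b t 1 1 1 = true :=
  ⟨(a (a (b (b (l 17896904) (l 18064400)) (b (l 18249168) (l 18442744))) (b (l 18017840) (l 18020408))) (a (b (l 17990664) (l 17802456)) (l 494494078599))), by decide +kernel⟩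

theorem c_pp_112_b : CertF 536870912 536870912 1239849684 370763052 134217728 67108864 false true true .dn 1 1 2
    ndF2q1 ndF2q2b pcF1 Cut.none Ext.none :=
  certF2 (fam := false) (s1 := true) (s2 := true) (a := 1) (b := 1) (c := 2) (cn := .dn) (n1 := ndF2q1) (n2 := ndF2q2b) (pc := pcF1) (cut := Cut.none) (xt := Ext.none) (P1 := 536870912) (W1 := 536870912) (P2 := 1239849684) (W2 := 370763052) (P3 := 134217728) (W3 := 67108864)
    rfl (fun _ => rfl) k0_pp_112_b

noncomputable def f_pp_113 : ℕ → ℕ → ℕ → ℕ → Bool := onCell 536870912 536870912 536870912 536870912 134217728 67108864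
    (rowF 1 false true true .nn 1 1 3 (qsf 536870912 536870912 1610612736 536870912 1) ndF2q1 ndF2q3 pcF1 Cut.none Ext.none)

def k0_pp_113 : ∃ t, chk3 f_pp_113 t 1 1 1 = true :=
  ⟨(a (b (b (l 1) (l 475166499127)) (b (l 496641158503) (l 17580248))) (b (b (l 469798823287) (l 367792968423)) (b (a (l 17641072) (l 17751520)) (b (l 17415392) (l 17145152))))), by decide +kernel⟩

theorem c_pp_113 : CertF 536870912 536870912 1610612736 536870912 134217728 67108864 false true true .nn 1 1 3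
    ndF2q1 ndF2q3 pcF1 Cut.none Ext.none :=
  certF1 (fam := false) (s1 := true) (s2 := true) (a := 1) (b := 1) (c := 3) (cn := .nn) (n1 := ndF2q1) (n2 := ndF2q3) (pc := pcF1) (cut := Cut.none) (xt := Ext.none) (P1 := 536870912) (W1 := 536870912) (P2 := 1610612736) (W2 := 536870912) (P3 := 134217728) (W3 := 67108864)
    rfl (fun _ => rfl) k0_pp_113

noncomputable def f_pp_123 : ℕ → ℕ → ℕ → ℕ → Bool := onCell 1073741824 536870912 1610612736 536870912 134217728 67108864
    (rowF 2 false true true .npn 1 2 3 (qsf 536870912 536870912 1610612736 536870912 2) ndF2q1 ndF2q3 pcF2 Cut.none Ext.none)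

def k0_pp_123 : ∃ t, chk3 f_pp_123 t 1 1 1 = true :=
  ⟨(a (b (a (a (l 17762440) (a (l 542812486247) (l 17716960))) (a (l 534759300023) (l 17603568))) (a (l 17308896) (b (l 17477864) (l 17224224)))) (b (b (l 1) (l 17628592)) (a (l 17391072) (l 17167984)))), by decide +kernel⟩

theorem c_pp_123 : CertF 536870912 536870912 1610612736 536870912 134217728 67108864 false true true .npn 1 2 3
    ndF2q1 ndF2q3 pcF2 Cut.none Ext.none :=
  certF2 (fam := false) (s1 := true) (s2 := true) (a := 1) (b := 2) (c := 3) (cn := .npn) (n1 := ndF2q1) (n2 := ndF2q3) (pc := pcF2) (cut := Cut.none) (xt := Ext.none) (P1 := 536870912) (W1 := 536870912) (P2 := 1610612736) (W2 := 536870912) (P3 := 134217728) (W3 := 67108864)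
    rfl (fun _ => rfl) k0_pp_123

noncomputable def f_pp_133 : ℕ → ℕ → ℕ → ℕ → Bool := onCell 1610612736 536870912 1610612736 536870912 134217728 67108864
    (rowF 2 false true true .dn 1 3 3 (qsf 536870912 536870912 1610612736 536870912 3) ndF2q1 ndF2q3 pcF3 Cut.none Ext.none)

def k0_pp_133 : ∃ t, chk3 f_pp_133 t 1 1 1 = true :=
  ⟨(a (b (l 1) (a (b (l 1) (l 703872143239)) (l 1))) (l 1)), by decide +kernel⟩

theorem c_pp_133 : CertF 536870912 536870912 1610612736 536870912 134217728 67108864 false true true .dn 1 3 3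
    ndF2q1 ndF2q3 pcF3 Cut.none Ext.none :=
  certF2 (fam := false) (s1 := true) (s2 := true) (a := 1) (b := 3) (c := 3) (cn := .dn) (n1 := ndF2q1) (n2 := ndF2q3) (pc := pcF3) (cut := Cut.none) (xt := Ext.none) (P1 := 536870912) (W1 := 536870912) (P2 := 1610612736) (W2 := 536870912) (P3 := 134217728) (W3 := 67108864)
    rfl (fun _ => rfl) k0_pp_133

noncomputable def f_pp_202_aa : ℕ → ℕ → ℕ → ℕ → Bool := onCell 0 536870912 0 536870912 134217728 67108864
    (rowF 0 false true true .pp 2 0 2 (qsf 0 536870912 0 536870912 0) ndF2q2a ndF2q2a pcF0 Cut.none Ext.none)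

def k0_pp_202_aa : ∃ t, chk3 f_pp_202_aa t 1 1 1 = true :=
  ⟨(l 3), by decide +kernel⟩

theorem c_pp_202_aa : CertF 0 536870912 0 536870912 134217728 67108864 false true true .pp 2 0 2
    ndF2q2a ndF2q2a pcF0 Cut.none Ext.none :=
  certF0 (fam := false) (s1 := true) (s2 := true) (a := 2) (b := 0) (c := 2) (cn := .pp) (n1 := ndF2q2a) (n2 := ndF2q2a) (pc := pcF0) (cut := Cut.none) (xt := Ext.none) (P1 := 0) (W1 := 536870912) (P2 := 0) (W2 := 536870912) (P3 := 134217728) (W3 := 67108864)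
    rfl k0_pp_202_aa

noncomputable def f_pp_202_ab : ℕ → ℕ → ℕ → ℕ → Bool := onCell 0 536870912 1239849684 370763052 134217728 67108864
    (rowF 0 false true true .pp 2 0 2 (qsf 0 536870912 1239849684 370763052 0) ndF2q2a ndF2q2b pcF0 Cut.none Ext.none)

def k0_pp_202_ab : ∃ t, chk3 f_pp_202_ab t 1 1 1 = true :=
  ⟨(l 3), by decide +kernel⟩

theorem c_pp_202_ab : CertF 0 536870912 1239849684 370763052 134217728 67108864 false true true .pp 2 0 2
    ndF2q2a ndF2q2b pcF0 Cut.none Ext.none :=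
  certF0 (fam := false) (s1 := true) (s2 := true) (a := 2) (b := 0) (c := 2) (cn := .pp) (n1 := ndF2q2a) (n2 := ndF2q2b) (pc := pcF0) (cut := Cut.none) (xt := Ext.none) (P1 := 0) (W1 := 536870912) (P2 := 1239849684) (W2 := 370763052) (P3 := 134217728) (W3 := 67108864)
    rfl k0_pp_202_ab

noncomputable def f_pp_202_ba : ℕ → ℕ → ℕ → ℕ → Bool := onCell 1239849684 370763052 0 536870912 134217728 67108864
    (rowF 0 false true true .pp 2 0 2 (qsf 1239849684 370763052 0 536870912 0) ndF2q2b ndF2q2a pcF0 Cut.none Ext.none)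

def k0_pp_202_ba : ∃ t, chk3 f_pp_202_ba t 1 1 1 = true :=
  ⟨(l 3), by decide +kernel⟩

theorem c_pp_202_ba : CertF 1239849684 370763052 0 536870912 134217728 67108864 false true true .pp 2 0 2
    ndF2q2b ndF2q2a pcF0 Cut.none Ext.none :=
  certF0 (fam := false) (s1 := true) (s2 := true) (a := 2) (b := 0) (c := 2) (cn := .pp) (n1 := ndF2q2b) (n2 := ndF2q2a) (pc := pcF0) (cut := Cut.none) (xt := Ext.none) (P1 := 1239849684) (W1 := 370763052) (P2 := 0) (W2 := 536870912) (P3 := 134217728) (W3 := 67108864)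
    rfl k0_pp_202_ba

noncomputable def f_pp_202_bb : ℕ → ℕ → ℕ → ℕ → Bool := onCell 1239849684 370763052 1239849684 370763052 134217728 67108864
    (rowF 0 false true true .pp 2 0 2 (qsf 1239849684 370763052 1239849684 370763052 0) ndF2q2b ndF2q2b pcF0 Cut.none Ext.none)

def k0_pp_202_bb : ∃ t, chk3 f_pp_202_bb t 1 1 1 = true :=
  ⟨(l 3), by decide +kernel⟩

theorem c_pp_202_bb : CertF 1239849684 370763052 1239849684 370763052 134217728 67108864 false true true .pp 2 0 2
    ndF2q2b ndF2q2b pcF0 Cut.none Ext.none :=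
  certF0 (fam := false) (s1 := true) (s2 := true) (a := 2) (b := 0) (c := 2) (cn := .pp) (n1 := ndF2q2b) (n2 := ndF2q2b) (pc := pcF0) (cut := Cut.none) (xt := Ext.none) (P1 := 1239849684) (W1 := 370763052) (P2 := 1239849684) (W2 := 370763052) (P3 := 134217728) (W3 := 67108864)
    rfl k0_pp_202_bb

noncomputable def f_pp_203_a : ℕ → ℕ → ℕ → ℕ → Bool := onCell 0 536870912 0 536870912 134217728 67108864
    (rowF 1 false true true .up 2 0 3 (qsf 0 536870912 1610612736 536870912 0) ndF2q2a ndF2q3 pcF0 Cut.none Ext.none)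

def k0_pp_203_a : ∃ t, chk3 f_pp_203_a t 1 1 1 = true :=
  ⟨(l 3), by decide +kernel⟩

theorem c_pp_203_a : CertF 0 536870912 1610612736 536870912 134217728 67108864 false true true .up 2 0 3
    ndF2q2a ndF2q3 pcF0 Cut.none Ext.none :=
  certF1 (fam := false) (s1 := true) (s2 := true) (a := 2) (b := 0) (c := 3) (cn := .up) (n1 := ndF2q2a) (n2 := ndF2q3) (pc := pcF0) (cut := Cut.none) (xt := Ext.none) (P1 := 0) (W1 := 536870912) (P2 := 1610612736) (W2 := 536870912) (P3 := 134217728) (W3 := 67108864)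
    rfl (fun _ => rfl) k0_pp_203_a

noncomputable def f_pp_203_b : ℕ → ℕ → ℕ → ℕ → Bool := onCell 1239849684 370763052 1610612736 536870912 134217728 67108864
    (rowF 0 false true true .up 2 0 3 (qsf 1239849684 370763052 1610612736 536870912 0) ndF2q2b ndF2q3 pcF0 Cut.none Ext.none)

def k0_pp_203_b : ∃ t, chk3 f_pp_203_b t 1 1 1 = true :=
  ⟨(l 3), by decide +kernel⟩

theorem c_pp_203_b : CertF 1239849684 370763052 1610612736 536870912 134217728 67108864 false true true .up 2 0 3
    ndF2q2b ndF2q3 pcF0 Cut.none Ext.none :=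
  certF0 (fam := false) (s1 := true) (s2 := true) (a := 2) (b := 0) (c := 3) (cn := .up) (n1 := ndF2q2b) (n2 := ndF2q3) (pc := pcF0) (cut := Cut.none) (xt := Ext.none) (P1 := 1239849684) (W1 := 370763052) (P2 := 1610612736) (W2 := 536870912) (P3 := 134217728) (W3 := 67108864)
    rfl k0_pp_203_b

noncomputable def cut_pp_213_a : Cut := Cut.of [[⟨0, 1, 0, 39843005⟩, ⟨1, 1, 0, 39843005⟩, ⟨2, 2, 0, 5814905⟩]]

noncomputable def f_pp_213_a : ℕ → ℕ → ℕ → ℕ → Bool := onCell 0 536870912 1610612736 536870912 134217728 67108864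
    (rowF 0 false true true .pnn 2 1 3 (qsf 0 536870912 1610612736 536870912 1) ndF2q2a ndF2q3 pcF1 cut_pp_213_a Ext.none)

def k0_pp_213_a : ∃ t, chk3 f_pp_213_a t 1 1 1 = true :=
  ⟨(b (l 3) (b (l 3) (a (l 3) (a (l 3) (b (l 3) (b (l 3) (a (l 3) (b (l 3) (b (l 3) (a (l 3) (b (l 3) (l 6)))))))))))), by decide +kernel⟩

theorem c_pp_213_a : CertF 0 536870912 1610612736 536870912 134217728 67108864 false true true .pnn 2 1 3
    ndF2q2a ndF2q3 pcF1 cut_pp_213_a Ext.none :=
  certF0 (fam := false) (s1 := true) (s2 := true) (a := 2) (b := 1) (c := 3) (cn := .pnn) (n1 := ndF2q2a) (n2 := ndF2q3) (pc := pcF1) (cut := cut_pp_213_a) (xt := Ext.none) (P1 := 0) (W1 := 536870912) (P2 := 1610612736) (W2 := 536870912) (P3 := 134217728) (W3 := 67108864)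
    rfl k0_pp_213_a

noncomputable def cut_pp_213_b : Cut := Cut.of [[⟨0, 1, 0, 39843005⟩, ⟨1, 1, 0, 39843005⟩, ⟨2, 2, 0, 5814905⟩]]

noncomputable def f_pp_213_b : ℕ → ℕ → ℕ → ℕ → Bool := onCell 1239849684 370763052 1610612736 536870912 134217728 67108864
    (rowF 0 false true true .pnn 2 1 3 (qsf 1239849684 370763052 1610612736 536870912 1) ndF2q2b ndF2q3 pcF1 cut_pp_213_b Ext.none)

def k0_pp_213_b : ∃ t, chk3 f_pp_213_b t 1 1 1 = true :=
  ⟨(l 3), by decide +kernel⟩

theorem c_pp_213_b : CertF 1239849684 370763052 1610612736 536870912 134217728 67108864 false true true .pnn 2 1 3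
    ndF2q2b ndF2q3 pcF1 cut_pp_213_b Ext.none :=
  certF0 (fam := false) (s1 := true) (s2 := true) (a := 2) (b := 1) (c := 3) (cn := .pnn) (n1 := ndF2q2b) (n2 := ndF2q3) (pc := pcF1) (cut := cut_pp_213_b) (xt := Ext.none) (P1 := 1239849684) (W1 := 370763052) (P2 := 1610612736) (W2 := 536870912) (P3 := 134217728) (W3 := 67108864)
    rfl k0_pp_213_b

noncomputable def f_pp_303 : ℕ → ℕ → ℕ → ℕ → Bool := onCell 1610612736 536870912 1610612736 536870912 134217728 67108864
    (rowF 0 false true true .npn 3 0 3 (qsf 1610612736 536870912 1610612736 536870912 0) ndF2q3 ndF2q3 pcF0 Cut.none Ext.none)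

def k0_pp_303 : ∃ t, chk3 f_pp_303 t 1 1 1 = true :=
  ⟨(l 3), by decide +kernel⟩

theorem c_pp_303 : CertF 1610612736 536870912 1610612736 536870912 134217728 67108864 false true true .npn 3 0 3
    ndF2q3 ndF2q3 pcF0 Cut.none Ext.none :=
  certF0 (fam := false) (s1 := true) (s2 := true) (a := 3) (b := 0) (c := 3) (cn := .npn) (n1 := ndF2q3) (n2 := ndF2q3) (pc := pcF0) (cut := Cut.none) (xt := Ext.none) (P1 := 1610612736) (W1 := 536870912) (P2 := 1610612736) (W2 := 536870912) (P3 := 134217728) (W3 := 67108864)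
    rfl k0_pp_303

noncomputable def f_pp_313 : ℕ → ℕ → ℕ → ℕ → Bool := onCell 1610612736 536870912 1610612736 536870912 134217728 67108864
    (rowF 0 false true true .dn 3 1 3 (qsf 1610612736 536870912 1610612736 536870912 1) ndF2q3 ndF2q3 pcF1 Cut.none Ext.none)

def k0_pp_313 : ∃ t, chk3 f_pp_313 t 1 1 1 = true :=
  ⟨(l 3), by decide +kernel⟩

theorem c_pp_313 : CertF 1610612736 536870912 1610612736 536870912 134217728 67108864 false true true .dn 3 1 3
    ndF2q3 ndF2q3 pcF1 Cut.none Ext.none :=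
  certF0 (fam := false) (s1 := true) (s2 := true) (a := 3) (b := 1) (c := 3) (cn := .dn) (n1 := ndF2q3) (n2 := ndF2q3) (pc := pcF1) (cut := Cut.none) (xt := Ext.none) (P1 := 1610612736) (W1 := 536870912) (P2 := 1610612736) (W2 := 536870912) (P3 := 134217728) (W3 := 67108864)
    rfl k0_pp_313

noncomputable def f_pm_001 : ℕ → ℕ → ℕ → ℕ → Bool := onCell 0 536870912 536870912 536870912 134217728 67108864
    (rowF 0 false true false .up 0 0 1 (qsf 0 536870912 536870912 536870912 0) ndF2q0 ndF2q1 pcF0 Cut.none Ext.none)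

def k0_pm_001 : ∃ t, chk3 f_pm_001 t 1 1 1 = true :=
  ⟨(l 4), by decide +kernel⟩

theorem c_pm_001 : CertF 0 536870912 536870912 536870912 134217728 67108864 false true false .up 0 0 1
    ndF2q0 ndF2q1 pcF0 Cut.none Ext.none :=
  certF0 (fam := false) (s1 := true) (s2 := false) (a := 0) (b := 0) (c := 1) (cn := .up) (n1 := ndF2q0) (n2 := ndF2q1) (pc := pcF0) (cut := Cut.none) (xt := Ext.none) (P1 := 0) (W1 := 536870912) (P2 := 536870912) (W2 := 536870912) (P3 := 134217728) (W3 := 67108864)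
    rfl k0_pm_001

noncomputable def f_pm_011 : ℕ → ℕ → ℕ → ℕ → Bool := onCell 0 536870912 536870912 536870912 134217728 67108864
    (rowF 0 false true false .pnn 0 1 1 (qsf 0 536870912 536870912 536870912 1) ndF2q0 ndF2q1 pcF1 Cut.none Ext.none)

def k0_pm_011 : ∃ t, chk3 f_pm_011 t 1 1 1 = true :=
  ⟨(l 4), by decide +kernel⟩

theorem c_pm_011 : CertF 0 536870912 536870912 536870912 134217728 67108864 false true false .pnn 0 1 1
    ndF2q0 ndF2q1 pcF1 Cut.none Ext.none :=
  certF0 (fam := false) (s1 := true) (s2 := false) (a := 0) (b := 1) (c := 1) (cn := .pnn) (n1 := ndF2q0) (n2 := ndF2q1) (pc := pcF1) (cut := Cut.none) (xt := Ext.none) (P1 := 0) (W1 := 536870912) (P2 := 536870912) (W2 := 536870912) (P3 := 134217728) (W3 := 67108864)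
    rfl k0_pm_011

noncomputable def cut_pm_012_a : Cut := Cut.of [[⟨0, 0, 0, 67108864⟩, ⟨1, 1, 0, 67108864⟩, ⟨2, 1, 0, 67108864⟩]]

noncomputable def f_pm_012_a : ℕ → ℕ → ℕ → ℕ → Bool := onCell 0 536870912 0 536870912 134217728 67108864
    (rowF 0 false true false .pnp 0 1 2 (qsf 0 536870912 0 536870912 1) ndF2q0 ndF2q2a pcF1 cut_pm_012_a Ext.none)

def k0_pm_012_a : ∃ t, chk3 f_pm_012_a t 1 1 1 = true :=
  ⟨(a (b (l 4) (a (a (a (b (l 2) (b (l 2) (l 6))) (l 4)) (l 4)) (l 4))) (l 4)), by decide +kernel⟩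

theorem c_pm_012_a : CertF 0 536870912 0 536870912 134217728 67108864 false true false .pnp 0 1 2
    ndF2q0 ndF2q2a pcF1 cut_pm_012_a Ext.none :=
  certF0 (fam := false) (s1 := true) (s2 := false) (a := 0) (b := 1) (c := 2) (cn := .pnp) (n1 := ndF2q0) (n2 := ndF2q2a) (pc := pcF1) (cut := cut_pm_012_a) (xt := Ext.none) (P1 := 0) (W1 := 536870912) (P2 := 0) (W2 := 536870912) (P3 := 134217728) (W3 := 67108864)
    rfl k0_pm_012_a

noncomputable def cut_pm_012_b : Cut := Cut.of [[⟨0, 0, 0, 67108864⟩, ⟨1, 1, 0, 67108864⟩, ⟨2, 1, 0, 67108864⟩]]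

noncomputable def f_pm_012_b : ℕ → ℕ → ℕ → ℕ → Bool := onCell 536870912 536870912 1239849684 370763052 134217728 67108864
    (rowF 2 false true false .pnp 0 1 2 (qsf 0 536870912 1239849684 370763052 1) ndF2q0 ndF2q2b pcF1 cut_pm_012_b Ext.none)

def k0_pm_012_b : ∃ t, chk3 f_pm_012_b t 1 1 1 = true :=
  ⟨(l 4), by decide +kernel⟩

theorem c_pm_012_b : CertF 0 536870912 1239849684 370763052 134217728 67108864 false true false .pnp 0 1 2
    ndF2q0 ndF2q2b pcF1 cut_pm_012_b Ext.none :=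
  certF2 (fam := false) (s1 := true) (s2 := false) (a := 0) (b := 1) (c := 2) (cn := .pnp) (n1 := ndF2q0) (n2 := ndF2q2b) (pc := pcF1) (cut := cut_pm_012_b) (xt := Ext.none) (P1 := 0) (W1 := 536870912) (P2 := 1239849684) (W2 := 370763052) (P3 := 134217728) (W3 := 67108864)
    rfl (fun _ => rfl) k0_pm_012_b

noncomputable def cut_pm_022_a : Cut := Cut.of [[⟨0, 0, 0, 67108864⟩, ⟨1, 1, 0, 67108864⟩, ⟨2, 1, 0, 67108864⟩]]

noncomputable def f_pm_022_a : ℕ → ℕ → ℕ → ℕ → Bool := onCell 0 536870912 0 536870912 134217728 67108864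
    (rowF 0 false true false .pp 0 2 2 (qsf 0 536870912 0 536870912 2) ndF2q0 ndF2q2a pcF2 cut_pm_022_a Ext.none)

def k0_pm_022_a : ∃ t, chk3 f_pm_022_a t 1 1 1 = true :=
  ⟨(a (a (b (l 4) (a (a (b (l 4) (b (l 4) (l 6))) (l 4)) (l 4))) (l 4)) (l 1)), by decide +kernel⟩

theorem c_pm_022_a : CertF 0 536870912 0 536870912 134217728 67108864 false true false .pp 0 2 2
    ndF2q0 ndF2q2a pcF2 cut_pm_022_a Ext.none :=
  certF0 (fam := false) (s1 := true) (s2 := false) (a := 0) (b := 2) (c := 2) (cn := .pp) (n1 := ndF2q0) (n2 := ndF2q2a) (pc := pcF2) (cut := cut_pm_022_a) (xt := Ext.none) (P1 := 0) (W1 := 536870912) (P2 := 0) (W2 := 536870912) (P3 := 134217728) (W3 := 67108864)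
    rfl k0_pm_022_a

noncomputable def cut_pm_022_b : Cut := Cut.of [[⟨0, 0, 0, 67108864⟩, ⟨1, 1, 0, 67108864⟩, ⟨2, 1, 0, 67108864⟩]]

noncomputable def f_pm_022_b : ℕ → ℕ → ℕ → ℕ → Bool := onCell 0 536870912 1239849684 370763052 134217728 67108864
    (rowF 0 false true false .pp 0 2 2 (qsf 0 536870912 1239849684 370763052 2) ndF2q0 ndF2q2b pcF2 cut_pm_022_b Ext.none)

def k0_pm_022_b : ∃ t, chk3 f_pm_022_b t 1 1 1 = true :=
  ⟨(a (l 4) (l 4)), by decide +kernel⟩

theorem c_pm_022_b : CertF 0 536870912 1239849684 370763052 134217728 67108864 false true false .pp 0 2 2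
    ndF2q0 ndF2q2b pcF2 cut_pm_022_b Ext.none :=
  certF0 (fam := false) (s1 := true) (s2 := false) (a := 0) (b := 2) (c := 2) (cn := .pp) (n1 := ndF2q0) (n2 := ndF2q2b) (pc := pcF2) (cut := cut_pm_022_b) (xt := Ext.none) (P1 := 0) (W1 := 536870912) (P2 := 1239849684) (W2 := 370763052) (P3 := 134217728) (W3 := 67108864)
    rfl k0_pm_022_b

noncomputable def f_pm_023 : ℕ → ℕ → ℕ → ℕ → Bool := onCell 0 536870912 1610612736 536870912 134217728 67108864
    (rowF 0 false true false .up 0 2 3 (qsf 0 536870912 1610612736 536870912 2) ndF2q0 ndF2q3 pcF2 Cut.none Ext.none)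

def k0_pm_023 : ∃ t, chk3 f_pm_023 t 1 1 1 = true :=
  ⟨(l 4), by decide +kernel⟩

theorem c_pm_023 : CertF 0 536870912 1610612736 536870912 134217728 67108864 false true false .up 0 2 3
    ndF2q0 ndF2q3 pcF2 Cut.none Ext.none :=
  certF0 (fam := false) (s1 := true) (s2 := false) (a := 0) (b := 2) (c := 3) (cn := .up) (n1 := ndF2q0) (n2 := ndF2q3) (pc := pcF2) (cut := Cut.none) (xt := Ext.none) (P1 := 0) (W1 := 536870912) (P2 := 1610612736) (W2 := 536870912) (P3 := 134217728) (W3 := 67108864)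
    rfl k0_pm_023

noncomputable def f_pm_033 : ℕ → ℕ → ℕ → ℕ → Bool := onCell 0 536870912 1610612736 536870912 134217728 67108864
    (rowF 0 false true false .pnn 0 3 3 (qsf 0 536870912 1610612736 536870912 3) ndF2q0 ndF2q3 pcF3 Cut.none Ext.none)

def k0_pm_033 : ∃ t, chk3 f_pm_033 t 1 1 1 = true :=
  ⟨(l 4), by decide +kernel⟩

theorem c_pm_033 : CertF 0 536870912 1610612736 536870912 134217728 67108864 false true false .pnn 0 3 3
    ndF2q0 ndF2q3 pcF3 Cut.none Ext.none :=
  certF0 (fam := false) (s1 := true) (s2 := false) (a := 0) (b := 3) (c := 3) (cn := .pnn) (n1 := ndF2q0) (n2 := ndF2q3) (pc := pcF3) (cut := Cut.none) (xt := Ext.none) (P1 := 0) (W1 := 536870912) (P2 := 1610612736) (W2 := 536870912) (P3 := 134217728) (W3 := 67108864)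
    rfl k0_pm_033

noncomputable def f_pm_101 : ℕ → ℕ → ℕ → ℕ → Bool := onCell 536870912 536870912 536870912 536870912 134217728 67108864
    (rowF 0 false true false .npn 1 0 1 (qsf 536870912 536870912 536870912 536870912 0) ndF2q1 ndF2q1 pcF0 Cut.none Ext.none)

def k0_pm_101 : ∃ t, chk3 f_pm_101 t 1 1 1 = true :=
  ⟨(l 4), by decide +kernel⟩

theorem c_pm_101 : CertF 536870912 536870912 536870912 536870912 134217728 67108864 false true false .npn 1 0 1
    ndF2q1 ndF2q1 pcF0 Cut.none Ext.none :=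
  certF0 (fam := false) (s1 := true) (s2 := false) (a := 1) (b := 0) (c := 1) (cn := .npn) (n1 := ndF2q1) (n2 := ndF2q1) (pc := pcF0) (cut := Cut.none) (xt := Ext.none) (P1 := 536870912) (W1 := 536870912) (P2 := 536870912) (W2 := 536870912) (P3 := 134217728) (W3 := 67108864)
    rfl k0_pm_101

noncomputable def f_pm_102_a : ℕ → ℕ → ℕ → ℕ → Bool := onCell 536870912 536870912 0 536870912 134217728 67108864
    (rowF 0 false true false .npp 1 0 2 (qsf 536870912 536870912 0 536870912 0) ndF2q1 ndF2q2a pcF0 Cut.none Ext.none)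

def k0_pm_102_a : ∃ t, chk3 f_pm_102_a t 1 1 1 = true :=
  ⟨(l 4), by decide +kernel⟩

theorem c_pm_102_a : CertF 536870912 536870912 0 536870912 134217728 67108864 false true false .npp 1 0 2
    ndF2q1 ndF2q2a pcF0 Cut.none Ext.none :=
  certF0 (fam := false) (s1 := true) (s2 := false) (a := 1) (b := 0) (c := 2) (cn := .npp) (n1 := ndF2q1) (n2 := ndF2q2a) (pc := pcF0) (cut := Cut.none) (xt := Ext.none) (P1 := 536870912) (W1 := 536870912) (P2 := 0) (W2 := 536870912) (P3 := 134217728) (W3 := 67108864)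
    rfl k0_pm_102_a

noncomputable def f_pm_102_b : ℕ → ℕ → ℕ → ℕ → Bool := onCell 536870912 536870912 1239849684 370763052 134217728 67108864
    (rowF 0 false true false .npp 1 0 2 (qsf 536870912 536870912 1239849684 370763052 0) ndF2q1 ndF2q2b pcF0 Cut.none Ext.none)

def k0_pm_102_b : ∃ t, chk3 f_pm_102_b t 1 1 1 = true :=
  ⟨(l 4), by decide +kernel⟩

theorem c_pm_102_b : CertF 536870912 536870912 1239849684 370763052 134217728 67108864 false true false .npp 1 0 2
    ndF2q1 ndF2q2b pcF0 Cut.none Ext.none :=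
  certF0 (fam := false) (s1 := true) (s2 := false) (a := 1) (b := 0) (c := 2) (cn := .npp) (n1 := ndF2q1) (n2 := ndF2q2b) (pc := pcF0) (cut := Cut.none) (xt := Ext.none) (P1 := 536870912) (W1 := 536870912) (P2 := 1239849684) (W2 := 370763052) (P3 := 134217728) (W3 := 67108864)
    rfl k0_pm_102_b

noncomputable def f_pm_112_a : ℕ → ℕ → ℕ → ℕ → Bool := onCell 536870912 536870912 0 536870912 134217728 67108864
    (rowF 0 false true false .dn 1 1 2 (qsf 536870912 536870912 0 536870912 1) ndF2q1 ndF2q2a pcF1 Cut.none Ext.none)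

def k0_pm_112_a : ∃ t, chk3 f_pm_112_a t 1 1 1 = true :=
  ⟨(l 4), by decide +kernel⟩

theorem c_pm_112_a : CertF 536870912 536870912 0 536870912 134217728 67108864 false true false .dn 1 1 2
    ndF2q1 ndF2q2a pcF1 Cut.none Ext.none :=
  certF0 (fam := false) (s1 := true) (s2 := false) (a := 1) (b := 1) (c := 2) (cn := .dn) (n1 := ndF2q1) (n2 := ndF2q2a) (pc := pcF1) (cut := Cut.none) (xt := Ext.none) (P1 := 536870912) (W1 := 536870912) (P2 := 0) (W2 := 536870912) (P3 := 134217728) (W3 := 67108864)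
    rfl k0_pm_112_a

noncomputable def f_pm_112_b : ℕ → ℕ → ℕ → ℕ → Bool := onCell 536870912 536870912 1239849684 370763052 134217728 67108864
    (rowF 0 false true false .dn 1 1 2 (qsf 536870912 536870912 1239849684 370763052 1) ndF2q1 ndF2q2b pcF1 Cut.none Ext.none)

def k0_pm_112_b : ∃ t, chk3 f_pm_112_b t 1 1 1 = true :=
  ⟨(l 4), by decide +kernel⟩

theorem c_pm_112_b : CertF 536870912 536870912 1239849684 370763052 134217728 67108864 false true false .dn 1 1 2
    ndF2q1 ndF2q2b pcF1 Cut.none Ext.none :=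
  certF0 (fam := false) (s1 := true) (s2 := false) (a := 1) (b := 1) (c := 2) (cn := .dn) (n1 := ndF2q1) (n2 := ndF2q2b) (pc := pcF1) (cut := Cut.none) (xt := Ext.none) (P1 := 536870912) (W1 := 536870912) (P2 := 1239849684) (W2 := 370763052) (P3 := 134217728) (W3 := 67108864)
    rfl k0_pm_112_b

noncomputable def f_pm_113 : ℕ → ℕ → ℕ → ℕ → Bool := onCell 536870912 536870912 536870912 536870912 134217728 67108864
    (rowF 1 false true false .nn 1 1 3 (qsf 536870912 536870912 1610612736 536870912 1) ndF2q1 ndF2q3 pcF1 Cut.none Ext.none)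

def k0_pm_113 : ∃ t, chk3 f_pm_113 t 1 1 1 = true :=
  ⟨(b (l 4) (a (l 4) (b (l 17673504) (a (l 4) (b (l 17309976) (l 17143016)))))), by decide +kernel⟩

theorem c_pm_113 : CertF 536870912 536870912 1610612736 536870912 134217728 67108864 false true false .nn 1 1 3
    ndF2q1 ndF2q3 pcF1 Cut.none Ext.none :=
  certF1 (fam := false) (s1 := true) (s2 := false) (a := 1) (b := 1) (c := 3) (cn := .nn) (n1 := ndF2q1) (n2 := ndF2q3) (pc := pcF1) (cut := Cut.none) (xt := Ext.none) (P1 := 536870912) (W1 := 536870912) (P2 := 1610612736) (W2 := 536870912) (P3 := 134217728) (W3 := 67108864)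
    rfl (fun _ => rfl) k0_pm_113

noncomputable def f_pm_123 : ℕ → ℕ → ℕ → ℕ → Bool := onCell 1073741824 536870912 1610612736 536870912 134217728 67108864
    (rowF 2 false true false .npn 1 2 3 (qsf 536870912 536870912 1610612736 536870912 2) ndF2q1 ndF2q3 pcF2 Cut.none Ext.none)

def k0_pm_123 : ∃ t, chk3 f_pm_123 t 1 1 1 = true :=
  ⟨(b (l 4) (a (a (l 17443408) (l 17452464)) (l 4))), by decide +kernel⟩

theorem c_pm_123 : CertF 536870912 536870912 1610612736 536870912 134217728 67108864 false true false .npn 1 2 3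
    ndF2q1 ndF2q3 pcF2 Cut.none Ext.none :=
  certF2 (fam := false) (s1 := true) (s2 := false) (a := 1) (b := 2) (c := 3) (cn := .npn) (n1 := ndF2q1) (n2 := ndF2q3) (pc := pcF2) (cut := Cut.none) (xt := Ext.none) (P1 := 536870912) (W1 := 536870912) (P2 := 1610612736) (W2 := 536870912) (P3 := 134217728) (W3 := 67108864)
    rfl (fun _ => rfl) k0_pm_123

noncomputable def f_pm_133 : ℕ → ℕ → ℕ → ℕ → Bool := onCell 536870912 536870912 1610612736 536870912 134217728 67108864
    (rowF 0 false true false .dn 1 3 3 (qsf 536870912 536870912 1610612736 536870912 3) ndF2q1 ndF2q3 pcF3 Cut.none Ext.none)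

def k0_pm_133 : ∃ t, chk3 f_pm_133 t 1 1 1 = true :=
  ⟨(a (l 4) (l 1)), by decide +kernel⟩

theorem c_pm_133 : CertF 536870912 536870912 1610612736 536870912 134217728 67108864 false true false .dn 1 3 3
    ndF2q1 ndF2q3 pcF3 Cut.none Ext.none :=
  certF0 (fam := false) (s1 := true) (s2 := false) (a := 1) (b := 3) (c := 3) (cn := .dn) (n1 := ndF2q1) (n2 := ndF2q3) (pc := pcF3) (cut := Cut.none) (xt := Ext.none) (P1 := 536870912) (W1 := 536870912) (P2 := 1610612736) (W2 := 536870912) (P3 := 134217728) (W3 := 67108864)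
    rfl k0_pm_133

noncomputable def cut_pm_202_aa : Cut := Cut.of [[⟨0, 1, 0, 67108864⟩, ⟨1, 0, 0, 67108864⟩, ⟨2, 1, 0, 67108864⟩]]

noncomputable def f_pm_202_aa : ℕ → ℕ → ℕ → ℕ → Bool := onCell 0 536870912 0 536870912 134217728 67108864
    (rowF 0 false true false .pp 2 0 2 (qsf 0 536870912 0 536870912 0) ndF2q2a ndF2q2a pcF0 cut_pm_202_aa Ext.none)

def k0_pm_202_aa : ∃ t, chk3 f_pm_202_aa t 1 1 1 = true :=
  ⟨(b (l 3) (a (l 3) (a (l 3) (b (l 3) (a (l 3) (b (l 3) (l 6))))))), by decide +kernel⟩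

theorem c_pm_202_aa : CertF 0 536870912 0 536870912 134217728 67108864 false true false .pp 2 0 2
    ndF2q2a ndF2q2a pcF0 cut_pm_202_aa Ext.none :=
  certF0 (fam := false) (s1 := true) (s2 := false) (a := 2) (b := 0) (c := 2) (cn := .pp) (n1 := ndF2q2a) (n2 := ndF2q2a) (pc := pcF0) (cut := cut_pm_202_aa) (xt := Ext.none) (P1 := 0) (W1 := 536870912) (P2 := 0) (W2 := 536870912) (P3 := 134217728) (W3 := 67108864)
    rfl k0_pm_202_aa

noncomputable def cut_pm_202_ab : Cut := Cut.of [[⟨0, 1, 0, 67108864⟩, ⟨1, 0, 0, 67108864⟩, ⟨2, 1, 0, 67108864⟩]]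

noncomputable def f_pm_202_ab : ℕ → ℕ → ℕ → ℕ → Bool := onCell 0 536870912 1239849684 370763052 134217728 67108864
    (rowF 0 false true false .pp 2 0 2 (qsf 0 536870912 1239849684 370763052 0) ndF2q2a ndF2q2b pcF0 cut_pm_202_ab Ext.none)

def k0_pm_202_ab : ∃ t, chk3 f_pm_202_ab t 1 1 1 = true :=
  ⟨(b (l 3) (l 3)), by decide +kernel⟩

theorem c_pm_202_ab : CertF 0 536870912 1239849684 370763052 134217728 67108864 false true false .pp 2 0 2
    ndF2q2a ndF2q2b pcF0 cut_pm_202_ab Ext.none :=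
  certF0 (fam := false) (s1 := true) (s2 := false) (a := 2) (b := 0) (c := 2) (cn := .pp) (n1 := ndF2q2a) (n2 := ndF2q2b) (pc := pcF0) (cut := cut_pm_202_ab) (xt := Ext.none) (P1 := 0) (W1 := 536870912) (P2 := 1239849684) (W2 := 370763052) (P3 := 134217728) (W3 := 67108864)
    rfl k0_pm_202_ab

noncomputable def cut_pm_202_ba : Cut := Cut.of [[⟨0, 1, 0, 67108864⟩, ⟨1, 0, 0, 67108864⟩, ⟨2, 1, 0, 67108864⟩]]

noncomputable def f_pm_202_ba : ℕ → ℕ → ℕ → ℕ → Bool := onCell 1239849684 370763052 0 536870912 134217728 67108864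
    (rowF 0 false true false .pp 2 0 2 (qsf 1239849684 370763052 0 536870912 0) ndF2q2b ndF2q2a pcF0 cut_pm_202_ba Ext.none)

def k0_pm_202_ba : ∃ t, chk3 f_pm_202_ba t 1 1 1 = true :=
  ⟨(b (l 3) (l 1)), by decide +kernel⟩

theorem c_pm_202_ba : CertF 1239849684 370763052 0 536870912 134217728 67108864 false true false .pp 2 0 2
    ndF2q2b ndF2q2a pcF0 cut_pm_202_ba Ext.none :=
  certF0 (fam := false) (s1 := true) (s2 := false) (a := 2) (b := 0) (c := 2) (cn := .pp) (n1 := ndF2q2b) (n2 := ndF2q2a) (pc := pcF0) (cut := cut_pm_202_ba) (xt := Ext.none) (P1 := 1239849684) (W1 := 370763052) (P2 := 0) (W2 := 536870912) (P3 := 134217728) (W3 := 67108864)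
    rfl k0_pm_202_ba

noncomputable def cut_pm_202_bb : Cut := Cut.of [[⟨0, 1, 0, 67108864⟩, ⟨1, 0, 0, 67108864⟩, ⟨2, 1, 0, 67108864⟩]]

noncomputable def f_pm_202_bb : ℕ → ℕ → ℕ → ℕ → Bool := onCell 1239849684 370763052 1239849684 370763052 134217728 67108864
    (rowF 0 false true false .pp 2 0 2 (qsf 1239849684 370763052 1239849684 370763052 0) ndF2q2b ndF2q2b pcF0 cut_pm_202_bb Ext.none)

def k0_pm_202_bb : ∃ t, chk3 f_pm_202_bb t 1 1 1 = true :=
  ⟨(l 3), by decide +kernel⟩

theorem c_pm_202_bb : CertF 1239849684 370763052 1239849684 370763052 134217728 67108864 false true false .pp 2 0 2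
    ndF2q2b ndF2q2b pcF0 cut_pm_202_bb Ext.none :=
  certF0 (fam := false) (s1 := true) (s2 := false) (a := 2) (b := 0) (c := 2) (cn := .pp) (n1 := ndF2q2b) (n2 := ndF2q2b) (pc := pcF0) (cut := cut_pm_202_bb) (xt := Ext.none) (P1 := 1239849684) (W1 := 370763052) (P2 := 1239849684) (W2 := 370763052) (P3 := 134217728) (W3 := 67108864)
    rfl k0_pm_202_bb

noncomputable def f_pm_203_a : ℕ → ℕ → ℕ → ℕ → Bool := onCell 0 536870912 0 536870912 134217728 67108864
    (rowF 1 false true false .up 2 0 3 (qsf 0 536870912 1610612736 536870912 0) ndF2q2a ndF2q3 pcF0 Cut.none Ext.none)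

def k0_pm_203_a : ∃ t, chk3 f_pm_203_a t 1 1 1 = true :=
  ⟨(b (l 1) (l 3)), by decide +kernel⟩

theorem c_pm_203_a : CertF 0 536870912 1610612736 536870912 134217728 67108864 false true false .up 2 0 3
    ndF2q2a ndF2q3 pcF0 Cut.none Ext.none :=
  certF1 (fam := false) (s1 := true) (s2 := false) (a := 2) (b := 0) (c := 3) (cn := .up) (n1 := ndF2q2a) (n2 := ndF2q3) (pc := pcF0) (cut := Cut.none) (xt := Ext.none) (P1 := 0) (W1 := 536870912) (P2 := 1610612736) (W2 := 536870912) (P3 := 134217728) (W3 := 67108864)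
    rfl (fun _ => rfl) k0_pm_203_a

noncomputable def f_pm_203_b : ℕ → ℕ → ℕ → ℕ → Bool := onCell 1239849684 370763052 1610612736 536870912 134217728 67108864
    (rowF 0 false true false .up 2 0 3 (qsf 1239849684 370763052 1610612736 536870912 0) ndF2q2b ndF2q3 pcF0 Cut.none Ext.none)

def k0_pm_203_b : ∃ t, chk3 f_pm_203_b t 1 1 1 = true :=
  ⟨(b (l 3) (l 3)), by decide +kernel⟩

theorem c_pm_203_b : CertF 1239849684 370763052 1610612736 536870912 134217728 67108864 false true false .up 2 0 3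
    ndF2q2b ndF2q3 pcF0 Cut.none Ext.none :=
  certF0 (fam := false) (s1 := true) (s2 := false) (a := 2) (b := 0) (c := 3) (cn := .up) (n1 := ndF2q2b) (n2 := ndF2q3) (pc := pcF0) (cut := Cut.none) (xt := Ext.none) (P1 := 1239849684) (W1 := 370763052) (P2 := 1610612736) (W2 := 536870912) (P3 := 134217728) (W3 := 67108864)
    rfl k0_pm_203_b

noncomputable def cut_pm_213_a : Cut := Cut.of [[⟨0, 1, 0, 39843005⟩, ⟨1, 1, 0, 39843005⟩, ⟨2, 2, 0, 5814905⟩]]

noncomputable def f_pm_213_a : ℕ → ℕ → ℕ → ℕ → Bool := onCell 0 536870912 1610612736 536870912 134217728 67108864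
    (rowF 0 false true false .pnn 2 1 3 (qsf 0 536870912 1610612736 536870912 1) ndF2q2a ndF2q3 pcF1 cut_pm_213_a Ext.none)

def k0_pm_213_a : ∃ t, chk3 f_pm_213_a t 1 1 1 = true :=
  ⟨(a (l 3) (b (l 3) (a (l 3) (b (l 3) (b (l 3) (a (l 3) (b (l 3) (a (l 3) (b (l 3) (b (l 3) (b (l 3) (l 6)))))))))))), by decide +kernel⟩

theorem c_pm_213_a : CertF 0 536870912 1610612736 536870912 134217728 67108864 false true false .pnn 2 1 3
    ndF2q2a ndF2q3 pcF1 cut_pm_213_a Ext.none :=
  certF0 (fam := false) (s1 := true) (s2 := false) (a := 2) (b := 1) (c := 3) (cn := .pnn) (n1 := ndF2q2a) (n2 := ndF2q3) (pc := pcF1) (cut := cut_pm_213_a) (xt := Ext.none) (P1 := 0) (W1 := 536870912) (P2 := 1610612736) (W2 := 536870912) (P3 := 134217728) (W3 := 67108864)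
    rfl k0_pm_213_a

noncomputable def cut_pm_213_b : Cut := Cut.of [[⟨0, 1, 0, 39843005⟩, ⟨1, 1, 0, 39843005⟩, ⟨2, 2, 0, 5814905⟩]]

noncomputable def f_pm_213_b : ℕ → ℕ → ℕ → ℕ → Bool := onCell 1239849684 370763052 1610612736 536870912 134217728 67108864
    (rowF 0 false true false .pnn 2 1 3 (qsf 1239849684 370763052 1610612736 536870912 1) ndF2q2b ndF2q3 pcF1 cut_pm_213_b Ext.none)

def k0_pm_213_b : ∃ t, chk3 f_pm_213_b t 1 1 1 = true :=
  ⟨(b (l 3) (l 3)), by decide +kernel⟩

theorem c_pm_213_b : CertF 1239849684 370763052 1610612736 536870912 134217728 67108864 false true false .pnn 2 1 3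
    ndF2q2b ndF2q3 pcF1 cut_pm_213_b Ext.none :=
  certF0 (fam := false) (s1 := true) (s2 := false) (a := 2) (b := 1) (c := 3) (cn := .pnn) (n1 := ndF2q2b) (n2 := ndF2q3) (pc := pcF1) (cut := cut_pm_213_b) (xt := Ext.none) (P1 := 1239849684) (W1 := 370763052) (P2 := 1610612736) (W2 := 536870912) (P3 := 134217728) (W3 := 67108864)
    rfl k0_pm_213_b

noncomputable def f_pm_303 : ℕ → ℕ → ℕ → ℕ → Bool := onCell 1610612736 536870912 1610612736 536870912 134217728 67108864
    (rowF 0 false true false .npn 3 0 3 (qsf 1610612736 536870912 1610612736 536870912 0) ndF2q3 ndF2q3 pcF0 Cut.none Ext.none)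

def k0_pm_303 : ∃ t, chk3 f_pm_303 t 1 1 1 = true :=
  ⟨(l 3), by decide +kernel⟩

theorem c_pm_303 : CertF 1610612736 536870912 1610612736 536870912 134217728 67108864 false true false .npn 3 0 3
    ndF2q3 ndF2q3 pcF0 Cut.none Ext.none :=
  certF0 (fam := false) (s1 := true) (s2 := false) (a := 3) (b := 0) (c := 3) (cn := .npn) (n1 := ndF2q3) (n2 := ndF2q3) (pc := pcF0) (cut := Cut.none) (xt := Ext.none) (P1 := 1610612736) (W1 := 536870912) (P2 := 1610612736) (W2 := 536870912) (P3 := 134217728) (W3 := 67108864)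
    rfl k0_pm_303

noncomputable def f_pm_313 : ℕ → ℕ → ℕ → ℕ → Bool := onCell 1610612736 536870912 1610612736 536870912 134217728 67108864
    (rowF 0 false true false .dn 3 1 3 (qsf 1610612736 536870912 1610612736 536870912 1) ndF2q3 ndF2q3 pcF1 Cut.none Ext.none)

def k0_pm_313 : ∃ t, chk3 f_pm_313 t 1 1 1 = true :=
  ⟨(l 3), by decide +kernel⟩

theorem c_pm_313 : CertF 1610612736 536870912 1610612736 536870912 134217728 67108864 false true false .dn 3 1 3
    ndF2q3 ndF2q3 pcF1 Cut.none Ext.none :=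
  certF0 (fam := false) (s1 := true) (s2 := false) (a := 3) (b := 1) (c := 3) (cn := .dn) (n1 := ndF2q3) (n2 := ndF2q3) (pc := pcF1) (cut := Cut.none) (xt := Ext.none) (P1 := 1610612736) (W1 := 536870912) (P2 := 1610612736) (W2 := 536870912) (P3 := 134217728) (W3 := 67108864)
    rfl k0_pm_313

noncomputable def f_mm_001 : ℕ → ℕ → ℕ → ℕ → Bool := onCell 0 536870912 0 536870912 134217728 67108864
    (rowF 1 false false false .up 0 0 1 (qsf 0 536870912 536870912 536870912 0) ndF2q0 ndF2q1 pcF0 Cut.none Ext.none)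

def k0_mm_001 : ∃ t, chk3 f_mm_001 t 1 1 1 = true :=
  ⟨(l 3), by decide +kernel⟩

theorem c_mm_001 : CertF 0 536870912 536870912 536870912 134217728 67108864 false false false .up 0 0 1
    ndF2q0 ndF2q1 pcF0 Cut.none Ext.none :=
  certF1 (fam := false) (s1 := false) (s2 := false) (a := 0) (b := 0) (c := 1) (cn := .up) (n1 := ndF2q0) (n2 := ndF2q1) (pc := pcF0) (cut := Cut.none) (xt := Ext.none) (P1 := 0) (W1 := 536870912) (P2 := 536870912) (W2 := 536870912) (P3 := 134217728) (W3 := 67108864)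
    rfl (fun _ => rfl) k0_mm_001

noncomputable def f_mm_011 : ℕ → ℕ → ℕ → ℕ → Bool := onCell 0 536870912 536870912 536870912 134217728 67108864
    (rowF 1 false false false .pnn 0 1 1 (qsf 0 536870912 536870912 536870912 1) ndF2q0 ndF2q1 pcF1 Cut.none Ext.none)

def k0_mm_011 : ∃ t, chk3 f_mm_011 t 1 1 1 = true :=
  ⟨(l 5), by decide +kernel⟩

theorem c_mm_011 : CertF 0 536870912 536870912 536870912 134217728 67108864 false false false .pnn 0 1 1
    ndF2q0 ndF2q1 pcF1 Cut.none Ext.none :=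
  certF1 (fam := false) (s1 := false) (s2 := false) (a := 0) (b := 1) (c := 1) (cn := .pnn) (n1 := ndF2q0) (n2 := ndF2q1) (pc := pcF1) (cut := Cut.none) (xt := Ext.none) (P1 := 0) (W1 := 536870912) (P2 := 536870912) (W2 := 536870912) (P3 := 134217728) (W3 := 67108864)
    rfl (fun _ => rfl) k0_mm_011

noncomputable def f_mm_012_a : ℕ → ℕ → ℕ → ℕ → Bool := onCell 0 536870912 0 536870912 134217728 67108864
    (rowF 0 false false false .pnp 0 1 2 (qsf 0 536870912 0 536870912 1) ndF2q0 ndF2q2a pcF1 Cut.none Ext.none)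

def k0_mm_012_a : ∃ t, chk3 f_mm_012_a t 1 1 1 = true :=
  ⟨(l 5), by decide +kernel⟩

theorem c_mm_012_a : CertF 0 536870912 0 536870912 134217728 67108864 false false false .pnp 0 1 2
    ndF2q0 ndF2q2a pcF1 Cut.none Ext.none :=
  certF0 (fam := false) (s1 := false) (s2 := false) (a := 0) (b := 1) (c := 2) (cn := .pnp) (n1 := ndF2q0) (n2 := ndF2q2a) (pc := pcF1) (cut := Cut.none) (xt := Ext.none) (P1 := 0) (W1 := 536870912) (P2 := 0) (W2 := 536870912) (P3 := 134217728) (W3 := 67108864)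
    rfl k0_mm_012_a

noncomputable def f_mm_012_b : ℕ → ℕ → ℕ → ℕ → Bool := onCell 0 536870912 1239849684 370763052 134217728 67108864
    (rowF 0 false false false .pnp 0 1 2 (qsf 0 536870912 1239849684 370763052 1) ndF2q0 ndF2q2b pcF1 Cut.none Ext.none)

def k0_mm_012_b : ∃ t, chk3 f_mm_012_b t 1 1 1 = true :=
  ⟨(l 5), by decide +kernel⟩

theorem c_mm_012_b : CertF 0 536870912 1239849684 370763052 134217728 67108864 false false false .pnp 0 1 2
    ndF2q0 ndF2q2b pcF1 Cut.none Ext.none :=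
  certF0 (fam := false) (s1 := false) (s2 := false) (a := 0) (b := 1) (c := 2) (cn := .pnp) (n1 := ndF2q0) (n2 := ndF2q2b) (pc := pcF1) (cut := Cut.none) (xt := Ext.none) (P1 := 0) (W1 := 536870912) (P2 := 1239849684) (W2 := 370763052) (P3 := 134217728) (W3 := 67108864)
    rfl k0_mm_012_b

noncomputable def f_mm_022_a : ℕ → ℕ → ℕ → ℕ → Bool := onCell 0 536870912 0 536870912 134217728 67108864
    (rowF 0 false false false .pp 0 2 2 (qsf 0 536870912 0 536870912 2) ndF2q0 ndF2q2a pcF2 Cut.none Ext.none)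

def k0_mm_022_a : ∃ t, chk3 f_mm_022_a t 1 1 1 = true :=
  ⟨(l 5), by decide +kernel⟩

theorem c_mm_022_a : CertF 0 536870912 0 536870912 134217728 67108864 false false false .pp 0 2 2
    ndF2q0 ndF2q2a pcF2 Cut.none Ext.none :=
  certF0 (fam := false) (s1 := false) (s2 := false) (a := 0) (b := 2) (c := 2) (cn := .pp) (n1 := ndF2q0) (n2 := ndF2q2a) (pc := pcF2) (cut := Cut.none) (xt := Ext.none) (P1 := 0) (W1 := 536870912) (P2 := 0) (W2 := 536870912) (P3 := 134217728) (W3 := 67108864)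
    rfl k0_mm_022_a

noncomputable def f_mm_022_b : ℕ → ℕ → ℕ → ℕ → Bool := onCell 0 536870912 1239849684 370763052 134217728 67108864
    (rowF 0 false false false .pp 0 2 2 (qsf 0 536870912 1239849684 370763052 2) ndF2q0 ndF2q2b pcF2 Cut.none Ext.none)

def k0_mm_022_b : ∃ t, chk3 f_mm_022_b t 1 1 1 = true :=
  ⟨(l 5), by decide +kernel⟩

theorem c_mm_022_b : CertF 0 536870912 1239849684 370763052 134217728 67108864 false false false .pp 0 2 2
    ndF2q0 ndF2q2b pcF2 Cut.none Ext.none :=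
  certF0 (fam := false) (s1 := false) (s2 := false) (a := 0) (b := 2) (c := 2) (cn := .pp) (n1 := ndF2q0) (n2 := ndF2q2b) (pc := pcF2) (cut := Cut.none) (xt := Ext.none) (P1 := 0) (W1 := 536870912) (P2 := 1239849684) (W2 := 370763052) (P3 := 134217728) (W3 := 67108864)
    rfl k0_mm_022_b

noncomputable def f_mm_023 : ℕ → ℕ → ℕ → ℕ → Bool := onCell 0 536870912 1610612736 536870912 134217728 67108864
    (rowF 0 false false false .up 0 2 3 (qsf 0 536870912 1610612736 536870912 2) ndF2q0 ndF2q3 pcF2 Cut.none Ext.none)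

def k0_mm_023 : ∃ t, chk3 f_mm_023 t 1 1 1 = true :=
  ⟨(l 5), by decide +kernel⟩

theorem c_mm_023 : CertF 0 536870912 1610612736 536870912 134217728 67108864 false false false .up 0 2 3
    ndF2q0 ndF2q3 pcF2 Cut.none Ext.none :=
  certF0 (fam := false) (s1 := false) (s2 := false) (a := 0) (b := 2) (c := 3) (cn := .up) (n1 := ndF2q0) (n2 := ndF2q3) (pc := pcF2) (cut := Cut.none) (xt := Ext.none) (P1 := 0) (W1 := 536870912) (P2 := 1610612736) (W2 := 536870912) (P3 := 134217728) (W3 := 67108864)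
    rfl k0_mm_023

noncomputable def f_mm_033 : ℕ → ℕ → ℕ → ℕ → Bool := onCell 0 536870912 1610612736 536870912 134217728 67108864
    (rowF 0 false false false .pnn 0 3 3 (qsf 0 536870912 1610612736 536870912 3) ndF2q0 ndF2q3 pcF3 Cut.none Ext.none)

def k0_mm_033 : ∃ t, chk3 f_mm_033 t 1 1 1 = true :=
  ⟨(l 5), by decide +kernel⟩

theorem c_mm_033 : CertF 0 536870912 1610612736 536870912 134217728 67108864 false false false .pnn 0 3 3
    ndF2q0 ndF2q3 pcF3 Cut.none Ext.none :=
  certF0 (fam := false) (s1 := false) (s2 := false) (a := 0) (b := 3) (c := 3) (cn := .pnn) (n1 := ndF2q0) (n2 := ndF2q3) (pc := pcF3) (cut := Cut.none) (xt := Ext.none) (P1 := 0) (W1 := 536870912) (P2 := 1610612736) (W2 := 536870912) (P3 := 134217728) (W3 := 67108864)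
    rfl k0_mm_033

noncomputable def f_mm_101 : ℕ → ℕ → ℕ → ℕ → Bool := onCell 536870912 536870912 536870912 536870912 134217728 67108864
    (rowF 0 false false false .npn 1 0 1 (qsf 536870912 536870912 536870912 536870912 0) ndF2q1 ndF2q1 pcF0 Cut.none Ext.none)

def k0_mm_101 : ∃ t, chk3 f_mm_101 t 1 1 1 = true :=
  ⟨(l 3), by decide +kernel⟩

theorem c_mm_101 : CertF 536870912 536870912 536870912 536870912 134217728 67108864 false false false .npn 1 0 1
    ndF2q1 ndF2q1 pcF0 Cut.none Ext.none :=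
  certF0 (fam := false) (s1 := false) (s2 := false) (a := 1) (b := 0) (c := 1) (cn := .npn) (n1 := ndF2q1) (n2 := ndF2q1) (pc := pcF0) (cut := Cut.none) (xt := Ext.none) (P1 := 536870912) (W1 := 536870912) (P2 := 536870912) (W2 := 536870912) (P3 := 134217728) (W3 := 67108864)
    rfl k0_mm_101

noncomputable def f_mm_102_a : ℕ → ℕ → ℕ → ℕ → Bool := onCell 536870912 536870912 0 536870912 134217728 67108864
    (rowF 0 false false false .npp 1 0 2 (qsf 536870912 536870912 0 536870912 0) ndF2q1 ndF2q2a pcF0 Cut.none Ext.none)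

def k0_mm_102_a : ∃ t, chk3 f_mm_102_a t 1 1 1 = true :=
  ⟨(l 5), by decide +kernel⟩

theorem c_mm_102_a : CertF 536870912 536870912 0 536870912 134217728 67108864 false false false .npp 1 0 2
    ndF2q1 ndF2q2a pcF0 Cut.none Ext.none :=
  certF0 (fam := false) (s1 := false) (s2 := false) (a := 1) (b := 0) (c := 2) (cn := .npp) (n1 := ndF2q1) (n2 := ndF2q2a) (pc := pcF0) (cut := Cut.none) (xt := Ext.none) (P1 := 536870912) (W1 := 536870912) (P2 := 0) (W2 := 536870912) (P3 := 134217728) (W3 := 67108864)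
    rfl k0_mm_102_a

noncomputable def f_mm_102_b : ℕ → ℕ → ℕ → ℕ → Bool := onCell 536870912 536870912 1239849684 370763052 134217728 67108864
    (rowF 0 false false false .npp 1 0 2 (qsf 536870912 536870912 1239849684 370763052 0) ndF2q1 ndF2q2b pcF0 Cut.none Ext.none)

def k0_mm_102_b : ∃ t, chk3 f_mm_102_b t 1 1 1 = true :=
  ⟨(l 5), by decide +kernel⟩

theorem c_mm_102_b : CertF 536870912 536870912 1239849684 370763052 134217728 67108864 false false false .npp 1 0 2
    ndF2q1 ndF2q2b pcF0 Cut.none Ext.none :=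
  certF0 (fam := false) (s1 := false) (s2 := false) (a := 1) (b := 0) (c := 2) (cn := .npp) (n1 := ndF2q1) (n2 := ndF2q2b) (pc := pcF0) (cut := Cut.none) (xt := Ext.none) (P1 := 536870912) (W1 := 536870912) (P2 := 1239849684) (W2 := 370763052) (P3 := 134217728) (W3 := 67108864)
    rfl k0_mm_102_b

noncomputable def f_mm_112_a : ℕ → ℕ → ℕ → ℕ → Bool := onCell 536870912 536870912 0 536870912 134217728 67108864
    (rowF 0 false false false .dn 1 1 2 (qsf 536870912 536870912 0 536870912 1) ndF2q1 ndF2q2a pcF1 Cut.none Ext.none)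

def k0_mm_112_a : ∃ t, chk3 f_mm_112_a t 1 1 1 = true :=
  ⟨(l 5), by decide +kernel⟩

theorem c_mm_112_a : CertF 536870912 536870912 0 536870912 134217728 67108864 false false false .dn 1 1 2
    ndF2q1 ndF2q2a pcF1 Cut.none Ext.none :=
  certF0 (fam := false) (s1 := false) (s2 := false) (a := 1) (b := 1) (c := 2) (cn := .dn) (n1 := ndF2q1) (n2 := ndF2q2a) (pc := pcF1) (cut := Cut.none) (xt := Ext.none) (P1 := 536870912) (W1 := 536870912) (P2 := 0) (W2 := 536870912) (P3 := 134217728) (W3 := 67108864)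
    rfl k0_mm_112_a

noncomputable def f_mm_112_b : ℕ → ℕ → ℕ → ℕ → Bool := onCell 536870912 536870912 1239849684 370763052 134217728 67108864
    (rowF 0 false false false .dn 1 1 2 (qsf 536870912 536870912 1239849684 370763052 1) ndF2q1 ndF2q2b pcF1 Cut.none Ext.none)

def k0_mm_112_b : ∃ t, chk3 f_mm_112_b t 1 1 1 = true :=
  ⟨(l 5), by decide +kernel⟩

theorem c_mm_112_b : CertF 536870912 536870912 1239849684 370763052 134217728 67108864 false false false .dn 1 1 2
    ndF2q1 ndF2q2b pcF1 Cut.none Ext.none :=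
  certF0 (fam := false) (s1 := false) (s2 := false) (a := 1) (b := 1) (c := 2) (cn := .dn) (n1 := ndF2q1) (n2 := ndF2q2b) (pc := pcF1) (cut := Cut.none) (xt := Ext.none) (P1 := 536870912) (W1 := 536870912) (P2 := 1239849684) (W2 := 370763052) (P3 := 134217728) (W3 := 67108864)
    rfl k0_mm_112_b

noncomputable def f_mm_113 : ℕ → ℕ → ℕ → ℕ → Bool := onCell 536870912 536870912 1610612736 536870912 134217728 67108864
    (rowF 0 false false false .nn 1 1 3 (qsf 536870912 536870912 1610612736 536870912 1) ndF2q1 ndF2q3 pcF1 Cut.none Ext.none)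

def k0_mm_113 : ∃ t, chk3 f_mm_113 t 1 1 1 = true :=
  ⟨(l 5), by decide +kernel⟩

theorem c_mm_113 : CertF 536870912 536870912 1610612736 536870912 134217728 67108864 false false false .nn 1 1 3
    ndF2q1 ndF2q3 pcF1 Cut.none Ext.none :=
  certF0 (fam := false) (s1 := false) (s2 := false) (a := 1) (b := 1) (c := 3) (cn := .nn) (n1 := ndF2q1) (n2 := ndF2q3) (pc := pcF1) (cut := Cut.none) (xt := Ext.none) (P1 := 536870912) (W1 := 536870912) (P2 := 1610612736) (W2 := 536870912) (P3 := 134217728) (W3 := 67108864)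
    rfl k0_mm_113

noncomputable def f_mm_123 : ℕ → ℕ → ℕ → ℕ → Bool := onCell 536870912 536870912 1610612736 536870912 134217728 67108864
    (rowF 0 false false false .npn 1 2 3 (qsf 536870912 536870912 1610612736 536870912 2) ndF2q1 ndF2q3 pcF2 Cut.none Ext.none)

def k0_mm_123 : ∃ t, chk3 f_mm_123 t 1 1 1 = true :=
  ⟨(l 5), by decide +kernel⟩

theorem c_mm_123 : CertF 536870912 536870912 1610612736 536870912 134217728 67108864 false false false .npn 1 2 3
    ndF2q1 ndF2q3 pcF2 Cut.none Ext.none :=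
  certF0 (fam := false) (s1 := false) (s2 := false) (a := 1) (b := 2) (c := 3) (cn := .npn) (n1 := ndF2q1) (n2 := ndF2q3) (pc := pcF2) (cut := Cut.none) (xt := Ext.none) (P1 := 536870912) (W1 := 536870912) (P2 := 1610612736) (W2 := 536870912) (P3 := 134217728) (W3 := 67108864)
    rfl k0_mm_123

noncomputable def f_mm_133 : ℕ → ℕ → ℕ → ℕ → Bool := onCell 536870912 536870912 1610612736 536870912 134217728 67108864
    (rowF 0 false false false .dn 1 3 3 (qsf 536870912 536870912 1610612736 536870912 3) ndF2q1 ndF2q3 pcF3 Cut.none Ext.none)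

def k0_mm_133 : ∃ t, chk3 f_mm_133 t 1 1 1 = true :=
  ⟨(l 5), by decide +kernel⟩

theorem c_mm_133 : CertF 536870912 536870912 1610612736 536870912 134217728 67108864 false false false .dn 1 3 3
    ndF2q1 ndF2q3 pcF3 Cut.none Ext.none :=
  certF0 (fam := false) (s1 := false) (s2 := false) (a := 1) (b := 3) (c := 3) (cn := .dn) (n1 := ndF2q1) (n2 := ndF2q3) (pc := pcF3) (cut := Cut.none) (xt := Ext.none) (P1 := 536870912) (W1 := 536870912) (P2 := 1610612736) (W2 := 536870912) (P3 := 134217728) (W3 := 67108864)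
    rfl k0_mm_133

noncomputable def f_mm_202_aa : ℕ → ℕ → ℕ → ℕ → Bool := onCell 0 536870912 0 536870912 134217728 67108864
    (rowF 0 false false false .pp 2 0 2 (qsf 0 536870912 0 536870912 0) ndF2q2a ndF2q2a pcF0 Cut.none Ext.none)

def k0_mm_202_aa : ∃ t, chk3 f_mm_202_aa t 1 1 1 = true :=
  ⟨(l 3), by decide +kernel⟩

theorem c_mm_202_aa : CertF 0 536870912 0 536870912 134217728 67108864 false false false .pp 2 0 2
    ndF2q2a ndF2q2a pcF0 Cut.none Ext.none :=
  certF0 (fam := false) (s1 := false) (s2 := false) (a := 2) (b := 0) (c := 2) (cn := .pp) (n1 := ndF2q2a) (n2 := ndF2q2a) (pc := pcF0) (cut := Cut.none) (xt := Ext.none) (P1 := 0) (W1 := 536870912) (P2 := 0) (W2 := 536870912) (P3 := 134217728) (W3 := 67108864)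
    rfl k0_mm_202_aa

noncomputable def f_mm_202_ab : ℕ → ℕ → ℕ → ℕ → Bool := onCell 0 536870912 1239849684 370763052 134217728 67108864
    (rowF 0 false false false .pp 2 0 2 (qsf 0 536870912 1239849684 370763052 0) ndF2q2a ndF2q2b pcF0 Cut.none Ext.none)

def k0_mm_202_ab : ∃ t, chk3 f_mm_202_ab t 1 1 1 = true :=
  ⟨(l 3), by decide +kernel⟩

theorem c_mm_202_ab : CertF 0 536870912 1239849684 370763052 134217728 67108864 false false false .pp 2 0 2
    ndF2q2a ndF2q2b pcF0 Cut.none Ext.none :=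
  certF0 (fam := false) (s1 := false) (s2 := false) (a := 2) (b := 0) (c := 2) (cn := .pp) (n1 := ndF2q2a) (n2 := ndF2q2b) (pc := pcF0) (cut := Cut.none) (xt := Ext.none) (P1 := 0) (W1 := 536870912) (P2 := 1239849684) (W2 := 370763052) (P3 := 134217728) (W3 := 67108864)
    rfl k0_mm_202_ab

noncomputable def f_mm_202_ba : ℕ → ℕ → ℕ → ℕ → Bool := onCell 1239849684 370763052 0 536870912 134217728 67108864
    (rowF 0 false false false .pp 2 0 2 (qsf 1239849684 370763052 0 536870912 0) ndF2q2b ndF2q2a pcF0 Cut.none Ext.none)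

def k0_mm_202_ba : ∃ t, chk3 f_mm_202_ba t 1 1 1 = true :=
  ⟨(l 3), by decide +kernel⟩

theorem c_mm_202_ba : CertF 1239849684 370763052 0 536870912 134217728 67108864 false false false .pp 2 0 2
    ndF2q2b ndF2q2a pcF0 Cut.none Ext.none :=
  certF0 (fam := false) (s1 := false) (s2 := false) (a := 2) (b := 0) (c := 2) (cn := .pp) (n1 := ndF2q2b) (n2 := ndF2q2a) (pc := pcF0) (cut := Cut.none) (xt := Ext.none) (P1 := 1239849684) (W1 := 370763052) (P2 := 0) (W2 := 536870912) (P3 := 134217728) (W3 := 67108864)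
    rfl k0_mm_202_ba

noncomputable def f_mm_202_bb : ℕ → ℕ → ℕ → ℕ → Bool := onCell 1239849684 370763052 1239849684 370763052 134217728 67108864
    (rowF 0 false false false .pp 2 0 2 (qsf 1239849684 370763052 1239849684 370763052 0) ndF2q2b ndF2q2b pcF0 Cut.none Ext.none)

def k0_mm_202_bb : ∃ t, chk3 f_mm_202_bb t 1 1 1 = true :=
  ⟨(l 3), by decide +kernel⟩

theorem c_mm_202_bb : CertF 1239849684 370763052 1239849684 370763052 134217728 67108864 false false false .pp 2 0 2
    ndF2q2b ndF2q2b pcF0 Cut.none Ext.none :=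
  certF0 (fam := false) (s1 := false) (s2 := false) (a := 2) (b := 0) (c := 2) (cn := .pp) (n1 := ndF2q2b) (n2 := ndF2q2b) (pc := pcF0) (cut := Cut.none) (xt := Ext.none) (P1 := 1239849684) (W1 := 370763052) (P2 := 1239849684) (W2 := 370763052) (P3 := 134217728) (W3 := 67108864)
    rfl k0_mm_202_bb

noncomputable def f_mm_203_a : ℕ → ℕ → ℕ → ℕ → Bool := onCell 0 536870912 1610612736 536870912 134217728 67108864
    (rowF 0 false false false .up 2 0 3 (qsf 0 536870912 1610612736 536870912 0) ndF2q2a ndF2q3 pcF0 Cut.none Ext.none)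

def k0_mm_203_a : ∃ t, chk3 f_mm_203_a t 1 1 1 = true :=
  ⟨(l 5), by decide +kernel⟩

theorem c_mm_203_a : CertF 0 536870912 1610612736 536870912 134217728 67108864 false false false .up 2 0 3
    ndF2q2a ndF2q3 pcF0 Cut.none Ext.none :=
  certF0 (fam := false) (s1 := false) (s2 := false) (a := 2) (b := 0) (c := 3) (cn := .up) (n1 := ndF2q2a) (n2 := ndF2q3) (pc := pcF0) (cut := Cut.none) (xt := Ext.none) (P1 := 0) (W1 := 536870912) (P2 := 1610612736) (W2 := 536870912) (P3 := 134217728) (W3 := 67108864)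
    rfl k0_mm_203_a

noncomputable def f_mm_203_b : ℕ → ℕ → ℕ → ℕ → Bool := onCell 1239849684 370763052 1610612736 536870912 134217728 67108864
    (rowF 0 false false false .up 2 0 3 (qsf 1239849684 370763052 1610612736 536870912 0) ndF2q2b ndF2q3 pcF0 Cut.none Ext.none)

def k0_mm_203_b : ∃ t, chk3 f_mm_203_b t 1 1 1 = true :=
  ⟨(l 3), by decide +kernel⟩

theorem c_mm_203_b : CertF 1239849684 370763052 1610612736 536870912 134217728 67108864 false false false .up 2 0 3
    ndF2q2b ndF2q3 pcF0 Cut.none Ext.none :=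
  certF0 (fam := false) (s1 := false) (s2 := false) (a := 2) (b := 0) (c := 3) (cn := .up) (n1 := ndF2q2b) (n2 := ndF2q3) (pc := pcF0) (cut := Cut.none) (xt := Ext.none) (P1 := 1239849684) (W1 := 370763052) (P2 := 1610612736) (W2 := 536870912) (P3 := 134217728) (W3 := 67108864)
    rfl k0_mm_203_b

noncomputable def f_mm_213_a : ℕ → ℕ → ℕ → ℕ → Bool := onCell 0 536870912 1610612736 536870912 134217728 67108864
    (rowF 0 false false false .pnn 2 1 3 (qsf 0 536870912 1610612736 536870912 1) ndF2q2a ndF2q3 pcF1 Cut.none Ext.none)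

def k0_mm_213_a : ∃ t, chk3 f_mm_213_a t 1 1 1 = true :=
  ⟨(l 5), by decide +kernel⟩

theorem c_mm_213_a : CertF 0 536870912 1610612736 536870912 134217728 67108864 false false false .pnn 2 1 3
    ndF2q2a ndF2q3 pcF1 Cut.none Ext.none :=
  certF0 (fam := false) (s1 := false) (s2 := false) (a := 2) (b := 1) (c := 3) (cn := .pnn) (n1 := ndF2q2a) (n2 := ndF2q3) (pc := pcF1) (cut := Cut.none) (xt := Ext.none) (P1 := 0) (W1 := 536870912) (P2 := 1610612736) (W2 := 536870912) (P3 := 134217728) (W3 := 67108864)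
    rfl k0_mm_213_a

noncomputable def f_mm_213_b : ℕ → ℕ → ℕ → ℕ → Bool := onCell 1239849684 370763052 1610612736 536870912 134217728 67108864
    (rowF 0 false false false .pnn 2 1 3 (qsf 1239849684 370763052 1610612736 536870912 1) ndF2q2b ndF2q3 pcF1 Cut.none Ext.none)

def k0_mm_213_b : ∃ t, chk3 f_mm_213_b t 1 1 1 = true :=
  ⟨(l 3), by decide +kernel⟩

theorem c_mm_213_b : CertF 1239849684 370763052 1610612736 536870912 134217728 67108864 false false false .pnn 2 1 3
    ndF2q2b ndF2q3 pcF1 Cut.none Ext.none :=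
  certF0 (fam := false) (s1 := false) (s2 := false) (a := 2) (b := 1) (c := 3) (cn := .pnn) (n1 := ndF2q2b) (n2 := ndF2q3) (pc := pcF1) (cut := Cut.none) (xt := Ext.none) (P1 := 1239849684) (W1 := 370763052) (P2 := 1610612736) (W2 := 536870912) (P3 := 134217728) (W3 := 67108864)
    rfl k0_mm_213_b

noncomputable def f_mm_303 : ℕ → ℕ → ℕ → ℕ → Bool := onCell 1610612736 536870912 1610612736 536870912 134217728 67108864
    (rowF 0 false false false .npn 3 0 3 (qsf 1610612736 536870912 1610612736 536870912 0) ndF2q3 ndF2q3 pcF0 Cut.none Ext.none)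

def k0_mm_303 : ∃ t, chk3 f_mm_303 t 1 1 1 = true :=
  ⟨(l 3), by decide +kernel⟩

theorem c_mm_303 : CertF 1610612736 536870912 1610612736 536870912 134217728 67108864 false false false .npn 3 0 3
    ndF2q3 ndF2q3 pcF0 Cut.none Ext.none :=
  certF0 (fam := false) (s1 := false) (s2 := false) (a := 3) (b := 0) (c := 3) (cn := .npn) (n1 := ndF2q3) (n2 := ndF2q3) (pc := pcF0) (cut := Cut.none) (xt := Ext.none) (P1 := 1610612736) (W1 := 536870912) (P2 := 1610612736) (W2 := 536870912) (P3 := 134217728) (W3 := 67108864)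
    rfl k0_mm_303

noncomputable def f_mm_313 : ℕ → ℕ → ℕ → ℕ → Bool := onCell 1610612736 536870912 1610612736 536870912 134217728 67108864
    (rowF 0 false false false .dn 3 1 3 (qsf 1610612736 536870912 1610612736 536870912 1) ndF2q3 ndF2q3 pcF1 Cut.none Ext.none)

def k0_mm_313 : ∃ t, chk3 f_mm_313 t 1 1 1 = true :=
  ⟨(l 3), by decide +kernel⟩

theorem c_mm_313 : CertF 1610612736 536870912 1610612736 536870912 134217728 67108864 false false false .dn 3 1 3
    ndF2q3 ndF2q3 pcF1 Cut.none Ext.none :=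
  certF0 (fam := false) (s1 := false) (s2 := false) (a := 3) (b := 1) (c := 3) (cn := .dn) (n1 := ndF2q3) (n2 := ndF2q3) (pc := pcF1) (cut := Cut.none) (xt := Ext.none) (P1 := 1610612736) (W1 := 536870912) (P2 := 1610612736) (W2 := 536870912) (P3 := 134217728) (W3 := 67108864)
    rfl k0_mm_313

end Pool.Agent.Strip051.G.I1_8_3_16.Tab.C.FB22

namespace Pool.Agent.Strip051.G.I1_8_3_16.Tab.C.FB23

open Pool.Agent.Strip051.PB Pool.Agent.Strip051.PB.T
open Pool.Agent.Strip051.G.I1_8_3_16.Tab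

noncomputable def f_pp_001 : ℕ → ℕ → ℕ → ℕ → Bool := onCell 0 536870912 0 536870912 134217728 67108864
    (rowF 1 false true true .up 0 0 1 (qsf 0 536870912 536870912 536870912 0) ndF2q0 ndF3q1 pcF0 Cut.none Ext.none)

def k0_pp_001 : ∃ t, chk3 f_pp_001 t 1 1 1 = true :=
  ⟨(l 3), by decide +kernel⟩

theorem c_pp_001 : CertF 0 536870912 536870912 536870912 134217728 67108864 false true true .up 0 0 1
    ndF2q0 ndF3q1 pcF0 Cut.none Ext.none :=
  certF1 (fam := false) (s1 := true) (s2 := true) (a := 0) (b := 0) (c := 1) (cn := .up) (n1 := ndF2q0) (n2 := ndF3q1) (pc := pcF0) (cut := Cut.none) (xt := Ext.none) (P1 := 0) (W1 := 536870912) (P2 := 536870912) (W2 := 536870912) (P3 := 134217728) (W3 := 67108864)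
    rfl (fun _ => rfl) k0_pp_001

noncomputable def cut_pp_011 : Cut := Cut.of [[⟨0, 0, 0, 67108864⟩, ⟨1, 1, 0, 67108864⟩, ⟨2, 1, 0, 67108864⟩]]

noncomputable def f_pp_011 : ℕ → ℕ → ℕ → ℕ → Bool := onCell 0 536870912 536870912 536870912 134217728 67108864
    (rowF 1 false true true .pnn 0 1 1 (qsf 0 536870912 536870912 536870912 1) ndF2q0 ndF3q1 pcF1 cut_pp_011 Ext.none)

def k0_pp_011 : ∃ t, chk3 f_pp_011 t 1 1 1 = true :=
  ⟨(a (b (l 3) (a (b (l 3) (a (a (b (l 3) (b (l 3) (l 6))) (l 3)) (l 3))) (l 3))) (l 3)), by decide +kernel⟩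

theorem c_pp_011 : CertF 0 536870912 536870912 536870912 134217728 67108864 false true true .pnn 0 1 1
    ndF2q0 ndF3q1 pcF1 cut_pp_011 Ext.none :=
  certF1 (fam := false) (s1 := true) (s2 := true) (a := 0) (b := 1) (c := 1) (cn := .pnn) (n1 := ndF2q0) (n2 := ndF3q1) (pc := pcF1) (cut := cut_pp_011) (xt := Ext.none) (P1 := 0) (W1 := 536870912) (P2 := 536870912) (W2 := 536870912) (P3 := 134217728) (W3 := 67108864)
    rfl (fun _ => rfl) k0_pp_011

noncomputable def f_pp_012 : ℕ → ℕ → ℕ → ℕ → Bool := onCell 536870912 536870912 1073741824 536870912 134217728 67108864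
    (rowF 2 false true true .pnp 0 1 2 (qsf 0 536870912 1073741824 536870912 1) ndF2q0 ndF3q2 pcF1 Cut.none Ext.none)

def k0_pp_012 : ∃ t, chk3 f_pp_012 t 1 1 1 = true :=
  ⟨(a (b (l 3) (a (l 2) (b (l 17252408) (l 2)))) (b (a (b (l 3) (b (l 3) (l 330880984039))) (b (l 3) (b (b (l 3) (a (l 3) (l 16958592))) (a (l 17038208) (l 17160976))))) (a (b (a (l 16873920) (l 17051240)) (l 17129472)) (b (a (l 17264760) (l 17459216)) (a (l 17445432) (l 17667520)))))), by decide +kernel⟩

theorem c_pp_012 : CertF 0 536870912 1073741824 536870912 134217728 67108864 false true true .pnp 0 1 2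
    ndF2q0 ndF3q2 pcF1 Cut.none Ext.none :=
  certF2 (fam := false) (s1 := true) (s2 := true) (a := 0) (b := 1) (c := 2) (cn := .pnp) (n1 := ndF2q0) (n2 := ndF3q2) (pc := pcF1) (cut := Cut.none) (xt := Ext.none) (P1 := 0) (W1 := 536870912) (P2 := 1073741824) (W2 := 536870912) (P3 := 134217728) (W3 := 67108864)
    rfl (fun _ => rfl) k0_pp_012

noncomputable def f_pp_022 : ℕ → ℕ → ℕ → ℕ → Bool := onCell 1073741824 536870912 1073741824 536870912 134217728 67108864
    (rowF 2 false true true .pp 0 2 2 (qsf 0 536870912 1073741824 536870912 2) ndF2q0 ndF3q2 pcF2 Cut.none Ext.none)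

def k0_pp_022 : ∃ t, chk3 f_pp_022 t 4 2 1 = true :=
  ⟨(b (a (b (l 3) (b (l 3) (b (l 3) (a (l 3) (l 16749016))))) (b (a (l 3) (l 1)) (b (a (l 3) (b (l 1) (a (a (a (l 3) (l 1)) (l 1)) (l 1)))) (b (a (a (l 3) (b (c (l 418926817287) (a (l 3) (l 403894429303))) (c (l 16627656) (l 16612184)))) (c (a (b (a (b (l 293701599767) (l 361884200727)) (b (l 1) (l 284037894407))) (a (b (l 16600936) (l 16578320)) (b (l 367789753111) (l 354367993399)))) (b (l 1) (a (l 320008285655) (l 1)))) (b (a (b (a (a (l 316787054311) (l 250751917575)) (l 1)) (a (a (l 16602296) (l 333430030647)) (l 303365232423))) (l 1)) (a (a (b (l 16593736) (l 16568096)) (a (l 417718767943) (l 404833862663))) (b (l 1) (l 337724936423)))))) (c (a (a (l 16654296) (l 16669360)) (a (b (a (l 16577944) (l 16608136)) (l 16573744)) (b (a (l 373158497991) (l 293164709415)) (a (l 16592872) (l 347925513783))))) (a (a (l 16621944) (l 16655752)) (a (b (a (l 16558912) (l 16597624)) (l 16572432)) (b (a (l 368863496759) (l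 313565761335)) (l 342556817463))))))))) (a (b (b (b (a (l 3) (l 16673656)) (b (l 16691336) (b (l 16622432) (l 16745576)))) (a (l 16804976) (l 16789792))) (b (l 17090200) (l 17309192))) (b (b (b (a (a (l 16615624) (l 16624504)) (a (b (l 16578896) (l 16553440)) (b (c (l 16599160) (l 16585704)) (l 16592576)))) (a (b (l 16553408) (l 16691384)) (b (a (l 16548184) (l 16566104)) (a (l 16665296) (b (l 16540344) (l 16578032)))))) (a (l 16790248) (a (l 16801744) (l 16626056)))) (a (a (l 17270136) (b (l 17161312) (l 17410600))) (b (l 17201736) (l 17456576)))))), by decide +kernel⟩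

def k1_pp_022 : ∃ t, chk3 f_pp_022 t 5 4 1 = true :=
  ⟨(a (b (l 1) (b (l 1) (a (a (b (l 1) (b (l 1) (c (l 283501064711) (l 302828350727)))) (l 1)) (l 1)))) (l 1)), by decide +kernel⟩

def k2_pp_022 : ∃ t, chk3 f_pp_022 t 5 10 1 = true :=
  ⟨(b (a (a (a (b (c (b (a (l 333966859879) (l 264710488455)) (a (l 16561272) (l 328598180599))) (b (l 312492037047) (l 344167412103))) (b (a (l 16563472) (c (l 16653016) (l 16549736))) (b (l 16579760) (b (l 16556304) (l 16555368))))) (c (b (a (b (l 1) (l 282427237463)) (l 1)) (a (b (b (l 307123442231) (l 351683721399)) (b (l 16801264) (b (l 16863216) (l 16902496)))) (b (a (l 315713440055) (l 1)) (b (a (l 328061411799) (l 342556947879)) (b (a (l 16875984) (l 313565921959)) (a (l 16915520) (c (l 360811326007) (a (l 16719384) (l 333966979943))))))))) (b (a (b (l 1) (l 276521606343)) (l 1)) (a (b (l 320008162375) (b (l 16526400) (l 16607752))) (b (l 305512679495) (b (l 308197049527) (b (l 345778011991) (a (l 16526008) (l 353294218679)))))))))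 (b (l 1) (b (l 1) (b (l 1) (b (l 1) (b (l 1) (c (l 350073726631) (l 296385784679)))))))) (l 1)) (a (a (a (b (l 16686040) (l 16955696)) (b (a (b (l 16614976) (l 16774880)) (b (c (a (l 17011088) (l 16833472)) (l 16549008)) (l 16579448))) (a (l 16975536) (l 16970776)))) (c (c (b (a (b (l 396245193399) (l 353832401223)) (l 397319093351)) (a (l 17518616) (l 466039057511))) (b (a (b (l 351684101607) (l 351147561335)) (l 352758046215)) (a (l 17183384) (b (l 406982445847) (l 349537257719))))) (b (a (b (l 312491922855) (l 345777918215)) (l 296922690423)) (a (b (l 16597568) (l 16743200)) (b (l 339872524343) (l 346315001031)))))) (a (a (b (l 1) (c (l 424699677751) (l 345241389015))) (l 1)) (l 1)))), by decide +kernel⟩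

def k3_pp_022 : ∃ t, chk3 f_pp_022 t 5 11 1 = true :=
  ⟨(a (a (a (b (l 17248272) (l 17508320)) (b (b (l 17193728) (l 17358784)) (l 17544840))) (b (b (a (l 17230216) (c (l 17572640) (l 16869104))) (l 17416272)) (b (l 17548464) (l 17649784)))) (b (c (a (b (b (l 437048045495) (l 323768472423)) (l 341485232327)) (b (l 1) (l 537980245303))) (a (b (a (b (l 375843457975) (l 345778430119)) (l 408055858951)) (a (l 17187712) (b (l 402150634263) (l 344168274167)))) (b (l 1) (l 479460169447)))) (a (b (c (l 17883432) (l 17366728)) (l 17726368)) (b (c (l 479461602295) (a (l 473018091207) (l 471944368855))) (c (l 18037352) (l 336652859863)))))), by decide +kernel⟩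

def k4_pp_022 : ∃ t, chk3 f_pp_022 t 2 3 1 = true :=
  ⟨(a (b (a (l 17686336) (a (a (l 17773248) (l 17799416)) (a (l 17824112) (l 17850256)))) (a (l 17995712) (a (a (l 18087256) (l 18108640)) (a (l 18125816) (l 18143928))))) (a (a (a (b (l 17876360) (l 18159376)) (b (b (l 17792920) (l 17998080)) (l 18177648))) (b (b (l 17837368) (l 18029696)) (l 18189088))) (b (b (a (b (l 17843240) (l 17960424)) (b (b (l 17881016) (l 17947176)) (l 18026608))) (l 18104608)) (l 18223088)))), by decide +kernel⟩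

def k5_pp_022 : ∃ t, chk3 f_pp_022 t 3 1 1 = true :=
  ⟨(b (a (b (l 1) (a (b (l 1) (b (l 1) (a (b (l 1) (l 508989251591)) (l 1)))) (l 1))) (l 1)) (a (b (b (a (b (a (b (l 518116276919) (l 339874799703)) (l 562676644471)) (a (l 18090976) (l 537443539847))) (b (l 1) (l 623343326103))) (a (a (l 18194088) (l 18248928)) (b (l 566972167447) (l 358666326439)))) (b (a (l 18291984) (l 18383504)) (l 18364032))) (b (a (b (l 1) (b (l 1) (l 670051500359))) (l 1)) (b (a (l 609922611975) (b (l 1) (l 711390777207))) (l 365646537079))))), by decide +kernel⟩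

theorem s6_pp_022 : ∃ t, chk3 f_pp_022 t 5 5 1 = true := ex3_b k2_pp_022 k3_pp_022

theorem s7_pp_022 : ∃ t, chk3 f_pp_022 t 5 2 1 = true := ex3_b k1_pp_022 s6_pp_022

theorem s8_pp_022 : ∃ t, chk3 f_pp_022 t 2 2 1 = true := ex3_a k0_pp_022 s7_pp_022

theorem s9_pp_022 : ∃ t, chk3 f_pp_022 t 2 1 1 = true := ex3_b s8_pp_022 k4_pp_022

theorem s10_pp_022 : ∃ t, chk3 f_pp_022 t 1 1 1 = true := ex3_a s9_pp_022 k5_pp_022

theorem c_pp_022 : CertF 0 536870912 1073741824 536870912 134217728 67108864 false true true .pp 0 2 2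
    ndF2q0 ndF3q2 pcF2 Cut.none Ext.none :=
  certF2 (fam := false) (s1 := true) (s2 := true) (a := 0) (b := 2) (c := 2) (cn := .pp) (n1 := ndF2q0) (n2 := ndF3q2) (pc := pcF2) (cut := Cut.none) (xt := Ext.none) (P1 := 0) (W1 := 536870912) (P2 := 1073741824) (W2 := 536870912) (P3 := 134217728) (W3 := 67108864)
    rfl (fun _ => rfl) s10_pp_022

noncomputable def f_pp_023 : ℕ → ℕ → ℕ → ℕ → Bool := onCell 1073741824 536870912 0 1230186008 134217728 67108864
    (rowF 2 false true true .up 0 2 3 (qsf 0 536870912 0 1230186008 2) ndF2q0 ndF3q3 pcF2 Cut.none Ext.none)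

def k0_pp_023 : ∃ t, chk3 f_pp_023 t 1 1 1 = true :=
  ⟨(b (a (l 2) (a (l 2) (l 18226640))) (b (a (a (l 2) (a (l 2) (l 18509208))) (a (l 18472872) (l 18394152))) (a (a (a (l 18483080) (a (a (l 18503864) (l 18503152)) (l 18483688))) (a (a (b (l 18515928) (l 18458736)) (l 18475336)) (l 18446328))) (b (l 18437048) (a (l 18404352) (l 18358072)))))), by decide +kernel⟩

theorem c_pp_023 : CertF 0 536870912 0 1230186008 134217728 67108864 false true true .up 0 2 3
    ndF2q0 ndF3q3 pcF2 Cut.none Ext.none :=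
  certF2 (fam := false) (s1 := true) (s2 := true) (a := 0) (b := 2) (c := 3) (cn := .up) (n1 := ndF2q0) (n2 := ndF3q3) (pc := pcF2) (cut := Cut.none) (xt := Ext.none) (P1 := 0) (W1 := 536870912) (P2 := 0) (W2 := 1230186008) (P3 := 134217728) (W3 := 67108864)
    rfl (fun _ => rfl) k0_pp_023

noncomputable def f_pp_033 : ℕ → ℕ → ℕ → ℕ → Bool := onCell 0 536870912 0 1230186008 134217728 67108864
    (rowF 0 false true true .pnn 0 3 3 (qsf 0 536870912 0 1230186008 3) ndF2q0 ndF3q3 pcF3 Cut.none Ext.none)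

def k0_pp_033 : ∃ t, chk3 f_pp_033 t 1 1 1 = true :=
  ⟨(b (b (l 4) (a (a (l 4) (a (l 4) (l 17845376))) (a (a (l 17836560) (l 17835744)) (a (l 17842136) (l 17855344))))) (b (a (a (b (a (l 17882376) (l 17903144)) (b (l 17962312) (l 17874328))) (b (l 17919840) (b (l 17951512) (l 17853128)))) (b (a (l 18052832) (l 18003904)) (a (l 17819248) (l 1)))) (a (b (b (a (l 17877768) (l 17844904)) (l 17903288)) (a (l 18012800) (l 17978136))) (l 1)))), by decide +kernel⟩

theorem c_pp_033 : CertF 0 536870912 0 1230186008 134217728 67108864 false true true .pnn 0 3 3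
    ndF2q0 ndF3q3 pcF3 Cut.none Ext.none :=
  certF0 (fam := false) (s1 := true) (s2 := true) (a := 0) (b := 3) (c := 3) (cn := .pnn) (n1 := ndF2q0) (n2 := ndF3q3) (pc := pcF3) (cut := Cut.none) (xt := Ext.none) (P1 := 0) (W1 := 536870912) (P2 := 0) (W2 := 1230186008) (P3 := 134217728) (W3 := 67108864)
    rfl k0_pp_033

noncomputable def f_pp_101 : ℕ → ℕ → ℕ → ℕ → Bool := onCell 536870912 536870912 536870912 536870912 134217728 67108864
    (rowF 0 false true true .npn 1 0 1 (qsf 536870912 536870912 536870912 536870912 0) ndF2q1 ndF3q1 pcF0 Cut.none Ext.none)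

def k0_pp_101 : ∃ t, chk3 f_pp_101 t 1 1 1 = true :=
  ⟨(l 3), by decide +kernel⟩

theorem c_pp_101 : CertF 536870912 536870912 536870912 536870912 134217728 67108864 false true true .npn 1 0 1
    ndF2q1 ndF3q1 pcF0 Cut.none Ext.none :=
  certF0 (fam := false) (s1 := true) (s2 := true) (a := 1) (b := 0) (c := 1) (cn := .npn) (n1 := ndF2q1) (n2 := ndF3q1) (pc := pcF0) (cut := Cut.none) (xt := Ext.none) (P1 := 536870912) (W1 := 536870912) (P2 := 536870912) (W2 := 536870912) (P3 := 134217728) (W3 := 67108864)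
    rfl k0_pp_101

noncomputable def f_pp_102 : ℕ → ℕ → ℕ → ℕ → Bool := onCell 536870912 536870912 0 536870912 134217728 67108864
    (rowF 1 false true true .npp 1 0 2 (qsf 536870912 536870912 1073741824 536870912 0) ndF2q1 ndF3q2 pcF0 Cut.none Ext.none)

def k0_pp_102 : ∃ t, chk3 f_pp_102 t 1 1 1 = true :=
  ⟨(l 3), by decide +kernel⟩

theorem c_pp_102 : CertF 536870912 536870912 1073741824 536870912 134217728 67108864 false true true .npp 1 0 2
    ndF2q1 ndF3q2 pcF0 Cut.none Ext.none :=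
  certF1 (fam := false) (s1 := true) (s2 := true) (a := 1) (b := 0) (c := 2) (cn := .npp) (n1 := ndF2q1) (n2 := ndF3q2) (pc := pcF0) (cut := Cut.none) (xt := Ext.none) (P1 := 536870912) (W1 := 536870912) (P2 := 1073741824) (W2 := 536870912) (P3 := 134217728) (W3 := 67108864)
    rfl (fun _ => rfl) k0_pp_102

noncomputable def f_pp_112 : ℕ → ℕ → ℕ → ℕ → Bool := onCell 536870912 536870912 1073741824 536870912 134217728 67108864
    (rowF 2 false true true .dn 1 1 2 (qsf 536870912 536870912 1073741824 536870912 1) ndF2q1 ndF3q2 pcF1 Cut.none Ext.none)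

def k0_pp_112 : ∃ t, chk3 f_pp_112 t 1 1 1 = true :=
  ⟨(a (b (l 3) (a (b (l 3) (l 357727820295)) (b (l 18205336) (l 18153712)))) (b (a (a (l 3) (l 1)) (l 1)) (a (b (l 17877400) (l 17899656)) (l 428459051943)))), by decide +kernel⟩

theorem c_pp_112 : CertF 536870912 536870912 1073741824 536870912 134217728 67108864 false true true .dn 1 1 2
    ndF2q1 ndF3q2 pcF1 Cut.none Ext.none :=
  certF2 (fam := false) (s1 := true) (s2 := true) (a := 1) (b := 1) (c := 2) (cn := .dn) (n1 := ndF2q1) (n2 := ndF3q2) (pc := pcF1) (cut := Cut.none) (xt := Ext.none) (P1 := 536870912) (W1 := 536870912) (P2 := 1073741824) (W2 := 536870912) (P3 := 134217728) (W3 := 67108864)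
    rfl (fun _ => rfl) k0_pp_112

noncomputable def f_pp_113 : ℕ → ℕ → ℕ → ℕ → Bool := onCell 536870912 536870912 0 1230186008 134217728 67108864
    (rowF 2 false true true .nn 1 1 3 (qsf 536870912 536870912 0 1230186008 1) ndF2q1 ndF3q3 pcF1 Cut.none Ext.none)

def k0_pp_113 : ∃ t, chk3 f_pp_113 t 1 1 1 = true :=
  ⟨(a (b (l 2) (b (a (l 2) (b (l 2) (l 18461464))) (a (b (l 2) (a (l 18954872) (l 18440320))) (b (l 18254064) (l 17997488))))) (a (b (l 2) (b (l 17933216) (l 17781016))) (b (b (a (l 2) (l 16974240)) (l 17342680)) (b (l 17445944) (l 17559272))))), by decide +kernel⟩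

theorem c_pp_113 : CertF 536870912 536870912 0 1230186008 134217728 67108864 false true true .nn 1 1 3
    ndF2q1 ndF3q3 pcF1 Cut.none Ext.none :=
  certF2 (fam := false) (s1 := true) (s2 := true) (a := 1) (b := 1) (c := 3) (cn := .nn) (n1 := ndF2q1) (n2 := ndF3q3) (pc := pcF1) (cut := Cut.none) (xt := Ext.none) (P1 := 536870912) (W1 := 536870912) (P2 := 0) (W2 := 1230186008) (P3 := 134217728) (W3 := 67108864)
    rfl (fun _ => rfl) k0_pp_113

noncomputable def f_pp_123 : ℕ → ℕ → ℕ → ℕ → Bool := onCell 1073741824 536870912 0 1230186008 134217728 67108864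
    (rowF 2 false true true .npn 1 2 3 (qsf 536870912 536870912 0 1230186008 2) ndF2q1 ndF3q3 pcF2 Cut.none Ext.none)

def k0_pp_123 : ∃ t, chk3 f_pp_123 t 1 1 1 = true :=
  ⟨(b (a (a (l 16999032) (l 17014664)) (a (l 17042336) (l 17012104))) (b (a (a (a (l 17237936) (a (l 17275376) (l 17296744))) (a (l 17315200) (l 17323928))) (a (l 17304904) (l 17199040))) (a (a (a (l 17556456) (a (a (l 17564584) (l 17557192)) (l 17525448))) (a (a (l 483219353879) (l 17474704)) (l 17405192))) (l 1)))), by decide +kernel⟩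

theorem c_pp_123 : CertF 536870912 536870912 0 1230186008 134217728 67108864 false true true .npn 1 2 3
    ndF2q1 ndF3q3 pcF2 Cut.none Ext.none :=
  certF2 (fam := false) (s1 := true) (s2 := true) (a := 1) (b := 2) (c := 3) (cn := .npn) (n1 := ndF2q1) (n2 := ndF3q3) (pc := pcF2) (cut := Cut.none) (xt := Ext.none) (P1 := 536870912) (W1 := 536870912) (P2 := 0) (W2 := 1230186008) (P3 := 134217728) (W3 := 67108864)
    rfl (fun _ => rfl) k0_pp_123

noncomputable def f_pp_133 : ℕ → ℕ → ℕ → ℕ → Bool := onCell 1610612736 536870912 0 1230186008 134217728 67108864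
    (rowF 2 false true true .dn 1 3 3 (qsf 536870912 536870912 0 1230186008 3) ndF2q1 ndF3q3 pcF3 Cut.none Ext.none)

def k0_pp_133 : ∃ t, chk3 f_pp_133 t 1 1 1 = true :=
  ⟨(b (b (l 4) (l 1)) (l 1)), by decide +kernel⟩

theorem c_pp_133 : CertF 536870912 536870912 0 1230186008 134217728 67108864 false true true .dn 1 3 3
    ndF2q1 ndF3q3 pcF3 Cut.none Ext.none :=
  certF2 (fam := false) (s1 := true) (s2 := true) (a := 1) (b := 3) (c := 3) (cn := .dn) (n1 := ndF2q1) (n2 := ndF3q3) (pc := pcF3) (cut := Cut.none) (xt := Ext.none) (P1 := 536870912) (W1 := 536870912) (P2 := 0) (W2 := 1230186008) (P3 := 134217728) (W3 := 67108864)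
    rfl (fun _ => rfl) k0_pp_133

noncomputable def f_pp_202_a : ℕ → ℕ → ℕ → ℕ → Bool := onCell 0 536870912 1073741824 536870912 134217728 67108864
    (rowF 0 false true true .pp 2 0 2 (qsf 0 536870912 1073741824 536870912 0) ndF2q2a ndF3q2 pcF0 Cut.none Ext.none)

def k0_pp_202_a : ∃ t, chk3 f_pp_202_a t 1 1 1 = true :=
  ⟨(l 3), by decide +kernel⟩

theorem c_pp_202_a : CertF 0 536870912 1073741824 536870912 134217728 67108864 false true true .pp 2 0 2
    ndF2q2a ndF3q2 pcF0 Cut.none Ext.none :=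
  certF0 (fam := false) (s1 := true) (s2 := true) (a := 2) (b := 0) (c := 2) (cn := .pp) (n1 := ndF2q2a) (n2 := ndF3q2) (pc := pcF0) (cut := Cut.none) (xt := Ext.none) (P1 := 0) (W1 := 536870912) (P2 := 1073741824) (W2 := 536870912) (P3 := 134217728) (W3 := 67108864)
    rfl k0_pp_202_a

noncomputable def f_pp_202_b : ℕ → ℕ → ℕ → ℕ → Bool := onCell 1239849684 370763052 1073741824 536870912 134217728 67108864
    (rowF 0 false true true .pp 2 0 2 (qsf 1239849684 370763052 1073741824 536870912 0) ndF2q2b ndF3q2 pcF0 Cut.none Ext.none)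

def k0_pp_202_b : ∃ t, chk3 f_pp_202_b t 1 1 1 = true :=
  ⟨(l 3), by decide +kernel⟩

theorem c_pp_202_b : CertF 1239849684 370763052 1073741824 536870912 134217728 67108864 false true true .pp 2 0 2
    ndF2q2b ndF3q2 pcF0 Cut.none Ext.none :=
  certF0 (fam := false) (s1 := true) (s2 := true) (a := 2) (b := 0) (c := 2) (cn := .pp) (n1 := ndF2q2b) (n2 := ndF3q2) (pc := pcF0) (cut := Cut.none) (xt := Ext.none) (P1 := 1239849684) (W1 := 370763052) (P2 := 1073741824) (W2 := 536870912) (P3 := 134217728) (W3 := 67108864)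
    rfl k0_pp_202_b

noncomputable def f_pp_203_a : ℕ → ℕ → ℕ → ℕ → Bool := onCell 0 536870912 0 1230186008 134217728 67108864
    (rowF 0 false true true .up 2 0 3 (qsf 0 536870912 0 1230186008 0) ndF2q2a ndF3q3 pcF0 Cut.none Ext.none)

def k0_pp_203_a : ∃ t, chk3 f_pp_203_a t 1 1 1 = true :=
  ⟨(b (l 2) (l 3)), by decide +kernel⟩

theorem c_pp_203_a : CertF 0 536870912 0 1230186008 134217728 67108864 false true true .up 2 0 3
    ndF2q2a ndF3q3 pcF0 Cut.none Ext.none :=
  certF0 (fam := false) (s1 := true) (s2 := true) (a := 2) (b := 0) (c := 3) (cn := .up) (n1 := ndF2q2a) (n2 := ndF3q3) (pc := pcF0) (cut := Cut.none) (xt := Ext.none) (P1 := 0) (W1 := 536870912) (P2 := 0) (W2 := 1230186008) (P3 := 134217728) (W3 := 67108864)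
    rfl k0_pp_203_a

noncomputable def f_pp_203_b : ℕ → ℕ → ℕ → ℕ → Bool := onCell 1239849684 370763052 0 1230186008 134217728 67108864
    (rowF 0 false true true .up 2 0 3 (qsf 1239849684 370763052 0 1230186008 0) ndF2q2b ndF3q3 pcF0 Cut.none Ext.none)

def k0_pp_203_b : ∃ t, chk3 f_pp_203_b t 1 1 1 = true :=
  ⟨(b (l 3) (l 3)), by decide +kernel⟩

theorem c_pp_203_b : CertF 1239849684 370763052 0 1230186008 134217728 67108864 false true true .up 2 0 3
    ndF2q2b ndF3q3 pcF0 Cut.none Ext.none :=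
  certF0 (fam := false) (s1 := true) (s2 := true) (a := 2) (b := 0) (c := 3) (cn := .up) (n1 := ndF2q2b) (n2 := ndF3q3) (pc := pcF0) (cut := Cut.none) (xt := Ext.none) (P1 := 1239849684) (W1 := 370763052) (P2 := 0) (W2 := 1230186008) (P3 := 134217728) (W3 := 67108864)
    rfl k0_pp_203_b

noncomputable def cut_pp_213_a : Cut := Cut.of [[⟨0, 1, 0, 39843005⟩, ⟨1, 1, 0, 39843005⟩, ⟨2, 2, 0, 5814905⟩]]

noncomputable def f_pp_213_a : ℕ → ℕ → ℕ → ℕ → Bool := onCell 0 536870912 0 1230186008 134217728 67108864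
    (rowF 0 false true true .pnn 2 1 3 (qsf 0 536870912 0 1230186008 1) ndF2q2a ndF3q3 pcF1 cut_pp_213_a Ext.none)

def k0_pp_213_a : ∃ t, chk3 f_pp_213_a t 1 1 1 = true :=
  ⟨(b (a (l 3) (b (a (l 3) (b (a (l 3) (b (a (l 3) (l 6)) (l 3))) (l 3))) (l 3))) (l 3)), by decide +kernel⟩

theorem c_pp_213_a : CertF 0 536870912 0 1230186008 134217728 67108864 false true true .pnn 2 1 3
    ndF2q2a ndF3q3 pcF1 cut_pp_213_a Ext.none :=
  certF0 (fam := false) (s1 := true) (s2 := true) (a := 2) (b := 1) (c := 3) (cn := .pnn) (n1 := ndF2q2a) (n2 := ndF3q3) (pc := pcF1) (cut := cut_pp_213_a) (xt := Ext.none) (P1 := 0) (W1 := 536870912) (P2 := 0) (W2 := 1230186008) (P3 := 134217728) (W3 := 67108864)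
    rfl k0_pp_213_a

noncomputable def cut_pp_213_b : Cut := Cut.of [[⟨0, 1, 0, 39843005⟩, ⟨1, 1, 0, 39843005⟩, ⟨2, 2, 0, 5814905⟩]]

noncomputable def f_pp_213_b : ℕ → ℕ → ℕ → ℕ → Bool := onCell 1239849684 370763052 0 1230186008 134217728 67108864
    (rowF 0 false true true .pnn 2 1 3 (qsf 1239849684 370763052 0 1230186008 1) ndF2q2b ndF3q3 pcF1 cut_pp_213_b Ext.none)

def k0_pp_213_b : ∃ t, chk3 f_pp_213_b t 1 1 1 = true :=
  ⟨(b (l 3) (l 3)), by decide +kernel⟩

theorem c_pp_213_b : CertF 1239849684 370763052 0 1230186008 134217728 67108864 false true true .pnn 2 1 3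
    ndF2q2b ndF3q3 pcF1 cut_pp_213_b Ext.none :=
  certF0 (fam := false) (s1 := true) (s2 := true) (a := 2) (b := 1) (c := 3) (cn := .pnn) (n1 := ndF2q2b) (n2 := ndF3q3) (pc := pcF1) (cut := cut_pp_213_b) (xt := Ext.none) (P1 := 1239849684) (W1 := 370763052) (P2 := 0) (W2 := 1230186008) (P3 := 134217728) (W3 := 67108864)
    rfl k0_pp_213_b

noncomputable def f_pp_303 : ℕ → ℕ → ℕ → ℕ → Bool := onCell 1610612736 536870912 0 1230186008 134217728 67108864
    (rowF 0 false true true .npn 3 0 3 (qsf 1610612736 536870912 0 1230186008 0) ndF2q3 ndF3q3 pcF0 Cut.none Ext.none)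

def k0_pp_303 : ∃ t, chk3 f_pp_303 t 1 1 1 = true :=
  ⟨(b (l 3) (l 3)), by decide +kernel⟩

theorem c_pp_303 : CertF 1610612736 536870912 0 1230186008 134217728 67108864 false true true .npn 3 0 3
    ndF2q3 ndF3q3 pcF0 Cut.none Ext.none :=
  certF0 (fam := false) (s1 := true) (s2 := true) (a := 3) (b := 0) (c := 3) (cn := .npn) (n1 := ndF2q3) (n2 := ndF3q3) (pc := pcF0) (cut := Cut.none) (xt := Ext.none) (P1 := 1610612736) (W1 := 536870912) (P2 := 0) (W2 := 1230186008) (P3 := 134217728) (W3 := 67108864)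
    rfl k0_pp_303

noncomputable def f_pp_313 : ℕ → ℕ → ℕ → ℕ → Bool := onCell 1610612736 536870912 0 1230186008 134217728 67108864
    (rowF 0 false true true .dn 3 1 3 (qsf 1610612736 536870912 0 1230186008 1) ndF2q3 ndF3q3 pcF1 Cut.none Ext.none)

def k0_pp_313 : ∃ t, chk3 f_pp_313 t 1 1 1 = true :=
  ⟨(b (l 3) (l 1)), by decide +kernel⟩

theorem c_pp_313 : CertF 1610612736 536870912 0 1230186008 134217728 67108864 false true true .dn 3 1 3
    ndF2q3 ndF3q3 pcF1 Cut.none Ext.none :=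
  certF0 (fam := false) (s1 := true) (s2 := true) (a := 3) (b := 1) (c := 3) (cn := .dn) (n1 := ndF2q3) (n2 := ndF3q3) (pc := pcF1) (cut := Cut.none) (xt := Ext.none) (P1 := 1610612736) (W1 := 536870912) (P2 := 0) (W2 := 1230186008) (P3 := 134217728) (W3 := 67108864)
    rfl k0_pp_313

noncomputable def f_pm_001 : ℕ → ℕ → ℕ → ℕ → Bool := onCell 0 536870912 536870912 536870912 134217728 67108864
    (rowF 0 false true false .up 0 0 1 (qsf 0 536870912 536870912 536870912 0) ndF2q0 ndF3q1 pcF0 Cut.none Ext.none)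

def k0_pm_001 : ∃ t, chk3 f_pm_001 t 1 1 1 = true :=
  ⟨(l 4), by decide +kernel⟩

theorem c_pm_001 : CertF 0 536870912 536870912 536870912 134217728 67108864 false true false .up 0 0 1
    ndF2q0 ndF3q1 pcF0 Cut.none Ext.none :=
  certF0 (fam := false) (s1 := true) (s2 := false) (a := 0) (b := 0) (c := 1) (cn := .up) (n1 := ndF2q0) (n2 := ndF3q1) (pc := pcF0) (cut := Cut.none) (xt := Ext.none) (P1 := 0) (W1 := 536870912) (P2 := 536870912) (W2 := 536870912) (P3 := 134217728) (W3 := 67108864)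
    rfl k0_pm_001

noncomputable def f_pm_011 : ℕ → ℕ → ℕ → ℕ → Bool := onCell 0 536870912 536870912 536870912 134217728 67108864
    (rowF 0 false true false .pnn 0 1 1 (qsf 0 536870912 536870912 536870912 1) ndF2q0 ndF3q1 pcF1 Cut.none Ext.none)

def k0_pm_011 : ∃ t, chk3 f_pm_011 t 1 1 1 = true :=
  ⟨(l 4), by decide +kernel⟩

theorem c_pm_011 : CertF 0 536870912 536870912 536870912 134217728 67108864 false true false .pnn 0 1 1
    ndF2q0 ndF3q1 pcF1 Cut.none Ext.none :=
  certF0 (fam := false) (s1 := true) (s2 := false) (a := 0) (b := 1) (c := 1) (cn := .pnn) (n1 := ndF2q0) (n2 := ndF3q1) (pc := pcF1) (cut := Cut.none) (xt := Ext.none) (P1 := 0) (W1 := 536870912) (P2 := 536870912) (W2 := 536870912) (P3 := 134217728) (W3 := 67108864)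
    rfl k0_pm_011

noncomputable def f_pm_012 : ℕ → ℕ → ℕ → ℕ → Bool := onCell 0 536870912 1073741824 536870912 134217728 67108864
    (rowF 0 false true false .pnp 0 1 2 (qsf 0 536870912 1073741824 536870912 1) ndF2q0 ndF3q2 pcF1 Cut.none Ext.none)

def k0_pm_012 : ∃ t, chk3 f_pm_012 t 1 1 1 = true :=
  ⟨(l 4), by decide +kernel⟩

theorem c_pm_012 : CertF 0 536870912 1073741824 536870912 134217728 67108864 false true false .pnp 0 1 2
    ndF2q0 ndF3q2 pcF1 Cut.none Ext.none :=
  certF0 (fam := false) (s1 := true) (s2 := false) (a := 0) (b := 1) (c := 2) (cn := .pnp) (n1 := ndF2q0) (n2 := ndF3q2) (pc := pcF1) (cut := Cut.none) (xt := Ext.none) (P1 := 0) (W1 := 536870912) (P2 := 1073741824) (W2 := 536870912) (P3 := 134217728) (W3 := 67108864)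
    rfl k0_pm_012

noncomputable def f_pm_022 : ℕ → ℕ → ℕ → ℕ → Bool := onCell 0 536870912 1073741824 536870912 134217728 67108864
    (rowF 0 false true false .pp 0 2 2 (qsf 0 536870912 1073741824 536870912 2) ndF2q0 ndF3q2 pcF2 Cut.none Ext.none)

def k0_pm_022 : ∃ t, chk3 f_pm_022 t 1 1 1 = true :=
  ⟨(l 4), by decide +kernel⟩

theorem c_pm_022 : CertF 0 536870912 1073741824 536870912 134217728 67108864 false true false .pp 0 2 2
    ndF2q0 ndF3q2 pcF2 Cut.none Ext.none :=
  certF0 (fam := false) (s1 := true) (s2 := false) (a := 0) (b := 2) (c := 2) (cn := .pp) (n1 := ndF2q0) (n2 := ndF3q2) (pc := pcF2) (cut := Cut.none) (xt := Ext.none) (P1 := 0) (W1 := 536870912) (P2 := 1073741824) (W2 := 536870912) (P3 := 134217728) (W3 := 67108864)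
    rfl k0_pm_022

noncomputable def f_pm_023 : ℕ → ℕ → ℕ → ℕ → Bool := onCell 0 536870912 0 1230186008 134217728 67108864
    (rowF 0 false true false .up 0 2 3 (qsf 0 536870912 0 1230186008 2) ndF2q0 ndF3q3 pcF2 Cut.none Ext.none)

def k0_pm_023 : ∃ t, chk3 f_pm_023 t 1 1 1 = true :=
  ⟨(b (l 4) (l 4)), by decide +kernel⟩

theorem c_pm_023 : CertF 0 536870912 0 1230186008 134217728 67108864 false true false .up 0 2 3
    ndF2q0 ndF3q3 pcF2 Cut.none Ext.none :=
  certF0 (fam := false) (s1 := true) (s2 := false) (a := 0) (b := 2) (c := 3) (cn := .up) (n1 := ndF2q0) (n2 := ndF3q3) (pc := pcF2) (cut := Cut.none) (xt := Ext.none) (P1 := 0) (W1 := 536870912) (P2 := 0) (W2 := 1230186008) (P3 := 134217728) (W3 := 67108864)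
    rfl k0_pm_023

noncomputable def f_pm_033 : ℕ → ℕ → ℕ → ℕ → Bool := onCell 0 536870912 0 1230186008 134217728 67108864
    (rowF 0 false true false .pnn 0 3 3 (qsf 0 536870912 0 1230186008 3) ndF2q0 ndF3q3 pcF3 Cut.none Ext.none)

def k0_pm_033 : ∃ t, chk3 f_pm_033 t 1 1 1 = true :=
  ⟨(b (l 4) (l 4)), by decide +kernel⟩

theorem c_pm_033 : CertF 0 536870912 0 1230186008 134217728 67108864 false true false .pnn 0 3 3
    ndF2q0 ndF3q3 pcF3 Cut.none Ext.none :=
  certF0 (fam := false) (s1 := true) (s2 := false) (a := 0) (b := 3) (c := 3) (cn := .pnn) (n1 := ndF2q0) (n2 := ndF3q3) (pc := pcF3) (cut := Cut.none) (xt := Ext.none) (P1 := 0) (W1 := 536870912) (P2 := 0) (W2 := 1230186008) (P3 := 134217728) (W3 := 67108864)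
    rfl k0_pm_033

noncomputable def f_pm_101 : ℕ → ℕ → ℕ → ℕ → Bool := onCell 536870912 536870912 536870912 536870912 134217728 67108864
    (rowF 0 false true false .npn 1 0 1 (qsf 536870912 536870912 536870912 536870912 0) ndF2q1 ndF3q1 pcF0 Cut.none Ext.none)

def k0_pm_101 : ∃ t, chk3 f_pm_101 t 1 1 1 = true :=
  ⟨(l 4), by decide +kernel⟩

theorem c_pm_101 : CertF 536870912 536870912 536870912 536870912 134217728 67108864 false true false .npn 1 0 1
    ndF2q1 ndF3q1 pcF0 Cut.none Ext.none :=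
  certF0 (fam := false) (s1 := true) (s2 := false) (a := 1) (b := 0) (c := 1) (cn := .npn) (n1 := ndF2q1) (n2 := ndF3q1) (pc := pcF0) (cut := Cut.none) (xt := Ext.none) (P1 := 536870912) (W1 := 536870912) (P2 := 536870912) (W2 := 536870912) (P3 := 134217728) (W3 := 67108864)
    rfl k0_pm_101

noncomputable def f_pm_102 : ℕ → ℕ → ℕ → ℕ → Bool := onCell 536870912 536870912 1073741824 536870912 134217728 67108864
    (rowF 0 false true false .npp 1 0 2 (qsf 536870912 536870912 1073741824 536870912 0) ndF2q1 ndF3q2 pcF0 Cut.none Ext.none)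

def k0_pm_102 : ∃ t, chk3 f_pm_102 t 1 1 1 = true :=
  ⟨(l 4), by decide +kernel⟩

theorem c_pm_102 : CertF 536870912 536870912 1073741824 536870912 134217728 67108864 false true false .npp 1 0 2
    ndF2q1 ndF3q2 pcF0 Cut.none Ext.none :=
  certF0 (fam := false) (s1 := true) (s2 := false) (a := 1) (b := 0) (c := 2) (cn := .npp) (n1 := ndF2q1) (n2 := ndF3q2) (pc := pcF0) (cut := Cut.none) (xt := Ext.none) (P1 := 536870912) (W1 := 536870912) (P2 := 1073741824) (W2 := 536870912) (P3 := 134217728) (W3 := 67108864)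
    rfl k0_pm_102

noncomputable def f_pm_112 : ℕ → ℕ → ℕ → ℕ → Bool := onCell 536870912 536870912 1073741824 536870912 134217728 67108864
    (rowF 0 false true false .dn 1 1 2 (qsf 536870912 536870912 1073741824 536870912 1) ndF2q1 ndF3q2 pcF1 Cut.none Ext.none)

def k0_pm_112 : ∃ t, chk3 f_pm_112 t 1 1 1 = true :=
  ⟨(l 4), by decide +kernel⟩

theorem c_pm_112 : CertF 536870912 536870912 1073741824 536870912 134217728 67108864 false true false .dn 1 1 2
    ndF2q1 ndF3q2 pcF1 Cut.none Ext.none :=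
  certF0 (fam := false) (s1 := true) (s2 := false) (a := 1) (b := 1) (c := 2) (cn := .dn) (n1 := ndF2q1) (n2 := ndF3q2) (pc := pcF1) (cut := Cut.none) (xt := Ext.none) (P1 := 536870912) (W1 := 536870912) (P2 := 1073741824) (W2 := 536870912) (P3 := 134217728) (W3 := 67108864)
    rfl k0_pm_112

noncomputable def f_pm_113 : ℕ → ℕ → ℕ → ℕ → Bool := onCell 536870912 536870912 0 1230186008 134217728 67108864
    (rowF 0 false true false .nn 1 1 3 (qsf 536870912 536870912 0 1230186008 1) ndF2q1 ndF3q3 pcF1 Cut.none Ext.none)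

def k0_pm_113 : ∃ t, chk3 f_pm_113 t 1 1 1 = true :=
  ⟨(b (a (l 2) (b (l 17228064) (b (l 17380736) (l 4)))) (b (l 4) (l 4))), by decide +kernel⟩

theorem c_pm_113 : CertF 536870912 536870912 0 1230186008 134217728 67108864 false true false .nn 1 1 3
    ndF2q1 ndF3q3 pcF1 Cut.none Ext.none :=
  certF0 (fam := false) (s1 := true) (s2 := false) (a := 1) (b := 1) (c := 3) (cn := .nn) (n1 := ndF2q1) (n2 := ndF3q3) (pc := pcF1) (cut := Cut.none) (xt := Ext.none) (P1 := 536870912) (W1 := 536870912) (P2 := 0) (W2 := 1230186008) (P3 := 134217728) (W3 := 67108864)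
    rfl k0_pm_113

noncomputable def f_pm_123 : ℕ → ℕ → ℕ → ℕ → Bool := onCell 1073741824 536870912 0 1230186008 134217728 67108864
    (rowF 2 false true false .npn 1 2 3 (qsf 536870912 536870912 0 1230186008 2) ndF2q1 ndF3q3 pcF2 Cut.none Ext.none)

def k0_pm_123 : ∃ t, chk3 f_pm_123 t 1 1 1 = true :=
  ⟨(b (a (a (l 16942184) (l 16954896)) (a (l 17013472) (l 4))) (a (l 4) (l 4))), by decide +kernel⟩

theorem c_pm_123 : CertF 536870912 536870912 0 1230186008 134217728 67108864 false true false .npn 1 2 3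
    ndF2q1 ndF3q3 pcF2 Cut.none Ext.none :=
  certF2 (fam := false) (s1 := true) (s2 := false) (a := 1) (b := 2) (c := 3) (cn := .npn) (n1 := ndF2q1) (n2 := ndF3q3) (pc := pcF2) (cut := Cut.none) (xt := Ext.none) (P1 := 536870912) (W1 := 536870912) (P2 := 0) (W2 := 1230186008) (P3 := 134217728) (W3 := 67108864)
    rfl (fun _ => rfl) k0_pm_123

noncomputable def f_pm_133 : ℕ → ℕ → ℕ → ℕ → Bool := onCell 1610612736 536870912 0 1230186008 134217728 67108864
    (rowF 2 false true false .dn 1 3 3 (qsf 536870912 536870912 0 1230186008 3) ndF2q1 ndF3q3 pcF3 Cut.none Ext.none)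

def k0_pm_133 : ∃ t, chk3 f_pm_133 t 1 1 1 = true :=
  ⟨(b (a (l 4) (l 1)) (l 1)), by decide +kernel⟩

theorem c_pm_133 : CertF 536870912 536870912 0 1230186008 134217728 67108864 false true false .dn 1 3 3
    ndF2q1 ndF3q3 pcF3 Cut.none Ext.none :=
  certF2 (fam := false) (s1 := true) (s2 := false) (a := 1) (b := 3) (c := 3) (cn := .dn) (n1 := ndF2q1) (n2 := ndF3q3) (pc := pcF3) (cut := Cut.none) (xt := Ext.none) (P1 := 536870912) (W1 := 536870912) (P2 := 0) (W2 := 1230186008) (P3 := 134217728) (W3 := 67108864)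
    rfl (fun _ => rfl) k0_pm_133

noncomputable def f_pm_202_a : ℕ → ℕ → ℕ → ℕ → Bool := onCell 0 536870912 1073741824 536870912 134217728 67108864
    (rowF 0 false true false .pp 2 0 2 (qsf 0 536870912 1073741824 536870912 0) ndF2q2a ndF3q2 pcF0 Cut.none Ext.none)

def k0_pm_202_a : ∃ t, chk3 f_pm_202_a t 1 1 1 = true :=
  ⟨(a (b (a (b (l 1) (b (b (b (l 1) (b (l 17097176) (l 17040136))) (l 16868488)) (b (l 17182464) (l 17526672)))) (b (a (l 1) (b (l 1) (b (l 1) (b (l 1) (l 17240840))))) (b (b (b (l 17250584) (b (l 17089792) (l 17033488))) (l 16929192)) (b (l 17180720) (l 17487808))))) (b (b (a (l 17719216) (l 17679408)) (a (l 17793576) (l 17766136))) (b (l 17774240) (l 17719032)))) (b (a (b (a (b (l 1) (b (l 1) (b (l 17299112) (l 17224888)))) (b (l 1) (b (b (l 17395840) (b (l 17364952) (l 17335976))) (b (l 17267352) (l 17187216))))) (b (b (b (l 17299352) (b (l 17019208) (l 17026872))) (l 16989104)) (b (a (l 17178136) (l 17159256)) (l 17408064)))) (b (a (b (b (l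 1) (a (l 17412072) (l 17405584))) (b (b (l 17356952) (b (l 17326456) (l 17301040))) (b (l 17218008) (l 17117848)))) (b (b (a (l 17453104) (l 17441600)) (a (b (l 17413752) (l 17371216)) (l 17364864))) (b (b (l 17319448) (l 17460496)) (b (l 17137392) (l 17042864))))) (b (b (b (a (l 17013824) (l 16940256)) (b (l 16897200) (a (l 16878376) (l 16807704)))) (a (l 16848864) (l 16859456))) (b (a (l 17122376) (l 17085416)) (l 17296872))))) (b (a (b (l 17596632) (l 17698000)) (b (l 17696800) (l 17599120))) (a (b (l 17712072) (l 17672416)) (b (l 17626432) (l 17602344)))))), by decide +kernel⟩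

theorem c_pm_202_a : CertF 0 536870912 1073741824 536870912 134217728 67108864 false true false .pp 2 0 2
    ndF2q2a ndF3q2 pcF0 Cut.none Ext.none :=
  certF0 (fam := false) (s1 := true) (s2 := false) (a := 2) (b := 0) (c := 2) (cn := .pp) (n1 := ndF2q2a) (n2 := ndF3q2) (pc := pcF0) (cut := Cut.none) (xt := Ext.none) (P1 := 0) (W1 := 536870912) (P2 := 1073741824) (W2 := 536870912) (P3 := 134217728) (W3 := 67108864)
    rfl k0_pm_202_a

noncomputable def f_pm_202_b : ℕ → ℕ → ℕ → ℕ → Bool := onCell 1239849684 370763052 0 536870912 134217728 67108864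
    (rowF 1 false true false .pp 2 0 2 (qsf 1239849684 370763052 1073741824 536870912 0) ndF2q2b ndF3q2 pcF0 Cut.none Ext.none)

def k0_pm_202_b : ∃ t, chk3 f_pm_202_b t 1 1 1 = true :=
  ⟨(b (a (b (a (b (a (b (a (b (l 16875560) (l 16918344)) (l 17104008)) (a (l 17306016) (l 17542768))) (b (b (l 17401608) (l 17601464)) (l 17824208))) (a (b (b (l 17659768) (l 17742536)) (l 17796072)) (l 17965904))) (b (b (l 18030960) (l 18159488)) (l 18142360))) (b (a (l 17914400) (l 18050776)) (l 17918088))) (b (b (a (b (l 18352064) (l 18315216)) (l 3)) (l 38825559223)) (a (l 51173037911) (l 2)))) (b (a (b (l 17816768) (l 60232563655)) (l 2)) (l 2))), by decide +kernel⟩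

theorem c_pm_202_b : CertF 1239849684 370763052 1073741824 536870912 134217728 67108864 false true false .pp 2 0 2
    ndF2q2b ndF3q2 pcF0 Cut.none Ext.none :=
  certF1 (fam := false) (s1 := true) (s2 := false) (a := 2) (b := 0) (c := 2) (cn := .pp) (n1 := ndF2q2b) (n2 := ndF3q2) (pc := pcF0) (cut := Cut.none) (xt := Ext.none) (P1 := 1239849684) (W1 := 370763052) (P2 := 1073741824) (W2 := 536870912) (P3 := 134217728) (W3 := 67108864)
    rfl (fun _ => rfl) k0_pm_202_b

noncomputable def f_pm_203_a : ℕ → ℕ → ℕ → ℕ → Bool := onCell 0 536870912 0 1230186008 134217728 67108864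
    (rowF 0 false true false .up 2 0 3 (qsf 0 536870912 0 1230186008 0) ndF2q2a ndF3q3 pcF0 Cut.none Ext.none)

def k0_pm_203_a : ∃ t, chk3 f_pm_203_a t 1 1 1 = true :=
  ⟨(b (l 2) (b (l 2) (b (a (b (l 2) (l 17537336)) (l 2)) (a (b (l 17654360) (l 17770952)) (a (b (l 17684320) (l 17779120)) (b (l 17714520) (l 17787400))))))), by decide +kernel⟩

theorem c_pm_203_a : CertF 0 536870912 0 1230186008 134217728 67108864 false true false .up 2 0 3
    ndF2q2a ndF3q3 pcF0 Cut.none Ext.none :=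
  certF0 (fam := false) (s1 := true) (s2 := false) (a := 2) (b := 0) (c := 3) (cn := .up) (n1 := ndF2q2a) (n2 := ndF3q3) (pc := pcF0) (cut := Cut.none) (xt := Ext.none) (P1 := 0) (W1 := 536870912) (P2 := 0) (W2 := 1230186008) (P3 := 134217728) (W3 := 67108864)
    rfl k0_pm_203_a

noncomputable def f_pm_203_b : ℕ → ℕ → ℕ → ℕ → Bool := onCell 1239849684 370763052 0 1230186008 134217728 67108864
    (rowF 0 false true false .up 2 0 3 (qsf 1239849684 370763052 0 1230186008 0) ndF2q2b ndF3q3 pcF0 Cut.none Ext.none)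

def k0_pm_203_b : ∃ t, chk3 f_pm_203_b t 1 1 1 = true :=
  ⟨(b (l 3) (b (a (l 3) (l 3)) (a (b (a (b (l 3) (l 17548264)) (l 3)) (a (b (l 17673072) (l 17804816)) (b (l 3) (l 17903776)))) (b (l 3) (l 3))))), by decide +kernel⟩

theorem c_pm_203_b : CertF 1239849684 370763052 0 1230186008 134217728 67108864 false true false .up 2 0 3
    ndF2q2b ndF3q3 pcF0 Cut.none Ext.none :=
  certF0 (fam := false) (s1 := true) (s2 := false) (a := 2) (b := 0) (c := 3) (cn := .up) (n1 := ndF2q2b) (n2 := ndF3q3) (pc := pcF0) (cut := Cut.none) (xt := Ext.none) (P1 := 1239849684) (W1 := 370763052) (P2 := 0) (W2 := 1230186008) (P3 := 134217728) (W3 := 67108864)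
    rfl k0_pm_203_b

noncomputable def cut_pm_213_a : Cut := Cut.of [[⟨0, 1, 0, 39843005⟩, ⟨1, 1, 0, 39843005⟩, ⟨2, 2, 0, 5814905⟩]]

noncomputable def f_pm_213_a : ℕ → ℕ → ℕ → ℕ → Bool := onCell 0 536870912 0 1230186008 134217728 67108864
    (rowF 0 false true false .pnn 2 1 3 (qsf 0 536870912 0 1230186008 1) ndF2q2a ndF3q3 pcF1 cut_pm_213_a Ext.none)

def k0_pm_213_a : ∃ t, chk3 f_pm_213_a t 1 1 1 = true :=
  ⟨(b (a (b (l 3) (l 3)) (b (a (l 3) (b (a (l 3) (a (l 3) (b (l 6) (l 16834080)))) (a (l 3) (b (l 16872288) (l 16829448))))) (a (b (l 3) (l 279341301735)) (b (a (l 16986976) (l 16979488)) (a (l 16964848) (l 16959192)))))) (b (a (b (l 3) (l 309406946807)) (b (a (b (l 17072992) (l 17144328)) (a (l 17128288) (l 17075856))) (a (b (l 17222912) (l 17302120)) (b (l 17188544) (l 17269488))))) (b (a (b (l 17413824) (l 17492064)) (a (b (l 17378296) (l 17444160)) (b (l 17348264) (l 17421232)))) (a (b (l 17600848) (l 1)) (a (b (l 17499848) (l 1)) (b (l 17479560) (l 17519936))))))),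 by decide +kernel⟩

theorem c_pm_213_a : CertF 0 536870912 0 1230186008 134217728 67108864 false true false .pnn 2 1 3
    ndF2q2a ndF3q3 pcF1 cut_pm_213_a Ext.none :=
  certF0 (fam := false) (s1 := true) (s2 := false) (a := 2) (b := 1) (c := 3) (cn := .pnn) (n1 := ndF2q2a) (n2 := ndF3q3) (pc := pcF1) (cut := cut_pm_213_a) (xt := Ext.none) (P1 := 0) (W1 := 536870912) (P2 := 0) (W2 := 1230186008) (P3 := 134217728) (W3 := 67108864)
    rfl k0_pm_213_a

noncomputable def cut_pm_213_b : Cut := Cut.of [[⟨0, 1, 0, 39843005⟩, ⟨1, 1, 0, 39843005⟩, ⟨2, 2, 0, 5814905⟩]]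

noncomputable def f_pm_213_b : ℕ → ℕ → ℕ → ℕ → Bool := onCell 1239849684 370763052 0 1230186008 134217728 67108864
    (rowF 0 false true false .pnn 2 1 3 (qsf 1239849684 370763052 0 1230186008 1) ndF2q2b ndF3q3 pcF1 cut_pm_213_b Ext.none)

def k0_pm_213_b : ∃ t, chk3 f_pm_213_b t 1 1 1 = true :=
  ⟨(b (l 3) (b (a (l 3) (l 3)) (a (b (a (b (l 3) (l 17755824)) (l 1)) (l 1)) (l 1)))), by decide +kernel⟩

theorem c_pm_213_b : CertF 1239849684 370763052 0 1230186008 134217728 67108864 false true false .pnn 2 1 3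
    ndF2q2b ndF3q3 pcF1 cut_pm_213_b Ext.none :=
  certF0 (fam := false) (s1 := true) (s2 := false) (a := 2) (b := 1) (c := 3) (cn := .pnn) (n1 := ndF2q2b) (n2 := ndF3q3) (pc := pcF1) (cut := cut_pm_213_b) (xt := Ext.none) (P1 := 1239849684) (W1 := 370763052) (P2 := 0) (W2 := 1230186008) (P3 := 134217728) (W3 := 67108864)
    rfl k0_pm_213_b

noncomputable def f_pm_303 : ℕ → ℕ → ℕ → ℕ → Bool := onCell 1610612736 536870912 0 1230186008 134217728 67108864
    (rowF 0 false true false .npn 3 0 3 (qsf 1610612736 536870912 0 1230186008 0) ndF2q3 ndF3q3 pcF0 Cut.none Ext.none)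

def k0_pm_303 : ∃ t, chk3 f_pm_303 t 1 1 1 = true :=
  ⟨(b (l 3) (b (l 3) (a (l 3) (l 1)))), by decide +kernel⟩

theorem c_pm_303 : CertF 1610612736 536870912 0 1230186008 134217728 67108864 false true false .npn 3 0 3
    ndF2q3 ndF3q3 pcF0 Cut.none Ext.none :=
  certF0 (fam := false) (s1 := true) (s2 := false) (a := 3) (b := 0) (c := 3) (cn := .npn) (n1 := ndF2q3) (n2 := ndF3q3) (pc := pcF0) (cut := Cut.none) (xt := Ext.none) (P1 := 1610612736) (W1 := 536870912) (P2 := 0) (W2 := 1230186008) (P3 := 134217728) (W3 := 67108864)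
    rfl k0_pm_303

noncomputable def f_pm_313 : ℕ → ℕ → ℕ → ℕ → Bool := onCell 1610612736 536870912 0 1230186008 134217728 67108864
    (rowF 0 false true false .dn 3 1 3 (qsf 1610612736 536870912 0 1230186008 1) ndF2q3 ndF3q3 pcF1 Cut.none Ext.none)

def k0_pm_313 : ∃ t, chk3 f_pm_313 t 1 1 1 = true :=
  ⟨(b (l 3) (l 1)), by decide +kernel⟩

theorem c_pm_313 : CertF 1610612736 536870912 0 1230186008 134217728 67108864 false true false .dn 3 1 3
    ndF2q3 ndF3q3 pcF1 Cut.none Ext.none :=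
  certF0 (fam := false) (s1 := true) (s2 := false) (a := 3) (b := 1) (c := 3) (cn := .dn) (n1 := ndF2q3) (n2 := ndF3q3) (pc := pcF1) (cut := Cut.none) (xt := Ext.none) (P1 := 1610612736) (W1 := 536870912) (P2 := 0) (W2 := 1230186008) (P3 := 134217728) (W3 := 67108864)
    rfl k0_pm_313

noncomputable def f_mm_001 : ℕ → ℕ → ℕ → ℕ → Bool := onCell 0 536870912 0 536870912 134217728 67108864
    (rowF 1 false false false .up 0 0 1 (qsf 0 536870912 536870912 536870912 0) ndF2q0 ndF3q1 pcF0 Cut.none Ext.none)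

def k0_mm_001 : ∃ t, chk3 f_mm_001 t 1 1 1 = true :=
  ⟨(l 3), by decide +kernel⟩

theorem c_mm_001 : CertF 0 536870912 536870912 536870912 134217728 67108864 false false false .up 0 0 1
    ndF2q0 ndF3q1 pcF0 Cut.none Ext.none :=
  certF1 (fam := false) (s1 := false) (s2 := false) (a := 0) (b := 0) (c := 1) (cn := .up) (n1 := ndF2q0) (n2 := ndF3q1) (pc := pcF0) (cut := Cut.none) (xt := Ext.none) (P1 := 0) (W1 := 536870912) (P2 := 536870912) (W2 := 536870912) (P3 := 134217728) (W3 := 67108864)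
    rfl (fun _ => rfl) k0_mm_001

noncomputable def f_mm_011 : ℕ → ℕ → ℕ → ℕ → Bool := onCell 0 536870912 536870912 536870912 134217728 67108864
    (rowF 1 false false false .pnn 0 1 1 (qsf 0 536870912 536870912 536870912 1) ndF2q0 ndF3q1 pcF1 Cut.none Ext.none)

def k0_mm_011 : ∃ t, chk3 f_mm_011 t 1 1 1 = true :=
  ⟨(l 5), by decide +kernel⟩

theorem c_mm_011 : CertF 0 536870912 536870912 536870912 134217728 67108864 false false false .pnn 0 1 1
    ndF2q0 ndF3q1 pcF1 Cut.none Ext.none :=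
  certF1 (fam := false) (s1 := false) (s2 := false) (a := 0) (b := 1) (c := 1) (cn := .pnn) (n1 := ndF2q0) (n2 := ndF3q1) (pc := pcF1) (cut := Cut.none) (xt := Ext.none) (P1 := 0) (W1 := 536870912) (P2 := 536870912) (W2 := 536870912) (P3 := 134217728) (W3 := 67108864)
    rfl (fun _ => rfl) k0_mm_011

noncomputable def f_mm_012 : ℕ → ℕ → ℕ → ℕ → Bool := onCell 0 536870912 1073741824 536870912 134217728 67108864
    (rowF 0 false false false .pnp 0 1 2 (qsf 0 536870912 1073741824 536870912 1) ndF2q0 ndF3q2 pcF1 Cut.none Ext.none)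

def k0_mm_012 : ∃ t, chk3 f_mm_012 t 1 1 1 = true :=
  ⟨(l 5), by decide +kernel⟩

theorem c_mm_012 : CertF 0 536870912 1073741824 536870912 134217728 67108864 false false false .pnp 0 1 2
    ndF2q0 ndF3q2 pcF1 Cut.none Ext.none :=
  certF0 (fam := false) (s1 := false) (s2 := false) (a := 0) (b := 1) (c := 2) (cn := .pnp) (n1 := ndF2q0) (n2 := ndF3q2) (pc := pcF1) (cut := Cut.none) (xt := Ext.none) (P1 := 0) (W1 := 536870912) (P2 := 1073741824) (W2 := 536870912) (P3 := 134217728) (W3 := 67108864)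
    rfl k0_mm_012

noncomputable def f_mm_022 : ℕ → ℕ → ℕ → ℕ → Bool := onCell 0 536870912 1073741824 536870912 134217728 67108864
    (rowF 0 false false false .pp 0 2 2 (qsf 0 536870912 1073741824 536870912 2) ndF2q0 ndF3q2 pcF2 Cut.none Ext.none)

def k0_mm_022 : ∃ t, chk3 f_mm_022 t 1 1 1 = true :=
  ⟨(l 5), by decide +kernel⟩

theorem c_mm_022 : CertF 0 536870912 1073741824 536870912 134217728 67108864 false false false .pp 0 2 2
    ndF2q0 ndF3q2 pcF2 Cut.none Ext.none :=
  certF0 (fam := false) (s1 := false) (s2 := false) (a := 0) (b := 2) (c := 2) (cn := .pp) (n1 := ndF2q0) (n2 := ndF3q2) (pc := pcF2) (cut := Cut.none) (xt := Ext.none) (P1 := 0) (W1 := 536870912) (P2 := 1073741824) (W2 := 536870912) (P3 := 134217728) (W3 := 67108864)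
    rfl k0_mm_022

noncomputable def f_mm_023 : ℕ → ℕ → ℕ → ℕ → Bool := onCell 0 536870912 0 1230186008 134217728 67108864
    (rowF 0 false false false .up 0 2 3 (qsf 0 536870912 0 1230186008 2) ndF2q0 ndF3q3 pcF2 Cut.none Ext.none)

def k0_mm_023 : ∃ t, chk3 f_mm_023 t 1 1 1 = true :=
  ⟨(l 5), by decide +kernel⟩

theorem c_mm_023 : CertF 0 536870912 0 1230186008 134217728 67108864 false false false .up 0 2 3
    ndF2q0 ndF3q3 pcF2 Cut.none Ext.none :=
  certF0 (fam := false) (s1 := false) (s2 := false) (a := 0) (b := 2) (c := 3) (cn := .up) (n1 := ndF2q0) (n2 := ndF3q3) (pc := pcF2) (cut := Cut.none) (xt := Ext.none) (P1 := 0) (W1 := 536870912) (P2 := 0) (W2 := 1230186008) (P3 := 134217728) (W3 := 67108864)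
    rfl k0_mm_023

noncomputable def f_mm_033 : ℕ → ℕ → ℕ → ℕ → Bool := onCell 0 536870912 0 1230186008 134217728 67108864
    (rowF 0 false false false .pnn 0 3 3 (qsf 0 536870912 0 1230186008 3) ndF2q0 ndF3q3 pcF3 Cut.none Ext.none)

def k0_mm_033 : ∃ t, chk3 f_mm_033 t 1 1 1 = true :=
  ⟨(l 5), by decide +kernel⟩

theorem c_mm_033 : CertF 0 536870912 0 1230186008 134217728 67108864 false false false .pnn 0 3 3
    ndF2q0 ndF3q3 pcF3 Cut.none Ext.none :=
  certF0 (fam := false) (s1 := false) (s2 := false) (a := 0) (b := 3) (c := 3) (cn := .pnn) (n1 := ndF2q0) (n2 := ndF3q3) (pc := pcF3) (cut := Cut.none) (xt := Ext.none) (P1 := 0) (W1 := 536870912) (P2 := 0) (W2 := 1230186008) (P3 := 134217728) (W3 := 67108864)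
    rfl k0_mm_033

noncomputable def f_mm_101 : ℕ → ℕ → ℕ → ℕ → Bool := onCell 536870912 536870912 536870912 536870912 134217728 67108864
    (rowF 0 false false false .npn 1 0 1 (qsf 536870912 536870912 536870912 536870912 0) ndF2q1 ndF3q1 pcF0 Cut.none Ext.none)

def k0_mm_101 : ∃ t, chk3 f_mm_101 t 1 1 1 = true :=
  ⟨(l 3), by decide +kernel⟩

theorem c_mm_101 : CertF 536870912 536870912 536870912 536870912 134217728 67108864 false false false .npn 1 0 1
    ndF2q1 ndF3q1 pcF0 Cut.none Ext.none :=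
  certF0 (fam := false) (s1 := false) (s2 := false) (a := 1) (b := 0) (c := 1) (cn := .npn) (n1 := ndF2q1) (n2 := ndF3q1) (pc := pcF0) (cut := Cut.none) (xt := Ext.none) (P1 := 536870912) (W1 := 536870912) (P2 := 536870912) (W2 := 536870912) (P3 := 134217728) (W3 := 67108864)
    rfl k0_mm_101

noncomputable def f_mm_102 : ℕ → ℕ → ℕ → ℕ → Bool := onCell 536870912 536870912 1073741824 536870912 134217728 67108864
    (rowF 0 false false false .npp 1 0 2 (qsf 536870912 536870912 1073741824 536870912 0) ndF2q1 ndF3q2 pcF0 Cut.none Ext.none)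

def k0_mm_102 : ∃ t, chk3 f_mm_102 t 1 1 1 = true :=
  ⟨(l 5), by decide +kernel⟩

theorem c_mm_102 : CertF 536870912 536870912 1073741824 536870912 134217728 67108864 false false false .npp 1 0 2
    ndF2q1 ndF3q2 pcF0 Cut.none Ext.none :=
  certF0 (fam := false) (s1 := false) (s2 := false) (a := 1) (b := 0) (c := 2) (cn := .npp) (n1 := ndF2q1) (n2 := ndF3q2) (pc := pcF0) (cut := Cut.none) (xt := Ext.none) (P1 := 536870912) (W1 := 536870912) (P2 := 1073741824) (W2 := 536870912) (P3 := 134217728) (W3 := 67108864)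
    rfl k0_mm_102

noncomputable def f_mm_112 : ℕ → ℕ → ℕ → ℕ → Bool := onCell 536870912 536870912 1073741824 536870912 134217728 67108864
    (rowF 0 false false false .dn 1 1 2 (qsf 536870912 536870912 1073741824 536870912 1) ndF2q1 ndF3q2 pcF1 Cut.none Ext.none)

def k0_mm_112 : ∃ t, chk3 f_mm_112 t 1 1 1 = true :=
  ⟨(l 5), by decide +kernel⟩

theorem c_mm_112 : CertF 536870912 536870912 1073741824 536870912 134217728 67108864 false false false .dn 1 1 2
    ndF2q1 ndF3q2 pcF1 Cut.none Ext.none :=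
  certF0 (fam := false) (s1 := false) (s2 := false) (a := 1) (b := 1) (c := 2) (cn := .dn) (n1 := ndF2q1) (n2 := ndF3q2) (pc := pcF1) (cut := Cut.none) (xt := Ext.none) (P1 := 536870912) (W1 := 536870912) (P2 := 1073741824) (W2 := 536870912) (P3 := 134217728) (W3 := 67108864)
    rfl k0_mm_112

noncomputable def f_mm_113 : ℕ → ℕ → ℕ → ℕ → Bool := onCell 536870912 536870912 0 1230186008 134217728 67108864
    (rowF 0 false false false .nn 1 1 3 (qsf 536870912 536870912 0 1230186008 1) ndF2q1 ndF3q3 pcF1 Cut.none Ext.none)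

def k0_mm_113 : ∃ t, chk3 f_mm_113 t 1 1 1 = true :=
  ⟨(l 5), by decide +kernel⟩

theorem c_mm_113 : CertF 536870912 536870912 0 1230186008 134217728 67108864 false false false .nn 1 1 3
    ndF2q1 ndF3q3 pcF1 Cut.none Ext.none :=
  certF0 (fam := false) (s1 := false) (s2 := false) (a := 1) (b := 1) (c := 3) (cn := .nn) (n1 := ndF2q1) (n2 := ndF3q3) (pc := pcF1) (cut := Cut.none) (xt := Ext.none) (P1 := 536870912) (W1 := 536870912) (P2 := 0) (W2 := 1230186008) (P3 := 134217728) (W3 := 67108864)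
    rfl k0_mm_113

noncomputable def f_mm_123 : ℕ → ℕ → ℕ → ℕ → Bool := onCell 536870912 536870912 0 1230186008 134217728 67108864
    (rowF 0 false false false .npn 1 2 3 (qsf 536870912 536870912 0 1230186008 2) ndF2q1 ndF3q3 pcF2 Cut.none Ext.none)

def k0_mm_123 : ∃ t, chk3 f_mm_123 t 1 1 1 = true :=
  ⟨(l 5), by decide +kernel⟩

theorem c_mm_123 : CertF 536870912 536870912 0 1230186008 134217728 67108864 false false false .npn 1 2 3
    ndF2q1 ndF3q3 pcF2 Cut.none Ext.none :=
  certF0 (fam := false) (s1 := false) (s2 := false) (a := 1) (b := 2) (c := 3) (cn := .npn) (n1 := ndF2q1) (n2 := ndF3q3) (pc := pcF2) (cut := Cut.none) (xt := Ext.none) (P1 := 536870912) (W1 := 536870912) (P2 := 0) (W2 := 1230186008) (P3 := 134217728) (W3 := 67108864)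
    rfl k0_mm_123

noncomputable def f_mm_133 : ℕ → ℕ → ℕ → ℕ → Bool := onCell 536870912 536870912 0 1230186008 134217728 67108864
    (rowF 0 false false false .dn 1 3 3 (qsf 536870912 536870912 0 1230186008 3) ndF2q1 ndF3q3 pcF3 Cut.none Ext.none)

def k0_mm_133 : ∃ t, chk3 f_mm_133 t 1 1 1 = true :=
  ⟨(l 5), by decide +kernel⟩

theorem c_mm_133 : CertF 536870912 536870912 0 1230186008 134217728 67108864 false false false .dn 1 3 3
    ndF2q1 ndF3q3 pcF3 Cut.none Ext.none :=
  certF0 (fam := false) (s1 := false) (s2 := false) (a := 1) (b := 3) (c := 3) (cn := .dn) (n1 := ndF2q1) (n2 := ndF3q3) (pc := pcF3) (cut := Cut.none) (xt := Ext.none) (P1 := 536870912) (W1 := 536870912) (P2 := 0) (W2 := 1230186008) (P3 := 134217728) (W3 := 67108864)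
    rfl k0_mm_133

noncomputable def f_mm_202_a : ℕ → ℕ → ℕ → ℕ → Bool := onCell 0 536870912 1073741824 536870912 134217728 67108864
    (rowF 0 false false false .pp 2 0 2 (qsf 0 536870912 1073741824 536870912 0) ndF2q2a ndF3q2 pcF0 Cut.none Ext.none)

def k0_mm_202_a : ∃ t, chk3 f_mm_202_a t 1 1 1 = true :=
  ⟨(l 3), by decide +kernel⟩

theorem c_mm_202_a : CertF 0 536870912 1073741824 536870912 134217728 67108864 false false false .pp 2 0 2
    ndF2q2a ndF3q2 pcF0 Cut.none Ext.none :=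
  certF0 (fam := false) (s1 := false) (s2 := false) (a := 2) (b := 0) (c := 2) (cn := .pp) (n1 := ndF2q2a) (n2 := ndF3q2) (pc := pcF0) (cut := Cut.none) (xt := Ext.none) (P1 := 0) (W1 := 536870912) (P2 := 1073741824) (W2 := 536870912) (P3 := 134217728) (W3 := 67108864)
    rfl k0_mm_202_a

noncomputable def f_mm_202_b : ℕ → ℕ → ℕ → ℕ → Bool := onCell 1239849684 370763052 1073741824 536870912 134217728 67108864
    (rowF 0 false false false .pp 2 0 2 (qsf 1239849684 370763052 1073741824 536870912 0) ndF2q2b ndF3q2 pcF0 Cut.none Ext.none)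

def k0_mm_202_b : ∃ t, chk3 f_mm_202_b t 1 1 1 = true :=
  ⟨(l 3), by decide +kernel⟩

theorem c_mm_202_b : CertF 1239849684 370763052 1073741824 536870912 134217728 67108864 false false false .pp 2 0 2
    ndF2q2b ndF3q2 pcF0 Cut.none Ext.none :=
  certF0 (fam := false) (s1 := false) (s2 := false) (a := 2) (b := 0) (c := 2) (cn := .pp) (n1 := ndF2q2b) (n2 := ndF3q2) (pc := pcF0) (cut := Cut.none) (xt := Ext.none) (P1 := 1239849684) (W1 := 370763052) (P2 := 1073741824) (W2 := 536870912) (P3 := 134217728) (W3 := 67108864)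
    rfl k0_mm_202_b

noncomputable def f_mm_203_a : ℕ → ℕ → ℕ → ℕ → Bool := onCell 0 536870912 0 1230186008 134217728 67108864
    (rowF 0 false false false .up 2 0 3 (qsf 0 536870912 0 1230186008 0) ndF2q2a ndF3q3 pcF0 Cut.none Ext.none)

def k0_mm_203_a : ∃ t, chk3 f_mm_203_a t 1 1 1 = true :=
  ⟨(b (l 2) (l 3)), by decide +kernel⟩

theorem c_mm_203_a : CertF 0 536870912 0 1230186008 134217728 67108864 false false false .up 2 0 3
    ndF2q2a ndF3q3 pcF0 Cut.none Ext.none :=
  certF0 (fam := false) (s1 := false) (s2 := false) (a := 2) (b := 0) (c := 3) (cn := .up) (n1 := ndF2q2a) (n2 := ndF3q3) (pc := pcF0) (cut := Cut.none) (xt := Ext.none) (P1 := 0) (W1 := 536870912) (P2 := 0) (W2 := 1230186008) (P3 := 134217728) (W3 := 67108864)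
    rfl k0_mm_203_a

noncomputable def f_mm_203_b : ℕ → ℕ → ℕ → ℕ → Bool := onCell 1239849684 370763052 0 1230186008 134217728 67108864
    (rowF 0 false false false .up 2 0 3 (qsf 1239849684 370763052 0 1230186008 0) ndF2q2b ndF3q3 pcF0 Cut.none Ext.none)

def k0_mm_203_b : ∃ t, chk3 f_mm_203_b t 1 1 1 = true :=
  ⟨(b (l 3) (l 3)), by decide +kernel⟩

theorem c_mm_203_b : CertF 1239849684 370763052 0 1230186008 134217728 67108864 false false false .up 2 0 3
    ndF2q2b ndF3q3 pcF0 Cut.none Ext.none :=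
  certF0 (fam := false) (s1 := false) (s2 := false) (a := 2) (b := 0) (c := 3) (cn := .up) (n1 := ndF2q2b) (n2 := ndF3q3) (pc := pcF0) (cut := Cut.none) (xt := Ext.none) (P1 := 1239849684) (W1 := 370763052) (P2 := 0) (W2 := 1230186008) (P3 := 134217728) (W3 := 67108864)
    rfl k0_mm_203_b

noncomputable def f_mm_213_a : ℕ → ℕ → ℕ → ℕ → Bool := onCell 0 536870912 0 1230186008 134217728 67108864
    (rowF 0 false false false .pnn 2 1 3 (qsf 0 536870912 0 1230186008 1) ndF2q2a ndF3q3 pcF1 Cut.none Ext.none)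

def k0_mm_213_a : ∃ t, chk3 f_mm_213_a t 1 1 1 = true :=
  ⟨(b (l 5) (l 3)), by decide +kernel⟩

theorem c_mm_213_a : CertF 0 536870912 0 1230186008 134217728 67108864 false false false .pnn 2 1 3
    ndF2q2a ndF3q3 pcF1 Cut.none Ext.none :=
  certF0 (fam := false) (s1 := false) (s2 := false) (a := 2) (b := 1) (c := 3) (cn := .pnn) (n1 := ndF2q2a) (n2 := ndF3q3) (pc := pcF1) (cut := Cut.none) (xt := Ext.none) (P1 := 0) (W1 := 536870912) (P2 := 0) (W2 := 1230186008) (P3 := 134217728) (W3 := 67108864)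
    rfl k0_mm_213_a

noncomputable def f_mm_213_b : ℕ → ℕ → ℕ → ℕ → Bool := onCell 1239849684 370763052 0 1230186008 134217728 67108864
    (rowF 0 false false false .pnn 2 1 3 (qsf 1239849684 370763052 0 1230186008 1) ndF2q2b ndF3q3 pcF1 Cut.none Ext.none)

def k0_mm_213_b : ∃ t, chk3 f_mm_213_b t 1 1 1 = true :=
  ⟨(b (l 3) (l 3)), by decide +kernel⟩

theorem c_mm_213_b : CertF 1239849684 370763052 0 1230186008 134217728 67108864 false false false .pnn 2 1 3
    ndF2q2b ndF3q3 pcF1 Cut.none Ext.none :=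
  certF0 (fam := false) (s1 := false) (s2 := false) (a := 2) (b := 1) (c := 3) (cn := .pnn) (n1 := ndF2q2b) (n2 := ndF3q3) (pc := pcF1) (cut := Cut.none) (xt := Ext.none) (P1 := 1239849684) (W1 := 370763052) (P2 := 0) (W2 := 1230186008) (P3 := 134217728) (W3 := 67108864)
    rfl k0_mm_213_b

noncomputable def f_mm_303 : ℕ → ℕ → ℕ → ℕ → Bool := onCell 1610612736 536870912 0 1230186008 134217728 67108864
    (rowF 0 false false false .npn 3 0 3 (qsf 1610612736 536870912 0 1230186008 0) ndF2q3 ndF3q3 pcF0 Cut.none Ext.none)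

def k0_mm_303 : ∃ t, chk3 f_mm_303 t 1 1 1 = true :=
  ⟨(b (l 3) (l 3)), by decide +kernel⟩

theorem c_mm_303 : CertF 1610612736 536870912 0 1230186008 134217728 67108864 false false false .npn 3 0 3
    ndF2q3 ndF3q3 pcF0 Cut.none Ext.none :=
  certF0 (fam := false) (s1 := false) (s2 := false) (a := 3) (b := 0) (c := 3) (cn := .npn) (n1 := ndF2q3) (n2 := ndF3q3) (pc := pcF0) (cut := Cut.none) (xt := Ext.none) (P1 := 1610612736) (W1 := 536870912) (P2 := 0) (W2 := 1230186008) (P3 := 134217728) (W3 := 67108864)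
    rfl k0_mm_303

noncomputable def f_mm_313 : ℕ → ℕ → ℕ → ℕ → Bool := onCell 1610612736 536870912 0 1230186008 134217728 67108864
    (rowF 0 false false false .dn 3 1 3 (qsf 1610612736 536870912 0 1230186008 1) ndF2q3 ndF3q3 pcF1 Cut.none Ext.none)

def k0_mm_313 : ∃ t, chk3 f_mm_313 t 1 1 1 = true :=
  ⟨(b (l 3) (l 1)), by decide +kernel⟩

theorem c_mm_313 : CertF 1610612736 536870912 0 1230186008 134217728 67108864 false false false .dn 3 1 3
    ndF2q3 ndF3q3 pcF1 Cut.none Ext.none :=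
  certF0 (fam := false) (s1 := false) (s2 := false) (a := 3) (b := 1) (c := 3) (cn := .dn) (n1 := ndF2q3) (n2 := ndF3q3) (pc := pcF1) (cut := Cut.none) (xt := Ext.none) (P1 := 1610612736) (W1 := 536870912) (P2 := 0) (W2 := 1230186008) (P3 := 134217728) (W3 := 67108864)
    rfl k0_mm_313

end Pool.Agent.Strip051.G.I1_8_3_16.Tab.C.FB23

namespace Pool.Agent.Strip051.G.I1_8_3_16.Tab.C.FB24

open Pool.Agent.Strip051.PB Pool.Agent.Strip051.PB.T
open Pool.Agent.Strip051.G.I1_8_3_16.Tab

noncomputable def f_pp_001 : ℕ → ℕ → ℕ → ℕ → Bool := onCell 0 536870912 0 536870912 134217728 67108864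
    (rowF 1 false true true .up 0 0 1 (qsf 0 536870912 536870912 536870912 0) ndF2q0 ndF4q1 pcF0 Cut.none Ext.none)

def k0_pp_001 : ∃ t, chk3 f_pp_001 t 1 1 1 = true :=
  ⟨(l 3), by decide +kernel⟩

theorem c_pp_001 : CertF 0 536870912 536870912 536870912 134217728 67108864 false true true .up 0 0 1
    ndF2q0 ndF4q1 pcF0 Cut.none Ext.none :=
  certF1 (fam := false) (s1 := true) (s2 := true) (a := 0) (b := 0) (c := 1) (cn := .up) (n1 := ndF2q0) (n2 := ndF4q1) (pc := pcF0) (cut := Cut.none) (xt := Ext.none) (P1 := 0) (W1 := 536870912) (P2 := 536870912) (W2 := 536870912) (P3 := 134217728) (W3 := 67108864)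
    rfl (fun _ => rfl) k0_pp_001

noncomputable def cut_pp_011 : Cut := Cut.of [[⟨0, 0, 0, 67108864⟩, ⟨1, 1, 0, 67108864⟩, ⟨2, 1, 0, 67108864⟩]]

noncomputable def f_pp_011 : ℕ → ℕ → ℕ → ℕ → Bool := onCell 0 536870912 536870912 536870912 134217728 67108864
    (rowF 1 false true true .pnn 0 1 1 (qsf 0 536870912 536870912 536870912 1) ndF2q0 ndF4q1 pcF1 cut_pp_011 Ext.none)

def k0_pp_011 : ∃ t, chk3 f_pp_011 t 1 1 1 = true :=
  ⟨(b (l 3) (b (l 3) (a (a (a (a (b (l 3) (b (l 3) (l 6))) (l 3)) (l 3)) (l 3)) (l 2)))), by decide +kernel⟩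

theorem c_pp_011 : CertF 0 536870912 536870912 536870912 134217728 67108864 false true true .pnn 0 1 1
    ndF2q0 ndF4q1 pcF1 cut_pp_011 Ext.none :=
  certF1 (fam := false) (s1 := true) (s2 := true) (a := 0) (b := 1) (c := 1) (cn := .pnn) (n1 := ndF2q0) (n2 := ndF4q1) (pc := pcF1) (cut := cut_pp_011) (xt := Ext.none) (P1 := 0) (W1 := 536870912) (P2 := 536870912) (W2 := 536870912) (P3 := 134217728) (W3 := 67108864)
    rfl (fun _ => rfl) k0_pp_011

noncomputable def f_pp_012 : ℕ → ℕ → ℕ → ℕ → Bool := onCell 0 536870912 536870912 536870912 134217728 67108864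
    (rowF 1 false true true .pnp 0 1 2 (qsf 0 536870912 1073741824 536870912 1) ndF2q0 ndF4q2 pcF1 Cut.none Ext.none)

def k0_pp_012 : ∃ t, chk3 f_pp_012 t 1 1 1 = true :=
  ⟨(b (l 3) (b (l 3) (a (l 3) (a (l 3) (l 304037919991))))), by decide +kernel⟩

theorem c_pp_012 : CertF 0 536870912 1073741824 536870912 134217728 67108864 false true true .pnp 0 1 2
    ndF2q0 ndF4q2 pcF1 Cut.none Ext.none :=
  certF1 (fam := false) (s1 := true) (s2 := true) (a := 0) (b := 1) (c := 2) (cn := .pnp) (n1 := ndF2q0) (n2 := ndF4q2) (pc := pcF1) (cut := Cut.none) (xt := Ext.none) (P1 := 0) (W1 := 536870912) (P2 := 1073741824) (W2 := 536870912) (P3 := 134217728) (W3 := 67108864)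
    rfl (fun _ => rfl) k0_pp_012

noncomputable def f_pp_022 : ℕ → ℕ → ℕ → ℕ → Bool := onCell 0 536870912 1073741824 536870912 134217728 67108864
    (rowF 1 false true true .pp 0 2 2 (qsf 0 536870912 1073741824 536870912 2) ndF2q0 ndF4q2 pcF2 Cut.none Ext.none)

def k0_pp_022 : ∃ t, chk3 f_pp_022 t 1 1 1 = true :=
  ⟨(a (b (b (b (l 3) (a (l 3) (b (l 3) (l 580527208711)))) (a (b (b (b (l 3) (a (b (l 3) (b (l 3) (a (b (a (c (l 42043805751) (l 16628016)) (l 3)) (a (c (l 17114728) (l 16623976)) (l 16999416))) (b (l 17218320) (l 17240648))))) (b (l 17429416) (b (l 17475304) (b (l 17497864) (l 17512784)))))) (a (a (a (a (c (l 17271632) (l 16668040)) (l 16998952)) (l 17231264)) (l 17416624)) (l 17632584))) (a (a (a (c (l 17893728) (b (l 17192832) (l 17525000))) (l 17713264)) (l 17801480)) (l 17910632))) (b (b (b (l 17644648) (b (l 17697520) (b (l 17726096) (l 17744856)))) (l 17826224)) (l 18010304)))) (a (b (a (a (b (l 18094600) (l 18339336)) (l 18253856)) (l 18262992))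 (a (l 18513296) (l 18471376))) (b (a (l 18262104) (l 18234304)) (l 18396232)))) (b (b (b (a (l 338398175399) (l 17618840)) (a (l 17847880) (b (b (l 17768888) (l 17820320)) (l 17868976)))) (b (b (b (l 17889568) (b (l 17919440) (l 17930480))) (l 17975456)) (a (l 18049616) (l 2)))) (b (a (l 18218560) (l 2)) (l 2)))), by decide +kernel⟩

theorem c_pp_022 : CertF 0 536870912 1073741824 536870912 134217728 67108864 false true true .pp 0 2 2
    ndF2q0 ndF4q2 pcF2 Cut.none Ext.none :=
  certF1 (fam := false) (s1 := true) (s2 := true) (a := 0) (b := 2) (c := 2) (cn := .pp) (n1 := ndF2q0) (n2 := ndF4q2) (pc := pcF2) (cut := Cut.none) (xt := Ext.none) (P1 := 0) (W1 := 536870912) (P2 := 1073741824) (W2 := 536870912) (P3 := 134217728) (W3 := 67108864)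
    rfl (fun _ => rfl) k0_pp_022

noncomputable def f_pp_023 : ℕ → ℕ → ℕ → ℕ → Bool := onCell 1073741824 536870912 0 1230186008 134217728 67108864
    (rowF 2 false true true .up 0 2 3 (qsf 0 536870912 0 1230186008 2) ndF2q0 ndF4q3 pcF2 Cut.none Ext.none)

def k0_pp_023 : ∃ t, chk3 f_pp_023 t 1 1 1 = true :=
  ⟨(b (a (l 2) (a (l 2) (l 18232976))) (b (a (a (l 2) (a (l 2) (l 18319128))) (b (l 18316304) (l 18270912))) (a (a (a (l 18246600) (a (a (l 18258896) (l 18260280)) (b (l 2) (l 18198760)))) (a (a (a (l 18261936) (l 18262240)) (l 18253112)) (l 18434104))) (b (l 18238632) (a (l 18242488) (l 18232904)))))), by decide +kernel⟩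

theorem c_pp_023 : CertF 0 536870912 0 1230186008 134217728 67108864 false true true .up 0 2 3
    ndF2q0 ndF4q3 pcF2 Cut.none Ext.none :=
  certF2 (fam := false) (s1 := true) (s2 := true) (a := 0) (b := 2) (c := 3) (cn := .up) (n1 := ndF2q0) (n2 := ndF4q3) (pc := pcF2) (cut := Cut.none) (xt := Ext.none) (P1 := 0) (W1 := 536870912) (P2 := 0) (W2 := 1230186008) (P3 := 134217728) (W3 := 67108864)
    rfl (fun _ => rfl) k0_pp_023

noncomputable def f_pp_033 : ℕ → ℕ → ℕ → ℕ → Bool := onCell 0 536870912 0 1230186008 134217728 67108864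
    (rowF 0 false true true .pnn 0 3 3 (qsf 0 536870912 0 1230186008 3) ndF2q0 ndF4q3 pcF3 Cut.none Ext.none)

def k0_pp_033 : ∃ t, chk3 f_pp_033 t 1 1 1 = true :=
  ⟨(b (b (a (l 4) (a (l 4) (l 17748696))) (a (a (b (l 4) (a (l 17805560) (l 17809336))) (a (l 17807376) (l 17805664))) (a (a (l 17808272) (l 17818664)) (b (l 18035008) (l 17801400))))) (b (a (a (b (a (l 17768344) (l 17777784)) (l 17786368)) (b (b (l 17799968) (l 17738280)) (l 17778352))) (b (a (l 17691000) (l 17594736)) (l 17673496))) (a (b (l 17887416) (a (l 18054320) (l 18006512))) (l 1)))), by decide +kernel⟩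

theorem c_pp_033 : CertF 0 536870912 0 1230186008 134217728 67108864 false true true .pnn 0 3 3
    ndF2q0 ndF4q3 pcF3 Cut.none Ext.none :=
  certF0 (fam := false) (s1 := true) (s2 := true) (a := 0) (b := 3) (c := 3) (cn := .pnn) (n1 := ndF2q0) (n2 := ndF4q3) (pc := pcF3) (cut := Cut.none) (xt := Ext.none) (P1 := 0) (W1 := 536870912) (P2 := 0) (W2 := 1230186008) (P3 := 134217728) (W3 := 67108864)
    rfl k0_pp_033

noncomputable def f_pp_101 : ℕ → ℕ → ℕ → ℕ → Bool := onCell 536870912 536870912 536870912 536870912 134217728 67108864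
    (rowF 0 false true true .npn 1 0 1 (qsf 536870912 536870912 536870912 536870912 0) ndF2q1 ndF4q1 pcF0 Cut.none Ext.none)

def k0_pp_101 : ∃ t, chk3 f_pp_101 t 1 1 1 = true :=
  ⟨(l 3), by decide +kernel⟩

theorem c_pp_101 : CertF 536870912 536870912 536870912 536870912 134217728 67108864 false true true .npn 1 0 1
    ndF2q1 ndF4q1 pcF0 Cut.none Ext.none :=
  certF0 (fam := false) (s1 := true) (s2 := true) (a := 1) (b := 0) (c := 1) (cn := .npn) (n1 := ndF2q1) (n2 := ndF4q1) (pc := pcF0) (cut := Cut.none) (xt := Ext.none) (P1 := 536870912) (W1 := 536870912) (P2 := 536870912) (W2 := 536870912) (P3 := 134217728) (W3 := 67108864)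
    rfl k0_pp_101

noncomputable def f_pp_102 : ℕ → ℕ → ℕ → ℕ → Bool := onCell 536870912 536870912 0 536870912 134217728 67108864
    (rowF 1 false true true .npp 1 0 2 (qsf 536870912 536870912 1073741824 536870912 0) ndF2q1 ndF4q2 pcF0 Cut.none Ext.none)

def k0_pp_102 : ∃ t, chk3 f_pp_102 t 1 1 1 = true :=
  ⟨(l 3), by decide +kernel⟩

theorem c_pp_102 : CertF 536870912 536870912 1073741824 536870912 134217728 67108864 false true true .npp 1 0 2
    ndF2q1 ndF4q2 pcF0 Cut.none Ext.none :=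
  certF1 (fam := false) (s1 := true) (s2 := true) (a := 1) (b := 0) (c := 2) (cn := .npp) (n1 := ndF2q1) (n2 := ndF4q2) (pc := pcF0) (cut := Cut.none) (xt := Ext.none) (P1 := 536870912) (W1 := 536870912) (P2 := 1073741824) (W2 := 536870912) (P3 := 134217728) (W3 := 67108864)
    rfl (fun _ => rfl) k0_pp_102

noncomputable def f_pp_112 : ℕ → ℕ → ℕ → ℕ → Bool := onCell 536870912 536870912 1073741824 536870912 134217728 67108864
    (rowF 0 false true true .dn 1 1 2 (qsf 536870912 536870912 1073741824 536870912 1) ndF2q1 ndF4q2 pcF1 Cut.none Ext.none)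

def k0_pp_112 : ∃ t, chk3 f_pp_112 t 1 1 1 = true :=
  ⟨(a (b (l 3) (b (l 3) (a (l 273974965255) (l 3)))) (l 3)), by decide +kernel⟩

theorem c_pp_112 : CertF 536870912 536870912 1073741824 536870912 134217728 67108864 false true true .dn 1 1 2
    ndF2q1 ndF4q2 pcF1 Cut.none Ext.none :=
  certF0 (fam := false) (s1 := true) (s2 := true) (a := 1) (b := 1) (c := 2) (cn := .dn) (n1 := ndF2q1) (n2 := ndF4q2) (pc := pcF1) (cut := Cut.none) (xt := Ext.none) (P1 := 536870912) (W1 := 536870912) (P2 := 1073741824) (W2 := 536870912) (P3 := 134217728) (W3 := 67108864)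
    rfl k0_pp_112

noncomputable def f_pp_113 : ℕ → ℕ → ℕ → ℕ → Bool := onCell 536870912 536870912 0 1230186008 134217728 67108864
    (rowF 2 false true true .nn 1 1 3 (qsf 536870912 536870912 0 1230186008 1) ndF2q1 ndF4q3 pcF1 Cut.none Ext.none)

def k0_pp_113 : ∃ t, chk3 f_pp_113 t 1 1 1 = true :=
  ⟨(a (b (l 2) (b (a (l 2) (a (l 2) (l 18453776))) (a (l 3) (b (l 295987250919) (l 3))))) (a (b (l 2) (b (l 17960464) (b (l 17741704) (l 17580048)))) (b (b (a (l 2) (l 17072616)) (l 17553368)) (b (l 17511520) (b (l 17353568) (l 17301352)))))), by decide +kernel⟩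

theorem c_pp_113 : CertF 536870912 536870912 0 1230186008 134217728 67108864 false true true .nn 1 1 3
    ndF2q1 ndF4q3 pcF1 Cut.none Ext.none :=
  certF2 (fam := false) (s1 := true) (s2 := true) (a := 1) (b := 1) (c := 3) (cn := .nn) (n1 := ndF2q1) (n2 := ndF4q3) (pc := pcF1) (cut := Cut.none) (xt := Ext.none) (P1 := 536870912) (W1 := 536870912) (P2 := 0) (W2 := 1230186008) (P3 := 134217728) (W3 := 67108864)
    rfl (fun _ => rfl) k0_pp_113

noncomputable def f_pp_123 : ℕ → ℕ → ℕ → ℕ → Bool := onCell 1073741824 536870912 0 1230186008 134217728 67108864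
    (rowF 2 false true true .npn 1 2 3 (qsf 536870912 536870912 0 1230186008 2) ndF2q1 ndF4q3 pcF2 Cut.none Ext.none)

def k0_pp_123 : ∃ t, chk3 f_pp_123 t 1 1 1 = true :=
  ⟨(b (a (b (a (l 16872944) (l 17029576)) (a (a (l 16993088) (a (l 16896360) (l 16940032))) (a (l 16992096) (l 17046880)))) (a (b (l 17067384) (l 17092704)) (l 17016864))) (b (a (a (a (l 17097344) (a (a (l 17101816) (l 17112704)) (l 17108968))) (a (a (l 17133088) (l 17129176)) (l 17116752))) (b (l 17118832) (l 17078328))) (a (a (a (l 17375656) (a (a (l 17302776) (l 17377424)) (b (l 17225304) (l 17261616)))) (a (a (b (l 17235280) (l 17237664)) (l 17210608)) (l 498787888503))) (l 1)))), by decide +kernel⟩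

theorem c_pp_123 : CertF 536870912 536870912 0 1230186008 134217728 67108864 false true true .npn 1 2 3
    ndF2q1 ndF4q3 pcF2 Cut.none Ext.none :=
  certF2 (fam := false) (s1 := true) (s2 := true) (a := 1) (b := 2) (c := 3) (cn := .npn) (n1 := ndF2q1) (n2 := ndF4q3) (pc := pcF2) (cut := Cut.none) (xt := Ext.none) (P1 := 536870912) (W1 := 536870912) (P2 := 0) (W2 := 1230186008) (P3 := 134217728) (W3 := 67108864)
    rfl (fun _ => rfl) k0_pp_123

noncomputable def f_pp_133 : ℕ → ℕ → ℕ → ℕ → Bool := onCell 1610612736 536870912 0 1230186008 134217728 67108864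
    (rowF 2 false true true .dn 1 3 3 (qsf 536870912 536870912 0 1230186008 3) ndF2q1 ndF4q3 pcF3 Cut.none Ext.none)

def k0_pp_133 : ∃ t, chk3 f_pp_133 t 1 1 1 = true :=
  ⟨(b (a (a (l 908956940023) (l 1)) (l 1)) (l 1)), by decide +kernel⟩

theorem c_pp_133 : CertF 536870912 536870912 0 1230186008 134217728 67108864 false true true .dn 1 3 3
    ndF2q1 ndF4q3 pcF3 Cut.none Ext.none :=
  certF2 (fam := false) (s1 := true) (s2 := true) (a := 1) (b := 3) (c := 3) (cn := .dn) (n1 := ndF2q1) (n2 := ndF4q3) (pc := pcF3) (cut := Cut.none) (xt := Ext.none) (P1 := 536870912) (W1 := 536870912) (P2 := 0) (W2 := 1230186008) (P3 := 134217728) (W3 := 67108864)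
    rfl (fun _ => rfl) k0_pp_133

noncomputable def f_pp_202_a : ℕ → ℕ → ℕ → ℕ → Bool := onCell 0 536870912 1073741824 536870912 134217728 67108864
    (rowF 0 false true true .pp 2 0 2 (qsf 0 536870912 1073741824 536870912 0) ndF2q2a ndF4q2 pcF0 Cut.none Ext.none)

def k0_pp_202_a : ∃ t, chk3 f_pp_202_a t 1 1 1 = true :=
  ⟨(l 3), by decide +kernel⟩

theorem c_pp_202_a : CertF 0 536870912 1073741824 536870912 134217728 67108864 false true true .pp 2 0 2
    ndF2q2a ndF4q2 pcF0 Cut.none Ext.none :=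
  certF0 (fam := false) (s1 := true) (s2 := true) (a := 2) (b := 0) (c := 2) (cn := .pp) (n1 := ndF2q2a) (n2 := ndF4q2) (pc := pcF0) (cut := Cut.none) (xt := Ext.none) (P1 := 0) (W1 := 536870912) (P2 := 1073741824) (W2 := 536870912) (P3 := 134217728) (W3 := 67108864)
    rfl k0_pp_202_a

noncomputable def f_pp_202_b : ℕ → ℕ → ℕ → ℕ → Bool := onCell 1239849684 370763052 1073741824 536870912 134217728 67108864
    (rowF 0 false true true .pp 2 0 2 (qsf 1239849684 370763052 1073741824 536870912 0) ndF2q2b ndF4q2 pcF0 Cut.none Ext.none)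

def k0_pp_202_b : ∃ t, chk3 f_pp_202_b t 1 1 1 = true :=
  ⟨(l 3), by decide +kernel⟩

theorem c_pp_202_b : CertF 1239849684 370763052 1073741824 536870912 134217728 67108864 false true true .pp 2 0 2
    ndF2q2b ndF4q2 pcF0 Cut.none Ext.none :=
  certF0 (fam := false) (s1 := true) (s2 := true) (a := 2) (b := 0) (c := 2) (cn := .pp) (n1 := ndF2q2b) (n2 := ndF4q2) (pc := pcF0) (cut := Cut.none) (xt := Ext.none) (P1 := 1239849684) (W1 := 370763052) (P2 := 1073741824) (W2 := 536870912) (P3 := 134217728) (W3 := 67108864)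
    rfl k0_pp_202_b

noncomputable def f_pp_203_a : ℕ → ℕ → ℕ → ℕ → Bool := onCell 0 536870912 0 1230186008 134217728 67108864
    (rowF 0 false true true .up 2 0 3 (qsf 0 536870912 0 1230186008 0) ndF2q2a ndF4q3 pcF0 Cut.none Ext.none)

def k0_pp_203_a : ∃ t, chk3 f_pp_203_a t 1 1 1 = true :=
  ⟨(b (l 2) (l 3)), by decide +kernel⟩

theorem c_pp_203_a : CertF 0 536870912 0 1230186008 134217728 67108864 false true true .up 2 0 3
    ndF2q2a ndF4q3 pcF0 Cut.none Ext.none :=
  certF0 (fam := false) (s1 := true) (s2 := true) (a := 2) (b := 0) (c := 3) (cn := .up) (n1 := ndF2q2a) (n2 := ndF4q3) (pc := pcF0) (cut := Cut.none) (xt := Ext.none) (P1 := 0) (W1 := 536870912) (P2 := 0) (W2 := 1230186008) (P3 := 134217728) (W3 := 67108864)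
    rfl k0_pp_203_a

noncomputable def f_pp_203_b : ℕ → ℕ → ℕ → ℕ → Bool := onCell 1239849684 370763052 0 1230186008 134217728 67108864
    (rowF 0 false true true .up 2 0 3 (qsf 1239849684 370763052 0 1230186008 0) ndF2q2b ndF4q3 pcF0 Cut.none Ext.none)

def k0_pp_203_b : ∃ t, chk3 f_pp_203_b t 1 1 1 = true :=
  ⟨(b (l 3) (l 3)), by decide +kernel⟩

theorem c_pp_203_b : CertF 1239849684 370763052 0 1230186008 134217728 67108864 false true true .up 2 0 3
    ndF2q2b ndF4q3 pcF0 Cut.none Ext.none :=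
  certF0 (fam := false) (s1 := true) (s2 := true) (a := 2) (b := 0) (c := 3) (cn := .up) (n1 := ndF2q2b) (n2 := ndF4q3) (pc := pcF0) (cut := Cut.none) (xt := Ext.none) (P1 := 1239849684) (W1 := 370763052) (P2 := 0) (W2 := 1230186008) (P3 := 134217728) (W3 := 67108864)
    rfl k0_pp_203_b

noncomputable def cut_pp_213_a : Cut := Cut.of [[⟨0, 1, 0, 39843005⟩, ⟨1, 1, 0, 39843005⟩, ⟨2, 2, 0, 5814905⟩]]

noncomputable def f_pp_213_a : ℕ → ℕ → ℕ → ℕ → Bool := onCell 0 536870912 0 1230186008 134217728 67108864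
    (rowF 0 false true true .pnn 2 1 3 (qsf 0 536870912 0 1230186008 1) ndF2q2a ndF4q3 pcF1 cut_pp_213_a Ext.none)

def k0_pp_213_a : ∃ t, chk3 f_pp_213_a t 1 1 1 = true :=
  ⟨(b (a (l 3) (b (a (l 3) (a (l 3) (a (l 3) (b (b (l 6) (l 3)) (l 3))))) (l 3))) (l 3)), by decide +kernel⟩

theorem c_pp_213_a : CertF 0 536870912 0 1230186008 134217728 67108864 false true true .pnn 2 1 3
    ndF2q2a ndF4q3 pcF1 cut_pp_213_a Ext.none :=
  certF0 (fam := false) (s1 := true) (s2 := true) (a := 2) (b := 1) (c := 3) (cn := .pnn) (n1 := ndF2q2a) (n2 := ndF4q3) (pc := pcF1) (cut := cut_pp_213_a) (xt := Ext.none) (P1 := 0) (W1 := 536870912) (P2 := 0) (W2 := 1230186008) (P3 := 134217728) (W3 := 67108864)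
    rfl k0_pp_213_a

noncomputable def cut_pp_213_b : Cut := Cut.of [[⟨0, 1, 0, 39843005⟩, ⟨1, 1, 0, 39843005⟩, ⟨2, 2, 0, 5814905⟩]]

noncomputable def f_pp_213_b : ℕ → ℕ → ℕ → ℕ → Bool := onCell 1239849684 370763052 0 1230186008 134217728 67108864
    (rowF 0 false true true .pnn 2 1 3 (qsf 1239849684 370763052 0 1230186008 1) ndF2q2b ndF4q3 pcF1 cut_pp_213_b Ext.none)

def k0_pp_213_b : ∃ t, chk3 f_pp_213_b t 1 1 1 = true :=
  ⟨(b (l 3) (l 3)), by decide +kernel⟩

theorem c_pp_213_b : CertF 1239849684 370763052 0 1230186008 134217728 67108864 false true true .pnn 2 1 3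
    ndF2q2b ndF4q3 pcF1 cut_pp_213_b Ext.none :=
  certF0 (fam := false) (s1 := true) (s2 := true) (a := 2) (b := 1) (c := 3) (cn := .pnn) (n1 := ndF2q2b) (n2 := ndF4q3) (pc := pcF1) (cut := cut_pp_213_b) (xt := Ext.none) (P1 := 1239849684) (W1 := 370763052) (P2 := 0) (W2 := 1230186008) (P3 := 134217728) (W3 := 67108864)
    rfl k0_pp_213_b

noncomputable def f_pp_303 : ℕ → ℕ → ℕ → ℕ → Bool := onCell 0 536870912 0 1230186008 134217728 67108864
    (rowF 2 false true true .npn 3 0 3 (qsf 1610612736 536870912 0 1230186008 0) ndF2q3 ndF4q3 pcF0 Cut.none Ext.none)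

def k0_pp_303 : ∃ t, chk3 f_pp_303 t 1 1 1 = true :=
  ⟨(b (l 3) (l 3)), by decide +kernel⟩

theorem c_pp_303 : CertF 1610612736 536870912 0 1230186008 134217728 67108864 false true true .npn 3 0 3
    ndF2q3 ndF4q3 pcF0 Cut.none Ext.none :=
  certF2 (fam := false) (s1 := true) (s2 := true) (a := 3) (b := 0) (c := 3) (cn := .npn) (n1 := ndF2q3) (n2 := ndF4q3) (pc := pcF0) (cut := Cut.none) (xt := Ext.none) (P1 := 1610612736) (W1 := 536870912) (P2 := 0) (W2 := 1230186008) (P3 := 134217728) (W3 := 67108864)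
    rfl (fun _ => rfl) k0_pp_303

noncomputable def f_pp_313 : ℕ → ℕ → ℕ → ℕ → Bool := onCell 1610612736 536870912 0 1230186008 134217728 67108864
    (rowF 0 false true true .dn 3 1 3 (qsf 1610612736 536870912 0 1230186008 1) ndF2q3 ndF4q3 pcF1 Cut.none Ext.none)

def k0_pp_313 : ∃ t, chk3 f_pp_313 t 1 1 1 = true :=
  ⟨(b (l 3) (l 1)), by decide +kernel⟩

theorem c_pp_313 : CertF 1610612736 536870912 0 1230186008 134217728 67108864 false true true .dn 3 1 3
    ndF2q3 ndF4q3 pcF1 Cut.none Ext.none :=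
  certF0 (fam := false) (s1 := true) (s2 := true) (a := 3) (b := 1) (c := 3) (cn := .dn) (n1 := ndF2q3) (n2 := ndF4q3) (pc := pcF1) (cut := Cut.none) (xt := Ext.none) (P1 := 1610612736) (W1 := 536870912) (P2 := 0) (W2 := 1230186008) (P3 := 134217728) (W3 := 67108864)
    rfl k0_pp_313

noncomputable def f_pm_001 : ℕ → ℕ → ℕ → ℕ → Bool := onCell 0 536870912 536870912 536870912 134217728 67108864
    (rowF 0 false true false .up 0 0 1 (qsf 0 536870912 536870912 536870912 0) ndF2q0 ndF4q1 pcF0 Cut.none Ext.none)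

def k0_pm_001 : ∃ t, chk3 f_pm_001 t 1 1 1 = true :=
  ⟨(l 4), by decide +kernel⟩

theorem c_pm_001 : CertF 0 536870912 536870912 536870912 134217728 67108864 false true false .up 0 0 1
    ndF2q0 ndF4q1 pcF0 Cut.none Ext.none :=
  certF0 (fam := false) (s1 := true) (s2 := false) (a := 0) (b := 0) (c := 1) (cn := .up) (n1 := ndF2q0) (n2 := ndF4q1) (pc := pcF0) (cut := Cut.none) (xt := Ext.none) (P1 := 0) (W1 := 536870912) (P2 := 536870912) (W2 := 536870912) (P3 := 134217728) (W3 := 67108864)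
    rfl k0_pm_001

noncomputable def f_pm_011 : ℕ → ℕ → ℕ → ℕ → Bool := onCell 0 536870912 536870912 536870912 134217728 67108864
    (rowF 0 false true false .pnn 0 1 1 (qsf 0 536870912 536870912 536870912 1) ndF2q0 ndF4q1 pcF1 Cut.none Ext.none)

def k0_pm_011 : ∃ t, chk3 f_pm_011 t 1 1 1 = true :=
  ⟨(l 4), by decide +kernel⟩

theorem c_pm_011 : CertF 0 536870912 536870912 536870912 134217728 67108864 false true false .pnn 0 1 1
    ndF2q0 ndF4q1 pcF1 Cut.none Ext.none :=
  certF0 (fam := false) (s1 := true) (s2 := false) (a := 0) (b := 1) (c := 1) (cn := .pnn) (n1 := ndF2q0) (n2 := ndF4q1) (pc := pcF1) (cut := Cut.none) (xt := Ext.none) (P1 := 0) (W1 := 536870912) (P2 := 536870912) (W2 := 536870912) (P3 := 134217728) (W3 := 67108864)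
    rfl k0_pm_011

noncomputable def f_pm_012 : ℕ → ℕ → ℕ → ℕ → Bool := onCell 0 536870912 1073741824 536870912 134217728 67108864
    (rowF 0 false true false .pnp 0 1 2 (qsf 0 536870912 1073741824 536870912 1) ndF2q0 ndF4q2 pcF1 Cut.none Ext.none)

def k0_pm_012 : ∃ t, chk3 f_pm_012 t 1 1 1 = true :=
  ⟨(l 4), by decide +kernel⟩

theorem c_pm_012 : CertF 0 536870912 1073741824 536870912 134217728 67108864 false true false .pnp 0 1 2
    ndF2q0 ndF4q2 pcF1 Cut.none Ext.none :=
  certF0 (fam := false) (s1 := true) (s2 := false) (a := 0) (b := 1) (c := 2) (cn := .pnp) (n1 := ndF2q0) (n2 := ndF4q2) (pc := pcF1) (cut := Cut.none) (xt := Ext.none) (P1 := 0) (W1 := 536870912) (P2 := 1073741824) (W2 := 536870912) (P3 := 134217728) (W3 := 67108864)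
    rfl k0_pm_012

noncomputable def f_pm_022 : ℕ → ℕ → ℕ → ℕ → Bool := onCell 0 536870912 1073741824 536870912 134217728 67108864
    (rowF 0 false true false .pp 0 2 2 (qsf 0 536870912 1073741824 536870912 2) ndF2q0 ndF4q2 pcF2 Cut.none Ext.none)

def k0_pm_022 : ∃ t, chk3 f_pm_022 t 1 1 1 = true :=
  ⟨(l 4), by decide +kernel⟩

theorem c_pm_022 : CertF 0 536870912 1073741824 536870912 134217728 67108864 false true false .pp 0 2 2
    ndF2q0 ndF4q2 pcF2 Cut.none Ext.none :=
  certF0 (fam := false) (s1 := true) (s2 := false) (a := 0) (b := 2) (c := 2) (cn := .pp) (n1 := ndF2q0) (n2 := ndF4q2) (pc := pcF2) (cut := Cut.none) (xt := Ext.none) (P1 := 0) (W1 := 536870912) (P2 := 1073741824) (W2 := 536870912) (P3 := 134217728) (W3 := 67108864)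
    rfl k0_pm_022

noncomputable def f_pm_023 : ℕ → ℕ → ℕ → ℕ → Bool := onCell 0 536870912 0 1230186008 134217728 67108864
    (rowF 0 false true false .up 0 2 3 (qsf 0 536870912 0 1230186008 2) ndF2q0 ndF4q3 pcF2 Cut.none Ext.none)

def k0_pm_023 : ∃ t, chk3 f_pm_023 t 1 1 1 = true :=
  ⟨(b (l 4) (l 4)), by decide +kernel⟩

theorem c_pm_023 : CertF 0 536870912 0 1230186008 134217728 67108864 false true false .up 0 2 3
    ndF2q0 ndF4q3 pcF2 Cut.none Ext.none :=
  certF0 (fam := false) (s1 := true) (s2 := false) (a := 0) (b := 2) (c := 3) (cn := .up) (n1 := ndF2q0) (n2 := ndF4q3) (pc := pcF2) (cut := Cut.none) (xt := Ext.none) (P1 := 0) (W1 := 536870912) (P2 := 0) (W2 := 1230186008) (P3 := 134217728) (W3 := 67108864)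
    rfl k0_pm_023

noncomputable def f_pm_033 : ℕ → ℕ → ℕ → ℕ → Bool := onCell 0 536870912 0 1230186008 134217728 67108864
    (rowF 0 false true false .pnn 0 3 3 (qsf 0 536870912 0 1230186008 3) ndF2q0 ndF4q3 pcF3 Cut.none Ext.none)

def k0_pm_033 : ∃ t, chk3 f_pm_033 t 1 1 1 = true :=
  ⟨(b (l 4) (l 4)), by decide +kernel⟩

theorem c_pm_033 : CertF 0 536870912 0 1230186008 134217728 67108864 false true false .pnn 0 3 3
    ndF2q0 ndF4q3 pcF3 Cut.none Ext.none :=
  certF0 (fam := false) (s1 := true) (s2 := false) (a := 0) (b := 3) (c := 3) (cn := .pnn) (n1 := ndF2q0) (n2 := ndF4q3) (pc := pcF3) (cut := Cut.none) (xt := Ext.none) (P1 := 0) (W1 := 536870912) (P2 := 0) (W2 := 1230186008) (P3 := 134217728) (W3 := 67108864)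
    rfl k0_pm_033

noncomputable def f_pm_101 : ℕ → ℕ → ℕ → ℕ → Bool := onCell 536870912 536870912 536870912 536870912 134217728 67108864
    (rowF 0 false true false .npn 1 0 1 (qsf 536870912 536870912 536870912 536870912 0) ndF2q1 ndF4q1 pcF0 Cut.none Ext.none)

def k0_pm_101 : ∃ t, chk3 f_pm_101 t 1 1 1 = true :=
  ⟨(l 4), by decide +kernel⟩

theorem c_pm_101 : CertF 536870912 536870912 536870912 536870912 134217728 67108864 false true false .npn 1 0 1
    ndF2q1 ndF4q1 pcF0 Cut.none Ext.none :=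
  certF0 (fam := false) (s1 := true) (s2 := false) (a := 1) (b := 0) (c := 1) (cn := .npn) (n1 := ndF2q1) (n2 := ndF4q1) (pc := pcF0) (cut := Cut.none) (xt := Ext.none) (P1 := 536870912) (W1 := 536870912) (P2 := 536870912) (W2 := 536870912) (P3 := 134217728) (W3 := 67108864)
    rfl k0_pm_101

noncomputable def f_pm_102 : ℕ → ℕ → ℕ → ℕ → Bool := onCell 536870912 536870912 1073741824 536870912 134217728 67108864
    (rowF 0 false true false .npp 1 0 2 (qsf 536870912 536870912 1073741824 536870912 0) ndF2q1 ndF4q2 pcF0 Cut.none Ext.none)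

def k0_pm_102 : ∃ t, chk3 f_pm_102 t 1 1 1 = true :=
  ⟨(l 4), by decide +kernel⟩

theorem c_pm_102 : CertF 536870912 536870912 1073741824 536870912 134217728 67108864 false true false .npp 1 0 2
    ndF2q1 ndF4q2 pcF0 Cut.none Ext.none :=
  certF0 (fam := false) (s1 := true) (s2 := false) (a := 1) (b := 0) (c := 2) (cn := .npp) (n1 := ndF2q1) (n2 := ndF4q2) (pc := pcF0) (cut := Cut.none) (xt := Ext.none) (P1 := 536870912) (W1 := 536870912) (P2 := 1073741824) (W2 := 536870912) (P3 := 134217728) (W3 := 67108864)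
    rfl k0_pm_102

noncomputable def f_pm_112 : ℕ → ℕ → ℕ → ℕ → Bool := onCell 536870912 536870912 1073741824 536870912 134217728 67108864
    (rowF 0 false true false .dn 1 1 2 (qsf 536870912 536870912 1073741824 536870912 1) ndF2q1 ndF4q2 pcF1 Cut.none Ext.none)

def k0_pm_112 : ∃ t, chk3 f_pm_112 t 1 1 1 = true :=
  ⟨(l 4), by decide +kernel⟩

theorem c_pm_112 : CertF 536870912 536870912 1073741824 536870912 134217728 67108864 false true false .dn 1 1 2
    ndF2q1 ndF4q2 pcF1 Cut.none Ext.none :=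
  certF0 (fam := false) (s1 := true) (s2 := false) (a := 1) (b := 1) (c := 2) (cn := .dn) (n1 := ndF2q1) (n2 := ndF4q2) (pc := pcF1) (cut := Cut.none) (xt := Ext.none) (P1 := 536870912) (W1 := 536870912) (P2 := 1073741824) (W2 := 536870912) (P3 := 134217728) (W3 := 67108864)
    rfl k0_pm_112

noncomputable def f_pm_113 : ℕ → ℕ → ℕ → ℕ → Bool := onCell 536870912 536870912 0 1230186008 134217728 67108864
    (rowF 0 false true false .nn 1 1 3 (qsf 536870912 536870912 0 1230186008 1) ndF2q1 ndF4q3 pcF1 Cut.none Ext.none)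

def k0_pm_113 : ∃ t, chk3 f_pm_113 t 1 1 1 = true :=
  ⟨(b (b (a (l 2) (l 17230448)) (l 4)) (l 4)), by decide +kernel⟩

theorem c_pm_113 : CertF 536870912 536870912 0 1230186008 134217728 67108864 false true false .nn 1 1 3
    ndF2q1 ndF4q3 pcF1 Cut.none Ext.none :=
  certF0 (fam := false) (s1 := true) (s2 := false) (a := 1) (b := 1) (c := 3) (cn := .nn) (n1 := ndF2q1) (n2 := ndF4q3) (pc := pcF1) (cut := Cut.none) (xt := Ext.none) (P1 := 536870912) (W1 := 536870912) (P2 := 0) (W2 := 1230186008) (P3 := 134217728) (W3 := 67108864)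
    rfl k0_pm_113

noncomputable def f_pm_123 : ℕ → ℕ → ℕ → ℕ → Bool := onCell 536870912 536870912 0 1230186008 134217728 67108864
    (rowF 0 false true false .npn 1 2 3 (qsf 536870912 536870912 0 1230186008 2) ndF2q1 ndF4q3 pcF2 Cut.none Ext.none)

def k0_pm_123 : ∃ t, chk3 f_pm_123 t 1 1 1 = true :=
  ⟨(b (a (l 4) (b (a (l 17058968) (l 16974776)) (l 4))) (l 4)), by decide +kernel⟩

theorem c_pm_123 : CertF 536870912 536870912 0 1230186008 134217728 67108864 false true false .npn 1 2 3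
    ndF2q1 ndF4q3 pcF2 Cut.none Ext.none :=
  certF0 (fam := false) (s1 := true) (s2 := false) (a := 1) (b := 2) (c := 3) (cn := .npn) (n1 := ndF2q1) (n2 := ndF4q3) (pc := pcF2) (cut := Cut.none) (xt := Ext.none) (P1 := 536870912) (W1 := 536870912) (P2 := 0) (W2 := 1230186008) (P3 := 134217728) (W3 := 67108864)
    rfl k0_pm_123

noncomputable def f_pm_133 : ℕ → ℕ → ℕ → ℕ → Bool := onCell 536870912 536870912 0 1230186008 134217728 67108864
    (rowF 0 false true false .dn 1 3 3 (qsf 536870912 536870912 0 1230186008 3) ndF2q1 ndF4q3 pcF3 Cut.none Ext.none)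

def k0_pm_133 : ∃ t, chk3 f_pm_133 t 1 1 1 = true :=
  ⟨(a (b (l 4) (l 1)) (l 1)), by decide +kernel⟩

theorem c_pm_133 : CertF 536870912 536870912 0 1230186008 134217728 67108864 false true false .dn 1 3 3
    ndF2q1 ndF4q3 pcF3 Cut.none Ext.none :=
  certF0 (fam := false) (s1 := true) (s2 := false) (a := 1) (b := 3) (c := 3) (cn := .dn) (n1 := ndF2q1) (n2 := ndF4q3) (pc := pcF3) (cut := Cut.none) (xt := Ext.none) (P1 := 536870912) (W1 := 536870912) (P2 := 0) (W2 := 1230186008) (P3 := 134217728) (W3 := 67108864)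
    rfl k0_pm_133

noncomputable def f_pm_202_a : ℕ → ℕ → ℕ → ℕ → Bool := onCell 0 536870912 0 536870912 134217728 67108864
    (rowF 1 false true false .pp 2 0 2 (qsf 0 536870912 1073741824 536870912 0) ndF2q2a ndF4q2 pcF0 Cut.none Ext.none)

def k0_pm_202_a : ∃ t, chk3 f_pm_202_a t 1 1 1 = true :=
  ⟨(b (b (a (b (l 18090888) (l 17984320)) (b (l 18334864) (l 18508456))) (a (b (l 17824088) (l 17755704)) (a (l 17902240) (l 18002192)))) (b (a (l 50032272759) (b (a (l 17695256) (l 17623856)) (l 17824720))) (a (l 17725784) (b (a (l 17756344) (l 17758552)) (l 17834864))))), by decide +kernel⟩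

theorem c_pm_202_a : CertF 0 536870912 1073741824 536870912 134217728 67108864 false true false .pp 2 0 2
    ndF2q2a ndF4q2 pcF0 Cut.none Ext.none :=
  certF1 (fam := false) (s1 := true) (s2 := false) (a := 2) (b := 0) (c := 2) (cn := .pp) (n1 := ndF2q2a) (n2 := ndF4q2) (pc := pcF0) (cut := Cut.none) (xt := Ext.none) (P1 := 0) (W1 := 536870912) (P2 := 1073741824) (W2 := 536870912) (P3 := 134217728) (W3 := 67108864)
    rfl (fun _ => rfl) k0_pm_202_a

noncomputable def f_pm_202_b : ℕ → ℕ → ℕ → ℕ → Bool := onCell 0 536870912 1073741824 536870912 134217728 67108864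
    (rowF 2 false true false .pp 2 0 2 (qsf 1239849684 370763052 1073741824 536870912 0) ndF2q2b ndF4q2 pcF0 Cut.none Ext.none)

def k0_pm_202_b : ∃ t, chk3 f_pm_202_b t 1 1 1 = true :=
  ⟨(a (b (a (b (l 1) (a (l 18011592) (l 18090400))) (l 1)) (b (a (l 17653832) (l 17745608)) (a (a (l 17967592) (l 18074776)) (a (l 18006672) (l 17905848))))) (b (l 1) (a (b (l 1) (a (l 17786520) (l 17729312))) (l 1)))), by decide +kernel⟩

theorem c_pm_202_b : CertF 1239849684 370763052 1073741824 536870912 134217728 67108864 false true false .pp 2 0 2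
    ndF2q2b ndF4q2 pcF0 Cut.none Ext.none :=
  certF2 (fam := false) (s1 := true) (s2 := false) (a := 2) (b := 0) (c := 2) (cn := .pp) (n1 := ndF2q2b) (n2 := ndF4q2) (pc := pcF0) (cut := Cut.none) (xt := Ext.none) (P1 := 1239849684) (W1 := 370763052) (P2 := 1073741824) (W2 := 536870912) (P3 := 134217728) (W3 := 67108864)
    rfl (fun _ => rfl) k0_pm_202_b

noncomputable def f_pm_203_a : ℕ → ℕ → ℕ → ℕ → Bool := onCell 0 536870912 0 1230186008 134217728 67108864
    (rowF 0 false true false .up 2 0 3 (qsf 0 536870912 0 1230186008 0) ndF2q2a ndF4q3 pcF0 Cut.none Ext.none)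

def k0_pm_203_a : ∃ t, chk3 f_pm_203_a t 1 1 1 = true :=
  ⟨(b (l 2) (b (l 2) (b (a (l 180491924007) (l 2)) (a (l 18071776) (b (l 18008688) (l 75265611575)))))), by decide +kernel⟩

theorem c_pm_203_a : CertF 0 536870912 0 1230186008 134217728 67108864 false true false .up 2 0 3
    ndF2q2a ndF4q3 pcF0 Cut.none Ext.none :=
  certF0 (fam := false) (s1 := true) (s2 := false) (a := 2) (b := 0) (c := 3) (cn := .up) (n1 := ndF2q2a) (n2 := ndF4q3) (pc := pcF0) (cut := Cut.none) (xt := Ext.none) (P1 := 0) (W1 := 536870912) (P2 := 0) (W2 := 1230186008) (P3 := 134217728) (W3 := 67108864)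
    rfl k0_pm_203_a

noncomputable def f_pm_203_b : ℕ → ℕ → ℕ → ℕ → Bool := onCell 0 536870912 0 1230186008 134217728 67108864
    (rowF 2 false true false .up 2 0 3 (qsf 1239849684 370763052 0 1230186008 0) ndF2q2b ndF4q3 pcF0 Cut.none Ext.none)

def k0_pm_203_b : ∃ t, chk3 f_pm_203_b t 1 1 1 = true :=
  ⟨(b (a (l 2) (l 3)) (a (b (a (l 2) (l 634683761415)) (b (a (l 2) (l 17972552)) (a (a (l 132710829911) (l 18264960)) (c (l 18326792) (l 18245920))))) (b (a (l 170357985495) (a (l 17808976) (l 131166285207))) (a (b (l 17913856) (b (l 18079880) (l 18089312))) (b (l 17857016) (l 18017584)))))), by decide +kernel⟩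

theorem c_pm_203_b : CertF 1239849684 370763052 0 1230186008 134217728 67108864 false true false .up 2 0 3
    ndF2q2b ndF4q3 pcF0 Cut.none Ext.none :=
  certF2 (fam := false) (s1 := true) (s2 := false) (a := 2) (b := 0) (c := 3) (cn := .up) (n1 := ndF2q2b) (n2 := ndF4q3) (pc := pcF0) (cut := Cut.none) (xt := Ext.none) (P1 := 1239849684) (W1 := 370763052) (P2 := 0) (W2 := 1230186008) (P3 := 134217728) (W3 := 67108864)
    rfl (fun _ => rfl) k0_pm_203_b

noncomputable def cut_pm_213_a : Cut := Cut.of [[⟨0, 1, 0, 39843005⟩, ⟨1, 1, 0, 39843005⟩, ⟨2, 2, 0, 5814905⟩]]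

noncomputable def f_pm_213_a : ℕ → ℕ → ℕ → ℕ → Bool := onCell 0 536870912 0 1230186008 134217728 67108864
    (rowF 0 false true false .pnn 2 1 3 (qsf 0 536870912 0 1230186008 1) ndF2q2a ndF4q3 pcF1 cut_pm_213_a Ext.none)

def k0_pm_213_a : ∃ t, chk3 f_pm_213_a t 1 1 1 = true :=
  ⟨(b (a (b (l 3) (b (l 17129632) (l 16998056))) (b (a (b (l 3) (l 279878050343)) (a (b (l 283098812791) (l 16838840)) (b (a (l 268603380935) (b (l 6) (l 16804512))) (l 16842312)))) (a (b (l 16902768) (l 16987640)) (b (l 17052440) (l 16991904))))) (b (a (b (l 17090504) (l 17160048)) (b (a (l 17084136) (l 17091952)) (a (l 17167944) (l 17178536)))) (b (a (l 17165456) (a (l 17201448) (l 17240208))) (a (l 17135864) (b (l 17241296) (l 17367400)))))), by decide +kernel⟩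

theorem c_pm_213_a : CertF 0 536870912 0 1230186008 134217728 67108864 false true false .pnn 2 1 3
    ndF2q2a ndF4q3 pcF1 cut_pm_213_a Ext.none :=
  certF0 (fam := false) (s1 := true) (s2 := false) (a := 2) (b := 1) (c := 3) (cn := .pnn) (n1 := ndF2q2a) (n2 := ndF4q3) (pc := pcF1) (cut := cut_pm_213_a) (xt := Ext.none) (P1 := 0) (W1 := 536870912) (P2 := 0) (W2 := 1230186008) (P3 := 134217728) (W3 := 67108864)
    rfl k0_pm_213_a

noncomputable def cut_pm_213_b : Cut := Cut.of [[⟨0, 1, 0, 39843005⟩, ⟨1, 1, 0, 39843005⟩, ⟨2, 2, 0, 5814905⟩]]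

noncomputable def f_pm_213_b : ℕ → ℕ → ℕ → ℕ → Bool := onCell 1239849684 370763052 0 1230186008 134217728 67108864
    (rowF 0 false true false .pnn 2 1 3 (qsf 1239849684 370763052 0 1230186008 1) ndF2q2b ndF4q3 pcF1 cut_pm_213_b Ext.none)

def k0_pm_213_b : ∃ t, chk3 f_pm_213_b t 1 1 1 = true :=
  ⟨(b (a (b (l 3) (b (a (l 283636512119) (l 3)) (a (l 29159849991) (l 17286128)))) (l 3)) (b (a (b (a (l 17130704) (b (l 17229960) (l 17261624))) (a (l 17180352) (l 17272520))) (b (a (l 217601654167) (l 1)) (l 1))) (a (b (a (b (l 17167032) (l 17120456)) (l 1)) (l 1)) (l 1)))), by decide +kernel⟩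

theorem c_pm_213_b : CertF 1239849684 370763052 0 1230186008 134217728 67108864 false true false .pnn 2 1 3
    ndF2q2b ndF4q3 pcF1 cut_pm_213_b Ext.none :=
  certF0 (fam := false) (s1 := true) (s2 := false) (a := 2) (b := 1) (c := 3) (cn := .pnn) (n1 := ndF2q2b) (n2 := ndF4q3) (pc := pcF1) (cut := cut_pm_213_b) (xt := Ext.none) (P1 := 1239849684) (W1 := 370763052) (P2 := 0) (W2 := 1230186008) (P3 := 134217728) (W3 := 67108864)
    rfl k0_pm_213_b

noncomputable def f_pm_303 : ℕ → ℕ → ℕ → ℕ → Bool := onCell 0 536870912 0 1230186008 134217728 67108864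
    (rowF 2 false true false .npn 3 0 3 (qsf 1610612736 536870912 0 1230186008 0) ndF2q3 ndF4q3 pcF0 Cut.none Ext.none)

def k0_pm_303 : ∃ t, chk3 f_pm_303 t 1 1 1 = true :=
  ⟨(b (a (l 3) (l 3)) (a (b (a (l 3) (l 184853014503)) (b (a (b (l 17697464) (l 17773304)) (l 17679664)) (a (b (l 17839160) (l 17672696)) (l 17855328)))) (b (a (l 148882503607) (b (l 144050357479) (l 1))) (l 1)))), by decide +kernel⟩

theorem c_pm_303 : CertF 1610612736 536870912 0 1230186008 134217728 67108864 false true false .npn 3 0 3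
    ndF2q3 ndF4q3 pcF0 Cut.none Ext.none :=
  certF2 (fam := false) (s1 := true) (s2 := false) (a := 3) (b := 0) (c := 3) (cn := .npn) (n1 := ndF2q3) (n2 := ndF4q3) (pc := pcF0) (cut := Cut.none) (xt := Ext.none) (P1 := 1610612736) (W1 := 536870912) (P2 := 0) (W2 := 1230186008) (P3 := 134217728) (W3 := 67108864)
    rfl (fun _ => rfl) k0_pm_303

noncomputable def f_pm_313 : ℕ → ℕ → ℕ → ℕ → Bool := onCell 1610612736 536870912 0 1230186008 134217728 67108864
    (rowF 0 false true false .dn 3 1 3 (qsf 1610612736 536870912 0 1230186008 1) ndF2q3 ndF4q3 pcF1 Cut.none Ext.none)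

def k0_pm_313 : ∃ t, chk3 f_pm_313 t 1 1 1 = true :=
  ⟨(b (l 3) (l 1)), by decide +kernel⟩

theorem c_pm_313 : CertF 1610612736 536870912 0 1230186008 134217728 67108864 false true false .dn 3 1 3
    ndF2q3 ndF4q3 pcF1 Cut.none Ext.none :=
  certF0 (fam := false) (s1 := true) (s2 := false) (a := 3) (b := 1) (c := 3) (cn := .dn) (n1 := ndF2q3) (n2 := ndF4q3) (pc := pcF1) (cut := Cut.none) (xt := Ext.none) (P1 := 1610612736) (W1 := 536870912) (P2 := 0) (W2 := 1230186008) (P3 := 134217728) (W3 := 67108864)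
    rfl k0_pm_313

noncomputable def f_mm_001 : ℕ → ℕ → ℕ → ℕ → Bool := onCell 0 536870912 0 536870912 134217728 67108864
    (rowF 1 false false false .up 0 0 1 (qsf 0 536870912 536870912 536870912 0) ndF2q0 ndF4q1 pcF0 Cut.none Ext.none)

def k0_mm_001 : ∃ t, chk3 f_mm_001 t 1 1 1 = true :=
  ⟨(l 3), by decide +kernel⟩

theorem c_mm_001 : CertF 0 536870912 536870912 536870912 134217728 67108864 false false false .up 0 0 1
    ndF2q0 ndF4q1 pcF0 Cut.none Ext.none :=
  certF1 (fam := false) (s1 := false) (s2 := false) (a := 0) (b := 0) (c := 1) (cn := .up) (n1 := ndF2q0) (n2 := ndF4q1) (pc := pcF0) (cut := Cut.none) (xt := Ext.none) (P1 := 0) (W1 := 536870912) (P2 := 536870912) (W2 := 536870912) (P3 := 134217728) (W3 := 67108864)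
    rfl (fun _ => rfl) k0_mm_001

noncomputable def f_mm_011 : ℕ → ℕ → ℕ → ℕ → Bool := onCell 0 536870912 536870912 536870912 134217728 67108864
    (rowF 1 false false false .pnn 0 1 1 (qsf 0 536870912 536870912 536870912 1) ndF2q0 ndF4q1 pcF1 Cut.none Ext.none)

def k0_mm_011 : ∃ t, chk3 f_mm_011 t 1 1 1 = true :=
  ⟨(l 5), by decide +kernel⟩

theorem c_mm_011 : CertF 0 536870912 536870912 536870912 134217728 67108864 false false false .pnn 0 1 1
    ndF2q0 ndF4q1 pcF1 Cut.none Ext.none :=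
  certF1 (fam := false) (s1 := false) (s2 := false) (a := 0) (b := 1) (c := 1) (cn := .pnn) (n1 := ndF2q0) (n2 := ndF4q1) (pc := pcF1) (cut := Cut.none) (xt := Ext.none) (P1 := 0) (W1 := 536870912) (P2 := 536870912) (W2 := 536870912) (P3 := 134217728) (W3 := 67108864)
    rfl (fun _ => rfl) k0_mm_011

noncomputable def f_mm_012 : ℕ → ℕ → ℕ → ℕ → Bool := onCell 0 536870912 1073741824 536870912 134217728 67108864
    (rowF 0 false false false .pnp 0 1 2 (qsf 0 536870912 1073741824 536870912 1) ndF2q0 ndF4q2 pcF1 Cut.none Ext.none)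

def k0_mm_012 : ∃ t, chk3 f_mm_012 t 1 1 1 = true :=
  ⟨(l 5), by decide +kernel⟩

theorem c_mm_012 : CertF 0 536870912 1073741824 536870912 134217728 67108864 false false false .pnp 0 1 2
    ndF2q0 ndF4q2 pcF1 Cut.none Ext.none :=
  certF0 (fam := false) (s1 := false) (s2 := false) (a := 0) (b := 1) (c := 2) (cn := .pnp) (n1 := ndF2q0) (n2 := ndF4q2) (pc := pcF1) (cut := Cut.none) (xt := Ext.none) (P1 := 0) (W1 := 536870912) (P2 := 1073741824) (W2 := 536870912) (P3 := 134217728) (W3 := 67108864)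
    rfl k0_mm_012

noncomputable def f_mm_022 : ℕ → ℕ → ℕ → ℕ → Bool := onCell 0 536870912 1073741824 536870912 134217728 67108864
    (rowF 0 false false false .pp 0 2 2 (qsf 0 536870912 1073741824 536870912 2) ndF2q0 ndF4q2 pcF2 Cut.none Ext.none)

def k0_mm_022 : ∃ t, chk3 f_mm_022 t 1 1 1 = true :=
  ⟨(l 5), by decide +kernel⟩

theorem c_mm_022 : CertF 0 536870912 1073741824 536870912 134217728 67108864 false false false .pp 0 2 2
    ndF2q0 ndF4q2 pcF2 Cut.none Ext.none :=
  certF0 (fam := false) (s1 := false) (s2 := false) (a := 0) (b := 2) (c := 2) (cn := .pp) (n1 := ndF2q0) (n2 := ndF4q2) (pc := pcF2) (cut := Cut.none) (xt := Ext.none) (P1 := 0) (W1 := 536870912) (P2 := 1073741824) (W2 := 536870912) (P3 := 134217728) (W3 := 67108864)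
    rfl k0_mm_022

noncomputable def f_mm_023 : ℕ → ℕ → ℕ → ℕ → Bool := onCell 0 536870912 0 1230186008 134217728 67108864
    (rowF 0 false false false .up 0 2 3 (qsf 0 536870912 0 1230186008 2) ndF2q0 ndF4q3 pcF2 Cut.none Ext.none)

def k0_mm_023 : ∃ t, chk3 f_mm_023 t 1 1 1 = true :=
  ⟨(l 5), by decide +kernel⟩

theorem c_mm_023 : CertF 0 536870912 0 1230186008 134217728 67108864 false false false .up 0 2 3
    ndF2q0 ndF4q3 pcF2 Cut.none Ext.none :=
  certF0 (fam := false) (s1 := false) (s2 := false) (a := 0) (b := 2) (c := 3) (cn := .up) (n1 := ndF2q0) (n2 := ndF4q3) (pc := pcF2) (cut := Cut.none) (xt := Ext.none) (P1 := 0) (W1 := 536870912) (P2 := 0) (W2 := 1230186008) (P3 := 134217728) (W3 := 67108864)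
    rfl k0_mm_023

noncomputable def f_mm_033 : ℕ → ℕ → ℕ → ℕ → Bool := onCell 0 536870912 0 1230186008 134217728 67108864
    (rowF 0 false false false .pnn 0 3 3 (qsf 0 536870912 0 1230186008 3) ndF2q0 ndF4q3 pcF3 Cut.none Ext.none)

def k0_mm_033 : ∃ t, chk3 f_mm_033 t 1 1 1 = true :=
  ⟨(l 5), by decide +kernel⟩

theorem c_mm_033 : CertF 0 536870912 0 1230186008 134217728 67108864 false false false .pnn 0 3 3
    ndF2q0 ndF4q3 pcF3 Cut.none Ext.none :=
  certF0 (fam := false) (s1 := false) (s2 := false) (a := 0) (b := 3) (c := 3) (cn := .pnn) (n1 := ndF2q0) (n2 := ndF4q3) (pc := pcF3) (cut := Cut.none) (xt := Ext.none) (P1 := 0) (W1 := 536870912) (P2 := 0) (W2 := 1230186008) (P3 := 134217728) (W3 := 67108864)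
    rfl k0_mm_033

noncomputable def f_mm_101 : ℕ → ℕ → ℕ → ℕ → Bool := onCell 536870912 536870912 536870912 536870912 134217728 67108864
    (rowF 0 false false false .npn 1 0 1 (qsf 536870912 536870912 536870912 536870912 0) ndF2q1 ndF4q1 pcF0 Cut.none Ext.none)

def k0_mm_101 : ∃ t, chk3 f_mm_101 t 1 1 1 = true :=
  ⟨(l 3), by decide +kernel⟩

theorem c_mm_101 : CertF 536870912 536870912 536870912 536870912 134217728 67108864 false false false .npn 1 0 1
    ndF2q1 ndF4q1 pcF0 Cut.none Ext.none :=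
  certF0 (fam := false) (s1 := false) (s2 := false) (a := 1) (b := 0) (c := 1) (cn := .npn) (n1 := ndF2q1) (n2 := ndF4q1) (pc := pcF0) (cut := Cut.none) (xt := Ext.none) (P1 := 536870912) (W1 := 536870912) (P2 := 536870912) (W2 := 536870912) (P3 := 134217728) (W3 := 67108864)
    rfl k0_mm_101

noncomputable def f_mm_102 : ℕ → ℕ → ℕ → ℕ → Bool := onCell 536870912 536870912 1073741824 536870912 134217728 67108864
    (rowF 0 false false false .npp 1 0 2 (qsf 536870912 536870912 1073741824 536870912 0) ndF2q1 ndF4q2 pcF0 Cut.none Ext.none)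

def k0_mm_102 : ∃ t, chk3 f_mm_102 t 1 1 1 = true :=
  ⟨(l 5), by decide +kernel⟩

theorem c_mm_102 : CertF 536870912 536870912 1073741824 536870912 134217728 67108864 false false false .npp 1 0 2
    ndF2q1 ndF4q2 pcF0 Cut.none Ext.none :=
  certF0 (fam := false) (s1 := false) (s2 := false) (a := 1) (b := 0) (c := 2) (cn := .npp) (n1 := ndF2q1) (n2 := ndF4q2) (pc := pcF0) (cut := Cut.none) (xt := Ext.none) (P1 := 536870912) (W1 := 536870912) (P2 := 1073741824) (W2 := 536870912) (P3 := 134217728) (W3 := 67108864)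
    rfl k0_mm_102

noncomputable def f_mm_112 : ℕ → ℕ → ℕ → ℕ → Bool := onCell 536870912 536870912 1073741824 536870912 134217728 67108864
    (rowF 0 false false false .dn 1 1 2 (qsf 536870912 536870912 1073741824 536870912 1) ndF2q1 ndF4q2 pcF1 Cut.none Ext.none)

def k0_mm_112 : ∃ t, chk3 f_mm_112 t 1 1 1 = true :=
  ⟨(l 5), by decide +kernel⟩

theorem c_mm_112 : CertF 536870912 536870912 1073741824 536870912 134217728 67108864 false false false .dn 1 1 2
    ndF2q1 ndF4q2 pcF1 Cut.none Ext.none :=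
  certF0 (fam := false) (s1 := false) (s2 := false) (a := 1) (b := 1) (c := 2) (cn := .dn) (n1 := ndF2q1) (n2 := ndF4q2) (pc := pcF1) (cut := Cut.none) (xt := Ext.none) (P1 := 536870912) (W1 := 536870912) (P2 := 1073741824) (W2 := 536870912) (P3 := 134217728) (W3 := 67108864)
    rfl k0_mm_112

noncomputable def f_mm_113 : ℕ → ℕ → ℕ → ℕ → Bool := onCell 536870912 536870912 0 1230186008 134217728 67108864
    (rowF 0 false false false .nn 1 1 3 (qsf 536870912 536870912 0 1230186008 1) ndF2q1 ndF4q3 pcF1 Cut.none Ext.none)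

def k0_mm_113 : ∃ t, chk3 f_mm_113 t 1 1 1 = true :=
  ⟨(l 5), by decide +kernel⟩

theorem c_mm_113 : CertF 536870912 536870912 0 1230186008 134217728 67108864 false false false .nn 1 1 3
    ndF2q1 ndF4q3 pcF1 Cut.none Ext.none :=
  certF0 (fam := false) (s1 := false) (s2 := false) (a := 1) (b := 1) (c := 3) (cn := .nn) (n1 := ndF2q1) (n2 := ndF4q3) (pc := pcF1) (cut := Cut.none) (xt := Ext.none) (P1 := 536870912) (W1 := 536870912) (P2 := 0) (W2 := 1230186008) (P3 := 134217728) (W3 := 67108864)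
    rfl k0_mm_113

noncomputable def f_mm_123 : ℕ → ℕ → ℕ → ℕ → Bool := onCell 536870912 536870912 0 1230186008 134217728 67108864
    (rowF 0 false false false .npn 1 2 3 (qsf 536870912 536870912 0 1230186008 2) ndF2q1 ndF4q3 pcF2 Cut.none Ext.none)

def k0_mm_123 : ∃ t, chk3 f_mm_123 t 1 1 1 = true :=
  ⟨(l 5), by decide +kernel⟩

theorem c_mm_123 : CertF 536870912 536870912 0 1230186008 134217728 67108864 false false false .npn 1 2 3
    ndF2q1 ndF4q3 pcF2 Cut.none Ext.none :=
  certF0 (fam := false) (s1 := false) (s2 := false) (a := 1) (b := 2) (c := 3) (cn := .npn) (n1 := ndF2q1) (n2 := ndF4q3) (pc := pcF2) (cut := Cut.none) (xt := Ext.none) (P1 := 536870912) (W1 := 536870912) (P2 := 0) (W2 := 1230186008) (P3 := 134217728) (W3 := 67108864)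
    rfl k0_mm_123

noncomputable def f_mm_133 : ℕ → ℕ → ℕ → ℕ → Bool := onCell 536870912 536870912 0 1230186008 134217728 67108864
    (rowF 0 false false false .dn 1 3 3 (qsf 536870912 536870912 0 1230186008 3) ndF2q1 ndF4q3 pcF3 Cut.none Ext.none)

def k0_mm_133 : ∃ t, chk3 f_mm_133 t 1 1 1 = true :=
  ⟨(l 5), by decide +kernel⟩

theorem c_mm_133 : CertF 536870912 536870912 0 1230186008 134217728 67108864 false false false .dn 1 3 3
    ndF2q1 ndF4q3 pcF3 Cut.none Ext.none :=
  certF0 (fam := false) (s1 := false) (s2 := false) (a := 1) (b := 3) (c := 3) (cn := .dn) (n1 := ndF2q1) (n2 := ndF4q3) (pc := pcF3) (cut := Cut.none) (xt := Ext.none) (P1 := 536870912) (W1 := 536870912) (P2 := 0) (W2 := 1230186008) (P3 := 134217728) (W3 := 67108864)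
    rfl k0_mm_133

noncomputable def f_mm_202_a : ℕ → ℕ → ℕ → ℕ → Bool := onCell 0 536870912 1073741824 536870912 134217728 67108864
    (rowF 0 false false false .pp 2 0 2 (qsf 0 536870912 1073741824 536870912 0) ndF2q2a ndF4q2 pcF0 Cut.none Ext.none)

def k0_mm_202_a : ∃ t, chk3 f_mm_202_a t 1 1 1 = true :=
  ⟨(l 3), by decide +kernel⟩

theorem c_mm_202_a : CertF 0 536870912 1073741824 536870912 134217728 67108864 false false false .pp 2 0 2
    ndF2q2a ndF4q2 pcF0 Cut.none Ext.none :=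
  certF0 (fam := false) (s1 := false) (s2 := false) (a := 2) (b := 0) (c := 2) (cn := .pp) (n1 := ndF2q2a) (n2 := ndF4q2) (pc := pcF0) (cut := Cut.none) (xt := Ext.none) (P1 := 0) (W1 := 536870912) (P2 := 1073741824) (W2 := 536870912) (P3 := 134217728) (W3 := 67108864)
    rfl k0_mm_202_a

noncomputable def f_mm_202_b : ℕ → ℕ → ℕ → ℕ → Bool := onCell 1239849684 370763052 1073741824 536870912 134217728 67108864
    (rowF 0 false false false .pp 2 0 2 (qsf 1239849684 370763052 1073741824 536870912 0) ndF2q2b ndF4q2 pcF0 Cut.none Ext.none)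

def k0_mm_202_b : ∃ t, chk3 f_mm_202_b t 1 1 1 = true :=
  ⟨(l 3), by decide +kernel⟩

theorem c_mm_202_b : CertF 1239849684 370763052 1073741824 536870912 134217728 67108864 false false false .pp 2 0 2
    ndF2q2b ndF4q2 pcF0 Cut.none Ext.none :=
  certF0 (fam := false) (s1 := false) (s2 := false) (a := 2) (b := 0) (c := 2) (cn := .pp) (n1 := ndF2q2b) (n2 := ndF4q2) (pc := pcF0) (cut := Cut.none) (xt := Ext.none) (P1 := 1239849684) (W1 := 370763052) (P2 := 1073741824) (W2 := 536870912) (P3 := 134217728) (W3 := 67108864)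
    rfl k0_mm_202_b

noncomputable def f_mm_203_a : ℕ → ℕ → ℕ → ℕ → Bool := onCell 0 536870912 0 1230186008 134217728 67108864
    (rowF 0 false false false .up 2 0 3 (qsf 0 536870912 0 1230186008 0) ndF2q2a ndF4q3 pcF0 Cut.none Ext.none)

def k0_mm_203_a : ∃ t, chk3 f_mm_203_a t 1 1 1 = true :=
  ⟨(b (l 2) (l 3)), by decide +kernel⟩

theorem c_mm_203_a : CertF 0 536870912 0 1230186008 134217728 67108864 false false false .up 2 0 3
    ndF2q2a ndF4q3 pcF0 Cut.none Ext.none :=
  certF0 (fam := false) (s1 := false) (s2 := false) (a := 2) (b := 0) (c := 3) (cn := .up) (n1 := ndF2q2a) (n2 := ndF4q3) (pc := pcF0) (cut := Cut.none) (xt := Ext.none) (P1 := 0) (W1 := 536870912) (P2 := 0) (W2 := 1230186008) (P3 := 134217728) (W3 := 67108864)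
    rfl k0_mm_203_a

noncomputable def f_mm_203_b : ℕ → ℕ → ℕ → ℕ → Bool := onCell 1239849684 370763052 0 1230186008 134217728 67108864
    (rowF 0 false false false .up 2 0 3 (qsf 1239849684 370763052 0 1230186008 0) ndF2q2b ndF4q3 pcF0 Cut.none Ext.none)

def k0_mm_203_b : ∃ t, chk3 f_mm_203_b t 1 1 1 = true :=
  ⟨(b (l 3) (l 3)), by decide +kernel⟩

theorem c_mm_203_b : CertF 1239849684 370763052 0 1230186008 134217728 67108864 false false false .up 2 0 3
    ndF2q2b ndF4q3 pcF0 Cut.none Ext.none :=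
  certF0 (fam := false) (s1 := false) (s2 := false) (a := 2) (b := 0) (c := 3) (cn := .up) (n1 := ndF2q2b) (n2 := ndF4q3) (pc := pcF0) (cut := Cut.none) (xt := Ext.none) (P1 := 1239849684) (W1 := 370763052) (P2 := 0) (W2 := 1230186008) (P3 := 134217728) (W3 := 67108864)
    rfl k0_mm_203_b

noncomputable def f_mm_213_a : ℕ → ℕ → ℕ → ℕ → Bool := onCell 0 536870912 0 1230186008 134217728 67108864
    (rowF 0 false false false .pnn 2 1 3 (qsf 0 536870912 0 1230186008 1) ndF2q2a ndF4q3 pcF1 Cut.none Ext.none)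

def k0_mm_213_a : ∃ t, chk3 f_mm_213_a t 1 1 1 = true :=
  ⟨(b (l 5) (l 3)), by decide +kernel⟩

theorem c_mm_213_a : CertF 0 536870912 0 1230186008 134217728 67108864 false false false .pnn 2 1 3
    ndF2q2a ndF4q3 pcF1 Cut.none Ext.none :=
  certF0 (fam := false) (s1 := false) (s2 := false) (a := 2) (b := 1) (c := 3) (cn := .pnn) (n1 := ndF2q2a) (n2 := ndF4q3) (pc := pcF1) (cut := Cut.none) (xt := Ext.none) (P1 := 0) (W1 := 536870912) (P2 := 0) (W2 := 1230186008) (P3 := 134217728) (W3 := 67108864)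
    rfl k0_mm_213_a

noncomputable def f_mm_213_b : ℕ → ℕ → ℕ → ℕ → Bool := onCell 1239849684 370763052 0 1230186008 134217728 67108864
    (rowF 0 false false false .pnn 2 1 3 (qsf 1239849684 370763052 0 1230186008 1) ndF2q2b ndF4q3 pcF1 Cut.none Ext.none)

def k0_mm_213_b : ∃ t, chk3 f_mm_213_b t 1 1 1 = true :=
  ⟨(b (l 3) (l 3)), by decide +kernel⟩

theorem c_mm_213_b : CertF 1239849684 370763052 0 1230186008 134217728 67108864 false false false .pnn 2 1 3
    ndF2q2b ndF4q3 pcF1 Cut.none Ext.none :=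
  certF0 (fam := false) (s1 := false) (s2 := false) (a := 2) (b := 1) (c := 3) (cn := .pnn) (n1 := ndF2q2b) (n2 := ndF4q3) (pc := pcF1) (cut := Cut.none) (xt := Ext.none) (P1 := 1239849684) (W1 := 370763052) (P2 := 0) (W2 := 1230186008) (P3 := 134217728) (W3 := 67108864)
    rfl k0_mm_213_b

noncomputable def f_mm_303 : ℕ → ℕ → ℕ → ℕ → Bool := onCell 0 536870912 0 1230186008 134217728 67108864
    (rowF 2 false false false .npn 3 0 3 (qsf 1610612736 536870912 0 1230186008 0) ndF2q3 ndF4q3 pcF0 Cut.none Ext.none)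

def k0_mm_303 : ∃ t, chk3 f_mm_303 t 1 1 1 = true :=
  ⟨(b (l 3) (l 3)), by decide +kernel⟩

theorem c_mm_303 : CertF 1610612736 536870912 0 1230186008 134217728 67108864 false false false .npn 3 0 3
    ndF2q3 ndF4q3 pcF0 Cut.none Ext.none :=
  certF2 (fam := false) (s1 := false) (s2 := false) (a := 3) (b := 0) (c := 3) (cn := .npn) (n1 := ndF2q3) (n2 := ndF4q3) (pc := pcF0) (cut := Cut.none) (xt := Ext.none) (P1 := 1610612736) (W1 := 536870912) (P2 := 0) (W2 := 1230186008) (P3 := 134217728) (W3 := 67108864)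
    rfl (fun _ => rfl) k0_mm_303

noncomputable def f_mm_313 : ℕ → ℕ → ℕ → ℕ → Bool := onCell 1610612736 536870912 0 1230186008 134217728 67108864
    (rowF 0 false false false .dn 3 1 3 (qsf 1610612736 536870912 0 1230186008 1) ndF2q3 ndF4q3 pcF1 Cut.none Ext.none)

def k0_mm_313 : ∃ t, chk3 f_mm_313 t 1 1 1 = true :=
  ⟨(b (l 3) (l 1)), by decide +kernel⟩

theorem c_mm_313 : CertF 1610612736 536870912 0 1230186008 134217728 67108864 false false false .dn 3 1 3
    ndF2q3 ndF4q3 pcF1 Cut.none Ext.none :=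
  certF0 (fam := false) (s1 := false) (s2 := false) (a := 3) (b := 1) (c := 3) (cn := .dn) (n1 := ndF2q3) (n2 := ndF4q3) (pc := pcF1) (cut := Cut.none) (xt := Ext.none) (P1 := 1610612736) (W1 := 536870912) (P2 := 0) (W2 := 1230186008) (P3 := 134217728) (W3 := 67108864)
    rfl k0_mm_313

end Pool.Agent.Strip051.G.I1_8_3_16.Tab.C.FB24

namespace Pool.Agent.Strip051.G.I1_8_3_16.Tab.C.FB25

open Pool.Agent.Strip051.PB Pool.Agent.Strip051.PB.T
open Pool.Agent.Strip051.G.I1_8_3_16.Tab

noncomputable def f_pp_001 : ℕ → ℕ → ℕ → ℕ → Bool := onCell 0 536870912 0 536870912 134217728 67108864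
    (rowF 1 false true true .up 0 0 1 (qsf 0 536870912 536870912 536870912 0) ndF2q0 ndF5q1 pcF0 Cut.none Ext.none)

def k0_pp_001 : ∃ t, chk3 f_pp_001 t 1 1 1 = true :=
  ⟨(l 3), by decide +kernel⟩

theorem c_pp_001 : CertF 0 536870912 536870912 536870912 134217728 67108864 false true true .up 0 0 1
    ndF2q0 ndF5q1 pcF0 Cut.none Ext.none :=
  certF1 (fam := false) (s1 := true) (s2 := true) (a := 0) (b := 0) (c := 1) (cn := .up) (n1 := ndF2q0) (n2 := ndF5q1) (pc := pcF0) (cut := Cut.none) (xt := Ext.none) (P1 := 0) (W1 := 536870912) (P2 := 536870912) (W2 := 536870912) (P3 := 134217728) (W3 := 67108864)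
    rfl (fun _ => rfl) k0_pp_001

noncomputable def cut_pp_011 : Cut := Cut.of [[⟨0, 0, 0, 67108864⟩, ⟨1, 1, 0, 67108864⟩, ⟨2, 1, 0, 67108864⟩]]

noncomputable def f_pp_011 : ℕ → ℕ → ℕ → ℕ → Bool := onCell 0 536870912 536870912 536870912 134217728 67108864
    (rowF 1 false true true .pnn 0 1 1 (qsf 0 536870912 536870912 536870912 1) ndF2q0 ndF5q1 pcF1 cut_pp_011 Ext.none)

def k0_pp_011 : ∃ t, chk3 f_pp_011 t 1 1 1 = true :=
  ⟨(a (b (l 3) (b (l 3) (a (a (a (b (l 3) (b (l 3) (l 6))) (l 3)) (l 3)) (l 3)))) (l 3)), by decide +kernel⟩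

theorem c_pp_011 : CertF 0 536870912 536870912 536870912 134217728 67108864 false true true .pnn 0 1 1
    ndF2q0 ndF5q1 pcF1 cut_pp_011 Ext.none :=
  certF1 (fam := false) (s1 := true) (s2 := true) (a := 0) (b := 1) (c := 1) (cn := .pnn) (n1 := ndF2q0) (n2 := ndF5q1) (pc := pcF1) (cut := cut_pp_011) (xt := Ext.none) (P1 := 0) (W1 := 536870912) (P2 := 536870912) (W2 := 536870912) (P3 := 134217728) (W3 := 67108864)
    rfl (fun _ => rfl) k0_pp_011

noncomputable def cut_pp_012 : Cut := Cut.of [[⟨0, 0, 0, 67108864⟩, ⟨1, 1, 0, 67108864⟩, ⟨2, 1, 0, 67108864⟩]]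

noncomputable def f_pp_012 : ℕ → ℕ → ℕ → ℕ → Bool := onCell 0 536870912 536870912 536870912 134217728 67108864
    (rowF 1 false true true .pnp 0 1 2 (qsf 0 536870912 1073741824 536870912 1) ndF2q0 ndF5q2 pcF1 cut_pp_012 Ext.none)

def k0_pp_012 : ∃ t, chk3 f_pp_012 t 1 1 1 = true :=
  ⟨(b (l 3) (a (b (l 3) (a (a (a (b (l 1) (b (l 3) (l 6))) (l 3)) (l 3)) (l 3))) (l 3))), by decide +kernel⟩

theorem c_pp_012 : CertF 0 536870912 1073741824 536870912 134217728 67108864 false true true .pnp 0 1 2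
    ndF2q0 ndF5q2 pcF1 cut_pp_012 Ext.none :=
  certF1 (fam := false) (s1 := true) (s2 := true) (a := 0) (b := 1) (c := 2) (cn := .pnp) (n1 := ndF2q0) (n2 := ndF5q2) (pc := pcF1) (cut := cut_pp_012) (xt := Ext.none) (P1 := 0) (W1 := 536870912) (P2 := 1073741824) (W2 := 536870912) (P3 := 134217728) (W3 := 67108864)
    rfl (fun _ => rfl) k0_pp_012

noncomputable def cut_pp_022 : Cut := Cut.of [[⟨0, 0, 0, 67108864⟩, ⟨1, 1, 0, 67108864⟩, ⟨2, 1, 0, 67108864⟩]]

noncomputable def f_pp_022 : ℕ → ℕ → ℕ → ℕ → Bool := onCell 0 536870912 1073741824 536870912 134217728 67108864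
    (rowF 1 false true true .pp 0 2 2 (qsf 0 536870912 1073741824 536870912 2) ndF2q0 ndF5q2 pcF2 cut_pp_022 Ext.none)

def k0_pp_022 : ∃ t, chk3 f_pp_022 t 2 2 1 = true :=
  ⟨(a (b (b (a (b (a (a (l 6) (a (l 6) (l 3))) (l 3)) (a (b (a (a (l 6) (a (l 6) (l 16747336))) (a (l 16762248) (l 16734744))) (a (a (a (c (a (l 16703704) (l 16706416)) (l 16703704)) (c (l 16710424) (l 16687968))) (b (l 16702904) (l 16689656))) (a (l 16706416) (l 16715944)))) (b (l 3) (l 16740792)))) (l 3)) (a (b (a (a (a (a (b (c (l 16678304) (l 16676472)) (c (l 16630688) (l 16628296))) (b (l 16682816) (l 16655912))) (b (l 16701616) (l 16642904))) (b (l 16724856) (l 16677320))) (a (b (l 16700888) (l 16673272)) (l 16710664))) (a (a (a (c (b (l 16627792) (l 16580136)) (b (l 16603616) (l 16576152))) (c (l 16624424) (l 16620304))) (b (l 16651520) (l 16603280))) (b (l 16672776) (l 16710920)))) (b (a (l 16714640) (l 3)) (a (b (l 16862488) (l 17004888)) (l 17076104))))) (b (b (b (a (a (a (c (l 16578824)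 (l 16552672)) (l 16573648)) (l 16917624)) (l 17204192)) (a (a (a (c (a (b (l 16736440) (l 16908504)) (l 16977672)) (l 16570968)) (l 16831624)) (b (l 17059840) (l 17146928))) (b (l 17295312) (b (l 17337944) (b (l 17359400) (l 17373576)))))) (a (a (a (a (c (l 17271176) (l 16565032)) (l 16954752)) (l 17176720)) (l 17349824)) (l 17488040))) (a (a (a (b (c (l 17718088) (l 17145016)) (l 17583608)) (b (l 17533208) (l 17797656))) (b (l 17619744) (l 17830456))) (a (l 17758368) (l 17762528))))) (b (b (l 3) (b (l 3) (a (l 3) (l 3)))) (b (b (b (l 17487000) (b (l 17407024) (b (l 17439856) (a (l 17442240) (l 17482000))))) (l 17549512)) (a (l 17758264) (l 17761256))))), by decide +kernel⟩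

def k1_pp_022 : ∃ t, chk3 f_pp_022 t 2 3 1 = true :=
  ⟨(a (b (a (b (a (a (l 18071440) (l 18073072)) (l 18060520)) (a (l 18300504) (l 18251352))) (b (l 18021248) (l 18185840))) (a (b (l 18382432) (l 18414992)) (l 18306384))) (b (a (l 18060680) (l 18031240)) (a (l 18236776) (l 2)))), by decide +kernel⟩

def k2_pp_022 : ∃ t, chk3 f_pp_022 t 3 1 1 = true :=
  ⟨(b (a (b (l 3) (b (b (b (l 17466872) (b (l 17520368) (l 17638664))) (l 17636552)) (l 17800016))) (b (b (l 3) (l 430203333559)) (b (b (b (l 17655480) (l 2)) (l 2)) (l 2)))) (a (b (b (l 17966808) (l 2)) (l 2)) (l 2))), by decide +kernel⟩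

theorem s3_pp_022 : ∃ t, chk3 f_pp_022 t 2 1 1 = true := ex3_b k0_pp_022 k1_pp_022

theorem s4_pp_022 : ∃ t, chk3 f_pp_022 t 1 1 1 = true := ex3_a s3_pp_022 k2_pp_022

theorem c_pp_022 : CertF 0 536870912 1073741824 536870912 134217728 67108864 false true true .pp 0 2 2
    ndF2q0 ndF5q2 pcF2 cut_pp_022 Ext.none :=
  certF1 (fam := false) (s1 := true) (s2 := true) (a := 0) (b := 2) (c := 2) (cn := .pp) (n1 := ndF2q0) (n2 := ndF5q2) (pc := pcF2) (cut := cut_pp_022) (xt := Ext.none) (P1 := 0) (W1 := 536870912) (P2 := 1073741824) (W2 := 536870912) (P3 := 134217728) (W3 := 67108864)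
    rfl (fun _ => rfl) s4_pp_022

noncomputable def f_pp_023 : ℕ → ℕ → ℕ → ℕ → Bool := onCell 1073741824 536870912 0 1230186008 134217728 67108864
    (rowF 2 false true true .up 0 2 3 (qsf 0 536870912 0 1230186008 2) ndF2q0 ndF5q3 pcF2 Cut.none Ext.none)

def k0_pp_023 : ∃ t, chk3 f_pp_023 t 1 1 1 = true :=
  ⟨(a (b (l 2) (a (b (l 2) (b (l 2) (a (l 3) (l 17639680)))) (a (b (l 2) (b (a (a (l 17859928) (l 17862112)) (l 17880504)) (a (a (l 17649392) (a (l 17672744) (l 17687592))) (l 17727688)))) (b (l 18053264) (b (l 17925288) (l 17823816)))))) (b (a (l 2) (l 18185896)) (b (l 18110760) (b (l 18148064) (b (l 18105400) (l 18134912)))))), by decide +kernel⟩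

theorem c_pp_023 : CertF 0 536870912 0 1230186008 134217728 67108864 false true true .up 0 2 3
    ndF2q0 ndF5q3 pcF2 Cut.none Ext.none :=
  certF2 (fam := false) (s1 := true) (s2 := true) (a := 0) (b := 2) (c := 3) (cn := .up) (n1 := ndF2q0) (n2 := ndF5q3) (pc := pcF2) (cut := Cut.none) (xt := Ext.none) (P1 := 0) (W1 := 536870912) (P2 := 0) (W2 := 1230186008) (P3 := 134217728) (W3 := 67108864)
    rfl (fun _ => rfl) k0_pp_023

noncomputable def f_pp_033 : ℕ → ℕ → ℕ → ℕ → Bool := onCell 0 536870912 0 1230186008 134217728 67108864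
    (rowF 0 false true true .pnn 0 3 3 (qsf 0 536870912 0 1230186008 3) ndF2q0 ndF5q3 pcF3 Cut.none Ext.none)

def k0_pp_033 : ∃ t, chk3 f_pp_033 t 1 1 1 = true :=
  ⟨(b (b (a (l 4) (a (l 17752712) (l 17745328))) (a (a (a (b (l 4) (l 17780752)) (l 17750440)) (b (l 17770496) (l 17732864))) (a (b (l 17771720) (l 17926536)) (b (l 17782376) (l 17537816))))) (b (a (a (b (b (l 17827536) (l 17864192)) (l 18005168)) (l 17814032)) (l 17621072)) (a (b (a (l 18212408) (l 18029728)) (a (l 18360800) (l 18066848))) (l 1)))), by decide +kernel⟩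

theorem c_pp_033 : CertF 0 536870912 0 1230186008 134217728 67108864 false true true .pnn 0 3 3
    ndF2q0 ndF5q3 pcF3 Cut.none Ext.none :=
  certF0 (fam := false) (s1 := true) (s2 := true) (a := 0) (b := 3) (c := 3) (cn := .pnn) (n1 := ndF2q0) (n2 := ndF5q3) (pc := pcF3) (cut := Cut.none) (xt := Ext.none) (P1 := 0) (W1 := 536870912) (P2 := 0) (W2 := 1230186008) (P3 := 134217728) (W3 := 67108864)
    rfl k0_pp_033

noncomputable def f_pp_101 : ℕ → ℕ → ℕ → ℕ → Bool := onCell 536870912 536870912 536870912 536870912 134217728 67108864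
    (rowF 0 false true true .npn 1 0 1 (qsf 536870912 536870912 536870912 536870912 0) ndF2q1 ndF5q1 pcF0 Cut.none Ext.none)

def k0_pp_101 : ∃ t, chk3 f_pp_101 t 1 1 1 = true :=
  ⟨(l 3), by decide +kernel⟩

theorem c_pp_101 : CertF 536870912 536870912 536870912 536870912 134217728 67108864 false true true .npn 1 0 1
    ndF2q1 ndF5q1 pcF0 Cut.none Ext.none :=
  certF0 (fam := false) (s1 := true) (s2 := true) (a := 1) (b := 0) (c := 1) (cn := .npn) (n1 := ndF2q1) (n2 := ndF5q1) (pc := pcF0) (cut := Cut.none) (xt := Ext.none) (P1 := 536870912) (W1 := 536870912) (P2 := 536870912) (W2 := 536870912) (P3 := 134217728) (W3 := 67108864)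
    rfl k0_pp_101

noncomputable def f_pp_102 : ℕ → ℕ → ℕ → ℕ → Bool := onCell 536870912 536870912 1073741824 536870912 134217728 67108864
    (rowF 0 false true true .npp 1 0 2 (qsf 536870912 536870912 1073741824 536870912 0) ndF2q1 ndF5q2 pcF0 Cut.none Ext.none)

def k0_pp_102 : ∃ t, chk3 f_pp_102 t 1 1 1 = true :=
  ⟨(l 3), by decide +kernel⟩

theorem c_pp_102 : CertF 536870912 536870912 1073741824 536870912 134217728 67108864 false true true .npp 1 0 2
    ndF2q1 ndF5q2 pcF0 Cut.none Ext.none :=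
  certF0 (fam := false) (s1 := true) (s2 := true) (a := 1) (b := 0) (c := 2) (cn := .npp) (n1 := ndF2q1) (n2 := ndF5q2) (pc := pcF0) (cut := Cut.none) (xt := Ext.none) (P1 := 536870912) (W1 := 536870912) (P2 := 1073741824) (W2 := 536870912) (P3 := 134217728) (W3 := 67108864)
    rfl k0_pp_102

noncomputable def f_pp_112 : ℕ → ℕ → ℕ → ℕ → Bool := onCell 536870912 536870912 1073741824 536870912 134217728 67108864
    (rowF 0 false true true .dn 1 1 2 (qsf 536870912 536870912 1073741824 536870912 1) ndF2q1 ndF5q2 pcF1 Cut.none Ext.none)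

def k0_pp_112 : ∃ t, chk3 f_pp_112 t 1 1 1 = true :=
  ⟨(l 3), by decide +kernel⟩

theorem c_pp_112 : CertF 536870912 536870912 1073741824 536870912 134217728 67108864 false true true .dn 1 1 2
    ndF2q1 ndF5q2 pcF1 Cut.none Ext.none :=
  certF0 (fam := false) (s1 := true) (s2 := true) (a := 1) (b := 1) (c := 2) (cn := .dn) (n1 := ndF2q1) (n2 := ndF5q2) (pc := pcF1) (cut := Cut.none) (xt := Ext.none) (P1 := 536870912) (W1 := 536870912) (P2 := 1073741824) (W2 := 536870912) (P3 := 134217728) (W3 := 67108864)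
    rfl k0_pp_112

noncomputable def f_pp_113 : ℕ → ℕ → ℕ → ℕ → Bool := onCell 536870912 536870912 0 1230186008 134217728 67108864
    (rowF 2 false true true .nn 1 1 3 (qsf 536870912 536870912 0 1230186008 1) ndF2q1 ndF5q3 pcF1 Cut.none Ext.none)

def k0_pp_113 : ∃ t, chk3 f_pp_113 t 1 1 1 = true :=
  ⟨(a (b (l 2) (b (b (l 2) (l 3)) (l 3))) (b (a (l 2) (b (a (l 2) (l 17171512)) (l 17596088))) (b (a (b (l 18176240) (l 18145456)) (b (l 17659160) (l 17659128))) (a (l 3) (b (l 17708840) (l 3)))))), by decide +kernel⟩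

theorem c_pp_113 : CertF 536870912 536870912 0 1230186008 134217728 67108864 false true true .nn 1 1 3
    ndF2q1 ndF5q3 pcF1 Cut.none Ext.none :=
  certF2 (fam := false) (s1 := true) (s2 := true) (a := 1) (b := 1) (c := 3) (cn := .nn) (n1 := ndF2q1) (n2 := ndF5q3) (pc := pcF1) (cut := Cut.none) (xt := Ext.none) (P1 := 536870912) (W1 := 536870912) (P2 := 0) (W2 := 1230186008) (P3 := 134217728) (W3 := 67108864)
    rfl (fun _ => rfl) k0_pp_113

noncomputable def f_pp_123 : ℕ → ℕ → ℕ → ℕ → Bool := onCell 1073741824 536870912 0 1230186008 134217728 67108864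
    (rowF 2 false true true .npn 1 2 3 (qsf 536870912 536870912 0 1230186008 2) ndF2q1 ndF5q3 pcF2 Cut.none Ext.none)

def k0_pp_123 : ∃ t, chk3 f_pp_123 t 1 1 1 = true :=
  ⟨(b (b (a (a (l 16817224) (l 16925144)) (a (l 16969744) (l 16953480))) (a (a (a (l 17096712) (a (a (l 16994056) (l 16959024)) (l 16915392))) (a (a (l 16855168) (l 16881792)) (l 16916816))) (a (l 17014688) (l 17008264)))) (b (a (a (a (l 17314832) (a (a (l 17215688) (l 17184656)) (b (l 17093592) (l 17218408)))) (a (a (a (l 17103120) (l 17078024)) (l 17047696)) (l 17115496))) (b (l 16928544) (l 16937480))) (a (b (a (a (l 17493712) (a (a (l 17420280) (l 17393096)) (l 17354792))) (a (b (l 17246608) (l 17369664)) (l 17203728))) (a (a (l 3) (l 17566592)) (a (a (l 428458490455) (l 1)) (l 1)))) (l 1)))), by decide +kernel⟩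

theorem c_pp_123 : CertF 536870912 536870912 0 1230186008 134217728 67108864 false true true .npn 1 2 3
    ndF2q1 ndF5q3 pcF2 Cut.none Ext.none :=
  certF2 (fam := false) (s1 := true) (s2 := true) (a := 1) (b := 2) (c := 3) (cn := .npn) (n1 := ndF2q1) (n2 := ndF5q3) (pc := pcF2) (cut := Cut.none) (xt := Ext.none) (P1 := 536870912) (W1 := 536870912) (P2 := 0) (W2 := 1230186008) (P3 := 134217728) (W3 := 67108864)
    rfl (fun _ => rfl) k0_pp_123

noncomputable def f_pp_133 : ℕ → ℕ → ℕ → ℕ → Bool := onCell 1610612736 536870912 0 1230186008 134217728 67108864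
    (rowF 2 false true true .dn 1 3 3 (qsf 536870912 536870912 0 1230186008 3) ndF2q1 ndF5q3 pcF3 Cut.none Ext.none)

def k0_pp_133 : ∃ t, chk3 f_pp_133 t 1 1 1 = true :=
  ⟨(b (a (a (b (l 17015568) (l 1)) (l 1)) (l 1)) (l 1)), by decide +kernel⟩

theorem c_pp_133 : CertF 536870912 536870912 0 1230186008 134217728 67108864 false true true .dn 1 3 3
    ndF2q1 ndF5q3 pcF3 Cut.none Ext.none :=
  certF2 (fam := false) (s1 := true) (s2 := true) (a := 1) (b := 3) (c := 3) (cn := .dn) (n1 := ndF2q1) (n2 := ndF5q3) (pc := pcF3) (cut := Cut.none) (xt := Ext.none) (P1 := 536870912) (W1 := 536870912) (P2 := 0) (W2 := 1230186008) (P3 := 134217728) (W3 := 67108864)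
    rfl (fun _ => rfl) k0_pp_133

noncomputable def f_pp_202_a : ℕ → ℕ → ℕ → ℕ → Bool := onCell 0 536870912 1073741824 536870912 134217728 67108864
    (rowF 0 false true true .pp 2 0 2 (qsf 0 536870912 1073741824 536870912 0) ndF2q2a ndF5q2 pcF0 Cut.none Ext.none)

def k0_pp_202_a : ∃ t, chk3 f_pp_202_a t 1 1 1 = true :=
  ⟨(l 5), by decide +kernel⟩

theorem c_pp_202_a : CertF 0 536870912 1073741824 536870912 134217728 67108864 false true true .pp 2 0 2
    ndF2q2a ndF5q2 pcF0 Cut.none Ext.none :=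
  certF0 (fam := false) (s1 := true) (s2 := true) (a := 2) (b := 0) (c := 2) (cn := .pp) (n1 := ndF2q2a) (n2 := ndF5q2) (pc := pcF0) (cut := Cut.none) (xt := Ext.none) (P1 := 0) (W1 := 536870912) (P2 := 1073741824) (W2 := 536870912) (P3 := 134217728) (W3 := 67108864)
    rfl k0_pp_202_a

noncomputable def f_pp_202_b : ℕ → ℕ → ℕ → ℕ → Bool := onCell 1239849684 370763052 1073741824 536870912 134217728 67108864
    (rowF 0 false true true .pp 2 0 2 (qsf 1239849684 370763052 1073741824 536870912 0) ndF2q2b ndF5q2 pcF0 Cut.none Ext.none)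

def k0_pp_202_b : ∃ t, chk3 f_pp_202_b t 1 1 1 = true :=
  ⟨(l 5), by decide +kernel⟩

theorem c_pp_202_b : CertF 1239849684 370763052 1073741824 536870912 134217728 67108864 false true true .pp 2 0 2
    ndF2q2b ndF5q2 pcF0 Cut.none Ext.none :=
  certF0 (fam := false) (s1 := true) (s2 := true) (a := 2) (b := 0) (c := 2) (cn := .pp) (n1 := ndF2q2b) (n2 := ndF5q2) (pc := pcF0) (cut := Cut.none) (xt := Ext.none) (P1 := 1239849684) (W1 := 370763052) (P2 := 1073741824) (W2 := 536870912) (P3 := 134217728) (W3 := 67108864)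
    rfl k0_pp_202_b

noncomputable def f_pp_203_a : ℕ → ℕ → ℕ → ℕ → Bool := onCell 0 536870912 0 1230186008 134217728 67108864
    (rowF 0 false true true .up 2 0 3 (qsf 0 536870912 0 1230186008 0) ndF2q2a ndF5q3 pcF0 Cut.none Ext.none)

def k0_pp_203_a : ∃ t, chk3 f_pp_203_a t 1 1 1 = true :=
  ⟨(b (l 2) (l 3)), by decide +kernel⟩

theorem c_pp_203_a : CertF 0 536870912 0 1230186008 134217728 67108864 false true true .up 2 0 3
    ndF2q2a ndF5q3 pcF0 Cut.none Ext.none :=
  certF0 (fam := false) (s1 := true) (s2 := true) (a := 2) (b := 0) (c := 3) (cn := .up) (n1 := ndF2q2a) (n2 := ndF5q3) (pc := pcF0) (cut := Cut.none) (xt := Ext.none) (P1 := 0) (W1 := 536870912) (P2 := 0) (W2 := 1230186008) (P3 := 134217728) (W3 := 67108864)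
    rfl k0_pp_203_a

noncomputable def f_pp_203_b : ℕ → ℕ → ℕ → ℕ → Bool := onCell 1239849684 370763052 0 1230186008 134217728 67108864
    (rowF 0 false true true .up 2 0 3 (qsf 1239849684 370763052 0 1230186008 0) ndF2q2b ndF5q3 pcF0 Cut.none Ext.none)

def k0_pp_203_b : ∃ t, chk3 f_pp_203_b t 1 1 1 = true :=
  ⟨(b (l 3) (l 3)), by decide +kernel⟩

theorem c_pp_203_b : CertF 1239849684 370763052 0 1230186008 134217728 67108864 false true true .up 2 0 3
    ndF2q2b ndF5q3 pcF0 Cut.none Ext.none :=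
  certF0 (fam := false) (s1 := true) (s2 := true) (a := 2) (b := 0) (c := 3) (cn := .up) (n1 := ndF2q2b) (n2 := ndF5q3) (pc := pcF0) (cut := Cut.none) (xt := Ext.none) (P1 := 1239849684) (W1 := 370763052) (P2 := 0) (W2 := 1230186008) (P3 := 134217728) (W3 := 67108864)
    rfl k0_pp_203_b

noncomputable def cut_pp_213_a : Cut := Cut.of [[⟨0, 1, 0, 39843005⟩, ⟨1, 1, 0, 39843005⟩, ⟨2, 2, 0, 5814905⟩]]

noncomputable def f_pp_213_a : ℕ → ℕ → ℕ → ℕ → Bool := onCell 0 536870912 0 1230186008 134217728 67108864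
    (rowF 0 false true true .pnn 2 1 3 (qsf 0 536870912 0 1230186008 1) ndF2q2a ndF5q3 pcF1 cut_pp_213_a Ext.none)

def k0_pp_213_a : ∃ t, chk3 f_pp_213_a t 1 1 1 = true :=
  ⟨(b (a (l 3) (b (a (l 3) (b (a (l 3) (a (l 3) (b (l 6) (l 3)))) (l 3))) (l 3))) (l 3)), by decide +kernel⟩

theorem c_pp_213_a : CertF 0 536870912 0 1230186008 134217728 67108864 false true true .pnn 2 1 3
    ndF2q2a ndF5q3 pcF1 cut_pp_213_a Ext.none :=
  certF0 (fam := false) (s1 := true) (s2 := true) (a := 2) (b := 1) (c := 3) (cn := .pnn) (n1 := ndF2q2a) (n2 := ndF5q3) (pc := pcF1) (cut := cut_pp_213_a) (xt := Ext.none) (P1 := 0) (W1 := 536870912) (P2 := 0) (W2 := 1230186008) (P3 := 134217728) (W3 := 67108864)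
    rfl k0_pp_213_a

noncomputable def cut_pp_213_b : Cut := Cut.of [[⟨0, 1, 0, 39843005⟩, ⟨1, 1, 0, 39843005⟩, ⟨2, 2, 0, 5814905⟩]]

noncomputable def f_pp_213_b : ℕ → ℕ → ℕ → ℕ → Bool := onCell 1239849684 370763052 0 1230186008 134217728 67108864
    (rowF 0 false true true .pnn 2 1 3 (qsf 1239849684 370763052 0 1230186008 1) ndF2q2b ndF5q3 pcF1 cut_pp_213_b Ext.none)

def k0_pp_213_b : ∃ t, chk3 f_pp_213_b t 1 1 1 = true :=
  ⟨(b (l 3) (l 3)), by decide +kernel⟩

theorem c_pp_213_b : CertF 1239849684 370763052 0 1230186008 134217728 67108864 false true true .pnn 2 1 3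
    ndF2q2b ndF5q3 pcF1 cut_pp_213_b Ext.none :=
  certF0 (fam := false) (s1 := true) (s2 := true) (a := 2) (b := 1) (c := 3) (cn := .pnn) (n1 := ndF2q2b) (n2 := ndF5q3) (pc := pcF1) (cut := cut_pp_213_b) (xt := Ext.none) (P1 := 1239849684) (W1 := 370763052) (P2 := 0) (W2 := 1230186008) (P3 := 134217728) (W3 := 67108864)
    rfl k0_pp_213_b

noncomputable def f_pp_303 : ℕ → ℕ → ℕ → ℕ → Bool := onCell 0 536870912 0 1230186008 134217728 67108864
    (rowF 2 false true true .npn 3 0 3 (qsf 1610612736 536870912 0 1230186008 0) ndF2q3 ndF5q3 pcF0 Cut.none Ext.none)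

def k0_pp_303 : ∃ t, chk3 f_pp_303 t 1 1 1 = true :=
  ⟨(b (l 3) (l 3)), by decide +kernel⟩

theorem c_pp_303 : CertF 1610612736 536870912 0 1230186008 134217728 67108864 false true true .npn 3 0 3
    ndF2q3 ndF5q3 pcF0 Cut.none Ext.none :=
  certF2 (fam := false) (s1 := true) (s2 := true) (a := 3) (b := 0) (c := 3) (cn := .npn) (n1 := ndF2q3) (n2 := ndF5q3) (pc := pcF0) (cut := Cut.none) (xt := Ext.none) (P1 := 1610612736) (W1 := 536870912) (P2 := 0) (W2 := 1230186008) (P3 := 134217728) (W3 := 67108864)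
    rfl (fun _ => rfl) k0_pp_303

noncomputable def f_pp_313 : ℕ → ℕ → ℕ → ℕ → Bool := onCell 1610612736 536870912 0 1230186008 134217728 67108864
    (rowF 0 false true true .dn 3 1 3 (qsf 1610612736 536870912 0 1230186008 1) ndF2q3 ndF5q3 pcF1 Cut.none Ext.none)

def k0_pp_313 : ∃ t, chk3 f_pp_313 t 1 1 1 = true :=
  ⟨(b (l 3) (l 1)), by decide +kernel⟩

theorem c_pp_313 : CertF 1610612736 536870912 0 1230186008 134217728 67108864 false true true .dn 3 1 3
    ndF2q3 ndF5q3 pcF1 Cut.none Ext.none :=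
  certF0 (fam := false) (s1 := true) (s2 := true) (a := 3) (b := 1) (c := 3) (cn := .dn) (n1 := ndF2q3) (n2 := ndF5q3) (pc := pcF1) (cut := Cut.none) (xt := Ext.none) (P1 := 1610612736) (W1 := 536870912) (P2 := 0) (W2 := 1230186008) (P3 := 134217728) (W3 := 67108864)
    rfl k0_pp_313

noncomputable def f_pm_001 : ℕ → ℕ → ℕ → ℕ → Bool := onCell 0 536870912 536870912 536870912 134217728 67108864
    (rowF 0 false true false .up 0 0 1 (qsf 0 536870912 536870912 536870912 0) ndF2q0 ndF5q1 pcF0 Cut.none Ext.none)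

def k0_pm_001 : ∃ t, chk3 f_pm_001 t 1 1 1 = true :=
  ⟨(l 4), by decide +kernel⟩

theorem c_pm_001 : CertF 0 536870912 536870912 536870912 134217728 67108864 false true false .up 0 0 1
    ndF2q0 ndF5q1 pcF0 Cut.none Ext.none :=
  certF0 (fam := false) (s1 := true) (s2 := false) (a := 0) (b := 0) (c := 1) (cn := .up) (n1 := ndF2q0) (n2 := ndF5q1) (pc := pcF0) (cut := Cut.none) (xt := Ext.none) (P1 := 0) (W1 := 536870912) (P2 := 536870912) (W2 := 536870912) (P3 := 134217728) (W3 := 67108864)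
    rfl k0_pm_001

noncomputable def f_pm_011 : ℕ → ℕ → ℕ → ℕ → Bool := onCell 0 536870912 536870912 536870912 134217728 67108864
    (rowF 0 false true false .pnn 0 1 1 (qsf 0 536870912 536870912 536870912 1) ndF2q0 ndF5q1 pcF1 Cut.none Ext.none)

def k0_pm_011 : ∃ t, chk3 f_pm_011 t 1 1 1 = true :=
  ⟨(l 4), by decide +kernel⟩

theorem c_pm_011 : CertF 0 536870912 536870912 536870912 134217728 67108864 false true false .pnn 0 1 1
    ndF2q0 ndF5q1 pcF1 Cut.none Ext.none :=
  certF0 (fam := false) (s1 := true) (s2 := false) (a := 0) (b := 1) (c := 1) (cn := .pnn) (n1 := ndF2q0) (n2 := ndF5q1) (pc := pcF1) (cut := Cut.none) (xt := Ext.none) (P1 := 0) (W1 := 536870912) (P2 := 536870912) (W2 := 536870912) (P3 := 134217728) (W3 := 67108864)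
    rfl k0_pm_011

noncomputable def f_pm_012 : ℕ → ℕ → ℕ → ℕ → Bool := onCell 0 536870912 1073741824 536870912 134217728 67108864
    (rowF 0 false true false .pnp 0 1 2 (qsf 0 536870912 1073741824 536870912 1) ndF2q0 ndF5q2 pcF1 Cut.none Ext.none)

def k0_pm_012 : ∃ t, chk3 f_pm_012 t 1 1 1 = true :=
  ⟨(l 4), by decide +kernel⟩

theorem c_pm_012 : CertF 0 536870912 1073741824 536870912 134217728 67108864 false true false .pnp 0 1 2
    ndF2q0 ndF5q2 pcF1 Cut.none Ext.none :=
  certF0 (fam := false) (s1 := true) (s2 := false) (a := 0) (b := 1) (c := 2) (cn := .pnp) (n1 := ndF2q0) (n2 := ndF5q2) (pc := pcF1) (cut := Cut.none) (xt := Ext.none) (P1 := 0) (W1 := 536870912) (P2 := 1073741824) (W2 := 536870912) (P3 := 134217728) (W3 := 67108864)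
    rfl k0_pm_012

noncomputable def f_pm_022 : ℕ → ℕ → ℕ → ℕ → Bool := onCell 0 536870912 1073741824 536870912 134217728 67108864
    (rowF 0 false true false .pp 0 2 2 (qsf 0 536870912 1073741824 536870912 2) ndF2q0 ndF5q2 pcF2 Cut.none Ext.none)

def k0_pm_022 : ∃ t, chk3 f_pm_022 t 1 1 1 = true :=
  ⟨(l 4), by decide +kernel⟩

theorem c_pm_022 : CertF 0 536870912 1073741824 536870912 134217728 67108864 false true false .pp 0 2 2
    ndF2q0 ndF5q2 pcF2 Cut.none Ext.none :=
  certF0 (fam := false) (s1 := true) (s2 := false) (a := 0) (b := 2) (c := 2) (cn := .pp) (n1 := ndF2q0) (n2 := ndF5q2) (pc := pcF2) (cut := Cut.none) (xt := Ext.none) (P1 := 0) (W1 := 536870912) (P2 := 1073741824) (W2 := 536870912) (P3 := 134217728) (W3 := 67108864)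
    rfl k0_pm_022

noncomputable def f_pm_023 : ℕ → ℕ → ℕ → ℕ → Bool := onCell 0 536870912 0 1230186008 134217728 67108864
    (rowF 0 false true false .up 0 2 3 (qsf 0 536870912 0 1230186008 2) ndF2q0 ndF5q3 pcF2 Cut.none Ext.none)

def k0_pm_023 : ∃ t, chk3 f_pm_023 t 1 1 1 = true :=
  ⟨(b (l 4) (l 4)), by decide +kernel⟩

theorem c_pm_023 : CertF 0 536870912 0 1230186008 134217728 67108864 false true false .up 0 2 3
    ndF2q0 ndF5q3 pcF2 Cut.none Ext.none :=
  certF0 (fam := false) (s1 := true) (s2 := false) (a := 0) (b := 2) (c := 3) (cn := .up) (n1 := ndF2q0) (n2 := ndF5q3) (pc := pcF2) (cut := Cut.none) (xt := Ext.none) (P1 := 0) (W1 := 536870912) (P2 := 0) (W2 := 1230186008) (P3 := 134217728) (W3 := 67108864)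
    rfl k0_pm_023

noncomputable def f_pm_033 : ℕ → ℕ → ℕ → ℕ → Bool := onCell 0 536870912 0 1230186008 134217728 67108864
    (rowF 0 false true false .pnn 0 3 3 (qsf 0 536870912 0 1230186008 3) ndF2q0 ndF5q3 pcF3 Cut.none Ext.none)

def k0_pm_033 : ∃ t, chk3 f_pm_033 t 1 1 1 = true :=
  ⟨(b (l 4) (l 4)), by decide +kernel⟩

theorem c_pm_033 : CertF 0 536870912 0 1230186008 134217728 67108864 false true false .pnn 0 3 3
    ndF2q0 ndF5q3 pcF3 Cut.none Ext.none :=
  certF0 (fam := false) (s1 := true) (s2 := false) (a := 0) (b := 3) (c := 3) (cn := .pnn) (n1 := ndF2q0) (n2 := ndF5q3) (pc := pcF3) (cut := Cut.none) (xt := Ext.none) (P1 := 0) (W1 := 536870912) (P2 := 0) (W2 := 1230186008) (P3 := 134217728) (W3 := 67108864)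
    rfl k0_pm_033

noncomputable def f_pm_101 : ℕ → ℕ → ℕ → ℕ → Bool := onCell 536870912 536870912 536870912 536870912 134217728 67108864
    (rowF 0 false true false .npn 1 0 1 (qsf 536870912 536870912 536870912 536870912 0) ndF2q1 ndF5q1 pcF0 Cut.none Ext.none)

def k0_pm_101 : ∃ t, chk3 f_pm_101 t 1 1 1 = true :=
  ⟨(l 4), by decide +kernel⟩

theorem c_pm_101 : CertF 536870912 536870912 536870912 536870912 134217728 67108864 false true false .npn 1 0 1
    ndF2q1 ndF5q1 pcF0 Cut.none Ext.none :=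
  certF0 (fam := false) (s1 := true) (s2 := false) (a := 1) (b := 0) (c := 1) (cn := .npn) (n1 := ndF2q1) (n2 := ndF5q1) (pc := pcF0) (cut := Cut.none) (xt := Ext.none) (P1 := 536870912) (W1 := 536870912) (P2 := 536870912) (W2 := 536870912) (P3 := 134217728) (W3 := 67108864)
    rfl k0_pm_101

noncomputable def f_pm_102 : ℕ → ℕ → ℕ → ℕ → Bool := onCell 536870912 536870912 1073741824 536870912 134217728 67108864
    (rowF 0 false true false .npp 1 0 2 (qsf 536870912 536870912 1073741824 536870912 0) ndF2q1 ndF5q2 pcF0 Cut.none Ext.none)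

def k0_pm_102 : ∃ t, chk3 f_pm_102 t 1 1 1 = true :=
  ⟨(l 4), by decide +kernel⟩

theorem c_pm_102 : CertF 536870912 536870912 1073741824 536870912 134217728 67108864 false true false .npp 1 0 2
    ndF2q1 ndF5q2 pcF0 Cut.none Ext.none :=
  certF0 (fam := false) (s1 := true) (s2 := false) (a := 1) (b := 0) (c := 2) (cn := .npp) (n1 := ndF2q1) (n2 := ndF5q2) (pc := pcF0) (cut := Cut.none) (xt := Ext.none) (P1 := 536870912) (W1 := 536870912) (P2 := 1073741824) (W2 := 536870912) (P3 := 134217728) (W3 := 67108864)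
    rfl k0_pm_102

noncomputable def f_pm_112 : ℕ → ℕ → ℕ → ℕ → Bool := onCell 536870912 536870912 1073741824 536870912 134217728 67108864
    (rowF 0 false true false .dn 1 1 2 (qsf 536870912 536870912 1073741824 536870912 1) ndF2q1 ndF5q2 pcF1 Cut.none Ext.none)

def k0_pm_112 : ∃ t, chk3 f_pm_112 t 1 1 1 = true :=
  ⟨(l 4), by decide +kernel⟩

theorem c_pm_112 : CertF 536870912 536870912 1073741824 536870912 134217728 67108864 false true false .dn 1 1 2
    ndF2q1 ndF5q2 pcF1 Cut.none Ext.none :=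
  certF0 (fam := false) (s1 := true) (s2 := false) (a := 1) (b := 1) (c := 2) (cn := .dn) (n1 := ndF2q1) (n2 := ndF5q2) (pc := pcF1) (cut := Cut.none) (xt := Ext.none) (P1 := 536870912) (W1 := 536870912) (P2 := 1073741824) (W2 := 536870912) (P3 := 134217728) (W3 := 67108864)
    rfl k0_pm_112

noncomputable def f_pm_113 : ℕ → ℕ → ℕ → ℕ → Bool := onCell 536870912 536870912 0 1230186008 134217728 67108864
    (rowF 0 false true false .nn 1 1 3 (qsf 536870912 536870912 0 1230186008 1) ndF2q1 ndF5q3 pcF1 Cut.none Ext.none)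

def k0_pm_113 : ∃ t, chk3 f_pm_113 t 1 1 1 = true :=
  ⟨(b (b (a (l 2) (l 17212872)) (l 4)) (l 4)), by decide +kernel⟩

theorem c_pm_113 : CertF 536870912 536870912 0 1230186008 134217728 67108864 false true false .nn 1 1 3
    ndF2q1 ndF5q3 pcF1 Cut.none Ext.none :=
  certF0 (fam := false) (s1 := true) (s2 := false) (a := 1) (b := 1) (c := 3) (cn := .nn) (n1 := ndF2q1) (n2 := ndF5q3) (pc := pcF1) (cut := Cut.none) (xt := Ext.none) (P1 := 536870912) (W1 := 536870912) (P2 := 0) (W2 := 1230186008) (P3 := 134217728) (W3 := 67108864)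
    rfl k0_pm_113

noncomputable def f_pm_123 : ℕ → ℕ → ℕ → ℕ → Bool := onCell 1073741824 536870912 0 1230186008 134217728 67108864
    (rowF 2 false true false .npn 1 2 3 (qsf 536870912 536870912 0 1230186008 2) ndF2q1 ndF5q3 pcF2 Cut.none Ext.none)

def k0_pm_123 : ∃ t, chk3 f_pm_123 t 1 1 1 = true :=
  ⟨(b (a (a (l 17227632) (l 16976984)) (l 4)) (l 4)), by decide +kernel⟩

theorem c_pm_123 : CertF 536870912 536870912 0 1230186008 134217728 67108864 false true false .npn 1 2 3
    ndF2q1 ndF5q3 pcF2 Cut.none Ext.none :=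
  certF2 (fam := false) (s1 := true) (s2 := false) (a := 1) (b := 2) (c := 3) (cn := .npn) (n1 := ndF2q1) (n2 := ndF5q3) (pc := pcF2) (cut := Cut.none) (xt := Ext.none) (P1 := 536870912) (W1 := 536870912) (P2 := 0) (W2 := 1230186008) (P3 := 134217728) (W3 := 67108864)
    rfl (fun _ => rfl) k0_pm_123

noncomputable def f_pm_133 : ℕ → ℕ → ℕ → ℕ → Bool := onCell 536870912 536870912 0 1230186008 134217728 67108864
    (rowF 0 false true false .dn 1 3 3 (qsf 536870912 536870912 0 1230186008 3) ndF2q1 ndF5q3 pcF3 Cut.none Ext.none)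

def k0_pm_133 : ∃ t, chk3 f_pm_133 t 1 1 1 = true :=
  ⟨(a (b (l 4) (l 1)) (l 1)), by decide +kernel⟩

theorem c_pm_133 : CertF 536870912 536870912 0 1230186008 134217728 67108864 false true false .dn 1 3 3
    ndF2q1 ndF5q3 pcF3 Cut.none Ext.none :=
  certF0 (fam := false) (s1 := true) (s2 := false) (a := 1) (b := 3) (c := 3) (cn := .dn) (n1 := ndF2q1) (n2 := ndF5q3) (pc := pcF3) (cut := Cut.none) (xt := Ext.none) (P1 := 536870912) (W1 := 536870912) (P2 := 0) (W2 := 1230186008) (P3 := 134217728) (W3 := 67108864)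
    rfl k0_pm_133

noncomputable def f_pm_202_a : ℕ → ℕ → ℕ → ℕ → Bool := onCell 0 536870912 1073741824 536870912 134217728 67108864
    (rowF 0 false true false .pp 2 0 2 (qsf 0 536870912 1073741824 536870912 0) ndF2q2a ndF5q2 pcF0 Cut.none Ext.none)

def k0_pm_202_a : ∃ t, chk3 f_pm_202_a t 1 1 1 = true :=
  ⟨(b (l 4) (a (b (l 18442920) (b (l 18081184) (l 17733144))) (b (l 4) (a (b (l 18208896) (l 17873832)) (b (l 18335800) (l 18050304)))))), by decide +kernel⟩

theorem c_pm_202_a : CertF 0 536870912 1073741824 536870912 134217728 67108864 false true false .pp 2 0 2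
    ndF2q2a ndF5q2 pcF0 Cut.none Ext.none :=
  certF0 (fam := false) (s1 := true) (s2 := false) (a := 2) (b := 0) (c := 2) (cn := .pp) (n1 := ndF2q2a) (n2 := ndF5q2) (pc := pcF0) (cut := Cut.none) (xt := Ext.none) (P1 := 0) (W1 := 536870912) (P2 := 1073741824) (W2 := 536870912) (P3 := 134217728) (W3 := 67108864)
    rfl k0_pm_202_a

noncomputable def f_pm_202_b : ℕ → ℕ → ℕ → ℕ → Bool := onCell 0 536870912 1073741824 536870912 134217728 67108864
    (rowF 2 false true false .pp 2 0 2 (qsf 1239849684 370763052 1073741824 536870912 0) ndF2q2b ndF5q2 pcF0 Cut.none Ext.none)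

def k0_pm_202_b : ∃ t, chk3 f_pm_202_b t 1 1 1 = true :=
  ⟨(b (l 4) (a (b (a (l 18371560) (l 18425184)) (a (l 17814264) (l 17844768))) (b (l 1) (a (l 286725209703) (l 1))))), by decide +kernel⟩

theorem c_pm_202_b : CertF 1239849684 370763052 1073741824 536870912 134217728 67108864 false true false .pp 2 0 2
    ndF2q2b ndF5q2 pcF0 Cut.none Ext.none :=
  certF2 (fam := false) (s1 := true) (s2 := false) (a := 2) (b := 0) (c := 2) (cn := .pp) (n1 := ndF2q2b) (n2 := ndF5q2) (pc := pcF0) (cut := Cut.none) (xt := Ext.none) (P1 := 1239849684) (W1 := 370763052) (P2 := 1073741824) (W2 := 536870912) (P3 := 134217728) (W3 := 67108864)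
    rfl (fun _ => rfl) k0_pm_202_b

noncomputable def f_pm_203_a : ℕ → ℕ → ℕ → ℕ → Bool := onCell 0 536870912 0 1230186008 134217728 67108864
    (rowF 0 false true false .up 2 0 3 (qsf 0 536870912 0 1230186008 0) ndF2q2a ndF5q3 pcF0 Cut.none Ext.none)

def k0_pm_203_a : ∃ t, chk3 f_pm_203_a t 1 1 1 = true :=
  ⟨(b (l 2) (b (l 2) (b (a (l 17749304) (l 2)) (a (b (l 17688032) (l 17456328)) (b (a (l 17552248) (b (l 2) (l 17409624))) (b (a (l 17384472) (l 17278784)) (l 17612648))))))), by decide +kernel⟩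

theorem c_pm_203_a : CertF 0 536870912 0 1230186008 134217728 67108864 false true false .up 2 0 3
    ndF2q2a ndF5q3 pcF0 Cut.none Ext.none :=
  certF0 (fam := false) (s1 := true) (s2 := false) (a := 2) (b := 0) (c := 3) (cn := .up) (n1 := ndF2q2a) (n2 := ndF5q3) (pc := pcF0) (cut := Cut.none) (xt := Ext.none) (P1 := 0) (W1 := 536870912) (P2 := 0) (W2 := 1230186008) (P3 := 134217728) (W3 := 67108864)
    rfl k0_pm_203_a

noncomputable def f_pm_203_b : ℕ → ℕ → ℕ → ℕ → Bool := onCell 0 536870912 0 1230186008 134217728 67108864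
    (rowF 2 false true false .up 2 0 3 (qsf 1239849684 370763052 0 1230186008 0) ndF2q2b ndF5q3 pcF0 Cut.none Ext.none)

def k0_pm_203_b : ∃ t, chk3 f_pm_203_b t 1 1 1 = true :=
  ⟨(b (a (l 2) (b (l 3) (a (l 2) (b (l 3) (l 173578867303))))) (b (a (b (l 2) (a (l 2) (l 488118758919))) (a (b (l 17662584) (l 17905592)) (b (l 17564832) (l 17812504)))) (a (a (b (l 2) (l 17621544)) (b (a (l 17868040) (l 18039672)) (l 17753856))) (b (b (l 18162840) (a (l 17891808) (l 17717488))) (b (l 126200767191) (a (l 17510776) (l 17372088))))))), by decide +kernel⟩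

theorem c_pm_203_b : CertF 1239849684 370763052 0 1230186008 134217728 67108864 false true false .up 2 0 3
    ndF2q2b ndF5q3 pcF0 Cut.none Ext.none :=
  certF2 (fam := false) (s1 := true) (s2 := false) (a := 2) (b := 0) (c := 3) (cn := .up) (n1 := ndF2q2b) (n2 := ndF5q3) (pc := pcF0) (cut := Cut.none) (xt := Ext.none) (P1 := 1239849684) (W1 := 370763052) (P2 := 0) (W2 := 1230186008) (P3 := 134217728) (W3 := 67108864)
    rfl (fun _ => rfl) k0_pm_203_b

noncomputable def cut_pm_213_a : Cut := Cut.of [[⟨0, 1, 0, 39843005⟩, ⟨1, 1, 0, 39843005⟩, ⟨2, 2, 0, 5814905⟩]]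

noncomputable def f_pm_213_a : ℕ → ℕ → ℕ → ℕ → Bool := onCell 0 536870912 0 1230186008 134217728 67108864
    (rowF 0 false true false .pnn 2 1 3 (qsf 0 536870912 0 1230186008 1) ndF2q2a ndF5q3 pcF1 cut_pm_213_a Ext.none)

def k0_pm_213_a : ∃ t, chk3 f_pm_213_a t 1 1 1 = true :=
  ⟨(b (a (b (b (l 3) (l 248202827719)) (b (l 16901528) (l 16936592))) (b (b (a (l 281488243831) (a (b (l 287930646615) (l 16814400)) (b (a (l 267529525991) (l 6)) (l 16814408)))) (a (l 16956136) (l 17062544))) (b (a (l 16898912) (l 16910040)) (a (l 16942744) (l 16950264))))) (b (a (b (l 16928496) (l 17038504)) (b (a (l 16931656) (l 16917232)) (l 17165280))) (b (a (l 17384008) (b (l 17438896) (l 17695992))) (a (l 17781312) (b (l 17911600) (l 18058816)))))), by decide +kernel⟩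

theorem c_pm_213_a : CertF 0 536870912 0 1230186008 134217728 67108864 false true false .pnn 2 1 3
    ndF2q2a ndF5q3 pcF1 cut_pm_213_a Ext.none :=
  certF0 (fam := false) (s1 := true) (s2 := false) (a := 2) (b := 1) (c := 3) (cn := .pnn) (n1 := ndF2q2a) (n2 := ndF5q3) (pc := pcF1) (cut := cut_pm_213_a) (xt := Ext.none) (P1 := 0) (W1 := 536870912) (P2 := 0) (W2 := 1230186008) (P3 := 134217728) (W3 := 67108864)
    rfl k0_pm_213_a

noncomputable def cut_pm_213_b : Cut := Cut.of [[⟨0, 1, 0, 39843005⟩, ⟨1, 1, 0, 39843005⟩, ⟨2, 2, 0, 5814905⟩]]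

noncomputable def f_pm_213_b : ℕ → ℕ → ℕ → ℕ → Bool := onCell 536870912 536870912 0 1230186008 134217728 67108864
    (rowF 2 false true false .pnn 2 1 3 (qsf 1239849684 370763052 0 1230186008 1) ndF2q2b ndF5q3 pcF1 cut_pm_213_b Ext.none)

def k0_pm_213_b : ∃ t, chk3 f_pm_213_b t 1 1 1 = true :=
  ⟨(b (a (b (l 3) (a (a (l 196126806791) (l 181094302871)) (b (l 183778635431) (l 16988864)))) (a (b (b (l 3) (a (l 243370598823) (l 228338444759))) (b (a (l 16922064) (l 16874984)) (l 16996920))) (l 1))) (b (a (a (b (l 17077544) (l 16946048)) (b (l 16927928) (l 17085856))) (l 1)) (a (b (a (l 17383176) (l 1)) (l 1)) (l 1)))), by decide +kernel⟩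

theorem c_pm_213_b : CertF 1239849684 370763052 0 1230186008 134217728 67108864 false true false .pnn 2 1 3
    ndF2q2b ndF5q3 pcF1 cut_pm_213_b Ext.none :=
  certF2 (fam := false) (s1 := true) (s2 := false) (a := 2) (b := 1) (c := 3) (cn := .pnn) (n1 := ndF2q2b) (n2 := ndF5q3) (pc := pcF1) (cut := cut_pm_213_b) (xt := Ext.none) (P1 := 1239849684) (W1 := 370763052) (P2 := 0) (W2 := 1230186008) (P3 := 134217728) (W3 := 67108864)
    rfl (fun _ => rfl) k0_pm_213_b

noncomputable def f_pm_303 : ℕ → ℕ → ℕ → ℕ → Bool := onCell 0 536870912 0 1230186008 134217728 67108864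
    (rowF 2 false true false .npn 3 0 3 (qsf 1610612736 536870912 0 1230186008 0) ndF2q3 ndF5q3 pcF0 Cut.none Ext.none)

def k0_pm_303 : ∃ t, chk3 f_pm_303 t 1 1 1 = true :=
  ⟨(b (a (l 3) (b (l 3) (a (l 3) (a (l 219748984119) (l 199884692055))))) (b (a (b (a (l 3) (l 17476672)) (a (a (l 132240738743) (l 17810768)) (b (l 17670600) (l 17715320)))) (a (b (l 17331416) (l 17544064)) (b (l 17179072) (l 1)))) (a (b (a (l 17657224) (l 17949904)) (b (l 17447856) (l 134252873639))) (l 1)))), by decide +kernel⟩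

theorem c_pm_303 : CertF 1610612736 536870912 0 1230186008 134217728 67108864 false true false .npn 3 0 3
    ndF2q3 ndF5q3 pcF0 Cut.none Ext.none :=
  certF2 (fam := false) (s1 := true) (s2 := false) (a := 3) (b := 0) (c := 3) (cn := .npn) (n1 := ndF2q3) (n2 := ndF5q3) (pc := pcF0) (cut := Cut.none) (xt := Ext.none) (P1 := 1610612736) (W1 := 536870912) (P2 := 0) (W2 := 1230186008) (P3 := 134217728) (W3 := 67108864)
    rfl (fun _ => rfl) k0_pm_303

noncomputable def f_pm_313 : ℕ → ℕ → ℕ → ℕ → Bool := onCell 1610612736 536870912 0 1230186008 134217728 67108864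
    (rowF 0 false true false .dn 3 1 3 (qsf 1610612736 536870912 0 1230186008 1) ndF2q3 ndF5q3 pcF1 Cut.none Ext.none)

def k0_pm_313 : ∃ t, chk3 f_pm_313 t 1 1 1 = true :=
  ⟨(b (b (l 3) (l 1)) (l 1)), by decide +kernel⟩

theorem c_pm_313 : CertF 1610612736 536870912 0 1230186008 134217728 67108864 false true false .dn 3 1 3
    ndF2q3 ndF5q3 pcF1 Cut.none Ext.none :=
  certF0 (fam := false) (s1 := true) (s2 := false) (a := 3) (b := 1) (c := 3) (cn := .dn) (n1 := ndF2q3) (n2 := ndF5q3) (pc := pcF1) (cut := Cut.none) (xt := Ext.none) (P1 := 1610612736) (W1 := 536870912) (P2 := 0) (W2 := 1230186008) (P3 := 134217728) (W3 := 67108864)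
    rfl k0_pm_313

noncomputable def f_mm_001 : ℕ → ℕ → ℕ → ℕ → Bool := onCell 0 536870912 0 536870912 134217728 67108864
    (rowF 1 false false false .up 0 0 1 (qsf 0 536870912 536870912 536870912 0) ndF2q0 ndF5q1 pcF0 Cut.none Ext.none)

def k0_mm_001 : ∃ t, chk3 f_mm_001 t 1 1 1 = true :=
  ⟨(l 3), by decide +kernel⟩

theorem c_mm_001 : CertF 0 536870912 536870912 536870912 134217728 67108864 false false false .up 0 0 1
    ndF2q0 ndF5q1 pcF0 Cut.none Ext.none :=
  certF1 (fam := false) (s1 := false) (s2 := false) (a := 0) (b := 0) (c := 1) (cn := .up) (n1 := ndF2q0) (n2 := ndF5q1) (pc := pcF0) (cut := Cut.none) (xt := Ext.none) (P1 := 0) (W1 := 536870912) (P2 := 536870912) (W2 := 536870912) (P3 := 134217728) (W3 := 67108864)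
    rfl (fun _ => rfl) k0_mm_001

noncomputable def f_mm_011 : ℕ → ℕ → ℕ → ℕ → Bool := onCell 0 536870912 536870912 536870912 134217728 67108864
    (rowF 1 false false false .pnn 0 1 1 (qsf 0 536870912 536870912 536870912 1) ndF2q0 ndF5q1 pcF1 Cut.none Ext.none)

def k0_mm_011 : ∃ t, chk3 f_mm_011 t 1 1 1 = true :=
  ⟨(l 5), by decide +kernel⟩

theorem c_mm_011 : CertF 0 536870912 536870912 536870912 134217728 67108864 false false false .pnn 0 1 1
    ndF2q0 ndF5q1 pcF1 Cut.none Ext.none :=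
  certF1 (fam := false) (s1 := false) (s2 := false) (a := 0) (b := 1) (c := 1) (cn := .pnn) (n1 := ndF2q0) (n2 := ndF5q1) (pc := pcF1) (cut := Cut.none) (xt := Ext.none) (P1 := 0) (W1 := 536870912) (P2 := 536870912) (W2 := 536870912) (P3 := 134217728) (W3 := 67108864)
    rfl (fun _ => rfl) k0_mm_011

noncomputable def f_mm_012 : ℕ → ℕ → ℕ → ℕ → Bool := onCell 0 536870912 1073741824 536870912 134217728 67108864
    (rowF 0 false false false .pnp 0 1 2 (qsf 0 536870912 1073741824 536870912 1) ndF2q0 ndF5q2 pcF1 Cut.none Ext.none)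

def k0_mm_012 : ∃ t, chk3 f_mm_012 t 1 1 1 = true :=
  ⟨(l 5), by decide +kernel⟩

theorem c_mm_012 : CertF 0 536870912 1073741824 536870912 134217728 67108864 false false false .pnp 0 1 2
    ndF2q0 ndF5q2 pcF1 Cut.none Ext.none :=
  certF0 (fam := false) (s1 := false) (s2 := false) (a := 0) (b := 1) (c := 2) (cn := .pnp) (n1 := ndF2q0) (n2 := ndF5q2) (pc := pcF1) (cut := Cut.none) (xt := Ext.none) (P1 := 0) (W1 := 536870912) (P2 := 1073741824) (W2 := 536870912) (P3 := 134217728) (W3 := 67108864)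
    rfl k0_mm_012

noncomputable def f_mm_022 : ℕ → ℕ → ℕ → ℕ → Bool := onCell 0 536870912 1073741824 536870912 134217728 67108864
    (rowF 0 false false false .pp 0 2 2 (qsf 0 536870912 1073741824 536870912 2) ndF2q0 ndF5q2 pcF2 Cut.none Ext.none)

def k0_mm_022 : ∃ t, chk3 f_mm_022 t 1 1 1 = true :=
  ⟨(l 5), by decide +kernel⟩

theorem c_mm_022 : CertF 0 536870912 1073741824 536870912 134217728 67108864 false false false .pp 0 2 2
    ndF2q0 ndF5q2 pcF2 Cut.none Ext.none :=
  certF0 (fam := false) (s1 := false) (s2 := false) (a := 0) (b := 2) (c := 2) (cn := .pp) (n1 := ndF2q0) (n2 := ndF5q2) (pc := pcF2) (cut := Cut.none) (xt := Ext.none) (P1 := 0) (W1 := 536870912) (P2 := 1073741824) (W2 := 536870912) (P3 := 134217728) (W3 := 67108864)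
    rfl k0_mm_022

noncomputable def f_mm_023 : ℕ → ℕ → ℕ → ℕ → Bool := onCell 0 536870912 0 1230186008 134217728 67108864
    (rowF 0 false false false .up 0 2 3 (qsf 0 536870912 0 1230186008 2) ndF2q0 ndF5q3 pcF2 Cut.none Ext.none)

def k0_mm_023 : ∃ t, chk3 f_mm_023 t 1 1 1 = true :=
  ⟨(l 5), by decide +kernel⟩

theorem c_mm_023 : CertF 0 536870912 0 1230186008 134217728 67108864 false false false .up 0 2 3
    ndF2q0 ndF5q3 pcF2 Cut.none Ext.none :=
  certF0 (fam := false) (s1 := false) (s2 := false) (a := 0) (b := 2) (c := 3) (cn := .up) (n1 := ndF2q0) (n2 := ndF5q3) (pc := pcF2) (cut := Cut.none) (xt := Ext.none) (P1 := 0) (W1 := 536870912) (P2 := 0) (W2 := 1230186008) (P3 := 134217728) (W3 := 67108864)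
    rfl k0_mm_023

noncomputable def f_mm_033 : ℕ → ℕ → ℕ → ℕ → Bool := onCell 0 536870912 0 1230186008 134217728 67108864
    (rowF 0 false false false .pnn 0 3 3 (qsf 0 536870912 0 1230186008 3) ndF2q0 ndF5q3 pcF3 Cut.none Ext.none)

def k0_mm_033 : ∃ t, chk3 f_mm_033 t 1 1 1 = true :=
  ⟨(l 5), by decide +kernel⟩

theorem c_mm_033 : CertF 0 536870912 0 1230186008 134217728 67108864 false false false .pnn 0 3 3
    ndF2q0 ndF5q3 pcF3 Cut.none Ext.none :=
  certF0 (fam := false) (s1 := false) (s2 := false) (a := 0) (b := 3) (c := 3) (cn := .pnn) (n1 := ndF2q0) (n2 := ndF5q3) (pc := pcF3) (cut := Cut.none) (xt := Ext.none) (P1 := 0) (W1 := 536870912) (P2 := 0) (W2 := 1230186008) (P3 := 134217728) (W3 := 67108864)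
    rfl k0_mm_033

noncomputable def f_mm_101 : ℕ → ℕ → ℕ → ℕ → Bool := onCell 536870912 536870912 536870912 536870912 134217728 67108864
    (rowF 0 false false false .npn 1 0 1 (qsf 536870912 536870912 536870912 536870912 0) ndF2q1 ndF5q1 pcF0 Cut.none Ext.none)

def k0_mm_101 : ∃ t, chk3 f_mm_101 t 1 1 1 = true :=
  ⟨(l 3), by decide +kernel⟩

theorem c_mm_101 : CertF 536870912 536870912 536870912 536870912 134217728 67108864 false false false .npn 1 0 1
    ndF2q1 ndF5q1 pcF0 Cut.none Ext.none :=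
  certF0 (fam := false) (s1 := false) (s2 := false) (a := 1) (b := 0) (c := 1) (cn := .npn) (n1 := ndF2q1) (n2 := ndF5q1) (pc := pcF0) (cut := Cut.none) (xt := Ext.none) (P1 := 536870912) (W1 := 536870912) (P2 := 536870912) (W2 := 536870912) (P3 := 134217728) (W3 := 67108864)
    rfl k0_mm_101

noncomputable def f_mm_102 : ℕ → ℕ → ℕ → ℕ → Bool := onCell 536870912 536870912 1073741824 536870912 134217728 67108864
    (rowF 0 false false false .npp 1 0 2 (qsf 536870912 536870912 1073741824 536870912 0) ndF2q1 ndF5q2 pcF0 Cut.none Ext.none)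

def k0_mm_102 : ∃ t, chk3 f_mm_102 t 1 1 1 = true :=
  ⟨(l 3), by decide +kernel⟩

theorem c_mm_102 : CertF 536870912 536870912 1073741824 536870912 134217728 67108864 false false false .npp 1 0 2
    ndF2q1 ndF5q2 pcF0 Cut.none Ext.none :=
  certF0 (fam := false) (s1 := false) (s2 := false) (a := 1) (b := 0) (c := 2) (cn := .npp) (n1 := ndF2q1) (n2 := ndF5q2) (pc := pcF0) (cut := Cut.none) (xt := Ext.none) (P1 := 536870912) (W1 := 536870912) (P2 := 1073741824) (W2 := 536870912) (P3 := 134217728) (W3 := 67108864)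
    rfl k0_mm_102

noncomputable def f_mm_112 : ℕ → ℕ → ℕ → ℕ → Bool := onCell 536870912 536870912 1073741824 536870912 134217728 67108864
    (rowF 0 false false false .dn 1 1 2 (qsf 536870912 536870912 1073741824 536870912 1) ndF2q1 ndF5q2 pcF1 Cut.none Ext.none)

def k0_mm_112 : ∃ t, chk3 f_mm_112 t 1 1 1 = true :=
  ⟨(l 3), by decide +kernel⟩

theorem c_mm_112 : CertF 536870912 536870912 1073741824 536870912 134217728 67108864 false false false .dn 1 1 2
    ndF2q1 ndF5q2 pcF1 Cut.none Ext.none :=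
  certF0 (fam := false) (s1 := false) (s2 := false) (a := 1) (b := 1) (c := 2) (cn := .dn) (n1 := ndF2q1) (n2 := ndF5q2) (pc := pcF1) (cut := Cut.none) (xt := Ext.none) (P1 := 536870912) (W1 := 536870912) (P2 := 1073741824) (W2 := 536870912) (P3 := 134217728) (W3 := 67108864)
    rfl k0_mm_112

noncomputable def f_mm_113 : ℕ → ℕ → ℕ → ℕ → Bool := onCell 536870912 536870912 0 1230186008 134217728 67108864
    (rowF 0 false false false .nn 1 1 3 (qsf 536870912 536870912 0 1230186008 1) ndF2q1 ndF5q3 pcF1 Cut.none Ext.none)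

def k0_mm_113 : ∃ t, chk3 f_mm_113 t 1 1 1 = true :=
  ⟨(l 5), by decide +kernel⟩

theorem c_mm_113 : CertF 536870912 536870912 0 1230186008 134217728 67108864 false false false .nn 1 1 3
    ndF2q1 ndF5q3 pcF1 Cut.none Ext.none :=
  certF0 (fam := false) (s1 := false) (s2 := false) (a := 1) (b := 1) (c := 3) (cn := .nn) (n1 := ndF2q1) (n2 := ndF5q3) (pc := pcF1) (cut := Cut.none) (xt := Ext.none) (P1 := 536870912) (W1 := 536870912) (P2 := 0) (W2 := 1230186008) (P3 := 134217728) (W3 := 67108864)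
    rfl k0_mm_113

noncomputable def f_mm_123 : ℕ → ℕ → ℕ → ℕ → Bool := onCell 536870912 536870912 0 1230186008 134217728 67108864
    (rowF 0 false false false .npn 1 2 3 (qsf 536870912 536870912 0 1230186008 2) ndF2q1 ndF5q3 pcF2 Cut.none Ext.none)

def k0_mm_123 : ∃ t, chk3 f_mm_123 t 1 1 1 = true :=
  ⟨(l 5), by decide +kernel⟩

theorem c_mm_123 : CertF 536870912 536870912 0 1230186008 134217728 67108864 false false false .npn 1 2 3
    ndF2q1 ndF5q3 pcF2 Cut.none Ext.none :=
  certF0 (fam := false) (s1 := false) (s2 := false) (a := 1) (b := 2) (c := 3) (cn := .npn) (n1 := ndF2q1) (n2 := ndF5q3) (pc := pcF2) (cut := Cut.none) (xt := Ext.none) (P1 := 536870912) (W1 := 536870912) (P2 := 0) (W2 := 1230186008) (P3 := 134217728) (W3 := 67108864)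
    rfl k0_mm_123

noncomputable def f_mm_133 : ℕ → ℕ → ℕ → ℕ → Bool := onCell 536870912 536870912 0 1230186008 134217728 67108864
    (rowF 0 false false false .dn 1 3 3 (qsf 536870912 536870912 0 1230186008 3) ndF2q1 ndF5q3 pcF3 Cut.none Ext.none)

def k0_mm_133 : ∃ t, chk3 f_mm_133 t 1 1 1 = true :=
  ⟨(l 5), by decide +kernel⟩

theorem c_mm_133 : CertF 536870912 536870912 0 1230186008 134217728 67108864 false false false .dn 1 3 3
    ndF2q1 ndF5q3 pcF3 Cut.none Ext.none :=
  certF0 (fam := false) (s1 := false) (s2 := false) (a := 1) (b := 3) (c := 3) (cn := .dn) (n1 := ndF2q1) (n2 := ndF5q3) (pc := pcF3) (cut := Cut.none) (xt := Ext.none) (P1 := 536870912) (W1 := 536870912) (P2 := 0) (W2 := 1230186008) (P3 := 134217728) (W3 := 67108864)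
    rfl k0_mm_133

noncomputable def cut_mm_202_a : Cut := Cut.of [[⟨0, 1, 0, 67108864⟩, ⟨1, 0, 0, 67108864⟩, ⟨2, 1, 0, 67108864⟩]]

noncomputable def f_mm_202_a : ℕ → ℕ → ℕ → ℕ → Bool := onCell 0 536870912 0 536870912 134217728 67108864
    (rowF 1 false false false .pp 2 0 2 (qsf 0 536870912 1073741824 536870912 0) ndF2q2a ndF5q2 pcF0 cut_mm_202_a Ext.none)

def k0_mm_202_a : ∃ t, chk3 f_mm_202_a t 1 1 1 = true :=
  ⟨(b (b (a (l 3) (b (b (a (l 3) (a (l 3) (b (l 6) (l 3)))) (l 3)) (l 3))) (l 3)) (l 3)), by decide +kernel⟩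

theorem c_mm_202_a : CertF 0 536870912 1073741824 536870912 134217728 67108864 false false false .pp 2 0 2
    ndF2q2a ndF5q2 pcF0 cut_mm_202_a Ext.none :=
  certF1 (fam := false) (s1 := false) (s2 := false) (a := 2) (b := 0) (c := 2) (cn := .pp) (n1 := ndF2q2a) (n2 := ndF5q2) (pc := pcF0) (cut := cut_mm_202_a) (xt := Ext.none) (P1 := 0) (W1 := 536870912) (P2 := 1073741824) (W2 := 536870912) (P3 := 134217728) (W3 := 67108864)
    rfl (fun _ => rfl) k0_mm_202_a

noncomputable def cut_mm_202_b : Cut := Cut.of [[⟨0, 1, 0, 67108864⟩, ⟨1, 0, 0, 67108864⟩, ⟨2, 1, 0, 67108864⟩]]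

noncomputable def f_mm_202_b : ℕ → ℕ → ℕ → ℕ → Bool := onCell 1239849684 370763052 0 536870912 134217728 67108864
    (rowF 1 false false false .pp 2 0 2 (qsf 1239849684 370763052 1073741824 536870912 0) ndF2q2b ndF5q2 pcF0 cut_mm_202_b Ext.none)

def k0_mm_202_b : ∃ t, chk3 f_mm_202_b t 1 1 1 = true :=
  ⟨(b (a (b (l 3) (l 3)) (l 3)) (a (l 3) (l 2))), by decide +kernel⟩

theorem c_mm_202_b : CertF 1239849684 370763052 1073741824 536870912 134217728 67108864 false false false .pp 2 0 2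
    ndF2q2b ndF5q2 pcF0 cut_mm_202_b Ext.none :=
  certF1 (fam := false) (s1 := false) (s2 := false) (a := 2) (b := 0) (c := 2) (cn := .pp) (n1 := ndF2q2b) (n2 := ndF5q2) (pc := pcF0) (cut := cut_mm_202_b) (xt := Ext.none) (P1 := 1239849684) (W1 := 370763052) (P2 := 1073741824) (W2 := 536870912) (P3 := 134217728) (W3 := 67108864)
    rfl (fun _ => rfl) k0_mm_202_b

noncomputable def f_mm_203_a : ℕ → ℕ → ℕ → ℕ → Bool := onCell 0 536870912 0 1230186008 134217728 67108864
    (rowF 0 false false false .up 2 0 3 (qsf 0 536870912 0 1230186008 0) ndF2q2a ndF5q3 pcF0 Cut.none Ext.none)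

def k0_mm_203_a : ∃ t, chk3 f_mm_203_a t 1 1 1 = true :=
  ⟨(b (l 2) (l 3)), by decide +kernel⟩

theorem c_mm_203_a : CertF 0 536870912 0 1230186008 134217728 67108864 false false false .up 2 0 3
    ndF2q2a ndF5q3 pcF0 Cut.none Ext.none :=
  certF0 (fam := false) (s1 := false) (s2 := false) (a := 2) (b := 0) (c := 3) (cn := .up) (n1 := ndF2q2a) (n2 := ndF5q3) (pc := pcF0) (cut := Cut.none) (xt := Ext.none) (P1 := 0) (W1 := 536870912) (P2 := 0) (W2 := 1230186008) (P3 := 134217728) (W3 := 67108864)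
    rfl k0_mm_203_a

noncomputable def f_mm_203_b : ℕ → ℕ → ℕ → ℕ → Bool := onCell 1239849684 370763052 0 1230186008 134217728 67108864
    (rowF 0 false false false .up 2 0 3 (qsf 1239849684 370763052 0 1230186008 0) ndF2q2b ndF5q3 pcF0 Cut.none Ext.none)

def k0_mm_203_b : ∃ t, chk3 f_mm_203_b t 1 1 1 = true :=
  ⟨(b (l 3) (l 3)), by decide +kernel⟩

theorem c_mm_203_b : CertF 1239849684 370763052 0 1230186008 134217728 67108864 false false false .up 2 0 3
    ndF2q2b ndF5q3 pcF0 Cut.none Ext.none :=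
  certF0 (fam := false) (s1 := false) (s2 := false) (a := 2) (b := 0) (c := 3) (cn := .up) (n1 := ndF2q2b) (n2 := ndF5q3) (pc := pcF0) (cut := Cut.none) (xt := Ext.none) (P1 := 1239849684) (W1 := 370763052) (P2 := 0) (W2 := 1230186008) (P3 := 134217728) (W3 := 67108864)
    rfl k0_mm_203_b

noncomputable def f_mm_213_a : ℕ → ℕ → ℕ → ℕ → Bool := onCell 0 536870912 0 1230186008 134217728 67108864
    (rowF 0 false false false .pnn 2 1 3 (qsf 0 536870912 0 1230186008 1) ndF2q2a ndF5q3 pcF1 Cut.none Ext.none)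

def k0_mm_213_a : ∃ t, chk3 f_mm_213_a t 1 1 1 = true :=
  ⟨(b (l 5) (l 3)), by decide +kernel⟩

theorem c_mm_213_a : CertF 0 536870912 0 1230186008 134217728 67108864 false false false .pnn 2 1 3
    ndF2q2a ndF5q3 pcF1 Cut.none Ext.none :=
  certF0 (fam := false) (s1 := false) (s2 := false) (a := 2) (b := 1) (c := 3) (cn := .pnn) (n1 := ndF2q2a) (n2 := ndF5q3) (pc := pcF1) (cut := Cut.none) (xt := Ext.none) (P1 := 0) (W1 := 536870912) (P2 := 0) (W2 := 1230186008) (P3 := 134217728) (W3 := 67108864)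
    rfl k0_mm_213_a

noncomputable def f_mm_213_b : ℕ → ℕ → ℕ → ℕ → Bool := onCell 1239849684 370763052 0 1230186008 134217728 67108864
    (rowF 0 false false false .pnn 2 1 3 (qsf 1239849684 370763052 0 1230186008 1) ndF2q2b ndF5q3 pcF1 Cut.none Ext.none)

def k0_mm_213_b : ∃ t, chk3 f_mm_213_b t 1 1 1 = true :=
  ⟨(b (l 3) (l 3)), by decide +kernel⟩

theorem c_mm_213_b : CertF 1239849684 370763052 0 1230186008 134217728 67108864 false false false .pnn 2 1 3
    ndF2q2b ndF5q3 pcF1 Cut.none Ext.none :=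
  certF0 (fam := false) (s1 := false) (s2 := false) (a := 2) (b := 1) (c := 3) (cn := .pnn) (n1 := ndF2q2b) (n2 := ndF5q3) (pc := pcF1) (cut := Cut.none) (xt := Ext.none) (P1 := 1239849684) (W1 := 370763052) (P2 := 0) (W2 := 1230186008) (P3 := 134217728) (W3 := 67108864)
    rfl k0_mm_213_b

noncomputable def f_mm_303 : ℕ → ℕ → ℕ → ℕ → Bool := onCell 0 536870912 0 1230186008 134217728 67108864
    (rowF 2 false false false .npn 3 0 3 (qsf 1610612736 536870912 0 1230186008 0) ndF2q3 ndF5q3 pcF0 Cut.none Ext.none)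

def k0_mm_303 : ∃ t, chk3 f_mm_303 t 1 1 1 = true :=
  ⟨(b (l 3) (l 3)), by decide +kernel⟩

theorem c_mm_303 : CertF 1610612736 536870912 0 1230186008 134217728 67108864 false false false .npn 3 0 3
    ndF2q3 ndF5q3 pcF0 Cut.none Ext.none :=
  certF2 (fam := false) (s1 := false) (s2 := false) (a := 3) (b := 0) (c := 3) (cn := .npn) (n1 := ndF2q3) (n2 := ndF5q3) (pc := pcF0) (cut := Cut.none) (xt := Ext.none) (P1 := 1610612736) (W1 := 536870912) (P2 := 0) (W2 := 1230186008) (P3 := 134217728) (W3 := 67108864)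
    rfl (fun _ => rfl) k0_mm_303

noncomputable def f_mm_313 : ℕ → ℕ → ℕ → ℕ → Bool := onCell 1610612736 536870912 0 1230186008 134217728 67108864
    (rowF 0 false false false .dn 3 1 3 (qsf 1610612736 536870912 0 1230186008 1) ndF2q3 ndF5q3 pcF1 Cut.none Ext.none)

def k0_mm_313 : ∃ t, chk3 f_mm_313 t 1 1 1 = true :=
  ⟨(b (l 3) (l 1)), by decide +kernel⟩

theorem c_mm_313 : CertF 1610612736 536870912 0 1230186008 134217728 67108864 false false false .dn 3 1 3
    ndF2q3 ndF5q3 pcF1 Cut.none Ext.none :=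
  certF0 (fam := false) (s1 := false) (s2 := false) (a := 3) (b := 1) (c := 3) (cn := .dn) (n1 := ndF2q3) (n2 := ndF5q3) (pc := pcF1) (cut := Cut.none) (xt := Ext.none) (P1 := 1610612736) (W1 := 536870912) (P2 := 0) (W2 := 1230186008) (P3 := 134217728) (W3 := 67108864)
    rfl k0_mm_313

end Pool.Agent.Strip051.G.I1_8_3_16.Tab.C.FB25

namespace Pool.Agent.Strip051.G.I1_8_3_16.Tab.C.FB30

open Pool.Agent.Strip051.PB Pool.Agent.Strip051.PB.T
open Pool.Agent.Strip051.G.I1_8_3_16.Tab

noncomputable def f_pp_001 : ℕ → ℕ → ℕ → ℕ → Bool := onCell 0 536870912 0 536870912 134217728 67108864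
    (rowF 1 false true true .up 0 0 1 (qsf 0 536870912 536870912 536870912 0) ndF3q0 ndF0q1 pcF0 Cut.none Ext.none)

def k0_pp_001 : ∃ t, chk3 f_pp_001 t 1 1 1 = true :=
  ⟨(a (l 3) (b (l 3) (b (l 3) (a (l 3) (b (l 3) (a (l 3) (b (l 3) (a (l 222434143943) (l 179484510695))))))))), by decide +kernel⟩

theorem c_pp_001 : CertF 0 536870912 536870912 536870912 134217728 67108864 false true true .up 0 0 1
    ndF3q0 ndF0q1 pcF0 Cut.none Ext.none :=
  certF1 (fam := false) (s1 := true) (s2 := true) (a := 0) (b := 0) (c := 1) (cn := .up) (n1 := ndF3q0) (n2 := ndF0q1) (pc := pcF0) (cut := Cut.none) (xt := Ext.none) (P1 := 0) (W1 := 536870912) (P2 := 536870912) (W2 := 536870912) (P3 := 134217728) (W3 := 67108864)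
    rfl (fun _ => rfl) k0_pp_001

noncomputable def f_pp_011 : ℕ → ℕ → ℕ → ℕ → Bool := onCell 0 536870912 536870912 536870912 134217728 67108864
    (rowF 0 false true true .pnn 0 1 1 (qsf 0 536870912 536870912 536870912 1) ndF3q0 ndF0q1 pcF1 Cut.none Ext.none)

def k0_pp_011 : ∃ t, chk3 f_pp_011 t 1 1 1 = true :=
  ⟨(b (l 3) (b (l 3) (b (a (a (l 3) (l 3)) (l 3)) (a (a (a (b (c (l 96269149335) (l 92510855815)) (l 17261504)) (b (l 17439416) (l 17233048))) (a (a (l 100027119975) (l 98953335111)) (b (l 17306184) (l 17157920)))) (a (a (b (l 198811376087) (l 17119736)) (b (a (l 225654835639) (l 207401222807)) (l 17345720))) (b (a (b (l 3) (l 187537689591)) (a (l 224581582807) (l 674345357895))) (a (b (l 17520920) (l 17359136)) (b (l 59628418519) (l 17510968))))))))), by decide +kernel⟩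

theorem c_pp_011 : CertF 0 536870912 536870912 536870912 134217728 67108864 false true true .pnn 0 1 1
    ndF3q0 ndF0q1 pcF1 Cut.none Ext.none :=
  certF0 (fam := false) (s1 := true) (s2 := true) (a := 0) (b := 1) (c := 1) (cn := .pnn) (n1 := ndF3q0) (n2 := ndF0q1) (pc := pcF1) (cut := Cut.none) (xt := Ext.none) (P1 := 0) (W1 := 536870912) (P2 := 536870912) (W2 := 536870912) (P3 := 134217728) (W3 := 67108864)
    rfl k0_pp_011

noncomputable def f_pp_012 : ℕ → ℕ → ℕ → ℕ → Bool := onCell 536870912 536870912 0 536870912 134217728 67108864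
    (rowF 2 false true true .pnp 0 1 2 (qsf 0 536870912 0 536870912 1) ndF3q0 ndF0q2 pcF1 Cut.none Ext.none)

def k0_pp_012 : ∃ t, chk3 f_pp_012 t 1 1 1 = true :=
  ⟨(a (b (a (b (l 2) (l 16970048)) (b (l 17277344) (l 16903280))) (a (b (l 17258136) (a (l 17538840) (l 17216112))) (b (l 17029816) (b (l 17013896) (l 17229808))))) (b (a (b (a (l 17395936) (l 17445576)) (l 17075664)) (a (l 17277352) (l 17213384))) (a (b (l 17096840) (b (l 17020448) (l 17209944))) (b (b (l 17048744) (l 17241512)) (a (b (l 17049448) (l 17164144)) (b (l 17110040) (b (l 17166184) (l 17223432)))))))), by decide +kernel⟩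

theorem c_pp_012 : CertF 0 536870912 0 536870912 134217728 67108864 false true true .pnp 0 1 2
    ndF3q0 ndF0q2 pcF1 Cut.none Ext.none :=
  certF2 (fam := false) (s1 := true) (s2 := true) (a := 0) (b := 1) (c := 2) (cn := .pnp) (n1 := ndF3q0) (n2 := ndF0q2) (pc := pcF1) (cut := Cut.none) (xt := Ext.none) (P1 := 0) (W1 := 536870912) (P2 := 0) (W2 := 536870912) (P3 := 134217728) (W3 := 67108864)
    rfl (fun _ => rfl) k0_pp_012

noncomputable def f_pp_022 : ℕ → ℕ → ℕ → ℕ → Bool := onCell 1073741824 536870912 0 536870912 134217728 67108864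
    (rowF 2 false true true .pp 0 2 2 (qsf 0 536870912 0 536870912 2) ndF3q0 ndF0q2 pcF2 Cut.none Ext.none)

def k0_pp_022 : ∃ t, chk3 f_pp_022 t 1 1 1 = true :=
  ⟨(a (b (a (b (a (l 17173272) (a (l 17151608) (l 17132448))) (a (l 17208624) (a (a (l 17195864) (l 17189808)) (a (l 17182144) (l 17173400))))) (a (a (b (l 17116024) (a (l 17164720) (l 17387888))) (b (l 17103688) (l 1))) (l 1))) (a (b (a (a (l 17276984) (l 17271152)) (a (a (l 17271200) (b (l 17246176) (l 17444920))) (a (l 430068706599) (b (l 17224488) (l 1))))) (a (b (a (l 17304576) (b (l 17300760) (l 177738890727))) (a (b (l 17308560) (a (l 17318216) (l 373159850311))) (b (a (l 17305664) (l 1)) (l 1)))) (a (a (b (l 415035896647) (l 1)) (l 1)) (l 1)))) (b (l 1) (l 1)))) (l 1)), by decide +kernel⟩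

theorem c_pp_022 : CertF 0 536870912 0 536870912 134217728 67108864 false true true .pp 0 2 2
    ndF3q0 ndF0q2 pcF2 Cut.none Ext.none :=
  certF2 (fam := false) (s1 := true) (s2 := true) (a := 0) (b := 2) (c := 2) (cn := .pp) (n1 := ndF3q0) (n2 := ndF0q2) (pc := pcF2) (cut := Cut.none) (xt := Ext.none) (P1 := 0) (W1 := 536870912) (P2 := 0) (W2 := 536870912) (P3 := 134217728) (W3 := 67108864)
    rfl (fun _ => rfl) k0_pp_022

end Pool.Agent.Strip051.G.I1_8_3_16.Tab.C.FB30

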