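import Pool.Agent.Strip051.G.I1_8_3_16.Tab

/-! # Certificates F11 (generated) -/

set_option linter.all false
set_option maxRecDepth 100000

namespace Pool.Agent.Strip051.G.I1_8_3_16.Tab.C.FB30

open Pool.Agent.Strip051.PB Pool.Agent.Strip051.PB.T
open Pool.Agent.Strip051.G.I1_8_3_16.Tab

noncomputable def cut_pp_101 : Cut := Cut.of [[⟨0, 1, 0, 67108864⟩, ⟨1, 0, 0, 67108864⟩, ⟨2, 1, 0, 67108864⟩]]

noncomputable def f_pp_101 : ℕ → ℕ → ℕ → ℕ → Bool := onCell 536870912 536870912 536870912 536870912 134217728 67108864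
    (rowF 0 false true true .npn 1 0 1 (qsf 536870912 536870912 536870912 536870912 0) ndF3q1 ndF0q1 pcF0 cut_pp_101 Ext.none)

def k0_pp_101 : ∃ t, chk3 f_pp_101 t 2 1 1 = true :=
  ⟨(b (l 3) (b (l 3) (a (b (l 3) (a (b (l 3) (b (c (l 17734800) (b (l 160693712887) (l 17592408))) (l 17708792))) (b (l 3) (a (b (c (l 17663512) (l 156935396951)) (l 17647872)) (b (c (l 158009316055) (l 154787943623)) (l 17601560)))))) (b (l 3) (b (l 3) (b (a (c (l 157472439831) (a (l 151566599079) (a (l 148345275431) (l 146734591815)))) (b (l 3) (c (a (l 148345256247) (l 156935245863)) (a (b (l 248203096167) (l 146734312999)) (a (l 140291928695) (l 137070561655)))))) (a (c (l 17612416) (b (l 17413288) (l 17447984))) (b (a (c (l 17493560) (l 17304456)) (c (l 17413040) (a (l 17237232) (l 17143928)))) (c (l 17505520) (l 17296592)))))))))), by decide +kernel⟩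

def k1_pp_101 : ∃ t, chk3 f_pp_101 t 3 2 1 = true :=
  ⟨(l 3), by decide +kernel⟩

def k2_pp_101 : ∃ t, chk3 f_pp_101 t 6 6 1 = true :=
  ⟨(l 3), by decide +kernel⟩

def k3_pp_101 : ∃ t, chk3 f_pp_101 t 6 14 1 = true :=
  ⟨(l 3), by decide +kernel⟩

def k4_pp_101 : ∃ t, chk3 f_pp_101 t 12 15 1 = true :=
  ⟨(b (l 3) (b (a (b (l 3) (c (l 480131335335) (a (l 211158678903) (l 3)))) (l 3)) (a (b (c (a (l 17340560) (a (l 137070636679) (l 137070564199))) (c (a (l 17180792) (a (l 132775453271) (l 134923013655))) (a (l 129554103975) (a (l 131164749607) (a (l 131164713943) (l 131164587159)))))) (c (l 17364528) (a (l 17159472) (l 17088496)))) (b (c (b (a (c (l 145123708887) (l 142976169927)) (c (l 148344958311) (a (l 143512916887) (l 144049675943)))) (a (l 17206120) (c (l 17210488) (a (l 17101536) (l 17054200))))) (b (a (b (c (l 292762916535) (a (l 251423675927) (l 3))) (a (c (l 17054216) (l 128480093159)) (c (l 133312067175) (a (l 130627521111) (l 132238201559))))) (b (l 3) (a (a (c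 (l 135996511127) (l 133848700647)) (b (l 3) (c (l 16880040) (l 129553668887)))) (b (l 3) (a (c (l 134385781143) (l 132774893831)) (c (b (l 235854351047) (l 132774983175)) (b (l 163376520855) (l 131701141671)))))))) (a (a (l 17005352) (l 16874672)) (b (c (a (l 16969680) (l 16834272)) (a (l 16843160) (b (l 16787032) (l 16786832)))) (l 16819416))))) (c (a (l 17263376) (l 17176944)) (a (l 16997688) (l 16825928))))))), by decide +kernel⟩

def k5_pp_101 : ∃ t, chk3 f_pp_101 t 13 30 1 = true :=
  ⟨(l 3), by decide +kernel⟩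

def k6_pp_101 : ∃ t, chk3 f_pp_101 t 13 62 1 = true :=
  ⟨(l 3), by decide +kernel⟩

def k7_pp_101 : ∃ t, chk3 f_pp_101 t 26 252 1 = true :=
  ⟨(a (a (b (l 3) (c (c (l 342692109143) (l 280414817831)) (b (l 3) (b (l 3) (c (c (l 227264402119) (a (l 137069984279) (l 184314566375))) (c (a (l 136532981383) (l 143512242631)) (l 137606580023))))))) (l 3)) (l 3)), by decide +kernel⟩

def k8_pp_101 : ∃ t, chk3 f_pp_101 t 26 253 2 = true :=
  ⟨(a (b (c (a (l 17136696) (l 135996540711)) (c (a (l 17033536) (l 134922776055)) (a (l 130627661975) (a (l 132238308311) (l 133311928407))))) (c (l 17123472) (l 16957408))) (b (c (c (a (l 140291665031) (l 141365291271)) (a (l 138144032759) (a (l 139217684583) (l 140291321015)))) (a (c (b (l 239075613303) (a (l 16937752) (l 131701299671))) (a (b (l 139217424727) (l 16863768)) (b (l 189683310935) (a (l 129553696583) (l 131164303927))))) (b (l 3) (b (a (c (l 137606857191) (a (l 135996129303) (l 138680470583))) (a (c (l 199347025159) (l 152102229367))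 (l 3))) (a (c (l 16875328) (l 16766496)) (a (c (l 131164325671) (l 130627375943)) (c (l 133848656903) (a (l 132237987911) (l 133848572903))))))))) (c (a (l 17041872) (a (l 16996712) (l 16922840))) (a (l 16887792) (b (a (l 16837304) (l 16760360)) (l 16820496)))))), by decide +kernel⟩

def k9_pp_101 : ∃ t, chk3 f_pp_101 t 26 253 3 = true :=
  ⟨(a (b (a (b (c (a (c (l 16909656) (l 16842624)) (c (l 130627517335) (l 130090523623))) (c (a (l 16775752) (l 129553638855)) (l 109689298999))) (c (l 16862976) (l 16725592))) (b (c (b (a (c (l 137070004151) (l 136532994727)) (c (l 186462067255) (l 144049124055))) (a (c (l 16852488) (l 16782600)) (c (l 132238005543) (l 131701127495)))) (c (a (l 132774780407) (l 135995972087)) (l 134385356231))) (c (a (l 16817840) (l 16786128)) (l 16703064)))) (a (l 16794152) (l 16707872))) (b (b (b (l 3) (a (c (a (c (b (l 166597780327) (l 134385480935)) (l 136532905975)) (c (b (l 3) (l 144586006311)) (l 140827816647))) (a (l 136532844103) (l 141364685431)))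 (l 3))) (a (c (b (a (c (l 16789960) (l 16716632)) (c (a (l 130090509991) (l 132774863047)) (l 108615565447))) (a (l 16752896) (l 16718280))) (c (l 108615565735) (l 16711032))) (a (c (c (b (a (l 135459169175) (l 138143487959)) (l 16720728)) (l 133311623543)) (l 133848492343)) (c (c (c (l 136532859319) (l 135995982503)) (l 136532852407)) (l 137069721223))))) (c (a (l 16734304) (b (l 16713568) (l 16705720))) (a (l 16702232) (l 16705616))))), by decide +kernel⟩

def k10_pp_101 : ∃ t, chk3 f_pp_101 t 26 127 1 = true :=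
  ⟨(b (c (a (l 17022168) (c (l 17024600) (l 16858096))) (a (l 16760160) (l 16706792))) (c (a (l 17081744) (l 16952232)) (l 16701808))), by decide +kernel⟩

def k11_pp_101 : ∃ t, chk3 f_pp_101 t 54 126 1 = true :=
  ⟨(b (l 3) (b (c (b (l 3) (b (l 3) (a (c (c (l 253571191095) (a (l 138143732535) (l 199347009063))) (b (a (a (c (l 177872099191) (l 140291017303)) (l 3)) (l 3)) (a (c (c (l 135996190839) (l 135996088967)) (a (l 131701114967) (l 135996053607))) (a (c (l 154786577207) (l 140290955911)) (l 3))))) (l 3)))) (b (l 3) (b (l 3) (a (c (c (a (l 137069726983) (l 141364697815)) (l 138143468967)) (l 139217208727)) (l 3))))) (c (a (b (c (c (a (l 16970968) (l 132775089255)) (a (l 16867784) (a (l 130627472823) (c (l 132238131575) (l 132238107815))))) (b (a (c (a (l 16815656) (l 16776496)) (a (l 16734592) (l 16715536))) (a (c (a (l 130090501143) (l 131164242487)) (l 105394348807)) (c (a (l 132774854679) (l 133848595255)) (l 133311638327)))) (a (l 16765560) (l 16747992)))) (c (l 16915224)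 (l 16745696))) (b (c (b (a (c (l 138143781095) (a (c (l 136533121927) (l 135996166183)) (c (l 138680567975) (l 138680482199)))) (a (a (c (l 213842596727) (l 161229011335)) (l 3)) (l 3))) (a (c (l 16902256) (a (l 16825496) (l 16785304))) (c (c (l 133848767383) (l 133848697383)) (a (a (l 130090497495) (l 131701109735)) (c (l 133848652023) (l 133848563303)))))) (b (a (c (c (a (l 135996081415) (l 138143525575)) (b (l 140827831015) (l 109689321223))) (l 137069738375)) (c (c (l 140827838647) (l 140827834119)) (l 141364704119))) (a (c (a (l 16739768) (l 16719592)) (l 16715176)) (c (a (a (l 120963660087) (l 131164186759)) (l 133311644615)) (l 109152452791))))) (c (c (l 16843344) (l 16754520)) (c (l 16714632) (l 16714024))))) (a (b (c (c (a (l 16711456) (l 107541833927)) (l 109152447143)) (l 110763060439)) (l 16719104)) (b (c (c (a (l 134385376055) (l 137069734375)) (l 135995989031)) (b (l 139754084615) (l 112910548743))) (c (l 16713072) (l 16711720))))))), by decide +kernel⟩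

def k12_pp_101 : ∃ t, chk3 f_pp_101 t 55 126 1 = true :=
  ⟨(b (l 3) (b (l 3) (c (b (b (l 3) (a (c (b (a (a (a (c (l 190220180311) (l 140291027879)) (l 3)) (l 3)) (l 3)) (a (c (c (l 135996234119) (a (l 132774894487) (l 136533014823))) (c (a (l 132237979703) (l 136532923703)) (l 110226198487))) (a (a (c (l 164987114375) (l 140290989111)) (l 3)) (l 3)))) (a (c (b (l 140827836503) (l 110763069431)) (l 137606609239)) (c (l 141364710663) (l 141901580375)))) (l 3))) (a (c (b (a (c (a (l 16836144) (l 16794816)) (a (l 16745264) (l 16723840))) (c (a (c (l 132238031623) (l 129553623271)) (c (l 134385539831) (l 133848574695))) (b (c (l 110763072679) (l 111299943015)) (l 16720632)))) (a (l 16780184) (l 16757776))) (a (c (l 16717728) (l 16717128)) (c (l 108615588615) (l 109152458343)))) (c (b (a (a (c (c (l 136532980087) (l 136532884727)) (l 136532874375)) (c (a (l 138143556007) (l 139754166359)) (l 138680359991))) (c (c (l 140827851799) (l 140827847319)) (l 141364717399))) (a (c (a (l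 16751096) (l 16728264)) (l 16721696)) (c (b (c (l 112373692103) (l 112373691559)) (l 16723984)) (l 110763078919)))) (c (a (l 134922260119) (l 137606618711)) (b (l 139217228999) (l 111836820679)))))) (b (a (c (a (l 139754092103) (l 142438450503)) (l 141364703767)) (l 3)) (a (c (a (l 16716184) (l 110763070519)) (l 125795456295)) (c (a (l 132774781639) (l 138680357543)) (l 139217223431))))))), by decide +kernel⟩

def k13_pp_101 : ∃ t, chk3 f_pp_101 t 27 127 1 = true :=
  ⟨(a (c (b (c (a (l 16921848) (l 16843824)) (l 16715792)) (l 16792136)) (a (l 16717816) (a (l 16710296) (l 16712240)))) (b (b (c (a (c (l 16757744) (l 16714336)) (c (a (l 16718736) (l 16726040)) (l 16723632))) (a (l 16712432) (c (l 16717176) (l 16715896)))) (c (l 16721344) (l 16708416))) (c (l 16703016) (l 16700504)))), by decide +kernel⟩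

def k14_pp_101 : ∃ t, chk3 f_pp_101 t 7 6 1 = true :=
  ⟨(l 3), by decide +kernel⟩

def k15_pp_101 : ∃ t, chk3 f_pp_101 t 14 14 1 = true :=
  ⟨(l 3), by decide +kernel⟩

def k16_pp_101 : ∃ t, chk3 f_pp_101 t 28 15 1 = true :=
  ⟨(b (l 3) (b (l 3) (b (a (a (b (l 3) (b (l 3) (b (l 3) (b (l 3) (c (c (a (c (a (l 136532881175) (l 139217237783)) (l 138143493703)) (c (l 141364724359) (l 141901594183))) (a (c (l 138680363495) (l 138680362343)) (l 142438463415))) (c (a (l 137606623815) (l 142975331991)) (l 137069746919))))))) (l 3)) (l 3)) (b (a (b (c (b (a (c (b (a (c (l 16725112) (l 16724568)) (c (l 117205536903) (l 117205535831))) (l 16729584)) (a (l 16723064) (l 115594923079))) (a (c (c (l 135459150231) (l 135996014823)) (l 136532884071)) (c (c (l 137606632855) (l 138143502711)) (l 139217242903)))) (a (c (l 16722392) (l 16721272)) (c (l 16731904) (l 16725576)))) (b (a (c (a (l 16721872) (l 126869208727)) (l 121500501207)) (c (a (l 133848534727) (l 139754111543)) (l 140290977303)))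 (a (l 16719480) (c (l 16724440) (l 16723240))))) (c (c (l 16729896) (l 16728832)) (a (l 16715536) (l 16719912)))) (b (a (c (b (b (l 3) (c (a (c (l 138680377831) (l 139217247703)) (c (l 142438478423) (l 142975348311))) (a (l 139754116999) (l 143512217639)))) (c (a (a (l 16729792) (l 16730904)) (c (l 117742420455) (l 117742419431))) (a (l 16729192) (l 126332353415)))) (b (c (a (l 141901599479) (l 144049087399)) (l 143512211383)) (c (a (l 16728072) (l 129553575367)) (l 119889902247)))) (a (b (l 3) (c (c (a (l 136532897831) (l 138143512759)) (l 138143509383)) (c (l 134922288967) (l 135996029367)))) (b (l 3) (c (c (a (l 138680385863) (l 140291000775)) (l 140290997431)) (c (l 141364737143) (l 143512218599)))))) (c (a (c (l 16727096) (l 16726040)) (c (b (l 16743280) (l 16730176)) (l 16740968))) (a (l 16724368) (a (l 16728120) (l 16740912)))))) (a (c (l 16731992) (l 16708728)) (c (b (l 16742856) (l 16716608)) (l 16738184))))))), by decide +kernel⟩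

def k17_pp_101 : ∃ t, chk3 f_pp_101 t 29 15 1 = true :=
  ⟨(b (l 3) (b (l 3) (a (b (l 3) (b (a (a (b (b (l 3) (c (c (a (l 141364744775) (l 142438488743)) (l 142438485447)) (c (l 142975354295) (l 144049093991)))) (c (c (a (l 16734856) (l 127406105031)) (l 16739552)) (c (l 16733280) (l 16732208)))) (b (l 3) (c (b (c (a (l 132237944535) (l 133311688663)) (l 123111141559)) (l 16735872)) (c (l 120426785831) (l 123648008391))))) (a (b (l 3) (c (b (c (a (l 138143523479) (l 139217267447)) (l 139754135207)) (l 16743336)) (c (l 139217259767) (l 132237947687)))) (b (l 3) (c (c (b (l 137606657751) (l 16740784)) (l 139754137063)) (c (l 140827876999) (l 141364745959)))))) (a (c (l 16738384) (l 16725864)) (b (c (l 16745368) (l 16732984)) (l 16739152))))) (b (l 3) (b (b (l 3) (c (b (a (a (c (l 140827887207) (l 143512240023)) (l 3)) (l 3)) (a (a (c (l 16745504) (l 16742008)) (c (l 137069795911) (l 138680407143))) (a (c (l 140291019623) (l 141364759895)) (b (l 3) (c (l 137606672119) (l 138143541591))))))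 (b (a (c (l 146733465719) (l 149954689383)) (l 3)) (a (c (l 133848567351) (l 136532920743)) (c (l 141364760327) (l 142438500551)))))) (b (c (a (l 16739560) (c (l 16749312) (l 16743320))) (a (l 16737784) (b (l 16748704) (l 16740824)))) (c (l 16736368) (l 16734704)))))))), by decide +kernel⟩

def k18_pp_101 : ∃ t, chk3 f_pp_101 t 15 7 1 = true :=
  ⟨(b (l 3) (b (l 3) (b (l 3) (a (b (l 3) (b (a (a (a (a (b (l 3) (b (l 3) (c (c (l 136532929943) (l 137606670439)) (l 138680410199)))) (l 6)) (l 3)) (l 3)) (l 3)) (a (a (a (b (a (a (c (c (l 16746320) (l 16745640)) (l 16744576)) (l 6)) (l 6)) (l 16740784)) (l 6)) (l 6)) (l 6)))) (l 6))))), by decide +kernel⟩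

theorem s19_pp_101 : ∃ t, chk3 f_pp_101 t 14 15 1 = true := ex3_a k16_pp_101 k17_pp_101

theorem s20_pp_101 : ∃ t, chk3 f_pp_101 t 14 7 1 = true := ex3_b k15_pp_101 s19_pp_101

theorem s21_pp_101 : ∃ t, chk3 f_pp_101 t 7 7 1 = true := ex3_a s20_pp_101 k18_pp_101

theorem s22_pp_101 : ∃ t, chk3 f_pp_101 t 7 3 1 = true := ex3_b k14_pp_101 s21_pp_101

theorem s23_pp_101 : ∃ t, chk3 f_pp_101 t 27 126 1 = true := ex3_a k11_pp_101 k12_pp_101

theorem s24_pp_101 : ∃ t, chk3 f_pp_101 t 27 63 1 = true := ex3_b s23_pp_101 k13_pp_101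

theorem s25_pp_101 : ∃ t, chk3 f_pp_101 t 26 253 1 = true := ex3_c k8_pp_101 k9_pp_101

theorem s26_pp_101 : ∃ t, chk3 f_pp_101 t 26 126 1 = true := ex3_b k7_pp_101 s25_pp_101

theorem s27_pp_101 : ∃ t, chk3 f_pp_101 t 26 63 1 = true := ex3_b s26_pp_101 k10_pp_101

theorem s28_pp_101 : ∃ t, chk3 f_pp_101 t 13 63 1 = true := ex3_a s27_pp_101 s24_pp_101

theorem s29_pp_101 : ∃ t, chk3 f_pp_101 t 13 31 1 = true := ex3_b k6_pp_101 s28_pp_101

theorem s30_pp_101 : ∃ t, chk3 f_pp_101 t 13 15 1 = true := ex3_b k5_pp_101 s29_pp_101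

theorem s31_pp_101 : ∃ t, chk3 f_pp_101 t 6 15 1 = true := ex3_a k4_pp_101 s30_pp_101

theorem s32_pp_101 : ∃ t, chk3 f_pp_101 t 6 7 1 = true := ex3_b k3_pp_101 s31_pp_101

theorem s33_pp_101 : ∃ t, chk3 f_pp_101 t 6 3 1 = true := ex3_b k2_pp_101 s32_pp_101

theorem s34_pp_101 : ∃ t, chk3 f_pp_101 t 3 3 1 = true := ex3_a s33_pp_101 s22_pp_101

theorem s35_pp_101 : ∃ t, chk3 f_pp_101 t 3 1 1 = true := ex3_b k1_pp_101 s34_pp_101

theorem s36_pp_101 : ∃ t, chk3 f_pp_101 t 1 1 1 = true := ex3_a k0_pp_101 s35_pp_101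

theorem c_pp_101 : CertF 536870912 536870912 536870912 536870912 134217728 67108864 false true true .npn 1 0 1
    ndF3q1 ndF0q1 pcF0 cut_pp_101 Ext.none :=
  certF0 (fam := false) (s1 := true) (s2 := true) (a := 1) (b := 0) (c := 1) (cn := .npn) (n1 := ndF3q1) (n2 := ndF0q1) (pc := pcF0) (cut := cut_pp_101) (xt := Ext.none) (P1 := 536870912) (W1 := 536870912) (P2 := 536870912) (W2 := 536870912) (P3 := 134217728) (W3 := 67108864)
    rfl s36_pp_101

noncomputable def cut_pp_102 : Cut := Cut.of [[⟨0, 1, 0, 67108864⟩, ⟨1, 0, 0, 67108864⟩, ⟨2, 1, 0, 67108864⟩]]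

noncomputable def f_pp_102 : ℕ → ℕ → ℕ → ℕ → Bool := onCell 536870912 536870912 0 536870912 134217728 67108864
    (rowF 0 false true true .npp 1 0 2 (qsf 536870912 536870912 0 536870912 0) ndF3q1 ndF0q2 pcF0 cut_pp_102 Ext.none)

def k0_pp_102 : ∃ t, chk3 f_pp_102 t 1 1 1 = true :=
  ⟨(a (b (a (b (l 2) (l 17698552)) (b (l 17613736) (a (l 17651664) (l 17713768)))) (a (b (b (l 17634784) (l 17678360)) (b (l 17710912) (a (l 17735904) (l 17831376)))) (b (b (l 17712928) (l 17705272)) (b (a (l 17681160) (l 17627736)) (b (a (l 17636328) (l 17542136)) (a (l 17589128) (b (l 17486536) (l 17444640)))))))) (b (a (a (b (l 17792432) (l 17762880)) (b (l 17911040) (b (l 17829136) (l 17739088)))) (a (b (l 18055896) (b (l 17781872) (l 17558528))) (b (l 18013528) (b (l 17482320) (l 17243224))))) (a (b (a (b (l 17722544) (l 17644448)) (b (l 17634024) (l 17466680))) (b (a (b (l 17550224) (l 17465864)) (a (l 17311432) (l 17071392))) (a (b (a (l 17422864) (l 17293928)) (a (c (l 17448992) (l 17191536))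 (b (l 17198592) (c (l 17281080) (l 16983304))))) (b (a (l 17093472) (l 16774016)) (a (b (l 16971496) (c (b (l 17091736) (l 17048144)) (l 16710304))) (b (l 16671696) (a (l 16689904) (l 16718304)))))))) (b (a (b (a (l 17396584) (l 17087424)) (a (l 17104192) (l 16711104))) (b (a (l 16816816) (l 16970048)) (a (b (l 16650000) (l 16573960)) (l 16905880)))) (a (b (a (l 16641976) (b (l 16563976) (l 16695296))) (a (b (l 16668680) (b (l 16705080) (b (l 16735112) (a (l 16715376) (l 16723680))))) (a (b (l 16629968) (b (l 16661688) (c (l 16744912) (l 16743256)))) (b (l 16647296) (b (l 16671688) (b (l 16702024) (b (l 16717384) (l 16727720)))))))) (b (a (b (l 16591688) (l 16644624)) (b (l 16879904) (a (l 16678312) (a (l 16671968) (l 16721488))))) (b (a (a (l 16665864) (b (l 16647832) (l 16672664))) (a (b (l 16657504) (l 6)) (l 6))) (a (a (b (l 16679736) (b (l 16731232) (c (l 16752400) (l 16751392)))) (b (l 16713720) (l 6))) (l 6))))))))), by decide +kernel⟩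

theorem c_pp_102 : CertF 536870912 536870912 0 536870912 134217728 67108864 false true true .npp 1 0 2
    ndF3q1 ndF0q2 pcF0 cut_pp_102 Ext.none :=
  certF0 (fam := false) (s1 := true) (s2 := true) (a := 1) (b := 0) (c := 2) (cn := .npp) (n1 := ndF3q1) (n2 := ndF0q2) (pc := pcF0) (cut := cut_pp_102) (xt := Ext.none) (P1 := 536870912) (W1 := 536870912) (P2 := 0) (W2 := 536870912) (P3 := 134217728) (W3 := 67108864)
    rfl k0_pp_102

noncomputable def f_pp_112 : ℕ → ℕ → ℕ → ℕ → Bool := onCell 536870912 536870912 0 536870912 134217728 67108864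
    (rowF 2 false true true .dn 1 1 2 (qsf 536870912 536870912 0 536870912 1) ndF3q1 ndF0q2 pcF1 Cut.none Ext.none)

def k0_pp_112 : ∃ t, chk3 f_pp_112 t 1 1 1 = true :=
  ⟨(a (b (b (l 39228850391) (l 24196309847)) (b (a (l 18084368) (l 1)) (a (b (l 18012800) (a (l 17933960) (l 1))) (l 1)))) (l 1)), by decide +kernel⟩

theorem c_pp_112 : CertF 536870912 536870912 0 536870912 134217728 67108864 false true true .dn 1 1 2
    ndF3q1 ndF0q2 pcF1 Cut.none Ext.none :=
  certF2 (fam := false) (s1 := true) (s2 := true) (a := 1) (b := 1) (c := 2) (cn := .dn) (n1 := ndF3q1) (n2 := ndF0q2) (pc := pcF1) (cut := Cut.none) (xt := Ext.none) (P1 := 536870912) (W1 := 536870912) (P2 := 0) (W2 := 536870912) (P3 := 134217728) (W3 := 67108864)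
    rfl (fun _ => rfl) k0_pp_112

noncomputable def f_pp_202 : ℕ → ℕ → ℕ → ℕ → Bool := onCell 1073741824 536870912 0 536870912 134217728 67108864
    (rowF 0 false true true .pp 2 0 2 (qsf 1073741824 536870912 0 536870912 0) ndF3q2 ndF0q2 pcF0 Cut.none Ext.none)

def k0_pp_202 : ∃ t, chk3 f_pp_202 t 1 1 1 = true :=
  ⟨(l 3), by decide +kernel⟩

theorem c_pp_202 : CertF 1073741824 536870912 0 536870912 134217728 67108864 false true true .pp 2 0 2
    ndF3q2 ndF0q2 pcF0 Cut.none Ext.none :=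
  certF0 (fam := false) (s1 := true) (s2 := true) (a := 2) (b := 0) (c := 2) (cn := .pp) (n1 := ndF3q2) (n2 := ndF0q2) (pc := pcF0) (cut := Cut.none) (xt := Ext.none) (P1 := 1073741824) (W1 := 536870912) (P2 := 0) (W2 := 536870912) (P3 := 134217728) (W3 := 67108864)
    rfl k0_pp_202

noncomputable def f_pm_001 : ℕ → ℕ → ℕ → ℕ → Bool := onCell 0 536870912 0 536870912 134217728 67108864
    (rowF 1 false true false .up 0 0 1 (qsf 0 536870912 536870912 536870912 0) ndF3q0 ndF0q1 pcF0 Cut.none Ext.none)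

def k0_pm_001 : ∃ t, chk3 f_pm_001 t 1 1 1 = true :=
  ⟨(l 4), by decide +kernel⟩

theorem c_pm_001 : CertF 0 536870912 536870912 536870912 134217728 67108864 false true false .up 0 0 1
    ndF3q0 ndF0q1 pcF0 Cut.none Ext.none :=
  certF1 (fam := false) (s1 := true) (s2 := false) (a := 0) (b := 0) (c := 1) (cn := .up) (n1 := ndF3q0) (n2 := ndF0q1) (pc := pcF0) (cut := Cut.none) (xt := Ext.none) (P1 := 0) (W1 := 536870912) (P2 := 536870912) (W2 := 536870912) (P3 := 134217728) (W3 := 67108864)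
    rfl (fun _ => rfl) k0_pm_001

noncomputable def f_pm_011 : ℕ → ℕ → ℕ → ℕ → Bool := onCell 0 536870912 536870912 536870912 134217728 67108864
    (rowF 0 false true false .pnn 0 1 1 (qsf 0 536870912 536870912 536870912 1) ndF3q0 ndF0q1 pcF1 Cut.none Ext.none)

def k0_pm_011 : ∃ t, chk3 f_pm_011 t 1 1 1 = true :=
  ⟨(b (l 4) (l 4)), by decide +kernel⟩

theorem c_pm_011 : CertF 0 536870912 536870912 536870912 134217728 67108864 false true false .pnn 0 1 1
    ndF3q0 ndF0q1 pcF1 Cut.none Ext.none :=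
  certF0 (fam := false) (s1 := true) (s2 := false) (a := 0) (b := 1) (c := 1) (cn := .pnn) (n1 := ndF3q0) (n2 := ndF0q1) (pc := pcF1) (cut := Cut.none) (xt := Ext.none) (P1 := 0) (W1 := 536870912) (P2 := 536870912) (W2 := 536870912) (P3 := 134217728) (W3 := 67108864)
    rfl k0_pm_011

noncomputable def f_pm_012 : ℕ → ℕ → ℕ → ℕ → Bool := onCell 536870912 536870912 0 536870912 134217728 67108864
    (rowF 2 false true false .pnp 0 1 2 (qsf 0 536870912 0 536870912 1) ndF3q0 ndF0q2 pcF1 Cut.none Ext.none)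

def k0_pm_012 : ∃ t, chk3 f_pm_012 t 1 1 1 = true :=
  ⟨(a (b (a (l 17495376) (l 17667592)) (l 4)) (b (a (a (l 17716656) (l 17754176)) (a (a (b (l 17696112) (l 17737752)) (l 17635792)) (b (l 17409152) (l 17169864)))) (b (a (l 4) (a (l 4) (l 4))) (l 4)))), by decide +kernel⟩

theorem c_pm_012 : CertF 0 536870912 0 536870912 134217728 67108864 false true false .pnp 0 1 2
    ndF3q0 ndF0q2 pcF1 Cut.none Ext.none :=
  certF2 (fam := false) (s1 := true) (s2 := false) (a := 0) (b := 1) (c := 2) (cn := .pnp) (n1 := ndF3q0) (n2 := ndF0q2) (pc := pcF1) (cut := Cut.none) (xt := Ext.none) (P1 := 0) (W1 := 536870912) (P2 := 0) (W2 := 536870912) (P3 := 134217728) (W3 := 67108864)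
    rfl (fun _ => rfl) k0_pm_012

noncomputable def f_pm_022 : ℕ → ℕ → ℕ → ℕ → Bool := onCell 0 536870912 0 536870912 134217728 67108864
    (rowF 0 false true false .pp 0 2 2 (qsf 0 536870912 0 536870912 2) ndF3q0 ndF0q2 pcF2 Cut.none Ext.none)

def k0_pm_022 : ∃ t, chk3 f_pm_022 t 1 1 1 = true :=
  ⟨(a (b (b (a (l 17376728) (l 17341360)) (a (a (l 17189656) (l 17205800)) (a (l 17204064) (l 1)))) (b (a (b (a (l 17217024) (l 17193712)) (l 4)) (l 1)) (l 4))) (l 1)), by decide +kernel⟩

theorem c_pm_022 : CertF 0 536870912 0 536870912 134217728 67108864 false true false .pp 0 2 2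
    ndF3q0 ndF0q2 pcF2 Cut.none Ext.none :=
  certF0 (fam := false) (s1 := true) (s2 := false) (a := 0) (b := 2) (c := 2) (cn := .pp) (n1 := ndF3q0) (n2 := ndF0q2) (pc := pcF2) (cut := Cut.none) (xt := Ext.none) (P1 := 0) (W1 := 536870912) (P2 := 0) (W2 := 536870912) (P3 := 134217728) (W3 := 67108864)
    rfl k0_pm_022

noncomputable def f_pm_101 : ℕ → ℕ → ℕ → ℕ → Bool := onCell 536870912 536870912 536870912 536870912 134217728 67108864
    (rowF 0 false true false .npn 1 0 1 (qsf 536870912 536870912 536870912 536870912 0) ndF3q1 ndF0q1 pcF0 Cut.none Ext.none)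

def k0_pm_101 : ∃ t, chk3 f_pm_101 t 1 1 1 = true :=
  ⟨(l 4), by decide +kernel⟩

theorem c_pm_101 : CertF 536870912 536870912 536870912 536870912 134217728 67108864 false true false .npn 1 0 1
    ndF3q1 ndF0q1 pcF0 Cut.none Ext.none :=
  certF0 (fam := false) (s1 := true) (s2 := false) (a := 1) (b := 0) (c := 1) (cn := .npn) (n1 := ndF3q1) (n2 := ndF0q1) (pc := pcF0) (cut := Cut.none) (xt := Ext.none) (P1 := 536870912) (W1 := 536870912) (P2 := 536870912) (W2 := 536870912) (P3 := 134217728) (W3 := 67108864)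
    rfl k0_pm_101

noncomputable def f_pm_102 : ℕ → ℕ → ℕ → ℕ → Bool := onCell 536870912 536870912 0 536870912 134217728 67108864
    (rowF 0 false true false .npp 1 0 2 (qsf 536870912 536870912 0 536870912 0) ndF3q1 ndF0q2 pcF0 Cut.none Ext.none)

def k0_pm_102 : ∃ t, chk3 f_pm_102 t 1 1 1 = true :=
  ⟨(a (b (a (b (l 2) (a (l 2) (b (l 2) (l 18659504)))) (b (b (l 17746376) (l 17950600)) (b (l 18491960) (l 18681712)))) (l 4)) (b (a (b (b (l 18082528) (l 18348800)) (a (l 18701096) (l 18885368))) (a (b (l 18446960) (l 19076952)) (b (l 18550912) (l 19187832)))) (l 4))), by decide +kernel⟩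

theorem c_pm_102 : CertF 536870912 536870912 0 536870912 134217728 67108864 false true false .npp 1 0 2
    ndF3q1 ndF0q2 pcF0 Cut.none Ext.none :=
  certF0 (fam := false) (s1 := true) (s2 := false) (a := 1) (b := 0) (c := 2) (cn := .npp) (n1 := ndF3q1) (n2 := ndF0q2) (pc := pcF0) (cut := Cut.none) (xt := Ext.none) (P1 := 536870912) (W1 := 536870912) (P2 := 0) (W2 := 536870912) (P3 := 134217728) (W3 := 67108864)
    rfl k0_pm_102

noncomputable def f_pm_112 : ℕ → ℕ → ℕ → ℕ → Bool := onCell 536870912 536870912 0 536870912 134217728 67108864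
    (rowF 0 false true false .dn 1 1 2 (qsf 536870912 536870912 0 536870912 1) ndF3q1 ndF0q2 pcF1 Cut.none Ext.none)

def k0_pm_112 : ∃ t, chk3 f_pm_112 t 1 1 1 = true :=
  ⟨(a (b (a (l 18600224) (l 18746152)) (l 4)) (l 1)), by decide +kernel⟩

theorem c_pm_112 : CertF 536870912 536870912 0 536870912 134217728 67108864 false true false .dn 1 1 2
    ndF3q1 ndF0q2 pcF1 Cut.none Ext.none :=
  certF0 (fam := false) (s1 := true) (s2 := false) (a := 1) (b := 1) (c := 2) (cn := .dn) (n1 := ndF3q1) (n2 := ndF0q2) (pc := pcF1) (cut := Cut.none) (xt := Ext.none) (P1 := 536870912) (W1 := 536870912) (P2 := 0) (W2 := 536870912) (P3 := 134217728) (W3 := 67108864)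
    rfl k0_pm_112

noncomputable def f_pm_202 : ℕ → ℕ → ℕ → ℕ → Bool := onCell 0 536870912 0 536870912 134217728 67108864
    (rowF 2 false true false .pp 2 0 2 (qsf 1073741824 536870912 0 536870912 0) ndF3q2 ndF0q2 pcF0 Cut.none Ext.none)

def k0_pm_202 : ∃ t, chk3 f_pm_202 t 2 2 1 = true :=
  ⟨(l 3), by decide +kernel⟩

def k1_pm_202 : ∃ t, chk3 f_pm_202 t 8 3 1 = true :=
  ⟨(b (b (a (b (l 3) (b (l 3) (b (l 3) (a (b (l 3) (a (c (a (l 244443706727) (l 139753876663)) (a (l 294372709415) (l 143512002823))) (c (a (l 137606415911) (l 138143292951)) (a (l 142438279703) (l 148343868055))))) (c (l 140290755655) (l 151565078551)))))) (b (l 3) (b (l 3) (a (b (l 3) (c (l 138143309319) (l 131700845735))) (c (l 132774641303) (a (l 122574033111) (l 118279071543))))))) (a (a (b (b (a (a (b (c (b (l 145122611543) (l 16634696)) (b (b (l 16623992) (l 16634208)) (l 16647112))) (b (l 16688080) (l 16692760))) (b (c (b (l 16622936) (l 16626688)) (b (l 16635304) (l 16640168))) (c (l 16698144)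 (l 16707008)))) (a (b (c (c (l 16637112) (l 16645224)) (a (l 16643160) (l 16645032))) (c (l 16661264) (l 16693600))) (c (l 16615528) (l 16628096)))) (a (b (a (a (l 16695224) (l 16706368)) (l 16750464)) (a (l 16756560) (l 16715440))) (b (l 16676984) (l 16680096)))) (b (l 16770584) (l 16856792))) (b (b (c (b (l 16617392) (l 16624144)) (b (l 16609672) (l 16610464))) (a (l 16707560) (l 16655000))) (b (l 16786632) (l 16769272)))) (a (b (b (c (l 16617000) (l 16617744)) (l 16652416)) (b (l 16705920) (l 16687752))) (b (b (l 16650304) (l 16645856)) (l 16783920))))) (b (a (b (a (l 16980696) (l 16897344)) (a (l 17137176) (l 17059072))) (b (a (l 16817120) (l 16744800)) (a (l 16983744) (l 16911112)))) (a (a (b (a (l 17297856) (l 17270200)) (l 17390568)) (b (l 17218432) (l 17336792))) (b (a (l 17142632) (l 1)) (l 1))))), by decide +kernel⟩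

def k2_pm_202 : ∃ t, chk3 f_pm_202 t 9 3 1 = true :=
  ⟨(b (b (b (l 3) (a (a (b (l 3) (b (c (l 127942817639) (l 125795308007)) (c (l 16647288) (l 16631056)))) (b (l 3) (b (c (c (l 133848441479) (l 135459036903)) (c (l 131700927575) (l 138680231047))) (c (l 16666472) (l 16649912))))) (b (a (b (l 3) (b (l 3) (c (a (c (l 127405969831) (l 127942823143)) (a (a (c (l 125258497911) (l 125795351287)) (b (l 3) (l 1))) (l 1))) (a (c (l 127942806599) (l 127942812103)) (a (a (c (l 125795334775) (l 126332190215)) (b (l 3) (l 1))) (l 1)))))) (l 1)) (a (b (b (c (a (c (l 16676768) (l 16667952)) (c (l 16696296) (l 54794207239))) (a (c (l 16659664) (l 16672880)) (c (l 49962352967) (l 45130499895)))) (c (l 31171913143) (l 20971333719))) (c (l 16685256) (l 16689520))) (l 1))))) (a (b (a (b (l 16649040) (l 16664704)) (b (l 16689456) (l 16684248))) (a (b (l 16688216) (l 16725024)) (l 16721808))) (a (b (c (l 16725584) (l 16666664)) (l 1)) (l 1)))) (b (a (b (a (l 16827736) (l 1)) (l 1)) (l 1)) (l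 1))), by decide +kernel⟩

def k3_pm_202 : ∃ t, chk3 f_pm_202 t 5 3 1 = true :=
  ⟨(b (l 1) (l 1)), by decide +kernel⟩

def k4_pm_202 : ∃ t, chk3 f_pm_202 t 3 1 1 = true :=
  ⟨(l 1), by decide +kernel⟩

theorem s5_pm_202 : ∃ t, chk3 f_pm_202 t 4 3 1 = true := ex3_a k1_pm_202 k2_pm_202

theorem s6_pm_202 : ∃ t, chk3 f_pm_202 t 2 3 1 = true := ex3_a s5_pm_202 k3_pm_202

theorem s7_pm_202 : ∃ t, chk3 f_pm_202 t 2 1 1 = true := ex3_b k0_pm_202 s6_pm_202

theorem s8_pm_202 : ∃ t, chk3 f_pm_202 t 1 1 1 = true := ex3_a s7_pm_202 k4_pm_202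

theorem c_pm_202 : CertF 1073741824 536870912 0 536870912 134217728 67108864 false true false .pp 2 0 2
    ndF3q2 ndF0q2 pcF0 Cut.none Ext.none :=
  certF2 (fam := false) (s1 := true) (s2 := false) (a := 2) (b := 0) (c := 2) (cn := .pp) (n1 := ndF3q2) (n2 := ndF0q2) (pc := pcF0) (cut := Cut.none) (xt := Ext.none) (P1 := 1073741824) (W1 := 536870912) (P2 := 0) (W2 := 536870912) (P3 := 134217728) (W3 := 67108864)
    rfl (fun _ => rfl) s8_pm_202

noncomputable def f_mm_001 : ℕ → ℕ → ℕ → ℕ → Bool := onCell 0 536870912 536870912 536870912 134217728 67108864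
    (rowF 0 false false false .up 0 0 1 (qsf 0 536870912 536870912 536870912 0) ndF3q0 ndF0q1 pcF0 Cut.none Ext.none)

def k0_mm_001 : ∃ t, chk3 f_mm_001 t 1 1 1 = true :=
  ⟨(l 5), by decide +kernel⟩

theorem c_mm_001 : CertF 0 536870912 536870912 536870912 134217728 67108864 false false false .up 0 0 1
    ndF3q0 ndF0q1 pcF0 Cut.none Ext.none :=
  certF0 (fam := false) (s1 := false) (s2 := false) (a := 0) (b := 0) (c := 1) (cn := .up) (n1 := ndF3q0) (n2 := ndF0q1) (pc := pcF0) (cut := Cut.none) (xt := Ext.none) (P1 := 0) (W1 := 536870912) (P2 := 536870912) (W2 := 536870912) (P3 := 134217728) (W3 := 67108864)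
    rfl k0_mm_001

noncomputable def f_mm_011 : ℕ → ℕ → ℕ → ℕ → Bool := onCell 0 536870912 536870912 536870912 134217728 67108864
    (rowF 0 false false false .pnn 0 1 1 (qsf 0 536870912 536870912 536870912 1) ndF3q0 ndF0q1 pcF1 Cut.none Ext.none)

def k0_mm_011 : ∃ t, chk3 f_mm_011 t 1 1 1 = true :=
  ⟨(l 5), by decide +kernel⟩

theorem c_mm_011 : CertF 0 536870912 536870912 536870912 134217728 67108864 false false false .pnn 0 1 1
    ndF3q0 ndF0q1 pcF1 Cut.none Ext.none :=
  certF0 (fam := false) (s1 := false) (s2 := false) (a := 0) (b := 1) (c := 1) (cn := .pnn) (n1 := ndF3q0) (n2 := ndF0q1) (pc := pcF1) (cut := Cut.none) (xt := Ext.none) (P1 := 0) (W1 := 536870912) (P2 := 536870912) (W2 := 536870912) (P3 := 134217728) (W3 := 67108864)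
    rfl k0_mm_011

noncomputable def f_mm_012 : ℕ → ℕ → ℕ → ℕ → Bool := onCell 0 536870912 0 536870912 134217728 67108864
    (rowF 0 false false false .pnp 0 1 2 (qsf 0 536870912 0 536870912 1) ndF3q0 ndF0q2 pcF1 Cut.none Ext.none)

def k0_mm_012 : ∃ t, chk3 f_mm_012 t 1 1 1 = true :=
  ⟨(l 5), by decide +kernel⟩

theorem c_mm_012 : CertF 0 536870912 0 536870912 134217728 67108864 false false false .pnp 0 1 2
    ndF3q0 ndF0q2 pcF1 Cut.none Ext.none :=
  certF0 (fam := false) (s1 := false) (s2 := false) (a := 0) (b := 1) (c := 2) (cn := .pnp) (n1 := ndF3q0) (n2 := ndF0q2) (pc := pcF1) (cut := Cut.none) (xt := Ext.none) (P1 := 0) (W1 := 536870912) (P2 := 0) (W2 := 536870912) (P3 := 134217728) (W3 := 67108864)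
    rfl k0_mm_012

noncomputable def f_mm_022 : ℕ → ℕ → ℕ → ℕ → Bool := onCell 0 536870912 0 536870912 134217728 67108864
    (rowF 0 false false false .pp 0 2 2 (qsf 0 536870912 0 536870912 2) ndF3q0 ndF0q2 pcF2 Cut.none Ext.none)

def k0_mm_022 : ∃ t, chk3 f_mm_022 t 1 1 1 = true :=
  ⟨(l 5), by decide +kernel⟩

theorem c_mm_022 : CertF 0 536870912 0 536870912 134217728 67108864 false false false .pp 0 2 2
    ndF3q0 ndF0q2 pcF2 Cut.none Ext.none :=
  certF0 (fam := false) (s1 := false) (s2 := false) (a := 0) (b := 2) (c := 2) (cn := .pp) (n1 := ndF3q0) (n2 := ndF0q2) (pc := pcF2) (cut := Cut.none) (xt := Ext.none) (P1 := 0) (W1 := 536870912) (P2 := 0) (W2 := 536870912) (P3 := 134217728) (W3 := 67108864)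
    rfl k0_mm_022

noncomputable def f_mm_101 : ℕ → ℕ → ℕ → ℕ → Bool := onCell 536870912 536870912 536870912 536870912 134217728 67108864
    (rowF 0 false false false .npn 1 0 1 (qsf 536870912 536870912 536870912 536870912 0) ndF3q1 ndF0q1 pcF0 Cut.none Ext.none)

def k0_mm_101 : ∃ t, chk3 f_mm_101 t 1 1 1 = true :=
  ⟨(b (l 3) (l 5)), by decide +kernel⟩

theorem c_mm_101 : CertF 536870912 536870912 536870912 536870912 134217728 67108864 false false false .npn 1 0 1
    ndF3q1 ndF0q1 pcF0 Cut.none Ext.none :=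
  certF0 (fam := false) (s1 := false) (s2 := false) (a := 1) (b := 0) (c := 1) (cn := .npn) (n1 := ndF3q1) (n2 := ndF0q1) (pc := pcF0) (cut := Cut.none) (xt := Ext.none) (P1 := 536870912) (W1 := 536870912) (P2 := 536870912) (W2 := 536870912) (P3 := 134217728) (W3 := 67108864)
    rfl k0_mm_101

noncomputable def f_mm_102 : ℕ → ℕ → ℕ → ℕ → Bool := onCell 536870912 536870912 0 536870912 134217728 67108864
    (rowF 0 false false false .npp 1 0 2 (qsf 536870912 536870912 0 536870912 0) ndF3q1 ndF0q2 pcF0 Cut.none Ext.none)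

def k0_mm_102 : ∃ t, chk3 f_mm_102 t 1 1 1 = true :=
  ⟨(l 5), by decide +kernel⟩

theorem c_mm_102 : CertF 536870912 536870912 0 536870912 134217728 67108864 false false false .npp 1 0 2
    ndF3q1 ndF0q2 pcF0 Cut.none Ext.none :=
  certF0 (fam := false) (s1 := false) (s2 := false) (a := 1) (b := 0) (c := 2) (cn := .npp) (n1 := ndF3q1) (n2 := ndF0q2) (pc := pcF0) (cut := Cut.none) (xt := Ext.none) (P1 := 536870912) (W1 := 536870912) (P2 := 0) (W2 := 536870912) (P3 := 134217728) (W3 := 67108864)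
    rfl k0_mm_102

noncomputable def f_mm_112 : ℕ → ℕ → ℕ → ℕ → Bool := onCell 536870912 536870912 0 536870912 134217728 67108864
    (rowF 0 false false false .dn 1 1 2 (qsf 536870912 536870912 0 536870912 1) ndF3q1 ndF0q2 pcF1 Cut.none Ext.none)

def k0_mm_112 : ∃ t, chk3 f_mm_112 t 1 1 1 = true :=
  ⟨(l 5), by decide +kernel⟩

theorem c_mm_112 : CertF 536870912 536870912 0 536870912 134217728 67108864 false false false .dn 1 1 2
    ndF3q1 ndF0q2 pcF1 Cut.none Ext.none :=
  certF0 (fam := false) (s1 := false) (s2 := false) (a := 1) (b := 1) (c := 2) (cn := .dn) (n1 := ndF3q1) (n2 := ndF0q2) (pc := pcF1) (cut := Cut.none) (xt := Ext.none) (P1 := 536870912) (W1 := 536870912) (P2 := 0) (W2 := 536870912) (P3 := 134217728) (W3 := 67108864)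
    rfl k0_mm_112

noncomputable def f_mm_202 : ℕ → ℕ → ℕ → ℕ → Bool := onCell 1073741824 536870912 0 536870912 134217728 67108864
    (rowF 0 false false false .pp 2 0 2 (qsf 1073741824 536870912 0 536870912 0) ndF3q2 ndF0q2 pcF0 Cut.none Ext.none)

def k0_mm_202 : ∃ t, chk3 f_mm_202 t 1 1 1 = true :=
  ⟨(l 3), by decide +kernel⟩

theorem c_mm_202 : CertF 1073741824 536870912 0 536870912 134217728 67108864 false false false .pp 2 0 2
    ndF3q2 ndF0q2 pcF0 Cut.none Ext.none :=
  certF0 (fam := false) (s1 := false) (s2 := false) (a := 2) (b := 0) (c := 2) (cn := .pp) (n1 := ndF3q2) (n2 := ndF0q2) (pc := pcF0) (cut := Cut.none) (xt := Ext.none) (P1 := 1073741824) (W1 := 536870912) (P2 := 0) (W2 := 536870912) (P3 := 134217728) (W3 := 67108864)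
    rfl k0_mm_202

end Pool.Agent.Strip051.G.I1_8_3_16.Tab.C.FB30

namespace Pool.Agent.Strip051.G.I1_8_3_16.Tab.C.FB31

open Pool.Agent.Strip051.PB Pool.Agent.Strip051.PB.T
open Pool.Agent.Strip051.G.I1_8_3_16.Tab

noncomputable def f_pp_001 : ℕ → ℕ → ℕ → ℕ → Bool := onCell 0 536870912 536870912 536870912 134217728 67108864
    (rowF 0 false true true .up 0 0 1 (qsf 0 536870912 536870912 536870912 0) ndF3q0 ndF1q1 pcF0 Cut.none Ext.none)

def k0_pp_001 : ∃ t, chk3 f_pp_001 t 1 1 1 = true :=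
  ⟨(l 3), by decide +kernel⟩

theorem c_pp_001 : CertF 0 536870912 536870912 536870912 134217728 67108864 false true true .up 0 0 1
    ndF3q0 ndF1q1 pcF0 Cut.none Ext.none :=
  certF0 (fam := false) (s1 := true) (s2 := true) (a := 0) (b := 0) (c := 1) (cn := .up) (n1 := ndF3q0) (n2 := ndF1q1) (pc := pcF0) (cut := Cut.none) (xt := Ext.none) (P1 := 0) (W1 := 536870912) (P2 := 536870912) (W2 := 536870912) (P3 := 134217728) (W3 := 67108864)
    rfl k0_pp_001

noncomputable def f_pp_011 : ℕ → ℕ → ℕ → ℕ → Bool := onCell 0 536870912 536870912 536870912 134217728 67108864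
    (rowF 0 false true true .pnn 0 1 1 (qsf 0 536870912 536870912 536870912 1) ndF3q0 ndF1q1 pcF1 Cut.none Ext.none)

def k0_pp_011 : ∃ t, chk3 f_pp_011 t 1 1 1 = true :=
  ⟨(l 3), by decide +kernel⟩

theorem c_pp_011 : CertF 0 536870912 536870912 536870912 134217728 67108864 false true true .pnn 0 1 1
    ndF3q0 ndF1q1 pcF1 Cut.none Ext.none :=
  certF0 (fam := false) (s1 := true) (s2 := true) (a := 0) (b := 1) (c := 1) (cn := .pnn) (n1 := ndF3q0) (n2 := ndF1q1) (pc := pcF1) (cut := Cut.none) (xt := Ext.none) (P1 := 0) (W1 := 536870912) (P2 := 536870912) (W2 := 536870912) (P3 := 134217728) (W3 := 67108864)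
    rfl k0_pp_011

noncomputable def f_pp_012_a : ℕ → ℕ → ℕ → ℕ → Bool := onCell 536870912 536870912 0 536870912 134217728 67108864
    (rowF 2 false true true .pnp 0 1 2 (qsf 0 536870912 0 536870912 1) ndF3q0 ndF1q2a pcF1 Cut.none Ext.none)

def k0_pp_012_a : ∃ t, chk3 f_pp_012_a t 1 1 1 = true :=
  ⟨(a (b (a (l 17024816) (l 16837712)) (a (b (l 17157504) (a (l 17379448) (l 17251080))) (b (l 16968592) (l 17318752)))) (a (b (l 16907488) (b (l 16954384) (a (l 17084624) (l 17106912)))) (b (b (l 17092976) (l 17003928)) (b (a (l 17037136) (l 17069624)) (a (b (l 17085400) (l 17175688)) (b (l 17125288) (a (l 17198016) (l 17210232)))))))), by decide +kernel⟩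

theorem c_pp_012_a : CertF 0 536870912 0 536870912 134217728 67108864 false true true .pnp 0 1 2
    ndF3q0 ndF1q2a pcF1 Cut.none Ext.none :=
  certF2 (fam := false) (s1 := true) (s2 := true) (a := 0) (b := 1) (c := 2) (cn := .pnp) (n1 := ndF3q0) (n2 := ndF1q2a) (pc := pcF1) (cut := Cut.none) (xt := Ext.none) (P1 := 0) (W1 := 536870912) (P2 := 0) (W2 := 536870912) (P3 := 134217728) (W3 := 67108864)
    rfl (fun _ => rfl) k0_pp_012_a

noncomputable def f_pp_012_b : ℕ → ℕ → ℕ → ℕ → Bool := onCell 536870912 536870912 1239849684 370763052 134217728 67108864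
    (rowF 2 false true true .pnp 0 1 2 (qsf 0 536870912 1239849684 370763052 1) ndF3q0 ndF1q2b pcF1 Cut.none Ext.none)

def k0_pp_012_b : ∃ t, chk3 f_pp_012_b t 1 1 1 = true :=
  ⟨(a (b (l 17124104) (l 2)) (b (a (l 17302184) (a (l 17526296) (l 17636928))) (a (l 17675288) (l 18117384)))), by decide +kernel⟩

theorem c_pp_012_b : CertF 0 536870912 1239849684 370763052 134217728 67108864 false true true .pnp 0 1 2
    ndF3q0 ndF1q2b pcF1 Cut.none Ext.none :=
  certF2 (fam := false) (s1 := true) (s2 := true) (a := 0) (b := 1) (c := 2) (cn := .pnp) (n1 := ndF3q0) (n2 := ndF1q2b) (pc := pcF1) (cut := Cut.none) (xt := Ext.none) (P1 := 0) (W1 := 536870912) (P2 := 1239849684) (W2 := 370763052) (P3 := 134217728) (W3 := 67108864)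
    rfl (fun _ => rfl) k0_pp_012_b

noncomputable def f_pp_022_a : ℕ → ℕ → ℕ → ℕ → Bool := onCell 1073741824 536870912 0 536870912 134217728 67108864
    (rowF 2 false true true .pp 0 2 2 (qsf 0 536870912 0 536870912 2) ndF3q0 ndF1q2a pcF2 Cut.none Ext.none)

def k0_pp_022_a : ∃ t, chk3 f_pp_022_a t 1 1 1 = true :=
  ⟨(a (b (a (a (l 17228184) (a (a (l 17222904) (l 17214992)) (a (l 17204520) (l 17194304)))) (a (a (a (l 17181064) (b (l 17156976) (l 458522621095))) (l 503082808263)) (l 1))) (a (b (a (a (l 17282488) (l 17279104)) (a (a (l 17281776) (a (l 17280968) (l 17278664))) (a (b (l 17247088) (l 17407056)) (b (l 17231744) (l 1))))) (a (b (a (l 17299480) (b (l 17297352) (l 157337796439))) (a (a (l 149821591463) (l 377454880775)) (a (l 384434202231) (l 1)))) (a (a (b (l 400540345511) (l 1)) (l 1)) (l 1)))) (b (l 1) (l 1)))) (l 1)), by decide +kernel⟩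

theorem c_pp_022_a : CertF 0 536870912 0 536870912 134217728 67108864 false true true .pp 0 2 2
    ndF3q0 ndF1q2a pcF2 Cut.none Ext.none :=
  certF2 (fam := false) (s1 := true) (s2 := true) (a := 0) (b := 2) (c := 2) (cn := .pp) (n1 := ndF3q0) (n2 := ndF1q2a) (pc := pcF2) (cut := Cut.none) (xt := Ext.none) (P1 := 0) (W1 := 536870912) (P2 := 0) (W2 := 536870912) (P3 := 134217728) (W3 := 67108864)
    rfl (fun _ => rfl) k0_pp_022_a

noncomputable def f_pp_022_b : ℕ → ℕ → ℕ → ℕ → Bool := onCell 0 536870912 1073741824 536870912 134217728 67108864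
    (rowF 1 false true true .pp 0 2 2 (qsf 0 536870912 1239849684 370763052 2) ndF3q0 ndF1q2b pcF2 Cut.none Ext.none)

def k0_pp_022_b : ∃ t, chk3 f_pp_022_b t 1 1 1 = true :=
  ⟨(a (b (a (b (b (l 404298755847) (b (b (l 17198376) (l 411277983431)) (a (l 459059461975) (l 17293768)))) (b (b (b (l 17125224) (l 17229384)) (l 17440808)) (a (l 17463296) (l 17970712)))) (b (b (l 17735832) (b (b (l 17919328) (l 17984272)) (l 18071368))) (b (l 18213792) (l 18346456)))) (b (a (l 18110632) (l 18426784)) (a (l 18258800) (l 18341792)))) (b (b (l 18580992) (l 18638568)) (b (l 18446224) (l 2)))), by decide +kernel⟩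

theorem c_pp_022_b : CertF 0 536870912 1239849684 370763052 134217728 67108864 false true true .pp 0 2 2
    ndF3q0 ndF1q2b pcF2 Cut.none Ext.none :=
  certF1 (fam := false) (s1 := true) (s2 := true) (a := 0) (b := 2) (c := 2) (cn := .pp) (n1 := ndF3q0) (n2 := ndF1q2b) (pc := pcF2) (cut := Cut.none) (xt := Ext.none) (P1 := 0) (W1 := 536870912) (P2 := 1239849684) (W2 := 370763052) (P3 := 134217728) (W3 := 67108864)
    rfl (fun _ => rfl) k0_pp_022_b

noncomputable def f_pp_023 : ℕ → ℕ → ℕ → ℕ → Bool := onCell 1073741824 536870912 1610612736 536870912 134217728 67108864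
    (rowF 2 false true true .up 0 2 3 (qsf 0 536870912 1610612736 536870912 2) ndF3q0 ndF1q3 pcF2 Cut.none Ext.none)

def k0_pp_023 : ∃ t, chk3 f_pp_023 t 1 1 1 = true :=
  ⟨(b (a (l 18768760) (a (l 18512440) (l 18270312))) (a (a (l 2) (l 18672576)) (a (l 18448432) (l 18150568)))), by decide +kernel⟩

theorem c_pp_023 : CertF 0 536870912 1610612736 536870912 134217728 67108864 false true true .up 0 2 3
    ndF3q0 ndF1q3 pcF2 Cut.none Ext.none :=
  certF2 (fam := false) (s1 := true) (s2 := true) (a := 0) (b := 2) (c := 3) (cn := .up) (n1 := ndF3q0) (n2 := ndF1q3) (pc := pcF2) (cut := Cut.none) (xt := Ext.none) (P1 := 0) (W1 := 536870912) (P2 := 1610612736) (W2 := 536870912) (P3 := 134217728) (W3 := 67108864)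
    rfl (fun _ => rfl) k0_pp_023

noncomputable def f_pp_033 : ℕ → ℕ → ℕ → ℕ → Bool := onCell 0 536870912 1610612736 536870912 134217728 67108864
    (rowF 0 false true true .pnn 0 3 3 (qsf 0 536870912 1610612736 536870912 3) ndF3q0 ndF1q3 pcF3 Cut.none Ext.none)

def k0_pp_033 : ∃ t, chk3 f_pp_033 t 1 1 1 = true :=
  ⟨(a (b (b (a (b (l 17914808) (l 17979616)) (b (l 1) (l 18138656))) (a (a (l 17824288) (b (l 18047640) (l 4))) (b (l 18195504) (l 18284768)))) (l 4)) (b (a (b (l 1) (b (l 1) (l 18360744))) (l 1)) (b (a (l 4) (b (l 1) (l 4))) (l 4)))), by decide +kernel⟩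

theorem c_pp_033 : CertF 0 536870912 1610612736 536870912 134217728 67108864 false true true .pnn 0 3 3
    ndF3q0 ndF1q3 pcF3 Cut.none Ext.none :=
  certF0 (fam := false) (s1 := true) (s2 := true) (a := 0) (b := 3) (c := 3) (cn := .pnn) (n1 := ndF3q0) (n2 := ndF1q3) (pc := pcF3) (cut := Cut.none) (xt := Ext.none) (P1 := 0) (W1 := 536870912) (P2 := 1610612736) (W2 := 536870912) (P3 := 134217728) (W3 := 67108864)
    rfl k0_pp_033

noncomputable def f_pp_101 : ℕ → ℕ → ℕ → ℕ → Bool := onCell 536870912 536870912 536870912 536870912 134217728 67108864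
    (rowF 0 false true true .npn 1 0 1 (qsf 536870912 536870912 536870912 536870912 0) ndF3q1 ndF1q1 pcF0 Cut.none Ext.none)

def k0_pp_101 : ∃ t, chk3 f_pp_101 t 1 1 1 = true :=
  ⟨(l 3), by decide +kernel⟩

theorem c_pp_101 : CertF 536870912 536870912 536870912 536870912 134217728 67108864 false true true .npn 1 0 1
    ndF3q1 ndF1q1 pcF0 Cut.none Ext.none :=
  certF0 (fam := false) (s1 := true) (s2 := true) (a := 1) (b := 0) (c := 1) (cn := .npn) (n1 := ndF3q1) (n2 := ndF1q1) (pc := pcF0) (cut := Cut.none) (xt := Ext.none) (P1 := 536870912) (W1 := 536870912) (P2 := 536870912) (W2 := 536870912) (P3 := 134217728) (W3 := 67108864)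
    rfl k0_pp_101

noncomputable def cut_pp_102_a : Cut := Cut.of [[⟨0, 1, 0, 67108864⟩, ⟨1, 0, 0, 67108864⟩, ⟨2, 1, 0, 67108864⟩]]

noncomputable def f_pp_102_a : ℕ → ℕ → ℕ → ℕ → Bool := onCell 536870912 536870912 0 536870912 134217728 67108864
    (rowF 0 false true true .npp 1 0 2 (qsf 536870912 536870912 0 536870912 0) ndF3q1 ndF1q2a pcF0 cut_pp_102_a Ext.none)

def k0_pp_102_a : ∃ t, chk3 f_pp_102_a t 2 1 1 = true :=
  ⟨(b (a (b (l 2) (l 17766904)) (b (l 17841624) (l 17867936))) (a (b (l 17802040) (b (l 17785360) (a (l 17762232) (l 17707368)))) (b (b (l 17845520) (l 17796960)) (b (a (l 17740032) (l 17674464)) (b (a (l 17664696) (l 17563840)) (a (l 17598272) (c (l 17584560) (l 17361952)))))))), by decide +kernel⟩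

def k1_pp_102_a : ∃ t, chk3 f_pp_102_a t 3 1 1 = true :=
  ⟨(b (a (a (l 17953056) (b (l 17943608) (l 17863408))) (a (b (a (l 17851728) (l 17703360)) (a (l 17700776) (l 17466360))) (b (a (l 17438304) (l 16983208)) (a (l 17026056) (l 16693584))))) (a (b (a (b (l 17817600) (l 17706408)) (a (l 17658048) (l 17517576))) (a (b (a (l 17584104) (l 17486416)) (b (a (l 17438800) (l 17305312)) (a (c (l 17455144) (l 17194536)) (b (l 17203088) (c (l 17283104) (l 16983624)))))) (b (a (l 17330712) (b (l 17173360) (l 16984136))) (b (a (l 17099256) (a (l 16871104) (l 16663928))) (a (b (l 16951632) (c (a (l 17133016) (l 17002888)) (l 16709224))) (b (l 16668008) (a (l 16688568) (l 16717160)))))))) (a (b (a (b (l 17429968) (l 17114440)) (b (l 17072144) (l 16665760))) (b (a (b (l 16788848) (l 16581400)) (a (l 16592624) (l 16609160))) (a (b (a (l 16602264) (l 16631744)) (b (b (l 16692080) (l 16712784)) (a (c (l 16705248) (l 16703360)) (b (l 16702080) (l 16723264))))) (b (a (l 16648352) (l 16646696))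 (a (b (l 16701712) (a (l 16731920) (c (l 16726600) (l 16725104)))) (b (l 16691136) (b (l 16701192) (c (l 16723000) (l 16721528))))))))) (b (a (b (l 16507480) (l 16582832)) (b (l 16517240) (a (l 16573392) (l 16579840)))) (b (a (b (l 16601496) (a (l 16618680) (l 16636568))) (a (b (l 16621880) (l 16652952)) (b (l 16630504) (b (l 16657912) (l 16676192))))) (b (a (a (l 16667960) (b (l 16658600) (l 16674816))) (a (b (l 16677272) (l 6)) (l 6))) (a (a (b (l 16699544) (b (l 16730584) (c (l 16752144) (l 16751184)))) (b (l 16715840) (l 6))) (l 6)))))))), by decide +kernel⟩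

theorem s2_pp_102_a : ∃ t, chk3 f_pp_102_a t 1 1 1 = true := ex3_a k0_pp_102_a k1_pp_102_a

theorem c_pp_102_a : CertF 536870912 536870912 0 536870912 134217728 67108864 false true true .npp 1 0 2
    ndF3q1 ndF1q2a pcF0 cut_pp_102_a Ext.none :=
  certF0 (fam := false) (s1 := true) (s2 := true) (a := 1) (b := 0) (c := 2) (cn := .npp) (n1 := ndF3q1) (n2 := ndF1q2a) (pc := pcF0) (cut := cut_pp_102_a) (xt := Ext.none) (P1 := 536870912) (W1 := 536870912) (P2 := 0) (W2 := 536870912) (P3 := 134217728) (W3 := 67108864)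
    rfl s2_pp_102_a

noncomputable def cut_pp_102_b : Cut := Cut.of [[⟨0, 1, 0, 67108864⟩, ⟨1, 0, 0, 67108864⟩, ⟨2, 1, 0, 67108864⟩]]

noncomputable def f_pp_102_b : ℕ → ℕ → ℕ → ℕ → Bool := onCell 536870912 536870912 1239849684 370763052 134217728 67108864
    (rowF 0 false true true .npp 1 0 2 (qsf 536870912 536870912 1239849684 370763052 0) ndF3q1 ndF1q2b pcF0 cut_pp_102_b Ext.none)

def k0_pp_102_b : ∃ t, chk3 f_pp_102_b t 1 1 1 = true :=
  ⟨(a (b (a (l 2) (l 18014616)) (l 2)) (a (b (b (a (l 18082288) (l 18185512)) (l 18412048)) (l 18578240)) (a (b (b (a (l 18201488) (l 18170712)) (l 18679040)) (l 18964776)) (b (b (b (l 17730424) (l 18239304)) (l 18746912)) (l 19188864))))), by decide +kernel⟩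

theorem c_pp_102_b : CertF 536870912 536870912 1239849684 370763052 134217728 67108864 false true true .npp 1 0 2
    ndF3q1 ndF1q2b pcF0 cut_pp_102_b Ext.none :=
  certF0 (fam := false) (s1 := true) (s2 := true) (a := 1) (b := 0) (c := 2) (cn := .npp) (n1 := ndF3q1) (n2 := ndF1q2b) (pc := pcF0) (cut := cut_pp_102_b) (xt := Ext.none) (P1 := 536870912) (W1 := 536870912) (P2 := 1239849684) (W2 := 370763052) (P3 := 134217728) (W3 := 67108864)
    rfl k0_pp_102_b

noncomputable def f_pp_112_a : ℕ → ℕ → ℕ → ℕ → Bool := onCell 536870912 536870912 0 536870912 134217728 67108864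
    (rowF 2 false true true .dn 1 1 2 (qsf 536870912 536870912 0 536870912 1) ndF3q1 ndF1q2a pcF1 Cut.none Ext.none)

def k0_pp_112_a : ∃ t, chk3 f_pp_112_a t 1 1 1 = true :=
  ⟨(a (b (a (b (l 18186920) (l 18152320)) (l 18094672)) (a (b (l 18081960) (b (l 18015856) (a (l 17934608) (l 1)))) (l 499326587063))) (l 1)), by decide +kernel⟩

theorem c_pp_112_a : CertF 536870912 536870912 0 536870912 134217728 67108864 false true true .dn 1 1 2
    ndF3q1 ndF1q2a pcF1 Cut.none Ext.none :=
  certF2 (fam := false) (s1 := true) (s2 := true) (a := 1) (b := 1) (c := 2) (cn := .dn) (n1 := ndF3q1) (n2 := ndF1q2a) (pc := pcF1) (cut := Cut.none) (xt := Ext.none) (P1 := 536870912) (W1 := 536870912) (P2 := 0) (W2 := 536870912) (P3 := 134217728) (W3 := 67108864)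
    rfl (fun _ => rfl) k0_pp_112_a

noncomputable def f_pp_112_b : ℕ → ℕ → ℕ → ℕ → Bool := onCell 536870912 536870912 1239849684 370763052 134217728 67108864
    (rowF 0 false true true .dn 1 1 2 (qsf 536870912 536870912 1239849684 370763052 1) ndF3q1 ndF1q2b pcF1 Cut.none Ext.none)

def k0_pp_112_b : ∃ t, chk3 f_pp_112_b t 1 1 1 = true :=
  ⟨(a (b (l 18269856) (l 18158720)) (a (b (l 476242240151) (l 18646192)) (a (b (l 1) (l 18701344)) (l 499865068887)))), by decide +kernel⟩

theorem c_pp_112_b : CertF 536870912 536870912 1239849684 370763052 134217728 67108864 false true true .dn 1 1 2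
    ndF3q1 ndF1q2b pcF1 Cut.none Ext.none :=
  certF0 (fam := false) (s1 := true) (s2 := true) (a := 1) (b := 1) (c := 2) (cn := .dn) (n1 := ndF3q1) (n2 := ndF1q2b) (pc := pcF1) (cut := Cut.none) (xt := Ext.none) (P1 := 536870912) (W1 := 536870912) (P2 := 1239849684) (W2 := 370763052) (P3 := 134217728) (W3 := 67108864)
    rfl k0_pp_112_b

noncomputable def f_pp_113 : ℕ → ℕ → ℕ → ℕ → Bool := onCell 536870912 536870912 536870912 536870912 134217728 67108864
    (rowF 1 false true true .nn 1 1 3 (qsf 536870912 536870912 1610612736 536870912 1) ndF3q1 ndF1q3 pcF1 Cut.none Ext.none)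

def k0_pp_113 : ∃ t, chk3 f_pp_113 t 1 1 1 = true :=
  ⟨(a (b (l 456377110103) (l 517579912263)) (b (a (l 18312344) (a (l 18521464) (l 18435672))) (a (b (l 17942352) (b (l 17661664) (l 17427328))) (b (a (l 17922592) (l 17831040)) (a (b (l 17551640) (l 17258040)) (b (l 17409424) (l 17069088))))))), by decide +kernel⟩

theorem c_pp_113 : CertF 536870912 536870912 1610612736 536870912 134217728 67108864 false true true .nn 1 1 3
    ndF3q1 ndF1q3 pcF1 Cut.none Ext.none :=
  certF1 (fam := false) (s1 := true) (s2 := true) (a := 1) (b := 1) (c := 3) (cn := .nn) (n1 := ndF3q1) (n2 := ndF1q3) (pc := pcF1) (cut := Cut.none) (xt := Ext.none) (P1 := 536870912) (W1 := 536870912) (P2 := 1610612736) (W2 := 536870912) (P3 := 134217728) (W3 := 67108864)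
    rfl (fun _ => rfl) k0_pp_113

noncomputable def f_pp_123 : ℕ → ℕ → ℕ → ℕ → Bool := onCell 536870912 536870912 1610612736 536870912 134217728 67108864
    (rowF 0 false true true .npn 1 2 3 (qsf 536870912 536870912 1610612736 536870912 2) ndF3q1 ndF1q3 pcF2 Cut.none Ext.none)

def k0_pp_123 : ∃ t, chk3 f_pp_123 t 1 1 1 = true :=
  ⟨(a (b (b (l 17968240) (a (l 17704896) (l 17704400))) (a (b (l 17350584) (l 4)) (b (l 17415392) (b (l 17110504) (l 4))))) (b (a (a (l 17799736) (l 1)) (l 1)) (a (b (l 17360152) (a (l 17024944) (l 16996784))) (a (b (l 17415584) (l 16979088)) (l 743064316135))))), by decide +kernel⟩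

theorem c_pp_123 : CertF 536870912 536870912 1610612736 536870912 134217728 67108864 false true true .npn 1 2 3
    ndF3q1 ndF1q3 pcF2 Cut.none Ext.none :=
  certF0 (fam := false) (s1 := true) (s2 := true) (a := 1) (b := 2) (c := 3) (cn := .npn) (n1 := ndF3q1) (n2 := ndF1q3) (pc := pcF2) (cut := Cut.none) (xt := Ext.none) (P1 := 536870912) (W1 := 536870912) (P2 := 1610612736) (W2 := 536870912) (P3 := 134217728) (W3 := 67108864)
    rfl k0_pp_123

noncomputable def f_pp_133 : ℕ → ℕ → ℕ → ℕ → Bool := onCell 1610612736 536870912 1610612736 536870912 134217728 67108864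
    (rowF 2 false true true .dn 1 3 3 (qsf 536870912 536870912 1610612736 536870912 3) ndF3q1 ndF1q3 pcF3 Cut.none Ext.none)

def k0_pp_133 : ∃ t, chk3 f_pp_133 t 1 1 1 = true :=
  ⟨(a (b (l 1) (a (l 4) (l 1))) (l 1)), by decide +kernel⟩

theorem c_pp_133 : CertF 536870912 536870912 1610612736 536870912 134217728 67108864 false true true .dn 1 3 3
    ndF3q1 ndF1q3 pcF3 Cut.none Ext.none :=
  certF2 (fam := false) (s1 := true) (s2 := true) (a := 1) (b := 3) (c := 3) (cn := .dn) (n1 := ndF3q1) (n2 := ndF1q3) (pc := pcF3) (cut := Cut.none) (xt := Ext.none) (P1 := 536870912) (W1 := 536870912) (P2 := 1610612736) (W2 := 536870912) (P3 := 134217728) (W3 := 67108864)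
    rfl (fun _ => rfl) k0_pp_133

noncomputable def f_pp_202_a : ℕ → ℕ → ℕ → ℕ → Bool := onCell 1073741824 536870912 0 536870912 134217728 67108864
    (rowF 0 false true true .pp 2 0 2 (qsf 1073741824 536870912 0 536870912 0) ndF3q2 ndF1q2a pcF0 Cut.none Ext.none)

def k0_pp_202_a : ∃ t, chk3 f_pp_202_a t 1 1 1 = true :=
  ⟨(l 3), by decide +kernel⟩

theorem c_pp_202_a : CertF 1073741824 536870912 0 536870912 134217728 67108864 false true true .pp 2 0 2
    ndF3q2 ndF1q2a pcF0 Cut.none Ext.none :=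
  certF0 (fam := false) (s1 := true) (s2 := true) (a := 2) (b := 0) (c := 2) (cn := .pp) (n1 := ndF3q2) (n2 := ndF1q2a) (pc := pcF0) (cut := Cut.none) (xt := Ext.none) (P1 := 1073741824) (W1 := 536870912) (P2 := 0) (W2 := 536870912) (P3 := 134217728) (W3 := 67108864)
    rfl k0_pp_202_a

noncomputable def f_pp_202_b : ℕ → ℕ → ℕ → ℕ → Bool := onCell 1073741824 536870912 1239849684 370763052 134217728 67108864
    (rowF 0 false true true .pp 2 0 2 (qsf 1073741824 536870912 1239849684 370763052 0) ndF3q2 ndF1q2b pcF0 Cut.none Ext.none)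

def k0_pp_202_b : ∃ t, chk3 f_pp_202_b t 1 1 1 = true :=
  ⟨(l 3), by decide +kernel⟩

theorem c_pp_202_b : CertF 1073741824 536870912 1239849684 370763052 134217728 67108864 false true true .pp 2 0 2
    ndF3q2 ndF1q2b pcF0 Cut.none Ext.none :=
  certF0 (fam := false) (s1 := true) (s2 := true) (a := 2) (b := 0) (c := 2) (cn := .pp) (n1 := ndF3q2) (n2 := ndF1q2b) (pc := pcF0) (cut := Cut.none) (xt := Ext.none) (P1 := 1073741824) (W1 := 536870912) (P2 := 1239849684) (W2 := 370763052) (P3 := 134217728) (W3 := 67108864)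
    rfl k0_pp_202_b

noncomputable def f_pp_203 : ℕ → ℕ → ℕ → ℕ → Bool := onCell 1073741824 536870912 0 536870912 134217728 67108864
    (rowF 1 false true true .up 2 0 3 (qsf 1073741824 536870912 1610612736 536870912 0) ndF3q2 ndF1q3 pcF0 Cut.none Ext.none)

def k0_pp_203 : ∃ t, chk3 f_pp_203 t 1 1 1 = true :=
  ⟨(l 3), by decide +kernel⟩

theorem c_pp_203 : CertF 1073741824 536870912 1610612736 536870912 134217728 67108864 false true true .up 2 0 3
    ndF3q2 ndF1q3 pcF0 Cut.none Ext.none :=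
  certF1 (fam := false) (s1 := true) (s2 := true) (a := 2) (b := 0) (c := 3) (cn := .up) (n1 := ndF3q2) (n2 := ndF1q3) (pc := pcF0) (cut := Cut.none) (xt := Ext.none) (P1 := 1073741824) (W1 := 536870912) (P2 := 1610612736) (W2 := 536870912) (P3 := 134217728) (W3 := 67108864)
    rfl (fun _ => rfl) k0_pp_203

noncomputable def f_pp_213 : ℕ → ℕ → ℕ → ℕ → Bool := onCell 1073741824 536870912 1610612736 536870912 134217728 67108864
    (rowF 0 false true true .pnn 2 1 3 (qsf 1073741824 536870912 1610612736 536870912 1) ndF3q2 ndF1q3 pcF1 Cut.none Ext.none)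

def k0_pp_213 : ∃ t, chk3 f_pp_213 t 1 1 1 = true :=
  ⟨(a (b (l 3) (b (l 3) (a (b (a (l 17317696) (l 3)) (a (l 16955896) (a (a (l 17012920) (l 17021920)) (l 242834397175)))) (a (a (a (l 269678171335) (l 278805004551)) (l 3)) (l 3))))) (l 3)), by decide +kernel⟩

theorem c_pp_213 : CertF 1073741824 536870912 1610612736 536870912 134217728 67108864 false true true .pnn 2 1 3
    ndF3q2 ndF1q3 pcF1 Cut.none Ext.none :=
  certF0 (fam := false) (s1 := true) (s2 := true) (a := 2) (b := 1) (c := 3) (cn := .pnn) (n1 := ndF3q2) (n2 := ndF1q3) (pc := pcF1) (cut := Cut.none) (xt := Ext.none) (P1 := 1073741824) (W1 := 536870912) (P2 := 1610612736) (W2 := 536870912) (P3 := 134217728) (W3 := 67108864)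
    rfl k0_pp_213

noncomputable def f_pp_303 : ℕ → ℕ → ℕ → ℕ → Bool := onCell 0 1230186008 1610612736 536870912 134217728 67108864
    (rowF 0 false true true .npn 3 0 3 (qsf 0 1230186008 1610612736 536870912 0) ndF3q3 ndF1q3 pcF0 Cut.none Ext.none)

def k0_pp_303 : ∃ t, chk3 f_pp_303 t 1 1 1 = true :=
  ⟨(a (l 3) (l 3)), by decide +kernel⟩

theorem c_pp_303 : CertF 0 1230186008 1610612736 536870912 134217728 67108864 false true true .npn 3 0 3
    ndF3q3 ndF1q3 pcF0 Cut.none Ext.none :=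
  certF0 (fam := false) (s1 := true) (s2 := true) (a := 3) (b := 0) (c := 3) (cn := .npn) (n1 := ndF3q3) (n2 := ndF1q3) (pc := pcF0) (cut := Cut.none) (xt := Ext.none) (P1 := 0) (W1 := 1230186008) (P2 := 1610612736) (W2 := 536870912) (P3 := 134217728) (W3 := 67108864)
    rfl k0_pp_303

noncomputable def f_pp_313 : ℕ → ℕ → ℕ → ℕ → Bool := onCell 0 1230186008 1610612736 536870912 134217728 67108864
    (rowF 0 false true true .dn 3 1 3 (qsf 0 1230186008 1610612736 536870912 1) ndF3q3 ndF1q3 pcF1 Cut.none Ext.none)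

def k0_pp_313 : ∃ t, chk3 f_pp_313 t 1 1 1 = true :=
  ⟨(a (l 1) (l 3)), by decide +kernel⟩

theorem c_pp_313 : CertF 0 1230186008 1610612736 536870912 134217728 67108864 false true true .dn 3 1 3
    ndF3q3 ndF1q3 pcF1 Cut.none Ext.none :=
  certF0 (fam := false) (s1 := true) (s2 := true) (a := 3) (b := 1) (c := 3) (cn := .dn) (n1 := ndF3q3) (n2 := ndF1q3) (pc := pcF1) (cut := Cut.none) (xt := Ext.none) (P1 := 0) (W1 := 1230186008) (P2 := 1610612736) (W2 := 536870912) (P3 := 134217728) (W3 := 67108864)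
    rfl k0_pp_313

noncomputable def f_pm_001 : ℕ → ℕ → ℕ → ℕ → Bool := onCell 0 536870912 536870912 536870912 134217728 67108864
    (rowF 0 false true false .up 0 0 1 (qsf 0 536870912 536870912 536870912 0) ndF3q0 ndF1q1 pcF0 Cut.none Ext.none)

def k0_pm_001 : ∃ t, chk3 f_pm_001 t 1 1 1 = true :=
  ⟨(l 4), by decide +kernel⟩

theorem c_pm_001 : CertF 0 536870912 536870912 536870912 134217728 67108864 false true false .up 0 0 1
    ndF3q0 ndF1q1 pcF0 Cut.none Ext.none :=
  certF0 (fam := false) (s1 := true) (s2 := false) (a := 0) (b := 0) (c := 1) (cn := .up) (n1 := ndF3q0) (n2 := ndF1q1) (pc := pcF0) (cut := Cut.none) (xt := Ext.none) (P1 := 0) (W1 := 536870912) (P2 := 536870912) (W2 := 536870912) (P3 := 134217728) (W3 := 67108864)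
    rfl k0_pm_001

noncomputable def f_pm_011 : ℕ → ℕ → ℕ → ℕ → Bool := onCell 0 536870912 536870912 536870912 134217728 67108864
    (rowF 0 false true false .pnn 0 1 1 (qsf 0 536870912 536870912 536870912 1) ndF3q0 ndF1q1 pcF1 Cut.none Ext.none)

def k0_pm_011 : ∃ t, chk3 f_pm_011 t 1 1 1 = true :=
  ⟨(l 4), by decide +kernel⟩

theorem c_pm_011 : CertF 0 536870912 536870912 536870912 134217728 67108864 false true false .pnn 0 1 1
    ndF3q0 ndF1q1 pcF1 Cut.none Ext.none :=
  certF0 (fam := false) (s1 := true) (s2 := false) (a := 0) (b := 1) (c := 1) (cn := .pnn) (n1 := ndF3q0) (n2 := ndF1q1) (pc := pcF1) (cut := Cut.none) (xt := Ext.none) (P1 := 0) (W1 := 536870912) (P2 := 536870912) (W2 := 536870912) (P3 := 134217728) (W3 := 67108864)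
    rfl k0_pm_011

noncomputable def f_pm_012_a : ℕ → ℕ → ℕ → ℕ → Bool := onCell 536870912 536870912 0 536870912 134217728 67108864
    (rowF 2 false true false .pnp 0 1 2 (qsf 0 536870912 0 536870912 1) ndF3q0 ndF1q2a pcF1 Cut.none Ext.none)

def k0_pm_012_a : ∃ t, chk3 f_pm_012_a t 1 1 1 = true :=
  ⟨(a (l 4) (b (l 4) (l 4))), by decide +kernel⟩

theorem c_pm_012_a : CertF 0 536870912 0 536870912 134217728 67108864 false true false .pnp 0 1 2
    ndF3q0 ndF1q2a pcF1 Cut.none Ext.none :=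
  certF2 (fam := false) (s1 := true) (s2 := false) (a := 0) (b := 1) (c := 2) (cn := .pnp) (n1 := ndF3q0) (n2 := ndF1q2a) (pc := pcF1) (cut := Cut.none) (xt := Ext.none) (P1 := 0) (W1 := 536870912) (P2 := 0) (W2 := 536870912) (P3 := 134217728) (W3 := 67108864)
    rfl (fun _ => rfl) k0_pm_012_a

noncomputable def f_pm_012_b : ℕ → ℕ → ℕ → ℕ → Bool := onCell 536870912 536870912 1239849684 370763052 134217728 67108864
    (rowF 2 false true false .pnp 0 1 2 (qsf 0 536870912 1239849684 370763052 1) ndF3q0 ndF1q2b pcF1 Cut.none Ext.none)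

def k0_pm_012_b : ∃ t, chk3 f_pm_012_b t 1 1 1 = true :=
  ⟨(a (l 4) (l 4)), by decide +kernel⟩

theorem c_pm_012_b : CertF 0 536870912 1239849684 370763052 134217728 67108864 false true false .pnp 0 1 2
    ndF3q0 ndF1q2b pcF1 Cut.none Ext.none :=
  certF2 (fam := false) (s1 := true) (s2 := false) (a := 0) (b := 1) (c := 2) (cn := .pnp) (n1 := ndF3q0) (n2 := ndF1q2b) (pc := pcF1) (cut := Cut.none) (xt := Ext.none) (P1 := 0) (W1 := 536870912) (P2 := 1239849684) (W2 := 370763052) (P3 := 134217728) (W3 := 67108864)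
    rfl (fun _ => rfl) k0_pm_012_b

noncomputable def f_pm_022_a : ℕ → ℕ → ℕ → ℕ → Bool := onCell 0 536870912 0 536870912 134217728 67108864
    (rowF 0 false true false .pp 0 2 2 (qsf 0 536870912 0 536870912 2) ndF3q0 ndF1q2a pcF2 Cut.none Ext.none)

def k0_pm_022_a : ∃ t, chk3 f_pm_022_a t 1 1 1 = true :=
  ⟨(a (b (a (a (b (l 17149352) (l 4)) (l 4)) (l 4)) (l 4)) (l 1)), by decide +kernel⟩

theorem c_pm_022_a : CertF 0 536870912 0 536870912 134217728 67108864 false true false .pp 0 2 2
    ndF3q0 ndF1q2a pcF2 Cut.none Ext.none :=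
  certF0 (fam := false) (s1 := true) (s2 := false) (a := 0) (b := 2) (c := 2) (cn := .pp) (n1 := ndF3q0) (n2 := ndF1q2a) (pc := pcF2) (cut := Cut.none) (xt := Ext.none) (P1 := 0) (W1 := 536870912) (P2 := 0) (W2 := 536870912) (P3 := 134217728) (W3 := 67108864)
    rfl k0_pm_022_a

noncomputable def f_pm_022_b : ℕ → ℕ → ℕ → ℕ → Bool := onCell 0 536870912 1239849684 370763052 134217728 67108864
    (rowF 0 false true false .pp 0 2 2 (qsf 0 536870912 1239849684 370763052 2) ndF3q0 ndF1q2b pcF2 Cut.none Ext.none)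

def k0_pm_022_b : ∃ t, chk3 f_pm_022_b t 1 1 1 = true :=
  ⟨(a (b (a (b (a (b (l 17133384) (l 4)) (l 4)) (l 4)) (l 4)) (l 4)) (l 4)), by decide +kernel⟩

theorem c_pm_022_b : CertF 0 536870912 1239849684 370763052 134217728 67108864 false true false .pp 0 2 2
    ndF3q0 ndF1q2b pcF2 Cut.none Ext.none :=
  certF0 (fam := false) (s1 := true) (s2 := false) (a := 0) (b := 2) (c := 2) (cn := .pp) (n1 := ndF3q0) (n2 := ndF1q2b) (pc := pcF2) (cut := Cut.none) (xt := Ext.none) (P1 := 0) (W1 := 536870912) (P2 := 1239849684) (W2 := 370763052) (P3 := 134217728) (W3 := 67108864)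
    rfl k0_pm_022_b

noncomputable def f_pm_023 : ℕ → ℕ → ℕ → ℕ → Bool := onCell 0 536870912 1610612736 536870912 134217728 67108864
    (rowF 0 false true false .up 0 2 3 (qsf 0 536870912 1610612736 536870912 2) ndF3q0 ndF1q3 pcF2 Cut.none Ext.none)

def k0_pm_023 : ∃ t, chk3 f_pm_023 t 1 1 1 = true :=
  ⟨(l 4), by decide +kernel⟩

theorem c_pm_023 : CertF 0 536870912 1610612736 536870912 134217728 67108864 false true false .up 0 2 3
    ndF3q0 ndF1q3 pcF2 Cut.none Ext.none :=
  certF0 (fam := false) (s1 := true) (s2 := false) (a := 0) (b := 2) (c := 3) (cn := .up) (n1 := ndF3q0) (n2 := ndF1q3) (pc := pcF2) (cut := Cut.none) (xt := Ext.none) (P1 := 0) (W1 := 536870912) (P2 := 1610612736) (W2 := 536870912) (P3 := 134217728) (W3 := 67108864)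
    rfl k0_pm_023

noncomputable def f_pm_033 : ℕ → ℕ → ℕ → ℕ → Bool := onCell 0 536870912 1610612736 536870912 134217728 67108864
    (rowF 0 false true false .pnn 0 3 3 (qsf 0 536870912 1610612736 536870912 3) ndF3q0 ndF1q3 pcF3 Cut.none Ext.none)

def k0_pm_033 : ∃ t, chk3 f_pm_033 t 1 1 1 = true :=
  ⟨(l 4), by decide +kernel⟩

theorem c_pm_033 : CertF 0 536870912 1610612736 536870912 134217728 67108864 false true false .pnn 0 3 3
    ndF3q0 ndF1q3 pcF3 Cut.none Ext.none :=
  certF0 (fam := false) (s1 := true) (s2 := false) (a := 0) (b := 3) (c := 3) (cn := .pnn) (n1 := ndF3q0) (n2 := ndF1q3) (pc := pcF3) (cut := Cut.none) (xt := Ext.none) (P1 := 0) (W1 := 536870912) (P2 := 1610612736) (W2 := 536870912) (P3 := 134217728) (W3 := 67108864)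
    rfl k0_pm_033

noncomputable def f_pm_101 : ℕ → ℕ → ℕ → ℕ → Bool := onCell 536870912 536870912 536870912 536870912 134217728 67108864
    (rowF 0 false true false .npn 1 0 1 (qsf 536870912 536870912 536870912 536870912 0) ndF3q1 ndF1q1 pcF0 Cut.none Ext.none)

def k0_pm_101 : ∃ t, chk3 f_pm_101 t 1 1 1 = true :=
  ⟨(l 4), by decide +kernel⟩

theorem c_pm_101 : CertF 536870912 536870912 536870912 536870912 134217728 67108864 false true false .npn 1 0 1
    ndF3q1 ndF1q1 pcF0 Cut.none Ext.none :=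
  certF0 (fam := false) (s1 := true) (s2 := false) (a := 1) (b := 0) (c := 1) (cn := .npn) (n1 := ndF3q1) (n2 := ndF1q1) (pc := pcF0) (cut := Cut.none) (xt := Ext.none) (P1 := 536870912) (W1 := 536870912) (P2 := 536870912) (W2 := 536870912) (P3 := 134217728) (W3 := 67108864)
    rfl k0_pm_101

noncomputable def f_pm_102_a : ℕ → ℕ → ℕ → ℕ → Bool := onCell 536870912 536870912 0 536870912 134217728 67108864
    (rowF 0 false true false .npp 1 0 2 (qsf 536870912 536870912 0 536870912 0) ndF3q1 ndF1q2a pcF0 Cut.none Ext.none)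

def k0_pm_102_a : ∃ t, chk3 f_pm_102_a t 1 1 1 = true :=
  ⟨(a (l 4) (b (l 4) (l 4))), by decide +kernel⟩

theorem c_pm_102_a : CertF 536870912 536870912 0 536870912 134217728 67108864 false true false .npp 1 0 2
    ndF3q1 ndF1q2a pcF0 Cut.none Ext.none :=
  certF0 (fam := false) (s1 := true) (s2 := false) (a := 1) (b := 0) (c := 2) (cn := .npp) (n1 := ndF3q1) (n2 := ndF1q2a) (pc := pcF0) (cut := Cut.none) (xt := Ext.none) (P1 := 536870912) (W1 := 536870912) (P2 := 0) (W2 := 536870912) (P3 := 134217728) (W3 := 67108864)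
    rfl k0_pm_102_a

noncomputable def f_pm_102_b : ℕ → ℕ → ℕ → ℕ → Bool := onCell 536870912 536870912 1239849684 370763052 134217728 67108864
    (rowF 0 false true false .npp 1 0 2 (qsf 536870912 536870912 1239849684 370763052 0) ndF3q1 ndF1q2b pcF0 Cut.none Ext.none)

def k0_pm_102_b : ∃ t, chk3 f_pm_102_b t 1 1 1 = true :=
  ⟨(a (l 4) (b (l 4) (l 4))), by decide +kernel⟩

theorem c_pm_102_b : CertF 536870912 536870912 1239849684 370763052 134217728 67108864 false true false .npp 1 0 2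
    ndF3q1 ndF1q2b pcF0 Cut.none Ext.none :=
  certF0 (fam := false) (s1 := true) (s2 := false) (a := 1) (b := 0) (c := 2) (cn := .npp) (n1 := ndF3q1) (n2 := ndF1q2b) (pc := pcF0) (cut := Cut.none) (xt := Ext.none) (P1 := 536870912) (W1 := 536870912) (P2 := 1239849684) (W2 := 370763052) (P3 := 134217728) (W3 := 67108864)
    rfl k0_pm_102_b

noncomputable def f_pm_112_a : ℕ → ℕ → ℕ → ℕ → Bool := onCell 536870912 536870912 0 536870912 134217728 67108864
    (rowF 0 false true false .dn 1 1 2 (qsf 536870912 536870912 0 536870912 1) ndF3q1 ndF1q2a pcF1 Cut.none Ext.none)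

def k0_pm_112_a : ∃ t, chk3 f_pm_112_a t 1 1 1 = true :=
  ⟨(a (l 4) (l 1)), by decide +kernel⟩

theorem c_pm_112_a : CertF 536870912 536870912 0 536870912 134217728 67108864 false true false .dn 1 1 2
    ndF3q1 ndF1q2a pcF1 Cut.none Ext.none :=
  certF0 (fam := false) (s1 := true) (s2 := false) (a := 1) (b := 1) (c := 2) (cn := .dn) (n1 := ndF3q1) (n2 := ndF1q2a) (pc := pcF1) (cut := Cut.none) (xt := Ext.none) (P1 := 536870912) (W1 := 536870912) (P2 := 0) (W2 := 536870912) (P3 := 134217728) (W3 := 67108864)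
    rfl k0_pm_112_a

noncomputable def f_pm_112_b : ℕ → ℕ → ℕ → ℕ → Bool := onCell 536870912 536870912 1239849684 370763052 134217728 67108864
    (rowF 2 false true false .dn 1 1 2 (qsf 536870912 536870912 1239849684 370763052 1) ndF3q1 ndF1q2b pcF1 Cut.none Ext.none)

def k0_pm_112_b : ∃ t, chk3 f_pm_112_b t 1 1 1 = true :=
  ⟨(a (l 4) (l 4)), by decide +kernel⟩

theorem c_pm_112_b : CertF 536870912 536870912 1239849684 370763052 134217728 67108864 false true false .dn 1 1 2
    ndF3q1 ndF1q2b pcF1 Cut.none Ext.none :=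
  certF2 (fam := false) (s1 := true) (s2 := false) (a := 1) (b := 1) (c := 2) (cn := .dn) (n1 := ndF3q1) (n2 := ndF1q2b) (pc := pcF1) (cut := Cut.none) (xt := Ext.none) (P1 := 536870912) (W1 := 536870912) (P2 := 1239849684) (W2 := 370763052) (P3 := 134217728) (W3 := 67108864)
    rfl (fun _ => rfl) k0_pm_112_b

noncomputable def f_pm_113 : ℕ → ℕ → ℕ → ℕ → Bool := onCell 536870912 536870912 1610612736 536870912 134217728 67108864
    (rowF 0 false true false .nn 1 1 3 (qsf 536870912 536870912 1610612736 536870912 1) ndF3q1 ndF1q3 pcF1 Cut.none Ext.none)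

def k0_pm_113 : ∃ t, chk3 f_pm_113 t 1 1 1 = true :=
  ⟨(a (l 4) (b (l 4) (a (l 4) (a (l 4) (b (l 4) (b (l 4) (l 16909464))))))), by decide +kernel⟩

theorem c_pm_113 : CertF 536870912 536870912 1610612736 536870912 134217728 67108864 false true false .nn 1 1 3
    ndF3q1 ndF1q3 pcF1 Cut.none Ext.none :=
  certF0 (fam := false) (s1 := true) (s2 := false) (a := 1) (b := 1) (c := 3) (cn := .nn) (n1 := ndF3q1) (n2 := ndF1q3) (pc := pcF1) (cut := Cut.none) (xt := Ext.none) (P1 := 536870912) (W1 := 536870912) (P2 := 1610612736) (W2 := 536870912) (P3 := 134217728) (W3 := 67108864)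
    rfl k0_pm_113

noncomputable def f_pm_123 : ℕ → ℕ → ℕ → ℕ → Bool := onCell 536870912 536870912 1610612736 536870912 134217728 67108864
    (rowF 0 false true false .npn 1 2 3 (qsf 536870912 536870912 1610612736 536870912 2) ndF3q1 ndF1q3 pcF2 Cut.none Ext.none)

def k0_pm_123 : ∃ t, chk3 f_pm_123 t 1 1 1 = true :=
  ⟨(a (l 4) (b (l 4) (a (l 4) (a (l 4) (l 17313184))))), by decide +kernel⟩

theorem c_pm_123 : CertF 536870912 536870912 1610612736 536870912 134217728 67108864 false true false .npn 1 2 3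
    ndF3q1 ndF1q3 pcF2 Cut.none Ext.none :=
  certF0 (fam := false) (s1 := true) (s2 := false) (a := 1) (b := 2) (c := 3) (cn := .npn) (n1 := ndF3q1) (n2 := ndF1q3) (pc := pcF2) (cut := Cut.none) (xt := Ext.none) (P1 := 536870912) (W1 := 536870912) (P2 := 1610612736) (W2 := 536870912) (P3 := 134217728) (W3 := 67108864)
    rfl k0_pm_123

noncomputable def f_pm_133 : ℕ → ℕ → ℕ → ℕ → Bool := onCell 536870912 536870912 1610612736 536870912 134217728 67108864
    (rowF 0 false true false .dn 1 3 3 (qsf 536870912 536870912 1610612736 536870912 3) ndF3q1 ndF1q3 pcF3 Cut.none Ext.none)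

def k0_pm_133 : ∃ t, chk3 f_pm_133 t 1 1 1 = true :=
  ⟨(a (l 4) (l 1)), by decide +kernel⟩

theorem c_pm_133 : CertF 536870912 536870912 1610612736 536870912 134217728 67108864 false true false .dn 1 3 3
    ndF3q1 ndF1q3 pcF3 Cut.none Ext.none :=
  certF0 (fam := false) (s1 := true) (s2 := false) (a := 1) (b := 3) (c := 3) (cn := .dn) (n1 := ndF3q1) (n2 := ndF1q3) (pc := pcF3) (cut := Cut.none) (xt := Ext.none) (P1 := 536870912) (W1 := 536870912) (P2 := 1610612736) (W2 := 536870912) (P3 := 134217728) (W3 := 67108864)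
    rfl k0_pm_133

noncomputable def f_pm_202_a : ℕ → ℕ → ℕ → ℕ → Bool := onCell 1073741824 536870912 0 536870912 134217728 67108864
    (rowF 0 false true false .pp 2 0 2 (qsf 1073741824 536870912 0 536870912 0) ndF3q2 ndF1q2a pcF0 Cut.none Ext.none)

def k0_pm_202_a : ∃ t, chk3 f_pm_202_a t 2 2 1 = true :=
  ⟨(a (b (a (b (l 3) (b (a (a (a (c (l 141901567431) (l 143511939687)) (l 3)) (l 3)) (l 3)) (a (a (b (c (l 16709816) (l 16615928)) (l 16595664)) (c (l 147270072903) (l 148880667543))) (a (c (l 145659405607) (l 146733163431)) (c (l 141901538071) (l 144585635015)))))) (b (l 3) (b (l 3) (a (a (a (l 142975005207) (l 142438128519)) (a (a (l 141364382695) (l 3)) (l 3))) (l 3))))) (a (b (a (l 16643520) (c (l 16607832) (l 16626344))) (a (b (l 16609992) (l 16613088)) (a (l 16630488) (l 16598088)))) (a (a (b (c (l 16554384) (l 16572952)) (b (l 16571872) (l 16576616))) (a (b (b (c (l 123110889991) (l 122574036951)) (l 16626024)) (b (l 16645744) (a (l 16582464) (l 16592040)))) (b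 (b (c (l 124721474871) (l 124184621191)) (l 16617160)) (b (l 16632872) (l 16713424))))) (a (b (a (b (c (l 126332028679) (l 125795181527)) (b (l 16585616) (l 16577920))) (b (c (l 127405738951) (l 126868883799)) (b (l 16557232) (l 16558088)))) (b (a (b (l 16552384) (l 16581488)) (l 16668096)) (a (l 16635536) (l 16668000)))) (b (b (a (c (l 129553238967) (l 130626958343)) (c (l 129553249991) (l 130090078743))) (a (a (l 16556608) (l 16560792)) (c (l 16593600) (l 16573336)))) (b (a (l 16695680) (l 16600160)) (a (l 16700112) (l 16732304)))))))) (b (l 3) (a (a (a (b (b (a (c (l 129016393719) (l 129553220375)) (b (l 3) (c (l 127405809143) (l 128479503895)))) (a (c (l 16620456) (l 16595176)) (b (c (l 16593752) (l 16572392)) (l 16596808)))) (a (b (l 16654688) (l 16764744)) (c (l 16735248) (l 16714616)))) (b (a (b (b (l 3) (c (a (l 144048810679) (l 1)) (l 153175616231))) (b (l 1) (l 1))) (l 1)) (l 1))) (l 1)) (l 1)))), by decide +kernel⟩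

def k1_pm_202_a : ∃ t, chk3 f_pm_202_a t 2 3 1 = true :=
  ⟨(a (b (a (b (a (l 16777336) (b (l 16711368) (a (l 16664968) (l 16739400)))) (a (b (l 16735632) (l 16871448)) (b (l 16861544) (l 17022688)))) (a (a (b (b (l 16665672) (l 16822208)) (l 17168808)) (b (a (b (l 16723232) (l 16881304)) (b (l 16762128) (l 16919344))) (a (l 17330048) (b (l 17076160) (l 1))))) (b (a (a (l 17040384) (l 17071584)) (c (l 17159720) (l 17170224))) (a (b (l 17212080) (l 1)) (l 1))))) (a (b (a (b (l 17034024) (l 17332536)) (b (l 17381608) (a (l 17293544) (l 17343184)))) (a (b (a (l 17306560) (l 17353240)) (l 17448920)) (c (l 17509400) (b (l 17377384) (l 1))))) (a (a (b (b (l 17288928) (l 1)) (l 1)) (l 1)) (l 1)))) (b (l 1) (l 1))), by decide +kernel⟩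

def k2_pm_202_a : ∃ t, chk3 f_pm_202_a t 3 1 1 = true :=
  ⟨(l 1), by decide +kernel⟩

theorem s3_pm_202_a : ∃ t, chk3 f_pm_202_a t 2 1 1 = true := ex3_b k0_pm_202_a k1_pm_202_a

theorem s4_pm_202_a : ∃ t, chk3 f_pm_202_a t 1 1 1 = true := ex3_a s3_pm_202_a k2_pm_202_a

theorem c_pm_202_a : CertF 1073741824 536870912 0 536870912 134217728 67108864 false true false .pp 2 0 2
    ndF3q2 ndF1q2a pcF0 Cut.none Ext.none :=
  certF0 (fam := false) (s1 := true) (s2 := false) (a := 2) (b := 0) (c := 2) (cn := .pp) (n1 := ndF3q2) (n2 := ndF1q2a) (pc := pcF0) (cut := Cut.none) (xt := Ext.none) (P1 := 1073741824) (W1 := 536870912) (P2 := 0) (W2 := 536870912) (P3 := 134217728) (W3 := 67108864)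
    rfl s4_pm_202_a

noncomputable def f_pm_202_b : ℕ → ℕ → ℕ → ℕ → Bool := onCell 1073741824 536870912 0 536870912 134217728 67108864
    (rowF 1 false true false .pp 2 0 2 (qsf 1073741824 536870912 1239849684 370763052 0) ndF3q2 ndF1q2b pcF0 Cut.none Ext.none)

def k0_pm_202_b : ∃ t, chk3 f_pm_202_b t 1 1 1 = true :=
  ⟨(a (b (l 3) (a (b (l 3) (a (l 496238762215) (l 3))) (l 3))) (l 3)), by decide +kernel⟩

theorem c_pm_202_b : CertF 1073741824 536870912 1239849684 370763052 134217728 67108864 false true false .pp 2 0 2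
    ndF3q2 ndF1q2b pcF0 Cut.none Ext.none :=
  certF1 (fam := false) (s1 := true) (s2 := false) (a := 2) (b := 0) (c := 2) (cn := .pp) (n1 := ndF3q2) (n2 := ndF1q2b) (pc := pcF0) (cut := Cut.none) (xt := Ext.none) (P1 := 1073741824) (W1 := 536870912) (P2 := 1239849684) (W2 := 370763052) (P3 := 134217728) (W3 := 67108864)
    rfl (fun _ => rfl) k0_pm_202_b

noncomputable def f_pm_203 : ℕ → ℕ → ℕ → ℕ → Bool := onCell 1073741824 536870912 0 536870912 134217728 67108864
    (rowF 1 false true false .up 2 0 3 (qsf 1073741824 536870912 1610612736 536870912 0) ndF3q2 ndF1q3 pcF0 Cut.none Ext.none)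

def k0_pm_203 : ∃ t, chk3 f_pm_203 t 1 1 1 = true :=
  ⟨(a (b (l 3) (a (b (l 3) (a (l 155191854199) (l 3))) (l 3))) (l 3)), by decide +kernel⟩

theorem c_pm_203 : CertF 1073741824 536870912 1610612736 536870912 134217728 67108864 false true false .up 2 0 3
    ndF3q2 ndF1q3 pcF0 Cut.none Ext.none :=
  certF1 (fam := false) (s1 := true) (s2 := false) (a := 2) (b := 0) (c := 3) (cn := .up) (n1 := ndF3q2) (n2 := ndF1q3) (pc := pcF0) (cut := Cut.none) (xt := Ext.none) (P1 := 1073741824) (W1 := 536870912) (P2 := 1610612736) (W2 := 536870912) (P3 := 134217728) (W3 := 67108864)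
    rfl (fun _ => rfl) k0_pm_203

noncomputable def f_pm_213 : ℕ → ℕ → ℕ → ℕ → Bool := onCell 1073741824 536870912 1610612736 536870912 134217728 67108864
    (rowF 0 false true false .pnn 2 1 3 (qsf 1073741824 536870912 1610612736 536870912 1) ndF3q2 ndF1q3 pcF1 Cut.none Ext.none)

def k0_pm_213 : ∃ t, chk3 f_pm_213 t 1 1 1 = true :=
  ⟨(a (b (a (b (a (b (a (l 17743184) (l 3)) (l 17820296)) (l 3)) (a (b (l 17558280) (l 17447824)) (a (a (l 17582672) (l 262162970103)) (l 3)))) (l 3)) (a (b (a (b (l 17288632) (l 17157072)) (a (a (l 17304808) (l 17451200)) (a (l 17339872) (l 17354584)))) (a (b (l 17040256) (l 16942536)) (a (a (l 17049176) (l 17058144)) (a (l 17064264) (l 17073272))))) (a (b (b (l 3) (l 3)) (a (a (l 17081472) (l 17200712)) (l 3))) (l 3)))) (l 3)), by decide +kernel⟩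

theorem c_pm_213 : CertF 1073741824 536870912 1610612736 536870912 134217728 67108864 false true false .pnn 2 1 3
    ndF3q2 ndF1q3 pcF1 Cut.none Ext.none :=
  certF0 (fam := false) (s1 := true) (s2 := false) (a := 2) (b := 1) (c := 3) (cn := .pnn) (n1 := ndF3q2) (n2 := ndF1q3) (pc := pcF1) (cut := Cut.none) (xt := Ext.none) (P1 := 1073741824) (W1 := 536870912) (P2 := 1610612736) (W2 := 536870912) (P3 := 134217728) (W3 := 67108864)
    rfl k0_pm_213

noncomputable def f_pm_303 : ℕ → ℕ → ℕ → ℕ → Bool := onCell 0 1230186008 1610612736 536870912 134217728 67108864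
    (rowF 0 false true false .npn 3 0 3 (qsf 0 1230186008 1610612736 536870912 0) ndF3q3 ndF1q3 pcF0 Cut.none Ext.none)

def k0_pm_303 : ∃ t, chk3 f_pm_303 t 1 1 1 = true :=
  ⟨(a (l 3) (l 3)), by decide +kernel⟩

theorem c_pm_303 : CertF 0 1230186008 1610612736 536870912 134217728 67108864 false true false .npn 3 0 3
    ndF3q3 ndF1q3 pcF0 Cut.none Ext.none :=
  certF0 (fam := false) (s1 := true) (s2 := false) (a := 3) (b := 0) (c := 3) (cn := .npn) (n1 := ndF3q3) (n2 := ndF1q3) (pc := pcF0) (cut := Cut.none) (xt := Ext.none) (P1 := 0) (W1 := 1230186008) (P2 := 1610612736) (W2 := 536870912) (P3 := 134217728) (W3 := 67108864)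
    rfl k0_pm_303

noncomputable def f_pm_313 : ℕ → ℕ → ℕ → ℕ → Bool := onCell 0 1230186008 1610612736 536870912 134217728 67108864
    (rowF 0 false true false .dn 3 1 3 (qsf 0 1230186008 1610612736 536870912 1) ndF3q3 ndF1q3 pcF1 Cut.none Ext.none)

def k0_pm_313 : ∃ t, chk3 f_pm_313 t 1 1 1 = true :=
  ⟨(a (l 1) (l 3)), by decide +kernel⟩

theorem c_pm_313 : CertF 0 1230186008 1610612736 536870912 134217728 67108864 false true false .dn 3 1 3
    ndF3q3 ndF1q3 pcF1 Cut.none Ext.none :=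
  certF0 (fam := false) (s1 := true) (s2 := false) (a := 3) (b := 1) (c := 3) (cn := .dn) (n1 := ndF3q3) (n2 := ndF1q3) (pc := pcF1) (cut := Cut.none) (xt := Ext.none) (P1 := 0) (W1 := 1230186008) (P2 := 1610612736) (W2 := 536870912) (P3 := 134217728) (W3 := 67108864)
    rfl k0_pm_313

noncomputable def f_mm_001 : ℕ → ℕ → ℕ → ℕ → Bool := onCell 0 536870912 536870912 536870912 134217728 67108864
    (rowF 0 false false false .up 0 0 1 (qsf 0 536870912 536870912 536870912 0) ndF3q0 ndF1q1 pcF0 Cut.none Ext.none)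

def k0_mm_001 : ∃ t, chk3 f_mm_001 t 1 1 1 = true :=
  ⟨(l 3), by decide +kernel⟩

theorem c_mm_001 : CertF 0 536870912 536870912 536870912 134217728 67108864 false false false .up 0 0 1
    ndF3q0 ndF1q1 pcF0 Cut.none Ext.none :=
  certF0 (fam := false) (s1 := false) (s2 := false) (a := 0) (b := 0) (c := 1) (cn := .up) (n1 := ndF3q0) (n2 := ndF1q1) (pc := pcF0) (cut := Cut.none) (xt := Ext.none) (P1 := 0) (W1 := 536870912) (P2 := 536870912) (W2 := 536870912) (P3 := 134217728) (W3 := 67108864)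
    rfl k0_mm_001

noncomputable def f_mm_011 : ℕ → ℕ → ℕ → ℕ → Bool := onCell 0 536870912 536870912 536870912 134217728 67108864
    (rowF 0 false false false .pnn 0 1 1 (qsf 0 536870912 536870912 536870912 1) ndF3q0 ndF1q1 pcF1 Cut.none Ext.none)

def k0_mm_011 : ∃ t, chk3 f_mm_011 t 1 1 1 = true :=
  ⟨(l 3), by decide +kernel⟩

theorem c_mm_011 : CertF 0 536870912 536870912 536870912 134217728 67108864 false false false .pnn 0 1 1
    ndF3q0 ndF1q1 pcF1 Cut.none Ext.none :=
  certF0 (fam := false) (s1 := false) (s2 := false) (a := 0) (b := 1) (c := 1) (cn := .pnn) (n1 := ndF3q0) (n2 := ndF1q1) (pc := pcF1) (cut := Cut.none) (xt := Ext.none) (P1 := 0) (W1 := 536870912) (P2 := 536870912) (W2 := 536870912) (P3 := 134217728) (W3 := 67108864)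
    rfl k0_mm_011

noncomputable def f_mm_012_a : ℕ → ℕ → ℕ → ℕ → Bool := onCell 0 536870912 0 536870912 134217728 67108864
    (rowF 0 false false false .pnp 0 1 2 (qsf 0 536870912 0 536870912 1) ndF3q0 ndF1q2a pcF1 Cut.none Ext.none)

def k0_mm_012_a : ∃ t, chk3 f_mm_012_a t 1 1 1 = true :=
  ⟨(l 5), by decide +kernel⟩

theorem c_mm_012_a : CertF 0 536870912 0 536870912 134217728 67108864 false false false .pnp 0 1 2
    ndF3q0 ndF1q2a pcF1 Cut.none Ext.none :=
  certF0 (fam := false) (s1 := false) (s2 := false) (a := 0) (b := 1) (c := 2) (cn := .pnp) (n1 := ndF3q0) (n2 := ndF1q2a) (pc := pcF1) (cut := Cut.none) (xt := Ext.none) (P1 := 0) (W1 := 536870912) (P2 := 0) (W2 := 536870912) (P3 := 134217728) (W3 := 67108864)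
    rfl k0_mm_012_a

noncomputable def f_mm_012_b : ℕ → ℕ → ℕ → ℕ → Bool := onCell 0 536870912 1239849684 370763052 134217728 67108864
    (rowF 0 false false false .pnp 0 1 2 (qsf 0 536870912 1239849684 370763052 1) ndF3q0 ndF1q2b pcF1 Cut.none Ext.none)

def k0_mm_012_b : ∃ t, chk3 f_mm_012_b t 1 1 1 = true :=
  ⟨(l 5), by decide +kernel⟩

theorem c_mm_012_b : CertF 0 536870912 1239849684 370763052 134217728 67108864 false false false .pnp 0 1 2
    ndF3q0 ndF1q2b pcF1 Cut.none Ext.none :=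
  certF0 (fam := false) (s1 := false) (s2 := false) (a := 0) (b := 1) (c := 2) (cn := .pnp) (n1 := ndF3q0) (n2 := ndF1q2b) (pc := pcF1) (cut := Cut.none) (xt := Ext.none) (P1 := 0) (W1 := 536870912) (P2 := 1239849684) (W2 := 370763052) (P3 := 134217728) (W3 := 67108864)
    rfl k0_mm_012_b

noncomputable def f_mm_022_a : ℕ → ℕ → ℕ → ℕ → Bool := onCell 0 536870912 0 536870912 134217728 67108864
    (rowF 0 false false false .pp 0 2 2 (qsf 0 536870912 0 536870912 2) ndF3q0 ndF1q2a pcF2 Cut.none Ext.none)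

def k0_mm_022_a : ∃ t, chk3 f_mm_022_a t 1 1 1 = true :=
  ⟨(l 5), by decide +kernel⟩

theorem c_mm_022_a : CertF 0 536870912 0 536870912 134217728 67108864 false false false .pp 0 2 2
    ndF3q0 ndF1q2a pcF2 Cut.none Ext.none :=
  certF0 (fam := false) (s1 := false) (s2 := false) (a := 0) (b := 2) (c := 2) (cn := .pp) (n1 := ndF3q0) (n2 := ndF1q2a) (pc := pcF2) (cut := Cut.none) (xt := Ext.none) (P1 := 0) (W1 := 536870912) (P2 := 0) (W2 := 536870912) (P3 := 134217728) (W3 := 67108864)
    rfl k0_mm_022_a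

noncomputable def f_mm_022_b : ℕ → ℕ → ℕ → ℕ → Bool := onCell 0 536870912 1239849684 370763052 134217728 67108864
    (rowF 0 false false false .pp 0 2 2 (qsf 0 536870912 1239849684 370763052 2) ndF3q0 ndF1q2b pcF2 Cut.none Ext.none)

def k0_mm_022_b : ∃ t, chk3 f_mm_022_b t 1 1 1 = true :=
  ⟨(l 5), by decide +kernel⟩

theorem c_mm_022_b : CertF 0 536870912 1239849684 370763052 134217728 67108864 false false false .pp 0 2 2
    ndF3q0 ndF1q2b pcF2 Cut.none Ext.none :=
  certF0 (fam := false) (s1 := false) (s2 := false) (a := 0) (b := 2) (c := 2) (cn := .pp) (n1 := ndF3q0) (n2 := ndF1q2b) (pc := pcF2) (cut := Cut.none) (xt := Ext.none) (P1 := 0) (W1 := 536870912) (P2 := 1239849684) (W2 := 370763052) (P3 := 134217728) (W3 := 67108864)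
    rfl k0_mm_022_b

noncomputable def f_mm_023 : ℕ → ℕ → ℕ → ℕ → Bool := onCell 0 536870912 1610612736 536870912 134217728 67108864
    (rowF 0 false false false .up 0 2 3 (qsf 0 536870912 1610612736 536870912 2) ndF3q0 ndF1q3 pcF2 Cut.none Ext.none)

def k0_mm_023 : ∃ t, chk3 f_mm_023 t 1 1 1 = true :=
  ⟨(l 5), by decide +kernel⟩

theorem c_mm_023 : CertF 0 536870912 1610612736 536870912 134217728 67108864 false false false .up 0 2 3
    ndF3q0 ndF1q3 pcF2 Cut.none Ext.none :=
  certF0 (fam := false) (s1 := false) (s2 := false) (a := 0) (b := 2) (c := 3) (cn := .up) (n1 := ndF3q0) (n2 := ndF1q3) (pc := pcF2) (cut := Cut.none) (xt := Ext.none) (P1 := 0) (W1 := 536870912) (P2 := 1610612736) (W2 := 536870912) (P3 := 134217728) (W3 := 67108864)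
    rfl k0_mm_023

noncomputable def f_mm_033 : ℕ → ℕ → ℕ → ℕ → Bool := onCell 0 536870912 1610612736 536870912 134217728 67108864
    (rowF 0 false false false .pnn 0 3 3 (qsf 0 536870912 1610612736 536870912 3) ndF3q0 ndF1q3 pcF3 Cut.none Ext.none)

def k0_mm_033 : ∃ t, chk3 f_mm_033 t 1 1 1 = true :=
  ⟨(l 5), by decide +kernel⟩

theorem c_mm_033 : CertF 0 536870912 1610612736 536870912 134217728 67108864 false false false .pnn 0 3 3
    ndF3q0 ndF1q3 pcF3 Cut.none Ext.none :=
  certF0 (fam := false) (s1 := false) (s2 := false) (a := 0) (b := 3) (c := 3) (cn := .pnn) (n1 := ndF3q0) (n2 := ndF1q3) (pc := pcF3) (cut := Cut.none) (xt := Ext.none) (P1 := 0) (W1 := 536870912) (P2 := 1610612736) (W2 := 536870912) (P3 := 134217728) (W3 := 67108864)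
    rfl k0_mm_033

noncomputable def f_mm_101 : ℕ → ℕ → ℕ → ℕ → Bool := onCell 536870912 536870912 536870912 536870912 134217728 67108864
    (rowF 0 false false false .npn 1 0 1 (qsf 536870912 536870912 536870912 536870912 0) ndF3q1 ndF1q1 pcF0 Cut.none Ext.none)

def k0_mm_101 : ∃ t, chk3 f_mm_101 t 1 1 1 = true :=
  ⟨(l 3), by decide +kernel⟩

theorem c_mm_101 : CertF 536870912 536870912 536870912 536870912 134217728 67108864 false false false .npn 1 0 1
    ndF3q1 ndF1q1 pcF0 Cut.none Ext.none :=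
  certF0 (fam := false) (s1 := false) (s2 := false) (a := 1) (b := 0) (c := 1) (cn := .npn) (n1 := ndF3q1) (n2 := ndF1q1) (pc := pcF0) (cut := Cut.none) (xt := Ext.none) (P1 := 536870912) (W1 := 536870912) (P2 := 536870912) (W2 := 536870912) (P3 := 134217728) (W3 := 67108864)
    rfl k0_mm_101

noncomputable def f_mm_102_a : ℕ → ℕ → ℕ → ℕ → Bool := onCell 536870912 536870912 0 536870912 134217728 67108864
    (rowF 0 false false false .npp 1 0 2 (qsf 536870912 536870912 0 536870912 0) ndF3q1 ndF1q2a pcF0 Cut.none Ext.none)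

def k0_mm_102_a : ∃ t, chk3 f_mm_102_a t 1 1 1 = true :=
  ⟨(l 5), by decide +kernel⟩

theorem c_mm_102_a : CertF 536870912 536870912 0 536870912 134217728 67108864 false false false .npp 1 0 2
    ndF3q1 ndF1q2a pcF0 Cut.none Ext.none :=
  certF0 (fam := false) (s1 := false) (s2 := false) (a := 1) (b := 0) (c := 2) (cn := .npp) (n1 := ndF3q1) (n2 := ndF1q2a) (pc := pcF0) (cut := Cut.none) (xt := Ext.none) (P1 := 536870912) (W1 := 536870912) (P2 := 0) (W2 := 536870912) (P3 := 134217728) (W3 := 67108864)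
    rfl k0_mm_102_a

noncomputable def f_mm_102_b : ℕ → ℕ → ℕ → ℕ → Bool := onCell 536870912 536870912 1239849684 370763052 134217728 67108864
    (rowF 0 false false false .npp 1 0 2 (qsf 536870912 536870912 1239849684 370763052 0) ndF3q1 ndF1q2b pcF0 Cut.none Ext.none)

def k0_mm_102_b : ∃ t, chk3 f_mm_102_b t 1 1 1 = true :=
  ⟨(l 5), by decide +kernel⟩

theorem c_mm_102_b : CertF 536870912 536870912 1239849684 370763052 134217728 67108864 false false false .npp 1 0 2
    ndF3q1 ndF1q2b pcF0 Cut.none Ext.none :=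
  certF0 (fam := false) (s1 := false) (s2 := false) (a := 1) (b := 0) (c := 2) (cn := .npp) (n1 := ndF3q1) (n2 := ndF1q2b) (pc := pcF0) (cut := Cut.none) (xt := Ext.none) (P1 := 536870912) (W1 := 536870912) (P2 := 1239849684) (W2 := 370763052) (P3 := 134217728) (W3 := 67108864)
    rfl k0_mm_102_b

noncomputable def f_mm_112_a : ℕ → ℕ → ℕ → ℕ → Bool := onCell 536870912 536870912 0 536870912 134217728 67108864
    (rowF 0 false false false .dn 1 1 2 (qsf 536870912 536870912 0 536870912 1) ndF3q1 ndF1q2a pcF1 Cut.none Ext.none)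

def k0_mm_112_a : ∃ t, chk3 f_mm_112_a t 1 1 1 = true :=
  ⟨(l 5), by decide +kernel⟩

theorem c_mm_112_a : CertF 536870912 536870912 0 536870912 134217728 67108864 false false false .dn 1 1 2
    ndF3q1 ndF1q2a pcF1 Cut.none Ext.none :=
  certF0 (fam := false) (s1 := false) (s2 := false) (a := 1) (b := 1) (c := 2) (cn := .dn) (n1 := ndF3q1) (n2 := ndF1q2a) (pc := pcF1) (cut := Cut.none) (xt := Ext.none) (P1 := 536870912) (W1 := 536870912) (P2 := 0) (W2 := 536870912) (P3 := 134217728) (W3 := 67108864)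
    rfl k0_mm_112_a

noncomputable def f_mm_112_b : ℕ → ℕ → ℕ → ℕ → Bool := onCell 536870912 536870912 1239849684 370763052 134217728 67108864
    (rowF 0 false false false .dn 1 1 2 (qsf 536870912 536870912 1239849684 370763052 1) ndF3q1 ndF1q2b pcF1 Cut.none Ext.none)

def k0_mm_112_b : ∃ t, chk3 f_mm_112_b t 1 1 1 = true :=
  ⟨(l 5), by decide +kernel⟩

theorem c_mm_112_b : CertF 536870912 536870912 1239849684 370763052 134217728 67108864 false false false .dn 1 1 2
    ndF3q1 ndF1q2b pcF1 Cut.none Ext.none :=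
  certF0 (fam := false) (s1 := false) (s2 := false) (a := 1) (b := 1) (c := 2) (cn := .dn) (n1 := ndF3q1) (n2 := ndF1q2b) (pc := pcF1) (cut := Cut.none) (xt := Ext.none) (P1 := 536870912) (W1 := 536870912) (P2 := 1239849684) (W2 := 370763052) (P3 := 134217728) (W3 := 67108864)
    rfl k0_mm_112_b

noncomputable def f_mm_113 : ℕ → ℕ → ℕ → ℕ → Bool := onCell 536870912 536870912 1610612736 536870912 134217728 67108864
    (rowF 0 false false false .nn 1 1 3 (qsf 536870912 536870912 1610612736 536870912 1) ndF3q1 ndF1q3 pcF1 Cut.none Ext.none)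

def k0_mm_113 : ∃ t, chk3 f_mm_113 t 1 1 1 = true :=
  ⟨(l 5), by decide +kernel⟩

theorem c_mm_113 : CertF 536870912 536870912 1610612736 536870912 134217728 67108864 false false false .nn 1 1 3
    ndF3q1 ndF1q3 pcF1 Cut.none Ext.none :=
  certF0 (fam := false) (s1 := false) (s2 := false) (a := 1) (b := 1) (c := 3) (cn := .nn) (n1 := ndF3q1) (n2 := ndF1q3) (pc := pcF1) (cut := Cut.none) (xt := Ext.none) (P1 := 536870912) (W1 := 536870912) (P2 := 1610612736) (W2 := 536870912) (P3 := 134217728) (W3 := 67108864)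
    rfl k0_mm_113

noncomputable def f_mm_123 : ℕ → ℕ → ℕ → ℕ → Bool := onCell 536870912 536870912 1610612736 536870912 134217728 67108864
    (rowF 0 false false false .npn 1 2 3 (qsf 536870912 536870912 1610612736 536870912 2) ndF3q1 ndF1q3 pcF2 Cut.none Ext.none)

def k0_mm_123 : ∃ t, chk3 f_mm_123 t 1 1 1 = true :=
  ⟨(l 5), by decide +kernel⟩

theorem c_mm_123 : CertF 536870912 536870912 1610612736 536870912 134217728 67108864 false false false .npn 1 2 3
    ndF3q1 ndF1q3 pcF2 Cut.none Ext.none :=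
  certF0 (fam := false) (s1 := false) (s2 := false) (a := 1) (b := 2) (c := 3) (cn := .npn) (n1 := ndF3q1) (n2 := ndF1q3) (pc := pcF2) (cut := Cut.none) (xt := Ext.none) (P1 := 536870912) (W1 := 536870912) (P2 := 1610612736) (W2 := 536870912) (P3 := 134217728) (W3 := 67108864)
    rfl k0_mm_123

noncomputable def f_mm_133 : ℕ → ℕ → ℕ → ℕ → Bool := onCell 536870912 536870912 1610612736 536870912 134217728 67108864
    (rowF 0 false false false .dn 1 3 3 (qsf 536870912 536870912 1610612736 536870912 3) ndF3q1 ndF1q3 pcF3 Cut.none Ext.none)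

def k0_mm_133 : ∃ t, chk3 f_mm_133 t 1 1 1 = true :=
  ⟨(l 5), by decide +kernel⟩

theorem c_mm_133 : CertF 536870912 536870912 1610612736 536870912 134217728 67108864 false false false .dn 1 3 3
    ndF3q1 ndF1q3 pcF3 Cut.none Ext.none :=
  certF0 (fam := false) (s1 := false) (s2 := false) (a := 1) (b := 3) (c := 3) (cn := .dn) (n1 := ndF3q1) (n2 := ndF1q3) (pc := pcF3) (cut := Cut.none) (xt := Ext.none) (P1 := 536870912) (W1 := 536870912) (P2 := 1610612736) (W2 := 536870912) (P3 := 134217728) (W3 := 67108864)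
    rfl k0_mm_133

noncomputable def f_mm_202_a : ℕ → ℕ → ℕ → ℕ → Bool := onCell 1073741824 536870912 0 536870912 134217728 67108864
    (rowF 0 false false false .pp 2 0 2 (qsf 1073741824 536870912 0 536870912 0) ndF3q2 ndF1q2a pcF0 Cut.none Ext.none)

def k0_mm_202_a : ∃ t, chk3 f_mm_202_a t 1 1 1 = true :=
  ⟨(l 3), by decide +kernel⟩

theorem c_mm_202_a : CertF 1073741824 536870912 0 536870912 134217728 67108864 false false false .pp 2 0 2
    ndF3q2 ndF1q2a pcF0 Cut.none Ext.none :=
  certF0 (fam := false) (s1 := false) (s2 := false) (a := 2) (b := 0) (c := 2) (cn := .pp) (n1 := ndF3q2) (n2 := ndF1q2a) (pc := pcF0) (cut := Cut.none) (xt := Ext.none) (P1 := 1073741824) (W1 := 536870912) (P2 := 0) (W2 := 536870912) (P3 := 134217728) (W3 := 67108864)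
    rfl k0_mm_202_a

noncomputable def f_mm_202_b : ℕ → ℕ → ℕ → ℕ → Bool := onCell 1073741824 536870912 1239849684 370763052 134217728 67108864
    (rowF 0 false false false .pp 2 0 2 (qsf 1073741824 536870912 1239849684 370763052 0) ndF3q2 ndF1q2b pcF0 Cut.none Ext.none)

def k0_mm_202_b : ∃ t, chk3 f_mm_202_b t 1 1 1 = true :=
  ⟨(l 3), by decide +kernel⟩

theorem c_mm_202_b : CertF 1073741824 536870912 1239849684 370763052 134217728 67108864 false false false .pp 2 0 2
    ndF3q2 ndF1q2b pcF0 Cut.none Ext.none :=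
  certF0 (fam := false) (s1 := false) (s2 := false) (a := 2) (b := 0) (c := 2) (cn := .pp) (n1 := ndF3q2) (n2 := ndF1q2b) (pc := pcF0) (cut := Cut.none) (xt := Ext.none) (P1 := 1073741824) (W1 := 536870912) (P2 := 1239849684) (W2 := 370763052) (P3 := 134217728) (W3 := 67108864)
    rfl k0_mm_202_b

noncomputable def f_mm_203 : ℕ → ℕ → ℕ → ℕ → Bool := onCell 1073741824 536870912 1610612736 536870912 134217728 67108864
    (rowF 0 false false false .up 2 0 3 (qsf 1073741824 536870912 1610612736 536870912 0) ndF3q2 ndF1q3 pcF0 Cut.none Ext.none)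

def k0_mm_203 : ∃ t, chk3 f_mm_203 t 1 1 1 = true :=
  ⟨(l 5), by decide +kernel⟩

theorem c_mm_203 : CertF 1073741824 536870912 1610612736 536870912 134217728 67108864 false false false .up 2 0 3
    ndF3q2 ndF1q3 pcF0 Cut.none Ext.none :=
  certF0 (fam := false) (s1 := false) (s2 := false) (a := 2) (b := 0) (c := 3) (cn := .up) (n1 := ndF3q2) (n2 := ndF1q3) (pc := pcF0) (cut := Cut.none) (xt := Ext.none) (P1 := 1073741824) (W1 := 536870912) (P2 := 1610612736) (W2 := 536870912) (P3 := 134217728) (W3 := 67108864)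
    rfl k0_mm_203

noncomputable def f_mm_213 : ℕ → ℕ → ℕ → ℕ → Bool := onCell 1073741824 536870912 1610612736 536870912 134217728 67108864
    (rowF 0 false false false .pnn 2 1 3 (qsf 1073741824 536870912 1610612736 536870912 1) ndF3q2 ndF1q3 pcF1 Cut.none Ext.none)

def k0_mm_213 : ∃ t, chk3 f_mm_213 t 1 1 1 = true :=
  ⟨(l 5), by decide +kernel⟩

theorem c_mm_213 : CertF 1073741824 536870912 1610612736 536870912 134217728 67108864 false false false .pnn 2 1 3
    ndF3q2 ndF1q3 pcF1 Cut.none Ext.none :=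
  certF0 (fam := false) (s1 := false) (s2 := false) (a := 2) (b := 1) (c := 3) (cn := .pnn) (n1 := ndF3q2) (n2 := ndF1q3) (pc := pcF1) (cut := Cut.none) (xt := Ext.none) (P1 := 1073741824) (W1 := 536870912) (P2 := 1610612736) (W2 := 536870912) (P3 := 134217728) (W3 := 67108864)
    rfl k0_mm_213

noncomputable def f_mm_303 : ℕ → ℕ → ℕ → ℕ → Bool := onCell 0 1230186008 1610612736 536870912 134217728 67108864
    (rowF 0 false false false .npn 3 0 3 (qsf 0 1230186008 1610612736 536870912 0) ndF3q3 ndF1q3 pcF0 Cut.none Ext.none)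

def k0_mm_303 : ∃ t, chk3 f_mm_303 t 1 1 1 = true :=
  ⟨(a (l 3) (l 3)), by decide +kernel⟩

theorem c_mm_303 : CertF 0 1230186008 1610612736 536870912 134217728 67108864 false false false .npn 3 0 3
    ndF3q3 ndF1q3 pcF0 Cut.none Ext.none :=
  certF0 (fam := false) (s1 := false) (s2 := false) (a := 3) (b := 0) (c := 3) (cn := .npn) (n1 := ndF3q3) (n2 := ndF1q3) (pc := pcF0) (cut := Cut.none) (xt := Ext.none) (P1 := 0) (W1 := 1230186008) (P2 := 1610612736) (W2 := 536870912) (P3 := 134217728) (W3 := 67108864)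
    rfl k0_mm_303

noncomputable def f_mm_313 : ℕ → ℕ → ℕ → ℕ → Bool := onCell 0 1230186008 1610612736 536870912 134217728 67108864
    (rowF 0 false false false .dn 3 1 3 (qsf 0 1230186008 1610612736 536870912 1) ndF3q3 ndF1q3 pcF1 Cut.none Ext.none)

def k0_mm_313 : ∃ t, chk3 f_mm_313 t 1 1 1 = true :=
  ⟨(a (l 1) (l 3)), by decide +kernel⟩

theorem c_mm_313 : CertF 0 1230186008 1610612736 536870912 134217728 67108864 false false false .dn 3 1 3
    ndF3q3 ndF1q3 pcF1 Cut.none Ext.none :=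
  certF0 (fam := false) (s1 := false) (s2 := false) (a := 3) (b := 1) (c := 3) (cn := .dn) (n1 := ndF3q3) (n2 := ndF1q3) (pc := pcF1) (cut := Cut.none) (xt := Ext.none) (P1 := 0) (W1 := 1230186008) (P2 := 1610612736) (W2 := 536870912) (P3 := 134217728) (W3 := 67108864)
    rfl k0_mm_313

end Pool.Agent.Strip051.G.I1_8_3_16.Tab.C.FB31

namespace Pool.Agent.Strip051.G.I1_8_3_16.Tab.C.FB32

open Pool.Agent.Strip051.PB Pool.Agent.Strip051.PB.T
open Pool.Agent.Strip051.G.I1_8_3_16.Tab

noncomputable def f_pp_001 : ℕ → ℕ → ℕ → ℕ → Bool := onCell 0 536870912 536870912 536870912 134217728 67108864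
    (rowF 0 false true true .up 0 0 1 (qsf 0 536870912 536870912 536870912 0) ndF3q0 ndF2q1 pcF0 Cut.none Ext.none)

def k0_pp_001 : ∃ t, chk3 f_pp_001 t 1 1 1 = true :=
  ⟨(l 3), by decide +kernel⟩

theorem c_pp_001 : CertF 0 536870912 536870912 536870912 134217728 67108864 false true true .up 0 0 1
    ndF3q0 ndF2q1 pcF0 Cut.none Ext.none :=
  certF0 (fam := false) (s1 := true) (s2 := true) (a := 0) (b := 0) (c := 1) (cn := .up) (n1 := ndF3q0) (n2 := ndF2q1) (pc := pcF0) (cut := Cut.none) (xt := Ext.none) (P1 := 0) (W1 := 536870912) (P2 := 536870912) (W2 := 536870912) (P3 := 134217728) (W3 := 67108864)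
    rfl k0_pp_001

noncomputable def f_pp_011 : ℕ → ℕ → ℕ → ℕ → Bool := onCell 0 536870912 536870912 536870912 134217728 67108864
    (rowF 0 false true true .pnn 0 1 1 (qsf 0 536870912 536870912 536870912 1) ndF3q0 ndF2q1 pcF1 Cut.none Ext.none)

def k0_pp_011 : ∃ t, chk3 f_pp_011 t 1 1 1 = true :=
  ⟨(l 3), by decide +kernel⟩

theorem c_pp_011 : CertF 0 536870912 536870912 536870912 134217728 67108864 false true true .pnn 0 1 1
    ndF3q0 ndF2q1 pcF1 Cut.none Ext.none :=
  certF0 (fam := false) (s1 := true) (s2 := true) (a := 0) (b := 1) (c := 1) (cn := .pnn) (n1 := ndF3q0) (n2 := ndF2q1) (pc := pcF1) (cut := Cut.none) (xt := Ext.none) (P1 := 0) (W1 := 536870912) (P2 := 536870912) (W2 := 536870912) (P3 := 134217728) (W3 := 67108864)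
    rfl k0_pp_011

noncomputable def f_pp_012_a : ℕ → ℕ → ℕ → ℕ → Bool := onCell 536870912 536870912 0 536870912 134217728 67108864
    (rowF 2 false true true .pnp 0 1 2 (qsf 0 536870912 0 536870912 1) ndF3q0 ndF2q2a pcF1 Cut.none Ext.none)

def k0_pp_012_a : ∃ t, chk3 f_pp_012_a t 1 1 1 = true :=
  ⟨(a (a (b (l 17180288) (a (l 17567072) (l 17242904))) (b (l 16950832) (b (l 17015928) (l 17269760)))) (a (b (l 16924632) (b (l 17008704) (l 17325872))) (b (l 17265016) (b (a (l 17054152) (l 17134864)) (a (b (l 17113792) (l 17186024)) (b (l 17146648) (a (l 17207760) (l 17219568)))))))), by decide +kernel⟩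

theorem c_pp_012_a : CertF 0 536870912 0 536870912 134217728 67108864 false true true .pnp 0 1 2
    ndF3q0 ndF2q2a pcF1 Cut.none Ext.none :=
  certF2 (fam := false) (s1 := true) (s2 := true) (a := 0) (b := 1) (c := 2) (cn := .pnp) (n1 := ndF3q0) (n2 := ndF2q2a) (pc := pcF1) (cut := Cut.none) (xt := Ext.none) (P1 := 0) (W1 := 536870912) (P2 := 0) (W2 := 536870912) (P3 := 134217728) (W3 := 67108864)
    rfl (fun _ => rfl) k0_pp_012_a

noncomputable def f_pp_012_b : ℕ → ℕ → ℕ → ℕ → Bool := onCell 536870912 536870912 1239849684 370763052 134217728 67108864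
    (rowF 2 false true true .pnp 0 1 2 (qsf 0 536870912 1239849684 370763052 1) ndF3q0 ndF2q2b pcF1 Cut.none Ext.none)

def k0_pp_012_b : ∃ t, chk3 f_pp_012_b t 1 1 1 = true :=
  ⟨(a (a (l 2) (b (l 16820632) (l 2))) (a (b (l 17007296) (l 17302288)) (b (b (l 17214608) (l 17424112)) (l 17682416)))), by decide +kernel⟩

theorem c_pp_012_b : CertF 0 536870912 1239849684 370763052 134217728 67108864 false true true .pnp 0 1 2
    ndF3q0 ndF2q2b pcF1 Cut.none Ext.none :=
  certF2 (fam := false) (s1 := true) (s2 := true) (a := 0) (b := 1) (c := 2) (cn := .pnp) (n1 := ndF3q0) (n2 := ndF2q2b) (pc := pcF1) (cut := Cut.none) (xt := Ext.none) (P1 := 0) (W1 := 536870912) (P2 := 1239849684) (W2 := 370763052) (P3 := 134217728) (W3 := 67108864)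
    rfl (fun _ => rfl) k0_pp_012_b

noncomputable def f_pp_022_a : ℕ → ℕ → ℕ → ℕ → Bool := onCell 1073741824 536870912 0 536870912 134217728 67108864
    (rowF 2 false true true .pp 0 2 2 (qsf 0 536870912 0 536870912 2) ndF3q0 ndF2q2a pcF2 Cut.none Ext.none)

def k0_pp_022_a : ∃ t, chk3 f_pp_022_a t 1 1 1 = true :=
  ⟨(a (b (a (a (l 17244104) (a (a (l 17244408) (l 17232784)) (a (l 17216552) (l 17201144)))) (a (a (a (l 17180392) (b (l 17178568) (l 423089134839))) (l 446711318039)) (l 1))) (a (b (a (a (l 17275608) (l 17275688)) (a (a (l 17278672) (a (l 17276072) (l 17271400))) (a (l 417720557015) (b (l 17219920) (l 1))))) (a (a (b (l 17296472) (b (l 17310112) (l 146063484455))) (b (b (l 17292296) (l 138010416423)) (a (l 389266027847) (l 1)))) (a (a (b (l 391950368039) (l 1)) (l 1)) (l 1)))) (b (l 1) (l 1)))) (l 1)), by decide +kernel⟩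

theorem c_pp_022_a : CertF 0 536870912 0 536870912 134217728 67108864 false true true .pp 0 2 2
    ndF3q0 ndF2q2a pcF2 Cut.none Ext.none :=
  certF2 (fam := false) (s1 := true) (s2 := true) (a := 0) (b := 2) (c := 2) (cn := .pp) (n1 := ndF3q0) (n2 := ndF2q2a) (pc := pcF2) (cut := Cut.none) (xt := Ext.none) (P1 := 0) (W1 := 536870912) (P2 := 0) (W2 := 536870912) (P3 := 134217728) (W3 := 67108864)
    rfl (fun _ => rfl) k0_pp_022_a

noncomputable def f_pp_022_b : ℕ → ℕ → ℕ → ℕ → Bool := onCell 1073741824 536870912 1239849684 370763052 134217728 67108864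
    (rowF 2 false true true .pp 0 2 2 (qsf 0 536870912 1239849684 370763052 2) ndF3q0 ndF2q2b pcF2 Cut.none Ext.none)

def k0_pp_022_b : ∃ t, chk3 f_pp_022_b t 1 1 1 = true :=
  ⟨(a (b (a (b (a (l 17477368) (a (a (l 17368144) (l 17306208)) (a (l 17237040) (l 17164032)))) (a (l 17923976) (a (l 17878120) (l 17868152)))) (a (a (a (b (l 17139440) (l 17852488)) (b (a (l 17126504) (l 17118640)) (l 17832608))) (b (l 17185008) (l 17792352))) (b (a (l 464964742519) (l 492881906087)) (l 17712120)))) (a (a (l 18256696) (a (l 18247024) (l 18250712))) (a (a (l 18248520) (l 18233136)) (l 18202392)))) (b (a (b (l 1) (a (l 562139533031) (l 619047501111))) (l 1)) (a (b (l 18009432) (l 18240144)) (b (a (l 682399181863) (l 1)) (l 18116512))))), by decide +kernel⟩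

theorem c_pp_022_b : CertF 0 536870912 1239849684 370763052 134217728 67108864 false true true .pp 0 2 2
    ndF3q0 ndF2q2b pcF2 Cut.none Ext.none :=
  certF2 (fam := false) (s1 := true) (s2 := true) (a := 0) (b := 2) (c := 2) (cn := .pp) (n1 := ndF3q0) (n2 := ndF2q2b) (pc := pcF2) (cut := Cut.none) (xt := Ext.none) (P1 := 0) (W1 := 536870912) (P2 := 1239849684) (W2 := 370763052) (P3 := 134217728) (W3 := 67108864)
    rfl (fun _ => rfl) k0_pp_022_b

noncomputable def f_pp_023 : ℕ → ℕ → ℕ → ℕ → Bool := onCell 1073741824 536870912 1610612736 536870912 134217728 67108864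
    (rowF 2 false true true .up 0 2 3 (qsf 0 536870912 1610612736 536870912 2) ndF3q0 ndF2q3 pcF2 Cut.none Ext.none)

def k0_pp_023 : ∃ t, chk3 f_pp_023 t 1 1 1 = true :=
  ⟨(a (a (b (a (l 18750888) (a (l 18704808) (l 18670848))) (l 2)) (b (a (l 18612912) (l 18533696)) (l 18519344))) (a (b (l 18396048) (l 18336464)) (b (b (l 18151696) (l 18246296)) (l 18151376)))), by decide +kernel⟩

theorem c_pp_023 : CertF 0 536870912 1610612736 536870912 134217728 67108864 false true true .up 0 2 3
    ndF3q0 ndF2q3 pcF2 Cut.none Ext.none :=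
  certF2 (fam := false) (s1 := true) (s2 := true) (a := 0) (b := 2) (c := 3) (cn := .up) (n1 := ndF3q0) (n2 := ndF2q3) (pc := pcF2) (cut := Cut.none) (xt := Ext.none) (P1 := 0) (W1 := 536870912) (P2 := 1610612736) (W2 := 536870912) (P3 := 134217728) (W3 := 67108864)
    rfl (fun _ => rfl) k0_pp_023

noncomputable def f_pp_033 : ℕ → ℕ → ℕ → ℕ → Bool := onCell 0 536870912 1610612736 536870912 134217728 67108864
    (rowF 1 false true true .pnn 0 3 3 (qsf 0 536870912 1610612736 536870912 3) ndF3q0 ndF2q3 pcF3 Cut.none Ext.none)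

def k0_pp_033 : ∃ t, chk3 f_pp_033 t 1 1 1 = true :=
  ⟨(a (b (b (a (b (l 17654360) (l 17695584)) (l 17713208)) (a (l 17582168) (l 17555368))) (b (l 17653864) (a (l 4) (a (b (l 4) (l 2)) (l 2))))) (b (b (b (l 17641952) (l 17557280)) (a (l 4) (a (b (l 4) (l 2)) (l 2)))) (a (b (a (b (l 4) (l 2)) (l 2)) (l 2)) (l 2)))), by decide +kernel⟩

theorem c_pp_033 : CertF 0 536870912 1610612736 536870912 134217728 67108864 false true true .pnn 0 3 3
    ndF3q0 ndF2q3 pcF3 Cut.none Ext.none :=
  certF1 (fam := false) (s1 := true) (s2 := true) (a := 0) (b := 3) (c := 3) (cn := .pnn) (n1 := ndF3q0) (n2 := ndF2q3) (pc := pcF3) (cut := Cut.none) (xt := Ext.none) (P1 := 0) (W1 := 536870912) (P2 := 1610612736) (W2 := 536870912) (P3 := 134217728) (W3 := 67108864)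
    rfl (fun _ => rfl) k0_pp_033

noncomputable def f_pp_101 : ℕ → ℕ → ℕ → ℕ → Bool := onCell 536870912 536870912 536870912 536870912 134217728 67108864
    (rowF 0 false true true .npn 1 0 1 (qsf 536870912 536870912 536870912 536870912 0) ndF3q1 ndF2q1 pcF0 Cut.none Ext.none)

def k0_pp_101 : ∃ t, chk3 f_pp_101 t 1 1 1 = true :=
  ⟨(l 3), by decide +kernel⟩

theorem c_pp_101 : CertF 536870912 536870912 536870912 536870912 134217728 67108864 false true true .npn 1 0 1
    ndF3q1 ndF2q1 pcF0 Cut.none Ext.none :=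
  certF0 (fam := false) (s1 := true) (s2 := true) (a := 1) (b := 0) (c := 1) (cn := .npn) (n1 := ndF3q1) (n2 := ndF2q1) (pc := pcF0) (cut := Cut.none) (xt := Ext.none) (P1 := 536870912) (W1 := 536870912) (P2 := 536870912) (W2 := 536870912) (P3 := 134217728) (W3 := 67108864)
    rfl k0_pp_101

noncomputable def cut_pp_102_a : Cut := Cut.of [[⟨0, 1, 0, 67108864⟩, ⟨1, 0, 0, 67108864⟩, ⟨2, 1, 0, 67108864⟩]]

noncomputable def f_pp_102_a : ℕ → ℕ → ℕ → ℕ → Bool := onCell 536870912 536870912 0 536870912 134217728 67108864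
    (rowF 0 false true true .npp 1 0 2 (qsf 536870912 536870912 0 536870912 0) ndF3q1 ndF2q2a pcF0 cut_pp_102_a Ext.none)

def k0_pp_102_a : ∃ t, chk3 f_pp_102_a t 2 1 1 = true :=
  ⟨(b (a (l 17950760) (l 18041104)) (a (b (l 17915360) (b (l 17844600) (a (l 17784376) (l 17726680)))) (b (a (l 17913920) (l 17887608)) (b (a (l 17786784) (l 17711480)) (b (a (l 17688832) (l 17582624)) (a (l 17606264) (c (l 17591936) (l 17366760)))))))), by decide +kernel⟩

def k1_pp_102_a : ∃ t, chk3 f_pp_102_a t 3 2 1 = true :=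
  ⟨(a (a (l 18034488) (a (l 18006480) (l 17945920))) (a (a (b (l 17926136) (l 17748400)) (b (l 17749832) (a (l 17574056) (l 17410336)))) (b (a (l 17422096) (l 16820648)) (a (b (l 17207904) (l 16902928)) (b (l 16523920) (l 16560616)))))), by decide +kernel⟩

def k2_pp_102_a : ∃ t, chk3 f_pp_102_a t 6 3 1 = true :=
  ⟨(b (a (a (l 17839736) (l 17788216)) (a (b (l 17791944) (l 17605984)) (b (l 17667464) (c (l 17666248) (l 17185384))))) (b (a (a (l 17613040) (c (l 17678016) (l 17341080))) (a (b (l 17421664) (l 17188304)) (b (l 17037584) (c (l 17238696) (l 16739024))))) (a (b (a (l 17452904) (c (l 17479712) (l 17152144))) (a (c (l 17460808) (l 17197536)) (c (l 17261984) (b (l 17050512) (l 16984200))))) (b (a (c (l 17303152) (l 16907416)) (a (l 16809608) (c (l 16924448) (l 16569704)))) (a (a (b (l 17042992) (l 16856776)) (c (l 17050776) (l 16659032))) (b (a (l 16719896) (l 16652528)) (a (l 16687872) (l 16716616)))))))), by decide +kernel⟩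

def k3_pp_102_a : ∃ t, chk3 f_pp_102_a t 7 3 1 = true :=
  ⟨(a (b (a (b (l 17454296) (a (l 17214800) (l 17019568))) (b (a (l 17195296) (l 16950640)) (a (l 16676632) (l 16546504)))) (b (a (a (b (l 16909408) (l 16660224)) (b (l 16652360) (l 16601232))) (a (b (l 16577576) (l 16619120)) (b (l 16572336) (l 16615736)))) (a (b (a (l 16641376) (b (l 16596896) (l 16649792))) (b (c (l 16711992) (l 16711888)) (a (c (l 16704776) (l 16703016)) (c (l 16713208) (l 16711656))))) (b (a (a (l 16649784) (l 16653584)) (c (l 16653672) (l 16642624))) (a (b (b (l 16690776) (l 16701032)) (a (l 16731720) (c (l 16726424) (l 16724976)))) (b (l 16701432) (b (l 16722048) (l 16743208)))))))) (b (a (b (l 16581944) (a (l 16583064) (c (l 16579480) (l 16573408)))) (b (a (l 16557624) (l 16590784)) (a (c (l 16593280) (l 16587824)) (c (l 16649704) (l 16623712))))) (b (a (b (a (l 16590312) (l 16627976)) (a (c (l 16615704) (l 16613304)) (c (l 16654904) (l 16652768)))) (b (a (c (l 16624928) (l 16621704)) (c (a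 (l 16637384) (l 16645840)) (l 16659568))) (a (c (b (l 16644432) (l 16658984)) (b (l 16642264) (l 16657488))) (a (c (l 16686304) (l 16663600)) (c (b (l 16666792) (l 6)) (l 16693800)))))) (b (a (a (c (b (l 16636120) (l 16672768)) (l 16664088)) (b (c (l 16676640) (l 16654648)) (c (l 16693240) (l 16692864)))) (a (a (b (l 16690488) (l 6)) (l 6)) (l 6))) (a (a (b (c (l 16699680) (l 16699600)) (b (l 16730608) (c (l 16752152) (l 16751184)))) (b (c (a (l 16707224) (l 6)) (l 16713032)) (l 6))) (l 6)))))), by decide +kernel⟩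

theorem s4_pp_102_a : ∃ t, chk3 f_pp_102_a t 3 3 1 = true := ex3_a k2_pp_102_a k3_pp_102_a

theorem s5_pp_102_a : ∃ t, chk3 f_pp_102_a t 3 1 1 = true := ex3_b k1_pp_102_a s4_pp_102_a

theorem s6_pp_102_a : ∃ t, chk3 f_pp_102_a t 1 1 1 = true := ex3_a k0_pp_102_a s5_pp_102_a

theorem c_pp_102_a : CertF 536870912 536870912 0 536870912 134217728 67108864 false true true .npp 1 0 2
    ndF3q1 ndF2q2a pcF0 cut_pp_102_a Ext.none :=
  certF0 (fam := false) (s1 := true) (s2 := true) (a := 1) (b := 0) (c := 2) (cn := .npp) (n1 := ndF3q1) (n2 := ndF2q2a) (pc := pcF0) (cut := cut_pp_102_a) (xt := Ext.none) (P1 := 536870912) (W1 := 536870912) (P2 := 0) (W2 := 536870912) (P3 := 134217728) (W3 := 67108864)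
    rfl s6_pp_102_a

noncomputable def cut_pp_102_b : Cut := Cut.of [[⟨0, 1, 0, 67108864⟩, ⟨1, 0, 0, 67108864⟩, ⟨2, 1, 0, 67108864⟩]]

noncomputable def f_pp_102_b : ℕ → ℕ → ℕ → ℕ → Bool := onCell 536870912 536870912 1239849684 370763052 134217728 67108864
    (rowF 0 false true true .npp 1 0 2 (qsf 536870912 536870912 1239849684 370763052 0) ndF3q1 ndF2q2b pcF0 cut_pp_102_b Ext.none)

def k0_pp_102_b : ∃ t, chk3 f_pp_102_b t 1 1 1 = true :=
  ⟨(a (b (a (l 2) (b (l 18127000) (l 18222528))) (l 2)) (b (a (a (b (l 18235168) (l 18418816)) (b (l 18301384) (l 18582800))) (a (b (a (l 18286832) (b (l 18031608) (l 18396720))) (a (l 18679720) (l 18735712))) (b (a (b (l 17823248) (l 18320528)) (b (c (l 17883304) (l 16998056)) (l 18161496))) (b (l 18634952) (l 18880176))))) (a (b (a (l 2) (l 18702592)) (l 2)) (a (b (l 18919728) (l 18985176)) (b (l 19087712) (l 19198744)))))), by decide +kernel⟩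

theorem c_pp_102_b : CertF 536870912 536870912 1239849684 370763052 134217728 67108864 false true true .npp 1 0 2
    ndF3q1 ndF2q2b pcF0 cut_pp_102_b Ext.none :=
  certF0 (fam := false) (s1 := true) (s2 := true) (a := 1) (b := 0) (c := 2) (cn := .npp) (n1 := ndF3q1) (n2 := ndF2q2b) (pc := pcF0) (cut := cut_pp_102_b) (xt := Ext.none) (P1 := 536870912) (W1 := 536870912) (P2 := 1239849684) (W2 := 370763052) (P3 := 134217728) (W3 := 67108864)
    rfl k0_pp_102_b

noncomputable def f_pp_112_a : ℕ → ℕ → ℕ → ℕ → Bool := onCell 536870912 536870912 0 536870912 134217728 67108864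
    (rowF 2 false true true .dn 1 1 2 (qsf 536870912 536870912 0 536870912 1) ndF3q1 ndF2q2a pcF1 Cut.none Ext.none)

def k0_pp_112_a : ∃ t, chk3 f_pp_112_a t 1 1 1 = true :=
  ⟨(a (a (b (l 18153416) (b (l 18082120) (b (l 18019720) (a (l 17936280) (l 1))))) (b (l 18128776) (l 394636798071))) (l 1)), by decide +kernel⟩

theorem c_pp_112_a : CertF 536870912 536870912 0 536870912 134217728 67108864 false true true .dn 1 1 2
    ndF3q1 ndF2q2a pcF1 Cut.none Ext.none :=
  certF2 (fam := false) (s1 := true) (s2 := true) (a := 1) (b := 1) (c := 2) (cn := .dn) (n1 := ndF3q1) (n2 := ndF2q2a) (pc := pcF1) (cut := Cut.none) (xt := Ext.none) (P1 := 536870912) (W1 := 536870912) (P2 := 0) (W2 := 536870912) (P3 := 134217728) (W3 := 67108864)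
    rfl (fun _ => rfl) k0_pp_112_a

noncomputable def f_pp_112_b : ℕ → ℕ → ℕ → ℕ → Bool := onCell 536870912 536870912 536870912 536870912 134217728 67108864
    (rowF 1 false true true .dn 1 1 2 (qsf 536870912 536870912 1239849684 370763052 1) ndF3q1 ndF2q2b pcF1 Cut.none Ext.none)

def k0_pp_112_b : ∃ t, chk3 f_pp_112_b t 1 1 1 = true :=
  ⟨(a (b (b (a (l 402689934823) (l 18330832)) (l 352761205559)) (b (l 18204768) (l 17911544))) (b (a (b (a (l 18482632) (l 18611040)) (l 18425328)) (a (b (l 18725032) (l 18499568)) (b (l 18782656) (l 2)))) (a (b (l 18130136) (l 2)) (l 2)))), by decide +kernel⟩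

theorem c_pp_112_b : CertF 536870912 536870912 1239849684 370763052 134217728 67108864 false true true .dn 1 1 2
    ndF3q1 ndF2q2b pcF1 Cut.none Ext.none :=
  certF1 (fam := false) (s1 := true) (s2 := true) (a := 1) (b := 1) (c := 2) (cn := .dn) (n1 := ndF3q1) (n2 := ndF2q2b) (pc := pcF1) (cut := Cut.none) (xt := Ext.none) (P1 := 536870912) (W1 := 536870912) (P2 := 1239849684) (W2 := 370763052) (P3 := 134217728) (W3 := 67108864)
    rfl (fun _ => rfl) k0_pp_112_b

noncomputable def f_pp_113 : ℕ → ℕ → ℕ → ℕ → Bool := onCell 536870912 536870912 536870912 536870912 134217728 67108864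
    (rowF 1 false true true .nn 1 1 3 (qsf 536870912 536870912 1610612736 536870912 1) ndF3q1 ndF2q3 pcF1 Cut.none Ext.none)

def k0_pp_113 : ∃ t, chk3 f_pp_113 t 1 1 1 = true :=
  ⟨(a (b (b (l 1) (l 501473821303)) (b (l 17813576) (l 17640736))) (b (a (b (l 18436280) (l 18123104)) (a (b (l 18477232) (l 18246464)) (b (l 18548656) (l 18270832)))) (a (b (l 17874032) (l 17504944)) (b (a (l 17905720) (l 17858016)) (a (b (l 17549752) (l 17238024)) (b (l 17409496) (l 17080984))))))), by decide +kernel⟩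

theorem c_pp_113 : CertF 536870912 536870912 1610612736 536870912 134217728 67108864 false true true .nn 1 1 3
    ndF3q1 ndF2q3 pcF1 Cut.none Ext.none :=
  certF1 (fam := false) (s1 := true) (s2 := true) (a := 1) (b := 1) (c := 3) (cn := .nn) (n1 := ndF3q1) (n2 := ndF2q3) (pc := pcF1) (cut := Cut.none) (xt := Ext.none) (P1 := 536870912) (W1 := 536870912) (P2 := 1610612736) (W2 := 536870912) (P3 := 134217728) (W3 := 67108864)
    rfl (fun _ => rfl) k0_pp_113

noncomputable def f_pp_123 : ℕ → ℕ → ℕ → ℕ → Bool := onCell 536870912 536870912 1610612736 536870912 134217728 67108864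
    (rowF 0 false true true .npn 1 2 3 (qsf 536870912 536870912 1610612736 536870912 2) ndF3q1 ndF2q3 pcF2 Cut.none Ext.none)

def k0_pp_123 : ∃ t, chk3 f_pp_123 t 1 1 1 = true :=
  ⟨(a (b (b (b (l 17857264) (l 17762304)) (a (l 17579320) (l 17613936))) (b (a (l 17308728) (l 17378312)) (a (l 16977304) (l 16952840)))) (b (a (a (l 701189330951) (l 1)) (l 1)) (a (b (l 17330520) (a (l 17033208) (l 17004296))) (b (a (l 17382200) (l 1)) (a (l 16959024) (l 16994520)))))), by decide +kernel⟩

theorem c_pp_123 : CertF 536870912 536870912 1610612736 536870912 134217728 67108864 false true true .npn 1 2 3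
    ndF3q1 ndF2q3 pcF2 Cut.none Ext.none :=
  certF0 (fam := false) (s1 := true) (s2 := true) (a := 1) (b := 2) (c := 3) (cn := .npn) (n1 := ndF3q1) (n2 := ndF2q3) (pc := pcF2) (cut := Cut.none) (xt := Ext.none) (P1 := 536870912) (W1 := 536870912) (P2 := 1610612736) (W2 := 536870912) (P3 := 134217728) (W3 := 67108864)
    rfl k0_pp_123

noncomputable def f_pp_133 : ℕ → ℕ → ℕ → ℕ → Bool := onCell 1610612736 536870912 1610612736 536870912 134217728 67108864
    (rowF 2 false true true .dn 1 3 3 (qsf 536870912 536870912 1610612736 536870912 3) ndF3q1 ndF2q3 pcF3 Cut.none Ext.none)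

def k0_pp_133 : ∃ t, chk3 f_pp_133 t 1 1 1 = true :=
  ⟨(a (b (l 1) (b (l 1) (l 4))) (l 1)), by decide +kernel⟩

theorem c_pp_133 : CertF 536870912 536870912 1610612736 536870912 134217728 67108864 false true true .dn 1 3 3
    ndF3q1 ndF2q3 pcF3 Cut.none Ext.none :=
  certF2 (fam := false) (s1 := true) (s2 := true) (a := 1) (b := 3) (c := 3) (cn := .dn) (n1 := ndF3q1) (n2 := ndF2q3) (pc := pcF3) (cut := Cut.none) (xt := Ext.none) (P1 := 536870912) (W1 := 536870912) (P2 := 1610612736) (W2 := 536870912) (P3 := 134217728) (W3 := 67108864)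
    rfl (fun _ => rfl) k0_pp_133

noncomputable def f_pp_202_a : ℕ → ℕ → ℕ → ℕ → Bool := onCell 1073741824 536870912 0 536870912 134217728 67108864
    (rowF 0 false true true .pp 2 0 2 (qsf 1073741824 536870912 0 536870912 0) ndF3q2 ndF2q2a pcF0 Cut.none Ext.none)

def k0_pp_202_a : ∃ t, chk3 f_pp_202_a t 1 1 1 = true :=
  ⟨(l 3), by decide +kernel⟩

theorem c_pp_202_a : CertF 1073741824 536870912 0 536870912 134217728 67108864 false true true .pp 2 0 2
    ndF3q2 ndF2q2a pcF0 Cut.none Ext.none :=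
  certF0 (fam := false) (s1 := true) (s2 := true) (a := 2) (b := 0) (c := 2) (cn := .pp) (n1 := ndF3q2) (n2 := ndF2q2a) (pc := pcF0) (cut := Cut.none) (xt := Ext.none) (P1 := 1073741824) (W1 := 536870912) (P2 := 0) (W2 := 536870912) (P3 := 134217728) (W3 := 67108864)
    rfl k0_pp_202_a

noncomputable def f_pp_202_b : ℕ → ℕ → ℕ → ℕ → Bool := onCell 1073741824 536870912 1239849684 370763052 134217728 67108864
    (rowF 0 false true true .pp 2 0 2 (qsf 1073741824 536870912 1239849684 370763052 0) ndF3q2 ndF2q2b pcF0 Cut.none Ext.none)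

def k0_pp_202_b : ∃ t, chk3 f_pp_202_b t 1 1 1 = true :=
  ⟨(l 3), by decide +kernel⟩

theorem c_pp_202_b : CertF 1073741824 536870912 1239849684 370763052 134217728 67108864 false true true .pp 2 0 2
    ndF3q2 ndF2q2b pcF0 Cut.none Ext.none :=
  certF0 (fam := false) (s1 := true) (s2 := true) (a := 2) (b := 0) (c := 2) (cn := .pp) (n1 := ndF3q2) (n2 := ndF2q2b) (pc := pcF0) (cut := Cut.none) (xt := Ext.none) (P1 := 1073741824) (W1 := 536870912) (P2 := 1239849684) (W2 := 370763052) (P3 := 134217728) (W3 := 67108864)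
    rfl k0_pp_202_b

noncomputable def f_pp_203 : ℕ → ℕ → ℕ → ℕ → Bool := onCell 1073741824 536870912 0 536870912 134217728 67108864
    (rowF 1 false true true .up 2 0 3 (qsf 1073741824 536870912 1610612736 536870912 0) ndF3q2 ndF2q3 pcF0 Cut.none Ext.none)

def k0_pp_203 : ∃ t, chk3 f_pp_203 t 1 1 1 = true :=
  ⟨(l 3), by decide +kernel⟩

theorem c_pp_203 : CertF 1073741824 536870912 1610612736 536870912 134217728 67108864 false true true .up 2 0 3
    ndF3q2 ndF2q3 pcF0 Cut.none Ext.none :=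
  certF1 (fam := false) (s1 := true) (s2 := true) (a := 2) (b := 0) (c := 3) (cn := .up) (n1 := ndF3q2) (n2 := ndF2q3) (pc := pcF0) (cut := Cut.none) (xt := Ext.none) (P1 := 1073741824) (W1 := 536870912) (P2 := 1610612736) (W2 := 536870912) (P3 := 134217728) (W3 := 67108864)
    rfl (fun _ => rfl) k0_pp_203

noncomputable def f_pp_213 : ℕ → ℕ → ℕ → ℕ → Bool := onCell 1073741824 536870912 1610612736 536870912 134217728 67108864
    (rowF 0 false true true .pnn 2 1 3 (qsf 1073741824 536870912 1610612736 536870912 1) ndF3q2 ndF2q3 pcF1 Cut.none Ext.none)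

def k0_pp_213 : ∃ t, chk3 f_pp_213 t 1 1 1 = true :=
  ⟨(a (b (l 3) (b (l 3) (b (a (a (l 239613215255) (l 3)) (l 3)) (a (a (l 17014792) (a (a (l 16992624) (l 17003864)) (a (l 17011544) (l 17064264)))) (a (a (a (l 17031568) (l 263235559095)) (l 3)) (l 3)))))) (l 3)), by decide +kernel⟩

theorem c_pp_213 : CertF 1073741824 536870912 1610612736 536870912 134217728 67108864 false true true .pnn 2 1 3
    ndF3q2 ndF2q3 pcF1 Cut.none Ext.none :=
  certF0 (fam := false) (s1 := true) (s2 := true) (a := 2) (b := 1) (c := 3) (cn := .pnn) (n1 := ndF3q2) (n2 := ndF2q3) (pc := pcF1) (cut := Cut.none) (xt := Ext.none) (P1 := 1073741824) (W1 := 536870912) (P2 := 1610612736) (W2 := 536870912) (P3 := 134217728) (W3 := 67108864)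
    rfl k0_pp_213

noncomputable def f_pp_303 : ℕ → ℕ → ℕ → ℕ → Bool := onCell 0 1230186008 1610612736 536870912 134217728 67108864
    (rowF 0 false true true .npn 3 0 3 (qsf 0 1230186008 1610612736 536870912 0) ndF3q3 ndF2q3 pcF0 Cut.none Ext.none)

def k0_pp_303 : ∃ t, chk3 f_pp_303 t 1 1 1 = true :=
  ⟨(a (l 3) (l 3)), by decide +kernel⟩

theorem c_pp_303 : CertF 0 1230186008 1610612736 536870912 134217728 67108864 false true true .npn 3 0 3
    ndF3q3 ndF2q3 pcF0 Cut.none Ext.none :=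
  certF0 (fam := false) (s1 := true) (s2 := true) (a := 3) (b := 0) (c := 3) (cn := .npn) (n1 := ndF3q3) (n2 := ndF2q3) (pc := pcF0) (cut := Cut.none) (xt := Ext.none) (P1 := 0) (W1 := 1230186008) (P2 := 1610612736) (W2 := 536870912) (P3 := 134217728) (W3 := 67108864)
    rfl k0_pp_303

noncomputable def f_pp_313 : ℕ → ℕ → ℕ → ℕ → Bool := onCell 0 1230186008 1610612736 536870912 134217728 67108864
    (rowF 0 false true true .dn 3 1 3 (qsf 0 1230186008 1610612736 536870912 1) ndF3q3 ndF2q3 pcF1 Cut.none Ext.none)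

def k0_pp_313 : ∃ t, chk3 f_pp_313 t 1 1 1 = true :=
  ⟨(a (l 1) (l 3)), by decide +kernel⟩

theorem c_pp_313 : CertF 0 1230186008 1610612736 536870912 134217728 67108864 false true true .dn 3 1 3
    ndF3q3 ndF2q3 pcF1 Cut.none Ext.none :=
  certF0 (fam := false) (s1 := true) (s2 := true) (a := 3) (b := 1) (c := 3) (cn := .dn) (n1 := ndF3q3) (n2 := ndF2q3) (pc := pcF1) (cut := Cut.none) (xt := Ext.none) (P1 := 0) (W1 := 1230186008) (P2 := 1610612736) (W2 := 536870912) (P3 := 134217728) (W3 := 67108864)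
    rfl k0_pp_313

noncomputable def f_pm_001 : ℕ → ℕ → ℕ → ℕ → Bool := onCell 0 536870912 536870912 536870912 134217728 67108864
    (rowF 0 false true false .up 0 0 1 (qsf 0 536870912 536870912 536870912 0) ndF3q0 ndF2q1 pcF0 Cut.none Ext.none)

def k0_pm_001 : ∃ t, chk3 f_pm_001 t 1 1 1 = true :=
  ⟨(l 4), by decide +kernel⟩

theorem c_pm_001 : CertF 0 536870912 536870912 536870912 134217728 67108864 false true false .up 0 0 1
    ndF3q0 ndF2q1 pcF0 Cut.none Ext.none :=
  certF0 (fam := false) (s1 := true) (s2 := false) (a := 0) (b := 0) (c := 1) (cn := .up) (n1 := ndF3q0) (n2 := ndF2q1) (pc := pcF0) (cut := Cut.none) (xt := Ext.none) (P1 := 0) (W1 := 536870912) (P2 := 536870912) (W2 := 536870912) (P3 := 134217728) (W3 := 67108864)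
    rfl k0_pm_001

noncomputable def f_pm_011 : ℕ → ℕ → ℕ → ℕ → Bool := onCell 0 536870912 536870912 536870912 134217728 67108864
    (rowF 0 false true false .pnn 0 1 1 (qsf 0 536870912 536870912 536870912 1) ndF3q0 ndF2q1 pcF1 Cut.none Ext.none)

def k0_pm_011 : ∃ t, chk3 f_pm_011 t 1 1 1 = true :=
  ⟨(l 4), by decide +kernel⟩

theorem c_pm_011 : CertF 0 536870912 536870912 536870912 134217728 67108864 false true false .pnn 0 1 1
    ndF3q0 ndF2q1 pcF1 Cut.none Ext.none :=
  certF0 (fam := false) (s1 := true) (s2 := false) (a := 0) (b := 1) (c := 1) (cn := .pnn) (n1 := ndF3q0) (n2 := ndF2q1) (pc := pcF1) (cut := Cut.none) (xt := Ext.none) (P1 := 0) (W1 := 536870912) (P2 := 536870912) (W2 := 536870912) (P3 := 134217728) (W3 := 67108864)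
    rfl k0_pm_011

noncomputable def f_pm_012_a : ℕ → ℕ → ℕ → ℕ → Bool := onCell 0 536870912 0 536870912 134217728 67108864
    (rowF 0 false true false .pnp 0 1 2 (qsf 0 536870912 0 536870912 1) ndF3q0 ndF2q2a pcF1 Cut.none Ext.none)

def k0_pm_012_a : ∃ t, chk3 f_pm_012_a t 1 1 1 = true :=
  ⟨(l 4), by decide +kernel⟩

theorem c_pm_012_a : CertF 0 536870912 0 536870912 134217728 67108864 false true false .pnp 0 1 2
    ndF3q0 ndF2q2a pcF1 Cut.none Ext.none :=
  certF0 (fam := false) (s1 := true) (s2 := false) (a := 0) (b := 1) (c := 2) (cn := .pnp) (n1 := ndF3q0) (n2 := ndF2q2a) (pc := pcF1) (cut := Cut.none) (xt := Ext.none) (P1 := 0) (W1 := 536870912) (P2 := 0) (W2 := 536870912) (P3 := 134217728) (W3 := 67108864)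
    rfl k0_pm_012_a

noncomputable def f_pm_012_b : ℕ → ℕ → ℕ → ℕ → Bool := onCell 0 536870912 1239849684 370763052 134217728 67108864
    (rowF 0 false true false .pnp 0 1 2 (qsf 0 536870912 1239849684 370763052 1) ndF3q0 ndF2q2b pcF1 Cut.none Ext.none)

def k0_pm_012_b : ∃ t, chk3 f_pm_012_b t 1 1 1 = true :=
  ⟨(l 4), by decide +kernel⟩

theorem c_pm_012_b : CertF 0 536870912 1239849684 370763052 134217728 67108864 false true false .pnp 0 1 2
    ndF3q0 ndF2q2b pcF1 Cut.none Ext.none :=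
  certF0 (fam := false) (s1 := true) (s2 := false) (a := 0) (b := 1) (c := 2) (cn := .pnp) (n1 := ndF3q0) (n2 := ndF2q2b) (pc := pcF1) (cut := Cut.none) (xt := Ext.none) (P1 := 0) (W1 := 536870912) (P2 := 1239849684) (W2 := 370763052) (P3 := 134217728) (W3 := 67108864)
    rfl k0_pm_012_b

noncomputable def f_pm_022_a : ℕ → ℕ → ℕ → ℕ → Bool := onCell 0 536870912 0 536870912 134217728 67108864
    (rowF 0 false true false .pp 0 2 2 (qsf 0 536870912 0 536870912 2) ndF3q0 ndF2q2a pcF2 Cut.none Ext.none)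

def k0_pm_022_a : ∃ t, chk3 f_pm_022_a t 1 1 1 = true :=
  ⟨(l 4), by decide +kernel⟩

theorem c_pm_022_a : CertF 0 536870912 0 536870912 134217728 67108864 false true false .pp 0 2 2
    ndF3q0 ndF2q2a pcF2 Cut.none Ext.none :=
  certF0 (fam := false) (s1 := true) (s2 := false) (a := 0) (b := 2) (c := 2) (cn := .pp) (n1 := ndF3q0) (n2 := ndF2q2a) (pc := pcF2) (cut := Cut.none) (xt := Ext.none) (P1 := 0) (W1 := 536870912) (P2 := 0) (W2 := 536870912) (P3 := 134217728) (W3 := 67108864)
    rfl k0_pm_022_a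

noncomputable def f_pm_022_b : ℕ → ℕ → ℕ → ℕ → Bool := onCell 0 536870912 1239849684 370763052 134217728 67108864
    (rowF 0 false true false .pp 0 2 2 (qsf 0 536870912 1239849684 370763052 2) ndF3q0 ndF2q2b pcF2 Cut.none Ext.none)

def k0_pm_022_b : ∃ t, chk3 f_pm_022_b t 1 1 1 = true :=
  ⟨(l 4), by decide +kernel⟩

theorem c_pm_022_b : CertF 0 536870912 1239849684 370763052 134217728 67108864 false true false .pp 0 2 2
    ndF3q0 ndF2q2b pcF2 Cut.none Ext.none :=
  certF0 (fam := false) (s1 := true) (s2 := false) (a := 0) (b := 2) (c := 2) (cn := .pp) (n1 := ndF3q0) (n2 := ndF2q2b) (pc := pcF2) (cut := Cut.none) (xt := Ext.none) (P1 := 0) (W1 := 536870912) (P2 := 1239849684) (W2 := 370763052) (P3 := 134217728) (W3 := 67108864)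
    rfl k0_pm_022_b

noncomputable def f_pm_023 : ℕ → ℕ → ℕ → ℕ → Bool := onCell 0 536870912 1610612736 536870912 134217728 67108864
    (rowF 0 false true false .up 0 2 3 (qsf 0 536870912 1610612736 536870912 2) ndF3q0 ndF2q3 pcF2 Cut.none Ext.none)

def k0_pm_023 : ∃ t, chk3 f_pm_023 t 1 1 1 = true :=
  ⟨(l 4), by decide +kernel⟩

theorem c_pm_023 : CertF 0 536870912 1610612736 536870912 134217728 67108864 false true false .up 0 2 3
    ndF3q0 ndF2q3 pcF2 Cut.none Ext.none :=
  certF0 (fam := false) (s1 := true) (s2 := false) (a := 0) (b := 2) (c := 3) (cn := .up) (n1 := ndF3q0) (n2 := ndF2q3) (pc := pcF2) (cut := Cut.none) (xt := Ext.none) (P1 := 0) (W1 := 536870912) (P2 := 1610612736) (W2 := 536870912) (P3 := 134217728) (W3 := 67108864)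
    rfl k0_pm_023

noncomputable def f_pm_033 : ℕ → ℕ → ℕ → ℕ → Bool := onCell 0 536870912 1610612736 536870912 134217728 67108864
    (rowF 0 false true false .pnn 0 3 3 (qsf 0 536870912 1610612736 536870912 3) ndF3q0 ndF2q3 pcF3 Cut.none Ext.none)

def k0_pm_033 : ∃ t, chk3 f_pm_033 t 1 1 1 = true :=
  ⟨(l 4), by decide +kernel⟩

theorem c_pm_033 : CertF 0 536870912 1610612736 536870912 134217728 67108864 false true false .pnn 0 3 3
    ndF3q0 ndF2q3 pcF3 Cut.none Ext.none :=
  certF0 (fam := false) (s1 := true) (s2 := false) (a := 0) (b := 3) (c := 3) (cn := .pnn) (n1 := ndF3q0) (n2 := ndF2q3) (pc := pcF3) (cut := Cut.none) (xt := Ext.none) (P1 := 0) (W1 := 536870912) (P2 := 1610612736) (W2 := 536870912) (P3 := 134217728) (W3 := 67108864)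
    rfl k0_pm_033

noncomputable def f_pm_101 : ℕ → ℕ → ℕ → ℕ → Bool := onCell 536870912 536870912 536870912 536870912 134217728 67108864
    (rowF 0 false true false .npn 1 0 1 (qsf 536870912 536870912 536870912 536870912 0) ndF3q1 ndF2q1 pcF0 Cut.none Ext.none)

def k0_pm_101 : ∃ t, chk3 f_pm_101 t 1 1 1 = true :=
  ⟨(l 4), by decide +kernel⟩

theorem c_pm_101 : CertF 536870912 536870912 536870912 536870912 134217728 67108864 false true false .npn 1 0 1
    ndF3q1 ndF2q1 pcF0 Cut.none Ext.none :=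
  certF0 (fam := false) (s1 := true) (s2 := false) (a := 1) (b := 0) (c := 1) (cn := .npn) (n1 := ndF3q1) (n2 := ndF2q1) (pc := pcF0) (cut := Cut.none) (xt := Ext.none) (P1 := 536870912) (W1 := 536870912) (P2 := 536870912) (W2 := 536870912) (P3 := 134217728) (W3 := 67108864)
    rfl k0_pm_101

noncomputable def f_pm_102_a : ℕ → ℕ → ℕ → ℕ → Bool := onCell 536870912 536870912 0 536870912 134217728 67108864
    (rowF 0 false true false .npp 1 0 2 (qsf 536870912 536870912 0 536870912 0) ndF3q1 ndF2q2a pcF0 Cut.none Ext.none)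

def k0_pm_102_a : ∃ t, chk3 f_pm_102_a t 1 1 1 = true :=
  ⟨(l 4), by decide +kernel⟩

theorem c_pm_102_a : CertF 536870912 536870912 0 536870912 134217728 67108864 false true false .npp 1 0 2
    ndF3q1 ndF2q2a pcF0 Cut.none Ext.none :=
  certF0 (fam := false) (s1 := true) (s2 := false) (a := 1) (b := 0) (c := 2) (cn := .npp) (n1 := ndF3q1) (n2 := ndF2q2a) (pc := pcF0) (cut := Cut.none) (xt := Ext.none) (P1 := 536870912) (W1 := 536870912) (P2 := 0) (W2 := 536870912) (P3 := 134217728) (W3 := 67108864)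
    rfl k0_pm_102_a

noncomputable def f_pm_102_b : ℕ → ℕ → ℕ → ℕ → Bool := onCell 536870912 536870912 1239849684 370763052 134217728 67108864
    (rowF 0 false true false .npp 1 0 2 (qsf 536870912 536870912 1239849684 370763052 0) ndF3q1 ndF2q2b pcF0 Cut.none Ext.none)

def k0_pm_102_b : ∃ t, chk3 f_pm_102_b t 1 1 1 = true :=
  ⟨(l 4), by decide +kernel⟩

theorem c_pm_102_b : CertF 536870912 536870912 1239849684 370763052 134217728 67108864 false true false .npp 1 0 2
    ndF3q1 ndF2q2b pcF0 Cut.none Ext.none :=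
  certF0 (fam := false) (s1 := true) (s2 := false) (a := 1) (b := 0) (c := 2) (cn := .npp) (n1 := ndF3q1) (n2 := ndF2q2b) (pc := pcF0) (cut := Cut.none) (xt := Ext.none) (P1 := 536870912) (W1 := 536870912) (P2 := 1239849684) (W2 := 370763052) (P3 := 134217728) (W3 := 67108864)
    rfl k0_pm_102_b

noncomputable def f_pm_112_a : ℕ → ℕ → ℕ → ℕ → Bool := onCell 536870912 536870912 0 536870912 134217728 67108864
    (rowF 0 false true false .dn 1 1 2 (qsf 536870912 536870912 0 536870912 1) ndF3q1 ndF2q2a pcF1 Cut.none Ext.none)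

def k0_pm_112_a : ∃ t, chk3 f_pm_112_a t 1 1 1 = true :=
  ⟨(l 4), by decide +kernel⟩

theorem c_pm_112_a : CertF 536870912 536870912 0 536870912 134217728 67108864 false true false .dn 1 1 2
    ndF3q1 ndF2q2a pcF1 Cut.none Ext.none :=
  certF0 (fam := false) (s1 := true) (s2 := false) (a := 1) (b := 1) (c := 2) (cn := .dn) (n1 := ndF3q1) (n2 := ndF2q2a) (pc := pcF1) (cut := Cut.none) (xt := Ext.none) (P1 := 536870912) (W1 := 536870912) (P2 := 0) (W2 := 536870912) (P3 := 134217728) (W3 := 67108864)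
    rfl k0_pm_112_a

noncomputable def f_pm_112_b : ℕ → ℕ → ℕ → ℕ → Bool := onCell 536870912 536870912 1239849684 370763052 134217728 67108864
    (rowF 0 false true false .dn 1 1 2 (qsf 536870912 536870912 1239849684 370763052 1) ndF3q1 ndF2q2b pcF1 Cut.none Ext.none)

def k0_pm_112_b : ∃ t, chk3 f_pm_112_b t 1 1 1 = true :=
  ⟨(l 4), by decide +kernel⟩

theorem c_pm_112_b : CertF 536870912 536870912 1239849684 370763052 134217728 67108864 false true false .dn 1 1 2
    ndF3q1 ndF2q2b pcF1 Cut.none Ext.none :=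
  certF0 (fam := false) (s1 := true) (s2 := false) (a := 1) (b := 1) (c := 2) (cn := .dn) (n1 := ndF3q1) (n2 := ndF2q2b) (pc := pcF1) (cut := Cut.none) (xt := Ext.none) (P1 := 536870912) (W1 := 536870912) (P2 := 1239849684) (W2 := 370763052) (P3 := 134217728) (W3 := 67108864)
    rfl k0_pm_112_b

noncomputable def f_pm_113 : ℕ → ℕ → ℕ → ℕ → Bool := onCell 536870912 536870912 1610612736 536870912 134217728 67108864
    (rowF 0 false true false .nn 1 1 3 (qsf 536870912 536870912 1610612736 536870912 1) ndF3q1 ndF2q3 pcF1 Cut.none Ext.none)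

def k0_pm_113 : ∃ t, chk3 f_pm_113 t 1 1 1 = true :=
  ⟨(a (l 4) (b (l 4) (a (l 4) (a (l 4) (b (l 4) (b (l 4) (l 16883232))))))), by decide +kernel⟩

theorem c_pm_113 : CertF 536870912 536870912 1610612736 536870912 134217728 67108864 false true false .nn 1 1 3
    ndF3q1 ndF2q3 pcF1 Cut.none Ext.none :=
  certF0 (fam := false) (s1 := true) (s2 := false) (a := 1) (b := 1) (c := 3) (cn := .nn) (n1 := ndF3q1) (n2 := ndF2q3) (pc := pcF1) (cut := Cut.none) (xt := Ext.none) (P1 := 536870912) (W1 := 536870912) (P2 := 1610612736) (W2 := 536870912) (P3 := 134217728) (W3 := 67108864)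
    rfl k0_pm_113

noncomputable def f_pm_123 : ℕ → ℕ → ℕ → ℕ → Bool := onCell 536870912 536870912 1610612736 536870912 134217728 67108864
    (rowF 0 false true false .npn 1 2 3 (qsf 536870912 536870912 1610612736 536870912 2) ndF3q1 ndF2q3 pcF2 Cut.none Ext.none)

def k0_pm_123 : ∃ t, chk3 f_pm_123 t 1 1 1 = true :=
  ⟨(a (l 4) (b (l 4) (a (l 4) (a (l 4) (b (l 1) (l 16974616)))))), by decide +kernel⟩

theorem c_pm_123 : CertF 536870912 536870912 1610612736 536870912 134217728 67108864 false true false .npn 1 2 3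
    ndF3q1 ndF2q3 pcF2 Cut.none Ext.none :=
  certF0 (fam := false) (s1 := true) (s2 := false) (a := 1) (b := 2) (c := 3) (cn := .npn) (n1 := ndF3q1) (n2 := ndF2q3) (pc := pcF2) (cut := Cut.none) (xt := Ext.none) (P1 := 536870912) (W1 := 536870912) (P2 := 1610612736) (W2 := 536870912) (P3 := 134217728) (W3 := 67108864)
    rfl k0_pm_123

noncomputable def f_pm_133 : ℕ → ℕ → ℕ → ℕ → Bool := onCell 536870912 536870912 1610612736 536870912 134217728 67108864
    (rowF 0 false true false .dn 1 3 3 (qsf 536870912 536870912 1610612736 536870912 3) ndF3q1 ndF2q3 pcF3 Cut.none Ext.none)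

def k0_pm_133 : ∃ t, chk3 f_pm_133 t 1 1 1 = true :=
  ⟨(a (l 4) (l 1)), by decide +kernel⟩

theorem c_pm_133 : CertF 536870912 536870912 1610612736 536870912 134217728 67108864 false true false .dn 1 3 3
    ndF3q1 ndF2q3 pcF3 Cut.none Ext.none :=
  certF0 (fam := false) (s1 := true) (s2 := false) (a := 1) (b := 3) (c := 3) (cn := .dn) (n1 := ndF3q1) (n2 := ndF2q3) (pc := pcF3) (cut := Cut.none) (xt := Ext.none) (P1 := 536870912) (W1 := 536870912) (P2 := 1610612736) (W2 := 536870912) (P3 := 134217728) (W3 := 67108864)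
    rfl k0_pm_133

noncomputable def f_pm_202_a : ℕ → ℕ → ℕ → ℕ → Bool := onCell 1073741824 536870912 0 536870912 134217728 67108864
    (rowF 0 false true false .pp 2 0 2 (qsf 1073741824 536870912 0 536870912 0) ndF3q2 ndF2q2a pcF0 Cut.none Ext.none)

def k0_pm_202_a : ∃ t, chk3 f_pm_202_a t 1 1 1 = true :=
  ⟨(a (b (a (b (a (l 16830088) (a (a (l 16760984) (l 16860536)) (a (l 16872112) (l 16928616)))) (a (a (l 16723104) (l 16849976)) (a (a (l 16957336) (a (l 17008360) (l 17040960))) (a (l 17129040) (l 17256360))))) (a (a (b (a (l 16982432) (a (l 17023096) (l 17051840))) (a (l 17308008) (a (l 17179304) (l 1)))) (b (l 17192184) (l 1))) (l 1))) (a (b (a (a (b (l 16920560) (l 17093832)) (b (l 17059256) (l 17276352))) (a (a (b (l 17168440) (l 17308464)) (b (l 17370856) (l 4867095991))) (b (a (l 17251056) (l 17282552)) (a (l 17377224) (l 1))))) (a (b (a (b (l 17239600) (l 17310416)) (b (l 17335216) (l 17409696))) (a (c (l 17485792) (l 17383856)) (c (l 17560992) (l 136937161351))))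 (a (a (b (l 17437904) (l 1)) (l 1)) (l 1)))) (b (l 1) (l 1)))) (l 1)), by decide +kernel⟩

theorem c_pm_202_a : CertF 1073741824 536870912 0 536870912 134217728 67108864 false true false .pp 2 0 2
    ndF3q2 ndF2q2a pcF0 Cut.none Ext.none :=
  certF0 (fam := false) (s1 := true) (s2 := false) (a := 2) (b := 0) (c := 2) (cn := .pp) (n1 := ndF3q2) (n2 := ndF2q2a) (pc := pcF0) (cut := Cut.none) (xt := Ext.none) (P1 := 1073741824) (W1 := 536870912) (P2 := 0) (W2 := 536870912) (P3 := 134217728) (W3 := 67108864)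
    rfl k0_pm_202_a

noncomputable def f_pm_202_b : ℕ → ℕ → ℕ → ℕ → Bool := onCell 1073741824 536870912 1239849684 370763052 134217728 67108864
    (rowF 0 false true false .pp 2 0 2 (qsf 1073741824 536870912 1239849684 370763052 0) ndF3q2 ndF2q2b pcF0 Cut.none Ext.none)

def k0_pm_202_b : ∃ t, chk3 f_pm_202_b t 1 1 1 = true :=
  ⟨(a (b (a (b (a (b (a (l 16845600) (l 16871432)) (l 17305864)) (a (a (b (l 16879080) (l 17368312)) (b (l 17019224) (l 17385040))) (a (b (l 16853072) (l 17399984)) (b (l 16818408) (l 17413824))))) (a (l 17648840) (a (a (l 17733904) (l 17755384)) (a (l 17774952) (l 17798136))))) (b (b (a (a (a (l 16767080) (a (l 16805680) (b (l 16915976) (l 16914768)))) (b (l 17002904) (l 16832512))) (a (b (l 1) (l 16929256)) (l 1))) (a (a (a (l 17421168) (a (l 17420072) (l 17412608))) (l 17389272)) (a (l 17315656) (a (l 17228944) (l 17115136))))) (a (a (a (l 17821320) (b (a (l 17756336) (l 17770800)) (l 17909248))) (b (l 17787144) (l 17941608))) (b (a (l 17808064)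 (l 17780904)) (a (l 18003664) (l 18048792)))))) (a (a (b (l 17821240) (l 17845712)) (a (a (l 17934256) (b (l 17931984) (l 17947552))) (b (a (l 17948800) (l 17967680)) (a (l 17960832) (l 17975720))))) (a (a (a (b (l 17984680) (l 17988168)) (b (l 18005752) (l 18004584))) (b (l 18030128) (l 18011512))) (b (a (l 18063488) (l 18108216)) (l 18038144))))) (b (a (a (b (l 1) (b (a (l 17689184) (b (l 1) (l 17692552))) (a (l 18078904) (l 18041784)))) (b (l 1) (b (l 1) (a (l 17920944) (l 1))))) (l 1)) (a (a (b (b (a (l 18178672) (l 18237032)) (l 18195720)) (l 18136128)) (b (b (a (l 18263872) (l 18210968)) (l 18317672)) (l 18242376))) (a (b (b (l 1) (a (l 18374376) (l 3))) (l 18345912)) (b (l 1) (l 3)))))), by decide +kernel⟩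

theorem c_pm_202_b : CertF 1073741824 536870912 1239849684 370763052 134217728 67108864 false true false .pp 2 0 2
    ndF3q2 ndF2q2b pcF0 Cut.none Ext.none :=
  certF0 (fam := false) (s1 := true) (s2 := false) (a := 2) (b := 0) (c := 2) (cn := .pp) (n1 := ndF3q2) (n2 := ndF2q2b) (pc := pcF0) (cut := Cut.none) (xt := Ext.none) (P1 := 1073741824) (W1 := 536870912) (P2 := 1239849684) (W2 := 370763052) (P3 := 134217728) (W3 := 67108864)
    rfl k0_pm_202_b

noncomputable def f_pm_203 : ℕ → ℕ → ℕ → ℕ → Bool := onCell 1073741824 536870912 1610612736 536870912 134217728 67108864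
    (rowF 0 false true false .up 2 0 3 (qsf 1073741824 536870912 1610612736 536870912 0) ndF3q2 ndF2q3 pcF0 Cut.none Ext.none)

def k0_pm_203 : ∃ t, chk3 f_pm_203 t 1 1 1 = true :=
  ⟨(a (b (a (b (a (l 17975768) (a (a (l 18011008) (l 18009424)) (a (l 18003968) (l 18001152)))) (a (l 2) (a (l 2) (a (l 2) (l 17811104))))) (a (b (a (a (l 17995320) (l 17994416)) (l 17976760)) (a (a (l 17796288) (l 17787896)) (l 17756104))) (b (a (l 17959880) (l 17952008)) (b (l 17772960) (l 17636064))))) (a (l 2) (a (l 2) (b (b (l 17491408) (l 2)) (l 2))))) (b (a (b (a (l 17988776) (l 18074376)) (a (l 17728728) (l 3))) (b (l 3) (l 3))) (b (a (l 3) (l 3)) (l 3)))), by decide +kernel⟩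

theorem c_pm_203 : CertF 1073741824 536870912 1610612736 536870912 134217728 67108864 false true false .up 2 0 3
    ndF3q2 ndF2q3 pcF0 Cut.none Ext.none :=
  certF0 (fam := false) (s1 := true) (s2 := false) (a := 2) (b := 0) (c := 3) (cn := .up) (n1 := ndF3q2) (n2 := ndF2q3) (pc := pcF0) (cut := Cut.none) (xt := Ext.none) (P1 := 1073741824) (W1 := 536870912) (P2 := 1610612736) (W2 := 536870912) (P3 := 134217728) (W3 := 67108864)
    rfl k0_pm_203

noncomputable def f_pm_213 : ℕ → ℕ → ℕ → ℕ → Bool := onCell 1073741824 536870912 1610612736 536870912 134217728 67108864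
    (rowF 0 false true false .pnn 2 1 3 (qsf 1073741824 536870912 1610612736 536870912 1) ndF3q2 ndF2q3 pcF1 Cut.none Ext.none)

def k0_pm_213 : ∃ t, chk3 f_pm_213 t 1 1 1 = true :=
  ⟨(a (b (a (b (a (l 17695608) (a (a (l 17716136) (l 17717472)) (l 115999782855))) (a (l 17594176) (a (a (l 17588152) (l 17594888)) (a (l 17597408) (l 17601608))))) (a (b (a (a (l 17719144) (l 1)) (l 1)) (a (a (l 17603944) (l 17635208)) (l 17613104))) (b (l 1) (b (l 17681936) (l 17587360))))) (a (b (a (l 17304056) (a (a (l 17366328) (l 17376912)) (l 17583768))) (a (l 17287752) (a (a (l 17090104) (l 17096216)) (a (l 17099728) (l 17105672))))) (a (b (a (a (l 17395888) (l 17406696)) (l 17403440)) (a (a (l 17110032) (l 17141568)) (l 17118056))) (b (a (l 17409840) (l 17479336)) (b (l 17205016) (l 3)))))) (b (a (b (l 1) (a (b (l 1) (l 17675832)) (l 1))) (l 1)) (b (a (l 3) (l 3)) (l 3)))), by decide +kernel⟩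

theorem c_pm_213 : CertF 1073741824 536870912 1610612736 536870912 134217728 67108864 false true false .pnn 2 1 3
    ndF3q2 ndF2q3 pcF1 Cut.none Ext.none :=
  certF0 (fam := false) (s1 := true) (s2 := false) (a := 2) (b := 1) (c := 3) (cn := .pnn) (n1 := ndF3q2) (n2 := ndF2q3) (pc := pcF1) (cut := Cut.none) (xt := Ext.none) (P1 := 1073741824) (W1 := 536870912) (P2 := 1610612736) (W2 := 536870912) (P3 := 134217728) (W3 := 67108864)
    rfl k0_pm_213

noncomputable def f_pm_303 : ℕ → ℕ → ℕ → ℕ → Bool := onCell 0 1230186008 1610612736 536870912 134217728 67108864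
    (rowF 0 false true false .npn 3 0 3 (qsf 0 1230186008 1610612736 536870912 0) ndF3q3 ndF2q3 pcF0 Cut.none Ext.none)

def k0_pm_303 : ∃ t, chk3 f_pm_303 t 1 1 1 = true :=
  ⟨(a (l 3) (a (l 3) (b (l 3) (l 3)))), by decide +kernel⟩

theorem c_pm_303 : CertF 0 1230186008 1610612736 536870912 134217728 67108864 false true false .npn 3 0 3
    ndF3q3 ndF2q3 pcF0 Cut.none Ext.none :=
  certF0 (fam := false) (s1 := true) (s2 := false) (a := 3) (b := 0) (c := 3) (cn := .npn) (n1 := ndF3q3) (n2 := ndF2q3) (pc := pcF0) (cut := Cut.none) (xt := Ext.none) (P1 := 0) (W1 := 1230186008) (P2 := 1610612736) (W2 := 536870912) (P3 := 134217728) (W3 := 67108864)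
    rfl k0_pm_303

noncomputable def f_pm_313 : ℕ → ℕ → ℕ → ℕ → Bool := onCell 0 1230186008 1610612736 536870912 134217728 67108864
    (rowF 0 false true false .dn 3 1 3 (qsf 0 1230186008 1610612736 536870912 1) ndF3q3 ndF2q3 pcF1 Cut.none Ext.none)

def k0_pm_313 : ∃ t, chk3 f_pm_313 t 1 1 1 = true :=
  ⟨(a (l 1) (b (l 1) (l 3))), by decide +kernel⟩

theorem c_pm_313 : CertF 0 1230186008 1610612736 536870912 134217728 67108864 false true false .dn 3 1 3
    ndF3q3 ndF2q3 pcF1 Cut.none Ext.none :=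
  certF0 (fam := false) (s1 := true) (s2 := false) (a := 3) (b := 1) (c := 3) (cn := .dn) (n1 := ndF3q3) (n2 := ndF2q3) (pc := pcF1) (cut := Cut.none) (xt := Ext.none) (P1 := 0) (W1 := 1230186008) (P2 := 1610612736) (W2 := 536870912) (P3 := 134217728) (W3 := 67108864)
    rfl k0_pm_313

noncomputable def f_mm_001 : ℕ → ℕ → ℕ → ℕ → Bool := onCell 0 536870912 536870912 536870912 134217728 67108864
    (rowF 0 false false false .up 0 0 1 (qsf 0 536870912 536870912 536870912 0) ndF3q0 ndF2q1 pcF0 Cut.none Ext.none)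

def k0_mm_001 : ∃ t, chk3 f_mm_001 t 1 1 1 = true :=
  ⟨(l 3), by decide +kernel⟩

theorem c_mm_001 : CertF 0 536870912 536870912 536870912 134217728 67108864 false false false .up 0 0 1
    ndF3q0 ndF2q1 pcF0 Cut.none Ext.none :=
  certF0 (fam := false) (s1 := false) (s2 := false) (a := 0) (b := 0) (c := 1) (cn := .up) (n1 := ndF3q0) (n2 := ndF2q1) (pc := pcF0) (cut := Cut.none) (xt := Ext.none) (P1 := 0) (W1 := 536870912) (P2 := 536870912) (W2 := 536870912) (P3 := 134217728) (W3 := 67108864)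
    rfl k0_mm_001

noncomputable def f_mm_011 : ℕ → ℕ → ℕ → ℕ → Bool := onCell 0 536870912 536870912 536870912 134217728 67108864
    (rowF 0 false false false .pnn 0 1 1 (qsf 0 536870912 536870912 536870912 1) ndF3q0 ndF2q1 pcF1 Cut.none Ext.none)

def k0_mm_011 : ∃ t, chk3 f_mm_011 t 1 1 1 = true :=
  ⟨(l 3), by decide +kernel⟩

theorem c_mm_011 : CertF 0 536870912 536870912 536870912 134217728 67108864 false false false .pnn 0 1 1
    ndF3q0 ndF2q1 pcF1 Cut.none Ext.none :=
  certF0 (fam := false) (s1 := false) (s2 := false) (a := 0) (b := 1) (c := 1) (cn := .pnn) (n1 := ndF3q0) (n2 := ndF2q1) (pc := pcF1) (cut := Cut.none) (xt := Ext.none) (P1 := 0) (W1 := 536870912) (P2 := 536870912) (W2 := 536870912) (P3 := 134217728) (W3 := 67108864)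
    rfl k0_mm_011

noncomputable def f_mm_012_a : ℕ → ℕ → ℕ → ℕ → Bool := onCell 0 536870912 0 536870912 134217728 67108864
    (rowF 0 false false false .pnp 0 1 2 (qsf 0 536870912 0 536870912 1) ndF3q0 ndF2q2a pcF1 Cut.none Ext.none)

def k0_mm_012_a : ∃ t, chk3 f_mm_012_a t 1 1 1 = true :=
  ⟨(l 5), by decide +kernel⟩

theorem c_mm_012_a : CertF 0 536870912 0 536870912 134217728 67108864 false false false .pnp 0 1 2
    ndF3q0 ndF2q2a pcF1 Cut.none Ext.none :=
  certF0 (fam := false) (s1 := false) (s2 := false) (a := 0) (b := 1) (c := 2) (cn := .pnp) (n1 := ndF3q0) (n2 := ndF2q2a) (pc := pcF1) (cut := Cut.none) (xt := Ext.none) (P1 := 0) (W1 := 536870912) (P2 := 0) (W2 := 536870912) (P3 := 134217728) (W3 := 67108864)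
    rfl k0_mm_012_a

noncomputable def f_mm_012_b : ℕ → ℕ → ℕ → ℕ → Bool := onCell 0 536870912 1239849684 370763052 134217728 67108864
    (rowF 0 false false false .pnp 0 1 2 (qsf 0 536870912 1239849684 370763052 1) ndF3q0 ndF2q2b pcF1 Cut.none Ext.none)

def k0_mm_012_b : ∃ t, chk3 f_mm_012_b t 1 1 1 = true :=
  ⟨(l 5), by decide +kernel⟩

theorem c_mm_012_b : CertF 0 536870912 1239849684 370763052 134217728 67108864 false false false .pnp 0 1 2
    ndF3q0 ndF2q2b pcF1 Cut.none Ext.none :=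
  certF0 (fam := false) (s1 := false) (s2 := false) (a := 0) (b := 1) (c := 2) (cn := .pnp) (n1 := ndF3q0) (n2 := ndF2q2b) (pc := pcF1) (cut := Cut.none) (xt := Ext.none) (P1 := 0) (W1 := 536870912) (P2 := 1239849684) (W2 := 370763052) (P3 := 134217728) (W3 := 67108864)
    rfl k0_mm_012_b

noncomputable def f_mm_022_a : ℕ → ℕ → ℕ → ℕ → Bool := onCell 0 536870912 0 536870912 134217728 67108864
    (rowF 0 false false false .pp 0 2 2 (qsf 0 536870912 0 536870912 2) ndF3q0 ndF2q2a pcF2 Cut.none Ext.none)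

def k0_mm_022_a : ∃ t, chk3 f_mm_022_a t 1 1 1 = true :=
  ⟨(l 5), by decide +kernel⟩

theorem c_mm_022_a : CertF 0 536870912 0 536870912 134217728 67108864 false false false .pp 0 2 2
    ndF3q0 ndF2q2a pcF2 Cut.none Ext.none :=
  certF0 (fam := false) (s1 := false) (s2 := false) (a := 0) (b := 2) (c := 2) (cn := .pp) (n1 := ndF3q0) (n2 := ndF2q2a) (pc := pcF2) (cut := Cut.none) (xt := Ext.none) (P1 := 0) (W1 := 536870912) (P2 := 0) (W2 := 536870912) (P3 := 134217728) (W3 := 67108864)
    rfl k0_mm_022_a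

noncomputable def f_mm_022_b : ℕ → ℕ → ℕ → ℕ → Bool := onCell 0 536870912 1239849684 370763052 134217728 67108864
    (rowF 0 false false false .pp 0 2 2 (qsf 0 536870912 1239849684 370763052 2) ndF3q0 ndF2q2b pcF2 Cut.none Ext.none)

def k0_mm_022_b : ∃ t, chk3 f_mm_022_b t 1 1 1 = true :=
  ⟨(l 5), by decide +kernel⟩

theorem c_mm_022_b : CertF 0 536870912 1239849684 370763052 134217728 67108864 false false false .pp 0 2 2
    ndF3q0 ndF2q2b pcF2 Cut.none Ext.none :=
  certF0 (fam := false) (s1 := false) (s2 := false) (a := 0) (b := 2) (c := 2) (cn := .pp) (n1 := ndF3q0) (n2 := ndF2q2b) (pc := pcF2) (cut := Cut.none) (xt := Ext.none) (P1 := 0) (W1 := 536870912) (P2 := 1239849684) (W2 := 370763052) (P3 := 134217728) (W3 := 67108864)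
    rfl k0_mm_022_b

noncomputable def f_mm_023 : ℕ → ℕ → ℕ → ℕ → Bool := onCell 0 536870912 1610612736 536870912 134217728 67108864
    (rowF 0 false false false .up 0 2 3 (qsf 0 536870912 1610612736 536870912 2) ndF3q0 ndF2q3 pcF2 Cut.none Ext.none)

def k0_mm_023 : ∃ t, chk3 f_mm_023 t 1 1 1 = true :=
  ⟨(l 5), by decide +kernel⟩

theorem c_mm_023 : CertF 0 536870912 1610612736 536870912 134217728 67108864 false false false .up 0 2 3
    ndF3q0 ndF2q3 pcF2 Cut.none Ext.none :=
  certF0 (fam := false) (s1 := false) (s2 := false) (a := 0) (b := 2) (c := 3) (cn := .up) (n1 := ndF3q0) (n2 := ndF2q3) (pc := pcF2) (cut := Cut.none) (xt := Ext.none) (P1 := 0) (W1 := 536870912) (P2 := 1610612736) (W2 := 536870912) (P3 := 134217728) (W3 := 67108864)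
    rfl k0_mm_023

noncomputable def f_mm_033 : ℕ → ℕ → ℕ → ℕ → Bool := onCell 0 536870912 1610612736 536870912 134217728 67108864
    (rowF 0 false false false .pnn 0 3 3 (qsf 0 536870912 1610612736 536870912 3) ndF3q0 ndF2q3 pcF3 Cut.none Ext.none)

def k0_mm_033 : ∃ t, chk3 f_mm_033 t 1 1 1 = true :=
  ⟨(l 5), by decide +kernel⟩

theorem c_mm_033 : CertF 0 536870912 1610612736 536870912 134217728 67108864 false false false .pnn 0 3 3
    ndF3q0 ndF2q3 pcF3 Cut.none Ext.none :=
  certF0 (fam := false) (s1 := false) (s2 := false) (a := 0) (b := 3) (c := 3) (cn := .pnn) (n1 := ndF3q0) (n2 := ndF2q3) (pc := pcF3) (cut := Cut.none) (xt := Ext.none) (P1 := 0) (W1 := 536870912) (P2 := 1610612736) (W2 := 536870912) (P3 := 134217728) (W3 := 67108864)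
    rfl k0_mm_033

noncomputable def f_mm_101 : ℕ → ℕ → ℕ → ℕ → Bool := onCell 536870912 536870912 536870912 536870912 134217728 67108864
    (rowF 0 false false false .npn 1 0 1 (qsf 536870912 536870912 536870912 536870912 0) ndF3q1 ndF2q1 pcF0 Cut.none Ext.none)

def k0_mm_101 : ∃ t, chk3 f_mm_101 t 1 1 1 = true :=
  ⟨(l 3), by decide +kernel⟩

theorem c_mm_101 : CertF 536870912 536870912 536870912 536870912 134217728 67108864 false false false .npn 1 0 1
    ndF3q1 ndF2q1 pcF0 Cut.none Ext.none :=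
  certF0 (fam := false) (s1 := false) (s2 := false) (a := 1) (b := 0) (c := 1) (cn := .npn) (n1 := ndF3q1) (n2 := ndF2q1) (pc := pcF0) (cut := Cut.none) (xt := Ext.none) (P1 := 536870912) (W1 := 536870912) (P2 := 536870912) (W2 := 536870912) (P3 := 134217728) (W3 := 67108864)
    rfl k0_mm_101

noncomputable def f_mm_102_a : ℕ → ℕ → ℕ → ℕ → Bool := onCell 536870912 536870912 0 536870912 134217728 67108864
    (rowF 0 false false false .npp 1 0 2 (qsf 536870912 536870912 0 536870912 0) ndF3q1 ndF2q2a pcF0 Cut.none Ext.none)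

def k0_mm_102_a : ∃ t, chk3 f_mm_102_a t 1 1 1 = true :=
  ⟨(l 5), by decide +kernel⟩

theorem c_mm_102_a : CertF 536870912 536870912 0 536870912 134217728 67108864 false false false .npp 1 0 2
    ndF3q1 ndF2q2a pcF0 Cut.none Ext.none :=
  certF0 (fam := false) (s1 := false) (s2 := false) (a := 1) (b := 0) (c := 2) (cn := .npp) (n1 := ndF3q1) (n2 := ndF2q2a) (pc := pcF0) (cut := Cut.none) (xt := Ext.none) (P1 := 536870912) (W1 := 536870912) (P2 := 0) (W2 := 536870912) (P3 := 134217728) (W3 := 67108864)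
    rfl k0_mm_102_a

noncomputable def f_mm_102_b : ℕ → ℕ → ℕ → ℕ → Bool := onCell 536870912 536870912 1239849684 370763052 134217728 67108864
    (rowF 0 false false false .npp 1 0 2 (qsf 536870912 536870912 1239849684 370763052 0) ndF3q1 ndF2q2b pcF0 Cut.none Ext.none)

def k0_mm_102_b : ∃ t, chk3 f_mm_102_b t 1 1 1 = true :=
  ⟨(l 5), by decide +kernel⟩

theorem c_mm_102_b : CertF 536870912 536870912 1239849684 370763052 134217728 67108864 false false false .npp 1 0 2
    ndF3q1 ndF2q2b pcF0 Cut.none Ext.none :=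
  certF0 (fam := false) (s1 := false) (s2 := false) (a := 1) (b := 0) (c := 2) (cn := .npp) (n1 := ndF3q1) (n2 := ndF2q2b) (pc := pcF0) (cut := Cut.none) (xt := Ext.none) (P1 := 536870912) (W1 := 536870912) (P2 := 1239849684) (W2 := 370763052) (P3 := 134217728) (W3 := 67108864)
    rfl k0_mm_102_b

noncomputable def f_mm_112_a : ℕ → ℕ → ℕ → ℕ → Bool := onCell 536870912 536870912 0 536870912 134217728 67108864
    (rowF 0 false false false .dn 1 1 2 (qsf 536870912 536870912 0 536870912 1) ndF3q1 ndF2q2a pcF1 Cut.none Ext.none)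

def k0_mm_112_a : ∃ t, chk3 f_mm_112_a t 1 1 1 = true :=
  ⟨(l 5), by decide +kernel⟩

theorem c_mm_112_a : CertF 536870912 536870912 0 536870912 134217728 67108864 false false false .dn 1 1 2
    ndF3q1 ndF2q2a pcF1 Cut.none Ext.none :=
  certF0 (fam := false) (s1 := false) (s2 := false) (a := 1) (b := 1) (c := 2) (cn := .dn) (n1 := ndF3q1) (n2 := ndF2q2a) (pc := pcF1) (cut := Cut.none) (xt := Ext.none) (P1 := 536870912) (W1 := 536870912) (P2 := 0) (W2 := 536870912) (P3 := 134217728) (W3 := 67108864)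
    rfl k0_mm_112_a

noncomputable def f_mm_112_b : ℕ → ℕ → ℕ → ℕ → Bool := onCell 536870912 536870912 1239849684 370763052 134217728 67108864
    (rowF 0 false false false .dn 1 1 2 (qsf 536870912 536870912 1239849684 370763052 1) ndF3q1 ndF2q2b pcF1 Cut.none Ext.none)

def k0_mm_112_b : ∃ t, chk3 f_mm_112_b t 1 1 1 = true :=
  ⟨(l 5), by decide +kernel⟩

theorem c_mm_112_b : CertF 536870912 536870912 1239849684 370763052 134217728 67108864 false false false .dn 1 1 2
    ndF3q1 ndF2q2b pcF1 Cut.none Ext.none :=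
  certF0 (fam := false) (s1 := false) (s2 := false) (a := 1) (b := 1) (c := 2) (cn := .dn) (n1 := ndF3q1) (n2 := ndF2q2b) (pc := pcF1) (cut := Cut.none) (xt := Ext.none) (P1 := 536870912) (W1 := 536870912) (P2 := 1239849684) (W2 := 370763052) (P3 := 134217728) (W3 := 67108864)
    rfl k0_mm_112_b

noncomputable def f_mm_113 : ℕ → ℕ → ℕ → ℕ → Bool := onCell 536870912 536870912 1610612736 536870912 134217728 67108864
    (rowF 0 false false false .nn 1 1 3 (qsf 536870912 536870912 1610612736 536870912 1) ndF3q1 ndF2q3 pcF1 Cut.none Ext.none)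

def k0_mm_113 : ∃ t, chk3 f_mm_113 t 1 1 1 = true :=
  ⟨(l 5), by decide +kernel⟩

theorem c_mm_113 : CertF 536870912 536870912 1610612736 536870912 134217728 67108864 false false false .nn 1 1 3
    ndF3q1 ndF2q3 pcF1 Cut.none Ext.none :=
  certF0 (fam := false) (s1 := false) (s2 := false) (a := 1) (b := 1) (c := 3) (cn := .nn) (n1 := ndF3q1) (n2 := ndF2q3) (pc := pcF1) (cut := Cut.none) (xt := Ext.none) (P1 := 536870912) (W1 := 536870912) (P2 := 1610612736) (W2 := 536870912) (P3 := 134217728) (W3 := 67108864)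
    rfl k0_mm_113

noncomputable def f_mm_123 : ℕ → ℕ → ℕ → ℕ → Bool := onCell 536870912 536870912 1610612736 536870912 134217728 67108864
    (rowF 0 false false false .npn 1 2 3 (qsf 536870912 536870912 1610612736 536870912 2) ndF3q1 ndF2q3 pcF2 Cut.none Ext.none)

def k0_mm_123 : ∃ t, chk3 f_mm_123 t 1 1 1 = true :=
  ⟨(l 5), by decide +kernel⟩

theorem c_mm_123 : CertF 536870912 536870912 1610612736 536870912 134217728 67108864 false false false .npn 1 2 3
    ndF3q1 ndF2q3 pcF2 Cut.none Ext.none :=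
  certF0 (fam := false) (s1 := false) (s2 := false) (a := 1) (b := 2) (c := 3) (cn := .npn) (n1 := ndF3q1) (n2 := ndF2q3) (pc := pcF2) (cut := Cut.none) (xt := Ext.none) (P1 := 536870912) (W1 := 536870912) (P2 := 1610612736) (W2 := 536870912) (P3 := 134217728) (W3 := 67108864)
    rfl k0_mm_123

noncomputable def f_mm_133 : ℕ → ℕ → ℕ → ℕ → Bool := onCell 536870912 536870912 1610612736 536870912 134217728 67108864
    (rowF 0 false false false .dn 1 3 3 (qsf 536870912 536870912 1610612736 536870912 3) ndF3q1 ndF2q3 pcF3 Cut.none Ext.none)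

def k0_mm_133 : ∃ t, chk3 f_mm_133 t 1 1 1 = true :=
  ⟨(l 5), by decide +kernel⟩

theorem c_mm_133 : CertF 536870912 536870912 1610612736 536870912 134217728 67108864 false false false .dn 1 3 3
    ndF3q1 ndF2q3 pcF3 Cut.none Ext.none :=
  certF0 (fam := false) (s1 := false) (s2 := false) (a := 1) (b := 3) (c := 3) (cn := .dn) (n1 := ndF3q1) (n2 := ndF2q3) (pc := pcF3) (cut := Cut.none) (xt := Ext.none) (P1 := 536870912) (W1 := 536870912) (P2 := 1610612736) (W2 := 536870912) (P3 := 134217728) (W3 := 67108864)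
    rfl k0_mm_133

noncomputable def f_mm_202_a : ℕ → ℕ → ℕ → ℕ → Bool := onCell 1073741824 536870912 0 536870912 134217728 67108864
    (rowF 0 false false false .pp 2 0 2 (qsf 1073741824 536870912 0 536870912 0) ndF3q2 ndF2q2a pcF0 Cut.none Ext.none)

def k0_mm_202_a : ∃ t, chk3 f_mm_202_a t 1 1 1 = true :=
  ⟨(l 3), by decide +kernel⟩

theorem c_mm_202_a : CertF 1073741824 536870912 0 536870912 134217728 67108864 false false false .pp 2 0 2
    ndF3q2 ndF2q2a pcF0 Cut.none Ext.none :=
  certF0 (fam := false) (s1 := false) (s2 := false) (a := 2) (b := 0) (c := 2) (cn := .pp) (n1 := ndF3q2) (n2 := ndF2q2a) (pc := pcF0) (cut := Cut.none) (xt := Ext.none) (P1 := 1073741824) (W1 := 536870912) (P2 := 0) (W2 := 536870912) (P3 := 134217728) (W3 := 67108864)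
    rfl k0_mm_202_a

noncomputable def f_mm_202_b : ℕ → ℕ → ℕ → ℕ → Bool := onCell 1073741824 536870912 1239849684 370763052 134217728 67108864
    (rowF 0 false false false .pp 2 0 2 (qsf 1073741824 536870912 1239849684 370763052 0) ndF3q2 ndF2q2b pcF0 Cut.none Ext.none)

def k0_mm_202_b : ∃ t, chk3 f_mm_202_b t 1 1 1 = true :=
  ⟨(l 3), by decide +kernel⟩

theorem c_mm_202_b : CertF 1073741824 536870912 1239849684 370763052 134217728 67108864 false false false .pp 2 0 2
    ndF3q2 ndF2q2b pcF0 Cut.none Ext.none :=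
  certF0 (fam := false) (s1 := false) (s2 := false) (a := 2) (b := 0) (c := 2) (cn := .pp) (n1 := ndF3q2) (n2 := ndF2q2b) (pc := pcF0) (cut := Cut.none) (xt := Ext.none) (P1 := 1073741824) (W1 := 536870912) (P2 := 1239849684) (W2 := 370763052) (P3 := 134217728) (W3 := 67108864)
    rfl k0_mm_202_b

noncomputable def f_mm_203 : ℕ → ℕ → ℕ → ℕ → Bool := onCell 1073741824 536870912 1610612736 536870912 134217728 67108864
    (rowF 0 false false false .up 2 0 3 (qsf 1073741824 536870912 1610612736 536870912 0) ndF3q2 ndF2q3 pcF0 Cut.none Ext.none)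

def k0_mm_203 : ∃ t, chk3 f_mm_203 t 1 1 1 = true :=
  ⟨(l 5), by decide +kernel⟩

theorem c_mm_203 : CertF 1073741824 536870912 1610612736 536870912 134217728 67108864 false false false .up 2 0 3
    ndF3q2 ndF2q3 pcF0 Cut.none Ext.none :=
  certF0 (fam := false) (s1 := false) (s2 := false) (a := 2) (b := 0) (c := 3) (cn := .up) (n1 := ndF3q2) (n2 := ndF2q3) (pc := pcF0) (cut := Cut.none) (xt := Ext.none) (P1 := 1073741824) (W1 := 536870912) (P2 := 1610612736) (W2 := 536870912) (P3 := 134217728) (W3 := 67108864)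
    rfl k0_mm_203

noncomputable def f_mm_213 : ℕ → ℕ → ℕ → ℕ → Bool := onCell 1073741824 536870912 1610612736 536870912 134217728 67108864
    (rowF 0 false false false .pnn 2 1 3 (qsf 1073741824 536870912 1610612736 536870912 1) ndF3q2 ndF2q3 pcF1 Cut.none Ext.none)

def k0_mm_213 : ∃ t, chk3 f_mm_213 t 1 1 1 = true :=
  ⟨(l 5), by decide +kernel⟩

theorem c_mm_213 : CertF 1073741824 536870912 1610612736 536870912 134217728 67108864 false false false .pnn 2 1 3
    ndF3q2 ndF2q3 pcF1 Cut.none Ext.none :=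
  certF0 (fam := false) (s1 := false) (s2 := false) (a := 2) (b := 1) (c := 3) (cn := .pnn) (n1 := ndF3q2) (n2 := ndF2q3) (pc := pcF1) (cut := Cut.none) (xt := Ext.none) (P1 := 1073741824) (W1 := 536870912) (P2 := 1610612736) (W2 := 536870912) (P3 := 134217728) (W3 := 67108864)
    rfl k0_mm_213

noncomputable def f_mm_303 : ℕ → ℕ → ℕ → ℕ → Bool := onCell 0 1230186008 1610612736 536870912 134217728 67108864
    (rowF 0 false false false .npn 3 0 3 (qsf 0 1230186008 1610612736 536870912 0) ndF3q3 ndF2q3 pcF0 Cut.none Ext.none)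

def k0_mm_303 : ∃ t, chk3 f_mm_303 t 1 1 1 = true :=
  ⟨(a (l 3) (l 3)), by decide +kernel⟩

theorem c_mm_303 : CertF 0 1230186008 1610612736 536870912 134217728 67108864 false false false .npn 3 0 3
    ndF3q3 ndF2q3 pcF0 Cut.none Ext.none :=
  certF0 (fam := false) (s1 := false) (s2 := false) (a := 3) (b := 0) (c := 3) (cn := .npn) (n1 := ndF3q3) (n2 := ndF2q3) (pc := pcF0) (cut := Cut.none) (xt := Ext.none) (P1 := 0) (W1 := 1230186008) (P2 := 1610612736) (W2 := 536870912) (P3 := 134217728) (W3 := 67108864)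
    rfl k0_mm_303

noncomputable def f_mm_313 : ℕ → ℕ → ℕ → ℕ → Bool := onCell 0 1230186008 1610612736 536870912 134217728 67108864
    (rowF 0 false false false .dn 3 1 3 (qsf 0 1230186008 1610612736 536870912 1) ndF3q3 ndF2q3 pcF1 Cut.none Ext.none)

def k0_mm_313 : ∃ t, chk3 f_mm_313 t 1 1 1 = true :=
  ⟨(a (l 1) (l 3)), by decide +kernel⟩

theorem c_mm_313 : CertF 0 1230186008 1610612736 536870912 134217728 67108864 false false false .dn 3 1 3
    ndF3q3 ndF2q3 pcF1 Cut.none Ext.none :=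
  certF0 (fam := false) (s1 := false) (s2 := false) (a := 3) (b := 1) (c := 3) (cn := .dn) (n1 := ndF3q3) (n2 := ndF2q3) (pc := pcF1) (cut := Cut.none) (xt := Ext.none) (P1 := 0) (W1 := 1230186008) (P2 := 1610612736) (W2 := 536870912) (P3 := 134217728) (W3 := 67108864)
    rfl k0_mm_313

end Pool.Agent.Strip051.G.I1_8_3_16.Tab.C.FB32

namespace Pool.Agent.Strip051.G.I1_8_3_16.Tab.C.FB33

open Pool.Agent.Strip051.PB Pool.Agent.Strip051.PB.T
open Pool.Agent.Strip051.G.I1_8_3_16.Tab

noncomputable def f_pp_001 : ℕ → ℕ → ℕ → ℕ → Bool := onCell 0 536870912 536870912 536870912 134217728 67108864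
    (rowF 0 false true true .up 0 0 1 (qsf 0 536870912 536870912 536870912 0) ndF3q0 ndF3q1 pcF0 Cut.none Ext.none)

def k0_pp_001 : ∃ t, chk3 f_pp_001 t 1 1 1 = true :=
  ⟨(l 3), by decide +kernel⟩

theorem c_pp_001 : CertF 0 536870912 536870912 536870912 134217728 67108864 false true true .up 0 0 1
    ndF3q0 ndF3q1 pcF0 Cut.none Ext.none :=
  certF0 (fam := false) (s1 := true) (s2 := true) (a := 0) (b := 0) (c := 1) (cn := .up) (n1 := ndF3q0) (n2 := ndF3q1) (pc := pcF0) (cut := Cut.none) (xt := Ext.none) (P1 := 0) (W1 := 536870912) (P2 := 536870912) (W2 := 536870912) (P3 := 134217728) (W3 := 67108864)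
    rfl k0_pp_001

noncomputable def f_pp_011 : ℕ → ℕ → ℕ → ℕ → Bool := onCell 0 536870912 536870912 536870912 134217728 67108864
    (rowF 0 false true true .pnn 0 1 1 (qsf 0 536870912 536870912 536870912 1) ndF3q0 ndF3q1 pcF1 Cut.none Ext.none)

def k0_pp_011 : ∃ t, chk3 f_pp_011 t 1 1 1 = true :=
  ⟨(l 3), by decide +kernel⟩

theorem c_pp_011 : CertF 0 536870912 536870912 536870912 134217728 67108864 false true true .pnn 0 1 1
    ndF3q0 ndF3q1 pcF1 Cut.none Ext.none :=
  certF0 (fam := false) (s1 := true) (s2 := true) (a := 0) (b := 1) (c := 1) (cn := .pnn) (n1 := ndF3q0) (n2 := ndF3q1) (pc := pcF1) (cut := Cut.none) (xt := Ext.none) (P1 := 0) (W1 := 536870912) (P2 := 536870912) (W2 := 536870912) (P3 := 134217728) (W3 := 67108864)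
    rfl k0_pp_011

noncomputable def f_pp_012 : ℕ → ℕ → ℕ → ℕ → Bool := onCell 536870912 536870912 1073741824 536870912 134217728 67108864
    (rowF 2 false true true .pnp 0 1 2 (qsf 0 536870912 1073741824 536870912 1) ndF3q0 ndF3q2 pcF1 Cut.none Ext.none)

def k0_pp_012 : ∃ t, chk3 f_pp_012 t 1 1 1 = true :=
  ⟨(a (b (a (l 3) (b (l 3) (b (b (l 3) (l 17098952)) (l 17127240)))) (a (l 2) (b (l 16944808) (l 2)))) (b (a (b (a (l 3) (b (l 3) (b (l 3) (l 17219208)))) (b (b (b (l 17138312) (l 17112512)) (l 17052544)) (l 16986992))) (b (b (a (l 3) (l 375442106423)) (b (b (l 17476112) (a (l 17251696) (l 17318464))) (b (a (l 17224560) (l 17339048)) (l 17316024)))) (b (b (b (l 17222856) (a (l 17154864) (l 17312752))) (l 17235288)) (l 17295008)))) (a (l 17292624) (b (l 17367680) (l 17519944))))), by decide +kernel⟩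

theorem c_pp_012 : CertF 0 536870912 1073741824 536870912 134217728 67108864 false true true .pnp 0 1 2
    ndF3q0 ndF3q2 pcF1 Cut.none Ext.none :=
  certF2 (fam := false) (s1 := true) (s2 := true) (a := 0) (b := 1) (c := 2) (cn := .pnp) (n1 := ndF3q0) (n2 := ndF3q2) (pc := pcF1) (cut := Cut.none) (xt := Ext.none) (P1 := 0) (W1 := 536870912) (P2 := 1073741824) (W2 := 536870912) (P3 := 134217728) (W3 := 67108864)
    rfl (fun _ => rfl) k0_pp_012

noncomputable def f_pp_022 : ℕ → ℕ → ℕ → ℕ → Bool := onCell 1073741824 536870912 1073741824 536870912 134217728 67108864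
    (rowF 2 false true true .pp 0 2 2 (qsf 0 536870912 1073741824 536870912 2) ndF3q0 ndF3q2 pcF2 Cut.none Ext.none)

def k0_pp_022 : ∃ t, chk3 f_pp_022 t 2 1 1 = true :=
  ⟨(b (a (b (a (b (b (a (a (l 3) (l 262698599639)) (a (c (l 363496283927) (l 328062623831)) (l 1))) (a (c (l 17402248) (l 17295936)) (b (a (l 17297960) (l 346316326071)) (l 17313384)))) (b (b (a (l 17377400) (l 17330672)) (a (l 17375416) (l 17334352))) (b (l 17346544) (l 17340312)))) (b (a (a (b (l 1) (b (l 1) (l 17276720))) (l 1)) (l 1)) (b (a (b (l 17284408) (a (l 17297776) (l 17275264))) (b (l 1) (l 17404048))) (a (b (a (l 17293800) (l 17269992)) (a (l 17290896) (l 17266960))) (b (l 339337385255) (l 17230520)))))) (a (b (b (b (l 17328840) (l 17320736)) (l 17276600)) (l 17478912)) (a (b (b (b (a (l 17283808) (l 17260360)) (a (l 17279952) (l 17256952))) (a (l 17244136) (l 17222320))) (a (l 17448720) (l 17416440))) (b (b (b (l 17222224) (b (l 17212960) (l 17208808))) (l 17196896)) (a (l 17378344) (l 17338832))))))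 (b (a (b (l 1) (b (l 1) (a (b (l 1) (a (l 17193440) (l 1))) (l 1)))) (l 1)) (a (b (b (a (b (l 391950756871) (a (l 17185176) (l 374233906679))) (b (l 1) (l 17330656))) (a (a (l 17151768) (l 17129016)) (l 17090056))) (a (a (l 17297144) (l 17381664)) (l 17193656))) (b (b (l 1) (a (l 17043544) (l 1))) (b (l 403761375847) (l 17269232)))))) (a (b (a (l 17780072) (a (a (l 17831720) (l 17835424)) (a (l 17833616) (l 17831568)))) (a (l 18021000) (a (l 18024760) (l 18068504)))) (a (b (a (a (l 17826016) (l 17990056)) (l 17802032)) (b (l 18020840) (l 18115960))) (b (b (l 17637464) (l 17875944)) (l 18065656))))), by decide +kernel⟩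

def k1_pp_022 : ∃ t, chk3 f_pp_022 t 3 1 1 = true :=
  ⟨(b (a (b (l 1) (a (b (l 1) (b (l 1) (l 17077928))) (l 1))) (l 1)) (b (a (b (a (l 17572912) (l 602404514935)) (l 242701866855)) (a (b (l 1) (l 670050876567)) (l 1))) (a (l 18078704) (b (l 619048540343) (l 18108064))))), by decide +kernel⟩

theorem s2_pp_022 : ∃ t, chk3 f_pp_022 t 1 1 1 = true := ex3_a k0_pp_022 k1_pp_022

theorem c_pp_022 : CertF 0 536870912 1073741824 536870912 134217728 67108864 false true true .pp 0 2 2
    ndF3q0 ndF3q2 pcF2 Cut.none Ext.none :=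
  certF2 (fam := false) (s1 := true) (s2 := true) (a := 0) (b := 2) (c := 2) (cn := .pp) (n1 := ndF3q0) (n2 := ndF3q2) (pc := pcF2) (cut := Cut.none) (xt := Ext.none) (P1 := 0) (W1 := 536870912) (P2 := 1073741824) (W2 := 536870912) (P3 := 134217728) (W3 := 67108864)
    rfl (fun _ => rfl) s2_pp_022

noncomputable def f_pp_023 : ℕ → ℕ → ℕ → ℕ → Bool := onCell 1073741824 536870912 0 1230186008 134217728 67108864
    (rowF 2 false true true .up 0 2 3 (qsf 0 536870912 0 1230186008 2) ndF3q0 ndF3q3 pcF2 Cut.none Ext.none)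

def k0_pp_023 : ∃ t, chk3 f_pp_023 t 1 1 1 = true :=
  ⟨(b (a (l 2) (a (l 2) (l 18073368))) (b (a (a (l 2) (l 18560176)) (a (l 18410272) (l 18194576))) (a (a (b (l 2) (a (l 18451600) (a (l 18406520) (l 18397560)))) (a (b (l 18481240) (l 18350880)) (l 18366120))) (b (l 18357688) (l 18105936))))), by decide +kernel⟩

theorem c_pp_023 : CertF 0 536870912 0 1230186008 134217728 67108864 false true true .up 0 2 3
    ndF3q0 ndF3q3 pcF2 Cut.none Ext.none :=
  certF2 (fam := false) (s1 := true) (s2 := true) (a := 0) (b := 2) (c := 3) (cn := .up) (n1 := ndF3q0) (n2 := ndF3q3) (pc := pcF2) (cut := Cut.none) (xt := Ext.none) (P1 := 0) (W1 := 536870912) (P2 := 0) (W2 := 1230186008) (P3 := 134217728) (W3 := 67108864)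
    rfl (fun _ => rfl) k0_pp_023

noncomputable def f_pp_033 : ℕ → ℕ → ℕ → ℕ → Bool := onCell 1610612736 536870912 0 1230186008 134217728 67108864
    (rowF 2 false true true .pnn 0 3 3 (qsf 0 536870912 0 1230186008 3) ndF3q0 ndF3q3 pcF3 Cut.none Ext.none)

def k0_pp_033 : ∃ t, chk3 f_pp_033 t 1 1 1 = true :=
  ⟨(b (a (a (l 4) (l 4)) (l 4)) (b (a (a (l 17666728) (l 17543960)) (a (a (l 17462312) (l 17372312)) (b (a (l 4) (l 1)) (l 1)))) (a (b (a (l 17547848) (a (l 17489608) (l 17436152))) (a (l 17485904) (b (a (l 17419656) (l 1)) (l 1)))) (l 1)))), by decide +kernel⟩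

theorem c_pp_033 : CertF 0 536870912 0 1230186008 134217728 67108864 false true true .pnn 0 3 3
    ndF3q0 ndF3q3 pcF3 Cut.none Ext.none :=
  certF2 (fam := false) (s1 := true) (s2 := true) (a := 0) (b := 3) (c := 3) (cn := .pnn) (n1 := ndF3q0) (n2 := ndF3q3) (pc := pcF3) (cut := Cut.none) (xt := Ext.none) (P1 := 0) (W1 := 536870912) (P2 := 0) (W2 := 1230186008) (P3 := 134217728) (W3 := 67108864)
    rfl (fun _ => rfl) k0_pp_033

noncomputable def f_pp_101 : ℕ → ℕ → ℕ → ℕ → Bool := onCell 536870912 536870912 536870912 536870912 134217728 67108864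
    (rowF 0 false true true .npn 1 0 1 (qsf 536870912 536870912 536870912 536870912 0) ndF3q1 ndF3q1 pcF0 Cut.none Ext.none)

def k0_pp_101 : ∃ t, chk3 f_pp_101 t 1 1 1 = true :=
  ⟨(l 3), by decide +kernel⟩

theorem c_pp_101 : CertF 536870912 536870912 536870912 536870912 134217728 67108864 false true true .npn 1 0 1
    ndF3q1 ndF3q1 pcF0 Cut.none Ext.none :=
  certF0 (fam := false) (s1 := true) (s2 := true) (a := 1) (b := 0) (c := 1) (cn := .npn) (n1 := ndF3q1) (n2 := ndF3q1) (pc := pcF0) (cut := Cut.none) (xt := Ext.none) (P1 := 536870912) (W1 := 536870912) (P2 := 536870912) (W2 := 536870912) (P3 := 134217728) (W3 := 67108864)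
    rfl k0_pp_101

noncomputable def f_pp_102 : ℕ → ℕ → ℕ → ℕ → Bool := onCell 536870912 536870912 0 536870912 134217728 67108864
    (rowF 1 false true true .npp 1 0 2 (qsf 536870912 536870912 1073741824 536870912 0) ndF3q1 ndF3q2 pcF0 Cut.none Ext.none)

def k0_pp_102 : ∃ t, chk3 f_pp_102 t 1 1 1 = true :=
  ⟨(a (l 3) (b (l 3) (b (l 3) (a (l 3) (a (b (l 3) (l 372224144375)) (l 381888189143)))))), by decide +kernel⟩

theorem c_pp_102 : CertF 536870912 536870912 1073741824 536870912 134217728 67108864 false true true .npp 1 0 2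
    ndF3q1 ndF3q2 pcF0 Cut.none Ext.none :=
  certF1 (fam := false) (s1 := true) (s2 := true) (a := 1) (b := 0) (c := 2) (cn := .npp) (n1 := ndF3q1) (n2 := ndF3q2) (pc := pcF0) (cut := Cut.none) (xt := Ext.none) (P1 := 536870912) (W1 := 536870912) (P2 := 1073741824) (W2 := 536870912) (P3 := 134217728) (W3 := 67108864)
    rfl (fun _ => rfl) k0_pp_102

noncomputable def f_pp_112 : ℕ → ℕ → ℕ → ℕ → Bool := onCell 536870912 536870912 1073741824 536870912 134217728 67108864
    (rowF 0 false true true .dn 1 1 2 (qsf 536870912 536870912 1073741824 536870912 1) ndF3q1 ndF3q2 pcF1 Cut.none Ext.none)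

def k0_pp_112 : ∃ t, chk3 f_pp_112 t 1 1 1 = true :=
  ⟨(a (b (b (l 3) (a (b (l 3) (l 309408893511)) (l 3))) (b (a (b (l 18264048) (l 18233664)) (b (l 18389936) (l 18393160))) (a (l 18121960) (l 18439200)))) (b (l 3) (a (b (a (l 354506633431) (b (l 3) (l 18737072))) (a (l 18510504) (b (l 18732536) (l 18669216)))) (b (a (l 3) (l 1)) (a (b (l 367929181815) (l 18887496)) (b (l 586838658647) (l 19091496))))))), by decide +kernel⟩

theorem c_pp_112 : CertF 536870912 536870912 1073741824 536870912 134217728 67108864 false true true .dn 1 1 2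
    ndF3q1 ndF3q2 pcF1 Cut.none Ext.none :=
  certF0 (fam := false) (s1 := true) (s2 := true) (a := 1) (b := 1) (c := 2) (cn := .dn) (n1 := ndF3q1) (n2 := ndF3q2) (pc := pcF1) (cut := Cut.none) (xt := Ext.none) (P1 := 536870912) (W1 := 536870912) (P2 := 1073741824) (W2 := 536870912) (P3 := 134217728) (W3 := 67108864)
    rfl k0_pp_112

noncomputable def f_pp_113 : ℕ → ℕ → ℕ → ℕ → Bool := onCell 536870912 536870912 0 1230186008 134217728 67108864
    (rowF 0 false true true .nn 1 1 3 (qsf 536870912 536870912 0 1230186008 1) ndF3q1 ndF3q3 pcF1 Cut.none Ext.none)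

def k0_pp_113 : ∃ t, chk3 f_pp_113 t 1 1 1 = true :=
  ⟨(a (b (l 2) (b (b (l 2) (l 17424704)) (b (a (l 2) (b (l 17424736) (l 17549080))) (a (b (a (l 2) (l 17491056)) (l 17540288)) (b (l 17655280) (l 17757048)))))) (a (b (l 2) (b (b (l 17188888) (l 17518536)) (b (l 17869504) (a (l 17926512) (l 18134904))))) (b (a (l 17152008) (b (l 16810024) (b (l 17064504) (l 17370896)))) (b (a (b (l 17512056) (l 17852112)) (l 17889920)) (b (a (l 18128960) (l 18319248)) (a (l 18367656) (l 18566696))))))), by decide +kernel⟩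

theorem c_pp_113 : CertF 536870912 536870912 0 1230186008 134217728 67108864 false true true .nn 1 1 3
    ndF3q1 ndF3q3 pcF1 Cut.none Ext.none :=
  certF0 (fam := false) (s1 := true) (s2 := true) (a := 1) (b := 1) (c := 3) (cn := .nn) (n1 := ndF3q1) (n2 := ndF3q3) (pc := pcF1) (cut := Cut.none) (xt := Ext.none) (P1 := 536870912) (W1 := 536870912) (P2 := 0) (W2 := 1230186008) (P3 := 134217728) (W3 := 67108864)
    rfl k0_pp_113

noncomputable def f_pp_123 : ℕ → ℕ → ℕ → ℕ → Bool := onCell 1073741824 536870912 0 1230186008 134217728 67108864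
    (rowF 2 false true true .npn 1 2 3 (qsf 536870912 536870912 0 1230186008 2) ndF3q1 ndF3q3 pcF2 Cut.none Ext.none)

def k0_pp_123 : ∃ t, chk3 f_pp_123 t 1 1 1 = true :=
  ⟨(b (b (a (a (a (a (l 16830720) (l 17082704)) (l 16857368)) (l 16813528)) (l 4)) (a (b (a (a (a (l 17131584) (l 16957704)) (l 16911632)) (l 16944272)) (a (a (l 17135528) (l 16997304)) (l 17033880))) (a (l 16950568) (l 16844544)))) (b (a (a (b (a (l 17189880) (l 17112968)) (a (l 17305320) (l 17241016))) (l 17198880)) (a (l 17149368) (l 17014280))) (a (a (a (l 17481872) (a (a (l 17478696) (l 17474752)) (l 17459688))) (a (b (l 17359240) (l 17465672)) (l 17384544))) (l 1)))), by decide +kernel⟩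

theorem c_pp_123 : CertF 536870912 536870912 0 1230186008 134217728 67108864 false true true .npn 1 2 3
    ndF3q1 ndF3q3 pcF2 Cut.none Ext.none :=
  certF2 (fam := false) (s1 := true) (s2 := true) (a := 1) (b := 2) (c := 3) (cn := .npn) (n1 := ndF3q1) (n2 := ndF3q3) (pc := pcF2) (cut := Cut.none) (xt := Ext.none) (P1 := 536870912) (W1 := 536870912) (P2 := 0) (W2 := 1230186008) (P3 := 134217728) (W3 := 67108864)
    rfl (fun _ => rfl) k0_pp_123

noncomputable def f_pp_133 : ℕ → ℕ → ℕ → ℕ → Bool := onCell 1610612736 536870912 0 1230186008 134217728 67108864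
    (rowF 2 false true true .dn 1 3 3 (qsf 536870912 536870912 0 1230186008 3) ndF3q1 ndF3q3 pcF3 Cut.none Ext.none)

def k0_pp_133 : ∃ t, chk3 f_pp_133 t 1 1 1 = true :=
  ⟨(b (b (l 4) (l 1)) (l 1)), by decide +kernel⟩

theorem c_pp_133 : CertF 536870912 536870912 0 1230186008 134217728 67108864 false true true .dn 1 3 3
    ndF3q1 ndF3q3 pcF3 Cut.none Ext.none :=
  certF2 (fam := false) (s1 := true) (s2 := true) (a := 1) (b := 3) (c := 3) (cn := .dn) (n1 := ndF3q1) (n2 := ndF3q3) (pc := pcF3) (cut := Cut.none) (xt := Ext.none) (P1 := 536870912) (W1 := 536870912) (P2 := 0) (W2 := 1230186008) (P3 := 134217728) (W3 := 67108864)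
    rfl (fun _ => rfl) k0_pp_133

noncomputable def f_pp_202 : ℕ → ℕ → ℕ → ℕ → Bool := onCell 1073741824 536870912 1073741824 536870912 134217728 67108864
    (rowF 0 false true true .pp 2 0 2 (qsf 1073741824 536870912 1073741824 536870912 0) ndF3q2 ndF3q2 pcF0 Cut.none Ext.none)

def k0_pp_202 : ∃ t, chk3 f_pp_202 t 1 1 1 = true :=
  ⟨(l 3), by decide +kernel⟩

theorem c_pp_202 : CertF 1073741824 536870912 1073741824 536870912 134217728 67108864 false true true .pp 2 0 2
    ndF3q2 ndF3q2 pcF0 Cut.none Ext.none :=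
  certF0 (fam := false) (s1 := true) (s2 := true) (a := 2) (b := 0) (c := 2) (cn := .pp) (n1 := ndF3q2) (n2 := ndF3q2) (pc := pcF0) (cut := Cut.none) (xt := Ext.none) (P1 := 1073741824) (W1 := 536870912) (P2 := 1073741824) (W2 := 536870912) (P3 := 134217728) (W3 := 67108864)
    rfl k0_pp_202

noncomputable def f_pp_203 : ℕ → ℕ → ℕ → ℕ → Bool := onCell 0 536870912 0 1230186008 134217728 67108864
    (rowF 2 false true true .up 2 0 3 (qsf 1073741824 536870912 0 1230186008 0) ndF3q2 ndF3q3 pcF0 Cut.none Ext.none)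

def k0_pp_203 : ∃ t, chk3 f_pp_203 t 1 1 1 = true :=
  ⟨(b (l 3) (l 3)), by decide +kernel⟩

theorem c_pp_203 : CertF 1073741824 536870912 0 1230186008 134217728 67108864 false true true .up 2 0 3
    ndF3q2 ndF3q3 pcF0 Cut.none Ext.none :=
  certF2 (fam := false) (s1 := true) (s2 := true) (a := 2) (b := 0) (c := 3) (cn := .up) (n1 := ndF3q2) (n2 := ndF3q3) (pc := pcF0) (cut := Cut.none) (xt := Ext.none) (P1 := 1073741824) (W1 := 536870912) (P2 := 0) (W2 := 1230186008) (P3 := 134217728) (W3 := 67108864)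
    rfl (fun _ => rfl) k0_pp_203

noncomputable def f_pp_213 : ℕ → ℕ → ℕ → ℕ → Bool := onCell 1073741824 536870912 0 1230186008 134217728 67108864
    (rowF 0 false true true .pnn 2 1 3 (qsf 1073741824 536870912 0 1230186008 1) ndF3q2 ndF3q3 pcF1 Cut.none Ext.none)

def k0_pp_213 : ∃ t, chk3 f_pp_213 t 1 1 1 = true :=
  ⟨(b (a (b (a (a (l 16904200) (a (a (l 16960768) (l 16969616)) (a (l 16975256) (l 16983896)))) (a (a (a (l 16991104) (l 17087368)) (l 17003200)) (l 3))) (a (b (a (l 17034048) (l 3)) (l 3)) (l 3))) (l 3)) (b (l 3) (l 3))), by decide +kernel⟩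

theorem c_pp_213 : CertF 1073741824 536870912 0 1230186008 134217728 67108864 false true true .pnn 2 1 3
    ndF3q2 ndF3q3 pcF1 Cut.none Ext.none :=
  certF0 (fam := false) (s1 := true) (s2 := true) (a := 2) (b := 1) (c := 3) (cn := .pnn) (n1 := ndF3q2) (n2 := ndF3q3) (pc := pcF1) (cut := Cut.none) (xt := Ext.none) (P1 := 1073741824) (W1 := 536870912) (P2 := 0) (W2 := 1230186008) (P3 := 134217728) (W3 := 67108864)
    rfl k0_pp_213

noncomputable def f_pp_303 : ℕ → ℕ → ℕ → ℕ → Bool := onCell 0 1230186008 0 1230186008 134217728 67108864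
    (rowF 0 false true true .npn 3 0 3 (qsf 0 1230186008 0 1230186008 0) ndF3q3 ndF3q3 pcF0 Cut.none Ext.none)

def k0_pp_303 : ∃ t, chk3 f_pp_303 t 1 1 1 = true :=
  ⟨(a (b (l 3) (l 3)) (b (l 3) (l 3))), by decide +kernel⟩

theorem c_pp_303 : CertF 0 1230186008 0 1230186008 134217728 67108864 false true true .npn 3 0 3
    ndF3q3 ndF3q3 pcF0 Cut.none Ext.none :=
  certF0 (fam := false) (s1 := true) (s2 := true) (a := 3) (b := 0) (c := 3) (cn := .npn) (n1 := ndF3q3) (n2 := ndF3q3) (pc := pcF0) (cut := Cut.none) (xt := Ext.none) (P1 := 0) (W1 := 1230186008) (P2 := 0) (W2 := 1230186008) (P3 := 134217728) (W3 := 67108864)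
    rfl k0_pp_303

noncomputable def f_pp_313 : ℕ → ℕ → ℕ → ℕ → Bool := onCell 0 1230186008 0 1230186008 134217728 67108864
    (rowF 0 false true true .dn 3 1 3 (qsf 0 1230186008 0 1230186008 1) ndF3q3 ndF3q3 pcF1 Cut.none Ext.none)

def k0_pp_313 : ∃ t, chk3 f_pp_313 t 1 1 1 = true :=
  ⟨(a (l 1) (b (l 3) (l 1))), by decide +kernel⟩

theorem c_pp_313 : CertF 0 1230186008 0 1230186008 134217728 67108864 false true true .dn 3 1 3
    ndF3q3 ndF3q3 pcF1 Cut.none Ext.none :=
  certF0 (fam := false) (s1 := true) (s2 := true) (a := 3) (b := 1) (c := 3) (cn := .dn) (n1 := ndF3q3) (n2 := ndF3q3) (pc := pcF1) (cut := Cut.none) (xt := Ext.none) (P1 := 0) (W1 := 1230186008) (P2 := 0) (W2 := 1230186008) (P3 := 134217728) (W3 := 67108864)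
    rfl k0_pp_313

noncomputable def f_pm_001 : ℕ → ℕ → ℕ → ℕ → Bool := onCell 0 536870912 536870912 536870912 134217728 67108864
    (rowF 0 false true false .up 0 0 1 (qsf 0 536870912 536870912 536870912 0) ndF3q0 ndF3q1 pcF0 Cut.none Ext.none)

def k0_pm_001 : ∃ t, chk3 f_pm_001 t 1 1 1 = true :=
  ⟨(l 4), by decide +kernel⟩

theorem c_pm_001 : CertF 0 536870912 536870912 536870912 134217728 67108864 false true false .up 0 0 1
    ndF3q0 ndF3q1 pcF0 Cut.none Ext.none :=
  certF0 (fam := false) (s1 := true) (s2 := false) (a := 0) (b := 0) (c := 1) (cn := .up) (n1 := ndF3q0) (n2 := ndF3q1) (pc := pcF0) (cut := Cut.none) (xt := Ext.none) (P1 := 0) (W1 := 536870912) (P2 := 536870912) (W2 := 536870912) (P3 := 134217728) (W3 := 67108864)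
    rfl k0_pm_001

noncomputable def f_pm_011 : ℕ → ℕ → ℕ → ℕ → Bool := onCell 0 536870912 536870912 536870912 134217728 67108864
    (rowF 0 false true false .pnn 0 1 1 (qsf 0 536870912 536870912 536870912 1) ndF3q0 ndF3q1 pcF1 Cut.none Ext.none)

def k0_pm_011 : ∃ t, chk3 f_pm_011 t 1 1 1 = true :=
  ⟨(l 4), by decide +kernel⟩

theorem c_pm_011 : CertF 0 536870912 536870912 536870912 134217728 67108864 false true false .pnn 0 1 1
    ndF3q0 ndF3q1 pcF1 Cut.none Ext.none :=
  certF0 (fam := false) (s1 := true) (s2 := false) (a := 0) (b := 1) (c := 1) (cn := .pnn) (n1 := ndF3q0) (n2 := ndF3q1) (pc := pcF1) (cut := Cut.none) (xt := Ext.none) (P1 := 0) (W1 := 536870912) (P2 := 536870912) (W2 := 536870912) (P3 := 134217728) (W3 := 67108864)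
    rfl k0_pm_011

noncomputable def f_pm_012 : ℕ → ℕ → ℕ → ℕ → Bool := onCell 0 536870912 1073741824 536870912 134217728 67108864
    (rowF 0 false true false .pnp 0 1 2 (qsf 0 536870912 1073741824 536870912 1) ndF3q0 ndF3q2 pcF1 Cut.none Ext.none)

def k0_pm_012 : ∃ t, chk3 f_pm_012 t 1 1 1 = true :=
  ⟨(l 4), by decide +kernel⟩

theorem c_pm_012 : CertF 0 536870912 1073741824 536870912 134217728 67108864 false true false .pnp 0 1 2
    ndF3q0 ndF3q2 pcF1 Cut.none Ext.none :=
  certF0 (fam := false) (s1 := true) (s2 := false) (a := 0) (b := 1) (c := 2) (cn := .pnp) (n1 := ndF3q0) (n2 := ndF3q2) (pc := pcF1) (cut := Cut.none) (xt := Ext.none) (P1 := 0) (W1 := 536870912) (P2 := 1073741824) (W2 := 536870912) (P3 := 134217728) (W3 := 67108864)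
    rfl k0_pm_012

noncomputable def f_pm_022 : ℕ → ℕ → ℕ → ℕ → Bool := onCell 0 536870912 1073741824 536870912 134217728 67108864
    (rowF 0 false true false .pp 0 2 2 (qsf 0 536870912 1073741824 536870912 2) ndF3q0 ndF3q2 pcF2 Cut.none Ext.none)

def k0_pm_022 : ∃ t, chk3 f_pm_022 t 1 1 1 = true :=
  ⟨(l 4), by decide +kernel⟩

theorem c_pm_022 : CertF 0 536870912 1073741824 536870912 134217728 67108864 false true false .pp 0 2 2
    ndF3q0 ndF3q2 pcF2 Cut.none Ext.none :=
  certF0 (fam := false) (s1 := true) (s2 := false) (a := 0) (b := 2) (c := 2) (cn := .pp) (n1 := ndF3q0) (n2 := ndF3q2) (pc := pcF2) (cut := Cut.none) (xt := Ext.none) (P1 := 0) (W1 := 536870912) (P2 := 1073741824) (W2 := 536870912) (P3 := 134217728) (W3 := 67108864)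
    rfl k0_pm_022

noncomputable def f_pm_023 : ℕ → ℕ → ℕ → ℕ → Bool := onCell 0 536870912 0 1230186008 134217728 67108864
    (rowF 0 false true false .up 0 2 3 (qsf 0 536870912 0 1230186008 2) ndF3q0 ndF3q3 pcF2 Cut.none Ext.none)

def k0_pm_023 : ∃ t, chk3 f_pm_023 t 1 1 1 = true :=
  ⟨(b (l 4) (l 4)), by decide +kernel⟩

theorem c_pm_023 : CertF 0 536870912 0 1230186008 134217728 67108864 false true false .up 0 2 3
    ndF3q0 ndF3q3 pcF2 Cut.none Ext.none :=
  certF0 (fam := false) (s1 := true) (s2 := false) (a := 0) (b := 2) (c := 3) (cn := .up) (n1 := ndF3q0) (n2 := ndF3q3) (pc := pcF2) (cut := Cut.none) (xt := Ext.none) (P1 := 0) (W1 := 536870912) (P2 := 0) (W2 := 1230186008) (P3 := 134217728) (W3 := 67108864)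
    rfl k0_pm_023

noncomputable def f_pm_033 : ℕ → ℕ → ℕ → ℕ → Bool := onCell 0 536870912 0 1230186008 134217728 67108864
    (rowF 0 false true false .pnn 0 3 3 (qsf 0 536870912 0 1230186008 3) ndF3q0 ndF3q3 pcF3 Cut.none Ext.none)

def k0_pm_033 : ∃ t, chk3 f_pm_033 t 1 1 1 = true :=
  ⟨(b (l 4) (l 4)), by decide +kernel⟩

theorem c_pm_033 : CertF 0 536870912 0 1230186008 134217728 67108864 false true false .pnn 0 3 3
    ndF3q0 ndF3q3 pcF3 Cut.none Ext.none :=
  certF0 (fam := false) (s1 := true) (s2 := false) (a := 0) (b := 3) (c := 3) (cn := .pnn) (n1 := ndF3q0) (n2 := ndF3q3) (pc := pcF3) (cut := Cut.none) (xt := Ext.none) (P1 := 0) (W1 := 536870912) (P2 := 0) (W2 := 1230186008) (P3 := 134217728) (W3 := 67108864)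
    rfl k0_pm_033

noncomputable def f_pm_101 : ℕ → ℕ → ℕ → ℕ → Bool := onCell 536870912 536870912 536870912 536870912 134217728 67108864
    (rowF 0 false true false .npn 1 0 1 (qsf 536870912 536870912 536870912 536870912 0) ndF3q1 ndF3q1 pcF0 Cut.none Ext.none)

def k0_pm_101 : ∃ t, chk3 f_pm_101 t 1 1 1 = true :=
  ⟨(l 4), by decide +kernel⟩

theorem c_pm_101 : CertF 536870912 536870912 536870912 536870912 134217728 67108864 false true false .npn 1 0 1
    ndF3q1 ndF3q1 pcF0 Cut.none Ext.none :=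
  certF0 (fam := false) (s1 := true) (s2 := false) (a := 1) (b := 0) (c := 1) (cn := .npn) (n1 := ndF3q1) (n2 := ndF3q1) (pc := pcF0) (cut := Cut.none) (xt := Ext.none) (P1 := 536870912) (W1 := 536870912) (P2 := 536870912) (W2 := 536870912) (P3 := 134217728) (W3 := 67108864)
    rfl k0_pm_101

noncomputable def f_pm_102 : ℕ → ℕ → ℕ → ℕ → Bool := onCell 536870912 536870912 1073741824 536870912 134217728 67108864
    (rowF 0 false true false .npp 1 0 2 (qsf 536870912 536870912 1073741824 536870912 0) ndF3q1 ndF3q2 pcF0 Cut.none Ext.none)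

def k0_pm_102 : ∃ t, chk3 f_pm_102 t 1 1 1 = true :=
  ⟨(l 4), by decide +kernel⟩

theorem c_pm_102 : CertF 536870912 536870912 1073741824 536870912 134217728 67108864 false true false .npp 1 0 2
    ndF3q1 ndF3q2 pcF0 Cut.none Ext.none :=
  certF0 (fam := false) (s1 := true) (s2 := false) (a := 1) (b := 0) (c := 2) (cn := .npp) (n1 := ndF3q1) (n2 := ndF3q2) (pc := pcF0) (cut := Cut.none) (xt := Ext.none) (P1 := 536870912) (W1 := 536870912) (P2 := 1073741824) (W2 := 536870912) (P3 := 134217728) (W3 := 67108864)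
    rfl k0_pm_102

noncomputable def f_pm_112 : ℕ → ℕ → ℕ → ℕ → Bool := onCell 536870912 536870912 1073741824 536870912 134217728 67108864
    (rowF 0 false true false .dn 1 1 2 (qsf 536870912 536870912 1073741824 536870912 1) ndF3q1 ndF3q2 pcF1 Cut.none Ext.none)

def k0_pm_112 : ∃ t, chk3 f_pm_112 t 1 1 1 = true :=
  ⟨(l 4), by decide +kernel⟩

theorem c_pm_112 : CertF 536870912 536870912 1073741824 536870912 134217728 67108864 false true false .dn 1 1 2
    ndF3q1 ndF3q2 pcF1 Cut.none Ext.none :=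
  certF0 (fam := false) (s1 := true) (s2 := false) (a := 1) (b := 1) (c := 2) (cn := .dn) (n1 := ndF3q1) (n2 := ndF3q2) (pc := pcF1) (cut := Cut.none) (xt := Ext.none) (P1 := 536870912) (W1 := 536870912) (P2 := 1073741824) (W2 := 536870912) (P3 := 134217728) (W3 := 67108864)
    rfl k0_pm_112

noncomputable def f_pm_113 : ℕ → ℕ → ℕ → ℕ → Bool := onCell 536870912 536870912 0 1230186008 134217728 67108864
    (rowF 0 false true false .nn 1 1 3 (qsf 536870912 536870912 0 1230186008 1) ndF3q1 ndF3q3 pcF1 Cut.none Ext.none)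

def k0_pm_113 : ∃ t, chk3 f_pm_113 t 1 1 1 = true :=
  ⟨(b (b (a (l 2) (a (l 2) (a (l 2) (l 16825720)))) (l 4)) (l 4)), by decide +kernel⟩

theorem c_pm_113 : CertF 536870912 536870912 0 1230186008 134217728 67108864 false true false .nn 1 1 3
    ndF3q1 ndF3q3 pcF1 Cut.none Ext.none :=
  certF0 (fam := false) (s1 := true) (s2 := false) (a := 1) (b := 1) (c := 3) (cn := .nn) (n1 := ndF3q1) (n2 := ndF3q3) (pc := pcF1) (cut := Cut.none) (xt := Ext.none) (P1 := 536870912) (W1 := 536870912) (P2 := 0) (W2 := 1230186008) (P3 := 134217728) (W3 := 67108864)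
    rfl k0_pm_113

noncomputable def f_pm_123 : ℕ → ℕ → ℕ → ℕ → Bool := onCell 536870912 536870912 0 1230186008 134217728 67108864
    (rowF 0 false true false .npn 1 2 3 (qsf 536870912 536870912 0 1230186008 2) ndF3q1 ndF3q3 pcF2 Cut.none Ext.none)

def k0_pm_123 : ∃ t, chk3 f_pm_123 t 1 1 1 = true :=
  ⟨(b (b (a (l 4) (a (l 4) (a (l 4) (l 16828840)))) (l 4)) (l 4)), by decide +kernel⟩

theorem c_pm_123 : CertF 536870912 536870912 0 1230186008 134217728 67108864 false true false .npn 1 2 3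
    ndF3q1 ndF3q3 pcF2 Cut.none Ext.none :=
  certF0 (fam := false) (s1 := true) (s2 := false) (a := 1) (b := 2) (c := 3) (cn := .npn) (n1 := ndF3q1) (n2 := ndF3q3) (pc := pcF2) (cut := Cut.none) (xt := Ext.none) (P1 := 536870912) (W1 := 536870912) (P2 := 0) (W2 := 1230186008) (P3 := 134217728) (W3 := 67108864)
    rfl k0_pm_123

noncomputable def f_pm_133 : ℕ → ℕ → ℕ → ℕ → Bool := onCell 1610612736 536870912 0 1230186008 134217728 67108864
    (rowF 2 false true false .dn 1 3 3 (qsf 536870912 536870912 0 1230186008 3) ndF3q1 ndF3q3 pcF3 Cut.none Ext.none)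

def k0_pm_133 : ∃ t, chk3 f_pm_133 t 1 1 1 = true :=
  ⟨(b (l 4) (l 1)), by decide +kernel⟩

theorem c_pm_133 : CertF 536870912 536870912 0 1230186008 134217728 67108864 false true false .dn 1 3 3
    ndF3q1 ndF3q3 pcF3 Cut.none Ext.none :=
  certF2 (fam := false) (s1 := true) (s2 := false) (a := 1) (b := 3) (c := 3) (cn := .dn) (n1 := ndF3q1) (n2 := ndF3q3) (pc := pcF3) (cut := Cut.none) (xt := Ext.none) (P1 := 536870912) (W1 := 536870912) (P2 := 0) (W2 := 1230186008) (P3 := 134217728) (W3 := 67108864)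
    rfl (fun _ => rfl) k0_pm_133

noncomputable def f_pm_202 : ℕ → ℕ → ℕ → ℕ → Bool := onCell 1073741824 536870912 1073741824 536870912 134217728 67108864
    (rowF 0 false true false .pp 2 0 2 (qsf 1073741824 536870912 1073741824 536870912 0) ndF3q2 ndF3q2 pcF0 Cut.none Ext.none)

def k0_pm_202 : ∃ t, chk3 f_pm_202 t 2 1 1 = true :=
  ⟨(b (a (b (a (b (a (l 17956848) (l 17950616)) (b (b (l 17949936) (l 17919080)) (b (l 17883072) (l 17845368)))) (b (a (a (l 17947408) (l 1)) (l 1)) (b (a (b (a (l 17984208) (l 17977552)) (a (l 17955008) (l 17954752))) (b (l 1) (a (l 17942904) (l 1)))) (a (a (l 17864200) (b (l 17918496) (l 17879032))) (b (l 17980520) (l 17842608)))))) (a (b (b (b (l 17799832) (l 17754296)) (l 17649096)) (l 17619880)) (a (b (a (b (l 17920920) (l 17694216)) (b (b (l 17834664) (l 17792056)) (l 17697504))) (a (l 17603504) (l 17575816))) (b (b (b (l 17799872) (l 17966824)) (l 17664872)) (a (l 17531952) (l 17488888)))))) (b (a (b (l 1) (b (l 1) (a (a (l 18030888) (l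 1)) (l 1)))) (l 1)) (b (a (b (a (b (a (l 17824544) (l 17815400)) (a (l 17784544) (l 17781968))) (b (l 1) (l 17744864))) (a (a (l 17693136) (l 17694104)) (l 17668096))) (b (l 1) (l 17605152))) (a (a (a (l 17490400) (l 17495152)) (l 17479888)) (b (l 17502328) (l 17379680)))))) (a (b (a (b (l 17674624) (l 17802464)) (a (a (l 17814400) (b (l 17749240) (l 17907280))) (b (l 17718096) (l 17888088)))) (a (b (l 17906920) (l 17925880)) (a (a (l 18040352) (b (l 18046464) (l 18063048))) (b (l 18043704) (l 18069136))))) (a (b (a (b (l 17914080) (l 17920704)) (b (l 17669464) (l 17903696))) (a (c (l 18189304) (l 17991904)) (b (l 18096016) (l 18168152)))) (b (b (l 17560112) (a (l 17883576) (l 17862936))) (b (l 18076192) (l 18184808)))))), by decide +kernel⟩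

def k1_pm_202 : ∃ t, chk3 f_pm_202 t 3 1 1 = true :=
  ⟨(b (a (b (l 1) (a (b (l 1) (b (l 1) (l 17387064))) (l 1))) (l 1)) (b (a (a (b (l 17322336) (l 17977088)) (b (l 17300496) (l 17700464))) (a (b (l 1) (l 17397456)) (l 1))) (b (a (a (l 18063120) (l 18261416)) (a (b (l 17868544) (l 18059648)) (l 17729672))) (a (a (l 18251904) (l 18337824)) (a (b (l 18167992) (l 18318592)) (b (l 18086360) (l 18217776))))))), by decide +kernel⟩

theorem s2_pm_202 : ∃ t, chk3 f_pm_202 t 1 1 1 = true := ex3_a k0_pm_202 k1_pm_202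

theorem c_pm_202 : CertF 1073741824 536870912 1073741824 536870912 134217728 67108864 false true false .pp 2 0 2
    ndF3q2 ndF3q2 pcF0 Cut.none Ext.none :=
  certF0 (fam := false) (s1 := true) (s2 := false) (a := 2) (b := 0) (c := 2) (cn := .pp) (n1 := ndF3q2) (n2 := ndF3q2) (pc := pcF0) (cut := Cut.none) (xt := Ext.none) (P1 := 1073741824) (W1 := 536870912) (P2 := 1073741824) (W2 := 536870912) (P3 := 134217728) (W3 := 67108864)
    rfl s2_pm_202

noncomputable def f_pm_203 : ℕ → ℕ → ℕ → ℕ → Bool := onCell 1073741824 536870912 0 1230186008 134217728 67108864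
    (rowF 0 false true false .up 2 0 3 (qsf 1073741824 536870912 0 1230186008 0) ndF3q2 ndF3q3 pcF0 Cut.none Ext.none)

def k0_pm_203 : ∃ t, chk3 f_pm_203 t 1 1 1 = true :=
  ⟨(b (a (l 2) (a (l 2) (l 3))) (b (a (b (l 2) (a (l 2) (a (l 2) (l 17688448)))) (a (b (a (l 2) (l 17446288)) (a (l 17666016) (l 17673464))) (b (a (l 3) (l 3)) (b (l 17669336) (l 17789320))))) (a (b (a (l 2) (a (a (a (l 18016904) (l 18006792)) (l 17976528)) (l 17922160))) (a (a (l 18142464) (a (a (l 18191424) (l 18194944)) (b (l 18129776) (l 18196440)))) (a (a (a (l 18184184) (l 18184768)) (l 18167592)) (b (l 18089688) (l 18208368))))) (b (a (a (l 17917000) (l 17939352)) (l 81775157191)) (a (b (l 18118416) (b (l 18225872) (l 18278056))) (b (l 18187344) (c (l 18390368) (l 18324504)))))))), by decide +kernel⟩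

theorem c_pm_203 : CertF 1073741824 536870912 0 1230186008 134217728 67108864 false true false .up 2 0 3
    ndF3q2 ndF3q3 pcF0 Cut.none Ext.none :=
  certF0 (fam := false) (s1 := true) (s2 := false) (a := 2) (b := 0) (c := 3) (cn := .up) (n1 := ndF3q2) (n2 := ndF3q3) (pc := pcF0) (cut := Cut.none) (xt := Ext.none) (P1 := 1073741824) (W1 := 536870912) (P2 := 0) (W2 := 1230186008) (P3 := 134217728) (W3 := 67108864)
    rfl k0_pm_203

noncomputable def f_pm_213 : ℕ → ℕ → ℕ → ℕ → Bool := onCell 1073741824 536870912 0 1230186008 134217728 67108864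
    (rowF 0 false true false .pnn 2 1 3 (qsf 1073741824 536870912 0 1230186008 1) ndF3q2 ndF3q3 pcF1 Cut.none Ext.none)

def k0_pm_213 : ∃ t, chk3 f_pm_213 t 1 1 1 = true :=
  ⟨(b (b (a (a (a (l 16931160) (a (a (l 16982648) (l 16987528)) (l 17105192))) (a (a (a (l 16993032) (l 17000296)) (l 16994760)) (l 16999824))) (l 3)) (a (a (a (l 17054704) (a (a (l 17104848) (l 17109144)) (l 17310432))) (a (a (a (l 17114896) (l 17121528)) (l 17112768)) (b (l 17070040) (l 17153672)))) (a (b (l 256793387751) (l 142440144231)) (l 3)))) (b (a (a (a (b (l 17209408) (l 17334296)) (a (a (l 17321888) (l 17324056)) (b (l 17231400) (l 17340424)))) (a (a (a (l 17320024) (l 17322640)) (l 17305368)) (b (l 17244800) (l 17319712)))) (a (b (a (l 17318424) (l 17425688)) (b (l 17531240) (l 17506376))) (b (a (l 3) (l 1)) (l 1)))) (a (b (a (a (l 17437424) (a (a (l 17464072) (l 17456760)) (l 17406688))) (a (a (l 17414664) (l 17389640)) (l 17338984))) (a (a (l 17517144) (a (a (l 17529184) (l 17515496)) (l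 17611576))) (a (b (a (l 17438920) (l 1)) (l 1)) (l 1)))) (l 1)))), by decide +kernel⟩

theorem c_pm_213 : CertF 1073741824 536870912 0 1230186008 134217728 67108864 false true false .pnn 2 1 3
    ndF3q2 ndF3q3 pcF1 Cut.none Ext.none :=
  certF0 (fam := false) (s1 := true) (s2 := false) (a := 2) (b := 1) (c := 3) (cn := .pnn) (n1 := ndF3q2) (n2 := ndF3q3) (pc := pcF1) (cut := Cut.none) (xt := Ext.none) (P1 := 1073741824) (W1 := 536870912) (P2 := 0) (W2 := 1230186008) (P3 := 134217728) (W3 := 67108864)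
    rfl k0_pm_213

noncomputable def f_pm_303 : ℕ → ℕ → ℕ → ℕ → Bool := onCell 0 1230186008 0 1230186008 134217728 67108864
    (rowF 0 false true false .npn 3 0 3 (qsf 0 1230186008 0 1230186008 0) ndF3q3 ndF3q3 pcF0 Cut.none Ext.none)

def k0_pm_303 : ∃ t, chk3 f_pm_303 t 1 1 1 = true :=
  ⟨(a (b (l 3) (l 3)) (b (l 3) (a (b (l 3) (a (l 1) (l 3))) (b (a (l 3) (l 3)) (b (a (l 3) (l 17661184)) (b (a (l 3) (a (l 17845520) (l 17822392))) (a (l 1) (a (a (l 1) (l 17579384)) (l 18052936))))))))), by decide +kernel⟩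

theorem c_pm_303 : CertF 0 1230186008 0 1230186008 134217728 67108864 false true false .npn 3 0 3
    ndF3q3 ndF3q3 pcF0 Cut.none Ext.none :=
  certF0 (fam := false) (s1 := true) (s2 := false) (a := 3) (b := 0) (c := 3) (cn := .npn) (n1 := ndF3q3) (n2 := ndF3q3) (pc := pcF0) (cut := Cut.none) (xt := Ext.none) (P1 := 0) (W1 := 1230186008) (P2 := 0) (W2 := 1230186008) (P3 := 134217728) (W3 := 67108864)
    rfl k0_pm_303

noncomputable def f_pm_313 : ℕ → ℕ → ℕ → ℕ → Bool := onCell 0 1230186008 0 1230186008 134217728 67108864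
    (rowF 0 false true false .dn 3 1 3 (qsf 0 1230186008 0 1230186008 1) ndF3q3 ndF3q3 pcF1 Cut.none Ext.none)

def k0_pm_313 : ∃ t, chk3 f_pm_313 t 1 1 1 = true :=
  ⟨(a (l 1) (b (l 3) (l 1))), by decide +kernel⟩

theorem c_pm_313 : CertF 0 1230186008 0 1230186008 134217728 67108864 false true false .dn 3 1 3
    ndF3q3 ndF3q3 pcF1 Cut.none Ext.none :=
  certF0 (fam := false) (s1 := true) (s2 := false) (a := 3) (b := 1) (c := 3) (cn := .dn) (n1 := ndF3q3) (n2 := ndF3q3) (pc := pcF1) (cut := Cut.none) (xt := Ext.none) (P1 := 0) (W1 := 1230186008) (P2 := 0) (W2 := 1230186008) (P3 := 134217728) (W3 := 67108864)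
    rfl k0_pm_313

noncomputable def f_mm_001 : ℕ → ℕ → ℕ → ℕ → Bool := onCell 0 536870912 536870912 536870912 134217728 67108864
    (rowF 0 false false false .up 0 0 1 (qsf 0 536870912 536870912 536870912 0) ndF3q0 ndF3q1 pcF0 Cut.none Ext.none)

def k0_mm_001 : ∃ t, chk3 f_mm_001 t 1 1 1 = true :=
  ⟨(l 3), by decide +kernel⟩

theorem c_mm_001 : CertF 0 536870912 536870912 536870912 134217728 67108864 false false false .up 0 0 1
    ndF3q0 ndF3q1 pcF0 Cut.none Ext.none :=
  certF0 (fam := false) (s1 := false) (s2 := false) (a := 0) (b := 0) (c := 1) (cn := .up) (n1 := ndF3q0) (n2 := ndF3q1) (pc := pcF0) (cut := Cut.none) (xt := Ext.none) (P1 := 0) (W1 := 536870912) (P2 := 536870912) (W2 := 536870912) (P3 := 134217728) (W3 := 67108864)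
    rfl k0_mm_001

noncomputable def f_mm_011 : ℕ → ℕ → ℕ → ℕ → Bool := onCell 0 536870912 536870912 536870912 134217728 67108864
    (rowF 0 false false false .pnn 0 1 1 (qsf 0 536870912 536870912 536870912 1) ndF3q0 ndF3q1 pcF1 Cut.none Ext.none)

def k0_mm_011 : ∃ t, chk3 f_mm_011 t 1 1 1 = true :=
  ⟨(l 3), by decide +kernel⟩

theorem c_mm_011 : CertF 0 536870912 536870912 536870912 134217728 67108864 false false false .pnn 0 1 1
    ndF3q0 ndF3q1 pcF1 Cut.none Ext.none :=
  certF0 (fam := false) (s1 := false) (s2 := false) (a := 0) (b := 1) (c := 1) (cn := .pnn) (n1 := ndF3q0) (n2 := ndF3q1) (pc := pcF1) (cut := Cut.none) (xt := Ext.none) (P1 := 0) (W1 := 536870912) (P2 := 536870912) (W2 := 536870912) (P3 := 134217728) (W3 := 67108864)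
    rfl k0_mm_011

noncomputable def f_mm_012 : ℕ → ℕ → ℕ → ℕ → Bool := onCell 0 536870912 1073741824 536870912 134217728 67108864
    (rowF 0 false false false .pnp 0 1 2 (qsf 0 536870912 1073741824 536870912 1) ndF3q0 ndF3q2 pcF1 Cut.none Ext.none)

def k0_mm_012 : ∃ t, chk3 f_mm_012 t 1 1 1 = true :=
  ⟨(l 5), by decide +kernel⟩

theorem c_mm_012 : CertF 0 536870912 1073741824 536870912 134217728 67108864 false false false .pnp 0 1 2
    ndF3q0 ndF3q2 pcF1 Cut.none Ext.none :=
  certF0 (fam := false) (s1 := false) (s2 := false) (a := 0) (b := 1) (c := 2) (cn := .pnp) (n1 := ndF3q0) (n2 := ndF3q2) (pc := pcF1) (cut := Cut.none) (xt := Ext.none) (P1 := 0) (W1 := 536870912) (P2 := 1073741824) (W2 := 536870912) (P3 := 134217728) (W3 := 67108864)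
    rfl k0_mm_012

noncomputable def f_mm_022 : ℕ → ℕ → ℕ → ℕ → Bool := onCell 0 536870912 1073741824 536870912 134217728 67108864
    (rowF 0 false false false .pp 0 2 2 (qsf 0 536870912 1073741824 536870912 2) ndF3q0 ndF3q2 pcF2 Cut.none Ext.none)

def k0_mm_022 : ∃ t, chk3 f_mm_022 t 1 1 1 = true :=
  ⟨(l 5), by decide +kernel⟩

theorem c_mm_022 : CertF 0 536870912 1073741824 536870912 134217728 67108864 false false false .pp 0 2 2
    ndF3q0 ndF3q2 pcF2 Cut.none Ext.none :=
  certF0 (fam := false) (s1 := false) (s2 := false) (a := 0) (b := 2) (c := 2) (cn := .pp) (n1 := ndF3q0) (n2 := ndF3q2) (pc := pcF2) (cut := Cut.none) (xt := Ext.none) (P1 := 0) (W1 := 536870912) (P2 := 1073741824) (W2 := 536870912) (P3 := 134217728) (W3 := 67108864)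
    rfl k0_mm_022

noncomputable def f_mm_023 : ℕ → ℕ → ℕ → ℕ → Bool := onCell 0 536870912 0 1230186008 134217728 67108864
    (rowF 0 false false false .up 0 2 3 (qsf 0 536870912 0 1230186008 2) ndF3q0 ndF3q3 pcF2 Cut.none Ext.none)

def k0_mm_023 : ∃ t, chk3 f_mm_023 t 1 1 1 = true :=
  ⟨(l 5), by decide +kernel⟩

theorem c_mm_023 : CertF 0 536870912 0 1230186008 134217728 67108864 false false false .up 0 2 3
    ndF3q0 ndF3q3 pcF2 Cut.none Ext.none :=
  certF0 (fam := false) (s1 := false) (s2 := false) (a := 0) (b := 2) (c := 3) (cn := .up) (n1 := ndF3q0) (n2 := ndF3q3) (pc := pcF2) (cut := Cut.none) (xt := Ext.none) (P1 := 0) (W1 := 536870912) (P2 := 0) (W2 := 1230186008) (P3 := 134217728) (W3 := 67108864)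
    rfl k0_mm_023

noncomputable def f_mm_033 : ℕ → ℕ → ℕ → ℕ → Bool := onCell 0 536870912 0 1230186008 134217728 67108864
    (rowF 0 false false false .pnn 0 3 3 (qsf 0 536870912 0 1230186008 3) ndF3q0 ndF3q3 pcF3 Cut.none Ext.none)

def k0_mm_033 : ∃ t, chk3 f_mm_033 t 1 1 1 = true :=
  ⟨(l 5), by decide +kernel⟩

theorem c_mm_033 : CertF 0 536870912 0 1230186008 134217728 67108864 false false false .pnn 0 3 3
    ndF3q0 ndF3q3 pcF3 Cut.none Ext.none :=
  certF0 (fam := false) (s1 := false) (s2 := false) (a := 0) (b := 3) (c := 3) (cn := .pnn) (n1 := ndF3q0) (n2 := ndF3q3) (pc := pcF3) (cut := Cut.none) (xt := Ext.none) (P1 := 0) (W1 := 536870912) (P2 := 0) (W2 := 1230186008) (P3 := 134217728) (W3 := 67108864)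
    rfl k0_mm_033

noncomputable def f_mm_101 : ℕ → ℕ → ℕ → ℕ → Bool := onCell 536870912 536870912 536870912 536870912 134217728 67108864
    (rowF 0 false false false .npn 1 0 1 (qsf 536870912 536870912 536870912 536870912 0) ndF3q1 ndF3q1 pcF0 Cut.none Ext.none)

def k0_mm_101 : ∃ t, chk3 f_mm_101 t 1 1 1 = true :=
  ⟨(l 3), by decide +kernel⟩

theorem c_mm_101 : CertF 536870912 536870912 536870912 536870912 134217728 67108864 false false false .npn 1 0 1
    ndF3q1 ndF3q1 pcF0 Cut.none Ext.none :=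
  certF0 (fam := false) (s1 := false) (s2 := false) (a := 1) (b := 0) (c := 1) (cn := .npn) (n1 := ndF3q1) (n2 := ndF3q1) (pc := pcF0) (cut := Cut.none) (xt := Ext.none) (P1 := 536870912) (W1 := 536870912) (P2 := 536870912) (W2 := 536870912) (P3 := 134217728) (W3 := 67108864)
    rfl k0_mm_101

noncomputable def f_mm_102 : ℕ → ℕ → ℕ → ℕ → Bool := onCell 536870912 536870912 1073741824 536870912 134217728 67108864
    (rowF 0 false false false .npp 1 0 2 (qsf 536870912 536870912 1073741824 536870912 0) ndF3q1 ndF3q2 pcF0 Cut.none Ext.none)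

def k0_mm_102 : ∃ t, chk3 f_mm_102 t 1 1 1 = true :=
  ⟨(l 5), by decide +kernel⟩

theorem c_mm_102 : CertF 536870912 536870912 1073741824 536870912 134217728 67108864 false false false .npp 1 0 2
    ndF3q1 ndF3q2 pcF0 Cut.none Ext.none :=
  certF0 (fam := false) (s1 := false) (s2 := false) (a := 1) (b := 0) (c := 2) (cn := .npp) (n1 := ndF3q1) (n2 := ndF3q2) (pc := pcF0) (cut := Cut.none) (xt := Ext.none) (P1 := 536870912) (W1 := 536870912) (P2 := 1073741824) (W2 := 536870912) (P3 := 134217728) (W3 := 67108864)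
    rfl k0_mm_102

noncomputable def f_mm_112 : ℕ → ℕ → ℕ → ℕ → Bool := onCell 536870912 536870912 1073741824 536870912 134217728 67108864
    (rowF 0 false false false .dn 1 1 2 (qsf 536870912 536870912 1073741824 536870912 1) ndF3q1 ndF3q2 pcF1 Cut.none Ext.none)

def k0_mm_112 : ∃ t, chk3 f_mm_112 t 1 1 1 = true :=
  ⟨(l 5), by decide +kernel⟩

theorem c_mm_112 : CertF 536870912 536870912 1073741824 536870912 134217728 67108864 false false false .dn 1 1 2
    ndF3q1 ndF3q2 pcF1 Cut.none Ext.none :=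
  certF0 (fam := false) (s1 := false) (s2 := false) (a := 1) (b := 1) (c := 2) (cn := .dn) (n1 := ndF3q1) (n2 := ndF3q2) (pc := pcF1) (cut := Cut.none) (xt := Ext.none) (P1 := 536870912) (W1 := 536870912) (P2 := 1073741824) (W2 := 536870912) (P3 := 134217728) (W3 := 67108864)
    rfl k0_mm_112

noncomputable def f_mm_113 : ℕ → ℕ → ℕ → ℕ → Bool := onCell 536870912 536870912 0 1230186008 134217728 67108864
    (rowF 0 false false false .nn 1 1 3 (qsf 536870912 536870912 0 1230186008 1) ndF3q1 ndF3q3 pcF1 Cut.none Ext.none)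

def k0_mm_113 : ∃ t, chk3 f_mm_113 t 1 1 1 = true :=
  ⟨(l 5), by decide +kernel⟩

theorem c_mm_113 : CertF 536870912 536870912 0 1230186008 134217728 67108864 false false false .nn 1 1 3
    ndF3q1 ndF3q3 pcF1 Cut.none Ext.none :=
  certF0 (fam := false) (s1 := false) (s2 := false) (a := 1) (b := 1) (c := 3) (cn := .nn) (n1 := ndF3q1) (n2 := ndF3q3) (pc := pcF1) (cut := Cut.none) (xt := Ext.none) (P1 := 536870912) (W1 := 536870912) (P2 := 0) (W2 := 1230186008) (P3 := 134217728) (W3 := 67108864)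
    rfl k0_mm_113

noncomputable def f_mm_123 : ℕ → ℕ → ℕ → ℕ → Bool := onCell 536870912 536870912 0 1230186008 134217728 67108864
    (rowF 0 false false false .npn 1 2 3 (qsf 536870912 536870912 0 1230186008 2) ndF3q1 ndF3q3 pcF2 Cut.none Ext.none)

def k0_mm_123 : ∃ t, chk3 f_mm_123 t 1 1 1 = true :=
  ⟨(l 5), by decide +kernel⟩

theorem c_mm_123 : CertF 536870912 536870912 0 1230186008 134217728 67108864 false false false .npn 1 2 3
    ndF3q1 ndF3q3 pcF2 Cut.none Ext.none :=
  certF0 (fam := false) (s1 := false) (s2 := false) (a := 1) (b := 2) (c := 3) (cn := .npn) (n1 := ndF3q1) (n2 := ndF3q3) (pc := pcF2) (cut := Cut.none) (xt := Ext.none) (P1 := 536870912) (W1 := 536870912) (P2 := 0) (W2 := 1230186008) (P3 := 134217728) (W3 := 67108864)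
    rfl k0_mm_123

noncomputable def f_mm_133 : ℕ → ℕ → ℕ → ℕ → Bool := onCell 536870912 536870912 0 1230186008 134217728 67108864
    (rowF 0 false false false .dn 1 3 3 (qsf 536870912 536870912 0 1230186008 3) ndF3q1 ndF3q3 pcF3 Cut.none Ext.none)

def k0_mm_133 : ∃ t, chk3 f_mm_133 t 1 1 1 = true :=
  ⟨(l 5), by decide +kernel⟩

theorem c_mm_133 : CertF 536870912 536870912 0 1230186008 134217728 67108864 false false false .dn 1 3 3
    ndF3q1 ndF3q3 pcF3 Cut.none Ext.none :=
  certF0 (fam := false) (s1 := false) (s2 := false) (a := 1) (b := 3) (c := 3) (cn := .dn) (n1 := ndF3q1) (n2 := ndF3q3) (pc := pcF3) (cut := Cut.none) (xt := Ext.none) (P1 := 536870912) (W1 := 536870912) (P2 := 0) (W2 := 1230186008) (P3 := 134217728) (W3 := 67108864)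
    rfl k0_mm_133

noncomputable def f_mm_202 : ℕ → ℕ → ℕ → ℕ → Bool := onCell 1073741824 536870912 1073741824 536870912 134217728 67108864
    (rowF 0 false false false .pp 2 0 2 (qsf 1073741824 536870912 1073741824 536870912 0) ndF3q2 ndF3q2 pcF0 Cut.none Ext.none)

def k0_mm_202 : ∃ t, chk3 f_mm_202 t 1 1 1 = true :=
  ⟨(l 3), by decide +kernel⟩

theorem c_mm_202 : CertF 1073741824 536870912 1073741824 536870912 134217728 67108864 false false false .pp 2 0 2
    ndF3q2 ndF3q2 pcF0 Cut.none Ext.none :=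
  certF0 (fam := false) (s1 := false) (s2 := false) (a := 2) (b := 0) (c := 2) (cn := .pp) (n1 := ndF3q2) (n2 := ndF3q2) (pc := pcF0) (cut := Cut.none) (xt := Ext.none) (P1 := 1073741824) (W1 := 536870912) (P2 := 1073741824) (W2 := 536870912) (P3 := 134217728) (W3 := 67108864)
    rfl k0_mm_202

noncomputable def f_mm_203 : ℕ → ℕ → ℕ → ℕ → Bool := onCell 0 536870912 0 1230186008 134217728 67108864
    (rowF 2 false false false .up 2 0 3 (qsf 1073741824 536870912 0 1230186008 0) ndF3q2 ndF3q3 pcF0 Cut.none Ext.none)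

def k0_mm_203 : ∃ t, chk3 f_mm_203 t 1 1 1 = true :=
  ⟨(b (l 3) (l 3)), by decide +kernel⟩

theorem c_mm_203 : CertF 1073741824 536870912 0 1230186008 134217728 67108864 false false false .up 2 0 3
    ndF3q2 ndF3q3 pcF0 Cut.none Ext.none :=
  certF2 (fam := false) (s1 := false) (s2 := false) (a := 2) (b := 0) (c := 3) (cn := .up) (n1 := ndF3q2) (n2 := ndF3q3) (pc := pcF0) (cut := Cut.none) (xt := Ext.none) (P1 := 1073741824) (W1 := 536870912) (P2 := 0) (W2 := 1230186008) (P3 := 134217728) (W3 := 67108864)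
    rfl (fun _ => rfl) k0_mm_203

noncomputable def f_mm_213 : ℕ → ℕ → ℕ → ℕ → Bool := onCell 536870912 536870912 0 1230186008 134217728 67108864
    (rowF 2 false false false .pnn 2 1 3 (qsf 1073741824 536870912 0 1230186008 1) ndF3q2 ndF3q3 pcF1 Cut.none Ext.none)

def k0_mm_213 : ∃ t, chk3 f_mm_213 t 1 1 1 = true :=
  ⟨(b (l 5) (l 5)), by decide +kernel⟩

theorem c_mm_213 : CertF 1073741824 536870912 0 1230186008 134217728 67108864 false false false .pnn 2 1 3
    ndF3q2 ndF3q3 pcF1 Cut.none Ext.none :=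
  certF2 (fam := false) (s1 := false) (s2 := false) (a := 2) (b := 1) (c := 3) (cn := .pnn) (n1 := ndF3q2) (n2 := ndF3q3) (pc := pcF1) (cut := Cut.none) (xt := Ext.none) (P1 := 1073741824) (W1 := 536870912) (P2 := 0) (W2 := 1230186008) (P3 := 134217728) (W3 := 67108864)
    rfl (fun _ => rfl) k0_mm_213

noncomputable def f_mm_303 : ℕ → ℕ → ℕ → ℕ → Bool := onCell 0 1230186008 0 1230186008 134217728 67108864
    (rowF 0 false false false .npn 3 0 3 (qsf 0 1230186008 0 1230186008 0) ndF3q3 ndF3q3 pcF0 Cut.none Ext.none)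

def k0_mm_303 : ∃ t, chk3 f_mm_303 t 1 1 1 = true :=
  ⟨(a (b (l 3) (l 3)) (b (l 3) (l 3))), by decide +kernel⟩

theorem c_mm_303 : CertF 0 1230186008 0 1230186008 134217728 67108864 false false false .npn 3 0 3
    ndF3q3 ndF3q3 pcF0 Cut.none Ext.none :=
  certF0 (fam := false) (s1 := false) (s2 := false) (a := 3) (b := 0) (c := 3) (cn := .npn) (n1 := ndF3q3) (n2 := ndF3q3) (pc := pcF0) (cut := Cut.none) (xt := Ext.none) (P1 := 0) (W1 := 1230186008) (P2 := 0) (W2 := 1230186008) (P3 := 134217728) (W3 := 67108864)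
    rfl k0_mm_303

noncomputable def f_mm_313 : ℕ → ℕ → ℕ → ℕ → Bool := onCell 0 1230186008 0 1230186008 134217728 67108864
    (rowF 0 false false false .dn 3 1 3 (qsf 0 1230186008 0 1230186008 1) ndF3q3 ndF3q3 pcF1 Cut.none Ext.none)

def k0_mm_313 : ∃ t, chk3 f_mm_313 t 1 1 1 = true :=
  ⟨(a (l 1) (b (l 3) (l 1))), by decide +kernel⟩

theorem c_mm_313 : CertF 0 1230186008 0 1230186008 134217728 67108864 false false false .dn 3 1 3
    ndF3q3 ndF3q3 pcF1 Cut.none Ext.none :=
  certF0 (fam := false) (s1 := false) (s2 := false) (a := 3) (b := 1) (c := 3) (cn := .dn) (n1 := ndF3q3) (n2 := ndF3q3) (pc := pcF1) (cut := Cut.none) (xt := Ext.none) (P1 := 0) (W1 := 1230186008) (P2 := 0) (W2 := 1230186008) (P3 := 134217728) (W3 := 67108864)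
    rfl k0_mm_313

end Pool.Agent.Strip051.G.I1_8_3_16.Tab.C.FB33

namespace Pool.Agent.Strip051.G.I1_8_3_16.Tab.C.FB34

open Pool.Agent.Strip051.PB Pool.Agent.Strip051.PB.T
open Pool.Agent.Strip051.G.I1_8_3_16.Tab

noncomputable def f_pp_001 : ℕ → ℕ → ℕ → ℕ → Bool := onCell 0 536870912 0 536870912 134217728 67108864
    (rowF 1 false true true .up 0 0 1 (qsf 0 536870912 536870912 536870912 0) ndF3q0 ndF4q1 pcF0 Cut.none Ext.none)

def k0_pp_001 : ∃ t, chk3 f_pp_001 t 1 1 1 = true :=
  ⟨(l 3), by decide +kernel⟩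

theorem c_pp_001 : CertF 0 536870912 536870912 536870912 134217728 67108864 false true true .up 0 0 1
    ndF3q0 ndF4q1 pcF0 Cut.none Ext.none :=
  certF1 (fam := false) (s1 := true) (s2 := true) (a := 0) (b := 0) (c := 1) (cn := .up) (n1 := ndF3q0) (n2 := ndF4q1) (pc := pcF0) (cut := Cut.none) (xt := Ext.none) (P1 := 0) (W1 := 536870912) (P2 := 536870912) (W2 := 536870912) (P3 := 134217728) (W3 := 67108864)
    rfl (fun _ => rfl) k0_pp_001

noncomputable def f_pp_011 : ℕ → ℕ → ℕ → ℕ → Bool := onCell 0 536870912 536870912 536870912 134217728 67108864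
    (rowF 0 false true true .pnn 0 1 1 (qsf 0 536870912 536870912 536870912 1) ndF3q0 ndF4q1 pcF1 Cut.none Ext.none)

def k0_pp_011 : ∃ t, chk3 f_pp_011 t 1 1 1 = true :=
  ⟨(a (l 3) (l 3)), by decide +kernel⟩

theorem c_pp_011 : CertF 0 536870912 536870912 536870912 134217728 67108864 false true true .pnn 0 1 1
    ndF3q0 ndF4q1 pcF1 Cut.none Ext.none :=
  certF0 (fam := false) (s1 := true) (s2 := true) (a := 0) (b := 1) (c := 1) (cn := .pnn) (n1 := ndF3q0) (n2 := ndF4q1) (pc := pcF1) (cut := Cut.none) (xt := Ext.none) (P1 := 0) (W1 := 536870912) (P2 := 536870912) (W2 := 536870912) (P3 := 134217728) (W3 := 67108864)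
    rfl k0_pp_011

noncomputable def f_pp_012 : ℕ → ℕ → ℕ → ℕ → Bool := onCell 0 536870912 536870912 536870912 134217728 67108864
    (rowF 1 false true true .pnp 0 1 2 (qsf 0 536870912 1073741824 536870912 1) ndF3q0 ndF4q2 pcF1 Cut.none Ext.none)

def k0_pp_012 : ∃ t, chk3 f_pp_012 t 1 1 1 = true :=
  ⟨(b (l 3) (b (l 3) (a (l 3) (a (l 3) (l 17438272))))), by decide +kernel⟩

theorem c_pp_012 : CertF 0 536870912 1073741824 536870912 134217728 67108864 false true true .pnp 0 1 2
    ndF3q0 ndF4q2 pcF1 Cut.none Ext.none :=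
  certF1 (fam := false) (s1 := true) (s2 := true) (a := 0) (b := 1) (c := 2) (cn := .pnp) (n1 := ndF3q0) (n2 := ndF4q2) (pc := pcF1) (cut := Cut.none) (xt := Ext.none) (P1 := 0) (W1 := 536870912) (P2 := 1073741824) (W2 := 536870912) (P3 := 134217728) (W3 := 67108864)
    rfl (fun _ => rfl) k0_pp_012

noncomputable def f_pp_022 : ℕ → ℕ → ℕ → ℕ → Bool := onCell 0 536870912 1073741824 536870912 134217728 67108864
    (rowF 1 false true true .pp 0 2 2 (qsf 0 536870912 1073741824 536870912 2) ndF3q0 ndF4q2 pcF2 Cut.none Ext.none)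

def k0_pp_022 : ∃ t, chk3 f_pp_022 t 1 1 1 = true :=
  ⟨(a (b (a (b (b (l 3) (a (l 3) (l 633140038023))) (b (b (b (l 714744278327) (b (l 17170984) (a (b (l 17138384) (l 17155200)) (l 17403072)))) (a (l 17117312) (l 17502960))) (a (l 17378648) (l 17707640)))) (b (b (l 3) (l 132776672407)) (b (b (b (l 17643992) (a (l 17625720) (l 17727032))) (l 17742768)) (l 17850608)))) (a (b (a (l 17878520) (l 17972040)) (l 18147720)) (b (l 18020896) (l 18121728)))) (b (b (b (a (l 17499816) (l 17644448)) (b (b (l 17700952) (l 17743952)) (a (l 17731520) (l 17830568)))) (b (b (b (l 17840512) (l 17871576)) (l 17905352)) (a (l 17908648) (l 2)))) (b (a (l 18040584) (l 2)) (l 2)))), by decide +kernel⟩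

theorem c_pp_022 : CertF 0 536870912 1073741824 536870912 134217728 67108864 false true true .pp 0 2 2
    ndF3q0 ndF4q2 pcF2 Cut.none Ext.none :=
  certF1 (fam := false) (s1 := true) (s2 := true) (a := 0) (b := 2) (c := 2) (cn := .pp) (n1 := ndF3q0) (n2 := ndF4q2) (pc := pcF2) (cut := Cut.none) (xt := Ext.none) (P1 := 0) (W1 := 536870912) (P2 := 1073741824) (W2 := 536870912) (P3 := 134217728) (W3 := 67108864)
    rfl (fun _ => rfl) k0_pp_022

noncomputable def f_pp_023 : ℕ → ℕ → ℕ → ℕ → Bool := onCell 1073741824 536870912 0 1230186008 134217728 67108864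
    (rowF 2 false true true .up 0 2 3 (qsf 0 536870912 0 1230186008 2) ndF3q0 ndF4q3 pcF2 Cut.none Ext.none)

def k0_pp_023 : ∃ t, chk3 f_pp_023 t 1 1 1 = true :=
  ⟨(b (a (l 2) (a (l 2) (l 18079672))) (b (a (a (l 2) (a (l 2) (l 18334456))) (a (l 18288312) (l 18126416))) (a (a (a (l 18244344) (a (a (l 18254208) (l 18244224)) (b (l 2) (l 18124224)))) (a (a (a (l 18206904) (l 18195144)) (l 18162040)) (l 18109776))) (a (l 18037768) (l 17939032))))), by decide +kernel⟩

theorem c_pp_023 : CertF 0 536870912 0 1230186008 134217728 67108864 false true true .up 0 2 3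
    ndF3q0 ndF4q3 pcF2 Cut.none Ext.none :=
  certF2 (fam := false) (s1 := true) (s2 := true) (a := 0) (b := 2) (c := 3) (cn := .up) (n1 := ndF3q0) (n2 := ndF4q3) (pc := pcF2) (cut := Cut.none) (xt := Ext.none) (P1 := 0) (W1 := 536870912) (P2 := 0) (W2 := 1230186008) (P3 := 134217728) (W3 := 67108864)
    rfl (fun _ => rfl) k0_pp_023

noncomputable def f_pp_033 : ℕ → ℕ → ℕ → ℕ → Bool := onCell 1610612736 536870912 0 1230186008 134217728 67108864
    (rowF 2 false true true .pnn 0 3 3 (qsf 0 536870912 0 1230186008 3) ndF3q0 ndF4q3 pcF3 Cut.none Ext.none)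

def k0_pp_033 : ∃ t, chk3 f_pp_033 t 1 1 1 = true :=
  ⟨(b (a (a (l 17581224) (l 17476504)) (a (l 17425496) (a (l 4) (l 4)))) (b (a (a (b (l 17585216) (l 17444232)) (a (l 17448048) (l 17405320))) (a (a (l 17357304) (l 17445112)) (b (a (l 17294160) (l 1)) (l 1)))) (a (b (l 244311604727) (a (l 17691544) (b (a (l 17480072) (l 1)) (l 1)))) (l 1)))), by decide +kernel⟩

theorem c_pp_033 : CertF 0 536870912 0 1230186008 134217728 67108864 false true true .pnn 0 3 3
    ndF3q0 ndF4q3 pcF3 Cut.none Ext.none :=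
  certF2 (fam := false) (s1 := true) (s2 := true) (a := 0) (b := 3) (c := 3) (cn := .pnn) (n1 := ndF3q0) (n2 := ndF4q3) (pc := pcF3) (cut := Cut.none) (xt := Ext.none) (P1 := 0) (W1 := 536870912) (P2 := 0) (W2 := 1230186008) (P3 := 134217728) (W3 := 67108864)
    rfl (fun _ => rfl) k0_pp_033

noncomputable def f_pp_101 : ℕ → ℕ → ℕ → ℕ → Bool := onCell 536870912 536870912 536870912 536870912 134217728 67108864
    (rowF 0 false true true .npn 1 0 1 (qsf 536870912 536870912 536870912 536870912 0) ndF3q1 ndF4q1 pcF0 Cut.none Ext.none)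

def k0_pp_101 : ∃ t, chk3 f_pp_101 t 1 1 1 = true :=
  ⟨(l 3), by decide +kernel⟩

theorem c_pp_101 : CertF 536870912 536870912 536870912 536870912 134217728 67108864 false true true .npn 1 0 1
    ndF3q1 ndF4q1 pcF0 Cut.none Ext.none :=
  certF0 (fam := false) (s1 := true) (s2 := true) (a := 1) (b := 0) (c := 1) (cn := .npn) (n1 := ndF3q1) (n2 := ndF4q1) (pc := pcF0) (cut := Cut.none) (xt := Ext.none) (P1 := 536870912) (W1 := 536870912) (P2 := 536870912) (W2 := 536870912) (P3 := 134217728) (W3 := 67108864)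
    rfl k0_pp_101

noncomputable def f_pp_102 : ℕ → ℕ → ℕ → ℕ → Bool := onCell 536870912 536870912 0 536870912 134217728 67108864
    (rowF 1 false true true .npp 1 0 2 (qsf 536870912 536870912 1073741824 536870912 0) ndF3q1 ndF4q2 pcF0 Cut.none Ext.none)

def k0_pp_102 : ∃ t, chk3 f_pp_102 t 1 1 1 = true :=
  ⟨(l 3), by decide +kernel⟩

theorem c_pp_102 : CertF 536870912 536870912 1073741824 536870912 134217728 67108864 false true true .npp 1 0 2
    ndF3q1 ndF4q2 pcF0 Cut.none Ext.none :=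
  certF1 (fam := false) (s1 := true) (s2 := true) (a := 1) (b := 0) (c := 2) (cn := .npp) (n1 := ndF3q1) (n2 := ndF4q2) (pc := pcF0) (cut := Cut.none) (xt := Ext.none) (P1 := 536870912) (W1 := 536870912) (P2 := 1073741824) (W2 := 536870912) (P3 := 134217728) (W3 := 67108864)
    rfl (fun _ => rfl) k0_pp_102

noncomputable def f_pp_112 : ℕ → ℕ → ℕ → ℕ → Bool := onCell 536870912 536870912 1073741824 536870912 134217728 67108864
    (rowF 2 false true true .dn 1 1 2 (qsf 536870912 536870912 1073741824 536870912 1) ndF3q1 ndF4q2 pcF1 Cut.none Ext.none)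

def k0_pp_112 : ∃ t, chk3 f_pp_112 t 1 1 1 = true :=
  ⟨(a (l 3) (b (l 3) (a (l 3) (l 362559221223)))), by decide +kernel⟩

theorem c_pp_112 : CertF 536870912 536870912 1073741824 536870912 134217728 67108864 false true true .dn 1 1 2
    ndF3q1 ndF4q2 pcF1 Cut.none Ext.none :=
  certF2 (fam := false) (s1 := true) (s2 := true) (a := 1) (b := 1) (c := 2) (cn := .dn) (n1 := ndF3q1) (n2 := ndF4q2) (pc := pcF1) (cut := Cut.none) (xt := Ext.none) (P1 := 536870912) (W1 := 536870912) (P2 := 1073741824) (W2 := 536870912) (P3 := 134217728) (W3 := 67108864)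
    rfl (fun _ => rfl) k0_pp_112

noncomputable def f_pp_113 : ℕ → ℕ → ℕ → ℕ → Bool := onCell 536870912 536870912 0 1230186008 134217728 67108864
    (rowF 0 false true true .nn 1 1 3 (qsf 536870912 536870912 0 1230186008 1) ndF3q1 ndF4q3 pcF1 Cut.none Ext.none)

def k0_pp_113 : ∃ t, chk3 f_pp_113 t 1 1 1 = true :=
  ⟨(b (a (l 2) (a (l 2) (a (a (l 16966552) (l 17053152)) (b (l 16884568) (l 17450432))))) (b (a (b (l 2) (a (l 2) (a (l 2) (l 17331656)))) (b (a (b (l 17276840) (l 17446872)) (a (l 17731856) (l 17928440))) (a (a (l 17517280) (l 17721744)) (a (l 17932256) (l 18118752))))) (a (b (a (l 2) (b (l 17435176) (l 17526888))) (a (b (a (l 2) (l 17449832)) (l 17503000)) (b (l 17628624) (l 17736984)))) (b (a (a (l 17700800) (l 17908704)) (a (l 18145416) (l 18544504))) (a (a (l 17924416) (l 342157808087)) (a (l 342695158375) (l 3))))))), by decide +kernel⟩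

theorem c_pp_113 : CertF 536870912 536870912 0 1230186008 134217728 67108864 false true true .nn 1 1 3
    ndF3q1 ndF4q3 pcF1 Cut.none Ext.none :=
  certF0 (fam := false) (s1 := true) (s2 := true) (a := 1) (b := 1) (c := 3) (cn := .nn) (n1 := ndF3q1) (n2 := ndF4q3) (pc := pcF1) (cut := Cut.none) (xt := Ext.none) (P1 := 536870912) (W1 := 536870912) (P2 := 0) (W2 := 1230186008) (P3 := 134217728) (W3 := 67108864)
    rfl k0_pp_113

noncomputable def f_pp_123 : ℕ → ℕ → ℕ → ℕ → Bool := onCell 1073741824 536870912 0 1230186008 134217728 67108864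
    (rowF 2 false true true .npn 1 2 3 (qsf 536870912 536870912 0 1230186008 2) ndF3q1 ndF4q3 pcF2 Cut.none Ext.none)

def k0_pp_123 : ∃ t, chk3 f_pp_123 t 1 1 1 = true :=
  ⟨(b (b (a (a (a (a (l 16882048) (b (l 16792528) (l 16958376))) (l 16879336)) (l 16800112)) (l 17079432)) (a (b (a (a (a (l 17246320) (l 17057792)) (l 16991432)) (l 16851056)) (a (a (l 17254936) (l 17062552)) (l 16934000))) (a (l 16883800) (l 16788736)))) (b (a (a (a (b (l 17279064) (l 17339016)) (a (b (l 17179112) (l 17254456)) (b (l 17124344) (l 17204688)))) (a (a (l 17120440) (l 17084560)) (l 17035024))) (b (l 16918936) (l 16963008))) (a (a (a (l 17413728) (a (a (l 17360520) (l 17338896)) (b (l 17274448) (l 17314200)))) (a (a (b (l 17234288) (l 17279160)) (l 17219152)) (l 17277848))) (l 1)))), by decide +kernel⟩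

theorem c_pp_123 : CertF 536870912 536870912 0 1230186008 134217728 67108864 false true true .npn 1 2 3
    ndF3q1 ndF4q3 pcF2 Cut.none Ext.none :=
  certF2 (fam := false) (s1 := true) (s2 := true) (a := 1) (b := 2) (c := 3) (cn := .npn) (n1 := ndF3q1) (n2 := ndF4q3) (pc := pcF2) (cut := Cut.none) (xt := Ext.none) (P1 := 536870912) (W1 := 536870912) (P2 := 0) (W2 := 1230186008) (P3 := 134217728) (W3 := 67108864)
    rfl (fun _ => rfl) k0_pp_123

noncomputable def f_pp_133 : ℕ → ℕ → ℕ → ℕ → Bool := onCell 1610612736 536870912 0 1230186008 134217728 67108864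
    (rowF 2 false true true .dn 1 3 3 (qsf 536870912 536870912 0 1230186008 3) ndF3q1 ndF4q3 pcF3 Cut.none Ext.none)

def k0_pp_133 : ∃ t, chk3 f_pp_133 t 1 1 1 = true :=
  ⟨(b (b (l 4) (l 1)) (l 1)), by decide +kernel⟩

theorem c_pp_133 : CertF 536870912 536870912 0 1230186008 134217728 67108864 false true true .dn 1 3 3
    ndF3q1 ndF4q3 pcF3 Cut.none Ext.none :=
  certF2 (fam := false) (s1 := true) (s2 := true) (a := 1) (b := 3) (c := 3) (cn := .dn) (n1 := ndF3q1) (n2 := ndF4q3) (pc := pcF3) (cut := Cut.none) (xt := Ext.none) (P1 := 536870912) (W1 := 536870912) (P2 := 0) (W2 := 1230186008) (P3 := 134217728) (W3 := 67108864)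
    rfl (fun _ => rfl) k0_pp_133

noncomputable def f_pp_202 : ℕ → ℕ → ℕ → ℕ → Bool := onCell 1073741824 536870912 1073741824 536870912 134217728 67108864
    (rowF 0 false true true .pp 2 0 2 (qsf 1073741824 536870912 1073741824 536870912 0) ndF3q2 ndF4q2 pcF0 Cut.none Ext.none)

def k0_pp_202 : ∃ t, chk3 f_pp_202 t 1 1 1 = true :=
  ⟨(l 3), by decide +kernel⟩

theorem c_pp_202 : CertF 1073741824 536870912 1073741824 536870912 134217728 67108864 false true true .pp 2 0 2
    ndF3q2 ndF4q2 pcF0 Cut.none Ext.none :=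
  certF0 (fam := false) (s1 := true) (s2 := true) (a := 2) (b := 0) (c := 2) (cn := .pp) (n1 := ndF3q2) (n2 := ndF4q2) (pc := pcF0) (cut := Cut.none) (xt := Ext.none) (P1 := 1073741824) (W1 := 536870912) (P2 := 1073741824) (W2 := 536870912) (P3 := 134217728) (W3 := 67108864)
    rfl k0_pp_202

noncomputable def f_pp_203 : ℕ → ℕ → ℕ → ℕ → Bool := onCell 0 536870912 0 1230186008 134217728 67108864
    (rowF 2 false true true .up 2 0 3 (qsf 1073741824 536870912 0 1230186008 0) ndF3q2 ndF4q3 pcF0 Cut.none Ext.none)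

def k0_pp_203 : ∃ t, chk3 f_pp_203 t 1 1 1 = true :=
  ⟨(b (l 3) (l 3)), by decide +kernel⟩

theorem c_pp_203 : CertF 1073741824 536870912 0 1230186008 134217728 67108864 false true true .up 2 0 3
    ndF3q2 ndF4q3 pcF0 Cut.none Ext.none :=
  certF2 (fam := false) (s1 := true) (s2 := true) (a := 2) (b := 0) (c := 3) (cn := .up) (n1 := ndF3q2) (n2 := ndF4q3) (pc := pcF0) (cut := Cut.none) (xt := Ext.none) (P1 := 1073741824) (W1 := 536870912) (P2 := 0) (W2 := 1230186008) (P3 := 134217728) (W3 := 67108864)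
    rfl (fun _ => rfl) k0_pp_203

noncomputable def f_pp_213 : ℕ → ℕ → ℕ → ℕ → Bool := onCell 1073741824 536870912 0 1230186008 134217728 67108864
    (rowF 0 false true true .pnn 2 1 3 (qsf 1073741824 536870912 0 1230186008 1) ndF3q2 ndF4q3 pcF1 Cut.none Ext.none)

def k0_pp_213 : ∃ t, chk3 f_pp_213 t 1 1 1 = true :=
  ⟨(b (a (b (a (a (l 221359333415) (a (a (l 16981680) (l 243371189063)) (a (l 251424048343) (l 262698123751)))) (a (a (a (l 17124752) (l 267530459143)) (l 17200816)) (l 3))) (b (l 3) (l 3))) (l 3)) (l 3)), by decide +kernel⟩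

theorem c_pp_213 : CertF 1073741824 536870912 0 1230186008 134217728 67108864 false true true .pnn 2 1 3
    ndF3q2 ndF4q3 pcF1 Cut.none Ext.none :=
  certF0 (fam := false) (s1 := true) (s2 := true) (a := 2) (b := 1) (c := 3) (cn := .pnn) (n1 := ndF3q2) (n2 := ndF4q3) (pc := pcF1) (cut := Cut.none) (xt := Ext.none) (P1 := 1073741824) (W1 := 536870912) (P2 := 0) (W2 := 1230186008) (P3 := 134217728) (W3 := 67108864)
    rfl k0_pp_213

noncomputable def f_pp_303 : ℕ → ℕ → ℕ → ℕ → Bool := onCell 0 1230186008 0 1230186008 134217728 67108864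
    (rowF 0 false true true .npn 3 0 3 (qsf 0 1230186008 0 1230186008 0) ndF3q3 ndF4q3 pcF0 Cut.none Ext.none)

def k0_pp_303 : ∃ t, chk3 f_pp_303 t 1 1 1 = true :=
  ⟨(a (b (l 3) (l 5)) (b (l 3) (l 3))), by decide +kernel⟩

theorem c_pp_303 : CertF 0 1230186008 0 1230186008 134217728 67108864 false true true .npn 3 0 3
    ndF3q3 ndF4q3 pcF0 Cut.none Ext.none :=
  certF0 (fam := false) (s1 := true) (s2 := true) (a := 3) (b := 0) (c := 3) (cn := .npn) (n1 := ndF3q3) (n2 := ndF4q3) (pc := pcF0) (cut := Cut.none) (xt := Ext.none) (P1 := 0) (W1 := 1230186008) (P2 := 0) (W2 := 1230186008) (P3 := 134217728) (W3 := 67108864)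
    rfl k0_pp_303

noncomputable def f_pp_313 : ℕ → ℕ → ℕ → ℕ → Bool := onCell 0 1230186008 0 1230186008 134217728 67108864
    (rowF 0 false true true .dn 3 1 3 (qsf 0 1230186008 0 1230186008 1) ndF3q3 ndF4q3 pcF1 Cut.none Ext.none)

def k0_pp_313 : ∃ t, chk3 f_pp_313 t 1 1 1 = true :=
  ⟨(a (l 1) (b (l 3) (l 1))), by decide +kernel⟩

theorem c_pp_313 : CertF 0 1230186008 0 1230186008 134217728 67108864 false true true .dn 3 1 3
    ndF3q3 ndF4q3 pcF1 Cut.none Ext.none :=
  certF0 (fam := false) (s1 := true) (s2 := true) (a := 3) (b := 1) (c := 3) (cn := .dn) (n1 := ndF3q3) (n2 := ndF4q3) (pc := pcF1) (cut := Cut.none) (xt := Ext.none) (P1 := 0) (W1 := 1230186008) (P2 := 0) (W2 := 1230186008) (P3 := 134217728) (W3 := 67108864)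
    rfl k0_pp_313

noncomputable def f_pm_001 : ℕ → ℕ → ℕ → ℕ → Bool := onCell 0 536870912 536870912 536870912 134217728 67108864
    (rowF 0 false true false .up 0 0 1 (qsf 0 536870912 536870912 536870912 0) ndF3q0 ndF4q1 pcF0 Cut.none Ext.none)

def k0_pm_001 : ∃ t, chk3 f_pm_001 t 1 1 1 = true :=
  ⟨(l 4), by decide +kernel⟩

theorem c_pm_001 : CertF 0 536870912 536870912 536870912 134217728 67108864 false true false .up 0 0 1
    ndF3q0 ndF4q1 pcF0 Cut.none Ext.none :=
  certF0 (fam := false) (s1 := true) (s2 := false) (a := 0) (b := 0) (c := 1) (cn := .up) (n1 := ndF3q0) (n2 := ndF4q1) (pc := pcF0) (cut := Cut.none) (xt := Ext.none) (P1 := 0) (W1 := 536870912) (P2 := 536870912) (W2 := 536870912) (P3 := 134217728) (W3 := 67108864)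
    rfl k0_pm_001

noncomputable def f_pm_011 : ℕ → ℕ → ℕ → ℕ → Bool := onCell 0 536870912 536870912 536870912 134217728 67108864
    (rowF 0 false true false .pnn 0 1 1 (qsf 0 536870912 536870912 536870912 1) ndF3q0 ndF4q1 pcF1 Cut.none Ext.none)

def k0_pm_011 : ∃ t, chk3 f_pm_011 t 1 1 1 = true :=
  ⟨(l 4), by decide +kernel⟩

theorem c_pm_011 : CertF 0 536870912 536870912 536870912 134217728 67108864 false true false .pnn 0 1 1
    ndF3q0 ndF4q1 pcF1 Cut.none Ext.none :=
  certF0 (fam := false) (s1 := true) (s2 := false) (a := 0) (b := 1) (c := 1) (cn := .pnn) (n1 := ndF3q0) (n2 := ndF4q1) (pc := pcF1) (cut := Cut.none) (xt := Ext.none) (P1 := 0) (W1 := 536870912) (P2 := 536870912) (W2 := 536870912) (P3 := 134217728) (W3 := 67108864)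
    rfl k0_pm_011

noncomputable def f_pm_012 : ℕ → ℕ → ℕ → ℕ → Bool := onCell 0 536870912 1073741824 536870912 134217728 67108864
    (rowF 0 false true false .pnp 0 1 2 (qsf 0 536870912 1073741824 536870912 1) ndF3q0 ndF4q2 pcF1 Cut.none Ext.none)

def k0_pm_012 : ∃ t, chk3 f_pm_012 t 1 1 1 = true :=
  ⟨(l 4), by decide +kernel⟩

theorem c_pm_012 : CertF 0 536870912 1073741824 536870912 134217728 67108864 false true false .pnp 0 1 2
    ndF3q0 ndF4q2 pcF1 Cut.none Ext.none :=
  certF0 (fam := false) (s1 := true) (s2 := false) (a := 0) (b := 1) (c := 2) (cn := .pnp) (n1 := ndF3q0) (n2 := ndF4q2) (pc := pcF1) (cut := Cut.none) (xt := Ext.none) (P1 := 0) (W1 := 536870912) (P2 := 1073741824) (W2 := 536870912) (P3 := 134217728) (W3 := 67108864)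
    rfl k0_pm_012

noncomputable def f_pm_022 : ℕ → ℕ → ℕ → ℕ → Bool := onCell 0 536870912 1073741824 536870912 134217728 67108864
    (rowF 0 false true false .pp 0 2 2 (qsf 0 536870912 1073741824 536870912 2) ndF3q0 ndF4q2 pcF2 Cut.none Ext.none)

def k0_pm_022 : ∃ t, chk3 f_pm_022 t 1 1 1 = true :=
  ⟨(l 4), by decide +kernel⟩

theorem c_pm_022 : CertF 0 536870912 1073741824 536870912 134217728 67108864 false true false .pp 0 2 2
    ndF3q0 ndF4q2 pcF2 Cut.none Ext.none :=
  certF0 (fam := false) (s1 := true) (s2 := false) (a := 0) (b := 2) (c := 2) (cn := .pp) (n1 := ndF3q0) (n2 := ndF4q2) (pc := pcF2) (cut := Cut.none) (xt := Ext.none) (P1 := 0) (W1 := 536870912) (P2 := 1073741824) (W2 := 536870912) (P3 := 134217728) (W3 := 67108864)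
    rfl k0_pm_022

noncomputable def f_pm_023 : ℕ → ℕ → ℕ → ℕ → Bool := onCell 0 536870912 0 1230186008 134217728 67108864
    (rowF 0 false true false .up 0 2 3 (qsf 0 536870912 0 1230186008 2) ndF3q0 ndF4q3 pcF2 Cut.none Ext.none)

def k0_pm_023 : ∃ t, chk3 f_pm_023 t 1 1 1 = true :=
  ⟨(b (l 4) (l 4)), by decide +kernel⟩

theorem c_pm_023 : CertF 0 536870912 0 1230186008 134217728 67108864 false true false .up 0 2 3
    ndF3q0 ndF4q3 pcF2 Cut.none Ext.none :=
  certF0 (fam := false) (s1 := true) (s2 := false) (a := 0) (b := 2) (c := 3) (cn := .up) (n1 := ndF3q0) (n2 := ndF4q3) (pc := pcF2) (cut := Cut.none) (xt := Ext.none) (P1 := 0) (W1 := 536870912) (P2 := 0) (W2 := 1230186008) (P3 := 134217728) (W3 := 67108864)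
    rfl k0_pm_023

noncomputable def f_pm_033 : ℕ → ℕ → ℕ → ℕ → Bool := onCell 0 536870912 0 1230186008 134217728 67108864
    (rowF 0 false true false .pnn 0 3 3 (qsf 0 536870912 0 1230186008 3) ndF3q0 ndF4q3 pcF3 Cut.none Ext.none)

def k0_pm_033 : ∃ t, chk3 f_pm_033 t 1 1 1 = true :=
  ⟨(b (l 4) (l 4)), by decide +kernel⟩

theorem c_pm_033 : CertF 0 536870912 0 1230186008 134217728 67108864 false true false .pnn 0 3 3
    ndF3q0 ndF4q3 pcF3 Cut.none Ext.none :=
  certF0 (fam := false) (s1 := true) (s2 := false) (a := 0) (b := 3) (c := 3) (cn := .pnn) (n1 := ndF3q0) (n2 := ndF4q3) (pc := pcF3) (cut := Cut.none) (xt := Ext.none) (P1 := 0) (W1 := 536870912) (P2 := 0) (W2 := 1230186008) (P3 := 134217728) (W3 := 67108864)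
    rfl k0_pm_033

noncomputable def f_pm_101 : ℕ → ℕ → ℕ → ℕ → Bool := onCell 536870912 536870912 536870912 536870912 134217728 67108864
    (rowF 0 false true false .npn 1 0 1 (qsf 536870912 536870912 536870912 536870912 0) ndF3q1 ndF4q1 pcF0 Cut.none Ext.none)

def k0_pm_101 : ∃ t, chk3 f_pm_101 t 1 1 1 = true :=
  ⟨(l 4), by decide +kernel⟩

theorem c_pm_101 : CertF 536870912 536870912 536870912 536870912 134217728 67108864 false true false .npn 1 0 1
    ndF3q1 ndF4q1 pcF0 Cut.none Ext.none :=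
  certF0 (fam := false) (s1 := true) (s2 := false) (a := 1) (b := 0) (c := 1) (cn := .npn) (n1 := ndF3q1) (n2 := ndF4q1) (pc := pcF0) (cut := Cut.none) (xt := Ext.none) (P1 := 536870912) (W1 := 536870912) (P2 := 536870912) (W2 := 536870912) (P3 := 134217728) (W3 := 67108864)
    rfl k0_pm_101

noncomputable def f_pm_102 : ℕ → ℕ → ℕ → ℕ → Bool := onCell 536870912 536870912 1073741824 536870912 134217728 67108864
    (rowF 0 false true false .npp 1 0 2 (qsf 536870912 536870912 1073741824 536870912 0) ndF3q1 ndF4q2 pcF0 Cut.none Ext.none)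

def k0_pm_102 : ∃ t, chk3 f_pm_102 t 1 1 1 = true :=
  ⟨(l 4), by decide +kernel⟩

theorem c_pm_102 : CertF 536870912 536870912 1073741824 536870912 134217728 67108864 false true false .npp 1 0 2
    ndF3q1 ndF4q2 pcF0 Cut.none Ext.none :=
  certF0 (fam := false) (s1 := true) (s2 := false) (a := 1) (b := 0) (c := 2) (cn := .npp) (n1 := ndF3q1) (n2 := ndF4q2) (pc := pcF0) (cut := Cut.none) (xt := Ext.none) (P1 := 536870912) (W1 := 536870912) (P2 := 1073741824) (W2 := 536870912) (P3 := 134217728) (W3 := 67108864)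
    rfl k0_pm_102

noncomputable def f_pm_112 : ℕ → ℕ → ℕ → ℕ → Bool := onCell 536870912 536870912 1073741824 536870912 134217728 67108864
    (rowF 0 false true false .dn 1 1 2 (qsf 536870912 536870912 1073741824 536870912 1) ndF3q1 ndF4q2 pcF1 Cut.none Ext.none)

def k0_pm_112 : ∃ t, chk3 f_pm_112 t 1 1 1 = true :=
  ⟨(l 4), by decide +kernel⟩

theorem c_pm_112 : CertF 536870912 536870912 1073741824 536870912 134217728 67108864 false true false .dn 1 1 2
    ndF3q1 ndF4q2 pcF1 Cut.none Ext.none :=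
  certF0 (fam := false) (s1 := true) (s2 := false) (a := 1) (b := 1) (c := 2) (cn := .dn) (n1 := ndF3q1) (n2 := ndF4q2) (pc := pcF1) (cut := Cut.none) (xt := Ext.none) (P1 := 536870912) (W1 := 536870912) (P2 := 1073741824) (W2 := 536870912) (P3 := 134217728) (W3 := 67108864)
    rfl k0_pm_112

noncomputable def f_pm_113 : ℕ → ℕ → ℕ → ℕ → Bool := onCell 536870912 536870912 0 1230186008 134217728 67108864
    (rowF 0 false true false .nn 1 1 3 (qsf 536870912 536870912 0 1230186008 1) ndF3q1 ndF4q3 pcF1 Cut.none Ext.none)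

def k0_pm_113 : ∃ t, chk3 f_pm_113 t 1 1 1 = true :=
  ⟨(b (b (a (l 2) (a (l 2) (a (l 2) (l 16832800)))) (l 4)) (l 4)), by decide +kernel⟩

theorem c_pm_113 : CertF 536870912 536870912 0 1230186008 134217728 67108864 false true false .nn 1 1 3
    ndF3q1 ndF4q3 pcF1 Cut.none Ext.none :=
  certF0 (fam := false) (s1 := true) (s2 := false) (a := 1) (b := 1) (c := 3) (cn := .nn) (n1 := ndF3q1) (n2 := ndF4q3) (pc := pcF1) (cut := Cut.none) (xt := Ext.none) (P1 := 536870912) (W1 := 536870912) (P2 := 0) (W2 := 1230186008) (P3 := 134217728) (W3 := 67108864)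
    rfl k0_pm_113

noncomputable def f_pm_123 : ℕ → ℕ → ℕ → ℕ → Bool := onCell 536870912 536870912 0 1230186008 134217728 67108864
    (rowF 0 false true false .npn 1 2 3 (qsf 536870912 536870912 0 1230186008 2) ndF3q1 ndF4q3 pcF2 Cut.none Ext.none)

def k0_pm_123 : ∃ t, chk3 f_pm_123 t 1 1 1 = true :=
  ⟨(b (b (a (l 4) (a (l 4) (a (l 4) (l 16864120)))) (l 4)) (l 4)), by decide +kernel⟩

theorem c_pm_123 : CertF 536870912 536870912 0 1230186008 134217728 67108864 false true false .npn 1 2 3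
    ndF3q1 ndF4q3 pcF2 Cut.none Ext.none :=
  certF0 (fam := false) (s1 := true) (s2 := false) (a := 1) (b := 2) (c := 3) (cn := .npn) (n1 := ndF3q1) (n2 := ndF4q3) (pc := pcF2) (cut := Cut.none) (xt := Ext.none) (P1 := 536870912) (W1 := 536870912) (P2 := 0) (W2 := 1230186008) (P3 := 134217728) (W3 := 67108864)
    rfl k0_pm_123

noncomputable def f_pm_133 : ℕ → ℕ → ℕ → ℕ → Bool := onCell 1610612736 536870912 0 1230186008 134217728 67108864
    (rowF 2 false true false .dn 1 3 3 (qsf 536870912 536870912 0 1230186008 3) ndF3q1 ndF4q3 pcF3 Cut.none Ext.none)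

def k0_pm_133 : ∃ t, chk3 f_pm_133 t 1 1 1 = true :=
  ⟨(b (l 4) (l 1)), by decide +kernel⟩

theorem c_pm_133 : CertF 536870912 536870912 0 1230186008 134217728 67108864 false true false .dn 1 3 3
    ndF3q1 ndF4q3 pcF3 Cut.none Ext.none :=
  certF2 (fam := false) (s1 := true) (s2 := false) (a := 1) (b := 3) (c := 3) (cn := .dn) (n1 := ndF3q1) (n2 := ndF4q3) (pc := pcF3) (cut := Cut.none) (xt := Ext.none) (P1 := 536870912) (W1 := 536870912) (P2 := 0) (W2 := 1230186008) (P3 := 134217728) (W3 := 67108864)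
    rfl (fun _ => rfl) k0_pm_133

noncomputable def f_pm_202 : ℕ → ℕ → ℕ → ℕ → Bool := onCell 1073741824 536870912 0 536870912 134217728 67108864
    (rowF 1 false true false .pp 2 0 2 (qsf 1073741824 536870912 1073741824 536870912 0) ndF3q2 ndF4q2 pcF0 Cut.none Ext.none)

def k0_pm_202 : ∃ t, chk3 f_pm_202 t 1 1 1 = true :=
  ⟨(a (b (a (b (a (l 18903016) (a (a (l 18801840) (l 18739664)) (l 18669088))) (a (l 18522496) (a (a (l 18431904) (l 18378176)) (l 18266208)))) (a (b (a (l 18871456) (l 18489512)) (a (l 18193888) (l 18102232))) (b (l 18264328) (l 17943688)))) (a (b (a (l 18118432) (a (a (l 17974744) (l 17884936)) (l 17822360))) (a (b (l 17669056) (b (l 17552184) (l 17593144))) (a (b (l 17606024) (l 17683760)) (b (l 17715936) (l 2))))) (a (b (b (l 18031608) (l 17732880)) (a (l 17905072) (l 2))) (b (b (l 17763536) (l 17931960)) (l 2))))) (b (b (a (b (l 17988776) (l 17869384)) (l 17915424)) (a (b (l 17833184) (l 17988448)) (l 161165152407))) (b (a (l 18076376) (l 2)) (l 2)))),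 by decide +kernel⟩

theorem c_pm_202 : CertF 1073741824 536870912 1073741824 536870912 134217728 67108864 false true false .pp 2 0 2
    ndF3q2 ndF4q2 pcF0 Cut.none Ext.none :=
  certF1 (fam := false) (s1 := true) (s2 := false) (a := 2) (b := 0) (c := 2) (cn := .pp) (n1 := ndF3q2) (n2 := ndF4q2) (pc := pcF0) (cut := Cut.none) (xt := Ext.none) (P1 := 1073741824) (W1 := 536870912) (P2 := 1073741824) (W2 := 536870912) (P3 := 134217728) (W3 := 67108864)
    rfl (fun _ => rfl) k0_pm_202

noncomputable def f_pm_203 : ℕ → ℕ → ℕ → ℕ → Bool := onCell 1073741824 536870912 0 1230186008 134217728 67108864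
    (rowF 0 false true false .up 2 0 3 (qsf 1073741824 536870912 0 1230186008 0) ndF3q2 ndF4q3 pcF0 Cut.none Ext.none)

def k0_pm_203 : ∃ t, chk3 f_pm_203 t 1 1 1 = true :=
  ⟨(b (a (l 2) (a (l 2) (b (l 3) (b (l 208475576279) (a (l 17457152) (l 17471744)))))) (b (a (b (l 2) (a (l 2) (a (l 2) (l 18005472)))) (a (b (a (l 2) (l 17721872)) (b (l 17912536) (l 18042736))) (b (a (l 17706904) (l 17706616)) (b (l 17903608) (l 18042320))))) (a (b (a (l 2) (a (a (l 18450608) (l 18210384)) (l 18149408))) (a (a (l 18129984) (a (a (l 18162776) (l 18263512)) (a (l 18149400) (l 18141096)))) (a (a (l 18127464) (l 18173104)) (l 18031752)))) (b (a (l 18145984) (b (l 18106040) (l 17992296))) (a (l 17996104) (l 17950304)))))), by decide +kernel⟩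

theorem c_pm_203 : CertF 1073741824 536870912 0 1230186008 134217728 67108864 false true false .up 2 0 3
    ndF3q2 ndF4q3 pcF0 Cut.none Ext.none :=
  certF0 (fam := false) (s1 := true) (s2 := false) (a := 2) (b := 0) (c := 3) (cn := .up) (n1 := ndF3q2) (n2 := ndF4q3) (pc := pcF0) (cut := Cut.none) (xt := Ext.none) (P1 := 1073741824) (W1 := 536870912) (P2 := 0) (W2 := 1230186008) (P3 := 134217728) (W3 := 67108864)
    rfl k0_pm_203

noncomputable def f_pm_213 : ℕ → ℕ → ℕ → ℕ → Bool := onCell 1073741824 536870912 0 1230186008 134217728 67108864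
    (rowF 0 false true false .pnn 2 1 3 (qsf 1073741824 536870912 0 1230186008 1) ndF3q2 ndF4q3 pcF1 Cut.none Ext.none)

def k0_pm_213 : ∃ t, chk3 f_pm_213 t 1 1 1 = true :=
  ⟨(b (b (a (a (a (l 16948416) (a (a (l 16997672) (l 17001544)) (l 17159304))) (a (a (a (l 17002984) (l 17008160)) (l 16998400)) (l 17058256))) (a (a (l 17111648) (l 17162792)) (l 3))) (a (a (a (l 17113472) (a (a (l 17121696) (l 17130400)) (l 17156232))) (a (a (a (l 17118720) (l 17118408)) (l 17098368)) (l 17240032))) (a (b (l 17268024) (l 17154744)) (b (a (l 17293248) (l 3)) (a (l 17308520) (l 17432512)))))) (b (a (b (a (a (l 17137328) (a (a (l 17200520) (l 17205216)) (l 17169688))) (a (a (l 17192128) (l 17157392)) (l 17100576))) (a (a (l 17143960) (a (a (l 17199360) (l 17202152)) (l 17166240))) (a (a (l 17187360) (l 17151456)) (l 17090096)))) (a (b (a (l 17093624) (l 17147208)) (b (l 17069976) (l 17047912))) (b (a (l 17220792) (l 1)) (l 1)))) (a (b (a (a (l 17179624) (a (a (l 17221720) (l 17221248))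 (l 17181272))) (a (a (l 17194840) (l 17152160)) (l 17089824))) (a (a (l 17409632) (a (a (l 17370760) (l 17352632)) (l 17310984))) (a (a (l 17287280) (l 1)) (l 1)))) (l 1)))), by decide +kernel⟩

theorem c_pm_213 : CertF 1073741824 536870912 0 1230186008 134217728 67108864 false true false .pnn 2 1 3
    ndF3q2 ndF4q3 pcF1 Cut.none Ext.none :=
  certF0 (fam := false) (s1 := true) (s2 := false) (a := 2) (b := 1) (c := 3) (cn := .pnn) (n1 := ndF3q2) (n2 := ndF4q3) (pc := pcF1) (cut := Cut.none) (xt := Ext.none) (P1 := 1073741824) (W1 := 536870912) (P2 := 0) (W2 := 1230186008) (P3 := 134217728) (W3 := 67108864)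
    rfl k0_pm_213

noncomputable def f_pm_303 : ℕ → ℕ → ℕ → ℕ → Bool := onCell 0 1230186008 0 1230186008 134217728 67108864
    (rowF 0 false true false .npn 3 0 3 (qsf 0 1230186008 0 1230186008 0) ndF3q3 ndF4q3 pcF0 Cut.none Ext.none)

def k0_pm_303 : ∃ t, chk3 f_pm_303 t 1 1 1 = true :=
  ⟨(a (b (l 3) (b (l 3) (l 1))) (b (a (l 3) (a (l 3) (b (l 3) (a (l 3) (l 220285899415))))) (a (b (b (l 3) (a (l 3) (l 182706076535))) (a (l 1) (b (b (a (l 1) (l 17437016)) (l 1)) (l 1)))) (b (a (b (l 17415440) (l 128482086247)) (b (l 17359200) (l 17599824))) (a (b (b (l 17751136) (l 17414264)) (a (l 1) (b (l 17190584) (l 1)))) (b (b (l 17726688) (l 17558480)) (b (l 17484016) (l 17211008)))))))), by decide +kernel⟩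

theorem c_pm_303 : CertF 0 1230186008 0 1230186008 134217728 67108864 false true false .npn 3 0 3
    ndF3q3 ndF4q3 pcF0 Cut.none Ext.none :=
  certF0 (fam := false) (s1 := true) (s2 := false) (a := 3) (b := 0) (c := 3) (cn := .npn) (n1 := ndF3q3) (n2 := ndF4q3) (pc := pcF0) (cut := Cut.none) (xt := Ext.none) (P1 := 0) (W1 := 1230186008) (P2 := 0) (W2 := 1230186008) (P3 := 134217728) (W3 := 67108864)
    rfl k0_pm_303

noncomputable def f_pm_313 : ℕ → ℕ → ℕ → ℕ → Bool := onCell 0 1230186008 0 1230186008 134217728 67108864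
    (rowF 0 false true false .dn 3 1 3 (qsf 0 1230186008 0 1230186008 1) ndF3q3 ndF4q3 pcF1 Cut.none Ext.none)

def k0_pm_313 : ∃ t, chk3 f_pm_313 t 1 1 1 = true :=
  ⟨(a (l 1) (b (b (l 3) (l 1)) (l 1))), by decide +kernel⟩

theorem c_pm_313 : CertF 0 1230186008 0 1230186008 134217728 67108864 false true false .dn 3 1 3
    ndF3q3 ndF4q3 pcF1 Cut.none Ext.none :=
  certF0 (fam := false) (s1 := true) (s2 := false) (a := 3) (b := 1) (c := 3) (cn := .dn) (n1 := ndF3q3) (n2 := ndF4q3) (pc := pcF1) (cut := Cut.none) (xt := Ext.none) (P1 := 0) (W1 := 1230186008) (P2 := 0) (W2 := 1230186008) (P3 := 134217728) (W3 := 67108864)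
    rfl k0_pm_313

noncomputable def f_mm_001 : ℕ → ℕ → ℕ → ℕ → Bool := onCell 0 536870912 0 536870912 134217728 67108864
    (rowF 1 false false false .up 0 0 1 (qsf 0 536870912 536870912 536870912 0) ndF3q0 ndF4q1 pcF0 Cut.none Ext.none)

def k0_mm_001 : ∃ t, chk3 f_mm_001 t 1 1 1 = true :=
  ⟨(l 3), by decide +kernel⟩

theorem c_mm_001 : CertF 0 536870912 536870912 536870912 134217728 67108864 false false false .up 0 0 1
    ndF3q0 ndF4q1 pcF0 Cut.none Ext.none :=
  certF1 (fam := false) (s1 := false) (s2 := false) (a := 0) (b := 0) (c := 1) (cn := .up) (n1 := ndF3q0) (n2 := ndF4q1) (pc := pcF0) (cut := Cut.none) (xt := Ext.none) (P1 := 0) (W1 := 536870912) (P2 := 536870912) (W2 := 536870912) (P3 := 134217728) (W3 := 67108864)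
    rfl (fun _ => rfl) k0_mm_001

noncomputable def f_mm_011 : ℕ → ℕ → ℕ → ℕ → Bool := onCell 0 536870912 536870912 536870912 134217728 67108864
    (rowF 1 false false false .pnn 0 1 1 (qsf 0 536870912 536870912 536870912 1) ndF3q0 ndF4q1 pcF1 Cut.none Ext.none)

def k0_mm_011 : ∃ t, chk3 f_mm_011 t 1 1 1 = true :=
  ⟨(l 5), by decide +kernel⟩

theorem c_mm_011 : CertF 0 536870912 536870912 536870912 134217728 67108864 false false false .pnn 0 1 1
    ndF3q0 ndF4q1 pcF1 Cut.none Ext.none :=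
  certF1 (fam := false) (s1 := false) (s2 := false) (a := 0) (b := 1) (c := 1) (cn := .pnn) (n1 := ndF3q0) (n2 := ndF4q1) (pc := pcF1) (cut := Cut.none) (xt := Ext.none) (P1 := 0) (W1 := 536870912) (P2 := 536870912) (W2 := 536870912) (P3 := 134217728) (W3 := 67108864)
    rfl (fun _ => rfl) k0_mm_011

noncomputable def f_mm_012 : ℕ → ℕ → ℕ → ℕ → Bool := onCell 0 536870912 1073741824 536870912 134217728 67108864
    (rowF 0 false false false .pnp 0 1 2 (qsf 0 536870912 1073741824 536870912 1) ndF3q0 ndF4q2 pcF1 Cut.none Ext.none)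

def k0_mm_012 : ∃ t, chk3 f_mm_012 t 1 1 1 = true :=
  ⟨(l 5), by decide +kernel⟩

theorem c_mm_012 : CertF 0 536870912 1073741824 536870912 134217728 67108864 false false false .pnp 0 1 2
    ndF3q0 ndF4q2 pcF1 Cut.none Ext.none :=
  certF0 (fam := false) (s1 := false) (s2 := false) (a := 0) (b := 1) (c := 2) (cn := .pnp) (n1 := ndF3q0) (n2 := ndF4q2) (pc := pcF1) (cut := Cut.none) (xt := Ext.none) (P1 := 0) (W1 := 536870912) (P2 := 1073741824) (W2 := 536870912) (P3 := 134217728) (W3 := 67108864)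
    rfl k0_mm_012

noncomputable def f_mm_022 : ℕ → ℕ → ℕ → ℕ → Bool := onCell 0 536870912 1073741824 536870912 134217728 67108864
    (rowF 0 false false false .pp 0 2 2 (qsf 0 536870912 1073741824 536870912 2) ndF3q0 ndF4q2 pcF2 Cut.none Ext.none)

def k0_mm_022 : ∃ t, chk3 f_mm_022 t 1 1 1 = true :=
  ⟨(l 5), by decide +kernel⟩

theorem c_mm_022 : CertF 0 536870912 1073741824 536870912 134217728 67108864 false false false .pp 0 2 2
    ndF3q0 ndF4q2 pcF2 Cut.none Ext.none :=
  certF0 (fam := false) (s1 := false) (s2 := false) (a := 0) (b := 2) (c := 2) (cn := .pp) (n1 := ndF3q0) (n2 := ndF4q2) (pc := pcF2) (cut := Cut.none) (xt := Ext.none) (P1 := 0) (W1 := 536870912) (P2 := 1073741824) (W2 := 536870912) (P3 := 134217728) (W3 := 67108864)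
    rfl k0_mm_022

noncomputable def f_mm_023 : ℕ → ℕ → ℕ → ℕ → Bool := onCell 0 536870912 0 1230186008 134217728 67108864
    (rowF 0 false false false .up 0 2 3 (qsf 0 536870912 0 1230186008 2) ndF3q0 ndF4q3 pcF2 Cut.none Ext.none)

def k0_mm_023 : ∃ t, chk3 f_mm_023 t 1 1 1 = true :=
  ⟨(l 5), by decide +kernel⟩

theorem c_mm_023 : CertF 0 536870912 0 1230186008 134217728 67108864 false false false .up 0 2 3
    ndF3q0 ndF4q3 pcF2 Cut.none Ext.none :=
  certF0 (fam := false) (s1 := false) (s2 := false) (a := 0) (b := 2) (c := 3) (cn := .up) (n1 := ndF3q0) (n2 := ndF4q3) (pc := pcF2) (cut := Cut.none) (xt := Ext.none) (P1 := 0) (W1 := 536870912) (P2 := 0) (W2 := 1230186008) (P3 := 134217728) (W3 := 67108864)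
    rfl k0_mm_023

noncomputable def f_mm_033 : ℕ → ℕ → ℕ → ℕ → Bool := onCell 0 536870912 0 1230186008 134217728 67108864
    (rowF 0 false false false .pnn 0 3 3 (qsf 0 536870912 0 1230186008 3) ndF3q0 ndF4q3 pcF3 Cut.none Ext.none)

def k0_mm_033 : ∃ t, chk3 f_mm_033 t 1 1 1 = true :=
  ⟨(l 5), by decide +kernel⟩

theorem c_mm_033 : CertF 0 536870912 0 1230186008 134217728 67108864 false false false .pnn 0 3 3
    ndF3q0 ndF4q3 pcF3 Cut.none Ext.none :=
  certF0 (fam := false) (s1 := false) (s2 := false) (a := 0) (b := 3) (c := 3) (cn := .pnn) (n1 := ndF3q0) (n2 := ndF4q3) (pc := pcF3) (cut := Cut.none) (xt := Ext.none) (P1 := 0) (W1 := 536870912) (P2 := 0) (W2 := 1230186008) (P3 := 134217728) (W3 := 67108864)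
    rfl k0_mm_033

noncomputable def f_mm_101 : ℕ → ℕ → ℕ → ℕ → Bool := onCell 536870912 536870912 536870912 536870912 134217728 67108864
    (rowF 0 false false false .npn 1 0 1 (qsf 536870912 536870912 536870912 536870912 0) ndF3q1 ndF4q1 pcF0 Cut.none Ext.none)

def k0_mm_101 : ∃ t, chk3 f_mm_101 t 1 1 1 = true :=
  ⟨(l 3), by decide +kernel⟩

theorem c_mm_101 : CertF 536870912 536870912 536870912 536870912 134217728 67108864 false false false .npn 1 0 1
    ndF3q1 ndF4q1 pcF0 Cut.none Ext.none :=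
  certF0 (fam := false) (s1 := false) (s2 := false) (a := 1) (b := 0) (c := 1) (cn := .npn) (n1 := ndF3q1) (n2 := ndF4q1) (pc := pcF0) (cut := Cut.none) (xt := Ext.none) (P1 := 536870912) (W1 := 536870912) (P2 := 536870912) (W2 := 536870912) (P3 := 134217728) (W3 := 67108864)
    rfl k0_mm_101

noncomputable def f_mm_102 : ℕ → ℕ → ℕ → ℕ → Bool := onCell 536870912 536870912 1073741824 536870912 134217728 67108864
    (rowF 0 false false false .npp 1 0 2 (qsf 536870912 536870912 1073741824 536870912 0) ndF3q1 ndF4q2 pcF0 Cut.none Ext.none)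

def k0_mm_102 : ∃ t, chk3 f_mm_102 t 1 1 1 = true :=
  ⟨(l 5), by decide +kernel⟩

theorem c_mm_102 : CertF 536870912 536870912 1073741824 536870912 134217728 67108864 false false false .npp 1 0 2
    ndF3q1 ndF4q2 pcF0 Cut.none Ext.none :=
  certF0 (fam := false) (s1 := false) (s2 := false) (a := 1) (b := 0) (c := 2) (cn := .npp) (n1 := ndF3q1) (n2 := ndF4q2) (pc := pcF0) (cut := Cut.none) (xt := Ext.none) (P1 := 536870912) (W1 := 536870912) (P2 := 1073741824) (W2 := 536870912) (P3 := 134217728) (W3 := 67108864)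
    rfl k0_mm_102

noncomputable def f_mm_112 : ℕ → ℕ → ℕ → ℕ → Bool := onCell 536870912 536870912 1073741824 536870912 134217728 67108864
    (rowF 0 false false false .dn 1 1 2 (qsf 536870912 536870912 1073741824 536870912 1) ndF3q1 ndF4q2 pcF1 Cut.none Ext.none)

def k0_mm_112 : ∃ t, chk3 f_mm_112 t 1 1 1 = true :=
  ⟨(l 5), by decide +kernel⟩

theorem c_mm_112 : CertF 536870912 536870912 1073741824 536870912 134217728 67108864 false false false .dn 1 1 2
    ndF3q1 ndF4q2 pcF1 Cut.none Ext.none :=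
  certF0 (fam := false) (s1 := false) (s2 := false) (a := 1) (b := 1) (c := 2) (cn := .dn) (n1 := ndF3q1) (n2 := ndF4q2) (pc := pcF1) (cut := Cut.none) (xt := Ext.none) (P1 := 536870912) (W1 := 536870912) (P2 := 1073741824) (W2 := 536870912) (P3 := 134217728) (W3 := 67108864)
    rfl k0_mm_112

noncomputable def f_mm_113 : ℕ → ℕ → ℕ → ℕ → Bool := onCell 536870912 536870912 0 1230186008 134217728 67108864
    (rowF 0 false false false .nn 1 1 3 (qsf 536870912 536870912 0 1230186008 1) ndF3q1 ndF4q3 pcF1 Cut.none Ext.none)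

def k0_mm_113 : ∃ t, chk3 f_mm_113 t 1 1 1 = true :=
  ⟨(l 5), by decide +kernel⟩

theorem c_mm_113 : CertF 536870912 536870912 0 1230186008 134217728 67108864 false false false .nn 1 1 3
    ndF3q1 ndF4q3 pcF1 Cut.none Ext.none :=
  certF0 (fam := false) (s1 := false) (s2 := false) (a := 1) (b := 1) (c := 3) (cn := .nn) (n1 := ndF3q1) (n2 := ndF4q3) (pc := pcF1) (cut := Cut.none) (xt := Ext.none) (P1 := 536870912) (W1 := 536870912) (P2 := 0) (W2 := 1230186008) (P3 := 134217728) (W3 := 67108864)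
    rfl k0_mm_113

noncomputable def f_mm_123 : ℕ → ℕ → ℕ → ℕ → Bool := onCell 536870912 536870912 0 1230186008 134217728 67108864
    (rowF 0 false false false .npn 1 2 3 (qsf 536870912 536870912 0 1230186008 2) ndF3q1 ndF4q3 pcF2 Cut.none Ext.none)

def k0_mm_123 : ∃ t, chk3 f_mm_123 t 1 1 1 = true :=
  ⟨(l 5), by decide +kernel⟩

theorem c_mm_123 : CertF 536870912 536870912 0 1230186008 134217728 67108864 false false false .npn 1 2 3
    ndF3q1 ndF4q3 pcF2 Cut.none Ext.none :=
  certF0 (fam := false) (s1 := false) (s2 := false) (a := 1) (b := 2) (c := 3) (cn := .npn) (n1 := ndF3q1) (n2 := ndF4q3) (pc := pcF2) (cut := Cut.none) (xt := Ext.none) (P1 := 536870912) (W1 := 536870912) (P2 := 0) (W2 := 1230186008) (P3 := 134217728) (W3 := 67108864)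
    rfl k0_mm_123

noncomputable def f_mm_133 : ℕ → ℕ → ℕ → ℕ → Bool := onCell 536870912 536870912 0 1230186008 134217728 67108864
    (rowF 0 false false false .dn 1 3 3 (qsf 536870912 536870912 0 1230186008 3) ndF3q1 ndF4q3 pcF3 Cut.none Ext.none)

def k0_mm_133 : ∃ t, chk3 f_mm_133 t 1 1 1 = true :=
  ⟨(l 5), by decide +kernel⟩

theorem c_mm_133 : CertF 536870912 536870912 0 1230186008 134217728 67108864 false false false .dn 1 3 3
    ndF3q1 ndF4q3 pcF3 Cut.none Ext.none :=
  certF0 (fam := false) (s1 := false) (s2 := false) (a := 1) (b := 3) (c := 3) (cn := .dn) (n1 := ndF3q1) (n2 := ndF4q3) (pc := pcF3) (cut := Cut.none) (xt := Ext.none) (P1 := 536870912) (W1 := 536870912) (P2 := 0) (W2 := 1230186008) (P3 := 134217728) (W3 := 67108864)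
    rfl k0_mm_133

noncomputable def f_mm_202 : ℕ → ℕ → ℕ → ℕ → Bool := onCell 1073741824 536870912 1073741824 536870912 134217728 67108864
    (rowF 0 false false false .pp 2 0 2 (qsf 1073741824 536870912 1073741824 536870912 0) ndF3q2 ndF4q2 pcF0 Cut.none Ext.none)

def k0_mm_202 : ∃ t, chk3 f_mm_202 t 1 1 1 = true :=
  ⟨(l 3), by decide +kernel⟩

theorem c_mm_202 : CertF 1073741824 536870912 1073741824 536870912 134217728 67108864 false false false .pp 2 0 2
    ndF3q2 ndF4q2 pcF0 Cut.none Ext.none :=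
  certF0 (fam := false) (s1 := false) (s2 := false) (a := 2) (b := 0) (c := 2) (cn := .pp) (n1 := ndF3q2) (n2 := ndF4q2) (pc := pcF0) (cut := Cut.none) (xt := Ext.none) (P1 := 1073741824) (W1 := 536870912) (P2 := 1073741824) (W2 := 536870912) (P3 := 134217728) (W3 := 67108864)
    rfl k0_mm_202

noncomputable def f_mm_203 : ℕ → ℕ → ℕ → ℕ → Bool := onCell 1073741824 536870912 0 1230186008 134217728 67108864
    (rowF 0 false false false .up 2 0 3 (qsf 1073741824 536870912 0 1230186008 0) ndF3q2 ndF4q3 pcF0 Cut.none Ext.none)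

def k0_mm_203 : ∃ t, chk3 f_mm_203 t 1 1 1 = true :=
  ⟨(b (l 5) (l 3)), by decide +kernel⟩

theorem c_mm_203 : CertF 1073741824 536870912 0 1230186008 134217728 67108864 false false false .up 2 0 3
    ndF3q2 ndF4q3 pcF0 Cut.none Ext.none :=
  certF0 (fam := false) (s1 := false) (s2 := false) (a := 2) (b := 0) (c := 3) (cn := .up) (n1 := ndF3q2) (n2 := ndF4q3) (pc := pcF0) (cut := Cut.none) (xt := Ext.none) (P1 := 1073741824) (W1 := 536870912) (P2 := 0) (W2 := 1230186008) (P3 := 134217728) (W3 := 67108864)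
    rfl k0_mm_203

noncomputable def f_mm_213 : ℕ → ℕ → ℕ → ℕ → Bool := onCell 1073741824 536870912 0 1230186008 134217728 67108864
    (rowF 0 false false false .pnn 2 1 3 (qsf 1073741824 536870912 0 1230186008 1) ndF3q2 ndF4q3 pcF1 Cut.none Ext.none)

def k0_mm_213 : ∃ t, chk3 f_mm_213 t 1 1 1 = true :=
  ⟨(b (l 5) (l 3)), by decide +kernel⟩

theorem c_mm_213 : CertF 1073741824 536870912 0 1230186008 134217728 67108864 false false false .pnn 2 1 3
    ndF3q2 ndF4q3 pcF1 Cut.none Ext.none :=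
  certF0 (fam := false) (s1 := false) (s2 := false) (a := 2) (b := 1) (c := 3) (cn := .pnn) (n1 := ndF3q2) (n2 := ndF4q3) (pc := pcF1) (cut := Cut.none) (xt := Ext.none) (P1 := 1073741824) (W1 := 536870912) (P2 := 0) (W2 := 1230186008) (P3 := 134217728) (W3 := 67108864)
    rfl k0_mm_213

noncomputable def f_mm_303 : ℕ → ℕ → ℕ → ℕ → Bool := onCell 0 1230186008 0 1230186008 134217728 67108864
    (rowF 0 false false false .npn 3 0 3 (qsf 0 1230186008 0 1230186008 0) ndF3q3 ndF4q3 pcF0 Cut.none Ext.none)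

def k0_mm_303 : ∃ t, chk3 f_mm_303 t 1 1 1 = true :=
  ⟨(a (b (l 3) (a (l 1) (l 3))) (b (l 3) (l 3))), by decide +kernel⟩

theorem c_mm_303 : CertF 0 1230186008 0 1230186008 134217728 67108864 false false false .npn 3 0 3
    ndF3q3 ndF4q3 pcF0 Cut.none Ext.none :=
  certF0 (fam := false) (s1 := false) (s2 := false) (a := 3) (b := 0) (c := 3) (cn := .npn) (n1 := ndF3q3) (n2 := ndF4q3) (pc := pcF0) (cut := Cut.none) (xt := Ext.none) (P1 := 0) (W1 := 1230186008) (P2 := 0) (W2 := 1230186008) (P3 := 134217728) (W3 := 67108864)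
    rfl k0_mm_303

noncomputable def f_mm_313 : ℕ → ℕ → ℕ → ℕ → Bool := onCell 0 1230186008 0 1230186008 134217728 67108864
    (rowF 0 false false false .dn 3 1 3 (qsf 0 1230186008 0 1230186008 1) ndF3q3 ndF4q3 pcF1 Cut.none Ext.none)

def k0_mm_313 : ∃ t, chk3 f_mm_313 t 1 1 1 = true :=
  ⟨(a (l 1) (b (l 3) (l 1))), by decide +kernel⟩

theorem c_mm_313 : CertF 0 1230186008 0 1230186008 134217728 67108864 false false false .dn 3 1 3
    ndF3q3 ndF4q3 pcF1 Cut.none Ext.none :=
  certF0 (fam := false) (s1 := false) (s2 := false) (a := 3) (b := 1) (c := 3) (cn := .dn) (n1 := ndF3q3) (n2 := ndF4q3) (pc := pcF1) (cut := Cut.none) (xt := Ext.none) (P1 := 0) (W1 := 1230186008) (P2 := 0) (W2 := 1230186008) (P3 := 134217728) (W3 := 67108864)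
    rfl k0_mm_313

end Pool.Agent.Strip051.G.I1_8_3_16.Tab.C.FB34

namespace Pool.Agent.Strip051.G.I1_8_3_16.Tab.C.FB35

open Pool.Agent.Strip051.PB Pool.Agent.Strip051.PB.T
open Pool.Agent.Strip051.G.I1_8_3_16.Tab

noncomputable def f_pp_001 : ℕ → ℕ → ℕ → ℕ → Bool := onCell 0 536870912 0 536870912 134217728 67108864
    (rowF 1 false true true .up 0 0 1 (qsf 0 536870912 536870912 536870912 0) ndF3q0 ndF5q1 pcF0 Cut.none Ext.none)

def k0_pp_001 : ∃ t, chk3 f_pp_001 t 1 1 1 = true :=
  ⟨(l 3), by decide +kernel⟩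

theorem c_pp_001 : CertF 0 536870912 536870912 536870912 134217728 67108864 false true true .up 0 0 1
    ndF3q0 ndF5q1 pcF0 Cut.none Ext.none :=
  certF1 (fam := false) (s1 := true) (s2 := true) (a := 0) (b := 0) (c := 1) (cn := .up) (n1 := ndF3q0) (n2 := ndF5q1) (pc := pcF0) (cut := Cut.none) (xt := Ext.none) (P1 := 0) (W1 := 536870912) (P2 := 536870912) (W2 := 536870912) (P3 := 134217728) (W3 := 67108864)
    rfl (fun _ => rfl) k0_pp_001

noncomputable def f_pp_011 : ℕ → ℕ → ℕ → ℕ → Bool := onCell 0 536870912 536870912 536870912 134217728 67108864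
    (rowF 0 false true true .pnn 0 1 1 (qsf 0 536870912 536870912 536870912 1) ndF3q0 ndF5q1 pcF1 Cut.none Ext.none)

def k0_pp_011 : ∃ t, chk3 f_pp_011 t 1 1 1 = true :=
  ⟨(a (l 3) (l 3)), by decide +kernel⟩

theorem c_pp_011 : CertF 0 536870912 536870912 536870912 134217728 67108864 false true true .pnn 0 1 1
    ndF3q0 ndF5q1 pcF1 Cut.none Ext.none :=
  certF0 (fam := false) (s1 := true) (s2 := true) (a := 0) (b := 1) (c := 1) (cn := .pnn) (n1 := ndF3q0) (n2 := ndF5q1) (pc := pcF1) (cut := Cut.none) (xt := Ext.none) (P1 := 0) (W1 := 536870912) (P2 := 536870912) (W2 := 536870912) (P3 := 134217728) (W3 := 67108864)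
    rfl k0_pp_011

noncomputable def f_pp_012 : ℕ → ℕ → ℕ → ℕ → Bool := onCell 0 536870912 536870912 536870912 134217728 67108864
    (rowF 1 false true true .pnp 0 1 2 (qsf 0 536870912 1073741824 536870912 1) ndF3q0 ndF5q2 pcF1 Cut.none Ext.none)

def k0_pp_012 : ∃ t, chk3 f_pp_012 t 1 1 1 = true :=
  ⟨(a (l 3) (l 3)), by decide +kernel⟩

theorem c_pp_012 : CertF 0 536870912 1073741824 536870912 134217728 67108864 false true true .pnp 0 1 2
    ndF3q0 ndF5q2 pcF1 Cut.none Ext.none :=
  certF1 (fam := false) (s1 := true) (s2 := true) (a := 0) (b := 1) (c := 2) (cn := .pnp) (n1 := ndF3q0) (n2 := ndF5q2) (pc := pcF1) (cut := Cut.none) (xt := Ext.none) (P1 := 0) (W1 := 536870912) (P2 := 1073741824) (W2 := 536870912) (P3 := 134217728) (W3 := 67108864)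
    rfl (fun _ => rfl) k0_pp_012

noncomputable def f_pp_022 : ℕ → ℕ → ℕ → ℕ → Bool := onCell 0 536870912 1073741824 536870912 134217728 67108864
    (rowF 1 false true true .pp 0 2 2 (qsf 0 536870912 1073741824 536870912 2) ndF3q0 ndF5q2 pcF2 Cut.none Ext.none)

def k0_pp_022 : ∃ t, chk3 f_pp_022 t 1 1 1 = true :=
  ⟨(a (b (b (b (l 3) (a (a (b (l 3) (a (l 17254232) (l 17278096))) (l 3)) (l 3))) (a (b (b (b (a (l 17229888) (l 17257696)) (b (a (l 17212784) (l 17270912)) (a (b (l 17204368) (l 17387512)) (l 17384472)))) (a (l 17167136) (l 17374264))) (a (l 17333536) (l 17556280))) (b (b (b (l 3) (b (l 17403192) (l 17528616))) (l 17478664)) (l 17610896)))) (a (b (a (b (l 17699776) (l 17911072)) (l 17833768)) (a (l 18047152) (l 17981800))) (b (a (l 17815088) (l 17813624)) (a (l 17937952) (l 2))))) (b (a (b (b (l 3) (l 685753004247)) (b (b (b (l 17435648) (l 17474824)) (l 17548112)) (l 17676096))) (b (b (l 3) (l 17489024)) (a (b (l 17631816) (l 2)) (l 2)))) (a (b (l 18076584) (l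 2)) (l 2)))), by decide +kernel⟩

theorem c_pp_022 : CertF 0 536870912 1073741824 536870912 134217728 67108864 false true true .pp 0 2 2
    ndF3q0 ndF5q2 pcF2 Cut.none Ext.none :=
  certF1 (fam := false) (s1 := true) (s2 := true) (a := 0) (b := 2) (c := 2) (cn := .pp) (n1 := ndF3q0) (n2 := ndF5q2) (pc := pcF2) (cut := Cut.none) (xt := Ext.none) (P1 := 0) (W1 := 536870912) (P2 := 1073741824) (W2 := 536870912) (P3 := 134217728) (W3 := 67108864)
    rfl (fun _ => rfl) k0_pp_022

noncomputable def f_pp_023 : ℕ → ℕ → ℕ → ℕ → Bool := onCell 1073741824 536870912 0 1230186008 134217728 67108864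
    (rowF 2 false true true .up 0 2 3 (qsf 0 536870912 0 1230186008 2) ndF3q0 ndF5q3 pcF2 Cut.none Ext.none)

def k0_pp_023 : ∃ t, chk3 f_pp_023 t 1 1 1 = true :=
  ⟨(a (b (l 2) (a (b (l 2) (b (l 2) (a (l 17479776) (l 17564488)))) (a (b (l 2) (a (a (l 17723552) (a (l 17729136) (l 17773104))) (l 17737408))) (b (l 18049064) (b (l 17835560) (l 17700824)))))) (b (a (l 2) (l 18045632)) (b (a (l 18010960) (l 17986040)) (b (l 17875192) (a (l 17812104) (l 17936384)))))), by decide +kernel⟩

theorem c_pp_023 : CertF 0 536870912 0 1230186008 134217728 67108864 false true true .up 0 2 3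
    ndF3q0 ndF5q3 pcF2 Cut.none Ext.none :=
  certF2 (fam := false) (s1 := true) (s2 := true) (a := 0) (b := 2) (c := 3) (cn := .up) (n1 := ndF3q0) (n2 := ndF5q3) (pc := pcF2) (cut := Cut.none) (xt := Ext.none) (P1 := 0) (W1 := 536870912) (P2 := 0) (W2 := 1230186008) (P3 := 134217728) (W3 := 67108864)
    rfl (fun _ => rfl) k0_pp_023

noncomputable def f_pp_033 : ℕ → ℕ → ℕ → ℕ → Bool := onCell 0 536870912 0 1230186008 134217728 67108864
    (rowF 0 false true true .pnn 0 3 3 (qsf 0 536870912 0 1230186008 3) ndF3q0 ndF5q3 pcF3 Cut.none Ext.none)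

def k0_pp_033 : ∃ t, chk3 f_pp_033 t 1 1 1 = true :=
  ⟨(b (b (a (l 4) (a (l 4) (l 17540776))) (a (a (b (l 4) (a (l 17364272) (l 17390016))) (b (l 17407312) (l 17446352))) (a (b (l 17486768) (l 17539608)) (b (l 17599264) (l 17456224))))) (b (a (b (a (a (l 17401272) (l 17422040)) (l 17681768)) (l 17499672)) (b (b (a (l 17370368) (l 17332560)) (l 17363600)) (l 17386056))) (a (b (l 17689184) (a (l 18007536) (l 17694232))) (l 1)))), by decide +kernel⟩

theorem c_pp_033 : CertF 0 536870912 0 1230186008 134217728 67108864 false true true .pnn 0 3 3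
    ndF3q0 ndF5q3 pcF3 Cut.none Ext.none :=
  certF0 (fam := false) (s1 := true) (s2 := true) (a := 0) (b := 3) (c := 3) (cn := .pnn) (n1 := ndF3q0) (n2 := ndF5q3) (pc := pcF3) (cut := Cut.none) (xt := Ext.none) (P1 := 0) (W1 := 536870912) (P2 := 0) (W2 := 1230186008) (P3 := 134217728) (W3 := 67108864)
    rfl k0_pp_033

noncomputable def f_pp_101 : ℕ → ℕ → ℕ → ℕ → Bool := onCell 536870912 536870912 536870912 536870912 134217728 67108864
    (rowF 0 false true true .npn 1 0 1 (qsf 536870912 536870912 536870912 536870912 0) ndF3q1 ndF5q1 pcF0 Cut.none Ext.none)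

def k0_pp_101 : ∃ t, chk3 f_pp_101 t 1 1 1 = true :=
  ⟨(l 3), by decide +kernel⟩

theorem c_pp_101 : CertF 536870912 536870912 536870912 536870912 134217728 67108864 false true true .npn 1 0 1
    ndF3q1 ndF5q1 pcF0 Cut.none Ext.none :=
  certF0 (fam := false) (s1 := true) (s2 := true) (a := 1) (b := 0) (c := 1) (cn := .npn) (n1 := ndF3q1) (n2 := ndF5q1) (pc := pcF0) (cut := Cut.none) (xt := Ext.none) (P1 := 536870912) (W1 := 536870912) (P2 := 536870912) (W2 := 536870912) (P3 := 134217728) (W3 := 67108864)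
    rfl k0_pp_101

noncomputable def f_pp_102 : ℕ → ℕ → ℕ → ℕ → Bool := onCell 536870912 536870912 1073741824 536870912 134217728 67108864
    (rowF 0 false true true .npp 1 0 2 (qsf 536870912 536870912 1073741824 536870912 0) ndF3q1 ndF5q2 pcF0 Cut.none Ext.none)

def k0_pp_102 : ∃ t, chk3 f_pp_102 t 1 1 1 = true :=
  ⟨(l 3), by decide +kernel⟩

theorem c_pp_102 : CertF 536870912 536870912 1073741824 536870912 134217728 67108864 false true true .npp 1 0 2
    ndF3q1 ndF5q2 pcF0 Cut.none Ext.none :=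
  certF0 (fam := false) (s1 := true) (s2 := true) (a := 1) (b := 0) (c := 2) (cn := .npp) (n1 := ndF3q1) (n2 := ndF5q2) (pc := pcF0) (cut := Cut.none) (xt := Ext.none) (P1 := 536870912) (W1 := 536870912) (P2 := 1073741824) (W2 := 536870912) (P3 := 134217728) (W3 := 67108864)
    rfl k0_pp_102

noncomputable def f_pp_112 : ℕ → ℕ → ℕ → ℕ → Bool := onCell 536870912 536870912 1073741824 536870912 134217728 67108864
    (rowF 0 false true true .dn 1 1 2 (qsf 536870912 536870912 1073741824 536870912 1) ndF3q1 ndF5q2 pcF1 Cut.none Ext.none)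

def k0_pp_112 : ∃ t, chk3 f_pp_112 t 1 1 1 = true :=
  ⟨(l 3), by decide +kernel⟩

theorem c_pp_112 : CertF 536870912 536870912 1073741824 536870912 134217728 67108864 false true true .dn 1 1 2
    ndF3q1 ndF5q2 pcF1 Cut.none Ext.none :=
  certF0 (fam := false) (s1 := true) (s2 := true) (a := 1) (b := 1) (c := 2) (cn := .dn) (n1 := ndF3q1) (n2 := ndF5q2) (pc := pcF1) (cut := Cut.none) (xt := Ext.none) (P1 := 536870912) (W1 := 536870912) (P2 := 1073741824) (W2 := 536870912) (P3 := 134217728) (W3 := 67108864)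
    rfl k0_pp_112

noncomputable def f_pp_113 : ℕ → ℕ → ℕ → ℕ → Bool := onCell 536870912 536870912 0 1230186008 134217728 67108864
    (rowF 0 false true true .nn 1 1 3 (qsf 536870912 536870912 0 1230186008 1) ndF3q1 ndF5q3 pcF1 Cut.none Ext.none)

def k0_pp_113 : ∃ t, chk3 f_pp_113 t 1 1 1 = true :=
  ⟨(b (a (l 2) (a (l 2) (b (a (l 2) (l 16953008)) (a (l 17456248) (l 17611664))))) (b (a (a (l 2) (b (l 2) (a (l 2) (l 17582656)))) (b (a (a (l 2) (l 17690040)) (a (l 17892304) (l 18063344))) (a (a (l 17738368) (l 17931400)) (a (l 18147448) (l 18350864))))) (a (b (a (l 2) (b (l 17749192) (l 17923952))) (a (b (l 224582567447) (l 18272136)) (b (l 3) (l 3)))) (b (a (a (l 18059504) (l 18444352)) (l 3)) (l 3))))), by decide +kernel⟩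

theorem c_pp_113 : CertF 536870912 536870912 0 1230186008 134217728 67108864 false true true .nn 1 1 3
    ndF3q1 ndF5q3 pcF1 Cut.none Ext.none :=
  certF0 (fam := false) (s1 := true) (s2 := true) (a := 1) (b := 1) (c := 3) (cn := .nn) (n1 := ndF3q1) (n2 := ndF5q3) (pc := pcF1) (cut := Cut.none) (xt := Ext.none) (P1 := 536870912) (W1 := 536870912) (P2 := 0) (W2 := 1230186008) (P3 := 134217728) (W3 := 67108864)
    rfl k0_pp_113

noncomputable def f_pp_123 : ℕ → ℕ → ℕ → ℕ → Bool := onCell 1073741824 536870912 0 1230186008 134217728 67108864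
    (rowF 2 false true true .npn 1 2 3 (qsf 536870912 536870912 0 1230186008 2) ndF3q1 ndF5q3 pcF2 Cut.none Ext.none)

def k0_pp_123 : ∃ t, chk3 f_pp_123 t 1 1 1 = true :=
  ⟨(b (b (a (a (a (a (l 16935600) (b (l 16814784) (l 17040160))) (l 16911672)) (a (l 16806704) (l 16807376))) (a (l 16873320) (l 16906464))) (a (b (a (a (a (l 17400704) (l 17196256)) (l 17109712)) (l 16907544)) (a (a (l 17417192) (a (l 17255896) (l 17164104))) (a (l 17079240) (l 16983248)))) (a (l 16838224) (l 16849664)))) (b (a (a (a (b (l 17481584) (l 17617512)) (a (b (l 17504496) (a (l 17513080) (l 17486024))) (b (l 17302088) (l 17458728)))) (a (a (b (l 17237512) (l 17400688)) (l 17276736)) (l 17217264))) (a (l 17094480) (l 16998728))) (a (b (a (a (l 17759296) (a (a (l 17689320) (l 17662976)) (l 17626320))) (a (a (l 17575128) (l 17528272)) (l 17457632))) (a (a (l 17963504) (l 17858040)) (a (a (l 464429174119) (l 1)) (l 1)))) (l 1)))), by decide +kernel⟩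

theorem c_pp_123 : CertF 536870912 536870912 0 1230186008 134217728 67108864 false true true .npn 1 2 3
    ndF3q1 ndF5q3 pcF2 Cut.none Ext.none :=
  certF2 (fam := false) (s1 := true) (s2 := true) (a := 1) (b := 2) (c := 3) (cn := .npn) (n1 := ndF3q1) (n2 := ndF5q3) (pc := pcF2) (cut := Cut.none) (xt := Ext.none) (P1 := 536870912) (W1 := 536870912) (P2 := 0) (W2 := 1230186008) (P3 := 134217728) (W3 := 67108864)
    rfl (fun _ => rfl) k0_pp_123

noncomputable def f_pp_133 : ℕ → ℕ → ℕ → ℕ → Bool := onCell 1610612736 536870912 0 1230186008 134217728 67108864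
    (rowF 2 false true true .dn 1 3 3 (qsf 536870912 536870912 0 1230186008 3) ndF3q1 ndF5q3 pcF3 Cut.none Ext.none)

def k0_pp_133 : ∃ t, chk3 f_pp_133 t 1 1 1 = true :=
  ⟨(b (b (b (l 4) (l 1)) (l 1)) (l 1)), by decide +kernel⟩

theorem c_pp_133 : CertF 536870912 536870912 0 1230186008 134217728 67108864 false true true .dn 1 3 3
    ndF3q1 ndF5q3 pcF3 Cut.none Ext.none :=
  certF2 (fam := false) (s1 := true) (s2 := true) (a := 1) (b := 3) (c := 3) (cn := .dn) (n1 := ndF3q1) (n2 := ndF5q3) (pc := pcF3) (cut := Cut.none) (xt := Ext.none) (P1 := 536870912) (W1 := 536870912) (P2 := 0) (W2 := 1230186008) (P3 := 134217728) (W3 := 67108864)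
    rfl (fun _ => rfl) k0_pp_133

noncomputable def f_pp_202 : ℕ → ℕ → ℕ → ℕ → Bool := onCell 1073741824 536870912 1073741824 536870912 134217728 67108864
    (rowF 0 false true true .pp 2 0 2 (qsf 1073741824 536870912 1073741824 536870912 0) ndF3q2 ndF5q2 pcF0 Cut.none Ext.none)

def k0_pp_202 : ∃ t, chk3 f_pp_202 t 1 1 1 = true :=
  ⟨(a (l 3) (l 5)), by decide +kernel⟩

theorem c_pp_202 : CertF 1073741824 536870912 1073741824 536870912 134217728 67108864 false true true .pp 2 0 2
    ndF3q2 ndF5q2 pcF0 Cut.none Ext.none :=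
  certF0 (fam := false) (s1 := true) (s2 := true) (a := 2) (b := 0) (c := 2) (cn := .pp) (n1 := ndF3q2) (n2 := ndF5q2) (pc := pcF0) (cut := Cut.none) (xt := Ext.none) (P1 := 1073741824) (W1 := 536870912) (P2 := 1073741824) (W2 := 536870912) (P3 := 134217728) (W3 := 67108864)
    rfl k0_pp_202

noncomputable def f_pp_203 : ℕ → ℕ → ℕ → ℕ → Bool := onCell 0 536870912 0 1230186008 134217728 67108864
    (rowF 2 false true true .up 2 0 3 (qsf 1073741824 536870912 0 1230186008 0) ndF3q2 ndF5q3 pcF0 Cut.none Ext.none)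

def k0_pp_203 : ∃ t, chk3 f_pp_203 t 1 1 1 = true :=
  ⟨(b (l 3) (l 3)), by decide +kernel⟩

theorem c_pp_203 : CertF 1073741824 536870912 0 1230186008 134217728 67108864 false true true .up 2 0 3
    ndF3q2 ndF5q3 pcF0 Cut.none Ext.none :=
  certF2 (fam := false) (s1 := true) (s2 := true) (a := 2) (b := 0) (c := 3) (cn := .up) (n1 := ndF3q2) (n2 := ndF5q3) (pc := pcF0) (cut := Cut.none) (xt := Ext.none) (P1 := 1073741824) (W1 := 536870912) (P2 := 0) (W2 := 1230186008) (P3 := 134217728) (W3 := 67108864)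
    rfl (fun _ => rfl) k0_pp_203

noncomputable def f_pp_213 : ℕ → ℕ → ℕ → ℕ → Bool := onCell 1073741824 536870912 0 1230186008 134217728 67108864
    (rowF 0 false true true .pnn 2 1 3 (qsf 1073741824 536870912 0 1230186008 1) ndF3q2 ndF5q3 pcF1 Cut.none Ext.none)

def k0_pp_213 : ∃ t, chk3 f_pp_213 t 1 1 1 = true :=
  ⟨(b (b (a (b (a (a (l 16884272) (a (a (l 16943440) (l 16953736)) (l 249276694295))) (a (a (a (l 16978112) (l 17137864)) (l 3)) (l 3))) (a (a (l 277193931095) (l 3)) (l 3))) (l 3)) (l 3)) (l 3)), by decide +kernel⟩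

theorem c_pp_213 : CertF 1073741824 536870912 0 1230186008 134217728 67108864 false true true .pnn 2 1 3
    ndF3q2 ndF5q3 pcF1 Cut.none Ext.none :=
  certF0 (fam := false) (s1 := true) (s2 := true) (a := 2) (b := 1) (c := 3) (cn := .pnn) (n1 := ndF3q2) (n2 := ndF5q3) (pc := pcF1) (cut := Cut.none) (xt := Ext.none) (P1 := 1073741824) (W1 := 536870912) (P2 := 0) (W2 := 1230186008) (P3 := 134217728) (W3 := 67108864)
    rfl k0_pp_213

noncomputable def f_pp_303 : ℕ → ℕ → ℕ → ℕ → Bool := onCell 0 1230186008 0 1230186008 134217728 67108864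
    (rowF 0 false true true .npn 3 0 3 (qsf 0 1230186008 0 1230186008 0) ndF3q3 ndF5q3 pcF0 Cut.none Ext.none)

def k0_pp_303 : ∃ t, chk3 f_pp_303 t 1 1 1 = true :=
  ⟨(a (b (l 3) (l 5)) (b (l 3) (a (l 5) (l 3)))), by decide +kernel⟩

theorem c_pp_303 : CertF 0 1230186008 0 1230186008 134217728 67108864 false true true .npn 3 0 3
    ndF3q3 ndF5q3 pcF0 Cut.none Ext.none :=
  certF0 (fam := false) (s1 := true) (s2 := true) (a := 3) (b := 0) (c := 3) (cn := .npn) (n1 := ndF3q3) (n2 := ndF5q3) (pc := pcF0) (cut := Cut.none) (xt := Ext.none) (P1 := 0) (W1 := 1230186008) (P2 := 0) (W2 := 1230186008) (P3 := 134217728) (W3 := 67108864)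
    rfl k0_pp_303

noncomputable def f_pp_313 : ℕ → ℕ → ℕ → ℕ → Bool := onCell 0 1230186008 0 1230186008 134217728 67108864
    (rowF 0 false true true .dn 3 1 3 (qsf 0 1230186008 0 1230186008 1) ndF3q3 ndF5q3 pcF1 Cut.none Ext.none)

def k0_pp_313 : ∃ t, chk3 f_pp_313 t 1 1 1 = true :=
  ⟨(a (l 1) (b (l 3) (l 1))), by decide +kernel⟩

theorem c_pp_313 : CertF 0 1230186008 0 1230186008 134217728 67108864 false true true .dn 3 1 3
    ndF3q3 ndF5q3 pcF1 Cut.none Ext.none :=
  certF0 (fam := false) (s1 := true) (s2 := true) (a := 3) (b := 1) (c := 3) (cn := .dn) (n1 := ndF3q3) (n2 := ndF5q3) (pc := pcF1) (cut := Cut.none) (xt := Ext.none) (P1 := 0) (W1 := 1230186008) (P2 := 0) (W2 := 1230186008) (P3 := 134217728) (W3 := 67108864)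
    rfl k0_pp_313

noncomputable def f_pm_001 : ℕ → ℕ → ℕ → ℕ → Bool := onCell 0 536870912 536870912 536870912 134217728 67108864
    (rowF 0 false true false .up 0 0 1 (qsf 0 536870912 536870912 536870912 0) ndF3q0 ndF5q1 pcF0 Cut.none Ext.none)

def k0_pm_001 : ∃ t, chk3 f_pm_001 t 1 1 1 = true :=
  ⟨(l 4), by decide +kernel⟩

theorem c_pm_001 : CertF 0 536870912 536870912 536870912 134217728 67108864 false true false .up 0 0 1
    ndF3q0 ndF5q1 pcF0 Cut.none Ext.none :=
  certF0 (fam := false) (s1 := true) (s2 := false) (a := 0) (b := 0) (c := 1) (cn := .up) (n1 := ndF3q0) (n2 := ndF5q1) (pc := pcF0) (cut := Cut.none) (xt := Ext.none) (P1 := 0) (W1 := 536870912) (P2 := 536870912) (W2 := 536870912) (P3 := 134217728) (W3 := 67108864)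
    rfl k0_pm_001

noncomputable def f_pm_011 : ℕ → ℕ → ℕ → ℕ → Bool := onCell 0 536870912 536870912 536870912 134217728 67108864
    (rowF 0 false true false .pnn 0 1 1 (qsf 0 536870912 536870912 536870912 1) ndF3q0 ndF5q1 pcF1 Cut.none Ext.none)

def k0_pm_011 : ∃ t, chk3 f_pm_011 t 1 1 1 = true :=
  ⟨(l 4), by decide +kernel⟩

theorem c_pm_011 : CertF 0 536870912 536870912 536870912 134217728 67108864 false true false .pnn 0 1 1
    ndF3q0 ndF5q1 pcF1 Cut.none Ext.none :=
  certF0 (fam := false) (s1 := true) (s2 := false) (a := 0) (b := 1) (c := 1) (cn := .pnn) (n1 := ndF3q0) (n2 := ndF5q1) (pc := pcF1) (cut := Cut.none) (xt := Ext.none) (P1 := 0) (W1 := 536870912) (P2 := 536870912) (W2 := 536870912) (P3 := 134217728) (W3 := 67108864)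
    rfl k0_pm_011

noncomputable def f_pm_012 : ℕ → ℕ → ℕ → ℕ → Bool := onCell 0 536870912 1073741824 536870912 134217728 67108864
    (rowF 0 false true false .pnp 0 1 2 (qsf 0 536870912 1073741824 536870912 1) ndF3q0 ndF5q2 pcF1 Cut.none Ext.none)

def k0_pm_012 : ∃ t, chk3 f_pm_012 t 1 1 1 = true :=
  ⟨(l 4), by decide +kernel⟩

theorem c_pm_012 : CertF 0 536870912 1073741824 536870912 134217728 67108864 false true false .pnp 0 1 2
    ndF3q0 ndF5q2 pcF1 Cut.none Ext.none :=
  certF0 (fam := false) (s1 := true) (s2 := false) (a := 0) (b := 1) (c := 2) (cn := .pnp) (n1 := ndF3q0) (n2 := ndF5q2) (pc := pcF1) (cut := Cut.none) (xt := Ext.none) (P1 := 0) (W1 := 536870912) (P2 := 1073741824) (W2 := 536870912) (P3 := 134217728) (W3 := 67108864)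
    rfl k0_pm_012

noncomputable def f_pm_022 : ℕ → ℕ → ℕ → ℕ → Bool := onCell 0 536870912 1073741824 536870912 134217728 67108864
    (rowF 0 false true false .pp 0 2 2 (qsf 0 536870912 1073741824 536870912 2) ndF3q0 ndF5q2 pcF2 Cut.none Ext.none)

def k0_pm_022 : ∃ t, chk3 f_pm_022 t 1 1 1 = true :=
  ⟨(l 4), by decide +kernel⟩

theorem c_pm_022 : CertF 0 536870912 1073741824 536870912 134217728 67108864 false true false .pp 0 2 2
    ndF3q0 ndF5q2 pcF2 Cut.none Ext.none :=
  certF0 (fam := false) (s1 := true) (s2 := false) (a := 0) (b := 2) (c := 2) (cn := .pp) (n1 := ndF3q0) (n2 := ndF5q2) (pc := pcF2) (cut := Cut.none) (xt := Ext.none) (P1 := 0) (W1 := 536870912) (P2 := 1073741824) (W2 := 536870912) (P3 := 134217728) (W3 := 67108864)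
    rfl k0_pm_022

noncomputable def f_pm_023 : ℕ → ℕ → ℕ → ℕ → Bool := onCell 0 536870912 0 1230186008 134217728 67108864
    (rowF 0 false true false .up 0 2 3 (qsf 0 536870912 0 1230186008 2) ndF3q0 ndF5q3 pcF2 Cut.none Ext.none)

def k0_pm_023 : ∃ t, chk3 f_pm_023 t 1 1 1 = true :=
  ⟨(l 4), by decide +kernel⟩

theorem c_pm_023 : CertF 0 536870912 0 1230186008 134217728 67108864 false true false .up 0 2 3
    ndF3q0 ndF5q3 pcF2 Cut.none Ext.none :=
  certF0 (fam := false) (s1 := true) (s2 := false) (a := 0) (b := 2) (c := 3) (cn := .up) (n1 := ndF3q0) (n2 := ndF5q3) (pc := pcF2) (cut := Cut.none) (xt := Ext.none) (P1 := 0) (W1 := 536870912) (P2 := 0) (W2 := 1230186008) (P3 := 134217728) (W3 := 67108864)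
    rfl k0_pm_023

noncomputable def f_pm_033 : ℕ → ℕ → ℕ → ℕ → Bool := onCell 0 536870912 0 1230186008 134217728 67108864
    (rowF 0 false true false .pnn 0 3 3 (qsf 0 536870912 0 1230186008 3) ndF3q0 ndF5q3 pcF3 Cut.none Ext.none)

def k0_pm_033 : ∃ t, chk3 f_pm_033 t 1 1 1 = true :=
  ⟨(l 4), by decide +kernel⟩

theorem c_pm_033 : CertF 0 536870912 0 1230186008 134217728 67108864 false true false .pnn 0 3 3
    ndF3q0 ndF5q3 pcF3 Cut.none Ext.none :=
  certF0 (fam := false) (s1 := true) (s2 := false) (a := 0) (b := 3) (c := 3) (cn := .pnn) (n1 := ndF3q0) (n2 := ndF5q3) (pc := pcF3) (cut := Cut.none) (xt := Ext.none) (P1 := 0) (W1 := 536870912) (P2 := 0) (W2 := 1230186008) (P3 := 134217728) (W3 := 67108864)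
    rfl k0_pm_033

noncomputable def f_pm_101 : ℕ → ℕ → ℕ → ℕ → Bool := onCell 536870912 536870912 536870912 536870912 134217728 67108864
    (rowF 0 false true false .npn 1 0 1 (qsf 536870912 536870912 536870912 536870912 0) ndF3q1 ndF5q1 pcF0 Cut.none Ext.none)

def k0_pm_101 : ∃ t, chk3 f_pm_101 t 1 1 1 = true :=
  ⟨(l 4), by decide +kernel⟩

theorem c_pm_101 : CertF 536870912 536870912 536870912 536870912 134217728 67108864 false true false .npn 1 0 1
    ndF3q1 ndF5q1 pcF0 Cut.none Ext.none :=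
  certF0 (fam := false) (s1 := true) (s2 := false) (a := 1) (b := 0) (c := 1) (cn := .npn) (n1 := ndF3q1) (n2 := ndF5q1) (pc := pcF0) (cut := Cut.none) (xt := Ext.none) (P1 := 536870912) (W1 := 536870912) (P2 := 536870912) (W2 := 536870912) (P3 := 134217728) (W3 := 67108864)
    rfl k0_pm_101

noncomputable def f_pm_102 : ℕ → ℕ → ℕ → ℕ → Bool := onCell 536870912 536870912 1073741824 536870912 134217728 67108864
    (rowF 0 false true false .npp 1 0 2 (qsf 536870912 536870912 1073741824 536870912 0) ndF3q1 ndF5q2 pcF0 Cut.none Ext.none)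

def k0_pm_102 : ∃ t, chk3 f_pm_102 t 1 1 1 = true :=
  ⟨(l 4), by decide +kernel⟩

theorem c_pm_102 : CertF 536870912 536870912 1073741824 536870912 134217728 67108864 false true false .npp 1 0 2
    ndF3q1 ndF5q2 pcF0 Cut.none Ext.none :=
  certF0 (fam := false) (s1 := true) (s2 := false) (a := 1) (b := 0) (c := 2) (cn := .npp) (n1 := ndF3q1) (n2 := ndF5q2) (pc := pcF0) (cut := Cut.none) (xt := Ext.none) (P1 := 536870912) (W1 := 536870912) (P2 := 1073741824) (W2 := 536870912) (P3 := 134217728) (W3 := 67108864)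
    rfl k0_pm_102

noncomputable def f_pm_112 : ℕ → ℕ → ℕ → ℕ → Bool := onCell 536870912 536870912 1073741824 536870912 134217728 67108864
    (rowF 0 false true false .dn 1 1 2 (qsf 536870912 536870912 1073741824 536870912 1) ndF3q1 ndF5q2 pcF1 Cut.none Ext.none)

def k0_pm_112 : ∃ t, chk3 f_pm_112 t 1 1 1 = true :=
  ⟨(l 4), by decide +kernel⟩

theorem c_pm_112 : CertF 536870912 536870912 1073741824 536870912 134217728 67108864 false true false .dn 1 1 2
    ndF3q1 ndF5q2 pcF1 Cut.none Ext.none :=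
  certF0 (fam := false) (s1 := true) (s2 := false) (a := 1) (b := 1) (c := 2) (cn := .dn) (n1 := ndF3q1) (n2 := ndF5q2) (pc := pcF1) (cut := Cut.none) (xt := Ext.none) (P1 := 536870912) (W1 := 536870912) (P2 := 1073741824) (W2 := 536870912) (P3 := 134217728) (W3 := 67108864)
    rfl k0_pm_112

noncomputable def f_pm_113 : ℕ → ℕ → ℕ → ℕ → Bool := onCell 536870912 536870912 0 1230186008 134217728 67108864
    (rowF 0 false true false .nn 1 1 3 (qsf 536870912 536870912 0 1230186008 1) ndF3q1 ndF5q3 pcF1 Cut.none Ext.none)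

def k0_pm_113 : ∃ t, chk3 f_pm_113 t 1 1 1 = true :=
  ⟨(b (b (a (l 2) (a (l 2) (a (l 2) (l 16869824)))) (l 4)) (l 4)), by decide +kernel⟩

theorem c_pm_113 : CertF 536870912 536870912 0 1230186008 134217728 67108864 false true false .nn 1 1 3
    ndF3q1 ndF5q3 pcF1 Cut.none Ext.none :=
  certF0 (fam := false) (s1 := true) (s2 := false) (a := 1) (b := 1) (c := 3) (cn := .nn) (n1 := ndF3q1) (n2 := ndF5q3) (pc := pcF1) (cut := Cut.none) (xt := Ext.none) (P1 := 536870912) (W1 := 536870912) (P2 := 0) (W2 := 1230186008) (P3 := 134217728) (W3 := 67108864)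
    rfl k0_pm_113

noncomputable def f_pm_123 : ℕ → ℕ → ℕ → ℕ → Bool := onCell 536870912 536870912 0 1230186008 134217728 67108864
    (rowF 0 false true false .npn 1 2 3 (qsf 536870912 536870912 0 1230186008 2) ndF3q1 ndF5q3 pcF2 Cut.none Ext.none)

def k0_pm_123 : ∃ t, chk3 f_pm_123 t 1 1 1 = true :=
  ⟨(b (b (a (l 4) (a (l 4) (a (l 4) (l 16899992)))) (l 4)) (l 4)), by decide +kernel⟩

theorem c_pm_123 : CertF 536870912 536870912 0 1230186008 134217728 67108864 false true false .npn 1 2 3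
    ndF3q1 ndF5q3 pcF2 Cut.none Ext.none :=
  certF0 (fam := false) (s1 := true) (s2 := false) (a := 1) (b := 2) (c := 3) (cn := .npn) (n1 := ndF3q1) (n2 := ndF5q3) (pc := pcF2) (cut := Cut.none) (xt := Ext.none) (P1 := 536870912) (W1 := 536870912) (P2 := 0) (W2 := 1230186008) (P3 := 134217728) (W3 := 67108864)
    rfl k0_pm_123

noncomputable def f_pm_133 : ℕ → ℕ → ℕ → ℕ → Bool := onCell 1610612736 536870912 0 1230186008 134217728 67108864
    (rowF 2 false true false .dn 1 3 3 (qsf 536870912 536870912 0 1230186008 3) ndF3q1 ndF5q3 pcF3 Cut.none Ext.none)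

def k0_pm_133 : ∃ t, chk3 f_pm_133 t 1 1 1 = true :=
  ⟨(b (l 4) (l 1)), by decide +kernel⟩

theorem c_pm_133 : CertF 536870912 536870912 0 1230186008 134217728 67108864 false true false .dn 1 3 3
    ndF3q1 ndF5q3 pcF3 Cut.none Ext.none :=
  certF2 (fam := false) (s1 := true) (s2 := false) (a := 1) (b := 3) (c := 3) (cn := .dn) (n1 := ndF3q1) (n2 := ndF5q3) (pc := pcF3) (cut := Cut.none) (xt := Ext.none) (P1 := 536870912) (W1 := 536870912) (P2 := 0) (W2 := 1230186008) (P3 := 134217728) (W3 := 67108864)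
    rfl (fun _ => rfl) k0_pm_133

noncomputable def f_pm_202 : ℕ → ℕ → ℕ → ℕ → Bool := onCell 1073741824 536870912 1073741824 536870912 134217728 67108864
    (rowF 0 false true false .pp 2 0 2 (qsf 1073741824 536870912 1073741824 536870912 0) ndF3q2 ndF5q2 pcF0 Cut.none Ext.none)

def k0_pm_202 : ∃ t, chk3 f_pm_202 t 1 1 1 = true :=
  ⟨(a (l 4) (b (l 4) (a (l 4) (b (l 4) (l 18076528))))), by decide +kernel⟩

theorem c_pm_202 : CertF 1073741824 536870912 1073741824 536870912 134217728 67108864 false true false .pp 2 0 2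
    ndF3q2 ndF5q2 pcF0 Cut.none Ext.none :=
  certF0 (fam := false) (s1 := true) (s2 := false) (a := 2) (b := 0) (c := 2) (cn := .pp) (n1 := ndF3q2) (n2 := ndF5q2) (pc := pcF0) (cut := Cut.none) (xt := Ext.none) (P1 := 1073741824) (W1 := 536870912) (P2 := 1073741824) (W2 := 536870912) (P3 := 134217728) (W3 := 67108864)
    rfl k0_pm_202

noncomputable def f_pm_203 : ℕ → ℕ → ℕ → ℕ → Bool := onCell 0 536870912 0 1230186008 134217728 67108864
    (rowF 2 false true false .up 2 0 3 (qsf 1073741824 536870912 0 1230186008 0) ndF3q2 ndF5q3 pcF0 Cut.none Ext.none)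

def k0_pm_203 : ∃ t, chk3 f_pm_203 t 1 1 1 = true :=
  ⟨(b (a (l 2) (b (l 3) (a (l 2) (b (l 17643864) (l 17812408))))) (b (b (a (l 2) (a (l 17937400) (l 17873344))) (a (a (l 2) (l 18288352)) (b (l 18045528) (l 17870320)))) (a (b (a (l 2) (l 17488920)) (a (l 17514640) (l 17554968))) (b (a (l 17470304) (a (b (l 17581464) (l 17303136)) (b (l 17554440) (b (l 17289696) (l 17440504))))) (a (b (a (l 17435328) (l 17504272)) (a (l 17762776) (l 4))) (b (a (b (l 17550464) (l 17745176)) (b (a (l 17693528) (l 17897408)) (l 4))) (l 4))))))), by decide +kernel⟩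

theorem c_pm_203 : CertF 1073741824 536870912 0 1230186008 134217728 67108864 false true false .up 2 0 3
    ndF3q2 ndF5q3 pcF0 Cut.none Ext.none :=
  certF2 (fam := false) (s1 := true) (s2 := false) (a := 2) (b := 0) (c := 3) (cn := .up) (n1 := ndF3q2) (n2 := ndF5q3) (pc := pcF0) (cut := Cut.none) (xt := Ext.none) (P1 := 1073741824) (W1 := 536870912) (P2 := 0) (W2 := 1230186008) (P3 := 134217728) (W3 := 67108864)
    rfl (fun _ => rfl) k0_pm_203

noncomputable def f_pm_213 : ℕ → ℕ → ℕ → ℕ → Bool := onCell 1073741824 536870912 0 1230186008 134217728 67108864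
    (rowF 0 false true false .pnn 2 1 3 (qsf 1073741824 536870912 0 1230186008 1) ndF3q2 ndF5q3 pcF1 Cut.none Ext.none)

def k0_pm_213 : ∃ t, chk3 f_pm_213 t 1 1 1 = true :=
  ⟨(b (b (a (a (a (l 16965760) (a (a (l 17013000) (l 17015960)) (a (l 17014536) (l 17015184)))) (a (a (a (l 17013616) (l 17016992)) (l 17003864)) (l 217601426663))) (a (b (l 262161924791) (l 17340280)) (a (l 266993783351) (l 3)))) (a (a (a (b (l 16997184) (l 16899320)) (a (a (l 17013368) (l 17023112)) (b (l 17036400) (l 16951888)))) (a (a (b (l 17064176) (l 17000432)) (l 17036048)) (b (l 17006960) (l 16958336)))) (a (b (l 17060672) (l 17018208)) (b (a (l 17186960) (l 17299128)) (a (l 17004784) (l 17068984)))))) (b (a (b (a (a (b (l 17114344) (l 17264696)) (a (a (l 17086752) (l 17047384)) (b (l 16952264) (l 17090544)))) (a (a (l 17006472) (l 16923048)) (l 16880496))) (a (a (a (l 17605896) (l 17516088)) (a (a (l 17478072) (l 17449088)) (l 17339360))) (a (a (l 17276240) (l 17234024)) (l 17144336)))) (b (a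 (l 16843480) (b (l 16942592) (l 1))) (a (l 17035400) (l 1)))) (a (b (a (a (l 17835288) (a (l 17759016) (l 17697752))) (a (l 17621456) (l 17521336))) (a (l 4) (a (l 17870704) (l 1)))) (l 1)))), by decide +kernel⟩

theorem c_pm_213 : CertF 1073741824 536870912 0 1230186008 134217728 67108864 false true false .pnn 2 1 3
    ndF3q2 ndF5q3 pcF1 Cut.none Ext.none :=
  certF0 (fam := false) (s1 := true) (s2 := false) (a := 2) (b := 1) (c := 3) (cn := .pnn) (n1 := ndF3q2) (n2 := ndF5q3) (pc := pcF1) (cut := Cut.none) (xt := Ext.none) (P1 := 1073741824) (W1 := 536870912) (P2 := 0) (W2 := 1230186008) (P3 := 134217728) (W3 := 67108864)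
    rfl k0_pm_213

noncomputable def f_pm_303 : ℕ → ℕ → ℕ → ℕ → Bool := onCell 0 1230186008 0 1230186008 134217728 67108864
    (rowF 0 false true false .npn 3 0 3 (qsf 0 1230186008 0 1230186008 0) ndF3q3 ndF5q3 pcF0 Cut.none Ext.none)

def k0_pm_303 : ∃ t, chk3 f_pm_303 t 1 1 1 = true :=
  ⟨(a (b (l 3) (b (b (l 3) (l 1)) (l 1))) (b (a (l 3) (b (l 3) (a (l 213843876343) (b (l 213306631671) (l 17255024))))) (a (a (b (b (l 206865411351) (b (l 413426719031) (l 1))) (l 1)) (b (b (l 154252001879) (b (l 17790904) (l 17628944))) (b (b (l 17441192) (l 1)) (l 1)))) (b (b (a (l 17597256) (l 17485920)) (a (b (l 17797736) (l 17612688)) (l 17685136))) (a (b (l 17196432) (a (l 1) (b (l 17285776) (l 1)))) (b (l 17157856) (l 17138544))))))), by decide +kernel⟩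

theorem c_pm_303 : CertF 0 1230186008 0 1230186008 134217728 67108864 false true false .npn 3 0 3
    ndF3q3 ndF5q3 pcF0 Cut.none Ext.none :=
  certF0 (fam := false) (s1 := true) (s2 := false) (a := 3) (b := 0) (c := 3) (cn := .npn) (n1 := ndF3q3) (n2 := ndF5q3) (pc := pcF0) (cut := Cut.none) (xt := Ext.none) (P1 := 0) (W1 := 1230186008) (P2 := 0) (W2 := 1230186008) (P3 := 134217728) (W3 := 67108864)
    rfl k0_pm_303

noncomputable def f_pm_313 : ℕ → ℕ → ℕ → ℕ → Bool := onCell 0 1230186008 0 1230186008 134217728 67108864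
    (rowF 0 false true false .dn 3 1 3 (qsf 0 1230186008 0 1230186008 1) ndF3q3 ndF5q3 pcF1 Cut.none Ext.none)

def k0_pm_313 : ∃ t, chk3 f_pm_313 t 1 1 1 = true :=
  ⟨(a (l 1) (b (b (l 3) (l 1)) (l 1))), by decide +kernel⟩

theorem c_pm_313 : CertF 0 1230186008 0 1230186008 134217728 67108864 false true false .dn 3 1 3
    ndF3q3 ndF5q3 pcF1 Cut.none Ext.none :=
  certF0 (fam := false) (s1 := true) (s2 := false) (a := 3) (b := 1) (c := 3) (cn := .dn) (n1 := ndF3q3) (n2 := ndF5q3) (pc := pcF1) (cut := Cut.none) (xt := Ext.none) (P1 := 0) (W1 := 1230186008) (P2 := 0) (W2 := 1230186008) (P3 := 134217728) (W3 := 67108864)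
    rfl k0_pm_313

noncomputable def f_mm_001 : ℕ → ℕ → ℕ → ℕ → Bool := onCell 0 536870912 0 536870912 134217728 67108864
    (rowF 1 false false false .up 0 0 1 (qsf 0 536870912 536870912 536870912 0) ndF3q0 ndF5q1 pcF0 Cut.none Ext.none)

def k0_mm_001 : ∃ t, chk3 f_mm_001 t 1 1 1 = true :=
  ⟨(l 3), by decide +kernel⟩

theorem c_mm_001 : CertF 0 536870912 536870912 536870912 134217728 67108864 false false false .up 0 0 1
    ndF3q0 ndF5q1 pcF0 Cut.none Ext.none :=
  certF1 (fam := false) (s1 := false) (s2 := false) (a := 0) (b := 0) (c := 1) (cn := .up) (n1 := ndF3q0) (n2 := ndF5q1) (pc := pcF0) (cut := Cut.none) (xt := Ext.none) (P1 := 0) (W1 := 536870912) (P2 := 536870912) (W2 := 536870912) (P3 := 134217728) (W3 := 67108864)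
    rfl (fun _ => rfl) k0_mm_001

noncomputable def f_mm_011 : ℕ → ℕ → ℕ → ℕ → Bool := onCell 0 536870912 536870912 536870912 134217728 67108864
    (rowF 1 false false false .pnn 0 1 1 (qsf 0 536870912 536870912 536870912 1) ndF3q0 ndF5q1 pcF1 Cut.none Ext.none)

def k0_mm_011 : ∃ t, chk3 f_mm_011 t 1 1 1 = true :=
  ⟨(l 5), by decide +kernel⟩

theorem c_mm_011 : CertF 0 536870912 536870912 536870912 134217728 67108864 false false false .pnn 0 1 1
    ndF3q0 ndF5q1 pcF1 Cut.none Ext.none :=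
  certF1 (fam := false) (s1 := false) (s2 := false) (a := 0) (b := 1) (c := 1) (cn := .pnn) (n1 := ndF3q0) (n2 := ndF5q1) (pc := pcF1) (cut := Cut.none) (xt := Ext.none) (P1 := 0) (W1 := 536870912) (P2 := 536870912) (W2 := 536870912) (P3 := 134217728) (W3 := 67108864)
    rfl (fun _ => rfl) k0_mm_011

noncomputable def f_mm_012 : ℕ → ℕ → ℕ → ℕ → Bool := onCell 0 536870912 1073741824 536870912 134217728 67108864
    (rowF 0 false false false .pnp 0 1 2 (qsf 0 536870912 1073741824 536870912 1) ndF3q0 ndF5q2 pcF1 Cut.none Ext.none)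

def k0_mm_012 : ∃ t, chk3 f_mm_012 t 1 1 1 = true :=
  ⟨(l 5), by decide +kernel⟩

theorem c_mm_012 : CertF 0 536870912 1073741824 536870912 134217728 67108864 false false false .pnp 0 1 2
    ndF3q0 ndF5q2 pcF1 Cut.none Ext.none :=
  certF0 (fam := false) (s1 := false) (s2 := false) (a := 0) (b := 1) (c := 2) (cn := .pnp) (n1 := ndF3q0) (n2 := ndF5q2) (pc := pcF1) (cut := Cut.none) (xt := Ext.none) (P1 := 0) (W1 := 536870912) (P2 := 1073741824) (W2 := 536870912) (P3 := 134217728) (W3 := 67108864)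
    rfl k0_mm_012

noncomputable def f_mm_022 : ℕ → ℕ → ℕ → ℕ → Bool := onCell 0 536870912 1073741824 536870912 134217728 67108864
    (rowF 0 false false false .pp 0 2 2 (qsf 0 536870912 1073741824 536870912 2) ndF3q0 ndF5q2 pcF2 Cut.none Ext.none)

def k0_mm_022 : ∃ t, chk3 f_mm_022 t 1 1 1 = true :=
  ⟨(l 5), by decide +kernel⟩

theorem c_mm_022 : CertF 0 536870912 1073741824 536870912 134217728 67108864 false false false .pp 0 2 2
    ndF3q0 ndF5q2 pcF2 Cut.none Ext.none :=
  certF0 (fam := false) (s1 := false) (s2 := false) (a := 0) (b := 2) (c := 2) (cn := .pp) (n1 := ndF3q0) (n2 := ndF5q2) (pc := pcF2) (cut := Cut.none) (xt := Ext.none) (P1 := 0) (W1 := 536870912) (P2 := 1073741824) (W2 := 536870912) (P3 := 134217728) (W3 := 67108864)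
    rfl k0_mm_022

noncomputable def f_mm_023 : ℕ → ℕ → ℕ → ℕ → Bool := onCell 0 536870912 0 1230186008 134217728 67108864
    (rowF 0 false false false .up 0 2 3 (qsf 0 536870912 0 1230186008 2) ndF3q0 ndF5q3 pcF2 Cut.none Ext.none)

def k0_mm_023 : ∃ t, chk3 f_mm_023 t 1 1 1 = true :=
  ⟨(l 5), by decide +kernel⟩

theorem c_mm_023 : CertF 0 536870912 0 1230186008 134217728 67108864 false false false .up 0 2 3
    ndF3q0 ndF5q3 pcF2 Cut.none Ext.none :=
  certF0 (fam := false) (s1 := false) (s2 := false) (a := 0) (b := 2) (c := 3) (cn := .up) (n1 := ndF3q0) (n2 := ndF5q3) (pc := pcF2) (cut := Cut.none) (xt := Ext.none) (P1 := 0) (W1 := 536870912) (P2 := 0) (W2 := 1230186008) (P3 := 134217728) (W3 := 67108864)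
    rfl k0_mm_023

noncomputable def f_mm_033 : ℕ → ℕ → ℕ → ℕ → Bool := onCell 0 536870912 0 1230186008 134217728 67108864
    (rowF 0 false false false .pnn 0 3 3 (qsf 0 536870912 0 1230186008 3) ndF3q0 ndF5q3 pcF3 Cut.none Ext.none)

def k0_mm_033 : ∃ t, chk3 f_mm_033 t 1 1 1 = true :=
  ⟨(l 5), by decide +kernel⟩

theorem c_mm_033 : CertF 0 536870912 0 1230186008 134217728 67108864 false false false .pnn 0 3 3
    ndF3q0 ndF5q3 pcF3 Cut.none Ext.none :=
  certF0 (fam := false) (s1 := false) (s2 := false) (a := 0) (b := 3) (c := 3) (cn := .pnn) (n1 := ndF3q0) (n2 := ndF5q3) (pc := pcF3) (cut := Cut.none) (xt := Ext.none) (P1 := 0) (W1 := 536870912) (P2 := 0) (W2 := 1230186008) (P3 := 134217728) (W3 := 67108864)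
    rfl k0_mm_033

noncomputable def f_mm_101 : ℕ → ℕ → ℕ → ℕ → Bool := onCell 536870912 536870912 536870912 536870912 134217728 67108864
    (rowF 0 false false false .npn 1 0 1 (qsf 536870912 536870912 536870912 536870912 0) ndF3q1 ndF5q1 pcF0 Cut.none Ext.none)

def k0_mm_101 : ∃ t, chk3 f_mm_101 t 1 1 1 = true :=
  ⟨(l 3), by decide +kernel⟩

theorem c_mm_101 : CertF 536870912 536870912 536870912 536870912 134217728 67108864 false false false .npn 1 0 1
    ndF3q1 ndF5q1 pcF0 Cut.none Ext.none :=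
  certF0 (fam := false) (s1 := false) (s2 := false) (a := 1) (b := 0) (c := 1) (cn := .npn) (n1 := ndF3q1) (n2 := ndF5q1) (pc := pcF0) (cut := Cut.none) (xt := Ext.none) (P1 := 536870912) (W1 := 536870912) (P2 := 536870912) (W2 := 536870912) (P3 := 134217728) (W3 := 67108864)
    rfl k0_mm_101

noncomputable def f_mm_102 : ℕ → ℕ → ℕ → ℕ → Bool := onCell 536870912 536870912 1073741824 536870912 134217728 67108864
    (rowF 0 false false false .npp 1 0 2 (qsf 536870912 536870912 1073741824 536870912 0) ndF3q1 ndF5q2 pcF0 Cut.none Ext.none)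

def k0_mm_102 : ∃ t, chk3 f_mm_102 t 1 1 1 = true :=
  ⟨(l 3), by decide +kernel⟩

theorem c_mm_102 : CertF 536870912 536870912 1073741824 536870912 134217728 67108864 false false false .npp 1 0 2
    ndF3q1 ndF5q2 pcF0 Cut.none Ext.none :=
  certF0 (fam := false) (s1 := false) (s2 := false) (a := 1) (b := 0) (c := 2) (cn := .npp) (n1 := ndF3q1) (n2 := ndF5q2) (pc := pcF0) (cut := Cut.none) (xt := Ext.none) (P1 := 536870912) (W1 := 536870912) (P2 := 1073741824) (W2 := 536870912) (P3 := 134217728) (W3 := 67108864)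
    rfl k0_mm_102

noncomputable def f_mm_112 : ℕ → ℕ → ℕ → ℕ → Bool := onCell 536870912 536870912 1073741824 536870912 134217728 67108864
    (rowF 0 false false false .dn 1 1 2 (qsf 536870912 536870912 1073741824 536870912 1) ndF3q1 ndF5q2 pcF1 Cut.none Ext.none)

def k0_mm_112 : ∃ t, chk3 f_mm_112 t 1 1 1 = true :=
  ⟨(l 3), by decide +kernel⟩

theorem c_mm_112 : CertF 536870912 536870912 1073741824 536870912 134217728 67108864 false false false .dn 1 1 2
    ndF3q1 ndF5q2 pcF1 Cut.none Ext.none :=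
  certF0 (fam := false) (s1 := false) (s2 := false) (a := 1) (b := 1) (c := 2) (cn := .dn) (n1 := ndF3q1) (n2 := ndF5q2) (pc := pcF1) (cut := Cut.none) (xt := Ext.none) (P1 := 536870912) (W1 := 536870912) (P2 := 1073741824) (W2 := 536870912) (P3 := 134217728) (W3 := 67108864)
    rfl k0_mm_112

noncomputable def f_mm_113 : ℕ → ℕ → ℕ → ℕ → Bool := onCell 536870912 536870912 0 1230186008 134217728 67108864
    (rowF 0 false false false .nn 1 1 3 (qsf 536870912 536870912 0 1230186008 1) ndF3q1 ndF5q3 pcF1 Cut.none Ext.none)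

def k0_mm_113 : ∃ t, chk3 f_mm_113 t 1 1 1 = true :=
  ⟨(l 5), by decide +kernel⟩

theorem c_mm_113 : CertF 536870912 536870912 0 1230186008 134217728 67108864 false false false .nn 1 1 3
    ndF3q1 ndF5q3 pcF1 Cut.none Ext.none :=
  certF0 (fam := false) (s1 := false) (s2 := false) (a := 1) (b := 1) (c := 3) (cn := .nn) (n1 := ndF3q1) (n2 := ndF5q3) (pc := pcF1) (cut := Cut.none) (xt := Ext.none) (P1 := 536870912) (W1 := 536870912) (P2 := 0) (W2 := 1230186008) (P3 := 134217728) (W3 := 67108864)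
    rfl k0_mm_113

noncomputable def f_mm_123 : ℕ → ℕ → ℕ → ℕ → Bool := onCell 536870912 536870912 0 1230186008 134217728 67108864
    (rowF 0 false false false .npn 1 2 3 (qsf 536870912 536870912 0 1230186008 2) ndF3q1 ndF5q3 pcF2 Cut.none Ext.none)

def k0_mm_123 : ∃ t, chk3 f_mm_123 t 1 1 1 = true :=
  ⟨(l 5), by decide +kernel⟩

theorem c_mm_123 : CertF 536870912 536870912 0 1230186008 134217728 67108864 false false false .npn 1 2 3
    ndF3q1 ndF5q3 pcF2 Cut.none Ext.none :=
  certF0 (fam := false) (s1 := false) (s2 := false) (a := 1) (b := 2) (c := 3) (cn := .npn) (n1 := ndF3q1) (n2 := ndF5q3) (pc := pcF2) (cut := Cut.none) (xt := Ext.none) (P1 := 536870912) (W1 := 536870912) (P2 := 0) (W2 := 1230186008) (P3 := 134217728) (W3 := 67108864)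
    rfl k0_mm_123

noncomputable def f_mm_133 : ℕ → ℕ → ℕ → ℕ → Bool := onCell 536870912 536870912 0 1230186008 134217728 67108864
    (rowF 0 false false false .dn 1 3 3 (qsf 536870912 536870912 0 1230186008 3) ndF3q1 ndF5q3 pcF3 Cut.none Ext.none)

def k0_mm_133 : ∃ t, chk3 f_mm_133 t 1 1 1 = true :=
  ⟨(l 5), by decide +kernel⟩

theorem c_mm_133 : CertF 536870912 536870912 0 1230186008 134217728 67108864 false false false .dn 1 3 3
    ndF3q1 ndF5q3 pcF3 Cut.none Ext.none :=
  certF0 (fam := false) (s1 := false) (s2 := false) (a := 1) (b := 3) (c := 3) (cn := .dn) (n1 := ndF3q1) (n2 := ndF5q3) (pc := pcF3) (cut := Cut.none) (xt := Ext.none) (P1 := 536870912) (W1 := 536870912) (P2 := 0) (W2 := 1230186008) (P3 := 134217728) (W3 := 67108864)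
    rfl k0_mm_133

noncomputable def f_mm_202 : ℕ → ℕ → ℕ → ℕ → Bool := onCell 0 536870912 1073741824 536870912 134217728 67108864
    (rowF 2 false false false .pp 2 0 2 (qsf 1073741824 536870912 1073741824 536870912 0) ndF3q2 ndF5q2 pcF0 Cut.none Ext.none)

def k0_mm_202 : ∃ t, chk3 f_mm_202 t 1 1 1 = true :=
  ⟨(a (l 3) (l 3)), by decide +kernel⟩

theorem c_mm_202 : CertF 1073741824 536870912 1073741824 536870912 134217728 67108864 false false false .pp 2 0 2
    ndF3q2 ndF5q2 pcF0 Cut.none Ext.none :=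
  certF2 (fam := false) (s1 := false) (s2 := false) (a := 2) (b := 0) (c := 2) (cn := .pp) (n1 := ndF3q2) (n2 := ndF5q2) (pc := pcF0) (cut := Cut.none) (xt := Ext.none) (P1 := 1073741824) (W1 := 536870912) (P2 := 1073741824) (W2 := 536870912) (P3 := 134217728) (W3 := 67108864)
    rfl (fun _ => rfl) k0_mm_202

noncomputable def f_mm_203 : ℕ → ℕ → ℕ → ℕ → Bool := onCell 1073741824 536870912 0 1230186008 134217728 67108864
    (rowF 0 false false false .up 2 0 3 (qsf 1073741824 536870912 0 1230186008 0) ndF3q2 ndF5q3 pcF0 Cut.none Ext.none)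

def k0_mm_203 : ∃ t, chk3 f_mm_203 t 1 1 1 = true :=
  ⟨(b (l 5) (l 3)), by decide +kernel⟩

theorem c_mm_203 : CertF 1073741824 536870912 0 1230186008 134217728 67108864 false false false .up 2 0 3
    ndF3q2 ndF5q3 pcF0 Cut.none Ext.none :=
  certF0 (fam := false) (s1 := false) (s2 := false) (a := 2) (b := 0) (c := 3) (cn := .up) (n1 := ndF3q2) (n2 := ndF5q3) (pc := pcF0) (cut := Cut.none) (xt := Ext.none) (P1 := 1073741824) (W1 := 536870912) (P2 := 0) (W2 := 1230186008) (P3 := 134217728) (W3 := 67108864)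
    rfl k0_mm_203

noncomputable def f_mm_213 : ℕ → ℕ → ℕ → ℕ → Bool := onCell 1073741824 536870912 0 1230186008 134217728 67108864
    (rowF 0 false false false .pnn 2 1 3 (qsf 1073741824 536870912 0 1230186008 1) ndF3q2 ndF5q3 pcF1 Cut.none Ext.none)

def k0_mm_213 : ∃ t, chk3 f_mm_213 t 1 1 1 = true :=
  ⟨(b (l 5) (l 3)), by decide +kernel⟩

theorem c_mm_213 : CertF 1073741824 536870912 0 1230186008 134217728 67108864 false false false .pnn 2 1 3
    ndF3q2 ndF5q3 pcF1 Cut.none Ext.none :=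
  certF0 (fam := false) (s1 := false) (s2 := false) (a := 2) (b := 1) (c := 3) (cn := .pnn) (n1 := ndF3q2) (n2 := ndF5q3) (pc := pcF1) (cut := Cut.none) (xt := Ext.none) (P1 := 1073741824) (W1 := 536870912) (P2 := 0) (W2 := 1230186008) (P3 := 134217728) (W3 := 67108864)
    rfl k0_mm_213

noncomputable def f_mm_303 : ℕ → ℕ → ℕ → ℕ → Bool := onCell 0 1230186008 0 1230186008 134217728 67108864
    (rowF 0 false false false .npn 3 0 3 (qsf 0 1230186008 0 1230186008 0) ndF3q3 ndF5q3 pcF0 Cut.none Ext.none)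

def k0_mm_303 : ∃ t, chk3 f_mm_303 t 1 1 1 = true :=
  ⟨(a (b (l 3) (b (l 3) (l 1))) (a (a (b (l 3) (l 3)) (l 3)) (l 3))), by decide +kernel⟩

theorem c_mm_303 : CertF 0 1230186008 0 1230186008 134217728 67108864 false false false .npn 3 0 3
    ndF3q3 ndF5q3 pcF0 Cut.none Ext.none :=
  certF0 (fam := false) (s1 := false) (s2 := false) (a := 3) (b := 0) (c := 3) (cn := .npn) (n1 := ndF3q3) (n2 := ndF5q3) (pc := pcF0) (cut := Cut.none) (xt := Ext.none) (P1 := 0) (W1 := 1230186008) (P2 := 0) (W2 := 1230186008) (P3 := 134217728) (W3 := 67108864)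
    rfl k0_mm_303

noncomputable def f_mm_313 : ℕ → ℕ → ℕ → ℕ → Bool := onCell 0 1230186008 0 1230186008 134217728 67108864
    (rowF 0 false false false .dn 3 1 3 (qsf 0 1230186008 0 1230186008 1) ndF3q3 ndF5q3 pcF1 Cut.none Ext.none)

def k0_mm_313 : ∃ t, chk3 f_mm_313 t 1 1 1 = true :=
  ⟨(a (l 1) (b (l 3) (l 1))), by decide +kernel⟩

theorem c_mm_313 : CertF 0 1230186008 0 1230186008 134217728 67108864 false false false .dn 3 1 3
    ndF3q3 ndF5q3 pcF1 Cut.none Ext.none :=
  certF0 (fam := false) (s1 := false) (s2 := false) (a := 3) (b := 1) (c := 3) (cn := .dn) (n1 := ndF3q3) (n2 := ndF5q3) (pc := pcF1) (cut := Cut.none) (xt := Ext.none) (P1 := 0) (W1 := 1230186008) (P2 := 0) (W2 := 1230186008) (P3 := 134217728) (W3 := 67108864)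
    rfl k0_mm_313

end Pool.Agent.Strip051.G.I1_8_3_16.Tab.C.FB35

namespace Pool.Agent.Strip051.G.I1_8_3_16.Tab.C.FB40

open Pool.Agent.Strip051.PB Pool.Agent.Strip051.PB.T
open Pool.Agent.Strip051.G.I1_8_3_16.Tab

noncomputable def f_pp_001 : ℕ → ℕ → ℕ → ℕ → Bool := onCell 0 536870912 0 536870912 134217728 67108864
    (rowF 1 false true true .up 0 0 1 (qsf 0 536870912 536870912 536870912 0) ndF4q0 ndF0q1 pcF0 Cut.none Ext.none)

def k0_pp_001 : ∃ t, chk3 f_pp_001 t 1 1 1 = true :=
  ⟨(a (l 3) (b (l 3) (b (l 3) (a (b (l 3) (a (l 3) (b (l 3) (l 294374031431)))) (b (c (a (l 3) (b (a (l 3) (l 264309911095)) (a (l 259477882407) (l 210622718487)))) (a (l 3) (b (a (l 3) (b (l 3) (a (l 3) (l 235855634775)))) (a (l 233707992375) (a (l 214380696183) (l 136534483495)))))) (a (b (a (l 3) (l 217601736551)) (a (l 210622253063) (l 17361576))) (b (a (l 193979527367) (l 17496088)) (l 17445224)))))))), by decide +kernel⟩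

theorem c_pp_001 : CertF 0 536870912 536870912 536870912 134217728 67108864 false true true .up 0 0 1
    ndF4q0 ndF0q1 pcF0 Cut.none Ext.none :=
  certF1 (fam := false) (s1 := true) (s2 := true) (a := 0) (b := 0) (c := 1) (cn := .up) (n1 := ndF4q0) (n2 := ndF0q1) (pc := pcF0) (cut := Cut.none) (xt := Ext.none) (P1 := 0) (W1 := 536870912) (P2 := 536870912) (W2 := 536870912) (P3 := 134217728) (W3 := 67108864)
    rfl (fun _ => rfl) k0_pp_001

noncomputable def f_pp_011 : ℕ → ℕ → ℕ → ℕ → Bool := onCell 536870912 536870912 536870912 536870912 134217728 67108864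
    (rowF 2 false true true .pnn 0 1 1 (qsf 0 536870912 536870912 536870912 1) ndF4q0 ndF0q1 pcF1 Cut.none Ext.none)

def k0_pp_011 : ∃ t, chk3 f_pp_011 t 1 1 1 = true :=
  ⟨(a (b (a (l 3) (b (a (b (l 1) (l 3)) (l 1)) (l 3))) (a (b (b (l 3) (a (b (l 3) (l 215454339991)) (b (l 148881825415) (a (l 17257424) (l 17297288))))) (b (a (b (l 17272168) (l 17336776)) (l 17372256)) (l 17680808))) (b (b (a (l 3) (l 209548494087)) (a (l 203643469063) (b (l 17401776) (l 17459224)))) (b (a (l 17449584) (l 17532936)) (l 17569944))))) (b (a (b (l 1) (a (b (l 1) (l 3)) (l 1))) (l 1)) (a (b (b (b (l 3) (a (l 167672891495) (l 17520088))) (a (l 17524760) (l 17609776))) (b (l 17650952) (l 17701296))) (a (b (b (l 1) (l 416647458007)) (l 17767608)) (b (l 1) (l 351149702791)))))), by decide +kernel⟩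

theorem c_pp_011 : CertF 0 536870912 536870912 536870912 134217728 67108864 false true true .pnn 0 1 1
    ndF4q0 ndF0q1 pcF1 Cut.none Ext.none :=
  certF2 (fam := false) (s1 := true) (s2 := true) (a := 0) (b := 1) (c := 1) (cn := .pnn) (n1 := ndF4q0) (n2 := ndF0q1) (pc := pcF1) (cut := Cut.none) (xt := Ext.none) (P1 := 0) (W1 := 536870912) (P2 := 536870912) (W2 := 536870912) (P3 := 134217728) (W3 := 67108864)
    rfl (fun _ => rfl) k0_pp_011

noncomputable def f_pp_012 : ℕ → ℕ → ℕ → ℕ → Bool := onCell 536870912 536870912 0 536870912 134217728 67108864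
    (rowF 2 false true true .pnp 0 1 2 (qsf 0 536870912 0 536870912 1) ndF4q0 ndF0q2 pcF1 Cut.none Ext.none)

def k0_pp_012 : ∃ t, chk3 f_pp_012 t 1 1 1 = true :=
  ⟨(a (b (b (l 17856672) (a (l 17253136) (l 17565768))) (b (l 17321896) (a (b (l 17379328) (l 17458512)) (l 17507864)))) (b (a (a (l 17875792) (l 17983552)) (a (a (l 18089904) (l 18159256)) (l 18252808))) (b (a (l 17603240) (l 17927104)) (a (l 17620816) (l 17764992))))), by decide +kernel⟩

theorem c_pp_012 : CertF 0 536870912 0 536870912 134217728 67108864 false true true .pnp 0 1 2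
    ndF4q0 ndF0q2 pcF1 Cut.none Ext.none :=
  certF2 (fam := false) (s1 := true) (s2 := true) (a := 0) (b := 1) (c := 2) (cn := .pnp) (n1 := ndF4q0) (n2 := ndF0q2) (pc := pcF1) (cut := Cut.none) (xt := Ext.none) (P1 := 0) (W1 := 536870912) (P2 := 0) (W2 := 536870912) (P3 := 134217728) (W3 := 67108864)
    rfl (fun _ => rfl) k0_pp_012

noncomputable def f_pp_022 : ℕ → ℕ → ℕ → ℕ → Bool := onCell 0 536870912 0 536870912 134217728 67108864
    (rowF 0 false true true .pp 0 2 2 (qsf 0 536870912 0 536870912 2) ndF4q0 ndF0q2 pcF2 Cut.none Ext.none)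

def k0_pp_022 : ∃ t, chk3 f_pp_022 t 1 1 1 = true :=
  ⟨(a (b (a (b (l 18177896) (l 18193144)) (b (l 18545496) (l 18543464))) (b (a (b (l 18211312) (b (l 18220968) (l 18225376))) (l 1)) (a (b (l 18262936) (l 18308808)) (l 1)))) (l 1)), by decide +kernel⟩

theorem c_pp_022 : CertF 0 536870912 0 536870912 134217728 67108864 false true true .pp 0 2 2
    ndF4q0 ndF0q2 pcF2 Cut.none Ext.none :=
  certF0 (fam := false) (s1 := true) (s2 := true) (a := 0) (b := 2) (c := 2) (cn := .pp) (n1 := ndF4q0) (n2 := ndF0q2) (pc := pcF2) (cut := Cut.none) (xt := Ext.none) (P1 := 0) (W1 := 536870912) (P2 := 0) (W2 := 536870912) (P3 := 134217728) (W3 := 67108864)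
    rfl k0_pp_022

noncomputable def cut_pp_101 : Cut := Cut.of [[⟨0, 1, 0, 67108864⟩, ⟨1, 0, 0, 67108864⟩, ⟨2, 1, 0, 67108864⟩]]

noncomputable def f_pp_101 : ℕ → ℕ → ℕ → ℕ → Bool := onCell 0 536870912 536870912 536870912 134217728 67108864
    (rowF 2 false true true .npn 1 0 1 (qsf 536870912 536870912 536870912 536870912 0) ndF4q1 ndF0q1 pcF0 cut_pp_101 Ext.none)

def k0_pp_101 : ∃ t, chk3 f_pp_101 t 1 2 1 = true :=
  ⟨(l 3), by decide +kernel⟩

def k1_pp_101 : ∃ t, chk3 f_pp_101 t 2 6 1 = true :=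
  ⟨(l 3), by decide +kernel⟩

def k2_pp_101 : ∃ t, chk3 f_pp_101 t 4 14 1 = true :=
  ⟨(l 3), by decide +kernel⟩

def k3_pp_101 : ∃ t, chk3 f_pp_101 t 8 15 1 = true :=
  ⟨(b (l 3) (a (b (l 3) (l 6)) (b (b (l 3) (a (l 3) (b (l 3) (a (l 3) (b (l 3) (a (l 3) (a (l 3) (c (c (l 210621109655) (l 226727235847)) (l 248738941671))))))))) (b (a (b (b (l 3) (l 6)) (l 6)) (b (a (b (b (l 3) (a (l 3) (c (c (l 196125610071) (l 214916085479)) (l 240685892791)))) (a (c (b (a (l 3) (c (l 149417848711) (l 191293768087))) (a (l 6) (c (l 140827906263) (l 141901651991)))) (b (l 240685897175) (a (l 6) (l 123111163031)))) (c (b (a (c (l 145122872759) (l 144586005767)) (c (l 140291036167) (l 141901647591))) (c (l 16754576) (l 16759160))) (b (a (l 173577028007) (l 123648029559)) (l 16753008))))) (b (a (c (c (b (l 197736213031) (a (l 144049131687) (l 140291031639))) (b (l 215989822807) (a (l 148344097703) (l 131164218967)))) (b (l 241222753991) (a (l 173577028807) (l 124721766919)))) (c (b (c (l 144585990871)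 (l 160692116999)) (c (l 16755288) (l 16754648))) (b (a (l 173577024295) (l 125258633127)) (l 16753784)))) (a (c (b (c (l 16752344) (l 16756928)) (l 16745144)) (l 16749976)) (c (l 16763040) (l 16740856))))) (a (b (a (a (l 6) (c (l 16759888) (l 16748160))) (c (l 16767520) (l 16745296))) (l 16752360)) (c (l 16760112) (l 16758848))))) (a (l 6) (b (a (l 16760448) (l 16731840)) (l 16739392))))))), by decide +kernel⟩

def k4_pp_101 : ∃ t, chk3 f_pp_101 t 9 30 1 = true :=
  ⟨(a (l 3) (b (l 3) (b (l 3) (a (l 3) (b (l 3) (b (l 3) (b (l 3) (b (l 3) (a (l 3) (a (l 3) (a (l 3) (c (c (c (l 148881179879) (l 141364895463)) (l 138143616743)) (l 145122805367))))))))))))), by decide +kernel⟩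

def k5_pp_101 : ∃ t, chk3 f_pp_101 t 18 62 1 = true :=
  ⟨(b (a (l 3) (b (l 3) (a (l 3) (b (l 3) (a (l 3) (c (c (l 214379170631) (l 210621074471)) (l 206862978407))))))) (a (b (a (l 3) (b (l 3) (a (l 3) (c (c (l 241222733575) (l 249812667367)) (l 233169670167))))) (a (b (a (l 3) (c (c (l 231022201639) (l 241759613607)) (l 240685871639))) (a (c (c (b (l 205252396407) (l 145122857047)) (b (l 221895393543) (l 162302725047))) (b (l 244443970311) (a (l 174113890631) (l 125795499255)))) (c (a (c (l 141901627207) (l 160155237079)) (c (l 140291010583) (l 127406108231))) (b (a (l 175187627799) (l 16741712)) (l 16749160))))) (c (c (b (a (b (l 217063546583) (a (l 144585993975) (l 140291022839))) (b (a (l 144049117991) (l 140827888615)) (l 16755984))) (l 16740648)) (b (a (b (l 230485318439) (l 167671424503)) (b (l 168208295655) (l 16755512))) (l 16740136))) (b (a (c (l 182703810327) (l 188072518615)) (b (a (l 179482596039) (l 16737072)) (l 16744392))) (l 16740080))))) (b (a (b (a (l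 3) (c (c (l 243370207511) (l 234243402583)) (l 221895372407))) (a (c (c (b (l 233706534487) (a (l 158544606439) (l 141364754279))) (b (l 243907081127) (l 171966386951))) (c (l 186998767767) (l 186998773143))) (c (b (c (a (l 167671427591) (l 129553571783)) (l 176261343831)) (l 16732864)) (b (a (l 187535649863) (l 16734736)) (l 16749952))))) (b (a (c (c (b (l 240685846391) (a (l 177871969463) (b (l 131164179063) (l 16727064)))) (b (l 232095912247) (l 181630047639))) (c (l 184851280423) (l 184314420423))) (c (c (b (a (l 189683113463) (b (l 183777540775) (l 16745208))) (l 16745192)) (b (l 183777526391) (l 16745048))) (b (a (l 183240652903) (l 16730096)) (l 16744856)))) (a (c (c (l 16747256) (l 16747000)) (l 16746656)) (c (l 16742896) (l 16721568))))) (c (a (a (c (l 16735384) (l 16740192)) (l 16746768)) (l 16740520)) (a (b (l 16735216) (l 16725512)) (l 16739936)))))), by decide +kernel⟩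

def k6_pp_101 : ∃ t, chk3 f_pp_101 t 38 124 1 = true :=
  ⟨(b (a (l 3) (a (l 3) (b (l 3) (c (a (l 3) (c (c (l 136532960807) (l 149417794231)) (l 148344051831))) (l 163913309559))))) (a (b (a (l 3) (a (l 3) (c (c (l 153175898071) (l 165523928807)) (l 163913315751)))) (a (c (c (b (l 201494262375) (a (l 180556314759) (b (l 130090428903) (l 16743056)))) (b (l 199883649719) (l 178945684327))) (c (l 178408821319) (l 177871940007))) (c (c (b (a (l 156397120135) (b (l 146196569735) (l 16741280))) (l 16740568)) (b (l 173040105735) (l 16740568))) (b (a (l 153175894567) (l 16725992)) (l 16740560))))) (c (b (a (b (c (c (l 139754112311) (l 149954668391)) (l 150491539015)) (c (c (l 137606633911) (l 154249630647)) (a (l 152639019815) (l 16724120)))) (b (c (c (b (l 130627355031) (l 136532964871)) (l 147270305127)) (l 153175884727)) (c (l 16737584) (l 16736704)))) (a (b (c (l 16738760) (l 16738632)) (l 16736440)) (l 16733440))) (b (a (a (l 155323376503) (l 153712759223)) (b (a (l 149417789719)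 (l 16727008)) (l 16736360))) (l 16724736))))), by decide +kernel⟩

def k7_pp_101 : ∃ t, chk3 f_pp_101 t 39 124 1 = true :=
  ⟨(b (a (b (a (l 3) (a (l 3) (c (a (l 3) (c (c (l 140291163287) (l 137069843639)) (l 147270322439))) (l 151565268023)))) (c (a (b (c (c (l 136532997943) (l 138143533159)) (l 147807176791)) (c (c (a (l 139217331783) (l 140291095735)) (b (l 127406083623) (l 133311692423))) (l 147807171831))) (b (c (c (a (l 139754255607) (l 141364889943)) (a (l 140291027159) (l 137069822775))) (a (l 148344041143) (l 140827844183))) (c (l 16775736) (l 16732984)))) (a (b (l 157470851895) (l 155323352903)) (b (l 154786477911) (l 16732248))))) (b (c (a (a (b (l 3) (c (c (l 138143692375) (l 139217337719)) (b (l 144049092407) (l 135996026279)))) (b (a (l 3) (c (c (l 145123045223) (l 137069888135)) (l 138680423975))) (c (c (l 140828067991) (l 141901726295)) (c (l 138680435815) (l 130627276551))))) (b (a (c (c (l 137606867863) (l 138680515911)) (c (l 140291035031) (l 147270270807)))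 (c (c (l 141364931063) (l 142438606503)) (c (l 142438580935) (l 136532909639)))) (c (l 16806104) (l 16729648)))) (a (c (l 152102132951) (l 150491518887)) (c (l 151028382647) (l 145122801079)))) (c (a (b (c (l 16802280) (l 16731200)) (l 16745744)) (l 16770584)) (c (l 16727392) (l 16726776))))) (a (b (c (a (b (c (l 16768224) (l 16734824)) (l 16732752)) (l 16733128)) (l 16720592)) (c (l 16727328) (l 16726728))) (c (l 16740160) (l 16720552)))), by decide +kernel⟩

def k8_pp_101 : ∃ t, chk3 f_pp_101 t 19 125 1 = true :=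
  ⟨(c (a (b (a (a (a (b (c (l 16742688) (l 16742608)) (l 16718728)) (l 16739032)) (l 16735784)) (l 16729272)) (l 16727752)) (l 16734208)) (a (b (a (b (a (l 16741488) (l 16737264)) (l 16736304)) (l 16729456)) (l 16727512)) (l 16713744))), by decide +kernel⟩

def k9_pp_101 : ∃ t, chk3 f_pp_101 t 9 63 1 = true :=
  ⟨(a (b (a (b (a (b (c (a (c (l 16746896) (l 16751528)) (l 16758344)) (l 16745120)) (l 16743432)) (c (l 16750768) (l 16749696))) (l 16741200)) (b (l 16731560) (l 16731752))) (b (l 16738592) (l 16726696))) (b (a (l 16707928) (l 16701368)) (l 16697424))), by decide +kernel⟩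

def k10_pp_101 : ∃ t, chk3 f_pp_101 t 5 14 1 = true :=
  ⟨(a (l 3) (b (l 3) (b (l 3) (a (l 3) (c (l 198810673175) (b (l 3) (a (l 3) (l 196126192487)))))))), by decide +kernel⟩

def k11_pp_101 : ∃ t, chk3 f_pp_101 t 10 60 1 = true :=
  ⟨(a (l 3) (b (l 3) (a (l 3) (c (l 192368021367) (b (l 3) (a (l 3) (c (l 174651133447) (b (l 3) (a (l 3) (l 155860539255)))))))))), by decide +kernel⟩

def k12_pp_101 : ∃ t, chk3 f_pp_101 t 20 61 1 = true :=
  ⟨(b (a (l 3) (a (l 3) (a (l 3) (b (l 3) (c (c (l 168208756935) (l 157471194423)) (c (l 146733632983) (l 149417845415))))))) (a (b (b (l 3) (b (l 3) (a (l 3) (a (l 3) (c (c (l 158544959527) (l 145123022887)) (c (l 137069796279) (l 145659642407))))))) (a (b (a (l 3) (b (l 3) (c (a (l 3) (c (l 152639272519) (l 138680519511))) (c (l 145659673271) (l 147807133655))))) (c (a (b (c (c (l 151565566807) (l 144049285799)) (c (l 136533004967) (l 137606658935))) (a (c (c (l 137606911463) (l 138143691111)) (a (l 139217375527) (l 141364858183))) (c (c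 (l 141364974839) (l 142438627575)) (b (l 139217380743) (l 16764464))))) (b (a (c (c (l 138143823447) (l 138143734519)) (b (l 137069882759) (l 140828004407))) (c (l 141901799703) (l 141901750551))) (c (l 16872128) (l 16780040)))) (c (a (l 149954641815) (l 145122816263)) (a (l 147270285335) (l 141901567687))))) (a (b (c (c (c (l 137607000343) (l 137606914855)) (c (l 137606829591) (l 140827970007))) (c (l 141364776647) (l 145122793911))) (c (c (l 16892352) (l 16801160)) (c (l 16710392) (l 16720984)))) (c (b (c (l 140828136647) (a (l 140828018503) (l 143512381271))) (l 16866000)) (b (c (l 138143606679) (l 139217205559)) (l 16717600)))))) (b (c (c (a (b (l 162303104183) (a (l 138143900263) (l 141902032487))) (l 142438911287)) (a (b (a (l 3) (l 151565548807)) (a (b (l 148881157287) (l 139754327575)) (l 141364976439))) (b (a (l 138143809063) (l 141901938471)) (l 16890728)))) (c (a (b (a (l 3) (l 140291106183)) (a (l 139754209367) (l 142975446983))) (b (a (l 138680525095) (l 141901800055))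 (l 16808328))) (a (a (l 149417758631) (l 134922254103)) (a (l 132774788599) (l 126332366583))))) (c (a (b (c (l 16939904) (l 16832008)) (l 16894856)) (l 16932928)) (a (b (c (l 16766528) (l 16715320)) (l 16711128)) (l 16753464)))))), by decide +kernel⟩

def k13_pp_101 : ∃ t, chk3 f_pp_101 t 21 61 1 = true :=
  ⟨(b (a (c (c (b (l 190220521527) (a (l 138680905799) (l 139754608519))) (b (l 182167325159) (a (b (l 174651108983) (l 138143889751)) (l 138143950631)))) (c (b (l 174114129927) (a (b (l 165524162151) (l 137606869543)) (l 136533190407))) (b (a (l 3) (b (l 3) (a (l 3) (l 141901780951)))) (a (b (l 139754218199) (a (l 132237997591) (l 120426806695))) (b (a (l 134922422343) (l 129016870679)) (l 16804680)))))) (c (b (a (l 137607195303) (l 140291447175)) (l 16974840)) (c (a (l 129553855127) (l 125795810055)) (c (b (a (l 133848794519) (l 127943268583)) (l 16869392)) (b (a (b (l 143512407623) (a (l 133848710535) (l 127943157559))) (b (a (l 132775028551) (l 127406305207)) (l 16851680)))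 (a (l 16818024) (l 16846768))))))) (a (c (a (a (c (l 17002008) (l 16916184)) (l 16955488)) (l 17002224)) (a (b (c (l 16843888) (l 16763480)) (l 16789424)) (l 16830784))) (c (l 17052160) (l 16880576)))), by decide +kernel⟩

def k14_pp_101 : ∃ t, chk3 f_pp_101 t 11 30 1 = true :=
  ⟨(b (a (a (b (l 3) (c (l 141902265415) (c (b (l 183778004679) (l 131164667847)) (b (a (l 3) (l 167671784375)) (c (l 130627659543) (a (a (l 134922568375) (l 131701367719)) (l 126869566615))))))) (c (l 145660415655) (c (b (l 195589236583) (l 128480407303)) (b (b (l 3) (l 176261781207)) (b (a (l 132775222327) (l 126332740839)) (l 16959688)))))) (c (b (l 151029260007) (l 17190224)) (c (b (l 133312347495) (l 17092400)) (b (a (b (l 185925534039) (l 130090972023)) (l 128480438823)) (a (l 17005216) (l 17050544)))))) (a (c (b (a (l 17090600) (l 17145640)) (l 17144728)) (b (a (b (c (l 16979016) (a (l 16896632) (l 16923056))) (l 16945456)) (l 16998888)) (l 16974712))) (c (l 17237440) (l 17081096)))), by decide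 +kernel⟩

def k15_pp_101 : ∃ t, chk3 f_pp_101 t 5 31 1 = true :=
  ⟨(a (b (a (b (a (b (a (b (c (a (c (l 16807280) (l 16773816)) (l 16821384)) (a (l 16725272) (l 16721224))) (c (l 16803224) (l 16697920))) (c (l 16849432) (l 16713048))) (c (l 16812576) (l 16708336))) (c (l 16908688) (l 16696448))) (a (l 16716824) (l 16755904))) (b (c (l 17029512) (l 16822936)) (l 16907584))) (b (a (l 16674992) (l 16874824)) (l 16671400))) (b (a (c (l 17178016) (l 16966464)) (l 17196984)) (a (l 17064288) (l 17221392)))), by decide +kernel⟩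

def k16_pp_101 : ∃ t, chk3 f_pp_101 t 3 3 1 = true :=
  ⟨(b (a (l 3) (a (l 3) (l 1))) (a (b (a (b (l 3) (b (a (l 3) (c (l 217064500839) (l 197200098999))) (a (c (l 154787436551) (b (l 197200013527) (a (l 137070474247) (l 127943612535)))) (c (l 157471799607) (b (l 135460011207) (l 17183528)))))) (b (a (l 3) (c (l 224580828263) (l 194515897911))) (b (c (l 162303789335) (a (l 139755056167) (l 130628264663))) (c (l 17387696) (a (l 17243528) (l 17308656)))))) (b (a (b (a (c (l 17263152) (b (l 17064696) (l 17147360))) (c (l 17342416) (l 17215488))) (a (l 17251328) (l 17331536))) (c (l 17474864) (l 17339600))) (a (b (l 17343504) (l 17389624)) (l 17511408)))) (a (b (a (b (c (l 167672656311) (l 143513297111)) (c (l 17455944) (l 17349744))) (b (l 341484660631) (l 17458744))) (b (l 17516840) (l 17610720))) (b (l 381213344215) (l 17722296))))), by decide +kernel⟩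

theorem s17_pp_101 : ∃ t, chk3 f_pp_101 t 10 61 1 = true := ex3_a k12_pp_101 k13_pp_101

theorem s18_pp_101 : ∃ t, chk3 f_pp_101 t 10 30 1 = true := ex3_b k11_pp_101 s17_pp_101

theorem s19_pp_101 : ∃ t, chk3 f_pp_101 t 5 30 1 = true := ex3_a s18_pp_101 k14_pp_101

theorem s20_pp_101 : ∃ t, chk3 f_pp_101 t 5 15 1 = true := ex3_b s19_pp_101 k15_pp_101

theorem s21_pp_101 : ∃ t, chk3 f_pp_101 t 5 7 1 = true := ex3_b k10_pp_101 s20_pp_101

theorem s22_pp_101 : ∃ t, chk3 f_pp_101 t 19 124 1 = true := ex3_a k6_pp_101 k7_pp_101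

theorem s23_pp_101 : ∃ t, chk3 f_pp_101 t 19 62 1 = true := ex3_b s22_pp_101 k8_pp_101

theorem s24_pp_101 : ∃ t, chk3 f_pp_101 t 9 62 1 = true := ex3_a k5_pp_101 s23_pp_101

theorem s25_pp_101 : ∃ t, chk3 f_pp_101 t 9 31 1 = true := ex3_b s24_pp_101 k9_pp_101

theorem s26_pp_101 : ∃ t, chk3 f_pp_101 t 9 15 1 = true := ex3_b k4_pp_101 s25_pp_101

theorem s27_pp_101 : ∃ t, chk3 f_pp_101 t 4 15 1 = true := ex3_a k3_pp_101 s26_pp_101

theorem s28_pp_101 : ∃ t, chk3 f_pp_101 t 4 7 1 = true := ex3_b k2_pp_101 s27_pp_101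

theorem s29_pp_101 : ∃ t, chk3 f_pp_101 t 2 7 1 = true := ex3_a s28_pp_101 s21_pp_101

theorem s30_pp_101 : ∃ t, chk3 f_pp_101 t 2 3 1 = true := ex3_b k1_pp_101 s29_pp_101

theorem s31_pp_101 : ∃ t, chk3 f_pp_101 t 1 3 1 = true := ex3_a s30_pp_101 k16_pp_101

theorem s32_pp_101 : ∃ t, chk3 f_pp_101 t 1 1 1 = true := ex3_b k0_pp_101 s31_pp_101

theorem c_pp_101 : CertF 536870912 536870912 536870912 536870912 134217728 67108864 false true true .npn 1 0 1
    ndF4q1 ndF0q1 pcF0 cut_pp_101 Ext.none :=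
  certF2 (fam := false) (s1 := true) (s2 := true) (a := 1) (b := 0) (c := 1) (cn := .npn) (n1 := ndF4q1) (n2 := ndF0q1) (pc := pcF0) (cut := cut_pp_101) (xt := Ext.none) (P1 := 536870912) (W1 := 536870912) (P2 := 536870912) (W2 := 536870912) (P3 := 134217728) (W3 := 67108864)
    rfl (fun _ => rfl) s32_pp_101

noncomputable def cut_pp_102 : Cut := Cut.of [[⟨0, 1, 0, 67108864⟩, ⟨1, 0, 0, 67108864⟩, ⟨2, 1, 0, 67108864⟩]]

noncomputable def f_pp_102 : ℕ → ℕ → ℕ → ℕ → Bool := onCell 536870912 536870912 0 536870912 134217728 67108864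
    (rowF 0 false true true .npp 1 0 2 (qsf 536870912 536870912 0 536870912 0) ndF4q1 ndF0q2 pcF0 cut_pp_102 Ext.none)

def k0_pp_102 : ∃ t, chk3 f_pp_102 t 1 1 1 = true :=
  ⟨(a (b (b (a (l 2) (l 17757904)) (a (l 17626048) (b (l 17813872) (l 17776368)))) (b (a (l 17706136) (b (l 17999384) (l 17757360))) (a (b (l 17734960) (l 17844672)) (a (b (l 17719352) (l 17632120)) (b (l 17662624) (l 17512952)))))) (b (a (b (l 18013936) (b (l 17898088) (l 17822784))) (b (l 18096328) (a (b (l 17817968) (l 17595808)) (b (l 17520024) (l 17191472))))) (b (a (a (b (l 17774976) (l 17683560)) (b (l 17659448) (l 17483224))) (a (b (l 17286696) (b (l 17006192) (l 16780712))) (b (l 17083784) (a (l 16783184) (l 16883432))))) (a (a (b (l 17527024) (b (l 17358240) (l 17219808))) (b (b (l 17291600) (l 17123632)) (b (l 16928776) (b (l 16771816) (l 16667760))))) (a (b (b (l 16532800) (l 16598512)) (b (a (l 16612080) (l 16656424)) (b (l 16695744) (a (l 16670032) (l 16728592))))) (a (b (b (l 16607288) (l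 16661328)) (a (b (l 16652896) (b (l 16686800) (l 16738968))) (b (l 16683544) (b (l 16701432) (l 6))))) (b (b (l 16787240) (a (l 16662536) (l 16727680))) (b (a (b (l 16659792) (l 6)) (l 6)) (l 6))))))))), by decide +kernel⟩

theorem c_pp_102 : CertF 536870912 536870912 0 536870912 134217728 67108864 false true true .npp 1 0 2
    ndF4q1 ndF0q2 pcF0 cut_pp_102 Ext.none :=
  certF0 (fam := false) (s1 := true) (s2 := true) (a := 1) (b := 0) (c := 2) (cn := .npp) (n1 := ndF4q1) (n2 := ndF0q2) (pc := pcF0) (cut := cut_pp_102) (xt := Ext.none) (P1 := 536870912) (W1 := 536870912) (P2 := 0) (W2 := 536870912) (P3 := 134217728) (W3 := 67108864)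
    rfl k0_pp_102

noncomputable def f_pp_112 : ℕ → ℕ → ℕ → ℕ → Bool := onCell 536870912 536870912 0 536870912 134217728 67108864
    (rowF 2 false true true .dn 1 1 2 (qsf 536870912 536870912 0 536870912 1) ndF4q1 ndF0q2 pcF1 Cut.none Ext.none)

def k0_pp_112 : ∃ t, chk3 f_pp_112 t 1 1 1 = true :=
  ⟨(a (b (b (l 18755256) (l 18419200)) (b (a (l 18284392) (l 1)) (a (b (l 18206152) (l 18147592)) (l 1)))) (l 1)), by decide +kernel⟩

theorem c_pp_112 : CertF 536870912 536870912 0 536870912 134217728 67108864 false true true .dn 1 1 2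
    ndF4q1 ndF0q2 pcF1 Cut.none Ext.none :=
  certF2 (fam := false) (s1 := true) (s2 := true) (a := 1) (b := 1) (c := 2) (cn := .dn) (n1 := ndF4q1) (n2 := ndF0q2) (pc := pcF1) (cut := Cut.none) (xt := Ext.none) (P1 := 536870912) (W1 := 536870912) (P2 := 0) (W2 := 536870912) (P3 := 134217728) (W3 := 67108864)
    rfl (fun _ => rfl) k0_pp_112

noncomputable def f_pp_202 : ℕ → ℕ → ℕ → ℕ → Bool := onCell 0 536870912 0 536870912 134217728 67108864
    (rowF 2 false true true .pp 2 0 2 (qsf 1073741824 536870912 0 536870912 0) ndF4q2 ndF0q2 pcF0 Cut.none Ext.none)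

def k0_pp_202 : ∃ t, chk3 f_pp_202 t 1 1 1 = true :=
  ⟨(a (b (a (b (a (c (b (b (a (b (l 16852760) (l 16900792)) (l 16871480)) (a (b (a (b (l 16929752) (a (l 150491565639) (l 16931568))) (l 16908968)) (l 201494626887)) (b (l 16862184) (l 16844400)))) (b (a (l 3) (l 195051965527)) (l 3))) (a (b (b (l 16675384) (b (a (l 151565189111) (l 16619072)) (l 203641555063))) (l 3)) (b (b (l 16604496) (l 142438329767)) (l 200957198311)))) (b (b (l 16620416) (l 16644952)) (a (c (l 148880880791) (l 149954429815)) (b (l 129016485959) (l 183240376119))))) (l 3)) (a (a (b (b (b (l 16496880) (l 16508840)) (c (l 130090303799) (l 131700749687))) (l 3)) (b (l 3705516167239) (l 1))) (l 1))) (l 3)) (l 1)), by decide +kernel⟩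

theorem c_pp_202 : CertF 1073741824 536870912 0 536870912 134217728 67108864 false true true .pp 2 0 2
    ndF4q2 ndF0q2 pcF0 Cut.none Ext.none :=
  certF2 (fam := false) (s1 := true) (s2 := true) (a := 2) (b := 0) (c := 2) (cn := .pp) (n1 := ndF4q2) (n2 := ndF0q2) (pc := pcF0) (cut := Cut.none) (xt := Ext.none) (P1 := 1073741824) (W1 := 536870912) (P2 := 0) (W2 := 536870912) (P3 := 134217728) (W3 := 67108864)
    rfl (fun _ => rfl) k0_pp_202

noncomputable def f_pm_001 : ℕ → ℕ → ℕ → ℕ → Bool := onCell 0 536870912 536870912 536870912 134217728 67108864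
    (rowF 0 false true false .up 0 0 1 (qsf 0 536870912 536870912 536870912 0) ndF4q0 ndF0q1 pcF0 Cut.none Ext.none)

def k0_pm_001 : ∃ t, chk3 f_pm_001 t 1 1 1 = true :=
  ⟨(l 4), by decide +kernel⟩

theorem c_pm_001 : CertF 0 536870912 536870912 536870912 134217728 67108864 false true false .up 0 0 1
    ndF4q0 ndF0q1 pcF0 Cut.none Ext.none :=
  certF0 (fam := false) (s1 := true) (s2 := false) (a := 0) (b := 0) (c := 1) (cn := .up) (n1 := ndF4q0) (n2 := ndF0q1) (pc := pcF0) (cut := Cut.none) (xt := Ext.none) (P1 := 0) (W1 := 536870912) (P2 := 536870912) (W2 := 536870912) (P3 := 134217728) (W3 := 67108864)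
    rfl k0_pm_001

noncomputable def f_pm_011 : ℕ → ℕ → ℕ → ℕ → Bool := onCell 0 536870912 536870912 536870912 134217728 67108864
    (rowF 0 false true false .pnn 0 1 1 (qsf 0 536870912 536870912 536870912 1) ndF4q0 ndF0q1 pcF1 Cut.none Ext.none)

def k0_pm_011 : ∃ t, chk3 f_pm_011 t 1 1 1 = true :=
  ⟨(l 4), by decide +kernel⟩

theorem c_pm_011 : CertF 0 536870912 536870912 536870912 134217728 67108864 false true false .pnn 0 1 1
    ndF4q0 ndF0q1 pcF1 Cut.none Ext.none :=
  certF0 (fam := false) (s1 := true) (s2 := false) (a := 0) (b := 1) (c := 1) (cn := .pnn) (n1 := ndF4q0) (n2 := ndF0q1) (pc := pcF1) (cut := Cut.none) (xt := Ext.none) (P1 := 0) (W1 := 536870912) (P2 := 536870912) (W2 := 536870912) (P3 := 134217728) (W3 := 67108864)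
    rfl k0_pm_011

noncomputable def f_pm_012 : ℕ → ℕ → ℕ → ℕ → Bool := onCell 536870912 536870912 0 536870912 134217728 67108864
    (rowF 2 false true false .pnp 0 1 2 (qsf 0 536870912 0 536870912 1) ndF4q0 ndF0q2 pcF1 Cut.none Ext.none)

def k0_pm_012 : ∃ t, chk3 f_pm_012 t 1 1 1 = true :=
  ⟨(b (a (l 17859592) (a (l 18129448) (l 18119656))) (l 4)), by decide +kernel⟩

theorem c_pm_012 : CertF 0 536870912 0 536870912 134217728 67108864 false true false .pnp 0 1 2
    ndF4q0 ndF0q2 pcF1 Cut.none Ext.none :=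
  certF2 (fam := false) (s1 := true) (s2 := false) (a := 0) (b := 1) (c := 2) (cn := .pnp) (n1 := ndF4q0) (n2 := ndF0q2) (pc := pcF1) (cut := Cut.none) (xt := Ext.none) (P1 := 0) (W1 := 536870912) (P2 := 0) (W2 := 536870912) (P3 := 134217728) (W3 := 67108864)
    rfl (fun _ => rfl) k0_pm_012

noncomputable def f_pm_022 : ℕ → ℕ → ℕ → ℕ → Bool := onCell 0 536870912 0 536870912 134217728 67108864
    (rowF 0 false true false .pp 0 2 2 (qsf 0 536870912 0 536870912 2) ndF4q0 ndF0q2 pcF2 Cut.none Ext.none)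

def k0_pm_022 : ∃ t, chk3 f_pm_022 t 1 1 1 = true :=
  ⟨(a (b (a (l 4) (b (l 18457224) (l 4))) (l 4)) (l 1)), by decide +kernel⟩

theorem c_pm_022 : CertF 0 536870912 0 536870912 134217728 67108864 false true false .pp 0 2 2
    ndF4q0 ndF0q2 pcF2 Cut.none Ext.none :=
  certF0 (fam := false) (s1 := true) (s2 := false) (a := 0) (b := 2) (c := 2) (cn := .pp) (n1 := ndF4q0) (n2 := ndF0q2) (pc := pcF2) (cut := Cut.none) (xt := Ext.none) (P1 := 0) (W1 := 536870912) (P2 := 0) (W2 := 536870912) (P3 := 134217728) (W3 := 67108864)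
    rfl k0_pm_022

noncomputable def f_pm_101 : ℕ → ℕ → ℕ → ℕ → Bool := onCell 536870912 536870912 536870912 536870912 134217728 67108864
    (rowF 0 false true false .npn 1 0 1 (qsf 536870912 536870912 536870912 536870912 0) ndF4q1 ndF0q1 pcF0 Cut.none Ext.none)

def k0_pm_101 : ∃ t, chk3 f_pm_101 t 1 1 1 = true :=
  ⟨(l 4), by decide +kernel⟩

theorem c_pm_101 : CertF 536870912 536870912 536870912 536870912 134217728 67108864 false true false .npn 1 0 1
    ndF4q1 ndF0q1 pcF0 Cut.none Ext.none :=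
  certF0 (fam := false) (s1 := true) (s2 := false) (a := 1) (b := 0) (c := 1) (cn := .npn) (n1 := ndF4q1) (n2 := ndF0q1) (pc := pcF0) (cut := Cut.none) (xt := Ext.none) (P1 := 536870912) (W1 := 536870912) (P2 := 536870912) (W2 := 536870912) (P3 := 134217728) (W3 := 67108864)
    rfl k0_pm_101

noncomputable def f_pm_102 : ℕ → ℕ → ℕ → ℕ → Bool := onCell 536870912 536870912 0 536870912 134217728 67108864
    (rowF 0 false true false .npp 1 0 2 (qsf 536870912 536870912 0 536870912 0) ndF4q1 ndF0q2 pcF0 Cut.none Ext.none)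

def k0_pm_102 : ∃ t, chk3 f_pm_102 t 1 1 1 = true :=
  ⟨(a (b (a (b (l 2) (l 4)) (b (b (l 18079624) (l 18701872)) (a (l 18410024) (l 18530688)))) (l 4)) (b (a (b (b (l 18261216) (l 18647440)) (l 18701128)) (b (l 18555352) (l 18936432))) (l 4))), by decide +kernel⟩

theorem c_pm_102 : CertF 536870912 536870912 0 536870912 134217728 67108864 false true false .npp 1 0 2
    ndF4q1 ndF0q2 pcF0 Cut.none Ext.none :=
  certF0 (fam := false) (s1 := true) (s2 := false) (a := 1) (b := 0) (c := 2) (cn := .npp) (n1 := ndF4q1) (n2 := ndF0q2) (pc := pcF0) (cut := Cut.none) (xt := Ext.none) (P1 := 536870912) (W1 := 536870912) (P2 := 0) (W2 := 536870912) (P3 := 134217728) (W3 := 67108864)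
    rfl k0_pm_102

noncomputable def f_pm_112 : ℕ → ℕ → ℕ → ℕ → Bool := onCell 536870912 536870912 0 536870912 134217728 67108864
    (rowF 0 false true false .dn 1 1 2 (qsf 536870912 536870912 0 536870912 1) ndF4q1 ndF0q2 pcF1 Cut.none Ext.none)

def k0_pm_112 : ∃ t, chk3 f_pm_112 t 1 1 1 = true :=
  ⟨(a (b (l 18862696) (l 4)) (l 1)), by decide +kernel⟩

theorem c_pm_112 : CertF 536870912 536870912 0 536870912 134217728 67108864 false true false .dn 1 1 2
    ndF4q1 ndF0q2 pcF1 Cut.none Ext.none :=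
  certF0 (fam := false) (s1 := true) (s2 := false) (a := 1) (b := 1) (c := 2) (cn := .dn) (n1 := ndF4q1) (n2 := ndF0q2) (pc := pcF1) (cut := Cut.none) (xt := Ext.none) (P1 := 536870912) (W1 := 536870912) (P2 := 0) (W2 := 536870912) (P3 := 134217728) (W3 := 67108864)
    rfl k0_pm_112

noncomputable def f_pm_202 : ℕ → ℕ → ℕ → ℕ → Bool := onCell 0 536870912 0 536870912 134217728 67108864
    (rowF 2 false true false .pp 2 0 2 (qsf 1073741824 536870912 0 536870912 0) ndF4q2 ndF0q2 pcF0 Cut.none Ext.none)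

def k0_pm_202 : ∃ t, chk3 f_pm_202 t 1 1 1 = true :=
  ⟨(a (b (b (a (a (b (a (l 16765552) (l 16696992)) (a (l 17054968) (l 16926736))) (b (a (l 16687448) (l 16589464)) (l 16767520))) (a (b (l 16560440) (l 16655552)) (l 1))) (a (b (a (l 17255536) (l 17150200)) (l 17515712)) (a (b (l 17018808) (l 17394944)) (l 1)))) (a (b (b (l 17797912) (l 18101912)) (b (l 18375912) (l 18738544))) (b (l 1) (l 1)))) (l 1)), by decide +kernel⟩

theorem c_pm_202 : CertF 1073741824 536870912 0 536870912 134217728 67108864 false true false .pp 2 0 2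
    ndF4q2 ndF0q2 pcF0 Cut.none Ext.none :=
  certF2 (fam := false) (s1 := true) (s2 := false) (a := 2) (b := 0) (c := 2) (cn := .pp) (n1 := ndF4q2) (n2 := ndF0q2) (pc := pcF0) (cut := Cut.none) (xt := Ext.none) (P1 := 1073741824) (W1 := 536870912) (P2 := 0) (W2 := 536870912) (P3 := 134217728) (W3 := 67108864)
    rfl (fun _ => rfl) k0_pm_202

noncomputable def f_mm_001 : ℕ → ℕ → ℕ → ℕ → Bool := onCell 0 536870912 536870912 536870912 134217728 67108864
    (rowF 0 false false false .up 0 0 1 (qsf 0 536870912 536870912 536870912 0) ndF4q0 ndF0q1 pcF0 Cut.none Ext.none)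

def k0_mm_001 : ∃ t, chk3 f_mm_001 t 1 1 1 = true :=
  ⟨(l 5), by decide +kernel⟩

theorem c_mm_001 : CertF 0 536870912 536870912 536870912 134217728 67108864 false false false .up 0 0 1
    ndF4q0 ndF0q1 pcF0 Cut.none Ext.none :=
  certF0 (fam := false) (s1 := false) (s2 := false) (a := 0) (b := 0) (c := 1) (cn := .up) (n1 := ndF4q0) (n2 := ndF0q1) (pc := pcF0) (cut := Cut.none) (xt := Ext.none) (P1 := 0) (W1 := 536870912) (P2 := 536870912) (W2 := 536870912) (P3 := 134217728) (W3 := 67108864)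
    rfl k0_mm_001

noncomputable def f_mm_011 : ℕ → ℕ → ℕ → ℕ → Bool := onCell 0 536870912 536870912 536870912 134217728 67108864
    (rowF 0 false false false .pnn 0 1 1 (qsf 0 536870912 536870912 536870912 1) ndF4q0 ndF0q1 pcF1 Cut.none Ext.none)

def k0_mm_011 : ∃ t, chk3 f_mm_011 t 1 1 1 = true :=
  ⟨(l 5), by decide +kernel⟩

theorem c_mm_011 : CertF 0 536870912 536870912 536870912 134217728 67108864 false false false .pnn 0 1 1
    ndF4q0 ndF0q1 pcF1 Cut.none Ext.none :=
  certF0 (fam := false) (s1 := false) (s2 := false) (a := 0) (b := 1) (c := 1) (cn := .pnn) (n1 := ndF4q0) (n2 := ndF0q1) (pc := pcF1) (cut := Cut.none) (xt := Ext.none) (P1 := 0) (W1 := 536870912) (P2 := 536870912) (W2 := 536870912) (P3 := 134217728) (W3 := 67108864)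
    rfl k0_mm_011

noncomputable def f_mm_012 : ℕ → ℕ → ℕ → ℕ → Bool := onCell 0 536870912 0 536870912 134217728 67108864
    (rowF 0 false false false .pnp 0 1 2 (qsf 0 536870912 0 536870912 1) ndF4q0 ndF0q2 pcF1 Cut.none Ext.none)

def k0_mm_012 : ∃ t, chk3 f_mm_012 t 1 1 1 = true :=
  ⟨(l 5), by decide +kernel⟩

theorem c_mm_012 : CertF 0 536870912 0 536870912 134217728 67108864 false false false .pnp 0 1 2
    ndF4q0 ndF0q2 pcF1 Cut.none Ext.none :=
  certF0 (fam := false) (s1 := false) (s2 := false) (a := 0) (b := 1) (c := 2) (cn := .pnp) (n1 := ndF4q0) (n2 := ndF0q2) (pc := pcF1) (cut := Cut.none) (xt := Ext.none) (P1 := 0) (W1 := 536870912) (P2 := 0) (W2 := 536870912) (P3 := 134217728) (W3 := 67108864)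
    rfl k0_mm_012

noncomputable def f_mm_022 : ℕ → ℕ → ℕ → ℕ → Bool := onCell 0 536870912 0 536870912 134217728 67108864
    (rowF 0 false false false .pp 0 2 2 (qsf 0 536870912 0 536870912 2) ndF4q0 ndF0q2 pcF2 Cut.none Ext.none)

def k0_mm_022 : ∃ t, chk3 f_mm_022 t 1 1 1 = true :=
  ⟨(l 5), by decide +kernel⟩

theorem c_mm_022 : CertF 0 536870912 0 536870912 134217728 67108864 false false false .pp 0 2 2
    ndF4q0 ndF0q2 pcF2 Cut.none Ext.none :=
  certF0 (fam := false) (s1 := false) (s2 := false) (a := 0) (b := 2) (c := 2) (cn := .pp) (n1 := ndF4q0) (n2 := ndF0q2) (pc := pcF2) (cut := Cut.none) (xt := Ext.none) (P1 := 0) (W1 := 536870912) (P2 := 0) (W2 := 536870912) (P3 := 134217728) (W3 := 67108864)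
    rfl k0_mm_022

noncomputable def f_mm_101 : ℕ → ℕ → ℕ → ℕ → Bool := onCell 0 536870912 536870912 536870912 134217728 67108864
    (rowF 2 false false false .npn 1 0 1 (qsf 536870912 536870912 536870912 536870912 0) ndF4q1 ndF0q1 pcF0 Cut.none Ext.none)

def k0_mm_101 : ∃ t, chk3 f_mm_101 t 1 1 1 = true :=
  ⟨(l 5), by decide +kernel⟩

theorem c_mm_101 : CertF 536870912 536870912 536870912 536870912 134217728 67108864 false false false .npn 1 0 1
    ndF4q1 ndF0q1 pcF0 Cut.none Ext.none :=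
  certF2 (fam := false) (s1 := false) (s2 := false) (a := 1) (b := 0) (c := 1) (cn := .npn) (n1 := ndF4q1) (n2 := ndF0q1) (pc := pcF0) (cut := Cut.none) (xt := Ext.none) (P1 := 536870912) (W1 := 536870912) (P2 := 536870912) (W2 := 536870912) (P3 := 134217728) (W3 := 67108864)
    rfl (fun _ => rfl) k0_mm_101

noncomputable def f_mm_102 : ℕ → ℕ → ℕ → ℕ → Bool := onCell 536870912 536870912 0 536870912 134217728 67108864
    (rowF 0 false false false .npp 1 0 2 (qsf 536870912 536870912 0 536870912 0) ndF4q1 ndF0q2 pcF0 Cut.none Ext.none)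

def k0_mm_102 : ∃ t, chk3 f_mm_102 t 1 1 1 = true :=
  ⟨(l 5), by decide +kernel⟩

theorem c_mm_102 : CertF 536870912 536870912 0 536870912 134217728 67108864 false false false .npp 1 0 2
    ndF4q1 ndF0q2 pcF0 Cut.none Ext.none :=
  certF0 (fam := false) (s1 := false) (s2 := false) (a := 1) (b := 0) (c := 2) (cn := .npp) (n1 := ndF4q1) (n2 := ndF0q2) (pc := pcF0) (cut := Cut.none) (xt := Ext.none) (P1 := 536870912) (W1 := 536870912) (P2 := 0) (W2 := 536870912) (P3 := 134217728) (W3 := 67108864)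
    rfl k0_mm_102

noncomputable def f_mm_112 : ℕ → ℕ → ℕ → ℕ → Bool := onCell 536870912 536870912 0 536870912 134217728 67108864
    (rowF 0 false false false .dn 1 1 2 (qsf 536870912 536870912 0 536870912 1) ndF4q1 ndF0q2 pcF1 Cut.none Ext.none)

def k0_mm_112 : ∃ t, chk3 f_mm_112 t 1 1 1 = true :=
  ⟨(l 5), by decide +kernel⟩

theorem c_mm_112 : CertF 536870912 536870912 0 536870912 134217728 67108864 false false false .dn 1 1 2
    ndF4q1 ndF0q2 pcF1 Cut.none Ext.none :=
  certF0 (fam := false) (s1 := false) (s2 := false) (a := 1) (b := 1) (c := 2) (cn := .dn) (n1 := ndF4q1) (n2 := ndF0q2) (pc := pcF1) (cut := Cut.none) (xt := Ext.none) (P1 := 536870912) (W1 := 536870912) (P2 := 0) (W2 := 536870912) (P3 := 134217728) (W3 := 67108864)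
    rfl k0_mm_112

noncomputable def f_mm_202 : ℕ → ℕ → ℕ → ℕ → Bool := onCell 1073741824 536870912 0 536870912 134217728 67108864
    (rowF 0 false false false .pp 2 0 2 (qsf 1073741824 536870912 0 536870912 0) ndF4q2 ndF0q2 pcF0 Cut.none Ext.none)

def k0_mm_202 : ∃ t, chk3 f_mm_202 t 1 1 1 = true :=
  ⟨(l 5), by decide +kernel⟩

theorem c_mm_202 : CertF 1073741824 536870912 0 536870912 134217728 67108864 false false false .pp 2 0 2
    ndF4q2 ndF0q2 pcF0 Cut.none Ext.none :=
  certF0 (fam := false) (s1 := false) (s2 := false) (a := 2) (b := 0) (c := 2) (cn := .pp) (n1 := ndF4q2) (n2 := ndF0q2) (pc := pcF0) (cut := Cut.none) (xt := Ext.none) (P1 := 1073741824) (W1 := 536870912) (P2 := 0) (W2 := 536870912) (P3 := 134217728) (W3 := 67108864)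
    rfl k0_mm_202

end Pool.Agent.Strip051.G.I1_8_3_16.Tab.C.FB40

namespace Pool.Agent.Strip051.G.I1_8_3_16.Tab.C.FB41

open Pool.Agent.Strip051.PB Pool.Agent.Strip051.PB.T
open Pool.Agent.Strip051.G.I1_8_3_16.Tab

noncomputable def f_pp_001 : ℕ → ℕ → ℕ → ℕ → Bool := onCell 0 536870912 0 536870912 134217728 67108864
    (rowF 1 false true true .up 0 0 1 (qsf 0 536870912 536870912 536870912 0) ndF4q0 ndF1q1 pcF0 Cut.none Ext.none)

def k0_pp_001 : ∃ t, chk3 f_pp_001 t 1 1 1 = true :=
  ⟨(l 3), by decide +kernel⟩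

theorem c_pp_001 : CertF 0 536870912 536870912 536870912 134217728 67108864 false true true .up 0 0 1
    ndF4q0 ndF1q1 pcF0 Cut.none Ext.none :=
  certF1 (fam := false) (s1 := true) (s2 := true) (a := 0) (b := 0) (c := 1) (cn := .up) (n1 := ndF4q0) (n2 := ndF1q1) (pc := pcF0) (cut := Cut.none) (xt := Ext.none) (P1 := 0) (W1 := 536870912) (P2 := 536870912) (W2 := 536870912) (P3 := 134217728) (W3 := 67108864)
    rfl (fun _ => rfl) k0_pp_001

noncomputable def f_pp_011 : ℕ → ℕ → ℕ → ℕ → Bool := onCell 0 536870912 536870912 536870912 134217728 67108864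
    (rowF 0 false true true .pnn 0 1 1 (qsf 0 536870912 536870912 536870912 1) ndF4q0 ndF1q1 pcF1 Cut.none Ext.none)

def k0_pp_011 : ∃ t, chk3 f_pp_011 t 1 1 1 = true :=
  ⟨(a (b (l 3) (l 3)) (l 3)), by decide +kernel⟩

theorem c_pp_011 : CertF 0 536870912 536870912 536870912 134217728 67108864 false true true .pnn 0 1 1
    ndF4q0 ndF1q1 pcF1 Cut.none Ext.none :=
  certF0 (fam := false) (s1 := true) (s2 := true) (a := 0) (b := 1) (c := 1) (cn := .pnn) (n1 := ndF4q0) (n2 := ndF1q1) (pc := pcF1) (cut := Cut.none) (xt := Ext.none) (P1 := 0) (W1 := 536870912) (P2 := 536870912) (W2 := 536870912) (P3 := 134217728) (W3 := 67108864)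
    rfl k0_pp_011

noncomputable def f_pp_012_a : ℕ → ℕ → ℕ → ℕ → Bool := onCell 536870912 536870912 0 536870912 134217728 67108864
    (rowF 2 false true true .pnp 0 1 2 (qsf 0 536870912 0 536870912 1) ndF4q0 ndF1q2a pcF1 Cut.none Ext.none)

def k0_pp_012_a : ∃ t, chk3 f_pp_012_a t 1 1 1 = true :=
  ⟨(a (b (l 17254264) (a (b (l 17311048) (l 17432008)) (b (l 17396008) (l 17515392)))) (b (l 18055744) (a (b (l 17528568) (l 17622624)) (b (l 17733344) (l 17746848))))), by decide +kernel⟩

theorem c_pp_012_a : CertF 0 536870912 0 536870912 134217728 67108864 false true true .pnp 0 1 2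
    ndF4q0 ndF1q2a pcF1 Cut.none Ext.none :=
  certF2 (fam := false) (s1 := true) (s2 := true) (a := 0) (b := 1) (c := 2) (cn := .pnp) (n1 := ndF4q0) (n2 := ndF1q2a) (pc := pcF1) (cut := Cut.none) (xt := Ext.none) (P1 := 0) (W1 := 536870912) (P2 := 0) (W2 := 536870912) (P3 := 134217728) (W3 := 67108864)
    rfl (fun _ => rfl) k0_pp_012_a

noncomputable def f_pp_012_b : ℕ → ℕ → ℕ → ℕ → Bool := onCell 536870912 536870912 1239849684 370763052 134217728 67108864
    (rowF 2 false true true .pnp 0 1 2 (qsf 0 536870912 1239849684 370763052 1) ndF4q0 ndF1q2b pcF1 Cut.none Ext.none)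

def k0_pp_012_b : ∃ t, chk3 f_pp_012_b t 1 1 1 = true :=
  ⟨(a (b (l 17229136) (l 2)) (b (l 18109152) (l 18028624))), by decide +kernel⟩

theorem c_pp_012_b : CertF 0 536870912 1239849684 370763052 134217728 67108864 false true true .pnp 0 1 2
    ndF4q0 ndF1q2b pcF1 Cut.none Ext.none :=
  certF2 (fam := false) (s1 := true) (s2 := true) (a := 0) (b := 1) (c := 2) (cn := .pnp) (n1 := ndF4q0) (n2 := ndF1q2b) (pc := pcF1) (cut := Cut.none) (xt := Ext.none) (P1 := 0) (W1 := 536870912) (P2 := 1239849684) (W2 := 370763052) (P3 := 134217728) (W3 := 67108864)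
    rfl (fun _ => rfl) k0_pp_012_b

noncomputable def f_pp_022_a : ℕ → ℕ → ℕ → ℕ → Bool := onCell 1073741824 536870912 0 536870912 134217728 67108864
    (rowF 2 false true true .pp 0 2 2 (qsf 0 536870912 0 536870912 2) ndF4q0 ndF1q2a pcF2 Cut.none Ext.none)

def k0_pp_022_a : ∃ t, chk3 f_pp_022_a t 1 1 1 = true :=
  ⟨(a (a (b (l 18169224) (b (a (l 18192840) (a (l 95599805079) (l 18006672))) (a (l 18139400) (a (a (l 18052744) (l 1)) (l 1))))) (b (a (l 17996504) (l 1)) (b (l 1) (l 1)))) (l 1)), by decide +kernel⟩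

theorem c_pp_022_a : CertF 0 536870912 0 536870912 134217728 67108864 false true true .pp 0 2 2
    ndF4q0 ndF1q2a pcF2 Cut.none Ext.none :=
  certF2 (fam := false) (s1 := true) (s2 := true) (a := 0) (b := 2) (c := 2) (cn := .pp) (n1 := ndF4q0) (n2 := ndF1q2a) (pc := pcF2) (cut := Cut.none) (xt := Ext.none) (P1 := 0) (W1 := 536870912) (P2 := 0) (W2 := 536870912) (P3 := 134217728) (W3 := 67108864)
    rfl (fun _ => rfl) k0_pp_022_a

noncomputable def f_pp_022_b : ℕ → ℕ → ℕ → ℕ → Bool := onCell 0 536870912 1073741824 536870912 134217728 67108864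
    (rowF 1 false true true .pp 0 2 2 (qsf 0 536870912 1239849684 370763052 2) ndF4q0 ndF1q2b pcF2 Cut.none Ext.none)

def k0_pp_022_b : ∃ t, chk3 f_pp_022_b t 1 1 1 = true :=
  ⟨(a (b (b (l 413964404583) (l 18192400)) (b (l 18111120) (l 17851504))) (b (b (l 18624480) (l 18468160)) (b (l 18178352) (l 2)))), by decide +kernel⟩

theorem c_pp_022_b : CertF 0 536870912 1239849684 370763052 134217728 67108864 false true true .pp 0 2 2
    ndF4q0 ndF1q2b pcF2 Cut.none Ext.none :=
  certF1 (fam := false) (s1 := true) (s2 := true) (a := 0) (b := 2) (c := 2) (cn := .pp) (n1 := ndF4q0) (n2 := ndF1q2b) (pc := pcF2) (cut := Cut.none) (xt := Ext.none) (P1 := 0) (W1 := 536870912) (P2 := 1239849684) (W2 := 370763052) (P3 := 134217728) (W3 := 67108864)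
    rfl (fun _ => rfl) k0_pp_022_b

noncomputable def f_pp_023 : ℕ → ℕ → ℕ → ℕ → Bool := onCell 0 536870912 1073741824 536870912 134217728 67108864
    (rowF 1 false true true .up 0 2 3 (qsf 0 536870912 1610612736 536870912 2) ndF4q0 ndF1q3 pcF2 Cut.none Ext.none)

def k0_pp_023 : ∃ t, chk3 f_pp_023 t 1 1 1 = true :=
  ⟨(b (a (l 460671620263) (l 437587444279)) (b (l 499326518631) (l 17797680))), by decide +kernel⟩

theorem c_pp_023 : CertF 0 536870912 1610612736 536870912 134217728 67108864 false true true .up 0 2 3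
    ndF4q0 ndF1q3 pcF2 Cut.none Ext.none :=
  certF1 (fam := false) (s1 := true) (s2 := true) (a := 0) (b := 2) (c := 3) (cn := .up) (n1 := ndF4q0) (n2 := ndF1q3) (pc := pcF2) (cut := Cut.none) (xt := Ext.none) (P1 := 0) (W1 := 536870912) (P2 := 1610612736) (W2 := 536870912) (P3 := 134217728) (W3 := 67108864)
    rfl (fun _ => rfl) k0_pp_023

noncomputable def f_pp_033 : ℕ → ℕ → ℕ → ℕ → Bool := onCell 0 536870912 1610612736 536870912 134217728 67108864
    (rowF 0 false true true .pnn 0 3 3 (qsf 0 536870912 1610612736 536870912 3) ndF4q0 ndF1q3 pcF3 Cut.none Ext.none)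

def k0_pp_033 : ∃ t, chk3 f_pp_033 t 1 1 1 = true :=
  ⟨(b (a (a (l 4) (b (b (l 1) (l 4)) (l 4))) (a (b (l 1) (l 4)) (l 1))) (l 4)), by decide +kernel⟩

theorem c_pp_033 : CertF 0 536870912 1610612736 536870912 134217728 67108864 false true true .pnn 0 3 3
    ndF4q0 ndF1q3 pcF3 Cut.none Ext.none :=
  certF0 (fam := false) (s1 := true) (s2 := true) (a := 0) (b := 3) (c := 3) (cn := .pnn) (n1 := ndF4q0) (n2 := ndF1q3) (pc := pcF3) (cut := Cut.none) (xt := Ext.none) (P1 := 0) (W1 := 536870912) (P2 := 1610612736) (W2 := 536870912) (P3 := 134217728) (W3 := 67108864)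
    rfl k0_pp_033

noncomputable def f_pp_101 : ℕ → ℕ → ℕ → ℕ → Bool := onCell 536870912 536870912 536870912 536870912 134217728 67108864
    (rowF 0 false true true .npn 1 0 1 (qsf 536870912 536870912 536870912 536870912 0) ndF4q1 ndF1q1 pcF0 Cut.none Ext.none)

def k0_pp_101 : ∃ t, chk3 f_pp_101 t 1 1 1 = true :=
  ⟨(l 3), by decide +kernel⟩

theorem c_pp_101 : CertF 536870912 536870912 536870912 536870912 134217728 67108864 false true true .npn 1 0 1
    ndF4q1 ndF1q1 pcF0 Cut.none Ext.none :=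
  certF0 (fam := false) (s1 := true) (s2 := true) (a := 1) (b := 0) (c := 1) (cn := .npn) (n1 := ndF4q1) (n2 := ndF1q1) (pc := pcF0) (cut := Cut.none) (xt := Ext.none) (P1 := 536870912) (W1 := 536870912) (P2 := 536870912) (W2 := 536870912) (P3 := 134217728) (W3 := 67108864)
    rfl k0_pp_101

noncomputable def cut_pp_102_a : Cut := Cut.of [[⟨0, 1, 0, 67108864⟩, ⟨1, 0, 0, 67108864⟩, ⟨2, 1, 0, 67108864⟩]]

noncomputable def f_pp_102_a : ℕ → ℕ → ℕ → ℕ → Bool := onCell 536870912 536870912 0 536870912 134217728 67108864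
    (rowF 0 false true true .npp 1 0 2 (qsf 536870912 536870912 0 536870912 0) ndF4q1 ndF1q2a pcF0 cut_pp_102_a Ext.none)

def k0_pp_102_a : ∃ t, chk3 f_pp_102_a t 1 1 1 = true :=
  ⟨(a (b (a (l 17801304) (l 17929552)) (a (b (l 17841656) (b (l 17806032) (l 17743360))) (b (b (l 17909032) (l 17849992)) (b (l 17750864) (a (l 17650856) (l 17527112)))))) (b (a (b (a (l 17998448) (l 17983056)) (l 17946800)) (b (a (l 17815840) (l 17264336)) (a (l 17616856) (a (l 17033312) (l 16679472))))) (a (b (a (l 17808792) (b (l 17722864) (l 17517512))) (b (a (l 17559464) (l 17218312)) (b (a (l 17372184) (l 16929952)) (a (l 17223512) (b (l 16770856) (l 16666760)))))) (b (a (a (l 17283760) (l 16655008)) (b (a (l 16506432) (l 16516840)) (a (l 16563360) (a (l 16573200) (l 16579800))))) (a (b (a (l 16643584) (l 16663896)) (b (a (l 16612984) (l 16640424)) (a (l 16697592) (b (l 16662760) (l 16722736))))) (b (a (b (l 16610176) (l 16659992)) (b (a (l 16622856) (l 16630592)) (a (l 16657416) (l 16709280))))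 (b (a (a (l 16641216) (l 16667744)) (a (b (l 16683072) (l 6)) (l 6))) (a (a (b (l 16686600) (l 16736168)) (b (l 16702688) (l 6))) (l 6))))))))), by decide +kernel⟩

theorem c_pp_102_a : CertF 536870912 536870912 0 536870912 134217728 67108864 false true true .npp 1 0 2
    ndF4q1 ndF1q2a pcF0 cut_pp_102_a Ext.none :=
  certF0 (fam := false) (s1 := true) (s2 := true) (a := 1) (b := 0) (c := 2) (cn := .npp) (n1 := ndF4q1) (n2 := ndF1q2a) (pc := pcF0) (cut := cut_pp_102_a) (xt := Ext.none) (P1 := 536870912) (W1 := 536870912) (P2 := 0) (W2 := 536870912) (P3 := 134217728) (W3 := 67108864)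
    rfl k0_pp_102_a

noncomputable def cut_pp_102_b : Cut := Cut.of [[⟨0, 1, 0, 67108864⟩, ⟨1, 0, 0, 67108864⟩, ⟨2, 1, 0, 67108864⟩]]

noncomputable def f_pp_102_b : ℕ → ℕ → ℕ → ℕ → Bool := onCell 536870912 536870912 1239849684 370763052 134217728 67108864
    (rowF 0 false true true .npp 1 0 2 (qsf 536870912 536870912 1239849684 370763052 0) ndF4q1 ndF1q2b pcF0 cut_pp_102_b Ext.none)

def k0_pp_102_b : ∃ t, chk3 f_pp_102_b t 1 1 1 = true :=
  ⟨(a (b (a (l 2) (l 18121744)) (l 2)) (b (a (b (l 18208152) (l 18491672)) (b (a (l 18224144) (b (l 17753712) (l 18257120))) (a (l 18696440) (l 18760320)))) (a (l 18669136) (l 19089648)))), by decide +kernel⟩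

theorem c_pp_102_b : CertF 536870912 536870912 1239849684 370763052 134217728 67108864 false true true .npp 1 0 2
    ndF4q1 ndF1q2b pcF0 cut_pp_102_b Ext.none :=
  certF0 (fam := false) (s1 := true) (s2 := true) (a := 1) (b := 0) (c := 2) (cn := .npp) (n1 := ndF4q1) (n2 := ndF1q2b) (pc := pcF0) (cut := cut_pp_102_b) (xt := Ext.none) (P1 := 536870912) (W1 := 536870912) (P2 := 1239849684) (W2 := 370763052) (P3 := 134217728) (W3 := 67108864)
    rfl k0_pp_102_b

noncomputable def f_pp_112_a : ℕ → ℕ → ℕ → ℕ → Bool := onCell 536870912 536870912 0 536870912 134217728 67108864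
    (rowF 2 false true true .dn 1 1 2 (qsf 536870912 536870912 0 536870912 1) ndF4q1 ndF1q2a pcF1 Cut.none Ext.none)

def k0_pp_112_a : ∃ t, chk3 f_pp_112_a t 1 1 1 = true :=
  ⟨(a (b (l 18339344) (a (b (l 18276248) (l 18176144)) (l 474094015895))) (l 1)), by decide +kernel⟩

theorem c_pp_112_a : CertF 536870912 536870912 0 536870912 134217728 67108864 false true true .dn 1 1 2
    ndF4q1 ndF1q2a pcF1 Cut.none Ext.none :=
  certF2 (fam := false) (s1 := true) (s2 := true) (a := 1) (b := 1) (c := 2) (cn := .dn) (n1 := ndF4q1) (n2 := ndF1q2a) (pc := pcF1) (cut := Cut.none) (xt := Ext.none) (P1 := 536870912) (W1 := 536870912) (P2 := 0) (W2 := 536870912) (P3 := 134217728) (W3 := 67108864)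
    rfl (fun _ => rfl) k0_pp_112_a

noncomputable def f_pp_112_b : ℕ → ℕ → ℕ → ℕ → Bool := onCell 536870912 536870912 1239849684 370763052 134217728 67108864
    (rowF 2 false true true .dn 1 1 2 (qsf 536870912 536870912 1239849684 370763052 1) ndF4q1 ndF1q2b pcF1 Cut.none Ext.none)

def k0_pp_112_b : ∃ t, chk3 f_pp_112_b t 1 1 1 = true :=
  ⟨(a (l 18548432) (l 478389221959)), by decide +kernel⟩

theorem c_pp_112_b : CertF 536870912 536870912 1239849684 370763052 134217728 67108864 false true true .dn 1 1 2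
    ndF4q1 ndF1q2b pcF1 Cut.none Ext.none :=
  certF2 (fam := false) (s1 := true) (s2 := true) (a := 1) (b := 1) (c := 2) (cn := .dn) (n1 := ndF4q1) (n2 := ndF1q2b) (pc := pcF1) (cut := Cut.none) (xt := Ext.none) (P1 := 536870912) (W1 := 536870912) (P2 := 1239849684) (W2 := 370763052) (P3 := 134217728) (W3 := 67108864)
    rfl (fun _ => rfl) k0_pp_112_b

noncomputable def f_pp_113 : ℕ → ℕ → ℕ → ℕ → Bool := onCell 536870912 536870912 536870912 536870912 134217728 67108864
    (rowF 1 false true true .nn 1 1 3 (qsf 536870912 536870912 1610612736 536870912 1) ndF4q1 ndF1q3 pcF1 Cut.none Ext.none)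

def k0_pp_113 : ∃ t, chk3 f_pp_113 t 1 1 1 = true :=
  ⟨(a (b (l 479999825511) (b (l 18167488) (b (l 18010048) (l 17879656)))) (b (l 18410776) (b (l 17927288) (b (l 17586376) (l 17310440))))), by decide +kernel⟩

theorem c_pp_113 : CertF 536870912 536870912 1610612736 536870912 134217728 67108864 false true true .nn 1 1 3
    ndF4q1 ndF1q3 pcF1 Cut.none Ext.none :=
  certF1 (fam := false) (s1 := true) (s2 := true) (a := 1) (b := 1) (c := 3) (cn := .nn) (n1 := ndF4q1) (n2 := ndF1q3) (pc := pcF1) (cut := Cut.none) (xt := Ext.none) (P1 := 536870912) (W1 := 536870912) (P2 := 1610612736) (W2 := 536870912) (P3 := 134217728) (W3 := 67108864)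
    rfl (fun _ => rfl) k0_pp_113

noncomputable def f_pp_123 : ℕ → ℕ → ℕ → ℕ → Bool := onCell 1073741824 536870912 1610612736 536870912 134217728 67108864
    (rowF 2 false true true .npn 1 2 3 (qsf 536870912 536870912 1610612736 536870912 2) ndF4q1 ndF1q3 pcF2 Cut.none Ext.none)

def k0_pp_123 : ∃ t, chk3 f_pp_123 t 1 1 1 = true :=
  ⟨(b (a (a (l 17906128) (l 17848624)) (a (l 17707432) (l 1))) (a (a (l 17164368) (l 17127656)) (l 4))), by decide +kernel⟩

theorem c_pp_123 : CertF 536870912 536870912 1610612736 536870912 134217728 67108864 false true true .npn 1 2 3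
    ndF4q1 ndF1q3 pcF2 Cut.none Ext.none :=
  certF2 (fam := false) (s1 := true) (s2 := true) (a := 1) (b := 2) (c := 3) (cn := .npn) (n1 := ndF4q1) (n2 := ndF1q3) (pc := pcF2) (cut := Cut.none) (xt := Ext.none) (P1 := 536870912) (W1 := 536870912) (P2 := 1610612736) (W2 := 536870912) (P3 := 134217728) (W3 := 67108864)
    rfl (fun _ => rfl) k0_pp_123

noncomputable def f_pp_133 : ℕ → ℕ → ℕ → ℕ → Bool := onCell 1610612736 536870912 1610612736 536870912 134217728 67108864
    (rowF 2 false true true .dn 1 3 3 (qsf 536870912 536870912 1610612736 536870912 3) ndF4q1 ndF1q3 pcF3 Cut.none Ext.none)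

def k0_pp_133 : ∃ t, chk3 f_pp_133 t 1 1 1 = true :=
  ⟨(a (b (l 1) (l 4)) (l 1)), by decide +kernel⟩

theorem c_pp_133 : CertF 536870912 536870912 1610612736 536870912 134217728 67108864 false true true .dn 1 3 3
    ndF4q1 ndF1q3 pcF3 Cut.none Ext.none :=
  certF2 (fam := false) (s1 := true) (s2 := true) (a := 1) (b := 3) (c := 3) (cn := .dn) (n1 := ndF4q1) (n2 := ndF1q3) (pc := pcF3) (cut := Cut.none) (xt := Ext.none) (P1 := 536870912) (W1 := 536870912) (P2 := 1610612736) (W2 := 536870912) (P3 := 134217728) (W3 := 67108864)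
    rfl (fun _ => rfl) k0_pp_133

noncomputable def f_pp_202_a : ℕ → ℕ → ℕ → ℕ → Bool := onCell 1073741824 536870912 0 536870912 134217728 67108864
    (rowF 0 false true true .pp 2 0 2 (qsf 1073741824 536870912 0 536870912 0) ndF4q2 ndF1q2a pcF0 Cut.none Ext.none)

def k0_pp_202_a : ∃ t, chk3 f_pp_202_a t 1 1 1 = true :=
  ⟨(l 3), by decide +kernel⟩

theorem c_pp_202_a : CertF 1073741824 536870912 0 536870912 134217728 67108864 false true true .pp 2 0 2
    ndF4q2 ndF1q2a pcF0 Cut.none Ext.none :=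
  certF0 (fam := false) (s1 := true) (s2 := true) (a := 2) (b := 0) (c := 2) (cn := .pp) (n1 := ndF4q2) (n2 := ndF1q2a) (pc := pcF0) (cut := Cut.none) (xt := Ext.none) (P1 := 1073741824) (W1 := 536870912) (P2 := 0) (W2 := 536870912) (P3 := 134217728) (W3 := 67108864)
    rfl k0_pp_202_a

noncomputable def f_pp_202_b : ℕ → ℕ → ℕ → ℕ → Bool := onCell 1073741824 536870912 0 536870912 134217728 67108864
    (rowF 1 false true true .pp 2 0 2 (qsf 1073741824 536870912 1239849684 370763052 0) ndF4q2 ndF1q2b pcF0 Cut.none Ext.none)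

def k0_pp_202_b : ∃ t, chk3 f_pp_202_b t 1 1 1 = true :=
  ⟨(b (l 3) (b (l 3) (a (a (l 371686032807) (l 3)) (l 2)))), by decide +kernel⟩

theorem c_pp_202_b : CertF 1073741824 536870912 1239849684 370763052 134217728 67108864 false true true .pp 2 0 2
    ndF4q2 ndF1q2b pcF0 Cut.none Ext.none :=
  certF1 (fam := false) (s1 := true) (s2 := true) (a := 2) (b := 0) (c := 2) (cn := .pp) (n1 := ndF4q2) (n2 := ndF1q2b) (pc := pcF0) (cut := Cut.none) (xt := Ext.none) (P1 := 1073741824) (W1 := 536870912) (P2 := 1239849684) (W2 := 370763052) (P3 := 134217728) (W3 := 67108864)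
    rfl (fun _ => rfl) k0_pp_202_b

noncomputable def f_pp_203 : ℕ → ℕ → ℕ → ℕ → Bool := onCell 1073741824 536870912 0 536870912 134217728 67108864
    (rowF 1 false true true .up 2 0 3 (qsf 1073741824 536870912 1610612736 536870912 0) ndF4q2 ndF1q3 pcF0 Cut.none Ext.none)

def k0_pp_203 : ∃ t, chk3 f_pp_203 t 1 1 1 = true :=
  ⟨(b (l 3) (b (l 3) (a (l 349137202535) (l 301355138135)))), by decide +kernel⟩

theorem c_pp_203 : CertF 1073741824 536870912 1610612736 536870912 134217728 67108864 false true true .up 2 0 3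
    ndF4q2 ndF1q3 pcF0 Cut.none Ext.none :=
  certF1 (fam := false) (s1 := true) (s2 := true) (a := 2) (b := 0) (c := 3) (cn := .up) (n1 := ndF4q2) (n2 := ndF1q3) (pc := pcF0) (cut := Cut.none) (xt := Ext.none) (P1 := 1073741824) (W1 := 536870912) (P2 := 1610612736) (W2 := 536870912) (P3 := 134217728) (W3 := 67108864)
    rfl (fun _ => rfl) k0_pp_203

noncomputable def f_pp_213 : ℕ → ℕ → ℕ → ℕ → Bool := onCell 536870912 536870912 1610612736 536870912 134217728 67108864
    (rowF 2 false true true .pnn 2 1 3 (qsf 1073741824 536870912 1610612736 536870912 1) ndF4q2 ndF1q3 pcF1 Cut.none Ext.none)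

def k0_pp_213 : ∃ t, chk3 f_pp_213 t 1 1 1 = true :=
  ⟨(a (a (b (a (l 18088072) (l 18049512)) (a (l 17693744) (l 17604864))) (b (l 18020864) (l 17509912))) (a (b (l 18022344) (l 17485904)) (b (l 1) (l 17439672)))), by decide +kernel⟩

theorem c_pp_213 : CertF 1073741824 536870912 1610612736 536870912 134217728 67108864 false true true .pnn 2 1 3
    ndF4q2 ndF1q3 pcF1 Cut.none Ext.none :=
  certF2 (fam := false) (s1 := true) (s2 := true) (a := 2) (b := 1) (c := 3) (cn := .pnn) (n1 := ndF4q2) (n2 := ndF1q3) (pc := pcF1) (cut := Cut.none) (xt := Ext.none) (P1 := 1073741824) (W1 := 536870912) (P2 := 1610612736) (W2 := 536870912) (P3 := 134217728) (W3 := 67108864)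
    rfl (fun _ => rfl) k0_pp_213

noncomputable def f_pp_303 : ℕ → ℕ → ℕ → ℕ → Bool := onCell 0 1230186008 1610612736 536870912 134217728 67108864
    (rowF 0 false true true .npn 3 0 3 (qsf 0 1230186008 1610612736 536870912 0) ndF4q3 ndF1q3 pcF0 Cut.none Ext.none)

def k0_pp_303 : ∃ t, chk3 f_pp_303 t 1 1 1 = true :=
  ⟨(a (l 3) (a (l 3) (l 3))), by decide +kernel⟩

theorem c_pp_303 : CertF 0 1230186008 1610612736 536870912 134217728 67108864 false true true .npn 3 0 3
    ndF4q3 ndF1q3 pcF0 Cut.none Ext.none :=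
  certF0 (fam := false) (s1 := true) (s2 := true) (a := 3) (b := 0) (c := 3) (cn := .npn) (n1 := ndF4q3) (n2 := ndF1q3) (pc := pcF0) (cut := Cut.none) (xt := Ext.none) (P1 := 0) (W1 := 1230186008) (P2 := 1610612736) (W2 := 536870912) (P3 := 134217728) (W3 := 67108864)
    rfl k0_pp_303

noncomputable def f_pp_313 : ℕ → ℕ → ℕ → ℕ → Bool := onCell 0 1230186008 1610612736 536870912 134217728 67108864
    (rowF 0 false true true .dn 3 1 3 (qsf 0 1230186008 1610612736 536870912 1) ndF4q3 ndF1q3 pcF1 Cut.none Ext.none)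

def k0_pp_313 : ∃ t, chk3 f_pp_313 t 1 1 1 = true :=
  ⟨(a (l 1) (a (l 1) (l 3))), by decide +kernel⟩

theorem c_pp_313 : CertF 0 1230186008 1610612736 536870912 134217728 67108864 false true true .dn 3 1 3
    ndF4q3 ndF1q3 pcF1 Cut.none Ext.none :=
  certF0 (fam := false) (s1 := true) (s2 := true) (a := 3) (b := 1) (c := 3) (cn := .dn) (n1 := ndF4q3) (n2 := ndF1q3) (pc := pcF1) (cut := Cut.none) (xt := Ext.none) (P1 := 0) (W1 := 1230186008) (P2 := 1610612736) (W2 := 536870912) (P3 := 134217728) (W3 := 67108864)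
    rfl k0_pp_313

noncomputable def f_pm_001 : ℕ → ℕ → ℕ → ℕ → Bool := onCell 0 536870912 536870912 536870912 134217728 67108864
    (rowF 0 false true false .up 0 0 1 (qsf 0 536870912 536870912 536870912 0) ndF4q0 ndF1q1 pcF0 Cut.none Ext.none)

def k0_pm_001 : ∃ t, chk3 f_pm_001 t 1 1 1 = true :=
  ⟨(l 4), by decide +kernel⟩

theorem c_pm_001 : CertF 0 536870912 536870912 536870912 134217728 67108864 false true false .up 0 0 1
    ndF4q0 ndF1q1 pcF0 Cut.none Ext.none :=
  certF0 (fam := false) (s1 := true) (s2 := false) (a := 0) (b := 0) (c := 1) (cn := .up) (n1 := ndF4q0) (n2 := ndF1q1) (pc := pcF0) (cut := Cut.none) (xt := Ext.none) (P1 := 0) (W1 := 536870912) (P2 := 536870912) (W2 := 536870912) (P3 := 134217728) (W3 := 67108864)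
    rfl k0_pm_001

noncomputable def f_pm_011 : ℕ → ℕ → ℕ → ℕ → Bool := onCell 0 536870912 536870912 536870912 134217728 67108864
    (rowF 0 false true false .pnn 0 1 1 (qsf 0 536870912 536870912 536870912 1) ndF4q0 ndF1q1 pcF1 Cut.none Ext.none)

def k0_pm_011 : ∃ t, chk3 f_pm_011 t 1 1 1 = true :=
  ⟨(l 4), by decide +kernel⟩

theorem c_pm_011 : CertF 0 536870912 536870912 536870912 134217728 67108864 false true false .pnn 0 1 1
    ndF4q0 ndF1q1 pcF1 Cut.none Ext.none :=
  certF0 (fam := false) (s1 := true) (s2 := false) (a := 0) (b := 1) (c := 1) (cn := .pnn) (n1 := ndF4q0) (n2 := ndF1q1) (pc := pcF1) (cut := Cut.none) (xt := Ext.none) (P1 := 0) (W1 := 536870912) (P2 := 536870912) (W2 := 536870912) (P3 := 134217728) (W3 := 67108864)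
    rfl k0_pm_011

noncomputable def f_pm_012_a : ℕ → ℕ → ℕ → ℕ → Bool := onCell 0 536870912 0 536870912 134217728 67108864
    (rowF 0 false true false .pnp 0 1 2 (qsf 0 536870912 0 536870912 1) ndF4q0 ndF1q2a pcF1 Cut.none Ext.none)

def k0_pm_012_a : ∃ t, chk3 f_pm_012_a t 1 1 1 = true :=
  ⟨(l 4), by decide +kernel⟩

theorem c_pm_012_a : CertF 0 536870912 0 536870912 134217728 67108864 false true false .pnp 0 1 2
    ndF4q0 ndF1q2a pcF1 Cut.none Ext.none :=
  certF0 (fam := false) (s1 := true) (s2 := false) (a := 0) (b := 1) (c := 2) (cn := .pnp) (n1 := ndF4q0) (n2 := ndF1q2a) (pc := pcF1) (cut := Cut.none) (xt := Ext.none) (P1 := 0) (W1 := 536870912) (P2 := 0) (W2 := 536870912) (P3 := 134217728) (W3 := 67108864)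
    rfl k0_pm_012_a

noncomputable def f_pm_012_b : ℕ → ℕ → ℕ → ℕ → Bool := onCell 0 536870912 1239849684 370763052 134217728 67108864
    (rowF 0 false true false .pnp 0 1 2 (qsf 0 536870912 1239849684 370763052 1) ndF4q0 ndF1q2b pcF1 Cut.none Ext.none)

def k0_pm_012_b : ∃ t, chk3 f_pm_012_b t 1 1 1 = true :=
  ⟨(l 4), by decide +kernel⟩

theorem c_pm_012_b : CertF 0 536870912 1239849684 370763052 134217728 67108864 false true false .pnp 0 1 2
    ndF4q0 ndF1q2b pcF1 Cut.none Ext.none :=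
  certF0 (fam := false) (s1 := true) (s2 := false) (a := 0) (b := 1) (c := 2) (cn := .pnp) (n1 := ndF4q0) (n2 := ndF1q2b) (pc := pcF1) (cut := Cut.none) (xt := Ext.none) (P1 := 0) (W1 := 536870912) (P2 := 1239849684) (W2 := 370763052) (P3 := 134217728) (W3 := 67108864)
    rfl k0_pm_012_b

noncomputable def f_pm_022_a : ℕ → ℕ → ℕ → ℕ → Bool := onCell 0 536870912 0 536870912 134217728 67108864
    (rowF 0 false true false .pp 0 2 2 (qsf 0 536870912 0 536870912 2) ndF4q0 ndF1q2a pcF2 Cut.none Ext.none)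

def k0_pm_022_a : ∃ t, chk3 f_pm_022_a t 1 1 1 = true :=
  ⟨(l 4), by decide +kernel⟩

theorem c_pm_022_a : CertF 0 536870912 0 536870912 134217728 67108864 false true false .pp 0 2 2
    ndF4q0 ndF1q2a pcF2 Cut.none Ext.none :=
  certF0 (fam := false) (s1 := true) (s2 := false) (a := 0) (b := 2) (c := 2) (cn := .pp) (n1 := ndF4q0) (n2 := ndF1q2a) (pc := pcF2) (cut := Cut.none) (xt := Ext.none) (P1 := 0) (W1 := 536870912) (P2 := 0) (W2 := 536870912) (P3 := 134217728) (W3 := 67108864)
    rfl k0_pm_022_a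

noncomputable def f_pm_022_b : ℕ → ℕ → ℕ → ℕ → Bool := onCell 0 536870912 1239849684 370763052 134217728 67108864
    (rowF 0 false true false .pp 0 2 2 (qsf 0 536870912 1239849684 370763052 2) ndF4q0 ndF1q2b pcF2 Cut.none Ext.none)

def k0_pm_022_b : ∃ t, chk3 f_pm_022_b t 1 1 1 = true :=
  ⟨(l 4), by decide +kernel⟩

theorem c_pm_022_b : CertF 0 536870912 1239849684 370763052 134217728 67108864 false true false .pp 0 2 2
    ndF4q0 ndF1q2b pcF2 Cut.none Ext.none :=
  certF0 (fam := false) (s1 := true) (s2 := false) (a := 0) (b := 2) (c := 2) (cn := .pp) (n1 := ndF4q0) (n2 := ndF1q2b) (pc := pcF2) (cut := Cut.none) (xt := Ext.none) (P1 := 0) (W1 := 536870912) (P2 := 1239849684) (W2 := 370763052) (P3 := 134217728) (W3 := 67108864)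
    rfl k0_pm_022_b

noncomputable def f_pm_023 : ℕ → ℕ → ℕ → ℕ → Bool := onCell 0 536870912 1610612736 536870912 134217728 67108864
    (rowF 0 false true false .up 0 2 3 (qsf 0 536870912 1610612736 536870912 2) ndF4q0 ndF1q3 pcF2 Cut.none Ext.none)

def k0_pm_023 : ∃ t, chk3 f_pm_023 t 1 1 1 = true :=
  ⟨(l 4), by decide +kernel⟩

theorem c_pm_023 : CertF 0 536870912 1610612736 536870912 134217728 67108864 false true false .up 0 2 3
    ndF4q0 ndF1q3 pcF2 Cut.none Ext.none :=
  certF0 (fam := false) (s1 := true) (s2 := false) (a := 0) (b := 2) (c := 3) (cn := .up) (n1 := ndF4q0) (n2 := ndF1q3) (pc := pcF2) (cut := Cut.none) (xt := Ext.none) (P1 := 0) (W1 := 536870912) (P2 := 1610612736) (W2 := 536870912) (P3 := 134217728) (W3 := 67108864)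
    rfl k0_pm_023

noncomputable def f_pm_033 : ℕ → ℕ → ℕ → ℕ → Bool := onCell 0 536870912 1610612736 536870912 134217728 67108864
    (rowF 0 false true false .pnn 0 3 3 (qsf 0 536870912 1610612736 536870912 3) ndF4q0 ndF1q3 pcF3 Cut.none Ext.none)

def k0_pm_033 : ∃ t, chk3 f_pm_033 t 1 1 1 = true :=
  ⟨(l 4), by decide +kernel⟩

theorem c_pm_033 : CertF 0 536870912 1610612736 536870912 134217728 67108864 false true false .pnn 0 3 3
    ndF4q0 ndF1q3 pcF3 Cut.none Ext.none :=
  certF0 (fam := false) (s1 := true) (s2 := false) (a := 0) (b := 3) (c := 3) (cn := .pnn) (n1 := ndF4q0) (n2 := ndF1q3) (pc := pcF3) (cut := Cut.none) (xt := Ext.none) (P1 := 0) (W1 := 536870912) (P2 := 1610612736) (W2 := 536870912) (P3 := 134217728) (W3 := 67108864)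
    rfl k0_pm_033

noncomputable def f_pm_101 : ℕ → ℕ → ℕ → ℕ → Bool := onCell 536870912 536870912 536870912 536870912 134217728 67108864
    (rowF 0 false true false .npn 1 0 1 (qsf 536870912 536870912 536870912 536870912 0) ndF4q1 ndF1q1 pcF0 Cut.none Ext.none)

def k0_pm_101 : ∃ t, chk3 f_pm_101 t 1 1 1 = true :=
  ⟨(l 4), by decide +kernel⟩

theorem c_pm_101 : CertF 536870912 536870912 536870912 536870912 134217728 67108864 false true false .npn 1 0 1
    ndF4q1 ndF1q1 pcF0 Cut.none Ext.none :=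
  certF0 (fam := false) (s1 := true) (s2 := false) (a := 1) (b := 0) (c := 1) (cn := .npn) (n1 := ndF4q1) (n2 := ndF1q1) (pc := pcF0) (cut := Cut.none) (xt := Ext.none) (P1 := 536870912) (W1 := 536870912) (P2 := 536870912) (W2 := 536870912) (P3 := 134217728) (W3 := 67108864)
    rfl k0_pm_101

noncomputable def f_pm_102_a : ℕ → ℕ → ℕ → ℕ → Bool := onCell 536870912 536870912 0 536870912 134217728 67108864
    (rowF 0 false true false .npp 1 0 2 (qsf 536870912 536870912 0 536870912 0) ndF4q1 ndF1q2a pcF0 Cut.none Ext.none)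

def k0_pm_102_a : ∃ t, chk3 f_pm_102_a t 1 1 1 = true :=
  ⟨(a (l 4) (b (l 4) (l 4))), by decide +kernel⟩

theorem c_pm_102_a : CertF 536870912 536870912 0 536870912 134217728 67108864 false true false .npp 1 0 2
    ndF4q1 ndF1q2a pcF0 Cut.none Ext.none :=
  certF0 (fam := false) (s1 := true) (s2 := false) (a := 1) (b := 0) (c := 2) (cn := .npp) (n1 := ndF4q1) (n2 := ndF1q2a) (pc := pcF0) (cut := Cut.none) (xt := Ext.none) (P1 := 536870912) (W1 := 536870912) (P2 := 0) (W2 := 536870912) (P3 := 134217728) (W3 := 67108864)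
    rfl k0_pm_102_a

noncomputable def f_pm_102_b : ℕ → ℕ → ℕ → ℕ → Bool := onCell 536870912 536870912 1239849684 370763052 134217728 67108864
    (rowF 0 false true false .npp 1 0 2 (qsf 536870912 536870912 1239849684 370763052 0) ndF4q1 ndF1q2b pcF0 Cut.none Ext.none)

def k0_pm_102_b : ∃ t, chk3 f_pm_102_b t 1 1 1 = true :=
  ⟨(a (l 4) (b (l 4) (l 4))), by decide +kernel⟩

theorem c_pm_102_b : CertF 536870912 536870912 1239849684 370763052 134217728 67108864 false true false .npp 1 0 2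
    ndF4q1 ndF1q2b pcF0 Cut.none Ext.none :=
  certF0 (fam := false) (s1 := true) (s2 := false) (a := 1) (b := 0) (c := 2) (cn := .npp) (n1 := ndF4q1) (n2 := ndF1q2b) (pc := pcF0) (cut := Cut.none) (xt := Ext.none) (P1 := 536870912) (W1 := 536870912) (P2 := 1239849684) (W2 := 370763052) (P3 := 134217728) (W3 := 67108864)
    rfl k0_pm_102_b

noncomputable def f_pm_112_a : ℕ → ℕ → ℕ → ℕ → Bool := onCell 536870912 536870912 0 536870912 134217728 67108864
    (rowF 2 false true false .dn 1 1 2 (qsf 536870912 536870912 0 536870912 1) ndF4q1 ndF1q2a pcF1 Cut.none Ext.none)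

def k0_pm_112_a : ∃ t, chk3 f_pm_112_a t 1 1 1 = true :=
  ⟨(l 4), by decide +kernel⟩

theorem c_pm_112_a : CertF 536870912 536870912 0 536870912 134217728 67108864 false true false .dn 1 1 2
    ndF4q1 ndF1q2a pcF1 Cut.none Ext.none :=
  certF2 (fam := false) (s1 := true) (s2 := false) (a := 1) (b := 1) (c := 2) (cn := .dn) (n1 := ndF4q1) (n2 := ndF1q2a) (pc := pcF1) (cut := Cut.none) (xt := Ext.none) (P1 := 536870912) (W1 := 536870912) (P2 := 0) (W2 := 536870912) (P3 := 134217728) (W3 := 67108864)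
    rfl (fun _ => rfl) k0_pm_112_a

noncomputable def f_pm_112_b : ℕ → ℕ → ℕ → ℕ → Bool := onCell 536870912 536870912 1239849684 370763052 134217728 67108864
    (rowF 2 false true false .dn 1 1 2 (qsf 536870912 536870912 1239849684 370763052 1) ndF4q1 ndF1q2b pcF1 Cut.none Ext.none)

def k0_pm_112_b : ∃ t, chk3 f_pm_112_b t 1 1 1 = true :=
  ⟨(a (l 4) (l 4)), by decide +kernel⟩

theorem c_pm_112_b : CertF 536870912 536870912 1239849684 370763052 134217728 67108864 false true false .dn 1 1 2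
    ndF4q1 ndF1q2b pcF1 Cut.none Ext.none :=
  certF2 (fam := false) (s1 := true) (s2 := false) (a := 1) (b := 1) (c := 2) (cn := .dn) (n1 := ndF4q1) (n2 := ndF1q2b) (pc := pcF1) (cut := Cut.none) (xt := Ext.none) (P1 := 536870912) (W1 := 536870912) (P2 := 1239849684) (W2 := 370763052) (P3 := 134217728) (W3 := 67108864)
    rfl (fun _ => rfl) k0_pm_112_b

noncomputable def f_pm_113 : ℕ → ℕ → ℕ → ℕ → Bool := onCell 536870912 536870912 536870912 536870912 134217728 67108864
    (rowF 1 false true false .nn 1 1 3 (qsf 536870912 536870912 1610612736 536870912 1) ndF4q1 ndF1q3 pcF1 Cut.none Ext.none)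

def k0_pm_113 : ∃ t, chk3 f_pm_113 t 1 1 1 = true :=
  ⟨(b (l 478389568647) (b (l 18090616) (b (l 17888616) (l 17721424)))), by decide +kernel⟩

theorem c_pm_113 : CertF 536870912 536870912 1610612736 536870912 134217728 67108864 false true false .nn 1 1 3
    ndF4q1 ndF1q3 pcF1 Cut.none Ext.none :=
  certF1 (fam := false) (s1 := true) (s2 := false) (a := 1) (b := 1) (c := 3) (cn := .nn) (n1 := ndF4q1) (n2 := ndF1q3) (pc := pcF1) (cut := Cut.none) (xt := Ext.none) (P1 := 536870912) (W1 := 536870912) (P2 := 1610612736) (W2 := 536870912) (P3 := 134217728) (W3 := 67108864)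
    rfl (fun _ => rfl) k0_pm_113

noncomputable def f_pm_123 : ℕ → ℕ → ℕ → ℕ → Bool := onCell 1073741824 536870912 1610612736 536870912 134217728 67108864
    (rowF 2 false true false .npn 1 2 3 (qsf 536870912 536870912 1610612736 536870912 2) ndF4q1 ndF1q3 pcF2 Cut.none Ext.none)

def k0_pm_123 : ∃ t, chk3 f_pm_123 t 1 1 1 = true :=
  ⟨(a (b (l 4) (a (l 17206976) (l 4))) (l 4)), by decide +kernel⟩

theorem c_pm_123 : CertF 536870912 536870912 1610612736 536870912 134217728 67108864 false true false .npn 1 2 3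
    ndF4q1 ndF1q3 pcF2 Cut.none Ext.none :=
  certF2 (fam := false) (s1 := true) (s2 := false) (a := 1) (b := 2) (c := 3) (cn := .npn) (n1 := ndF4q1) (n2 := ndF1q3) (pc := pcF2) (cut := Cut.none) (xt := Ext.none) (P1 := 536870912) (W1 := 536870912) (P2 := 1610612736) (W2 := 536870912) (P3 := 134217728) (W3 := 67108864)
    rfl (fun _ => rfl) k0_pm_123

noncomputable def f_pm_133 : ℕ → ℕ → ℕ → ℕ → Bool := onCell 536870912 536870912 1610612736 536870912 134217728 67108864
    (rowF 0 false true false .dn 1 3 3 (qsf 536870912 536870912 1610612736 536870912 3) ndF4q1 ndF1q3 pcF3 Cut.none Ext.none)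

def k0_pm_133 : ∃ t, chk3 f_pm_133 t 1 1 1 = true :=
  ⟨(a (l 4) (l 1)), by decide +kernel⟩

theorem c_pm_133 : CertF 536870912 536870912 1610612736 536870912 134217728 67108864 false true false .dn 1 3 3
    ndF4q1 ndF1q3 pcF3 Cut.none Ext.none :=
  certF0 (fam := false) (s1 := true) (s2 := false) (a := 1) (b := 3) (c := 3) (cn := .dn) (n1 := ndF4q1) (n2 := ndF1q3) (pc := pcF3) (cut := Cut.none) (xt := Ext.none) (P1 := 536870912) (W1 := 536870912) (P2 := 1610612736) (W2 := 536870912) (P3 := 134217728) (W3 := 67108864)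
    rfl k0_pm_133

noncomputable def f_pm_202_a : ℕ → ℕ → ℕ → ℕ → Bool := onCell 0 536870912 0 536870912 134217728 67108864
    (rowF 2 false true false .pp 2 0 2 (qsf 1073741824 536870912 0 536870912 0) ndF4q2 ndF1q2a pcF0 Cut.none Ext.none)

def k0_pm_202_a : ∃ t, chk3 f_pm_202_a t 1 1 1 = true :=
  ⟨(a (b (a (a (l 17793528) (l 17806552)) (b (l 17760448) (l 18133120))) (a (b (l 18240840) (l 18671672)) (b (l 1) (l 1)))) (l 1)), by decide +kernel⟩

theorem c_pm_202_a : CertF 1073741824 536870912 0 536870912 134217728 67108864 false true false .pp 2 0 2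
    ndF4q2 ndF1q2a pcF0 Cut.none Ext.none :=
  certF2 (fam := false) (s1 := true) (s2 := false) (a := 2) (b := 0) (c := 2) (cn := .pp) (n1 := ndF4q2) (n2 := ndF1q2a) (pc := pcF0) (cut := Cut.none) (xt := Ext.none) (P1 := 1073741824) (W1 := 536870912) (P2 := 0) (W2 := 536870912) (P3 := 134217728) (W3 := 67108864)
    rfl (fun _ => rfl) k0_pm_202_a

noncomputable def f_pm_202_b : ℕ → ℕ → ℕ → ℕ → Bool := onCell 0 536870912 1239849684 370763052 134217728 67108864
    (rowF 2 false true false .pp 2 0 2 (qsf 1073741824 536870912 1239849684 370763052 0) ndF4q2 ndF1q2b pcF0 Cut.none Ext.none)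

def k0_pm_202_b : ∃ t, chk3 f_pm_202_b t 1 1 1 = true :=
  ⟨(a (b (a (a (l 17323800) (l 17607416)) (b (a (l 17610224) (l 17859552)) (l 18010608))) (a (b (a (l 18078808) (l 18197464)) (a (l 18402568) (l 18501800))) (b (l 18314672) (l 18539240)))) (b (a (b (l 1) (l 18152776)) (l 1)) (a (b (l 18360624) (l 18524576)) (l 18578696)))), by decide +kernel⟩

theorem c_pm_202_b : CertF 1073741824 536870912 1239849684 370763052 134217728 67108864 false true false .pp 2 0 2
    ndF4q2 ndF1q2b pcF0 Cut.none Ext.none :=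
  certF2 (fam := false) (s1 := true) (s2 := false) (a := 2) (b := 0) (c := 2) (cn := .pp) (n1 := ndF4q2) (n2 := ndF1q2b) (pc := pcF0) (cut := Cut.none) (xt := Ext.none) (P1 := 1073741824) (W1 := 536870912) (P2 := 1239849684) (W2 := 370763052) (P3 := 134217728) (W3 := 67108864)
    rfl (fun _ => rfl) k0_pm_202_b

noncomputable def f_pm_203 : ℕ → ℕ → ℕ → ℕ → Bool := onCell 0 536870912 1610612736 536870912 134217728 67108864
    (rowF 2 false true false .up 2 0 3 (qsf 1073741824 536870912 1610612736 536870912 0) ndF4q2 ndF1q3 pcF0 Cut.none Ext.none)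

def k0_pm_203 : ∃ t, chk3 f_pm_203 t 1 1 1 = true :=
  ⟨(a (b (b (a (b (l 18517160) (l 18454464)) (l 18504584)) (a (l 18237736) (l 18286136))) (a (l 2) (b (l 17990632) (l 2)))) (a (b (l 18405440) (l 415641425095)) (b (l 18566104) (b (l 18025536) (l 17795024))))), by decide +kernel⟩

theorem c_pm_203 : CertF 1073741824 536870912 1610612736 536870912 134217728 67108864 false true false .up 2 0 3
    ndF4q2 ndF1q3 pcF0 Cut.none Ext.none :=
  certF2 (fam := false) (s1 := true) (s2 := false) (a := 2) (b := 0) (c := 3) (cn := .up) (n1 := ndF4q2) (n2 := ndF1q3) (pc := pcF0) (cut := Cut.none) (xt := Ext.none) (P1 := 1073741824) (W1 := 536870912) (P2 := 1610612736) (W2 := 536870912) (P3 := 134217728) (W3 := 67108864)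
    rfl (fun _ => rfl) k0_pm_203

noncomputable def f_pm_213 : ℕ → ℕ → ℕ → ℕ → Bool := onCell 536870912 536870912 1610612736 536870912 134217728 67108864
    (rowF 2 false true false .pnn 2 1 3 (qsf 1073741824 536870912 1610612736 536870912 1) ndF4q2 ndF1q3 pcF1 Cut.none Ext.none)

def k0_pm_213 : ∃ t, chk3 f_pm_213 t 1 1 1 = true :=
  ⟨(a (a (b (l 17775512) (b (l 17470128) (l 17404056))) (b (l 17744144) (b (l 17483048) (l 17278936)))) (b (a (l 17634032) (l 1)) (a (b (l 17406584) (l 17279896)) (l 17358840)))), by decide +kernel⟩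

theorem c_pm_213 : CertF 1073741824 536870912 1610612736 536870912 134217728 67108864 false true false .pnn 2 1 3
    ndF4q2 ndF1q3 pcF1 Cut.none Ext.none :=
  certF2 (fam := false) (s1 := true) (s2 := false) (a := 2) (b := 1) (c := 3) (cn := .pnn) (n1 := ndF4q2) (n2 := ndF1q3) (pc := pcF1) (cut := Cut.none) (xt := Ext.none) (P1 := 1073741824) (W1 := 536870912) (P2 := 1610612736) (W2 := 536870912) (P3 := 134217728) (W3 := 67108864)
    rfl (fun _ => rfl) k0_pm_213

noncomputable def f_pm_303 : ℕ → ℕ → ℕ → ℕ → Bool := onCell 0 1230186008 1610612736 536870912 134217728 67108864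
    (rowF 0 false true false .npn 3 0 3 (qsf 0 1230186008 1610612736 536870912 0) ndF4q3 ndF1q3 pcF0 Cut.none Ext.none)

def k0_pm_303 : ∃ t, chk3 f_pm_303 t 1 1 1 = true :=
  ⟨(a (l 3) (a (l 3) (a (b (l 3) (l 3)) (b (b (a (b (l 1) (l 3)) (b (l 228743523207) (l 17945656))) (l 196128031159)) (b (a (l 3) (l 17355600)) (l 3)))))), by decide +kernel⟩

theorem c_pm_303 : CertF 0 1230186008 1610612736 536870912 134217728 67108864 false true false .npn 3 0 3
    ndF4q3 ndF1q3 pcF0 Cut.none Ext.none :=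
  certF0 (fam := false) (s1 := true) (s2 := false) (a := 3) (b := 0) (c := 3) (cn := .npn) (n1 := ndF4q3) (n2 := ndF1q3) (pc := pcF0) (cut := Cut.none) (xt := Ext.none) (P1 := 0) (W1 := 1230186008) (P2 := 1610612736) (W2 := 536870912) (P3 := 134217728) (W3 := 67108864)
    rfl k0_pm_303

noncomputable def f_pm_313 : ℕ → ℕ → ℕ → ℕ → Bool := onCell 0 1230186008 1610612736 536870912 134217728 67108864
    (rowF 0 false true false .dn 3 1 3 (qsf 0 1230186008 1610612736 536870912 1) ndF4q3 ndF1q3 pcF1 Cut.none Ext.none)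

def k0_pm_313 : ∃ t, chk3 f_pm_313 t 1 1 1 = true :=
  ⟨(a (l 1) (a (l 1) (b (l 1) (a (l 1) (b (l 1) (l 3)))))), by decide +kernel⟩

theorem c_pm_313 : CertF 0 1230186008 1610612736 536870912 134217728 67108864 false true false .dn 3 1 3
    ndF4q3 ndF1q3 pcF1 Cut.none Ext.none :=
  certF0 (fam := false) (s1 := true) (s2 := false) (a := 3) (b := 1) (c := 3) (cn := .dn) (n1 := ndF4q3) (n2 := ndF1q3) (pc := pcF1) (cut := Cut.none) (xt := Ext.none) (P1 := 0) (W1 := 1230186008) (P2 := 1610612736) (W2 := 536870912) (P3 := 134217728) (W3 := 67108864)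
    rfl k0_pm_313

noncomputable def f_mm_001 : ℕ → ℕ → ℕ → ℕ → Bool := onCell 0 536870912 536870912 536870912 134217728 67108864
    (rowF 0 false false false .up 0 0 1 (qsf 0 536870912 536870912 536870912 0) ndF4q0 ndF1q1 pcF0 Cut.none Ext.none)

def k0_mm_001 : ∃ t, chk3 f_mm_001 t 1 1 1 = true :=
  ⟨(l 5), by decide +kernel⟩

theorem c_mm_001 : CertF 0 536870912 536870912 536870912 134217728 67108864 false false false .up 0 0 1
    ndF4q0 ndF1q1 pcF0 Cut.none Ext.none :=
  certF0 (fam := false) (s1 := false) (s2 := false) (a := 0) (b := 0) (c := 1) (cn := .up) (n1 := ndF4q0) (n2 := ndF1q1) (pc := pcF0) (cut := Cut.none) (xt := Ext.none) (P1 := 0) (W1 := 536870912) (P2 := 536870912) (W2 := 536870912) (P3 := 134217728) (W3 := 67108864)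
    rfl k0_mm_001

noncomputable def f_mm_011 : ℕ → ℕ → ℕ → ℕ → Bool := onCell 0 536870912 536870912 536870912 134217728 67108864
    (rowF 0 false false false .pnn 0 1 1 (qsf 0 536870912 536870912 536870912 1) ndF4q0 ndF1q1 pcF1 Cut.none Ext.none)

def k0_mm_011 : ∃ t, chk3 f_mm_011 t 1 1 1 = true :=
  ⟨(l 5), by decide +kernel⟩

theorem c_mm_011 : CertF 0 536870912 536870912 536870912 134217728 67108864 false false false .pnn 0 1 1
    ndF4q0 ndF1q1 pcF1 Cut.none Ext.none :=
  certF0 (fam := false) (s1 := false) (s2 := false) (a := 0) (b := 1) (c := 1) (cn := .pnn) (n1 := ndF4q0) (n2 := ndF1q1) (pc := pcF1) (cut := Cut.none) (xt := Ext.none) (P1 := 0) (W1 := 536870912) (P2 := 536870912) (W2 := 536870912) (P3 := 134217728) (W3 := 67108864)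
    rfl k0_mm_011

noncomputable def f_mm_012_a : ℕ → ℕ → ℕ → ℕ → Bool := onCell 0 536870912 0 536870912 134217728 67108864
    (rowF 0 false false false .pnp 0 1 2 (qsf 0 536870912 0 536870912 1) ndF4q0 ndF1q2a pcF1 Cut.none Ext.none)

def k0_mm_012_a : ∃ t, chk3 f_mm_012_a t 1 1 1 = true :=
  ⟨(l 5), by decide +kernel⟩

theorem c_mm_012_a : CertF 0 536870912 0 536870912 134217728 67108864 false false false .pnp 0 1 2
    ndF4q0 ndF1q2a pcF1 Cut.none Ext.none :=
  certF0 (fam := false) (s1 := false) (s2 := false) (a := 0) (b := 1) (c := 2) (cn := .pnp) (n1 := ndF4q0) (n2 := ndF1q2a) (pc := pcF1) (cut := Cut.none) (xt := Ext.none) (P1 := 0) (W1 := 536870912) (P2 := 0) (W2 := 536870912) (P3 := 134217728) (W3 := 67108864)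
    rfl k0_mm_012_a

noncomputable def f_mm_012_b : ℕ → ℕ → ℕ → ℕ → Bool := onCell 0 536870912 1239849684 370763052 134217728 67108864
    (rowF 0 false false false .pnp 0 1 2 (qsf 0 536870912 1239849684 370763052 1) ndF4q0 ndF1q2b pcF1 Cut.none Ext.none)

def k0_mm_012_b : ∃ t, chk3 f_mm_012_b t 1 1 1 = true :=
  ⟨(l 5), by decide +kernel⟩

theorem c_mm_012_b : CertF 0 536870912 1239849684 370763052 134217728 67108864 false false false .pnp 0 1 2
    ndF4q0 ndF1q2b pcF1 Cut.none Ext.none :=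
  certF0 (fam := false) (s1 := false) (s2 := false) (a := 0) (b := 1) (c := 2) (cn := .pnp) (n1 := ndF4q0) (n2 := ndF1q2b) (pc := pcF1) (cut := Cut.none) (xt := Ext.none) (P1 := 0) (W1 := 536870912) (P2 := 1239849684) (W2 := 370763052) (P3 := 134217728) (W3 := 67108864)
    rfl k0_mm_012_b

noncomputable def f_mm_022_a : ℕ → ℕ → ℕ → ℕ → Bool := onCell 0 536870912 0 536870912 134217728 67108864
    (rowF 0 false false false .pp 0 2 2 (qsf 0 536870912 0 536870912 2) ndF4q0 ndF1q2a pcF2 Cut.none Ext.none)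

def k0_mm_022_a : ∃ t, chk3 f_mm_022_a t 1 1 1 = true :=
  ⟨(l 5), by decide +kernel⟩

theorem c_mm_022_a : CertF 0 536870912 0 536870912 134217728 67108864 false false false .pp 0 2 2
    ndF4q0 ndF1q2a pcF2 Cut.none Ext.none :=
  certF0 (fam := false) (s1 := false) (s2 := false) (a := 0) (b := 2) (c := 2) (cn := .pp) (n1 := ndF4q0) (n2 := ndF1q2a) (pc := pcF2) (cut := Cut.none) (xt := Ext.none) (P1 := 0) (W1 := 536870912) (P2 := 0) (W2 := 536870912) (P3 := 134217728) (W3 := 67108864)
    rfl k0_mm_022_a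

noncomputable def f_mm_022_b : ℕ → ℕ → ℕ → ℕ → Bool := onCell 0 536870912 1239849684 370763052 134217728 67108864
    (rowF 0 false false false .pp 0 2 2 (qsf 0 536870912 1239849684 370763052 2) ndF4q0 ndF1q2b pcF2 Cut.none Ext.none)

def k0_mm_022_b : ∃ t, chk3 f_mm_022_b t 1 1 1 = true :=
  ⟨(l 5), by decide +kernel⟩

theorem c_mm_022_b : CertF 0 536870912 1239849684 370763052 134217728 67108864 false false false .pp 0 2 2
    ndF4q0 ndF1q2b pcF2 Cut.none Ext.none :=
  certF0 (fam := false) (s1 := false) (s2 := false) (a := 0) (b := 2) (c := 2) (cn := .pp) (n1 := ndF4q0) (n2 := ndF1q2b) (pc := pcF2) (cut := Cut.none) (xt := Ext.none) (P1 := 0) (W1 := 536870912) (P2 := 1239849684) (W2 := 370763052) (P3 := 134217728) (W3 := 67108864)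
    rfl k0_mm_022_b

noncomputable def f_mm_023 : ℕ → ℕ → ℕ → ℕ → Bool := onCell 0 536870912 1610612736 536870912 134217728 67108864
    (rowF 0 false false false .up 0 2 3 (qsf 0 536870912 1610612736 536870912 2) ndF4q0 ndF1q3 pcF2 Cut.none Ext.none)

def k0_mm_023 : ∃ t, chk3 f_mm_023 t 1 1 1 = true :=
  ⟨(l 5), by decide +kernel⟩

theorem c_mm_023 : CertF 0 536870912 1610612736 536870912 134217728 67108864 false false false .up 0 2 3
    ndF4q0 ndF1q3 pcF2 Cut.none Ext.none :=
  certF0 (fam := false) (s1 := false) (s2 := false) (a := 0) (b := 2) (c := 3) (cn := .up) (n1 := ndF4q0) (n2 := ndF1q3) (pc := pcF2) (cut := Cut.none) (xt := Ext.none) (P1 := 0) (W1 := 536870912) (P2 := 1610612736) (W2 := 536870912) (P3 := 134217728) (W3 := 67108864)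
    rfl k0_mm_023

noncomputable def f_mm_033 : ℕ → ℕ → ℕ → ℕ → Bool := onCell 0 536870912 1610612736 536870912 134217728 67108864
    (rowF 0 false false false .pnn 0 3 3 (qsf 0 536870912 1610612736 536870912 3) ndF4q0 ndF1q3 pcF3 Cut.none Ext.none)

def k0_mm_033 : ∃ t, chk3 f_mm_033 t 1 1 1 = true :=
  ⟨(l 5), by decide +kernel⟩

theorem c_mm_033 : CertF 0 536870912 1610612736 536870912 134217728 67108864 false false false .pnn 0 3 3
    ndF4q0 ndF1q3 pcF3 Cut.none Ext.none :=
  certF0 (fam := false) (s1 := false) (s2 := false) (a := 0) (b := 3) (c := 3) (cn := .pnn) (n1 := ndF4q0) (n2 := ndF1q3) (pc := pcF3) (cut := Cut.none) (xt := Ext.none) (P1 := 0) (W1 := 536870912) (P2 := 1610612736) (W2 := 536870912) (P3 := 134217728) (W3 := 67108864)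
    rfl k0_mm_033

noncomputable def f_mm_101 : ℕ → ℕ → ℕ → ℕ → Bool := onCell 536870912 536870912 536870912 536870912 134217728 67108864
    (rowF 0 false false false .npn 1 0 1 (qsf 536870912 536870912 536870912 536870912 0) ndF4q1 ndF1q1 pcF0 Cut.none Ext.none)

def k0_mm_101 : ∃ t, chk3 f_mm_101 t 1 1 1 = true :=
  ⟨(l 3), by decide +kernel⟩

theorem c_mm_101 : CertF 536870912 536870912 536870912 536870912 134217728 67108864 false false false .npn 1 0 1
    ndF4q1 ndF1q1 pcF0 Cut.none Ext.none :=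
  certF0 (fam := false) (s1 := false) (s2 := false) (a := 1) (b := 0) (c := 1) (cn := .npn) (n1 := ndF4q1) (n2 := ndF1q1) (pc := pcF0) (cut := Cut.none) (xt := Ext.none) (P1 := 536870912) (W1 := 536870912) (P2 := 536870912) (W2 := 536870912) (P3 := 134217728) (W3 := 67108864)
    rfl k0_mm_101

noncomputable def f_mm_102_a : ℕ → ℕ → ℕ → ℕ → Bool := onCell 536870912 536870912 0 536870912 134217728 67108864
    (rowF 0 false false false .npp 1 0 2 (qsf 536870912 536870912 0 536870912 0) ndF4q1 ndF1q2a pcF0 Cut.none Ext.none)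

def k0_mm_102_a : ∃ t, chk3 f_mm_102_a t 1 1 1 = true :=
  ⟨(l 5), by decide +kernel⟩

theorem c_mm_102_a : CertF 536870912 536870912 0 536870912 134217728 67108864 false false false .npp 1 0 2
    ndF4q1 ndF1q2a pcF0 Cut.none Ext.none :=
  certF0 (fam := false) (s1 := false) (s2 := false) (a := 1) (b := 0) (c := 2) (cn := .npp) (n1 := ndF4q1) (n2 := ndF1q2a) (pc := pcF0) (cut := Cut.none) (xt := Ext.none) (P1 := 536870912) (W1 := 536870912) (P2 := 0) (W2 := 536870912) (P3 := 134217728) (W3 := 67108864)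
    rfl k0_mm_102_a

noncomputable def f_mm_102_b : ℕ → ℕ → ℕ → ℕ → Bool := onCell 536870912 536870912 1239849684 370763052 134217728 67108864
    (rowF 0 false false false .npp 1 0 2 (qsf 536870912 536870912 1239849684 370763052 0) ndF4q1 ndF1q2b pcF0 Cut.none Ext.none)

def k0_mm_102_b : ∃ t, chk3 f_mm_102_b t 1 1 1 = true :=
  ⟨(l 5), by decide +kernel⟩

theorem c_mm_102_b : CertF 536870912 536870912 1239849684 370763052 134217728 67108864 false false false .npp 1 0 2
    ndF4q1 ndF1q2b pcF0 Cut.none Ext.none :=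
  certF0 (fam := false) (s1 := false) (s2 := false) (a := 1) (b := 0) (c := 2) (cn := .npp) (n1 := ndF4q1) (n2 := ndF1q2b) (pc := pcF0) (cut := Cut.none) (xt := Ext.none) (P1 := 536870912) (W1 := 536870912) (P2 := 1239849684) (W2 := 370763052) (P3 := 134217728) (W3 := 67108864)
    rfl k0_mm_102_b

noncomputable def f_mm_112_a : ℕ → ℕ → ℕ → ℕ → Bool := onCell 536870912 536870912 0 536870912 134217728 67108864
    (rowF 0 false false false .dn 1 1 2 (qsf 536870912 536870912 0 536870912 1) ndF4q1 ndF1q2a pcF1 Cut.none Ext.none)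

def k0_mm_112_a : ∃ t, chk3 f_mm_112_a t 1 1 1 = true :=
  ⟨(l 5), by decide +kernel⟩

theorem c_mm_112_a : CertF 536870912 536870912 0 536870912 134217728 67108864 false false false .dn 1 1 2
    ndF4q1 ndF1q2a pcF1 Cut.none Ext.none :=
  certF0 (fam := false) (s1 := false) (s2 := false) (a := 1) (b := 1) (c := 2) (cn := .dn) (n1 := ndF4q1) (n2 := ndF1q2a) (pc := pcF1) (cut := Cut.none) (xt := Ext.none) (P1 := 536870912) (W1 := 536870912) (P2 := 0) (W2 := 536870912) (P3 := 134217728) (W3 := 67108864)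
    rfl k0_mm_112_a

noncomputable def f_mm_112_b : ℕ → ℕ → ℕ → ℕ → Bool := onCell 536870912 536870912 1239849684 370763052 134217728 67108864
    (rowF 0 false false false .dn 1 1 2 (qsf 536870912 536870912 1239849684 370763052 1) ndF4q1 ndF1q2b pcF1 Cut.none Ext.none)

def k0_mm_112_b : ∃ t, chk3 f_mm_112_b t 1 1 1 = true :=
  ⟨(l 5), by decide +kernel⟩

theorem c_mm_112_b : CertF 536870912 536870912 1239849684 370763052 134217728 67108864 false false false .dn 1 1 2
    ndF4q1 ndF1q2b pcF1 Cut.none Ext.none :=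
  certF0 (fam := false) (s1 := false) (s2 := false) (a := 1) (b := 1) (c := 2) (cn := .dn) (n1 := ndF4q1) (n2 := ndF1q2b) (pc := pcF1) (cut := Cut.none) (xt := Ext.none) (P1 := 536870912) (W1 := 536870912) (P2 := 1239849684) (W2 := 370763052) (P3 := 134217728) (W3 := 67108864)
    rfl k0_mm_112_b

noncomputable def f_mm_113 : ℕ → ℕ → ℕ → ℕ → Bool := onCell 536870912 536870912 1610612736 536870912 134217728 67108864
    (rowF 0 false false false .nn 1 1 3 (qsf 536870912 536870912 1610612736 536870912 1) ndF4q1 ndF1q3 pcF1 Cut.none Ext.none)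

def k0_mm_113 : ∃ t, chk3 f_mm_113 t 1 1 1 = true :=
  ⟨(l 5), by decide +kernel⟩

theorem c_mm_113 : CertF 536870912 536870912 1610612736 536870912 134217728 67108864 false false false .nn 1 1 3
    ndF4q1 ndF1q3 pcF1 Cut.none Ext.none :=
  certF0 (fam := false) (s1 := false) (s2 := false) (a := 1) (b := 1) (c := 3) (cn := .nn) (n1 := ndF4q1) (n2 := ndF1q3) (pc := pcF1) (cut := Cut.none) (xt := Ext.none) (P1 := 536870912) (W1 := 536870912) (P2 := 1610612736) (W2 := 536870912) (P3 := 134217728) (W3 := 67108864)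
    rfl k0_mm_113

noncomputable def f_mm_123 : ℕ → ℕ → ℕ → ℕ → Bool := onCell 536870912 536870912 1610612736 536870912 134217728 67108864
    (rowF 0 false false false .npn 1 2 3 (qsf 536870912 536870912 1610612736 536870912 2) ndF4q1 ndF1q3 pcF2 Cut.none Ext.none)

def k0_mm_123 : ∃ t, chk3 f_mm_123 t 1 1 1 = true :=
  ⟨(l 5), by decide +kernel⟩

theorem c_mm_123 : CertF 536870912 536870912 1610612736 536870912 134217728 67108864 false false false .npn 1 2 3
    ndF4q1 ndF1q3 pcF2 Cut.none Ext.none :=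
  certF0 (fam := false) (s1 := false) (s2 := false) (a := 1) (b := 2) (c := 3) (cn := .npn) (n1 := ndF4q1) (n2 := ndF1q3) (pc := pcF2) (cut := Cut.none) (xt := Ext.none) (P1 := 536870912) (W1 := 536870912) (P2 := 1610612736) (W2 := 536870912) (P3 := 134217728) (W3 := 67108864)
    rfl k0_mm_123

noncomputable def f_mm_133 : ℕ → ℕ → ℕ → ℕ → Bool := onCell 536870912 536870912 1610612736 536870912 134217728 67108864
    (rowF 0 false false false .dn 1 3 3 (qsf 536870912 536870912 1610612736 536870912 3) ndF4q1 ndF1q3 pcF3 Cut.none Ext.none)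

def k0_mm_133 : ∃ t, chk3 f_mm_133 t 1 1 1 = true :=
  ⟨(l 5), by decide +kernel⟩

theorem c_mm_133 : CertF 536870912 536870912 1610612736 536870912 134217728 67108864 false false false .dn 1 3 3
    ndF4q1 ndF1q3 pcF3 Cut.none Ext.none :=
  certF0 (fam := false) (s1 := false) (s2 := false) (a := 1) (b := 3) (c := 3) (cn := .dn) (n1 := ndF4q1) (n2 := ndF1q3) (pc := pcF3) (cut := Cut.none) (xt := Ext.none) (P1 := 536870912) (W1 := 536870912) (P2 := 1610612736) (W2 := 536870912) (P3 := 134217728) (W3 := 67108864)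
    rfl k0_mm_133

noncomputable def f_mm_202_a : ℕ → ℕ → ℕ → ℕ → Bool := onCell 1073741824 536870912 0 536870912 134217728 67108864
    (rowF 0 false false false .pp 2 0 2 (qsf 1073741824 536870912 0 536870912 0) ndF4q2 ndF1q2a pcF0 Cut.none Ext.none)

def k0_mm_202_a : ∃ t, chk3 f_mm_202_a t 1 1 1 = true :=
  ⟨(l 3), by decide +kernel⟩

theorem c_mm_202_a : CertF 1073741824 536870912 0 536870912 134217728 67108864 false false false .pp 2 0 2
    ndF4q2 ndF1q2a pcF0 Cut.none Ext.none :=
  certF0 (fam := false) (s1 := false) (s2 := false) (a := 2) (b := 0) (c := 2) (cn := .pp) (n1 := ndF4q2) (n2 := ndF1q2a) (pc := pcF0) (cut := Cut.none) (xt := Ext.none) (P1 := 1073741824) (W1 := 536870912) (P2 := 0) (W2 := 536870912) (P3 := 134217728) (W3 := 67108864)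
    rfl k0_mm_202_a

noncomputable def f_mm_202_b : ℕ → ℕ → ℕ → ℕ → Bool := onCell 1073741824 536870912 1239849684 370763052 134217728 67108864
    (rowF 0 false false false .pp 2 0 2 (qsf 1073741824 536870912 1239849684 370763052 0) ndF4q2 ndF1q2b pcF0 Cut.none Ext.none)

def k0_mm_202_b : ∃ t, chk3 f_mm_202_b t 1 1 1 = true :=
  ⟨(l 5), by decide +kernel⟩

theorem c_mm_202_b : CertF 1073741824 536870912 1239849684 370763052 134217728 67108864 false false false .pp 2 0 2
    ndF4q2 ndF1q2b pcF0 Cut.none Ext.none :=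
  certF0 (fam := false) (s1 := false) (s2 := false) (a := 2) (b := 0) (c := 2) (cn := .pp) (n1 := ndF4q2) (n2 := ndF1q2b) (pc := pcF0) (cut := Cut.none) (xt := Ext.none) (P1 := 1073741824) (W1 := 536870912) (P2 := 1239849684) (W2 := 370763052) (P3 := 134217728) (W3 := 67108864)
    rfl k0_mm_202_b

noncomputable def f_mm_203 : ℕ → ℕ → ℕ → ℕ → Bool := onCell 1073741824 536870912 1610612736 536870912 134217728 67108864
    (rowF 0 false false false .up 2 0 3 (qsf 1073741824 536870912 1610612736 536870912 0) ndF4q2 ndF1q3 pcF0 Cut.none Ext.none)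

def k0_mm_203 : ∃ t, chk3 f_mm_203 t 1 1 1 = true :=
  ⟨(l 5), by decide +kernel⟩

theorem c_mm_203 : CertF 1073741824 536870912 1610612736 536870912 134217728 67108864 false false false .up 2 0 3
    ndF4q2 ndF1q3 pcF0 Cut.none Ext.none :=
  certF0 (fam := false) (s1 := false) (s2 := false) (a := 2) (b := 0) (c := 3) (cn := .up) (n1 := ndF4q2) (n2 := ndF1q3) (pc := pcF0) (cut := Cut.none) (xt := Ext.none) (P1 := 1073741824) (W1 := 536870912) (P2 := 1610612736) (W2 := 536870912) (P3 := 134217728) (W3 := 67108864)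
    rfl k0_mm_203

noncomputable def f_mm_213 : ℕ → ℕ → ℕ → ℕ → Bool := onCell 1073741824 536870912 1610612736 536870912 134217728 67108864
    (rowF 0 false false false .pnn 2 1 3 (qsf 1073741824 536870912 1610612736 536870912 1) ndF4q2 ndF1q3 pcF1 Cut.none Ext.none)

def k0_mm_213 : ∃ t, chk3 f_mm_213 t 1 1 1 = true :=
  ⟨(l 5), by decide +kernel⟩

theorem c_mm_213 : CertF 1073741824 536870912 1610612736 536870912 134217728 67108864 false false false .pnn 2 1 3
    ndF4q2 ndF1q3 pcF1 Cut.none Ext.none :=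
  certF0 (fam := false) (s1 := false) (s2 := false) (a := 2) (b := 1) (c := 3) (cn := .pnn) (n1 := ndF4q2) (n2 := ndF1q3) (pc := pcF1) (cut := Cut.none) (xt := Ext.none) (P1 := 1073741824) (W1 := 536870912) (P2 := 1610612736) (W2 := 536870912) (P3 := 134217728) (W3 := 67108864)
    rfl k0_mm_213

noncomputable def f_mm_303 : ℕ → ℕ → ℕ → ℕ → Bool := onCell 0 1230186008 1610612736 536870912 134217728 67108864
    (rowF 0 false false false .npn 3 0 3 (qsf 0 1230186008 1610612736 536870912 0) ndF4q3 ndF1q3 pcF0 Cut.none Ext.none)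

def k0_mm_303 : ∃ t, chk3 f_mm_303 t 1 1 1 = true :=
  ⟨(a (l 3) (a (l 3) (l 3))), by decide +kernel⟩

theorem c_mm_303 : CertF 0 1230186008 1610612736 536870912 134217728 67108864 false false false .npn 3 0 3
    ndF4q3 ndF1q3 pcF0 Cut.none Ext.none :=
  certF0 (fam := false) (s1 := false) (s2 := false) (a := 3) (b := 0) (c := 3) (cn := .npn) (n1 := ndF4q3) (n2 := ndF1q3) (pc := pcF0) (cut := Cut.none) (xt := Ext.none) (P1 := 0) (W1 := 1230186008) (P2 := 1610612736) (W2 := 536870912) (P3 := 134217728) (W3 := 67108864)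
    rfl k0_mm_303

noncomputable def f_mm_313 : ℕ → ℕ → ℕ → ℕ → Bool := onCell 0 1230186008 1610612736 536870912 134217728 67108864
    (rowF 0 false false false .dn 3 1 3 (qsf 0 1230186008 1610612736 536870912 1) ndF4q3 ndF1q3 pcF1 Cut.none Ext.none)

def k0_mm_313 : ∃ t, chk3 f_mm_313 t 1 1 1 = true :=
  ⟨(a (l 1) (a (l 1) (l 3))), by decide +kernel⟩

theorem c_mm_313 : CertF 0 1230186008 1610612736 536870912 134217728 67108864 false false false .dn 3 1 3
    ndF4q3 ndF1q3 pcF1 Cut.none Ext.none :=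
  certF0 (fam := false) (s1 := false) (s2 := false) (a := 3) (b := 1) (c := 3) (cn := .dn) (n1 := ndF4q3) (n2 := ndF1q3) (pc := pcF1) (cut := Cut.none) (xt := Ext.none) (P1 := 0) (W1 := 1230186008) (P2 := 1610612736) (W2 := 536870912) (P3 := 134217728) (W3 := 67108864)
    rfl k0_mm_313

end Pool.Agent.Strip051.G.I1_8_3_16.Tab.C.FB41

namespace Pool.Agent.Strip051.G.I1_8_3_16.Tab.C.FB42

open Pool.Agent.Strip051.PB Pool.Agent.Strip051.PB.T
open Pool.Agent.Strip051.G.I1_8_3_16.Tab

noncomputable def f_pp_001 : ℕ → ℕ → ℕ → ℕ → Bool := onCell 0 536870912 536870912 536870912 134217728 67108864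
    (rowF 0 false true true .up 0 0 1 (qsf 0 536870912 536870912 536870912 0) ndF4q0 ndF2q1 pcF0 Cut.none Ext.none)

def k0_pp_001 : ∃ t, chk3 f_pp_001 t 1 1 1 = true :=
  ⟨(l 3), by decide +kernel⟩

theorem c_pp_001 : CertF 0 536870912 536870912 536870912 134217728 67108864 false true true .up 0 0 1
    ndF4q0 ndF2q1 pcF0 Cut.none Ext.none :=
  certF0 (fam := false) (s1 := true) (s2 := true) (a := 0) (b := 0) (c := 1) (cn := .up) (n1 := ndF4q0) (n2 := ndF2q1) (pc := pcF0) (cut := Cut.none) (xt := Ext.none) (P1 := 0) (W1 := 536870912) (P2 := 536870912) (W2 := 536870912) (P3 := 134217728) (W3 := 67108864)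
    rfl k0_pp_001

noncomputable def f_pp_011 : ℕ → ℕ → ℕ → ℕ → Bool := onCell 0 536870912 536870912 536870912 134217728 67108864
    (rowF 0 false true true .pnn 0 1 1 (qsf 0 536870912 536870912 536870912 1) ndF4q0 ndF2q1 pcF1 Cut.none Ext.none)

def k0_pp_011 : ∃ t, chk3 f_pp_011 t 1 1 1 = true :=
  ⟨(l 3), by decide +kernel⟩

theorem c_pp_011 : CertF 0 536870912 536870912 536870912 134217728 67108864 false true true .pnn 0 1 1
    ndF4q0 ndF2q1 pcF1 Cut.none Ext.none :=
  certF0 (fam := false) (s1 := true) (s2 := true) (a := 0) (b := 1) (c := 1) (cn := .pnn) (n1 := ndF4q0) (n2 := ndF2q1) (pc := pcF1) (cut := Cut.none) (xt := Ext.none) (P1 := 0) (W1 := 536870912) (P2 := 536870912) (W2 := 536870912) (P3 := 134217728) (W3 := 67108864)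
    rfl k0_pp_011

noncomputable def f_pp_012_a : ℕ → ℕ → ℕ → ℕ → Bool := onCell 536870912 536870912 0 536870912 134217728 67108864
    (rowF 2 false true true .pnp 0 1 2 (qsf 0 536870912 0 536870912 1) ndF4q0 ndF2q2a pcF1 Cut.none Ext.none)

def k0_pp_012_a : ∃ t, chk3 f_pp_012_a t 1 1 1 = true :=
  ⟨(a (a (b (l 17265472) (l 17395440)) (b (l 17337592) (l 17476232))) (a (b (l 17452072) (l 17590240)) (b (l 17668320) (l 17854584)))), by decide +kernel⟩

theorem c_pp_012_a : CertF 0 536870912 0 536870912 134217728 67108864 false true true .pnp 0 1 2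
    ndF4q0 ndF2q2a pcF1 Cut.none Ext.none :=
  certF2 (fam := false) (s1 := true) (s2 := true) (a := 0) (b := 1) (c := 2) (cn := .pnp) (n1 := ndF4q0) (n2 := ndF2q2a) (pc := pcF1) (cut := Cut.none) (xt := Ext.none) (P1 := 0) (W1 := 536870912) (P2 := 0) (W2 := 536870912) (P3 := 134217728) (W3 := 67108864)
    rfl (fun _ => rfl) k0_pp_012_a

noncomputable def f_pp_012_b : ℕ → ℕ → ℕ → ℕ → Bool := onCell 536870912 536870912 1239849684 370763052 134217728 67108864
    (rowF 2 false true true .pnp 0 1 2 (qsf 0 536870912 1239849684 370763052 1) ndF4q0 ndF2q2b pcF1 Cut.none Ext.none)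

def k0_pp_012_b : ∃ t, chk3 f_pp_012_b t 1 1 1 = true :=
  ⟨(b (a (a (l 2) (l 17190288)) (a (l 17367736) (l 17721744))) (a (l 2) (l 17600496))), by decide +kernel⟩

theorem c_pp_012_b : CertF 0 536870912 1239849684 370763052 134217728 67108864 false true true .pnp 0 1 2
    ndF4q0 ndF2q2b pcF1 Cut.none Ext.none :=
  certF2 (fam := false) (s1 := true) (s2 := true) (a := 0) (b := 1) (c := 2) (cn := .pnp) (n1 := ndF4q0) (n2 := ndF2q2b) (pc := pcF1) (cut := Cut.none) (xt := Ext.none) (P1 := 0) (W1 := 536870912) (P2 := 1239849684) (W2 := 370763052) (P3 := 134217728) (W3 := 67108864)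
    rfl (fun _ => rfl) k0_pp_012_b

noncomputable def f_pp_022_a : ℕ → ℕ → ℕ → ℕ → Bool := onCell 1073741824 536870912 0 536870912 134217728 67108864
    (rowF 2 false true true .pp 0 2 2 (qsf 0 536870912 0 536870912 2) ndF4q0 ndF2q2a pcF2 Cut.none Ext.none)

def k0_pp_022_a : ∃ t, chk3 f_pp_022_a t 1 1 1 = true :=
  ⟨(a (b (a (a (l 18192544) (a (l 18084992) (l 18039944))) (a (a (l 17994112) (l 17933808)) (l 1))) (a (a (b (l 18179272) (l 18135040)) (a (a (l 18066328) (l 416111511495)) (b (l 17982432) (l 1)))) (b (l 1) (l 1)))) (l 1)), by decide +kernel⟩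

theorem c_pp_022_a : CertF 0 536870912 0 536870912 134217728 67108864 false true true .pp 0 2 2
    ndF4q0 ndF2q2a pcF2 Cut.none Ext.none :=
  certF2 (fam := false) (s1 := true) (s2 := true) (a := 0) (b := 2) (c := 2) (cn := .pp) (n1 := ndF4q0) (n2 := ndF2q2a) (pc := pcF2) (cut := Cut.none) (xt := Ext.none) (P1 := 0) (W1 := 536870912) (P2 := 0) (W2 := 536870912) (P3 := 134217728) (W3 := 67108864)
    rfl (fun _ => rfl) k0_pp_022_a

noncomputable def f_pp_022_b : ℕ → ℕ → ℕ → ℕ → Bool := onCell 1073741824 536870912 1239849684 370763052 134217728 67108864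
    (rowF 2 false true true .pp 0 2 2 (qsf 0 536870912 1239849684 370763052 2) ndF4q0 ndF2q2b pcF2 Cut.none Ext.none)

def k0_pp_022_b : ∃ t, chk3 f_pp_022_b t 1 1 1 = true :=
  ⟨(a (b (a (a (l 18231136) (a (l 18162440) (l 18070416))) (a (b (l 17970824) (l 18055944)) (l 17843440))) (l 18267336)) (b (a (b (l 1) (l 17731144)) (l 1)) (a (l 17991224) (b (a (l 17607304) (l 1)) (l 17754480))))), by decide +kernel⟩

theorem c_pp_022_b : CertF 0 536870912 1239849684 370763052 134217728 67108864 false true true .pp 0 2 2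
    ndF4q0 ndF2q2b pcF2 Cut.none Ext.none :=
  certF2 (fam := false) (s1 := true) (s2 := true) (a := 0) (b := 2) (c := 2) (cn := .pp) (n1 := ndF4q0) (n2 := ndF2q2b) (pc := pcF2) (cut := Cut.none) (xt := Ext.none) (P1 := 0) (W1 := 536870912) (P2 := 1239849684) (W2 := 370763052) (P3 := 134217728) (W3 := 67108864)
    rfl (fun _ => rfl) k0_pp_022_b

noncomputable def f_pp_023 : ℕ → ℕ → ℕ → ℕ → Bool := onCell 1073741824 536870912 1610612736 536870912 134217728 67108864
    (rowF 2 false true true .up 0 2 3 (qsf 0 536870912 1610612736 536870912 2) ndF4q0 ndF2q3 pcF2 Cut.none Ext.none)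

def k0_pp_023 : ∃ t, chk3 f_pp_023 t 1 1 1 = true :=
  ⟨(a (b (l 18496688) (l 231495911863)) (a (l 18022928) (l 17751856))), by decide +kernel⟩

theorem c_pp_023 : CertF 0 536870912 1610612736 536870912 134217728 67108864 false true true .up 0 2 3
    ndF4q0 ndF2q3 pcF2 Cut.none Ext.none :=
  certF2 (fam := false) (s1 := true) (s2 := true) (a := 0) (b := 2) (c := 3) (cn := .up) (n1 := ndF4q0) (n2 := ndF2q3) (pc := pcF2) (cut := Cut.none) (xt := Ext.none) (P1 := 0) (W1 := 536870912) (P2 := 1610612736) (W2 := 536870912) (P3 := 134217728) (W3 := 67108864)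
    rfl (fun _ => rfl) k0_pp_023

noncomputable def f_pp_033 : ℕ → ℕ → ℕ → ℕ → Bool := onCell 0 536870912 1610612736 536870912 134217728 67108864
    (rowF 0 false true true .pnn 0 3 3 (qsf 0 536870912 1610612736 536870912 3) ndF4q0 ndF2q3 pcF3 Cut.none Ext.none)

def k0_pp_033 : ∃ t, chk3 f_pp_033 t 1 1 1 = true :=
  ⟨(a (b (a (b (b (l 17528232) (a (l 17445480) (l 17579000))) (l 4)) (b (b (l 1) (l 17756688)) (b (l 17758000) (l 4)))) (l 4)) (b (a (b (l 1) (b (l 1) (l 18024040))) (l 1)) (b (a (l 4) (b (l 1) (l 4))) (l 4)))), by decide +kernel⟩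

theorem c_pp_033 : CertF 0 536870912 1610612736 536870912 134217728 67108864 false true true .pnn 0 3 3
    ndF4q0 ndF2q3 pcF3 Cut.none Ext.none :=
  certF0 (fam := false) (s1 := true) (s2 := true) (a := 0) (b := 3) (c := 3) (cn := .pnn) (n1 := ndF4q0) (n2 := ndF2q3) (pc := pcF3) (cut := Cut.none) (xt := Ext.none) (P1 := 0) (W1 := 536870912) (P2 := 1610612736) (W2 := 536870912) (P3 := 134217728) (W3 := 67108864)
    rfl k0_pp_033

noncomputable def f_pp_101 : ℕ → ℕ → ℕ → ℕ → Bool := onCell 536870912 536870912 536870912 536870912 134217728 67108864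
    (rowF 0 false true true .npn 1 0 1 (qsf 536870912 536870912 536870912 536870912 0) ndF4q1 ndF2q1 pcF0 Cut.none Ext.none)

def k0_pp_101 : ∃ t, chk3 f_pp_101 t 1 1 1 = true :=
  ⟨(l 3), by decide +kernel⟩

theorem c_pp_101 : CertF 536870912 536870912 536870912 536870912 134217728 67108864 false true true .npn 1 0 1
    ndF4q1 ndF2q1 pcF0 Cut.none Ext.none :=
  certF0 (fam := false) (s1 := true) (s2 := true) (a := 1) (b := 0) (c := 1) (cn := .npn) (n1 := ndF4q1) (n2 := ndF2q1) (pc := pcF0) (cut := Cut.none) (xt := Ext.none) (P1 := 536870912) (W1 := 536870912) (P2 := 536870912) (W2 := 536870912) (P3 := 134217728) (W3 := 67108864)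
    rfl k0_pp_101

noncomputable def cut_pp_102_a : Cut := Cut.of [[⟨0, 1, 0, 67108864⟩, ⟨1, 0, 0, 67108864⟩, ⟨2, 1, 0, 67108864⟩]]

noncomputable def f_pp_102_a : ℕ → ℕ → ℕ → ℕ → Bool := onCell 536870912 536870912 0 536870912 134217728 67108864
    (rowF 0 false true true .npp 1 0 2 (qsf 536870912 536870912 0 536870912 0) ndF4q1 ndF2q2a pcF0 cut_pp_102_a Ext.none)

def k0_pp_102_a : ∃ t, chk3 f_pp_102_a t 1 1 1 = true :=
  ⟨(a (b (a (l 17999144) (l 18095704)) (a (b (l 17949384) (b (l 17865104) (l 17764048))) (b (l 17962808) (b (l 17793048) (a (l 17666904) (l 17539472)))))) (b (a (a (l 18103712) (l 18023184)) (a (b (l 17870960) (a (l 17769768) (l 17513240))) (b (a (l 17432032) (l 16823616)) (a (b (l 17216336) (l 16909184)) (b (l 16527096) (l 16542976)))))) (a (b (a (l 17865912) (b (l 17767488) (l 17544800))) (b (a (l 17585808) (a (l 17349304) (l 17080696))) (a (b (l 17384616) (l 17227120)) (a (b (l 17083136) (l 16884880)) (b (l 16743408) (l 16629896)))))) (b (a (a (b (l 17468448)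 (l 17129352)) (b (l 17090320) (l 16598592))) (a (b (l 16550688) (a (l 16575664) (l 16585680))) (b (a (l 16562848) (l 16592536)) (a (c (l 16598640) (l 16593496)) (c (l 16651496) (l 16625584)))))) (b (a (a (l 16619544) (b (l 16587040) (l 16630368))) (a (b (a (l 16604576) (l 16616632)) (a (l 16629240) (l 16663784))) (a (b (c (l 16630544) (l 16627552)) (c (l 16678432) (l 16676792))) (b (c (a (l 16640192) (l 16646776)) (l 16661488)) (b (c (l 16685128) (l 16662184)) (a (l 16675208) (l 6))))))) (a (b (a (l 16629648) (a (l 16629328) (l 16664760))) (a (l 16696016) (b (l 16681672) (l 16722624)))) (b (a (a (b (l 16650600) (l 16666880)) (b (l 16665312) (l 16703352))) (a (b (a (l 16676552) (l 6)) (l 6)) (l 6))) (a (b (a (l 16684832) (a (l 16697048) (l 6))) (a (l 16735592) (l 6))) (l 6))))))))), by decide +kernel⟩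

theorem c_pp_102_a : CertF 536870912 536870912 0 536870912 134217728 67108864 false true true .npp 1 0 2
    ndF4q1 ndF2q2a pcF0 cut_pp_102_a Ext.none :=
  certF0 (fam := false) (s1 := true) (s2 := true) (a := 1) (b := 0) (c := 2) (cn := .npp) (n1 := ndF4q1) (n2 := ndF2q2a) (pc := pcF0) (cut := cut_pp_102_a) (xt := Ext.none) (P1 := 536870912) (W1 := 536870912) (P2 := 0) (W2 := 536870912) (P3 := 134217728) (W3 := 67108864)
    rfl k0_pp_102_a

noncomputable def cut_pp_102_b : Cut := Cut.of [[⟨0, 1, 0, 67108864⟩, ⟨1, 0, 0, 67108864⟩, ⟨2, 1, 0, 67108864⟩]]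

noncomputable def f_pp_102_b : ℕ → ℕ → ℕ → ℕ → Bool := onCell 536870912 536870912 0 536870912 134217728 67108864
    (rowF 1 false true true .npp 1 0 2 (qsf 536870912 536870912 1239849684 370763052 0) ndF4q1 ndF2q2b pcF0 cut_pp_102_b Ext.none)

def k0_pp_102_b : ∃ t, chk3 f_pp_102_b t 1 1 1 = true :=
  ⟨(b (a (l 1) (b (l 1) (a (l 1) (b (a (l 1) (a (l 16582312) (l 16574328))) (a (l 197603318743) (b (l 17591896) (l 18071080))))))) (b (a (l 1) (a (a (l 285651471719) (l 326991019255)) (b (a (l 18211632) (l 18551832)) (l 18760592)))) (a (a (l 1) (l 355444949031)) (a (l 18508488) (l 19028320))))), by decide +kernel⟩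

theorem c_pp_102_b : CertF 536870912 536870912 1239849684 370763052 134217728 67108864 false true true .npp 1 0 2
    ndF4q1 ndF2q2b pcF0 cut_pp_102_b Ext.none :=
  certF1 (fam := false) (s1 := true) (s2 := true) (a := 1) (b := 0) (c := 2) (cn := .npp) (n1 := ndF4q1) (n2 := ndF2q2b) (pc := pcF0) (cut := cut_pp_102_b) (xt := Ext.none) (P1 := 536870912) (W1 := 536870912) (P2 := 1239849684) (W2 := 370763052) (P3 := 134217728) (W3 := 67108864)
    rfl (fun _ => rfl) k0_pp_102_b

noncomputable def f_pp_112_a : ℕ → ℕ → ℕ → ℕ → Bool := onCell 536870912 536870912 0 536870912 134217728 67108864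
    (rowF 2 false true true .dn 1 1 2 (qsf 536870912 536870912 0 536870912 1) ndF4q1 ndF2q2a pcF1 Cut.none Ext.none)

def k0_pp_112_a : ∃ t, chk3 f_pp_112_a t 1 1 1 = true :=
  ⟨(a (a (b (l 18339600) (b (l 18270864) (l 18177584))) (b (l 18297152) (l 18254648))) (l 1)), by decide +kernel⟩

theorem c_pp_112_a : CertF 536870912 536870912 0 536870912 134217728 67108864 false true true .dn 1 1 2
    ndF4q1 ndF2q2a pcF1 Cut.none Ext.none :=
  certF2 (fam := false) (s1 := true) (s2 := true) (a := 1) (b := 1) (c := 2) (cn := .dn) (n1 := ndF4q1) (n2 := ndF2q2a) (pc := pcF1) (cut := Cut.none) (xt := Ext.none) (P1 := 536870912) (W1 := 536870912) (P2 := 0) (W2 := 536870912) (P3 := 134217728) (W3 := 67108864)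
    rfl (fun _ => rfl) k0_pp_112_a

noncomputable def f_pp_112_b : ℕ → ℕ → ℕ → ℕ → Bool := onCell 536870912 536870912 1239849684 370763052 134217728 67108864
    (rowF 2 false true true .dn 1 1 2 (qsf 536870912 536870912 1239849684 370763052 1) ndF4q1 ndF2q2b pcF1 Cut.none Ext.none)

def k0_pp_112_b : ∃ t, chk3 f_pp_112_b t 1 1 1 = true :=
  ⟨(a (a (b (l 18472272) (l 18676376)) (b (l 18354040) (l 18445680))) (a (l 18520720) (l 462819675671))), by decide +kernel⟩

theorem c_pp_112_b : CertF 536870912 536870912 1239849684 370763052 134217728 67108864 false true true .dn 1 1 2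
    ndF4q1 ndF2q2b pcF1 Cut.none Ext.none :=
  certF2 (fam := false) (s1 := true) (s2 := true) (a := 1) (b := 1) (c := 2) (cn := .dn) (n1 := ndF4q1) (n2 := ndF2q2b) (pc := pcF1) (cut := Cut.none) (xt := Ext.none) (P1 := 536870912) (W1 := 536870912) (P2 := 1239849684) (W2 := 370763052) (P3 := 134217728) (W3 := 67108864)
    rfl (fun _ => rfl) k0_pp_112_b

noncomputable def f_pp_113 : ℕ → ℕ → ℕ → ℕ → Bool := onCell 536870912 536870912 1610612736 536870912 134217728 67108864
    (rowF 2 false true true .nn 1 1 3 (qsf 536870912 536870912 1610612736 536870912 1) ndF4q1 ndF2q3 pcF1 Cut.none Ext.none)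

def k0_pp_113 : ∃ t, chk3 f_pp_113 t 1 1 1 = true :=
  ⟨(a (a (b (l 18654904) (l 2)) (b (l 18260728) (l 18189688))) (b (l 17796400) (b (l 17631824) (a (l 17622176) (a (l 17275840) (l 17068032)))))), by decide +kernel⟩

theorem c_pp_113 : CertF 536870912 536870912 1610612736 536870912 134217728 67108864 false true true .nn 1 1 3
    ndF4q1 ndF2q3 pcF1 Cut.none Ext.none :=
  certF2 (fam := false) (s1 := true) (s2 := true) (a := 1) (b := 1) (c := 3) (cn := .nn) (n1 := ndF4q1) (n2 := ndF2q3) (pc := pcF1) (cut := Cut.none) (xt := Ext.none) (P1 := 536870912) (W1 := 536870912) (P2 := 1610612736) (W2 := 536870912) (P3 := 134217728) (W3 := 67108864)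
    rfl (fun _ => rfl) k0_pp_113

noncomputable def f_pp_123 : ℕ → ℕ → ℕ → ℕ → Bool := onCell 1073741824 536870912 1610612736 536870912 134217728 67108864
    (rowF 2 false true true .npn 1 2 3 (qsf 536870912 536870912 1610612736 536870912 2) ndF4q1 ndF2q3 pcF2 Cut.none Ext.none)

def k0_pp_123 : ∃ t, chk3 f_pp_123 t 1 1 1 = true :=
  ⟨(a (b (a (l 17763344) (l 17695744)) (a (l 17164024) (l 17129992))) (a (b (l 17543704) (l 17070824)) (b (l 1) (l 4)))), by decide +kernel⟩

theorem c_pp_123 : CertF 536870912 536870912 1610612736 536870912 134217728 67108864 false true true .npn 1 2 3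
    ndF4q1 ndF2q3 pcF2 Cut.none Ext.none :=
  certF2 (fam := false) (s1 := true) (s2 := true) (a := 1) (b := 2) (c := 3) (cn := .npn) (n1 := ndF4q1) (n2 := ndF2q3) (pc := pcF2) (cut := Cut.none) (xt := Ext.none) (P1 := 536870912) (W1 := 536870912) (P2 := 1610612736) (W2 := 536870912) (P3 := 134217728) (W3 := 67108864)
    rfl (fun _ => rfl) k0_pp_123

noncomputable def f_pp_133 : ℕ → ℕ → ℕ → ℕ → Bool := onCell 1610612736 536870912 1610612736 536870912 134217728 67108864
    (rowF 2 false true true .dn 1 3 3 (qsf 536870912 536870912 1610612736 536870912 3) ndF4q1 ndF2q3 pcF3 Cut.none Ext.none)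

def k0_pp_133 : ∃ t, chk3 f_pp_133 t 1 1 1 = true :=
  ⟨(a (b (l 1) (l 4)) (l 1)), by decide +kernel⟩

theorem c_pp_133 : CertF 536870912 536870912 1610612736 536870912 134217728 67108864 false true true .dn 1 3 3
    ndF4q1 ndF2q3 pcF3 Cut.none Ext.none :=
  certF2 (fam := false) (s1 := true) (s2 := true) (a := 1) (b := 3) (c := 3) (cn := .dn) (n1 := ndF4q1) (n2 := ndF2q3) (pc := pcF3) (cut := Cut.none) (xt := Ext.none) (P1 := 536870912) (W1 := 536870912) (P2 := 1610612736) (W2 := 536870912) (P3 := 134217728) (W3 := 67108864)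
    rfl (fun _ => rfl) k0_pp_133

noncomputable def f_pp_202_a : ℕ → ℕ → ℕ → ℕ → Bool := onCell 1073741824 536870912 0 536870912 134217728 67108864
    (rowF 0 false true true .pp 2 0 2 (qsf 1073741824 536870912 0 536870912 0) ndF4q2 ndF2q2a pcF0 Cut.none Ext.none)

def k0_pp_202_a : ∃ t, chk3 f_pp_202_a t 1 1 1 = true :=
  ⟨(l 3), by decide +kernel⟩

theorem c_pp_202_a : CertF 1073741824 536870912 0 536870912 134217728 67108864 false true true .pp 2 0 2
    ndF4q2 ndF2q2a pcF0 Cut.none Ext.none :=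
  certF0 (fam := false) (s1 := true) (s2 := true) (a := 2) (b := 0) (c := 2) (cn := .pp) (n1 := ndF4q2) (n2 := ndF2q2a) (pc := pcF0) (cut := Cut.none) (xt := Ext.none) (P1 := 1073741824) (W1 := 536870912) (P2 := 0) (W2 := 536870912) (P3 := 134217728) (W3 := 67108864)
    rfl k0_pp_202_a

noncomputable def f_pp_202_b : ℕ → ℕ → ℕ → ℕ → Bool := onCell 1073741824 536870912 1239849684 370763052 134217728 67108864
    (rowF 0 false true true .pp 2 0 2 (qsf 1073741824 536870912 1239849684 370763052 0) ndF4q2 ndF2q2b pcF0 Cut.none Ext.none)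

def k0_pp_202_b : ∃ t, chk3 f_pp_202_b t 1 1 1 = true :=
  ⟨(l 3), by decide +kernel⟩

theorem c_pp_202_b : CertF 1073741824 536870912 1239849684 370763052 134217728 67108864 false true true .pp 2 0 2
    ndF4q2 ndF2q2b pcF0 Cut.none Ext.none :=
  certF0 (fam := false) (s1 := true) (s2 := true) (a := 2) (b := 0) (c := 2) (cn := .pp) (n1 := ndF4q2) (n2 := ndF2q2b) (pc := pcF0) (cut := Cut.none) (xt := Ext.none) (P1 := 1073741824) (W1 := 536870912) (P2 := 1239849684) (W2 := 370763052) (P3 := 134217728) (W3 := 67108864)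
    rfl k0_pp_202_b

noncomputable def f_pp_203 : ℕ → ℕ → ℕ → ℕ → Bool := onCell 1073741824 536870912 0 536870912 134217728 67108864
    (rowF 1 false true true .up 2 0 3 (qsf 1073741824 536870912 1610612736 536870912 0) ndF4q2 ndF2q3 pcF0 Cut.none Ext.none)

def k0_pp_203 : ∃ t, chk3 f_pp_203 t 1 1 1 = true :=
  ⟨(a (l 3) (a (l 3) (l 3))), by decide +kernel⟩

theorem c_pp_203 : CertF 1073741824 536870912 1610612736 536870912 134217728 67108864 false true true .up 2 0 3
    ndF4q2 ndF2q3 pcF0 Cut.none Ext.none :=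
  certF1 (fam := false) (s1 := true) (s2 := true) (a := 2) (b := 0) (c := 3) (cn := .up) (n1 := ndF4q2) (n2 := ndF2q3) (pc := pcF0) (cut := Cut.none) (xt := Ext.none) (P1 := 1073741824) (W1 := 536870912) (P2 := 1610612736) (W2 := 536870912) (P3 := 134217728) (W3 := 67108864)
    rfl (fun _ => rfl) k0_pp_203

noncomputable def f_pp_213 : ℕ → ℕ → ℕ → ℕ → Bool := onCell 536870912 536870912 1610612736 536870912 134217728 67108864
    (rowF 2 false true true .pnn 2 1 3 (qsf 1073741824 536870912 1610612736 536870912 1) ndF4q2 ndF2q3 pcF1 Cut.none Ext.none)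

def k0_pp_213 : ∃ t, chk3 f_pp_213 t 1 1 1 = true :=
  ⟨(a (a (b (l 3) (b (l 17763400) (l 17757544))) (b (a (l 17954344) (l 17888352)) (b (l 17617320) (l 17391664)))) (a (b (l 17837312) (l 17467112)) (b (l 1) (l 427921364439)))), by decide +kernel⟩

theorem c_pp_213 : CertF 1073741824 536870912 1610612736 536870912 134217728 67108864 false true true .pnn 2 1 3
    ndF4q2 ndF2q3 pcF1 Cut.none Ext.none :=
  certF2 (fam := false) (s1 := true) (s2 := true) (a := 2) (b := 1) (c := 3) (cn := .pnn) (n1 := ndF4q2) (n2 := ndF2q3) (pc := pcF1) (cut := Cut.none) (xt := Ext.none) (P1 := 1073741824) (W1 := 536870912) (P2 := 1610612736) (W2 := 536870912) (P3 := 134217728) (W3 := 67108864)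
    rfl (fun _ => rfl) k0_pp_213

noncomputable def f_pp_303 : ℕ → ℕ → ℕ → ℕ → Bool := onCell 0 1230186008 1610612736 536870912 134217728 67108864
    (rowF 0 false true true .npn 3 0 3 (qsf 0 1230186008 1610612736 536870912 0) ndF4q3 ndF2q3 pcF0 Cut.none Ext.none)

def k0_pp_303 : ∃ t, chk3 f_pp_303 t 1 1 1 = true :=
  ⟨(a (l 3) (a (l 3) (b (l 3) (l 3)))), by decide +kernel⟩

theorem c_pp_303 : CertF 0 1230186008 1610612736 536870912 134217728 67108864 false true true .npn 3 0 3
    ndF4q3 ndF2q3 pcF0 Cut.none Ext.none :=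
  certF0 (fam := false) (s1 := true) (s2 := true) (a := 3) (b := 0) (c := 3) (cn := .npn) (n1 := ndF4q3) (n2 := ndF2q3) (pc := pcF0) (cut := Cut.none) (xt := Ext.none) (P1 := 0) (W1 := 1230186008) (P2 := 1610612736) (W2 := 536870912) (P3 := 134217728) (W3 := 67108864)
    rfl k0_pp_303

noncomputable def f_pp_313 : ℕ → ℕ → ℕ → ℕ → Bool := onCell 0 1230186008 1610612736 536870912 134217728 67108864
    (rowF 0 false true true .dn 3 1 3 (qsf 0 1230186008 1610612736 536870912 1) ndF4q3 ndF2q3 pcF1 Cut.none Ext.none)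

def k0_pp_313 : ∃ t, chk3 f_pp_313 t 1 1 1 = true :=
  ⟨(a (l 1) (a (l 1) (b (l 1) (l 3)))), by decide +kernel⟩

theorem c_pp_313 : CertF 0 1230186008 1610612736 536870912 134217728 67108864 false true true .dn 3 1 3
    ndF4q3 ndF2q3 pcF1 Cut.none Ext.none :=
  certF0 (fam := false) (s1 := true) (s2 := true) (a := 3) (b := 1) (c := 3) (cn := .dn) (n1 := ndF4q3) (n2 := ndF2q3) (pc := pcF1) (cut := Cut.none) (xt := Ext.none) (P1 := 0) (W1 := 1230186008) (P2 := 1610612736) (W2 := 536870912) (P3 := 134217728) (W3 := 67108864)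
    rfl k0_pp_313

noncomputable def f_pm_001 : ℕ → ℕ → ℕ → ℕ → Bool := onCell 0 536870912 536870912 536870912 134217728 67108864
    (rowF 0 false true false .up 0 0 1 (qsf 0 536870912 536870912 536870912 0) ndF4q0 ndF2q1 pcF0 Cut.none Ext.none)

def k0_pm_001 : ∃ t, chk3 f_pm_001 t 1 1 1 = true :=
  ⟨(l 4), by decide +kernel⟩

theorem c_pm_001 : CertF 0 536870912 536870912 536870912 134217728 67108864 false true false .up 0 0 1
    ndF4q0 ndF2q1 pcF0 Cut.none Ext.none :=
  certF0 (fam := false) (s1 := true) (s2 := false) (a := 0) (b := 0) (c := 1) (cn := .up) (n1 := ndF4q0) (n2 := ndF2q1) (pc := pcF0) (cut := Cut.none) (xt := Ext.none) (P1 := 0) (W1 := 536870912) (P2 := 536870912) (W2 := 536870912) (P3 := 134217728) (W3 := 67108864)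
    rfl k0_pm_001

noncomputable def f_pm_011 : ℕ → ℕ → ℕ → ℕ → Bool := onCell 0 536870912 536870912 536870912 134217728 67108864
    (rowF 0 false true false .pnn 0 1 1 (qsf 0 536870912 536870912 536870912 1) ndF4q0 ndF2q1 pcF1 Cut.none Ext.none)

def k0_pm_011 : ∃ t, chk3 f_pm_011 t 1 1 1 = true :=
  ⟨(l 4), by decide +kernel⟩

theorem c_pm_011 : CertF 0 536870912 536870912 536870912 134217728 67108864 false true false .pnn 0 1 1
    ndF4q0 ndF2q1 pcF1 Cut.none Ext.none :=
  certF0 (fam := false) (s1 := true) (s2 := false) (a := 0) (b := 1) (c := 1) (cn := .pnn) (n1 := ndF4q0) (n2 := ndF2q1) (pc := pcF1) (cut := Cut.none) (xt := Ext.none) (P1 := 0) (W1 := 536870912) (P2 := 536870912) (W2 := 536870912) (P3 := 134217728) (W3 := 67108864)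
    rfl k0_pm_011

noncomputable def f_pm_012_a : ℕ → ℕ → ℕ → ℕ → Bool := onCell 0 536870912 0 536870912 134217728 67108864
    (rowF 0 false true false .pnp 0 1 2 (qsf 0 536870912 0 536870912 1) ndF4q0 ndF2q2a pcF1 Cut.none Ext.none)

def k0_pm_012_a : ∃ t, chk3 f_pm_012_a t 1 1 1 = true :=
  ⟨(l 4), by decide +kernel⟩

theorem c_pm_012_a : CertF 0 536870912 0 536870912 134217728 67108864 false true false .pnp 0 1 2
    ndF4q0 ndF2q2a pcF1 Cut.none Ext.none :=
  certF0 (fam := false) (s1 := true) (s2 := false) (a := 0) (b := 1) (c := 2) (cn := .pnp) (n1 := ndF4q0) (n2 := ndF2q2a) (pc := pcF1) (cut := Cut.none) (xt := Ext.none) (P1 := 0) (W1 := 536870912) (P2 := 0) (W2 := 536870912) (P3 := 134217728) (W3 := 67108864)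
    rfl k0_pm_012_a

noncomputable def f_pm_012_b : ℕ → ℕ → ℕ → ℕ → Bool := onCell 0 536870912 1239849684 370763052 134217728 67108864
    (rowF 0 false true false .pnp 0 1 2 (qsf 0 536870912 1239849684 370763052 1) ndF4q0 ndF2q2b pcF1 Cut.none Ext.none)

def k0_pm_012_b : ∃ t, chk3 f_pm_012_b t 1 1 1 = true :=
  ⟨(l 4), by decide +kernel⟩

theorem c_pm_012_b : CertF 0 536870912 1239849684 370763052 134217728 67108864 false true false .pnp 0 1 2
    ndF4q0 ndF2q2b pcF1 Cut.none Ext.none :=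
  certF0 (fam := false) (s1 := true) (s2 := false) (a := 0) (b := 1) (c := 2) (cn := .pnp) (n1 := ndF4q0) (n2 := ndF2q2b) (pc := pcF1) (cut := Cut.none) (xt := Ext.none) (P1 := 0) (W1 := 536870912) (P2 := 1239849684) (W2 := 370763052) (P3 := 134217728) (W3 := 67108864)
    rfl k0_pm_012_b

noncomputable def f_pm_022_a : ℕ → ℕ → ℕ → ℕ → Bool := onCell 0 536870912 0 536870912 134217728 67108864
    (rowF 0 false true false .pp 0 2 2 (qsf 0 536870912 0 536870912 2) ndF4q0 ndF2q2a pcF2 Cut.none Ext.none)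

def k0_pm_022_a : ∃ t, chk3 f_pm_022_a t 1 1 1 = true :=
  ⟨(l 4), by decide +kernel⟩

theorem c_pm_022_a : CertF 0 536870912 0 536870912 134217728 67108864 false true false .pp 0 2 2
    ndF4q0 ndF2q2a pcF2 Cut.none Ext.none :=
  certF0 (fam := false) (s1 := true) (s2 := false) (a := 0) (b := 2) (c := 2) (cn := .pp) (n1 := ndF4q0) (n2 := ndF2q2a) (pc := pcF2) (cut := Cut.none) (xt := Ext.none) (P1 := 0) (W1 := 536870912) (P2 := 0) (W2 := 536870912) (P3 := 134217728) (W3 := 67108864)
    rfl k0_pm_022_a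

noncomputable def f_pm_022_b : ℕ → ℕ → ℕ → ℕ → Bool := onCell 0 536870912 1239849684 370763052 134217728 67108864
    (rowF 0 false true false .pp 0 2 2 (qsf 0 536870912 1239849684 370763052 2) ndF4q0 ndF2q2b pcF2 Cut.none Ext.none)

def k0_pm_022_b : ∃ t, chk3 f_pm_022_b t 1 1 1 = true :=
  ⟨(l 4), by decide +kernel⟩

theorem c_pm_022_b : CertF 0 536870912 1239849684 370763052 134217728 67108864 false true false .pp 0 2 2
    ndF4q0 ndF2q2b pcF2 Cut.none Ext.none :=
  certF0 (fam := false) (s1 := true) (s2 := false) (a := 0) (b := 2) (c := 2) (cn := .pp) (n1 := ndF4q0) (n2 := ndF2q2b) (pc := pcF2) (cut := Cut.none) (xt := Ext.none) (P1 := 0) (W1 := 536870912) (P2 := 1239849684) (W2 := 370763052) (P3 := 134217728) (W3 := 67108864)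
    rfl k0_pm_022_b

noncomputable def f_pm_023 : ℕ → ℕ → ℕ → ℕ → Bool := onCell 0 536870912 1610612736 536870912 134217728 67108864
    (rowF 0 false true false .up 0 2 3 (qsf 0 536870912 1610612736 536870912 2) ndF4q0 ndF2q3 pcF2 Cut.none Ext.none)

def k0_pm_023 : ∃ t, chk3 f_pm_023 t 1 1 1 = true :=
  ⟨(l 4), by decide +kernel⟩

theorem c_pm_023 : CertF 0 536870912 1610612736 536870912 134217728 67108864 false true false .up 0 2 3
    ndF4q0 ndF2q3 pcF2 Cut.none Ext.none :=
  certF0 (fam := false) (s1 := true) (s2 := false) (a := 0) (b := 2) (c := 3) (cn := .up) (n1 := ndF4q0) (n2 := ndF2q3) (pc := pcF2) (cut := Cut.none) (xt := Ext.none) (P1 := 0) (W1 := 536870912) (P2 := 1610612736) (W2 := 536870912) (P3 := 134217728) (W3 := 67108864)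
    rfl k0_pm_023

noncomputable def f_pm_033 : ℕ → ℕ → ℕ → ℕ → Bool := onCell 0 536870912 1610612736 536870912 134217728 67108864
    (rowF 0 false true false .pnn 0 3 3 (qsf 0 536870912 1610612736 536870912 3) ndF4q0 ndF2q3 pcF3 Cut.none Ext.none)

def k0_pm_033 : ∃ t, chk3 f_pm_033 t 1 1 1 = true :=
  ⟨(l 4), by decide +kernel⟩

theorem c_pm_033 : CertF 0 536870912 1610612736 536870912 134217728 67108864 false true false .pnn 0 3 3
    ndF4q0 ndF2q3 pcF3 Cut.none Ext.none :=
  certF0 (fam := false) (s1 := true) (s2 := false) (a := 0) (b := 3) (c := 3) (cn := .pnn) (n1 := ndF4q0) (n2 := ndF2q3) (pc := pcF3) (cut := Cut.none) (xt := Ext.none) (P1 := 0) (W1 := 536870912) (P2 := 1610612736) (W2 := 536870912) (P3 := 134217728) (W3 := 67108864)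
    rfl k0_pm_033

noncomputable def f_pm_101 : ℕ → ℕ → ℕ → ℕ → Bool := onCell 536870912 536870912 536870912 536870912 134217728 67108864
    (rowF 0 false true false .npn 1 0 1 (qsf 536870912 536870912 536870912 536870912 0) ndF4q1 ndF2q1 pcF0 Cut.none Ext.none)

def k0_pm_101 : ∃ t, chk3 f_pm_101 t 1 1 1 = true :=
  ⟨(l 4), by decide +kernel⟩

theorem c_pm_101 : CertF 536870912 536870912 536870912 536870912 134217728 67108864 false true false .npn 1 0 1
    ndF4q1 ndF2q1 pcF0 Cut.none Ext.none :=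
  certF0 (fam := false) (s1 := true) (s2 := false) (a := 1) (b := 0) (c := 1) (cn := .npn) (n1 := ndF4q1) (n2 := ndF2q1) (pc := pcF0) (cut := Cut.none) (xt := Ext.none) (P1 := 536870912) (W1 := 536870912) (P2 := 536870912) (W2 := 536870912) (P3 := 134217728) (W3 := 67108864)
    rfl k0_pm_101

noncomputable def f_pm_102_a : ℕ → ℕ → ℕ → ℕ → Bool := onCell 536870912 536870912 0 536870912 134217728 67108864
    (rowF 0 false true false .npp 1 0 2 (qsf 536870912 536870912 0 536870912 0) ndF4q1 ndF2q2a pcF0 Cut.none Ext.none)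

def k0_pm_102_a : ∃ t, chk3 f_pm_102_a t 1 1 1 = true :=
  ⟨(l 4), by decide +kernel⟩

theorem c_pm_102_a : CertF 536870912 536870912 0 536870912 134217728 67108864 false true false .npp 1 0 2
    ndF4q1 ndF2q2a pcF0 Cut.none Ext.none :=
  certF0 (fam := false) (s1 := true) (s2 := false) (a := 1) (b := 0) (c := 2) (cn := .npp) (n1 := ndF4q1) (n2 := ndF2q2a) (pc := pcF0) (cut := Cut.none) (xt := Ext.none) (P1 := 536870912) (W1 := 536870912) (P2 := 0) (W2 := 536870912) (P3 := 134217728) (W3 := 67108864)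
    rfl k0_pm_102_a

noncomputable def f_pm_102_b : ℕ → ℕ → ℕ → ℕ → Bool := onCell 536870912 536870912 1239849684 370763052 134217728 67108864
    (rowF 0 false true false .npp 1 0 2 (qsf 536870912 536870912 1239849684 370763052 0) ndF4q1 ndF2q2b pcF0 Cut.none Ext.none)

def k0_pm_102_b : ∃ t, chk3 f_pm_102_b t 1 1 1 = true :=
  ⟨(l 4), by decide +kernel⟩

theorem c_pm_102_b : CertF 536870912 536870912 1239849684 370763052 134217728 67108864 false true false .npp 1 0 2
    ndF4q1 ndF2q2b pcF0 Cut.none Ext.none :=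
  certF0 (fam := false) (s1 := true) (s2 := false) (a := 1) (b := 0) (c := 2) (cn := .npp) (n1 := ndF4q1) (n2 := ndF2q2b) (pc := pcF0) (cut := Cut.none) (xt := Ext.none) (P1 := 536870912) (W1 := 536870912) (P2 := 1239849684) (W2 := 370763052) (P3 := 134217728) (W3 := 67108864)
    rfl k0_pm_102_b

noncomputable def f_pm_112_a : ℕ → ℕ → ℕ → ℕ → Bool := onCell 536870912 536870912 0 536870912 134217728 67108864
    (rowF 0 false true false .dn 1 1 2 (qsf 536870912 536870912 0 536870912 1) ndF4q1 ndF2q2a pcF1 Cut.none Ext.none)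

def k0_pm_112_a : ∃ t, chk3 f_pm_112_a t 1 1 1 = true :=
  ⟨(l 4), by decide +kernel⟩

theorem c_pm_112_a : CertF 536870912 536870912 0 536870912 134217728 67108864 false true false .dn 1 1 2
    ndF4q1 ndF2q2a pcF1 Cut.none Ext.none :=
  certF0 (fam := false) (s1 := true) (s2 := false) (a := 1) (b := 1) (c := 2) (cn := .dn) (n1 := ndF4q1) (n2 := ndF2q2a) (pc := pcF1) (cut := Cut.none) (xt := Ext.none) (P1 := 536870912) (W1 := 536870912) (P2 := 0) (W2 := 536870912) (P3 := 134217728) (W3 := 67108864)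
    rfl k0_pm_112_a

noncomputable def f_pm_112_b : ℕ → ℕ → ℕ → ℕ → Bool := onCell 536870912 536870912 1239849684 370763052 134217728 67108864
    (rowF 0 false true false .dn 1 1 2 (qsf 536870912 536870912 1239849684 370763052 1) ndF4q1 ndF2q2b pcF1 Cut.none Ext.none)

def k0_pm_112_b : ∃ t, chk3 f_pm_112_b t 1 1 1 = true :=
  ⟨(l 4), by decide +kernel⟩

theorem c_pm_112_b : CertF 536870912 536870912 1239849684 370763052 134217728 67108864 false true false .dn 1 1 2
    ndF4q1 ndF2q2b pcF1 Cut.none Ext.none :=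
  certF0 (fam := false) (s1 := true) (s2 := false) (a := 1) (b := 1) (c := 2) (cn := .dn) (n1 := ndF4q1) (n2 := ndF2q2b) (pc := pcF1) (cut := Cut.none) (xt := Ext.none) (P1 := 536870912) (W1 := 536870912) (P2 := 1239849684) (W2 := 370763052) (P3 := 134217728) (W3 := 67108864)
    rfl k0_pm_112_b

noncomputable def f_pm_113 : ℕ → ℕ → ℕ → ℕ → Bool := onCell 536870912 536870912 536870912 536870912 134217728 67108864
    (rowF 1 false true false .nn 1 1 3 (qsf 536870912 536870912 1610612736 536870912 1) ndF4q1 ndF2q3 pcF1 Cut.none Ext.none)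

def k0_pm_113 : ∃ t, chk3 f_pm_113 t 1 1 1 = true :=
  ⟨(b (l 4) (b (l 4) (b (l 4) (l 174183342055)))), by decide +kernel⟩

theorem c_pm_113 : CertF 536870912 536870912 1610612736 536870912 134217728 67108864 false true false .nn 1 1 3
    ndF4q1 ndF2q3 pcF1 Cut.none Ext.none :=
  certF1 (fam := false) (s1 := true) (s2 := false) (a := 1) (b := 1) (c := 3) (cn := .nn) (n1 := ndF4q1) (n2 := ndF2q3) (pc := pcF1) (cut := Cut.none) (xt := Ext.none) (P1 := 536870912) (W1 := 536870912) (P2 := 1610612736) (W2 := 536870912) (P3 := 134217728) (W3 := 67108864)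
    rfl (fun _ => rfl) k0_pm_113

noncomputable def f_pm_123 : ℕ → ℕ → ℕ → ℕ → Bool := onCell 1073741824 536870912 1610612736 536870912 134217728 67108864
    (rowF 2 false true false .npn 1 2 3 (qsf 536870912 536870912 1610612736 536870912 2) ndF4q1 ndF2q3 pcF2 Cut.none Ext.none)

def k0_pm_123 : ∃ t, chk3 f_pm_123 t 1 1 1 = true :=
  ⟨(a (b (l 4) (a (l 17405960) (l 4))) (l 4)), by decide +kernel⟩

theorem c_pm_123 : CertF 536870912 536870912 1610612736 536870912 134217728 67108864 false true false .npn 1 2 3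
    ndF4q1 ndF2q3 pcF2 Cut.none Ext.none :=
  certF2 (fam := false) (s1 := true) (s2 := false) (a := 1) (b := 2) (c := 3) (cn := .npn) (n1 := ndF4q1) (n2 := ndF2q3) (pc := pcF2) (cut := Cut.none) (xt := Ext.none) (P1 := 536870912) (W1 := 536870912) (P2 := 1610612736) (W2 := 536870912) (P3 := 134217728) (W3 := 67108864)
    rfl (fun _ => rfl) k0_pm_123

noncomputable def f_pm_133 : ℕ → ℕ → ℕ → ℕ → Bool := onCell 536870912 536870912 1610612736 536870912 134217728 67108864
    (rowF 0 false true false .dn 1 3 3 (qsf 536870912 536870912 1610612736 536870912 3) ndF4q1 ndF2q3 pcF3 Cut.none Ext.none)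

def k0_pm_133 : ∃ t, chk3 f_pm_133 t 1 1 1 = true :=
  ⟨(a (l 4) (l 1)), by decide +kernel⟩

theorem c_pm_133 : CertF 536870912 536870912 1610612736 536870912 134217728 67108864 false true false .dn 1 3 3
    ndF4q1 ndF2q3 pcF3 Cut.none Ext.none :=
  certF0 (fam := false) (s1 := true) (s2 := false) (a := 1) (b := 3) (c := 3) (cn := .dn) (n1 := ndF4q1) (n2 := ndF2q3) (pc := pcF3) (cut := Cut.none) (xt := Ext.none) (P1 := 536870912) (W1 := 536870912) (P2 := 1610612736) (W2 := 536870912) (P3 := 134217728) (W3 := 67108864)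
    rfl k0_pm_133

noncomputable def f_pm_202_a : ℕ → ℕ → ℕ → ℕ → Bool := onCell 0 536870912 0 536870912 134217728 67108864
    (rowF 2 false true false .pp 2 0 2 (qsf 1073741824 536870912 0 536870912 0) ndF4q2 ndF2q2a pcF0 Cut.none Ext.none)

def k0_pm_202_a : ∃ t, chk3 f_pm_202_a t 1 1 1 = true :=
  ⟨(a (b (l 18469808) (a (l 18623824) (l 19226152))) (l 1)), by decide +kernel⟩

theorem c_pm_202_a : CertF 1073741824 536870912 0 536870912 134217728 67108864 false true false .pp 2 0 2
    ndF4q2 ndF2q2a pcF0 Cut.none Ext.none :=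
  certF2 (fam := false) (s1 := true) (s2 := false) (a := 2) (b := 0) (c := 2) (cn := .pp) (n1 := ndF4q2) (n2 := ndF2q2a) (pc := pcF0) (cut := Cut.none) (xt := Ext.none) (P1 := 1073741824) (W1 := 536870912) (P2 := 0) (W2 := 536870912) (P3 := 134217728) (W3 := 67108864)
    rfl (fun _ => rfl) k0_pm_202_a

noncomputable def f_pm_202_b : ℕ → ℕ → ℕ → ℕ → Bool := onCell 0 536870912 1239849684 370763052 134217728 67108864
    (rowF 2 false true false .pp 2 0 2 (qsf 1073741824 536870912 1239849684 370763052 0) ndF4q2 ndF2q2b pcF0 Cut.none Ext.none)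

def k0_pm_202_b : ∃ t, chk3 f_pm_202_b t 1 1 1 = true :=
  ⟨(a (b (a (b (l 18042224) (l 17777864)) (l 18269872)) (a (l 18006256) (l 18229448))) (a (b (l 18600520) (l 18285208)) (b (l 1) (l 18386064)))), by decide +kernel⟩

theorem c_pm_202_b : CertF 1073741824 536870912 1239849684 370763052 134217728 67108864 false true false .pp 2 0 2
    ndF4q2 ndF2q2b pcF0 Cut.none Ext.none :=
  certF2 (fam := false) (s1 := true) (s2 := false) (a := 2) (b := 0) (c := 2) (cn := .pp) (n1 := ndF4q2) (n2 := ndF2q2b) (pc := pcF0) (cut := Cut.none) (xt := Ext.none) (P1 := 1073741824) (W1 := 536870912) (P2 := 1239849684) (W2 := 370763052) (P3 := 134217728) (W3 := 67108864)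
    rfl (fun _ => rfl) k0_pm_202_b

noncomputable def f_pm_203 : ℕ → ℕ → ℕ → ℕ → Bool := onCell 0 536870912 1610612736 536870912 134217728 67108864
    (rowF 2 false true false .up 2 0 3 (qsf 1073741824 536870912 1610612736 536870912 0) ndF4q2 ndF2q3 pcF0 Cut.none Ext.none)

def k0_pm_203 : ∃ t, chk3 f_pm_203 t 1 1 1 = true :=
  ⟨(a (b (b (a (b (l 18424792) (l 18256296)) (b (l 18283584) (l 18426440))) (b (a (l 376450742919) (l 18433856)) (l 379671847367))) (b (a (l 2) (l 18007728)) (l 2))) (b (b (b (l 18479936) (l 18553008)) (a (l 18370976) (l 18459000))) (a (b (l 18102008) (l 778565889063)) (b (l 18152200) (l 17913832))))), by decide +kernel⟩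

theorem c_pm_203 : CertF 1073741824 536870912 1610612736 536870912 134217728 67108864 false true false .up 2 0 3
    ndF4q2 ndF2q3 pcF0 Cut.none Ext.none :=
  certF2 (fam := false) (s1 := true) (s2 := false) (a := 2) (b := 0) (c := 3) (cn := .up) (n1 := ndF4q2) (n2 := ndF2q3) (pc := pcF0) (cut := Cut.none) (xt := Ext.none) (P1 := 1073741824) (W1 := 536870912) (P2 := 1610612736) (W2 := 536870912) (P3 := 134217728) (W3 := 67108864)
    rfl (fun _ => rfl) k0_pm_203

noncomputable def f_pm_213 : ℕ → ℕ → ℕ → ℕ → Bool := onCell 536870912 536870912 1610612736 536870912 134217728 67108864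
    (rowF 2 false true false .pnn 2 1 3 (qsf 1073741824 536870912 1610612736 536870912 1) ndF4q2 ndF2q3 pcF1 Cut.none Ext.none)

def k0_pm_213 : ∃ t, chk3 f_pm_213 t 1 1 1 = true :=
  ⟨(a (b (a (b (l 17765304) (l 17570816)) (b (l 17939992) (l 17601280))) (a (a (l 17551584) (l 17392792)) (b (l 17456120) (l 17286608)))) (b (a (a (b (l 1) (l 17576112)) (l 1)) (l 1)) (a (b (l 17389264) (l 17246032)) (b (l 17211984) (l 17143888))))), by decide +kernel⟩

theorem c_pm_213 : CertF 1073741824 536870912 1610612736 536870912 134217728 67108864 false true false .pnn 2 1 3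
    ndF4q2 ndF2q3 pcF1 Cut.none Ext.none :=
  certF2 (fam := false) (s1 := true) (s2 := false) (a := 2) (b := 1) (c := 3) (cn := .pnn) (n1 := ndF4q2) (n2 := ndF2q3) (pc := pcF1) (cut := Cut.none) (xt := Ext.none) (P1 := 1073741824) (W1 := 536870912) (P2 := 1610612736) (W2 := 536870912) (P3 := 134217728) (W3 := 67108864)
    rfl (fun _ => rfl) k0_pm_213

noncomputable def f_pm_303 : ℕ → ℕ → ℕ → ℕ → Bool := onCell 0 1230186008 1610612736 536870912 134217728 67108864
    (rowF 0 false true false .npn 3 0 3 (qsf 0 1230186008 1610612736 536870912 0) ndF4q3 ndF2q3 pcF0 Cut.none Ext.none)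

def k0_pm_303 : ∃ t, chk3 f_pm_303 t 1 1 1 = true :=
  ⟨(a (l 3) (a (b (b (l 1) (l 3)) (l 3)) (b (a (b (l 1) (b (a (l 3) (l 17811064)) (l 17720368))) (b (a (l 17673592) (b (l 17626368) (l 17758120))) (b (l 17950056) (l 17695648)))) (a (b (l 3) (l 3)) (b (a (l 17447464) (l 17406408)) (a (l 3) (l 196663597383))))))), by decide +kernel⟩

theorem c_pm_303 : CertF 0 1230186008 1610612736 536870912 134217728 67108864 false true false .npn 3 0 3
    ndF4q3 ndF2q3 pcF0 Cut.none Ext.none :=
  certF0 (fam := false) (s1 := true) (s2 := false) (a := 3) (b := 0) (c := 3) (cn := .npn) (n1 := ndF4q3) (n2 := ndF2q3) (pc := pcF0) (cut := Cut.none) (xt := Ext.none) (P1 := 0) (W1 := 1230186008) (P2 := 1610612736) (W2 := 536870912) (P3 := 134217728) (W3 := 67108864)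
    rfl k0_pm_303

noncomputable def f_pm_313 : ℕ → ℕ → ℕ → ℕ → Bool := onCell 0 1230186008 1610612736 536870912 134217728 67108864
    (rowF 0 false true false .dn 3 1 3 (qsf 0 1230186008 1610612736 536870912 1) ndF4q3 ndF2q3 pcF1 Cut.none Ext.none)

def k0_pm_313 : ∃ t, chk3 f_pm_313 t 1 1 1 = true :=
  ⟨(a (l 1) (a (l 1) (b (l 1) (b (l 1) (b (l 1) (b (l 1) (l 3))))))), by decide +kernel⟩

theorem c_pm_313 : CertF 0 1230186008 1610612736 536870912 134217728 67108864 false true false .dn 3 1 3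
    ndF4q3 ndF2q3 pcF1 Cut.none Ext.none :=
  certF0 (fam := false) (s1 := true) (s2 := false) (a := 3) (b := 1) (c := 3) (cn := .dn) (n1 := ndF4q3) (n2 := ndF2q3) (pc := pcF1) (cut := Cut.none) (xt := Ext.none) (P1 := 0) (W1 := 1230186008) (P2 := 1610612736) (W2 := 536870912) (P3 := 134217728) (W3 := 67108864)
    rfl k0_pm_313

noncomputable def f_mm_001 : ℕ → ℕ → ℕ → ℕ → Bool := onCell 0 536870912 536870912 536870912 134217728 67108864
    (rowF 0 false false false .up 0 0 1 (qsf 0 536870912 536870912 536870912 0) ndF4q0 ndF2q1 pcF0 Cut.none Ext.none)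

def k0_mm_001 : ∃ t, chk3 f_mm_001 t 1 1 1 = true :=
  ⟨(l 3), by decide +kernel⟩

theorem c_mm_001 : CertF 0 536870912 536870912 536870912 134217728 67108864 false false false .up 0 0 1
    ndF4q0 ndF2q1 pcF0 Cut.none Ext.none :=
  certF0 (fam := false) (s1 := false) (s2 := false) (a := 0) (b := 0) (c := 1) (cn := .up) (n1 := ndF4q0) (n2 := ndF2q1) (pc := pcF0) (cut := Cut.none) (xt := Ext.none) (P1 := 0) (W1 := 536870912) (P2 := 536870912) (W2 := 536870912) (P3 := 134217728) (W3 := 67108864)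
    rfl k0_mm_001

noncomputable def f_mm_011 : ℕ → ℕ → ℕ → ℕ → Bool := onCell 0 536870912 536870912 536870912 134217728 67108864
    (rowF 0 false false false .pnn 0 1 1 (qsf 0 536870912 536870912 536870912 1) ndF4q0 ndF2q1 pcF1 Cut.none Ext.none)

def k0_mm_011 : ∃ t, chk3 f_mm_011 t 1 1 1 = true :=
  ⟨(l 3), by decide +kernel⟩

theorem c_mm_011 : CertF 0 536870912 536870912 536870912 134217728 67108864 false false false .pnn 0 1 1
    ndF4q0 ndF2q1 pcF1 Cut.none Ext.none :=
  certF0 (fam := false) (s1 := false) (s2 := false) (a := 0) (b := 1) (c := 1) (cn := .pnn) (n1 := ndF4q0) (n2 := ndF2q1) (pc := pcF1) (cut := Cut.none) (xt := Ext.none) (P1 := 0) (W1 := 536870912) (P2 := 536870912) (W2 := 536870912) (P3 := 134217728) (W3 := 67108864)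
    rfl k0_mm_011

noncomputable def f_mm_012_a : ℕ → ℕ → ℕ → ℕ → Bool := onCell 0 536870912 0 536870912 134217728 67108864
    (rowF 0 false false false .pnp 0 1 2 (qsf 0 536870912 0 536870912 1) ndF4q0 ndF2q2a pcF1 Cut.none Ext.none)

def k0_mm_012_a : ∃ t, chk3 f_mm_012_a t 1 1 1 = true :=
  ⟨(l 5), by decide +kernel⟩

theorem c_mm_012_a : CertF 0 536870912 0 536870912 134217728 67108864 false false false .pnp 0 1 2
    ndF4q0 ndF2q2a pcF1 Cut.none Ext.none :=
  certF0 (fam := false) (s1 := false) (s2 := false) (a := 0) (b := 1) (c := 2) (cn := .pnp) (n1 := ndF4q0) (n2 := ndF2q2a) (pc := pcF1) (cut := Cut.none) (xt := Ext.none) (P1 := 0) (W1 := 536870912) (P2 := 0) (W2 := 536870912) (P3 := 134217728) (W3 := 67108864)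
    rfl k0_mm_012_a

noncomputable def f_mm_012_b : ℕ → ℕ → ℕ → ℕ → Bool := onCell 0 536870912 1239849684 370763052 134217728 67108864
    (rowF 0 false false false .pnp 0 1 2 (qsf 0 536870912 1239849684 370763052 1) ndF4q0 ndF2q2b pcF1 Cut.none Ext.none)

def k0_mm_012_b : ∃ t, chk3 f_mm_012_b t 1 1 1 = true :=
  ⟨(l 5), by decide +kernel⟩

theorem c_mm_012_b : CertF 0 536870912 1239849684 370763052 134217728 67108864 false false false .pnp 0 1 2
    ndF4q0 ndF2q2b pcF1 Cut.none Ext.none :=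
  certF0 (fam := false) (s1 := false) (s2 := false) (a := 0) (b := 1) (c := 2) (cn := .pnp) (n1 := ndF4q0) (n2 := ndF2q2b) (pc := pcF1) (cut := Cut.none) (xt := Ext.none) (P1 := 0) (W1 := 536870912) (P2 := 1239849684) (W2 := 370763052) (P3 := 134217728) (W3 := 67108864)
    rfl k0_mm_012_b

noncomputable def f_mm_022_a : ℕ → ℕ → ℕ → ℕ → Bool := onCell 0 536870912 0 536870912 134217728 67108864
    (rowF 0 false false false .pp 0 2 2 (qsf 0 536870912 0 536870912 2) ndF4q0 ndF2q2a pcF2 Cut.none Ext.none)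

def k0_mm_022_a : ∃ t, chk3 f_mm_022_a t 1 1 1 = true :=
  ⟨(l 5), by decide +kernel⟩

theorem c_mm_022_a : CertF 0 536870912 0 536870912 134217728 67108864 false false false .pp 0 2 2
    ndF4q0 ndF2q2a pcF2 Cut.none Ext.none :=
  certF0 (fam := false) (s1 := false) (s2 := false) (a := 0) (b := 2) (c := 2) (cn := .pp) (n1 := ndF4q0) (n2 := ndF2q2a) (pc := pcF2) (cut := Cut.none) (xt := Ext.none) (P1 := 0) (W1 := 536870912) (P2 := 0) (W2 := 536870912) (P3 := 134217728) (W3 := 67108864)
    rfl k0_mm_022_a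

noncomputable def f_mm_022_b : ℕ → ℕ → ℕ → ℕ → Bool := onCell 0 536870912 1239849684 370763052 134217728 67108864
    (rowF 0 false false false .pp 0 2 2 (qsf 0 536870912 1239849684 370763052 2) ndF4q0 ndF2q2b pcF2 Cut.none Ext.none)

def k0_mm_022_b : ∃ t, chk3 f_mm_022_b t 1 1 1 = true :=
  ⟨(l 5), by decide +kernel⟩

theorem c_mm_022_b : CertF 0 536870912 1239849684 370763052 134217728 67108864 false false false .pp 0 2 2
    ndF4q0 ndF2q2b pcF2 Cut.none Ext.none :=
  certF0 (fam := false) (s1 := false) (s2 := false) (a := 0) (b := 2) (c := 2) (cn := .pp) (n1 := ndF4q0) (n2 := ndF2q2b) (pc := pcF2) (cut := Cut.none) (xt := Ext.none) (P1 := 0) (W1 := 536870912) (P2 := 1239849684) (W2 := 370763052) (P3 := 134217728) (W3 := 67108864)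
    rfl k0_mm_022_b

noncomputable def f_mm_023 : ℕ → ℕ → ℕ → ℕ → Bool := onCell 0 536870912 1610612736 536870912 134217728 67108864
    (rowF 0 false false false .up 0 2 3 (qsf 0 536870912 1610612736 536870912 2) ndF4q0 ndF2q3 pcF2 Cut.none Ext.none)

def k0_mm_023 : ∃ t, chk3 f_mm_023 t 1 1 1 = true :=
  ⟨(l 5), by decide +kernel⟩

theorem c_mm_023 : CertF 0 536870912 1610612736 536870912 134217728 67108864 false false false .up 0 2 3
    ndF4q0 ndF2q3 pcF2 Cut.none Ext.none :=
  certF0 (fam := false) (s1 := false) (s2 := false) (a := 0) (b := 2) (c := 3) (cn := .up) (n1 := ndF4q0) (n2 := ndF2q3) (pc := pcF2) (cut := Cut.none) (xt := Ext.none) (P1 := 0) (W1 := 536870912) (P2 := 1610612736) (W2 := 536870912) (P3 := 134217728) (W3 := 67108864)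
    rfl k0_mm_023

noncomputable def f_mm_033 : ℕ → ℕ → ℕ → ℕ → Bool := onCell 0 536870912 1610612736 536870912 134217728 67108864
    (rowF 0 false false false .pnn 0 3 3 (qsf 0 536870912 1610612736 536870912 3) ndF4q0 ndF2q3 pcF3 Cut.none Ext.none)

def k0_mm_033 : ∃ t, chk3 f_mm_033 t 1 1 1 = true :=
  ⟨(l 5), by decide +kernel⟩

theorem c_mm_033 : CertF 0 536870912 1610612736 536870912 134217728 67108864 false false false .pnn 0 3 3
    ndF4q0 ndF2q3 pcF3 Cut.none Ext.none :=
  certF0 (fam := false) (s1 := false) (s2 := false) (a := 0) (b := 3) (c := 3) (cn := .pnn) (n1 := ndF4q0) (n2 := ndF2q3) (pc := pcF3) (cut := Cut.none) (xt := Ext.none) (P1 := 0) (W1 := 536870912) (P2 := 1610612736) (W2 := 536870912) (P3 := 134217728) (W3 := 67108864)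
    rfl k0_mm_033

noncomputable def f_mm_101 : ℕ → ℕ → ℕ → ℕ → Bool := onCell 536870912 536870912 536870912 536870912 134217728 67108864
    (rowF 0 false false false .npn 1 0 1 (qsf 536870912 536870912 536870912 536870912 0) ndF4q1 ndF2q1 pcF0 Cut.none Ext.none)

def k0_mm_101 : ∃ t, chk3 f_mm_101 t 1 1 1 = true :=
  ⟨(l 3), by decide +kernel⟩

theorem c_mm_101 : CertF 536870912 536870912 536870912 536870912 134217728 67108864 false false false .npn 1 0 1
    ndF4q1 ndF2q1 pcF0 Cut.none Ext.none :=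
  certF0 (fam := false) (s1 := false) (s2 := false) (a := 1) (b := 0) (c := 1) (cn := .npn) (n1 := ndF4q1) (n2 := ndF2q1) (pc := pcF0) (cut := Cut.none) (xt := Ext.none) (P1 := 536870912) (W1 := 536870912) (P2 := 536870912) (W2 := 536870912) (P3 := 134217728) (W3 := 67108864)
    rfl k0_mm_101

noncomputable def f_mm_102_a : ℕ → ℕ → ℕ → ℕ → Bool := onCell 536870912 536870912 0 536870912 134217728 67108864
    (rowF 0 false false false .npp 1 0 2 (qsf 536870912 536870912 0 536870912 0) ndF4q1 ndF2q2a pcF0 Cut.none Ext.none)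

def k0_mm_102_a : ∃ t, chk3 f_mm_102_a t 1 1 1 = true :=
  ⟨(l 5), by decide +kernel⟩

theorem c_mm_102_a : CertF 536870912 536870912 0 536870912 134217728 67108864 false false false .npp 1 0 2
    ndF4q1 ndF2q2a pcF0 Cut.none Ext.none :=
  certF0 (fam := false) (s1 := false) (s2 := false) (a := 1) (b := 0) (c := 2) (cn := .npp) (n1 := ndF4q1) (n2 := ndF2q2a) (pc := pcF0) (cut := Cut.none) (xt := Ext.none) (P1 := 536870912) (W1 := 536870912) (P2 := 0) (W2 := 536870912) (P3 := 134217728) (W3 := 67108864)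
    rfl k0_mm_102_a

noncomputable def f_mm_102_b : ℕ → ℕ → ℕ → ℕ → Bool := onCell 536870912 536870912 1239849684 370763052 134217728 67108864
    (rowF 0 false false false .npp 1 0 2 (qsf 536870912 536870912 1239849684 370763052 0) ndF4q1 ndF2q2b pcF0 Cut.none Ext.none)

def k0_mm_102_b : ∃ t, chk3 f_mm_102_b t 1 1 1 = true :=
  ⟨(l 5), by decide +kernel⟩

theorem c_mm_102_b : CertF 536870912 536870912 1239849684 370763052 134217728 67108864 false false false .npp 1 0 2
    ndF4q1 ndF2q2b pcF0 Cut.none Ext.none :=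
  certF0 (fam := false) (s1 := false) (s2 := false) (a := 1) (b := 0) (c := 2) (cn := .npp) (n1 := ndF4q1) (n2 := ndF2q2b) (pc := pcF0) (cut := Cut.none) (xt := Ext.none) (P1 := 536870912) (W1 := 536870912) (P2 := 1239849684) (W2 := 370763052) (P3 := 134217728) (W3 := 67108864)
    rfl k0_mm_102_b

noncomputable def f_mm_112_a : ℕ → ℕ → ℕ → ℕ → Bool := onCell 536870912 536870912 0 536870912 134217728 67108864
    (rowF 0 false false false .dn 1 1 2 (qsf 536870912 536870912 0 536870912 1) ndF4q1 ndF2q2a pcF1 Cut.none Ext.none)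

def k0_mm_112_a : ∃ t, chk3 f_mm_112_a t 1 1 1 = true :=
  ⟨(l 5), by decide +kernel⟩

theorem c_mm_112_a : CertF 536870912 536870912 0 536870912 134217728 67108864 false false false .dn 1 1 2
    ndF4q1 ndF2q2a pcF1 Cut.none Ext.none :=
  certF0 (fam := false) (s1 := false) (s2 := false) (a := 1) (b := 1) (c := 2) (cn := .dn) (n1 := ndF4q1) (n2 := ndF2q2a) (pc := pcF1) (cut := Cut.none) (xt := Ext.none) (P1 := 536870912) (W1 := 536870912) (P2 := 0) (W2 := 536870912) (P3 := 134217728) (W3 := 67108864)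
    rfl k0_mm_112_a

noncomputable def f_mm_112_b : ℕ → ℕ → ℕ → ℕ → Bool := onCell 536870912 536870912 1239849684 370763052 134217728 67108864
    (rowF 0 false false false .dn 1 1 2 (qsf 536870912 536870912 1239849684 370763052 1) ndF4q1 ndF2q2b pcF1 Cut.none Ext.none)

def k0_mm_112_b : ∃ t, chk3 f_mm_112_b t 1 1 1 = true :=
  ⟨(l 5), by decide +kernel⟩

theorem c_mm_112_b : CertF 536870912 536870912 1239849684 370763052 134217728 67108864 false false false .dn 1 1 2
    ndF4q1 ndF2q2b pcF1 Cut.none Ext.none :=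
  certF0 (fam := false) (s1 := false) (s2 := false) (a := 1) (b := 1) (c := 2) (cn := .dn) (n1 := ndF4q1) (n2 := ndF2q2b) (pc := pcF1) (cut := Cut.none) (xt := Ext.none) (P1 := 536870912) (W1 := 536870912) (P2 := 1239849684) (W2 := 370763052) (P3 := 134217728) (W3 := 67108864)
    rfl k0_mm_112_b

noncomputable def f_mm_113 : ℕ → ℕ → ℕ → ℕ → Bool := onCell 536870912 536870912 1610612736 536870912 134217728 67108864
    (rowF 0 false false false .nn 1 1 3 (qsf 536870912 536870912 1610612736 536870912 1) ndF4q1 ndF2q3 pcF1 Cut.none Ext.none)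

def k0_mm_113 : ∃ t, chk3 f_mm_113 t 1 1 1 = true :=
  ⟨(l 5), by decide +kernel⟩

theorem c_mm_113 : CertF 536870912 536870912 1610612736 536870912 134217728 67108864 false false false .nn 1 1 3
    ndF4q1 ndF2q3 pcF1 Cut.none Ext.none :=
  certF0 (fam := false) (s1 := false) (s2 := false) (a := 1) (b := 1) (c := 3) (cn := .nn) (n1 := ndF4q1) (n2 := ndF2q3) (pc := pcF1) (cut := Cut.none) (xt := Ext.none) (P1 := 536870912) (W1 := 536870912) (P2 := 1610612736) (W2 := 536870912) (P3 := 134217728) (W3 := 67108864)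
    rfl k0_mm_113

noncomputable def f_mm_123 : ℕ → ℕ → ℕ → ℕ → Bool := onCell 536870912 536870912 1610612736 536870912 134217728 67108864
    (rowF 0 false false false .npn 1 2 3 (qsf 536870912 536870912 1610612736 536870912 2) ndF4q1 ndF2q3 pcF2 Cut.none Ext.none)

def k0_mm_123 : ∃ t, chk3 f_mm_123 t 1 1 1 = true :=
  ⟨(l 5), by decide +kernel⟩

theorem c_mm_123 : CertF 536870912 536870912 1610612736 536870912 134217728 67108864 false false false .npn 1 2 3
    ndF4q1 ndF2q3 pcF2 Cut.none Ext.none :=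
  certF0 (fam := false) (s1 := false) (s2 := false) (a := 1) (b := 2) (c := 3) (cn := .npn) (n1 := ndF4q1) (n2 := ndF2q3) (pc := pcF2) (cut := Cut.none) (xt := Ext.none) (P1 := 536870912) (W1 := 536870912) (P2 := 1610612736) (W2 := 536870912) (P3 := 134217728) (W3 := 67108864)
    rfl k0_mm_123

noncomputable def f_mm_133 : ℕ → ℕ → ℕ → ℕ → Bool := onCell 536870912 536870912 1610612736 536870912 134217728 67108864
    (rowF 0 false false false .dn 1 3 3 (qsf 536870912 536870912 1610612736 536870912 3) ndF4q1 ndF2q3 pcF3 Cut.none Ext.none)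

def k0_mm_133 : ∃ t, chk3 f_mm_133 t 1 1 1 = true :=
  ⟨(l 5), by decide +kernel⟩

theorem c_mm_133 : CertF 536870912 536870912 1610612736 536870912 134217728 67108864 false false false .dn 1 3 3
    ndF4q1 ndF2q3 pcF3 Cut.none Ext.none :=
  certF0 (fam := false) (s1 := false) (s2 := false) (a := 1) (b := 3) (c := 3) (cn := .dn) (n1 := ndF4q1) (n2 := ndF2q3) (pc := pcF3) (cut := Cut.none) (xt := Ext.none) (P1 := 536870912) (W1 := 536870912) (P2 := 1610612736) (W2 := 536870912) (P3 := 134217728) (W3 := 67108864)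
    rfl k0_mm_133

noncomputable def f_mm_202_a : ℕ → ℕ → ℕ → ℕ → Bool := onCell 1073741824 536870912 0 536870912 134217728 67108864
    (rowF 0 false false false .pp 2 0 2 (qsf 1073741824 536870912 0 536870912 0) ndF4q2 ndF2q2a pcF0 Cut.none Ext.none)

def k0_mm_202_a : ∃ t, chk3 f_mm_202_a t 1 1 1 = true :=
  ⟨(l 3), by decide +kernel⟩

theorem c_mm_202_a : CertF 1073741824 536870912 0 536870912 134217728 67108864 false false false .pp 2 0 2
    ndF4q2 ndF2q2a pcF0 Cut.none Ext.none :=
  certF0 (fam := false) (s1 := false) (s2 := false) (a := 2) (b := 0) (c := 2) (cn := .pp) (n1 := ndF4q2) (n2 := ndF2q2a) (pc := pcF0) (cut := Cut.none) (xt := Ext.none) (P1 := 1073741824) (W1 := 536870912) (P2 := 0) (W2 := 536870912) (P3 := 134217728) (W3 := 67108864)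
    rfl k0_mm_202_a

noncomputable def f_mm_202_b : ℕ → ℕ → ℕ → ℕ → Bool := onCell 1073741824 536870912 1239849684 370763052 134217728 67108864
    (rowF 0 false false false .pp 2 0 2 (qsf 1073741824 536870912 1239849684 370763052 0) ndF4q2 ndF2q2b pcF0 Cut.none Ext.none)

def k0_mm_202_b : ∃ t, chk3 f_mm_202_b t 1 1 1 = true :=
  ⟨(l 3), by decide +kernel⟩

theorem c_mm_202_b : CertF 1073741824 536870912 1239849684 370763052 134217728 67108864 false false false .pp 2 0 2
    ndF4q2 ndF2q2b pcF0 Cut.none Ext.none :=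
  certF0 (fam := false) (s1 := false) (s2 := false) (a := 2) (b := 0) (c := 2) (cn := .pp) (n1 := ndF4q2) (n2 := ndF2q2b) (pc := pcF0) (cut := Cut.none) (xt := Ext.none) (P1 := 1073741824) (W1 := 536870912) (P2 := 1239849684) (W2 := 370763052) (P3 := 134217728) (W3 := 67108864)
    rfl k0_mm_202_b

noncomputable def f_mm_203 : ℕ → ℕ → ℕ → ℕ → Bool := onCell 1073741824 536870912 1610612736 536870912 134217728 67108864
    (rowF 0 false false false .up 2 0 3 (qsf 1073741824 536870912 1610612736 536870912 0) ndF4q2 ndF2q3 pcF0 Cut.none Ext.none)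

def k0_mm_203 : ∃ t, chk3 f_mm_203 t 1 1 1 = true :=
  ⟨(l 5), by decide +kernel⟩

theorem c_mm_203 : CertF 1073741824 536870912 1610612736 536870912 134217728 67108864 false false false .up 2 0 3
    ndF4q2 ndF2q3 pcF0 Cut.none Ext.none :=
  certF0 (fam := false) (s1 := false) (s2 := false) (a := 2) (b := 0) (c := 3) (cn := .up) (n1 := ndF4q2) (n2 := ndF2q3) (pc := pcF0) (cut := Cut.none) (xt := Ext.none) (P1 := 1073741824) (W1 := 536870912) (P2 := 1610612736) (W2 := 536870912) (P3 := 134217728) (W3 := 67108864)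
    rfl k0_mm_203

noncomputable def f_mm_213 : ℕ → ℕ → ℕ → ℕ → Bool := onCell 1073741824 536870912 1610612736 536870912 134217728 67108864
    (rowF 0 false false false .pnn 2 1 3 (qsf 1073741824 536870912 1610612736 536870912 1) ndF4q2 ndF2q3 pcF1 Cut.none Ext.none)

def k0_mm_213 : ∃ t, chk3 f_mm_213 t 1 1 1 = true :=
  ⟨(l 5), by decide +kernel⟩

theorem c_mm_213 : CertF 1073741824 536870912 1610612736 536870912 134217728 67108864 false false false .pnn 2 1 3
    ndF4q2 ndF2q3 pcF1 Cut.none Ext.none :=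
  certF0 (fam := false) (s1 := false) (s2 := false) (a := 2) (b := 1) (c := 3) (cn := .pnn) (n1 := ndF4q2) (n2 := ndF2q3) (pc := pcF1) (cut := Cut.none) (xt := Ext.none) (P1 := 1073741824) (W1 := 536870912) (P2 := 1610612736) (W2 := 536870912) (P3 := 134217728) (W3 := 67108864)
    rfl k0_mm_213

noncomputable def f_mm_303 : ℕ → ℕ → ℕ → ℕ → Bool := onCell 0 1230186008 1610612736 536870912 134217728 67108864
    (rowF 0 false false false .npn 3 0 3 (qsf 0 1230186008 1610612736 536870912 0) ndF4q3 ndF2q3 pcF0 Cut.none Ext.none)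

def k0_mm_303 : ∃ t, chk3 f_mm_303 t 1 1 1 = true :=
  ⟨(a (l 3) (a (l 3) (l 5))), by decide +kernel⟩

theorem c_mm_303 : CertF 0 1230186008 1610612736 536870912 134217728 67108864 false false false .npn 3 0 3
    ndF4q3 ndF2q3 pcF0 Cut.none Ext.none :=
  certF0 (fam := false) (s1 := false) (s2 := false) (a := 3) (b := 0) (c := 3) (cn := .npn) (n1 := ndF4q3) (n2 := ndF2q3) (pc := pcF0) (cut := Cut.none) (xt := Ext.none) (P1 := 0) (W1 := 1230186008) (P2 := 1610612736) (W2 := 536870912) (P3 := 134217728) (W3 := 67108864)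
    rfl k0_mm_303

noncomputable def f_mm_313 : ℕ → ℕ → ℕ → ℕ → Bool := onCell 0 1230186008 1610612736 536870912 134217728 67108864
    (rowF 0 false false false .dn 3 1 3 (qsf 0 1230186008 1610612736 536870912 1) ndF4q3 ndF2q3 pcF1 Cut.none Ext.none)

def k0_mm_313 : ∃ t, chk3 f_mm_313 t 1 1 1 = true :=
  ⟨(a (l 1) (a (l 1) (l 5))), by decide +kernel⟩

theorem c_mm_313 : CertF 0 1230186008 1610612736 536870912 134217728 67108864 false false false .dn 3 1 3
    ndF4q3 ndF2q3 pcF1 Cut.none Ext.none :=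
  certF0 (fam := false) (s1 := false) (s2 := false) (a := 3) (b := 1) (c := 3) (cn := .dn) (n1 := ndF4q3) (n2 := ndF2q3) (pc := pcF1) (cut := Cut.none) (xt := Ext.none) (P1 := 0) (W1 := 1230186008) (P2 := 1610612736) (W2 := 536870912) (P3 := 134217728) (W3 := 67108864)
    rfl k0_mm_313

end Pool.Agent.Strip051.G.I1_8_3_16.Tab.C.FB42

namespace Pool.Agent.Strip051.G.I1_8_3_16.Tab.C.FB43

open Pool.Agent.Strip051.PB Pool.Agent.Strip051.PB.T
open Pool.Agent.Strip051.G.I1_8_3_16.Tab

noncomputable def f_pp_001 : ℕ → ℕ → ℕ → ℕ → Bool := onCell 0 536870912 536870912 536870912 134217728 67108864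
    (rowF 0 false true true .up 0 0 1 (qsf 0 536870912 536870912 536870912 0) ndF4q0 ndF3q1 pcF0 Cut.none Ext.none)

def k0_pp_001 : ∃ t, chk3 f_pp_001 t 1 1 1 = true :=
  ⟨(l 3), by decide +kernel⟩

theorem c_pp_001 : CertF 0 536870912 536870912 536870912 134217728 67108864 false true true .up 0 0 1
    ndF4q0 ndF3q1 pcF0 Cut.none Ext.none :=
  certF0 (fam := false) (s1 := true) (s2 := true) (a := 0) (b := 0) (c := 1) (cn := .up) (n1 := ndF4q0) (n2 := ndF3q1) (pc := pcF0) (cut := Cut.none) (xt := Ext.none) (P1 := 0) (W1 := 536870912) (P2 := 536870912) (W2 := 536870912) (P3 := 134217728) (W3 := 67108864)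
    rfl k0_pp_001

noncomputable def f_pp_011 : ℕ → ℕ → ℕ → ℕ → Bool := onCell 0 536870912 536870912 536870912 134217728 67108864
    (rowF 0 false true true .pnn 0 1 1 (qsf 0 536870912 536870912 536870912 1) ndF4q0 ndF3q1 pcF1 Cut.none Ext.none)

def k0_pp_011 : ∃ t, chk3 f_pp_011 t 1 1 1 = true :=
  ⟨(l 3), by decide +kernel⟩

theorem c_pp_011 : CertF 0 536870912 536870912 536870912 134217728 67108864 false true true .pnn 0 1 1
    ndF4q0 ndF3q1 pcF1 Cut.none Ext.none :=
  certF0 (fam := false) (s1 := true) (s2 := true) (a := 0) (b := 1) (c := 1) (cn := .pnn) (n1 := ndF4q0) (n2 := ndF3q1) (pc := pcF1) (cut := Cut.none) (xt := Ext.none) (P1 := 0) (W1 := 536870912) (P2 := 536870912) (W2 := 536870912) (P3 := 134217728) (W3 := 67108864)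
    rfl k0_pp_011

end Pool.Agent.Strip051.G.I1_8_3_16.Tab.C.FB43

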