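import Pool.Agent.Strip051.G.I1_8_3_16.Tab

/-! # Certificates F12 (generated) -/

set_option linter.all false
set_option maxRecDepth 100000

namespace Pool.Agent.Strip051.G.I1_8_3_16.Tab.C.FB43

open Pool.Agent.Strip051.PB Pool.Agent.Strip051.PB.T
open Pool.Agent.Strip051.G.I1_8_3_16.Tab

noncomputable def f_pp_012 : ℕ → ℕ → ℕ → ℕ → Bool := onCell 536870912 536870912 1073741824 536870912 134217728 67108864
    (rowF 2 false true true .pnp 0 1 2 (qsf 0 536870912 1073741824 536870912 1) ndF4q0 ndF3q2 pcF1 Cut.none Ext.none)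

def k0_pp_012 : ∃ t, chk3 f_pp_012 t 1 1 1 = true :=
  ⟨(a (b (a (b (b (l 182168976087) (b (b (l 17531872) (l 17523560)) (l 172438118663))) (b (b (l 202502976119) (l 2)) (l 2))) (b (b (l 17630896) (b (b (l 17621920) (l 17600544)) (l 17760128))) (b (b (b (l 17517472) (l 17490744)) (l 17428704)) (l 17309056)))) (a (l 2) (l 17139520))) (b (a (b (b (l 17782896) (b (b (l 17758304) (l 17731720)) (l 17842968))) (b (b (b (l 17635872) (l 17605704)) (l 17540168)) (l 17418192))) (b (b (l 17895584) (b (b (l 17869784) (l 17842344)) (l 17795216))) (b (b (b (l 17760112) (l 17733544)) (l 17675888)) (l 17576192)))) (a (l 17215424) (l 17442952)))), by decide +kernel⟩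

theorem c_pp_012 : CertF 0 536870912 1073741824 536870912 134217728 67108864 false true true .pnp 0 1 2
    ndF4q0 ndF3q2 pcF1 Cut.none Ext.none :=
  certF2 (fam := false) (s1 := true) (s2 := true) (a := 0) (b := 1) (c := 2) (cn := .pnp) (n1 := ndF4q0) (n2 := ndF3q2) (pc := pcF1) (cut := Cut.none) (xt := Ext.none) (P1 := 0) (W1 := 536870912) (P2 := 1073741824) (W2 := 536870912) (P3 := 134217728) (W3 := 67108864)
    rfl (fun _ => rfl) k0_pp_012

noncomputable def f_pp_022 : ℕ → ℕ → ℕ → ℕ → Bool := onCell 1073741824 536870912 1073741824 536870912 134217728 67108864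
    (rowF 2 false true true .pp 0 2 2 (qsf 0 536870912 1073741824 536870912 2) ndF4q0 ndF3q2 pcF2 Cut.none Ext.none)

def k0_pp_022 : ∃ t, chk3 f_pp_022 t 1 1 1 = true :=
  ⟨(a (b (a (b (a (b (l 18077896) (b (b (l 18178184) (l 18190792)) (l 18173016))) (b (a (a (l 17996608) (l 1)) (l 1)) (b (a (b (a (l 18135264) (l 18101856)) (a (l 18144488) (l 18117360))) (b (l 1) (l 18051840))) (a (a (l 18114568) (l 18088216)) (b (l 18043144) (l 18051496)))))) (a (b (b (l 18316672) (l 18225456)) (l 18103272)) (a (b (b (a (l 18157040) (l 18208720)) (a (l 18142120) (l 18106624))) (a (l 18109792) (l 18073048))) (b (b (b (l 18051408) (l 18053112)) (l 18033704)) (l 17998968))))) (b (a (b (l 1) (b (l 1) (a (a (l 17985768) (l 1)) (l 1)))) (l 1)) (a (b (b (a (b (l 18013664) (l 35470044039)) (l 394099624759)) (a (l 17997656) (l 17921688))) (a (l 17954624) (l 17884288))) (b (b (l 1) (l 17780136)) (l 17768664))))) (a (a (l 17994824) (a (a (l 18034240) (l 18042600)) (l 18036912))) (a (a (l 18173512)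 (l 18028712)) (l 17973472)))) (b (a (b (l 1) (a (b (l 1) (l 17638768)) (l 1))) (l 1)) (b (a (l 17544928) (a (b (l 1) (l 17540720)) (l 1))) (a (l 17957208) (l 17640920))))), by decide +kernel⟩

theorem c_pp_022 : CertF 0 536870912 1073741824 536870912 134217728 67108864 false true true .pp 0 2 2
    ndF4q0 ndF3q2 pcF2 Cut.none Ext.none :=
  certF2 (fam := false) (s1 := true) (s2 := true) (a := 0) (b := 2) (c := 2) (cn := .pp) (n1 := ndF4q0) (n2 := ndF3q2) (pc := pcF2) (cut := Cut.none) (xt := Ext.none) (P1 := 0) (W1 := 536870912) (P2 := 1073741824) (W2 := 536870912) (P3 := 134217728) (W3 := 67108864)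
    rfl (fun _ => rfl) k0_pp_022

noncomputable def f_pp_023 : ℕ → ℕ → ℕ → ℕ → Bool := onCell 1073741824 536870912 0 1230186008 134217728 67108864
    (rowF 2 false true true .up 0 2 3 (qsf 0 536870912 0 1230186008 2) ndF4q0 ndF3q3 pcF2 Cut.none Ext.none)

def k0_pp_023 : ∃ t, chk3 f_pp_023 t 1 1 1 = true :=
  ⟨(b (a (l 2) (l 17821032)) (b (a (l 18472464) (l 17985712)) (a (a (a (l 18387040) (a (l 18319848) (l 18277536))) (a (l 18207728) (l 18112128))) (a (l 17955560) (l 17694648))))), by decide +kernel⟩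

theorem c_pp_023 : CertF 0 536870912 0 1230186008 134217728 67108864 false true true .up 0 2 3
    ndF4q0 ndF3q3 pcF2 Cut.none Ext.none :=
  certF2 (fam := false) (s1 := true) (s2 := true) (a := 0) (b := 2) (c := 3) (cn := .up) (n1 := ndF4q0) (n2 := ndF3q3) (pc := pcF2) (cut := Cut.none) (xt := Ext.none) (P1 := 0) (W1 := 536870912) (P2 := 0) (W2 := 1230186008) (P3 := 134217728) (W3 := 67108864)
    rfl (fun _ => rfl) k0_pp_023

noncomputable def f_pp_033 : ℕ → ℕ → ℕ → ℕ → Bool := onCell 1610612736 536870912 0 1230186008 134217728 67108864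
    (rowF 2 false true true .pnn 0 3 3 (qsf 0 536870912 0 1230186008 3) ndF4q0 ndF3q3 pcF3 Cut.none Ext.none)

def k0_pp_033 : ∃ t, chk3 f_pp_033 t 1 1 1 = true :=
  ⟨(b (l 4) (b (a (a (l 17169040) (l 4)) (a (l 4) (b (a (l 4) (l 1)) (l 1)))) (a (b (a (l 17382576) (l 17063472)) (a (a (l 17222304) (l 17167944)) (b (a (l 17181904) (l 1)) (l 1)))) (l 1)))), by decide +kernel⟩

theorem c_pp_033 : CertF 0 536870912 0 1230186008 134217728 67108864 false true true .pnn 0 3 3
    ndF4q0 ndF3q3 pcF3 Cut.none Ext.none :=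
  certF2 (fam := false) (s1 := true) (s2 := true) (a := 0) (b := 3) (c := 3) (cn := .pnn) (n1 := ndF4q0) (n2 := ndF3q3) (pc := pcF3) (cut := Cut.none) (xt := Ext.none) (P1 := 0) (W1 := 536870912) (P2 := 0) (W2 := 1230186008) (P3 := 134217728) (W3 := 67108864)
    rfl (fun _ => rfl) k0_pp_033

noncomputable def f_pp_101 : ℕ → ℕ → ℕ → ℕ → Bool := onCell 536870912 536870912 536870912 536870912 134217728 67108864
    (rowF 0 false true true .npn 1 0 1 (qsf 536870912 536870912 536870912 536870912 0) ndF4q1 ndF3q1 pcF0 Cut.none Ext.none)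

def k0_pp_101 : ∃ t, chk3 f_pp_101 t 1 1 1 = true :=
  ⟨(l 3), by decide +kernel⟩

theorem c_pp_101 : CertF 536870912 536870912 536870912 536870912 134217728 67108864 false true true .npn 1 0 1
    ndF4q1 ndF3q1 pcF0 Cut.none Ext.none :=
  certF0 (fam := false) (s1 := true) (s2 := true) (a := 1) (b := 0) (c := 1) (cn := .npn) (n1 := ndF4q1) (n2 := ndF3q1) (pc := pcF0) (cut := Cut.none) (xt := Ext.none) (P1 := 536870912) (W1 := 536870912) (P2 := 536870912) (W2 := 536870912) (P3 := 134217728) (W3 := 67108864)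
    rfl k0_pp_101

noncomputable def f_pp_102 : ℕ → ℕ → ℕ → ℕ → Bool := onCell 0 536870912 1073741824 536870912 134217728 67108864
    (rowF 2 false true true .npp 1 0 2 (qsf 536870912 536870912 1073741824 536870912 0) ndF4q1 ndF3q2 pcF0 Cut.none Ext.none)

def k0_pp_102 : ∃ t, chk3 f_pp_102 t 1 1 1 = true :=
  ⟨(a (l 3) (a (l 3) (b (b (l 3) (b (l 3) (l 707230773655))) (b (a (l 3) (l 18770368)) (a (l 705084610087) (l 19139640)))))), by decide +kernel⟩

theorem c_pp_102 : CertF 536870912 536870912 1073741824 536870912 134217728 67108864 false true true .npp 1 0 2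
    ndF4q1 ndF3q2 pcF0 Cut.none Ext.none :=
  certF2 (fam := false) (s1 := true) (s2 := true) (a := 1) (b := 0) (c := 2) (cn := .npp) (n1 := ndF4q1) (n2 := ndF3q2) (pc := pcF0) (cut := Cut.none) (xt := Ext.none) (P1 := 536870912) (W1 := 536870912) (P2 := 1073741824) (W2 := 536870912) (P3 := 134217728) (W3 := 67108864)
    rfl (fun _ => rfl) k0_pp_102

noncomputable def f_pp_112 : ℕ → ℕ → ℕ → ℕ → Bool := onCell 536870912 536870912 1073741824 536870912 134217728 67108864
    (rowF 2 false true true .dn 1 1 2 (qsf 536870912 536870912 1073741824 536870912 1) ndF4q1 ndF3q2 pcF1 Cut.none Ext.none)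

def k0_pp_112 : ∃ t, chk3 f_pp_112 t 1 1 1 = true :=
  ⟨(a (b (a (b (b (a (l 844668246743) (l 18221920)) (b (b (l 18294864) (l 174117535799)) (b (l 18339776) (l 18361320)))) (b (b (b (l 18380080) (l 180023281175)) (l 18417520)) (l 18540176))) (b (b (l 1) (b (l 1) (l 271157102663))) (b (b (b (l 18408880) (l 18415360)) (l 18405680)) (l 18393240)))) (a (b (l 18618288) (l 18841192)) (l 18502960))) (b (a (b (l 1) (b (l 1) (l 18336896))) (l 1)) (a (l 18327776) (l 18184456)))), by decide +kernel⟩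

theorem c_pp_112 : CertF 536870912 536870912 1073741824 536870912 134217728 67108864 false true true .dn 1 1 2
    ndF4q1 ndF3q2 pcF1 Cut.none Ext.none :=
  certF2 (fam := false) (s1 := true) (s2 := true) (a := 1) (b := 1) (c := 2) (cn := .dn) (n1 := ndF4q1) (n2 := ndF3q2) (pc := pcF1) (cut := Cut.none) (xt := Ext.none) (P1 := 536870912) (W1 := 536870912) (P2 := 1073741824) (W2 := 536870912) (P3 := 134217728) (W3 := 67108864)
    rfl (fun _ => rfl) k0_pp_112

noncomputable def f_pp_113 : ℕ → ℕ → ℕ → ℕ → Bool := onCell 536870912 536870912 0 1230186008 134217728 67108864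
    (rowF 2 false true true .nn 1 1 3 (qsf 536870912 536870912 0 1230186008 1) ndF4q1 ndF3q3 pcF1 Cut.none Ext.none)

def k0_pp_113 : ∃ t, chk3 f_pp_113 t 1 1 1 = true :=
  ⟨(a (b (l 2) (a (b (l 2) (b (l 2) (l 18872008))) (b (l 18497944) (l 18350600)))) (a (b (l 2) (b (l 18029704) (l 17997392))) (b (a (b (l 2) (l 17439848)) (l 17101744)) (b (l 17595720) (l 17716824))))), by decide +kernel⟩

theorem c_pp_113 : CertF 536870912 536870912 0 1230186008 134217728 67108864 false true true .nn 1 1 3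
    ndF4q1 ndF3q3 pcF1 Cut.none Ext.none :=
  certF2 (fam := false) (s1 := true) (s2 := true) (a := 1) (b := 1) (c := 3) (cn := .nn) (n1 := ndF4q1) (n2 := ndF3q3) (pc := pcF1) (cut := Cut.none) (xt := Ext.none) (P1 := 536870912) (W1 := 536870912) (P2 := 0) (W2 := 1230186008) (P3 := 134217728) (W3 := 67108864)
    rfl (fun _ => rfl) k0_pp_113

noncomputable def f_pp_123 : ℕ → ℕ → ℕ → ℕ → Bool := onCell 1073741824 536870912 0 1230186008 134217728 67108864
    (rowF 2 false true true .npn 1 2 3 (qsf 536870912 536870912 0 1230186008 2) ndF4q1 ndF3q3 pcF2 Cut.none Ext.none)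

def k0_pp_123 : ∃ t, chk3 f_pp_123 t 1 1 1 = true :=
  ⟨(b (a (a (l 16938112) (l 17056824)) (a (l 17006328) (l 4))) (b (a (a (l 17264320) (l 17197288)) (a (l 17140584) (l 17000448))) (a (a (a (l 17585400) (a (l 17625128) (l 17516080))) (a (l 17498416) (l 17474240))) (l 1)))), by decide +kernel⟩

theorem c_pp_123 : CertF 536870912 536870912 0 1230186008 134217728 67108864 false true true .npn 1 2 3
    ndF4q1 ndF3q3 pcF2 Cut.none Ext.none :=
  certF2 (fam := false) (s1 := true) (s2 := true) (a := 1) (b := 2) (c := 3) (cn := .npn) (n1 := ndF4q1) (n2 := ndF3q3) (pc := pcF2) (cut := Cut.none) (xt := Ext.none) (P1 := 536870912) (W1 := 536870912) (P2 := 0) (W2 := 1230186008) (P3 := 134217728) (W3 := 67108864)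
    rfl (fun _ => rfl) k0_pp_123

noncomputable def f_pp_133 : ℕ → ℕ → ℕ → ℕ → Bool := onCell 1610612736 536870912 0 1230186008 134217728 67108864
    (rowF 2 false true true .dn 1 3 3 (qsf 536870912 536870912 0 1230186008 3) ndF4q1 ndF3q3 pcF3 Cut.none Ext.none)

def k0_pp_133 : ∃ t, chk3 f_pp_133 t 1 1 1 = true :=
  ⟨(b (l 4) (l 1)), by decide +kernel⟩

theorem c_pp_133 : CertF 536870912 536870912 0 1230186008 134217728 67108864 false true true .dn 1 3 3
    ndF4q1 ndF3q3 pcF3 Cut.none Ext.none :=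
  certF2 (fam := false) (s1 := true) (s2 := true) (a := 1) (b := 3) (c := 3) (cn := .dn) (n1 := ndF4q1) (n2 := ndF3q3) (pc := pcF3) (cut := Cut.none) (xt := Ext.none) (P1 := 536870912) (W1 := 536870912) (P2 := 0) (W2 := 1230186008) (P3 := 134217728) (W3 := 67108864)
    rfl (fun _ => rfl) k0_pp_133

noncomputable def f_pp_202 : ℕ → ℕ → ℕ → ℕ → Bool := onCell 1073741824 536870912 1073741824 536870912 134217728 67108864
    (rowF 0 false true true .pp 2 0 2 (qsf 1073741824 536870912 1073741824 536870912 0) ndF4q2 ndF3q2 pcF0 Cut.none Ext.none)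

def k0_pp_202 : ∃ t, chk3 f_pp_202 t 1 1 1 = true :=
  ⟨(l 3), by decide +kernel⟩

theorem c_pp_202 : CertF 1073741824 536870912 1073741824 536870912 134217728 67108864 false true true .pp 2 0 2
    ndF4q2 ndF3q2 pcF0 Cut.none Ext.none :=
  certF0 (fam := false) (s1 := true) (s2 := true) (a := 2) (b := 0) (c := 2) (cn := .pp) (n1 := ndF4q2) (n2 := ndF3q2) (pc := pcF0) (cut := Cut.none) (xt := Ext.none) (P1 := 1073741824) (W1 := 536870912) (P2 := 1073741824) (W2 := 536870912) (P3 := 134217728) (W3 := 67108864)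
    rfl k0_pp_202

noncomputable def f_pp_203 : ℕ → ℕ → ℕ → ℕ → Bool := onCell 0 536870912 0 1230186008 134217728 67108864
    (rowF 2 false true true .up 2 0 3 (qsf 1073741824 536870912 0 1230186008 0) ndF4q2 ndF3q3 pcF0 Cut.none Ext.none)

def k0_pp_203 : ∃ t, chk3 f_pp_203 t 1 1 1 = true :=
  ⟨(b (a (l 2) (a (l 2) (l 3))) (l 3)), by decide +kernel⟩

theorem c_pp_203 : CertF 1073741824 536870912 0 1230186008 134217728 67108864 false true true .up 2 0 3
    ndF4q2 ndF3q3 pcF0 Cut.none Ext.none :=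
  certF2 (fam := false) (s1 := true) (s2 := true) (a := 2) (b := 0) (c := 3) (cn := .up) (n1 := ndF4q2) (n2 := ndF3q3) (pc := pcF0) (cut := Cut.none) (xt := Ext.none) (P1 := 1073741824) (W1 := 536870912) (P2 := 0) (W2 := 1230186008) (P3 := 134217728) (W3 := 67108864)
    rfl (fun _ => rfl) k0_pp_203

noncomputable def f_pp_213 : ℕ → ℕ → ℕ → ℕ → Bool := onCell 536870912 536870912 0 1230186008 134217728 67108864
    (rowF 2 false true true .pnn 2 1 3 (qsf 1073741824 536870912 0 1230186008 1) ndF4q2 ndF3q3 pcF1 Cut.none Ext.none)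

def k0_pp_213 : ∃ t, chk3 f_pp_213 t 1 1 1 = true :=
  ⟨(b (a (a (b (l 17529992) (l 373294911495)) (b (l 17310896) (l 17520504))) (a (b (l 17245648) (l 17333728)) (b (l 17187448) (l 17311240)))) (b (a (a (l 3) (l 372221575063)) (a (l 17533104) (l 17506672))) (a (l 3) (l 1)))), by decide +kernel⟩

theorem c_pp_213 : CertF 1073741824 536870912 0 1230186008 134217728 67108864 false true true .pnn 2 1 3
    ndF4q2 ndF3q3 pcF1 Cut.none Ext.none :=
  certF2 (fam := false) (s1 := true) (s2 := true) (a := 2) (b := 1) (c := 3) (cn := .pnn) (n1 := ndF4q2) (n2 := ndF3q3) (pc := pcF1) (cut := Cut.none) (xt := Ext.none) (P1 := 1073741824) (W1 := 536870912) (P2 := 0) (W2 := 1230186008) (P3 := 134217728) (W3 := 67108864)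
    rfl (fun _ => rfl) k0_pp_213

noncomputable def f_pp_303 : ℕ → ℕ → ℕ → ℕ → Bool := onCell 0 1230186008 0 1230186008 134217728 67108864
    (rowF 0 false true true .npn 3 0 3 (qsf 0 1230186008 0 1230186008 0) ndF4q3 ndF3q3 pcF0 Cut.none Ext.none)

def k0_pp_303 : ∃ t, chk3 f_pp_303 t 1 1 1 = true :=
  ⟨(a (b (l 3) (l 3)) (b (a (l 3) (b (l 3) (l 3))) (l 3))), by decide +kernel⟩

theorem c_pp_303 : CertF 0 1230186008 0 1230186008 134217728 67108864 false true true .npn 3 0 3
    ndF4q3 ndF3q3 pcF0 Cut.none Ext.none :=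
  certF0 (fam := false) (s1 := true) (s2 := true) (a := 3) (b := 0) (c := 3) (cn := .npn) (n1 := ndF4q3) (n2 := ndF3q3) (pc := pcF0) (cut := Cut.none) (xt := Ext.none) (P1 := 0) (W1 := 1230186008) (P2 := 0) (W2 := 1230186008) (P3 := 134217728) (W3 := 67108864)
    rfl k0_pp_303

noncomputable def f_pp_313 : ℕ → ℕ → ℕ → ℕ → Bool := onCell 0 1230186008 0 1230186008 134217728 67108864
    (rowF 0 false true true .dn 3 1 3 (qsf 0 1230186008 0 1230186008 1) ndF4q3 ndF3q3 pcF1 Cut.none Ext.none)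

def k0_pp_313 : ∃ t, chk3 f_pp_313 t 1 1 1 = true :=
  ⟨(a (l 1) (a (l 1) (b (b (l 3) (l 1)) (l 1)))), by decide +kernel⟩

theorem c_pp_313 : CertF 0 1230186008 0 1230186008 134217728 67108864 false true true .dn 3 1 3
    ndF4q3 ndF3q3 pcF1 Cut.none Ext.none :=
  certF0 (fam := false) (s1 := true) (s2 := true) (a := 3) (b := 1) (c := 3) (cn := .dn) (n1 := ndF4q3) (n2 := ndF3q3) (pc := pcF1) (cut := Cut.none) (xt := Ext.none) (P1 := 0) (W1 := 1230186008) (P2 := 0) (W2 := 1230186008) (P3 := 134217728) (W3 := 67108864)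
    rfl k0_pp_313

noncomputable def f_pm_001 : ℕ → ℕ → ℕ → ℕ → Bool := onCell 0 536870912 536870912 536870912 134217728 67108864
    (rowF 0 false true false .up 0 0 1 (qsf 0 536870912 536870912 536870912 0) ndF4q0 ndF3q1 pcF0 Cut.none Ext.none)

def k0_pm_001 : ∃ t, chk3 f_pm_001 t 1 1 1 = true :=
  ⟨(l 4), by decide +kernel⟩

theorem c_pm_001 : CertF 0 536870912 536870912 536870912 134217728 67108864 false true false .up 0 0 1
    ndF4q0 ndF3q1 pcF0 Cut.none Ext.none :=
  certF0 (fam := false) (s1 := true) (s2 := false) (a := 0) (b := 0) (c := 1) (cn := .up) (n1 := ndF4q0) (n2 := ndF3q1) (pc := pcF0) (cut := Cut.none) (xt := Ext.none) (P1 := 0) (W1 := 536870912) (P2 := 536870912) (W2 := 536870912) (P3 := 134217728) (W3 := 67108864)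
    rfl k0_pm_001

noncomputable def f_pm_011 : ℕ → ℕ → ℕ → ℕ → Bool := onCell 0 536870912 536870912 536870912 134217728 67108864
    (rowF 0 false true false .pnn 0 1 1 (qsf 0 536870912 536870912 536870912 1) ndF4q0 ndF3q1 pcF1 Cut.none Ext.none)

def k0_pm_011 : ∃ t, chk3 f_pm_011 t 1 1 1 = true :=
  ⟨(l 4), by decide +kernel⟩

theorem c_pm_011 : CertF 0 536870912 536870912 536870912 134217728 67108864 false true false .pnn 0 1 1
    ndF4q0 ndF3q1 pcF1 Cut.none Ext.none :=
  certF0 (fam := false) (s1 := true) (s2 := false) (a := 0) (b := 1) (c := 1) (cn := .pnn) (n1 := ndF4q0) (n2 := ndF3q1) (pc := pcF1) (cut := Cut.none) (xt := Ext.none) (P1 := 0) (W1 := 536870912) (P2 := 536870912) (W2 := 536870912) (P3 := 134217728) (W3 := 67108864)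
    rfl k0_pm_011

noncomputable def f_pm_012 : ℕ → ℕ → ℕ → ℕ → Bool := onCell 0 536870912 1073741824 536870912 134217728 67108864
    (rowF 0 false true false .pnp 0 1 2 (qsf 0 536870912 1073741824 536870912 1) ndF4q0 ndF3q2 pcF1 Cut.none Ext.none)

def k0_pm_012 : ∃ t, chk3 f_pm_012 t 1 1 1 = true :=
  ⟨(l 4), by decide +kernel⟩

theorem c_pm_012 : CertF 0 536870912 1073741824 536870912 134217728 67108864 false true false .pnp 0 1 2
    ndF4q0 ndF3q2 pcF1 Cut.none Ext.none :=
  certF0 (fam := false) (s1 := true) (s2 := false) (a := 0) (b := 1) (c := 2) (cn := .pnp) (n1 := ndF4q0) (n2 := ndF3q2) (pc := pcF1) (cut := Cut.none) (xt := Ext.none) (P1 := 0) (W1 := 536870912) (P2 := 1073741824) (W2 := 536870912) (P3 := 134217728) (W3 := 67108864)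
    rfl k0_pm_012

noncomputable def f_pm_022 : ℕ → ℕ → ℕ → ℕ → Bool := onCell 0 536870912 1073741824 536870912 134217728 67108864
    (rowF 0 false true false .pp 0 2 2 (qsf 0 536870912 1073741824 536870912 2) ndF4q0 ndF3q2 pcF2 Cut.none Ext.none)

def k0_pm_022 : ∃ t, chk3 f_pm_022 t 1 1 1 = true :=
  ⟨(l 4), by decide +kernel⟩

theorem c_pm_022 : CertF 0 536870912 1073741824 536870912 134217728 67108864 false true false .pp 0 2 2
    ndF4q0 ndF3q2 pcF2 Cut.none Ext.none :=
  certF0 (fam := false) (s1 := true) (s2 := false) (a := 0) (b := 2) (c := 2) (cn := .pp) (n1 := ndF4q0) (n2 := ndF3q2) (pc := pcF2) (cut := Cut.none) (xt := Ext.none) (P1 := 0) (W1 := 536870912) (P2 := 1073741824) (W2 := 536870912) (P3 := 134217728) (W3 := 67108864)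
    rfl k0_pm_022

noncomputable def f_pm_023 : ℕ → ℕ → ℕ → ℕ → Bool := onCell 0 536870912 0 1230186008 134217728 67108864
    (rowF 0 false true false .up 0 2 3 (qsf 0 536870912 0 1230186008 2) ndF4q0 ndF3q3 pcF2 Cut.none Ext.none)

def k0_pm_023 : ∃ t, chk3 f_pm_023 t 1 1 1 = true :=
  ⟨(b (l 4) (l 4)), by decide +kernel⟩

theorem c_pm_023 : CertF 0 536870912 0 1230186008 134217728 67108864 false true false .up 0 2 3
    ndF4q0 ndF3q3 pcF2 Cut.none Ext.none :=
  certF0 (fam := false) (s1 := true) (s2 := false) (a := 0) (b := 2) (c := 3) (cn := .up) (n1 := ndF4q0) (n2 := ndF3q3) (pc := pcF2) (cut := Cut.none) (xt := Ext.none) (P1 := 0) (W1 := 536870912) (P2 := 0) (W2 := 1230186008) (P3 := 134217728) (W3 := 67108864)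
    rfl k0_pm_023

noncomputable def f_pm_033 : ℕ → ℕ → ℕ → ℕ → Bool := onCell 0 536870912 0 1230186008 134217728 67108864
    (rowF 0 false true false .pnn 0 3 3 (qsf 0 536870912 0 1230186008 3) ndF4q0 ndF3q3 pcF3 Cut.none Ext.none)

def k0_pm_033 : ∃ t, chk3 f_pm_033 t 1 1 1 = true :=
  ⟨(b (l 4) (l 4)), by decide +kernel⟩

theorem c_pm_033 : CertF 0 536870912 0 1230186008 134217728 67108864 false true false .pnn 0 3 3
    ndF4q0 ndF3q3 pcF3 Cut.none Ext.none :=
  certF0 (fam := false) (s1 := true) (s2 := false) (a := 0) (b := 3) (c := 3) (cn := .pnn) (n1 := ndF4q0) (n2 := ndF3q3) (pc := pcF3) (cut := Cut.none) (xt := Ext.none) (P1 := 0) (W1 := 536870912) (P2 := 0) (W2 := 1230186008) (P3 := 134217728) (W3 := 67108864)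
    rfl k0_pm_033

noncomputable def f_pm_101 : ℕ → ℕ → ℕ → ℕ → Bool := onCell 536870912 536870912 536870912 536870912 134217728 67108864
    (rowF 0 false true false .npn 1 0 1 (qsf 536870912 536870912 536870912 536870912 0) ndF4q1 ndF3q1 pcF0 Cut.none Ext.none)

def k0_pm_101 : ∃ t, chk3 f_pm_101 t 1 1 1 = true :=
  ⟨(l 4), by decide +kernel⟩

theorem c_pm_101 : CertF 536870912 536870912 536870912 536870912 134217728 67108864 false true false .npn 1 0 1
    ndF4q1 ndF3q1 pcF0 Cut.none Ext.none :=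
  certF0 (fam := false) (s1 := true) (s2 := false) (a := 1) (b := 0) (c := 1) (cn := .npn) (n1 := ndF4q1) (n2 := ndF3q1) (pc := pcF0) (cut := Cut.none) (xt := Ext.none) (P1 := 536870912) (W1 := 536870912) (P2 := 536870912) (W2 := 536870912) (P3 := 134217728) (W3 := 67108864)
    rfl k0_pm_101

noncomputable def f_pm_102 : ℕ → ℕ → ℕ → ℕ → Bool := onCell 536870912 536870912 1073741824 536870912 134217728 67108864
    (rowF 0 false true false .npp 1 0 2 (qsf 536870912 536870912 1073741824 536870912 0) ndF4q1 ndF3q2 pcF0 Cut.none Ext.none)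

def k0_pm_102 : ∃ t, chk3 f_pm_102 t 1 1 1 = true :=
  ⟨(l 4), by decide +kernel⟩

theorem c_pm_102 : CertF 536870912 536870912 1073741824 536870912 134217728 67108864 false true false .npp 1 0 2
    ndF4q1 ndF3q2 pcF0 Cut.none Ext.none :=
  certF0 (fam := false) (s1 := true) (s2 := false) (a := 1) (b := 0) (c := 2) (cn := .npp) (n1 := ndF4q1) (n2 := ndF3q2) (pc := pcF0) (cut := Cut.none) (xt := Ext.none) (P1 := 536870912) (W1 := 536870912) (P2 := 1073741824) (W2 := 536870912) (P3 := 134217728) (W3 := 67108864)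
    rfl k0_pm_102

noncomputable def f_pm_112 : ℕ → ℕ → ℕ → ℕ → Bool := onCell 536870912 536870912 1073741824 536870912 134217728 67108864
    (rowF 0 false true false .dn 1 1 2 (qsf 536870912 536870912 1073741824 536870912 1) ndF4q1 ndF3q2 pcF1 Cut.none Ext.none)

def k0_pm_112 : ∃ t, chk3 f_pm_112 t 1 1 1 = true :=
  ⟨(l 4), by decide +kernel⟩

theorem c_pm_112 : CertF 536870912 536870912 1073741824 536870912 134217728 67108864 false true false .dn 1 1 2
    ndF4q1 ndF3q2 pcF1 Cut.none Ext.none :=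
  certF0 (fam := false) (s1 := true) (s2 := false) (a := 1) (b := 1) (c := 2) (cn := .dn) (n1 := ndF4q1) (n2 := ndF3q2) (pc := pcF1) (cut := Cut.none) (xt := Ext.none) (P1 := 536870912) (W1 := 536870912) (P2 := 1073741824) (W2 := 536870912) (P3 := 134217728) (W3 := 67108864)
    rfl k0_pm_112

noncomputable def f_pm_113 : ℕ → ℕ → ℕ → ℕ → Bool := onCell 536870912 536870912 0 1230186008 134217728 67108864
    (rowF 0 false true false .nn 1 1 3 (qsf 536870912 536870912 0 1230186008 1) ndF4q1 ndF3q3 pcF1 Cut.none Ext.none)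

def k0_pm_113 : ∃ t, chk3 f_pm_113 t 1 1 1 = true :=
  ⟨(b (b (a (l 2) (l 16827352)) (l 4)) (l 4)), by decide +kernel⟩

theorem c_pm_113 : CertF 536870912 536870912 0 1230186008 134217728 67108864 false true false .nn 1 1 3
    ndF4q1 ndF3q3 pcF1 Cut.none Ext.none :=
  certF0 (fam := false) (s1 := true) (s2 := false) (a := 1) (b := 1) (c := 3) (cn := .nn) (n1 := ndF4q1) (n2 := ndF3q3) (pc := pcF1) (cut := Cut.none) (xt := Ext.none) (P1 := 536870912) (W1 := 536870912) (P2 := 0) (W2 := 1230186008) (P3 := 134217728) (W3 := 67108864)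
    rfl k0_pm_113

noncomputable def f_pm_123 : ℕ → ℕ → ℕ → ℕ → Bool := onCell 536870912 536870912 0 1230186008 134217728 67108864
    (rowF 0 false true false .npn 1 2 3 (qsf 536870912 536870912 0 1230186008 2) ndF4q1 ndF3q3 pcF2 Cut.none Ext.none)

def k0_pm_123 : ∃ t, chk3 f_pm_123 t 1 1 1 = true :=
  ⟨(b (a (l 4) (b (l 17326760) (l 4))) (l 4)), by decide +kernel⟩

theorem c_pm_123 : CertF 536870912 536870912 0 1230186008 134217728 67108864 false true false .npn 1 2 3
    ndF4q1 ndF3q3 pcF2 Cut.none Ext.none :=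
  certF0 (fam := false) (s1 := true) (s2 := false) (a := 1) (b := 2) (c := 3) (cn := .npn) (n1 := ndF4q1) (n2 := ndF3q3) (pc := pcF2) (cut := Cut.none) (xt := Ext.none) (P1 := 536870912) (W1 := 536870912) (P2 := 0) (W2 := 1230186008) (P3 := 134217728) (W3 := 67108864)
    rfl k0_pm_123

noncomputable def f_pm_133 : ℕ → ℕ → ℕ → ℕ → Bool := onCell 1610612736 536870912 0 1230186008 134217728 67108864
    (rowF 2 false true false .dn 1 3 3 (qsf 536870912 536870912 0 1230186008 3) ndF4q1 ndF3q3 pcF3 Cut.none Ext.none)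

def k0_pm_133 : ∃ t, chk3 f_pm_133 t 1 1 1 = true :=
  ⟨(b (l 4) (l 1)), by decide +kernel⟩

theorem c_pm_133 : CertF 536870912 536870912 0 1230186008 134217728 67108864 false true false .dn 1 3 3
    ndF4q1 ndF3q3 pcF3 Cut.none Ext.none :=
  certF2 (fam := false) (s1 := true) (s2 := false) (a := 1) (b := 3) (c := 3) (cn := .dn) (n1 := ndF4q1) (n2 := ndF3q3) (pc := pcF3) (cut := Cut.none) (xt := Ext.none) (P1 := 536870912) (W1 := 536870912) (P2 := 0) (W2 := 1230186008) (P3 := 134217728) (W3 := 67108864)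
    rfl (fun _ => rfl) k0_pm_133

noncomputable def f_pm_202 : ℕ → ℕ → ℕ → ℕ → Bool := onCell 0 536870912 1073741824 536870912 134217728 67108864
    (rowF 2 false true false .pp 2 0 2 (qsf 1073741824 536870912 1073741824 536870912 0) ndF4q2 ndF3q2 pcF0 Cut.none Ext.none)

def k0_pm_202 : ∃ t, chk3 f_pm_202 t 1 1 1 = true :=
  ⟨(a (b (b (l 4) (b (a (b (b (l 18859056) (l 18846904)) (l 18764448)) (l 4)) (a (l 18536792) (l 18598592)))) (b (a (l 18180944) (l 18395024)) (a (l 17870064) (l 18055400)))) (b (l 4) (a (b (l 18553464) (l 18061840)) (b (l 4) (l 115463776391))))), by decide +kernel⟩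

theorem c_pm_202 : CertF 1073741824 536870912 1073741824 536870912 134217728 67108864 false true false .pp 2 0 2
    ndF4q2 ndF3q2 pcF0 Cut.none Ext.none :=
  certF2 (fam := false) (s1 := true) (s2 := false) (a := 2) (b := 0) (c := 2) (cn := .pp) (n1 := ndF4q2) (n2 := ndF3q2) (pc := pcF0) (cut := Cut.none) (xt := Ext.none) (P1 := 1073741824) (W1 := 536870912) (P2 := 1073741824) (W2 := 536870912) (P3 := 134217728) (W3 := 67108864)
    rfl (fun _ => rfl) k0_pm_202

noncomputable def f_pm_203 : ℕ → ℕ → ℕ → ℕ → Bool := onCell 0 536870912 0 1230186008 134217728 67108864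
    (rowF 2 false true false .up 2 0 3 (qsf 1073741824 536870912 0 1230186008 0) ndF4q2 ndF3q3 pcF0 Cut.none Ext.none)

def k0_pm_203 : ∃ t, chk3 f_pm_203 t 1 1 1 = true :=
  ⟨(b (a (l 2) (a (l 2) (b (l 17650776) (l 18079864)))) (a (b (a (l 2) (l 536974589959)) (b (a (l 2) (l 172976454359)) (a (l 17790432) (l 17734616)))) (b (a (l 518721206839) (l 18197200)) (b (a (l 18202832) (l 18339800)) (a (l 17914440) (l 18299816)))))), by decide +kernel⟩

theorem c_pm_203 : CertF 1073741824 536870912 0 1230186008 134217728 67108864 false true false .up 2 0 3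
    ndF4q2 ndF3q3 pcF0 Cut.none Ext.none :=
  certF2 (fam := false) (s1 := true) (s2 := false) (a := 2) (b := 0) (c := 3) (cn := .up) (n1 := ndF4q2) (n2 := ndF3q3) (pc := pcF0) (cut := Cut.none) (xt := Ext.none) (P1 := 1073741824) (W1 := 536870912) (P2 := 0) (W2 := 1230186008) (P3 := 134217728) (W3 := 67108864)
    rfl (fun _ => rfl) k0_pm_203

noncomputable def f_pm_213 : ℕ → ℕ → ℕ → ℕ → Bool := onCell 536870912 536870912 0 1230186008 134217728 67108864
    (rowF 2 false true false .pnn 2 1 3 (qsf 1073741824 536870912 0 1230186008 1) ndF4q2 ndF3q3 pcF1 Cut.none Ext.none)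

def k0_pm_213 : ∃ t, chk3 f_pm_213 t 1 1 1 = true :=
  ⟨(b (b (a (a (l 17331248) (l 17273840)) (a (l 17220064) (l 17096512))) (a (a (l 17430416) (l 17252328)) (a (l 17186048) (l 16992192)))) (b (a (a (b (l 17299088) (l 17313776)) (b (l 17272432) (l 17311256))) (a (a (b (l 17205056) (l 17234128)) (l 17452656)) (a (b (l 17176280) (l 1)) (l 1)))) (a (b (a (l 17398800) (l 17444152)) (l 134790641191)) (l 1)))), by decide +kernel⟩

theorem c_pm_213 : CertF 1073741824 536870912 0 1230186008 134217728 67108864 false true false .pnn 2 1 3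
    ndF4q2 ndF3q3 pcF1 Cut.none Ext.none :=
  certF2 (fam := false) (s1 := true) (s2 := false) (a := 2) (b := 1) (c := 3) (cn := .pnn) (n1 := ndF4q2) (n2 := ndF3q3) (pc := pcF1) (cut := Cut.none) (xt := Ext.none) (P1 := 1073741824) (W1 := 536870912) (P2 := 0) (W2 := 1230186008) (P3 := 134217728) (W3 := 67108864)
    rfl (fun _ => rfl) k0_pm_213

noncomputable def f_pm_303 : ℕ → ℕ → ℕ → ℕ → Bool := onCell 0 1230186008 0 1230186008 134217728 67108864
    (rowF 0 false true false .npn 3 0 3 (qsf 0 1230186008 0 1230186008 0) ndF4q3 ndF3q3 pcF0 Cut.none Ext.none)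

def k0_pm_303 : ∃ t, chk3 f_pm_303 t 1 1 1 = true :=
  ⟨(a (b (l 3) (b (l 3) (l 1))) (b (a (l 3) (a (b (l 3) (l 264309669143)) (b (l 230486281479) (a (l 17176128) (l 17118120))))) (a (b (b (l 3) (a (l 3) (l 218676433607))) (a (l 1) (b (b (b (l 17881848) (l 1)) (l 1)) (l 1)))) (b (a (b (l 17466528) (l 59762671767)) (b (l 17412592) (l 17599304))) (a (b (b (l 17758872) (l 17472192)) (a (l 1) (b (l 17208240) (l 1)))) (b (b (l 17652816) (l 17573240)) (l 17181008))))))), by decide +kernel⟩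

theorem c_pm_303 : CertF 0 1230186008 0 1230186008 134217728 67108864 false true false .npn 3 0 3
    ndF4q3 ndF3q3 pcF0 Cut.none Ext.none :=
  certF0 (fam := false) (s1 := true) (s2 := false) (a := 3) (b := 0) (c := 3) (cn := .npn) (n1 := ndF4q3) (n2 := ndF3q3) (pc := pcF0) (cut := Cut.none) (xt := Ext.none) (P1 := 0) (W1 := 1230186008) (P2 := 0) (W2 := 1230186008) (P3 := 134217728) (W3 := 67108864)
    rfl k0_pm_303

noncomputable def f_pm_313 : ℕ → ℕ → ℕ → ℕ → Bool := onCell 0 1230186008 0 1230186008 134217728 67108864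
    (rowF 0 false true false .dn 3 1 3 (qsf 0 1230186008 0 1230186008 1) ndF4q3 ndF3q3 pcF1 Cut.none Ext.none)

def k0_pm_313 : ∃ t, chk3 f_pm_313 t 1 1 1 = true :=
  ⟨(a (l 1) (a (l 1) (b (b (b (l 3) (l 1)) (l 1)) (l 1)))), by decide +kernel⟩

theorem c_pm_313 : CertF 0 1230186008 0 1230186008 134217728 67108864 false true false .dn 3 1 3
    ndF4q3 ndF3q3 pcF1 Cut.none Ext.none :=
  certF0 (fam := false) (s1 := true) (s2 := false) (a := 3) (b := 1) (c := 3) (cn := .dn) (n1 := ndF4q3) (n2 := ndF3q3) (pc := pcF1) (cut := Cut.none) (xt := Ext.none) (P1 := 0) (W1 := 1230186008) (P2 := 0) (W2 := 1230186008) (P3 := 134217728) (W3 := 67108864)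
    rfl k0_pm_313

noncomputable def f_mm_001 : ℕ → ℕ → ℕ → ℕ → Bool := onCell 0 536870912 536870912 536870912 134217728 67108864
    (rowF 0 false false false .up 0 0 1 (qsf 0 536870912 536870912 536870912 0) ndF4q0 ndF3q1 pcF0 Cut.none Ext.none)

def k0_mm_001 : ∃ t, chk3 f_mm_001 t 1 1 1 = true :=
  ⟨(l 3), by decide +kernel⟩

theorem c_mm_001 : CertF 0 536870912 536870912 536870912 134217728 67108864 false false false .up 0 0 1
    ndF4q0 ndF3q1 pcF0 Cut.none Ext.none :=
  certF0 (fam := false) (s1 := false) (s2 := false) (a := 0) (b := 0) (c := 1) (cn := .up) (n1 := ndF4q0) (n2 := ndF3q1) (pc := pcF0) (cut := Cut.none) (xt := Ext.none) (P1 := 0) (W1 := 536870912) (P2 := 536870912) (W2 := 536870912) (P3 := 134217728) (W3 := 67108864)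
    rfl k0_mm_001

noncomputable def f_mm_011 : ℕ → ℕ → ℕ → ℕ → Bool := onCell 0 536870912 536870912 536870912 134217728 67108864
    (rowF 0 false false false .pnn 0 1 1 (qsf 0 536870912 536870912 536870912 1) ndF4q0 ndF3q1 pcF1 Cut.none Ext.none)

def k0_mm_011 : ∃ t, chk3 f_mm_011 t 1 1 1 = true :=
  ⟨(l 3), by decide +kernel⟩

theorem c_mm_011 : CertF 0 536870912 536870912 536870912 134217728 67108864 false false false .pnn 0 1 1
    ndF4q0 ndF3q1 pcF1 Cut.none Ext.none :=
  certF0 (fam := false) (s1 := false) (s2 := false) (a := 0) (b := 1) (c := 1) (cn := .pnn) (n1 := ndF4q0) (n2 := ndF3q1) (pc := pcF1) (cut := Cut.none) (xt := Ext.none) (P1 := 0) (W1 := 536870912) (P2 := 536870912) (W2 := 536870912) (P3 := 134217728) (W3 := 67108864)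
    rfl k0_mm_011

noncomputable def f_mm_012 : ℕ → ℕ → ℕ → ℕ → Bool := onCell 0 536870912 1073741824 536870912 134217728 67108864
    (rowF 0 false false false .pnp 0 1 2 (qsf 0 536870912 1073741824 536870912 1) ndF4q0 ndF3q2 pcF1 Cut.none Ext.none)

def k0_mm_012 : ∃ t, chk3 f_mm_012 t 1 1 1 = true :=
  ⟨(l 5), by decide +kernel⟩

theorem c_mm_012 : CertF 0 536870912 1073741824 536870912 134217728 67108864 false false false .pnp 0 1 2
    ndF4q0 ndF3q2 pcF1 Cut.none Ext.none :=
  certF0 (fam := false) (s1 := false) (s2 := false) (a := 0) (b := 1) (c := 2) (cn := .pnp) (n1 := ndF4q0) (n2 := ndF3q2) (pc := pcF1) (cut := Cut.none) (xt := Ext.none) (P1 := 0) (W1 := 536870912) (P2 := 1073741824) (W2 := 536870912) (P3 := 134217728) (W3 := 67108864)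
    rfl k0_mm_012

noncomputable def f_mm_022 : ℕ → ℕ → ℕ → ℕ → Bool := onCell 0 536870912 1073741824 536870912 134217728 67108864
    (rowF 0 false false false .pp 0 2 2 (qsf 0 536870912 1073741824 536870912 2) ndF4q0 ndF3q2 pcF2 Cut.none Ext.none)

def k0_mm_022 : ∃ t, chk3 f_mm_022 t 1 1 1 = true :=
  ⟨(l 5), by decide +kernel⟩

theorem c_mm_022 : CertF 0 536870912 1073741824 536870912 134217728 67108864 false false false .pp 0 2 2
    ndF4q0 ndF3q2 pcF2 Cut.none Ext.none :=
  certF0 (fam := false) (s1 := false) (s2 := false) (a := 0) (b := 2) (c := 2) (cn := .pp) (n1 := ndF4q0) (n2 := ndF3q2) (pc := pcF2) (cut := Cut.none) (xt := Ext.none) (P1 := 0) (W1 := 536870912) (P2 := 1073741824) (W2 := 536870912) (P3 := 134217728) (W3 := 67108864)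
    rfl k0_mm_022

noncomputable def f_mm_023 : ℕ → ℕ → ℕ → ℕ → Bool := onCell 0 536870912 0 1230186008 134217728 67108864
    (rowF 0 false false false .up 0 2 3 (qsf 0 536870912 0 1230186008 2) ndF4q0 ndF3q3 pcF2 Cut.none Ext.none)

def k0_mm_023 : ∃ t, chk3 f_mm_023 t 1 1 1 = true :=
  ⟨(l 5), by decide +kernel⟩

theorem c_mm_023 : CertF 0 536870912 0 1230186008 134217728 67108864 false false false .up 0 2 3
    ndF4q0 ndF3q3 pcF2 Cut.none Ext.none :=
  certF0 (fam := false) (s1 := false) (s2 := false) (a := 0) (b := 2) (c := 3) (cn := .up) (n1 := ndF4q0) (n2 := ndF3q3) (pc := pcF2) (cut := Cut.none) (xt := Ext.none) (P1 := 0) (W1 := 536870912) (P2 := 0) (W2 := 1230186008) (P3 := 134217728) (W3 := 67108864)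
    rfl k0_mm_023

noncomputable def f_mm_033 : ℕ → ℕ → ℕ → ℕ → Bool := onCell 0 536870912 0 1230186008 134217728 67108864
    (rowF 0 false false false .pnn 0 3 3 (qsf 0 536870912 0 1230186008 3) ndF4q0 ndF3q3 pcF3 Cut.none Ext.none)

def k0_mm_033 : ∃ t, chk3 f_mm_033 t 1 1 1 = true :=
  ⟨(l 5), by decide +kernel⟩

theorem c_mm_033 : CertF 0 536870912 0 1230186008 134217728 67108864 false false false .pnn 0 3 3
    ndF4q0 ndF3q3 pcF3 Cut.none Ext.none :=
  certF0 (fam := false) (s1 := false) (s2 := false) (a := 0) (b := 3) (c := 3) (cn := .pnn) (n1 := ndF4q0) (n2 := ndF3q3) (pc := pcF3) (cut := Cut.none) (xt := Ext.none) (P1 := 0) (W1 := 536870912) (P2 := 0) (W2 := 1230186008) (P3 := 134217728) (W3 := 67108864)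
    rfl k0_mm_033

noncomputable def f_mm_101 : ℕ → ℕ → ℕ → ℕ → Bool := onCell 536870912 536870912 536870912 536870912 134217728 67108864
    (rowF 0 false false false .npn 1 0 1 (qsf 536870912 536870912 536870912 536870912 0) ndF4q1 ndF3q1 pcF0 Cut.none Ext.none)

def k0_mm_101 : ∃ t, chk3 f_mm_101 t 1 1 1 = true :=
  ⟨(l 3), by decide +kernel⟩

theorem c_mm_101 : CertF 536870912 536870912 536870912 536870912 134217728 67108864 false false false .npn 1 0 1
    ndF4q1 ndF3q1 pcF0 Cut.none Ext.none :=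
  certF0 (fam := false) (s1 := false) (s2 := false) (a := 1) (b := 0) (c := 1) (cn := .npn) (n1 := ndF4q1) (n2 := ndF3q1) (pc := pcF0) (cut := Cut.none) (xt := Ext.none) (P1 := 536870912) (W1 := 536870912) (P2 := 536870912) (W2 := 536870912) (P3 := 134217728) (W3 := 67108864)
    rfl k0_mm_101

noncomputable def f_mm_102 : ℕ → ℕ → ℕ → ℕ → Bool := onCell 536870912 536870912 1073741824 536870912 134217728 67108864
    (rowF 0 false false false .npp 1 0 2 (qsf 536870912 536870912 1073741824 536870912 0) ndF4q1 ndF3q2 pcF0 Cut.none Ext.none)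

def k0_mm_102 : ∃ t, chk3 f_mm_102 t 1 1 1 = true :=
  ⟨(l 5), by decide +kernel⟩

theorem c_mm_102 : CertF 536870912 536870912 1073741824 536870912 134217728 67108864 false false false .npp 1 0 2
    ndF4q1 ndF3q2 pcF0 Cut.none Ext.none :=
  certF0 (fam := false) (s1 := false) (s2 := false) (a := 1) (b := 0) (c := 2) (cn := .npp) (n1 := ndF4q1) (n2 := ndF3q2) (pc := pcF0) (cut := Cut.none) (xt := Ext.none) (P1 := 536870912) (W1 := 536870912) (P2 := 1073741824) (W2 := 536870912) (P3 := 134217728) (W3 := 67108864)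
    rfl k0_mm_102

noncomputable def f_mm_112 : ℕ → ℕ → ℕ → ℕ → Bool := onCell 536870912 536870912 1073741824 536870912 134217728 67108864
    (rowF 0 false false false .dn 1 1 2 (qsf 536870912 536870912 1073741824 536870912 1) ndF4q1 ndF3q2 pcF1 Cut.none Ext.none)

def k0_mm_112 : ∃ t, chk3 f_mm_112 t 1 1 1 = true :=
  ⟨(l 5), by decide +kernel⟩

theorem c_mm_112 : CertF 536870912 536870912 1073741824 536870912 134217728 67108864 false false false .dn 1 1 2
    ndF4q1 ndF3q2 pcF1 Cut.none Ext.none :=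
  certF0 (fam := false) (s1 := false) (s2 := false) (a := 1) (b := 1) (c := 2) (cn := .dn) (n1 := ndF4q1) (n2 := ndF3q2) (pc := pcF1) (cut := Cut.none) (xt := Ext.none) (P1 := 536870912) (W1 := 536870912) (P2 := 1073741824) (W2 := 536870912) (P3 := 134217728) (W3 := 67108864)
    rfl k0_mm_112

noncomputable def f_mm_113 : ℕ → ℕ → ℕ → ℕ → Bool := onCell 536870912 536870912 0 1230186008 134217728 67108864
    (rowF 0 false false false .nn 1 1 3 (qsf 536870912 536870912 0 1230186008 1) ndF4q1 ndF3q3 pcF1 Cut.none Ext.none)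

def k0_mm_113 : ∃ t, chk3 f_mm_113 t 1 1 1 = true :=
  ⟨(l 5), by decide +kernel⟩

theorem c_mm_113 : CertF 536870912 536870912 0 1230186008 134217728 67108864 false false false .nn 1 1 3
    ndF4q1 ndF3q3 pcF1 Cut.none Ext.none :=
  certF0 (fam := false) (s1 := false) (s2 := false) (a := 1) (b := 1) (c := 3) (cn := .nn) (n1 := ndF4q1) (n2 := ndF3q3) (pc := pcF1) (cut := Cut.none) (xt := Ext.none) (P1 := 536870912) (W1 := 536870912) (P2 := 0) (W2 := 1230186008) (P3 := 134217728) (W3 := 67108864)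
    rfl k0_mm_113

noncomputable def f_mm_123 : ℕ → ℕ → ℕ → ℕ → Bool := onCell 536870912 536870912 0 1230186008 134217728 67108864
    (rowF 0 false false false .npn 1 2 3 (qsf 536870912 536870912 0 1230186008 2) ndF4q1 ndF3q3 pcF2 Cut.none Ext.none)

def k0_mm_123 : ∃ t, chk3 f_mm_123 t 1 1 1 = true :=
  ⟨(l 5), by decide +kernel⟩

theorem c_mm_123 : CertF 536870912 536870912 0 1230186008 134217728 67108864 false false false .npn 1 2 3
    ndF4q1 ndF3q3 pcF2 Cut.none Ext.none :=
  certF0 (fam := false) (s1 := false) (s2 := false) (a := 1) (b := 2) (c := 3) (cn := .npn) (n1 := ndF4q1) (n2 := ndF3q3) (pc := pcF2) (cut := Cut.none) (xt := Ext.none) (P1 := 536870912) (W1 := 536870912) (P2 := 0) (W2 := 1230186008) (P3 := 134217728) (W3 := 67108864)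
    rfl k0_mm_123

noncomputable def f_mm_133 : ℕ → ℕ → ℕ → ℕ → Bool := onCell 536870912 536870912 0 1230186008 134217728 67108864
    (rowF 0 false false false .dn 1 3 3 (qsf 536870912 536870912 0 1230186008 3) ndF4q1 ndF3q3 pcF3 Cut.none Ext.none)

def k0_mm_133 : ∃ t, chk3 f_mm_133 t 1 1 1 = true :=
  ⟨(l 5), by decide +kernel⟩

theorem c_mm_133 : CertF 536870912 536870912 0 1230186008 134217728 67108864 false false false .dn 1 3 3
    ndF4q1 ndF3q3 pcF3 Cut.none Ext.none :=
  certF0 (fam := false) (s1 := false) (s2 := false) (a := 1) (b := 3) (c := 3) (cn := .dn) (n1 := ndF4q1) (n2 := ndF3q3) (pc := pcF3) (cut := Cut.none) (xt := Ext.none) (P1 := 536870912) (W1 := 536870912) (P2 := 0) (W2 := 1230186008) (P3 := 134217728) (W3 := 67108864)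
    rfl k0_mm_133

noncomputable def f_mm_202 : ℕ → ℕ → ℕ → ℕ → Bool := onCell 1073741824 536870912 1073741824 536870912 134217728 67108864
    (rowF 0 false false false .pp 2 0 2 (qsf 1073741824 536870912 1073741824 536870912 0) ndF4q2 ndF3q2 pcF0 Cut.none Ext.none)

def k0_mm_202 : ∃ t, chk3 f_mm_202 t 1 1 1 = true :=
  ⟨(l 3), by decide +kernel⟩

theorem c_mm_202 : CertF 1073741824 536870912 1073741824 536870912 134217728 67108864 false false false .pp 2 0 2
    ndF4q2 ndF3q2 pcF0 Cut.none Ext.none :=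
  certF0 (fam := false) (s1 := false) (s2 := false) (a := 2) (b := 0) (c := 2) (cn := .pp) (n1 := ndF4q2) (n2 := ndF3q2) (pc := pcF0) (cut := Cut.none) (xt := Ext.none) (P1 := 1073741824) (W1 := 536870912) (P2 := 1073741824) (W2 := 536870912) (P3 := 134217728) (W3 := 67108864)
    rfl k0_mm_202

noncomputable def f_mm_203 : ℕ → ℕ → ℕ → ℕ → Bool := onCell 1073741824 536870912 0 1230186008 134217728 67108864
    (rowF 0 false false false .up 2 0 3 (qsf 1073741824 536870912 0 1230186008 0) ndF4q2 ndF3q3 pcF0 Cut.none Ext.none)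

def k0_mm_203 : ∃ t, chk3 f_mm_203 t 1 1 1 = true :=
  ⟨(l 5), by decide +kernel⟩

theorem c_mm_203 : CertF 1073741824 536870912 0 1230186008 134217728 67108864 false false false .up 2 0 3
    ndF4q2 ndF3q3 pcF0 Cut.none Ext.none :=
  certF0 (fam := false) (s1 := false) (s2 := false) (a := 2) (b := 0) (c := 3) (cn := .up) (n1 := ndF4q2) (n2 := ndF3q3) (pc := pcF0) (cut := Cut.none) (xt := Ext.none) (P1 := 1073741824) (W1 := 536870912) (P2 := 0) (W2 := 1230186008) (P3 := 134217728) (W3 := 67108864)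
    rfl k0_mm_203

noncomputable def f_mm_213 : ℕ → ℕ → ℕ → ℕ → Bool := onCell 1073741824 536870912 0 1230186008 134217728 67108864
    (rowF 0 false false false .pnn 2 1 3 (qsf 1073741824 536870912 0 1230186008 1) ndF4q2 ndF3q3 pcF1 Cut.none Ext.none)

def k0_mm_213 : ∃ t, chk3 f_mm_213 t 1 1 1 = true :=
  ⟨(l 5), by decide +kernel⟩

theorem c_mm_213 : CertF 1073741824 536870912 0 1230186008 134217728 67108864 false false false .pnn 2 1 3
    ndF4q2 ndF3q3 pcF1 Cut.none Ext.none :=
  certF0 (fam := false) (s1 := false) (s2 := false) (a := 2) (b := 1) (c := 3) (cn := .pnn) (n1 := ndF4q2) (n2 := ndF3q3) (pc := pcF1) (cut := Cut.none) (xt := Ext.none) (P1 := 1073741824) (W1 := 536870912) (P2 := 0) (W2 := 1230186008) (P3 := 134217728) (W3 := 67108864)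
    rfl k0_mm_213

noncomputable def f_mm_303 : ℕ → ℕ → ℕ → ℕ → Bool := onCell 0 1230186008 0 1230186008 134217728 67108864
    (rowF 0 false false false .npn 3 0 3 (qsf 0 1230186008 0 1230186008 0) ndF4q3 ndF3q3 pcF0 Cut.none Ext.none)

def k0_mm_303 : ∃ t, chk3 f_mm_303 t 1 1 1 = true :=
  ⟨(a (b (l 3) (l 3)) (b (l 5) (l 3))), by decide +kernel⟩

theorem c_mm_303 : CertF 0 1230186008 0 1230186008 134217728 67108864 false false false .npn 3 0 3
    ndF4q3 ndF3q3 pcF0 Cut.none Ext.none :=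
  certF0 (fam := false) (s1 := false) (s2 := false) (a := 3) (b := 0) (c := 3) (cn := .npn) (n1 := ndF4q3) (n2 := ndF3q3) (pc := pcF0) (cut := Cut.none) (xt := Ext.none) (P1 := 0) (W1 := 1230186008) (P2 := 0) (W2 := 1230186008) (P3 := 134217728) (W3 := 67108864)
    rfl k0_mm_303

noncomputable def f_mm_313 : ℕ → ℕ → ℕ → ℕ → Bool := onCell 0 1230186008 0 1230186008 134217728 67108864
    (rowF 0 false false false .dn 3 1 3 (qsf 0 1230186008 0 1230186008 1) ndF4q3 ndF3q3 pcF1 Cut.none Ext.none)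

def k0_mm_313 : ∃ t, chk3 f_mm_313 t 1 1 1 = true :=
  ⟨(a (l 1) (b (l 5) (l 1))), by decide +kernel⟩

theorem c_mm_313 : CertF 0 1230186008 0 1230186008 134217728 67108864 false false false .dn 3 1 3
    ndF4q3 ndF3q3 pcF1 Cut.none Ext.none :=
  certF0 (fam := false) (s1 := false) (s2 := false) (a := 3) (b := 1) (c := 3) (cn := .dn) (n1 := ndF4q3) (n2 := ndF3q3) (pc := pcF1) (cut := Cut.none) (xt := Ext.none) (P1 := 0) (W1 := 1230186008) (P2 := 0) (W2 := 1230186008) (P3 := 134217728) (W3 := 67108864)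
    rfl k0_mm_313

end Pool.Agent.Strip051.G.I1_8_3_16.Tab.C.FB43

namespace Pool.Agent.Strip051.G.I1_8_3_16.Tab.C.FB44

open Pool.Agent.Strip051.PB Pool.Agent.Strip051.PB.T
open Pool.Agent.Strip051.G.I1_8_3_16.Tab

noncomputable def f_pp_001 : ℕ → ℕ → ℕ → ℕ → Bool := onCell 0 536870912 536870912 536870912 134217728 67108864
    (rowF 0 false true true .up 0 0 1 (qsf 0 536870912 536870912 536870912 0) ndF4q0 ndF4q1 pcF0 Cut.none Ext.none)

def k0_pp_001 : ∃ t, chk3 f_pp_001 t 1 1 1 = true :=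
  ⟨(l 3), by decide +kernel⟩

theorem c_pp_001 : CertF 0 536870912 536870912 536870912 134217728 67108864 false true true .up 0 0 1
    ndF4q0 ndF4q1 pcF0 Cut.none Ext.none :=
  certF0 (fam := false) (s1 := true) (s2 := true) (a := 0) (b := 0) (c := 1) (cn := .up) (n1 := ndF4q0) (n2 := ndF4q1) (pc := pcF0) (cut := Cut.none) (xt := Ext.none) (P1 := 0) (W1 := 536870912) (P2 := 536870912) (W2 := 536870912) (P3 := 134217728) (W3 := 67108864)
    rfl k0_pp_001

noncomputable def f_pp_011 : ℕ → ℕ → ℕ → ℕ → Bool := onCell 0 536870912 536870912 536870912 134217728 67108864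
    (rowF 0 false true true .pnn 0 1 1 (qsf 0 536870912 536870912 536870912 1) ndF4q0 ndF4q1 pcF1 Cut.none Ext.none)

def k0_pp_011 : ∃ t, chk3 f_pp_011 t 1 1 1 = true :=
  ⟨(l 3), by decide +kernel⟩

theorem c_pp_011 : CertF 0 536870912 536870912 536870912 134217728 67108864 false true true .pnn 0 1 1
    ndF4q0 ndF4q1 pcF1 Cut.none Ext.none :=
  certF0 (fam := false) (s1 := true) (s2 := true) (a := 0) (b := 1) (c := 1) (cn := .pnn) (n1 := ndF4q0) (n2 := ndF4q1) (pc := pcF1) (cut := Cut.none) (xt := Ext.none) (P1 := 0) (W1 := 536870912) (P2 := 536870912) (W2 := 536870912) (P3 := 134217728) (W3 := 67108864)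
    rfl k0_pp_011

noncomputable def f_pp_012 : ℕ → ℕ → ℕ → ℕ → Bool := onCell 536870912 536870912 1073741824 536870912 134217728 67108864
    (rowF 2 false true true .pnp 0 1 2 (qsf 0 536870912 1073741824 536870912 1) ndF4q0 ndF4q2 pcF1 Cut.none Ext.none)

def k0_pp_012 : ∃ t, chk3 f_pp_012 t 1 1 1 = true :=
  ⟨(a (l 3) (a (b (l 3) (l 474226358007)) (b (l 413024451223) (l 17684232)))), by decide +kernel⟩

theorem c_pp_012 : CertF 0 536870912 1073741824 536870912 134217728 67108864 false true true .pnp 0 1 2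
    ndF4q0 ndF4q2 pcF1 Cut.none Ext.none :=
  certF2 (fam := false) (s1 := true) (s2 := true) (a := 0) (b := 1) (c := 2) (cn := .pnp) (n1 := ndF4q0) (n2 := ndF4q2) (pc := pcF1) (cut := Cut.none) (xt := Ext.none) (P1 := 0) (W1 := 536870912) (P2 := 1073741824) (W2 := 536870912) (P3 := 134217728) (W3 := 67108864)
    rfl (fun _ => rfl) k0_pp_012

noncomputable def f_pp_022 : ℕ → ℕ → ℕ → ℕ → Bool := onCell 0 536870912 1073741824 536870912 134217728 67108864
    (rowF 1 false true true .pp 0 2 2 (qsf 0 536870912 1073741824 536870912 2) ndF4q0 ndF4q2 pcF2 Cut.none Ext.none)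

def k0_pp_022 : ∃ t, chk3 f_pp_022 t 1 1 1 = true :=
  ⟨(a (b (a (b (b (l 297597657095) (a (l 18101504) (b (l 18224968) (l 18099192)))) (b (b (a (l 18011312) (l 18049992)) (l 17974560)) (l 17893936))) (b (b (l 17950152) (b (a (l 17996096) (l 17872200)) (l 17998832))) (b (b (l 18008928) (l 17952520)) (l 17879080)))) (b (a (l 17774440) (l 17851720)) (a (l 17840920) (l 17839944)))) (b (b (b (l 17631472) (b (b (l 17691784) (l 17714120)) (a (l 17763168) (l 17705224)))) (b (b (a (l 17800312) (l 17758008)) (l 17763880)) (l 17771888))) (b (a (l 17865720) (l 2)) (l 2)))), by decide +kernel⟩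

theorem c_pp_022 : CertF 0 536870912 1073741824 536870912 134217728 67108864 false true true .pp 0 2 2
    ndF4q0 ndF4q2 pcF2 Cut.none Ext.none :=
  certF1 (fam := false) (s1 := true) (s2 := true) (a := 0) (b := 2) (c := 2) (cn := .pp) (n1 := ndF4q0) (n2 := ndF4q2) (pc := pcF2) (cut := Cut.none) (xt := Ext.none) (P1 := 0) (W1 := 536870912) (P2 := 1073741824) (W2 := 536870912) (P3 := 134217728) (W3 := 67108864)
    rfl (fun _ => rfl) k0_pp_022

noncomputable def f_pp_023 : ℕ → ℕ → ℕ → ℕ → Bool := onCell 1073741824 536870912 0 1230186008 134217728 67108864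
    (rowF 2 false true true .up 0 2 3 (qsf 0 536870912 0 1230186008 2) ndF4q0 ndF4q3 pcF2 Cut.none Ext.none)

def k0_pp_023 : ∃ t, chk3 f_pp_023 t 1 1 1 = true :=
  ⟨(b (a (l 2) (l 17960696)) (b (a (a (l 2) (a (l 2) (l 18099200))) (a (l 17943752) (l 17699984))) (a (a (a (l 18080240) (a (a (l 18062920) (l 18043840)) (l 17991096))) (a (a (l 17965992) (l 17909000)) (l 17824352))) (b (l 17722400) (l 17562112))))), by decide +kernel⟩

theorem c_pp_023 : CertF 0 536870912 0 1230186008 134217728 67108864 false true true .up 0 2 3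
    ndF4q0 ndF4q3 pcF2 Cut.none Ext.none :=
  certF2 (fam := false) (s1 := true) (s2 := true) (a := 0) (b := 2) (c := 3) (cn := .up) (n1 := ndF4q0) (n2 := ndF4q3) (pc := pcF2) (cut := Cut.none) (xt := Ext.none) (P1 := 0) (W1 := 536870912) (P2 := 0) (W2 := 1230186008) (P3 := 134217728) (W3 := 67108864)
    rfl (fun _ => rfl) k0_pp_023

noncomputable def f_pp_033 : ℕ → ℕ → ℕ → ℕ → Bool := onCell 1610612736 536870912 0 1230186008 134217728 67108864
    (rowF 2 false true true .pnn 0 3 3 (qsf 0 536870912 0 1230186008 3) ndF4q0 ndF4q3 pcF3 Cut.none Ext.none)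

def k0_pp_033 : ∃ t, chk3 f_pp_033 t 1 1 1 = true :=
  ⟨(b (a (a (l 17113328) (l 4)) (l 4)) (b (a (a (l 17153576) (l 16998192)) (a (l 16957552) (b (a (l 4) (l 1)) (l 1)))) (a (b (a (l 17117984) (l 17307224)) (a (l 17208016) (b (a (l 17167768) (l 1)) (l 1)))) (l 1)))), by decide +kernel⟩

theorem c_pp_033 : CertF 0 536870912 0 1230186008 134217728 67108864 false true true .pnn 0 3 3
    ndF4q0 ndF4q3 pcF3 Cut.none Ext.none :=
  certF2 (fam := false) (s1 := true) (s2 := true) (a := 0) (b := 3) (c := 3) (cn := .pnn) (n1 := ndF4q0) (n2 := ndF4q3) (pc := pcF3) (cut := Cut.none) (xt := Ext.none) (P1 := 0) (W1 := 536870912) (P2 := 0) (W2 := 1230186008) (P3 := 134217728) (W3 := 67108864)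
    rfl (fun _ => rfl) k0_pp_033

noncomputable def f_pp_101 : ℕ → ℕ → ℕ → ℕ → Bool := onCell 536870912 536870912 536870912 536870912 134217728 67108864
    (rowF 0 false true true .npn 1 0 1 (qsf 536870912 536870912 536870912 536870912 0) ndF4q1 ndF4q1 pcF0 Cut.none Ext.none)

def k0_pp_101 : ∃ t, chk3 f_pp_101 t 1 1 1 = true :=
  ⟨(l 3), by decide +kernel⟩

theorem c_pp_101 : CertF 536870912 536870912 536870912 536870912 134217728 67108864 false true true .npn 1 0 1
    ndF4q1 ndF4q1 pcF0 Cut.none Ext.none :=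
  certF0 (fam := false) (s1 := true) (s2 := true) (a := 1) (b := 0) (c := 1) (cn := .npn) (n1 := ndF4q1) (n2 := ndF4q1) (pc := pcF0) (cut := Cut.none) (xt := Ext.none) (P1 := 536870912) (W1 := 536870912) (P2 := 536870912) (W2 := 536870912) (P3 := 134217728) (W3 := 67108864)
    rfl k0_pp_101

noncomputable def f_pp_102 : ℕ → ℕ → ℕ → ℕ → Bool := onCell 536870912 536870912 0 536870912 134217728 67108864
    (rowF 1 false true true .npp 1 0 2 (qsf 536870912 536870912 1073741824 536870912 0) ndF4q1 ndF4q2 pcF0 Cut.none Ext.none)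

def k0_pp_102 : ∃ t, chk3 f_pp_102 t 1 1 1 = true :=
  ⟨(l 3), by decide +kernel⟩

theorem c_pp_102 : CertF 536870912 536870912 1073741824 536870912 134217728 67108864 false true true .npp 1 0 2
    ndF4q1 ndF4q2 pcF0 Cut.none Ext.none :=
  certF1 (fam := false) (s1 := true) (s2 := true) (a := 1) (b := 0) (c := 2) (cn := .npp) (n1 := ndF4q1) (n2 := ndF4q2) (pc := pcF0) (cut := Cut.none) (xt := Ext.none) (P1 := 536870912) (W1 := 536870912) (P2 := 1073741824) (W2 := 536870912) (P3 := 134217728) (W3 := 67108864)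
    rfl (fun _ => rfl) k0_pp_102

noncomputable def f_pp_112 : ℕ → ℕ → ℕ → ℕ → Bool := onCell 536870912 536870912 1073741824 536870912 134217728 67108864
    (rowF 2 false true true .dn 1 1 2 (qsf 536870912 536870912 1073741824 536870912 1) ndF4q1 ndF4q2 pcF1 Cut.none Ext.none)

def k0_pp_112 : ∃ t, chk3 f_pp_112 t 1 1 1 = true :=
  ⟨(a (l 3) (a (b (l 3) (l 18697696)) (b (l 1) (l 18448256)))), by decide +kernel⟩

theorem c_pp_112 : CertF 536870912 536870912 1073741824 536870912 134217728 67108864 false true true .dn 1 1 2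
    ndF4q1 ndF4q2 pcF1 Cut.none Ext.none :=
  certF2 (fam := false) (s1 := true) (s2 := true) (a := 1) (b := 1) (c := 2) (cn := .dn) (n1 := ndF4q1) (n2 := ndF4q2) (pc := pcF1) (cut := Cut.none) (xt := Ext.none) (P1 := 536870912) (W1 := 536870912) (P2 := 1073741824) (W2 := 536870912) (P3 := 134217728) (W3 := 67108864)
    rfl (fun _ => rfl) k0_pp_112

noncomputable def f_pp_113 : ℕ → ℕ → ℕ → ℕ → Bool := onCell 536870912 536870912 0 1230186008 134217728 67108864
    (rowF 2 false true true .nn 1 1 3 (qsf 536870912 536870912 0 1230186008 1) ndF4q1 ndF4q3 pcF1 Cut.none Ext.none)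

def k0_pp_113 : ∃ t, chk3 f_pp_113 t 1 1 1 = true :=
  ⟨(a (b (l 2) (a (b (l 2) (b (l 2) (l 3))) (b (l 18871880) (b (l 18512616) (l 18362872))))) (a (b (l 2) (b (l 18077904) (l 18106184))) (b (b (a (l 2) (l 17034424)) (l 17566208)) (b (l 17755744) (l 17701656))))), by decide +kernel⟩

theorem c_pp_113 : CertF 536870912 536870912 0 1230186008 134217728 67108864 false true true .nn 1 1 3
    ndF4q1 ndF4q3 pcF1 Cut.none Ext.none :=
  certF2 (fam := false) (s1 := true) (s2 := true) (a := 1) (b := 1) (c := 3) (cn := .nn) (n1 := ndF4q1) (n2 := ndF4q3) (pc := pcF1) (cut := Cut.none) (xt := Ext.none) (P1 := 536870912) (W1 := 536870912) (P2 := 0) (W2 := 1230186008) (P3 := 134217728) (W3 := 67108864)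
    rfl (fun _ => rfl) k0_pp_113

noncomputable def f_pp_123 : ℕ → ℕ → ℕ → ℕ → Bool := onCell 1073741824 536870912 0 1230186008 134217728 67108864
    (rowF 2 false true true .npn 1 2 3 (qsf 536870912 536870912 0 1230186008 2) ndF4q1 ndF4q3 pcF2 Cut.none Ext.none)

def k0_pp_123 : ∃ t, chk3 f_pp_123 t 1 1 1 = true :=
  ⟨(b (a (a (l 17056840) (l 16995848)) (a (l 16945784) (l 16942296))) (b (a (a (a (l 17369016) (a (l 17296384) (l 17247800))) (a (l 17183656) (l 17108328))) (a (l 17016168) (l 16909352))) (a (a (a (l 17521728) (a (a (l 17466992) (l 17445424)) (l 17409824))) (a (a (l 17393120) (l 17328976)) (l 17264032))) (l 1)))), by decide +kernel⟩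

theorem c_pp_123 : CertF 536870912 536870912 0 1230186008 134217728 67108864 false true true .npn 1 2 3
    ndF4q1 ndF4q3 pcF2 Cut.none Ext.none :=
  certF2 (fam := false) (s1 := true) (s2 := true) (a := 1) (b := 2) (c := 3) (cn := .npn) (n1 := ndF4q1) (n2 := ndF4q3) (pc := pcF2) (cut := Cut.none) (xt := Ext.none) (P1 := 536870912) (W1 := 536870912) (P2 := 0) (W2 := 1230186008) (P3 := 134217728) (W3 := 67108864)
    rfl (fun _ => rfl) k0_pp_123

noncomputable def f_pp_133 : ℕ → ℕ → ℕ → ℕ → Bool := onCell 1610612736 536870912 0 1230186008 134217728 67108864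
    (rowF 2 false true true .dn 1 3 3 (qsf 536870912 536870912 0 1230186008 3) ndF4q1 ndF4q3 pcF3 Cut.none Ext.none)

def k0_pp_133 : ∃ t, chk3 f_pp_133 t 1 1 1 = true :=
  ⟨(b (b (l 4) (l 1)) (l 1)), by decide +kernel⟩

theorem c_pp_133 : CertF 536870912 536870912 0 1230186008 134217728 67108864 false true true .dn 1 3 3
    ndF4q1 ndF4q3 pcF3 Cut.none Ext.none :=
  certF2 (fam := false) (s1 := true) (s2 := true) (a := 1) (b := 3) (c := 3) (cn := .dn) (n1 := ndF4q1) (n2 := ndF4q3) (pc := pcF3) (cut := Cut.none) (xt := Ext.none) (P1 := 536870912) (W1 := 536870912) (P2 := 0) (W2 := 1230186008) (P3 := 134217728) (W3 := 67108864)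
    rfl (fun _ => rfl) k0_pp_133

noncomputable def f_pp_202 : ℕ → ℕ → ℕ → ℕ → Bool := onCell 1073741824 536870912 1073741824 536870912 134217728 67108864
    (rowF 0 false true true .pp 2 0 2 (qsf 1073741824 536870912 1073741824 536870912 0) ndF4q2 ndF4q2 pcF0 Cut.none Ext.none)

def k0_pp_202 : ∃ t, chk3 f_pp_202 t 1 1 1 = true :=
  ⟨(l 3), by decide +kernel⟩

theorem c_pp_202 : CertF 1073741824 536870912 1073741824 536870912 134217728 67108864 false true true .pp 2 0 2
    ndF4q2 ndF4q2 pcF0 Cut.none Ext.none :=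
  certF0 (fam := false) (s1 := true) (s2 := true) (a := 2) (b := 0) (c := 2) (cn := .pp) (n1 := ndF4q2) (n2 := ndF4q2) (pc := pcF0) (cut := Cut.none) (xt := Ext.none) (P1 := 1073741824) (W1 := 536870912) (P2 := 1073741824) (W2 := 536870912) (P3 := 134217728) (W3 := 67108864)
    rfl k0_pp_202

noncomputable def f_pp_203 : ℕ → ℕ → ℕ → ℕ → Bool := onCell 0 536870912 0 1230186008 134217728 67108864
    (rowF 2 false true true .up 2 0 3 (qsf 1073741824 536870912 0 1230186008 0) ndF4q2 ndF4q3 pcF0 Cut.none Ext.none)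

def k0_pp_203 : ∃ t, chk3 f_pp_203 t 1 1 1 = true :=
  ⟨(b (a (l 2) (l 3)) (l 3)), by decide +kernel⟩

theorem c_pp_203 : CertF 1073741824 536870912 0 1230186008 134217728 67108864 false true true .up 2 0 3
    ndF4q2 ndF4q3 pcF0 Cut.none Ext.none :=
  certF2 (fam := false) (s1 := true) (s2 := true) (a := 2) (b := 0) (c := 3) (cn := .up) (n1 := ndF4q2) (n2 := ndF4q3) (pc := pcF0) (cut := Cut.none) (xt := Ext.none) (P1 := 1073741824) (W1 := 536870912) (P2 := 0) (W2 := 1230186008) (P3 := 134217728) (W3 := 67108864)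
    rfl (fun _ => rfl) k0_pp_203

noncomputable def f_pp_213 : ℕ → ℕ → ℕ → ℕ → Bool := onCell 536870912 536870912 0 1230186008 134217728 67108864
    (rowF 2 false true true .pnn 2 1 3 (qsf 1073741824 536870912 0 1230186008 1) ndF4q2 ndF4q3 pcF1 Cut.none Ext.none)

def k0_pp_213 : ∃ t, chk3 f_pp_213 t 1 1 1 = true :=
  ⟨(a (b (a (b (l 264846799431) (l 3)) (b (l 17310352) (l 308870361831))) (l 3)) (b (a (b (l 17242024) (l 17331760)) (b (l 17186040) (l 17279208))) (b (a (l 366852689847) (l 492345919927)) (l 1)))), by decide +kernel⟩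

theorem c_pp_213 : CertF 1073741824 536870912 0 1230186008 134217728 67108864 false true true .pnn 2 1 3
    ndF4q2 ndF4q3 pcF1 Cut.none Ext.none :=
  certF2 (fam := false) (s1 := true) (s2 := true) (a := 2) (b := 1) (c := 3) (cn := .pnn) (n1 := ndF4q2) (n2 := ndF4q3) (pc := pcF1) (cut := Cut.none) (xt := Ext.none) (P1 := 1073741824) (W1 := 536870912) (P2 := 0) (W2 := 1230186008) (P3 := 134217728) (W3 := 67108864)
    rfl (fun _ => rfl) k0_pp_213

noncomputable def f_pp_303 : ℕ → ℕ → ℕ → ℕ → Bool := onCell 0 1230186008 0 1230186008 134217728 67108864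
    (rowF 0 false true true .npn 3 0 3 (qsf 0 1230186008 0 1230186008 0) ndF4q3 ndF4q3 pcF0 Cut.none Ext.none)

def k0_pp_303 : ∃ t, chk3 f_pp_303 t 1 1 1 = true :=
  ⟨(a (b (l 3) (a (l 1) (l 3))) (b (b (l 3) (l 3)) (l 3))), by decide +kernel⟩

theorem c_pp_303 : CertF 0 1230186008 0 1230186008 134217728 67108864 false true true .npn 3 0 3
    ndF4q3 ndF4q3 pcF0 Cut.none Ext.none :=
  certF0 (fam := false) (s1 := true) (s2 := true) (a := 3) (b := 0) (c := 3) (cn := .npn) (n1 := ndF4q3) (n2 := ndF4q3) (pc := pcF0) (cut := Cut.none) (xt := Ext.none) (P1 := 0) (W1 := 1230186008) (P2 := 0) (W2 := 1230186008) (P3 := 134217728) (W3 := 67108864)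
    rfl k0_pp_303

noncomputable def f_pp_313 : ℕ → ℕ → ℕ → ℕ → Bool := onCell 0 1230186008 0 1230186008 134217728 67108864
    (rowF 0 false true true .dn 3 1 3 (qsf 0 1230186008 0 1230186008 1) ndF4q3 ndF4q3 pcF1 Cut.none Ext.none)

def k0_pp_313 : ∃ t, chk3 f_pp_313 t 1 1 1 = true :=
  ⟨(a (l 1) (b (b (l 3) (l 1)) (l 1))), by decide +kernel⟩

theorem c_pp_313 : CertF 0 1230186008 0 1230186008 134217728 67108864 false true true .dn 3 1 3
    ndF4q3 ndF4q3 pcF1 Cut.none Ext.none :=
  certF0 (fam := false) (s1 := true) (s2 := true) (a := 3) (b := 1) (c := 3) (cn := .dn) (n1 := ndF4q3) (n2 := ndF4q3) (pc := pcF1) (cut := Cut.none) (xt := Ext.none) (P1 := 0) (W1 := 1230186008) (P2 := 0) (W2 := 1230186008) (P3 := 134217728) (W3 := 67108864)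
    rfl k0_pp_313

noncomputable def f_pm_001 : ℕ → ℕ → ℕ → ℕ → Bool := onCell 0 536870912 536870912 536870912 134217728 67108864
    (rowF 0 false true false .up 0 0 1 (qsf 0 536870912 536870912 536870912 0) ndF4q0 ndF4q1 pcF0 Cut.none Ext.none)

def k0_pm_001 : ∃ t, chk3 f_pm_001 t 1 1 1 = true :=
  ⟨(l 4), by decide +kernel⟩

theorem c_pm_001 : CertF 0 536870912 536870912 536870912 134217728 67108864 false true false .up 0 0 1
    ndF4q0 ndF4q1 pcF0 Cut.none Ext.none :=
  certF0 (fam := false) (s1 := true) (s2 := false) (a := 0) (b := 0) (c := 1) (cn := .up) (n1 := ndF4q0) (n2 := ndF4q1) (pc := pcF0) (cut := Cut.none) (xt := Ext.none) (P1 := 0) (W1 := 536870912) (P2 := 536870912) (W2 := 536870912) (P3 := 134217728) (W3 := 67108864)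
    rfl k0_pm_001

noncomputable def f_pm_011 : ℕ → ℕ → ℕ → ℕ → Bool := onCell 0 536870912 536870912 536870912 134217728 67108864
    (rowF 0 false true false .pnn 0 1 1 (qsf 0 536870912 536870912 536870912 1) ndF4q0 ndF4q1 pcF1 Cut.none Ext.none)

def k0_pm_011 : ∃ t, chk3 f_pm_011 t 1 1 1 = true :=
  ⟨(l 4), by decide +kernel⟩

theorem c_pm_011 : CertF 0 536870912 536870912 536870912 134217728 67108864 false true false .pnn 0 1 1
    ndF4q0 ndF4q1 pcF1 Cut.none Ext.none :=
  certF0 (fam := false) (s1 := true) (s2 := false) (a := 0) (b := 1) (c := 1) (cn := .pnn) (n1 := ndF4q0) (n2 := ndF4q1) (pc := pcF1) (cut := Cut.none) (xt := Ext.none) (P1 := 0) (W1 := 536870912) (P2 := 536870912) (W2 := 536870912) (P3 := 134217728) (W3 := 67108864)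
    rfl k0_pm_011

noncomputable def f_pm_012 : ℕ → ℕ → ℕ → ℕ → Bool := onCell 0 536870912 1073741824 536870912 134217728 67108864
    (rowF 0 false true false .pnp 0 1 2 (qsf 0 536870912 1073741824 536870912 1) ndF4q0 ndF4q2 pcF1 Cut.none Ext.none)

def k0_pm_012 : ∃ t, chk3 f_pm_012 t 1 1 1 = true :=
  ⟨(l 4), by decide +kernel⟩

theorem c_pm_012 : CertF 0 536870912 1073741824 536870912 134217728 67108864 false true false .pnp 0 1 2
    ndF4q0 ndF4q2 pcF1 Cut.none Ext.none :=
  certF0 (fam := false) (s1 := true) (s2 := false) (a := 0) (b := 1) (c := 2) (cn := .pnp) (n1 := ndF4q0) (n2 := ndF4q2) (pc := pcF1) (cut := Cut.none) (xt := Ext.none) (P1 := 0) (W1 := 536870912) (P2 := 1073741824) (W2 := 536870912) (P3 := 134217728) (W3 := 67108864)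
    rfl k0_pm_012

noncomputable def f_pm_022 : ℕ → ℕ → ℕ → ℕ → Bool := onCell 0 536870912 1073741824 536870912 134217728 67108864
    (rowF 0 false true false .pp 0 2 2 (qsf 0 536870912 1073741824 536870912 2) ndF4q0 ndF4q2 pcF2 Cut.none Ext.none)

def k0_pm_022 : ∃ t, chk3 f_pm_022 t 1 1 1 = true :=
  ⟨(l 4), by decide +kernel⟩

theorem c_pm_022 : CertF 0 536870912 1073741824 536870912 134217728 67108864 false true false .pp 0 2 2
    ndF4q0 ndF4q2 pcF2 Cut.none Ext.none :=
  certF0 (fam := false) (s1 := true) (s2 := false) (a := 0) (b := 2) (c := 2) (cn := .pp) (n1 := ndF4q0) (n2 := ndF4q2) (pc := pcF2) (cut := Cut.none) (xt := Ext.none) (P1 := 0) (W1 := 536870912) (P2 := 1073741824) (W2 := 536870912) (P3 := 134217728) (W3 := 67108864)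
    rfl k0_pm_022

noncomputable def f_pm_023 : ℕ → ℕ → ℕ → ℕ → Bool := onCell 0 536870912 0 1230186008 134217728 67108864
    (rowF 0 false true false .up 0 2 3 (qsf 0 536870912 0 1230186008 2) ndF4q0 ndF4q3 pcF2 Cut.none Ext.none)

def k0_pm_023 : ∃ t, chk3 f_pm_023 t 1 1 1 = true :=
  ⟨(b (l 4) (l 4)), by decide +kernel⟩

theorem c_pm_023 : CertF 0 536870912 0 1230186008 134217728 67108864 false true false .up 0 2 3
    ndF4q0 ndF4q3 pcF2 Cut.none Ext.none :=
  certF0 (fam := false) (s1 := true) (s2 := false) (a := 0) (b := 2) (c := 3) (cn := .up) (n1 := ndF4q0) (n2 := ndF4q3) (pc := pcF2) (cut := Cut.none) (xt := Ext.none) (P1 := 0) (W1 := 536870912) (P2 := 0) (W2 := 1230186008) (P3 := 134217728) (W3 := 67108864)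
    rfl k0_pm_023

noncomputable def f_pm_033 : ℕ → ℕ → ℕ → ℕ → Bool := onCell 0 536870912 0 1230186008 134217728 67108864
    (rowF 0 false true false .pnn 0 3 3 (qsf 0 536870912 0 1230186008 3) ndF4q0 ndF4q3 pcF3 Cut.none Ext.none)

def k0_pm_033 : ∃ t, chk3 f_pm_033 t 1 1 1 = true :=
  ⟨(b (l 4) (l 4)), by decide +kernel⟩

theorem c_pm_033 : CertF 0 536870912 0 1230186008 134217728 67108864 false true false .pnn 0 3 3
    ndF4q0 ndF4q3 pcF3 Cut.none Ext.none :=
  certF0 (fam := false) (s1 := true) (s2 := false) (a := 0) (b := 3) (c := 3) (cn := .pnn) (n1 := ndF4q0) (n2 := ndF4q3) (pc := pcF3) (cut := Cut.none) (xt := Ext.none) (P1 := 0) (W1 := 536870912) (P2 := 0) (W2 := 1230186008) (P3 := 134217728) (W3 := 67108864)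
    rfl k0_pm_033

noncomputable def f_pm_101 : ℕ → ℕ → ℕ → ℕ → Bool := onCell 536870912 536870912 536870912 536870912 134217728 67108864
    (rowF 0 false true false .npn 1 0 1 (qsf 536870912 536870912 536870912 536870912 0) ndF4q1 ndF4q1 pcF0 Cut.none Ext.none)

def k0_pm_101 : ∃ t, chk3 f_pm_101 t 1 1 1 = true :=
  ⟨(l 4), by decide +kernel⟩

theorem c_pm_101 : CertF 536870912 536870912 536870912 536870912 134217728 67108864 false true false .npn 1 0 1
    ndF4q1 ndF4q1 pcF0 Cut.none Ext.none :=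
  certF0 (fam := false) (s1 := true) (s2 := false) (a := 1) (b := 0) (c := 1) (cn := .npn) (n1 := ndF4q1) (n2 := ndF4q1) (pc := pcF0) (cut := Cut.none) (xt := Ext.none) (P1 := 536870912) (W1 := 536870912) (P2 := 536870912) (W2 := 536870912) (P3 := 134217728) (W3 := 67108864)
    rfl k0_pm_101

noncomputable def f_pm_102 : ℕ → ℕ → ℕ → ℕ → Bool := onCell 536870912 536870912 1073741824 536870912 134217728 67108864
    (rowF 0 false true false .npp 1 0 2 (qsf 536870912 536870912 1073741824 536870912 0) ndF4q1 ndF4q2 pcF0 Cut.none Ext.none)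

def k0_pm_102 : ∃ t, chk3 f_pm_102 t 1 1 1 = true :=
  ⟨(l 4), by decide +kernel⟩

theorem c_pm_102 : CertF 536870912 536870912 1073741824 536870912 134217728 67108864 false true false .npp 1 0 2
    ndF4q1 ndF4q2 pcF0 Cut.none Ext.none :=
  certF0 (fam := false) (s1 := true) (s2 := false) (a := 1) (b := 0) (c := 2) (cn := .npp) (n1 := ndF4q1) (n2 := ndF4q2) (pc := pcF0) (cut := Cut.none) (xt := Ext.none) (P1 := 536870912) (W1 := 536870912) (P2 := 1073741824) (W2 := 536870912) (P3 := 134217728) (W3 := 67108864)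
    rfl k0_pm_102

noncomputable def f_pm_112 : ℕ → ℕ → ℕ → ℕ → Bool := onCell 536870912 536870912 1073741824 536870912 134217728 67108864
    (rowF 0 false true false .dn 1 1 2 (qsf 536870912 536870912 1073741824 536870912 1) ndF4q1 ndF4q2 pcF1 Cut.none Ext.none)

def k0_pm_112 : ∃ t, chk3 f_pm_112 t 1 1 1 = true :=
  ⟨(l 4), by decide +kernel⟩

theorem c_pm_112 : CertF 536870912 536870912 1073741824 536870912 134217728 67108864 false true false .dn 1 1 2
    ndF4q1 ndF4q2 pcF1 Cut.none Ext.none :=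
  certF0 (fam := false) (s1 := true) (s2 := false) (a := 1) (b := 1) (c := 2) (cn := .dn) (n1 := ndF4q1) (n2 := ndF4q2) (pc := pcF1) (cut := Cut.none) (xt := Ext.none) (P1 := 536870912) (W1 := 536870912) (P2 := 1073741824) (W2 := 536870912) (P3 := 134217728) (W3 := 67108864)
    rfl k0_pm_112

noncomputable def f_pm_113 : ℕ → ℕ → ℕ → ℕ → Bool := onCell 536870912 536870912 0 1230186008 134217728 67108864
    (rowF 0 false true false .nn 1 1 3 (qsf 536870912 536870912 0 1230186008 1) ndF4q1 ndF4q3 pcF1 Cut.none Ext.none)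

def k0_pm_113 : ∃ t, chk3 f_pm_113 t 1 1 1 = true :=
  ⟨(b (b (a (l 2) (l 16953072)) (l 4)) (l 4)), by decide +kernel⟩

theorem c_pm_113 : CertF 536870912 536870912 0 1230186008 134217728 67108864 false true false .nn 1 1 3
    ndF4q1 ndF4q3 pcF1 Cut.none Ext.none :=
  certF0 (fam := false) (s1 := true) (s2 := false) (a := 1) (b := 1) (c := 3) (cn := .nn) (n1 := ndF4q1) (n2 := ndF4q3) (pc := pcF1) (cut := Cut.none) (xt := Ext.none) (P1 := 536870912) (W1 := 536870912) (P2 := 0) (W2 := 1230186008) (P3 := 134217728) (W3 := 67108864)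
    rfl k0_pm_113

noncomputable def f_pm_123 : ℕ → ℕ → ℕ → ℕ → Bool := onCell 536870912 536870912 0 1230186008 134217728 67108864
    (rowF 0 false true false .npn 1 2 3 (qsf 536870912 536870912 0 1230186008 2) ndF4q1 ndF4q3 pcF2 Cut.none Ext.none)

def k0_pm_123 : ∃ t, chk3 f_pm_123 t 1 1 1 = true :=
  ⟨(b (a (l 4) (b (l 17362936) (l 4))) (l 4)), by decide +kernel⟩

theorem c_pm_123 : CertF 536870912 536870912 0 1230186008 134217728 67108864 false true false .npn 1 2 3
    ndF4q1 ndF4q3 pcF2 Cut.none Ext.none :=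
  certF0 (fam := false) (s1 := true) (s2 := false) (a := 1) (b := 2) (c := 3) (cn := .npn) (n1 := ndF4q1) (n2 := ndF4q3) (pc := pcF2) (cut := Cut.none) (xt := Ext.none) (P1 := 536870912) (W1 := 536870912) (P2 := 0) (W2 := 1230186008) (P3 := 134217728) (W3 := 67108864)
    rfl k0_pm_123

noncomputable def f_pm_133 : ℕ → ℕ → ℕ → ℕ → Bool := onCell 1610612736 536870912 0 1230186008 134217728 67108864
    (rowF 2 false true false .dn 1 3 3 (qsf 536870912 536870912 0 1230186008 3) ndF4q1 ndF4q3 pcF3 Cut.none Ext.none)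

def k0_pm_133 : ∃ t, chk3 f_pm_133 t 1 1 1 = true :=
  ⟨(b (l 4) (l 1)), by decide +kernel⟩

theorem c_pm_133 : CertF 536870912 536870912 0 1230186008 134217728 67108864 false true false .dn 1 3 3
    ndF4q1 ndF4q3 pcF3 Cut.none Ext.none :=
  certF2 (fam := false) (s1 := true) (s2 := false) (a := 1) (b := 3) (c := 3) (cn := .dn) (n1 := ndF4q1) (n2 := ndF4q3) (pc := pcF3) (cut := Cut.none) (xt := Ext.none) (P1 := 536870912) (W1 := 536870912) (P2 := 0) (W2 := 1230186008) (P3 := 134217728) (W3 := 67108864)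
    rfl (fun _ => rfl) k0_pm_133

noncomputable def f_pm_202 : ℕ → ℕ → ℕ → ℕ → Bool := onCell 0 536870912 1073741824 536870912 134217728 67108864
    (rowF 2 false true false .pp 2 0 2 (qsf 1073741824 536870912 1073741824 536870912 0) ndF4q2 ndF4q2 pcF0 Cut.none Ext.none)

def k0_pm_202 : ∃ t, chk3 f_pm_202 t 1 1 1 = true :=
  ⟨(a (b (l 4) (a (l 18324008) (l 4))) (l 4)), by decide +kernel⟩

theorem c_pm_202 : CertF 1073741824 536870912 1073741824 536870912 134217728 67108864 false true false .pp 2 0 2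
    ndF4q2 ndF4q2 pcF0 Cut.none Ext.none :=
  certF2 (fam := false) (s1 := true) (s2 := false) (a := 2) (b := 0) (c := 2) (cn := .pp) (n1 := ndF4q2) (n2 := ndF4q2) (pc := pcF0) (cut := Cut.none) (xt := Ext.none) (P1 := 1073741824) (W1 := 536870912) (P2 := 1073741824) (W2 := 536870912) (P3 := 134217728) (W3 := 67108864)
    rfl (fun _ => rfl) k0_pm_202

noncomputable def f_pm_203 : ℕ → ℕ → ℕ → ℕ → Bool := onCell 0 536870912 0 1230186008 134217728 67108864
    (rowF 2 false true false .up 2 0 3 (qsf 1073741824 536870912 0 1230186008 0) ndF4q2 ndF4q3 pcF0 Cut.none Ext.none)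

def k0_pm_203 : ∃ t, chk3 f_pm_203 t 1 1 1 = true :=
  ⟨(b (a (l 2) (a (l 2) (b (l 17676176) (l 17970408)))) (a (b (a (l 2) (l 651328291639)) (b (l 145594589495) (l 17388368))) (b (a (b (l 18174136) (l 18022472)) (b (l 18221512) (b (l 18192064) (l 17769088)))) (a (l 17835152) (a (l 17963976) (l 17777848)))))), by decide +kernel⟩

theorem c_pm_203 : CertF 1073741824 536870912 0 1230186008 134217728 67108864 false true false .up 2 0 3
    ndF4q2 ndF4q3 pcF0 Cut.none Ext.none :=
  certF2 (fam := false) (s1 := true) (s2 := false) (a := 2) (b := 0) (c := 3) (cn := .up) (n1 := ndF4q2) (n2 := ndF4q3) (pc := pcF0) (cut := Cut.none) (xt := Ext.none) (P1 := 1073741824) (W1 := 536870912) (P2 := 0) (W2 := 1230186008) (P3 := 134217728) (W3 := 67108864)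
    rfl (fun _ => rfl) k0_pm_203

noncomputable def f_pm_213 : ℕ → ℕ → ℕ → ℕ → Bool := onCell 536870912 536870912 0 1230186008 134217728 67108864
    (rowF 2 false true false .pnn 2 1 3 (qsf 1073741824 536870912 0 1230186008 1) ndF4q2 ndF4q3 pcF1 Cut.none Ext.none)

def k0_pm_213 : ∃ t, chk3 f_pm_213 t 1 1 1 = true :=
  ⟨(b (b (a (a (l 17321216) (l 17194248)) (a (l 17141736) (l 17007920))) (a (a (l 17409968) (l 17162512)) (a (a (l 16992824) (l 16919048)) (a (a (l 16961104) (l 17049568)) (l 17172352))))) (b (a (b (a (l 17061096) (l 17019424)) (l 17193280)) (b (a (a (l 17176136) (l 17320104)) (a (l 17433000) (l 1))) (l 17561840))) (a (a (l 17508432) (l 4)) (l 1)))), by decide +kernel⟩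

theorem c_pm_213 : CertF 1073741824 536870912 0 1230186008 134217728 67108864 false true false .pnn 2 1 3
    ndF4q2 ndF4q3 pcF1 Cut.none Ext.none :=
  certF2 (fam := false) (s1 := true) (s2 := false) (a := 2) (b := 1) (c := 3) (cn := .pnn) (n1 := ndF4q2) (n2 := ndF4q3) (pc := pcF1) (cut := Cut.none) (xt := Ext.none) (P1 := 1073741824) (W1 := 536870912) (P2 := 0) (W2 := 1230186008) (P3 := 134217728) (W3 := 67108864)
    rfl (fun _ => rfl) k0_pm_213

noncomputable def f_pm_303 : ℕ → ℕ → ℕ → ℕ → Bool := onCell 0 1230186008 0 1230186008 134217728 67108864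
    (rowF 0 false true false .npn 3 0 3 (qsf 0 1230186008 0 1230186008 0) ndF4q3 ndF4q3 pcF0 Cut.none Ext.none)

def k0_pm_303 : ∃ t, chk3 f_pm_303 t 1 1 1 = true :=
  ⟨(a (b (l 3) (b (b (l 3) (l 1)) (l 1))) (b (a (b (l 3) (l 281489769975)) (a (b (l 3) (l 17520656)) (b (l 227801981399) (b (l 17151632) (l 17351144))))) (a (a (b (b (l 234782414039) (b (l 680251078343) (l 1))) (l 1)) (b (b (l 17580032) (l 17289112)) (b (b (l 17045080) (l 1)) (l 1)))) (b (a (b (l 17569736) (l 17341872)) (b (l 17521104) (l 17383000))) (b (a (l 17151064) (l 17179240)) (a (a (l 1) (b (l 17191472) (l 1))) (l 17196688))))))), by decide +kernel⟩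

theorem c_pm_303 : CertF 0 1230186008 0 1230186008 134217728 67108864 false true false .npn 3 0 3
    ndF4q3 ndF4q3 pcF0 Cut.none Ext.none :=
  certF0 (fam := false) (s1 := true) (s2 := false) (a := 3) (b := 0) (c := 3) (cn := .npn) (n1 := ndF4q3) (n2 := ndF4q3) (pc := pcF0) (cut := Cut.none) (xt := Ext.none) (P1 := 0) (W1 := 1230186008) (P2 := 0) (W2 := 1230186008) (P3 := 134217728) (W3 := 67108864)
    rfl k0_pm_303

noncomputable def f_pm_313 : ℕ → ℕ → ℕ → ℕ → Bool := onCell 0 1230186008 0 1230186008 134217728 67108864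
    (rowF 0 false true false .dn 3 1 3 (qsf 0 1230186008 0 1230186008 1) ndF4q3 ndF4q3 pcF1 Cut.none Ext.none)

def k0_pm_313 : ∃ t, chk3 f_pm_313 t 1 1 1 = true :=
  ⟨(a (l 1) (b (a (l 1) (a (l 1) (b (a (l 1) (l 228338725783)) (l 1)))) (l 1))), by decide +kernel⟩

theorem c_pm_313 : CertF 0 1230186008 0 1230186008 134217728 67108864 false true false .dn 3 1 3
    ndF4q3 ndF4q3 pcF1 Cut.none Ext.none :=
  certF0 (fam := false) (s1 := true) (s2 := false) (a := 3) (b := 1) (c := 3) (cn := .dn) (n1 := ndF4q3) (n2 := ndF4q3) (pc := pcF1) (cut := Cut.none) (xt := Ext.none) (P1 := 0) (W1 := 1230186008) (P2 := 0) (W2 := 1230186008) (P3 := 134217728) (W3 := 67108864)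
    rfl k0_pm_313

noncomputable def f_mm_001 : ℕ → ℕ → ℕ → ℕ → Bool := onCell 0 536870912 536870912 536870912 134217728 67108864
    (rowF 0 false false false .up 0 0 1 (qsf 0 536870912 536870912 536870912 0) ndF4q0 ndF4q1 pcF0 Cut.none Ext.none)

def k0_mm_001 : ∃ t, chk3 f_mm_001 t 1 1 1 = true :=
  ⟨(l 3), by decide +kernel⟩

theorem c_mm_001 : CertF 0 536870912 536870912 536870912 134217728 67108864 false false false .up 0 0 1
    ndF4q0 ndF4q1 pcF0 Cut.none Ext.none :=
  certF0 (fam := false) (s1 := false) (s2 := false) (a := 0) (b := 0) (c := 1) (cn := .up) (n1 := ndF4q0) (n2 := ndF4q1) (pc := pcF0) (cut := Cut.none) (xt := Ext.none) (P1 := 0) (W1 := 536870912) (P2 := 536870912) (W2 := 536870912) (P3 := 134217728) (W3 := 67108864)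
    rfl k0_mm_001

noncomputable def f_mm_011 : ℕ → ℕ → ℕ → ℕ → Bool := onCell 0 536870912 536870912 536870912 134217728 67108864
    (rowF 0 false false false .pnn 0 1 1 (qsf 0 536870912 536870912 536870912 1) ndF4q0 ndF4q1 pcF1 Cut.none Ext.none)

def k0_mm_011 : ∃ t, chk3 f_mm_011 t 1 1 1 = true :=
  ⟨(l 3), by decide +kernel⟩

theorem c_mm_011 : CertF 0 536870912 536870912 536870912 134217728 67108864 false false false .pnn 0 1 1
    ndF4q0 ndF4q1 pcF1 Cut.none Ext.none :=
  certF0 (fam := false) (s1 := false) (s2 := false) (a := 0) (b := 1) (c := 1) (cn := .pnn) (n1 := ndF4q0) (n2 := ndF4q1) (pc := pcF1) (cut := Cut.none) (xt := Ext.none) (P1 := 0) (W1 := 536870912) (P2 := 536870912) (W2 := 536870912) (P3 := 134217728) (W3 := 67108864)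
    rfl k0_mm_011

noncomputable def f_mm_012 : ℕ → ℕ → ℕ → ℕ → Bool := onCell 0 536870912 1073741824 536870912 134217728 67108864
    (rowF 0 false false false .pnp 0 1 2 (qsf 0 536870912 1073741824 536870912 1) ndF4q0 ndF4q2 pcF1 Cut.none Ext.none)

def k0_mm_012 : ∃ t, chk3 f_mm_012 t 1 1 1 = true :=
  ⟨(l 5), by decide +kernel⟩

theorem c_mm_012 : CertF 0 536870912 1073741824 536870912 134217728 67108864 false false false .pnp 0 1 2
    ndF4q0 ndF4q2 pcF1 Cut.none Ext.none :=
  certF0 (fam := false) (s1 := false) (s2 := false) (a := 0) (b := 1) (c := 2) (cn := .pnp) (n1 := ndF4q0) (n2 := ndF4q2) (pc := pcF1) (cut := Cut.none) (xt := Ext.none) (P1 := 0) (W1 := 536870912) (P2 := 1073741824) (W2 := 536870912) (P3 := 134217728) (W3 := 67108864)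
    rfl k0_mm_012

noncomputable def f_mm_022 : ℕ → ℕ → ℕ → ℕ → Bool := onCell 0 536870912 1073741824 536870912 134217728 67108864
    (rowF 0 false false false .pp 0 2 2 (qsf 0 536870912 1073741824 536870912 2) ndF4q0 ndF4q2 pcF2 Cut.none Ext.none)

def k0_mm_022 : ∃ t, chk3 f_mm_022 t 1 1 1 = true :=
  ⟨(l 5), by decide +kernel⟩

theorem c_mm_022 : CertF 0 536870912 1073741824 536870912 134217728 67108864 false false false .pp 0 2 2
    ndF4q0 ndF4q2 pcF2 Cut.none Ext.none :=
  certF0 (fam := false) (s1 := false) (s2 := false) (a := 0) (b := 2) (c := 2) (cn := .pp) (n1 := ndF4q0) (n2 := ndF4q2) (pc := pcF2) (cut := Cut.none) (xt := Ext.none) (P1 := 0) (W1 := 536870912) (P2 := 1073741824) (W2 := 536870912) (P3 := 134217728) (W3 := 67108864)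
    rfl k0_mm_022

noncomputable def f_mm_023 : ℕ → ℕ → ℕ → ℕ → Bool := onCell 0 536870912 0 1230186008 134217728 67108864
    (rowF 0 false false false .up 0 2 3 (qsf 0 536870912 0 1230186008 2) ndF4q0 ndF4q3 pcF2 Cut.none Ext.none)

def k0_mm_023 : ∃ t, chk3 f_mm_023 t 1 1 1 = true :=
  ⟨(l 5), by decide +kernel⟩

theorem c_mm_023 : CertF 0 536870912 0 1230186008 134217728 67108864 false false false .up 0 2 3
    ndF4q0 ndF4q3 pcF2 Cut.none Ext.none :=
  certF0 (fam := false) (s1 := false) (s2 := false) (a := 0) (b := 2) (c := 3) (cn := .up) (n1 := ndF4q0) (n2 := ndF4q3) (pc := pcF2) (cut := Cut.none) (xt := Ext.none) (P1 := 0) (W1 := 536870912) (P2 := 0) (W2 := 1230186008) (P3 := 134217728) (W3 := 67108864)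
    rfl k0_mm_023

noncomputable def f_mm_033 : ℕ → ℕ → ℕ → ℕ → Bool := onCell 0 536870912 0 1230186008 134217728 67108864
    (rowF 0 false false false .pnn 0 3 3 (qsf 0 536870912 0 1230186008 3) ndF4q0 ndF4q3 pcF3 Cut.none Ext.none)

def k0_mm_033 : ∃ t, chk3 f_mm_033 t 1 1 1 = true :=
  ⟨(l 5), by decide +kernel⟩

theorem c_mm_033 : CertF 0 536870912 0 1230186008 134217728 67108864 false false false .pnn 0 3 3
    ndF4q0 ndF4q3 pcF3 Cut.none Ext.none :=
  certF0 (fam := false) (s1 := false) (s2 := false) (a := 0) (b := 3) (c := 3) (cn := .pnn) (n1 := ndF4q0) (n2 := ndF4q3) (pc := pcF3) (cut := Cut.none) (xt := Ext.none) (P1 := 0) (W1 := 536870912) (P2 := 0) (W2 := 1230186008) (P3 := 134217728) (W3 := 67108864)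
    rfl k0_mm_033

noncomputable def f_mm_101 : ℕ → ℕ → ℕ → ℕ → Bool := onCell 536870912 536870912 536870912 536870912 134217728 67108864
    (rowF 0 false false false .npn 1 0 1 (qsf 536870912 536870912 536870912 536870912 0) ndF4q1 ndF4q1 pcF0 Cut.none Ext.none)

def k0_mm_101 : ∃ t, chk3 f_mm_101 t 1 1 1 = true :=
  ⟨(l 3), by decide +kernel⟩

theorem c_mm_101 : CertF 536870912 536870912 536870912 536870912 134217728 67108864 false false false .npn 1 0 1
    ndF4q1 ndF4q1 pcF0 Cut.none Ext.none :=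
  certF0 (fam := false) (s1 := false) (s2 := false) (a := 1) (b := 0) (c := 1) (cn := .npn) (n1 := ndF4q1) (n2 := ndF4q1) (pc := pcF0) (cut := Cut.none) (xt := Ext.none) (P1 := 536870912) (W1 := 536870912) (P2 := 536870912) (W2 := 536870912) (P3 := 134217728) (W3 := 67108864)
    rfl k0_mm_101

noncomputable def f_mm_102 : ℕ → ℕ → ℕ → ℕ → Bool := onCell 536870912 536870912 1073741824 536870912 134217728 67108864
    (rowF 0 false false false .npp 1 0 2 (qsf 536870912 536870912 1073741824 536870912 0) ndF4q1 ndF4q2 pcF0 Cut.none Ext.none)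

def k0_mm_102 : ∃ t, chk3 f_mm_102 t 1 1 1 = true :=
  ⟨(l 5), by decide +kernel⟩

theorem c_mm_102 : CertF 536870912 536870912 1073741824 536870912 134217728 67108864 false false false .npp 1 0 2
    ndF4q1 ndF4q2 pcF0 Cut.none Ext.none :=
  certF0 (fam := false) (s1 := false) (s2 := false) (a := 1) (b := 0) (c := 2) (cn := .npp) (n1 := ndF4q1) (n2 := ndF4q2) (pc := pcF0) (cut := Cut.none) (xt := Ext.none) (P1 := 536870912) (W1 := 536870912) (P2 := 1073741824) (W2 := 536870912) (P3 := 134217728) (W3 := 67108864)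
    rfl k0_mm_102

noncomputable def f_mm_112 : ℕ → ℕ → ℕ → ℕ → Bool := onCell 536870912 536870912 1073741824 536870912 134217728 67108864
    (rowF 0 false false false .dn 1 1 2 (qsf 536870912 536870912 1073741824 536870912 1) ndF4q1 ndF4q2 pcF1 Cut.none Ext.none)

def k0_mm_112 : ∃ t, chk3 f_mm_112 t 1 1 1 = true :=
  ⟨(l 5), by decide +kernel⟩

theorem c_mm_112 : CertF 536870912 536870912 1073741824 536870912 134217728 67108864 false false false .dn 1 1 2
    ndF4q1 ndF4q2 pcF1 Cut.none Ext.none :=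
  certF0 (fam := false) (s1 := false) (s2 := false) (a := 1) (b := 1) (c := 2) (cn := .dn) (n1 := ndF4q1) (n2 := ndF4q2) (pc := pcF1) (cut := Cut.none) (xt := Ext.none) (P1 := 536870912) (W1 := 536870912) (P2 := 1073741824) (W2 := 536870912) (P3 := 134217728) (W3 := 67108864)
    rfl k0_mm_112

noncomputable def f_mm_113 : ℕ → ℕ → ℕ → ℕ → Bool := onCell 536870912 536870912 0 1230186008 134217728 67108864
    (rowF 0 false false false .nn 1 1 3 (qsf 536870912 536870912 0 1230186008 1) ndF4q1 ndF4q3 pcF1 Cut.none Ext.none)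

def k0_mm_113 : ∃ t, chk3 f_mm_113 t 1 1 1 = true :=
  ⟨(l 5), by decide +kernel⟩

theorem c_mm_113 : CertF 536870912 536870912 0 1230186008 134217728 67108864 false false false .nn 1 1 3
    ndF4q1 ndF4q3 pcF1 Cut.none Ext.none :=
  certF0 (fam := false) (s1 := false) (s2 := false) (a := 1) (b := 1) (c := 3) (cn := .nn) (n1 := ndF4q1) (n2 := ndF4q3) (pc := pcF1) (cut := Cut.none) (xt := Ext.none) (P1 := 536870912) (W1 := 536870912) (P2 := 0) (W2 := 1230186008) (P3 := 134217728) (W3 := 67108864)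
    rfl k0_mm_113

noncomputable def f_mm_123 : ℕ → ℕ → ℕ → ℕ → Bool := onCell 536870912 536870912 0 1230186008 134217728 67108864
    (rowF 0 false false false .npn 1 2 3 (qsf 536870912 536870912 0 1230186008 2) ndF4q1 ndF4q3 pcF2 Cut.none Ext.none)

def k0_mm_123 : ∃ t, chk3 f_mm_123 t 1 1 1 = true :=
  ⟨(l 5), by decide +kernel⟩

theorem c_mm_123 : CertF 536870912 536870912 0 1230186008 134217728 67108864 false false false .npn 1 2 3
    ndF4q1 ndF4q3 pcF2 Cut.none Ext.none :=
  certF0 (fam := false) (s1 := false) (s2 := false) (a := 1) (b := 2) (c := 3) (cn := .npn) (n1 := ndF4q1) (n2 := ndF4q3) (pc := pcF2) (cut := Cut.none) (xt := Ext.none) (P1 := 536870912) (W1 := 536870912) (P2 := 0) (W2 := 1230186008) (P3 := 134217728) (W3 := 67108864)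
    rfl k0_mm_123

noncomputable def f_mm_133 : ℕ → ℕ → ℕ → ℕ → Bool := onCell 536870912 536870912 0 1230186008 134217728 67108864
    (rowF 0 false false false .dn 1 3 3 (qsf 536870912 536870912 0 1230186008 3) ndF4q1 ndF4q3 pcF3 Cut.none Ext.none)

def k0_mm_133 : ∃ t, chk3 f_mm_133 t 1 1 1 = true :=
  ⟨(l 5), by decide +kernel⟩

theorem c_mm_133 : CertF 536870912 536870912 0 1230186008 134217728 67108864 false false false .dn 1 3 3
    ndF4q1 ndF4q3 pcF3 Cut.none Ext.none :=
  certF0 (fam := false) (s1 := false) (s2 := false) (a := 1) (b := 3) (c := 3) (cn := .dn) (n1 := ndF4q1) (n2 := ndF4q3) (pc := pcF3) (cut := Cut.none) (xt := Ext.none) (P1 := 536870912) (W1 := 536870912) (P2 := 0) (W2 := 1230186008) (P3 := 134217728) (W3 := 67108864)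
    rfl k0_mm_133

noncomputable def f_mm_202 : ℕ → ℕ → ℕ → ℕ → Bool := onCell 1073741824 536870912 1073741824 536870912 134217728 67108864
    (rowF 0 false false false .pp 2 0 2 (qsf 1073741824 536870912 1073741824 536870912 0) ndF4q2 ndF4q2 pcF0 Cut.none Ext.none)

def k0_mm_202 : ∃ t, chk3 f_mm_202 t 1 1 1 = true :=
  ⟨(l 3), by decide +kernel⟩

theorem c_mm_202 : CertF 1073741824 536870912 1073741824 536870912 134217728 67108864 false false false .pp 2 0 2
    ndF4q2 ndF4q2 pcF0 Cut.none Ext.none :=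
  certF0 (fam := false) (s1 := false) (s2 := false) (a := 2) (b := 0) (c := 2) (cn := .pp) (n1 := ndF4q2) (n2 := ndF4q2) (pc := pcF0) (cut := Cut.none) (xt := Ext.none) (P1 := 1073741824) (W1 := 536870912) (P2 := 1073741824) (W2 := 536870912) (P3 := 134217728) (W3 := 67108864)
    rfl k0_mm_202

noncomputable def f_mm_203 : ℕ → ℕ → ℕ → ℕ → Bool := onCell 1073741824 536870912 0 1230186008 134217728 67108864
    (rowF 0 false false false .up 2 0 3 (qsf 1073741824 536870912 0 1230186008 0) ndF4q2 ndF4q3 pcF0 Cut.none Ext.none)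

def k0_mm_203 : ∃ t, chk3 f_mm_203 t 1 1 1 = true :=
  ⟨(b (l 5) (b (l 5) (l 3))), by decide +kernel⟩

theorem c_mm_203 : CertF 1073741824 536870912 0 1230186008 134217728 67108864 false false false .up 2 0 3
    ndF4q2 ndF4q3 pcF0 Cut.none Ext.none :=
  certF0 (fam := false) (s1 := false) (s2 := false) (a := 2) (b := 0) (c := 3) (cn := .up) (n1 := ndF4q2) (n2 := ndF4q3) (pc := pcF0) (cut := Cut.none) (xt := Ext.none) (P1 := 1073741824) (W1 := 536870912) (P2 := 0) (W2 := 1230186008) (P3 := 134217728) (W3 := 67108864)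
    rfl k0_mm_203

noncomputable def f_mm_213 : ℕ → ℕ → ℕ → ℕ → Bool := onCell 536870912 536870912 0 1230186008 134217728 67108864
    (rowF 2 false false false .pnn 2 1 3 (qsf 1073741824 536870912 0 1230186008 1) ndF4q2 ndF4q3 pcF1 Cut.none Ext.none)

def k0_mm_213 : ∃ t, chk3 f_mm_213 t 1 1 1 = true :=
  ⟨(b (l 5) (l 5)), by decide +kernel⟩

theorem c_mm_213 : CertF 1073741824 536870912 0 1230186008 134217728 67108864 false false false .pnn 2 1 3
    ndF4q2 ndF4q3 pcF1 Cut.none Ext.none :=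
  certF2 (fam := false) (s1 := false) (s2 := false) (a := 2) (b := 1) (c := 3) (cn := .pnn) (n1 := ndF4q2) (n2 := ndF4q3) (pc := pcF1) (cut := Cut.none) (xt := Ext.none) (P1 := 1073741824) (W1 := 536870912) (P2 := 0) (W2 := 1230186008) (P3 := 134217728) (W3 := 67108864)
    rfl (fun _ => rfl) k0_mm_213

noncomputable def f_mm_303 : ℕ → ℕ → ℕ → ℕ → Bool := onCell 0 1230186008 0 1230186008 134217728 67108864
    (rowF 0 false false false .npn 3 0 3 (qsf 0 1230186008 0 1230186008 0) ndF4q3 ndF4q3 pcF0 Cut.none Ext.none)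

def k0_mm_303 : ∃ t, chk3 f_mm_303 t 1 1 1 = true :=
  ⟨(a (b (l 3) (a (l 1) (l 3))) (b (a (l 3) (l 5)) (l 3))), by decide +kernel⟩

theorem c_mm_303 : CertF 0 1230186008 0 1230186008 134217728 67108864 false false false .npn 3 0 3
    ndF4q3 ndF4q3 pcF0 Cut.none Ext.none :=
  certF0 (fam := false) (s1 := false) (s2 := false) (a := 3) (b := 0) (c := 3) (cn := .npn) (n1 := ndF4q3) (n2 := ndF4q3) (pc := pcF0) (cut := Cut.none) (xt := Ext.none) (P1 := 0) (W1 := 1230186008) (P2 := 0) (W2 := 1230186008) (P3 := 134217728) (W3 := 67108864)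
    rfl k0_mm_303

noncomputable def f_mm_313 : ℕ → ℕ → ℕ → ℕ → Bool := onCell 0 1230186008 0 1230186008 134217728 67108864
    (rowF 0 false false false .dn 3 1 3 (qsf 0 1230186008 0 1230186008 1) ndF4q3 ndF4q3 pcF1 Cut.none Ext.none)

def k0_mm_313 : ∃ t, chk3 f_mm_313 t 1 1 1 = true :=
  ⟨(a (l 1) (b (a (l 1) (l 5)) (l 1))), by decide +kernel⟩

theorem c_mm_313 : CertF 0 1230186008 0 1230186008 134217728 67108864 false false false .dn 3 1 3
    ndF4q3 ndF4q3 pcF1 Cut.none Ext.none :=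
  certF0 (fam := false) (s1 := false) (s2 := false) (a := 3) (b := 1) (c := 3) (cn := .dn) (n1 := ndF4q3) (n2 := ndF4q3) (pc := pcF1) (cut := Cut.none) (xt := Ext.none) (P1 := 0) (W1 := 1230186008) (P2 := 0) (W2 := 1230186008) (P3 := 134217728) (W3 := 67108864)
    rfl k0_mm_313

end Pool.Agent.Strip051.G.I1_8_3_16.Tab.C.FB44

namespace Pool.Agent.Strip051.G.I1_8_3_16.Tab.C.FB45

open Pool.Agent.Strip051.PB Pool.Agent.Strip051.PB.T
open Pool.Agent.Strip051.G.I1_8_3_16.Tab

noncomputable def f_pp_001 : ℕ → ℕ → ℕ → ℕ → Bool := onCell 0 536870912 536870912 536870912 134217728 67108864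
    (rowF 0 false true true .up 0 0 1 (qsf 0 536870912 536870912 536870912 0) ndF4q0 ndF5q1 pcF0 Cut.none Ext.none)

def k0_pp_001 : ∃ t, chk3 f_pp_001 t 1 1 1 = true :=
  ⟨(l 3), by decide +kernel⟩

theorem c_pp_001 : CertF 0 536870912 536870912 536870912 134217728 67108864 false true true .up 0 0 1
    ndF4q0 ndF5q1 pcF0 Cut.none Ext.none :=
  certF0 (fam := false) (s1 := true) (s2 := true) (a := 0) (b := 0) (c := 1) (cn := .up) (n1 := ndF4q0) (n2 := ndF5q1) (pc := pcF0) (cut := Cut.none) (xt := Ext.none) (P1 := 0) (W1 := 536870912) (P2 := 536870912) (W2 := 536870912) (P3 := 134217728) (W3 := 67108864)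
    rfl k0_pp_001

noncomputable def f_pp_011 : ℕ → ℕ → ℕ → ℕ → Bool := onCell 0 536870912 536870912 536870912 134217728 67108864
    (rowF 0 false true true .pnn 0 1 1 (qsf 0 536870912 536870912 536870912 1) ndF4q0 ndF5q1 pcF1 Cut.none Ext.none)

def k0_pp_011 : ∃ t, chk3 f_pp_011 t 1 1 1 = true :=
  ⟨(l 3), by decide +kernel⟩

theorem c_pp_011 : CertF 0 536870912 536870912 536870912 134217728 67108864 false true true .pnn 0 1 1
    ndF4q0 ndF5q1 pcF1 Cut.none Ext.none :=
  certF0 (fam := false) (s1 := true) (s2 := true) (a := 0) (b := 1) (c := 1) (cn := .pnn) (n1 := ndF4q0) (n2 := ndF5q1) (pc := pcF1) (cut := Cut.none) (xt := Ext.none) (P1 := 0) (W1 := 536870912) (P2 := 536870912) (W2 := 536870912) (P3 := 134217728) (W3 := 67108864)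
    rfl k0_pp_011

noncomputable def f_pp_012 : ℕ → ℕ → ℕ → ℕ → Bool := onCell 536870912 536870912 1073741824 536870912 134217728 67108864
    (rowF 2 false true true .pnp 0 1 2 (qsf 0 536870912 1073741824 536870912 1) ndF4q0 ndF5q2 pcF1 Cut.none Ext.none)

def k0_pp_012 : ∃ t, chk3 f_pp_012 t 1 1 1 = true :=
  ⟨(l 3), by decide +kernel⟩

theorem c_pp_012 : CertF 0 536870912 1073741824 536870912 134217728 67108864 false true true .pnp 0 1 2
    ndF4q0 ndF5q2 pcF1 Cut.none Ext.none :=
  certF2 (fam := false) (s1 := true) (s2 := true) (a := 0) (b := 1) (c := 2) (cn := .pnp) (n1 := ndF4q0) (n2 := ndF5q2) (pc := pcF1) (cut := Cut.none) (xt := Ext.none) (P1 := 0) (W1 := 536870912) (P2 := 1073741824) (W2 := 536870912) (P3 := 134217728) (W3 := 67108864)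
    rfl (fun _ => rfl) k0_pp_012

noncomputable def f_pp_022 : ℕ → ℕ → ℕ → ℕ → Bool := onCell 0 536870912 1073741824 536870912 134217728 67108864
    (rowF 1 false true true .pp 0 2 2 (qsf 0 536870912 1073741824 536870912 2) ndF4q0 ndF5q2 pcF2 Cut.none Ext.none)

def k0_pp_022 : ∃ t, chk3 f_pp_022 t 1 1 1 = true :=
  ⟨(a (b (b (b (l 3) (a (l 3) (l 17866040))) (a (b (b (b (l 18102344) (b (l 18077368) (l 18249264))) (l 18024976)) (l 17930128)) (b (b (b (l 17808056) (l 17849296)) (l 17793744)) (l 17770368)))) (a (b (a (l 17760224) (l 17753328)) (a (l 17712648) (l 17658632))) (b (b (l 17668624) (l 17606896)) (l 17584072)))) (b (a (b (b (l 3) (l 17572648)) (b (a (l 17766968) (l 17480456)) (l 17513456))) (b (b (l 17376224) (b (b (l 17343024) (l 17382496)) (l 17428096))) (b (b (l 17472432) (l 2)) (l 2)))) (a (b (l 17557272) (l 2)) (l 2)))), by decide +kernel⟩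

theorem c_pp_022 : CertF 0 536870912 1073741824 536870912 134217728 67108864 false true true .pp 0 2 2
    ndF4q0 ndF5q2 pcF2 Cut.none Ext.none :=
  certF1 (fam := false) (s1 := true) (s2 := true) (a := 0) (b := 2) (c := 2) (cn := .pp) (n1 := ndF4q0) (n2 := ndF5q2) (pc := pcF2) (cut := Cut.none) (xt := Ext.none) (P1 := 0) (W1 := 536870912) (P2 := 1073741824) (W2 := 536870912) (P3 := 134217728) (W3 := 67108864)
    rfl (fun _ => rfl) k0_pp_022

noncomputable def f_pp_023 : ℕ → ℕ → ℕ → ℕ → Bool := onCell 1073741824 536870912 0 1230186008 134217728 67108864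
    (rowF 2 false true true .up 0 2 3 (qsf 0 536870912 0 1230186008 2) ndF4q0 ndF5q3 pcF2 Cut.none Ext.none)

def k0_pp_023 : ∃ t, chk3 f_pp_023 t 1 1 1 = true :=
  ⟨(a (b (l 2) (a (b (l 2) (b (l 2) (a (l 17370208) (a (l 17412672) (l 17434664))))) (a (b (l 2) (b (a (l 17629600) (l 17598696)) (l 17463776))) (b (l 17816544) (b (l 17550824) (l 17491144)))))) (b (a (l 2) (l 17705680)) (b (a (l 17812392) (l 17646752)) (b (l 17528784) (l 17572376))))), by decide +kernel⟩

theorem c_pp_023 : CertF 0 536870912 0 1230186008 134217728 67108864 false true true .up 0 2 3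
    ndF4q0 ndF5q3 pcF2 Cut.none Ext.none :=
  certF2 (fam := false) (s1 := true) (s2 := true) (a := 0) (b := 2) (c := 3) (cn := .up) (n1 := ndF4q0) (n2 := ndF5q3) (pc := pcF2) (cut := Cut.none) (xt := Ext.none) (P1 := 0) (W1 := 536870912) (P2 := 0) (W2 := 1230186008) (P3 := 134217728) (W3 := 67108864)
    rfl (fun _ => rfl) k0_pp_023

noncomputable def f_pp_033 : ℕ → ℕ → ℕ → ℕ → Bool := onCell 1610612736 536870912 0 1230186008 134217728 67108864
    (rowF 2 false true true .pnn 0 3 3 (qsf 0 536870912 0 1230186008 3) ndF4q0 ndF5q3 pcF3 Cut.none Ext.none)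

def k0_pp_033 : ∃ t, chk3 f_pp_033 t 1 1 1 = true :=
  ⟨(b (b (l 4) (a (a (l 17118200) (l 16971088)) (l 4))) (b (a (a (b (l 17065040) (l 16988584)) (b (l 17017272) (l 17035648))) (a (l 554622043463) (b (a (l 4) (l 1)) (l 1)))) (a (b (l 17137488) (a (l 17461632) (b (a (l 17469088) (l 1)) (l 1)))) (l 1)))), by decide +kernel⟩

theorem c_pp_033 : CertF 0 536870912 0 1230186008 134217728 67108864 false true true .pnn 0 3 3
    ndF4q0 ndF5q3 pcF3 Cut.none Ext.none :=
  certF2 (fam := false) (s1 := true) (s2 := true) (a := 0) (b := 3) (c := 3) (cn := .pnn) (n1 := ndF4q0) (n2 := ndF5q3) (pc := pcF3) (cut := Cut.none) (xt := Ext.none) (P1 := 0) (W1 := 536870912) (P2 := 0) (W2 := 1230186008) (P3 := 134217728) (W3 := 67108864)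
    rfl (fun _ => rfl) k0_pp_033

noncomputable def f_pp_101 : ℕ → ℕ → ℕ → ℕ → Bool := onCell 536870912 536870912 536870912 536870912 134217728 67108864
    (rowF 0 false true true .npn 1 0 1 (qsf 536870912 536870912 536870912 536870912 0) ndF4q1 ndF5q1 pcF0 Cut.none Ext.none)

def k0_pp_101 : ∃ t, chk3 f_pp_101 t 1 1 1 = true :=
  ⟨(l 3), by decide +kernel⟩

theorem c_pp_101 : CertF 536870912 536870912 536870912 536870912 134217728 67108864 false true true .npn 1 0 1
    ndF4q1 ndF5q1 pcF0 Cut.none Ext.none :=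
  certF0 (fam := false) (s1 := true) (s2 := true) (a := 1) (b := 0) (c := 1) (cn := .npn) (n1 := ndF4q1) (n2 := ndF5q1) (pc := pcF0) (cut := Cut.none) (xt := Ext.none) (P1 := 536870912) (W1 := 536870912) (P2 := 536870912) (W2 := 536870912) (P3 := 134217728) (W3 := 67108864)
    rfl k0_pp_101

noncomputable def f_pp_102 : ℕ → ℕ → ℕ → ℕ → Bool := onCell 536870912 536870912 0 536870912 134217728 67108864
    (rowF 1 false true true .npp 1 0 2 (qsf 536870912 536870912 1073741824 536870912 0) ndF4q1 ndF5q2 pcF0 Cut.none Ext.none)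

def k0_pp_102 : ∃ t, chk3 f_pp_102 t 1 1 1 = true :=
  ⟨(l 3), by decide +kernel⟩

theorem c_pp_102 : CertF 536870912 536870912 1073741824 536870912 134217728 67108864 false true true .npp 1 0 2
    ndF4q1 ndF5q2 pcF0 Cut.none Ext.none :=
  certF1 (fam := false) (s1 := true) (s2 := true) (a := 1) (b := 0) (c := 2) (cn := .npp) (n1 := ndF4q1) (n2 := ndF5q2) (pc := pcF0) (cut := Cut.none) (xt := Ext.none) (P1 := 536870912) (W1 := 536870912) (P2 := 1073741824) (W2 := 536870912) (P3 := 134217728) (W3 := 67108864)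
    rfl (fun _ => rfl) k0_pp_102

noncomputable def f_pp_112 : ℕ → ℕ → ℕ → ℕ → Bool := onCell 536870912 536870912 1073741824 536870912 134217728 67108864
    (rowF 2 false true true .dn 1 1 2 (qsf 536870912 536870912 1073741824 536870912 1) ndF4q1 ndF5q2 pcF1 Cut.none Ext.none)

def k0_pp_112 : ∃ t, chk3 f_pp_112 t 1 1 1 = true :=
  ⟨(l 3), by decide +kernel⟩

theorem c_pp_112 : CertF 536870912 536870912 1073741824 536870912 134217728 67108864 false true true .dn 1 1 2
    ndF4q1 ndF5q2 pcF1 Cut.none Ext.none :=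
  certF2 (fam := false) (s1 := true) (s2 := true) (a := 1) (b := 1) (c := 2) (cn := .dn) (n1 := ndF4q1) (n2 := ndF5q2) (pc := pcF1) (cut := Cut.none) (xt := Ext.none) (P1 := 536870912) (W1 := 536870912) (P2 := 1073741824) (W2 := 536870912) (P3 := 134217728) (W3 := 67108864)
    rfl (fun _ => rfl) k0_pp_112

noncomputable def f_pp_113 : ℕ → ℕ → ℕ → ℕ → Bool := onCell 536870912 536870912 0 1230186008 134217728 67108864
    (rowF 2 false true true .nn 1 1 3 (qsf 536870912 536870912 0 1230186008 1) ndF4q1 ndF5q3 pcF1 Cut.none Ext.none)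

def k0_pp_113 : ∃ t, chk3 f_pp_113 t 1 1 1 = true :=
  ⟨(a (b (l 2) (b (a (l 2) (b (l 2) (l 18898904))) (l 3))) (a (b (l 2) (b (b (l 18313592) (l 18356784)) (b (l 18420240) (l 3)))) (b (b (a (l 2) (l 17114792)) (l 17747400)) (b (b (l 17933600) (l 17986008)) (b (l 18080680) (l 18250488)))))), by decide +kernel⟩

theorem c_pp_113 : CertF 536870912 536870912 0 1230186008 134217728 67108864 false true true .nn 1 1 3
    ndF4q1 ndF5q3 pcF1 Cut.none Ext.none :=
  certF2 (fam := false) (s1 := true) (s2 := true) (a := 1) (b := 1) (c := 3) (cn := .nn) (n1 := ndF4q1) (n2 := ndF5q3) (pc := pcF1) (cut := Cut.none) (xt := Ext.none) (P1 := 536870912) (W1 := 536870912) (P2 := 0) (W2 := 1230186008) (P3 := 134217728) (W3 := 67108864)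
    rfl (fun _ => rfl) k0_pp_113

noncomputable def f_pp_123 : ℕ → ℕ → ℕ → ℕ → Bool := onCell 1073741824 536870912 0 1230186008 134217728 67108864
    (rowF 2 false true true .npn 1 2 3 (qsf 536870912 536870912 0 1230186008 2) ndF4q1 ndF5q3 pcF2 Cut.none Ext.none)

def k0_pp_123 : ∃ t, chk3 f_pp_123 t 1 1 1 = true :=
  ⟨(b (b (a (a (l 17038584) (l 16996488)) (l 17003520)) (a (a (a (l 17283888) (a (l 17202160) (l 17147360))) (a (l 17074120) (l 16987776))) (a (l 16945208) (l 16900800)))) (b (a (a (a (l 17602144) (a (a (l 17521568) (l 17493368)) (l 17462512))) (a (a (l 17403288) (l 17359400)) (l 17294960))) (a (l 17143048) (l 17018776))) (a (a (a (b (l 17867368) (l 18080528)) (a (b (a (l 17791080) (l 17763992)) (l 18001552)) (b (l 17728360) (l 17949768)))) (a (b (a (l 17674000) (l 17626104)) (l 17873192)) (l 432216921351))) (l 1)))), by decide +kernel⟩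

theorem c_pp_123 : CertF 536870912 536870912 0 1230186008 134217728 67108864 false true true .npn 1 2 3
    ndF4q1 ndF5q3 pcF2 Cut.none Ext.none :=
  certF2 (fam := false) (s1 := true) (s2 := true) (a := 1) (b := 2) (c := 3) (cn := .npn) (n1 := ndF4q1) (n2 := ndF5q3) (pc := pcF2) (cut := Cut.none) (xt := Ext.none) (P1 := 536870912) (W1 := 536870912) (P2 := 0) (W2 := 1230186008) (P3 := 134217728) (W3 := 67108864)
    rfl (fun _ => rfl) k0_pp_123

noncomputable def f_pp_133 : ℕ → ℕ → ℕ → ℕ → Bool := onCell 1610612736 536870912 0 1230186008 134217728 67108864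
    (rowF 2 false true true .dn 1 3 3 (qsf 536870912 536870912 0 1230186008 3) ndF4q1 ndF5q3 pcF3 Cut.none Ext.none)

def k0_pp_133 : ∃ t, chk3 f_pp_133 t 1 1 1 = true :=
  ⟨(b (b (l 4) (l 1)) (l 1)), by decide +kernel⟩

theorem c_pp_133 : CertF 536870912 536870912 0 1230186008 134217728 67108864 false true true .dn 1 3 3
    ndF4q1 ndF5q3 pcF3 Cut.none Ext.none :=
  certF2 (fam := false) (s1 := true) (s2 := true) (a := 1) (b := 3) (c := 3) (cn := .dn) (n1 := ndF4q1) (n2 := ndF5q3) (pc := pcF3) (cut := Cut.none) (xt := Ext.none) (P1 := 536870912) (W1 := 536870912) (P2 := 0) (W2 := 1230186008) (P3 := 134217728) (W3 := 67108864)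
    rfl (fun _ => rfl) k0_pp_133

noncomputable def f_pp_202 : ℕ → ℕ → ℕ → ℕ → Bool := onCell 1073741824 536870912 1073741824 536870912 134217728 67108864
    (rowF 0 false true true .pp 2 0 2 (qsf 1073741824 536870912 1073741824 536870912 0) ndF4q2 ndF5q2 pcF0 Cut.none Ext.none)

def k0_pp_202 : ∃ t, chk3 f_pp_202 t 1 1 1 = true :=
  ⟨(l 3), by decide +kernel⟩

theorem c_pp_202 : CertF 1073741824 536870912 1073741824 536870912 134217728 67108864 false true true .pp 2 0 2
    ndF4q2 ndF5q2 pcF0 Cut.none Ext.none :=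
  certF0 (fam := false) (s1 := true) (s2 := true) (a := 2) (b := 0) (c := 2) (cn := .pp) (n1 := ndF4q2) (n2 := ndF5q2) (pc := pcF0) (cut := Cut.none) (xt := Ext.none) (P1 := 1073741824) (W1 := 536870912) (P2 := 1073741824) (W2 := 536870912) (P3 := 134217728) (W3 := 67108864)
    rfl k0_pp_202

noncomputable def f_pp_203 : ℕ → ℕ → ℕ → ℕ → Bool := onCell 0 536870912 0 1230186008 134217728 67108864
    (rowF 2 false true true .up 2 0 3 (qsf 1073741824 536870912 0 1230186008 0) ndF4q2 ndF5q3 pcF0 Cut.none Ext.none)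

def k0_pp_203 : ∃ t, chk3 f_pp_203 t 1 1 1 = true :=
  ⟨(b (a (l 2) (l 3)) (l 3)), by decide +kernel⟩

theorem c_pp_203 : CertF 1073741824 536870912 0 1230186008 134217728 67108864 false true true .up 2 0 3
    ndF4q2 ndF5q3 pcF0 Cut.none Ext.none :=
  certF2 (fam := false) (s1 := true) (s2 := true) (a := 2) (b := 0) (c := 3) (cn := .up) (n1 := ndF4q2) (n2 := ndF5q3) (pc := pcF0) (cut := Cut.none) (xt := Ext.none) (P1 := 1073741824) (W1 := 536870912) (P2 := 0) (W2 := 1230186008) (P3 := 134217728) (W3 := 67108864)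
    rfl (fun _ => rfl) k0_pp_203

noncomputable def f_pp_213 : ℕ → ℕ → ℕ → ℕ → Bool := onCell 536870912 536870912 0 1230186008 134217728 67108864
    (rowF 2 false true true .pnn 2 1 3 (qsf 1073741824 536870912 0 1230186008 1) ndF4q2 ndF5q3 pcF1 Cut.none Ext.none)

def k0_pp_213 : ∃ t, chk3 f_pp_213 t 1 1 1 = true :=
  ⟨(b (b (a (a (l 280416079415) (l 234781949607)) (a (l 17241520) (l 17199808))) (a (l 3) (a (l 319607742679) (b (l 17247704) (l 17350632))))) (a (l 3) (a (l 3) (a (l 3) (l 1))))), by decide +kernel⟩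

theorem c_pp_213 : CertF 1073741824 536870912 0 1230186008 134217728 67108864 false true true .pnn 2 1 3
    ndF4q2 ndF5q3 pcF1 Cut.none Ext.none :=
  certF2 (fam := false) (s1 := true) (s2 := true) (a := 2) (b := 1) (c := 3) (cn := .pnn) (n1 := ndF4q2) (n2 := ndF5q3) (pc := pcF1) (cut := Cut.none) (xt := Ext.none) (P1 := 1073741824) (W1 := 536870912) (P2 := 0) (W2 := 1230186008) (P3 := 134217728) (W3 := 67108864)
    rfl (fun _ => rfl) k0_pp_213

noncomputable def f_pp_303 : ℕ → ℕ → ℕ → ℕ → Bool := onCell 0 1230186008 0 1230186008 134217728 67108864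
    (rowF 0 false true true .npn 3 0 3 (qsf 0 1230186008 0 1230186008 0) ndF4q3 ndF5q3 pcF0 Cut.none Ext.none)

def k0_pp_303 : ∃ t, chk3 f_pp_303 t 1 1 1 = true :=
  ⟨(a (b (l 3) (l 5)) (b (a (l 3) (l 3)) (l 3))), by decide +kernel⟩

theorem c_pp_303 : CertF 0 1230186008 0 1230186008 134217728 67108864 false true true .npn 3 0 3
    ndF4q3 ndF5q3 pcF0 Cut.none Ext.none :=
  certF0 (fam := false) (s1 := true) (s2 := true) (a := 3) (b := 0) (c := 3) (cn := .npn) (n1 := ndF4q3) (n2 := ndF5q3) (pc := pcF0) (cut := Cut.none) (xt := Ext.none) (P1 := 0) (W1 := 1230186008) (P2 := 0) (W2 := 1230186008) (P3 := 134217728) (W3 := 67108864)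
    rfl k0_pp_303

noncomputable def f_pp_313 : ℕ → ℕ → ℕ → ℕ → Bool := onCell 0 1230186008 0 1230186008 134217728 67108864
    (rowF 0 false true true .dn 3 1 3 (qsf 0 1230186008 0 1230186008 1) ndF4q3 ndF5q3 pcF1 Cut.none Ext.none)

def k0_pp_313 : ∃ t, chk3 f_pp_313 t 1 1 1 = true :=
  ⟨(a (l 1) (b (a (l 1) (l 3)) (l 1))), by decide +kernel⟩

theorem c_pp_313 : CertF 0 1230186008 0 1230186008 134217728 67108864 false true true .dn 3 1 3
    ndF4q3 ndF5q3 pcF1 Cut.none Ext.none :=
  certF0 (fam := false) (s1 := true) (s2 := true) (a := 3) (b := 1) (c := 3) (cn := .dn) (n1 := ndF4q3) (n2 := ndF5q3) (pc := pcF1) (cut := Cut.none) (xt := Ext.none) (P1 := 0) (W1 := 1230186008) (P2 := 0) (W2 := 1230186008) (P3 := 134217728) (W3 := 67108864)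
    rfl k0_pp_313

noncomputable def f_pm_001 : ℕ → ℕ → ℕ → ℕ → Bool := onCell 0 536870912 536870912 536870912 134217728 67108864
    (rowF 0 false true false .up 0 0 1 (qsf 0 536870912 536870912 536870912 0) ndF4q0 ndF5q1 pcF0 Cut.none Ext.none)

def k0_pm_001 : ∃ t, chk3 f_pm_001 t 1 1 1 = true :=
  ⟨(l 4), by decide +kernel⟩

theorem c_pm_001 : CertF 0 536870912 536870912 536870912 134217728 67108864 false true false .up 0 0 1
    ndF4q0 ndF5q1 pcF0 Cut.none Ext.none :=
  certF0 (fam := false) (s1 := true) (s2 := false) (a := 0) (b := 0) (c := 1) (cn := .up) (n1 := ndF4q0) (n2 := ndF5q1) (pc := pcF0) (cut := Cut.none) (xt := Ext.none) (P1 := 0) (W1 := 536870912) (P2 := 536870912) (W2 := 536870912) (P3 := 134217728) (W3 := 67108864)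
    rfl k0_pm_001

noncomputable def f_pm_011 : ℕ → ℕ → ℕ → ℕ → Bool := onCell 0 536870912 536870912 536870912 134217728 67108864
    (rowF 0 false true false .pnn 0 1 1 (qsf 0 536870912 536870912 536870912 1) ndF4q0 ndF5q1 pcF1 Cut.none Ext.none)

def k0_pm_011 : ∃ t, chk3 f_pm_011 t 1 1 1 = true :=
  ⟨(l 4), by decide +kernel⟩

theorem c_pm_011 : CertF 0 536870912 536870912 536870912 134217728 67108864 false true false .pnn 0 1 1
    ndF4q0 ndF5q1 pcF1 Cut.none Ext.none :=
  certF0 (fam := false) (s1 := true) (s2 := false) (a := 0) (b := 1) (c := 1) (cn := .pnn) (n1 := ndF4q0) (n2 := ndF5q1) (pc := pcF1) (cut := Cut.none) (xt := Ext.none) (P1 := 0) (W1 := 536870912) (P2 := 536870912) (W2 := 536870912) (P3 := 134217728) (W3 := 67108864)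
    rfl k0_pm_011

noncomputable def f_pm_012 : ℕ → ℕ → ℕ → ℕ → Bool := onCell 0 536870912 1073741824 536870912 134217728 67108864
    (rowF 0 false true false .pnp 0 1 2 (qsf 0 536870912 1073741824 536870912 1) ndF4q0 ndF5q2 pcF1 Cut.none Ext.none)

def k0_pm_012 : ∃ t, chk3 f_pm_012 t 1 1 1 = true :=
  ⟨(l 4), by decide +kernel⟩

theorem c_pm_012 : CertF 0 536870912 1073741824 536870912 134217728 67108864 false true false .pnp 0 1 2
    ndF4q0 ndF5q2 pcF1 Cut.none Ext.none :=
  certF0 (fam := false) (s1 := true) (s2 := false) (a := 0) (b := 1) (c := 2) (cn := .pnp) (n1 := ndF4q0) (n2 := ndF5q2) (pc := pcF1) (cut := Cut.none) (xt := Ext.none) (P1 := 0) (W1 := 536870912) (P2 := 1073741824) (W2 := 536870912) (P3 := 134217728) (W3 := 67108864)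
    rfl k0_pm_012

noncomputable def f_pm_022 : ℕ → ℕ → ℕ → ℕ → Bool := onCell 0 536870912 1073741824 536870912 134217728 67108864
    (rowF 0 false true false .pp 0 2 2 (qsf 0 536870912 1073741824 536870912 2) ndF4q0 ndF5q2 pcF2 Cut.none Ext.none)

def k0_pm_022 : ∃ t, chk3 f_pm_022 t 1 1 1 = true :=
  ⟨(l 4), by decide +kernel⟩

theorem c_pm_022 : CertF 0 536870912 1073741824 536870912 134217728 67108864 false true false .pp 0 2 2
    ndF4q0 ndF5q2 pcF2 Cut.none Ext.none :=
  certF0 (fam := false) (s1 := true) (s2 := false) (a := 0) (b := 2) (c := 2) (cn := .pp) (n1 := ndF4q0) (n2 := ndF5q2) (pc := pcF2) (cut := Cut.none) (xt := Ext.none) (P1 := 0) (W1 := 536870912) (P2 := 1073741824) (W2 := 536870912) (P3 := 134217728) (W3 := 67108864)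
    rfl k0_pm_022

noncomputable def f_pm_023 : ℕ → ℕ → ℕ → ℕ → Bool := onCell 0 536870912 0 1230186008 134217728 67108864
    (rowF 0 false true false .up 0 2 3 (qsf 0 536870912 0 1230186008 2) ndF4q0 ndF5q3 pcF2 Cut.none Ext.none)

def k0_pm_023 : ∃ t, chk3 f_pm_023 t 1 1 1 = true :=
  ⟨(l 4), by decide +kernel⟩

theorem c_pm_023 : CertF 0 536870912 0 1230186008 134217728 67108864 false true false .up 0 2 3
    ndF4q0 ndF5q3 pcF2 Cut.none Ext.none :=
  certF0 (fam := false) (s1 := true) (s2 := false) (a := 0) (b := 2) (c := 3) (cn := .up) (n1 := ndF4q0) (n2 := ndF5q3) (pc := pcF2) (cut := Cut.none) (xt := Ext.none) (P1 := 0) (W1 := 536870912) (P2 := 0) (W2 := 1230186008) (P3 := 134217728) (W3 := 67108864)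
    rfl k0_pm_023

noncomputable def f_pm_033 : ℕ → ℕ → ℕ → ℕ → Bool := onCell 0 536870912 0 1230186008 134217728 67108864
    (rowF 0 false true false .pnn 0 3 3 (qsf 0 536870912 0 1230186008 3) ndF4q0 ndF5q3 pcF3 Cut.none Ext.none)

def k0_pm_033 : ∃ t, chk3 f_pm_033 t 1 1 1 = true :=
  ⟨(l 4), by decide +kernel⟩

theorem c_pm_033 : CertF 0 536870912 0 1230186008 134217728 67108864 false true false .pnn 0 3 3
    ndF4q0 ndF5q3 pcF3 Cut.none Ext.none :=
  certF0 (fam := false) (s1 := true) (s2 := false) (a := 0) (b := 3) (c := 3) (cn := .pnn) (n1 := ndF4q0) (n2 := ndF5q3) (pc := pcF3) (cut := Cut.none) (xt := Ext.none) (P1 := 0) (W1 := 536870912) (P2 := 0) (W2 := 1230186008) (P3 := 134217728) (W3 := 67108864)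
    rfl k0_pm_033

noncomputable def f_pm_101 : ℕ → ℕ → ℕ → ℕ → Bool := onCell 536870912 536870912 536870912 536870912 134217728 67108864
    (rowF 0 false true false .npn 1 0 1 (qsf 536870912 536870912 536870912 536870912 0) ndF4q1 ndF5q1 pcF0 Cut.none Ext.none)

def k0_pm_101 : ∃ t, chk3 f_pm_101 t 1 1 1 = true :=
  ⟨(l 4), by decide +kernel⟩

theorem c_pm_101 : CertF 536870912 536870912 536870912 536870912 134217728 67108864 false true false .npn 1 0 1
    ndF4q1 ndF5q1 pcF0 Cut.none Ext.none :=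
  certF0 (fam := false) (s1 := true) (s2 := false) (a := 1) (b := 0) (c := 1) (cn := .npn) (n1 := ndF4q1) (n2 := ndF5q1) (pc := pcF0) (cut := Cut.none) (xt := Ext.none) (P1 := 536870912) (W1 := 536870912) (P2 := 536870912) (W2 := 536870912) (P3 := 134217728) (W3 := 67108864)
    rfl k0_pm_101

noncomputable def f_pm_102 : ℕ → ℕ → ℕ → ℕ → Bool := onCell 536870912 536870912 1073741824 536870912 134217728 67108864
    (rowF 0 false true false .npp 1 0 2 (qsf 536870912 536870912 1073741824 536870912 0) ndF4q1 ndF5q2 pcF0 Cut.none Ext.none)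

def k0_pm_102 : ∃ t, chk3 f_pm_102 t 1 1 1 = true :=
  ⟨(l 4), by decide +kernel⟩

theorem c_pm_102 : CertF 536870912 536870912 1073741824 536870912 134217728 67108864 false true false .npp 1 0 2
    ndF4q1 ndF5q2 pcF0 Cut.none Ext.none :=
  certF0 (fam := false) (s1 := true) (s2 := false) (a := 1) (b := 0) (c := 2) (cn := .npp) (n1 := ndF4q1) (n2 := ndF5q2) (pc := pcF0) (cut := Cut.none) (xt := Ext.none) (P1 := 536870912) (W1 := 536870912) (P2 := 1073741824) (W2 := 536870912) (P3 := 134217728) (W3 := 67108864)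
    rfl k0_pm_102

noncomputable def f_pm_112 : ℕ → ℕ → ℕ → ℕ → Bool := onCell 536870912 536870912 1073741824 536870912 134217728 67108864
    (rowF 0 false true false .dn 1 1 2 (qsf 536870912 536870912 1073741824 536870912 1) ndF4q1 ndF5q2 pcF1 Cut.none Ext.none)

def k0_pm_112 : ∃ t, chk3 f_pm_112 t 1 1 1 = true :=
  ⟨(l 4), by decide +kernel⟩

theorem c_pm_112 : CertF 536870912 536870912 1073741824 536870912 134217728 67108864 false true false .dn 1 1 2
    ndF4q1 ndF5q2 pcF1 Cut.none Ext.none :=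
  certF0 (fam := false) (s1 := true) (s2 := false) (a := 1) (b := 1) (c := 2) (cn := .dn) (n1 := ndF4q1) (n2 := ndF5q2) (pc := pcF1) (cut := Cut.none) (xt := Ext.none) (P1 := 536870912) (W1 := 536870912) (P2 := 1073741824) (W2 := 536870912) (P3 := 134217728) (W3 := 67108864)
    rfl k0_pm_112

noncomputable def f_pm_113 : ℕ → ℕ → ℕ → ℕ → Bool := onCell 536870912 536870912 0 1230186008 134217728 67108864
    (rowF 0 false true false .nn 1 1 3 (qsf 536870912 536870912 0 1230186008 1) ndF4q1 ndF5q3 pcF1 Cut.none Ext.none)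

def k0_pm_113 : ∃ t, chk3 f_pm_113 t 1 1 1 = true :=
  ⟨(b (b (a (l 2) (l 16914448)) (l 4)) (l 4)), by decide +kernel⟩

theorem c_pm_113 : CertF 536870912 536870912 0 1230186008 134217728 67108864 false true false .nn 1 1 3
    ndF4q1 ndF5q3 pcF1 Cut.none Ext.none :=
  certF0 (fam := false) (s1 := true) (s2 := false) (a := 1) (b := 1) (c := 3) (cn := .nn) (n1 := ndF4q1) (n2 := ndF5q3) (pc := pcF1) (cut := Cut.none) (xt := Ext.none) (P1 := 536870912) (W1 := 536870912) (P2 := 0) (W2 := 1230186008) (P3 := 134217728) (W3 := 67108864)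
    rfl k0_pm_113

noncomputable def f_pm_123 : ℕ → ℕ → ℕ → ℕ → Bool := onCell 1073741824 536870912 0 1230186008 134217728 67108864
    (rowF 2 false true false .npn 1 2 3 (qsf 536870912 536870912 0 1230186008 2) ndF4q1 ndF5q3 pcF2 Cut.none Ext.none)

def k0_pm_123 : ∃ t, chk3 f_pm_123 t 1 1 1 = true :=
  ⟨(b (a (a (l 17369248) (l 4)) (l 4)) (l 4)), by decide +kernel⟩

theorem c_pm_123 : CertF 536870912 536870912 0 1230186008 134217728 67108864 false true false .npn 1 2 3
    ndF4q1 ndF5q3 pcF2 Cut.none Ext.none :=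
  certF2 (fam := false) (s1 := true) (s2 := false) (a := 1) (b := 2) (c := 3) (cn := .npn) (n1 := ndF4q1) (n2 := ndF5q3) (pc := pcF2) (cut := Cut.none) (xt := Ext.none) (P1 := 536870912) (W1 := 536870912) (P2 := 0) (W2 := 1230186008) (P3 := 134217728) (W3 := 67108864)
    rfl (fun _ => rfl) k0_pm_123

noncomputable def f_pm_133 : ℕ → ℕ → ℕ → ℕ → Bool := onCell 1610612736 536870912 0 1230186008 134217728 67108864
    (rowF 2 false true false .dn 1 3 3 (qsf 536870912 536870912 0 1230186008 3) ndF4q1 ndF5q3 pcF3 Cut.none Ext.none)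

def k0_pm_133 : ∃ t, chk3 f_pm_133 t 1 1 1 = true :=
  ⟨(b (l 4) (l 1)), by decide +kernel⟩

theorem c_pm_133 : CertF 536870912 536870912 0 1230186008 134217728 67108864 false true false .dn 1 3 3
    ndF4q1 ndF5q3 pcF3 Cut.none Ext.none :=
  certF2 (fam := false) (s1 := true) (s2 := false) (a := 1) (b := 3) (c := 3) (cn := .dn) (n1 := ndF4q1) (n2 := ndF5q3) (pc := pcF3) (cut := Cut.none) (xt := Ext.none) (P1 := 536870912) (W1 := 536870912) (P2 := 0) (W2 := 1230186008) (P3 := 134217728) (W3 := 67108864)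
    rfl (fun _ => rfl) k0_pm_133

noncomputable def f_pm_202 : ℕ → ℕ → ℕ → ℕ → Bool := onCell 1073741824 536870912 1073741824 536870912 134217728 67108864
    (rowF 0 false true false .pp 2 0 2 (qsf 1073741824 536870912 1073741824 536870912 0) ndF4q2 ndF5q2 pcF0 Cut.none Ext.none)

def k0_pm_202 : ∃ t, chk3 f_pm_202 t 1 1 1 = true :=
  ⟨(l 4), by decide +kernel⟩

theorem c_pm_202 : CertF 1073741824 536870912 1073741824 536870912 134217728 67108864 false true false .pp 2 0 2
    ndF4q2 ndF5q2 pcF0 Cut.none Ext.none :=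
  certF0 (fam := false) (s1 := true) (s2 := false) (a := 2) (b := 0) (c := 2) (cn := .pp) (n1 := ndF4q2) (n2 := ndF5q2) (pc := pcF0) (cut := Cut.none) (xt := Ext.none) (P1 := 1073741824) (W1 := 536870912) (P2 := 1073741824) (W2 := 536870912) (P3 := 134217728) (W3 := 67108864)
    rfl k0_pm_202

noncomputable def f_pm_203 : ℕ → ℕ → ℕ → ℕ → Bool := onCell 0 536870912 0 1230186008 134217728 67108864
    (rowF 2 false true false .up 2 0 3 (qsf 1073741824 536870912 0 1230186008 0) ndF4q2 ndF5q3 pcF0 Cut.none Ext.none)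

def k0_pm_203 : ∃ t, chk3 f_pm_203 t 1 1 1 = true :=
  ⟨(b (a (l 2) (a (l 2) (b (l 214918627223) (l 239010868215)))) (a (b (a (l 2) (l 830105667047)) (b (l 17433392) (l 17815680))) (b (a (b (l 17837560) (l 17627800)) (b (l 112846365031) (l 17405960))) (a (l 17713496) (l 4))))), by decide +kernel⟩

theorem c_pm_203 : CertF 1073741824 536870912 0 1230186008 134217728 67108864 false true false .up 2 0 3
    ndF4q2 ndF5q3 pcF0 Cut.none Ext.none :=
  certF2 (fam := false) (s1 := true) (s2 := false) (a := 2) (b := 0) (c := 3) (cn := .up) (n1 := ndF4q2) (n2 := ndF5q3) (pc := pcF0) (cut := Cut.none) (xt := Ext.none) (P1 := 1073741824) (W1 := 536870912) (P2 := 0) (W2 := 1230186008) (P3 := 134217728) (W3 := 67108864)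
    rfl (fun _ => rfl) k0_pm_203

noncomputable def f_pm_213 : ℕ → ℕ → ℕ → ℕ → Bool := onCell 536870912 536870912 0 1230186008 134217728 67108864
    (rowF 2 false true false .pnn 2 1 3 (qsf 1073741824 536870912 0 1230186008 1) ndF4q2 ndF5q3 pcF1 Cut.none Ext.none)

def k0_pm_213 : ∃ t, chk3 f_pm_213 t 1 1 1 = true :=
  ⟨(b (b (a (a (l 150493082935) (l 17180448)) (a (l 17105072) (l 16972632))) (a (a (b (l 17072912) (l 16942464)) (l 16932928)) (a (a (l 17024704) (l 17186808)) (a (b (l 17070984) (l 17357496)) (l 17292064))))) (b (a (a (l 17173112) (l 17320840)) (l 17601344)) (l 4))), by decide +kernel⟩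

theorem c_pm_213 : CertF 1073741824 536870912 0 1230186008 134217728 67108864 false true false .pnn 2 1 3
    ndF4q2 ndF5q3 pcF1 Cut.none Ext.none :=
  certF2 (fam := false) (s1 := true) (s2 := false) (a := 2) (b := 1) (c := 3) (cn := .pnn) (n1 := ndF4q2) (n2 := ndF5q3) (pc := pcF1) (cut := Cut.none) (xt := Ext.none) (P1 := 1073741824) (W1 := 536870912) (P2 := 0) (W2 := 1230186008) (P3 := 134217728) (W3 := 67108864)
    rfl (fun _ => rfl) k0_pm_213

noncomputable def f_pm_303 : ℕ → ℕ → ℕ → ℕ → Bool := onCell 0 1230186008 0 1230186008 134217728 67108864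
    (rowF 0 false true false .npn 3 0 3 (qsf 0 1230186008 0 1230186008 0) ndF4q3 ndF5q3 pcF0 Cut.none Ext.none)

def k0_pm_303 : ∃ t, chk3 f_pm_303 t 1 1 1 = true :=
  ⟨(a (b (l 3) (a (l 1) (b (b (b (l 244446457719) (l 1)) (l 1)) (l 1)))) (b (a (b (l 3) (a (l 245519559975) (l 180558196807))) (b (a (l 258940731799) (l 213843393527)) (a (l 151567118103) (b (l 17274768) (l 17350568))))) (a (b (b (a (b (l 17757640) (l 17479808)) (l 17339640)) (a (l 17183584) (l 16975512))) (a (l 1) (b (b (l 17162168) (l 1)) (l 1)))) (b (a (b (l 17343280) (l 16979184)) (b (a (l 17339504) (l 17387024)) (l 17031952))) (b (a (l 16888560) (l 16867064)) (a (a (l 1) (b (l 16865328) (l 1))) (l 17118008))))))), by decide +kernel⟩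

theorem c_pm_303 : CertF 0 1230186008 0 1230186008 134217728 67108864 false true false .npn 3 0 3
    ndF4q3 ndF5q3 pcF0 Cut.none Ext.none :=
  certF0 (fam := false) (s1 := true) (s2 := false) (a := 3) (b := 0) (c := 3) (cn := .npn) (n1 := ndF4q3) (n2 := ndF5q3) (pc := pcF0) (cut := Cut.none) (xt := Ext.none) (P1 := 0) (W1 := 1230186008) (P2 := 0) (W2 := 1230186008) (P3 := 134217728) (W3 := 67108864)
    rfl k0_pm_303

noncomputable def f_pm_313 : ℕ → ℕ → ℕ → ℕ → Bool := onCell 0 1230186008 0 1230186008 134217728 67108864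
    (rowF 0 false true false .dn 3 1 3 (qsf 0 1230186008 0 1230186008 1) ndF4q3 ndF5q3 pcF1 Cut.none Ext.none)

def k0_pm_313 : ∃ t, chk3 f_pm_313 t 1 1 1 = true :=
  ⟨(a (l 1) (b (a (l 1) (a (l 1) (b (a (l 1) (l 212769558535)) (l 1)))) (l 1))), by decide +kernel⟩

theorem c_pm_313 : CertF 0 1230186008 0 1230186008 134217728 67108864 false true false .dn 3 1 3
    ndF4q3 ndF5q3 pcF1 Cut.none Ext.none :=
  certF0 (fam := false) (s1 := true) (s2 := false) (a := 3) (b := 1) (c := 3) (cn := .dn) (n1 := ndF4q3) (n2 := ndF5q3) (pc := pcF1) (cut := Cut.none) (xt := Ext.none) (P1 := 0) (W1 := 1230186008) (P2 := 0) (W2 := 1230186008) (P3 := 134217728) (W3 := 67108864)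
    rfl k0_pm_313

noncomputable def f_mm_001 : ℕ → ℕ → ℕ → ℕ → Bool := onCell 0 536870912 536870912 536870912 134217728 67108864
    (rowF 0 false false false .up 0 0 1 (qsf 0 536870912 536870912 536870912 0) ndF4q0 ndF5q1 pcF0 Cut.none Ext.none)

def k0_mm_001 : ∃ t, chk3 f_mm_001 t 1 1 1 = true :=
  ⟨(l 3), by decide +kernel⟩

theorem c_mm_001 : CertF 0 536870912 536870912 536870912 134217728 67108864 false false false .up 0 0 1
    ndF4q0 ndF5q1 pcF0 Cut.none Ext.none :=
  certF0 (fam := false) (s1 := false) (s2 := false) (a := 0) (b := 0) (c := 1) (cn := .up) (n1 := ndF4q0) (n2 := ndF5q1) (pc := pcF0) (cut := Cut.none) (xt := Ext.none) (P1 := 0) (W1 := 536870912) (P2 := 536870912) (W2 := 536870912) (P3 := 134217728) (W3 := 67108864)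
    rfl k0_mm_001

noncomputable def f_mm_011 : ℕ → ℕ → ℕ → ℕ → Bool := onCell 0 536870912 536870912 536870912 134217728 67108864
    (rowF 0 false false false .pnn 0 1 1 (qsf 0 536870912 536870912 536870912 1) ndF4q0 ndF5q1 pcF1 Cut.none Ext.none)

def k0_mm_011 : ∃ t, chk3 f_mm_011 t 1 1 1 = true :=
  ⟨(l 3), by decide +kernel⟩

theorem c_mm_011 : CertF 0 536870912 536870912 536870912 134217728 67108864 false false false .pnn 0 1 1
    ndF4q0 ndF5q1 pcF1 Cut.none Ext.none :=
  certF0 (fam := false) (s1 := false) (s2 := false) (a := 0) (b := 1) (c := 1) (cn := .pnn) (n1 := ndF4q0) (n2 := ndF5q1) (pc := pcF1) (cut := Cut.none) (xt := Ext.none) (P1 := 0) (W1 := 536870912) (P2 := 536870912) (W2 := 536870912) (P3 := 134217728) (W3 := 67108864)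
    rfl k0_mm_011

noncomputable def f_mm_012 : ℕ → ℕ → ℕ → ℕ → Bool := onCell 0 536870912 1073741824 536870912 134217728 67108864
    (rowF 0 false false false .pnp 0 1 2 (qsf 0 536870912 1073741824 536870912 1) ndF4q0 ndF5q2 pcF1 Cut.none Ext.none)

def k0_mm_012 : ∃ t, chk3 f_mm_012 t 1 1 1 = true :=
  ⟨(l 5), by decide +kernel⟩

theorem c_mm_012 : CertF 0 536870912 1073741824 536870912 134217728 67108864 false false false .pnp 0 1 2
    ndF4q0 ndF5q2 pcF1 Cut.none Ext.none :=
  certF0 (fam := false) (s1 := false) (s2 := false) (a := 0) (b := 1) (c := 2) (cn := .pnp) (n1 := ndF4q0) (n2 := ndF5q2) (pc := pcF1) (cut := Cut.none) (xt := Ext.none) (P1 := 0) (W1 := 536870912) (P2 := 1073741824) (W2 := 536870912) (P3 := 134217728) (W3 := 67108864)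
    rfl k0_mm_012

noncomputable def f_mm_022 : ℕ → ℕ → ℕ → ℕ → Bool := onCell 0 536870912 1073741824 536870912 134217728 67108864
    (rowF 0 false false false .pp 0 2 2 (qsf 0 536870912 1073741824 536870912 2) ndF4q0 ndF5q2 pcF2 Cut.none Ext.none)

def k0_mm_022 : ∃ t, chk3 f_mm_022 t 1 1 1 = true :=
  ⟨(l 5), by decide +kernel⟩

theorem c_mm_022 : CertF 0 536870912 1073741824 536870912 134217728 67108864 false false false .pp 0 2 2
    ndF4q0 ndF5q2 pcF2 Cut.none Ext.none :=
  certF0 (fam := false) (s1 := false) (s2 := false) (a := 0) (b := 2) (c := 2) (cn := .pp) (n1 := ndF4q0) (n2 := ndF5q2) (pc := pcF2) (cut := Cut.none) (xt := Ext.none) (P1 := 0) (W1 := 536870912) (P2 := 1073741824) (W2 := 536870912) (P3 := 134217728) (W3 := 67108864)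
    rfl k0_mm_022

noncomputable def f_mm_023 : ℕ → ℕ → ℕ → ℕ → Bool := onCell 0 536870912 0 1230186008 134217728 67108864
    (rowF 0 false false false .up 0 2 3 (qsf 0 536870912 0 1230186008 2) ndF4q0 ndF5q3 pcF2 Cut.none Ext.none)

def k0_mm_023 : ∃ t, chk3 f_mm_023 t 1 1 1 = true :=
  ⟨(l 5), by decide +kernel⟩

theorem c_mm_023 : CertF 0 536870912 0 1230186008 134217728 67108864 false false false .up 0 2 3
    ndF4q0 ndF5q3 pcF2 Cut.none Ext.none :=
  certF0 (fam := false) (s1 := false) (s2 := false) (a := 0) (b := 2) (c := 3) (cn := .up) (n1 := ndF4q0) (n2 := ndF5q3) (pc := pcF2) (cut := Cut.none) (xt := Ext.none) (P1 := 0) (W1 := 536870912) (P2 := 0) (W2 := 1230186008) (P3 := 134217728) (W3 := 67108864)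
    rfl k0_mm_023

noncomputable def f_mm_033 : ℕ → ℕ → ℕ → ℕ → Bool := onCell 0 536870912 0 1230186008 134217728 67108864
    (rowF 0 false false false .pnn 0 3 3 (qsf 0 536870912 0 1230186008 3) ndF4q0 ndF5q3 pcF3 Cut.none Ext.none)

def k0_mm_033 : ∃ t, chk3 f_mm_033 t 1 1 1 = true :=
  ⟨(l 5), by decide +kernel⟩

theorem c_mm_033 : CertF 0 536870912 0 1230186008 134217728 67108864 false false false .pnn 0 3 3
    ndF4q0 ndF5q3 pcF3 Cut.none Ext.none :=
  certF0 (fam := false) (s1 := false) (s2 := false) (a := 0) (b := 3) (c := 3) (cn := .pnn) (n1 := ndF4q0) (n2 := ndF5q3) (pc := pcF3) (cut := Cut.none) (xt := Ext.none) (P1 := 0) (W1 := 536870912) (P2 := 0) (W2 := 1230186008) (P3 := 134217728) (W3 := 67108864)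
    rfl k0_mm_033

noncomputable def f_mm_101 : ℕ → ℕ → ℕ → ℕ → Bool := onCell 536870912 536870912 536870912 536870912 134217728 67108864
    (rowF 0 false false false .npn 1 0 1 (qsf 536870912 536870912 536870912 536870912 0) ndF4q1 ndF5q1 pcF0 Cut.none Ext.none)

def k0_mm_101 : ∃ t, chk3 f_mm_101 t 1 1 1 = true :=
  ⟨(l 3), by decide +kernel⟩

theorem c_mm_101 : CertF 536870912 536870912 536870912 536870912 134217728 67108864 false false false .npn 1 0 1
    ndF4q1 ndF5q1 pcF0 Cut.none Ext.none :=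
  certF0 (fam := false) (s1 := false) (s2 := false) (a := 1) (b := 0) (c := 1) (cn := .npn) (n1 := ndF4q1) (n2 := ndF5q1) (pc := pcF0) (cut := Cut.none) (xt := Ext.none) (P1 := 536870912) (W1 := 536870912) (P2 := 536870912) (W2 := 536870912) (P3 := 134217728) (W3 := 67108864)
    rfl k0_mm_101

noncomputable def f_mm_102 : ℕ → ℕ → ℕ → ℕ → Bool := onCell 536870912 536870912 0 536870912 134217728 67108864
    (rowF 1 false false false .npp 1 0 2 (qsf 536870912 536870912 1073741824 536870912 0) ndF4q1 ndF5q2 pcF0 Cut.none Ext.none)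

def k0_mm_102 : ∃ t, chk3 f_mm_102 t 1 1 1 = true :=
  ⟨(l 3), by decide +kernel⟩

theorem c_mm_102 : CertF 536870912 536870912 1073741824 536870912 134217728 67108864 false false false .npp 1 0 2
    ndF4q1 ndF5q2 pcF0 Cut.none Ext.none :=
  certF1 (fam := false) (s1 := false) (s2 := false) (a := 1) (b := 0) (c := 2) (cn := .npp) (n1 := ndF4q1) (n2 := ndF5q2) (pc := pcF0) (cut := Cut.none) (xt := Ext.none) (P1 := 536870912) (W1 := 536870912) (P2 := 1073741824) (W2 := 536870912) (P3 := 134217728) (W3 := 67108864)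
    rfl (fun _ => rfl) k0_mm_102

noncomputable def f_mm_112 : ℕ → ℕ → ℕ → ℕ → Bool := onCell 536870912 536870912 536870912 536870912 134217728 67108864
    (rowF 1 false false false .dn 1 1 2 (qsf 536870912 536870912 1073741824 536870912 1) ndF4q1 ndF5q2 pcF1 Cut.none Ext.none)

def k0_mm_112 : ∃ t, chk3 f_mm_112 t 1 1 1 = true :=
  ⟨(l 5), by decide +kernel⟩

theorem c_mm_112 : CertF 536870912 536870912 1073741824 536870912 134217728 67108864 false false false .dn 1 1 2
    ndF4q1 ndF5q2 pcF1 Cut.none Ext.none :=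
  certF1 (fam := false) (s1 := false) (s2 := false) (a := 1) (b := 1) (c := 2) (cn := .dn) (n1 := ndF4q1) (n2 := ndF5q2) (pc := pcF1) (cut := Cut.none) (xt := Ext.none) (P1 := 536870912) (W1 := 536870912) (P2 := 1073741824) (W2 := 536870912) (P3 := 134217728) (W3 := 67108864)
    rfl (fun _ => rfl) k0_mm_112

noncomputable def f_mm_113 : ℕ → ℕ → ℕ → ℕ → Bool := onCell 536870912 536870912 0 1230186008 134217728 67108864
    (rowF 0 false false false .nn 1 1 3 (qsf 536870912 536870912 0 1230186008 1) ndF4q1 ndF5q3 pcF1 Cut.none Ext.none)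

def k0_mm_113 : ∃ t, chk3 f_mm_113 t 1 1 1 = true :=
  ⟨(l 5), by decide +kernel⟩

theorem c_mm_113 : CertF 536870912 536870912 0 1230186008 134217728 67108864 false false false .nn 1 1 3
    ndF4q1 ndF5q3 pcF1 Cut.none Ext.none :=
  certF0 (fam := false) (s1 := false) (s2 := false) (a := 1) (b := 1) (c := 3) (cn := .nn) (n1 := ndF4q1) (n2 := ndF5q3) (pc := pcF1) (cut := Cut.none) (xt := Ext.none) (P1 := 536870912) (W1 := 536870912) (P2 := 0) (W2 := 1230186008) (P3 := 134217728) (W3 := 67108864)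
    rfl k0_mm_113

noncomputable def f_mm_123 : ℕ → ℕ → ℕ → ℕ → Bool := onCell 536870912 536870912 0 1230186008 134217728 67108864
    (rowF 0 false false false .npn 1 2 3 (qsf 536870912 536870912 0 1230186008 2) ndF4q1 ndF5q3 pcF2 Cut.none Ext.none)

def k0_mm_123 : ∃ t, chk3 f_mm_123 t 1 1 1 = true :=
  ⟨(l 5), by decide +kernel⟩

theorem c_mm_123 : CertF 536870912 536870912 0 1230186008 134217728 67108864 false false false .npn 1 2 3
    ndF4q1 ndF5q3 pcF2 Cut.none Ext.none :=
  certF0 (fam := false) (s1 := false) (s2 := false) (a := 1) (b := 2) (c := 3) (cn := .npn) (n1 := ndF4q1) (n2 := ndF5q3) (pc := pcF2) (cut := Cut.none) (xt := Ext.none) (P1 := 536870912) (W1 := 536870912) (P2 := 0) (W2 := 1230186008) (P3 := 134217728) (W3 := 67108864)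
    rfl k0_mm_123

noncomputable def f_mm_133 : ℕ → ℕ → ℕ → ℕ → Bool := onCell 536870912 536870912 0 1230186008 134217728 67108864
    (rowF 0 false false false .dn 1 3 3 (qsf 536870912 536870912 0 1230186008 3) ndF4q1 ndF5q3 pcF3 Cut.none Ext.none)

def k0_mm_133 : ∃ t, chk3 f_mm_133 t 1 1 1 = true :=
  ⟨(l 5), by decide +kernel⟩

theorem c_mm_133 : CertF 536870912 536870912 0 1230186008 134217728 67108864 false false false .dn 1 3 3
    ndF4q1 ndF5q3 pcF3 Cut.none Ext.none :=
  certF0 (fam := false) (s1 := false) (s2 := false) (a := 1) (b := 3) (c := 3) (cn := .dn) (n1 := ndF4q1) (n2 := ndF5q3) (pc := pcF3) (cut := Cut.none) (xt := Ext.none) (P1 := 536870912) (W1 := 536870912) (P2 := 0) (W2 := 1230186008) (P3 := 134217728) (W3 := 67108864)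
    rfl k0_mm_133

noncomputable def f_mm_202 : ℕ → ℕ → ℕ → ℕ → Bool := onCell 1073741824 536870912 1073741824 536870912 134217728 67108864
    (rowF 0 false false false .pp 2 0 2 (qsf 1073741824 536870912 1073741824 536870912 0) ndF4q2 ndF5q2 pcF0 Cut.none Ext.none)

def k0_mm_202 : ∃ t, chk3 f_mm_202 t 1 1 1 = true :=
  ⟨(l 3), by decide +kernel⟩

theorem c_mm_202 : CertF 1073741824 536870912 1073741824 536870912 134217728 67108864 false false false .pp 2 0 2
    ndF4q2 ndF5q2 pcF0 Cut.none Ext.none :=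
  certF0 (fam := false) (s1 := false) (s2 := false) (a := 2) (b := 0) (c := 2) (cn := .pp) (n1 := ndF4q2) (n2 := ndF5q2) (pc := pcF0) (cut := Cut.none) (xt := Ext.none) (P1 := 1073741824) (W1 := 536870912) (P2 := 1073741824) (W2 := 536870912) (P3 := 134217728) (W3 := 67108864)
    rfl k0_mm_202

noncomputable def f_mm_203 : ℕ → ℕ → ℕ → ℕ → Bool := onCell 1073741824 536870912 0 1230186008 134217728 67108864
    (rowF 0 false false false .up 2 0 3 (qsf 1073741824 536870912 0 1230186008 0) ndF4q2 ndF5q3 pcF0 Cut.none Ext.none)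

def k0_mm_203 : ∃ t, chk3 f_mm_203 t 1 1 1 = true :=
  ⟨(b (l 5) (b (l 3) (l 3))), by decide +kernel⟩

theorem c_mm_203 : CertF 1073741824 536870912 0 1230186008 134217728 67108864 false false false .up 2 0 3
    ndF4q2 ndF5q3 pcF0 Cut.none Ext.none :=
  certF0 (fam := false) (s1 := false) (s2 := false) (a := 2) (b := 0) (c := 3) (cn := .up) (n1 := ndF4q2) (n2 := ndF5q3) (pc := pcF0) (cut := Cut.none) (xt := Ext.none) (P1 := 1073741824) (W1 := 536870912) (P2 := 0) (W2 := 1230186008) (P3 := 134217728) (W3 := 67108864)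
    rfl k0_mm_203

noncomputable def f_mm_213 : ℕ → ℕ → ℕ → ℕ → Bool := onCell 536870912 536870912 0 1230186008 134217728 67108864
    (rowF 2 false false false .pnn 2 1 3 (qsf 1073741824 536870912 0 1230186008 1) ndF4q2 ndF5q3 pcF1 Cut.none Ext.none)

def k0_mm_213 : ∃ t, chk3 f_mm_213 t 1 1 1 = true :=
  ⟨(b (l 5) (l 5)), by decide +kernel⟩

theorem c_mm_213 : CertF 1073741824 536870912 0 1230186008 134217728 67108864 false false false .pnn 2 1 3
    ndF4q2 ndF5q3 pcF1 Cut.none Ext.none :=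
  certF2 (fam := false) (s1 := false) (s2 := false) (a := 2) (b := 1) (c := 3) (cn := .pnn) (n1 := ndF4q2) (n2 := ndF5q3) (pc := pcF1) (cut := Cut.none) (xt := Ext.none) (P1 := 1073741824) (W1 := 536870912) (P2 := 0) (W2 := 1230186008) (P3 := 134217728) (W3 := 67108864)
    rfl (fun _ => rfl) k0_mm_213

noncomputable def f_mm_303 : ℕ → ℕ → ℕ → ℕ → Bool := onCell 0 1230186008 0 1230186008 134217728 67108864
    (rowF 0 false false false .npn 3 0 3 (qsf 0 1230186008 0 1230186008 0) ndF4q3 ndF5q3 pcF0 Cut.none Ext.none)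

def k0_mm_303 : ∃ t, chk3 f_mm_303 t 1 1 1 = true :=
  ⟨(a (b (l 3) (b (l 3) (l 1))) (b (a (l 3) (l 3)) (l 3))), by decide +kernel⟩

theorem c_mm_303 : CertF 0 1230186008 0 1230186008 134217728 67108864 false false false .npn 3 0 3
    ndF4q3 ndF5q3 pcF0 Cut.none Ext.none :=
  certF0 (fam := false) (s1 := false) (s2 := false) (a := 3) (b := 0) (c := 3) (cn := .npn) (n1 := ndF4q3) (n2 := ndF5q3) (pc := pcF0) (cut := Cut.none) (xt := Ext.none) (P1 := 0) (W1 := 1230186008) (P2 := 0) (W2 := 1230186008) (P3 := 134217728) (W3 := 67108864)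
    rfl k0_mm_303

noncomputable def f_mm_313 : ℕ → ℕ → ℕ → ℕ → Bool := onCell 0 1230186008 0 1230186008 134217728 67108864
    (rowF 0 false false false .dn 3 1 3 (qsf 0 1230186008 0 1230186008 1) ndF4q3 ndF5q3 pcF1 Cut.none Ext.none)

def k0_mm_313 : ∃ t, chk3 f_mm_313 t 1 1 1 = true :=
  ⟨(a (l 1) (b (a (l 1) (l 3)) (l 1))), by decide +kernel⟩

theorem c_mm_313 : CertF 0 1230186008 0 1230186008 134217728 67108864 false false false .dn 3 1 3
    ndF4q3 ndF5q3 pcF1 Cut.none Ext.none :=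
  certF0 (fam := false) (s1 := false) (s2 := false) (a := 3) (b := 1) (c := 3) (cn := .dn) (n1 := ndF4q3) (n2 := ndF5q3) (pc := pcF1) (cut := Cut.none) (xt := Ext.none) (P1 := 0) (W1 := 1230186008) (P2 := 0) (W2 := 1230186008) (P3 := 134217728) (W3 := 67108864)
    rfl k0_mm_313

end Pool.Agent.Strip051.G.I1_8_3_16.Tab.C.FB45

namespace Pool.Agent.Strip051.G.I1_8_3_16.Tab.C.FB50

open Pool.Agent.Strip051.PB Pool.Agent.Strip051.PB.T
open Pool.Agent.Strip051.G.I1_8_3_16.Tab

noncomputable def cut_pp_001 : Cut := Cut.of [[⟨3, 0, 0, 1449551462⟩]]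

noncomputable def f_pp_001 : ℕ → ℕ → ℕ → ℕ → Bool := onCell 0 536870912 0 536870912 134217728 67108864
    (rowF 1 false true true .up 0 0 1 (qsf 0 536870912 536870912 536870912 0) ndF5q0 ndF0q1 pcF0 cut_pp_001 Ext.none)

def k0_pp_001 : ∃ t, chk3 f_pp_001 t 1 1 1 = true :=
  ⟨(a (l 6) (b (l 3) (b (l 6) (a (l 6) (b (l 6) (a (b (l 6) (l 17296616)) (b (l 17364768) (l 17473584)))))))), by decide +kernel⟩

theorem c_pp_001 : CertF 0 536870912 536870912 536870912 134217728 67108864 false true true .up 0 0 1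
    ndF5q0 ndF0q1 pcF0 cut_pp_001 Ext.none :=
  certF1 (fam := false) (s1 := true) (s2 := true) (a := 0) (b := 0) (c := 1) (cn := .up) (n1 := ndF5q0) (n2 := ndF0q1) (pc := pcF0) (cut := cut_pp_001) (xt := Ext.none) (P1 := 0) (W1 := 536870912) (P2 := 536870912) (W2 := 536870912) (P3 := 134217728) (W3 := 67108864)
    rfl (fun _ => rfl) k0_pp_001

noncomputable def cut_pp_011 : Cut := Cut.of [[⟨3, 0, 0, 1449551462⟩]]

noncomputable def f_pp_011 : ℕ → ℕ → ℕ → ℕ → Bool := onCell 536870912 536870912 536870912 536870912 134217728 67108864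
    (rowF 2 false true true .pnn 0 1 1 (qsf 0 536870912 536870912 536870912 1) ndF5q0 ndF0q1 pcF1 cut_pp_011 Ext.none)

def k0_pp_011 : ∃ t, chk3 f_pp_011 t 1 1 1 = true :=
  ⟨(a (b (a (l 6) (b (l 6) (a (l 6) (b (l 6) (l 17533656))))) (a (b (b (l 6) (a (l 17613200) (l 17705384))) (b (a (l 17867408) (l 17928400)) (a (l 18090752) (l 18131944)))) (b (b (a (l 17592352) (l 17699816)) (l 17835160)) (b (l 18018808) (l 18202216))))) (b (a (b (l 1) (a (b (l 1) (l 17677944)) (l 1))) (l 1)) (a (b (b (l 17919576) (l 18029704)) (b (l 18163520) (l 18367568))) (b (b (l 1) (l 18342976)) (b (l 18493984) (l 18684096)))))), by decide +kernel⟩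

theorem c_pp_011 : CertF 0 536870912 536870912 536870912 134217728 67108864 false true true .pnn 0 1 1
    ndF5q0 ndF0q1 pcF1 cut_pp_011 Ext.none :=
  certF2 (fam := false) (s1 := true) (s2 := true) (a := 0) (b := 1) (c := 1) (cn := .pnn) (n1 := ndF5q0) (n2 := ndF0q1) (pc := pcF1) (cut := cut_pp_011) (xt := Ext.none) (P1 := 0) (W1 := 536870912) (P2 := 536870912) (W2 := 536870912) (P3 := 134217728) (W3 := 67108864)
    rfl (fun _ => rfl) k0_pp_011

noncomputable def cut_pp_012 : Cut := Cut.of [[⟨3, 0, 0, 1449551462⟩]]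

noncomputable def f_pp_012 : ℕ → ℕ → ℕ → ℕ → Bool := onCell 536870912 536870912 0 536870912 134217728 67108864
    (rowF 2 false true true .pnp 0 1 2 (qsf 0 536870912 0 536870912 1) ndF5q0 ndF0q2 pcF1 cut_pp_012 Ext.none)

def k0_pp_012 : ∃ t, chk3 f_pp_012 t 1 1 1 = true :=
  ⟨(a (b (a (l 18871160) (l 18732976)) (b (a (l 18488632) (l 18453248)) (a (l 18280360) (l 18318136)))) (b (b (l 19102624) (a (l 18865432) (a (l 19111104) (l 19285056)))) (b (a (l 18751608) (a (l 18824480) (l 19044696))) (a (l 18476696) (l 18796808))))), by decide +kernel⟩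

theorem c_pp_012 : CertF 0 536870912 0 536870912 134217728 67108864 false true true .pnp 0 1 2
    ndF5q0 ndF0q2 pcF1 cut_pp_012 Ext.none :=
  certF2 (fam := false) (s1 := true) (s2 := true) (a := 0) (b := 1) (c := 2) (cn := .pnp) (n1 := ndF5q0) (n2 := ndF0q2) (pc := pcF1) (cut := cut_pp_012) (xt := Ext.none) (P1 := 0) (W1 := 536870912) (P2 := 0) (W2 := 536870912) (P3 := 134217728) (W3 := 67108864)
    rfl (fun _ => rfl) k0_pp_012

noncomputable def cut_pp_022 : Cut := Cut.of [[⟨3, 0, 0, 1449551462⟩]]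

noncomputable def f_pp_022 : ℕ → ℕ → ℕ → ℕ → Bool := onCell 1073741824 536870912 0 536870912 134217728 67108864
    (rowF 2 false true true .pp 0 2 2 (qsf 0 536870912 0 536870912 2) ndF5q0 ndF0q2 pcF2 cut_pp_022 Ext.none)

def k0_pp_022 : ∃ t, chk3 f_pp_022 t 1 1 1 = true :=
  ⟨(a (b (a (l 18977104) (l 4)) (a (b (l 19102296) (l 18996360)) (b (l 1) (l 1)))) (l 1)), by decide +kernel⟩

theorem c_pp_022 : CertF 0 536870912 0 536870912 134217728 67108864 false true true .pp 0 2 2
    ndF5q0 ndF0q2 pcF2 cut_pp_022 Ext.none :=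
  certF2 (fam := false) (s1 := true) (s2 := true) (a := 0) (b := 2) (c := 2) (cn := .pp) (n1 := ndF5q0) (n2 := ndF0q2) (pc := pcF2) (cut := cut_pp_022) (xt := Ext.none) (P1 := 0) (W1 := 536870912) (P2 := 0) (W2 := 536870912) (P3 := 134217728) (W3 := 67108864)
    rfl (fun _ => rfl) k0_pp_022

noncomputable def cut_pp_101 : Cut := Cut.of [[⟨3, 0, 0, 1449551462⟩], [⟨0, 1, 0, 67108864⟩, ⟨1, 0, 0, 67108864⟩, ⟨2, 1, 0, 67108864⟩]]

noncomputable def f_pp_101 : ℕ → ℕ → ℕ → ℕ → Bool := onCell 0 536870912 536870912 536870912 134217728 67108864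
    (rowF 2 false true true .npn 1 0 1 (qsf 536870912 536870912 536870912 536870912 0) ndF5q1 ndF0q1 pcF0 cut_pp_101 Ext.none)

def k0_pp_101 : ∃ t, chk3 f_pp_101 t 1 1 1 = true :=
  ⟨(b (l 6) (a (l 6) (b (l 6) (a (b (l 6) (b (l 6) (a (l 6) (l 17489296)))) (b (a (l 6) (l 17329256)) (b (l 17457664) (l 17570272))))))), by decide +kernel⟩

theorem c_pp_101 : CertF 536870912 536870912 536870912 536870912 134217728 67108864 false true true .npn 1 0 1
    ndF5q1 ndF0q1 pcF0 cut_pp_101 Ext.none :=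
  certF2 (fam := false) (s1 := true) (s2 := true) (a := 1) (b := 0) (c := 1) (cn := .npn) (n1 := ndF5q1) (n2 := ndF0q1) (pc := pcF0) (cut := cut_pp_101) (xt := Ext.none) (P1 := 536870912) (W1 := 536870912) (P2 := 536870912) (W2 := 536870912) (P3 := 134217728) (W3 := 67108864)
    rfl (fun _ => rfl) k0_pp_101

noncomputable def cut_pp_102 : Cut := Cut.of [[⟨3, 0, 0, 1449551462⟩], [⟨0, 1, 0, 67108864⟩, ⟨1, 0, 0, 67108864⟩, ⟨2, 1, 0, 67108864⟩]]

noncomputable def f_pp_102 : ℕ → ℕ → ℕ → ℕ → Bool := onCell 536870912 536870912 0 536870912 134217728 67108864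
    (rowF 0 false true true .npp 1 0 2 (qsf 536870912 536870912 0 536870912 0) ndF5q1 ndF0q2 pcF0 cut_pp_102 Ext.none)

def k0_pp_102 : ∃ t, chk3 f_pp_102 t 1 1 1 = true :=
  ⟨(a (b (b (a (l 2) (a (b (l 18142984) (l 17891720)) (l 18353088))) (a (l 17659048) (b (l 17837888) (l 17813344)))) (b (a (b (l 17654184) (l 17669568)) (b (l 17782104) (l 17748744))) (a (b (l 17676192) (l 17656920)) (b (l 17687408) (a (l 17616520) (l 17517000)))))) (b (a (b (b (l 18204104) (l 18056088)) (b (l 17946824) (l 17857856))) (b (l 18167856) (b (l 17754056) (a (l 17624648) (l 17214776))))) (a (b (b (l 17749112) (a (l 17690776) (l 17488808))) (b (a (l 17537584) (l 17223232)) (a (b (l 17372128) (l 6)) (b (l 16946768) (l 6))))) (b (a (b (l 17307056) (l 16895328)) (b (l 17031888) (a (l 16716000) (l 16856776)))) (b (a (a (l 16668136) (l 16682032)) (l 6)) (l 6)))))), by decide +kernel⟩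

theorem c_pp_102 : CertF 536870912 536870912 0 536870912 134217728 67108864 false true true .npp 1 0 2
    ndF5q1 ndF0q2 pcF0 cut_pp_102 Ext.none :=
  certF0 (fam := false) (s1 := true) (s2 := true) (a := 1) (b := 0) (c := 2) (cn := .npp) (n1 := ndF5q1) (n2 := ndF0q2) (pc := pcF0) (cut := cut_pp_102) (xt := Ext.none) (P1 := 536870912) (W1 := 536870912) (P2 := 0) (W2 := 536870912) (P3 := 134217728) (W3 := 67108864)
    rfl k0_pp_102

noncomputable def cut_pp_112 : Cut := Cut.of [[⟨3, 0, 0, 1449551462⟩]]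

noncomputable def f_pp_112 : ℕ → ℕ → ℕ → ℕ → Bool := onCell 536870912 536870912 0 536870912 134217728 67108864
    (rowF 2 false true true .dn 1 1 2 (qsf 536870912 536870912 0 536870912 1) ndF5q1 ndF0q2 pcF1 cut_pp_112 Ext.none)

def k0_pp_112 : ∃ t, chk3 f_pp_112 t 1 1 1 = true :=
  ⟨(a (b (a (l 18679376) (l 18720336)) (b (b (l 18413768) (l 18334216)) (a (l 18221712) (l 1)))) (l 1)), by decide +kernel⟩

theorem c_pp_112 : CertF 536870912 536870912 0 536870912 134217728 67108864 false true true .dn 1 1 2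
    ndF5q1 ndF0q2 pcF1 cut_pp_112 Ext.none :=
  certF2 (fam := false) (s1 := true) (s2 := true) (a := 1) (b := 1) (c := 2) (cn := .dn) (n1 := ndF5q1) (n2 := ndF0q2) (pc := pcF1) (cut := cut_pp_112) (xt := Ext.none) (P1 := 536870912) (W1 := 536870912) (P2 := 0) (W2 := 536870912) (P3 := 134217728) (W3 := 67108864)
    rfl (fun _ => rfl) k0_pp_112

noncomputable def cut_pp_202 : Cut := Cut.of [[⟨3, 0, 0, 1449551462⟩], [⟨0, 1, 0, 67108864⟩, ⟨1, 0, 0, 67108864⟩, ⟨2, 1, 0, 67108864⟩]]

noncomputable def f_pp_202 : ℕ → ℕ → ℕ → ℕ → Bool := onCell 1073741824 536870912 0 536870912 134217728 67108864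
    (rowF 0 false true true .pp 2 0 2 (qsf 1073741824 536870912 0 536870912 0) ndF5q2 ndF0q2 pcF0 cut_pp_202 Ext.none)

def k0_pp_202 : ∃ t, chk3 f_pp_202 t 1 1 1 = true :=
  ⟨(a (b (a (b (l 17927400) (a (b (l 17551688) (l 17304520)) (l 17485200))) (a (b (l 17831200) (l 1666482865543)) (l 1))) (b (a (a (b (a (l 17080664) (l 17163288)) (a (l 16906600) (l 16995304))) (b (a (l 17219432) (l 17289776)) (l 6))) (l 1)) (l 6))) (l 1)), by decide +kernel⟩

theorem c_pp_202 : CertF 1073741824 536870912 0 536870912 134217728 67108864 false true true .pp 2 0 2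
    ndF5q2 ndF0q2 pcF0 cut_pp_202 Ext.none :=
  certF0 (fam := false) (s1 := true) (s2 := true) (a := 2) (b := 0) (c := 2) (cn := .pp) (n1 := ndF5q2) (n2 := ndF0q2) (pc := pcF0) (cut := cut_pp_202) (xt := Ext.none) (P1 := 1073741824) (W1 := 536870912) (P2 := 0) (W2 := 536870912) (P3 := 134217728) (W3 := 67108864)
    rfl k0_pp_202

noncomputable def cut_pm_001 : Cut := Cut.of [[⟨3, 0, 0, 1449551462⟩]]

noncomputable def f_pm_001 : ℕ → ℕ → ℕ → ℕ → Bool := onCell 0 536870912 536870912 536870912 134217728 67108864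
    (rowF 0 false true false .up 0 0 1 (qsf 0 536870912 536870912 536870912 0) ndF5q0 ndF0q1 pcF0 cut_pm_001 Ext.none)

def k0_pm_001 : ∃ t, chk3 f_pm_001 t 1 1 1 = true :=
  ⟨(l 4), by decide +kernel⟩

theorem c_pm_001 : CertF 0 536870912 536870912 536870912 134217728 67108864 false true false .up 0 0 1
    ndF5q0 ndF0q1 pcF0 cut_pm_001 Ext.none :=
  certF0 (fam := false) (s1 := true) (s2 := false) (a := 0) (b := 0) (c := 1) (cn := .up) (n1 := ndF5q0) (n2 := ndF0q1) (pc := pcF0) (cut := cut_pm_001) (xt := Ext.none) (P1 := 0) (W1 := 536870912) (P2 := 536870912) (W2 := 536870912) (P3 := 134217728) (W3 := 67108864)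
    rfl k0_pm_001

noncomputable def cut_pm_011 : Cut := Cut.of [[⟨3, 0, 0, 1449551462⟩]]

noncomputable def f_pm_011 : ℕ → ℕ → ℕ → ℕ → Bool := onCell 0 536870912 536870912 536870912 134217728 67108864
    (rowF 0 false true false .pnn 0 1 1 (qsf 0 536870912 536870912 536870912 1) ndF5q0 ndF0q1 pcF1 cut_pm_011 Ext.none)

def k0_pm_011 : ∃ t, chk3 f_pm_011 t 1 1 1 = true :=
  ⟨(l 4), by decide +kernel⟩

theorem c_pm_011 : CertF 0 536870912 536870912 536870912 134217728 67108864 false true false .pnn 0 1 1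
    ndF5q0 ndF0q1 pcF1 cut_pm_011 Ext.none :=
  certF0 (fam := false) (s1 := true) (s2 := false) (a := 0) (b := 1) (c := 1) (cn := .pnn) (n1 := ndF5q0) (n2 := ndF0q1) (pc := pcF1) (cut := cut_pm_011) (xt := Ext.none) (P1 := 0) (W1 := 536870912) (P2 := 536870912) (W2 := 536870912) (P3 := 134217728) (W3 := 67108864)
    rfl k0_pm_011

noncomputable def cut_pm_012 : Cut := Cut.of [[⟨3, 0, 0, 1449551462⟩]]

noncomputable def f_pm_012 : ℕ → ℕ → ℕ → ℕ → Bool := onCell 0 536870912 0 536870912 134217728 67108864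
    (rowF 0 false true false .pnp 0 1 2 (qsf 0 536870912 0 536870912 1) ndF5q0 ndF0q2 pcF1 cut_pm_012 Ext.none)

def k0_pm_012 : ∃ t, chk3 f_pm_012 t 1 1 1 = true :=
  ⟨(a (l 4) (l 4)), by decide +kernel⟩

theorem c_pm_012 : CertF 0 536870912 0 536870912 134217728 67108864 false true false .pnp 0 1 2
    ndF5q0 ndF0q2 pcF1 cut_pm_012 Ext.none :=
  certF0 (fam := false) (s1 := true) (s2 := false) (a := 0) (b := 1) (c := 2) (cn := .pnp) (n1 := ndF5q0) (n2 := ndF0q2) (pc := pcF1) (cut := cut_pm_012) (xt := Ext.none) (P1 := 0) (W1 := 536870912) (P2 := 0) (W2 := 536870912) (P3 := 134217728) (W3 := 67108864)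
    rfl k0_pm_012

noncomputable def cut_pm_022 : Cut := Cut.of [[⟨3, 0, 0, 1449551462⟩]]

noncomputable def f_pm_022 : ℕ → ℕ → ℕ → ℕ → Bool := onCell 1073741824 536870912 0 536870912 134217728 67108864
    (rowF 2 false true false .pp 0 2 2 (qsf 0 536870912 0 536870912 2) ndF5q0 ndF0q2 pcF2 cut_pm_022 Ext.none)

def k0_pm_022 : ∃ t, chk3 f_pm_022 t 1 1 1 = true :=
  ⟨(l 4), by decide +kernel⟩

theorem c_pm_022 : CertF 0 536870912 0 536870912 134217728 67108864 false true false .pp 0 2 2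
    ndF5q0 ndF0q2 pcF2 cut_pm_022 Ext.none :=
  certF2 (fam := false) (s1 := true) (s2 := false) (a := 0) (b := 2) (c := 2) (cn := .pp) (n1 := ndF5q0) (n2 := ndF0q2) (pc := pcF2) (cut := cut_pm_022) (xt := Ext.none) (P1 := 0) (W1 := 536870912) (P2 := 0) (W2 := 536870912) (P3 := 134217728) (W3 := 67108864)
    rfl (fun _ => rfl) k0_pm_022

noncomputable def cut_pm_101 : Cut := Cut.of [[⟨3, 0, 0, 1449551462⟩]]

noncomputable def f_pm_101 : ℕ → ℕ → ℕ → ℕ → Bool := onCell 536870912 536870912 536870912 536870912 134217728 67108864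
    (rowF 0 false true false .npn 1 0 1 (qsf 536870912 536870912 536870912 536870912 0) ndF5q1 ndF0q1 pcF0 cut_pm_101 Ext.none)

def k0_pm_101 : ∃ t, chk3 f_pm_101 t 1 1 1 = true :=
  ⟨(l 4), by decide +kernel⟩

theorem c_pm_101 : CertF 536870912 536870912 536870912 536870912 134217728 67108864 false true false .npn 1 0 1
    ndF5q1 ndF0q1 pcF0 cut_pm_101 Ext.none :=
  certF0 (fam := false) (s1 := true) (s2 := false) (a := 1) (b := 0) (c := 1) (cn := .npn) (n1 := ndF5q1) (n2 := ndF0q1) (pc := pcF0) (cut := cut_pm_101) (xt := Ext.none) (P1 := 536870912) (W1 := 536870912) (P2 := 536870912) (W2 := 536870912) (P3 := 134217728) (W3 := 67108864)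
    rfl k0_pm_101

noncomputable def cut_pm_102 : Cut := Cut.of [[⟨3, 0, 0, 1449551462⟩]]

noncomputable def f_pm_102 : ℕ → ℕ → ℕ → ℕ → Bool := onCell 536870912 536870912 0 536870912 134217728 67108864
    (rowF 0 false true false .npp 1 0 2 (qsf 536870912 536870912 0 536870912 0) ndF5q1 ndF0q2 pcF0 cut_pm_102 Ext.none)

def k0_pm_102 : ∃ t, chk3 f_pm_102 t 1 1 1 = true :=
  ⟨(a (b (b (a (l 2) (l 18594264)) (l 4)) (l 4)) (b (a (b (l 18580832) (l 18721816)) (b (a (l 18638880) (l 18613232)) (l 18948560))) (l 4))), by decide +kernel⟩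

theorem c_pm_102 : CertF 536870912 536870912 0 536870912 134217728 67108864 false true false .npp 1 0 2
    ndF5q1 ndF0q2 pcF0 cut_pm_102 Ext.none :=
  certF0 (fam := false) (s1 := true) (s2 := false) (a := 1) (b := 0) (c := 2) (cn := .npp) (n1 := ndF5q1) (n2 := ndF0q2) (pc := pcF0) (cut := cut_pm_102) (xt := Ext.none) (P1 := 536870912) (W1 := 536870912) (P2 := 0) (W2 := 536870912) (P3 := 134217728) (W3 := 67108864)
    rfl k0_pm_102

noncomputable def cut_pm_112 : Cut := Cut.of [[⟨3, 0, 0, 1449551462⟩]]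

noncomputable def f_pm_112 : ℕ → ℕ → ℕ → ℕ → Bool := onCell 536870912 536870912 0 536870912 134217728 67108864
    (rowF 0 false true false .dn 1 1 2 (qsf 536870912 536870912 0 536870912 1) ndF5q1 ndF0q2 pcF1 cut_pm_112 Ext.none)

def k0_pm_112 : ∃ t, chk3 f_pm_112 t 1 1 1 = true :=
  ⟨(a (b (l 18865936) (l 4)) (l 1)), by decide +kernel⟩

theorem c_pm_112 : CertF 536870912 536870912 0 536870912 134217728 67108864 false true false .dn 1 1 2
    ndF5q1 ndF0q2 pcF1 cut_pm_112 Ext.none :=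
  certF0 (fam := false) (s1 := true) (s2 := false) (a := 1) (b := 1) (c := 2) (cn := .dn) (n1 := ndF5q1) (n2 := ndF0q2) (pc := pcF1) (cut := cut_pm_112) (xt := Ext.none) (P1 := 536870912) (W1 := 536870912) (P2 := 0) (W2 := 536870912) (P3 := 134217728) (W3 := 67108864)
    rfl k0_pm_112

noncomputable def cut_pm_202 : Cut := Cut.of [[⟨3, 0, 0, 1449551462⟩]]

noncomputable def f_pm_202 : ℕ → ℕ → ℕ → ℕ → Bool := onCell 0 536870912 0 536870912 134217728 67108864
    (rowF 2 false true false .pp 2 0 2 (qsf 1073741824 536870912 0 536870912 0) ndF5q2 ndF0q2 pcF0 cut_pm_202 Ext.none)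

def k0_pm_202 : ∃ t, chk3 f_pm_202 t 1 1 1 = true :=
  ⟨(a (b (a (b (l 18321152) (l 18852056)) (b (a (l 18630080) (l 1)) (l 19307968))) (a (b (l 19081304) (l 4)) (l 4))) (l 1)), by decide +kernel⟩

theorem c_pm_202 : CertF 1073741824 536870912 0 536870912 134217728 67108864 false true false .pp 2 0 2
    ndF5q2 ndF0q2 pcF0 cut_pm_202 Ext.none :=
  certF2 (fam := false) (s1 := true) (s2 := false) (a := 2) (b := 0) (c := 2) (cn := .pp) (n1 := ndF5q2) (n2 := ndF0q2) (pc := pcF0) (cut := cut_pm_202) (xt := Ext.none) (P1 := 1073741824) (W1 := 536870912) (P2 := 0) (W2 := 536870912) (P3 := 134217728) (W3 := 67108864)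
    rfl (fun _ => rfl) k0_pm_202

noncomputable def cut_mm_001 : Cut := Cut.of [[⟨3, 0, 0, 1449551462⟩]]

noncomputable def f_mm_001 : ℕ → ℕ → ℕ → ℕ → Bool := onCell 0 536870912 536870912 536870912 134217728 67108864
    (rowF 0 false false false .up 0 0 1 (qsf 0 536870912 536870912 536870912 0) ndF5q0 ndF0q1 pcF0 cut_mm_001 Ext.none)

def k0_mm_001 : ∃ t, chk3 f_mm_001 t 1 1 1 = true :=
  ⟨(l 5), by decide +kernel⟩

theorem c_mm_001 : CertF 0 536870912 536870912 536870912 134217728 67108864 false false false .up 0 0 1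
    ndF5q0 ndF0q1 pcF0 cut_mm_001 Ext.none :=
  certF0 (fam := false) (s1 := false) (s2 := false) (a := 0) (b := 0) (c := 1) (cn := .up) (n1 := ndF5q0) (n2 := ndF0q1) (pc := pcF0) (cut := cut_mm_001) (xt := Ext.none) (P1 := 0) (W1 := 536870912) (P2 := 536870912) (W2 := 536870912) (P3 := 134217728) (W3 := 67108864)
    rfl k0_mm_001

noncomputable def cut_mm_011 : Cut := Cut.of [[⟨3, 0, 0, 1449551462⟩]]

noncomputable def f_mm_011 : ℕ → ℕ → ℕ → ℕ → Bool := onCell 0 536870912 536870912 536870912 134217728 67108864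
    (rowF 0 false false false .pnn 0 1 1 (qsf 0 536870912 536870912 536870912 1) ndF5q0 ndF0q1 pcF1 cut_mm_011 Ext.none)

def k0_mm_011 : ∃ t, chk3 f_mm_011 t 1 1 1 = true :=
  ⟨(l 5), by decide +kernel⟩

theorem c_mm_011 : CertF 0 536870912 536870912 536870912 134217728 67108864 false false false .pnn 0 1 1
    ndF5q0 ndF0q1 pcF1 cut_mm_011 Ext.none :=
  certF0 (fam := false) (s1 := false) (s2 := false) (a := 0) (b := 1) (c := 1) (cn := .pnn) (n1 := ndF5q0) (n2 := ndF0q1) (pc := pcF1) (cut := cut_mm_011) (xt := Ext.none) (P1 := 0) (W1 := 536870912) (P2 := 536870912) (W2 := 536870912) (P3 := 134217728) (W3 := 67108864)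
    rfl k0_mm_011

noncomputable def cut_mm_012 : Cut := Cut.of [[⟨3, 0, 0, 1449551462⟩]]

noncomputable def f_mm_012 : ℕ → ℕ → ℕ → ℕ → Bool := onCell 0 536870912 0 536870912 134217728 67108864
    (rowF 0 false false false .pnp 0 1 2 (qsf 0 536870912 0 536870912 1) ndF5q0 ndF0q2 pcF1 cut_mm_012 Ext.none)

def k0_mm_012 : ∃ t, chk3 f_mm_012 t 1 1 1 = true :=
  ⟨(l 5), by decide +kernel⟩

theorem c_mm_012 : CertF 0 536870912 0 536870912 134217728 67108864 false false false .pnp 0 1 2
    ndF5q0 ndF0q2 pcF1 cut_mm_012 Ext.none :=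
  certF0 (fam := false) (s1 := false) (s2 := false) (a := 0) (b := 1) (c := 2) (cn := .pnp) (n1 := ndF5q0) (n2 := ndF0q2) (pc := pcF1) (cut := cut_mm_012) (xt := Ext.none) (P1 := 0) (W1 := 536870912) (P2 := 0) (W2 := 536870912) (P3 := 134217728) (W3 := 67108864)
    rfl k0_mm_012

noncomputable def cut_mm_022 : Cut := Cut.of [[⟨3, 0, 0, 1449551462⟩]]

noncomputable def f_mm_022 : ℕ → ℕ → ℕ → ℕ → Bool := onCell 0 536870912 0 536870912 134217728 67108864
    (rowF 0 false false false .pp 0 2 2 (qsf 0 536870912 0 536870912 2) ndF5q0 ndF0q2 pcF2 cut_mm_022 Ext.none)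

def k0_mm_022 : ∃ t, chk3 f_mm_022 t 1 1 1 = true :=
  ⟨(l 5), by decide +kernel⟩

theorem c_mm_022 : CertF 0 536870912 0 536870912 134217728 67108864 false false false .pp 0 2 2
    ndF5q0 ndF0q2 pcF2 cut_mm_022 Ext.none :=
  certF0 (fam := false) (s1 := false) (s2 := false) (a := 0) (b := 2) (c := 2) (cn := .pp) (n1 := ndF5q0) (n2 := ndF0q2) (pc := pcF2) (cut := cut_mm_022) (xt := Ext.none) (P1 := 0) (W1 := 536870912) (P2 := 0) (W2 := 536870912) (P3 := 134217728) (W3 := 67108864)
    rfl k0_mm_022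

noncomputable def cut_mm_101 : Cut := Cut.of [[⟨3, 0, 0, 1449551462⟩]]

noncomputable def f_mm_101 : ℕ → ℕ → ℕ → ℕ → Bool := onCell 0 536870912 536870912 536870912 134217728 67108864
    (rowF 2 false false false .npn 1 0 1 (qsf 536870912 536870912 536870912 536870912 0) ndF5q1 ndF0q1 pcF0 cut_mm_101 Ext.none)

def k0_mm_101 : ∃ t, chk3 f_mm_101 t 1 1 1 = true :=
  ⟨(l 5), by decide +kernel⟩

theorem c_mm_101 : CertF 536870912 536870912 536870912 536870912 134217728 67108864 false false false .npn 1 0 1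
    ndF5q1 ndF0q1 pcF0 cut_mm_101 Ext.none :=
  certF2 (fam := false) (s1 := false) (s2 := false) (a := 1) (b := 0) (c := 1) (cn := .npn) (n1 := ndF5q1) (n2 := ndF0q1) (pc := pcF0) (cut := cut_mm_101) (xt := Ext.none) (P1 := 536870912) (W1 := 536870912) (P2 := 536870912) (W2 := 536870912) (P3 := 134217728) (W3 := 67108864)
    rfl (fun _ => rfl) k0_mm_101

noncomputable def cut_mm_102 : Cut := Cut.of [[⟨3, 0, 0, 1449551462⟩]]

noncomputable def f_mm_102 : ℕ → ℕ → ℕ → ℕ → Bool := onCell 536870912 536870912 0 536870912 134217728 67108864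
    (rowF 0 false false false .npp 1 0 2 (qsf 536870912 536870912 0 536870912 0) ndF5q1 ndF0q2 pcF0 cut_mm_102 Ext.none)

def k0_mm_102 : ∃ t, chk3 f_mm_102 t 1 1 1 = true :=
  ⟨(l 5), by decide +kernel⟩

theorem c_mm_102 : CertF 536870912 536870912 0 536870912 134217728 67108864 false false false .npp 1 0 2
    ndF5q1 ndF0q2 pcF0 cut_mm_102 Ext.none :=
  certF0 (fam := false) (s1 := false) (s2 := false) (a := 1) (b := 0) (c := 2) (cn := .npp) (n1 := ndF5q1) (n2 := ndF0q2) (pc := pcF0) (cut := cut_mm_102) (xt := Ext.none) (P1 := 536870912) (W1 := 536870912) (P2 := 0) (W2 := 536870912) (P3 := 134217728) (W3 := 67108864)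
    rfl k0_mm_102

noncomputable def cut_mm_112 : Cut := Cut.of [[⟨3, 0, 0, 1449551462⟩]]

noncomputable def f_mm_112 : ℕ → ℕ → ℕ → ℕ → Bool := onCell 536870912 536870912 0 536870912 134217728 67108864
    (rowF 0 false false false .dn 1 1 2 (qsf 536870912 536870912 0 536870912 1) ndF5q1 ndF0q2 pcF1 cut_mm_112 Ext.none)

def k0_mm_112 : ∃ t, chk3 f_mm_112 t 1 1 1 = true :=
  ⟨(l 5), by decide +kernel⟩

theorem c_mm_112 : CertF 536870912 536870912 0 536870912 134217728 67108864 false false false .dn 1 1 2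
    ndF5q1 ndF0q2 pcF1 cut_mm_112 Ext.none :=
  certF0 (fam := false) (s1 := false) (s2 := false) (a := 1) (b := 1) (c := 2) (cn := .dn) (n1 := ndF5q1) (n2 := ndF0q2) (pc := pcF1) (cut := cut_mm_112) (xt := Ext.none) (P1 := 536870912) (W1 := 536870912) (P2 := 0) (W2 := 536870912) (P3 := 134217728) (W3 := 67108864)
    rfl k0_mm_112

noncomputable def cut_mm_202 : Cut := Cut.of [[⟨3, 0, 0, 1449551462⟩]]

noncomputable def f_mm_202 : ℕ → ℕ → ℕ → ℕ → Bool := onCell 1073741824 536870912 0 536870912 134217728 67108864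
    (rowF 0 false false false .pp 2 0 2 (qsf 1073741824 536870912 0 536870912 0) ndF5q2 ndF0q2 pcF0 cut_mm_202 Ext.none)

def k0_mm_202 : ∃ t, chk3 f_mm_202 t 1 1 1 = true :=
  ⟨(l 5), by decide +kernel⟩

theorem c_mm_202 : CertF 1073741824 536870912 0 536870912 134217728 67108864 false false false .pp 2 0 2
    ndF5q2 ndF0q2 pcF0 cut_mm_202 Ext.none :=
  certF0 (fam := false) (s1 := false) (s2 := false) (a := 2) (b := 0) (c := 2) (cn := .pp) (n1 := ndF5q2) (n2 := ndF0q2) (pc := pcF0) (cut := cut_mm_202) (xt := Ext.none) (P1 := 1073741824) (W1 := 536870912) (P2 := 0) (W2 := 536870912) (P3 := 134217728) (W3 := 67108864)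
    rfl k0_mm_202

end Pool.Agent.Strip051.G.I1_8_3_16.Tab.C.FB50

namespace Pool.Agent.Strip051.G.I1_8_3_16.Tab.C.FB51

open Pool.Agent.Strip051.PB Pool.Agent.Strip051.PB.T
open Pool.Agent.Strip051.G.I1_8_3_16.Tab

noncomputable def f_pp_001 : ℕ → ℕ → ℕ → ℕ → Bool := onCell 0 536870912 0 536870912 134217728 67108864
    (rowF 1 false true true .up 0 0 1 (qsf 0 536870912 536870912 536870912 0) ndF5q0 ndF1q1 pcF0 Cut.none Ext.none)

def k0_pp_001 : ∃ t, chk3 f_pp_001 t 1 1 1 = true :=
  ⟨(l 3), by decide +kernel⟩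

theorem c_pp_001 : CertF 0 536870912 536870912 536870912 134217728 67108864 false true true .up 0 0 1
    ndF5q0 ndF1q1 pcF0 Cut.none Ext.none :=
  certF1 (fam := false) (s1 := true) (s2 := true) (a := 0) (b := 0) (c := 1) (cn := .up) (n1 := ndF5q0) (n2 := ndF1q1) (pc := pcF0) (cut := Cut.none) (xt := Ext.none) (P1 := 0) (W1 := 536870912) (P2 := 536870912) (W2 := 536870912) (P3 := 134217728) (W3 := 67108864)
    rfl (fun _ => rfl) k0_pp_001

noncomputable def f_pp_011 : ℕ → ℕ → ℕ → ℕ → Bool := onCell 536870912 536870912 536870912 536870912 134217728 67108864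
    (rowF 2 false true true .pnn 0 1 1 (qsf 0 536870912 536870912 536870912 1) ndF5q0 ndF1q1 pcF1 Cut.none Ext.none)

def k0_pp_011 : ∃ t, chk3 f_pp_011 t 1 1 1 = true :=
  ⟨(a (l 3) (a (b (l 3) (b (l 268069221447) (l 161769182311))) (b (l 1) (b (l 172909530903) (l 18362832))))), by decide +kernel⟩

theorem c_pp_011 : CertF 0 536870912 536870912 536870912 134217728 67108864 false true true .pnn 0 1 1
    ndF5q0 ndF1q1 pcF1 Cut.none Ext.none :=
  certF2 (fam := false) (s1 := true) (s2 := true) (a := 0) (b := 1) (c := 1) (cn := .pnn) (n1 := ndF5q0) (n2 := ndF1q1) (pc := pcF1) (cut := Cut.none) (xt := Ext.none) (P1 := 0) (W1 := 536870912) (P2 := 536870912) (W2 := 536870912) (P3 := 134217728) (W3 := 67108864)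
    rfl (fun _ => rfl) k0_pp_011

noncomputable def f_pp_012_a : ℕ → ℕ → ℕ → ℕ → Bool := onCell 536870912 536870912 0 536870912 134217728 67108864
    (rowF 2 false true true .pnp 0 1 2 (qsf 0 536870912 0 536870912 1) ndF5q0 ndF1q2a pcF1 Cut.none Ext.none)

def k0_pp_012_a : ∃ t, chk3 f_pp_012_a t 1 1 1 = true :=
  ⟨(a (b (a (l 18526752) (l 18483384)) (a (b (l 18344072) (b (l 18267504) (l 18212296))) (b (l 18362616) (l 18310264)))) (b (a (l 18594496) (a (l 18789544) (l 18999128))) (a (b (l 18474432) (l 18452224)) (l 18767896)))), by decide +kernel⟩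

theorem c_pp_012_a : CertF 0 536870912 0 536870912 134217728 67108864 false true true .pnp 0 1 2
    ndF5q0 ndF1q2a pcF1 Cut.none Ext.none :=
  certF2 (fam := false) (s1 := true) (s2 := true) (a := 0) (b := 1) (c := 2) (cn := .pnp) (n1 := ndF5q0) (n2 := ndF1q2a) (pc := pcF1) (cut := Cut.none) (xt := Ext.none) (P1 := 0) (W1 := 536870912) (P2 := 0) (W2 := 536870912) (P3 := 134217728) (W3 := 67108864)
    rfl (fun _ => rfl) k0_pp_012_a

noncomputable def f_pp_012_b : ℕ → ℕ → ℕ → ℕ → Bool := onCell 0 536870912 536870912 536870912 134217728 67108864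
    (rowF 1 false true true .pnp 0 1 2 (qsf 0 536870912 1239849684 370763052 1) ndF5q0 ndF1q2b pcF1 Cut.none Ext.none)

def k0_pp_012_b : ∃ t, chk3 f_pp_012_b t 1 1 1 = true :=
  ⟨(a (b (l 1) (b (l 1) (b (l 461747423207) (l 440810034823)))) (b (a (l 1) (l 474631176855)) (b (a (l 18732600) (l 18623184)) (b (l 18753080) (l 18725624))))), by decide +kernel⟩

theorem c_pp_012_b : CertF 0 536870912 1239849684 370763052 134217728 67108864 false true true .pnp 0 1 2
    ndF5q0 ndF1q2b pcF1 Cut.none Ext.none :=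
  certF1 (fam := false) (s1 := true) (s2 := true) (a := 0) (b := 1) (c := 2) (cn := .pnp) (n1 := ndF5q0) (n2 := ndF1q2b) (pc := pcF1) (cut := Cut.none) (xt := Ext.none) (P1 := 0) (W1 := 536870912) (P2 := 1239849684) (W2 := 370763052) (P3 := 134217728) (W3 := 67108864)
    rfl (fun _ => rfl) k0_pp_012_b

noncomputable def f_pp_022_a : ℕ → ℕ → ℕ → ℕ → Bool := onCell 0 536870912 0 536870912 134217728 67108864
    (rowF 0 false true true .pp 0 2 2 (qsf 0 536870912 0 536870912 2) ndF5q0 ndF1q2a pcF2 Cut.none Ext.none)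

def k0_pp_022_a : ∃ t, chk3 f_pp_022_a t 1 1 1 = true :=
  ⟨(a (b (a (l 19046224) (l 19539824)) (a (b (l 19184656) (l 19331968)) (l 492887054183))) (l 1)), by decide +kernel⟩

theorem c_pp_022_a : CertF 0 536870912 0 536870912 134217728 67108864 false true true .pp 0 2 2
    ndF5q0 ndF1q2a pcF2 Cut.none Ext.none :=
  certF0 (fam := false) (s1 := true) (s2 := true) (a := 0) (b := 2) (c := 2) (cn := .pp) (n1 := ndF5q0) (n2 := ndF1q2a) (pc := pcF2) (cut := Cut.none) (xt := Ext.none) (P1 := 0) (W1 := 536870912) (P2 := 0) (W2 := 536870912) (P3 := 134217728) (W3 := 67108864)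
    rfl k0_pp_022_a

noncomputable def f_pp_022_b : ℕ → ℕ → ℕ → ℕ → Bool := onCell 0 536870912 1073741824 536870912 134217728 67108864
    (rowF 1 false true true .pp 0 2 2 (qsf 0 536870912 1239849684 370763052 2) ndF5q0 ndF1q2b pcF2 Cut.none Ext.none)

def k0_pp_022_b : ∃ t, chk3 f_pp_022_b t 1 1 1 = true :=
  ⟨(b (b (a (l 434367509383) (l 18550728)) (l 4)) (l 4)), by decide +kernel⟩

theorem c_pp_022_b : CertF 0 536870912 1239849684 370763052 134217728 67108864 false true true .pp 0 2 2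
    ndF5q0 ndF1q2b pcF2 Cut.none Ext.none :=
  certF1 (fam := false) (s1 := true) (s2 := true) (a := 0) (b := 2) (c := 2) (cn := .pp) (n1 := ndF5q0) (n2 := ndF1q2b) (pc := pcF2) (cut := Cut.none) (xt := Ext.none) (P1 := 0) (W1 := 536870912) (P2 := 1239849684) (W2 := 370763052) (P3 := 134217728) (W3 := 67108864)
    rfl (fun _ => rfl) k0_pp_022_b

noncomputable def f_pp_023 : ℕ → ℕ → ℕ → ℕ → Bool := onCell 0 536870912 1073741824 536870912 134217728 67108864
    (rowF 1 false true true .up 0 2 3 (qsf 0 536870912 1610612736 536870912 2) ndF5q0 ndF1q3 pcF2 Cut.none Ext.none)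

def k0_pp_023 : ∃ t, chk3 f_pp_023 t 1 1 1 = true :=
  ⟨(b (b (a (l 1) (l 18550464)) (l 4)) (l 4)), by decide +kernel⟩

theorem c_pp_023 : CertF 0 536870912 1610612736 536870912 134217728 67108864 false true true .up 0 2 3
    ndF5q0 ndF1q3 pcF2 Cut.none Ext.none :=
  certF1 (fam := false) (s1 := true) (s2 := true) (a := 0) (b := 2) (c := 3) (cn := .up) (n1 := ndF5q0) (n2 := ndF1q3) (pc := pcF2) (cut := Cut.none) (xt := Ext.none) (P1 := 0) (W1 := 536870912) (P2 := 1610612736) (W2 := 536870912) (P3 := 134217728) (W3 := 67108864)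
    rfl (fun _ => rfl) k0_pp_023

noncomputable def f_pp_033 : ℕ → ℕ → ℕ → ℕ → Bool := onCell 1610612736 536870912 1610612736 536870912 134217728 67108864
    (rowF 2 false true true .pnn 0 3 3 (qsf 0 536870912 1610612736 536870912 3) ndF5q0 ndF1q3 pcF3 Cut.none Ext.none)

def k0_pp_033 : ∃ t, chk3 f_pp_033 t 1 1 1 = true :=
  ⟨(l 4), by decide +kernel⟩

theorem c_pp_033 : CertF 0 536870912 1610612736 536870912 134217728 67108864 false true true .pnn 0 3 3
    ndF5q0 ndF1q3 pcF3 Cut.none Ext.none :=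
  certF2 (fam := false) (s1 := true) (s2 := true) (a := 0) (b := 3) (c := 3) (cn := .pnn) (n1 := ndF5q0) (n2 := ndF1q3) (pc := pcF3) (cut := Cut.none) (xt := Ext.none) (P1 := 0) (W1 := 536870912) (P2 := 1610612736) (W2 := 536870912) (P3 := 134217728) (W3 := 67108864)
    rfl (fun _ => rfl) k0_pp_033

noncomputable def f_pp_101 : ℕ → ℕ → ℕ → ℕ → Bool := onCell 536870912 536870912 536870912 536870912 134217728 67108864
    (rowF 0 false true true .npn 1 0 1 (qsf 536870912 536870912 536870912 536870912 0) ndF5q1 ndF1q1 pcF0 Cut.none Ext.none)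

def k0_pp_101 : ∃ t, chk3 f_pp_101 t 1 1 1 = true :=
  ⟨(l 3), by decide +kernel⟩

theorem c_pp_101 : CertF 536870912 536870912 536870912 536870912 134217728 67108864 false true true .npn 1 0 1
    ndF5q1 ndF1q1 pcF0 Cut.none Ext.none :=
  certF0 (fam := false) (s1 := true) (s2 := true) (a := 1) (b := 0) (c := 1) (cn := .npn) (n1 := ndF5q1) (n2 := ndF1q1) (pc := pcF0) (cut := Cut.none) (xt := Ext.none) (P1 := 536870912) (W1 := 536870912) (P2 := 536870912) (W2 := 536870912) (P3 := 134217728) (W3 := 67108864)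
    rfl k0_pp_101

noncomputable def cut_pp_102_a : Cut := Cut.of [[⟨0, 1, 0, 67108864⟩, ⟨1, 0, 0, 67108864⟩, ⟨2, 1, 0, 67108864⟩]]

noncomputable def f_pp_102_a : ℕ → ℕ → ℕ → ℕ → Bool := onCell 536870912 536870912 0 536870912 134217728 67108864
    (rowF 0 false true true .npp 1 0 2 (qsf 536870912 536870912 0 536870912 0) ndF5q1 ndF1q2a pcF0 cut_pp_102_a Ext.none)

def k0_pp_102_a : ∃ t, chk3 f_pp_102_a t 1 1 1 = true :=
  ⟨(a (b (a (l 17766832) (b (l 17924608) (l 17933944))) (a (b (l 17785168) (b (l 17743272) (l 17679888))) (b (l 17868488) (b (l 17741040) (a (l 17635496) (l 17530824)))))) (b (b (a (l 18015992) (a (l 17833400) (l 17283680))) (a (l 17956192) (a (l 17620992) (a (l 17035352) (l 16663008))))) (a (b (a (l 17814576) (l 17628648)) (b (a (l 17567608) (l 17227408)) (a (b (l 17382128) (l 17236232)) (a (l 16990488) (l 16651344))))) (b (a (b (l 17286208) (l 16899064)) (a (b (l 16490968) (l 16548704)) (b (l 16512224) (l 16655856)))) (b (a (a (l 16648336) (l 16566736))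 (a (b (l 16597448) (l 16653616)) (a (b (l 16616416) (l 16652656)) (b (l 16628592) (l 16686496))))) (a (b (a (l 16604304) (l 16635648)) (a (l 16654920) (b (l 16658912) (l 16705096)))) (b (a (a (l 16659360) (l 16695896)) (a (b (l 16681280) (l 6)) (l 6))) (a (b (l 16708776) (a (l 16705904) (l 6))) (l 6))))))))), by decide +kernel⟩

theorem c_pp_102_a : CertF 536870912 536870912 0 536870912 134217728 67108864 false true true .npp 1 0 2
    ndF5q1 ndF1q2a pcF0 cut_pp_102_a Ext.none :=
  certF0 (fam := false) (s1 := true) (s2 := true) (a := 1) (b := 0) (c := 2) (cn := .npp) (n1 := ndF5q1) (n2 := ndF1q2a) (pc := pcF0) (cut := cut_pp_102_a) (xt := Ext.none) (P1 := 536870912) (W1 := 536870912) (P2 := 0) (W2 := 536870912) (P3 := 134217728) (W3 := 67108864)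
    rfl k0_pp_102_a

noncomputable def cut_pp_102_b : Cut := Cut.of [[⟨0, 1, 0, 67108864⟩, ⟨1, 0, 0, 67108864⟩, ⟨2, 1, 0, 67108864⟩]]

noncomputable def f_pp_102_b : ℕ → ℕ → ℕ → ℕ → Bool := onCell 536870912 536870912 1239849684 370763052 134217728 67108864
    (rowF 0 false true true .npp 1 0 2 (qsf 536870912 536870912 1239849684 370763052 0) ndF5q1 ndF1q2b pcF0 cut_pp_102_b Ext.none)

def k0_pp_102_b : ∃ t, chk3 f_pp_102_b t 1 1 1 = true :=
  ⟨(a (b (a (l 2) (l 18130120)) (l 2)) (b (a (b (l 18226456) (l 18510816)) (b (a (l 18241592) (b (l 17770104) (l 18268152))) (a (l 18709424) (l 18766032)))) (a (l 18694928) (l 19313072)))), by decide +kernel⟩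

theorem c_pp_102_b : CertF 536870912 536870912 1239849684 370763052 134217728 67108864 false true true .npp 1 0 2
    ndF5q1 ndF1q2b pcF0 cut_pp_102_b Ext.none :=
  certF0 (fam := false) (s1 := true) (s2 := true) (a := 1) (b := 0) (c := 2) (cn := .npp) (n1 := ndF5q1) (n2 := ndF1q2b) (pc := pcF0) (cut := cut_pp_102_b) (xt := Ext.none) (P1 := 536870912) (W1 := 536870912) (P2 := 1239849684) (W2 := 370763052) (P3 := 134217728) (W3 := 67108864)
    rfl k0_pp_102_b

noncomputable def f_pp_112_a : ℕ → ℕ → ℕ → ℕ → Bool := onCell 536870912 536870912 0 536870912 134217728 67108864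
    (rowF 2 false true true .dn 1 1 2 (qsf 536870912 536870912 0 536870912 1) ndF5q1 ndF1q2a pcF1 Cut.none Ext.none)

def k0_pp_112_a : ∃ t, chk3 f_pp_112_a t 1 1 1 = true :=
  ⟨(a (b (a (l 18459592) (l 18468248)) (a (l 18438144) (l 18317864))) (l 1)), by decide +kernel⟩

theorem c_pp_112_a : CertF 536870912 536870912 0 536870912 134217728 67108864 false true true .dn 1 1 2
    ndF5q1 ndF1q2a pcF1 Cut.none Ext.none :=
  certF2 (fam := false) (s1 := true) (s2 := true) (a := 1) (b := 1) (c := 2) (cn := .dn) (n1 := ndF5q1) (n2 := ndF1q2a) (pc := pcF1) (cut := Cut.none) (xt := Ext.none) (P1 := 536870912) (W1 := 536870912) (P2 := 0) (W2 := 536870912) (P3 := 134217728) (W3 := 67108864)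
    rfl (fun _ => rfl) k0_pp_112_a

noncomputable def f_pp_112_b : ℕ → ℕ → ℕ → ℕ → Bool := onCell 536870912 536870912 1239849684 370763052 134217728 67108864
    (rowF 2 false true true .dn 1 1 2 (qsf 536870912 536870912 1239849684 370763052 1) ndF5q1 ndF1q2b pcF1 Cut.none Ext.none)

def k0_pp_112_b : ∃ t, chk3 f_pp_112_b t 1 1 1 = true :=
  ⟨(a (b (l 18743840) (l 18767472)) (a (b (l 18623144) (l 18368416)) (a (l 18814816) (l 18756920)))), by decide +kernel⟩

theorem c_pp_112_b : CertF 536870912 536870912 1239849684 370763052 134217728 67108864 false true true .dn 1 1 2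
    ndF5q1 ndF1q2b pcF1 Cut.none Ext.none :=
  certF2 (fam := false) (s1 := true) (s2 := true) (a := 1) (b := 1) (c := 2) (cn := .dn) (n1 := ndF5q1) (n2 := ndF1q2b) (pc := pcF1) (cut := Cut.none) (xt := Ext.none) (P1 := 536870912) (W1 := 536870912) (P2 := 1239849684) (W2 := 370763052) (P3 := 134217728) (W3 := 67108864)
    rfl (fun _ => rfl) k0_pp_112_b

noncomputable def f_pp_113 : ℕ → ℕ → ℕ → ℕ → Bool := onCell 536870912 536870912 536870912 536870912 134217728 67108864
    (rowF 1 false true true .nn 1 1 3 (qsf 536870912 536870912 1610612736 536870912 1) ndF5q1 ndF1q3 pcF1 Cut.none Ext.none)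

def k0_pp_113 : ∃ t, chk3 f_pp_113 t 1 1 1 = true :=
  ⟨(a (b (l 515433528023) (b (l 18236512) (b (l 18085312) (l 18050776)))) (b (l 18548960) (b (l 17928688) (b (l 17565392) (l 17292912))))), by decide +kernel⟩

theorem c_pp_113 : CertF 536870912 536870912 1610612736 536870912 134217728 67108864 false true true .nn 1 1 3
    ndF5q1 ndF1q3 pcF1 Cut.none Ext.none :=
  certF1 (fam := false) (s1 := true) (s2 := true) (a := 1) (b := 1) (c := 3) (cn := .nn) (n1 := ndF5q1) (n2 := ndF1q3) (pc := pcF1) (cut := Cut.none) (xt := Ext.none) (P1 := 536870912) (W1 := 536870912) (P2 := 1610612736) (W2 := 536870912) (P3 := 134217728) (W3 := 67108864)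
    rfl (fun _ => rfl) k0_pp_113

noncomputable def f_pp_123 : ℕ → ℕ → ℕ → ℕ → Bool := onCell 1073741824 536870912 1610612736 536870912 134217728 67108864
    (rowF 2 false true true .npn 1 2 3 (qsf 536870912 536870912 1610612736 536870912 2) ndF5q1 ndF1q3 pcF2 Cut.none Ext.none)

def k0_pp_123 : ∃ t, chk3 f_pp_123 t 1 1 1 = true :=
  ⟨(a (a (b (l 18028416) (l 17165224)) (l 4)) (l 4)), by decide +kernel⟩

theorem c_pp_123 : CertF 536870912 536870912 1610612736 536870912 134217728 67108864 false true true .npn 1 2 3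
    ndF5q1 ndF1q3 pcF2 Cut.none Ext.none :=
  certF2 (fam := false) (s1 := true) (s2 := true) (a := 1) (b := 2) (c := 3) (cn := .npn) (n1 := ndF5q1) (n2 := ndF1q3) (pc := pcF2) (cut := Cut.none) (xt := Ext.none) (P1 := 536870912) (W1 := 536870912) (P2 := 1610612736) (W2 := 536870912) (P3 := 134217728) (W3 := 67108864)
    rfl (fun _ => rfl) k0_pp_123

noncomputable def f_pp_133 : ℕ → ℕ → ℕ → ℕ → Bool := onCell 1610612736 536870912 1610612736 536870912 134217728 67108864
    (rowF 2 false true true .dn 1 3 3 (qsf 536870912 536870912 1610612736 536870912 3) ndF5q1 ndF1q3 pcF3 Cut.none Ext.none)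

def k0_pp_133 : ∃ t, chk3 f_pp_133 t 1 1 1 = true :=
  ⟨(l 4), by decide +kernel⟩

theorem c_pp_133 : CertF 536870912 536870912 1610612736 536870912 134217728 67108864 false true true .dn 1 3 3
    ndF5q1 ndF1q3 pcF3 Cut.none Ext.none :=
  certF2 (fam := false) (s1 := true) (s2 := true) (a := 1) (b := 3) (c := 3) (cn := .dn) (n1 := ndF5q1) (n2 := ndF1q3) (pc := pcF3) (cut := Cut.none) (xt := Ext.none) (P1 := 536870912) (W1 := 536870912) (P2 := 1610612736) (W2 := 536870912) (P3 := 134217728) (W3 := 67108864)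
    rfl (fun _ => rfl) k0_pp_133

noncomputable def cut_pp_202_a : Cut := Cut.of [[⟨0, 1, 0, 67108864⟩, ⟨1, 0, 0, 67108864⟩, ⟨2, 1, 0, 67108864⟩]]

noncomputable def f_pp_202_a : ℕ → ℕ → ℕ → ℕ → Bool := onCell 0 536870912 0 536870912 134217728 67108864
    (rowF 2 false true true .pp 2 0 2 (qsf 1073741824 536870912 0 536870912 0) ndF5q2 ndF1q2a pcF0 cut_pp_202_a Ext.none)

def k0_pp_202_a : ∃ t, chk3 f_pp_202_a t 1 1 1 = true :=
  ⟨(a (b (a (a (b (b (l 17141160) (l 16992792)) (a (b (l 16906184) (l 16804512)) (l 16846144))) (b (l 16924392) (b (l 16699584) (a (l 16620200) (l 16545344))))) (a (b (l 16804920) (b (l 16570608) (l 16576056))) (l 1))) (a (a (b (a (b (l 16813408) (b (l 16754672) (c (l 16748344) (l 16733216)))) (b (l 16689448) (a (l 16692688) (l 16670896)))) (a (b (b (a (c (l 16727656) (l 16715008)) (l 16709872)) (l 6)) (l 6)) (a (b (b (l 16647968) (l 6)) (l 6)) (b (b (l 16631088) (l 16675352)) (l 1))))) (a (b (b (l 16641960) (b (l 16564472) (l 16600288))) (b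 (b (l 16641176) (l 1)) (l 1))) (b (b (l 16533712) (l 16594320)) (l 1)))) (b (l 1) (l 1)))) (l 1)), by decide +kernel⟩

theorem c_pp_202_a : CertF 1073741824 536870912 0 536870912 134217728 67108864 false true true .pp 2 0 2
    ndF5q2 ndF1q2a pcF0 cut_pp_202_a Ext.none :=
  certF2 (fam := false) (s1 := true) (s2 := true) (a := 2) (b := 0) (c := 2) (cn := .pp) (n1 := ndF5q2) (n2 := ndF1q2a) (pc := pcF0) (cut := cut_pp_202_a) (xt := Ext.none) (P1 := 1073741824) (W1 := 536870912) (P2 := 0) (W2 := 536870912) (P3 := 134217728) (W3 := 67108864)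
    rfl (fun _ => rfl) k0_pp_202_a

noncomputable def cut_pp_202_b : Cut := Cut.of [[⟨0, 1, 0, 67108864⟩, ⟨1, 0, 0, 67108864⟩, ⟨2, 1, 0, 67108864⟩]]

noncomputable def f_pp_202_b : ℕ → ℕ → ℕ → ℕ → Bool := onCell 0 536870912 1239849684 370763052 134217728 67108864
    (rowF 2 false true true .pp 2 0 2 (qsf 1073741824 536870912 1239849684 370763052 0) ndF5q2 ndF1q2b pcF0 cut_pp_202_b Ext.none)

def k0_pp_202_b : ∃ t, chk3 f_pp_202_b t 1 1 1 = true :=
  ⟨(a (b (a (a (b (b (l 17118168) (l 17290448)) (l 17930848)) (b (l 17332360) (l 18161816))) (b (a (l 17608240) (l 17906576)) (a (l 18361752) (l 18549368)))) (a (b (a (l 18389704) (l 18549608)) (a (l 18478688) (l 18588784))) (b (l 18773768) (l 18759856)))) (b (a (b (l 1) (l 18785528)) (l 1)) (a (b (l 19054688) (l 19038448)) (l 300150027703)))), by decide +kernel⟩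

theorem c_pp_202_b : CertF 1073741824 536870912 1239849684 370763052 134217728 67108864 false true true .pp 2 0 2
    ndF5q2 ndF1q2b pcF0 cut_pp_202_b Ext.none :=
  certF2 (fam := false) (s1 := true) (s2 := true) (a := 2) (b := 0) (c := 2) (cn := .pp) (n1 := ndF5q2) (n2 := ndF1q2b) (pc := pcF0) (cut := cut_pp_202_b) (xt := Ext.none) (P1 := 1073741824) (W1 := 536870912) (P2 := 1239849684) (W2 := 370763052) (P3 := 134217728) (W3 := 67108864)
    rfl (fun _ => rfl) k0_pp_202_b

noncomputable def f_pp_203 : ℕ → ℕ → ℕ → ℕ → Bool := onCell 1073741824 536870912 0 536870912 134217728 67108864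
    (rowF 1 false true true .up 2 0 3 (qsf 1073741824 536870912 1610612736 536870912 0) ndF5q2 ndF1q3 pcF0 Cut.none Ext.none)

def k0_pp_203 : ∃ t, chk3 f_pp_203 t 1 1 1 = true :=
  ⟨(b (a (b (l 1) (a (l 1) (l 386048091431))) (b (a (b (l 1) (a (l 1) (l 18641536))) (b (a (l 18541480) (l 18499432)) (l 18540336))) (a (l 18736152) (l 18475312)))) (a (a (b (l 430072103879) (l 19205208)) (l 18969264)) (b (a (l 18689432) (l 18324168)) (a (l 18580976) (l 18182808))))), by decide +kernel⟩

theorem c_pp_203 : CertF 1073741824 536870912 1610612736 536870912 134217728 67108864 false true true .up 2 0 3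
    ndF5q2 ndF1q3 pcF0 Cut.none Ext.none :=
  certF1 (fam := false) (s1 := true) (s2 := true) (a := 2) (b := 0) (c := 3) (cn := .up) (n1 := ndF5q2) (n2 := ndF1q3) (pc := pcF0) (cut := Cut.none) (xt := Ext.none) (P1 := 1073741824) (W1 := 536870912) (P2 := 1610612736) (W2 := 536870912) (P3 := 134217728) (W3 := 67108864)
    rfl (fun _ => rfl) k0_pp_203

noncomputable def f_pp_213 : ℕ → ℕ → ℕ → ℕ → Bool := onCell 536870912 536870912 1610612736 536870912 134217728 67108864
    (rowF 2 false true true .pnn 2 1 3 (qsf 1073741824 536870912 1610612736 536870912 1) ndF5q2 ndF1q3 pcF1 Cut.none Ext.none)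

def k0_pp_213 : ∃ t, chk3 f_pp_213 t 1 1 1 = true :=
  ⟨(a (b (a (l 18555824) (l 381752734183)) (a (b (l 17743424) (l 17350904)) (l 17860736))) (b (a (l 396248353975) (l 1)) (a (a (l 17599328) (l 17560424)) (a (l 17471880) (l 17402720))))), by decide +kernel⟩

theorem c_pp_213 : CertF 1073741824 536870912 1610612736 536870912 134217728 67108864 false true true .pnn 2 1 3
    ndF5q2 ndF1q3 pcF1 Cut.none Ext.none :=
  certF2 (fam := false) (s1 := true) (s2 := true) (a := 2) (b := 1) (c := 3) (cn := .pnn) (n1 := ndF5q2) (n2 := ndF1q3) (pc := pcF1) (cut := Cut.none) (xt := Ext.none) (P1 := 1073741824) (W1 := 536870912) (P2 := 1610612736) (W2 := 536870912) (P3 := 134217728) (W3 := 67108864)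
    rfl (fun _ => rfl) k0_pp_213

noncomputable def f_pp_303 : ℕ → ℕ → ℕ → ℕ → Bool := onCell 0 1230186008 1610612736 536870912 134217728 67108864
    (rowF 0 false true true .npn 3 0 3 (qsf 0 1230186008 1610612736 536870912 0) ndF5q3 ndF1q3 pcF0 Cut.none Ext.none)

def k0_pp_303 : ∃ t, chk3 f_pp_303 t 1 1 1 = true :=
  ⟨(a (l 3) (a (l 3) (b (a (l 3) (b (l 3) (l 546168876727))) (a (b (l 3) (l 405507571383)) (b (a (l 17964720) (l 18068576)) (a (l 17767624) (l 18000760))))))), by decide +kernel⟩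

theorem c_pp_303 : CertF 0 1230186008 1610612736 536870912 134217728 67108864 false true true .npn 3 0 3
    ndF5q3 ndF1q3 pcF0 Cut.none Ext.none :=
  certF0 (fam := false) (s1 := true) (s2 := true) (a := 3) (b := 0) (c := 3) (cn := .npn) (n1 := ndF5q3) (n2 := ndF1q3) (pc := pcF0) (cut := Cut.none) (xt := Ext.none) (P1 := 0) (W1 := 1230186008) (P2 := 1610612736) (W2 := 536870912) (P3 := 134217728) (W3 := 67108864)
    rfl k0_pp_303

noncomputable def f_pp_313 : ℕ → ℕ → ℕ → ℕ → Bool := onCell 0 1230186008 1610612736 536870912 134217728 67108864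
    (rowF 0 false true true .dn 3 1 3 (qsf 0 1230186008 1610612736 536870912 1) ndF5q3 ndF1q3 pcF1 Cut.none Ext.none)

def k0_pp_313 : ∃ t, chk3 f_pp_313 t 1 1 1 = true :=
  ⟨(a (l 1) (a (l 1) (b (l 1) (a (l 1) (b (l 1) (a (l 1) (b (l 1) (l 17198608)))))))), by decide +kernel⟩

theorem c_pp_313 : CertF 0 1230186008 1610612736 536870912 134217728 67108864 false true true .dn 3 1 3
    ndF5q3 ndF1q3 pcF1 Cut.none Ext.none :=
  certF0 (fam := false) (s1 := true) (s2 := true) (a := 3) (b := 1) (c := 3) (cn := .dn) (n1 := ndF5q3) (n2 := ndF1q3) (pc := pcF1) (cut := Cut.none) (xt := Ext.none) (P1 := 0) (W1 := 1230186008) (P2 := 1610612736) (W2 := 536870912) (P3 := 134217728) (W3 := 67108864)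
    rfl k0_pp_313

noncomputable def f_pm_001 : ℕ → ℕ → ℕ → ℕ → Bool := onCell 0 536870912 536870912 536870912 134217728 67108864
    (rowF 0 false true false .up 0 0 1 (qsf 0 536870912 536870912 536870912 0) ndF5q0 ndF1q1 pcF0 Cut.none Ext.none)

def k0_pm_001 : ∃ t, chk3 f_pm_001 t 1 1 1 = true :=
  ⟨(l 4), by decide +kernel⟩

theorem c_pm_001 : CertF 0 536870912 536870912 536870912 134217728 67108864 false true false .up 0 0 1
    ndF5q0 ndF1q1 pcF0 Cut.none Ext.none :=
  certF0 (fam := false) (s1 := true) (s2 := false) (a := 0) (b := 0) (c := 1) (cn := .up) (n1 := ndF5q0) (n2 := ndF1q1) (pc := pcF0) (cut := Cut.none) (xt := Ext.none) (P1 := 0) (W1 := 536870912) (P2 := 536870912) (W2 := 536870912) (P3 := 134217728) (W3 := 67108864)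
    rfl k0_pm_001

noncomputable def f_pm_011 : ℕ → ℕ → ℕ → ℕ → Bool := onCell 0 536870912 536870912 536870912 134217728 67108864
    (rowF 0 false true false .pnn 0 1 1 (qsf 0 536870912 536870912 536870912 1) ndF5q0 ndF1q1 pcF1 Cut.none Ext.none)

def k0_pm_011 : ∃ t, chk3 f_pm_011 t 1 1 1 = true :=
  ⟨(l 4), by decide +kernel⟩

theorem c_pm_011 : CertF 0 536870912 536870912 536870912 134217728 67108864 false true false .pnn 0 1 1
    ndF5q0 ndF1q1 pcF1 Cut.none Ext.none :=
  certF0 (fam := false) (s1 := true) (s2 := false) (a := 0) (b := 1) (c := 1) (cn := .pnn) (n1 := ndF5q0) (n2 := ndF1q1) (pc := pcF1) (cut := Cut.none) (xt := Ext.none) (P1 := 0) (W1 := 536870912) (P2 := 536870912) (W2 := 536870912) (P3 := 134217728) (W3 := 67108864)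
    rfl k0_pm_011

noncomputable def f_pm_012_a : ℕ → ℕ → ℕ → ℕ → Bool := onCell 0 536870912 0 536870912 134217728 67108864
    (rowF 0 false true false .pnp 0 1 2 (qsf 0 536870912 0 536870912 1) ndF5q0 ndF1q2a pcF1 Cut.none Ext.none)

def k0_pm_012_a : ∃ t, chk3 f_pm_012_a t 1 1 1 = true :=
  ⟨(l 4), by decide +kernel⟩

theorem c_pm_012_a : CertF 0 536870912 0 536870912 134217728 67108864 false true false .pnp 0 1 2
    ndF5q0 ndF1q2a pcF1 Cut.none Ext.none :=
  certF0 (fam := false) (s1 := true) (s2 := false) (a := 0) (b := 1) (c := 2) (cn := .pnp) (n1 := ndF5q0) (n2 := ndF1q2a) (pc := pcF1) (cut := Cut.none) (xt := Ext.none) (P1 := 0) (W1 := 536870912) (P2 := 0) (W2 := 536870912) (P3 := 134217728) (W3 := 67108864)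
    rfl k0_pm_012_a

noncomputable def f_pm_012_b : ℕ → ℕ → ℕ → ℕ → Bool := onCell 0 536870912 1239849684 370763052 134217728 67108864
    (rowF 0 false true false .pnp 0 1 2 (qsf 0 536870912 1239849684 370763052 1) ndF5q0 ndF1q2b pcF1 Cut.none Ext.none)

def k0_pm_012_b : ∃ t, chk3 f_pm_012_b t 1 1 1 = true :=
  ⟨(l 4), by decide +kernel⟩

theorem c_pm_012_b : CertF 0 536870912 1239849684 370763052 134217728 67108864 false true false .pnp 0 1 2
    ndF5q0 ndF1q2b pcF1 Cut.none Ext.none :=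
  certF0 (fam := false) (s1 := true) (s2 := false) (a := 0) (b := 1) (c := 2) (cn := .pnp) (n1 := ndF5q0) (n2 := ndF1q2b) (pc := pcF1) (cut := Cut.none) (xt := Ext.none) (P1 := 0) (W1 := 536870912) (P2 := 1239849684) (W2 := 370763052) (P3 := 134217728) (W3 := 67108864)
    rfl k0_pm_012_b

noncomputable def f_pm_022_a : ℕ → ℕ → ℕ → ℕ → Bool := onCell 0 536870912 0 536870912 134217728 67108864
    (rowF 0 false true false .pp 0 2 2 (qsf 0 536870912 0 536870912 2) ndF5q0 ndF1q2a pcF2 Cut.none Ext.none)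

def k0_pm_022_a : ∃ t, chk3 f_pm_022_a t 1 1 1 = true :=
  ⟨(l 4), by decide +kernel⟩

theorem c_pm_022_a : CertF 0 536870912 0 536870912 134217728 67108864 false true false .pp 0 2 2
    ndF5q0 ndF1q2a pcF2 Cut.none Ext.none :=
  certF0 (fam := false) (s1 := true) (s2 := false) (a := 0) (b := 2) (c := 2) (cn := .pp) (n1 := ndF5q0) (n2 := ndF1q2a) (pc := pcF2) (cut := Cut.none) (xt := Ext.none) (P1 := 0) (W1 := 536870912) (P2 := 0) (W2 := 536870912) (P3 := 134217728) (W3 := 67108864)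
    rfl k0_pm_022_a

noncomputable def f_pm_022_b : ℕ → ℕ → ℕ → ℕ → Bool := onCell 0 536870912 1239849684 370763052 134217728 67108864
    (rowF 0 false true false .pp 0 2 2 (qsf 0 536870912 1239849684 370763052 2) ndF5q0 ndF1q2b pcF2 Cut.none Ext.none)

def k0_pm_022_b : ∃ t, chk3 f_pm_022_b t 1 1 1 = true :=
  ⟨(l 4), by decide +kernel⟩

theorem c_pm_022_b : CertF 0 536870912 1239849684 370763052 134217728 67108864 false true false .pp 0 2 2
    ndF5q0 ndF1q2b pcF2 Cut.none Ext.none :=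
  certF0 (fam := false) (s1 := true) (s2 := false) (a := 0) (b := 2) (c := 2) (cn := .pp) (n1 := ndF5q0) (n2 := ndF1q2b) (pc := pcF2) (cut := Cut.none) (xt := Ext.none) (P1 := 0) (W1 := 536870912) (P2 := 1239849684) (W2 := 370763052) (P3 := 134217728) (W3 := 67108864)
    rfl k0_pm_022_b

noncomputable def f_pm_023 : ℕ → ℕ → ℕ → ℕ → Bool := onCell 0 536870912 1610612736 536870912 134217728 67108864
    (rowF 0 false true false .up 0 2 3 (qsf 0 536870912 1610612736 536870912 2) ndF5q0 ndF1q3 pcF2 Cut.none Ext.none)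

def k0_pm_023 : ∃ t, chk3 f_pm_023 t 1 1 1 = true :=
  ⟨(l 4), by decide +kernel⟩

theorem c_pm_023 : CertF 0 536870912 1610612736 536870912 134217728 67108864 false true false .up 0 2 3
    ndF5q0 ndF1q3 pcF2 Cut.none Ext.none :=
  certF0 (fam := false) (s1 := true) (s2 := false) (a := 0) (b := 2) (c := 3) (cn := .up) (n1 := ndF5q0) (n2 := ndF1q3) (pc := pcF2) (cut := Cut.none) (xt := Ext.none) (P1 := 0) (W1 := 536870912) (P2 := 1610612736) (W2 := 536870912) (P3 := 134217728) (W3 := 67108864)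
    rfl k0_pm_023

noncomputable def f_pm_033 : ℕ → ℕ → ℕ → ℕ → Bool := onCell 0 536870912 1610612736 536870912 134217728 67108864
    (rowF 0 false true false .pnn 0 3 3 (qsf 0 536870912 1610612736 536870912 3) ndF5q0 ndF1q3 pcF3 Cut.none Ext.none)

def k0_pm_033 : ∃ t, chk3 f_pm_033 t 1 1 1 = true :=
  ⟨(l 4), by decide +kernel⟩

theorem c_pm_033 : CertF 0 536870912 1610612736 536870912 134217728 67108864 false true false .pnn 0 3 3
    ndF5q0 ndF1q3 pcF3 Cut.none Ext.none :=
  certF0 (fam := false) (s1 := true) (s2 := false) (a := 0) (b := 3) (c := 3) (cn := .pnn) (n1 := ndF5q0) (n2 := ndF1q3) (pc := pcF3) (cut := Cut.none) (xt := Ext.none) (P1 := 0) (W1 := 536870912) (P2 := 1610612736) (W2 := 536870912) (P3 := 134217728) (W3 := 67108864)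
    rfl k0_pm_033

noncomputable def f_pm_101 : ℕ → ℕ → ℕ → ℕ → Bool := onCell 536870912 536870912 536870912 536870912 134217728 67108864
    (rowF 0 false true false .npn 1 0 1 (qsf 536870912 536870912 536870912 536870912 0) ndF5q1 ndF1q1 pcF0 Cut.none Ext.none)

def k0_pm_101 : ∃ t, chk3 f_pm_101 t 1 1 1 = true :=
  ⟨(l 4), by decide +kernel⟩

theorem c_pm_101 : CertF 536870912 536870912 536870912 536870912 134217728 67108864 false true false .npn 1 0 1
    ndF5q1 ndF1q1 pcF0 Cut.none Ext.none :=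
  certF0 (fam := false) (s1 := true) (s2 := false) (a := 1) (b := 0) (c := 1) (cn := .npn) (n1 := ndF5q1) (n2 := ndF1q1) (pc := pcF0) (cut := Cut.none) (xt := Ext.none) (P1 := 536870912) (W1 := 536870912) (P2 := 536870912) (W2 := 536870912) (P3 := 134217728) (W3 := 67108864)
    rfl k0_pm_101

noncomputable def f_pm_102_a : ℕ → ℕ → ℕ → ℕ → Bool := onCell 536870912 536870912 0 536870912 134217728 67108864
    (rowF 0 false true false .npp 1 0 2 (qsf 536870912 536870912 0 536870912 0) ndF5q1 ndF1q2a pcF0 Cut.none Ext.none)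

def k0_pm_102_a : ∃ t, chk3 f_pm_102_a t 1 1 1 = true :=
  ⟨(a (l 4) (b (l 4) (l 4))), by decide +kernel⟩

theorem c_pm_102_a : CertF 536870912 536870912 0 536870912 134217728 67108864 false true false .npp 1 0 2
    ndF5q1 ndF1q2a pcF0 Cut.none Ext.none :=
  certF0 (fam := false) (s1 := true) (s2 := false) (a := 1) (b := 0) (c := 2) (cn := .npp) (n1 := ndF5q1) (n2 := ndF1q2a) (pc := pcF0) (cut := Cut.none) (xt := Ext.none) (P1 := 536870912) (W1 := 536870912) (P2 := 0) (W2 := 536870912) (P3 := 134217728) (W3 := 67108864)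
    rfl k0_pm_102_a

noncomputable def f_pm_102_b : ℕ → ℕ → ℕ → ℕ → Bool := onCell 536870912 536870912 1239849684 370763052 134217728 67108864
    (rowF 0 false true false .npp 1 0 2 (qsf 536870912 536870912 1239849684 370763052 0) ndF5q1 ndF1q2b pcF0 Cut.none Ext.none)

def k0_pm_102_b : ∃ t, chk3 f_pm_102_b t 1 1 1 = true :=
  ⟨(a (l 4) (b (l 4) (l 4))), by decide +kernel⟩

theorem c_pm_102_b : CertF 536870912 536870912 1239849684 370763052 134217728 67108864 false true false .npp 1 0 2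
    ndF5q1 ndF1q2b pcF0 Cut.none Ext.none :=
  certF0 (fam := false) (s1 := true) (s2 := false) (a := 1) (b := 0) (c := 2) (cn := .npp) (n1 := ndF5q1) (n2 := ndF1q2b) (pc := pcF0) (cut := Cut.none) (xt := Ext.none) (P1 := 536870912) (W1 := 536870912) (P2 := 1239849684) (W2 := 370763052) (P3 := 134217728) (W3 := 67108864)
    rfl k0_pm_102_b

noncomputable def f_pm_112_a : ℕ → ℕ → ℕ → ℕ → Bool := onCell 536870912 536870912 0 536870912 134217728 67108864
    (rowF 2 false true false .dn 1 1 2 (qsf 536870912 536870912 0 536870912 1) ndF5q1 ndF1q2a pcF1 Cut.none Ext.none)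

def k0_pm_112_a : ∃ t, chk3 f_pm_112_a t 1 1 1 = true :=
  ⟨(l 4), by decide +kernel⟩

theorem c_pm_112_a : CertF 536870912 536870912 0 536870912 134217728 67108864 false true false .dn 1 1 2
    ndF5q1 ndF1q2a pcF1 Cut.none Ext.none :=
  certF2 (fam := false) (s1 := true) (s2 := false) (a := 1) (b := 1) (c := 2) (cn := .dn) (n1 := ndF5q1) (n2 := ndF1q2a) (pc := pcF1) (cut := Cut.none) (xt := Ext.none) (P1 := 536870912) (W1 := 536870912) (P2 := 0) (W2 := 536870912) (P3 := 134217728) (W3 := 67108864)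
    rfl (fun _ => rfl) k0_pm_112_a

noncomputable def f_pm_112_b : ℕ → ℕ → ℕ → ℕ → Bool := onCell 536870912 536870912 1239849684 370763052 134217728 67108864
    (rowF 2 false true false .dn 1 1 2 (qsf 536870912 536870912 1239849684 370763052 1) ndF5q1 ndF1q2b pcF1 Cut.none Ext.none)

def k0_pm_112_b : ∃ t, chk3 f_pm_112_b t 1 1 1 = true :=
  ⟨(a (l 4) (l 4)), by decide +kernel⟩

theorem c_pm_112_b : CertF 536870912 536870912 1239849684 370763052 134217728 67108864 false true false .dn 1 1 2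
    ndF5q1 ndF1q2b pcF1 Cut.none Ext.none :=
  certF2 (fam := false) (s1 := true) (s2 := false) (a := 1) (b := 1) (c := 2) (cn := .dn) (n1 := ndF5q1) (n2 := ndF1q2b) (pc := pcF1) (cut := Cut.none) (xt := Ext.none) (P1 := 536870912) (W1 := 536870912) (P2 := 1239849684) (W2 := 370763052) (P3 := 134217728) (W3 := 67108864)
    rfl (fun _ => rfl) k0_pm_112_b

noncomputable def f_pm_113 : ℕ → ℕ → ℕ → ℕ → Bool := onCell 536870912 536870912 1610612736 536870912 134217728 67108864
    (rowF 0 false true false .nn 1 1 3 (qsf 536870912 536870912 1610612736 536870912 1) ndF5q1 ndF1q3 pcF1 Cut.none Ext.none)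

def k0_pm_113 : ∃ t, chk3 f_pm_113 t 1 1 1 = true :=
  ⟨(a (l 4) (b (l 4) (b (l 4) (b (l 4) (l 16884616))))), by decide +kernel⟩

theorem c_pm_113 : CertF 536870912 536870912 1610612736 536870912 134217728 67108864 false true false .nn 1 1 3
    ndF5q1 ndF1q3 pcF1 Cut.none Ext.none :=
  certF0 (fam := false) (s1 := true) (s2 := false) (a := 1) (b := 1) (c := 3) (cn := .nn) (n1 := ndF5q1) (n2 := ndF1q3) (pc := pcF1) (cut := Cut.none) (xt := Ext.none) (P1 := 536870912) (W1 := 536870912) (P2 := 1610612736) (W2 := 536870912) (P3 := 134217728) (W3 := 67108864)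
    rfl k0_pm_113

noncomputable def f_pm_123 : ℕ → ℕ → ℕ → ℕ → Bool := onCell 1073741824 536870912 1610612736 536870912 134217728 67108864
    (rowF 2 false true false .npn 1 2 3 (qsf 536870912 536870912 1610612736 536870912 2) ndF5q1 ndF1q3 pcF2 Cut.none Ext.none)

def k0_pm_123 : ∃ t, chk3 f_pm_123 t 1 1 1 = true :=
  ⟨(a (b (l 4) (a (l 17335752) (l 4))) (l 4)), by decide +kernel⟩

theorem c_pm_123 : CertF 536870912 536870912 1610612736 536870912 134217728 67108864 false true false .npn 1 2 3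
    ndF5q1 ndF1q3 pcF2 Cut.none Ext.none :=
  certF2 (fam := false) (s1 := true) (s2 := false) (a := 1) (b := 2) (c := 3) (cn := .npn) (n1 := ndF5q1) (n2 := ndF1q3) (pc := pcF2) (cut := Cut.none) (xt := Ext.none) (P1 := 536870912) (W1 := 536870912) (P2 := 1610612736) (W2 := 536870912) (P3 := 134217728) (W3 := 67108864)
    rfl (fun _ => rfl) k0_pm_123

noncomputable def f_pm_133 : ℕ → ℕ → ℕ → ℕ → Bool := onCell 1610612736 536870912 1610612736 536870912 134217728 67108864
    (rowF 2 false true false .dn 1 3 3 (qsf 536870912 536870912 1610612736 536870912 3) ndF5q1 ndF1q3 pcF3 Cut.none Ext.none)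

def k0_pm_133 : ∃ t, chk3 f_pm_133 t 1 1 1 = true :=
  ⟨(l 4), by decide +kernel⟩

theorem c_pm_133 : CertF 536870912 536870912 1610612736 536870912 134217728 67108864 false true false .dn 1 3 3
    ndF5q1 ndF1q3 pcF3 Cut.none Ext.none :=
  certF2 (fam := false) (s1 := true) (s2 := false) (a := 1) (b := 3) (c := 3) (cn := .dn) (n1 := ndF5q1) (n2 := ndF1q3) (pc := pcF3) (cut := Cut.none) (xt := Ext.none) (P1 := 536870912) (W1 := 536870912) (P2 := 1610612736) (W2 := 536870912) (P3 := 134217728) (W3 := 67108864)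
    rfl (fun _ => rfl) k0_pm_133

noncomputable def f_pm_202_a : ℕ → ℕ → ℕ → ℕ → Bool := onCell 0 536870912 0 536870912 134217728 67108864
    (rowF 2 false true false .pp 2 0 2 (qsf 1073741824 536870912 0 536870912 0) ndF5q2 ndF1q2a pcF0 Cut.none Ext.none)

def k0_pm_202_a : ∃ t, chk3 f_pm_202_a t 1 1 1 = true :=
  ⟨(a (b (a (l 18887920) (l 19467304)) (l 4)) (l 1)), by decide +kernel⟩

theorem c_pm_202_a : CertF 1073741824 536870912 0 536870912 134217728 67108864 false true false .pp 2 0 2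
    ndF5q2 ndF1q2a pcF0 Cut.none Ext.none :=
  certF2 (fam := false) (s1 := true) (s2 := false) (a := 2) (b := 0) (c := 2) (cn := .pp) (n1 := ndF5q2) (n2 := ndF1q2a) (pc := pcF0) (cut := Cut.none) (xt := Ext.none) (P1 := 1073741824) (W1 := 536870912) (P2 := 0) (W2 := 536870912) (P3 := 134217728) (W3 := 67108864)
    rfl (fun _ => rfl) k0_pm_202_a

noncomputable def f_pm_202_b : ℕ → ℕ → ℕ → ℕ → Bool := onCell 0 536870912 1239849684 370763052 134217728 67108864
    (rowF 2 false true false .pp 2 0 2 (qsf 1073741824 536870912 1239849684 370763052 0) ndF5q2 ndF1q2b pcF0 Cut.none Ext.none)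

def k0_pm_202_b : ∃ t, chk3 f_pm_202_b t 1 1 1 = true :=
  ⟨(a (b (a (b (l 18734024) (l 18346944)) (b (l 19367368) (l 18883752))) (a (b (l 17952888) (l 17942424)) (b (l 18503032) (l 18293016)))) (a (b (l 164523156055) (l 18705160)) (b (l 1) (l 159153438887)))), by decide +kernel⟩

theorem c_pm_202_b : CertF 1073741824 536870912 1239849684 370763052 134217728 67108864 false true false .pp 2 0 2
    ndF5q2 ndF1q2b pcF0 Cut.none Ext.none :=
  certF2 (fam := false) (s1 := true) (s2 := false) (a := 2) (b := 0) (c := 2) (cn := .pp) (n1 := ndF5q2) (n2 := ndF1q2b) (pc := pcF0) (cut := Cut.none) (xt := Ext.none) (P1 := 1073741824) (W1 := 536870912) (P2 := 1239849684) (W2 := 370763052) (P3 := 134217728) (W3 := 67108864)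
    rfl (fun _ => rfl) k0_pm_202_b

noncomputable def f_pm_203 : ℕ → ℕ → ℕ → ℕ → Bool := onCell 1073741824 536870912 0 536870912 134217728 67108864
    (rowF 1 false true false .up 2 0 3 (qsf 1073741824 536870912 1610612736 536870912 0) ndF5q2 ndF1q3 pcF0 Cut.none Ext.none)

def k0_pm_203 : ∃ t, chk3 f_pm_203 t 1 1 1 = true :=
  ⟨(b (a (b (l 1) (l 381215873287)) (a (b (l 17808008) (l 18141552)) (b (l 17813336) (l 18313888)))) (a (b (a (l 18706064) (l 18485728)) (a (l 18628032) (l 18431672))) (b (a (l 18511680) (a (l 18328072) (l 18284352))) (a (l 18621376) (l 18232200))))), by decide +kernel⟩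

theorem c_pm_203 : CertF 1073741824 536870912 1610612736 536870912 134217728 67108864 false true false .up 2 0 3
    ndF5q2 ndF1q3 pcF0 Cut.none Ext.none :=
  certF1 (fam := false) (s1 := true) (s2 := false) (a := 2) (b := 0) (c := 3) (cn := .up) (n1 := ndF5q2) (n2 := ndF1q3) (pc := pcF0) (cut := Cut.none) (xt := Ext.none) (P1 := 1073741824) (W1 := 536870912) (P2 := 1610612736) (W2 := 536870912) (P3 := 134217728) (W3 := 67108864)
    rfl (fun _ => rfl) k0_pm_203

noncomputable def f_pm_213 : ℕ → ℕ → ℕ → ℕ → Bool := onCell 536870912 536870912 1610612736 536870912 134217728 67108864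
    (rowF 2 false true false .pnn 2 1 3 (qsf 1073741824 536870912 1610612736 536870912 1) ndF5q2 ndF1q3 pcF1 Cut.none Ext.none)

def k0_pm_213 : ∃ t, chk3 f_pm_213 t 1 1 1 = true :=
  ⟨(a (b (a (l 18072904) (l 18183240)) (a (b (l 17498520) (b (l 17259880) (l 17222048))) (b (l 17496744) (l 17240152)))) (b (l 4) (a (b (l 17541312) (a (l 17181072) (l 17124704))) (b (l 4) (a (l 17055296) (l 17059552)))))), by decide +kernel⟩

theorem c_pm_213 : CertF 1073741824 536870912 1610612736 536870912 134217728 67108864 false true false .pnn 2 1 3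
    ndF5q2 ndF1q3 pcF1 Cut.none Ext.none :=
  certF2 (fam := false) (s1 := true) (s2 := false) (a := 2) (b := 1) (c := 3) (cn := .pnn) (n1 := ndF5q2) (n2 := ndF1q3) (pc := pcF1) (cut := Cut.none) (xt := Ext.none) (P1 := 1073741824) (W1 := 536870912) (P2 := 1610612736) (W2 := 536870912) (P3 := 134217728) (W3 := 67108864)
    rfl (fun _ => rfl) k0_pm_213

noncomputable def f_pm_303 : ℕ → ℕ → ℕ → ℕ → Bool := onCell 0 1230186008 1610612736 536870912 134217728 67108864
    (rowF 0 false true false .npn 3 0 3 (qsf 0 1230186008 1610612736 536870912 0) ndF5q3 ndF1q3 pcF0 Cut.none Ext.none)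

def k0_pm_303 : ∃ t, chk3 f_pm_303 t 1 1 1 = true :=
  ⟨(a (l 3) (a (b (a (l 1) (b (l 1) (b (l 1) (b (l 1) (l 249815893399))))) (a (l 3) (b (l 3) (l 3)))) (b (a (b (l 1) (b (l 502547640199) (a (l 18404008) (l 18195512)))) (b (l 17783760) (b (l 18136072) (l 18506056)))) (a (b (a (l 18029584) (b (l 18180344) (l 18018352))) (a (l 17696664) (l 17759816))) (b (a (l 18120616) (l 18220336)) (a (l 17842232) (l 18150496))))))), by decide +kernel⟩

theorem c_pm_303 : CertF 0 1230186008 1610612736 536870912 134217728 67108864 false true false .npn 3 0 3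
    ndF5q3 ndF1q3 pcF0 Cut.none Ext.none :=
  certF0 (fam := false) (s1 := true) (s2 := false) (a := 3) (b := 0) (c := 3) (cn := .npn) (n1 := ndF5q3) (n2 := ndF1q3) (pc := pcF0) (cut := Cut.none) (xt := Ext.none) (P1 := 0) (W1 := 1230186008) (P2 := 1610612736) (W2 := 536870912) (P3 := 134217728) (W3 := 67108864)
    rfl k0_pm_303

noncomputable def f_pm_313 : ℕ → ℕ → ℕ → ℕ → Bool := onCell 0 1230186008 1610612736 536870912 134217728 67108864
    (rowF 0 false true false .dn 3 1 3 (qsf 0 1230186008 1610612736 536870912 1) ndF5q3 ndF1q3 pcF1 Cut.none Ext.none)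

def k0_pm_313 : ∃ t, chk3 f_pm_313 t 1 1 1 = true :=
  ⟨(a (l 1) (a (l 1) (b (l 1) (a (l 1) (b (l 1) (a (l 1) (b (l 1) (l 17104064)))))))), by decide +kernel⟩

theorem c_pm_313 : CertF 0 1230186008 1610612736 536870912 134217728 67108864 false true false .dn 3 1 3
    ndF5q3 ndF1q3 pcF1 Cut.none Ext.none :=
  certF0 (fam := false) (s1 := true) (s2 := false) (a := 3) (b := 1) (c := 3) (cn := .dn) (n1 := ndF5q3) (n2 := ndF1q3) (pc := pcF1) (cut := Cut.none) (xt := Ext.none) (P1 := 0) (W1 := 1230186008) (P2 := 1610612736) (W2 := 536870912) (P3 := 134217728) (W3 := 67108864)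
    rfl k0_pm_313

noncomputable def f_mm_001 : ℕ → ℕ → ℕ → ℕ → Bool := onCell 0 536870912 536870912 536870912 134217728 67108864
    (rowF 0 false false false .up 0 0 1 (qsf 0 536870912 536870912 536870912 0) ndF5q0 ndF1q1 pcF0 Cut.none Ext.none)

def k0_mm_001 : ∃ t, chk3 f_mm_001 t 1 1 1 = true :=
  ⟨(l 5), by decide +kernel⟩

theorem c_mm_001 : CertF 0 536870912 536870912 536870912 134217728 67108864 false false false .up 0 0 1
    ndF5q0 ndF1q1 pcF0 Cut.none Ext.none :=
  certF0 (fam := false) (s1 := false) (s2 := false) (a := 0) (b := 0) (c := 1) (cn := .up) (n1 := ndF5q0) (n2 := ndF1q1) (pc := pcF0) (cut := Cut.none) (xt := Ext.none) (P1 := 0) (W1 := 536870912) (P2 := 536870912) (W2 := 536870912) (P3 := 134217728) (W3 := 67108864)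
    rfl k0_mm_001

noncomputable def f_mm_011 : ℕ → ℕ → ℕ → ℕ → Bool := onCell 0 536870912 536870912 536870912 134217728 67108864
    (rowF 0 false false false .pnn 0 1 1 (qsf 0 536870912 536870912 536870912 1) ndF5q0 ndF1q1 pcF1 Cut.none Ext.none)

def k0_mm_011 : ∃ t, chk3 f_mm_011 t 1 1 1 = true :=
  ⟨(l 5), by decide +kernel⟩

theorem c_mm_011 : CertF 0 536870912 536870912 536870912 134217728 67108864 false false false .pnn 0 1 1
    ndF5q0 ndF1q1 pcF1 Cut.none Ext.none :=
  certF0 (fam := false) (s1 := false) (s2 := false) (a := 0) (b := 1) (c := 1) (cn := .pnn) (n1 := ndF5q0) (n2 := ndF1q1) (pc := pcF1) (cut := Cut.none) (xt := Ext.none) (P1 := 0) (W1 := 536870912) (P2 := 536870912) (W2 := 536870912) (P3 := 134217728) (W3 := 67108864)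
    rfl k0_mm_011

noncomputable def f_mm_012_a : ℕ → ℕ → ℕ → ℕ → Bool := onCell 0 536870912 0 536870912 134217728 67108864
    (rowF 0 false false false .pnp 0 1 2 (qsf 0 536870912 0 536870912 1) ndF5q0 ndF1q2a pcF1 Cut.none Ext.none)

def k0_mm_012_a : ∃ t, chk3 f_mm_012_a t 1 1 1 = true :=
  ⟨(l 5), by decide +kernel⟩

theorem c_mm_012_a : CertF 0 536870912 0 536870912 134217728 67108864 false false false .pnp 0 1 2
    ndF5q0 ndF1q2a pcF1 Cut.none Ext.none :=
  certF0 (fam := false) (s1 := false) (s2 := false) (a := 0) (b := 1) (c := 2) (cn := .pnp) (n1 := ndF5q0) (n2 := ndF1q2a) (pc := pcF1) (cut := Cut.none) (xt := Ext.none) (P1 := 0) (W1 := 536870912) (P2 := 0) (W2 := 536870912) (P3 := 134217728) (W3 := 67108864)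
    rfl k0_mm_012_a

noncomputable def f_mm_012_b : ℕ → ℕ → ℕ → ℕ → Bool := onCell 0 536870912 1239849684 370763052 134217728 67108864
    (rowF 0 false false false .pnp 0 1 2 (qsf 0 536870912 1239849684 370763052 1) ndF5q0 ndF1q2b pcF1 Cut.none Ext.none)

def k0_mm_012_b : ∃ t, chk3 f_mm_012_b t 1 1 1 = true :=
  ⟨(l 5), by decide +kernel⟩

theorem c_mm_012_b : CertF 0 536870912 1239849684 370763052 134217728 67108864 false false false .pnp 0 1 2
    ndF5q0 ndF1q2b pcF1 Cut.none Ext.none :=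
  certF0 (fam := false) (s1 := false) (s2 := false) (a := 0) (b := 1) (c := 2) (cn := .pnp) (n1 := ndF5q0) (n2 := ndF1q2b) (pc := pcF1) (cut := Cut.none) (xt := Ext.none) (P1 := 0) (W1 := 536870912) (P2 := 1239849684) (W2 := 370763052) (P3 := 134217728) (W3 := 67108864)
    rfl k0_mm_012_b

noncomputable def f_mm_022_a : ℕ → ℕ → ℕ → ℕ → Bool := onCell 0 536870912 0 536870912 134217728 67108864
    (rowF 0 false false false .pp 0 2 2 (qsf 0 536870912 0 536870912 2) ndF5q0 ndF1q2a pcF2 Cut.none Ext.none)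

def k0_mm_022_a : ∃ t, chk3 f_mm_022_a t 1 1 1 = true :=
  ⟨(l 5), by decide +kernel⟩

theorem c_mm_022_a : CertF 0 536870912 0 536870912 134217728 67108864 false false false .pp 0 2 2
    ndF5q0 ndF1q2a pcF2 Cut.none Ext.none :=
  certF0 (fam := false) (s1 := false) (s2 := false) (a := 0) (b := 2) (c := 2) (cn := .pp) (n1 := ndF5q0) (n2 := ndF1q2a) (pc := pcF2) (cut := Cut.none) (xt := Ext.none) (P1 := 0) (W1 := 536870912) (P2 := 0) (W2 := 536870912) (P3 := 134217728) (W3 := 67108864)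
    rfl k0_mm_022_a

noncomputable def f_mm_022_b : ℕ → ℕ → ℕ → ℕ → Bool := onCell 0 536870912 1239849684 370763052 134217728 67108864
    (rowF 0 false false false .pp 0 2 2 (qsf 0 536870912 1239849684 370763052 2) ndF5q0 ndF1q2b pcF2 Cut.none Ext.none)

def k0_mm_022_b : ∃ t, chk3 f_mm_022_b t 1 1 1 = true :=
  ⟨(l 5), by decide +kernel⟩

theorem c_mm_022_b : CertF 0 536870912 1239849684 370763052 134217728 67108864 false false false .pp 0 2 2
    ndF5q0 ndF1q2b pcF2 Cut.none Ext.none :=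
  certF0 (fam := false) (s1 := false) (s2 := false) (a := 0) (b := 2) (c := 2) (cn := .pp) (n1 := ndF5q0) (n2 := ndF1q2b) (pc := pcF2) (cut := Cut.none) (xt := Ext.none) (P1 := 0) (W1 := 536870912) (P2 := 1239849684) (W2 := 370763052) (P3 := 134217728) (W3 := 67108864)
    rfl k0_mm_022_b

noncomputable def f_mm_023 : ℕ → ℕ → ℕ → ℕ → Bool := onCell 0 536870912 1610612736 536870912 134217728 67108864
    (rowF 0 false false false .up 0 2 3 (qsf 0 536870912 1610612736 536870912 2) ndF5q0 ndF1q3 pcF2 Cut.none Ext.none)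

def k0_mm_023 : ∃ t, chk3 f_mm_023 t 1 1 1 = true :=
  ⟨(l 5), by decide +kernel⟩

theorem c_mm_023 : CertF 0 536870912 1610612736 536870912 134217728 67108864 false false false .up 0 2 3
    ndF5q0 ndF1q3 pcF2 Cut.none Ext.none :=
  certF0 (fam := false) (s1 := false) (s2 := false) (a := 0) (b := 2) (c := 3) (cn := .up) (n1 := ndF5q0) (n2 := ndF1q3) (pc := pcF2) (cut := Cut.none) (xt := Ext.none) (P1 := 0) (W1 := 536870912) (P2 := 1610612736) (W2 := 536870912) (P3 := 134217728) (W3 := 67108864)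
    rfl k0_mm_023

noncomputable def f_mm_033 : ℕ → ℕ → ℕ → ℕ → Bool := onCell 0 536870912 1610612736 536870912 134217728 67108864
    (rowF 0 false false false .pnn 0 3 3 (qsf 0 536870912 1610612736 536870912 3) ndF5q0 ndF1q3 pcF3 Cut.none Ext.none)

def k0_mm_033 : ∃ t, chk3 f_mm_033 t 1 1 1 = true :=
  ⟨(l 5), by decide +kernel⟩

theorem c_mm_033 : CertF 0 536870912 1610612736 536870912 134217728 67108864 false false false .pnn 0 3 3
    ndF5q0 ndF1q3 pcF3 Cut.none Ext.none :=
  certF0 (fam := false) (s1 := false) (s2 := false) (a := 0) (b := 3) (c := 3) (cn := .pnn) (n1 := ndF5q0) (n2 := ndF1q3) (pc := pcF3) (cut := Cut.none) (xt := Ext.none) (P1 := 0) (W1 := 536870912) (P2 := 1610612736) (W2 := 536870912) (P3 := 134217728) (W3 := 67108864)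
    rfl k0_mm_033

noncomputable def f_mm_101 : ℕ → ℕ → ℕ → ℕ → Bool := onCell 536870912 536870912 536870912 536870912 134217728 67108864
    (rowF 0 false false false .npn 1 0 1 (qsf 536870912 536870912 536870912 536870912 0) ndF5q1 ndF1q1 pcF0 Cut.none Ext.none)

def k0_mm_101 : ∃ t, chk3 f_mm_101 t 1 1 1 = true :=
  ⟨(l 3), by decide +kernel⟩

theorem c_mm_101 : CertF 536870912 536870912 536870912 536870912 134217728 67108864 false false false .npn 1 0 1
    ndF5q1 ndF1q1 pcF0 Cut.none Ext.none :=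
  certF0 (fam := false) (s1 := false) (s2 := false) (a := 1) (b := 0) (c := 1) (cn := .npn) (n1 := ndF5q1) (n2 := ndF1q1) (pc := pcF0) (cut := Cut.none) (xt := Ext.none) (P1 := 536870912) (W1 := 536870912) (P2 := 536870912) (W2 := 536870912) (P3 := 134217728) (W3 := 67108864)
    rfl k0_mm_101

noncomputable def f_mm_102_a : ℕ → ℕ → ℕ → ℕ → Bool := onCell 536870912 536870912 0 536870912 134217728 67108864
    (rowF 0 false false false .npp 1 0 2 (qsf 536870912 536870912 0 536870912 0) ndF5q1 ndF1q2a pcF0 Cut.none Ext.none)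

def k0_mm_102_a : ∃ t, chk3 f_mm_102_a t 1 1 1 = true :=
  ⟨(l 5), by decide +kernel⟩

theorem c_mm_102_a : CertF 536870912 536870912 0 536870912 134217728 67108864 false false false .npp 1 0 2
    ndF5q1 ndF1q2a pcF0 Cut.none Ext.none :=
  certF0 (fam := false) (s1 := false) (s2 := false) (a := 1) (b := 0) (c := 2) (cn := .npp) (n1 := ndF5q1) (n2 := ndF1q2a) (pc := pcF0) (cut := Cut.none) (xt := Ext.none) (P1 := 536870912) (W1 := 536870912) (P2 := 0) (W2 := 536870912) (P3 := 134217728) (W3 := 67108864)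
    rfl k0_mm_102_a

noncomputable def f_mm_102_b : ℕ → ℕ → ℕ → ℕ → Bool := onCell 536870912 536870912 1239849684 370763052 134217728 67108864
    (rowF 0 false false false .npp 1 0 2 (qsf 536870912 536870912 1239849684 370763052 0) ndF5q1 ndF1q2b pcF0 Cut.none Ext.none)

def k0_mm_102_b : ∃ t, chk3 f_mm_102_b t 1 1 1 = true :=
  ⟨(l 5), by decide +kernel⟩

theorem c_mm_102_b : CertF 536870912 536870912 1239849684 370763052 134217728 67108864 false false false .npp 1 0 2
    ndF5q1 ndF1q2b pcF0 Cut.none Ext.none :=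
  certF0 (fam := false) (s1 := false) (s2 := false) (a := 1) (b := 0) (c := 2) (cn := .npp) (n1 := ndF5q1) (n2 := ndF1q2b) (pc := pcF0) (cut := Cut.none) (xt := Ext.none) (P1 := 536870912) (W1 := 536870912) (P2 := 1239849684) (W2 := 370763052) (P3 := 134217728) (W3 := 67108864)
    rfl k0_mm_102_b

noncomputable def f_mm_112_a : ℕ → ℕ → ℕ → ℕ → Bool := onCell 536870912 536870912 0 536870912 134217728 67108864
    (rowF 0 false false false .dn 1 1 2 (qsf 536870912 536870912 0 536870912 1) ndF5q1 ndF1q2a pcF1 Cut.none Ext.none)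

def k0_mm_112_a : ∃ t, chk3 f_mm_112_a t 1 1 1 = true :=
  ⟨(l 5), by decide +kernel⟩

theorem c_mm_112_a : CertF 536870912 536870912 0 536870912 134217728 67108864 false false false .dn 1 1 2
    ndF5q1 ndF1q2a pcF1 Cut.none Ext.none :=
  certF0 (fam := false) (s1 := false) (s2 := false) (a := 1) (b := 1) (c := 2) (cn := .dn) (n1 := ndF5q1) (n2 := ndF1q2a) (pc := pcF1) (cut := Cut.none) (xt := Ext.none) (P1 := 536870912) (W1 := 536870912) (P2 := 0) (W2 := 536870912) (P3 := 134217728) (W3 := 67108864)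
    rfl k0_mm_112_a

noncomputable def f_mm_112_b : ℕ → ℕ → ℕ → ℕ → Bool := onCell 536870912 536870912 1239849684 370763052 134217728 67108864
    (rowF 0 false false false .dn 1 1 2 (qsf 536870912 536870912 1239849684 370763052 1) ndF5q1 ndF1q2b pcF1 Cut.none Ext.none)

def k0_mm_112_b : ∃ t, chk3 f_mm_112_b t 1 1 1 = true :=
  ⟨(l 5), by decide +kernel⟩

theorem c_mm_112_b : CertF 536870912 536870912 1239849684 370763052 134217728 67108864 false false false .dn 1 1 2
    ndF5q1 ndF1q2b pcF1 Cut.none Ext.none :=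
  certF0 (fam := false) (s1 := false) (s2 := false) (a := 1) (b := 1) (c := 2) (cn := .dn) (n1 := ndF5q1) (n2 := ndF1q2b) (pc := pcF1) (cut := Cut.none) (xt := Ext.none) (P1 := 536870912) (W1 := 536870912) (P2 := 1239849684) (W2 := 370763052) (P3 := 134217728) (W3 := 67108864)
    rfl k0_mm_112_b

noncomputable def f_mm_113 : ℕ → ℕ → ℕ → ℕ → Bool := onCell 536870912 536870912 1610612736 536870912 134217728 67108864
    (rowF 0 false false false .nn 1 1 3 (qsf 536870912 536870912 1610612736 536870912 1) ndF5q1 ndF1q3 pcF1 Cut.none Ext.none)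

def k0_mm_113 : ∃ t, chk3 f_mm_113 t 1 1 1 = true :=
  ⟨(l 5), by decide +kernel⟩

theorem c_mm_113 : CertF 536870912 536870912 1610612736 536870912 134217728 67108864 false false false .nn 1 1 3
    ndF5q1 ndF1q3 pcF1 Cut.none Ext.none :=
  certF0 (fam := false) (s1 := false) (s2 := false) (a := 1) (b := 1) (c := 3) (cn := .nn) (n1 := ndF5q1) (n2 := ndF1q3) (pc := pcF1) (cut := Cut.none) (xt := Ext.none) (P1 := 536870912) (W1 := 536870912) (P2 := 1610612736) (W2 := 536870912) (P3 := 134217728) (W3 := 67108864)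
    rfl k0_mm_113

noncomputable def f_mm_123 : ℕ → ℕ → ℕ → ℕ → Bool := onCell 536870912 536870912 1610612736 536870912 134217728 67108864
    (rowF 0 false false false .npn 1 2 3 (qsf 536870912 536870912 1610612736 536870912 2) ndF5q1 ndF1q3 pcF2 Cut.none Ext.none)

def k0_mm_123 : ∃ t, chk3 f_mm_123 t 1 1 1 = true :=
  ⟨(l 5), by decide +kernel⟩

theorem c_mm_123 : CertF 536870912 536870912 1610612736 536870912 134217728 67108864 false false false .npn 1 2 3
    ndF5q1 ndF1q3 pcF2 Cut.none Ext.none :=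
  certF0 (fam := false) (s1 := false) (s2 := false) (a := 1) (b := 2) (c := 3) (cn := .npn) (n1 := ndF5q1) (n2 := ndF1q3) (pc := pcF2) (cut := Cut.none) (xt := Ext.none) (P1 := 536870912) (W1 := 536870912) (P2 := 1610612736) (W2 := 536870912) (P3 := 134217728) (W3 := 67108864)
    rfl k0_mm_123

noncomputable def f_mm_133 : ℕ → ℕ → ℕ → ℕ → Bool := onCell 536870912 536870912 1610612736 536870912 134217728 67108864
    (rowF 0 false false false .dn 1 3 3 (qsf 536870912 536870912 1610612736 536870912 3) ndF5q1 ndF1q3 pcF3 Cut.none Ext.none)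

def k0_mm_133 : ∃ t, chk3 f_mm_133 t 1 1 1 = true :=
  ⟨(l 5), by decide +kernel⟩

theorem c_mm_133 : CertF 536870912 536870912 1610612736 536870912 134217728 67108864 false false false .dn 1 3 3
    ndF5q1 ndF1q3 pcF3 Cut.none Ext.none :=
  certF0 (fam := false) (s1 := false) (s2 := false) (a := 1) (b := 3) (c := 3) (cn := .dn) (n1 := ndF5q1) (n2 := ndF1q3) (pc := pcF3) (cut := Cut.none) (xt := Ext.none) (P1 := 536870912) (W1 := 536870912) (P2 := 1610612736) (W2 := 536870912) (P3 := 134217728) (W3 := 67108864)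
    rfl k0_mm_133

noncomputable def f_mm_202_a : ℕ → ℕ → ℕ → ℕ → Bool := onCell 1073741824 536870912 0 536870912 134217728 67108864
    (rowF 0 false false false .pp 2 0 2 (qsf 1073741824 536870912 0 536870912 0) ndF5q2 ndF1q2a pcF0 Cut.none Ext.none)

def k0_mm_202_a : ∃ t, chk3 f_mm_202_a t 1 1 1 = true :=
  ⟨(l 5), by decide +kernel⟩

theorem c_mm_202_a : CertF 1073741824 536870912 0 536870912 134217728 67108864 false false false .pp 2 0 2
    ndF5q2 ndF1q2a pcF0 Cut.none Ext.none :=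
  certF0 (fam := false) (s1 := false) (s2 := false) (a := 2) (b := 0) (c := 2) (cn := .pp) (n1 := ndF5q2) (n2 := ndF1q2a) (pc := pcF0) (cut := Cut.none) (xt := Ext.none) (P1 := 1073741824) (W1 := 536870912) (P2 := 0) (W2 := 536870912) (P3 := 134217728) (W3 := 67108864)
    rfl k0_mm_202_a

noncomputable def f_mm_202_b : ℕ → ℕ → ℕ → ℕ → Bool := onCell 1073741824 536870912 1239849684 370763052 134217728 67108864
    (rowF 0 false false false .pp 2 0 2 (qsf 1073741824 536870912 1239849684 370763052 0) ndF5q2 ndF1q2b pcF0 Cut.none Ext.none)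

def k0_mm_202_b : ∃ t, chk3 f_mm_202_b t 1 1 1 = true :=
  ⟨(l 5), by decide +kernel⟩

theorem c_mm_202_b : CertF 1073741824 536870912 1239849684 370763052 134217728 67108864 false false false .pp 2 0 2
    ndF5q2 ndF1q2b pcF0 Cut.none Ext.none :=
  certF0 (fam := false) (s1 := false) (s2 := false) (a := 2) (b := 0) (c := 2) (cn := .pp) (n1 := ndF5q2) (n2 := ndF1q2b) (pc := pcF0) (cut := Cut.none) (xt := Ext.none) (P1 := 1073741824) (W1 := 536870912) (P2 := 1239849684) (W2 := 370763052) (P3 := 134217728) (W3 := 67108864)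
    rfl k0_mm_202_b

noncomputable def f_mm_203 : ℕ → ℕ → ℕ → ℕ → Bool := onCell 1073741824 536870912 1610612736 536870912 134217728 67108864
    (rowF 0 false false false .up 2 0 3 (qsf 1073741824 536870912 1610612736 536870912 0) ndF5q2 ndF1q3 pcF0 Cut.none Ext.none)

def k0_mm_203 : ∃ t, chk3 f_mm_203 t 1 1 1 = true :=
  ⟨(l 5), by decide +kernel⟩

theorem c_mm_203 : CertF 1073741824 536870912 1610612736 536870912 134217728 67108864 false false false .up 2 0 3
    ndF5q2 ndF1q3 pcF0 Cut.none Ext.none :=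
  certF0 (fam := false) (s1 := false) (s2 := false) (a := 2) (b := 0) (c := 3) (cn := .up) (n1 := ndF5q2) (n2 := ndF1q3) (pc := pcF0) (cut := Cut.none) (xt := Ext.none) (P1 := 1073741824) (W1 := 536870912) (P2 := 1610612736) (W2 := 536870912) (P3 := 134217728) (W3 := 67108864)
    rfl k0_mm_203

noncomputable def f_mm_213 : ℕ → ℕ → ℕ → ℕ → Bool := onCell 1073741824 536870912 1610612736 536870912 134217728 67108864
    (rowF 0 false false false .pnn 2 1 3 (qsf 1073741824 536870912 1610612736 536870912 1) ndF5q2 ndF1q3 pcF1 Cut.none Ext.none)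

def k0_mm_213 : ∃ t, chk3 f_mm_213 t 1 1 1 = true :=
  ⟨(l 5), by decide +kernel⟩

theorem c_mm_213 : CertF 1073741824 536870912 1610612736 536870912 134217728 67108864 false false false .pnn 2 1 3
    ndF5q2 ndF1q3 pcF1 Cut.none Ext.none :=
  certF0 (fam := false) (s1 := false) (s2 := false) (a := 2) (b := 1) (c := 3) (cn := .pnn) (n1 := ndF5q2) (n2 := ndF1q3) (pc := pcF1) (cut := Cut.none) (xt := Ext.none) (P1 := 1073741824) (W1 := 536870912) (P2 := 1610612736) (W2 := 536870912) (P3 := 134217728) (W3 := 67108864)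
    rfl k0_mm_213

noncomputable def f_mm_303 : ℕ → ℕ → ℕ → ℕ → Bool := onCell 0 1230186008 1610612736 536870912 134217728 67108864
    (rowF 0 false false false .npn 3 0 3 (qsf 0 1230186008 1610612736 536870912 0) ndF5q3 ndF1q3 pcF0 Cut.none Ext.none)

def k0_mm_303 : ∃ t, chk3 f_mm_303 t 1 1 1 = true :=
  ⟨(a (l 3) (l 5)), by decide +kernel⟩

theorem c_mm_303 : CertF 0 1230186008 1610612736 536870912 134217728 67108864 false false false .npn 3 0 3
    ndF5q3 ndF1q3 pcF0 Cut.none Ext.none :=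
  certF0 (fam := false) (s1 := false) (s2 := false) (a := 3) (b := 0) (c := 3) (cn := .npn) (n1 := ndF5q3) (n2 := ndF1q3) (pc := pcF0) (cut := Cut.none) (xt := Ext.none) (P1 := 0) (W1 := 1230186008) (P2 := 1610612736) (W2 := 536870912) (P3 := 134217728) (W3 := 67108864)
    rfl k0_mm_303

noncomputable def f_mm_313 : ℕ → ℕ → ℕ → ℕ → Bool := onCell 0 1230186008 1610612736 536870912 134217728 67108864
    (rowF 0 false false false .dn 3 1 3 (qsf 0 1230186008 1610612736 536870912 1) ndF5q3 ndF1q3 pcF1 Cut.none Ext.none)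

def k0_mm_313 : ∃ t, chk3 f_mm_313 t 1 1 1 = true :=
  ⟨(a (l 1) (l 5)), by decide +kernel⟩

theorem c_mm_313 : CertF 0 1230186008 1610612736 536870912 134217728 67108864 false false false .dn 3 1 3
    ndF5q3 ndF1q3 pcF1 Cut.none Ext.none :=
  certF0 (fam := false) (s1 := false) (s2 := false) (a := 3) (b := 1) (c := 3) (cn := .dn) (n1 := ndF5q3) (n2 := ndF1q3) (pc := pcF1) (cut := Cut.none) (xt := Ext.none) (P1 := 0) (W1 := 1230186008) (P2 := 1610612736) (W2 := 536870912) (P3 := 134217728) (W3 := 67108864)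
    rfl k0_mm_313

end Pool.Agent.Strip051.G.I1_8_3_16.Tab.C.FB51

namespace Pool.Agent.Strip051.G.I1_8_3_16.Tab.C.FB52

open Pool.Agent.Strip051.PB Pool.Agent.Strip051.PB.T
open Pool.Agent.Strip051.G.I1_8_3_16.Tab

noncomputable def f_pp_001 : ℕ → ℕ → ℕ → ℕ → Bool := onCell 0 536870912 536870912 536870912 134217728 67108864
    (rowF 0 false true true .up 0 0 1 (qsf 0 536870912 536870912 536870912 0) ndF5q0 ndF2q1 pcF0 Cut.none Ext.none)

def k0_pp_001 : ∃ t, chk3 f_pp_001 t 1 1 1 = true :=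
  ⟨(l 3), by decide +kernel⟩

theorem c_pp_001 : CertF 0 536870912 536870912 536870912 134217728 67108864 false true true .up 0 0 1
    ndF5q0 ndF2q1 pcF0 Cut.none Ext.none :=
  certF0 (fam := false) (s1 := true) (s2 := true) (a := 0) (b := 0) (c := 1) (cn := .up) (n1 := ndF5q0) (n2 := ndF2q1) (pc := pcF0) (cut := Cut.none) (xt := Ext.none) (P1 := 0) (W1 := 536870912) (P2 := 536870912) (W2 := 536870912) (P3 := 134217728) (W3 := 67108864)
    rfl k0_pp_001

noncomputable def f_pp_011 : ℕ → ℕ → ℕ → ℕ → Bool := onCell 0 536870912 536870912 536870912 134217728 67108864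
    (rowF 0 false true true .pnn 0 1 1 (qsf 0 536870912 536870912 536870912 1) ndF5q0 ndF2q1 pcF1 Cut.none Ext.none)

def k0_pp_011 : ∃ t, chk3 f_pp_011 t 1 1 1 = true :=
  ⟨(l 3), by decide +kernel⟩

theorem c_pp_011 : CertF 0 536870912 536870912 536870912 134217728 67108864 false true true .pnn 0 1 1
    ndF5q0 ndF2q1 pcF1 Cut.none Ext.none :=
  certF0 (fam := false) (s1 := true) (s2 := true) (a := 0) (b := 1) (c := 1) (cn := .pnn) (n1 := ndF5q0) (n2 := ndF2q1) (pc := pcF1) (cut := Cut.none) (xt := Ext.none) (P1 := 0) (W1 := 536870912) (P2 := 536870912) (W2 := 536870912) (P3 := 134217728) (W3 := 67108864)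
    rfl k0_pp_011

noncomputable def f_pp_012_a : ℕ → ℕ → ℕ → ℕ → Bool := onCell 0 536870912 0 536870912 134217728 67108864
    (rowF 0 false true true .pnp 0 1 2 (qsf 0 536870912 0 536870912 1) ndF5q0 ndF2q2a pcF1 Cut.none Ext.none)

def k0_pp_012_a : ∃ t, chk3 f_pp_012_a t 1 1 1 = true :=
  ⟨(a (b (a (l 19026376) (l 18669616)) (a (b (l 18995280) (l 18843616)) (l 18522776))) (b (l 18499520) (a (l 18348576) (b (l 18324360) (l 18254784))))), by decide +kernel⟩

theorem c_pp_012_a : CertF 0 536870912 0 536870912 134217728 67108864 false true true .pnp 0 1 2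
    ndF5q0 ndF2q2a pcF1 Cut.none Ext.none :=
  certF0 (fam := false) (s1 := true) (s2 := true) (a := 0) (b := 1) (c := 2) (cn := .pnp) (n1 := ndF5q0) (n2 := ndF2q2a) (pc := pcF1) (cut := Cut.none) (xt := Ext.none) (P1 := 0) (W1 := 536870912) (P2 := 0) (W2 := 536870912) (P3 := 134217728) (W3 := 67108864)
    rfl k0_pp_012_a

noncomputable def f_pp_012_b : ℕ → ℕ → ℕ → ℕ → Bool := onCell 0 536870912 536870912 536870912 134217728 67108864
    (rowF 1 false true true .pnp 0 1 2 (qsf 0 536870912 1239849684 370763052 1) ndF5q0 ndF2q2b pcF1 Cut.none Ext.none)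

def k0_pp_012_b : ∃ t, chk3 f_pp_012_b t 1 1 1 = true :=
  ⟨(a (b (l 1) (b (l 1) (l 485906170167))) (b (a (l 1) (l 484294603815)) (a (l 503622394935) (l 18366360)))), by decide +kernel⟩

theorem c_pp_012_b : CertF 0 536870912 1239849684 370763052 134217728 67108864 false true true .pnp 0 1 2
    ndF5q0 ndF2q2b pcF1 Cut.none Ext.none :=
  certF1 (fam := false) (s1 := true) (s2 := true) (a := 0) (b := 1) (c := 2) (cn := .pnp) (n1 := ndF5q0) (n2 := ndF2q2b) (pc := pcF1) (cut := Cut.none) (xt := Ext.none) (P1 := 0) (W1 := 536870912) (P2 := 1239849684) (W2 := 370763052) (P3 := 134217728) (W3 := 67108864)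
    rfl (fun _ => rfl) k0_pp_012_b

noncomputable def f_pp_022_a : ℕ → ℕ → ℕ → ℕ → Bool := onCell 0 536870912 0 536870912 134217728 67108864
    (rowF 0 false true true .pp 0 2 2 (qsf 0 536870912 0 536870912 2) ndF5q0 ndF2q2a pcF2 Cut.none Ext.none)

def k0_pp_022_a : ∃ t, chk3 f_pp_022_a t 1 1 1 = true :=
  ⟨(a (b (l 110634315799) (a (l 19474968) (l 19598464))) (l 1)), by decide +kernel⟩

theorem c_pp_022_a : CertF 0 536870912 0 536870912 134217728 67108864 false true true .pp 0 2 2
    ndF5q0 ndF2q2a pcF2 Cut.none Ext.none :=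
  certF0 (fam := false) (s1 := true) (s2 := true) (a := 0) (b := 2) (c := 2) (cn := .pp) (n1 := ndF5q0) (n2 := ndF2q2a) (pc := pcF2) (cut := Cut.none) (xt := Ext.none) (P1 := 0) (W1 := 536870912) (P2 := 0) (W2 := 536870912) (P3 := 134217728) (W3 := 67108864)
    rfl k0_pp_022_a

noncomputable def f_pp_022_b : ℕ → ℕ → ℕ → ℕ → Bool := onCell 0 536870912 1073741824 536870912 134217728 67108864
    (rowF 1 false true true .pp 0 2 2 (qsf 0 536870912 1239849684 370763052 2) ndF5q0 ndF2q2b pcF2 Cut.none Ext.none)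

def k0_pp_022_b : ∃ t, chk3 f_pp_022_b t 1 1 1 = true :=
  ⟨(b (a (b (l 403228747191) (l 18720552)) (b (l 18363112) (l 18056352))) (a (b (l 18360264) (l 4)) (b (l 17624216) (l 2)))), by decide +kernel⟩

theorem c_pp_022_b : CertF 0 536870912 1239849684 370763052 134217728 67108864 false true true .pp 0 2 2
    ndF5q0 ndF2q2b pcF2 Cut.none Ext.none :=
  certF1 (fam := false) (s1 := true) (s2 := true) (a := 0) (b := 2) (c := 2) (cn := .pp) (n1 := ndF5q0) (n2 := ndF2q2b) (pc := pcF2) (cut := Cut.none) (xt := Ext.none) (P1 := 0) (W1 := 536870912) (P2 := 1239849684) (W2 := 370763052) (P3 := 134217728) (W3 := 67108864)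
    rfl (fun _ => rfl) k0_pp_022_b

noncomputable def f_pp_023 : ℕ → ℕ → ℕ → ℕ → Bool := onCell 0 536870912 1073741824 536870912 134217728 67108864
    (rowF 1 false true true .up 0 2 3 (qsf 0 536870912 1610612736 536870912 2) ndF5q0 ndF2q3 pcF2 Cut.none Ext.none)

def k0_pp_023 : ∃ t, chk3 f_pp_023 t 1 1 1 = true :=
  ⟨(b (a (l 548719286711) (b (l 18326952) (l 17977216))) (a (b (l 17835904) (l 4)) (b (l 17522280) (l 4)))), by decide +kernel⟩

theorem c_pp_023 : CertF 0 536870912 1610612736 536870912 134217728 67108864 false true true .up 0 2 3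
    ndF5q0 ndF2q3 pcF2 Cut.none Ext.none :=
  certF1 (fam := false) (s1 := true) (s2 := true) (a := 0) (b := 2) (c := 3) (cn := .up) (n1 := ndF5q0) (n2 := ndF2q3) (pc := pcF2) (cut := Cut.none) (xt := Ext.none) (P1 := 0) (W1 := 536870912) (P2 := 1610612736) (W2 := 536870912) (P3 := 134217728) (W3 := 67108864)
    rfl (fun _ => rfl) k0_pp_023

noncomputable def f_pp_033 : ℕ → ℕ → ℕ → ℕ → Bool := onCell 1610612736 536870912 1610612736 536870912 134217728 67108864
    (rowF 2 false true true .pnn 0 3 3 (qsf 0 536870912 1610612736 536870912 3) ndF5q0 ndF2q3 pcF3 Cut.none Ext.none)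

def k0_pp_033 : ∃ t, chk3 f_pp_033 t 1 1 1 = true :=
  ⟨(l 4), by decide +kernel⟩

theorem c_pp_033 : CertF 0 536870912 1610612736 536870912 134217728 67108864 false true true .pnn 0 3 3
    ndF5q0 ndF2q3 pcF3 Cut.none Ext.none :=
  certF2 (fam := false) (s1 := true) (s2 := true) (a := 0) (b := 3) (c := 3) (cn := .pnn) (n1 := ndF5q0) (n2 := ndF2q3) (pc := pcF3) (cut := Cut.none) (xt := Ext.none) (P1 := 0) (W1 := 536870912) (P2 := 1610612736) (W2 := 536870912) (P3 := 134217728) (W3 := 67108864)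
    rfl (fun _ => rfl) k0_pp_033

noncomputable def f_pp_101 : ℕ → ℕ → ℕ → ℕ → Bool := onCell 536870912 536870912 536870912 536870912 134217728 67108864
    (rowF 0 false true true .npn 1 0 1 (qsf 536870912 536870912 536870912 536870912 0) ndF5q1 ndF2q1 pcF0 Cut.none Ext.none)

def k0_pp_101 : ∃ t, chk3 f_pp_101 t 1 1 1 = true :=
  ⟨(l 3), by decide +kernel⟩

theorem c_pp_101 : CertF 536870912 536870912 536870912 536870912 134217728 67108864 false true true .npn 1 0 1
    ndF5q1 ndF2q1 pcF0 Cut.none Ext.none :=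
  certF0 (fam := false) (s1 := true) (s2 := true) (a := 1) (b := 0) (c := 1) (cn := .npn) (n1 := ndF5q1) (n2 := ndF2q1) (pc := pcF0) (cut := Cut.none) (xt := Ext.none) (P1 := 536870912) (W1 := 536870912) (P2 := 536870912) (W2 := 536870912) (P3 := 134217728) (W3 := 67108864)
    rfl k0_pp_101

noncomputable def cut_pp_102_a : Cut := Cut.of [[⟨0, 1, 0, 67108864⟩, ⟨1, 0, 0, 67108864⟩, ⟨2, 1, 0, 67108864⟩]]

noncomputable def f_pp_102_a : ℕ → ℕ → ℕ → ℕ → Bool := onCell 536870912 536870912 0 536870912 134217728 67108864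
    (rowF 0 false true true .npp 1 0 2 (qsf 536870912 536870912 0 536870912 0) ndF5q1 ndF2q2a pcF0 cut_pp_102_a Ext.none)

def k0_pp_102_a : ∃ t, chk3 f_pp_102_a t 1 1 1 = true :=
  ⟨(a (b (a (l 17940272) (l 18085056)) (a (b (l 17882144) (a (l 17737288) (l 17752048))) (b (l 17971312) (b (l 17783288) (a (l 17651536) (l 17543024)))))) (b (a (a (l 18110256) (l 18031584)) (a (b (l 17876416) (a (l 17775064) (l 17515728))) (a (b (l 17433000) (l 16809632)) (b (l 16823120) (b (l 16526080) (l 16563064)))))) (a (b (a (l 17871584) (l 17642160)) (a (b (l 17592744) (l 17317232)) (b (l 17236848) (a (l 16992600) (l 16627712))))) (b (a (a (l 17303672) (b (l 17090816) (l 16597232))) (a (b (l 16547024) (a (l 16571728) (l 16583344))) (b (a (l 16561480) (l 16592208)) (a (l 16637000) (c (l 16651360) (l 16625248)))))) (a (b (a (l 16642328) (b (l 16581312) (l 16604384))) (b (a (l 16600016) (l 16632128)) (a (l 16654264) (b (l 16656840) (l 16704984))))) (b (a (a (l 16655704) (b (l 16614696)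 (l 16641144))) (a (b (l 16628248) (a (l 16652272) (l 16659728))) (b (a (l 16638456) (c (l 16646752) (l 16643728))) (b (c (l 16685112) (l 16661928)) (a (l 16674960) (l 6)))))) (b (a (a (l 16656240) (a (l 16689336) (l 16697456))) (a (a (l 16716056) (l 6)) (l 6))) (a (b (a (l 16682640) (l 16699920)) (a (l 16705928) (l 6))) (l 6))))))))), by decide +kernel⟩

theorem c_pp_102_a : CertF 536870912 536870912 0 536870912 134217728 67108864 false true true .npp 1 0 2
    ndF5q1 ndF2q2a pcF0 cut_pp_102_a Ext.none :=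
  certF0 (fam := false) (s1 := true) (s2 := true) (a := 1) (b := 0) (c := 2) (cn := .npp) (n1 := ndF5q1) (n2 := ndF2q2a) (pc := pcF0) (cut := cut_pp_102_a) (xt := Ext.none) (P1 := 536870912) (W1 := 536870912) (P2 := 0) (W2 := 536870912) (P3 := 134217728) (W3 := 67108864)
    rfl k0_pp_102_a

noncomputable def cut_pp_102_b : Cut := Cut.of [[⟨0, 1, 0, 67108864⟩, ⟨1, 0, 0, 67108864⟩, ⟨2, 1, 0, 67108864⟩]]

noncomputable def f_pp_102_b : ℕ → ℕ → ℕ → ℕ → Bool := onCell 536870912 536870912 0 536870912 134217728 67108864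
    (rowF 1 false true true .npp 1 0 2 (qsf 536870912 536870912 1239849684 370763052 0) ndF5q1 ndF2q2b pcF0 cut_pp_102_b Ext.none)

def k0_pp_102_b : ∃ t, chk3 f_pp_102_b t 1 1 1 = true :=
  ⟨(b (a (l 1) (b (l 1) (a (l 1) (b (a (l 1) (a (l 16618480) (l 16594288))) (a (l 222836563287) (b (l 17572288) (l 18073896))))))) (a (b (l 1) (a (l 1) (l 18013072))) (b (a (a (l 296388984839) (l 339339173911)) (b (a (l 18219656) (l 18556360)) (l 18772184))) (a (l 18525704) (l 19046248))))), by decide +kernel⟩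

theorem c_pp_102_b : CertF 536870912 536870912 1239849684 370763052 134217728 67108864 false true true .npp 1 0 2
    ndF5q1 ndF2q2b pcF0 cut_pp_102_b Ext.none :=
  certF1 (fam := false) (s1 := true) (s2 := true) (a := 1) (b := 0) (c := 2) (cn := .npp) (n1 := ndF5q1) (n2 := ndF2q2b) (pc := pcF0) (cut := cut_pp_102_b) (xt := Ext.none) (P1 := 536870912) (W1 := 536870912) (P2 := 1239849684) (W2 := 370763052) (P3 := 134217728) (W3 := 67108864)
    rfl (fun _ => rfl) k0_pp_102_b

noncomputable def f_pp_112_a : ℕ → ℕ → ℕ → ℕ → Bool := onCell 536870912 536870912 0 536870912 134217728 67108864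
    (rowF 2 false true true .dn 1 1 2 (qsf 536870912 536870912 0 536870912 1) ndF5q1 ndF2q2a pcF1 Cut.none Ext.none)

def k0_pp_112_a : ∃ t, chk3 f_pp_112_a t 1 1 1 = true :=
  ⟨(a (b (l 18366208) (a (l 18273704) (l 18302048))) (l 1)), by decide +kernel⟩

theorem c_pp_112_a : CertF 536870912 536870912 0 536870912 134217728 67108864 false true true .dn 1 1 2
    ndF5q1 ndF2q2a pcF1 Cut.none Ext.none :=
  certF2 (fam := false) (s1 := true) (s2 := true) (a := 1) (b := 1) (c := 2) (cn := .dn) (n1 := ndF5q1) (n2 := ndF2q2a) (pc := pcF1) (cut := Cut.none) (xt := Ext.none) (P1 := 536870912) (W1 := 536870912) (P2 := 0) (W2 := 536870912) (P3 := 134217728) (W3 := 67108864)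
    rfl (fun _ => rfl) k0_pp_112_a

noncomputable def f_pp_112_b : ℕ → ℕ → ℕ → ℕ → Bool := onCell 536870912 536870912 1239849684 370763052 134217728 67108864
    (rowF 2 false true true .dn 1 1 2 (qsf 536870912 536870912 1239849684 370763052 1) ndF5q1 ndF2q2b pcF1 Cut.none Ext.none)

def k0_pp_112_b : ∃ t, chk3 f_pp_112_b t 1 1 1 = true :=
  ⟨(a (a (b (l 18523200) (l 18700528)) (b (l 18408248) (l 18472920))) (b (l 18574488) (l 18266024))), by decide +kernel⟩

theorem c_pp_112_b : CertF 536870912 536870912 1239849684 370763052 134217728 67108864 false true true .dn 1 1 2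
    ndF5q1 ndF2q2b pcF1 Cut.none Ext.none :=
  certF2 (fam := false) (s1 := true) (s2 := true) (a := 1) (b := 1) (c := 2) (cn := .dn) (n1 := ndF5q1) (n2 := ndF2q2b) (pc := pcF1) (cut := Cut.none) (xt := Ext.none) (P1 := 536870912) (W1 := 536870912) (P2 := 1239849684) (W2 := 370763052) (P3 := 134217728) (W3 := 67108864)
    rfl (fun _ => rfl) k0_pp_112_b

noncomputable def f_pp_113 : ℕ → ℕ → ℕ → ℕ → Bool := onCell 536870912 536870912 536870912 536870912 134217728 67108864
    (rowF 1 false true true .nn 1 1 3 (qsf 536870912 536870912 1610612736 536870912 1) ndF5q1 ndF2q3 pcF1 Cut.none Ext.none)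

def k0_pp_113 : ∃ t, chk3 f_pp_113 t 1 1 1 = true :=
  ⟨(a (b (l 522949251159) (l 389804637463)) (b (b (l 18471312) (l 18241504)) (b (l 17906656) (b (l 17619072) (l 17271664))))), by decide +kernel⟩

theorem c_pp_113 : CertF 536870912 536870912 1610612736 536870912 134217728 67108864 false true true .nn 1 1 3
    ndF5q1 ndF2q3 pcF1 Cut.none Ext.none :=
  certF1 (fam := false) (s1 := true) (s2 := true) (a := 1) (b := 1) (c := 3) (cn := .nn) (n1 := ndF5q1) (n2 := ndF2q3) (pc := pcF1) (cut := Cut.none) (xt := Ext.none) (P1 := 536870912) (W1 := 536870912) (P2 := 1610612736) (W2 := 536870912) (P3 := 134217728) (W3 := 67108864)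
    rfl (fun _ => rfl) k0_pp_113

noncomputable def f_pp_123 : ℕ → ℕ → ℕ → ℕ → Bool := onCell 1073741824 536870912 1610612736 536870912 134217728 67108864
    (rowF 2 false true true .npn 1 2 3 (qsf 536870912 536870912 1610612736 536870912 2) ndF5q1 ndF2q3 pcF2 Cut.none Ext.none)

def k0_pp_123 : ∃ t, chk3 f_pp_123 t 1 1 1 = true :=
  ⟨(a (b (a (l 17936240) (l 17865960)) (a (l 17305024) (b (l 17364008) (l 4)))) (b (a (l 17651560) (l 1)) (l 4))), by decide +kernel⟩

theorem c_pp_123 : CertF 536870912 536870912 1610612736 536870912 134217728 67108864 false true true .npn 1 2 3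
    ndF5q1 ndF2q3 pcF2 Cut.none Ext.none :=
  certF2 (fam := false) (s1 := true) (s2 := true) (a := 1) (b := 2) (c := 3) (cn := .npn) (n1 := ndF5q1) (n2 := ndF2q3) (pc := pcF2) (cut := Cut.none) (xt := Ext.none) (P1 := 536870912) (W1 := 536870912) (P2 := 1610612736) (W2 := 536870912) (P3 := 134217728) (W3 := 67108864)
    rfl (fun _ => rfl) k0_pp_123

noncomputable def f_pp_133 : ℕ → ℕ → ℕ → ℕ → Bool := onCell 1610612736 536870912 1610612736 536870912 134217728 67108864
    (rowF 2 false true true .dn 1 3 3 (qsf 536870912 536870912 1610612736 536870912 3) ndF5q1 ndF2q3 pcF3 Cut.none Ext.none)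

def k0_pp_133 : ∃ t, chk3 f_pp_133 t 1 1 1 = true :=
  ⟨(l 4), by decide +kernel⟩

theorem c_pp_133 : CertF 536870912 536870912 1610612736 536870912 134217728 67108864 false true true .dn 1 3 3
    ndF5q1 ndF2q3 pcF3 Cut.none Ext.none :=
  certF2 (fam := false) (s1 := true) (s2 := true) (a := 1) (b := 3) (c := 3) (cn := .dn) (n1 := ndF5q1) (n2 := ndF2q3) (pc := pcF3) (cut := Cut.none) (xt := Ext.none) (P1 := 536870912) (W1 := 536870912) (P2 := 1610612736) (W2 := 536870912) (P3 := 134217728) (W3 := 67108864)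
    rfl (fun _ => rfl) k0_pp_133

noncomputable def cut_pp_202_a : Cut := Cut.of [[⟨0, 1, 0, 67108864⟩, ⟨1, 0, 0, 67108864⟩, ⟨2, 1, 0, 67108864⟩]]

noncomputable def f_pp_202_a : ℕ → ℕ → ℕ → ℕ → Bool := onCell 1073741824 536870912 0 536870912 134217728 67108864
    (rowF 0 false true true .pp 2 0 2 (qsf 1073741824 536870912 0 536870912 0) ndF5q2 ndF2q2a pcF0 cut_pp_202_a Ext.none)

def k0_pp_202_a : ∃ t, chk3 f_pp_202_a t 1 1 1 = true :=
  ⟨(a (b (a (a (b (a (l 16513296) (b (l 16491776) (l 16496208))) (a (b (l 16525328) (c (l 16546968) (l 16539088))) (b (c (l 16510336) (l 16504328)) (c (a (l 16533360) (b (l 16517584) (l 16549992))) (a (l 16527944) (l 112910222439)))))) (c (b (a (b (l 16822952) (a (l 16699160) (l 16669240))) (b (a (l 16789624) (l 161765984359)) (a (l 168745066919) (l 3)))) (a (b (a (l 121500086791) (l 162302241847)) (a (b (l 120426496487) (l 154786081495)) (l 3))) (l 3))) (b (a (b (l 16467616) (l 119352588103)) (a (l 154249185703) (l 203104412423)))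 (a (b (a (l 16490336) (l 158007251223)) (a (l 154786128503) (l 3))) (l 3))))) (l 3)) (a (b (a (a (b (c (a (l 16576296) (l 16568640)) (a (l 16569680) (l 16563528))) (a (c (b (l 16601712) (l 16622784)) (b (l 16596856) (l 16619192))) (b (c (l 16615736) (l 16591344)) (c (a (l 16618000) (b (l 16608720) (l 112373508871))) (a (l 16615432) (l 108078546679)))))) (a (a (b (c (l 16583328) (l 16558448)) (b (c (b (l 16583936) (l 16594120)) (l 16586760)) (c (b (l 112910347767) (l 139753911959)) (b (l 16619736) (l 110762889239))))) (b (c (b (l 16549896) (l 16586976)) (l 110225939223)) (b (c (b (l 113984037943) (l 130627057799)) (l 129016451063)) (l 3)))) (b (b (c (l 116668340727) (l 112373371399)) (c (a (l 137069464551) (l 3)) (l 145659396423))) (l 3)))) (l 3)) (a (a (b (b (a (c (a (l 16648824) (l 16667048)) (a (l 16646208) (l 16644080))) (b (a (c (l 16636344) (l 16634680)) (c (c (l 113447274679) (l 111299790775)) (l 107541697015))) (b (a (c (l 16646384) (l 16645160)) (c (l 135995846807)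 (l 107004835543))) (l 6)))) (l 6)) (l 6)) (l 3)) (l 3))) (l 3))) (l 1)), by decide +kernel⟩

theorem c_pp_202_a : CertF 1073741824 536870912 0 536870912 134217728 67108864 false true true .pp 2 0 2
    ndF5q2 ndF2q2a pcF0 cut_pp_202_a Ext.none :=
  certF0 (fam := false) (s1 := true) (s2 := true) (a := 2) (b := 0) (c := 2) (cn := .pp) (n1 := ndF5q2) (n2 := ndF2q2a) (pc := pcF0) (cut := cut_pp_202_a) (xt := Ext.none) (P1 := 1073741824) (W1 := 536870912) (P2 := 0) (W2 := 536870912) (P3 := 134217728) (W3 := 67108864)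
    rfl k0_pp_202_a

noncomputable def cut_pp_202_b : Cut := Cut.of [[⟨0, 1, 0, 67108864⟩, ⟨1, 0, 0, 67108864⟩, ⟨2, 1, 0, 67108864⟩]]

noncomputable def f_pp_202_b : ℕ → ℕ → ℕ → ℕ → Bool := onCell 1073741824 536870912 1239849684 370763052 134217728 67108864
    (rowF 0 false true true .pp 2 0 2 (qsf 1073741824 536870912 1239849684 370763052 0) ndF5q2 ndF2q2b pcF0 cut_pp_202_b Ext.none)

def k0_pp_202_b : ∃ t, chk3 f_pp_202_b t 1 1 1 = true :=
  ⟨(a (b (a (a (b (b (a (l 16973632) (c (l 17463112) (l 16505384))) (a (l 17964688) (l 17823560))) (b (l 18440536) (l 18780088))) (b (b (a (c (b (l 17126696) (l 17592120)) (l 16466864)) (b (a (c (l 17093280) (l 16433040)) (c (l 134922475623) (l 132774316903))) (c (l 132775864423) (l 127942588519)))) (a (c (l 18111472) (l 17373112)) (c (l 18011504) (b (l 17128320) (l 17470344))))) (b (c (l 18521304) (l 17914080)) (l 18559344)))) (a (b (a (a (b (l 3) (b (l 481741832535) (l 134923818071))) (l 3)) (l 3)) (b (a (c (l 18368008) (l 17798440))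 (l 3)) (a (l 18416232) (l 18185104)))) (l 3))) (a (b (a (l 19067920) (l 18862960)) (a (l 19225456) (l 19038216))) (b (a (b (l 18597072) (l 18744616)) (l 561738719175)) (a (l 18866672) (l 18712416))))) (b (l 3) (a (b (l 3) (a (l 505904251127) (l 3))) (l 3)))), by decide +kernel⟩

theorem c_pp_202_b : CertF 1073741824 536870912 1239849684 370763052 134217728 67108864 false true true .pp 2 0 2
    ndF5q2 ndF2q2b pcF0 cut_pp_202_b Ext.none :=
  certF0 (fam := false) (s1 := true) (s2 := true) (a := 2) (b := 0) (c := 2) (cn := .pp) (n1 := ndF5q2) (n2 := ndF2q2b) (pc := pcF0) (cut := cut_pp_202_b) (xt := Ext.none) (P1 := 1073741824) (W1 := 536870912) (P2 := 1239849684) (W2 := 370763052) (P3 := 134217728) (W3 := 67108864)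
    rfl k0_pp_202_b

noncomputable def f_pp_203 : ℕ → ℕ → ℕ → ℕ → Bool := onCell 1073741824 536870912 0 536870912 134217728 67108864
    (rowF 1 false true true .up 2 0 3 (qsf 1073741824 536870912 1610612736 536870912 0) ndF5q2 ndF2q3 pcF0 Cut.none Ext.none)

def k0_pp_203 : ∃ t, chk3 f_pp_203 t 1 1 1 = true :=
  ⟨(b (a (b (l 1) (a (l 1) (l 471409999799))) (b (l 3) (a (l 512883695031) (l 3)))) (a (b (a (l 501475823751) (l 18813272)) (a (l 19025032) (l 18758328))) (b (a (l 18569152) (l 18268152)) (a (l 18445664) (l 18150272))))), by decide +kernel⟩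

theorem c_pp_203 : CertF 1073741824 536870912 1610612736 536870912 134217728 67108864 false true true .up 2 0 3
    ndF5q2 ndF2q3 pcF0 Cut.none Ext.none :=
  certF1 (fam := false) (s1 := true) (s2 := true) (a := 2) (b := 0) (c := 3) (cn := .up) (n1 := ndF5q2) (n2 := ndF2q3) (pc := pcF0) (cut := Cut.none) (xt := Ext.none) (P1 := 1073741824) (W1 := 536870912) (P2 := 1610612736) (W2 := 536870912) (P3 := 134217728) (W3 := 67108864)
    rfl (fun _ => rfl) k0_pp_203

noncomputable def f_pp_213 : ℕ → ℕ → ℕ → ℕ → Bool := onCell 536870912 536870912 1610612736 536870912 134217728 67108864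
    (rowF 2 false true true .pnn 2 1 3 (qsf 1073741824 536870912 1610612736 536870912 1) ndF5q2 ndF2q3 pcF1 Cut.none Ext.none)

def k0_pp_213 : ∃ t, chk3 f_pp_213 t 1 1 1 = true :=
  ⟨(a (b (a (b (l 18607592) (l 18205568)) (b (l 18712632) (l 18305408))) (a (b (l 17799304) (l 17383048)) (b (l 17874176) (l 17422816)))) (b (a (l 18671152) (l 1)) (a (a (l 17634168) (l 17580232)) (a (b (l 17751608) (l 17225216)) (l 17389128))))), by decide +kernel⟩

theorem c_pp_213 : CertF 1073741824 536870912 1610612736 536870912 134217728 67108864 false true true .pnn 2 1 3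
    ndF5q2 ndF2q3 pcF1 Cut.none Ext.none :=
  certF2 (fam := false) (s1 := true) (s2 := true) (a := 2) (b := 1) (c := 3) (cn := .pnn) (n1 := ndF5q2) (n2 := ndF2q3) (pc := pcF1) (cut := Cut.none) (xt := Ext.none) (P1 := 1073741824) (W1 := 536870912) (P2 := 1610612736) (W2 := 536870912) (P3 := 134217728) (W3 := 67108864)
    rfl (fun _ => rfl) k0_pp_213

noncomputable def f_pp_303 : ℕ → ℕ → ℕ → ℕ → Bool := onCell 0 1230186008 1610612736 536870912 134217728 67108864
    (rowF 0 false true true .npn 3 0 3 (qsf 0 1230186008 1610612736 536870912 0) ndF5q3 ndF2q3 pcF0 Cut.none Ext.none)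

def k0_pp_303 : ∃ t, chk3 f_pp_303 t 1 1 1 = true :=
  ⟨(a (l 3) (a (l 3) (b (l 3) (a (b (l 3) (l 351820480615)) (b (a (l 3) (l 18042488)) (a (l 17762016) (l 201497000119))))))), by decide +kernel⟩

theorem c_pp_303 : CertF 0 1230186008 1610612736 536870912 134217728 67108864 false true true .npn 3 0 3
    ndF5q3 ndF2q3 pcF0 Cut.none Ext.none :=
  certF0 (fam := false) (s1 := true) (s2 := true) (a := 3) (b := 0) (c := 3) (cn := .npn) (n1 := ndF5q3) (n2 := ndF2q3) (pc := pcF0) (cut := Cut.none) (xt := Ext.none) (P1 := 0) (W1 := 1230186008) (P2 := 1610612736) (W2 := 536870912) (P3 := 134217728) (W3 := 67108864)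
    rfl k0_pp_303

noncomputable def f_pp_313 : ℕ → ℕ → ℕ → ℕ → Bool := onCell 0 1230186008 1610612736 536870912 134217728 67108864
    (rowF 0 false true true .dn 3 1 3 (qsf 0 1230186008 1610612736 536870912 1) ndF5q3 ndF2q3 pcF1 Cut.none Ext.none)

def k0_pp_313 : ∃ t, chk3 f_pp_313 t 1 1 1 = true :=
  ⟨(a (l 1) (a (l 1) (b (l 1) (a (l 1) (b (l 1) (a (l 1) (b (l 1) (l 17248304)))))))), by decide +kernel⟩

theorem c_pp_313 : CertF 0 1230186008 1610612736 536870912 134217728 67108864 false true true .dn 3 1 3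
    ndF5q3 ndF2q3 pcF1 Cut.none Ext.none :=
  certF0 (fam := false) (s1 := true) (s2 := true) (a := 3) (b := 1) (c := 3) (cn := .dn) (n1 := ndF5q3) (n2 := ndF2q3) (pc := pcF1) (cut := Cut.none) (xt := Ext.none) (P1 := 0) (W1 := 1230186008) (P2 := 1610612736) (W2 := 536870912) (P3 := 134217728) (W3 := 67108864)
    rfl k0_pp_313

noncomputable def f_pm_001 : ℕ → ℕ → ℕ → ℕ → Bool := onCell 0 536870912 536870912 536870912 134217728 67108864
    (rowF 0 false true false .up 0 0 1 (qsf 0 536870912 536870912 536870912 0) ndF5q0 ndF2q1 pcF0 Cut.none Ext.none)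

def k0_pm_001 : ∃ t, chk3 f_pm_001 t 1 1 1 = true :=
  ⟨(l 4), by decide +kernel⟩

theorem c_pm_001 : CertF 0 536870912 536870912 536870912 134217728 67108864 false true false .up 0 0 1
    ndF5q0 ndF2q1 pcF0 Cut.none Ext.none :=
  certF0 (fam := false) (s1 := true) (s2 := false) (a := 0) (b := 0) (c := 1) (cn := .up) (n1 := ndF5q0) (n2 := ndF2q1) (pc := pcF0) (cut := Cut.none) (xt := Ext.none) (P1 := 0) (W1 := 536870912) (P2 := 536870912) (W2 := 536870912) (P3 := 134217728) (W3 := 67108864)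
    rfl k0_pm_001

noncomputable def f_pm_011 : ℕ → ℕ → ℕ → ℕ → Bool := onCell 0 536870912 536870912 536870912 134217728 67108864
    (rowF 0 false true false .pnn 0 1 1 (qsf 0 536870912 536870912 536870912 1) ndF5q0 ndF2q1 pcF1 Cut.none Ext.none)

def k0_pm_011 : ∃ t, chk3 f_pm_011 t 1 1 1 = true :=
  ⟨(l 4), by decide +kernel⟩

theorem c_pm_011 : CertF 0 536870912 536870912 536870912 134217728 67108864 false true false .pnn 0 1 1
    ndF5q0 ndF2q1 pcF1 Cut.none Ext.none :=
  certF0 (fam := false) (s1 := true) (s2 := false) (a := 0) (b := 1) (c := 1) (cn := .pnn) (n1 := ndF5q0) (n2 := ndF2q1) (pc := pcF1) (cut := Cut.none) (xt := Ext.none) (P1 := 0) (W1 := 536870912) (P2 := 536870912) (W2 := 536870912) (P3 := 134217728) (W3 := 67108864)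
    rfl k0_pm_011

noncomputable def f_pm_012_a : ℕ → ℕ → ℕ → ℕ → Bool := onCell 0 536870912 0 536870912 134217728 67108864
    (rowF 0 false true false .pnp 0 1 2 (qsf 0 536870912 0 536870912 1) ndF5q0 ndF2q2a pcF1 Cut.none Ext.none)

def k0_pm_012_a : ∃ t, chk3 f_pm_012_a t 1 1 1 = true :=
  ⟨(l 4), by decide +kernel⟩

theorem c_pm_012_a : CertF 0 536870912 0 536870912 134217728 67108864 false true false .pnp 0 1 2
    ndF5q0 ndF2q2a pcF1 Cut.none Ext.none :=
  certF0 (fam := false) (s1 := true) (s2 := false) (a := 0) (b := 1) (c := 2) (cn := .pnp) (n1 := ndF5q0) (n2 := ndF2q2a) (pc := pcF1) (cut := Cut.none) (xt := Ext.none) (P1 := 0) (W1 := 536870912) (P2 := 0) (W2 := 536870912) (P3 := 134217728) (W3 := 67108864)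
    rfl k0_pm_012_a

noncomputable def f_pm_012_b : ℕ → ℕ → ℕ → ℕ → Bool := onCell 0 536870912 1239849684 370763052 134217728 67108864
    (rowF 0 false true false .pnp 0 1 2 (qsf 0 536870912 1239849684 370763052 1) ndF5q0 ndF2q2b pcF1 Cut.none Ext.none)

def k0_pm_012_b : ∃ t, chk3 f_pm_012_b t 1 1 1 = true :=
  ⟨(l 4), by decide +kernel⟩

theorem c_pm_012_b : CertF 0 536870912 1239849684 370763052 134217728 67108864 false true false .pnp 0 1 2
    ndF5q0 ndF2q2b pcF1 Cut.none Ext.none :=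
  certF0 (fam := false) (s1 := true) (s2 := false) (a := 0) (b := 1) (c := 2) (cn := .pnp) (n1 := ndF5q0) (n2 := ndF2q2b) (pc := pcF1) (cut := Cut.none) (xt := Ext.none) (P1 := 0) (W1 := 536870912) (P2 := 1239849684) (W2 := 370763052) (P3 := 134217728) (W3 := 67108864)
    rfl k0_pm_012_b

noncomputable def f_pm_022_a : ℕ → ℕ → ℕ → ℕ → Bool := onCell 0 536870912 0 536870912 134217728 67108864
    (rowF 0 false true false .pp 0 2 2 (qsf 0 536870912 0 536870912 2) ndF5q0 ndF2q2a pcF2 Cut.none Ext.none)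

def k0_pm_022_a : ∃ t, chk3 f_pm_022_a t 1 1 1 = true :=
  ⟨(l 4), by decide +kernel⟩

theorem c_pm_022_a : CertF 0 536870912 0 536870912 134217728 67108864 false true false .pp 0 2 2
    ndF5q0 ndF2q2a pcF2 Cut.none Ext.none :=
  certF0 (fam := false) (s1 := true) (s2 := false) (a := 0) (b := 2) (c := 2) (cn := .pp) (n1 := ndF5q0) (n2 := ndF2q2a) (pc := pcF2) (cut := Cut.none) (xt := Ext.none) (P1 := 0) (W1 := 536870912) (P2 := 0) (W2 := 536870912) (P3 := 134217728) (W3 := 67108864)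
    rfl k0_pm_022_a

noncomputable def f_pm_022_b : ℕ → ℕ → ℕ → ℕ → Bool := onCell 0 536870912 1239849684 370763052 134217728 67108864
    (rowF 0 false true false .pp 0 2 2 (qsf 0 536870912 1239849684 370763052 2) ndF5q0 ndF2q2b pcF2 Cut.none Ext.none)

def k0_pm_022_b : ∃ t, chk3 f_pm_022_b t 1 1 1 = true :=
  ⟨(l 4), by decide +kernel⟩

theorem c_pm_022_b : CertF 0 536870912 1239849684 370763052 134217728 67108864 false true false .pp 0 2 2
    ndF5q0 ndF2q2b pcF2 Cut.none Ext.none :=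
  certF0 (fam := false) (s1 := true) (s2 := false) (a := 0) (b := 2) (c := 2) (cn := .pp) (n1 := ndF5q0) (n2 := ndF2q2b) (pc := pcF2) (cut := Cut.none) (xt := Ext.none) (P1 := 0) (W1 := 536870912) (P2 := 1239849684) (W2 := 370763052) (P3 := 134217728) (W3 := 67108864)
    rfl k0_pm_022_b

noncomputable def f_pm_023 : ℕ → ℕ → ℕ → ℕ → Bool := onCell 0 536870912 1610612736 536870912 134217728 67108864
    (rowF 0 false true false .up 0 2 3 (qsf 0 536870912 1610612736 536870912 2) ndF5q0 ndF2q3 pcF2 Cut.none Ext.none)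

def k0_pm_023 : ∃ t, chk3 f_pm_023 t 1 1 1 = true :=
  ⟨(l 4), by decide +kernel⟩

theorem c_pm_023 : CertF 0 536870912 1610612736 536870912 134217728 67108864 false true false .up 0 2 3
    ndF5q0 ndF2q3 pcF2 Cut.none Ext.none :=
  certF0 (fam := false) (s1 := true) (s2 := false) (a := 0) (b := 2) (c := 3) (cn := .up) (n1 := ndF5q0) (n2 := ndF2q3) (pc := pcF2) (cut := Cut.none) (xt := Ext.none) (P1 := 0) (W1 := 536870912) (P2 := 1610612736) (W2 := 536870912) (P3 := 134217728) (W3 := 67108864)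
    rfl k0_pm_023

noncomputable def f_pm_033 : ℕ → ℕ → ℕ → ℕ → Bool := onCell 0 536870912 1610612736 536870912 134217728 67108864
    (rowF 0 false true false .pnn 0 3 3 (qsf 0 536870912 1610612736 536870912 3) ndF5q0 ndF2q3 pcF3 Cut.none Ext.none)

def k0_pm_033 : ∃ t, chk3 f_pm_033 t 1 1 1 = true :=
  ⟨(l 4), by decide +kernel⟩

theorem c_pm_033 : CertF 0 536870912 1610612736 536870912 134217728 67108864 false true false .pnn 0 3 3
    ndF5q0 ndF2q3 pcF3 Cut.none Ext.none :=
  certF0 (fam := false) (s1 := true) (s2 := false) (a := 0) (b := 3) (c := 3) (cn := .pnn) (n1 := ndF5q0) (n2 := ndF2q3) (pc := pcF3) (cut := Cut.none) (xt := Ext.none) (P1 := 0) (W1 := 536870912) (P2 := 1610612736) (W2 := 536870912) (P3 := 134217728) (W3 := 67108864)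
    rfl k0_pm_033

noncomputable def f_pm_101 : ℕ → ℕ → ℕ → ℕ → Bool := onCell 536870912 536870912 536870912 536870912 134217728 67108864
    (rowF 0 false true false .npn 1 0 1 (qsf 536870912 536870912 536870912 536870912 0) ndF5q1 ndF2q1 pcF0 Cut.none Ext.none)

def k0_pm_101 : ∃ t, chk3 f_pm_101 t 1 1 1 = true :=
  ⟨(l 4), by decide +kernel⟩

theorem c_pm_101 : CertF 536870912 536870912 536870912 536870912 134217728 67108864 false true false .npn 1 0 1
    ndF5q1 ndF2q1 pcF0 Cut.none Ext.none :=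
  certF0 (fam := false) (s1 := true) (s2 := false) (a := 1) (b := 0) (c := 1) (cn := .npn) (n1 := ndF5q1) (n2 := ndF2q1) (pc := pcF0) (cut := Cut.none) (xt := Ext.none) (P1 := 536870912) (W1 := 536870912) (P2 := 536870912) (W2 := 536870912) (P3 := 134217728) (W3 := 67108864)
    rfl k0_pm_101

noncomputable def f_pm_102_a : ℕ → ℕ → ℕ → ℕ → Bool := onCell 536870912 536870912 0 536870912 134217728 67108864
    (rowF 0 false true false .npp 1 0 2 (qsf 536870912 536870912 0 536870912 0) ndF5q1 ndF2q2a pcF0 Cut.none Ext.none)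

def k0_pm_102_a : ∃ t, chk3 f_pm_102_a t 1 1 1 = true :=
  ⟨(l 4), by decide +kernel⟩

theorem c_pm_102_a : CertF 536870912 536870912 0 536870912 134217728 67108864 false true false .npp 1 0 2
    ndF5q1 ndF2q2a pcF0 Cut.none Ext.none :=
  certF0 (fam := false) (s1 := true) (s2 := false) (a := 1) (b := 0) (c := 2) (cn := .npp) (n1 := ndF5q1) (n2 := ndF2q2a) (pc := pcF0) (cut := Cut.none) (xt := Ext.none) (P1 := 536870912) (W1 := 536870912) (P2 := 0) (W2 := 536870912) (P3 := 134217728) (W3 := 67108864)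
    rfl k0_pm_102_a

noncomputable def f_pm_102_b : ℕ → ℕ → ℕ → ℕ → Bool := onCell 536870912 536870912 1239849684 370763052 134217728 67108864
    (rowF 0 false true false .npp 1 0 2 (qsf 536870912 536870912 1239849684 370763052 0) ndF5q1 ndF2q2b pcF0 Cut.none Ext.none)

def k0_pm_102_b : ∃ t, chk3 f_pm_102_b t 1 1 1 = true :=
  ⟨(l 4), by decide +kernel⟩

theorem c_pm_102_b : CertF 536870912 536870912 1239849684 370763052 134217728 67108864 false true false .npp 1 0 2
    ndF5q1 ndF2q2b pcF0 Cut.none Ext.none :=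
  certF0 (fam := false) (s1 := true) (s2 := false) (a := 1) (b := 0) (c := 2) (cn := .npp) (n1 := ndF5q1) (n2 := ndF2q2b) (pc := pcF0) (cut := Cut.none) (xt := Ext.none) (P1 := 536870912) (W1 := 536870912) (P2 := 1239849684) (W2 := 370763052) (P3 := 134217728) (W3 := 67108864)
    rfl k0_pm_102_b

noncomputable def f_pm_112_a : ℕ → ℕ → ℕ → ℕ → Bool := onCell 536870912 536870912 0 536870912 134217728 67108864
    (rowF 0 false true false .dn 1 1 2 (qsf 536870912 536870912 0 536870912 1) ndF5q1 ndF2q2a pcF1 Cut.none Ext.none)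

def k0_pm_112_a : ∃ t, chk3 f_pm_112_a t 1 1 1 = true :=
  ⟨(l 4), by decide +kernel⟩

theorem c_pm_112_a : CertF 536870912 536870912 0 536870912 134217728 67108864 false true false .dn 1 1 2
    ndF5q1 ndF2q2a pcF1 Cut.none Ext.none :=
  certF0 (fam := false) (s1 := true) (s2 := false) (a := 1) (b := 1) (c := 2) (cn := .dn) (n1 := ndF5q1) (n2 := ndF2q2a) (pc := pcF1) (cut := Cut.none) (xt := Ext.none) (P1 := 536870912) (W1 := 536870912) (P2 := 0) (W2 := 536870912) (P3 := 134217728) (W3 := 67108864)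
    rfl k0_pm_112_a

noncomputable def f_pm_112_b : ℕ → ℕ → ℕ → ℕ → Bool := onCell 536870912 536870912 1239849684 370763052 134217728 67108864
    (rowF 0 false true false .dn 1 1 2 (qsf 536870912 536870912 1239849684 370763052 1) ndF5q1 ndF2q2b pcF1 Cut.none Ext.none)

def k0_pm_112_b : ∃ t, chk3 f_pm_112_b t 1 1 1 = true :=
  ⟨(l 4), by decide +kernel⟩

theorem c_pm_112_b : CertF 536870912 536870912 1239849684 370763052 134217728 67108864 false true false .dn 1 1 2
    ndF5q1 ndF2q2b pcF1 Cut.none Ext.none :=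
  certF0 (fam := false) (s1 := true) (s2 := false) (a := 1) (b := 1) (c := 2) (cn := .dn) (n1 := ndF5q1) (n2 := ndF2q2b) (pc := pcF1) (cut := Cut.none) (xt := Ext.none) (P1 := 536870912) (W1 := 536870912) (P2 := 1239849684) (W2 := 370763052) (P3 := 134217728) (W3 := 67108864)
    rfl k0_pm_112_b

noncomputable def f_pm_113 : ℕ → ℕ → ℕ → ℕ → Bool := onCell 536870912 536870912 536870912 536870912 134217728 67108864
    (rowF 1 false true false .nn 1 1 3 (qsf 536870912 536870912 1610612736 536870912 1) ndF5q1 ndF2q3 pcF1 Cut.none Ext.none)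

def k0_pm_113 : ∃ t, chk3 f_pm_113 t 1 1 1 = true :=
  ⟨(b (l 4) (b (l 4) (b (l 4) (l 117275082167)))), by decide +kernel⟩

theorem c_pm_113 : CertF 536870912 536870912 1610612736 536870912 134217728 67108864 false true false .nn 1 1 3
    ndF5q1 ndF2q3 pcF1 Cut.none Ext.none :=
  certF1 (fam := false) (s1 := true) (s2 := false) (a := 1) (b := 1) (c := 3) (cn := .nn) (n1 := ndF5q1) (n2 := ndF2q3) (pc := pcF1) (cut := Cut.none) (xt := Ext.none) (P1 := 536870912) (W1 := 536870912) (P2 := 1610612736) (W2 := 536870912) (P3 := 134217728) (W3 := 67108864)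
    rfl (fun _ => rfl) k0_pm_113

noncomputable def f_pm_123 : ℕ → ℕ → ℕ → ℕ → Bool := onCell 1073741824 536870912 1610612736 536870912 134217728 67108864
    (rowF 2 false true false .npn 1 2 3 (qsf 536870912 536870912 1610612736 536870912 2) ndF5q1 ndF2q3 pcF2 Cut.none Ext.none)

def k0_pm_123 : ∃ t, chk3 f_pm_123 t 1 1 1 = true :=
  ⟨(a (b (l 4) (a (l 17436456) (l 4))) (l 4)), by decide +kernel⟩

theorem c_pm_123 : CertF 536870912 536870912 1610612736 536870912 134217728 67108864 false true false .npn 1 2 3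
    ndF5q1 ndF2q3 pcF2 Cut.none Ext.none :=
  certF2 (fam := false) (s1 := true) (s2 := false) (a := 1) (b := 2) (c := 3) (cn := .npn) (n1 := ndF5q1) (n2 := ndF2q3) (pc := pcF2) (cut := Cut.none) (xt := Ext.none) (P1 := 536870912) (W1 := 536870912) (P2 := 1610612736) (W2 := 536870912) (P3 := 134217728) (W3 := 67108864)
    rfl (fun _ => rfl) k0_pm_123

noncomputable def f_pm_133 : ℕ → ℕ → ℕ → ℕ → Bool := onCell 1610612736 536870912 1610612736 536870912 134217728 67108864
    (rowF 2 false true false .dn 1 3 3 (qsf 536870912 536870912 1610612736 536870912 3) ndF5q1 ndF2q3 pcF3 Cut.none Ext.none)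

def k0_pm_133 : ∃ t, chk3 f_pm_133 t 1 1 1 = true :=
  ⟨(l 4), by decide +kernel⟩

theorem c_pm_133 : CertF 536870912 536870912 1610612736 536870912 134217728 67108864 false true false .dn 1 3 3
    ndF5q1 ndF2q3 pcF3 Cut.none Ext.none :=
  certF2 (fam := false) (s1 := true) (s2 := false) (a := 1) (b := 3) (c := 3) (cn := .dn) (n1 := ndF5q1) (n2 := ndF2q3) (pc := pcF3) (cut := Cut.none) (xt := Ext.none) (P1 := 536870912) (W1 := 536870912) (P2 := 1610612736) (W2 := 536870912) (P3 := 134217728) (W3 := 67108864)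
    rfl (fun _ => rfl) k0_pm_133

noncomputable def f_pm_202_a : ℕ → ℕ → ℕ → ℕ → Bool := onCell 0 536870912 0 536870912 134217728 67108864
    (rowF 2 false true false .pp 2 0 2 (qsf 1073741824 536870912 0 536870912 0) ndF5q2 ndF2q2a pcF0 Cut.none Ext.none)

def k0_pm_202_a : ∃ t, chk3 f_pm_202_a t 1 1 1 = true :=
  ⟨(l 4), by decide +kernel⟩

theorem c_pm_202_a : CertF 1073741824 536870912 0 536870912 134217728 67108864 false true false .pp 2 0 2
    ndF5q2 ndF2q2a pcF0 Cut.none Ext.none :=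
  certF2 (fam := false) (s1 := true) (s2 := false) (a := 2) (b := 0) (c := 2) (cn := .pp) (n1 := ndF5q2) (n2 := ndF2q2a) (pc := pcF0) (cut := Cut.none) (xt := Ext.none) (P1 := 1073741824) (W1 := 536870912) (P2 := 0) (W2 := 536870912) (P3 := 134217728) (W3 := 67108864)
    rfl (fun _ => rfl) k0_pm_202_a

noncomputable def f_pm_202_b : ℕ → ℕ → ℕ → ℕ → Bool := onCell 0 536870912 1239849684 370763052 134217728 67108864
    (rowF 2 false true false .pp 2 0 2 (qsf 1073741824 536870912 1239849684 370763052 0) ndF5q2 ndF2q2b pcF0 Cut.none Ext.none)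

def k0_pm_202_b : ∃ t, chk3 f_pm_202_b t 1 1 1 = true :=
  ⟨(a (b (a (b (l 4) (l 18659080)) (l 4)) (a (b (l 18274632) (l 17879296)) (l 18443744))) (a (b (l 4) (l 18683464)) (l 4))), by decide +kernel⟩

theorem c_pm_202_b : CertF 1073741824 536870912 1239849684 370763052 134217728 67108864 false true false .pp 2 0 2
    ndF5q2 ndF2q2b pcF0 Cut.none Ext.none :=
  certF2 (fam := false) (s1 := true) (s2 := false) (a := 2) (b := 0) (c := 2) (cn := .pp) (n1 := ndF5q2) (n2 := ndF2q2b) (pc := pcF0) (cut := Cut.none) (xt := Ext.none) (P1 := 1073741824) (W1 := 536870912) (P2 := 1239849684) (W2 := 370763052) (P3 := 134217728) (W3 := 67108864)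
    rfl (fun _ => rfl) k0_pm_202_b

noncomputable def f_pm_203 : ℕ → ℕ → ℕ → ℕ → Bool := onCell 1073741824 536870912 0 536870912 134217728 67108864
    (rowF 1 false true false .up 2 0 3 (qsf 1073741824 536870912 1610612736 536870912 0) ndF5q2 ndF2q3 pcF0 Cut.none Ext.none)

def k0_pm_203 : ∃ t, chk3 f_pm_203 t 1 1 1 = true :=
  ⟨(b (a (b (l 1) (l 18576120)) (a (l 285114418775) (b (l 17702760) (l 17782144)))) (a (b (l 18519848) (l 18447064)) (b (a (l 18125896) (b (l 18121448) (l 18437104))) (a (l 18464768) (l 18210568))))), by decide +kernel⟩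

theorem c_pm_203 : CertF 1073741824 536870912 1610612736 536870912 134217728 67108864 false true false .up 2 0 3
    ndF5q2 ndF2q3 pcF0 Cut.none Ext.none :=
  certF1 (fam := false) (s1 := true) (s2 := false) (a := 2) (b := 0) (c := 3) (cn := .up) (n1 := ndF5q2) (n2 := ndF2q3) (pc := pcF0) (cut := Cut.none) (xt := Ext.none) (P1 := 1073741824) (W1 := 536870912) (P2 := 1610612736) (W2 := 536870912) (P3 := 134217728) (W3 := 67108864)
    rfl (fun _ => rfl) k0_pm_203

noncomputable def f_pm_213 : ℕ → ℕ → ℕ → ℕ → Bool := onCell 536870912 536870912 1610612736 536870912 134217728 67108864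
    (rowF 2 false true false .pnn 2 1 3 (qsf 1073741824 536870912 1610612736 536870912 1) ndF5q2 ndF2q3 pcF1 Cut.none Ext.none)

def k0_pm_213 : ∃ t, chk3 f_pm_213 t 1 1 1 = true :=
  ⟨(a (b (a (l 18144128) (l 4)) (a (b (l 17402280) (a (l 17300080) (l 17167928))) (b (l 17473056) (l 17236688)))) (b (l 4) (b (l 17672432) (a (a (l 17188152) (l 17145144)) (a (l 17326200) (l 17123760)))))), by decide +kernel⟩

theorem c_pm_213 : CertF 1073741824 536870912 1610612736 536870912 134217728 67108864 false true false .pnn 2 1 3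
    ndF5q2 ndF2q3 pcF1 Cut.none Ext.none :=
  certF2 (fam := false) (s1 := true) (s2 := false) (a := 2) (b := 1) (c := 3) (cn := .pnn) (n1 := ndF5q2) (n2 := ndF2q3) (pc := pcF1) (cut := Cut.none) (xt := Ext.none) (P1 := 1073741824) (W1 := 536870912) (P2 := 1610612736) (W2 := 536870912) (P3 := 134217728) (W3 := 67108864)
    rfl (fun _ => rfl) k0_pm_213

noncomputable def f_pm_303 : ℕ → ℕ → ℕ → ℕ → Bool := onCell 0 1230186008 1610612736 536870912 134217728 67108864
    (rowF 0 false true false .npn 3 0 3 (qsf 0 1230186008 1610612736 536870912 0) ndF5q3 ndF2q3 pcF0 Cut.none Ext.none)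

def k0_pm_303 : ∃ t, chk3 f_pm_303 t 1 1 1 = true :=
  ⟨(b (a (l 1) (a (a (l 1) (b (l 1) (b (l 1) (l 638375160311)))) (a (b (l 1) (b (l 17482456) (l 17794560))) (b (l 281892631031) (l 17978064))))) (a (l 3) (a (a (l 3) (b (b (b (l 18097248) (l 17944376)) (l 17840440)) (l 271289719415))) (a (b (a (l 17983888) (l 18227680)) (a (l 17695544) (l 17773272))) (b (b (l 17906248) (l 18121592)) (a (l 17859784) (l 18145184))))))), by decide +kernel⟩

theorem c_pm_303 : CertF 0 1230186008 1610612736 536870912 134217728 67108864 false true false .npn 3 0 3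
    ndF5q3 ndF2q3 pcF0 Cut.none Ext.none :=
  certF0 (fam := false) (s1 := true) (s2 := false) (a := 3) (b := 0) (c := 3) (cn := .npn) (n1 := ndF5q3) (n2 := ndF2q3) (pc := pcF0) (cut := Cut.none) (xt := Ext.none) (P1 := 0) (W1 := 1230186008) (P2 := 1610612736) (W2 := 536870912) (P3 := 134217728) (W3 := 67108864)
    rfl k0_pm_303

noncomputable def f_pm_313 : ℕ → ℕ → ℕ → ℕ → Bool := onCell 0 1230186008 1610612736 536870912 134217728 67108864
    (rowF 0 false true false .dn 3 1 3 (qsf 0 1230186008 1610612736 536870912 1) ndF5q3 ndF2q3 pcF1 Cut.none Ext.none)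

def k0_pm_313 : ∃ t, chk3 f_pm_313 t 1 1 1 = true :=
  ⟨(a (l 1) (a (l 1) (b (l 1) (a (l 1) (b (l 1) (a (l 1) (b (l 1) (l 17074040)))))))), by decide +kernel⟩

theorem c_pm_313 : CertF 0 1230186008 1610612736 536870912 134217728 67108864 false true false .dn 3 1 3
    ndF5q3 ndF2q3 pcF1 Cut.none Ext.none :=
  certF0 (fam := false) (s1 := true) (s2 := false) (a := 3) (b := 1) (c := 3) (cn := .dn) (n1 := ndF5q3) (n2 := ndF2q3) (pc := pcF1) (cut := Cut.none) (xt := Ext.none) (P1 := 0) (W1 := 1230186008) (P2 := 1610612736) (W2 := 536870912) (P3 := 134217728) (W3 := 67108864)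
    rfl k0_pm_313

noncomputable def f_mm_001 : ℕ → ℕ → ℕ → ℕ → Bool := onCell 0 536870912 536870912 536870912 134217728 67108864
    (rowF 0 false false false .up 0 0 1 (qsf 0 536870912 536870912 536870912 0) ndF5q0 ndF2q1 pcF0 Cut.none Ext.none)

def k0_mm_001 : ∃ t, chk3 f_mm_001 t 1 1 1 = true :=
  ⟨(l 3), by decide +kernel⟩

theorem c_mm_001 : CertF 0 536870912 536870912 536870912 134217728 67108864 false false false .up 0 0 1
    ndF5q0 ndF2q1 pcF0 Cut.none Ext.none :=
  certF0 (fam := false) (s1 := false) (s2 := false) (a := 0) (b := 0) (c := 1) (cn := .up) (n1 := ndF5q0) (n2 := ndF2q1) (pc := pcF0) (cut := Cut.none) (xt := Ext.none) (P1 := 0) (W1 := 536870912) (P2 := 536870912) (W2 := 536870912) (P3 := 134217728) (W3 := 67108864)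
    rfl k0_mm_001

noncomputable def f_mm_011 : ℕ → ℕ → ℕ → ℕ → Bool := onCell 0 536870912 536870912 536870912 134217728 67108864
    (rowF 0 false false false .pnn 0 1 1 (qsf 0 536870912 536870912 536870912 1) ndF5q0 ndF2q1 pcF1 Cut.none Ext.none)

def k0_mm_011 : ∃ t, chk3 f_mm_011 t 1 1 1 = true :=
  ⟨(l 3), by decide +kernel⟩

theorem c_mm_011 : CertF 0 536870912 536870912 536870912 134217728 67108864 false false false .pnn 0 1 1
    ndF5q0 ndF2q1 pcF1 Cut.none Ext.none :=
  certF0 (fam := false) (s1 := false) (s2 := false) (a := 0) (b := 1) (c := 1) (cn := .pnn) (n1 := ndF5q0) (n2 := ndF2q1) (pc := pcF1) (cut := Cut.none) (xt := Ext.none) (P1 := 0) (W1 := 536870912) (P2 := 536870912) (W2 := 536870912) (P3 := 134217728) (W3 := 67108864)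
    rfl k0_mm_011

noncomputable def f_mm_012_a : ℕ → ℕ → ℕ → ℕ → Bool := onCell 0 536870912 0 536870912 134217728 67108864
    (rowF 0 false false false .pnp 0 1 2 (qsf 0 536870912 0 536870912 1) ndF5q0 ndF2q2a pcF1 Cut.none Ext.none)

def k0_mm_012_a : ∃ t, chk3 f_mm_012_a t 1 1 1 = true :=
  ⟨(l 5), by decide +kernel⟩

theorem c_mm_012_a : CertF 0 536870912 0 536870912 134217728 67108864 false false false .pnp 0 1 2
    ndF5q0 ndF2q2a pcF1 Cut.none Ext.none :=
  certF0 (fam := false) (s1 := false) (s2 := false) (a := 0) (b := 1) (c := 2) (cn := .pnp) (n1 := ndF5q0) (n2 := ndF2q2a) (pc := pcF1) (cut := Cut.none) (xt := Ext.none) (P1 := 0) (W1 := 536870912) (P2 := 0) (W2 := 536870912) (P3 := 134217728) (W3 := 67108864)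
    rfl k0_mm_012_a

noncomputable def f_mm_012_b : ℕ → ℕ → ℕ → ℕ → Bool := onCell 0 536870912 1239849684 370763052 134217728 67108864
    (rowF 0 false false false .pnp 0 1 2 (qsf 0 536870912 1239849684 370763052 1) ndF5q0 ndF2q2b pcF1 Cut.none Ext.none)

def k0_mm_012_b : ∃ t, chk3 f_mm_012_b t 1 1 1 = true :=
  ⟨(l 5), by decide +kernel⟩

theorem c_mm_012_b : CertF 0 536870912 1239849684 370763052 134217728 67108864 false false false .pnp 0 1 2
    ndF5q0 ndF2q2b pcF1 Cut.none Ext.none :=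
  certF0 (fam := false) (s1 := false) (s2 := false) (a := 0) (b := 1) (c := 2) (cn := .pnp) (n1 := ndF5q0) (n2 := ndF2q2b) (pc := pcF1) (cut := Cut.none) (xt := Ext.none) (P1 := 0) (W1 := 536870912) (P2 := 1239849684) (W2 := 370763052) (P3 := 134217728) (W3 := 67108864)
    rfl k0_mm_012_b

noncomputable def f_mm_022_a : ℕ → ℕ → ℕ → ℕ → Bool := onCell 0 536870912 0 536870912 134217728 67108864
    (rowF 0 false false false .pp 0 2 2 (qsf 0 536870912 0 536870912 2) ndF5q0 ndF2q2a pcF2 Cut.none Ext.none)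

def k0_mm_022_a : ∃ t, chk3 f_mm_022_a t 1 1 1 = true :=
  ⟨(l 5), by decide +kernel⟩

theorem c_mm_022_a : CertF 0 536870912 0 536870912 134217728 67108864 false false false .pp 0 2 2
    ndF5q0 ndF2q2a pcF2 Cut.none Ext.none :=
  certF0 (fam := false) (s1 := false) (s2 := false) (a := 0) (b := 2) (c := 2) (cn := .pp) (n1 := ndF5q0) (n2 := ndF2q2a) (pc := pcF2) (cut := Cut.none) (xt := Ext.none) (P1 := 0) (W1 := 536870912) (P2 := 0) (W2 := 536870912) (P3 := 134217728) (W3 := 67108864)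
    rfl k0_mm_022_a

noncomputable def f_mm_022_b : ℕ → ℕ → ℕ → ℕ → Bool := onCell 0 536870912 1239849684 370763052 134217728 67108864
    (rowF 0 false false false .pp 0 2 2 (qsf 0 536870912 1239849684 370763052 2) ndF5q0 ndF2q2b pcF2 Cut.none Ext.none)

def k0_mm_022_b : ∃ t, chk3 f_mm_022_b t 1 1 1 = true :=
  ⟨(l 5), by decide +kernel⟩

theorem c_mm_022_b : CertF 0 536870912 1239849684 370763052 134217728 67108864 false false false .pp 0 2 2
    ndF5q0 ndF2q2b pcF2 Cut.none Ext.none :=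
  certF0 (fam := false) (s1 := false) (s2 := false) (a := 0) (b := 2) (c := 2) (cn := .pp) (n1 := ndF5q0) (n2 := ndF2q2b) (pc := pcF2) (cut := Cut.none) (xt := Ext.none) (P1 := 0) (W1 := 536870912) (P2 := 1239849684) (W2 := 370763052) (P3 := 134217728) (W3 := 67108864)
    rfl k0_mm_022_b

noncomputable def f_mm_023 : ℕ → ℕ → ℕ → ℕ → Bool := onCell 0 536870912 1610612736 536870912 134217728 67108864
    (rowF 0 false false false .up 0 2 3 (qsf 0 536870912 1610612736 536870912 2) ndF5q0 ndF2q3 pcF2 Cut.none Ext.none)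

def k0_mm_023 : ∃ t, chk3 f_mm_023 t 1 1 1 = true :=
  ⟨(l 5), by decide +kernel⟩

theorem c_mm_023 : CertF 0 536870912 1610612736 536870912 134217728 67108864 false false false .up 0 2 3
    ndF5q0 ndF2q3 pcF2 Cut.none Ext.none :=
  certF0 (fam := false) (s1 := false) (s2 := false) (a := 0) (b := 2) (c := 3) (cn := .up) (n1 := ndF5q0) (n2 := ndF2q3) (pc := pcF2) (cut := Cut.none) (xt := Ext.none) (P1 := 0) (W1 := 536870912) (P2 := 1610612736) (W2 := 536870912) (P3 := 134217728) (W3 := 67108864)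
    rfl k0_mm_023

noncomputable def f_mm_033 : ℕ → ℕ → ℕ → ℕ → Bool := onCell 0 536870912 1610612736 536870912 134217728 67108864
    (rowF 0 false false false .pnn 0 3 3 (qsf 0 536870912 1610612736 536870912 3) ndF5q0 ndF2q3 pcF3 Cut.none Ext.none)

def k0_mm_033 : ∃ t, chk3 f_mm_033 t 1 1 1 = true :=
  ⟨(l 5), by decide +kernel⟩

theorem c_mm_033 : CertF 0 536870912 1610612736 536870912 134217728 67108864 false false false .pnn 0 3 3
    ndF5q0 ndF2q3 pcF3 Cut.none Ext.none :=
  certF0 (fam := false) (s1 := false) (s2 := false) (a := 0) (b := 3) (c := 3) (cn := .pnn) (n1 := ndF5q0) (n2 := ndF2q3) (pc := pcF3) (cut := Cut.none) (xt := Ext.none) (P1 := 0) (W1 := 536870912) (P2 := 1610612736) (W2 := 536870912) (P3 := 134217728) (W3 := 67108864)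
    rfl k0_mm_033

noncomputable def f_mm_101 : ℕ → ℕ → ℕ → ℕ → Bool := onCell 536870912 536870912 536870912 536870912 134217728 67108864
    (rowF 0 false false false .npn 1 0 1 (qsf 536870912 536870912 536870912 536870912 0) ndF5q1 ndF2q1 pcF0 Cut.none Ext.none)

def k0_mm_101 : ∃ t, chk3 f_mm_101 t 1 1 1 = true :=
  ⟨(l 3), by decide +kernel⟩

theorem c_mm_101 : CertF 536870912 536870912 536870912 536870912 134217728 67108864 false false false .npn 1 0 1
    ndF5q1 ndF2q1 pcF0 Cut.none Ext.none :=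
  certF0 (fam := false) (s1 := false) (s2 := false) (a := 1) (b := 0) (c := 1) (cn := .npn) (n1 := ndF5q1) (n2 := ndF2q1) (pc := pcF0) (cut := Cut.none) (xt := Ext.none) (P1 := 536870912) (W1 := 536870912) (P2 := 536870912) (W2 := 536870912) (P3 := 134217728) (W3 := 67108864)
    rfl k0_mm_101

noncomputable def f_mm_102_a : ℕ → ℕ → ℕ → ℕ → Bool := onCell 536870912 536870912 0 536870912 134217728 67108864
    (rowF 0 false false false .npp 1 0 2 (qsf 536870912 536870912 0 536870912 0) ndF5q1 ndF2q2a pcF0 Cut.none Ext.none)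

def k0_mm_102_a : ∃ t, chk3 f_mm_102_a t 1 1 1 = true :=
  ⟨(l 5), by decide +kernel⟩

theorem c_mm_102_a : CertF 536870912 536870912 0 536870912 134217728 67108864 false false false .npp 1 0 2
    ndF5q1 ndF2q2a pcF0 Cut.none Ext.none :=
  certF0 (fam := false) (s1 := false) (s2 := false) (a := 1) (b := 0) (c := 2) (cn := .npp) (n1 := ndF5q1) (n2 := ndF2q2a) (pc := pcF0) (cut := Cut.none) (xt := Ext.none) (P1 := 536870912) (W1 := 536870912) (P2 := 0) (W2 := 536870912) (P3 := 134217728) (W3 := 67108864)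
    rfl k0_mm_102_a

noncomputable def f_mm_102_b : ℕ → ℕ → ℕ → ℕ → Bool := onCell 536870912 536870912 1239849684 370763052 134217728 67108864
    (rowF 0 false false false .npp 1 0 2 (qsf 536870912 536870912 1239849684 370763052 0) ndF5q1 ndF2q2b pcF0 Cut.none Ext.none)

def k0_mm_102_b : ∃ t, chk3 f_mm_102_b t 1 1 1 = true :=
  ⟨(l 5), by decide +kernel⟩

theorem c_mm_102_b : CertF 536870912 536870912 1239849684 370763052 134217728 67108864 false false false .npp 1 0 2
    ndF5q1 ndF2q2b pcF0 Cut.none Ext.none :=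
  certF0 (fam := false) (s1 := false) (s2 := false) (a := 1) (b := 0) (c := 2) (cn := .npp) (n1 := ndF5q1) (n2 := ndF2q2b) (pc := pcF0) (cut := Cut.none) (xt := Ext.none) (P1 := 536870912) (W1 := 536870912) (P2 := 1239849684) (W2 := 370763052) (P3 := 134217728) (W3 := 67108864)
    rfl k0_mm_102_b

noncomputable def f_mm_112_a : ℕ → ℕ → ℕ → ℕ → Bool := onCell 536870912 536870912 0 536870912 134217728 67108864
    (rowF 0 false false false .dn 1 1 2 (qsf 536870912 536870912 0 536870912 1) ndF5q1 ndF2q2a pcF1 Cut.none Ext.none)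

def k0_mm_112_a : ∃ t, chk3 f_mm_112_a t 1 1 1 = true :=
  ⟨(l 5), by decide +kernel⟩

theorem c_mm_112_a : CertF 536870912 536870912 0 536870912 134217728 67108864 false false false .dn 1 1 2
    ndF5q1 ndF2q2a pcF1 Cut.none Ext.none :=
  certF0 (fam := false) (s1 := false) (s2 := false) (a := 1) (b := 1) (c := 2) (cn := .dn) (n1 := ndF5q1) (n2 := ndF2q2a) (pc := pcF1) (cut := Cut.none) (xt := Ext.none) (P1 := 536870912) (W1 := 536870912) (P2 := 0) (W2 := 536870912) (P3 := 134217728) (W3 := 67108864)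
    rfl k0_mm_112_a

noncomputable def f_mm_112_b : ℕ → ℕ → ℕ → ℕ → Bool := onCell 536870912 536870912 1239849684 370763052 134217728 67108864
    (rowF 0 false false false .dn 1 1 2 (qsf 536870912 536870912 1239849684 370763052 1) ndF5q1 ndF2q2b pcF1 Cut.none Ext.none)

def k0_mm_112_b : ∃ t, chk3 f_mm_112_b t 1 1 1 = true :=
  ⟨(l 5), by decide +kernel⟩

theorem c_mm_112_b : CertF 536870912 536870912 1239849684 370763052 134217728 67108864 false false false .dn 1 1 2
    ndF5q1 ndF2q2b pcF1 Cut.none Ext.none :=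
  certF0 (fam := false) (s1 := false) (s2 := false) (a := 1) (b := 1) (c := 2) (cn := .dn) (n1 := ndF5q1) (n2 := ndF2q2b) (pc := pcF1) (cut := Cut.none) (xt := Ext.none) (P1 := 536870912) (W1 := 536870912) (P2 := 1239849684) (W2 := 370763052) (P3 := 134217728) (W3 := 67108864)
    rfl k0_mm_112_b

noncomputable def f_mm_113 : ℕ → ℕ → ℕ → ℕ → Bool := onCell 536870912 536870912 1610612736 536870912 134217728 67108864
    (rowF 0 false false false .nn 1 1 3 (qsf 536870912 536870912 1610612736 536870912 1) ndF5q1 ndF2q3 pcF1 Cut.none Ext.none)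

def k0_mm_113 : ∃ t, chk3 f_mm_113 t 1 1 1 = true :=
  ⟨(l 5), by decide +kernel⟩

theorem c_mm_113 : CertF 536870912 536870912 1610612736 536870912 134217728 67108864 false false false .nn 1 1 3
    ndF5q1 ndF2q3 pcF1 Cut.none Ext.none :=
  certF0 (fam := false) (s1 := false) (s2 := false) (a := 1) (b := 1) (c := 3) (cn := .nn) (n1 := ndF5q1) (n2 := ndF2q3) (pc := pcF1) (cut := Cut.none) (xt := Ext.none) (P1 := 536870912) (W1 := 536870912) (P2 := 1610612736) (W2 := 536870912) (P3 := 134217728) (W3 := 67108864)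
    rfl k0_mm_113

noncomputable def f_mm_123 : ℕ → ℕ → ℕ → ℕ → Bool := onCell 536870912 536870912 1610612736 536870912 134217728 67108864
    (rowF 0 false false false .npn 1 2 3 (qsf 536870912 536870912 1610612736 536870912 2) ndF5q1 ndF2q3 pcF2 Cut.none Ext.none)

def k0_mm_123 : ∃ t, chk3 f_mm_123 t 1 1 1 = true :=
  ⟨(l 5), by decide +kernel⟩

theorem c_mm_123 : CertF 536870912 536870912 1610612736 536870912 134217728 67108864 false false false .npn 1 2 3
    ndF5q1 ndF2q3 pcF2 Cut.none Ext.none :=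
  certF0 (fam := false) (s1 := false) (s2 := false) (a := 1) (b := 2) (c := 3) (cn := .npn) (n1 := ndF5q1) (n2 := ndF2q3) (pc := pcF2) (cut := Cut.none) (xt := Ext.none) (P1 := 536870912) (W1 := 536870912) (P2 := 1610612736) (W2 := 536870912) (P3 := 134217728) (W3 := 67108864)
    rfl k0_mm_123

noncomputable def f_mm_133 : ℕ → ℕ → ℕ → ℕ → Bool := onCell 536870912 536870912 1610612736 536870912 134217728 67108864
    (rowF 0 false false false .dn 1 3 3 (qsf 536870912 536870912 1610612736 536870912 3) ndF5q1 ndF2q3 pcF3 Cut.none Ext.none)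

def k0_mm_133 : ∃ t, chk3 f_mm_133 t 1 1 1 = true :=
  ⟨(l 5), by decide +kernel⟩

theorem c_mm_133 : CertF 536870912 536870912 1610612736 536870912 134217728 67108864 false false false .dn 1 3 3
    ndF5q1 ndF2q3 pcF3 Cut.none Ext.none :=
  certF0 (fam := false) (s1 := false) (s2 := false) (a := 1) (b := 3) (c := 3) (cn := .dn) (n1 := ndF5q1) (n2 := ndF2q3) (pc := pcF3) (cut := Cut.none) (xt := Ext.none) (P1 := 536870912) (W1 := 536870912) (P2 := 1610612736) (W2 := 536870912) (P3 := 134217728) (W3 := 67108864)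
    rfl k0_mm_133

noncomputable def f_mm_202_a : ℕ → ℕ → ℕ → ℕ → Bool := onCell 1073741824 536870912 0 536870912 134217728 67108864
    (rowF 0 false false false .pp 2 0 2 (qsf 1073741824 536870912 0 536870912 0) ndF5q2 ndF2q2a pcF0 Cut.none Ext.none)

def k0_mm_202_a : ∃ t, chk3 f_mm_202_a t 1 1 1 = true :=
  ⟨(l 5), by decide +kernel⟩

theorem c_mm_202_a : CertF 1073741824 536870912 0 536870912 134217728 67108864 false false false .pp 2 0 2
    ndF5q2 ndF2q2a pcF0 Cut.none Ext.none :=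
  certF0 (fam := false) (s1 := false) (s2 := false) (a := 2) (b := 0) (c := 2) (cn := .pp) (n1 := ndF5q2) (n2 := ndF2q2a) (pc := pcF0) (cut := Cut.none) (xt := Ext.none) (P1 := 1073741824) (W1 := 536870912) (P2 := 0) (W2 := 536870912) (P3 := 134217728) (W3 := 67108864)
    rfl k0_mm_202_a

noncomputable def f_mm_202_b : ℕ → ℕ → ℕ → ℕ → Bool := onCell 1073741824 536870912 1239849684 370763052 134217728 67108864
    (rowF 0 false false false .pp 2 0 2 (qsf 1073741824 536870912 1239849684 370763052 0) ndF5q2 ndF2q2b pcF0 Cut.none Ext.none)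

def k0_mm_202_b : ∃ t, chk3 f_mm_202_b t 1 1 1 = true :=
  ⟨(l 5), by decide +kernel⟩

theorem c_mm_202_b : CertF 1073741824 536870912 1239849684 370763052 134217728 67108864 false false false .pp 2 0 2
    ndF5q2 ndF2q2b pcF0 Cut.none Ext.none :=
  certF0 (fam := false) (s1 := false) (s2 := false) (a := 2) (b := 0) (c := 2) (cn := .pp) (n1 := ndF5q2) (n2 := ndF2q2b) (pc := pcF0) (cut := Cut.none) (xt := Ext.none) (P1 := 1073741824) (W1 := 536870912) (P2 := 1239849684) (W2 := 370763052) (P3 := 134217728) (W3 := 67108864)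
    rfl k0_mm_202_b

noncomputable def f_mm_203 : ℕ → ℕ → ℕ → ℕ → Bool := onCell 1073741824 536870912 1610612736 536870912 134217728 67108864
    (rowF 0 false false false .up 2 0 3 (qsf 1073741824 536870912 1610612736 536870912 0) ndF5q2 ndF2q3 pcF0 Cut.none Ext.none)

def k0_mm_203 : ∃ t, chk3 f_mm_203 t 1 1 1 = true :=
  ⟨(l 5), by decide +kernel⟩

theorem c_mm_203 : CertF 1073741824 536870912 1610612736 536870912 134217728 67108864 false false false .up 2 0 3
    ndF5q2 ndF2q3 pcF0 Cut.none Ext.none :=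
  certF0 (fam := false) (s1 := false) (s2 := false) (a := 2) (b := 0) (c := 3) (cn := .up) (n1 := ndF5q2) (n2 := ndF2q3) (pc := pcF0) (cut := Cut.none) (xt := Ext.none) (P1 := 1073741824) (W1 := 536870912) (P2 := 1610612736) (W2 := 536870912) (P3 := 134217728) (W3 := 67108864)
    rfl k0_mm_203

noncomputable def f_mm_213 : ℕ → ℕ → ℕ → ℕ → Bool := onCell 1073741824 536870912 1610612736 536870912 134217728 67108864
    (rowF 0 false false false .pnn 2 1 3 (qsf 1073741824 536870912 1610612736 536870912 1) ndF5q2 ndF2q3 pcF1 Cut.none Ext.none)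

def k0_mm_213 : ∃ t, chk3 f_mm_213 t 1 1 1 = true :=
  ⟨(l 5), by decide +kernel⟩

theorem c_mm_213 : CertF 1073741824 536870912 1610612736 536870912 134217728 67108864 false false false .pnn 2 1 3
    ndF5q2 ndF2q3 pcF1 Cut.none Ext.none :=
  certF0 (fam := false) (s1 := false) (s2 := false) (a := 2) (b := 1) (c := 3) (cn := .pnn) (n1 := ndF5q2) (n2 := ndF2q3) (pc := pcF1) (cut := Cut.none) (xt := Ext.none) (P1 := 1073741824) (W1 := 536870912) (P2 := 1610612736) (W2 := 536870912) (P3 := 134217728) (W3 := 67108864)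
    rfl k0_mm_213

noncomputable def f_mm_303 : ℕ → ℕ → ℕ → ℕ → Bool := onCell 0 1230186008 1610612736 536870912 134217728 67108864
    (rowF 0 false false false .npn 3 0 3 (qsf 0 1230186008 1610612736 536870912 0) ndF5q3 ndF2q3 pcF0 Cut.none Ext.none)

def k0_mm_303 : ∃ t, chk3 f_mm_303 t 1 1 1 = true :=
  ⟨(a (l 3) (a (l 3) (l 5))), by decide +kernel⟩

theorem c_mm_303 : CertF 0 1230186008 1610612736 536870912 134217728 67108864 false false false .npn 3 0 3
    ndF5q3 ndF2q3 pcF0 Cut.none Ext.none :=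
  certF0 (fam := false) (s1 := false) (s2 := false) (a := 3) (b := 0) (c := 3) (cn := .npn) (n1 := ndF5q3) (n2 := ndF2q3) (pc := pcF0) (cut := Cut.none) (xt := Ext.none) (P1 := 0) (W1 := 1230186008) (P2 := 1610612736) (W2 := 536870912) (P3 := 134217728) (W3 := 67108864)
    rfl k0_mm_303

noncomputable def f_mm_313 : ℕ → ℕ → ℕ → ℕ → Bool := onCell 0 1230186008 1610612736 536870912 134217728 67108864
    (rowF 0 false false false .dn 3 1 3 (qsf 0 1230186008 1610612736 536870912 1) ndF5q3 ndF2q3 pcF1 Cut.none Ext.none)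

def k0_mm_313 : ∃ t, chk3 f_mm_313 t 1 1 1 = true :=
  ⟨(a (l 1) (a (l 1) (l 5))), by decide +kernel⟩

theorem c_mm_313 : CertF 0 1230186008 1610612736 536870912 134217728 67108864 false false false .dn 3 1 3
    ndF5q3 ndF2q3 pcF1 Cut.none Ext.none :=
  certF0 (fam := false) (s1 := false) (s2 := false) (a := 3) (b := 1) (c := 3) (cn := .dn) (n1 := ndF5q3) (n2 := ndF2q3) (pc := pcF1) (cut := Cut.none) (xt := Ext.none) (P1 := 0) (W1 := 1230186008) (P2 := 1610612736) (W2 := 536870912) (P3 := 134217728) (W3 := 67108864)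
    rfl k0_mm_313

end Pool.Agent.Strip051.G.I1_8_3_16.Tab.C.FB52

namespace Pool.Agent.Strip051.G.I1_8_3_16.Tab.C.FB53

open Pool.Agent.Strip051.PB Pool.Agent.Strip051.PB.T
open Pool.Agent.Strip051.G.I1_8_3_16.Tab

noncomputable def f_pp_001 : ℕ → ℕ → ℕ → ℕ → Bool := onCell 0 536870912 536870912 536870912 134217728 67108864
    (rowF 0 false true true .up 0 0 1 (qsf 0 536870912 536870912 536870912 0) ndF5q0 ndF3q1 pcF0 Cut.none Ext.none)

def k0_pp_001 : ∃ t, chk3 f_pp_001 t 1 1 1 = true :=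
  ⟨(l 3), by decide +kernel⟩

theorem c_pp_001 : CertF 0 536870912 536870912 536870912 134217728 67108864 false true true .up 0 0 1
    ndF5q0 ndF3q1 pcF0 Cut.none Ext.none :=
  certF0 (fam := false) (s1 := true) (s2 := true) (a := 0) (b := 0) (c := 1) (cn := .up) (n1 := ndF5q0) (n2 := ndF3q1) (pc := pcF0) (cut := Cut.none) (xt := Ext.none) (P1 := 0) (W1 := 536870912) (P2 := 536870912) (W2 := 536870912) (P3 := 134217728) (W3 := 67108864)
    rfl k0_pp_001

noncomputable def f_pp_011 : ℕ → ℕ → ℕ → ℕ → Bool := onCell 0 536870912 536870912 536870912 134217728 67108864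
    (rowF 0 false true true .pnn 0 1 1 (qsf 0 536870912 536870912 536870912 1) ndF5q0 ndF3q1 pcF1 Cut.none Ext.none)

def k0_pp_011 : ∃ t, chk3 f_pp_011 t 1 1 1 = true :=
  ⟨(l 3), by decide +kernel⟩

theorem c_pp_011 : CertF 0 536870912 536870912 536870912 134217728 67108864 false true true .pnn 0 1 1
    ndF5q0 ndF3q1 pcF1 Cut.none Ext.none :=
  certF0 (fam := false) (s1 := true) (s2 := true) (a := 0) (b := 1) (c := 1) (cn := .pnn) (n1 := ndF5q0) (n2 := ndF3q1) (pc := pcF1) (cut := Cut.none) (xt := Ext.none) (P1 := 0) (W1 := 536870912) (P2 := 536870912) (W2 := 536870912) (P3 := 134217728) (W3 := 67108864)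
    rfl k0_pp_011

noncomputable def f_pp_012 : ℕ → ℕ → ℕ → ℕ → Bool := onCell 536870912 536870912 1073741824 536870912 134217728 67108864
    (rowF 2 false true true .pnp 0 1 2 (qsf 0 536870912 1073741824 536870912 1) ndF5q0 ndF3q2 pcF1 Cut.none Ext.none)

def k0_pp_012 : ∃ t, chk3 f_pp_012 t 1 1 1 = true :=
  ⟨(a (b (a (b (b (a (l 18215888) (l 18270440)) (b (b (l 18346488) (l 18391288)) (b (l 18390048) (l 18411504)))) (b (b (b (l 18430648) (l 2)) (l 2)) (l 2))) (b (b (l 18328832) (b (b (l 18383504) (l 18392504)) (l 18563104))) (b (b (b (l 18408280) (l 18416304)) (l 18412600)) (l 18417192)))) (a (l 2) (b (b (l 18472552) (l 2)) (l 2)))) (b (a (b (b (l 18381080) (b (b (l 18397712) (l 18392664)) (l 18352360))) (b (b (l 18368472) (l 18336936)) (l 18300880))) (b (b (l 18486952) (b (b (l 18466272) (l 18447528)) (l 18385720))) (b (b (l 18375184) (l 18317800)) (l 18245576)))) (a (b (l 18336232) (l 18502576)) (b (l 18215680) (l 18195424))))), by decide +kernel⟩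

theorem c_pp_012 : CertF 0 536870912 1073741824 536870912 134217728 67108864 false true true .pnp 0 1 2
    ndF5q0 ndF3q2 pcF1 Cut.none Ext.none :=
  certF2 (fam := false) (s1 := true) (s2 := true) (a := 0) (b := 1) (c := 2) (cn := .pnp) (n1 := ndF5q0) (n2 := ndF3q2) (pc := pcF1) (cut := Cut.none) (xt := Ext.none) (P1 := 0) (W1 := 536870912) (P2 := 1073741824) (W2 := 536870912) (P3 := 134217728) (W3 := 67108864)
    rfl (fun _ => rfl) k0_pp_012

noncomputable def f_pp_022 : ℕ → ℕ → ℕ → ℕ → Bool := onCell 1073741824 536870912 1073741824 536870912 134217728 67108864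
    (rowF 2 false true true .pp 0 2 2 (qsf 0 536870912 1073741824 536870912 2) ndF5q0 ndF3q2 pcF2 Cut.none Ext.none)

def k0_pp_022 : ∃ t, chk3 f_pp_022 t 1 1 1 = true :=
  ⟨(a (b (a (b (a (b (l 18928264) (b (b (l 18959968) (l 18906304)) (l 18820616))) (b (a (l 18764584) (l 1)) (b (b (a (l 18874648) (l 1)) (a (l 18881232) (l 18803056))) (a (l 18845384) (l 18773336))))) (a (b (b (l 18772496) (l 18681736)) (l 18556864)) (b (b (a (l 18834488) (l 18799608)) (l 18757752)) (l 18616840)))) (b (a (b (l 1) (b (l 1) (l 18559816))) (l 1)) (b (b (a (l 18685392) (l 1)) (l 18418968)) (l 18544000)))) (a (a (l 18334680) (b (l 18428608) (l 18207408))) (l 18603056))) (b (a (b (l 1) (b (l 1) (l 17979128))) (l 1)) (a (l 18361864) (b (l 17595656) (l 17887056))))), by decide +kernel⟩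

theorem c_pp_022 : CertF 0 536870912 1073741824 536870912 134217728 67108864 false true true .pp 0 2 2
    ndF5q0 ndF3q2 pcF2 Cut.none Ext.none :=
  certF2 (fam := false) (s1 := true) (s2 := true) (a := 0) (b := 2) (c := 2) (cn := .pp) (n1 := ndF5q0) (n2 := ndF3q2) (pc := pcF2) (cut := Cut.none) (xt := Ext.none) (P1 := 0) (W1 := 536870912) (P2 := 1073741824) (W2 := 536870912) (P3 := 134217728) (W3 := 67108864)
    rfl (fun _ => rfl) k0_pp_022

noncomputable def f_pp_023 : ℕ → ℕ → ℕ → ℕ → Bool := onCell 1073741824 536870912 0 1230186008 134217728 67108864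
    (rowF 2 false true true .up 0 2 3 (qsf 0 536870912 0 1230186008 2) ndF5q0 ndF3q3 pcF2 Cut.none Ext.none)

def k0_pp_023 : ∃ t, chk3 f_pp_023 t 1 1 1 = true :=
  ⟨(a (b (l 2) (b (a (l 2) (b (l 2) (l 17341496))) (b (a (l 2) (l 17551272)) (a (l 17755408) (l 17755848))))) (b (l 4) (b (a (l 17171808) (l 4)) (a (l 17762752) (l 17261312))))), by decide +kernel⟩

theorem c_pp_023 : CertF 0 536870912 0 1230186008 134217728 67108864 false true true .up 0 2 3
    ndF5q0 ndF3q3 pcF2 Cut.none Ext.none :=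
  certF2 (fam := false) (s1 := true) (s2 := true) (a := 0) (b := 2) (c := 3) (cn := .up) (n1 := ndF5q0) (n2 := ndF3q3) (pc := pcF2) (cut := Cut.none) (xt := Ext.none) (P1 := 0) (W1 := 536870912) (P2 := 0) (W2 := 1230186008) (P3 := 134217728) (W3 := 67108864)
    rfl (fun _ => rfl) k0_pp_023

noncomputable def f_pp_033 : ℕ → ℕ → ℕ → ℕ → Bool := onCell 1610612736 536870912 0 1230186008 134217728 67108864
    (rowF 2 false true true .pnn 0 3 3 (qsf 0 536870912 0 1230186008 3) ndF5q0 ndF3q3 pcF3 Cut.none Ext.none)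

def k0_pp_033 : ∃ t, chk3 f_pp_033 t 1 1 1 = true :=
  ⟨(b (l 4) (a (b (l 4) (l 4)) (l 4))), by decide +kernel⟩

theorem c_pp_033 : CertF 0 536870912 0 1230186008 134217728 67108864 false true true .pnn 0 3 3
    ndF5q0 ndF3q3 pcF3 Cut.none Ext.none :=
  certF2 (fam := false) (s1 := true) (s2 := true) (a := 0) (b := 3) (c := 3) (cn := .pnn) (n1 := ndF5q0) (n2 := ndF3q3) (pc := pcF3) (cut := Cut.none) (xt := Ext.none) (P1 := 0) (W1 := 536870912) (P2 := 0) (W2 := 1230186008) (P3 := 134217728) (W3 := 67108864)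
    rfl (fun _ => rfl) k0_pp_033

noncomputable def f_pp_101 : ℕ → ℕ → ℕ → ℕ → Bool := onCell 536870912 536870912 536870912 536870912 134217728 67108864
    (rowF 0 false true true .npn 1 0 1 (qsf 536870912 536870912 536870912 536870912 0) ndF5q1 ndF3q1 pcF0 Cut.none Ext.none)

def k0_pp_101 : ∃ t, chk3 f_pp_101 t 1 1 1 = true :=
  ⟨(l 3), by decide +kernel⟩

theorem c_pp_101 : CertF 536870912 536870912 536870912 536870912 134217728 67108864 false true true .npn 1 0 1
    ndF5q1 ndF3q1 pcF0 Cut.none Ext.none :=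
  certF0 (fam := false) (s1 := true) (s2 := true) (a := 1) (b := 0) (c := 1) (cn := .npn) (n1 := ndF5q1) (n2 := ndF3q1) (pc := pcF0) (cut := Cut.none) (xt := Ext.none) (P1 := 536870912) (W1 := 536870912) (P2 := 536870912) (W2 := 536870912) (P3 := 134217728) (W3 := 67108864)
    rfl k0_pp_101

noncomputable def f_pp_102 : ℕ → ℕ → ℕ → ℕ → Bool := onCell 0 536870912 1073741824 536870912 134217728 67108864
    (rowF 2 false true true .npp 1 0 2 (qsf 536870912 536870912 1073741824 536870912 0) ndF5q1 ndF3q2 pcF0 Cut.none Ext.none)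

def k0_pp_102 : ∃ t, chk3 f_pp_102 t 1 1 1 = true :=
  ⟨(a (l 3) (b (a (a (l 3) (b (b (b (l 248204201207) (l 3)) (l 3)) (l 3))) (b (a (b (c (l 18106128) (l 17875192)) (b (b (l 18148776) (l 276122763575)) (b (l 277733194631) (l 18286904)))) (b (l 18043984) (b (b (l 18187120) (l 18228776)) (b (l 18266112) (l 18305016))))) (b (b (b (l 280418062199) (a (l 278270609655) (l 18381288))) (l 282028819255)) (a (l 286324037335) (l 18520192))))) (a (l 3) (a (b (l 301893697415) (l 3)) (b (l 18792936) (l 19151768)))))), by decide +kernel⟩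

theorem c_pp_102 : CertF 536870912 536870912 1073741824 536870912 134217728 67108864 false true true .npp 1 0 2
    ndF5q1 ndF3q2 pcF0 Cut.none Ext.none :=
  certF2 (fam := false) (s1 := true) (s2 := true) (a := 1) (b := 0) (c := 2) (cn := .npp) (n1 := ndF5q1) (n2 := ndF3q2) (pc := pcF0) (cut := Cut.none) (xt := Ext.none) (P1 := 536870912) (W1 := 536870912) (P2 := 1073741824) (W2 := 536870912) (P3 := 134217728) (W3 := 67108864)
    rfl (fun _ => rfl) k0_pp_102

noncomputable def f_pp_112 : ℕ → ℕ → ℕ → ℕ → Bool := onCell 536870912 536870912 1073741824 536870912 134217728 67108864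
    (rowF 2 false true true .dn 1 1 2 (qsf 536870912 536870912 1073741824 536870912 1) ndF5q1 ndF3q2 pcF1 Cut.none Ext.none)

def k0_pp_112 : ∃ t, chk3 f_pp_112 t 1 1 1 = true :=
  ⟨(a (b (a (b (b (l 18346640) (b (b (l 18337536) (l 18360544)) (b (l 18379336) (l 18399704)))) (b (b (b (l 18417592) (l 18439352)) (l 18454168)) (l 18491576))) (b (b (l 1) (b (l 1) (l 18363656))) (b (b (l 18635944) (l 18399896)) (l 18394504)))) (a (b (l 18646208) (l 18855920)) (b (l 18469504) (l 18575720)))) (b (a (b (l 1) (b (l 1) (l 18284584))) (l 1)) (a (l 18424968) (l 18175592)))), by decide +kernel⟩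

theorem c_pp_112 : CertF 536870912 536870912 1073741824 536870912 134217728 67108864 false true true .dn 1 1 2
    ndF5q1 ndF3q2 pcF1 Cut.none Ext.none :=
  certF2 (fam := false) (s1 := true) (s2 := true) (a := 1) (b := 1) (c := 2) (cn := .dn) (n1 := ndF5q1) (n2 := ndF3q2) (pc := pcF1) (cut := Cut.none) (xt := Ext.none) (P1 := 536870912) (W1 := 536870912) (P2 := 1073741824) (W2 := 536870912) (P3 := 134217728) (W3 := 67108864)
    rfl (fun _ => rfl) k0_pp_112

noncomputable def f_pp_113 : ℕ → ℕ → ℕ → ℕ → Bool := onCell 536870912 536870912 0 1230186008 134217728 67108864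
    (rowF 2 false true true .nn 1 1 3 (qsf 536870912 536870912 0 1230186008 1) ndF5q1 ndF3q3 pcF1 Cut.none Ext.none)

def k0_pp_113 : ∃ t, chk3 f_pp_113 t 1 1 1 = true :=
  ⟨(a (b (l 2) (b (a (l 2) (l 18585616)) (a (b (l 2) (a (l 18901320) (l 18623648))) (b (l 18438536) (l 18311680))))) (a (b (l 2) (b (l 18036816) (l 18018280))) (b (a (b (l 2) (l 17461728)) (l 17103912)) (b (l 17583368) (l 17718176))))), by decide +kernel⟩

theorem c_pp_113 : CertF 536870912 536870912 0 1230186008 134217728 67108864 false true true .nn 1 1 3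
    ndF5q1 ndF3q3 pcF1 Cut.none Ext.none :=
  certF2 (fam := false) (s1 := true) (s2 := true) (a := 1) (b := 1) (c := 3) (cn := .nn) (n1 := ndF5q1) (n2 := ndF3q3) (pc := pcF1) (cut := Cut.none) (xt := Ext.none) (P1 := 536870912) (W1 := 536870912) (P2 := 0) (W2 := 1230186008) (P3 := 134217728) (W3 := 67108864)
    rfl (fun _ => rfl) k0_pp_113

noncomputable def f_pp_123 : ℕ → ℕ → ℕ → ℕ → Bool := onCell 1073741824 536870912 0 1230186008 134217728 67108864
    (rowF 2 false true true .npn 1 2 3 (qsf 536870912 536870912 0 1230186008 2) ndF5q1 ndF3q3 pcF2 Cut.none Ext.none)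

def k0_pp_123 : ∃ t, chk3 f_pp_123 t 1 1 1 = true :=
  ⟨(b (a (a (l 16943616) (l 17078048)) (l 4)) (b (a (a (l 17248360) (l 17279912)) (a (l 17209864) (l 4))) (a (a (l 17665704) (l 17684784)) (l 1)))), by decide +kernel⟩

theorem c_pp_123 : CertF 536870912 536870912 0 1230186008 134217728 67108864 false true true .npn 1 2 3
    ndF5q1 ndF3q3 pcF2 Cut.none Ext.none :=
  certF2 (fam := false) (s1 := true) (s2 := true) (a := 1) (b := 2) (c := 3) (cn := .npn) (n1 := ndF5q1) (n2 := ndF3q3) (pc := pcF2) (cut := Cut.none) (xt := Ext.none) (P1 := 536870912) (W1 := 536870912) (P2 := 0) (W2 := 1230186008) (P3 := 134217728) (W3 := 67108864)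
    rfl (fun _ => rfl) k0_pp_123

noncomputable def f_pp_133 : ℕ → ℕ → ℕ → ℕ → Bool := onCell 1610612736 536870912 0 1230186008 134217728 67108864
    (rowF 2 false true true .dn 1 3 3 (qsf 536870912 536870912 0 1230186008 3) ndF5q1 ndF3q3 pcF3 Cut.none Ext.none)

def k0_pp_133 : ∃ t, chk3 f_pp_133 t 1 1 1 = true :=
  ⟨(b (l 4) (l 1)), by decide +kernel⟩

theorem c_pp_133 : CertF 536870912 536870912 0 1230186008 134217728 67108864 false true true .dn 1 3 3
    ndF5q1 ndF3q3 pcF3 Cut.none Ext.none :=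
  certF2 (fam := false) (s1 := true) (s2 := true) (a := 1) (b := 3) (c := 3) (cn := .dn) (n1 := ndF5q1) (n2 := ndF3q3) (pc := pcF3) (cut := Cut.none) (xt := Ext.none) (P1 := 536870912) (W1 := 536870912) (P2 := 0) (W2 := 1230186008) (P3 := 134217728) (W3 := 67108864)
    rfl (fun _ => rfl) k0_pp_133

noncomputable def f_pp_202 : ℕ → ℕ → ℕ → ℕ → Bool := onCell 1073741824 536870912 1073741824 536870912 134217728 67108864
    (rowF 0 false true true .pp 2 0 2 (qsf 1073741824 536870912 1073741824 536870912 0) ndF5q2 ndF3q2 pcF0 Cut.none Ext.none)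

def k0_pp_202 : ∃ t, chk3 f_pp_202 t 1 1 1 = true :=
  ⟨(a (b (l 3) (a (b (l 3) (b (l 3) (a (l 19151656) (l 3)))) (l 3))) (l 3)), by decide +kernel⟩

theorem c_pp_202 : CertF 1073741824 536870912 1073741824 536870912 134217728 67108864 false true true .pp 2 0 2
    ndF5q2 ndF3q2 pcF0 Cut.none Ext.none :=
  certF0 (fam := false) (s1 := true) (s2 := true) (a := 2) (b := 0) (c := 2) (cn := .pp) (n1 := ndF5q2) (n2 := ndF3q2) (pc := pcF0) (cut := Cut.none) (xt := Ext.none) (P1 := 1073741824) (W1 := 536870912) (P2 := 1073741824) (W2 := 536870912) (P3 := 134217728) (W3 := 67108864)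
    rfl k0_pp_202

noncomputable def f_pp_203 : ℕ → ℕ → ℕ → ℕ → Bool := onCell 0 536870912 0 1230186008 134217728 67108864
    (rowF 2 false true true .up 2 0 3 (qsf 1073741824 536870912 0 1230186008 0) ndF5q2 ndF3q3 pcF0 Cut.none Ext.none)

def k0_pp_203 : ∃ t, chk3 f_pp_203 t 1 1 1 = true :=
  ⟨(a (b (l 2) (b (l 3) (l 3))) (b (a (l 2) (b (l 17811888) (a (l 17767728) (l 17886744)))) (b (a (l 3) (b (l 18010184) (l 18202776))) (a (l 3) (b (l 18467016) (a (l 3) (l 18771336))))))), by decide +kernel⟩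

theorem c_pp_203 : CertF 1073741824 536870912 0 1230186008 134217728 67108864 false true true .up 2 0 3
    ndF5q2 ndF3q3 pcF0 Cut.none Ext.none :=
  certF2 (fam := false) (s1 := true) (s2 := true) (a := 2) (b := 0) (c := 3) (cn := .up) (n1 := ndF5q2) (n2 := ndF3q3) (pc := pcF0) (cut := Cut.none) (xt := Ext.none) (P1 := 1073741824) (W1 := 536870912) (P2 := 0) (W2 := 1230186008) (P3 := 134217728) (W3 := 67108864)
    rfl (fun _ => rfl) k0_pp_203

noncomputable def f_pp_213 : ℕ → ℕ → ℕ → ℕ → Bool := onCell 536870912 536870912 0 1230186008 134217728 67108864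
    (rowF 2 false true true .pnn 2 1 3 (qsf 1073741824 536870912 0 1230186008 1) ndF5q2 ndF3q3 pcF1 Cut.none Ext.none)

def k0_pp_213 : ∃ t, chk3 f_pp_213 t 1 1 1 = true :=
  ⟨(b (b (a (a (l 17210296) (l 17260696)) (a (l 17150504) (a (l 17034344) (l 16935912)))) (a (a (l 17454120) (l 17538240)) (a (l 17497096) (a (l 17393184) (l 17260728))))) (a (b (a (b (l 17777384) (l 18043520)) (l 17994848)) (a (b (l 18361760) (l 18950280)) (b (l 18456328) (l 18831264)))) (b (a (l 18034856) (l 17933392)) (l 1)))), by decide +kernel⟩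

theorem c_pp_213 : CertF 1073741824 536870912 0 1230186008 134217728 67108864 false true true .pnn 2 1 3
    ndF5q2 ndF3q3 pcF1 Cut.none Ext.none :=
  certF2 (fam := false) (s1 := true) (s2 := true) (a := 2) (b := 1) (c := 3) (cn := .pnn) (n1 := ndF5q2) (n2 := ndF3q3) (pc := pcF1) (cut := Cut.none) (xt := Ext.none) (P1 := 1073741824) (W1 := 536870912) (P2 := 0) (W2 := 1230186008) (P3 := 134217728) (W3 := 67108864)
    rfl (fun _ => rfl) k0_pp_213

noncomputable def f_pp_303 : ℕ → ℕ → ℕ → ℕ → Bool := onCell 0 1230186008 0 1230186008 134217728 67108864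
    (rowF 0 false true true .npn 3 0 3 (qsf 0 1230186008 0 1230186008 0) ndF5q3 ndF3q3 pcF0 Cut.none Ext.none)

def k0_pp_303 : ∃ t, chk3 f_pp_303 t 1 1 1 = true :=
  ⟨(a (b (l 3) (l 3)) (b (a (l 3) (a (b (l 17562264) (l 3)) (b (a (l 17660832) (l 17805296)) (a (l 17719944) (l 17992720))))) (b (b (l 3) (l 3)) (l 3)))), by decide +kernel⟩

theorem c_pp_303 : CertF 0 1230186008 0 1230186008 134217728 67108864 false true true .npn 3 0 3
    ndF5q3 ndF3q3 pcF0 Cut.none Ext.none :=
  certF0 (fam := false) (s1 := true) (s2 := true) (a := 3) (b := 0) (c := 3) (cn := .npn) (n1 := ndF5q3) (n2 := ndF3q3) (pc := pcF0) (cut := Cut.none) (xt := Ext.none) (P1 := 0) (W1 := 1230186008) (P2 := 0) (W2 := 1230186008) (P3 := 134217728) (W3 := 67108864)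
    rfl k0_pp_303

noncomputable def f_pp_313 : ℕ → ℕ → ℕ → ℕ → Bool := onCell 0 1230186008 0 1230186008 134217728 67108864
    (rowF 0 false true true .dn 3 1 3 (qsf 0 1230186008 0 1230186008 1) ndF5q3 ndF3q3 pcF1 Cut.none Ext.none)

def k0_pp_313 : ∃ t, chk3 f_pp_313 t 1 1 1 = true :=
  ⟨(a (l 1) (b (a (l 1) (a (l 1) (b (a (l 1) (l 17197944)) (l 1)))) (l 1))), by decide +kernel⟩

theorem c_pp_313 : CertF 0 1230186008 0 1230186008 134217728 67108864 false true true .dn 3 1 3
    ndF5q3 ndF3q3 pcF1 Cut.none Ext.none :=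
  certF0 (fam := false) (s1 := true) (s2 := true) (a := 3) (b := 1) (c := 3) (cn := .dn) (n1 := ndF5q3) (n2 := ndF3q3) (pc := pcF1) (cut := Cut.none) (xt := Ext.none) (P1 := 0) (W1 := 1230186008) (P2 := 0) (W2 := 1230186008) (P3 := 134217728) (W3 := 67108864)
    rfl k0_pp_313

noncomputable def f_pm_001 : ℕ → ℕ → ℕ → ℕ → Bool := onCell 0 536870912 536870912 536870912 134217728 67108864
    (rowF 0 false true false .up 0 0 1 (qsf 0 536870912 536870912 536870912 0) ndF5q0 ndF3q1 pcF0 Cut.none Ext.none)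

def k0_pm_001 : ∃ t, chk3 f_pm_001 t 1 1 1 = true :=
  ⟨(l 4), by decide +kernel⟩

theorem c_pm_001 : CertF 0 536870912 536870912 536870912 134217728 67108864 false true false .up 0 0 1
    ndF5q0 ndF3q1 pcF0 Cut.none Ext.none :=
  certF0 (fam := false) (s1 := true) (s2 := false) (a := 0) (b := 0) (c := 1) (cn := .up) (n1 := ndF5q0) (n2 := ndF3q1) (pc := pcF0) (cut := Cut.none) (xt := Ext.none) (P1 := 0) (W1 := 536870912) (P2 := 536870912) (W2 := 536870912) (P3 := 134217728) (W3 := 67108864)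
    rfl k0_pm_001

noncomputable def f_pm_011 : ℕ → ℕ → ℕ → ℕ → Bool := onCell 0 536870912 536870912 536870912 134217728 67108864
    (rowF 0 false true false .pnn 0 1 1 (qsf 0 536870912 536870912 536870912 1) ndF5q0 ndF3q1 pcF1 Cut.none Ext.none)

def k0_pm_011 : ∃ t, chk3 f_pm_011 t 1 1 1 = true :=
  ⟨(l 4), by decide +kernel⟩

theorem c_pm_011 : CertF 0 536870912 536870912 536870912 134217728 67108864 false true false .pnn 0 1 1
    ndF5q0 ndF3q1 pcF1 Cut.none Ext.none :=
  certF0 (fam := false) (s1 := true) (s2 := false) (a := 0) (b := 1) (c := 1) (cn := .pnn) (n1 := ndF5q0) (n2 := ndF3q1) (pc := pcF1) (cut := Cut.none) (xt := Ext.none) (P1 := 0) (W1 := 536870912) (P2 := 536870912) (W2 := 536870912) (P3 := 134217728) (W3 := 67108864)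
    rfl k0_pm_011

noncomputable def f_pm_012 : ℕ → ℕ → ℕ → ℕ → Bool := onCell 0 536870912 1073741824 536870912 134217728 67108864
    (rowF 0 false true false .pnp 0 1 2 (qsf 0 536870912 1073741824 536870912 1) ndF5q0 ndF3q2 pcF1 Cut.none Ext.none)

def k0_pm_012 : ∃ t, chk3 f_pm_012 t 1 1 1 = true :=
  ⟨(l 4), by decide +kernel⟩

theorem c_pm_012 : CertF 0 536870912 1073741824 536870912 134217728 67108864 false true false .pnp 0 1 2
    ndF5q0 ndF3q2 pcF1 Cut.none Ext.none :=
  certF0 (fam := false) (s1 := true) (s2 := false) (a := 0) (b := 1) (c := 2) (cn := .pnp) (n1 := ndF5q0) (n2 := ndF3q2) (pc := pcF1) (cut := Cut.none) (xt := Ext.none) (P1 := 0) (W1 := 536870912) (P2 := 1073741824) (W2 := 536870912) (P3 := 134217728) (W3 := 67108864)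
    rfl k0_pm_012

noncomputable def f_pm_022 : ℕ → ℕ → ℕ → ℕ → Bool := onCell 0 536870912 1073741824 536870912 134217728 67108864
    (rowF 0 false true false .pp 0 2 2 (qsf 0 536870912 1073741824 536870912 2) ndF5q0 ndF3q2 pcF2 Cut.none Ext.none)

def k0_pm_022 : ∃ t, chk3 f_pm_022 t 1 1 1 = true :=
  ⟨(l 4), by decide +kernel⟩

theorem c_pm_022 : CertF 0 536870912 1073741824 536870912 134217728 67108864 false true false .pp 0 2 2
    ndF5q0 ndF3q2 pcF2 Cut.none Ext.none :=
  certF0 (fam := false) (s1 := true) (s2 := false) (a := 0) (b := 2) (c := 2) (cn := .pp) (n1 := ndF5q0) (n2 := ndF3q2) (pc := pcF2) (cut := Cut.none) (xt := Ext.none) (P1 := 0) (W1 := 536870912) (P2 := 1073741824) (W2 := 536870912) (P3 := 134217728) (W3 := 67108864)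
    rfl k0_pm_022

noncomputable def f_pm_023 : ℕ → ℕ → ℕ → ℕ → Bool := onCell 0 536870912 0 1230186008 134217728 67108864
    (rowF 0 false true false .up 0 2 3 (qsf 0 536870912 0 1230186008 2) ndF5q0 ndF3q3 pcF2 Cut.none Ext.none)

def k0_pm_023 : ∃ t, chk3 f_pm_023 t 1 1 1 = true :=
  ⟨(b (l 4) (l 4)), by decide +kernel⟩

theorem c_pm_023 : CertF 0 536870912 0 1230186008 134217728 67108864 false true false .up 0 2 3
    ndF5q0 ndF3q3 pcF2 Cut.none Ext.none :=
  certF0 (fam := false) (s1 := true) (s2 := false) (a := 0) (b := 2) (c := 3) (cn := .up) (n1 := ndF5q0) (n2 := ndF3q3) (pc := pcF2) (cut := Cut.none) (xt := Ext.none) (P1 := 0) (W1 := 536870912) (P2 := 0) (W2 := 1230186008) (P3 := 134217728) (W3 := 67108864)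
    rfl k0_pm_023

noncomputable def f_pm_033 : ℕ → ℕ → ℕ → ℕ → Bool := onCell 0 536870912 0 1230186008 134217728 67108864
    (rowF 0 false true false .pnn 0 3 3 (qsf 0 536870912 0 1230186008 3) ndF5q0 ndF3q3 pcF3 Cut.none Ext.none)

def k0_pm_033 : ∃ t, chk3 f_pm_033 t 1 1 1 = true :=
  ⟨(b (l 4) (l 4)), by decide +kernel⟩

theorem c_pm_033 : CertF 0 536870912 0 1230186008 134217728 67108864 false true false .pnn 0 3 3
    ndF5q0 ndF3q3 pcF3 Cut.none Ext.none :=
  certF0 (fam := false) (s1 := true) (s2 := false) (a := 0) (b := 3) (c := 3) (cn := .pnn) (n1 := ndF5q0) (n2 := ndF3q3) (pc := pcF3) (cut := Cut.none) (xt := Ext.none) (P1 := 0) (W1 := 536870912) (P2 := 0) (W2 := 1230186008) (P3 := 134217728) (W3 := 67108864)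
    rfl k0_pm_033

noncomputable def f_pm_101 : ℕ → ℕ → ℕ → ℕ → Bool := onCell 536870912 536870912 536870912 536870912 134217728 67108864
    (rowF 0 false true false .npn 1 0 1 (qsf 536870912 536870912 536870912 536870912 0) ndF5q1 ndF3q1 pcF0 Cut.none Ext.none)

def k0_pm_101 : ∃ t, chk3 f_pm_101 t 1 1 1 = true :=
  ⟨(l 4), by decide +kernel⟩

theorem c_pm_101 : CertF 536870912 536870912 536870912 536870912 134217728 67108864 false true false .npn 1 0 1
    ndF5q1 ndF3q1 pcF0 Cut.none Ext.none :=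
  certF0 (fam := false) (s1 := true) (s2 := false) (a := 1) (b := 0) (c := 1) (cn := .npn) (n1 := ndF5q1) (n2 := ndF3q1) (pc := pcF0) (cut := Cut.none) (xt := Ext.none) (P1 := 536870912) (W1 := 536870912) (P2 := 536870912) (W2 := 536870912) (P3 := 134217728) (W3 := 67108864)
    rfl k0_pm_101

noncomputable def f_pm_102 : ℕ → ℕ → ℕ → ℕ → Bool := onCell 536870912 536870912 1073741824 536870912 134217728 67108864
    (rowF 0 false true false .npp 1 0 2 (qsf 536870912 536870912 1073741824 536870912 0) ndF5q1 ndF3q2 pcF0 Cut.none Ext.none)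

def k0_pm_102 : ∃ t, chk3 f_pm_102 t 1 1 1 = true :=
  ⟨(l 4), by decide +kernel⟩

theorem c_pm_102 : CertF 536870912 536870912 1073741824 536870912 134217728 67108864 false true false .npp 1 0 2
    ndF5q1 ndF3q2 pcF0 Cut.none Ext.none :=
  certF0 (fam := false) (s1 := true) (s2 := false) (a := 1) (b := 0) (c := 2) (cn := .npp) (n1 := ndF5q1) (n2 := ndF3q2) (pc := pcF0) (cut := Cut.none) (xt := Ext.none) (P1 := 536870912) (W1 := 536870912) (P2 := 1073741824) (W2 := 536870912) (P3 := 134217728) (W3 := 67108864)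
    rfl k0_pm_102

noncomputable def f_pm_112 : ℕ → ℕ → ℕ → ℕ → Bool := onCell 536870912 536870912 1073741824 536870912 134217728 67108864
    (rowF 0 false true false .dn 1 1 2 (qsf 536870912 536870912 1073741824 536870912 1) ndF5q1 ndF3q2 pcF1 Cut.none Ext.none)

def k0_pm_112 : ∃ t, chk3 f_pm_112 t 1 1 1 = true :=
  ⟨(l 4), by decide +kernel⟩

theorem c_pm_112 : CertF 536870912 536870912 1073741824 536870912 134217728 67108864 false true false .dn 1 1 2
    ndF5q1 ndF3q2 pcF1 Cut.none Ext.none :=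
  certF0 (fam := false) (s1 := true) (s2 := false) (a := 1) (b := 1) (c := 2) (cn := .dn) (n1 := ndF5q1) (n2 := ndF3q2) (pc := pcF1) (cut := Cut.none) (xt := Ext.none) (P1 := 536870912) (W1 := 536870912) (P2 := 1073741824) (W2 := 536870912) (P3 := 134217728) (W3 := 67108864)
    rfl k0_pm_112

noncomputable def f_pm_113 : ℕ → ℕ → ℕ → ℕ → Bool := onCell 536870912 536870912 0 1230186008 134217728 67108864
    (rowF 0 false true false .nn 1 1 3 (qsf 536870912 536870912 0 1230186008 1) ndF5q1 ndF3q3 pcF1 Cut.none Ext.none)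

def k0_pm_113 : ∃ t, chk3 f_pm_113 t 1 1 1 = true :=
  ⟨(b (b (a (l 2) (l 16833248)) (l 4)) (l 4)), by decide +kernel⟩

theorem c_pm_113 : CertF 536870912 536870912 0 1230186008 134217728 67108864 false true false .nn 1 1 3
    ndF5q1 ndF3q3 pcF1 Cut.none Ext.none :=
  certF0 (fam := false) (s1 := true) (s2 := false) (a := 1) (b := 1) (c := 3) (cn := .nn) (n1 := ndF5q1) (n2 := ndF3q3) (pc := pcF1) (cut := Cut.none) (xt := Ext.none) (P1 := 536870912) (W1 := 536870912) (P2 := 0) (W2 := 1230186008) (P3 := 134217728) (W3 := 67108864)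
    rfl k0_pm_113

noncomputable def f_pm_123 : ℕ → ℕ → ℕ → ℕ → Bool := onCell 1073741824 536870912 0 1230186008 134217728 67108864
    (rowF 2 false true false .npn 1 2 3 (qsf 536870912 536870912 0 1230186008 2) ndF5q1 ndF3q3 pcF2 Cut.none Ext.none)

def k0_pm_123 : ∃ t, chk3 f_pm_123 t 1 1 1 = true :=
  ⟨(b (a (a (l 17272728) (l 4)) (l 4)) (l 4)), by decide +kernel⟩

theorem c_pm_123 : CertF 536870912 536870912 0 1230186008 134217728 67108864 false true false .npn 1 2 3
    ndF5q1 ndF3q3 pcF2 Cut.none Ext.none :=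
  certF2 (fam := false) (s1 := true) (s2 := false) (a := 1) (b := 2) (c := 3) (cn := .npn) (n1 := ndF5q1) (n2 := ndF3q3) (pc := pcF2) (cut := Cut.none) (xt := Ext.none) (P1 := 536870912) (W1 := 536870912) (P2 := 0) (W2 := 1230186008) (P3 := 134217728) (W3 := 67108864)
    rfl (fun _ => rfl) k0_pm_123

noncomputable def f_pm_133 : ℕ → ℕ → ℕ → ℕ → Bool := onCell 1610612736 536870912 0 1230186008 134217728 67108864
    (rowF 2 false true false .dn 1 3 3 (qsf 536870912 536870912 0 1230186008 3) ndF5q1 ndF3q3 pcF3 Cut.none Ext.none)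

def k0_pm_133 : ∃ t, chk3 f_pm_133 t 1 1 1 = true :=
  ⟨(b (l 4) (l 1)), by decide +kernel⟩

theorem c_pm_133 : CertF 536870912 536870912 0 1230186008 134217728 67108864 false true false .dn 1 3 3
    ndF5q1 ndF3q3 pcF3 Cut.none Ext.none :=
  certF2 (fam := false) (s1 := true) (s2 := false) (a := 1) (b := 3) (c := 3) (cn := .dn) (n1 := ndF5q1) (n2 := ndF3q3) (pc := pcF3) (cut := Cut.none) (xt := Ext.none) (P1 := 536870912) (W1 := 536870912) (P2 := 0) (W2 := 1230186008) (P3 := 134217728) (W3 := 67108864)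
    rfl (fun _ => rfl) k0_pm_133

noncomputable def f_pm_202 : ℕ → ℕ → ℕ → ℕ → Bool := onCell 1073741824 536870912 1073741824 536870912 134217728 67108864
    (rowF 0 false true false .pp 2 0 2 (qsf 1073741824 536870912 1073741824 536870912 0) ndF5q2 ndF3q2 pcF0 Cut.none Ext.none)

def k0_pm_202 : ∃ t, chk3 f_pm_202 t 1 1 1 = true :=
  ⟨(a (l 4) (b (l 4) (a (l 4) (b (l 4) (l 17853560))))), by decide +kernel⟩

theorem c_pm_202 : CertF 1073741824 536870912 1073741824 536870912 134217728 67108864 false true false .pp 2 0 2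
    ndF5q2 ndF3q2 pcF0 Cut.none Ext.none :=
  certF0 (fam := false) (s1 := true) (s2 := false) (a := 2) (b := 0) (c := 2) (cn := .pp) (n1 := ndF5q2) (n2 := ndF3q2) (pc := pcF0) (cut := Cut.none) (xt := Ext.none) (P1 := 1073741824) (W1 := 536870912) (P2 := 1073741824) (W2 := 536870912) (P3 := 134217728) (W3 := 67108864)
    rfl k0_pm_202

noncomputable def f_pm_203 : ℕ → ℕ → ℕ → ℕ → Bool := onCell 1073741824 536870912 0 1230186008 134217728 67108864
    (rowF 0 false true false .up 2 0 3 (qsf 1073741824 536870912 0 1230186008 0) ndF5q2 ndF3q3 pcF0 Cut.none Ext.none)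

def k0_pm_203 : ∃ t, chk3 f_pm_203 t 1 1 1 = true :=
  ⟨(a (b (l 2) (b (b (l 2) (b (l 2) (l 4))) (l 4))) (b (a (l 2) (b (l 18087072) (l 18306568))) (b (a (b (a (l 2) (l 17925424)) (a (l 17783224) (l 18022944))) (b (a (l 18109296) (l 18104896)) (l 17767336))) (a (b (l 17822424) (l 4)) (b (l 17832040) (l 17516496)))))), by decide +kernel⟩

theorem c_pm_203 : CertF 1073741824 536870912 0 1230186008 134217728 67108864 false true false .up 2 0 3
    ndF5q2 ndF3q3 pcF0 Cut.none Ext.none :=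
  certF0 (fam := false) (s1 := true) (s2 := false) (a := 2) (b := 0) (c := 3) (cn := .up) (n1 := ndF5q2) (n2 := ndF3q3) (pc := pcF0) (cut := Cut.none) (xt := Ext.none) (P1 := 1073741824) (W1 := 536870912) (P2 := 0) (W2 := 1230186008) (P3 := 134217728) (W3 := 67108864)
    rfl k0_pm_203

noncomputable def f_pm_213 : ℕ → ℕ → ℕ → ℕ → Bool := onCell 536870912 536870912 0 1230186008 134217728 67108864
    (rowF 2 false true false .pnn 2 1 3 (qsf 1073741824 536870912 0 1230186008 1) ndF5q2 ndF3q3 pcF1 Cut.none Ext.none)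

def k0_pm_213 : ∃ t, chk3 f_pm_213 t 1 1 1 = true :=
  ⟨(b (b (a (a (l 17159832) (l 17106456)) (a (l 17013808) (a (l 16885088) (l 16873368)))) (a (a (l 17112056) (l 17213560)) (b (a (l 16985584) (l 17004520)) (a (l 17130344) (l 4))))) (b (a (a (l 17379472) (l 17465824)) (l 4)) (l 4))), by decide +kernel⟩

theorem c_pm_213 : CertF 1073741824 536870912 0 1230186008 134217728 67108864 false true false .pnn 2 1 3
    ndF5q2 ndF3q3 pcF1 Cut.none Ext.none :=
  certF2 (fam := false) (s1 := true) (s2 := false) (a := 2) (b := 1) (c := 3) (cn := .pnn) (n1 := ndF5q2) (n2 := ndF3q3) (pc := pcF1) (cut := Cut.none) (xt := Ext.none) (P1 := 1073741824) (W1 := 536870912) (P2 := 0) (W2 := 1230186008) (P3 := 134217728) (W3 := 67108864)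
    rfl (fun _ => rfl) k0_pm_213

noncomputable def f_pm_303 : ℕ → ℕ → ℕ → ℕ → Bool := onCell 0 1230186008 0 1230186008 134217728 67108864
    (rowF 0 false true false .npn 3 0 3 (qsf 0 1230186008 0 1230186008 0) ndF5q3 ndF3q3 pcF0 Cut.none Ext.none)

def k0_pm_303 : ∃ t, chk3 f_pm_303 t 1 1 1 = true :=
  ⟨(a (b (l 3) (b (l 3) (l 1))) (b (a (b (l 3) (a (l 3) (l 17668712))) (a (b (l 17604472) (l 17930312)) (b (l 17851864) (a (l 17889384) (l 18042456))))) (a (b (b (a (l 222434669415) (l 78553209319)) (a (b (l 828964866375) (l 1)) (l 17519120))) (a (l 1) (b (b (l 17262232) (l 1)) (l 1)))) (b (a (b (a (l 17951312) (l 18006128)) (l 17704440)) (a (l 18030016) (b (l 17946576) (l 17532888)))) (a (b (l 17199312) (a (l 1) (b (l 17169088) (l 1)))) (b (l 17470680) (l 17138544))))))), by decide +kernel⟩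

theorem c_pm_303 : CertF 0 1230186008 0 1230186008 134217728 67108864 false true false .npn 3 0 3
    ndF5q3 ndF3q3 pcF0 Cut.none Ext.none :=
  certF0 (fam := false) (s1 := true) (s2 := false) (a := 3) (b := 0) (c := 3) (cn := .npn) (n1 := ndF5q3) (n2 := ndF3q3) (pc := pcF0) (cut := Cut.none) (xt := Ext.none) (P1 := 0) (W1 := 1230186008) (P2 := 0) (W2 := 1230186008) (P3 := 134217728) (W3 := 67108864)
    rfl k0_pm_303

noncomputable def f_pm_313 : ℕ → ℕ → ℕ → ℕ → Bool := onCell 0 1230186008 0 1230186008 134217728 67108864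
    (rowF 0 false true false .dn 3 1 3 (qsf 0 1230186008 0 1230186008 1) ndF5q3 ndF3q3 pcF1 Cut.none Ext.none)

def k0_pm_313 : ∃ t, chk3 f_pm_313 t 1 1 1 = true :=
  ⟨(a (l 1) (b (a (l 1) (a (l 1) (b (a (l 1) (l 17046272)) (l 1)))) (l 1))), by decide +kernel⟩

theorem c_pm_313 : CertF 0 1230186008 0 1230186008 134217728 67108864 false true false .dn 3 1 3
    ndF5q3 ndF3q3 pcF1 Cut.none Ext.none :=
  certF0 (fam := false) (s1 := true) (s2 := false) (a := 3) (b := 1) (c := 3) (cn := .dn) (n1 := ndF5q3) (n2 := ndF3q3) (pc := pcF1) (cut := Cut.none) (xt := Ext.none) (P1 := 0) (W1 := 1230186008) (P2 := 0) (W2 := 1230186008) (P3 := 134217728) (W3 := 67108864)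
    rfl k0_pm_313

noncomputable def f_mm_001 : ℕ → ℕ → ℕ → ℕ → Bool := onCell 0 536870912 536870912 536870912 134217728 67108864
    (rowF 0 false false false .up 0 0 1 (qsf 0 536870912 536870912 536870912 0) ndF5q0 ndF3q1 pcF0 Cut.none Ext.none)

def k0_mm_001 : ∃ t, chk3 f_mm_001 t 1 1 1 = true :=
  ⟨(l 3), by decide +kernel⟩

theorem c_mm_001 : CertF 0 536870912 536870912 536870912 134217728 67108864 false false false .up 0 0 1
    ndF5q0 ndF3q1 pcF0 Cut.none Ext.none :=
  certF0 (fam := false) (s1 := false) (s2 := false) (a := 0) (b := 0) (c := 1) (cn := .up) (n1 := ndF5q0) (n2 := ndF3q1) (pc := pcF0) (cut := Cut.none) (xt := Ext.none) (P1 := 0) (W1 := 536870912) (P2 := 536870912) (W2 := 536870912) (P3 := 134217728) (W3 := 67108864)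
    rfl k0_mm_001

noncomputable def f_mm_011 : ℕ → ℕ → ℕ → ℕ → Bool := onCell 0 536870912 536870912 536870912 134217728 67108864
    (rowF 0 false false false .pnn 0 1 1 (qsf 0 536870912 536870912 536870912 1) ndF5q0 ndF3q1 pcF1 Cut.none Ext.none)

def k0_mm_011 : ∃ t, chk3 f_mm_011 t 1 1 1 = true :=
  ⟨(l 3), by decide +kernel⟩

theorem c_mm_011 : CertF 0 536870912 536870912 536870912 134217728 67108864 false false false .pnn 0 1 1
    ndF5q0 ndF3q1 pcF1 Cut.none Ext.none :=
  certF0 (fam := false) (s1 := false) (s2 := false) (a := 0) (b := 1) (c := 1) (cn := .pnn) (n1 := ndF5q0) (n2 := ndF3q1) (pc := pcF1) (cut := Cut.none) (xt := Ext.none) (P1 := 0) (W1 := 536870912) (P2 := 536870912) (W2 := 536870912) (P3 := 134217728) (W3 := 67108864)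
    rfl k0_mm_011

noncomputable def f_mm_012 : ℕ → ℕ → ℕ → ℕ → Bool := onCell 0 536870912 1073741824 536870912 134217728 67108864
    (rowF 0 false false false .pnp 0 1 2 (qsf 0 536870912 1073741824 536870912 1) ndF5q0 ndF3q2 pcF1 Cut.none Ext.none)

def k0_mm_012 : ∃ t, chk3 f_mm_012 t 1 1 1 = true :=
  ⟨(l 5), by decide +kernel⟩

theorem c_mm_012 : CertF 0 536870912 1073741824 536870912 134217728 67108864 false false false .pnp 0 1 2
    ndF5q0 ndF3q2 pcF1 Cut.none Ext.none :=
  certF0 (fam := false) (s1 := false) (s2 := false) (a := 0) (b := 1) (c := 2) (cn := .pnp) (n1 := ndF5q0) (n2 := ndF3q2) (pc := pcF1) (cut := Cut.none) (xt := Ext.none) (P1 := 0) (W1 := 536870912) (P2 := 1073741824) (W2 := 536870912) (P3 := 134217728) (W3 := 67108864)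
    rfl k0_mm_012

noncomputable def f_mm_022 : ℕ → ℕ → ℕ → ℕ → Bool := onCell 0 536870912 1073741824 536870912 134217728 67108864
    (rowF 0 false false false .pp 0 2 2 (qsf 0 536870912 1073741824 536870912 2) ndF5q0 ndF3q2 pcF2 Cut.none Ext.none)

def k0_mm_022 : ∃ t, chk3 f_mm_022 t 1 1 1 = true :=
  ⟨(l 5), by decide +kernel⟩

theorem c_mm_022 : CertF 0 536870912 1073741824 536870912 134217728 67108864 false false false .pp 0 2 2
    ndF5q0 ndF3q2 pcF2 Cut.none Ext.none :=
  certF0 (fam := false) (s1 := false) (s2 := false) (a := 0) (b := 2) (c := 2) (cn := .pp) (n1 := ndF5q0) (n2 := ndF3q2) (pc := pcF2) (cut := Cut.none) (xt := Ext.none) (P1 := 0) (W1 := 536870912) (P2 := 1073741824) (W2 := 536870912) (P3 := 134217728) (W3 := 67108864)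
    rfl k0_mm_022

noncomputable def f_mm_023 : ℕ → ℕ → ℕ → ℕ → Bool := onCell 0 536870912 0 1230186008 134217728 67108864
    (rowF 0 false false false .up 0 2 3 (qsf 0 536870912 0 1230186008 2) ndF5q0 ndF3q3 pcF2 Cut.none Ext.none)

def k0_mm_023 : ∃ t, chk3 f_mm_023 t 1 1 1 = true :=
  ⟨(l 5), by decide +kernel⟩

theorem c_mm_023 : CertF 0 536870912 0 1230186008 134217728 67108864 false false false .up 0 2 3
    ndF5q0 ndF3q3 pcF2 Cut.none Ext.none :=
  certF0 (fam := false) (s1 := false) (s2 := false) (a := 0) (b := 2) (c := 3) (cn := .up) (n1 := ndF5q0) (n2 := ndF3q3) (pc := pcF2) (cut := Cut.none) (xt := Ext.none) (P1 := 0) (W1 := 536870912) (P2 := 0) (W2 := 1230186008) (P3 := 134217728) (W3 := 67108864)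
    rfl k0_mm_023

noncomputable def f_mm_033 : ℕ → ℕ → ℕ → ℕ → Bool := onCell 0 536870912 0 1230186008 134217728 67108864
    (rowF 0 false false false .pnn 0 3 3 (qsf 0 536870912 0 1230186008 3) ndF5q0 ndF3q3 pcF3 Cut.none Ext.none)

def k0_mm_033 : ∃ t, chk3 f_mm_033 t 1 1 1 = true :=
  ⟨(l 5), by decide +kernel⟩

theorem c_mm_033 : CertF 0 536870912 0 1230186008 134217728 67108864 false false false .pnn 0 3 3
    ndF5q0 ndF3q3 pcF3 Cut.none Ext.none :=
  certF0 (fam := false) (s1 := false) (s2 := false) (a := 0) (b := 3) (c := 3) (cn := .pnn) (n1 := ndF5q0) (n2 := ndF3q3) (pc := pcF3) (cut := Cut.none) (xt := Ext.none) (P1 := 0) (W1 := 536870912) (P2 := 0) (W2 := 1230186008) (P3 := 134217728) (W3 := 67108864)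
    rfl k0_mm_033

noncomputable def f_mm_101 : ℕ → ℕ → ℕ → ℕ → Bool := onCell 536870912 536870912 536870912 536870912 134217728 67108864
    (rowF 0 false false false .npn 1 0 1 (qsf 536870912 536870912 536870912 536870912 0) ndF5q1 ndF3q1 pcF0 Cut.none Ext.none)

def k0_mm_101 : ∃ t, chk3 f_mm_101 t 1 1 1 = true :=
  ⟨(l 3), by decide +kernel⟩

theorem c_mm_101 : CertF 536870912 536870912 536870912 536870912 134217728 67108864 false false false .npn 1 0 1
    ndF5q1 ndF3q1 pcF0 Cut.none Ext.none :=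
  certF0 (fam := false) (s1 := false) (s2 := false) (a := 1) (b := 0) (c := 1) (cn := .npn) (n1 := ndF5q1) (n2 := ndF3q1) (pc := pcF0) (cut := Cut.none) (xt := Ext.none) (P1 := 536870912) (W1 := 536870912) (P2 := 536870912) (W2 := 536870912) (P3 := 134217728) (W3 := 67108864)
    rfl k0_mm_101

noncomputable def f_mm_102 : ℕ → ℕ → ℕ → ℕ → Bool := onCell 536870912 536870912 1073741824 536870912 134217728 67108864
    (rowF 0 false false false .npp 1 0 2 (qsf 536870912 536870912 1073741824 536870912 0) ndF5q1 ndF3q2 pcF0 Cut.none Ext.none)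

def k0_mm_102 : ∃ t, chk3 f_mm_102 t 1 1 1 = true :=
  ⟨(l 5), by decide +kernel⟩

theorem c_mm_102 : CertF 536870912 536870912 1073741824 536870912 134217728 67108864 false false false .npp 1 0 2
    ndF5q1 ndF3q2 pcF0 Cut.none Ext.none :=
  certF0 (fam := false) (s1 := false) (s2 := false) (a := 1) (b := 0) (c := 2) (cn := .npp) (n1 := ndF5q1) (n2 := ndF3q2) (pc := pcF0) (cut := Cut.none) (xt := Ext.none) (P1 := 536870912) (W1 := 536870912) (P2 := 1073741824) (W2 := 536870912) (P3 := 134217728) (W3 := 67108864)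
    rfl k0_mm_102

noncomputable def f_mm_112 : ℕ → ℕ → ℕ → ℕ → Bool := onCell 536870912 536870912 1073741824 536870912 134217728 67108864
    (rowF 0 false false false .dn 1 1 2 (qsf 536870912 536870912 1073741824 536870912 1) ndF5q1 ndF3q2 pcF1 Cut.none Ext.none)

def k0_mm_112 : ∃ t, chk3 f_mm_112 t 1 1 1 = true :=
  ⟨(l 5), by decide +kernel⟩

theorem c_mm_112 : CertF 536870912 536870912 1073741824 536870912 134217728 67108864 false false false .dn 1 1 2
    ndF5q1 ndF3q2 pcF1 Cut.none Ext.none :=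
  certF0 (fam := false) (s1 := false) (s2 := false) (a := 1) (b := 1) (c := 2) (cn := .dn) (n1 := ndF5q1) (n2 := ndF3q2) (pc := pcF1) (cut := Cut.none) (xt := Ext.none) (P1 := 536870912) (W1 := 536870912) (P2 := 1073741824) (W2 := 536870912) (P3 := 134217728) (W3 := 67108864)
    rfl k0_mm_112

noncomputable def f_mm_113 : ℕ → ℕ → ℕ → ℕ → Bool := onCell 536870912 536870912 0 1230186008 134217728 67108864
    (rowF 0 false false false .nn 1 1 3 (qsf 536870912 536870912 0 1230186008 1) ndF5q1 ndF3q3 pcF1 Cut.none Ext.none)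

def k0_mm_113 : ∃ t, chk3 f_mm_113 t 1 1 1 = true :=
  ⟨(l 5), by decide +kernel⟩

theorem c_mm_113 : CertF 536870912 536870912 0 1230186008 134217728 67108864 false false false .nn 1 1 3
    ndF5q1 ndF3q3 pcF1 Cut.none Ext.none :=
  certF0 (fam := false) (s1 := false) (s2 := false) (a := 1) (b := 1) (c := 3) (cn := .nn) (n1 := ndF5q1) (n2 := ndF3q3) (pc := pcF1) (cut := Cut.none) (xt := Ext.none) (P1 := 536870912) (W1 := 536870912) (P2 := 0) (W2 := 1230186008) (P3 := 134217728) (W3 := 67108864)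
    rfl k0_mm_113

noncomputable def f_mm_123 : ℕ → ℕ → ℕ → ℕ → Bool := onCell 536870912 536870912 0 1230186008 134217728 67108864
    (rowF 0 false false false .npn 1 2 3 (qsf 536870912 536870912 0 1230186008 2) ndF5q1 ndF3q3 pcF2 Cut.none Ext.none)

def k0_mm_123 : ∃ t, chk3 f_mm_123 t 1 1 1 = true :=
  ⟨(l 5), by decide +kernel⟩

theorem c_mm_123 : CertF 536870912 536870912 0 1230186008 134217728 67108864 false false false .npn 1 2 3
    ndF5q1 ndF3q3 pcF2 Cut.none Ext.none :=
  certF0 (fam := false) (s1 := false) (s2 := false) (a := 1) (b := 2) (c := 3) (cn := .npn) (n1 := ndF5q1) (n2 := ndF3q3) (pc := pcF2) (cut := Cut.none) (xt := Ext.none) (P1 := 536870912) (W1 := 536870912) (P2 := 0) (W2 := 1230186008) (P3 := 134217728) (W3 := 67108864)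
    rfl k0_mm_123

noncomputable def f_mm_133 : ℕ → ℕ → ℕ → ℕ → Bool := onCell 536870912 536870912 0 1230186008 134217728 67108864
    (rowF 0 false false false .dn 1 3 3 (qsf 536870912 536870912 0 1230186008 3) ndF5q1 ndF3q3 pcF3 Cut.none Ext.none)

def k0_mm_133 : ∃ t, chk3 f_mm_133 t 1 1 1 = true :=
  ⟨(l 5), by decide +kernel⟩

theorem c_mm_133 : CertF 536870912 536870912 0 1230186008 134217728 67108864 false false false .dn 1 3 3
    ndF5q1 ndF3q3 pcF3 Cut.none Ext.none :=
  certF0 (fam := false) (s1 := false) (s2 := false) (a := 1) (b := 3) (c := 3) (cn := .dn) (n1 := ndF5q1) (n2 := ndF3q3) (pc := pcF3) (cut := Cut.none) (xt := Ext.none) (P1 := 536870912) (W1 := 536870912) (P2 := 0) (W2 := 1230186008) (P3 := 134217728) (W3 := 67108864)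
    rfl k0_mm_133

noncomputable def f_mm_202 : ℕ → ℕ → ℕ → ℕ → Bool := onCell 1073741824 536870912 0 536870912 134217728 67108864
    (rowF 1 false false false .pp 2 0 2 (qsf 1073741824 536870912 1073741824 536870912 0) ndF5q2 ndF3q2 pcF0 Cut.none Ext.none)

def k0_mm_202 : ∃ t, chk3 f_mm_202 t 1 1 1 = true :=
  ⟨(l 5), by decide +kernel⟩

theorem c_mm_202 : CertF 1073741824 536870912 1073741824 536870912 134217728 67108864 false false false .pp 2 0 2
    ndF5q2 ndF3q2 pcF0 Cut.none Ext.none :=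
  certF1 (fam := false) (s1 := false) (s2 := false) (a := 2) (b := 0) (c := 2) (cn := .pp) (n1 := ndF5q2) (n2 := ndF3q2) (pc := pcF0) (cut := Cut.none) (xt := Ext.none) (P1 := 1073741824) (W1 := 536870912) (P2 := 1073741824) (W2 := 536870912) (P3 := 134217728) (W3 := 67108864)
    rfl (fun _ => rfl) k0_mm_202

noncomputable def f_mm_203 : ℕ → ℕ → ℕ → ℕ → Bool := onCell 1073741824 536870912 0 1230186008 134217728 67108864
    (rowF 0 false false false .up 2 0 3 (qsf 1073741824 536870912 0 1230186008 0) ndF5q2 ndF3q3 pcF0 Cut.none Ext.none)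

def k0_mm_203 : ∃ t, chk3 f_mm_203 t 1 1 1 = true :=
  ⟨(l 5), by decide +kernel⟩

theorem c_mm_203 : CertF 1073741824 536870912 0 1230186008 134217728 67108864 false false false .up 2 0 3
    ndF5q2 ndF3q3 pcF0 Cut.none Ext.none :=
  certF0 (fam := false) (s1 := false) (s2 := false) (a := 2) (b := 0) (c := 3) (cn := .up) (n1 := ndF5q2) (n2 := ndF3q3) (pc := pcF0) (cut := Cut.none) (xt := Ext.none) (P1 := 1073741824) (W1 := 536870912) (P2 := 0) (W2 := 1230186008) (P3 := 134217728) (W3 := 67108864)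
    rfl k0_mm_203

noncomputable def f_mm_213 : ℕ → ℕ → ℕ → ℕ → Bool := onCell 1073741824 536870912 0 1230186008 134217728 67108864
    (rowF 0 false false false .pnn 2 1 3 (qsf 1073741824 536870912 0 1230186008 1) ndF5q2 ndF3q3 pcF1 Cut.none Ext.none)

def k0_mm_213 : ∃ t, chk3 f_mm_213 t 1 1 1 = true :=
  ⟨(l 5), by decide +kernel⟩

theorem c_mm_213 : CertF 1073741824 536870912 0 1230186008 134217728 67108864 false false false .pnn 2 1 3
    ndF5q2 ndF3q3 pcF1 Cut.none Ext.none :=
  certF0 (fam := false) (s1 := false) (s2 := false) (a := 2) (b := 1) (c := 3) (cn := .pnn) (n1 := ndF5q2) (n2 := ndF3q3) (pc := pcF1) (cut := Cut.none) (xt := Ext.none) (P1 := 1073741824) (W1 := 536870912) (P2 := 0) (W2 := 1230186008) (P3 := 134217728) (W3 := 67108864)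
    rfl k0_mm_213

noncomputable def f_mm_303 : ℕ → ℕ → ℕ → ℕ → Bool := onCell 0 1230186008 0 1230186008 134217728 67108864
    (rowF 0 false false false .npn 3 0 3 (qsf 0 1230186008 0 1230186008 0) ndF5q3 ndF3q3 pcF0 Cut.none Ext.none)

def k0_mm_303 : ∃ t, chk3 f_mm_303 t 1 1 1 = true :=
  ⟨(a (b (l 3) (l 3)) (b (l 5) (a (l 3) (l 5)))), by decide +kernel⟩

theorem c_mm_303 : CertF 0 1230186008 0 1230186008 134217728 67108864 false false false .npn 3 0 3
    ndF5q3 ndF3q3 pcF0 Cut.none Ext.none :=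
  certF0 (fam := false) (s1 := false) (s2 := false) (a := 3) (b := 0) (c := 3) (cn := .npn) (n1 := ndF5q3) (n2 := ndF3q3) (pc := pcF0) (cut := Cut.none) (xt := Ext.none) (P1 := 0) (W1 := 1230186008) (P2 := 0) (W2 := 1230186008) (P3 := 134217728) (W3 := 67108864)
    rfl k0_mm_303

noncomputable def f_mm_313 : ℕ → ℕ → ℕ → ℕ → Bool := onCell 0 1230186008 0 1230186008 134217728 67108864
    (rowF 0 false false false .dn 3 1 3 (qsf 0 1230186008 0 1230186008 1) ndF5q3 ndF3q3 pcF1 Cut.none Ext.none)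

def k0_mm_313 : ∃ t, chk3 f_mm_313 t 1 1 1 = true :=
  ⟨(a (l 1) (b (l 5) (l 1))), by decide +kernel⟩

theorem c_mm_313 : CertF 0 1230186008 0 1230186008 134217728 67108864 false false false .dn 3 1 3
    ndF5q3 ndF3q3 pcF1 Cut.none Ext.none :=
  certF0 (fam := false) (s1 := false) (s2 := false) (a := 3) (b := 1) (c := 3) (cn := .dn) (n1 := ndF5q3) (n2 := ndF3q3) (pc := pcF1) (cut := Cut.none) (xt := Ext.none) (P1 := 0) (W1 := 1230186008) (P2 := 0) (W2 := 1230186008) (P3 := 134217728) (W3 := 67108864)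
    rfl k0_mm_313

end Pool.Agent.Strip051.G.I1_8_3_16.Tab.C.FB53

namespace Pool.Agent.Strip051.G.I1_8_3_16.Tab.C.FB54

open Pool.Agent.Strip051.PB Pool.Agent.Strip051.PB.T
open Pool.Agent.Strip051.G.I1_8_3_16.Tab

noncomputable def f_pp_001 : ℕ → ℕ → ℕ → ℕ → Bool := onCell 0 536870912 536870912 536870912 134217728 67108864
    (rowF 0 false true true .up 0 0 1 (qsf 0 536870912 536870912 536870912 0) ndF5q0 ndF4q1 pcF0 Cut.none Ext.none)

def k0_pp_001 : ∃ t, chk3 f_pp_001 t 1 1 1 = true :=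
  ⟨(l 3), by decide +kernel⟩

theorem c_pp_001 : CertF 0 536870912 536870912 536870912 134217728 67108864 false true true .up 0 0 1
    ndF5q0 ndF4q1 pcF0 Cut.none Ext.none :=
  certF0 (fam := false) (s1 := true) (s2 := true) (a := 0) (b := 0) (c := 1) (cn := .up) (n1 := ndF5q0) (n2 := ndF4q1) (pc := pcF0) (cut := Cut.none) (xt := Ext.none) (P1 := 0) (W1 := 536870912) (P2 := 536870912) (W2 := 536870912) (P3 := 134217728) (W3 := 67108864)
    rfl k0_pp_001

noncomputable def f_pp_011 : ℕ → ℕ → ℕ → ℕ → Bool := onCell 0 536870912 536870912 536870912 134217728 67108864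
    (rowF 0 false true true .pnn 0 1 1 (qsf 0 536870912 536870912 536870912 1) ndF5q0 ndF4q1 pcF1 Cut.none Ext.none)

def k0_pp_011 : ∃ t, chk3 f_pp_011 t 1 1 1 = true :=
  ⟨(l 3), by decide +kernel⟩

theorem c_pp_011 : CertF 0 536870912 536870912 536870912 134217728 67108864 false true true .pnn 0 1 1
    ndF5q0 ndF4q1 pcF1 Cut.none Ext.none :=
  certF0 (fam := false) (s1 := true) (s2 := true) (a := 0) (b := 1) (c := 1) (cn := .pnn) (n1 := ndF5q0) (n2 := ndF4q1) (pc := pcF1) (cut := Cut.none) (xt := Ext.none) (P1 := 0) (W1 := 536870912) (P2 := 536870912) (W2 := 536870912) (P3 := 134217728) (W3 := 67108864)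
    rfl k0_pp_011

noncomputable def f_pp_012 : ℕ → ℕ → ℕ → ℕ → Bool := onCell 0 536870912 536870912 536870912 134217728 67108864
    (rowF 1 false true true .pnp 0 1 2 (qsf 0 536870912 1073741824 536870912 1) ndF5q0 ndF4q2 pcF1 Cut.none Ext.none)

def k0_pp_012 : ∃ t, chk3 f_pp_012 t 1 1 1 = true :=
  ⟨(b (l 3) (a (b (l 581066758599) (a (l 18883352) (l 18650440))) (b (a (l 18634552) (l 18597400)) (a (l 18497648) (l 18406080))))), by decide +kernel⟩

theorem c_pp_012 : CertF 0 536870912 1073741824 536870912 134217728 67108864 false true true .pnp 0 1 2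
    ndF5q0 ndF4q2 pcF1 Cut.none Ext.none :=
  certF1 (fam := false) (s1 := true) (s2 := true) (a := 0) (b := 1) (c := 2) (cn := .pnp) (n1 := ndF5q0) (n2 := ndF4q2) (pc := pcF1) (cut := Cut.none) (xt := Ext.none) (P1 := 0) (W1 := 536870912) (P2 := 1073741824) (W2 := 536870912) (P3 := 134217728) (W3 := 67108864)
    rfl (fun _ => rfl) k0_pp_012

noncomputable def f_pp_022 : ℕ → ℕ → ℕ → ℕ → Bool := onCell 0 536870912 1073741824 536870912 134217728 67108864
    (rowF 1 false true true .pp 0 2 2 (qsf 0 536870912 1073741824 536870912 2) ndF5q0 ndF4q2 pcF2 Cut.none Ext.none)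

def k0_pp_022 : ∃ t, chk3 f_pp_022 t 1 1 1 = true :=
  ⟨(a (b (b (b (a (l 18872952) (l 18586504)) (b (b (l 18746312) (a (l 18745456) (l 18515080))) (a (l 18701952) (l 18447008)))) (b (b (a (b (l 18689784) (l 18661224)) (l 18404848)) (l 18420344)) (l 18347496))) (b (a (l 18262152) (l 18069856)) (a (l 17995952) (l 17758128)))) (b (b (b (l 18352592) (b (b (l 18274904) (l 18238344)) (l 18173376))) (b (a (l 18134480) (l 17944320)) (l 17902176))) (b (a (l 17778240) (l 2)) (l 2)))), by decide +kernel⟩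

theorem c_pp_022 : CertF 0 536870912 1073741824 536870912 134217728 67108864 false true true .pp 0 2 2
    ndF5q0 ndF4q2 pcF2 Cut.none Ext.none :=
  certF1 (fam := false) (s1 := true) (s2 := true) (a := 0) (b := 2) (c := 2) (cn := .pp) (n1 := ndF5q0) (n2 := ndF4q2) (pc := pcF2) (cut := Cut.none) (xt := Ext.none) (P1 := 0) (W1 := 536870912) (P2 := 1073741824) (W2 := 536870912) (P3 := 134217728) (W3 := 67108864)
    rfl (fun _ => rfl) k0_pp_022

noncomputable def f_pp_023 : ℕ → ℕ → ℕ → ℕ → Bool := onCell 1073741824 536870912 0 1230186008 134217728 67108864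
    (rowF 2 false true true .up 0 2 3 (qsf 0 536870912 0 1230186008 2) ndF5q0 ndF4q3 pcF2 Cut.none Ext.none)

def k0_pp_023 : ∃ t, chk3 f_pp_023 t 1 1 1 = true :=
  ⟨(a (a (b (l 2) (b (l 2) (a (b (l 2) (l 17565448)) (b (l 2) (a (l 17486328) (l 17458176)))))) (b (l 2) (b (a (l 2) (l 17113984)) (a (b (l 17308880) (l 17432408)) (l 17350912))))) (b (a (l 2) (l 16980496)) (b (a (l 17060296) (l 16943904)) (a (l 17522096) (l 17178968))))), by decide +kernel⟩

theorem c_pp_023 : CertF 0 536870912 0 1230186008 134217728 67108864 false true true .up 0 2 3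
    ndF5q0 ndF4q3 pcF2 Cut.none Ext.none :=
  certF2 (fam := false) (s1 := true) (s2 := true) (a := 0) (b := 2) (c := 3) (cn := .up) (n1 := ndF5q0) (n2 := ndF4q3) (pc := pcF2) (cut := Cut.none) (xt := Ext.none) (P1 := 0) (W1 := 536870912) (P2 := 0) (W2 := 1230186008) (P3 := 134217728) (W3 := 67108864)
    rfl (fun _ => rfl) k0_pp_023

noncomputable def f_pp_033 : ℕ → ℕ → ℕ → ℕ → Bool := onCell 1610612736 536870912 0 1230186008 134217728 67108864
    (rowF 2 false true true .pnn 0 3 3 (qsf 0 536870912 0 1230186008 3) ndF5q0 ndF4q3 pcF3 Cut.none Ext.none)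

def k0_pp_033 : ∃ t, chk3 f_pp_033 t 1 1 1 = true :=
  ⟨(b (l 4) (b (a (a (l 17087952) (l 4)) (l 4)) (a (a (b (l 16805824) (l 16907496)) (a (l 17084872) (l 17192984))) (l 1)))), by decide +kernel⟩

theorem c_pp_033 : CertF 0 536870912 0 1230186008 134217728 67108864 false true true .pnn 0 3 3
    ndF5q0 ndF4q3 pcF3 Cut.none Ext.none :=
  certF2 (fam := false) (s1 := true) (s2 := true) (a := 0) (b := 3) (c := 3) (cn := .pnn) (n1 := ndF5q0) (n2 := ndF4q3) (pc := pcF3) (cut := Cut.none) (xt := Ext.none) (P1 := 0) (W1 := 536870912) (P2 := 0) (W2 := 1230186008) (P3 := 134217728) (W3 := 67108864)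
    rfl (fun _ => rfl) k0_pp_033

noncomputable def f_pp_101 : ℕ → ℕ → ℕ → ℕ → Bool := onCell 536870912 536870912 536870912 536870912 134217728 67108864
    (rowF 0 false true true .npn 1 0 1 (qsf 536870912 536870912 536870912 536870912 0) ndF5q1 ndF4q1 pcF0 Cut.none Ext.none)

def k0_pp_101 : ∃ t, chk3 f_pp_101 t 1 1 1 = true :=
  ⟨(l 3), by decide +kernel⟩

theorem c_pp_101 : CertF 536870912 536870912 536870912 536870912 134217728 67108864 false true true .npn 1 0 1
    ndF5q1 ndF4q1 pcF0 Cut.none Ext.none :=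
  certF0 (fam := false) (s1 := true) (s2 := true) (a := 1) (b := 0) (c := 1) (cn := .npn) (n1 := ndF5q1) (n2 := ndF4q1) (pc := pcF0) (cut := Cut.none) (xt := Ext.none) (P1 := 536870912) (W1 := 536870912) (P2 := 536870912) (W2 := 536870912) (P3 := 134217728) (W3 := 67108864)
    rfl k0_pp_101

noncomputable def f_pp_102 : ℕ → ℕ → ℕ → ℕ → Bool := onCell 536870912 536870912 0 536870912 134217728 67108864
    (rowF 1 false true true .npp 1 0 2 (qsf 536870912 536870912 1073741824 536870912 0) ndF5q1 ndF4q2 pcF0 Cut.none Ext.none)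

def k0_pp_102 : ∃ t, chk3 f_pp_102 t 1 1 1 = true :=
  ⟨(l 3), by decide +kernel⟩

theorem c_pp_102 : CertF 536870912 536870912 1073741824 536870912 134217728 67108864 false true true .npp 1 0 2
    ndF5q1 ndF4q2 pcF0 Cut.none Ext.none :=
  certF1 (fam := false) (s1 := true) (s2 := true) (a := 1) (b := 0) (c := 2) (cn := .npp) (n1 := ndF5q1) (n2 := ndF4q2) (pc := pcF0) (cut := Cut.none) (xt := Ext.none) (P1 := 536870912) (W1 := 536870912) (P2 := 1073741824) (W2 := 536870912) (P3 := 134217728) (W3 := 67108864)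
    rfl (fun _ => rfl) k0_pp_102

noncomputable def f_pp_112 : ℕ → ℕ → ℕ → ℕ → Bool := onCell 536870912 536870912 1073741824 536870912 134217728 67108864
    (rowF 2 false true true .dn 1 1 2 (qsf 536870912 536870912 1073741824 536870912 1) ndF5q1 ndF4q2 pcF1 Cut.none Ext.none)

def k0_pp_112 : ∃ t, chk3 f_pp_112 t 1 1 1 = true :=
  ⟨(a (b (l 3) (a (l 3) (l 486577342759))) (b (a (b (l 1) (l 18607312)) (l 1)) (a (l 176802420263) (l 18401080)))), by decide +kernel⟩

theorem c_pp_112 : CertF 536870912 536870912 1073741824 536870912 134217728 67108864 false true true .dn 1 1 2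
    ndF5q1 ndF4q2 pcF1 Cut.none Ext.none :=
  certF2 (fam := false) (s1 := true) (s2 := true) (a := 1) (b := 1) (c := 2) (cn := .dn) (n1 := ndF5q1) (n2 := ndF4q2) (pc := pcF1) (cut := Cut.none) (xt := Ext.none) (P1 := 536870912) (W1 := 536870912) (P2 := 1073741824) (W2 := 536870912) (P3 := 134217728) (W3 := 67108864)
    rfl (fun _ => rfl) k0_pp_112

noncomputable def f_pp_113 : ℕ → ℕ → ℕ → ℕ → Bool := onCell 536870912 536870912 0 1230186008 134217728 67108864
    (rowF 2 false true true .nn 1 1 3 (qsf 536870912 536870912 0 1230186008 1) ndF5q1 ndF4q3 pcF1 Cut.none Ext.none)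

def k0_pp_113 : ∃ t, chk3 f_pp_113 t 1 1 1 = true :=
  ⟨(a (b (l 2) (b (a (l 2) (a (l 2) (l 18492832))) (a (l 3) (b (l 18518688) (l 18612208))))) (a (b (l 2) (b (l 18086656) (b (l 18067712) (l 17978656)))) (b (b (a (l 2) (l 17039904)) (l 17570216)) (b (l 17763112) (l 17713216))))), by decide +kernel⟩

theorem c_pp_113 : CertF 536870912 536870912 0 1230186008 134217728 67108864 false true true .nn 1 1 3
    ndF5q1 ndF4q3 pcF1 Cut.none Ext.none :=
  certF2 (fam := false) (s1 := true) (s2 := true) (a := 1) (b := 1) (c := 3) (cn := .nn) (n1 := ndF5q1) (n2 := ndF4q3) (pc := pcF1) (cut := Cut.none) (xt := Ext.none) (P1 := 536870912) (W1 := 536870912) (P2 := 0) (W2 := 1230186008) (P3 := 134217728) (W3 := 67108864)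
    rfl (fun _ => rfl) k0_pp_113

noncomputable def f_pp_123 : ℕ → ℕ → ℕ → ℕ → Bool := onCell 1073741824 536870912 0 1230186008 134217728 67108864
    (rowF 2 false true true .npn 1 2 3 (qsf 536870912 536870912 0 1230186008 2) ndF5q1 ndF4q3 pcF2 Cut.none Ext.none)

def k0_pp_123 : ∃ t, chk3 f_pp_123 t 1 1 1 = true :=
  ⟨(a (a (a (b (l 17091008) (b (l 17364560) (l 17520464))) (b (l 17064248) (b (a (l 17284904) (l 17232432)) (a (a (l 17463512) (l 17442104)) (l 17408840))))) (b (l 17017024) (b (a (l 17160728) (l 17086760)) (a (b (l 17296864) (l 17439448)) (l 17371672))))) (b (a (l 16949864) (l 16907928)) (b (a (l 17097792) (l 16973624)) (l 1)))), by decide +kernel⟩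

theorem c_pp_123 : CertF 536870912 536870912 0 1230186008 134217728 67108864 false true true .npn 1 2 3
    ndF5q1 ndF4q3 pcF2 Cut.none Ext.none :=
  certF2 (fam := false) (s1 := true) (s2 := true) (a := 1) (b := 2) (c := 3) (cn := .npn) (n1 := ndF5q1) (n2 := ndF4q3) (pc := pcF2) (cut := Cut.none) (xt := Ext.none) (P1 := 536870912) (W1 := 536870912) (P2 := 0) (W2 := 1230186008) (P3 := 134217728) (W3 := 67108864)
    rfl (fun _ => rfl) k0_pp_123

noncomputable def f_pp_133 : ℕ → ℕ → ℕ → ℕ → Bool := onCell 1610612736 536870912 0 1230186008 134217728 67108864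
    (rowF 2 false true true .dn 1 3 3 (qsf 536870912 536870912 0 1230186008 3) ndF5q1 ndF4q3 pcF3 Cut.none Ext.none)

def k0_pp_133 : ∃ t, chk3 f_pp_133 t 1 1 1 = true :=
  ⟨(b (l 4) (l 1)), by decide +kernel⟩

theorem c_pp_133 : CertF 536870912 536870912 0 1230186008 134217728 67108864 false true true .dn 1 3 3
    ndF5q1 ndF4q3 pcF3 Cut.none Ext.none :=
  certF2 (fam := false) (s1 := true) (s2 := true) (a := 1) (b := 3) (c := 3) (cn := .dn) (n1 := ndF5q1) (n2 := ndF4q3) (pc := pcF3) (cut := Cut.none) (xt := Ext.none) (P1 := 536870912) (W1 := 536870912) (P2 := 0) (W2 := 1230186008) (P3 := 134217728) (W3 := 67108864)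
    rfl (fun _ => rfl) k0_pp_133

noncomputable def f_pp_202 : ℕ → ℕ → ℕ → ℕ → Bool := onCell 1073741824 536870912 1073741824 536870912 134217728 67108864
    (rowF 0 false true true .pp 2 0 2 (qsf 1073741824 536870912 1073741824 536870912 0) ndF5q2 ndF4q2 pcF0 Cut.none Ext.none)

def k0_pp_202 : ∃ t, chk3 f_pp_202 t 1 1 1 = true :=
  ⟨(l 3), by decide +kernel⟩

theorem c_pp_202 : CertF 1073741824 536870912 1073741824 536870912 134217728 67108864 false true true .pp 2 0 2
    ndF5q2 ndF4q2 pcF0 Cut.none Ext.none :=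
  certF0 (fam := false) (s1 := true) (s2 := true) (a := 2) (b := 0) (c := 2) (cn := .pp) (n1 := ndF5q2) (n2 := ndF4q2) (pc := pcF0) (cut := Cut.none) (xt := Ext.none) (P1 := 1073741824) (W1 := 536870912) (P2 := 1073741824) (W2 := 536870912) (P3 := 134217728) (W3 := 67108864)
    rfl k0_pp_202

noncomputable def f_pp_203 : ℕ → ℕ → ℕ → ℕ → Bool := onCell 0 536870912 0 1230186008 134217728 67108864
    (rowF 2 false true true .up 2 0 3 (qsf 1073741824 536870912 0 1230186008 0) ndF5q2 ndF4q3 pcF0 Cut.none Ext.none)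

def k0_pp_203 : ∃ t, chk3 f_pp_203 t 1 1 1 = true :=
  ⟨(a (b (l 2) (l 3)) (b (a (l 2) (b (l 531605178727) (a (l 17744784) (l 17828184)))) (b (l 3) (l 3)))), by decide +kernel⟩

theorem c_pp_203 : CertF 1073741824 536870912 0 1230186008 134217728 67108864 false true true .up 2 0 3
    ndF5q2 ndF4q3 pcF0 Cut.none Ext.none :=
  certF2 (fam := false) (s1 := true) (s2 := true) (a := 2) (b := 0) (c := 3) (cn := .up) (n1 := ndF5q2) (n2 := ndF4q3) (pc := pcF0) (cut := Cut.none) (xt := Ext.none) (P1 := 1073741824) (W1 := 536870912) (P2 := 0) (W2 := 1230186008) (P3 := 134217728) (W3 := 67108864)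
    rfl (fun _ => rfl) k0_pp_203

noncomputable def f_pp_213 : ℕ → ℕ → ℕ → ℕ → Bool := onCell 536870912 536870912 0 1230186008 134217728 67108864
    (rowF 2 false true true .pnn 2 1 3 (qsf 1073741824 536870912 0 1230186008 1) ndF5q2 ndF4q3 pcF1 Cut.none Ext.none)

def k0_pp_213 : ∃ t, chk3 f_pp_213 t 1 1 1 = true :=
  ⟨(b (b (a (a (l 17298504) (l 17349704)) (a (a (l 17287304) (l 17217344)) (a (l 17118680) (l 17000752)))) (a (a (a (l 17660168) (l 17628328)) (l 17597072)) (a (l 17654688) (l 17588248)))) (a (b (a (b (l 18027664) (l 18257312)) (b (l 17944344) (l 18211304))) (a (l 3) (b (l 18537112) (l 250891291511)))) (b (a (b (l 18024048) (l 18269120)) (l 18203648)) (l 1)))), by decide +kernel⟩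

theorem c_pp_213 : CertF 1073741824 536870912 0 1230186008 134217728 67108864 false true true .pnn 2 1 3
    ndF5q2 ndF4q3 pcF1 Cut.none Ext.none :=
  certF2 (fam := false) (s1 := true) (s2 := true) (a := 2) (b := 1) (c := 3) (cn := .pnn) (n1 := ndF5q2) (n2 := ndF4q3) (pc := pcF1) (cut := Cut.none) (xt := Ext.none) (P1 := 1073741824) (W1 := 536870912) (P2 := 0) (W2 := 1230186008) (P3 := 134217728) (W3 := 67108864)
    rfl (fun _ => rfl) k0_pp_213

noncomputable def f_pp_303 : ℕ → ℕ → ℕ → ℕ → Bool := onCell 0 1230186008 0 1230186008 134217728 67108864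
    (rowF 0 false true true .npn 3 0 3 (qsf 0 1230186008 0 1230186008 0) ndF5q3 ndF4q3 pcF0 Cut.none Ext.none)

def k0_pp_303 : ∃ t, chk3 f_pp_303 t 1 1 1 = true :=
  ⟨(a (b (l 3) (a (l 1) (l 3))) (b (a (l 3) (a (b (l 287932391703) (l 3)) (b (a (l 17635800) (l 17797680)) (a (l 3) (l 298133544567))))) (l 3))), by decide +kernel⟩

theorem c_pp_303 : CertF 0 1230186008 0 1230186008 134217728 67108864 false true true .npn 3 0 3
    ndF5q3 ndF4q3 pcF0 Cut.none Ext.none :=
  certF0 (fam := false) (s1 := true) (s2 := true) (a := 3) (b := 0) (c := 3) (cn := .npn) (n1 := ndF5q3) (n2 := ndF4q3) (pc := pcF0) (cut := Cut.none) (xt := Ext.none) (P1 := 0) (W1 := 1230186008) (P2 := 0) (W2 := 1230186008) (P3 := 134217728) (W3 := 67108864)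
    rfl k0_pp_303

noncomputable def f_pp_313 : ℕ → ℕ → ℕ → ℕ → Bool := onCell 0 1230186008 0 1230186008 134217728 67108864
    (rowF 0 false true true .dn 3 1 3 (qsf 0 1230186008 0 1230186008 1) ndF5q3 ndF4q3 pcF1 Cut.none Ext.none)

def k0_pp_313 : ∃ t, chk3 f_pp_313 t 1 1 1 = true :=
  ⟨(a (l 1) (b (a (l 1) (a (l 1) (b (a (l 1) (l 17360896)) (l 1)))) (l 1))), by decide +kernel⟩

theorem c_pp_313 : CertF 0 1230186008 0 1230186008 134217728 67108864 false true true .dn 3 1 3
    ndF5q3 ndF4q3 pcF1 Cut.none Ext.none :=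
  certF0 (fam := false) (s1 := true) (s2 := true) (a := 3) (b := 1) (c := 3) (cn := .dn) (n1 := ndF5q3) (n2 := ndF4q3) (pc := pcF1) (cut := Cut.none) (xt := Ext.none) (P1 := 0) (W1 := 1230186008) (P2 := 0) (W2 := 1230186008) (P3 := 134217728) (W3 := 67108864)
    rfl k0_pp_313

noncomputable def f_pm_001 : ℕ → ℕ → ℕ → ℕ → Bool := onCell 0 536870912 536870912 536870912 134217728 67108864
    (rowF 0 false true false .up 0 0 1 (qsf 0 536870912 536870912 536870912 0) ndF5q0 ndF4q1 pcF0 Cut.none Ext.none)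

def k0_pm_001 : ∃ t, chk3 f_pm_001 t 1 1 1 = true :=
  ⟨(l 4), by decide +kernel⟩

theorem c_pm_001 : CertF 0 536870912 536870912 536870912 134217728 67108864 false true false .up 0 0 1
    ndF5q0 ndF4q1 pcF0 Cut.none Ext.none :=
  certF0 (fam := false) (s1 := true) (s2 := false) (a := 0) (b := 0) (c := 1) (cn := .up) (n1 := ndF5q0) (n2 := ndF4q1) (pc := pcF0) (cut := Cut.none) (xt := Ext.none) (P1 := 0) (W1 := 536870912) (P2 := 536870912) (W2 := 536870912) (P3 := 134217728) (W3 := 67108864)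
    rfl k0_pm_001

noncomputable def f_pm_011 : ℕ → ℕ → ℕ → ℕ → Bool := onCell 0 536870912 536870912 536870912 134217728 67108864
    (rowF 0 false true false .pnn 0 1 1 (qsf 0 536870912 536870912 536870912 1) ndF5q0 ndF4q1 pcF1 Cut.none Ext.none)

def k0_pm_011 : ∃ t, chk3 f_pm_011 t 1 1 1 = true :=
  ⟨(l 4), by decide +kernel⟩

theorem c_pm_011 : CertF 0 536870912 536870912 536870912 134217728 67108864 false true false .pnn 0 1 1
    ndF5q0 ndF4q1 pcF1 Cut.none Ext.none :=
  certF0 (fam := false) (s1 := true) (s2 := false) (a := 0) (b := 1) (c := 1) (cn := .pnn) (n1 := ndF5q0) (n2 := ndF4q1) (pc := pcF1) (cut := Cut.none) (xt := Ext.none) (P1 := 0) (W1 := 536870912) (P2 := 536870912) (W2 := 536870912) (P3 := 134217728) (W3 := 67108864)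
    rfl k0_pm_011

noncomputable def f_pm_012 : ℕ → ℕ → ℕ → ℕ → Bool := onCell 0 536870912 1073741824 536870912 134217728 67108864
    (rowF 0 false true false .pnp 0 1 2 (qsf 0 536870912 1073741824 536870912 1) ndF5q0 ndF4q2 pcF1 Cut.none Ext.none)

def k0_pm_012 : ∃ t, chk3 f_pm_012 t 1 1 1 = true :=
  ⟨(l 4), by decide +kernel⟩

theorem c_pm_012 : CertF 0 536870912 1073741824 536870912 134217728 67108864 false true false .pnp 0 1 2
    ndF5q0 ndF4q2 pcF1 Cut.none Ext.none :=
  certF0 (fam := false) (s1 := true) (s2 := false) (a := 0) (b := 1) (c := 2) (cn := .pnp) (n1 := ndF5q0) (n2 := ndF4q2) (pc := pcF1) (cut := Cut.none) (xt := Ext.none) (P1 := 0) (W1 := 536870912) (P2 := 1073741824) (W2 := 536870912) (P3 := 134217728) (W3 := 67108864)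
    rfl k0_pm_012

noncomputable def f_pm_022 : ℕ → ℕ → ℕ → ℕ → Bool := onCell 0 536870912 1073741824 536870912 134217728 67108864
    (rowF 0 false true false .pp 0 2 2 (qsf 0 536870912 1073741824 536870912 2) ndF5q0 ndF4q2 pcF2 Cut.none Ext.none)

def k0_pm_022 : ∃ t, chk3 f_pm_022 t 1 1 1 = true :=
  ⟨(l 4), by decide +kernel⟩

theorem c_pm_022 : CertF 0 536870912 1073741824 536870912 134217728 67108864 false true false .pp 0 2 2
    ndF5q0 ndF4q2 pcF2 Cut.none Ext.none :=
  certF0 (fam := false) (s1 := true) (s2 := false) (a := 0) (b := 2) (c := 2) (cn := .pp) (n1 := ndF5q0) (n2 := ndF4q2) (pc := pcF2) (cut := Cut.none) (xt := Ext.none) (P1 := 0) (W1 := 536870912) (P2 := 1073741824) (W2 := 536870912) (P3 := 134217728) (W3 := 67108864)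
    rfl k0_pm_022

noncomputable def f_pm_023 : ℕ → ℕ → ℕ → ℕ → Bool := onCell 0 536870912 0 1230186008 134217728 67108864
    (rowF 0 false true false .up 0 2 3 (qsf 0 536870912 0 1230186008 2) ndF5q0 ndF4q3 pcF2 Cut.none Ext.none)

def k0_pm_023 : ∃ t, chk3 f_pm_023 t 1 1 1 = true :=
  ⟨(l 4), by decide +kernel⟩

theorem c_pm_023 : CertF 0 536870912 0 1230186008 134217728 67108864 false true false .up 0 2 3
    ndF5q0 ndF4q3 pcF2 Cut.none Ext.none :=
  certF0 (fam := false) (s1 := true) (s2 := false) (a := 0) (b := 2) (c := 3) (cn := .up) (n1 := ndF5q0) (n2 := ndF4q3) (pc := pcF2) (cut := Cut.none) (xt := Ext.none) (P1 := 0) (W1 := 536870912) (P2 := 0) (W2 := 1230186008) (P3 := 134217728) (W3 := 67108864)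
    rfl k0_pm_023

noncomputable def f_pm_033 : ℕ → ℕ → ℕ → ℕ → Bool := onCell 0 536870912 0 1230186008 134217728 67108864
    (rowF 0 false true false .pnn 0 3 3 (qsf 0 536870912 0 1230186008 3) ndF5q0 ndF4q3 pcF3 Cut.none Ext.none)

def k0_pm_033 : ∃ t, chk3 f_pm_033 t 1 1 1 = true :=
  ⟨(l 4), by decide +kernel⟩

theorem c_pm_033 : CertF 0 536870912 0 1230186008 134217728 67108864 false true false .pnn 0 3 3
    ndF5q0 ndF4q3 pcF3 Cut.none Ext.none :=
  certF0 (fam := false) (s1 := true) (s2 := false) (a := 0) (b := 3) (c := 3) (cn := .pnn) (n1 := ndF5q0) (n2 := ndF4q3) (pc := pcF3) (cut := Cut.none) (xt := Ext.none) (P1 := 0) (W1 := 536870912) (P2 := 0) (W2 := 1230186008) (P3 := 134217728) (W3 := 67108864)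
    rfl k0_pm_033

noncomputable def f_pm_101 : ℕ → ℕ → ℕ → ℕ → Bool := onCell 536870912 536870912 536870912 536870912 134217728 67108864
    (rowF 0 false true false .npn 1 0 1 (qsf 536870912 536870912 536870912 536870912 0) ndF5q1 ndF4q1 pcF0 Cut.none Ext.none)

def k0_pm_101 : ∃ t, chk3 f_pm_101 t 1 1 1 = true :=
  ⟨(l 4), by decide +kernel⟩

theorem c_pm_101 : CertF 536870912 536870912 536870912 536870912 134217728 67108864 false true false .npn 1 0 1
    ndF5q1 ndF4q1 pcF0 Cut.none Ext.none :=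
  certF0 (fam := false) (s1 := true) (s2 := false) (a := 1) (b := 0) (c := 1) (cn := .npn) (n1 := ndF5q1) (n2 := ndF4q1) (pc := pcF0) (cut := Cut.none) (xt := Ext.none) (P1 := 536870912) (W1 := 536870912) (P2 := 536870912) (W2 := 536870912) (P3 := 134217728) (W3 := 67108864)
    rfl k0_pm_101

noncomputable def f_pm_102 : ℕ → ℕ → ℕ → ℕ → Bool := onCell 536870912 536870912 1073741824 536870912 134217728 67108864
    (rowF 0 false true false .npp 1 0 2 (qsf 536870912 536870912 1073741824 536870912 0) ndF5q1 ndF4q2 pcF0 Cut.none Ext.none)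

def k0_pm_102 : ∃ t, chk3 f_pm_102 t 1 1 1 = true :=
  ⟨(l 4), by decide +kernel⟩

theorem c_pm_102 : CertF 536870912 536870912 1073741824 536870912 134217728 67108864 false true false .npp 1 0 2
    ndF5q1 ndF4q2 pcF0 Cut.none Ext.none :=
  certF0 (fam := false) (s1 := true) (s2 := false) (a := 1) (b := 0) (c := 2) (cn := .npp) (n1 := ndF5q1) (n2 := ndF4q2) (pc := pcF0) (cut := Cut.none) (xt := Ext.none) (P1 := 536870912) (W1 := 536870912) (P2 := 1073741824) (W2 := 536870912) (P3 := 134217728) (W3 := 67108864)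
    rfl k0_pm_102

noncomputable def f_pm_112 : ℕ → ℕ → ℕ → ℕ → Bool := onCell 536870912 536870912 1073741824 536870912 134217728 67108864
    (rowF 0 false true false .dn 1 1 2 (qsf 536870912 536870912 1073741824 536870912 1) ndF5q1 ndF4q2 pcF1 Cut.none Ext.none)

def k0_pm_112 : ∃ t, chk3 f_pm_112 t 1 1 1 = true :=
  ⟨(l 4), by decide +kernel⟩

theorem c_pm_112 : CertF 536870912 536870912 1073741824 536870912 134217728 67108864 false true false .dn 1 1 2
    ndF5q1 ndF4q2 pcF1 Cut.none Ext.none :=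
  certF0 (fam := false) (s1 := true) (s2 := false) (a := 1) (b := 1) (c := 2) (cn := .dn) (n1 := ndF5q1) (n2 := ndF4q2) (pc := pcF1) (cut := Cut.none) (xt := Ext.none) (P1 := 536870912) (W1 := 536870912) (P2 := 1073741824) (W2 := 536870912) (P3 := 134217728) (W3 := 67108864)
    rfl k0_pm_112

noncomputable def f_pm_113 : ℕ → ℕ → ℕ → ℕ → Bool := onCell 536870912 536870912 0 1230186008 134217728 67108864
    (rowF 0 false true false .nn 1 1 3 (qsf 536870912 536870912 0 1230186008 1) ndF5q1 ndF4q3 pcF1 Cut.none Ext.none)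

def k0_pm_113 : ∃ t, chk3 f_pm_113 t 1 1 1 = true :=
  ⟨(b (b (a (l 2) (l 16871560)) (l 4)) (l 4)), by decide +kernel⟩

theorem c_pm_113 : CertF 536870912 536870912 0 1230186008 134217728 67108864 false true false .nn 1 1 3
    ndF5q1 ndF4q3 pcF1 Cut.none Ext.none :=
  certF0 (fam := false) (s1 := true) (s2 := false) (a := 1) (b := 1) (c := 3) (cn := .nn) (n1 := ndF5q1) (n2 := ndF4q3) (pc := pcF1) (cut := Cut.none) (xt := Ext.none) (P1 := 536870912) (W1 := 536870912) (P2 := 0) (W2 := 1230186008) (P3 := 134217728) (W3 := 67108864)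
    rfl k0_pm_113

noncomputable def f_pm_123 : ℕ → ℕ → ℕ → ℕ → Bool := onCell 1073741824 536870912 0 1230186008 134217728 67108864
    (rowF 2 false true false .npn 1 2 3 (qsf 536870912 536870912 0 1230186008 2) ndF5q1 ndF4q3 pcF2 Cut.none Ext.none)

def k0_pm_123 : ∃ t, chk3 f_pm_123 t 1 1 1 = true :=
  ⟨(b (a (a (l 17333808) (l 4)) (l 4)) (l 4)), by decide +kernel⟩

theorem c_pm_123 : CertF 536870912 536870912 0 1230186008 134217728 67108864 false true false .npn 1 2 3
    ndF5q1 ndF4q3 pcF2 Cut.none Ext.none :=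
  certF2 (fam := false) (s1 := true) (s2 := false) (a := 1) (b := 2) (c := 3) (cn := .npn) (n1 := ndF5q1) (n2 := ndF4q3) (pc := pcF2) (cut := Cut.none) (xt := Ext.none) (P1 := 536870912) (W1 := 536870912) (P2 := 0) (W2 := 1230186008) (P3 := 134217728) (W3 := 67108864)
    rfl (fun _ => rfl) k0_pm_123

noncomputable def f_pm_133 : ℕ → ℕ → ℕ → ℕ → Bool := onCell 1610612736 536870912 0 1230186008 134217728 67108864
    (rowF 2 false true false .dn 1 3 3 (qsf 536870912 536870912 0 1230186008 3) ndF5q1 ndF4q3 pcF3 Cut.none Ext.none)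

def k0_pm_133 : ∃ t, chk3 f_pm_133 t 1 1 1 = true :=
  ⟨(l 4), by decide +kernel⟩

theorem c_pm_133 : CertF 536870912 536870912 0 1230186008 134217728 67108864 false true false .dn 1 3 3
    ndF5q1 ndF4q3 pcF3 Cut.none Ext.none :=
  certF2 (fam := false) (s1 := true) (s2 := false) (a := 1) (b := 3) (c := 3) (cn := .dn) (n1 := ndF5q1) (n2 := ndF4q3) (pc := pcF3) (cut := Cut.none) (xt := Ext.none) (P1 := 536870912) (W1 := 536870912) (P2 := 0) (W2 := 1230186008) (P3 := 134217728) (W3 := 67108864)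
    rfl (fun _ => rfl) k0_pm_133

noncomputable def f_pm_202 : ℕ → ℕ → ℕ → ℕ → Bool := onCell 1073741824 536870912 1073741824 536870912 134217728 67108864
    (rowF 0 false true false .pp 2 0 2 (qsf 1073741824 536870912 1073741824 536870912 0) ndF5q2 ndF4q2 pcF0 Cut.none Ext.none)

def k0_pm_202 : ∃ t, chk3 f_pm_202 t 1 1 1 = true :=
  ⟨(l 4), by decide +kernel⟩

theorem c_pm_202 : CertF 1073741824 536870912 1073741824 536870912 134217728 67108864 false true false .pp 2 0 2
    ndF5q2 ndF4q2 pcF0 Cut.none Ext.none :=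
  certF0 (fam := false) (s1 := true) (s2 := false) (a := 2) (b := 0) (c := 2) (cn := .pp) (n1 := ndF5q2) (n2 := ndF4q2) (pc := pcF0) (cut := Cut.none) (xt := Ext.none) (P1 := 1073741824) (W1 := 536870912) (P2 := 1073741824) (W2 := 536870912) (P3 := 134217728) (W3 := 67108864)
    rfl k0_pm_202

noncomputable def f_pm_203 : ℕ → ℕ → ℕ → ℕ → Bool := onCell 1073741824 536870912 0 1230186008 134217728 67108864
    (rowF 0 false true false .up 2 0 3 (qsf 1073741824 536870912 0 1230186008 0) ndF5q2 ndF4q3 pcF0 Cut.none Ext.none)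

def k0_pm_203 : ∃ t, chk3 f_pm_203 t 1 1 1 = true :=
  ⟨(a (b (l 2) (l 4)) (b (a (l 2) (b (l 18021120) (b (l 18168520) (a (l 17724016) (l 17915608))))) (b (a (b (l 17615640) (l 4)) (b (l 17732232) (l 17425344))) (l 4)))), by decide +kernel⟩

theorem c_pm_203 : CertF 1073741824 536870912 0 1230186008 134217728 67108864 false true false .up 2 0 3
    ndF5q2 ndF4q3 pcF0 Cut.none Ext.none :=
  certF0 (fam := false) (s1 := true) (s2 := false) (a := 2) (b := 0) (c := 3) (cn := .up) (n1 := ndF5q2) (n2 := ndF4q3) (pc := pcF0) (cut := Cut.none) (xt := Ext.none) (P1 := 1073741824) (W1 := 536870912) (P2 := 0) (W2 := 1230186008) (P3 := 134217728) (W3 := 67108864)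
    rfl k0_pm_203

noncomputable def f_pm_213 : ℕ → ℕ → ℕ → ℕ → Bool := onCell 536870912 536870912 0 1230186008 134217728 67108864
    (rowF 2 false true false .pnn 2 1 3 (qsf 1073741824 536870912 0 1230186008 1) ndF5q2 ndF4q3 pcF1 Cut.none Ext.none)

def k0_pm_213 : ∃ t, chk3 f_pm_213 t 1 1 1 = true :=
  ⟨(b (b (a (a (l 17168008) (l 17056616)) (a (a (l 16996784) (l 16938856)) (a (l 16875920) (l 16896200)))) (a (a (l 17074600) (l 17054152)) (a (l 17084768) (l 4)))) (b (a (a (l 17300456) (l 4)) (l 4)) (l 4))), by decide +kernel⟩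

theorem c_pm_213 : CertF 1073741824 536870912 0 1230186008 134217728 67108864 false true false .pnn 2 1 3
    ndF5q2 ndF4q3 pcF1 Cut.none Ext.none :=
  certF2 (fam := false) (s1 := true) (s2 := false) (a := 2) (b := 1) (c := 3) (cn := .pnn) (n1 := ndF5q2) (n2 := ndF4q3) (pc := pcF1) (cut := Cut.none) (xt := Ext.none) (P1 := 1073741824) (W1 := 536870912) (P2 := 0) (W2 := 1230186008) (P3 := 134217728) (W3 := 67108864)
    rfl (fun _ => rfl) k0_pm_213

noncomputable def f_pm_303 : ℕ → ℕ → ℕ → ℕ → Bool := onCell 0 1230186008 0 1230186008 134217728 67108864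
    (rowF 0 false true false .npn 3 0 3 (qsf 0 1230186008 0 1230186008 0) ndF5q3 ndF4q3 pcF0 Cut.none Ext.none)

def k0_pm_303 : ∃ t, chk3 f_pm_303 t 1 1 1 = true :=
  ⟨(a (b (l 3) (a (l 1) (b (a (l 1) (b (b (l 17847296) (l 1)) (l 1))) (l 1)))) (b (b (a (l 272900035879) (a (l 17681944) (l 17828840))) (a (a (l 221897538647) (l 154788954391)) (a (b (l 17907120) (l 17774584)) (l 17934232)))) (a (b (b (a (b (l 17799992) (l 17449176)) (l 17478120)) (a (l 17204584) (l 16976736))) (a (l 1) (b (b (l 17022984) (l 1)) (l 1)))) (b (a (b (l 17573032) (l 17173456)) (b (l 17477840) (l 17449224))) (a (b (l 16888560) (a (l 1) (b (l 16849520) (l 1)))) (b (l 17153816) (l 17118008))))))), by decide +kernel⟩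

theorem c_pm_303 : CertF 0 1230186008 0 1230186008 134217728 67108864 false true false .npn 3 0 3
    ndF5q3 ndF4q3 pcF0 Cut.none Ext.none :=
  certF0 (fam := false) (s1 := true) (s2 := false) (a := 3) (b := 0) (c := 3) (cn := .npn) (n1 := ndF5q3) (n2 := ndF4q3) (pc := pcF0) (cut := Cut.none) (xt := Ext.none) (P1 := 0) (W1 := 1230186008) (P2 := 0) (W2 := 1230186008) (P3 := 134217728) (W3 := 67108864)
    rfl k0_pm_303

noncomputable def f_pm_313 : ℕ → ℕ → ℕ → ℕ → Bool := onCell 0 1230186008 0 1230186008 134217728 67108864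
    (rowF 0 false true false .dn 3 1 3 (qsf 0 1230186008 0 1230186008 1) ndF5q3 ndF4q3 pcF1 Cut.none Ext.none)

def k0_pm_313 : ∃ t, chk3 f_pm_313 t 1 1 1 = true :=
  ⟨(a (l 1) (b (a (l 1) (a (l 1) (b (a (l 1) (l 17097344)) (l 1)))) (l 1))), by decide +kernel⟩

theorem c_pm_313 : CertF 0 1230186008 0 1230186008 134217728 67108864 false true false .dn 3 1 3
    ndF5q3 ndF4q3 pcF1 Cut.none Ext.none :=
  certF0 (fam := false) (s1 := true) (s2 := false) (a := 3) (b := 1) (c := 3) (cn := .dn) (n1 := ndF5q3) (n2 := ndF4q3) (pc := pcF1) (cut := Cut.none) (xt := Ext.none) (P1 := 0) (W1 := 1230186008) (P2 := 0) (W2 := 1230186008) (P3 := 134217728) (W3 := 67108864)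
    rfl k0_pm_313

noncomputable def f_mm_001 : ℕ → ℕ → ℕ → ℕ → Bool := onCell 0 536870912 536870912 536870912 134217728 67108864
    (rowF 0 false false false .up 0 0 1 (qsf 0 536870912 536870912 536870912 0) ndF5q0 ndF4q1 pcF0 Cut.none Ext.none)

def k0_mm_001 : ∃ t, chk3 f_mm_001 t 1 1 1 = true :=
  ⟨(l 3), by decide +kernel⟩

theorem c_mm_001 : CertF 0 536870912 536870912 536870912 134217728 67108864 false false false .up 0 0 1
    ndF5q0 ndF4q1 pcF0 Cut.none Ext.none :=
  certF0 (fam := false) (s1 := false) (s2 := false) (a := 0) (b := 0) (c := 1) (cn := .up) (n1 := ndF5q0) (n2 := ndF4q1) (pc := pcF0) (cut := Cut.none) (xt := Ext.none) (P1 := 0) (W1 := 536870912) (P2 := 536870912) (W2 := 536870912) (P3 := 134217728) (W3 := 67108864)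
    rfl k0_mm_001

noncomputable def f_mm_011 : ℕ → ℕ → ℕ → ℕ → Bool := onCell 0 536870912 536870912 536870912 134217728 67108864
    (rowF 0 false false false .pnn 0 1 1 (qsf 0 536870912 536870912 536870912 1) ndF5q0 ndF4q1 pcF1 Cut.none Ext.none)

def k0_mm_011 : ∃ t, chk3 f_mm_011 t 1 1 1 = true :=
  ⟨(l 3), by decide +kernel⟩

theorem c_mm_011 : CertF 0 536870912 536870912 536870912 134217728 67108864 false false false .pnn 0 1 1
    ndF5q0 ndF4q1 pcF1 Cut.none Ext.none :=
  certF0 (fam := false) (s1 := false) (s2 := false) (a := 0) (b := 1) (c := 1) (cn := .pnn) (n1 := ndF5q0) (n2 := ndF4q1) (pc := pcF1) (cut := Cut.none) (xt := Ext.none) (P1 := 0) (W1 := 536870912) (P2 := 536870912) (W2 := 536870912) (P3 := 134217728) (W3 := 67108864)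
    rfl k0_mm_011

noncomputable def f_mm_012 : ℕ → ℕ → ℕ → ℕ → Bool := onCell 0 536870912 1073741824 536870912 134217728 67108864
    (rowF 0 false false false .pnp 0 1 2 (qsf 0 536870912 1073741824 536870912 1) ndF5q0 ndF4q2 pcF1 Cut.none Ext.none)

def k0_mm_012 : ∃ t, chk3 f_mm_012 t 1 1 1 = true :=
  ⟨(l 5), by decide +kernel⟩

theorem c_mm_012 : CertF 0 536870912 1073741824 536870912 134217728 67108864 false false false .pnp 0 1 2
    ndF5q0 ndF4q2 pcF1 Cut.none Ext.none :=
  certF0 (fam := false) (s1 := false) (s2 := false) (a := 0) (b := 1) (c := 2) (cn := .pnp) (n1 := ndF5q0) (n2 := ndF4q2) (pc := pcF1) (cut := Cut.none) (xt := Ext.none) (P1 := 0) (W1 := 536870912) (P2 := 1073741824) (W2 := 536870912) (P3 := 134217728) (W3 := 67108864)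
    rfl k0_mm_012

noncomputable def f_mm_022 : ℕ → ℕ → ℕ → ℕ → Bool := onCell 0 536870912 1073741824 536870912 134217728 67108864
    (rowF 0 false false false .pp 0 2 2 (qsf 0 536870912 1073741824 536870912 2) ndF5q0 ndF4q2 pcF2 Cut.none Ext.none)

def k0_mm_022 : ∃ t, chk3 f_mm_022 t 1 1 1 = true :=
  ⟨(l 5), by decide +kernel⟩

theorem c_mm_022 : CertF 0 536870912 1073741824 536870912 134217728 67108864 false false false .pp 0 2 2
    ndF5q0 ndF4q2 pcF2 Cut.none Ext.none :=
  certF0 (fam := false) (s1 := false) (s2 := false) (a := 0) (b := 2) (c := 2) (cn := .pp) (n1 := ndF5q0) (n2 := ndF4q2) (pc := pcF2) (cut := Cut.none) (xt := Ext.none) (P1 := 0) (W1 := 536870912) (P2 := 1073741824) (W2 := 536870912) (P3 := 134217728) (W3 := 67108864)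
    rfl k0_mm_022

noncomputable def f_mm_023 : ℕ → ℕ → ℕ → ℕ → Bool := onCell 0 536870912 0 1230186008 134217728 67108864
    (rowF 0 false false false .up 0 2 3 (qsf 0 536870912 0 1230186008 2) ndF5q0 ndF4q3 pcF2 Cut.none Ext.none)

def k0_mm_023 : ∃ t, chk3 f_mm_023 t 1 1 1 = true :=
  ⟨(l 5), by decide +kernel⟩

theorem c_mm_023 : CertF 0 536870912 0 1230186008 134217728 67108864 false false false .up 0 2 3
    ndF5q0 ndF4q3 pcF2 Cut.none Ext.none :=
  certF0 (fam := false) (s1 := false) (s2 := false) (a := 0) (b := 2) (c := 3) (cn := .up) (n1 := ndF5q0) (n2 := ndF4q3) (pc := pcF2) (cut := Cut.none) (xt := Ext.none) (P1 := 0) (W1 := 536870912) (P2 := 0) (W2 := 1230186008) (P3 := 134217728) (W3 := 67108864)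
    rfl k0_mm_023

noncomputable def f_mm_033 : ℕ → ℕ → ℕ → ℕ → Bool := onCell 0 536870912 0 1230186008 134217728 67108864
    (rowF 0 false false false .pnn 0 3 3 (qsf 0 536870912 0 1230186008 3) ndF5q0 ndF4q3 pcF3 Cut.none Ext.none)

def k0_mm_033 : ∃ t, chk3 f_mm_033 t 1 1 1 = true :=
  ⟨(l 5), by decide +kernel⟩

theorem c_mm_033 : CertF 0 536870912 0 1230186008 134217728 67108864 false false false .pnn 0 3 3
    ndF5q0 ndF4q3 pcF3 Cut.none Ext.none :=
  certF0 (fam := false) (s1 := false) (s2 := false) (a := 0) (b := 3) (c := 3) (cn := .pnn) (n1 := ndF5q0) (n2 := ndF4q3) (pc := pcF3) (cut := Cut.none) (xt := Ext.none) (P1 := 0) (W1 := 536870912) (P2 := 0) (W2 := 1230186008) (P3 := 134217728) (W3 := 67108864)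
    rfl k0_mm_033

noncomputable def f_mm_101 : ℕ → ℕ → ℕ → ℕ → Bool := onCell 536870912 536870912 536870912 536870912 134217728 67108864
    (rowF 0 false false false .npn 1 0 1 (qsf 536870912 536870912 536870912 536870912 0) ndF5q1 ndF4q1 pcF0 Cut.none Ext.none)

def k0_mm_101 : ∃ t, chk3 f_mm_101 t 1 1 1 = true :=
  ⟨(l 3), by decide +kernel⟩

theorem c_mm_101 : CertF 536870912 536870912 536870912 536870912 134217728 67108864 false false false .npn 1 0 1
    ndF5q1 ndF4q1 pcF0 Cut.none Ext.none :=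
  certF0 (fam := false) (s1 := false) (s2 := false) (a := 1) (b := 0) (c := 1) (cn := .npn) (n1 := ndF5q1) (n2 := ndF4q1) (pc := pcF0) (cut := Cut.none) (xt := Ext.none) (P1 := 536870912) (W1 := 536870912) (P2 := 536870912) (W2 := 536870912) (P3 := 134217728) (W3 := 67108864)
    rfl k0_mm_101

noncomputable def f_mm_102 : ℕ → ℕ → ℕ → ℕ → Bool := onCell 536870912 536870912 1073741824 536870912 134217728 67108864
    (rowF 0 false false false .npp 1 0 2 (qsf 536870912 536870912 1073741824 536870912 0) ndF5q1 ndF4q2 pcF0 Cut.none Ext.none)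

def k0_mm_102 : ∃ t, chk3 f_mm_102 t 1 1 1 = true :=
  ⟨(l 5), by decide +kernel⟩

theorem c_mm_102 : CertF 536870912 536870912 1073741824 536870912 134217728 67108864 false false false .npp 1 0 2
    ndF5q1 ndF4q2 pcF0 Cut.none Ext.none :=
  certF0 (fam := false) (s1 := false) (s2 := false) (a := 1) (b := 0) (c := 2) (cn := .npp) (n1 := ndF5q1) (n2 := ndF4q2) (pc := pcF0) (cut := Cut.none) (xt := Ext.none) (P1 := 536870912) (W1 := 536870912) (P2 := 1073741824) (W2 := 536870912) (P3 := 134217728) (W3 := 67108864)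
    rfl k0_mm_102

noncomputable def f_mm_112 : ℕ → ℕ → ℕ → ℕ → Bool := onCell 536870912 536870912 1073741824 536870912 134217728 67108864
    (rowF 0 false false false .dn 1 1 2 (qsf 536870912 536870912 1073741824 536870912 1) ndF5q1 ndF4q2 pcF1 Cut.none Ext.none)

def k0_mm_112 : ∃ t, chk3 f_mm_112 t 1 1 1 = true :=
  ⟨(l 5), by decide +kernel⟩

theorem c_mm_112 : CertF 536870912 536870912 1073741824 536870912 134217728 67108864 false false false .dn 1 1 2
    ndF5q1 ndF4q2 pcF1 Cut.none Ext.none :=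
  certF0 (fam := false) (s1 := false) (s2 := false) (a := 1) (b := 1) (c := 2) (cn := .dn) (n1 := ndF5q1) (n2 := ndF4q2) (pc := pcF1) (cut := Cut.none) (xt := Ext.none) (P1 := 536870912) (W1 := 536870912) (P2 := 1073741824) (W2 := 536870912) (P3 := 134217728) (W3 := 67108864)
    rfl k0_mm_112

noncomputable def f_mm_113 : ℕ → ℕ → ℕ → ℕ → Bool := onCell 536870912 536870912 0 1230186008 134217728 67108864
    (rowF 0 false false false .nn 1 1 3 (qsf 536870912 536870912 0 1230186008 1) ndF5q1 ndF4q3 pcF1 Cut.none Ext.none)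

def k0_mm_113 : ∃ t, chk3 f_mm_113 t 1 1 1 = true :=
  ⟨(l 5), by decide +kernel⟩

theorem c_mm_113 : CertF 536870912 536870912 0 1230186008 134217728 67108864 false false false .nn 1 1 3
    ndF5q1 ndF4q3 pcF1 Cut.none Ext.none :=
  certF0 (fam := false) (s1 := false) (s2 := false) (a := 1) (b := 1) (c := 3) (cn := .nn) (n1 := ndF5q1) (n2 := ndF4q3) (pc := pcF1) (cut := Cut.none) (xt := Ext.none) (P1 := 536870912) (W1 := 536870912) (P2 := 0) (W2 := 1230186008) (P3 := 134217728) (W3 := 67108864)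
    rfl k0_mm_113

noncomputable def f_mm_123 : ℕ → ℕ → ℕ → ℕ → Bool := onCell 536870912 536870912 0 1230186008 134217728 67108864
    (rowF 0 false false false .npn 1 2 3 (qsf 536870912 536870912 0 1230186008 2) ndF5q1 ndF4q3 pcF2 Cut.none Ext.none)

def k0_mm_123 : ∃ t, chk3 f_mm_123 t 1 1 1 = true :=
  ⟨(l 5), by decide +kernel⟩

theorem c_mm_123 : CertF 536870912 536870912 0 1230186008 134217728 67108864 false false false .npn 1 2 3
    ndF5q1 ndF4q3 pcF2 Cut.none Ext.none :=
  certF0 (fam := false) (s1 := false) (s2 := false) (a := 1) (b := 2) (c := 3) (cn := .npn) (n1 := ndF5q1) (n2 := ndF4q3) (pc := pcF2) (cut := Cut.none) (xt := Ext.none) (P1 := 536870912) (W1 := 536870912) (P2 := 0) (W2 := 1230186008) (P3 := 134217728) (W3 := 67108864)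
    rfl k0_mm_123

noncomputable def f_mm_133 : ℕ → ℕ → ℕ → ℕ → Bool := onCell 536870912 536870912 0 1230186008 134217728 67108864
    (rowF 0 false false false .dn 1 3 3 (qsf 536870912 536870912 0 1230186008 3) ndF5q1 ndF4q3 pcF3 Cut.none Ext.none)

def k0_mm_133 : ∃ t, chk3 f_mm_133 t 1 1 1 = true :=
  ⟨(l 5), by decide +kernel⟩

theorem c_mm_133 : CertF 536870912 536870912 0 1230186008 134217728 67108864 false false false .dn 1 3 3
    ndF5q1 ndF4q3 pcF3 Cut.none Ext.none :=
  certF0 (fam := false) (s1 := false) (s2 := false) (a := 1) (b := 3) (c := 3) (cn := .dn) (n1 := ndF5q1) (n2 := ndF4q3) (pc := pcF3) (cut := Cut.none) (xt := Ext.none) (P1 := 536870912) (W1 := 536870912) (P2 := 0) (W2 := 1230186008) (P3 := 134217728) (W3 := 67108864)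
    rfl k0_mm_133

noncomputable def f_mm_202 : ℕ → ℕ → ℕ → ℕ → Bool := onCell 1073741824 536870912 1073741824 536870912 134217728 67108864
    (rowF 0 false false false .pp 2 0 2 (qsf 1073741824 536870912 1073741824 536870912 0) ndF5q2 ndF4q2 pcF0 Cut.none Ext.none)

def k0_mm_202 : ∃ t, chk3 f_mm_202 t 1 1 1 = true :=
  ⟨(l 3), by decide +kernel⟩

theorem c_mm_202 : CertF 1073741824 536870912 1073741824 536870912 134217728 67108864 false false false .pp 2 0 2
    ndF5q2 ndF4q2 pcF0 Cut.none Ext.none :=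
  certF0 (fam := false) (s1 := false) (s2 := false) (a := 2) (b := 0) (c := 2) (cn := .pp) (n1 := ndF5q2) (n2 := ndF4q2) (pc := pcF0) (cut := Cut.none) (xt := Ext.none) (P1 := 1073741824) (W1 := 536870912) (P2 := 1073741824) (W2 := 536870912) (P3 := 134217728) (W3 := 67108864)
    rfl k0_mm_202

noncomputable def f_mm_203 : ℕ → ℕ → ℕ → ℕ → Bool := onCell 1073741824 536870912 0 1230186008 134217728 67108864
    (rowF 0 false false false .up 2 0 3 (qsf 1073741824 536870912 0 1230186008 0) ndF5q2 ndF4q3 pcF0 Cut.none Ext.none)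

def k0_mm_203 : ∃ t, chk3 f_mm_203 t 1 1 1 = true :=
  ⟨(l 5), by decide +kernel⟩

theorem c_mm_203 : CertF 1073741824 536870912 0 1230186008 134217728 67108864 false false false .up 2 0 3
    ndF5q2 ndF4q3 pcF0 Cut.none Ext.none :=
  certF0 (fam := false) (s1 := false) (s2 := false) (a := 2) (b := 0) (c := 3) (cn := .up) (n1 := ndF5q2) (n2 := ndF4q3) (pc := pcF0) (cut := Cut.none) (xt := Ext.none) (P1 := 1073741824) (W1 := 536870912) (P2 := 0) (W2 := 1230186008) (P3 := 134217728) (W3 := 67108864)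
    rfl k0_mm_203

noncomputable def f_mm_213 : ℕ → ℕ → ℕ → ℕ → Bool := onCell 1073741824 536870912 0 1230186008 134217728 67108864
    (rowF 0 false false false .pnn 2 1 3 (qsf 1073741824 536870912 0 1230186008 1) ndF5q2 ndF4q3 pcF1 Cut.none Ext.none)

def k0_mm_213 : ∃ t, chk3 f_mm_213 t 1 1 1 = true :=
  ⟨(l 5), by decide +kernel⟩

theorem c_mm_213 : CertF 1073741824 536870912 0 1230186008 134217728 67108864 false false false .pnn 2 1 3
    ndF5q2 ndF4q3 pcF1 Cut.none Ext.none :=
  certF0 (fam := false) (s1 := false) (s2 := false) (a := 2) (b := 1) (c := 3) (cn := .pnn) (n1 := ndF5q2) (n2 := ndF4q3) (pc := pcF1) (cut := Cut.none) (xt := Ext.none) (P1 := 1073741824) (W1 := 536870912) (P2 := 0) (W2 := 1230186008) (P3 := 134217728) (W3 := 67108864)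
    rfl k0_mm_213

noncomputable def f_mm_303 : ℕ → ℕ → ℕ → ℕ → Bool := onCell 0 1230186008 0 1230186008 134217728 67108864
    (rowF 0 false false false .npn 3 0 3 (qsf 0 1230186008 0 1230186008 0) ndF5q3 ndF4q3 pcF0 Cut.none Ext.none)

def k0_mm_303 : ∃ t, chk3 f_mm_303 t 1 1 1 = true :=
  ⟨(a (b (l 3) (a (l 1) (l 3))) (b (l 5) (l 3))), by decide +kernel⟩

theorem c_mm_303 : CertF 0 1230186008 0 1230186008 134217728 67108864 false false false .npn 3 0 3
    ndF5q3 ndF4q3 pcF0 Cut.none Ext.none :=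
  certF0 (fam := false) (s1 := false) (s2 := false) (a := 3) (b := 0) (c := 3) (cn := .npn) (n1 := ndF5q3) (n2 := ndF4q3) (pc := pcF0) (cut := Cut.none) (xt := Ext.none) (P1 := 0) (W1 := 1230186008) (P2 := 0) (W2 := 1230186008) (P3 := 134217728) (W3 := 67108864)
    rfl k0_mm_303

noncomputable def f_mm_313 : ℕ → ℕ → ℕ → ℕ → Bool := onCell 0 1230186008 0 1230186008 134217728 67108864
    (rowF 0 false false false .dn 3 1 3 (qsf 0 1230186008 0 1230186008 1) ndF5q3 ndF4q3 pcF1 Cut.none Ext.none)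

def k0_mm_313 : ∃ t, chk3 f_mm_313 t 1 1 1 = true :=
  ⟨(a (l 1) (b (l 5) (l 1))), by decide +kernel⟩

theorem c_mm_313 : CertF 0 1230186008 0 1230186008 134217728 67108864 false false false .dn 3 1 3
    ndF5q3 ndF4q3 pcF1 Cut.none Ext.none :=
  certF0 (fam := false) (s1 := false) (s2 := false) (a := 3) (b := 1) (c := 3) (cn := .dn) (n1 := ndF5q3) (n2 := ndF4q3) (pc := pcF1) (cut := Cut.none) (xt := Ext.none) (P1 := 0) (W1 := 1230186008) (P2 := 0) (W2 := 1230186008) (P3 := 134217728) (W3 := 67108864)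
    rfl k0_mm_313

end Pool.Agent.Strip051.G.I1_8_3_16.Tab.C.FB54

namespace Pool.Agent.Strip051.G.I1_8_3_16.Tab.C.FB55

open Pool.Agent.Strip051.PB Pool.Agent.Strip051.PB.T
open Pool.Agent.Strip051.G.I1_8_3_16.Tab

noncomputable def f_pp_001 : ℕ → ℕ → ℕ → ℕ → Bool := onCell 0 536870912 536870912 536870912 134217728 67108864
    (rowF 0 false true true .up 0 0 1 (qsf 0 536870912 536870912 536870912 0) ndF5q0 ndF5q1 pcF0 Cut.none Ext.none)

def k0_pp_001 : ∃ t, chk3 f_pp_001 t 1 1 1 = true :=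
  ⟨(l 3), by decide +kernel⟩

theorem c_pp_001 : CertF 0 536870912 536870912 536870912 134217728 67108864 false true true .up 0 0 1
    ndF5q0 ndF5q1 pcF0 Cut.none Ext.none :=
  certF0 (fam := false) (s1 := true) (s2 := true) (a := 0) (b := 0) (c := 1) (cn := .up) (n1 := ndF5q0) (n2 := ndF5q1) (pc := pcF0) (cut := Cut.none) (xt := Ext.none) (P1 := 0) (W1 := 536870912) (P2 := 536870912) (W2 := 536870912) (P3 := 134217728) (W3 := 67108864)
    rfl k0_pp_001

noncomputable def f_pp_011 : ℕ → ℕ → ℕ → ℕ → Bool := onCell 0 536870912 536870912 536870912 134217728 67108864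
    (rowF 0 false true true .pnn 0 1 1 (qsf 0 536870912 536870912 536870912 1) ndF5q0 ndF5q1 pcF1 Cut.none Ext.none)

def k0_pp_011 : ∃ t, chk3 f_pp_011 t 1 1 1 = true :=
  ⟨(l 3), by decide +kernel⟩

theorem c_pp_011 : CertF 0 536870912 536870912 536870912 134217728 67108864 false true true .pnn 0 1 1
    ndF5q0 ndF5q1 pcF1 Cut.none Ext.none :=
  certF0 (fam := false) (s1 := true) (s2 := true) (a := 0) (b := 1) (c := 1) (cn := .pnn) (n1 := ndF5q0) (n2 := ndF5q1) (pc := pcF1) (cut := Cut.none) (xt := Ext.none) (P1 := 0) (W1 := 536870912) (P2 := 536870912) (W2 := 536870912) (P3 := 134217728) (W3 := 67108864)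
    rfl k0_pp_011

noncomputable def f_pp_012 : ℕ → ℕ → ℕ → ℕ → Bool := onCell 0 536870912 536870912 536870912 134217728 67108864
    (rowF 1 false true true .pnp 0 1 2 (qsf 0 536870912 1073741824 536870912 1) ndF5q0 ndF5q2 pcF1 Cut.none Ext.none)

def k0_pp_012 : ∃ t, chk3 f_pp_012 t 1 1 1 = true :=
  ⟨(b (l 3) (a (l 3) (b (l 3) (a (l 3) (l 350748544727))))), by decide +kernel⟩

theorem c_pp_012 : CertF 0 536870912 1073741824 536870912 134217728 67108864 false true true .pnp 0 1 2
    ndF5q0 ndF5q2 pcF1 Cut.none Ext.none :=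
  certF1 (fam := false) (s1 := true) (s2 := true) (a := 0) (b := 1) (c := 2) (cn := .pnp) (n1 := ndF5q0) (n2 := ndF5q2) (pc := pcF1) (cut := Cut.none) (xt := Ext.none) (P1 := 0) (W1 := 536870912) (P2 := 1073741824) (W2 := 536870912) (P3 := 134217728) (W3 := 67108864)
    rfl (fun _ => rfl) k0_pp_012

noncomputable def f_pp_022 : ℕ → ℕ → ℕ → ℕ → Bool := onCell 1073741824 536870912 1073741824 536870912 134217728 67108864
    (rowF 2 false true true .pp 0 2 2 (qsf 0 536870912 1073741824 536870912 2) ndF5q0 ndF5q2 pcF2 Cut.none Ext.none)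

def k0_pp_022 : ∃ t, chk3 f_pp_022 t 1 1 1 = true :=
  ⟨(a (b (a (a (l 3) (b (l 19097592) (l 18777360))) (a (b (a (a (l 18887600) (l 1)) (l 1)) (a (a (l 18767120) (l 178279199623)) (l 18580360))) (b (l 1) (l 18458240)))) (a (b (a (l 18534232) (l 18474456)) (a (l 18304456) (a (l 18220264) (l 18177000)))) (a (b (l 18610896) (l 18285368)) (b (l 18395792) (l 18043512))))) (b (b (l 1) (a (l 18208296) (l 1))) (b (a (l 18040440) (l 182571772535)) (a (l 17997888) (l 17838584))))), by decide +kernel⟩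

theorem c_pp_022 : CertF 0 536870912 1073741824 536870912 134217728 67108864 false true true .pp 0 2 2
    ndF5q0 ndF5q2 pcF2 Cut.none Ext.none :=
  certF2 (fam := false) (s1 := true) (s2 := true) (a := 0) (b := 2) (c := 2) (cn := .pp) (n1 := ndF5q0) (n2 := ndF5q2) (pc := pcF2) (cut := Cut.none) (xt := Ext.none) (P1 := 0) (W1 := 536870912) (P2 := 1073741824) (W2 := 536870912) (P3 := 134217728) (W3 := 67108864)
    rfl (fun _ => rfl) k0_pp_022

noncomputable def f_pp_023 : ℕ → ℕ → ℕ → ℕ → Bool := onCell 1073741824 536870912 0 1230186008 134217728 67108864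
    (rowF 2 false true true .up 0 2 3 (qsf 0 536870912 0 1230186008 2) ndF5q0 ndF5q3 pcF2 Cut.none Ext.none)

def k0_pp_023 : ∃ t, chk3 f_pp_023 t 1 1 1 = true :=
  ⟨(a (b (l 2) (a (b (l 2) (a (b (l 2) (l 18077504)) (b (l 2) (a (l 18100760) (l 17919584))))) (b (a (l 2) (l 17290592)) (a (b (a (l 17648120) (l 17592216)) (a (l 17868752) (l 17813384))) (b (l 17515240) (l 17737456)))))) (b (a (l 2) (b (l 4) (l 16882648))) (b (a (b (l 17045784) (l 17204400)) (l 16996352)) (b (a (l 17387976) (l 17321312)) (a (l 17642216) (l 17621096)))))), by decide +kernel⟩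

theorem c_pp_023 : CertF 0 536870912 0 1230186008 134217728 67108864 false true true .up 0 2 3
    ndF5q0 ndF5q3 pcF2 Cut.none Ext.none :=
  certF2 (fam := false) (s1 := true) (s2 := true) (a := 0) (b := 2) (c := 3) (cn := .up) (n1 := ndF5q0) (n2 := ndF5q3) (pc := pcF2) (cut := Cut.none) (xt := Ext.none) (P1 := 0) (W1 := 536870912) (P2 := 0) (W2 := 1230186008) (P3 := 134217728) (W3 := 67108864)
    rfl (fun _ => rfl) k0_pp_023

noncomputable def f_pp_033 : ℕ → ℕ → ℕ → ℕ → Bool := onCell 1610612736 536870912 0 1230186008 134217728 67108864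
    (rowF 2 false true true .pnn 0 3 3 (qsf 0 536870912 0 1230186008 3) ndF5q0 ndF5q3 pcF3 Cut.none Ext.none)

def k0_pp_033 : ∃ t, chk3 f_pp_033 t 1 1 1 = true :=
  ⟨(b (a (a (b (l 4) (l 17269352)) (l 4)) (l 4)) (b (a (a (a (l 17008736) (l 17006568)) (l 17075232)) (l 4)) (a (a (b (l 16923208) (l 16963384)) (b (l 16883312) (a (l 16985128) (l 1)))) (l 1)))), by decide +kernel⟩

theorem c_pp_033 : CertF 0 536870912 0 1230186008 134217728 67108864 false true true .pnn 0 3 3
    ndF5q0 ndF5q3 pcF3 Cut.none Ext.none :=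
  certF2 (fam := false) (s1 := true) (s2 := true) (a := 0) (b := 3) (c := 3) (cn := .pnn) (n1 := ndF5q0) (n2 := ndF5q3) (pc := pcF3) (cut := Cut.none) (xt := Ext.none) (P1 := 0) (W1 := 536870912) (P2 := 0) (W2 := 1230186008) (P3 := 134217728) (W3 := 67108864)
    rfl (fun _ => rfl) k0_pp_033

noncomputable def f_pp_101 : ℕ → ℕ → ℕ → ℕ → Bool := onCell 536870912 536870912 536870912 536870912 134217728 67108864
    (rowF 0 false true true .npn 1 0 1 (qsf 536870912 536870912 536870912 536870912 0) ndF5q1 ndF5q1 pcF0 Cut.none Ext.none)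

def k0_pp_101 : ∃ t, chk3 f_pp_101 t 1 1 1 = true :=
  ⟨(l 3), by decide +kernel⟩

theorem c_pp_101 : CertF 536870912 536870912 536870912 536870912 134217728 67108864 false true true .npn 1 0 1
    ndF5q1 ndF5q1 pcF0 Cut.none Ext.none :=
  certF0 (fam := false) (s1 := true) (s2 := true) (a := 1) (b := 0) (c := 1) (cn := .npn) (n1 := ndF5q1) (n2 := ndF5q1) (pc := pcF0) (cut := Cut.none) (xt := Ext.none) (P1 := 536870912) (W1 := 536870912) (P2 := 536870912) (W2 := 536870912) (P3 := 134217728) (W3 := 67108864)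
    rfl k0_pp_101

noncomputable def f_pp_102 : ℕ → ℕ → ℕ → ℕ → Bool := onCell 536870912 536870912 0 536870912 134217728 67108864
    (rowF 1 false true true .npp 1 0 2 (qsf 536870912 536870912 1073741824 536870912 0) ndF5q1 ndF5q2 pcF0 Cut.none Ext.none)

def k0_pp_102 : ∃ t, chk3 f_pp_102 t 1 1 1 = true :=
  ⟨(l 3), by decide +kernel⟩

theorem c_pp_102 : CertF 536870912 536870912 1073741824 536870912 134217728 67108864 false true true .npp 1 0 2
    ndF5q1 ndF5q2 pcF0 Cut.none Ext.none :=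
  certF1 (fam := false) (s1 := true) (s2 := true) (a := 1) (b := 0) (c := 2) (cn := .npp) (n1 := ndF5q1) (n2 := ndF5q2) (pc := pcF0) (cut := Cut.none) (xt := Ext.none) (P1 := 536870912) (W1 := 536870912) (P2 := 1073741824) (W2 := 536870912) (P3 := 134217728) (W3 := 67108864)
    rfl (fun _ => rfl) k0_pp_102

noncomputable def f_pp_112 : ℕ → ℕ → ℕ → ℕ → Bool := onCell 536870912 536870912 1073741824 536870912 134217728 67108864
    (rowF 0 false true true .dn 1 1 2 (qsf 536870912 536870912 1073741824 536870912 1) ndF5q1 ndF5q2 pcF1 Cut.none Ext.none)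

def k0_pp_112 : ∃ t, chk3 f_pp_112 t 1 1 1 = true :=
  ⟨(a (b (l 3) (b (l 3) (a (l 345916688551) (l 3)))) (l 3)), by decide +kernel⟩

theorem c_pp_112 : CertF 536870912 536870912 1073741824 536870912 134217728 67108864 false true true .dn 1 1 2
    ndF5q1 ndF5q2 pcF1 Cut.none Ext.none :=
  certF0 (fam := false) (s1 := true) (s2 := true) (a := 1) (b := 1) (c := 2) (cn := .dn) (n1 := ndF5q1) (n2 := ndF5q2) (pc := pcF1) (cut := Cut.none) (xt := Ext.none) (P1 := 536870912) (W1 := 536870912) (P2 := 1073741824) (W2 := 536870912) (P3 := 134217728) (W3 := 67108864)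
    rfl k0_pp_112

noncomputable def f_pp_113 : ℕ → ℕ → ℕ → ℕ → Bool := onCell 536870912 536870912 0 1230186008 134217728 67108864
    (rowF 2 false true true .nn 1 1 3 (qsf 536870912 536870912 0 1230186008 1) ndF5q1 ndF5q3 pcF1 Cut.none Ext.none)

def k0_pp_113 : ∃ t, chk3 f_pp_113 t 1 1 1 = true :=
  ⟨(a (b (l 2) (b (b (l 2) (l 3)) (l 3))) (a (b (l 2) (b (b (l 18310584) (l 18365832)) (b (l 18434952) (l 3)))) (b (b (a (l 2) (l 17121032)) (l 17751600)) (b (l 17968888) (b (l 18093744) (l 18244976)))))), by decide +kernel⟩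

theorem c_pp_113 : CertF 536870912 536870912 0 1230186008 134217728 67108864 false true true .nn 1 1 3
    ndF5q1 ndF5q3 pcF1 Cut.none Ext.none :=
  certF2 (fam := false) (s1 := true) (s2 := true) (a := 1) (b := 1) (c := 3) (cn := .nn) (n1 := ndF5q1) (n2 := ndF5q3) (pc := pcF1) (cut := Cut.none) (xt := Ext.none) (P1 := 536870912) (W1 := 536870912) (P2 := 0) (W2 := 1230186008) (P3 := 134217728) (W3 := 67108864)
    rfl (fun _ => rfl) k0_pp_113

noncomputable def f_pp_123 : ℕ → ℕ → ℕ → ℕ → Bool := onCell 1073741824 536870912 0 1230186008 134217728 67108864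
    (rowF 2 false true true .npn 1 2 3 (qsf 536870912 536870912 0 1230186008 2) ndF5q1 ndF5q3 pcF2 Cut.none Ext.none)

def k0_pp_123 : ∃ t, chk3 f_pp_123 t 1 1 1 = true :=
  ⟨(b (b (a (a (l 17052712) (l 17017848)) (l 17125560)) (a (a (a (l 17279448) (a (l 17189416) (l 17128952))) (a (l 17046600) (l 16944968))) (a (l 16879568) (l 16859088)))) (b (a (a (a (l 17604232) (a (a (l 17512760) (l 17482312)) (l 17444912))) (a (a (l 17381648) (l 17325888)) (l 17246288))) (a (l 17101288) (l 16984376))) (a (a (a (b (l 17854136) (l 18052264)) (a (a (l 17880600) (l 310347467335)) (b (l 17697160) (l 17906800)))) (a (b (a (l 17636440) (l 17582168)) (l 18013856)) (l 342559383399))) (l 1)))), by decide +kernel⟩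

theorem c_pp_123 : CertF 536870912 536870912 0 1230186008 134217728 67108864 false true true .npn 1 2 3
    ndF5q1 ndF5q3 pcF2 Cut.none Ext.none :=
  certF2 (fam := false) (s1 := true) (s2 := true) (a := 1) (b := 2) (c := 3) (cn := .npn) (n1 := ndF5q1) (n2 := ndF5q3) (pc := pcF2) (cut := Cut.none) (xt := Ext.none) (P1 := 536870912) (W1 := 536870912) (P2 := 0) (W2 := 1230186008) (P3 := 134217728) (W3 := 67108864)
    rfl (fun _ => rfl) k0_pp_123

noncomputable def f_pp_133 : ℕ → ℕ → ℕ → ℕ → Bool := onCell 1610612736 536870912 0 1230186008 134217728 67108864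
    (rowF 2 false true true .dn 1 3 3 (qsf 536870912 536870912 0 1230186008 3) ndF5q1 ndF5q3 pcF3 Cut.none Ext.none)

def k0_pp_133 : ∃ t, chk3 f_pp_133 t 1 1 1 = true :=
  ⟨(b (b (l 4) (l 1)) (l 1)), by decide +kernel⟩

theorem c_pp_133 : CertF 536870912 536870912 0 1230186008 134217728 67108864 false true true .dn 1 3 3
    ndF5q1 ndF5q3 pcF3 Cut.none Ext.none :=
  certF2 (fam := false) (s1 := true) (s2 := true) (a := 1) (b := 3) (c := 3) (cn := .dn) (n1 := ndF5q1) (n2 := ndF5q3) (pc := pcF3) (cut := Cut.none) (xt := Ext.none) (P1 := 536870912) (W1 := 536870912) (P2 := 0) (W2 := 1230186008) (P3 := 134217728) (W3 := 67108864)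
    rfl (fun _ => rfl) k0_pp_133

noncomputable def f_pp_202 : ℕ → ℕ → ℕ → ℕ → Bool := onCell 1073741824 536870912 1073741824 536870912 134217728 67108864
    (rowF 0 false true true .pp 2 0 2 (qsf 1073741824 536870912 1073741824 536870912 0) ndF5q2 ndF5q2 pcF0 Cut.none Ext.none)

def k0_pp_202 : ∃ t, chk3 f_pp_202 t 1 1 1 = true :=
  ⟨(l 3), by decide +kernel⟩

theorem c_pp_202 : CertF 1073741824 536870912 1073741824 536870912 134217728 67108864 false true true .pp 2 0 2
    ndF5q2 ndF5q2 pcF0 Cut.none Ext.none :=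
  certF0 (fam := false) (s1 := true) (s2 := true) (a := 2) (b := 0) (c := 2) (cn := .pp) (n1 := ndF5q2) (n2 := ndF5q2) (pc := pcF0) (cut := Cut.none) (xt := Ext.none) (P1 := 1073741824) (W1 := 536870912) (P2 := 1073741824) (W2 := 536870912) (P3 := 134217728) (W3 := 67108864)
    rfl k0_pp_202

noncomputable def f_pp_203 : ℕ → ℕ → ℕ → ℕ → Bool := onCell 0 536870912 0 1230186008 134217728 67108864
    (rowF 2 false true true .up 2 0 3 (qsf 1073741824 536870912 0 1230186008 0) ndF5q2 ndF5q3 pcF0 Cut.none Ext.none)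

def k0_pp_203 : ∃ t, chk3 f_pp_203 t 1 1 1 = true :=
  ⟨(b (a (l 2) (a (l 2) (b (l 226192715271) (l 3)))) (l 3)), by decide +kernel⟩

theorem c_pp_203 : CertF 1073741824 536870912 0 1230186008 134217728 67108864 false true true .up 2 0 3
    ndF5q2 ndF5q3 pcF0 Cut.none Ext.none :=
  certF2 (fam := false) (s1 := true) (s2 := true) (a := 2) (b := 0) (c := 3) (cn := .up) (n1 := ndF5q2) (n2 := ndF5q3) (pc := pcF0) (cut := Cut.none) (xt := Ext.none) (P1 := 1073741824) (W1 := 536870912) (P2 := 0) (W2 := 1230186008) (P3 := 134217728) (W3 := 67108864)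
    rfl (fun _ => rfl) k0_pp_203

noncomputable def f_pp_213 : ℕ → ℕ → ℕ → ℕ → Bool := onCell 536870912 536870912 0 1230186008 134217728 67108864
    (rowF 2 false true true .pnn 2 1 3 (qsf 1073741824 536870912 0 1230186008 1) ndF5q2 ndF5q3 pcF1 Cut.none Ext.none)

def k0_pp_213 : ∃ t, chk3 f_pp_213 t 1 1 1 = true :=
  ⟨(b (b (a (a (a (l 17257208) (l 17318112)) (l 17383992)) (b (a (l 17308816) (a (l 17065280) (l 16945928))) (a (l 17471248) (l 17319688)))) (a (a (a (l 331419286951) (l 17679096)) (b (l 17629192) (l 17829936))) (a (l 17961648) (l 17771336)))) (a (b (a (l 3) (b (l 18085704) (l 3))) (l 3)) (b (a (b (l 18135552) (l 18520352)) (b (l 18282792) (l 1))) (l 1)))), by decide +kernel⟩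

theorem c_pp_213 : CertF 1073741824 536870912 0 1230186008 134217728 67108864 false true true .pnn 2 1 3
    ndF5q2 ndF5q3 pcF1 Cut.none Ext.none :=
  certF2 (fam := false) (s1 := true) (s2 := true) (a := 2) (b := 1) (c := 3) (cn := .pnn) (n1 := ndF5q2) (n2 := ndF5q3) (pc := pcF1) (cut := Cut.none) (xt := Ext.none) (P1 := 1073741824) (W1 := 536870912) (P2 := 0) (W2 := 1230186008) (P3 := 134217728) (W3 := 67108864)
    rfl (fun _ => rfl) k0_pp_213

noncomputable def f_pp_303 : ℕ → ℕ → ℕ → ℕ → Bool := onCell 0 1230186008 0 1230186008 134217728 67108864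
    (rowF 0 false true true .npn 3 0 3 (qsf 0 1230186008 0 1230186008 0) ndF5q3 ndF5q3 pcF0 Cut.none Ext.none)

def k0_pp_303 : ∃ t, chk3 f_pp_303 t 1 1 1 = true :=
  ⟨(a (b (l 3) (a (l 1) (l 3))) (a (l 3) (b (b (a (l 304575547655) (l 231024515239)) (l 3)) (l 3)))), by decide +kernel⟩

theorem c_pp_303 : CertF 0 1230186008 0 1230186008 134217728 67108864 false true true .npn 3 0 3
    ndF5q3 ndF5q3 pcF0 Cut.none Ext.none :=
  certF0 (fam := false) (s1 := true) (s2 := true) (a := 3) (b := 0) (c := 3) (cn := .npn) (n1 := ndF5q3) (n2 := ndF5q3) (pc := pcF0) (cut := Cut.none) (xt := Ext.none) (P1 := 0) (W1 := 1230186008) (P2 := 0) (W2 := 1230186008) (P3 := 134217728) (W3 := 67108864)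
    rfl k0_pp_303

noncomputable def f_pp_313 : ℕ → ℕ → ℕ → ℕ → Bool := onCell 0 1230186008 0 1230186008 134217728 67108864
    (rowF 0 false true true .dn 3 1 3 (qsf 0 1230186008 0 1230186008 1) ndF5q3 ndF5q3 pcF1 Cut.none Ext.none)

def k0_pp_313 : ∃ t, chk3 f_pp_313 t 1 1 1 = true :=
  ⟨(a (l 1) (b (a (l 1) (a (l 1) (b (a (l 1) (l 17379000)) (l 1)))) (l 1))), by decide +kernel⟩

theorem c_pp_313 : CertF 0 1230186008 0 1230186008 134217728 67108864 false true true .dn 3 1 3
    ndF5q3 ndF5q3 pcF1 Cut.none Ext.none :=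
  certF0 (fam := false) (s1 := true) (s2 := true) (a := 3) (b := 1) (c := 3) (cn := .dn) (n1 := ndF5q3) (n2 := ndF5q3) (pc := pcF1) (cut := Cut.none) (xt := Ext.none) (P1 := 0) (W1 := 1230186008) (P2 := 0) (W2 := 1230186008) (P3 := 134217728) (W3 := 67108864)
    rfl k0_pp_313

noncomputable def f_pm_001 : ℕ → ℕ → ℕ → ℕ → Bool := onCell 0 536870912 536870912 536870912 134217728 67108864
    (rowF 0 false true false .up 0 0 1 (qsf 0 536870912 536870912 536870912 0) ndF5q0 ndF5q1 pcF0 Cut.none Ext.none)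

def k0_pm_001 : ∃ t, chk3 f_pm_001 t 1 1 1 = true :=
  ⟨(l 4), by decide +kernel⟩

theorem c_pm_001 : CertF 0 536870912 536870912 536870912 134217728 67108864 false true false .up 0 0 1
    ndF5q0 ndF5q1 pcF0 Cut.none Ext.none :=
  certF0 (fam := false) (s1 := true) (s2 := false) (a := 0) (b := 0) (c := 1) (cn := .up) (n1 := ndF5q0) (n2 := ndF5q1) (pc := pcF0) (cut := Cut.none) (xt := Ext.none) (P1 := 0) (W1 := 536870912) (P2 := 536870912) (W2 := 536870912) (P3 := 134217728) (W3 := 67108864)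
    rfl k0_pm_001

noncomputable def f_pm_011 : ℕ → ℕ → ℕ → ℕ → Bool := onCell 0 536870912 536870912 536870912 134217728 67108864
    (rowF 0 false true false .pnn 0 1 1 (qsf 0 536870912 536870912 536870912 1) ndF5q0 ndF5q1 pcF1 Cut.none Ext.none)

def k0_pm_011 : ∃ t, chk3 f_pm_011 t 1 1 1 = true :=
  ⟨(l 4), by decide +kernel⟩

theorem c_pm_011 : CertF 0 536870912 536870912 536870912 134217728 67108864 false true false .pnn 0 1 1
    ndF5q0 ndF5q1 pcF1 Cut.none Ext.none :=
  certF0 (fam := false) (s1 := true) (s2 := false) (a := 0) (b := 1) (c := 1) (cn := .pnn) (n1 := ndF5q0) (n2 := ndF5q1) (pc := pcF1) (cut := Cut.none) (xt := Ext.none) (P1 := 0) (W1 := 536870912) (P2 := 536870912) (W2 := 536870912) (P3 := 134217728) (W3 := 67108864)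
    rfl k0_pm_011

noncomputable def f_pm_012 : ℕ → ℕ → ℕ → ℕ → Bool := onCell 0 536870912 1073741824 536870912 134217728 67108864
    (rowF 0 false true false .pnp 0 1 2 (qsf 0 536870912 1073741824 536870912 1) ndF5q0 ndF5q2 pcF1 Cut.none Ext.none)

def k0_pm_012 : ∃ t, chk3 f_pm_012 t 1 1 1 = true :=
  ⟨(l 4), by decide +kernel⟩

theorem c_pm_012 : CertF 0 536870912 1073741824 536870912 134217728 67108864 false true false .pnp 0 1 2
    ndF5q0 ndF5q2 pcF1 Cut.none Ext.none :=
  certF0 (fam := false) (s1 := true) (s2 := false) (a := 0) (b := 1) (c := 2) (cn := .pnp) (n1 := ndF5q0) (n2 := ndF5q2) (pc := pcF1) (cut := Cut.none) (xt := Ext.none) (P1 := 0) (W1 := 536870912) (P2 := 1073741824) (W2 := 536870912) (P3 := 134217728) (W3 := 67108864)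
    rfl k0_pm_012

noncomputable def f_pm_022 : ℕ → ℕ → ℕ → ℕ → Bool := onCell 0 536870912 1073741824 536870912 134217728 67108864
    (rowF 0 false true false .pp 0 2 2 (qsf 0 536870912 1073741824 536870912 2) ndF5q0 ndF5q2 pcF2 Cut.none Ext.none)

def k0_pm_022 : ∃ t, chk3 f_pm_022 t 1 1 1 = true :=
  ⟨(l 4), by decide +kernel⟩

theorem c_pm_022 : CertF 0 536870912 1073741824 536870912 134217728 67108864 false true false .pp 0 2 2
    ndF5q0 ndF5q2 pcF2 Cut.none Ext.none :=
  certF0 (fam := false) (s1 := true) (s2 := false) (a := 0) (b := 2) (c := 2) (cn := .pp) (n1 := ndF5q0) (n2 := ndF5q2) (pc := pcF2) (cut := Cut.none) (xt := Ext.none) (P1 := 0) (W1 := 536870912) (P2 := 1073741824) (W2 := 536870912) (P3 := 134217728) (W3 := 67108864)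
    rfl k0_pm_022

noncomputable def f_pm_023 : ℕ → ℕ → ℕ → ℕ → Bool := onCell 0 536870912 0 1230186008 134217728 67108864
    (rowF 0 false true false .up 0 2 3 (qsf 0 536870912 0 1230186008 2) ndF5q0 ndF5q3 pcF2 Cut.none Ext.none)

def k0_pm_023 : ∃ t, chk3 f_pm_023 t 1 1 1 = true :=
  ⟨(l 4), by decide +kernel⟩

theorem c_pm_023 : CertF 0 536870912 0 1230186008 134217728 67108864 false true false .up 0 2 3
    ndF5q0 ndF5q3 pcF2 Cut.none Ext.none :=
  certF0 (fam := false) (s1 := true) (s2 := false) (a := 0) (b := 2) (c := 3) (cn := .up) (n1 := ndF5q0) (n2 := ndF5q3) (pc := pcF2) (cut := Cut.none) (xt := Ext.none) (P1 := 0) (W1 := 536870912) (P2 := 0) (W2 := 1230186008) (P3 := 134217728) (W3 := 67108864)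
    rfl k0_pm_023

noncomputable def f_pm_033 : ℕ → ℕ → ℕ → ℕ → Bool := onCell 0 536870912 0 1230186008 134217728 67108864
    (rowF 0 false true false .pnn 0 3 3 (qsf 0 536870912 0 1230186008 3) ndF5q0 ndF5q3 pcF3 Cut.none Ext.none)

def k0_pm_033 : ∃ t, chk3 f_pm_033 t 1 1 1 = true :=
  ⟨(l 4), by decide +kernel⟩

theorem c_pm_033 : CertF 0 536870912 0 1230186008 134217728 67108864 false true false .pnn 0 3 3
    ndF5q0 ndF5q3 pcF3 Cut.none Ext.none :=
  certF0 (fam := false) (s1 := true) (s2 := false) (a := 0) (b := 3) (c := 3) (cn := .pnn) (n1 := ndF5q0) (n2 := ndF5q3) (pc := pcF3) (cut := Cut.none) (xt := Ext.none) (P1 := 0) (W1 := 536870912) (P2 := 0) (W2 := 1230186008) (P3 := 134217728) (W3 := 67108864)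
    rfl k0_pm_033

noncomputable def f_pm_101 : ℕ → ℕ → ℕ → ℕ → Bool := onCell 536870912 536870912 536870912 536870912 134217728 67108864
    (rowF 0 false true false .npn 1 0 1 (qsf 536870912 536870912 536870912 536870912 0) ndF5q1 ndF5q1 pcF0 Cut.none Ext.none)

def k0_pm_101 : ∃ t, chk3 f_pm_101 t 1 1 1 = true :=
  ⟨(l 4), by decide +kernel⟩

theorem c_pm_101 : CertF 536870912 536870912 536870912 536870912 134217728 67108864 false true false .npn 1 0 1
    ndF5q1 ndF5q1 pcF0 Cut.none Ext.none :=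
  certF0 (fam := false) (s1 := true) (s2 := false) (a := 1) (b := 0) (c := 1) (cn := .npn) (n1 := ndF5q1) (n2 := ndF5q1) (pc := pcF0) (cut := Cut.none) (xt := Ext.none) (P1 := 536870912) (W1 := 536870912) (P2 := 536870912) (W2 := 536870912) (P3 := 134217728) (W3 := 67108864)
    rfl k0_pm_101

noncomputable def f_pm_102 : ℕ → ℕ → ℕ → ℕ → Bool := onCell 536870912 536870912 1073741824 536870912 134217728 67108864
    (rowF 0 false true false .npp 1 0 2 (qsf 536870912 536870912 1073741824 536870912 0) ndF5q1 ndF5q2 pcF0 Cut.none Ext.none)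

def k0_pm_102 : ∃ t, chk3 f_pm_102 t 1 1 1 = true :=
  ⟨(l 4), by decide +kernel⟩

theorem c_pm_102 : CertF 536870912 536870912 1073741824 536870912 134217728 67108864 false true false .npp 1 0 2
    ndF5q1 ndF5q2 pcF0 Cut.none Ext.none :=
  certF0 (fam := false) (s1 := true) (s2 := false) (a := 1) (b := 0) (c := 2) (cn := .npp) (n1 := ndF5q1) (n2 := ndF5q2) (pc := pcF0) (cut := Cut.none) (xt := Ext.none) (P1 := 536870912) (W1 := 536870912) (P2 := 1073741824) (W2 := 536870912) (P3 := 134217728) (W3 := 67108864)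
    rfl k0_pm_102

noncomputable def f_pm_112 : ℕ → ℕ → ℕ → ℕ → Bool := onCell 536870912 536870912 1073741824 536870912 134217728 67108864
    (rowF 0 false true false .dn 1 1 2 (qsf 536870912 536870912 1073741824 536870912 1) ndF5q1 ndF5q2 pcF1 Cut.none Ext.none)

def k0_pm_112 : ∃ t, chk3 f_pm_112 t 1 1 1 = true :=
  ⟨(l 4), by decide +kernel⟩

theorem c_pm_112 : CertF 536870912 536870912 1073741824 536870912 134217728 67108864 false true false .dn 1 1 2
    ndF5q1 ndF5q2 pcF1 Cut.none Ext.none :=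
  certF0 (fam := false) (s1 := true) (s2 := false) (a := 1) (b := 1) (c := 2) (cn := .dn) (n1 := ndF5q1) (n2 := ndF5q2) (pc := pcF1) (cut := Cut.none) (xt := Ext.none) (P1 := 536870912) (W1 := 536870912) (P2 := 1073741824) (W2 := 536870912) (P3 := 134217728) (W3 := 67108864)
    rfl k0_pm_112

noncomputable def f_pm_113 : ℕ → ℕ → ℕ → ℕ → Bool := onCell 536870912 536870912 0 1230186008 134217728 67108864
    (rowF 0 false true false .nn 1 1 3 (qsf 536870912 536870912 0 1230186008 1) ndF5q1 ndF5q3 pcF1 Cut.none Ext.none)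

def k0_pm_113 : ∃ t, chk3 f_pm_113 t 1 1 1 = true :=
  ⟨(b (b (a (l 2) (l 16886224)) (l 4)) (l 4)), by decide +kernel⟩

theorem c_pm_113 : CertF 536870912 536870912 0 1230186008 134217728 67108864 false true false .nn 1 1 3
    ndF5q1 ndF5q3 pcF1 Cut.none Ext.none :=
  certF0 (fam := false) (s1 := true) (s2 := false) (a := 1) (b := 1) (c := 3) (cn := .nn) (n1 := ndF5q1) (n2 := ndF5q3) (pc := pcF1) (cut := Cut.none) (xt := Ext.none) (P1 := 536870912) (W1 := 536870912) (P2 := 0) (W2 := 1230186008) (P3 := 134217728) (W3 := 67108864)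
    rfl k0_pm_113

noncomputable def f_pm_123 : ℕ → ℕ → ℕ → ℕ → Bool := onCell 1073741824 536870912 0 1230186008 134217728 67108864
    (rowF 2 false true false .npn 1 2 3 (qsf 536870912 536870912 0 1230186008 2) ndF5q1 ndF5q3 pcF2 Cut.none Ext.none)

def k0_pm_123 : ∃ t, chk3 f_pm_123 t 1 1 1 = true :=
  ⟨(b (a (a (l 17391472) (l 4)) (l 4)) (l 4)), by decide +kernel⟩

theorem c_pm_123 : CertF 536870912 536870912 0 1230186008 134217728 67108864 false true false .npn 1 2 3
    ndF5q1 ndF5q3 pcF2 Cut.none Ext.none :=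
  certF2 (fam := false) (s1 := true) (s2 := false) (a := 1) (b := 2) (c := 3) (cn := .npn) (n1 := ndF5q1) (n2 := ndF5q3) (pc := pcF2) (cut := Cut.none) (xt := Ext.none) (P1 := 536870912) (W1 := 536870912) (P2 := 0) (W2 := 1230186008) (P3 := 134217728) (W3 := 67108864)
    rfl (fun _ => rfl) k0_pm_123

noncomputable def f_pm_133 : ℕ → ℕ → ℕ → ℕ → Bool := onCell 1610612736 536870912 0 1230186008 134217728 67108864
    (rowF 2 false true false .dn 1 3 3 (qsf 536870912 536870912 0 1230186008 3) ndF5q1 ndF5q3 pcF3 Cut.none Ext.none)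

def k0_pm_133 : ∃ t, chk3 f_pm_133 t 1 1 1 = true :=
  ⟨(l 4), by decide +kernel⟩

theorem c_pm_133 : CertF 536870912 536870912 0 1230186008 134217728 67108864 false true false .dn 1 3 3
    ndF5q1 ndF5q3 pcF3 Cut.none Ext.none :=
  certF2 (fam := false) (s1 := true) (s2 := false) (a := 1) (b := 3) (c := 3) (cn := .dn) (n1 := ndF5q1) (n2 := ndF5q3) (pc := pcF3) (cut := Cut.none) (xt := Ext.none) (P1 := 536870912) (W1 := 536870912) (P2 := 0) (W2 := 1230186008) (P3 := 134217728) (W3 := 67108864)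
    rfl (fun _ => rfl) k0_pm_133

noncomputable def f_pm_202 : ℕ → ℕ → ℕ → ℕ → Bool := onCell 1073741824 536870912 1073741824 536870912 134217728 67108864
    (rowF 0 false true false .pp 2 0 2 (qsf 1073741824 536870912 1073741824 536870912 0) ndF5q2 ndF5q2 pcF0 Cut.none Ext.none)

def k0_pm_202 : ∃ t, chk3 f_pm_202 t 1 1 1 = true :=
  ⟨(l 4), by decide +kernel⟩

theorem c_pm_202 : CertF 1073741824 536870912 1073741824 536870912 134217728 67108864 false true false .pp 2 0 2
    ndF5q2 ndF5q2 pcF0 Cut.none Ext.none :=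
  certF0 (fam := false) (s1 := true) (s2 := false) (a := 2) (b := 0) (c := 2) (cn := .pp) (n1 := ndF5q2) (n2 := ndF5q2) (pc := pcF0) (cut := Cut.none) (xt := Ext.none) (P1 := 1073741824) (W1 := 536870912) (P2 := 1073741824) (W2 := 536870912) (P3 := 134217728) (W3 := 67108864)
    rfl k0_pm_202

noncomputable def f_pm_203 : ℕ → ℕ → ℕ → ℕ → Bool := onCell 1073741824 536870912 0 1230186008 134217728 67108864
    (rowF 0 false true false .up 2 0 3 (qsf 1073741824 536870912 0 1230186008 0) ndF5q2 ndF5q3 pcF0 Cut.none Ext.none)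

def k0_pm_203 : ∃ t, chk3 f_pm_203 t 1 1 1 = true :=
  ⟨(a (b (l 2) (l 4)) (b (a (l 2) (b (l 18008880) (a (l 17952720) (b (l 17864184) (l 17221728))))) (b (a (l 4) (l 4)) (l 4)))), by decide +kernel⟩

theorem c_pm_203 : CertF 1073741824 536870912 0 1230186008 134217728 67108864 false true false .up 2 0 3
    ndF5q2 ndF5q3 pcF0 Cut.none Ext.none :=
  certF0 (fam := false) (s1 := true) (s2 := false) (a := 2) (b := 0) (c := 3) (cn := .up) (n1 := ndF5q2) (n2 := ndF5q3) (pc := pcF0) (cut := Cut.none) (xt := Ext.none) (P1 := 1073741824) (W1 := 536870912) (P2 := 0) (W2 := 1230186008) (P3 := 134217728) (W3 := 67108864)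
    rfl k0_pm_203

noncomputable def f_pm_213 : ℕ → ℕ → ℕ → ℕ → Bool := onCell 536870912 536870912 0 1230186008 134217728 67108864
    (rowF 2 false true false .pnn 2 1 3 (qsf 1073741824 536870912 0 1230186008 1) ndF5q2 ndF5q3 pcF1 Cut.none Ext.none)

def k0_pm_213 : ∃ t, chk3 f_pm_213 t 1 1 1 = true :=
  ⟨(b (b (a (a (l 17186968) (l 17042672)) (b (a (l 16966360) (a (l 16843072) (l 16851624))) (a (l 17111760) (l 4)))) (a (a (l 16917256) (l 16971200)) (l 4))) (b (l 4) (l 4))), by decide +kernel⟩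

theorem c_pm_213 : CertF 1073741824 536870912 0 1230186008 134217728 67108864 false true false .pnn 2 1 3
    ndF5q2 ndF5q3 pcF1 Cut.none Ext.none :=
  certF2 (fam := false) (s1 := true) (s2 := false) (a := 2) (b := 1) (c := 3) (cn := .pnn) (n1 := ndF5q2) (n2 := ndF5q3) (pc := pcF1) (cut := Cut.none) (xt := Ext.none) (P1 := 1073741824) (W1 := 536870912) (P2 := 0) (W2 := 1230186008) (P3 := 134217728) (W3 := 67108864)
    rfl (fun _ => rfl) k0_pm_213

noncomputable def f_pm_303 : ℕ → ℕ → ℕ → ℕ → Bool := onCell 0 1230186008 0 1230186008 134217728 67108864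
    (rowF 0 false true false .npn 3 0 3 (qsf 0 1230186008 0 1230186008 0) ndF5q3 ndF5q3 pcF0 Cut.none Ext.none)

def k0_pm_303 : ∃ t, chk3 f_pm_303 t 1 1 1 = true :=
  ⟨(a (b (a (l 3) (b (l 3) (b (l 300816866503) (a (l 257867924919) (b (l 17645840) (l 17904272)))))) (a (l 1) (b (a (l 1) (b (l 17396536) (l 1))) (l 1)))) (b (a (b (a (l 313702173207) (l 17663624)) (b (a (l 17599288) (l 17725784)) (a (b (l 17766856) (l 17479800)) (l 17470640)))) (b (a (l 17803000) (l 17937504)) (a (b (l 17725456) (l 17605456)) (b (a (l 17724232) (l 17718648)) (l 17525280))))) (a (b (a (b (l 17521688) (l 17049024)) (l 17317040)) (a (l 1) (b (b (l 16828960) (l 1)) (l 1)))) (b (a (b (l 17195064) (l 17003560)) (b (l 17097208) (l 17198432))) (a (b (l 17162872) (l 4)) (l 4)))))), by decide +kernel⟩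

theorem c_pm_303 : CertF 0 1230186008 0 1230186008 134217728 67108864 false true false .npn 3 0 3
    ndF5q3 ndF5q3 pcF0 Cut.none Ext.none :=
  certF0 (fam := false) (s1 := true) (s2 := false) (a := 3) (b := 0) (c := 3) (cn := .npn) (n1 := ndF5q3) (n2 := ndF5q3) (pc := pcF0) (cut := Cut.none) (xt := Ext.none) (P1 := 0) (W1 := 1230186008) (P2 := 0) (W2 := 1230186008) (P3 := 134217728) (W3 := 67108864)
    rfl k0_pm_303

noncomputable def f_pm_313 : ℕ → ℕ → ℕ → ℕ → Bool := onCell 0 1230186008 0 1230186008 134217728 67108864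
    (rowF 0 false true false .dn 3 1 3 (qsf 0 1230186008 0 1230186008 1) ndF5q3 ndF5q3 pcF1 Cut.none Ext.none)

def k0_pm_313 : ∃ t, chk3 f_pm_313 t 1 1 1 = true :=
  ⟨(a (l 1) (b (a (l 1) (a (l 1) (a (l 1) (b (l 17037816) (l 1))))) (l 1))), by decide +kernel⟩

theorem c_pm_313 : CertF 0 1230186008 0 1230186008 134217728 67108864 false true false .dn 3 1 3
    ndF5q3 ndF5q3 pcF1 Cut.none Ext.none :=
  certF0 (fam := false) (s1 := true) (s2 := false) (a := 3) (b := 1) (c := 3) (cn := .dn) (n1 := ndF5q3) (n2 := ndF5q3) (pc := pcF1) (cut := Cut.none) (xt := Ext.none) (P1 := 0) (W1 := 1230186008) (P2 := 0) (W2 := 1230186008) (P3 := 134217728) (W3 := 67108864)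
    rfl k0_pm_313

noncomputable def f_mm_001 : ℕ → ℕ → ℕ → ℕ → Bool := onCell 0 536870912 536870912 536870912 134217728 67108864
    (rowF 0 false false false .up 0 0 1 (qsf 0 536870912 536870912 536870912 0) ndF5q0 ndF5q1 pcF0 Cut.none Ext.none)

def k0_mm_001 : ∃ t, chk3 f_mm_001 t 1 1 1 = true :=
  ⟨(l 3), by decide +kernel⟩

theorem c_mm_001 : CertF 0 536870912 536870912 536870912 134217728 67108864 false false false .up 0 0 1
    ndF5q0 ndF5q1 pcF0 Cut.none Ext.none :=
  certF0 (fam := false) (s1 := false) (s2 := false) (a := 0) (b := 0) (c := 1) (cn := .up) (n1 := ndF5q0) (n2 := ndF5q1) (pc := pcF0) (cut := Cut.none) (xt := Ext.none) (P1 := 0) (W1 := 536870912) (P2 := 536870912) (W2 := 536870912) (P3 := 134217728) (W3 := 67108864)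
    rfl k0_mm_001

noncomputable def f_mm_011 : ℕ → ℕ → ℕ → ℕ → Bool := onCell 0 536870912 536870912 536870912 134217728 67108864
    (rowF 0 false false false .pnn 0 1 1 (qsf 0 536870912 536870912 536870912 1) ndF5q0 ndF5q1 pcF1 Cut.none Ext.none)

def k0_mm_011 : ∃ t, chk3 f_mm_011 t 1 1 1 = true :=
  ⟨(l 3), by decide +kernel⟩

theorem c_mm_011 : CertF 0 536870912 536870912 536870912 134217728 67108864 false false false .pnn 0 1 1
    ndF5q0 ndF5q1 pcF1 Cut.none Ext.none :=
  certF0 (fam := false) (s1 := false) (s2 := false) (a := 0) (b := 1) (c := 1) (cn := .pnn) (n1 := ndF5q0) (n2 := ndF5q1) (pc := pcF1) (cut := Cut.none) (xt := Ext.none) (P1 := 0) (W1 := 536870912) (P2 := 536870912) (W2 := 536870912) (P3 := 134217728) (W3 := 67108864)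
    rfl k0_mm_011

noncomputable def f_mm_012 : ℕ → ℕ → ℕ → ℕ → Bool := onCell 0 536870912 1073741824 536870912 134217728 67108864
    (rowF 0 false false false .pnp 0 1 2 (qsf 0 536870912 1073741824 536870912 1) ndF5q0 ndF5q2 pcF1 Cut.none Ext.none)

def k0_mm_012 : ∃ t, chk3 f_mm_012 t 1 1 1 = true :=
  ⟨(l 5), by decide +kernel⟩

theorem c_mm_012 : CertF 0 536870912 1073741824 536870912 134217728 67108864 false false false .pnp 0 1 2
    ndF5q0 ndF5q2 pcF1 Cut.none Ext.none :=
  certF0 (fam := false) (s1 := false) (s2 := false) (a := 0) (b := 1) (c := 2) (cn := .pnp) (n1 := ndF5q0) (n2 := ndF5q2) (pc := pcF1) (cut := Cut.none) (xt := Ext.none) (P1 := 0) (W1 := 536870912) (P2 := 1073741824) (W2 := 536870912) (P3 := 134217728) (W3 := 67108864)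
    rfl k0_mm_012

noncomputable def f_mm_022 : ℕ → ℕ → ℕ → ℕ → Bool := onCell 0 536870912 1073741824 536870912 134217728 67108864
    (rowF 0 false false false .pp 0 2 2 (qsf 0 536870912 1073741824 536870912 2) ndF5q0 ndF5q2 pcF2 Cut.none Ext.none)

def k0_mm_022 : ∃ t, chk3 f_mm_022 t 1 1 1 = true :=
  ⟨(l 5), by decide +kernel⟩

theorem c_mm_022 : CertF 0 536870912 1073741824 536870912 134217728 67108864 false false false .pp 0 2 2
    ndF5q0 ndF5q2 pcF2 Cut.none Ext.none :=
  certF0 (fam := false) (s1 := false) (s2 := false) (a := 0) (b := 2) (c := 2) (cn := .pp) (n1 := ndF5q0) (n2 := ndF5q2) (pc := pcF2) (cut := Cut.none) (xt := Ext.none) (P1 := 0) (W1 := 536870912) (P2 := 1073741824) (W2 := 536870912) (P3 := 134217728) (W3 := 67108864)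
    rfl k0_mm_022

noncomputable def f_mm_023 : ℕ → ℕ → ℕ → ℕ → Bool := onCell 0 536870912 0 1230186008 134217728 67108864
    (rowF 0 false false false .up 0 2 3 (qsf 0 536870912 0 1230186008 2) ndF5q0 ndF5q3 pcF2 Cut.none Ext.none)

def k0_mm_023 : ∃ t, chk3 f_mm_023 t 1 1 1 = true :=
  ⟨(l 5), by decide +kernel⟩

theorem c_mm_023 : CertF 0 536870912 0 1230186008 134217728 67108864 false false false .up 0 2 3
    ndF5q0 ndF5q3 pcF2 Cut.none Ext.none :=
  certF0 (fam := false) (s1 := false) (s2 := false) (a := 0) (b := 2) (c := 3) (cn := .up) (n1 := ndF5q0) (n2 := ndF5q3) (pc := pcF2) (cut := Cut.none) (xt := Ext.none) (P1 := 0) (W1 := 536870912) (P2 := 0) (W2 := 1230186008) (P3 := 134217728) (W3 := 67108864)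
    rfl k0_mm_023

noncomputable def f_mm_033 : ℕ → ℕ → ℕ → ℕ → Bool := onCell 0 536870912 0 1230186008 134217728 67108864
    (rowF 0 false false false .pnn 0 3 3 (qsf 0 536870912 0 1230186008 3) ndF5q0 ndF5q3 pcF3 Cut.none Ext.none)

def k0_mm_033 : ∃ t, chk3 f_mm_033 t 1 1 1 = true :=
  ⟨(l 5), by decide +kernel⟩

theorem c_mm_033 : CertF 0 536870912 0 1230186008 134217728 67108864 false false false .pnn 0 3 3
    ndF5q0 ndF5q3 pcF3 Cut.none Ext.none :=
  certF0 (fam := false) (s1 := false) (s2 := false) (a := 0) (b := 3) (c := 3) (cn := .pnn) (n1 := ndF5q0) (n2 := ndF5q3) (pc := pcF3) (cut := Cut.none) (xt := Ext.none) (P1 := 0) (W1 := 536870912) (P2 := 0) (W2 := 1230186008) (P3 := 134217728) (W3 := 67108864)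
    rfl k0_mm_033

noncomputable def f_mm_101 : ℕ → ℕ → ℕ → ℕ → Bool := onCell 536870912 536870912 536870912 536870912 134217728 67108864
    (rowF 0 false false false .npn 1 0 1 (qsf 536870912 536870912 536870912 536870912 0) ndF5q1 ndF5q1 pcF0 Cut.none Ext.none)

def k0_mm_101 : ∃ t, chk3 f_mm_101 t 1 1 1 = true :=
  ⟨(l 3), by decide +kernel⟩

theorem c_mm_101 : CertF 536870912 536870912 536870912 536870912 134217728 67108864 false false false .npn 1 0 1
    ndF5q1 ndF5q1 pcF0 Cut.none Ext.none :=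
  certF0 (fam := false) (s1 := false) (s2 := false) (a := 1) (b := 0) (c := 1) (cn := .npn) (n1 := ndF5q1) (n2 := ndF5q1) (pc := pcF0) (cut := Cut.none) (xt := Ext.none) (P1 := 536870912) (W1 := 536870912) (P2 := 536870912) (W2 := 536870912) (P3 := 134217728) (W3 := 67108864)
    rfl k0_mm_101

noncomputable def f_mm_102 : ℕ → ℕ → ℕ → ℕ → Bool := onCell 536870912 536870912 0 536870912 134217728 67108864
    (rowF 1 false false false .npp 1 0 2 (qsf 536870912 536870912 1073741824 536870912 0) ndF5q1 ndF5q2 pcF0 Cut.none Ext.none)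

def k0_mm_102 : ∃ t, chk3 f_mm_102 t 1 1 1 = true :=
  ⟨(l 3), by decide +kernel⟩

theorem c_mm_102 : CertF 536870912 536870912 1073741824 536870912 134217728 67108864 false false false .npp 1 0 2
    ndF5q1 ndF5q2 pcF0 Cut.none Ext.none :=
  certF1 (fam := false) (s1 := false) (s2 := false) (a := 1) (b := 0) (c := 2) (cn := .npp) (n1 := ndF5q1) (n2 := ndF5q2) (pc := pcF0) (cut := Cut.none) (xt := Ext.none) (P1 := 536870912) (W1 := 536870912) (P2 := 1073741824) (W2 := 536870912) (P3 := 134217728) (W3 := 67108864)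
    rfl (fun _ => rfl) k0_mm_102

noncomputable def f_mm_112 : ℕ → ℕ → ℕ → ℕ → Bool := onCell 536870912 536870912 536870912 536870912 134217728 67108864
    (rowF 1 false false false .dn 1 1 2 (qsf 536870912 536870912 1073741824 536870912 1) ndF5q1 ndF5q2 pcF1 Cut.none Ext.none)

def k0_mm_112 : ∃ t, chk3 f_mm_112 t 1 1 1 = true :=
  ⟨(l 5), by decide +kernel⟩

theorem c_mm_112 : CertF 536870912 536870912 1073741824 536870912 134217728 67108864 false false false .dn 1 1 2
    ndF5q1 ndF5q2 pcF1 Cut.none Ext.none :=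
  certF1 (fam := false) (s1 := false) (s2 := false) (a := 1) (b := 1) (c := 2) (cn := .dn) (n1 := ndF5q1) (n2 := ndF5q2) (pc := pcF1) (cut := Cut.none) (xt := Ext.none) (P1 := 536870912) (W1 := 536870912) (P2 := 1073741824) (W2 := 536870912) (P3 := 134217728) (W3 := 67108864)
    rfl (fun _ => rfl) k0_mm_112

noncomputable def f_mm_113 : ℕ → ℕ → ℕ → ℕ → Bool := onCell 536870912 536870912 0 1230186008 134217728 67108864
    (rowF 0 false false false .nn 1 1 3 (qsf 536870912 536870912 0 1230186008 1) ndF5q1 ndF5q3 pcF1 Cut.none Ext.none)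

def k0_mm_113 : ∃ t, chk3 f_mm_113 t 1 1 1 = true :=
  ⟨(l 5), by decide +kernel⟩

theorem c_mm_113 : CertF 536870912 536870912 0 1230186008 134217728 67108864 false false false .nn 1 1 3
    ndF5q1 ndF5q3 pcF1 Cut.none Ext.none :=
  certF0 (fam := false) (s1 := false) (s2 := false) (a := 1) (b := 1) (c := 3) (cn := .nn) (n1 := ndF5q1) (n2 := ndF5q3) (pc := pcF1) (cut := Cut.none) (xt := Ext.none) (P1 := 536870912) (W1 := 536870912) (P2 := 0) (W2 := 1230186008) (P3 := 134217728) (W3 := 67108864)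
    rfl k0_mm_113

noncomputable def f_mm_123 : ℕ → ℕ → ℕ → ℕ → Bool := onCell 536870912 536870912 0 1230186008 134217728 67108864
    (rowF 0 false false false .npn 1 2 3 (qsf 536870912 536870912 0 1230186008 2) ndF5q1 ndF5q3 pcF2 Cut.none Ext.none)

def k0_mm_123 : ∃ t, chk3 f_mm_123 t 1 1 1 = true :=
  ⟨(l 5), by decide +kernel⟩

theorem c_mm_123 : CertF 536870912 536870912 0 1230186008 134217728 67108864 false false false .npn 1 2 3
    ndF5q1 ndF5q3 pcF2 Cut.none Ext.none :=
  certF0 (fam := false) (s1 := false) (s2 := false) (a := 1) (b := 2) (c := 3) (cn := .npn) (n1 := ndF5q1) (n2 := ndF5q3) (pc := pcF2) (cut := Cut.none) (xt := Ext.none) (P1 := 536870912) (W1 := 536870912) (P2 := 0) (W2 := 1230186008) (P3 := 134217728) (W3 := 67108864)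
    rfl k0_mm_123

noncomputable def f_mm_133 : ℕ → ℕ → ℕ → ℕ → Bool := onCell 536870912 536870912 0 1230186008 134217728 67108864
    (rowF 0 false false false .dn 1 3 3 (qsf 536870912 536870912 0 1230186008 3) ndF5q1 ndF5q3 pcF3 Cut.none Ext.none)

def k0_mm_133 : ∃ t, chk3 f_mm_133 t 1 1 1 = true :=
  ⟨(l 5), by decide +kernel⟩

theorem c_mm_133 : CertF 536870912 536870912 0 1230186008 134217728 67108864 false false false .dn 1 3 3
    ndF5q1 ndF5q3 pcF3 Cut.none Ext.none :=
  certF0 (fam := false) (s1 := false) (s2 := false) (a := 1) (b := 3) (c := 3) (cn := .dn) (n1 := ndF5q1) (n2 := ndF5q3) (pc := pcF3) (cut := Cut.none) (xt := Ext.none) (P1 := 536870912) (W1 := 536870912) (P2 := 0) (W2 := 1230186008) (P3 := 134217728) (W3 := 67108864)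
    rfl k0_mm_133

noncomputable def f_mm_202 : ℕ → ℕ → ℕ → ℕ → Bool := onCell 1073741824 536870912 1073741824 536870912 134217728 67108864
    (rowF 0 false false false .pp 2 0 2 (qsf 1073741824 536870912 1073741824 536870912 0) ndF5q2 ndF5q2 pcF0 Cut.none Ext.none)

def k0_mm_202 : ∃ t, chk3 f_mm_202 t 1 1 1 = true :=
  ⟨(l 3), by decide +kernel⟩

theorem c_mm_202 : CertF 1073741824 536870912 1073741824 536870912 134217728 67108864 false false false .pp 2 0 2
    ndF5q2 ndF5q2 pcF0 Cut.none Ext.none :=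
  certF0 (fam := false) (s1 := false) (s2 := false) (a := 2) (b := 0) (c := 2) (cn := .pp) (n1 := ndF5q2) (n2 := ndF5q2) (pc := pcF0) (cut := Cut.none) (xt := Ext.none) (P1 := 1073741824) (W1 := 536870912) (P2 := 1073741824) (W2 := 536870912) (P3 := 134217728) (W3 := 67108864)
    rfl k0_mm_202

noncomputable def f_mm_203 : ℕ → ℕ → ℕ → ℕ → Bool := onCell 1073741824 536870912 0 1230186008 134217728 67108864
    (rowF 0 false false false .up 2 0 3 (qsf 1073741824 536870912 0 1230186008 0) ndF5q2 ndF5q3 pcF0 Cut.none Ext.none)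

def k0_mm_203 : ∃ t, chk3 f_mm_203 t 1 1 1 = true :=
  ⟨(b (l 5) (b (l 5) (l 3))), by decide +kernel⟩

theorem c_mm_203 : CertF 1073741824 536870912 0 1230186008 134217728 67108864 false false false .up 2 0 3
    ndF5q2 ndF5q3 pcF0 Cut.none Ext.none :=
  certF0 (fam := false) (s1 := false) (s2 := false) (a := 2) (b := 0) (c := 3) (cn := .up) (n1 := ndF5q2) (n2 := ndF5q3) (pc := pcF0) (cut := Cut.none) (xt := Ext.none) (P1 := 1073741824) (W1 := 536870912) (P2 := 0) (W2 := 1230186008) (P3 := 134217728) (W3 := 67108864)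
    rfl k0_mm_203

noncomputable def f_mm_213 : ℕ → ℕ → ℕ → ℕ → Bool := onCell 536870912 536870912 0 1230186008 134217728 67108864
    (rowF 2 false false false .pnn 2 1 3 (qsf 1073741824 536870912 0 1230186008 1) ndF5q2 ndF5q3 pcF1 Cut.none Ext.none)

def k0_mm_213 : ∃ t, chk3 f_mm_213 t 1 1 1 = true :=
  ⟨(b (l 5) (l 5)), by decide +kernel⟩

theorem c_mm_213 : CertF 1073741824 536870912 0 1230186008 134217728 67108864 false false false .pnn 2 1 3
    ndF5q2 ndF5q3 pcF1 Cut.none Ext.none :=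
  certF2 (fam := false) (s1 := false) (s2 := false) (a := 2) (b := 1) (c := 3) (cn := .pnn) (n1 := ndF5q2) (n2 := ndF5q3) (pc := pcF1) (cut := Cut.none) (xt := Ext.none) (P1 := 1073741824) (W1 := 536870912) (P2 := 0) (W2 := 1230186008) (P3 := 134217728) (W3 := 67108864)
    rfl (fun _ => rfl) k0_mm_213

noncomputable def f_mm_303 : ℕ → ℕ → ℕ → ℕ → Bool := onCell 0 1230186008 0 1230186008 134217728 67108864
    (rowF 0 false false false .npn 3 0 3 (qsf 0 1230186008 0 1230186008 0) ndF5q3 ndF5q3 pcF0 Cut.none Ext.none)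

def k0_mm_303 : ∃ t, chk3 f_mm_303 t 1 1 1 = true :=
  ⟨(a (b (l 3) (a (l 1) (l 3))) (b (a (l 3) (l 5)) (l 3))), by decide +kernel⟩

theorem c_mm_303 : CertF 0 1230186008 0 1230186008 134217728 67108864 false false false .npn 3 0 3
    ndF5q3 ndF5q3 pcF0 Cut.none Ext.none :=
  certF0 (fam := false) (s1 := false) (s2 := false) (a := 3) (b := 0) (c := 3) (cn := .npn) (n1 := ndF5q3) (n2 := ndF5q3) (pc := pcF0) (cut := Cut.none) (xt := Ext.none) (P1 := 0) (W1 := 1230186008) (P2 := 0) (W2 := 1230186008) (P3 := 134217728) (W3 := 67108864)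
    rfl k0_mm_303

noncomputable def f_mm_313 : ℕ → ℕ → ℕ → ℕ → Bool := onCell 0 1230186008 0 1230186008 134217728 67108864
    (rowF 0 false false false .dn 3 1 3 (qsf 0 1230186008 0 1230186008 1) ndF5q3 ndF5q3 pcF1 Cut.none Ext.none)

def k0_mm_313 : ∃ t, chk3 f_mm_313 t 1 1 1 = true :=
  ⟨(a (l 1) (b (a (l 1) (l 5)) (l 1))), by decide +kernel⟩

theorem c_mm_313 : CertF 0 1230186008 0 1230186008 134217728 67108864 false false false .dn 3 1 3
    ndF5q3 ndF5q3 pcF1 Cut.none Ext.none :=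
  certF0 (fam := false) (s1 := false) (s2 := false) (a := 3) (b := 1) (c := 3) (cn := .dn) (n1 := ndF5q3) (n2 := ndF5q3) (pc := pcF1) (cut := Cut.none) (xt := Ext.none) (P1 := 0) (W1 := 1230186008) (P2 := 0) (W2 := 1230186008) (P3 := 134217728) (W3 := 67108864)
    rfl k0_mm_313

end Pool.Agent.Strip051.G.I1_8_3_16.Tab.C.FB55

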