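import Pool.Agent.Strip051.G.I1_8_3_16.Gn
import Pool.Agent.Strip051.PB.Corns

/-! # Certificates of the aligned corners (generated) -/

set_option linter.all false

namespace Pool.Agent.Strip051.G.I1_8_3_16.Tab.CN

open Pool.Agent.Strip051.PB

def A011E_000 :
    ∃ t, chk3 (onCell 0 67108864 0 1073741824 134217728 67108864 (corT false 3 c0N cA011E gN0q0 gN0q1 gN0q1 gN1q1 true false)) t 1 1 1 = true :=
  ⟨(T.l 1), by decide +kernel⟩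

def A011L_002 :
    ∃ t, chk3 (onCell 0 67108864 0 1073741824 134217728 67108864 (corT false 3 c0N cA011L gN0q0 gN0q1 gN2q1 gN3q1 false true)) t 1 1 1 = true :=
  ⟨(T.l 2), by decide +kernel⟩

def A011L_003 :
    ∃ t, chk3 (onCell 0 67108864 0 1073741824 134217728 67108864 (corT false 3 c0N cA011L gN0q0 gN0q1 gN3q1 gN4q1 true true)) t 1 1 1 = true :=
  ⟨(T.l 2), by decide +kernel⟩

def A011L_004 :
    ∃ t, chk3 (onCell 0 67108864 0 1073741824 134217728 67108864 (corT false 3 c0N cA011L gN0q0 gN0q1 gN4q1 gN5q1 true true)) t 1 1 1 = true :=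
  ⟨(T.l 2), by decide +kernel⟩

def A011R_030_1_16_1 :
    ∃ t, chk3 (onCell 0 67108864 0 1073741824 134217728 67108864 (corT false 3 c0N cA011R gN0q0 gN3q1 gN0q1 gN1q1 true false)) t 1 16 1 = true :=
  ⟨(T.a (T.c (T.c (T.b (T.l 204) (T.c (T.a (T.l 204) (T.l 204)) (T.l 220))) (T.b (T.l 204) (T.c (T.l 204) (T.l 204)))) (T.c (T.b (T.l 204) (T.c (T.l 204) (T.l 204))) (T.b (T.l 204) (T.l 220)))) (T.a (T.c (T.c (T.l 460) (T.l 204)) (T.c (T.l 204) (T.l 204))) (T.c (T.c (T.a (T.b (T.l 204) (T.l 460)) (T.b (T.l 204) (T.l 460))) (T.a (T.l 460) (T.b (T.l 204) (T.l 204)))) (T.a (T.c (T.l 204) (T.l 204)) (T.c (T.l 460) (T.l 204)))))), by decide +kernel⟩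

def A011R_030_1_272_1 :
    ∃ t, chk3 (onCell 0 67108864 0 1073741824 134217728 67108864 (corT false 3 c0N cA011R gN0q0 gN3q1 gN0q1 gN1q1 true false)) t 1 272 1 = true :=
  ⟨(T.b (T.a (T.c (T.c (T.c (T.l 204) (T.l 204)) (T.c (T.l 204) (T.l 204))) (T.c (T.l 204) (T.l 204))) (T.b (T.a (T.c (T.c (T.l 204) (T.l 204)) (T.l 460)) (T.c (T.c (T.a (T.l 460) (T.l 204)) (T.a (T.l 204) (T.l 204))) (T.c (T.a (T.l 204) (T.l 204)) (T.a (T.l 204) (T.l 204))))) (T.a (T.c (T.c (T.l 204) (T.l 204)) (T.l 460)) (T.b (T.c (T.c (T.a (T.l 460) (T.l 204)) (T.a (T.l 204) (T.l 204))) (T.c (T.a (T.l 204) (T.l 204)) (T.a (T.l 204) (T.l 204)))) (T.c (T.c (T.a (T.l 460) (T.l 460)) (T.a (T.l 204) (T.l 204))) (T.c (T.a (T.l 204) (T.l 204)) (T.a (T.l 204) (T.l 204)))))))) (T.a (T.b (T.a (T.c (T.c (T.c (T.l 204) (T.l 204)) (T.c (T.l 204) (T.l 204))) (T.c (T.l 204) (T.l 204)))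 (T.c (T.c (T.l 204) (T.l 204)) (T.c (T.l 204) (T.l 204)))) (T.a (T.b (T.c (T.c (T.c (T.l 204) (T.l 204)) (T.c (T.l 204) (T.l 204))) (T.c (T.l 204) (T.l 204))) (T.c (T.c (T.c (T.l 204) (T.l 204)) (T.c (T.l 204) (T.l 204))) (T.c (T.l 204) (T.l 204)))) (T.c (T.c (T.l 204) (T.l 204)) (T.c (T.l 204) (T.l 204))))) (T.b (T.a (T.c (T.c (T.l 204) (T.l 204)) (T.l 460)) (T.b (T.c (T.c (T.a (T.l 460) (T.l 460)) (T.a (T.l 204) (T.l 204))) (T.c (T.a (T.l 204) (T.l 204)) (T.a (T.l 204) (T.l 204)))) (T.c (T.c (T.a (T.l 460) (T.l 460)) (T.a (T.l 204) (T.l 204))) (T.c (T.a (T.l 204) (T.l 204)) (T.a (T.l 204) (T.l 204)))))) (T.a (T.c (T.c (T.l 204) (T.l 204)) (T.a (T.l 460) (T.l 460))) (T.b (T.c (T.a (T.c (T.l 460) (T.l 204)) (T.c (T.l 460) (T.l 204))) (T.a (T.c (T.l 204) (T.l 204)) (T.c (T.l 204) (T.l 204)))) (T.l 1)))))), by decide +kernel⟩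

def A011R_030_1_273_1 :
    ∃ t, chk3 (onCell 0 67108864 0 1073741824 134217728 67108864 (corT false 3 c0N cA011R gN0q0 gN3q1 gN0q1 gN1q1 true false)) t 1 273 1 = true :=
  ⟨(T.a (T.b (T.a (T.b (T.b (T.c (T.a (T.b (T.c (T.c (T.l 204) (T.l 204)) (T.c (T.l 204) (T.l 204))) (T.a (T.a (T.a (T.b (T.b (T.b (T.c (T.c (T.l 204) (T.l 204)) (T.c (T.l 204) (T.l 204))) (T.l 1)) (T.l 1)) (T.l 1)) (T.l 1)) (T.l 1)) (T.l 1))) (T.c (T.a (T.l 220) (T.l 204)) (T.l 204))) (T.c (T.l 204) (T.l 204))) (T.l 1)) (T.l 1)) (T.l 1)) (T.l 1)) (T.l 1)), by decide +kernel⟩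

def A011R_030_1_137_1 :
    ∃ t, chk3 (onCell 0 67108864 0 1073741824 134217728 67108864 (corT false 3 c0N cA011R gN0q0 gN3q1 gN0q1 gN1q1 true false)) t 1 137 1 = true :=
  ⟨(T.l 1), by decide +kernel⟩

def A011R_030_1_69_1 :
    ∃ t, chk3 (onCell 0 67108864 0 1073741824 134217728 67108864 (corT false 3 c0N cA011R gN0q0 gN3q1 gN0q1 gN1q1 true false)) t 1 69 1 = true :=
  ⟨(T.l 1), by decide +kernel⟩

def A011R_030_1_35_1 :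
    ∃ t, chk3 (onCell 0 67108864 0 1073741824 134217728 67108864 (corT false 3 c0N cA011R gN0q0 gN3q1 gN0q1 gN1q1 true false)) t 1 35 1 = true :=
  ⟨(T.l 1), by decide +kernel⟩

def A011R_030_1_9_1 :
    ∃ t, chk3 (onCell 0 67108864 0 1073741824 134217728 67108864 (corT false 3 c0N cA011R gN0q0 gN3q1 gN0q1 gN1q1 true false)) t 1 9 1 = true :=
  ⟨(T.l 1), by decide +kernel⟩

def A011R_030_1_5_1 :
    ∃ t, chk3 (onCell 0 67108864 0 1073741824 134217728 67108864 (corT false 3 c0N cA011R gN0q0 gN3q1 gN0q1 gN1q1 true false)) t 1 5 1 = true :=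
  ⟨(T.l 1), by decide +kernel⟩

def A011R_030_1_3_1 :
    ∃ t, chk3 (onCell 0 67108864 0 1073741824 134217728 67108864 (corT false 3 c0N cA011R gN0q0 gN3q1 gN0q1 gN1q1 true false)) t 1 3 1 = true :=
  ⟨(T.l 1), by decide +kernel⟩

theorem A011R_030_1_136_1 :
    ∃ t, chk3 (onCell 0 67108864 0 1073741824 134217728 67108864 (corT false 3 c0N cA011R gN0q0 gN3q1 gN0q1 gN1q1 true false)) t 1 136 1 = true :=
  ex3_b A011R_030_1_272_1 A011R_030_1_273_1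
theorem A011R_030_1_68_1 :
    ∃ t, chk3 (onCell 0 67108864 0 1073741824 134217728 67108864 (corT false 3 c0N cA011R gN0q0 gN3q1 gN0q1 gN1q1 true false)) t 1 68 1 = true :=
  ex3_b A011R_030_1_136_1 A011R_030_1_137_1
theorem A011R_030_1_34_1 :
    ∃ t, chk3 (onCell 0 67108864 0 1073741824 134217728 67108864 (corT false 3 c0N cA011R gN0q0 gN3q1 gN0q1 gN1q1 true false)) t 1 34 1 = true :=
  ex3_b A011R_030_1_68_1 A011R_030_1_69_1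
theorem A011R_030_1_17_1 :
    ∃ t, chk3 (onCell 0 67108864 0 1073741824 134217728 67108864 (corT false 3 c0N cA011R gN0q0 gN3q1 gN0q1 gN1q1 true false)) t 1 17 1 = true :=
  ex3_b A011R_030_1_34_1 A011R_030_1_35_1
theorem A011R_030_1_8_1 :
    ∃ t, chk3 (onCell 0 67108864 0 1073741824 134217728 67108864 (corT false 3 c0N cA011R gN0q0 gN3q1 gN0q1 gN1q1 true false)) t 1 8 1 = true :=
  ex3_b A011R_030_1_16_1 A011R_030_1_17_1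
theorem A011R_030_1_4_1 :
    ∃ t, chk3 (onCell 0 67108864 0 1073741824 134217728 67108864 (corT false 3 c0N cA011R gN0q0 gN3q1 gN0q1 gN1q1 true false)) t 1 4 1 = true :=
  ex3_b A011R_030_1_8_1 A011R_030_1_9_1
theorem A011R_030_1_2_1 :
    ∃ t, chk3 (onCell 0 67108864 0 1073741824 134217728 67108864 (corT false 3 c0N cA011R gN0q0 gN3q1 gN0q1 gN1q1 true false)) t 1 2 1 = true :=
  ex3_b A011R_030_1_4_1 A011R_030_1_5_1
theorem A011R_030 :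
    ∃ t, chk3 (onCell 0 67108864 0 1073741824 134217728 67108864 (corT false 3 c0N cA011R gN0q0 gN3q1 gN0q1 gN1q1 true false)) t 1 1 1 = true :=
  ex3_b A011R_030_1_2_1 A011R_030_1_3_1

def A011R_040 :
    ∃ t, chk3 (onCell 0 67108864 0 1073741824 134217728 67108864 (corT false 3 c0N cA011R gN0q0 gN4q1 gN0q1 gN1q1 true false)) t 1 1 1 = true :=
  ⟨(T.b (T.b (T.a (T.c (T.b (T.c (T.l 0) (T.l 0)) (T.b (T.c (T.b (T.l 204) (T.a (T.l 204) (T.l 204))) (T.l 204)) (T.b (T.b (T.c (T.c (T.a (T.a (T.l 204) (T.l 204)) (T.l 204)) (T.l 204)) (T.l 204)) (T.l 1)) (T.l 1)))) (T.b (T.l 0) (T.b (T.a (T.l 0) (T.l 0)) (T.b (T.b (T.l 204) (T.l 1)) (T.l 1))))) (T.a (T.c (T.b (T.b (T.l 0) (T.l 0)) (T.b (T.c (T.l 204) (T.l 204)) (T.b (T.c (T.l 220) (T.l 204)) (T.l 1)))) (T.b (T.l 0) (T.b (T.l 0) (T.b (T.l 204) (T.l 1))))) (T.c (T.b (T.c (T.l 0) (T.l 0)) (T.c (T.b (T.l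 204) (T.b (T.a (T.l 204) (T.l 204)) (T.l 1))) (T.b (T.l 0) (T.b (T.l 204) (T.l 1))))) (T.b (T.b (T.l 0) (T.l 0)) (T.b (T.l 16) (T.b (T.a (T.l 204) (T.l 204)) (T.l 1))))))) (T.l 1)) (T.l 1)), by decide +kernel⟩

def A011R_050 :
    ∃ t, chk3 (onCell 0 67108864 0 1073741824 134217728 67108864 (corT false 3 c0N cA011R gN0q0 gN5q1 gN0q1 gN1q1 true false)) t 1 1 1 = true :=
  ⟨(T.b (T.b (T.a (T.c (T.b (T.b (T.l 816) (T.l 816)) (T.c (T.l 816) (T.l 816))) (T.b (T.l 816) (T.b (T.l 816) (T.l 816)))) (T.b (T.c (T.a (T.l 884) (T.b (T.l 816) (T.l 816))) (T.a (T.l 816) (T.l 880))) (T.c (T.b (T.l 820) (T.a (T.l 816) (T.l 816))) (T.b (T.l 816) (T.l 816))))) (T.b (T.b (T.c (T.a (T.c (T.l 0) (T.l 0)) (T.c (T.l 816) (T.l 816))) (T.a (T.a (T.l 816) (T.l 816)) (T.a (T.l 816) (T.l 816)))) (T.b (T.a (T.b (T.c (T.l 0) (T.l 0)) (T.b (T.a (T.b (T.l 0) (T.b (T.l 0) (T.a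 (T.b (T.l 0) (T.l 1)) (T.l 0)))) (T.c (T.l 0) (T.l 0))) (T.a (T.l 1) (T.b (T.b (T.a (T.l 1) (T.b (T.l 816) (T.l 1))) (T.l 1)) (T.l 1))))) (T.b (T.c (T.l 816) (T.l 816)) (T.b (T.c (T.l 816) (T.l 816)) (T.b (T.a (T.b (T.l 816) (T.a (T.l 1) (T.b (T.l 816) (T.l 1)))) (T.c (T.l 816) (T.l 816))) (T.a (T.l 1) (T.a (T.l 1) (T.a (T.l 1) (T.b (T.b (T.l 816) (T.l 1)) (T.l 1))))))))) (T.l 1))) (T.l 1))) (T.l 1)), by decide +kernel⟩

def A011R_130 :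
    ∃ t, chk3 (onCell 0 67108864 0 1073741824 134217728 67108864 (corT false 3 c0N cA011R gN1q0 gN3q1 gN0q1 gN1q1 true false)) t 1 1 1 = true :=
  ⟨(T.l 1), by decide +kernel⟩

def A011R_140 :
    ∃ t, chk3 (onCell 0 67108864 0 1073741824 134217728 67108864 (corT false 3 c0N cA011R gN1q0 gN4q1 gN0q1 gN1q1 true false)) t 1 1 1 = true :=
  ⟨(T.l 1), by decide +kernel⟩

def A011R_150 :
    ∃ t, chk3 (onCell 0 67108864 0 1073741824 134217728 67108864 (corT false 3 c0N cA011R gN1q0 gN5q1 gN0q1 gN1q1 true false)) t 1 1 1 = true :=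
  ⟨(T.l 1), by decide +kernel⟩

def A011R_230 :
    ∃ t, chk3 (onCell 0 67108864 0 1073741824 134217728 67108864 (corT false 3 c0N cA011R gN2q0 gN3q1 gN0q1 gN1q1 true false)) t 1 1 1 = true :=
  ⟨(T.l 1), by decide +kernel⟩

def A011R_240 :
    ∃ t, chk3 (onCell 0 67108864 0 1073741824 134217728 67108864 (corT false 3 c0N cA011R gN2q0 gN4q1 gN0q1 gN1q1 true false)) t 1 1 1 = true :=
  ⟨(T.l 1), by decide +kernel⟩

def A011R_250 :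
    ∃ t, chk3 (onCell 0 67108864 0 1073741824 134217728 67108864 (corT false 3 c0N cA011R gN2q0 gN5q1 gN0q1 gN1q1 true false)) t 1 1 1 = true :=
  ⟨(T.l 1), by decide +kernel⟩

def A012E_000_1_2_1 :
    ∃ t, chk3 (onCell 0 67108864 0 1073741824 134217728 67108864 (corT false 3 c0N cA012E gN0q0 gN0q1 gN0q2 gN1q2 true true)) t 1 2 1 = true :=
  ⟨(T.b (T.l 1) (T.b (T.l 1) (T.b (T.l 1) (T.b (T.l 1) (T.a (T.b (T.l 1) (T.a (T.b (T.l 1) (T.a (T.b (T.l 1) (T.c (T.l 0) (T.l 0))) (T.a (T.c (T.c (T.c (T.a (T.l 0) (T.l 0)) (T.l 0)) (T.l 0)) (T.l 0)) (T.l 0)))) (T.b (T.b (T.a (T.l 1) (T.a (T.l 1) (T.c (T.l 0) (T.l 0)))) (T.a (T.a (T.l 1) (T.l 0)) (T.l 0))) (T.l 0)))) (T.a (T.b (T.b (T.l 1) (T.a (T.l 1) (T.b (T.l 1) (T.c (T.l 0) (T.l 0))))) (T.c (T.l 0) (T.l 0))) (T.a (T.b (T.b (T.l 1) (T.c (T.c (T.l 0) (T.l 0)) (T.l 0))) (T.l 0)) (T.b (T.b (T.a (T.l 1) (T.a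 (T.l 1) (T.b (T.l 1) (T.l 0)))) (T.c (T.l 816) (T.l 0))) (T.c (T.l 816) (T.l 816)))))))))), by decide +kernel⟩

def A012E_000_2_6_1 :
    ∃ t, chk3 (onCell 0 67108864 0 1073741824 134217728 67108864 (corT false 3 c0N cA012E gN0q0 gN0q1 gN0q2 gN1q2 true true)) t 2 6 1 = true :=
  ⟨(T.b (T.c (T.b (T.a (T.c (T.l 0) (T.l 0)) (T.c (T.l 0) (T.l 0))) (T.a (T.c (T.b (T.l 816) (T.l 816)) (T.l 816)) (T.c (T.b (T.l 816) (T.l 816)) (T.b (T.l 816) (T.l 816))))) (T.b (T.a (T.b (T.l 0) (T.l 816)) (T.b (T.l 0) (T.l 816))) (T.a (T.a (T.l 816) (T.l 820)) (T.a (T.l 820) (T.l 820))))) (T.b (T.c (T.a (T.c (T.b (T.l 816) (T.l 816)) (T.b (T.l 816) (T.l 816))) (T.c (T.b (T.l 816) (T.l 820)) (T.b (T.l 816) (T.l 816)))) (T.a (T.c (T.b (T.l 816) (T.l 816)) (T.l 816)) (T.c (T.b (T.l 816) (T.l 816)) (T.l 820)))) (T.l 2))), by decide +kernel⟩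

def A012E_000_3_6_1 :
    ∃ t, chk3 (onCell 0 67108864 0 1073741824 134217728 67108864 (corT false 3 c0N cA012E gN0q0 gN0q1 gN0q2 gN1q2 true true)) t 3 6 1 = true :=
  ⟨(T.b (T.a (T.c (T.b (T.b (T.l 816) (T.a (T.l 816) (T.l 816))) (T.c (T.b (T.l 816) (T.l 880)) (T.b (T.l 816) (T.l 816)))) (T.b (T.b (T.l 816) (T.l 816)) (T.a (T.l 884) (T.l 884)))) (T.b (T.a (T.b (T.c (T.l 816) (T.l 816)) (T.c (T.c (T.l 884) (T.l 880)) (T.b (T.l 816) (T.l 816)))) (T.c (T.b (T.b (T.l 816) (T.l 880)) (T.c (T.l 884) (T.l 880))) (T.b (T.l 884) (T.b (T.l 816) (T.l 880))))) (T.a (T.c (T.b (T.c (T.b (T.l 816) (T.l 880)) (T.b (T.l 816) (T.l 816))) (T.c (T.b (T.l 884) (T.l 884)) (T.b (T.l 880) (T.l 884)))) (T.b (T.c (T.l 884) (T.l 880)) (T.a (T.b (T.l 816) (T.l 816)) (T.l 884)))) (T.c (T.b (T.c (T.b (T.l 816) (T.l 820)) (T.l 884)) (T.c (T.b (T.l 884) (T.l 884)) (T.b (T.l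 816) (T.l 884)))) (T.b (T.b (T.l 884) (T.l 884)) (T.a (T.l 884) (T.l 884))))))) (T.b (T.b (T.a (T.a (T.c (T.b (T.l 884) (T.l 884)) (T.l 816)) (T.c (T.a (T.b (T.l 880) (T.l 884)) (T.c (T.l 884) (T.l 880))) (T.a (T.l 816) (T.b (T.l 880) (T.l 880))))) (T.a (T.c (T.c (T.a (T.l 884) (T.l 884)) (T.b (T.l 884) (T.l 884))) (T.a (T.b (T.l 880) (T.l 884)) (T.b (T.l 816) (T.l 884)))) (T.c (T.a (T.c (T.l 884) (T.l 820)) (T.a (T.c (T.l 820) (T.l 816)) (T.c (T.b (T.l 820) (T.l 820)) (T.l 884)))) (T.a (T.b (T.l 820) (T.l 884)) (T.a (T.l 884) (T.b (T.l 884) (T.l 884))))))) (T.a (T.a (T.c (T.c (T.l 816) (T.l 816)) (T.l 880)) (T.l 2)) (T.l 2))) (T.l 2))), by decide +kernel⟩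

def A012E_000_1_7_1 :
    ∃ t, chk3 (onCell 0 67108864 0 1073741824 134217728 67108864 (corT false 3 c0N cA012E gN0q0 gN0q1 gN0q2 gN1q2 true true)) t 1 7 1 = true :=
  ⟨(T.l 2), by decide +kernel⟩

theorem A012E_000_1_6_1 :
    ∃ t, chk3 (onCell 0 67108864 0 1073741824 134217728 67108864 (corT false 3 c0N cA012E gN0q0 gN0q1 gN0q2 gN1q2 true true)) t 1 6 1 = true :=
  ex3_a A012E_000_2_6_1 A012E_000_3_6_1
theorem A012E_000_1_3_1 :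
    ∃ t, chk3 (onCell 0 67108864 0 1073741824 134217728 67108864 (corT false 3 c0N cA012E gN0q0 gN0q1 gN0q2 gN1q2 true true)) t 1 3 1 = true :=
  ex3_b A012E_000_1_6_1 A012E_000_1_7_1
theorem A012E_000 :
    ∃ t, chk3 (onCell 0 67108864 0 1073741824 134217728 67108864 (corT false 3 c0N cA012E gN0q0 gN0q1 gN0q2 gN1q2 true true)) t 1 1 1 = true :=
  ex3_b A012E_000_1_2_1 A012E_000_1_3_1

def A012E_001_1_2_1 :
    ∃ t, chk3 (onCell 0 67108864 0 1073741824 134217728 67108864 (corT false 3 c0N cA012E gN0q0 gN0q1 gN1q2 gN2q2 true true)) t 1 2 1 = true :=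
  ⟨(T.l 1), by decide +kernel⟩

def A012E_001_1_6_1 :
    ∃ t, chk3 (onCell 0 67108864 0 1073741824 134217728 67108864 (corT false 3 c0N cA012E gN0q0 gN0q1 gN1q2 gN2q2 true true)) t 1 6 1 = true :=
  ⟨(T.b (T.l 1) (T.a (T.c (T.b (T.c (T.a (T.l 816) (T.l 816)) (T.a (T.l 816) (T.l 816))) (T.c (T.a (T.l 816) (T.l 880)) (T.a (T.l 816) (T.l 816)))) (T.b (T.c (T.a (T.l 816) (T.l 816)) (T.a (T.l 816) (T.l 816))) (T.c (T.a (T.l 816) (T.l 816)) (T.a (T.l 816) (T.l 816))))) (T.a (T.a (T.c (T.c (T.b (T.l 816) (T.l 880)) (T.l 880)) (T.c (T.l 880) (T.l 816))) (T.b (T.c (T.a (T.c (T.l 816) (T.l 816)) (T.c (T.b (T.l 816) (T.l 880)) (T.b (T.l 816) (T.l 816)))) (T.a (T.l 880) (T.c (T.b (T.l 816) (T.l 816)) (T.l 884)))) (T.c (T.a (T.c (T.b (T.l 884) (T.b (T.l 880) (T.l 880))) (T.b (T.l 880) (T.l 884))) (T.c (T.b (T.l 884) (T.l 884)) (T.b (T.l 880) (T.l 884))))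 (T.a (T.c (T.b (T.l 880) (T.l 880)) (T.b (T.l 816) (T.l 880))) (T.c (T.b (T.l 816) (T.l 880)) (T.b (T.l 816) (T.l 816))))))) (T.b (T.c (T.a (T.b (T.c (T.b (T.l 1) (T.l 884)) (T.l 884)) (T.c (T.b (T.l 884) (T.l 884)) (T.b (T.l 820) (T.l 884)))) (T.c (T.b (T.b (T.l 1) (T.l 820)) (T.b (T.l 884) (T.l 884))) (T.a (T.l 884) (T.l 884)))) (T.a (T.b (T.b (T.l 1) (T.l 884)) (T.c (T.l 884) (T.l 884))) (T.b (T.c (T.l 884) (T.l 820)) (T.c (T.l 884) (T.l 884))))) (T.c (T.a (T.c (T.b (T.b (T.l 884) (T.l 884)) (T.a (T.l 884) (T.l 884))) (T.b (T.b (T.l 884) (T.l 884)) (T.a (T.l 884) (T.l 884)))) (T.c (T.b (T.b (T.l 884) (T.l 884)) (T.a (T.l 884) (T.l 884))) (T.b (T.b (T.l 884) (T.l 884)) (T.b (T.l 884) (T.l 884))))) (T.a (T.b (T.c (T.b (T.l 884) (T.l 884)) (T.l 884)) (T.c (T.b (T.l 884) (T.l 884)) (T.b (T.l 884) (T.l 884)))) (T.b (T.c (T.b (T.l 820) (T.l 884))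 (T.l 884)) (T.c (T.b (T.l 884) (T.l 884)) (T.b (T.l 820) (T.l 884)))))))))), by decide +kernel⟩

def A012E_001_2_14_1 :
    ∃ t, chk3 (onCell 0 67108864 0 1073741824 134217728 67108864 (corT false 3 c0N cA012E gN0q0 gN0q1 gN1q2 gN2q2 true true)) t 2 14 1 = true :=
  ⟨(T.c (T.c (T.a (T.b (T.l 816) (T.l 816)) (T.b (T.b (T.l 816) (T.l 880)) (T.c (T.l 880) (T.l 880)))) (T.a (T.b (T.l 816) (T.l 816)) (T.b (T.l 880) (T.b (T.l 816) (T.l 880))))) (T.b (T.c (T.a (T.l 816) (T.l 816)) (T.a (T.l 816) (T.l 816))) (T.c (T.a (T.l 816) (T.l 880)) (T.a (T.l 816) (T.l 816))))), by decide +kernel⟩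

def A012E_001_12_14_1 :
    ∃ t, chk3 (onCell 0 67108864 0 1073741824 134217728 67108864 (corT false 3 c0N cA012E gN0q0 gN0q1 gN1q2 gN2q2 true true)) t 12 14 1 = true :=
  ⟨(T.c (T.b (T.a (T.c (T.l 880) (T.l 816)) (T.c (T.b (T.c (T.l 880) (T.l 880)) (T.a (T.b (T.l 816) (T.l 880)) (T.b (T.l 880) (T.l 880)))) (T.b (T.b (T.l 816) (T.l 880)) (T.a (T.l 880) (T.l 880))))) (T.a (T.c (T.b (T.l 880) (T.a (T.l 880) (T.c (T.l 880) (T.l 880)))) (T.b (T.l 816) (T.a (T.l 816) (T.b (T.l 880) (T.l 880))))) (T.c (T.b (T.a (T.c (T.l 880) (T.l 880)) (T.b (T.l 880) (T.l 880))) (T.c (T.b (T.l 880) (T.l 880)) (T.b (T.l 880) (T.l 880)))) (T.b (T.a (T.b (T.l 880) (T.l 880)) (T.l 880)) (T.a (T.b (T.l 880) (T.l 880)) (T.l 880)))))) (T.b (T.a (T.c (T.l 816) (T.l 816)) (T.c (T.b (T.b (T.l 816) (T.l 880)) (T.b (T.l 880) (T.l 880))) (T.b (T.l 880) (T.b (T.l 880) (T.l 880)))))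 (T.a (T.b (T.c (T.l 816) (T.l 816)) (T.c (T.a (T.l 816) (T.b (T.l 816) (T.l 880))) (T.a (T.l 816) (T.l 880)))) (T.c (T.b (T.a (T.l 880) (T.l 880)) (T.a (T.l 880) (T.l 880))) (T.b (T.b (T.l 880) (T.l 880)) (T.b (T.l 880) (T.l 880))))))), by decide +kernel⟩

def A012E_001_13_14_1 :
    ∃ t, chk3 (onCell 0 67108864 0 1073741824 134217728 67108864 (corT false 3 c0N cA012E gN0q0 gN0q1 gN1q2 gN2q2 true true)) t 13 14 1 = true :=
  ⟨(T.c (T.b (T.a (T.c (T.b (T.b (T.l 884) (T.l 884)) (T.c (T.l 880) (T.l 880))) (T.b (T.b (T.l 880) (T.l 880)) (T.b (T.l 880) (T.l 880)))) (T.c (T.b (T.b (T.l 884) (T.l 884)) (T.b (T.l 884) (T.l 884))) (T.b (T.l 884) (T.b (T.l 880) (T.l 880))))) (T.a (T.c (T.b (T.c (T.l 884) (T.l 884)) (T.c (T.b (T.l 880) (T.l 880)) (T.b (T.l 880) (T.l 880)))) (T.b (T.b (T.l 884) (T.l 884)) (T.c (T.l 884) (T.l 880)))) (T.c (T.b (T.c (T.l 884)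 (T.l 884)) (T.c (T.b (T.l 880) (T.l 880)) (T.l 884))) (T.b (T.b (T.l 884) (T.l 884)) (T.c (T.l 884) (T.l 880)))))) (T.b (T.a (T.c (T.b (T.l 884) (T.b (T.l 816) (T.l 880))) (T.b (T.l 880) (T.l 880))) (T.c (T.b (T.l 880) (T.l 884)) (T.b (T.l 816) (T.l 880)))) (T.a (T.c (T.b (T.b (T.l 880) (T.l 880)) (T.b (T.l 880) (T.l 880))) (T.b (T.l 884) (T.b (T.l 816) (T.l 816)))) (T.c (T.b (T.l 884) (T.b (T.l 880) (T.l 880))) (T.b (T.l 884) (T.l 884)))))), by decide +kernel⟩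

def A012E_001_7_14_1 :
    ∃ t, chk3 (onCell 0 67108864 0 1073741824 134217728 67108864 (corT false 3 c0N cA012E gN0q0 gN0q1 gN1q2 gN2q2 true true)) t 7 14 1 = true :=
  ⟨(T.a (T.c (T.b (T.c (T.a (T.b (T.b (T.l 884) (T.l 884)) (T.b (T.l 884) (T.l 884))) (T.b (T.l 884) (T.b (T.l 884) (T.l 884)))) (T.a (T.b (T.l 884) (T.l 884)) (T.b (T.l 884) (T.l 884)))) (T.c (T.a (T.b (T.c (T.l 884) (T.l 884)) (T.c (T.l 884) (T.l 884))) (T.b (T.c (T.l 884) (T.l 884)) (T.c (T.l 884) (T.l 884)))) (T.a (T.b (T.b (T.l 884) (T.l 884)) (T.b (T.l 884) (T.l 884))) (T.b (T.b (T.l 884) (T.l 884)) (T.b (T.l 884) (T.l 884)))))) (T.b (T.a (T.c (T.b (T.l 884) (T.l 884)) (T.b (T.l 816) (T.l 816))) (T.c (T.b (T.l 884) (T.l 884)) (T.b (T.l 816) (T.l 816)))) (T.a (T.c (T.b (T.l 884) (T.b (T.l 880) (T.l 884))) (T.b (T.l 884) (T.l 884))) (T.c (T.b (T.l 884) (T.l 884)) (T.b (T.l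 884) (T.l 884)))))) (T.c (T.b (T.c (T.a (T.b (T.l 884) (T.b (T.l 884) (T.l 884))) (T.b (T.l 884) (T.b (T.l 884) (T.l 884)))) (T.a (T.b (T.l 884) (T.l 884)) (T.b (T.l 884) (T.l 884)))) (T.c (T.a (T.b (T.c (T.l 884) (T.l 884)) (T.c (T.l 884) (T.l 884))) (T.b (T.c (T.l 884) (T.l 884)) (T.c (T.l 884) (T.l 884)))) (T.a (T.b (T.b (T.l 884) (T.l 884)) (T.b (T.l 884) (T.l 884))) (T.b (T.b (T.l 884) (T.l 884)) (T.b (T.l 884) (T.l 884)))))) (T.b (T.a (T.c (T.b (T.l 884) (T.l 884)) (T.b (T.l 816) (T.l 816))) (T.c (T.b (T.l 884) (T.l 884)) (T.b (T.l 816) (T.l 816)))) (T.a (T.c (T.b (T.l 884) (T.l 884)) (T.b (T.l 884) (T.l 884))) (T.c (T.b (T.l 884) (T.l 884)) (T.b (T.l 884) (T.l 884))))))), by decide +kernel⟩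

def A012E_001_2_60_1 :
    ∃ t, chk3 (onCell 0 67108864 0 1073741824 134217728 67108864 (corT false 3 c0N cA012E gN0q0 gN0q1 gN1q2 gN2q2 true true)) t 2 60 1 = true :=
  ⟨(T.c (T.c (T.a (T.l 816) (T.c (T.l 816) (T.l 816))) (T.a (T.l 816) (T.a (T.l 816) (T.l 816)))) (T.c (T.a (T.l 816) (T.l 816)) (T.a (T.l 816) (T.l 816)))), by decide +kernel⟩

def A012E_001_3_240_1 :
    ∃ t, chk3 (onCell 0 67108864 0 1073741824 134217728 67108864 (corT false 3 c0N cA012E gN0q0 gN0q1 gN1q2 gN2q2 true true)) t 3 240 1 = true :=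
  ⟨(T.a (T.a (T.c (T.c (T.a (T.a (T.l 880) (T.c (T.l 816) (T.l 816))) (T.c (T.l 880) (T.l 880))) (T.a (T.c (T.l 880) (T.l 880)) (T.c (T.l 816) (T.l 816)))) (T.a (T.c (T.c (T.l 880) (T.l 880)) (T.c (T.l 816) (T.l 816))) (T.c (T.l 880) (T.l 880)))) (T.c (T.c (T.a (T.c (T.l 816) (T.l 816)) (T.c (T.l 816) (T.l 816))) (T.a (T.l 884) (T.l 884))) (T.c (T.a (T.l 880) (T.l 816)) (T.a (T.l 816) (T.l 816))))) (T.c (T.a (T.c (T.a (T.c (T.l 880) (T.l 816)) (T.c (T.l 880) (T.l 816))) (T.a (T.l 884) (T.l 884))) (T.c (T.a (T.c (T.l 880) (T.l 816)) (T.c (T.l 880) (T.l 880))) (T.a (T.l 884) (T.l 884)))) (T.a (T.c (T.a (T.l 816) (T.l 816)) (T.a (T.l 816) (T.l 816))) (T.c (T.a (T.l 816) (T.l 880)) (T.a (T.l 816) (T.l 816)))))), by decide +kernel⟩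

def A012E_001_3_241_1 :
    ∃ t, chk3 (onCell 0 67108864 0 1073741824 134217728 67108864 (corT false 3 c0N cA012E gN0q0 gN0q1 gN1q2 gN2q2 true true)) t 3 241 1 = true :=
  ⟨(T.b (T.a (T.c (T.a (T.c (T.a (T.c (T.a (T.l 816) (T.l 816)) (T.l 880)) (T.c (T.l 880) (T.l 816))) (T.a (T.c (T.l 880) (T.l 880)) (T.c (T.l 816) (T.l 816)))) (T.c (T.a (T.c (T.l 816) (T.l 816)) (T.c (T.l 816) (T.l 816))) (T.a (T.l 880) (T.l 884)))) (T.a (T.a (T.c (T.c (T.l 880) (T.l 816)) (T.c (T.l 816) (T.l 816))) (T.c (T.l 880) (T.l 816))) (T.c (T.a (T.l 816) (T.l 816)) (T.a (T.l 816) (T.l 816))))) (T.c (T.a (T.c (T.a (T.c (T.l 816) (T.l 816)) (T.c (T.l 880) (T.l 816))) (T.a (T.l 884) (T.l 884))) (T.c (T.a (T.c (T.l 880) (T.l 816)) (T.c (T.l 880) (T.l 880))) (T.a (T.l 884) (T.l 884)))) (T.a (T.c (T.a (T.l 816) (T.l 816)) (T.a (T.l 816) (T.l 816))) (T.c (T.a (T.l 816) (T.l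 880)) (T.a (T.l 816) (T.l 816)))))) (T.a (T.c (T.a (T.c (T.a (T.c (T.a (T.l 816) (T.l 816)) (T.l 880)) (T.c (T.l 880) (T.l 816))) (T.a (T.c (T.l 880) (T.l 880)) (T.c (T.l 816) (T.l 816)))) (T.c (T.a (T.c (T.l 816) (T.l 816)) (T.c (T.l 816) (T.l 816))) (T.a (T.l 880) (T.l 884)))) (T.a (T.a (T.c (T.c (T.l 880) (T.l 816)) (T.c (T.l 816) (T.l 816))) (T.c (T.l 880) (T.l 816))) (T.c (T.a (T.l 816) (T.l 816)) (T.a (T.l 816) (T.l 816))))) (T.c (T.a (T.c (T.a (T.c (T.l 816) (T.l 816)) (T.c (T.l 880) (T.l 816))) (T.a (T.l 884) (T.l 884))) (T.c (T.a (T.c (T.l 880) (T.l 816)) (T.c (T.l 880) (T.l 880))) (T.a (T.l 884) (T.l 884)))) (T.a (T.c (T.a (T.l 816) (T.l 816)) (T.a (T.l 816) (T.l 816))) (T.c (T.a (T.l 816) (T.l 880)) (T.a (T.l 816) (T.l 816))))))), by decide +kernel⟩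

def A012E_001_3_484_1 :
    ∃ t, chk3 (onCell 0 67108864 0 1073741824 134217728 67108864 (corT false 3 c0N cA012E gN0q0 gN0q1 gN1q2 gN2q2 true true)) t 3 484 1 = true :=
  ⟨(T.a (T.b (T.a (T.c (T.c (T.a (T.c (T.a (T.l 816) (T.l 816)) (T.l 880)) (T.c (T.l 880) (T.l 816))) (T.a (T.c (T.l 880) (T.l 880)) (T.c (T.l 816) (T.l 816)))) (T.a (T.c (T.c (T.l 880) (T.l 816)) (T.l 880)) (T.c (T.l 880) (T.l 816)))) (T.c (T.c (T.a (T.c (T.l 816) (T.l 816)) (T.c (T.l 816) (T.l 816))) (T.a (T.l 880) (T.l 880))) (T.c (T.a (T.l 816) (T.l 816)) (T.a (T.l 816) (T.l 816))))) (T.a (T.c (T.c (T.a (T.c (T.a (T.l 816) (T.l 816)) (T.l 880)) (T.c (T.l 880) (T.l 816))) (T.a (T.c (T.l 880) (T.l 880)) (T.c (T.l 816) (T.l 816)))) (T.a (T.c (T.c (T.l 880) (T.l 816)) (T.c (T.l 816) (T.l 816))) (T.c (T.l 880) (T.l 816)))) (T.c (T.c (T.a (T.c (T.l 816) (T.l 816)) (T.c (T.l 816)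 (T.l 816))) (T.a (T.l 880) (T.l 880))) (T.c (T.a (T.l 816) (T.l 816)) (T.a (T.l 816) (T.l 816)))))) (T.c (T.a (T.c (T.a (T.c (T.l 816) (T.l 816)) (T.c (T.l 880) (T.l 816))) (T.a (T.l 884) (T.l 884))) (T.c (T.a (T.c (T.l 880) (T.l 816)) (T.c (T.l 880) (T.l 880))) (T.a (T.l 884) (T.l 884)))) (T.a (T.c (T.a (T.l 816) (T.l 816)) (T.a (T.l 816) (T.l 816))) (T.c (T.a (T.l 816) (T.l 880)) (T.a (T.l 816) (T.l 816)))))), by decide +kernel⟩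

def A012E_001_3_485_1 :
    ∃ t, chk3 (onCell 0 67108864 0 1073741824 134217728 67108864 (corT false 3 c0N cA012E gN0q0 gN0q1 gN1q2 gN2q2 true true)) t 3 485 1 = true :=
  ⟨(T.a (T.b (T.a (T.c (T.c (T.a (T.c (T.a (T.l 816) (T.l 816)) (T.l 880)) (T.c (T.l 880) (T.l 816))) (T.a (T.c (T.l 880) (T.l 880)) (T.c (T.l 816) (T.l 816)))) (T.a (T.c (T.c (T.l 880) (T.l 816)) (T.c (T.l 816) (T.l 816))) (T.c (T.l 880) (T.l 816)))) (T.c (T.c (T.a (T.c (T.l 816) (T.l 816)) (T.c (T.l 816) (T.l 816))) (T.a (T.l 880) (T.l 880))) (T.c (T.a (T.l 816) (T.l 816)) (T.a (T.l 816) (T.l 816))))) (T.a (T.c (T.c (T.a (T.c (T.a (T.l 816) (T.l 816)) (T.l 880)) (T.c (T.l 880) (T.l 816))) (T.a (T.c (T.l 880) (T.l 880)) (T.c (T.l 816) (T.l 816)))) (T.a (T.c (T.c (T.l 880) (T.l 816)) (T.c (T.l 816) (T.l 816))) (T.c (T.l 880) (T.l 816)))) (T.c (T.c (T.a (T.c (T.l 816) (T.l 816))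 (T.c (T.l 816) (T.l 816))) (T.a (T.l 880) (T.l 880))) (T.c (T.a (T.l 816) (T.l 816)) (T.a (T.l 816) (T.l 816)))))) (T.b (T.a (T.c (T.c (T.a (T.c (T.l 816) (T.l 816)) (T.c (T.l 816) (T.l 816))) (T.a (T.l 884) (T.l 884))) (T.c (T.a (T.l 816) (T.l 816)) (T.a (T.l 816) (T.l 816)))) (T.c (T.c (T.a (T.c (T.l 880) (T.l 816)) (T.c (T.l 880) (T.l 880))) (T.a (T.l 884) (T.l 884))) (T.c (T.a (T.l 816) (T.l 880)) (T.a (T.l 816) (T.l 816))))) (T.a (T.c (T.c (T.a (T.c (T.l 816) (T.l 816)) (T.c (T.l 880) (T.l 816))) (T.a (T.l 884) (T.l 884))) (T.c (T.a (T.l 816) (T.l 816)) (T.a (T.l 816) (T.l 816)))) (T.c (T.c (T.a (T.c (T.l 880) (T.l 816)) (T.c (T.l 880) (T.l 880))) (T.a (T.l 884) (T.l 884))) (T.c (T.a (T.l 816) (T.l 880)) (T.a (T.l 816) (T.l 816))))))), by decide +kernel⟩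

def A012E_001_6_486_1 :
    ∃ t, chk3 (onCell 0 67108864 0 1073741824 134217728 67108864 (corT false 3 c0N cA012E gN0q0 gN0q1 gN1q2 gN2q2 true true)) t 6 486 1 = true :=
  ⟨(T.b (T.a (T.c (T.c (T.a (T.c (T.a (T.l 816) (T.l 816)) (T.l 880)) (T.c (T.l 880) (T.l 816))) (T.a (T.c (T.l 880) (T.l 880)) (T.c (T.l 816) (T.l 816)))) (T.a (T.c (T.c (T.l 880) (T.l 816)) (T.c (T.l 816) (T.l 816))) (T.c (T.l 880) (T.l 816)))) (T.c (T.c (T.a (T.c (T.l 816) (T.l 816)) (T.c (T.l 816) (T.l 816))) (T.a (T.l 880) (T.l 884))) (T.c (T.a (T.l 816) (T.l 816)) (T.a (T.l 816) (T.l 816))))) (T.a (T.b (T.a (T.c (T.c (T.c (T.a (T.l 816) (T.l 816)) (T.l 880)) (T.c (T.l 880) (T.l 880))) (T.c (T.c (T.l 880) (T.l 816)) (T.c (T.l 816) (T.l 816)))) (T.c (T.c (T.c (T.l 880) (T.l 816)) (T.c (T.l 816) (T.l 816))) (T.c (T.l 880) (T.l 816)))) (T.a (T.c (T.c (T.c (T.a (T.l 816) (T.l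 816)) (T.l 880)) (T.c (T.l 880) (T.l 880))) (T.c (T.c (T.l 880) (T.l 816)) (T.c (T.l 816) (T.l 816)))) (T.c (T.c (T.c (T.l 880) (T.l 816)) (T.c (T.l 816) (T.l 816))) (T.c (T.l 880) (T.l 816))))) (T.b (T.c (T.c (T.a (T.c (T.l 816) (T.l 816)) (T.c (T.l 816) (T.l 816))) (T.a (T.l 880) (T.l 880))) (T.c (T.a (T.l 816) (T.l 816)) (T.a (T.l 816) (T.l 816)))) (T.a (T.c (T.c (T.c (T.l 816) (T.l 816)) (T.l 880)) (T.c (T.l 816) (T.l 816))) (T.c (T.c (T.c (T.l 816) (T.l 816)) (T.l 880)) (T.c (T.l 816) (T.l 816))))))), by decide +kernel⟩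

def A012E_001_7_486_1 :
    ∃ t, chk3 (onCell 0 67108864 0 1073741824 134217728 67108864 (corT false 3 c0N cA012E gN0q0 gN0q1 gN1q2 gN2q2 true true)) t 7 486 1 = true :=
  ⟨(T.b (T.a (T.c (T.c (T.a (T.c (T.l 816) (T.l 816)) (T.c (T.l 880) (T.l 816))) (T.a (T.l 884) (T.l 884))) (T.c (T.a (T.l 816) (T.l 816)) (T.a (T.l 816) (T.l 816)))) (T.c (T.c (T.a (T.c (T.l 880) (T.l 816)) (T.c (T.l 880) (T.l 880))) (T.a (T.l 884) (T.l 884))) (T.c (T.a (T.l 816) (T.l 880)) (T.a (T.l 816) (T.l 816))))) (T.a (T.b (T.a (T.c (T.c (T.c (T.l 816) (T.l 816)) (T.l 884)) (T.c (T.l 816) (T.l 816))) (T.c (T.c (T.c (T.l 816) (T.l 816)) (T.l 884)) (T.c (T.l 816) (T.l 816)))) (T.a (T.c (T.c (T.c (T.l 816) (T.l 816)) (T.l 884)) (T.c (T.l 816) (T.l 816))) (T.b (T.c (T.c (T.c (T.l 816) (T.l 816)) (T.l 884)) (T.c (T.l 816) (T.l 816))) (T.c (T.c (T.c (T.l 816) (T.l 816)) (T.l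 884)) (T.c (T.l 816) (T.l 816)))))) (T.b (T.a (T.c (T.c (T.c (T.l 880) (T.l 816)) (T.l 884)) (T.c (T.l 816) (T.l 816))) (T.b (T.a (T.c (T.c (T.l 884) (T.l 880)) (T.c (T.l 816) (T.l 816))) (T.c (T.c (T.l 884) (T.l 880)) (T.c (T.l 816) (T.l 816)))) (T.a (T.c (T.c (T.l 884) (T.l 880)) (T.c (T.l 816) (T.l 816))) (T.a (T.a (T.a (T.b (T.b (T.b (T.c (T.c (T.l 884) (T.l 816)) (T.c (T.l 816) (T.l 816))) (T.l 2)) (T.l 2)) (T.l 2)) (T.l 2)) (T.l 2)) (T.l 2))))) (T.a (T.b (T.a (T.c (T.c (T.l 884) (T.l 816)) (T.c (T.l 816) (T.l 816))) (T.b (T.c (T.c (T.l 884) (T.l 880)) (T.c (T.l 816) (T.l 816))) (T.l 2))) (T.a (T.a (T.a (T.a (T.b (T.b (T.b (T.c (T.c (T.l 880) (T.l 816)) (T.c (T.l 816) (T.l 816))) (T.l 2)) (T.l 2)) (T.l 2)) (T.l 2)) (T.l 2)) (T.l 2)) (T.l 2))) (T.l 2))))), by decide +kernel⟩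

def A012E_001_6_974_1 :
    ∃ t, chk3 (onCell 0 67108864 0 1073741824 134217728 67108864 (corT false 3 c0N cA012E gN0q0 gN0q1 gN1q2 gN2q2 true true)) t 6 974 1 = true :=
  ⟨(T.a (T.b (T.a (T.c (T.c (T.c (T.a (T.l 816) (T.l 816)) (T.l 880)) (T.c (T.l 880) (T.l 880))) (T.c (T.c (T.l 880) (T.l 816)) (T.c (T.l 816) (T.l 816)))) (T.c (T.c (T.c (T.l 880) (T.l 816)) (T.c (T.l 816) (T.l 816))) (T.c (T.l 880) (T.l 816)))) (T.a (T.b (T.c (T.c (T.c (T.a (T.l 816) (T.l 816)) (T.l 880)) (T.c (T.l 880) (T.l 880))) (T.c (T.c (T.l 880) (T.l 816)) (T.c (T.l 816) (T.l 816)))) (T.c (T.c (T.c (T.a (T.l 816) (T.l 816)) (T.l 880)) (T.c (T.l 880) (T.l 880))) (T.c (T.c (T.l 880) (T.l 816)) (T.c (T.l 816) (T.l 816))))) (T.b (T.c (T.c (T.c (T.l 816) (T.l 816)) (T.c (T.l 816) (T.l 816))) (T.c (T.l 880) (T.l 816))) (T.c (T.c (T.c (T.l 816) (T.l 816)) (T.c (T.l 816) (T.l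 816))) (T.c (T.l 880) (T.l 816)))))) (T.b (T.a (T.c (T.c (T.c (T.l 816) (T.l 816)) (T.l 880)) (T.c (T.l 816) (T.l 816))) (T.b (T.c (T.c (T.c (T.l 816) (T.l 816)) (T.l 880)) (T.c (T.l 816) (T.l 816))) (T.c (T.c (T.c (T.l 816) (T.l 816)) (T.l 880)) (T.c (T.l 816) (T.l 816))))) (T.a (T.b (T.c (T.c (T.c (T.l 816) (T.l 816)) (T.l 880)) (T.c (T.l 816) (T.l 816))) (T.c (T.c (T.c (T.l 816) (T.l 816)) (T.l 880)) (T.c (T.l 816) (T.l 816)))) (T.b (T.c (T.c (T.c (T.l 816) (T.l 816)) (T.l 880)) (T.c (T.l 816) (T.l 816))) (T.l 2))))), by decide +kernel⟩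

def A012E_001_6_975_1 :
    ∃ t, chk3 (onCell 0 67108864 0 1073741824 134217728 67108864 (corT false 3 c0N cA012E gN0q0 gN0q1 gN1q2 gN2q2 true true)) t 6 975 1 = true :=
  ⟨(T.a (T.b (T.a (T.b (T.c (T.c (T.c (T.a (T.l 816) (T.l 816)) (T.l 880)) (T.c (T.l 880) (T.l 880))) (T.c (T.c (T.l 880) (T.l 816)) (T.c (T.l 816) (T.l 816)))) (T.c (T.a (T.c (T.c (T.l 816) (T.l 816)) (T.l 880)) (T.c (T.c (T.l 816) (T.l 816)) (T.l 880))) (T.c (T.c (T.l 880) (T.l 816)) (T.c (T.l 816) (T.l 816))))) (T.b (T.c (T.c (T.c (T.l 816) (T.l 816)) (T.c (T.l 816) (T.l 816))) (T.c (T.l 880) (T.l 816))) (T.a (T.a (T.a (T.a (T.b (T.b (T.b (T.b (T.c (T.c (T.l 880) (T.l 816)) (T.c (T.l 816) (T.l 816))) (T.l 2)) (T.l 2)) (T.l 2)) (T.l 2)) (T.l 2)) (T.l 2)) (T.l 2)) (T.l 2)))) (T.a (T.a (T.a (T.b (T.b (T.b (T.c (T.c (T.l 880) (T.l 816)) (T.c (T.l 816) (T.l 816))) (T.l 2)) (T.l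 2)) (T.l 2)) (T.l 2)) (T.l 2)) (T.l 2))) (T.l 2)), by decide +kernel⟩

def A012E_001_7_487_1 :
    ∃ t, chk3 (onCell 0 67108864 0 1073741824 134217728 67108864 (corT false 3 c0N cA012E gN0q0 gN0q1 gN1q2 gN2q2 true true)) t 7 487 1 = true :=
  ⟨(T.a (T.b (T.b (T.a (T.b (T.c (T.c (T.c (T.l 816) (T.l 816)) (T.l 884)) (T.c (T.l 816) (T.l 816))) (T.a (T.c (T.c (T.l 880) (T.l 816)) (T.c (T.l 816) (T.l 816))) (T.l 2))) (T.a (T.b (T.b (T.c (T.c (T.l 884) (T.l 816)) (T.c (T.l 816) (T.l 816))) (T.l 2)) (T.l 2)) (T.l 2))) (T.l 2)) (T.l 2)) (T.l 2)), by decide +kernel⟩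

def A012E_001_1_61_1 :
    ∃ t, chk3 (onCell 0 67108864 0 1073741824 134217728 67108864 (corT false 3 c0N cA012E gN0q0 gN0q1 gN1q2 gN2q2 true true)) t 1 61 1 = true :=
  ⟨(T.a (T.b (T.b (T.b (T.a (T.c (T.c (T.l 816) (T.l 816)) (T.a (T.l 816) (T.l 816))) (T.b (T.a (T.c (T.c (T.l 816) (T.l 816)) (T.c (T.l 816) (T.l 816))) (T.a (T.a (T.a (T.b (T.b (T.b (T.b (T.c (T.c (T.l 816) (T.l 816)) (T.c (T.l 816) (T.l 816))) (T.l 2)) (T.l 2)) (T.l 2)) (T.l 2)) (T.l 2)) (T.l 2)) (T.l 2))) (T.l 2))) (T.l 2)) (T.l 2)) (T.l 2)) (T.l 2)), by decide +kernel⟩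

def A012E_001_1_31_1 :
    ∃ t, chk3 (onCell 0 67108864 0 1073741824 134217728 67108864 (corT false 3 c0N cA012E gN0q0 gN0q1 gN1q2 gN2q2 true true)) t 1 31 1 = true :=
  ⟨(T.l 2), by decide +kernel⟩

theorem A012E_001_6_487_1 :
    ∃ t, chk3 (onCell 0 67108864 0 1073741824 134217728 67108864 (corT false 3 c0N cA012E gN0q0 gN0q1 gN1q2 gN2q2 true true)) t 6 487 1 = true :=
  ex3_b A012E_001_6_974_1 A012E_001_6_975_1
theorem A012E_001_3_487_1 :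
    ∃ t, chk3 (onCell 0 67108864 0 1073741824 134217728 67108864 (corT false 3 c0N cA012E gN0q0 gN0q1 gN1q2 gN2q2 true true)) t 3 487 1 = true :=
  ex3_a A012E_001_6_487_1 A012E_001_7_487_1
theorem A012E_001_3_486_1 :
    ∃ t, chk3 (onCell 0 67108864 0 1073741824 134217728 67108864 (corT false 3 c0N cA012E gN0q0 gN0q1 gN1q2 gN2q2 true true)) t 3 486 1 = true :=
  ex3_a A012E_001_6_486_1 A012E_001_7_486_1
theorem A012E_001_3_243_1 :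
    ∃ t, chk3 (onCell 0 67108864 0 1073741824 134217728 67108864 (corT false 3 c0N cA012E gN0q0 gN0q1 gN1q2 gN2q2 true true)) t 3 243 1 = true :=
  ex3_b A012E_001_3_486_1 A012E_001_3_487_1
theorem A012E_001_3_242_1 :
    ∃ t, chk3 (onCell 0 67108864 0 1073741824 134217728 67108864 (corT false 3 c0N cA012E gN0q0 gN0q1 gN1q2 gN2q2 true true)) t 3 242 1 = true :=
  ex3_b A012E_001_3_484_1 A012E_001_3_485_1
theorem A012E_001_3_121_1 :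
    ∃ t, chk3 (onCell 0 67108864 0 1073741824 134217728 67108864 (corT false 3 c0N cA012E gN0q0 gN0q1 gN1q2 gN2q2 true true)) t 3 121 1 = true :=
  ex3_b A012E_001_3_242_1 A012E_001_3_243_1
theorem A012E_001_3_120_1 :
    ∃ t, chk3 (onCell 0 67108864 0 1073741824 134217728 67108864 (corT false 3 c0N cA012E gN0q0 gN0q1 gN1q2 gN2q2 true true)) t 3 120 1 = true :=
  ex3_b A012E_001_3_240_1 A012E_001_3_241_1
theorem A012E_001_3_60_1 :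
    ∃ t, chk3 (onCell 0 67108864 0 1073741824 134217728 67108864 (corT false 3 c0N cA012E gN0q0 gN0q1 gN1q2 gN2q2 true true)) t 3 60 1 = true :=
  ex3_b A012E_001_3_120_1 A012E_001_3_121_1
theorem A012E_001_1_60_1 :
    ∃ t, chk3 (onCell 0 67108864 0 1073741824 134217728 67108864 (corT false 3 c0N cA012E gN0q0 gN0q1 gN1q2 gN2q2 true true)) t 1 60 1 = true :=
  ex3_a A012E_001_2_60_1 A012E_001_3_60_1
theorem A012E_001_1_30_1 :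
    ∃ t, chk3 (onCell 0 67108864 0 1073741824 134217728 67108864 (corT false 3 c0N cA012E gN0q0 gN0q1 gN1q2 gN2q2 true true)) t 1 30 1 = true :=
  ex3_b A012E_001_1_60_1 A012E_001_1_61_1
theorem A012E_001_1_15_1 :
    ∃ t, chk3 (onCell 0 67108864 0 1073741824 134217728 67108864 (corT false 3 c0N cA012E gN0q0 gN0q1 gN1q2 gN2q2 true true)) t 1 15 1 = true :=
  ex3_b A012E_001_1_30_1 A012E_001_1_31_1
theorem A012E_001_6_14_1 :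
    ∃ t, chk3 (onCell 0 67108864 0 1073741824 134217728 67108864 (corT false 3 c0N cA012E gN0q0 gN0q1 gN1q2 gN2q2 true true)) t 6 14 1 = true :=
  ex3_a A012E_001_12_14_1 A012E_001_13_14_1
theorem A012E_001_3_14_1 :
    ∃ t, chk3 (onCell 0 67108864 0 1073741824 134217728 67108864 (corT false 3 c0N cA012E gN0q0 gN0q1 gN1q2 gN2q2 true true)) t 3 14 1 = true :=
  ex3_a A012E_001_6_14_1 A012E_001_7_14_1
theorem A012E_001_1_14_1 :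
    ∃ t, chk3 (onCell 0 67108864 0 1073741824 134217728 67108864 (corT false 3 c0N cA012E gN0q0 gN0q1 gN1q2 gN2q2 true true)) t 1 14 1 = true :=
  ex3_a A012E_001_2_14_1 A012E_001_3_14_1
theorem A012E_001_1_7_1 :
    ∃ t, chk3 (onCell 0 67108864 0 1073741824 134217728 67108864 (corT false 3 c0N cA012E gN0q0 gN0q1 gN1q2 gN2q2 true true)) t 1 7 1 = true :=
  ex3_b A012E_001_1_14_1 A012E_001_1_15_1
theorem A012E_001_1_3_1 :
    ∃ t, chk3 (onCell 0 67108864 0 1073741824 134217728 67108864 (corT false 3 c0N cA012E gN0q0 gN0q1 gN1q2 gN2q2 true true)) t 1 3 1 = true :=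
  ex3_b A012E_001_1_6_1 A012E_001_1_7_1
theorem A012E_001 :
    ∃ t, chk3 (onCell 0 67108864 0 1073741824 134217728 67108864 (corT false 3 c0N cA012E gN0q0 gN0q1 gN1q2 gN2q2 true true)) t 1 1 1 = true :=
  ex3_b A012E_001_1_2_1 A012E_001_1_3_1

def A012E_002_1_2_1 :
    ∃ t, chk3 (onCell 0 67108864 0 1073741824 134217728 67108864 (corT false 3 c0N cA012E gN0q0 gN0q1 gN2q2 gN3q2 true false)) t 1 2 1 = true :=
  ⟨(T.l 1), by decide +kernel⟩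

def A012E_002_1_6_1 :
    ∃ t, chk3 (onCell 0 67108864 0 1073741824 134217728 67108864 (corT false 3 c0N cA012E gN0q0 gN0q1 gN2q2 gN3q2 true false)) t 1 6 1 = true :=
  ⟨(T.l 1), by decide +kernel⟩

def A012E_002_1_14_1 :
    ∃ t, chk3 (onCell 0 67108864 0 1073741824 134217728 67108864 (corT false 3 c0N cA012E gN0q0 gN0q1 gN2q2 gN3q2 true false)) t 1 14 1 = true :=
  ⟨(T.l 1), by decide +kernel⟩

def A012E_002_1_120_1 :
    ∃ t, chk3 (onCell 0 67108864 0 1073741824 134217728 67108864 (corT false 3 c0N cA012E gN0q0 gN0q1 gN2q2 gN3q2 true false)) t 1 120 1 = true :=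
  ⟨(T.l 1), by decide +kernel⟩

def A012E_002_1_242_1 :
    ∃ t, chk3 (onCell 0 67108864 0 1073741824 134217728 67108864 (corT false 3 c0N cA012E gN0q0 gN0q1 gN2q2 gN3q2 true false)) t 1 242 1 = true :=
  ⟨(T.l 1), by decide +kernel⟩

def A012E_002_2_243_1 :
    ∃ t, chk3 (onCell 0 67108864 0 1073741824 134217728 67108864 (corT false 3 c0N cA012E gN0q0 gN0q1 gN2q2 gN3q2 true false)) t 2 243 1 = true :=
  ⟨(T.a (T.l 1) (T.a (T.l 1) (T.b (T.l 1) (T.b (T.l 1) (T.b (T.l 1) (T.a (T.b (T.l 1) (T.c (T.c (T.l 816) (T.l 816)) (T.c (T.l 816) (T.l 816)))) (T.c (T.c (T.l 880) (T.l 816)) (T.c (T.l 816) (T.l 816))))))))), by decide +kernel⟩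

def A012E_002_3_243_1 :
    ∃ t, chk3 (onCell 0 67108864 0 1073741824 134217728 67108864 (corT false 3 c0N cA012E gN0q0 gN0q1 gN2q2 gN3q2 true false)) t 3 243 1 = true :=
  ⟨(T.b (T.a (T.l 1) (T.b (T.l 1) (T.a (T.a (T.l 1) (T.b (T.l 1) (T.b (T.l 1) (T.c (T.c (T.l 884) (T.l 816)) (T.c (T.l 816) (T.l 816)))))) (T.c (T.c (T.a (T.l 884) (T.l 884)) (T.l 884)) (T.c (T.l 880) (T.l 816)))))) (T.a (T.b (T.a (T.a (T.l 1) (T.a (T.l 1) (T.a (T.l 1) (T.a (T.l 1) (T.b (T.l 1) (T.a (T.l 1) (T.b (T.l 1) (T.b (T.l 1) (T.b (T.l 1) (T.b (T.l 1) (T.c (T.c (T.l 880) (T.l 816)) (T.c (T.l 816) (T.l 816))))))))))))) (T.b (T.a (T.l 1) (T.a (T.l 1) (T.b (T.l 1) (T.b (T.l 1) (T.c (T.c (T.l 880) (T.l 816)) (T.c (T.l 816) (T.l 816))))))) (T.a (T.b (T.a (T.l 1) (T.a (T.l 1) (T.b (T.l 1) (T.b (T.l 1) (T.c (T.c (T.l 880) (T.l 816)) (T.c (T.l 816) (T.l 816))))))) (T.c (T.c (T.l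 880) (T.l 816)) (T.c (T.l 816) (T.l 816)))) (T.c (T.c (T.l 880) (T.l 816)) (T.c (T.l 816) (T.l 816)))))) (T.a (T.b (T.a (T.b (T.l 1) (T.c (T.c (T.c (T.l 816) (T.l 816)) (T.l 816)) (T.c (T.l 816) (T.l 816)))) (T.b (T.c (T.c (T.l 880) (T.l 816)) (T.c (T.l 816) (T.l 816))) (T.c (T.c (T.l 880) (T.l 816)) (T.c (T.l 816) (T.l 816))))) (T.a (T.c (T.c (T.c (T.l 816) (T.l 816)) (T.l 816)) (T.c (T.l 816) (T.l 816))) (T.c (T.c (T.l 880) (T.l 816)) (T.c (T.l 816) (T.l 816))))) (T.c (T.c (T.a (T.l 880) (T.l 880)) (T.l 880)) (T.c (T.l 816) (T.l 816))))) (T.c (T.c (T.a (T.a (T.l 884) (T.l 884)) (T.c (T.l 880) (T.l 880))) (T.a (T.l 884) (T.l 884))) (T.c (T.a (T.l 816) (T.l 880)) (T.a (T.l 816) (T.l 816)))))), by decide +kernel⟩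

def A012E_002_1_61_1 :
    ∃ t, chk3 (onCell 0 67108864 0 1073741824 134217728 67108864 (corT false 3 c0N cA012E gN0q0 gN0q1 gN2q2 gN3q2 true false)) t 1 61 1 = true :=
  ⟨(T.a (T.c (T.c (T.a (T.l 816) (T.c (T.l 816) (T.l 816))) (T.a (T.l 816) (T.l 880))) (T.c (T.a (T.l 816) (T.l 816)) (T.l 880))) (T.a (T.c (T.c (T.a (T.c (T.b (T.l 880) (T.l 880)) (T.b (T.l 880) (T.l 880))) (T.c (T.l 880) (T.l 880))) (T.a (T.c (T.l 880) (T.l 880)) (T.b (T.l 884) (T.l 884)))) (T.a (T.c (T.a (T.l 880) (T.l 816)) (T.b (T.l 880) (T.l 880))) (T.c (T.l 884) (T.l 816)))) (T.c (T.c (T.a (T.c (T.l 884) (T.l 880)) (T.c (T.b (T.l 884) (T.l 884)) (T.l 884))) (T.a (T.b (T.l 884) (T.l 884)) (T.c (T.l 884) (T.l 880)))) (T.c (T.a (T.l 884) (T.b (T.l 884) (T.l 884))) (T.a (T.l 816) (T.l 884)))))), by decide +kernel⟩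

def A012E_002_1_31_1 :
    ∃ t, chk3 (onCell 0 67108864 0 1073741824 134217728 67108864 (corT false 3 c0N cA012E gN0q0 gN0q1 gN2q2 gN3q2 true false)) t 1 31 1 = true :=
  ⟨(T.a (T.a (T.c (T.c (T.l 816) (T.l 816)) (T.c (T.l 816) (T.l 816))) (T.c (T.a (T.c (T.l 880) (T.l 816)) (T.c (T.a (T.l 880) (T.c (T.l 880) (T.l 880))) (T.a (T.l 816) (T.c (T.l 816) (T.l 816))))) (T.a (T.c (T.l 816) (T.l 816)) (T.c (T.a (T.l 816) (T.b (T.l 816) (T.l 816))) (T.a (T.l 816) (T.b (T.l 816) (T.l 816))))))) (T.a (T.c (T.c (T.a (T.c (T.a (T.l 880) (T.l 816)) (T.b (T.l 880) (T.l 816))) (T.c (T.b (T.l 880) (T.l 880)) (T.b (T.l 880) (T.l 880)))) (T.a (T.a (T.c (T.l 816) (T.l 816)) (T.b (T.l 880) (T.l 880))) (T.c (T.b (T.l 816) (T.l 816)) (T.b (T.l 816) (T.l 816))))) (T.a (T.c (T.a (T.b (T.l 816) (T.l 816)) (T.l 880)) (T.a (T.l 880) (T.l 816))) (T.c (T.c (T.l 884) (T.l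 880)) (T.b (T.l 816) (T.l 880))))) (T.c (T.c (T.a (T.c (T.a (T.l 880) (T.l 884)) (T.b (T.l 880) (T.l 880))) (T.c (T.a (T.b (T.l 880) (T.l 880)) (T.b (T.l 884) (T.b (T.l 880) (T.l 884)))) (T.b (T.b (T.l 880) (T.l 884)) (T.a (T.l 880) (T.l 884))))) (T.a (T.c (T.b (T.l 880) (T.l 880)) (T.b (T.l 816) (T.l 880))) (T.c (T.b (T.b (T.l 880) (T.l 880)) (T.a (T.l 816) (T.l 880))) (T.a (T.l 880) (T.b (T.l 880) (T.l 880)))))) (T.a (T.c (T.b (T.b (T.l 880) (T.l 880)) (T.c (T.l 816) (T.l 816))) (T.b (T.l 880) (T.b (T.l 880) (T.l 880)))) (T.c (T.b (T.c (T.l 880) (T.l 880)) (T.c (T.a (T.l 816) (T.l 880)) (T.b (T.l 880) (T.l 880)))) (T.b (T.a (T.l 816) (T.l 880)) (T.a (T.l 880) (T.c (T.l 816) (T.l 816))))))))), by decide +kernel⟩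

theorem A012E_002_1_243_1 :
    ∃ t, chk3 (onCell 0 67108864 0 1073741824 134217728 67108864 (corT false 3 c0N cA012E gN0q0 gN0q1 gN2q2 gN3q2 true false)) t 1 243 1 = true :=
  ex3_a A012E_002_2_243_1 A012E_002_3_243_1
theorem A012E_002_1_121_1 :
    ∃ t, chk3 (onCell 0 67108864 0 1073741824 134217728 67108864 (corT false 3 c0N cA012E gN0q0 gN0q1 gN2q2 gN3q2 true false)) t 1 121 1 = true :=
  ex3_b A012E_002_1_242_1 A012E_002_1_243_1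
theorem A012E_002_1_60_1 :
    ∃ t, chk3 (onCell 0 67108864 0 1073741824 134217728 67108864 (corT false 3 c0N cA012E gN0q0 gN0q1 gN2q2 gN3q2 true false)) t 1 60 1 = true :=
  ex3_b A012E_002_1_120_1 A012E_002_1_121_1
theorem A012E_002_1_30_1 :
    ∃ t, chk3 (onCell 0 67108864 0 1073741824 134217728 67108864 (corT false 3 c0N cA012E gN0q0 gN0q1 gN2q2 gN3q2 true false)) t 1 30 1 = true :=
  ex3_b A012E_002_1_60_1 A012E_002_1_61_1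
theorem A012E_002_1_15_1 :
    ∃ t, chk3 (onCell 0 67108864 0 1073741824 134217728 67108864 (corT false 3 c0N cA012E gN0q0 gN0q1 gN2q2 gN3q2 true false)) t 1 15 1 = true :=
  ex3_b A012E_002_1_30_1 A012E_002_1_31_1
theorem A012E_002_1_7_1 :
    ∃ t, chk3 (onCell 0 67108864 0 1073741824 134217728 67108864 (corT false 3 c0N cA012E gN0q0 gN0q1 gN2q2 gN3q2 true false)) t 1 7 1 = true :=
  ex3_b A012E_002_1_14_1 A012E_002_1_15_1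
theorem A012E_002_1_3_1 :
    ∃ t, chk3 (onCell 0 67108864 0 1073741824 134217728 67108864 (corT false 3 c0N cA012E gN0q0 gN0q1 gN2q2 gN3q2 true false)) t 1 3 1 = true :=
  ex3_b A012E_002_1_6_1 A012E_002_1_7_1
theorem A012E_002 :
    ∃ t, chk3 (onCell 0 67108864 0 1073741824 134217728 67108864 (corT false 3 c0N cA012E gN0q0 gN0q1 gN2q2 gN3q2 true false)) t 1 1 1 = true :=
  ex3_b A012E_002_1_2_1 A012E_002_1_3_1

def A012L_004 :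
    ∃ t, chk3 (onCell 0 67108864 0 1073741824 134217728 67108864 (corT false 3 c0N cA012L gN0q0 gN0q1 gN4q2 gN5q2 false true)) t 1 1 1 = true :=
  ⟨(T.l 2), by decide +kernel⟩

def A012R_030 :
    ∃ t, chk3 (onCell 0 67108864 0 1073741824 134217728 67108864 (corT false 3 c0N cA012R gN0q0 gN3q1 gN0q2 gN1q2 true true)) t 1 1 1 = true :=
  ⟨(T.b (T.l 2) (T.l 2)), by decide +kernel⟩

def A012R_031 :
    ∃ t, chk3 (onCell 0 67108864 0 1073741824 134217728 67108864 (corT false 3 c0N cA012R gN0q0 gN3q1 gN1q2 gN2q2 true true)) t 1 1 1 = true :=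
  ⟨(T.l 2), by decide +kernel⟩

def A012R_032 :
    ∃ t, chk3 (onCell 0 67108864 0 1073741824 134217728 67108864 (corT false 3 c0N cA012R gN0q0 gN3q1 gN2q2 gN3q2 true false)) t 1 1 1 = true :=
  ⟨(T.b (T.a (T.c (T.b (T.b (T.c (T.b (T.l 204) (T.l 204)) (T.l 204)) (T.l 204)) (T.l 0)) (T.b (T.c (T.b (T.l 204) (T.l 204)) (T.l 204)) (T.l 0))) (T.a (T.c (T.b (T.c (T.l 204) (T.l 204)) (T.l 0)) (T.b (T.b (T.l 204) (T.l 204)) (T.l 0))) (T.b (T.c (T.b (T.c (T.b (T.a (T.l 204) (T.l 204)) (T.l 204)) (T.a (T.l 460) (T.l 476))) (T.c (T.l 256) (T.l 0))) (T.b (T.b (T.a (T.b (T.l 204) (T.l 204)) (T.b (T.l 204) (T.l 204))) (T.b (T.l 204) (T.l 204))) (T.b (T.l 204) (T.l 0)))) (T.c (T.b (T.l 0) (T.b (T.l 816) (T.l 816))) (T.b (T.l 0) (T.l 816)))))) (T.b (T.a (T.c (T.b (T.l 816) (T.l 816)) (T.l 816)) (T.a (T.c (T.b (T.l 816) (T.c (T.l 816) (T.l 816))) (T.b (T.l 816)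 (T.b (T.l 816) (T.l 816)))) (T.c (T.b (T.b (T.l 880) (T.l 880)) (T.c (T.l 816) (T.l 816))) (T.b (T.l 816) (T.l 880))))) (T.a (T.a (T.c (T.c (T.l 816) (T.l 816)) (T.l 816)) (T.c (T.b (T.l 816) (T.b (T.l 816) (T.a (T.b (T.l 816) (T.l 816)) (T.c (T.l 816) (T.l 816))))) (T.a (T.l 816) (T.b (T.l 816) (T.l 816))))) (T.a (T.c (T.b (T.c (T.l 880) (T.l 816)) (T.c (T.b (T.l 816) (T.l 816)) (T.l 880))) (T.b (T.b (T.l 816) (T.l 816)) (T.a (T.l 816) (T.l 816)))) (T.c (T.c (T.b (T.l 816) (T.l 880)) (T.b (T.l 816) (T.l 816))) (T.b (T.b (T.l 816) (T.l 816)) (T.a (T.l 816) (T.l 816)))))))), by decide +kernel⟩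

def A012R_040 :
    ∃ t, chk3 (onCell 0 67108864 0 1073741824 134217728 67108864 (corT false 3 c0N cA012R gN0q0 gN4q1 gN0q2 gN1q2 true true)) t 1 1 1 = true :=
  ⟨(T.l 2), by decide +kernel⟩

def A012R_041 :
    ∃ t, chk3 (onCell 0 67108864 0 1073741824 134217728 67108864 (corT false 3 c0N cA012R gN0q0 gN4q1 gN1q2 gN2q2 true true)) t 1 1 1 = true :=
  ⟨(T.l 2), by decide +kernel⟩

def A012R_042 :
    ∃ t, chk3 (onCell 0 67108864 0 1073741824 134217728 67108864 (corT false 3 c0N cA012R gN0q0 gN4q1 gN2q2 gN3q2 true false)) t 1 1 1 = true :=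
  ⟨(T.b (T.a (T.c (T.b (T.b (T.l 0) (T.l 0)) (T.l 816)) (T.b (T.l 0) (T.l 816))) (T.a (T.c (T.c (T.l 0) (T.l 0)) (T.l 16)) (T.b (T.c (T.b (T.b (T.l 0) (T.l 0)) (T.l 68)) (T.b (T.l 0) (T.l 0))) (T.c (T.b (T.l 816) (T.b (T.l 816) (T.l 880))) (T.b (T.l 816) (T.l 816)))))) (T.b (T.a (T.c (T.b (T.l 816) (T.l 816)) (T.l 816)) (T.a (T.c (T.b (T.l 816) (T.c (T.l 816) (T.l 816))) (T.b (T.l 816) (T.b (T.l 816) (T.l 816)))) (T.c (T.b (T.b (T.l 880) (T.l 880)) (T.c (T.l 816) (T.l 816))) (T.b (T.l 880) (T.l 880))))) (T.a (T.a (T.c (T.c (T.l 816) (T.l 816)) (T.l 816)) (T.c (T.b (T.l 880) (T.b (T.l 816) (T.a (T.b (T.l 816) (T.l 816)) (T.c (T.l 816) (T.l 816))))) (T.a (T.l 816) (T.b (T.l 816) (T.l 816))))) (T.a (T.c (T.b (T.c (T.l 880) (T.l 816)) (T.c (T.b (T.l 816) (T.l 816)) (T.l 880))) (T.b (T.b (T.l 816) (T.l 880)) (T.a (T.l 816) (T.l 816)))) (T.c (T.c (T.b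 (T.l 816) (T.l 880)) (T.b (T.l 816) (T.l 816))) (T.b (T.b (T.l 816) (T.l 816)) (T.a (T.l 816) (T.l 816)))))))), by decide +kernel⟩

def A012R_050 :
    ∃ t, chk3 (onCell 0 67108864 0 1073741824 134217728 67108864 (corT false 3 c0N cA012R gN0q0 gN5q1 gN0q2 gN1q2 true true)) t 1 1 1 = true :=
  ⟨(T.l 2), by decide +kernel⟩

def A012R_051 :
    ∃ t, chk3 (onCell 0 67108864 0 1073741824 134217728 67108864 (corT false 3 c0N cA012R gN0q0 gN5q1 gN1q2 gN2q2 true true)) t 1 1 1 = true :=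
  ⟨(T.l 2), by decide +kernel⟩

def A012R_052 :
    ∃ t, chk3 (onCell 0 67108864 0 1073741824 134217728 67108864 (corT false 3 c0N cA012R gN0q0 gN5q1 gN2q2 gN3q2 true false)) t 1 1 1 = true :=
  ⟨(T.b (T.a (T.c (T.b (T.b (T.l 816) (T.l 816)) (T.l 880)) (T.b (T.l 0) (T.l 816))) (T.b (T.c (T.c (T.l 816) (T.l 816)) (T.b (T.l 816) (T.l 816))) (T.b (T.c (T.b (T.l 880) (T.l 880)) (T.l 816)) (T.c (T.a (T.l 816) (T.b (T.l 816) (T.l 880))) (T.a (T.l 816) (T.l 816)))))) (T.b (T.a (T.c (T.b (T.l 816) (T.l 880)) (T.l 816)) (T.a (T.c (T.b (T.l 816) (T.c (T.l 816) (T.l 816))) (T.b (T.l 816) (T.b (T.l 816) (T.l 816)))) (T.c (T.b (T.a (T.l 880) (T.l 880)) (T.c (T.l 816) (T.l 816))) (T.b (T.l 880) (T.l 880))))) (T.a (T.a (T.c (T.c (T.l 816) (T.l 816)) (T.l 816)) (T.c (T.b (T.l 880) (T.b (T.l 880) (T.a (T.b (T.l 816) (T.l 816)) (T.c (T.l 816) (T.l 816))))) (T.a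 (T.l 816) (T.b (T.l 816) (T.l 816))))) (T.a (T.c (T.b (T.c (T.l 880) (T.l 816)) (T.c (T.b (T.l 816) (T.l 816)) (T.l 880))) (T.b (T.b (T.l 816) (T.l 880)) (T.a (T.l 816) (T.l 816)))) (T.c (T.c (T.b (T.l 816) (T.l 880)) (T.b (T.l 816) (T.l 816))) (T.b (T.b (T.l 816) (T.l 816)) (T.a (T.l 816) (T.l 816)))))))), by decide +kernel⟩

def A012R_130 :
    ∃ t, chk3 (onCell 0 67108864 0 1073741824 134217728 67108864 (corT false 3 c0N cA012R gN1q0 gN3q1 gN0q2 gN1q2 true true)) t 1 1 1 = true :=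
  ⟨(T.b (T.b (T.l 1) (T.a (T.l 0) (T.b (T.l 1) (T.l 0)))) (T.b (T.a (T.l 816) (T.a (T.l 0) (T.b (T.l 816) (T.l 0)))) (T.b (T.a (T.l 816) (T.a (T.b (T.l 816) (T.l 0)) (T.l 0))) (T.a (T.a (T.l 816) (T.l 0)) (T.b (T.l 2) (T.l 2)))))), by decide +kernel⟩

def A012R_131 :
    ∃ t, chk3 (onCell 0 67108864 0 1073741824 134217728 67108864 (corT false 3 c0N cA012R gN1q0 gN3q1 gN1q2 gN2q2 true true)) t 1 1 1 = true :=
  ⟨(T.b (T.l 1) (T.b (T.a (T.l 1) (T.l 1)) (T.a (T.a (T.l 816) (T.b (T.l 816) (T.l 0))) (T.b (T.l 0) (T.l 64))))), by decide +kernel⟩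

def A012R_132 :
    ∃ t, chk3 (onCell 0 67108864 0 1073741824 134217728 67108864 (corT false 3 c0N cA012R gN1q0 gN3q1 gN2q2 gN3q2 true false)) t 1 1 1 = true :=
  ⟨(T.l 1), by decide +kernel⟩

def A012R_140 :
    ∃ t, chk3 (onCell 0 67108864 0 1073741824 134217728 67108864 (corT false 3 c0N cA012R gN1q0 gN4q1 gN0q2 gN1q2 true true)) t 1 1 1 = true :=
  ⟨(T.b (T.b (T.l 1) (T.b (T.l 816) (T.a (T.l 816) (T.l 0)))) (T.b (T.a (T.l 816) (T.a (T.l 0) (T.b (T.l 816) (T.l 0)))) (T.a (T.b (T.l 816) (T.a (T.l 816) (T.l 0))) (T.b (T.a (T.b (T.l 816) (T.l 0)) (T.l 2)) (T.l 2))))), by decide +kernel⟩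

def A012R_141 :
    ∃ t, chk3 (onCell 0 67108864 0 1073741824 134217728 67108864 (corT false 3 c0N cA012R gN1q0 gN4q1 gN1q2 gN2q2 true true)) t 1 1 1 = true :=
  ⟨(T.b (T.l 1) (T.b (T.a (T.l 1) (T.b (T.l 1) (T.l 0))) (T.a (T.a (T.l 816) (T.b (T.l 816) (T.l 0))) (T.b (T.l 0) (T.l 0))))), by decide +kernel⟩

def A012R_142 :
    ∃ t, chk3 (onCell 0 67108864 0 1073741824 134217728 67108864 (corT false 3 c0N cA012R gN1q0 gN4q1 gN2q2 gN3q2 true false)) t 1 1 1 = true :=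
  ⟨(T.l 1), by decide +kernel⟩

def A012R_150 :
    ∃ t, chk3 (onCell 0 67108864 0 1073741824 134217728 67108864 (corT false 3 c0N cA012R gN1q0 gN5q1 gN0q2 gN1q2 true true)) t 1 1 1 = true :=
  ⟨(T.b (T.b (T.l 0) (T.a (T.l 816) (T.b (T.l 816) (T.l 0)))) (T.b (T.a (T.l 816) (T.a (T.l 0) (T.b (T.l 816) (T.l 2)))) (T.a (T.a (T.l 816) (T.b (T.l 816) (T.l 2))) (T.b (T.l 2) (T.l 2))))), by decide +kernel⟩

def A012R_151 :
    ∃ t, chk3 (onCell 0 67108864 0 1073741824 134217728 67108864 (corT false 3 c0N cA012R gN1q0 gN5q1 gN1q2 gN2q2 true true)) t 1 1 1 = true :=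
  ⟨(T.b (T.b (T.l 1) (T.l 1)) (T.b (T.a (T.l 816) (T.b (T.l 0) (T.l 0))) (T.a (T.a (T.l 816) (T.b (T.l 816) (T.l 0))) (T.b (T.l 0) (T.l 0))))), by decide +kernel⟩

def A012R_152 :
    ∃ t, chk3 (onCell 0 67108864 0 1073741824 134217728 67108864 (corT false 3 c0N cA012R gN1q0 gN5q1 gN2q2 gN3q2 true false)) t 1 1 1 = true :=
  ⟨(T.l 1), by decide +kernel⟩

def A012R_230 :
    ∃ t, chk3 (onCell 0 67108864 0 1073741824 134217728 67108864 (corT false 3 c0N cA012R gN2q0 gN3q1 gN0q2 gN1q2 true true)) t 1 1 1 = true :=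
  ⟨(T.b (T.l 1) (T.b (T.a (T.l 1) (T.a (T.l 0) (T.b (T.l 1) (T.l 0)))) (T.b (T.a (T.l 0) (T.b (T.l 0) (T.l 0))) (T.a (T.a (T.l 0) (T.l 0)) (T.a (T.l 0) (T.l 0)))))), by decide +kernel⟩

def A012R_231 :
    ∃ t, chk3 (onCell 0 67108864 0 1073741824 134217728 67108864 (corT false 3 c0N cA012R gN2q0 gN3q1 gN1q2 gN2q2 true true)) t 1 1 1 = true :=
  ⟨(T.l 1), by decide +kernel⟩

def A012R_232 :
    ∃ t, chk3 (onCell 0 67108864 0 1073741824 134217728 67108864 (corT false 3 c0N cA012R gN2q0 gN3q1 gN2q2 gN3q2 true false)) t 1 1 1 = true :=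
  ⟨(T.l 1), by decide +kernel⟩

def A012R_240 :
    ∃ t, chk3 (onCell 0 67108864 0 1073741824 134217728 67108864 (corT false 3 c0N cA012R gN2q0 gN4q1 gN0q2 gN1q2 true true)) t 1 1 1 = true :=
  ⟨(T.b (T.l 1) (T.b (T.a (T.l 1) (T.a (T.l 0) (T.l 0))) (T.b (T.a (T.l 0) (T.b (T.l 0) (T.l 0))) (T.a (T.a (T.l 0) (T.l 0)) (T.a (T.l 0) (T.l 0)))))), by decide +kernel⟩

def A012R_241 :
    ∃ t, chk3 (onCell 0 67108864 0 1073741824 134217728 67108864 (corT false 3 c0N cA012R gN2q0 gN4q1 gN1q2 gN2q2 true true)) t 1 1 1 = true :=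
  ⟨(T.l 1), by decide +kernel⟩

def A012R_242 :
    ∃ t, chk3 (onCell 0 67108864 0 1073741824 134217728 67108864 (corT false 3 c0N cA012R gN2q0 gN4q1 gN2q2 gN3q2 true false)) t 1 1 1 = true :=
  ⟨(T.l 1), by decide +kernel⟩

def A012R_250 :
    ∃ t, chk3 (onCell 0 67108864 0 1073741824 134217728 67108864 (corT false 3 c0N cA012R gN2q0 gN5q1 gN0q2 gN1q2 true true)) t 1 1 1 = true :=
  ⟨(T.b (T.l 1) (T.b (T.a (T.l 0) (T.a (T.l 0) (T.l 0))) (T.a (T.a (T.l 0) (T.l 0)) (T.a (T.b (T.l 0) (T.l 0)) (T.l 0))))), by decide +kernel⟩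

def A012R_251 :
    ∃ t, chk3 (onCell 0 67108864 0 1073741824 134217728 67108864 (corT false 3 c0N cA012R gN2q0 gN5q1 gN1q2 gN2q2 true true)) t 1 1 1 = true :=
  ⟨(T.l 1), by decide +kernel⟩

def A012R_252 :
    ∃ t, chk3 (onCell 0 67108864 0 1073741824 134217728 67108864 (corT false 3 c0N cA012R gN2q0 gN5q1 gN2q2 gN3q2 true false)) t 1 1 1 = true :=
  ⟨(T.l 1), by decide +kernel⟩

def A022E_000 :
    ∃ t, chk3 (onCell 0 67108864 0 1073741824 134217728 67108864 (corT false 3 c0N cA022E gN0q0 gN0q2 gN0q2 gN1q2 true true)) t 1 1 1 = true :=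
  ⟨(T.l 2), by decide +kernel⟩

def A022E_001 :
    ∃ t, chk3 (onCell 0 67108864 0 1073741824 134217728 67108864 (corT false 3 c0N cA022E gN0q0 gN0q2 gN1q2 gN2q2 true true)) t 1 1 1 = true :=
  ⟨(T.b (T.l 2) (T.l 2)), by decide +kernel⟩

def A022E_002_1_4_1 :
    ∃ t, chk3 (onCell 0 67108864 0 1073741824 134217728 67108864 (corT false 3 c0N cA022E gN0q0 gN0q2 gN2q2 gN3q2 true false)) t 1 4 1 = true :=
  ⟨(T.a (T.a (T.c (T.c (T.b (T.c (T.b (T.a (T.b (T.l 204) (T.l 204)) (T.l 204)) (T.l 204)) (T.b (T.a (T.b (T.l 204) (T.l 204)) (T.l 204)) (T.l 204))) (T.a (T.l 204) (T.l 204))) (T.b (T.a (T.b (T.c (T.l 204) (T.l 204)) (T.l 204)) (T.l 220)) (T.b (T.l 204) (T.l 204)))) (T.c (T.b (T.a (T.c (T.b (T.l 204) (T.l 204)) (T.l 204)) (T.l 204)) (T.l 204)) (T.b (T.b (T.c (T.b (T.l 204) (T.l 204)) (T.l 204)) (T.l 204)) (T.l 204)))) (T.a (T.c (T.c (T.b (T.l 204)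 (T.l 204)) (T.l 204)) (T.c (T.l 204) (T.l 204))) (T.c (T.b (T.c (T.a (T.l 204) (T.l 204)) (T.b (T.l 204) (T.l 204))) (T.c (T.l 204) (T.l 204))) (T.b (T.c (T.l 204) (T.l 204)) (T.l 204))))) (T.a (T.a (T.c (T.c (T.b (T.b (T.l 204) (T.l 204)) (T.l 204)) (T.b (T.l 204) (T.l 204))) (T.b (T.b (T.l 204) (T.l 204)) (T.l 204))) (T.c (T.b (T.c (T.a (T.b (T.l 204) (T.l 204)) (T.b (T.l 204) (T.l 204))) (T.b (T.l 204) (T.l 204))) (T.b (T.c (T.l 220) (T.l 204)) (T.b (T.l 204) (T.l 204)))) (T.b (T.a (T.b (T.l 204) (T.l 204)) (T.l 220)) (T.b (T.l 220) (T.l 204))))) (T.b (T.c (T.a (T.c (T.b (T.l 204) (T.l 204)) (T.b (T.l 204) (T.l 204))) (T.c (T.b (T.l 204) (T.l 204)) (T.l 220))) (T.a (T.b (T.l 204) (T.l 204)) (T.b (T.l 204) (T.l 204)))) (T.c (T.a (T.c (T.b (T.l 204) (T.l 204)) (T.b (T.l 204) (T.l 204))) (T.c (T.b (T.l 204) (T.l 204)) (T.l 0))) (T.a (T.b (T.l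 204) (T.l 204)) (T.b (T.l 204) (T.l 0))))))), by decide +kernel⟩

def A022E_002_1_5_1 :
    ∃ t, chk3 (onCell 0 67108864 0 1073741824 134217728 67108864 (corT false 3 c0N cA022E gN0q0 gN0q2 gN2q2 gN3q2 true false)) t 1 5 1 = true :=
  ⟨(T.a (T.a (T.c (T.c (T.b (T.l 204) (T.l 204)) (T.l 204)) (T.c (T.l 204) (T.l 204))) (T.c (T.c (T.a (T.l 204) (T.l 204)) (T.b (T.l 204) (T.l 0))) (T.a (T.l 204) (T.l 0)))) (T.a (T.c (T.b (T.a (T.l 220) (T.b (T.l 204) (T.l 204))) (T.b (T.l 0) (T.l 0))) (T.a (T.l 0) (T.b (T.l 204) (T.l 0)))) (T.b (T.c (T.a (T.b (T.b (T.l 220) (T.l 204)) (T.l 204)) (T.c (T.b (T.l 0) (T.l 0)) (T.l 0))) (T.a (T.b (T.l 0) (T.l 0)) (T.b (T.l 0) (T.l 0)))) (T.c (T.c (T.l 4) (T.l 0)) (T.b (T.l 0) (T.l 0)))))), by decide +kernel⟩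

def A022E_002_1_6_1 :
    ∃ t, chk3 (onCell 0 67108864 0 1073741824 134217728 67108864 (corT false 3 c0N cA022E gN0q0 gN0q2 gN2q2 gN3q2 true false)) t 1 6 1 = true :=
  ⟨(T.a (T.a (T.c (T.b (T.l 0) (T.l 0)) (T.l 0)) (T.c (T.a (T.l 0) (T.b (T.l 0) (T.l 0))) (T.a (T.l 0) (T.l 0)))) (T.a (T.c (T.c (T.b (T.l 0) (T.l 0)) (T.l 4)) (T.b (T.l 0) (T.l 0))) (T.b (T.c (T.c (T.b (T.l 0) (T.l 816)) (T.l 4)) (T.b (T.l 0) (T.l 816))) (T.c (T.c (T.l 820) (T.l 816)) (T.b (T.l 816) (T.l 816)))))), by decide +kernel⟩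

def A022E_002_1_7_1 :
    ∃ t, chk3 (onCell 0 67108864 0 1073741824 134217728 67108864 (corT false 3 c0N cA022E gN0q0 gN0q2 gN2q2 gN3q2 true false)) t 1 7 1 = true :=
  ⟨(T.a (T.a (T.c (T.b (T.b (T.l 816) (T.l 816)) (T.c (T.b (T.l 816) (T.l 816)) (T.b (T.l 816) (T.l 816)))) (T.b (T.l 816) (T.c (T.l 816) (T.l 816)))) (T.c (T.c (T.b (T.a (T.l 816) (T.l 816)) (T.a (T.b (T.l 816) (T.l 816)) (T.b (T.l 816) (T.c (T.l 880) (T.l 880))))) (T.b (T.b (T.l 816) (T.l 820)) (T.a (T.b (T.l 816) (T.l 816)) (T.b (T.l 816) (T.c (T.l 816) (T.l 816)))))) (T.a (T.b (T.l 816) (T.c (T.l 816) (T.l 816))) (T.b (T.l 816) (T.c (T.b (T.l 816) (T.a (T.l 816) (T.l 816))) (T.b (T.l 816) (T.a (T.l 816) (T.l 816)))))))) (T.a (T.c (T.b (T.c (T.b (T.l 816) (T.l 816)) (T.l 820)) (T.c (T.b (T.a (T.l 816) (T.l 816)) (T.a (T.c (T.l 816) (T.l 816)) (T.c (T.l 880) (T.l 816)))) (T.b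 (T.b (T.l 816) (T.l 816)) (T.a (T.a (T.l 880) (T.l 880)) (T.c (T.l 816) (T.l 816)))))) (T.b (T.a (T.l 816) (T.l 820)) (T.c (T.b (T.l 816) (T.b (T.l 884) (T.a (T.l 816) (T.l 880)))) (T.b (T.l 816) (T.a (T.l 816) (T.l 880)))))) (T.c (T.b (T.c (T.a (T.l 816) (T.l 820)) (T.b (T.l 816) (T.l 816))) (T.c (T.b (T.a (T.l 820) (T.b (T.l 816) (T.l 820))) (T.a (T.c (T.b (T.l 816) (T.l 880)) (T.l 880)) (T.b (T.a (T.l 820) (T.l 884)) (T.c (T.a (T.l 880) (T.l 884)) (T.a (T.l 816) (T.l 880)))))) (T.b (T.b (T.l 816) (T.l 820)) (T.a (T.c (T.l 880) (T.l 880)) (T.b (T.l 820) (T.b (T.l 884) (T.c (T.a (T.l 816) (T.l 880)) (T.l 880)))))))) (T.b (T.c (T.l 820) (T.l 816)) (T.b (T.c (T.l 884) (T.l 816)) (T.c (T.a (T.c (T.l 880) (T.l 816)) (T.b (T.l 816) (T.b (T.l 880) (T.c (T.l 880) (T.l 880))))) (T.b (T.l 884) (T.a (T.l 880) (T.c (T.l 880) (T.l 880)))))))))), by decide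 +kernel⟩

theorem A022E_002_1_3_1 :
    ∃ t, chk3 (onCell 0 67108864 0 1073741824 134217728 67108864 (corT false 3 c0N cA022E gN0q0 gN0q2 gN2q2 gN3q2 true false)) t 1 3 1 = true :=
  ex3_b A022E_002_1_6_1 A022E_002_1_7_1
theorem A022E_002_1_2_1 :
    ∃ t, chk3 (onCell 0 67108864 0 1073741824 134217728 67108864 (corT false 3 c0N cA022E gN0q0 gN0q2 gN2q2 gN3q2 true false)) t 1 2 1 = true :=
  ex3_b A022E_002_1_4_1 A022E_002_1_5_1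
theorem A022E_002 :
    ∃ t, chk3 (onCell 0 67108864 0 1073741824 134217728 67108864 (corT false 3 c0N cA022E gN0q0 gN0q2 gN2q2 gN3q2 true false)) t 1 1 1 = true :=
  ex3_b A022E_002_1_2_1 A022E_002_1_3_1

def A022E_010 :
    ∃ t, chk3 (onCell 0 67108864 0 1073741824 134217728 67108864 (corT false 3 c0N cA022E gN0q0 gN1q2 gN0q2 gN1q2 true true)) t 1 1 1 = true :=
  ⟨(T.l 2), by decide +kernel⟩

def A022E_011 :
    ∃ t, chk3 (onCell 0 67108864 0 1073741824 134217728 67108864 (corT false 3 c0N cA022E gN0q0 gN1q2 gN1q2 gN2q2 true true)) t 1 1 1 = true :=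
  ⟨(T.l 2), by decide +kernel⟩

def A022E_012_1_2_1 :
    ∃ t, chk3 (onCell 0 67108864 0 1073741824 134217728 67108864 (corT false 3 c0N cA022E gN0q0 gN1q2 gN2q2 gN3q2 true false)) t 1 2 1 = true :=
  ⟨(T.b (T.a (T.a (T.c (T.c (T.b (T.l 204) (T.l 204)) (T.b (T.l 204) (T.l 204))) (T.c (T.l 204) (T.l 204))) (T.a (T.c (T.c (T.l 204) (T.l 204)) (T.l 204)) (T.c (T.b (T.c (T.b (T.l 204) (T.l 204)) (T.b (T.l 204) (T.l 204))) (T.b (T.l 220) (T.l 204))) (T.b (T.a (T.l 204) (T.l 204)) (T.l 204))))) (T.a (T.c (T.b (T.a (T.c (T.l 220) (T.l 204)) (T.c (T.l 204) (T.l 204))) (T.a (T.c (T.l 204) (T.l 204)) (T.c (T.l 204) (T.l 204)))) (T.a (T.b (T.b (T.l 204) (T.l 204)) (T.b (T.l 204) (T.l 204))) (T.b (T.b (T.l 204) (T.l 204)) (T.l 204)))) (T.c (T.b (T.c (T.b (T.l 220) (T.l 204)) (T.b (T.l 204) (T.l 204))) (T.c (T.b (T.l 204) (T.l 204)) (T.l 16))) (T.b (T.a (T.l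 204) (T.l 204)) (T.b (T.l 220) (T.l 0)))))) (T.a (T.a (T.c (T.c (T.l 204) (T.l 204)) (T.l 204)) (T.c (T.a (T.l 204) (T.l 16)) (T.a (T.l 0) (T.l 0)))) (T.a (T.b (T.c (T.a (T.l 204) (T.b (T.l 204) (T.l 204))) (T.a (T.l 204) (T.l 0))) (T.c (T.l 0) (T.l 0))) (T.c (T.b (T.c (T.l 16) (T.l 0)) (T.a (T.l 20) (T.l 4))) (T.b (T.b (T.l 0) (T.l 0)) (T.b (T.l 0) (T.l 0))))))), by decide +kernel⟩

def A022E_012_1_6_1 :
    ∃ t, chk3 (onCell 0 67108864 0 1073741824 134217728 67108864 (corT false 3 c0N cA022E gN0q0 gN1q2 gN2q2 gN3q2 true false)) t 1 6 1 = true :=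
  ⟨(T.b (T.a (T.a (T.c (T.l 0) (T.l 0)) (T.c (T.a (T.l 0) (T.l 0)) (T.l 0))) (T.a (T.c (T.l 0) (T.l 0)) (T.c (T.b (T.b (T.l 0) (T.l 816)) (T.l 816)) (T.b (T.l 0) (T.l 816))))) (T.a (T.a (T.c (T.l 0) (T.l 816)) (T.c (T.a (T.l 816) (T.l 816)) (T.b (T.l 0) (T.l 4)))) (T.c (T.a (T.a (T.l 816) (T.l 820)) (T.c (T.l 816) (T.l 816))) (T.a (T.l 816) (T.l 816))))), by decide +kernel⟩

def A022E_012_1_7_1 :
    ∃ t, chk3 (onCell 0 67108864 0 1073741824 134217728 67108864 (corT false 3 c0N cA022E gN0q0 gN1q2 gN2q2 gN3q2 true false)) t 1 7 1 = true :=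
  ⟨(T.a (T.a (T.c (T.c (T.b (T.l 816) (T.b (T.l 816) (T.l 816))) (T.b (T.l 816) (T.l 816))) (T.b (T.l 816) (T.c (T.l 816) (T.l 816)))) (T.c (T.c (T.a (T.c (T.l 880) (T.l 880)) (T.b (T.l 816) (T.b (T.l 816) (T.c (T.l 816) (T.l 816))))) (T.a (T.b (T.l 816) (T.l 816)) (T.b (T.l 816) (T.b (T.l 816) (T.c (T.l 816) (T.l 816)))))) (T.a (T.b (T.l 816) (T.c (T.l 816) (T.l 816))) (T.b (T.l 816) (T.c (T.c (T.l 880) (T.l 880)) (T.a (T.l 816) (T.l 880))))))) (T.a (T.c (T.c (T.b (T.l 820) (T.b (T.a (T.l 816) (T.l 816)) (T.a (T.c (T.l 816) (T.l 816)) (T.c (T.l 816) (T.l 816))))) (T.b (T.l 816) (T.b (T.l 820) (T.a (T.a (T.l 816) (T.l 816)) (T.c (T.l 816) (T.l 816)))))) (T.b (T.a (T.l 816) (T.l 816)) (T.c (T.b (T.l 816) (T.b (T.l 820) (T.a (T.l 816) (T.l 816)))) (T.b (T.l 816) (T.a (T.l 816) (T.l 816)))))) (T.c (T.b (T.c (T.b (T.l 816) (T.l 820)) (T.l 820)) (T.c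 (T.b (T.a (T.l 816) (T.l 820)) (T.a (T.c (T.l 884) (T.l 880)) (T.b (T.b (T.l 820) (T.l 820)) (T.c (T.a (T.l 880) (T.l 884)) (T.a (T.l 816) (T.l 880)))))) (T.b (T.l 820) (T.a (T.c (T.l 880) (T.l 816)) (T.b (T.l 816) (T.b (T.l 884) (T.c (T.l 880) (T.l 880)))))))) (T.b (T.a (T.l 816) (T.l 820)) (T.b (T.c (T.l 816) (T.l 816)) (T.c (T.b (T.l 884) (T.a (T.b (T.l 816) (T.l 880)) (T.c (T.b (T.l 816) (T.l 880)) (T.l 880)))) (T.b (T.l 816) (T.a (T.l 880) (T.c (T.l 880) (T.l 880)))))))))), by decide +kernel⟩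

theorem A022E_012_1_3_1 :
    ∃ t, chk3 (onCell 0 67108864 0 1073741824 134217728 67108864 (corT false 3 c0N cA022E gN0q0 gN1q2 gN2q2 gN3q2 true false)) t 1 3 1 = true :=
  ex3_b A022E_012_1_6_1 A022E_012_1_7_1
theorem A022E_012 :
    ∃ t, chk3 (onCell 0 67108864 0 1073741824 134217728 67108864 (corT false 3 c0N cA022E gN0q0 gN1q2 gN2q2 gN3q2 true false)) t 1 1 1 = true :=
  ex3_b A022E_012_1_2_1 A022E_012_1_3_1

def A022E_020 :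
    ∃ t, chk3 (onCell 0 67108864 0 1073741824 134217728 67108864 (corT false 3 c0N cA022E gN0q0 gN2q2 gN0q2 gN1q2 true true)) t 1 1 1 = true :=
  ⟨(T.l 2), by decide +kernel⟩

def A022E_021 :
    ∃ t, chk3 (onCell 0 67108864 0 1073741824 134217728 67108864 (corT false 3 c0N cA022E gN0q0 gN2q2 gN1q2 gN2q2 true true)) t 1 1 1 = true :=
  ⟨(T.l 2), by decide +kernel⟩

def A022E_022_1_2_1 :
    ∃ t, chk3 (onCell 0 67108864 0 1073741824 134217728 67108864 (corT false 3 c0N cA022E gN0q0 gN2q2 gN2q2 gN3q2 true false)) t 1 2 1 = true :=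
  ⟨(T.b (T.a (T.a (T.c (T.c (T.l 204) (T.l 204)) (T.l 204)) (T.a (T.c (T.b (T.l 204) (T.l 204)) (T.l 204)) (T.c (T.c (T.b (T.l 204) (T.l 204)) (T.l 0)) (T.b (T.l 204) (T.l 204))))) (T.a (T.c (T.b (T.c (T.b (T.l 204) (T.l 204)) (T.l 220)) (T.c (T.l 0) (T.l 0))) (T.a (T.b (T.l 204) (T.l 204)) (T.b (T.l 204) (T.l 204)))) (T.c (T.c (T.b (T.l 204) (T.l 204)) (T.b (T.l 204) (T.l 204))) (T.b (T.b (T.l 204) (T.l 204)) (T.l 204))))) (T.a (T.a (T.c (T.l 0) (T.l 0)) (T.c (T.a (T.l 0) (T.l 0)) (T.l 0))) (T.a (T.c (T.b (T.a (T.l 204) (T.l 0)) (T.l 0)) (T.b (T.l 16) (T.l 0))) (T.c (T.b (T.b (T.l 204) (T.l 0)) (T.b (T.l 0) (T.l 0))) (T.b (T.l 0) (T.l 0)))))), by decide +kernel⟩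

def A022E_022_1_3_1 :
    ∃ t, chk3 (onCell 0 67108864 0 1073741824 134217728 67108864 (corT false 3 c0N cA022E gN0q0 gN2q2 gN2q2 gN3q2 true false)) t 1 3 1 = true :=
  ⟨(T.b (T.b (T.a (T.a (T.c (T.l 816) (T.l 816)) (T.c (T.a (T.l 816) (T.l 816)) (T.l 0))) (T.a (T.c (T.l 816) (T.l 816)) (T.c (T.b (T.l 0) (T.l 816)) (T.l 0)))) (T.a (T.a (T.c (T.l 816) (T.l 816)) (T.c (T.a (T.l 816) (T.l 816)) (T.b (T.l 816) (T.l 820)))) (T.c (T.a (T.a (T.l 816) (T.l 816)) (T.b (T.l 816) (T.l 820))) (T.a (T.l 816) (T.l 816))))) (T.a (T.a (T.c (T.c (T.b (T.l 816) (T.l 816)) (T.b (T.l 816) (T.l 816))) (T.c (T.l 816) (T.l 816))) (T.c (T.c (T.a (T.b (T.l 816) (T.l 880)) (T.b (T.l 816) (T.c (T.b (T.l 816) (T.l 816)) (T.l 880)))) (T.a (T.b (T.l 816) (T.l 816)) (T.b (T.l 816) (T.c (T.l 880) (T.l 816))))) (T.a (T.c (T.b (T.l 816) (T.l 816)) (T.l 816)) (T.b (T.l 816) (T.b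 (T.l 880) (T.c (T.a (T.l 816) (T.l 816)) (T.b (T.l 816) (T.l 880)))))))) (T.a (T.c (T.c (T.b (T.l 816) (T.b (T.b (T.l 816) (T.l 820)) (T.c (T.a (T.l 816) (T.l 816)) (T.a (T.l 816) (T.l 816))))) (T.b (T.l 816) (T.b (T.l 816) (T.a (T.a (T.l 816) (T.l 816)) (T.a (T.l 816) (T.l 880)))))) (T.b (T.b (T.l 816) (T.l 820)) (T.c (T.b (T.l 816) (T.a (T.l 880) (T.l 880))) (T.b (T.l 816) (T.a (T.l 816) (T.l 816)))))) (T.c (T.b (T.c (T.l 820) (T.l 816)) (T.c (T.b (T.b (T.l 816) (T.l 820)) (T.a (T.c (T.l 880) (T.l 880)) (T.b (T.l 820) (T.c (T.a (T.l 816) (T.l 884)) (T.a (T.l 816) (T.l 880)))))) (T.b (T.l 820) (T.a (T.c (T.l 816) (T.l 816)) (T.b (T.l 816) (T.b (T.l 884) (T.c (T.l 880) (T.l 880)))))))) (T.b (T.b (T.l 816) (T.l 820)) (T.b (T.c (T.l 816) (T.l 816)) (T.c (T.b (T.l 820) (T.a (T.b (T.l 816) (T.l 880)) (T.c (T.l 880) (T.l 880)))) (T.a (T.l 880) (T.b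 (T.l 816) (T.c (T.l 880) (T.l 880))))))))))), by decide +kernel⟩

theorem A022E_022 :
    ∃ t, chk3 (onCell 0 67108864 0 1073741824 134217728 67108864 (corT false 3 c0N cA022E gN0q0 gN2q2 gN2q2 gN3q2 true false)) t 1 1 1 = true :=
  ex3_b A022E_022_1_2_1 A022E_022_1_3_1

def A022E_110 :
    ∃ t, chk3 (onCell 0 67108864 0 1073741824 134217728 67108864 (corT false 3 c0N cA022E gN1q0 gN1q2 gN0q2 gN1q2 true true)) t 1 1 1 = true :=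
  ⟨(T.l 2), by decide +kernel⟩

def A022E_111 :
    ∃ t, chk3 (onCell 0 67108864 0 1073741824 134217728 67108864 (corT false 3 c0N cA022E gN1q0 gN1q2 gN1q2 gN2q2 true true)) t 1 1 1 = true :=
  ⟨(T.l 2), by decide +kernel⟩

def A022E_112 :
    ∃ t, chk3 (onCell 0 67108864 0 1073741824 134217728 67108864 (corT false 3 c0N cA022E gN1q0 gN1q2 gN2q2 gN3q2 true false)) t 1 1 1 = true :=
  ⟨(T.b (T.a (T.a (T.b (T.c (T.c (T.b (T.l 204) (T.l 204)) (T.l 204)) (T.c (T.l 204) (T.l 204))) (T.l 204)) (T.b (T.a (T.c (T.c (T.l 204) (T.l 204)) (T.l 204)) (T.b (T.c (T.b (T.c (T.l 204) (T.l 204)) (T.l 204)) (T.a (T.l 204) (T.l 204))) (T.l 204))) (T.l 0))) (T.b (T.a (T.b (T.c (T.b (T.c (T.a (T.l 204) (T.l 204)) (T.b (T.l 220) (T.l 204))) (T.l 204)) (T.b (T.a (T.l 204) (T.l 204)) (T.l 204))) (T.c (T.l 0) (T.l 0))) (T.b (T.c (T.b (T.c (T.l 220) (T.l 204)) (T.l 204))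 (T.a (T.l 204) (T.l 204))) (T.c (T.l 0) (T.l 0)))) (T.a (T.b (T.l 0) (T.l 0)) (T.b (T.l 0) (T.l 0))))) (T.b (T.a (T.a (T.l 0) (T.l 0)) (T.b (T.l 0) (T.l 0))) (T.a (T.a (T.l 816) (T.l 0)) (T.l 816)))), by decide +kernel⟩

def A022E_120 :
    ∃ t, chk3 (onCell 0 67108864 0 1073741824 134217728 67108864 (corT false 3 c0N cA022E gN1q0 gN2q2 gN0q2 gN1q2 true true)) t 1 1 1 = true :=
  ⟨(T.l 2), by decide +kernel⟩

def A022E_121 :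
    ∃ t, chk3 (onCell 0 67108864 0 1073741824 134217728 67108864 (corT false 3 c0N cA022E gN1q0 gN2q2 gN1q2 gN2q2 true true)) t 1 1 1 = true :=
  ⟨(T.l 2), by decide +kernel⟩

def A022E_122 :
    ∃ t, chk3 (onCell 0 67108864 0 1073741824 134217728 67108864 (corT false 3 c0N cA022E gN1q0 gN2q2 gN2q2 gN3q2 true false)) t 1 1 1 = true :=
  ⟨(T.b (T.b (T.a (T.a (T.c (T.c (T.l 204) (T.l 204)) (T.l 204)) (T.b (T.c (T.a (T.l 204) (T.c (T.l 204) (T.l 204))) (T.a (T.l 204) (T.l 204))) (T.l 0))) (T.a (T.c (T.b (T.c (T.b (T.l 204) (T.l 204)) (T.l 220)) (T.l 0)) (T.b (T.a (T.l 204) (T.l 204)) (T.l 0))) (T.b (T.c (T.c (T.l 204) (T.l 204)) (T.b (T.l 204) (T.l 204))) (T.l 0)))) (T.a (T.a (T.l 0) (T.l 0)) (T.a (T.l 0) (T.l 0)))) (T.b (T.a (T.a (T.l 0) (T.l 0)) (T.b (T.l 0) (T.l 0))) (T.a (T.a (T.l 816) (T.l 816)) (T.l 816)))), by decide +kernel⟩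

def A022E_220 :
    ∃ t, chk3 (onCell 0 67108864 0 1073741824 134217728 67108864 (corT false 3 c0N cA022E gN2q0 gN2q2 gN0q2 gN1q2 true true)) t 1 1 1 = true :=
  ⟨(T.l 2), by decide +kernel⟩

def A022E_221 :
    ∃ t, chk3 (onCell 0 67108864 0 1073741824 134217728 67108864 (corT false 3 c0N cA022E gN2q0 gN2q2 gN1q2 gN2q2 true true)) t 1 1 1 = true :=
  ⟨(T.l 2), by decide +kernel⟩

def A022E_222 :
    ∃ t, chk3 (onCell 0 67108864 0 1073741824 134217728 67108864 (corT false 3 c0N cA022E gN2q0 gN2q2 gN2q2 gN3q2 true false)) t 1 1 1 = true :=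
  ⟨(T.b (T.b (T.a (T.a (T.c (T.c (T.l 204) (T.l 204)) (T.l 204)) (T.b (T.c (T.a (T.l 204) (T.c (T.l 204) (T.l 204))) (T.a (T.l 204) (T.l 204))) (T.l 204))) (T.b (T.c (T.b (T.a (T.c (T.l 204) (T.l 204)) (T.a (T.l 220) (T.l 220))) (T.l 0)) (T.a (T.a (T.l 204) (T.l 204)) (T.b (T.l 204) (T.l 204)))) (T.b (T.l 0) (T.l 0)))) (T.a (T.a (T.l 204) (T.l 204)) (T.b (T.l 0) (T.l 0)))) (T.b (T.a (T.a (T.l 204) (T.l 204)) (T.l 0)) (T.a (T.a (T.l 204) (T.l 204)) (T.l 0)))), by decide +kernel⟩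

def A022L_004_2_4_1 :
    ∃ t, chk3 (onCell 0 67108864 0 1073741824 134217728 67108864 (corT false 3 c0N cA022L gN0q0 gN0q2 gN4q2 gN5q2 false true)) t 2 4 1 = true :=
  ⟨(T.a (T.c (T.c (T.b (T.c (T.a (T.a (T.c (T.l 204) (T.l 204)) (T.l 204)) (T.l 204)) (T.a (T.b (T.l 204) (T.l 204)) (T.l 204))) (T.c (T.a (T.c (T.b (T.l 204) (T.l 204)) (T.l 220)) (T.l 204)) (T.a (T.b (T.l 204) (T.l 204)) (T.l 204)))) (T.b (T.a (T.c (T.b (T.l 204) (T.l 204)) (T.l 204)) (T.b (T.l 204) (T.l 204))) (T.a (T.c (T.l 220) (T.l 204)) (T.b (T.l 204) (T.l 204))))) (T.c (T.b (T.c (T.b (T.l 204) (T.l 204)) (T.l 220)) (T.a (T.b (T.l 204) (T.l 204)) (T.l 204))) (T.b (T.b (T.l 204) (T.l 204)) (T.b (T.l 204) (T.l 204))))) (T.b (T.c (T.a (T.c (T.b (T.l 204) (T.l 204)) (T.l 204)) (T.c (T.a (T.l 204) (T.l 460)) (T.b (T.l 204) (T.l 204)))) (T.a (T.c (T.l 204) (T.l 204)) (T.c (T.b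 (T.l 204) (T.l 204)) (T.b (T.l 204) (T.l 204))))) (T.c (T.c (T.b (T.l 460) (T.l 460)) (T.b (T.l 204) (T.l 204))) (T.c (T.l 460) (T.l 204))))), by decide +kernel⟩

def A022L_004_3_4_1 :
    ∃ t, chk3 (onCell 0 67108864 0 1073741824 134217728 67108864 (corT false 3 c0N cA022L gN0q0 gN0q2 gN4q2 gN5q2 false true)) t 3 4 1 = true :=
  ⟨(T.a (T.a (T.c (T.b (T.c (T.b (T.l 204) (T.l 204)) (T.b (T.l 204) (T.l 204))) (T.c (T.b (T.l 204) (T.l 204)) (T.l 460))) (T.b (T.c (T.l 460) (T.l 204)) (T.c (T.l 460) (T.l 204)))) (T.b (T.c (T.c (T.b (T.b (T.l 204) (T.l 460)) (T.b (T.l 460) (T.l 460))) (T.b (T.b (T.l 204) (T.l 204)) (T.b (T.l 204) (T.l 204)))) (T.b (T.c (T.b (T.l 204) (T.l 204)) (T.l 460)) (T.c (T.b (T.l 204) (T.l 204)) (T.l 460)))) (T.c (T.b (T.c (T.b (T.l 460) (T.l 204)) (T.b (T.l 204) (T.l 204))) (T.c (T.l 204) (T.l 204))) (T.b (T.a (T.l 204) (T.b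 (T.l 204) (T.l 204))) (T.l 460))))) (T.b (T.c (T.a (T.c (T.b (T.l 460) (T.l 460)) (T.b (T.l 204) (T.l 460))) (T.c (T.b (T.l 204) (T.l 204)) (T.b (T.l 204) (T.l 204)))) (T.a (T.b (T.c (T.l 204) (T.l 204)) (T.c (T.l 204) (T.l 204))) (T.b (T.b (T.l 204) (T.l 204)) (T.b (T.l 204) (T.l 204))))) (T.c (T.a (T.b (T.c (T.l 460) (T.l 460)) (T.c (T.b (T.l 204) (T.l 204)) (T.l 460))) (T.b (T.c (T.l 204) (T.l 204)) (T.c (T.l 460) (T.l 204)))) (T.a (T.b (T.c (T.l 460) (T.l 204)) (T.b (T.l 460) (T.l 460))) (T.b (T.b (T.l 204) (T.l 204)) (T.b (T.l 204) (T.l 204))))))), by decide +kernel⟩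

def A022L_004_1_5_1 :
    ∃ t, chk3 (onCell 0 67108864 0 1073741824 134217728 67108864 (corT false 3 c0N cA022L gN0q0 gN0q2 gN4q2 gN5q2 false true)) t 1 5 1 = true :=
  ⟨(T.a (T.c (T.b (T.c (T.a (T.a (T.c (T.b (T.l 204) (T.l 204)) (T.b (T.l 204) (T.l 204))) (T.b (T.l 476) (T.l 204))) (T.b (T.l 460) (T.l 460))) (T.a (T.a (T.c (T.l 204) (T.l 204)) (T.b (T.l 204) (T.l 204))) (T.b (T.l 204) (T.l 204)))) (T.c (T.a (T.b (T.c (T.b (T.l 204) (T.l 204)) (T.l 204)) (T.c (T.b (T.l 204) (T.l 204)) (T.l 204))) (T.b (T.l 460) (T.l 204))) (T.a (T.b (T.c (T.l 204) (T.l 204)) (T.b (T.l 204) (T.l 204))) (T.b (T.l 204) (T.l 204))))) (T.b (T.c (T.a (T.a (T.b (T.l 204) (T.l 204)) (T.l 204)) (T.l 460)) (T.a (T.b (T.l 204) (T.l 204)) (T.l 204))) (T.a (T.c (T.a (T.b (T.l 204) (T.l 204)) (T.l 204)) (T.b (T.l 204) (T.l 204))) (T.c (T.b (T.l 204) (T.l 204)) (T.l 460)))))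 (T.a (T.b (T.c (T.a (T.c (T.l 204) (T.l 204)) (T.c (T.l 460) (T.l 460))) (T.a (T.b (T.l 460) (T.l 204)) (T.b (T.l 460) (T.l 460)))) (T.c (T.c (T.b (T.l 204) (T.l 204)) (T.l 460)) (T.b (T.l 460) (T.l 460)))) (T.b (T.c (T.a (T.b (T.c (T.b (T.l 204) (T.l 204)) (T.l 460)) (T.b (T.l 460) (T.l 460))) (T.b (T.c (T.l 460) (T.l 460)) (T.c (T.l 460) (T.l 460)))) (T.a (T.b (T.b (T.l 460) (T.l 204)) (T.l 460)) (T.b (T.b (T.l 460) (T.l 460)) (T.b (T.l 460) (T.l 460))))) (T.c (T.b (T.c (T.l 460) (T.l 460)) (T.c (T.l 460) (T.l 460))) (T.b (T.b (T.l 460) (T.l 460)) (T.b (T.l 460) (T.l 460))))))), by decide +kernel⟩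

def A022L_004_1_3_1 :
    ∃ t, chk3 (onCell 0 67108864 0 1073741824 134217728 67108864 (corT false 3 c0N cA022L gN0q0 gN0q2 gN4q2 gN5q2 false true)) t 1 3 1 = true :=
  ⟨(T.b (T.b (T.a (T.c (T.b (T.c (T.a (T.c (T.l 204) (T.l 204)) (T.l 204)) (T.a (T.b (T.l 204) (T.l 204)) (T.l 204))) (T.c (T.a (T.b (T.l 204) (T.l 204)) (T.l 204)) (T.a (T.b (T.l 204) (T.l 204)) (T.l 204)))) (T.b (T.a (T.c (T.l 204) (T.l 204)) (T.b (T.l 460) (T.l 204))) (T.a (T.c (T.l 204) (T.l 204)) (T.b (T.l 204) (T.l 204))))) (T.b (T.a (T.c (T.c (T.l 204) (T.l 204)) (T.b (T.l 204) (T.l 204))) (T.c (T.c (T.b (T.l 204) (T.l 204)) (T.l 460)) (T.b (T.l 460) (T.l 204)))) (T.c (T.c (T.a (T.l 204) (T.l 204)) (T.a (T.l 204) (T.l 204))) (T.a (T.b (T.l 204) (T.l 204)) (T.b (T.l 204) (T.l 204)))))) (T.b (T.b (T.c (T.a (T.a (T.c (T.l 204) (T.l 204)) (T.a (T.l 204) (T.l 204))) (T.a (T.l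 204) (T.l 0))) (T.a (T.a (T.l 204) (T.l 204)) (T.a (T.l 204) (T.l 204)))) (T.b (T.a (T.a (T.b (T.c (T.l 0) (T.l 0)) (T.b (T.c (T.l 0) (T.l 0)) (T.a (T.l 2) (T.b (T.b (T.l 0) (T.l 2)) (T.l 2))))) (T.b (T.c (T.l 0) (T.l 0)) (T.b (T.l 0) (T.b (T.c (T.l 0) (T.l 0)) (T.a (T.l 2) (T.b (T.c (T.l 816) (T.l 816)) (T.l 2))))))) (T.c (T.a (T.a (T.b (T.l 0) (T.c (T.a (T.l 0) (T.l 0)) (T.l 0))) (T.l 0)) (T.l 0)) (T.a (T.a (T.c (T.l 0) (T.l 0)) (T.l 0)) (T.l 0)))) (T.a (T.l 2) (T.b (T.b (T.b (T.a (T.a (T.l 2) (T.a (T.l 2) (T.b (T.l 816) (T.l 2)))) (T.a (T.c (T.b (T.l 816) (T.a (T.l 2) (T.l 816))) (T.l 816)) (T.l 816))) (T.l 2)) (T.l 2)) (T.l 2))))) (T.l 2))) (T.l 2)), by decide +kernel⟩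

theorem A022L_004_1_4_1 :
    ∃ t, chk3 (onCell 0 67108864 0 1073741824 134217728 67108864 (corT false 3 c0N cA022L gN0q0 gN0q2 gN4q2 gN5q2 false true)) t 1 4 1 = true :=
  ex3_a A022L_004_2_4_1 A022L_004_3_4_1
theorem A022L_004_1_2_1 :
    ∃ t, chk3 (onCell 0 67108864 0 1073741824 134217728 67108864 (corT false 3 c0N cA022L gN0q0 gN0q2 gN4q2 gN5q2 false true)) t 1 2 1 = true :=
  ex3_b A022L_004_1_4_1 A022L_004_1_5_1
theorem A022L_004 :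
    ∃ t, chk3 (onCell 0 67108864 0 1073741824 134217728 67108864 (corT false 3 c0N cA022L gN0q0 gN0q2 gN4q2 gN5q2 false true)) t 1 1 1 = true :=
  ex3_b A022L_004_1_2_1 A022L_004_1_3_1

def A022L_014 :
    ∃ t, chk3 (onCell 0 67108864 0 1073741824 134217728 67108864 (corT false 3 c0N cA022L gN0q0 gN1q2 gN4q2 gN5q2 false true)) t 1 1 1 = true :=
  ⟨(T.b (T.b (T.a (T.a (T.c (T.b (T.l 204) (T.l 204)) (T.l 204)) (T.a (T.c (T.b (T.l 204) (T.l 204)) (T.l 204)) (T.c (T.b (T.b (T.l 204) (T.l 204)) (T.l 204)) (T.b (T.l 204) (T.l 204))))) (T.a (T.c (T.b (T.c (T.b (T.l 204) (T.l 204)) (T.l 460)) (T.a (T.b (T.l 204) (T.l 204)) (T.b (T.l 204) (T.l 204)))) (T.b (T.b (T.l 204) (T.l 204)) (T.b (T.l 204) (T.l 204)))) (T.c (T.b (T.b (T.l 460) (T.l 204)) (T.b (T.l 204) (T.l 204))) (T.b (T.l 460) (T.b (T.l 204) (T.l 204)))))) (T.b (T.a (T.c (T.b (T.l 204) (T.l 204))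 (T.l 204)) (T.a (T.c (T.a (T.l 204) (T.b (T.l 204) (T.l 204))) (T.b (T.l 0) (T.l 256))) (T.c (T.b (T.l 204) (T.l 204)) (T.b (T.l 204) (T.l 204))))) (T.l 2))) (T.l 2)), by decide +kernel⟩

def A022L_024 :
    ∃ t, chk3 (onCell 0 67108864 0 1073741824 134217728 67108864 (corT false 3 c0N cA022L gN0q0 gN2q2 gN4q2 gN5q2 false true)) t 1 1 1 = true :=
  ⟨(T.l 2), by decide +kernel⟩

def A022L_114 :
    ∃ t, chk3 (onCell 0 67108864 0 1073741824 134217728 67108864 (corT false 3 c0N cA022L gN1q0 gN1q2 gN4q2 gN5q2 false true)) t 1 1 1 = true :=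
  ⟨(T.b (T.b (T.b (T.a (T.a (T.c (T.l 204) (T.l 204)) (T.b (T.c (T.a (T.l 204) (T.l 204)) (T.a (T.l 204) (T.l 204))) (T.l 460))) (T.c (T.a (T.c (T.l 256) (T.l 0)) (T.b (T.l 204) (T.l 204))) (T.a (T.b (T.l 204) (T.l 204)) (T.l 204)))) (T.a (T.l 0) (T.a (T.b (T.l 0) (T.l 0)) (T.l 0)))) (T.l 2)) (T.l 2)), by decide +kernel⟩

def A022L_124 :
    ∃ t, chk3 (onCell 0 67108864 0 1073741824 134217728 67108864 (corT false 3 c0N cA022L gN1q0 gN2q2 gN4q2 gN5q2 false true)) t 1 1 1 = true :=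
  ⟨(T.l 2), by decide +kernel⟩

def A022L_224 :
    ∃ t, chk3 (onCell 0 67108864 0 1073741824 134217728 67108864 (corT false 3 c0N cA022L gN2q0 gN2q2 gN4q2 gN5q2 false true)) t 1 1 1 = true :=
  ⟨(T.l 2), by decide +kernel⟩

def A022R_050 :
    ∃ t, chk3 (onCell 0 67108864 0 1073741824 134217728 67108864 (corT false 3 c0N cA022R gN0q0 gN5q2 gN0q2 gN1q2 true true)) t 1 1 1 = true :=
  ⟨(T.l 2), by decide +kernel⟩

end Pool.Agent.Strip051.G.I1_8_3_16.Tab.CN
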