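import Pool.Agent.Strip051.G.I1_8_3_16.Gn
import Pool.Agent.Strip051.PB.Corns

/-! # Certificates of the aligned corners (generated) -/

set_option linter.all false

namespace Pool.Agent.Strip051.G.I1_8_3_16.Tab.CN

open Pool.Agent.Strip051.PB

def A022R_051 :
    ∃ t, chk3 (onCell 0 67108864 0 1073741824 134217728 67108864 (corT false 3 c0N cA022R gN0q0 gN5q2 gN1q2 gN2q2 true true)) t 1 1 1 = true :=
  ⟨(T.b (T.a (T.a (T.c (T.b (T.l 204) (T.l 0)) (T.l 0)) (T.a (T.c (T.l 0) (T.l 0)) (T.c (T.b (T.l 0) (T.l 0)) (T.l 0)))) (T.a (T.c (T.c (T.b (T.l 0) (T.l 0)) (T.l 272)) (T.b (T.l 0) (T.l 0))) (T.c (T.b (T.l 256) (T.l 64)) (T.b (T.l 0) (T.l 0))))) (T.b (T.b (T.b (T.a (T.a (T.c (T.l 816) (T.l 816)) (T.a (T.c (T.l 816) (T.l 816)) (T.c (T.l 816) (T.l 816)))) (T.a (T.c (T.a (T.l 816) (T.l 816)) (T.l 0)) (T.c (T.l 816) (T.l 816)))) (T.a (T.a (T.c (T.l 816)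 (T.l 816)) (T.a (T.c (T.l 816) (T.l 816)) (T.c (T.l 816) (T.l 816)))) (T.b (T.a (T.c (T.a (T.l 816) (T.l 816)) (T.l 816)) (T.c (T.l 816) (T.l 816))) (T.a (T.c (T.a (T.l 816) (T.l 816)) (T.l 816)) (T.c (T.l 816) (T.l 816)))))) (T.b (T.a (T.a (T.c (T.l 816) (T.l 816)) (T.b (T.b (T.a (T.c (T.l 816) (T.l 816)) (T.c (T.l 816) (T.l 816))) (T.a (T.c (T.l 816) (T.l 816)) (T.c (T.l 816) (T.l 816)))) (T.b (T.a (T.c (T.l 816) (T.l 816)) (T.c (T.l 816) (T.l 816))) (T.a (T.c (T.l 816) (T.l 816)) (T.l 2))))) (T.b (T.a (T.c (T.a (T.l 816) (T.l 816)) (T.l 816)) (T.c (T.l 880) (T.l 816))) (T.l 2))) (T.a (T.a (T.c (T.l 816) (T.l 816)) (T.l 2)) (T.l 2)))) (T.l 2))), by decide +kernel⟩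

def A022R_052 :
    ∃ t, chk3 (onCell 0 67108864 0 1073741824 134217728 67108864 (corT false 3 c0N cA022R gN0q0 gN5q2 gN2q2 gN3q2 true false)) t 1 1 1 = true :=
  ⟨(T.b (T.l 1) (T.b (T.b (T.b (T.l 1) (T.a (T.l 1) (T.c (T.a (T.l 1) (T.l 816)) (T.l 816)))) (T.a (T.b (T.b (T.a (T.l 1) (T.c (T.l 816) (T.l 816))) (T.a (T.c (T.l 816) (T.l 816)) (T.c (T.l 816) (T.l 816)))) (T.b (T.a (T.c (T.l 816) (T.l 816)) (T.c (T.l 880) (T.l 816))) (T.a (T.c (T.l 816) (T.l 816)) (T.c (T.a (T.l 816) (T.l 816)) (T.l 816))))) (T.c (T.a (T.l 816) (T.l 816)) (T.b (T.l 816) (T.l 880))))) (T.a (T.a (T.c (T.c (T.l 816) (T.l 816)) (T.l 816)) (T.c (T.c (T.l 880) (T.l 816)) (T.a (T.l 816) (T.l 816)))) (T.c (T.a (T.c (T.l 816) (T.l 816)) (T.c (T.b (T.l 816) (T.l 816)) (T.l 880))) (T.a (T.b (T.l 816) (T.l 880)) (T.c (T.l 816) (T.l 816))))))), by decide +kernel⟩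

def A022R_150 :
    ∃ t, chk3 (onCell 0 67108864 0 1073741824 134217728 67108864 (corT false 3 c0N cA022R gN1q0 gN5q2 gN0q2 gN1q2 true true)) t 1 1 1 = true :=
  ⟨(T.b (T.l 2) (T.a (T.a (T.l 816) (T.l 2)) (T.l 2))), by decide +kernel⟩

def A022R_151 :
    ∃ t, chk3 (onCell 0 67108864 0 1073741824 134217728 67108864 (corT false 3 c0N cA022R gN1q0 gN5q2 gN1q2 gN2q2 true true)) t 1 1 1 = true :=
  ⟨(T.a (T.a (T.b (T.c (T.b (T.l 0) (T.l 0)) (T.l 0)) (T.l 816)) (T.b (T.b (T.c (T.a (T.l 0) (T.l 0)) (T.a (T.l 0) (T.l 0))) (T.l 0)) (T.l 0))) (T.b (T.b (T.c (T.a (T.b (T.l 0) (T.l 0)) (T.l 0)) (T.a (T.l 0) (T.l 0))) (T.a (T.l 0) (T.l 0))) (T.l 0))), by decide +kernel⟩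

def A022R_152 :
    ∃ t, chk3 (onCell 0 67108864 0 1073741824 134217728 67108864 (corT false 3 c0N cA022R gN1q0 gN5q2 gN2q2 gN3q2 true false)) t 1 1 1 = true :=
  ⟨(T.l 1), by decide +kernel⟩

def A022R_250 :
    ∃ t, chk3 (onCell 0 67108864 0 1073741824 134217728 67108864 (corT false 3 c0N cA022R gN2q0 gN5q2 gN0q2 gN1q2 true true)) t 1 1 1 = true :=
  ⟨(T.b (T.b (T.l 2) (T.b (T.a (T.a (T.l 204) (T.l 0)) (T.a (T.l 0) (T.l 2))) (T.a (T.a (T.l 0) (T.l 0)) (T.a (T.l 0) (T.l 0))))) (T.a (T.a (T.l 0) (T.l 0)) (T.a (T.l 0) (T.l 0)))), by decide +kernel⟩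

def A022R_251 :
    ∃ t, chk3 (onCell 0 67108864 0 1073741824 134217728 67108864 (corT false 3 c0N cA022R gN2q0 gN5q2 gN1q2 gN2q2 true true)) t 1 1 1 = true :=
  ⟨(T.b (T.a (T.a (T.c (T.b (T.l 204) (T.l 0)) (T.l 0)) (T.b (T.b (T.c (T.a (T.l 204) (T.l 204)) (T.a (T.l 204) (T.l 204))) (T.l 0)) (T.l 0))) (T.b (T.c (T.a (T.a (T.l 204) (T.l 204)) (T.b (T.l 204) (T.l 0))) (T.a (T.l 0) (T.l 0))) (T.l 0))) (T.a (T.l 1) (T.l 0))), by decide +kernel⟩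

def A022R_252 :
    ∃ t, chk3 (onCell 0 67108864 0 1073741824 134217728 67108864 (corT false 3 c0N cA022R gN2q0 gN5q2 gN2q2 gN3q2 true false)) t 1 1 1 = true :=
  ⟨(T.l 1), by decide +kernel⟩

def A101E_000 :
    ∃ t, chk3 (onCell 0 67108864 0 1073741824 134217728 67108864 (corT false 3 c0N cA101E gN0q1 gN0q0 gN0q1 gN1q1 true false)) t 1 1 1 = true :=
  ⟨(T.l 1), by decide +kernel⟩

def A101E_010 :
    ∃ t, chk3 (onCell 0 67108864 0 1073741824 134217728 67108864 (corT false 3 c0N cA101E gN0q1 gN1q0 gN0q1 gN1q1 true false)) t 1 1 1 = true :=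
  ⟨(T.l 1), by decide +kernel⟩

def A101E_020 :
    ∃ t, chk3 (onCell 0 67108864 0 1073741824 134217728 67108864 (corT false 3 c0N cA101E gN0q1 gN2q0 gN0q1 gN1q1 true false)) t 1 1 1 = true :=
  ⟨(T.b (T.l 1) (T.l 1)), by decide +kernel⟩

def A101R_002 :
    ∃ t, chk3 (onCell 0 67108864 0 1073741824 134217728 67108864 (corT false 3 c0N cA101R gN0q1 gN0q0 gN2q1 gN3q1 false true)) t 1 1 1 = true :=
  ⟨(T.l 2), by decide +kernel⟩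

def A101R_003 :
    ∃ t, chk3 (onCell 0 67108864 0 1073741824 134217728 67108864 (corT false 3 c0N cA101R gN0q1 gN0q0 gN3q1 gN4q1 true true)) t 1 1 1 = true :=
  ⟨(T.l 2), by decide +kernel⟩

def A101R_004 :
    ∃ t, chk3 (onCell 0 67108864 0 1073741824 134217728 67108864 (corT false 3 c0N cA101R gN0q1 gN0q0 gN4q1 gN5q1 true true)) t 1 1 1 = true :=
  ⟨(T.l 2), by decide +kernel⟩

def A101R_012 :
    ∃ t, chk3 (onCell 0 67108864 0 1073741824 134217728 67108864 (corT false 3 c0N cA101R gN0q1 gN1q0 gN2q1 gN3q1 false true)) t 1 1 1 = true :=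
  ⟨(T.l 2), by decide +kernel⟩

def A101R_013 :
    ∃ t, chk3 (onCell 0 67108864 0 1073741824 134217728 67108864 (corT false 3 c0N cA101R gN0q1 gN1q0 gN3q1 gN4q1 true true)) t 1 1 1 = true :=
  ⟨(T.l 2), by decide +kernel⟩

def A101R_014 :
    ∃ t, chk3 (onCell 0 67108864 0 1073741824 134217728 67108864 (corT false 3 c0N cA101R gN0q1 gN1q0 gN4q1 gN5q1 true true)) t 1 1 1 = true :=
  ⟨(T.l 2), by decide +kernel⟩

def A101R_022 :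
    ∃ t, chk3 (onCell 0 67108864 0 1073741824 134217728 67108864 (corT false 3 c0N cA101R gN0q1 gN2q0 gN2q1 gN3q1 false true)) t 1 1 1 = true :=
  ⟨(T.l 2), by decide +kernel⟩

def A101R_023 :
    ∃ t, chk3 (onCell 0 67108864 0 1073741824 134217728 67108864 (corT false 3 c0N cA101R gN0q1 gN2q0 gN3q1 gN4q1 true true)) t 1 1 1 = true :=
  ⟨(T.l 2), by decide +kernel⟩

def A101R_024 :
    ∃ t, chk3 (onCell 0 67108864 0 1073741824 134217728 67108864 (corT false 3 c0N cA101R gN0q1 gN2q0 gN4q1 gN5q1 true true)) t 1 1 1 = true :=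
  ⟨(T.l 2), by decide +kernel⟩

def A102E_000_1_4_1 :
    ∃ t, chk3 (onCell 0 67108864 0 1073741824 134217728 67108864 (corT false 3 c0N cA102E gN0q1 gN0q0 gN0q2 gN1q2 true true)) t 1 4 1 = true :=
  ⟨(T.l 2), by decide +kernel⟩

def A102E_000_2_5_1 :
    ∃ t, chk3 (onCell 0 67108864 0 1073741824 134217728 67108864 (corT false 3 c0N cA102E gN0q1 gN0q0 gN0q2 gN1q2 true true)) t 2 5 1 = true :=
  ⟨(T.b (T.b (T.l 2) (T.c (T.a (T.c (T.b (T.l 204) (T.l 204)) (T.b (T.l 204) (T.l 204))) (T.c (T.b (T.l 460) (T.l 204)) (T.b (T.l 204) (T.l 204)))) (T.a (T.c (T.b (T.l 204) (T.l 204)) (T.b (T.l 204) (T.l 204))) (T.c (T.b (T.l 204) (T.l 204)) (T.b (T.l 204) (T.l 204)))))) (T.c (T.b (T.a (T.c (T.b (T.l 204) (T.l 204)) (T.b (T.l 204) (T.l 204))) (T.c (T.b (T.l 204) (T.l 204)) (T.b (T.l 204) (T.l 204)))) (T.a (T.b (T.a (T.l 204) (T.l 204)) (T.l 0)) (T.b (T.a (T.l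 204) (T.l 204)) (T.a (T.l 204) (T.l 204))))) (T.b (T.a (T.b (T.a (T.l 204) (T.l 204)) (T.a (T.l 204) (T.l 204))) (T.b (T.a (T.l 204) (T.l 204)) (T.l 460))) (T.a (T.b (T.l 204) (T.l 0)) (T.b (T.l 204) (T.l 0)))))), by decide +kernel⟩

def A102E_000_3_5_1 :
    ∃ t, chk3 (onCell 0 67108864 0 1073741824 134217728 67108864 (corT false 3 c0N cA102E gN0q1 gN0q0 gN0q2 gN1q2 true true)) t 3 5 1 = true :=
  ⟨(T.b (T.b (T.l 2) (T.b (T.a (T.a (T.c (T.c (T.l 204) (T.l 204)) (T.l 220)) (T.l 2)) (T.l 2)) (T.a (T.a (T.c (T.b (T.l 476) (T.l 476)) (T.l 204)) (T.c (T.a (T.b (T.l 476) (T.l 220)) (T.c (T.l 220) (T.l 204))) (T.a (T.l 204) (T.b (T.l 220) (T.l 220))))) (T.a (T.c (T.c (T.b (T.l 476) (T.l 476)) (T.b (T.l 476) (T.l 476))) (T.a (T.b (T.l 476) (T.l 220)) (T.b (T.l 476) (T.l 204)))) (T.c (T.a (T.c (T.l 476) (T.l 460)) (T.c (T.b (T.l 476) (T.l 476)) (T.b (T.l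 476) (T.l 460)))) (T.a (T.b (T.l 476) (T.l 460)) (T.a (T.l 476) (T.b (T.l 476) (T.l 460))))))))) (T.a (T.c (T.b (T.c (T.b (T.l 220) (T.l 204)) (T.b (T.l 204) (T.l 204))) (T.b (T.a (T.l 204) (T.l 204)) (T.a (T.l 204) (T.l 204)))) (T.b (T.b (T.a (T.l 204) (T.l 204)) (T.l 476)) (T.b (T.l 204) (T.l 204)))) (T.b (T.a (T.c (T.b (T.c (T.b (T.l 476) (T.l 476)) (T.b (T.l 220) (T.l 204))) (T.c (T.b (T.l 204) (T.l 204)) (T.l 476))) (T.b (T.a (T.l 476) (T.l 476)) (T.b (T.l 476) (T.l 220)))) (T.c (T.b (T.c (T.b (T.l 476) (T.l 476)) (T.b (T.l 460) (T.l 204))) (T.c (T.l 476) (T.l 476))) (T.b (T.c (T.l 476) (T.l 476)) (T.b (T.l 476) (T.l 476))))) (T.a (T.b (T.c (T.c (T.l 476) (T.l 220)) (T.b (T.l 204) (T.l 204))) (T.c (T.l 204) (T.l 204))) (T.c (T.b (T.c (T.l 476) (T.l 220)) (T.b (T.l 220) (T.l 204))) (T.b (T.b (T.l 204) (T.l 204)) (T.l 476))))))), by decide +kernel⟩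

def A102E_000_1_3_1 :
    ∃ t, chk3 (onCell 0 67108864 0 1073741824 134217728 67108864 (corT false 3 c0N cA102E gN0q1 gN0q0 gN0q2 gN1q2 true true)) t 1 3 1 = true :=
  ⟨(T.b (T.b (T.b (T.b (T.a (T.b (T.a (T.b (T.a (T.b (T.c (T.l 0) (T.l 0)) (T.l 1)) (T.a (T.c (T.c (T.c (T.a (T.b (T.l 204) (T.l 1)) (T.l 0)) (T.l 0)) (T.l 0)) (T.l 0)) (T.l 0))) (T.l 1)) (T.b (T.l 0) (T.b (T.a (T.a (T.l 1) (T.l 0)) (T.l 0)) (T.a (T.l 1) (T.a (T.l 1) (T.c (T.l 0) (T.l 0))))))) (T.l 1)) (T.a (T.b (T.c (T.a (T.l 0) (T.l 0)) (T.l 0)) (T.b (T.a (T.l 1) (T.b (T.c (T.l 0) (T.l 0)) (T.l 1))) (T.l 1))) (T.a (T.b (T.l 0) (T.b (T.c (T.c (T.l 0) (T.l 0)) (T.l 0)) (T.l 1))) (T.b (T.c (T.l 204) (T.l 204)) (T.b (T.c (T.l 204) (T.l 0)) (T.a (T.l 1) (T.a (T.l 1) (T.b (T.l 0) (T.l 1))))))))) (T.l 1)) (T.l 1)) (T.l 1)) (T.l 1)), by decide +kernel⟩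

theorem A102E_000_1_5_1 :
    ∃ t, chk3 (onCell 0 67108864 0 1073741824 134217728 67108864 (corT false 3 c0N cA102E gN0q1 gN0q0 gN0q2 gN1q2 true true)) t 1 5 1 = true :=
  ex3_a A102E_000_2_5_1 A102E_000_3_5_1
theorem A102E_000_1_2_1 :
    ∃ t, chk3 (onCell 0 67108864 0 1073741824 134217728 67108864 (corT false 3 c0N cA102E gN0q1 gN0q0 gN0q2 gN1q2 true true)) t 1 2 1 = true :=
  ex3_b A102E_000_1_4_1 A102E_000_1_5_1
theorem A102E_000 :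
    ∃ t, chk3 (onCell 0 67108864 0 1073741824 134217728 67108864 (corT false 3 c0N cA102E gN0q1 gN0q0 gN0q2 gN1q2 true true)) t 1 1 1 = true :=
  ex3_b A102E_000_1_2_1 A102E_000_1_3_1

def A102E_001_1_16_1 :
    ∃ t, chk3 (onCell 0 67108864 0 1073741824 134217728 67108864 (corT false 3 c0N cA102E gN0q1 gN0q0 gN1q2 gN2q2 true true)) t 1 16 1 = true :=
  ⟨(T.l 2), by decide +kernel⟩

def A102E_001_1_34_1 :
    ∃ t, chk3 (onCell 0 67108864 0 1073741824 134217728 67108864 (corT false 3 c0N cA102E gN0q1 gN0q0 gN1q2 gN2q2 true true)) t 1 34 1 = true :=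
  ⟨(T.a (T.b (T.l 2) (T.b (T.l 2) (T.b (T.l 2) (T.a (T.c (T.c (T.l 204) (T.l 204)) (T.a (T.l 204) (T.l 204))) (T.b (T.l 2) (T.a (T.c (T.c (T.l 204) (T.l 204)) (T.c (T.l 204) (T.l 204))) (T.a (T.a (T.a (T.b (T.l 2) (T.b (T.l 2) (T.b (T.l 2) (T.b (T.l 2) (T.c (T.c (T.l 204) (T.l 204)) (T.c (T.l 204) (T.l 204))))))) (T.l 2)) (T.l 2)) (T.l 2)))))))) (T.l 2)), by decide +kernel⟩

def A102E_001_2_35_1 :
    ∃ t, chk3 (onCell 0 67108864 0 1073741824 134217728 67108864 (corT false 3 c0N cA102E gN0q1 gN0q0 gN1q2 gN2q2 true true)) t 2 35 1 = true :=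
  ⟨(T.c (T.c (T.a (T.l 204) (T.c (T.l 204) (T.l 204))) (T.a (T.l 204) (T.l 220))) (T.c (T.a (T.l 204) (T.l 204)) (T.l 220))), by decide +kernel⟩

def A102E_001_6_560_1 :
    ∃ t, chk3 (onCell 0 67108864 0 1073741824 134217728 67108864 (corT false 3 c0N cA102E gN0q1 gN0q0 gN1q2 gN2q2 true true)) t 6 560 1 = true :=
  ⟨(T.a (T.b (T.a (T.a (T.a (T.b (T.l 2) (T.b (T.l 2) (T.b (T.l 2) (T.c (T.c (T.l 220) (T.l 204)) (T.c (T.l 204) (T.l 204)))))) (T.l 2)) (T.l 2)) (T.l 2)) (T.a (T.b (T.c (T.c (T.c (T.l 220) (T.l 220)) (T.c (T.l 204) (T.l 204))) (T.c (T.c (T.l 204) (T.l 204)) (T.l 220))) (T.c (T.c (T.c (T.l 220) (T.l 220)) (T.c (T.l 204) (T.l 204))) (T.c (T.c (T.l 204) (T.l 204)) (T.l 220)))) (T.b (T.a (T.a (T.a (T.a (T.b (T.l 2) (T.b (T.l 2) (T.b (T.l 2) (T.b (T.l 2) (T.c (T.c (T.l 220) (T.l 204)) (T.c (T.l 204) (T.l 204))))))) (T.l 2)) (T.l 2)) (T.l 2))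 (T.l 2)) (T.c (T.c (T.c (T.l 204) (T.l 204)) (T.l 220)) (T.c (T.l 204) (T.l 204)))))) (T.l 2)), by decide +kernel⟩

def A102E_001_6_561_1 :
    ∃ t, chk3 (onCell 0 67108864 0 1073741824 134217728 67108864 (corT false 3 c0N cA102E gN0q1 gN0q0 gN1q2 gN2q2 true true)) t 6 561 1 = true :=
  ⟨(T.a (T.b (T.a (T.b (T.c (T.c (T.c (T.l 220) (T.l 220)) (T.c (T.l 204) (T.l 204))) (T.c (T.c (T.l 204) (T.l 204)) (T.l 220))) (T.c (T.c (T.c (T.l 220) (T.l 220)) (T.c (T.l 204) (T.l 204))) (T.c (T.c (T.l 204) (T.l 204)) (T.l 220)))) (T.b (T.c (T.c (T.c (T.l 204) (T.l 204)) (T.l 220)) (T.c (T.l 204) (T.l 204))) (T.c (T.c (T.c (T.l 204) (T.l 204)) (T.l 220)) (T.c (T.l 204) (T.l 204))))) (T.a (T.c (T.c (T.c (T.l 220) (T.l 220)) (T.c (T.l 204) (T.l 204))) (T.c (T.c (T.l 204) (T.l 204)) (T.l 220))) (T.c (T.c (T.c (T.l 204) (T.l 204)) (T.l 220)) (T.c (T.l 204) (T.l 204)))))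 (T.b (T.a (T.b (T.c (T.c (T.c (T.l 204) (T.l 204)) (T.l 220)) (T.c (T.l 204) (T.l 204))) (T.c (T.c (T.c (T.l 204) (T.l 204)) (T.l 220)) (T.c (T.l 204) (T.l 204)))) (T.b (T.l 2) (T.c (T.c (T.l 476) (T.l 220)) (T.c (T.l 204) (T.l 204))))) (T.a (T.c (T.c (T.c (T.l 204) (T.l 204)) (T.l 220)) (T.c (T.l 204) (T.l 204))) (T.c (T.c (T.l 476) (T.l 220)) (T.c (T.l 204) (T.l 204)))))), by decide +kernel⟩

def A102E_001_7_280_1 :
    ∃ t, chk3 (onCell 0 67108864 0 1073741824 134217728 67108864 (corT false 3 c0N cA102E gN0q1 gN0q0 gN1q2 gN2q2 true true)) t 7 280 1 = true :=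
  ⟨(T.a (T.b (T.l 2) (T.b (T.l 2) (T.a (T.b (T.a (T.c (T.c (T.l 220) (T.l 204)) (T.c (T.l 204) (T.l 204))) (T.l 2)) (T.c (T.c (T.l 476) (T.l 220)) (T.c (T.l 204) (T.l 204)))) (T.a (T.b (T.l 2) (T.b (T.l 2) (T.c (T.c (T.l 476) (T.l 204)) (T.c (T.l 204) (T.l 204))))) (T.l 2))))) (T.l 2)), by decide +kernel⟩

def A102E_001_6_281_1 :
    ∃ t, chk3 (onCell 0 67108864 0 1073741824 134217728 67108864 (corT false 3 c0N cA102E gN0q1 gN0q0 gN1q2 gN2q2 true true)) t 6 281 1 = true :=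
  ⟨(T.b (T.a (T.b (T.a (T.c (T.c (T.c (T.l 220) (T.l 220)) (T.c (T.l 204) (T.l 204))) (T.c (T.c (T.l 204) (T.l 204)) (T.l 220))) (T.c (T.c (T.c (T.l 204) (T.l 204)) (T.l 220)) (T.c (T.l 204) (T.l 204)))) (T.c (T.c (T.a (T.c (T.l 220) (T.l 220)) (T.c (T.l 204) (T.l 204))) (T.a (T.c (T.l 204) (T.l 204)) (T.l 220))) (T.a (T.c (T.c (T.l 204) (T.l 204)) (T.l 220)) (T.c (T.l 204) (T.l 204))))) (T.c (T.c (T.a (T.c (T.l 204) (T.l 204)) (T.c (T.l 204) (T.l 204))) (T.a (T.l 220) (T.l 220))) (T.c (T.a (T.l 204) (T.l 204)) (T.a (T.l 204) (T.l 204))))) (T.a (T.c (T.c (T.a (T.c (T.l 220) (T.l 220)) (T.c (T.l 204) (T.l 204))) (T.a (T.c (T.l 220) (T.l 204)) (T.l 220))) (T.a (T.c (T.c (T.l 204) (T.l 204)) (T.l 220)) (T.c (T.l 204) (T.l 204)))) (T.c (T.c (T.a (T.c (T.l 204) (T.l 204)) (T.l 476)) (T.a (T.l 220) (T.l 220))) (T.c (T.a (T.l 204) (T.l 204)) (T.a (T.l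 204) (T.l 204)))))), by decide +kernel⟩

def A102E_001_7_281_1 :
    ∃ t, chk3 (onCell 0 67108864 0 1073741824 134217728 67108864 (corT false 3 c0N cA102E gN0q1 gN0q0 gN1q2 gN2q2 true true)) t 7 281 1 = true :=
  ⟨(T.b (T.a (T.c (T.c (T.a (T.l 476) (T.l 476)) (T.a (T.l 220) (T.l 220))) (T.c (T.a (T.l 204) (T.l 204)) (T.l 476))) (T.b (T.a (T.b (T.a (T.a (T.a (T.a (T.b (T.l 2) (T.b (T.l 2) (T.b (T.l 2) (T.c (T.c (T.l 220) (T.l 204)) (T.c (T.l 204) (T.l 204)))))) (T.l 2)) (T.l 2)) (T.l 2)) (T.l 2)) (T.a (T.c (T.c (T.l 476) (T.l 204)) (T.c (T.l 204) (T.l 204))) (T.b (T.l 2) (T.c (T.c (T.l 476) (T.l 204)) (T.c (T.l 204) (T.l 204)))))) (T.l 2)) (T.a (T.c (T.c (T.c (T.l 204) (T.l 204)) (T.l 220)) (T.c (T.l 204) (T.l 204))) (T.b (T.a (T.c (T.c (T.l 476) (T.l 220)) (T.c (T.l 204) (T.l 204))) (T.a (T.a (T.a (T.b (T.l 2) (T.b (T.l 2) (T.b (T.l 2) (T.c (T.c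 (T.l 476) (T.l 204)) (T.c (T.l 204) (T.l 204)))))) (T.l 2)) (T.l 2)) (T.l 2))) (T.a (T.c (T.c (T.l 476) (T.l 220)) (T.c (T.l 204) (T.l 204))) (T.c (T.c (T.l 476) (T.l 220)) (T.c (T.l 204) (T.l 204)))))))) (T.a (T.c (T.c (T.a (T.l 476) (T.l 476)) (T.a (T.l 220) (T.l 220))) (T.c (T.l 476) (T.l 476))) (T.c (T.c (T.c (T.l 476) (T.l 476)) (T.a (T.l 220) (T.l 476))) (T.c (T.l 476) (T.l 476))))), by decide +kernel⟩

def A102E_001_3_141_1 :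
    ∃ t, chk3 (onCell 0 67108864 0 1073741824 134217728 67108864 (corT false 3 c0N cA102E gN0q1 gN0q0 gN1q2 gN2q2 true true)) t 3 141 1 = true :=
  ⟨(T.b (T.a (T.b (T.a (T.c (T.c (T.a (T.c (T.l 220) (T.l 220)) (T.c (T.l 204) (T.l 204))) (T.a (T.c (T.l 204) (T.l 204)) (T.l 220))) (T.a (T.c (T.c (T.l 204) (T.l 204)) (T.l 220)) (T.c (T.l 204) (T.l 204)))) (T.c (T.c (T.a (T.c (T.l 204) (T.l 204)) (T.l 476)) (T.a (T.l 220) (T.l 220))) (T.c (T.a (T.l 204) (T.l 204)) (T.a (T.l 204) (T.l 204))))) (T.a (T.c (T.c (T.a (T.c (T.l 220) (T.l 220)) (T.c (T.l 204) (T.l 204))) (T.a (T.c (T.l 204) (T.l 204)) (T.l 220))) (T.a (T.c (T.c (T.l 204) (T.l 204)) (T.l 220)) (T.c (T.l 204) (T.l 204)))) (T.c (T.c (T.a (T.c (T.l 204) (T.l 204)) (T.l 476)) (T.a (T.l 220) (T.l 220))) (T.c (T.a (T.l 204) (T.l 204)) (T.a (T.l 204) (T.l 204)))))) (T.c (T.a (T.c (T.a (T.l 476) (T.l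 476)) (T.a (T.l 220) (T.l 220))) (T.c (T.c (T.l 476) (T.l 476)) (T.a (T.l 220) (T.l 476)))) (T.a (T.c (T.a (T.l 204) (T.l 204)) (T.l 476)) (T.c (T.a (T.l 204) (T.l 204)) (T.l 476))))) (T.a (T.c (T.a (T.c (T.a (T.c (T.l 220) (T.l 220)) (T.c (T.l 204) (T.l 204))) (T.a (T.c (T.l 220) (T.l 204)) (T.l 220))) (T.c (T.a (T.c (T.l 204) (T.l 204)) (T.l 476)) (T.a (T.l 220) (T.l 220)))) (T.a (T.a (T.c (T.c (T.l 204) (T.l 204)) (T.l 220)) (T.c (T.l 220) (T.l 204))) (T.c (T.a (T.l 204) (T.l 204)) (T.a (T.l 204) (T.l 204))))) (T.c (T.a (T.c (T.a (T.l 476) (T.l 476)) (T.a (T.l 220) (T.l 220))) (T.c (T.c (T.l 476) (T.l 476)) (T.a (T.l 220) (T.l 476)))) (T.a (T.c (T.a (T.l 204) (T.l 204)) (T.l 476)) (T.c (T.a (T.l 204) (T.l 204)) (T.l 476)))))), by decide +kernel⟩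

def A102E_001_3_71_1 :
    ∃ t, chk3 (onCell 0 67108864 0 1073741824 134217728 67108864 (corT false 3 c0N cA102E gN0q1 gN0q0 gN1q2 gN2q2 true true)) t 3 71 1 = true :=
  ⟨(T.a (T.c (T.a (T.c (T.a (T.a (T.l 220) (T.c (T.l 204) (T.l 204))) (T.c (T.l 220) (T.l 220))) (T.a (T.c (T.l 220) (T.l 220)) (T.c (T.l 204) (T.l 204)))) (T.c (T.a (T.c (T.l 204) (T.l 204)) (T.c (T.l 204) (T.l 204))) (T.a (T.l 476) (T.l 476)))) (T.a (T.a (T.c (T.c (T.l 220) (T.l 220)) (T.b (T.l 220) (T.l 220))) (T.c (T.l 220) (T.l 220))) (T.c (T.a (T.l 220) (T.l 204)) (T.a (T.l 204) (T.l 204))))) (T.c (T.a (T.c (T.a (T.c (T.l 204) (T.l 204)) (T.c (T.l 220) (T.l 204))) (T.a (T.l 476) (T.l 476))) (T.c (T.c (T.a (T.l 220) (T.l 220)) (T.a (T.l 204) (T.l 220))) (T.a (T.l 476) (T.l 476)))) (T.a (T.c (T.a (T.l 204) (T.l 204)) (T.a (T.l 204) (T.l 204))) (T.c (T.a (T.l 204) (T.l 220)) (T.a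 (T.l 204) (T.l 204)))))), by decide +kernel⟩

def A102E_001_2_9_1 :
    ∃ t, chk3 (onCell 0 67108864 0 1073741824 134217728 67108864 (corT false 3 c0N cA102E gN0q1 gN0q0 gN1q2 gN2q2 true true)) t 2 9 1 = true :=
  ⟨(T.c (T.c (T.b (T.a (T.l 204) (T.c (T.l 220) (T.l 220))) (T.a (T.l 204) (T.b (T.l 220) (T.l 204)))) (T.b (T.a (T.l 204) (T.b (T.l 220) (T.l 204))) (T.a (T.l 204) (T.l 220)))) (T.b (T.c (T.a (T.l 204) (T.l 220)) (T.a (T.l 204) (T.l 204))) (T.c (T.a (T.l 204) (T.l 204)) (T.a (T.l 204) (T.l 204))))), by decide +kernel⟩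

def A102E_001_6_9_1 :
    ∃ t, chk3 (onCell 0 67108864 0 1073741824 134217728 67108864 (corT false 3 c0N cA102E gN0q1 gN0q0 gN1q2 gN2q2 true true)) t 6 9 1 = true :=
  ⟨(T.a (T.c (T.b (T.a (T.c (T.b (T.a (T.l 220) (T.c (T.l 220) (T.l 204))) (T.l 220)) (T.b (T.a (T.l 204) (T.b (T.l 220) (T.l 220))) (T.l 204))) (T.c (T.b (T.c (T.b (T.l 220) (T.l 220)) (T.b (T.l 204) (T.l 220))) (T.c (T.b (T.l 220) (T.l 220)) (T.b (T.l 220) (T.l 220)))) (T.b (T.c (T.l 220) (T.l 220)) (T.c (T.l 220) (T.l 220))))) (T.a (T.c (T.l 220) (T.l 204)) (T.c (T.b (T.c (T.l 220) (T.l 220)) (T.b (T.l 220) (T.l 204))) (T.b (T.b (T.l 220) (T.l 220)) (T.b (T.l 220) (T.l 204)))))) (T.b (T.a (T.b (T.c (T.a (T.l 204) (T.l 220)) (T.b (T.l 220) (T.l 220))) (T.c (T.l 204) (T.l 204))) (T.c (T.b (T.b (T.l 220) (T.l 220)) (T.b (T.l 220) (T.l 220))) (T.b (T.b (T.l 220) (T.l 220)) (T.b (T.l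 220) (T.l 220))))) (T.a (T.c (T.l 204) (T.l 204)) (T.c (T.b (T.b (T.l 220) (T.l 220)) (T.l 220)) (T.b (T.l 220) (T.l 220)))))) (T.c (T.b (T.c (T.a (T.b (T.c (T.l 220) (T.l 220)) (T.c (T.l 220) (T.l 220))) (T.b (T.c (T.l 220) (T.l 220)) (T.b (T.l 476) (T.l 476)))) (T.a (T.b (T.b (T.l 476) (T.l 220)) (T.b (T.l 220) (T.l 220))) (T.b (T.b (T.l 476) (T.l 220)) (T.l 476)))) (T.c (T.a (T.b (T.b (T.l 476) (T.l 220)) (T.b (T.l 220) (T.l 220))) (T.b (T.b (T.l 476) (T.l 476)) (T.l 476))) (T.a (T.b (T.b (T.l 220) (T.l 220)) (T.l 476)) (T.b (T.l 476) (T.l 476))))) (T.b (T.a (T.c (T.b (T.b (T.l 220) (T.l 204)) (T.l 476)) (T.b (T.l 220) (T.l 220))) (T.c (T.b (T.l 476) (T.l 476)) (T.b (T.l 220) (T.l 204)))) (T.a (T.c (T.b (T.l 220) (T.l 220)) (T.b (T.l 220) (T.l 220))) (T.c (T.b (T.l 220) (T.l 204)) (T.b (T.l 204) (T.l 204))))))), by decide +kernel⟩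

def A102E_001_7_9_1 :
    ∃ t, chk3 (onCell 0 67108864 0 1073741824 134217728 67108864 (corT false 3 c0N cA102E gN0q1 gN0q0 gN1q2 gN2q2 true true)) t 7 9 1 = true :=
  ⟨(T.c (T.a (T.b (T.c (T.b (T.a (T.c (T.l 220) (T.l 220)) (T.c (T.l 476) (T.l 220))) (T.a (T.b (T.l 476) (T.l 476)) (T.b (T.l 476) (T.l 476)))) (T.a (T.b (T.b (T.l 476) (T.l 476)) (T.l 476)) (T.b (T.l 476) (T.l 476)))) (T.c (T.b (T.a (T.b (T.l 476) (T.l 476)) (T.l 476)) (T.a (T.l 476) (T.l 476))) (T.b (T.a (T.l 476) (T.l 476)) (T.b (T.l 476) (T.l 476))))) (T.b (T.c (T.b (T.a (T.c (T.l 476) (T.l 220)) (T.c (T.l 476) (T.l 476))) (T.a (T.b (T.l 476) (T.l 476)) (T.b (T.l 476) (T.l 476)))) (T.b (T.a (T.l 476) (T.b (T.l 476) (T.l 476))) (T.a (T.l 476) (T.l 476)))) (T.c (T.b (T.a (T.l 476) (T.l 476)) (T.a (T.l 476) (T.l 476))) (T.b (T.a (T.l 476) (T.l 476)) (T.b (T.l 476) (T.l 476))))))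 (T.a (T.b (T.c (T.a (T.b (T.l 476) (T.l 476)) (T.b (T.l 476) (T.l 476))) (T.a (T.b (T.l 204) (T.l 204)) (T.b (T.l 204) (T.l 204)))) (T.c (T.b (T.b (T.l 476) (T.l 476)) (T.b (T.l 476) (T.l 476))) (T.a (T.b (T.l 204) (T.l 204)) (T.l 476)))) (T.b (T.c (T.a (T.b (T.l 476) (T.l 476)) (T.b (T.l 476) (T.l 476))) (T.a (T.b (T.l 204) (T.l 204)) (T.b (T.l 220) (T.l 204)))) (T.c (T.b (T.b (T.l 476) (T.l 476)) (T.b (T.l 476) (T.l 476))) (T.a (T.l 476) (T.l 476)))))), by decide +kernel⟩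

def A102E_001_1_5_1 :
    ∃ t, chk3 (onCell 0 67108864 0 1073741824 134217728 67108864 (corT false 3 c0N cA102E gN0q1 gN0q0 gN1q2 gN2q2 true true)) t 1 5 1 = true :=
  ⟨(T.b (T.a (T.c (T.b (T.c (T.a (T.l 204) (T.l 476)) (T.a (T.l 204) (T.l 220))) (T.b (T.c (T.a (T.l 204) (T.l 204)) (T.l 204)) (T.a (T.l 1) (T.a (T.l 1) (T.l 1))))) (T.b (T.c (T.a (T.l 204) (T.l 204)) (T.a (T.l 204) (T.l 204))) (T.a (T.b (T.l 204) (T.l 1)) (T.b (T.l 204) (T.l 204))))) (T.a (T.a (T.c (T.c (T.b (T.l 220) (T.l 204)) (T.b (T.l 220) (T.l 204))) (T.b (T.b (T.l 220) (T.l 220)) (T.l 476))) (T.c (T.b (T.c (T.b (T.a (T.b (T.l 220) (T.l 220)) (T.l 476)) (T.a (T.l 220) (T.l 476))) (T.a (T.b (T.l 220) (T.l 220)) (T.b (T.l 220) (T.l 220)))) (T.a (T.c (T.l 204) (T.l 204)) (T.c (T.b (T.l 220) (T.l 204)) (T.b (T.l 204) (T.l 204))))) (T.b (T.b (T.c (T.a (T.l 220) (T.l 204)) (T.b (T.l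 476) (T.l 220))) (T.c (T.b (T.l 476) (T.l 220)) (T.b (T.l 220) (T.l 204)))) (T.a (T.l 220) (T.c (T.l 476) (T.l 220)))))) (T.b (T.c (T.a (T.c (T.b (T.b (T.l 476) (T.l 476)) (T.b (T.l 476) (T.l 476))) (T.b (T.b (T.l 476) (T.l 476)) (T.l 476))) (T.c (T.b (T.b (T.l 476) (T.l 476)) (T.b (T.l 476) (T.l 476))) (T.b (T.b (T.l 476) (T.l 476)) (T.l 476)))) (T.a (T.b (T.c (T.b (T.l 476) (T.l 460)) (T.l 476)) (T.c (T.l 476) (T.l 476))) (T.b (T.c (T.l 476) (T.l 476)) (T.c (T.l 476) (T.l 476))))) (T.c (T.a (T.c (T.b (T.l 476) (T.l 476)) (T.b (T.l 476) (T.l 476))) (T.c (T.b (T.l 476) (T.l 476)) (T.b (T.l 476) (T.l 476)))) (T.a (T.b (T.c (T.l 476) (T.l 204)) (T.b (T.l 476) (T.l 1))) (T.b (T.c (T.l 476) (T.l 460)) (T.b (T.l 476) (T.l 1)))))))) (T.l 1)), by decide +kernel⟩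

def A102E_001_1_3_1 :
    ∃ t, chk3 (onCell 0 67108864 0 1073741824 134217728 67108864 (corT false 3 c0N cA102E gN0q1 gN0q0 gN1q2 gN2q2 true true)) t 1 3 1 = true :=
  ⟨(T.l 1), by decide +kernel⟩

theorem A102E_001_3_9_1 :
    ∃ t, chk3 (onCell 0 67108864 0 1073741824 134217728 67108864 (corT false 3 c0N cA102E gN0q1 gN0q0 gN1q2 gN2q2 true true)) t 3 9 1 = true :=
  ex3_a A102E_001_6_9_1 A102E_001_7_9_1
theorem A102E_001_1_9_1 :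
    ∃ t, chk3 (onCell 0 67108864 0 1073741824 134217728 67108864 (corT false 3 c0N cA102E gN0q1 gN0q0 gN1q2 gN2q2 true true)) t 1 9 1 = true :=
  ex3_a A102E_001_2_9_1 A102E_001_3_9_1
theorem A102E_001_3_281_1 :
    ∃ t, chk3 (onCell 0 67108864 0 1073741824 134217728 67108864 (corT false 3 c0N cA102E gN0q1 gN0q0 gN1q2 gN2q2 true true)) t 3 281 1 = true :=
  ex3_a A102E_001_6_281_1 A102E_001_7_281_1
theorem A102E_001_6_280_1 :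
    ∃ t, chk3 (onCell 0 67108864 0 1073741824 134217728 67108864 (corT false 3 c0N cA102E gN0q1 gN0q0 gN1q2 gN2q2 true true)) t 6 280 1 = true :=
  ex3_b A102E_001_6_560_1 A102E_001_6_561_1
theorem A102E_001_3_280_1 :
    ∃ t, chk3 (onCell 0 67108864 0 1073741824 134217728 67108864 (corT false 3 c0N cA102E gN0q1 gN0q0 gN1q2 gN2q2 true true)) t 3 280 1 = true :=
  ex3_a A102E_001_6_280_1 A102E_001_7_280_1
theorem A102E_001_3_140_1 :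
    ∃ t, chk3 (onCell 0 67108864 0 1073741824 134217728 67108864 (corT false 3 c0N cA102E gN0q1 gN0q0 gN1q2 gN2q2 true true)) t 3 140 1 = true :=
  ex3_b A102E_001_3_280_1 A102E_001_3_281_1
theorem A102E_001_3_70_1 :
    ∃ t, chk3 (onCell 0 67108864 0 1073741824 134217728 67108864 (corT false 3 c0N cA102E gN0q1 gN0q0 gN1q2 gN2q2 true true)) t 3 70 1 = true :=
  ex3_b A102E_001_3_140_1 A102E_001_3_141_1
theorem A102E_001_3_35_1 :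
    ∃ t, chk3 (onCell 0 67108864 0 1073741824 134217728 67108864 (corT false 3 c0N cA102E gN0q1 gN0q0 gN1q2 gN2q2 true true)) t 3 35 1 = true :=
  ex3_b A102E_001_3_70_1 A102E_001_3_71_1
theorem A102E_001_1_35_1 :
    ∃ t, chk3 (onCell 0 67108864 0 1073741824 134217728 67108864 (corT false 3 c0N cA102E gN0q1 gN0q0 gN1q2 gN2q2 true true)) t 1 35 1 = true :=
  ex3_a A102E_001_2_35_1 A102E_001_3_35_1
theorem A102E_001_1_17_1 :
    ∃ t, chk3 (onCell 0 67108864 0 1073741824 134217728 67108864 (corT false 3 c0N cA102E gN0q1 gN0q0 gN1q2 gN2q2 true true)) t 1 17 1 = true :=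
  ex3_b A102E_001_1_34_1 A102E_001_1_35_1
theorem A102E_001_1_8_1 :
    ∃ t, chk3 (onCell 0 67108864 0 1073741824 134217728 67108864 (corT false 3 c0N cA102E gN0q1 gN0q0 gN1q2 gN2q2 true true)) t 1 8 1 = true :=
  ex3_b A102E_001_1_16_1 A102E_001_1_17_1
theorem A102E_001_1_4_1 :
    ∃ t, chk3 (onCell 0 67108864 0 1073741824 134217728 67108864 (corT false 3 c0N cA102E gN0q1 gN0q0 gN1q2 gN2q2 true true)) t 1 4 1 = true :=
  ex3_b A102E_001_1_8_1 A102E_001_1_9_1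
theorem A102E_001_1_2_1 :
    ∃ t, chk3 (onCell 0 67108864 0 1073741824 134217728 67108864 (corT false 3 c0N cA102E gN0q1 gN0q0 gN1q2 gN2q2 true true)) t 1 2 1 = true :=
  ex3_b A102E_001_1_4_1 A102E_001_1_5_1
theorem A102E_001 :
    ∃ t, chk3 (onCell 0 67108864 0 1073741824 134217728 67108864 (corT false 3 c0N cA102E gN0q1 gN0q0 gN1q2 gN2q2 true true)) t 1 1 1 = true :=
  ex3_b A102E_001_1_2_1 A102E_001_1_3_1

def A102E_002_1_16_1 :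
    ∃ t, chk3 (onCell 0 67108864 0 1073741824 134217728 67108864 (corT false 3 c0N cA102E gN0q1 gN0q0 gN2q2 gN3q2 true false)) t 1 16 1 = true :=
  ⟨(T.a (T.a (T.c (T.c (T.l 204) (T.l 204)) (T.c (T.l 204) (T.l 204))) (T.c (T.a (T.c (T.l 220) (T.l 204)) (T.c (T.a (T.b (T.l 204) (T.l 204)) (T.c (T.l 220) (T.l 204))) (T.a (T.l 204) (T.b (T.l 220) (T.l 220))))) (T.a (T.c (T.l 204) (T.l 204)) (T.c (T.a (T.l 204) (T.b (T.l 204) (T.l 204))) (T.a (T.l 204) (T.l 220)))))) (T.c (T.a (T.c (T.a (T.c (T.b (T.l 204) (T.l 220)) (T.b (T.l 204) (T.l 204))) (T.c (T.b (T.l 204) (T.l 204)) (T.l 476))) (T.a (T.c (T.b (T.l 204) (T.l 204)) (T.b (T.l 204) (T.l 204))) (T.c (T.l 220) (T.l 220)))) (T.c (T.a (T.c (T.b (T.l 220) (T.l 220)) (T.b (T.l 220) (T.l 204))) (T.c (T.b (T.a (T.l 220) (T.l 476)) (T.b (T.l 476) (T.l 220))) (T.b (T.a (T.l 204) (T.l 220)) (T.b (T.l 220)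 (T.l 220))))) (T.a (T.c (T.b (T.l 204) (T.l 204)) (T.b (T.l 204) (T.l 204))) (T.c (T.b (T.b (T.l 220) (T.l 220)) (T.l 220)) (T.b (T.b (T.l 220) (T.l 220)) (T.l 220)))))) (T.a (T.c (T.a (T.c (T.l 220) (T.l 220)) (T.b (T.l 220) (T.l 220))) (T.a (T.b (T.l 204) (T.l 220)) (T.b (T.l 204) (T.l 204)))) (T.c (T.a (T.c (T.l 220) (T.l 220)) (T.b (T.c (T.b (T.l 220) (T.l 220)) (T.l 220)) (T.c (T.l 220) (T.l 220)))) (T.a (T.b (T.l 220) (T.l 204)) (T.b (T.c (T.l 220) (T.l 220)) (T.b (T.l 220) (T.l 220)))))))), by decide +kernel⟩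

def A102E_002_1_34_1 :
    ∃ t, chk3 (onCell 0 67108864 0 1073741824 134217728 67108864 (corT false 3 c0N cA102E gN0q1 gN0q0 gN2q2 gN3q2 true false)) t 1 34 1 = true :=
  ⟨(T.a (T.c (T.c (T.a (T.l 204) (T.c (T.l 204) (T.l 204))) (T.a (T.l 204) (T.l 220))) (T.c (T.a (T.l 204) (T.l 204)) (T.l 220))) (T.c (T.a (T.c (T.a (T.c (T.l 220) (T.l 220)) (T.c (T.l 204) (T.l 204))) (T.a (T.a (T.l 220) (T.l 220)) (T.b (T.l 220) (T.l 220)))) (T.c (T.a (T.c (T.l 220) (T.l 204)) (T.c (T.l 476) (T.l 220))) (T.a (T.b (T.l 476) (T.l 476)) (T.c (T.l 220) (T.l 220))))) (T.a (T.c (T.a (T.b (T.l 220) (T.l 220)) (T.l 204)) (T.a (T.l 220) (T.l 204))) (T.c (T.a (T.l 476) (T.l 476)) (T.a (T.l 204) (T.l 220)))))), by decide +kernel⟩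

def A102E_002_1_35_1 :
    ∃ t, chk3 (onCell 0 67108864 0 1073741824 134217728 67108864 (corT false 3 c0N cA102E gN0q1 gN0q0 gN2q2 gN3q2 true false)) t 1 35 1 = true :=
  ⟨(T.b (T.b (T.a (T.a (T.l 1) (T.a (T.l 1) (T.b (T.b (T.b (T.a (T.b (T.c (T.c (T.l 204) (T.l 204)) (T.c (T.l 204) (T.l 204))) (T.l 1)) (T.c (T.c (T.l 220) (T.l 204)) (T.c (T.l 204) (T.l 204)))) (T.l 1)) (T.l 1)) (T.l 1)))) (T.b (T.a (T.b (T.a (T.b (T.c (T.c (T.a (T.l 220) (T.l 220)) (T.l 220)) (T.c (T.l 204) (T.l 204))) (T.a (T.b (T.c (T.c (T.l 220) (T.l 204)) (T.c (T.l 204) (T.l 204))) (T.l 1)) (T.c (T.c (T.l 220) (T.l 204)) (T.c (T.l 204) (T.l 204))))) (T.c (T.c (T.l 476) (T.l 204)) (T.c (T.l 204) (T.l 204)))) (T.a (T.a (T.l 1) (T.a (T.l 1) (T.a (T.l 1) (T.a (T.l 1) (T.b (T.a (T.l 1) (T.b (T.b (T.b (T.b (T.c (T.c (T.l 220) (T.l 204)) (T.c (T.l 204) (T.l 204))) (T.l 1)) (T.l 1))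 (T.l 1)) (T.l 1))) (T.l 1)))))) (T.b (T.a (T.b (T.c (T.c (T.l 220) (T.l 204)) (T.c (T.l 204) (T.l 204))) (T.a (T.l 1) (T.a (T.l 1) (T.b (T.b (T.c (T.c (T.l 220) (T.l 204)) (T.c (T.l 204) (T.l 204))) (T.l 1)) (T.l 1))))) (T.c (T.c (T.l 220) (T.l 204)) (T.c (T.l 204) (T.l 204)))) (T.a (T.l 1) (T.a (T.l 1) (T.b (T.b (T.c (T.c (T.l 220) (T.l 204)) (T.c (T.l 204) (T.l 204))) (T.l 1)) (T.l 1))))))) (T.c (T.c (T.a (T.l 476) (T.a (T.l 476) (T.l 476))) (T.a (T.l 220) (T.l 476))) (T.c (T.a (T.l 204) (T.l 204)) (T.l 476)))) (T.a (T.l 1) (T.b (T.a (T.a (T.l 1) (T.b (T.b (T.c (T.c (T.l 476) (T.l 204)) (T.c (T.l 204) (T.l 204))) (T.l 1)) (T.l 1))) (T.c (T.c (T.a (T.l 476) (T.l 476)) (T.l 476)) (T.c (T.l 204) (T.l 204)))) (T.l 1))))) (T.l 1)) (T.l 1)), by decide +kernel⟩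

def A102E_002_1_9_1 :
    ∃ t, chk3 (onCell 0 67108864 0 1073741824 134217728 67108864 (corT false 3 c0N cA102E gN0q1 gN0q0 gN2q2 gN3q2 true false)) t 1 9 1 = true :=
  ⟨(T.l 1), by decide +kernel⟩

def A102E_002_1_5_1 :
    ∃ t, chk3 (onCell 0 67108864 0 1073741824 134217728 67108864 (corT false 3 c0N cA102E gN0q1 gN0q0 gN2q2 gN3q2 true false)) t 1 5 1 = true :=
  ⟨(T.l 1), by decide +kernel⟩

def A102E_002_1_3_1 :
    ∃ t, chk3 (onCell 0 67108864 0 1073741824 134217728 67108864 (corT false 3 c0N cA102E gN0q1 gN0q0 gN2q2 gN3q2 true false)) t 1 3 1 = true :=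
  ⟨(T.l 1), by decide +kernel⟩

theorem A102E_002_1_17_1 :
    ∃ t, chk3 (onCell 0 67108864 0 1073741824 134217728 67108864 (corT false 3 c0N cA102E gN0q1 gN0q0 gN2q2 gN3q2 true false)) t 1 17 1 = true :=
  ex3_b A102E_002_1_34_1 A102E_002_1_35_1
theorem A102E_002_1_8_1 :
    ∃ t, chk3 (onCell 0 67108864 0 1073741824 134217728 67108864 (corT false 3 c0N cA102E gN0q1 gN0q0 gN2q2 gN3q2 true false)) t 1 8 1 = true :=
  ex3_b A102E_002_1_16_1 A102E_002_1_17_1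
theorem A102E_002_1_4_1 :
    ∃ t, chk3 (onCell 0 67108864 0 1073741824 134217728 67108864 (corT false 3 c0N cA102E gN0q1 gN0q0 gN2q2 gN3q2 true false)) t 1 4 1 = true :=
  ex3_b A102E_002_1_8_1 A102E_002_1_9_1
theorem A102E_002_1_2_1 :
    ∃ t, chk3 (onCell 0 67108864 0 1073741824 134217728 67108864 (corT false 3 c0N cA102E gN0q1 gN0q0 gN2q2 gN3q2 true false)) t 1 2 1 = true :=
  ex3_b A102E_002_1_4_1 A102E_002_1_5_1
theorem A102E_002 :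
    ∃ t, chk3 (onCell 0 67108864 0 1073741824 134217728 67108864 (corT false 3 c0N cA102E gN0q1 gN0q0 gN2q2 gN3q2 true false)) t 1 1 1 = true :=
  ex3_b A102E_002_1_2_1 A102E_002_1_3_1

def A102E_010 :
    ∃ t, chk3 (onCell 0 67108864 0 1073741824 134217728 67108864 (corT false 3 c0N cA102E gN0q1 gN1q0 gN0q2 gN1q2 true true)) t 1 1 1 = true :=
  ⟨(T.b (T.l 2) (T.b (T.b (T.l 2) (T.a (T.l 0) (T.l 0))) (T.b (T.a (T.l 0) (T.l 0)) (T.l 1)))), by decide +kernel⟩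

def A102E_011 :
    ∃ t, chk3 (onCell 0 67108864 0 1073741824 134217728 67108864 (corT false 3 c0N cA102E gN0q1 gN1q0 gN1q2 gN2q2 true true)) t 1 1 1 = true :=
  ⟨(T.b (T.b (T.l 2) (T.l 2)) (T.b (T.b (T.a (T.l 204) (T.b (T.l 0) (T.l 204))) (T.a (T.l 0) (T.l 0))) (T.l 1))), by decide +kernel⟩

def A102E_012 :
    ∃ t, chk3 (onCell 0 67108864 0 1073741824 134217728 67108864 (corT false 3 c0N cA102E gN0q1 gN1q0 gN2q2 gN3q2 true false)) t 1 1 1 = true :=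
  ⟨(T.b (T.a (T.a (T.l 0) (T.b (T.l 0) (T.l 204))) (T.b (T.l 0) (T.l 0))) (T.b (T.a (T.l 0) (T.b (T.l 0) (T.l 1))) (T.l 1))), by decide +kernel⟩

def A102E_020 :
    ∃ t, chk3 (onCell 0 67108864 0 1073741824 134217728 67108864 (corT false 3 c0N cA102E gN0q1 gN2q0 gN0q2 gN1q2 true true)) t 1 1 1 = true :=
  ⟨(T.b (T.l 2) (T.b (T.l 2) (T.a (T.l 816) (T.l 0)))), by decide +kernel⟩

def A102E_021 :
    ∃ t, chk3 (onCell 0 67108864 0 1073741824 134217728 67108864 (corT false 3 c0N cA102E gN0q1 gN2q0 gN1q2 gN2q2 true true)) t 1 1 1 = true :=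
  ⟨(T.b (T.l 2) (T.b (T.l 2) (T.a (T.l 816) (T.l 0)))), by decide +kernel⟩

def A102E_022 :
    ∃ t, chk3 (onCell 0 67108864 0 1073741824 134217728 67108864 (corT false 3 c0N cA102E gN0q1 gN2q0 gN2q2 gN3q2 true false)) t 1 1 1 = true :=
  ⟨(T.b (T.a (T.a (T.l 816) (T.l 0)) (T.b (T.l 0) (T.l 0))) (T.a (T.l 816) (T.b (T.b (T.l 816) (T.l 0)) (T.l 0)))), by decide +kernel⟩

def A102R_004 :
    ∃ t, chk3 (onCell 0 67108864 0 1073741824 134217728 67108864 (corT false 3 c0N cA102R gN0q1 gN0q0 gN4q2 gN5q2 false true)) t 1 1 1 = true :=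
  ⟨(T.l 2), by decide +kernel⟩

def A102R_014 :
    ∃ t, chk3 (onCell 0 67108864 0 1073741824 134217728 67108864 (corT false 3 c0N cA102R gN0q1 gN1q0 gN4q2 gN5q2 false true)) t 1 1 1 = true :=
  ⟨(T.l 2), by decide +kernel⟩

def A102R_024 :
    ∃ t, chk3 (onCell 0 67108864 0 1073741824 134217728 67108864 (corT false 3 c0N cA102R gN0q1 gN2q0 gN4q2 gN5q2 false true)) t 1 1 1 = true :=
  ⟨(T.l 2), by decide +kernel⟩

def A202E_000 :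
    ∃ t, chk3 (onCell 0 67108864 0 1073741824 134217728 67108864 (corT false 3 c0N cA202E gN0q2 gN0q0 gN0q2 gN1q2 true true)) t 1 1 1 = true :=
  ⟨(T.l 2), by decide +kernel⟩

def A202E_001 :
    ∃ t, chk3 (onCell 0 67108864 0 1073741824 134217728 67108864 (corT false 3 c0N cA202E gN0q2 gN0q0 gN1q2 gN2q2 true true)) t 1 1 1 = true :=
  ⟨(T.b (T.l 2) (T.l 2)), by decide +kernel⟩

def A202E_002_2_4_1 :
    ∃ t, chk3 (onCell 0 67108864 0 1073741824 134217728 67108864 (corT false 3 c0N cA202E gN0q2 gN0q0 gN2q2 gN3q2 true false)) t 2 4 1 = true :=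
  ⟨(T.a (T.c (T.b (T.c (T.b (T.l 204) (T.l 204)) (T.b (T.l 204) (T.l 204))) (T.b (T.l 204) (T.l 204))) (T.b (T.c (T.b (T.l 204) (T.l 204)) (T.l 204)) (T.l 204))) (T.c (T.b (T.a (T.c (T.b (T.l 204) (T.l 204)) (T.b (T.l 204) (T.l 204))) (T.c (T.b (T.c (T.b (T.l 204) (T.l 204)) (T.l 220)) (T.l 204)) (T.b (T.c (T.l 204) (T.l 204)) (T.l 204)))) (T.a (T.b (T.l 204) (T.l 204)) (T.c (T.l 204) (T.l 204)))) (T.b (T.a (T.c (T.b (T.l 204) (T.l 204)) (T.l 204)) (T.c (T.b (T.a (T.l 204) (T.l 204)) (T.l 204)) (T.b (T.a (T.l 204) (T.l 204)) (T.l 204)))) (T.a (T.l 204) (T.l 204))))), by decide +kernel⟩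

def A202E_002_3_4_1 :
    ∃ t, chk3 (onCell 0 67108864 0 1073741824 134217728 67108864 (corT false 3 c0N cA202E gN0q2 gN0q0 gN2q2 gN3q2 true false)) t 3 4 1 = true :=
  ⟨(T.a (T.c (T.b (T.c (T.b (T.a (T.c (T.l 204) (T.l 204)) (T.c (T.l 220) (T.l 204))) (T.a (T.l 204) (T.l 204))) (T.b (T.a (T.a (T.l 220) (T.l 220)) (T.c (T.l 204) (T.l 204))) (T.b (T.l 204) (T.l 204)))) (T.c (T.b (T.l 460) (T.l 204)) (T.b (T.l 204) (T.l 204)))) (T.b (T.c (T.b (T.b (T.a (T.l 204) (T.l 204)) (T.l 476)) (T.l 204)) (T.b (T.a (T.l 220) (T.l 220)) (T.l 204))) (T.c (T.l 460) (T.l 204)))) (T.c (T.b (T.c (T.b (T.a (T.b (T.c (T.l 220) (T.l 204)) (T.l 460)) (T.b (T.c (T.a (T.l 220) (T.l 476)) (T.a (T.l 204) (T.l 220))) (T.a (T.l 460) (T.l 476)))) (T.a (T.l 460) (T.b (T.l 460) (T.l 204)))) (T.b (T.a (T.c (T.l 220) (T.l 220)) (T.b (T.b (T.c (T.l 220) (T.l 220)) (T.l 476)) (T.l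 460))) (T.b (T.l 460) (T.l 204)))) (T.c (T.b (T.b (T.l 460) (T.l 204)) (T.l 460)) (T.b (T.l 460) (T.l 204)))) (T.b (T.b (T.c (T.a (T.c (T.l 220) (T.l 204)) (T.b (T.c (T.b (T.l 220) (T.l 204)) (T.l 220)) (T.l 204))) (T.b (T.a (T.l 220) (T.c (T.l 220) (T.l 220))) (T.l 220))) (T.c (T.l 476) (T.l 204))) (T.c (T.b (T.l 204) (T.l 204)) (T.l 460))))), by decide +kernel⟩

def A202E_002_1_5_1 :
    ∃ t, chk3 (onCell 0 67108864 0 1073741824 134217728 67108864 (corT false 3 c0N cA202E gN0q2 gN0q0 gN2q2 gN3q2 true false)) t 1 5 1 = true :=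
  ⟨(T.a (T.a (T.c (T.b (T.l 0) (T.l 0)) (T.l 0)) (T.c (T.a (T.b (T.l 0) (T.l 0)) (T.b (T.l 0) (T.l 0))) (T.a (T.l 0) (T.l 256)))) (T.a (T.c (T.b (T.c (T.l 0) (T.l 0)) (T.b (T.l 256) (T.l 0))) (T.b (T.b (T.l 204) (T.l 204)) (T.l 0))) (T.b (T.c (T.c (T.b (T.l 204) (T.l 204)) (T.l 460)) (T.b (T.l 204) (T.l 204))) (T.c (T.a (T.b (T.l 204) (T.l 0)) (T.b (T.l 460) (T.l 460))) (T.b (T.l 204) (T.l 0)))))), by decide +kernel⟩

def A202E_002_1_6_1 :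
    ∃ t, chk3 (onCell 0 67108864 0 1073741824 134217728 67108864 (corT false 3 c0N cA202E gN0q2 gN0q0 gN2q2 gN3q2 true false)) t 1 6 1 = true :=
  ⟨(T.a (T.a (T.c (T.c (T.b (T.l 816) (T.b (T.l 816) (T.l 816))) (T.b (T.l 816) (T.l 816))) (T.b (T.l 816) (T.a (T.l 880) (T.l 816)))) (T.c (T.a (T.c (T.l 816) (T.l 816)) (T.c (T.l 880) (T.l 816))) (T.a (T.b (T.l 816) (T.l 816)) (T.b (T.l 0) (T.l 816))))) (T.a (T.b (T.c (T.a (T.l 0) (T.l 0)) (T.l 0)) (T.c (T.a (T.b (T.l 816) (T.l 880)) (T.c (T.l 816) (T.l 816))) (T.a (T.l 816) (T.l 816)))) (T.b (T.c (T.c (T.b (T.l 0) (T.l 0)) (T.l 256)) (T.b (T.l 0) (T.l 0))) (T.c (T.a (T.b (T.l 816) (T.c (T.l 816) (T.l 816))) (T.b (T.b (T.l 0) (T.l 64)) (T.c (T.l 0) (T.l 0)))) (T.a (T.b (T.l 0) (T.l 0)) (T.b (T.l 0) (T.l 0))))))), by decide +kernel⟩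

def A202E_002_2_7_1 :
    ∃ t, chk3 (onCell 0 67108864 0 1073741824 134217728 67108864 (corT false 3 c0N cA202E gN0q2 gN0q0 gN2q2 gN3q2 true false)) t 2 7 1 = true :=
  ⟨(T.a (T.c (T.b (T.c (T.a (T.b (T.l 816) (T.l 880)) (T.l 880)) (T.b (T.l 816) (T.b (T.l 816) (T.l 816)))) (T.c (T.a (T.b (T.c (T.l 816) (T.l 816)) (T.c (T.b (T.l 816) (T.a (T.l 816) (T.l 816))) (T.b (T.l 816) (T.a (T.l 816) (T.l 816))))) (T.b (T.l 880) (T.c (T.l 816) (T.l 816)))) (T.a (T.b (T.a (T.l 816) (T.l 816)) (T.c (T.b (T.l 816) (T.b (T.l 816) (T.l 816))) (T.a (T.l 816) (T.l 816)))) (T.b (T.l 816) (T.b (T.l 816) (T.l 816)))))) (T.b (T.c (T.b (T.l 816) (T.l 816)) (T.b (T.l 816) (T.l 816))) (T.c (T.a (T.b (T.l 880) (T.a (T.c (T.l 816) (T.l 816)) (T.l 816))) (T.b (T.l 816) (T.l 816))) (T.a (T.b (T.l 816) (T.c (T.b (T.l 816) (T.l 816)) (T.l 816))) (T.l 816))))) (T.a (T.c (T.c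 (T.b (T.l 816) (T.b (T.l 816) (T.l 816))) (T.b (T.l 816) (T.l 880))) (T.b (T.l 880) (T.c (T.l 816) (T.l 816)))) (T.c (T.b (T.c (T.l 816) (T.l 816)) (T.c (T.a (T.l 816) (T.l 816)) (T.b (T.l 816) (T.l 816)))) (T.b (T.l 880) (T.a (T.l 816) (T.b (T.l 816) (T.l 816))))))), by decide +kernel⟩

def A202E_002_3_7_1 :
    ∃ t, chk3 (onCell 0 67108864 0 1073741824 134217728 67108864 (corT false 3 c0N cA202E gN0q2 gN0q0 gN2q2 gN3q2 true false)) t 3 7 1 = true :=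
  ⟨(T.a (T.a (T.c (T.b (T.c (T.l 880) (T.l 816)) (T.c (T.b (T.l 816) (T.l 816)) (T.b (T.l 816) (T.l 816)))) (T.b (T.b (T.l 816) (T.l 816)) (T.c (T.l 816) (T.l 816)))) (T.b (T.c (T.b (T.b (T.l 880) (T.l 880)) (T.c (T.b (T.l 816) (T.l 816)) (T.l 880))) (T.a (T.l 816) (T.b (T.l 816) (T.l 816)))) (T.c (T.a (T.c (T.b (T.l 816) (T.l 816)) (T.b (T.l 816) (T.l 816))) (T.c (T.b (T.l 816) (T.l 816)) (T.b (T.l 816) (T.l 816)))) (T.a (T.b (T.l 816) (T.l 816)) (T.b (T.l 816) (T.l 816)))))) (T.b (T.c (T.a (T.b (T.c (T.l 880) (T.l 816)) (T.c (T.b (T.l 816) (T.l 816)) (T.l 816))) (T.b (T.c (T.l 816) (T.l 816)) (T.c (T.l 880) (T.l 816)))) (T.a (T.b (T.l 816) (T.l 880)) (T.b (T.l 0) (T.l 816)))) (T.a (T.c (T.b (T.c (T.b (T.l 816) (T.l 816)) (T.l 816)) (T.c (T.b (T.l 816) (T.l 816)) (T.l 816))) (T.b (T.b (T.l 816) (T.l 816)) (T.b (T.l 816) (T.l 816)))) (T.c (T.b (T.c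 (T.b (T.l 816) (T.l 816)) (T.l 816)) (T.c (T.b (T.l 816) (T.l 816)) (T.l 816))) (T.b (T.l 816) (T.l 816)))))), by decide +kernel⟩

theorem A202E_002_1_7_1 :
    ∃ t, chk3 (onCell 0 67108864 0 1073741824 134217728 67108864 (corT false 3 c0N cA202E gN0q2 gN0q0 gN2q2 gN3q2 true false)) t 1 7 1 = true :=
  ex3_a A202E_002_2_7_1 A202E_002_3_7_1
theorem A202E_002_1_3_1 :
    ∃ t, chk3 (onCell 0 67108864 0 1073741824 134217728 67108864 (corT false 3 c0N cA202E gN0q2 gN0q0 gN2q2 gN3q2 true false)) t 1 3 1 = true :=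
  ex3_b A202E_002_1_6_1 A202E_002_1_7_1
theorem A202E_002_1_4_1 :
    ∃ t, chk3 (onCell 0 67108864 0 1073741824 134217728 67108864 (corT false 3 c0N cA202E gN0q2 gN0q0 gN2q2 gN3q2 true false)) t 1 4 1 = true :=
  ex3_a A202E_002_2_4_1 A202E_002_3_4_1
theorem A202E_002_1_2_1 :
    ∃ t, chk3 (onCell 0 67108864 0 1073741824 134217728 67108864 (corT false 3 c0N cA202E gN0q2 gN0q0 gN2q2 gN3q2 true false)) t 1 2 1 = true :=
  ex3_b A202E_002_1_4_1 A202E_002_1_5_1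
theorem A202E_002 :
    ∃ t, chk3 (onCell 0 67108864 0 1073741824 134217728 67108864 (corT false 3 c0N cA202E gN0q2 gN0q0 gN2q2 gN3q2 true false)) t 1 1 1 = true :=
  ex3_b A202E_002_1_2_1 A202E_002_1_3_1

def A202E_010 :
    ∃ t, chk3 (onCell 0 67108864 0 1073741824 134217728 67108864 (corT false 3 c0N cA202E gN0q2 gN1q0 gN0q2 gN1q2 true true)) t 1 1 1 = true :=
  ⟨(T.l 2), by decide +kernel⟩

def A202E_011 :
    ∃ t, chk3 (onCell 0 67108864 0 1073741824 134217728 67108864 (corT false 3 c0N cA202E gN0q2 gN1q0 gN1q2 gN2q2 true true)) t 1 1 1 = true :=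
  ⟨(T.l 2), by decide +kernel⟩

def A202E_012 :
    ∃ t, chk3 (onCell 0 67108864 0 1073741824 134217728 67108864 (corT false 3 c0N cA202E gN0q2 gN1q0 gN2q2 gN3q2 true false)) t 1 1 1 = true :=
  ⟨(T.b (T.a (T.a (T.l 0) (T.l 0)) (T.b (T.l 0) (T.b (T.l 0) (T.l 0)))) (T.b (T.a (T.a (T.l 816) (T.l 0)) (T.a (T.b (T.l 0) (T.l 0)) (T.b (T.l 0) (T.b (T.l 0) (T.l 0))))) (T.a (T.a (T.c (T.b (T.l 816) (T.b (T.l 816) (T.c (T.b (T.l 816) (T.b (T.l 816) (T.c (T.a (T.a (T.l 816) (T.l 816)) (T.l 816)) (T.a (T.a (T.l 816) (T.l 816)) (T.l 816))))) (T.b (T.l 816) (T.a (T.c (T.b (T.l 816) (T.l 816)) (T.l 816)) (T.l 816)))))) (T.b (T.l 816) (T.b (T.l 816) (T.b (T.l 816) (T.c (T.a (T.c (T.l 816) (T.l 816)) (T.l 816)) (T.a (T.a (T.l 816) (T.l 816)) (T.l 816))))))) (T.b (T.c (T.l 816) (T.l 816)) (T.c (T.b (T.l 816) (T.a (T.c (T.l 816) (T.l 816)) (T.c (T.b (T.l 816) (T.l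 816)) (T.l 816)))) (T.a (T.c (T.l 816) (T.l 816)) (T.a (T.l 816) (T.b (T.l 816) (T.l 816))))))) (T.a (T.a (T.c (T.b (T.l 816) (T.b (T.l 816) (T.c (T.l 816) (T.l 816)))) (T.b (T.l 816) (T.c (T.l 816) (T.l 816)))) (T.b (T.c (T.l 0) (T.l 0)) (T.c (T.b (T.l 816) (T.c (T.a (T.l 816) (T.l 816)) (T.b (T.l 816) (T.l 816)))) (T.b (T.l 816) (T.c (T.l 816) (T.l 816)))))) (T.b (T.c (T.b (T.l 0) (T.l 0)) (T.b (T.l 0) (T.l 0))) (T.a (T.c (T.b (T.l 816) (T.c (T.b (T.l 816) (T.l 816)) (T.l 816))) (T.b (T.l 816) (T.b (T.l 816) (T.l 816)))) (T.c (T.b (T.l 816) (T.c (T.b (T.l 816) (T.l 816)) (T.l 816))) (T.b (T.l 816) (T.l 816))))))))), by decide +kernel⟩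

def A202E_020 :
    ∃ t, chk3 (onCell 0 67108864 0 1073741824 134217728 67108864 (corT false 3 c0N cA202E gN0q2 gN2q0 gN0q2 gN1q2 true true)) t 1 1 1 = true :=
  ⟨(T.l 2), by decide +kernel⟩

def A202E_021 :
    ∃ t, chk3 (onCell 0 67108864 0 1073741824 134217728 67108864 (corT false 3 c0N cA202E gN0q2 gN2q0 gN1q2 gN2q2 true true)) t 1 1 1 = true :=
  ⟨(T.l 2), by decide +kernel⟩

def A202E_022 :
    ∃ t, chk3 (onCell 0 67108864 0 1073741824 134217728 67108864 (corT false 3 c0N cA202E gN0q2 gN2q0 gN2q2 gN3q2 true false)) t 1 1 1 = true :=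
  ⟨(T.b (T.a (T.a (T.l 816) (T.l 0)) (T.b (T.l 0) (T.l 0))) (T.b (T.a (T.a (T.l 816) (T.l 816)) (T.a (T.l 816) (T.b (T.l 0) (T.l 0)))) (T.a (T.a (T.b (T.l 816) (T.c (T.b (T.l 816) (T.b (T.l 816) (T.c (T.b (T.l 816) (T.b (T.l 816) (T.c (T.a (T.l 880) (T.l 816)) (T.a (T.l 816) (T.l 816))))) (T.a (T.c (T.b (T.l 816) (T.l 816)) (T.l 816)) (T.l 816))))) (T.b (T.l 816) (T.b (T.l 816) (T.b (T.l 880) (T.c (T.a (T.c (T.l 816) (T.l 816)) (T.l 816)) (T.a (T.a (T.l 816) (T.l 816)) (T.l 816)))))))) (T.b (T.l 816) (T.a (T.c (T.c (T.b (T.l 816) (T.l 816)) (T.l 816)) (T.c (T.l 816) (T.l 816))) (T.c (T.b (T.l 816) (T.c (T.b (T.l 816) (T.l 816)) (T.l 816))) (T.a (T.l 816) (T.l 816)))))) (T.a (T.a (T.b (T.l 816) (T.c (T.b (T.l 816) (T.c (T.l 816) (T.l 816))) (T.b (T.l 816) (T.l 880)))) (T.b (T.l 816) (T.c (T.b (T.l 816) (T.b (T.l 816) (T.c (T.b (T.l 816) (T.l 816))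 (T.l 816)))) (T.b (T.l 816) (T.c (T.l 816) (T.l 816)))))) (T.b (T.c (T.l 0) (T.l 0)) (T.b (T.c (T.b (T.l 816) (T.l 816)) (T.l 0)) (T.c (T.a (T.c (T.b (T.l 816) (T.l 816)) (T.l 816)) (T.c (T.b (T.l 816) (T.l 816)) (T.l 816))) (T.a (T.b (T.l 816) (T.l 816)) (T.l 816))))))))), by decide +kernel⟩

def A202E_110 :
    ∃ t, chk3 (onCell 0 67108864 0 1073741824 134217728 67108864 (corT false 3 c0N cA202E gN1q2 gN1q0 gN0q2 gN1q2 true true)) t 1 1 1 = true :=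
  ⟨(T.l 2), by decide +kernel⟩

def A202E_111 :
    ∃ t, chk3 (onCell 0 67108864 0 1073741824 134217728 67108864 (corT false 3 c0N cA202E gN1q2 gN1q0 gN1q2 gN2q2 true true)) t 1 1 1 = true :=
  ⟨(T.l 2), by decide +kernel⟩

def A202E_112 :
    ∃ t, chk3 (onCell 0 67108864 0 1073741824 134217728 67108864 (corT false 3 c0N cA202E gN1q2 gN1q0 gN2q2 gN3q2 true false)) t 1 1 1 = true :=
  ⟨(T.b (T.b (T.a (T.a (T.l 204) (T.l 0)) (T.l 204)) (T.a (T.a (T.l 0) (T.l 0)) (T.b (T.l 0) (T.l 0)))) (T.a (T.a (T.b (T.l 816) (T.b (T.l 816) (T.c (T.b (T.l 816) (T.c (T.b (T.l 816) (T.l 816)) (T.l 816))) (T.c (T.l 816) (T.l 816))))) (T.b (T.l 0) (T.a (T.c (T.c (T.l 816) (T.l 816)) (T.b (T.l 816) (T.l 816))) (T.b (T.l 816) (T.c (T.b (T.l 816) (T.c (T.b (T.l 816) (T.l 816)) (T.l 816))) (T.a (T.l 816) (T.b (T.l 816) (T.l 816)))))))) (T.b (T.a (T.b (T.l 0) (T.l 0)) (T.b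 (T.l 0) (T.l 0))) (T.a (T.b (T.c (T.l 0) (T.l 0)) (T.c (T.b (T.b (T.l 816) (T.l 816)) (T.a (T.c (T.l 816) (T.l 816)) (T.c (T.l 816) (T.l 816)))) (T.b (T.l 816) (T.a (T.b (T.l 816) (T.l 816)) (T.l 816))))) (T.b (T.c (T.l 0) (T.l 0)) (T.c (T.b (T.l 816) (T.c (T.a (T.l 816) (T.l 816)) (T.b (T.l 816) (T.l 816)))) (T.b (T.l 816) (T.a (T.l 816) (T.l 816))))))))), by decide +kernel⟩

def A202E_120 :
    ∃ t, chk3 (onCell 0 67108864 0 1073741824 134217728 67108864 (corT false 3 c0N cA202E gN1q2 gN2q0 gN0q2 gN1q2 true true)) t 1 1 1 = true :=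
  ⟨(T.l 2), by decide +kernel⟩

def A202E_121 :
    ∃ t, chk3 (onCell 0 67108864 0 1073741824 134217728 67108864 (corT false 3 c0N cA202E gN1q2 gN2q0 gN1q2 gN2q2 true true)) t 1 1 1 = true :=
  ⟨(T.l 2), by decide +kernel⟩

def A202E_122 :
    ∃ t, chk3 (onCell 0 67108864 0 1073741824 134217728 67108864 (corT false 3 c0N cA202E gN1q2 gN2q0 gN2q2 gN3q2 true false)) t 1 1 1 = true :=
  ⟨(T.b (T.b (T.a (T.a (T.l 816) (T.l 816)) (T.l 0)) (T.a (T.a (T.l 816) (T.l 816)) (T.b (T.l 0) (T.l 0)))) (T.b (T.a (T.a (T.l 816) (T.l 816)) (T.a (T.l 0) (T.l 0))) (T.a (T.a (T.b (T.l 816) (T.c (T.b (T.l 816) (T.c (T.b (T.l 816) (T.l 816)) (T.l 816))) (T.c (T.l 816) (T.l 816)))) (T.b (T.l 816) (T.a (T.c (T.c (T.l 816) (T.l 816)) (T.l 816)) (T.b (T.l 816) (T.c (T.c (T.b (T.l 816) (T.l 816)) (T.l 816)) (T.c (T.l 816) (T.l 816))))))) (T.a (T.b (T.l 880) (T.c (T.b (T.l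 816) (T.b (T.l 816) (T.a (T.c (T.l 816) (T.l 816)) (T.c (T.l 816) (T.l 816))))) (T.b (T.l 816) (T.a (T.b (T.l 816) (T.l 816)) (T.l 816))))) (T.b (T.l 0) (T.c (T.b (T.l 816) (T.b (T.l 816) (T.c (T.a (T.l 816) (T.l 816)) (T.l 816)))) (T.b (T.l 816) (T.a (T.l 816) (T.l 816))))))))), by decide +kernel⟩

def A202E_220 :
    ∃ t, chk3 (onCell 0 67108864 0 1073741824 134217728 67108864 (corT false 3 c0N cA202E gN2q2 gN2q0 gN0q2 gN1q2 true true)) t 1 1 1 = true :=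
  ⟨(T.l 2), by decide +kernel⟩

def A202E_221 :
    ∃ t, chk3 (onCell 0 67108864 0 1073741824 134217728 67108864 (corT false 3 c0N cA202E gN2q2 gN2q0 gN1q2 gN2q2 true true)) t 1 1 1 = true :=
  ⟨(T.l 2), by decide +kernel⟩

def A202E_222 :
    ∃ t, chk3 (onCell 0 67108864 0 1073741824 134217728 67108864 (corT false 3 c0N cA202E gN2q2 gN2q0 gN2q2 gN3q2 true false)) t 1 1 1 = true :=
  ⟨(T.b (T.b (T.a (T.a (T.l 816) (T.l 816)) (T.l 0)) (T.a (T.a (T.l 816) (T.l 816)) (T.b (T.l 0) (T.l 0)))) (T.b (T.a (T.a (T.l 816) (T.l 816)) (T.b (T.l 0) (T.l 0))) (T.a (T.a (T.c (T.c (T.l 816) (T.l 816)) (T.l 816)) (T.b (T.l 816) (T.a (T.c (T.l 816) (T.l 816)) (T.c (T.c (T.l 816) (T.l 816)) (T.b (T.l 816) (T.l 816)))))) (T.b (T.a (T.l 816) (T.l 816)) (T.a (T.c (T.b (T.l 816) (T.c (T.l 880) (T.l 816))) (T.a (T.l 816) (T.l 816))) (T.c (T.c (T.b (T.l 816) (T.l 816))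 (T.l 880)) (T.a (T.l 816) (T.l 816)))))))), by decide +kernel⟩

def A202R_004_1_4_1 :
    ∃ t, chk3 (onCell 0 67108864 0 1073741824 134217728 67108864 (corT false 3 c0N cA202R gN0q2 gN0q0 gN4q2 gN5q2 false true)) t 1 4 1 = true :=
  ⟨(T.l 2), by decide +kernel⟩

def A202R_004_1_10_1 :
    ∃ t, chk3 (onCell 0 67108864 0 1073741824 134217728 67108864 (corT false 3 c0N cA202R gN0q2 gN0q0 gN4q2 gN5q2 false true)) t 1 10 1 = true :=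
  ⟨(T.b (T.l 2) (T.b (T.b (T.a (T.l 2) (T.b (T.l 2) (T.b (T.l 2) (T.b (T.l 2) (T.a (T.a (T.l 2) (T.a (T.l 2) (T.b (T.l 2) (T.l 204)))) (T.a (T.c (T.b (T.a (T.l 2) (T.l 204)) (T.l 204)) (T.l 204)) (T.l 204))))))) (T.a (T.b (T.b (T.a (T.a (T.l 2) (T.b (T.l 2) (T.b (T.l 2) (T.l 0)))) (T.b (T.a (T.l 2) (T.b (T.l 2) (T.c (T.l 204) (T.l 204)))) (T.c (T.l 0) (T.l 0)))) (T.a (T.c (T.l 0) (T.l 0)) (T.l 0))) (T.c (T.a (T.l 0) (T.l 0)) (T.l 0))) (T.a (T.c (T.a (T.b (T.c (T.a (T.l 0) (T.l 0)) (T.l 0)) (T.l 0)) (T.l 0)) (T.a (T.c (T.l 0) (T.l 0)) (T.l 0))) (T.c (T.l 0) (T.l 0))))) (T.a (T.c (T.a (T.c (T.l 816) (T.l 816)) (T.a (T.l 816) (T.l 816))) (T.a (T.a (T.l 816) (T.l 816)) (T.l 816))) (T.c (T.a (T.a (T.l 816) (T.l 816)) (T.a (T.l 816) (T.l 816))) (T.a (T.l 816) (T.l 816)))))), by decide +kernel⟩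

def A202R_004_1_11_1 :
    ∃ t, chk3 (onCell 0 67108864 0 1073741824 134217728 67108864 (corT false 3 c0N cA202R gN0q2 gN0q0 gN4q2 gN5q2 false true)) t 1 11 1 = true :=
  ⟨(T.a (T.c (T.b (T.a (T.c (T.a (T.b (T.l 816) (T.l 816)) (T.l 880)) (T.b (T.l 816) (T.l 816))) (T.c (T.b (T.l 816) (T.l 816)) (T.b (T.l 816) (T.l 816)))) (T.a (T.c (T.a (T.c (T.l 816) (T.l 816)) (T.b (T.l 816) (T.l 816))) (T.a (T.b (T.l 816) (T.l 816)) (T.l 816))) (T.c (T.b (T.l 816) (T.l 816)) (T.b (T.l 816) (T.l 816))))) (T.b (T.a (T.b (T.a (T.l 816) (T.l 816)) (T.c (T.l 816) (T.l 816))) (T.b (T.l 884) (T.a (T.l 816) (T.l 816)))) (T.a (T.c (T.b (T.l 816) (T.l 816)) (T.b (T.l 816) (T.l 816))) (T.c (T.l 884) (T.l 816))))) (T.b (T.c (T.b (T.a (T.a (T.l 816) (T.l 816)) (T.l 820)) (T.a (T.a (T.l 820) (T.l 820)) (T.l 820))) (T.a (T.b (T.l 816) (T.l 816)) (T.b (T.l 816) (T.l 816))))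 (T.a (T.c (T.c (T.b (T.l 816) (T.l 816)) (T.l 820)) (T.b (T.l 816) (T.l 816))) (T.c (T.b (T.l 820) (T.a (T.l 820) (T.l 820))) (T.b (T.l 816) (T.l 820)))))), by decide +kernel⟩

def A202R_004_2_6_1 :
    ∃ t, chk3 (onCell 0 67108864 0 1073741824 134217728 67108864 (corT false 3 c0N cA202R gN0q2 gN0q0 gN4q2 gN5q2 false true)) t 2 6 1 = true :=
  ⟨(T.c (T.b (T.a (T.c (T.b (T.a (T.c (T.b (T.l 816) (T.l 816)) (T.l 816)) (T.b (T.l 816) (T.l 816))) (T.a (T.c (T.b (T.l 816) (T.l 816)) (T.l 816)) (T.b (T.l 816) (T.l 816)))) (T.b (T.a (T.b (T.l 816) (T.l 816)) (T.l 816)) (T.a (T.b (T.l 816) (T.l 816)) (T.l 816)))) (T.c (T.b (T.b (T.l 816) (T.l 816)) (T.b (T.l 816) (T.l 820))) (T.b (T.b (T.l 816) (T.l 816)) (T.b (T.l 816) (T.l 816))))) (T.a (T.c (T.a (T.b (T.c (T.b (T.l 816) (T.l 816)) (T.b (T.l 816) (T.l 816))) (T.c (T.b (T.l 816) (T.l 816)) (T.b (T.l 816)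 (T.l 816)))) (T.b (T.b (T.l 816) (T.l 816)) (T.b (T.l 816) (T.l 816)))) (T.a (T.b (T.c (T.l 816) (T.l 816)) (T.c (T.l 816) (T.l 816))) (T.b (T.l 816) (T.l 816)))) (T.c (T.b (T.b (T.l 820) (T.l 820)) (T.b (T.l 820) (T.l 820))) (T.b (T.b (T.l 816) (T.l 816)) (T.b (T.l 816) (T.l 816)))))) (T.b (T.a (T.b (T.c (T.b (T.l 816) (T.l 816)) (T.b (T.l 816) (T.l 816))) (T.c (T.b (T.l 816) (T.a (T.l 816) (T.l 816))) (T.b (T.l 816) (T.l 816)))) (T.b (T.c (T.l 820) (T.l 816)) (T.c (T.l 820) (T.l 816)))) (T.a (T.c (T.a (T.a (T.b (T.l 816) (T.l 816)) (T.l 884)) (T.b (T.l 816) (T.l 816))) (T.b (T.b (T.l 816) (T.l 816)) (T.b (T.l 816) (T.l 816)))) (T.b (T.c (T.l 820) (T.l 816)) (T.c (T.l 820) (T.l 816)))))), by decide +kernel⟩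

def A202R_004_3_6_1 :
    ∃ t, chk3 (onCell 0 67108864 0 1073741824 134217728 67108864 (corT false 3 c0N cA202R gN0q2 gN0q0 gN4q2 gN5q2 false true)) t 3 6 1 = true :=
  ⟨(T.a (T.b (T.c (T.b (T.c (T.l 820) (T.l 820)) (T.c (T.l 820) (T.l 820))) (T.b (T.b (T.l 820) (T.l 820)) (T.b (T.l 820) (T.l 820)))) (T.c (T.a (T.c (T.b (T.l 816) (T.l 816)) (T.l 820)) (T.c (T.b (T.l 816) (T.l 816)) (T.b (T.l 816) (T.l 816)))) (T.a (T.b (T.l 820) (T.l 820)) (T.b (T.b (T.l 816) (T.l 816)) (T.b (T.l 816) (T.l 816)))))) (T.b (T.c (T.b (T.c (T.b (T.l 816) (T.l 816)) (T.b (T.l 816) (T.l 816))) (T.c (T.b (T.l 816) (T.l 816)) (T.b (T.l 816) (T.l 816)))) (T.b (T.b (T.l 820) (T.l 820)) (T.b (T.l 820) (T.l 820)))) (T.a (T.c (T.b (T.c (T.l 816) (T.l 816)) (T.b (T.b (T.l 820) (T.l 820)) (T.c (T.l 820) (T.l 816)))) (T.b (T.l 820) (T.a (T.l 816) (T.b (T.l 816) (T.l 816))))) (T.c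 (T.b (T.c (T.b (T.l 816) (T.l 816)) (T.b (T.l 816) (T.l 816))) (T.c (T.b (T.l 816) (T.l 816)) (T.b (T.l 816) (T.l 816)))) (T.b (T.b (T.l 820) (T.l 820)) (T.b (T.l 820) (T.l 820))))))), by decide +kernel⟩

def A202R_004_2_7_1 :
    ∃ t, chk3 (onCell 0 67108864 0 1073741824 134217728 67108864 (corT false 3 c0N cA202R gN0q2 gN0q0 gN4q2 gN5q2 false true)) t 2 7 1 = true :=
  ⟨(T.a (T.c (T.b (T.c (T.a (T.c (T.b (T.a (T.b (T.l 816) (T.l 816)) (T.l 816)) (T.a (T.b (T.l 816) (T.l 816)) (T.l 816))) (T.a (T.b (T.l 816) (T.l 816)) (T.l 816))) (T.b (T.b (T.l 884) (T.l 884)) (T.c (T.l 816) (T.l 816)))) (T.a (T.b (T.c (T.b (T.l 816) (T.l 816)) (T.l 816)) (T.c (T.b (T.l 816) (T.l 816)) (T.l 816))) (T.b (T.l 820) (T.l 820)))) (T.c (T.a (T.c (T.a (T.b (T.b (T.l 816) (T.l 880)) (T.c (T.l 816) (T.l 816))) (T.b (T.l 816) (T.l 816))) (T.a (T.b (T.l 816) (T.l 880)) (T.l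 816))) (T.c (T.b (T.l 816) (T.l 816)) (T.b (T.l 816) (T.l 816)))) (T.a (T.b (T.c (T.b (T.l 816) (T.l 816)) (T.l 816)) (T.c (T.b (T.l 816) (T.l 816)) (T.l 816))) (T.c (T.b (T.l 816) (T.l 816)) (T.l 820))))) (T.b (T.c (T.a (T.a (T.b (T.l 816) (T.l 816)) (T.l 880)) (T.b (T.l 816) (T.l 816))) (T.a (T.b (T.l 816) (T.l 816)) (T.l 820))) (T.c (T.a (T.a (T.b (T.l 816) (T.l 816)) (T.l 880)) (T.b (T.l 816) (T.l 816))) (T.a (T.b (T.l 816) (T.l 816)) (T.l 820))))) (T.b (T.c (T.c (T.b (T.a (T.l 820) (T.l 816)) (T.a (T.l 820) (T.l 816))) (T.b (T.b (T.l 816) (T.l 816)) (T.b (T.l 816) (T.l 816)))) (T.c (T.b (T.l 820) (T.b (T.l 816) (T.l 816))) (T.b (T.l 816) (T.l 816)))) (T.c (T.a (T.c (T.c (T.b (T.l 816) (T.l 816)) (T.l 820)) (T.b (T.l 816) (T.l 816))) (T.c (T.b (T.l 816) (T.a (T.l 816) (T.l 816))) (T.a (T.l 816) (T.l 820)))) (T.a (T.c (T.b (T.l 816) (T.l 816))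 (T.l 816)) (T.b (T.c (T.l 816) (T.l 816)) (T.c (T.l 816) (T.l 816))))))), by decide +kernel⟩

def A202R_004_6_7_1 :
    ∃ t, chk3 (onCell 0 67108864 0 1073741824 134217728 67108864 (corT false 3 c0N cA202R gN0q2 gN0q0 gN4q2 gN5q2 false true)) t 6 7 1 = true :=
  ⟨(T.a (T.c (T.b (T.c (T.b (T.l 820) (T.l 820)) (T.b (T.l 816) (T.l 816))) (T.c (T.b (T.l 820) (T.b (T.l 816) (T.l 816))) (T.b (T.l 816) (T.l 820)))) (T.b (T.c (T.b (T.l 816) (T.l 816)) (T.b (T.l 816) (T.l 816))) (T.c (T.b (T.l 816) (T.l 816)) (T.b (T.l 816) (T.l 816))))) (T.b (T.c (T.b (T.c (T.l 816) (T.l 816)) (T.a (T.c (T.l 816) (T.l 816)) (T.c (T.l 820) (T.l 816)))) (T.b (T.b (T.l 820) (T.l 820)) (T.a (T.l 820) (T.b (T.l 816) (T.l 820))))) (T.c (T.b (T.c (T.a (T.l 820) (T.l 820)) (T.a (T.l 816) (T.l 816))) (T.c (T.a (T.b (T.l 816) (T.l 816)) (T.l 820)) (T.a (T.l 816) (T.l 816)))) (T.b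 (T.a (T.c (T.l 816) (T.l 816)) (T.b (T.l 820) (T.l 820))) (T.a (T.c (T.l 816) (T.l 816)) (T.b (T.l 820) (T.l 820))))))), by decide +kernel⟩

def A202R_004_7_7_1 :
    ∃ t, chk3 (onCell 0 67108864 0 1073741824 134217728 67108864 (corT false 3 c0N cA202R gN0q2 gN0q0 gN4q2 gN5q2 false true)) t 7 7 1 = true :=
  ⟨(T.b (T.a (T.c (T.b (T.c (T.b (T.l 820) (T.l 820)) (T.b (T.l 816) (T.l 816))) (T.c (T.b (T.l 820) (T.l 820)) (T.b (T.l 816) (T.l 816)))) (T.b (T.a (T.b (T.l 816) (T.l 816)) (T.b (T.l 816) (T.l 816))) (T.a (T.b (T.l 816) (T.l 816)) (T.b (T.l 816) (T.l 816))))) (T.c (T.b (T.c (T.b (T.l 816) (T.l 816)) (T.b (T.l 816) (T.l 816))) (T.c (T.b (T.l 816) (T.l 816)) (T.b (T.l 816) (T.l 816)))) (T.b (T.b (T.l 820) (T.l 820)) (T.b (T.l 820) (T.l 820))))) (T.c (T.a (T.b (T.c (T.b (T.l 820) (T.l 820)) (T.b (T.l 816) (T.l 816))) (T.c (T.b (T.l 820) (T.l 820))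 (T.b (T.l 816) (T.l 816)))) (T.b (T.c (T.b (T.l 816) (T.l 816)) (T.b (T.l 816) (T.l 816))) (T.c (T.b (T.l 816) (T.l 816)) (T.b (T.l 816) (T.l 816))))) (T.a (T.b (T.c (T.b (T.l 816) (T.l 816)) (T.b (T.l 816) (T.l 816))) (T.c (T.b (T.l 816) (T.l 816)) (T.b (T.l 816) (T.l 816)))) (T.b (T.c (T.l 820) (T.l 820)) (T.c (T.l 820) (T.l 816)))))), by decide +kernel⟩

theorem A202R_004_3_7_1 :
    ∃ t, chk3 (onCell 0 67108864 0 1073741824 134217728 67108864 (corT false 3 c0N cA202R gN0q2 gN0q0 gN4q2 gN5q2 false true)) t 3 7 1 = true :=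
  ex3_a A202R_004_6_7_1 A202R_004_7_7_1
theorem A202R_004_1_7_1 :
    ∃ t, chk3 (onCell 0 67108864 0 1073741824 134217728 67108864 (corT false 3 c0N cA202R gN0q2 gN0q0 gN4q2 gN5q2 false true)) t 1 7 1 = true :=
  ex3_a A202R_004_2_7_1 A202R_004_3_7_1
theorem A202R_004_1_6_1 :
    ∃ t, chk3 (onCell 0 67108864 0 1073741824 134217728 67108864 (corT false 3 c0N cA202R gN0q2 gN0q0 gN4q2 gN5q2 false true)) t 1 6 1 = true :=
  ex3_a A202R_004_2_6_1 A202R_004_3_6_1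
theorem A202R_004_1_3_1 :
    ∃ t, chk3 (onCell 0 67108864 0 1073741824 134217728 67108864 (corT false 3 c0N cA202R gN0q2 gN0q0 gN4q2 gN5q2 false true)) t 1 3 1 = true :=
  ex3_b A202R_004_1_6_1 A202R_004_1_7_1
theorem A202R_004_1_5_1 :
    ∃ t, chk3 (onCell 0 67108864 0 1073741824 134217728 67108864 (corT false 3 c0N cA202R gN0q2 gN0q0 gN4q2 gN5q2 false true)) t 1 5 1 = true :=
  ex3_b A202R_004_1_10_1 A202R_004_1_11_1
theorem A202R_004_1_2_1 :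
    ∃ t, chk3 (onCell 0 67108864 0 1073741824 134217728 67108864 (corT false 3 c0N cA202R gN0q2 gN0q0 gN4q2 gN5q2 false true)) t 1 2 1 = true :=
  ex3_b A202R_004_1_4_1 A202R_004_1_5_1
theorem A202R_004 :
    ∃ t, chk3 (onCell 0 67108864 0 1073741824 134217728 67108864 (corT false 3 c0N cA202R gN0q2 gN0q0 gN4q2 gN5q2 false true)) t 1 1 1 = true :=
  ex3_b A202R_004_1_2_1 A202R_004_1_3_1

def A202R_014 :
    ∃ t, chk3 (onCell 0 67108864 0 1073741824 134217728 67108864 (corT false 3 c0N cA202R gN0q2 gN1q0 gN4q2 gN5q2 false true)) t 1 1 1 = true :=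
  ⟨(T.b (T.l 2) (T.b (T.a (T.l 0) (T.a (T.b (T.l 0) (T.l 816)) (T.b (T.l 0) (T.b (T.l 0) (T.l 816))))) (T.a (T.a (T.c (T.b (T.l 816) (T.b (T.l 816) (T.c (T.b (T.l 816) (T.b (T.l 816) (T.c (T.a (T.a (T.l 816) (T.l 816)) (T.l 816)) (T.a (T.l 816) (T.l 816))))) (T.b (T.l 816) (T.a (T.c (T.l 816) (T.l 816)) (T.l 816)))))) (T.b (T.l 816) (T.b (T.l 816) (T.b (T.l 816) (T.c (T.a (T.l 816) (T.l 816)) (T.l 816)))))) (T.b (T.b (T.l 816) (T.l 816)) (T.c (T.b (T.l 816) (T.a (T.c (T.b (T.l 816) (T.l 816)) (T.l 816)) (T.b (T.l 816) (T.c (T.b (T.l 816) (T.l 816)) (T.l 816))))) (T.b (T.l 816) (T.a (T.c (T.l 816) (T.l 816)) (T.c (T.l 816) (T.l 816))))))) (T.a (T.a (T.b (T.b (T.l 816) (T.l 816)) (T.c (T.b (T.l 816) (T.c (T.b (T.l 816) (T.l 816)) (T.l 816))) (T.b (T.l 816) (T.c (T.l 816) (T.l 816))))) (T.b (T.c (T.l 816) (T.l 816)) (T.c (T.b (T.l 816) (T.b (T.b (T.l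 816) (T.l 816)) (T.c (T.b (T.l 816) (T.l 820)) (T.b (T.l 816) (T.l 816))))) (T.b (T.l 816) (T.b (T.l 816) (T.c (T.l 816) (T.l 816))))))) (T.b (T.b (T.l 820) (T.c (T.l 816) (T.l 816))) (T.b (T.c (T.a (T.l 816) (T.l 816)) (T.b (T.l 816) (T.l 816))) (T.c (T.a (T.b (T.l 816) (T.c (T.l 820) (T.l 816))) (T.b (T.l 816) (T.c (T.l 816) (T.l 816)))) (T.a (T.b (T.l 816) (T.c (T.l 816) (T.l 816))) (T.c (T.l 820) (T.l 816)))))))))), by decide +kernel⟩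

def A202R_024 :
    ∃ t, chk3 (onCell 0 67108864 0 1073741824 134217728 67108864 (corT false 3 c0N cA202R gN0q2 gN2q0 gN4q2 gN5q2 false true)) t 1 1 1 = true :=
  ⟨(T.b (T.l 2) (T.b (T.a (T.l 0) (T.a (T.l 0) (T.b (T.l 816) (T.l 0)))) (T.a (T.a (T.b (T.l 816) (T.c (T.b (T.l 816) (T.b (T.l 816) (T.c (T.b (T.l 816) (T.b (T.l 816) (T.a (T.c (T.a (T.l 816) (T.l 816)) (T.l 816)) (T.l 816)))) (T.a (T.c (T.l 816) (T.l 816)) (T.l 816))))) (T.b (T.l 816) (T.b (T.l 816) (T.c (T.a (T.l 816) (T.l 816)) (T.l 816)))))) (T.b (T.l 816) (T.b (T.c (T.l 816) (T.l 816)) (T.c (T.a (T.c (T.b (T.l 816) (T.l 816)) (T.l 816)) (T.b (T.l 816) (T.c (T.b (T.l 816) (T.l 816)) (T.l 816)))) (T.b (T.l 816) (T.a (T.c (T.l 816) (T.l 816)) (T.c (T.l 816) (T.l 816)))))))) (T.a (T.a (T.b (T.l 816) (T.c (T.b (T.l 816) (T.c (T.b (T.l 816) (T.l 816)) (T.l 816))) (T.b (T.l 816) (T.c (T.l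 816) (T.l 816))))) (T.b (T.l 816) (T.c (T.b (T.l 816) (T.b (T.l 816) (T.c (T.b (T.l 816) (T.l 820)) (T.b (T.l 816) (T.l 816))))) (T.b (T.l 816) (T.b (T.l 816) (T.c (T.l 816) (T.l 816))))))) (T.b (T.b (T.l 816) (T.l 816)) (T.b (T.c (T.l 820) (T.l 816)) (T.c (T.a (T.b (T.l 816) (T.c (T.l 820) (T.l 816))) (T.b (T.l 816) (T.c (T.l 816) (T.l 816)))) (T.a (T.b (T.l 816) (T.c (T.l 816) (T.l 816))) (T.c (T.l 820) (T.l 816)))))))))), by decide +kernel⟩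

def A202R_114 :
    ∃ t, chk3 (onCell 0 67108864 0 1073741824 134217728 67108864 (corT false 3 c0N cA202R gN1q2 gN1q0 gN4q2 gN5q2 false true)) t 1 1 1 = true :=
  ⟨(T.b (T.l 2) (T.b (T.l 2) (T.b (T.a (T.l 0) (T.a (T.b (T.l 0) (T.l 0)) (T.b (T.l 0) (T.l 816)))) (T.a (T.a (T.c (T.l 816) (T.l 816)) (T.a (T.c (T.l 816) (T.l 816)) (T.c (T.c (T.l 816) (T.l 816)) (T.b (T.l 816) (T.l 816))))) (T.a (T.c (T.b (T.l 816) (T.a (T.l 816) (T.l 816))) (T.a (T.l 816) (T.l 816))) (T.c (T.b (T.l 816) (T.a (T.l 816) (T.l 816))) (T.b (T.l 816) (T.l 816)))))))), by decide +kernel⟩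

def A202R_124 :
    ∃ t, chk3 (onCell 0 67108864 0 1073741824 134217728 67108864 (corT false 3 c0N cA202R gN1q2 gN2q0 gN4q2 gN5q2 false true)) t 1 1 1 = true :=
  ⟨(T.b (T.l 2) (T.b (T.l 2) (T.b (T.b (T.l 2) (T.a (T.l 816) (T.a (T.l 0) (T.l 816)))) (T.a (T.a (T.c (T.b (T.l 816) (T.l 816)) (T.l 816)) (T.b (T.l 816) (T.a (T.c (T.l 816) (T.l 816)) (T.c (T.b (T.l 816) (T.l 816)) (T.l 816))))) (T.a (T.c (T.b (T.l 816) (T.a (T.l 816) (T.l 816))) (T.a (T.l 816) (T.l 816))) (T.c (T.b (T.l 816) (T.a (T.l 816) (T.l 816))) (T.b (T.l 816) (T.l 816)))))))), by decide +kernel⟩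

def A202R_224 :
    ∃ t, chk3 (onCell 0 67108864 0 1073741824 134217728 67108864 (corT false 3 c0N cA202R gN2q2 gN2q0 gN4q2 gN5q2 false true)) t 1 1 1 = true :=
  ⟨(T.l 2), by decide +kernel⟩

def B011E_000 :
    ∃ t, chk3 (onCell 0 67108864 0 1073741824 134217728 67108864 (corT false 3 c0N cB011E gN0q0 gN0q1 gN0q1 gN1q1 true false)) t 1 1 1 = true :=
  ⟨(T.l 1), by decide +kernel⟩

def B011E_100 :
    ∃ t, chk3 (onCell 0 67108864 0 1073741824 134217728 67108864 (corT false 3 c0N cB011E gN1q0 gN0q1 gN0q1 gN1q1 true false)) t 1 1 1 = true :=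
  ⟨(T.l 1), by decide +kernel⟩

def B011E_200 :
    ∃ t, chk3 (onCell 0 67108864 0 1073741824 134217728 67108864 (corT false 3 c0N cB011E gN2q0 gN0q1 gN0q1 gN1q1 true false)) t 1 1 1 = true :=
  ⟨(T.b (T.l 1) (T.l 1)), by decide +kernel⟩

def B011L_030 :
    ∃ t, chk3 (onCell 0 67108864 0 1073741824 134217728 67108864 (corT false 3 c0N cB011L gN0q0 gN3q1 gN0q1 gN1q1 true false)) t 1 1 1 = true :=
  ⟨(T.l 1), by decide +kernel⟩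

def B011L_040 :
    ∃ t, chk3 (onCell 0 67108864 0 1073741824 134217728 67108864 (corT false 3 c0N cB011L gN0q0 gN4q1 gN0q1 gN1q1 true false)) t 1 1 1 = true :=
  ⟨(T.l 1), by decide +kernel⟩

def B011L_050 :
    ∃ t, chk3 (onCell 0 67108864 0 1073741824 134217728 67108864 (corT false 3 c0N cB011L gN0q0 gN5q1 gN0q1 gN1q1 true false)) t 1 1 1 = true :=
  ⟨(T.l 1), by decide +kernel⟩

def B011L_130 :
    ∃ t, chk3 (onCell 0 67108864 0 1073741824 134217728 67108864 (corT false 3 c0N cB011L gN1q0 gN3q1 gN0q1 gN1q1 true false)) t 1 1 1 = true :=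
  ⟨(T.l 1), by decide +kernel⟩

def B011L_140 :
    ∃ t, chk3 (onCell 0 67108864 0 1073741824 134217728 67108864 (corT false 3 c0N cB011L gN1q0 gN4q1 gN0q1 gN1q1 true false)) t 1 1 1 = true :=
  ⟨(T.l 1), by decide +kernel⟩

def B011L_150 :
    ∃ t, chk3 (onCell 0 67108864 0 1073741824 134217728 67108864 (corT false 3 c0N cB011L gN1q0 gN5q1 gN0q1 gN1q1 true false)) t 1 1 1 = true :=
  ⟨(T.l 1), by decide +kernel⟩

def B011L_230 :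
    ∃ t, chk3 (onCell 0 67108864 0 1073741824 134217728 67108864 (corT false 3 c0N cB011L gN2q0 gN3q1 gN0q1 gN1q1 true false)) t 1 1 1 = true :=
  ⟨(T.l 1), by decide +kernel⟩

def B011L_240 :
    ∃ t, chk3 (onCell 0 67108864 0 1073741824 134217728 67108864 (corT false 3 c0N cB011L gN2q0 gN4q1 gN0q1 gN1q1 true false)) t 1 1 1 = true :=
  ⟨(T.l 1), by decide +kernel⟩

def B011L_250 :
    ∃ t, chk3 (onCell 0 67108864 0 1073741824 134217728 67108864 (corT false 3 c0N cB011L gN2q0 gN5q1 gN0q1 gN1q1 true false)) t 1 1 1 = true :=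
  ⟨(T.l 1), by decide +kernel⟩

def B011R_002_1_16_1 :
    ∃ t, chk3 (onCell 0 67108864 0 1073741824 134217728 67108864 (corT false 3 c0N cB011R gN0q0 gN0q1 gN2q1 gN3q1 false true)) t 1 16 1 = true :=
  ⟨(T.a (T.c (T.c (T.a (T.c (T.b (T.c (T.l 204) (T.l 204)) (T.c (T.l 204) (T.l 204))) (T.a (T.b (T.l 204) (T.l 204)) (T.l 204))) (T.c (T.b (T.l 204) (T.l 204)) (T.b (T.l 204) (T.l 204)))) (T.a (T.c (T.b (T.l 204) (T.l 220)) (T.b (T.l 204) (T.l 204))) (T.c (T.l 204) (T.l 204)))) (T.c (T.a (T.c (T.b (T.l 204) (T.l 204)) (T.l 220)) (T.b (T.l 204) (T.l 204))) (T.a (T.c (T.l 204) (T.l 204)) (T.l 204)))) (T.a (T.c (T.c (T.c (T.b (T.l 460) (T.l 204)) (T.b (T.l 204) (T.l 204))) (T.c (T.l 460) (T.l 460))) (T.c (T.b (T.l 460) (T.l 204)) (T.l 460))) (T.c (T.c (T.a (T.c (T.b (T.a (T.l 460) (T.l 460)) (T.l 460)) (T.a (T.l 460) (T.b (T.l 460) (T.l 204)))) (T.c (T.b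 (T.b (T.a (T.l 460) (T.c (T.l 460) (T.l 460))) (T.l 476)) (T.l 460)) (T.b (T.a (T.l 460) (T.b (T.l 460) (T.l 204))) (T.l 460)))) (T.a (T.c (T.a (T.l 460) (T.l 460)) (T.a (T.l 204) (T.l 460))) (T.b (T.c (T.a (T.l 460) (T.l 460)) (T.a (T.l 204) (T.l 460))) (T.a (T.l 460) (T.l 460))))) (T.a (T.c (T.c (T.b (T.l 460) (T.l 204)) (T.b (T.l 460) (T.l 204))) (T.a (T.l 460) (T.l 460))) (T.c (T.b (T.c (T.b (T.l 460) (T.l 204)) (T.b (T.l 460) (T.l 204))) (T.l 460)) (T.b (T.c (T.l 460) (T.l 460)) (T.l 460))))))), by decide +kernel⟩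

def B011R_002_1_272_1 :
    ∃ t, chk3 (onCell 0 67108864 0 1073741824 134217728 67108864 (corT false 3 c0N cB011R gN0q0 gN0q1 gN2q1 gN3q1 false true)) t 1 272 1 = true :=
  ⟨(T.b (T.a (T.c (T.c (T.c (T.l 204) (T.l 204)) (T.c (T.l 204) (T.l 204))) (T.c (T.a (T.l 204) (T.l 204)) (T.l 204))) (T.b (T.a (T.c (T.c (T.l 204) (T.l 204)) (T.a (T.l 460) (T.l 460))) (T.c (T.c (T.a (T.l 460) (T.l 460)) (T.a (T.l 204) (T.l 204))) (T.c (T.a (T.l 204) (T.l 204)) (T.a (T.l 204) (T.l 204))))) (T.a (T.c (T.c (T.l 204) (T.l 204)) (T.a (T.l 460) (T.l 460))) (T.b (T.c (T.c (T.a (T.l 460) (T.l 460)) (T.a (T.l 204) (T.l 204))) (T.c (T.a (T.l 204) (T.l 204)) (T.a (T.l 204) (T.l 204)))) (T.c (T.c (T.a (T.l 460) (T.l 460)) (T.a (T.l 204) (T.l 204))) (T.c (T.a (T.l 204) (T.l 204)) (T.a (T.l 204) (T.l 204)))))))) (T.a (T.b (T.a (T.c (T.c (T.c (T.l 204) (T.l 204)) (T.c (T.l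 204) (T.l 204))) (T.c (T.l 204) (T.l 204))) (T.c (T.c (T.l 204) (T.l 204)) (T.c (T.l 204) (T.l 204)))) (T.a (T.b (T.c (T.c (T.c (T.l 204) (T.l 204)) (T.c (T.l 204) (T.l 204))) (T.c (T.l 204) (T.l 204))) (T.c (T.c (T.c (T.l 204) (T.l 204)) (T.c (T.l 204) (T.l 204))) (T.c (T.l 204) (T.l 204)))) (T.c (T.c (T.l 204) (T.l 204)) (T.c (T.l 204) (T.l 204))))) (T.b (T.a (T.c (T.c (T.l 204) (T.l 204)) (T.a (T.l 460) (T.l 460))) (T.b (T.c (T.c (T.a (T.l 460) (T.l 460)) (T.a (T.l 204) (T.l 204))) (T.c (T.a (T.l 204) (T.l 204)) (T.a (T.l 204) (T.l 204)))) (T.c (T.c (T.a (T.l 460) (T.l 460)) (T.a (T.l 204) (T.l 204))) (T.c (T.a (T.l 204) (T.l 204)) (T.a (T.l 204) (T.l 204)))))) (T.a (T.c (T.c (T.l 204) (T.l 204)) (T.a (T.l 460) (T.l 460))) (T.b (T.c (T.a (T.c (T.l 460) (T.l 204)) (T.c (T.l 460) (T.l 204))) (T.a (T.c (T.l 204) (T.l 204)) (T.c (T.l 204) (T.l 204))))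 (T.l 2)))))), by decide +kernel⟩

def B011R_002_1_273_1 :
    ∃ t, chk3 (onCell 0 67108864 0 1073741824 134217728 67108864 (corT false 3 c0N cB011R gN0q0 gN0q1 gN2q1 gN3q1 false true)) t 1 273 1 = true :=
  ⟨(T.a (T.b (T.a (T.b (T.b (T.c (T.a (T.c (T.c (T.l 204) (T.l 204)) (T.c (T.l 204) (T.l 204))) (T.c (T.l 220) (T.l 204))) (T.c (T.l 204) (T.l 204))) (T.l 2)) (T.l 2)) (T.l 2)) (T.l 2)) (T.l 2)), by decide +kernel⟩

def B011R_002_1_137_1 :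
    ∃ t, chk3 (onCell 0 67108864 0 1073741824 134217728 67108864 (corT false 3 c0N cB011R gN0q0 gN0q1 gN2q1 gN3q1 false true)) t 1 137 1 = true :=
  ⟨(T.l 2), by decide +kernel⟩

def B011R_002_1_69_1 :
    ∃ t, chk3 (onCell 0 67108864 0 1073741824 134217728 67108864 (corT false 3 c0N cB011R gN0q0 gN0q1 gN2q1 gN3q1 false true)) t 1 69 1 = true :=
  ⟨(T.l 2), by decide +kernel⟩

def B011R_002_1_35_1 :
    ∃ t, chk3 (onCell 0 67108864 0 1073741824 134217728 67108864 (corT false 3 c0N cB011R gN0q0 gN0q1 gN2q1 gN3q1 false true)) t 1 35 1 = true :=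
  ⟨(T.l 2), by decide +kernel⟩

def B011R_002_1_9_1 :
    ∃ t, chk3 (onCell 0 67108864 0 1073741824 134217728 67108864 (corT false 3 c0N cB011R gN0q0 gN0q1 gN2q1 gN3q1 false true)) t 1 9 1 = true :=
  ⟨(T.l 2), by decide +kernel⟩

def B011R_002_1_5_1 :
    ∃ t, chk3 (onCell 0 67108864 0 1073741824 134217728 67108864 (corT false 3 c0N cB011R gN0q0 gN0q1 gN2q1 gN3q1 false true)) t 1 5 1 = true :=
  ⟨(T.l 2), by decide +kernel⟩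

def B011R_002_1_3_1 :
    ∃ t, chk3 (onCell 0 67108864 0 1073741824 134217728 67108864 (corT false 3 c0N cB011R gN0q0 gN0q1 gN2q1 gN3q1 false true)) t 1 3 1 = true :=
  ⟨(T.l 2), by decide +kernel⟩

theorem B011R_002_1_136_1 :
    ∃ t, chk3 (onCell 0 67108864 0 1073741824 134217728 67108864 (corT false 3 c0N cB011R gN0q0 gN0q1 gN2q1 gN3q1 false true)) t 1 136 1 = true :=
  ex3_b B011R_002_1_272_1 B011R_002_1_273_1
theorem B011R_002_1_68_1 :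
    ∃ t, chk3 (onCell 0 67108864 0 1073741824 134217728 67108864 (corT false 3 c0N cB011R gN0q0 gN0q1 gN2q1 gN3q1 false true)) t 1 68 1 = true :=
  ex3_b B011R_002_1_136_1 B011R_002_1_137_1
theorem B011R_002_1_34_1 :
    ∃ t, chk3 (onCell 0 67108864 0 1073741824 134217728 67108864 (corT false 3 c0N cB011R gN0q0 gN0q1 gN2q1 gN3q1 false true)) t 1 34 1 = true :=
  ex3_b B011R_002_1_68_1 B011R_002_1_69_1
theorem B011R_002_1_17_1 :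
    ∃ t, chk3 (onCell 0 67108864 0 1073741824 134217728 67108864 (corT false 3 c0N cB011R gN0q0 gN0q1 gN2q1 gN3q1 false true)) t 1 17 1 = true :=
  ex3_b B011R_002_1_34_1 B011R_002_1_35_1
theorem B011R_002_1_8_1 :
    ∃ t, chk3 (onCell 0 67108864 0 1073741824 134217728 67108864 (corT false 3 c0N cB011R gN0q0 gN0q1 gN2q1 gN3q1 false true)) t 1 8 1 = true :=
  ex3_b B011R_002_1_16_1 B011R_002_1_17_1
theorem B011R_002_1_4_1 :
    ∃ t, chk3 (onCell 0 67108864 0 1073741824 134217728 67108864 (corT false 3 c0N cB011R gN0q0 gN0q1 gN2q1 gN3q1 false true)) t 1 4 1 = true :=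
  ex3_b B011R_002_1_8_1 B011R_002_1_9_1
theorem B011R_002_1_2_1 :
    ∃ t, chk3 (onCell 0 67108864 0 1073741824 134217728 67108864 (corT false 3 c0N cB011R gN0q0 gN0q1 gN2q1 gN3q1 false true)) t 1 2 1 = true :=
  ex3_b B011R_002_1_4_1 B011R_002_1_5_1
theorem B011R_002 :
    ∃ t, chk3 (onCell 0 67108864 0 1073741824 134217728 67108864 (corT false 3 c0N cB011R gN0q0 gN0q1 gN2q1 gN3q1 false true)) t 1 1 1 = true :=
  ex3_b B011R_002_1_2_1 B011R_002_1_3_1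

def B011R_003_1_8_1 :
    ∃ t, chk3 (onCell 0 67108864 0 1073741824 134217728 67108864 (corT false 3 c0N cB011R gN0q0 gN0q1 gN3q1 gN4q1 true true)) t 1 8 1 = true :=
  ⟨(T.b (T.l 1) (T.a (T.c (T.c (T.a (T.c (T.a (T.c (T.l 204) (T.l 204)) (T.l 204)) (T.b (T.a (T.l 204) (T.l 204)) (T.l 204))) (T.c (T.l 204) (T.l 204))) (T.a (T.c (T.b (T.a (T.l 204) (T.l 204)) (T.l 204)) (T.b (T.l 204) (T.l 204))) (T.b (T.l 204) (T.l 204)))) (T.c (T.a (T.b (T.c (T.l 204) (T.l 204)) (T.a (T.l 204) (T.l 204))) (T.b (T.l 204) (T.l 204))) (T.b (T.a (T.c (T.l 204) (T.l 204)) (T.l 204)) (T.l 204)))) (T.a (T.c (T.c (T.b (T.l 204) (T.l 204)) (T.l 460)) (T.c (T.l 204) (T.l 204))) (T.c (T.c (T.a (T.c (T.l 460) (T.l 460)) (T.c (T.l 460) (T.l 460))) (T.a (T.a (T.l 460) (T.l 460)) (T.b (T.l 460) (T.l 204)))) (T.a (T.c (T.b (T.l 460) (T.l 204)) (T.b (T.l 460) (T.l 204))) (T.c (T.b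 (T.l 460) (T.l 204)) (T.l 476))))))), by decide +kernel⟩

def B011R_003_1_18_1 :
    ∃ t, chk3 (onCell 0 67108864 0 1073741824 134217728 67108864 (corT false 3 c0N cB011R gN0q0 gN0q1 gN3q1 gN4q1 true true)) t 1 18 1 = true :=
  ⟨(T.a (T.c (T.c (T.a (T.c (T.a (T.b (T.l 204) (T.l 204)) (T.l 204)) (T.b (T.l 204) (T.l 204))) (T.b (T.l 220) (T.l 220))) (T.a (T.c (T.l 204) (T.l 204)) (T.l 204))) (T.c (T.b (T.l 204) (T.l 204)) (T.l 220))) (T.a (T.c (T.c (T.l 204) (T.l 204)) (T.b (T.l 204) (T.l 204))) (T.c (T.a (T.c (T.b (T.l 476) (T.l 220)) (T.l 476)) (T.c (T.b (T.l 220) (T.l 204)) (T.l 220))) (T.a (T.c (T.l 220) (T.l 204)) (T.c (T.l 204) (T.l 204)))))), by decide +kernel⟩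

def B011R_003_1_152_1 :
    ∃ t, chk3 (onCell 0 67108864 0 1073741824 134217728 67108864 (corT false 3 c0N cB011R gN0q0 gN0q1 gN3q1 gN4q1 true true)) t 1 152 1 = true :=
  ⟨(T.a (T.c (T.c (T.c (T.l 204) (T.l 204)) (T.l 204)) (T.l 204)) (T.a (T.c (T.c (T.l 204) (T.l 204)) (T.l 204)) (T.c (T.a (T.c (T.l 204) (T.l 204)) (T.c (T.l 204) (T.l 204))) (T.a (T.l 16) (T.l 204))))), by decide +kernel⟩

def B011R_003_1_153_1 :
    ∃ t, chk3 (onCell 0 67108864 0 1073741824 134217728 67108864 (corT false 3 c0N cB011R gN0q0 gN0q1 gN3q1 gN4q1 true true)) t 1 153 1 = true :=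
  ⟨(T.b (T.b (T.a (T.c (T.c (T.c (T.l 204) (T.l 204)) (T.l 204)) (T.l 204)) (T.b (T.a (T.c (T.c (T.l 204) (T.l 204)) (T.l 204)) (T.c (T.a (T.c (T.l 204) (T.l 204)) (T.c (T.l 204) (T.l 204))) (T.a (T.l 0) (T.l 204)))) (T.a (T.c (T.c (T.l 204) (T.l 204)) (T.l 204)) (T.b (T.c (T.a (T.c (T.l 204) (T.l 204)) (T.c (T.l 204) (T.l 204))) (T.a (T.l 0) (T.l 0))) (T.c (T.a (T.c (T.l 204) (T.l 204)) (T.c (T.l 204) (T.l 204))) (T.a (T.l 0) (T.l 0))))))) (T.a (T.c (T.c (T.c (T.l 204) (T.l 204)) (T.l 204)) (T.l 204)) (T.b (T.a (T.c (T.c (T.l 204) (T.l 204)) (T.l 204)) (T.b (T.c (T.a (T.c (T.l 204) (T.l 204)) (T.c (T.l 204) (T.l 204))) (T.a (T.l 0) (T.l 0))) (T.c (T.a (T.c (T.l 204) (T.l 204)) (T.c (T.l 204) (T.l 204))) (T.a (T.l 0) (T.l 0))))) (T.a (T.c (T.c (T.l 204) (T.l 204)) (T.l 204)) (T.b (T.c (T.a (T.c (T.l 204) (T.l 204)) (T.c (T.l 204) (T.l 204))) (T.a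 (T.l 0) (T.l 0))) (T.c (T.a (T.c (T.l 204) (T.l 204)) (T.c (T.l 204) (T.l 204))) (T.a (T.l 0) (T.l 0)))))))) (T.b (T.a (T.c (T.c (T.c (T.l 204) (T.l 204)) (T.l 204)) (T.l 204)) (T.b (T.a (T.c (T.c (T.l 204) (T.l 204)) (T.l 204)) (T.b (T.c (T.a (T.c (T.l 204) (T.l 204)) (T.c (T.l 204) (T.l 204))) (T.a (T.l 0) (T.l 0))) (T.c (T.a (T.c (T.l 204) (T.l 204)) (T.c (T.l 204) (T.l 204))) (T.a (T.l 0) (T.l 0))))) (T.b (T.b (T.a (T.c (T.a (T.l 220) (T.l 204)) (T.l 204)) (T.c (T.a (T.c (T.l 204) (T.l 204)) (T.c (T.l 204) (T.l 204))) (T.a (T.l 0) (T.l 0)))) (T.l 2)) (T.l 2)))) (T.l 2))), by decide +kernel⟩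

def B011R_003_1_77_1 :
    ∃ t, chk3 (onCell 0 67108864 0 1073741824 134217728 67108864 (corT false 3 c0N cB011R gN0q0 gN0q1 gN3q1 gN4q1 true true)) t 1 77 1 = true :=
  ⟨(T.l 2), by decide +kernel⟩

def B011R_003_1_39_1 :
    ∃ t, chk3 (onCell 0 67108864 0 1073741824 134217728 67108864 (corT false 3 c0N cB011R gN0q0 gN0q1 gN3q1 gN4q1 true true)) t 1 39 1 = true :=
  ⟨(T.l 2), by decide +kernel⟩

def B011R_003_1_5_1 :
    ∃ t, chk3 (onCell 0 67108864 0 1073741824 134217728 67108864 (corT false 3 c0N cB011R gN0q0 gN0q1 gN3q1 gN4q1 true true)) t 1 5 1 = true :=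
  ⟨(T.l 2), by decide +kernel⟩

def B011R_003_1_3_1 :
    ∃ t, chk3 (onCell 0 67108864 0 1073741824 134217728 67108864 (corT false 3 c0N cB011R gN0q0 gN0q1 gN3q1 gN4q1 true true)) t 1 3 1 = true :=
  ⟨(T.l 2), by decide +kernel⟩

theorem B011R_003_1_76_1 :
    ∃ t, chk3 (onCell 0 67108864 0 1073741824 134217728 67108864 (corT false 3 c0N cB011R gN0q0 gN0q1 gN3q1 gN4q1 true true)) t 1 76 1 = true :=
  ex3_b B011R_003_1_152_1 B011R_003_1_153_1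
theorem B011R_003_1_38_1 :
    ∃ t, chk3 (onCell 0 67108864 0 1073741824 134217728 67108864 (corT false 3 c0N cB011R gN0q0 gN0q1 gN3q1 gN4q1 true true)) t 1 38 1 = true :=
  ex3_b B011R_003_1_76_1 B011R_003_1_77_1
theorem B011R_003_1_19_1 :
    ∃ t, chk3 (onCell 0 67108864 0 1073741824 134217728 67108864 (corT false 3 c0N cB011R gN0q0 gN0q1 gN3q1 gN4q1 true true)) t 1 19 1 = true :=
  ex3_b B011R_003_1_38_1 B011R_003_1_39_1
theorem B011R_003_1_9_1 :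
    ∃ t, chk3 (onCell 0 67108864 0 1073741824 134217728 67108864 (corT false 3 c0N cB011R gN0q0 gN0q1 gN3q1 gN4q1 true true)) t 1 9 1 = true :=
  ex3_b B011R_003_1_18_1 B011R_003_1_19_1
theorem B011R_003_1_4_1 :
    ∃ t, chk3 (onCell 0 67108864 0 1073741824 134217728 67108864 (corT false 3 c0N cB011R gN0q0 gN0q1 gN3q1 gN4q1 true true)) t 1 4 1 = true :=
  ex3_b B011R_003_1_8_1 B011R_003_1_9_1
theorem B011R_003_1_2_1 :
    ∃ t, chk3 (onCell 0 67108864 0 1073741824 134217728 67108864 (corT false 3 c0N cB011R gN0q0 gN0q1 gN3q1 gN4q1 true true)) t 1 2 1 = true :=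
  ex3_b B011R_003_1_4_1 B011R_003_1_5_1
theorem B011R_003 :
    ∃ t, chk3 (onCell 0 67108864 0 1073741824 134217728 67108864 (corT false 3 c0N cB011R gN0q0 gN0q1 gN3q1 gN4q1 true true)) t 1 1 1 = true :=
  ex3_b B011R_003_1_2_1 B011R_003_1_3_1

end Pool.Agent.Strip051.G.I1_8_3_16.Tab.CN
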