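import Pool.Agent.Strip051.G.I1_8_3_16.Gn
import Pool.Agent.Strip051.PB.Corns

/-! # Certificates of the aligned corners (generated) -/

set_option linter.all false

namespace Pool.Agent.Strip051.G.I1_8_3_16.Tab.CN

open Pool.Agent.Strip051.PB

def B011R_004_1_4_1 :
    ∃ t, chk3 (onCell 0 67108864 0 1073741824 134217728 67108864 (corT false 3 c0N cB011R gN0q0 gN0q1 gN4q1 gN5q1 true true)) t 1 4 1 = true :=
  ⟨(T.b (T.l 1) (T.b (T.l 1) (T.a (T.c (T.c (T.a (T.c (T.b (T.a (T.l 204) (T.l 204)) (T.l 204)) (T.l 204)) (T.b (T.l 204) (T.l 204))) (T.a (T.b (T.l 204) (T.l 204)) (T.l 204))) (T.c (T.a (T.l 204) (T.l 204)) (T.l 0))) (T.a (T.c (T.c (T.l 204) (T.l 204)) (T.l 0)) (T.c (T.c (T.a (T.l 204) (T.l 204)) (T.b (T.l 204) (T.l 0))) (T.a (T.l 16) (T.l 0))))))), by decide +kernel⟩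

def B011R_004_1_5_1 :
    ∃ t, chk3 (onCell 0 67108864 0 1073741824 134217728 67108864 (corT false 3 c0N cB011R gN0q0 gN0q1 gN4q1 gN5q1 true true)) t 1 5 1 = true :=
  ⟨(T.b (T.a (T.b (T.c (T.c (T.a (T.c (T.l 204) (T.l 204)) (T.b (T.l 204) (T.l 204))) (T.b (T.l 204) (T.l 0))) (T.c (T.a (T.l 0) (T.l 0)) (T.a (T.l 0) (T.l 0)))) (T.b (T.b (T.c (T.a (T.l 0) (T.l 0)) (T.l 0)) (T.b (T.a (T.b (T.l 0) (T.b (T.l 0) (T.a (T.b (T.c (T.l 0) (T.l 0)) (T.l 2)) (T.c (T.l 0) (T.l 0))))) (T.c (T.l 0) (T.l 0))) (T.a (T.l 2) (T.b (T.b (T.a (T.l 2) (T.b (T.l 816) (T.l 2))) (T.l 2)) (T.l 2))))) (T.l 2))) (T.a (T.b (T.c (T.c (T.l 0) (T.l 0)) (T.b (T.l 0) (T.l 0))) (T.b (T.b (T.c (T.l 0) (T.l 0)) (T.b (T.c (T.l 0) (T.l 0)) (T.b (T.b (T.c (T.l 816) (T.l 816)) (T.a (T.l 2) (T.b (T.l 816) (T.l 2)))) (T.l 2)))) (T.l 2))) (T.b (T.c (T.a (T.c (T.l 0) (T.l 0)) (T.c (T.l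 0) (T.l 0))) (T.a (T.b (T.l 0) (T.l 0)) (T.b (T.l 0) (T.l 0)))) (T.b (T.a (T.c (T.b (T.c (T.l 0) (T.l 0)) (T.b (T.c (T.l 0) (T.l 0)) (T.b (T.a (T.c (T.l 816) (T.l 816)) (T.l 816)) (T.l 2)))) (T.b (T.l 0) (T.b (T.c (T.l 0) (T.l 0)) (T.b (T.a (T.c (T.l 816) (T.l 816)) (T.l 816)) (T.l 2))))) (T.c (T.b (T.l 0) (T.b (T.l 0) (T.b (T.c (T.l 0) (T.l 0)) (T.a (T.l 2) (T.b (T.b (T.l 816) (T.l 2)) (T.l 2)))))) (T.b (T.l 0) (T.b (T.l 0) (T.b (T.c (T.l 0) (T.l 0)) (T.a (T.l 2) (T.b (T.b (T.l 816) (T.l 2)) (T.l 2)))))))) (T.l 2))))) (T.l 2)), by decide +kernel⟩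

def B011R_004_1_3_1 :
    ∃ t, chk3 (onCell 0 67108864 0 1073741824 134217728 67108864 (corT false 3 c0N cB011R gN0q0 gN0q1 gN4q1 gN5q1 true true)) t 1 3 1 = true :=
  ⟨(T.l 2), by decide +kernel⟩

theorem B011R_004_1_2_1 :
    ∃ t, chk3 (onCell 0 67108864 0 1073741824 134217728 67108864 (corT false 3 c0N cB011R gN0q0 gN0q1 gN4q1 gN5q1 true true)) t 1 2 1 = true :=
  ex3_b B011R_004_1_4_1 B011R_004_1_5_1
theorem B011R_004 :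
    ∃ t, chk3 (onCell 0 67108864 0 1073741824 134217728 67108864 (corT false 3 c0N cB011R gN0q0 gN0q1 gN4q1 gN5q1 true true)) t 1 1 1 = true :=
  ex3_b B011R_004_1_2_1 B011R_004_1_3_1

def B011R_102 :
    ∃ t, chk3 (onCell 0 67108864 0 1073741824 134217728 67108864 (corT false 3 c0N cB011R gN1q0 gN0q1 gN2q1 gN3q1 false true)) t 1 1 1 = true :=
  ⟨(T.l 2), by decide +kernel⟩

def B011R_103 :
    ∃ t, chk3 (onCell 0 67108864 0 1073741824 134217728 67108864 (corT false 3 c0N cB011R gN1q0 gN0q1 gN3q1 gN4q1 true true)) t 1 1 1 = true :=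
  ⟨(T.l 2), by decide +kernel⟩

def B011R_104 :
    ∃ t, chk3 (onCell 0 67108864 0 1073741824 134217728 67108864 (corT false 3 c0N cB011R gN1q0 gN0q1 gN4q1 gN5q1 true true)) t 1 1 1 = true :=
  ⟨(T.l 2), by decide +kernel⟩

def B011R_202 :
    ∃ t, chk3 (onCell 0 67108864 0 1073741824 134217728 67108864 (corT false 3 c0N cB011R gN2q0 gN0q1 gN2q1 gN3q1 false true)) t 1 1 1 = true :=
  ⟨(T.l 2), by decide +kernel⟩

def B011R_203 :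
    ∃ t, chk3 (onCell 0 67108864 0 1073741824 134217728 67108864 (corT false 3 c0N cB011R gN2q0 gN0q1 gN3q1 gN4q1 true true)) t 1 1 1 = true :=
  ⟨(T.l 2), by decide +kernel⟩

def B011R_204 :
    ∃ t, chk3 (onCell 0 67108864 0 1073741824 134217728 67108864 (corT false 3 c0N cB011R gN2q0 gN0q1 gN4q1 gN5q1 true true)) t 1 1 1 = true :=
  ⟨(T.l 2), by decide +kernel⟩

def B012E_000_1_2_1 :
    ∃ t, chk3 (onCell 0 67108864 0 1073741824 134217728 67108864 (corT false 3 c0N cB012E gN0q0 gN0q2 gN0q1 gN1q1 true false)) t 1 2 1 = true :=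
  ⟨(T.b (T.l 1) (T.b (T.l 1) (T.b (T.l 1) (T.b (T.l 1) (T.a (T.b (T.l 1) (T.a (T.b (T.l 1) (T.a (T.b (T.l 1) (T.c (T.l 0) (T.l 0))) (T.a (T.b (T.b (T.l 1) (T.l 0)) (T.l 0)) (T.l 0)))) (T.b (T.b (T.a (T.l 1) (T.a (T.l 1) (T.b (T.l 1) (T.l 816)))) (T.a (T.a (T.l 1) (T.b (T.l 1) (T.l 0))) (T.l 0))) (T.c (T.l 0) (T.l 0))))) (T.a (T.b (T.a (T.l 1) (T.b (T.l 1) (T.b (T.l 1) (T.c (T.c (T.a (T.a (T.l 1) (T.l 816)) (T.l 816)) (T.l 816)) (T.l 0))))) (T.a (T.c (T.c (T.l 0) (T.l 0)) (T.l 0)) (T.l 0))) (T.b (T.b (T.a (T.l 1) (T.a (T.l 1) (T.a (T.l 1) (T.b (T.l 1) (T.a (T.l 1) (T.l 816)))))) (T.a (T.b (T.a (T.l 1) (T.c (T.l 816) (T.l 816))) (T.l 0)) (T.c (T.l 0) (T.l 0)))) (T.a (T.l 0) (T.c (T.l 0) (T.l 0)))))))))), by decide +kernel⟩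

def B012E_000_4_3_1 :
    ∃ t, chk3 (onCell 0 67108864 0 1073741824 134217728 67108864 (corT false 3 c0N cB012E gN0q0 gN0q2 gN0q1 gN1q1 true false)) t 4 3 1 = true :=
  ⟨(T.c (T.b (T.b (T.b (T.c (T.l 0) (T.l 0)) (T.c (T.b (T.l 204) (T.l 204)) (T.l 204))) (T.c (T.b (T.a (T.l 204) (T.l 204)) (T.a (T.b (T.l 204) (T.l 204)) (T.l 204))) (T.a (T.b (T.l 204) (T.l 204)) (T.l 460)))) (T.b (T.c (T.a (T.b (T.c (T.l 204) (T.l 204)) (T.c (T.b (T.l 204) (T.l 204)) (T.l 204))) (T.b (T.l 204) (T.l 204))) (T.a (T.a (T.c (T.l 204) (T.l 204)) (T.l 476)) (T.b (T.l 204) (T.l 204)))) (T.c (T.a (T.c (T.a (T.a (T.c (T.l 204) (T.l 204)) (T.l 204)) (T.l 204)) (T.a (T.b (T.l 204) (T.b (T.l 204) (T.l 204))) (T.l 204))) (T.b (T.l 476) (T.l 476))) (T.a (T.b (T.c (T.b (T.l 204) (T.l 204)) (T.l 204)) (T.a (T.c (T.l 204) (T.l 204)) (T.l 476))) (T.b (T.l 204) (T.l 204))))))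 (T.b (T.b (T.b (T.b (T.l 0) (T.l 204)) (T.c (T.l 204) (T.l 204))) (T.b (T.c (T.b (T.l 204) (T.l 204)) (T.l 204)) (T.c (T.b (T.l 204) (T.l 204)) (T.b (T.l 204) (T.l 204))))) (T.b (T.c (T.a (T.b (T.l 204) (T.b (T.l 204) (T.l 204))) (T.l 460)) (T.a (T.b (T.l 204) (T.l 204)) (T.l 204))) (T.c (T.a (T.a (T.c (T.l 204) (T.l 204)) (T.l 476)) (T.l 476)) (T.a (T.a (T.b (T.l 204) (T.l 204)) (T.l 204)) (T.l 460)))))), by decide +kernel⟩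

def B012E_000_5_3_1 :
    ∃ t, chk3 (onCell 0 67108864 0 1073741824 134217728 67108864 (corT false 3 c0N cB012E gN0q0 gN0q2 gN0q1 gN1q1 true false)) t 5 3 1 = true :=
  ⟨(T.b (T.c (T.b (T.b (T.b (T.l 0) (T.l 204)) (T.c (T.l 204) (T.l 204))) (T.b (T.c (T.l 204) (T.l 204)) (T.c (T.l 204) (T.l 204)))) (T.b (T.b (T.b (T.l 0) (T.l 204)) (T.b (T.l 204) (T.l 204))) (T.b (T.b (T.l 204) (T.l 204)) (T.b (T.l 204) (T.l 460))))) (T.a (T.c (T.c (T.b (T.l 460) (T.l 476)) (T.b (T.l 204) (T.l 204))) (T.b (T.b (T.l 460) (T.l 476)) (T.b (T.l 476) (T.l 476)))) (T.c (T.b (T.b (T.l 476) (T.l 476)) (T.b (T.l 476) (T.b (T.l 476) (T.l 476)))) (T.b (T.b (T.l 204) (T.l 204)) (T.b (T.l 204) (T.l 476)))))), by decide +kernel⟩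

def B012E_000_3_3_1 :
    ∃ t, chk3 (onCell 0 67108864 0 1073741824 134217728 67108864 (corT false 3 c0N cB012E gN0q0 gN0q2 gN0q1 gN1q1 true false)) t 3 3 1 = true :=
  ⟨(T.b (T.a (T.b (T.c (T.b (T.b (T.l 0) (T.l 204)) (T.b (T.l 204) (T.l 204))) (T.b (T.l 0) (T.l 204))) (T.c (T.a (T.b (T.l 204) (T.l 204)) (T.b (T.l 460) (T.l 460))) (T.a (T.b (T.l 204) (T.l 204)) (T.b (T.l 204) (T.l 204))))) (T.b (T.b (T.c (T.a (T.b (T.l 204) (T.l 204)) (T.b (T.l 204) (T.l 204))) (T.a (T.l 204) (T.l 204))) (T.c (T.a (T.l 204) (T.l 204)) (T.b (T.l 460) (T.l 460)))) (T.a (T.b (T.c (T.l 204) (T.l 204)) (T.c (T.b (T.l 204) (T.l 476)) (T.b (T.l 204) (T.l 460)))) (T.b (T.c (T.b (T.l 476) (T.l 460)) (T.b (T.l 460) (T.l 204))) (T.c (T.b (T.l 460) (T.l 460)) (T.b (T.l 204) (T.l 204))))))) (T.a (T.a (T.c (T.b (T.b (T.l 476) (T.l 476)) (T.b (T.l 476) (T.l 476))) (T.b (T.b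 (T.l 460) (T.l 460)) (T.b (T.l 460) (T.l 476)))) (T.b (T.b (T.c (T.l 460) (T.l 204)) (T.c (T.a (T.l 204) (T.l 476)) (T.b (T.l 204) (T.l 476)))) (T.c (T.b (T.c (T.l 476) (T.l 476)) (T.b (T.l 476) (T.l 476))) (T.b (T.b (T.l 476) (T.l 476)) (T.b (T.l 476) (T.l 476)))))) (T.b (T.a (T.c (T.b (T.b (T.l 476) (T.l 476)) (T.b (T.l 476) (T.l 476))) (T.b (T.b (T.l 460) (T.l 460)) (T.b (T.l 460) (T.l 460)))) (T.c (T.b (T.b (T.l 460) (T.l 460)) (T.b (T.l 460) (T.l 460))) (T.b (T.b (T.l 204) (T.l 204)) (T.l 476)))) (T.a (T.c (T.b (T.b (T.l 476) (T.l 476)) (T.b (T.l 476) (T.l 476))) (T.b (T.b (T.l 460) (T.l 460)) (T.l 476))) (T.c (T.b (T.l 476) (T.l 476)) (T.b (T.l 476) (T.l 476))))))), by decide +kernel⟩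

theorem B012E_000_2_3_1 :
    ∃ t, chk3 (onCell 0 67108864 0 1073741824 134217728 67108864 (corT false 3 c0N cB012E gN0q0 gN0q2 gN0q1 gN1q1 true false)) t 2 3 1 = true :=
  ex3_a B012E_000_4_3_1 B012E_000_5_3_1
theorem B012E_000_1_3_1 :
    ∃ t, chk3 (onCell 0 67108864 0 1073741824 134217728 67108864 (corT false 3 c0N cB012E gN0q0 gN0q2 gN0q1 gN1q1 true false)) t 1 3 1 = true :=
  ex3_a B012E_000_2_3_1 B012E_000_3_3_1
theorem B012E_000 :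
    ∃ t, chk3 (onCell 0 67108864 0 1073741824 134217728 67108864 (corT false 3 c0N cB012E gN0q0 gN0q2 gN0q1 gN1q1 true false)) t 1 1 1 = true :=
  ex3_b B012E_000_1_2_1 B012E_000_1_3_1

def B012E_010_1_2_1 :
    ∃ t, chk3 (onCell 0 67108864 0 1073741824 134217728 67108864 (corT false 3 c0N cB012E gN0q0 gN1q2 gN0q1 gN1q1 true false)) t 1 2 1 = true :=
  ⟨(T.l 1), by decide +kernel⟩

def B012E_010_1_6_1 :
    ∃ t, chk3 (onCell 0 67108864 0 1073741824 134217728 67108864 (corT false 3 c0N cB012E gN0q0 gN1q2 gN0q1 gN1q1 true false)) t 1 6 1 = true :=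
  ⟨(T.b (T.l 1) (T.a (T.c (T.b (T.b (T.a (T.l 1) (T.a (T.l 1) (T.l 1))) (T.c (T.a (T.l 816) (T.l 816)) (T.l 816))) (T.c (T.l 816) (T.l 816))) (T.b (T.b (T.a (T.l 1) (T.a (T.l 1) (T.l 1))) (T.c (T.l 816) (T.l 816))) (T.a (T.l 816) (T.l 816)))) (T.a (T.a (T.c (T.b (T.c (T.b (T.l 884) (T.l 816)) (T.b (T.l 884) (T.l 816))) (T.l 816)) (T.b (T.c (T.l 884) (T.l 884)) (T.l 816))) (T.c (T.b (T.b (T.b (T.l 1) (T.c (T.l 884) (T.l 884))) (T.c (T.l 884) (T.l 880))) (T.c (T.l 884) (T.l 880))) (T.b (T.b (T.b (T.l 1) (T.c (T.l 880) (T.l 816))) (T.b (T.l 884) (T.l 816))) (T.b (T.l 816) (T.l 816))))) (T.c (T.b (T.a (T.b (T.b (T.l 1) (T.c (T.l 884) (T.l 884))) (T.c (T.l 884) (T.l 816))) (T.b (T.b (T.l 1) (T.c (T.l 884) (T.l 820))) (T.c (T.l 820) (T.l 816)))) (T.a (T.c (T.l 816) (T.l 816)) (T.b (T.l 884) (T.l 816)))) (T.b (T.a (T.b (T.b (T.l 1) (T.c (T.l 816) (T.l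 816))) (T.b (T.l 884) (T.l 816))) (T.b (T.b (T.l 1) (T.c (T.l 816) (T.l 816))) (T.b (T.l 820) (T.l 816)))) (T.a (T.b (T.l 816) (T.l 816)) (T.b (T.l 816) (T.l 816)))))))), by decide +kernel⟩

def B012E_010_1_7_1 :
    ∃ t, chk3 (onCell 0 67108864 0 1073741824 134217728 67108864 (corT false 3 c0N cB012E gN0q0 gN1q2 gN0q1 gN1q1 true false)) t 1 7 1 = true :=
  ⟨(T.a (T.a (T.c (T.c (T.l 0) (T.l 0)) (T.b (T.l 0) (T.l 0))) (T.a (T.c (T.b (T.l 0) (T.l 0)) (T.l 0)) (T.b (T.c (T.l 0) (T.l 816)) (T.c (T.b (T.l 0) (T.l 0)) (T.b (T.l 0) (T.l 0)))))) (T.a (T.b (T.c (T.a (T.b (T.b (T.l 816) (T.l 816)) (T.l 0)) (T.b (T.b (T.l 816) (T.l 816)) (T.l 0))) (T.a (T.b (T.l 0) (T.l 0)) (T.b (T.l 816) (T.l 0)))) (T.c (T.a (T.b (T.l 0) (T.l 0)) (T.l 16)) (T.a (T.l 0) (T.l 0)))) (T.b (T.c (T.b (T.a (T.l 816) (T.l 816)) (T.b (T.l 0) (T.l 0))) (T.b (T.b (T.l 816) (T.l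 0)) (T.l 4))) (T.c (T.a (T.l 0) (T.l 0)) (T.b (T.l 0) (T.l 0)))))), by decide +kernel⟩

theorem B012E_010_1_3_1 :
    ∃ t, chk3 (onCell 0 67108864 0 1073741824 134217728 67108864 (corT false 3 c0N cB012E gN0q0 gN1q2 gN0q1 gN1q1 true false)) t 1 3 1 = true :=
  ex3_b B012E_010_1_6_1 B012E_010_1_7_1
theorem B012E_010 :
    ∃ t, chk3 (onCell 0 67108864 0 1073741824 134217728 67108864 (corT false 3 c0N cB012E gN0q0 gN1q2 gN0q1 gN1q1 true false)) t 1 1 1 = true :=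
  ex3_b B012E_010_1_2_1 B012E_010_1_3_1

def B012E_020_1_2_1 :
    ∃ t, chk3 (onCell 0 67108864 0 1073741824 134217728 67108864 (corT false 3 c0N cB012E gN0q0 gN2q2 gN0q1 gN1q1 true false)) t 1 2 1 = true :=
  ⟨(T.l 1), by decide +kernel⟩

def B012E_020_1_6_1 :
    ∃ t, chk3 (onCell 0 67108864 0 1073741824 134217728 67108864 (corT false 3 c0N cB012E gN0q0 gN2q2 gN0q1 gN1q1 true false)) t 1 6 1 = true :=
  ⟨(T.l 1), by decide +kernel⟩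

def B012E_020_1_14_1 :
    ∃ t, chk3 (onCell 0 67108864 0 1073741824 134217728 67108864 (corT false 3 c0N cB012E gN0q0 gN2q2 gN0q1 gN1q1 true false)) t 1 14 1 = true :=
  ⟨(T.l 1), by decide +kernel⟩

def B012E_020_1_120_1 :
    ∃ t, chk3 (onCell 0 67108864 0 1073741824 134217728 67108864 (corT false 3 c0N cB012E gN0q0 gN2q2 gN0q1 gN1q1 true false)) t 1 120 1 = true :=
  ⟨(T.l 1), by decide +kernel⟩

def B012E_020_1_242_1 :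
    ∃ t, chk3 (onCell 0 67108864 0 1073741824 134217728 67108864 (corT false 3 c0N cB012E gN0q0 gN2q2 gN0q1 gN1q1 true false)) t 1 242 1 = true :=
  ⟨(T.l 1), by decide +kernel⟩

def B012E_020_2_243_1 :
    ∃ t, chk3 (onCell 0 67108864 0 1073741824 134217728 67108864 (corT false 3 c0N cB012E gN0q0 gN2q2 gN0q1 gN1q1 true false)) t 2 243 1 = true :=
  ⟨(T.a (T.l 1) (T.a (T.l 1) (T.b (T.l 1) (T.b (T.l 1) (T.b (T.l 1) (T.a (T.b (T.l 1) (T.c (T.c (T.l 816) (T.l 816)) (T.c (T.l 816) (T.l 816)))) (T.c (T.c (T.l 880) (T.l 816)) (T.c (T.l 816) (T.l 816))))))))), by decide +kernel⟩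

def B012E_020_3_243_1 :
    ∃ t, chk3 (onCell 0 67108864 0 1073741824 134217728 67108864 (corT false 3 c0N cB012E gN0q0 gN2q2 gN0q1 gN1q1 true false)) t 3 243 1 = true :=
  ⟨(T.b (T.a (T.l 1) (T.b (T.l 1) (T.a (T.a (T.l 1) (T.b (T.l 1) (T.b (T.l 1) (T.c (T.c (T.l 884) (T.l 816)) (T.c (T.l 816) (T.l 816)))))) (T.c (T.c (T.a (T.l 884) (T.l 884)) (T.l 884)) (T.c (T.l 880) (T.l 816)))))) (T.a (T.b (T.a (T.a (T.l 1) (T.a (T.l 1) (T.a (T.l 1) (T.a (T.l 1) (T.b (T.l 1) (T.a (T.l 1) (T.b (T.l 1) (T.b (T.l 1) (T.b (T.l 1) (T.b (T.l 1) (T.c (T.c (T.l 880) (T.l 816)) (T.c (T.l 816) (T.l 816))))))))))))) (T.b (T.a (T.l 1) (T.a (T.l 1) (T.b (T.l 1) (T.b (T.l 1) (T.c (T.c (T.l 880) (T.l 816)) (T.c (T.l 816) (T.l 816))))))) (T.a (T.b (T.a (T.l 1) (T.a (T.l 1) (T.b (T.l 1) (T.b (T.l 1) (T.c (T.c (T.l 880) (T.l 816)) (T.c (T.l 816) (T.l 816))))))) (T.c (T.c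 (T.l 880) (T.l 816)) (T.c (T.l 816) (T.l 816)))) (T.c (T.c (T.l 880) (T.l 816)) (T.c (T.l 816) (T.l 816)))))) (T.a (T.b (T.a (T.b (T.l 1) (T.c (T.c (T.c (T.l 816) (T.l 816)) (T.l 816)) (T.c (T.l 816) (T.l 816)))) (T.b (T.c (T.c (T.l 880) (T.l 816)) (T.c (T.l 816) (T.l 816))) (T.c (T.c (T.l 880) (T.l 816)) (T.c (T.l 816) (T.l 816))))) (T.a (T.c (T.c (T.c (T.l 816) (T.l 816)) (T.l 816)) (T.c (T.l 816) (T.l 816))) (T.c (T.c (T.l 880) (T.l 816)) (T.c (T.l 816) (T.l 816))))) (T.c (T.c (T.a (T.l 880) (T.l 880)) (T.l 880)) (T.c (T.l 816) (T.l 816))))) (T.c (T.c (T.a (T.a (T.l 884) (T.l 884)) (T.a (T.l 884) (T.l 884))) (T.a (T.l 880) (T.l 884))) (T.c (T.a (T.l 816) (T.l 816)) (T.a (T.l 816) (T.l 816)))))), by decide +kernel⟩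

def B012E_020_1_61_1 :
    ∃ t, chk3 (onCell 0 67108864 0 1073741824 134217728 67108864 (corT false 3 c0N cB012E gN0q0 gN2q2 gN0q1 gN1q1 true false)) t 1 61 1 = true :=
  ⟨(T.a (T.c (T.c (T.c (T.l 816) (T.l 816)) (T.a (T.l 816) (T.l 816))) (T.c (T.l 816) (T.l 816))) (T.a (T.c (T.c (T.a (T.c (T.b (T.l 880) (T.l 816)) (T.l 880)) (T.c (T.l 816) (T.l 816))) (T.a (T.c (T.l 880) (T.l 880)) (T.b (T.l 880) (T.l 816)))) (T.a (T.c (T.a (T.l 816) (T.l 816)) (T.b (T.l 880) (T.l 816))) (T.c (T.l 880) (T.l 816)))) (T.c (T.c (T.a (T.a (T.l 884) (T.l 884)) (T.c (T.l 880) (T.l 880))) (T.a (T.l 884) (T.l 884))) (T.c (T.a (T.l 816) (T.l 884)) (T.a (T.l 816) (T.l 816)))))), by decide +kernel⟩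

def B012E_020_1_31_1 :
    ∃ t, chk3 (onCell 0 67108864 0 1073741824 134217728 67108864 (corT false 3 c0N cB012E gN0q0 gN2q2 gN0q1 gN1q1 true false)) t 1 31 1 = true :=
  ⟨(T.a (T.a (T.c (T.c (T.l 816) (T.l 816)) (T.l 816)) (T.c (T.a (T.c (T.l 816) (T.l 816)) (T.c (T.a (T.l 816) (T.l 880)) (T.b (T.l 816) (T.l 816)))) (T.a (T.b (T.l 816) (T.l 816)) (T.c (T.b (T.l 816) (T.l 816)) (T.l 880))))) (T.a (T.c (T.c (T.a (T.a (T.l 880) (T.l 816)) (T.b (T.l 816) (T.l 816))) (T.a (T.b (T.l 816) (T.l 816)) (T.l 816))) (T.a (T.c (T.l 880) (T.l 816)) (T.c (T.l 816) (T.l 816)))) (T.c (T.c (T.a (T.l 884) (T.b (T.l 880) (T.l 816))) (T.a (T.l 816) (T.l 880))) (T.c (T.a (T.l 816) (T.l 816)) (T.b (T.l 884) (T.l 816)))))), by decide +kernel⟩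

theorem B012E_020_1_243_1 :
    ∃ t, chk3 (onCell 0 67108864 0 1073741824 134217728 67108864 (corT false 3 c0N cB012E gN0q0 gN2q2 gN0q1 gN1q1 true false)) t 1 243 1 = true :=
  ex3_a B012E_020_2_243_1 B012E_020_3_243_1
theorem B012E_020_1_121_1 :
    ∃ t, chk3 (onCell 0 67108864 0 1073741824 134217728 67108864 (corT false 3 c0N cB012E gN0q0 gN2q2 gN0q1 gN1q1 true false)) t 1 121 1 = true :=
  ex3_b B012E_020_1_242_1 B012E_020_1_243_1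
theorem B012E_020_1_60_1 :
    ∃ t, chk3 (onCell 0 67108864 0 1073741824 134217728 67108864 (corT false 3 c0N cB012E gN0q0 gN2q2 gN0q1 gN1q1 true false)) t 1 60 1 = true :=
  ex3_b B012E_020_1_120_1 B012E_020_1_121_1
theorem B012E_020_1_30_1 :
    ∃ t, chk3 (onCell 0 67108864 0 1073741824 134217728 67108864 (corT false 3 c0N cB012E gN0q0 gN2q2 gN0q1 gN1q1 true false)) t 1 30 1 = true :=
  ex3_b B012E_020_1_60_1 B012E_020_1_61_1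
theorem B012E_020_1_15_1 :
    ∃ t, chk3 (onCell 0 67108864 0 1073741824 134217728 67108864 (corT false 3 c0N cB012E gN0q0 gN2q2 gN0q1 gN1q1 true false)) t 1 15 1 = true :=
  ex3_b B012E_020_1_30_1 B012E_020_1_31_1
theorem B012E_020_1_7_1 :
    ∃ t, chk3 (onCell 0 67108864 0 1073741824 134217728 67108864 (corT false 3 c0N cB012E gN0q0 gN2q2 gN0q1 gN1q1 true false)) t 1 7 1 = true :=
  ex3_b B012E_020_1_14_1 B012E_020_1_15_1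
theorem B012E_020_1_3_1 :
    ∃ t, chk3 (onCell 0 67108864 0 1073741824 134217728 67108864 (corT false 3 c0N cB012E gN0q0 gN2q2 gN0q1 gN1q1 true false)) t 1 3 1 = true :=
  ex3_b B012E_020_1_6_1 B012E_020_1_7_1
theorem B012E_020 :
    ∃ t, chk3 (onCell 0 67108864 0 1073741824 134217728 67108864 (corT false 3 c0N cB012E gN0q0 gN2q2 gN0q1 gN1q1 true false)) t 1 1 1 = true :=
  ex3_b B012E_020_1_2_1 B012E_020_1_3_1

def B012E_100 :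
    ∃ t, chk3 (onCell 0 67108864 0 1073741824 134217728 67108864 (corT false 3 c0N cB012E gN1q0 gN0q2 gN0q1 gN1q1 true false)) t 1 1 1 = true :=
  ⟨(T.b (T.a (T.b (T.l 0) (T.l 0)) (T.b (T.b (T.l 1) (T.l 0)) (T.b (T.l 0) (T.l 204)))) (T.a (T.a (T.l 204) (T.b (T.l 204) (T.l 204))) (T.b (T.a (T.l 204) (T.l 0)) (T.a (T.b (T.l 0) (T.l 204)) (T.l 0))))), by decide +kernel⟩

def B012E_110 :
    ∃ t, chk3 (onCell 0 67108864 0 1073741824 134217728 67108864 (corT false 3 c0N cB012E gN1q0 gN1q2 gN0q1 gN1q1 true false)) t 1 1 1 = true :=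
  ⟨(T.b (T.b (T.l 1) (T.a (T.l 0) (T.b (T.l 0) (T.l 0)))) (T.b (T.a (T.l 0) (T.b (T.l 0) (T.l 0))) (T.a (T.a (T.l 204) (T.l 0)) (T.b (T.l 0) (T.l 0))))), by decide +kernel⟩

def B012E_120 :
    ∃ t, chk3 (onCell 0 67108864 0 1073741824 134217728 67108864 (corT false 3 c0N cB012E gN1q0 gN2q2 gN0q1 gN1q1 true false)) t 1 1 1 = true :=
  ⟨(T.b (T.b (T.l 1) (T.a (T.l 816) (T.b (T.l 1) (T.l 0)))) (T.b (T.a (T.l 816) (T.l 0)) (T.a (T.a (T.l 816) (T.l 0)) (T.l 0)))), by decide +kernel⟩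

def B012E_200 :
    ∃ t, chk3 (onCell 0 67108864 0 1073741824 134217728 67108864 (corT false 3 c0N cB012E gN2q0 gN0q2 gN0q1 gN1q1 true false)) t 1 1 1 = true :=
  ⟨(T.b (T.a (T.l 204) (T.b (T.l 0) (T.b (T.l 204) (T.l 204)))) (T.a (T.a (T.l 204) (T.l 204)) (T.b (T.b (T.l 0) (T.l 0)) (T.b (T.l 0) (T.l 204))))), by decide +kernel⟩

def B012E_210 :
    ∃ t, chk3 (onCell 0 67108864 0 1073741824 134217728 67108864 (corT false 3 c0N cB012E gN2q0 gN1q2 gN0q1 gN1q1 true false)) t 1 1 1 = true :=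
  ⟨(T.b (T.a (T.l 204) (T.b (T.l 0) (T.b (T.l 204) (T.l 204)))) (T.a (T.a (T.l 204) (T.b (T.l 204) (T.l 0))) (T.b (T.l 0) (T.l 0)))), by decide +kernel⟩

def B012E_220 :
    ∃ t, chk3 (onCell 0 67108864 0 1073741824 134217728 67108864 (corT false 3 c0N cB012E gN2q0 gN2q2 gN0q1 gN1q1 true false)) t 1 1 1 = true :=
  ⟨(T.b (T.a (T.l 204) (T.b (T.l 0) (T.b (T.l 0) (T.l 204)))) (T.a (T.a (T.l 204) (T.l 0)) (T.b (T.l 0) (T.l 204)))), by decide +kernel⟩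

def B012L_050 :
    ∃ t, chk3 (onCell 0 67108864 0 1073741824 134217728 67108864 (corT false 3 c0N cB012L gN0q0 gN5q2 gN0q1 gN1q1 true false)) t 1 1 1 = true :=
  ⟨(T.l 1), by decide +kernel⟩

def B012L_150 :
    ∃ t, chk3 (onCell 0 67108864 0 1073741824 134217728 67108864 (corT false 3 c0N cB012L gN1q0 gN5q2 gN0q1 gN1q1 true false)) t 1 1 1 = true :=
  ⟨(T.l 1), by decide +kernel⟩

def B012L_250 :
    ∃ t, chk3 (onCell 0 67108864 0 1073741824 134217728 67108864 (corT false 3 c0N cB012L gN2q0 gN5q2 gN0q1 gN1q1 true false)) t 1 1 1 = true :=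
  ⟨(T.l 1), by decide +kernel⟩

def B012R_002_2_1_1 :
    ∃ t, chk3 (onCell 0 53687091 0 1073741824 134217728 67108864 (corT false 3 c0N cB012R gN0q0 gN0q2 gN2q1 gN3q1 false true)) t 2 1 1 = true :=
  ⟨(T.b (T.c (T.b (T.b (T.c (T.b (T.c (T.b (T.c (T.l 204) (T.l 204)) (T.l 204)) (T.b (T.a (T.l 204) (T.l 204)) (T.l 204))) (T.c (T.l 460) (T.l 204))) (T.b (T.b (T.c (T.l 204) (T.l 204)) (T.l 460)) (T.b (T.l 204) (T.l 204)))) (T.c (T.b (T.b (T.l 460) (T.l 460)) (T.b (T.l 204) (T.l 204))) (T.b (T.l 460) (T.l 204)))) (T.c (T.b (T.b (T.l 460) (T.l 460)) (T.b (T.l 204) (T.l 204))) (T.b (T.b (T.l 204) (T.l 204)) (T.l 460)))) (T.b (T.b (T.c (T.b (T.c (T.l 204) (T.l 204)) (T.l 204)) (T.b (T.b (T.l 204) (T.l 204)) (T.l 204))) (T.c (T.b (T.l 204) (T.l 204)) (T.l 460))) (T.b (T.c (T.l 204) (T.l 204)) (T.b (T.l 204) (T.l 204))))) (T.c (T.b (T.c (T.b (T.b (T.l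 204) (T.l 204)) (T.l 460)) (T.b (T.l 204) (T.l 204))) (T.c (T.b (T.l 204) (T.l 204)) (T.b (T.l 204) (T.l 0)))) (T.b (T.b (T.b (T.l 204) (T.l 204)) (T.l 256)) (T.b (T.l 0) (T.l 0))))), by decide +kernel⟩

def B012R_002_3_2_1 :
    ∃ t, chk3 (onCell 0 53687091 0 1073741824 134217728 67108864 (corT false 3 c0N cB012R gN0q0 gN0q2 gN2q1 gN3q1 false true)) t 3 2 1 = true :=
  ⟨(T.b (T.a (T.c (T.c (T.b (T.b (T.c (T.b (T.l 204) (T.l 204)) (T.l 460)) (T.c (T.l 204) (T.l 204))) (T.c (T.l 460) (T.l 460))) (T.b (T.b (T.c (T.l 204) (T.l 204)) (T.b (T.l 204) (T.l 204))) (T.b (T.l 204) (T.l 204)))) (T.b (T.c (T.b (T.b (T.l 204) (T.l 204)) (T.l 204)) (T.b (T.l 204) (T.l 204))) (T.c (T.l 460) (T.l 204)))) (T.c (T.b (T.b (T.c (T.a (T.c (T.l 460) (T.l 204)) (T.c (T.b (T.b (T.l 460) (T.l 204)) (T.l 204)) (T.b (T.b (T.l 460) (T.l 204)) (T.l 204)))) (T.a (T.c (T.l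 204) (T.l 204)) (T.b (T.c (T.l 460) (T.l 460)) (T.l 460)))) (T.c (T.c (T.l 460) (T.l 460)) (T.b (T.l 460) (T.l 460)))) (T.c (T.b (T.b (T.l 460) (T.l 460)) (T.l 460)) (T.b (T.l 460) (T.l 460)))) (T.b (T.b (T.a (T.c (T.b (T.l 204) (T.l 204)) (T.l 204)) (T.c (T.b (T.c (T.l 204) (T.l 204)) (T.l 204)) (T.b (T.b (T.l 460) (T.l 204)) (T.l 204)))) (T.c (T.l 460) (T.l 204))) (T.c (T.b (T.l 204) (T.l 204)) (T.l 460))))) (T.c (T.b (T.c (T.b (T.b (T.l 460) (T.l 460)) (T.l 460)) (T.b (T.l 460) (T.l 460))) (T.c (T.b (T.l 460) (T.l 460)) (T.b (T.l 204) (T.l 204)))) (T.b (T.c (T.b (T.l 204) (T.l 204)) (T.l 460)) (T.c (T.l 460) (T.l 204))))), by decide +kernel⟩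

def B012R_002_3_3_1 :
    ∃ t, chk3 (onCell 0 53687091 0 1073741824 134217728 67108864 (corT false 3 c0N cB012R gN0q0 gN0q2 gN2q1 gN3q1 false true)) t 3 3 1 = true :=
  ⟨(T.b (T.a (T.c (T.c (T.b (T.l 204) (T.l 204)) (T.l 460)) (T.b (T.l 204) (T.l 204))) (T.c (T.b (T.c (T.b (T.l 204) (T.l 204)) (T.l 460)) (T.c (T.l 460) (T.l 204))) (T.b (T.b (T.l 204) (T.l 204)) (T.b (T.l 204) (T.l 204))))) (T.a (T.c (T.b (T.c (T.l 460) (T.l 204)) (T.c (T.l 204) (T.l 204))) (T.b (T.b (T.l 0) (T.l 0)) (T.l 0))) (T.b (T.c (T.a (T.b (T.l 460) (T.l 460)) (T.c (T.b (T.l 204) (T.l 204)) (T.l 460))) (T.a (T.l 0) (T.b (T.l 0) (T.l 0)))) (T.c (T.a (T.c (T.l 256) (T.l 0)) (T.c (T.l 256) (T.l 0))) (T.a (T.b (T.l 0) (T.l 0)) (T.b (T.l 0) (T.l 0))))))), by decide +kernel⟩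

theorem B012R_002_3_1_1 :
    ∃ t, chk3 (onCell 0 53687091 0 1073741824 134217728 67108864 (corT false 3 c0N cB012R gN0q0 gN0q2 gN2q1 gN3q1 false true)) t 3 1 1 = true :=
  ex3_b B012R_002_3_2_1 B012R_002_3_3_1
theorem B012R_002 :
    ∃ t, chk3 (onCell 0 53687091 0 1073741824 134217728 67108864 (corT false 3 c0N cB012R gN0q0 gN0q2 gN2q1 gN3q1 false true)) t 1 1 1 = true :=
  ex3_a B012R_002_2_1_1 B012R_002_3_1_1

def B012R_003 :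
    ∃ t, chk3 (onCell 0 53687091 0 1073741824 134217728 67108864 (corT false 3 c0N cB012R gN0q0 gN0q2 gN3q1 gN4q1 true true)) t 1 1 1 = true :=
  ⟨(T.b (T.l 1) (T.l 1)), by decide +kernel⟩

def B012R_004 :
    ∃ t, chk3 (onCell 0 53687091 0 1073741824 134217728 67108864 (corT false 3 c0N cB012R gN0q0 gN0q2 gN4q1 gN5q1 true true)) t 1 1 1 = true :=
  ⟨(T.l 1), by decide +kernel⟩

def B012R_012_2_2_1 :
    ∃ t, chk3 (onCell 0 67108864 0 1073741824 134217728 67108864 (corT false 3 c0N cB012R gN0q0 gN1q2 gN2q1 gN3q1 false true)) t 2 2 1 = true :=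
  ⟨(T.c (T.b (T.b (T.c (T.b (T.b (T.c (T.c (T.l 204) (T.l 204)) (T.a (T.l 204) (T.l 204))) (T.a (T.l 204) (T.l 204))) (T.a (T.l 204) (T.l 204))) (T.b (T.b (T.c (T.l 204) (T.l 204)) (T.l 204)) (T.l 204))) (T.c (T.b (T.l 204) (T.l 204)) (T.l 204))) (T.c (T.b (T.l 204) (T.l 204)) (T.b (T.l 204) (T.l 204)))) (T.b (T.b (T.c (T.b (T.c (T.l 204) (T.l 204)) (T.l 204)) (T.b (T.a (T.l 204) (T.l 204)) (T.l 204))) (T.b (T.l 460) (T.l 204))) (T.b (T.l 204) (T.l 0)))), by decide +kernel⟩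

def B012R_012_3_2_1 :
    ∃ t, chk3 (onCell 0 67108864 0 1073741824 134217728 67108864 (corT false 3 c0N cB012R gN0q0 gN1q2 gN2q1 gN3q1 false true)) t 3 2 1 = true :=
  ⟨(T.a (T.c (T.b (T.c (T.b (T.b (T.c (T.b (T.l 460) (T.l 204)) (T.l 460)) (T.l 460)) (T.l 204)) (T.b (T.b (T.c (T.l 460) (T.l 204)) (T.l 204)) (T.l 204))) (T.c (T.l 460) (T.l 204))) (T.b (T.b (T.c (T.b (T.b (T.l 460) (T.l 204)) (T.l 204)) (T.b (T.l 460) (T.l 204))) (T.b (T.l 204) (T.l 204))) (T.b (T.l 204) (T.l 204)))) (T.b (T.c (T.b (T.c (T.a (T.b (T.b (T.c (T.a (T.l 460) (T.b (T.l 460) (T.l 204))) (T.a (T.l 460) (T.l 460))) (T.c (T.l 460) (T.l 460))) (T.a (T.l 204) (T.l 460))) (T.b (T.c (T.b (T.a (T.b (T.l 460) (T.l 204)) (T.c (T.l 460) (T.l 460))) (T.l 460)) (T.b (T.b (T.a (T.l 460) (T.l 460)) (T.l 460)) (T.l 460))) (T.c (T.l 460) (T.l 460)))) (T.a (T.b (T.b (T.c (T.a (T.l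 204) (T.l 460)) (T.a (T.l 204) (T.l 204))) (T.a (T.l 204) (T.l 460))) (T.b (T.l 204) (T.l 204))) (T.b (T.b (T.c (T.a (T.l 460) (T.l 460)) (T.a (T.l 460) (T.l 460))) (T.a (T.l 460) (T.l 460))) (T.b (T.l 460) (T.l 204))))) (T.a (T.c (T.l 204) (T.l 204)) (T.c (T.b (T.l 460) (T.l 204)) (T.b (T.l 204) (T.l 204))))) (T.b (T.a (T.b (T.c (T.b (T.a (T.b (T.l 460) (T.l 204)) (T.c (T.l 204) (T.l 204))) (T.l 460)) (T.b (T.a (T.l 204) (T.l 460)) (T.l 204))) (T.c (T.l 460) (T.l 204))) (T.b (T.c (T.b (T.c (T.a (T.l 204) (T.l 460)) (T.b (T.l 460) (T.l 204))) (T.l 460)) (T.b (T.c (T.b (T.l 460) (T.l 204)) (T.l 460)) (T.l 460))) (T.c (T.l 460) (T.l 460)))) (T.a (T.b (T.l 204) (T.l 204)) (T.c (T.l 460) (T.l 460))))) (T.b (T.c (T.c (T.l 204) (T.l 204)) (T.l 460)) (T.c (T.b (T.l 460) (T.b (T.l 204) (T.l 460))) (T.b (T.l 204) (T.l 0)))))), by decide +kernel⟩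

def B012R_012_1_3_1 :
    ∃ t, chk3 (onCell 0 67108864 0 1073741824 134217728 67108864 (corT false 3 c0N cB012R gN0q0 gN1q2 gN2q1 gN3q1 false true)) t 1 3 1 = true :=
  ⟨(T.b (T.a (T.c (T.c (T.l 0) (T.l 0)) (T.l 0)) (T.a (T.b (T.c (T.l 204) (T.l 0)) (T.c (T.a (T.l 0) (T.l 256)) (T.b (T.l 0) (T.l 0)))) (T.c (T.b (T.c (T.b (T.l 204) (T.l 0)) (T.l 256)) (T.a (T.l 256) (T.l 256))) (T.b (T.b (T.l 0) (T.l 0)) (T.b (T.l 0) (T.l 0)))))) (T.a (T.a (T.c (T.l 0) (T.l 0)) (T.a (T.c (T.l 0) (T.l 816)) (T.c (T.b (T.l 0) (T.b (T.l 816) (T.l 816))) (T.b (T.l 816) (T.l 816))))) (T.a (T.c (T.b (T.a (T.l 0) (T.l 0)) (T.a (T.b (T.l 0) (T.l 816)) (T.b (T.l 816) (T.l 816)))) (T.b (T.b (T.l 0) (T.l 0)) (T.a (T.l 816) (T.l 816)))) (T.c (T.b (T.a (T.l 0) (T.l 0)) (T.c (T.l 64) (T.l 64))) (T.b (T.b (T.l 0) (T.l 816)) (T.a (T.l 816) (T.l 816))))))), by decide +kernel⟩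

theorem B012R_012_1_2_1 :
    ∃ t, chk3 (onCell 0 67108864 0 1073741824 134217728 67108864 (corT false 3 c0N cB012R gN0q0 gN1q2 gN2q1 gN3q1 false true)) t 1 2 1 = true :=
  ex3_a B012R_012_2_2_1 B012R_012_3_2_1
theorem B012R_012 :
    ∃ t, chk3 (onCell 0 67108864 0 1073741824 134217728 67108864 (corT false 3 c0N cB012R gN0q0 gN1q2 gN2q1 gN3q1 false true)) t 1 1 1 = true :=
  ex3_b B012R_012_1_2_1 B012R_012_1_3_1

def B012R_013 :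
    ∃ t, chk3 (onCell 0 67108864 0 1073741824 134217728 67108864 (corT false 3 c0N cB012R gN0q0 gN1q2 gN3q1 gN4q1 true true)) t 1 1 1 = true :=
  ⟨(T.b (T.l 1) (T.l 1)), by decide +kernel⟩

def B012R_014 :
    ∃ t, chk3 (onCell 0 67108864 0 1073741824 134217728 67108864 (corT false 3 c0N cB012R gN0q0 gN1q2 gN4q1 gN5q1 true true)) t 1 1 1 = true :=
  ⟨(T.l 1), by decide +kernel⟩

def B012R_022_1_2_1 :
    ∃ t, chk3 (onCell 0 67108864 0 1073741824 134217728 67108864 (corT false 3 c0N cB012R gN0q0 gN2q2 gN2q1 gN3q1 false true)) t 1 2 1 = true :=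
  ⟨(T.a (T.c (T.b (T.c (T.b (T.b (T.b (T.c (T.a (T.l 204) (T.l 204)) (T.l 204)) (T.l 204)) (T.l 204)) (T.l 204)) (T.b (T.b (T.c (T.a (T.l 204) (T.l 204)) (T.l 204)) (T.l 204)) (T.l 204))) (T.b (T.l 204) (T.l 0))) (T.b (T.b (T.c (T.b (T.c (T.l 204) (T.l 204)) (T.l 204)) (T.b (T.l 204) (T.l 204))) (T.l 204)) (T.l 0))) (T.a (T.c (T.b (T.c (T.b (T.b (T.c (T.l 460) (T.l 460)) (T.l 204)) (T.l 204)) (T.b (T.b (T.c (T.l 204) (T.l 204)) (T.l 204)) (T.l 204))) (T.b (T.l 204) (T.l 0))) (T.b (T.b (T.b (T.c (T.b (T.l 204) (T.l 204)) (T.l 204)) (T.l 460)) (T.l 204)) (T.l 0))) (T.b (T.c (T.b (T.c (T.b (T.a (T.b (T.c (T.a (T.l 460) (T.b (T.l 460) (T.l 204))) (T.a (T.l 460) (T.l 460))) (T.a (T.l 204) (T.l 460))) (T.b (T.c (T.b (T.a (T.l 460) (T.a (T.l 460) (T.l 476))) (T.l 460)) (T.a (T.l 460) (T.b (T.l 460) (T.l 204)))) (T.a (T.l 460) (T.l 460)))) (T.a (T.l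 460) (T.b (T.l 204) (T.l 204)))) (T.b (T.a (T.b (T.c (T.a (T.l 204) (T.l 460)) (T.a (T.l 204) (T.l 204))) (T.l 460)) (T.b (T.c (T.a (T.l 460) (T.l 460)) (T.a (T.l 460) (T.l 460))) (T.l 460))) (T.a (T.l 204) (T.l 460)))) (T.c (T.a (T.l 204) (T.l 460)) (T.b (T.l 460) (T.l 204)))) (T.b (T.b (T.a (T.c (T.b (T.b (T.c (T.a (T.l 204) (T.l 204)) (T.l 460)) (T.l 460)) (T.l 204)) (T.b (T.a (T.l 204) (T.l 460)) (T.l 204))) (T.c (T.b (T.b (T.c (T.a (T.l 204) (T.l 204)) (T.l 460)) (T.l 460)) (T.l 204)) (T.b (T.c (T.b (T.l 460) (T.l 204)) (T.l 460)) (T.l 204)))) (T.a (T.c (T.l 204) (T.l 204)) (T.c (T.l 204) (T.l 204)))) (T.a (T.l 204) (T.b (T.l 204) (T.l 204))))) (T.b (T.c (T.l 460) (T.l 204)) (T.c (T.b (T.l 0) (T.l 0)) (T.l 0)))))), by decide +kernel⟩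

def B012R_022_1_3_1 :
    ∃ t, chk3 (onCell 0 67108864 0 1073741824 134217728 67108864 (corT false 3 c0N cB012R gN0q0 gN2q2 gN2q1 gN3q1 false true)) t 1 3 1 = true :=
  ⟨(T.b (T.a (T.c (T.l 0) (T.l 0)) (T.a (T.c (T.b (T.l 816) (T.b (T.l 816) (T.l 880))) (T.b (T.l 816) (T.l 816))) (T.c (T.b (T.b (T.l 816) (T.l 816)) (T.b (T.l 816) (T.l 880))) (T.b (T.l 0) (T.l 816))))) (T.a (T.a (T.c (T.b (T.l 816) (T.l 816)) (T.l 816)) (T.c (T.a (T.l 816) (T.c (T.l 816) (T.l 816))) (T.a (T.l 816) (T.b (T.l 816) (T.l 816))))) (T.a (T.c (T.b (T.c (T.l 816) (T.l 816)) (T.c (T.l 816) (T.l 816))) (T.b (T.b (T.l 816) (T.l 816)) (T.a (T.l 816) (T.l 816)))) (T.c (T.c (T.b (T.l 816) (T.l 816)) (T.b (T.l 816) (T.l 816))) (T.b (T.l 880) (T.b (T.l 816) (T.l 880))))))), by decide +kernel⟩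

theorem B012R_022 :
    ∃ t, chk3 (onCell 0 67108864 0 1073741824 134217728 67108864 (corT false 3 c0N cB012R gN0q0 gN2q2 gN2q1 gN3q1 false true)) t 1 1 1 = true :=
  ex3_b B012R_022_1_2_1 B012R_022_1_3_1

def B012R_023 :
    ∃ t, chk3 (onCell 0 67108864 0 1073741824 134217728 67108864 (corT false 3 c0N cB012R gN0q0 gN2q2 gN3q1 gN4q1 true true)) t 1 1 1 = true :=
  ⟨(T.l 1), by decide +kernel⟩

def B012R_024 :
    ∃ t, chk3 (onCell 0 67108864 0 1073741824 134217728 67108864 (corT false 3 c0N cB012R gN0q0 gN2q2 gN4q1 gN5q1 true true)) t 1 1 1 = true :=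
  ⟨(T.l 1), by decide +kernel⟩

def B012R_102 :
    ∃ t, chk3 (onCell 0 67108864 0 1073741824 134217728 67108864 (corT false 3 c0N cB012R gN1q0 gN0q2 gN2q1 gN3q1 false true)) t 1 1 1 = true :=
  ⟨(T.b (T.b (T.l 2) (T.a (T.l 816) (T.l 0))) (T.b (T.a (T.l 0) (T.a (T.l 816) (T.l 0))) (T.a (T.a (T.l 816) (T.l 816)) (T.a (T.b (T.l 0) (T.l 0)) (T.l 0))))), by decide +kernel⟩

def B012R_103 :
    ∃ t, chk3 (onCell 0 67108864 0 1073741824 134217728 67108864 (corT false 3 c0N cB012R gN1q0 gN0q2 gN3q1 gN4q1 true true)) t 1 1 1 = true :=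
  ⟨(T.b (T.b (T.l 2) (T.a (T.l 816) (T.l 0))) (T.b (T.b (T.l 1) (T.l 1)) (T.l 1))), by decide +kernel⟩

def B012R_104 :
    ∃ t, chk3 (onCell 0 67108864 0 1073741824 134217728 67108864 (corT false 3 c0N cB012R gN1q0 gN0q2 gN4q1 gN5q1 true true)) t 1 1 1 = true :=
  ⟨(T.b (T.b (T.a (T.l 0) (T.b (T.l 2) (T.l 0))) (T.a (T.l 816) (T.l 816))) (T.b (T.l 1) (T.l 1))), by decide +kernel⟩

def B012R_112 :
    ∃ t, chk3 (onCell 0 67108864 0 1073741824 134217728 67108864 (corT false 3 c0N cB012R gN1q0 gN1q2 gN2q1 gN3q1 false true)) t 1 1 1 = true :=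
  ⟨(T.b (T.l 2) (T.b (T.a (T.l 2) (T.l 2)) (T.a (T.a (T.l 816) (T.l 0)) (T.b (T.l 0) (T.l 0))))), by decide +kernel⟩

def B012R_113 :
    ∃ t, chk3 (onCell 0 67108864 0 1073741824 134217728 67108864 (corT false 3 c0N cB012R gN1q0 gN1q2 gN3q1 gN4q1 true true)) t 1 1 1 = true :=
  ⟨(T.b (T.l 2) (T.b (T.a (T.l 2) (T.b (T.l 2) (T.l 0))) (T.a (T.a (T.l 816) (T.l 0)) (T.b (T.l 0) (T.l 0))))), by decide +kernel⟩

def B012R_114 :
    ∃ t, chk3 (onCell 0 67108864 0 1073741824 134217728 67108864 (corT false 3 c0N cB012R gN1q0 gN1q2 gN4q1 gN5q1 true true)) t 1 1 1 = true :=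
  ⟨(T.b (T.b (T.l 2) (T.l 2)) (T.b (T.a (T.l 816) (T.b (T.l 0) (T.l 0))) (T.a (T.a (T.l 816) (T.l 0)) (T.b (T.l 0) (T.l 1))))), by decide +kernel⟩

def B012R_122 :
    ∃ t, chk3 (onCell 0 67108864 0 1073741824 134217728 67108864 (corT false 3 c0N cB012R gN1q0 gN2q2 gN2q1 gN3q1 false true)) t 1 1 1 = true :=
  ⟨(T.l 2), by decide +kernel⟩

def B012R_123 :
    ∃ t, chk3 (onCell 0 67108864 0 1073741824 134217728 67108864 (corT false 3 c0N cB012R gN1q0 gN2q2 gN3q1 gN4q1 true true)) t 1 1 1 = true :=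
  ⟨(T.l 2), by decide +kernel⟩

def B012R_124 :
    ∃ t, chk3 (onCell 0 67108864 0 1073741824 134217728 67108864 (corT false 3 c0N cB012R gN1q0 gN2q2 gN4q1 gN5q1 true true)) t 1 1 1 = true :=
  ⟨(T.l 2), by decide +kernel⟩

def B012R_202 :
    ∃ t, chk3 (onCell 0 67108864 0 1073741824 134217728 67108864 (corT false 3 c0N cB012R gN2q0 gN0q2 gN2q1 gN3q1 false true)) t 1 1 1 = true :=
  ⟨(T.b (T.l 2) (T.b (T.a (T.l 2) (T.b (T.l 2) (T.l 0))) (T.a (T.a (T.l 0) (T.l 0)) (T.b (T.l 0) (T.l 0))))), by decide +kernel⟩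

def B012R_203 :
    ∃ t, chk3 (onCell 0 67108864 0 1073741824 134217728 67108864 (corT false 3 c0N cB012R gN2q0 gN0q2 gN3q1 gN4q1 true true)) t 1 1 1 = true :=
  ⟨(T.b (T.l 2) (T.b (T.a (T.l 2) (T.b (T.l 2) (T.l 0))) (T.b (T.a (T.l 0) (T.l 0)) (T.a (T.b (T.l 0) (T.l 1)) (T.l 1))))), by decide +kernel⟩

def B012R_204 :
    ∃ t, chk3 (onCell 0 67108864 0 1073741824 134217728 67108864 (corT false 3 c0N cB012R gN2q0 gN0q2 gN4q1 gN5q1 true true)) t 1 1 1 = true :=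
  ⟨(T.b (T.l 2) (T.b (T.a (T.l 0) (T.b (T.l 0) (T.l 0))) (T.b (T.a (T.l 0) (T.l 0)) (T.a (T.b (T.l 0) (T.l 1)) (T.l 1))))), by decide +kernel⟩

def B012R_212 :
    ∃ t, chk3 (onCell 0 67108864 0 1073741824 134217728 67108864 (corT false 3 c0N cB012R gN2q0 gN1q2 gN2q1 gN3q1 false true)) t 1 1 1 = true :=
  ⟨(T.l 2), by decide +kernel⟩

def B012R_213 :
    ∃ t, chk3 (onCell 0 67108864 0 1073741824 134217728 67108864 (corT false 3 c0N cB012R gN2q0 gN1q2 gN3q1 gN4q1 true true)) t 1 1 1 = true :=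
  ⟨(T.l 2), by decide +kernel⟩

def B012R_214 :
    ∃ t, chk3 (onCell 0 67108864 0 1073741824 134217728 67108864 (corT false 3 c0N cB012R gN2q0 gN1q2 gN4q1 gN5q1 true true)) t 1 1 1 = true :=
  ⟨(T.l 2), by decide +kernel⟩

def B012R_222 :
    ∃ t, chk3 (onCell 0 67108864 0 1073741824 134217728 67108864 (corT false 3 c0N cB012R gN2q0 gN2q2 gN2q1 gN3q1 false true)) t 1 1 1 = true :=
  ⟨(T.l 2), by decide +kernel⟩

def B012R_223 :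
    ∃ t, chk3 (onCell 0 67108864 0 1073741824 134217728 67108864 (corT false 3 c0N cB012R gN2q0 gN2q2 gN3q1 gN4q1 true true)) t 1 1 1 = true :=
  ⟨(T.l 2), by decide +kernel⟩

def B012R_224 :
    ∃ t, chk3 (onCell 0 67108864 0 1073741824 134217728 67108864 (corT false 3 c0N cB012R gN2q0 gN2q2 gN4q1 gN5q1 true true)) t 1 1 1 = true :=
  ⟨(T.l 2), by decide +kernel⟩

def B022E_000 :
    ∃ t, chk3 (onCell 0 67108864 0 1073741824 134217728 67108864 (corT false 3 c0N cB022E gN0q0 gN0q2 gN0q2 gN1q2 true true)) t 1 1 1 = true :=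
  ⟨(T.l 2), by decide +kernel⟩

def B022E_001 :
    ∃ t, chk3 (onCell 0 67108864 0 1073741824 134217728 67108864 (corT false 3 c0N cB022E gN0q0 gN0q2 gN1q2 gN2q2 true true)) t 1 1 1 = true :=
  ⟨(T.l 2), by decide +kernel⟩

def B022E_002_2_1_1 :
    ∃ t, chk3 (onCell 0 67108864 0 1073741824 134217728 67108864 (corT false 3 c0N cB022E gN0q0 gN0q2 gN2q2 gN3q2 true false)) t 2 1 1 = true :=
  ⟨(T.a (T.c (T.b (T.c (T.b (T.b (T.c (T.b (T.a (T.b (T.l 204) (T.l 204)) (T.l 204)) (T.l 204)) (T.b (T.a (T.l 204) (T.l 204)) (T.l 204))) (T.c (T.l 204) (T.l 204))) (T.c (T.b (T.l 204) (T.l 204)) (T.l 204))) (T.b (T.b (T.a (T.c (T.b (T.l 204) (T.l 204)) (T.l 204)) (T.l 204)) (T.a (T.l 204) (T.l 204))) (T.b (T.l 204) (T.l 204)))) (T.c (T.b (T.a (T.b (T.l 204) (T.l 204)) (T.l 204)) (T.a (T.b (T.l 204) (T.l 204)) (T.l 204))) (T.b (T.b (T.l 204) (T.l 204)) (T.b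 (T.l 204) (T.l 204))))) (T.b (T.b (T.c (T.b (T.a (T.c (T.l 204) (T.l 204)) (T.l 204)) (T.l 220)) (T.b (T.b (T.c (T.l 204) (T.l 204)) (T.l 204)) (T.l 204))) (T.c (T.l 204) (T.l 204))) (T.b (T.c (T.l 204) (T.l 204)) (T.b (T.l 204) (T.l 204))))) (T.b (T.b (T.a (T.c (T.c (T.l 220) (T.l 204)) (T.c (T.l 204) (T.l 204))) (T.c (T.b (T.c (T.b (T.l 204) (T.l 204)) (T.l 204)) (T.c (T.l 204) (T.l 204))) (T.b (T.c (T.l 204) (T.l 204)) (T.l 204)))) (T.c (T.a (T.c (T.l 204) (T.l 204)) (T.c (T.l 204) (T.l 204))) (T.a (T.l 204) (T.l 204)))) (T.c (T.a (T.c (T.b (T.l 204) (T.l 204)) (T.l 460)) (T.c (T.b (T.l 204) (T.l 204)) (T.l 460))) (T.a (T.b (T.l 204) (T.l 204)) (T.b (T.l 204) (T.l 204)))))), by decide +kernel⟩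

def B022E_002_3_1_1 :
    ∃ t, chk3 (onCell 0 67108864 0 1073741824 134217728 67108864 (corT false 3 c0N cB022E gN0q0 gN0q2 gN2q2 gN3q2 true false)) t 3 1 1 = true :=
  ⟨(T.b (T.a (T.b (T.c (T.a (T.c (T.b (T.l 204) (T.l 204)) (T.b (T.l 204) (T.l 204))) (T.c (T.b (T.l 204) (T.l 204)) (T.b (T.l 204) (T.l 204)))) (T.a (T.b (T.b (T.l 204) (T.l 204)) (T.l 204)) (T.b (T.l 204) (T.l 204)))) (T.a (T.c (T.b (T.l 204) (T.l 204)) (T.l 204)) (T.c (T.c (T.l 220) (T.l 204)) (T.b (T.l 204) (T.l 204))))) (T.b (T.c (T.a (T.c (T.b (T.l 204) (T.l 204)) (T.l 204)) (T.c (T.b (T.l 204) (T.l 204)) (T.l 204))) (T.a (T.b (T.l 204) (T.l 204)) (T.b (T.l 204) (T.l 204)))) (T.c (T.a (T.b (T.l 220) (T.l 204)) (T.b (T.l 204) (T.l 204))) (T.a (T.l 476) (T.l 204))))) (T.b (T.a (T.c (T.a (T.l 460) (T.l 460)) (T.a (T.l 204) (T.l 204))) (T.c (T.b (T.b (T.l 476) (T.l 460)) (T.l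 460)) (T.b (T.b (T.l 204) (T.l 204)) (T.l 204)))) (T.a (T.c (T.a (T.b (T.l 204) (T.l 460)) (T.b (T.l 460) (T.l 460))) (T.a (T.l 204) (T.l 204))) (T.c (T.a (T.l 460) (T.b (T.l 204) (T.l 460))) (T.a (T.l 204) (T.l 460)))))), by decide +kernel⟩

theorem B022E_002 :
    ∃ t, chk3 (onCell 0 67108864 0 1073741824 134217728 67108864 (corT false 3 c0N cB022E gN0q0 gN0q2 gN2q2 gN3q2 true false)) t 1 1 1 = true :=
  ex3_a B022E_002_2_1_1 B022E_002_3_1_1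

def B022E_010 :
    ∃ t, chk3 (onCell 0 67108864 0 1073741824 134217728 67108864 (corT false 3 c0N cB022E gN0q0 gN1q2 gN0q2 gN1q2 true true)) t 1 1 1 = true :=
  ⟨(T.l 2), by decide +kernel⟩

def B022E_011 :
    ∃ t, chk3 (onCell 0 67108864 0 1073741824 134217728 67108864 (corT false 3 c0N cB022E gN0q0 gN1q2 gN1q2 gN2q2 true true)) t 1 1 1 = true :=
  ⟨(T.l 2), by decide +kernel⟩

def B022E_012 :
    ∃ t, chk3 (onCell 0 67108864 0 1073741824 134217728 67108864 (corT false 3 c0N cB022E gN0q0 gN1q2 gN2q2 gN3q2 true false)) t 1 1 1 = true :=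
  ⟨(T.b (T.a (T.a (T.c (T.c (T.b (T.b (T.l 204) (T.l 204)) (T.l 204)) (T.b (T.b (T.l 204) (T.l 204)) (T.l 204))) (T.b (T.c (T.l 204) (T.l 204)) (T.l 204))) (T.a (T.c (T.c (T.l 204) (T.l 204)) (T.b (T.l 204) (T.l 204))) (T.b (T.c (T.b (T.c (T.l 204) (T.l 204)) (T.c (T.l 204) (T.l 204))) (T.a (T.l 204) (T.b (T.l 204) (T.l 204)))) (T.c (T.b (T.l 204) (T.l 204)) (T.l 204))))) (T.b (T.a (T.c (T.a (T.c (T.b (T.l 204) (T.l 204)) (T.b (T.l 204) (T.l 204))) (T.c (T.b (T.l 204) (T.l 204)) (T.l 204))) (T.a (T.c (T.l 220) (T.l 204)) (T.b (T.l 204) (T.l 204)))) (T.c (T.b (T.c (T.b (T.l 204) (T.l 204)) (T.l 204)) (T.c (T.l 204) (T.l 204))) (T.b (T.a (T.l 204) (T.l 204)) (T.l 220)))) (T.a (T.c (T.a (T.l 204) (T.b (T.l 204) (T.l 204))) (T.a (T.l 204) (T.b (T.l 204) (T.l 204)))) (T.c (T.b (T.b (T.l 220) (T.l 204)) (T.b (T.l 204) (T.l 204))) (T.b (T.l 204) (T.l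 0)))))) (T.a (T.a (T.c (T.b (T.l 204) (T.l 0)) (T.b (T.l 0) (T.l 0))) (T.c (T.a (T.b (T.l 204) (T.l 0)) (T.c (T.l 0) (T.l 0))) (T.a (T.l 0) (T.b (T.l 0) (T.l 0))))) (T.b (T.a (T.c (T.l 16) (T.l 0)) (T.b (T.c (T.l 16) (T.l 0)) (T.c (T.l 0) (T.l 0)))) (T.a (T.c (T.a (T.l 0) (T.l 0)) (T.b (T.l 0) (T.l 0))) (T.c (T.b (T.l 0) (T.l 0)) (T.b (T.l 0) (T.l 0))))))), by decide +kernel⟩

def B022E_020 :
    ∃ t, chk3 (onCell 0 67108864 0 1073741824 134217728 67108864 (corT false 3 c0N cB022E gN0q0 gN2q2 gN0q2 gN1q2 true true)) t 1 1 1 = true :=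
  ⟨(T.l 2), by decide +kernel⟩

def B022E_021 :
    ∃ t, chk3 (onCell 0 67108864 0 1073741824 134217728 67108864 (corT false 3 c0N cB022E gN0q0 gN2q2 gN1q2 gN2q2 true true)) t 1 1 1 = true :=
  ⟨(T.l 2), by decide +kernel⟩

def B022E_022 :
    ∃ t, chk3 (onCell 0 67108864 0 1073741824 134217728 67108864 (corT false 3 c0N cB022E gN0q0 gN2q2 gN2q2 gN3q2 true false)) t 1 1 1 = true :=
  ⟨(T.b (T.b (T.a (T.a (T.c (T.c (T.l 204) (T.l 204)) (T.l 204)) (T.a (T.c (T.b (T.l 204) (T.l 204)) (T.l 204)) (T.c (T.c (T.b (T.l 204) (T.l 204)) (T.l 0)) (T.b (T.l 204) (T.l 204))))) (T.a (T.c (T.b (T.c (T.b (T.l 204) (T.l 204)) (T.l 220)) (T.a (T.l 220) (T.l 204))) (T.a (T.b (T.l 204) (T.l 204)) (T.b (T.l 204) (T.l 204)))) (T.c (T.b (T.c (T.l 204) (T.l 204)) (T.b (T.l 220) (T.l 204))) (T.b (T.b (T.l 204) (T.l 204)) (T.l 204))))) (T.a (T.a (T.c (T.l 0) (T.l 0))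 (T.c (T.a (T.l 0) (T.l 0)) (T.l 0))) (T.a (T.c (T.b (T.a (T.l 204) (T.l 204)) (T.l 0)) (T.a (T.l 0) (T.l 16))) (T.c (T.b (T.b (T.l 204) (T.l 204)) (T.l 0)) (T.b (T.l 0) (T.l 0)))))) (T.b (T.b (T.a (T.a (T.c (T.l 816) (T.l 816)) (T.c (T.b (T.l 0) (T.l 0)) (T.l 0))) (T.a (T.c (T.l 0) (T.l 0)) (T.c (T.l 4) (T.l 0)))) (T.a (T.a (T.c (T.l 816) (T.l 816)) (T.c (T.a (T.l 816) (T.l 816)) (T.l 4))) (T.c (T.a (T.l 816) (T.l 816)) (T.a (T.l 816) (T.l 816))))) (T.a (T.a (T.c (T.c (T.l 880) (T.l 816)) (T.c (T.l 816) (T.l 816))) (T.c (T.c (T.a (T.l 880) (T.b (T.l 816) (T.l 880))) (T.a (T.l 816) (T.b (T.l 816) (T.l 816)))) (T.a (T.c (T.l 816) (T.l 816)) (T.c (T.l 880) (T.l 816))))) (T.a (T.c (T.c (T.b (T.l 816) (T.a (T.l 816) (T.l 816))) (T.b (T.l 816) (T.a (T.l 816) (T.l 816)))) (T.b (T.l 816) (T.b (T.l 816) (T.c (T.l 816) (T.l 816))))) (T.c (T.b (T.b (T.l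 816) (T.l 816)) (T.c (T.a (T.l 816) (T.b (T.l 816) (T.l 816))) (T.a (T.l 816) (T.l 816)))) (T.b (T.l 816) (T.b (T.l 816) (T.c (T.l 816) (T.l 816))))))))), by decide +kernel⟩

def B022E_100 :
    ∃ t, chk3 (onCell 0 67108864 0 1073741824 134217728 67108864 (corT false 3 c0N cB022E gN1q0 gN0q2 gN0q2 gN1q2 true true)) t 1 1 1 = true :=
  ⟨(T.l 2), by decide +kernel⟩

def B022E_101 :
    ∃ t, chk3 (onCell 0 67108864 0 1073741824 134217728 67108864 (corT false 3 c0N cB022E gN1q0 gN0q2 gN1q2 gN2q2 true true)) t 1 1 1 = true :=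
  ⟨(T.l 2), by decide +kernel⟩

def B022E_102 :
    ∃ t, chk3 (onCell 0 67108864 0 1073741824 134217728 67108864 (corT false 3 c0N cB022E gN1q0 gN0q2 gN2q2 gN3q2 true false)) t 1 1 1 = true :=
  ⟨(T.b (T.a (T.a (T.b (T.c (T.b (T.b (T.c (T.b (T.a (T.c (T.l 204) (T.l 204)) (T.l 220)) (T.l 204)) (T.a (T.c (T.l 204) (T.l 204)) (T.l 204))) (T.l 204)) (T.l 204)) (T.b (T.b (T.b (T.c (T.c (T.l 204) (T.l 204)) (T.c (T.l 204) (T.l 204))) (T.l 204)) (T.l 204)) (T.l 204))) (T.l 204)) (T.b (T.b (T.c (T.b (T.a (T.c (T.l 204) (T.l 204)) (T.c (T.l 204) (T.l 204))) (T.l 204)) (T.a (T.c (T.l 204) (T.l 204)) (T.c (T.l 204) (T.l 204)))) (T.c (T.l 204) (T.l 204))) (T.l 204))) (T.b (T.a (T.c (T.b (T.a (T.c (T.l 204) (T.l 204)) (T.c (T.l 204) (T.l 204))) (T.l 204)) (T.b (T.a (T.b (T.l 204) (T.l 204)) (T.l 204)) (T.l 204))) (T.c (T.b (T.b (T.c (T.a (T.l 204) (T.l 204))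 (T.l 220)) (T.l 204)) (T.l 204)) (T.b (T.a (T.l 204) (T.l 204)) (T.l 204)))) (T.a (T.b (T.l 204) (T.l 204)) (T.l 0)))) (T.a (T.a (T.l 204) (T.l 204)) (T.b (T.a (T.l 204) (T.l 0)) (T.l 0)))), by decide +kernel⟩

def B022E_110 :
    ∃ t, chk3 (onCell 0 67108864 0 1073741824 134217728 67108864 (corT false 3 c0N cB022E gN1q0 gN1q2 gN0q2 gN1q2 true true)) t 1 1 1 = true :=
  ⟨(T.l 2), by decide +kernel⟩

def B022E_111 :
    ∃ t, chk3 (onCell 0 67108864 0 1073741824 134217728 67108864 (corT false 3 c0N cB022E gN1q0 gN1q2 gN1q2 gN2q2 true true)) t 1 1 1 = true :=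
  ⟨(T.l 2), by decide +kernel⟩

def B022E_112 :
    ∃ t, chk3 (onCell 0 67108864 0 1073741824 134217728 67108864 (corT false 3 c0N cB022E gN1q0 gN1q2 gN2q2 gN3q2 true false)) t 1 1 1 = true :=
  ⟨(T.b (T.a (T.a (T.b (T.c (T.b (T.c (T.b (T.l 204) (T.l 204)) (T.l 204)) (T.l 204)) (T.c (T.l 220) (T.l 204))) (T.l 204)) (T.b (T.a (T.c (T.c (T.l 204) (T.l 204)) (T.l 204)) (T.b (T.c (T.c (T.l 220) (T.l 204)) (T.c (T.l 204) (T.l 204))) (T.l 204))) (T.l 0))) (T.b (T.a (T.c (T.b (T.b (T.c (T.a (T.l 204) (T.l 204)) (T.b (T.l 204) (T.l 204))) (T.l 204)) (T.l 204)) (T.b (T.a (T.b (T.l 204) (T.l 204)) (T.l 204)) (T.l 204))) (T.c (T.b (T.c (T.b (T.l 204) (T.l 204)) (T.l 220)) (T.l 204)) (T.b (T.a (T.l 204) (T.l 204)) (T.l 204)))) (T.a (T.l 16) (T.l 0)))) (T.b (T.a (T.a (T.l 0) (T.l 0)) (T.b (T.l 0) (T.l 0))) (T.a (T.a (T.l 0) (T.l 0)) (T.l 0)))), by decide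 +kernel⟩

def B022E_120 :
    ∃ t, chk3 (onCell 0 67108864 0 1073741824 134217728 67108864 (corT false 3 c0N cB022E gN1q0 gN2q2 gN0q2 gN1q2 true true)) t 1 1 1 = true :=
  ⟨(T.l 2), by decide +kernel⟩

def B022E_121 :
    ∃ t, chk3 (onCell 0 67108864 0 1073741824 134217728 67108864 (corT false 3 c0N cB022E gN1q0 gN2q2 gN1q2 gN2q2 true true)) t 1 1 1 = true :=
  ⟨(T.l 2), by decide +kernel⟩

def B022E_122 :
    ∃ t, chk3 (onCell 0 67108864 0 1073741824 134217728 67108864 (corT false 3 c0N cB022E gN1q0 gN2q2 gN2q2 gN3q2 true false)) t 1 1 1 = true :=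
  ⟨(T.b (T.b (T.a (T.a (T.c (T.c (T.l 204) (T.l 204)) (T.l 204)) (T.b (T.c (T.a (T.l 204) (T.c (T.l 204) (T.l 204))) (T.a (T.l 204) (T.l 204))) (T.l 0))) (T.a (T.c (T.b (T.b (T.c (T.l 204) (T.l 204)) (T.l 204)) (T.l 0)) (T.b (T.a (T.l 204) (T.l 204)) (T.l 0))) (T.b (T.c (T.c (T.l 204) (T.l 204)) (T.b (T.l 204) (T.l 204))) (T.l 204)))) (T.a (T.a (T.l 0) (T.l 0)) (T.b (T.l 16) (T.l 0)))) (T.b (T.a (T.a (T.l 0) (T.l 0)) (T.b (T.l 0) (T.l 0))) (T.a (T.a (T.l 816) (T.l 0)) (T.l 0)))), by decide +kernel⟩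

def B022E_200 :
    ∃ t, chk3 (onCell 0 67108864 0 1073741824 134217728 67108864 (corT false 3 c0N cB022E gN2q0 gN0q2 gN0q2 gN1q2 true true)) t 1 1 1 = true :=
  ⟨(T.l 2), by decide +kernel⟩

def B022E_201 :
    ∃ t, chk3 (onCell 0 67108864 0 1073741824 134217728 67108864 (corT false 3 c0N cB022E gN2q0 gN0q2 gN1q2 gN2q2 true true)) t 1 1 1 = true :=
  ⟨(T.l 2), by decide +kernel⟩

def B022E_202 :
    ∃ t, chk3 (onCell 0 67108864 0 1073741824 134217728 67108864 (corT false 3 c0N cB022E gN2q0 gN0q2 gN2q2 gN3q2 true false)) t 1 1 1 = true :=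
  ⟨(T.b (T.a (T.a (T.b (T.b (T.c (T.b (T.b (T.c (T.b (T.a (T.c (T.l 204) (T.l 204)) (T.l 204)) (T.l 204)) (T.a (T.c (T.l 204) (T.l 204)) (T.l 204))) (T.l 204)) (T.l 204)) (T.b (T.b (T.b (T.c (T.c (T.l 204) (T.l 204)) (T.a (T.l 204) (T.l 204))) (T.l 204)) (T.l 204)) (T.l 204))) (T.l 204)) (T.l 204)) (T.b (T.b (T.c (T.b (T.a (T.c (T.l 204) (T.l 204)) (T.c (T.l 204) (T.l 204))) (T.l 204)) (T.a (T.c (T.l 204) (T.l 204)) (T.c (T.l 204) (T.l 204)))) (T.l 204)) (T.l 204))) (T.b (T.a (T.b (T.c (T.b (T.a (T.c (T.l 204) (T.l 204)) (T.c (T.l 204) (T.l 204))) (T.l 204)) (T.a (T.b (T.l 204) (T.l 204)) (T.l 204))) (T.b (T.l 204) (T.l 204))) (T.b (T.c (T.b (T.b (T.c (T.a (T.l 204) (T.l 204)) (T.l 204)) (T.l 204)) (T.l 204)) (T.a (T.l 204) (T.l 204))) (T.l 204))) (T.a (T.l 204) (T.l 0)))) (T.a (T.a (T.l 204) (T.l 204)) (T.b (T.b (T.l 0) (T.l 204)) (T.l 204)))),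 by decide +kernel⟩

def B022E_210 :
    ∃ t, chk3 (onCell 0 67108864 0 1073741824 134217728 67108864 (corT false 3 c0N cB022E gN2q0 gN1q2 gN0q2 gN1q2 true true)) t 1 1 1 = true :=
  ⟨(T.l 2), by decide +kernel⟩

def B022E_211 :
    ∃ t, chk3 (onCell 0 67108864 0 1073741824 134217728 67108864 (corT false 3 c0N cB022E gN2q0 gN1q2 gN1q2 gN2q2 true true)) t 1 1 1 = true :=
  ⟨(T.l 2), by decide +kernel⟩

def B022E_212 :
    ∃ t, chk3 (onCell 0 67108864 0 1073741824 134217728 67108864 (corT false 3 c0N cB022E gN2q0 gN1q2 gN2q2 gN3q2 true false)) t 1 1 1 = true :=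
  ⟨(T.b (T.a (T.a (T.b (T.c (T.b (T.c (T.b (T.l 204) (T.l 204)) (T.l 204)) (T.l 204)) (T.b (T.c (T.l 204) (T.l 204)) (T.l 204))) (T.l 204)) (T.b (T.b (T.a (T.c (T.c (T.l 204) (T.l 204)) (T.l 204)) (T.c (T.c (T.b (T.l 204) (T.l 204)) (T.l 204)) (T.c (T.l 204) (T.l 204)))) (T.l 204)) (T.l 204))) (T.b (T.a (T.b (T.c (T.b (T.b (T.c (T.a (T.l 204) (T.l 204)) (T.l 204)) (T.l 204)) (T.l 204)) (T.a (T.b (T.l 204) (T.l 204)) (T.l 204))) (T.l 204)) (T.b (T.c (T.b (T.c (T.l 204) (T.l 204)) (T.l 204)) (T.a (T.l 204) (T.l 204))) (T.l 204))) (T.b (T.l 0) (T.l 0)))) (T.b (T.a (T.a (T.l 204) (T.l 204)) (T.b (T.l 0) (T.l 204))) (T.a (T.a (T.l 204) (T.l 204)) (T.l 204)))), by decide +kernel⟩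

def B022E_220 :
    ∃ t, chk3 (onCell 0 67108864 0 1073741824 134217728 67108864 (corT false 3 c0N cB022E gN2q0 gN2q2 gN0q2 gN1q2 true true)) t 1 1 1 = true :=
  ⟨(T.l 2), by decide +kernel⟩

def B022E_221 :
    ∃ t, chk3 (onCell 0 67108864 0 1073741824 134217728 67108864 (corT false 3 c0N cB022E gN2q0 gN2q2 gN1q2 gN2q2 true true)) t 1 1 1 = true :=
  ⟨(T.l 2), by decide +kernel⟩

def B022E_222 :
    ∃ t, chk3 (onCell 0 67108864 0 1073741824 134217728 67108864 (corT false 3 c0N cB022E gN2q0 gN2q2 gN2q2 gN3q2 true false)) t 1 1 1 = true :=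
  ⟨(T.b (T.b (T.a (T.a (T.c (T.c (T.l 204) (T.l 204)) (T.l 204)) (T.b (T.c (T.a (T.l 204) (T.c (T.l 204) (T.l 204))) (T.a (T.l 204) (T.l 204))) (T.l 204))) (T.b (T.c (T.b (T.a (T.c (T.l 204) (T.l 204)) (T.c (T.l 204) (T.l 204))) (T.l 204)) (T.a (T.a (T.l 204) (T.l 204)) (T.b (T.l 204) (T.l 204)))) (T.b (T.l 0) (T.l 0)))) (T.a (T.a (T.l 204) (T.l 204)) (T.b (T.l 0) (T.l 0)))) (T.b (T.a (T.a (T.l 204) (T.l 204)) (T.l 0)) (T.a (T.a (T.l 204) (T.l 204)) (T.l 204)))), by decide +kernel⟩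

def B022L_050_1_2_1 :
    ∃ t, chk3 (onCell 0 67108864 0 1073741824 134217728 67108864 (corT false 3 c0N cB022L gN0q0 gN5q2 gN0q2 gN1q2 true true)) t 1 2 1 = true :=
  ⟨(T.b (T.l 2) (T.b (T.b (T.l 2) (T.a (T.c (T.a (T.l 204) (T.l 204)) (T.l 204)) (T.b (T.l 2) (T.b (T.a (T.c (T.a (T.l 204) (T.l 204)) (T.l 460)) (T.l 2)) (T.a (T.c (T.a (T.l 204) (T.l 204)) (T.l 460)) (T.b (T.a (T.c (T.l 204) (T.l 204)) (T.c (T.l 204) (T.l 204))) (T.c (T.l 204) (T.l 204)))))))) (T.a (T.c (T.b (T.a (T.l 204) (T.l 204)) (T.a (T.l 204) (T.l 204))) (T.b (T.l 204) (T.l 204))) (T.a (T.c (T.b (T.l 204) (T.l 204)) (T.l 204)) (T.b (T.c (T.a (T.l 476) (T.l 204)) (T.b (T.l 204) (T.l 204))) (T.c (T.a (T.b (T.l 204) (T.l 204)) (T.l 476)) (T.b (T.l 204) (T.l 204)))))))), by decide +kernel⟩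

def B022L_050_1_3_1 :
    ∃ t, chk3 (onCell 0 67108864 0 1073741824 134217728 67108864 (corT false 3 c0N cB022L gN0q0 gN5q2 gN0q2 gN1q2 true true)) t 1 3 1 = true :=
  ⟨(T.b (T.b (T.b (T.a (T.c (T.c (T.l 204) (T.l 204)) (T.a (T.l 204) (T.l 204))) (T.a (T.c (T.l 204) (T.l 204)) (T.c (T.a (T.l 204) (T.b (T.l 204) (T.l 204))) (T.b (T.l 460) (T.l 204))))) (T.c (T.a (T.c (T.a (T.l 204) (T.l 204)) (T.a (T.l 204) (T.l 204))) (T.b (T.l 204) (T.a (T.l 204) (T.l 0)))) (T.a (T.a (T.l 204) (T.l 0)) (T.a (T.l 0) (T.l 0))))) (T.b (T.b (T.c (T.a (T.a (T.l 0) (T.l 0)) (T.a (T.l 0) (T.l 0))) (T.a (T.a (T.l 0) (T.l 0)) (T.a (T.l 0) (T.l 0)))) (T.b (T.a (T.a (T.b (T.c (T.l 0) (T.l 0)) (T.b (T.c (T.l 0) (T.l 0)) (T.a (T.l 1) (T.b (T.b (T.l 0) (T.l 1)) (T.l 1))))) (T.b (T.c (T.l 0) (T.l 0)) (T.b (T.l 0) (T.b (T.c (T.l 816) (T.l 0)) (T.a (T.l 1) (T.b (T.c (T.l 816)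 (T.l 816)) (T.l 1))))))) (T.c (T.a (T.a (T.c (T.l 816) (T.l 0)) (T.l 0)) (T.l 0)) (T.a (T.a (T.l 0) (T.l 0)) (T.l 0)))) (T.a (T.l 1) (T.b (T.b (T.b (T.a (T.a (T.l 1) (T.a (T.l 1) (T.b (T.l 816) (T.l 1)))) (T.a (T.c (T.c (T.a (T.l 816) (T.l 816)) (T.l 816)) (T.l 816)) (T.l 816))) (T.l 1)) (T.l 1)) (T.l 1))))) (T.l 1))) (T.l 1)), by decide +kernel⟩

theorem B022L_050 :
    ∃ t, chk3 (onCell 0 67108864 0 1073741824 134217728 67108864 (corT false 3 c0N cB022L gN0q0 gN5q2 gN0q2 gN1q2 true true)) t 1 1 1 = true :=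
  ex3_b B022L_050_1_2_1 B022L_050_1_3_1

def B022L_051 :
    ∃ t, chk3 (onCell 0 67108864 0 1073741824 134217728 67108864 (corT false 3 c0N cB022L gN0q0 gN5q2 gN1q2 gN2q2 true true)) t 1 1 1 = true :=
  ⟨(T.b (T.b (T.b (T.a (T.a (T.c (T.l 204) (T.l 204)) (T.a (T.c (T.l 204) (T.l 204)) (T.c (T.b (T.l 204) (T.l 204)) (T.b (T.l 204) (T.l 204))))) (T.a (T.c (T.a (T.b (T.l 204) (T.l 204)) (T.b (T.l 204) (T.l 204))) (T.a (T.l 204) (T.l 204))) (T.c (T.a (T.l 460) (T.l 204)) (T.b (T.l 204) (T.l 204))))) (T.a (T.c (T.l 204) (T.l 204)) (T.a (T.c (T.a (T.b (T.l 204) (T.l 204)) (T.b (T.l 204) (T.l 204))) (T.a (T.b (T.l 204) (T.l 204)) (T.l 204))) (T.c (T.b (T.l 460) (T.l 460)) (T.b (T.l 204) (T.l 204)))))) (T.b (T.a (T.c (T.b (T.l 204) (T.l 204)) (T.l 204)) (T.a (T.c (T.a (T.l 204) (T.b (T.l 204) (T.l 204))) (T.a (T.l 204) (T.b (T.l 204) (T.l 204)))) (T.c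 (T.b (T.l 476) (T.b (T.l 204) (T.l 204))) (T.b (T.l 204) (T.l 0))))) (T.l 1))) (T.l 1)), by decide +kernel⟩

def B022L_052 :
    ∃ t, chk3 (onCell 0 67108864 0 1073741824 134217728 67108864 (corT false 3 c0N cB022L gN0q0 gN5q2 gN2q2 gN3q2 true false)) t 1 1 1 = true :=
  ⟨(T.l 1), by decide +kernel⟩

def B022L_150 :
    ∃ t, chk3 (onCell 0 67108864 0 1073741824 134217728 67108864 (corT false 3 c0N cB022L gN1q0 gN5q2 gN0q2 gN1q2 true true)) t 1 1 1 = true :=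
  ⟨(T.b (T.b (T.b (T.l 2) (T.a (T.l 0) (T.b (T.a (T.b (T.l 2) (T.l 0)) (T.l 2)) (T.a (T.l 0) (T.b (T.l 0) (T.l 0)))))) (T.a (T.l 0) (T.b (T.a (T.l 0) (T.b (T.l 0) (T.l 0))) (T.b (T.l 0) (T.l 0))))) (T.l 1)), by decide +kernel⟩

def B022L_151 :
    ∃ t, chk3 (onCell 0 67108864 0 1073741824 134217728 67108864 (corT false 3 c0N cB022L gN1q0 gN5q2 gN1q2 gN2q2 true true)) t 1 1 1 = true :=
  ⟨(T.b (T.b (T.b (T.a (T.a (T.c (T.l 204) (T.l 204)) (T.a (T.c (T.l 204) (T.l 204)) (T.c (T.b (T.l 204) (T.l 204)) (T.l 256)))) (T.a (T.c (T.a (T.b (T.l 204) (T.l 204)) (T.l 204)) (T.a (T.l 0) (T.l 204))) (T.c (T.b (T.l 204) (T.l 204)) (T.b (T.l 204) (T.l 204))))) (T.a (T.l 204) (T.a (T.b (T.l 0) (T.l 0)) (T.b (T.l 0) (T.l 0))))) (T.l 1)) (T.l 1)), by decide +kernel⟩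

def B022L_152 :
    ∃ t, chk3 (onCell 0 67108864 0 1073741824 134217728 67108864 (corT false 3 c0N cB022L gN1q0 gN5q2 gN2q2 gN3q2 true false)) t 1 1 1 = true :=
  ⟨(T.l 1), by decide +kernel⟩

def B022L_250 :
    ∃ t, chk3 (onCell 0 67108864 0 1073741824 134217728 67108864 (corT false 3 c0N cB022L gN2q0 gN5q2 gN0q2 gN1q2 true true)) t 1 1 1 = true :=
  ⟨(T.b (T.b (T.b (T.a (T.b (T.l 2) (T.l 204)) (T.l 2)) (T.a (T.l 204) (T.a (T.a (T.l 204) (T.b (T.l 0) (T.l 204))) (T.b (T.b (T.l 0) (T.l 0)) (T.l 0))))) (T.a (T.l 204) (T.b (T.a (T.l 0) (T.b (T.l 0) (T.l 0))) (T.b (T.l 0) (T.l 1))))) (T.l 1)), by decide +kernel⟩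

def B022L_251 :
    ∃ t, chk3 (onCell 0 67108864 0 1073741824 134217728 67108864 (corT false 3 c0N cB022L gN2q0 gN5q2 gN1q2 gN2q2 true true)) t 1 1 1 = true :=
  ⟨(T.b (T.b (T.b (T.a (T.a (T.c (T.l 204) (T.l 204)) (T.a (T.c (T.l 204) (T.l 204)) (T.c (T.b (T.l 204) (T.l 204)) (T.b (T.l 204) (T.l 204))))) (T.a (T.c (T.a (T.b (T.l 204) (T.l 204)) (T.l 204)) (T.a (T.l 204) (T.l 204))) (T.c (T.b (T.l 204) (T.l 204)) (T.b (T.l 204) (T.l 204))))) (T.b (T.a (T.l 204) (T.a (T.l 0) (T.l 204))) (T.l 1))) (T.l 1)) (T.l 1)), by decide +kernel⟩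

def B022L_252 :
    ∃ t, chk3 (onCell 0 67108864 0 1073741824 134217728 67108864 (corT false 3 c0N cB022L gN2q0 gN5q2 gN2q2 gN3q2 true false)) t 1 1 1 = true :=
  ⟨(T.l 1), by decide +kernel⟩

def B022R_004 :
    ∃ t, chk3 (onCell 0 67108864 0 1073741824 134217728 67108864 (corT false 3 c0N cB022R gN0q0 gN0q2 gN4q2 gN5q2 false true)) t 1 1 1 = true :=
  ⟨(T.a (T.a (T.c (T.b (T.b (T.c (T.b (T.b (T.c (T.b (T.c (T.l 204) (T.l 204)) (T.l 204)) (T.b (T.l 204) (T.l 204))) (T.c (T.l 204) (T.l 204))) (T.b (T.l 204) (T.l 204))) (T.b (T.b (T.c (T.l 204) (T.l 204)) (T.l 204)) (T.l 204))) (T.c (T.b (T.l 204) (T.l 204)) (T.l 204))) (T.c (T.b (T.l 204) (T.l 204)) (T.l 204))) (T.b (T.b (T.c (T.b (T.c (T.l 204) (T.l 204)) (T.l 204)) (T.b (T.l 220) (T.l 204))) (T.b (T.l 204) (T.l 204))) (T.b (T.l 204) (T.l 204)))) (T.c (T.b (T.a (T.c (T.b (T.b (T.l 204) (T.l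 204)) (T.l 204)) (T.b (T.b (T.l 204) (T.l 204)) (T.l 204))) (T.c (T.b (T.b (T.l 460) (T.l 204)) (T.l 204)) (T.b (T.b (T.l 204) (T.l 204)) (T.l 204)))) (T.c (T.b (T.l 460) (T.l 204)) (T.b (T.l 204) (T.l 204)))) (T.b (T.a (T.b (T.c (T.l 204) (T.l 204)) (T.l 204)) (T.b (T.c (T.l 204) (T.l 204)) (T.l 204))) (T.a (T.l 0) (T.l 256))))) (T.b (T.a (T.c (T.a (T.c (T.b (T.b (T.l 204) (T.l 204)) (T.l 204)) (T.b (T.l 204) (T.l 204))) (T.c (T.b (T.b (T.l 204) (T.l 204)) (T.l 204)) (T.b (T.l 204) (T.l 204)))) (T.a (T.b (T.c (T.l 204) (T.l 204)) (T.l 204)) (T.b (T.c (T.l 204) (T.l 204)) (T.l 204)))) (T.c (T.b (T.c (T.a (T.l 204) (T.l 204)) (T.a (T.l 204) (T.l 204))) (T.c (T.l 460) (T.l 460))) (T.b (T.a (T.c (T.l 204) (T.l 204)) (T.b (T.l 204) (T.l 204))) (T.b (T.l 460) (T.l 204))))) (T.a (T.c (T.a (T.c (T.l 204) (T.l 204)) (T.c (T.l 204) (T.l 0))) (T.a (T.l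 256) (T.l 256))) (T.c (T.b (T.a (T.l 460) (T.l 460)) (T.a (T.l 204) (T.l 460))) (T.b (T.l 460) (T.l 256)))))), by decide +kernel⟩

def B022R_014 :
    ∃ t, chk3 (onCell 0 67108864 0 1073741824 134217728 67108864 (corT false 3 c0N cB022R gN0q0 gN1q2 gN4q2 gN5q2 false true)) t 1 1 1 = true :=
  ⟨(T.b (T.a (T.a (T.c (T.c (T.l 204) (T.l 204)) (T.l 256)) (T.c (T.a (T.b (T.l 204) (T.l 204)) (T.b (T.l 204) (T.l 0))) (T.a (T.l 0) (T.l 0)))) (T.c (T.a (T.c (T.l 256) (T.l 256)) (T.c (T.l 256) (T.l 0))) (T.a (T.b (T.l 204) (T.l 0)) (T.b (T.l 204) (T.l 0))))) (T.a (T.a (T.c (T.l 0) (T.l 0)) (T.c (T.a (T.l 0) (T.l 64)) (T.a (T.l 0) (T.l 0)))) (T.a (T.c (T.c (T.l 0) (T.l 0)) (T.b (T.l 0) (T.l 0))) (T.c (T.b (T.l 0) (T.c (T.l 0) (T.l 0))) (T.b (T.l 0) (T.b (T.l 816) (T.l 816))))))), by decide +kernel⟩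

def B022R_024 :
    ∃ t, chk3 (onCell 0 67108864 0 1073741824 134217728 67108864 (corT false 3 c0N cB022R gN0q0 gN2q2 gN4q2 gN5q2 false true)) t 1 1 1 = true :=
  ⟨(T.b (T.l 2) (T.b (T.b (T.b (T.l 2) (T.a (T.l 2) (T.c (T.a (T.l 2) (T.l 816)) (T.l 816)))) (T.a (T.b (T.b (T.a (T.l 2) (T.c (T.l 816) (T.l 816))) (T.a (T.c (T.l 816) (T.l 816)) (T.c (T.l 816) (T.l 816)))) (T.a (T.c (T.l 816) (T.l 816)) (T.c (T.l 880) (T.l 816)))) (T.c (T.a (T.l 816) (T.l 816)) (T.l 880)))) (T.a (T.a (T.c (T.l 880) (T.l 816)) (T.c (T.c (T.l 816) (T.l 816)) (T.a (T.l 816) (T.l 816)))) (T.c (T.a (T.c (T.l 816) (T.l 816)) (T.c (T.l 880) (T.l 816))) (T.a (T.l 880) (T.b (T.l 816) (T.l 816))))))), by decide +kernel⟩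

def B022R_104 :
    ∃ t, chk3 (onCell 0 67108864 0 1073741824 134217728 67108864 (corT false 3 c0N cB022R gN1q0 gN0q2 gN4q2 gN5q2 false true)) t 1 1 1 = true :=
  ⟨(T.a (T.a (T.b (T.b (T.c (T.b (T.b (T.c (T.b (T.c (T.c (T.l 204) (T.l 204)) (T.l 204)) (T.l 204)) (T.c (T.l 204) (T.l 204))) (T.l 204)) (T.l 204)) (T.b (T.c (T.c (T.l 204) (T.l 204)) (T.l 204)) (T.l 204))) (T.l 204)) (T.l 0)) (T.b (T.b (T.c (T.b (T.b (T.c (T.a (T.l 204) (T.l 204)) (T.a (T.l 204) (T.l 204))) (T.l 204)) (T.l 204)) (T.b (T.b (T.a (T.c (T.l 204) (T.l 204)) (T.c (T.l 204) (T.l 204))) (T.l 204)) (T.l 204))) (T.l 204)) (T.l 0))) (T.b (T.a (T.b (T.c (T.b (T.b (T.a (T.c (T.l 204) (T.l 204)) (T.c (T.l 204) (T.l 204))) (T.l 204)) (T.l 204)) (T.b (T.b (T.a (T.c (T.l 204) (T.l 204)) (T.c (T.l 204) (T.l 204))) (T.l 204)) (T.l 204))) (T.l 0)) (T.b (T.c (T.b (T.b (T.c (T.b (T.l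 460) (T.l 204)) (T.l 204)) (T.l 204)) (T.l 204)) (T.b (T.c (T.l 460) (T.l 204)) (T.l 204))) (T.l 0))) (T.b (T.l 0) (T.l 0)))), by decide +kernel⟩

def B022R_114 :
    ∃ t, chk3 (onCell 0 67108864 0 1073741824 134217728 67108864 (corT false 3 c0N cB022R gN1q0 gN1q2 gN4q2 gN5q2 false true)) t 1 1 1 = true :=
  ⟨(T.a (T.a (T.b (T.c (T.c (T.l 0) (T.l 0)) (T.l 256)) (T.l 816)) (T.b (T.b (T.c (T.a (T.l 204) (T.l 204)) (T.a (T.l 204) (T.l 204))) (T.l 0)) (T.l 0))) (T.b (T.b (T.c (T.b (T.a (T.b (T.l 204) (T.l 204)) (T.l 204)) (T.l 0)) (T.a (T.l 0) (T.l 0))) (T.l 0)) (T.l 0))), by decide +kernel⟩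

def B022R_124 :
    ∃ t, chk3 (onCell 0 67108864 0 1073741824 134217728 67108864 (corT false 3 c0N cB022R gN1q0 gN2q2 gN4q2 gN5q2 false true)) t 1 1 1 = true :=
  ⟨(T.l 2), by decide +kernel⟩

def B022R_204 :
    ∃ t, chk3 (onCell 0 67108864 0 1073741824 134217728 67108864 (corT false 3 c0N cB022R gN2q0 gN0q2 gN4q2 gN5q2 false true)) t 1 1 1 = true :=
  ⟨(T.a (T.a (T.b (T.b (T.b (T.c (T.b (T.b (T.c (T.c (T.c (T.l 204) (T.l 204)) (T.l 204)) (T.c (T.l 204) (T.l 204))) (T.l 204)) (T.l 204)) (T.c (T.c (T.l 204) (T.l 204)) (T.l 204))) (T.l 204)) (T.l 204)) (T.l 0)) (T.b (T.b (T.b (T.c (T.b (T.b (T.c (T.a (T.l 204) (T.l 204)) (T.a (T.l 204) (T.l 204))) (T.l 204)) (T.l 204)) (T.b (T.b (T.a (T.c (T.l 204) (T.l 204)) (T.c (T.l 204) (T.l 204))) (T.l 204)) (T.l 204))) (T.l 204)) (T.l 204)) (T.l 0))) (T.b (T.b (T.a (T.b (T.c (T.b (T.a (T.c (T.l 204) (T.l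 204)) (T.c (T.l 204) (T.l 204))) (T.l 204)) (T.b (T.b (T.a (T.c (T.l 204) (T.l 204)) (T.c (T.l 204) (T.l 204))) (T.l 204)) (T.l 204))) (T.l 204)) (T.b (T.c (T.b (T.c (T.b (T.l 460) (T.l 204)) (T.l 204)) (T.l 204)) (T.c (T.l 460) (T.l 204))) (T.l 204))) (T.b (T.l 0) (T.l 0))) (T.l 0))), by decide +kernel⟩

def B022R_214 :
    ∃ t, chk3 (onCell 0 67108864 0 1073741824 134217728 67108864 (corT false 3 c0N cB022R gN2q0 gN1q2 gN4q2 gN5q2 false true)) t 1 1 1 = true :=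
  ⟨(T.b (T.a (T.a (T.b (T.c (T.b (T.l 204) (T.l 204)) (T.l 204)) (T.l 0)) (T.b (T.c (T.a (T.l 204) (T.b (T.l 204) (T.l 204))) (T.a (T.l 204) (T.l 204))) (T.l 0))) (T.b (T.b (T.c (T.a (T.b (T.l 204) (T.l 204)) (T.l 204)) (T.a (T.l 204) (T.l 204))) (T.l 0)) (T.l 0))) (T.a (T.l 2) (T.l 0))), by decide +kernel⟩

def B022R_224 :
    ∃ t, chk3 (onCell 0 67108864 0 1073741824 134217728 67108864 (corT false 3 c0N cB022R gN2q0 gN2q2 gN4q2 gN5q2 false true)) t 1 1 1 = true :=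
  ⟨(T.l 2), by decide +kernel⟩

def B101E_000 :
    ∃ t, chk3 (onCell 0 53687091 0 1073741824 134217728 67108864 (corT false 3 c0N cB101E gN0q1 gN0q1 gN0q0 gN1q0 true true)) t 1 1 1 = true :=
  ⟨(T.l 2), by decide +kernel⟩

def B101E_001 :
    ∃ t, chk3 (onCell 0 53687091 0 1073741824 134217728 67108864 (corT false 3 c0N cB101E gN0q1 gN0q1 gN1q0 gN2q0 true true)) t 1 1 1 = true :=
  ⟨(T.b (T.l 2) (T.l 2)), by decide +kernel⟩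

def B101E_002 :
    ∃ t, chk3 (onCell 0 53687091 0 1073741824 134217728 67108864 (corT false 3 c0N cB101E gN0q1 gN0q1 gN2q0 gN3q0 true false)) t 1 1 1 = true :=
  ⟨(T.a (T.b (T.l 204) (T.l 0)) (T.b (T.b (T.b (T.l 204) (T.l 204)) (T.l 204)) (T.l 0))), by decide +kernel⟩

def B101L_300_1_2_1 :
    ∃ t, chk3 (onCell 0 67108864 0 1073741824 134217728 67108864 (corT false 3 c0N cB101L gN3q1 gN0q1 gN0q0 gN1q0 true true)) t 1 2 1 = true :=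
  ⟨(T.l 1), by decide +kernel⟩

def B101L_300_1_6_1 :
    ∃ t, chk3 (onCell 0 67108864 0 1073741824 134217728 67108864 (corT false 3 c0N cB101L gN3q1 gN0q1 gN0q0 gN1q0 true true)) t 1 6 1 = true :=
  ⟨(T.l 1), by decide +kernel⟩

def B101L_300_1_14_1 :
    ∃ t, chk3 (onCell 0 67108864 0 1073741824 134217728 67108864 (corT false 3 c0N cB101L gN3q1 gN0q1 gN0q0 gN1q0 true true)) t 1 14 1 = true :=
  ⟨(T.l 1), by decide +kernel⟩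

def B101L_300_1_60_1 :
    ∃ t, chk3 (onCell 0 67108864 0 1073741824 134217728 67108864 (corT false 3 c0N cB101L gN3q1 gN0q1 gN0q0 gN1q0 true true)) t 1 60 1 = true :=
  ⟨(T.l 1), by decide +kernel⟩

def B101L_300_1_122_1 :
    ∃ t, chk3 (onCell 0 67108864 0 1073741824 134217728 67108864 (corT false 3 c0N cB101L gN3q1 gN0q1 gN0q0 gN1q0 true true)) t 1 122 1 = true :=
  ⟨(T.l 1), by decide +kernel⟩

def B101L_300_1_246_1 :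
    ∃ t, chk3 (onCell 0 67108864 0 1073741824 134217728 67108864 (corT false 3 c0N cB101L gN3q1 gN0q1 gN0q0 gN1q0 true true)) t 1 246 1 = true :=
  ⟨(T.l 1), by decide +kernel⟩

def B101L_300_1_494_1 :
    ∃ t, chk3 (onCell 0 67108864 0 1073741824 134217728 67108864 (corT false 3 c0N cB101L gN3q1 gN0q1 gN0q0 gN1q0 true true)) t 1 494 1 = true :=
  ⟨(T.a (T.b (T.l 1) (T.a (T.b (T.l 1) (T.b (T.l 1) (T.c (T.a (T.b (T.a (T.a (T.a (T.b (T.l 1) (T.b (T.l 1) (T.b (T.l 1) (T.c (T.c (T.l 816) (T.l 816)) (T.c (T.l 816) (T.l 816)))))) (T.l 1)) (T.l 1)) (T.l 1)) (T.c (T.c (T.l 816) (T.l 816)) (T.c (T.l 816) (T.l 816)))) (T.c (T.c (T.l 816) (T.l 816)) (T.l 816))) (T.c (T.c (T.l 816) (T.l 816)) (T.l 816))))) (T.l 1))) (T.l 1)), by decide +kernel⟩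

def B101L_300_1_495_1 :
    ∃ t, chk3 (onCell 0 67108864 0 1073741824 134217728 67108864 (corT false 3 c0N cB101L gN3q1 gN0q1 gN0q0 gN1q0 true true)) t 1 495 1 = true :=
  ⟨(T.b (T.a (T.b (T.a (T.b (T.c (T.c (T.c (T.l 816) (T.l 816)) (T.c (T.l 816) (T.l 816))) (T.c (T.l 816) (T.l 816))) (T.c (T.c (T.c (T.l 816) (T.l 816)) (T.l 816)) (T.c (T.l 816) (T.l 816)))) (T.c (T.c (T.l 816) (T.l 816)) (T.c (T.l 816) (T.l 816)))) (T.c (T.c (T.c (T.l 816) (T.l 816)) (T.a (T.l 816) (T.l 816))) (T.c (T.l 816) (T.l 816)))) (T.b (T.a (T.c (T.c (T.l 816) (T.l 816)) (T.c (T.l 816) (T.l 816))) (T.b (T.l 1) (T.c (T.a (T.c (T.l 820) (T.l 816)) (T.c (T.l 820) (T.l 816))) (T.a (T.c (T.l 816) (T.l 816)) (T.c (T.l 816) (T.l 816)))))) (T.a (T.c (T.c (T.l 816) (T.l 816)) (T.l 820)) (T.b (T.c (T.c (T.a (T.l 820) (T.l 820)) (T.a (T.l 816) (T.l 816))) (T.c (T.a (T.l 816)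 (T.l 816)) (T.a (T.l 816) (T.l 816)))) (T.c (T.c (T.a (T.l 816) (T.l 816)) (T.a (T.l 816) (T.l 816))) (T.c (T.a (T.l 816) (T.l 816)) (T.a (T.l 816) (T.l 816)))))))) (T.a (T.c (T.c (T.l 816) (T.l 816)) (T.c (T.l 816) (T.l 816))) (T.b (T.a (T.c (T.c (T.l 816) (T.l 816)) (T.l 816)) (T.b (T.c (T.c (T.a (T.l 816) (T.l 816)) (T.a (T.l 816) (T.l 816))) (T.c (T.a (T.l 816) (T.l 816)) (T.l 884))) (T.c (T.c (T.a (T.l 816) (T.l 816)) (T.l 884)) (T.c (T.l 820) (T.l 820))))) (T.a (T.c (T.c (T.l 816) (T.l 816)) (T.l 816)) (T.c (T.c (T.a (T.l 816) (T.l 816)) (T.l 820)) (T.a (T.l 820) (T.l 820))))))), by decide +kernel⟩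

def B101L_300_1_31_1 :
    ∃ t, chk3 (onCell 0 67108864 0 1073741824 134217728 67108864 (corT false 3 c0N cB101L gN3q1 gN0q1 gN0q0 gN1q0 true true)) t 1 31 1 = true :=
  ⟨(T.a (T.c (T.c (T.a (T.l 816) (T.l 816)) (T.l 880)) (T.c (T.l 816) (T.l 816))) (T.a (T.b (T.c (T.c (T.l 816) (T.l 816)) (T.l 816)) (T.l 816)) (T.c (T.b (T.c (T.a (T.l 816) (T.l 816)) (T.l 884)) (T.l 816)) (T.b (T.c (T.l 820) (T.l 816)) (T.l 816))))), by decide +kernel⟩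

theorem B101L_300_1_247_1 :
    ∃ t, chk3 (onCell 0 67108864 0 1073741824 134217728 67108864 (corT false 3 c0N cB101L gN3q1 gN0q1 gN0q0 gN1q0 true true)) t 1 247 1 = true :=
  ex3_b B101L_300_1_494_1 B101L_300_1_495_1
theorem B101L_300_1_123_1 :
    ∃ t, chk3 (onCell 0 67108864 0 1073741824 134217728 67108864 (corT false 3 c0N cB101L gN3q1 gN0q1 gN0q0 gN1q0 true true)) t 1 123 1 = true :=
  ex3_b B101L_300_1_246_1 B101L_300_1_247_1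
theorem B101L_300_1_61_1 :
    ∃ t, chk3 (onCell 0 67108864 0 1073741824 134217728 67108864 (corT false 3 c0N cB101L gN3q1 gN0q1 gN0q0 gN1q0 true true)) t 1 61 1 = true :=
  ex3_b B101L_300_1_122_1 B101L_300_1_123_1
theorem B101L_300_1_30_1 :
    ∃ t, chk3 (onCell 0 67108864 0 1073741824 134217728 67108864 (corT false 3 c0N cB101L gN3q1 gN0q1 gN0q0 gN1q0 true true)) t 1 30 1 = true :=
  ex3_b B101L_300_1_60_1 B101L_300_1_61_1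
theorem B101L_300_1_15_1 :
    ∃ t, chk3 (onCell 0 67108864 0 1073741824 134217728 67108864 (corT false 3 c0N cB101L gN3q1 gN0q1 gN0q0 gN1q0 true true)) t 1 15 1 = true :=
  ex3_b B101L_300_1_30_1 B101L_300_1_31_1
theorem B101L_300_1_7_1 :
    ∃ t, chk3 (onCell 0 67108864 0 1073741824 134217728 67108864 (corT false 3 c0N cB101L gN3q1 gN0q1 gN0q0 gN1q0 true true)) t 1 7 1 = true :=
  ex3_b B101L_300_1_14_1 B101L_300_1_15_1
theorem B101L_300_1_3_1 :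
    ∃ t, chk3 (onCell 0 67108864 0 1073741824 134217728 67108864 (corT false 3 c0N cB101L gN3q1 gN0q1 gN0q0 gN1q0 true true)) t 1 3 1 = true :=
  ex3_b B101L_300_1_6_1 B101L_300_1_7_1
theorem B101L_300 :
    ∃ t, chk3 (onCell 0 67108864 0 1073741824 134217728 67108864 (corT false 3 c0N cB101L gN3q1 gN0q1 gN0q0 gN1q0 true true)) t 1 1 1 = true :=
  ex3_b B101L_300_1_2_1 B101L_300_1_3_1

def B101L_301 :
    ∃ t, chk3 (onCell 0 67108864 0 1073741824 134217728 67108864 (corT false 3 c0N cB101L gN3q1 gN0q1 gN1q0 gN2q0 true true)) t 1 1 1 = true :=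
  ⟨(T.l 1), by decide +kernel⟩

def B101L_302 :
    ∃ t, chk3 (onCell 0 67108864 0 1073741824 134217728 67108864 (corT false 3 c0N cB101L gN3q1 gN0q1 gN2q0 gN3q0 true false)) t 1 1 1 = true :=
  ⟨(T.l 1), by decide +kernel⟩

def B101L_400 :
    ∃ t, chk3 (onCell 0 67108864 0 1073741824 134217728 67108864 (corT false 3 c0N cB101L gN4q1 gN0q1 gN0q0 gN1q0 true true)) t 1 1 1 = true :=
  ⟨(T.b (T.l 1) (T.b (T.l 1) (T.a (T.b (T.b (T.b (T.l 1) (T.b (T.l 1) (T.c (T.c (T.b (T.b (T.b (T.l 1) (T.a (T.c (T.b (T.l 1) (T.l 816)) (T.l 816)) (T.l 880))) (T.a (T.l 816) (T.l 816))) (T.l 816)) (T.b (T.a (T.c (T.a (T.c (T.b (T.b (T.l 1) (T.l 816)) (T.l 816)) (T.l 816)) (T.l 816)) (T.l 816)) (T.l 880)) (T.l 816))) (T.c (T.l 816) (T.l 816))))) (T.c (T.l 816) (T.l 816))) (T.l 0)) (T.b (T.b (T.b (T.l 1) (T.b (T.l 1) (T.a (T.c (T.c (T.c (T.l 880) (T.l 816)) (T.l 816))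 (T.l 816)) (T.c (T.c (T.a (T.l 880) (T.l 880)) (T.l 880)) (T.a (T.l 816) (T.l 816)))))) (T.a (T.c (T.l 816) (T.l 816)) (T.c (T.l 816) (T.l 0)))) (T.b (T.l 0) (T.l 0)))))), by decide +kernel⟩

def B101L_401 :
    ∃ t, chk3 (onCell 0 67108864 0 1073741824 134217728 67108864 (corT false 3 c0N cB101L gN4q1 gN0q1 gN1q0 gN2q0 true true)) t 1 1 1 = true :=
  ⟨(T.l 1), by decide +kernel⟩

def B101L_402 :
    ∃ t, chk3 (onCell 0 67108864 0 1073741824 134217728 67108864 (corT false 3 c0N cB101L gN4q1 gN0q1 gN2q0 gN3q0 true false)) t 1 1 1 = true :=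
  ⟨(T.l 1), by decide +kernel⟩

def B101L_500 :
    ∃ t, chk3 (onCell 0 67108864 0 1073741824 134217728 67108864 (corT false 3 c0N cB101L gN5q1 gN0q1 gN0q0 gN1q0 true true)) t 1 1 1 = true :=
  ⟨(T.b (T.l 1) (T.b (T.b (T.l 1) (T.b (T.b (T.l 1) (T.b (T.b (T.a (T.a (T.l 1) (T.b (T.l 1) (T.b (T.l 1) (T.a (T.l 1) (T.b (T.l 1) (T.c (T.l 204) (T.l 204))))))) (T.b (T.a (T.l 1) (T.a (T.l 1) (T.a (T.l 1) (T.b (T.l 1) (T.b (T.l 1) (T.b (T.l 1) (T.l 204))))))) (T.a (T.b (T.a (T.l 1) (T.b (T.l 1) (T.a (T.b (T.l 1) (T.l 204)) (T.l 204)))) (T.a (T.c (T.c (T.c (T.a (T.c (T.a (T.l 204) (T.l 204)) (T.l 204)) (T.l 204)) (T.l 204)) (T.l 204)) (T.l 204)) (T.l 204))) (T.a (T.b (T.b (T.b (T.l 1) (T.c (T.l 204) (T.l 204))) (T.l 204)) (T.l 204)) (T.l 204))))) (T.a (T.a (T.b (T.b (T.a (T.a (T.l 1) (T.b (T.l 1) (T.b (T.l 1) (T.l 0)))) (T.b (T.a (T.l 1) (T.b (T.l 1) (T.l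 204))) (T.l 0))) (T.l 0)) (T.l 0)) (T.c (T.a (T.l 204) (T.l 204)) (T.l 0))) (T.a (T.l 204) (T.l 204)))) (T.a (T.l 0) (T.l 0)))) (T.a (T.l 0) (T.l 0)))) (T.a (T.l 0) (T.b (T.l 0) (T.l 0))))), by decide +kernel⟩

def B101L_501 :
    ∃ t, chk3 (onCell 0 67108864 0 1073741824 134217728 67108864 (corT false 3 c0N cB101L gN5q1 gN0q1 gN1q0 gN2q0 true true)) t 1 1 1 = true :=
  ⟨(T.l 1), by decide +kernel⟩

def B101L_502 :
    ∃ t, chk3 (onCell 0 67108864 0 1073741824 134217728 67108864 (corT false 3 c0N cB101L gN5q1 gN0q1 gN2q0 gN3q0 true false)) t 1 1 1 = true :=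
  ⟨(T.l 1), by decide +kernel⟩

def B101R_030 :
    ∃ t, chk3 (onCell 0 67108864 0 1073741824 134217728 67108864 (corT false 3 c0N cB101R gN0q1 gN3q1 gN0q0 gN1q0 true true)) t 1 1 1 = true :=
  ⟨(T.l 1), by decide +kernel⟩

def B101R_031 :
    ∃ t, chk3 (onCell 0 67108864 0 1073741824 134217728 67108864 (corT false 3 c0N cB101R gN0q1 gN3q1 gN1q0 gN2q0 true true)) t 1 1 1 = true :=
  ⟨(T.l 1), by decide +kernel⟩

def B101R_032 :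
    ∃ t, chk3 (onCell 0 67108864 0 1073741824 134217728 67108864 (corT false 3 c0N cB101R gN0q1 gN3q1 gN2q0 gN3q0 true false)) t 1 1 1 = true :=
  ⟨(T.l 1), by decide +kernel⟩

def B101R_040 :
    ∃ t, chk3 (onCell 0 67108864 0 1073741824 134217728 67108864 (corT false 3 c0N cB101R gN0q1 gN4q1 gN0q0 gN1q0 true true)) t 1 1 1 = true :=
  ⟨(T.l 1), by decide +kernel⟩

def B101R_041 :
    ∃ t, chk3 (onCell 0 67108864 0 1073741824 134217728 67108864 (corT false 3 c0N cB101R gN0q1 gN4q1 gN1q0 gN2q0 true true)) t 1 1 1 = true :=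
  ⟨(T.l 1), by decide +kernel⟩

def B101R_042 :
    ∃ t, chk3 (onCell 0 67108864 0 1073741824 134217728 67108864 (corT false 3 c0N cB101R gN0q1 gN4q1 gN2q0 gN3q0 true false)) t 1 1 1 = true :=
  ⟨(T.l 1), by decide +kernel⟩

def B101R_050 :
    ∃ t, chk3 (onCell 0 67108864 0 1073741824 134217728 67108864 (corT false 3 c0N cB101R gN0q1 gN5q1 gN0q0 gN1q0 true true)) t 1 1 1 = true :=
  ⟨(T.l 1), by decide +kernel⟩

def B101R_051 :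
    ∃ t, chk3 (onCell 0 67108864 0 1073741824 134217728 67108864 (corT false 3 c0N cB101R gN0q1 gN5q1 gN1q0 gN2q0 true true)) t 1 1 1 = true :=
  ⟨(T.l 1), by decide +kernel⟩

def B101R_052 :
    ∃ t, chk3 (onCell 0 67108864 0 1073741824 134217728 67108864 (corT false 3 c0N cB101R gN0q1 gN5q1 gN2q0 gN3q0 true false)) t 1 1 1 = true :=
  ⟨(T.l 1), by decide +kernel⟩

def B102E_000_1_2_1 :
    ∃ t, chk3 (onCell 0 67108864 0 1073741824 134217728 67108864 (corT false 3 c0N cB102E gN0q1 gN0q2 gN0q0 gN1q0 true true)) t 1 2 1 = true :=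
  ⟨(T.b (T.l 1) (T.b (T.l 1) (T.a (T.b (T.l 1) (T.a (T.b (T.l 1) (T.a (T.b (T.l 1) (T.a (T.b (T.l 1) (T.a (T.b (T.l 1) (T.a (T.b (T.l 1) (T.b (T.l 1) (T.l 0))) (T.l 1))) (T.l 1))) (T.l 1))) (T.l 1))) (T.l 1))) (T.l 1)))), by decide +kernel⟩

def B102E_000_1_3_1 :
    ∃ t, chk3 (onCell 0 67108864 0 1073741824 134217728 67108864 (corT false 3 c0N cB102E gN0q1 gN0q2 gN0q0 gN1q0 true true)) t 1 3 1 = true :=
  ⟨(T.b (T.b (T.a (T.b (T.b (T.b (T.a (T.b (T.a (T.b (T.b (T.a (T.l 0) (T.b (T.l 1) (T.a (T.l 0) (T.l 1)))) (T.l 0)) (T.l 0)) (T.b (T.a (T.b (T.l 1) (T.b (T.a (T.l 0) (T.l 1)) (T.l 0))) (T.l 1)) (T.c (T.c (T.a (T.l 204) (T.c (T.l 204) (T.l 204))) (T.l 0)) (T.l 0)))) (T.l 0)) (T.b (T.a (T.b (T.l 1) (T.b (T.a (T.a (T.b (T.l 1) (T.l 0)) (T.l 1)) (T.l 1)) (T.a (T.l 0) (T.b (T.l 1) (T.a (T.l 0) (T.l 1)))))) (T.l 1)) (T.a (T.l 0) (T.b (T.b (T.a (T.b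 (T.a (T.l 204) (T.l 1)) (T.l 0)) (T.l 1)) (T.c (T.c (T.l 204) (T.l 204)) (T.l 0))) (T.l 0))))) (T.l 0)) (T.l 0)) (T.l 0)) (T.b (T.b (T.a (T.b (T.b (T.l 1) (T.b (T.a (T.a (T.a (T.b (T.l 1) (T.a (T.l 1) (T.l 1))) (T.l 1)) (T.l 1)) (T.l 1)) (T.a (T.a (T.l 0) (T.b (T.b (T.l 1) (T.c (T.l 204) (T.l 204))) (T.l 0))) (T.a (T.b (T.l 1) (T.b (T.a (T.l 1) (T.l 1)) (T.l 204))) (T.l 1))))) (T.a (T.l 0) (T.c (T.c (T.a (T.l 204) (T.l 204)) (T.l 204)) (T.l 0)))) (T.b (T.l 1) (T.b (T.b (T.a (T.b (T.a (T.a (T.l 1) (T.l 1)) (T.l 1)) (T.a (T.l 204) (T.b (T.l 1) (T.c (T.l 204) (T.l 204))))) (T.l 1)) (T.a (T.l 0) (T.b (T.a (T.b (T.l 1) (T.l 204)) (T.l 1)) (T.c (T.a (T.l 204) (T.l 204)) (T.l 204))))) (T.c (T.l 0) (T.l 0))))) (T.a (T.l 0) (T.l 0))) (T.l 0))) (T.a (T.l 0) (T.b (T.l 0) (T.l 0)))) (T.a (T.l 0) (T.b (T.l 0) (T.l 2)))), by decide +kernel⟩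

theorem B102E_000 :
    ∃ t, chk3 (onCell 0 67108864 0 1073741824 134217728 67108864 (corT false 3 c0N cB102E gN0q1 gN0q2 gN0q0 gN1q0 true true)) t 1 1 1 = true :=
  ex3_b B102E_000_1_2_1 B102E_000_1_3_1

def B102E_001 :
    ∃ t, chk3 (onCell 0 67108864 0 1073741824 134217728 67108864 (corT false 3 c0N cB102E gN0q1 gN0q2 gN1q0 gN2q0 true true)) t 1 1 1 = true :=
  ⟨(T.b (T.l 1) (T.b (T.b (T.l 1) (T.a (T.l 0) (T.b (T.l 1) (T.l 1)))) (T.a (T.l 0) (T.b (T.l 0) (T.l 0))))), by decide +kernel⟩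

def B102E_002 :
    ∃ t, chk3 (onCell 0 67108864 0 1073741824 134217728 67108864 (corT false 3 c0N cB102E gN0q1 gN0q2 gN2q0 gN3q0 true false)) t 1 1 1 = true :=
  ⟨(T.b (T.l 1) (T.b (T.l 1) (T.b (T.l 1) (T.a (T.l 816) (T.l 0))))), by decide +kernel⟩

def B102E_010_1_4_1 :
    ∃ t, chk3 (onCell 0 67108864 0 1073741824 134217728 67108864 (corT false 3 c0N cB102E gN0q1 gN1q2 gN0q0 gN1q0 true true)) t 1 4 1 = true :=
  ⟨(T.l 1), by decide +kernel⟩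

def B102E_010_1_20_1 :
    ∃ t, chk3 (onCell 0 67108864 0 1073741824 134217728 67108864 (corT false 3 c0N cB102E gN0q1 gN1q2 gN0q0 gN1q0 true true)) t 1 20 1 = true :=
  ⟨(T.l 1), by decide +kernel⟩

def B102E_010_2_21_1 :
    ∃ t, chk3 (onCell 0 67108864 0 1073741824 134217728 67108864 (corT false 3 c0N cB102E gN0q1 gN1q2 gN0q0 gN1q0 true true)) t 2 21 1 = true :=
  ⟨(T.b (T.b (T.l 1) (T.b (T.a (T.b (T.l 1) (T.a (T.c (T.b (T.a (T.c (T.c (T.l 204) (T.l 204)) (T.l 460)) (T.l 1)) (T.c (T.l 204) (T.l 204))) (T.c (T.a (T.l 204) (T.b (T.l 1) (T.l 204))) (T.a (T.l 204) (T.b (T.l 1) (T.l 204))))) (T.a (T.a (T.a (T.b (T.l 1) (T.a (T.b (T.l 1) (T.c (T.c (T.l 204) (T.l 204)) (T.l 204))) (T.l 1))) (T.l 1)) (T.l 1)) (T.l 1)))) (T.l 1)) (T.c (T.a (T.a (T.l 204) (T.c (T.c (T.l 460) (T.l 204)) (T.l 460))) (T.b (T.a (T.b (T.l 1) (T.c (T.a (T.l 204) (T.b (T.l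 1) (T.l 460))) (T.c (T.a (T.l 204) (T.l 460)) (T.l 460)))) (T.l 1)) (T.c (T.a (T.l 204) (T.b (T.a (T.c (T.l 460) (T.l 204)) (T.l 1)) (T.l 204))) (T.a (T.l 204) (T.a (T.l 460) (T.b (T.l 1) (T.l 204))))))) (T.a (T.c (T.l 204) (T.l 204)) (T.b (T.a (T.b (T.l 1) (T.c (T.l 460) (T.l 204))) (T.l 1)) (T.a (T.l 204) (T.c (T.c (T.a (T.l 204) (T.b (T.l 1) (T.l 204))) (T.l 476)) (T.l 476)))))))) (T.b (T.c (T.a (T.l 204) (T.l 460)) (T.l 204)) (T.l 204))), by decide +kernel⟩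

def B102E_010_3_21_1 :
    ∃ t, chk3 (onCell 0 67108864 0 1073741824 134217728 67108864 (corT false 3 c0N cB102E gN0q1 gN1q2 gN0q0 gN1q0 true true)) t 3 21 1 = true :=
  ⟨(T.b (T.a (T.a (T.b (T.l 1) (T.a (T.b (T.l 1) (T.a (T.b (T.l 1) (T.a (T.b (T.l 1) (T.c (T.c (T.l 460) (T.l 204)) (T.l 476))) (T.l 1))) (T.l 1))) (T.l 1))) (T.l 1)) (T.l 1)) (T.a (T.b (T.c (T.a (T.c (T.c (T.l 476) (T.l 476)) (T.l 476)) (T.b (T.b (T.a (T.b (T.l 1) (T.c (T.l 476) (T.l 220))) (T.l 1)) (T.c (T.l 476) (T.l 220))) (T.l 204))) (T.a (T.c (T.l 220) (T.l 204)) (T.b (T.b (T.a (T.b (T.l 1) (T.l 220)) (T.l 1)) (T.c (T.l 204) (T.l 204))) (T.l 204)))) (T.c (T.l 204) (T.l 204))) (T.b (T.b (T.a (T.b (T.l 1) (T.b (T.a (T.a (T.b (T.l 1) (T.c (T.c (T.l 204) (T.l 204)) (T.l 204))) (T.l 1)) (T.l 1)) (T.c (T.c (T.c (T.l 476) (T.l 476)) (T.a (T.l 204) (T.l 476))) (T.c (T.l 476) (T.l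 460))))) (T.l 1)) (T.c (T.a (T.c (T.l 204) (T.l 204)) (T.b (T.c (T.a (T.l 476) (T.b (T.b (T.l 1) (T.c (T.l 476) (T.l 476))) (T.l 460))) (T.a (T.l 460) (T.b (T.a (T.l 476) (T.l 1)) (T.l 460)))) (T.l 476))) (T.a (T.l 460) (T.a (T.l 476) (T.c (T.c (T.a (T.l 460) (T.l 476)) (T.l 476)) (T.l 476)))))) (T.c (T.l 460) (T.l 204))))), by decide +kernel⟩

def B102E_010_1_11_1 :
    ∃ t, chk3 (onCell 0 67108864 0 1073741824 134217728 67108864 (corT false 3 c0N cB102E gN0q1 gN1q2 gN0q0 gN1q0 true true)) t 1 11 1 = true :=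
  ⟨(T.a (T.l 204) (T.a (T.l 204) (T.b (T.l 460) (T.l 0)))), by decide +kernel⟩

def B102E_010_1_3_1 :
    ∃ t, chk3 (onCell 0 67108864 0 1073741824 134217728 67108864 (corT false 3 c0N cB102E gN0q1 gN1q2 gN0q0 gN1q0 true true)) t 1 3 1 = true :=
  ⟨(T.a (T.l 0) (T.b (T.b (T.l 0) (T.l 0)) (T.l 2))), by decide +kernel⟩

theorem B102E_010_1_21_1 :
    ∃ t, chk3 (onCell 0 67108864 0 1073741824 134217728 67108864 (corT false 3 c0N cB102E gN0q1 gN1q2 gN0q0 gN1q0 true true)) t 1 21 1 = true :=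
  ex3_a B102E_010_2_21_1 B102E_010_3_21_1
theorem B102E_010_1_10_1 :
    ∃ t, chk3 (onCell 0 67108864 0 1073741824 134217728 67108864 (corT false 3 c0N cB102E gN0q1 gN1q2 gN0q0 gN1q0 true true)) t 1 10 1 = true :=
  ex3_b B102E_010_1_20_1 B102E_010_1_21_1
theorem B102E_010_1_5_1 :
    ∃ t, chk3 (onCell 0 67108864 0 1073741824 134217728 67108864 (corT false 3 c0N cB102E gN0q1 gN1q2 gN0q0 gN1q0 true true)) t 1 5 1 = true :=
  ex3_b B102E_010_1_10_1 B102E_010_1_11_1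
theorem B102E_010_1_2_1 :
    ∃ t, chk3 (onCell 0 67108864 0 1073741824 134217728 67108864 (corT false 3 c0N cB102E gN0q1 gN1q2 gN0q0 gN1q0 true true)) t 1 2 1 = true :=
  ex3_b B102E_010_1_4_1 B102E_010_1_5_1
theorem B102E_010 :
    ∃ t, chk3 (onCell 0 67108864 0 1073741824 134217728 67108864 (corT false 3 c0N cB102E gN0q1 gN1q2 gN0q0 gN1q0 true true)) t 1 1 1 = true :=
  ex3_b B102E_010_1_2_1 B102E_010_1_3_1

def B102E_011 :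
    ∃ t, chk3 (onCell 0 67108864 0 1073741824 134217728 67108864 (corT false 3 c0N cB102E gN0q1 gN1q2 gN1q0 gN2q0 true true)) t 1 1 1 = true :=
  ⟨(T.b (T.l 1) (T.b (T.b (T.l 1) (T.a (T.l 0) (T.l 0))) (T.a (T.l 816) (T.l 0)))), by decide +kernel⟩

def B102E_012 :
    ∃ t, chk3 (onCell 0 67108864 0 1073741824 134217728 67108864 (corT false 3 c0N cB102E gN0q1 gN1q2 gN2q0 gN3q0 true false)) t 1 1 1 = true :=
  ⟨(T.b (T.l 1) (T.b (T.l 1) (T.a (T.l 0) (T.b (T.l 1) (T.l 0))))), by decide +kernel⟩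

end Pool.Agent.Strip051.G.I1_8_3_16.Tab.CN
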