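import Pool.Agent.Strip051.G.I1_8_3_16.Tab

/-! # Certificates N0 (generated) -/

set_option linter.all false
set_option maxRecDepth 100000

namespace Pool.Agent.Strip051.G.I1_8_3_16.Tab.C.NA00

open Pool.Agent.Strip051.PB Pool.Agent.Strip051.PB.T
open Pool.Agent.Strip051.G.I1_8_3_16.Tab

noncomputable def f_pp_001 : ℕ → ℕ → ℕ → ℕ → Bool := onCell 0 536870912 0 536870912 134217728 67108864
    (rowN 3 0 true true true .up 0 0 1 (qsf 0 536870912 0 536870912 1) ndN0q0 ndN0q0 pcN1 Cut.none Ext.none)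

def k0_pp_001 : ∃ t, chk3 f_pp_001 t 1 1 1 = true :=
  ⟨(l 4), by decide +kernel⟩

theorem c_pp_001 : CertN 0 536870912 0 536870912 134217728 67108864 3 true true true .up 0 0 1
    ndN0q0 ndN0q0 pcN1 Cut.none Ext.none :=
  certN0 (fam := true) (s1 := true) (s2 := true) (a := 0) (b := 0) (c := 1) (cn := .up) (n1 := ndN0q0) (n2 := ndN0q0) (pc := pcN1) (cut := Cut.none) (xt := Ext.none) (P1 := 0) (W1 := 536870912) (P2 := 0) (W2 := 536870912) (P3 := 134217728) (W3 := 67108864) (N0 := 3)
    rfl k0_pp_001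

noncomputable def cut_pp_011 : Cut := Cut.of [[⟨0, 0, 0, 67108864⟩, ⟨1, 1, 0, 67108864⟩, ⟨2, 1, 0, 67108864⟩]]

noncomputable def f_pp_011 : ℕ → ℕ → ℕ → ℕ → Bool := onCell 0 536870912 536870912 536870912 134217728 67108864
    (rowN 3 0 true true true .pnn 0 1 1 (qsf 0 536870912 536870912 536870912 1) ndN0q0 ndN0q1 pcN1 cut_pp_011 Ext.none)

def k0_pp_011 : ∃ t, chk3 f_pp_011 t 1 1 1 = true :=
  ⟨(a (b (l 4) (b (l 4) (b (l 4) (a (a (b (l 4) (a (l 6) (l 4))) (l 4)) (l 2))))) (l 4)), by decide +kernel⟩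

theorem c_pp_011 : CertN 0 536870912 536870912 536870912 134217728 67108864 3 true true true .pnn 0 1 1
    ndN0q0 ndN0q1 pcN1 cut_pp_011 Ext.none :=
  certN0 (fam := true) (s1 := true) (s2 := true) (a := 0) (b := 1) (c := 1) (cn := .pnn) (n1 := ndN0q0) (n2 := ndN0q1) (pc := pcN1) (cut := cut_pp_011) (xt := Ext.none) (P1 := 0) (W1 := 536870912) (P2 := 536870912) (W2 := 536870912) (P3 := 134217728) (W3 := 67108864) (N0 := 3)
    rfl k0_pp_011

noncomputable def cut_pp_012 : Cut := Cut.of [[⟨0, 0, 0, 67108864⟩, ⟨1, 1, 0, 67108864⟩, ⟨2, 1, 0, 67108864⟩]]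

noncomputable def f_pp_012 : ℕ → ℕ → ℕ → ℕ → Bool := onCell 0 536870912 536870912 536870912 134217728 67108864
    (rowN 3 0 true true true .pnp 0 1 2 (qsf 0 536870912 536870912 536870912 2) ndN0q0 ndN0q1 pcN2 cut_pp_012 Ext.none)

def k0_pp_012 : ∃ t, chk3 f_pp_012 t 1 1 1 = true :=
  ⟨(b (l 4) (a (b (l 4) (a (b (l 4) (a (b (l 4) (a (l 6) (l 4))) (l 4))) (l 4))) (l 4))), by decide +kernel⟩

theorem c_pp_012 : CertN 0 536870912 536870912 536870912 134217728 67108864 3 true true true .pnp 0 1 2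
    ndN0q0 ndN0q1 pcN2 cut_pp_012 Ext.none :=
  certN0 (fam := true) (s1 := true) (s2 := true) (a := 0) (b := 1) (c := 2) (cn := .pnp) (n1 := ndN0q0) (n2 := ndN0q1) (pc := pcN2) (cut := cut_pp_012) (xt := Ext.none) (P1 := 0) (W1 := 536870912) (P2 := 536870912) (W2 := 536870912) (P3 := 134217728) (W3 := 67108864) (N0 := 3)
    rfl k0_pp_012

noncomputable def cut_pp_022 : Cut := Cut.of [[⟨0, 0, 0, 67108864⟩, ⟨1, 1, 0, 67108864⟩, ⟨2, 1, 0, 67108864⟩]]

noncomputable def f_pp_022 : ℕ → ℕ → ℕ → ℕ → Bool := onCell 0 536870912 0 536870912 134217728 67108864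
    (rowN 3 0 true true true .pp 0 2 2 (qsf 0 536870912 0 536870912 2) ndN0q0 ndN0q2 pcN2 cut_pp_022 Ext.none)

def k0_pp_022 : ∃ t, chk3 f_pp_022 t 2 2 1 = true :=
  ⟨(a (b (a (a (b (a (c (b (l 17033376) (a (l 16943136) (l 17075504))) (b (l 16487208) (l 16513504))) (c (b (l 17243984) (l 17226520)) (b (l 16593832) (l 16576960)))) (a (c (b (l 16969896) (l 16862288)) (l 16530128)) (c (l 17060568) (l 16532328)))) (b (c (a (l 17370784) (l 17457288)) (a (l 16826952) (l 16997552))) (c (a (l 17310200) (l 17399064)) (a (l 16769392) (l 16946664))))) (a (b (c (l 17525160) (l 17161720)) (c (l 17465416) (l 17113264))) (c (l 17513176) (b (l 17275304) (l 17223112))))) (a (a (b (a (c (b (l 16707096) (a (l 16589688) (l 16773504))) (l 16587024)) (c (b (l 17070616) (l 16936184)) (l 16564624))) (a (c (b (l 16614440) (a (l 16612312) (l 16614040))) (b (l 16577064) (l 16620112))) (c (b (l 16712256) (a (l 16624952) (l 16780184))) (b (l 16578424) (l 16602160))))) (b (a (c (l 17004744) (l 16649440)) (c (l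 17295704) (l 16847832))) (c (a (b (l 17064216) (l 16824024)) (b (l 17186368) (l 17093136))) (a (l 16642368) (b (l 16740504) (l 16647912)))))) (a (b (c (l 17370112) (a (l 16980768) (l 17068464))) (c (a (l 17213712) (l 17250280)) (a (l 16767736) (l 16953560)))) (b (c (l 17386696) (l 17143592)) (c (l 17261384) (b (l 17068192) (l 17009688))))))) (b (a (a (c (l 17490120) (l 17288680)) (l 17304696)) (a (l 17328448) (l 17279464))) (a (b (a (l 17162136) (l 17236024)) (a (c (l 17229768) (l 17074872)) (c (l 17172656) (l 17064456)))) (b (a (l 17188736) (l 17133200)) (a (b (l 17100688) (l 17035320)) (b (l 17042720) (c (l 16998600) (l 16953472)))))))), by decide +kernel⟩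

def k1_pp_022 : ∃ t, chk3 f_pp_022 t 8 6 1 = true :=
  ⟨(a (b (a (c (b (a (l 16652456) (l 16633928)) (a (c (l 16652872) (l 16647704)) (c (l 16655944) (l 16650752)))) (b (a (l 16619576) (l 16621952)) (a (l 16640128) (l 16643168)))) (c (b (a (l 16636208) (l 16638344)) (a (l 16677200) (l 16658976))) (b (l 16646240) (a (l 16646088) (l 16648896))))) (a (b (c (c (a (b (l 16666272) (l 16675120)) (l 16695288)) (a (b (l 16661712) (l 16670928)) (l 16669936))) (a (b (l 16654984) (l 16664728)) (b (l 16658456) (l 16668456)))) (c (a (b (c (l 16683896) (l 16680056)) (c (a (l 16691640) (l 16693712)) (l 16699648))) (b (c (l 16687784) (l 16683960)) (c (l 16696720) (l 16693256)))) (a (b (l 16684848) (a (l 16682928) (l 16685040))) (b (l 16678328) (l 16698632))))) (b (c (a (b (l 16670744) (l 16680240)) (b (l 16673888) (l 16683624))) (a (l 16687968) (l 16691336))) (c (a (b (l 16700088) (c (l 16700600) (l 16697200))) (b (l 16693184) (c (l 16704328) (l 16701008)))) (a (b (l 16682168) (l 16692192)) (b (l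 16685912) (l 16696136))))))) (b (a (b (c (a (l 16750424) (l 16862696)) (l 16629416)) (c (a (l 16661584) (l 16706656)) (l 16673864))) (b (c (l 16899184) (l 16633320)) (c (a (l 16812560) (l 16892288)) (l 16658072)))) (b (a (c (a (b (l 16676888) (l 16686856)) (l 16705880)) (b (l 16669704) (l 16680592))) (c (b (l 16749192) (l 16694352)) (b (l 16675688) (l 16687056)))) (a (c (a (b (l 16696632) (l 16706280)) (b (l 16699928) (l 16709760))) (a (b (l 16689544) (l 16699976)) (b (l 16693072) (l 16703712)))) (c (b (a (l 16703112) (l 16706184)) (a (l 16713104) (l 16716344))) (b (l 16698176) (l 16724832))))))), by decide +kernel⟩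

def k2_pp_022 : ∃ t, chk3 f_pp_022 t 9 6 1 = true :=
  ⟨(a (b (a (c (b (l 17080192) (l 16911976)) (b (l 16728824) (l 16663104))) (b (c (l 17129304) (l 16848920)) (c (l 17036272) (l 16771440)))) (a (b (c (b (l 16890120) (l 16831568)) (l 16708424)) (c (b (l 16762952) (a (l 16719488) (l 16750224))) (b (l 16704848) (l 16726616)))) (b (c (b (l 16962696) (l 16912592)) (l 16715704)) (c (b (l 16863400) (a (l 16799096) (l 16831888))) (b (l 16711624) (l 16744200)))))) (b (b (c (l 17148864) (l 16925488)) (a (c (l 17061120) (l 16853976)) (c (l 17062384) (l 16900072)))) (b (a (c (l 16948664) (l 16787624)) (c (l 16974288) (l 16838248))) (a (b (c (l 16901632) (l 16745464)) (c (l 16858744) (l 16752256))) (b (c (l 16908240) (l 16798416)) (c (l 16865848) (l 16778056))))))), by decide +kernel⟩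

def k3_pp_022 : ∃ t, chk3 f_pp_022 t 32 14 1 = true :=
  ⟨(b (a (c (b (a (c (l 16700472) (l 16697296)) (c (l 16702616) (l 16699464))) (a (c (b (l 16707240) (l 16711840)) (l 16717184)) (c (l 16711736) (l 16708936)))) (b (a (l 16703072) (l 16694800)) (a (c (l 16703888) (l 16701096)) (c (l 16706160) (l 16703408))))) (c (b (c (a (l 16704712) (l 16706768)) (a (l 16701592) (l 16703680))) (a (c (l 16713896) (l 16711128)) (c (l 16716008) (l 16713288)))) (b (a (l 16696976) (l 16699120)) (a (c (l 16708392) (l 16705688)) (l 16719752))))) (a (b (b (a (l 6) (c (c (l 16718752) (l 16716216)) (l 16712456))) (l 6)) (l 6)) (b (b (c (a (c (l 16720944) (l 16718448)) (c (l 16723096) (l 16720648))) (a (l 16714768) (l 16717048))) (c (a (c (l 16725736) (l 16723432)) (c (l 16727904) (l 16725656))) (a (l 16725272) (l 16722344)))) (a (l 6) (a (l 6) (a (l 6) (b (c (l 16732600) (l 16728616)) (l 6)))))))), by decide +kernel⟩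

def k4_pp_022 : ∃ t, chk3 f_pp_022 t 33 14 1 = true :=
  ⟨(b (a (c (b (c (l 16709760) (l 16706728)) (a (c (l 16718080) (l 16715408)) (c (l 16720112) (l 16717496)))) (b (a (l 16701240) (l 16703328)) (a (l 16711464) (l 16713632)))) (c (b (c (l 16713624) (l 16710696)) (c (b (l 16720696) (l 16725464)) (l 16731024))) (b (l 16716880) (b (l 16714200) (l 16719464))))) (b (b (a (c (c (l 16731472) (l 16723872)) (a (l 16719296) (l 16721528))) (c (c (l 16730280) (l 16728056)) (l 16735280))) (a (c (a (c (l 16730032) (l 16727848)) (l 16736304)) (a (l 16724632) (l 16726880))) (c (c (l 16735160) (l 16733152)) (a (l 16729112) (l 16731312))))) (a (c (a (b (c (l 16734944) (l 16732968)) (l 6)) (b (c (l 16737048) (l 16735136)) (c (l 16742048) (l 16740360)))) (a (b (l 16740536) (l 6)) (b (l 16732336) (c (l 16738704) (l 16737072))))) (c (b (a (c (l 16739104) (l 16737280)) (l 16745496)) (a (c (l 16744120) (l 16742520)) (c (l 16746160) (l 16744640)))) (b (a (l 16734592) (l 16736816)) (a (l 16750648) (l 16742424))))))),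 by decide +kernel⟩

def k5_pp_022 : ∃ t, chk3 f_pp_022 t 17 14 1 = true :=
  ⟨(b (a (b (c (a (c (l 16717336) (l 16714528)) (l 16730040)) (a (l 16710416) (l 16714336))) (c (a (c (l 16737376) (l 16724504)) (b (l 16726968) (l 16731952))) (a (b (l 16718336) (l 16723680)) (l 16735560)))) (b (c (a (l 16723048) (l 16726424)) (a (l 16718152) (l 16721896))) (c (a (b (l 16730568) (l 16735600)) (b (l 16734032) (l 16739128))) (a (l 16739544) (l 16743432))))) (a (b (a (c (b (c (l 16734176) (l 16732112)) (c (l 16739096) (l 16737248))) (b (l 16729080) (l 16745032))) (c (b (l 16747456) (c (l 16742872) (l 16741216))) (b (l 16733264) (l 16738792)))) (a (c (b (c (l 16749312) (l 16747704)) (a (c (l 16748152) (l 16746728)) (l 16755992))) (b (a (l 16739024) (l 16741200)) (a (l 16744648) (l 16746848)))) (c (b (c (l 16747880) (l 16746472)) (a (l 16756656) (l 16758584))) (b (a (l 16743344) (l 16745472)) (a (l 16749024) (l 16751176)))))) (b (c (a (b (l 16740672) (l 16751024)) (b (l 16744240) (l 16754640)))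 (a (b (l 16737352) (l 16742944)) (b (l 16741344) (l 16747000)))) (a (c (b (c (l 16751544) (l 16750352)) (a (l 16760488) (l 16762360))) (b (l 16759088) (c (l 16760032) (l 16759144)))) (c (a (b (l 16753704) (l 16764192)) (b (l 16755504) (l 16766000))) (b (l 16757960) (a (l 16767976) (l 16770032)))))))), by decide +kernel⟩

def k6_pp_022 : ∃ t, chk3 f_pp_022 t 16 15 1 = true :=
  ⟨(b (a (l 6) (b (a (l 6) (c (b (a (c (l 16754480) (l 16747872)) (c (l 16751280) (l 16750008))) (a (l 6) (c (b (l 16755192) (l 16757840)) (b (l 16754112) (l 16756888))))) (b (a (c (l 16746528) (l 16745208)) (c (l 16748760) (l 16747536))) (a (l 6) (b (l 16752528) (l 16760744)))))) (l 6))) (l 6)), by decide +kernel⟩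

def k7_pp_022 : ∃ t, chk3 f_pp_022 t 34 60 1 = true :=
  ⟨(a (b (c (a (c (l 16753280) (l 16752104)) (c (l 16755240) (l 16754176))) (a (c (l 16750960) (l 16749832)) (l 16760480))) (b (c (a (l 16761952) (l 16763976)) (a (l 16754792) (l 16757032))) (c (a (c (l 16759848) (l 16759008)) (c (l 16761816) (l 16761088))) (a (l 16757776) (l 16760024))))) (c (b (a (c (l 16757168) (l 16756208)) (c (l 16759056) (l 16758216))) (b (a (l 16765960) (l 16767912)) (a (l 16766056) (l 16768016)))) (b (a (l 16760056) (l 16762232)) (b (a (l 16759248) (l 16761440)) (a (l 16767488) (l 16769688)))))), by decide +kernel⟩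

def k8_pp_022 : ∃ t, chk3 f_pp_022 t 34 122 1 = true :=
  ⟨(a (c (a (b (c (l 16762520) (l 16761816)) (l 6)) (b (c (l 16764488) (l 16763904)) (c (l 16769808) (l 16769368)))) (a (b (c (l 16761128) (l 16760448)) (l 6)) (b (l 16768288) (c (l 16768936) (l 16768512))))) (c (c (a (b (l 16766416) (l 16771736)) (b (l 16773552) (a (l 16775784) (l 16776720)))) (a (b (l 16765952) (l 16771424)) (b (l 16773216) (l 16773768)))) (a (b (l 16770520) (c (l 16771112) (l 16770808))) (b (l 16771416) (c (l 16773920) (l 16773744)))))), by decide +kernel⟩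

def k9_pp_022 : ∃ t, chk3 f_pp_022 t 34 123 1 = true :=
  ⟨(a (a (l 6) (a (l 6) (b (c (c (l 16775648) (l 16775384)) (l 16772384)) (l 6)))) (b (a (a (c (c (l 16776608) (l 16776416)) (l 16773504)) (c (c (l 16774936) (l 16777432)) (l 16774952))) (b (c (c (l 16775664) (l 16775600)) (l 16776160)) (a (c (l 16779176) (l 16779136)) (c (b (l 16780280) (b (l 16779104) (a (l 16781920) (a (l 16780456) (l 52311364295))))) (a (l 16780392) (a (l 16778880) (b (l 16781312) (b (l 16780088) (l 51237622215))))))))) (a (b (a (c (l 16776008) (l 16778472)) (c (l 16778304) (l 16778280))) (a (l 6) (c (b (a (l 16781072) (c (a (l 16779640) (b (l 16777304) (l 43721428775))) (b (l 16782096) (c (l 29225913847) (l 29225913783))))) (b (a (c (l 16779936) (l 16779864)) (a (a (l 44795170551) (l 72175587351)) (l 100629749543))) (a (l 6) (l 4)))) (a (b (l 16780992) (a (l 6) (b (l 16780144) (l 6)))) (a (b (l 16779480) (a (b (l 43721428599) (l 4)) (l 99556004695))) (b (c (l 26004688503) (l 25467817447)) (l 116199000919)))))))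 (b (a (c (b (l 16778432) (a (l 16778936) (a (b (l 16780272) (l 59827556999)) (b (l 48016396759) (l 4))))) (b (l 16778336) (a (l 16779464) (a (b (l 16780112) (l 58753814855)) (b (l 46405783687) (l 4)))))) (c (b (b (a (l 16778944) (a (l 64122524487) (l 4))) (a (a (l 35668365575) (l 84523619447)) (l 4))) (a (l 111367166023) (l 4))) (b (b (a (l 16780088) (c (l 82376135703) (l 82913006455))) (a (a (l 16779296) (l 85597360919)) (l 4))) (a (l 115662133031) (l 4))))) (b (a (a (b (a (c (l 31373397943) (l 16779144)) (c (l 80228651879) (l 81839264311))) (c (l 104387843479) (l 104387843207))) (l 4)) (l 4)) (l 4)))))), by decide +kernel⟩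

def k10_pp_022 : ∃ t, chk3 f_pp_022 t 35 60 1 = true :=
  ⟨(b (a (c (a (c (l 16766144) (l 16770672)) (c (l 16767960) (l 16772616))) (a (l 16764384) (l 16766504))) (c (a (c (l 16769744) (l 16774520)) (c (l 16770832) (l 16771160))) (a (l 16768608) (l 16771504)))) (a (b (a (c (l 16769832) (l 16774088)) (c (l 16771712) (l 16776224))) (c (a (l 16769936) (l 16772800)) (a (l 16771856) (l 16774008)))) (b (a (c (l 16773560) (l 16778344)) (c (l 16774728) (l 16775192))) (a (c (l 16776288) (l 16776128)) (b (a (l 16775984) (c (l 16784528) (l 16784360))) (b (c (l 16780576) (l 16780368)) (a (l 16779504) (b (c (l 18488499079) (l 16780584)) (a (l 16780928) (c (l 75933689031) (l 66270010343))))))))))), by decide +kernel⟩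

def k11_pp_022 : ∃ t, chk3 f_pp_022 t 70 122 1 = true :=
  ⟨(b (a (c (c (l 16775408) (l 16775200)) (l 16773592)) (c (b (l 16776504) (a (l 16782664) (l 16778352))) (c (l 16777096) (l 16777032)))) (a (b (c (l 16774760) (l 16777216)) (a (c (l 16778304) (l 16778216)) (c (l 16779728) (l 16779640)))) (b (a (c (l 16778992) (l 16778912)) (c (a (l 16781320) (a (b (l 16781520) (l 16779480)) (b (l 16782296) (a (l 39963334359) (l 54995720311))))) (a (l 16781152) (a (b (l 16781344) (l 16780544)) (b (l 16782088) (c (l 45868914023) (l 45332042871))))))) (b (a (c (l 16779248) (l 16779072)) (c (a (b (l 29225915943) (c (l 75933685591) (l 75933685351))) (l 96334783863)) (a (a (l 34594624679) (a (l 55532590695) (l 81302394263))) (l 97408525239)))) (a (b (a (l 16779808) (a (a (l 16780752) (l 36205238567)) (c (l 67343750775) (l 65733137671)))) (c (a (l 25467819159) (l 90429203095)) (a (l 16779296) (l 92039815399)))) (l 4)))))), by decide +kernel⟩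

def k12_pp_022 : ∃ t, chk3 f_pp_022 t 71 122 1 = true :=
  ⟨(b (a (c (b (a (l 16783136) (l 16780664)) (b (a (l 16780416) (a (l 16782744) (b (l 16781168) (l 59290688423)))) (b (a (l 16781848) (a (l 39426464087) (l 101166616999))) (a (l 16780176) (a (l 82913010583) (l 4)))))) (b (l 16778992) (a (l 16779872) (b (a (l 16782496) (a (l 16779632) (l 53385108087))) (a (b (l 37278979863) (l 83449880951)) (l 102240363975)))))) (b (b (b (a (l 16780904) (a (c (l 48016399447) (l 45868915175)) (l 109756557159))) (a (c (l 15804144023) (l 16780368)) (c (l 94187301111) (l 95797913271)))) (b (a (a (l 16780688) (c (l 63585656055) (l 61975042727))) (l 4)) (a (a (c (l 43721431783) (l 41573947527)) (l 110830298679)) (l 4)))) (b (a (a (c (l 90966075015) (l 92039816295)) (l 4)) (l 4)) (l 4)))) (a (b (a (c (b (a (c (l 25467819207) (l 22783464391)) (a (a (l 52848236775) (l 75933685719)) (l 91502945431))) (a (a (a (l 78618040231) (l 92039816087)) (l 100629746007)) (l 4))) (b (a (l 21709723175) (b (l 53385107575)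 (l 99019137783))) (a (b (l 79691781671) (l 4)) (l 4)))) (l 4)) (l 4)) (l 4))), by decide +kernel⟩

def k13_pp_022 : ∃ t, chk3 f_pp_022 t 35 123 1 = true :=
  ⟨(a (b (a (b (a (c (l 16779176) (l 16779072)) (c (b (b (c (l 16779560) (l 16779464)) (a (l 16782320) (a (l 16780840) (l 62511912263)))) (b (a (l 21709722375) (l 88281716535)) (a (a (l 45332042631) (l 93113557207)) (l 4)))) (b (b (l 16779344) (a (l 16782144) (c (l 42110816967) (l 41037074935)))) (b (a (l 16779120) (l 88281716135)) (a (a (l 43721429479) (l 93650427719)) (l 4)))))) (b (a (b (a (l 16779416) (a (a (l 16780360) (l 16780072)) (c (l 57143202855) (l 56069460727)))) (c (a (l 16779456) (c (l 85060490887) (l 84523619783))) (a (l 16778944) (l 86134232247)))) (c (l 120493972743) (l 124252068807))) (b (a (a (a (c (l 40500204103) (l 38889590983)) (c (l 88818589623) (l 89892331079))) (l 4)) (l 4)) (a (c (l 115125262935) (l 119420229911)) (l 4))))) (b (b (b (a (a (a (b (l 34057754823) (l 76470558439)) (l 105998459143)) (l 4)) (l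 4)) (a (c (l 110293427879) (l 115125265719)) (l 4))) (l 4)) (l 4))) (l 4)) (l 4)), by decide +kernel⟩

def k14_pp_022 : ∃ t, chk3 f_pp_022 t 17 31 1 = true :=
  ⟨(b (a (b (a (l 6) (b (a (b (b (a (l 6) (a (l 6) (l 4))) (l 6)) (l 4)) (l 4)) (l 4))) (l 4)) (l 4)) (l 4)), by decide +kernel⟩

def k15_pp_022 : ∃ t, chk3 f_pp_022 t 18 28 1 = true :=
  ⟨(b (a (c (a (l 16729696) (l 16732880)) (a (l 16725560) (l 16729184))) (c (a (l 16758000) (l 16792952)) (a (l 16732784) (l 16757688)))) (a (c (a (l 16750424) (l 16753704)) (a (l 16757728) (l 16761472))) (c (a (l 16756912) (b (l 16770560) (l 16760344))) (a (l 16765192) (l 16758744))))), by decide +kernel⟩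

def k16_pp_022 : ∃ t, chk3 f_pp_022 t 36 29 1 = true :=
  ⟨(b (c (a (b (l 16747688) (l 16763376)) (b (l 16751032) (l 16766744))) (a (b (l 16745256) (l 16771944)) (b (l 16749088) (l 16775832)))) (b (c (a (c (l 16779440) (l 16778736)) (a (l 16781672) (l 16783344))) (a (l 16761984) (l 16768216))) (a (a (c (l 16767776) (l 16772072)) (c (l 16769520) (l 16774088))) (a (c (l 16771232) (l 16776080)) (b (c (l 16787320) (l 16787056)) (b (l 16774216) (l 16778312))))))), by decide +kernel⟩

def k17_pp_022 : ∃ t, chk3 f_pp_022 t 37 29 1 = true :=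
  ⟨(b (c (b (a (l 16775256) (l 16778920)) (a (c (l 16780728) (l 16780288)) (b (l 16782880) (l 16785504)))) (b (a (l 16773848) (l 16777944)) (a (l 16779656) (l 16773296)))) (b (a (b (c (l 16784472) (l 16784056)) (a (c (l 16786312) (l 16786048)) (b (l 16776768) (l 16779384)))) (b (a (l 16774688) (c (l 16792696) (l 16792448))) (a (c (l 16783664) (l 16783312)) (a (c (l 16782784) (l 16782312)) (b (l 16783600) (c (b (l 43721437543) (l 85597374471)) (b (l 41573952807) (l 86671115271)))))))) (a (b (a (b (l 16777792) (l 16776528)) (c (b (l 16793656) (l 16786848)) (l 16784592))) (a (b (c (l 16784272) (l 16783920)) (a (l 16780952) (a (l 16783240) (c (l 23320340903) (l 16781800))))) (a (b (c (l 16783720) (l 16783168)) (c (b (a (l 16780360) (l 68417499239)) (l 89892339143)) (b (c (l 46942661447) (l 45332048135)) (l 89892335415)))) (b (c (b (c (l 32447147095) (l 16782968)) (a (l 58216951671) (l 103850975351))) (b (l 30299662999) (a (l 54995725063) (l 104387845095)))) (c (l 101166627815) (l 102777239463))))))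 (b (a (a (a (c (c (l 16783680) (l 16783392)) (l 16782976)) (b (l 16782896) (b (l 16782864) (b (l 76470565079) (l 103314108855))))) (b (b (l 16784128) (c (l 38352728007) (l 36205243335))) (b (a (a (l 58216952743) (l 85597370231)) (l 102777238471)) (l 101166626727)))) (b (a (b (a (a (l 16783168) (l 56069468759)) (l 87207986487)) (l 99019144951)) (l 4)) (l 4))) (a (b (a (c (l 97408530695) (l 97945400519)) (l 4)) (l 4)) (l 4)))))), by decide +kernel⟩

def k18_pp_022 : ∃ t, chk3 f_pp_022 t 19 28 1 = true :=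
  ⟨(a (b (c (a (l 16814264) (l 16825152)) (a (l 16761888) (l 16766168))) (a (c (b (l 16791744) (l 16780840)) (b (l 16770624) (l 16776448))) (c (b (l 16801920) (l 16789992)) (l 16768704)))) (b (c (a (l 16828048) (l 16803840)) (a (l 16778096) (l 16773160))) (a (b (c (l 16803752) (l 16779392)) (c (l 16780152) (b (l 16783800) (l 16788664)))) (b (c (l 16799256) (l 16792360)) (a (c (l 16781616) (l 16783456)) (b (l 16780968) (b (c (l 30836536311) (l 30836536455)) (a (c (l 53921985719) (l 53385114727)) (l 96334792839))))))))), by decide +kernel⟩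

def k19_pp_022 : ∃ t, chk3 f_pp_022 t 19 29 1 = true :=
  ⟨(b (a (b (c (a (l 16784888) (l 16781952)) (a (l 16782288) (b (l 16785224) (l 16791272)))) (b (a (a (l 16775248) (l 16779312)) (a (l 16783008) (b (c (l 16782384) (l 16783416)) (a (c (l 34594631943) (l 33520889479)) (c (l 81302406871) (l 82913018999)))))) (a (a (l 16778720) (c (l 16782024) (b (l 16794984) (l 16782712)))) (a (a (b (l 16783568) (c (b (l 16783528) (l 81302406791)) (b (l 16783120) (l 82376147831)))) (b (c (c (l 46942663287) (l 46405792007)) (l 45868921383)) (l 100629761079))) (b (a (l 91502954743) (l 4)) (l 4)))))) (b (a (a (a (c (l 16782192) (l 16784280)) (b (l 16786752) (b (l 16783504) (c (l 55532599079) (l 54458857079))))) (b (c (b (l 16783032) (l 24394084663)) (l 18488504711)) (b (a (c (l 45332050855) (l 44258308663)) (l 89355470679)) (l 109219696503)))) (b (a (b (a (l 16783440) (c (l 68954374551) (l 71101858023))) (c (l 86671116615) (l 88818600007))) (b (l 113514664055) (l 4))) (l 4))) (a (b (a (a (b (a (a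 (l 51237631079) (l 66270017639)) (l 86671115735)) (l 4)) (l 113514664983)) (l 4)) (l 4)) (l 4)))) (a (b (a (b (b (a (c (l 16786184) (l 16785848)) (a (c (l 16782528) (l 16784712)) (a (b (l 16783392) (l 91502953943)) (l 89892341559)))) (b (a (c (l 16783640) (l 16783208)) (a (c (l 76470563127) (l 77007438407)) (l 4))) (a (a (l 16783768) (c (l 51237630615) (l 47479533255))) (a (l 102240373543) (l 4))))) (a (b (a (a (c (l 35668373063) (l 16782696)) (b (l 40500212151) (l 94187308631))) (c (l 94187310103) (l 95261051015))) (a (l 102240371511) (l 4))) (l 4))) (a (b (c (l 117809634279) (l 119957112151)) (l 4)) (l 4))) (l 4)) (l 4))), by decide +kernel⟩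

def k20_pp_022 : ∃ t, chk3 f_pp_022 t 36 120 1 = true :=
  ⟨(a (b (c (c (l 16771416) (l 16771232)) (l 16772264)) (a (c (l 16779696) (l 16779488)) (b (c (l 16780776) (l 16780768)) (c (l 16784128) (l 16783904))))) (b (a (b (c (l 16790288) (l 16790272)) (c (l 16782888) (l 16782672))) (a (b (l 16778464) (c (l 16782336) (l 16781920))) (b (l 16781536) (c (b (l 16781864) (a (l 37815854807) (l 86671109751))) (b (l 16781360) (a (l 16782280) (l 86671108775))))))) (a (b (a (l 16779672) (c (l 16782944) (l 16782528))) (a (c (a (l 16782784) (b (l 16778152) (l 42647692407))) (b (l 16782248) (c (l 26541563863) (l 25467821623)))) (c (b (a (l 16782248) (c (l 80228658199) (l 80228652503))) (l 92576689991)) (b (a (l 16781784) (l 79691786183)) (l 93650430967))))) (b (a (c (a (b (l 16779080) (l 61438175607)) (b (l 50700757015) (l 102240361511))) (b (c (l 32447144935) (l 31373402647)) (a (l 59290691095) (l 104387844231)))) (c (l 99019142567) (l 100092883495))) (l 4))))), by decide +kernel⟩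

def k21_pp_022 : ∃ t, chk3 f_pp_022 t 36 121 1 = true :=
  ⟨(a (b (a (b (a (l 16776016) (l 16777880)) (c (l 16780176) (l 16779952))) (b (a (a (l 16780176) (l 16781704)) (c (a (l 16780784) (b (l 16778776) (a (l 55532593783) (l 87744845223)))) (b (l 16782872) (a (l 16781280) (c (l 62511915335) (l 61975044039)))))) (b (a (a (l 16782944) (c (l 34594627719) (l 32447143431))) (a (a (b (l 56069465367) (l 102240364727)) (l 99019139527)) (l 4))) (a (c (a (c (l 45868916631) (l 44795174423)) (l 92576688823)) (a (l 43721432999) (l 93650429895))) (l 4))))) (a (b (b (a (l 16781320) (c (a (l 16781144) (a (l 46405787303) (l 79154915111))) (a (l 16780792) (c (l 54995721815) (l 54458850583))))) (b (a (l 16781400) (a (a (l 40500208103) (l 85060494711)) (l 4))) (a (c (c (l 16780584) (l 16781064)) (l 16780816)) (c (l 100092881831) (l 100629752071))))) (a (c (b (a (c (l 38352722951) (l 37815851687)) (c (l 86134237319) (l 86671107895))) (l 98482269175)) (b (a (c (l 36742109847) (l 35668367687)) (l 87744849223))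 (l 99556010391))) (l 4))) (b (a (c (l 110830301671) (l 115662139239)) (l 4)) (l 4)))) (b (a (b (a (c (b (a (c (l 53385110439) (l 52311368215)) (l 100092877079)) (l 100629754215)) (b (a (l 51237626647) (l 100092876247)) (l 102777237095))) (l 4)) (l 4)) (l 4)) (l 4))), by decide +kernel⟩

def k22_pp_022 : ∃ t, chk3 f_pp_022 t 37 60 1 = true :=
  ⟨(b (a (b (a (b (b (a (l 16783664) (c (a (l 49090145079) (l 97408523607)) (a (l 45868918487) (l 95261038871)))) (a (a (l 16782064) (c (l 59290692615) (l 56606337143))) (c (l 101703497111) (l 103850974471)))) (b (a (a (c (l 77007433047) (l 67880626455)) (l 101703496119)) (l 4)) (l 4))) (l 4)) (l 4)) (l 4)) (l 4)), by decide +kernel⟩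

def k23_pp_022 : ∃ t, chk3 f_pp_022 t 18 61 1 = true :=
  ⟨(l 4), by decide +kernel⟩

def k24_pp_022 : ∃ t, chk3 f_pp_022 t 19 30 1 = true :=
  ⟨(l 4), by decide +kernel⟩

def k25_pp_022 : ∃ t, chk3 f_pp_022 t 9 31 1 = true :=
  ⟨(l 4), by decide +kernel⟩

def k26_pp_022 : ∃ t, chk3 f_pp_022 t 10 6 1 = true :=
  ⟨(b (a (b (c (l 17119648) (l 16987448)) (c (l 17037576) (a (l 16921512) (l 16926128)))) (b (c (l 17061328) (l 16975688)) (a (c (l 16994968) (l 16919216)) (c (l 16961544) (l 16904432))))) (a (b (a (c (l 16961416) (l 16860960)) (c (l 16916608) (l 16844104))) (b (a (c (l 16895408) (l 16820792)) (c (l 16870696) (l 16823232))) (a (c (a (l 16857040) (l 16846624)) (a (l 16796016) (l 16800560))) (a (b (l 16825240) (l 16793352)) (c (l 16786928) (l 16796864)))))) (b (a (b (l 16901032) (c (l 16884712) (l 16841784))) (b (c (l 16895680) (l 16856328)) (c (a (l 16858880) (l 16840880)) (l 16772064)))) (b (a (c (a (l 16847328) (l 16809288)) (l 16781200)) (b (c (l 16783576) (l 16780288)) (a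 (c (l 16779736) (l 16781224)) (b (a (l 16789840) (a (l 16782824) (l 48553276023))) (a (c (l 48016404551) (l 51237631671)) (l 114588411639)))))) (a (b (b (c (l 16789280) (l 16795704)) (a (l 16800368) (c (a (l 16794320) (l 27615307175)) (l 24930957559)))) (a (c (a (l 16784360) (b (l 16791784) (b (l 16783360) (l 80765541447)))) (b (l 16787368) (a (l 16783736) (l 50700763159)))) (b (a (c (l 39426469863) (l 40500213991)) (b (l 92039841559) (l 4))) (a (l 114051541975) (l 4))))) (b (a (b (b (c (l 29762791943) (l 32447149383)) (a (l 26004696711) (l 99556023543))) (a (b (c (l 53385111415) (l 57143210631)) (l 112977798247)) (l 4))) (l 4)) (l 4))))))), by decide +kernel⟩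

def k27_pp_022 : ∃ t, chk3 f_pp_022 t 11 6 1 = true :=
  ⟨(b (a (b (c (l 16992080) (l 16938408)) (a (b (l 16924360) (l 16886200)) (b (l 16894680) (c (l 16868088) (l 16844040))))) (b (a (l 16857352) (b (l 16907112) (l 16870000))) (a (b (c (l 16875712) (l 16852264)) (c (a (l 16840752) (l 16791224)) (l 16786448))) (b (a (l 16839936) (c (l 16808528) (l 16796592))) (b (a (l 16789552) (c (b (l 16781248) (l 29225930535)) (l 24930959639))) (a (a (b (l 16799736) (l 16877896215)) (b (l 16791456) (l 60364450999))) (b (a (l 51774513031) (l 4)) (l 4)))))))) (a (b (a (a (b (l 16854576) (c (l 16801512) (l 16786856))) (b (l 16818576) (a (c (l 16782312) (l 16788160)) (b (l 16805768) (b (l 16790656) (a (l 37815857463) (l 78081187191))))))) (b (c (a (l 16810968) (b (l 16825080) (l 16786240))) (a (l 16816400) (l 16783672))) (b (a (c (b (l 16781984) (l 26004699751)) (l 22783472359)) (b (a (c (l 16789080) (l 16785192)) (b (l 48553282375) (l 93650446535))) (a (l 88818628199) (l 4)))) (a (b (a (c (l 40500214311)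 (l 41037081927)) (l 99556026823)) (l 116199042391)) (l 4))))) (b (a (b (a (b (c (l 16782568) (l 16787696)) (a (c (l 16783224) (l 16782856)) (b (l 58216955223) (l 4)))) (b (a (b (l 45332051639) (l 98482281479)) (l 4)) (l 4))) (a (b (a (l 104387862391) (l 4)) (l 4)) (l 4))) (l 4)) (l 4))) (b (b (a (b (a (c (l 16785816) (l 16798608)) (b (c (l 22246608023) (l 16784128)) (a (c (l 34057767655) (l 16784104)) (l 88281740711)))) (a (b (c (a (l 16783576) (l 43721445479)) (l 35131508247)) (a (c (l 52848252423) (l 53385118887)) (l 4))) (b (l 107609119847) (l 4)))) (b (a (b (l 93113601159) (l 4)) (l 4)) (l 4))) (l 4)) (l 4)))), by decide +kernel⟩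

def k28_pp_022 : ∃ t, chk3 f_pp_022 t 5 7 1 = true :=
  ⟨(a (b (b (a (b (a (c (a (b (l 16826608) (l 16807560)) (b (l 16815416) (l 16782544))) (a (b (l 16784504) (l 16779736)) (b (l 16787800) (l 16781904)))) (b (a (c (l 16780544) (l 16786480)) (b (c (l 16341020103) (l 16783896)) (a (c (l 28689051815) (l 30299666103)) (b (a (l 41573955207) (l 79691791767)) (l 110293445911))))) (a (a (b (l 16785904) (b (c (l 16782672) (l 16785400)) (a (l 53921987671) (l 97945414679)))) (b (b (l 16782840) (a (l 16783632) (l 72175599447))) (l 112977796887))) (b (a (b (a (l 62511922439) (l 107072199159)) (l 4)) (l 4)) (l 4))))) (a (b (a (c (b (l 16794240) (a (l 16788688) (b (l 16785096) (a (l 16782680) (l 52311372391))))) (b (l 16778088) (a (l 16777176) (b (l 16778768) (l 37815858871))))) (b (a (c (l 16785184) (l 16784808)) (b (c (l 43721438695) (l 44795181367)) (a (l 73249341671) (l 4)))) (a (b (a (c (l 16783480) (l 16785608)) (l 93650447303)) (l 108682824375)) (l 4)))) (a (b (a (a (c (l 16782608) (l 16783688))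 (b (l 16785592) (l 77544309255))) (b (a (c (l 66270019399) (l 64122533655)) (l 108682813511)) (l 4))) (a (b (l 102240378487) (l 4)) (l 4))) (l 4))) (b (a (b (a (l 123178340711) (l 4)) (l 4)) (l 4)) (l 4)))) (b (a (b (a (b (a (b (c (l 43721436599) (l 44795180167)) (l 97408542215)) (l 124252091111)) (l 4)) (l 4)) (l 4)) (l 4)) (l 4))) (l 4)) (l 4)) (l 4)), by decide +kernel⟩

def k29_pp_022 : ∃ t, chk3 f_pp_022 t 3 1 1 = true :=
  ⟨(b (a (b (a (b (l 17238000) (a (l 17178680) (l 17116728))) (a (b (l 17146672) (l 17054240)) (b (l 17085328) (l 16971800)))) (a (b (a (l 17071336) (b (l 17037376) (l 16978392))) (a (b (l 16979272) (a (l 16927928) (l 16874512))) (b (a (l 16931040) (l 16899160)) (b (a (l 16880816) (l 16827976)) (a (l 16824800) (c (l 17414767751) (l 16789856))))))) (b (a (b (l 16974448) (a (l 16931008) (l 16900040))) (b (l 40366142615) (a (l 16827824) (l 16798352)))) (a (b (a (b (l 16884096) (l 16851408)) (b (l 16853296) (l 16789304))) (a (b (a (l 16804440) (l 16789000)) (b (a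 (l 16799400) (l 61438195351)) (l 97408604775))) (b (b (a (l 16803304) (l 54458873799)) (a (l 57680098791) (l 4))) (l 4)))) (b (a (b (l 16802328) (a (b (l 16806600) (l 46942681223)) (l 72712510247))) (b (a (l 34057782631) (l 64659436167)) (l 113514727207))) (a (b (l 119420308919) (l 4)) (l 4))))))) (b (l 2) (b (l 2) (b (l 2) (l 4))))) (a (b (a (b (a (b (a (b (l 16874472) (c (l 16802272) (l 16809344))) (b (c (l 16827744) (l 16814200)) (a (b (l 16822096) (l 16782128)) (b (l 16784840) (c (l 48016416999) (l 48016412839)))))) (b (a (b (c (l 16786336) (l 16783584)) (a (c (l 16789672) (l 16783920)) (b (c (l 41037092327) (l 43184571255)) (l 94187339511)))) (b (a (b (c (l 29762797271) (l 16787008)) (l 82913048615)) (l 4)) (l 4))) (a (b (a (b (a (l 36205250727) (l 83449900247)) (l 4)) (l 4)) (l 4)) (l 4)))) (b (a (b (a (l 16796592) (c (l 23857218135) (l 26004703367))) (b (a (c (l 38352735031) (l 36742118807)) (l 100629788583)) (l 115125316935))) (b (b (a (l 27615316455) (l 84523660359)) (l 106535394455))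 (l 4))) (l 4))) (l 4)) (b (l 4) (l 4))) (l 4)) (l 4))), by decide +kernel⟩

theorem s30_pp_022 : ∃ t, chk3 f_pp_022 t 5 6 1 = true := ex3_a k26_pp_022 k27_pp_022

theorem s31_pp_022 : ∃ t, chk3 f_pp_022 t 5 3 1 = true := ex3_b s30_pp_022 k28_pp_022

theorem s32_pp_022 : ∃ t, chk3 f_pp_022 t 36 60 1 = true := ex3_b k20_pp_022 k21_pp_022

theorem s33_pp_022 : ∃ t, chk3 f_pp_022 t 18 60 1 = true := ex3_a s32_pp_022 k22_pp_022

theorem s34_pp_022 : ∃ t, chk3 f_pp_022 t 18 30 1 = true := ex3_b s33_pp_022 k23_pp_022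

theorem s35_pp_022 : ∃ t, chk3 f_pp_022 t 9 30 1 = true := ex3_a s34_pp_022 k24_pp_022

theorem s36_pp_022 : ∃ t, chk3 f_pp_022 t 9 15 1 = true := ex3_b s35_pp_022 k25_pp_022

theorem s37_pp_022 : ∃ t, chk3 f_pp_022 t 19 14 1 = true := ex3_b k18_pp_022 k19_pp_022

theorem s38_pp_022 : ∃ t, chk3 f_pp_022 t 18 29 1 = true := ex3_a k16_pp_022 k17_pp_022

theorem s39_pp_022 : ∃ t, chk3 f_pp_022 t 18 14 1 = true := ex3_b k15_pp_022 s38_pp_022

theorem s40_pp_022 : ∃ t, chk3 f_pp_022 t 9 14 1 = true := ex3_a s39_pp_022 s37_pp_022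

theorem s41_pp_022 : ∃ t, chk3 f_pp_022 t 9 7 1 = true := ex3_b s40_pp_022 s36_pp_022

theorem s42_pp_022 : ∃ t, chk3 f_pp_022 t 35 122 1 = true := ex3_a k11_pp_022 k12_pp_022

theorem s43_pp_022 : ∃ t, chk3 f_pp_022 t 35 61 1 = true := ex3_b s42_pp_022 k13_pp_022

theorem s44_pp_022 : ∃ t, chk3 f_pp_022 t 35 30 1 = true := ex3_b k10_pp_022 s43_pp_022

theorem s45_pp_022 : ∃ t, chk3 f_pp_022 t 34 61 1 = true := ex3_b k8_pp_022 k9_pp_022

theorem s46_pp_022 : ∃ t, chk3 f_pp_022 t 34 30 1 = true := ex3_b k7_pp_022 s45_pp_022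

theorem s47_pp_022 : ∃ t, chk3 f_pp_022 t 17 30 1 = true := ex3_a s46_pp_022 s44_pp_022

theorem s48_pp_022 : ∃ t, chk3 f_pp_022 t 17 15 1 = true := ex3_b s47_pp_022 k14_pp_022

theorem s49_pp_022 : ∃ t, chk3 f_pp_022 t 8 15 1 = true := ex3_a k6_pp_022 s48_pp_022

theorem s50_pp_022 : ∃ t, chk3 f_pp_022 t 16 14 1 = true := ex3_a k3_pp_022 k4_pp_022

theorem s51_pp_022 : ∃ t, chk3 f_pp_022 t 8 14 1 = true := ex3_a s50_pp_022 k5_pp_022

theorem s52_pp_022 : ∃ t, chk3 f_pp_022 t 8 7 1 = true := ex3_b s51_pp_022 s49_pp_022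

theorem s53_pp_022 : ∃ t, chk3 f_pp_022 t 4 7 1 = true := ex3_a s52_pp_022 s41_pp_022

theorem s54_pp_022 : ∃ t, chk3 f_pp_022 t 4 6 1 = true := ex3_a k1_pp_022 k2_pp_022

theorem s55_pp_022 : ∃ t, chk3 f_pp_022 t 4 3 1 = true := ex3_b s54_pp_022 s53_pp_022

theorem s56_pp_022 : ∃ t, chk3 f_pp_022 t 2 3 1 = true := ex3_a s55_pp_022 s31_pp_022

theorem s57_pp_022 : ∃ t, chk3 f_pp_022 t 2 1 1 = true := ex3_b k0_pp_022 s56_pp_022

theorem s58_pp_022 : ∃ t, chk3 f_pp_022 t 1 1 1 = true := ex3_a s57_pp_022 k29_pp_022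

theorem c_pp_022 : CertN 0 536870912 0 536870912 134217728 67108864 3 true true true .pp 0 2 2
    ndN0q0 ndN0q2 pcN2 cut_pp_022 Ext.none :=
  certN0 (fam := true) (s1 := true) (s2 := true) (a := 0) (b := 2) (c := 2) (cn := .pp) (n1 := ndN0q0) (n2 := ndN0q2) (pc := pcN2) (cut := cut_pp_022) (xt := Ext.none) (P1 := 0) (W1 := 536870912) (P2 := 0) (W2 := 536870912) (P3 := 134217728) (W3 := 67108864) (N0 := 3)
    rfl s58_pp_022

noncomputable def f_pp_023 : ℕ → ℕ → ℕ → ℕ → Bool := onCell 1610612736 536870912 0 536870912 134217728 67108864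
    (rowN 3 2 true true true .up 0 2 3 (qsf 0 536870912 0 536870912 3) ndN0q0 ndN0q2 pcN3 Cut.none Ext.none)

def k0_pp_023 : ∃ t, chk3 f_pp_023 t 1 1 1 = true :=
  ⟨(a (b (a (a (b (b (a (l 17227320) (l 17141272)) (a (b (l 17107152) (l 16999544)) (b (l 17023608) (a (l 16958816) (l 16897744))))) (b (a (b (a (l 16948648) (l 16844816)) (a (b (l 16854416) (b (l 16816712) (c (l 16795032) (l 16798704)))) (b (b (l 16847704) (l 16797064)) (b (a (l 16808528) (l 54458895655)) (l 90429308503))))) (b (a (c (l 16832480) (l 16829600)) (b (l 16831000) (b (l 16789120) (a (l 16804696) (l 74323137047))))) (a (b (a (b (l 16818576) (l 64659475511)) (b (l 52311436631) (l 88281766743))) (l 115125366471)) (b (b (l 93650518151) (l 4)) (l 4))))) (a (b (b (a (b (a (l 30836574023) (l 82913054487)) (l 105461657991)) (l 4)) (l 4)) (l 4)) (l 4)))) (b (b (a (b (l 17095016) (l 17021184)) (b (l 17014568) (l 16879832))) (a (c (b (l 16911976) (a (l 16844816) (b (l 16869000) (l 16785216)))) (b (l 16890712) (a (l 16830560)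 (l 16815960)))) (b (a (l 16843760) (b (l 16868192) (l 16798536))) (b (a (a (l 16835112) (l 16817296)) (b (a (l 16809888) (l 16815104)) (l 86671199607))) (a (b (a (l 16804912) (l 76470609415)) (l 92039888647)) (l 115662224263)))))) (b (b (c (a (a (b (l 20636039687) (l 93650536551)) (b (l 84523734359) (l 4))) (l 4)) (a (a (b (l 27078499383) (l 96871766343)) (b (l 88281829767) (l 4))) (l 4))) (l 4)) (l 4)))) (a (b (b (a (b (l 16917512) (a (l 16886840) (b (l 16868840) (l 16833936)))) (l 2)) (a (b (a (b (l 16832496) (a (l 49627088455) (l 79691868983))) (b (b (l 16807960) (l 75933776599)) (l 104924822311))) (a (b (l 109756662535) (l 4)) (l 4))) (l 2))) (l 4)) (l 2))) (l 4)) (l 2)), by decide +kernel⟩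

theorem c_pp_023 : CertN 0 536870912 0 536870912 134217728 67108864 3 true true true .up 0 2 3
    ndN0q0 ndN0q2 pcN3 Cut.none Ext.none :=
  certN2 (fam := true) (s1 := true) (s2 := true) (a := 0) (b := 2) (c := 3) (cn := .up) (n1 := ndN0q0) (n2 := ndN0q2) (pc := pcN3) (cut := Cut.none) (xt := Ext.none) (P1 := 0) (W1 := 536870912) (P2 := 0) (W2 := 536870912) (P3 := 134217728) (W3 := 67108864) (N0 := 3)
    rfl (fun _ => rfl) k0_pp_023

noncomputable def f_pp_101 : ℕ → ℕ → ℕ → ℕ → Bool := onCell 536870912 536870912 0 536870912 134217728 67108864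
    (rowN 3 0 true true true .npn 1 0 1 (qsf 536870912 536870912 0 536870912 1) ndN0q1 ndN0q0 pcN1 Cut.none Ext.none)

def k0_pp_101 : ∃ t, chk3 f_pp_101 t 1 1 1 = true :=
  ⟨(a (l 4) (l 5)), by decide +kernel⟩

theorem c_pp_101 : CertN 536870912 536870912 0 536870912 134217728 67108864 3 true true true .npn 1 0 1
    ndN0q1 ndN0q0 pcN1 Cut.none Ext.none :=
  certN0 (fam := true) (s1 := true) (s2 := true) (a := 1) (b := 0) (c := 1) (cn := .npn) (n1 := ndN0q1) (n2 := ndN0q0) (pc := pcN1) (cut := Cut.none) (xt := Ext.none) (P1 := 536870912) (W1 := 536870912) (P2 := 0) (W2 := 536870912) (P3 := 134217728) (W3 := 67108864) (N0 := 3)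
    rfl k0_pp_101

noncomputable def f_pp_102 : ℕ → ℕ → ℕ → ℕ → Bool := onCell 536870912 536870912 0 536870912 134217728 67108864
    (rowN 3 0 true true true .npp 1 0 2 (qsf 536870912 536870912 0 536870912 2) ndN0q1 ndN0q0 pcN2 Cut.none Ext.none)

def k0_pp_102 : ∃ t, chk3 f_pp_102 t 1 1 1 = true :=
  ⟨(a (l 4) (l 5)), by decide +kernel⟩

theorem c_pp_102 : CertN 536870912 536870912 0 536870912 134217728 67108864 3 true true true .npp 1 0 2
    ndN0q1 ndN0q0 pcN2 Cut.none Ext.none :=
  certN0 (fam := true) (s1 := true) (s2 := true) (a := 1) (b := 0) (c := 2) (cn := .npp) (n1 := ndN0q1) (n2 := ndN0q0) (pc := pcN2) (cut := Cut.none) (xt := Ext.none) (P1 := 536870912) (W1 := 536870912) (P2 := 0) (W2 := 536870912) (P3 := 134217728) (W3 := 67108864) (N0 := 3)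
    rfl k0_pp_102

noncomputable def f_pp_112 : ℕ → ℕ → ℕ → ℕ → Bool := onCell 536870912 536870912 536870912 536870912 134217728 67108864
    (rowN 3 0 true true true .dn 1 1 2 (qsf 536870912 536870912 536870912 536870912 2) ndN0q1 ndN0q1 pcN2 Cut.none Ext.none)

def k0_pp_112 : ∃ t, chk3 f_pp_112 t 1 1 1 = true :=
  ⟨(l 4), by decide +kernel⟩

theorem c_pp_112 : CertN 536870912 536870912 536870912 536870912 134217728 67108864 3 true true true .dn 1 1 2
    ndN0q1 ndN0q1 pcN2 Cut.none Ext.none :=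
  certN0 (fam := true) (s1 := true) (s2 := true) (a := 1) (b := 1) (c := 2) (cn := .dn) (n1 := ndN0q1) (n2 := ndN0q1) (pc := pcN2) (cut := Cut.none) (xt := Ext.none) (P1 := 536870912) (W1 := 536870912) (P2 := 536870912) (W2 := 536870912) (P3 := 134217728) (W3 := 67108864) (N0 := 3)
    rfl k0_pp_112

noncomputable def f_pp_113 : ℕ → ℕ → ℕ → ℕ → Bool := onCell 536870912 536870912 536870912 536870912 134217728 67108864
    (rowN 3 0 true true true .nn 1 1 3 (qsf 536870912 536870912 536870912 536870912 3) ndN0q1 ndN0q1 pcN3 Cut.none Ext.none)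

def k0_pp_113 : ∃ t, chk3 f_pp_113 t 1 1 1 = true :=
  ⟨(l 4), by decide +kernel⟩

theorem c_pp_113 : CertN 536870912 536870912 536870912 536870912 134217728 67108864 3 true true true .nn 1 1 3
    ndN0q1 ndN0q1 pcN3 Cut.none Ext.none :=
  certN0 (fam := true) (s1 := true) (s2 := true) (a := 1) (b := 1) (c := 3) (cn := .nn) (n1 := ndN0q1) (n2 := ndN0q1) (pc := pcN3) (cut := Cut.none) (xt := Ext.none) (P1 := 536870912) (W1 := 536870912) (P2 := 536870912) (W2 := 536870912) (P3 := 134217728) (W3 := 67108864) (N0 := 3)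
    rfl k0_pp_113

noncomputable def f_pp_123 : ℕ → ℕ → ℕ → ℕ → Bool := onCell 536870912 536870912 0 536870912 134217728 67108864
    (rowN 3 0 true true true .npn 1 2 3 (qsf 536870912 536870912 0 536870912 3) ndN0q1 ndN0q2 pcN3 Cut.none Ext.none)

def k0_pp_123 : ∃ t, chk3 f_pp_123 t 1 1 1 = true :=
  ⟨(a (b (a (a (b (b (a (b (a (l 16888952) (l 16834104)) (a (c (l 16817256) (l 16817864)) (b (b (l 16815496) (l 16821376)) (l 92576784407)))) (b (b (a (l 16838080) (b (l 16814032) (l 16820424))) (a (b (l 16814880) (l 16821024)) (a (l 87744934119) (l 108682859735)))) (a (a (l 98482389687) (l 116199121943)) (l 4)))) (a (a (b (a (l 100093000263) (l 115662249239)) (l 4)) (l 4)) (l 4))) (l 4)) (b (b (a (b (a (b (a (l 88818676375) (l 110830344503)) (l 4)) (l 4)) (l 4)) (l 4)) (l 4)) (l 4))) (l 4)) (l 4)) (l 4)), by decide +kernel⟩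

theorem c_pp_123 : CertN 536870912 536870912 0 536870912 134217728 67108864 3 true true true .npn 1 2 3
    ndN0q1 ndN0q2 pcN3 Cut.none Ext.none :=
  certN0 (fam := true) (s1 := true) (s2 := true) (a := 1) (b := 2) (c := 3) (cn := .npn) (n1 := ndN0q1) (n2 := ndN0q2) (pc := pcN3) (cut := Cut.none) (xt := Ext.none) (P1 := 536870912) (W1 := 536870912) (P2 := 0) (W2 := 536870912) (P3 := 134217728) (W3 := 67108864) (N0 := 3)
    rfl k0_pp_123

noncomputable def f_pp_202 : ℕ → ℕ → ℕ → ℕ → Bool := onCell 0 536870912 0 536870912 134217728 67108864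
    (rowN 3 0 true true true .pp 2 0 2 (qsf 0 536870912 0 536870912 2) ndN0q2 ndN0q0 pcN2 Cut.none Ext.none)

def k0_pp_202 : ∃ t, chk3 f_pp_202 t 1 1 1 = true :=
  ⟨(l 5), by decide +kernel⟩

theorem c_pp_202 : CertN 0 536870912 0 536870912 134217728 67108864 3 true true true .pp 2 0 2
    ndN0q2 ndN0q0 pcN2 Cut.none Ext.none :=
  certN0 (fam := true) (s1 := true) (s2 := true) (a := 2) (b := 0) (c := 2) (cn := .pp) (n1 := ndN0q2) (n2 := ndN0q0) (pc := pcN2) (cut := Cut.none) (xt := Ext.none) (P1 := 0) (W1 := 536870912) (P2 := 0) (W2 := 536870912) (P3 := 134217728) (W3 := 67108864) (N0 := 3)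
    rfl k0_pp_202

noncomputable def f_pp_203 : ℕ → ℕ → ℕ → ℕ → Bool := onCell 0 536870912 0 536870912 134217728 67108864
    (rowN 3 0 true true true .up 2 0 3 (qsf 0 536870912 0 536870912 3) ndN0q2 ndN0q0 pcN3 Cut.none Ext.none)

def k0_pp_203 : ∃ t, chk3 f_pp_203 t 1 1 1 = true :=
  ⟨(l 5), by decide +kernel⟩

theorem c_pp_203 : CertN 0 536870912 0 536870912 134217728 67108864 3 true true true .up 2 0 3
    ndN0q2 ndN0q0 pcN3 Cut.none Ext.none :=
  certN0 (fam := true) (s1 := true) (s2 := true) (a := 2) (b := 0) (c := 3) (cn := .up) (n1 := ndN0q2) (n2 := ndN0q0) (pc := pcN3) (cut := Cut.none) (xt := Ext.none) (P1 := 0) (W1 := 536870912) (P2 := 0) (W2 := 536870912) (P3 := 134217728) (W3 := 67108864) (N0 := 3)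
    rfl k0_pp_203

noncomputable def f_pp_213 : ℕ → ℕ → ℕ → ℕ → Bool := onCell 0 536870912 536870912 536870912 134217728 67108864
    (rowN 3 0 true true true .pnn 2 1 3 (qsf 0 536870912 536870912 536870912 3) ndN0q2 ndN0q1 pcN3 Cut.none Ext.none)

def k0_pp_213 : ∃ t, chk3 f_pp_213 t 1 1 1 = true :=
  ⟨(a (l 5) (l 4)), by decide +kernel⟩

theorem c_pp_213 : CertN 0 536870912 536870912 536870912 134217728 67108864 3 true true true .pnn 2 1 3
    ndN0q2 ndN0q1 pcN3 Cut.none Ext.none :=
  certN0 (fam := true) (s1 := true) (s2 := true) (a := 2) (b := 1) (c := 3) (cn := .pnn) (n1 := ndN0q2) (n2 := ndN0q1) (pc := pcN3) (cut := Cut.none) (xt := Ext.none) (P1 := 0) (W1 := 536870912) (P2 := 536870912) (W2 := 536870912) (P3 := 134217728) (W3 := 67108864) (N0 := 3)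
    rfl k0_pp_213

noncomputable def f_pm_001 : ℕ → ℕ → ℕ → ℕ → Bool := onCell 0 536870912 0 536870912 134217728 67108864
    (rowN 3 0 true true false .up 0 0 1 (qsf 0 536870912 0 536870912 1) ndN0q0 ndN0q0 pcN1 Cut.none Ext.none)

def k0_pm_001 : ∃ t, chk3 f_pm_001 t 1 1 1 = true :=
  ⟨(l 3), by decide +kernel⟩

theorem c_pm_001 : CertN 0 536870912 0 536870912 134217728 67108864 3 true true false .up 0 0 1
    ndN0q0 ndN0q0 pcN1 Cut.none Ext.none :=
  certN0 (fam := true) (s1 := true) (s2 := false) (a := 0) (b := 0) (c := 1) (cn := .up) (n1 := ndN0q0) (n2 := ndN0q0) (pc := pcN1) (cut := Cut.none) (xt := Ext.none) (P1 := 0) (W1 := 536870912) (P2 := 0) (W2 := 536870912) (P3 := 134217728) (W3 := 67108864) (N0 := 3)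
    rfl k0_pm_001

noncomputable def cut_pm_011 : Cut := Cut.of [[⟨0, 0, 0, 67108864⟩, ⟨1, 1, 0, 67108864⟩, ⟨2, 1, 0, 67108864⟩]]

noncomputable def f_pm_011 : ℕ → ℕ → ℕ → ℕ → Bool := onCell 536870912 536870912 536870912 536870912 134217728 67108864
    (rowN 3 2 true true false .pnn 0 1 1 (qsf 0 536870912 536870912 536870912 1) ndN0q0 ndN0q1 pcN1 cut_pm_011 Ext.none)

def k0_pm_011 : ∃ t, chk3 f_pm_011 t 1 1 1 = true :=
  ⟨(a (l 3) (b (l 3) (a (l 3) (b (l 3) (a (l 3) (b (l 3) (a (l 3) (b (l 3) (l 6))))))))), by decide +kernel⟩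

theorem c_pm_011 : CertN 0 536870912 536870912 536870912 134217728 67108864 3 true true false .pnn 0 1 1
    ndN0q0 ndN0q1 pcN1 cut_pm_011 Ext.none :=
  certN2 (fam := true) (s1 := true) (s2 := false) (a := 0) (b := 1) (c := 1) (cn := .pnn) (n1 := ndN0q0) (n2 := ndN0q1) (pc := pcN1) (cut := cut_pm_011) (xt := Ext.none) (P1 := 0) (W1 := 536870912) (P2 := 536870912) (W2 := 536870912) (P3 := 134217728) (W3 := 67108864) (N0 := 3)
    rfl (fun _ => rfl) k0_pm_011

end Pool.Agent.Strip051.G.I1_8_3_16.Tab.C.NA00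

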