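import Pool.Agent.Strip051.G.I1_8_3_16.Tab

/-! # Certificates N1 (generated) -/

set_option linter.all false
set_option maxRecDepth 100000

namespace Pool.Agent.Strip051.G.I1_8_3_16.Tab.C.NA00

open Pool.Agent.Strip051.PB Pool.Agent.Strip051.PB.T
open Pool.Agent.Strip051.G.I1_8_3_16.Tab

noncomputable def cut_pm_012 : Cut := Cut.of [[⟨0, 0, 0, 67108864⟩, ⟨1, 1, 0, 67108864⟩, ⟨2, 1, 0, 67108864⟩], [⟨0, 0, 1, 41943040⟩, ⟨1, 1, 0, 16777216⟩, ⟨2, 1, 1, 41943040⟩]]

noncomputable def f_pm_012 : ℕ → ℕ → ℕ → ℕ → Bool := onCell 1073741824 536870912 536870912 536870912 134217728 67108864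
    (rowN 3 2 true true false .pnp 0 1 2 (qsf 0 536870912 536870912 536870912 2) ndN0q0 ndN0q1 pcN2 cut_pm_012 Ext.none)

def k0_pm_012 : ∃ t, chk3 f_pm_012 t 2 2 1 = true :=
  ⟨(a (b (l 3) (l 3)) (b (a (a (a (l 3) (l 2)) (l 2)) (l 2)) (a (a (a (b (l 3) (b (l 3) (a (l 3) (b (a (l 3) (l 119353182919)) (a (l 134385559319) (l 16830048)))))) (a (b (b (l 3) (a (l 3) (b (l 3) (l 106468327527)))) (b (a (b (l 3) (l 87140971447)) (b (l 16828128) (l 16822432))) (a (b (l 16824072) (l 16818560)) (l 16839040)))) (b (b (a (b (l 2) (l 102173362279)) (a (l 10301343815) (l 16822744))) (a (c (l 16845320) (l 84993505383)) (a (l 16840848) (l 16815280)))) (a (b (l 16838312) (l 16843624)) (a (b (l 16834608) (l 16806272)) (b (l 16814216) (l 16809536))))))) (b (a (b (l 16845688) (l 16833360)) (l 16927440)) (b (a (l 16827936) (l 16840160)) (a (l 16806216) (l 16861712))))) (b (a (a (l 16913880) (l 2)) (l 2)) (a (b (l 16889744) (l 16892040)) (l 17045272)))))), by decide +kernel⟩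

def k1_pm_012 : ∃ t, chk3 f_pm_012 t 4 6 1 = true :=
  ⟨(a (l 3) (b (a (l 3) (a (l 3) (b (l 3) (a (b (l 3) (a (l 3) (b (l 3) (l 134385565303)))) (b (a (l 3) (b (l 135996180135) (l 91972789207))) (a (b (l 123111271927) (l 86067206967)) (c (l 16821760) (l 16818360)))))))) (a (b (l 3) (a (l 3) (b (l 3) (a (l 3) (b (l 3) (a (l 3) (b (a (l 3) (b (l 126332479239) (l 109152611607))) (a (b (l 126869347271) (l 99488938839)) (c (l 16795704) (l 16792944)))))))))) (a (b (a (l 3) (b (l 3) (a (b (l 3) (a (l 3) (l 127943104631))) (b (a (l 3) (l 125258748471)) (c (l 90899037719) (l 90899027783)))))) (a (b (a (b (l 3) (c (l 127943115111) (l 135459298263))) (b (a (l 3) (l 129553718407)) (a (b (l 132238069271) (l 111300099735)) (b (l 111836970407) (l 16797664))))) (a (c (b (b (l 120963780487) (a (l 117205678487) (l 16798632))) (b (l 16808120) (l 16797408))) (b (b (l 142438608439) (a (l 125258734279) (l 16795352))) (b (l 16806752) (l 16792816)))) (b (a (b (l 16807968) (l 16799400)) (l 16808968)) (l 16797424)))) (b (a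 (b (a (b (l 131701197863) (l 106468261095)) (c (l 16811160) (l 16807360))) (c (l 16802240) (l 16808808))) (b (c (l 16802192) (l 16798704)) (l 16800896))) (b (c (l 16807584) (l 16796912)) (l 16797088))))) (b (a (b (a (b (l 3) (a (l 134385559559) (l 118816295479))) (b (a (l 125795622055) (l 88214677895)) (l 77477261031))) (a (b (c (l 91972777351) (l 89825285239)) (l 16811080)) (b (l 16800688) (l 16803640)))) (a (b (a (l 16819920) (l 16821912)) (l 16808184)) (b (l 16804200) (l 16817040)))) (b (a (b (l 16805624) (l 16811944)) (c (l 16836176) (l 16817688))) (a (c (l 16832944) (l 16810848)) (c (l 16856200) (l 16826880))))))))), by decide +kernel⟩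

def k2_pm_012 : ∃ t, chk3 f_pm_012 t 8 14 1 = true :=
  ⟨(a (l 3) (b (l 3) (a (l 3) (b (l 3) (a (b (l 3) (a (l 3) (b (l 3) (a (b (l 3) (l 127943068839)) (b (c (l 108615714535) (l 111300068391)) (c (l 37748746967) (l 16782200))))))) (b (a (b (l 3) (a (l 3) (b (l 3) (l 119353134775)))) (b (a (l 3) (b (l 121500620519) (c (l 57612977607) (l 54928621591)))) (a (b (c (l 93583340375) (l 94657080919)) (l 26474460535)) (l 16782280)))) (a (b (a (b (l 127943071303) (c (l 89288360023) (l 90362101095))) (c (c (l 31306299303) (l 30232557095)) (l 28621944471))) (c (c (l 16782280) (l 16782264)) (l 16782232))) (c (l 16781856) (l 16782952))))))))), by decide +kernel⟩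

def k3_pm_012 : ∃ t, chk3 f_pm_012 t 18 28 1 = true :=
  ⟨(a (b (l 3) (a (l 3) (b (a (l 3) (a (l 3) (b (l 3) (c (l 128479948759) (l 136533007799))))) (a (b (l 3) (a (l 3) (b (l 132774920183) (l 113984438327)))) (c (b (a (l 126332461591) (l 72108511751)) (b (l 39896246647) (l 16784120))) (b (a (l 133311779319) (l 68350411815)) (l 24863862359))))))) (b (a (b (l 3) (c (a (b (l 3) (l 121500637735)) (b (a (l 124721862535) (l 123648113687)) (a (l 115595046791) (l 16791864)))) (a (b (l 3) (l 139217372007)) (b (a (l 132774920103) (l 126332462663)) (a (l 117742525367) (l 16789144)))))) (a (b (b (a (l 3) (c (l 130090571015) (l 138143628151))) (a (b (l 126332470519) (l 105394511431)) (c (l 16793160) (l 16791392)))) (c (b (a (l 16792616) (l 16792168)) (l 16791728)) (l 16794080))) (b (b (a (a (l 16798240) (l 16794088)) (l 16793880)) (l 16796264)) (l 16791200)))) (c (a (b (a (b (a (l 120426888535) (l 107005129975)) (a (l 80698448263) (l 16788048))) (l 16793944)) (a (l 16786232) (l 16792488))) (b (l 16799464) (l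 16805008))) (a (b (a (b (a (l 140827978055) (l 84993414439)) (a (l 76940348615) (l 16785752))) (l 16794128)) (a (l 16790096) (l 16794640))) (b (l 16791192) (l 16775360)))))), by decide +kernel⟩

def k4_pm_012 : ∃ t, chk3 f_pm_012 t 18 29 1 = true :=
  ⟨(a (b (a (b (a (l 3) (b (l 3) (a (b (l 3) (l 129016818855)) (b (l 118816269591) (c (l 65666049991) (l 16785592)))))) (a (b (a (l 3) (b (l 3) (l 121500622423))) (a (b (l 129016817191) (l 95193949319)) (c (l 36675015831) (l 32916917191)))) (b (a (b (l 93046467655) (l 16787176)) (l 16790504)) (l 16786536)))) (a (b (b (a (b (l 128479954711) (l 97878307879)) (c (l 16787464) (l 16788480))) (c (l 16791592) (l 16790256))) (c (l 16788952) (l 16781752))) (c (b (l 16783224) (l 16781992)) (b (l 16796432) (l 16787584))))) (a (b (b (a (c (l 11442077943) (l 16785024)) (l 16780576)) (c (l 16781024) (l 16780880))) (c (a (c (l 16792552) (l 16792208)) (l 16780744)) (l 16775448))) (c (b (l 16772600) (a (l 16769232) (l 16768312))) (b (l 16772560) (l 16772024))))) (b (c (a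 (b (l 16781280) (l 16770120)) (b (l 16808472) (l 16808584))) (b (a (l 16780048) (l 16765896)) (a (l 16785328) (l 16782632)))) (a (c (b (c (l 16800360) (l 16769584)) (c (l 16792328) (l 16766320))) (b (l 16769664) (l 16769264))) (c (b (l 16782936) (c (l 16816992) (l 16768104))) (b (l 16761864) (l 16761624)))))), by decide +kernel⟩

def k5_pm_012 : ∃ t, chk3 f_pm_012 t 19 14 1 = true :=
  ⟨(b (a (b (a (b (c (l 16804016) (l 16790392)) (c (l 16811552) (l 16789920))) (c (l 16807912) (l 16801256))) (a (c (b (l 16818944) (l 16825136)) (b (l 16787984) (l 16783264))) (c (b (l 16841112) (l 16847888)) (b (l 16799976) (l 16795952))))) (b (a (c (l 16851904) (l 16815728)) (c (l 16875912) (l 16832600))) (c (a (l 16868760) (l 16893880)) (a (l 16814096) (l 16832328))))) (a (b (a (c (b (l 16829280) (l 16830448)) (b (l 16774592) (l 16760624))) (c (b (l 16852848) (l 16855256)) (b (l 16788344) (l 16776048)))) (a (c (b (l 16827480) (c (l 16845680) (l 16791664))) (b (l 16759768) (l 16764408))) (c (b (l 16833136) (l 16766696))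 (b (l 16757768) (l 16756936))))) (b (c (a (b (l 16878208) (l 16881976)) (b (l 16904720) (l 16909864))) (a (b (l 16805832) (l 16795272)) (b (l 16825928) (l 16817008)))) (c (a (b (l 16882632) (l 16857840)) (b (l 16912216) (l 16910744))) (a (b (l 16779104) (l 16755240)) (b (l 16802904) (l 16782440))))))), by decide +kernel⟩

def k6_pm_012 : ∃ t, chk3 f_pm_012 t 16 30 1 = true :=
  ⟨(a (l 3) (b (l 3) (a (l 3) (b (l 3) (a (l 3) (b (l 3) (a (a (l 3) (b (l 3) (b (l 3) (l 6)))) (a (a (b (l 3) (b (l 69424124871) (l 6))) (b (l 160155315143) (c (l 16778848) (l 16779872)))) (b (c (b (l 135996119831) (l 35601255655)) (b (l 144586049511) (l 16779096))) (l 16778872)))))))))), by decide +kernel⟩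

def k7_pm_012 : ∃ t, chk3 f_pm_012 t 34 60 1 = true :=
  ⟨(a (l 3) (b (l 3) (a (b (l 3) (a (l 3) (a (b (l 3) (a (l 123648093783) (l 51170515607))) (b (l 137606738983) (l 16779552))))) (a (a (b (l 3) (c (c (l 23790097751) (l 23253226695)) (l 22179486199))) (b (b (l 3) (a (l 134385512871) (l 53317999959))) (l 16779592))) (a (b (b (l 145122932535) (l 16779736)) (l 16779144)) (b (b (l 41506840295) (l 16781960)) (l 16778696))))))), by decide +kernel⟩

def k8_pm_012 : ∃ t, chk3 f_pm_012 t 34 61 1 = true :=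
  ⟨(a (b (a (a (l 3) (a (l 3) (b (l 3) (b (l 3) (l 151028511095))))) (b (a (l 3) (b (l 3) (a (l 159618447415) (b (l 126869319335) (l 37748740759))))) (b (b (a (l 3) (c (l 33990643703) (l 32916902471))) (a (a (l 3) (l 66739771559)) (l 16780192))) (a (a (b (l 117742508343) (l 28085064007)) (l 9831453303)) (c (l 16777320) (l 16776728)))))) (a (a (b (b (l 3) (b (a (l 3) (a (l 136532995511) (l 48486158455))) (a (a (l 3) (l 67276641031)) (l 16779544)))) (b (c (c (l 10368322471) (l 16778592)) (l 16778976)) (c (l 16779232) (l 16778768)))) (b (b (a (b (l 156934091639) (l 54928610695)) (b (l 43117449831) (l 16780144))) (c (l 16779984) (l 16779552))) (c (c (l 16777680) (l 16777376)) (l 16778248)))) (a (c (b (l 16778944) (c (l 16775648) (l 16775256))) (b (l 16779040) (l 16777312))) (c (b (l 16777560) (c (l 16774984) (l 16774488))) (b (l 16778120) (l 16776400)))))) (b (a (b (a (b (c (a (l 124184965015) (l 37748740567)) (a (l 132238029239) (l 16779952))) (c (l 16780552) (l 16779992))) (c (l 16780064) (l 16782024)))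 (c (c (l 16779480) (l 16779040)) (c (l 16778624) (l 16778224)))) (c (b (c (l 16779088) (l 16778608)) (c (l 16775576) (l 16774928))) (b (l 16777928) (l 16776624)))) (c (b (a (c (l 16778128) (l 16777576)) (c (l 16774384) (l 16773600))) (a (c (b (l 16774416) (l 16773664)) (l 16776016)) (c (l 16775568) (l 16772056)))) (b (a (c (l 16777048) (l 16776544)) (c (l 16772848) (l 16772120))) (a (c (l 16775384) (l 16774776)) (c (l 16771192) (l 16770360))))))), by decide +kernel⟩

def k9_pm_012 : ∃ t, chk3 f_pm_012 t 35 30 1 = true :=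
  ⟨(b (a (b (a (b (a (l 3) (b (l 3) (a (l 171966470615) (l 60297325495)))) (a (b (c (l 153712859479) (l 154786601127)) (b (l 60834195927) (l 32380033879))) (c (c (l 17884519671) (l 16781296)) (l 15737036759)))) (b (a (b (a (l 145659804631) (l 16781992)) (l 16781256)) (l 16780144)) (c (l 16785520) (l 16785008)))) (c (a (b (l 16781320) (l 16778064)) (a (l 16777288) (l 16776560))) (a (b (l 16780784) (l 16779760)) (c (l 16776712) (l 16776824))))) (c (b (a (c (l 16779184) (l 16778824)) (l 16775024)) (a (c (l 16775912) (l 16775104)) (c (l 16772120) (l 16771072)))) (b (a (l 16778296) (l 16775184)) (a (c (l 16774320) (l 16773568)) (l 16774144))))) (b (a (c (b (a (l 16777304) (l 16773232)) (a (l 16776416) (l 16775000))) (a (b (l 16778632) (l 16774768)) (b (l 16771520) (l 16770304)))) (c (a (b (l 16771872) (l 16773680)) (b (l 16770640) (l 16769856))) (a (b (l 16769712) (l 16768512)) (b (l 16767984) (l 16766808))))) (a (b (c (c (a (l 16773248) (l 16772048)) (a (l 16772232) (l 16770784))) (a (l 16773392) (l 16774224)))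 (c (c (a (l 16771968) (l 16770888)) (a (l 16770824) (l 16769472))) (a (c (l 16769704) (l 16768632)) (c (l 16768096) (l 16766776))))) (c (b (c (a (l 16770888) (l 16769592)) (a (l 16769376) (l 16767832))) (c (a (b (l 16770008) (l 16769576)) (l 16771344)) (a (l 16770680) (l 16766848)))) (b (a (l 16767216) (c (l 16766128) (l 16764488))) (a (c (l 16771696) (l 16770144)) (c (l 16765032) (l 16763280)))))))), by decide +kernel⟩

def k10_pm_012 : ∃ t, chk3 f_pm_012 t 18 30 1 = true :=
  ⟨(a (b (b (b (a (c (l 16773320) (l 16774320)) (c (l 16768752) (l 16766072))) (c (a (l 16773112) (l 16768624)) (a (l 16773640) (l 16765456)))) (b (c (a (c (l 16770808) (l 16769496)) (l 16768368)) (a (l 16772840) (l 16764736))) (c (a (c (l 16770464) (l 16768920)) (c (l 16768696) (l 16766592))) (a (l 16771936) (l 16768800))))) (c (b (a (a (b (l 16769592) (l 16771336)) (b (l 16768672) (a (l 16768000) (l 16767640)))) (b (c (l 16768264) (l 16765992)) (c (l 16767128) (l 16764768)))) (a (b (c (a (l 16768872) (l 16767416)) (a (l 16766888)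 (l 16765264))) (c (a (l 16767080) (l 16765600)) (a (l 16765056) (l 16763432)))) (c (b (l 16765192) (l 16763320)) (b (l 16762808) (l 16760920))))) (a (a (b (b (l 16766440) (l 16765160)) (b (c (l 16764968) (l 16763120)) (l 16762144))) (b (b (l 16764992) (l 16763752)) (b (l 16762160) (l 16760296)))) (b (b (c (l 16769040) (l 16766912)) (c (l 16762480) (l 16760272))) (b (c (l 16760496) (l 16758256)) (c (l 16758592) (l 16756336))))))) (b (c (b (a (c (l 16764488) (l 16766232)) (c (l 16771720) (l 16764376))) (a (b (l 16770552) (a (l 16766776) (l 16765296))) (c (l 16767464) (l 16762448)))) (b (a (l 16768416) (b (l 16760752) (l 16760368))) (a (b (l 16761856) (l 16766392)) (c (l 16759608) (l 16756856))))) (c (b (a (b (l 16769648) (a (l 16763488) (l 16761944))) (c (l 16767264) (l 16764264))) (a (c (b (l 16762224) (l 16760296)) (b (l 16759528) (l 16757592))) (c (b (l 16759288) (l 16757336)) (b (l 16756264) (l 16754312))))) (b (a (a (l 16764592) (l 16757496)) (c (l 16756112) (l 16753280))) (a (b (l 16760872) (c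 (l 16754960) (l 16752400))) (b (l 16751888) (c (l 16751360) (l 16748496)))))))), by decide +kernel⟩

def k11_pm_012 : ∃ t, chk3 f_pm_012 t 19 30 1 = true :=
  ⟨(a (b (c (b (a (c (l 16835384) (l 16768544)) (l 16765184)) (a (c (l 16762712) (l 16759176)) (c (l 16833472) (l 16769504)))) (b (a (l 16763040) (l 16753920)) (a (c (l 16755992) (l 16752912)) (l 16756112)))) (c (b (a (c (l 16760816) (l 16755840)) (c (l 16754816) (l 16752776))) (a (c (b (l 16756440) (l 16754480)) (b (l 16753080) (l 16751120))) (c (a (l 16752136) (l 16748768)) (b (l 16750040) (l 16748096))))) (b (a (c (l 16752592) (l 16749448)) (c (l 16749200) (l 16745728))) (a (b (l 16753456) (a (l 16747176) (l 16745368))) (c (l 16750728) (l 16741976)))))) (b (c (b (a (c (l 16905320) (l 16832600)) (c (l 16941336) (l 16866936))) (a (c (l 16894552) (l 16808120)) (c (l 16934616) (l 16847384)))) (b (a (l 16750400) (l 16753856)) (a (l 16752624) (l 16743976)))) (c (b (a (c (b (l 16880640) (l 16867928)) (l 16750984)) (c (l 16920328) (l 16765576))) (c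 (a (b (l 16851944) (l 16811200)) (b (l 16903176) (l 16887952))) (a (l 16751456) (l 16744336)))) (b (a (c (l 16745936) (l 16742128)) (c (l 16742776) (l 16738632))) (a (c (l 16742280) (l 16738440)) (c (l 16739224) (l 16735048))))))), by decide +kernel⟩

def k12_pm_012 : ∃ t, chk3 f_pm_012 t 16 31 1 = true :=
  ⟨(b (a (l 6) (a (l 6) (b (a (l 6) (b (b (a (l 6) (c (l 16779248) (l 16778848))) (l 6)) (l 6))) (l 6)))) (l 6)), by decide +kernel⟩

def k13_pm_012 : ∃ t, chk3 f_pm_012 t 68 62 1 = true :=
  ⟨(b (c (b (a (c (b (l 16776856) (l 16776032)) (b (l 16776528) (l 16776968))) (c (b (l 16774136) (l 16773328)) (b (l 16773616) (l 16772760)))) (b (a (c (l 16775840) (l 16776080)) (c (l 16772488) (l 16771880))) (a (l 6) (c (l 16771624) (l 16770968))))) (b (b (a (c (l 16777520) (l 16777208)) (l 16775496)) (a (c (l 16776608) (l 16776248)) (c (l 16772216) (l 16771680)))) (b (a (c (l 16775664) (l 16775272)) (c (l 16771288) (l 16770704))) (a (l 6) (c (l 16770336) (l 16769712)))))) (a (l 6) (b (b (a (l 6) (a (l 6) (c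 (l 16769880) (l 16768360)))) (l 6)) (l 6)))), by decide +kernel⟩

def k14_pm_012 : ∃ t, chk3 f_pm_012 t 69 62 1 = true :=
  ⟨(b (c (b (a (c (b (l 16772888) (l 16772088)) (b (l 16772160) (l 16771312))) (c (b (l 16771792) (l 16771000)) (b (l 16770824) (l 16769976)))) (a (c (b (l 16771264) (c (l 16770496) (l 16770048))) (b (l 16770432) (l 16769400))) (c (b (l 16770000) (a (l 16769544) (l 16769024))) (b (l 16768936) (a (l 16768504) (l 16767872)))))) (a (a (b (l 16771088) (c (l 16769568) (l 16768816))) (b (l 16770232) (c (l 16768648) (l 16767792)))) (b (c (l 16769448) (l 16768512)) (c (b (l 16767904) (l 16769768)) (b (l 16766904) (l 16766112)))))) (b (c (a (a (c (b (l 16769728) (l 16768824)) (b (l 16768880) (l 16767952))) (c (b (l 16769272) (l 16768096)) (b (l 16768312) (l 16767144)))) (c (b (l 16768168) (l 16767048)) (b (l 16767072) (l 16765960)))) (a (a (b (l 16770256) (l 16766680)) (b (l 16769208) (l 16765744))) (c (b (l 16766008) (l 16764896)) (b (l 16764968) (l 16763856))))) (c (c (a (b (c (l 16767576)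 (l 16767120)) (l 6)) (b (l 16765896) (c (l 16764992) (l 16764456)))) (a (b (l 16766432) (l 6)) (b (l 16764824) (l 16763656)))) (a (a (l 6) (b (l 16764640) (l 6))) (c (b (l 16763768) (l 16762608)) (b (l 16762728) (l 16761576))))))), by decide +kernel⟩

def k15_pm_012 : ∃ t, chk3 f_pm_012 t 35 62 1 = true :=
  ⟨(b (c (a (b (c (a (b (l 16770832) (l 16769872)) (b (l 16769872) (l 16769064))) (a (b (l 16769600) (l 16768600)) (b (l 16768368) (l 16767552)))) (c (a (b (l 16769184) (l 16767960)) (c (l 16767648) (l 16766888))) (a (b (l 16767880) (l 16766672)) (b (l 16766328) (l 16765200))))) (b (c (a (l 16768192) (l 16766712)) (a (l 16766464) (l 16764816))) (c (a (c (l 16766464) (l 16765608)) (l 16764704)) (a (l 16764336) (l 16762816))))) (a (b (b (a (l 16767824) (c (l 16766912) (l 16765504))) (a (c (l 16767368) (l 16766168)) (c (l 16766072) (l 16764648)))) (a (b (a (l 16766392) (l 16765464)) (l 16766112)) (c (l 16764320) (l 16762904)))) (b (c (a (l 16764800) (l 16762984)) (a (l 16763184) (l 16761208))) (c (a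 (l 16762680) (l 16760976)) (a (l 16761080) (l 16759200)))))) (a (c (b (c (a (b (l 16766824) (l 16765664)) (c (l 16765944) (l 16764552))) (a (b (l 16765552) (l 16764400)) (b (l 16764048) (l 16762864)))) (c (a (b (l 16764472) (l 16763256)) (b (l 16763088) (l 16761832))) (a (b (l 16763224) (l 16762024)) (b (l 16761664) (l 16760432))))) (b (a (c (b (l 16764304) (l 16763160)) (l 16763840)) (c (l 16763352) (l 16760648))) (c (a (b (l 16762000) (l 16760816)) (b (l 16760264) (l 16759048))) (a (b (l 16760800) (l 16759624)) (l 16758296))))) (c (b (c (a (c (l 16764048) (l 16763216)) (c (l 16762856) (l 16761920))) (a (b (l 16762576) (l 16761368)) (b (l 16761144) (l 16759912)))) (b (c (a (l 16761752) (l 16760464)) (a (l 16760136) (l 16758656))) (c (a (l 16760472) (l 16759144)) (a (l 16758880) (l 16757376))))) (b (c (a (l 16760368) (l 16758728)) (a (l 16758792) (l 16756968))) (c (a (b (l 16758560) (l 16757328)) (b (l 16756888) (l 16755632))) (a (l 16756408) (l 16754552))))))), by decide +kernel⟩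

def k16_pm_012 : ∃ t, chk3 f_pm_012 t 34 63 1 = true :=
  ⟨(a (l 6) (a (l 6) (b (b (b (a (l 6) (c (c (l 16763144) (l 16762048)) (l 16761744))) (l 6)) (l 6)) (l 6)))), by decide +kernel⟩

def k17_pm_012 : ∃ t, chk3 f_pm_012 t 35 126 1 = true :=
  ⟨(a (c (b (c (a (b (c (l 16762320) (l 16761712)) (c (l 16761040) (l 16760440))) (b (c (l 16760904) (l 16760208)) (c (l 16759592) (l 16758912)))) (a (b (l 16760800) (l 16759544)) (b (l 16759176) (l 16757896)))) (c (a (b (c (l 16759736) (l 16759152)) (l 6)) (b (c (l 16758248) (l 16757584)) (c (l 16756880) (l 16756224)))) (a (b (c (l 16758560) (l 16757976)) (l 6)) (b (l 16756584) (c (l 16755576) (l 16754920)))))) (b (c (a (b (l 16759600) (l 16758368)) (b (l 16757808) (l 16756552))) (a (b (l 16758416) (l 16757192)) (b (l 16756472) (l 16755224)))) (c (a (b (l 16757104) (l 6)) (b (l 16755264) (l 16753952))) (a (b (l 16755944) (l 6)) (b (l 16753952) (l 16752656)))))) (c (b (b (c (a (l 16759160) (c (l 16758248) (l 16757368))) (a (l 16757600) (l 16756064))) (c (a (c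 (l 16758208) (l 16757440)) (c (l 16756872) (l 16756008))) (a (l 16756296) (l 16754736)))) (b (c (a (c (l 16756840) (l 16756088)) (c (l 16755464) (l 16754624))) (a (l 16754960) (l 16753376))) (c (c (a (l 16755440) (l 16754032)) (a (l 16754704) (l 16753208))) (a (c (l 16753968) (l 16753232)) (c (l 16752392) (l 16751584)))))) (b (c (a (b (l 16756064) (l 16754784)) (b (l 16754352) (l 16753048))) (a (b (l 16754552) (l 16753296)) (l 16753352))) (c (a (b (l 16753480) (l 16752144)) (b (l 16751720) (l 16750368))) (a (b (l 16752008) (l 16750696)) (b (l 16750088) (l 16748760))))))), by decide +kernel⟩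

def k18_pm_012 : ∃ t, chk3 f_pm_012 t 70 127 1 = true :=
  ⟨(a (l 6) (a (l 6) (b (b (c (c (c (l 16755064) (l 16754408)) (l 16753424)) (c (l 16752112) (l 16750808))) (l 6)) (l 6)))), by decide +kernel⟩

def k19_pm_012 : ∃ t, chk3 f_pm_012 t 71 127 2 = true :=
  ⟨(b (c (a (b (c (b (l 16754368) (l 16753632)) (b (l 16753640) (l 16752920))) (c (c (l 16752688) (l 16752352)) (c (l 16752008) (l 16751672)))) (b (c (a (b (l 16753320) (l 16752624)) (l 16753528)) (a (l 16752152) (l 16751400))) (c (a (c (l 16751688) (l 16751320)) (l 16750784)) (a (l 16750768) (l 16750016))))) (a (b (c (b (l 16752920) (l 16752208)) (l 16751792)) (c (l 16751160) (l 16750480))) (b (c (b (l 16751296) (l 16750680)) (a (l 16750600) (l 16749776))) (c (c (l 16749824) (l 16749448)) (a (l 16749296) (l 16748480)))))) (c (a (a (l 6) (b (c (l 16750664) (l 16750016)) (l 6))) (a (a (b (c (l 16750192) (l 16749512)) (l 6)) (c (b (l 16749872) (c (l 16748536) (l 16748216))) (b (l 16749176) (l 16747728)))) (c (b (c (l 16749528) (l 16749168)) (c (l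 16748048) (l 16747712))) (b (l 16748624) (c (l 16747376) (l 16747040)))))) (a (b (c (c (l 16749888) (l 16749568)) (l 16749088)) (l 6)) (a (b (c (l 16748648) (l 16747960)) (a (l 6) (c (l 16747080) (l 16746424)))) (c (b (l 16747904) (c (l 16746704) (l 16746360))) (b (l 16747176) (l 16745848))))))), by decide +kernel⟩

def k20_pm_012 : ∃ t, chk3 f_pm_012 t 71 127 3 = true :=
  ⟨(b (c (a (b (c (l 16751080) (l 16750376)) (c (l 16749800) (l 16749120))) (b (c (a (l 16749832) (l 16748968)) (l 16749920)) (c (l 16748128) (l 16747376)))) (a (b (l 16749312) (l 16748088)) (b (c (l 16747824) (l 16747048)) (c (l 16746624) (l 16745872))))) (c (a (b (c (l 16748448) (l 16747808)) (l 6)) (b (c (a (l 16747264) (l 16746448)) (a (l 16746568) (l 16745720))) (c (a (c (l 16746104) (l 16745776)) (l 16745168)) (a (l 16745288) (l 16744472))))) (a (b (c (l 16747160) (l 16746512)) (l 6)) (a (b (c (l 16745872) (l 16745168)) (c (l 16744624) (l 16743952))) (b (l 16744616) (c (l 16743776) (l 16743080))))))), by decide +kernel⟩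

def k21_pm_012 : ∃ t, chk3 f_pm_012 t 36 62 1 = true :=
  ⟨(b (c (a (b (c (a (l 16765200) (l 16763664)) (a (l 16763168) (l 16761488))) (c (a (l 16763192) (l 16761608)) (a (l 16761152) (l 16759432)))) (c (b (a (l 16762120) (l 16760576)) (a (l 16760024) (l 16758448))) (b (l 16764168) (a (l 16757704) (l 16755984))))) (a (a (b (c (l 16761192) (l 16759272)) (c (l 16759176) (l 16757248))) (b (l 16758336) (c (l 16757312) (l 16755248)))) (b (c (l 16756592) (l 16754320)) (c (a (l 16755440) (l 16753576)) (l 16752216))))) (c (b (a (c (a (c (l 16761504) (l 16760480)) (c (l 16759968) (l 16758872))) (a (l 16758976) (l 16757256))) (c (a (l 16757792) (l 16756184)) (a (l 16755496) (l 16753744)))) (a (c (a (c (l 16758984) (l 16757984)) (c (l 16757576) (l 16756504))) (a (c (l 16757000) (l 16756032)) (c (l 16755440) (l 16754384)))) (c (a (c (l 16756008) (l 16754864)) (c (l 16754408) (l 16753192))) (a (l 16753160) (l 16751384))))) (a (b (c (a (l 16757008) (l 16755144)) (a (l 16755080) (l 16753080))) (c (a (l 16754592)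 (l 16752824)) (a (l 16752704) (l 16750776)))) (b (c (a (l 16753240) (l 16751352)) (a (l 16751048) (l 16749016))) (c (a (l 16750936) (l 16749024)) (a (l 16748752) (l 16746704))))))), by decide +kernel⟩

def k22_pm_012 : ∃ t, chk3 f_pm_012 t 36 126 1 = true :=
  ⟨(c (b (b (c (a (a (l 16756416) (l 16755064)) (c (l 16753304) (l 16752136))) (a (a (l 16754504) (l 16752976)) (c (l 16750976) (l 16749832)))) (c (a (a (a (l 16755360) (l 16754656)) (l 16754928)) (a (l 16752216) (l 16750624))) (a (c (l 16754136) (l 16751856)) (c (l 16749680) (l 16748544))))) (b (c (a (c (a (l 16754024) (l 16752640)) (a (l 16753104) (l 16751632))) (c (a (l 16751320) (l 16749872)) (a (l 16750232) (l 16748704)))) (a (a (l 16751736) (l 16750144)) (c (l 16748304) (l 16747184)))) (c (a (c (a (l 16752544) (l 16751064)) (a (l 16751648) (l 16750088))) (c (a (l 16749744) (c (l 16748824) (l 16748240))) (a (l 16748680) (l 16747376)))) (a (a (l 16751624) (c (l 16749120) (l 16748152))) (c (a (l 16747616) (l 16746232)) (a (l 16746568) (l 16745096)))))))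 (b (b (a (c (a (l 16752632) (l 16750928)) (l 16749832)) (c (l 16748136) (l 16745904))) (a (c (a (l 16751288) (l 16749560)) (l 16748512)) (c (l 16749152) (l 16744648)))) (b (a (c (a (l 16749928) (l 16748168)) (l 16747168)) (c (c (l 16746080) (l 16744976)) (l 16743344))) (a (c (a (l 16748536) (l 16746704)) (a (l 16746784) (l 16744800))) (a (c (l 16746312) (l 16742936)) (c (c (l 16743968) (l 16742840)) (l 16741168))))))), by decide +kernel⟩

def k23_pm_012 : ∃ t, chk3 f_pm_012 t 36 254 2 = true :=
  ⟨(a (c (a (a (c (b (l 16751496) (l 16750072)) (b (l 16750648) (l 16749272))) (c (b (l 16750800) (l 16749392)) (b (l 16749912) (l 16748560)))) (c (b (c (l 16750024) (l 16749552)) (c (l 16748664) (l 16748216))) (b (l 16748840) (l 16748200)))) (a (b (c (b (l 16749672) (l 16749032)) (l 16748552)) (c (l 16748088) (l 16747264))) (c (b (l 16747896) (l 16746656)) (b (l 16746960) (l 16745760))))) (c (c (a (b (l 16748504) (c (l 16747544) (l 16747056))) (b (l 16747424) (c (l 16746576) (l 16746040)))) (a (b (l 16747480)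 (l 16746328)) (b (l 16746312) (l 16745248)))) (c (b (a (l 16746456) (l 16745208)) (a (l 16745352) (l 16744192))) (b (a (l 16745440) (l 16744104)) (a (l 16744384) (l 16743136)))))), by decide +kernel⟩

def k24_pm_012 : ∃ t, chk3 f_pm_012 t 36 255 2 = true :=
  ⟨(c (a (b (b (c (a (l 16748696) (l 16747464)) (a (l 16747912) (l 16746608))) (c (a (l 16747992) (l 16746808)) (a (l 16747232) (l 16745976)))) (b (c (a (c (l 16747472) (l 16747104)) (c (l 16746344) (l 16745936))) (a (l 16746552) (l 16745328))) (c (a (c (l 16746752) (l 16746400)) (c (l 16745656) (l 16745272))) (a (c (l 16746048) (l 16745688)) (c (l 16744880) (l 16744488)))))) (a (c (b (c (a (l 16746552) (l 16746072)) (l 16745840)) (b (a (l 16745376) (l 16744904)) (c (l 16744712) (l 16744280)))) (b (c (l 16745384) (l 16744920)) (c (a (l 16744416) (l 16743928)) (a (l 16743984) (l 16743480))))) (c (b (c (a (l 16745624) (l 16745216)) (a (l 16745128) (l 16744696))) (b (c (l 16744520) (l 16744032)) (c (a (l 16744104) (l 16743744)) (a (l 16743640) (l 16743256)))))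 (b (c (l 16744400) (l 16743896)) (c (a (l 16743472) (l 16742736)) (a (l 16743008) (l 16742568))))))) (a (b (c (a (c (l 16746992) (l 16746608)) (c (l 16745656) (l 16745232))) (a (c (l 16746216) (l 16745832)) (c (l 16744808) (l 16744384)))) (b (c (a (l 16745816) (l 16744520)) (a (l 16745072) (l 16743704))) (c (a (c (l 16745328) (l 16744976)) (c (l 16744096) (l 16743696))) (a (l 16744432) (l 16743104))))) (a (a (c (b (l 16744520) (c (l 16743560) (l 16743128))) (b (l 16743616) (l 16742480))) (c (b (l 16743944) (c (l 16743032) (l 16742576))) (b (l 16743000) (c (l 16742128) (l 16741680))))) (c (b (c (l 16743392) (l 16742888)) (c (a (l 16742536) (l 16742080)) (a (l 16742064) (l 16741584)))) (b (c (l 16742384) (l 16741880)) (b (l 16741360) (a (l 16741088) (l 16740592)))))))), by decide +kernel⟩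

def k25_pm_012 : ∃ t, chk3 f_pm_012 t 36 127 3 = true :=
  ⟨(b (b (a (c (c (a (l 16747688) (l 16746024)) (a (l 16746832) (l 16745088))) (a (c (l 16745976) (l 16745120)) (l 16743696))) (c (c (a (l 16744432) (l 16743016)) (a (l 16743424) (l 16741920))) (c (l 16741608) (l 16740568)))) (c (a (c (a (l 16746448) (l 16744872)) (a (l 16745624) (l 16743976))) (c (a (l 16743416) (l 16742080)) (a (l 16742448) (l 16741032)))) (a (c (a (l 16744808) (l 16743088)) (a (l 16743984) (l 16742200))) (c (a (l 16741480) (l 16739984)) (l 16739704))))) (a (c (b (c (a (l 16745248) (l 16743752)) (a (l 16744464) (l 16742896))) (c (a (c (l 16744200) (l 16743832)) (c (l 16742800) (l 16742400))) (a (a (l 16743672) (l 16742896)) (c (l 16741992) (l 16741584))))) (b (c (a (l 16743680) (l 16742048)) (a (l 16742896) (l 16741192))) (c (a (a (l 16742944) (l 16742136)) (c (l 16741176) (l 16740768))) (a (a (l 16742208) (l 16741368)) (l 16740152))))) (c (a (c (b (l 16742376) (c (l 16741520) (l 16741080))) (b (l 16741448) (c (l 16740640)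 (l 16740192)))) (c (b (l 16741120) (a (l 16740416) (l 16739856))) (b (l 16740112) (c (l 16739400) (l 16738920))))) (a (b (c (l 16740512) (l 16739584)) (c (c (l 16739744) (l 16739304)) (l 16738632))) (c (b (l 16739104) (c (l 16738432) (l 16737944))) (b (l 16738088) (l 16737216))))))), by decide +kernel⟩

def k26_pm_012 : ∃ t, chk3 f_pm_012 t 37 62 1 = true :=
  ⟨(b (c (a (c (b (l 16758256) (a (l 16756888) (l 16755352))) (b (l 16755552) (l 16758648))) (c (b (l 16755272) (l 16758328)) (b (l 16752248) (l 16750080)))) (a (b (c (l 16752920) (l 16750352)) (c (l 16750776) (l 16748216))) (b (c (l 16749304) (l 16746440)) (c (l 16747152) (l 16744288))))) (c (a (a (c (b (l 16754608) (c (l 16752840) (l 16751552))) (b (l 16752016) (l 16749640))) (c (b (l 16753056) (l 16750632)) (b (l 16750312) (l 16747928)))) (c (b (c (l 16751528) (l 16750032)) (c (l 16751712) (l 16747608))) (b (a (l 16748648) (l 16747016)) (c (l 16746144) (l 16744688))))) (a (b (c (a (l 16749480) (l 16747632)) (l 16745984)) (c (a (l 16747136) (l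 16745280)) (a (l 16744672) (l 16742680)))) (b (c (l 16744896) (l 16742056)) (c (a (l 16743456) (l 16741672)) (l 16739720)))))), by decide +kernel⟩

def k27_pm_012 : ∃ t, chk3 f_pm_012 t 74 126 2 = true :=
  ⟨(b (b (c (c (l 16750152) (l 16748840)) (l 16746896)) (c (c (l 16748832) (l 16747536)) (c (l 16746256) (l 16744984)))) (c (a (c (b (l 16748280) (c (l 16747488) (l 16746880))) (b (l 16747040) (l 16745960))) (c (b (b (l 16747072) (l 16746376)) (c (l 16746120) (l 16745472))) (b (l 16745360) (l 16744504)))) (a (b (l 16745192) (c (l 16744744) (l 16743536))) (c (b (l 16744056) (l 16743224)) (b (l 16742760) (l 16741944)))))), by decide +kernel⟩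

def k28_pm_012 : ∃ t, chk3 f_pm_012 t 74 127 4 = true :=
  ⟨(b (a (c (b (c (l 16746584) (l 16745984)) (c (l 16745672) (l 16745096))) (b (l 16745096) (c (l 16744528) (l 16743952)))) (c (b (c (l 16745360) (l 16744736)) (a (l 16744616) (c (l 16744384) (l 16743760)))) (b (a (l 16744136) (l 16743512)) (a (l 16743408) (l 16742832))))) (a (c (b (c (a (l 16744840) (l 16744496)) (a (l 16744304) (l 16743936))) (b (c (a (l 16743992) (l 16743688)) (l 16743304)) (c (a (l 16743416) (c (l 16743264) (l 16743000))) (a (l 16742912) (l 16742600))))) (b (c (a (l 16743768) (l 16743376)) (l 16743008)) (b (c (l 16742776) (l 16742240)) (c (a (l 16742408) (l 16742072)) (a (l 16741896) (l 16741544)))))) (c (b (a (c (l 16744096) (l 16743512)) (c (b (l 16743816) (l 16743424)) (b (l 16743208) (l 16742824)))) (a (c (b (l 16743408) (c (l 16743024) (l 16742752))) (b (l 16742840) (c (l 16742472) (l 16742192)))) (c (b (c (l 16743168) (l 16742872)) (c (a (l 16742848) (l 16742672)) (a (l 16742560) (l 16742384)))) (b (l 16742432) (a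 (l 16742136) (c (l 16742088) (l 16741800))))))) (b (a (c (l 16742928) (l 16742344)) (c (l 16742416) (l 16741816))) (a (c (b (l 16742272) (l 16741784)) (b (l 16741704) (l 16741224))) (c (b (l 16741848) (a (l 16741560) (l 16741360))) (b (l 16741264) (a (l 16740992) (l 16740784))))))))), by decide +kernel⟩

def k29_pm_012 : ∃ t, chk3 f_pm_012 t 74 127 5 = true :=
  ⟨(b (a (c (b (l 16743912) (l 16743096)) (b (l 16742736) (l 16741960))) (c (b (l 16742544) (a (l 16742208) (l 16741600))) (b (l 16741296) (a (l 16741016) (l 16740368))))) (a (c (b (c (l 16742464) (l 16741912)) (b (a (l 16741656) (l 16741248)) (c (l 16741192) (l 16740672)))) (b (c (l 16741360) (l 16740816)) (b (l 16740376) (a (l 16740120) (l 16739680))))) (c (b (a (l 16741472) (c (l 16741216) (l 16740616))) (b (a (l 16740856) (c (l 16740672) (l 16740088))) (a (c (l 16740672) (l 16740120)) (c (a (l 16740416) (l 16740200)) (l 16739712))))) (b (a (l 16740312) (l 16739720)) (a (c (l 16739784) (l 16739224)) (b (l 16739208) (a (l 16738984) (l 16738744)))))))),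 by decide +kernel⟩

def k30_pm_012 : ∃ t, chk3 f_pm_012 t 75 126 2 = true :=
  ⟨(a (b (c (c (l 16747256) (l 16745848)) (c (l 16744440) (l 16743048))) (c (c (b (c (l 16745640) (l 16744944)) (l 16744520)) (b (l 16743904) (l 16743160))) (c (b (l 16742528) (l 16741808)) (b (l 16741160) (l 16740472))))) (b (c (c (l 16745824) (l 16744328)) (l 16743424)) (b (c (c (l 16744040) (l 16742584)) (l 16740408)) (c (c (l 16743312) (l 16741888)) (c (l 16740472) (l 16739064)))))), by decide +kernel⟩

def k31_pm_012 : ∃ t, chk3 f_pm_012 t 75 127 4 = true :=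
  ⟨(b (a (a (c (b (l 16744192) (c (l 16743824) (l 16743184))) (b (l 16742888) (l 16742232))) (c (b (l 16743576) (l 16742888)) (b (l 16742240) (l 16741584)))) (a (c (b (l 16742976) (l 16742288)) (b (l 16741608) (l 16740960))) (c (b (l 16742392) (l 16741704)) (b (l 16741000) (l 16740352))))) (a (c (b (a (c (b (l 16743272) (l 16742896)) (b (l 16742648) (l 16742280))) (c (b (l 16742664) (l 16742280)) (l 16741840))) (a (c (b (c (l 16742656) (l 16742360)) (c (a (l 16742424) (l 16742120)) (a (l 16742128) (l 16741824)))) (b (l 16741904) (c (a (l 16741840) (l 16741528)) (a (l 16741544) (l 16741232))))) (c (b (l 16741896) (c (a (l 16741824) (l 14)) (a (l 16741520) (l 16741224)))) (b (l 16741280) (b (l 16740992) (a (l 16740976) (l 16740672))))))) (b (a (c (l 16741856) (l 16741240)) (c (l 16741216) (l 16740584))) (a (a (c (b (l 16741480) (l 16741096)) (b (l 16740880) (l 16740512))) (c (b (l 16741160) (l 16740784)) (b (l 16740552) (l 16740184)))) (c (b (l 16740664) (a (l 16740472) (l 16740160))) (b (l 16740048)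 (c (l 16739832) (l 16739536))))))) (c (b (c (a (b (l 16742072) (l 16741696)) (l 14)) (a (l 16741240) (l 16740656))) (a (c (a (b (l 16741480) (c (l 14) (l 16740928))) (l 14)) (b (l 16740680) (b (l 16740392) (a (l 16740376) (l 16740080))))) (c (l 14) (b (l 16740088) (b (l 16739800) (a (l 16739784) (l 16739488))))))) (b (c (a (l 16740600) (l 16740000)) (a (l 16739960) (l 16739344))) (a (c (b (l 16740056) (a (l 16739856) (l 16739552))) (b (l 16739424) (c (l 16739216) (l 16738904)))) (c (b (l 16739456) (a (l 16739256) (c (l 16739112) (l 16738800)))) (b (l 16738816) (a (l 16738632) (l 16738328))))))))), by decide +kernel⟩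

def k32_pm_012 : ∃ t, chk3 f_pm_012 t 75 127 5 = true :=
  ⟨(b (a (c (b (l 16741216) (a (l 16740968) (l 16740296))) (b (l 16739912) (a (l 16739704) (l 16739000)))) (c (b (l 16739880) (c (l 16739584) (l 16738920))) (b (l 16738512) (l 16737920)))) (a (c (b (a (c (l 16740624) (l 16740008)) (c (l 16739952) (l 16739328))) (a (c (b (l 16740096) (c (l 16739888) (l 16739592))) (b (l 16739496) (l 16739144))) (c (b (l 16739440) (c (l 16739232) (l 16738928))) (b (l 16738824) (l 16738472))))) (b (a (l 16739080) (l 16738384)) (b (a (l 16738592) (l 16737896)) (a (c (l 16738552) (l 16737960)) (c (l 16737872) (l 16737264)))))) (c (b (b (l 16738760) (a (l 16738824) (l 16738192))) (a (c (b (l 16738800) (c (l 16738600) (l 16738288))) (b (l 16738176) (l 16737824))) (c (b (l 16738176) (c (l 16737976) (l 16737664))) (b (l 16737536) (l 16737192))))) (b (a (l 16737712) (l 16737048)) (a (b (l 16737232) (c (l 16737208) (l 16736592))) (b (l 16736576) (c (l 16736560) (l 16735928)))))))), by decide +kernel⟩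

def k33_pm_012 : ∃ t, chk3 f_pm_012 t 74 63 3 = true :=
  ⟨(b (b (c (a (l 16744672) (l 16742808)) (a (l 16742248) (l 16740240))) (b (c (a (l 16742752) (l 16740840)) (a (l 16740352) (l 16738304))) (c (a (l 16741736) (l 16740048)) (a (l 16739360) (l 16737544))))) (b (b (c (a (c (l 16741568) (l 16740400)) (c (l 16740056) (l 16738824))) (a (l 16738664) (l 16736992))) (c (a (c (l 16740816) (l 16739688)) (c (l 16740752) (l 16738232))) (a (c (l 16738552) (l 16737424)) (c (l 16737032) (l 16735832))))) (c (a (c (b (c (l 16740264) (l 16739712)) (b (l 16739312) (a (l 16739096) (l 16738616)))) (b (l 16738896) (c (l 16738296) (l 16737760)))) (c (b (a (l 16739152) (l 16738520)) (a (c (l 16738656) (l 16738096)) (c (b (l 16738328) (l 16737976)) (l 16737568)))) (b (a (l 16737992) (l 16737328)) (a (l 16737256) (c (l 16736984) (l 16736400)))))) (a (c (b (l 16737792) (c (l 16737232) (l 16736704))) (b (l 16736696) (l 16735912))) (b (c (a (l 16736832) (l 16736128)) (a (l 16735672) (l 16734936))) (c (a (l 16736128) (c (l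 16735816) (l 16735232))) (a (l 16735000) (l 16734352)))))))), by decide +kernel⟩

def k34_pm_012 : ∃ t, chk3 f_pm_012 t 75 63 3 = true :=
  ⟨(b (b (c (a (l 16740984) (l 16739208)) (a (l 16738280) (l 16736352))) (b (c (a (l 16739128) (l 16737552)) (a (l 16736456) (l 16734736))) (c (a (l 16738472) (l 16736968)) (a (l 16735840) (l 16734208))))) (a (b (b (c (c (l 16738608) (l 16737312)) (l 16735376)) (c (c (l 16738040) (l 16736776)) (c (l 16735512) (l 16734248)))) (c (c (b (a (l 16737856) (l 16737128)) (a (c (b (l 16737688) (l 16737368)) (l 16736928)) (c (l 16736816) (l 16736208)))) (b (a (l 16736632) (l 16735872)) (a (c (l 16736336) (l 16735736)) (c (l 16735592) (l 16734984))))) (c (b (a (l 16735400) (l 16734624)) (a (l 16735488) (l 16734064))) (b (a (l 16734176) (l 16733368)) (a (l 16733632) (l 16732840)))))) (b (b (c (c (l 16737144) (l 16735784)) (l 16733760)) (c (c (l 16736592) (l 16735264)) (c (l 16733944) (l 16732624)))) (c (c (b (a (l 16736432) (l 16735736)) (a (b (l 16735976) (l 16735664)) (c (b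 (l 16735616) (l 16735304)) (l 16734824)))) (b (a (l 16735144) (l 16734432)) (a (c (l 16734888) (l 16734264)) (c (l 16734184) (l 16733552))))) (b (c (l 16733416) (l 16732128)) (c (a (l 16733320) (l 16732592)) (a (l 16732072) (l 16731312)))))))), by decide +kernel⟩

def k35_pm_012 : ∃ t, chk3 f_pm_012 t 38 62 1 = true :=
  ⟨(c (b (c (a (b (l 16752408) (l 16750224)) (b (l 16749736) (l 16747576))) (a (b (l 16749064) (l 16746904)) (b (l 16746056) (l 16743920)))) (c (a (b (c (l 16748760) (l 16747096)) (c (l 16746320) (l 16744680))) (b (l 16745296) (c (l 16743800) (l 16741992)))) (a (b (l 16749872) (c (l 16743056) (l 16741448))) (b (l 16741672) (c (l 16740208) (l 16738440)))))) (b (a (c (b (l 16745800) (l 16743656)) (b (l 16742616) (l 16740480))) (c (b (l 16742464) (l 16740344)) (b (l 16738960) (l 16736856)))) (a (c (b (l 16741408) (a (l 16739936) (l 16738248))) (b (l 16738256) (l 16735944))) (c (b (l 16738128) (l 16735816)) (b (l 16734664) (l 16732376)))))), by decide +kernel⟩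

def k36_pm_012 : ∃ t, chk3 f_pm_012 t 76 126 2 = true :=
  ⟨(b (c (c (b (l 16744408) (a (l 16743736) (l 14))) (a (l 16742816) (l 16741432))) (b (l 16740392) (a (l 16739864) (l 16738432)))) (c (a (c (b (l 16742856) (l 16742168)) (b (l 16741320) (l 16740680))) (c (l 14) (b (l 16740136) (l 16739536)))) (a (c (b (l 16739800) (l 16739200)) (l 16738048)) (c (b (l 16738544) (l 16737992)) (l 16736720))))), by decide +kernel⟩

def k37_pm_012 : ∃ t, chk3 f_pm_012 t 76 127 4 = true :=
  ⟨(b (a (c (a (b (l 16741824) (l 16741136)) (l 14)) (b (l 16740056) (c (l 16739744) (l 16739048)))) (c (l 14) (b (l 16738912) (c (l 16738616) (l 16737888))))) (a (a (c (c (l 14) (b (l 16740072) (b (l 16739512) (c (l 14) (a (l 16739136) (l 14)))))) (b (c (l 16739408) (l 16738736)) (c (b (l 16738864) (b (l 16738584) (a (l 16738568) (l 16738272)))) (b (l 16738208) (a (l 16738024) (l 16737720)))))) (c (l 14) (b (c (l 16738824) (l 16738144)) (c (b (l 16738280) (b (l 16738000) (a (l 16737984) (l 16737696)))) (b (l 16737616) (a (l 16737424)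 (l 16737136))))))) (c (l 14) (b (c (a (l 16738256) (l 14)) (a (l 16737560) (l 16736992))) (a (c (b (l 16737712) (c (l 14) (a (l 16737336) (l 14)))) (b (l 16737032) (a (l 16736840) (a (l 16736632) (l 16736488))))) (c (l 14) (b (l 16736464) (b (l 16736192) (a (l 16736176) (l 16735888)))))))))), by decide +kernel⟩

def k38_pm_012 : ∃ t, chk3 f_pm_012 t 76 127 5 = true :=
  ⟨(b (a (c (b (l 16738616) (c (l 16738352) (l 16737656))) (b (l 16737184) (l 16736608))) (c (b (l 16737416) (c (l 16737160) (l 16736440))) (b (l 16735920) (l 16735352)))) (a (c (b (b (l 16737512) (a (l 16737568) (l 16736952))) (a (c (b (l 16737560) (c (l 16737368) (l 16737048))) (b (l 16736904) (l 16736568))) (c (b (l 16736952) (c (l 16736768) (l 16736440))) (b (l 16736288) (c (l 16736112) (l 16735784)))))) (b (a (l 16736400) (l 16735760)) (a (b (l 16735928) (c (l 16735920) (l 16735280))) (b (l 16735288) (c (l 16735296) (l 16734640)))))) (c (b (a (c (l 16736864) (l 16736168)) (c (l 16736280) (l 16735576))) (a (c (b (l 16736360) (c (l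 16736176) (l 16735840))) (b (l 16735680) (c (l 16735512) (l 16735176)))) (c (b (l 16735776) (a (l 16735592) (l 16735304))) (b (l 16735088) (c (l 16734920) (l 16734576)))))) (b (a (l 16735128) (l 16734512)) (a (b (l 16734664) (c (l 16734680) (l 16734008))) (c (b (l 16734392) (c (l 16734240) (l 16733896))) (b (l 16733704) (l 16733392)))))))), by decide +kernel⟩

def k39_pm_012 : ∃ t, chk3 f_pm_012 t 76 63 3 = true :=
  ⟨(b (a (c (b (l 16737424) (c (l 16736560) (l 16735088))) (b (l 16734424) (c (l 16733632) (l 16732176)))) (c (b (l 16735776) (c (l 16735168) (l 16733632))) (b (l 16732616) (c (l 16732104) (l 16730584))))) (b (b (c (a (c (l 16735760) (l 16734344)) (c (l 16734432) (l 16732952))) (a (l 16732224) (l 16730744))) (c (a (c (l 16735224) (l 16733840)) (c (l 16733904) (l 16732464))) (a (c (l 16732456) (l 16731080)) (c (l 16731032) (l 16729592))))) (c (a (c (b (a (l 16735064) (l 16734392)) (c (b (l 16734528) (a (l 16734640) (l 16733984))) (a (l 16734144) (l 16733480)))) (b (a (l 16733728) (l 16733032))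 (a (c (l 16733496) (l 16732848)) (c (l 16732816) (l 16732152))))) (c (b (a (l 16733736) (l 16733096)) (b (a (l 16733304) (l 16732664)) (a (c (l 16733344) (l 16732672)) (c (l 16732712) (l 16732032))))) (b (a (l 16732352) (l 16731680)) (a (c (l 16732152) (l 16731472)) (c (l 16731488) (l 16730808)))))) (a (b (c (l 16731960) (l 16730616)) (c (a (l 16731872) (l 16731160)) (a (l 16730568) (l 16729832)))) (c (b (a (l 16730960) (l 16730272)) (a (l 16730464) (c (l 16730120) (l 16729432)))) (b (l 16729152) (a (l 16729112) (l 16728392)))))))), by decide +kernel⟩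

def k40_pm_012 : ∃ t, chk3 f_pm_012 t 77 63 2 = true :=
  ⟨(b (b (b (c (c (l 16741856) (l 16740072)) (a (l 16738200) (l 16736784))) (c (c (l 14) (a (l 16739736) (l 14))) (c (l 16737472) (l 16735752)))) (c (c (l 14) (a (b (l 16739064) (l 16738464)) (l 14))) (a (c (b (l 16737408) (l 16736856)) (l 16735512)) (c (b (l 16736328) (l 16735768)) (l 16734368))))) (c (a (a (c (l 14) (c (l 14) (a (b (l 16737592) (b (l 16736592) (b (l 16736064) (c (l 14) (l 16735528))))) (l 14)))) (l 14)) (l 14)) (b (a (c (b (l 16736272) (c (l 16736032) (l 16735280))) (b (l 16734720) (l 16734152))) (c (b (l 16735184) (c (l 16734944) (l 16734168))) (b (l 16733568) (c (l 16733384) (l 16732608))))) (a (c (b (c (a (l 16735712) (l 16735152)) (a (l 16734992) (l 16734424))) (a (c (b (l 16735200) (a (l 16735016) (l 16734728))) (b (l 16734504) (c (l 16734336) (l 16733992)))) (c (b (l 16734640) (b (l 16734376) (a (l 16734360) (l 16734080)))) (b (l 16733928) (c (l 16733760) (l 16733408)))))) (a (b (l 16733912) (c (b (l 16733800) (c (l 16733648)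 (l 16733296))) (b (l 16733096) (l 16732784)))) (b (l 16733320) (c (b (l 16733208) (c (l 16733064) (l 16732712))) (b (l 16732496) (l 16732184)))))) (c (b (c (a (l 16734608) (l 14)) (a (l 16733856) (l 16733312))) (c (a (b (l 16734088) (c (l 14) (a (l 16733712) (l 14)))) (l 14)) (a (b (l 16733360) (a (l 16733184) (l 16732904))) (b (l 16732808) (a (l 16732624) (l 16732352)))))) (b (b (l 16732552) (a (l 16732584) (l 16732016))) (a (c (b (l 16732640) (c (l 16732488) (l 16732128))) (b (l 16731912) (l 16731592))) (c (b (l 16732072) (c (l 16731928) (l 16731560))) (b (l 16731336) (c (l 16731200) (l 16730832))))))))))), by decide +kernel⟩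

def k41_pm_012 : ∃ t, chk3 f_pm_012 t 77 63 3 = true :=
  ⟨(b (b (c (a (l 16736912) (c (l 16733808) (l 16732064))) (a (l 16730984) (l 16729472))) (c (a (c (l 16733904) (l 16732296)) (c (l 16732696) (l 16731032))) (a (l 16735160) (l 16728552)))) (b (b (c (a (c (l 16733176) (l 16731632)) (c (l 16731968) (l 16730368))) (a (l 16729336) (l 16727976))) (c (a (c (l 16732648) (l 16731152)) (c (l 16731440) (l 16729888))) (a (c (l 16729656) (l 16728168)) (c (l 16728344) (l 16726792))))) (c (a (c (b (a (l 16732472) (l 16731848)) (b (a (l 16732040) (l 16731424)) (c (a (l 16732088) (l 16731480)) (a (l 16731400) (l 16730776))))) (b (a (l 16731024) (l 16730384)) (a (c (l 16730848) (l 16730144)) (c (l 16730208) (l 16729496))))) (a (c (b (l 16731248) (b (l 16730816) (c (l 16730880) (l 16730160)))) (b (l 16729752) (c (l 16729584) (l 16728864)))) (c (b (l 16730648) (b (l 16730224) (c (l 16730288) (l 16729560)))) (b (l 16729128) (c (b (l 16729112) (l 16728832)) (l 16728232)))))) (a (c (b (l 16729192) (b (l 16728816)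 (a (l 16728968) (l 16728304)))) (b (l 16727736) (a (l 16727696) (l 16727000)))) (c (b (l 16727880) (b (l 16727512) (a (l 16727648) (l 16727008)))) (b (l 16726368) (a (l 16726320) (l 16725656)))))))), by decide +kernel⟩

def k42_pm_012 : ∃ t, chk3 f_pm_012 t 39 62 1 = true :=
  ⟨(b (c (c (a (b (l 16766072) (l 16747280)) (b (l 16848168) (l 16783264))) (a (b (l 16743240) (l 16741144)) (b (l 16740616) (l 16738576)))) (a (c (b (l 16739320) (l 16737240)) (b (l 16735488) (l 16733424))) (c (l 16740592) (l 16731192)))) (c (a (c (b (l 16743512) (c (l 16741416) (l 16739568))) (b (l 16738944) (c (l 16737616) (l 16735680)))) (c (b (l 16739752) (b (l 16741512) (a (l 16733960) (l 16733256)))) (b (l 16736440) (a (l 16740000) (l 16736336))))) (a (c (b (l 16735064) (c (l 16733760) (l 16731864))) (b (l 16731272) (l 16729048))) (b (c (l 16732224) (l 16728088)) (c (b (l 16730584) (l 16729616)) (b (l 16726472) (l 16725544))))))), by decide +kernel⟩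

def k43_pm_012 : ∃ t, chk3 f_pm_012 t 39 126 1 = true :=
  ⟨(c (b (b (c (a (c (l 16739888) (l 16737944)) (c (l 16739480) (l 16736192))) (a (c (l 16736024) (l 16734120)) (c (l 16734120) (l 16732072)))) (c (l 14) (a (c (l 16735320) (l 16733456)) (c (l 14) (l 16731528))))) (c (l 14) (a (a (c (b (l 16735312) (l 16734744)) (l 16733288)) (c (l 14) (l 16732256))) (c (l 14) (a (l 16731272) (l 14)))))) (a (c (b (a (c (l 16732592) (l 16730776)) (c (l 16731448) (l 16729552))) (a (c (l 16731544) (l 16729816)) (c (l 16730448) (l 16728656)))) (b (a (l 16728072) (l 16726752)) (a (c (l 16728096) (l 16726392)) (c (l 16726880) (l 16725104))))) (c (b (a (l 16729352) (l 16728344)) (a (c (l 16729408) (l 16727560)) (c (l 16728424) (l 16726512)))) (b (a (l 16725464) (l 16724328)) (a (c (l 16725712) (l 16723880)) (c (l 16724608) (l 16722712))))))), by decide +kernel⟩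

def k44_pm_012 : ∃ t, chk3 f_pm_012 t 39 127 2 = true :=
  ⟨(a (c (l 14) (b (a (c (b (l 16734144) (c (l 14) (l 16733104))) (b (l 16732472) (c (l 16732296) (l 16731488)))) (c (l 14) (b (l 16731424) (c (l 16731256) (l 16730424))))) (a (a (c (c (l 14) (b (l 16732776) (b (l 16732272) (c (l 14) (a (l 16731896) (l 14)))))) (b (c (l 16732000) (l 16731224)) (c (b (l 16731520) (c (l 16731368) (l 16731000))) (b (l 16730768) (c (l 16730632) (l 16730264)))))) (c (l 14) (b (c (l 16731464) (l 16730672)) (c (b (l 16730976) (a (l 16730792) (l 16730520))) (b (l 16730208) (c (l 16730080) (l 16729704))))))) (c (l 14) (b (c (a (l 16730936) (l 14)) (a (l 16730136) (l 16729608))) (c (a (a (b (l 16730592) (l 16730256)) (l 14)) (l 14)) (a (b (l 16729664) (c (l 16729536) (l 16729152))) (b (l 16729136) (a (l 16728960) (l 16728688)))))))))) (a (a (a (c (l 14) (c (l 14) (b (l 16730560) (b (l 16729640) (c (l 14) (b (l 16728752) (l 16728432))))))) (l 14)) (l 14)) (l 14))), by decide +kernel⟩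

def k45_pm_012 : ∃ t, chk3 f_pm_012 t 78 127 3 = true :=
  ⟨(b (b (c (c (a (l 16730808) (l 16729704)) (a (l 16729152) (l 16727992))) (a (l 16726680) (l 16725432))) (c (a (c (l 16730280) (l 16728672)) (c (l 16729176) (l 16727512))) (a (c (l 16727072) (l 16725472)) (c (l 16725848) (l 16724192))))) (c (a (a (c (b (l 16730072) (b (l 16729640) (c (l 16729712) (l 16728968)))) (b (l 16728520) (c (b (l 16728504) (l 16728232)) (l 16727624)))) (c (b (l 16729496) (b (l 16729064) (c (l 16729144) (l 16728392)))) (b (l 16727928) (c (b (l 16727912) (l 16727632)) (l 16727016))))) (a (c (b (l 16728936) (c (b (l 16728888) (c (l 16728776) (l 16728392))) (b (l 16728112) (l 16727816)))) (b (l 16727336) (b (l 16726944) (a (l 16726832) (l 16726536))))) (c (b (l 16728384) (c (b (l 16728344) (c (l 16728232) (l 16727840))) (b (l 16727552) (l 16727256)))) (b (l 16726768) (b (l 16726368) (c (l 16726480) (l 16725704))))))) (a (c (b (a (l 16726976) (l 16726352)) (a (c (l 16726872) (l 16726120)) (c (l 16726256) (l 16725488))))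 (b (l 16725056) (a (l 16724992) (l 16724344)))) (c (b (a (l 16725744) (l 16725144)) (a (c (l 16725648) (l 16724872)) (c (l 16725056) (l 16724264)))) (b (l 16723784) (a (l 16723712) (c (l 16723480) (l 16722688)))))))), by decide +kernel⟩

def k46_pm_012 : ∃ t, chk3 f_pm_012 t 79 127 3 = true :=
  ⟨(b (b (c (c (a (l 16728656) (l 16727648)) (a (l 16726880) (l 16725824))) (a (l 16724232) (l 16725712))) (c (c (a (l 16728112) (l 16727096)) (a (l 16726392) (l 16725328))) (a (c (l 16724680) (l 16722968)) (c (l 16723560) (l 16721792))))) (c (a (a (c (b (l 16727848) (c (b (l 16727808) (c (l 16727696) (l 16727304))) (b (l 16727008) (l 16726712)))) (b (l 16726200) (b (l 16725800) (c (l 16725920) (l 16725136))))) (c (b (c (l 16727744) (l 16726904)) (c (b (l 16727288) (c (l 16727176) (l 16726776))) (b (l 16726472) (c (l 16726376) (l 16725976))))) (b (l 16725648) (b (l 16725248) (c (l 16725376) (l 16724568)))))) (a (c (b (c (l 16727232) (l 16726384)) (c (b (l 16726776) (c (l 14) (l 16726256))) (b (l 16725944) (c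 (l 16725848) (l 16725440))))) (b (l 16725112) (b (l 16724704) (c (l 16724832) (l 16724024))))) (c (c (l 14) (b (l 16725880) (b (l 16725432) (c (l 16725336) (l 16724928))))) (b (l 16724584) (b (l 16724176) (c (l 16724304) (l 16723480))))))) (a (c (b (c (l 16724632) (l 16723800)) (a (c (l 16724472) (l 16723672)) (c (l 16723896) (l 16723088)))) (b (l 16722560) (b (l 16722232) (a (l 16722360) (l 16721752))))) (c (b (c (l 16723520) (l 16722664)) (c (b (l 16723144) (a (l 16723208) (l 16722656))) (a (l 16722512) (l 16721952)))) (b (l 16722688) (b (l 16722360) (a (l 16721160) (l 16720576)))))))), by decide +kernel⟩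

def k47_pm_012 : ∃ t, chk3 f_pm_012 t 10 6 1 = true :=
  ⟨(a (a (b (b (a (b (a (l 3) (a (l 3) (l 91972801495))) (a (b (l 3) (l 122574401383)) (l 83919738375))) (a (b (l 84456610023) (l 16819344)) (b (l 16818944) (l 16802672)))) (a (a (b (c (l 16824080) (l 16819760)) (l 16822512)) (b (l 16821448) (l 16808096))) (b (a (l 16804968) (l 16813312)) (l 16800920)))) (b (a (b (l 16803728) (l 16831768)) (b (l 16836624) (l 16852288))) (b (a (l 16847368) (l 16868296)) (a (c (l 16880040) (l 16844664)) (l 16883968))))) (a (b (b (a (b (l 16800920) (l 16810376)) (b (l 16808056) (l 16819320))) (b (a (l 16822672) (l 16832280)) (l 16841712))) (b (b (l 16856960) (l 16872920)) (b (l 16889240) (c (l 16928008) (l 16883344))))) (a (b (b (c (l 16825032) (l 16840056)) (b (l 16841736) (l 16856272))) (b (b (l 16871800) (l 16888104)) (b (l 16905408) (l 16923416)))) (b (a (b (c (l 16831784) (l 16887624)) (b (l 16848440) (l 16863232))) (b (l 16832496) (l 16860320))) (b (a (b (l 16879128) (l 16896256)) (c (l 16906680) (l 16879872)))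 (b (l 16917896) (l 16936088))))))) (b (b (a (b (l 16845320) (l 16858840)) (l 16887880)) (a (b (l 16873376) (l 16888944)) (l 16918296))) (b (a (b (l 16906208) (l 16925352)) (c (l 16970456) (l 16937216))) (c (a (l 16978136) (l 17020272)) (b (l 16942032) (l 16956304)))))), by decide +kernel⟩

def k48_pm_012 : ∃ t, chk3 f_pm_012 t 40 14 1 = true :=
  ⟨(b (b (a (c (l 16900400) (l 16851224)) (c (l 16925312) (l 16871216))) (a (c (l 16919584) (l 16852448)) (c (l 16946032) (l 16873968)))) (b (c (a (l 16935528) (l 16963720)) (b (l 16859000) (a (l 16840352) (l 16864944)))) (c (b (a (l 16942360) (l 16972608)) (a (l 16943064) (l 16975296))) (b (a (l 16828592) (l 16855384)) (a (l 16811264) (l 16840984)))))), by decide +kernel⟩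

def k49_pm_012 : ∃ t, chk3 f_pm_012 t 40 30 1 = true :=
  ⟨(b (c (b (a (l 16918544) (l 16974432)) (c (l 16993376) (a (l 16886568) (l 16925136)))) (b (a (l 16786920) (l 16799560)) (a (l 16743184) (c (l 16836896) (l 16747752))))) (c (c (b (a (l 16964696) (l 17007416)) (a (l 16905104) (l 16995560))) (b (a (l 16842224) (l 16907072)) (b (l 16742896) (l 16744432)))) (b (a (c (l 16760736) (l 16735256)) (c (l 16805760) (l 16731976))) (a (c (l 16736328) (l 16731808)) (c (l 16721600) (l 16728712)))))), by decide +kernel⟩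

def k50_pm_012 : ∃ t, chk3 f_pm_012 t 40 62 1 = true :=
  ⟨(b (c (c (a (b (l 16926792) (l 16888184)) (b (l 16980920) (l 16967800))) (a (b (l 16794624) (l 16766424)) (b (l 16852432) (l 16787768)))) (a (c (l 16732616) (l 16728104)) (c (l 16730080) (l 16725208)))) (c (c (a (b (c (l 16925976) (l 16828200)) (b (c (l 16909280) (l 16806856)) (c (l 16875904) (l 16749288)))) (b (c (l 16988464) (l 16914528)) (c (l 16971656) (a (l 16874752) (l 16909136))))) (a (b (l 16734200) (c (l 16736864) (l 16736576))) (b (c (l 16735416) (l 16723760)) (a (l 16732616) (l 16727648))))) (a (c (b (l 16729616) (a (l 16728416) (l 16727488))) (b (l 16725136) (a (l 16724088) (l 16723008)))) (c (b (a (l 16727808) (l 16726856)) (a (l 16726600) (l 16725808))) (b (l 16727752) (a (l 16721984) (l 16721072))))))), by decide +kernel⟩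

def k51_pm_012 : ∃ t, chk3 f_pm_012 t 40 63 2 = true :=
  ⟨(b (b (b (b (c (a (c (l 16886760) (l 16778608)) (c (l 16959208) (l 16876000))) (a (l 16731592) (l 16729616))) (l 14)) (l 14)) (l 14)) (l 14)), by decide +kernel⟩

def k52_pm_012 : ∃ t, chk3 f_pm_012 t 40 126 3 = true :=
  ⟨(a (a (c (b (l 16727408) (c (l 16727488) (l 16725520))) (b (l 16723264) (c (l 16723552) (l 16721600)))) (c (b (l 16726520) (c (l 14) (l 16724576))) (b (l 16722256) (c (l 16722552) (l 16720544))))) (c (b (a (l 16725688) (l 16724912)) (a (c (l 14) (l 16723688)) (l 14))) (b (a (l 16721304) (l 16720400)) (a (c (l 16721608) (l 16719536)) (c (l 16720712) (l 16718584)))))), by decide +kernel⟩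

def k53_pm_012 : ∃ t, chk3 f_pm_012 t 80 127 3 = true :=
  ⟨(b (c (a (c (b (l 16726696) (l 16726128)) (b (l 16724808) (l 16724304))) (c (l 14) (b (l 16723848) (l 16723336)))) (a (c (b (l 16722928) (l 16722488)) (b (l 16721056) (l 16720664))) (c (b (l 16721920) (l 16721464)) (b (l 16719984) (l 16719592))))) (c (b (b (c (a (l 16725688) (l 14)) (a (l 16723912) (l 16722936))) (c (a (c (l 14) (l 16724952)) (l 14)) (a (c (l 16724080) (l 16723200)) (c (l 16723104) (l 16722208))))) (a (c (c (l 14) (a (b (l 16724936) (c (l 14) (l 16724416))) (l 14))) (c (a (b (l 16724080) (c (l 16724000) (l 16723584))) (b (l 16723576) (c (l 16723496) (l 16723072)))) (a (b (l 16723232) (l 16722952)) (b (l 16722712) (l 16722432))))) (c (l 14) (c (a (b (l 16723088) (c (l 14) (l 16722576))) (l 14)) (a (b (l 16722208) (c (l 16722144) (l 16721712))) (b (l 16721720) (c (l 16721656) (l 16721216)))))))) (a (c (b (c (l 16722456) (l 16721568)) (b (c (l 16722072) (l 16721208)) (c (a (l 16722112) (l 16721584)) (a (l 16721272) (l 16720736)))))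 (b (c (l 16720688) (l 16719808)) (a (c (l 16720552) (l 16719696)) (c (l 16720000) (l 16719136))))) (c (b (c (l 16721432) (l 16720528)) (b (a (l 16720896) (l 16720384)) (c (a (l 16721064) (l 16720560)) (a (l 16720200) (l 16719688))))) (b (c (l 16719616) (l 16718712)) (a (c (l 16719456) (l 16718584)) (c (b (l 16719040) (l 16718808)) (l 16718040)))))))), by decide +kernel⟩

def k54_pm_012 : ∃ t, chk3 f_pm_012 t 81 127 3 = true :=
  ⟨(b (c (a (c (l 14) (b (l 16722944) (l 16722416))) (l 14)) (a (c (b (l 16720952) (l 16720488)) (b (l 16718968) (l 16718560))) (c (b (l 16720040) (l 16719560)) (b (l 16718000) (l 16717584))))) (c (c (l 14) (c (l 14) (c (l 14) (a (b (l 16721160) (a (b (l 16721016) (l 16720728)) (l 14))) (l 14))))) (a (a (c (b (l 16720264) (b (l 16719888) (c (l 16720064) (l 16719176)))) (b (l 16718408) (c (b (l 16718528) (l 16718288)) (l 16717512)))) (c (b (l 16719784) (b (l 16719400) (c (c (l 16719808) (l 16719360)) (l 16718680)))) (b (l 16717904) (c (b (l 16718024) (l 16717776)) (l 16716992)))))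 (a (c (b (l 16719312) (b (l 16720232) (c (c (l 14) (l 16718880)) (l 16718200)))) (b (l 16717408) (b (l 16717064) (c (l 16717280) (l 16716368))))) (c (b (l 16718856) (c (l 14) (b (l 16717984) (c (l 16717952) (l 16717496))))) (b (l 16716920) (b (l 16716576) (c (l 16716800) (l 16715872))))))))), by decide +kernel⟩

def k55_pm_012 : ∃ t, chk3 f_pm_012 t 82 7 1 = true :=
  ⟨(b (b (b (c (l 16950856) (l 16892280)) (c (l 16973120) (l 16896528))) (b (c (l 16992016) (l 16871880)) (c (l 17005216) (b (l 16882720) (l 16871024))))) (b (c (b (c (l 17048656) (l 16946184)) (b (c (l 17048296) (l 16949320)) (c (l 17041424) (l 16928504)))) (b (b (l 16833128) (c (l 16874896) (l 16786176))) (b (c (l 16849368) (l 16748416)) (c (l 16751592) (l 16725680))))) (b (c (c (b (b (l 17031592) (l 17022296)) (b (l 16989688) (c (l 17034072) (l 16957896)))) (b (b (l 16906752) (a (l 16874400) (l 16902864))) (b (a (l 16789088) (l 16862112)) (a (l 16721112) (c (l 16897808) (l 16821832)))))) (b (c (b (l 16780760) (l 16732936)) (b (l 16723296)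 (l 16721632))) (c (b (a (l 16726080) (l 16740280)) (a (l 16725096) (l 16724424))) (b (a (l 16721016) (l 16720184)) (a (l 16720248) (l 16719472)))))) (c (b (b (b (a (c (l 16966512) (l 16761736)) (c (l 16999088) (l 16776992))) (l 14)) (l 14)) (l 14)) (b (c (b (a (l 16724168) (l 16723472)) (l 14)) (b (a (l 16719552) (l 16718752)) (a (c (l 16719864) (l 16717688)) (c (l 14) (l 16716840))))) (c (l 14) (b (a (c (b (l 16719176) (l 16718680)) (b (l 16717088) (l 16716656))) (c (l 14) (b (l 16716216) (l 16715784)))) (c (a (a (b (l 16718408) (c (l 14) (b (l 16717528) (c (l 14) (l 16717032))))) (l 14)) (l 14)) (a (b (a (l 16716448) (l 16715992)) (a (b (l 16716096) (c (l 16716328) (l 16715384))) (b (l 16715632) (c (c (l 16716104) (l 16715632)) (l 16714912))))) (b (a (l 16715544) (l 16715104)) (a (a (b (l 16715296) (c (l 16715528) (l 16714568))) (c (l 14) (l 16714792))) (c (l 14) (b (l 16714248) (c (l 16714248) (l 16713760))))))))))))))), by decide +kernel⟩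

def k56_pm_012 : ∃ t, chk3 f_pm_012 t 83 14 1 = true :=
  ⟨(b (c (b (l 16978184) (l 17000656)) (b (a (l 16908880) (l 16920296)) (a (l 16913912) (l 16925704)))) (c (b (a (l 17013200) (l 17027464)) (a (l 17028048) (l 17043112))) (b (a (l 16911672) (a (l 16921128) (l 16927480))) (a (l 16857000) (a (l 16909520) (b (l 16920312) (l 16911840))))))), by decide +kernel⟩

def k57_pm_012 : ∃ t, chk3 f_pm_012 t 83 30 1 = true :=
  ⟨(b (c (a (l 17013072) (a (l 17046760) (l 17055144))) (a (b (l 16878992) (l 16858712)) (a (b (l 16891136) (l 16872320)) (b (l 16899184) (l 16860344))))) (b (c (a (l 17028880) (a (l 17043368) (l 17052896))) (a (l 16789248) (a (l 16825760) (c (l 16906328) (l 16807376))))) (c (a (l 16913880) (a (l 17013960) (c (l 17100112) (l 16990696)))) (a (l 16726472) (a (l 16726200) (c (b (l 16887592) (l 16872392)) (l 16726696))))))), by decide +kernel⟩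

def k58_pm_012 : ∃ t, chk3 f_pm_012 t 83 62 1 = true :=
  ⟨(c (a (c (b (l 17064296) (l 17046464)) (b (b (l 16945232) (l 16930464)) (b (l 16912896) (c (l 16929424) (l 16855032))))) (c (a (b (l 17082064) (l 17066768)) (b (l 17093696) (l 17079920))) (a (b (l 16957464) (b (l 16934448) (l 16894632))) (b (b (l 16976032) (l 16963368)) (b (c (l 16982456) (l 16914352)) (a (c (l 16963224) (a (a (l 16887664) (l 16889544)) (l 16892424))) (l 16934424))))))) (a (b (c (l 16727024) (l 16720760)) (c (b (l 16730872) (l 16721928)) (b (l 16719392) (l 16718736)))) (a (b (c (l 16726864) (l 16720056)) (c (b (l 16775400) (l 16726624)) (b (l 16718824) (l 16718160)))) (b (c (c (b (l 16885400) (l 16867008)) (a (b (l 16821256) (l 16798776)) (l 16817168))) (b (l 16722432) (l 16719048))) (a (a (a (c (l 16749976) (l 16718248)) (c (b (l 16722944) (l 16726208)) (b (l 16718456) (l 16717792)))) (c (l 16754880) (l 16718064))) (c (l 16760864) (l 16717984))))))), by decide +kernel⟩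

def k59_pm_012 : ∃ t, chk3 f_pm_012 t 83 63 1 = true :=
  ⟨(a (b (c (c (b (l 17026304) (c (l 17050992) (l 14))) (b (a (l 16775504) (l 16813712)) (l 14))) (c (b (c (l 16717160) (l 16721584)) (l 14)) (b (l 16723240) (a (l 16717360) (l 14))))) (a (c (l 14) (c (l 14) (c (l 14) (b (l 16715384) (b (l 16714680) (c (l 14) (b (l 16713816) (a (l 16713672) (l 14))))))))) (l 14))) (c (b (b (b (c (a (l 17052416) (l 17066824)) (a (l 16857368) (a (c (l 16949416) (a (a (l 16870136) (l 16872152)) (l 16875208))) (l 16919312)))) (c (a (l 17045456) (l 17060432)) (l 14))) (c (a (l 17033544) (c (l 17090296) (l 14))) (l 14))) (c (a (l 14) (c (b (l 17075504) (l 14)) (l 14))) (l 14))) (b (b (a (c (c (l 16723584) (l 16721032)) (l 16722656)) (c (a (a (a (l 16746944) (a (l 16748616) (l 16723504))) (l 16752544)) (l 16759328)) (b (b (c (l 16723752) (l 16726544)) (l 14)) (l 14)))) (l 14)) (l 14)))), by decide +kernel⟩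

def k60_pm_012 : ∃ t, chk3 f_pm_012 t 21 14 1 = true :=
  ⟨(b (b (c (l 17037624) (a (l 16947360) (l 16989752))) (c (l 17062816) (a (l 16954808) (l 17000576)))) (c (b (a (l 17061056) (l 17111400)) (a (l 17079720) (l 17134720))) (a (b (b (l 16956768) (l 16955744)) (b (l 16952384) (l 16925280))) (b (l 17007176) (l 16986296))))), by decide +kernel⟩

def k61_pm_012 : ∃ t, chk3 f_pm_012 t 21 30 1 = true :=
  ⟨(b (c (a (c (l 17132184) (l 17052144)) (l 17153904)) (a (b (c (l 16975336) (l 16897912)) (c (l 16966104) (l 16879688))) (b (l 17001096) (l 16972200)))) (c (a (b (l 17074112) (c (l 17145104) (l 17039016))) (c (l 17213328) (l 17118304))) (a (b (c (l 16952016) (l 16792480)) (c (a (l 16909248) (l 16953888)) (l 16718760))) (b (c (l 17027384) (l 16935216)) (c (l 17015968) (a (l 16892192) (l 16934672))))))), by decide +kernel⟩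

def k62_pm_012 : ∃ t, chk3 f_pm_012 t 21 31 1 = true :=
  ⟨(b (c (a (c (b (l 17143608) (l 17115392)) (b (a (l 17000760) (l 17047520)) (a (b (l 16982616) (l 16967480)) (l 17028616)))) (c (l 17224336) (b (l 17111576) (l 17100640)))) (a (b (a (c (b (l 16887064) (l 16869408)) (l 16713288)) (c (l 16929344) (l 16726160))) (b (c (a (l 16828072) (l 16905448)) (l 16719256)) (c (a (l 16720776) (l 16844432)) (a (l 16717096) (l 16749096))))) (b (c (a (l 16976736) (l 17020928)) (a (l 16819392) (l 16909304))) (c (a (b (l 16957680) (l 16942320)) (l 17000216)) (a (l 16717016) (b (l 16885536) (l 16866984))))))) (c (a (c (b (a (l 17030880) (l 17148472)) (a (b (l 17010336) (c (l 17100576) (l 14))) (c (l 17169608) (l 17086632)))) (b (a (b (c (l 16987048) (l 16911944)) (l 14)) (b (l 17008744) (l 16887392))) (a (l 14) (c (b (l 17013192) (l 14)) (l 14))))) (c (b (l 17221248) (a (l 17185072) (l 17236352))) (b (a (l 17014944) (l 17108032)) (a (b (l 16993296) (c (l 17058176) (l 14))) (b (l 17091832) (l 17078136)))))) (a (b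 (b (b (a (c (l 16763904) (l 16716456)) (c (l 16849224) (l 16726896))) (l 14)) (l 14)) (l 14)) (b (b (c (a (l 16882584) (l 16979664)) (b (l 16717216) (l 14))) (c (a (l 14) (l 16921200)) (l 14))) (c (a (l 14) (c (b (l 16981064) (l 14)) (l 14))) (l 14)))))), by decide +kernel⟩

def k63_pm_012 : ∃ t, chk3 f_pm_012 t 11 3 1 = true :=
  ⟨(b (b (b (a (a (l 16923072) (l 16956576)) (l 17002808)) (a (a (l 16954344) (l 16988632)) (l 17035608))) (b (a (c (l 17026424) (l 16990800)) (l 17073736)) (a (b (l 17041016) (l 17063440)) (c (l 17144912) (l 17093528))))) (b (b (a (c (l 17135360) (b (l 17050552) (l 17065600))) (c (l 17205552) (l 17132584))) (a (c (b (l 17179240) (l 17208016)) (b (l 17078144) (a (l 17061272) (l 17110952)))) (c (l 17270968) (b (l 17160296) (l 17176832))))) (b (a (c (b (l 17234944) (a (l 17229280) (l 17284792))) (b (a (l 17059936) (l 17116544)) (a (b (l 17051920) (c (l 17090424) (l 16994016))) (l 17093000)))) (c (l 17337976) (b (l 17190368) (l 17177992)))) (a (c (b (a (c (l 17295352) (l 17185928))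 (l 17305096)) (a (c (l 17304536) (b (l 17176536) (a (l 17138376) (l 17186512)))) (b (l 17313832) (l 17231432)))) (b (a (b (c (l 17081600) (a (l 16954144) (l 16996024))) (c (l 17068048) (a (l 16864304) (l 16974184)))) (b (l 17020424) (c (l 17147288) (l 17038520)))) (a (b (c (a (l 17003016) (l 17071936)) (a (b (l 16880912) (l 14)) (b (l 16953376) (l 16916080)))) (c (a (b (l 16980904) (c (l 17021424) (l 14))) (b (l 17054568) (l 17040440))) (a (l 14) (c (b (l 16952584) (l 14)) (l 14))))) (c (b (l 17136504) (a (l 17097368) (l 17142592))) (b (a (l 16973432) (l 17039456)) (a (b (l 16951240) (c (l 16989072) (l 14))) (b (l 17021400) (l 16986144)))))))) (c (b (a (l 17360024) (l 17406312)) (a (c (l 17436664) (l 17322880)) (l 17434248))) (b (a (b (l 17170824) (l 17165720)) (l 17228896)) (a (b (c (l 17211872) (l 17101616)) (c (l 17203632) (a (l 17039944) (l 17104544)))) (c (l 17276616) (b (l 17175312) (l 17164944)))))))))), by decide +kernel⟩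

def k64_pm_012 : ∃ t, chk3 f_pm_012 t 3 1 1 = true :=
  ⟨(b (a (b (l 2) (b (l 2) (a (l 17204488) (l 2)))) (l 2)) (b (a (b (a (b (l 17160824) (l 17237208)) (l 17222728)) (b (a (a (l 17127616) (l 17170072)) (l 17213264)) (a (a (l 17174368) (l 17216568)) (l 17257848)))) (b (l 2) (a (l 17469816) (l 2)))) (a (b (a (b (a (l 17227312) (l 17271072)) (c (l 17352400) (a (l 17237760) (l 17289944)))) (b (l 17312320) (l 17373136))) (a (b (c (a (l 17404096) (l 17449136)) (a (l 17278848) (l 17339992))) (c (a (b (l 17461192) (l 17497464)) (l 17532640)) (a (b (l 17302840) (a (l 17243264) (l 17336408))) (b (l 17375696) (l 17396776))))) (b (a (l 17429384) (l 17448056)) (c (l 17570240) (a (l 17438280) (l 17468472)))))) (b (a (b (l 17329096) (l 17387128)) (b (l 2) (l 17365976))) (a (b (l 17452056) (l 17565728)) (b (l 17425232) (l 17488808))))))), by decide +kernel⟩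

theorem s65_pm_012 : ∃ t, chk3 f_pm_012 t 21 15 1 = true := ex3_b k61_pm_012 k62_pm_012

theorem s66_pm_012 : ∃ t, chk3 f_pm_012 t 21 7 1 = true := ex3_b k60_pm_012 s65_pm_012

theorem s67_pm_012 : ∃ t, chk3 f_pm_012 t 83 31 1 = true := ex3_b k58_pm_012 k59_pm_012

theorem s68_pm_012 : ∃ t, chk3 f_pm_012 t 83 15 1 = true := ex3_b k57_pm_012 s67_pm_012

theorem s69_pm_012 : ∃ t, chk3 f_pm_012 t 83 7 1 = true := ex3_b k56_pm_012 s68_pm_012

theorem s70_pm_012 : ∃ t, chk3 f_pm_012 t 41 7 1 = true := ex3_a k55_pm_012 s69_pm_012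

theorem s71_pm_012 : ∃ t, chk3 f_pm_012 t 40 127 3 = true := ex3_a k53_pm_012 k54_pm_012

theorem s72_pm_012 : ∃ t, chk3 f_pm_012 t 40 63 3 = true := ex3_b k52_pm_012 s71_pm_012

theorem s73_pm_012 : ∃ t, chk3 f_pm_012 t 40 63 1 = true := ex3_c k51_pm_012 s72_pm_012

theorem s74_pm_012 : ∃ t, chk3 f_pm_012 t 40 31 1 = true := ex3_b k50_pm_012 s73_pm_012

theorem s75_pm_012 : ∃ t, chk3 f_pm_012 t 40 15 1 = true := ex3_b k49_pm_012 s74_pm_012

theorem s76_pm_012 : ∃ t, chk3 f_pm_012 t 40 7 1 = true := ex3_b k48_pm_012 s75_pm_012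

theorem s77_pm_012 : ∃ t, chk3 f_pm_012 t 20 7 1 = true := ex3_a s76_pm_012 s70_pm_012

theorem s78_pm_012 : ∃ t, chk3 f_pm_012 t 10 7 1 = true := ex3_a s77_pm_012 s66_pm_012

theorem s79_pm_012 : ∃ t, chk3 f_pm_012 t 10 3 1 = true := ex3_b k47_pm_012 s78_pm_012

theorem s80_pm_012 : ∃ t, chk3 f_pm_012 t 5 3 1 = true := ex3_a s79_pm_012 k63_pm_012

theorem s81_pm_012 : ∃ t, chk3 f_pm_012 t 39 127 3 = true := ex3_a k45_pm_012 k46_pm_012

theorem s82_pm_012 : ∃ t, chk3 f_pm_012 t 39 127 1 = true := ex3_c k44_pm_012 s81_pm_012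

theorem s83_pm_012 : ∃ t, chk3 f_pm_012 t 39 63 1 = true := ex3_b k43_pm_012 s82_pm_012

theorem s84_pm_012 : ∃ t, chk3 f_pm_012 t 39 31 1 = true := ex3_b k42_pm_012 s83_pm_012

theorem s85_pm_012 : ∃ t, chk3 f_pm_012 t 77 63 1 = true := ex3_c k40_pm_012 k41_pm_012

theorem s86_pm_012 : ∃ t, chk3 f_pm_012 t 76 127 2 = true := ex3_c k37_pm_012 k38_pm_012

theorem s87_pm_012 : ∃ t, chk3 f_pm_012 t 76 63 2 = true := ex3_b k36_pm_012 s86_pm_012

theorem s88_pm_012 : ∃ t, chk3 f_pm_012 t 76 63 1 = true := ex3_c s87_pm_012 k39_pm_012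

theorem s89_pm_012 : ∃ t, chk3 f_pm_012 t 38 63 1 = true := ex3_a s88_pm_012 s85_pm_012

theorem s90_pm_012 : ∃ t, chk3 f_pm_012 t 38 31 1 = true := ex3_b k35_pm_012 s89_pm_012

theorem s91_pm_012 : ∃ t, chk3 f_pm_012 t 19 31 1 = true := ex3_a s90_pm_012 s84_pm_012

theorem s92_pm_012 : ∃ t, chk3 f_pm_012 t 37 63 3 = true := ex3_a k33_pm_012 k34_pm_012

theorem s93_pm_012 : ∃ t, chk3 f_pm_012 t 75 127 2 = true := ex3_c k31_pm_012 k32_pm_012

theorem s94_pm_012 : ∃ t, chk3 f_pm_012 t 75 63 2 = true := ex3_b k30_pm_012 s93_pm_012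

theorem s95_pm_012 : ∃ t, chk3 f_pm_012 t 74 127 2 = true := ex3_c k28_pm_012 k29_pm_012

theorem s96_pm_012 : ∃ t, chk3 f_pm_012 t 74 63 2 = true := ex3_b k27_pm_012 s95_pm_012

theorem s97_pm_012 : ∃ t, chk3 f_pm_012 t 37 63 2 = true := ex3_a s96_pm_012 s94_pm_012

theorem s98_pm_012 : ∃ t, chk3 f_pm_012 t 37 63 1 = true := ex3_c s97_pm_012 s92_pm_012

theorem s99_pm_012 : ∃ t, chk3 f_pm_012 t 37 31 1 = true := ex3_b k26_pm_012 s98_pm_012

theorem s100_pm_012 : ∃ t, chk3 f_pm_012 t 36 127 2 = true := ex3_b k23_pm_012 k24_pm_012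

theorem s101_pm_012 : ∃ t, chk3 f_pm_012 t 36 127 1 = true := ex3_c s100_pm_012 k25_pm_012

theorem s102_pm_012 : ∃ t, chk3 f_pm_012 t 36 63 1 = true := ex3_b k22_pm_012 s101_pm_012

theorem s103_pm_012 : ∃ t, chk3 f_pm_012 t 36 31 1 = true := ex3_b k21_pm_012 s102_pm_012

theorem s104_pm_012 : ∃ t, chk3 f_pm_012 t 18 31 1 = true := ex3_a s103_pm_012 s99_pm_012

theorem s105_pm_012 : ∃ t, chk3 f_pm_012 t 9 31 1 = true := ex3_a s104_pm_012 s91_pm_012

theorem s106_pm_012 : ∃ t, chk3 f_pm_012 t 71 127 1 = true := ex3_c k19_pm_012 k20_pm_012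

theorem s107_pm_012 : ∃ t, chk3 f_pm_012 t 35 127 1 = true := ex3_a k18_pm_012 s106_pm_012

theorem s108_pm_012 : ∃ t, chk3 f_pm_012 t 35 63 1 = true := ex3_b k17_pm_012 s107_pm_012

theorem s109_pm_012 : ∃ t, chk3 f_pm_012 t 17 63 1 = true := ex3_a k16_pm_012 s108_pm_012

theorem s110_pm_012 : ∃ t, chk3 f_pm_012 t 34 62 1 = true := ex3_a k13_pm_012 k14_pm_012

theorem s111_pm_012 : ∃ t, chk3 f_pm_012 t 17 62 1 = true := ex3_a s110_pm_012 k15_pm_012

theorem s112_pm_012 : ∃ t, chk3 f_pm_012 t 17 31 1 = true := ex3_b s111_pm_012 s109_pm_012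

theorem s113_pm_012 : ∃ t, chk3 f_pm_012 t 8 31 1 = true := ex3_a k12_pm_012 s112_pm_012

theorem s114_pm_012 : ∃ t, chk3 f_pm_012 t 4 31 1 = true := ex3_a s113_pm_012 s105_pm_012

theorem s115_pm_012 : ∃ t, chk3 f_pm_012 t 9 30 1 = true := ex3_a k10_pm_012 k11_pm_012

theorem s116_pm_012 : ∃ t, chk3 f_pm_012 t 34 30 1 = true := ex3_b k7_pm_012 k8_pm_012

theorem s117_pm_012 : ∃ t, chk3 f_pm_012 t 17 30 1 = true := ex3_a s116_pm_012 k9_pm_012

theorem s118_pm_012 : ∃ t, chk3 f_pm_012 t 8 30 1 = true := ex3_a k6_pm_012 s117_pm_012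

theorem s119_pm_012 : ∃ t, chk3 f_pm_012 t 4 30 1 = true := ex3_a s118_pm_012 s115_pm_012

theorem s120_pm_012 : ∃ t, chk3 f_pm_012 t 4 15 1 = true := ex3_b s119_pm_012 s114_pm_012

theorem s121_pm_012 : ∃ t, chk3 f_pm_012 t 18 14 1 = true := ex3_b k3_pm_012 k4_pm_012

theorem s122_pm_012 : ∃ t, chk3 f_pm_012 t 9 14 1 = true := ex3_a s121_pm_012 k5_pm_012

theorem s123_pm_012 : ∃ t, chk3 f_pm_012 t 4 14 1 = true := ex3_a k2_pm_012 s122_pm_012

theorem s124_pm_012 : ∃ t, chk3 f_pm_012 t 4 7 1 = true := ex3_b s123_pm_012 s120_pm_012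

theorem s125_pm_012 : ∃ t, chk3 f_pm_012 t 4 3 1 = true := ex3_b k1_pm_012 s124_pm_012

theorem s126_pm_012 : ∃ t, chk3 f_pm_012 t 2 3 1 = true := ex3_a s125_pm_012 s80_pm_012

theorem s127_pm_012 : ∃ t, chk3 f_pm_012 t 2 1 1 = true := ex3_b k0_pm_012 s126_pm_012

theorem s128_pm_012 : ∃ t, chk3 f_pm_012 t 1 1 1 = true := ex3_a s127_pm_012 k64_pm_012

theorem c_pm_012 : CertN 0 536870912 536870912 536870912 134217728 67108864 3 true true false .pnp 0 1 2
    ndN0q0 ndN0q1 pcN2 cut_pm_012 Ext.none :=
  certN2 (fam := true) (s1 := true) (s2 := false) (a := 0) (b := 1) (c := 2) (cn := .pnp) (n1 := ndN0q0) (n2 := ndN0q1) (pc := pcN2) (cut := cut_pm_012) (xt := Ext.none) (P1 := 0) (W1 := 536870912) (P2 := 536870912) (W2 := 536870912) (P3 := 134217728) (W3 := 67108864) (N0 := 3)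
    rfl (fun _ => rfl) s128_pm_012

end Pool.Agent.Strip051.G.I1_8_3_16.Tab.C.NA00

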