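import Pool.Agent.Strip051.G.I1_8_3_16.Tab

/-! # Certificates N2 (generated) -/

set_option linter.all false
set_option maxRecDepth 100000

namespace Pool.Agent.Strip051.G.I1_8_3_16.Tab.C.NA00

open Pool.Agent.Strip051.PB Pool.Agent.Strip051.PB.T
open Pool.Agent.Strip051.G.I1_8_3_16.Tab

noncomputable def cut_pm_022 : Cut := Cut.of [[⟨0, 0, 0, 67108864⟩, ⟨1, 1, 0, 67108864⟩, ⟨2, 1, 0, 67108864⟩], [⟨0, 0, 1, 41943040⟩, ⟨1, 1, 0, 16777216⟩, ⟨2, 1, 1, 41943040⟩]]

noncomputable def f_pm_022 : ℕ → ℕ → ℕ → ℕ → Bool := onCell 1073741824 536870912 0 536870912 134217728 67108864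
    (rowN 3 2 true true false .pp 0 2 2 (qsf 0 536870912 0 536870912 2) ndN0q0 ndN0q2 pcN2 cut_pm_022 Ext.none)

def k0_pm_022 : ∃ t, chk3 f_pm_022 t 4 2 1 = true :=
  ⟨(b (l 1) (a (l 1) (a (l 1) (a (l 1) (b (l 1) (a (l 1) (b (l 1) (c (a (l 16567272) (l 16564120)) (l 16564416))))))))), by decide +kernel⟩

def k1_pm_022 : ∃ t, chk3 f_pm_022 t 10 2 1 = true :=
  ⟨(a (a (b (l 1) (b (a (l 1) (c (b (l 16528112) (l 16549640)) (b (l 16504944) (l 16526392)))) (a (c (b (b (l 16556544) (l 16557776)) (l 16570752)) (b (l 16545384) (l 16548656))) (c (b (l 16550912) (a (l 16554384) (l 16550928))) (b (l 16527688) (l 16551240)))))) (b (a (b (l 1) (c (b (l 1) (l 16637776)) (l 16519824))) (b (a (l 1) (c (a (l 16858952) (l 16900744)) (l 16532520))) (a (c (b (l 16787672) (l 16781976)) (l 16515496)) (c (a (l 16848984) (l 16888736)) (l 16554112))))) (a (b (b (c (a (l 16581112) (l 16682208)) (l 16519656)) (c (l 16626992) (l 16519480))) (c (b (l 16622120) (l 16661472)) (b (l 16520088) (l 16546984)))) (b (a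 (c (l 16684288) (l 16514640)) (c (a (l 16829512) (b (l 16873912) (l 16862576))) (a (l 16511704) (l 16530816)))) (a (c (b (l 16755064) (l 16748152)) (l 16547824)) (c (a (b (l 16814320) (l 16805648)) (b (l 16851616) (l 16841896))) (b (l 16567008) (a (l 16528608) (l 16550208))))))))) (b (b (a (c (b (l 17061536) (l 17058496)) (l 16506496)) (c (l 17264208) (l 16625264))) (a (c (b (l 17052288) (l 17042760)) (l 16528208)) (c (l 17252952) (l 16623872)))) (b (a (c (b (l 17009600) (l 16849272)) (b (l 16505688) (l 16504408))) (c (b (l 17235776) (l 17220760)) (b (l 16621160) (l 16619872)))) (a (c (b (a (l 16939344) (l 17059976)) (a (l 16927304) (l 17045216))) (b (l 16525776) (l 16547600))) (c (b (l 17204328) (l 17187200)) (b (l 16620168) (l 16622680))))))), by decide +kernel⟩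

def k2_pm_022 : ∃ t, chk3 f_pm_022 t 11 2 1 = true :=
  ⟨(c (b (a (b (a (l 17398264) (l 17484888)) (a (l 17390840) (l 17482512))) (b (l 17556496) (l 17562576))) (a (b (a (l 17367840) (l 17463600)) (a (b (l 17344584) (l 17326584)) (l 17433528))) (b (l 17551984) (l 17529416)))) (b (a (b (a (l 16859336) (l 17025312)) (a (l 16857208) (l 17024824))) (b (l 17188344) (l 17192440))) (a (b (a (l 16849832) (l 17016856)) (a (b (l 16844048) (l 16841176)) (l 17005880))) (b (a (l 17139152) (l 17228720)) (a (l 17127768) (l 17219240)))))), by decide +kernel⟩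

def k3_pm_022 : ∃ t, chk3 f_pm_022 t 8 6 1 = true :=
  ⟨(l 1), by decide +kernel⟩

def k4_pm_022 : ∃ t, chk3 f_pm_022 t 18 6 1 = true :=
  ⟨(a (b (l 1) (b (l 1) (a (l 1) (c (b (b (l 1) (l 16656472)) (c (a (l 16654768) (l 16645424)) (b (l 16634536) (l 16646496)))) (b (b (l 1) (l 16647216)) (a (l 16644128) (l 16635168))))))) (a (b (l 1) (b (a (l 1) (a (l 1) (b (l 1) (c (l 16615832) (l 16616400))))) (a (c (b (b (l 16619720) (l 16631608)) (l 16644312)) (b (l 16621840) (l 16636544))) (b (c (b (l 16637000) (l 16633240)) (l 16631584)) (c (l 16640816) (l 16633232)))))) (b (l 1) (b (b (a (l 1) (c (l 16614864) (l 16602432))) (c (a (c (l 16624536) (l 16619104)) (l 16617248)) (a (l 16616760) (l 16606184)))) (a (b (c (l 16624680) (l 16620816)) (c (l 16633288) (l 16635072))) (c (b (l 16619904) (l 16628368)) (b (l 16620544) (l 16634696)))))))), by decide +kernel⟩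

def k5_pm_022 : ∃ t, chk3 f_pm_022 t 19 6 1 = true :=
  ⟨(a (b (a (b (l 1) (a (c (l 16603808) (l 16589256)) (b (l 1) (c (l 16601568) (l 16586448))))) (a (b (l 1) (c (b (l 16592720) (l 16597208)) (l 16584080))) (b (c (l 16583128) (l 16565256)) (c (b (l 16588736) (l 16593008)) (l 16579240))))) (a (b (c (a (b (l 16609872) (l 16612072)) (b (l 16605120) (l 16607104))) (b (a (l 16596592) (l 16592552)) (a (l 16606624) (l 16606856)))) (b (c (c (l 16640016) (l 16633536)) (a (l 16620832) (l 16620944))) (c (a (l 16627952) (l 16627392)) (a (l 16634840) (l 16634816))))) (b (c (a (b (l 16600648) (l 16602400)) (l 16601072)) (a (b (l 16592584) (l 16606784)) (l 16620600))) (c (a (b (l 16611248) (l 16626648)) (b (l 16610400) (l 16625808))) (a (b (l 16620768) (l 16634560)) (l 16637904)))))) (b (a (b (a (c (b (l 16556824) (l 16581120)) (l 16560936)) (c (l 16575992) (l 16556696))) (c (a (l 16586928) (l 16583000)) (l 16595736))) (b (c (a (l 16572488) (l 16568976)) (l 16567560)) (c (c (l 16594520) (l 16594688))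 (c (l 16588712) (l 16596464))))) (a (b (c (b (l 16613288) (l 16611632)) (a (l 16620320) (l 16619960))) (c (b (a (l 16609488) (l 16608536)) (a (l 16624928) (l 16624024))) (b (l 16639032) (l 16652832)))) (b (c (b (l 16599216) (l 16610808)) (b (l 16610720) (l 16624648))) (c (b (l 16626632) (l 16642320)) (b (l 16638520) (l 16631232))))))), by decide +kernel⟩

def k6_pm_022 : ∃ t, chk3 f_pm_022 t 8 7 1 = true :=
  ⟨(b (c (b (a (l 1) (a (l 1) (a (l 1) (b (l 1) (a (b (l 1) (l 6)) (b (c (l 16671176) (l 16670272)) (c (l 16674480) (l 16671320)))))))) (a (l 1) (a (l 6) (a (l 6) (a (l 6) (b (c (l 16680728) (l 16672864)) (c (l 16687112) (l 16695704)))))))) (c (a (l 1) (b (a (l 1) (a (l 1) (b (l 1) (a (l 16675720) (l 16678112))))) (a (l 6) (a (l 6) (b (l 16687448) (l 16687288)))))) (a (l 1) (a (b (l 1) (l 6)) (a (b (l 1) (l 6)) (b (b (l 1) (b (l 16667696) (l 16679880))) (b (l 16682384) (l 16685520)))))))) (b (a (l 6) (a (l 6) (a (l 6) (a (l 6) (a (l 6) (b (c (c (l 16702088) (l 16702776)) (l 16703640))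 (c (c (l 16710416) (l 16720976)) (l 16710496)))))))) (a (l 6) (b (a (l 6) (a (l 6) (a (l 6) (a (l 6) (c (c (b (l 16714024) (l 16723424)) (b (l 16713672) (l 16722784))) (c (l 16728192) (l 16727608))))))) (b (a (l 6) (a (l 6) (a (l 6) (a (l 6) (c (c (c (l 16733024) (l 16732576)) (l 16731888)) (c (l 16730952) (l 16729976))))))) (a (l 6) (c (a (l 6) (a (l 6) (a (l 6) (a (l 6) (c (b (l 16739672) (c (b (l 16743464) (l 16745808)) (l 16746640))) (b (l 16738552) (c (l 16746008) (l 16742752)))))))) (a (l 6) (a (l 6) (a (l 6) (c (b (l 16737568) (c (b (l 16741184) (l 16743400)) (l 16744280))) (b (l 16736400) (c (l 16741008) (l 16740360)))))))))))))), by decide +kernel⟩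

def k7_pm_022 : ∃ t, chk3 f_pm_022 t 36 14 1 = true :=
  ⟨(b (c (b (a (a (b (l 1) (c (l 16664528) (l 16660752))) (b (c (l 16654864) (l 16650848)) (l 16664440))) (c (l 16652392) (l 16659240))) (a (c (b (l 16671560) (l 16682896)) (l 16668840)) (c (l 16665080) (l 16662168)))) (a (b (a (b (l 1) (l 16655392)) (b (l 16645168) (l 16646992))) (a (l 16668456) (l 16670696))) (b (l 16648904) (l 16658088)))) (b (a (c (c (l 16676280) (l 16671208)) (l 16673008)) (c (c (l 16669608) (l 16671128)) (l 16667896))) (c (a (c (l 16676432) (l 16677744)) (c (l 16676272) (l 16687632))) (a (b (l 16682984) (l 16691264)) (c (l 16688392) (l 16689024)))))), by decide +kernel⟩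

def k8_pm_022 : ∃ t, chk3 f_pm_022 t 36 30 1 = true :=
  ⟨(b (c (a (c (b (l 16698040) (l 16707136)) (l 16695912)) (c (b (l 16678664) (l 16687280)) (l 16693704))) (a (b (l 16699568) (l 16697432)) (c (l 16693856) (l 16693912)))) (b (c (c (a (l 16705760) (l 16695920)) (a (l 16695344) (l 16695696))) (a (l 16705808) (l 16695224))) (c (c (a (l 16709640) (l 16704560)) (a (l 16704168) (l 16704040))) (a (l 16714200) (l 16712320))))), by decide +kernel⟩

def k9_pm_022 : ∃ t, chk3 f_pm_022 t 36 62 1 = true :=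
  ⟨(c (a (c (b (l 16718752) (c (l 16733296) (l 16732904))) (b (l 16712992) (b (l 16719608) (l 16724016)))) (c (b (l 16723680) (c (l 16722096) (l 16721560))) (b (l 16712384) (b (l 16718640) (l 16722816))))) (a (b (c (l 16712424) (l 16711816)) (c (l 16731464) (l 16720096))) (b (c (l 16711520) (l 16710608)) (c (l 16730072) (l 16718408))))), by decide +kernel⟩

def k10_pm_022 : ∃ t, chk3 f_pm_022 t 36 63 2 = true :=
  ⟨(b (b (c (a (c (l 16729680) (l 16729184)) (c (l 16728608) (l 16727968))) (a (l 16728424) (l 16726976))) (c (a (c (l 16734248) (l 16733688)) (c (l 16732944) (l 16732232))) (a (c (l 16733112) (l 16732536)) (c (l 16731504) (l 16730776))))) (b (c (a (c (a (l 16739296) (l 16738384)) (a (l 16738704) (l 16737712))) (c (a (l 16737608) (l 16736992)) (a (l 16736864) (l 16736160)))) (a (c (a (l 16738096) (l 16737040)) (l 16736896)) (c (a (l 16736112) (l 16735328)) (l 16740136)))) (c (a (c (a (b (l 16742760) (c (l 16745232) (l 16744896))) (b (l 16741752) (c (l 16744192) (l 16743816))))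 (b (a (l 16742112) (l 16741040)) (a (c (l 16744552) (l 16744216)) (c (l 16743440) (l 16743056))))) (c (a (b (l 16740896) (c (a (l 16743504) (l 16743088)) (l 16744184))) (b (l 16740184) (c (a (l 16742720) (l 16742384)) (a (l 16742272) (l 16741912))))) (b (a (l 16740096) (l 16739304)) (a (c (l 16742464) (l 16742040)) (b (l 16740872) (a (l 16742128) (l 16743040))))))) (a (c (b (l 16740864) (b (l 16742520) (a (l 16744256) (l 16743032)))) (b (l 16740168) (b (l 16741800) (a (l 16743560) (l 16742264))))) (c (b (a (l 16739296) (l 16738416)) (a (c (l 16741624) (l 16741208)) (c (l 16740712) (l 16740248)))) (b (l 16737984) (b (l 16739528) (a (l 16741096) (l 16740064))))))))), by decide +kernel⟩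

def k11_pm_022 : ∃ t, chk3 f_pm_022 t 36 63 3 = true :=
  ⟨(b (c (a (b (l 16727384) (l 16731648)) (a (l 16738568) (l 16737760))) (a (b (l 16726304) (l 16730448)) (b (l 16724264) (l 16728160)))) (b (c (a (c (l 16736248) (l 16735584)) (c (l 16734088) (l 16733280))) (a (c (l 16734920) (l 16734248)) (c (l 16732464) (l 16731640)))) (c (a (c (b (l 16739464) (a (l 16742304) (l 16740960))) (b (l 16738760) (a (l 16741600) (l 16740184)))) (c (b (l 16737128) (b (l 16738648) (a (l 16740240) (l 16739128)))) (b (l 16736272) (a (l 16738880) (l 16737696))))) (a (c (b (l 16738048) (a (l 16740896) (l 16739400))) (b (l 16737328) (a (l 16740176) (l 16738616)))) (c (b (l 16735408) (a (l 16738024) (l 16736760))) (b (l 16734536) (a (l 16737160) (l 16735816)))))))), by decide +kernel⟩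

def k12_pm_022 : ∃ t, chk3 f_pm_022 t 37 14 1 = true :=
  ⟨(a (a (b (c (b (l 16647288) (l 16657096)) (b (l 16645736) (l 16660592))) (b (c (l 16662696) (l 16675432)) (c (c (l 16667976) (l 16668600)) (l 16690288)))) (b (c (b (a (l 16643288) (l 16644672)) (c (l 16658056) (l 16659840))) (b (l 16658192) (l 16662152))) (c (b (c (l 16674072) (l 16675192)) (c (l 16690096) (l 16690560))) (b (l 16676592) (l 16693656))))) (b (c (a (b (l 16647368) (l 16662752)) (b (l 16643760) (l 16659152))) (a (b (l 16649208) (l 16663312)) (b (l 16648736) (l 16662736)))) (c (b (a (c (l 16674952) (l 16676056)) (l 16674544)) (a (c (l 16690696) (l 16691120)) (c (l 16689664) (l 16690200)))) (b (a (l 16677408) (l 16676728)) (a (l 16691504) (l 16690728)))))), by decide +kernel⟩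

def k13_pm_022 : ∃ t, chk3 f_pm_022 t 74 30 1 = true :=
  ⟨(c (b (a (c (l 16684440) (l 16684432)) (c (l 16706160) (l 16705984))) (a (c (l 16711464) (l 16710840)) (c (b (l 16697280) (l 16705360)) (b (l 16696632) (l 16704408))))) (b (a (l 16694728) (c (l 16705720) (l 16705360))) (a (b (l 16695504) (l 16703056)) (b (l 16706024) (a (l 16703120) (l 16703144)))))), by decide +kernel⟩

def k14_pm_022 : ∃ t, chk3 f_pm_022 t 74 62 1 = true :=
  ⟨(b (a (c (c (l 16713384) (l 16712312)) (l 16710616)) (c (c (l 16723920) (l 16712192)) (c (l 16710904) (l 16709568)))) (c (c (a (l 16721648) (a (l 16721688) (l 16721712))) (a (l 16720288) (l 16730456))) (a (c (l 16718896) (l 16717464)) (c (l 16728888) (l 16727280))))), by decide +kernel⟩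

def k15_pm_022 : ∃ t, chk3 f_pm_022 t 74 63 2 = true :=
  ⟨(b (b (c (a (l 16727832) (l 16732792)) (a (l 16726264) (l 16725800))) (c (a (c (l 16732376) (l 16731528)) (c (l 16732040) (l 16731096))) (a (l 16730248) (c (l 16730152) (l 16729200))))) (b (c (a (c (l 16736520) (l 16735608)) (c (a (l 16736280) (l 16736128)) (a (l 16735288) (l 16735088)))) (a (c (l 16734680) (l 16733752)) (c (a (l 16734296) (l 16734048)) (a (l 16733296) (l 16733000))))) (c (a (c (b (c (l 16739872) (l 16739384)) (c (b (l 16741424) (a (l 16742608) (l 16742336))) (a (l 16741592) (l 16742616)))) (b (l 16738656) (c (b (l 16740432) (l 16741448)) (b (l 16739928) (l 16740944))))) (b (c (a (l 16739312) (l 16741088)) (a (l 16738272) (l 16738032))) (c (a (c (b (l 16741096) (c (l 16742248) (l 16741976))) (b (l 16740560) (l 16741568))) (a (c (b (l 16740960) (l 16741968)) (l 16742216)) (c (b (l 16740872) (c (l 16741984) (l 16741704))) (b (l 16740312) (l 16741272))))) (a (c (b (l 16740024) (l 16741024)) (l 16739984)) (a (c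 (l 16740352) (l 16739792)) (b (l 16739464) (c (l 16740696) (l 16740128)))))))) (a (c (b (l 16737680) (b (l 16739184) (c (l 16740432) (l 16739928)))) (b (l 16736704) (c (l 16738920) (l 16738416)))) (b (c (a (l 16737224) (l 16736936)) (a (l 16736176) (l 16735840))) (c (a (c (l 16739448) (l 16738904)) (b (l 16738376) (c (l 16740920) (l 16739040)))) (a (c (l 16738368) (l 16737824)) (c (b (l 16737536) (l 16738472)) (l 16737432))))))))), by decide +kernel⟩

def k16_pm_022 : ∃ t, chk3 f_pm_022 t 74 63 3 = true :=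
  ⟨(b (a (c (l 16731832) (l 16724896)) (a (c (l 16726168) (l 16724344)) (c (l 16731136) (l 16723968)))) (b (c (a (l 16734976) (a (l 16731792) (a (l 16731536) (l 16731368)))) (a (l 16730464) (c (l 16735192) (l 16734160)))) (b (c (a (c (l 16735720) (l 16734736)) (a (l 16737216) (a (l 16734304) (l 16736736)))) (a (l 16733240) (c (l 16737920) (l 16731592)))) (c (a (c (c (l 16737904) (l 16737400)) (c (l 16736888) (l 16736376))) (c (a (l 16737008) (c (l 16736872) (l 16736304))) (a (l 16735920) (l 16738072)))) (a (c (l 16735608) (l 16734584)) (c (a (l 16734824) (l 16734312)) (a (l 16733736) (l 16733176)))))))), by decide +kernel⟩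

def k17_pm_022 : ∃ t, chk3 f_pm_022 t 75 30 1 = true :=
  ⟨(a (b (c (c (l 16696000) (l 16706240)) (c (l 16705896) (l 16705456))) (c (c (b (l 16697400) (l 16705344)) (b (l 16696664) (l 16704288))) (c (l 16715256) (l 16714224)))) (b (c (c (l 16705496) (l 16705304)) (c (l 16705008) (l 16704592))) (c (c (b (l 16696440) (l 16704408)) (l 16710024)) (c (l 16719536) (l 16718488))))), by decide +kernel⟩

def k18_pm_022 : ∃ t, chk3 f_pm_022 t 75 62 1 = true :=
  ⟨(c (b (c (a (l 16713288) (l 16712376)) (a (l 16711920) (l 16710960))) (c (a (c (l 16721632) (l 16720808)) (l 16730816)) (a (l 16730032) (l 16729064)))) (b (a (c (l 16710504) (l 16709040)) (c (l 16709488) (l 16707968))) (c (a (l 16728328) (l 16716792)) (a (l 16726584) (l 16714960))))), by decide +kernel⟩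

def k19_pm_022 : ∃ t, chk3 f_pm_022 t 75 126 2 = true :=
  ⟨(b (c (a (l 16732400) (l 16726280)) (a (l 16725256) (l 16724280))) (c (a (c (l 16731616) (l 16730600)) (c (l 16730680) (l 16729608))) (a (c (l 16729576) (l 16728544)) (c (l 16728536) (l 16727456))))), by decide +kernel⟩

def k20_pm_022 : ∃ t, chk3 f_pm_022 t 75 254 2 = true :=
  ⟨(c (a (c (a (l 16735888) (l 16735424)) (a (l 16734808) (l 16734312))) (c (c (l 16739984) (l 16739416)) (a (l 16733768) (l 16733184)))) (a (c (a (l 16733728) (l 16733200)) (a (l 16732640) (l 16732088))) (c (a (l 16732632) (l 16732024)) (l 16733656)))), by decide +kernel⟩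

def k21_pm_022 : ∃ t, chk3 f_pm_022 t 75 255 2 = true :=
  ⟨(c (a (b (c (a (c (l 16739096) (l 16738536)) (l 16738248)) (a (l 16737688) (l 16737088))) (b (c (c (a (l 16740528) (l 16739912)) (a (l 16739944) (l 16739328))) (a (c (l 16739368) (l 16738792)) (l 16739752))) (c (b (c (a (l 16741216) (l 16740608)) (a (l 16740632) (l 16740008))) (c (a (a (l 16742504) (l 16741544)) (c (l 16741536) (l 16740912))) (a (c (l 16741240) (l 16740944)) (c (l 16740616) (l 16740320))))) (c (a (c (l 16740424) (l 16740136)) (c (l 16739792) (l 16739496))) (a (c (l 16739840) (l 16739552)) (l 16739704)))))) (b (a (c (l 16737656) (l 16736480)) (c (l 16737080) (l 16735888))) (a (c (c (b (l 16739336) (c (l 14) (b (l 16739872) (l 16740328)))) (b (l 16738736) (a (l 16739824) (l 16740832)))) (c (b (l 16738136) (c (l 16739184) (l 16738888))) (a (l 16738168) (l 16737856)))) (c (c (l 14) (b (l 16738152) (b (l 16738832) (a (l 16739456) (l 16739168))))) (c (b (l 16737536) (c (l 16738592) (l 16738280))) (a (l 16738864)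 (l 16738560))))))) (a (b (c (a (l 16736552) (l 16735928)) (a (l 16735416) (l 16734768))) (b (c (a (l 16737928) (l 16737264)) (a (l 16736768) (l 16736080))) (c (a (c (l 16739112) (l 16738528)) (c (l 16738448) (l 16737856))) (a (c (l 16737936) (l 16737352)) (c (l 16737256) (l 16736656)))))) (b (c (a (l 16735304) (l 16734680)) (a (l 16734120) (l 16733480))) (c (b (a (l 16736632) (l 16736008)) (c (a (l 16737824) (l 16737200)) (a (l 16737216) (l 16736576)))) (a (c (l 16736168) (l 16735560)) (c (l 16735520) (l 16734904))))))), by decide +kernel⟩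

def k22_pm_022 : ∃ t, chk3 f_pm_022 t 75 63 3 = true :=
  ⟨(b (b (c (a (l 16723336) (l 16722256)) (a (l 16721384) (l 16720200))) (c (a (c (l 16727512) (l 16726472)) (l 16725824)) (a (l 16730144) (l 16723632)))) (b (c (a (a (a (l 16731160) (l 16730880)) (l 16735648)) (c (l 16735128) (l 16728728))) (a (c (l 16734192) (l 16733080)) (c (l 16727568) (l 16726408)))) (c (a (c (b (a (l 16734272) (l 16733608)) (a (c (l 16736328) (l 16735744)) (c (l 16735624) (l 16735032)))) (b (a (l 16733128) (l 16732440)) (a (c (l 16735160) (l 16734576)) (l 16734136)))) (c (b (l 16735096) (a (c (l 16734952) (l 16734344)) (c (l 16734288) (l 16733664)))) (b (l 16731280) (a (l 16733432) (l 16732736))))) (a (c (b (l 16734176) (a (l 16733696) (l 16732936))) (b (l 16730400) (a (l 16732520) (l 16731744)))) (c (b (l 16730072) (a (l 16732208) (l 16731488))) (a (l 16730168) (l 16729432))))))), by decide +kernel⟩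

def k23_pm_022 : ∃ t, chk3 f_pm_022 t 38 14 1 = true :=
  ⟨(a (a (b (c (b (l 16643296) (l 16658632)) (b (l 16648720) (l 16662576))) (b (c (l 16673984) (l 16676424)) (c (c (l 16689016) (l 16668672)) (l 16690288)))) (b (c (b (l 16642704) (l 16658024)) (b (l 16648584) (l 16662312))) (c (b (l 16673352) (c (l 16667344) (l 16668064))) (b (l 16676040) (l 16689784))))) (b (c (b (a (l 16641968) (l 16641152)) (a (l 16657288) (l 16656496))) (b (a (l 16648232) (l 16647784)) (a (l 16661880) (l 16640392)))) (c (b (a (l 16672624) (l 16671856)) (c (l 16690976) (l 16697080))) (a (b (l 16675520) (l 16689176)) (b (l 16653968) (l 16688536)))))), by decide +kernel⟩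

def k24_pm_022 : ∃ t, chk3 f_pm_022 t 38 30 1 = true :=
  ⟨(c (b (a (b (c (l 16698840) (l 16698968)) (c (l 16706944) (l 16706664))) (c (b (l 16697816) (l 16705912)) (b (l 16697992) (l 16705632)))) (a (a (c (l 16710248) (l 16709336)) (c (l 16709584) (l 16708640))) (c (b (l 16703552) (l 16711600)) (b (l 16713296) (l 16720904))))) (b (a (a (b (l 16679736) (l 16686744)) (c (l 16682808) (l 16682424))) (a (l 16697672) (l 16702208))) (a (a (c (l 16718816) (l 16717736)) (c (l 16718096) (l 16716984))) (b (c (l 16712448) (l 16711496)) (c (l 16719640) (l 16718288)))))), by decide +kernel⟩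

def k25_pm_022 : ∃ t, chk3 f_pm_022 t 38 62 1 = true :=
  ⟨(c (a (c (b (a (l 16711696) (l 16711032)) (a (l 16730104) (l 16729240))) (b (a (l 16710216) (l 16709488)) (a (l 16717776) (l 16716856)))) (c (b (a (l 16710224) (l 16709256)) (a (l 16728216) (l 16716688))) (b (a (l 16708632) (l 16707624)) (a (l 16715784) (l 16714696))))) (a (b (c (a (l 16708688) (l 16707888)) (a (l 16707096) (l 16706232))) (c (a (l 16715904) (l 16714904)) (a (l 16713984) (l 16712920)))) (b (a (a (l 16706576) (l 16706056)) (l 16715536)) (c (a (l 16713784) (l 16712648)) (a (l 16711736) (l 16710552)))))), by decide +kernel⟩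

def k26_pm_022 : ∃ t, chk3 f_pm_022 t 76 63 2 = true :=
  ⟨(b (b (c (a (l 16725392) (l 16724336)) (a (l 16723312) (l 16722192))) (c (a (c (l 16729648) (l 16728544)) (c (l 16728576) (l 16727440))) (a (c (l 16727432) (l 16726312)) (c (l 16726288) (l 16725136))))) (b (c (a (c (b (l 16732432) (l 16734272)) (a (l 16732600) (l 16732024))) (c (a (l 16732664) (l 14)) (a (l 16731456) (l 16730896)))) (a (c (a (l 16731424) (l 16730832)) (l 16735048)) (c (a (l 16730248) (l 16729664)) (a (l 16729024) (l 16728424))))) (c (a (a (b (c (l 16736512) (l 16735296)) (c (c (l 14) (c (l 14) (a (l 16739352) (l 16739064)))) (c (b (l 16736952) (a (l 16738024) (l 16737728))) (b (l 16736328) (c (l 16737376) (l 16737064)))))) (b (c (l 16735952) (l 16734712)) (c (l 14) (c (b (l 16736376) (a (l 16737440) (l 16737808))) (b (l 16735736) (c (l 16736792) (l 16736464))))))) (a (c (l 14) (b (l 16734144) (c (c (l 14) (a (l 16736256) (l 16735976))) (b (l 16735160) (c (l 16736208) (l 16735880)))))) (c (l 14) (b (l 16733576)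 (c (l 14) (b (l 16734592) (a (l 16736952) (l 16735352)))))))) (a (b (c (a (l 16734072) (l 16733472)) (a (l 16732848) (l 16732224))) (c (b (a (l 16735392) (l 16734784)) (c (a (l 16736584) (c (l 16736144) (l 16735824))) (a (l 16735952) (l 16735344)))) (a (c (l 16736200) (l 16734256)) (c (b (l 16733832) (l 16734696)) (l 16733624))))) (b (c (a (l 16732880) (l 16732296)) (a (l 16731608) (l 16731000))) (c (a (a (c (l 16735128) (l 16734480)) (c (l 16736144) (l 16734176))) (b (l 16734912) (a (c (l 16734976) (l 16734312)) (c (l 16734688) (l 16734016))))) (a (c (b (l 16733216) (l 16734080)) (l 16733000)) (b (l 16732288) (c (l 16733472) (l 16732808)))))))))), by decide +kernel⟩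

def k27_pm_022 : ∃ t, chk3 f_pm_022 t 76 63 3 = true :=
  ⟨(b (c (a (c (l 16728696) (l 16732848)) (b (l 16720016) (l 16723392))) (a (c (l 16731744) (l 16730632)) (c (l 16730488) (l 16729344)))) (b (c (a (c (l 16728616) (l 16727424)) (c (l 16732616) (l 16726144))) (a (c (l 16726216) (l 16725016)) (c (l 16724896) (l 16723648)))) (c (a (c (b (l 16731176) (a (c (l 16733632) (l 16733000)) (c (l 16732984) (l 16732336)))) (b (l 16729936) (a (l 16732048) (l 16731376)))) (c (b (a (l 16730336) (l 16729704)) (a (c (l 16732344) (l 16731688)) (c (l 16731712) (l 16731048)))) (b (l 16728632) (a (l 16730704) (c (l 16730384) (l 16729712)))))) (a (c (b (l 16728688) (a (l 16730784) (l 16730080))) (a (l 16728704) (l 16727984))) (c (b (l 16727336) (a (l 16729392) (l 16728712))) (b (l 16726040) (a (l 16728072) (l 16727368)))))))), by decide +kernel⟩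

def k28_pm_022 : ∃ t, chk3 f_pm_022 t 77 63 2 = true :=
  ⟨(b (c (c (b (l 16733224) (l 14)) (a (l 16729784) (l 16733960))) (a (c (l 16733880) (l 16732736)) (c (l 16732792) (l 16721120)))) (c (c (l 14) (c (b (a (l 16730272) (l 14)) (l 14)) (a (b (l 16729640) (b (l 16732320) (a (b (l 16734024) (a (l 16736384) (l 14))) (l 14)))) (b (l 16728568) (l 14))))) (b (a (c (l 16733944) (l 16727432)) (c (l 16732840) (l 16726288))) (b (c (a (c (l 16731664) (l 16731008)) (c (l 16730568) (l 16729888))) (a (c (l 16730344) (l 16729680)) (c (l 16729208) (l 16728520)))) (a (b (a (c (l 16733024) (l 16731688)) (c (l 16733768) (l 16731096))) (c (c (a (c (l 16734408) (l 16734064)) (c (l 16733840) (l 16733496))) (a (c (l 16733728) (l 16733384)) (c (l 16733152) (l 16732808)))) (c (a (l 16732880) (l 16732288)) (a (l 16732200) (l 16731600))))) (b (c (c (a (l 16732240) (l 14)) (l 16732504)) (c (l 16730496) (l 16729800))) (c (c (a (c (l 14) (l 16732944)) (l 14)) (a (c (l 16732592) (l 16732240)) (c (l 16732040) (l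 16731680)))) (c (a (l 16731712) (c (l 16731328) (l 16730968))) (a (l 16731008) (l 16730432)))))))))), by decide +kernel⟩

def k29_pm_022 : ∃ t, chk3 f_pm_022 t 77 63 3 = true :=
  ⟨(b (c (a (b (l 16718832) (l 16722184)) (b (l 16717664) (l 16721000))) (a (b (l 16716560) (l 16719760)) (b (l 16715328) (l 16718504)))) (b (c (a (c (l 16726160) (l 16724888)) (c (l 16724976) (l 16723664))) (a (c (l 16723600) (l 16722312)) (c (l 16722336) (l 16721000)))) (c (b (a (c (l 16728688) (l 16727352)) (c (l 16727496) (l 16726120))) (a (c (c (a (l 16731096) (l 16730488)) (a (l 16730416) (l 16729800))) (b (l 16728592) (a (l 16729808) (l 16729168)))) (c (c (a (l 16729888) (b (l 16728880) (l 16729720))) (a (l 16729184) (l 16728584))) (b (l 16727344) (a (l 16728544) (l 16727920)))))) (b (a (c (l 16726016) (l 16724680)) (c (l 16724736) (l 16723344))) (a (c (a (l 16728040) (l 16727376)) (a (l 16726672) (l 16725984))) (c (a (l 16726728) (l 16726088)) (a (l 16725312) (l 16724648)))))))), by decide +kernel⟩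

def k30_pm_022 : ∃ t, chk3 f_pm_022 t 39 14 1 = true :=
  ⟨(b (a (c (b (a (l 16640304) (l 16639440)) (c (l 16652312) (l 16655312))) (b (l 16666520) (l 16669696))) (b (c (l 16657944) (l 16644808)) (c (l 16663096) (l 16658368)))) (c (b (a (c (l 16668432) (l 16670408)) (c (l 16667184) (l 16669296))) (a (c (l 16684576) (l 16685528)) (c (l 16683456) (l 16684440)))) (b (a (l 16683360) (l 16671920)) (a (b (l 16683120) (l 16689976)) (l 16695984))))), by decide +kernel⟩

def k31_pm_022 : ∃ t, chk3 f_pm_022 t 39 30 1 = true :=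
  ⟨(c (a (b (c (l 16703400) (l 16700704)) (c (b (l 16691784) (l 16710000)) (b (l 16690992) (l 16708768)))) (b (c (l 16699400) (l 16699328)) (c (b (l 16690048) (l 16697680)) (b (l 16689248) (l 16696416))))) (a (b (a (l 16701504) (l 16700784)) (b (a (l 16690760) (l 16689840)) (a (l 16697408) (l 16696360)))) (b (c (l 16699080) (l 16698672)) (b (l 16708768) (c (l 16695048) (l 16693568)))))), by decide +kernel⟩

def k32_pm_022 : ∃ t, chk3 f_pm_022 t 78 62 1 = true :=
  ⟨(c (c (b (l 16720224) (a (l 16715664) (l 16714664))) (b (l 16715952) (a (l 16713624) (l 16712576)))) (b (c (l 16724720) (l 16722920)) (c (a (l 16711528) (l 16710432)) (a (l 16709376) (l 16708224))))), by decide +kernel⟩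

def k33_pm_022 : ∃ t, chk3 f_pm_022 t 78 63 1 = true :=
  ⟨(c (b (c (a (c (l 14) (l 16732928)) (l 14)) (a (b (l 16718888) (l 16722376)) (b (l 16717840) (l 16721328)))) (c (l 14) (b (a (c (l 16726528) (l 16725184)) (c (l 16725496) (l 16724112))) (b (c (a (c (l 14) (l 16728808)) (l 14)) (a (c (l 16728104) (l 16727400)) (c (l 16727040) (l 16726312)))) (b (c (a (c (l 14) (a (l 16730448) (l 14))) (l 14)) (a (c (l 16729392) (l 16728672)) (c (l 16728328) (l 16727584)))) (c (a (c (l 14) (a (c (l 14) (l 16731136)) (l 14))) (l 14)) (a (c (a (c (l 16730776) (l 16730408)) (c (l 16730232) (l 16729864))) (a (l 16729864) (l 16729304))) (c (a (c (l 14) (l 16729320)) (l 14)) (a (c (l 16728944) (l 16728576)) (c (l 16728416) (l 16728032))))))))))) (b (c (a (b (l 16716528) (l 16719848)) (b (l 16715416) (l 16718720))) (a (l 16720936) (l 16724992))) (b (c (a (c (l 16723832) (l 16722472)) (c (l 16722720) (l 16721320))) (a (c (l 16721104) (l 16719728)) (c (l 16719912) (l 16718496)))) (c (b (a (c (l 16726336)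 (l 16724920)) (c (l 16725216) (l 16723752))) (a (c (c (b (l 16727952) (a (l 16729136) (l 16728568))) (a (l 16728000) (l 16727416))) (c (a (l 16727272) (l 16726680)) (a (l 16726544) (l 16725944)))) (c (b (c (l 16726840) (l 16726096)) (c (a (l 16728008) (l 16727464)) (a (l 16727256) (l 16726696)))) (c (a (l 16726096) (l 16725528)) (a (l 16725352) (l 16724768)))))) (b (a (c (l 16723488) (l 16722056)) (c (l 16722280) (l 16720808))) (a (a (c (l 16725456) (l 16723992)) (c (l 16727456) (l 16723352))) (a (c (c (l 16724600) (l 16723848)) (l 16722712)) (c (c (l 16724008) (l 16723240)) (l 16722088))))))))), by decide +kernel⟩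

def k34_pm_022 : ∃ t, chk3 f_pm_022 t 79 31 1 = true :=
  ⟨(b (c (c (b (l 16715760) (l 14)) (b (l 16714048) (a (l 16711560) (l 16710568)))) (b (c (l 16701768) (l 16699888)) (c (a (l 16709360) (l 16708320)) (a (l 16707104) (l 16706000))))) (c (c (l 14) (c (b (a (l 16719200) (l 14)) (l 14)) (a (b (l 16717920) (b (l 16723072) (c (l 14) (b (l 16725264) (a (b (l 16726856) (c (l 14) (l 16727504))) (l 14)))))) (b (l 16716920) (b (l 16722072) (l 14)))))) (b (c (b (l 16723968) (a (l 16717632) (l 16716576))) (a (l 16723840) (l 16722712))) (b (c (a (c (l 16721640) (l 16720200)) (c (l 16720600) (l 16719120))) (a (c (l 16718752) (l 16717296)) (c (l 16717632) (l 16716128)))) (c (b (a (c (l 16724136) (l 16722632)) (c (l 16723104) (l 16721552))) (b (c (a (c (l 16725768) (l 16725000)) (c (l 16724744) (l 16723952))) (a (c (l 16724232) (l 16723456)) (c (l 16723160) (l 16722360)))) (c (a (c (a (l 16727576) (c (l 16726592) (l 16726200))) (a (l 16726152) (l 16725608))) (c (a (c (l 14) (l 16725680)) (l 14))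 (a (l 16725080) (c (l 16724768) (l 16724360))))) (a (c (a (l 16725376) (l 16724824)) (a (l 16724592) (l 16724032))) (c (a (l 16724280) (l 16723752)) (a (l 16723480) (l 16722944))))))) (b (a (c (l 16721120) (l 16719592)) (c (l 16719992) (l 16718424))) (a (a (c (c (l 16723424) (l 16722648)) (l 16721480)) (c (c (l 16722848) (l 16722064)) (l 16720880))) (a (c (c (l 16722288) (l 16721488)) (l 16720288)) (c (c (l 16721736) (l 16720920)) (l 16719704)))))))))), by decide +kernel⟩

def k35_pm_022 : ∃ t, chk3 f_pm_022 t 20 6 1 = true :=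
  ⟨(a (b (c (b (a (a (l 16565440) (l 16561856)) (a (l 16558184) (l 16554376))) (a (a (l 16571328) (l 16567376)) (a (l 16563336) (l 16559168)))) (a (b (l 16568992) (l 16592656)) (b (l 16569440) (l 16592648)))) (a (b (c (b (l 16595744) (l 16609328)) (c (l 16613640) (l 16620816))) (c (b (l 16625216) (l 16640976)) (b (l 16616848) (l 16630456)))) (b (c (b (l 16592552) (l 16608120)) (l 16616784)) (c (b (l 16624072) (l 16618936)) (l 16643992))))) (a (b (b (c (a (l 16574544) (l 16663120)) (l 16570376)) (c (a (l 16580336) (l 16664760)) (l 16593144))) (b (c (c (l 16803864) (l 16604696)) (l 16627208)) (c (b (l 16637000) (l 16643784)) (l 16643696)))) (b (c (a (b (l 16743592) (l 16741736)) (a (b (l 16799080) (l 16794992)) (b (l 16813152) (l 16702856)))) (a (b (l 16550504) (l 16572944)) (a (b (l 16551512) (l 16573832)) (b (l 16573008) (l 16595216))))) (c (b (a (l 16742384) (a (l 16793320) (b (l 16826264) (l 16825216)))) (a (l 16746632) (a (l 16795128) (b (l 16825320) (l 16826800))))) (b (a (l 16596096)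 (a (a (l 16575200) (l 16596648)) (l 16638984))) (a (l 16622848) (a (l 16623328) (b (l 16616760) (l 16630016))))))))), by decide +kernel⟩

def k36_pm_022 : ∃ t, chk3 f_pm_022 t 40 14 1 = true :=
  ⟨(a (b (c (c (b (l 16633376) (l 16649704)) (l 16656064)) (b (l 16643960) (l 16657448))) (c (b (l 16672448) (c (l 16682152) (l 16662200))) (b (l 16670944) (l 16684240)))) (b (c (b (l 16634720) (l 16650544)) (b (l 16643160) (l 16656608))) (c (b (l 16671352) (c (l 16696400) (l 16660720))) (b (l 16669856) (l 16682760))))), by decide +kernel⟩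

def k37_pm_022 : ∃ t, chk3 f_pm_022 t 40 30 1 = true :=
  ⟨(a (c (b (c (l 16697720) (l 16697664)) (c (b (l 16688272) (l 16695920)) (b (l 16687456) (l 16694608)))) (b (c (l 16697424) (l 16676024)) (c (l 16710808) (l 16709480)))) (c (b (c (l 16690816) (l 16696016)) (c (b (l 16724768) (l 16734144)) (b (l 16685792) (l 16692944)))) (b (c (l 16674776) (l 16674312)) (c (l 16709072) (l 16707664))))), by decide +kernel⟩

def k38_pm_022 : ∃ t, chk3 f_pm_022 t 40 62 1 = true :=
  ⟨(b (c (a (c (l 16714016) (l 16701752)) (c (l 16712624) (l 16700080))) (a (c (l 16699872) (l 16697888)) (c (l 16698096) (l 16696008)))) (c (a (c (l 14) (a (l 16709608) (l 16708688))) (l 14)) (a (c (a (l 16707304) (l 16706328)) (l 16714624)) (c (l 16717856) (l 16712704))))), by decide +kernel⟩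

def k39_pm_022 : ∃ t, chk3 f_pm_022 t 40 63 2 = true :=
  ⟨(b (a (c (l 14) (a (c (l 14) (l 16715952)) (l 14))) (l 14)) (l 14)), by decide +kernel⟩

def k40_pm_022 : ∃ t, chk3 f_pm_022 t 40 126 3 = true :=
  ⟨(a (c (b (l 16722016) (c (l 16726048) (l 16724616))) (a (l 16711136) (l 16710080))) (c (b (l 16720216) (a (l 16713640) (l 16712752))) (a (l 16709064) (l 16718576)))), by decide +kernel⟩

def k41_pm_022 : ∃ t, chk3 f_pm_022 t 40 127 3 = true :=
  ⟨(a (b (c (a (c (l 16719608) (l 16718080)) (c (l 16718648) (l 16717088))) (a (c (l 16716552) (l 16715008)) (c (l 16715512) (l 16713928)))) (c (b (c (a (l 16724728) (l 14)) (a (l 16720512) (l 16719512))) (b (c (a (c (l 14) (l 16722944)) (l 14)) (a (c (l 16722128) (l 16721312)) (c (l 16721144) (l 16720304)))) (c (a (c (l 14) (a (c (l 14) (l 16723856)) (l 14))) (l 14)) (a (c (a (l 16723240) (l 16724040)) (a (l 16722416) (l 16721896))) (c (a (c (l 14) (l 16722024)) (l 14)) (a (l 16721384) (l 16720888))))))) (b (a (c (l 16718904) (l 16717288))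 (c (l 16717864) (l 16716208))) (a (c (c (a (l 16721192) (l 16720664)) (a (l 16720368) (l 16719832))) (b (l 16718432) (a (l 16719512) (l 16718952)))) (c (c (a (l 16721456) (b (l 16719240) (l 16720032))) (a (l 16719296) (l 16718784))) (b (l 16717344) (a (l 16718408) (l 16719184)))))))) (b (c (c (l 14) (a (l 16716128) (l 16715216))) (a (c (l 16714512) (l 16712880)) (c (l 16713560) (l 16711888)))) (c (a (c (l 14) (b (l 16718552) (a (c (l 14) (a (l 16720136) (l 16719896))) (l 14)))) (l 14)) (b (a (c (l 16716864) (l 16715160)) (c (l 16715912) (l 16714160))) (a (c (b (c (l 16718472) (l 16717600)) (c (a (l 16719536) (l 16719048)) (a (l 16718656) (l 16718160)))) (c (a (l 16717400) (l 16716896)) (a (l 16716528) (l 16716008)))) (c (b (c (l 16717528) (l 16716640)) (c (a (c (l 14) (l 16718352)) (l 14)) (a (l 16717680) (l 16717200)))) (c (a (l 16716392) (b (l 16715528) (l 16716288))) (a (l 16715496) (l 16715000))))))))), by decide +kernel⟩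

def k42_pm_022 : ∃ t, chk3 f_pm_022 t 41 14 1 = true :=
  ⟨(a (b (c (b (l 16652344) (l 16704656)) (b (l 16642760) (l 16655936))) (c (b (c (l 16815024) (l 16645224)) (c (l 16822640) (l 16659504))) (b (l 16668776) (l 16681424)))) (b (a (c (b (l 16753760) (l 16760512)) (l 16649144)) (c (a (b (l 16800200) (l 16805424)) (b (l 16829680) (c (l 16965720) (l 16701968)))) (a (l 16649296) (b (l 16642888) (l 16655384))))) (a (c (b (l 16768880) (c (l 16905560) (l 16658960))) (b (l 16647120) (l 16659664))) (c (b (a (l 16812192) (c (l 16966208) (l 16713080))) (a (c (l 16943848) (l 16697160)) (c (l 16968208) (l 16725792)))) (a (b (l 16647032) (l 16659480)) (b (l 16667816) (c (l 16680216) (l 16680160)))))))), by decide +kernel⟩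

def k43_pm_022 : ∃ t, chk3 f_pm_022 t 41 30 1 = true :=
  ⟨(a (c (b (c (a (l 16803792) (l 16859600)) (l 16694728)) (c (b (l 16840656) (l 16700152)) (b (l 16684456) (l 16691584)))) (b (c (l 16694360) (l 16672816)) (c (b (l 16683320) (l 16689944)) (l 16706064)))) (c (a (b (c (l 16911624) (l 16673104)) (c (b (l 16917400) (l 16921848)) (l 16689552))) (a (b (c (l 16948408) (l 16712840)) (c (l 16954760) (b (l 16725792) (l 16735024)))) (b (c (b (l 16970784) (l 16973024)) (l 16698264)) (b (c (l 16975712) (b (l 16750096) (l 16733296))) (c (b (l 16978016) (l 16958720)) (l 16708312)))))) (a (b (l 16693216) (c (l 16685736) (l 16684048))) (a (b (l 16692936) (c (l 16685448) (l 16683624))) (b (c (l 16693136) (l 16692128)) (b (c (l 16702872) (l 16680200)) (c (l 16709392) (l 16707240)))))))), by decide +kernel⟩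

def k44_pm_022 : ∃ t, chk3 f_pm_022 t 41 31 1 = true :=
  ⟨(c (b (b (a (c (l 16712208) (l 16709184)) (a (c (l 16926776) (l 16705552)) (a (c (l 16960728) (l 16744736)) (c (c (l 17035464) (b (l 16928032) (l 16930616))) (b (l 16704544) (b (l 16708008) (l 16712968))))))) (l 14)) (l 14)) (a (b (c (b (l 16696576) (a (l 16703640) (l 16702864))) (b (l 16694344) (a (l 16700992) (l 16700128)))) (b (c (a (b (l 16708608) (l 14)) (l 14)) (a (l 16717656) (b (l 16704752) (l 16707840)))) (c (l 14) (b (a (c (l 16712656) (l 16710936)) (c (l 16711800) (l 16710040))) (b (a (c (l 16717624) (l 16713208)) (c (l 14) (a (l 16712536) (l 16712096)))) (a (c (a (c (l 14) (a (l 16716472) (l 16716248))) (l 14)) (b (c (l 16714808) (l 16713888)) (c (a (l 16715816) (l 16715352)) (a (l 16714888) (l 16714416))))) (c (l 14) (b (a (l 16713672) (l 16713232)) (a (c (c (l 14) (l 16714672)) (l 16713960)) (c (l 14) (c (l 16713744) (l 16713264)))))))))))) (a (c (b (b (l 16695624) (l 14)) (l 14)) (c (b (l 16712704) (b (l 16715528)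 (l 14))) (b (l 16706128) (b (l 16715184) (b (a (l 16709392) (l 16708984)) (b (a (l 16711664) (l 16711256)) (a (c (l 14) (a (l 16712800) (l 16712584))) (l 14)))))))) (b (a (c (b (l 16695264) (l 14)) (b (l 16692760) (l 16698872))) (a (a (a (c (l 16698352) (l 16695568)) (c (b (l 16695120) (l 14)) (b (l 16692520) (c (l 16699376) (l 16697840))))) (c (l 16698336) (l 16695504))) (c (l 16698160) (l 16695328)))) (c (l 14) (c (l 14) (a (b (a (l 16704152) (l 16703984)) (b (a (l 16708680) (l 16708504)) (l 14))) (b (a (a (a (l 16703856) (a (l 16703832) (l 16703824))) (l 16703752)) (l 16703592)) (l 14))))))))), by decide +kernel⟩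

def k45_pm_022 : ∃ t, chk3 f_pm_022 t 21 6 1 = true :=
  ⟨(b (a (c (b (a (l 16916712) (l 17031200)) (a (l 16907960) (l 17018360))) (b (l 16574504) (a (l 16572528) (l 16570160)))) (c (b (l 17169960) (l 17048216)) (b (l 16627808) (l 16635568)))) (a (b (c (a (l 16817272) (l 17006936)) (b (l 16605688) (l 16618496))) (c (a (b (l 16897984) (l 16897384)) (l 16872472)) (a (l 16621344) (l 16618056)))) (b (c (a (l 17096984) (l 17173984)) (a (l 16587872) (l 16699760))) (c (b (l 17126392) (l 17120400)) (b (l 16655704) (l 16663912)))))), by decide +kernel⟩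

def k46_pm_022 : ∃ t, chk3 f_pm_022 t 21 7 1 = true :=
  ⟨(b (a (b (c (b (a (l 16898072) (l 16994808)) (a (l 16879120) (l 16993976))) (b (l 16637488) (l 16660824))) (c (b (a (l 16798688) (l 16952536)) (a (c (l 17024616) (l 16792280)) (c (l 17105184) (l 16887536)))) (b (a (l 16644880) (l 16642064)) (a (l 16657408) (l 16654840))))) (c (b (b (l 17052504) (c (l 17218168) (l 17004864))) (b (c (l 17211928) (l 17005896)) (c (l 17206952) (l 17008320)))) (b (b (l 16673376) (l 16684160)) (b (a (l 16648072) (l 16742480)) (a (l 16663512) (l 16754528)))))) (b (a (c (b (a (c (l 17026208) (l 16803864)) (c (l 17104232) (l 16895472))) (a (c (l 17029496) (b (l 16813704) (l 16820832))) (c (l 17104896) (l 16884144)))) (b (a (l 16680480) (l 16678176)) (a (c (l 16683640) (l 16681712)) (c (l 16704896) (l 16679720))))) (c (b (c (l 17203368) (a (l 16975984) (l 17047040))) (c (l 17201312) (a (l 16982752) (l 17051576)))) (b (a (l 16680528) (l 16726176)) (a (c (l 16793832) (l 16677728)) (c (l 16872848) (l 16693840))))))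 (c (a (b (c (a (b (l 17033120) (l 17036056)) (l 17107224)) (b (a (l 16807448) (l 16913512)) (l 14))) (c (a (a (l 14) (b (l 17057976) (l 17040408))) (b (l 17110080) (l 17112488))) (l 14))) (c (b (l 17200832) (a (l 17173536) (l 17229224))) (b (a (b (l 16988960) (l 16993632)) (l 17057784)) (a (b (l 16935816) (c (l 17046840) (l 14))) (b (l 17063576) (l 17067952)))))) (b (b (a (c (a (l 16693568) (l 16719984)) (a (l 16690952) (l 16689152))) (c (a (l 16806048) (l 16882776)) (l 16696424))) (a (c (l 14) (a (l 16697136) (l 14))) (l 14))) (a (b (c (l 14) (a (b (l 16701784) (l 14)) (l 14))) (l 14)) (l 14)))))), by decide +kernel⟩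

def k47_pm_022 : ∃ t, chk3 f_pm_022 t 11 6 1 = true :=
  ⟨(a (b (c (a (b (l 17307784) (l 17288648)) (l 17396928)) (a (b (l 16839624) (l 16839408)) (b (l 16998136) (l 16993192)))) (c (a (b (l 17269536) (l 17252224)) (b (l 17368064) (l 17349632))) (a (b (l 16840488) (b (l 16843312) (l 16846600))) (b (l 16988648) (l 16987136))))) (b (c (a (l 17469520) (l 17522992)) (a (b (l 17117960) (l 17110672)) (l 17205896))) (c (a (b (l 17442216) (l 17424296)) (l 17490272)) (a (b (l 17103184) (l 17098488)) (b (l 17194896) (l 17189448)))))), by decide +kernel⟩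

def k48_pm_022 : ∃ t, chk3 f_pm_022 t 11 7 1 = true :=
  ⟨(b (a (c (b (a (c (l 17334232) (l 17142112)) (l 17334048)) (a (b (l 17230480) (l 17184776)) (l 17301112))) (a (b (b (l 16850984) (l 16856552)) (b (l 16758544) (a (l 16835104) (l 16906688)))) (b (b (l 16988760) (l 16991136)) (b (l 16994704) (c (l 17079600) (l 16919568)))))) (c (a (b (l 17408840) (l 17396504)) (l 17462008)) (a (b (a (l 17072616) (l 17121592)) (b (l 17099904) (l 17102800))) (b (l 17187424) (l 17188848))))) (a (b (c (a (c (l 17307584) (b (l 17138560) (l 17140720))) (c (l 17391072) (l 17238440))) (a (b (a (l 16804024) (l 16894416)) (a (c (l 16943312) (l 16773592)) (c (l 17006352) (l 16845072)))) (b (c (l 17083440) (l 16928352)) (c (l 17088848) (a (l 16909312) (l 16967216)))))) (c (a (b (c (l 17303224) (l 17144496)) (c (l 17302032) (a (l 17123424) (l 17175432)))) (b (l 17313000) (c (l 17382888) (l 17244032)))) (a (b (b (c (l 16919888) (a (l 16786504) (l 16856120))) (c (a (l 16957392) (l 17018072)) (l 14))) (c (a (b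 (l 16942824) (c (l 17009360) (l 14))) (b (l 17023520) (l 17008440))) (l 14))) (b (c (l 17095928) (a (l 16901336) (l 16978648))) (c (a (l 17079992) (l 17128584)) (a (b (l 16933248) (c (l 16976552) (l 14))) (b (l 16988424) (l 16953568)))))))) (c (b (a (l 17388288) (l 17449136)) (a (c (l 17449976) (l 17320016)) (l 17445208))) (b (a (c (l 17179304) (b (l 17036456) (l 17044384))) (l 17152872)) (a (b (c (l 17186720) (a (l 17029752) (l 17077312))) (c (l 17193584) (a (b (l 17038592) (l 17045056)) (l 17088136)))) (b (l 17203128) (c (l 17269688) (l 17152256)))))))), by decide +kernel⟩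

def k49_pm_022 : ∃ t, chk3 f_pm_022 t 3 1 1 = true :=
  ⟨(b (a (b (a (c (a (l 17594584) (l 17590208)) (a (b (l 17306552) (l 17318912)) (l 17368296))) (b (l 17445272) (l 17485520))) (b (a (c (l 17618096) (l 17362976)) (l 17513728)) (a (c (l 17614000) (a (l 17316992) (l 17396360))) (l 17531704)))) (b (a (b (l 17363520) (l 17418616)) (b (l 17252000) (l 17316344))) (a (b (l 17461920) (l 17495440)) (l 17412888)))) (a (b (a (c (b (l 17600432) (a (l 17552528) (l 17601552))) (b (a (l 17307288) (l 17393928)) (a (b (l 17298360) (l 17293320)) (l 17387648)))) (b (c (l 17623840) (l 17456360)) (c (l 17623696) (l 17459736)))) (a (b (c (a (l 17529552) (l 17585784)) (a (b (l 17291000) (l 17291288)) (l 17385024))) (c (a (b (l 17518344) (l 17514608)) (l 17575488)) (a (b (a (l 17265184) (l 17323200)) (a (c (l 17330496) (l 17221144)) (l 17332960))) (b (l 17390720) (l 17399624))))) (b (c (l 17618512) (l 17463304)) (c (l 17615480) (a (l 17454616) (l 17489000)))))) (b (a (b (l 17518528) (l 17533696)) (b (l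 17450184) (l 17475592))) (a (b (l 17543504) (c (l 17604200) (l 17503992))) (b (l 17494248) (l 17510952)))))), by decide +kernel⟩

theorem s50_pm_022 : ∃ t, chk3 f_pm_022 t 11 3 1 = true := ex3_b k47_pm_022 k48_pm_022

theorem s51_pm_022 : ∃ t, chk3 f_pm_022 t 21 3 1 = true := ex3_b k45_pm_022 k46_pm_022

theorem s52_pm_022 : ∃ t, chk3 f_pm_022 t 41 15 1 = true := ex3_b k43_pm_022 k44_pm_022

theorem s53_pm_022 : ∃ t, chk3 f_pm_022 t 41 7 1 = true := ex3_b k42_pm_022 s52_pm_022

theorem s54_pm_022 : ∃ t, chk3 f_pm_022 t 40 63 3 = true := ex3_b k40_pm_022 k41_pm_022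

theorem s55_pm_022 : ∃ t, chk3 f_pm_022 t 40 63 1 = true := ex3_c k39_pm_022 s54_pm_022

theorem s56_pm_022 : ∃ t, chk3 f_pm_022 t 40 31 1 = true := ex3_b k38_pm_022 s55_pm_022

theorem s57_pm_022 : ∃ t, chk3 f_pm_022 t 40 15 1 = true := ex3_b k37_pm_022 s56_pm_022

theorem s58_pm_022 : ∃ t, chk3 f_pm_022 t 40 7 1 = true := ex3_b k36_pm_022 s57_pm_022

theorem s59_pm_022 : ∃ t, chk3 f_pm_022 t 20 7 1 = true := ex3_a s58_pm_022 s53_pm_022

theorem s60_pm_022 : ∃ t, chk3 f_pm_022 t 20 3 1 = true := ex3_b k35_pm_022 s59_pm_022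

theorem s61_pm_022 : ∃ t, chk3 f_pm_022 t 10 3 1 = true := ex3_a s60_pm_022 s51_pm_022

theorem s62_pm_022 : ∃ t, chk3 f_pm_022 t 5 3 1 = true := ex3_a s61_pm_022 s50_pm_022

theorem s63_pm_022 : ∃ t, chk3 f_pm_022 t 78 31 1 = true := ex3_b k32_pm_022 k33_pm_022

theorem s64_pm_022 : ∃ t, chk3 f_pm_022 t 39 31 1 = true := ex3_a s63_pm_022 k34_pm_022

theorem s65_pm_022 : ∃ t, chk3 f_pm_022 t 39 15 1 = true := ex3_b k31_pm_022 s64_pm_022

theorem s66_pm_022 : ∃ t, chk3 f_pm_022 t 39 7 1 = true := ex3_b k30_pm_022 s65_pm_022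

theorem s67_pm_022 : ∃ t, chk3 f_pm_022 t 77 63 1 = true := ex3_c k28_pm_022 k29_pm_022

theorem s68_pm_022 : ∃ t, chk3 f_pm_022 t 76 63 1 = true := ex3_c k26_pm_022 k27_pm_022

theorem s69_pm_022 : ∃ t, chk3 f_pm_022 t 38 63 1 = true := ex3_a s68_pm_022 s67_pm_022

theorem s70_pm_022 : ∃ t, chk3 f_pm_022 t 38 31 1 = true := ex3_b k25_pm_022 s69_pm_022

theorem s71_pm_022 : ∃ t, chk3 f_pm_022 t 38 15 1 = true := ex3_b k24_pm_022 s70_pm_022

theorem s72_pm_022 : ∃ t, chk3 f_pm_022 t 38 7 1 = true := ex3_b k23_pm_022 s71_pm_022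

theorem s73_pm_022 : ∃ t, chk3 f_pm_022 t 19 7 1 = true := ex3_a s72_pm_022 s66_pm_022

theorem s74_pm_022 : ∃ t, chk3 f_pm_022 t 75 127 2 = true := ex3_b k20_pm_022 k21_pm_022

theorem s75_pm_022 : ∃ t, chk3 f_pm_022 t 75 63 2 = true := ex3_b k19_pm_022 s74_pm_022

theorem s76_pm_022 : ∃ t, chk3 f_pm_022 t 75 63 1 = true := ex3_c s75_pm_022 k22_pm_022

theorem s77_pm_022 : ∃ t, chk3 f_pm_022 t 75 31 1 = true := ex3_b k18_pm_022 s76_pm_022

theorem s78_pm_022 : ∃ t, chk3 f_pm_022 t 75 15 1 = true := ex3_b k17_pm_022 s77_pm_022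

theorem s79_pm_022 : ∃ t, chk3 f_pm_022 t 74 63 1 = true := ex3_c k15_pm_022 k16_pm_022

theorem s80_pm_022 : ∃ t, chk3 f_pm_022 t 74 31 1 = true := ex3_b k14_pm_022 s79_pm_022

theorem s81_pm_022 : ∃ t, chk3 f_pm_022 t 74 15 1 = true := ex3_b k13_pm_022 s80_pm_022

theorem s82_pm_022 : ∃ t, chk3 f_pm_022 t 37 15 1 = true := ex3_a s81_pm_022 s78_pm_022

theorem s83_pm_022 : ∃ t, chk3 f_pm_022 t 37 7 1 = true := ex3_b k12_pm_022 s82_pm_022

theorem s84_pm_022 : ∃ t, chk3 f_pm_022 t 36 63 1 = true := ex3_c k10_pm_022 k11_pm_022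

theorem s85_pm_022 : ∃ t, chk3 f_pm_022 t 36 31 1 = true := ex3_b k9_pm_022 s84_pm_022

theorem s86_pm_022 : ∃ t, chk3 f_pm_022 t 36 15 1 = true := ex3_b k8_pm_022 s85_pm_022

theorem s87_pm_022 : ∃ t, chk3 f_pm_022 t 36 7 1 = true := ex3_b k7_pm_022 s86_pm_022

theorem s88_pm_022 : ∃ t, chk3 f_pm_022 t 18 7 1 = true := ex3_a s87_pm_022 s83_pm_022

theorem s89_pm_022 : ∃ t, chk3 f_pm_022 t 9 7 1 = true := ex3_a s88_pm_022 s73_pm_022

theorem s90_pm_022 : ∃ t, chk3 f_pm_022 t 4 7 1 = true := ex3_a k6_pm_022 s89_pm_022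

theorem s91_pm_022 : ∃ t, chk3 f_pm_022 t 9 6 1 = true := ex3_a k4_pm_022 k5_pm_022

theorem s92_pm_022 : ∃ t, chk3 f_pm_022 t 4 6 1 = true := ex3_a k3_pm_022 s91_pm_022

theorem s93_pm_022 : ∃ t, chk3 f_pm_022 t 4 3 1 = true := ex3_b s92_pm_022 s90_pm_022

theorem s94_pm_022 : ∃ t, chk3 f_pm_022 t 2 3 1 = true := ex3_a s93_pm_022 s62_pm_022

theorem s95_pm_022 : ∃ t, chk3 f_pm_022 t 5 2 1 = true := ex3_a k1_pm_022 k2_pm_022

theorem s96_pm_022 : ∃ t, chk3 f_pm_022 t 2 2 1 = true := ex3_a k0_pm_022 s95_pm_022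

theorem s97_pm_022 : ∃ t, chk3 f_pm_022 t 2 1 1 = true := ex3_b s96_pm_022 s94_pm_022

theorem s98_pm_022 : ∃ t, chk3 f_pm_022 t 1 1 1 = true := ex3_a s97_pm_022 k49_pm_022

theorem c_pm_022 : CertN 0 536870912 0 536870912 134217728 67108864 3 true true false .pp 0 2 2
    ndN0q0 ndN0q2 pcN2 cut_pm_022 Ext.none :=
  certN2 (fam := true) (s1 := true) (s2 := false) (a := 0) (b := 2) (c := 2) (cn := .pp) (n1 := ndN0q0) (n2 := ndN0q2) (pc := pcN2) (cut := cut_pm_022) (xt := Ext.none) (P1 := 0) (W1 := 536870912) (P2 := 0) (W2 := 536870912) (P3 := 134217728) (W3 := 67108864) (N0 := 3)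
    rfl (fun _ => rfl) s98_pm_022

noncomputable def f_pm_023 : ℕ → ℕ → ℕ → ℕ → Bool := onCell 0 536870912 0 536870912 134217728 67108864
    (rowN 3 0 true true false .up 0 2 3 (qsf 0 536870912 0 536870912 3) ndN0q0 ndN0q2 pcN3 Cut.none Ext.none)

def k0_pm_023 : ∃ t, chk3 f_pm_023 t 1 1 1 = true :=
  ⟨(a (l 1) (b (a (a (l 1) (a (b (b (l 1) (l 1)) (l 1)) (b (b (l 17383496) (l 17576216)) (l 17612312)))) (b (a (b (a (l 17293304) (l 17206080)) (a (l 17447072) (l 17352976))) (b (a (l 17122544) (l 17001264)) (a (l 17265392) (l 17182192)))) (a (b (l 17495352) (l 17552592)) (b (a (l 17395856) (l 17324976)) (l 17438672))))) (a (b (l 1) (l 1)) (b (a (b (l 17604768) (l 17654552)) (l 17540664)) (a (c (l 106336409543) (l 113852118791)) (b (l 17643776) (l 79492320471))))))), by decide +kernel⟩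

theorem c_pm_023 : CertN 0 536870912 0 536870912 134217728 67108864 3 true true false .up 0 2 3
    ndN0q0 ndN0q2 pcN3 Cut.none Ext.none :=
  certN0 (fam := true) (s1 := true) (s2 := false) (a := 0) (b := 2) (c := 3) (cn := .up) (n1 := ndN0q0) (n2 := ndN0q2) (pc := pcN3) (cut := Cut.none) (xt := Ext.none) (P1 := 0) (W1 := 536870912) (P2 := 0) (W2 := 536870912) (P3 := 134217728) (W3 := 67108864) (N0 := 3)
    rfl k0_pm_023

noncomputable def cut_pm_101 : Cut := Cut.of [[⟨0, 1, 0, 67108864⟩, ⟨1, 0, 0, 67108864⟩, ⟨2, 1, 0, 67108864⟩]]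

noncomputable def f_pm_101 : ℕ → ℕ → ℕ → ℕ → Bool := onCell 536870912 536870912 536870912 536870912 134217728 67108864
    (rowN 3 1 true true false .npn 1 0 1 (qsf 536870912 536870912 0 536870912 1) ndN0q1 ndN0q0 pcN1 cut_pm_101 Ext.none)

def k0_pm_101 : ∃ t, chk3 f_pm_101 t 1 1 1 = true :=
  ⟨(b (l 3) (a (l 3) (b (l 3) (a (l 3) (b (l 3) (a (l 3) (b (l 3) (a (l 3) (l 6))))))))), by decide +kernel⟩

theorem c_pm_101 : CertN 536870912 536870912 0 536870912 134217728 67108864 3 true true false .npn 1 0 1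
    ndN0q1 ndN0q0 pcN1 cut_pm_101 Ext.none :=
  certN1 (fam := true) (s1 := true) (s2 := false) (a := 1) (b := 0) (c := 1) (cn := .npn) (n1 := ndN0q1) (n2 := ndN0q0) (pc := pcN1) (cut := cut_pm_101) (xt := Ext.none) (P1 := 536870912) (W1 := 536870912) (P2 := 0) (W2 := 536870912) (P3 := 134217728) (W3 := 67108864) (N0 := 3)
    rfl (fun _ => rfl) k0_pm_101

end Pool.Agent.Strip051.G.I1_8_3_16.Tab.C.NA00

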