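import Pool.Agent.Strip051.G.I1_8_3_16.Tab

/-! # Certificates N3 (generated) -/

set_option linter.all false
set_option maxRecDepth 100000

namespace Pool.Agent.Strip051.G.I1_8_3_16.Tab.C.NA00

open Pool.Agent.Strip051.PB Pool.Agent.Strip051.PB.T
open Pool.Agent.Strip051.G.I1_8_3_16.Tab

noncomputable def cut_pm_102 : Cut := Cut.of [[⟨0, 1, 0, 67108864⟩, ⟨1, 0, 0, 67108864⟩, ⟨2, 1, 0, 67108864⟩], [⟨0, 1, 0, 16777216⟩, ⟨1, 0, 1, 41943040⟩, ⟨2, 1, 1, 41943040⟩]]

noncomputable def f_pm_102 : ℕ → ℕ → ℕ → ℕ → Bool := onCell 536870912 536870912 1073741824 536870912 134217728 67108864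
    (rowN 3 1 true true false .npp 1 0 2 (qsf 536870912 536870912 0 536870912 2) ndN0q1 ndN0q0 pcN2 cut_pm_102 Ext.none)

def k0_pm_102 : ∃ t, chk3 f_pm_102 t 2 1 1 = true :=
  ⟨(b (b (a (l 3) (l 3)) (a (b (b (b (l 3) (l 2)) (l 2)) (l 2)) (b (b (b (a (l 3) (a (l 3) (b (l 3) (a (b (l 3) (l 119353182919)) (b (l 134385559319) (l 16830048)))))) (b (a (a (l 3) (b (l 3) (a (l 3) (l 106468327527)))) (a (b (a (l 3) (l 87140971447)) (a (l 16828128) (l 16822432))) (b (a (l 16824072) (l 16818560)) (l 16839040)))) (a (a (b (a (l 2) (l 102173362279)) (b (l 10301343815) (l 16822744))) (b (c (l 16845320) (l 84993505383)) (b (l 16840848) (l 16815280)))) (b (a (l 16838312) (l 16843624)) (b (a (l 16834608) (l 16806272)) (a (l 16814216) (l 16809536))))))) (a (b (a (l 16845688) (l 16833360)) (l 16927440)) (a (b (l 16827936) (l 16840160)) (b (l 16806216) (l 16861712))))) (a (b (b (l 16913880) (l 2)) (l 2)) (b (a (l 16889744) (l 16892040)) (l 17045272)))))) (a (l 2) (b (a (l 2) (b (l 17204488) (l 2))) (l 2)))), by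 decide +kernel⟩

def k1_pm_102 : ∃ t, chk3 f_pm_102 t 6 4 1 = true :=
  ⟨(b (l 3) (a (b (l 3) (b (l 3) (a (l 3) (b (a (l 3) (b (l 3) (a (l 3) (l 134385565303)))) (a (b (l 3) (a (l 135996180135) (l 91972789207))) (b (a (l 123111271927) (l 86067206967)) (c (l 16821760) (l 16818360)))))))) (b (a (l 3) (b (l 3) (a (l 3) (b (l 3) (a (l 3) (b (l 3) (a (b (l 3) (a (l 126332479239) (l 109152611607))) (b (a (l 126869347271) (l 99488938839)) (c (l 16795704) (l 16792944)))))))))) (b (a (b (l 3) (a (l 3) (b (a (l 3) (b (l 3) (l 127943104631))) (a (b (l 3) (l 125258748471)) (c (l 90899037719) (l 90899027783)))))) (b (a (b (a (l 3) (c (l 127943115111) (l 135459298263))) (a (b (l 3) (l 129553718407)) (b (a (l 132238069271) (l 111300099735)) (a (l 111836970407) (l 16797664))))) (b (c (a (a (l 120963780487) (b (l 117205678487) (l 16798632))) (a (l 16808120) (l 16797408))) (a (a (l 142438608439) (b (l 125258734279) (l 16795352))) (a (l 16806752) (l 16792816)))) (a (a (b (l 16807968) (l 16799928)) (l 16808656))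 (l 16797424)))) (a (b (a (b (a (l 131701197863) (l 106468261095)) (c (l 16811160) (l 16807360))) (c (l 16802240) (l 16808808))) (a (c (l 16802192) (l 16798704)) (l 16800896))) (a (c (l 16807584) (l 16796912)) (l 16797088))))) (a (b (a (b (a (l 3) (b (l 134385559559) (l 118816295479))) (a (b (l 125795622055) (l 88214677895)) (l 77477261031))) (b (a (c (l 91972777351) (l 89825285239)) (l 16811080)) (a (l 16800688) (l 16803640)))) (a (b (a (l 16819688) (l 16801160)) (l 16804200)) (c (l 16817416) (l 16807312)))) (a (a (b (l 16805624) (l 16823344)) (b (l 16811944) (l 16830808))) (b (c (l 16832944) (l 16810848)) (c (l 16856200) (l 16826880))))))))), by decide +kernel⟩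

def k2_pm_102 : ∃ t, chk3 f_pm_102 t 6 5 1 = true :=
  ⟨(b (b (b (a (a (b (a (b (l 3) (b (l 3) (l 91972801495))) (b (a (l 3) (l 122574401383)) (l 83919738375))) (b (a (l 84456610023) (l 16819344)) (a (l 16818944) (l 16802672)))) (b (b (a (c (l 16824080) (l 16819760)) (l 16822512)) (a (l 16821448) (l 16808096))) (a (b (l 16804968) (l 16813312)) (l 16800920)))) (a (b (a (l 16803728) (l 16831768)) (a (l 16836624) (l 16852288))) (a (b (l 16847368) (l 16868296)) (b (c (l 16880040) (l 16844664)) (l 16883968))))) (b (a (a (b (a (l 16800920) (l 16810376)) (a (l 16808056) (l 16819320))) (a (b (l 16822672) (l 16832280)) (l 16841712))) (a (a (l 16856960) (l 16872920)) (a (l 16889240) (c (l 16928008) (l 16883344))))) (b (a (a (c (l 16825032) (l 16840056)) (a (l 16841736) (l 16856272))) (a (a (l 16871800) (l 16888104)) (a (l 16905408) (l 16923416)))) (a (b (a (c (l 16831784) (l 16887624)) (a (l 16848440) (l 16863232))) (a (l 16832496) (l 16860320))) (a (b (a (l 16879128) (l 16896256)) (c (l 16906680) (l 16879872)))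 (a (l 16917896) (l 16936088))))))) (a (a (b (a (l 16845320) (l 16858840)) (l 16887880)) (b (a (l 16873376) (l 16888944)) (l 16918296))) (a (b (a (l 16906208) (l 16925352)) (c (l 16970456) (l 16937216))) (c (b (l 16978136) (l 17020272)) (a (l 16942032) (l 16956304)))))) (a (a (b (b (l 16923072) (l 16956576)) (l 17002808)) (b (b (l 16954344) (l 16988632)) (l 17035608))) (a (b (c (l 17026424) (l 16990800)) (l 17073736)) (a (b (l 17041016) (l 17107352)) (b (l 17063440) (l 17131608)))))), by decide +kernel⟩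

def k3_pm_102 : ∃ t, chk3 f_pm_102 t 14 8 1 = true :=
  ⟨(b (l 3) (a (l 3) (b (l 3) (a (l 3) (b (a (l 3) (b (l 3) (a (l 3) (b (a (l 3) (l 127943068839)) (a (c (l 108615714535) (l 111300068391)) (c (l 37748746967) (l 16782200))))))) (a (b (a (l 3) (b (l 3) (a (l 3) (l 119353134775)))) (a (b (l 3) (a (l 121500620519) (c (l 57612977607) (l 54928621591)))) (b (a (c (l 93583340375) (l 94657080919)) (l 26474460535)) (l 16782280)))) (b (a (b (a (l 127943071303) (c (l 89288360023) (l 90362101095))) (c (c (l 31306299303) (l 30232557095)) (l 28621944471))) (c (c (l 16782280) (l 16782264)) (l 16782232))) (c (l 16781856) (l 16782952))))))))), by decide +kernel⟩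

def k4_pm_102 : ∃ t, chk3 f_pm_102 t 28 18 1 = true :=
  ⟨(b (a (l 3) (b (l 3) (a (a (l 3) (a (l 3) (b (l 3) (c (l 128479949879) (l 135996138039))))) (b (a (l 3) (b (l 3) (a (l 132774920183) (l 113984438327)))) (c (a (b (l 126332461591) (l 72108511751)) (a (l 39896246647) (l 16784120))) (a (b (l 133311779319) (l 68350411815)) (l 24863862359))))))) (a (b (a (l 3) (c (b (a (l 3) (l 121500637735)) (a (b (l 124721862535) (l 123648113687)) (b (l 115595046791) (l 16791864)))) (b (a (l 3) (l 139217372007)) (a (b (l 132774920103) (l 126332462663)) (b (l 117742525367) (l 16789144)))))) (b (a (a (b (l 3) (c (l 130090571015) (l 138143628151))) (b (a (l 126332470519) (l 105394511431)) (c (l 16793160) (l 16791392)))) (c (a (b (l 16792616) (l 16792168)) (l 16791728)) (l 16794080))) (a (a (b (a (l 16798584) (l 16794096)) (l 16793880)) (l 16796264)) (l 16791200)))) (c (b (a (b (a (b (l 120426888535) (l 107005129975)) (b (l 80698448263) (l 16788048))) (l 16793944)) (b (l 16786232) (l 16792488))) (a (l 16799464)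 (l 16805008))) (b (a (b (a (b (l 140827978055) (l 84993414439)) (b (l 76940348615) (l 16785752))) (l 16794128)) (b (l 16790096) (l 16794640))) (a (l 16791192) (l 16775360)))))), by decide +kernel⟩

def k5_pm_102 : ∃ t, chk3 f_pm_102 t 29 18 1 = true :=
  ⟨(b (a (b (a (b (l 3) (a (l 3) (b (a (l 3) (l 129016818855)) (a (l 118816269591) (c (l 65666049991) (l 16785592)))))) (b (a (b (l 3) (a (l 3) (l 121500622423))) (b (a (l 129016817191) (l 95193949319)) (c (l 36675015831) (l 32916917191)))) (a (b (a (l 93046467655) (l 16787176)) (l 16790504)) (l 16786536)))) (b (a (a (b (a (l 128479954711) (l 97878307879)) (c (l 16787464) (l 16788480))) (c (l 16791592) (l 16790256))) (c (l 16788952) (l 16781752))) (c (a (l 16783224) (l 16781992)) (a (l 16796432) (l 16787584))))) (b (a (a (b (c (l 11442077943) (l 16785024)) (l 16780576)) (c (l 16781024) (l 16780880))) (c (b (c (l 16792552) (l 16792208)) (l 16780744)) (l 16775448))) (c (a (l 16772600) (b (l 16769232) (l 16768312))) (a (l 16772560) (l 16772024)))))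 (a (c (b (a (l 16781280) (l 16770120)) (a (l 16808472) (l 16808584))) (a (b (l 16780048) (l 16765896)) (b (l 16785328) (l 16782632)))) (b (c (a (c (l 16800360) (l 16769584)) (c (l 16792328) (l 16766320))) (a (l 16769664) (l 16769264))) (c (a (l 16782936) (c (l 16816992) (l 16768104))) (a (l 16761864) (l 16761624)))))), by decide +kernel⟩

def k6_pm_102 : ∃ t, chk3 f_pm_102 t 14 19 1 = true :=
  ⟨(a (b (a (b (a (c (l 16804016) (l 16790392)) (c (l 16811552) (l 16789920))) (c (l 16807912) (l 16801256))) (b (c (a (l 16818944) (l 16825136)) (a (l 16787984) (l 16783264))) (c (a (l 16841112) (l 16847888)) (a (l 16799976) (l 16795952))))) (a (b (c (l 16851904) (l 16815728)) (c (l 16875912) (l 16832600))) (c (b (l 16868760) (l 16893880)) (b (l 16814096) (l 16832328))))) (b (a (b (c (a (l 16829280) (l 16830448)) (a (l 16774592) (l 16760624))) (c (a (l 16852848) (l 16855256)) (a (l 16788344) (l 16776048)))) (b (c (a (l 16827480) (c (l 16845680) (l 16791664))) (a (l 16759768) (l 16764408))) (c (a (l 16833136)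 (l 16766696)) (a (l 16757768) (l 16756936))))) (a (c (b (a (l 16878208) (l 16881976)) (a (l 16904720) (l 16909864))) (b (a (l 16805832) (l 16795272)) (a (l 16825928) (l 16817008)))) (c (b (a (l 16882632) (l 16857840)) (a (l 16912216) (l 16910744))) (b (a (l 16779104) (l 16755240)) (a (l 16802904) (l 16782440))))))), by decide +kernel⟩

def k7_pm_102 : ∃ t, chk3 f_pm_102 t 30 16 1 = true :=
  ⟨(b (l 3) (a (l 3) (b (l 3) (a (l 3) (b (l 3) (a (l 3) (b (b (l 3) (a (l 3) (a (l 3) (l 6)))) (b (b (a (l 3) (a (l 69424124871) (l 6))) (a (l 160155315143) (c (l 16778848) (l 16779872)))) (a (c (a (l 135996119831) (l 35601255655)) (a (l 144586049511) (l 16779096))) (l 16778872)))))))))), by decide +kernel⟩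

def k8_pm_102 : ∃ t, chk3 f_pm_102 t 60 34 1 = true :=
  ⟨(b (l 3) (a (l 3) (b (a (l 3) (b (l 3) (b (a (l 3) (a (l 140291092663) (l 47949288407))) (a (l 137606738983) (l 16779552))))) (b (b (a (l 3) (c (c (l 23790097751) (l 23253226695)) (l 22179486199))) (a (a (l 3) (a (l 153712855815) (l 16779968))) (l 16779592))) (b (a (a (l 145122932535) (l 16779736)) (l 16779144)) (a (a (l 41506840295) (l 16781960)) (l 16778696))))))), by decide +kernel⟩

def k9_pm_102 : ∃ t, chk3 f_pm_102 t 61 34 1 = true :=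
  ⟨(b (a (b (a (l 3) (a (l 3) (b (l 3) (b (l 3) (l 151028511095))))) (a (b (l 3) (a (l 3) (a (l 145659803223) (b (l 148881027511) (l 37748740759))))) (a (a (b (l 3) (c (l 33990643703) (l 32916902471))) (b (b (l 3) (l 66739771559)) (l 16780192))) (b (b (a (l 117742508343) (l 28085064007)) (l 9831453303)) (c (l 16777320) (l 16776728)))))) (b (b (a (a (l 3) (a (b (l 3) (a (l 128479931655) (l 56002351527))) (b (a (l 150491639863) (l 69960996231)) (l 16779544)))) (a (c (c (l 10368322471) (l 16778592)) (l 16778976)) (c (l 16779232) (l 16778768)))) (a (a (a (b (l 156934091639) (l 43117449831)) (b (l 54928610695) (l 16780144))) (c (l 16779984) (l 16779552))) (c (c (l 16777680) (l 16777376)) (l 16778248)))) (b (c (a (l 16778944) (c (l 16775648) (l 16775256))) (a (l 16779040) (l 16777312))) (c (a (l 16777560) (c (l 16774984) (l 16774488))) (a (l 16778120) (l 16776400)))))) (a (b (a (b (a (c (b (l 124184965015) (l 37748740567)) (b (l 132238029239) (l 16779952))) (c (l 16780552) (l 16779992))) (c (l 16780064)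 (l 16782024))) (c (c (l 16779480) (l 16779040)) (c (l 16778624) (l 16778224)))) (c (a (c (l 16779088) (l 16778608)) (c (l 16775576) (l 16774928))) (a (l 16777928) (l 16776624)))) (c (a (b (c (l 16778128) (l 16777576)) (c (l 16774384) (l 16773600))) (b (c (a (l 16774416) (l 16773664)) (l 16776016)) (c (l 16775568) (l 16772056)))) (a (b (c (l 16777048) (l 16776544)) (c (l 16772848) (l 16772120))) (b (c (l 16775384) (l 16774776)) (c (l 16771192) (l 16770360))))))), by decide +kernel⟩

def k10_pm_102 : ∃ t, chk3 f_pm_102 t 30 35 1 = true :=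
  ⟨(a (b (a (b (a (a (l 3) (b (l 3) (b (l 171966470615) (l 60297325495)))) (b (a (c (l 153712859479) (l 154786601127)) (a (l 60834195927) (l 32380033879))) (c (c (l 17884519671) (l 16781296)) (l 15737036759)))) (a (b (a (b (l 145659804631) (l 16781992)) (l 16781256)) (l 16780144)) (c (l 16785520) (l 16785008)))) (c (a (b (l 16781320) (l 16785048)) (b (l 16778064) (l 16773960))) (b (a (l 16780784) (l 16779760)) (c (l 16776712) (l 16776824))))) (c (a (b (c (l 16779184) (l 16778824)) (l 16775024)) (b (c (l 16775912) (l 16775104)) (c (l 16772120) (l 16771072)))) (a (b (l 16778296) (l 16775184)) (b (c (l 16774320) (l 16773568)) (l 16774144))))) (a (b (c (a (b (l 16777304) (l 16773232)) (b (l 16776416) (l 16775000))) (a (b (l 16778632) (l 16771520)) (b (l 16774768) (l 16770304)))) (c (a (c (l 16775776) (l 16773224)) (b (l 16773680) (l 16769856))) (a (c (l 16774640) (l 16773480)) (b (l 16768512) (l 16766808))))) (b (a (c (c (b (l 16773248) (l 16772048)) (b (l 16772232) (l 16770784))) (b (l 16773392)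 (l 16774224))) (c (c (b (l 16771968) (l 16770888)) (b (l 16770824) (l 16769472))) (b (c (l 16769704) (l 16768632)) (c (l 16768096) (l 16766776))))) (c (a (c (b (l 16770888) (l 16769592)) (b (l 16769376) (l 16767832))) (c (b (a (l 16770008) (l 16769576)) (l 16771344)) (b (l 16770680) (l 16766848)))) (a (b (l 16767216) (c (l 16766128) (l 16764488))) (b (c (l 16771696) (l 16770144)) (c (l 16765032) (l 16763280)))))))), by decide +kernel⟩

def k11_pm_102 : ∃ t, chk3 f_pm_102 t 30 18 1 = true :=
  ⟨(b (a (a (a (b (c (l 16773320) (l 16774320)) (c (l 16768752) (l 16766072))) (c (b (l 16773112) (l 16768624)) (b (l 16773640) (l 16765456)))) (a (c (b (c (l 16770808) (l 16769496)) (l 16768368)) (b (l 16772840) (l 16764736))) (c (b (c (l 16770464) (l 16768920)) (c (l 16768696) (l 16766592))) (b (l 16771936) (l 16768800))))) (c (a (b (a (c (l 16769976) (l 16768216)) (b (l 16771336) (a (l 16767968) (l 16767648)))) (a (c (l 16768264) (l 16765992)) (c (l 16767128) (l 16764768)))) (b (a (c (b (l 16768872) (l 16767416))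 (b (l 16766888) (l 16765264))) (c (b (l 16767080) (l 16765600)) (b (l 16765056) (l 16763432)))) (c (a (l 16765192) (l 16763320)) (a (l 16762808) (l 16760920))))) (b (b (a (a (l 16766440) (l 16765160)) (a (c (l 16764968) (l 16763120)) (l 16762144))) (a (a (l 16764992) (l 16763752)) (a (l 16762160) (l 16760296)))) (a (a (c (l 16769040) (l 16766912)) (c (l 16762480) (l 16760272))) (a (c (l 16760496) (l 16758256)) (c (l 16758592) (l 16756336))))))) (a (c (a (b (c (l 16764488) (l 16766232)) (c (l 16771720) (l 16764376))) (a (b (l 16770552) (l 16764640)) (b (a (l 16766464) (l 16765800)) (l 16763008)))) (a (b (l 16768416) (a (l 16760752) (l 16760368))) (b (a (l 16761856) (l 16766392)) (c (l 16759608) (l 16756856))))) (c (a (b (a (l 16769648) (a (l 16763128) (l 16762248))) (c (l 16767264) (l 16764264))) (b (c (a (l 16762224) (l 16760296)) (a (l 16759528) (l 16757592))) (c (a (l 16759288) (l 16757336)) (a (l 16756264) (l 16754312))))) (a (a (b (l 16759272) (l 16755568)) (b (l 16757488) (l 16753768))) (b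 (a (l 16760872) (c (l 16754960) (l 16752400))) (a (l 16751888) (c (l 16751360) (l 16748496)))))))), by decide +kernel⟩

def k12_pm_102 : ∃ t, chk3 f_pm_102 t 30 19 1 = true :=
  ⟨(b (a (c (a (b (c (l 16835384) (l 16768544)) (l 16765184)) (b (c (l 16762712) (l 16759176)) (c (l 16833472) (l 16769504)))) (a (b (l 16763040) (l 16753920)) (b (c (l 16755992) (l 16752912)) (l 16756112)))) (c (a (b (c (l 16760816) (l 16755840)) (c (l 16754816) (l 16752776))) (b (c (a (l 16756440) (l 16754480)) (a (l 16753080) (l 16751120))) (c (b (l 16752136) (l 16748768)) (a (l 16750040) (l 16748096))))) (a (b (c (l 16752592) (l 16749448)) (c (l 16749200) (l 16745728))) (b (a (l 16753456) (a (l 16746744) (l 16745744))) (c (l 16750728) (l 16741976)))))) (a (c (a (b (c (l 16905320) (l 16832600)) (c (l 16941336) (l 16866936))) (b (c (l 16894552) (l 16808120)) (c (l 16934616) (l 16847384)))) (a (b (l 16750400) (l 16753856)) (b (l 16752624) (l 16743976)))) (c (a (b (c (a (l 16880640) (l 16867928)) (l 16750984)) (c (l 16920328)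 (l 16765576))) (c (b (a (l 16851944) (l 16811200)) (a (l 16903176) (l 16887952))) (b (l 16751456) (l 16744336)))) (a (b (c (l 16745936) (l 16742128)) (c (l 16742776) (l 16738632))) (b (c (l 16742280) (l 16738440)) (c (l 16739224) (l 16735048))))))), by decide +kernel⟩

def k13_pm_102 : ∃ t, chk3 f_pm_102 t 31 16 1 = true :=
  ⟨(a (b (l 6) (b (l 6) (a (b (l 6) (a (a (b (l 6) (c (l 16779248) (l 16778848))) (l 6)) (l 6))) (l 6)))) (l 6)), by decide +kernel⟩

def k14_pm_102 : ∃ t, chk3 f_pm_102 t 62 68 1 = true :=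
  ⟨(a (c (a (b (c (a (l 16776856) (l 16776032)) (a (l 16776528) (l 16776968))) (c (a (l 16774136) (l 16773328)) (a (l 16773616) (l 16772760)))) (a (b (c (l 16775840) (l 16776080)) (c (l 16772488) (l 16771880))) (b (l 6) (c (l 16771624) (l 16770968))))) (a (a (b (c (l 16777520) (l 16777208)) (l 16775496)) (b (c (l 16776608) (l 16776248)) (c (l 16772216) (l 16771680)))) (a (b (c (l 16775664) (l 16775272)) (c (l 16771288) (l 16770704))) (b (l 6) (c (l 16770336) (l 16769712)))))) (b (l 6) (a (a (a (b (l 6) (c (l 16770280) (l 16768832))) (l 6)) (l 6)) (l 6)))), by decide +kernel⟩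

def k15_pm_102 : ∃ t, chk3 f_pm_102 t 62 69 1 = true :=
  ⟨(a (c (a (b (c (a (l 16772888) (l 16772088)) (a (l 16772160) (l 16771312))) (c (a (l 16771792) (l 16771000)) (a (l 16770824) (l 16769976)))) (b (c (a (l 16771264) (c (l 16770496) (l 16770048))) (a (l 16770432) (l 16769400))) (c (a (l 16770000) (b (l 16769544) (l 16769024))) (a (l 16768936) (b (l 16768504) (l 16767872)))))) (b (b (a (l 16771088) (c (l 16769568) (l 16768816))) (a (l 16770232) (c (l 16768648) (l 16767792)))) (a (c (l 16769448) (l 16768512)) (c (a (l 16767904) (l 16769768)) (a (l 16766904) (l 16766112)))))) (a (c (b (b (c (a (l 16769728) (l 16768824)) (a (l 16768880) (l 16767952))) (c (a (l 16769272) (l 16768096)) (a (l 16768312) (l 16767144)))) (c (a (l 16768168) (l 16767048)) (a (l 16767072) (l 16765960)))) (b (a (b (l 16770256) (l 16769208)) (c (l 16766648) (l 16765776))) (c (a (l 16766008) (l 16764896)) (a (l 16764968) (l 16763856))))) (c (c (b (a (c (l 16767576) (l 16767120)) (l 6)) (a (l 16765896) (c (l 16764992) (l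 16764456)))) (b (a (l 16766432) (l 6)) (a (l 16764824) (l 16763656)))) (b (a (c (l 16765544) (l 16764664)) (l 6)) (c (a (l 16763768) (l 16762608)) (a (l 16762728) (l 16761576))))))), by decide +kernel⟩

def k16_pm_102 : ∃ t, chk3 f_pm_102 t 62 35 1 = true :=
  ⟨(a (c (b (a (c (b (a (l 16770832) (l 16769872)) (a (l 16769872) (l 16769064))) (b (a (l 16769600) (l 16768600)) (a (l 16768368) (l 16767552)))) (c (b (a (l 16769184) (l 16767960)) (c (l 16767648) (l 16766888))) (b (a (l 16767880) (l 16766672)) (a (l 16766328) (l 16765200))))) (a (c (b (l 16768192) (l 16766712)) (b (l 16766464) (l 16764816))) (c (b (c (l 16766464) (l 16765608)) (l 16764704)) (b (l 16764336) (l 16762816))))) (b (a (a (b (l 16767824) (c (l 16766912) (l 16765504))) (b (c (l 16767368) (l 16766168)) (c (l 16766072) (l 16764648)))) (a (b (a (l 16768848) (l 16765656)) (l 16764160)) (b (l 16766112) (l 16763048)))) (a (c (b (l 16764800) (l 16762984)) (b (l 16763184) (l 16761208))) (c (b (l 16762680) (l 16760976)) (b (l 16761080)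 (l 16759200)))))) (b (c (a (c (b (a (l 16766824) (l 16765664)) (c (l 16765944) (l 16764552))) (b (a (l 16765552) (l 16764400)) (a (l 16764048) (l 16762864)))) (c (b (a (l 16764472) (l 16763256)) (a (l 16763088) (l 16761832))) (b (a (l 16763224) (l 16762024)) (a (l 16761664) (l 16760432))))) (a (b (c (a (l 16764304) (l 16763160)) (l 16763840)) (c (l 16763352) (l 16760648))) (c (b (a (l 16762000) (l 16760816)) (a (l 16760264) (l 16759048))) (b (a (l 16760800) (l 16759624)) (l 16758296))))) (c (a (c (b (c (l 16764048) (l 16763216)) (c (l 16762856) (l 16761920))) (b (a (l 16762576) (l 16761368)) (a (l 16761144) (l 16759912)))) (a (c (b (l 16761752) (l 16760464)) (b (l 16760136) (l 16758656))) (c (b (l 16760472) (l 16759144)) (b (l 16758880) (l 16757376))))) (a (c (b (l 16760368) (l 16758728)) (b (l 16758792) (l 16756968))) (c (b (a (l 16758560) (l 16757328)) (a (l 16756888) (l 16755632))) (b (l 16756408) (l 16754552))))))), by decide +kernel⟩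

def k17_pm_102 : ∃ t, chk3 f_pm_102 t 63 34 1 = true :=
  ⟨(b (l 6) (b (l 6) (a (a (a (b (l 6) (c (c (l 16763144) (l 16762048)) (l 16761744))) (l 6)) (l 6)) (l 6)))), by decide +kernel⟩

def k18_pm_102 : ∃ t, chk3 f_pm_102 t 126 35 1 = true :=
  ⟨(b (c (a (c (b (a (c (l 16762320) (l 16761712)) (c (l 16761040) (l 16760440))) (a (c (l 16760904) (l 16760208)) (c (l 16759592) (l 16758912)))) (b (a (l 16760800) (l 16759544)) (a (l 16759176) (l 16757896)))) (c (b (a (c (l 16759736) (l 16759152)) (l 6)) (a (c (l 16758248) (l 16757584)) (c (l 16756880) (l 16756224)))) (b (a (c (l 16758560) (l 16757976)) (l 6)) (a (l 16756584) (c (l 16755576) (l 16754920)))))) (a (c (b (a (l 16759600) (l 16758368)) (a (l 16757808) (l 16756552))) (b (a (l 16758416) (l 16757192)) (a (l 16756472) (l 16755224)))) (c (b (a (l 16757104) (l 6)) (a (l 16755264) (l 16753952))) (b (a (l 16755944) (l 6)) (a (l 16753952) (l 16752656)))))) (c (a (a (c (b (l 16759160) (c (l 16758248) (l 16757368))) (b (l 16757600) (l 16756064))) (c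 (b (c (l 16758208) (l 16757440)) (c (l 16756872) (l 16756008))) (b (l 16756296) (l 16754736)))) (a (c (b (c (l 16756840) (l 16756088)) (c (l 16755464) (l 16754624))) (b (l 16754960) (l 16753376))) (c (c (b (l 16755440) (l 16754032)) (b (l 16754704) (l 16753208))) (b (c (l 16753968) (l 16753232)) (c (l 16752392) (l 16751584)))))) (a (c (b (a (l 16756064) (l 16754784)) (a (l 16754352) (l 16753048))) (b (a (l 16754552) (l 16753296)) (l 16753352))) (c (b (a (l 16753480) (l 16752144)) (a (l 16751720) (l 16750368))) (b (a (l 16752008) (l 16750696)) (a (l 16750088) (l 16748760))))))), by decide +kernel⟩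

def k19_pm_102 : ∃ t, chk3 f_pm_102 t 127 70 1 = true :=
  ⟨(b (l 6) (b (l 6) (a (a (c (c (c (l 16755064) (l 16754408)) (l 16753424)) (c (l 16752112) (l 16750808))) (l 6)) (l 6)))), by decide +kernel⟩

def k20_pm_102 : ∃ t, chk3 f_pm_102 t 127 71 2 = true :=
  ⟨(a (c (b (a (c (a (l 16754368) (l 16753632)) (a (l 16753640) (l 16752920))) (c (c (l 16752688) (l 16752352)) (c (l 16752008) (l 16751672)))) (a (c (b (a (l 16753320) (l 16752624)) (l 16753528)) (b (l 16752152) (l 16751400))) (c (b (c (l 16751688) (l 16751320)) (l 16750784)) (b (l 16750768) (l 16750016))))) (b (a (c (a (l 16752920) (l 16752208)) (l 16751792)) (c (l 16751160) (l 16750480))) (a (c (a (l 16751296) (l 16750680)) (b (l 16750600) (l 16749776))) (c (c (l 16749824) (l 16749448)) (b (l 16749296) (l 16748480)))))) (c (b (a (a (c (l 16751376) (l 16750736)) (l 6)) (l 6)) (b (b (a (c (l 16750192) (l 16749512)) (l 6)) (c (a (l 16749872) (c (l 16748536) (l 16748216))) (a (l 16749176) (l 16747728)))) (c (a (c (l 16749528) (l 16749168))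 (c (l 16748048) (l 16747712))) (a (l 16748624) (c (l 16747376) (l 16747040)))))) (b (a (c (c (l 16749888) (l 16749568)) (l 16749088)) (l 6)) (b (a (c (l 16748648) (l 16747960)) (a (c (l 16747600) (l 16746936)) (l 6))) (c (a (l 16747904) (c (l 16746704) (l 16746360))) (a (l 16747176) (l 16745848))))))), by decide +kernel⟩

def k21_pm_102 : ∃ t, chk3 f_pm_102 t 127 71 3 = true :=
  ⟨(a (c (b (a (c (l 16751080) (l 16750376)) (c (l 16749800) (l 16749120))) (a (c (b (l 16749832) (l 16748968)) (l 16749920)) (c (l 16748128) (l 16747376)))) (b (a (l 16749312) (l 16748088)) (a (c (l 16747824) (l 16747048)) (c (l 16746624) (l 16745872))))) (c (b (a (c (l 16748448) (l 16747808)) (l 6)) (a (c (b (l 16747264) (l 16746448)) (b (l 16746568) (l 16745720))) (c (b (c (l 16746104) (l 16745776)) (l 16745168)) (b (l 16745288) (l 16744472))))) (b (a (c (l 16747160) (l 16746512)) (l 6)) (b (a (c (l 16745872) (l 16745168)) (c (l 16744624) (l 16743952))) (a (l 16744616) (c (l 16743776) (l 16743080))))))), by decide +kernel⟩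

def k22_pm_102 : ∃ t, chk3 f_pm_102 t 62 36 1 = true :=
  ⟨(a (c (b (a (c (b (l 16765200) (l 16763664)) (b (l 16763168) (l 16761488))) (c (b (l 16763192) (l 16761608)) (b (l 16761152) (l 16759432)))) (c (a (b (l 16762120) (l 16760576)) (b (l 16760024) (l 16758448))) (a (l 16764168) (b (l 16757704) (l 16755984))))) (b (b (a (c (l 16761192) (l 16759272)) (c (l 16759176) (l 16757248))) (a (l 16758336) (c (l 16757312) (l 16755248)))) (a (c (l 16756592) (l 16754320)) (c (b (l 16755440) (l 16753576)) (l 16752216))))) (c (a (b (c (b (c (l 16761504) (l 16760480)) (c (l 16759968) (l 16758872))) (b (l 16758976) (l 16757256))) (c (b (l 16757792) (l 16756184)) (b (l 16755496) (l 16753744)))) (b (c (b (c (l 16758984) (l 16757984)) (c (l 16757576) (l 16756504))) (b (c (l 16757000) (l 16756032)) (c (l 16755440) (l 16754384)))) (c (b (c (l 16756008) (l 16754864)) (c (l 16754408) (l 16753192))) (b (l 16753160) (l 16751384))))) (b (a (c (b (l 16757008) (l 16755144)) (b (l 16755080) (l 16753080))) (c (b (l 16754592)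 (l 16752824)) (b (l 16752704) (l 16750776)))) (a (c (b (l 16753240) (l 16751352)) (b (l 16751048) (l 16749016))) (c (b (l 16750936) (l 16749024)) (b (l 16748752) (l 16746704))))))), by decide +kernel⟩

def k23_pm_102 : ∃ t, chk3 f_pm_102 t 126 36 1 = true :=
  ⟨(c (a (a (c (b (b (l 16756416) (l 16755064)) (c (l 16753304) (l 16752136))) (b (b (l 16754504) (l 16752976)) (c (l 16750976) (l 16749832)))) (c (b (b (a (l 16755360) (l 16754648)) (l 16754928)) (b (l 16752216) (l 16750624))) (b (c (l 16754136) (l 16751856)) (c (l 16749680) (l 16748544))))) (a (c (b (c (b (l 16754024) (l 16752640)) (b (l 16753104) (l 16751632))) (c (b (l 16751320) (l 16749872)) (b (l 16750232) (l 16748704)))) (b (b (l 16751736) (l 16750144)) (c (l 16748304) (l 16747184)))) (c (b (c (b (l 16752544) (l 16751064)) (b (l 16751648) (l 16750088))) (c (b (l 16749744) (c (l 16748824) (l 16748240))) (b (l 16748680) (l 16747376)))) (b (b (l 16751624) (c (l 16749120) (l 16748152))) (c (b (l 16747616) (l 16746232)) (b (l 16746568) (l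 16745096))))))) (a (a (b (c (b (l 16752632) (l 16750928)) (l 16749832)) (c (l 16748136) (l 16745904))) (b (c (b (l 16751288) (l 16749560)) (l 16748512)) (c (l 16749152) (l 16744648)))) (a (b (c (b (l 16749928) (l 16748168)) (l 16747168)) (c (c (l 16746080) (l 16744976)) (l 16743344))) (b (c (b (l 16748536) (l 16746704)) (b (l 16746784) (l 16744800))) (b (c (l 16746312) (l 16742936)) (c (c (l 16743968) (l 16742840)) (l 16741168))))))), by decide +kernel⟩

def k24_pm_102 : ∃ t, chk3 f_pm_102 t 254 36 2 = true :=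
  ⟨(b (c (b (b (c (a (l 16751496) (l 16750072)) (a (l 16750648) (l 16749272))) (c (a (l 16750800) (l 16749392)) (a (l 16749912) (l 16748560)))) (c (a (c (l 16750024) (l 16749552)) (c (l 16748664) (l 16748216))) (a (l 16748840) (l 16748200)))) (b (a (c (a (l 16749672) (l 16749032)) (l 16748552)) (c (l 16748088) (l 16747264))) (c (a (l 16747896) (l 16746656)) (a (l 16746960) (l 16745760))))) (c (c (b (a (l 16748504) (c (l 16747544) (l 16747056))) (a (l 16747424) (c (l 16746576) (l 16746040)))) (b (a (l 16747480) (l 16746328)) (a (l 16746312) (l 16745248)))) (c (a (b (l 16746456) (l 16745208)) (b (l 16745352) (l 16744192))) (a (b (l 16745440) (l 16744104)) (b (l 16744384) (l 16743136)))))), by decide +kernel⟩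

def k25_pm_102 : ∃ t, chk3 f_pm_102 t 255 36 2 = true :=
  ⟨(c (b (a (a (c (b (l 16748696) (l 16747464)) (b (l 16747912) (l 16746608))) (c (b (l 16747992) (l 16746808)) (b (l 16747232) (l 16745976)))) (a (c (b (c (l 16747472) (l 16747104)) (c (l 16746344) (l 16745936))) (b (l 16746552) (l 16745328))) (c (b (c (l 16746752) (l 16746400)) (c (l 16745656) (l 16745272))) (b (c (l 16746048) (l 16745688)) (c (l 16744880) (l 16744488)))))) (c (a (b (c (b (l 16746552) (l 16746072)) (l 16745840)) (c (b (l 16745624) (l 16745216)) (b (l 16745128) (l 16744696)))) (a (b (c (l 16745352) (l 16744912)) (c (l 16744520) (l 16744032))) (b (c (l 16744712) (l 16744280)) (c (b (l 16744104) (l 16743744)) (b (l 16743640) (l 16743256)))))) (a (b (c (l 16745384) (l 16744920)) (c (l 16744400) (l 16743896))) (b (c (b (l 16744416) (l 16743928)) (b (l 16743984) (l 16743480))) (c (b (l 16743472) (l 16743064)) (b (l 16743008) (l 16742568))))))) (b (a (c (b (c (l 16746992) (l 16746608)) (c (l 16745656) (l 16745232))) (b (c (l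 16746216) (l 16745832)) (c (l 16744808) (l 16744384)))) (a (c (b (l 16745816) (l 16744520)) (b (l 16745072) (l 16743704))) (c (b (c (l 16745328) (l 16744976)) (c (l 16744096) (l 16743696))) (b (l 16744432) (l 16743104))))) (b (b (c (a (l 16744520) (c (l 16743560) (l 16743128))) (a (l 16743616) (l 16742480))) (c (a (l 16743944) (c (l 16743032) (l 16742576))) (a (l 16743000) (c (l 16742128) (l 16741680))))) (c (a (c (l 16743392) (l 16742888)) (c (b (l 16742536) (l 16742080)) (b (l 16742064) (l 16741584)))) (a (c (l 16742384) (l 16741880)) (a (l 16741360) (a (l 16740968) (l 16740704)))))))), by decide +kernel⟩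

def k26_pm_102 : ∃ t, chk3 f_pm_102 t 127 36 3 = true :=
  ⟨(a (a (b (c (c (b (l 16747688) (l 16746024)) (b (l 16746832) (l 16745088))) (b (c (l 16745976) (l 16745120)) (l 16743696))) (c (c (b (l 16744432) (l 16743016)) (b (l 16743424) (l 16741920))) (c (l 16741608) (l 16740568)))) (c (b (c (b (l 16746448) (l 16744872)) (b (l 16745624) (l 16743976))) (c (b (l 16743416) (l 16742080)) (b (l 16742448) (l 16741032)))) (b (c (b (l 16744808) (l 16743088)) (b (l 16743984) (l 16742200))) (c (b (l 16741480) (l 16739984)) (l 16739704))))) (b (c (a (c (b (l 16745248) (l 16743752)) (b (l 16744464) (l 16742896))) (c (b (c (l 16744200) (l 16743832)) (c (l 16742800) (l 16742400))) (b (c (l 16743464) (l 16743096)) (c (l 16741992) (l 16741584))))) (a (c (b (l 16743680) (l 16742048)) (b (l 16742896) (l 16741192))) (c (b (b (l 16742944) (l 16742136)) (c (l 16741176) (l 16740768))) (b (b (l 16742208) (l 16741368)) (l 16740152))))) (c (b (c (a (l 16742376) (c (l 16741520) (l 16741080))) (a (l 16741448) (c (l 16740640)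 (l 16740192)))) (c (a (l 16741120) (a (l 16740384) (l 16739880))) (a (l 16740112) (c (l 16739400) (l 16738920))))) (b (c (a (l 16740512) (c (l 16739744) (l 16739304))) (a (l 16739584) (l 16738632))) (c (a (l 16739104) (c (l 16738432) (l 16737944))) (a (l 16738088) (l 16737216))))))), by decide +kernel⟩

def k27_pm_102 : ∃ t, chk3 f_pm_102 t 62 37 1 = true :=
  ⟨(a (c (b (c (a (l 16758256) (b (l 16756888) (l 16755352))) (a (l 16755552) (l 16758648))) (c (a (l 16755272) (l 16758328)) (a (l 16752248) (l 16750080)))) (b (a (c (l 16752920) (l 16750352)) (c (l 16750776) (l 16748216))) (a (c (l 16749304) (l 16746440)) (c (l 16747152) (l 16744288))))) (c (b (b (c (a (l 16754608) (c (l 16752840) (l 16751552))) (a (l 16752016) (l 16749640))) (c (a (l 16753056) (l 16750632)) (a (l 16750312) (l 16747928)))) (c (a (c (l 16751528) (l 16750032)) (c (l 16751712) (l 16747608))) (a (b (l 16748648) (l 16747016)) (c (l 16746144) (l 16744688))))) (b (a (c (b (l 16749480) (l 16747632)) (l 16745984)) (c (b (l 16747136)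 (l 16745280)) (b (l 16744672) (l 16742680)))) (a (c (l 16744896) (l 16742056)) (c (b (l 16743456) (l 16741672)) (l 16739720)))))), by decide +kernel⟩

def k28_pm_102 : ∃ t, chk3 f_pm_102 t 126 74 2 = true :=
  ⟨(a (a (c (c (l 16750152) (l 16748840)) (l 16746896)) (c (c (l 16748832) (l 16747536)) (c (l 16746256) (l 16744984)))) (c (b (c (a (l 16748280) (c (l 16747488) (l 16746880))) (a (l 16747040) (l 16745960))) (c (a (a (l 16747072) (l 16746376)) (c (l 16746120) (l 16745472))) (a (l 16745360) (l 16744504)))) (b (a (l 16745192) (c (l 16744744) (l 16743536))) (c (a (l 16744056) (l 16743224)) (a (l 16742760) (l 16741944)))))), by decide +kernel⟩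

def k29_pm_102 : ∃ t, chk3 f_pm_102 t 127 74 4 = true :=
  ⟨(a (b (c (a (c (l 16746584) (l 16745984)) (c (l 16745672) (l 16745096))) (a (l 16745096) (c (l 16744528) (l 16743952)))) (c (a (c (l 16745360) (l 16744736)) (b (l 16744616) (c (l 16744384) (l 16743760)))) (a (b (l 16744136) (l 16743512)) (b (l 16743408) (l 16742832))))) (b (c (a (c (b (l 16744840) (l 16744496)) (b (l 16744304) (l 16743936))) (a (c (b (l 16743992) (l 16743688)) (l 16743304)) (c (b (l 16743416) (c (l 16743264) (l 16743000))) (b (l 16742912) (l 16742600))))) (a (c (b (l 16743768) (l 16743376)) (l 16743008)) (a (c (l 16742776) (l 16742240)) (c (b (l 16742408) (l 16742072)) (b (l 16741896) (l 16741544)))))) (c (a (b (c (l 16744096) (l 16743512)) (c (a (l 16743816) (l 16743424)) (a (l 16743208) (l 16742824)))) (b (c (a (l 16743408) (c (l 16743024) (l 16742752))) (a (l 16742840) (c (l 16742472) (l 16742192)))) (c (a (c (l 16743168) (l 16742872)) (c (b (l 16742848) (l 16742672)) (b (l 16742560) (l 16742384)))) (a (l 16742432)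 (b (l 16742136) (c (l 16742088) (l 16741800))))))) (a (b (c (l 16742928) (l 16742344)) (c (l 16742416) (l 16741816))) (b (c (a (l 16742272) (l 16741784)) (a (l 16741704) (l 16741224))) (c (a (l 16741848) (b (l 16741560) (l 16741360))) (a (l 16741264) (b (l 16740992) (l 16740784))))))))), by decide +kernel⟩

def k30_pm_102 : ∃ t, chk3 f_pm_102 t 127 74 5 = true :=
  ⟨(a (b (c (a (l 16743912) (l 16743096)) (a (l 16742736) (l 16741960))) (c (a (l 16742544) (b (l 16742208) (l 16741600))) (a (l 16741296) (b (l 16741016) (l 16740368))))) (b (c (a (c (l 16742464) (l 16741912)) (a (a (l 16741568) (l 16741320)) (c (l 16741192) (l 16740672)))) (a (c (l 16741360) (l 16740816)) (a (l 16740376) (b (l 16740120) (l 16739680))))) (c (a (b (l 16741472) (c (l 16741216) (l 16740616))) (a (b (l 16740856) (c (l 16740672) (l 16740088))) (b (c (l 16740672) (l 16740120)) (c (b (l 16740416) (l 16740200)) (l 16739712))))) (a (b (l 16740312) (l 16739720)) (a (b (l 16739720) (l 16739208)) (b (l 16739608) (b (l 16738984)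 (l 16738744)))))))), by decide +kernel⟩

def k31_pm_102 : ∃ t, chk3 f_pm_102 t 126 75 2 = true :=
  ⟨(b (a (c (c (l 16747256) (l 16745848)) (c (l 16744440) (l 16743048))) (c (c (a (c (l 16745640) (l 16744944)) (l 16744520)) (a (l 16743904) (l 16743160))) (c (a (l 16742528) (l 16741808)) (a (l 16741160) (l 16740472))))) (a (c (c (l 16745824) (l 16744328)) (l 16743424)) (a (c (c (l 16744040) (l 16742584)) (l 16740408)) (c (c (l 16743312) (l 16741888)) (c (l 16740472) (l 16739064)))))), by decide +kernel⟩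

def k32_pm_102 : ∃ t, chk3 f_pm_102 t 127 75 4 = true :=
  ⟨(a (b (b (c (a (l 16744192) (c (l 16743824) (l 16743184))) (a (l 16742888) (l 16742232))) (c (a (l 16743576) (l 16742888)) (a (l 16742240) (l 16741584)))) (b (c (a (l 16742976) (l 16742288)) (a (l 16741608) (l 16740960))) (c (a (l 16742392) (l 16741704)) (a (l 16741000) (l 16740352))))) (b (c (a (b (c (a (l 16743272) (l 16742896)) (a (l 16742648) (l 16742280))) (c (a (l 16742664) (l 16742280)) (l 16741840))) (b (c (a (c (l 16742656) (l 16742360)) (c (b (l 16742424) (l 16742120)) (b (l 16742128) (l 16741824)))) (a (l 16741904) (c (b (l 16741840) (l 16741528)) (b (l 16741544) (l 16741232))))) (c (a (l 16741896) (c (b (l 16741824) (l 14)) (b (l 16741520) (l 16741224)))) (a (l 16741280) (a (l 16740992) (b (l 16740976) (l 16740672))))))) (a (b (c (l 16741856) (l 16741240)) (c (l 16741216) (l 16740584))) (b (c (a (l 16741304) (b (l 16741096) (l 16740784))) (a (l 16740704) (c (l 16740480) (l 16740184)))) (c (a (l 16740664) (b (l 16740472) (l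 16740160))) (a (l 16740048) (c (l 16739832) (l 16739536))))))) (c (a (c (b (a (l 16742072) (l 16741696)) (l 14)) (b (l 16741240) (l 16740656))) (b (c (b (a (l 16741480) (c (l 14) (l 16740928))) (l 14)) (a (l 16740680) (a (l 16740392) (b (l 16740376) (l 16740080))))) (c (l 14) (a (l 16740088) (a (l 16739800) (b (l 16739784) (l 16739488))))))) (a (c (b (l 16740600) (l 16740000)) (b (l 16739960) (l 16739344))) (b (c (a (l 16740056) (b (l 16739856) (l 16739552))) (a (l 16739424) (c (l 16739216) (l 16738904)))) (c (a (l 16739456) (a (l 16739176) (b (l 16739160) (l 16738864)))) (a (l 16738816) (c (l 16738608) (l 16738296))))))))), by decide +kernel⟩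

def k33_pm_102 : ∃ t, chk3 f_pm_102 t 127 75 5 = true :=
  ⟨(a (b (c (a (l 16741216) (b (l 16740968) (l 16740296))) (a (l 16739912) (b (l 16739704) (l 16739000)))) (c (a (l 16739880) (c (l 16739584) (l 16738920))) (a (l 16738512) (l 16737920)))) (b (c (a (b (c (l 16740624) (l 16740008)) (c (l 16739952) (l 16739328))) (b (c (a (l 16740096) (c (l 16739888) (l 16739592))) (a (l 16739496) (l 16739144))) (c (a (l 16739440) (l 16739080)) (a (l 16738824) (l 16738472))))) (a (b (l 16739080) (l 16738384)) (a (b (l 16738592) (l 16737896)) (b (c (l 16738552) (l 16737960)) (c (l 16737872) (l 16737264)))))) (c (a (a (l 16738760) (b (l 16738824) (l 16738192))) (b (c (a (l 16738800) (c (l 16738600) (l 16738288))) (a (l 16738176) (l 16737824))) (c (a (l 16738176) (c (l 16737976) (l 16737664))) (a (l 16737536) (l 16737192))))) (a (b (l 16737712) (l 16737048)) (b (a (l 16737232) (c (l 16737208) (l 16736592))) (a (l 16736576) (c (l 16736560) (l 16735928)))))))), by decide +kernel⟩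

def k34_pm_102 : ∃ t, chk3 f_pm_102 t 63 74 3 = true :=
  ⟨(a (a (c (b (l 16744672) (l 16742808)) (b (l 16742248) (l 16740240))) (a (c (b (l 16742752) (l 16740840)) (b (l 16740352) (l 16738304))) (c (b (l 16741736) (l 16740048)) (b (l 16739360) (l 16737544))))) (a (a (c (b (c (l 16741568) (l 16740400)) (c (l 16740056) (l 16738824))) (b (l 16738664) (l 16736992))) (c (b (c (l 16740816) (l 16739688)) (c (l 16740752) (l 16738232))) (b (c (l 16738552) (l 16737424)) (c (l 16737032) (l 16735832))))) (c (b (c (a (c (l 16740264) (l 16739712)) (a (l 16739312) (a (l 16738968) (l 16738736)))) (a (l 16738896) (c (l 16738296) (l 16737760)))) (c (a (b (l 16739152) (l 16738520)) (b (c (l 16738656) (l 16738096)) (c (a (l 16738328) (l 16737976)) (l 16737568)))) (a (b (l 16737992) (l 16737328)) (b (l 16737256) (c (l 16736984) (l 16736400)))))) (b (c (a (l 16737792) (c (l 16737232) (l 16736704))) (a (l 16736696) (l 16735912))) (a (c (b (l 16736832) (l 16736128)) (b (l 16735672) (l 16734936))) (c (b (l 16736128)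 (c (l 16735816) (l 16735232))) (b (l 16735000) (l 16734352)))))))), by decide +kernel⟩

def k35_pm_102 : ∃ t, chk3 f_pm_102 t 63 75 3 = true :=
  ⟨(a (a (c (b (l 16740984) (l 16739208)) (b (l 16738280) (l 16736352))) (a (c (b (l 16739128) (l 16737552)) (b (l 16736456) (l 16734736))) (c (b (l 16738472) (l 16736968)) (b (l 16735840) (l 16734208))))) (b (a (a (c (c (l 16738608) (l 16737312)) (l 16735376)) (c (c (l 16738040) (l 16736776)) (c (l 16735512) (l 16734248)))) (c (c (a (b (l 16737856) (l 16737128)) (b (c (a (l 16737688) (l 16737368)) (l 16736928)) (c (l 16736816) (l 16736208)))) (a (b (l 16736632) (l 16735872)) (b (c (l 16736336) (l 16735736)) (c (l 16735592) (l 16734984))))) (c (a (b (l 16735400) (l 16734624)) (b (l 16734832) (l 16734064))) (a (b (l 16734176) (l 16733368)) (b (l 16733632) (l 16732840)))))) (a (a (c (c (l 16737144) (l 16735784)) (l 16733760)) (c (c (l 16736592) (l 16735264)) (c (l 16733944) (l 16732624)))) (c (c (a (b (l 16736432) (l 16735736)) (a (b (l 16735976) (l 16735296))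 (b (l 16735664) (a (l 16735064) (l 16734904))))) (a (b (l 16735144) (l 16734432)) (b (c (l 16734888) (l 16734264)) (c (l 16734184) (l 16733552))))) (a (c (l 16733416) (l 16732128)) (c (b (l 16733320) (l 16732592)) (b (l 16732072) (l 16731312)))))))), by decide +kernel⟩

def k36_pm_102 : ∃ t, chk3 f_pm_102 t 62 38 1 = true :=
  ⟨(c (a (c (b (a (l 16752408) (l 16750224)) (a (l 16749736) (l 16747576))) (b (a (l 16749064) (l 16746904)) (a (l 16746056) (l 16743920)))) (c (b (a (c (l 16748760) (l 16747096)) (c (l 16746320) (l 16744680))) (a (l 16745296) (c (l 16743800) (l 16741992)))) (b (a (l 16749872) (c (l 16743056) (l 16741448))) (a (l 16741672) (c (l 16740208) (l 16738440)))))) (a (b (c (a (l 16745800) (l 16743656)) (a (l 16742616) (l 16740480))) (c (a (l 16742464) (l 16740344)) (a (l 16738960) (l 16736856)))) (b (c (a (l 16741408) (b (l 16739936) (l 16738248))) (a (l 16738256) (l 16735944))) (c (a (l 16738128) (l 16735816)) (a (l 16734664) (l 16732376)))))), by decide +kernel⟩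

def k37_pm_102 : ∃ t, chk3 f_pm_102 t 126 76 2 = true :=
  ⟨(a (c (c (a (l 16744408) (b (l 16743736) (l 14))) (b (l 16742816) (l 16741432))) (a (l 16740392) (b (l 16739864) (l 16738432)))) (c (b (c (a (l 16742856) (l 16742168)) (a (l 16741320) (l 16740680))) (c (l 14) (a (l 16740136) (l 16739536)))) (b (c (a (l 16739800) (l 16739200)) (l 16738048)) (c (a (l 16738544) (l 16737992)) (l 16736720))))), by decide +kernel⟩

def k38_pm_102 : ∃ t, chk3 f_pm_102 t 127 76 4 = true :=
  ⟨(a (b (c (b (a (l 16741824) (l 16741136)) (l 14)) (a (l 16740056) (c (l 16739744) (l 16739048)))) (c (l 14) (a (l 16738912) (c (l 16738616) (l 16737888))))) (b (b (c (c (l 14) (a (l 16740072) (a (l 16739512) (c (l 14) (b (l 16739136) (l 14)))))) (a (c (l 16739408) (l 16738736)) (c (a (l 16738864) (a (l 16738584) (b (l 16738568) (l 16738272)))) (a (l 16738208) (b (l 16738024) (l 16737720)))))) (c (l 14) (a (c (l 16738824) (l 16738144)) (c (a (l 16738280) (a (l 16738000) (b (l 16737984) (l 16737696)))) (a (l 16737616) (b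 (l 16737424) (l 16737136))))))) (c (l 14) (a (c (b (l 16738256) (l 14)) (b (l 16737560) (l 16736992))) (b (c (a (l 16737712) (c (l 14) (b (l 16737336) (l 14)))) (a (l 16737032) (a (l 16736768) (b (l 16736752) (l 16736464))))) (c (l 14) (a (l 16736464) (a (l 16736192) (b (l 16736176) (l 16735888)))))))))), by decide +kernel⟩

def k39_pm_102 : ∃ t, chk3 f_pm_102 t 127 76 5 = true :=
  ⟨(a (b (c (a (l 16738616) (c (l 16738352) (l 16737656))) (a (l 16737184) (l 16736608))) (c (a (l 16737416) (c (l 16737160) (l 16736440))) (a (l 16735920) (l 16735352)))) (b (c (a (a (l 16737512) (b (l 16737568) (l 16736952))) (b (c (a (l 16737560) (c (l 16737368) (l 16737048))) (a (l 16736904) (l 16736568))) (c (a (l 16736952) (c (l 16736768) (l 16736440))) (a (l 16736288) (c (l 16736112) (l 16735784)))))) (a (b (l 16736400) (l 16735760)) (b (a (l 16735928) (c (l 16735920) (l 16735280))) (a (l 16735288) (c (l 16735296) (l 16734640)))))) (c (a (b (c (l 16736864) (l 16736168)) (c (l 16736280) (l 16735576))) (b (c (a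 (l 16736360) (c (l 16736176) (l 16735840))) (a (l 16735680) (c (l 16735512) (l 16735176)))) (c (a (l 16735776) (b (l 16735592) (l 16735304))) (a (l 16735088) (c (l 16734920) (l 16734576)))))) (a (b (l 16735128) (l 16734512)) (b (a (l 16734664) (c (l 16734680) (l 16734008))) (c (a (l 16734392) (c (l 16734240) (l 16733896))) (a (l 16733704) (l 16733392)))))))), by decide +kernel⟩

def k40_pm_102 : ∃ t, chk3 f_pm_102 t 63 76 3 = true :=
  ⟨(a (b (c (a (l 16737424) (c (l 16736560) (l 16735088))) (a (l 16734424) (c (l 16733632) (l 16732176)))) (c (a (l 16735776) (c (l 16735168) (l 16733632))) (a (l 16732616) (c (l 16732104) (l 16730584))))) (a (a (c (b (c (l 16735760) (l 16734344)) (c (l 16734432) (l 16732952))) (b (l 16732224) (l 16730744))) (c (b (c (l 16735224) (l 16733840)) (c (l 16733904) (l 16732464))) (b (c (l 16732456) (l 16731080)) (c (l 16731032) (l 16729592))))) (c (b (c (a (b (l 16735064) (l 16734392)) (c (a (l 16734528) (b (l 16734640) (l 16733984))) (b (l 16734144) (l 16733480)))) (a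 (b (l 16733728) (l 16733032)) (b (c (l 16733496) (l 16732848)) (c (l 16732816) (l 16732152))))) (c (a (b (l 16733736) (l 16733096)) (a (b (l 16733304) (l 16732664)) (b (c (l 16733344) (l 16732672)) (c (l 16732712) (l 16732032))))) (a (b (l 16732352) (l 16731680)) (b (c (l 16732152) (l 16731472)) (c (l 16731488) (l 16730808)))))) (b (a (c (l 16731960) (l 16730616)) (c (b (l 16731872) (l 16731160)) (b (l 16730568) (l 16729832)))) (c (a (b (l 16730960) (l 16730272)) (b (l 16730464) (c (l 16730120) (l 16729432)))) (a (l 16729152) (b (l 16729112) (l 16728392)))))))), by decide +kernel⟩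

def k41_pm_102 : ∃ t, chk3 f_pm_102 t 63 77 2 = true :=
  ⟨(a (a (a (c (c (l 16741856) (l 16740072)) (b (l 16738200) (l 16736784))) (c (c (l 14) (b (l 16739736) (l 14))) (c (l 16737472) (l 16735752)))) (c (c (l 14) (b (a (l 16739064) (l 16738464)) (l 14))) (b (c (a (l 16737408) (l 16736856)) (l 16735512)) (c (a (l 16736328) (l 16735768)) (l 16734368))))) (c (b (b (c (l 14) (c (l 14) (b (a (l 16737592) (a (l 16736592) (a (l 16736064) (c (l 14) (l 16735528))))) (l 14)))) (l 14)) (l 14)) (a (b (c (a (l 16736272) (c (l 16736032) (l 16735280))) (a (l 16734720) (l 16734152))) (c (a (l 16735184) (c (l 16734944) (l 16734168))) (a (l 16733568) (c (l 16733384) (l 16732608))))) (b (c (a (c (b (l 16735712) (l 16735152)) (b (l 16734992) (l 16734424))) (b (c (a (l 16735200) (b (l 16735016) (l 16734728))) (a (l 16734504) (c (l 16734336) (l 16733992)))) (c (a (l 16734640) (a (l 16734376) (b (l 16734360) (l 16734080)))) (a (l 16733928) (c (l 16733760) (l 16733408)))))) (b (a (l 16733912) (c (a (l 16733800) (c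 (l 16733648) (l 16733296))) (a (l 16733096) (l 16732784)))) (a (l 16733320) (c (a (l 16733208) (c (l 16733064) (l 16732712))) (a (l 16732496) (l 16732184)))))) (c (a (c (b (l 16734608) (l 14)) (b (l 16733856) (l 16733312))) (c (b (a (l 16734088) (c (l 14) (b (l 16733712) (l 14)))) (l 14)) (b (a (l 16733360) (b (l 16733184) (l 16732904))) (a (l 16732808) (b (l 16732624) (l 16732352)))))) (a (a (l 16732552) (b (l 16732584) (l 16732016))) (b (c (a (l 16732640) (c (l 16732488) (l 16732128))) (a (l 16731912) (l 16731592))) (c (a (l 16732072) (c (l 16731928) (l 16731560))) (a (l 16731336) (c (l 16731200) (l 16730832))))))))))), by decide +kernel⟩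

def k42_pm_102 : ∃ t, chk3 f_pm_102 t 63 77 3 = true :=
  ⟨(a (a (c (b (l 16736912) (c (l 16733808) (l 16732064))) (b (l 16730984) (l 16729472))) (c (b (c (l 16733904) (l 16732296)) (c (l 16732696) (l 16731032))) (b (l 16735160) (l 16728552)))) (a (a (c (b (c (l 16733176) (l 16731632)) (c (l 16731968) (l 16730368))) (b (l 16729336) (l 16727976))) (c (b (c (l 16732648) (l 16731152)) (c (l 16731440) (l 16729888))) (b (c (l 16729656) (l 16728168)) (c (l 16728344) (l 16726792))))) (c (b (c (a (b (l 16732472) (l 16731848)) (a (b (l 16732040) (l 16731424)) (c (b (l 16732088) (l 16731480)) (b (l 16731400) (l 16730776))))) (a (b (l 16731024) (l 16730384)) (b (c (l 16730848) (l 16730144)) (c (l 16730208) (l 16729496))))) (b (c (a (l 16731248) (a (l 16730816) (c (l 16730880) (l 16730160)))) (a (l 16729752) (c (l 16729584) (l 16728864)))) (c (a (l 16730648) (a (l 16730224) (c (l 16730288) (l 16729560)))) (a (l 16729128) (c (a (l 16729112) (l 16728832)) (l 16728232)))))) (b (c (a (l 16729192) (a (l 16728816)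 (b (l 16728968) (l 16728304)))) (a (l 16727736) (b (l 16727696) (l 16727000)))) (c (a (l 16727880) (a (l 16727512) (b (l 16727648) (l 16727008)))) (a (l 16726368) (b (l 16726320) (l 16725656)))))))), by decide +kernel⟩

def k43_pm_102 : ∃ t, chk3 f_pm_102 t 62 39 1 = true :=
  ⟨(a (c (c (b (a (l 16766072) (l 16747280)) (a (l 16848168) (l 16783264))) (b (a (l 16743240) (l 16741144)) (a (l 16740616) (l 16738576)))) (b (c (a (l 16739320) (l 16737240)) (a (l 16735488) (l 16733424))) (c (l 16740592) (l 16731192)))) (c (b (c (a (l 16743512) (c (l 16741416) (l 16739568))) (a (l 16738944) (c (l 16737616) (l 16735680)))) (c (a (l 16739752) (a (l 16741512) (b (l 16733960) (l 16733256)))) (a (l 16736440) (b (l 16740000) (l 16736336))))) (b (c (a (l 16735064) (c (l 16733760) (l 16731864))) (a (l 16731272) (l 16729048))) (a (c (l 16732224) (l 16728088)) (c (a (l 16730584) (l 16729616)) (a (l 16726472) (l 16725544))))))), by decide +kernel⟩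

def k44_pm_102 : ∃ t, chk3 f_pm_102 t 126 39 1 = true :=
  ⟨(c (a (a (c (b (c (l 16739888) (l 16737944)) (c (l 16739480) (l 16736192))) (b (c (l 16736024) (l 16734120)) (c (l 16734120) (l 16732072)))) (c (l 14) (b (c (l 16735320) (l 16733456)) (c (l 14) (l 16731528))))) (c (l 14) (b (b (c (a (l 16735312) (l 16734744)) (l 16733288)) (c (l 14) (l 16732256))) (c (l 14) (b (l 16731272) (l 14)))))) (b (c (a (b (c (l 16732592) (l 16730776)) (c (l 16731448) (l 16729552))) (b (c (l 16731544) (l 16729816)) (c (l 16730448) (l 16728656)))) (a (b (l 16728072) (l 16726752)) (b (c (l 16728096) (l 16726392)) (c (l 16726880) (l 16725104))))) (c (a (b (l 16729352) (l 16728344)) (b (c (l 16729408) (l 16727560)) (c (l 16728424) (l 16726512)))) (a (b (l 16725464) (l 16724328)) (b (c (l 16725712) (l 16723880)) (c (l 16724608) (l 16722712))))))), by decide +kernel⟩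

def k45_pm_102 : ∃ t, chk3 f_pm_102 t 127 39 2 = true :=
  ⟨(b (c (l 14) (a (b (c (a (l 16734144) (c (l 14) (l 16733104))) (a (l 16732472) (c (l 16732296) (l 16731488)))) (c (l 14) (a (l 16731424) (c (l 16731256) (l 16730424))))) (b (b (c (c (l 14) (a (l 16732776) (a (l 16732272) (c (l 14) (b (l 16731896) (l 14)))))) (a (c (l 16732000) (l 16731224)) (c (a (l 16731520) (c (l 16731368) (l 16731000))) (a (l 16730768) (c (l 16730632) (l 16730264)))))) (c (l 14) (a (c (l 16731464) (l 16730672)) (c (a (l 16730976) (b (l 16730792) (l 16730520))) (a (l 16730208) (c (l 16730080) (l 16729704))))))) (c (l 14) (a (c (b (l 16730936) (l 14)) (b (l 16730136) (l 16729608))) (c (b (a (l 16730440) (b (l 16730256) (l 14))) (l 14)) (b (a (l 16729664) (c (l 16729536) (l 16729152))) (a (l 16729136) (c (l 16729000) (l 16728616)))))))))) (b (b (b (c (l 14) (c (l 14) (a (l 16730560) (a (l 16729640) (c (l 14) (a (l 16728752) (l 16728432))))))) (l 14)) (l 14)) (l 14))), by decide +kernel⟩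

def k46_pm_102 : ∃ t, chk3 f_pm_102 t 127 78 3 = true :=
  ⟨(a (a (c (c (b (l 16730808) (l 16729704)) (b (l 16729152) (l 16727992))) (b (l 16726680) (l 16725432))) (c (b (c (l 16730280) (l 16728672)) (c (l 16729176) (l 16727512))) (b (c (l 16727072) (l 16725472)) (c (l 16725848) (l 16724192))))) (c (b (b (c (a (l 16730072) (a (l 16729640) (c (l 16729712) (l 16728968)))) (a (l 16728520) (c (a (l 16728504) (l 16728232)) (l 16727624)))) (c (a (l 16729496) (a (l 16729064) (c (l 16729144) (l 16728392)))) (a (l 16727928) (c (a (l 16727912) (l 16727632)) (l 16727016))))) (b (c (a (l 16728936) (c (a (l 16728888) (c (l 16728776) (l 16728392))) (a (l 16728112) (l 16727816)))) (a (l 16727336) (a (l 16726944) (b (l 16726832) (l 16726536))))) (c (a (l 16728384) (c (a (l 16728344) (c (l 16728232) (l 16727840))) (a (l 16727552) (l 16727256)))) (a (l 16726768) (a (l 16726368) (c (l 16726480) (l 16725704))))))) (b (c (a (b (l 16726976) (l 16726352)) (b (c (l 16726872) (l 16726120)) (c (l 16726256) (l 16725488))))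 (a (l 16725056) (b (l 16724992) (l 16724344)))) (c (a (b (l 16725744) (l 16725144)) (b (c (l 16725648) (l 16724872)) (c (l 16725056) (l 16724264)))) (a (l 16723784) (b (l 16723712) (c (l 16723480) (l 16722688)))))))), by decide +kernel⟩

def k47_pm_102 : ∃ t, chk3 f_pm_102 t 127 79 3 = true :=
  ⟨(a (a (c (c (b (l 16728656) (l 16727648)) (b (l 16726880) (l 16725824))) (b (l 16724232) (l 16725712))) (c (c (b (l 16728112) (l 16727096)) (b (l 16726392) (l 16725328))) (b (c (l 16724680) (l 16722968)) (c (l 16723560) (l 16721792))))) (c (b (b (c (a (l 16727848) (c (a (l 16727808) (c (l 16727696) (l 16727304))) (a (l 16727008) (l 16726712)))) (a (l 16726200) (a (l 16725800) (c (l 16725920) (l 16725136))))) (c (a (c (l 16727744) (l 16726904)) (c (a (l 16727288) (c (l 16727176) (l 16726776))) (a (l 16726472) (c (l 16726376) (l 16725976))))) (a (l 16725648) (a (l 16725248) (c (l 16725376) (l 16724568)))))) (b (c (a (c (l 16727232) (l 16726384)) (c (a (l 16726776) (c (l 14) (l 16726256))) (a (l 16725944)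 (c (l 16725848) (l 16725440))))) (a (l 16725112) (a (l 16724704) (c (l 16724832) (l 16724024))))) (c (c (l 14) (a (l 16725880) (a (l 16725432) (c (l 16725336) (l 16724928))))) (a (l 16724584) (a (l 16724176) (c (l 16724304) (l 16723480))))))) (b (c (a (c (l 16724632) (l 16723800)) (b (c (l 16724472) (l 16723672)) (c (l 16723896) (l 16723088)))) (a (l 16722560) (a (l 16722232) (b (l 16722360) (l 16721752))))) (c (a (c (l 16723520) (l 16722664)) (c (a (l 16723144) (b (l 16723208) (l 16722656))) (b (l 16722512) (l 16721952)))) (a (l 16722688) (a (l 16722360) (b (l 16721160) (l 16720576)))))))), by decide +kernel⟩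

def k48_pm_102 : ∃ t, chk3 f_pm_102 t 14 40 1 = true :=
  ⟨(a (a (b (c (l 16900400) (l 16851224)) (c (l 16925312) (l 16871216))) (b (c (l 16919584) (l 16852448)) (c (l 16946032) (l 16873968)))) (a (c (b (l 16935528) (l 16963720)) (a (l 16859000) (b (l 16840352) (l 16864944)))) (c (a (b (l 16942360) (l 16972608)) (b (l 16943064) (l 16975296))) (a (b (l 16828592) (l 16855384)) (b (l 16811264) (l 16840984)))))), by decide +kernel⟩

def k49_pm_102 : ∃ t, chk3 f_pm_102 t 30 40 1 = true :=
  ⟨(a (c (a (b (l 16918544) (l 16974432)) (c (l 16993376) (b (l 16886568) (l 16925136)))) (a (b (l 16786920) (l 16799560)) (b (l 16743184) (c (l 16836896) (l 16747752))))) (c (c (a (b (l 16964696) (l 17007416)) (b (l 16905104) (l 16995560))) (a (b (l 16842224) (l 16907072)) (a (l 16742896) (l 16744432)))) (a (b (c (l 16760736) (l 16735256)) (c (l 16805760) (l 16731976))) (b (c (l 16736328) (l 16731808)) (c (l 16721600) (l 16728712)))))), by decide +kernel⟩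

def k50_pm_102 : ∃ t, chk3 f_pm_102 t 62 40 1 = true :=
  ⟨(a (c (c (b (a (l 16926792) (l 16888184)) (a (l 16980920) (l 16967800))) (b (a (l 16794624) (l 16766424)) (a (l 16852432) (l 16787768)))) (b (c (l 16732616) (l 16728104)) (c (l 16730080) (l 16725208)))) (c (c (b (a (c (l 16925976) (l 16828200)) (a (c (l 16909280) (l 16806856)) (c (l 16875904) (l 16749288)))) (a (c (l 16988464) (l 16914528)) (c (l 16971656) (b (l 16874752) (l 16909136))))) (b (a (l 16734200) (c (l 16736864) (l 16736576))) (a (c (l 16735416) (l 16723760)) (b (l 16732616) (l 16727648))))) (b (c (a (l 16729616) (b (l 16728416) (l 16727488))) (a (l 16725136) (b (l 16724088) (l 16723008)))) (c (a (b (l 16727808) (l 16726856)) (b (l 16726600) (l 16725808))) (a (l 16727752) (b (l 16721984) (l 16721072))))))), by decide +kernel⟩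

def k51_pm_102 : ∃ t, chk3 f_pm_102 t 63 40 2 = true :=
  ⟨(a (a (a (a (c (b (c (l 16886760) (l 16778608)) (c (l 16959208) (l 16876000))) (b (l 16731592) (l 16729616))) (l 14)) (l 14)) (l 14)) (l 14)), by decide +kernel⟩

def k52_pm_102 : ∃ t, chk3 f_pm_102 t 126 40 3 = true :=
  ⟨(b (b (c (a (l 16727408) (c (l 16727488) (l 16725520))) (a (l 16723264) (c (l 16723552) (l 16721600)))) (c (a (l 16726520) (c (l 14) (l 16724576))) (a (l 16722256) (c (l 16722552) (l 16720544))))) (c (a (b (l 16725688) (l 16724912)) (b (c (l 14) (l 16723688)) (l 14))) (a (b (l 16721304) (l 16720400)) (b (c (l 16721608) (l 16719536)) (c (l 16720712) (l 16718584)))))), by decide +kernel⟩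

def k53_pm_102 : ∃ t, chk3 f_pm_102 t 127 80 3 = true :=
  ⟨(a (c (b (c (a (l 16726696) (l 16726128)) (a (l 16724808) (l 16724304))) (c (l 14) (a (l 16723848) (l 16723336)))) (b (c (a (l 16722928) (l 16722488)) (a (l 16721056) (l 16720664))) (c (a (l 16721920) (l 16721464)) (a (l 16719984) (l 16719592))))) (c (a (a (c (b (l 16725688) (l 14)) (b (l 16723912) (l 16722936))) (c (b (c (l 14) (l 16724952)) (l 14)) (b (c (l 16724080) (l 16723200)) (c (l 16723104) (l 16722208))))) (b (c (c (l 14) (b (a (l 16724936) (c (l 14) (l 16724416))) (l 14))) (c (b (a (l 16724080) (c (l 16724000) (l 16723584))) (a (l 16723576) (c (l 16723496) (l 16723072)))) (b (a (l 16723232) (l 16722952)) (a (l 16722712) (l 16722432))))) (c (l 14) (c (b (a (l 16723088) (c (l 14) (l 16722576))) (l 14)) (b (a (l 16722208) (c (l 16722144) (l 16721712))) (a (l 16721720) (c (l 16721656) (l 16721216)))))))) (b (c (a (c (l 16722456) (l 16721568)) (a (c (l 16722072) (l 16721208)) (c (b (l 16722112) (l 16721584)) (b (l 16721272) (l 16720736)))))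 (a (c (l 16720688) (l 16719808)) (b (c (l 16720552) (l 16719696)) (c (l 16720000) (l 16719136))))) (c (a (c (l 16721432) (l 16720528)) (a (b (l 16720896) (l 16720384)) (c (b (l 16721064) (l 16720560)) (b (l 16720200) (l 16719688))))) (a (c (l 16719616) (l 16718712)) (b (c (l 16719456) (l 16718584)) (c (a (l 16719040) (l 16718808)) (l 16718040)))))))), by decide +kernel⟩

def k54_pm_102 : ∃ t, chk3 f_pm_102 t 127 81 3 = true :=
  ⟨(a (c (b (c (l 14) (a (l 16722944) (l 16722416))) (l 14)) (b (c (a (l 16720952) (l 16720488)) (a (l 16718968) (l 16718560))) (c (a (l 16720040) (l 16719560)) (a (l 16718000) (l 16717584))))) (c (c (l 14) (c (l 14) (c (l 14) (b (a (l 16721160) (b (a (l 16721016) (l 16720728)) (l 14))) (l 14))))) (b (b (c (a (l 16720264) (a (l 16719888) (c (l 16720064) (l 16719176)))) (a (l 16718408) (c (a (l 16718528) (l 16718288)) (l 16717512)))) (c (a (l 16719784) (a (l 16719400) (c (c (l 16719808) (l 16719360)) (l 16718680)))) (a (l 16717904) (c (a (l 16718024) (l 16717776)) (l 16716992)))))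 (b (c (a (l 16719312) (a (l 16720232) (c (c (l 14) (l 16718880)) (l 16718200)))) (a (l 16717408) (a (l 16717064) (c (l 16717280) (l 16716368))))) (c (a (l 16718856) (c (l 14) (a (l 16717984) (c (l 16717952) (l 16717496))))) (a (l 16716920) (a (l 16716576) (c (l 16716800) (l 16715872))))))))), by decide +kernel⟩

def k55_pm_102 : ∃ t, chk3 f_pm_102 t 7 82 1 = true :=
  ⟨(a (a (a (c (l 16950856) (l 16892280)) (c (l 16973120) (l 16896528))) (a (c (l 16992016) (l 16871880)) (c (l 17005216) (a (l 16882720) (l 16871024))))) (a (c (a (c (l 17048656) (l 16946184)) (a (c (l 17048296) (l 16949320)) (c (l 17041424) (l 16928504)))) (a (a (l 16833128) (c (l 16874896) (l 16786176))) (a (c (l 16849368) (l 16748416)) (c (l 16751592) (l 16725680))))) (a (c (c (a (a (l 17031592) (l 17022296)) (a (l 16989688) (c (l 17034072) (l 16957896)))) (a (a (l 16906752) (b (l 16874400) (l 16902864))) (a (b (l 16789088) (l 16862112)) (b (l 16721112) (c (l 16897808) (l 16821832)))))) (a (c (a (l 16780760) (l 16732936)) (a (l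 16723296) (l 16721632))) (c (a (b (l 16726080) (l 16740280)) (b (l 16725096) (l 16724424))) (a (b (l 16721016) (l 16720184)) (b (l 16720248) (l 16719472)))))) (c (a (a (a (a (a (c (l 16986424) (l 16727872)) (l 14)) (l 14)) (l 14)) (l 14)) (l 14)) (a (c (a (b (l 16724168) (l 16723472)) (l 14)) (a (b (l 16719552) (l 16718752)) (b (c (l 16719864) (l 16717688)) (c (l 14) (l 16716840))))) (c (l 14) (a (b (c (a (l 16719176) (l 16718680)) (a (l 16717088) (l 16716656))) (c (l 14) (a (l 16716216) (l 16715784)))) (c (b (b (a (l 16718408) (c (l 14) (a (l 16717528) (c (l 14) (l 16717032))))) (l 14)) (l 14)) (b (a (b (l 16716448) (l 16715992)) (b (a (l 16716096) (c (l 16716328) (l 16715384))) (a (l 16715632) (c (c (l 16716104) (l 16715632)) (l 16714912))))) (a (b (l 16715544) (l 16715104)) (b (a (l 16715184) (c (c (l 14) (l 16715176)) (c (l 16714696) (l 16714216)))) (c (l 14) (a (l 16714248) (c (l 16714248) (l 16713760))))))))))))))), by decide +kernel⟩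

def k56_pm_102 : ∃ t, chk3 f_pm_102 t 14 83 1 = true :=
  ⟨(a (c (a (l 16978184) (l 17000656)) (a (b (l 16908880) (l 16920296)) (b (l 16913912) (l 16925704)))) (c (a (b (l 17013200) (l 17027464)) (b (l 17028048) (l 17043112))) (a (b (l 16911672) (b (l 16921128) (l 16927480))) (b (l 16857000) (b (l 16909520) (a (l 16920312) (l 16911840))))))), by decide +kernel⟩

def k57_pm_102 : ∃ t, chk3 f_pm_102 t 30 83 1 = true :=
  ⟨(a (c (b (l 17013072) (b (l 17046760) (l 17055144))) (b (a (l 16878992) (l 16858712)) (b (a (l 16891136) (l 16872320)) (a (l 16899184) (l 16860344))))) (a (c (b (l 17028880) (b (l 17043368) (l 17052896))) (b (l 16789248) (b (l 16825760) (c (l 16906328) (l 16807376))))) (c (b (l 16913880) (b (l 17013960) (c (l 17100112) (l 16990696)))) (b (l 16726472) (b (l 16726200) (c (a (l 16887592) (l 16872392)) (l 16726696))))))), by decide +kernel⟩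

def k58_pm_102 : ∃ t, chk3 f_pm_102 t 62 83 1 = true :=
  ⟨(c (b (c (a (l 17064296) (l 17046464)) (a (a (l 16945232) (l 16930464)) (a (l 16912896) (c (l 16929424) (l 16855032))))) (c (b (a (l 17082064) (l 17066768)) (a (l 17093696) (l 17079920))) (b (a (l 16957464) (a (l 16934448) (l 16894632))) (a (a (l 16976032) (l 16963368)) (a (c (l 16982456) (l 16914352)) (b (c (l 16963224) (b (b (l 16887664) (l 16889544)) (l 16892424))) (l 16934424))))))) (b (a (c (l 16727024) (l 16720760)) (c (a (l 16730872) (l 16721928)) (a (l 16719392) (l 16718736)))) (b (a (c (l 16726864) (l 16720056)) (c (a (l 16775400) (l 16726624)) (a (l 16718824) (l 16718160)))) (a (c (c (a (l 16885400) (l 16867008)) (b (a (l 16821256) (l 16798776)) (l 16817168))) (a (l 16722432) (l 16719048))) (b (b (b (c (l 16749976) (l 16718248)) (c (a (l 16722944) (l 16726208)) (a (l 16718456) (l 16717792)))) (c (l 16754880) (l 16718064))) (c (l 16760864) (l 16717984))))))), by decide +kernel⟩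

def k59_pm_102 : ∃ t, chk3 f_pm_102 t 63 83 1 = true :=
  ⟨(b (a (c (c (a (l 17026304) (c (l 17050992) (l 14))) (a (a (l 16780096) (l 14)) (l 14))) (c (a (c (l 16717160) (l 16721584)) (l 14)) (a (l 16723240) (b (l 16717360) (l 14))))) (b (c (l 14) (c (l 14) (c (l 14) (a (l 16715384) (a (l 16714680) (c (l 14) (a (l 16713816) (b (l 16713672) (l 14))))))))) (l 14))) (c (a (a (a (c (b (l 17052416) (l 17066824)) (b (l 16857368) (b (c (l 16949416) (b (b (l 16870136) (l 16872152)) (l 16875208))) (l 16919312)))) (c (b (l 17045456) (l 17060432)) (l 14))) (c (b (l 17033544) (c (l 17090296) (l 14))) (l 14))) (c (b (l 14) (c (a (l 17075504) (l 14)) (l 14))) (l 14))) (a (a (b (c (c (l 16723584) (l 16721032)) (l 16722656)) (c (b (b (b (l 16746944) (b (l 16748616) (l 16723504))) (l 16752544)) (l 16759328)) (a (a (c (l 16723752) (l 16726544)) (l 14)) (l 14)))) (l 14)) (l 14)))), by decide +kernel⟩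

def k60_pm_102 : ∃ t, chk3 f_pm_102 t 14 21 1 = true :=
  ⟨(a (a (c (l 17037624) (b (l 16947360) (l 16989752))) (c (l 17062816) (b (l 16954808) (l 17000576)))) (c (a (b (l 17061056) (l 17111400)) (b (l 17079720) (l 17134720))) (b (a (a (l 16956768) (l 16955744)) (a (l 16952384) (l 16925280))) (a (l 17007176) (l 16986296))))), by decide +kernel⟩

def k61_pm_102 : ∃ t, chk3 f_pm_102 t 30 21 1 = true :=
  ⟨(a (c (b (c (l 17132184) (l 17052144)) (l 17153904)) (b (a (c (l 16975336) (l 16897912)) (c (l 16966104) (l 16879688))) (a (l 17001096) (l 16972200)))) (c (b (a (l 17074112) (c (l 17145104) (l 17039016))) (c (l 17213328) (l 17118304))) (b (a (c (l 16952016) (l 16792480)) (c (b (l 16909248) (l 16953888)) (l 16718760))) (a (c (l 17027384) (l 16935216)) (c (l 17015968) (b (l 16892192) (l 16934672))))))), by decide +kernel⟩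

def k62_pm_102 : ∃ t, chk3 f_pm_102 t 31 21 1 = true :=
  ⟨(a (c (b (c (a (l 17143608) (l 17115392)) (a (b (l 17000760) (l 17047520)) (b (a (l 16982616) (l 16967480)) (l 17028616)))) (c (l 17224336) (a (l 17111576) (l 17100640)))) (b (a (b (c (a (l 16887064) (l 16869408)) (l 16713288)) (c (l 16929344) (l 16726160))) (a (c (b (l 16828072) (l 16905448)) (l 16719256)) (c (b (l 16720776) (l 16844432)) (b (l 16717096) (l 16749096))))) (a (c (b (l 16976736) (l 17020928)) (b (l 16819392) (l 16909304))) (c (b (a (l 16957680) (l 16942320)) (l 17000216)) (b (l 16717016) (a (l 16885536) (l 16866984))))))) (c (b (c (a (b (l 17030880) (l 17148472)) (b (a (l 17010336) (c (l 17100576) (l 14))) (c (l 17169608) (l 17086632)))) (a (b (a (c (l 16987048) (l 16911944)) (l 14)) (a (l 17008744) (l 16887392))) (b (l 14) (c (a (l 17013192) (l 14)) (l 14))))) (c (a (l 17221248) (b (l 17185072) (l 17236352))) (a (b (l 17014944) (l 17108032)) (b (a (l 16993296) (c (l 17058176) (l 14))) (a (l 17091832) (l 17078136))))))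 (b (a (a (a (a (a (c (l 16722592) (l 16716024)) (l 14)) (l 14)) (l 14)) (l 14)) (l 14)) (a (a (c (b (l 16882584) (l 16979664)) (a (l 16717216) (l 14))) (c (b (l 14) (l 16921200)) (l 14))) (c (b (l 14) (c (a (l 16981064) (l 14)) (l 14))) (l 14)))))), by decide +kernel⟩

def k63_pm_102 : ∃ t, chk3 f_pm_102 t 7 11 1 = true :=
  ⟨(a (a (b (c (l 17135360) (a (l 17050552) (l 17065600))) (c (l 17205552) (l 17132584))) (b (c (a (l 17179240) (l 17208016)) (a (l 17078144) (b (l 17061272) (l 17110952)))) (c (l 17270968) (a (l 17160296) (l 17176832))))) (a (b (c (a (l 17234944) (b (l 17229280) (l 17284792))) (a (b (l 17059936) (l 17116544)) (b (a (l 17051920) (c (l 17090424) (l 16994016))) (l 17093000)))) (c (l 17337976) (a (l 17190368) (l 17177992)))) (b (c (a (b (c (l 17295352) (l 17185928)) (l 17305096)) (b (c (l 17304536) (a (l 17176536) (b (l 17138376) (l 17186512)))) (a (l 17313832) (l 17231432)))) (a (b (a (c (l 17081600) (b (l 16954144) (l 16996024))) (c (l 17068048) (b (l 16864304) (l 16974184))))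 (a (l 17020424) (c (l 17147288) (l 17038520)))) (b (c (a (b (l 17003016) (l 17071936)) (b (a (l 16980904) (c (l 17021424) (l 14))) (a (l 17054568) (l 17040440)))) (a (b (a (l 16880912) (l 14)) (a (l 16953376) (l 16916080))) (b (l 14) (c (a (l 16952584) (l 14)) (l 14))))) (c (a (l 17136504) (b (l 17097368) (l 17142592))) (a (b (l 16973432) (l 17039456)) (b (a (l 16951240) (c (l 16989072) (l 14))) (a (l 17021400) (l 16986144)))))))) (c (a (b (l 17360024) (l 17406312)) (b (c (l 17436664) (l 17322880)) (l 17434248))) (a (b (a (l 17170824) (l 17165720)) (l 17228896)) (b (a (c (l 17211872) (l 17101616)) (c (l 17203632) (b (l 17039944) (l 17104544)))) (c (l 17276616) (a (l 17175312) (l 17164944))))))))), by decide +kernel⟩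

def k64_pm_102 : ∃ t, chk3 f_pm_102 t 3 3 1 = true :=
  ⟨(a (b (a (b (a (l 17160824) (l 17237208)) (l 17222728)) (a (b (b (l 17127616) (l 17170072)) (l 17213264)) (b (b (l 17174368) (l 17216568)) (l 17257848)))) (a (l 2) (b (l 17469816) (l 2)))) (b (a (b (a (b (l 17227312) (l 17271072)) (c (l 17352400) (b (l 17237760) (l 17289944)))) (a (l 17312320) (l 17373136))) (b (a (c (b (l 17404096) (l 17449136)) (b (l 17278848) (l 17339992))) (c (b (a (l 17461192) (l 17497464)) (l 17532640)) (b (a (l 17302840) (b (l 17243264) (l 17336408))) (a (l 17375696) (l 17396776))))) (a (b (l 17429384) (l 17448056)) (c (l 17570240) (b (l 17438280) (l 17468472)))))) (a (b (a (l 17329096) (l 17387128)) (a (l 2) (l 17365976))) (b (a (l 17452056) (l 17544760)) (a (l 17425232) (l 17488808)))))), by decide +kernel⟩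

theorem s65_pm_102 : ∃ t, chk3 f_pm_102 t 15 21 1 = true := ex3_a k61_pm_102 k62_pm_102

theorem s66_pm_102 : ∃ t, chk3 f_pm_102 t 7 21 1 = true := ex3_a k60_pm_102 s65_pm_102

theorem s67_pm_102 : ∃ t, chk3 f_pm_102 t 31 83 1 = true := ex3_a k58_pm_102 k59_pm_102

theorem s68_pm_102 : ∃ t, chk3 f_pm_102 t 15 83 1 = true := ex3_a k57_pm_102 s67_pm_102

theorem s69_pm_102 : ∃ t, chk3 f_pm_102 t 7 83 1 = true := ex3_a k56_pm_102 s68_pm_102

theorem s70_pm_102 : ∃ t, chk3 f_pm_102 t 7 41 1 = true := ex3_b k55_pm_102 s69_pm_102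

theorem s71_pm_102 : ∃ t, chk3 f_pm_102 t 127 40 3 = true := ex3_b k53_pm_102 k54_pm_102

theorem s72_pm_102 : ∃ t, chk3 f_pm_102 t 63 40 3 = true := ex3_a k52_pm_102 s71_pm_102

theorem s73_pm_102 : ∃ t, chk3 f_pm_102 t 63 40 1 = true := ex3_c k51_pm_102 s72_pm_102

theorem s74_pm_102 : ∃ t, chk3 f_pm_102 t 31 40 1 = true := ex3_a k50_pm_102 s73_pm_102

theorem s75_pm_102 : ∃ t, chk3 f_pm_102 t 15 40 1 = true := ex3_a k49_pm_102 s74_pm_102

theorem s76_pm_102 : ∃ t, chk3 f_pm_102 t 7 40 1 = true := ex3_a k48_pm_102 s75_pm_102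

theorem s77_pm_102 : ∃ t, chk3 f_pm_102 t 7 20 1 = true := ex3_b s76_pm_102 s70_pm_102

theorem s78_pm_102 : ∃ t, chk3 f_pm_102 t 7 10 1 = true := ex3_b s77_pm_102 s66_pm_102

theorem s79_pm_102 : ∃ t, chk3 f_pm_102 t 7 5 1 = true := ex3_b s78_pm_102 k63_pm_102

theorem s80_pm_102 : ∃ t, chk3 f_pm_102 t 127 39 3 = true := ex3_b k46_pm_102 k47_pm_102

theorem s81_pm_102 : ∃ t, chk3 f_pm_102 t 127 39 1 = true := ex3_c k45_pm_102 s80_pm_102

theorem s82_pm_102 : ∃ t, chk3 f_pm_102 t 63 39 1 = true := ex3_a k44_pm_102 s81_pm_102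

theorem s83_pm_102 : ∃ t, chk3 f_pm_102 t 31 39 1 = true := ex3_a k43_pm_102 s82_pm_102

theorem s84_pm_102 : ∃ t, chk3 f_pm_102 t 63 77 1 = true := ex3_c k41_pm_102 k42_pm_102

theorem s85_pm_102 : ∃ t, chk3 f_pm_102 t 127 76 2 = true := ex3_c k38_pm_102 k39_pm_102

theorem s86_pm_102 : ∃ t, chk3 f_pm_102 t 63 76 2 = true := ex3_a k37_pm_102 s85_pm_102

theorem s87_pm_102 : ∃ t, chk3 f_pm_102 t 63 76 1 = true := ex3_c s86_pm_102 k40_pm_102

theorem s88_pm_102 : ∃ t, chk3 f_pm_102 t 63 38 1 = true := ex3_b s87_pm_102 s84_pm_102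

theorem s89_pm_102 : ∃ t, chk3 f_pm_102 t 31 38 1 = true := ex3_a k36_pm_102 s88_pm_102

theorem s90_pm_102 : ∃ t, chk3 f_pm_102 t 31 19 1 = true := ex3_b s89_pm_102 s83_pm_102

theorem s91_pm_102 : ∃ t, chk3 f_pm_102 t 63 37 3 = true := ex3_b k34_pm_102 k35_pm_102

theorem s92_pm_102 : ∃ t, chk3 f_pm_102 t 127 75 2 = true := ex3_c k32_pm_102 k33_pm_102

theorem s93_pm_102 : ∃ t, chk3 f_pm_102 t 63 75 2 = true := ex3_a k31_pm_102 s92_pm_102

theorem s94_pm_102 : ∃ t, chk3 f_pm_102 t 127 74 2 = true := ex3_c k29_pm_102 k30_pm_102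

theorem s95_pm_102 : ∃ t, chk3 f_pm_102 t 63 74 2 = true := ex3_a k28_pm_102 s94_pm_102

theorem s96_pm_102 : ∃ t, chk3 f_pm_102 t 63 37 2 = true := ex3_b s95_pm_102 s93_pm_102

theorem s97_pm_102 : ∃ t, chk3 f_pm_102 t 63 37 1 = true := ex3_c s96_pm_102 s91_pm_102

theorem s98_pm_102 : ∃ t, chk3 f_pm_102 t 31 37 1 = true := ex3_a k27_pm_102 s97_pm_102

theorem s99_pm_102 : ∃ t, chk3 f_pm_102 t 127 36 2 = true := ex3_a k24_pm_102 k25_pm_102

theorem s100_pm_102 : ∃ t, chk3 f_pm_102 t 127 36 1 = true := ex3_c s99_pm_102 k26_pm_102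

theorem s101_pm_102 : ∃ t, chk3 f_pm_102 t 63 36 1 = true := ex3_a k23_pm_102 s100_pm_102

theorem s102_pm_102 : ∃ t, chk3 f_pm_102 t 31 36 1 = true := ex3_a k22_pm_102 s101_pm_102

theorem s103_pm_102 : ∃ t, chk3 f_pm_102 t 31 18 1 = true := ex3_b s102_pm_102 s98_pm_102

theorem s104_pm_102 : ∃ t, chk3 f_pm_102 t 31 9 1 = true := ex3_b s103_pm_102 s90_pm_102

theorem s105_pm_102 : ∃ t, chk3 f_pm_102 t 127 71 1 = true := ex3_c k20_pm_102 k21_pm_102

theorem s106_pm_102 : ∃ t, chk3 f_pm_102 t 127 35 1 = true := ex3_b k19_pm_102 s105_pm_102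

theorem s107_pm_102 : ∃ t, chk3 f_pm_102 t 63 35 1 = true := ex3_a k18_pm_102 s106_pm_102

theorem s108_pm_102 : ∃ t, chk3 f_pm_102 t 63 17 1 = true := ex3_b k17_pm_102 s107_pm_102

theorem s109_pm_102 : ∃ t, chk3 f_pm_102 t 62 34 1 = true := ex3_b k14_pm_102 k15_pm_102

theorem s110_pm_102 : ∃ t, chk3 f_pm_102 t 62 17 1 = true := ex3_b s109_pm_102 k16_pm_102

theorem s111_pm_102 : ∃ t, chk3 f_pm_102 t 31 17 1 = true := ex3_a s110_pm_102 s108_pm_102

theorem s112_pm_102 : ∃ t, chk3 f_pm_102 t 31 8 1 = true := ex3_b k13_pm_102 s111_pm_102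

theorem s113_pm_102 : ∃ t, chk3 f_pm_102 t 31 4 1 = true := ex3_b s112_pm_102 s104_pm_102

theorem s114_pm_102 : ∃ t, chk3 f_pm_102 t 30 9 1 = true := ex3_b k11_pm_102 k12_pm_102

theorem s115_pm_102 : ∃ t, chk3 f_pm_102 t 30 34 1 = true := ex3_a k8_pm_102 k9_pm_102

theorem s116_pm_102 : ∃ t, chk3 f_pm_102 t 30 17 1 = true := ex3_b s115_pm_102 k10_pm_102

theorem s117_pm_102 : ∃ t, chk3 f_pm_102 t 30 8 1 = true := ex3_b k7_pm_102 s116_pm_102

theorem s118_pm_102 : ∃ t, chk3 f_pm_102 t 30 4 1 = true := ex3_b s117_pm_102 s114_pm_102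

theorem s119_pm_102 : ∃ t, chk3 f_pm_102 t 15 4 1 = true := ex3_a s118_pm_102 s113_pm_102

theorem s120_pm_102 : ∃ t, chk3 f_pm_102 t 14 18 1 = true := ex3_a k4_pm_102 k5_pm_102

theorem s121_pm_102 : ∃ t, chk3 f_pm_102 t 14 9 1 = true := ex3_b s120_pm_102 k6_pm_102

theorem s122_pm_102 : ∃ t, chk3 f_pm_102 t 14 4 1 = true := ex3_b k3_pm_102 s121_pm_102

theorem s123_pm_102 : ∃ t, chk3 f_pm_102 t 7 4 1 = true := ex3_a s122_pm_102 s119_pm_102

theorem s124_pm_102 : ∃ t, chk3 f_pm_102 t 7 2 1 = true := ex3_b s123_pm_102 s79_pm_102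

theorem s125_pm_102 : ∃ t, chk3 f_pm_102 t 6 2 1 = true := ex3_b k1_pm_102 k2_pm_102

theorem s126_pm_102 : ∃ t, chk3 f_pm_102 t 3 2 1 = true := ex3_a s125_pm_102 s124_pm_102

theorem s127_pm_102 : ∃ t, chk3 f_pm_102 t 3 1 1 = true := ex3_b s126_pm_102 k64_pm_102

theorem s128_pm_102 : ∃ t, chk3 f_pm_102 t 1 1 1 = true := ex3_a k0_pm_102 s127_pm_102

theorem c_pm_102 : CertN 536870912 536870912 0 536870912 134217728 67108864 3 true true false .npp 1 0 2
    ndN0q1 ndN0q0 pcN2 cut_pm_102 Ext.none :=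
  certN1 (fam := true) (s1 := true) (s2 := false) (a := 1) (b := 0) (c := 2) (cn := .npp) (n1 := ndN0q1) (n2 := ndN0q0) (pc := pcN2) (cut := cut_pm_102) (xt := Ext.none) (P1 := 536870912) (W1 := 536870912) (P2 := 0) (W2 := 536870912) (P3 := 134217728) (W3 := 67108864) (N0 := 3)
    rfl (fun _ => rfl) s128_pm_102

noncomputable def f_pm_112 : ℕ → ℕ → ℕ → ℕ → Bool := onCell 536870912 536870912 1073741824 536870912 134217728 67108864
    (rowN 3 1 true true false .dn 1 1 2 (qsf 536870912 536870912 536870912 536870912 2) ndN0q1 ndN0q1 pcN2 Cut.none Ext.none)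

def k0_pm_112 : ∃ t, chk3 f_pm_112 t 2 1 1 = true :=
  ⟨(b (b (a (l 3) (l 3)) (a (b (b (b (l 3) (b (l 3) (a (a (b (a (l 100562753607) (l 3)) (b (c (l 16851864) (l 16846176)) (l 16822928))) (b (l 3) (b (l 124185083911) (l 16827328)))) (a (b (l 3) (b (l 3) (l 16807784))) (b (l 3) (b (l 92509698919) (l 16827240))))))) (a (a (b (l 16846960) (l 16819264)) (b (l 16847664) (l 16809336))) (a (a (l 16850760) (l 16829912)) (l 16862232)))) (a (b (b (l 16937912) (l 16934640)) (a (l 16961616) (l 16940152))) (b (l 16966104) (l 16968240)))) (b (a (a (b (b (l 3) (b (l 3) (b (a (l 102173367095) (l 101636493015)) (b (c (l 16851304) (l 16845664)) (l 16822760))))) (b (l 16845696) (l 16811072))) (b (b (l 1) (b (l 1) (b (l 1) (b (l 1) (l 16815336))))) (b (l 16833352) (l 16822664)))) (b (l 1) (b (l 1) (l 119219325367)))) (a (b (b (l 16913872) (l 16882600)) (l 16949168)) (a (a (l 16978848) (l 112239973335)) (l 118682610183)))))) (a (b (a (b (b (l 17026656) (l 17098552)) (a (l 17382696) (l 17239136))) (b (b (l 16987232)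 (l 17044840)) (l 17214392))) (a (b (b (l 17384376) (l 17391760)) (a (l 17425688) (l 17366872))) (b (l 17307880) (a (l 17315456) (l 17273504))))) (b (a (b (l 17111496) (l 17110400)) (b (l 17162568) (l 17104136))) (a (b (l 17164992) (l 17223992)) (b (l 17143776) (l 17174184)))))), by decide +kernel⟩

def k1_pm_112 : ∃ t, chk3 f_pm_112 t 3 1 1 = true :=
  ⟨(b (a (b (l 1) (b (l 1) (a (b (l 1) (l 114924672535)) (l 1)))) (l 1)) (a (b (a (b (b (l 81101609815) (l 17113816)) (l 17180792)) (b (b (l 1) (l 105798459303)) (b (l 17391880) (l 17328664)))) (a (b (l 17190704) (l 17195584)) (b (l 17302048) (l 17255192)))) (b (a (b (l 1) (a (l 17312320) (l 1))) (l 1)) (a (b (a (l 17329112) (l 17387224)) (l 17485552)) (b (a (l 17452336) (l 1)) (a (l 17425296) (l 17489112))))))), by decide +kernel⟩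

theorem s2_pm_112 : ∃ t, chk3 f_pm_112 t 1 1 1 = true := ex3_a k0_pm_112 k1_pm_112

theorem c_pm_112 : CertN 536870912 536870912 536870912 536870912 134217728 67108864 3 true true false .dn 1 1 2
    ndN0q1 ndN0q1 pcN2 Cut.none Ext.none :=
  certN1 (fam := true) (s1 := true) (s2 := false) (a := 1) (b := 1) (c := 2) (cn := .dn) (n1 := ndN0q1) (n2 := ndN0q1) (pc := pcN2) (cut := Cut.none) (xt := Ext.none) (P1 := 536870912) (W1 := 536870912) (P2 := 536870912) (W2 := 536870912) (P3 := 134217728) (W3 := 67108864) (N0 := 3)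
    rfl (fun _ => rfl) s2_pm_112

noncomputable def cut_pm_113 : Cut := Cut.of [[⟨0, 1, 0, 39843005⟩, ⟨1, 1, 0, 39843005⟩, ⟨2, 2, 0, 5814905⟩]]

noncomputable def f_pm_113 : ℕ → ℕ → ℕ → ℕ → Bool := onCell 536870912 536870912 536870912 536870912 134217728 67108864
    (rowN 3 0 true true false .nn 1 1 3 (qsf 536870912 536870912 536870912 536870912 3) ndN0q1 ndN0q1 pcN3 cut_pm_113 Ext.none)

def k0_pm_113 : ∃ t, chk3 f_pm_113 t 1 1 1 = true :=
  ⟨(a (b (a (l 1) (b (l 1) (l 98282135015))) (b (a (b (l 1) (a (l 1) (l 17364080))) (b (l 17419920) (l 17545616))) (a (b (a (l 91840082791) (l 17471672)) (a (b (l 17631168) (l 17687944)) (b (l 17565592) (l 17616432)))) (b (a (l 17476472) (l 17313616)) (a (b (l 17469112) (l 17515784)) (b (l 17343776) (l 17388016))))))) (b (a (b (a (l 1) (b (l 1) (l 17364080))) (a (l 17419920) (l 17545616))) (b (a (b (l 91840082791) (l 17471672)) (b (a (l 17631168) (l 17687944)) (a (l 17565592) (l 17616432)))) (a (b (l 17476472) (l 17313616)) (b (a (l 17469112) (l 17515784))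 (a (l 17343776) (l 17388016)))))) (b (a (c (l 17303208) (l 17328904)) (a (b (l 17279952) (l 17071736)) (b (a (l 17196592) (l 17389040)) (b (l 17305704) (l 17242184))))) (a (b (a (l 17279952) (l 17071736)) (a (b (l 17196592) (l 17389040)) (a (l 17305704) (l 17242184)))) (b (a (l 16980992) (b (l 17225648) (a (l 16984936) (l 17053200)))) (a (a (l 17225648) (b (l 16984936) (l 17053200))) (b (a (l 16880032) (a (l 16941760) (l 17018480))) (a (b (l 16941760) (l 17018480)) (b (a (l 16828328) (a (l 16857736) (l 16896176))) (a (b (l 16857736) (l 16896176)) (b (a (l 16802632) (a (l 16817488) (l 16836200))) (a (a (l 16840320) (l 16835360)) (b (a (l 16789880) (a (l 16807944) (l 16806576))) (a (b (l 16807944) (l 16806576)) (b (a (l 16783536) (c (l 16792440) (l 16792368))) (a (c (l 16792440) (l 16792368)) (l 6))))))))))))))))), by decide +kernel⟩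

theorem c_pm_113 : CertN 536870912 536870912 536870912 536870912 134217728 67108864 3 true true false .nn 1 1 3
    ndN0q1 ndN0q1 pcN3 cut_pm_113 Ext.none :=
  certN0 (fam := true) (s1 := true) (s2 := false) (a := 1) (b := 1) (c := 3) (cn := .nn) (n1 := ndN0q1) (n2 := ndN0q1) (pc := pcN3) (cut := cut_pm_113) (xt := Ext.none) (P1 := 536870912) (W1 := 536870912) (P2 := 536870912) (W2 := 536870912) (P3 := 134217728) (W3 := 67108864) (N0 := 3)
    rfl k0_pm_113

noncomputable def cut_pm_123 : Cut := Cut.of [[⟨0, 1, 0, 39843005⟩, ⟨1, 1, 0, 39843005⟩, ⟨2, 2, 0, 5814905⟩]]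

noncomputable def f_pm_123 : ℕ → ℕ → ℕ → ℕ → Bool := onCell 1610612736 536870912 0 536870912 134217728 67108864
    (rowN 3 2 true true false .npn 1 2 3 (qsf 536870912 536870912 0 536870912 3) ndN0q1 ndN0q2 pcN3 cut_pm_123 Ext.none)

def k0_pm_123 : ∃ t, chk3 f_pm_123 t 2 1 1 = true :=
  ⟨(b (a (b (l 1) (a (l 1) (b (l 1) (l 17441832)))) (b (a (a (b (l 16995536) (l 17164768)) (b (b (l 16911960) (l 16995736)) (l 17088016))) (b (b (a (a (l 16881664) (l 16848640)) (a (b (a (l 16810136) (l 16816520)) (l 16831592)) (b (a (l 90429292071) (l 116199036215)) (l 59827650375)))) (a (l 16925616) (a (l 16875216) (l 16842776)))) (a (l 16994176) (b (l 16895296) (l 16974064))))) (a (b (a (l 17288904) (l 17213168)) (l 17323240)) (a (b (l 17135568) (l 17234720)) (b (l 17061264) (l 17170360)))))) (a (b (a (l 1) (b (l 17479368) (l 17517448))) (a (b (l 17636648) (l 17719352)) (b (l 17555208) (l 17600752)))) (b (a (b (l 17371928) (l 17415936)) (b (l 17260632) (l 17302536))) (a (b (l 17457472) (l 17498664)) (b (l 17339792)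 (l 17374520)))))), by decide +kernel⟩

def k1_pm_123 : ∃ t, chk3 f_pm_123 t 6 1 1 = true :=
  ⟨(b (a (a (b (b (b (a (a (l 107609193335) (l 123178431159)) (l 4)) (a (b (l 62512003495) (l 16825400)) (b (a (l 101703534023) (l 117272781655)) (l 67343842151)))) (b (a (l 16866680) (l 16834784)) (l 16863824))) (b (b (l 16962056) (l 17017984)) (b (l 17073992) (l 17127440)))) (b (b (b (l 4) (a (b (l 4) (l 110830409527)) (l 4))) (b (a (b (l 73786297271) (l 16817096)) (b (l 118346605671) (l 81839367431))) (a (l 16835872) (b (l 16812248) (l 16837984))))) (b (b (a (l 16910656) (l 16876840)) (l 16946320)) (l 16961752)))) (b (b (l 4) (a (b (a (b (l 4) (a (l 120494025687) (l 4))) (l 4)) (a (b (a (l 16810840) (l 103851018663)) (l 16806232)) (b (a (l 122641534615) (l 4)) (l 96334885399)))) (b (l 4) (l 4)))) (a (b (b (a (l 16843344) (b (l 57680160727) (l 16822856))) (a (l 16893272) (l 16858584))) (b (l 16882056) (l 16971968))) (b (b (a (b (a (l 89355539767) (l 127473339015)) (a (l 16799048) (l 16818696))) (b (l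 4) (a (l 122104654103) (l 4)))) (a (b (l 16813800) (l 16836504)) (b (l 85597461927) (l 16803880)))) (b (a (l 16870336) (l 16835928)) (a (l 16914992) (l 16878288))))))) (b (a (b (a (l 17170360) (l 17103760)) (l 17177024)) (b (a (b (l 17019104) (l 17050416)) (a (l 16978432) (l 17023816))) (a (l 17076320) (l 17008008)))) (b (a (l 17248056) (a (l 17101528) (l 17121016))) (a (l 17294504) (b (l 17122696) (l 17135952)))))), by decide +kernel⟩

def k2_pm_123 : ∃ t, chk3 f_pm_123 t 14 1 1 = true :=
  ⟨(b (b (l 4) (a (b (b (l 4) (a (b (a (l 132842079591) (l 4)) (a (l 86671174679) (l 129083987367))) (l 4))) (a (b (b (a (l 16801152) (l 16806792)) (l 16813360)) (l 16843184)) (b (b (a (l 118346563495) (l 143579501767)) (a (l 16810744) (l 102240420823))) (c (l 16811536) (l 16808432))))) (b (l 4) (a (b (b (l 4) (a (b (l 4) (l 133378922487)) (l 4))) (b (a (l 86134297991) (b (l 4) (a (l 90966116407) (l 111367193815)))) (a (l 16795448) (l 85060549031)))) (a (b (l 4) (b (l 4) (a (l 126399614615) (l 121030893159))))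 (l 4)))))) (b (a (b (b (a (l 16882320) (l 16825664)) (a (l 16920544) (l 16882320))) (b (l 17015808) (l 16950096))) (b (b (a (a (l 16821368) (l 16805184)) (a (b (l 80228705847) (l 16797704)) (b (a (b (l 110830317655) (l 16808248)) (b (l 4) (l 110293445415))) (l 76470605527)))) (a (l 16825304) (a (l 16820896) (l 16804800)))) (a (b (l 16878496) (l 16902176)) (b (l 16821256) (l 16910600))))) (b (a (l 16964736) (l 16985584)) (a (b (l 16978536) (l 16991208)) (l 17043624))))), by decide +kernel⟩

def k3_pm_123 : ∃ t, chk3 f_pm_123 t 15 2 1 = true :=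
  ⟨(l 4), by decide +kernel⟩

def k4_pm_123 : ∃ t, chk3 f_pm_123 t 30 3 1 = true :=
  ⟨(b (b (a (b (a (b (l 4) (a (b (l 110293444343) (l 16796784)) (b (l 4) (l 110830335415)))) (l 4)) (a (b (l 81302451575) (l 16796512)) (b (a (b (l 143579460535) (l 16796152)) (b (l 4) (l 147337567239))) (a (l 16785280) (l 82913047079))))) (b (l 4) (a (b (l 4) (a (b (a (l 111367181895) (l 4)) (l 84523654871)) (b (l 4) (a (l 114588407911) (l 4))))) (l 4)))) (a (b (a (l 16816952) (b (l 16794664) (l 16807448))) (a (l 16843280) (l 16847024))) (b (a (b (a (l 16804496) (c (l 84523659575) (l 82913047191))) (l 16791944)) (b (a (b (a (l 126399569383) (l 4)) (a (l 84523646519) (b (l 4) (l 94724193639)))) (l 4)) (a (l 81302430215) (b (a (b (l 111367176775) (l 16794256)) (b (l 4) (l 115662145111))) (l 83449906247))))) (a (b (l 16803712) (l 16815272)) (b (a (l 16792136) (l 16805688)) (l 16799112)))))) (b (a (b (l 16895720) (l 16862784)) (a (b (b (l 16826472) (l 16835584)) (l 16841696)) (b (b (l 16788688) (l 16798448)) (l 16828344))))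 (a (l 16936024) (a (l 16914240) (l 16899880))))), by decide +kernel⟩

def k5_pm_123 : ∃ t, chk3 f_pm_123 t 62 3 1 = true :=
  ⟨(b (b (l 4) (b (a (b (l 4) (a (b (l 4) (a (b (l 121030855783) (l 94724192119)) (l 4))) (l 4))) (l 4)) (a (b (a (b (a (l 16792912) (b (l 117809647079) (l 16793432))) (l 16791880)) (b (a (b (l 4) (l 126936454407)) (l 4)) (a (l 87744869431) (b (l 4) (c (l 153243125831) (l 119957128791)))))) (a (l 16787672) (b (l 82913030167) (l 16782800)))) (b (l 4) (a (b (a (b (c (l 126936453719) (l 132305162039)) (c (l 137673861415) (l 140895086647))) (l 4)) (a (l 16791680) (a (l 85060510551) (b (l 4) (l 87207990279))))) (b (l 4) (a (a (b (l 4) (l 129620805511)) (l 4)) (l 4)))))))) (b (b (a (b (a (l 16776592) (l 16789808)) (l 16803080)) (a (b (b (l 16790928) (l 16784592)) (l 16791056)) (a (a (b (l 82913026615) (l 16786248)) (b (b (b (l 127473310087) (l 16786480)) (l 16780376)) (l 16784360))) (a (b (b (b (l 4) (b (l 4) (l 118883383223))) (l 16785920)) (l 16782504)) (b (b (l 4) (b (b (l 134989491735)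 (l 116199027847)) (l 16785888))) (l 16791160)))))) (a (b (l 16832296) (l 16816208)) (a (c (l 16845072) (l 16843368)) (b (l 16791296) (l 16819224))))) (b (l 16844632) (a (l 16824920) (l 16852768))))), by decide +kernel⟩

def k6_pm_123 : ∃ t, chk3 f_pm_123 t 63 6 1 = true :=
  ⟨(l 4), by decide +kernel⟩

def k7_pm_123 : ∃ t, chk3 f_pm_123 t 126 7 1 = true :=
  ⟨(b (b (a (b (a (a (b (l 4) (b (l 4) (b (l 133378888615) (l 93113567127)))) (l 4)) (l 4)) (a (a (l 81839282039) (b (b (b (l 132842017079) (l 93113566599)) (l 16785440)) (l 16779656))) (a (a (b (b (l 4) (l 86671115319)) (l 16779776)) (b (b (l 4) (l 133378887463)) (l 16785136))) (a (b (l 4) (l 83986762599)) (b (l 4) (b (b (l 4) (l 94187306887)) (l 16785144))))))) (b (l 4) (a (a (a (b (l 4) (b (l 4) (l 86671115527))) (b (l 4) (b (l 4) (b (l 4) (l 134989498247))))) (l 4)) (l 4)))) (a (b (a (l 16785392) (c (l 16792240) (l 16791928))) (c (l 16790368) (l 16810568))) (b (a (a (b (l 16784816) (l 16780536)) (a (b (c (l 90966083575) (l 88281729207))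 (l 16779160)) (b (b (b (l 4) (l 143042562439)) (l 16784992)) (l 16779112)))) (b (a (a (b (l 4) (b (l 147874401159) (l 16783944))) (l 4)) (l 4)) (c (a (l 86134243879) (a (b (b (l 4) (l 198877135367)) (l 16784456)) (b (l 4) (b (l 140358206631) (l 16784664))))) (a (l 85060502743) (a (b (b (l 4) (l 94724176823)) (l 16784456)) (b (l 4) (b (l 145190044471) (l 16784608)))))))) (a (l 16794864) (b (c (l 16784376) (l 16784256)) (l 16782008)))))) (b (a (b (l 16817112) (l 16797912)) (b (a (l 16810968) (c (l 16806872) (l 16806464))) (l 16813136))) (b (l 16817728) (l 16818344)))), by decide +kernel⟩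

def k8_pm_123 : ∃ t, chk3 f_pm_123 t 254 7 1 = true :=
  ⟨(b (b (l 4) (b (a (a (a (b (l 4) (b (l 4) (b (l 4) (l 150558752215)))) (l 4)) (l 4)) (l 4)) (a (b (a (a (b (l 89355465895) (l 16778776)) (a (b (b (l 4) (l 16781944)) (l 16778792)) (b (b (l 4) (l 150021882103)) (l 16784136)))) (a (b (l 4) (a (l 90429206999) (b (l 4) (l 16781856)))) (b (l 4) (b (l 4) (c (l 154316851495) (l 160759301943)))))) (a (l 16784408) (a (l 16783808) (b (l 90966079271) (l 16778496))))) (c (a (a (a (b (l 4) (b (b (l 4) (l 98482268103)) (l 16778504))) (b (l 4) (b (l 4) (l 16781416)))) (a (b (l 4) (b (l 4) (b (l 155927462055) (l 16783952)))) (b (l 4) (b (l 4) (b (l 4) (l 246121771623)))))) (l 4)) (a (a (a (b (l 4) (b (b (l 4) (l 16781880)) (l 16778512))) (b (l 4) (b (l 4) (l 16781376)))) (b (l 4) (b (l 4) (b (c (l 276723408327) (l 282628988087)) (l 100629754647))))) (l 4)))))) (b (b (a (b (l 16788752) (l 16783448)) (c (a (b (l 81302402055) (l 16780480)) (a (a (b (b (l 93113560519) (l 16778224)) (l 16779232)) (b (b (b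 (l 4) (l 97945397207)) (l 16778232)) (l 16778744))) (a (b (b (l 4) (l 90966074775)) (l 16778264)) (b (b (l 4) (b (l 301419468935) (l 16781224))) (l 16783296))))) (a (b (l 79691789111) (l 16780336)) (a (a (b (l 85060498295) (l 16779144)) (b (b (b (l 4) (l 99556009767)) (l 16778248)) (l 16778680))) (a (b (b (l 4) (l 89355462279)) (l 16778216)) (b (b (l 4) (b (l 314841241335) (l 16781168))) (l 16778088))))))) (a (a (l 16808632) (l 16803328)) (a (b (l 16782504) (l 16795168)) (l 6)))) (b (l 16796592) (c (l 16797768) (l 16797472))))), by decide +kernel⟩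

def k9_pm_123 : ∃ t, chk3 f_pm_123 t 255 7 1 = true :=
  ⟨(b (l 4) (a (b (b (c (a (b (a (a (b (l 4) (b (l 4) (b (l 4) (l 285313339735)))) (l 4)) (l 4)) (a (a (l 82913010631) (b (b (b (l 4) (l 6)) (l 6)) (l 6))) (a (b (b (l 4) (l 6)) (l 6)) (l 6)))) (b (l 4) (l 6))) (a (b (a (a (b (l 4) (b (l 4) (l 303030080743))) (l 4)) (l 4)) (a (a (l 80765527319) (b (b (b (l 4) (l 6)) (l 6)) (l 6))) (a (b (b (l 4) (l 6)) (l 6)) (l 6)))) (b (l 4) (l 6)))) (l 6)) (l 6)) (a (b (b (l 4) (l 6)) (l 6)) (b (l 4) (l 6))))), by decide +kernel⟩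

theorem s10_pm_123 : ∃ t, chk3 f_pm_123 t 127 7 1 = true := ex3_a k8_pm_123 k9_pm_123

theorem s11_pm_123 : ∃ t, chk3 f_pm_123 t 63 7 1 = true := ex3_a k7_pm_123 s10_pm_123

theorem s12_pm_123 : ∃ t, chk3 f_pm_123 t 63 3 1 = true := ex3_b k6_pm_123 s11_pm_123

theorem s13_pm_123 : ∃ t, chk3 f_pm_123 t 31 3 1 = true := ex3_a k5_pm_123 s12_pm_123

theorem s14_pm_123 : ∃ t, chk3 f_pm_123 t 15 3 1 = true := ex3_a k4_pm_123 s13_pm_123

theorem s15_pm_123 : ∃ t, chk3 f_pm_123 t 15 1 1 = true := ex3_b k3_pm_123 s14_pm_123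

theorem s16_pm_123 : ∃ t, chk3 f_pm_123 t 7 1 1 = true := ex3_a k2_pm_123 s15_pm_123

theorem s17_pm_123 : ∃ t, chk3 f_pm_123 t 3 1 1 = true := ex3_a k1_pm_123 s16_pm_123

theorem s18_pm_123 : ∃ t, chk3 f_pm_123 t 1 1 1 = true := ex3_a k0_pm_123 s17_pm_123

theorem c_pm_123 : CertN 536870912 536870912 0 536870912 134217728 67108864 3 true true false .npn 1 2 3
    ndN0q1 ndN0q2 pcN3 cut_pm_123 Ext.none :=
  certN2 (fam := true) (s1 := true) (s2 := false) (a := 1) (b := 2) (c := 3) (cn := .npn) (n1 := ndN0q1) (n2 := ndN0q2) (pc := pcN3) (cut := cut_pm_123) (xt := Ext.none) (P1 := 536870912) (W1 := 536870912) (P2 := 0) (W2 := 536870912) (P3 := 134217728) (W3 := 67108864) (N0 := 3)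
    rfl (fun _ => rfl) s18_pm_123

end Pool.Agent.Strip051.G.I1_8_3_16.Tab.C.NA00

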