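import Pool.Agent.Strip051.G.I1_8_3_16.Tab

/-! # Certificates N4 (generated) -/

set_option linter.all false
set_option maxRecDepth 100000

namespace Pool.Agent.Strip051.G.I1_8_3_16.Tab.C.NA00

open Pool.Agent.Strip051.PB Pool.Agent.Strip051.PB.T
open Pool.Agent.Strip051.G.I1_8_3_16.Tab

noncomputable def cut_pm_202 : Cut := Cut.of [[⟨0, 1, 0, 67108864⟩, ⟨1, 0, 0, 67108864⟩, ⟨2, 1, 0, 67108864⟩], [⟨0, 1, 0, 16777216⟩, ⟨1, 0, 1, 41943040⟩, ⟨2, 1, 1, 41943040⟩]]

noncomputable def f_pm_202 : ℕ → ℕ → ℕ → ℕ → Bool := onCell 0 536870912 1073741824 536870912 134217728 67108864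
    (rowN 3 1 true true false .pp 2 0 2 (qsf 0 536870912 0 536870912 2) ndN0q2 ndN0q0 pcN2 cut_pm_202 Ext.none)

def k0_pm_202 : ∃ t, chk3 f_pm_202 t 4 2 1 = true :=
  ⟨(b (l 1) (b (b (b (l 1) (a (b (l 1) (b (l 1) (c (a (l 16881144) (l 16878464)) (l 16532520)))) (c (b (a (l 1) (b (l 1) (l 16688320))) (b (a (l 16787624) (l 16781944)) (a (l 16873440) (b (l 16845160) (l 16884656))))) (b (l 16530312) (b (l 16515496) (l 16554112)))))) (a (c (b (a (l 17061536) (l 17058496)) (l 17264208)) (b (l 16506496) (l 16625264))) (b (c (a (l 17052288) (l 17042760)) (l 16528208)) (c (l 17252952) (l 16623872))))) (b (a (c (b (l 17398264) (l 17484888)) (b (l 16859336) (l 17025312))) (c (b (l 17390840) (l 17482512)) (b (l 16857208) (l 17024824)))) (c (a (l 17556496) (l 17562576)) (a (l 17188344) (l 17192440)))))), by decide +kernel⟩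

def k1_pm_202 : ∃ t, chk3 f_pm_202 t 5 2 1 = true :=
  ⟨(b (a (l 1) (b (l 1) (b (l 1) (b (l 1) (b (l 1) (a (l 1) (c (b (l 16567272) (l 16564120)) (b (l 16546712) (l 16542936))))))))) (b (b (b (a (b (l 1) (c (a (l 16528112) (l 16549640)) (a (l 16504944) (l 16526392)))) (b (a (c (a (l 16556544) (l 16557776)) (l 16545384)) (c (c (l 16566208) (l 16554496)) (l 16548656))) (c (a (l 16550912) (b (l 16554384) (l 16550928))) (a (l 16527688) (l 16551240))))) (b (a (a (c (c (l 16859832) (l 16516256)) (l 16519656)) (c (l 16626992) (l 16519480))) (c (a (l 16622120) (b (l 16572232) (l 16664528))) (a (l 16520088) (l 16546984)))) (a (b (c (a (l 16772984) (l 16763632)) (l 16514640)) (c (b (a (l 16835000) (l 16824392)) (a (l 16873912) (l 16862576))) (a (l 16552720) (l 16556872)))) (b (c (a (l 16755064) (l 16748152)) (a (l 16514064) (l 16527456))) (c (b (a (l 16814320) (l 16805648)) (a (l 16851616) (l 16841896))) (a (l 16567008) (b (l 16528608) (l 16550208)))))))) (a (b (c (a (l 16988624) (l 16786360))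 (a (l 16505688) (l 16504408))) (c (a (l 17235776) (l 17220760)) (a (l 16621160) (l 16619872)))) (b (c (a (b (l 16939344) (l 17059976)) (b (l 16927304) (l 17045216))) (a (l 16525776) (l 16547600))) (c (a (l 17204328) (l 17187200)) (a (l 16620168) (l 16622680)))))) (b (c (a (b (l 17367840) (l 17463600)) (b (a (l 17344584) (l 17326584)) (l 17433528))) (a (b (l 16849832) (l 17016856)) (b (a (l 16844048) (l 16841176)) (l 16942968)))) (a (c (l 17551984) (b (l 17139152) (l 17228720))) (c (l 17529416) (b (l 17127768) (l 17219240))))))), by decide +kernel⟩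

def k2_pm_202 : ∃ t, chk3 f_pm_202 t 2 3 1 = true :=
  ⟨(b (a (b (c (b (l 17594584) (l 17590208)) (b (a (l 17306552) (l 17318912)) (l 17368296))) (a (l 17445272) (l 17485520))) (a (b (c (l 17618096) (l 17362976)) (l 17513728)) (b (c (l 17614000) (b (l 17316992) (l 17396360))) (l 17531704)))) (a (b (a (l 17363520) (l 17418616)) (a (l 17252000) (l 17316344))) (b (a (l 17461920) (l 17495440)) (l 17391920)))), by decide +kernel⟩

def k3_pm_202 : ∃ t, chk3 f_pm_202 t 12 4 1 = true :=
  ⟨(b (l 1) (b (l 1) (b (b (a (l 1) (a (l 1) (c (b (l 16606224) (l 16601568)) (b (l 16591952) (l 16586448))))) (b (a (l 1) (c (a (l 16592720) (l 16597208)) (l 16584080))) (a (c (l 16583128) (l 16565256)) (c (a (l 16588736) (l 16593008)) (l 16579240))))) (b (a (c (a (b (l 16556824) (l 16574352)) (b (l 16581120) (l 16577480))) (b (l 16560936) (l 16556696))) (c (b (l 16586928) (l 16583000)) (l 16595904))) (a (c (b (l 16572488) (l 16568976)) (l 16567560)) (c (b (l 16579112) (l 16575232)) (c (l 16588712) (l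 16596464)))))))), by decide +kernel⟩

def k4_pm_202 : ∃ t, chk3 f_pm_202 t 13 4 1 = true :=
  ⟨(b (l 1) (b (b (a (l 1) (b (l 1) (b (a (l 1) (c (a (l 16641400) (c (l 16644792) (l 16640552))) (l 16644128))) (c (a (l 16640608) (a (l 16642552) (l 16633432))) (a (l 16641672) (l 16635168)))))) (b (a (a (l 1) (a (l 1) (b (l 1) (c (l 16635576) (l 16620568))))) (b (c (a (a (l 16619720) (l 16631608)) (l 16644312)) (a (l 16621840) (l 16636544))) (a (c (a (l 16637000) (l 16633240)) (l 16631584)) (c (l 16640816) (l 16633232))))) (a (a (a (l 1) (b (l 1) (c (l 16615408) (l 16603304)))) (c (b (c (l 16624536) (l 16619104)) (l 16617248)) (b (l 16616760) (l 16606184)))) (b (a (c (l 16624680) (l 16620816)) (c (l 16633616) (l 16635072))) (c (a (l 16619904) (l 16649344)) (a (l 16620544) (l 16634696))))))) (b (b (a (c (b (a (l 16609872) (l 16612072)) (a (l 16605120) (l 16607104))) (a (b (l 16596592) (l 16592552)) (b (l 16606624) (l 16606856)))) (a (c (c (l 16640016) (l 16633536)) (b (l 16620832) (l 16620944)))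 (c (b (l 16627952) (l 16627392)) (b (l 16634840) (l 16634816))))) (a (c (b (a (l 16600648) (l 16602400)) (l 16601072)) (b (a (l 16592584) (l 16606784)) (l 16610112))) (c (b (a (l 16611248) (l 16626648)) (a (l 16610400) (l 16625808))) (a (b (l 16620768) (l 16620464)) (b (l 16634560) (l 16634184)))))) (b (a (c (a (l 16613288) (l 16611632)) (b (l 16620320) (l 16619960))) (c (a (b (l 16609488) (l 16608536)) (b (l 16624928) (l 16624024))) (a (l 16639032) (l 16652832)))) (a (c (a (l 16599216) (l 16610808)) (a (l 16610720) (l 16624648))) (c (a (l 16626632) (l 16642320)) (a (l 16638520) (l 16631232)))))))), by decide +kernel⟩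

def k5_pm_202 : ∃ t, chk3 f_pm_202 t 6 10 1 = true :=
  ⟨(b (b (a (c (a (b (b (l 16565440) (l 16561856)) (b (l 16558184) (l 16554376))) (b (b (l 16571328) (l 16567376)) (b (l 16563336) (l 16559168)))) (b (a (l 16568992) (l 16592656)) (a (l 16569440) (l 16592648)))) (b (a (c (a (l 16595744) (l 16609328)) (c (l 16613640) (l 16620816))) (c (a (l 16625216) (l 16640976)) (a (l 16616848) (l 16630456)))) (a (c (a (l 16592552) (l 16608120)) (l 16616784)) (c (a (l 16624072) (l 16618936)) (l 16643992))))) (b (a (a (c (b (l 16574544) (l 16663120)) (l 16570376)) (c (b (l 16580336) (l 16664760)) (l 16593144))) (a (c (a (l 16628272) (l 16631920)) (l 16627208)) (c (a (l 16637000) (l 16643784)) (l 16643696)))) (a (c (b (a (l 16743592) (l 16741736)) (a (b (l 16799080) (l 16771216)) (b (l 16794992) (a (l 16829824) (l 16827736))))) (b (a (l 16550504) (l 16572944)) (b (a (l 16551512) (l 16573832)) (a (l 16573008) (l 16595216))))) (c (a (b (l 16742384) (b (l 16793320) (a (l 16826264) (l 16825216))))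 (b (l 16746632) (b (l 16795128) (a (l 16825320) (l 16826800))))) (a (b (l 16596096) (b (a (l 16590072) (l 16582128)) (l 16638984))) (b (l 16622848) (b (l 16623328) (a (l 16616760) (l 16630016))))))))) (a (b (c (a (b (l 16916712) (l 17031200)) (b (l 16907960) (l 17018360))) (a (l 16574504) (b (l 16572528) (l 16570160)))) (c (a (l 17169960) (l 17048216)) (a (l 16627808) (l 16635568)))) (b (a (c (b (l 16817272) (l 17006936)) (a (l 16605688) (l 16618496))) (c (b (a (l 16897984) (l 16897384)) (l 16872472)) (b (l 16621344) (l 16618056)))) (a (c (b (l 17096984) (l 17173984)) (b (l 16587872) (l 16699760))) (c (a (l 17126392) (l 17120400)) (a (l 16655704) (l 16663912))))))), by decide +kernel⟩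

def k6_pm_202 : ∃ t, chk3 f_pm_202 t 6 11 1 = true :=
  ⟨(b (a (c (b (a (l 17307784) (l 17288648)) (l 17396928)) (b (a (l 16839624) (l 16839408)) (a (l 16998136) (l 16993192)))) (c (b (a (l 17269536) (l 17252224)) (a (l 17368064) (l 17349632))) (b (a (l 16840488) (a (l 16843312) (l 16846600))) (a (l 16988648) (l 16987136))))) (a (c (b (l 17469520) (l 17522992)) (b (a (l 17117960) (l 17110672)) (l 17205896))) (c (b (a (l 17442216) (l 17424296)) (l 17490272)) (b (a (l 17103184) (l 17098488)) (a (l 17194896) (l 17189448)))))), by decide +kernel⟩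

def k7_pm_202 : ∃ t, chk3 f_pm_202 t 14 8 1 = true :=
  ⟨(c (a (b (l 1) (b (l 1) (b (l 1) (a (l 1) (b (a (l 1) (l 6)) (a (c (a (l 16673616) (l 16673968)) (l 16670272)) (c (l 16674480) (l 16671320)))))))) (b (l 1) (b (l 6) (b (l 6) (b (l 6) (a (c (l 16680728) (l 16672864)) (c (l 16684496) (l 16695704)))))))) (c (b (l 1) (a (b (l 1) (b (l 1) (a (l 1) (b (a (l 1) (l 6)) (a (l 16666888) (l 16668296)))))) (b (l 6) (b (l 6) (a (a (l 16673664) (l 16695920)) (l 16687288)))))) (b (l 1) (b (a (l 1) (l 6)) (b (a (l 1) (l 6)) (a (a (l 1) (b (l 16672536) (l 16664568))) (a (l 16682384) (l 16685520)))))))), by decide +kernel⟩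

def k8_pm_202 : ∃ t, chk3 f_pm_202 t 14 18 1 = true :=
  ⟨(b (a (c (a (b (b (a (l 1) (c (l 16664528) (l 16660752))) (a (c (l 16654864) (l 16650848)) (l 16664440))) (c (l 16652392) (l 16659240))) (b (c (a (l 16671560) (l 16682896)) (l 16668840)) (c (l 16665080) (l 16662168)))) (b (a (b (a (l 1) (l 16655392)) (a (l 16645168) (l 16646992))) (b (l 16668456) (l 16670696))) (a (l 16648904) (l 16658088)))) (a (b (c (c (a (l 16683712) (l 16684496)) (l 16671208)) (l 16673008)) (c (c (l 16669608) (l 16671128)) (l 16667896))) (c (b (c (l 16676432) (l 16677744)) (c (l 16678896) (l 16687632))) (b (a (l 16682984) (l 16691264)) (c (l 16688392) (l 16689024)))))) (b (b (a (c (a (l 16647288) (l 16657096)) (a (l 16645736) (l 16660592))) (a (c (l 16662696) (l 16675432)) (c (c (l 16667976) (l 16668600)) (l 16690288)))) (a (c (a (b (l 16643288) (l 16644672)) (c (l 16658056) (l 16659840))) (a (l 16658192) (l 16662152))) (c (a (c (l 16674072) (l 16675192)) (c (l 16690096) (l 16690560))) (a (l 16676592)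 (l 16693656))))) (a (c (a (b (l 16647368) (l 16643760)) (b (l 16662104) (l 16659152))) (a (b (l 16649208) (l 16648736)) (b (l 16663312) (l 16662736)))) (c (a (b (c (l 16674952) (l 16676056)) (l 16674544)) (b (c (l 16690696) (l 16691120)) (c (l 16689664) (l 16690200)))) (a (b (l 16677408) (l 16676728)) (b (l 16691504) (l 16690728))))))), by decide +kernel⟩

def k9_pm_202 : ∃ t, chk3 f_pm_202 t 14 19 1 = true :=
  ⟨(b (b (b (a (c (a (l 16643296) (l 16658632)) (a (l 16648720) (l 16662576))) (a (c (l 16673984) (l 16676424)) (c (c (l 16689016) (l 16668672)) (l 16690288)))) (a (c (a (l 16642704) (l 16658024)) (a (l 16648584) (l 16662312))) (c (a (l 16673352) (c (l 16667344) (l 16668064))) (a (l 16676040) (l 16689784))))) (a (c (a (b (l 16641968) (l 16641152)) (b (l 16657288) (l 16656496))) (a (b (l 16648232) (l 16647784)) (b (l 16661880) (l 16640392)))) (c (a (b (l 16672624) (l 16671856)) (c (l 16690976) (l 16697080))) (b (a (l 16675520) (l 16689176)) (a (l 16653968) (l 16688536))))))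 (a (b (c (a (b (l 16640304) (l 16639440)) (c (l 16652312) (l 16655312))) (a (l 16666520) (l 16669696))) (a (c (l 16657944) (l 16644808)) (c (l 16663096) (l 16658368)))) (c (a (b (c (l 16668432) (l 16670408)) (c (l 16667184) (l 16669296))) (b (c (l 16684576) (l 16685528)) (c (l 16683456) (l 16684440)))) (a (b (l 16683360) (l 16671920)) (b (c (l 16686264) (l 16686800)) (l 16695984)))))), by decide +kernel⟩

def k10_pm_202 : ∃ t, chk3 f_pm_202 t 15 8 1 = true :=
  ⟨(a (b (l 6) (b (l 6) (b (l 6) (b (l 6) (b (l 6) (a (c (c (l 16702088) (l 16702776)) (l 16703640)) (c (c (l 16710416) (l 16720976)) (l 16710496)))))))) (b (l 6) (a (b (l 6) (b (l 6) (b (l 6) (a (c (c (l 16714136) (l 16713816)) (l 16713240)) (c (c (l 16728832) (l 16722992)) (c (l 16722344) (l 16721664))))))) (a (b (l 6) (b (l 6) (b (l 6) (b (l 6) (c (c (c (l 16733024) (l 16732576)) (l 16731888)) (c (l 16730952) (l 16729976))))))) (b (l 6) (c (b (l 6) (b (l 6) (b (l 6) (b (l 6) (c (a (l 16739672) (c (a (l 16743464) (l 16745808))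 (l 16746640))) (a (l 16738552) (c (l 16743384) (l 16742752)))))))) (b (l 6) (b (l 6) (b (l 6) (c (a (l 16737568) (c (l 16744912) (l 16744280))) (a (l 16736400) (c (l 16741008) (l 16740360))))))))))))), by decide +kernel⟩

def k11_pm_202 : ∃ t, chk3 f_pm_202 t 30 36 1 = true :=
  ⟨(a (c (b (c (a (l 16698040) (l 16707136)) (l 16695912)) (c (a (l 16678664) (l 16687280)) (l 16693704))) (b (a (l 16699568) (l 16697432)) (c (l 16693856) (l 16693912)))) (a (c (c (b (l 16705760) (l 16695920)) (b (l 16695344) (l 16695696))) (b (l 16705808) (l 16695224))) (c (c (b (l 16709640) (l 16704560)) (b (l 16704168) (l 16704040))) (b (l 16714200) (l 16713624))))), by decide +kernel⟩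

def k12_pm_202 : ∃ t, chk3 f_pm_202 t 62 36 1 = true :=
  ⟨(c (b (c (a (l 16718752) (c (l 16733296) (l 16732904))) (a (l 16712992) (a (l 16719608) (l 16724016)))) (c (a (l 16723680) (c (l 16722096) (l 16721560))) (a (l 16712384) (c (l 16721008) (l 16720448))))) (b (a (c (l 16712424) (l 16711816)) (c (l 16731464) (l 16720096))) (a (c (l 16711520) (l 16710608)) (c (l 16719592) (l 16718408))))), by decide +kernel⟩

def k13_pm_202 : ∃ t, chk3 f_pm_202 t 63 36 2 = true :=
  ⟨(a (a (c (b (c (l 16729680) (l 16729184)) (c (l 16728608) (l 16727968))) (b (l 16728424) (l 16726976))) (c (b (c (l 16734248) (l 16733688)) (c (l 16732944) (l 16732232))) (b (c (l 16733112) (l 16732536)) (c (l 16731504) (l 16730776))))) (c (a (b (c (b (l 16739296) (l 16738384)) (b (l 16738704) (l 16737712))) (c (b (l 16737608) (l 16736992)) (b (l 16736864) (l 16736160)))) (b (c (b (a (l 16742760) (c (l 16745232) (l 16744896))) (a (l 16741752) (c (l 16744192) (l 16743816)))) (a (b (l 16742112) (l 16741040)) (b (c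 (l 16744552) (l 16744216)) (c (l 16743440) (l 16743056))))) (c (b (a (l 16740896) (c (b (l 16743504) (l 16743088)) (l 16742872))) (a (l 16740184) (c (b (l 16742720) (l 16742384)) (b (l 16742272) (l 16741912))))) (a (b (l 16740096) (l 16739304)) (b (c (l 16742464) (l 16742040)) (c (a (l 16741104) (l 16742152)) (l 16742480))))))) (a (b (c (b (l 16738096) (l 16737040)) (l 16736896)) (c (b (l 16736112) (l 16735328)) (l 16734896))) (b (c (a (l 16740864) (a (l 16742520) (b (l 16744256) (l 16743032)))) (a (l 16740168) (a (l 16741800) (b (l 16743560) (l 16742264))))) (c (a (b (l 16739296) (l 16738416)) (b (c (l 16741624) (l 16741208)) (c (l 16740712) (l 16740248)))) (a (l 16737984) (a (l 16739528) (b (l 16741096) (l 16740064))))))))), by decide +kernel⟩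

def k14_pm_202 : ∃ t, chk3 f_pm_202 t 63 36 3 = true :=
  ⟨(a (c (b (a (l 16727384) (l 16731648)) (b (l 16738568) (l 16737760))) (b (a (l 16726304) (l 16730448)) (a (l 16724264) (l 16728160)))) (a (c (b (c (l 16736248) (l 16735584)) (c (l 16734088) (l 16733280))) (b (c (l 16734920) (l 16734248)) (c (l 16732464) (l 16731640)))) (c (b (c (a (l 16739464) (b (l 16742304) (l 16740960))) (a (l 16738760) (b (l 16741600) (l 16740184)))) (c (a (l 16737128) (b (l 16741040) (c (l 16738856) (l 16738392)))) (a (l 16736272) (b (l 16738880) (l 16737696))))) (b (c (a (l 16738048) (b (l 16740896) (l 16739400))) (a (l 16737328) (b (l 16740176) (l 16738616)))) (c (a (l 16735408) (b (l 16738024) (l 16736760))) (a (l 16734536) (b (l 16737160) (l 16735816)))))))), by decide +kernel⟩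

def k15_pm_202 : ∃ t, chk3 f_pm_202 t 30 74 1 = true :=
  ⟨(c (a (b (c (l 16684440) (l 16684432)) (c (l 16706160) (l 16705984))) (b (c (l 16711464) (l 16710840)) (c (a (l 16697280) (l 16705360)) (a (l 16696632) (l 16704408))))) (a (b (l 16694728) (c (l 16705720) (l 16705360))) (b (a (l 16695504) (l 16703056)) (c (a (l 16695920) (l 16703408)) (l 16715792))))), by decide +kernel⟩

def k16_pm_202 : ∃ t, chk3 f_pm_202 t 62 74 1 = true :=
  ⟨(a (b (c (c (l 16713384) (l 16712312)) (l 16710616)) (c (c (l 16723920) (l 16712192)) (c (l 16710904) (l 16709568)))) (c (c (b (l 16721648) (b (l 16721688) (l 16721712))) (b (l 16720288) (l 16730456))) (b (c (l 16718896) (l 16717464)) (c (l 16728888) (l 16727280))))), by decide +kernel⟩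

def k17_pm_202 : ∃ t, chk3 f_pm_202 t 63 74 2 = true :=
  ⟨(a (a (c (b (l 16727832) (l 16732792)) (b (l 16726264) (l 16725800))) (c (b (c (l 16732376) (l 16731528)) (c (l 16732040) (l 16731096))) (b (l 16730248) (c (l 16730152) (l 16729200))))) (a (c (b (c (l 16736520) (l 16735608)) (c (b (l 16736280) (l 16736128)) (b (l 16735288) (l 16735088)))) (b (c (l 16734680) (l 16733752)) (c (b (l 16734296) (l 16734048)) (b (l 16733296) (l 16733000))))) (c (b (c (a (c (l 16739872) (l 16739384)) (c (a (l 16741424) (b (l 16742608) (l 16742336))) (b (l 16741592) (l 16742616)))) (a (l 16738656) (c (a (l 16740432) (l 16741448)) (a (l 16739928) (l 16740944))))) (a (c (b (l 16739312) (l 16741744)) (b (l 16738272) (l 16738032))) (c (b (c (a (l 16741096) (c (l 16742248) (l 16741976))) (a (l 16740560) (l 16741568))) (b (c (a (l 16740960) (l 16741968)) (l 16742216)) (c (a (l 16740872) (c (l 16741984) (l 16741704))) (a (l 16740312) (l 16741272))))) (b (c (l 16741840) (l 16739984)) (b (c (l 16740352)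 (l 16739792)) (a (l 16739464) (c (l 16740696) (l 16740128)))))))) (b (c (a (l 16737680) (a (l 16739184) (c (l 16740432) (l 16739928)))) (a (l 16736704) (c (l 16738920) (l 16738416)))) (a (c (b (l 16737224) (l 16736936)) (b (l 16736176) (l 16735840))) (c (b (c (l 16739448) (l 16738904)) (a (l 16738376) (c (l 16740920) (l 16739040)))) (b (c (l 16738368) (l 16737824)) (c (a (l 16737536) (l 16738472)) (l 16737432))))))))), by decide +kernel⟩

def k18_pm_202 : ∃ t, chk3 f_pm_202 t 63 74 3 = true :=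
  ⟨(a (b (c (l 16731832) (l 16724896)) (b (c (l 16726168) (l 16724344)) (c (l 16736376) (l 16723968)))) (a (c (b (l 16734976) (b (l 16731792) (l 16735360))) (b (l 16730464) (c (l 16735192) (l 16734160)))) (a (c (b (c (l 16735720) (l 16734736)) (b (l 16737216) (b (l 16734304) (l 16736736)))) (b (l 16733240) (c (l 16737920) (l 16731592)))) (c (b (c (c (l 16737904) (l 16737400)) (l 16737944)) (c (b (l 16737008) (c (l 16736872) (l 16736304))) (b (l 16735920) (l 16738072)))) (b (c (l 16735608) (l 16734584)) (c (b (l 16734824) (l 16734312)) (b (l 16733736) (l 16733176)))))))), by decide +kernel⟩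

def k19_pm_202 : ∃ t, chk3 f_pm_202 t 30 75 1 = true :=
  ⟨(a (b (c (c (l 16696000) (l 16706240)) (c (l 16705896) (l 16705456))) (c (c (l 16705496) (l 16705304)) (c (l 16705008) (l 16704592)))) (b (c (c (a (l 16697400) (l 16705344)) (a (l 16696664) (l 16704288))) (c (l 16715256) (l 16719464))) (c (c (l 16716168) (l 16710024)) (c (l 16719536) (l 16718488))))), by decide +kernel⟩

def k20_pm_202 : ∃ t, chk3 f_pm_202 t 62 75 1 = true :=
  ⟨(c (a (c (b (l 16713288) (l 16712376)) (b (l 16711920) (l 16710960))) (c (b (c (l 16721632) (l 16720808)) (l 16730816)) (b (l 16730032) (l 16729064)))) (a (b (c (l 16710504) (l 16709040)) (c (l 16709488) (l 16707968))) (c (b (l 16728328) (l 16716792)) (b (l 16726584) (l 16714960))))), by decide +kernel⟩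

def k21_pm_202 : ∃ t, chk3 f_pm_202 t 126 75 2 = true :=
  ⟨(a (c (b (l 16732400) (l 16726280)) (b (l 16725256) (l 16724280))) (c (b (c (l 16731616) (l 16730600)) (c (l 16730680) (l 16729608))) (b (c (l 16729576) (l 16728544)) (c (l 16728536) (l 16727456))))), by decide +kernel⟩

def k22_pm_202 : ∃ t, chk3 f_pm_202 t 254 75 2 = true :=
  ⟨(c (b (c (b (l 16735888) (l 16735424)) (b (l 16734808) (l 16734312))) (c (c (l 16739984) (l 16739416)) (b (l 16733768) (l 16733184)))) (b (c (b (l 16733728) (l 16733200)) (b (l 16732640) (l 16732088))) (c (b (l 16732632) (l 16732024)) (l 16736272)))), by decide +kernel⟩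

def k23_pm_202 : ∃ t, chk3 f_pm_202 t 255 75 2 = true :=
  ⟨(c (b (a (c (b (c (l 16739096) (l 16738536)) (l 16738248)) (b (l 16737688) (l 16737088))) (a (c (c (b (l 16740528) (l 16739912)) (b (l 16739944) (l 16739328))) (b (c (l 16739368) (l 16738792)) (l 16739752))) (c (a (c (b (l 16741216) (l 16740608)) (b (l 16740632) (l 16740008))) (c (b (b (l 16741848) (l 16741544)) (c (l 16741216) (l 16740912))) (b (c (l 16741240) (l 16740944)) (c (l 16740616) (l 16740320))))) (c (b (c (l 16740424) (l 16740136)) (c (l 16739792) (l 16739496))) (b (c (l 16739840) (l 16739552)) (l 16739704)))))) (a (b (c (l 16737656) (l 16736480)) (c (l 16737080) (l 16735888))) (b (c (c (a (l 16739336) (c (l 14) (b (l 16740272) (l 14)))) (a (l 16738736) (b (l 16739824) (l 16739528)))) (c (a (l 16738136) (c (l 16739184) (l 16738888))) (b (l 16738168) (l 16737856)))) (c (c (l 14) (a (l 16738152) (a (l 16738832) (b (l 16739456) (l 16739168))))) (c (a (l 16737536) (c (l 16738592) (l 16738280))) (b (l 16737552) (l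 16738560))))))) (b (a (c (b (l 16736552) (l 16735928)) (b (l 16735416) (l 16734768))) (a (c (b (l 16737928) (l 16737264)) (b (l 16736768) (l 16736080))) (c (b (c (l 16739112) (l 16738528)) (c (l 16738448) (l 16737856))) (b (c (l 16737936) (l 16737352)) (c (l 16737256) (l 16736656)))))) (a (c (b (l 16735304) (l 16734680)) (b (l 16734120) (l 16733480))) (c (a (b (l 16736632) (l 16736008)) (c (b (l 16737824) (l 16737200)) (b (l 16737216) (l 16736576)))) (b (c (l 16736168) (l 16735560)) (c (l 16735520) (l 16734904))))))), by decide +kernel⟩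

def k24_pm_202 : ∃ t, chk3 f_pm_202 t 63 75 3 = true :=
  ⟨(a (a (c (b (l 16723336) (l 16722256)) (b (l 16721384) (l 16720200))) (c (b (c (l 16727512) (l 16726472)) (l 16725824)) (b (l 16730144) (l 16723632)))) (a (c (b (b (a (l 16730088) (l 16731912)) (l 16735648)) (c (l 16729880) (l 16728728))) (b (c (l 16734192) (l 16733080)) (c (l 16727568) (l 16726408)))) (c (b (c (a (b (l 16734272) (l 16733608)) (b (c (l 16736328) (l 16735744)) (c (l 16735624) (l 16735032)))) (a (b (l 16733128) (l 16732440)) (b (l 16736176) (l 16734136)))) (c (a (l 16732472) (b (c (l 16734952) (l 16734344)) (c (l 16734288) (l 16733664)))) (a (l 16731280) (b (l 16733432) (l 16732736))))) (b (c (a (l 16734176) (b (l 16733696) (l 16732936))) (a (l 16730400) (b (l 16732520) (l 16731744)))) (c (a (l 16730072) (b (l 16732208) (l 16731488))) (b (l 16730168) (l 16729432))))))), by decide +kernel⟩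

def k25_pm_202 : ∃ t, chk3 f_pm_202 t 30 38 1 = true :=
  ⟨(c (a (b (a (c (l 16698840) (l 16698968)) (c (l 16706944) (l 16706664))) (c (a (l 16697816) (l 16705912)) (a (l 16697992) (l 16705632)))) (b (b (c (l 16710248) (l 16709336)) (c (l 16709584) (l 16708640))) (c (a (l 16703552) (l 16711600)) (a (l 16713296) (l 16720904))))) (a (b (b (a (l 16679736) (l 16686744)) (c (l 16682808) (l 16682424))) (b (l 16697672) (l 16702208))) (b (b (c (l 16718816) (l 16717736)) (c (l 16718096) (l 16716984))) (a (c (l 16712448) (l 16711496)) (c (l 16719640) (l 16718288)))))), by decide +kernel⟩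

def k26_pm_202 : ∃ t, chk3 f_pm_202 t 62 38 1 = true :=
  ⟨(c (b (c (a (b (l 16711696) (l 16711032)) (b (l 16730104) (l 16729240))) (a (b (l 16710216) (l 16709488)) (b (l 16717776) (l 16716856)))) (c (a (b (l 16710224) (l 16709256)) (b (l 16728216) (l 16716688))) (a (b (l 16708632) (l 16707624)) (b (l 16715784) (l 16714696))))) (b (a (c (b (l 16708688) (l 16707888)) (b (l 16707096) (l 16706232))) (c (b (l 16715904) (l 16714904)) (b (l 16713984) (l 16712920)))) (a (b (a (l 16704448) (l 16707816)) (l 16715536)) (c (b (l 16713784) (l 16712648)) (b (l 16711736) (l 16710552)))))), by decide +kernel⟩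

def k27_pm_202 : ∃ t, chk3 f_pm_202 t 63 76 2 = true :=
  ⟨(a (a (c (b (l 16725392) (l 16724336)) (b (l 16723312) (l 16722192))) (c (b (c (l 16729648) (l 16728544)) (c (l 16728576) (l 16727440))) (b (l 16732112) (c (l 16726288) (l 16725136))))) (a (c (b (c (b (l 16733768) (l 16733216)) (b (l 16732600) (l 16732024))) (c (b (l 16732664) (l 14)) (b (l 16731456) (l 16730896)))) (b (c (b (l 16731424) (l 16730832)) (l 16735048)) (c (b (l 16730248) (l 16729664)) (l 16731232)))) (c (b (b (a (c (l 16736512) (l 16735296)) (c (c (l 14) (c (l 14) (b (l 16738040) (l 16739064)))) (c (a (l 16736952) (b (l 16738024) (l 16737728))) (a (l 16736328) (c (l 16737376) (l 16737064)))))) (a (c (l 16735952) (l 16734712)) (c (l 14) (c (a (l 16736376) (b (l 16737440) (l 16738464))) (a (l 16735736) (c (l 16736792) (l 16736464))))))) (c (l 14) (b (a (l 16734144) (c (c (l 14) (b (l 16736256) (l 16735976))) (a (l 16735160) (c (l 16736208) (l 16735880))))) (a (l 16733576) (c (l 14) (a (l 16734592) (b (l 16735640)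 (l 16735352)))))))) (b (a (c (b (l 16734072) (l 16733472)) (b (l 16732848) (l 16732224))) (c (a (b (l 16735392) (l 16734784)) (c (b (l 16736584) (c (l 16736144) (l 16735824))) (b (l 16735952) (l 16735344)))) (b (c (l 16736200) (l 16734256)) (c (a (l 16733832) (l 16734696)) (l 16733624))))) (a (c (b (l 16732880) (l 16732296)) (b (l 16731608) (l 16731000))) (c (b (a (l 16734192) (c (c (l 16735552) (l 16735232)) (l 16734736))) (a (l 16734912) (b (c (l 16734976) (l 16734312)) (c (l 16734688) (l 16734016))))) (b (c (a (l 16733216) (l 16734080)) (l 16733000)) (a (l 16732288) (c (l 16733472) (l 16732808)))))))))), by decide +kernel⟩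

def k28_pm_202 : ∃ t, chk3 f_pm_202 t 63 76 3 = true :=
  ⟨(a (c (b (c (l 16728696) (l 16732848)) (c (l 16727520) (l 16731624))) (b (a (l 16719056) (l 16722344)) (a (l 16717808) (l 16721048)))) (a (c (b (c (l 16728616) (l 16727424)) (c (l 16732616) (l 16726144))) (b (c (l 16726216) (l 16725016)) (c (l 16724896) (l 16723648)))) (c (b (c (a (l 16731176) (b (c (l 16733632) (l 16733000)) (c (l 16732984) (l 16732336)))) (a (l 16729936) (b (l 16732048) (l 16731376)))) (c (a (b (l 16730336) (l 16729704)) (b (c (l 16732344) (l 16731688)) (c (l 16731712) (l 16731048)))) (a (l 16728632) (b (l 16730704) (c (l 16730384) (l 16729712)))))) (b (c (a (l 16728688) (b (l 16730784) (l 16730080))) (b (l 16728704) (l 16727984))) (c (a (l 16727336) (b (l 16729392) (l 16728712))) (a (l 16726040) (b (l 16728072) (l 16727368)))))))), by decide +kernel⟩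

def k29_pm_202 : ∃ t, chk3 f_pm_202 t 63 77 2 = true :=
  ⟨(a (c (b (c (l 16730912) (l 16729784)) (c (l 14) (l 16733960))) (b (c (l 16733880) (l 16732736)) (c (l 16732792) (l 16721120)))) (c (c (l 14) (c (a (b (l 16730272) (l 14)) (l 14)) (b (a (l 16729640) (a (l 16732320) (b (a (l 16734024) (b (l 16736384) (l 14))) (l 14)))) (a (l 16728568) (l 14))))) (a (b (c (l 16733944) (l 16727432)) (c (l 16732840) (l 16726288))) (a (c (b (c (l 16731664) (l 16731008)) (c (l 16730568) (l 16729888))) (b (c (l 16730344) (l 16729680)) (c (l 16729208) (l 16728520)))) (b (a (b (c (l 16733024) (l 16731688)) (c (l 16733768) (l 16731096))) (c (c (b (c (l 16734408) (l 16734064)) (c (l 16733840) (l 16733496))) (b (c (l 16733728) (l 16733384)) (c (l 16733152) (l 16732808)))) (c (b (l 16732880) (l 16732288)) (b (l 16732200) (l 16731600))))) (a (c (c (b (l 16732240) (l 14)) (l 16732504)) (c (l 16730496) (l 16729800))) (c (c (b (c (l 14) (l 16732944)) (l 14)) (b (c (l 16732592) (l 16732240)) (c (l 16732040)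 (l 16731680)))) (c (b (l 16731712) (c (l 16731328) (l 16730968))) (b (l 16731008) (l 16730432)))))))))), by decide +kernel⟩

def k30_pm_202 : ∃ t, chk3 f_pm_202 t 63 77 3 = true :=
  ⟨(a (c (b (a (l 16718832) (l 16722184)) (a (l 16717664) (l 16721000))) (b (a (l 16716560) (l 16719760)) (a (l 16715328) (l 16718504)))) (a (c (b (c (l 16726160) (l 16724888)) (c (l 16724976) (l 16723664))) (b (c (l 16723600) (l 16722312)) (c (l 16722336) (l 16721000)))) (c (a (b (c (l 16728688) (l 16727352)) (c (l 16727496) (l 16726120))) (b (c (c (b (l 16731096) (l 16730488)) (b (l 16730416) (l 16729800))) (a (l 16728592) (b (l 16729808) (l 16729168)))) (c (c (b (l 16729888) (l 16730608)) (b (l 16729184) (l 16728584))) (a (l 16727344) (b (l 16728544) (l 16727920)))))) (a (b (c (l 16726016) (l 16724680)) (c (l 16724736) (l 16723344))) (b (c (b (l 16728040) (l 16727376)) (b (l 16726672) (l 16725984))) (c (b (l 16726728) (l 16726088)) (b (l 16725312) (l 16724648)))))))), by decide +kernel⟩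

def k31_pm_202 : ∃ t, chk3 f_pm_202 t 30 39 1 = true :=
  ⟨(c (b (a (c (l 16700776) (l 16700704)) (c (a (l 16691784) (l 16710000)) (a (l 16690992) (l 16708768)))) (a (c (l 16699400) (l 16699328)) (c (a (l 16690048) (l 16697680)) (a (l 16689248) (l 16696416))))) (b (a (b (l 16701504) (l 16700784)) (a (b (l 16690760) (l 16689840)) (b (l 16697408) (l 16696360)))) (a (c (l 16699080) (l 16698672)) (a (l 16708768) (a (l 16692688) (l 16706440)))))), by decide +kernel⟩

def k32_pm_202 : ∃ t, chk3 f_pm_202 t 62 78 1 = true :=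
  ⟨(c (c (a (l 16722840) (b (l 16715664) (l 16714664))) (a (l 16715952) (b (l 16713624) (l 16712576)))) (a (c (l 16724720) (l 16722920)) (c (b (l 16711528) (l 16710432)) (b (l 16709376) (l 16708224))))), by decide +kernel⟩

def k33_pm_202 : ∃ t, chk3 f_pm_202 t 63 78 1 = true :=
  ⟨(c (a (c (b (c (l 14) (l 16722440)) (l 14)) (b (a (l 16718888) (l 16722376)) (a (l 16717840) (l 16721328)))) (c (l 14) (a (b (c (l 16726528) (l 16725184)) (c (l 16725496) (l 16724112))) (a (c (b (c (l 14) (l 16728808)) (l 14)) (b (c (l 16728104) (l 16727400)) (c (l 16727040) (l 16726312)))) (a (c (b (c (l 14) (b (l 16730448) (l 14))) (l 14)) (b (c (l 16729392) (l 16728672)) (c (l 16728328) (l 16727584)))) (c (b (c (l 14) (b (c (l 14) (l 16731136)) (l 14))) (l 14)) (b (c (b (c (l 16730776) (l 16730408)) (c (l 16730232) (l 16729864))) (b (l 16729864) (l 16729304))) (c (b (c (l 14) (l 16729320)) (l 14)) (b (c (l 16728944) (l 16728576)) (c (l 16728416) (l 16728032))))))))))) (a (c (b (a (l 16716528) (l 16719848))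 (a (l 16715416) (l 16718720))) (b (l 16726184) (l 16724992))) (a (c (b (c (l 16723832) (l 16722472)) (c (l 16722720) (l 16721320))) (b (c (l 16721104) (l 16719728)) (c (l 16719912) (l 16718496)))) (c (a (b (c (l 16726336) (l 16724920)) (c (l 16725216) (l 16723752))) (b (c (c (a (l 16727952) (b (l 16729136) (l 16728568))) (b (l 16728000) (l 16727416))) (c (b (l 16727272) (l 16726680)) (b (l 16726544) (l 16725944)))) (c (a (c (l 16726840) (l 16726096)) (c (b (l 16728008) (l 16727464)) (b (l 16727256) (l 16726696)))) (c (b (l 16726096) (l 16725528)) (b (l 16725352) (l 16724768)))))) (a (b (c (l 16723488) (l 16722056)) (c (l 16722280) (l 16720808))) (b (b (c (l 16725456) (l 16723992)) (c (l 16724832) (l 16723352))) (b (c (c (l 16724600) (l 16723848)) (l 16722712)) (c (c (l 16724008) (l 16723240)) (l 16722088))))))))), by decide +kernel⟩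

def k34_pm_202 : ∃ t, chk3 f_pm_202 t 31 79 1 = true :=
  ⟨(a (c (c (a (l 16715760) (l 14)) (a (l 16714048) (b (l 16711560) (l 16710568)))) (a (c (l 16701768) (l 16699888)) (c (b (l 16709360) (l 16708320)) (b (l 16707104) (l 16706000))))) (c (c (l 14) (c (a (b (l 16719200) (l 14)) (l 14)) (b (a (l 16717920) (a (l 16723072) (c (l 14) (a (l 16725264) (b (a (l 16726856) (c (l 14) (l 16727504))) (l 14)))))) (a (l 16716920) (a (l 16722072) (l 14)))))) (a (c (a (l 16723968) (b (l 16717632) (l 16716576))) (b (l 16723840) (l 16712224))) (a (c (b (c (l 16721640) (l 16720200)) (c (l 16720600) (l 16719120))) (b (c (l 16718752) (l 16717296)) (c (l 16717632) (l 16716128)))) (c (a (b (c (l 16724136) (l 16722632)) (c (l 16723104) (l 16721552))) (a (c (b (c (l 16725768) (l 16725000)) (c (l 16724744) (l 16723952))) (b (c (l 16724232) (l 16723456)) (c (l 16723160) (l 16722360)))) (c (b (c (b (l 16728232) (c (l 16726592) (l 16726200))) (b (l 16726152) (l 16725608))) (c (b (c (l 14) (l 16725680))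 (l 14)) (b (l 16725080) (c (l 16724768) (l 16724360))))) (b (c (b (l 16725376) (l 16724824)) (b (l 16724592) (l 16724032))) (c (b (l 16724280) (l 16723752)) (b (l 16723480) (l 16722944))))))) (a (b (c (l 16721120) (l 16719592)) (c (l 16719992) (l 16718424))) (b (b (c (c (l 16723424) (l 16722648)) (l 16721480)) (c (c (l 16722848) (l 16722064)) (l 16720880))) (b (c (c (l 16722288) (l 16721488)) (l 16720288)) (c (c (l 16721736) (l 16720920)) (l 16719704)))))))))), by decide +kernel⟩

def k35_pm_202 : ∃ t, chk3 f_pm_202 t 14 40 1 = true :=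
  ⟨(b (a (c (c (a (l 16633376) (l 16649704)) (l 16656064)) (a (l 16643960) (l 16657448))) (c (a (l 16672448) (c (l 16682152) (l 16662200))) (a (l 16670944) (l 16684240)))) (a (c (a (l 16634720) (l 16650544)) (a (l 16643160) (l 16656608))) (c (a (l 16671352) (c (l 16696400) (l 16660720))) (a (l 16669856) (l 16682760))))), by decide +kernel⟩

def k36_pm_202 : ∃ t, chk3 f_pm_202 t 30 40 1 = true :=
  ⟨(b (c (a (c (l 16697720) (l 16697664)) (c (a (l 16688272) (l 16695920)) (a (l 16687456) (l 16694608)))) (a (c (l 16697424) (l 16676024)) (c (l 16710808) (l 16709480)))) (c (a (c (l 16690816) (l 16696016)) (c (b (l 16698336) (l 16759688)) (l 16710336))) (a (c (l 16674776) (l 16674312)) (c (l 16709072) (l 16707664))))), by decide +kernel⟩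

def k37_pm_202 : ∃ t, chk3 f_pm_202 t 62 40 1 = true :=
  ⟨(a (c (b (c (l 16714016) (l 16701752)) (c (l 16712624) (l 16700080))) (b (c (l 16699872) (l 16697888)) (c (l 16698096) (l 16696008)))) (c (b (c (l 14) (b (l 16709608) (l 16708688))) (l 14)) (b (c (l 16719648) (l 16714624)) (c (l 16715232) (l 16712704))))), by decide +kernel⟩

def k38_pm_202 : ∃ t, chk3 f_pm_202 t 63 40 2 = true :=
  ⟨(a (b (c (l 14) (b (c (l 14) (l 16715952)) (l 14))) (l 14)) (l 14)), by decide +kernel⟩

def k39_pm_202 : ∃ t, chk3 f_pm_202 t 126 40 3 = true :=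
  ⟨(b (c (a (l 16722016) (c (l 16726048) (l 16724616))) (b (l 16711136) (l 16710080))) (c (a (l 16720216) (b (l 16713640) (l 16712752))) (b (l 16709064) (l 16708096)))), by decide +kernel⟩

def k40_pm_202 : ∃ t, chk3 f_pm_202 t 127 40 3 = true :=
  ⟨(b (a (c (b (c (l 16719608) (l 16718080)) (c (l 16718648) (l 16717088))) (b (c (l 16716552) (l 16715008)) (c (l 16715512) (l 16713928)))) (c (a (c (b (l 16724728) (l 14)) (b (l 16720512) (l 16719512))) (a (c (b (c (l 14) (l 16722944)) (l 14)) (b (c (l 16722128) (l 16721312)) (c (l 16721144) (l 16720304)))) (c (b (c (l 14) (b (c (l 14) (l 16723856)) (l 14))) (l 14)) (b (c (b (l 16723240) (l 16722728)) (b (l 16722416) (l 16721896))) (c (b (c (l 14) (l 16722024)) (l 14)) (b (l 16721384) (l 16720888))))))) (a (b (c (l 16718904) (l 16717288)) (c (l 16717864) (l 16716208))) (b (c (c (b (l 16721192) (l 16720664)) (b (l 16720368) (l 16719832))) (a (l 16718432) (b (l 16719512) (l 16718952)))) (c (c (b (l 16720144) (a (l 16719240) (l 16720032)))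 (b (l 16719296) (l 16718784))) (a (l 16717344) (b (l 16718408) (l 16719184)))))))) (a (c (c (l 14) (b (l 16716128) (l 16715216))) (b (c (l 16714512) (l 16712880)) (c (l 16713560) (l 16711888)))) (c (b (c (l 14) (a (l 16718552) (b (c (l 14) (b (l 16720136) (l 16719896))) (l 14)))) (l 14)) (a (b (c (l 16716864) (l 16715160)) (c (l 16715912) (l 16714160))) (b (c (a (c (l 16718472) (l 16717600)) (c (b (l 16719536) (l 16719048)) (b (l 16718656) (l 16718160)))) (c (b (l 16717400) (l 16716896)) (b (l 16716528) (l 16716008)))) (c (a (c (l 16717528) (l 16716640)) (c (b (c (l 14) (l 16718352)) (l 14)) (b (l 16717680) (l 16717200)))) (c (b (l 16716392) (a (l 16715528) (l 16716288))) (b (l 16715496) (l 16715000))))))))), by decide +kernel⟩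

def k41_pm_202 : ∃ t, chk3 f_pm_202 t 14 41 1 = true :=
  ⟨(b (a (c (a (l 16652344) (l 16704656)) (a (l 16642760) (l 16655936))) (c (a (c (l 16815024) (l 16645224)) (c (l 16822640) (l 16659504))) (a (l 16668776) (l 16681424)))) (a (b (c (a (l 16753760) (l 16760512)) (l 16649144)) (c (b (a (l 16800200) (l 16805424)) (a (l 16829680) (c (l 16965720) (l 16701968)))) (b (l 16649296) (a (l 16642888) (l 16655384))))) (b (c (a (l 16768880) (c (l 16905560) (l 16658960))) (a (l 16647120) (l 16659664))) (c (b (a (l 16812192) (c (l 16943848) (l 16697160))) (a (c (l 16966208) (l 16713080)) (c (l 16968208) (l 16725792)))) (b (a (l 16647032) (l 16659480)) (a (l 16667816) (c (l 16680216) (l 16680160)))))))), by decide +kernel⟩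

def k42_pm_202 : ∃ t, chk3 f_pm_202 t 30 41 1 = true :=
  ⟨(b (c (a (c (b (l 16803792) (l 16859600)) (l 16694728)) (c (a (l 16840656) (l 16700152)) (a (l 16684456) (l 16691584)))) (a (c (l 16694360) (l 16672816)) (c (b (l 16687072) (l 16686312)) (l 16706064)))) (c (b (a (c (l 16911624) (l 16673104)) (c (l 16856648) (l 16689552))) (b (a (c (l 16948408) (l 16712840)) (c (l 16954760) (a (l 16725792) (l 16735024)))) (a (c (a (l 16970784) (l 16973024)) (l 16698264)) (a (c (l 16975712) (a (l 16750096) (l 16733296))) (c (a (l 16978016) (l 16979688)) (l 16708312)))))) (b (a (l 16693216) (c (l 16685736) (l 16684048))) (b (a (l 16692936) (c (l 16685448) (l 16683624))) (a (c (l 16693136) (l 16692128)) (a (c (l 16702872) (l 16680200)) (c (l 16709392) (l 16707240)))))))), by decide +kernel⟩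

def k43_pm_202 : ∃ t, chk3 f_pm_202 t 31 41 1 = true :=
  ⟨(c (a (a (b (c (l 16712208) (l 16709184)) (b (c (l 16926776) (l 16705552)) (b (c (l 16960728) (l 16744736)) (c (c (l 17035464) (a (l 16928032) (l 16930616))) (a (l 16704544) (a (l 16708008) (l 16712968))))))) (l 14)) (l 14)) (b (a (c (a (l 16696576) (b (l 16703640) (l 16702864))) (b (l 16708392) (l 16707536))) (a (c (b (a (l 16708608) (l 14)) (l 14)) (b (l 16717656) (a (l 16704752) (l 16707840)))) (c (l 14) (a (b (c (l 16712656) (l 16710936)) (c (l 16711800) (l 16710040))) (a (b (c (l 16717624) (l 16713208)) (c (l 14) (b (l 16712536) (l 16712096)))) (b (c (b (c (l 14) (b (l 16716472) (l 16716248))) (l 14)) (a (c (l 16714808) (l 16713888)) (c (b (l 16715816) (l 16715352)) (b (l 16714888) (l 16714416))))) (c (l 14) (a (b (l 16713672) (l 16713232)) (b (c (c (l 14) (l 16714672)) (l 16713960)) (c (l 14) (c (l 16713744) (l 16713264)))))))))))) (b (c (a (a (l 16695624) (l 14)) (l 14)) (c (a (l 16707464) (a (l 16716840) (l 14)))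 (a (l 16716616) (a (l 16715184) (a (b (l 16709392) (l 16708984)) (a (b (l 16711664) (l 16711256)) (b (c (l 14) (b (l 16712800) (l 16712584))) (l 14)))))))) (a (b (c (a (l 16695264) (l 14)) (a (l 16692760) (l 16698872))) (b (b (b (c (l 16698352) (l 16695568)) (c (a (l 16695120) (l 14)) (b (l 16695568) (l 16706056)))) (c (l 16698336) (l 16695504))) (c (l 16698160) (l 16695328)))) (c (l 14) (c (l 14) (b (a (b (l 16704152) (l 16703984)) (a (b (l 16708680) (l 16708504)) (l 14))) (a (b (b (b (l 16703856) (b (l 16703832) (l 16703824))) (l 16703752)) (l 16703592)) (l 14))))))))), by decide +kernel⟩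

def k44_pm_202 : ∃ t, chk3 f_pm_202 t 7 21 1 = true :=
  ⟨(a (b (a (c (a (b (l 16898072) (l 16994808)) (b (l 16900096) (l 16993976))) (a (l 16637488) (l 16660824))) (c (a (b (l 16798688) (l 16952536)) (b (c (l 17024616) (l 16792280)) (c (l 17105184) (l 16887536)))) (a (b (l 16644880) (l 16642064)) (b (l 16657408) (l 16654840))))) (c (a (a (l 17052504) (c (l 17218168) (l 17004864))) (a (c (l 17211928) (l 17005896)) (c (l 17206952) (l 17008320)))) (a (b (l 16648704) (l 16727096)) (a (b (l 16648072) (l 16742480)) (b (l 16663512) (l 16754528)))))) (a (b (c (a (b (c (l 17026208) (l 16803864)) (c (l 17104232) (l 16895472))) (b (c (l 17029496) (a (l 16813704) (l 16820832))) (c (l 17104896) (l 16905120)))) (a (b (l 16680480) (l 16678176)) (b (c (l 16683640) (l 16681712)) (c (l 16704896) (l 16679720))))) (c (a (c (l 17203368) (b (l 16975984) (l 17047040))) (c (l 17201312) (b (l 16982752) (l 17051576)))) (a (b (l 16680528) (l 16747144)) (b (c (l 16793832) (l 16677728)) (c (l 16872848) (l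 16693840)))))) (c (b (a (c (b (a (l 17033120) (l 17036056)) (l 17107224)) (a (b (l 16828416) (l 16913512)) (l 14))) (c (b (c (l 17068120) (l 14)) (a (l 17110080) (l 17112488))) (l 14))) (c (a (l 17200832) (b (l 17173536) (l 17229224))) (a (b (a (l 16988960) (l 16993632)) (l 17057784)) (b (a (l 16935816) (c (l 17046840) (l 14))) (a (l 17063576) (l 17067952)))))) (c (a (a (b (a (l 16690208) (l 16704088)) (l 16700904)) (l 14)) (l 14)) (a (a (b (b (l 16690952) (l 16689152)) (l 16696424)) (b (b (l 16697136) (l 14)) (l 14))) (b (a (b (a (l 16701784) (l 14)) (l 14)) (l 14)) (l 14))))))), by decide +kernel⟩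

def k45_pm_202 : ∃ t, chk3 f_pm_202 t 7 11 1 = true :=
  ⟨(a (b (c (b (a (c (l 17334232) (l 17142112)) (c (l 17318512) (l 17138040))) (a (l 17334048) (l 17322080))) (b (a (a (l 16850984) (l 16856552)) (a (l 16758544) (b (l 16835104) (l 16906688)))) (a (a (l 16988760) (l 16991136)) (a (l 16994704) (l 16852768))))) (c (b (a (l 17408840) (l 17396504)) (l 17462008)) (b (a (b (l 17072616) (l 17121592)) (b (l 17076728) (l 17124360))) (a (l 17187424) (l 17188848))))) (b (a (c (b (c (l 17307584) (a (l 17138560) (l 17140720))) (c (l 17391072) (l 17238440))) (b (a (b (l 16804024) (l 16894416)) (b (c (l 16943312) (l 16773592)) (c (l 17006352) (l 16845072)))) (a (c (l 17083440) (l 16928352)) (c (l 17088848) (b (l 16909312) (l 16967216)))))) (c (b (a (c (l 17303224) (l 17144496)) (c (l 17302024) (b (l 17123424) (l 17175424)))) (c (l 17383736) (a (l 17240688) (l 17244032)))) (c (b (a (b (l 16891432) (l 17015496)) (b (a (l 16942824) (c (l 17009360) (l 14))) (a (l 17023520) (l 17008440)))) (a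 (l 17095928) (b (l 17079992) (l 17128584)))) (b (a (a (b (l 16786504) (l 16856120)) (l 14)) (l 14)) (a (b (l 16922312) (l 16978648)) (b (a (l 16933248) (c (l 16976552) (l 14))) (a (l 16988424) (l 16974536)))))))) (c (a (b (l 17388288) (l 17449136)) (b (c (l 17449952) (l 17320000)) (l 17445192))) (a (b (c (l 17179304) (a (l 17036456) (l 17044384))) (l 17173848)) (b (a (c (l 17186720) (b (l 17029752) (l 17077312))) (c (l 17193576) (b (l 16978840) (l 17088136)))) (c (l 17266552) (a (l 17142344) (l 17152256)))))))), by decide +kernel⟩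

def k46_pm_202 : ∃ t, chk3 f_pm_202 t 3 3 1 = true :=
  ⟨(b (a (b (c (a (l 17600432) (b (l 17552528) (l 17601552))) (a (b (l 17307288) (l 17393928)) (b (a (l 17298360) (l 17293320)) (l 17387648)))) (a (c (l 17623840) (l 17456360)) (c (l 17623696) (l 17459736)))) (b (a (c (b (l 17529552) (l 17585784)) (b (a (l 17291000) (l 17291288)) (l 17385024))) (c (b (a (l 17518344) (l 17514576)) (l 17575376)) (b (a (b (l 17265184) (l 17323200)) (b (c (l 17330488) (l 17221136)) (l 17332944))) (a (l 17390720) (l 17399608))))) (a (c (l 17618512) (l 17463304)) (c (l 17615336) (b (l 17454536) (l 17488936)))))) (a (b (a (l 17518536) (l 17533696)) (a (l 17450184) (l 17475592))) (b (a (l 17543504) (l 17721696)) (a (l 17494248) (l 17510880))))), by decide +kernel⟩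

theorem s47_pm_202 : ∃ t, chk3 f_pm_202 t 15 41 1 = true := ex3_a k42_pm_202 k43_pm_202

theorem s48_pm_202 : ∃ t, chk3 f_pm_202 t 7 41 1 = true := ex3_a k41_pm_202 s47_pm_202

theorem s49_pm_202 : ∃ t, chk3 f_pm_202 t 63 40 3 = true := ex3_a k39_pm_202 k40_pm_202

theorem s50_pm_202 : ∃ t, chk3 f_pm_202 t 63 40 1 = true := ex3_c k38_pm_202 s49_pm_202

theorem s51_pm_202 : ∃ t, chk3 f_pm_202 t 31 40 1 = true := ex3_a k37_pm_202 s50_pm_202

theorem s52_pm_202 : ∃ t, chk3 f_pm_202 t 15 40 1 = true := ex3_a k36_pm_202 s51_pm_202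

theorem s53_pm_202 : ∃ t, chk3 f_pm_202 t 7 40 1 = true := ex3_a k35_pm_202 s52_pm_202

theorem s54_pm_202 : ∃ t, chk3 f_pm_202 t 7 20 1 = true := ex3_b s53_pm_202 s48_pm_202

theorem s55_pm_202 : ∃ t, chk3 f_pm_202 t 7 10 1 = true := ex3_b s54_pm_202 k44_pm_202

theorem s56_pm_202 : ∃ t, chk3 f_pm_202 t 7 5 1 = true := ex3_b s55_pm_202 k45_pm_202

theorem s57_pm_202 : ∃ t, chk3 f_pm_202 t 31 78 1 = true := ex3_a k32_pm_202 k33_pm_202

theorem s58_pm_202 : ∃ t, chk3 f_pm_202 t 31 39 1 = true := ex3_b s57_pm_202 k34_pm_202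

theorem s59_pm_202 : ∃ t, chk3 f_pm_202 t 15 39 1 = true := ex3_a k31_pm_202 s58_pm_202

theorem s60_pm_202 : ∃ t, chk3 f_pm_202 t 63 77 1 = true := ex3_c k29_pm_202 k30_pm_202

theorem s61_pm_202 : ∃ t, chk3 f_pm_202 t 63 76 1 = true := ex3_c k27_pm_202 k28_pm_202

theorem s62_pm_202 : ∃ t, chk3 f_pm_202 t 63 38 1 = true := ex3_b s61_pm_202 s60_pm_202

theorem s63_pm_202 : ∃ t, chk3 f_pm_202 t 31 38 1 = true := ex3_a k26_pm_202 s62_pm_202

theorem s64_pm_202 : ∃ t, chk3 f_pm_202 t 15 38 1 = true := ex3_a k25_pm_202 s63_pm_202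

theorem s65_pm_202 : ∃ t, chk3 f_pm_202 t 15 19 1 = true := ex3_b s64_pm_202 s59_pm_202

theorem s66_pm_202 : ∃ t, chk3 f_pm_202 t 127 75 2 = true := ex3_a k22_pm_202 k23_pm_202

theorem s67_pm_202 : ∃ t, chk3 f_pm_202 t 63 75 2 = true := ex3_a k21_pm_202 s66_pm_202

theorem s68_pm_202 : ∃ t, chk3 f_pm_202 t 63 75 1 = true := ex3_c s67_pm_202 k24_pm_202

theorem s69_pm_202 : ∃ t, chk3 f_pm_202 t 31 75 1 = true := ex3_a k20_pm_202 s68_pm_202

theorem s70_pm_202 : ∃ t, chk3 f_pm_202 t 15 75 1 = true := ex3_a k19_pm_202 s69_pm_202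

theorem s71_pm_202 : ∃ t, chk3 f_pm_202 t 63 74 1 = true := ex3_c k17_pm_202 k18_pm_202

theorem s72_pm_202 : ∃ t, chk3 f_pm_202 t 31 74 1 = true := ex3_a k16_pm_202 s71_pm_202

theorem s73_pm_202 : ∃ t, chk3 f_pm_202 t 15 74 1 = true := ex3_a k15_pm_202 s72_pm_202

theorem s74_pm_202 : ∃ t, chk3 f_pm_202 t 15 37 1 = true := ex3_b s73_pm_202 s70_pm_202

theorem s75_pm_202 : ∃ t, chk3 f_pm_202 t 63 36 1 = true := ex3_c k13_pm_202 k14_pm_202

theorem s76_pm_202 : ∃ t, chk3 f_pm_202 t 31 36 1 = true := ex3_a k12_pm_202 s75_pm_202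

theorem s77_pm_202 : ∃ t, chk3 f_pm_202 t 15 36 1 = true := ex3_a k11_pm_202 s76_pm_202

theorem s78_pm_202 : ∃ t, chk3 f_pm_202 t 15 18 1 = true := ex3_b s77_pm_202 s74_pm_202

theorem s79_pm_202 : ∃ t, chk3 f_pm_202 t 15 9 1 = true := ex3_b s78_pm_202 s65_pm_202

theorem s80_pm_202 : ∃ t, chk3 f_pm_202 t 15 4 1 = true := ex3_b k10_pm_202 s79_pm_202

theorem s81_pm_202 : ∃ t, chk3 f_pm_202 t 14 9 1 = true := ex3_b k8_pm_202 k9_pm_202

theorem s82_pm_202 : ∃ t, chk3 f_pm_202 t 14 4 1 = true := ex3_b k7_pm_202 s81_pm_202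

theorem s83_pm_202 : ∃ t, chk3 f_pm_202 t 7 4 1 = true := ex3_a s82_pm_202 s80_pm_202

theorem s84_pm_202 : ∃ t, chk3 f_pm_202 t 7 2 1 = true := ex3_b s83_pm_202 s56_pm_202

theorem s85_pm_202 : ∃ t, chk3 f_pm_202 t 6 5 1 = true := ex3_b k5_pm_202 k6_pm_202

theorem s86_pm_202 : ∃ t, chk3 f_pm_202 t 6 4 1 = true := ex3_a k3_pm_202 k4_pm_202

theorem s87_pm_202 : ∃ t, chk3 f_pm_202 t 6 2 1 = true := ex3_b s86_pm_202 s85_pm_202

theorem s88_pm_202 : ∃ t, chk3 f_pm_202 t 3 2 1 = true := ex3_a s87_pm_202 s84_pm_202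

theorem s89_pm_202 : ∃ t, chk3 f_pm_202 t 3 1 1 = true := ex3_b s88_pm_202 k46_pm_202

theorem s90_pm_202 : ∃ t, chk3 f_pm_202 t 2 2 1 = true := ex3_a k0_pm_202 k1_pm_202

theorem s91_pm_202 : ∃ t, chk3 f_pm_202 t 2 1 1 = true := ex3_b s90_pm_202 k2_pm_202

theorem s92_pm_202 : ∃ t, chk3 f_pm_202 t 1 1 1 = true := ex3_a s91_pm_202 s89_pm_202

theorem c_pm_202 : CertN 0 536870912 0 536870912 134217728 67108864 3 true true false .pp 2 0 2
    ndN0q2 ndN0q0 pcN2 cut_pm_202 Ext.none :=
  certN1 (fam := true) (s1 := true) (s2 := false) (a := 2) (b := 0) (c := 2) (cn := .pp) (n1 := ndN0q2) (n2 := ndN0q0) (pc := pcN2) (cut := cut_pm_202) (xt := Ext.none) (P1 := 0) (W1 := 536870912) (P2 := 0) (W2 := 536870912) (P3 := 134217728) (W3 := 67108864) (N0 := 3)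
    rfl (fun _ => rfl) s92_pm_202

noncomputable def f_pm_203 : ℕ → ℕ → ℕ → ℕ → Bool := onCell 0 536870912 0 536870912 134217728 67108864
    (rowN 3 0 true true false .up 2 0 3 (qsf 0 536870912 0 536870912 3) ndN0q2 ndN0q0 pcN3 Cut.none Ext.none)

def k0_pm_203 : ∃ t, chk3 f_pm_203 t 1 1 1 = true :=
  ⟨(a (b (l 1) (b (b (l 1) (b (a (a (l 1) (l 1)) (l 1)) (a (a (l 17383496) (l 17576216)) (l 17612312)))) (a (b (a (b (l 17293304) (l 17206080)) (b (l 17447072) (l 17352976))) (a (b (l 17122544) (l 17001264)) (b (l 17265392) (l 17182192)))) (b (a (l 17495352) (l 17552592)) (a (b (l 17395856) (l 17324976)) (l 17438672)))))) (b (l 1) (b (a (l 1) (l 1)) (a (b (a (l 17604768) (l 17654552)) (l 17540664)) (b (c (l 106336409543) (l 113852118791)) (a (l 17643776) (l 79492320471))))))), by decide +kernel⟩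

theorem c_pm_203 : CertN 0 536870912 0 536870912 134217728 67108864 3 true true false .up 2 0 3
    ndN0q2 ndN0q0 pcN3 Cut.none Ext.none :=
  certN0 (fam := true) (s1 := true) (s2 := false) (a := 2) (b := 0) (c := 3) (cn := .up) (n1 := ndN0q2) (n2 := ndN0q0) (pc := pcN3) (cut := Cut.none) (xt := Ext.none) (P1 := 0) (W1 := 536870912) (P2 := 0) (W2 := 536870912) (P3 := 134217728) (W3 := 67108864) (N0 := 3)
    rfl k0_pm_203

noncomputable def cut_pm_213 : Cut := Cut.of [[⟨0, 1, 0, 39843005⟩, ⟨1, 1, 0, 39843005⟩, ⟨2, 2, 0, 5814905⟩]]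

noncomputable def f_pm_213 : ℕ → ℕ → ℕ → ℕ → Bool := onCell 0 536870912 1610612736 536870912 134217728 67108864
    (rowN 3 1 true true false .pnn 2 1 3 (qsf 0 536870912 536870912 536870912 3) ndN0q2 ndN0q1 pcN3 cut_pm_213 Ext.none)

def k0_pm_213 : ∃ t, chk3 f_pm_213 t 1 2 1 = true :=
  ⟨(a (b (a (l 1) (b (l 1) (a (l 1) (l 17441832)))) (a (b (b (a (l 16995536) (l 17164768)) (a (a (l 16911960) (l 16995736)) (l 17088016))) (a (a (b (b (l 16881664) (l 16848640)) (b (a (b (l 16810136) (l 16816520)) (l 16831592)) (a (b (l 90429292071) (l 116199036215)) (l 59827650375)))) (b (l 16925616) (b (l 16875216) (l 16842776)))) (b (l 16994176) (a (l 16895296) (l 16974064))))) (b (a (a (l 17219712) (l 17311224)) (l 17323240)) (a (b (l 17135568) (l 17061264)) (b (l 17234720) (l 17170360)))))) (b (a (b (l 1) (a (l 17479368) (l 17517448))) (b (a (l 17636648) (l 17719352)) (a (l 17555208) (l 17600752)))) (a (b (a (l 17371928) (l 17415936)) (a (l 17260632) (l 17302536))) (b (a (l 17457472) (l 17498664))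 (a (l 17339792) (l 17374520)))))), by decide +kernel⟩

def k1_pm_213 : ∃ t, chk3 f_pm_213 t 1 6 1 = true :=
  ⟨(a (b (b (a (a (a (b (b (l 107609193335) (l 123178431159)) (l 4)) (b (a (l 62512003495) (l 16825400)) (a (b (l 101703534023) (l 117272781655)) (l 67343842151)))) (a (b (l 16866680) (l 16834784)) (l 16863824))) (a (a (l 16962056) (l 17017984)) (l 17075184))) (a (a (a (l 4) (b (a (l 4) (l 110830409527)) (l 4))) (a (b (a (l 73786297271) (l 16817096)) (a (l 118346605671) (l 81839367431))) (b (l 16835872) (a (l 16812248) (l 16837984))))) (a (a (b (l 16910656) (l 16876840)) (l 16946320)) (l 16961752)))) (a (a (l 4) (b (a (b (a (l 4) (b (l 120494025687) (l 4))) (l 4)) (b (a (b (l 16810840) (l 103851018663)) (l 16806232)) (a (b (l 122641534615) (l 4)) (l 96334885399)))) (a (l 4) (l 4)))) (b (a (a (b (l 16843344) (a (l 57680160391) (l 16822856))) (b (l 16893272) (l 16858584))) (a (l 16882056) (l 16971968))) (a (a (b (a (b (l 89355539767) (l 127473339015)) (b (l 16799048) (l 16818696)))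 (a (l 4) (b (l 122104654103) (l 4)))) (b (a (l 16813800) (l 16836504)) (a (l 85597461927) (l 16803880)))) (a (b (l 16870336) (l 16835928)) (b (l 16914992) (l 16878288))))))) (a (b (a (b (l 17170360) (l 17103760)) (l 17177024)) (a (a (b (l 17019104) (l 16938808)) (b (l 17050416) (l 16978000))) (b (l 17076320) (l 17008008)))) (a (b (l 17248056) (b (l 17101528) (l 17121016))) (b (l 17294504) (a (l 17122696) (l 17135952)))))), by decide +kernel⟩

def k2_pm_213 : ∃ t, chk3 f_pm_213 t 1 14 1 = true :=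
  ⟨(a (a (l 4) (b (a (a (l 4) (b (a (b (l 132842079591) (l 4)) (b (l 86671174679) (l 129083987367))) (l 4))) (b (a (a (b (l 16801152) (l 16806792)) (l 16813360)) (l 16843184)) (a (a (b (l 118346563495) (l 143579501767)) (b (l 16810744) (l 102240420823))) (c (l 16811536) (l 16808432))))) (a (l 4) (b (a (a (l 4) (b (a (l 4) (l 133378922487)) (l 4))) (a (b (l 86134297991) (a (l 4) (b (l 90966116407) (l 111367193815)))) (b (l 16795448) (l 85060549031)))) (a (l 4) (a (l 4) (b (b (l 126936485527) (l 121030893159)) (l 4)))))))) (a (b (a (a (b (l 16882320) (l 16825664)) (b (l 16920544) (l 16882320))) (a (l 17015808) (l 16950096))) (a (a (b (b (l 16821368) (l 16805184)) (b (a (l 80228705847) (l 16797704)) (a (b (a (l 110830317655) (l 16808248)) (a (l 4) (l 110293445415))) (l 75933734439)))) (b (l 16825304) (b (l 16820896) (l 16804800)))) (b (a (l 16878496) (l 16902176)) (a (l 16821256) (l 16910600))))) (a (b (l 16964736) (l 16985584)) (b (a (l 16978536) (l 16991208)) (l 17043624))))), by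 decide +kernel⟩

def k3_pm_213 : ∃ t, chk3 f_pm_213 t 2 15 1 = true :=
  ⟨(l 4), by decide +kernel⟩

def k4_pm_213 : ∃ t, chk3 f_pm_213 t 3 30 1 = true :=
  ⟨(a (a (b (a (b (a (l 4) (b (a (l 110293444343) (l 16796784)) (a (l 4) (l 110830335415)))) (l 4)) (b (a (l 81302451575) (l 16796512)) (a (b (a (l 143579460535) (l 16796152)) (a (l 4) (l 147337567239))) (b (l 16785280) (l 82913047079))))) (a (l 4) (b (a (l 4) (b (a (b (l 111367181895) (l 4)) (l 84523654871)) (a (l 4) (b (l 114588407911) (l 4))))) (l 4)))) (b (a (a (b (l 16810288) (l 16794664)) (l 16794464)) (b (l 16843280) (l 16847024))) (a (b (a (a (c (l 83986793271) (l 89892375159)) (l 16803960)) (l 16791944)) (a (b (a (b (l 126399569383) (l 4)) (b (l 84523646519) (a (l 4) (l 94724193639)))) (l 4)) (b (l 81302430215) (a (b (a (l 111367176775) (l 16794256)) (a (l 4) (l 115662145111))) (l 83449906247))))) (b (a (l 16803712) (l 16815272)) (a (b (l 16792136) (l 16805688)) (l 16799112)))))) (a (b (a (l 16895720) (l 16862784)) (b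 (a (a (l 16826472) (l 16835584)) (l 16841696)) (a (a (l 16788688) (l 16798448)) (l 16828344)))) (b (l 16936024) (b (l 16914240) (l 16899880))))), by decide +kernel⟩

def k5_pm_213 : ∃ t, chk3 f_pm_213 t 3 62 1 = true :=
  ⟨(a (a (l 4) (a (b (a (l 4) (b (a (l 4) (b (a (l 121030855783) (l 94724192119)) (l 4))) (l 4))) (l 4)) (b (a (b (c (l 86671139895) (c (l 88281752967) (l 83449912967))) (a (b (a (l 4) (l 126936454407)) (l 4)) (b (l 87744869431) (a (l 4) (c (l 153243125831) (l 119957128791)))))) (b (l 16787672) (a (l 82913030167) (l 16782800)))) (a (l 4) (b (a (b (a (c (l 126936453719) (l 132305162039)) (c (l 137673861415) (l 140895086647))) (l 4)) (a (b (l 16791936) (b (l 94187314183) (l 4))) (l 87744868583))) (a (l 4) (a (l 4) (b (b (l 129620805511) (l 4)) (l 4))))))))) (a (a (b (a (b (l 16776592) (l 16789808)) (l 16803080)) (b (a (a (l 16790928) (l 16784592)) (l 16791056)) (b (b (a (l 82913026615) (l 16786248)) (a (a (a (l 127473310087) (l 16786480)) (l 16780376)) (l 16784360)))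 (b (a (a (a (l 4) (a (l 4) (l 118883383223))) (l 16785920)) (l 16782504)) (a (a (l 4) (a (a (l 134989491735) (l 116199027847)) (l 16785888))) (l 16791160)))))) (b (a (l 16832296) (l 16816208)) (b (c (l 16845072) (l 16843368)) (a (l 16791296) (l 16819224))))) (a (l 16844632) (b (l 16824920) (l 16852768))))), by decide +kernel⟩

def k6_pm_213 : ∃ t, chk3 f_pm_213 t 6 63 1 = true :=
  ⟨(l 4), by decide +kernel⟩

def k7_pm_213 : ∃ t, chk3 f_pm_213 t 7 126 1 = true :=
  ⟨(a (a (b (a (b (b (a (l 4) (a (l 4) (a (l 133378888615) (l 93113567127)))) (l 4)) (l 4)) (b (b (l 81839282039) (a (a (a (l 132842017079) (l 93113566599)) (l 16785440)) (l 16779656))) (b (b (a (a (l 4) (l 86671115319)) (l 16779776)) (a (a (l 4) (l 133378887463)) (l 16785136))) (b (a (l 4) (l 83986762599)) (a (l 4) (a (a (l 4) (l 94187306887)) (l 16785144))))))) (a (l 4) (b (b (b (a (l 4) (a (l 4) (l 86671115527))) (a (l 4) (a (l 4) (a (l 4) (l 134989498247))))) (l 4)) (l 4)))) (b (a (b (l 16785392) (c (l 16792240) (l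 16791928))) (c (l 16790368) (l 16810568))) (a (b (b (a (l 16784816) (l 16780536)) (b (a (c (l 90966083575) (l 88281729207)) (l 16779160)) (a (a (a (l 4) (l 143042562439)) (l 16784992)) (l 16779112)))) (a (b (b (a (l 4) (a (l 147874401159) (l 16783944))) (l 4)) (l 4)) (c (b (l 86134243879) (b (a (a (l 4) (l 198877135367)) (l 16784456)) (a (l 4) (a (l 140358206631) (l 16784664))))) (b (l 85060502743) (b (a (a (l 4) (l 94724176823)) (l 16784456)) (a (l 4) (a (l 145190044471) (l 16784608)))))))) (b (l 16794864) (a (c (l 16784376) (l 16784256)) (l 16782008)))))) (a (b (a (l 16817112) (l 16797912)) (a (b (l 16810968) (c (l 16806872) (l 16806464))) (l 16813136))) (a (l 16817728) (l 16818344)))), by decide +kernel⟩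

def k8_pm_213 : ∃ t, chk3 f_pm_213 t 7 254 1 = true :=
  ⟨(a (a (l 4) (a (b (b (b (a (l 4) (a (l 4) (a (l 4) (l 150558752215)))) (l 4)) (l 4)) (l 4)) (b (a (b (b (l 85597371015) (b (a (a (l 4) (l 16781944)) (l 16778792)) (a (a (l 4) (l 150021882103)) (l 16784136)))) (b (a (l 4) (a (a (l 157538076055) (l 95261046599)) (l 16782704))) (a (l 4) (a (l 4) (c (l 154316851495) (l 160759301943)))))) (a (b (l 16778600) (b (l 16778640) (l 90966079271))) (l 16785480))) (c (b (b (b (a (l 4) (a (a (l 4) (l 98482268103)) (l 16778504))) (a (l 4) (a (l 4) (l 16781416)))) (b (a (l 4) (a (l 4) (a (l 155927462055) (l 16783952)))) (a (l 4) (a (l 4) (a (l 4) (l 246121771623)))))) (l 4)) (b (b (b (a (l 4) (a (a (l 4) (l 16781880)) (l 16778512))) (a (l 4) (a (l 4) (l 16781376)))) (a (l 4) (a (l 4) (a (c (l 276723408327) (l 282628988087)) (l 100629754647))))) (l 4)))))) (a (a (b (a (l 16788752) (l 16783448)) (c (b (a (l 81302402055) (l 16780480)) (b (b (a (a (l 93113560519) (l 16778224)) (l 16779232))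 (a (a (a (l 4) (l 97945397207)) (l 16778232)) (l 16778744))) (b (a (a (l 4) (l 90429203863)) (l 16778264)) (a (a (l 4) (a (l 301419468935) (l 16781224))) (l 16783296))))) (b (a (l 79691789111) (l 16780336)) (b (b (a (l 85060498295) (l 16779144)) (a (a (a (l 4) (l 99556009767)) (l 16778248)) (l 16778680))) (b (a (a (l 4) (l 88818591367)) (l 16778216)) (a (a (l 4) (a (l 314841241335) (l 16781168))) (l 16778088))))))) (b (a (l 16801368) (l 16786864)) (b (a (l 16782504) (l 16795168)) (l 6)))) (a (l 16796592) (c (l 16797768) (l 16797472))))), by decide +kernel⟩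

def k9_pm_213 : ∃ t, chk3 f_pm_213 t 7 255 1 = true :=
  ⟨(a (l 4) (b (a (a (c (b (a (b (b (a (l 4) (a (l 4) (a (l 4) (l 285313339735)))) (l 4)) (l 4)) (a (a (b (b (l 16781072) (a (l 4) (l 6))) (l 4)) (l 6)) (l 6))) (a (l 4) (l 6))) (b (a (b (b (a (l 4) (a (l 4) (l 303030080743))) (l 4)) (l 4)) (a (a (b (b (l 16781032) (a (l 4) (l 6))) (l 4)) (l 6)) (l 6))) (a (l 4) (l 6)))) (l 6)) (l 6)) (b (a (a (l 4) (l 6)) (l 6)) (a (l 4) (l 6))))), by decide +kernel⟩

theorem s10_pm_213 : ∃ t, chk3 f_pm_213 t 7 127 1 = true := ex3_b k8_pm_213 k9_pm_213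

theorem s11_pm_213 : ∃ t, chk3 f_pm_213 t 7 63 1 = true := ex3_b k7_pm_213 s10_pm_213

theorem s12_pm_213 : ∃ t, chk3 f_pm_213 t 3 63 1 = true := ex3_a k6_pm_213 s11_pm_213

theorem s13_pm_213 : ∃ t, chk3 f_pm_213 t 3 31 1 = true := ex3_b k5_pm_213 s12_pm_213

theorem s14_pm_213 : ∃ t, chk3 f_pm_213 t 3 15 1 = true := ex3_b k4_pm_213 s13_pm_213

theorem s15_pm_213 : ∃ t, chk3 f_pm_213 t 1 15 1 = true := ex3_a k3_pm_213 s14_pm_213

theorem s16_pm_213 : ∃ t, chk3 f_pm_213 t 1 7 1 = true := ex3_b k2_pm_213 s15_pm_213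

theorem s17_pm_213 : ∃ t, chk3 f_pm_213 t 1 3 1 = true := ex3_b k1_pm_213 s16_pm_213

theorem s18_pm_213 : ∃ t, chk3 f_pm_213 t 1 1 1 = true := ex3_b k0_pm_213 s17_pm_213

theorem c_pm_213 : CertN 0 536870912 536870912 536870912 134217728 67108864 3 true true false .pnn 2 1 3
    ndN0q2 ndN0q1 pcN3 cut_pm_213 Ext.none :=
  certN1 (fam := true) (s1 := true) (s2 := false) (a := 2) (b := 1) (c := 3) (cn := .pnn) (n1 := ndN0q2) (n2 := ndN0q1) (pc := pcN3) (cut := cut_pm_213) (xt := Ext.none) (P1 := 0) (W1 := 536870912) (P2 := 536870912) (W2 := 536870912) (P3 := 134217728) (W3 := 67108864) (N0 := 3)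
    rfl (fun _ => rfl) s18_pm_213

noncomputable def f_mm_001 : ℕ → ℕ → ℕ → ℕ → Bool := onCell 0 536870912 0 536870912 134217728 67108864
    (rowN 3 0 true false false .up 0 0 1 (qsf 0 536870912 0 536870912 1) ndN0q0 ndN0q0 pcN1 Cut.none Ext.none)

def k0_mm_001 : ∃ t, chk3 f_mm_001 t 1 1 1 = true :=
  ⟨(l 4), by decide +kernel⟩

theorem c_mm_001 : CertN 0 536870912 0 536870912 134217728 67108864 3 true false false .up 0 0 1
    ndN0q0 ndN0q0 pcN1 Cut.none Ext.none :=
  certN0 (fam := true) (s1 := false) (s2 := false) (a := 0) (b := 0) (c := 1) (cn := .up) (n1 := ndN0q0) (n2 := ndN0q0) (pc := pcN1) (cut := Cut.none) (xt := Ext.none) (P1 := 0) (W1 := 536870912) (P2 := 0) (W2 := 536870912) (P3 := 134217728) (W3 := 67108864) (N0 := 3)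
    rfl k0_mm_001

noncomputable def f_mm_011 : ℕ → ℕ → ℕ → ℕ → Bool := onCell 0 536870912 536870912 536870912 134217728 67108864
    (rowN 3 0 true false false .pnn 0 1 1 (qsf 0 536870912 536870912 536870912 1) ndN0q0 ndN0q1 pcN1 Cut.none Ext.none)

def k0_mm_011 : ∃ t, chk3 f_mm_011 t 1 1 1 = true :=
  ⟨(a (l 5) (l 4)), by decide +kernel⟩

theorem c_mm_011 : CertN 0 536870912 536870912 536870912 134217728 67108864 3 true false false .pnn 0 1 1
    ndN0q0 ndN0q1 pcN1 Cut.none Ext.none :=
  certN0 (fam := true) (s1 := false) (s2 := false) (a := 0) (b := 1) (c := 1) (cn := .pnn) (n1 := ndN0q0) (n2 := ndN0q1) (pc := pcN1) (cut := Cut.none) (xt := Ext.none) (P1 := 0) (W1 := 536870912) (P2 := 536870912) (W2 := 536870912) (P3 := 134217728) (W3 := 67108864) (N0 := 3)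
    rfl k0_mm_011

noncomputable def f_mm_012 : ℕ → ℕ → ℕ → ℕ → Bool := onCell 0 536870912 536870912 536870912 134217728 67108864
    (rowN 3 0 true false false .pnp 0 1 2 (qsf 0 536870912 536870912 536870912 2) ndN0q0 ndN0q1 pcN2 Cut.none Ext.none)

def k0_mm_012 : ∃ t, chk3 f_mm_012 t 1 1 1 = true :=
  ⟨(b (l 4) (l 5)), by decide +kernel⟩

theorem c_mm_012 : CertN 0 536870912 536870912 536870912 134217728 67108864 3 true false false .pnp 0 1 2
    ndN0q0 ndN0q1 pcN2 Cut.none Ext.none :=
  certN0 (fam := true) (s1 := false) (s2 := false) (a := 0) (b := 1) (c := 2) (cn := .pnp) (n1 := ndN0q0) (n2 := ndN0q1) (pc := pcN2) (cut := Cut.none) (xt := Ext.none) (P1 := 0) (W1 := 536870912) (P2 := 536870912) (W2 := 536870912) (P3 := 134217728) (W3 := 67108864) (N0 := 3)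
    rfl k0_mm_012

noncomputable def f_mm_022 : ℕ → ℕ → ℕ → ℕ → Bool := onCell 0 536870912 0 536870912 134217728 67108864
    (rowN 3 0 true false false .pp 0 2 2 (qsf 0 536870912 0 536870912 2) ndN0q0 ndN0q2 pcN2 Cut.none Ext.none)

def k0_mm_022 : ∃ t, chk3 f_mm_022 t 1 1 1 = true :=
  ⟨(l 5), by decide +kernel⟩

theorem c_mm_022 : CertN 0 536870912 0 536870912 134217728 67108864 3 true false false .pp 0 2 2
    ndN0q0 ndN0q2 pcN2 Cut.none Ext.none :=
  certN0 (fam := true) (s1 := false) (s2 := false) (a := 0) (b := 2) (c := 2) (cn := .pp) (n1 := ndN0q0) (n2 := ndN0q2) (pc := pcN2) (cut := Cut.none) (xt := Ext.none) (P1 := 0) (W1 := 536870912) (P2 := 0) (W2 := 536870912) (P3 := 134217728) (W3 := 67108864) (N0 := 3)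
    rfl k0_mm_022

noncomputable def f_mm_023 : ℕ → ℕ → ℕ → ℕ → Bool := onCell 0 536870912 0 536870912 134217728 67108864
    (rowN 3 0 true false false .up 0 2 3 (qsf 0 536870912 0 536870912 3) ndN0q0 ndN0q2 pcN3 Cut.none Ext.none)

def k0_mm_023 : ∃ t, chk3 f_mm_023 t 1 1 1 = true :=
  ⟨(l 5), by decide +kernel⟩

theorem c_mm_023 : CertN 0 536870912 0 536870912 134217728 67108864 3 true false false .up 0 2 3
    ndN0q0 ndN0q2 pcN3 Cut.none Ext.none :=
  certN0 (fam := true) (s1 := false) (s2 := false) (a := 0) (b := 2) (c := 3) (cn := .up) (n1 := ndN0q0) (n2 := ndN0q2) (pc := pcN3) (cut := Cut.none) (xt := Ext.none) (P1 := 0) (W1 := 536870912) (P2 := 0) (W2 := 536870912) (P3 := 134217728) (W3 := 67108864) (N0 := 3)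
    rfl k0_mm_023

noncomputable def cut_mm_101 : Cut := Cut.of [[⟨0, 1, 0, 67108864⟩, ⟨1, 0, 0, 67108864⟩, ⟨2, 1, 0, 67108864⟩]]

noncomputable def f_mm_101 : ℕ → ℕ → ℕ → ℕ → Bool := onCell 536870912 536870912 0 536870912 134217728 67108864
    (rowN 3 0 true false false .npn 1 0 1 (qsf 536870912 536870912 0 536870912 1) ndN0q1 ndN0q0 pcN1 cut_mm_101 Ext.none)

def k0_mm_101 : ∃ t, chk3 f_mm_101 t 1 1 1 = true :=
  ⟨(a (l 4) (b (a (l 4) (a (l 4) (b (b (a (l 4) (b (l 6) (l 4))) (l 4)) (l 2)))) (l 4))), by decide +kernel⟩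

theorem c_mm_101 : CertN 536870912 536870912 0 536870912 134217728 67108864 3 true false false .npn 1 0 1
    ndN0q1 ndN0q0 pcN1 cut_mm_101 Ext.none :=
  certN0 (fam := true) (s1 := false) (s2 := false) (a := 1) (b := 0) (c := 1) (cn := .npn) (n1 := ndN0q1) (n2 := ndN0q0) (pc := pcN1) (cut := cut_mm_101) (xt := Ext.none) (P1 := 536870912) (W1 := 536870912) (P2 := 0) (W2 := 536870912) (P3 := 134217728) (W3 := 67108864) (N0 := 3)
    rfl k0_mm_101

noncomputable def cut_mm_102 : Cut := Cut.of [[⟨0, 1, 0, 67108864⟩, ⟨1, 0, 0, 67108864⟩, ⟨2, 1, 0, 67108864⟩]]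

noncomputable def f_mm_102 : ℕ → ℕ → ℕ → ℕ → Bool := onCell 536870912 536870912 0 536870912 134217728 67108864
    (rowN 3 0 true false false .npp 1 0 2 (qsf 536870912 536870912 0 536870912 2) ndN0q1 ndN0q0 pcN2 cut_mm_102 Ext.none)

def k0_mm_102 : ∃ t, chk3 f_mm_102 t 1 1 1 = true :=
  ⟨(a (l 4) (b (a (l 4) (b (a (l 4) (b (a (l 4) (b (l 6) (l 4))) (l 4))) (l 4))) (l 4))), by decide +kernel⟩

theorem c_mm_102 : CertN 536870912 536870912 0 536870912 134217728 67108864 3 true false false .npp 1 0 2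
    ndN0q1 ndN0q0 pcN2 cut_mm_102 Ext.none :=
  certN0 (fam := true) (s1 := false) (s2 := false) (a := 1) (b := 0) (c := 2) (cn := .npp) (n1 := ndN0q1) (n2 := ndN0q0) (pc := pcN2) (cut := cut_mm_102) (xt := Ext.none) (P1 := 536870912) (W1 := 536870912) (P2 := 0) (W2 := 536870912) (P3 := 134217728) (W3 := 67108864) (N0 := 3)
    rfl k0_mm_102

noncomputable def f_mm_112 : ℕ → ℕ → ℕ → ℕ → Bool := onCell 536870912 536870912 536870912 536870912 134217728 67108864
    (rowN 3 0 true false false .dn 1 1 2 (qsf 536870912 536870912 536870912 536870912 2) ndN0q1 ndN0q1 pcN2 Cut.none Ext.none)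

def k0_mm_112 : ∃ t, chk3 f_mm_112 t 1 1 1 = true :=
  ⟨(l 4), by decide +kernel⟩

theorem c_mm_112 : CertN 536870912 536870912 536870912 536870912 134217728 67108864 3 true false false .dn 1 1 2
    ndN0q1 ndN0q1 pcN2 Cut.none Ext.none :=
  certN0 (fam := true) (s1 := false) (s2 := false) (a := 1) (b := 1) (c := 2) (cn := .dn) (n1 := ndN0q1) (n2 := ndN0q1) (pc := pcN2) (cut := Cut.none) (xt := Ext.none) (P1 := 536870912) (W1 := 536870912) (P2 := 536870912) (W2 := 536870912) (P3 := 134217728) (W3 := 67108864) (N0 := 3)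
    rfl k0_mm_112

noncomputable def f_mm_113 : ℕ → ℕ → ℕ → ℕ → Bool := onCell 536870912 536870912 536870912 536870912 134217728 67108864
    (rowN 3 0 true false false .nn 1 1 3 (qsf 536870912 536870912 536870912 536870912 3) ndN0q1 ndN0q1 pcN3 Cut.none Ext.none)

def k0_mm_113 : ∃ t, chk3 f_mm_113 t 1 1 1 = true :=
  ⟨(l 4), by decide +kernel⟩

theorem c_mm_113 : CertN 536870912 536870912 536870912 536870912 134217728 67108864 3 true false false .nn 1 1 3
    ndN0q1 ndN0q1 pcN3 Cut.none Ext.none :=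
  certN0 (fam := true) (s1 := false) (s2 := false) (a := 1) (b := 1) (c := 3) (cn := .nn) (n1 := ndN0q1) (n2 := ndN0q1) (pc := pcN3) (cut := Cut.none) (xt := Ext.none) (P1 := 536870912) (W1 := 536870912) (P2 := 536870912) (W2 := 536870912) (P3 := 134217728) (W3 := 67108864) (N0 := 3)
    rfl k0_mm_113

noncomputable def f_mm_123 : ℕ → ℕ → ℕ → ℕ → Bool := onCell 536870912 536870912 0 536870912 134217728 67108864
    (rowN 3 0 true false false .npn 1 2 3 (qsf 536870912 536870912 0 536870912 3) ndN0q1 ndN0q2 pcN3 Cut.none Ext.none)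

def k0_mm_123 : ∃ t, chk3 f_mm_123 t 1 1 1 = true :=
  ⟨(a (l 5) (l 4)), by decide +kernel⟩

theorem c_mm_123 : CertN 536870912 536870912 0 536870912 134217728 67108864 3 true false false .npn 1 2 3
    ndN0q1 ndN0q2 pcN3 Cut.none Ext.none :=
  certN0 (fam := true) (s1 := false) (s2 := false) (a := 1) (b := 2) (c := 3) (cn := .npn) (n1 := ndN0q1) (n2 := ndN0q2) (pc := pcN3) (cut := Cut.none) (xt := Ext.none) (P1 := 536870912) (W1 := 536870912) (P2 := 0) (W2 := 536870912) (P3 := 134217728) (W3 := 67108864) (N0 := 3)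
    rfl k0_mm_123

noncomputable def cut_mm_202 : Cut := Cut.of [[⟨0, 1, 0, 67108864⟩, ⟨1, 0, 0, 67108864⟩, ⟨2, 1, 0, 67108864⟩]]

noncomputable def f_mm_202 : ℕ → ℕ → ℕ → ℕ → Bool := onCell 0 536870912 0 536870912 134217728 67108864
    (rowN 3 0 true false false .pp 2 0 2 (qsf 0 536870912 0 536870912 2) ndN0q2 ndN0q0 pcN2 cut_mm_202 Ext.none)

def k0_mm_202 : ∃ t, chk3 f_mm_202 t 2 2 1 = true :=
  ⟨(b (a (b (b (a (b (c (a (l 16970456) (b (l 16943128) (l 17075504))) (a (l 16487208) (l 16513504))) (c (a (l 17243984) (l 17226520)) (a (l 16593832) (l 16576960)))) (b (c (a (l 16969896) (l 16799368)) (l 16530128)) (c (a (l 17191872) (l 17140776)) (l 16532328)))) (c (a (b (l 17370784) (l 17457288)) (b (l 17310200) (l 17399064))) (a (b (a (l 16834480) (l 16820592)) (l 16997552)) (b (l 16769392) (l 16946664))))) (b (a (c (l 17525160) (l 17161720)) (c (l 17465416) (l 17113264))) (c (l 17513176) (a (l 17275304) (l 17223112))))) (b (b (a (b (c (c (a (l 17014984) (l 16875368)) (l 16581072))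 (a (l 16534640) (l 16555280))) (c (a (l 17070616) (l 16873264)) (l 16585592))) (b (c (a (a (l 16588544) (l 16598328)) (b (l 16612312) (l 16614040))) (a (l 16577064) (l 16620112))) (a (c (b (l 16789672) (l 16920376)) (l 16578424)) (c (b (l 16624952) (l 16780184)) (l 16602160))))) (a (c (b (a (l 17231280) (l 17157040)) (l 17295704)) (b (a (l 16689176) (l 16611544)) (l 16847832))) (c (b (a (l 17064216) (l 16761112)) (a (l 17186368) (l 17093136))) (b (a (l 16579408) (l 16604832)) (a (l 16740504) (l 16647912)))))) (b (a (c (l 17244280) (b (l 16980768) (l 17068464))) (c (b (a (l 17254896) (l 17173640)) (l 17250280)) (b (a (l 16890112) (l 16814744)) (l 16953560)))) (a (c (l 17386696) (l 17143592)) (c (a (l 17297008) (l 17226728)) (a (l 17068192) (l 17009688))))))) (a (b (c (a (l 17509608) (l 17432096)) (b (l 17288680) (l 17290000))) (b (l 17328448) (l 17279464))) (b (a (b (c (l 17355288) (l 17178248)) (l 17236024)) (b (c (l 17229768) (l 17074872)) (c (l 17172656) (l 17064456)))) (a (b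 (l 17188736) (l 17133200)) (b (a (l 17100688) (l 17035320)) (a (l 17042720) (c (l 16998600) (l 16953472)))))))), by decide +kernel⟩

def k1_mm_202 : ∃ t, chk3 f_mm_202 t 2 3 1 = true :=
  ⟨(b (a (b (a (l 17238000) (b (l 17178680) (l 17116728))) (b (a (l 17146672) (l 17054240)) (a (l 17085328) (l 16971800)))) (b (a (b (l 17071336) (a (l 17037376) (l 16978392))) (b (a (l 16979272) (b (l 16927928) (l 16874512))) (a (b (l 16931040) (l 16899160)) (a (b (l 16880816) (l 16827976)) (b (l 16824800) (c (l 17414767591) (l 16789856))))))) (a (b (a (l 16974448) (b (l 16931008) (l 16900040))) (a (l 40366143927) (b (l 16827824) (l 16798352)))) (b (a (b (a (l 16884096) (l 16851408)) (a (l 16853296) (l 16789304))) (b (a (b (l 16804440) (l 16789000)) (a (b (l 16799400) (l 61438195351)) (l 97408604775))) (a (a (b (l 16803304) (l 54458873799)) (b (l 57680098791) (l 4))) (l 4)))) (a (b (a (l 16802328) (b (a (l 16806600) (l 46942681223)) (l 72712512871))) (a (b (l 34057782631) (l 64659436167)) (l 113514727207)))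 (b (a (l 119420308919) (l 4)) (l 4))))))) (a (l 2) (a (l 2) (a (l 2) (l 4))))), by decide +kernel⟩

def k2_mm_202 : ∃ t, chk3 f_mm_202 t 6 8 1 = true :=
  ⟨(b (a (b (a (c (b (c (l 16634560) (l 16628456)) (l 16633928)) (b (l 16619576) (l 16621952))) (c (b (a (l 16645584) (l 16654832)) (c (l 16655944) (l 16650752))) (b (l 16661104) (l 16643168)))) (c (a (b (l 16636208) (l 16638344)) (b (l 16677200) (l 16658976))) (a (l 16646240) (b (l 16646088) (l 16648896))))) (b (a (c (b (a (c (l 16666272) (l 16661712)) (c (l 16675120) (l 16670928))) (a (l 16667440) (c (l 16678808) (l 16674624)))) (b (a (l 16654984) (l 16664728)) (a (l 16658456) (l 16668456)))) (b (c (a (c (l 16683896) (l 16680056)) (c (b (l 16691640) (l 16693712)) (b (l 16688128) (l 16690216)))) (a (b (l 16673368) (l 16675376)) (b (l 16682928) (l 16685040)))) (c (a (c (l 16687784) (l 16683960)) (c (l 16696720) (l 16693256))) (a (l 16678328) (c (l 16689840) (l 16686464)))))) (a (c (b (a (l 16670744) (l 16680240)) (a (l 16673888)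 (l 16683624))) (b (l 16687968) (l 16691336))) (c (b (a (c (l 16691496) (l 16687720)) (c (l 16700600) (l 16697200))) (a (l 16693184) (c (l 16704328) (l 16701008)))) (b (a (l 16682168) (l 16692192)) (a (l 16685912) (l 16696136))))))) (a (b (a (c (b (l 16750424) (l 16862696)) (l 16629416)) (c (b (l 16661584) (l 16706656)) (l 16673864))) (a (c (l 16836272) (l 16633320)) (c (a (l 16889640) (l 16821400)) (l 16679040)))) (a (b (c (a (l 16688792) (b (l 16686856) (l 16689960))) (a (l 16669704) (l 16680592))) (c (a (l 16749192) (l 16694352)) (a (l 16675688) (l 16687056)))) (b (c (a (b (l 16696632) (l 16699928)) (b (l 16706280) (l 16709760))) (a (b (l 16689544) (l 16693072)) (b (l 16699976) (l 16703712)))) (c (a (b (l 16703112) (l 16706184)) (b (l 16713104) (l 16716344))) (a (l 16698176) (b (l 16707352) (l 16710920)))))))), by decide +kernel⟩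

def k3_mm_202 : ∃ t, chk3 f_mm_202 t 6 9 1 = true :=
  ⟨(b (a (a (b (c (l 17080192) (l 16728824)) (c (l 17129304) (l 16848920))) (b (c (l 16828088) (l 16663104)) (c (l 17036272) (l 16771440)))) (a (b (c (a (l 16890120) (l 16831568)) (l 16708424)) (c (a (l 16962696) (l 16912592)) (l 16715704))) (b (c (a (b (l 16739248) (l 16802352)) (b (l 16719488) (l 16750224))) (a (l 16704848) (l 16726616))) (a (c (l 16863400) (l 16711624)) (c (b (l 16799096) (l 16831888)) (l 16744200)))))) (a (a (c (l 17148864) (l 16883552)) (b (c (l 17061120) (l 16853976)) (c (l 17062384) (l 16900072)))) (a (b (c (l 16906720) (l 16787624)) (c (l 16974288) (l 16838248))) (b (a (c (l 16901632) (l 16745464)) (c (l 16837768) (l 16752256))) (a (c (l 16908240) (l 16798416)) (c (l 16844880) (l 16778056))))))), by decide +kernel⟩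

def k4_mm_202 : ∃ t, chk3 f_mm_202 t 28 16 1 = true :=
  ⟨(b (b (c (a (b (c (l 16700472) (l 16697296)) (c (l 16702616) (l 16699464))) (b (c (a (l 16707240) (l 16711840)) (a (l 16704320) (l 16709088))) (c (l 16722224) (l 16708936)))) (a (b (c (l 16694152) (l 16691032)) (l 16694800)) (b (c (l 16714376) (l 16701096)) (c (l 16706160) (l 16703408))))) (c (a (c (b (l 16704712) (l 16706768)) (b (l 16701592) (l 16703680))) (b (c (l 16713896) (l 16711128)) (c (l 16716008) (l 16713288)))) (a (b (l 16696976) (l 16699120)) (b (c (l 16708392) (l 16705688)) (c (l 16710600) (l 16707944)))))) (a (c (b (c (l 16720240) (l 16706728)) (c (l 16713624) (l 16710696))) (b (b (l 16701240) (l 16703328)) (l 16716880))) (c (a (b (c (l 16716736) (l 16713992)) (l 16729856)) (b (c (l 16721456) (l 16718904)) (c (l 16725464) (l 16723032)))) (b (b (l 16721952) (l 16713632)) (a (l 16714200) (l 16719464)))))), by decide +kernel⟩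

def k5_mm_202 : ∃ t, chk3 f_mm_202 t 29 16 1 = true :=
  ⟨(b (b (a (a (b (l 6) (c (c (l 16718752) (l 16716216)) (l 16712456))) (l 6)) (l 6)) (a (c (b (c (a (l 16720944) (l 16725736)) (a (l 16718448) (l 16723432))) (c (a (l 16723096) (l 16727904)) (a (l 16720648) (l 16725656)))) (b (a (l 16714768) (l 16725272)) (a (l 16717048) (l 16722344)))) (a (a (a (b (l 6) (c (l 16729896) (l 16725704))) (l 6)) (l 6)) (l 6)))) (a (b (c (b (c (a (l 16725200) (l 16730032)) (l 16735816)) (c (a (l 16727272) (l 16732120)) (l 16737952))) (b (a (l 16719296) (l 16724632)) (a (l 16721528) (l 16726880)))) (c (a (c (l 16730280) (l 16728056)) (c (l 16740408) (l 16733152))) (a (l 16735280) (b (l 16729112) (l 16731312))))) (b (c (b (a (c (l 16734944) (l 16732968)) (l 6)) (a (c (l 16737048) (l 16735136)) (c (l 16742048) (l 16740360)))) (b (a (l 16740536) (l 6)) (a (l 16732336) (c (l 16738704) (l 16737072))))) (c (a (b (c (l 16739104) (l 16737280)) (l 16745496)) (b (c (l 16744120) (l 16742520)) (c (l 16746160)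 (l 16744640)))) (a (b (l 16734592) (l 16736816)) (b (l 16745408) (l 16742424))))))), by decide +kernel⟩

def k6_mm_202 : ∃ t, chk3 f_mm_202 t 14 17 1 = true :=
  ⟨(a (b (a (c (b (c (l 16717336) (l 16714528)) (l 16730040)) (b (l 16710416) (l 16714336))) (c (b (c (l 16737376) (l 16734984)) (a (l 16726968) (l 16731952))) (b (a (l 16718336) (l 16723680)) (a (l 16722384) (l 16727792))))) (a (c (b (l 16733536) (l 16726424)) (b (l 16718152) (l 16721896))) (c (b (a (l 16730568) (l 16735600)) (a (l 16734032) (l 16739128))) (b (l 16739544) (l 16743432))))) (b (a (b (c (a (c (l 16734176) (l 16732112)) (c (l 16739096) (l 16737248))) (a (l 16729080) (l 16745032))) (c (a (l 16747456) (c (l 16742872) (l 16741216))) (a (l 16733264) (l 16738792)))) (b (b (c (a (l 16742280) (c (l 16748152) (l 16746728))) (a (l 16739024) (l 16744648))) (c (a (l 16744264) (c (l 16750104) (l 16748784))) (a (l 16741200) (l 16746848)))) (b (c (a (l 16746224) (l 16756656)) (a (l 16743344) (l 16749024))) (c (a (l 16748144)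 (l 16758584)) (a (l 16745472) (l 16751176)))))) (a (c (b (a (l 16740672) (l 16751024)) (a (l 16744240) (l 16754640))) (b (a (l 16737352) (l 16742944)) (a (l 16741344) (l 16747000)))) (b (c (a (c (l 16751544) (l 16750352)) (b (l 16760488) (l 16762360))) (a (l 16759088) (c (l 16760032) (l 16759144)))) (c (a (c (l 16765560) (l 16754112)) (a (l 16763776) (l 16766416))) (a (l 16757960) (b (l 16767976) (l 16770032)))))))), by decide +kernel⟩

def k7_mm_202 : ∃ t, chk3 f_mm_202 t 15 16 1 = true :=
  ⟨(a (b (l 6) (a (b (l 6) (c (a (b (c (a (l 16747952) (l 16750536)) (l 16753112)) (c (l 16751280) (l 16750008))) (b (l 6) (c (a (l 16755192) (l 16757840)) (a (l 16754112) (l 16756888))))) (a (b (c (l 16746528) (l 16745208)) (c (l 16748760) (l 16747536))) (b (l 6) (a (l 16752528) (l 16760744)))))) (l 6))) (l 6)), by decide +kernel⟩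

def k8_mm_202 : ∃ t, chk3 f_mm_202 t 60 34 1 = true :=
  ⟨(b (a (c (b (c (l 16753280) (l 16752104)) (c (l 16755240) (l 16754176))) (b (c (l 16750960) (l 16749832)) (c (l 16753128) (l 16752104)))) (a (c (b (l 16761952) (l 16763976)) (b (l 16754792) (l 16757032))) (c (b (c (l 16759848) (l 16759008)) (c (l 16761816) (l 16761088))) (b (l 16757776) (l 16760024))))) (c (a (b (c (l 16757168) (l 16756208)) (c (l 16759056) (l 16758216))) (a (b (l 16765960) (l 16767912)) (b (l 16766056) (l 16768016)))) (a (b (l 16760056) (l 16762232)) (a (b (l 16759248) (l 16761440)) (b (l 16767488) (l 16769688)))))), by decide +kernel⟩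

def k9_mm_202 : ∃ t, chk3 f_mm_202 t 122 34 1 = true :=
  ⟨(b (c (b (a (c (l 16762520) (l 16761816)) (l 6)) (a (c (l 16764488) (l 16763904)) (c (l 16769808) (l 16769368)))) (b (a (c (l 16761128) (l 16760448)) (l 6)) (a (l 16768288) (c (l 16768936) (l 16768512))))) (c (c (b (a (l 16771656) (l 16771736)) (a (l 16773552) (b (l 16775784) (l 16776720)))) (b (a (l 16765952) (l 16771424)) (a (l 16773216) (l 16773768)))) (b (a (l 16770520) (c (l 16771112) (l 16770808))) (a (l 16771416) (c (l 16773920) (l 16773744)))))), by decide +kernel⟩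

def k10_mm_202 : ∃ t, chk3 f_mm_202 t 123 34 1 = true :=
  ⟨(b (b (l 6) (b (l 6) (a (c (c (l 16775648) (l 16775384)) (l 16772384)) (l 6)))) (a (b (b (c (c (l 16776608) (l 16776416)) (l 16773504)) (c (c (l 16774936) (l 16777432)) (l 16774952))) (a (c (c (l 16775664) (l 16775600)) (l 16776160)) (b (c (l 16779176) (l 16779136)) (c (a (l 16780280) (a (l 16779104) (b (l 16781920) (b (l 16780456) (l 52311364295))))) (b (l 16780392) (b (l 16778880) (a (l 16781312) (a (l 16780088) (l 51237622215))))))))) (b (a (b (c (l 16776008) (l 16778472)) (c (l 16778304) (l 16778280))) (b (l 6) (c (a (a (l 16778736) (a (l 16779136) (b (l 16781800) (b (l 16777712) (l 60364427287))))) (a (a (b (l 16779664) (b (l 40500203223) (l 100629744087))) (b (l 6) (l 91502941255))) (b (l 6) (l 4)))) (b (a (l 16780992) (a (a (l 16779544) (l 6)) (l 6))) (b (a (l 16779480) (a (a (l 16779280) (l 75933683495)) (l 4))) (a (c (l 26004688503) (l 25467817447)) (l 116199000919))))))) (a (b (c (a (l 16778432) (b (l 16778936)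 (b (a (l 16780272) (l 59827556999)) (a (l 48016396759) (l 4))))) (a (l 16778336) (b (l 16779464) (a (a (l 16780240) (l 39963333031)) (b (l 58753814855) (l 4)))))) (c (a (a (b (l 16778944) (b (l 64122524487) (l 4))) (b (b (l 35668365575) (l 84523619447)) (l 4))) (b (l 111367166023) (l 4))) (a (a (b (l 16780088) (c (l 82376135703) (l 82913006455))) (b (b (l 16779296) (l 85597360919)) (l 4))) (b (l 115662133031) (l 4))))) (a (b (b (a (b (c (l 31373397943) (l 16779144)) (c (l 80228651879) (l 81839264311))) (c (l 104387843479) (l 104387843207))) (l 4)) (l 4)) (l 4)))))), by decide +kernel⟩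

def k11_mm_202 : ∃ t, chk3 f_mm_202 t 60 35 1 = true :=
  ⟨(a (b (c (b (c (l 16766144) (l 16770672)) (c (l 16767960) (l 16772616))) (b (l 16764384) (l 16766504))) (c (b (c (l 16769744) (l 16769280)) (c (l 16770832) (l 16771160))) (b (l 16768608) (c (l 16770848) (l 16770528))))) (b (a (b (c (l 16769832) (l 16774088)) (c (l 16771712) (l 16776224))) (c (b (l 16769936) (l 16772800)) (b (l 16771856) (l 16774008)))) (a (b (c (l 16773560) (l 16778344)) (c (l 16774728) (l 16775192))) (b (c (l 16776288) (l 16776128)) (a (b (l 16775984) (c (l 16784528) (l 16784360))) (a (c (l 16780576) (l 16780368)) (b (l 16779504) (a (c (l 18488499079) (l 16780584)) (b (l 16780928) (c (l 75933689031) (l 66270010343))))))))))), by decide +kernel⟩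

def k12_mm_202 : ∃ t, chk3 f_mm_202 t 122 70 1 = true :=
  ⟨(a (b (c (c (l 16775408) (l 16775200)) (l 16773592)) (c (a (l 16776504) (b (l 16782664) (l 16778352))) (c (l 16777096) (l 16777032)))) (b (a (c (l 16774760) (l 16777216)) (b (c (l 16778304) (l 16778216)) (c (l 16779728) (l 16779640)))) (a (b (c (l 16778992) (l 16778912)) (c (a (l 16781136) (a (l 16779952) (b (l 16782752) (c (l 51237623623) (l 50700752487))))) (a (l 16780968) (a (c (l 16779784) (l 16779680)) (b (l 16782536) (l 49627010695)))))) (a (b (c (l 16779248) (l 16779072)) (c (b (a (l 29225915943) (c (l 75933685591) (l 75933685351))) (l 96334783863)) (b (a (l 27615302711) (a (l 59290686999) (l 91502944391))) (l 97408525239)))) (b (a (b (l 16779808) (a (c (l 34594624791) (l 16779592)) (b (l 37815851383) (l 97408524471)))) (c (b (l 25467819159) (l 90966074007)) (b (l 16779296) (l 92039815399)))) (l 4)))))), by decide +kernel⟩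

def k13_mm_202 : ∃ t, chk3 f_mm_202 t 122 71 1 = true :=
  ⟨(a (b (c (a (b (l 16783136) (l 16780664)) (a (b (l 16780416) (a (l 16780408) (b (l 16777976) (l 59290688423)))) (a (b (l 16781848) (b (l 39426464087) (l 101166616999))) (b (l 16780176) (b (l 82376139671) (l 4)))))) (a (l 16778992) (b (l 16779872) (a (a (l 16780152) (b (l 16777704) (l 57680075143))) (b (a (l 37278979863) (l 83449880951)) (l 102240363975)))))) (a (a (a (b (l 16780904) (b (c (l 48016399447) (l 45868915175)) (l 109756557159))) (b (c (l 15804144023) (l 16780368)) (c (l 94187301111) (l 95797913271)))) (a (b (b (l 16780688) (c (l 63585656055) (l 61975042727))) (l 4)) (b (b (c (l 43721431783) (l 41573947527)) (l 110830298679)) (l 4)))) (a (b (b (c (l 90966075015) (l 92039816295)) (l 4)) (l 4)) (l 4)))) (b (a (b (c (a (a (b (l 16782984) (a (l 45868914695) (l 67880622359))) (b (l 33520883639) (l 97945396471))) (a (a (b (l 65733138551) (l 4)) (l 97945396807)) (l 4))) (a (b (l 21709723175) (a (l 53385107575) (l 99019137783)))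 (a (b (l 79691781671) (l 4)) (l 4)))) (l 4)) (l 4)) (l 4))), by decide +kernel⟩

def k14_mm_202 : ∃ t, chk3 f_mm_202 t 123 35 1 = true :=
  ⟨(b (a (b (a (b (c (l 16779176) (l 16779072)) (c (a (a (c (l 16779560) (l 16779464)) (b (l 16782320) (a (l 29762786199) (l 53921977719)))) (a (b (l 21709722375) (l 88281716535)) (b (a (l 51774493959) (l 81839265239)) (l 4)))) (a (a (l 16779344) (b (l 16782144) (c (l 42110816967) (l 41037074935)))) (a (b (l 16779120) (l 88281716135)) (b (a (l 50163880839) (l 82913006663)) (l 4)))))) (a (b (a (b (l 16779416) (a (c (l 16779456) (l 16779256)) (b (l 16780112) (l 80228653447)))) (c (b (l 16779456) (c (l 85060490887) (l 84523619783))) (b (l 16778944) (l 86134232247)))) (c (l 120493972743) (l 124252068807))) (a (b (a (b (b (l 16780024) (l 77007427831)) (l 4)) (b (c (l 78618039479) (l 79154910023)) (l 4))) (l 4)) (b (c (l 115125262935) (l 119420229911)) (l 4))))) (a (a (a (b (a (b (b (l 34057754823) (l 92039813911)) (l 4)) (c (b (l 86671106359) (l 4))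 (l 103314103639))) (l 4)) (b (c (l 110293427879) (l 115125265719)) (l 4))) (l 4)) (l 4))) (l 4)) (l 4)), by decide +kernel⟩

def k15_mm_202 : ∃ t, chk3 f_mm_202 t 31 17 1 = true :=
  ⟨(a (b (a (b (l 6) (a (b (a (a (b (l 6) (b (l 6) (l 4))) (l 6)) (l 4)) (l 4)) (l 4))) (l 4)) (l 4)) (l 4)), by decide +kernel⟩

def k16_mm_202 : ∃ t, chk3 f_mm_202 t 28 18 1 = true :=
  ⟨(a (b (c (b (l 16729696) (l 16732880)) (b (l 16725560) (l 16729184))) (c (b (l 16758000) (l 16792952)) (b (l 16732784) (l 16757688)))) (b (c (b (l 16750424) (l 16753704)) (b (l 16747248) (l 16761472))) (c (b (a (l 16743840) (l 16749056)) (a (l 16770560) (l 16760344))) (b (l 16754704) (l 16758744))))), by decide +kernel⟩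

def k17_mm_202 : ∃ t, chk3 f_mm_202 t 29 36 1 = true :=
  ⟨(a (c (b (a (l 16747688) (l 16763376)) (a (l 16772000) (l 16761504))) (b (a (l 16745256) (l 16771944)) (a (l 16749088) (l 16775832)))) (a (c (b (c (l 16768952) (l 16768256)) (b (l 16781672) (l 16783344))) (b (l 16761984) (l 16768216))) (b (b (c (l 16767776) (l 16772072)) (c (l 16769520) (l 16774088))) (b (c (l 16771232) (l 16770832)) (a (c (l 16787320) (l 16787056)) (a (l 16774216) (l 16778312))))))), by decide +kernel⟩

def k18_mm_202 : ∃ t, chk3 f_mm_202 t 29 37 1 = true :=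
  ⟨(a (c (a (b (l 16775256) (l 16778920)) (b (c (l 16780728) (l 16780288)) (a (l 16782880) (l 16785504)))) (a (b (l 16773848) (l 16777944)) (b (l 16769168) (l 16773296)))) (a (b (a (c (l 16784472) (l 16784056)) (b (c (l 16786312) (l 16786048)) (a (l 16776768) (l 16779384)))) (a (b (l 16774688) (c (l 16792696) (l 16792448))) (b (c (l 16783664) (l 16783312)) (b (c (l 16782784) (l 16782312)) (a (l 16783600) (c (a (l 43721437543) (l 85597374471)) (a (l 41573952807) (l 86671115271)))))))) (b (a (b (a (l 16777792) (l 16776528)) (c (a (l 16793656) (l 16786848)) (l 16784592))) (b (a (c (l 16784272) (l 16783920)) (b (l 16780952) (a (l 16783096) (c (l 25467824647) (l 16781936))))) (b (a (c (l 16783720) (l 16783168)) (c (a (b (l 16780360) (l 68417499239)) (l 89892339143)) (a (c (l 46942661447) (l 45332048135)) (l 89892335415)))) (a (c (a (c (l 32447147095) (l 16782968)) (b (l 58216951671) (l 103850975351))) (a (l 30299662999) (b (l 54995725063) (l 103850974183)))) (c (l 101166627815) (l 102777239463))))))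 (a (b (b (b (c (c (l 16783680) (l 16783392)) (l 16782976)) (a (l 16782896) (a (l 16782864) (a (l 76470565079) (l 103314108855))))) (a (a (l 16784128) (c (l 38352728007) (l 36205243335))) (a (a (b (l 52311371559) (l 103850979911)) (l 94187306199)) (l 101166626727)))) (a (b (a (b (b (l 16783168) (l 56069468759)) (l 87207986487)) (l 99019144951)) (l 4)) (l 4))) (b (a (b (c (l 97408530695) (l 97945400519)) (l 4)) (l 4)) (l 4)))))), by decide +kernel⟩

def k19_mm_202 : ∃ t, chk3 f_mm_202 t 28 19 1 = true :=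
  ⟨(b (a (c (b (l 16814264) (l 16825152)) (b (l 16761888) (l 16766168))) (b (c (a (l 16791744) (l 16780840)) (a (l 16770624) (l 16776448))) (c (a (l 16801920) (l 16789992)) (l 16768704)))) (a (c (b (l 16828048) (l 16803840)) (a (l 16768168) (l 16765024))) (b (a (c (l 16803752) (l 16779392)) (c (l 16780152) (a (l 16783800) (l 16788664)))) (a (c (l 16799256) (l 16792360)) (b (c (l 16781616) (l 16783456)) (a (l 16780968) (a (c (l 30836536311) (l 30836536455)) (b (c (l 53921985719) (l 53385114727)) (l 96334792839))))))))), by decide +kernel⟩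

def k20_mm_202 : ∃ t, chk3 f_mm_202 t 29 19 1 = true :=
  ⟨(a (b (a (c (b (l 16784888) (l 16781952)) (b (l 16782288) (a (l 16785224) (l 16791272)))) (a (b (b (l 16775248) (l 16776688)) (b (l 16783008) (a (c (l 16782384) (l 16783416)) (b (c (l 34594631943) (l 33520889479)) (c (l 81302406871) (l 82913018999)))))) (b (b (l 16778720) (c (l 16782024) (a (l 16794984) (l 16782712)))) (b (b (a (l 16783568) (c (a (l 16783528) (l 81302406791)) (a (l 16783120) (l 82376147831)))) (a (c (c (l 46942663287) (l 46405792007)) (l 45868921383)) (l 100629761079))) (a (b (l 91502954743) (l 4)) (l 4)))))) (a (b (b (b (c (l 16782192) (l 16784280)) (a (l 16786752) (a (l 16783504) (c (l 55532599079) (l 54458857079))))) (a (a (l 16788488) (c (l 24394084663) (l 16784048))) (a (b (c (l 45332050855) (l 44258308663)) (l 89355470679)) (l 109219696503)))) (a (b (a (b (l 16783440) (c (l 68954374551) (l 71101858023))) (c (l 86671116615) (l 88818600007))) (a (l 113514664055) (l 4))) (l 4))) (b (a (b (a (a (b (a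 (l 16783472) (l 63585662807)) (l 101703502471)) (l 104924728215)) (l 4)) (l 4)) (l 4)) (l 4)))) (b (a (b (a (a (b (c (l 16786184) (l 16785848)) (b (c (l 16782528) (l 16784712)) (a (b (l 16783392) (l 83449887447)) (l 94724180007)))) (a (b (c (l 16783640) (l 16783208)) (b (c (l 76470563127) (l 77007438407)) (l 4))) (b (b (l 16783768) (c (l 51237630615) (l 47479533255))) (b (l 102240373543) (l 4))))) (b (a (b (b (c (l 35668373063) (l 16782696)) (a (l 40500212151) (l 94187308631))) (c (l 94187310103) (l 95261051015))) (b (l 102240371511) (l 4))) (l 4))) (a (b (c (l 117809634279) (l 119957112151)) (l 4)) (l 4))) (l 4)) (l 4))), by decide +kernel⟩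

def k21_mm_202 : ∃ t, chk3 f_mm_202 t 120 36 1 = true :=
  ⟨(b (a (c (c (l 16771416) (l 16771232)) (l 16772264)) (b (c (l 16779696) (l 16779488)) (a (c (l 16780776) (l 16780768)) (c (l 16784128) (l 16783904))))) (a (b (a (c (l 16790288) (l 16790272)) (c (l 16782888) (l 16782672))) (b (a (l 16778464) (c (l 16782336) (l 16781920))) (a (l 16781536) (c (a (l 16781864) (b (l 37815854807) (l 86671109751))) (a (l 16781360) (b (l 16782280) (l 86671108775))))))) (b (a (b (l 16779672) (c (l 16782944) (l 16782528))) (b (c (a (l 16782624) (b (l 16778464) (l 42647692407))) (a (l 16782248) (c (l 26541563863) (l 25467821623)))) (c (a (b (l 16782248) (c (l 80228658199) (l 80228652503))) (l 92576689991)) (a (b (l 16781784) (l 79691786183)) (l 93650430967))))) (a (b (c (a (b (l 16779080) (l 50700757015)) (b (l 61438175607) (l 102240361511))) (a (c (l 32447144935) (l 31373402647)) (b (l 59290691095) (l 104387844231)))) (c (l 99019142567) (l 99556012583))) (l 4))))), by decide +kernel⟩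

def k22_mm_202 : ∃ t, chk3 f_mm_202 t 121 36 1 = true :=
  ⟨(b (a (b (a (b (l 16776016) (l 16777880)) (c (l 16780176) (l 16779952))) (a (b (a (l 16780008) (l 16781864)) (c (a (l 16783256) (b (l 16781696) (a (l 52311368215) (l 93650425351)))) (a (l 16782872) (b (l 16781280) (c (l 62511915335) (l 61975044039)))))) (a (b (b (l 16782944) (c (l 34594627719) (l 32447143431))) (b (a (b (l 56069465367) (l 99556010023)) (l 102240365079)) (l 4))) (b (c (b (c (l 45868916631) (l 44795174423)) (l 92576688823)) (b (l 43721432999) (l 93650429895))) (l 4))))) (b (a (a (b (l 16781320) (c (b (l 16781144) (a (l 39963336135) (l 84523624343))) (b (l 16780792) (c (l 54995721815) (l 54458850583))))) (a (b (l 16781400) (b (b (l 40500208103) (l 85060494711)) (l 4))) (b (c (c (l 16780584) (l 16781064)) (l 16780816)) (c (l 100092881831) (l 100629752071))))) (b (c (a (b (c (l 38352722951) (l 37815851687)) (c (l 86134237319) (l 86671107895))) (l 98482269175)) (a (b (c (l 36742109847) (l 35668367687)) (l 87744849223))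 (l 99556010391))) (l 4))) (a (b (c (l 110830301671) (l 115662139239)) (l 4)) (l 4)))) (a (b (a (b (c (a (b (c (l 53385110439) (l 52311368215)) (l 100092877079)) (l 100629754215)) (a (b (l 51237626647) (l 100092876247)) (l 102777237095))) (l 4)) (l 4)) (l 4)) (l 4))), by decide +kernel⟩

def k23_mm_202 : ∃ t, chk3 f_mm_202 t 60 37 1 = true :=
  ⟨(a (b (a (b (a (a (b (l 16783664) (c (b (l 49090145079) (l 97408523607)) (b (l 45868918487) (l 95261038871)))) (b (b (l 16782064) (c (l 59290692615) (l 56606337143))) (c (l 101703497111) (l 103850974471)))) (a (b (b (c (l 77007433047) (l 67880626455)) (l 101703496119)) (l 4)) (l 4))) (l 4)) (l 4)) (l 4)) (l 4)), by decide +kernel⟩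

def k24_mm_202 : ∃ t, chk3 f_mm_202 t 61 18 1 = true :=
  ⟨(l 4), by decide +kernel⟩

def k25_mm_202 : ∃ t, chk3 f_mm_202 t 30 19 1 = true :=
  ⟨(l 4), by decide +kernel⟩

def k26_mm_202 : ∃ t, chk3 f_mm_202 t 31 9 1 = true :=
  ⟨(l 4), by decide +kernel⟩

def k27_mm_202 : ∃ t, chk3 f_mm_202 t 6 10 1 = true :=
  ⟨(a (b (a (c (l 17119648) (l 16987448)) (c (l 17037576) (b (l 16921512) (l 16926128)))) (a (c (l 17061328) (l 16975688)) (b (c (l 16994968) (l 16919216)) (c (l 16961544) (l 16904432))))) (b (a (b (c (l 16961416) (l 16860960)) (c (l 16916608) (a (l 16880240) (l 16850712)))) (a (b (c (l 16895408) (l 16820792)) (c (l 16870696) (l 16823232))) (b (c (b (l 16857040) (l 16846624)) (b (l 16796016) (l 16800560))) (c (b (l 16812552) (l 16781688)) (b (l 16800544) (l 16796864)))))) (a (a (b (l 16901032) (c (l 16895680) (l 16856328))) (b (c (l 16884712) (l 16841784)) (c (b (l 16858880) (l 16840880)) (l 16772064)))) (a (b (c (b (l 16847328) (l 16809288)) (l 16781200)) (a (c (l 16783576)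 (l 16780288)) (b (c (l 16779736) (l 16781224)) (a (b (l 16789840) (a (l 16784656) (l 50163889079))) (b (c (l 48016404551) (l 51237631671)) (l 114588411639)))))) (b (a (a (c (l 16789280) (l 16795704)) (b (l 16800368) (c (b (l 16794320) (l 27615307175)) (l 25467828471)))) (b (c (b (l 16784360) (a (l 16791784) (a (l 16783360) (l 80765541447)))) (a (l 16787368) (b (l 16783736) (l 50700763159)))) (a (b (c (l 39426469863) (l 40500213991)) (a (l 92039841559) (l 4))) (b (l 114051541975) (l 4))))) (a (b (a (a (c (l 29762791943) (l 32447149383)) (b (l 26004696711) (l 99556023543))) (b (a (c (l 53385111415) (l 57143210631)) (l 112977798247)) (l 4))) (l 4)) (l 4))))))), by decide +kernel⟩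

def k28_mm_202 : ∃ t, chk3 f_mm_202 t 6 11 1 = true :=
  ⟨(a (b (a (c (l 16992080) (l 16938408)) (b (a (l 16924360) (l 16886200)) (a (l 16894680) (c (l 16868088) (l 16844040))))) (a (b (c (l 16938424) (l 16902280)) (a (l 16907112) (l 16870000))) (b (a (c (l 16875712) (l 16852264)) (c (b (l 16840752) (l 16791224)) (l 16786448))) (a (b (l 16839936) (c (l 16808528) (l 16796592))) (a (b (l 16789552) (c (a (l 16781248) (l 29225930535)) (l 24930959639))) (b (a (c (l 16788160) (l 16792752)) (b (l 16877896215) (l 60364450999))) (a (b (l 51774513031) (l 4)) (l 4)))))))) (b (a (b (b (a (l 16854576) (c (l 16801512) (l 16786856))) (a (l 16818576) (b (c (l 16782312) (l 16788160)) (a (l 16805768) (a (l 16790656) (a (l 32447147783) (l 82913024551))))))) (a (c (b (l 16810968) (a (l 16825080) (l 16786240))) (b (l 16816400) (l 16783672))) (a (b (c (a (l 16781984) (l 26004699751)) (l 22783472359)) (a (b (c (l 16789080) (l 16785192)) (a (l 48553282375) (l 93650446535))) (b (l 88818628199) (l 4))))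 (b (a (b (c (l 40500214311) (l 41037081927)) (l 99556026823)) (l 116199042391)) (l 4))))) (a (b (a (b (a (c (l 16782568) (l 16787696)) (b (c (l 16783224) (l 16782856)) (a (l 58216955223) (l 4)))) (a (b (a (l 45332051639) (l 98482281479)) (l 4)) (l 4))) (b (a (b (l 104387862391) (l 4)) (l 4)) (l 4))) (l 4)) (l 4))) (a (a (b (a (b (c (l 16785816) (l 16798608)) (a (c (l 22246608023) (l 16784128)) (b (c (l 34057767655) (l 16784104)) (l 88281740711)))) (b (a (c (b (l 16783576) (l 43721445479)) (l 35131508247)) (b (c (l 52848252423) (l 53385118887)) (l 4))) (a (l 107609119847) (l 4)))) (a (b (a (l 93113601159) (l 4)) (l 4)) (l 4))) (l 4)) (l 4)))), by decide +kernel⟩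

def k29_mm_202 : ∃ t, chk3 f_mm_202 t 7 5 1 = true :=
  ⟨(b (a (a (b (a (b (c (b (a (l 16826608) (l 16807560)) (a (l 16815416) (l 16782872))) (b (a (l 16784504) (l 16779736)) (a (l 16787800) (l 16781904)))) (a (b (c (l 16780544) (l 16786480)) (a (c (l 16341020103) (l 16783896)) (b (c (l 28689051815) (l 30299666103)) (a (b (l 41573955207) (l 79691791767)) (l 110293445911))))) (b (b (a (l 16785904) (a (c (l 16782672) (l 16785400)) (b (l 53921987671) (l 97945414679)))) (a (a (l 16782840) (b (l 16783632) (l 72175599447))) (l 112977796887))) (a (b (a (b (l 62511922439) (l 107072199159)) (l 4)) (l 4)) (l 4))))) (b (a (b (b (c (l 16792688) (l 16776936)) (a (l 16785112) (a (l 16781904) (b (l 16780760) (a (l 16785648) (l 70028114743)))))) (a (b (c (l 16785184) (l 16784808)) (a (c (l 43721438695) (l 44795181367)) (b (l 73249341671) (l 4)))) (b (a (b (c (l 16783480) (l 16785608)) (l 93650447303)) (l 108682824375)) (l 4)))) (b (a (b (b (c (l 16782608) (l 16783688)) (a (l 16785592) (l 77544309255)))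 (a (b (c (l 66270019399) (l 64122533655)) (l 108682813511)) (l 4))) (b (a (l 102240378487) (l 4)) (l 4))) (l 4))) (a (b (a (b (l 123178340711) (l 4)) (l 4)) (l 4)) (l 4)))) (a (b (a (b (a (b (a (c (l 43721436599) (l 44795180167)) (l 97408542215)) (l 124252091111)) (l 4)) (l 4)) (l 4)) (l 4)) (l 4))) (l 4)) (l 4)) (l 4)), by decide +kernel⟩

def k30_mm_202 : ∃ t, chk3 f_mm_202 t 3 3 1 = true :=
  ⟨(b (a (b (a (b (a (b (a (l 16874472) (c (l 16802272) (l 16809344))) (a (c (l 16827744) (l 16814200)) (b (a (l 16822096) (l 16782128)) (a (l 16784840) (c (l 48016416999) (l 48016412839)))))) (a (b (a (c (l 16786336) (l 16783584)) (b (c (l 16789672) (l 16783920)) (a (c (l 41037092327) (l 43184571255)) (l 94187339511)))) (a (b (a (c (l 29762797271) (l 16787008)) (l 82913048615)) (l 4)) (l 4))) (b (a (b (a (b (l 36205250727) (l 83449900247)) (l 4)) (l 4)) (l 4)) (l 4)))) (a (b (a (b (l 16796592) (c (l 23857218135) (l 26004703367))) (a (b (c (l 38352735031) (l 36742118807)) (l 100629788583))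 (l 115125316935))) (a (a (b (l 27615316455) (l 84523660359)) (l 106535394455)) (l 4))) (l 4))) (l 4)) (a (l 4) (l 4))) (l 4)) (l 4)), by decide +kernel⟩

theorem s31_mm_202 : ∃ t, chk3 f_mm_202 t 6 5 1 = true := ex3_b k27_mm_202 k28_mm_202

theorem s32_mm_202 : ∃ t, chk3 f_mm_202 t 3 5 1 = true := ex3_a s31_mm_202 k29_mm_202

theorem s33_mm_202 : ∃ t, chk3 f_mm_202 t 60 36 1 = true := ex3_a k21_mm_202 k22_mm_202

theorem s34_mm_202 : ∃ t, chk3 f_mm_202 t 60 18 1 = true := ex3_b s33_mm_202 k23_mm_202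

theorem s35_mm_202 : ∃ t, chk3 f_mm_202 t 30 18 1 = true := ex3_a s34_mm_202 k24_mm_202

theorem s36_mm_202 : ∃ t, chk3 f_mm_202 t 30 9 1 = true := ex3_b s35_mm_202 k25_mm_202

theorem s37_mm_202 : ∃ t, chk3 f_mm_202 t 15 9 1 = true := ex3_a s36_mm_202 k26_mm_202

theorem s38_mm_202 : ∃ t, chk3 f_mm_202 t 14 19 1 = true := ex3_a k19_mm_202 k20_mm_202

theorem s39_mm_202 : ∃ t, chk3 f_mm_202 t 29 18 1 = true := ex3_b k17_mm_202 k18_mm_202

theorem s40_mm_202 : ∃ t, chk3 f_mm_202 t 14 18 1 = true := ex3_a k16_mm_202 s39_mm_202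

theorem s41_mm_202 : ∃ t, chk3 f_mm_202 t 14 9 1 = true := ex3_b s40_mm_202 s38_mm_202

theorem s42_mm_202 : ∃ t, chk3 f_mm_202 t 7 9 1 = true := ex3_a s41_mm_202 s37_mm_202

theorem s43_mm_202 : ∃ t, chk3 f_mm_202 t 122 35 1 = true := ex3_b k12_mm_202 k13_mm_202

theorem s44_mm_202 : ∃ t, chk3 f_mm_202 t 61 35 1 = true := ex3_a s43_mm_202 k14_mm_202

theorem s45_mm_202 : ∃ t, chk3 f_mm_202 t 30 35 1 = true := ex3_a k11_mm_202 s44_mm_202

theorem s46_mm_202 : ∃ t, chk3 f_mm_202 t 61 34 1 = true := ex3_a k9_mm_202 k10_mm_202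

theorem s47_mm_202 : ∃ t, chk3 f_mm_202 t 30 34 1 = true := ex3_a k8_mm_202 s46_mm_202

theorem s48_mm_202 : ∃ t, chk3 f_mm_202 t 30 17 1 = true := ex3_b s47_mm_202 s45_mm_202

theorem s49_mm_202 : ∃ t, chk3 f_mm_202 t 15 17 1 = true := ex3_a s48_mm_202 k15_mm_202

theorem s50_mm_202 : ∃ t, chk3 f_mm_202 t 15 8 1 = true := ex3_b k7_mm_202 s49_mm_202

theorem s51_mm_202 : ∃ t, chk3 f_mm_202 t 14 16 1 = true := ex3_a k4_mm_202 k5_mm_202

theorem s52_mm_202 : ∃ t, chk3 f_mm_202 t 14 8 1 = true := ex3_b s51_mm_202 k6_mm_202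

theorem s53_mm_202 : ∃ t, chk3 f_mm_202 t 7 8 1 = true := ex3_a s52_mm_202 s50_mm_202

theorem s54_mm_202 : ∃ t, chk3 f_mm_202 t 7 4 1 = true := ex3_b s53_mm_202 s42_mm_202

theorem s55_mm_202 : ∃ t, chk3 f_mm_202 t 6 4 1 = true := ex3_b k2_mm_202 k3_mm_202

theorem s56_mm_202 : ∃ t, chk3 f_mm_202 t 3 4 1 = true := ex3_a s55_mm_202 s54_mm_202

theorem s57_mm_202 : ∃ t, chk3 f_mm_202 t 3 2 1 = true := ex3_b s56_mm_202 s32_mm_202

theorem s58_mm_202 : ∃ t, chk3 f_mm_202 t 3 1 1 = true := ex3_b s57_mm_202 k30_mm_202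

theorem s59_mm_202 : ∃ t, chk3 f_mm_202 t 2 1 1 = true := ex3_b k0_mm_202 k1_mm_202

theorem s60_mm_202 : ∃ t, chk3 f_mm_202 t 1 1 1 = true := ex3_a s59_mm_202 s58_mm_202

theorem c_mm_202 : CertN 0 536870912 0 536870912 134217728 67108864 3 true false false .pp 2 0 2
    ndN0q2 ndN0q0 pcN2 cut_mm_202 Ext.none :=
  certN0 (fam := true) (s1 := false) (s2 := false) (a := 2) (b := 0) (c := 2) (cn := .pp) (n1 := ndN0q2) (n2 := ndN0q0) (pc := pcN2) (cut := cut_mm_202) (xt := Ext.none) (P1 := 0) (W1 := 536870912) (P2 := 0) (W2 := 536870912) (P3 := 134217728) (W3 := 67108864) (N0 := 3)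
    rfl s60_mm_202

noncomputable def f_mm_203 : ℕ → ℕ → ℕ → ℕ → Bool := onCell 0 536870912 1610612736 536870912 134217728 67108864
    (rowN 3 1 true false false .up 2 0 3 (qsf 0 536870912 0 536870912 3) ndN0q2 ndN0q0 pcN3 Cut.none Ext.none)

def k0_mm_203 : ∃ t, chk3 f_mm_203 t 1 1 1 = true :=
  ⟨(a (b (b (b (a (a (b (l 17227320) (l 17141272)) (b (a (l 17107152) (l 16999544)) (a (l 17023608) (b (l 16958816) (l 16897744))))) (a (b (a (b (l 16948648) (l 16844816)) (b (a (l 16854416) (a (l 16816712) (c (l 16795032) (l 16798704)))) (a (a (l 16847704) (l 16797064)) (a (b (l 16808528) (l 54458895655)) (l 90429308503))))) (a (b (c (l 16832480) (l 16829600)) (a (l 16831000) (a (l 16789120) (b (l 16804696) (l 74323137047))))) (b (a (b (a (l 16818576) (l 64659475511)) (a (l 52311436631) (l 88281766743))) (l 115125366471)) (a (a (l 93650518151) (l 4)) (l 4))))) (b (a (a (b (a (b (l 30836574023) (l 82913054487)) (l 105461657991)) (l 4)) (l 4)) (l 4)) (l 4)))) (a (a (b (a (l 17095016) (l 17021184))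 (a (l 17014568) (l 16879832))) (b (c (a (l 16911976) (b (l 16844816) (a (l 16869000) (l 16785216)))) (a (l 16890712) (b (l 16830560) (l 16815960)))) (a (b (l 16843760) (a (l 16868192) (l 16798536))) (a (b (b (l 16835112) (l 16817296)) (a (b (l 16809888) (l 16815104)) (l 86671199607))) (b (a (b (l 16804912) (l 76470609415)) (l 92039888647)) (l 115662224263)))))) (a (a (c (b (b (a (l 20636039687) (l 93650536551)) (a (l 84523734359) (l 4))) (l 4)) (b (b (a (l 27078499383) (l 96871766343)) (a (l 88281829767) (l 4))) (l 4))) (l 4)) (l 4)))) (b (a (a (b (a (l 16917512) (b (l 16886840) (a (l 16868840) (l 16833936)))) (l 2)) (b (a (b (a (l 16832496) (b (l 49627088455) (l 79691868983))) (a (a (l 16807960) (l 75933776599)) (l 104924822311))) (b (a (l 109756662535) (l 4)) (l 4))) (l 2))) (l 4)) (l 2))) (l 2)) (b (l 4) (l 2))), by decide +kernel⟩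

theorem c_mm_203 : CertN 0 536870912 0 536870912 134217728 67108864 3 true false false .up 2 0 3
    ndN0q2 ndN0q0 pcN3 Cut.none Ext.none :=
  certN1 (fam := true) (s1 := false) (s2 := false) (a := 2) (b := 0) (c := 3) (cn := .up) (n1 := ndN0q2) (n2 := ndN0q0) (pc := pcN3) (cut := Cut.none) (xt := Ext.none) (P1 := 0) (W1 := 536870912) (P2 := 0) (W2 := 536870912) (P3 := 134217728) (W3 := 67108864) (N0 := 3)
    rfl (fun _ => rfl) k0_mm_203

noncomputable def f_mm_213 : ℕ → ℕ → ℕ → ℕ → Bool := onCell 0 536870912 536870912 536870912 134217728 67108864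
    (rowN 3 0 true false false .pnn 2 1 3 (qsf 0 536870912 536870912 536870912 3) ndN0q2 ndN0q1 pcN3 Cut.none Ext.none)

def k0_mm_213 : ∃ t, chk3 f_mm_213 t 1 1 1 = true :=
  ⟨(a (b (b (b (a (a (b (a (b (l 16888952) (l 16834104)) (b (c (l 16817256) (l 16817864)) (a (a (l 16815496) (l 16821376)) (l 92576784407)))) (a (a (b (l 16838080) (a (l 16814032) (l 16820424))) (b (a (l 16814880) (l 16821024)) (b (l 87744934119) (l 108682859735)))) (b (b (l 98482389687) (l 116199121943)) (l 4)))) (b (a (b (b (l 100093000263) (l 115662249239)) (l 4)) (l 4)) (l 4))) (l 4)) (a (a (b (a (b (a (b (l 88818676375) (l 110830344503)) (l 4)) (l 4)) (l 4)) (l 4)) (l 4)) (l 4))) (l 4)) (l 4)) (l 4)), by decide +kernel⟩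

theorem c_mm_213 : CertN 0 536870912 536870912 536870912 134217728 67108864 3 true false false .pnn 2 1 3
    ndN0q2 ndN0q1 pcN3 Cut.none Ext.none :=
  certN0 (fam := true) (s1 := false) (s2 := false) (a := 2) (b := 1) (c := 3) (cn := .pnn) (n1 := ndN0q2) (n2 := ndN0q1) (pc := pcN3) (cut := Cut.none) (xt := Ext.none) (P1 := 0) (W1 := 536870912) (P2 := 536870912) (W2 := 536870912) (P3 := 134217728) (W3 := 67108864) (N0 := 3)
    rfl k0_mm_213

end Pool.Agent.Strip051.G.I1_8_3_16.Tab.C.NA00

namespace Pool.Agent.Strip051.G.I1_8_3_16.Tab.C.NA01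

open Pool.Agent.Strip051.PB Pool.Agent.Strip051.PB.T
open Pool.Agent.Strip051.G.I1_8_3_16.Tab

noncomputable def f_pp_001 : ℕ → ℕ → ℕ → ℕ → Bool := onCell 0 536870912 0 536870912 134217728 67108864
    (rowN 3 0 true true true .up 0 0 1 (qsf 0 536870912 0 536870912 1) ndN0q0 ndN1q0 pcN1 Cut.none Ext.none)

def k0_pp_001 : ∃ t, chk3 f_pp_001 t 1 1 1 = true :=
  ⟨(l 4), by decide +kernel⟩

theorem c_pp_001 : CertN 0 536870912 0 536870912 134217728 67108864 3 true true true .up 0 0 1
    ndN0q0 ndN1q0 pcN1 Cut.none Ext.none :=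
  certN0 (fam := true) (s1 := true) (s2 := true) (a := 0) (b := 0) (c := 1) (cn := .up) (n1 := ndN0q0) (n2 := ndN1q0) (pc := pcN1) (cut := Cut.none) (xt := Ext.none) (P1 := 0) (W1 := 536870912) (P2 := 0) (W2 := 536870912) (P3 := 134217728) (W3 := 67108864) (N0 := 3)
    rfl k0_pp_001

noncomputable def f_pp_011 : ℕ → ℕ → ℕ → ℕ → Bool := onCell 0 536870912 536870912 536870912 134217728 67108864
    (rowN 3 0 true true true .pnn 0 1 1 (qsf 0 536870912 536870912 536870912 1) ndN0q0 ndN1q1 pcN1 Cut.none Ext.none)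

def k0_pp_011 : ∃ t, chk3 f_pp_011 t 1 1 1 = true :=
  ⟨(l 4), by decide +kernel⟩

theorem c_pp_011 : CertN 0 536870912 536870912 536870912 134217728 67108864 3 true true true .pnn 0 1 1
    ndN0q0 ndN1q1 pcN1 Cut.none Ext.none :=
  certN0 (fam := true) (s1 := true) (s2 := true) (a := 0) (b := 1) (c := 1) (cn := .pnn) (n1 := ndN0q0) (n2 := ndN1q1) (pc := pcN1) (cut := Cut.none) (xt := Ext.none) (P1 := 0) (W1 := 536870912) (P2 := 536870912) (W2 := 536870912) (P3 := 134217728) (W3 := 67108864) (N0 := 3)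
    rfl k0_pp_011

noncomputable def f_pp_012 : ℕ → ℕ → ℕ → ℕ → Bool := onCell 0 536870912 536870912 536870912 134217728 67108864
    (rowN 3 0 true true true .pnp 0 1 2 (qsf 0 536870912 536870912 536870912 2) ndN0q0 ndN1q1 pcN2 Cut.none Ext.none)

def k0_pp_012 : ∃ t, chk3 f_pp_012 t 1 1 1 = true :=
  ⟨(l 4), by decide +kernel⟩

theorem c_pp_012 : CertN 0 536870912 536870912 536870912 134217728 67108864 3 true true true .pnp 0 1 2
    ndN0q0 ndN1q1 pcN2 Cut.none Ext.none :=
  certN0 (fam := true) (s1 := true) (s2 := true) (a := 0) (b := 1) (c := 2) (cn := .pnp) (n1 := ndN0q0) (n2 := ndN1q1) (pc := pcN2) (cut := Cut.none) (xt := Ext.none) (P1 := 0) (W1 := 536870912) (P2 := 536870912) (W2 := 536870912) (P3 := 134217728) (W3 := 67108864) (N0 := 3)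
    rfl k0_pp_012

noncomputable def cut_pp_022_a : Cut := Cut.of [[⟨0, 0, 0, 67108864⟩, ⟨1, 1, 0, 67108864⟩, ⟨2, 1, 0, 67108864⟩]]

noncomputable def f_pp_022_a : ℕ → ℕ → ℕ → ℕ → Bool := onCell 0 536870912 0 536870912 134217728 67108864
    (rowN 3 0 true true true .pp 0 2 2 (qsf 0 536870912 0 536870912 2) ndN0q0 ndN1q2a pcN2 cut_pp_022_a Ext.none)

def k0_pp_022_a : ∃ t, chk3 f_pp_022_a t 4 2 1 = true :=
  ⟨(a (a (b (a (c (b (l 17031664) (a (l 16869352) (l 17009368))) (b (l 16522968) (l 16534696))) (c (b (l 17228248) (l 17161616)) (l 16574480))) (b (a (c (a (l 16655760) (l 16829960)) (l 16573672)) (c (b (l 17066240) (l 16972616)) (l 16561408))) (a (c (b (l 16581808) (l 16615032)) (b (l 16569920) (l 16583480))) (c (b (l 16810064) (a (l 16615424) (l 16771400))) (l 16617824))))) (b (c (a (l 17228096) (l 17376272)) (a (b (l 16844160) (l 16787136)) (l 16966608))) (b (a (c (l 17175816) (l 16664688)) (c (l 17261080) (l 16850296))) (a (c (b (l 17049744) (l 16916648)) (l 16616944)) (c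 (b (l 17159240) (l 17071216)) (b (l 16744888) (l 16654064))))))) (b (a (c (l 17406808) (b (l 17120432) (l 17081104))) (c (l 17380168) (l 17165064))) (a (b (c (l 17307416) (a (l 16967144) (l 17037376))) (a (c (l 17175424) (l 16846192)) (c (l 17197248) (l 16935184)))) (b (c (l 17287608) (l 17086136)) (c (b (l 17216032) (l 17157936)) (a (l 16984968) (l 17007984))))))), by decide +kernel⟩

def k1_pp_022_a : ∃ t, chk3 f_pp_022_a t 4 6 1 = true :=
  ⟨(a (a (b (a (c (b (a (l 16605288) (l 16610488)) (a (l 16641632) (l 16625936))) (b (l 16619584) (a (l 16612840) (l 16618080)))) (c (b (l 16639040) (a (l 16631104) (l 16636184))) (b (l 16608744) (l 16646704)))) (a (b (c (a (b (l 16633360) (l 16642464)) (b (l 16638656) (l 16647760))) (a (l 16652408) (l 16657736))) (a (c (b (l 16665192) (c (l 16663456) (l 16661040))) (a (l 16671680) (l 16674384))) (c (b (l 16657368) (l 16680608)) (a (l 16677072) (l 16679728))))) (c (b (a (l 16669344) (l 16674416)) (a (b (l 16662536) (l 16683120)) (b (l 16667592)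 (l 16677648)))) (b (a (l 16642016) (l 16647184)) (a (b (l 16657296) (l 16668128)) (b (l 16662504) (l 16673336))))))) (b (c (a (b (a (l 16741568) (l 16851936)) (a (l 16641192) (l 16700144))) (b (l 16966712) (a (l 16803976) (l 16880368)))) (a (b (l 16618736) (l 16656848)) (b (l 16628792) (l 16666960)))) (b (a (c (a (l 16679408) (l 16684320)) (a (l 16652296) (l 16657368))) (c (a (l 16689168) (l 16753288)) (a (l 16662400) (l 16688424)))) (a (a (c (b (l 16672544) (l 16682560)) (l 16693976)) (c (b (l 16677392) (l 16687368)) (l 16699032))) (a (c (a (l 16707128) (l 16710512)) (l 16710232)) (c (l 22783361511) (l 16723872))))))) (b (a (a (b (c (l 17053440) (l 16730488)) (c (l 16914472) (l 16677224))) (b (c (l 17090656) (l 16840640)) (c (l 17007872) (l 16771120)))) (b (c (l 17092336) (a (l 16903152) (l 4))) (l 4))) (a (a (b (b (c (l 16878528) (l 16692672)) (c (l 16825208) (l 16706128))) (b (l 4) (l 4))) (l 4)) (l 4)))), by decide +kernel⟩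

def k2_pp_022_a : ∃ t, chk3 f_pp_022_a t 4 7 1 = true :=
  ⟨(a (b (a (b (a (b (a (c (c (l 16684512) (l 16682424)) (a (l 16667512) (l 16670216))) (c (c (l 16679200) (l 16677184)) (l 16684696))) (a (c (a (c (l 16683984) (l 16682200)) (c (l 16686576) (l 16684832))) (a (l 16679552) (l 16682248))) (c (a (l 16698760) (l 16701312)) (a (l 16684928) (l 16687576))))) (c (b (a (c (l 16684240) (l 16682320)) (l 16698728)) (a (a (l 16703824) (l 16706304)) (c (l 16710664) (l 16709240)))) (b (a (l 16689976) (l 16684680)) (a (a (l 16690208) (l 16692808)) (l 16707144))))) (a (a (a (l 6) (a (l 6) (b (c (l 16709088) (l 16695856)) (l 6)))) (a (b (c (c (l 16701168) (l 16699832)) (l 16708328)) (l 6)) (b (c (c (l 16703648) (l 16702376)) (l 16710968)) (b (c (l 16717856) (l 16710616)) (l 6))))) (b (c (a (a (c (l 16706088) (l 16704888)) (b (l 16704832) (l 16711064))) (a (l 16720832) (b (l 16709648) (l 16716288)))) (a (a (l 16713584) (l 16716176)) (a (l 16718744) (l 16721584)))) (c (a (a (b (l 16715056) (l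 6)) (b (l 16717472) (l 16729360))) (b (a (l 16730552) (l 16734872)) (a (l 16738472) (l 4)))) (a (b (a (l 16713216) (l 16715792)) (a (l 6) (l 16733280))) (b (c (l 16731752) (l 16730976)) (a (l 16737184) (l 4)))))))) (b (a (a (c (b (l 16703584) (c (l 16715968) (l 16714664))) (b (l 16689792) (l 16717992))) (b (c (l 16709328) (l 16716704)) (c (c (l 16724936) (l 16723592)) (l 16732104)))) (a (b (c (l 16729424) (l 16726152)) (l 4)) (l 4))) (b (a (a (a (c (l 9898468791) (l 16725616)) (l 4)) (l 4)) (l 4)) (l 4)))) (a (a (l 6) (a (b (l 6) (l 4)) (l 4))) (l 4))) (l 4)), by decide +kernel⟩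

def k3_pp_022_a : ∃ t, chk3 f_pp_022_a t 5 1 1 = true :=
  ⟨(b (a (b (a (c (l 17316528) (l 17164576)) (l 17184208)) (a (b (c (l 17224272) (l 17088232)) (c (l 17129136) (l 38890014423))) (b (l 33521393735) (l 4)))) (b (a (l 18489096023) (b (l 17072728) (l 17025960))) (l 4))) (l 4)), by decide +kernel⟩

def k4_pp_022_a : ∃ t, chk3 f_pp_022_a t 3 1 1 = true :=
  ⟨(a (b (a (b (a (b (l 17001696) (l 4)) (l 4)) (l 4)) (l 4)) (l 4)) (l 4)), by decide +kernel⟩

theorem s5_pp_022_a : ∃ t, chk3 f_pp_022_a t 4 3 1 = true := ex3_b k1_pp_022_a k2_pp_022_a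

theorem s6_pp_022_a : ∃ t, chk3 f_pp_022_a t 4 1 1 = true := ex3_b k0_pp_022_a s5_pp_022_a

theorem s7_pp_022_a : ∃ t, chk3 f_pp_022_a t 2 1 1 = true := ex3_a s6_pp_022_a k3_pp_022_a

theorem s8_pp_022_a : ∃ t, chk3 f_pp_022_a t 1 1 1 = true := ex3_a s7_pp_022_a k4_pp_022_a

theorem c_pp_022_a : CertN 0 536870912 0 536870912 134217728 67108864 3 true true true .pp 0 2 2
    ndN0q0 ndN1q2a pcN2 cut_pp_022_a Ext.none :=
  certN0 (fam := true) (s1 := true) (s2 := true) (a := 0) (b := 2) (c := 2) (cn := .pp) (n1 := ndN0q0) (n2 := ndN1q2a) (pc := pcN2) (cut := cut_pp_022_a) (xt := Ext.none) (P1 := 0) (W1 := 536870912) (P2 := 0) (W2 := 536870912) (P3 := 134217728) (W3 := 67108864) (N0 := 3)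
    rfl s8_pp_022_a

noncomputable def cut_pp_022_b : Cut := Cut.of [[⟨0, 0, 0, 67108864⟩, ⟨1, 1, 0, 67108864⟩, ⟨2, 1, 0, 67108864⟩]]

noncomputable def f_pp_022_b : ℕ → ℕ → ℕ → ℕ → Bool := onCell 0 536870912 1239849684 370763052 134217728 67108864
    (rowN 3 0 true true true .pp 0 2 2 (qsf 0 536870912 1239849684 370763052 2) ndN0q0 ndN1q2b pcN2 cut_pp_022_b Ext.none)

def k0_pp_022_b : ∃ t, chk3 f_pp_022_b t 1 1 1 = true :=
  ⟨(a (b (a (b (a (b (a (b (a (c (a (l 17187272) (l 17282232)) (l 16526616)) (c (l 17384880) (l 16803928))) (c (a (l 17551144) (l 17629296)) (a (l 16919928) (l 17102632)))) (a (c (l 17508240) (a (l 17078488) (l 17138256))) (c (l 17593888) (l 17059176)))) (a (c (b (l 17814424) (l 17988752)) (a (l 17295432) (l 17449760))) (c (l 17888768) (l 17521304)))) (b (c (a (l 17586304) (l 17533160)) (a (b (l 17208688) (l 17354336)) (l 17311912))) (a (c (l 17817848) (l 17541136)) (l 17619392)))) (a (b (a (c (l 18187448) (l 17770672)) (l 17939088)) (a (l 18191784) (l 18100160)))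 (b (a (l 17862416) (l 17770624)) (l 17936920)))) (b (a (b (a (b (l 17327472) (l 17419904)) (l 17309520)) (a (l 17542032) (l 17458232))) (b (a (l 17237600) (b (l 17128632) (l 17198664))) (a (l 17374296) (l 4)))) (a (b (l 17645904) (l 17716992)) (l 4)))) (a (a (b (b (l 18414224) (l 18335768)) (b (l 18364000) (l 4))) (b (b (l 18015616) (l 4)) (l 4))) (l 4))) (b (a (b (a (b (a (b (l 17055784) (l 4)) (l 4)) (l 4)) (l 4)) (l 4)) (l 2)) (l 2))), by decide +kernel⟩

theorem c_pp_022_b : CertN 0 536870912 1239849684 370763052 134217728 67108864 3 true true true .pp 0 2 2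
    ndN0q0 ndN1q2b pcN2 cut_pp_022_b Ext.none :=
  certN0 (fam := true) (s1 := true) (s2 := true) (a := 0) (b := 2) (c := 2) (cn := .pp) (n1 := ndN0q0) (n2 := ndN1q2b) (pc := pcN2) (cut := cut_pp_022_b) (xt := Ext.none) (P1 := 0) (W1 := 536870912) (P2 := 1239849684) (W2 := 370763052) (P3 := 134217728) (W3 := 67108864) (N0 := 3)
    rfl k0_pp_022_b

noncomputable def f_pp_023_a : ℕ → ℕ → ℕ → ℕ → Bool := onCell 1610612736 536870912 0 536870912 134217728 67108864
    (rowN 3 2 true true true .up 0 2 3 (qsf 0 536870912 0 536870912 3) ndN0q0 ndN1q2a pcN3 Cut.none Ext.none)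

def k0_pp_023_a : ∃ t, chk3 f_pp_023_a t 1 1 1 = true :=
  ⟨(a (l 4) (l 2)), by decide +kernel⟩

theorem c_pp_023_a : CertN 0 536870912 0 536870912 134217728 67108864 3 true true true .up 0 2 3
    ndN0q0 ndN1q2a pcN3 Cut.none Ext.none :=
  certN2 (fam := true) (s1 := true) (s2 := true) (a := 0) (b := 2) (c := 3) (cn := .up) (n1 := ndN0q0) (n2 := ndN1q2a) (pc := pcN3) (cut := Cut.none) (xt := Ext.none) (P1 := 0) (W1 := 536870912) (P2 := 0) (W2 := 536870912) (P3 := 134217728) (W3 := 67108864) (N0 := 3)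
    rfl (fun _ => rfl) k0_pp_023_a

noncomputable def f_pp_023_b : ℕ → ℕ → ℕ → ℕ → Bool := onCell 1610612736 536870912 1239849684 370763052 134217728 67108864
    (rowN 3 2 true true true .up 0 2 3 (qsf 0 536870912 1239849684 370763052 3) ndN0q0 ndN1q2b pcN3 Cut.none Ext.none)

def k0_pp_023_b : ∃ t, chk3 f_pp_023_b t 1 1 1 = true :=
  ⟨(a (l 4) (l 4)), by decide +kernel⟩

theorem c_pp_023_b : CertN 0 536870912 1239849684 370763052 134217728 67108864 3 true true true .up 0 2 3
    ndN0q0 ndN1q2b pcN3 Cut.none Ext.none :=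
  certN2 (fam := true) (s1 := true) (s2 := true) (a := 0) (b := 2) (c := 3) (cn := .up) (n1 := ndN0q0) (n2 := ndN1q2b) (pc := pcN3) (cut := Cut.none) (xt := Ext.none) (P1 := 0) (W1 := 536870912) (P2 := 1239849684) (W2 := 370763052) (P3 := 134217728) (W3 := 67108864) (N0 := 3)
    rfl (fun _ => rfl) k0_pp_023_b

noncomputable def f_pp_033 : ℕ → ℕ → ℕ → ℕ → Bool := onCell 0 536870912 1610612736 536870912 134217728 67108864
    (rowN 3 0 true true true .pnn 0 3 3 (qsf 0 536870912 1610612736 536870912 3) ndN0q0 ndN1q3 pcN3 Cut.none Ext.none)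

def k0_pp_033 : ∃ t, chk3 f_pp_033 t 1 1 1 = true :=
  ⟨(a (b (l 4) (l 4)) (l 4)), by decide +kernel⟩

theorem c_pp_033 : CertN 0 536870912 1610612736 536870912 134217728 67108864 3 true true true .pnn 0 3 3
    ndN0q0 ndN1q3 pcN3 Cut.none Ext.none :=
  certN0 (fam := true) (s1 := true) (s2 := true) (a := 0) (b := 3) (c := 3) (cn := .pnn) (n1 := ndN0q0) (n2 := ndN1q3) (pc := pcN3) (cut := Cut.none) (xt := Ext.none) (P1 := 0) (W1 := 536870912) (P2 := 1610612736) (W2 := 536870912) (P3 := 134217728) (W3 := 67108864) (N0 := 3)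
    rfl k0_pp_033

noncomputable def f_pp_101 : ℕ → ℕ → ℕ → ℕ → Bool := onCell 536870912 536870912 0 536870912 134217728 67108864
    (rowN 3 0 true true true .npn 1 0 1 (qsf 536870912 536870912 0 536870912 1) ndN0q1 ndN1q0 pcN1 Cut.none Ext.none)

def k0_pp_101 : ∃ t, chk3 f_pp_101 t 1 1 1 = true :=
  ⟨(l 5), by decide +kernel⟩

theorem c_pp_101 : CertN 536870912 536870912 0 536870912 134217728 67108864 3 true true true .npn 1 0 1
    ndN0q1 ndN1q0 pcN1 Cut.none Ext.none :=
  certN0 (fam := true) (s1 := true) (s2 := true) (a := 1) (b := 0) (c := 1) (cn := .npn) (n1 := ndN0q1) (n2 := ndN1q0) (pc := pcN1) (cut := Cut.none) (xt := Ext.none) (P1 := 536870912) (W1 := 536870912) (P2 := 0) (W2 := 536870912) (P3 := 134217728) (W3 := 67108864) (N0 := 3)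
    rfl k0_pp_101

noncomputable def f_pp_102 : ℕ → ℕ → ℕ → ℕ → Bool := onCell 536870912 536870912 0 536870912 134217728 67108864
    (rowN 3 0 true true true .npp 1 0 2 (qsf 536870912 536870912 0 536870912 2) ndN0q1 ndN1q0 pcN2 Cut.none Ext.none)

def k0_pp_102 : ∃ t, chk3 f_pp_102 t 1 1 1 = true :=
  ⟨(l 5), by decide +kernel⟩

theorem c_pp_102 : CertN 536870912 536870912 0 536870912 134217728 67108864 3 true true true .npp 1 0 2
    ndN0q1 ndN1q0 pcN2 Cut.none Ext.none :=
  certN0 (fam := true) (s1 := true) (s2 := true) (a := 1) (b := 0) (c := 2) (cn := .npp) (n1 := ndN0q1) (n2 := ndN1q0) (pc := pcN2) (cut := Cut.none) (xt := Ext.none) (P1 := 536870912) (W1 := 536870912) (P2 := 0) (W2 := 536870912) (P3 := 134217728) (W3 := 67108864) (N0 := 3)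
    rfl k0_pp_102

noncomputable def f_pp_112 : ℕ → ℕ → ℕ → ℕ → Bool := onCell 536870912 536870912 536870912 536870912 134217728 67108864
    (rowN 3 0 true true true .dn 1 1 2 (qsf 536870912 536870912 536870912 536870912 2) ndN0q1 ndN1q1 pcN2 Cut.none Ext.none)

def k0_pp_112 : ∃ t, chk3 f_pp_112 t 1 1 1 = true :=
  ⟨(l 4), by decide +kernel⟩

theorem c_pp_112 : CertN 536870912 536870912 536870912 536870912 134217728 67108864 3 true true true .dn 1 1 2
    ndN0q1 ndN1q1 pcN2 Cut.none Ext.none :=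
  certN0 (fam := true) (s1 := true) (s2 := true) (a := 1) (b := 1) (c := 2) (cn := .dn) (n1 := ndN0q1) (n2 := ndN1q1) (pc := pcN2) (cut := Cut.none) (xt := Ext.none) (P1 := 536870912) (W1 := 536870912) (P2 := 536870912) (W2 := 536870912) (P3 := 134217728) (W3 := 67108864) (N0 := 3)
    rfl k0_pp_112

noncomputable def f_pp_113 : ℕ → ℕ → ℕ → ℕ → Bool := onCell 536870912 536870912 536870912 536870912 134217728 67108864
    (rowN 3 0 true true true .nn 1 1 3 (qsf 536870912 536870912 536870912 536870912 3) ndN0q1 ndN1q1 pcN3 Cut.none Ext.none)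

def k0_pp_113 : ∃ t, chk3 f_pp_113 t 1 1 1 = true :=
  ⟨(l 4), by decide +kernel⟩

theorem c_pp_113 : CertN 536870912 536870912 536870912 536870912 134217728 67108864 3 true true true .nn 1 1 3
    ndN0q1 ndN1q1 pcN3 Cut.none Ext.none :=
  certN0 (fam := true) (s1 := true) (s2 := true) (a := 1) (b := 1) (c := 3) (cn := .nn) (n1 := ndN0q1) (n2 := ndN1q1) (pc := pcN3) (cut := Cut.none) (xt := Ext.none) (P1 := 536870912) (W1 := 536870912) (P2 := 536870912) (W2 := 536870912) (P3 := 134217728) (W3 := 67108864) (N0 := 3)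
    rfl k0_pp_113

noncomputable def f_pp_123_a : ℕ → ℕ → ℕ → ℕ → Bool := onCell 536870912 536870912 0 536870912 134217728 67108864
    (rowN 3 0 true true true .npn 1 2 3 (qsf 536870912 536870912 0 536870912 3) ndN0q1 ndN1q2a pcN3 Cut.none Ext.none)

def k0_pp_123_a : ∃ t, chk3 f_pp_123_a t 1 1 1 = true :=
  ⟨(l 4), by decide +kernel⟩

theorem c_pp_123_a : CertN 536870912 536870912 0 536870912 134217728 67108864 3 true true true .npn 1 2 3
    ndN0q1 ndN1q2a pcN3 Cut.none Ext.none :=
  certN0 (fam := true) (s1 := true) (s2 := true) (a := 1) (b := 2) (c := 3) (cn := .npn) (n1 := ndN0q1) (n2 := ndN1q2a) (pc := pcN3) (cut := Cut.none) (xt := Ext.none) (P1 := 536870912) (W1 := 536870912) (P2 := 0) (W2 := 536870912) (P3 := 134217728) (W3 := 67108864) (N0 := 3)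
    rfl k0_pp_123_a

noncomputable def f_pp_123_b : ℕ → ℕ → ℕ → ℕ → Bool := onCell 536870912 536870912 1239849684 370763052 134217728 67108864
    (rowN 3 0 true true true .npn 1 2 3 (qsf 536870912 536870912 1239849684 370763052 3) ndN0q1 ndN1q2b pcN3 Cut.none Ext.none)

def k0_pp_123_b : ∃ t, chk3 f_pp_123_b t 1 1 1 = true :=
  ⟨(l 4), by decide +kernel⟩

theorem c_pp_123_b : CertN 536870912 536870912 1239849684 370763052 134217728 67108864 3 true true true .npn 1 2 3
    ndN0q1 ndN1q2b pcN3 Cut.none Ext.none :=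
  certN0 (fam := true) (s1 := true) (s2 := true) (a := 1) (b := 2) (c := 3) (cn := .npn) (n1 := ndN0q1) (n2 := ndN1q2b) (pc := pcN3) (cut := Cut.none) (xt := Ext.none) (P1 := 536870912) (W1 := 536870912) (P2 := 1239849684) (W2 := 370763052) (P3 := 134217728) (W3 := 67108864) (N0 := 3)
    rfl k0_pp_123_b

noncomputable def f_pp_133 : ℕ → ℕ → ℕ → ℕ → Bool := onCell 536870912 536870912 1610612736 536870912 134217728 67108864
    (rowN 3 0 true true true .dn 1 3 3 (qsf 536870912 536870912 1610612736 536870912 3) ndN0q1 ndN1q3 pcN3 Cut.none Ext.none)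

def k0_pp_133 : ∃ t, chk3 f_pp_133 t 1 1 1 = true :=
  ⟨(l 4), by decide +kernel⟩

theorem c_pp_133 : CertN 536870912 536870912 1610612736 536870912 134217728 67108864 3 true true true .dn 1 3 3
    ndN0q1 ndN1q3 pcN3 Cut.none Ext.none :=
  certN0 (fam := true) (s1 := true) (s2 := true) (a := 1) (b := 3) (c := 3) (cn := .dn) (n1 := ndN0q1) (n2 := ndN1q3) (pc := pcN3) (cut := Cut.none) (xt := Ext.none) (P1 := 536870912) (W1 := 536870912) (P2 := 1610612736) (W2 := 536870912) (P3 := 134217728) (W3 := 67108864) (N0 := 3)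
    rfl k0_pp_133

noncomputable def f_pp_202 : ℕ → ℕ → ℕ → ℕ → Bool := onCell 0 536870912 0 536870912 134217728 67108864
    (rowN 3 0 true true true .pp 2 0 2 (qsf 0 536870912 0 536870912 2) ndN0q2 ndN1q0 pcN2 Cut.none Ext.none)

def k0_pp_202 : ∃ t, chk3 f_pp_202 t 1 1 1 = true :=
  ⟨(l 5), by decide +kernel⟩

theorem c_pp_202 : CertN 0 536870912 0 536870912 134217728 67108864 3 true true true .pp 2 0 2
    ndN0q2 ndN1q0 pcN2 Cut.none Ext.none :=
  certN0 (fam := true) (s1 := true) (s2 := true) (a := 2) (b := 0) (c := 2) (cn := .pp) (n1 := ndN0q2) (n2 := ndN1q0) (pc := pcN2) (cut := Cut.none) (xt := Ext.none) (P1 := 0) (W1 := 536870912) (P2 := 0) (W2 := 536870912) (P3 := 134217728) (W3 := 67108864) (N0 := 3)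
    rfl k0_pp_202

noncomputable def f_pp_203 : ℕ → ℕ → ℕ → ℕ → Bool := onCell 0 536870912 0 536870912 134217728 67108864
    (rowN 3 0 true true true .up 2 0 3 (qsf 0 536870912 0 536870912 3) ndN0q2 ndN1q0 pcN3 Cut.none Ext.none)

def k0_pp_203 : ∃ t, chk3 f_pp_203 t 1 1 1 = true :=
  ⟨(l 5), by decide +kernel⟩

theorem c_pp_203 : CertN 0 536870912 0 536870912 134217728 67108864 3 true true true .up 2 0 3
    ndN0q2 ndN1q0 pcN3 Cut.none Ext.none :=
  certN0 (fam := true) (s1 := true) (s2 := true) (a := 2) (b := 0) (c := 3) (cn := .up) (n1 := ndN0q2) (n2 := ndN1q0) (pc := pcN3) (cut := Cut.none) (xt := Ext.none) (P1 := 0) (W1 := 536870912) (P2 := 0) (W2 := 536870912) (P3 := 134217728) (W3 := 67108864) (N0 := 3)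
    rfl k0_pp_203

noncomputable def f_pp_213 : ℕ → ℕ → ℕ → ℕ → Bool := onCell 0 536870912 536870912 536870912 134217728 67108864
    (rowN 3 0 true true true .pnn 2 1 3 (qsf 0 536870912 536870912 536870912 3) ndN0q2 ndN1q1 pcN3 Cut.none Ext.none)

def k0_pp_213 : ∃ t, chk3 f_pp_213 t 1 1 1 = true :=
  ⟨(l 4), by decide +kernel⟩

theorem c_pp_213 : CertN 0 536870912 536870912 536870912 134217728 67108864 3 true true true .pnn 2 1 3
    ndN0q2 ndN1q1 pcN3 Cut.none Ext.none :=
  certN0 (fam := true) (s1 := true) (s2 := true) (a := 2) (b := 1) (c := 3) (cn := .pnn) (n1 := ndN0q2) (n2 := ndN1q1) (pc := pcN3) (cut := Cut.none) (xt := Ext.none) (P1 := 0) (W1 := 536870912) (P2 := 536870912) (W2 := 536870912) (P3 := 134217728) (W3 := 67108864) (N0 := 3)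
    rfl k0_pp_213

noncomputable def f_pm_001 : ℕ → ℕ → ℕ → ℕ → Bool := onCell 0 536870912 0 536870912 134217728 67108864
    (rowN 3 0 true true false .up 0 0 1 (qsf 0 536870912 0 536870912 1) ndN0q0 ndN1q0 pcN1 Cut.none Ext.none)

def k0_pm_001 : ∃ t, chk3 f_pm_001 t 1 1 1 = true :=
  ⟨(l 3), by decide +kernel⟩

theorem c_pm_001 : CertN 0 536870912 0 536870912 134217728 67108864 3 true true false .up 0 0 1
    ndN0q0 ndN1q0 pcN1 Cut.none Ext.none :=
  certN0 (fam := true) (s1 := true) (s2 := false) (a := 0) (b := 0) (c := 1) (cn := .up) (n1 := ndN0q0) (n2 := ndN1q0) (pc := pcN1) (cut := Cut.none) (xt := Ext.none) (P1 := 0) (W1 := 536870912) (P2 := 0) (W2 := 536870912) (P3 := 134217728) (W3 := 67108864) (N0 := 3)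
    rfl k0_pm_001

noncomputable def f_pm_011 : ℕ → ℕ → ℕ → ℕ → Bool := onCell 0 536870912 536870912 536870912 134217728 67108864
    (rowN 3 1 true true false .pnn 0 1 1 (qsf 0 536870912 536870912 536870912 1) ndN0q0 ndN1q1 pcN1 Cut.none Ext.none)

def k0_pm_011 : ∃ t, chk3 f_pm_011 t 1 1 1 = true :=
  ⟨(l 3), by decide +kernel⟩

theorem c_pm_011 : CertN 0 536870912 536870912 536870912 134217728 67108864 3 true true false .pnn 0 1 1
    ndN0q0 ndN1q1 pcN1 Cut.none Ext.none :=
  certN1 (fam := true) (s1 := true) (s2 := false) (a := 0) (b := 1) (c := 1) (cn := .pnn) (n1 := ndN0q0) (n2 := ndN1q1) (pc := pcN1) (cut := Cut.none) (xt := Ext.none) (P1 := 0) (W1 := 536870912) (P2 := 536870912) (W2 := 536870912) (P3 := 134217728) (W3 := 67108864) (N0 := 3)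
    rfl (fun _ => rfl) k0_pm_011

noncomputable def f_pm_012 : ℕ → ℕ → ℕ → ℕ → Bool := onCell 1073741824 536870912 536870912 536870912 134217728 67108864
    (rowN 3 2 true true false .pnp 0 1 2 (qsf 0 536870912 536870912 536870912 2) ndN0q0 ndN1q1 pcN2 Cut.none Ext.none)

def k0_pm_012 : ∃ t, chk3 f_pm_012 t 1 1 1 = true :=
  ⟨(a (b (a (a (l 3) (a (l 3) (b (b (l 2) (a (l 3) (l 17364544))) (b (l 118281020983) (l 3))))) (b (a (a (a (b (l 2) (l 17385640)) (l 2)) (l 2)) (l 2)) (a (a (a (b (l 17343016) (l 17325968)) (a (l 17450248) (a (l 17354032) (a (l 17359176) (l 17362256))))) (l 17643304)) (b (l 17472992) (l 17461312))))) (a (l 3) (b (a (a (a (b (l 17332680) (l 3)) (a (b (l 17344360) (l 17344088)) (a (b (l 17351032) (l 17351328)) (b (a (l 17355680) (l 17359136)) (a (l 17356352) (l 17360184)))))) (b (l 17388536) (l 17393456))) (b (l 17467608) (l 17485960))) (a (a (a (l 3) (a (b (l 3) (l 3)) (a (b (l 17165504) (l 3)) (b (a (b (l 17303784) (l 17191864)) (l 17266112)) (a (b (l 17077072)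 (l 17057584)) (b (l 17073112) (l 17053808))))))) (b (b (l 17357288) (l 17274552)) (b (l 17090168) (b (l 17025320) (l 17014912))))) (b (b (l 17486456) (l 17459328)) (b (a (l 17297144) (l 17459880)) (a (l 17073456) (l 17338400)))))))) (b (a (b (l 2) (a (l 17676672) (l 2))) (l 2)) (b (a (b (l 17765592) (a (l 17584192) (l 17642592))) (b (l 2) (a (l 17659144) (l 2)))) (a (b (a (l 17625416) (l 17708232)) (a (b (l 17633920) (l 17603464)) (l 17779192))) (b (l 17964984) (a (l 17836376) (l 17829712))))))), by decide +kernel⟩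

theorem c_pm_012 : CertN 0 536870912 536870912 536870912 134217728 67108864 3 true true false .pnp 0 1 2
    ndN0q0 ndN1q1 pcN2 Cut.none Ext.none :=
  certN2 (fam := true) (s1 := true) (s2 := false) (a := 0) (b := 1) (c := 2) (cn := .pnp) (n1 := ndN0q0) (n2 := ndN1q1) (pc := pcN2) (cut := Cut.none) (xt := Ext.none) (P1 := 0) (W1 := 536870912) (P2 := 536870912) (W2 := 536870912) (P3 := 134217728) (W3 := 67108864) (N0 := 3)
    rfl (fun _ => rfl) k0_pm_012

end Pool.Agent.Strip051.G.I1_8_3_16.Tab.C.NA01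

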