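import Pool.Agent.Strip051.G.I1_8_3_16.Tab

/-! # Certificates N5 (generated) -/

set_option linter.all false
set_option maxRecDepth 100000

namespace Pool.Agent.Strip051.G.I1_8_3_16.Tab.C.NA01

open Pool.Agent.Strip051.PB Pool.Agent.Strip051.PB.T
open Pool.Agent.Strip051.G.I1_8_3_16.Tab

noncomputable def cut_pm_022_a : Cut := Cut.of [[⟨0, 0, 0, 67108864⟩, ⟨1, 1, 0, 67108864⟩, ⟨2, 1, 0, 67108864⟩], [⟨0, 0, 1, 41943040⟩, ⟨1, 1, 0, 16777216⟩, ⟨2, 1, 1, 41943040⟩]]

noncomputable def f_pm_022_a : ℕ → ℕ → ℕ → ℕ → Bool := onCell 1073741824 536870912 0 536870912 134217728 67108864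
    (rowN 3 2 true true false .pp 0 2 2 (qsf 0 536870912 0 536870912 2) ndN0q0 ndN1q2a pcN2 cut_pm_022_a Ext.none)

def k0_pm_022_a : ∃ t, chk3 f_pm_022_a t 4 2 1 = true :=
  ⟨(b (l 1) (a (l 1) (a (l 1) (a (l 1) (a (l 1) (b (l 1) (b (l 1) (a (c (l 16558776) (l 16557584)) (c (l 16555048) (l 16542776)))))))))), by decide +kernel⟩

def k1_pm_022_a : ∃ t, chk3 f_pm_022_a t 10 2 1 = true :=
  ⟨(a (a (b (l 1) (b (a (l 1) (c (b (l 16546768) (l 16559432)) (a (l 16531120) (l 16527448)))) (a (c (b (c (l 16561880) (l 16554144)) (l 16570040)) (b (l 16553696) (l 16547704))) (c (b (l 16550584) (l 16552800)) (b (l 16534856) (l 16538784)))))) (a (b (b (l 1) (c (a (l 1) (l 16659120)) (l 16535216))) (b (c (b (a (l 16577584) (l 16678816)) (c (l 16848424) (l 16536688))) (b (l 16541080) (l 16523328))) (c (b (c (l 16837496) (l 16538200)) (c (l 16827024) (l 16540240))) (a (l 16530128) (l 16525744))))) (b (a (b (l 1) (c (b (l 16776352) (l 16774184)) (l 16508168))) (b (a (c (l 16845368) (l 16480048))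 (c (b (l 16888952) (l 16886752)) (l 16498984))) (a (c (l 16819152) (l 16504656)) (c (b (l 16883192) (l 16857504)) (l 16523456))))) (a (b (c (b (l 16770312) (l 16764024)) (l 16515376)) (c (b (l 16756584) (l 16750000)) (l 16531440))) (b (a (c (b (l 16833072) (l 16825792)) (l 16511664)) (c (b (l 16725960) (l 16760008)) (l 16535592))) (c (a (b (l 16817152) (l 16809088)) (b (l 16792568) (l 16804568))) (a (l 16516992) (l 16536808)))))))) (b (a (c (b (a (l 16985992) (l 17121272)) (a (l 16935792) (l 17111808))) (b (l 16495880) (l 16520400))) (b (c (l 17283872) (l 16620832)) (c (l 17127008) (l 16620960)))) (a (b (c (a (b (l 16967816) (l 16958240)) (l 17030600)) (a (l 16506528) (l 16501752))) (c (b (a (l 16946720) (l 17073744)) (a (l 16935192) (l 17059000))) (a (l 16510872) (l 16504776)))) (b (c (a (l 17203480) (l 17296344)) (a (l 16548344) (l 16687992))) (c (b (l 17228984) (l 17210880)) (b (l 16620816) (l 16621448))))))), by decide +kernel⟩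

def k2_pm_022_a : ∃ t, chk3 f_pm_022_a t 11 2 1 = true :=
  ⟨(a (b (a (c (b (l 17442344) (l 17432952)) (b (l 16870944) (l 16868576))) (c (l 17548840) (b (l 17056128) (l 17053088)))) (c (b (a (l 17409952) (l 17523608)) (a (l 17373880) (l 17487224))) (b (a (l 16862680) (l 17043616)) (a (b (l 16855160) (l 16849856)) (l 17027560))))) (b (c (a (l 17627856) (l 17682520)) (a (l 17191832) (l 17293976))) (c (b (l 17637432) (l 17604168)) (b (a (l 17180296) (l 17283512)) (a (l 17161648) (l 17264904)))))), by decide +kernel⟩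

def k3_pm_022_a : ∃ t, chk3 f_pm_022_a t 8 6 1 = true :=
  ⟨(l 1), by decide +kernel⟩

def k4_pm_022_a : ∃ t, chk3 f_pm_022_a t 18 6 1 = true :=
  ⟨(a (b (l 1) (b (l 1) (a (l 1) (b (c (a (l 1) (l 16629152)) (l 16640192)) (c (c (b (l 16646840) (l 16648552)) (a (l 16639528) (l 16632056))) (a (b (l 16636352) (l 16638328)) (l 16640496))))))) (a (b (l 1) (a (b (l 1) (c (b (c (l 16622200) (l 16620680)) (l 16635576)) (b (l 16628904) (l 16622520)))) (b (a (l 1) (c (b (l 1) (l 16618392)) (l 16613144))) (c (b (c (l 16625320) (l 16623864)) (l 16633488)) (b (l 16626960) (l 16636312)))))) (b (l 1) (b (c (b (a (l 1) (c (l 16606736) (l 16604496))) (a (c (l 16614968) (l 16613224)) (l 16609168))) (a (b (l 1) (l 16615912)) (b (l 16601232) (l 16615760)))) (c (a (b (l 16617792) (l 16624016)) (b (l 16623152) (l 16626560))) (a (b (l 16625312) (l 16629408)) (l 16617904))))))), by decide +kernel⟩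

def k5_pm_022_a : ∃ t, chk3 f_pm_022_a t 19 6 1 = true :=
  ⟨(a (b (a (b (l 1) (a (c (l 16600624) (l 16600232)) (b (l 1) (c (l 16594752) (l 16586208))))) (a (b (l 1) (c (b (l 16584280) (l 16587376)) (b (l 16587736) (l 16591440)))) (b (c (l 16575552) (l 16577528)) (c (b (l 16579784) (l 16593176)) (l 16579312))))) (a (b (a (c (b (b (l 16599576) (l 16611768)) (l 16614328)) (b (l 16595576) (l 16609992))) (c (b (l 16605872) (l 16609088)) (l 16597248))) (c (b (c (l 16623288) (l 16621152)) (a (l 16620880) (l 16618024))) (b (a (l 16613896) (l 16608088)) (l 16623704)))) (b (c (a (l 16597280) (l 16592304)) (b (l 16599336) (l 16602816))) (c (b (l 16611016) (a (l 16616704) (l 16615376))) (a (l 16612080) (l 16611000)))))) (b (b (a (c (a (b (l 16559512) (l 16572632)) (b (l 16555472) (l 16557920))) (b (l 16570296) (l 16583928))) (c (c (l 16575584) (l 16570048)) (l 16572696))) (a (c (c (l 16588592) (l 16589608)) (l 16591472)) (c (b (l 16575896) (l 16578032)) (l 16573320)))) (a (b (c (b (l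 16595360) (l 16595144)) (l 16594000)) (c (b (l 16600824) (l 16612336)) (a (l 16609912) (l 16608824)))) (b (c (a (l 16582704) (l 16577736)) (l 16593576)) (c (b (l 16595776) (l 16610056)) (l 16616920)))))), by decide +kernel⟩

def k6_pm_022_a : ∃ t, chk3 f_pm_022_a t 8 7 1 = true :=
  ⟨(b (c (c (a (l 1) (a (b (l 1) (l 6)) (b (a (l 1) (b (l 1) (a (b (l 1) (l 6)) (b (b (l 16667776) (l 16668528)) (l 16669568))))) (a (l 6) (a (l 6) (b (l 16676768) (l 16684344))))))) (a (l 1) (a (b (l 1) (l 6)) (b (a (l 1) (b (l 1) (b (a (l 1) (l 16666968)) (a (l 6) (l 16668480))))) (a (l 6) (a (l 6) (b (l 16670608) (l 16694160)))))))) (a (l 1) (a (b (l 1) (l 6)) (b (a (l 1) (b (l 1) (a (b (l 1) (l 6)) (b (l 16665160) (l 16666848))))) (a (l 6) (a (l 6) (b (l 16674472) (l 16682672)))))))) (b (a (l 6) (a (l 6) (a (l 6) (a (l 6) (b (c (c (l 16690880) (l 16701288)) (l 16690640)) (c (c (l 16709112) (l 16708768)) (c (l 16718880) (l 16718480)))))))) (a (l 6) (b (a (l 6) (a (l 6) (c (c (b (l 16718480) (c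 (l 16733552) (l 16733216))) (b (l 16723200) (l 16730072))) (a (l 6) (b (l 16711264) (l 16730936)))))) (b (a (l 6) (a (l 6) (a (l 6) (c (c (c (l 16742888) (l 16731936)) (l 16741704)) (c (l 16730248) (l 16729240)))))) (a (l 6) (c (a (l 6) (a (l 6) (a (l 6) (a (l 6) (c (b (l 16739144) (c (b (l 16743192) (l 16745712)) (l 16746448))) (b (l 16737992) (c (l 16743192) (l 16742552)))))))) (a (l 6) (a (l 6) (a (l 6) (c (b (l 16737000) (c (l 16744720) (l 16744080))) (b (l 16735808) (c (l 16740808) (l 16740152)))))))))))))), by decide +kernel⟩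

def k7_pm_022_a : ∃ t, chk3 f_pm_022_a t 36 14 1 = true :=
  ⟨(b (a (b (c (a (b (l 1) (c (l 16659592) (l 16658328))) (b (c (l 16650808) (l 16649472)) (l 16657056))) (a (b (l 1) (l 16656416)) (b (l 16647472) (l 16649384)))) (c (c (b (l 16668080) (l 16669496)) (l 16667752)) (c (l 16666688) (l 16665632)))) (c (b (c (l 16651072) (l 16649896)) (c (l 16654200) (l 16663760))) (b (l 16648144) (l 16651904)))) (b (c (a (c (b (l 16681304) (l 16682552)) (l 16670640)) (c (l 16667376) (l 16666696))) (a (c (l 16669816) (l 16679480)) (l 16655696))) (c (c (a (l 16672512) (l 16672032)) (a (l 16673240) (l 16682352))) (a (l 16672584) (l 16671560))))), by decide +kernel⟩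

def k8_pm_022_a : ∃ t, chk3 f_pm_022_a t 36 30 1 = true :=
  ⟨(b (c (a (c (b (l 16695928) (l 16704688)) (l 16689608)) (c (l 16688944) (l 16688528))) (a (c (l 16689376) (l 16699592)) (c (l 16698560) (l 16698072)))) (c (b (c (a (l 16692720) (l 16691608)) (l 16702016)) (c (a (l 16701944) (l 16700672)) (a (l 16701368) (l 16699848)))) (a (c (l 16706800) (l 16706248)) (c (l 16705128) (l 16704336))))), by decide +kernel⟩

def k9_pm_022_a : ∃ t, chk3 f_pm_022_a t 36 62 1 = true :=
  ⟨(b (c (c (a (l 16716552) (l 16709880)) (a (l 16710560) (l 16708872))) (a (l 16719872) (l 16717800))) (c (c (a (b (l 16718424) (l 16723224)) (l 16727096)) (a (l 16730376) (l 16718032))) (a (c (l 16718928) (l 16717936)) (c (l 16716792) (l 16715536))))), by decide +kernel⟩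

def k10_pm_022_a : ∃ t, chk3 f_pm_022_a t 36 63 2 = true :=
  ⟨(b (b (c (a (l 16728056) (l 16726352)) (a (l 16726968) (l 16724984))) (c (a (c (l 16733216) (l 16732632)) (c (l 16731512) (l 16730776))) (a (l 16731736) (l 16734904)))) (b (c (a (c (a (l 16738704) (l 16737664)) (a (l 16738096) (l 16736984))) (c (a (l 16736776) (l 16736032)) (a (l 16736016) (l 16735200)))) (a (c (l 16736864) (l 16736208)) (c (l 16734784) (l 16733976)))) (c (a (c (a (b (l 16742448) (c (l 16745128) (l 16744792))) (b (l 16741384) (c (l 16744064) (l 16743688)))) (b (l 16742512) (a (c (l 16744448) (l 16744104)) (c (l 16743312) (l 16742928))))) (c (a (b (l 16740464) (c (a (l 16743360) (l 16742936)) (l 16742728))) (b (l 16739696) (b (l 16741528) (c (l 16743648) (l 16742528))))) (b (a (l 16739664) (l 16738808)) (a (c (l 16742312) (l 16741896)) (c (b (l 16740848) (l 16742072)) (l 16742312)))))) (a (c (b (l 16740512) (b (l 16742336) (a (l 16744200) (l 16742968)))) (b (l 16739808) (b (l 16741616) (a (l 16743504)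 (l 16742200))))) (c (b (l 16738360) (a (c (l 16741480) (l 16741056)) (c (l 16740544) (l 16740080)))) (b (l 16737512) (b (l 16739288) (a (l 16741024) (l 16739976))))))))), by decide +kernel⟩

def k11_pm_022_a : ∃ t, chk3 f_pm_022_a t 36 63 3 = true :=
  ⟨(b (c (a (b (l 16725856) (l 16730520)) (b (l 16723592) (l 16728160))) (a (b (l 16724720) (l 16729280)) (b (l 16722168) (l 16726624)))) (b (c (a (c (l 16735544) (l 16734872)) (c (l 16733160) (l 16732344))) (a (l 16733856) (l 16733736))) (c (b (a (c (l 16739104) (l 16738392)) (c (l 16736656) (l 16735792))) (a (c (a (l 16742192) (l 16740824)) (a (l 16741488) (l 16740048))) (c (a (l 16740888) (c (l 16738688) (l 16738224))) (a (l 16738728) (l 16737528))))) (b (a (c (l 16737672) (l 16736952)) (c (l 16734928) (l 16734056))) (a (c (a (l 16740776) (l 16739264)) (a (l 16740056) (l 16738480))) (c (a (l 16737872) (l 16736584)) (a (l 16737008) (l 16735648)))))))), by decide +kernel⟩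

def k12_pm_022_a : ∃ t, chk3 f_pm_022_a t 37 14 1 = true :=
  ⟨(a (b (a (c (b (l 16639104) (l 16652896)) (b (l 16626536) (l 16651336))) (c (b (l 16635704) (l 16645744)) (b (l 16640344) (l 16650880)))) (b (c (a (l 16655872) (l 16661104)) (a (l 16666072) (l 16665840))) (c (a (l 16671896) (c (l 16682448) (l 16682000))) (a (l 16681632) (l 16681240))))) (a (b (c (b (l 16636152) (l 16650744)) (b (l 16636464) (l 16650624))) (c (b (l 16660784) (l 16676592)) (b (l 16665456) (l 16680736)))) (b (c (b (l 16634640) (l 16649304)) (b (l 16635232) (l 16649392))) (b (c (l 16664664) (l 16664224)) (c (l 16680544) (l 16679504)))))), by decide +kernel⟩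

def k13_pm_022_a : ∃ t, chk3 f_pm_022_a t 37 30 1 = true :=
  ⟨(a (a (c (b (c (l 16678240) (l 16677624)) (c (l 16716640) (l 16694728))) (b (l 16676640) (l 16703736))) (b (c (c (l 16698992) (l 16698248)) (l 16697064)) (c (c (l 16705816) (l 16715208)) (c (l 16714088) (l 16712936))))) (a (b (c (c (l 16698560) (l 16676768)) (l 16696432)) (c (c (l 16705328) (l 16714616)) (c (l 16713384) (l 16691152)))) (c (b (l 16691704) (c (l 16714712) (l 16692496))) (b (l 16695208) (l 16711536))))), by decide +kernel⟩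

def k14_pm_022_a : ∃ t, chk3 f_pm_022_a t 37 62 1 = true :=
  ⟨(b (c (a (c (a (l 16709216) (l 16708792)) (a (l 16707984) (l 16707400))) (c (a (l 16708256) (l 16707232)) (l 16721496))) (a (a (l 16706088) (l 16715752)) (c (l 16725176) (l 16723584)))) (c (a (c (a (l 16718448) (l 16728448)) (a (l 16717008) (l 16716352))) (c (a (l 16717408) (l 16716440)) (a (l 16715656) (l 16714592)))) (a (a (l 16725280) (a (l 16714216) (l 16724320))) (c (a (l 16713880) (l 16712720)) (a (l 16712088) (l 16710816)))))), by decide +kernel⟩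

def k15_pm_022_a : ∃ t, chk3 f_pm_022_a t 74 63 1 = true :=
  ⟨(c (b (c (a (c (l 16728256) (l 16727424)) (c (l 16738240) (l 16737320))) (a (l 16736656) (c (l 16736400) (l 16735464)))) (b (c (a (c (l 16735440) (l 16734520)) (c (a (l 16735104) (l 16734896)) (l 16739128))) (a (c (l 16733592) (l 16732656)) (c (l 16738104) (l 16731840)))) (c (a (c (b (l 16739072) (a (c (l 16743208) (l 16741408)) (c (b (l 16741016) (l 16742240)) (l 16742424)))) (b (l 16738104) (b (l 16739896) (c (l 16741360) (l 16740848))))) (c (b (c (l 16741392) (l 16743488)) (a (b (l 16740520) (c (c (l 16742144) (l 16741872)) (l 16741464))) (a (c (b (l 16740648) (l 16741856)) (l 16743320)) (b (l 16740272) (c (c (l 16741880) (l 16741592)) (l 16741160)))))) (b (a (l 16737664) (l 16737400)) (a (c (l 16741632) (l 16739784)) (a (c (l 16740136) (l 16739584)) (b (l 16739144) (c (l 16740592) (l 16740016)))))))) (a (c (b (l 16737120) (c (b (l 16739152) (l 16740336)) (l 16740552))) (b (l 16736144) (c (l 16738736) (l 16738224))))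 (b (c (a (l 16736624) (l 16736304)) (a (l 16735568) (l 16735208))) (c (a (c (l 16739240) (l 16738704)) (b (l 16738064) (c (l 16739504) (l 16738936)))) (a (c (l 16738160) (l 16737616)) (c (l 16740408) (l 16737224))))))))) (b (c (a (l 16724472) (b (l 16721352) (l 16725808))) (a (l 16722760) (l 16732184))) (b (c (a (l 16731248) (c (l 16730816) (l 16729784))) (a (l 16729360) (c (l 16728752) (l 16727712)))) (b (c (a (c (l 16735160) (l 16734168)) (c (l 16734224) (l 16733152))) (a (l 16732680) (c (l 16732072) (l 16730984)))) (c (a (c (c (l 16737720) (l 16737208)) (l 16737752)) (c (a (l 16736808) (c (l 16736656) (l 16736088))) (a (l 16735720) (l 16735240)))) (a (c (l 16735416) (l 16734392)) (c (a (l 16734624) (l 16734104)) (a (l 16733528) (l 16732960))))))))), by decide +kernel⟩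

def k16_pm_022_a : ∃ t, chk3 f_pm_022_a t 75 63 2 = true :=
  ⟨(b (c (a (c (l 16737688) (l 16736696)) (c (l 16736728) (l 16725192))) (a (c (l 16735696) (l 16724200)) (b (l 16721376) (l 16725872)))) (b (c (a (c (a (l 16734616) (l 16734136)) (a (l 16733536) (l 16733024))) (c (l 16738408) (l 16732024))) (a (c (l 16737336) (l 16730992)) (c (l 16730872) (l 16729720)))) (c (a (c (a (b (l 16738168) (a (b (l 16740080) (c (c (l 16741648) (l 16741360)) (l 16740928))) (b (l 16739776) (c (c (l 16741344) (l 16741056)) (l 16740616))))) (b (l 16737584) (c (b (l 16739584) (b (l 16740440) (a (l 16741184) (l 16740888)))) (b (l 16738992) (a (l 16740312) (l 16740008)))))) (b (a (l 16737032) (l 16736432)) (a (a (b (l 16738928) (c (l 16740344) (l 16739760))) (c (l 16742088) (l 16738880))) (a (c (l 16740464) (l 16738568)) (c (l 16740160) (l 16738248)))))) (a (b (c (l 16736992) (l 16735816)) (b (c (c (l 16739000) (l 16738400)) (l 16737496)) (c (a (c (c (l 14) (l 16740160)) (l 16739712)) (c (l 14)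 (l 16739408))) (c (c (l 16739072) (l 16738768)) (l 16738968))))) (b (c (l 16736408) (l 16735208)) (c (c (l 14) (a (b (l 16737984) (l 16740424)) (c (l 16739720) (l 16738104)))) (b (l 16736888) (a (c (l 16738504) (l 16737888)) (c (l 16738200) (l 16737584)))))))) (a (b (c (a (l 16735896) (l 16735272)) (a (l 16734760) (l 16734112))) (c (b (a (l 16737600) (l 16736936)) (a (c (l 16739000) (l 16738416)) (c (l 16738336) (l 16737744)))) (a (c (l 16738592) (l 16736696)) (c (l 16736592) (l 16736000))))) (b (c (l 16734200) (l 16733000)) (c (b (c (l 16736168) (l 16735560)) (c (a (l 16737704) (l 16737088)) (a (l 16737096) (l 16736464)))) (a (c (l 16735936) (l 16735336)) (c (l 16735296) (l 16734672))))))))), by decide +kernel⟩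

def k17_pm_022_a : ∃ t, chk3 f_pm_022_a t 75 63 3 = true :=
  ⟨(b (c (a (b (l 16720472) (l 16724904)) (l 16731960)) (a (l 16731136) (l 16719328))) (b (c (a (c (l 16729888) (l 16728784)) (c (l 16728568) (l 16727408))) (a (c (l 16727672) (l 16726552)) (l 16725664))) (c (a (c (b (l 16735840) (a (c (l 16736112) (l 16735528)) (c (l 16735408) (l 16734808)))) (b (l 16732064) (a (l 16734648) (l 16733912)))) (c (b (l 16731808) (b (l 16733432) (a (l 16734960) (l 16734288)))) (b (l 16730608) (a (l 16733208) (l 16732504))))) (a (a (b (l 16730760) (c (l 16733480) (l 16732304))) (c (l 16734280) (l 16730472))) (c (b (l 16729408) (a (l 16731984) (l 16731264))) (a (l 16729720) (l 16728976))))))), by decide +kernel⟩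

def k18_pm_022_a : ∃ t, chk3 f_pm_022_a t 38 14 1 = true :=
  ⟨(a (b (c (b (a (l 16633464) (l 16632264)) (c (l 16645920) (l 16646232))) (b (a (l 16634312) (l 16633352)) (l 16651792))) (c (c (b (l 16661688) (l 16678016)) (b (l 16661672) (l 16677624))) (b (l 16666752) (c (l 16677176) (l 16676648))))) (b (c (b (c (l 16628656) (l 16629528)) (c (l 16643864) (l 16644336))) (b (l 16630600) (l 16644848))) (b (c (c (l 16659776) (l 16659848)) (l 16659768)) (c (c (l 16676248) (l 16675872)) (l 16675144))))), by decide +kernel⟩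

def k19_pm_022_a : ∃ t, chk3 f_pm_022_a t 38 30 1 = true :=
  ⟨(c (b (a (c (l 16694888) (l 16694080)) (c (l 16693280) (l 16692400))) (a (c (b (l 16708008) (l 16717064)) (a (l 16691552) (l 16690640))) (c (b (l 16685552) (l 16694592)) (l 16709592)))) (b (a (c (l 16693208) (l 16692280)) (l 16690952)) (a (b (l 16705000) (l 16708176)) (b (l 16703184) (l 16711528))))), by decide +kernel⟩

def k20_pm_022_a : ∃ t, chk3 f_pm_022_a t 38 62 1 = true :=
  ⟨(a (c (c (b (l 16715776) (a (l 16715608) (l 16714656))) (b (l 16714072) (a (l 16713656) (l 16712624)))) (a (c (l 16721768) (l 16715960)) (b (l 16701112) (a (l 16709968) (l 16709344))))) (c (c (b (l 16714064) (a (l 16713560) (l 16712448))) (b (l 16701728) (l 16720872))) (b (c (l 16699832) (l 16697904)) (c (l 16718728) (l 16727032))))), by decide +kernel⟩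

def k21_pm_022_a : ∃ t, chk3 f_pm_022_a t 76 63 2 = true :=
  ⟨(b (c (a (b (l 16722472) (l 16726952)) (b (l 16721344) (l 16731056))) (a (b (l 16720320) (l 16724680)) (b (l 16719128) (l 16723472)))) (b (c (c (a (l 16732032) (l 16730920)) (a (l 16730840) (l 16729688))) (a (c (l 16729656) (l 16728456)) (c (l 16728456) (l 16727224)))) (c (c (c (l 14) (a (b (l 16735128) (a (c (l 14) (a (l 16737808) (l 16737520))) (l 14))) (l 14))) (c (b (a (l 16734512) (l 16733376)) (a (b (l 16737520) (a (c (l 16737888) (l 16737576)) (a (l 16737320) (l 16737032)))) (a (b (l 16735456) (a (l 16737400) (l 14))) (l 14)))) (b (a (l 16733896) (l 16732736)) (b (a (l 16735576) (a (l 16734808) (l 16734232))) (a (a (c (l 16737264) (l 16736944)) (c (l 16736672) (l 16736352))) (a (c (l 16736088) (l 16735768)) (a (l 16735520) (l 16735232)))))))) (a (b (c (l 16732968) (l 16731728)) (c (b (c (l 16734952) (l 16734320)) (c (a (l 16736472) (l 16735864)) (a (l 16735840) (l 16735224)))) (c (a (l 16734656) (l 16736648))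 (a (l 16734024) (l 16733384))))) (b (c (c (l 16732096) (l 16731456)) (l 16730496)) (b (c (c (l 16735080) (l 16733120)) (c (l 16732464) (l 16731808))) (c (c (a (c (l 16735440) (l 16735112)) (c (l 16734856) (l 16734520))) (a (l 16734616) (c (l 16734192) (l 16733856)))) (c (a (l 16733960) (l 16733352)) (a (l 16733304) (l 16732688)))))))))), by decide +kernel⟩

def k22_pm_022_a : ∃ t, chk3 f_pm_022_a t 76 63 3 = true :=
  ⟨(b (c (a (l 16730760) (l 16729480)) (a (l 16718024) (l 16716664))) (b (c (a (c (l 16727256) (l 16726056)) (c (l 16725984) (l 16724736))) (a (l 16724248) (l 16722856))) (c (b (a (c (l 16730488) (l 16729240)) (c (l 16729208) (l 16727920))) (a (c (b (l 16732112) (a (l 16733624) (l 16732960))) (a (l 16731816) (l 16731136))) (c (a (c (l 16732104) (l 16731448)) (c (l 16731472) (l 16730808))) (a (l 16730464) (c (l 16730136) (l 16729472)))))) (b (a (c (l 16727992) (l 16726744)) (c (l 16726624) (l 16725320))) (a (c (a (l 16730544) (l 16729840)) (a (l 16729272) (l 16728544)))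 (c (a (l 16729152) (l 16728464)) (a (l 16727832) (l 16727120)))))))), by decide +kernel⟩

def k23_pm_022_a : ∃ t, chk3 f_pm_022_a t 77 63 1 = true :=
  ⟨(c (b (c (a (c (l 16723040) (l 16721872)) (c (l 14) (l 16720768))) (a (l 16727968) (l 16729432))) (b (c (c (l 14) (a (l 16728568) (l 16727488))) (c (a (l 16727296) (l 16726168)) (a (l 16726016) (l 16724848)))) (c (c (l 14) (c (l 14) (a (b (l 16731616) (a (b (l 16733664) (c (l 14) (l 16734624))) (l 14))) (l 14)))) (b (c (a (l 16730624) (l 16729504)) (a (l 16729296) (l 16728128))) (a (b (c (c (l 16732632) (l 16731952)) (c (l 16731280) (l 16730600))) (c (c (a (c (l 16734280) (l 16733944)) (c (l 16733720) (l 16733376))) (a (l 16734744) (c (l 16733032) (l 16732688)))) (c (a (l 16732752) (l 16732168)) (a (l 16732072) (l 16731480))))) (c (c (b (l 16731520) (a (c (l 14) (l 16732816)) (l 14))) (b (l 16730824) (a (c (l 16732472) (l 16732120)) (c (l 16731912) (l 16731560))))) (c (b (l 16730128) (a (l 16731592) (l 16732336))) (b (l 16729424)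 (a (l 16730888) (l 16730304)))))))))) (b (c (a (l 16728216) (l 16716496)) (a (l 16715328) (l 16714008))) (b (c (a (c (l 16724736) (l 16723448)) (c (l 16723528) (l 16722192))) (a (l 16721504) (l 16720184))) (c (b (a (c (l 16727960) (l 16726624)) (c (l 16726752) (l 16725368))) (b (a (c (l 16729584) (l 16728224)) (c (l 16728376) (l 16726968))) (a (a (c (c (l 16731392) (l 16730712)) (l 16729688)) (c (c (l 16730784) (l 16730088)) (l 16729048))) (a (c (c (l 16730184) (l 16729480)) (l 16728416)) (c (c (l 16729592) (l 16728872)) (l 16727792)))))) (b (a (c (l 16725280) (l 16723936)) (c (l 16723984) (l 16722592))) (a (c (a (l 16727792) (l 16727128)) (a (l 16726424) (l 16725736))) (a (c (l 16726472) (l 16725056)) (c (l 16725832) (l 16724392))))))))), by decide +kernel⟩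

def k24_pm_022_a : ∃ t, chk3 f_pm_022_a t 39 14 1 = true :=
  ⟨(b (c (a (b (l 16626944) (l 16642096)) (b (l 16624832) (l 16640152))) (a (b (l 16628768) (l 16643024)) (b (l 16626920) (l 16641216)))) (c (b (a (l 16657952) (l 16656184)) (a (c (l 16674544) (l 16674144)) (l 16672768))) (a (b (l 16657968) (l 16673360)) (b (l 16656200) (l 16671632))))), by decide +kernel⟩

def k25_pm_022_a : ∃ t, chk3 f_pm_022_a t 39 30 1 = true :=
  ⟨(c (a (b (c (l 16691752) (l 16690776)) (c (l 16709264) (l 16707720))) (b (c (l 16669056) (l 16668000)) (c (l 16696776) (l 16705632)))) (a (b (l 16689160) (c (l 16706120) (l 16704448))) (b (l 16687232) (c (l 16703944) (l 16681208))))), by decide +kernel⟩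

def k26_pm_022_a : ∃ t, chk3 f_pm_022_a t 39 62 1 = true :=
  ⟨(b (c (a (c (l 16701528) (l 16699568)) (c (l 16699512) (l 16697456))) (a (c (l 16697560) (l 16695504)) (l 16704744))) (c (a (c (l 16720920) (l 16718688)) (c (l 14) (l 16716600))) (a (c (l 16716408) (l 16703608)) (c (l 16703712) (l 16701256))))), by decide +kernel⟩

def k27_pm_022_a : ∃ t, chk3 f_pm_022_a t 39 63 2 = true :=
  ⟨(b (a (c (b (l 16727680) (l 14)) (a (l 16728304) (l 16727216))) (c (l 14) (a (l 16726160) (l 16725144)))) (a (b (c (l 14) (c (a (l 16725080) (l 16724032)) (a (l 16723720) (l 16722624)))) (c (l 14) (b (c (a (l 16728424) (l 14)) (a (l 16727008) (l 16725920))) (c (c (l 14) (a (b (l 16729736) (a (c (l 14) (l 16731008)) (l 14))) (l 14))) (a (c (b (l 16729016) (a (c (l 16730648) (l 16730288)) (c (l 16730104) (l 16729736)))) (b (l 16728296) (a (l 16729736) (l 16729184)))) (c (b (l 16727944) (a (c (l 14) (l 16729192)) (l 14))) (a (a (l 16728232) (l 16727960)) (a (l 16727696) (l 16730048)))))))))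 (c (l 14) (c (l 14) (a (b (l 16721568) (b (l 16724872) (c (l 14) (b (l 16726152) (a (c (l 14) (l 16727376)) (l 14)))))) (b (l 16720552) (l 14))))))), by decide +kernel⟩

def k28_pm_022_a : ∃ t, chk3 f_pm_022_a t 39 126 3 = true :=
  ⟨(a (c (a (l 16715296) (l 16714128)) (a (l 16712728) (l 16711488))) (c (a (l 16712992) (l 16711896)) (a (l 16710280) (l 16709104)))), by decide +kernel⟩

def k29_pm_022_a : ∃ t, chk3 f_pm_022_a t 39 127 3 = true :=
  ⟨(a (b (c (a (c (l 16722352) (l 16720976)) (c (l 16721216) (l 16719792))) (a (l 16718896) (l 16717656))) (c (b (a (c (l 16725584) (l 16724160)) (c (l 16724456) (l 16722984))) (b (c (a (l 16728520) (c (l 16726456) (l 16725704))) (a (l 16725752) (l 16724584))) (a (a (c (c (l 16729008) (l 16728280)) (l 16728496)) (c (c (l 16728440) (l 16727704)) (c (l 16726960) (l 16726216)))) (c (c (a (l 16727880) (l 16727336)) (a (l 16727128) (l 16726568))) (c (a (l 16726376) (l 16725800)) (a (l 16725624) (l 16725040))))))) (b (a (c (l 16722720) (l 16721288))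 (c (l 16721504) (l 16720016))) (b (a (c (l 16724296) (l 16722832)) (c (l 16723072) (l 16721568))) (a (c (c (l 16725712) (l 16724976)) (c (l 16724232) (l 16723488))) (a (c (l 16724488) (l 16722968)) (c (l 16723880) (l 16722344)))))))) (b (c (a (c (l 16720112) (l 16718656)) (c (l 16719056) (l 16717552))) (a (l 16716448) (l 16715288))) (c (b (c (a (l 16723368) (l 16722312)) (a (l 16721848) (l 16720752))) (b (c (a (c (l 16725384) (l 16724608)) (c (l 16724344) (l 16723552))) (a (l 16723448) (l 16722360))) (c (a (c (a (l 16726792) (c (l 16726464) (l 16726072))) (a (l 16726016) (l 16725480))) (c (a (c (l 14) (l 16725552)) (l 14)) (a (l 16724952) (l 16725744)))) (a (c (a (l 16725240) (l 16724688)) (a (l 16724464) (l 16723904))) (c (a (l 16724152) (l 16723624)) (a (l 16723352) (l 16722808))))))) (b (a (c (l 16720320) (l 16718792)) (c (l 16719184) (l 16717608))) (b (a (c (l 16721896) (l 16720336)) (c (l 16720760) (l 16719160))) (a (a (c (l 16723296) (l 16721728)) (c (l 16722712) (l 16721120)))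 (a (c (l 16723456) (l 16720528)) (c (a (l 16721736) (l 16721456)) (l 16719944))))))))), by decide +kernel⟩

def k30_pm_022_a : ∃ t, chk3 f_pm_022_a t 20 6 1 = true :=
  ⟨(a (b (a (c (b (l 16569416) (b (l 16566704) (l 16568432))) (b (l 16552672) (l 16578880))) (c (b (l 16560616) (c (l 16637992) (l 16555360))) (b (l 16543144) (l 16552168)))) (a (b (c (a (l 16574160) (l 16572808)) (l 16599456)) (c (b (l 16593464) (l 16607920)) (l 16625528))) (c (b (b (l 16563664) (l 16577312)) (b (l 16591440) (l 16606056))) (b (l 16597576) (l 16602792))))) (a (b (b (c (a (l 16571736) (l 16662152)) (l 16554248)) (c (a (l 16575544) (l 16662240)) (l 16571552))) (c (b (b (l 16623480) (l 16627264)) (b (l 16632304) (l 16638776))) (b (l 16596064) (l 16601368)))) (a (b (c (b (l 16744824) (l 16741736)) (b (l 16527008) (l 16549704))) (c (b (l 16741576) (l 16745448)) (b (l 16574248) (l 16600560)))) (b (c (a (b (l 16802160) (l 16797040)) (b (l 16838496) (l 16832112))) (a (b (l 16526936) (l 16549600)) (b (l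 16547720) (l 16570360)))) (b (c (a (l 16794560) (l 16828184)) (a (l 16574104) (l 16594864))) (c (a (l 16795784) (l 16827760)) (a (l 16600400) (l 16600176)))))))), by decide +kernel⟩

def k31_pm_022_a : ∃ t, chk3 f_pm_022_a t 40 14 1 = true :=
  ⟨(b (c (b (a (l 16622872) (l 16621176)) (a (l 16638368) (l 16636872))) (a (l 16642816) (l 16630712))) (c (a (b (l 16654600) (l 16671056)) (c (l 16668512) (l 16660912))) (a (b (l 16633552) (l 16648824)) (b (l 16631816) (l 16646816))))), by decide +kernel⟩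

def k32_pm_022_a : ∃ t, chk3 f_pm_022_a t 40 30 1 = true :=
  ⟨(a (c (b (c (l 16667088) (l 16665984)) (c (l 16694792) (l 16682600))) (b (l 16685112) (c (l 16680824) (l 16678968)))) (c (b (c (l 16706336) (l 16663992)) (c (b (l 16719624) (l 16729440)) (l 16680688))) (b (l 16662048) (c (l 16678808) (l 16676840))))), by decide +kernel⟩

def k33_pm_022_a : ∃ t, chk3 f_pm_022_a t 40 62 1 = true :=
  ⟨(b (c (a (c (l 16697624) (l 16695456)) (c (l 16740008) (l 16693616))) (a (l 16702568) (l 16700536))) (c (a (c (l 14) (l 16704168)) (l 14)) (a (c (l 16701624) (l 16699024)) (c (l 16699696) (l 16696944))))), by decide +kernel⟩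

def k34_pm_022_a : ∃ t, chk3 f_pm_022_a t 40 63 1 = true :=
  ⟨(c (b (a (c (l 14) (a (l 16724160) (l 14))) (l 14)) (l 14)) (b (a (c (b (l 16707992) (l 16722760)) (a (l 16707968) (l 16706872))) (a (c (l 16708856) (l 16705816)) (c (l 16707920) (l 16704800)))) (b (a (c (c (a (l 16718040) (l 16717064)) (a (l 16716496) (l 16715480))) (a (l 16714160) (l 16713080))) (c (c (l 14) (a (l 16714504) (l 16713576))) (a (l 16712032) (l 16711040)))) (a (c (c (a (b (l 16721312) (a (c (l 14) (a (l 16723520) (l 16725888))) (l 14))) (l 14)) (b (a (l 16719704) (l 16718696)) (b (a (l 16722624) (c (l 16720736) (l 16719888))) (a (c (a (l 16723104) (l 16722592)) (a (l 16722280) (l 16721760))) (c (a (c (l 14) (l 16721888)) (l 14)) (a (l 16721248) (l 16720752))))))) (b (a (c (l 16718088) (l 16716464)) (c (l 16717040) (l 16715368))) (b (c (a (l 16719672) (l 16718624)) (a (l 16718016) (l 16716920))) (a (a (c (c (l 16721448) (l 16720624)) (l 16719376)) (c (c (l 16720920) (l 16720080)) (l 16718816))) (a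 (c (c (l 16720400) (l 16719552)) (l 16718264)) (c (c (l 16719888) (l 16719024)) (l 16717728))))))) (c (a (c (l 14) (b (l 16717728) (a (c (l 14) (a (l 16719856) (l 16719616))) (l 14)))) (l 14)) (b (a (c (l 16716024) (l 16714312)) (c (l 16715064) (l 16713304))) (b (a (c (l 16717616) (l 16715872)) (c (c (l 16717104) (l 16716208)) (l 16714864))) (a (c (c (a (l 16719392) (l 16718904)) (a (l 16718520) (l 16718024))) (c (a (l 16717640) (l 16717136)) (a (l 16716760) (l 16716240)))) (c (c (a (l 16719744) (l 14)) (a (l 16717536) (l 16717056))) (c (a (l 16716632) (l 16716144)) (a (l 16715728) (l 16715232)))))))))))), by decide +kernel⟩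

def k35_pm_022_a : ∃ t, chk3 f_pm_022_a t 41 14 1 = true :=
  ⟨(a (b (c (b (l 16646856) (l 16656712)) (l 16639736)) (c (b (l 16668472) (l 16661328)) (b (l 16630048) (l 16644920)))) (b (c (a (l 16712664) (a (l 16780928) (b (l 16830424) (l 16833824)))) (a (l 16628288) (a (l 16627928) (l 16627544)))) (a (c (b (l 16765552) (l 16775176)) (l 16657232)) (a (c (b (l 16810288) (l 16818064)) (l 16656736)) (c (b (l 16817792) (c (l 16971304) (l 16719264))) (b (l 16627888) (l 16663696))))))), by decide +kernel⟩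

def k36_pm_022_a : ∃ t, chk3 f_pm_022_a t 41 15 1 = true :=
  ⟨(b (a (c (b (c (l 16830048) (l 16662272)) (c (l 16694632) (l 16679032))) (b (l 16681136) (c (l 16677024) (l 16674928)))) (c (a (b (l 16723936) (c (l 16919032) (l 16682568))) (a (b (l 16743896) (c (l 16955008) (l 16724280))) (b (c (l 16973656) (l 16733896)) (c (l 16957000) (l 16688000))))) (b (a (l 16658912) (a (l 16658384) (l 16678920))) (a (l 16685240) (a (l 16684704) (c (l 16695944) (l 16693536))))))) (b (b (c (a (c (l 16788768) (l 16692016)) (a (c (l 16926032) (l 16700024)) (a (c (l 16960568) (l 16739880)) (c (l 16982632) (l 16702440))))) (a (c (l 16689520) (l 16686936)) (a (l 16687024) (a (l 16686472) (c (l 16687464) (l 16684592)))))) (c (l 14) (c (a (l 16697984) (l 14)) (a (l 16695080) (a (l 16693816) (a (l 16693224) (b (l 16690712) (l 16705312)))))))) (c (l 14) (a (b (c (a (l 16707040) (l 14)) (a (l 16703832) (l 16702920))) (c (l 14) (b (a (l 16715336) (c (l 16710088) (l 16708304))) (c (a (b (l 16714144)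 (c (l 14) (b (l 16715288) (a (l 16717904) (l 14))))) (l 14)) (b (a (l 16712344) (l 16711432)) (b (a (c (l 16714368) (l 16713448)) (a (l 16713232) (l 16712784))) (a (c (a (l 16715672) (l 16715208)) (a (l 16714744) (l 16714272))) (a (c (b (l 16714496) (l 16715024)) (l 16713808)) (c (l 14) (b (l 16713096) (l 16713624))))))))))) (a (c (l 14) (c (b (l 16702952) (l 14)) (b (l 16701240) (b (l 16707464) (b (a (l 16710776) (l 16710360)) (a (c (l 14) (a (l 16712504) (l 16712288))) (l 14))))))) (c (l 14) (c (l 14) (b (a (l 16700632) (a (a (a (l 16700344) (b (l 16698240) (l 16712856))) (l 16700216)) (l 16700056))) (a (b (a (l 16706904) (l 16706712)) (l 14)) (l 14)))))))))), by decide +kernel⟩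

def k37_pm_022_a : ∃ t, chk3 f_pm_022_a t 21 3 1 = true :=
  ⟨(b (b (a (c (b (a (l 16924248) (l 17044336)) (a (l 16914568) (l 17030432))) (b (l 16541624) (a (l 16547048) (l 16543656)))) (c (b (l 17192264) (l 17173824)) (b (l 16624232) (l 16629768)))) (a (c (b (a (l 16906976) (l 17018104)) (a (l 16881520) (l 17008360))) (b (a (l 16571792) (l 16568800)) (b (l 16588720) (l 16602240)))) (c (b (l 17156424) (l 16994032)) (b (l 16638776) (l 16651952))))) (b (b (a (c (b (l 16828376) (c (l 17080784) (l 16825976))) (b (l 16615960) (l 16630032))) (c (c (l 17241872) (l 17013680)) (b (l 16665000) (l 16675520)))) (a (c (b (c (l 17076352) (l 16831696)) (c (l 17073208) (l 16839080))) (b (l 16644744) (l 16659872))) (c (b (l 17078736) (l 16928536)) (b (l 16687744) (l 16701760))))) (b (a (c (b (c (l 17071496) (l 16764408)) (c (a (l 17031784) (l 17109480)) (l 16691880))) (b (a (l 16656320) (l 16654144)) (c (l 16692776) (l 16690344)))) (c (b (c (l 17214208) (l 17016016)) (c (l 17209032) (l 16999240)))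 (b (a (l 16671312) (l 16762216)) (c (l 16684024) (l 16665712))))) (c (a (b (c (a (l 16993664) (l 17109816)) (b (a (l 16825304) (l 16912344)) (l 14))) (c (a (c (l 17089688) (l 14)) (b (l 17111296) (l 17112872))) (l 14))) (c (b (l 17205440) (a (l 17174808) (l 17230936))) (b (a (l 16991688) (l 17059672)) (a (c (l 17002944) (l 14)) (b (l 17064440) (l 17068224)))))) (b (b (a (c (l 16684624) (l 16681680)) (c (l 16737632) (l 16678448))) (a (c (l 14) (a (l 16691448) (l 14))) (l 14))) (b (a (c (l 14) (a (l 16710312) (l 14))) (l 14)) (l 14))))))), by decide +kernel⟩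

def k38_pm_022_a : ∃ t, chk3 f_pm_022_a t 11 3 1 = true :=
  ⟨(b (a (b (c (a (b (l 17342920) (l 17321256)) (l 17443032)) (a (b (l 16845792) (l 16843544)) (l 16948208))) (c (a (b (l 17299912) (l 17279560)) (l 17396568)) (a (b (l 16843704) (l 16846984)) (b (l 17002248) (l 16999008))))) (c (b (l 17561400) (a (l 17479568) (l 17544880))) (b (a (l 17140448) (l 17242584)) (a (b (l 17126648) (l 17119320)) (l 17221536))))) (b (a (c (a (b (l 17261032) (c (l 17339992) (l 17150944))) (b (l 17364224) (l 17344968))) (a (b (l 16728400) (b (l 16863008) (l 16870736))) (b (l 16998960) (b (l 17001784) (l 17005248))))) (c (a (b (l 17445312) (l 17424072)) (l 17498560)) (a (b (l 17114560) (l 17050656)) (b (l 17209952) (l 17205576))))) (a (b (c (a (b (l 17236584) (l 17127304)) (l 17287112)) (a (b (a (l 16843176) (l 16915528)) (a (l 16772080) (l 16883528))) (b (l 16989152) (c (l 17094112) (l 16939176))))) (c (a (b (c (l 17310032) (l 17148312)) (c (l 17304320) (a (l 17124456) (l 17176872)))) (b (l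 17320304) (c (l 17385800) (l 17246040)))) (a (b (a (c (l 16954248) (l 16745512)) (c (l 17016760) (l 16858000))) (c (b (a (l 16963648) (l 17024088)) (a (c (l 17009432) (l 14)) (l 17029584))) (l 14))) (b (c (l 17099072) (a (l 16921704) (l 16979376))) (c (a (l 17080808) (l 17129808)) (b (a (l 16932864) (l 16988736)) (a (c (l 16976544) (l 14)) (l 16974632)))))))) (c (b (a (l 17405552) (l 17468464)) (a (c (l 17456704) (l 17325200)) (l 17451888))) (b (a (b (l 17115912) (l 17056336)) (l 17205152)) (a (b (c (l 17191888) (l 17056464)) (c (l 17195328) (a (l 17042400) (l 17089112)))) (b (l 17208400) (c (l 17271896) (l 17153600))))))))), by decide +kernel⟩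

def k39_pm_022_a : ∃ t, chk3 f_pm_022_a t 3 1 1 = true :=
  ⟨(b (a (a (b (a (c (l 17735592) (l 17404528)) (l 17633184)) (a (b (l 17561208) (l 17308200)) (a (l 17606576) (l 17632928)))) (b (l 17665296) (c (l 17771096) (l 17563576)))) (a (b (l 17638552) (l 17654872)) (l 17738976))) (a (b (a (c (b (l 17691736) (l 17650896)) (b (a (l 17358152) (l 17461632)) (a (l 17335336) (l 17439240)))) (b (l 17644080) (c (l 17710504) (l 17525040)))) (b (a (c (a (l 17571344) (l 17633288)) (a (b (l 17320744) (l 17313328)) (l 17418152))) (c (l 17672536) (l 17504512))) (a (c (a (b (l 17540232) (l 17522152)) (l 17592280)) (a (b (l 17309344) (a (b (l 17279008) (l 17281880)) (l 17338048))) (b (l 17408032) (l 17405648)))) (c (l 17634360) (a (l 17468488) (l 17504488)))))) (b (a (l 17714392) (l 17577568)) (a (b (l 17598016) (c (l 17624968) (l 17521328))) (b (l 17553112) (l 17531488)))))), by decide +kernel⟩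

theorem s40_pm_022_a : ∃ t, chk3 f_pm_022_a t 41 7 1 = true := ex3_b k35_pm_022_a k36_pm_022_a

theorem s41_pm_022_a : ∃ t, chk3 f_pm_022_a t 40 31 1 = true := ex3_b k33_pm_022_a k34_pm_022_a

theorem s42_pm_022_a : ∃ t, chk3 f_pm_022_a t 40 15 1 = true := ex3_b k32_pm_022_a s41_pm_022_a

theorem s43_pm_022_a : ∃ t, chk3 f_pm_022_a t 40 7 1 = true := ex3_b k31_pm_022_a s42_pm_022_a

theorem s44_pm_022_a : ∃ t, chk3 f_pm_022_a t 20 7 1 = true := ex3_a s43_pm_022_a s40_pm_022_a

theorem s45_pm_022_a : ∃ t, chk3 f_pm_022_a t 20 3 1 = true := ex3_b k30_pm_022_a s44_pm_022_a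

theorem s46_pm_022_a : ∃ t, chk3 f_pm_022_a t 10 3 1 = true := ex3_a s45_pm_022_a k37_pm_022_a

theorem s47_pm_022_a : ∃ t, chk3 f_pm_022_a t 5 3 1 = true := ex3_a s46_pm_022_a k38_pm_022_a

theorem s48_pm_022_a : ∃ t, chk3 f_pm_022_a t 39 63 3 = true := ex3_b k28_pm_022_a k29_pm_022_a

theorem s49_pm_022_a : ∃ t, chk3 f_pm_022_a t 39 63 1 = true := ex3_c k27_pm_022_a s48_pm_022_a

theorem s50_pm_022_a : ∃ t, chk3 f_pm_022_a t 39 31 1 = true := ex3_b k26_pm_022_a s49_pm_022_a

theorem s51_pm_022_a : ∃ t, chk3 f_pm_022_a t 39 15 1 = true := ex3_b k25_pm_022_a s50_pm_022_a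

theorem s52_pm_022_a : ∃ t, chk3 f_pm_022_a t 39 7 1 = true := ex3_b k24_pm_022_a s51_pm_022_a

theorem s53_pm_022_a : ∃ t, chk3 f_pm_022_a t 76 63 1 = true := ex3_c k21_pm_022_a k22_pm_022_a

theorem s54_pm_022_a : ∃ t, chk3 f_pm_022_a t 38 63 1 = true := ex3_a s53_pm_022_a k23_pm_022_a

theorem s55_pm_022_a : ∃ t, chk3 f_pm_022_a t 38 31 1 = true := ex3_b k20_pm_022_a s54_pm_022_a

theorem s56_pm_022_a : ∃ t, chk3 f_pm_022_a t 38 15 1 = true := ex3_b k19_pm_022_a s55_pm_022_a

theorem s57_pm_022_a : ∃ t, chk3 f_pm_022_a t 38 7 1 = true := ex3_b k18_pm_022_a s56_pm_022_a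

theorem s58_pm_022_a : ∃ t, chk3 f_pm_022_a t 19 7 1 = true := ex3_a s57_pm_022_a s52_pm_022_a

theorem s59_pm_022_a : ∃ t, chk3 f_pm_022_a t 75 63 1 = true := ex3_c k16_pm_022_a k17_pm_022_a

theorem s60_pm_022_a : ∃ t, chk3 f_pm_022_a t 37 63 1 = true := ex3_a k15_pm_022_a s59_pm_022_a

theorem s61_pm_022_a : ∃ t, chk3 f_pm_022_a t 37 31 1 = true := ex3_b k14_pm_022_a s60_pm_022_a

theorem s62_pm_022_a : ∃ t, chk3 f_pm_022_a t 37 15 1 = true := ex3_b k13_pm_022_a s61_pm_022_a

theorem s63_pm_022_a : ∃ t, chk3 f_pm_022_a t 37 7 1 = true := ex3_b k12_pm_022_a s62_pm_022_a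

theorem s64_pm_022_a : ∃ t, chk3 f_pm_022_a t 36 63 1 = true := ex3_c k10_pm_022_a k11_pm_022_a

theorem s65_pm_022_a : ∃ t, chk3 f_pm_022_a t 36 31 1 = true := ex3_b k9_pm_022_a s64_pm_022_a

theorem s66_pm_022_a : ∃ t, chk3 f_pm_022_a t 36 15 1 = true := ex3_b k8_pm_022_a s65_pm_022_a

theorem s67_pm_022_a : ∃ t, chk3 f_pm_022_a t 36 7 1 = true := ex3_b k7_pm_022_a s66_pm_022_a

theorem s68_pm_022_a : ∃ t, chk3 f_pm_022_a t 18 7 1 = true := ex3_a s67_pm_022_a s63_pm_022_a

theorem s69_pm_022_a : ∃ t, chk3 f_pm_022_a t 9 7 1 = true := ex3_a s68_pm_022_a s58_pm_022_a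

theorem s70_pm_022_a : ∃ t, chk3 f_pm_022_a t 4 7 1 = true := ex3_a k6_pm_022_a s69_pm_022_a

theorem s71_pm_022_a : ∃ t, chk3 f_pm_022_a t 9 6 1 = true := ex3_a k4_pm_022_a k5_pm_022_a

theorem s72_pm_022_a : ∃ t, chk3 f_pm_022_a t 4 6 1 = true := ex3_a k3_pm_022_a s71_pm_022_a

theorem s73_pm_022_a : ∃ t, chk3 f_pm_022_a t 4 3 1 = true := ex3_b s72_pm_022_a s70_pm_022_a

theorem s74_pm_022_a : ∃ t, chk3 f_pm_022_a t 2 3 1 = true := ex3_a s73_pm_022_a s47_pm_022_a

theorem s75_pm_022_a : ∃ t, chk3 f_pm_022_a t 5 2 1 = true := ex3_a k1_pm_022_a k2_pm_022_a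

theorem s76_pm_022_a : ∃ t, chk3 f_pm_022_a t 2 2 1 = true := ex3_a k0_pm_022_a s75_pm_022_a

theorem s77_pm_022_a : ∃ t, chk3 f_pm_022_a t 2 1 1 = true := ex3_b s76_pm_022_a s74_pm_022_a

theorem s78_pm_022_a : ∃ t, chk3 f_pm_022_a t 1 1 1 = true := ex3_a s77_pm_022_a k39_pm_022_a

theorem c_pm_022_a : CertN 0 536870912 0 536870912 134217728 67108864 3 true true false .pp 0 2 2
    ndN0q0 ndN1q2a pcN2 cut_pm_022_a Ext.none :=
  certN2 (fam := true) (s1 := true) (s2 := false) (a := 0) (b := 2) (c := 2) (cn := .pp) (n1 := ndN0q0) (n2 := ndN1q2a) (pc := pcN2) (cut := cut_pm_022_a) (xt := Ext.none) (P1 := 0) (W1 := 536870912) (P2 := 0) (W2 := 536870912) (P3 := 134217728) (W3 := 67108864) (N0 := 3)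
    rfl (fun _ => rfl) s78_pm_022_a

noncomputable def cut_pm_022_b : Cut := Cut.of [[⟨0, 0, 0, 67108864⟩, ⟨1, 1, 0, 67108864⟩, ⟨2, 1, 0, 67108864⟩], [⟨0, 0, 1, 41943040⟩, ⟨1, 1, 0, 16777216⟩, ⟨2, 1, 1, 41943040⟩]]

noncomputable def f_pm_022_b : ℕ → ℕ → ℕ → ℕ → Bool := onCell 0 536870912 1073741824 536870912 134217728 67108864
    (rowN 3 1 true true false .pp 0 2 2 (qsf 0 536870912 1239849684 370763052 2) ndN0q0 ndN1q2b pcN2 cut_pm_022_b Ext.none)

def k0_pm_022_b : ∃ t, chk3 f_pm_022_b t 1 1 1 = true :=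
  ⟨(a (b (a (b (l 1) (b (a (b (b (l 1) (b (l 1) (b (l 1) (a (b (l 1) (c (a (l 16880672) (l 1)) (l 16548016))) (l 1))))) (b (a (c (a (b (l 16983944) (l 17135856)) (l 16884744)) (a (l 16514840) (l 16532624))) (l 1)) (a (c (a (l 17337480) (l 17289744)) (a (l 16619808) (l 16620800))) (c (l 84859542935) (l 45130440823))))) (l 1)) (b (a (a (c (b (l 17534352) (l 17718848)) (b (l 16833888) (l 17130200))) (c (b (l 17419928) (l 17590304)) (b (l 16865392) (l 17071680)))) (a (b (l 1) (c (l 17466680) (l 17020664))) (l 1))) (a (c (b (l 17804304) (l 17930104)) (b (a (l 17327136) (l 17249848)) (l 17444920))) (c (a (l 17663904) (l 17534096)) (b (a (l 17178544) (l 1)) (l 17277432))))))) (l 1)) (a (b (b (a (c (l 18173840) (b (l 17641904) (l 17850944))) (c (l 17890312) (b (l 17449416) (l 17639496)))) (a (l 18255080) (l 18005280))) (a (l 18483312) (l 18249624))) (b (a (b (a (l 157337772103) (l 149821406375)) (l 84860781255)) (b (l 1) (l 181497186711))) (a (l 18021208) (l 140695670279))))) (b (l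 1) (a (b (l 1) (a (l 207267242695) (b (l 1) (l 202971847655)))) (l 1)))), by decide +kernel⟩

theorem c_pm_022_b : CertN 0 536870912 1239849684 370763052 134217728 67108864 3 true true false .pp 0 2 2
    ndN0q0 ndN1q2b pcN2 cut_pm_022_b Ext.none :=
  certN1 (fam := true) (s1 := true) (s2 := false) (a := 0) (b := 2) (c := 2) (cn := .pp) (n1 := ndN0q0) (n2 := ndN1q2b) (pc := pcN2) (cut := cut_pm_022_b) (xt := Ext.none) (P1 := 0) (W1 := 536870912) (P2 := 1239849684) (W2 := 370763052) (P3 := 134217728) (W3 := 67108864) (N0 := 3)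
    rfl (fun _ => rfl) k0_pm_022_b

noncomputable def f_pm_023_a : ℕ → ℕ → ℕ → ℕ → Bool := onCell 0 536870912 0 536870912 134217728 67108864
    (rowN 3 0 true true false .up 0 2 3 (qsf 0 536870912 0 536870912 3) ndN0q0 ndN1q2a pcN3 Cut.none Ext.none)

def k0_pm_023_a : ∃ t, chk3 f_pm_023_a t 1 1 1 = true :=
  ⟨(a (l 1) (a (b (a (l 1) (l 17734000)) (b (l 1) (l 1))) (b (a (l 17636016) (l 17523408)) (b (a (l 17715968) (l 17634008)) (a (l 191161522631) (l 77345005751)))))), by decide +kernel⟩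

theorem c_pm_023_a : CertN 0 536870912 0 536870912 134217728 67108864 3 true true false .up 0 2 3
    ndN0q0 ndN1q2a pcN3 Cut.none Ext.none :=
  certN0 (fam := true) (s1 := true) (s2 := false) (a := 0) (b := 2) (c := 3) (cn := .up) (n1 := ndN0q0) (n2 := ndN1q2a) (pc := pcN3) (cut := Cut.none) (xt := Ext.none) (P1 := 0) (W1 := 536870912) (P2 := 0) (W2 := 536870912) (P3 := 134217728) (W3 := 67108864) (N0 := 3)
    rfl k0_pm_023_a

noncomputable def f_pm_023_b : ℕ → ℕ → ℕ → ℕ → Bool := onCell 1610612736 536870912 1239849684 370763052 134217728 67108864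
    (rowN 3 2 true true false .up 0 2 3 (qsf 0 536870912 1239849684 370763052 3) ndN0q0 ndN1q2b pcN3 Cut.none Ext.none)

def k0_pm_023_b : ∃ t, chk3 f_pm_023_b t 1 1 1 = true :=
  ⟨(b (b (a (a (a (l 17734128) (l 17608544)) (a (l 17685568) (l 298602511047))) (l 2)) (a (a (a (l 17907800) (l 17786240)) (a (l 17643704) (l 17482272))) (a (a (l 17316792) (l 269074204999)) (l 2)))) (a (a (b (l 18223168) (l 18214240)) (b (a (l 17800048) (l 17645496)) (l 18032616))) (a (b (a (l 17479088) (l 17323976)) (a (l 17665040) (l 17500384))) (l 4)))), by decide +kernel⟩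

theorem c_pm_023_b : CertN 0 536870912 1239849684 370763052 134217728 67108864 3 true true false .up 0 2 3
    ndN0q0 ndN1q2b pcN3 Cut.none Ext.none :=
  certN2 (fam := true) (s1 := true) (s2 := false) (a := 0) (b := 2) (c := 3) (cn := .up) (n1 := ndN0q0) (n2 := ndN1q2b) (pc := pcN3) (cut := Cut.none) (xt := Ext.none) (P1 := 0) (W1 := 536870912) (P2 := 1239849684) (W2 := 370763052) (P3 := 134217728) (W3 := 67108864) (N0 := 3)
    rfl (fun _ => rfl) k0_pm_023_b

noncomputable def f_pm_033 : ℕ → ℕ → ℕ → ℕ → Bool := onCell 0 536870912 1610612736 536870912 134217728 67108864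
    (rowN 3 1 true true false .pnn 0 3 3 (qsf 0 536870912 1610612736 536870912 3) ndN0q0 ndN1q3 pcN3 Cut.none Ext.none)

def k0_pm_033 : ∃ t, chk3 f_pm_033 t 1 1 1 = true :=
  ⟨(b (a (b (a (l 187941440023) (l 287262155783)) (b (l 174519472071) (a (l 18120896) (l 17829048)))) (b (l 1) (a (l 274376656039) (l 1)))) (b (a (a (l 18238768) (l 17769072)) (a (l 17594448) (l 254511751127))) (a (l 4) (l 4)))), by decide +kernel⟩

theorem c_pm_033 : CertN 0 536870912 1610612736 536870912 134217728 67108864 3 true true false .pnn 0 3 3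
    ndN0q0 ndN1q3 pcN3 Cut.none Ext.none :=
  certN1 (fam := true) (s1 := true) (s2 := false) (a := 0) (b := 3) (c := 3) (cn := .pnn) (n1 := ndN0q0) (n2 := ndN1q3) (pc := pcN3) (cut := Cut.none) (xt := Ext.none) (P1 := 0) (W1 := 536870912) (P2 := 1610612736) (W2 := 536870912) (P3 := 134217728) (W3 := 67108864) (N0 := 3)
    rfl (fun _ => rfl) k0_pm_033

noncomputable def cut_pm_101 : Cut := Cut.of [[⟨0, 1, 0, 67108864⟩, ⟨1, 0, 0, 67108864⟩, ⟨2, 1, 0, 67108864⟩]]

noncomputable def f_pm_101 : ℕ → ℕ → ℕ → ℕ → Bool := onCell 536870912 536870912 0 536870912 134217728 67108864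
    (rowN 3 2 true true false .npn 1 0 1 (qsf 536870912 536870912 0 536870912 1) ndN0q1 ndN1q0 pcN1 cut_pm_101 Ext.none)

def k0_pm_101 : ∃ t, chk3 f_pm_101 t 1 1 1 = true :=
  ⟨(a (l 3) (b (a (l 3) (b (a (l 3) (a (l 3) (a (l 3) (b (b (l 6) (l 3)) (l 3))))) (l 3))) (l 3))), by decide +kernel⟩

theorem c_pm_101 : CertN 536870912 536870912 0 536870912 134217728 67108864 3 true true false .npn 1 0 1
    ndN0q1 ndN1q0 pcN1 cut_pm_101 Ext.none :=
  certN2 (fam := true) (s1 := true) (s2 := false) (a := 1) (b := 0) (c := 1) (cn := .npn) (n1 := ndN0q1) (n2 := ndN1q0) (pc := pcN1) (cut := cut_pm_101) (xt := Ext.none) (P1 := 536870912) (W1 := 536870912) (P2 := 0) (W2 := 536870912) (P3 := 134217728) (W3 := 67108864) (N0 := 3)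
    rfl (fun _ => rfl) k0_pm_101

noncomputable def cut_pm_102 : Cut := Cut.of [[⟨0, 1, 0, 67108864⟩, ⟨1, 0, 0, 67108864⟩, ⟨2, 1, 0, 67108864⟩]]

noncomputable def f_pm_102 : ℕ → ℕ → ℕ → ℕ → Bool := onCell 536870912 536870912 1073741824 536870912 134217728 67108864
    (rowN 3 1 true true false .npp 1 0 2 (qsf 536870912 536870912 0 536870912 2) ndN0q1 ndN1q0 pcN2 cut_pm_102 Ext.none)

def k0_pm_102 : ∃ t, chk3 f_pm_102 t 1 1 1 = true :=
  ⟨(a (b (b (b (l 3) (a (b (l 3) (a (l 2) (l 17336896))) (a (b (l 142976674855) (l 17226520)) (b (a (l 17103832) (l 17045728)) (l 17110736))))) (b (a (b (b (l 12450196663) (l 2)) (l 2)) (b (b (l 7617893047) (b (l 17159088) (a (l 17085248) (l 16966304)))) (l 17143840))) (a (l 2) (l 16959408)))) (a (l 2) (b (l 16985040) (l 2)))) (b (a (b (b (b (l 3) (a (l 176798928791) (l 17104352))) (a (b (l 17088344) (l 16971728)) (b (l 16958696) (l 16825824)))) (b (b (a (l 16863600) (b (l 16810472) (l 16814560))) (l 16991896)) (a (l 16799424) (l 16948128))))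 (b (a (b (b (b (l 3) (l 142975879943)) (b (l 16895144) (l 16866600))) (b (b (l 16866888) (l 16916600)) (b (l 16821944) (l 16842152)))) (b (b (b (a (b (l 3) (l 16864072)) (l 6)) (a (l 16866000) (a (b (l 6) (l 16787664)) (l 6)))) (a (a (l 16846104) (l 16816728)) (a (l 16801648) (b (l 16788336) (l 16766272))))) (b (a (b (l 16798560) (l 16798744)) (b (a (l 16781912) (l 16769072)) (b (l 16779040) (l 16781928)))) (b (a (l 16801040) (l 16841288)) (l 16923216))))) (b (b (a (b (l 16880760) (l 16922928)) (b (l 16856032) (c (l 17059744) (l 17067960)))) (a (l 16986304) (a (l 17044600) (l 17006136)))) (a (l 17101896) (b (a (l 17154880) (l 17174096)) (l 17273528)))))) (a (b (a (l 16931360) (l 17091952)) (l 17111408)) (b (a (l 17256760) (b (l 17381120) (l 17460880))) (l 17518984))))), by decide +kernel⟩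

theorem c_pm_102 : CertN 536870912 536870912 0 536870912 134217728 67108864 3 true true false .npp 1 0 2
    ndN0q1 ndN1q0 pcN2 cut_pm_102 Ext.none :=
  certN1 (fam := true) (s1 := true) (s2 := false) (a := 1) (b := 0) (c := 2) (cn := .npp) (n1 := ndN0q1) (n2 := ndN1q0) (pc := pcN2) (cut := cut_pm_102) (xt := Ext.none) (P1 := 536870912) (W1 := 536870912) (P2 := 0) (W2 := 536870912) (P3 := 134217728) (W3 := 67108864) (N0 := 3)
    rfl (fun _ => rfl) k0_pm_102

noncomputable def f_pm_112 : ℕ → ℕ → ℕ → ℕ → Bool := onCell 536870912 536870912 1073741824 536870912 134217728 67108864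
    (rowN 3 1 true true false .dn 1 1 2 (qsf 536870912 536870912 536870912 536870912 2) ndN0q1 ndN1q1 pcN2 Cut.none Ext.none)

def k0_pm_112 : ∃ t, chk3 f_pm_112 t 1 1 1 = true :=
  ⟨(a (b (b (b (l 3) (a (b (l 3) (b (a (l 3) (l 17434688)) (a (l 17371264) (l 17437888)))) (a (b (l 1) (l 245385400583)) (l 1)))) (b (a (b (b (a (l 17378592) (l 17440128)) (b (l 17412248) (b (l 17415672) (b (l 17416624) (l 17416608))))) (l 17429208)) (b (b (a (l 17520696) (l 1)) (b (l 17565056) (l 17555840))) (l 17552912))) (a (l 17469848) (l 17551296)))) (a (b (l 17702352) (l 17902872)) (b (l 17551528) (l 17561016)))) (b (a (b (l 1) (b (l 1) (l 227669188279))) (l 1)) (a (b (l 17657832) (l 17555984)) (b (l 200288867143) (l 17619344))))), by decide +kernel⟩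

theorem c_pm_112 : CertN 536870912 536870912 536870912 536870912 134217728 67108864 3 true true false .dn 1 1 2
    ndN0q1 ndN1q1 pcN2 Cut.none Ext.none :=
  certN1 (fam := true) (s1 := true) (s2 := false) (a := 1) (b := 1) (c := 2) (cn := .dn) (n1 := ndN0q1) (n2 := ndN1q1) (pc := pcN2) (cut := Cut.none) (xt := Ext.none) (P1 := 536870912) (W1 := 536870912) (P2 := 536870912) (W2 := 536870912) (P3 := 134217728) (W3 := 67108864) (N0 := 3)
    rfl (fun _ => rfl) k0_pm_112

noncomputable def f_pm_113 : ℕ → ℕ → ℕ → ℕ → Bool := onCell 536870912 536870912 536870912 536870912 134217728 67108864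
    (rowN 3 0 true true false .nn 1 1 3 (qsf 536870912 536870912 536870912 536870912 3) ndN0q1 ndN1q1 pcN3 Cut.none Ext.none)

def k0_pm_113 : ∃ t, chk3 f_pm_113 t 1 1 1 = true :=
  ⟨(a (b (a (l 1) (l 207267268103)) (a (b (l 219078741095) (l 226595304183)) (a (l 144990530055) (l 17492384)))) (b (a (b (l 17476904) (l 17345864)) (b (l 17456952) (a (l 17368240) (a (l 17339560) (l 17312808))))) (a (b (l 17225296) (l 17162696)) (b (a (l 17236920) (b (l 17433464) (l 17200104))) (a (b (l 17119552) (l 17248104)) (b (l 17258616) (a (l 16925192) (b (l 16886744) (l 4))))))))), by decide +kernel⟩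

theorem c_pm_113 : CertN 536870912 536870912 536870912 536870912 134217728 67108864 3 true true false .nn 1 1 3
    ndN0q1 ndN1q1 pcN3 Cut.none Ext.none :=
  certN0 (fam := true) (s1 := true) (s2 := false) (a := 1) (b := 1) (c := 3) (cn := .nn) (n1 := ndN0q1) (n2 := ndN1q1) (pc := pcN3) (cut := Cut.none) (xt := Ext.none) (P1 := 536870912) (W1 := 536870912) (P2 := 536870912) (W2 := 536870912) (P3 := 134217728) (W3 := 67108864) (N0 := 3)
    rfl k0_pm_113

noncomputable def cut_pm_123_a : Cut := Cut.of [[⟨0, 1, 0, 39843005⟩, ⟨1, 1, 0, 39843005⟩, ⟨2, 2, 0, 5814905⟩]]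

noncomputable def f_pm_123_a : ℕ → ℕ → ℕ → ℕ → Bool := onCell 1610612736 536870912 0 536870912 134217728 67108864
    (rowN 3 2 true true false .npn 1 2 3 (qsf 536870912 536870912 0 536870912 3) ndN0q1 ndN1q2a pcN3 cut_pm_123_a Ext.none)

def k0_pm_123_a : ∃ t, chk3 f_pm_123_a t 1 1 1 = true :=
  ⟨(a (a (b (a (l 1) (l 17596304)) (b (a (l 1) (l 17590744)) (a (b (l 17683800) (l 17692992)) (b (l 17602472) (l 17616032))))) (b (a (l 17438608) (l 17337408)) (b (a (l 17485136) (l 17370704)) (a (b (l 17503224) (l 17513440)) (b (l 17382560) (l 17388576)))))) (a (b (a (b (l 17211880) (l 17220464)) (b (a (l 17064304) (l 16983920)) (l 17228216))) (b (a (l 17413736) (l 17141264)) (a (b (l 17243936) (l 17244680)) (b (l 17161840) (a (l 17135952) (l 17064104)))))) (a (a (b (b (l 16907952) (l 16972976)) (b (l 16995800) (l 17243208))) (b (b (l 16943312) (l 16897016)) (b (l 17032504) (b (l 16932056) (l 17029696))))) (a (b (b (l 177402765911) (l 16986672)) (b (l 17109680) (b (l 16866992) (b (l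 16867064) (l 16867168))))) (b (a (b (l 4) (l 16943472)) (l 4)) (a (b (l 16983712) (b (l 16956120) (b (l 16823832) (a (l 16829504) (l 16855344))))) (b (a (l 16917664) (l 4)) (a (b (l 16903280) (b (l 16802048) (b (l 16800632) (l 16799744)))) (a (b (l 16866440) (b (l 16880176) (b (l 16790272) (l 16801400)))) (b (a (l 16837560) (l 4)) (b (a (l 16845848) (a (l 16825848) (a (l 16811344) (l 4)))) (l 6)))))))))))), by decide +kernel⟩

theorem c_pm_123_a : CertN 536870912 536870912 0 536870912 134217728 67108864 3 true true false .npn 1 2 3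
    ndN0q1 ndN1q2a pcN3 cut_pm_123_a Ext.none :=
  certN2 (fam := true) (s1 := true) (s2 := false) (a := 1) (b := 2) (c := 3) (cn := .npn) (n1 := ndN0q1) (n2 := ndN1q2a) (pc := pcN3) (cut := cut_pm_123_a) (xt := Ext.none) (P1 := 536870912) (W1 := 536870912) (P2 := 0) (W2 := 536870912) (P3 := 134217728) (W3 := 67108864) (N0 := 3)
    rfl (fun _ => rfl) k0_pm_123_a

noncomputable def cut_pm_123_b : Cut := Cut.of [[⟨0, 1, 0, 39843005⟩, ⟨1, 1, 0, 39843005⟩, ⟨2, 2, 0, 5814905⟩]]

noncomputable def f_pm_123_b : ℕ → ℕ → ℕ → ℕ → Bool := onCell 1610612736 536870912 1239849684 370763052 134217728 67108864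
    (rowN 3 2 true true false .npn 1 2 3 (qsf 536870912 536870912 1239849684 370763052 3) ndN0q1 ndN1q2b pcN3 cut_pm_123_b Ext.none)

def k0_pm_123_b : ∃ t, chk3 f_pm_123_b t 1 1 1 = true :=
  ⟨(a (b (a (l 1) (b (a (b (l 17435064) (l 1)) (b (l 17302656) (l 17373128))) (a (l 1) (l 17654456)))) (l 1)) (a (b (a (b (b (l 17198328) (l 17211328)) (l 17464608)) (b (b (a (l 17041848) (l 16968704)) (l 17086336)) (b (l 17131328) (l 17202352)))) (b (a (l 1) (l 17388888)) (l 1))) (a (b (b (b (a (l 16899464) (l 17022128)) (l 17194440)) (l 26005724535)) (l 4)) (l 4)))), by decide +kernel⟩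

theorem c_pm_123_b : CertN 536870912 536870912 1239849684 370763052 134217728 67108864 3 true true false .npn 1 2 3
    ndN0q1 ndN1q2b pcN3 cut_pm_123_b Ext.none :=
  certN2 (fam := true) (s1 := true) (s2 := false) (a := 1) (b := 2) (c := 3) (cn := .npn) (n1 := ndN0q1) (n2 := ndN1q2b) (pc := pcN3) (cut := cut_pm_123_b) (xt := Ext.none) (P1 := 536870912) (W1 := 536870912) (P2 := 1239849684) (W2 := 370763052) (P3 := 134217728) (W3 := 67108864) (N0 := 3)
    rfl (fun _ => rfl) k0_pm_123_b

noncomputable def f_pm_133 : ℕ → ℕ → ℕ → ℕ → Bool := onCell 536870912 536870912 1610612736 536870912 134217728 67108864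
    (rowN 3 0 true true false .dn 1 3 3 (qsf 536870912 536870912 1610612736 536870912 3) ndN0q1 ndN1q3 pcN3 Cut.none Ext.none)

def k0_pm_133 : ∃ t, chk3 f_pm_133 t 1 1 1 = true :=
  ⟨(l 4), by decide +kernel⟩

theorem c_pm_133 : CertN 536870912 536870912 1610612736 536870912 134217728 67108864 3 true true false .dn 1 3 3
    ndN0q1 ndN1q3 pcN3 Cut.none Ext.none :=
  certN0 (fam := true) (s1 := true) (s2 := false) (a := 1) (b := 3) (c := 3) (cn := .dn) (n1 := ndN0q1) (n2 := ndN1q3) (pc := pcN3) (cut := Cut.none) (xt := Ext.none) (P1 := 536870912) (W1 := 536870912) (P2 := 1610612736) (W2 := 536870912) (P3 := 134217728) (W3 := 67108864) (N0 := 3)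
    rfl k0_pm_133

noncomputable def cut_pm_202 : Cut := Cut.of [[⟨0, 1, 0, 67108864⟩, ⟨1, 0, 0, 67108864⟩, ⟨2, 1, 0, 67108864⟩]]

noncomputable def f_pm_202 : ℕ → ℕ → ℕ → ℕ → Bool := onCell 0 536870912 1073741824 536870912 134217728 67108864
    (rowN 3 1 true true false .pp 2 0 2 (qsf 0 536870912 0 536870912 2) ndN0q2 ndN1q0 pcN2 cut_pm_202 Ext.none)

def k0_pm_202 : ∃ t, chk3 f_pm_202 t 2 1 1 = true :=
  ⟨(b (a (b (l 1) (b (b (b (l 1) (b (a (l 1) (a (l 1) (c (l 99354423319) (l 16522456)))) (c (a (b (l 1) (a (l 16881240) (l 176663824599))) (b (a (l 16788064) (l 16780344)) (a (l 16871776) (l 16861800)))) (a (b (l 1) (l 16532176)) (b (l 16514672) (l 16550280)))))) (b (a (c (b (l 16991176) (l 17115280)) (l 16498344)) (c (a (l 17048080) (l 17037784)) (l 16516568))) (a (l 16813120) (l 16889968)))) (b (a (b (l 17124920) (l 17257504)) (l 17132072)) (a (l 17386704) (l 17391680))))) (b (a (l 1) (b (l 1) (b (l 1) (b (l 1) (b (l 1) (a (l 1) (c (b (l 99891135447) (l 120292217367)) (l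 133713993159)))))))) (b (b (c (b (a (b (l 1) (a (l 16554320) (l 130492759575))) (b (a (l 124050331127) (l 175053062695)) (a (l 16556560) (l 16542328)))) (a (b (a (b (l 16581544) (l 16680000)) (l 16622352)) (b (l 16762816) (a (l 16849488) (l 16836664)))) (b (a (l 16614000) (l 16608568)) (b (l 16741576) (l 16819000))))) (b (a (b (l 1) (a (l 16530784) (l 16537408))) (b (a (l 16551816) (l 16544048)) (a (l 16523168) (l 16510968)))) (b (a (l 124587140551) (l 16534664)) (a (b (l 16506960) (l 16562848)) (b (l 16507896) (l 16564200)))))) (a (b (c (l 17017312) (l 16508184)) (l 16917120)) (b (a (l 16646712) (l 16645416)) (l 16902128)))) (b (a (l 17181968) (l 17164280)) (a (l 17385656) (l 17372000)))))) (b (a (b (l 17503128) (l 17509136)) (b (l 17521736) (l 17567760))) (a (l 17619040) (b (l 17536320) (l 17477456))))), by decide +kernel⟩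

def k1_pm_202 : ∃ t, chk3 f_pm_202 t 6 4 1 = true :=
  ⟨(a (b (l 1) (b (l 1) (a (b (b (l 1) (b (l 1) (c (l 87543140887) (l 16573104)))) (b (c (b (l 99891157911) (l 144451430103)) (a (l 124050344423) (l 16582296))) (c (b (l 16568040) (l 16561640)) (l 16566096)))) (b (a (b (l 1) (c (b (l 124587242503) (l 16587256)) (l 169684417703))) (b (c (b (l 68215832871) (l 128882226503)) (b (l 16594632) (l 16586552))) (c (b (l 16594544) (l 16587584)) (l 193843611223)))) (b (c (a (l 16600336) (l 16600512)) (a (l 16590344) (l 16584120))) (c (l 16586448) (l 16560088))))))) (b (l 1) (b (b (a (l 1) (b (l 1) (a (c (b (l 1) (l 74121480583)) (l 88080127879)) (c (b (a (l 71974014039) (l 139082876695)) (l 159483952663)) (l 122439867719))))) (b (b (a (l 1) (c (a (l 115460517287) (l 16641480)) (l 140693438023))) (a (a (l 1) (c (l 88616982135) (l 74121446887))) (a (c (l 169684484951) (l 16628816)) (c (l 16631232) (l 16636688))))) (b (a (a (l 1) (c (l 129419142535) (l 132103474295))) (a (c (l 16621152)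 (l 16623304)) (l 16647952))) (c (a (a (l 110091777703) (l 16617648)) (l 16626168)) (a (a (l 16608728) (l 16618208)) (l 16632976)))))) (b (b (a (a (c (b (l 153041435159) (l 16601848)) (b (l 16595592) (l 16594832))) (c (l 16641032) (c (l 16625400) (l 16640568)))) (a (b (l 16643360) (l 16623704)) (l 16678872))) (a (c (a (l 16615576) (l 16620032)) (a (l 16615560) (l 16610640))) (a (l 16664408) (l 16639784)))) (a (b (a (l 16634088) (l 16628784)) (l 16645192)) (b (l 16654488) (l 16614448))))))), by decide +kernel⟩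

def k2_pm_202 : ∃ t, chk3 f_pm_202 t 6 5 1 = true :=
  ⟨(b (b (b (a (a (b (c (l 16552976) (l 16535080)) (l 16593712)) (b (l 16619048) (l 16559992))) (a (a (l 16691848) (l 16695816)) (l 16740032))) (b (a (c (l 16608784) (l 16559152)) (l 16670872)) (a (b (l 16533872) (c (l 16805448) (l 16629592))) (a (l 16789272) (l 16817464))))) (a (b (l 16651304) (l 16894512)) (b (l 16675856) (l 16898536)))) (b (a (l 17147024) (l 17133448)) (a (l 17353784) (l 17333584)))), by decide +kernel⟩

def k3_pm_202 : ∃ t, chk3 f_pm_202 t 7 2 1 = true :=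
  ⟨(b (a (b (a (b (l 1) (b (l 1) (b (l 1) (a (l 1) (c (b (a (l 1) (l 6)) (c (a (l 132640481511) (l 16673376)) (l 152504701127))) (b (a (l 1) (l 6)) (l 150894083495))))))) (b (l 1) (b (l 6) (b (l 6) (b (l 6) (a (c (l 16692168) (l 16666216)) (l 16668480))))))) (b (b (a (b (a (c (a (b (l 1) (l 134251058071)) (c (l 163778978183) (l 154652165575))) (b (l 102038811495) (l 151430915031))) (c (a (b (l 200286197623) (l 16652336)) (l 16678064)) (l 16669608))) (a (c (a (l 16652720) (l 16657760)) (l 16651064)) (l 16655696))) (a (c (l 16674272) (l 16656256)) (l 16673920))) (b (a (b (a (l 16647984) (l 16645056)) (a (l 16672720) (l 16648536))) (a (l 16724928) (l 16701352))) (a (c (l 16702168) (l 16706192)) (l 16739800)))) (b (a (b (l 16705296) (l 16665984)) (c (l 16771904) (l 16796712))) (a (l 16767216) (l 16760944))))) (b (b (l 6) (b (l 6) (b (l 6) (a (a (l 16687408) (l 16707728)) (l 16738664))))) (b (b (a (a (l 16693168) (l 16712632)) (l 16742304)) (a (b (l 16750408) (l 16713096)) (b (l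 16725416) (l 16750096)))) (b (a (l 16811432) (l 16807736)) (b (l 16736408) (l 16737864)))))) (b (b (b (a (a (l 16710904) (l 16683040)) (b (l 16739248) (l 16740704))) (b (a (l 16650768) (l 16742576)) (a (b (l 16673856) (l 16739456)) (l 16893576)))) (a (l 16846240) (l 16887872))) (b (a (l 17126640) (l 17139648)) (a (l 17314240) (l 17304912))))), by decide +kernel⟩

def k4_pm_202 : ∃ t, chk3 f_pm_202 t 3 3 1 = true :=
  ⟨(b (a (b (l 17503384) (l 17578896)) (b (l 17469840) (l 17561216))) (a (l 17558312) (l 17575032))), by decide +kernel⟩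

theorem s5_pm_202 : ∃ t, chk3 f_pm_202 t 6 2 1 = true := ex3_b k1_pm_202 k2_pm_202

theorem s6_pm_202 : ∃ t, chk3 f_pm_202 t 3 2 1 = true := ex3_a s5_pm_202 k3_pm_202

theorem s7_pm_202 : ∃ t, chk3 f_pm_202 t 3 1 1 = true := ex3_b s6_pm_202 k4_pm_202

theorem s8_pm_202 : ∃ t, chk3 f_pm_202 t 1 1 1 = true := ex3_a k0_pm_202 s7_pm_202

theorem c_pm_202 : CertN 0 536870912 0 536870912 134217728 67108864 3 true true false .pp 2 0 2
    ndN0q2 ndN1q0 pcN2 cut_pm_202 Ext.none :=
  certN1 (fam := true) (s1 := true) (s2 := false) (a := 2) (b := 0) (c := 2) (cn := .pp) (n1 := ndN0q2) (n2 := ndN1q0) (pc := pcN2) (cut := cut_pm_202) (xt := Ext.none) (P1 := 0) (W1 := 536870912) (P2 := 0) (W2 := 536870912) (P3 := 134217728) (W3 := 67108864) (N0 := 3)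
    rfl (fun _ => rfl) s8_pm_202

noncomputable def f_pm_203 : ℕ → ℕ → ℕ → ℕ → Bool := onCell 0 536870912 1610612736 536870912 134217728 67108864
    (rowN 3 1 true true false .up 2 0 3 (qsf 0 536870912 0 536870912 3) ndN0q2 ndN1q0 pcN3 Cut.none Ext.none)

def k0_pm_203 : ∃ t, chk3 f_pm_203 t 1 1 1 = true :=
  ⟨(b (b (a (b (a (l 17341232) (l 17559392)) (a (l 17277984) (l 17466928))) (a (b (l 17773720) (l 17705992)) (l 17865080))) (a (b (l 36207099207) (l 2)) (a (l 2) (l 2)))) (l 2)), by decide +kernel⟩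

theorem c_pm_203 : CertN 0 536870912 0 536870912 134217728 67108864 3 true true false .up 2 0 3
    ndN0q2 ndN1q0 pcN3 Cut.none Ext.none :=
  certN1 (fam := true) (s1 := true) (s2 := false) (a := 2) (b := 0) (c := 3) (cn := .up) (n1 := ndN0q2) (n2 := ndN1q0) (pc := pcN3) (cut := Cut.none) (xt := Ext.none) (P1 := 0) (W1 := 536870912) (P2 := 0) (W2 := 536870912) (P3 := 134217728) (W3 := 67108864) (N0 := 3)
    rfl (fun _ => rfl) k0_pm_203

noncomputable def f_pm_213 : ℕ → ℕ → ℕ → ℕ → Bool := onCell 0 536870912 1610612736 536870912 134217728 67108864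
    (rowN 3 1 true true false .pnn 2 1 3 (qsf 0 536870912 536870912 536870912 3) ndN0q2 ndN1q1 pcN3 Cut.none Ext.none)

def k0_pm_213 : ∃ t, chk3 f_pm_213 t 1 1 1 = true :=
  ⟨(a (b (b (b (l 1) (l 520799440311)) (b (l 48554250743) (l 17152192))) (l 4)) (b (b (a (b (l 1) (l 17075712)) (l 17310328)) (b (a (l 17049960) (l 17227336)) (a (l 17051792) (l 17140864)))) (b (b (l 17188456) (l 41574679047)) (b (l 48553935783) (l 4))))), by decide +kernel⟩

theorem c_pm_213 : CertN 0 536870912 536870912 536870912 134217728 67108864 3 true true false .pnn 2 1 3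
    ndN0q2 ndN1q1 pcN3 Cut.none Ext.none :=
  certN1 (fam := true) (s1 := true) (s2 := false) (a := 2) (b := 1) (c := 3) (cn := .pnn) (n1 := ndN0q2) (n2 := ndN1q1) (pc := pcN3) (cut := Cut.none) (xt := Ext.none) (P1 := 0) (W1 := 536870912) (P2 := 536870912) (W2 := 536870912) (P3 := 134217728) (W3 := 67108864) (N0 := 3)
    rfl (fun _ => rfl) k0_pm_213

noncomputable def f_mm_001 : ℕ → ℕ → ℕ → ℕ → Bool := onCell 0 536870912 0 536870912 134217728 67108864
    (rowN 3 0 true false false .up 0 0 1 (qsf 0 536870912 0 536870912 1) ndN0q0 ndN1q0 pcN1 Cut.none Ext.none)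

def k0_mm_001 : ∃ t, chk3 f_mm_001 t 1 1 1 = true :=
  ⟨(l 4), by decide +kernel⟩

theorem c_mm_001 : CertN 0 536870912 0 536870912 134217728 67108864 3 true false false .up 0 0 1
    ndN0q0 ndN1q0 pcN1 Cut.none Ext.none :=
  certN0 (fam := true) (s1 := false) (s2 := false) (a := 0) (b := 0) (c := 1) (cn := .up) (n1 := ndN0q0) (n2 := ndN1q0) (pc := pcN1) (cut := Cut.none) (xt := Ext.none) (P1 := 0) (W1 := 536870912) (P2 := 0) (W2 := 536870912) (P3 := 134217728) (W3 := 67108864) (N0 := 3)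
    rfl k0_mm_001

noncomputable def f_mm_011 : ℕ → ℕ → ℕ → ℕ → Bool := onCell 0 536870912 536870912 536870912 134217728 67108864
    (rowN 3 0 true false false .pnn 0 1 1 (qsf 0 536870912 536870912 536870912 1) ndN0q0 ndN1q1 pcN1 Cut.none Ext.none)

def k0_mm_011 : ∃ t, chk3 f_mm_011 t 1 1 1 = true :=
  ⟨(l 4), by decide +kernel⟩

theorem c_mm_011 : CertN 0 536870912 536870912 536870912 134217728 67108864 3 true false false .pnn 0 1 1
    ndN0q0 ndN1q1 pcN1 Cut.none Ext.none :=
  certN0 (fam := true) (s1 := false) (s2 := false) (a := 0) (b := 1) (c := 1) (cn := .pnn) (n1 := ndN0q0) (n2 := ndN1q1) (pc := pcN1) (cut := Cut.none) (xt := Ext.none) (P1 := 0) (W1 := 536870912) (P2 := 536870912) (W2 := 536870912) (P3 := 134217728) (W3 := 67108864) (N0 := 3)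
    rfl k0_mm_011

noncomputable def f_mm_012 : ℕ → ℕ → ℕ → ℕ → Bool := onCell 0 536870912 536870912 536870912 134217728 67108864
    (rowN 3 0 true false false .pnp 0 1 2 (qsf 0 536870912 536870912 536870912 2) ndN0q0 ndN1q1 pcN2 Cut.none Ext.none)

def k0_mm_012 : ∃ t, chk3 f_mm_012 t 1 1 1 = true :=
  ⟨(l 4), by decide +kernel⟩

theorem c_mm_012 : CertN 0 536870912 536870912 536870912 134217728 67108864 3 true false false .pnp 0 1 2
    ndN0q0 ndN1q1 pcN2 Cut.none Ext.none :=
  certN0 (fam := true) (s1 := false) (s2 := false) (a := 0) (b := 1) (c := 2) (cn := .pnp) (n1 := ndN0q0) (n2 := ndN1q1) (pc := pcN2) (cut := Cut.none) (xt := Ext.none) (P1 := 0) (W1 := 536870912) (P2 := 536870912) (W2 := 536870912) (P3 := 134217728) (W3 := 67108864) (N0 := 3)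
    rfl k0_mm_012

noncomputable def f_mm_022_a : ℕ → ℕ → ℕ → ℕ → Bool := onCell 0 536870912 0 536870912 134217728 67108864
    (rowN 3 0 true false false .pp 0 2 2 (qsf 0 536870912 0 536870912 2) ndN0q0 ndN1q2a pcN2 Cut.none Ext.none)

def k0_mm_022_a : ∃ t, chk3 f_mm_022_a t 1 1 1 = true :=
  ⟨(l 5), by decide +kernel⟩

theorem c_mm_022_a : CertN 0 536870912 0 536870912 134217728 67108864 3 true false false .pp 0 2 2
    ndN0q0 ndN1q2a pcN2 Cut.none Ext.none :=
  certN0 (fam := true) (s1 := false) (s2 := false) (a := 0) (b := 2) (c := 2) (cn := .pp) (n1 := ndN0q0) (n2 := ndN1q2a) (pc := pcN2) (cut := Cut.none) (xt := Ext.none) (P1 := 0) (W1 := 536870912) (P2 := 0) (W2 := 536870912) (P3 := 134217728) (W3 := 67108864) (N0 := 3)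
    rfl k0_mm_022_a

noncomputable def f_mm_022_b : ℕ → ℕ → ℕ → ℕ → Bool := onCell 0 536870912 1239849684 370763052 134217728 67108864
    (rowN 3 0 true false false .pp 0 2 2 (qsf 0 536870912 1239849684 370763052 2) ndN0q0 ndN1q2b pcN2 Cut.none Ext.none)

def k0_mm_022_b : ∃ t, chk3 f_mm_022_b t 1 1 1 = true :=
  ⟨(l 5), by decide +kernel⟩

theorem c_mm_022_b : CertN 0 536870912 1239849684 370763052 134217728 67108864 3 true false false .pp 0 2 2
    ndN0q0 ndN1q2b pcN2 Cut.none Ext.none :=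
  certN0 (fam := true) (s1 := false) (s2 := false) (a := 0) (b := 2) (c := 2) (cn := .pp) (n1 := ndN0q0) (n2 := ndN1q2b) (pc := pcN2) (cut := Cut.none) (xt := Ext.none) (P1 := 0) (W1 := 536870912) (P2 := 1239849684) (W2 := 370763052) (P3 := 134217728) (W3 := 67108864) (N0 := 3)
    rfl k0_mm_022_b

noncomputable def f_mm_023_a : ℕ → ℕ → ℕ → ℕ → Bool := onCell 0 536870912 0 536870912 134217728 67108864
    (rowN 3 0 true false false .up 0 2 3 (qsf 0 536870912 0 536870912 3) ndN0q0 ndN1q2a pcN3 Cut.none Ext.none)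

def k0_mm_023_a : ∃ t, chk3 f_mm_023_a t 1 1 1 = true :=
  ⟨(l 5), by decide +kernel⟩

theorem c_mm_023_a : CertN 0 536870912 0 536870912 134217728 67108864 3 true false false .up 0 2 3
    ndN0q0 ndN1q2a pcN3 Cut.none Ext.none :=
  certN0 (fam := true) (s1 := false) (s2 := false) (a := 0) (b := 2) (c := 3) (cn := .up) (n1 := ndN0q0) (n2 := ndN1q2a) (pc := pcN3) (cut := Cut.none) (xt := Ext.none) (P1 := 0) (W1 := 536870912) (P2 := 0) (W2 := 536870912) (P3 := 134217728) (W3 := 67108864) (N0 := 3)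
    rfl k0_mm_023_a

noncomputable def f_mm_023_b : ℕ → ℕ → ℕ → ℕ → Bool := onCell 0 536870912 1239849684 370763052 134217728 67108864
    (rowN 3 0 true false false .up 0 2 3 (qsf 0 536870912 1239849684 370763052 3) ndN0q0 ndN1q2b pcN3 Cut.none Ext.none)

def k0_mm_023_b : ∃ t, chk3 f_mm_023_b t 1 1 1 = true :=
  ⟨(l 5), by decide +kernel⟩

theorem c_mm_023_b : CertN 0 536870912 1239849684 370763052 134217728 67108864 3 true false false .up 0 2 3
    ndN0q0 ndN1q2b pcN3 Cut.none Ext.none :=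
  certN0 (fam := true) (s1 := false) (s2 := false) (a := 0) (b := 2) (c := 3) (cn := .up) (n1 := ndN0q0) (n2 := ndN1q2b) (pc := pcN3) (cut := Cut.none) (xt := Ext.none) (P1 := 0) (W1 := 536870912) (P2 := 1239849684) (W2 := 370763052) (P3 := 134217728) (W3 := 67108864) (N0 := 3)
    rfl k0_mm_023_b

noncomputable def f_mm_033 : ℕ → ℕ → ℕ → ℕ → Bool := onCell 0 536870912 1610612736 536870912 134217728 67108864
    (rowN 3 0 true false false .pnn 0 3 3 (qsf 0 536870912 1610612736 536870912 3) ndN0q0 ndN1q3 pcN3 Cut.none Ext.none)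

def k0_mm_033 : ∃ t, chk3 f_mm_033 t 1 1 1 = true :=
  ⟨(l 5), by decide +kernel⟩

theorem c_mm_033 : CertN 0 536870912 1610612736 536870912 134217728 67108864 3 true false false .pnn 0 3 3
    ndN0q0 ndN1q3 pcN3 Cut.none Ext.none :=
  certN0 (fam := true) (s1 := false) (s2 := false) (a := 0) (b := 3) (c := 3) (cn := .pnn) (n1 := ndN0q0) (n2 := ndN1q3) (pc := pcN3) (cut := Cut.none) (xt := Ext.none) (P1 := 0) (W1 := 536870912) (P2 := 1610612736) (W2 := 536870912) (P3 := 134217728) (W3 := 67108864) (N0 := 3)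
    rfl k0_mm_033

noncomputable def cut_mm_101 : Cut := Cut.of [[⟨0, 1, 0, 67108864⟩, ⟨1, 0, 0, 67108864⟩, ⟨2, 1, 0, 67108864⟩]]

noncomputable def f_mm_101 : ℕ → ℕ → ℕ → ℕ → Bool := onCell 536870912 536870912 0 536870912 134217728 67108864
    (rowN 3 0 true false false .npn 1 0 1 (qsf 536870912 536870912 0 536870912 1) ndN0q1 ndN1q0 pcN1 cut_mm_101 Ext.none)

def k0_mm_101 : ∃ t, chk3 f_mm_101 t 1 1 1 = true :=
  ⟨(a (l 4) (b (a (l 4) (a (l 4) (b (a (l 4) (b (b (l 6) (l 4)) (l 2))) (l 2)))) (l 4))), by decide +kernel⟩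

theorem c_mm_101 : CertN 536870912 536870912 0 536870912 134217728 67108864 3 true false false .npn 1 0 1
    ndN0q1 ndN1q0 pcN1 cut_mm_101 Ext.none :=
  certN0 (fam := true) (s1 := false) (s2 := false) (a := 1) (b := 0) (c := 1) (cn := .npn) (n1 := ndN0q1) (n2 := ndN1q0) (pc := pcN1) (cut := cut_mm_101) (xt := Ext.none) (P1 := 536870912) (W1 := 536870912) (P2 := 0) (W2 := 536870912) (P3 := 134217728) (W3 := 67108864) (N0 := 3)
    rfl k0_mm_101

noncomputable def cut_mm_102 : Cut := Cut.of [[⟨0, 1, 0, 67108864⟩, ⟨1, 0, 0, 67108864⟩, ⟨2, 1, 0, 67108864⟩]]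

noncomputable def f_mm_102 : ℕ → ℕ → ℕ → ℕ → Bool := onCell 536870912 536870912 0 536870912 134217728 67108864
    (rowN 3 0 true false false .npp 1 0 2 (qsf 536870912 536870912 0 536870912 2) ndN0q1 ndN1q0 pcN2 cut_mm_102 Ext.none)

def k0_mm_102 : ∃ t, chk3 f_mm_102 t 1 1 1 = true :=
  ⟨(a (l 4) (b (a (l 4) (b (a (l 4) (a (l 4) (b (b (l 6) (l 4)) (l 4)))) (l 4))) (l 4))), by decide +kernel⟩

theorem c_mm_102 : CertN 536870912 536870912 0 536870912 134217728 67108864 3 true false false .npp 1 0 2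
    ndN0q1 ndN1q0 pcN2 cut_mm_102 Ext.none :=
  certN0 (fam := true) (s1 := false) (s2 := false) (a := 1) (b := 0) (c := 2) (cn := .npp) (n1 := ndN0q1) (n2 := ndN1q0) (pc := pcN2) (cut := cut_mm_102) (xt := Ext.none) (P1 := 536870912) (W1 := 536870912) (P2 := 0) (W2 := 536870912) (P3 := 134217728) (W3 := 67108864) (N0 := 3)
    rfl k0_mm_102

noncomputable def f_mm_112 : ℕ → ℕ → ℕ → ℕ → Bool := onCell 536870912 536870912 536870912 536870912 134217728 67108864
    (rowN 3 0 true false false .dn 1 1 2 (qsf 536870912 536870912 536870912 536870912 2) ndN0q1 ndN1q1 pcN2 Cut.none Ext.none)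

def k0_mm_112 : ∃ t, chk3 f_mm_112 t 1 1 1 = true :=
  ⟨(l 4), by decide +kernel⟩

theorem c_mm_112 : CertN 536870912 536870912 536870912 536870912 134217728 67108864 3 true false false .dn 1 1 2
    ndN0q1 ndN1q1 pcN2 Cut.none Ext.none :=
  certN0 (fam := true) (s1 := false) (s2 := false) (a := 1) (b := 1) (c := 2) (cn := .dn) (n1 := ndN0q1) (n2 := ndN1q1) (pc := pcN2) (cut := Cut.none) (xt := Ext.none) (P1 := 536870912) (W1 := 536870912) (P2 := 536870912) (W2 := 536870912) (P3 := 134217728) (W3 := 67108864) (N0 := 3)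
    rfl k0_mm_112

noncomputable def f_mm_113 : ℕ → ℕ → ℕ → ℕ → Bool := onCell 536870912 536870912 536870912 536870912 134217728 67108864
    (rowN 3 0 true false false .nn 1 1 3 (qsf 536870912 536870912 536870912 536870912 3) ndN0q1 ndN1q1 pcN3 Cut.none Ext.none)

def k0_mm_113 : ∃ t, chk3 f_mm_113 t 1 1 1 = true :=
  ⟨(l 4), by decide +kernel⟩

theorem c_mm_113 : CertN 536870912 536870912 536870912 536870912 134217728 67108864 3 true false false .nn 1 1 3
    ndN0q1 ndN1q1 pcN3 Cut.none Ext.none :=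
  certN0 (fam := true) (s1 := false) (s2 := false) (a := 1) (b := 1) (c := 3) (cn := .nn) (n1 := ndN0q1) (n2 := ndN1q1) (pc := pcN3) (cut := Cut.none) (xt := Ext.none) (P1 := 536870912) (W1 := 536870912) (P2 := 536870912) (W2 := 536870912) (P3 := 134217728) (W3 := 67108864) (N0 := 3)
    rfl k0_mm_113

noncomputable def f_mm_123_a : ℕ → ℕ → ℕ → ℕ → Bool := onCell 536870912 536870912 0 536870912 134217728 67108864
    (rowN 3 0 true false false .npn 1 2 3 (qsf 536870912 536870912 0 536870912 3) ndN0q1 ndN1q2a pcN3 Cut.none Ext.none)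

def k0_mm_123_a : ∃ t, chk3 f_mm_123_a t 1 1 1 = true :=
  ⟨(l 4), by decide +kernel⟩

theorem c_mm_123_a : CertN 536870912 536870912 0 536870912 134217728 67108864 3 true false false .npn 1 2 3
    ndN0q1 ndN1q2a pcN3 Cut.none Ext.none :=
  certN0 (fam := true) (s1 := false) (s2 := false) (a := 1) (b := 2) (c := 3) (cn := .npn) (n1 := ndN0q1) (n2 := ndN1q2a) (pc := pcN3) (cut := Cut.none) (xt := Ext.none) (P1 := 536870912) (W1 := 536870912) (P2 := 0) (W2 := 536870912) (P3 := 134217728) (W3 := 67108864) (N0 := 3)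
    rfl k0_mm_123_a

noncomputable def f_mm_123_b : ℕ → ℕ → ℕ → ℕ → Bool := onCell 536870912 536870912 1239849684 370763052 134217728 67108864
    (rowN 3 0 true false false .npn 1 2 3 (qsf 536870912 536870912 1239849684 370763052 3) ndN0q1 ndN1q2b pcN3 Cut.none Ext.none)

def k0_mm_123_b : ∃ t, chk3 f_mm_123_b t 1 1 1 = true :=
  ⟨(l 4), by decide +kernel⟩

theorem c_mm_123_b : CertN 536870912 536870912 1239849684 370763052 134217728 67108864 3 true false false .npn 1 2 3
    ndN0q1 ndN1q2b pcN3 Cut.none Ext.none :=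
  certN0 (fam := true) (s1 := false) (s2 := false) (a := 1) (b := 2) (c := 3) (cn := .npn) (n1 := ndN0q1) (n2 := ndN1q2b) (pc := pcN3) (cut := Cut.none) (xt := Ext.none) (P1 := 536870912) (W1 := 536870912) (P2 := 1239849684) (W2 := 370763052) (P3 := 134217728) (W3 := 67108864) (N0 := 3)
    rfl k0_mm_123_b

noncomputable def f_mm_133 : ℕ → ℕ → ℕ → ℕ → Bool := onCell 536870912 536870912 1610612736 536870912 134217728 67108864
    (rowN 3 0 true false false .dn 1 3 3 (qsf 536870912 536870912 1610612736 536870912 3) ndN0q1 ndN1q3 pcN3 Cut.none Ext.none)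

def k0_mm_133 : ∃ t, chk3 f_mm_133 t 1 1 1 = true :=
  ⟨(l 4), by decide +kernel⟩

theorem c_mm_133 : CertN 536870912 536870912 1610612736 536870912 134217728 67108864 3 true false false .dn 1 3 3
    ndN0q1 ndN1q3 pcN3 Cut.none Ext.none :=
  certN0 (fam := true) (s1 := false) (s2 := false) (a := 1) (b := 3) (c := 3) (cn := .dn) (n1 := ndN0q1) (n2 := ndN1q3) (pc := pcN3) (cut := Cut.none) (xt := Ext.none) (P1 := 536870912) (W1 := 536870912) (P2 := 1610612736) (W2 := 536870912) (P3 := 134217728) (W3 := 67108864) (N0 := 3)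
    rfl k0_mm_133

noncomputable def cut_mm_202 : Cut := Cut.of [[⟨0, 1, 0, 67108864⟩, ⟨1, 0, 0, 67108864⟩, ⟨2, 1, 0, 67108864⟩]]

noncomputable def f_mm_202 : ℕ → ℕ → ℕ → ℕ → Bool := onCell 0 536870912 0 536870912 134217728 67108864
    (rowN 3 0 true false false .pp 2 0 2 (qsf 0 536870912 0 536870912 2) ndN0q2 ndN1q0 pcN2 cut_mm_202 Ext.none)

def k0_mm_202 : ∃ t, chk3 f_mm_202 t 2 1 1 = true :=
  ⟨(b (b (a (b (b (a (b (b (c (a (l 16962968) (l 16941760)) (l 16580616)) (a (l 16715600) (l 16696904))) (c (l 17232248) (l 16573400))) (b (c (a (l 16966680) (l 16795728)) (l 16545512)) (c (l 17161920) (l 16498984)))) (a (l 17171072) (l 17029080))) (b (l 17327448) (l 17405696))) (b (b (b (a (b (c (a (l 16723416) (l 16586696)) (l 16563552)) (c (l 16824568) (l 16536536))) (c (b (a (l 16589816) (l 16609152)) (l 16595056)) (a (l 16571544) (l 16614624)))) (a (c (l 17017760) (l 16548560)) (b (l 16625416) (l 16600136)))) (a (b (l 16915216) (l 17071296)) (b (l 16717592) (l 16910776)))) (b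 (a (l 17209560) (l 17077360)) (l 17225296)))) (a (b (l 17418960) (l 17353816)) (b (l 17059368) (l 17143008)))) (b (b (a (l 17263952) (l 17048688)) (a (l 17187520) (l 4))) (l 4))), by decide +kernel⟩

def k1_mm_202 : ∃ t, chk3 f_mm_202 t 3 1 1 = true :=
  ⟨(b (b (a (b (a (b (c (b (b (a (b (l 16629296) (l 16627456)) (a (l 16642472) (l 16662224))) (l 16676568)) (l 16650680)) (b (b (a (l 16616832) (l 16658392)) (l 16645680)) (l 16641768))) (b (l 16661696) (l 16684152))) (b (b (a (b (c (b (a (l 16661560) (l 16670552)) (l 16664896)) (b (l 16678640) (l 16656840))) (c (l 16663072) (l 16655592))) (b (c (b (a (c (l 16681344) (l 16677592)) (c (l 16690080) (l 16686672))) (l 16682976)) (b (a (l 16672040) (l 16681608)) (l 16676304))) (c (l 16681520) (l 16675448)))) (a (c (l 16659520) (l 16653136)) (b (l 16677008) (l 16675600)))) (b (a (l 16652648) (l 16673496)) (l 16702232)))) (b (a (l 16905440) (l 16775568)) (a (l 17022640) (l 16865600)))) (b (a (b (b (a (b (c (b (a (c (l 16698928) (l 16695848))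 (b (c (l 16708216) (l 16705424)) (l 16706464))) (a (l 16696584) (l 16705920))) (b (a (b (l 16691384) (l 16691200)) (a (l 16698688) (l 16714200))) (l 16716896))) (c (l 16721064) (l 16716384))) (b (a (b (l 6) (b (l 6) (l 16723784))) (l 6)) (a (c (l 16714584) (l 16710976)) (b (l 6) (l 16723096))))) (a (b (l 16717664) (l 16716656)) (b (c (l 16739360) (l 16737048)) (l 16737504)))) (a (b (l 16715120) (l 16695312)) (b (l 16762144) (l 16759016)))) (b (a (b (l 6) (a (c (l 16755976) (l 16755296)) (l 6))) (l 6)) (a (a (b (l 16751136) (l 4)) (l 4)) (l 4)))) (a (b (b (l 16865232) (l 4)) (l 4)) (l 4)))) (a (b (a (l 17027328) (l 4)) (l 4)) (l 4))) (l 4)), by decide +kernel⟩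

theorem s2_mm_202 : ∃ t, chk3 f_mm_202 t 1 1 1 = true := ex3_a k0_mm_202 k1_mm_202

theorem c_mm_202 : CertN 0 536870912 0 536870912 134217728 67108864 3 true false false .pp 2 0 2
    ndN0q2 ndN1q0 pcN2 cut_mm_202 Ext.none :=
  certN0 (fam := true) (s1 := false) (s2 := false) (a := 2) (b := 0) (c := 2) (cn := .pp) (n1 := ndN0q2) (n2 := ndN1q0) (pc := pcN2) (cut := cut_mm_202) (xt := Ext.none) (P1 := 0) (W1 := 536870912) (P2 := 0) (W2 := 536870912) (P3 := 134217728) (W3 := 67108864) (N0 := 3)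
    rfl s2_mm_202

noncomputable def f_mm_203 : ℕ → ℕ → ℕ → ℕ → Bool := onCell 0 536870912 0 536870912 134217728 67108864
    (rowN 3 0 true false false .up 2 0 3 (qsf 0 536870912 0 536870912 3) ndN0q2 ndN1q0 pcN3 Cut.none Ext.none)

def k0_mm_203 : ∃ t, chk3 f_mm_203 t 1 1 1 = true :=
  ⟨(b (l 1) (a (b (b (l 1) (a (l 17192248) (l 4))) (l 4)) (l 4))), by decide +kernel⟩

theorem c_mm_203 : CertN 0 536870912 0 536870912 134217728 67108864 3 true false false .up 2 0 3
    ndN0q2 ndN1q0 pcN3 Cut.none Ext.none :=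
  certN0 (fam := true) (s1 := false) (s2 := false) (a := 2) (b := 0) (c := 3) (cn := .up) (n1 := ndN0q2) (n2 := ndN1q0) (pc := pcN3) (cut := Cut.none) (xt := Ext.none) (P1 := 0) (W1 := 536870912) (P2 := 0) (W2 := 536870912) (P3 := 134217728) (W3 := 67108864) (N0 := 3)
    rfl k0_mm_203

noncomputable def f_mm_213 : ℕ → ℕ → ℕ → ℕ → Bool := onCell 0 536870912 536870912 536870912 134217728 67108864
    (rowN 3 0 true false false .pnn 2 1 3 (qsf 0 536870912 536870912 536870912 3) ndN0q2 ndN1q1 pcN3 Cut.none Ext.none)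

def k0_mm_213 : ∃ t, chk3 f_mm_213 t 1 1 1 = true :=
  ⟨(l 4), by decide +kernel⟩

theorem c_mm_213 : CertN 0 536870912 536870912 536870912 134217728 67108864 3 true false false .pnn 2 1 3
    ndN0q2 ndN1q1 pcN3 Cut.none Ext.none :=
  certN0 (fam := true) (s1 := false) (s2 := false) (a := 2) (b := 1) (c := 3) (cn := .pnn) (n1 := ndN0q2) (n2 := ndN1q1) (pc := pcN3) (cut := Cut.none) (xt := Ext.none) (P1 := 0) (W1 := 536870912) (P2 := 536870912) (W2 := 536870912) (P3 := 134217728) (W3 := 67108864) (N0 := 3)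
    rfl k0_mm_213

end Pool.Agent.Strip051.G.I1_8_3_16.Tab.C.NA01

namespace Pool.Agent.Strip051.G.I1_8_3_16.Tab.C.NA02

open Pool.Agent.Strip051.PB Pool.Agent.Strip051.PB.T
open Pool.Agent.Strip051.G.I1_8_3_16.Tab

noncomputable def f_pp_001 : ℕ → ℕ → ℕ → ℕ → Bool := onCell 0 536870912 0 536870912 134217728 67108864
    (rowN 3 0 true true true .up 0 0 1 (qsf 0 536870912 0 536870912 1) ndN0q0 ndN2q0 pcN1 Cut.none Ext.none)

def k0_pp_001 : ∃ t, chk3 f_pp_001 t 1 1 1 = true :=
  ⟨(l 4), by decide +kernel⟩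

theorem c_pp_001 : CertN 0 536870912 0 536870912 134217728 67108864 3 true true true .up 0 0 1
    ndN0q0 ndN2q0 pcN1 Cut.none Ext.none :=
  certN0 (fam := true) (s1 := true) (s2 := true) (a := 0) (b := 0) (c := 1) (cn := .up) (n1 := ndN0q0) (n2 := ndN2q0) (pc := pcN1) (cut := Cut.none) (xt := Ext.none) (P1 := 0) (W1 := 536870912) (P2 := 0) (W2 := 536870912) (P3 := 134217728) (W3 := 67108864) (N0 := 3)
    rfl k0_pp_001

noncomputable def f_pp_011 : ℕ → ℕ → ℕ → ℕ → Bool := onCell 0 536870912 536870912 536870912 134217728 67108864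
    (rowN 3 0 true true true .pnn 0 1 1 (qsf 0 536870912 536870912 536870912 1) ndN0q0 ndN2q1 pcN1 Cut.none Ext.none)

def k0_pp_011 : ∃ t, chk3 f_pp_011 t 1 1 1 = true :=
  ⟨(l 4), by decide +kernel⟩

theorem c_pp_011 : CertN 0 536870912 536870912 536870912 134217728 67108864 3 true true true .pnn 0 1 1
    ndN0q0 ndN2q1 pcN1 Cut.none Ext.none :=
  certN0 (fam := true) (s1 := true) (s2 := true) (a := 0) (b := 1) (c := 1) (cn := .pnn) (n1 := ndN0q0) (n2 := ndN2q1) (pc := pcN1) (cut := Cut.none) (xt := Ext.none) (P1 := 0) (W1 := 536870912) (P2 := 536870912) (W2 := 536870912) (P3 := 134217728) (W3 := 67108864) (N0 := 3)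
    rfl k0_pp_011

noncomputable def f_pp_012 : ℕ → ℕ → ℕ → ℕ → Bool := onCell 0 536870912 536870912 536870912 134217728 67108864
    (rowN 3 0 true true true .pnp 0 1 2 (qsf 0 536870912 536870912 536870912 2) ndN0q0 ndN2q1 pcN2 Cut.none Ext.none)

def k0_pp_012 : ∃ t, chk3 f_pp_012 t 1 1 1 = true :=
  ⟨(l 4), by decide +kernel⟩

theorem c_pp_012 : CertN 0 536870912 536870912 536870912 134217728 67108864 3 true true true .pnp 0 1 2
    ndN0q0 ndN2q1 pcN2 Cut.none Ext.none :=
  certN0 (fam := true) (s1 := true) (s2 := true) (a := 0) (b := 1) (c := 2) (cn := .pnp) (n1 := ndN0q0) (n2 := ndN2q1) (pc := pcN2) (cut := Cut.none) (xt := Ext.none) (P1 := 0) (W1 := 536870912) (P2 := 536870912) (W2 := 536870912) (P3 := 134217728) (W3 := 67108864) (N0 := 3)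
    rfl k0_pp_012

noncomputable def cut_pp_022_a : Cut := Cut.of [[⟨0, 0, 0, 67108864⟩, ⟨1, 1, 0, 67108864⟩, ⟨2, 1, 0, 67108864⟩]]

noncomputable def f_pp_022_a : ℕ → ℕ → ℕ → ℕ → Bool := onCell 0 536870912 0 536870912 134217728 67108864
    (rowN 3 0 true true true .pp 0 2 2 (qsf 0 536870912 0 536870912 2) ndN0q0 ndN2q2a pcN2 cut_pp_022_a Ext.none)

def k0_pp_022_a : ∃ t, chk3 f_pp_022_a t 1 1 1 = true :=
  ⟨(a (a (b (l 4) (b (l 4) (a (b (l 4) (a (b (l 4) (l 6)) (l 4))) (l 4)))) (l 4)) (l 4)), by decide +kernel⟩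

theorem c_pp_022_a : CertN 0 536870912 0 536870912 134217728 67108864 3 true true true .pp 0 2 2
    ndN0q0 ndN2q2a pcN2 cut_pp_022_a Ext.none :=
  certN0 (fam := true) (s1 := true) (s2 := true) (a := 0) (b := 2) (c := 2) (cn := .pp) (n1 := ndN0q0) (n2 := ndN2q2a) (pc := pcN2) (cut := cut_pp_022_a) (xt := Ext.none) (P1 := 0) (W1 := 536870912) (P2 := 0) (W2 := 536870912) (P3 := 134217728) (W3 := 67108864) (N0 := 3)
    rfl k0_pp_022_a

noncomputable def cut_pp_022_b : Cut := Cut.of [[⟨0, 0, 0, 67108864⟩, ⟨1, 1, 0, 67108864⟩, ⟨2, 1, 0, 67108864⟩]]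

noncomputable def f_pp_022_b : ℕ → ℕ → ℕ → ℕ → Bool := onCell 0 536870912 1239849684 370763052 134217728 67108864
    (rowN 3 0 true true true .pp 0 2 2 (qsf 0 536870912 1239849684 370763052 2) ndN0q0 ndN2q2b pcN2 cut_pp_022_b Ext.none)

def k0_pp_022_b : ∃ t, chk3 f_pp_022_b t 1 1 1 = true :=
  ⟨(a (b (l 4) (l 4)) (l 4)), by decide +kernel⟩

theorem c_pp_022_b : CertN 0 536870912 1239849684 370763052 134217728 67108864 3 true true true .pp 0 2 2
    ndN0q0 ndN2q2b pcN2 cut_pp_022_b Ext.none :=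
  certN0 (fam := true) (s1 := true) (s2 := true) (a := 0) (b := 2) (c := 2) (cn := .pp) (n1 := ndN0q0) (n2 := ndN2q2b) (pc := pcN2) (cut := cut_pp_022_b) (xt := Ext.none) (P1 := 0) (W1 := 536870912) (P2 := 1239849684) (W2 := 370763052) (P3 := 134217728) (W3 := 67108864) (N0 := 3)
    rfl k0_pp_022_b

noncomputable def f_pp_023_a : ℕ → ℕ → ℕ → ℕ → Bool := onCell 1610612736 536870912 0 536870912 134217728 67108864
    (rowN 3 2 true true true .up 0 2 3 (qsf 0 536870912 0 536870912 3) ndN0q0 ndN2q2a pcN3 Cut.none Ext.none)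

def k0_pp_023_a : ∃ t, chk3 f_pp_023_a t 1 1 1 = true :=
  ⟨(l 4), by decide +kernel⟩

theorem c_pp_023_a : CertN 0 536870912 0 536870912 134217728 67108864 3 true true true .up 0 2 3
    ndN0q0 ndN2q2a pcN3 Cut.none Ext.none :=
  certN2 (fam := true) (s1 := true) (s2 := true) (a := 0) (b := 2) (c := 3) (cn := .up) (n1 := ndN0q0) (n2 := ndN2q2a) (pc := pcN3) (cut := Cut.none) (xt := Ext.none) (P1 := 0) (W1 := 536870912) (P2 := 0) (W2 := 536870912) (P3 := 134217728) (W3 := 67108864) (N0 := 3)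
    rfl (fun _ => rfl) k0_pp_023_a

noncomputable def f_pp_023_b : ℕ → ℕ → ℕ → ℕ → Bool := onCell 1610612736 536870912 1239849684 370763052 134217728 67108864
    (rowN 3 2 true true true .up 0 2 3 (qsf 0 536870912 1239849684 370763052 3) ndN0q0 ndN2q2b pcN3 Cut.none Ext.none)

def k0_pp_023_b : ∃ t, chk3 f_pp_023_b t 1 1 1 = true :=
  ⟨(l 4), by decide +kernel⟩

theorem c_pp_023_b : CertN 0 536870912 1239849684 370763052 134217728 67108864 3 true true true .up 0 2 3
    ndN0q0 ndN2q2b pcN3 Cut.none Ext.none :=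
  certN2 (fam := true) (s1 := true) (s2 := true) (a := 0) (b := 2) (c := 3) (cn := .up) (n1 := ndN0q0) (n2 := ndN2q2b) (pc := pcN3) (cut := Cut.none) (xt := Ext.none) (P1 := 0) (W1 := 536870912) (P2 := 1239849684) (W2 := 370763052) (P3 := 134217728) (W3 := 67108864) (N0 := 3)
    rfl (fun _ => rfl) k0_pp_023_b

noncomputable def f_pp_033 : ℕ → ℕ → ℕ → ℕ → Bool := onCell 0 536870912 1610612736 536870912 134217728 67108864
    (rowN 3 0 true true true .pnn 0 3 3 (qsf 0 536870912 1610612736 536870912 3) ndN0q0 ndN2q3 pcN3 Cut.none Ext.none)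

def k0_pp_033 : ∃ t, chk3 f_pp_033 t 1 1 1 = true :=
  ⟨(l 4), by decide +kernel⟩

theorem c_pp_033 : CertN 0 536870912 1610612736 536870912 134217728 67108864 3 true true true .pnn 0 3 3
    ndN0q0 ndN2q3 pcN3 Cut.none Ext.none :=
  certN0 (fam := true) (s1 := true) (s2 := true) (a := 0) (b := 3) (c := 3) (cn := .pnn) (n1 := ndN0q0) (n2 := ndN2q3) (pc := pcN3) (cut := Cut.none) (xt := Ext.none) (P1 := 0) (W1 := 536870912) (P2 := 1610612736) (W2 := 536870912) (P3 := 134217728) (W3 := 67108864) (N0 := 3)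
    rfl k0_pp_033

noncomputable def f_pp_101 : ℕ → ℕ → ℕ → ℕ → Bool := onCell 536870912 536870912 0 536870912 134217728 67108864
    (rowN 3 0 true true true .npn 1 0 1 (qsf 536870912 536870912 0 536870912 1) ndN0q1 ndN2q0 pcN1 Cut.none Ext.none)

def k0_pp_101 : ∃ t, chk3 f_pp_101 t 1 1 1 = true :=
  ⟨(l 5), by decide +kernel⟩

theorem c_pp_101 : CertN 536870912 536870912 0 536870912 134217728 67108864 3 true true true .npn 1 0 1
    ndN0q1 ndN2q0 pcN1 Cut.none Ext.none :=
  certN0 (fam := true) (s1 := true) (s2 := true) (a := 1) (b := 0) (c := 1) (cn := .npn) (n1 := ndN0q1) (n2 := ndN2q0) (pc := pcN1) (cut := Cut.none) (xt := Ext.none) (P1 := 536870912) (W1 := 536870912) (P2 := 0) (W2 := 536870912) (P3 := 134217728) (W3 := 67108864) (N0 := 3)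
    rfl k0_pp_101

noncomputable def f_pp_102 : ℕ → ℕ → ℕ → ℕ → Bool := onCell 536870912 536870912 0 536870912 134217728 67108864
    (rowN 3 0 true true true .npp 1 0 2 (qsf 536870912 536870912 0 536870912 2) ndN0q1 ndN2q0 pcN2 Cut.none Ext.none)

def k0_pp_102 : ∃ t, chk3 f_pp_102 t 1 1 1 = true :=
  ⟨(l 5), by decide +kernel⟩

theorem c_pp_102 : CertN 536870912 536870912 0 536870912 134217728 67108864 3 true true true .npp 1 0 2
    ndN0q1 ndN2q0 pcN2 Cut.none Ext.none :=
  certN0 (fam := true) (s1 := true) (s2 := true) (a := 1) (b := 0) (c := 2) (cn := .npp) (n1 := ndN0q1) (n2 := ndN2q0) (pc := pcN2) (cut := Cut.none) (xt := Ext.none) (P1 := 536870912) (W1 := 536870912) (P2 := 0) (W2 := 536870912) (P3 := 134217728) (W3 := 67108864) (N0 := 3)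
    rfl k0_pp_102

noncomputable def f_pp_112 : ℕ → ℕ → ℕ → ℕ → Bool := onCell 536870912 536870912 536870912 536870912 134217728 67108864
    (rowN 3 0 true true true .dn 1 1 2 (qsf 536870912 536870912 536870912 536870912 2) ndN0q1 ndN2q1 pcN2 Cut.none Ext.none)

def k0_pp_112 : ∃ t, chk3 f_pp_112 t 1 1 1 = true :=
  ⟨(l 4), by decide +kernel⟩

theorem c_pp_112 : CertN 536870912 536870912 536870912 536870912 134217728 67108864 3 true true true .dn 1 1 2
    ndN0q1 ndN2q1 pcN2 Cut.none Ext.none :=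
  certN0 (fam := true) (s1 := true) (s2 := true) (a := 1) (b := 1) (c := 2) (cn := .dn) (n1 := ndN0q1) (n2 := ndN2q1) (pc := pcN2) (cut := Cut.none) (xt := Ext.none) (P1 := 536870912) (W1 := 536870912) (P2 := 536870912) (W2 := 536870912) (P3 := 134217728) (W3 := 67108864) (N0 := 3)
    rfl k0_pp_112

noncomputable def f_pp_113 : ℕ → ℕ → ℕ → ℕ → Bool := onCell 536870912 536870912 536870912 536870912 134217728 67108864
    (rowN 3 0 true true true .nn 1 1 3 (qsf 536870912 536870912 536870912 536870912 3) ndN0q1 ndN2q1 pcN3 Cut.none Ext.none)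

def k0_pp_113 : ∃ t, chk3 f_pp_113 t 1 1 1 = true :=
  ⟨(l 4), by decide +kernel⟩

theorem c_pp_113 : CertN 536870912 536870912 536870912 536870912 134217728 67108864 3 true true true .nn 1 1 3
    ndN0q1 ndN2q1 pcN3 Cut.none Ext.none :=
  certN0 (fam := true) (s1 := true) (s2 := true) (a := 1) (b := 1) (c := 3) (cn := .nn) (n1 := ndN0q1) (n2 := ndN2q1) (pc := pcN3) (cut := Cut.none) (xt := Ext.none) (P1 := 536870912) (W1 := 536870912) (P2 := 536870912) (W2 := 536870912) (P3 := 134217728) (W3 := 67108864) (N0 := 3)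
    rfl k0_pp_113

noncomputable def f_pp_123_a : ℕ → ℕ → ℕ → ℕ → Bool := onCell 536870912 536870912 0 536870912 134217728 67108864
    (rowN 3 0 true true true .npn 1 2 3 (qsf 536870912 536870912 0 536870912 3) ndN0q1 ndN2q2a pcN3 Cut.none Ext.none)

def k0_pp_123_a : ∃ t, chk3 f_pp_123_a t 1 1 1 = true :=
  ⟨(l 4), by decide +kernel⟩

theorem c_pp_123_a : CertN 536870912 536870912 0 536870912 134217728 67108864 3 true true true .npn 1 2 3
    ndN0q1 ndN2q2a pcN3 Cut.none Ext.none :=
  certN0 (fam := true) (s1 := true) (s2 := true) (a := 1) (b := 2) (c := 3) (cn := .npn) (n1 := ndN0q1) (n2 := ndN2q2a) (pc := pcN3) (cut := Cut.none) (xt := Ext.none) (P1 := 536870912) (W1 := 536870912) (P2 := 0) (W2 := 536870912) (P3 := 134217728) (W3 := 67108864) (N0 := 3)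
    rfl k0_pp_123_a

noncomputable def f_pp_123_b : ℕ → ℕ → ℕ → ℕ → Bool := onCell 536870912 536870912 1239849684 370763052 134217728 67108864
    (rowN 3 0 true true true .npn 1 2 3 (qsf 536870912 536870912 1239849684 370763052 3) ndN0q1 ndN2q2b pcN3 Cut.none Ext.none)

def k0_pp_123_b : ∃ t, chk3 f_pp_123_b t 1 1 1 = true :=
  ⟨(l 4), by decide +kernel⟩

theorem c_pp_123_b : CertN 536870912 536870912 1239849684 370763052 134217728 67108864 3 true true true .npn 1 2 3
    ndN0q1 ndN2q2b pcN3 Cut.none Ext.none :=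
  certN0 (fam := true) (s1 := true) (s2 := true) (a := 1) (b := 2) (c := 3) (cn := .npn) (n1 := ndN0q1) (n2 := ndN2q2b) (pc := pcN3) (cut := Cut.none) (xt := Ext.none) (P1 := 536870912) (W1 := 536870912) (P2 := 1239849684) (W2 := 370763052) (P3 := 134217728) (W3 := 67108864) (N0 := 3)
    rfl k0_pp_123_b

noncomputable def f_pp_133 : ℕ → ℕ → ℕ → ℕ → Bool := onCell 536870912 536870912 1610612736 536870912 134217728 67108864
    (rowN 3 0 true true true .dn 1 3 3 (qsf 536870912 536870912 1610612736 536870912 3) ndN0q1 ndN2q3 pcN3 Cut.none Ext.none)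

def k0_pp_133 : ∃ t, chk3 f_pp_133 t 1 1 1 = true :=
  ⟨(l 4), by decide +kernel⟩

theorem c_pp_133 : CertN 536870912 536870912 1610612736 536870912 134217728 67108864 3 true true true .dn 1 3 3
    ndN0q1 ndN2q3 pcN3 Cut.none Ext.none :=
  certN0 (fam := true) (s1 := true) (s2 := true) (a := 1) (b := 3) (c := 3) (cn := .dn) (n1 := ndN0q1) (n2 := ndN2q3) (pc := pcN3) (cut := Cut.none) (xt := Ext.none) (P1 := 536870912) (W1 := 536870912) (P2 := 1610612736) (W2 := 536870912) (P3 := 134217728) (W3 := 67108864) (N0 := 3)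
    rfl k0_pp_133

noncomputable def f_pp_202 : ℕ → ℕ → ℕ → ℕ → Bool := onCell 0 536870912 0 536870912 134217728 67108864
    (rowN 3 0 true true true .pp 2 0 2 (qsf 0 536870912 0 536870912 2) ndN0q2 ndN2q0 pcN2 Cut.none Ext.none)

def k0_pp_202 : ∃ t, chk3 f_pp_202 t 1 1 1 = true :=
  ⟨(l 5), by decide +kernel⟩

theorem c_pp_202 : CertN 0 536870912 0 536870912 134217728 67108864 3 true true true .pp 2 0 2
    ndN0q2 ndN2q0 pcN2 Cut.none Ext.none :=
  certN0 (fam := true) (s1 := true) (s2 := true) (a := 2) (b := 0) (c := 2) (cn := .pp) (n1 := ndN0q2) (n2 := ndN2q0) (pc := pcN2) (cut := Cut.none) (xt := Ext.none) (P1 := 0) (W1 := 536870912) (P2 := 0) (W2 := 536870912) (P3 := 134217728) (W3 := 67108864) (N0 := 3)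
    rfl k0_pp_202

noncomputable def f_pp_203 : ℕ → ℕ → ℕ → ℕ → Bool := onCell 0 536870912 0 536870912 134217728 67108864
    (rowN 3 0 true true true .up 2 0 3 (qsf 0 536870912 0 536870912 3) ndN0q2 ndN2q0 pcN3 Cut.none Ext.none)

def k0_pp_203 : ∃ t, chk3 f_pp_203 t 1 1 1 = true :=
  ⟨(l 5), by decide +kernel⟩

theorem c_pp_203 : CertN 0 536870912 0 536870912 134217728 67108864 3 true true true .up 2 0 3
    ndN0q2 ndN2q0 pcN3 Cut.none Ext.none :=
  certN0 (fam := true) (s1 := true) (s2 := true) (a := 2) (b := 0) (c := 3) (cn := .up) (n1 := ndN0q2) (n2 := ndN2q0) (pc := pcN3) (cut := Cut.none) (xt := Ext.none) (P1 := 0) (W1 := 536870912) (P2 := 0) (W2 := 536870912) (P3 := 134217728) (W3 := 67108864) (N0 := 3)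
    rfl k0_pp_203

noncomputable def f_pp_213 : ℕ → ℕ → ℕ → ℕ → Bool := onCell 0 536870912 536870912 536870912 134217728 67108864
    (rowN 3 0 true true true .pnn 2 1 3 (qsf 0 536870912 536870912 536870912 3) ndN0q2 ndN2q1 pcN3 Cut.none Ext.none)

def k0_pp_213 : ∃ t, chk3 f_pp_213 t 1 1 1 = true :=
  ⟨(l 4), by decide +kernel⟩

theorem c_pp_213 : CertN 0 536870912 536870912 536870912 134217728 67108864 3 true true true .pnn 2 1 3
    ndN0q2 ndN2q1 pcN3 Cut.none Ext.none :=
  certN0 (fam := true) (s1 := true) (s2 := true) (a := 2) (b := 1) (c := 3) (cn := .pnn) (n1 := ndN0q2) (n2 := ndN2q1) (pc := pcN3) (cut := Cut.none) (xt := Ext.none) (P1 := 0) (W1 := 536870912) (P2 := 536870912) (W2 := 536870912) (P3 := 134217728) (W3 := 67108864) (N0 := 3)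
    rfl k0_pp_213

noncomputable def f_pm_001 : ℕ → ℕ → ℕ → ℕ → Bool := onCell 0 536870912 536870912 536870912 134217728 67108864
    (rowN 3 1 true true false .up 0 0 1 (qsf 0 536870912 0 536870912 1) ndN0q0 ndN2q0 pcN1 Cut.none Ext.none)

def k0_pm_001 : ∃ t, chk3 f_pm_001 t 1 1 1 = true :=
  ⟨(b (l 3) (l 3)), by decide +kernel⟩

theorem c_pm_001 : CertN 0 536870912 0 536870912 134217728 67108864 3 true true false .up 0 0 1
    ndN0q0 ndN2q0 pcN1 Cut.none Ext.none :=
  certN1 (fam := true) (s1 := true) (s2 := false) (a := 0) (b := 0) (c := 1) (cn := .up) (n1 := ndN0q0) (n2 := ndN2q0) (pc := pcN1) (cut := Cut.none) (xt := Ext.none) (P1 := 0) (W1 := 536870912) (P2 := 0) (W2 := 536870912) (P3 := 134217728) (W3 := 67108864) (N0 := 3)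
    rfl (fun _ => rfl) k0_pm_001

noncomputable def f_pm_011 : ℕ → ℕ → ℕ → ℕ → Bool := onCell 0 536870912 536870912 536870912 134217728 67108864
    (rowN 3 1 true true false .pnn 0 1 1 (qsf 0 536870912 536870912 536870912 1) ndN0q0 ndN2q1 pcN1 Cut.none Ext.none)

def k0_pm_011 : ∃ t, chk3 f_pm_011 t 1 1 1 = true :=
  ⟨(b (l 3) (l 3)), by decide +kernel⟩

theorem c_pm_011 : CertN 0 536870912 536870912 536870912 134217728 67108864 3 true true false .pnn 0 1 1
    ndN0q0 ndN2q1 pcN1 Cut.none Ext.none :=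
  certN1 (fam := true) (s1 := true) (s2 := false) (a := 0) (b := 1) (c := 1) (cn := .pnn) (n1 := ndN0q0) (n2 := ndN2q1) (pc := pcN1) (cut := Cut.none) (xt := Ext.none) (P1 := 0) (W1 := 536870912) (P2 := 536870912) (W2 := 536870912) (P3 := 134217728) (W3 := 67108864) (N0 := 3)
    rfl (fun _ => rfl) k0_pm_011

noncomputable def f_pm_012 : ℕ → ℕ → ℕ → ℕ → Bool := onCell 1073741824 536870912 536870912 536870912 134217728 67108864
    (rowN 3 2 true true false .pnp 0 1 2 (qsf 0 536870912 536870912 536870912 2) ndN0q0 ndN2q1 pcN2 Cut.none Ext.none)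

def k0_pm_012 : ∃ t, chk3 f_pm_012 t 2 2 1 = true :=
  ⟨(a (b (a (b (a (l 118818100695) (l 17687928)) (a (l 115059893223) (c (l 17712456) (l 17599896)))) (a (a (l 17787160) (l 17861864)) (b (l 2) (l 17800808)))) (a (a (b (l 3) (l 3)) (b (a (l 17605360) (l 17656376)) (c (l 115060172071) (a (l 17474112) (l 17529776))))) (a (b (l 17727520) (a (l 17679304) (l 17734040))) (b (l 17807856) (a (l 17786504) (l 17836192)))))) (a (b (a (a (l 17842960) (l 2)) (l 2)) (a (a (l 17937856) (b (l 17899680) (l 17928992))) (l 17964552))) (b (l 2) (a (l 18019960) (l 18060920))))), by decide +kernel⟩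

def k1_pm_012 : ∃ t, chk3 f_pm_012 t 4 6 1 = true :=
  ⟨(a (a (l 3) (b (c (a (b (l 17585776) (l 17520496)) (l 17645664)) (a (b (l 17380528) (a (l 3) (l 17296568))) (b (l 17451848) (l 17354840)))) (b (c (a (l 71572544439) (l 17518552)) (a (a (l 3) (l 54391919703)) (b (l 17242920) (l 17140040)))) (c (a (a (l 3) (l 371682862551)) (b (l 17396440) (a (l 17241872) (l 17316136)))) (a (a (l 3) (l 198273180423)) (a (l 16766016) (l 16749272))))))) (b (a (c (a (l 17725888) (l 17801936)) (a (b (l 17520104) (l 17435848)) (l 17556816))) (c (l 17908200) (l 17664464))) (a (c (a (b (l 17624808) (l 17333408)) (b (l 17728232) (l 17615472))) (b (a (l 17296664) (l 17400512)) (a (b (l 17133656) (l 16983008)) (l 17120168)))) (b (c (l 17872120) (l 17551320)) (c (l 17801792) (a (l 17339872) (l 17469376))))))), by decide +kernel⟩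

def k2_pm_012 : ∃ t, chk3 f_pm_012 t 8 7 1 = true :=
  ⟨(b (a (l 3) (a (l 3) (b (c (b (a (l 16970600) (l 17163768)) (a (l 16783784) (l 16913224))) (b (a (l 16724472) (l 16694384)) (a (l 16710096) (l 16680272)))) (c (b (a (c (l 16741664) (l 16722664)) (l 16702320)) (a (c (l 16722808) (l 16705600)) (c (l 16693416) (l 16676320)))) (b (a (c (l 16704448) (l 16687000)) (l 16666112)) (a (b (l 16684792) (l 16698568)) (c (l 16659960) (l 16644336)))))))) (a (l 3) (b (a (l 3) (b (c (a (c (l 17347549911) (b (l 16692848) (l 16684368))) (c (l 16675088) (l 16659816))) (a (b (l 10905029607) (c (l 16670160) (l 16656656))) (b (l 16641592) (l 16655720)))) (a (a (l 3) (c (c (l 16699904) (l 16686448)) (b (l 16650064) (l 16643040)))) (c (b (c (l 16661320) (l 16647464)) (c (l 16652224) (l 16639328))) (b (l 16648904) (l 16642176)))))) (a (l 3) (a (l 3) (b (b (c (c (l 16664296) (l 16652360)) (l 16656600)) (c (c (l 16655776) (l 16644768)) (a (l 16637272) (l 16621560)))) (c (b (c (l 16657960) (l 16637392))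 (b (a (l 16644224) (l 16628784)) (a (l 16640184) (l 16624936)))) (b (b (l 16645864) (l 16642856)) (l 16629800))))))))), by decide +kernel⟩

def k3_pm_012 : ∃ t, chk3 f_pm_012 t 9 14 1 = true :=
  ⟨(a (a (b (c (b (l 17275784) (a (l 17063616) (l 17170560))) (b (l 16785928) (l 16655624))) (c (b (c (l 17041000) (l 16697632)) (c (l 16685304) (l 16651240))) (b (a (l 16635648) (l 16605008)) (a (l 16621448) (l 16590672))))) (b (c (b (l 17468936) (l 17325552)) (b (l 16970672) (l 16752888))) (c (b (a (l 17066064) (l 17190248)) (a (l 16775912) (l 16934016))) (b (l 16579160) (l 16585560))))) (b (c (a (l 17578104) (l 17738904)) (a (b (l 17147640) (l 16968992)) (l 17246344))) (c (a (b (l 17365264) (l 16986592)) (b (l 17577760) (l 17417496))) (a (b (l 16733592) (l 16498568)) (b (l 16979664) (l 16728992)))))), by decide +kernel⟩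

def k4_pm_012 : ∃ t, chk3 f_pm_012 t 9 15 1 = true :=
  ⟨(a (a (b (c (b (a (c (l 16644136) (l 16628928)) (l 16626416)) (a (b (l 16644184) (l 16635440)) (b (l 16592048) (l 16604152)))) (a (b (l 16628384) (b (l 16617904) (l 16611040))) (b (l 16597416) (l 16604288)))) (a (b (c (b (l 16637272) (c (l 16623904) (l 16612992))) (b (l 16604288) (l 16618728))) (c (b (c (l 16615432) (l 16605456)) (b (l 16625536) (c (l 16605168) (l 16600336)))) (b (l 16612560) (l 16612584)))) (b (c (b (l 16595360) (l 16607624)) (b (l 16572856) (l 16587040))) (c (b (l 16592616) (l 16585488)) (b (l 16573240) (l 16600640)))))) (c (b (a (b (l 16595288) (l 16598272)) (b (l 16573336) (l 16566432))) (b (b (a (l 16563816) (l 16531936)) (c (l 16565720) (l 16554712))) (a (b (l 16567184) (l 16569920)) (b (l 16531968) (l 16555752))))) (b (b (a (l 16566240) (l 16534616)) (a (l 16572872) (l 16540952))) (b (a (l 16548296) (l 16529424)) (b (l 16572448) (c (l 16576360) (l 16581120))))))) (a (b (c (b (c (l 17073832) (l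 16645040)) (a (l 16533216) (l 16559488))) (b (a (l 16501304) (l 16467224)) (l 16506752))) (b (b (c (l 16523776) (l 16491392)) (c (l 16510616) (l 16528616))) (c (b (a (l 16518504) (l 16507768)) (c (l 16538184) (l 16533120))) (b (l 16544832) (c (l 16537880) (l 16562968)))))) (b (c (b (l 16964224) (c (l 17116304) (l 16647592))) (b (l 16435856) (l 16467256))) (c (b (b (l 16563536) (l 16475624)) (b (l 16492736) (c (l 16486552) (l 16490792)))) (b (l 16498928) (b (l 16501464) (c (l 16494392) (l 16497344)))))))), by decide +kernel⟩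

def k5_pm_012 : ∃ t, chk3 f_pm_012 t 10 3 1 = true :=
  ⟨(b (a (b (a (l 17886360) (l 17952936)) (a (c (l 17989752) (l 17648808)) (c (l 18081056) (b (l 17783048) (l 17705632))))) (b (l 18030912) (c (l 18194952) (l 17882184)))) (b (a (b (c (l 17956088) (a (l 17413744) (l 17568944))) (c (a (l 17712336) (l 17897576)) (a (b (l 17201280) (l 17002640)) (b (l 17399928) (l 17137304))))) (b (c (l 18187744) (l 17769216)) (c (l 18129664) (b (l 17658088) (l 17552088))))) (b (a (c (a (b (l 17482240) (c (l 17464624) (l 17035552))) (b (l 17728128) (c (l 17754568) (l 17274672)))) (a (b (l 16739048) (l 16428336)) (b (a (l 16967144) (l 17084896)) (a (l 16674768) (a (l 16806880) (l 16890728)))))) (c (b (l 18034520) (l 17933376)) (b (l 17411464) (a (l 17084088) (l 17355856))))) (a (b (c (a (c (l 17008528) (l 16669320)) (a (c (l 17463840) (l 16992856)) (c (l 17633160) (l 16995144)))) (a (l 16458496) (a (l 16424552) (a (l 16449568) (l 16556848))))) (c (a (b (l 16482744) (c (l 16624024) (l 16471576)))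 (c (a (l 16930016) (a (l 17308096) (l 17413168))) (a (l 16580992) (a (l 16771936) (l 16744528))))) (a (b (l 16460024) (l 16495800)) (a (l 16474336) (a (l 16447304) (c (l 16444008) (l 16444144))))))) (c (b (c (l 17989880) (l 17566088)) (a (c (l 17648824) (b (l 17237736) (l 17073344))) (c (l 17967056) (l 17521304)))) (b (a (l 16591160) (l 16949816)) (b (a (l 16524992) (l 16865152)) (a (l 16437408) (l 16528064))))))))), by decide +kernel⟩

def k6_pm_012 : ∃ t, chk3 f_pm_012 t 11 3 1 = true :=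
  ⟨(b (b (l 18163120) (a (l 18181072) (l 18292032))) (b (a (c (l 18379792) (b (l 17993952) (l 17912112))) (c (l 18541320) (l 18163720))) (b (c (a (l 18331704) (l 18582888)) (a (b (l 17801928) (l 17694536)) (l 18073544))) (a (c (b (l 18244008) (c (l 18340872) (l 17949456))) (b (a (l 17423816) (l 17666896)) (a (c (l 17408792) (l 16952472)) (l 17247536)))) (c (l 18553776) (b (l 17967576) (a (l 17750232) (l 17963528)))))))), by decide +kernel⟩

def k7_pm_012 : ∃ t, chk3 f_pm_012 t 3 1 1 = true :=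
  ⟨(b (a (b (l 2) (a (l 18109528) (l 2))) (l 2)) (b (a (a (b (l 18278296) (l 18412840)) (l 18414640)) (b (l 2) (l 18524960))) (b (a (a (c (l 18707512) (l 18384232)) (l 18690880)) (l 18747848)) (a (a (c (b (l 18833968) (l 18897800)) (b (l 18409568) (a (l 18251344) (l 18492688)))) (c (l 19070432) (l 18701600))) (a (l 18990160) (l 19002072)))))), by decide +kernel⟩

theorem s8_pm_012 : ∃ t, chk3 f_pm_012 t 5 3 1 = true := ex3_a k5_pm_012 k6_pm_012

theorem s9_pm_012 : ∃ t, chk3 f_pm_012 t 9 7 1 = true := ex3_b k3_pm_012 k4_pm_012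

theorem s10_pm_012 : ∃ t, chk3 f_pm_012 t 4 7 1 = true := ex3_a k2_pm_012 s9_pm_012

theorem s11_pm_012 : ∃ t, chk3 f_pm_012 t 4 3 1 = true := ex3_b k1_pm_012 s10_pm_012

theorem s12_pm_012 : ∃ t, chk3 f_pm_012 t 2 3 1 = true := ex3_a s11_pm_012 s8_pm_012

theorem s13_pm_012 : ∃ t, chk3 f_pm_012 t 2 1 1 = true := ex3_b k0_pm_012 s12_pm_012

theorem s14_pm_012 : ∃ t, chk3 f_pm_012 t 1 1 1 = true := ex3_a s13_pm_012 k7_pm_012

theorem c_pm_012 : CertN 0 536870912 536870912 536870912 134217728 67108864 3 true true false .pnp 0 1 2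
    ndN0q0 ndN2q1 pcN2 Cut.none Ext.none :=
  certN2 (fam := true) (s1 := true) (s2 := false) (a := 0) (b := 1) (c := 2) (cn := .pnp) (n1 := ndN0q0) (n2 := ndN2q1) (pc := pcN2) (cut := Cut.none) (xt := Ext.none) (P1 := 0) (W1 := 536870912) (P2 := 536870912) (W2 := 536870912) (P3 := 134217728) (W3 := 67108864) (N0 := 3)
    rfl (fun _ => rfl) s14_pm_012

noncomputable def cut_pm_022_a : Cut := Cut.of [[⟨0, 0, 0, 67108864⟩, ⟨1, 1, 0, 67108864⟩, ⟨2, 1, 0, 67108864⟩], [⟨0, 0, 1, 41943040⟩, ⟨1, 1, 0, 16777216⟩, ⟨2, 1, 1, 41943040⟩]]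

noncomputable def f_pm_022_a : ℕ → ℕ → ℕ → ℕ → Bool := onCell 1073741824 536870912 0 536870912 134217728 67108864
    (rowN 3 2 true true false .pp 0 2 2 (qsf 0 536870912 0 536870912 2) ndN0q0 ndN2q2a pcN2 cut_pm_022_a Ext.none)

def k0_pm_022_a : ∃ t, chk3 f_pm_022_a t 4 2 1 = true :=
  ⟨(b (l 1) (a (l 1) (a (l 1) (a (l 1) (b (l 1) (b (l 1) (a (l 1) (c (c (l 16570248) (l 16567008)) (b (l 16561336) (l 16562984)))))))))), by decide +kernel⟩

def k1_pm_022_a : ∃ t, chk3 f_pm_022_a t 10 2 1 = true :=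
  ⟨(a (a (b (l 1) (b (a (l 1) (c (b (l 16544344) (a (l 16548000) (l 16543736))) (b (l 16535104) (l 16537368)))) (a (c (b (c (l 16558976) (l 16555120)) (c (l 16561184) (l 16557608))) (b (l 16570400) (l 16552336))) (c (b (l 16558560) (l 16560448)) (b (l 16539832) (l 16542360)))))) (b (a (b (l 1) (c (c (l 16875840) (l 16531416)) (l 16544560))) (a (b (l 1) (c (b (l 16774184) (l 16769984)) (l 16516736))) (c (b (a (c (l 17076056) (l 16652160)) (c (l 17114096) (l 16697560))) (a (b (l 16860360) (l 16854688)) (c (l 17102776) (l 16692224)))) (b (a (l 16511768) (l 16509528)) (a (l 16513144) (l 16531816)))))) (a (b (c (c (b (l 16868912) (l 16860416)) (l 16555088)) (b (l 16525880) (l 16527864))) (c (b (l 16614232) (l 16630256)) (b (l 16530008) (l 16532160)))) (b (a (c (b (l 16784640) (l 16777240)) (l 16519768)) (c (a (b (l 16847560) (l 16839232)) (b (l 16845496) (l 16878536))) (a (l 16516024) (l 16534592)))) (a (c (b (l 16769216) (l 16761080)) (l 16523528)) (c (a (b (l 16830080) (l 16820584))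 (b (l 16868680) (l 16858344))) (b (l 16559088) (l 16560784)))))))) (b (a (c (b (c (l 17264152) (l 16882232)) (a (l 16741520) (l 17126624))) (b (l 16523256) (l 16524056))) (c (b (l 17303608) (l 17291328)) (b (l 16635816) (l 16632472)))) (b (a (c (a (c (l 17165344) (l 16785712)) (l 17106416)) (l 16536568)) (c (l 17205112) (l 16627744))) (a (c (b (l 16816200) (l 16886232)) (b (l 16506832) (l 16528888))) (c (l 17067888) (l 16624000)))))), by decide +kernel⟩

def k2_pm_022_a : ∃ t, chk3 f_pm_022_a t 11 2 1 = true :=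
  ⟨(a (b (c (a (b (l 17472312) (l 17459208)) (l 17589736)) (a (b (l 16886368) (l 16880544)) (b (l 17078160) (l 17070880)))) (b (c (a (l 17433592) (l 17557472)) (a (l 16870488) (l 17057400))) (c (a (l 17397312) (l 17519424)) (a (l 16858408) (l 17039896))))) (b (c (l 17719912) (a (l 17221568) (l 17335752))) (c (b (l 17688576) (l 17650512)) (b (l 17263032) (l 17241288))))), by decide +kernel⟩

def k3_pm_022_a : ∃ t, chk3 f_pm_022_a t 8 6 1 = true :=
  ⟨(l 1), by decide +kernel⟩

def k4_pm_022_a : ∃ t, chk3 f_pm_022_a t 18 6 1 = true :=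
  ⟨(a (b (l 1) (b (l 1) (a (l 1) (c (c (b (l 16643520) (a (b (l 16647984) (l 16648952)) (l 16642496))) (b (l 16642656) (a (l 16647736) (l 16641728)))) (b (l 16641208) (a (b (l 16645896) (l 16647024)) (l 16640472))))))) (b (l 1) (b (a (a (l 1) (a (l 1) (c (c (l 16623968) (l 16622912)) (l 16621192)))) (c (b (a (l 1) (c (l 16614136) (l 16612816))) (a (c (l 16620976) (l 16619904)) (l 16620584))) (b (a (l 1) (l 16610728)) (a (l 16628664) (l 16612848))))) (a (c (a (b (c (l 16634536) (l 16633648)) (c (l 16636344) (l 16635584))) (b (c (l 16628568) (l 16627672)) (l 16640344))) (b (a (l 16632192) (l 16626216)) (c (l 16653440) (l 16652552)))) (c (b (c (l 16631128) (l 16630104)) (c (l 16643000) (l 16642152))) (b (c (l 16639528) (l 16638432)) (l 16635576))))))), by decide +kernel⟩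

def k5_pm_022_a : ∃ t, chk3 f_pm_022_a t 19 6 1 = true :=
  ⟨(a (b (b (a (l 1) (a (l 1) (c (l 16597832) (l 16582608)))) (b (a (l 1) (c (c (l 16594128) (l 16592016)) (l 16609776))) (a (c (c (l 16621480) (l 16614552)) (a (l 16603224) (l 16597944))) (c (c (l 16595672) (l 16593704)) (l 16601200))))) (b (c (a (b (c (l 16617928) (l 16616368)) (c (l 16629920) (l 16607536))) (c (l 16608176) (l 16606456))) (a (b (a (l 16605336) (l 16599936)) (l 16615848)) (b (l 16613464) (l 16615104)))) (c (a (b (c (l 16631192) (l 16629952)) (l 16626424)) (c (l 16609976) (l 16619168))) (a (b (l 16628064) (l 16629592)) (l 16612008))))) (b (c (c (b (a (b (l 16581464) (l 16582936)) (l 16572784)) (a (l 16584984) (l 16574896))) (b (a (l 16590112) (l 16569832)) (a (l 16582656) (l 16572312)))) (a (b (b (l 16574728) (l 16576544)) (l 16600160)) (b (l 16586432) (l 16589472)))) (b (c (a (c (l 16608016) (l 16606080)) (l 16590920)) (a (l 16592720) (l 16591992))) (c (a (b (l 16608080) (l 16608416)) (l 16591456))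 (a (l 16605528) (l 16593704)))))), by decide +kernel⟩

def k6_pm_022_a : ∃ t, chk3 f_pm_022_a t 8 7 1 = true :=
  ⟨(b (a (l 1) (b (a (l 1) (a (l 1) (b (l 1) (c (a (b (l 1) (l 6)) (b (c (l 16669288) (l 16668816)) (c (l 16670336) (l 16669912)))) (a (b (l 1) (l 6)) (b (l 16667968) (l 16669160))))))) (a (l 6) (a (l 6) (a (l 6) (c (b (c (l 16671856) (l 16671520)) (c (l 16694504) (l 16673336))) (b (l 16676160) (l 16683472)))))))) (b (a (l 6) (a (l 6) (a (l 6) (a (l 6) (b (c (c (l 16700656) (l 16700168)) (l 16688952)) (c (c (l 16708536) (l 16718376)) (l 16709536))))))) (a (l 6) (b (a (l 6) (a (l 6) (a (l 6) (c (c (b (l 16712128) (l 16721824)) (b (l 16711344) (l 16720920))) (c (l 16727392) (l 16724888)))))) (b (a (l 6) (a (l 6) (a (l 6) (c (c (b (l 16729248) (l 16734280)) (l 16741208)) (c (l 16729672) (l 16728592)))))) (a (l 6) (c (a (l 6) (a (l 6) (a (l 6) (a (l 6) (c (b (l 16738880) (c (b (l 16743056) (l 16745664)) (l 16746352))) (b (l 16737688) (c (l 16743088) (l 16742440))))))))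 (a (l 6) (a (l 6) (a (l 6) (c (b (l 16736664) (c (l 16744608) (l 16746576))) (b (l 16735440) (c (l 16740680) (l 16740024)))))))))))))), by decide +kernel⟩

def k7_pm_022_a : ∃ t, chk3 f_pm_022_a t 36 14 1 = true :=
  ⟨(b (c (a (b (a (b (l 1) (c (l 16662576) (l 16662008))) (c (b (l 16655800) (l 16656696)) (l 16655664))) (c (a (l 16663984) (l 16657992)) (l 16671032))) (b (c (l 16657736) (l 16646632)) (c (l 16659232) (l 16669264)))) (a (b (a (b (l 1) (l 16661040)) (b (l 16654064) (l 16655152))) (c (l 16670520) (l 16669944))) (b (c (l 16645968) (l 16645248)) (l 16658032)))) (c (a (b (c (l 16670656) (l 16667704)) (c (l 16669448) (l 16674528))) (b (c (l 16671168) (l 16670888)) (c (l 16677320) (l 16676800)))) (b (a (c (l 16672576) (l 16682656)) (l 16659920)) (a (l 16670312) (l 16676024))))), by decide +kernel⟩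

def k8_pm_022_a : ∃ t, chk3 f_pm_022_a t 36 30 1 = true :=
  ⟨(a (b (c (c (l 16687776) (l 16687208)) (b (l 16692320) (l 16701344))) (c (c (b (l 16691168) (l 16700472)) (l 16705536)) (c (l 16704760) (l 16703976)))) (b (c (c (l 16695608) (l 16694888)) (l 16683296)) (c (c (l 16703832) (l 16702872)) (c (l 16712384) (l 16711408))))), by decide +kernel⟩

def k9_pm_022_a : ∃ t, chk3 f_pm_022_a t 36 62 1 = true :=
  ⟨(b (c (c (a (l 16710000) (l 16707680)) (a (l 16709072) (l 16706520))) (a (l 16718136) (l 16715240))) (c (c (a (l 16730256) (l 16728032)) (a (l 16718712) (l 16716232))) (c (a (l 16717632) (l 16714904)) (a (l 16716536) (l 16713560))))), by decide +kernel⟩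

def k10_pm_022_a : ∃ t, chk3 f_pm_022_a t 36 63 1 = true :=
  ⟨(b (c (c (a (c (b (l 16727544) (l 16732640)) (l 16737352)) (c (l 16735896) (l 16737776))) (a (c (l 16739368) (l 16738760)) (c (l 16737032) (l 16725800)))) (c (a (b (l 16724896) (l 16729800)) (b (l 16722208) (l 16727144))) (a (l 16736576) (l 16733632)))) (c (b (c (a (c (a (l 16738384) (l 16737248)) (l 16737128)) (c (a (l 16736264) (l 16735424)) (l 16735000))) (a (c (l 16736456) (l 16735784)) (c (l 16734184) (l 16733368)))) (c (a (c (a (b (l 16742280) (c (l 16745072) (l 16744728))) (b (l 16741168) (c (l 16743992) (l 16743616)))) (b (l 16741000) (a (c (l 16744392) (l 16744040)) (c (l 16743232) (l 16742856))))) (c (a (b (l 16740200) (c (b (l 16742392) (l 16743720)) (l 16742640))) (b (l 16739384) (b (l 16741376) (c (l 16744248) (l 16742480))))) (b (a (l 16739392) (l 16738488)) (a (c (l 16742224) (l 16741800)) (c (b (l 16740688) (l 16742016)) (l 16742200)))))) (a (c (b (l 16740296) (b (l 16742232) (a (l 16744168) (l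 16742928)))) (b (l 16739592) (b (l 16741504) (a (l 16743464) (l 16742160))))) (c (b (l 16738064) (a (c (l 16741384) (l 16740960)) (c (l 16740432) (l 16739968)))) (b (l 16737200) (b (l 16739128) (a (l 16740976) (l 16739920)))))))) (b (c (a (c (l 16735104) (l 16734416)) (c (l 16732544) (l 16731712))) (a (l 16733384) (l 16730464))) (c (b (a (c (l 16738880) (l 16738160)) (c (l 16736336) (l 16735472))) (a (c (a (l 16742128) (l 16740744)) (a (l 16741416) (l 16739960))) (c (a (l 16739480) (c (l 16738576) (l 16738112))) (a (l 16738624) (l 16737408))))) (b (a (l 16737072) (l 16736784)) (a (c (a (l 16740704) (l 16739176)) (a (l 16739984) (l 16738392))) (c (a (l 16737768) (l 16736472)) (a (l 16736904) (l 16735528))))))))), by decide +kernel⟩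

def k11_pm_022_a : ∃ t, chk3 f_pm_022_a t 37 14 1 = true :=
  ⟨(a (b (c (b (c (l 16651216) (l 16655840)) (c (l 16652352) (l 16657176))) (b (c (l 16655192) (l 16654496)) (l 16653880))) (b (c (c (l 16658672) (l 16658456)) (l 16658096)) (c (c (l 16674464) (l 16673816)) (l 16672832)))) (b (c (b (c (l 16644072) (l 16643432)) (c (l 16644856) (l 16644456))) (b (l 16637176) (l 16643808))) (c (b (c (l 16654424) (l 16653896)) (c (l 16672240) (l 16671472))) (b (l 16653080) (l 16670296))))), by decide +kernel⟩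

def k12_pm_022_a : ∃ t, chk3 f_pm_022_a t 37 30 1 = true :=
  ⟨(b (c (a (c (l 16692984) (l 16692080)) (c (l 16690968) (l 16689896))) (a (c (l 16691168) (l 16690248)) (l 16688264))) (c (a (c (b (l 16707176) (l 16716688)) (b (l 16706064) (l 16715432))) (c (l 16707504) (l 16708720))) (a (c (l 16709544) (l 16708336)) (c (l 16707312) (l 16705880))))), by decide +kernel⟩

def k13_pm_022_a : ∃ t, chk3 f_pm_022_a t 37 62 1 = true :=
  ⟨(c (a (c (b (l 16715944) (a (l 16716280) (l 16715512))) (a (l 16720352) (l 16724648))) (c (b (l 16714312) (a (l 16714736) (l 16713712))) (b (l 16723128) (l 16722536)))) (a (c (b (l 16723584) (l 16727976)) (b (l 16722144) (l 16731592))) (c (a (l 16727208) (l 16725920)) (a (l 16725448) (l 16724056))))), by decide +kernel⟩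

def k14_pm_022_a : ∃ t, chk3 f_pm_022_a t 74 63 1 = true :=
  ⟨(c (b (c (a (l 16734328) (c (l 16726224) (l 16725280))) (a (l 16724744) (l 16734344))) (b (c (a (c (l 16734736) (l 16733800)) (c (l 16734104) (l 16733080))) (a (l 16737624) (c (l 16732048) (l 16731016)))) (c (b (a (c (l 16738712) (l 16737736)) (c (a (l 16738312) (l 16738072)) (a (l 16737264) (l 16736976)))) (a (a (c (c (l 16743096) (l 16741288)) (c (l 16740800) (l 16740304))) (c (c (b (l 16740832) (l 16742176)) (l 16743608)) (c (l 16740472) (l 16739960)))) (c (a (b (l 16740320) (c (c (l 16742072) (l 16741808)) (l 16741400))) (a (c (b (l 16740440) (l 16741784)) (l 16743176)) (b (l 16740056) (c (c (l 16741808) (l 16741520)) (l 16741088))))) (a (c (l 16742808) (l 16739648)) (a (c (l 16740000) (l 16739440)) (b (l 16738920) (c (l 16740520) (l 16739944)))))))) (b (a (c (l 16736752) (l 16735768)) (c (l 16741200) (l 16734880))) (a (c (c (b (l 16738960) (l 16740280)) (l 16740424)) (c (l 16738608) (l 16738096))) (c (a (c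 (l 16739104) (l 16738560)) (b (l 16737840) (c (l 16739432) (l 16738864)))) (a (c (l 16738024) (l 16737480)) (c (l 16737640) (l 16737072))))))))) (b (c (a (l 16723000) (l 16732440)) (a (l 16721248) (l 16720032))) (b (c (a (l 16730488) (c (l 16729976) (l 16728944))) (a (l 16728576) (l 16727376))) (b (c (a (l 16734280) (c (l 16733800) (l 16732720))) (a (l 16732288) (c (l 16731632) (l 16730544)))) (c (a (c (c (l 16737584) (l 16737080)) (l 16738936)) (c (a (l 16736664) (c (l 16736512) (l 16735944))) (a (l 16735576) (l 16735088)))) (a (c (l 16735288) (l 16734256)) (c (a (l 16734480) (l 16733952)) (a (l 16733384) (l 16732808))))))))), by decide +kernel⟩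

def k15_pm_022_a : ∃ t, chk3 f_pm_022_a t 75 63 2 = true :=
  ⟨(b (c (a (c (l 16725544) (l 16724528)) (b (l 16721456) (l 16726608))) (a (l 16733472) (l 16732328))) (b (c (a (c (l 16733432) (l 16732328)) (c (l 16732296) (l 16731136))) (a (c (l 16731216) (l 16730104)) (c (l 16729968) (l 16728808)))) (c (a (b (c (a (l 16737728) (l 16737144)) (a (l 16736592) (l 16735984))) (b (a (c (c (l 16739976) (l 16739400)) (l 16738528)) (c (l 16739064) (l 16737888))) (c (b (c (a (l 16740944) (l 16740328)) (a (l 16740360) (l 16739728))) (c (a (a (l 16741752) (l 16741448)) (c (l 16741120) (l 16740824))) (a (c (l 16741144) (l 16740856)) (c (l 16740520) (l 16740224))))) (c (a (c (l 16740240) (l 16739952)) (c (l 16739608) (l 16739304))) (a (c (l 16739656) (l 16739368)) (l 16738864)))))) (b (c (c (l 16736432) (l 16735832)) (l 16734936)) (b (c (c (l 16738360) (l 16737760)) (c (l 16737152) (l 16736544))) (c (c (a (c (l 14) (b (l 16739584) (l 16740232))) (l 14)) (a (a (l 16739632) (l 16739336)) (a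 (l 16739040) (l 16739728)))) (c (a (c (l 16739000) (l 16738696)) (c (l 16738400) (l 16738088))) (a (l 16738240) (c (l 16737784) (l 16737472)))))))) (a (b (c (l 16737688) (l 16733912)) (c (b (a (l 16737368) (l 16736704)) (a (c (l 16738928) (l 16738336)) (c (l 16738264) (l 16737664)))) (a (c (l 16737128) (l 16736544)) (c (l 16736440) (l 16735848))))) (b (c (l 16733736) (l 16732536)) (c (c (b (l 16735936) (a (l 16737632) (l 16737008))) (a (l 16739008) (l 16737064))) (c (a (l 16735784) (l 16735136)) (a (l 16735176) (l 16734512))))))))), by decide +kernel⟩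

def k16_pm_022_a : ∃ t, chk3 f_pm_022_a t 75 63 3 = true :=
  ⟨(b (c (a (l 16720928) (l 16719656)) (a (l 16718856) (l 16717464))) (b (c (a (c (l 16728984) (l 16727872)) (l 16727056)) (a (l 16726192) (l 16724704))) (b (c (a (c (l 16732760) (l 16731600)) (c (l 16731336) (l 16730128))) (a (c (l 16730440) (l 16729280)) (l 16728320))) (c (a (c (a (c (l 16735960) (l 16735368)) (l 16737568)) (a (l 16734496) (l 16733752))) (c (b (l 16733192) (a (l 16734880) (l 16734208))) (a (l 16733040) (l 16732344)))) (a (c (a (l 16733320) (l 16732560)) (a (l 16732144) (l 16731360))) (c (a (l 16731824) (l 16731096)) (a (l 16730600) (l 16729848)))))))), by decide +kernel⟩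

def k17_pm_022_a : ∃ t, chk3 f_pm_022_a t 19 14 1 = true :=
  ⟨(a (b (a (c (b (l 16627192) (l 16633712)) (l 16628864)) (c (b (l 16620472) (l 16630808)) (l 16627344))) (c (a (b (l 16650848) (l 16663584)) (b (l 16648192) (l 16666424))) (a (b (l 16649768) (l 16667144)) (b (l 16647024) (l 16664552))))) (a (b (c (b (l 16611008) (l 16628096)) (l 16619272)) (c (b (l 16645736) (l 16664216)) (l 16663776))) (c (b (l 16622168) (b (l 16643488) (l 16662240))) (b (l 16616616) (l 16650952))))), by decide +kernel⟩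

def k18_pm_022_a : ∃ t, chk3 f_pm_022_a t 38 30 1 = true :=
  ⟨(c (a (b (c (l 16688272) (l 16687096)) (c (l 16697256) (l 16706176))) (b (l 16680296) (c (l 16695408) (l 16704136)))) (a (b (l 16685296) (c (l 16704592) (l 16702992))) (b (l 16682848) (l 16701464)))), by decide +kernel⟩

def k19_pm_022_a : ∃ t, chk3 f_pm_022_a t 38 62 1 = true :=
  ⟨(b (c (a (c (l 16701688) (l 16699800)) (c (l 16699736) (l 16697672))) (a (l 16707432) (l 16705008))) (c (a (c (l 16722264) (l 16720168)) (c (l 16720120) (l 16707368))) (a (c (l 16707576) (l 16705456)) (c (l 16705088) (l 16702784))))), by decide +kernel⟩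

def k20_pm_022_a : ∃ t, chk3 f_pm_022_a t 38 126 2 = true :=
  ⟨(a (c (a (l 16730800) (l 16729632)) (a (l 16731152) (l 16719408))) (a (c (l 16731104) (l 16718176)) (c (l 16729984) (l 16716984)))), by decide +kernel⟩

def k21_pm_022_a : ∃ t, chk3 f_pm_022_a t 76 127 2 = true :=
  ⟨(b (c (c (a (l 16731128) (l 16730000)) (a (l 16729928) (l 16728752))) (a (c (l 16728720) (l 16727512)) (c (l 16727496) (l 16726248)))) (c (b (c (a (l 16736944) (l 14)) (a (l 16733736) (l 16732584))) (c (c (l 14) (a (a (c (l 14) (a (l 16737656) (l 16737368))) (l 14)) (l 14))) (b (a (c (l 16735976) (l 16735344)) (c (l 16734832) (l 16734184))) (a (c (a (c (l 16737816) (l 16737496)) (a (l 16737240) (l 16736952))) (a (c (l 16737184) (l 16736864)) (c (l 16736592) (l 16736272)))) (c (a (c (l 14) (l 16736336)) (l 14)) (a (c (l 16736008) (l 16735680)) (a (l 16735440) (l 16735152)))))))) (b (a (c (l 16732496) (l 16731248)) (c (l 16731288) (l 16730000))) (b (a (c (c (l 16734712) (l 16734080)) (l 16733136)) (c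 (c (l 16733528) (l 16732872)) (c (l 16732216) (l 16731560)))) (a (c (c (a (l 16736392) (l 16735784)) (a (l 16735760) (l 16735144))) (c (a (l 16735128) (l 16734496)) (a (l 16734488) (l 16733848)))) (c (c (a (c (l 16735352) (l 16735024)) (c (l 16734776) (l 16734440))) (a (l 16734536) (l 16735248))) (c (a (l 16733880) (l 16733272)) (a (l 16733216) (l 16732600))))))))), by decide +kernel⟩

def k22_pm_022_a : ∃ t, chk3 f_pm_022_a t 77 127 2 = true :=
  ⟨(b (c (c (l 14) (a (l 16727608) (l 16726512))) (c (a (l 16726320) (l 16725168)) (a (l 16725016) (l 16723832)))) (c (a (c (l 14) (c (l 14) (b (l 16731128) (b (l 16733056) (a (c (l 14) (l 16734536)) (l 14)))))) (l 14)) (b (c (a (l 16730128) (l 16728992)) (a (l 16728784) (l 16727616))) (b (c (a (c (l 16732376) (l 16731704)) (c (l 16731272) (l 16730568))) (a (l 16731992) (c (l 16729864) (l 16729168)))) (a (c (c (a (c (l 16734200) (l 16733864)) (c (l 16733640) (l 16733296))) (a (l 16733352) (c (l 16732944) (l 16732600)))) (c (a (l 16732672)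 (l 16732080)) (a (l 16731992) (l 16731392)))) (c (c (a (c (l 14) (l 16732736)) (l 14)) (a (c (l 16732384) (l 16732032)) (c (l 16731832) (l 16731472)))) (c (a (l 16731504) (l 16730936)) (a (l 16730800) (l 16730216))))))))), by decide +kernel⟩

def k23_pm_022_a : ∃ t, chk3 f_pm_022_a t 38 63 3 = true :=
  ⟨(b (a (c (a (l 16718384) (l 16717040)) (a (l 16716088) (l 16714656))) (c (a (l 16715728) (l 16714440)) (a (l 16713256) (l 16711888)))) (a (b (c (a (l 16725688) (l 16724360)) (a (l 16723248) (l 16721824))) (b (c (a (c (l 16730000) (l 16728752)) (c (l 16728704) (l 16727408))) (a (l 16726864) (l 16730696))) (c (a (a (c (c (l 16733232) (l 16732600)) (l 16731648)) (c (c (l 16732576) (l 16731936)) (l 16730968))) (c (a (c (l 16731936) (l 16731280)) (c (l 16731304) (l 16730632))) (a (l 16730296) (l 16732248)))) (a (c (a (l 16730376) (l 16729672)) (a (l 16729104) (l 16728376))) (c (a (l 16728976) (l 16728288)) (a (l 16727656) (l 16726944))))))) (b (c (a (l 16723064) (l 16721808)) (a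 (l 16720440) (l 16719096))) (c (b (a (c (l 16727448) (l 16726104)) (c (l 16726224) (l 16724832))) (b (a (c (l 16729320) (l 16727960)) (c (l 16728112) (l 16726696))) (a (a (c (c (l 16731304) (l 16730624)) (l 16729600)) (c (c (l 16730696) (l 16730000)) (l 16728952))) (a (c (c (l 16730096) (l 16729384)) (l 16728328)) (c (c (l 16729504) (l 16728784)) (l 16727704)))))) (b (a (l 16724072) (l 16722736)) (a (a (c (l 16727608) (l 16726240)) (c (l 16726944) (l 16725552))) (a (c (l 16726288) (l 16724872)) (c (l 16725640) (l 16724200))))))))), by decide +kernel⟩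

def k24_pm_022_a : ∃ t, chk3 f_pm_022_a t 39 30 1 = true :=
  ⟨(a (c (b (l 16678336) (c (l 16703888) (l 16681000))) (b (l 16680560) (l 16699048))) (c (b (l 16671032) (c (l 16680712) (l 16678672))) (b (l 16657240) (l 16696528)))), by decide +kernel⟩

def k25_pm_022_a : ∃ t, chk3 f_pm_022_a t 39 62 1 = true :=
  ⟨(c (a (c (b (l 16697512) (l 16707448)) (b (l 16695304) (l 16705032))) (c (b (l 16695360) (l 14)) (b (l 16693016) (l 16702832)))) (a (c (l 16713544) (l 16716424)) (c (l 16716400) (l 16713888)))), by decide +kernel⟩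

def k26_pm_022_a : ∃ t, chk3 f_pm_022_a t 39 63 2 = true :=
  ⟨(b (c (a (c (l 14) (l 16727424)) (l 14)) (a (c (l 16726112) (l 16724792)) (b (l 16710328) (l 16725872)))) (b (c (l 14) (a (c (a (l 16724064) (l 16722992)) (a (l 16722680) (l 16721568))) (c (l 14) (a (l 16720496) (l 16719464))))) (a (c (l 14) (a (b (c (l 16727904) (l 16726480)) (c (a (c (l 14) (b (l 16729816) (c (l 14) (l 16730920)))) (l 14)) (c (a (a (l 16729896) (l 16729616)) (a (l 16731960) (l 16730376))) (b (l 16728024) (a (l 16729648) (l 16729088)))))) (c (l 14) (b (l 16725384) (c (b (l 16727680) (a (c (l 14) (l 16729104)) (l 14))) (b (l 16726928) (a (l 16729856) (b (l 16727680) (l 16728328))))))))) (a (c (l 14) (c (l 14) (b (l 16724328) (a (a (c (l 14) (l 16729600)) (b (l 16726456) (l 14))) (l 14))))) (l 14))))), by decide +kernel⟩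

def k27_pm_022_a : ∃ t, chk3 f_pm_022_a t 39 63 3 = true :=
  ⟨(b (a (c (a (l 16713200) (l 16711992)) (l 16720128)) (c (a (l 16710824) (l 16709696)) (l 16717672))) (b (a (a (c (l 16720592) (l 16717784)) (c (l 16719416) (l 16716520))) (a (c (l 16718272) (l 16715296)) (c (l 16717176) (l 16714104)))) (a (c (b (c (a (l 16725048) (l 16723904)) (a (l 16723608) (l 16722424))) (b (c (a (l 16726936) (l 16725808)) (a (l 16725480) (l 16724296))) (a (a (c (c (l 16728920) (l 16728192)) (l 16727096)) (c (c (l 16728352) (l 16727608)) (c (l 16726864) (l 16726120)))) (c (c (a (l 16727792) (l 16727240)) (a (l 16727040) (l 16726472))) (c (a (l 16726280) (l 16725712)) (a (l 16725528) (l 16724944))))))) (b (a (l 16721440) (l 16725432)) (b (a (c (l 16724016) (l 16722544)) (c (l 16722792) (l 16721272))) (a (c (c (l 16725616) (l 16724880)) (c (l 16724136) (l 16723392))) (a (c (l 16724392) (l 16722872)) (c (l 16723784) (l 16722240))))))) (c (b (c (a (l 16722808) (l 16721752)) (a (l 16721280) (l 16720176)))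 (b (c (a (l 16724712) (l 16726288)) (a (l 16723160) (l 16722072))) (c (a (c (a (l 16726704) (b (l 16725848) (l 16726496))) (a (l 16725928) (l 16725384))) (c (a (b (l 16725336) (l 16725976)) (l 14)) (a (l 16724856) (l 16724336)))) (a (c (a (l 16725144) (l 16724592)) (a (l 16724368) (l 16723800))) (c (a (l 16724056) (l 16723520)) (a (l 16723248) (l 16722712))))))) (b (a (l 16721592) (c (l 16718600) (l 16717008))) (b (c (a (l 16721608) (l 16720464)) (a (l 16720040) (l 16718856))) (a (a (c (l 16723192) (l 16721624)) (c (l 16722616) (l 16721024))) (a (c (l 16724664) (l 16720432)) (c (a (l 16721632) (l 16721360)) (l 16719848)))))))))), by decide +kernel⟩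

def k28_pm_022_a : ∃ t, chk3 f_pm_022_a t 20 6 1 = true :=
  ⟨(a (b (c (a (b (c (l 16563168) (l 16559928)) (c (l 16564656) (l 16561840))) (b (l 16572552) (l 16573648))) (b (a (l 16555168) (l 16544768)) (a (l 16557728) (l 16567800)))) (c (b (a (l 16585120) (l 16573872)) (a (l 16584896) (l 16599304))) (b (a (l 16580664) (l 16569192)) (a (l 16582048) (l 16579448))))) (a (b (c (b (l 16626408) (l 16624632)) (b (l 16534120) (l 16556656))) (b (c (l 16626200) (l 16557488)) (c (l 16632808) (l 16577144)))) (a (b (c (b (l 16753504) (l 16747416)) (l 16547720)) (c (b (l 16744008) (l 16744840)) (l 16581720))) (b (c (b (a (l 16811424) (l 16848184)) (a (l 16803472) (l 16839080))) (b (l 16562224) (l 16563184))) (c (b (l 16731288) (l 16770776)) (b (l 16565696) (l 16616736))))))), by decide +kernel⟩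

def k29_pm_022_a : ∃ t, chk3 f_pm_022_a t 40 14 1 = true :=
  ⟨(b (c (a (l 16614536) (l 16612464)) (a (l 16614136) (l 16611864))) (c (b (c (l 16639984) (l 16639176)) (c (l 16658848) (l 16657584))) (a (l 16648632) (l 16646304)))), by decide +kernel⟩

def k30_pm_022_a : ∃ t, chk3 f_pm_022_a t 40 30 1 = true :=
  ⟨(b (c (a (l 16668776) (l 16677032)) (a (l 16654760) (l 16652328))) (c (a (c (l 16678560) (l 16676408)) (c (l 16720832) (l 16674296))) (a (l 16694080) (l 16691768)))), by decide +kernel⟩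

def k31_pm_022_a : ∃ t, chk3 f_pm_022_a t 40 62 1 = true :=
  ⟨(c (c (b (a (l 16693352) (l 16737096)) (l 14)) (a (l 16711536) (l 16704360))) (a (c (l 16714152) (l 16711488)) (c (l 16712064) (l 16709248)))), by decide +kernel⟩

def k32_pm_022_a : ∃ t, chk3 f_pm_022_a t 40 63 1 = true :=
  ⟨(c (b (c (l 14) (a (b (l 16708344) (l 14)) (l 14))) (l 14)) (b (a (c (l 16718392) (l 16715376)) (c (b (l 16703440) (l 16708472)) (l 16713248))) (b (a (c (c (l 16724104) (l 16725136)) (a (l 16712968) (l 16711864))) (c (c (l 14) (l 16720584)) (a (l 16710808) (l 16709792)))) (a (c (b (c (a (l 16720736) (l 14)) (a (l 16719120) (l 16718104))) (b (c (a (c (l 14) (l 16722256)) (l 14)) (a (l 16721016) (l 16720016))) (c (a (c (l 14) (a (b (l 16723504) (l 16724152)) (l 14))) (l 14)) (a (c (a (l 16723008) (l 16722496)) (a (l 16722176) (l 16721656))) (c (a (b (l 16721680) (l 16722320)) (l 14)) (a (l 16721152) (l 16720648))))))) (b (c (a (l 16717488) (l 16716432)) (a (l 16715856) (l 16714752))) (b (c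 (a (l 16719368) (l 16718312)) (a (l 16717712) (l 16716608))) (a (a (c (c (l 16721352) (l 16720520)) (l 16719272)) (c (c (l 16720816) (l 16719976)) (l 16718712))) (a (c (c (l 16720296) (l 16719448)) (l 16718160)) (c (c (l 16719792) (l 16718928)) (l 16717624))))))) (c (a (c (l 14) (b (l 16717128) (c (l 14) (b (l 16718616) (a (l 16721480) (l 14)))))) (l 14)) (b (a (c (l 16715416) (l 16713688)) (c (l 16714440) (l 16712672))) (b (c (a (l 16717304) (l 16716344)) (a (l 16715560) (l 16714544))) (a (c (c (a (l 16719288) (l 16718808)) (a (l 16718416) (l 16717920))) (c (a (l 16717536) (l 16717024)) (a (l 16716656) (l 16716136)))) (c (c (a (l 16718328) (l 14)) (a (l 16717432) (l 16716952))) (c (a (l 16716528) (l 16716040)) (a (l 16715624) (l 16715128)))))))))))), by decide +kernel⟩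

def k33_pm_022_a : ∃ t, chk3 f_pm_022_a t 41 14 1 = true :=
  ⟨(a (c (b (l 16646544) (b (l 16662600) (l 16676488))) (b (l 16609712) (l 16643992))) (a (b (c (l 16751816) (l 16587200)) (c (l 16703568) (l 16621368))) (c (b (a (l 16800216) (l 16831024)) (a (l 16769376) (b (l 16836928) (l 16843344)))) (b (l 16638672) (b (l 16653488) (l 16671184)))))), by decide +kernel⟩

def k34_pm_022_a : ∃ t, chk3 f_pm_022_a t 41 15 1 = true :=
  ⟨(b (c (a (b (l 16693304) (c (l 16839928) (l 16672392))) (a (b (l 16783640) (c (l 16918960) (l 16677368))) (a (b (l 16825424) (c (l 16955576) (l 16719800))) (b (l 16705280) (c (l 16978944) (l 16746904)))))) (a (b (l 16650096) (l 16689664)) (a (b (l 16648552) (l 16667256)) (b (a (l 16647824) (l 16647264)) (a (l 16666568) (l 16687016)))))) (b (b (c (a (c (l 16850384) (l 16687128)) (a (c (l 16925808) (l 16695960)) (a (c (l 16960808) (l 16736360)) (c (l 16983176) (l 16762184))))) (a (l 16682896) (a (l 16681536) (a (l 16680880) (l 16696120))))) (c (l 14)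 (a (c (l 16694160) (l 16691056)) (a (l 16701800) (a (l 16701176) (c (l 14) (l 16709512))))))) (c (l 14) (a (c (b (a (l 16704688) (l 14)) (l 14)) (b (a (l 16701368) (l 16700416)) (b (a (l 16708832) (l 16707920)) (c (a (b (l 16713520) (a (b (l 16715672) (c (l 14) (l 16716488))) (l 14))) (l 14)) (b (a (l 16711696) (l 16710784)) (a (b (l 16713584) (c (a (l 16715568) (l 16715104)) (a (l 16714640) (l 16714160)))) (a (b (l 16712904) (c (b (l 16714328) (l 16714968)) (l 16713696))) (b (l 16712456) (c (l 14) (l 16714560)))))))))) (c (l 14) (c (a (b (l 16700432) (l 14)) (l 14)) (a (b (l 16698672) (b (l 16706152) (c (l 14) (b (l 16714704) (a (a (l 16712280) (l 16712064)) (l 14)))))) (b (a (l 16698024) (a (a (a (l 16697720) (l 16708160)) (l 16697584)) (l 16697416))) (a (b (l 16705536) (l 14)) (l 14)))))))))), by decide +kernel⟩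

def k35_pm_022_a : ∃ t, chk3 f_pm_022_a t 21 3 1 = true :=
  ⟨(b (b (a (c (b (l 16934888) (l 16942000)) (b (l 16529640) (l 16529816))) (c (b (l 17207912) (l 17188392)) (b (l 16624216) (l 16627280)))) (c (a (b (l 16908616) (l 16836112)) (b (l 17169432) (l 17152008))) (a (b (l 16540264) (l 16570384)) (b (l 16633872) (l 16645144))))) (b (b (c (a (b (l 16957448) (l 16956016)) (l 17137192)) (a (l 16602800) (l 16662480))) (a (c (b (l 16914032) (l 16789848)) (l 16647824)) (c (c (l 17235136) (l 17016688)) (b (l 16680296) (l 16694920))))) (b (c (a (b (c (l 17075688) (l 16846472)) (c (l 17074752) (l 16711384))) (b (l 16995176) (c (l 17215600) (l 17022552)))) (b (a (l 16644040) (l 16712008)) (a (c (l 16664488) (l 16661640)) (l 16679064)))) (c (a (b (b (c (l 17075088) (l 16805544)) (c (l 17012992) (l 14))) (c (a (c (l 17090344) (l 14)) (b (l 17112512) (l 17113280))) (l 14))) (b (c (l 17209504) (a (l 16992416) (l 17061544))) (c (a (l 17176016) (l 17232496)) (a (c (l 17045352) (l 14)) (a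 (l 17030328) (l 17082160)))))) (b (b (a (c (l 16679264) (l 16676032)) (l 16684848)) (a (c (l 14) (l 16685880)) (l 14))) (b (a (c (l 14) (a (l 16697224) (l 14))) (l 14)) (l 14))))))), by decide +kernel⟩

def k36_pm_022_a : ∃ t, chk3 f_pm_022_a t 11 3 1 = true :=
  ⟨(b (a (b (c (a (l 17353808) (l 17472992)) (a (l 16848224) (l 17021776))) (c (a (l 17287000) (l 17422136)) (a (b (l 16845200) (l 16847064)) (l 16986960)))) (b (c (l 17602632) (a (l 17158584) (l 17267888))) (c (l 17548544) (a (l 17137088) (l 17241800))))) (b (a (c (b (a (l 17276416) (l 17385112)) (a (l 17257848) (l 17361704))) (b (a (l 16853464) (l 17004720)) (a (l 16718792) (l 17007752)))) (c (a (l 17456968) (l 17524928)) (a (b (l 17126192) (l 17122792)) (l 17221400)))) (a (b (c (a (c (l 17331816) (l 17153528)) (l 17340672)) (a (b (l 16879352) (c (l 16978304) (l 16803216))) (b (l 17013744) (l 16956584)))) (c (a (b (c (l 17315864) (l 17151736)) (c (l 17306336) (b (l 17152056) (l 17152776)))) (b (l 17326536) (l 17213280)))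 (b (a (a (c (l 16954512) (l 16784920)) (c (l 17018128) (l 16856704))) (c (l 17101936) (l 16846624))) (a (c (a (c (l 16964808) (l 14)) (a (l 16970856) (l 17041360))) (l 14)) (c (b (l 17105384) (l 17108224)) (a (a (l 14) (a (l 14) (l 16895400))) (b (l 16989176) (l 16995744)))))))) (c (b (a (l 17419552) (l 17484120)) (a (c (l 17462408) (l 17329632)) (l 17457536))) (b (a (b (l 17123216) (l 17124840)) (l 17213808)) (a (b (c (l 17196392) (l 17058784)) (c (l 17196872) (a (l 17043040) (l 17090024)))) (b (l 17212984) (c (l 17273808) (l 17154816))))))))), by decide +kernel⟩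

def k37_pm_022_a : ∃ t, chk3 f_pm_022_a t 3 1 1 = true :=
  ⟨(b (a (a (b (c (l 17859320) (l 17528752)) (c (l 17813512) (a (l 17432608) (l 17548512)))) (b (l 17794152) (l 17760976))) (a (b (l 17798824) (l 17768760)) (l 17728144))) (a (b (b (a (c (l 17751392) (l 17456960)) (l 17713160)) (a (a (c (l 17659848) (l 17362960)) (l 17601248)) (l 17670696))) (a (b (c (a (l 17601720) (l 17668072)) (a (b (l 17342280) (l 17330112)) (l 17442864))) (c (a (b (l 17557944) (l 17528488)) (l 17606000)) (a (b (l 17320680) (a (b (l 17284552) (l 17283776)) (l 17342384))) (b (l 17422296) (l 17410728))))) (b (c (l 17712384) (l 17535584)) (c (l 17649752) (b (l 17510288) (l 17493648)))))) (b (a (l 17703032) (l 17657464)) (a (b (l 17638968) (c (l 17641880) (l 17535528))) (b (l 17597504) (l 17548232)))))), by decide +kernel⟩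

theorem s38_pm_022_a : ∃ t, chk3 f_pm_022_a t 41 7 1 = true := ex3_b k33_pm_022_a k34_pm_022_a

theorem s39_pm_022_a : ∃ t, chk3 f_pm_022_a t 40 31 1 = true := ex3_b k31_pm_022_a k32_pm_022_a

theorem s40_pm_022_a : ∃ t, chk3 f_pm_022_a t 40 15 1 = true := ex3_b k30_pm_022_a s39_pm_022_a

theorem s41_pm_022_a : ∃ t, chk3 f_pm_022_a t 40 7 1 = true := ex3_b k29_pm_022_a s40_pm_022_a

theorem s42_pm_022_a : ∃ t, chk3 f_pm_022_a t 20 7 1 = true := ex3_a s41_pm_022_a s38_pm_022_a

theorem s43_pm_022_a : ∃ t, chk3 f_pm_022_a t 20 3 1 = true := ex3_b k28_pm_022_a s42_pm_022_a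

theorem s44_pm_022_a : ∃ t, chk3 f_pm_022_a t 10 3 1 = true := ex3_a s43_pm_022_a k35_pm_022_a

theorem s45_pm_022_a : ∃ t, chk3 f_pm_022_a t 5 3 1 = true := ex3_a s44_pm_022_a k36_pm_022_a

theorem s46_pm_022_a : ∃ t, chk3 f_pm_022_a t 39 63 1 = true := ex3_c k26_pm_022_a k27_pm_022_a

theorem s47_pm_022_a : ∃ t, chk3 f_pm_022_a t 39 31 1 = true := ex3_b k25_pm_022_a s46_pm_022_a

theorem s48_pm_022_a : ∃ t, chk3 f_pm_022_a t 39 15 1 = true := ex3_b k24_pm_022_a s47_pm_022_a

theorem s49_pm_022_a : ∃ t, chk3 f_pm_022_a t 38 127 2 = true := ex3_a k21_pm_022_a k22_pm_022_a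

theorem s50_pm_022_a : ∃ t, chk3 f_pm_022_a t 38 63 2 = true := ex3_b k20_pm_022_a s49_pm_022_a

theorem s51_pm_022_a : ∃ t, chk3 f_pm_022_a t 38 63 1 = true := ex3_c s50_pm_022_a k23_pm_022_a

theorem s52_pm_022_a : ∃ t, chk3 f_pm_022_a t 38 31 1 = true := ex3_b k19_pm_022_a s51_pm_022_a

theorem s53_pm_022_a : ∃ t, chk3 f_pm_022_a t 38 15 1 = true := ex3_b k18_pm_022_a s52_pm_022_a

theorem s54_pm_022_a : ∃ t, chk3 f_pm_022_a t 19 15 1 = true := ex3_a s53_pm_022_a s48_pm_022_a

theorem s55_pm_022_a : ∃ t, chk3 f_pm_022_a t 19 7 1 = true := ex3_b k17_pm_022_a s54_pm_022_a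

theorem s56_pm_022_a : ∃ t, chk3 f_pm_022_a t 75 63 1 = true := ex3_c k15_pm_022_a k16_pm_022_a

theorem s57_pm_022_a : ∃ t, chk3 f_pm_022_a t 37 63 1 = true := ex3_a k14_pm_022_a s56_pm_022_a

theorem s58_pm_022_a : ∃ t, chk3 f_pm_022_a t 37 31 1 = true := ex3_b k13_pm_022_a s57_pm_022_a

theorem s59_pm_022_a : ∃ t, chk3 f_pm_022_a t 37 15 1 = true := ex3_b k12_pm_022_a s58_pm_022_a

theorem s60_pm_022_a : ∃ t, chk3 f_pm_022_a t 37 7 1 = true := ex3_b k11_pm_022_a s59_pm_022_a

theorem s61_pm_022_a : ∃ t, chk3 f_pm_022_a t 36 31 1 = true := ex3_b k9_pm_022_a k10_pm_022_a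

theorem s62_pm_022_a : ∃ t, chk3 f_pm_022_a t 36 15 1 = true := ex3_b k8_pm_022_a s61_pm_022_a

theorem s63_pm_022_a : ∃ t, chk3 f_pm_022_a t 36 7 1 = true := ex3_b k7_pm_022_a s62_pm_022_a

theorem s64_pm_022_a : ∃ t, chk3 f_pm_022_a t 18 7 1 = true := ex3_a s63_pm_022_a s60_pm_022_a

theorem s65_pm_022_a : ∃ t, chk3 f_pm_022_a t 9 7 1 = true := ex3_a s64_pm_022_a s55_pm_022_a

theorem s66_pm_022_a : ∃ t, chk3 f_pm_022_a t 4 7 1 = true := ex3_a k6_pm_022_a s65_pm_022_a

theorem s67_pm_022_a : ∃ t, chk3 f_pm_022_a t 9 6 1 = true := ex3_a k4_pm_022_a k5_pm_022_a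

theorem s68_pm_022_a : ∃ t, chk3 f_pm_022_a t 4 6 1 = true := ex3_a k3_pm_022_a s67_pm_022_a

theorem s69_pm_022_a : ∃ t, chk3 f_pm_022_a t 4 3 1 = true := ex3_b s68_pm_022_a s66_pm_022_a

theorem s70_pm_022_a : ∃ t, chk3 f_pm_022_a t 2 3 1 = true := ex3_a s69_pm_022_a s45_pm_022_a

theorem s71_pm_022_a : ∃ t, chk3 f_pm_022_a t 5 2 1 = true := ex3_a k1_pm_022_a k2_pm_022_a

theorem s72_pm_022_a : ∃ t, chk3 f_pm_022_a t 2 2 1 = true := ex3_a k0_pm_022_a s71_pm_022_a

theorem s73_pm_022_a : ∃ t, chk3 f_pm_022_a t 2 1 1 = true := ex3_b s72_pm_022_a s70_pm_022_a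

theorem s74_pm_022_a : ∃ t, chk3 f_pm_022_a t 1 1 1 = true := ex3_a s73_pm_022_a k37_pm_022_a

theorem c_pm_022_a : CertN 0 536870912 0 536870912 134217728 67108864 3 true true false .pp 0 2 2
    ndN0q0 ndN2q2a pcN2 cut_pm_022_a Ext.none :=
  certN2 (fam := true) (s1 := true) (s2 := false) (a := 0) (b := 2) (c := 2) (cn := .pp) (n1 := ndN0q0) (n2 := ndN2q2a) (pc := pcN2) (cut := cut_pm_022_a) (xt := Ext.none) (P1 := 0) (W1 := 536870912) (P2 := 0) (W2 := 536870912) (P3 := 134217728) (W3 := 67108864) (N0 := 3)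
    rfl (fun _ => rfl) s74_pm_022_a

noncomputable def cut_pm_022_b : Cut := Cut.of [[⟨0, 0, 0, 67108864⟩, ⟨1, 1, 0, 67108864⟩, ⟨2, 1, 0, 67108864⟩], [⟨0, 0, 1, 41943040⟩, ⟨1, 1, 0, 16777216⟩, ⟨2, 1, 1, 41943040⟩]]

noncomputable def f_pm_022_b : ℕ → ℕ → ℕ → ℕ → Bool := onCell 0 536870912 1073741824 536870912 134217728 67108864
    (rowN 3 1 true true false .pp 0 2 2 (qsf 0 536870912 1239849684 370763052 2) ndN0q0 ndN2q2b pcN2 cut_pm_022_b Ext.none)

def k0_pm_022_b : ∃ t, chk3 f_pm_022_b t 1 1 1 = true :=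
  ⟨(a (b (a (b (l 1) (b (a (b (b (l 1) (b (l 1) (b (l 1) (b (l 1) (a (a (a (c (l 16755768) (l 16511024)) (l 1)) (l 1)) (l 1)))))) (b (a (c (a (c (l 17271168) (l 16886408)) (l 58015647687)) (a (l 16522704) (l 16528872))) (l 1)) (a (c (c (l 17502616) (l 17161032)) (a (l 16649120) (l 16637704))) (c (l 17081296) (l 16627864))))) (l 1)) (b (a (c (b (a (l 17554704) (l 17455664)) (a (l 17739632) (l 17630584))) (b (a (a (l 16935256) (l 16910928)) (l 16880264)) (a (l 17157632) (l 17095904)))) (a (c (l 112777293191) (b (l 1) (l 17046216))) (l 1))) (a (c (b (l 17835520) (l 17961464)) (b (a (l 17355296) (l 17280416)) (l 17476496))) (c (b (l 17621768) (l 17740096)) (b (l 17213919767) (l 17328688))))))) (l 1)) (a (b (b (a (c (l 18200048) (b (l 17674152) (l 17879432))) (c (l 17974032) (b (l 17508888) (l 17702056)))) (a (l 18267928) (l 18067024))) (b (l 18324816) (l 18414448))) (b (b (a (b (l 149821555623) (l 17594416)) (l 1)) (a (l 17884216) (l 198677423927))) (a (l 18104576) (l 17939152)))))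 (b (l 1) (b (l 1) (a (a (l 17780256) (l 225521150551)) (l 1))))), by decide +kernel⟩

theorem c_pm_022_b : CertN 0 536870912 1239849684 370763052 134217728 67108864 3 true true false .pp 0 2 2
    ndN0q0 ndN2q2b pcN2 cut_pm_022_b Ext.none :=
  certN1 (fam := true) (s1 := true) (s2 := false) (a := 0) (b := 2) (c := 2) (cn := .pp) (n1 := ndN0q0) (n2 := ndN2q2b) (pc := pcN2) (cut := cut_pm_022_b) (xt := Ext.none) (P1 := 0) (W1 := 536870912) (P2 := 1239849684) (W2 := 370763052) (P3 := 134217728) (W3 := 67108864) (N0 := 3)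
    rfl (fun _ => rfl) k0_pm_022_b

noncomputable def f_pm_023_a : ℕ → ℕ → ℕ → ℕ → Bool := onCell 0 536870912 0 536870912 134217728 67108864
    (rowN 3 0 true true false .up 0 2 3 (qsf 0 536870912 0 536870912 3) ndN0q0 ndN2q2a pcN3 Cut.none Ext.none)

def k0_pm_023_a : ∃ t, chk3 f_pm_023_a t 1 1 1 = true :=
  ⟨(a (l 1) (a (b (l 114389756055) (b (l 1) (l 1))) (b (l 17707200) (a (l 251828002231) (b (l 17698480) (l 85398005319)))))), by decide +kernel⟩

theorem c_pm_023_a : CertN 0 536870912 0 536870912 134217728 67108864 3 true true false .up 0 2 3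
    ndN0q0 ndN2q2a pcN3 Cut.none Ext.none :=
  certN0 (fam := true) (s1 := true) (s2 := false) (a := 0) (b := 2) (c := 3) (cn := .up) (n1 := ndN0q0) (n2 := ndN2q2a) (pc := pcN3) (cut := Cut.none) (xt := Ext.none) (P1 := 0) (W1 := 536870912) (P2 := 0) (W2 := 536870912) (P3 := 134217728) (W3 := 67108864) (N0 := 3)
    rfl k0_pm_023_a

noncomputable def f_pm_023_b : ℕ → ℕ → ℕ → ℕ → Bool := onCell 0 536870912 1239849684 370763052 134217728 67108864
    (rowN 3 0 true true false .up 0 2 3 (qsf 0 536870912 1239849684 370763052 3) ndN0q0 ndN2q2b pcN3 Cut.none Ext.none)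

def k0_pm_023_b : ∃ t, chk3 f_pm_023_b t 1 1 1 = true :=
  ⟨(a (b (a (l 1) (l 267935212503)) (a (l 280820453559) (b (l 18069864) (a (l 18069376) (l 17960592))))) (b (a (b (l 17894568) (l 17887280)) (b (l 17672872) (l 17608656))) (a (b (a (l 17899504) (l 17761080)) (a (l 17832784) (l 17682760))) (b (a (l 17606064) (l 17454512)) (a (l 17525616) (b (l 17383872) (a (l 17379592) (l 4)))))))), by decide +kernel⟩

theorem c_pm_023_b : CertN 0 536870912 1239849684 370763052 134217728 67108864 3 true true false .up 0 2 3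
    ndN0q0 ndN2q2b pcN3 Cut.none Ext.none :=
  certN0 (fam := true) (s1 := true) (s2 := false) (a := 0) (b := 2) (c := 3) (cn := .up) (n1 := ndN0q0) (n2 := ndN2q2b) (pc := pcN3) (cut := Cut.none) (xt := Ext.none) (P1 := 0) (W1 := 536870912) (P2 := 1239849684) (W2 := 370763052) (P3 := 134217728) (W3 := 67108864) (N0 := 3)
    rfl k0_pm_023_b

noncomputable def f_pm_033 : ℕ → ℕ → ℕ → ℕ → Bool := onCell 0 536870912 1610612736 536870912 134217728 67108864
    (rowN 3 1 true true false .pnn 0 3 3 (qsf 0 536870912 1610612736 536870912 3) ndN0q0 ndN2q3 pcN3 Cut.none Ext.none)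

def k0_pm_033 : ∃ t, chk3 f_pm_033 t 1 1 1 = true :=
  ⟨(b (a (b (l 177740514999) (b (l 165929202023) (a (l 17857544) (l 17647432)))) (b (l 1) (a (b (l 1) (l 17451256)) (l 1)))) (b (a (a (l 17841304) (l 17726336)) (a (l 224984150839) (l 244847947223))) (a (b (l 4) (l 4)) (b (a (l 17308824) (l 17053352)) (l 4))))), by decide +kernel⟩

theorem c_pm_033 : CertN 0 536870912 1610612736 536870912 134217728 67108864 3 true true false .pnn 0 3 3
    ndN0q0 ndN2q3 pcN3 Cut.none Ext.none :=
  certN1 (fam := true) (s1 := true) (s2 := false) (a := 0) (b := 3) (c := 3) (cn := .pnn) (n1 := ndN0q0) (n2 := ndN2q3) (pc := pcN3) (cut := Cut.none) (xt := Ext.none) (P1 := 0) (W1 := 536870912) (P2 := 1610612736) (W2 := 536870912) (P3 := 134217728) (W3 := 67108864) (N0 := 3)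
    rfl (fun _ => rfl) k0_pm_033

noncomputable def cut_pm_101 : Cut := Cut.of [[⟨0, 1, 0, 67108864⟩, ⟨1, 0, 0, 67108864⟩, ⟨2, 1, 0, 67108864⟩]]

noncomputable def f_pm_101 : ℕ → ℕ → ℕ → ℕ → Bool := onCell 536870912 536870912 0 536870912 134217728 67108864
    (rowN 3 2 true true false .npn 1 0 1 (qsf 536870912 536870912 0 536870912 1) ndN0q1 ndN2q0 pcN1 cut_pm_101 Ext.none)

def k0_pm_101 : ∃ t, chk3 f_pm_101 t 1 1 1 = true :=
  ⟨(a (l 3) (a (l 3) (b (b (a (l 3) (b (a (l 3) (a (l 3) (b (l 6) (l 3)))) (l 3))) (l 3)) (l 3)))), by decide +kernel⟩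

theorem c_pm_101 : CertN 536870912 536870912 0 536870912 134217728 67108864 3 true true false .npn 1 0 1
    ndN0q1 ndN2q0 pcN1 cut_pm_101 Ext.none :=
  certN2 (fam := true) (s1 := true) (s2 := false) (a := 1) (b := 0) (c := 1) (cn := .npn) (n1 := ndN0q1) (n2 := ndN2q0) (pc := pcN1) (cut := cut_pm_101) (xt := Ext.none) (P1 := 536870912) (W1 := 536870912) (P2 := 0) (W2 := 536870912) (P3 := 134217728) (W3 := 67108864) (N0 := 3)
    rfl (fun _ => rfl) k0_pm_101

noncomputable def cut_pm_102 : Cut := Cut.of [[⟨0, 1, 0, 67108864⟩, ⟨1, 0, 0, 67108864⟩, ⟨2, 1, 0, 67108864⟩]]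

noncomputable def f_pm_102 : ℕ → ℕ → ℕ → ℕ → Bool := onCell 536870912 536870912 1073741824 536870912 134217728 67108864
    (rowN 3 1 true true false .npp 1 0 2 (qsf 536870912 536870912 0 536870912 2) ndN0q1 ndN2q0 pcN2 cut_pm_102 Ext.none)

def k0_pm_102 : ∃ t, chk3 f_pm_102 t 1 1 1 = true :=
  ⟨(a (b (a (b (a (b (l 168210491495) (b (l 17653248) (l 2))) (b (l 169284169879) (b (l 17517784) (l 17478992)))) (b (b (l 17739536) (l 2)) (l 2))) (b (b (a (l 17675976) (l 17516728)) (b (a (l 17404400) (l 17413408)) (l 17478608))) (b (b (b (l 17237512) (l 17217368)) (l 17187968)) (l 17129976)))) (a (l 2) (b (l 17022584) (l 2)))) (b (a (b (b (a (l 17397760) (b (l 17163120) (l 17014024))) (b (b (l 17039960) (l 17122536)) (b (l 16995040) (l 16972048)))) (b (b (b (l 16949776) (l 17073904)) (l 16899240)) (b (l 16864048) (l 16842064)))) (b (a (b (b (a (l 16987456) (b (l 16918392) (l 16899400))) (l 16894544)) (b (b (l 16857480) (l 16835160)) (b (l 16813776) (l 16803776)))) (b (b (b (a (b (l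 16906392) (l 16855832)) (l 6)) (a (l 16843016) (a (l 16801408) (l 6)))) (a (l 16812288) (a (l 16773576) (l 16805832)))) (b (b (a (l 16779168) (l 16724352)) (a (l 16755080) (l 16841400))) (b (l 16863264) (l 16757288))))) (a (b (b (b (l 16828800) (l 16883936)) (l 16924480)) (l 17045200)) (b (b (b (l 16755952) (l 17048880)) (l 16982784)) (l 17223224))))) (b (a (l 16903472) (a (l 17201744) (l 17405304))) (a (l 17001552) (l 17384208))))), by decide +kernel⟩

theorem c_pm_102 : CertN 536870912 536870912 0 536870912 134217728 67108864 3 true true false .npp 1 0 2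
    ndN0q1 ndN2q0 pcN2 cut_pm_102 Ext.none :=
  certN1 (fam := true) (s1 := true) (s2 := false) (a := 1) (b := 0) (c := 2) (cn := .npp) (n1 := ndN0q1) (n2 := ndN2q0) (pc := pcN2) (cut := cut_pm_102) (xt := Ext.none) (P1 := 536870912) (W1 := 536870912) (P2 := 0) (W2 := 536870912) (P3 := 134217728) (W3 := 67108864) (N0 := 3)
    rfl (fun _ => rfl) k0_pm_102

noncomputable def f_pm_112 : ℕ → ℕ → ℕ → ℕ → Bool := onCell 536870912 536870912 1073741824 536870912 134217728 67108864
    (rowN 3 1 true true false .dn 1 1 2 (qsf 536870912 536870912 536870912 536870912 2) ndN0q1 ndN2q1 pcN2 Cut.none Ext.none)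

def k0_pm_112 : ∃ t, chk3 f_pm_112 t 1 1 1 = true :=
  ⟨(a (b (a (b (b (a (b (l 122576161847) (l 17695744)) (l 279208692823)) (b (b (l 17743208) (l 17766000)) (a (l 17799384) (l 17801584)))) (b (b (b (l 17843848) (l 17873304)) (l 17914256)) (b (l 17974848) (l 18040352)))) (b (b (l 1) (b (l 1) (l 289409604231))) (b (b (b (l 17864472) (l 17877448)) (l 17889160)) (l 17960944)))) (a (b (b (l 18157720) (l 18332416)) (l 18624584)) (b (l 18036640) (l 18256456)))) (b (a (b (l 1) (b (l 1) (l 290483524455))) (l 1)) (b (a (l 17952096) (l 17970832)) (a (l 18037672) (l 17946152))))), by decide +kernel⟩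

theorem c_pm_112 : CertN 536870912 536870912 536870912 536870912 134217728 67108864 3 true true false .dn 1 1 2
    ndN0q1 ndN2q1 pcN2 Cut.none Ext.none :=
  certN1 (fam := true) (s1 := true) (s2 := false) (a := 1) (b := 1) (c := 2) (cn := .dn) (n1 := ndN0q1) (n2 := ndN2q1) (pc := pcN2) (cut := Cut.none) (xt := Ext.none) (P1 := 536870912) (W1 := 536870912) (P2 := 536870912) (W2 := 536870912) (P3 := 134217728) (W3 := 67108864) (N0 := 3)
    rfl (fun _ => rfl) k0_pm_112

noncomputable def f_pm_113 : ℕ → ℕ → ℕ → ℕ → Bool := onCell 536870912 536870912 1610612736 536870912 134217728 67108864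
    (rowN 3 1 true true false .nn 1 1 3 (qsf 536870912 536870912 536870912 536870912 3) ndN0q1 ndN2q1 pcN3 Cut.none Ext.none)

def k0_pm_113 : ∃ t, chk3 f_pm_113 t 1 1 1 = true :=
  ⟨(b (a (b (a (a (l 18941472) (l 18557704)) (l 18081256)) (a (a (l 2) (l 19024896)) (a (l 18630048) (l 18276816)))) (b (a (l 17626488) (b (l 17357920) (l 17412328))) (a (b (l 17788416) (l 17944808)) (b (l 17534232) (l 17590704))))) (b (a (a (l 2) (b (a (l 2) (l 18565480)) (l 2))) (a (b (l 18123440) (l 18248104)) (l 17677144))) (a (l 2) (b (a (l 18404304) (l 4)) (l 4))))), by decide +kernel⟩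

theorem c_pm_113 : CertN 536870912 536870912 536870912 536870912 134217728 67108864 3 true true false .nn 1 1 3
    ndN0q1 ndN2q1 pcN3 Cut.none Ext.none :=
  certN1 (fam := true) (s1 := true) (s2 := false) (a := 1) (b := 1) (c := 3) (cn := .nn) (n1 := ndN0q1) (n2 := ndN2q1) (pc := pcN3) (cut := Cut.none) (xt := Ext.none) (P1 := 536870912) (W1 := 536870912) (P2 := 536870912) (W2 := 536870912) (P3 := 134217728) (W3 := 67108864) (N0 := 3)
    rfl (fun _ => rfl) k0_pm_113

end Pool.Agent.Strip051.G.I1_8_3_16.Tab.C.NA02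

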