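import Pool.Agent.Strip051.G.I1_8_3_16.Tab

/-! # Certificates N6 (generated) -/

set_option linter.all false
set_option maxRecDepth 100000

namespace Pool.Agent.Strip051.G.I1_8_3_16.Tab.C.NA02

open Pool.Agent.Strip051.PB Pool.Agent.Strip051.PB.T
open Pool.Agent.Strip051.G.I1_8_3_16.Tab

noncomputable def cut_pm_123_a : Cut := Cut.of [[⟨0, 1, 0, 39843005⟩, ⟨1, 1, 0, 39843005⟩, ⟨2, 2, 0, 5814905⟩]]

noncomputable def f_pm_123_a : ℕ → ℕ → ℕ → ℕ → Bool := onCell 1610612736 536870912 0 536870912 134217728 67108864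
    (rowN 3 2 true true false .npn 1 2 3 (qsf 536870912 536870912 0 536870912 3) ndN0q1 ndN2q2a pcN3 cut_pm_123_a Ext.none)

def k0_pm_123_a : ∃ t, chk3 f_pm_123_a t 1 1 1 = true :=
  ⟨(a (b (a (a (l 1) (l 17682656)) (a (l 17568800) (l 17447600))) (a (b (a (l 1) (l 17655672)) (b (a (l 17718600) (l 17637248)) (a (l 17705768) (l 17628568)))) (b (a (l 17548912) (l 17431160)) (a (b (l 17537232) (l 17525560)) (b (l 17415160) (l 17400120)))))) (a (b (a (l 17317632) (l 17176576)) (b (a (l 17295080) (l 17169640)) (a (b (l 17274960) (l 17255464)) (b (l 17125744) (l 17233808))))) (a (b (l 17206992) (b (l 17046968) (b (l 16981008) (a (l 17003392) (l 16936408))))) (a (b (l 16926048) (b (l 16949456) (b (l 16885848) (b (l 16854752) (l 16870744))))) (b (a (l 16866968) (a (l 16835760) (l 4))) (a (b (l 16857400) (b (l 16839544) (b (l 16831432) (b (l 16826528) (l 16802760))))) (b (a (l 16821584) (a (l 16804600) (l 17022280))) (a (b (l 16824984) (b (l 16810056) (b (l 16804176) (l 16790632))))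 (a (b (l 16806144) (b (l 16799144) (b (l 16793664) (l 16800464)))) (b (a (l 16790040) (l 16955808)) (b (a (l 16797648) (b (l 16945136) (l 6))) (l 6)))))))))))), by decide +kernel⟩

theorem c_pm_123_a : CertN 536870912 536870912 0 536870912 134217728 67108864 3 true true false .npn 1 2 3
    ndN0q1 ndN2q2a pcN3 cut_pm_123_a Ext.none :=
  certN2 (fam := true) (s1 := true) (s2 := false) (a := 1) (b := 2) (c := 3) (cn := .npn) (n1 := ndN0q1) (n2 := ndN2q2a) (pc := pcN3) (cut := cut_pm_123_a) (xt := Ext.none) (P1 := 536870912) (W1 := 536870912) (P2 := 0) (W2 := 536870912) (P3 := 134217728) (W3 := 67108864) (N0 := 3)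
    rfl (fun _ => rfl) k0_pm_123_a

noncomputable def cut_pm_123_b : Cut := Cut.of [[⟨0, 1, 0, 39843005⟩, ⟨1, 1, 0, 39843005⟩, ⟨2, 2, 0, 5814905⟩]]

noncomputable def f_pm_123_b : ℕ → ℕ → ℕ → ℕ → Bool := onCell 536870912 536870912 1610612736 536870912 134217728 67108864
    (rowN 3 1 true true false .npn 1 2 3 (qsf 536870912 536870912 1239849684 370763052 3) ndN0q1 ndN2q2b pcN3 cut_pm_123_b Ext.none)

def k0_pm_123_b : ∃ t, chk3 f_pm_123_b t 1 1 1 = true :=
  ⟨(b (a (a (b (l 1) (l 243237983303)) (l 1)) (l 1)) (b (a (a (b (l 17386408) (l 17448240)) (a (l 17261808) (l 291555794743))) (l 1)) (a (b (a (l 17258632) (a (l 17150952) (l 17074888))) (b (a (l 17195456) (l 17043504)) (a (l 4) (l 4)))) (a (b (a (l 279207214615) (l 1)) (b (l 302292632439) (b (l 17075896) (b (l 16951696) (l 4))))) (l 1))))), by decide +kernel⟩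

theorem c_pm_123_b : CertN 536870912 536870912 1239849684 370763052 134217728 67108864 3 true true false .npn 1 2 3
    ndN0q1 ndN2q2b pcN3 cut_pm_123_b Ext.none :=
  certN1 (fam := true) (s1 := true) (s2 := false) (a := 1) (b := 2) (c := 3) (cn := .npn) (n1 := ndN0q1) (n2 := ndN2q2b) (pc := pcN3) (cut := cut_pm_123_b) (xt := Ext.none) (P1 := 536870912) (W1 := 536870912) (P2 := 1239849684) (W2 := 370763052) (P3 := 134217728) (W3 := 67108864) (N0 := 3)
    rfl (fun _ => rfl) k0_pm_123_b

noncomputable def f_pm_133 : ℕ → ℕ → ℕ → ℕ → Bool := onCell 536870912 536870912 1610612736 536870912 134217728 67108864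
    (rowN 3 0 true true false .dn 1 3 3 (qsf 536870912 536870912 1610612736 536870912 3) ndN0q1 ndN2q3 pcN3 Cut.none Ext.none)

def k0_pm_133 : ∃ t, chk3 f_pm_133 t 1 1 1 = true :=
  ⟨(a (l 4) (l 2)), by decide +kernel⟩

theorem c_pm_133 : CertN 536870912 536870912 1610612736 536870912 134217728 67108864 3 true true false .dn 1 3 3
    ndN0q1 ndN2q3 pcN3 Cut.none Ext.none :=
  certN0 (fam := true) (s1 := true) (s2 := false) (a := 1) (b := 3) (c := 3) (cn := .dn) (n1 := ndN0q1) (n2 := ndN2q3) (pc := pcN3) (cut := Cut.none) (xt := Ext.none) (P1 := 536870912) (W1 := 536870912) (P2 := 1610612736) (W2 := 536870912) (P3 := 134217728) (W3 := 67108864) (N0 := 3)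
    rfl k0_pm_133

noncomputable def cut_pm_202 : Cut := Cut.of [[⟨0, 1, 0, 67108864⟩, ⟨1, 0, 0, 67108864⟩, ⟨2, 1, 0, 67108864⟩]]

noncomputable def f_pm_202 : ℕ → ℕ → ℕ → ℕ → Bool := onCell 0 536870912 1073741824 536870912 134217728 67108864
    (rowN 3 1 true true false .pp 2 0 2 (qsf 0 536870912 0 536870912 2) ndN0q2 ndN2q0 pcN2 cut_pm_202 Ext.none)

def k0_pm_202 : ∃ t, chk3 f_pm_202 t 2 1 1 = true :=
  ⟨(b (a (b (l 1) (b (b (b (l 1) (b (a (l 1) (c (a (l 1) (l 281353644903)) (l 252899291527))) (c (a (b (l 1) (a (l 279743046103) (l 326450809847))) (b (a (l 16745856) (l 16781312)) (a (l 16873096) (l 16864400)))) (a (b (l 1) (l 290480260663)) (b (l 16525344) (l 16551144)))))) (b (a (c (b (l 16994128) (l 17122520)) (l 16499944)) (c (l 16986520) (l 16498048))) (a (l 16946104) (l 16941800)))) (b (a (l 17221040) (l 17217520)) (l 17430576)))) (b (a (l 1) (b (l 1) (b (l 1) (b (l 1) (b (l 1) (a (l 1) (c (b (l 287795925783) (l 300680841159)) (l 307123293143)))))))) (b (b (b (a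 (b (l 1) (c (a (l 236793136199) (l 311418254311)) (a (l 229276917719) (l 300680793159)))) (b (a (c (l 310344524375) (l 296385847383)) (c (l 352757333911) (l 16550728))) (a (c (l 16558024) (l 16534936)) (l 16560440)))) (b (a (a (c (b (l 247530742375) (l 16680984)) (l 16529344)) (c (l 16624104) (l 16515560))) (c (l 16614312) (l 16532816))) (a (b (a (l 16532520) (l 16518312)) (b (l 16536688) (l 16544128))) (b (l 16534832) (l 16590688))))) (a (b (a (l 16660960) (l 16655440)) (l 16928344)) (b (l 16650248) (l 16913864)))) (b (a (l 17205840) (l 17188528)) (l 17419016))))) (b (b (a (l 17571120) (l 17587576)) (l 17857320)) (b (l 17628752) (l 17573984)))), by decide +kernel⟩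

def k1_pm_202 : ∃ t, chk3 f_pm_202 t 6 2 1 = true :=
  ⟨(b (a (b (l 1) (b (l 1) (b (b (a (l 1) (a (l 1) (b (c (l 304439022695) (l 292627813111)) (c (l 309807724407) (l 302828373623))))) (a (b (l 1) (c (l 317860751511) (l 323229403719))) (b (c (a (l 354904838935) (l 16595656)) (l 312492037175)) (c (l 357052341735) (l 336651213687))))) (b (a (b (c (l 277595422247) (l 274911036663)) (c (l 324303185143) (l 318934436679))) (c (l 16603544) (a (l 16585264) (l 16575600)))) (a (c (a (l 16578520) (l 16568776)) (l 16566552)) (l 16603336)))))) (b (l 1) (b (b (a (l 1) (b (l 1) (c (a (b (l 1) (l 280279896839)) (b (a (l 272763705351) (l 342020077207)) (l 339335703175))) (a (l 266321264663) (b (l 301754740583) (l 323766436551)))))) (b (b (a (l 1) (a (c (l 296922876167) (l 278669247079)) (c (l 16644456) (l 16615432)))) (a (a (l 1) (c (b (l 1) (l 379064095895)) (l 323229539367))) (a (c (l 353831208279) (l 334503838903)) (l 16641880)))) (a (b (a (l 1) (c (l 314102733303) (l 308734005911)))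 (a (c (l 340946259239) (l 274374247383)) (c (l 16616912) (l 16605616)))) (a (c (b (l 16624312) (l 16598336)) (l 16653560)) (l 16669056))))) (b (b (a (a (b (c (l 336651285383) (l 331819422215)) (c (l 16604072) (l 16590896))) (c (l 16644304) (l 16631152))) (a (l 16640192) (l 16641016))) (a (c (l 16620688) (l 16614032)) (l 16632272))) (a (b (l 16606640) (l 16563312)) (l 16715496)))))) (b (b (b (a (a (b (l 16577744) (l 16536032)) (l 16645624)) (b (l 16573448) (l 16572128))) (b (a (l 16547672) (l 16571528)) (a (b (l 16527128) (l 16570416)) (l 16699792)))) (a (b (l 16653440) (l 16904160)) (l 16793504))) (b (a (l 17169184) (l 17148912)) (l 17376408)))), by decide +kernel⟩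

def k2_pm_202 : ∃ t, chk3 f_pm_202 t 7 2 1 = true :=
  ⟨(b (a (b (b (l 1) (b (a (l 1) (l 6)) (a (b (l 1) (a (l 1) (b (a (l 1) (l 6)) (c (c (a (l 336114538215) (l 16675520)) (l 331282716071)) (l 322692771847))))) (b (l 6) (b (l 6) (c (l 16689856) (l 16695120))))))) (b (b (a (b (c (a (b (a (l 1) (b (l 307123490519) (l 335040786311))) (a (l 337188259271) (l 16665064))) (b (a (l 384969793127) (l 16666400)) (l 16657480))) (a (b (l 300144169175) (l 322692731655)) (l 363494952839))) (a (c (b (l 388190985143) (l 16636368)) (l 16654560)) (l 16641416))) (a (l 16686064) (l 16659512))) (a (b (b (l 16646512) (l 16646120)) (l 16675200)) (b (l 16689408) (l 16648792)))) (b (a (b (l 16639424) (l 16615936)) (l 16757192)) (b (l 16626120) (l 16622896))))) (b (b (l 6) (b (l 6) (a (b (l 6) (l 16690648)) (l 16708984)))) (b (b (a (l 16675368) (l 16704208)) (a (l 16864904) (l 16841624))) (b (b (l 16686384) (l 16683936)) (l 16693808))))) (b (b (b (a (l 16678304) (l 16669024)) (b (a (l 16616232)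 (l 16667648)) (a (l 16681552) (l 16689496)))) (a (l 16807208) (l 16832976))) (b (a (l 17127720) (l 17107688)) (l 17310256)))), by decide +kernel⟩

def k3_pm_202 : ∃ t, chk3 f_pm_202 t 3 3 1 = true :=
  ⟨(b (a (b (l 17558272) (l 17654064)) (l 17562632)) (a (l 17665248) (l 17657504))), by decide +kernel⟩

theorem s4_pm_202 : ∃ t, chk3 f_pm_202 t 3 2 1 = true := ex3_a k1_pm_202 k2_pm_202

theorem s5_pm_202 : ∃ t, chk3 f_pm_202 t 3 1 1 = true := ex3_b s4_pm_202 k3_pm_202

theorem s6_pm_202 : ∃ t, chk3 f_pm_202 t 1 1 1 = true := ex3_a k0_pm_202 s5_pm_202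

theorem c_pm_202 : CertN 0 536870912 0 536870912 134217728 67108864 3 true true false .pp 2 0 2
    ndN0q2 ndN2q0 pcN2 cut_pm_202 Ext.none :=
  certN1 (fam := true) (s1 := true) (s2 := false) (a := 2) (b := 0) (c := 2) (cn := .pp) (n1 := ndN0q2) (n2 := ndN2q0) (pc := pcN2) (cut := cut_pm_202) (xt := Ext.none) (P1 := 0) (W1 := 536870912) (P2 := 0) (W2 := 536870912) (P3 := 134217728) (W3 := 67108864) (N0 := 3)
    rfl (fun _ => rfl) s6_pm_202

noncomputable def f_pm_203 : ℕ → ℕ → ℕ → ℕ → Bool := onCell 0 536870912 1610612736 536870912 134217728 67108864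
    (rowN 3 1 true true false .up 2 0 3 (qsf 0 536870912 0 536870912 3) ndN0q2 ndN2q0 pcN3 Cut.none Ext.none)

def k0_pm_203 : ∃ t, chk3 f_pm_203 t 1 1 1 = true :=
  ⟨(b (b (a (b (l 17961976) (l 17689264)) (b (a (l 17753080) (l 17919040)) (a (l 17692688) (l 17834936)))) (a (l 4) (b (l 17857408) (l 2)))) (l 2)), by decide +kernel⟩

theorem c_pm_203 : CertN 0 536870912 0 536870912 134217728 67108864 3 true true false .up 2 0 3
    ndN0q2 ndN2q0 pcN3 Cut.none Ext.none :=
  certN1 (fam := true) (s1 := true) (s2 := false) (a := 2) (b := 0) (c := 3) (cn := .up) (n1 := ndN0q2) (n2 := ndN2q0) (pc := pcN3) (cut := Cut.none) (xt := Ext.none) (P1 := 0) (W1 := 536870912) (P2 := 0) (W2 := 536870912) (P3 := 134217728) (W3 := 67108864) (N0 := 3)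
    rfl (fun _ => rfl) k0_pm_203

noncomputable def f_pm_213 : ℕ → ℕ → ℕ → ℕ → Bool := onCell 0 536870912 1610612736 536870912 134217728 67108864
    (rowN 3 1 true true false .pnn 2 1 3 (qsf 0 536870912 536870912 536870912 3) ndN0q2 ndN2q1 pcN3 Cut.none Ext.none)

def k0_pm_213 : ∃ t, chk3 f_pm_213 t 1 1 1 = true :=
  ⟨(a (b (b (b (l 1) (l 17198744)) (l 4)) (l 4)) (b (b (b (a (l 1) (l 17323920)) (l 60164733591)) (b (l 17315872) (l 17320272))) (l 4))), by decide +kernel⟩

theorem c_pm_213 : CertN 0 536870912 536870912 536870912 134217728 67108864 3 true true false .pnn 2 1 3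
    ndN0q2 ndN2q1 pcN3 Cut.none Ext.none :=
  certN1 (fam := true) (s1 := true) (s2 := false) (a := 2) (b := 1) (c := 3) (cn := .pnn) (n1 := ndN0q2) (n2 := ndN2q1) (pc := pcN3) (cut := Cut.none) (xt := Ext.none) (P1 := 0) (W1 := 536870912) (P2 := 536870912) (W2 := 536870912) (P3 := 134217728) (W3 := 67108864) (N0 := 3)
    rfl (fun _ => rfl) k0_pm_213

noncomputable def f_mm_001 : ℕ → ℕ → ℕ → ℕ → Bool := onCell 0 536870912 0 536870912 134217728 67108864
    (rowN 3 0 true false false .up 0 0 1 (qsf 0 536870912 0 536870912 1) ndN0q0 ndN2q0 pcN1 Cut.none Ext.none)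

def k0_mm_001 : ∃ t, chk3 f_mm_001 t 1 1 1 = true :=
  ⟨(l 4), by decide +kernel⟩

theorem c_mm_001 : CertN 0 536870912 0 536870912 134217728 67108864 3 true false false .up 0 0 1
    ndN0q0 ndN2q0 pcN1 Cut.none Ext.none :=
  certN0 (fam := true) (s1 := false) (s2 := false) (a := 0) (b := 0) (c := 1) (cn := .up) (n1 := ndN0q0) (n2 := ndN2q0) (pc := pcN1) (cut := Cut.none) (xt := Ext.none) (P1 := 0) (W1 := 536870912) (P2 := 0) (W2 := 536870912) (P3 := 134217728) (W3 := 67108864) (N0 := 3)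
    rfl k0_mm_001

noncomputable def f_mm_011 : ℕ → ℕ → ℕ → ℕ → Bool := onCell 0 536870912 536870912 536870912 134217728 67108864
    (rowN 3 0 true false false .pnn 0 1 1 (qsf 0 536870912 536870912 536870912 1) ndN0q0 ndN2q1 pcN1 Cut.none Ext.none)

def k0_mm_011 : ∃ t, chk3 f_mm_011 t 1 1 1 = true :=
  ⟨(l 4), by decide +kernel⟩

theorem c_mm_011 : CertN 0 536870912 536870912 536870912 134217728 67108864 3 true false false .pnn 0 1 1
    ndN0q0 ndN2q1 pcN1 Cut.none Ext.none :=
  certN0 (fam := true) (s1 := false) (s2 := false) (a := 0) (b := 1) (c := 1) (cn := .pnn) (n1 := ndN0q0) (n2 := ndN2q1) (pc := pcN1) (cut := Cut.none) (xt := Ext.none) (P1 := 0) (W1 := 536870912) (P2 := 536870912) (W2 := 536870912) (P3 := 134217728) (W3 := 67108864) (N0 := 3)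
    rfl k0_mm_011

noncomputable def f_mm_012 : ℕ → ℕ → ℕ → ℕ → Bool := onCell 0 536870912 536870912 536870912 134217728 67108864
    (rowN 3 0 true false false .pnp 0 1 2 (qsf 0 536870912 536870912 536870912 2) ndN0q0 ndN2q1 pcN2 Cut.none Ext.none)

def k0_mm_012 : ∃ t, chk3 f_mm_012 t 1 1 1 = true :=
  ⟨(l 4), by decide +kernel⟩

theorem c_mm_012 : CertN 0 536870912 536870912 536870912 134217728 67108864 3 true false false .pnp 0 1 2
    ndN0q0 ndN2q1 pcN2 Cut.none Ext.none :=
  certN0 (fam := true) (s1 := false) (s2 := false) (a := 0) (b := 1) (c := 2) (cn := .pnp) (n1 := ndN0q0) (n2 := ndN2q1) (pc := pcN2) (cut := Cut.none) (xt := Ext.none) (P1 := 0) (W1 := 536870912) (P2 := 536870912) (W2 := 536870912) (P3 := 134217728) (W3 := 67108864) (N0 := 3)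
    rfl k0_mm_012

noncomputable def f_mm_022_a : ℕ → ℕ → ℕ → ℕ → Bool := onCell 0 536870912 0 536870912 134217728 67108864
    (rowN 3 0 true false false .pp 0 2 2 (qsf 0 536870912 0 536870912 2) ndN0q0 ndN2q2a pcN2 Cut.none Ext.none)

def k0_mm_022_a : ∃ t, chk3 f_mm_022_a t 1 1 1 = true :=
  ⟨(l 5), by decide +kernel⟩

theorem c_mm_022_a : CertN 0 536870912 0 536870912 134217728 67108864 3 true false false .pp 0 2 2
    ndN0q0 ndN2q2a pcN2 Cut.none Ext.none :=
  certN0 (fam := true) (s1 := false) (s2 := false) (a := 0) (b := 2) (c := 2) (cn := .pp) (n1 := ndN0q0) (n2 := ndN2q2a) (pc := pcN2) (cut := Cut.none) (xt := Ext.none) (P1 := 0) (W1 := 536870912) (P2 := 0) (W2 := 536870912) (P3 := 134217728) (W3 := 67108864) (N0 := 3)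
    rfl k0_mm_022_a

noncomputable def f_mm_022_b : ℕ → ℕ → ℕ → ℕ → Bool := onCell 0 536870912 1239849684 370763052 134217728 67108864
    (rowN 3 0 true false false .pp 0 2 2 (qsf 0 536870912 1239849684 370763052 2) ndN0q0 ndN2q2b pcN2 Cut.none Ext.none)

def k0_mm_022_b : ∃ t, chk3 f_mm_022_b t 1 1 1 = true :=
  ⟨(l 5), by decide +kernel⟩

theorem c_mm_022_b : CertN 0 536870912 1239849684 370763052 134217728 67108864 3 true false false .pp 0 2 2
    ndN0q0 ndN2q2b pcN2 Cut.none Ext.none :=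
  certN0 (fam := true) (s1 := false) (s2 := false) (a := 0) (b := 2) (c := 2) (cn := .pp) (n1 := ndN0q0) (n2 := ndN2q2b) (pc := pcN2) (cut := Cut.none) (xt := Ext.none) (P1 := 0) (W1 := 536870912) (P2 := 1239849684) (W2 := 370763052) (P3 := 134217728) (W3 := 67108864) (N0 := 3)
    rfl k0_mm_022_b

noncomputable def f_mm_023_a : ℕ → ℕ → ℕ → ℕ → Bool := onCell 0 536870912 0 536870912 134217728 67108864
    (rowN 3 0 true false false .up 0 2 3 (qsf 0 536870912 0 536870912 3) ndN0q0 ndN2q2a pcN3 Cut.none Ext.none)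

def k0_mm_023_a : ∃ t, chk3 f_mm_023_a t 1 1 1 = true :=
  ⟨(l 5), by decide +kernel⟩

theorem c_mm_023_a : CertN 0 536870912 0 536870912 134217728 67108864 3 true false false .up 0 2 3
    ndN0q0 ndN2q2a pcN3 Cut.none Ext.none :=
  certN0 (fam := true) (s1 := false) (s2 := false) (a := 0) (b := 2) (c := 3) (cn := .up) (n1 := ndN0q0) (n2 := ndN2q2a) (pc := pcN3) (cut := Cut.none) (xt := Ext.none) (P1 := 0) (W1 := 536870912) (P2 := 0) (W2 := 536870912) (P3 := 134217728) (W3 := 67108864) (N0 := 3)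
    rfl k0_mm_023_a

noncomputable def f_mm_023_b : ℕ → ℕ → ℕ → ℕ → Bool := onCell 0 536870912 1239849684 370763052 134217728 67108864
    (rowN 3 0 true false false .up 0 2 3 (qsf 0 536870912 1239849684 370763052 3) ndN0q0 ndN2q2b pcN3 Cut.none Ext.none)

def k0_mm_023_b : ∃ t, chk3 f_mm_023_b t 1 1 1 = true :=
  ⟨(l 5), by decide +kernel⟩

theorem c_mm_023_b : CertN 0 536870912 1239849684 370763052 134217728 67108864 3 true false false .up 0 2 3
    ndN0q0 ndN2q2b pcN3 Cut.none Ext.none :=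
  certN0 (fam := true) (s1 := false) (s2 := false) (a := 0) (b := 2) (c := 3) (cn := .up) (n1 := ndN0q0) (n2 := ndN2q2b) (pc := pcN3) (cut := Cut.none) (xt := Ext.none) (P1 := 0) (W1 := 536870912) (P2 := 1239849684) (W2 := 370763052) (P3 := 134217728) (W3 := 67108864) (N0 := 3)
    rfl k0_mm_023_b

noncomputable def f_mm_033 : ℕ → ℕ → ℕ → ℕ → Bool := onCell 0 536870912 1610612736 536870912 134217728 67108864
    (rowN 3 0 true false false .pnn 0 3 3 (qsf 0 536870912 1610612736 536870912 3) ndN0q0 ndN2q3 pcN3 Cut.none Ext.none)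

def k0_mm_033 : ∃ t, chk3 f_mm_033 t 1 1 1 = true :=
  ⟨(l 4), by decide +kernel⟩

theorem c_mm_033 : CertN 0 536870912 1610612736 536870912 134217728 67108864 3 true false false .pnn 0 3 3
    ndN0q0 ndN2q3 pcN3 Cut.none Ext.none :=
  certN0 (fam := true) (s1 := false) (s2 := false) (a := 0) (b := 3) (c := 3) (cn := .pnn) (n1 := ndN0q0) (n2 := ndN2q3) (pc := pcN3) (cut := Cut.none) (xt := Ext.none) (P1 := 0) (W1 := 536870912) (P2 := 1610612736) (W2 := 536870912) (P3 := 134217728) (W3 := 67108864) (N0 := 3)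
    rfl k0_mm_033

noncomputable def cut_mm_101 : Cut := Cut.of [[⟨0, 1, 0, 67108864⟩, ⟨1, 0, 0, 67108864⟩, ⟨2, 1, 0, 67108864⟩]]

noncomputable def f_mm_101 : ℕ → ℕ → ℕ → ℕ → Bool := onCell 536870912 536870912 0 536870912 134217728 67108864
    (rowN 3 0 true false false .npn 1 0 1 (qsf 536870912 536870912 0 536870912 1) ndN0q1 ndN2q0 pcN1 cut_mm_101 Ext.none)

def k0_mm_101 : ∃ t, chk3 f_mm_101 t 1 1 1 = true :=
  ⟨(a (l 4) (b (a (l 4) (a (l 4) (b (a (l 4) (b (b (l 6) (l 4)) (l 2))) (l 2)))) (l 4))), by decide +kernel⟩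

theorem c_mm_101 : CertN 536870912 536870912 0 536870912 134217728 67108864 3 true false false .npn 1 0 1
    ndN0q1 ndN2q0 pcN1 cut_mm_101 Ext.none :=
  certN0 (fam := true) (s1 := false) (s2 := false) (a := 1) (b := 0) (c := 1) (cn := .npn) (n1 := ndN0q1) (n2 := ndN2q0) (pc := pcN1) (cut := cut_mm_101) (xt := Ext.none) (P1 := 536870912) (W1 := 536870912) (P2 := 0) (W2 := 536870912) (P3 := 134217728) (W3 := 67108864) (N0 := 3)
    rfl k0_mm_101

noncomputable def cut_mm_102 : Cut := Cut.of [[⟨0, 1, 0, 67108864⟩, ⟨1, 0, 0, 67108864⟩, ⟨2, 1, 0, 67108864⟩]]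

noncomputable def f_mm_102 : ℕ → ℕ → ℕ → ℕ → Bool := onCell 536870912 536870912 0 536870912 134217728 67108864
    (rowN 3 0 true false false .npp 1 0 2 (qsf 536870912 536870912 0 536870912 2) ndN0q1 ndN2q0 pcN2 cut_mm_102 Ext.none)

def k0_mm_102 : ∃ t, chk3 f_mm_102 t 1 1 1 = true :=
  ⟨(a (l 4) (b (a (l 4) (b (a (l 4) (a (l 4) (b (b (l 6) (l 4)) (l 4)))) (l 4))) (l 4))), by decide +kernel⟩

theorem c_mm_102 : CertN 536870912 536870912 0 536870912 134217728 67108864 3 true false false .npp 1 0 2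
    ndN0q1 ndN2q0 pcN2 cut_mm_102 Ext.none :=
  certN0 (fam := true) (s1 := false) (s2 := false) (a := 1) (b := 0) (c := 2) (cn := .npp) (n1 := ndN0q1) (n2 := ndN2q0) (pc := pcN2) (cut := cut_mm_102) (xt := Ext.none) (P1 := 536870912) (W1 := 536870912) (P2 := 0) (W2 := 536870912) (P3 := 134217728) (W3 := 67108864) (N0 := 3)
    rfl k0_mm_102

noncomputable def f_mm_112 : ℕ → ℕ → ℕ → ℕ → Bool := onCell 536870912 536870912 536870912 536870912 134217728 67108864
    (rowN 3 0 true false false .dn 1 1 2 (qsf 536870912 536870912 536870912 536870912 2) ndN0q1 ndN2q1 pcN2 Cut.none Ext.none)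

def k0_mm_112 : ∃ t, chk3 f_mm_112 t 1 1 1 = true :=
  ⟨(l 4), by decide +kernel⟩

theorem c_mm_112 : CertN 536870912 536870912 536870912 536870912 134217728 67108864 3 true false false .dn 1 1 2
    ndN0q1 ndN2q1 pcN2 Cut.none Ext.none :=
  certN0 (fam := true) (s1 := false) (s2 := false) (a := 1) (b := 1) (c := 2) (cn := .dn) (n1 := ndN0q1) (n2 := ndN2q1) (pc := pcN2) (cut := Cut.none) (xt := Ext.none) (P1 := 536870912) (W1 := 536870912) (P2 := 536870912) (W2 := 536870912) (P3 := 134217728) (W3 := 67108864) (N0 := 3)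
    rfl k0_mm_112

noncomputable def f_mm_113 : ℕ → ℕ → ℕ → ℕ → Bool := onCell 536870912 536870912 536870912 536870912 134217728 67108864
    (rowN 3 0 true false false .nn 1 1 3 (qsf 536870912 536870912 536870912 536870912 3) ndN0q1 ndN2q1 pcN3 Cut.none Ext.none)

def k0_mm_113 : ∃ t, chk3 f_mm_113 t 1 1 1 = true :=
  ⟨(l 4), by decide +kernel⟩

theorem c_mm_113 : CertN 536870912 536870912 536870912 536870912 134217728 67108864 3 true false false .nn 1 1 3
    ndN0q1 ndN2q1 pcN3 Cut.none Ext.none :=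
  certN0 (fam := true) (s1 := false) (s2 := false) (a := 1) (b := 1) (c := 3) (cn := .nn) (n1 := ndN0q1) (n2 := ndN2q1) (pc := pcN3) (cut := Cut.none) (xt := Ext.none) (P1 := 536870912) (W1 := 536870912) (P2 := 536870912) (W2 := 536870912) (P3 := 134217728) (W3 := 67108864) (N0 := 3)
    rfl k0_mm_113

noncomputable def f_mm_123_a : ℕ → ℕ → ℕ → ℕ → Bool := onCell 536870912 536870912 0 536870912 134217728 67108864
    (rowN 3 0 true false false .npn 1 2 3 (qsf 536870912 536870912 0 536870912 3) ndN0q1 ndN2q2a pcN3 Cut.none Ext.none)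

def k0_mm_123_a : ∃ t, chk3 f_mm_123_a t 1 1 1 = true :=
  ⟨(l 4), by decide +kernel⟩

theorem c_mm_123_a : CertN 536870912 536870912 0 536870912 134217728 67108864 3 true false false .npn 1 2 3
    ndN0q1 ndN2q2a pcN3 Cut.none Ext.none :=
  certN0 (fam := true) (s1 := false) (s2 := false) (a := 1) (b := 2) (c := 3) (cn := .npn) (n1 := ndN0q1) (n2 := ndN2q2a) (pc := pcN3) (cut := Cut.none) (xt := Ext.none) (P1 := 536870912) (W1 := 536870912) (P2 := 0) (W2 := 536870912) (P3 := 134217728) (W3 := 67108864) (N0 := 3)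
    rfl k0_mm_123_a

noncomputable def f_mm_123_b : ℕ → ℕ → ℕ → ℕ → Bool := onCell 536870912 536870912 1239849684 370763052 134217728 67108864
    (rowN 3 0 true false false .npn 1 2 3 (qsf 536870912 536870912 1239849684 370763052 3) ndN0q1 ndN2q2b pcN3 Cut.none Ext.none)

def k0_mm_123_b : ∃ t, chk3 f_mm_123_b t 1 1 1 = true :=
  ⟨(l 4), by decide +kernel⟩

theorem c_mm_123_b : CertN 536870912 536870912 1239849684 370763052 134217728 67108864 3 true false false .npn 1 2 3
    ndN0q1 ndN2q2b pcN3 Cut.none Ext.none :=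
  certN0 (fam := true) (s1 := false) (s2 := false) (a := 1) (b := 2) (c := 3) (cn := .npn) (n1 := ndN0q1) (n2 := ndN2q2b) (pc := pcN3) (cut := Cut.none) (xt := Ext.none) (P1 := 536870912) (W1 := 536870912) (P2 := 1239849684) (W2 := 370763052) (P3 := 134217728) (W3 := 67108864) (N0 := 3)
    rfl k0_mm_123_b

noncomputable def f_mm_133 : ℕ → ℕ → ℕ → ℕ → Bool := onCell 536870912 536870912 1610612736 536870912 134217728 67108864
    (rowN 3 0 true false false .dn 1 3 3 (qsf 536870912 536870912 1610612736 536870912 3) ndN0q1 ndN2q3 pcN3 Cut.none Ext.none)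

def k0_mm_133 : ∃ t, chk3 f_mm_133 t 1 1 1 = true :=
  ⟨(l 4), by decide +kernel⟩

theorem c_mm_133 : CertN 536870912 536870912 1610612736 536870912 134217728 67108864 3 true false false .dn 1 3 3
    ndN0q1 ndN2q3 pcN3 Cut.none Ext.none :=
  certN0 (fam := true) (s1 := false) (s2 := false) (a := 1) (b := 3) (c := 3) (cn := .dn) (n1 := ndN0q1) (n2 := ndN2q3) (pc := pcN3) (cut := Cut.none) (xt := Ext.none) (P1 := 536870912) (W1 := 536870912) (P2 := 1610612736) (W2 := 536870912) (P3 := 134217728) (W3 := 67108864) (N0 := 3)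
    rfl k0_mm_133

noncomputable def cut_mm_202 : Cut := Cut.of [[⟨0, 1, 0, 67108864⟩, ⟨1, 0, 0, 67108864⟩, ⟨2, 1, 0, 67108864⟩]]

noncomputable def f_mm_202 : ℕ → ℕ → ℕ → ℕ → Bool := onCell 0 536870912 0 536870912 134217728 67108864
    (rowN 3 0 true false false .pp 2 0 2 (qsf 0 536870912 0 536870912 2) ndN0q2 ndN2q0 pcN2 cut_mm_202 Ext.none)

def k0_mm_202 : ∃ t, chk3 f_mm_202 t 2 1 1 = true :=
  ⟨(b (b (a (b (b (a (b (c (b (a (l 16964760) (l 16943832)) (l 17086656)) (a (l 16521680) (l 16511056))) (l 16914528)) (b (c (a (l 16949248) (l 16798904)) (l 16547248)) (l 16840192))) (b (l 17080008) (l 17226680))) (l 17425744)) (b (b (a (b (b (c (a (l 16724576) (l 16587472)) (l 16564408)) (l 16590504)) (l 16685168)) (b (c (b (a (l 16590648) (l 16610000)) (l 16597704)) (a (l 16573328) (l 16616432))) (l 16608056))) (a (l 17018248) (l 16835104))) (b (l 17172272) (l 17274272)))) (b (a (l 17500608) (l 17406064)) (a (l 17465368) (l 4)))) (b (b (l 35133087607) (l 4)) (l 4))), by decide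 +kernel⟩

def k1_mm_202 : ∃ t, chk3 f_mm_202 t 3 1 1 = true :=
  ⟨(b (b (a (b (b (a (b (b (c (a (b (l 16629720) (l 16628760)) (a (l 16643352) (l 16663120))) (a (l 16617736) (l 16659312))) (c (l 16637376) (l 16627560))) (l 16694112)) (b (b (a (c (b (a (l 16662008) (l 16671008)) (l 16666288)) (b (l 16679104) (l 16658272))) (c (a (c (l 16681696) (l 16678072)) (b (c (l 16690552) (l 16687152)) (l 16688920))) (b (a (l 16672520) (l 16682096)) (l 16677784)))) (a (l 16683200) (l 16702456))) (a (l 16662504) (l 16682592)))) (a (l 16693432) (a (l 16685600) (l 16755672)))) (b (a (l 16921968) (l 27615359239)) (l 17069512))) (b (a (b (b (a (b (b (b (c (a (c (l 16699400) (l 16696280)) (c (l 16708464) (l 16705680))) (a (l 16691632) (c (l 16702904) (l 16700152)))) (c (l 16723552) (l 16696944))) (c (l 16702768) (l 16697464))) (c (l 16703192) (l 16698576))) (a (b (b (l 6) (c (l 16717112) (l 16712848))) (l 16716016)) (b (l 6) (l 16726552)))) (a (l 16723664) (a (l 16739528) (l 16775440)))) (a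 (b (l 16712480) (l 16747032)) (b (l 34057719159) (l 4)))) (b (a (a (b (l 6) (a (l 16768128) (l 16800888))) (l 6)) (l 6)) (l 4))) (l 4))) (l 4)) (l 4)), by decide +kernel⟩

theorem s2_mm_202 : ∃ t, chk3 f_mm_202 t 1 1 1 = true := ex3_a k0_mm_202 k1_mm_202

theorem c_mm_202 : CertN 0 536870912 0 536870912 134217728 67108864 3 true false false .pp 2 0 2
    ndN0q2 ndN2q0 pcN2 cut_mm_202 Ext.none :=
  certN0 (fam := true) (s1 := false) (s2 := false) (a := 2) (b := 0) (c := 2) (cn := .pp) (n1 := ndN0q2) (n2 := ndN2q0) (pc := pcN2) (cut := cut_mm_202) (xt := Ext.none) (P1 := 0) (W1 := 536870912) (P2 := 0) (W2 := 536870912) (P3 := 134217728) (W3 := 67108864) (N0 := 3)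
    rfl s2_mm_202

noncomputable def f_mm_203 : ℕ → ℕ → ℕ → ℕ → Bool := onCell 0 536870912 1610612736 536870912 134217728 67108864
    (rowN 3 1 true false false .up 2 0 3 (qsf 0 536870912 0 536870912 3) ndN0q2 ndN2q0 pcN3 Cut.none Ext.none)

def k0_mm_203 : ∃ t, chk3 f_mm_203 t 1 1 1 = true :=
  ⟨(l 4), by decide +kernel⟩

theorem c_mm_203 : CertN 0 536870912 0 536870912 134217728 67108864 3 true false false .up 2 0 3
    ndN0q2 ndN2q0 pcN3 Cut.none Ext.none :=
  certN1 (fam := true) (s1 := false) (s2 := false) (a := 2) (b := 0) (c := 3) (cn := .up) (n1 := ndN0q2) (n2 := ndN2q0) (pc := pcN3) (cut := Cut.none) (xt := Ext.none) (P1 := 0) (W1 := 536870912) (P2 := 0) (W2 := 536870912) (P3 := 134217728) (W3 := 67108864) (N0 := 3)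
    rfl (fun _ => rfl) k0_mm_203

noncomputable def f_mm_213 : ℕ → ℕ → ℕ → ℕ → Bool := onCell 0 536870912 536870912 536870912 134217728 67108864
    (rowN 3 0 true false false .pnn 2 1 3 (qsf 0 536870912 536870912 536870912 3) ndN0q2 ndN2q1 pcN3 Cut.none Ext.none)

def k0_mm_213 : ∃ t, chk3 f_mm_213 t 1 1 1 = true :=
  ⟨(l 4), by decide +kernel⟩

theorem c_mm_213 : CertN 0 536870912 536870912 536870912 134217728 67108864 3 true false false .pnn 2 1 3
    ndN0q2 ndN2q1 pcN3 Cut.none Ext.none :=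
  certN0 (fam := true) (s1 := false) (s2 := false) (a := 2) (b := 1) (c := 3) (cn := .pnn) (n1 := ndN0q2) (n2 := ndN2q1) (pc := pcN3) (cut := Cut.none) (xt := Ext.none) (P1 := 0) (W1 := 536870912) (P2 := 536870912) (W2 := 536870912) (P3 := 134217728) (W3 := 67108864) (N0 := 3)
    rfl k0_mm_213

end Pool.Agent.Strip051.G.I1_8_3_16.Tab.C.NA02

namespace Pool.Agent.Strip051.G.I1_8_3_16.Tab.C.NA03

open Pool.Agent.Strip051.PB Pool.Agent.Strip051.PB.T
open Pool.Agent.Strip051.G.I1_8_3_16.Tab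

noncomputable def f_pp_001 : ℕ → ℕ → ℕ → ℕ → Bool := onCell 0 536870912 0 536870912 134217728 67108864
    (rowN 3 0 true true true .up 0 0 1 (qsf 0 536870912 0 536870912 1) ndN0q0 ndN3q0 pcN1 Cut.none Ext.none)

def k0_pp_001 : ∃ t, chk3 f_pp_001 t 1 1 1 = true :=
  ⟨(l 4), by decide +kernel⟩

theorem c_pp_001 : CertN 0 536870912 0 536870912 134217728 67108864 3 true true true .up 0 0 1
    ndN0q0 ndN3q0 pcN1 Cut.none Ext.none :=
  certN0 (fam := true) (s1 := true) (s2 := true) (a := 0) (b := 0) (c := 1) (cn := .up) (n1 := ndN0q0) (n2 := ndN3q0) (pc := pcN1) (cut := Cut.none) (xt := Ext.none) (P1 := 0) (W1 := 536870912) (P2 := 0) (W2 := 536870912) (P3 := 134217728) (W3 := 67108864) (N0 := 3)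
    rfl k0_pp_001

noncomputable def f_pp_011 : ℕ → ℕ → ℕ → ℕ → Bool := onCell 0 536870912 536870912 536870912 134217728 67108864
    (rowN 3 0 true true true .pnn 0 1 1 (qsf 0 536870912 536870912 536870912 1) ndN0q0 ndN3q1 pcN1 Cut.none Ext.none)

def k0_pp_011 : ∃ t, chk3 f_pp_011 t 1 1 1 = true :=
  ⟨(l 4), by decide +kernel⟩

theorem c_pp_011 : CertN 0 536870912 536870912 536870912 134217728 67108864 3 true true true .pnn 0 1 1
    ndN0q0 ndN3q1 pcN1 Cut.none Ext.none :=
  certN0 (fam := true) (s1 := true) (s2 := true) (a := 0) (b := 1) (c := 1) (cn := .pnn) (n1 := ndN0q0) (n2 := ndN3q1) (pc := pcN1) (cut := Cut.none) (xt := Ext.none) (P1 := 0) (W1 := 536870912) (P2 := 536870912) (W2 := 536870912) (P3 := 134217728) (W3 := 67108864) (N0 := 3)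
    rfl k0_pp_011

noncomputable def f_pp_012 : ℕ → ℕ → ℕ → ℕ → Bool := onCell 0 536870912 536870912 536870912 134217728 67108864
    (rowN 3 0 true true true .pnp 0 1 2 (qsf 0 536870912 536870912 536870912 2) ndN0q0 ndN3q1 pcN2 Cut.none Ext.none)

def k0_pp_012 : ∃ t, chk3 f_pp_012 t 1 1 1 = true :=
  ⟨(l 4), by decide +kernel⟩

theorem c_pp_012 : CertN 0 536870912 536870912 536870912 134217728 67108864 3 true true true .pnp 0 1 2
    ndN0q0 ndN3q1 pcN2 Cut.none Ext.none :=
  certN0 (fam := true) (s1 := true) (s2 := true) (a := 0) (b := 1) (c := 2) (cn := .pnp) (n1 := ndN0q0) (n2 := ndN3q1) (pc := pcN2) (cut := Cut.none) (xt := Ext.none) (P1 := 0) (W1 := 536870912) (P2 := 536870912) (W2 := 536870912) (P3 := 134217728) (W3 := 67108864) (N0 := 3)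
    rfl k0_pp_012

noncomputable def f_pp_022 : ℕ → ℕ → ℕ → ℕ → Bool := onCell 0 536870912 1073741824 536870912 134217728 67108864
    (rowN 3 0 true true true .pp 0 2 2 (qsf 0 536870912 1073741824 536870912 2) ndN0q0 ndN3q2 pcN2 Cut.none Ext.none)

def k0_pp_022 : ∃ t, chk3 f_pp_022 t 1 1 1 = true :=
  ⟨(l 4), by decide +kernel⟩

theorem c_pp_022 : CertN 0 536870912 1073741824 536870912 134217728 67108864 3 true true true .pp 0 2 2
    ndN0q0 ndN3q2 pcN2 Cut.none Ext.none :=
  certN0 (fam := true) (s1 := true) (s2 := true) (a := 0) (b := 2) (c := 2) (cn := .pp) (n1 := ndN0q0) (n2 := ndN3q2) (pc := pcN2) (cut := Cut.none) (xt := Ext.none) (P1 := 0) (W1 := 536870912) (P2 := 1073741824) (W2 := 536870912) (P3 := 134217728) (W3 := 67108864) (N0 := 3)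
    rfl k0_pp_022

noncomputable def f_pp_023 : ℕ → ℕ → ℕ → ℕ → Bool := onCell 0 536870912 1073741824 536870912 134217728 67108864
    (rowN 3 0 true true true .up 0 2 3 (qsf 0 536870912 1073741824 536870912 3) ndN0q0 ndN3q2 pcN3 Cut.none Ext.none)

def k0_pp_023 : ∃ t, chk3 f_pp_023 t 1 1 1 = true :=
  ⟨(l 4), by decide +kernel⟩

theorem c_pp_023 : CertN 0 536870912 1073741824 536870912 134217728 67108864 3 true true true .up 0 2 3
    ndN0q0 ndN3q2 pcN3 Cut.none Ext.none :=
  certN0 (fam := true) (s1 := true) (s2 := true) (a := 0) (b := 2) (c := 3) (cn := .up) (n1 := ndN0q0) (n2 := ndN3q2) (pc := pcN3) (cut := Cut.none) (xt := Ext.none) (P1 := 0) (W1 := 536870912) (P2 := 1073741824) (W2 := 536870912) (P3 := 134217728) (W3 := 67108864) (N0 := 3)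
    rfl k0_pp_023

noncomputable def f_pp_033 : ℕ → ℕ → ℕ → ℕ → Bool := onCell 0 536870912 0 1230186008 134217728 67108864
    (rowN 3 0 true true true .pnn 0 3 3 (qsf 0 536870912 0 1230186008 3) ndN0q0 ndN3q3 pcN3 Cut.none Ext.none)

def k0_pp_033 : ∃ t, chk3 f_pp_033 t 1 1 1 = true :=
  ⟨(b (l 4) (l 4)), by decide +kernel⟩

theorem c_pp_033 : CertN 0 536870912 0 1230186008 134217728 67108864 3 true true true .pnn 0 3 3
    ndN0q0 ndN3q3 pcN3 Cut.none Ext.none :=
  certN0 (fam := true) (s1 := true) (s2 := true) (a := 0) (b := 3) (c := 3) (cn := .pnn) (n1 := ndN0q0) (n2 := ndN3q3) (pc := pcN3) (cut := Cut.none) (xt := Ext.none) (P1 := 0) (W1 := 536870912) (P2 := 0) (W2 := 1230186008) (P3 := 134217728) (W3 := 67108864) (N0 := 3)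
    rfl k0_pp_033

noncomputable def f_pp_101 : ℕ → ℕ → ℕ → ℕ → Bool := onCell 536870912 536870912 0 536870912 134217728 67108864
    (rowN 3 0 true true true .npn 1 0 1 (qsf 536870912 536870912 0 536870912 1) ndN0q1 ndN3q0 pcN1 Cut.none Ext.none)

def k0_pp_101 : ∃ t, chk3 f_pp_101 t 1 1 1 = true :=
  ⟨(l 4), by decide +kernel⟩

theorem c_pp_101 : CertN 536870912 536870912 0 536870912 134217728 67108864 3 true true true .npn 1 0 1
    ndN0q1 ndN3q0 pcN1 Cut.none Ext.none :=
  certN0 (fam := true) (s1 := true) (s2 := true) (a := 1) (b := 0) (c := 1) (cn := .npn) (n1 := ndN0q1) (n2 := ndN3q0) (pc := pcN1) (cut := Cut.none) (xt := Ext.none) (P1 := 536870912) (W1 := 536870912) (P2 := 0) (W2 := 536870912) (P3 := 134217728) (W3 := 67108864) (N0 := 3)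
    rfl k0_pp_101

noncomputable def f_pp_102 : ℕ → ℕ → ℕ → ℕ → Bool := onCell 536870912 536870912 0 536870912 134217728 67108864
    (rowN 3 0 true true true .npp 1 0 2 (qsf 536870912 536870912 0 536870912 2) ndN0q1 ndN3q0 pcN2 Cut.none Ext.none)

def k0_pp_102 : ∃ t, chk3 f_pp_102 t 1 1 1 = true :=
  ⟨(l 4), by decide +kernel⟩

theorem c_pp_102 : CertN 536870912 536870912 0 536870912 134217728 67108864 3 true true true .npp 1 0 2
    ndN0q1 ndN3q0 pcN2 Cut.none Ext.none :=
  certN0 (fam := true) (s1 := true) (s2 := true) (a := 1) (b := 0) (c := 2) (cn := .npp) (n1 := ndN0q1) (n2 := ndN3q0) (pc := pcN2) (cut := Cut.none) (xt := Ext.none) (P1 := 536870912) (W1 := 536870912) (P2 := 0) (W2 := 536870912) (P3 := 134217728) (W3 := 67108864) (N0 := 3)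
    rfl k0_pp_102

noncomputable def f_pp_112 : ℕ → ℕ → ℕ → ℕ → Bool := onCell 536870912 536870912 536870912 536870912 134217728 67108864
    (rowN 3 0 true true true .dn 1 1 2 (qsf 536870912 536870912 536870912 536870912 2) ndN0q1 ndN3q1 pcN2 Cut.none Ext.none)

def k0_pp_112 : ∃ t, chk3 f_pp_112 t 1 1 1 = true :=
  ⟨(l 4), by decide +kernel⟩

theorem c_pp_112 : CertN 536870912 536870912 536870912 536870912 134217728 67108864 3 true true true .dn 1 1 2
    ndN0q1 ndN3q1 pcN2 Cut.none Ext.none :=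
  certN0 (fam := true) (s1 := true) (s2 := true) (a := 1) (b := 1) (c := 2) (cn := .dn) (n1 := ndN0q1) (n2 := ndN3q1) (pc := pcN2) (cut := Cut.none) (xt := Ext.none) (P1 := 536870912) (W1 := 536870912) (P2 := 536870912) (W2 := 536870912) (P3 := 134217728) (W3 := 67108864) (N0 := 3)
    rfl k0_pp_112

noncomputable def f_pp_113 : ℕ → ℕ → ℕ → ℕ → Bool := onCell 536870912 536870912 536870912 536870912 134217728 67108864
    (rowN 3 0 true true true .nn 1 1 3 (qsf 536870912 536870912 536870912 536870912 3) ndN0q1 ndN3q1 pcN3 Cut.none Ext.none)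

def k0_pp_113 : ∃ t, chk3 f_pp_113 t 1 1 1 = true :=
  ⟨(l 4), by decide +kernel⟩

theorem c_pp_113 : CertN 536870912 536870912 536870912 536870912 134217728 67108864 3 true true true .nn 1 1 3
    ndN0q1 ndN3q1 pcN3 Cut.none Ext.none :=
  certN0 (fam := true) (s1 := true) (s2 := true) (a := 1) (b := 1) (c := 3) (cn := .nn) (n1 := ndN0q1) (n2 := ndN3q1) (pc := pcN3) (cut := Cut.none) (xt := Ext.none) (P1 := 536870912) (W1 := 536870912) (P2 := 536870912) (W2 := 536870912) (P3 := 134217728) (W3 := 67108864) (N0 := 3)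
    rfl k0_pp_113

noncomputable def f_pp_123 : ℕ → ℕ → ℕ → ℕ → Bool := onCell 536870912 536870912 1073741824 536870912 134217728 67108864
    (rowN 3 0 true true true .npn 1 2 3 (qsf 536870912 536870912 1073741824 536870912 3) ndN0q1 ndN3q2 pcN3 Cut.none Ext.none)

def k0_pp_123 : ∃ t, chk3 f_pp_123 t 1 1 1 = true :=
  ⟨(l 4), by decide +kernel⟩

theorem c_pp_123 : CertN 536870912 536870912 1073741824 536870912 134217728 67108864 3 true true true .npn 1 2 3
    ndN0q1 ndN3q2 pcN3 Cut.none Ext.none :=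
  certN0 (fam := true) (s1 := true) (s2 := true) (a := 1) (b := 2) (c := 3) (cn := .npn) (n1 := ndN0q1) (n2 := ndN3q2) (pc := pcN3) (cut := Cut.none) (xt := Ext.none) (P1 := 536870912) (W1 := 536870912) (P2 := 1073741824) (W2 := 536870912) (P3 := 134217728) (W3 := 67108864) (N0 := 3)
    rfl k0_pp_123

noncomputable def f_pp_133 : ℕ → ℕ → ℕ → ℕ → Bool := onCell 536870912 536870912 0 1230186008 134217728 67108864
    (rowN 3 0 true true true .dn 1 3 3 (qsf 536870912 536870912 0 1230186008 3) ndN0q1 ndN3q3 pcN3 Cut.none Ext.none)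

def k0_pp_133 : ∃ t, chk3 f_pp_133 t 1 1 1 = true :=
  ⟨(l 4), by decide +kernel⟩

theorem c_pp_133 : CertN 536870912 536870912 0 1230186008 134217728 67108864 3 true true true .dn 1 3 3
    ndN0q1 ndN3q3 pcN3 Cut.none Ext.none :=
  certN0 (fam := true) (s1 := true) (s2 := true) (a := 1) (b := 3) (c := 3) (cn := .dn) (n1 := ndN0q1) (n2 := ndN3q3) (pc := pcN3) (cut := Cut.none) (xt := Ext.none) (P1 := 536870912) (W1 := 536870912) (P2 := 0) (W2 := 1230186008) (P3 := 134217728) (W3 := 67108864) (N0 := 3)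
    rfl k0_pp_133

noncomputable def f_pp_202 : ℕ → ℕ → ℕ → ℕ → Bool := onCell 0 536870912 0 536870912 134217728 67108864
    (rowN 3 0 true true true .pp 2 0 2 (qsf 0 536870912 0 536870912 2) ndN0q2 ndN3q0 pcN2 Cut.none Ext.none)

def k0_pp_202 : ∃ t, chk3 f_pp_202 t 1 1 1 = true :=
  ⟨(l 5), by decide +kernel⟩

theorem c_pp_202 : CertN 0 536870912 0 536870912 134217728 67108864 3 true true true .pp 2 0 2
    ndN0q2 ndN3q0 pcN2 Cut.none Ext.none :=
  certN0 (fam := true) (s1 := true) (s2 := true) (a := 2) (b := 0) (c := 2) (cn := .pp) (n1 := ndN0q2) (n2 := ndN3q0) (pc := pcN2) (cut := Cut.none) (xt := Ext.none) (P1 := 0) (W1 := 536870912) (P2 := 0) (W2 := 536870912) (P3 := 134217728) (W3 := 67108864) (N0 := 3)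
    rfl k0_pp_202

noncomputable def f_pp_203 : ℕ → ℕ → ℕ → ℕ → Bool := onCell 0 536870912 0 536870912 134217728 67108864
    (rowN 3 0 true true true .up 2 0 3 (qsf 0 536870912 0 536870912 3) ndN0q2 ndN3q0 pcN3 Cut.none Ext.none)

def k0_pp_203 : ∃ t, chk3 f_pp_203 t 1 1 1 = true :=
  ⟨(l 5), by decide +kernel⟩

theorem c_pp_203 : CertN 0 536870912 0 536870912 134217728 67108864 3 true true true .up 2 0 3
    ndN0q2 ndN3q0 pcN3 Cut.none Ext.none :=
  certN0 (fam := true) (s1 := true) (s2 := true) (a := 2) (b := 0) (c := 3) (cn := .up) (n1 := ndN0q2) (n2 := ndN3q0) (pc := pcN3) (cut := Cut.none) (xt := Ext.none) (P1 := 0) (W1 := 536870912) (P2 := 0) (W2 := 536870912) (P3 := 134217728) (W3 := 67108864) (N0 := 3)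
    rfl k0_pp_203

noncomputable def f_pp_213 : ℕ → ℕ → ℕ → ℕ → Bool := onCell 0 536870912 536870912 536870912 134217728 67108864
    (rowN 3 0 true true true .pnn 2 1 3 (qsf 0 536870912 536870912 536870912 3) ndN0q2 ndN3q1 pcN3 Cut.none Ext.none)

def k0_pp_213 : ∃ t, chk3 f_pp_213 t 1 1 1 = true :=
  ⟨(l 4), by decide +kernel⟩

theorem c_pp_213 : CertN 0 536870912 536870912 536870912 134217728 67108864 3 true true true .pnn 2 1 3
    ndN0q2 ndN3q1 pcN3 Cut.none Ext.none :=
  certN0 (fam := true) (s1 := true) (s2 := true) (a := 2) (b := 1) (c := 3) (cn := .pnn) (n1 := ndN0q2) (n2 := ndN3q1) (pc := pcN3) (cut := Cut.none) (xt := Ext.none) (P1 := 0) (W1 := 536870912) (P2 := 536870912) (W2 := 536870912) (P3 := 134217728) (W3 := 67108864) (N0 := 3)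
    rfl k0_pp_213

noncomputable def f_pm_001 : ℕ → ℕ → ℕ → ℕ → Bool := onCell 0 536870912 0 536870912 134217728 67108864
    (rowN 3 0 true true false .up 0 0 1 (qsf 0 536870912 0 536870912 1) ndN0q0 ndN3q0 pcN1 Cut.none Ext.none)

def k0_pm_001 : ∃ t, chk3 f_pm_001 t 1 1 1 = true :=
  ⟨(a (l 3) (b (l 3) (a (l 3) (b (l 3) (a (l 3) (b (l 3) (a (l 3) (l 180558285879)))))))), by decide +kernel⟩

theorem c_pm_001 : CertN 0 536870912 0 536870912 134217728 67108864 3 true true false .up 0 0 1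
    ndN0q0 ndN3q0 pcN1 Cut.none Ext.none :=
  certN0 (fam := true) (s1 := true) (s2 := false) (a := 0) (b := 0) (c := 1) (cn := .up) (n1 := ndN0q0) (n2 := ndN3q0) (pc := pcN1) (cut := Cut.none) (xt := Ext.none) (P1 := 0) (W1 := 536870912) (P2 := 0) (W2 := 536870912) (P3 := 134217728) (W3 := 67108864) (N0 := 3)
    rfl k0_pm_001

noncomputable def cut_pm_011 : Cut := Cut.of [[⟨0, 0, 0, 67108864⟩, ⟨1, 1, 0, 67108864⟩, ⟨2, 1, 0, 67108864⟩]]

noncomputable def f_pm_011 : ℕ → ℕ → ℕ → ℕ → Bool := onCell 536870912 536870912 536870912 536870912 134217728 67108864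
    (rowN 3 2 true true false .pnn 0 1 1 (qsf 0 536870912 536870912 536870912 1) ndN0q0 ndN3q1 pcN1 cut_pm_011 Ext.none)

def k0_pm_011 : ∃ t, chk3 f_pm_011 t 2 1 1 = true :=
  ⟨(l 3), by decide +kernel⟩

def k1_pm_011 : ∃ t, chk3 f_pm_011 t 3 2 1 = true :=
  ⟨(a (l 3) (a (l 3) (a (b (b (l 3) (l 3)) (l 3)) (b (c (b (l 17813368) (l 93048271223)) (b (a (l 17609152) (l 17685296)) (a (l 17499344) (l 17582232)))) (b (c (a (l 17534672) (l 17649632)) (a (b (l 17406376) (l 17335848)) (b (l 17492408) (l 17422368)))) (c (a (b (l 17423760) (l 50097654919)) (b (l 17544832) (l 17457344))) (a (a (l 3) (b (l 17278328) (a (l 3) (l 27011911095)))) (b (a (l 17319952) (l 17358984)) (a (c (l 17271616) (l 17168680)) (l 17171096)))))))))), by decide +kernel⟩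

def k2_pm_011 : ∃ t, chk3 f_pm_011 t 6 3 1 = true :=
  ⟨(l 3), by decide +kernel⟩

def k3_pm_011 : ∃ t, chk3 f_pm_011 t 7 12 1 = true :=
  ⟨(a (l 3) (b (a (l 3) (a (a (l 3) (b (c (l 17289448) (l 225653946647)) (l 3))) (c (b (l 17377616) (c (l 17377064) (a (l 17228720) (l 17274776)))) (b (a (c (l 17182728) (l 17072800)) (l 17136248)) (a (b (c (l 17130632) (l 17016168)) (c (l 17092280) (l 31306540551))) (b (l 17057184) (c (l 17122072) (l 16989088)))))))) (a (l 3) (a (l 3) (c (c (b (l 52245124423) (a (l 17134488) (l 17249928))) (b (a (l 17089768) (l 17193472)) (a (b (l 17088064) (l 26474802151)) (b (l 17123160) (l 17070936))))) (b (a (c (b (l 17050664) (l 28622233431)) (b (a (l 16863480) (l 16931896)) (a (b (l 16891416) (l 16825104)) (l 16861064)))) (c (b (l 17076704) (l 17027560)) (b (l 16938952) (a (l 16883880) (l 16885376))))) (a (c (b (a (l 21105931671) (l 16962528)) (a (c (l 16935624) (l 17347730327)) (c (l 16944208) (l 16874608)))) (b (a (b (l 19495120519) (l 18421326503))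 (b (l 16842200) (l 16814344))) (a (b (l 16810703335) (l 15200090375)) (b (l 16785416) (l 16755360))))) (c (b (a (l 16970368) (l 16977840)) (a (l 16913928) (l 16918072))) (b (a (l 16826720) (l 16824728)) (a (l 16764728) (l 16758608))))))))))), by decide +kernel⟩

def k4_pm_011 : ∃ t, chk3 f_pm_011 t 14 13 1 = true :=
  ⟨(l 3), by decide +kernel⟩

def k5_pm_011 : ∃ t, chk3 f_pm_011 t 30 13 1 = true :=
  ⟨(l 3), by decide +kernel⟩

def k6_pm_011 : ∃ t, chk3 f_pm_011 t 31 26 1 = true :=
  ⟨(a (l 3) (b (c (a (c (b (l 17129000) (l 24864245591)) (b (a (l 221895694455) (l 16933520)) (a (l 3) (c (l 16977088) (b (l 16917144) (l 16886832)))))) (c (b (l 17175616) (l 17119976)) (b (a (l 17008168) (l 17019488)) (a (l 16863680) (l 16955112))))) (b (a (b (c (a (l 103247011703) (l 16803896)) (a (l 47949215751) (l 16734592))) (c (a (l 65129119927) (c (l 16873336) (l 16800560))) (a (l 13052531399) (l 16691600)))) (c (a (l 16768616) (l 16852656)) (a (l 16697312) (l 16686296)))) (a (a (l 3)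 (c (b (c (l 16842904) (l 16768768)) (c (l 16769256) (l 16738288))) (c (l 16697640) (l 16695376)))) (c (a (b (l 16802904) (l 16767896)) (l 16759872)) (a (l 16678912) (l 16651960)))))) (c (a (a (l 3) (c (b (l 24864145319) (c (l 17013176) (b (l 16948344) (l 16894664)))) (b (b (c (l 16932392) (l 16813288)) (c (l 16900928) (l 21105732167))) (b (c (l 20568947639) (a (l 16746800) (l 16787032))) (c (a (l 16791568) (l 16834072)) (a (l 14126347703) (l 16750384))))))) (c (b (a (l 17050600) (l 17066896)) (a (c (l 17029560) (l 16941072)) (l 16913400))) (b (a (c (l 16923552) (l 16797016)) (b (l 16902672) (l 16865416))) (a (a (b (l 16806672) (l 16769312)) (l 16734408)) (b (l 16826216) (l 16784936)))))) (a (a (l 3) (c (b (c (b (l 22179405415) (a (l 16745576) (l 16741816))) (a (l 16702080) (l 16686288))) (c (a (l 15200023191) (l 16702768)) (b (l 16705488) (l 16708528)))) (b (c (l 20031851751) (l 16701272)) (c (l 16810637895) (l 16707136))))) (a (c (b (b (l 16731280) (l 16692944)) (c (l 16690456)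 (l 16680328))) (b (l 16685080) (l 16691240))) (c (b (b (l 16722392) (l 16680872)) (l 16674160)) (b (l 16658256) (l 16664536)))))))), by decide +kernel⟩

def k7_pm_011 : ∃ t, chk3 f_pm_011 t 62 27 1 = true :=
  ⟨(l 3), by decide +kernel⟩

def k8_pm_011 : ∃ t, chk3 f_pm_011 t 63 54 1 = true :=
  ⟨(a (c (a (l 3) (a (a (l 3) (b (c (c (l 16946672) (l 91435857767)) (c (b (l 16798408) (l 16761352)) (l 13052543783))) (l 3))) (c (b (c (l 16930344) (b (l 16883000) (l 16846560))) (b (c (l 16897608) (l 20031941559)) (c (l 18421425895) (l 17884444663)))) (b (c (b (l 16797512) (l 16759240)) (l 16708904)) (c (b (l 16740120) (l 16711656)) (l 16715224)))))) (a (l 3) (a (b (c (c (l 11441939879) (l 16716520)) (l 8757588423)) (l 3)) (c (b (c (l 16709104) (l 16698768)) (c (l 16715312) (l 16704872))) (b (l 16709368) (l 16715328)))))) (c (b (c (a (c (l 16938672) (b (l 16886392) (l 16847552))) (b (l 16940200) (l 16857464))) (a (c (b (l 16794952) (l 16753960)) (l 16696592)) (a (l 16721080) (l 16716096))))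 (c (a (b (c (l 16902552) (l 16785728)) (c (l 16840912) (a (l 16765296) (l 16762048)))) (b (c (l 16908640) (l 16803968)) (c (l 16864440) (l 16756936)))) (a (c (a (l 16706960) (l 16688216)) (l 16703080)) (c (l 16686264) (l 16686632))))) (a (c (b (c (l 16696888) (l 16697128)) (c (l 16703264) (l 16703392))) (b (l 16697384) (l 16703496))) (c (b (l 16680656) (l 16687088)) (b (l 16670792) (l 16677016)))))), by decide +kernel⟩

def k9_pm_011 : ∃ t, chk3 f_pm_011 t 63 55 1 = true :=
  ⟨(a (c (a (l 3) (a (l 3) (c (b (c (b (a (l 16777584) (l 16819632)) (a (l 16746584) (l 16756216))) (b (b (l 16737064) (l 16715544)) (l 16719176))) (c (b (c (l 13052611863) (l 16720944)) (l 11441958071)) (b (l 16720976) (l 16724032)))) (b (c (b (l 16709568) (l 16712672)) (l 13052563719)) (c (b (l 16715736) (l 16718752)) (l 9831349607)))))) (a (l 3) (a (l 3) (c (b (c (l 16721384) (l 16721336)) (c (l 16727312) (l 16727184))) (b (l 16722488) (b (l 16715264) (l 16718112))))))) (c (a (a (c (b (c (b (l 16819288)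 (l 16775200)) (l 16713312)) (c (b (l 16728712) (l 16732144)) (l 16719824))) (b (c (l 16713456) (l 16703064)) (c (l 16719864) (l 16719856)))) (c (b (c (b (l 16818720) (l 16772400)) (l 16705056)) (c (l 16711480) (l 16711624))) (b (l 16705344) (l 16711760)))) (b (c (c (a (l 16793888) (l 16791944)) (l 16692600)) (c (l 16692904) (l 16693168))) (c (c (a (l 16692688) (l 16684336)) (l 16699256)) (c (l 16699456) (l 16699608))))) (a (c (b (c (l 16709576) (l 16709608)) (b (l 16714496) (l 16717592))) (b (l 16720056) (c (l 16715672) (l 16726016)))) (c (b (l 16693456) (l 16699760)) (b (l 16704168) (l 16710296)))))), by decide +kernel⟩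

def k10_pm_011 : ∃ t, chk3 f_pm_011 t 14 14 1 = true :=
  ⟨(l 3), by decide +kernel⟩

def k11_pm_011 : ∃ t, chk3 f_pm_011 t 30 28 1 = true :=
  ⟨(l 3), by decide +kernel⟩

def k12_pm_011 : ∃ t, chk3 f_pm_011 t 62 28 1 = true :=
  ⟨(l 3), by decide +kernel⟩

def k13_pm_011 : ∃ t, chk3 f_pm_011 t 63 56 1 = true :=
  ⟨(a (a (l 3) (a (l 3) (a (l 3) (b (a (l 3) (c (c (c (b (l 16719432) (l 16722496)) (l 16725840)) (c (l 16720512) (l 16720392))) (c (l 16730632) (l 16719688)))) (l 3))))) (c (a (b (a (c (c (b (l 16724936) (l 16722944)) (b (l 16714456) (l 16717656))) (c (l 16726184) (l 16726096))) (c (c (l 16718056) (l 16718096)) (l 16718096))) (c (c (a (b (l 16726136) (l 16729280)) (l 16724520)) (b (l 16727280) (l 8757615943))) (b (c (l 16727184) (l 16727064)) (c (l 16730288) (l 16730128))))) (a (b (c (c (l 16709808) (l 16699432)) (l 16710008)) (c (c (l 16716328) (l 16705864)) (l 16716320))) (b (c (l 16701608) (l 16691400)) (c (l 16708144) (l 16708248))))) (a (b (b (c (l 16720688)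 (l 16720368)) (c (l 16723760) (l 16723376))) (c (b (l 16729432) (c (l 16729936) (l 16729712))) (b (l 16726360) (l 16729320)))) (b (c (l 16711248) (l 16716384)) (c (c (l 16712232) (l 16712144)) (l 16722432)))))), by decide +kernel⟩

def k14_pm_011 : ∃ t, chk3 f_pm_011 t 63 57 1 = true :=
  ⟨(a (l 3) (b (c (a (a (c (c (b (l 16732360) (l 16735384)) (b (l 16726952) (l 16735192))) (c (b (l 16726768) (l 16729728)) (b (l 16726552) (l 16729480)))) (b (c (l 16724392) (l 16718880)) (c (l 16730160) (l 16721952)))) (c (a (c (l 16722712) (l 16722656)) (l 16717168)) (a (l 16722520) (l 16714496)))) (a (a (c (b (l 16736656) (l 16739552)) (b (l 16725560) (l 16728408))) (c (c (l 16730208) (l 16729976)) (l 16729568))) (c (b (l 16717136) (l 16720184)) (c (l 16728504) (l 16728296))))) (c (a (a (c (b (c (l 16738352) (l 16738128)) (c (l 4999541751) (l 16741016))) (a (l 3) (b (l 16730864) (l 16733768)))) (c (c (b (l 16725488) (l 16728592)) (b (l 16725320) (l 16728384))) (b (l 16735496) (l 16738520))))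 (c (a (c (l 16728952) (l 16728832)) (c (l 16720832) (l 16720768))) (b (l 16723560) (c (l 16726704) (l 16726528))))) (a (a (c (b (l 16737160) (c (l 16734896) (l 16734560))) (b (l 16731224) (l 16739248))) (c (c (l 16737472) (l 16735880)) (b (l 16723888) (l 16726832)))) (c (b (l 16723216) (l 16726232)) (b (l 16722768) (l 16725736))))))), by decide +kernel⟩

def k15_pm_011 : ∃ t, chk3 f_pm_011 t 30 29 1 = true :=
  ⟨(l 3), by decide +kernel⟩

def k16_pm_011 : ∃ t, chk3 f_pm_011 t 31 58 1 = true :=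
  ⟨(a (l 3) (a (l 3) (b (c (c (a (a (b (c (c (l 16744256) (l 16744128)) (l 3388934327)) (l 3)) (b (c (l 16742152) (l 16731432)) (c (l 16745472) (l 16745200)))) (a (b (l 16734008) (l 16737232)) (a (l 16729304) (l 16725272)))) (a (a (b (c (l 16743624) (l 16743312)) (l 3)) (b (l 16741528) (c (l 16744912) (l 16734112)))) (b (c (l 16729752) (l 16729552)) (c (l 16732912) (l 16732696))))) (a (a (a (l 3) (b (c (l 16735976) (l 16735232)) (l 3))) (c (b (l 16740936) (l 16744096)) (b (l 16729760) (l 16743352)))) (c (b (l 16729216) (c (l 16732448) (l 16732184))) (b (l 16728688) (l 16731744))))) (a (a (l 3) (c (c (b (c (l 16743216) (l 16748160)) (c (l 16745896) (l 16740344))) (b (c (l 16747848) (l 16747512)) (c (l 16740024) (l 16739688)))) (c (b (c (l 16747160) (l 16736304)) (l 16744392)) (b (l 16740952) (l 16738368))))) (c (a (c (b (l 16740216) (l 16737744)) (b (l 16739704) (l 16731976))) (c (b (l 16732024) (l 16724344)) (b (l 16721168) (l 16723952)))) (b (c (c (l 16735304) (l 16735024))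 (a (l 16727976) (l 16720168))) (c (a (l 16731384) (l 16723480)) (l 16737312)))))))), by decide +kernel⟩

def k17_pm_011 : ∃ t, chk3 f_pm_011 t 31 59 1 = true :=
  ⟨(a (l 3) (a (l 3) (a (c (a (l 3) (a (a (l 3) (b (b (c (l 16744032) (l 16743376)) (l 3)) (l 3))) (c (b (c (l 16747816) (l 16742280)) (c (b (l 16746216) (l 16748520)) (b (l 16745936) (l 16748256)))) (b (c (l 16741976) (l 16741648)) (c (l 7147037943) (l 16749128)))))) (a (l 3) (a (b (c (l 5536421031) (l 16746480)) (l 3)) (b (c (l 16746384) (l 16740400)) (c (c (l 16748816) (l 16751112)) (l 10368262999)))))) (c (a (a (c (b (c (l 16738552) (l 16738288)) (c (l 16748784) (l 16743296))) (b (l 16737864) (c (l 16743032) (l 16742760)))) (c (b (l 16734384) (l 16744664)) (b (l 16733888) (l 16738952)))) (c (b (c (l 16738880) (l 16728216)) (c (l 16741352) (l 16743800))) (b (l 16738392) (c (l 16743608) (l 16743400))))) (a (c (b (l 16740528) (b (l 16739112) (l 16746864))) (b (l 16745112) (b (l 16738488) (l 16741032)))) (c (b (l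 16727432) (l 16737816)) (b (l 16726880) (l 16742552)))))))), by decide +kernel⟩

def k18_pm_011 : ∃ t, chk3 f_pm_011 t 7 15 1 = true :=
  ⟨(a (l 3) (a (l 3) (a (l 3) (b (a (l 3) (a (a (l 3) (a (l 3) (a (l 3) (b (b (b (c (c (l 16749816) (l 16749320)) (c (l 16748776) (l 16748176))) (l 3)) (l 3)) (l 3))))) (b (b (b (c (c (a (c (l 16750392) (l 16750184)) (l 16742328)) (a (c (l 16749960) (l 16744480)) (l 16736744))) (c (a (l 16749352) (l 16736352)) (a (l 16748800) (l 16735896)))) (l 6)) (l 6)) (l 6)))) (l 6))))), by decide +kernel⟩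

theorem s19_pm_011 : ∃ t, chk3 f_pm_011 t 31 29 1 = true := ex3_b k16_pm_011 k17_pm_011

theorem s20_pm_011 : ∃ t, chk3 f_pm_011 t 15 29 1 = true := ex3_a k15_pm_011 s19_pm_011

theorem s21_pm_011 : ∃ t, chk3 f_pm_011 t 63 28 1 = true := ex3_b k13_pm_011 k14_pm_011

theorem s22_pm_011 : ∃ t, chk3 f_pm_011 t 31 28 1 = true := ex3_a k12_pm_011 s21_pm_011

theorem s23_pm_011 : ∃ t, chk3 f_pm_011 t 15 28 1 = true := ex3_a k11_pm_011 s22_pm_011

theorem s24_pm_011 : ∃ t, chk3 f_pm_011 t 15 14 1 = true := ex3_b s23_pm_011 s20_pm_011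

theorem s25_pm_011 : ∃ t, chk3 f_pm_011 t 7 14 1 = true := ex3_a k10_pm_011 s24_pm_011

theorem s26_pm_011 : ∃ t, chk3 f_pm_011 t 7 7 1 = true := ex3_b s25_pm_011 k18_pm_011

theorem s27_pm_011 : ∃ t, chk3 f_pm_011 t 63 27 1 = true := ex3_b k8_pm_011 k9_pm_011

theorem s28_pm_011 : ∃ t, chk3 f_pm_011 t 31 27 1 = true := ex3_a k7_pm_011 s27_pm_011

theorem s29_pm_011 : ∃ t, chk3 f_pm_011 t 31 13 1 = true := ex3_b k6_pm_011 s28_pm_011

theorem s30_pm_011 : ∃ t, chk3 f_pm_011 t 15 13 1 = true := ex3_a k5_pm_011 s29_pm_011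

theorem s31_pm_011 : ∃ t, chk3 f_pm_011 t 7 13 1 = true := ex3_a k4_pm_011 s30_pm_011

theorem s32_pm_011 : ∃ t, chk3 f_pm_011 t 7 6 1 = true := ex3_b k3_pm_011 s31_pm_011

theorem s33_pm_011 : ∃ t, chk3 f_pm_011 t 7 3 1 = true := ex3_b s32_pm_011 s26_pm_011

theorem s34_pm_011 : ∃ t, chk3 f_pm_011 t 3 3 1 = true := ex3_a k2_pm_011 s33_pm_011

theorem s35_pm_011 : ∃ t, chk3 f_pm_011 t 3 1 1 = true := ex3_b k1_pm_011 s34_pm_011

theorem s36_pm_011 : ∃ t, chk3 f_pm_011 t 1 1 1 = true := ex3_a k0_pm_011 s35_pm_011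

theorem c_pm_011 : CertN 0 536870912 536870912 536870912 134217728 67108864 3 true true false .pnn 0 1 1
    ndN0q0 ndN3q1 pcN1 cut_pm_011 Ext.none :=
  certN2 (fam := true) (s1 := true) (s2 := false) (a := 0) (b := 1) (c := 1) (cn := .pnn) (n1 := ndN0q0) (n2 := ndN3q1) (pc := pcN1) (cut := cut_pm_011) (xt := Ext.none) (P1 := 0) (W1 := 536870912) (P2 := 536870912) (W2 := 536870912) (P3 := 134217728) (W3 := 67108864) (N0 := 3)
    rfl (fun _ => rfl) s36_pm_011

noncomputable def cut_pm_012 : Cut := Cut.of [[⟨0, 0, 0, 67108864⟩, ⟨1, 1, 0, 67108864⟩, ⟨2, 1, 0, 67108864⟩]]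

noncomputable def f_pm_012 : ℕ → ℕ → ℕ → ℕ → Bool := onCell 1073741824 536870912 536870912 536870912 134217728 67108864
    (rowN 3 2 true true false .pnp 0 1 2 (qsf 0 536870912 536870912 536870912 2) ndN0q0 ndN3q1 pcN2 cut_pm_012 Ext.none)

def k0_pm_012 : ∃ t, chk3 f_pm_012 t 2 2 1 = true :=
  ⟨(a (b (a (a (b (c (l 17984560) (l 17798392)) (c (l 17903904) (l 17706336))) (b (l 18010936) (l 17946840))) (a (a (l 18069336) (b (l 2) (l 18097752))) (a (l 18163296) (l 18206432)))) (a (a (b (c (l 17807808) (a (l 17550936) (l 17633288))) (c (a (b (l 17663168) (l 17579536)) (l 17732920)) (a (b (l 17432768) (a (l 17304200) (l 17353776))) (b (l 17525264) (l 17429496))))) (b (c (l 17981104) (l 17753200)) (c (l 17888168) (b (l 17661880) (l 17580584))))) (a (a (b (l 17982608) (l 17896552)) (b (l 18049096) (c (l 18115040) (l 17844920)))) (a (b (l 18111408) (l 18058104)) (b (l 18169872) (l 18131624)))))) (a (a (b (a (l 18242272) (l 2)) (a (l 18358128) (b (l 18270504) (l 18260088)))) (b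 (l 2) (l 18326440))) (b (l 2) (a (l 18391480) (l 18438240))))), by decide +kernel⟩

def k1_pm_012 : ∃ t, chk3 f_pm_012 t 8 12 1 = true :=
  ⟨(a (b (c (a (b (l 17501200) (c (l 17511064) (l 17365832))) (l 17598048)) (a (b (a (l 17203880) (l 17256352)) (a (b (l 17144296) (l 16973584)) (l 17114304))) (b (l 17337648) (l 17262912)))) (a (c (b (c (l 17441120) (l 17243040)) (a (c (l 17318408) (b (l 17179136) (l 17124832))) (l 17267088))) (b (a (c (l 17036192) (b (l 16975248) (l 16918112))) (c (l 17160224) (l 17002512))) (a (b (c (l 17017168) (l 16750864)) (c (l 16872032) (a (l 16773928) (l 16801392)))) (c (l 17051224) (l 16774952))))) (c (b (l 17502368) (l 17400512)) (b (a (l 17142104) (l 17204424)) (a (c (l 17118744) (l 16942320)) (l 17098144)))))) (b (c (l 17781976) (a (l 17394112) (l 17527856))) (c (a (l 17606312) (l 17743864)) (a (b (l 17298920) (l 17201168)) (b (l 17425136) (l 17338928)))))), by decide +kernel⟩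

def k2_pm_012 : ∃ t, chk3 f_pm_012 t 16 26 1 = true :=
  ⟨(a (c (b (a (c (b (l 17242000) (l 17184312)) (b (l 17065112) (a (l 16981144) (l 17017592)))) (c (l 17295288) (l 17107184))) (a (c (b (l 17078416) (a (l 16965096) (l 17070704))) (b (a (a (l 16877896) (l 16916960)) (l 16944976)) (a (a (l 16775448) (l 16835664)) (l 16864168)))) (c (l 17130192) (b (l 17003616) (l 16924448))))) (a (b (c (b (a (l 16872936) (l 16904664)) (a (l 16756616) (l 16830704))) (a (b (l 16698888) (l 16640520)) (l 16685920))) (b (c (a (l 16716320) (l 16748800)) (l 16659504)) (c (a (a (l 16655752) (l 16647512)) (l 16657720)) (l 16665712)))) (b (b (c (l 16955032) (l 16771768)) (c (l 16882304) (l 16690144))) (c (b (l 16801616) (l 16711736)) (l 16629208))))) (c (b (c (l 17419968) (l 17224408)) (c (l 17265152) (a (l 17048408) (l 17134888)))) (b (a (b (l 16931608) (l 16856768)) (l 16821328)) (a (b (l 16773672) (l 16681056)) (b (l 16851768) (l 16762864)))))), by decide +kernel⟩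

def k3_pm_012 : ∃ t, chk3 f_pm_012 t 16 27 1 = true :=
  ⟨(a (c (a (b (b (c (a (c (l 17001152) (l 16873968)) (l 16991672)) (a (a (l 16726560) (l 16744920)) (l 16773848))) (c (a (b (l 16777048) (l 16729504)) (l 16881856)) (a (c (l 16669016) (l 16663584)) (l 16672400)))) (a (c (b (c (a (l 16784448) (l 16828064)) (l 16676720)) (c (l 16684688) (l 16686080))) (b (l 16680264) (l 16686640))) (c (b (l 16781432) (l 16688192)) (b (l 16653304) (l 16659752))))) (b (c (b (l 17060264) (l 16910720)) (b (l 16835784) (l 16736000))) (b (c (l 16728704) (l 16649488)) (c (a (l 16737752) (l 16790192)) (l 16656048))))) (c (a (a (b (b (l 16668496) (l 16674800)) (b (l 16681040) (l 16687208))) (b (l 16664968) (l 16677376))) (b (l 16650800) (l 16663416))) (a (b (b (l 16671872) (l 16677984)) (b (l 16684048) (l 16690056))) (b (l 16641720) (l 16664376))))) (b (a (c (c (l 16989352) (b (l 16924400) (l 16828384))) (c (l 16618360) (l 16609040))) (c (c (l 17214952) (l 16972672)) (l 16587536))) (a (c (b (c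 (l 16979464) (l 16719632)) (c (l 16872736) (l 16622952))) (a (l 16628976) (l 16612632))) (c (b (c (l 17087384) (l 16822840)) (c (l 16987096) (l 16705304))) (l 16603776))))), by decide +kernel⟩

def k4_pm_012 : ∃ t, chk3 f_pm_012 t 17 13 1 = true :=
  ⟨(b (c (a (b (l 17483800) (c (l 17487240) (l 17266000))) (b (l 17640440) (l 17549936))) (a (b (a (l 17043400) (l 17119648)) (a (l 16828416) (l 16976056))) (b (l 17233760) (l 16915080)))) (c (a (b (c (l 17364584) (l 16951008)) (a (c (l 17151000) (l 16875424)) (c (l 17262880) (l 16986504)))) (b (l 17267760) (c (l 17426888) (l 17151632)))) (b (a (a (l 16680576) (l 16797080)) (a (l 16893488) (l 16989528))) (a (a (b (l 16552400) (l 16559056)) (l 16612416)) (a (l 16681608) (l 16792360)))))), by decide +kernel⟩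

def k5_pm_012 : ∃ t, chk3 f_pm_012 t 9 6 1 = true :=
  ⟨(a (a (b (b (c (l 17953304) (l 17637888)) (c (l 17874536) (l 17513232))) (b (c (l 17754368) (b (l 17382744) (l 17270560))) (c (b (l 17619792) (l 17498720)) (b (l 17130872) (l 16745440))))) (b (c (b (l 18054912) (l 17993656)) (b (l 17740096) (a (l 17606288) (l 17666504)))) (b (c (l 17897976) (a (l 17443080) (l 17516336))) (c (a (b (l 17749320) (l 17645648)) (l 17788864)) (a (b (l 17266792) (l 17111496)) (b (l 17354048) (l 17211584))))))) (b (a (b (l 17993416) (c (l 18104048) (l 17749784))) (b (l 18083160) (l 18032504))) (b (a (c (l 18030712) (l 17619152)) (c (l 18152784) (l 17750776))) (c (a (l 17909928) (l 18061016)) (a (b (l 17477296) (a (l 17307512) (l 17399752))) (b (l 17633048) (l 17530296))))))), by decide +kernel⟩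

def k6_pm_012 : ∃ t, chk3 f_pm_012 t 8 28 1 = true :=
  ⟨(a (a (b (a (c (a (b (c (c (l 16692208) (l 16692536)) (l 16692936)) (c (c (l 16698648) (l 16698880)) (l 16704384))) (b (c (l 16686352) (l 16666120)) (c (l 16692816) (l 16672384)))) (a (c (b (l 16693312) (l 16709832)) (b (l 16683008) (l 16709864))) (b (l 16687848) (l 16693856)))) (b (c (c (l 16661496) (l 16662520)) (l 16663688)) (c (c (l 16668080) (l 16668880)) (l 16669768)))) (b (a (c (a (c (c (l 16704952) (l 16705088)) (l 16713096)) (c (l 16699136) (l 16699504))) (a (c (l 16715768) (l 16715680)) (l 16699776))) (c (c (l 16674504) (l 16675120)) (l 16681000))) (a (c (a (c (c (l 16716344) (l 16711160)) (b (l 16710168) (l 16713160))) (c (l 16694824) (l 16705520))) (a (c (l 16721608) (l 16721408)) (l 16705592))) (c (c (l 16680768) (l 16681216)) (c (l 16681536) (l 16681712)))))) (b (a (c (b (c (l 16750200) (l 16629568)) (c (l 16634896) (l 16636064))) (b (l 16631296) (l 16637488))) (c (c (a (l 16699176) (l 16776480)) (l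 16608808)) (l 16618880))) (a (c (c (a (l 16656184) (l 16639632)) (b (l 16642424) (l 16648632))) (b (l 16643568) (l 16649536))) (c (c (a (l 16623024) (l 16606360)) (l 16626496)) (c (l 16622376) (l 16623360)))))) (a (b (c (b (a (l 16739808) (l 16884856)) (a (l 16689512) (l 16782008))) (a (l 16583184) (l 16551336))) (c (a (b (a (l 16583704) (l 16591448)) (l 16587048)) (b (l 16701608) (l 16635800))) (a (a (l 16598272) (l 16595976)) (b (l 16557000) (l 16567000))))) (b (c (c (a (l 17192720) (l 17316528)) (b (l 17001384) (l 16882896))) (b (l 16547472) (l 16546136))) (c (b (c (l 17090608) (l 16746512)) (a (l 16694920) (l 16809304))) (a (l 16559168) (l 16544152)))))), by decide +kernel⟩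

def k7_pm_012 : ∃ t, chk3 f_pm_012 t 16 29 1 = true :=
  ⟨(b (a (a (a (a (c (b (c (c (l 16721520) (l 16721496)) (l 16721408)) (c (c (l 16726936) (l 16726880)) (b (l 16715344) (l 16717984)))) (b (c (l 16721184) (l 16731328)) (c (l 16731712) (l 16726096)))) (b (c (c (l 16713400) (l 16723848)) (c (l 16702728) (l 16702456))) (c (c (l 16718712) (l 16718616)) (c (l 16728912) (l 16728616))))) (c (b (c (l 16701216) (l 16711768)) (c (l 16711720) (l 16716984))) (b (c (l 16711728) (l 16711560)) (c (l 16716896) (l 16716712))))) (c (c (a (b (l 16695400) (l 16700672)) (b (l 16679056) (l 16684368))) (b (l 16687544) (a (l 16700832) (l 16684672)))) (c (b (l 16687712) (l 16692904)) (b (l 16687776) (l 16692928))))) (b (a (c (b (l 16653440) (l 16656624)) (a (l 16663736) (l 16647688))) (c (c (l 16621488) (l 16622400)) (l 16623544))) (c (a (c (l 16659848) (a (l 16668472) (l 16652224))) (a (l 16630336) (l 16619160))) (a (l 16660952) (l 16628824))))) (a (a (a (c (a (c (b (l 16732528) (l 16737488))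 (b (l 16721824) (l 16726784))) (c (l 16726856) (l 16726704))) (b (c (l 16730592) (l 16727608)) (a (a (l 16728304) (l 16724312)) (l 16718304)))) (c (c (b (l 16711912) (l 16717000)) (b (l 16722384) (l 16716960))) (c (l 16719600) (l 16724648)))) (c (a (c (l 16703272) (l 16698160)) (c (l 16681568) (l 16681856))) (a (c (l 16698208) (l 16698160)) (l 16687352)))) (a (c (c (a (l 16665120) (l 16659184)) (l 16667952)) (c (l 16668368) (l 16668688))) (c (a (b (l 16640784) (l 16649176)) (c (l 16636120) (l 16634416))) (a (l 16644408) (l 16632000)))))), by decide +kernel⟩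

def k8_pm_012 : ∃ t, chk3 f_pm_012 t 17 29 1 = true :=
  ⟨(b (a (b (c (c (a (l 16597776) (l 16583568)) (l 16593312)) (a (l 16592192) (l 16576776))) (c (c (a (l 16608368) (l 16593880)) (l 16599992)) (l 16603128))) (c (a (b (l 16588712) (l 16577864)) (b (l 16690432) (l 16563208))) (b (l 16564112) (l 16574456)))) (a (c (a (c (l 16624776) (l 16622752)) (c (l 16609880) (l 16607400))) (a (l 16619840) (l 16603816))) (c (a (c (l 16595032) (l 16592088)) (c (l 16580240) (l 16555848))) (a (l 16587816) (l 16571840))))), by decide +kernel⟩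

def k9_pm_012 : ∃ t, chk3 f_pm_012 t 16 15 1 = true :=
  ⟨(a (b (a (b (b (a (a (c (c (l 16739624) (l 16742064)) (c (l 16731336) (l 16731024))) (c (c (l 16723624) (l 16723512)) (l 16733696))) (c (c (l 16721872) (l 16721856)) (c (l 16721768) (l 16721616)))) (a (l 6) (a (l 6) (a (l 6) (c (l 16715408) (l 16710176)))))) (l 6)) (b (a (c (b (c (l 16715968) (l 16716088)) (c (l 16710424) (l 16710560))) (b (l 16705648) (l 16710648))) (c (c (b (l 16699496) (l 16704528)) (l 16697080)) (c (l 16697272) (l 16697400)))) (a (l 6) (b (c (c (l 16700392) (l 16711000)) (l 16700632)) (l 6))))) (l 6)) (b (b (a (c (a (b (l 16672672) (a (l 16692376) (l 16686008))) (b (l 16668744) (l 16670736))) (a (l 16681200) (b (l 16667624) (l 16677696)))) (c (b (c (l 16657472) (l 16655928)) (a (l 16661360) (l 16653376))) (b (l 16653720) (l 16659760)))) (b (a (c (c (l 16685904) (l 16685712)) (l 16687112)) (a (c (l 16672432) (l 16679416)) (c (l 16662952) (l 16649888)))) (b (a (c (a (l 6) (l 16686712)) (l 16692192))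 (c (c (l 16685168) (l 16684136)) (l 16682600))) (a (l 6) (c (c (l 16689920) (l 16689000)) (l 16677128)))))) (b (a (l 6) (a (l 6) (a (l 6) (b (c (l 16677296) (l 16667600)) (l 6))))) (l 6)))), by decide +kernel⟩

def k10_pm_012 : ∃ t, chk3 f_pm_012 t 17 30 1 = true :=
  ⟨(a (a (b (c (b (c (l 16641968) (l 16640000)) (c (l 16653152) (l 16651240))) (b (l 16637160) (l 16648472))) (c (b (c (l 16662600) (l 16660936)) (c (l 16661128) (l 16659752))) (b (l 16648000) (l 16662928)))) (b (c (b (l 16620232) (c (l 16616792) (l 16614448))) (b (l 16620800) (l 16631992))) (c (b (c (l 16626328) (l 16624200)) (c (l 16635256) (l 16633416))) (b (l 16642040) (l 16651624))))) (b (c (a (c (l 16616808) (l 16614000)) (c (l 16601512) (l 16598264))) (a (l 16615144) (l 16593496))) (c (a (b (c (l 16610768) (l 16608208)) (c (l 16619792) (l 16617496))) (c (b (l 16595128) (l 16604072)) (l 16617648))) (a (b (l 16604432) (l 16614056)) (c (l 16614816) (l 16612008)))))), by decide +kernel⟩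

def k11_pm_012 : ∃ t, chk3 f_pm_012 t 17 31 1 = true :=
  ⟨(b (a (a (c (b (c (a (l 16663872) (l 16655928)) (l 16674464)) (a (l 6) (c (l 16665280) (l 16664232)))) (b (c (l 16668056) (l 16677360)) (b (l 16674880) (l 6)))) (c (b (c (l 16654600) (l 16642544)) (c (b (l 16650912) (l 16655504)) (b (l 16649520) (l 16654216)))) (b (c (l 16640960) (l 16639360)) (c (l 16671440) (l 16649056))))) (c (b (c (a (l 16628576) (l 16612960)) (a (l 16626544) (l 16610480))) (a (c (l 16647768) (l 16635520)) (c (l 16621600) (l 16619384)))) (b (a (l 16644448) (l 16627704)) (a (c (l 16633728) (l 16631896)) (c (l 16617136) (l 16614856)))))) (a (a (l 6) (a (l 6) (b (c (c (l 16668880) (l 16657144)) (c (l 16655840) (l 16654472))) (l 6)))) (c (b (a (c (b (l 16643960) (l 16648472)) (b (l 16642376) (l 16646984))) (c (b (l 16628008) (l 16632344)) (l 16628208))) (a (b (c (l 16653032) (l 16651632)) (l 6)) (c (b (l 16636728) (l 16651648)) (b (l 16634944) (l 16639472))))) (b (a (c (l 16664040) (l 16641416))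 (c (l 16626200) (l 16624136))) (b (a (c (l 16650160) (l 16648616)) (c (l 16633088) (l 16631152))) (a (l 6) (c (l 16637704) (l 16635848)))))))), by decide +kernel⟩

def k12_pm_012 : ∃ t, chk3 f_pm_012 t 9 14 1 = true :=
  ⟨(a (b (a (c (b (c (l 17493992) (l 17189920)) (c (l 17183096) (b (l 17026144) (l 16896200)))) (b (b (l 16793024) (l 16666560)) (a (l 16518888) (l 16516872)))) (c (b (a (l 17511608) (l 17618344)) (a (c (l 17503784) (l 17168136)) (l 17377352))) (b (a (l 16788872) (l 17031360)) (a (b (l 16731488) (l 16587736)) (l 16653920))))) (a (b (c (b (c (l 17129328) (l 16745816)) (c (l 16984112) (l 16570600))) (b (l 16523208) (l 16533072))) (c (c (a (l 16611992) (l 16816744)) (l 16554312)) (c (l 16550192) (l 16546168)))) (b (c (a (b (l 17020632) (c (l 17230984) (l 16833344))) (c (l 17439568) (l 17044536))) (a (b (l 16501552) (l 16510984)) (b (l 16583744) (l 16475288)))) (a (c (c (l 16966440) (l 16562728)) (l 16525520)) (c (c (l 17187248) (l 16755480)) (l 16510384))))))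 (b (a (c (b (l 17766888) (a (l 17579400) (l 17691192))) (b (a (l 17143064) (l 17249992)) (a (l 16912288) (l 17059440)))) (c (b (l 17949344) (l 17846608)) (b (l 17400928) (a (l 17179288) (l 17292936))))) (a (b (c (a (c (l 17575848) (l 17211640)) (l 17463816)) (a (b (l 16736480) (l 16581624)) (l 16625072))) (c (a (c (l 17353904) (l 16935816)) (l 17118072)) (a (l 16476008) (l 16492512)))) (b (c (c (l 17880216) (l 17540064)) (a (l 16873456) (l 17092656))) (c (c (l 17721376) (l 17335608)) (a (l 16668528) (l 16833200))))))), by decide +kernel⟩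

def k13_pm_012 : ∃ t, chk3 f_pm_012 t 18 15 1 = true :=
  ⟨(a (b (c (b (c (b (l 16553064) (l 16584280)) (b (l 16549016) (l 16559360))) (c (b (l 16593152) (l 16601760)) (b (l 16568480) (l 16598336)))) (b (b (l 16564040) (l 16574512)) (b (l 16583968) (a (l 16580608) (l 16563992))))) (b (c (b (c (l 16610472) (l 16607296)) (c (a (l 16606120) (l 16590424)) (l 16616240))) (b (c (l 16604120) (l 16579960)) (c (l 16613280) (l 16610296)))) (c (b (c (b (l 16625664) (l 16629896)) (a (l 16612184) (l 16596112))) (c (b (a (l 16620920) (l 16605376)) (a (l 16625184) (l 16609464))) (b (l 16631608) (a (l 16623056) (l 16606848))))) (b (c (a (l 16609688) (l 16593128)) (a (l 16607136) (l 16590104))) (a (c (l 16629080) (l 16616256)) (c (l 16601976) (l 16599160))))))) (b (a (c (b (a (l 16558232) (l 16550816)) (c (l 16575184) (l 16570872))) (b (l 16545808) (c (l 16566584) (l 16541368)))) (c (b (c (l 16732480) (l 16517216)) (c (l 16560616) (l 16534728))) (b (l 16530200) (l 16558888)))) (a (b (c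 (c (b (l 16566760) (l 16575200)) (b (l 16562856) (l 16571552))) (b (l 16577976) (l 16587008))) (c (b (c (l 16604696) (l 16580312)) (c (a (l 16595664) (l 16587800)) (l 16609968))) (b (c (l 16576856) (l 16573352)) (c (l 16606720) (l 16603400))))) (b (c (c (b (l 16551808) (l 16560008)) (l 16572472)) (c (l 16568136) (l 16563808))) (c (b (c (l 16568296) (l 16564344)) (c (l 16597640) (l 16572944))) (b (l 16579328) (c (l 16569176) (l 16565344)))))))), by decide +kernel⟩

def k14_pm_012 : ∃ t, chk3 f_pm_012 t 19 15 1 = true :=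
  ⟨(b (a (c (b (a (c (l 17048280) (l 16560696)) (c (l 17242304) (l 16773128))) (a (c (l 16614928) (l 16521128)) (c (l 16803976) (l 16507584)))) (b (a (l 16495144) (l 16481056)) (a (l 16533712) (l 16498064)))) (c (b (a (c (l 17420944) (l 16969192)) (l 17116520)) (a (c (l 17095712) (l 16567576)) (c (l 17303880) (l 16798472)))) (b (a (l 16467536) (l 16492352)) (a (l 16483888) (l 16470216))))) (a (c (b (a (c (l 16563272) (l 16537264)) (c (l 16528864) (l 16523096))) (b (c (a (l 16554264) (l 16540352)) (a (l 16549656) (l 16535048))) (c (a (l 16562320) (l 16548096)) (a (l 16557960) (l 16543064))))) (b (a (b (l 16525528) (l 16534088)) (l 16535480)) (b (a (l 16542696) (l 16527072)) (a (c (l 16553568) (l 16549128)) (l 16556448))))) (a (c (b (c (l 16567912) (l 16509456)) (c (b (l 16526976) (l 16534392)) (l 16545688))) (b (l 16520704) (b (l 16511888) (l 16520024)))) (c (b (c (l 16736752) (l 16496336)) (c (l 16538576) (l 16510944))) (b (l 16485432) (b (l 16497136) (l 16504984))))))),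 by decide +kernel⟩

def k15_pm_012 : ∃ t, chk3 f_pm_012 t 5 6 1 = true :=
  ⟨(a (b (a (a (b (l 18164888) (l 18128600)) (c (l 18387984) (b (l 18092496) (l 18050696)))) (c (l 18481544) (l 18182104))) (a (a (b (l 18067944) (c (l 18196928) (l 17737504))) (b (c (l 18363472) (l 17983408)) (c (l 18319624) (a (l 17842544) (l 17908456))))) (b (l 18308072) (c (l 18473616) (l 18056496))))) (b (a (l 18442664) (l 18526984)) (a (b (l 18455208) (l 18447984)) (l 18589256)))), by decide +kernel⟩

def k16_pm_012 : ∃ t, chk3 f_pm_012 t 10 14 1 = true :=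
  ⟨(c (a (b (a (l 18079296) (a (l 18197688) (l 18270944))) (a (b (l 17929352) (l 17789856)) (b (a (l 18075776) (l 18165720)) (a (l 17962528) (l 18067760))))) (b (l 18432144) (b (l 18364112) (l 18299512)))) (a (b (a (b (l 17586216) (l 17452288)) (a (l 17662288) (b (l 17792736) (l 17690464)))) (a (b (a (l 17220112) (l 17340080)) (a (l 16987200) (l 17131216))) (b (a (l 17453048) (a (l 17533408) (l 17585024))) (a (l 17265856) (a (l 17361080) (l 17421912)))))) (b (b (l 17971560) (l 17896080)) (b (l 17798568) (a (l 17566024) (l 17773104)))))), by decide +kernel⟩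

def k17_pm_012 : ∃ t, chk3 f_pm_012 t 10 15 1 = true :=
  ⟨(a (a (b (c (b (c (l 17808488) (l 17396432)) (c (l 17519440) (a (l 17009328) (l 17202224)))) (b (a (l 16683000) (l 16859760)) (a (l 16457064) (l 16499560)))) (c (c (b (a (l 17045440) (l 17371704)) (b (a (l 16797984) (l 17070920)) (l 16539120))) (b (l 16521832) (a (l 16497672) (l 16484888)))) (b (a (l 16471608) (l 16458248)) (a (b (l 16482840) (l 16490392)) (l 16493512))))) (b (b (c (a (l 17810840) (l 17831672)) (a (l 17023728) (a (l 17138960) (l 17065448)))) (c (a (l 17518528) (a (l 17718816) (l 17792280))) (a (l 16703904) (a (l 16846368) (a (l 16914336) (l 16958552)))))) (a (c (b (c (l 17571688) (l 17055816)) (c (b (l 17314688) (l 17100112)) (l 16522464))) (b (l 16445320) (l 16479904))) (c (b (a (c (l 17709168) (l 17210576)) (c (l 17795312) (l 17286680))) (a (c (l 17390000) (l 16807568)) (c (a (l 17473416) (l 17527200)) (a (l 16902144) (l 16963160))))) (a (b (l 16456056) (l 16449040)) (b (a (l 16541784) (l 16597376))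 (a (l 16444160) (l 16441008)))))))) (b (c (a (b (l 18107736) (l 17963304)) (l 18258912)) (a (b (l 17384720) (l 16958624)) (b (l 17630320) (l 17443544)))) (c (a (b (c (l 17994208) (l 17532440)) (c (l 17669048) (b (l 17307728) (l 17124256)))) (b (l 18055440) (c (l 18094240) (l 17608752)))) (b (a (a (l 16731208) (l 16930272)) (c (l 17414000) (l 16982016))) (a (b (l 16529920) (l 16431424)) (b (l 16879760) (l 16629128))))))), by decide +kernel⟩

def k18_pm_012 : ∃ t, chk3 f_pm_012 t 11 7 1 = true :=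
  ⟨(b (b (a (c (l 18640720) (l 18193960)) (l 18595720)) (a (c (l 18613944) (b (l 18110648) (l 18036224))) (c (l 18815936) (l 18340160)))) (a (b (c (l 18526864) (a (l 17775736) (l 17976888))) (c (a (b (l 18299304) (l 18152176)) (l 18456968)) (a (b (l 17506776) (c (l 17481040) (l 17028688))) (b (l 17769312) (l 17554176))))) (c (b (l 18796512) (l 18727056)) (b (l 18227848) (a (l 17714552) (l 18130816)))))), by decide +kernel⟩

def k19_pm_012 : ∃ t, chk3 f_pm_012 t 3 1 1 = true :=
  ⟨(b (a (b (l 2) (a (l 18504880) (l 2))) (l 2)) (a (b (b (a (l 18626064) (l 18701032)) (a (l 18731368) (l 18837896))) (b (b (a (l 18787928) (l 18932216)) (a (l 18822280) (l 19004992))) (a (c (b (l 19067496) (l 19091840)) (b (l 18589360) (l 18459824))) (l 19095472)))) (b (b (l 2) (l 18881272)) (b (b (l 18997920) (l 19092000)) (a (l 19211448) (l 19234200)))))), by decide +kernel⟩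

theorem s20_pm_012 : ∃ t, chk3 f_pm_012 t 10 7 1 = true := ex3_b k16_pm_012 k17_pm_012

theorem s21_pm_012 : ∃ t, chk3 f_pm_012 t 5 7 1 = true := ex3_a s20_pm_012 k18_pm_012

theorem s22_pm_012 : ∃ t, chk3 f_pm_012 t 5 3 1 = true := ex3_b k15_pm_012 s21_pm_012

theorem s23_pm_012 : ∃ t, chk3 f_pm_012 t 9 15 1 = true := ex3_a k13_pm_012 k14_pm_012

theorem s24_pm_012 : ∃ t, chk3 f_pm_012 t 9 7 1 = true := ex3_b k12_pm_012 s23_pm_012

theorem s25_pm_012 : ∃ t, chk3 f_pm_012 t 17 15 1 = true := ex3_b k10_pm_012 k11_pm_012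

theorem s26_pm_012 : ∃ t, chk3 f_pm_012 t 8 15 1 = true := ex3_a k9_pm_012 s25_pm_012

theorem s27_pm_012 : ∃ t, chk3 f_pm_012 t 8 29 1 = true := ex3_a k7_pm_012 k8_pm_012

theorem s28_pm_012 : ∃ t, chk3 f_pm_012 t 8 14 1 = true := ex3_b k6_pm_012 s27_pm_012

theorem s29_pm_012 : ∃ t, chk3 f_pm_012 t 8 7 1 = true := ex3_b s28_pm_012 s26_pm_012

theorem s30_pm_012 : ∃ t, chk3 f_pm_012 t 4 7 1 = true := ex3_a s29_pm_012 s24_pm_012

theorem s31_pm_012 : ∃ t, chk3 f_pm_012 t 16 13 1 = true := ex3_b k2_pm_012 k3_pm_012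

theorem s32_pm_012 : ∃ t, chk3 f_pm_012 t 8 13 1 = true := ex3_a s31_pm_012 k4_pm_012

theorem s33_pm_012 : ∃ t, chk3 f_pm_012 t 8 6 1 = true := ex3_b k1_pm_012 s32_pm_012

theorem s34_pm_012 : ∃ t, chk3 f_pm_012 t 4 6 1 = true := ex3_a s33_pm_012 k5_pm_012

theorem s35_pm_012 : ∃ t, chk3 f_pm_012 t 4 3 1 = true := ex3_b s34_pm_012 s30_pm_012

theorem s36_pm_012 : ∃ t, chk3 f_pm_012 t 2 3 1 = true := ex3_a s35_pm_012 s22_pm_012

theorem s37_pm_012 : ∃ t, chk3 f_pm_012 t 2 1 1 = true := ex3_b k0_pm_012 s36_pm_012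

theorem s38_pm_012 : ∃ t, chk3 f_pm_012 t 1 1 1 = true := ex3_a s37_pm_012 k19_pm_012

theorem c_pm_012 : CertN 0 536870912 536870912 536870912 134217728 67108864 3 true true false .pnp 0 1 2
    ndN0q0 ndN3q1 pcN2 cut_pm_012 Ext.none :=
  certN2 (fam := true) (s1 := true) (s2 := false) (a := 0) (b := 1) (c := 2) (cn := .pnp) (n1 := ndN0q0) (n2 := ndN3q1) (pc := pcN2) (cut := cut_pm_012) (xt := Ext.none) (P1 := 0) (W1 := 536870912) (P2 := 536870912) (W2 := 536870912) (P3 := 134217728) (W3 := 67108864) (N0 := 3)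
    rfl (fun _ => rfl) s38_pm_012

noncomputable def f_pm_022 : ℕ → ℕ → ℕ → ℕ → Bool := onCell 1073741824 536870912 1073741824 536870912 134217728 67108864
    (rowN 3 2 true true false .pp 0 2 2 (qsf 0 536870912 1073741824 536870912 2) ndN0q0 ndN3q2 pcN2 Cut.none Ext.none)

def k0_pm_022 : ∃ t, chk3 f_pm_022 t 4 2 1 = true :=
  ⟨(b (a (l 3) (b (a (l 3) (a (b (a (b (l 3) (c (l 16710848) (l 16692648))) (c (b (l 16699608) (l 16674848)) (b (l 16680744) (l 16657136)))) (a (c (b (l 16685760) (l 16660016)) (b (l 16668744) (l 16644496))) (c (b (l 16650416) (l 16646424)) (b (l 16633872) (l 16631296))))) (b (b (c (l 16723408) (l 16705896)) (c (l 16677432) (l 16682056))) (a (c (b (l 16637736) (l 16613000)) (b (l 16622088) (l 16619584))) (c (l 16654384) (l 16640320)))))) (b (a (l 3) (b (a (c (a (l 16633856) (l 16620960)) (a (l 16620064) (l 16607472))) (c (l 16623520) (l 16611032))) (b (a (c (b (l 16621728) (c (l 16630096) (l 16623704))) (b (l 16598768) (l 16620032))) (c (b (l 16586480)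 (l 16602272)) (b (l 16576576) (l 16595808)))) (a (c (b (c (l 16615800) (l 16619808)) (a (l 16607800) (l 16595984))) (b (l 16611424) (l 16610032))) (c (b (l 16598656) (l 16599168)) (b (l 16593192) (l 16587416))))))) (b (a (l 3) (b (b (a (c (a (l 16607064) (l 16595488)) (l 16607312)) (c (l 16598904) (l 16585720))) (a (c (a (l 16606576) (l 16595240)) (a (l 16591912) (l 16580648))) (c (l 16588408) (l 16584856)))) (a (c (a (b (l 16606384) (l 1)) (b (l 16595280) (l 16595480))) (a (l 16619864) (l 16608936))) (c (b (l 16588696) (l 16589144)) (c (l 16601472) (l 16594208)))))) (a (l 1) (a (a (l 1) (b (c (l 16619192) (l 16602200)) (l 1))) (b (c (a (l 16608328) (l 16596712)) (a (l 16591504) (l 16580224))) (c (c (l 16608088) (l 16598728)) (l 16596048))))))))) (b (b (a (l 1) (b (a (l 1) (a (l 1) (b (a (l 1) (c (l 16577144) (l 16558576))) (l 1)))) (l 1))) (l 1)) (l 1))), by decide +kernel⟩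

def k1_pm_022 : ∃ t, chk3 f_pm_022 t 10 4 1 = true :=
  ⟨(b (b (a (a (c (b (l 16696408) (l 16650304)) (a (l 16654632) (l 16641032))) (a (c (l 16647440) (b (l 16616416) (l 16613208))) (a (b (l 16632688) (l 16608992)) (b (l 16653016) (l 16629664))))) (c (b (l 17012512) (l 17035736)) (a (l 16616992) (l 16647360)))) (a (a (b (c (a (l 16610744) (l 16595848)) (l 16632776)) (c (l 16620464) (l 16608648))) (a (c (l 16630216) (l 16598024)) (c (l 16752752) (l 16611136)))) (c (b (l 17057296) (l 17076808)) (a (l 16570584) (l 16640440))))) (b (b (a (a (c (l 16595464) (l 16584816)) (a (c (l 16622128) (l 16535184)) (c (l 16779576) (l 16542712)))) (c (l 17094016) (l 16528856))) (c (a (a (b (b (l 16558592) (l 16574520)) (b (l 16571464) (l 16571896))) (a (b (b (l 16615912) (l 16613208)) (l 16579312)) (b (b (l 16779712) (l 16779504)) (b (l 16779392) (l 16780008))))) (b (b (l 17103552) (l 17106920)) (b (l 17110064) (l 17112952)))) (a (a (b (b (l 16561456) (l 16580576)) (a (l 16597136) (l 16590848)))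 (a (b (l 16600760) (l 16590568)) (b (l 16597144) (l 16570736)))) (b (l 16576288) (l 16551760))))) (a (a (b (b (c (b (l 16571928) (l 16572224)) (b (l 16566640) (l 16561016))) (c (b (l 16572832) (l 16573600)) (l 16585864))) (b (c (l 16593104) (l 16577296)) (c (c (l 16583072) (l 16574088)) (l 16571912)))) (a (b (b (c (l 16588672) (l 16551272)) (c (l 16609248) (l 16540792))) (b (c (l 16610792) (l 16540736)) (c (l 16614240) (l 16520328)))) (b (b (c (l 16593784) (l 16557728)) (c (l 16785936) (l 16536072))) (b (c (l 16791064) (l 16536528)) (c (l 16797896) (l 16537584)))))) (b (b (c (b (l 17116192) (l 17119696)) (l 16532728)) (c (a (l 17003784) (l 17233288)) (l 16530976))) (b (c (l 16988072) (l 16522352)) (c (l 17040440) (l 16524256))))))), by decide +kernel⟩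

def k2_pm_022 : ∃ t, chk3 f_pm_022 t 11 4 1 = true :=
  ⟨(b (c (b (a (l 17332024) (l 17535024)) (a (l 17393912) (l 17606392))) (b (a (b (l 16927608) (l 16936064)) (l 17203088)) (a (l 16884152) (l 17236128)))) (b (b (c (l 17560144) (a (l 16955464) (l 17259984))) (b (c (a (l 17456496) (l 17681720)) (b (l 17129000) (l 17005208))) (c (a (l 17468656) (l 17696560)) (a (l 16790240) (l 17275176))))) (b (c (b (a (l 17477992) (l 17706984)) (l 17532896)) (b (a (l 16957912) (l 17278504)) (a (l 16958880) (l 17283096)))) (b (c (l 17628808) (a (l 16960616) (l 17287976))) (c (l 17641512) (a (l 16963336) (l 17293424))))))), by decide +kernel⟩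

def k3_pm_022 : ∃ t, chk3 f_pm_022 t 5 10 1 = true :=
  ⟨(b (a (a (a (b (c (a (b (l 16565096) (l 16565824)) (b (l 16551616) (l 16552648))) (b (l 16572040) (l 16561680))) (b (c (l 16590896) (l 4328085959)) (l 1))) (a (b (c (b (l 16619488) (l 16626264)) (b (l 16521240) (l 16522208))) (b (c (b (l 16631576) (l 16635288)) (l 16522712)) (b (c (l 16638272) (l 16501752)) (l 1)))) (b (b (c (l 16806352) (l 16538936)) (c (l 16774272) (l 16540304))) (b (c (b (l 16824016) (l 16829680)) (l 16541144)) (b (c (l 34929838055) (l 16520384)) (b (c (l 12918115143) (l 16519960)) (c (c (l 17054384) (l 16622080)) (l 16540832)))))))) (b (c (b (l 17031216) (a (l 17044216) (l 17280408))) (b (l 16505512) (l 16507736))) (b (c (a (l 17057208) (l 17294872)) (l 16509424)) (b (c (l 16942896) (l 16489264)) (c (b (a (l 17071776) (l 17311552)) (c (l 17386304) (l 16788096))) (b (l 16489120) (l 16531168))))))) (b (c (b (l 17655048) (l 17669496)) (a (b (l 16967160) (l 16972136)) (l 17302592))) (b (c (l 17601040)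 (a (l 16978192) (l 17314408))) (c (b (l 17697048) (a (b (l 17574144) (l 17578280)) (l 17807680))) (b (a (l 16983320) (l 17320856)) (a (b (l 16985936) (l 16987816)) (l 17325416))))))) (a (a (a (l 1) (a (l 1) (b (b (c (l 16847040) (l 16522576)) (l 1)) (l 1)))) (c (b (a (b (l 17022152) (l 17101064)) (l 17337472)) (a (l 17125848) (l 17270032))) (b (a (l 16511544) (l 16627432)) (l 16546016)))) (a (b (c (l 17598960) (l 17000016)) (c (l 17639520) (l 16920168))) (c (l 17845024) (b (l 17338280) (l 17362672)))))), by decide +kernel⟩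

def k4_pm_022 : ∃ t, chk3 f_pm_022 t 5 11 1 = true :=
  ⟨(a (a (l 1) (b (b (c (l 56405525655) (l 16526376)) (l 1)) (l 1))) (b (a (c (b (l 17680816) (l 17718968)) (b (a (l 16944272) (l 17155152)) (l 68216277591))) (c (l 17927352) (b (l 17392288) (l 17427616)))) (b (c (l 157875479367) (a (l 17121544) (l 17463968))) (a (l 1) (l 142305808231))))), by decide +kernel⟩

def k5_pm_022 : ∃ t, chk3 f_pm_022 t 2 3 1 = true :=
  ⟨(a (l 1) (a (l 1) (b (b (a (l 1) (c (l 18072792) (l 17527560))) (l 1)) (l 1)))), by decide +kernel⟩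

def k6_pm_022 : ∃ t, chk3 f_pm_022 t 3 1 1 = true :=
  ⟨(b (a (b (a (b (c (b (l 17719312) (l 17797080)) (b (a (l 17392032) (l 17523096)) (l 17509480))) (b (b (l 17596616) (b (c (l 17881552) (l 17560184)) (c (l 17897944) (l 17570264)))) (b (c (l 17905800) (b (l 17576072) (l 17583280))) (c (l 17935320) (l 17590608))))) (b (c (l 17866456) (l 17669616)) (b (b (l 17856352) (b (l 17879280) (l 17894544))) (b (l 17982840) (l 17924648))))) (b (b (b (a (c (l 17963760) (l 17608096)) (l 17947992)) (b (a (l 17805528) (l 17966320)) (a (c (l 18002872) (b (l 17629400) (l 17634584))) (l 17978992)))) (a (b (l 17625848) (l 17777344)) (l 17998928))) (a (b (c (l 18101400) (l 17705744)) (c (l 18181480) (a (l 17694704) (l 17830472)))) (b (l 18044592) (l 18101384))))) (b (b (a (l 17805640) (l 17776560)) (b (b (l 17892376) (b (l 17916896) (l 17933032))) (b (l 18146504) (l 17963416)))) (b (b (b (l 17987456) (a (l 18209648) (l 17994272))) (l 18097128)) (b (l 18070640) (l 18115576))))) (b (b (a (a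 (c (l 18286808) (a (l 17770792) (l 17929208))) (l 18214160)) (l 18213792)) (a (a (l 173982088839) (l 18346088)) (l 18348272))) (a (a (l 1) (l 208880190199)) (a (l 18534896) (l 18511168))))), by decide +kernel⟩

theorem s7_pm_022 : ∃ t, chk3 f_pm_022 t 5 5 1 = true := ex3_b k3_pm_022 k4_pm_022

theorem s8_pm_022 : ∃ t, chk3 f_pm_022 t 5 4 1 = true := ex3_a k1_pm_022 k2_pm_022

theorem s9_pm_022 : ∃ t, chk3 f_pm_022 t 5 2 1 = true := ex3_b s8_pm_022 s7_pm_022

theorem s10_pm_022 : ∃ t, chk3 f_pm_022 t 2 2 1 = true := ex3_a k0_pm_022 s9_pm_022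

theorem s11_pm_022 : ∃ t, chk3 f_pm_022 t 2 1 1 = true := ex3_b s10_pm_022 k5_pm_022

theorem s12_pm_022 : ∃ t, chk3 f_pm_022 t 1 1 1 = true := ex3_a s11_pm_022 k6_pm_022

theorem c_pm_022 : CertN 0 536870912 1073741824 536870912 134217728 67108864 3 true true false .pp 0 2 2
    ndN0q0 ndN3q2 pcN2 Cut.none Ext.none :=
  certN2 (fam := true) (s1 := true) (s2 := false) (a := 0) (b := 2) (c := 2) (cn := .pp) (n1 := ndN0q0) (n2 := ndN3q2) (pc := pcN2) (cut := Cut.none) (xt := Ext.none) (P1 := 0) (W1 := 536870912) (P2 := 1073741824) (W2 := 536870912) (P3 := 134217728) (W3 := 67108864) (N0 := 3)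
    rfl (fun _ => rfl) s12_pm_022

noncomputable def f_pm_023 : ℕ → ℕ → ℕ → ℕ → Bool := onCell 0 536870912 1073741824 536870912 134217728 67108864
    (rowN 3 0 true true false .up 0 2 3 (qsf 0 536870912 1073741824 536870912 3) ndN0q0 ndN3q2 pcN3 Cut.none Ext.none)

def k0_pm_023 : ∃ t, chk3 f_pm_023 t 1 1 1 = true :=
  ⟨(a (b (a (l 1) (b (l 1) (b (l 1) (l 281893981607)))) (a (l 269009459687) (b (l 18188984) (l 18149048)))) (b (a (b (b (l 1) (b (l 1) (b (l 1) (l 18018416)))) (b (b (b (l 18034936) (l 158950395079)) (l 18047552)) (l 18284016))) (b (b (l 237870041591) (b (b (l 17910216) (l 105263020775)) (b (l 17907896) (l 17908072)))) (b (b (b (l 17903192) (l 17921408)) (l 17869728)) (l 18000560)))) (a (l 18210440) (b (l 17724456) (a (l 17739688) (b (l 17554968) (b (l 17499200) (a (l 17501504) (a (l 17439896) (b (l 17408736) (l 4))))))))))), by decide +kernel⟩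

theorem c_pm_023 : CertN 0 536870912 1073741824 536870912 134217728 67108864 3 true true false .up 0 2 3
    ndN0q0 ndN3q2 pcN3 Cut.none Ext.none :=
  certN0 (fam := true) (s1 := true) (s2 := false) (a := 0) (b := 2) (c := 3) (cn := .up) (n1 := ndN0q0) (n2 := ndN3q2) (pc := pcN3) (cut := Cut.none) (xt := Ext.none) (P1 := 0) (W1 := 536870912) (P2 := 1073741824) (W2 := 536870912) (P3 := 134217728) (W3 := 67108864) (N0 := 3)
    rfl k0_pm_023

noncomputable def f_pm_033 : ℕ → ℕ → ℕ → ℕ → Bool := onCell 1610612736 536870912 0 1230186008 134217728 67108864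
    (rowN 3 2 true true false .pnn 0 3 3 (qsf 0 536870912 0 1230186008 3) ndN0q0 ndN3q3 pcN3 Cut.none Ext.none)

def k0_pm_033 : ∃ t, chk3 f_pm_033 t 1 1 1 = true :=
  ⟨(a (b (l 1) (b (a (l 1) (a (l 1) (b (l 1) (l 17992584)))) (a (b (l 1) (l 18270960)) (b (a (l 17973960) (l 17851776)) (l 17764816))))) (b (a (l 1) (l 4)) (a (b (a (l 17960464) (l 17865928)) (b (l 17856744) (a (l 17551592) (l 17403752)))) (b (a (l 17737368) (l 4)) (a (b (l 17478024) (l 17239096)) (a (b (l 4) (l 17113216)) (l 4))))))), by decide +kernel⟩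

theorem c_pm_033 : CertN 0 536870912 0 1230186008 134217728 67108864 3 true true false .pnn 0 3 3
    ndN0q0 ndN3q3 pcN3 Cut.none Ext.none :=
  certN2 (fam := true) (s1 := true) (s2 := false) (a := 0) (b := 3) (c := 3) (cn := .pnn) (n1 := ndN0q0) (n2 := ndN3q3) (pc := pcN3) (cut := Cut.none) (xt := Ext.none) (P1 := 0) (W1 := 536870912) (P2 := 0) (W2 := 1230186008) (P3 := 134217728) (W3 := 67108864) (N0 := 3)
    rfl (fun _ => rfl) k0_pm_033

noncomputable def f_pm_101 : ℕ → ℕ → ℕ → ℕ → Bool := onCell 536870912 536870912 0 536870912 134217728 67108864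
    (rowN 3 2 true true false .npn 1 0 1 (qsf 536870912 536870912 0 536870912 1) ndN0q1 ndN3q0 pcN1 Cut.none Ext.none)

def k0_pm_101 : ∃ t, chk3 f_pm_101 t 1 1 1 = true :=
  ⟨(a (l 3) (a (l 3) (a (b (b (l 3) (l 3)) (l 3)) (b (b (b (a (b (l 17317808) (l 17302776)) (l 17311776)) (a (l 17274864) (l 17285296))) (b (l 104322234055) (l 17390888))) (b (b (l 183242081975) (b (l 194516556487) (l 169820670343))) (b (a (l 186464022471) (l 17491240)) (a (a (l 3) (l 608981732391)) (l 17855520)))))))), by decide +kernel⟩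

theorem c_pm_101 : CertN 536870912 536870912 0 536870912 134217728 67108864 3 true true false .npn 1 0 1
    ndN0q1 ndN3q0 pcN1 Cut.none Ext.none :=
  certN2 (fam := true) (s1 := true) (s2 := false) (a := 1) (b := 0) (c := 1) (cn := .npn) (n1 := ndN0q1) (n2 := ndN3q0) (pc := pcN1) (cut := Cut.none) (xt := Ext.none) (P1 := 536870912) (W1 := 536870912) (P2 := 0) (W2 := 536870912) (P3 := 134217728) (W3 := 67108864) (N0 := 3)
    rfl (fun _ => rfl) k0_pm_101

noncomputable def f_pm_102 : ℕ → ℕ → ℕ → ℕ → Bool := onCell 536870912 536870912 1073741824 536870912 134217728 67108864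
    (rowN 3 1 true true false .npp 1 0 2 (qsf 536870912 536870912 0 536870912 2) ndN0q1 ndN3q0 pcN2 Cut.none Ext.none)

def k0_pm_102 : ∃ t, chk3 f_pm_102 t 1 1 1 = true :=
  ⟨(a (b (a (b (b (a (l 17565176) (l 17387680)) (b (b (l 17462528) (l 17456616)) (l 17630408))) (b (b (l 133246515351) (l 2)) (l 2))) (b (b (l 17358768) (b (b (l 17161384) (l 17219328)) (b (l 17152064) (l 17149496)))) (b (b (b (l 17143888) (a (l 17167712) (l 17132656))) (l 17113936)) (l 17172536)))) (a (l 2) (l 17202280))) (b (a (b (b (a (l 17210008) (l 17257496)) (b (b (l 17228824) (l 17214040)) (b (l 17200800) (l 17190696)))) (b (b (b (l 17177416) (l 17167576)) (l 17129256)) (l 17321048))) (b (b (a (b (l 17305016) (l 17291856)) (b (l 17333760) (l 17328120))) (b (b (l 17362280) (a (l 17278992) (l 17426568))) (b (a (l 17269536) (l 17373976)) (l 17434408)))) (b (b (b (l 17305504) (a (l 17250552) (l 17411688))) (l 17291664)) (l 17540408)))) (b (a (l 17016952) (l 17282480)) (a (l 16954920) (l 17286312))))),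 by decide +kernel⟩

theorem c_pm_102 : CertN 536870912 536870912 0 536870912 134217728 67108864 3 true true false .npp 1 0 2
    ndN0q1 ndN3q0 pcN2 Cut.none Ext.none :=
  certN1 (fam := true) (s1 := true) (s2 := false) (a := 1) (b := 0) (c := 2) (cn := .npp) (n1 := ndN0q1) (n2 := ndN3q0) (pc := pcN2) (cut := Cut.none) (xt := Ext.none) (P1 := 536870912) (W1 := 536870912) (P2 := 0) (W2 := 536870912) (P3 := 134217728) (W3 := 67108864) (N0 := 3)
    rfl (fun _ => rfl) k0_pm_102

noncomputable def f_pm_112 : ℕ → ℕ → ℕ → ℕ → Bool := onCell 1073741824 536870912 536870912 536870912 134217728 67108864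
    (rowN 3 2 true true false .dn 1 1 2 (qsf 536870912 536870912 536870912 536870912 2) ndN0q1 ndN3q1 pcN2 Cut.none Ext.none)

def k0_pm_112 : ∃ t, chk3 f_pm_112 t 1 1 1 = true :=
  ⟨(a (b (a (b (a (b (a (l 238406375671) (l 18010856)) (l 260418443591)) (a (a (l 18069064) (l 62313806887)) (a (l 18163272) (l 18206456)))) (a (l 1) (a (l 1) (a (l 1) (l 289947099831))))) (a (a (b (a (l 18242288) (l 18297784)) (a (l 18462184) (l 92378831623))) (b (l 18307176) (l 18326024))) (b (a (l 18338672) (l 18360592)) (a (l 18391352) (l 18438248))))) (a (l 1) (b (a (l 1) (b (l 325381249303) (l 1))) (l 1)))) (b (a (b (l 18674272) (l 18624904)) (b (a (l 18434296) (l 18381272)) (l 18559112))) (b (a (b (l 18673536) (l 314644451463)) (b (l 18725176) (l 18881368))) (b (a (b (l 334508830727) (l 1)) (b (l 18997920) (l 19092184))) (a (l 1) (l 340952004711)))))), by decide +kernel⟩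

theorem c_pm_112 : CertN 536870912 536870912 536870912 536870912 134217728 67108864 3 true true false .dn 1 1 2
    ndN0q1 ndN3q1 pcN2 Cut.none Ext.none :=
  certN2 (fam := true) (s1 := true) (s2 := false) (a := 1) (b := 1) (c := 2) (cn := .dn) (n1 := ndN0q1) (n2 := ndN3q1) (pc := pcN2) (cut := Cut.none) (xt := Ext.none) (P1 := 536870912) (W1 := 536870912) (P2 := 536870912) (W2 := 536870912) (P3 := 134217728) (W3 := 67108864) (N0 := 3)
    rfl (fun _ => rfl) k0_pm_112

noncomputable def f_pm_113 : ℕ → ℕ → ℕ → ℕ → Bool := onCell 1610612736 536870912 536870912 536870912 134217728 67108864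
    (rowN 3 2 true true false .nn 1 1 3 (qsf 536870912 536870912 536870912 536870912 3) ndN0q1 ndN3q1 pcN3 Cut.none Ext.none)

def k0_pm_113 : ∃ t, chk3 f_pm_113 t 1 1 1 = true :=
  ⟨(a (b (a (a (b (a (l 17757024) (l 17861024)) (l 17866864)) (b (l 17808232) (a (l 17886024) (l 17946592)))) (b (a (b (l 2) (l 17636976)) (l 2)) (a (l 17818664) (l 17689080)))) (a (b (a (l 18328912) (b (l 18012520) (l 18194432))) (b (l 18481152) (l 18742928))) (b (b (l 17967144) (a (l 18159496) (l 18170160))) (b (a (l 18344136) (l 18337536)) (a (l 18546816) (l 18480456)))))) (b (a (b (l 2) (l 4)) (l 2)) (a (b (b (l 4) (l 17870344)) (b (a (l 18176568) (l 4)) (l 18374024))) (b (l 4) (l 4))))), by decide +kernel⟩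

theorem c_pm_113 : CertN 536870912 536870912 536870912 536870912 134217728 67108864 3 true true false .nn 1 1 3
    ndN0q1 ndN3q1 pcN3 Cut.none Ext.none :=
  certN2 (fam := true) (s1 := true) (s2 := false) (a := 1) (b := 1) (c := 3) (cn := .nn) (n1 := ndN0q1) (n2 := ndN3q1) (pc := pcN3) (cut := Cut.none) (xt := Ext.none) (P1 := 536870912) (W1 := 536870912) (P2 := 536870912) (W2 := 536870912) (P3 := 134217728) (W3 := 67108864) (N0 := 3)
    rfl (fun _ => rfl) k0_pm_113

noncomputable def f_pm_123 : ℕ → ℕ → ℕ → ℕ → Bool := onCell 1610612736 536870912 1073741824 536870912 134217728 67108864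
    (rowN 3 2 true true false .npn 1 2 3 (qsf 536870912 536870912 1073741824 536870912 3) ndN0q1 ndN3q2 pcN3 Cut.none Ext.none)

def k0_pm_123 : ∃ t, chk3 f_pm_123 t 1 1 1 = true :=
  ⟨(a (b (a (b (b (a (l 17795352) (l 17695656)) (b (b (l 17838456) (a (l 1) (l 17803664))) (b (l 17959808) (l 17899624)))) (b (b (b (l 17918536) (l 1)) (l 1)) (l 1))) (b (b (a (l 17579160) (l 17444120)) (b (b (l 17600032) (a (l 17686064) (l 17551160))) (b (l 17643208) (l 17666648)))) (b (b (b (l 17684912) (l 17897856)) (l 17719200)) (b (l 17741624) (l 17768104))))) (a (l 1) (b (b (l 18071216) (l 1)) (l 1)))) (b (a (b (b (l 17248576) (b (b (l 17312144) (a (l 17427456) (l 17257800))) (b (l 17352232) (l 17375496)))) (b (b (b (l 17422040) (l 17492736)) (l 17443608)) (b (l 17545000) (l 17559520)))) (b (a (b (l 17028472) (b (b (l 17110440) (l 17119824)) (b (l 17131240) (l 17159512)))) (b (a (l 16927736) (a (l 16869360) (a (l 16857816) (a (l 16870496) (l 16899000))))) (b (a (b (l 17010512) (l 17021696))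 (b (a (l 16948864) (a (l 16919224) (l 17164736))) (a (l 16964928) (a (l 16938664) (a (l 16923504) (l 17004224)))))) (a (b (l 17034696) (l 17049288)) (a (b (l 16985592) (l 17001232)) (a (l 17176888) (b (a (l 16941608) (l 16945288)) (l 17168032)))))))) (b (a (b (b (l 17166160) (l 17196936)) (l 17217032)) (a (b (b (l 17063088) (l 17080968)) (l 17096760)) (b (a (b (l 17011520) (l 17030344)) (b (a (l 16988432) (l 17118416)) (a (l 17005392) (a (l 16992832) (l 16985080))))) (a (l 17038736) (a (l 17011424) (l 17075728)))))) (a (l 17239520) (a (l 17121976) (a (l 17063360) (a (l 17036016) (a (l 17020744) (l 16994216))))))))) (a (b (a (l 17743288) (l 17504064)) (a (l 1) (l 17772024))) (a (b (l 17352016) (l 17524432)) (a (b (l 17240600) (l 17400232)) (b (a (l 17182896) (a (l 17146272) (l 17108968))) (a (l 17336872) (l 4)))))))), by decide +kernel⟩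

theorem c_pm_123 : CertN 536870912 536870912 1073741824 536870912 134217728 67108864 3 true true false .npn 1 2 3
    ndN0q1 ndN3q2 pcN3 Cut.none Ext.none :=
  certN2 (fam := true) (s1 := true) (s2 := false) (a := 1) (b := 2) (c := 3) (cn := .npn) (n1 := ndN0q1) (n2 := ndN3q2) (pc := pcN3) (cut := Cut.none) (xt := Ext.none) (P1 := 536870912) (W1 := 536870912) (P2 := 1073741824) (W2 := 536870912) (P3 := 134217728) (W3 := 67108864) (N0 := 3)
    rfl (fun _ => rfl) k0_pm_123

noncomputable def f_pm_133 : ℕ → ℕ → ℕ → ℕ → Bool := onCell 536870912 536870912 0 1230186008 134217728 67108864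
    (rowN 3 0 true true false .dn 1 3 3 (qsf 536870912 536870912 0 1230186008 3) ndN0q1 ndN3q3 pcN3 Cut.none Ext.none)

def k0_pm_133 : ∃ t, chk3 f_pm_133 t 1 1 1 = true :=
  ⟨(b (l 2) (b (l 2) (a (l 4) (l 2)))), by decide +kernel⟩

theorem c_pm_133 : CertN 536870912 536870912 0 1230186008 134217728 67108864 3 true true false .dn 1 3 3
    ndN0q1 ndN3q3 pcN3 Cut.none Ext.none :=
  certN0 (fam := true) (s1 := true) (s2 := false) (a := 1) (b := 3) (c := 3) (cn := .dn) (n1 := ndN0q1) (n2 := ndN3q3) (pc := pcN3) (cut := Cut.none) (xt := Ext.none) (P1 := 536870912) (W1 := 536870912) (P2 := 0) (W2 := 1230186008) (P3 := 134217728) (W3 := 67108864) (N0 := 3)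
    rfl k0_pm_133

noncomputable def f_pm_202 : ℕ → ℕ → ℕ → ℕ → Bool := onCell 0 536870912 1073741824 536870912 134217728 67108864
    (rowN 3 1 true true false .pp 2 0 2 (qsf 0 536870912 0 536870912 2) ndN0q2 ndN3q0 pcN2 Cut.none Ext.none)

def k0_pm_202 : ∃ t, chk3 f_pm_202 t 1 1 1 = true :=
  ⟨(a (b (a (b (l 1) (b (b (b (l 1) (l 17243808)) (l 17268608)) (l 17307120))) (b (b (l 1) (b (l 1) (b (l 1) (l 17333920)))) (b (b (b (l 17288984) (l 17305760)) (l 17328408)) (l 17353416)))) (b (b (l 17530192) (l 17518400)) (l 17399128))) (b (a (b (a (b (l 1) (b (l 1) (b (l 17317768) (l 17334688)))) (b (l 1) (b (b (l 17330344) (b (l 17349232) (l 17360104))) (b (l 17359032) (l 17372752))))) (b (b (b (l 17365720) (l 17378792)) (l 17387232)) (l 17458800))) (b (a (b (b (l 1) (a (b (l 1) (l 17333816)) (c (l 343632281319) (l 322694141463)))) (b (b (l 17373088) (l 17468672)) (b (l 17396920) (l 17411560)))) (b (b (a (c (l 358664578679) (l 338800192439)) (l 152505986407)) (a (b (l 17344424)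 (l 17375112)) (l 17384984))) (b (b (l 17418072) (l 17494344)) (b (l 17445552) (l 17462456))))) (b (b (b (l 17448376) (l 17694328)) (l 17467280)) (l 17547976)))) (b (a (l 17606408) (l 17576696)) (a (l 17522096) (l 17518928))))), by decide +kernel⟩

theorem c_pm_202 : CertN 0 536870912 0 536870912 134217728 67108864 3 true true false .pp 2 0 2
    ndN0q2 ndN3q0 pcN2 Cut.none Ext.none :=
  certN1 (fam := true) (s1 := true) (s2 := false) (a := 2) (b := 0) (c := 2) (cn := .pp) (n1 := ndN0q2) (n2 := ndN3q0) (pc := pcN2) (cut := Cut.none) (xt := Ext.none) (P1 := 0) (W1 := 536870912) (P2 := 0) (W2 := 536870912) (P3 := 134217728) (W3 := 67108864) (N0 := 3)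
    rfl (fun _ => rfl) k0_pm_202

noncomputable def f_pm_203 : ℕ → ℕ → ℕ → ℕ → Bool := onCell 0 536870912 1610612736 536870912 134217728 67108864
    (rowN 3 1 true true false .up 2 0 3 (qsf 0 536870912 0 536870912 3) ndN0q2 ndN3q0 pcN3 Cut.none Ext.none)

def k0_pm_203 : ∃ t, chk3 f_pm_203 t 1 1 1 = true :=
  ⟨(b (b (a (l 4) (b (l 17664744) (l 17702464))) (a (l 4) (l 17845128))) (l 2)), by decide +kernel⟩

theorem c_pm_203 : CertN 0 536870912 0 536870912 134217728 67108864 3 true true false .up 2 0 3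
    ndN0q2 ndN3q0 pcN3 Cut.none Ext.none :=
  certN1 (fam := true) (s1 := true) (s2 := false) (a := 2) (b := 0) (c := 3) (cn := .up) (n1 := ndN0q2) (n2 := ndN3q0) (pc := pcN3) (cut := Cut.none) (xt := Ext.none) (P1 := 0) (W1 := 536870912) (P2 := 0) (W2 := 536870912) (P3 := 134217728) (W3 := 67108864) (N0 := 3)
    rfl (fun _ => rfl) k0_pm_203

noncomputable def f_pm_213 : ℕ → ℕ → ℕ → ℕ → Bool := onCell 0 536870912 1610612736 536870912 134217728 67108864
    (rowN 3 1 true true false .pnn 2 1 3 (qsf 0 536870912 536870912 536870912 3) ndN0q2 ndN3q1 pcN3 Cut.none Ext.none)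

def k0_pm_213 : ∃ t, chk3 f_pm_213 t 1 1 1 = true :=
  ⟨(b (b (a (l 4) (b (l 17803880) (l 17661032))) (a (l 4) (l 17831472))) (l 4)), by decide +kernel⟩

theorem c_pm_213 : CertN 0 536870912 536870912 536870912 134217728 67108864 3 true true false .pnn 2 1 3
    ndN0q2 ndN3q1 pcN3 Cut.none Ext.none :=
  certN1 (fam := true) (s1 := true) (s2 := false) (a := 2) (b := 1) (c := 3) (cn := .pnn) (n1 := ndN0q2) (n2 := ndN3q1) (pc := pcN3) (cut := Cut.none) (xt := Ext.none) (P1 := 0) (W1 := 536870912) (P2 := 536870912) (W2 := 536870912) (P3 := 134217728) (W3 := 67108864) (N0 := 3)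
    rfl (fun _ => rfl) k0_pm_213

noncomputable def f_mm_001 : ℕ → ℕ → ℕ → ℕ → Bool := onCell 0 536870912 0 536870912 134217728 67108864
    (rowN 3 0 true false false .up 0 0 1 (qsf 0 536870912 0 536870912 1) ndN0q0 ndN3q0 pcN1 Cut.none Ext.none)

def k0_mm_001 : ∃ t, chk3 f_mm_001 t 1 1 1 = true :=
  ⟨(l 4), by decide +kernel⟩

theorem c_mm_001 : CertN 0 536870912 0 536870912 134217728 67108864 3 true false false .up 0 0 1
    ndN0q0 ndN3q0 pcN1 Cut.none Ext.none :=
  certN0 (fam := true) (s1 := false) (s2 := false) (a := 0) (b := 0) (c := 1) (cn := .up) (n1 := ndN0q0) (n2 := ndN3q0) (pc := pcN1) (cut := Cut.none) (xt := Ext.none) (P1 := 0) (W1 := 536870912) (P2 := 0) (W2 := 536870912) (P3 := 134217728) (W3 := 67108864) (N0 := 3)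
    rfl k0_mm_001

noncomputable def f_mm_011 : ℕ → ℕ → ℕ → ℕ → Bool := onCell 0 536870912 536870912 536870912 134217728 67108864
    (rowN 3 0 true false false .pnn 0 1 1 (qsf 0 536870912 536870912 536870912 1) ndN0q0 ndN3q1 pcN1 Cut.none Ext.none)

def k0_mm_011 : ∃ t, chk3 f_mm_011 t 1 1 1 = true :=
  ⟨(l 4), by decide +kernel⟩

theorem c_mm_011 : CertN 0 536870912 536870912 536870912 134217728 67108864 3 true false false .pnn 0 1 1
    ndN0q0 ndN3q1 pcN1 Cut.none Ext.none :=
  certN0 (fam := true) (s1 := false) (s2 := false) (a := 0) (b := 1) (c := 1) (cn := .pnn) (n1 := ndN0q0) (n2 := ndN3q1) (pc := pcN1) (cut := Cut.none) (xt := Ext.none) (P1 := 0) (W1 := 536870912) (P2 := 536870912) (W2 := 536870912) (P3 := 134217728) (W3 := 67108864) (N0 := 3)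
    rfl k0_mm_011

noncomputable def f_mm_012 : ℕ → ℕ → ℕ → ℕ → Bool := onCell 0 536870912 536870912 536870912 134217728 67108864
    (rowN 3 0 true false false .pnp 0 1 2 (qsf 0 536870912 536870912 536870912 2) ndN0q0 ndN3q1 pcN2 Cut.none Ext.none)

def k0_mm_012 : ∃ t, chk3 f_mm_012 t 1 1 1 = true :=
  ⟨(l 4), by decide +kernel⟩

theorem c_mm_012 : CertN 0 536870912 536870912 536870912 134217728 67108864 3 true false false .pnp 0 1 2
    ndN0q0 ndN3q1 pcN2 Cut.none Ext.none :=
  certN0 (fam := true) (s1 := false) (s2 := false) (a := 0) (b := 1) (c := 2) (cn := .pnp) (n1 := ndN0q0) (n2 := ndN3q1) (pc := pcN2) (cut := Cut.none) (xt := Ext.none) (P1 := 0) (W1 := 536870912) (P2 := 536870912) (W2 := 536870912) (P3 := 134217728) (W3 := 67108864) (N0 := 3)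
    rfl k0_mm_012

noncomputable def f_mm_022 : ℕ → ℕ → ℕ → ℕ → Bool := onCell 0 536870912 1073741824 536870912 134217728 67108864
    (rowN 3 0 true false false .pp 0 2 2 (qsf 0 536870912 1073741824 536870912 2) ndN0q0 ndN3q2 pcN2 Cut.none Ext.none)

def k0_mm_022 : ∃ t, chk3 f_mm_022 t 1 1 1 = true :=
  ⟨(l 4), by decide +kernel⟩

theorem c_mm_022 : CertN 0 536870912 1073741824 536870912 134217728 67108864 3 true false false .pp 0 2 2
    ndN0q0 ndN3q2 pcN2 Cut.none Ext.none :=
  certN0 (fam := true) (s1 := false) (s2 := false) (a := 0) (b := 2) (c := 2) (cn := .pp) (n1 := ndN0q0) (n2 := ndN3q2) (pc := pcN2) (cut := Cut.none) (xt := Ext.none) (P1 := 0) (W1 := 536870912) (P2 := 1073741824) (W2 := 536870912) (P3 := 134217728) (W3 := 67108864) (N0 := 3)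
    rfl k0_mm_022

noncomputable def f_mm_023 : ℕ → ℕ → ℕ → ℕ → Bool := onCell 0 536870912 1073741824 536870912 134217728 67108864
    (rowN 3 0 true false false .up 0 2 3 (qsf 0 536870912 1073741824 536870912 3) ndN0q0 ndN3q2 pcN3 Cut.none Ext.none)

def k0_mm_023 : ∃ t, chk3 f_mm_023 t 1 1 1 = true :=
  ⟨(l 4), by decide +kernel⟩

theorem c_mm_023 : CertN 0 536870912 1073741824 536870912 134217728 67108864 3 true false false .up 0 2 3
    ndN0q0 ndN3q2 pcN3 Cut.none Ext.none :=
  certN0 (fam := true) (s1 := false) (s2 := false) (a := 0) (b := 2) (c := 3) (cn := .up) (n1 := ndN0q0) (n2 := ndN3q2) (pc := pcN3) (cut := Cut.none) (xt := Ext.none) (P1 := 0) (W1 := 536870912) (P2 := 1073741824) (W2 := 536870912) (P3 := 134217728) (W3 := 67108864) (N0 := 3)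
    rfl k0_mm_023

noncomputable def f_mm_033 : ℕ → ℕ → ℕ → ℕ → Bool := onCell 0 536870912 0 1230186008 134217728 67108864
    (rowN 3 0 true false false .pnn 0 3 3 (qsf 0 536870912 0 1230186008 3) ndN0q0 ndN3q3 pcN3 Cut.none Ext.none)

def k0_mm_033 : ∃ t, chk3 f_mm_033 t 1 1 1 = true :=
  ⟨(l 5), by decide +kernel⟩

theorem c_mm_033 : CertN 0 536870912 0 1230186008 134217728 67108864 3 true false false .pnn 0 3 3
    ndN0q0 ndN3q3 pcN3 Cut.none Ext.none :=
  certN0 (fam := true) (s1 := false) (s2 := false) (a := 0) (b := 3) (c := 3) (cn := .pnn) (n1 := ndN0q0) (n2 := ndN3q3) (pc := pcN3) (cut := Cut.none) (xt := Ext.none) (P1 := 0) (W1 := 536870912) (P2 := 0) (W2 := 1230186008) (P3 := 134217728) (W3 := 67108864) (N0 := 3)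
    rfl k0_mm_033

noncomputable def f_mm_101 : ℕ → ℕ → ℕ → ℕ → Bool := onCell 536870912 536870912 0 536870912 134217728 67108864
    (rowN 3 0 true false false .npn 1 0 1 (qsf 536870912 536870912 0 536870912 1) ndN0q1 ndN3q0 pcN1 Cut.none Ext.none)

def k0_mm_101 : ∃ t, chk3 f_mm_101 t 1 1 1 = true :=
  ⟨(l 4), by decide +kernel⟩

theorem c_mm_101 : CertN 536870912 536870912 0 536870912 134217728 67108864 3 true false false .npn 1 0 1
    ndN0q1 ndN3q0 pcN1 Cut.none Ext.none :=
  certN0 (fam := true) (s1 := false) (s2 := false) (a := 1) (b := 0) (c := 1) (cn := .npn) (n1 := ndN0q1) (n2 := ndN3q0) (pc := pcN1) (cut := Cut.none) (xt := Ext.none) (P1 := 536870912) (W1 := 536870912) (P2 := 0) (W2 := 536870912) (P3 := 134217728) (W3 := 67108864) (N0 := 3)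
    rfl k0_mm_101

noncomputable def f_mm_102 : ℕ → ℕ → ℕ → ℕ → Bool := onCell 536870912 536870912 0 536870912 134217728 67108864
    (rowN 3 0 true false false .npp 1 0 2 (qsf 536870912 536870912 0 536870912 2) ndN0q1 ndN3q0 pcN2 Cut.none Ext.none)

def k0_mm_102 : ∃ t, chk3 f_mm_102 t 1 1 1 = true :=
  ⟨(l 4), by decide +kernel⟩

theorem c_mm_102 : CertN 536870912 536870912 0 536870912 134217728 67108864 3 true false false .npp 1 0 2
    ndN0q1 ndN3q0 pcN2 Cut.none Ext.none :=
  certN0 (fam := true) (s1 := false) (s2 := false) (a := 1) (b := 0) (c := 2) (cn := .npp) (n1 := ndN0q1) (n2 := ndN3q0) (pc := pcN2) (cut := Cut.none) (xt := Ext.none) (P1 := 536870912) (W1 := 536870912) (P2 := 0) (W2 := 536870912) (P3 := 134217728) (W3 := 67108864) (N0 := 3)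
    rfl k0_mm_102

noncomputable def f_mm_112 : ℕ → ℕ → ℕ → ℕ → Bool := onCell 536870912 536870912 536870912 536870912 134217728 67108864
    (rowN 3 0 true false false .dn 1 1 2 (qsf 536870912 536870912 536870912 536870912 2) ndN0q1 ndN3q1 pcN2 Cut.none Ext.none)

def k0_mm_112 : ∃ t, chk3 f_mm_112 t 1 1 1 = true :=
  ⟨(l 4), by decide +kernel⟩

theorem c_mm_112 : CertN 536870912 536870912 536870912 536870912 134217728 67108864 3 true false false .dn 1 1 2
    ndN0q1 ndN3q1 pcN2 Cut.none Ext.none :=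
  certN0 (fam := true) (s1 := false) (s2 := false) (a := 1) (b := 1) (c := 2) (cn := .dn) (n1 := ndN0q1) (n2 := ndN3q1) (pc := pcN2) (cut := Cut.none) (xt := Ext.none) (P1 := 536870912) (W1 := 536870912) (P2 := 536870912) (W2 := 536870912) (P3 := 134217728) (W3 := 67108864) (N0 := 3)
    rfl k0_mm_112

noncomputable def f_mm_113 : ℕ → ℕ → ℕ → ℕ → Bool := onCell 536870912 536870912 536870912 536870912 134217728 67108864
    (rowN 3 0 true false false .nn 1 1 3 (qsf 536870912 536870912 536870912 536870912 3) ndN0q1 ndN3q1 pcN3 Cut.none Ext.none)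

def k0_mm_113 : ∃ t, chk3 f_mm_113 t 1 1 1 = true :=
  ⟨(l 4), by decide +kernel⟩

theorem c_mm_113 : CertN 536870912 536870912 536870912 536870912 134217728 67108864 3 true false false .nn 1 1 3
    ndN0q1 ndN3q1 pcN3 Cut.none Ext.none :=
  certN0 (fam := true) (s1 := false) (s2 := false) (a := 1) (b := 1) (c := 3) (cn := .nn) (n1 := ndN0q1) (n2 := ndN3q1) (pc := pcN3) (cut := Cut.none) (xt := Ext.none) (P1 := 536870912) (W1 := 536870912) (P2 := 536870912) (W2 := 536870912) (P3 := 134217728) (W3 := 67108864) (N0 := 3)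
    rfl k0_mm_113

noncomputable def f_mm_123 : ℕ → ℕ → ℕ → ℕ → Bool := onCell 536870912 536870912 1073741824 536870912 134217728 67108864
    (rowN 3 0 true false false .npn 1 2 3 (qsf 536870912 536870912 1073741824 536870912 3) ndN0q1 ndN3q2 pcN3 Cut.none Ext.none)

def k0_mm_123 : ∃ t, chk3 f_mm_123 t 1 1 1 = true :=
  ⟨(l 4), by decide +kernel⟩

theorem c_mm_123 : CertN 536870912 536870912 1073741824 536870912 134217728 67108864 3 true false false .npn 1 2 3
    ndN0q1 ndN3q2 pcN3 Cut.none Ext.none :=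
  certN0 (fam := true) (s1 := false) (s2 := false) (a := 1) (b := 2) (c := 3) (cn := .npn) (n1 := ndN0q1) (n2 := ndN3q2) (pc := pcN3) (cut := Cut.none) (xt := Ext.none) (P1 := 536870912) (W1 := 536870912) (P2 := 1073741824) (W2 := 536870912) (P3 := 134217728) (W3 := 67108864) (N0 := 3)
    rfl k0_mm_123

noncomputable def f_mm_133 : ℕ → ℕ → ℕ → ℕ → Bool := onCell 536870912 536870912 0 1230186008 134217728 67108864
    (rowN 3 0 true false false .dn 1 3 3 (qsf 536870912 536870912 0 1230186008 3) ndN0q1 ndN3q3 pcN3 Cut.none Ext.none)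

def k0_mm_133 : ∃ t, chk3 f_mm_133 t 1 1 1 = true :=
  ⟨(l 4), by decide +kernel⟩

theorem c_mm_133 : CertN 536870912 536870912 0 1230186008 134217728 67108864 3 true false false .dn 1 3 3
    ndN0q1 ndN3q3 pcN3 Cut.none Ext.none :=
  certN0 (fam := true) (s1 := false) (s2 := false) (a := 1) (b := 3) (c := 3) (cn := .dn) (n1 := ndN0q1) (n2 := ndN3q3) (pc := pcN3) (cut := Cut.none) (xt := Ext.none) (P1 := 536870912) (W1 := 536870912) (P2 := 0) (W2 := 1230186008) (P3 := 134217728) (W3 := 67108864) (N0 := 3)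
    rfl k0_mm_133

noncomputable def f_mm_202 : ℕ → ℕ → ℕ → ℕ → Bool := onCell 0 536870912 0 536870912 134217728 67108864
    (rowN 3 0 true false false .pp 2 0 2 (qsf 0 536870912 0 536870912 2) ndN0q2 ndN3q0 pcN2 Cut.none Ext.none)

def k0_mm_202 : ∃ t, chk3 f_mm_202 t 1 1 1 = true :=
  ⟨(b (a (b (b (a (l 17272392) (b (l 17264696) (l 17273648))) (a (l 17341408) (l 17231584))) (b (l 19563606503) (l 4))) (b (a (b (b (a (l 17266296) (l 4)) (l 4)) (l 4)) (l 4)) (l 4))) (l 4)), by decide +kernel⟩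

theorem c_mm_202 : CertN 0 536870912 0 536870912 134217728 67108864 3 true false false .pp 2 0 2
    ndN0q2 ndN3q0 pcN2 Cut.none Ext.none :=
  certN0 (fam := true) (s1 := false) (s2 := false) (a := 2) (b := 0) (c := 2) (cn := .pp) (n1 := ndN0q2) (n2 := ndN3q0) (pc := pcN2) (cut := Cut.none) (xt := Ext.none) (P1 := 0) (W1 := 536870912) (P2 := 0) (W2 := 536870912) (P3 := 134217728) (W3 := 67108864) (N0 := 3)
    rfl k0_mm_202

noncomputable def f_mm_203 : ℕ → ℕ → ℕ → ℕ → Bool := onCell 0 536870912 1610612736 536870912 134217728 67108864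
    (rowN 3 1 true false false .up 2 0 3 (qsf 0 536870912 0 536870912 3) ndN0q2 ndN3q0 pcN3 Cut.none Ext.none)

def k0_mm_203 : ∃ t, chk3 f_mm_203 t 1 1 1 = true :=
  ⟨(l 4), by decide +kernel⟩

theorem c_mm_203 : CertN 0 536870912 0 536870912 134217728 67108864 3 true false false .up 2 0 3
    ndN0q2 ndN3q0 pcN3 Cut.none Ext.none :=
  certN1 (fam := true) (s1 := false) (s2 := false) (a := 2) (b := 0) (c := 3) (cn := .up) (n1 := ndN0q2) (n2 := ndN3q0) (pc := pcN3) (cut := Cut.none) (xt := Ext.none) (P1 := 0) (W1 := 536870912) (P2 := 0) (W2 := 536870912) (P3 := 134217728) (W3 := 67108864) (N0 := 3)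
    rfl (fun _ => rfl) k0_mm_203

noncomputable def f_mm_213 : ℕ → ℕ → ℕ → ℕ → Bool := onCell 0 536870912 536870912 536870912 134217728 67108864
    (rowN 3 0 true false false .pnn 2 1 3 (qsf 0 536870912 536870912 536870912 3) ndN0q2 ndN3q1 pcN3 Cut.none Ext.none)

def k0_mm_213 : ∃ t, chk3 f_mm_213 t 1 1 1 = true :=
  ⟨(l 4), by decide +kernel⟩

theorem c_mm_213 : CertN 0 536870912 536870912 536870912 134217728 67108864 3 true false false .pnn 2 1 3
    ndN0q2 ndN3q1 pcN3 Cut.none Ext.none :=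
  certN0 (fam := true) (s1 := false) (s2 := false) (a := 2) (b := 1) (c := 3) (cn := .pnn) (n1 := ndN0q2) (n2 := ndN3q1) (pc := pcN3) (cut := Cut.none) (xt := Ext.none) (P1 := 0) (W1 := 536870912) (P2 := 536870912) (W2 := 536870912) (P3 := 134217728) (W3 := 67108864) (N0 := 3)
    rfl k0_mm_213

end Pool.Agent.Strip051.G.I1_8_3_16.Tab.C.NA03

namespace Pool.Agent.Strip051.G.I1_8_3_16.Tab.C.NA04

open Pool.Agent.Strip051.PB Pool.Agent.Strip051.PB.T
open Pool.Agent.Strip051.G.I1_8_3_16.Tab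

noncomputable def f_pp_001 : ℕ → ℕ → ℕ → ℕ → Bool := onCell 0 536870912 0 536870912 134217728 67108864
    (rowN 3 0 true true true .up 0 0 1 (qsf 0 536870912 0 536870912 1) ndN0q0 ndN4q0 pcN1 Cut.none Ext.none)

def k0_pp_001 : ∃ t, chk3 f_pp_001 t 1 1 1 = true :=
  ⟨(l 4), by decide +kernel⟩

theorem c_pp_001 : CertN 0 536870912 0 536870912 134217728 67108864 3 true true true .up 0 0 1
    ndN0q0 ndN4q0 pcN1 Cut.none Ext.none :=
  certN0 (fam := true) (s1 := true) (s2 := true) (a := 0) (b := 0) (c := 1) (cn := .up) (n1 := ndN0q0) (n2 := ndN4q0) (pc := pcN1) (cut := Cut.none) (xt := Ext.none) (P1 := 0) (W1 := 536870912) (P2 := 0) (W2 := 536870912) (P3 := 134217728) (W3 := 67108864) (N0 := 3)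
    rfl k0_pp_001

noncomputable def f_pp_011 : ℕ → ℕ → ℕ → ℕ → Bool := onCell 0 536870912 536870912 536870912 134217728 67108864
    (rowN 3 0 true true true .pnn 0 1 1 (qsf 0 536870912 536870912 536870912 1) ndN0q0 ndN4q1 pcN1 Cut.none Ext.none)

def k0_pp_011 : ∃ t, chk3 f_pp_011 t 1 1 1 = true :=
  ⟨(l 4), by decide +kernel⟩

theorem c_pp_011 : CertN 0 536870912 536870912 536870912 134217728 67108864 3 true true true .pnn 0 1 1
    ndN0q0 ndN4q1 pcN1 Cut.none Ext.none :=
  certN0 (fam := true) (s1 := true) (s2 := true) (a := 0) (b := 1) (c := 1) (cn := .pnn) (n1 := ndN0q0) (n2 := ndN4q1) (pc := pcN1) (cut := Cut.none) (xt := Ext.none) (P1 := 0) (W1 := 536870912) (P2 := 536870912) (W2 := 536870912) (P3 := 134217728) (W3 := 67108864) (N0 := 3)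
    rfl k0_pp_011

noncomputable def f_pp_012 : ℕ → ℕ → ℕ → ℕ → Bool := onCell 0 536870912 536870912 536870912 134217728 67108864
    (rowN 3 0 true true true .pnp 0 1 2 (qsf 0 536870912 536870912 536870912 2) ndN0q0 ndN4q1 pcN2 Cut.none Ext.none)

def k0_pp_012 : ∃ t, chk3 f_pp_012 t 1 1 1 = true :=
  ⟨(l 4), by decide +kernel⟩

theorem c_pp_012 : CertN 0 536870912 536870912 536870912 134217728 67108864 3 true true true .pnp 0 1 2
    ndN0q0 ndN4q1 pcN2 Cut.none Ext.none :=
  certN0 (fam := true) (s1 := true) (s2 := true) (a := 0) (b := 1) (c := 2) (cn := .pnp) (n1 := ndN0q0) (n2 := ndN4q1) (pc := pcN2) (cut := Cut.none) (xt := Ext.none) (P1 := 0) (W1 := 536870912) (P2 := 536870912) (W2 := 536870912) (P3 := 134217728) (W3 := 67108864) (N0 := 3)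
    rfl k0_pp_012

noncomputable def f_pp_022 : ℕ → ℕ → ℕ → ℕ → Bool := onCell 0 536870912 1073741824 536870912 134217728 67108864
    (rowN 3 0 true true true .pp 0 2 2 (qsf 0 536870912 1073741824 536870912 2) ndN0q0 ndN4q2 pcN2 Cut.none Ext.none)

def k0_pp_022 : ∃ t, chk3 f_pp_022 t 1 1 1 = true :=
  ⟨(l 4), by decide +kernel⟩

theorem c_pp_022 : CertN 0 536870912 1073741824 536870912 134217728 67108864 3 true true true .pp 0 2 2
    ndN0q0 ndN4q2 pcN2 Cut.none Ext.none :=
  certN0 (fam := true) (s1 := true) (s2 := true) (a := 0) (b := 2) (c := 2) (cn := .pp) (n1 := ndN0q0) (n2 := ndN4q2) (pc := pcN2) (cut := Cut.none) (xt := Ext.none) (P1 := 0) (W1 := 536870912) (P2 := 1073741824) (W2 := 536870912) (P3 := 134217728) (W3 := 67108864) (N0 := 3)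
    rfl k0_pp_022

noncomputable def f_pp_023 : ℕ → ℕ → ℕ → ℕ → Bool := onCell 0 536870912 1073741824 536870912 134217728 67108864
    (rowN 3 0 true true true .up 0 2 3 (qsf 0 536870912 1073741824 536870912 3) ndN0q0 ndN4q2 pcN3 Cut.none Ext.none)

def k0_pp_023 : ∃ t, chk3 f_pp_023 t 1 1 1 = true :=
  ⟨(l 4), by decide +kernel⟩

theorem c_pp_023 : CertN 0 536870912 1073741824 536870912 134217728 67108864 3 true true true .up 0 2 3
    ndN0q0 ndN4q2 pcN3 Cut.none Ext.none :=
  certN0 (fam := true) (s1 := true) (s2 := true) (a := 0) (b := 2) (c := 3) (cn := .up) (n1 := ndN0q0) (n2 := ndN4q2) (pc := pcN3) (cut := Cut.none) (xt := Ext.none) (P1 := 0) (W1 := 536870912) (P2 := 1073741824) (W2 := 536870912) (P3 := 134217728) (W3 := 67108864) (N0 := 3)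
    rfl k0_pp_023

noncomputable def f_pp_033 : ℕ → ℕ → ℕ → ℕ → Bool := onCell 0 536870912 0 1230186008 134217728 67108864
    (rowN 3 0 true true true .pnn 0 3 3 (qsf 0 536870912 0 1230186008 3) ndN0q0 ndN4q3 pcN3 Cut.none Ext.none)

def k0_pp_033 : ∃ t, chk3 f_pp_033 t 1 1 1 = true :=
  ⟨(b (l 4) (l 4)), by decide +kernel⟩

theorem c_pp_033 : CertN 0 536870912 0 1230186008 134217728 67108864 3 true true true .pnn 0 3 3
    ndN0q0 ndN4q3 pcN3 Cut.none Ext.none :=
  certN0 (fam := true) (s1 := true) (s2 := true) (a := 0) (b := 3) (c := 3) (cn := .pnn) (n1 := ndN0q0) (n2 := ndN4q3) (pc := pcN3) (cut := Cut.none) (xt := Ext.none) (P1 := 0) (W1 := 536870912) (P2 := 0) (W2 := 1230186008) (P3 := 134217728) (W3 := 67108864) (N0 := 3)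
    rfl k0_pp_033

noncomputable def f_pp_101 : ℕ → ℕ → ℕ → ℕ → Bool := onCell 536870912 536870912 0 536870912 134217728 67108864
    (rowN 3 0 true true true .npn 1 0 1 (qsf 536870912 536870912 0 536870912 1) ndN0q1 ndN4q0 pcN1 Cut.none Ext.none)

def k0_pp_101 : ∃ t, chk3 f_pp_101 t 1 1 1 = true :=
  ⟨(l 4), by decide +kernel⟩

theorem c_pp_101 : CertN 536870912 536870912 0 536870912 134217728 67108864 3 true true true .npn 1 0 1
    ndN0q1 ndN4q0 pcN1 Cut.none Ext.none :=
  certN0 (fam := true) (s1 := true) (s2 := true) (a := 1) (b := 0) (c := 1) (cn := .npn) (n1 := ndN0q1) (n2 := ndN4q0) (pc := pcN1) (cut := Cut.none) (xt := Ext.none) (P1 := 536870912) (W1 := 536870912) (P2 := 0) (W2 := 536870912) (P3 := 134217728) (W3 := 67108864) (N0 := 3)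
    rfl k0_pp_101

noncomputable def f_pp_102 : ℕ → ℕ → ℕ → ℕ → Bool := onCell 536870912 536870912 0 536870912 134217728 67108864
    (rowN 3 0 true true true .npp 1 0 2 (qsf 536870912 536870912 0 536870912 2) ndN0q1 ndN4q0 pcN2 Cut.none Ext.none)

def k0_pp_102 : ∃ t, chk3 f_pp_102 t 1 1 1 = true :=
  ⟨(l 4), by decide +kernel⟩

theorem c_pp_102 : CertN 536870912 536870912 0 536870912 134217728 67108864 3 true true true .npp 1 0 2
    ndN0q1 ndN4q0 pcN2 Cut.none Ext.none :=
  certN0 (fam := true) (s1 := true) (s2 := true) (a := 1) (b := 0) (c := 2) (cn := .npp) (n1 := ndN0q1) (n2 := ndN4q0) (pc := pcN2) (cut := Cut.none) (xt := Ext.none) (P1 := 536870912) (W1 := 536870912) (P2 := 0) (W2 := 536870912) (P3 := 134217728) (W3 := 67108864) (N0 := 3)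
    rfl k0_pp_102

noncomputable def f_pp_112 : ℕ → ℕ → ℕ → ℕ → Bool := onCell 536870912 536870912 536870912 536870912 134217728 67108864
    (rowN 3 0 true true true .dn 1 1 2 (qsf 536870912 536870912 536870912 536870912 2) ndN0q1 ndN4q1 pcN2 Cut.none Ext.none)

def k0_pp_112 : ∃ t, chk3 f_pp_112 t 1 1 1 = true :=
  ⟨(l 4), by decide +kernel⟩

theorem c_pp_112 : CertN 536870912 536870912 536870912 536870912 134217728 67108864 3 true true true .dn 1 1 2
    ndN0q1 ndN4q1 pcN2 Cut.none Ext.none :=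
  certN0 (fam := true) (s1 := true) (s2 := true) (a := 1) (b := 1) (c := 2) (cn := .dn) (n1 := ndN0q1) (n2 := ndN4q1) (pc := pcN2) (cut := Cut.none) (xt := Ext.none) (P1 := 536870912) (W1 := 536870912) (P2 := 536870912) (W2 := 536870912) (P3 := 134217728) (W3 := 67108864) (N0 := 3)
    rfl k0_pp_112

noncomputable def f_pp_113 : ℕ → ℕ → ℕ → ℕ → Bool := onCell 536870912 536870912 536870912 536870912 134217728 67108864
    (rowN 3 0 true true true .nn 1 1 3 (qsf 536870912 536870912 536870912 536870912 3) ndN0q1 ndN4q1 pcN3 Cut.none Ext.none)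

def k0_pp_113 : ∃ t, chk3 f_pp_113 t 1 1 1 = true :=
  ⟨(l 4), by decide +kernel⟩

theorem c_pp_113 : CertN 536870912 536870912 536870912 536870912 134217728 67108864 3 true true true .nn 1 1 3
    ndN0q1 ndN4q1 pcN3 Cut.none Ext.none :=
  certN0 (fam := true) (s1 := true) (s2 := true) (a := 1) (b := 1) (c := 3) (cn := .nn) (n1 := ndN0q1) (n2 := ndN4q1) (pc := pcN3) (cut := Cut.none) (xt := Ext.none) (P1 := 536870912) (W1 := 536870912) (P2 := 536870912) (W2 := 536870912) (P3 := 134217728) (W3 := 67108864) (N0 := 3)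
    rfl k0_pp_113

noncomputable def f_pp_123 : ℕ → ℕ → ℕ → ℕ → Bool := onCell 536870912 536870912 1073741824 536870912 134217728 67108864
    (rowN 3 0 true true true .npn 1 2 3 (qsf 536870912 536870912 1073741824 536870912 3) ndN0q1 ndN4q2 pcN3 Cut.none Ext.none)

def k0_pp_123 : ∃ t, chk3 f_pp_123 t 1 1 1 = true :=
  ⟨(l 4), by decide +kernel⟩

theorem c_pp_123 : CertN 536870912 536870912 1073741824 536870912 134217728 67108864 3 true true true .npn 1 2 3
    ndN0q1 ndN4q2 pcN3 Cut.none Ext.none :=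
  certN0 (fam := true) (s1 := true) (s2 := true) (a := 1) (b := 2) (c := 3) (cn := .npn) (n1 := ndN0q1) (n2 := ndN4q2) (pc := pcN3) (cut := Cut.none) (xt := Ext.none) (P1 := 536870912) (W1 := 536870912) (P2 := 1073741824) (W2 := 536870912) (P3 := 134217728) (W3 := 67108864) (N0 := 3)
    rfl k0_pp_123

noncomputable def f_pp_133 : ℕ → ℕ → ℕ → ℕ → Bool := onCell 536870912 536870912 0 1230186008 134217728 67108864
    (rowN 3 0 true true true .dn 1 3 3 (qsf 536870912 536870912 0 1230186008 3) ndN0q1 ndN4q3 pcN3 Cut.none Ext.none)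

def k0_pp_133 : ∃ t, chk3 f_pp_133 t 1 1 1 = true :=
  ⟨(l 4), by decide +kernel⟩

theorem c_pp_133 : CertN 536870912 536870912 0 1230186008 134217728 67108864 3 true true true .dn 1 3 3
    ndN0q1 ndN4q3 pcN3 Cut.none Ext.none :=
  certN0 (fam := true) (s1 := true) (s2 := true) (a := 1) (b := 3) (c := 3) (cn := .dn) (n1 := ndN0q1) (n2 := ndN4q3) (pc := pcN3) (cut := Cut.none) (xt := Ext.none) (P1 := 536870912) (W1 := 536870912) (P2 := 0) (W2 := 1230186008) (P3 := 134217728) (W3 := 67108864) (N0 := 3)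
    rfl k0_pp_133

noncomputable def f_pp_202 : ℕ → ℕ → ℕ → ℕ → Bool := onCell 0 536870912 0 536870912 134217728 67108864
    (rowN 3 0 true true true .pp 2 0 2 (qsf 0 536870912 0 536870912 2) ndN0q2 ndN4q0 pcN2 Cut.none Ext.none)

def k0_pp_202 : ∃ t, chk3 f_pp_202 t 1 1 1 = true :=
  ⟨(l 5), by decide +kernel⟩

theorem c_pp_202 : CertN 0 536870912 0 536870912 134217728 67108864 3 true true true .pp 2 0 2
    ndN0q2 ndN4q0 pcN2 Cut.none Ext.none :=
  certN0 (fam := true) (s1 := true) (s2 := true) (a := 2) (b := 0) (c := 2) (cn := .pp) (n1 := ndN0q2) (n2 := ndN4q0) (pc := pcN2) (cut := Cut.none) (xt := Ext.none) (P1 := 0) (W1 := 536870912) (P2 := 0) (W2 := 536870912) (P3 := 134217728) (W3 := 67108864) (N0 := 3)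
    rfl k0_pp_202

noncomputable def f_pp_203 : ℕ → ℕ → ℕ → ℕ → Bool := onCell 0 536870912 0 536870912 134217728 67108864
    (rowN 3 0 true true true .up 2 0 3 (qsf 0 536870912 0 536870912 3) ndN0q2 ndN4q0 pcN3 Cut.none Ext.none)

def k0_pp_203 : ∃ t, chk3 f_pp_203 t 1 1 1 = true :=
  ⟨(l 5), by decide +kernel⟩

theorem c_pp_203 : CertN 0 536870912 0 536870912 134217728 67108864 3 true true true .up 2 0 3
    ndN0q2 ndN4q0 pcN3 Cut.none Ext.none :=
  certN0 (fam := true) (s1 := true) (s2 := true) (a := 2) (b := 0) (c := 3) (cn := .up) (n1 := ndN0q2) (n2 := ndN4q0) (pc := pcN3) (cut := Cut.none) (xt := Ext.none) (P1 := 0) (W1 := 536870912) (P2 := 0) (W2 := 536870912) (P3 := 134217728) (W3 := 67108864) (N0 := 3)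
    rfl k0_pp_203

noncomputable def f_pp_213 : ℕ → ℕ → ℕ → ℕ → Bool := onCell 0 536870912 536870912 536870912 134217728 67108864
    (rowN 3 0 true true true .pnn 2 1 3 (qsf 0 536870912 536870912 536870912 3) ndN0q2 ndN4q1 pcN3 Cut.none Ext.none)

def k0_pp_213 : ∃ t, chk3 f_pp_213 t 1 1 1 = true :=
  ⟨(l 4), by decide +kernel⟩

theorem c_pp_213 : CertN 0 536870912 536870912 536870912 134217728 67108864 3 true true true .pnn 2 1 3
    ndN0q2 ndN4q1 pcN3 Cut.none Ext.none :=
  certN0 (fam := true) (s1 := true) (s2 := true) (a := 2) (b := 1) (c := 3) (cn := .pnn) (n1 := ndN0q2) (n2 := ndN4q1) (pc := pcN3) (cut := Cut.none) (xt := Ext.none) (P1 := 0) (W1 := 536870912) (P2 := 536870912) (W2 := 536870912) (P3 := 134217728) (W3 := 67108864) (N0 := 3)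
    rfl k0_pp_213

noncomputable def f_pm_001 : ℕ → ℕ → ℕ → ℕ → Bool := onCell 0 536870912 0 536870912 134217728 67108864
    (rowN 3 0 true true false .up 0 0 1 (qsf 0 536870912 0 536870912 1) ndN0q0 ndN4q0 pcN1 Cut.none Ext.none)

def k0_pm_001 : ∃ t, chk3 f_pm_001 t 1 1 1 = true :=
  ⟨(a (l 3) (b (l 3) (a (l 3) (b (a (l 3) (b (l 3) (a (l 3) (l 344840061175)))) (a (c (b (l 3) (a (l 285784918087) (l 200959141335))) (b (l 3) (b (l 289542779543) (a (a (l 3) (l 272899860311)) (l 191832243207))))) (b (a (l 258404046119) (l 197200996951)) (a (l 164988670535) (l 17412808)))))))), by decide +kernel⟩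

theorem c_pm_001 : CertN 0 536870912 0 536870912 134217728 67108864 3 true true false .up 0 0 1
    ndN0q0 ndN4q0 pcN1 Cut.none Ext.none :=
  certN0 (fam := true) (s1 := true) (s2 := false) (a := 0) (b := 0) (c := 1) (cn := .up) (n1 := ndN0q0) (n2 := ndN4q0) (pc := pcN1) (cut := Cut.none) (xt := Ext.none) (P1 := 0) (W1 := 536870912) (P2 := 0) (W2 := 536870912) (P3 := 134217728) (W3 := 67108864) (N0 := 3)
    rfl k0_pm_001

noncomputable def cut_pm_011 : Cut := Cut.of [[⟨0, 0, 0, 67108864⟩, ⟨1, 1, 0, 67108864⟩, ⟨2, 1, 0, 67108864⟩]]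

noncomputable def f_pm_011 : ℕ → ℕ → ℕ → ℕ → Bool := onCell 0 536870912 536870912 536870912 134217728 67108864
    (rowN 3 1 true true false .pnn 0 1 1 (qsf 0 536870912 536870912 536870912 1) ndN0q0 ndN4q1 pcN1 cut_pm_011 Ext.none)

def k0_pm_011 : ∃ t, chk3 f_pm_011 t 1 2 1 = true :=
  ⟨(l 3), by decide +kernel⟩

def k1_pm_011 : ∃ t, chk3 f_pm_011 t 2 6 1 = true :=
  ⟨(l 3), by decide +kernel⟩

def k2_pm_011 : ∃ t, chk3 f_pm_011 t 4 14 1 = true :=
  ⟨(l 3), by decide +kernel⟩

def k3_pm_011 : ∃ t, chk3 f_pm_011 t 8 15 1 = true :=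
  ⟨(b (l 3) (a (b (l 3) (l 6)) (b (a (l 3) (b (l 3) (a (l 3) (a (l 3) (b (l 3) (b (l 3) (c (c (l 16758760) (l 16756792)) (l 16755376)))))))) (b (a (a (l 6) (a (l 6) (b (b (l 3) (l 6)) (l 6)))) (a (b (c (b (a (l 3) (c (c (l 16763448) (l 16762488)) (l 16761112))) (a (c (c (l 16763272) (l 16762368)) (l 16761064)) (c (l 16758464) (l 16756664)))) (b (a (l 3) (c (l 16759384) (l 16757768))) (a (c (l 28085023991) (l 16757888)) (l 16756800)))) (c (b (a (c (l 16757848) (l 16756168)) (c (l 16753160) (l 16756688))) (c (a (l 6) (l 16752976)) (l 16751104))) (b (a (l 16756464) (l 16754320)) (a (l 6) (l 16749112))))) (b (c (b (a (c (l 16758768) (l 16756872)) (c (l 16754272) (l 16757584))) (a (c (l 16753816) (l 16757224)) (c (l 16754224) (l 16752384)))) (b (a (l 16756872) (l 16752304)) (c (l 16750472) (l 16751488)))) (c (a (b (c (l 16753640) (l 16751904)) (l 16744752)) (c (b (l 16748808) (l 16753856)) (l 16744392))) (b (a (l 16749504) (l 16744632)) (l 16740152)))))) (a (l 6) (b (a (a (l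 6) (a (l 6) (c (l 16741536) (l 16743048)))) (c (b (a (l 16741960) (l 16737112)) (a (l 16736600) (l 16732864))) (l 16736008))) (a (l 6) (c (c (l 16727576) (l 16726240)) (b (l 16733880) (l 16730952)))))))))), by decide +kernel⟩

def k4_pm_011 : ∃ t, chk3 f_pm_011 t 9 30 1 = true :=
  ⟨(a (l 3) (b (l 3) (a (l 3) (a (l 3) (b (l 3) (a (l 3) (b (l 3) (c (c (l 16841816) (l 16755552)) (l 166060769031))))))))), by decide +kernel⟩

def k5_pm_011 : ∃ t, chk3 f_pm_011 t 18 62 1 = true :=
  ⟨(a (b (l 3) (a (b (l 3) (c (a (b (l 3) (c (l 16754416) (l 16757656))) (b (c (l 16754248) (l 16757440)) (c (l 16755008) (l 16753000)))) (a (b (l 3) (l 16752264)) (c (l 16750648) (l 16751496))))) (a (b (l 3) (c (b (c (l 16754992) (l 16752936)) (c (l 16760544) (l 16758544))) (l 16747648))) (b (c (c (l 37748689655) (l 46875485703)) (l 16750336)) (c (b (c (l 16750192) (l 16758624)) (c (l 16755424) (l 16753440))) (l 16742752)))))) (b (a (l 3) (a (l 3) (b (l 3) (c (c (l 37748675223) (l 47949218231)) (l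 179482575207))))) (a (b (c (a (c (l 24326907655) (l 28621870759)) (c (b (l 16760016) (l 16755560)) (l 33453699415))) (a (l 16745752) (l 16741008))) (c (c (a (a (l 16754208) (l 16751592)) (b (l 16750312) (l 16744952))) (l 16737832)) (a (l 16737688) (b (l 16745584) (l 16741040))))) (b (c (c (b (l 30232468903) (a (l 16750608) (l 16745640))) (l 16738040)) (b (l 16737640) (l 16732768))) (c (c (l 16729632) (a (l 16740656) (l 16735680))) (a (l 16738712) (l 16734856))))))), by decide +kernel⟩

def k6_pm_011 : ∃ t, chk3 f_pm_011 t 19 62 1 = true :=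
  ⟨(a (b (a (b (l 3) (a (c (c (l 25937501079) (l 30769340183)) (l 16735904)) (c (c (l 30232459255) (l 35064298343)) (l 16732624)))) (c (b (a (l 3) (c (l 15737021319) (l 38285523015))) (c (b (a (l 16746168) (l 16724704)) (c (l 16723416) (l 16738152))) (l 16728536))) (b (a (l 3) (l 16732192)) (a (l 16727952) (l 16733648))))) (c (b (a (c (b (a (l 16745952) (l 16740896)) (a (l 16740624) (l 16735568))) (l 16728224)) (c (b (a (l 16735832) (l 16730792)) (l 16727952)) (b (l 16731248) (l 16725936)))) (a (b (l 16721272) (a (l 16728944) (l 16723880))) (a (b (l 16724104) (l 16719304)) (b (l 16718992) (l 16715624))))) (a (b (b (l 16738392) (l 16733472)) (l 16718624)) (b (a (l 16729160) (l 16725256)) (l 16721528))))) (b (a (c (b (c (a (l 8757700615) (l 11442055559)) (c (l 37748639495) (l 16727896))) (c (a (l 16739784) (l 16764352)) (b (a (l 16734304) (l 16729216)) (l 16726472)))) (b (b (l 16727592) (l 16733736)) (b (l 16728792) (a (l 16726080) (l 16721632))))) (c (c (b (a (l 16789024)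 (l 16831472)) (l 16780496)) (b (l 16719824) (b (l 16721504) (l 16716192)))) (b (b (l 16718296) (l 16723832)) (a (l 16719128) (l 16715272))))) (c (c (b (a (l 16757856) (l 16774304)) (b (b (l 16720608) (l 16709544)) (l 16712568))) (a (b (b (l 16721144) (a (l 16718336) (l 16714000))) (l 16711976)) (b (a (l 16711528) (l 16707792)) (l 16704512)))) (a (b (l 16719384) (l 16713872)) (b (l 16711672) (l 16706232)))))), by decide +kernel⟩

def k7_pm_011 : ∃ t, chk3 f_pm_011 t 9 63 1 = true :=
  ⟨(a (b (a (a (b (c (a (b (c (l 16754712) (l 16752776)) (c (l 16749320) (l 16757952))) (b (c (l 16749736) (l 16758288)) (c (l 16754824) (l 16752976)))) (b (l 16747624) (l 16742440))) (b (c (b (l 16739256) (l 16736560)) (l 16738224)) (c (l 16735136) (l 16735264)))) (b (a (c (c (b (l 16755168) (l 16749768)) (l 16740112)) (l 16737520)) (c (c (b (l 16750040) (l 16744632)) (l 16745496)) (l 16733416))) (c (b (l 16730424) (a (l 16738056) (l 16734264))) (l 16726744)))) (a (b (c (b (l 16730792) (a (l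 16738528) (l 16733272))) (l 16726648)) (c (b (l 16721200) (l 16718560)) (l 16722144))) (c (b (b (a (l 16733592) (l 16728608)) (l 16716568)) (c (l 16722512) (l 16723688))) (b (l 16720472) (l 16725224))))) (a (b (a (c (a (l 16729216) (l 16724272)) (l 16726264)) (c (l 16719584) (l 16723552))) (a (c (b (l 16724720) (l 16718824)) (b (l 16736968) (l 16734080))) (c (b (l 16728128) (l 16715064)) (b (l 16729736) (l 16726880))))) (b (c (a (c (l 16724616) (l 16725608)) (c (l 16717496) (l 16718408))) (a (l 16726896) (l 16719568))) (c (b (c (l 16717288) (l 16718040)) (c (l 16714848) (l 16715456))) (b (l 16718968) (l 16716176)))))) (b (b (a (c (a (a (l 16709656) (l 16708576)) (c (l 16712888) (l 16714184))) (a (l 16723376) (l 16715888))) (c (c (a (l 16705648) (l 16691016)) (l 16703104)) (a (l 16708408) (l 16700872)))) (a (c (c (a (l 16715144) (l 16707920)) (l 16703376)) (a (l 16717712) (l 16710304))) (c (c (l 16686720) (l 16698096)) (l 16699224)))) (a (c (b (c (l 16696096) (l 16707400))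 (b (l 16692832) (a (l 16683512) (l 16676432)))) (b (l 16700544) (b (l 16704312) (l 16701600)))) (b (c (c (l 16692544) (l 16693168)) (l 16693904)) (c (c (l 16677504) (l 16688320)) (l 16688640)))))), by decide +kernel⟩

def k8_pm_011 : ∃ t, chk3 f_pm_011 t 5 14 1 = true :=
  ⟨(a (l 3) (b (l 3) (a (l 3) (b (l 3) (c (l 126869765335) (l 113447864903)))))), by decide +kernel⟩

def k9_pm_011 : ∃ t, chk3 f_pm_011 t 10 30 1 = true :=
  ⟨(a (b (l 3) (c (a (b (l 3) (b (a (l 3) (c (l 16907744) (l 16830152))) (a (c (l 9831542007) (l 10905196279)) (c (l 16909856) (l 16819656))))) (b (a (l 3) (c (l 16962968) (l 63518704823))) (c (a (l 16925744) (l 16983920)) (a (b (l 16864200) (l 16857256)) (l 16897184))))) (b (a (l 3) (a (l 3) (c (l 44728112807) (l 28085009351)))) (a (a (b (l 3) (c (a (l 16729168) (l 16724344)) (l 104320603351))) (b (b (l 3) (l 20568827079)) (c (l 16728736) (b (l 16717392) (l 16712456))))) (c (a (b (l 16783800) (l 16765080)) (l 17884528023)) (b (a (l 16702792) (l 16734080))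 (b (l 16697800) (l 16703176)))))))) (a (b (l 3) (c (b (c (l 17012464) (a (l 16927664) (l 16958824))) (c (l 17038392) (a (l 16932920) (l 16968168)))) (b (a (c (l 16858744) (l 14663273063)) (c (l 16888296) (l 16273933991))) (a (c (l 16844808) (l 16756080)) (c (l 16879632) (l 16790512)))))) (c (b (b (l 3) (l 16947464)) (b (l 16978000) (l 17063912))) (b (b (l 3) (c (l 16924016) (l 59223689639))) (b (c (l 16932680) (a (l 16845752) (l 16874328))) (c (l 16931072) (l 16841840))))))), by decide +kernel⟩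

def k10_pm_011 : ∃ t, chk3 f_pm_011 t 10 31 1 = true :=
  ⟨(b (a (b (a (c (a (c (b (l 16842864) (l 16850768)) (b (l 16760832) (l 16731656))) (c (b (l 16906952) (l 16899232)) (b (l 16803136) (l 16780568)))) (a (b (a (b (l 16721280) (l 16716080)) (b (l 16716064) (l 16711768))) (l 16709528)) (b (c (l 16698504) (l 16708112)) (l 16702008)))) (c (c (a (l 16948520) (l 16992080)) (a (l 16816704) (l 16881808))) (b (c (l 16761544) (l 16696864)) (a (l 16694640) (l 16698504))))) (c (a (a (b (c (l 16831184) (l 16694392)) (c (l 16804040) (l 16697200))) (c (l 16877200) (l 16754592))) (c (a (l 16932920) (l 16985784)) (a (l 16792168) (l 16847888)))) (a (b (c (l 16699760) (l 16700824)) (c (l 16694536) (l 16695400))) (a (b (l 16689352) (l 16684136)) (l 16721568))))) (c (a (b (c (l 17054712) (l 16945728)) (c (l 17059864) (l 16926240))) (b (l 17079384) (l 17085480))) (a (b (a (c (l 16814520) (l 16703528)) (l 16802240)) (a (l 16696456) (l 16750936))) (b (c (l 16918472) (l 16810352)) (l 16785624)))))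 (a (b (a (c (b (c (l 16804672) (l 16688648)) (c (l 16764280) (l 16683848))) (b (l 16689736) (l 16684576))) (c (c (a (l 16894640) (l 16960504)) (b (l 16774080) (l 16733512))) (b (l 16675456) (l 16670448)))) (c (a (b (c (l 16713120) (l 16679160)) (c (l 16674512) (l 16674576))) (b (l 16764680) (c (l 16849224) (l 16640288)))) (a (b (l 16679496) (l 16674496)) (b (l 16665520) (l 16639712))))) (c (b (a (c (l 17050384) (l 16888008)) (l 17079504)) (a (b (l 16916600) (l 16866408)) (l 16953112))) (b (a (b (l 16665408) (l 16656992)) (l 16772000)) (a (b (l 16631256) (l 16626576)) (l 16693080)))))), by decide +kernel⟩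

def k11_pm_011 : ∃ t, chk3 f_pm_011 t 11 15 1 = true :=
  ⟨(b (a (c (b (a (l 22179863239) (l 17103376)) (a (l 17053072) (l 17175128))) (b (a (b (l 3) (c (l 16977176) (l 16916256))) (b (l 16979640) (l 16997944))) (a (b (c (l 16990928) (l 16916856)) (l 16931824)) (b (l 17009824) (l 17015720))))) (c (b (l 17180480) (l 17257240)) (b (a (l 24327353447) (l 17084464)) (a (l 17069896) (l 17122928))))) (a (c (b (a (l 17161184) (l 17231368)) (a (b (l 17175216) (l 17170992)) (l 17264280))) (b (a (b (l 16942448) (l 16920720)) (b (l 17014504) (l 17004512))) (b (a (l 16884880) (l 16983728)) (a (l 16831536) (l 16949624))))) (c (b (l 17324760) (l 17377296)) (b (a (l 17081400) (l 17145320)) (a (l 17062424) (l 17143840)))))), by decide +kernel⟩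

def k12_pm_011 : ∃ t, chk3 f_pm_011 t 3 3 1 = true :=
  ⟨(b (a (l 3) (a (l 3) (l 1))) (a (b (a (b (l 3) (a (b (l 3) (c (l 17192632) (l 35601745687))) (c (l 56539928231) (b (l 17118840) (l 17181504))))) (b (a (l 3) (l 118280054727)) (c (l 70498843191) (a (l 52781863575) (l 17309504))))) (b (a (c (a (l 17275312) (l 17406392)) (a (b (l 17152104) (l 17197360)) (l 17263928))) (c (l 17527648) (a (l 17345848) (l 17422760)))) (a (c (a (l 17466696) (l 17562568)) (a (b (l 17231344) (l 17248392)) (l 17350080))) (c (l 17683416) (l 17484608))))) (b (b (a (c (l 87678734583) (l 71035619303)) (l 1)) (a (c (l 17527256) (l 17420520)) (l 17613168))) (a (b (c (l 17672272) (l 17530472)) (l 17727368)) (b (l 17731592) (l 17849696)))))), by decide +kernel⟩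

theorem s13_pm_011 : ∃ t, chk3 f_pm_011 t 10 15 1 = true := ex3_b k9_pm_011 k10_pm_011

theorem s14_pm_011 : ∃ t, chk3 f_pm_011 t 5 15 1 = true := ex3_a s13_pm_011 k11_pm_011

theorem s15_pm_011 : ∃ t, chk3 f_pm_011 t 5 7 1 = true := ex3_b k8_pm_011 s14_pm_011

theorem s16_pm_011 : ∃ t, chk3 f_pm_011 t 9 62 1 = true := ex3_a k5_pm_011 k6_pm_011

theorem s17_pm_011 : ∃ t, chk3 f_pm_011 t 9 31 1 = true := ex3_b s16_pm_011 k7_pm_011

theorem s18_pm_011 : ∃ t, chk3 f_pm_011 t 9 15 1 = true := ex3_b k4_pm_011 s17_pm_011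

theorem s19_pm_011 : ∃ t, chk3 f_pm_011 t 4 15 1 = true := ex3_a k3_pm_011 s18_pm_011

theorem s20_pm_011 : ∃ t, chk3 f_pm_011 t 4 7 1 = true := ex3_b k2_pm_011 s19_pm_011

theorem s21_pm_011 : ∃ t, chk3 f_pm_011 t 2 7 1 = true := ex3_a s20_pm_011 s15_pm_011

theorem s22_pm_011 : ∃ t, chk3 f_pm_011 t 2 3 1 = true := ex3_b k1_pm_011 s21_pm_011

theorem s23_pm_011 : ∃ t, chk3 f_pm_011 t 1 3 1 = true := ex3_a s22_pm_011 k12_pm_011

theorem s24_pm_011 : ∃ t, chk3 f_pm_011 t 1 1 1 = true := ex3_b k0_pm_011 s23_pm_011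

theorem c_pm_011 : CertN 0 536870912 536870912 536870912 134217728 67108864 3 true true false .pnn 0 1 1
    ndN0q0 ndN4q1 pcN1 cut_pm_011 Ext.none :=
  certN1 (fam := true) (s1 := true) (s2 := false) (a := 0) (b := 1) (c := 1) (cn := .pnn) (n1 := ndN0q0) (n2 := ndN4q1) (pc := pcN1) (cut := cut_pm_011) (xt := Ext.none) (P1 := 0) (W1 := 536870912) (P2 := 536870912) (W2 := 536870912) (P3 := 134217728) (W3 := 67108864) (N0 := 3)
    rfl (fun _ => rfl) s24_pm_011

noncomputable def cut_pm_012 : Cut := Cut.of [[⟨0, 0, 0, 67108864⟩, ⟨1, 1, 0, 67108864⟩, ⟨2, 1, 0, 67108864⟩]]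

noncomputable def f_pm_012 : ℕ → ℕ → ℕ → ℕ → Bool := onCell 1073741824 536870912 536870912 536870912 134217728 67108864
    (rowN 3 2 true true false .pnp 0 1 2 (qsf 0 536870912 536870912 536870912 2) ndN0q0 ndN4q1 pcN2 cut_pm_012 Ext.none)

def k0_pm_012 : ∃ t, chk3 f_pm_012 t 2 2 1 = true :=
  ⟨(a (b (a (a (b (l 18031912) (l 17834184)) (b (l 18182984) (l 18091576))) (a (a (l 18248664) (a (l 18296912) (l 18327552))) (a (l 18353224) (l 18401744)))) (a (a (b (c (l 17899368) (b (l 17701312) (l 17616408))) (c (b (l 17782416) (l 17685496)) (a (b (l 17459536) (l 17333280)) (l 17517904)))) (b (c (l 18102032) (l 17856336)) (c (l 17976544) (b (l 17736424) (l 17635176))))) (a (a (b (l 18115520) (l 17994312)) (b (l 18314128) (a (l 18067560) (l 18114360)))) (a (b (l 18256192) (l 18170096)) (b (l 18320288) (l 18249976)))))) (a (a (b (a (l 18441096) (l 2)) (a (b (l 18375928) (l 18321072)) (a (l 18393904) (l 18421544)))) (b (l 2) (l 18470344))) (b (l 2) (a (l 18537688) (l 18590840))))),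 by decide +kernel⟩

def k1_pm_012 : ∃ t, chk3 f_pm_012 t 8 6 1 = true :=
  ⟨(b (a (a (c (b (l 17489376) (a (c (l 17364480) (l 17186784)) (l 17358544))) (b (a (b (l 17184048) (l 17090312)) (l 17205688)) (a (b (l 16980040) (l 16766264)) (b (l 17052224) (l 16925704))))) (c (b (l 17635584) (l 17355928)) (b (l 17306816) (b (l 17162392) (l 17022512))))) (c (b (l 17843344) (a (l 17641112) (l 17792736))) (b (l 17422144) (a (l 17152984) (l 17407168))))) (a (a (b (c (a (b (c (l 17198664) (l 16998552)) (c (l 17059536) (l 16819680))) (b (l 17188920) (l 16857056))) (a (b (l 16653768) (a (l 16620256) (l 16611816))) (b (l 16774744) (l 16591848)))) (a (b (c (a (c (l 16863248) (l 16623832)) (l 16729648)) (a (l 16635808) (l 16627232))) (c (a (c (l 16648024) (l 16653360)) (c (l 16701352) (l 16644952))) (a (l 16651928) (l 16643224)))) (c (b (c (l 16993712) (l 16744184)) (c (l 16786224) (l 16632368))) (b (l 16614368) (l 16630184))))) (b (c (b (l 17241736) (c (l 17308696) (l 17077216))) (b (l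 16795640) (a (l 16680880) (l 16773712)))) (c (b (a (l 16786504) (l 16978472)) (a (c (l 16904960) (l 16619464)) (l 16714720))) (b (a (l 16597344) (l 16564360)) (a (l 16612904) (l 16595688)))))) (b (c (a (b (l 17504672) (l 17388512)) (l 17628472)) (a (b (l 17072832) (l 16894776)) (b (l 17242936) (l 17104192)))) (c (a (b (c (l 17374296) (l 17114856)) (c (l 17208368) (l 16876616))) (b (l 17453296) (c (l 17442192) (l 17155240)))) (a (b (l 16701432) (c (l 16626776) (l 16569120))) (b (l 16912640) (l 16700240))))))), by decide +kernel⟩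

def k2_pm_012 : ∃ t, chk3 f_pm_012 t 9 6 1 = true :=
  ⟨(a (a (b (c (l 17988408) (l 17628672)) (c (b (l 17796592) (b (l 17649424) (l 17520168))) (b (l 17349088) (b (l 17137736) (l 16954280))))) (b (c (a (l 18080696) (l 18139216)) (a (l 17723000) (l 17783728))) (c (b (a (l 17913816) (l 17988064)) (a (l 17733352) (l 17824688))) (b (a (l 17471448) (l 17549968)) (a (a (l 17180880) (l 17231152)) (b (l 17375368) (l 17225168))))))) (b (a (c (l 18213520) (a (l 17840296) (l 17895368))) (c (l 18313536) (l 17971408))) (a (c (b (l 18087192) (l 17949456)) (b (a (l 17624416) (l 17696464)) (a (l 17398280) (l 17488688)))) (c (l 18166528) (b (l 17797520) (l 17616088)))))), by decide +kernel⟩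

def k3_pm_012 : ∃ t, chk3 f_pm_012 t 16 14 1 = true :=
  ⟨(a (b (a (b (c (a (c (l 16669592) (l 16669064)) (c (l 16661248) (l 16660528))) (a (l 16668200) (l 16659392))) (a (a (c (a (l 16688320) (l 16686176)) (l 16686808)) (c (l 16682952) (l 16682344))) (c (c (l 16676720) (l 16676320)) (l 16675648)))) (b (c (c (l 16648768) (l 16647760)) (l 16646184)) (c (a (l 16660136) (l 16659496)) (a (l 16666752) (l 16657880))))) (a (b (a (c (b (c (l 16697256) (l 16697224)) (c (l 16705200) (l 16705296))) (a (l 16703408) (l 16698936))) (c (c (l 16692640) (l 16692496)) (l 16692200))) (b (a (c (a (l 16704600) (l 16710848)) (l 16702880)) (c (l 16694040) (l 16704528))) (a (c (b (l 16705704) (l 16710976)) (l 16708336)) (c (l 16701072) (l 16712520))))) (b (c (c (a (l 16684112) (l 16675584)) (a (l 16683800) (l 16675096))) (a (l 16683232) (l 16674272))) (c (b (c (l 16691824) (l 16691608)) (c (l 16691672) (l 16699456))) (b (l 16691168) (a (l 16703648) (l 16673848))))))) (b (a (b (c (c (l 16649496)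 (l 16630848)) (l 16628680)) (c (c (l 16647280) (l 16646240)) (l 16644584))) (c (b (c (l 16786784) (l 16593048)) (c (l 16630624) (l 16629192))) (b (l 16611256) (l 16626968)))) (b (c (a (c (b (l 16637976) (l 16666824)) (l 16662064)) (c (l 16645928) (l 16644816))) (a (c (l 16661264) (l 16660408)) (l 16643040))) (c (a (b (c (l 16674808) (l 16674232)) (c (l 16682728) (l 16682272))) (c (b (l 16636784) (l 16644752)) (l 16660808))) (a (b (l 16673256) (l 16681464)) (c (l 16659880) (l 16658888))))))), by decide +kernel⟩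

def k4_pm_012 : ∃ t, chk3 f_pm_012 t 16 15 1 = true :=
  ⟨(a (b (a (b (a (b (c (a (b (l 16718752) (l 6)) (l 16716136)) (l 16719160)) (l 6)) (b (c (c (l 16719944) (l 16720272)) (l 16720640)) (c (c (l 16717488) (l 16728376)) (l 16718368)))) (l 6)) (a (b (c (b (l 16701016) (c (l 16719320) (l 16719568))) (b (l 16711680) (l 16709320))) (l 6)) (b (c (b (l 16692472) (c (l 16710744) (l 16689848))) (b (l 16681792) (l 16710808))) (b (c (c (l 16708040) (l 16718672)) (l 16708272)) (l 6))))) (l 6)) (b (b (c (a (a (b (l 16694472) (l 16691704)) (b (l 16686056) (l 16683176))) (b (c (l 16673632) (l 16651952)) (c (l 16681264) (l 16680688)))) (a (b (l 16684240) (c (l 16687072) (l 16697224))) (b (l 16671736) (l 16679688)))) (b (a (c (a (c (l 16709888) (l 16688904)) (c (l 16680352) (l 16680176))) (a (l 16699240) (l 16679776))) (c (c (l 16678120) (l 16677680)) (a (l 16670840) (l 16661960)))) (b (a (a (l 6) (c (l 16686056) (l 16685656))) (c (c (l 16673256) (l 16672888)) (l 16682664))) (a (l 6)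 (c (c (l 16687544) (l 16676728)) (l 16686560)))))) (b (b (b (a (l 6) (a (l 6) (c (l 16676432) (l 16675496)))) (l 6)) (l 6)) (l 6)))), by decide +kernel⟩

def k5_pm_012 : ∃ t, chk3 f_pm_012 t 17 14 1 = true :=
  ⟨(b (a (b (c (a (l 16677624) (l 16752712)) (c (l 16587096) (l 16584560))) (c (a (c (l 16630200) (l 16591696)) (c (l 16791952) (l 16575456))) (a (l 16609800) (l 16571920)))) (c (b (c (l 17262672) (l 16940000)) (a (l 16681256) (l 16732136))) (b (l 16562888) (a (l 16555016) (l 16538112))))) (a (b (c (a (c (l 16629616) (l 16607120)) (c (l 16592656) (l 16590696))) (a (l 16625704) (l 16587656))) (c (a (c (l 16645152) (l 16643896)) (c (l 16628968) (l 16606320))) (a (l 16641896) (l 16624672)))) (c (c (b (a (l 16616584) (l 16802400)) (a (l 16591848) (l 16575744))) (b (l 16586992) (a (l 16589752) (l 16573208)))) (b (a (l 16570592) (l 16553544)) (a (l 16607464) (l 16569304)))))), by decide +kernel⟩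

def k6_pm_012 : ∃ t, chk3 f_pm_012 t 17 30 1 = true :=
  ⟨(a (b (c (a (b (c (l 16636136) (l 16635040)) (c (l 16643992) (l 16643000))) (c (b (l 16619808) (l 16627720)) (l 16643224))) (a (b (l 16633264) (l 16662352)) (b (l 16615936) (l 16624088)))) (c (b (a (c (l 16672360) (l 16650528)) (c (l 16635352) (l 16634048))) (a (c (l 16669136) (l 16668400)) (c (l 16642672) (l 16641496)))) (b (a (l 16670056) (l 16631960)) (a (a (l 16660960) (l 16652376)) (l 16660544))))) (b (c (a (c (l 16628344) (l 16626496)) (c (l 16612072) (l 16588832))) (a (b (l 16598632) (l 16606720)) (l 16606280))) (c (a (b (c (l 16619048) (l 16617336)) (c (l 16626616) (l 16624992))) (c (b (l 16602664) (l 16610296)) (l 16625312))) (a (b (l 16614632) (l 16622424)) (b (l 16597240) (l 16605072)))))), by decide +kernel⟩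

def k7_pm_012 : ∃ t, chk3 f_pm_012 t 17 31 1 = true :=
  ⟨(b (a (a (a (b (c (c (l 16670224) (l 16669664)) (l 16668672)) (l 6)) (c (b (c (l 16662056) (l 16661304)) (c (l 16669672) (l 16668968))) (b (l 16660016) (c (l 16668184) (l 16667320))))) (c (b (c (l 16660392) (l 16648848)) (c (b (l 16655480) (l 16659248)) (b (l 16654480) (l 16658272)))) (b (c (l 16647704) (l 16646480)) (c (l 16665776) (l 16654136))))) (c (b (c (a (l 16633912) (l 16617840)) (a (l 16632408) (l 16615896))) (a (c (l 16651600) (l 16639720)) (c (l 16625112) (l 16623280)))) (b (a (l 16650968) (l 16633800)) (a (c (l 16638248) (l 16636688)) (c (l 16621360) (l 16619360)))))) (a (a (l 6) (a (l 6) (b (c (c (l 16671336) (l 16659808)) (c (l 16658688) (l 16657480))) (l 6)))) (c (b (a (c (b (l 16646656) (l 16650408)) (b (l 16645328) (l 16649096))) (c (b (l 16630488) (l 16634120)) (l 16630552))) (b (c (a (l 16654200) (l 16637800)) (a (l 16652904) (l 16636120))) (a (l 6) (c (l 16641520) (l 16639872))))) (b (a (c (l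 16656272) (l 16644296)) (c (l 16628744) (l 16626840))) (a (b (c (l 16651528) (l 16650056)) (l 6)) (c (b (l 16634360) (l 16638128)) (b (l 16632504) (l 16636296)))))))), by decide +kernel⟩

def k8_pm_012 : ∃ t, chk3 f_pm_012 t 36 7 1 = true :=
  ⟨(b (b (c (b (c (l 17512584) (l 17198584)) (c (l 17320240) (l 16965272))) (b (l 16723704) (l 16533976))) (c (b (a (l 16647944) (l 16736856)) (c (a (l 16609280) (l 16818312)) (l 16569720))) (b (l 16549160) (a (l 16552320) (l 16535360))))) (b (c (b (c (a (l 16575152) (l 16559280)) (b (l 16560384) (l 16568144))) (c (b (l 16599528) (l 16607056)) (b (l 16575760) (l 16583384)))) (b (b (l 16576688) (l 16584632)) (b (l 16592416) (a (l 16587840) (l 16570656))))) (b (c (b (c (l 16614640) (l 16612024)) (c (a (l 16609304) (l 16593272)) (l 16619640))) (b (a (l 16595648) (l 16578424)) (c (l 16617032) (l 16614352)))) (c (b (c (b (l 16627792) (l 16631424)) (a (l 16614336) (l 16598080))) (c (b (a (l 16621896) (l 16606248)) (a (l 16625512) (l 16609760)))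 (b (l 16632640) (a (l 16623416) (l 16607184))))) (b (c (a (l 16612048) (l 16595304)) (a (l 16609672) (l 16592456))) (a (c (l 16619384) (l 16617104)) (c (l 16602704) (l 16599944)))))))), by decide +kernel⟩

def k9_pm_012 : ∃ t, chk3 f_pm_012 t 37 7 1 = true :=
  ⟨(b (b (c (a (b (l 17532384) (c (l 17521480) (l 17177360))) (b (l 17643200) (l 17478728))) (a (a (l 16718720) (l 16639456)) (b (l 17037872) (l 16759032)))) (a (c (b (c (l 17305400) (l 16913712)) (c (l 16783008) (l 16560976))) (b (l 16525432) (l 16561576))) (c (b (c (l 17454208) (l 17072776)) (c (l 17195832) (l 16757520))) (b (l 16495952) (l 16524464))))) (b (a (c (b (a (l 16556072) (l 16548232)) (c (a (l 16562288) (l 16554472)) (l 16576720))) (b (a (l 16538328) (l 16529992)) (b (l 16567648) (l 16575256)))) (c (b (c (l 16651656) (l 16525376)) (c (l 16565112) (l 16540056))) (b (l 16539712) (a (l 16537184) (l 16529584))))) (a (b (c (c (b (l 16570360) (l 16577816)) (b (l 16567032) (l 16574576))) (b (l 16582896) (a (l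 16573240) (l 16564720)))) (c (b (c (l 16606296) (l 16582144)) (c (a (l 16596192) (l 16588312)) (l 16610584))) (b (a (l 16581000) (l 16572448)) (c (l 16607408) (l 16604152))))) (b (c (c (b (l 16555056) (l 16562376)) (l 16583632)) (b (l 16545200) (l 16573744))) (c (b (c (l 16569744) (l 16566032)) (c (l 16598128) (l 16573520))) (b (c (l 16562264) (l 16558432)) (c (l 16569816) (l 16566040)))))))), by decide +kernel⟩

def k10_pm_012 : ∃ t, chk3 f_pm_012 t 19 7 1 = true :=
  ⟨(b (a (b (c (a (l 17552760) (l 17785040)) (a (b (l 17154208) (l 16938096)) (b (l 17265336) (l 17068384)))) (c (a (b (l 17282512) (c (l 17365400) (l 16941312))) (b (l 17544072) (c (l 17523056) (l 17112616)))) (a (b (l 16661320) (l 16489728)) (b (l 16817368) (l 16491720))))) (b (c (l 17890896) (a (l 17181856) (l 17395056))) (c (b (l 17605728) (a (l 17429328) (l 17613704))) (b (a (l 16964504) (l 17103072)) (a (l 16671112) (l 16838824)))))) (a (b (b (c (a (c (l 16990920) (l 16561464)) (c (l 17250032) (l 16776472)))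 (a (l 16504392) (l 16489944))) (c (a (c (l 16574480) (l 16526328)) (c (l 16744328) (l 16512568))) (a (l 16539944) (l 16504040)))) (b (c (a (c (l 16566024) (l 16561456)) (c (l 16531512) (l 16526192))) (a (b (l 16529960) (l 16537288)) (b (l 16514688) (l 16521800)))) (c (a (b (c (l 16555688) (l 16551304)) (c (l 16562800) (l 16558520))) (c (b (l 16541720) (l 16548560)) (b (l 16536632) (l 16543608)))) (a (b (l 16544640) (c (l 16554192) (l 16549808))) (b (l 16528944) (l 16557080)))))) (b (c (c (b (a (l 17430600) (l 17596864)) (a (l 17058600) (l 17310112))) (b (a (l 16974824) (l 17157904)) (l 16542496))) (b (a (l 16476136) (l 16493680)) (a (l 16489672) (l 16475832)))) (c (b (a (b (l 16512344) (l 16539800)) (c (l 16697536) (l 16499272))) (a (c (b (l 16528312) (l 16534848)) (l 16546728)) (c (l 16539456) (l 16511960)))) (b (a (l 16524264) (l 16488896)) (b (a (l 16513704) (l 16498904)) (a (l 16520632) (l 16505584)))))))), by decide +kernel⟩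

def k11_pm_012 : ∃ t, chk3 f_pm_012 t 10 6 1 = true :=
  ⟨(a (a (b (l 18236968) (c (l 18292864) (b (l 17924832) (l 17774216)))) (b (a (l 18301792) (l 18342752)) (c (a (l 18379280) (l 18433344)) (a (l 17954424) (l 18015776))))) (b (l 18426848) (c (l 18548336) (l 18151744)))), by decide +kernel⟩

def k12_pm_012 : ∃ t, chk3 f_pm_012 t 10 14 1 = true :=
  ⟨(a (a (b (c (l 18111952) (a (l 17497808) (l 17595200))) (b (c (l 17954856) (l 17065104)) (c (l 17808888) (a (l 16995576) (l 17142056))))) (c (b (a (l 18232976) (l 18307872)) (a (l 18048160) (l 18146864))) (b (a (l 17687424) (a (l 17753336) (l 17795808))) (a (l 17255232) (a (l 17469984) (b (l 17606216) (l 17437488))))))) (c (b (l 18471688) (l 18364000)) (b (l 17971192) (a (l 17661880) (l 17856216))))), by decide +kernel⟩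

def k13_pm_012 : ∃ t, chk3 f_pm_012 t 10 15 1 = true :=
  ⟨(a (a (b (c (b (c (l 17822128) (l 17406840)) (c (l 17422664) (a (l 17014288) (l 17208504)))) (b (a (l 16686648) (l 16865496)) (a (l 16462544) (l 16501808)))) (c (c (b (a (l 17028072) (l 17376072)) (b (a (l 16799424) (l 17072792)) (l 16539608))) (b (l 16524320) (a (l 16498664) (l 16485856)))) (b (a (l 16474992) (l 16461560)) (a (b (l 16484568) (l 16490976)) (l 16494648))))) (b (c (a (b (l 17824984) (l 17485136)) (a (b (l 17921128) (l 17728088)) (b (l 17982136) (l 17739088)))) (a (b (l 17031344) (l 16707632)) (a (b (l 17147856) (l 16851104)) (b (a (l 17203704) (l 17240112)) (a (l 16919544) (l 16964064)))))) (a (c (b (c (l 17576736) (l 17059496)) (c (b (l 17316928) (l 17100792)) (b (l 16735128) (l 16476256)))) (b (l 16448544) (l 16481016))) (c (b (a (c (l 17714672) (l 17214792)) (c (l 17801080) (l 17186360))) (a (c (l 17391600) (l 16808720)) (c (a (l 17475096) (l 17528928)) (a (l 16903376) (l 16964456))))) (a (b (l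 16458048) (l 16450120)) (b (a (l 16544080) (l 16599872)) (a (l 16445224) (l 16442072)))))))) (b (c (a (b (l 18124752) (l 17974136)) (l 18274440)) (a (b (l 17396360) (c (l 17360480) (l 16947256))) (b (l 17644616) (l 17452584)))) (c (a (b (c (l 18000696) (l 17537832)) (c (l 17650056) (b (l 17310200) (l 17125024)))) (b (l 18062440) (c (l 18096584) (l 17610784)))) (b (a (a (l 16734248) (l 16913128)) (c (l 17419480) (l 16986296))) (a (b (l 16531400) (l 16431968)) (b (l 16861040) (l 16629832))))))), by decide +kernel⟩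

def k14_pm_012 : ∃ t, chk3 f_pm_012 t 11 3 1 = true :=
  ⟨(b (a (b (l 18539720) (l 18518264)) (b (l 18625680) (l 18646792))) (b (a (c (l 18666000) (b (l 18230872) (l 18103784))) (c (l 18844952) (l 18403536))) (a (b (c (l 18544288) (a (l 17789328) (l 17992144))) (c (a (b (l 18307136) (l 18154696)) (l 18462584)) (a (b (l 17512864) (c (l 17483112) (l 17030408))) (b (l 17776400) (l 17535488))))) (c (b (l 18815632) (l 18733192)) (b (l 18245016) (a (b (l 18001328) (l 17847272)) (l 18136424))))))), by decide +kernel⟩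

def k15_pm_012 : ∃ t, chk3 f_pm_012 t 3 1 1 = true :=
  ⟨(b (a (b (l 2) (a (l 18667768) (l 2))) (l 2)) (b (a (a (b (l 18733808) (l 18793320)) (l 18860976)) (b (l 2) (l 18954424))) (a (b (a (c (l 19033960) (l 18652200)) (l 19010072)) (a (c (b (l 19088432) (l 19098648)) (b (l 18609096) (l 18403264))) (l 19110304))) (b (l 19089616) (a (l 19227488) (l 19250992)))))), by decide +kernel⟩

theorem s16_pm_012 : ∃ t, chk3 f_pm_012 t 10 7 1 = true := ex3_b k12_pm_012 k13_pm_012

theorem s17_pm_012 : ∃ t, chk3 f_pm_012 t 10 3 1 = true := ex3_b k11_pm_012 s16_pm_012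

theorem s18_pm_012 : ∃ t, chk3 f_pm_012 t 5 3 1 = true := ex3_a s17_pm_012 k14_pm_012

theorem s19_pm_012 : ∃ t, chk3 f_pm_012 t 18 7 1 = true := ex3_a k8_pm_012 k9_pm_012

theorem s20_pm_012 : ∃ t, chk3 f_pm_012 t 9 7 1 = true := ex3_a s19_pm_012 k10_pm_012

theorem s21_pm_012 : ∃ t, chk3 f_pm_012 t 17 15 1 = true := ex3_b k6_pm_012 k7_pm_012

theorem s22_pm_012 : ∃ t, chk3 f_pm_012 t 17 7 1 = true := ex3_b k5_pm_012 s21_pm_012

theorem s23_pm_012 : ∃ t, chk3 f_pm_012 t 16 7 1 = true := ex3_b k3_pm_012 k4_pm_012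

theorem s24_pm_012 : ∃ t, chk3 f_pm_012 t 8 7 1 = true := ex3_a s23_pm_012 s22_pm_012

theorem s25_pm_012 : ∃ t, chk3 f_pm_012 t 4 7 1 = true := ex3_a s24_pm_012 s20_pm_012

theorem s26_pm_012 : ∃ t, chk3 f_pm_012 t 4 6 1 = true := ex3_a k1_pm_012 k2_pm_012

theorem s27_pm_012 : ∃ t, chk3 f_pm_012 t 4 3 1 = true := ex3_b s26_pm_012 s25_pm_012

theorem s28_pm_012 : ∃ t, chk3 f_pm_012 t 2 3 1 = true := ex3_a s27_pm_012 s18_pm_012

theorem s29_pm_012 : ∃ t, chk3 f_pm_012 t 2 1 1 = true := ex3_b k0_pm_012 s28_pm_012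

theorem s30_pm_012 : ∃ t, chk3 f_pm_012 t 1 1 1 = true := ex3_a s29_pm_012 k15_pm_012

theorem c_pm_012 : CertN 0 536870912 536870912 536870912 134217728 67108864 3 true true false .pnp 0 1 2
    ndN0q0 ndN4q1 pcN2 cut_pm_012 Ext.none :=
  certN2 (fam := true) (s1 := true) (s2 := false) (a := 0) (b := 1) (c := 2) (cn := .pnp) (n1 := ndN0q0) (n2 := ndN4q1) (pc := pcN2) (cut := cut_pm_012) (xt := Ext.none) (P1 := 0) (W1 := 536870912) (P2 := 536870912) (W2 := 536870912) (P3 := 134217728) (W3 := 67108864) (N0 := 3)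
    rfl (fun _ => rfl) s30_pm_012

noncomputable def f_pm_022 : ℕ → ℕ → ℕ → ℕ → Bool := onCell 0 536870912 1073741824 536870912 134217728 67108864
    (rowN 3 1 true true false .pp 0 2 2 (qsf 0 536870912 1073741824 536870912 2) ndN0q0 ndN4q2 pcN2 Cut.none Ext.none)

def k0_pm_022 : ∃ t, chk3 f_pm_022 t 1 1 1 = true :=
  ⟨(b (b (a (l 3) (l 1)) (a (b (b (b (a (l 3) (l 3)) (b (a (l 3) (a (a (c (a (l 16595760) (l 16612400)) (l 16509624)) (l 1)) (l 1))) (a (c (b (a (a (l 3) (l 16747784)) (a (l 16732656) (l 16736632))) (a (b (a (l 25937293623) (l 16817128)) (l 16664864)) (b (a (l 16803368) (l 16808184)) (l 16848792)))) (b (a (l 16544272) (l 16501992)) (a (b (a (l 16508656) (l 16489136)) (l 16516840)) (b (l 16518576) (l 16472824))))) (a (b (a (c (l 16761056) (l 16484648)) (l 1)) (b (a (c (l 16832928) (l 16501488)) (l 1)) (c (a (l 16878464) (l 16920288)) (l 16504800)))) (l 1))))) (a (a (c (a (l 17050768) (l 17196280)) (b (l 16518512) (l 16595552))) (c (a (l 17186480) (l 17192576))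 (l 16481912))) (a (c (a (l 17110792) (b (l 16960416) (l 17386144))) (a (l 16468952) (l 16485144))) (a (c (l 115998220711) (l 16518384)) (l 1))))) (a (c (a (b (l 17665040) (l 17981920)) (b (l 17649096) (l 17962664))) (a (a (l 17116440) (l 17227520)) (b (l 16957776) (l 17408208)))) (a (c (b (l 17684920) (l 17986512)) (b (a (l 17020128) (l 17049824)) (l 17433344))) (c (b (a (l 17746008) (l 17795024)) (l 18055720)) (b (a (l 87006767367) (l 112239807703)) (a (l 17481496) (l 17526248))))))) (a (a (a (b (l 1) (b (l 1) (l 192234998103))) (l 1)) (l 1)) (l 1)))) (a (a (b (a (c (l 18437280) (l 18025952)) (c (l 18401616) (l 17999424))) (l 18537904)) (b (c (a (l 18396928) (l 18425128)) (b (a (l 17826272) (l 17871664)) (l 18136608))) (l 18468616))) (a (b (b (a (c (l 18392704) (b (l 17861000) (l 18033696))) (l 249681462903)) (a (l 18369504) (l 18440168))) (l 18468688)) (b (b (l 1) (l 270083713687)) (b (l 18574896) (l 18526400)))))), by decide +kernel⟩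

theorem c_pm_022 : CertN 0 536870912 1073741824 536870912 134217728 67108864 3 true true false .pp 0 2 2
    ndN0q0 ndN4q2 pcN2 Cut.none Ext.none :=
  certN1 (fam := true) (s1 := true) (s2 := false) (a := 0) (b := 2) (c := 2) (cn := .pp) (n1 := ndN0q0) (n2 := ndN4q2) (pc := pcN2) (cut := Cut.none) (xt := Ext.none) (P1 := 0) (W1 := 536870912) (P2 := 1073741824) (W2 := 536870912) (P3 := 134217728) (W3 := 67108864) (N0 := 3)
    rfl (fun _ => rfl) k0_pm_022

noncomputable def f_pm_023 : ℕ → ℕ → ℕ → ℕ → Bool := onCell 0 536870912 1073741824 536870912 134217728 67108864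
    (rowN 3 0 true true false .up 0 2 3 (qsf 0 536870912 1073741824 536870912 3) ndN0q0 ndN4q2 pcN3 Cut.none Ext.none)

def k0_pm_023 : ∃ t, chk3 f_pm_023 t 1 1 1 = true :=
  ⟨(a (b (a (l 1) (l 245923305495)) (a (l 282431641159) (l 257198624727))) (b (a (l 249682394039) (b (l 18443488) (l 18284928))) (a (l 18285856) (b (l 18094056) (b (l 17939744) (a (l 17917936) (b (l 17774824) (a (l 17762712) (a (l 17698504) (b (l 17670592) (l 17642768))))))))))), by decide +kernel⟩

theorem c_pm_023 : CertN 0 536870912 1073741824 536870912 134217728 67108864 3 true true false .up 0 2 3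
    ndN0q0 ndN4q2 pcN3 Cut.none Ext.none :=
  certN0 (fam := true) (s1 := true) (s2 := false) (a := 0) (b := 2) (c := 3) (cn := .up) (n1 := ndN0q0) (n2 := ndN4q2) (pc := pcN3) (cut := Cut.none) (xt := Ext.none) (P1 := 0) (W1 := 536870912) (P2 := 1073741824) (W2 := 536870912) (P3 := 134217728) (W3 := 67108864) (N0 := 3)
    rfl k0_pm_023

noncomputable def f_pm_033 : ℕ → ℕ → ℕ → ℕ → Bool := onCell 1610612736 536870912 0 1230186008 134217728 67108864
    (rowN 3 2 true true false .pnn 0 3 3 (qsf 0 536870912 0 1230186008 3) ndN0q0 ndN4q3 pcN3 Cut.none Ext.none)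

def k0_pm_033 : ∃ t, chk3 f_pm_033 t 1 1 1 = true :=
  ⟨(a (b (l 1) (b (a (l 1) (l 18160216)) (b (a (l 1) (l 17934008)) (a (b (l 18141664) (l 18067368)) (l 17808224))))) (b (a (l 1) (a (l 18000968) (l 4))) (a (b (a (l 17887952) (l 17778784)) (b (l 17655960) (l 17488840))) (b (a (l 17654440) (a (l 17578904) (l 4))) (a (b (l 17438816) (l 17226504)) (a (b (l 17328136) (l 17093560)) (b (l 17439152) (a (l 17023944) (l 16982304))))))))), by decide +kernel⟩

theorem c_pm_033 : CertN 0 536870912 0 1230186008 134217728 67108864 3 true true false .pnn 0 3 3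
    ndN0q0 ndN4q3 pcN3 Cut.none Ext.none :=
  certN2 (fam := true) (s1 := true) (s2 := false) (a := 0) (b := 3) (c := 3) (cn := .pnn) (n1 := ndN0q0) (n2 := ndN4q3) (pc := pcN3) (cut := Cut.none) (xt := Ext.none) (P1 := 0) (W1 := 536870912) (P2 := 0) (W2 := 1230186008) (P3 := 134217728) (W3 := 67108864) (N0 := 3)
    rfl (fun _ => rfl) k0_pm_033

noncomputable def f_pm_101 : ℕ → ℕ → ℕ → ℕ → Bool := onCell 536870912 536870912 536870912 536870912 134217728 67108864
    (rowN 3 1 true true false .npn 1 0 1 (qsf 536870912 536870912 0 536870912 1) ndN0q1 ndN4q0 pcN1 Cut.none Ext.none)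

def k0_pm_101 : ∃ t, chk3 f_pm_101 t 1 1 1 = true :=
  ⟨(a (b (b (a (l 3) (a (b (l 1) (l 3)) (l 1))) (l 3)) (b (a (b (l 3) (a (l 189147361911) (l 150492573751))) (b (a (l 3) (l 162840697335)) (a (l 17526656) (l 17415336)))) (a (a (b (l 17265480) (l 17328232)) (l 17586808)) (a (l 17642608) (l 17525376))))) (b (a (b (l 1) (a (b (l 1) (l 3)) (l 1))) (l 1)) (b (a (b (a (l 147271551079) (l 360275360215)) (a (l 17513264) (l 17601584))) (a (b (l 1) (l 17659944)) (l 1))) (a (b (l 17635848) (l 17689376)) (b (l 17748936) (l 17799696)))))), by decide +kernel⟩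

theorem c_pm_101 : CertN 536870912 536870912 0 536870912 134217728 67108864 3 true true false .npn 1 0 1
    ndN0q1 ndN4q0 pcN1 Cut.none Ext.none :=
  certN1 (fam := true) (s1 := true) (s2 := false) (a := 1) (b := 0) (c := 1) (cn := .npn) (n1 := ndN0q1) (n2 := ndN4q0) (pc := pcN1) (cut := Cut.none) (xt := Ext.none) (P1 := 536870912) (W1 := 536870912) (P2 := 0) (W2 := 536870912) (P3 := 134217728) (W3 := 67108864) (N0 := 3)
    rfl (fun _ => rfl) k0_pm_101

noncomputable def f_pm_102 : ℕ → ℕ → ℕ → ℕ → Bool := onCell 536870912 536870912 1073741824 536870912 134217728 67108864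
    (rowN 3 1 true true false .npp 1 0 2 (qsf 536870912 536870912 0 536870912 2) ndN0q1 ndN4q0 pcN2 Cut.none Ext.none)

def k0_pm_102 : ∃ t, chk3 f_pm_102 t 1 1 1 = true :=
  ⟨(a (b (a (b (b (l 17470872) (b (b (l 17509640) (l 17507208)) (b (l 17504936) (l 17504792)))) (b (b (b (l 17500344) (l 2)) (l 2)) (l 2))) (b (b (l 17649152) (b (b (l 17652104) (l 17636376)) (b (l 17620696) (l 17606848)))) (b (b (b (l 17589288) (l 17573864)) (l 17530320)) (l 17450992)))) (a (l 2) (l 17262872))) (b (a (b (b (l 17897824) (b (b (l 17877192) (l 17855456)) (b (l 17833808) (l 17813504)))) (b (b (b (l 17790424) (l 17768848)) (l 17722120)) (l 17635400))) (b (b (l 18116144) (b (b (l 18085768) (l 18062768)) (l 18021440))) (b (b (l 18200872) (l 17940000)) (l 17867384)))) (b (a (l 17491728) (l 17698480)) (a (l 17281928) (l 17429712))))), by decide +kernel⟩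

theorem c_pm_102 : CertN 536870912 536870912 0 536870912 134217728 67108864 3 true true false .npp 1 0 2
    ndN0q1 ndN4q0 pcN2 Cut.none Ext.none :=
  certN1 (fam := true) (s1 := true) (s2 := false) (a := 1) (b := 0) (c := 2) (cn := .npp) (n1 := ndN0q1) (n2 := ndN4q0) (pc := pcN2) (cut := Cut.none) (xt := Ext.none) (P1 := 536870912) (W1 := 536870912) (P2 := 0) (W2 := 536870912) (P3 := 134217728) (W3 := 67108864) (N0 := 3)
    rfl (fun _ => rfl) k0_pm_102

noncomputable def f_pm_112 : ℕ → ℕ → ℕ → ℕ → Bool := onCell 536870912 536870912 1073741824 536870912 134217728 67108864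
    (rowN 3 1 true true false .dn 1 1 2 (qsf 536870912 536870912 536870912 536870912 2) ndN0q1 ndN4q1 pcN2 Cut.none Ext.none)

def k0_pm_112 : ∃ t, chk3 f_pm_112 t 1 1 1 = true :=
  ⟨(a (b (a (b (b (a (l 18153976) (l 18244232)) (b (b (l 18316064) (b (l 18345696) (l 18365072))) (b (l 18374824) (l 18407080)))) (b (b (b (l 18435856) (l 18677192)) (l 18493520)) (b (l 18536456) (l 18585008)))) (b (a (b (l 1) (b (l 1) (l 202437722999))) (l 1)) (b (b (b (l 18528208) (l 18543752)) (l 18548544)) (l 18567944)))) (a (b (l 18747480) (l 19012752)) (l 18719136))) (b (a (b (l 1) (b (l 1) (l 18621392))) (l 1)) (b (a (l 18632280) (l 18627096)) (a (l 18649824) (l 18524680))))), by decide +kernel⟩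

theorem c_pm_112 : CertN 536870912 536870912 536870912 536870912 134217728 67108864 3 true true false .dn 1 1 2
    ndN0q1 ndN4q1 pcN2 Cut.none Ext.none :=
  certN1 (fam := true) (s1 := true) (s2 := false) (a := 1) (b := 1) (c := 2) (cn := .dn) (n1 := ndN0q1) (n2 := ndN4q1) (pc := pcN2) (cut := Cut.none) (xt := Ext.none) (P1 := 536870912) (W1 := 536870912) (P2 := 536870912) (W2 := 536870912) (P3 := 134217728) (W3 := 67108864) (N0 := 3)
    rfl (fun _ => rfl) k0_pm_112

noncomputable def f_pm_113 : ℕ → ℕ → ℕ → ℕ → Bool := onCell 536870912 536870912 1610612736 536870912 134217728 67108864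
    (rowN 3 1 true true false .nn 1 1 3 (qsf 536870912 536870912 536870912 536870912 3) ndN0q1 ndN4q1 pcN3 Cut.none Ext.none)

def k0_pm_113 : ∃ t, chk3 f_pm_113 t 1 1 1 = true :=
  ⟨(b (a (b (a (l 18896568) (l 18402312)) (a (a (l 2) (l 19056456)) (b (l 18563968) (l 18689584)))) (b (a (l 18111560) (b (l 18093792) (l 18145872))) (a (l 18290784) (l 17975384)))) (b (a (a (l 2) (b (l 18834688) (l 2))) (a (l 18362248) (l 4))) (a (l 2) (l 4)))), by decide +kernel⟩

theorem c_pm_113 : CertN 536870912 536870912 536870912 536870912 134217728 67108864 3 true true false .nn 1 1 3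
    ndN0q1 ndN4q1 pcN3 Cut.none Ext.none :=
  certN1 (fam := true) (s1 := true) (s2 := false) (a := 1) (b := 1) (c := 3) (cn := .nn) (n1 := ndN0q1) (n2 := ndN4q1) (pc := pcN3) (cut := Cut.none) (xt := Ext.none) (P1 := 536870912) (W1 := 536870912) (P2 := 536870912) (W2 := 536870912) (P3 := 134217728) (W3 := 67108864) (N0 := 3)
    rfl (fun _ => rfl) k0_pm_113

noncomputable def f_pm_123 : ℕ → ℕ → ℕ → ℕ → Bool := onCell 536870912 536870912 1610612736 536870912 134217728 67108864
    (rowN 3 1 true true false .npn 1 2 3 (qsf 536870912 536870912 1073741824 536870912 3) ndN0q1 ndN4q2 pcN3 Cut.none Ext.none)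

def k0_pm_123 : ∃ t, chk3 f_pm_123 t 1 1 1 = true :=
  ⟨(b (a (a (a (l 18248512) (l 18211304)) (b (l 194921141303) (l 18020672))) (b (l 1) (a (l 17904432) (l 1)))) (b (a (a (l 17889760) (l 17784000)) (a (b (l 17725552) (l 17616536)) (b (l 1) (l 17752104)))) (a (b (a (l 17720224) (l 17605144)) (b (a (l 17637136) (l 17521616)) (a (b (l 17595448) (l 17567896)) (b (l 17482920) (l 17475328))))) (b (a (l 17499960) (l 17504800)) (b (a (l 17424992) (l 17444976)) (a (b (l 17400568) (l 4)) (l 4))))))), by decide +kernel⟩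

theorem c_pm_123 : CertN 536870912 536870912 1073741824 536870912 134217728 67108864 3 true true false .npn 1 2 3
    ndN0q1 ndN4q2 pcN3 Cut.none Ext.none :=
  certN1 (fam := true) (s1 := true) (s2 := false) (a := 1) (b := 2) (c := 3) (cn := .npn) (n1 := ndN0q1) (n2 := ndN4q2) (pc := pcN3) (cut := Cut.none) (xt := Ext.none) (P1 := 536870912) (W1 := 536870912) (P2 := 1073741824) (W2 := 536870912) (P3 := 134217728) (W3 := 67108864) (N0 := 3)
    rfl (fun _ => rfl) k0_pm_123

noncomputable def f_pm_133 : ℕ → ℕ → ℕ → ℕ → Bool := onCell 536870912 536870912 0 1230186008 134217728 67108864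
    (rowN 3 0 true true false .dn 1 3 3 (qsf 536870912 536870912 0 1230186008 3) ndN0q1 ndN4q3 pcN3 Cut.none Ext.none)

def k0_pm_133 : ∃ t, chk3 f_pm_133 t 1 1 1 = true :=
  ⟨(b (l 2) (b (l 2) (a (b (l 2) (a (b (l 2) (a (l 16900776) (l 2))) (l 2))) (l 2)))), by decide +kernel⟩

theorem c_pm_133 : CertN 536870912 536870912 0 1230186008 134217728 67108864 3 true true false .dn 1 3 3
    ndN0q1 ndN4q3 pcN3 Cut.none Ext.none :=
  certN0 (fam := true) (s1 := true) (s2 := false) (a := 1) (b := 3) (c := 3) (cn := .dn) (n1 := ndN0q1) (n2 := ndN4q3) (pc := pcN3) (cut := Cut.none) (xt := Ext.none) (P1 := 536870912) (W1 := 536870912) (P2 := 0) (W2 := 1230186008) (P3 := 134217728) (W3 := 67108864) (N0 := 3)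
    rfl k0_pm_133

noncomputable def f_pm_202 : ℕ → ℕ → ℕ → ℕ → Bool := onCell 0 536870912 1073741824 536870912 134217728 67108864
    (rowN 3 1 true true false .pp 2 0 2 (qsf 0 536870912 0 536870912 2) ndN0q2 ndN4q0 pcN2 Cut.none Ext.none)

def k0_pm_202 : ∃ t, chk3 f_pm_202 t 1 1 1 = true :=
  ⟨(a (b (b (b (l 1) (a (l 1) (l 17995600))) (b (l 18139728) (l 18069560))) (b (b (l 17883176) (l 17664392)) (l 4))) (b (a (b (b (l 1) (b (b (l 17981840) (l 18136344)) (l 18166784))) (l 18223840)) (b (b (l 18148592) (b (b (l 18246640) (l 18283560)) (l 18202640))) (b (b (l 18141424) (l 18085616)) (l 18005992)))) (b (a (l 17855360) (l 17826560)) (b (l 17596728) (l 17401912))))), by decide +kernel⟩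

theorem c_pm_202 : CertN 0 536870912 0 536870912 134217728 67108864 3 true true false .pp 2 0 2
    ndN0q2 ndN4q0 pcN2 Cut.none Ext.none :=
  certN1 (fam := true) (s1 := true) (s2 := false) (a := 2) (b := 0) (c := 2) (cn := .pp) (n1 := ndN0q2) (n2 := ndN4q0) (pc := pcN2) (cut := Cut.none) (xt := Ext.none) (P1 := 0) (W1 := 536870912) (P2 := 0) (W2 := 536870912) (P3 := 134217728) (W3 := 67108864) (N0 := 3)
    rfl (fun _ => rfl) k0_pm_202

noncomputable def f_pm_203 : ℕ → ℕ → ℕ → ℕ → Bool := onCell 0 536870912 1610612736 536870912 134217728 67108864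
    (rowN 3 1 true true false .up 2 0 3 (qsf 0 536870912 0 536870912 3) ndN0q2 ndN4q0 pcN3 Cut.none Ext.none)

def k0_pm_203 : ∃ t, chk3 f_pm_203 t 1 1 1 = true :=
  ⟨(b (b (a (l 4) (b (l 17414848) (l 17443016))) (l 4)) (l 2)), by decide +kernel⟩

theorem c_pm_203 : CertN 0 536870912 0 536870912 134217728 67108864 3 true true false .up 2 0 3
    ndN0q2 ndN4q0 pcN3 Cut.none Ext.none :=
  certN1 (fam := true) (s1 := true) (s2 := false) (a := 2) (b := 0) (c := 3) (cn := .up) (n1 := ndN0q2) (n2 := ndN4q0) (pc := pcN3) (cut := Cut.none) (xt := Ext.none) (P1 := 0) (W1 := 536870912) (P2 := 0) (W2 := 536870912) (P3 := 134217728) (W3 := 67108864) (N0 := 3)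
    rfl (fun _ => rfl) k0_pm_203

noncomputable def f_pm_213 : ℕ → ℕ → ℕ → ℕ → Bool := onCell 0 536870912 1610612736 536870912 134217728 67108864
    (rowN 3 1 true true false .pnn 2 1 3 (qsf 0 536870912 536870912 536870912 3) ndN0q2 ndN4q1 pcN3 Cut.none Ext.none)

def k0_pm_213 : ∃ t, chk3 f_pm_213 t 1 1 1 = true :=
  ⟨(b (b (a (l 4) (b (l 17806832) (l 17771848))) (l 4)) (l 4)), by decide +kernel⟩

theorem c_pm_213 : CertN 0 536870912 536870912 536870912 134217728 67108864 3 true true false .pnn 2 1 3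
    ndN0q2 ndN4q1 pcN3 Cut.none Ext.none :=
  certN1 (fam := true) (s1 := true) (s2 := false) (a := 2) (b := 1) (c := 3) (cn := .pnn) (n1 := ndN0q2) (n2 := ndN4q1) (pc := pcN3) (cut := Cut.none) (xt := Ext.none) (P1 := 0) (W1 := 536870912) (P2 := 536870912) (W2 := 536870912) (P3 := 134217728) (W3 := 67108864) (N0 := 3)
    rfl (fun _ => rfl) k0_pm_213

noncomputable def f_mm_001 : ℕ → ℕ → ℕ → ℕ → Bool := onCell 0 536870912 0 536870912 134217728 67108864
    (rowN 3 0 true false false .up 0 0 1 (qsf 0 536870912 0 536870912 1) ndN0q0 ndN4q0 pcN1 Cut.none Ext.none)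

def k0_mm_001 : ∃ t, chk3 f_mm_001 t 1 1 1 = true :=
  ⟨(l 4), by decide +kernel⟩

theorem c_mm_001 : CertN 0 536870912 0 536870912 134217728 67108864 3 true false false .up 0 0 1
    ndN0q0 ndN4q0 pcN1 Cut.none Ext.none :=
  certN0 (fam := true) (s1 := false) (s2 := false) (a := 0) (b := 0) (c := 1) (cn := .up) (n1 := ndN0q0) (n2 := ndN4q0) (pc := pcN1) (cut := Cut.none) (xt := Ext.none) (P1 := 0) (W1 := 536870912) (P2 := 0) (W2 := 536870912) (P3 := 134217728) (W3 := 67108864) (N0 := 3)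
    rfl k0_mm_001

noncomputable def f_mm_011 : ℕ → ℕ → ℕ → ℕ → Bool := onCell 0 536870912 536870912 536870912 134217728 67108864
    (rowN 3 0 true false false .pnn 0 1 1 (qsf 0 536870912 536870912 536870912 1) ndN0q0 ndN4q1 pcN1 Cut.none Ext.none)

def k0_mm_011 : ∃ t, chk3 f_mm_011 t 1 1 1 = true :=
  ⟨(l 4), by decide +kernel⟩

theorem c_mm_011 : CertN 0 536870912 536870912 536870912 134217728 67108864 3 true false false .pnn 0 1 1
    ndN0q0 ndN4q1 pcN1 Cut.none Ext.none :=
  certN0 (fam := true) (s1 := false) (s2 := false) (a := 0) (b := 1) (c := 1) (cn := .pnn) (n1 := ndN0q0) (n2 := ndN4q1) (pc := pcN1) (cut := Cut.none) (xt := Ext.none) (P1 := 0) (W1 := 536870912) (P2 := 536870912) (W2 := 536870912) (P3 := 134217728) (W3 := 67108864) (N0 := 3)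
    rfl k0_mm_011

noncomputable def f_mm_012 : ℕ → ℕ → ℕ → ℕ → Bool := onCell 0 536870912 536870912 536870912 134217728 67108864
    (rowN 3 0 true false false .pnp 0 1 2 (qsf 0 536870912 536870912 536870912 2) ndN0q0 ndN4q1 pcN2 Cut.none Ext.none)

def k0_mm_012 : ∃ t, chk3 f_mm_012 t 1 1 1 = true :=
  ⟨(l 4), by decide +kernel⟩

theorem c_mm_012 : CertN 0 536870912 536870912 536870912 134217728 67108864 3 true false false .pnp 0 1 2
    ndN0q0 ndN4q1 pcN2 Cut.none Ext.none :=
  certN0 (fam := true) (s1 := false) (s2 := false) (a := 0) (b := 1) (c := 2) (cn := .pnp) (n1 := ndN0q0) (n2 := ndN4q1) (pc := pcN2) (cut := Cut.none) (xt := Ext.none) (P1 := 0) (W1 := 536870912) (P2 := 536870912) (W2 := 536870912) (P3 := 134217728) (W3 := 67108864) (N0 := 3)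
    rfl k0_mm_012

noncomputable def f_mm_022 : ℕ → ℕ → ℕ → ℕ → Bool := onCell 0 536870912 1073741824 536870912 134217728 67108864
    (rowN 3 0 true false false .pp 0 2 2 (qsf 0 536870912 1073741824 536870912 2) ndN0q0 ndN4q2 pcN2 Cut.none Ext.none)

def k0_mm_022 : ∃ t, chk3 f_mm_022 t 1 1 1 = true :=
  ⟨(l 4), by decide +kernel⟩

theorem c_mm_022 : CertN 0 536870912 1073741824 536870912 134217728 67108864 3 true false false .pp 0 2 2
    ndN0q0 ndN4q2 pcN2 Cut.none Ext.none :=
  certN0 (fam := true) (s1 := false) (s2 := false) (a := 0) (b := 2) (c := 2) (cn := .pp) (n1 := ndN0q0) (n2 := ndN4q2) (pc := pcN2) (cut := Cut.none) (xt := Ext.none) (P1 := 0) (W1 := 536870912) (P2 := 1073741824) (W2 := 536870912) (P3 := 134217728) (W3 := 67108864) (N0 := 3)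
    rfl k0_mm_022

noncomputable def f_mm_023 : ℕ → ℕ → ℕ → ℕ → Bool := onCell 0 536870912 1073741824 536870912 134217728 67108864
    (rowN 3 0 true false false .up 0 2 3 (qsf 0 536870912 1073741824 536870912 3) ndN0q0 ndN4q2 pcN3 Cut.none Ext.none)

def k0_mm_023 : ∃ t, chk3 f_mm_023 t 1 1 1 = true :=
  ⟨(l 4), by decide +kernel⟩

theorem c_mm_023 : CertN 0 536870912 1073741824 536870912 134217728 67108864 3 true false false .up 0 2 3
    ndN0q0 ndN4q2 pcN3 Cut.none Ext.none :=
  certN0 (fam := true) (s1 := false) (s2 := false) (a := 0) (b := 2) (c := 3) (cn := .up) (n1 := ndN0q0) (n2 := ndN4q2) (pc := pcN3) (cut := Cut.none) (xt := Ext.none) (P1 := 0) (W1 := 536870912) (P2 := 1073741824) (W2 := 536870912) (P3 := 134217728) (W3 := 67108864) (N0 := 3)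
    rfl k0_mm_023

noncomputable def f_mm_033 : ℕ → ℕ → ℕ → ℕ → Bool := onCell 0 536870912 0 1230186008 134217728 67108864
    (rowN 3 0 true false false .pnn 0 3 3 (qsf 0 536870912 0 1230186008 3) ndN0q0 ndN4q3 pcN3 Cut.none Ext.none)

def k0_mm_033 : ∃ t, chk3 f_mm_033 t 1 1 1 = true :=
  ⟨(l 5), by decide +kernel⟩

theorem c_mm_033 : CertN 0 536870912 0 1230186008 134217728 67108864 3 true false false .pnn 0 3 3
    ndN0q0 ndN4q3 pcN3 Cut.none Ext.none :=
  certN0 (fam := true) (s1 := false) (s2 := false) (a := 0) (b := 3) (c := 3) (cn := .pnn) (n1 := ndN0q0) (n2 := ndN4q3) (pc := pcN3) (cut := Cut.none) (xt := Ext.none) (P1 := 0) (W1 := 536870912) (P2 := 0) (W2 := 1230186008) (P3 := 134217728) (W3 := 67108864) (N0 := 3)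
    rfl k0_mm_033

noncomputable def f_mm_101 : ℕ → ℕ → ℕ → ℕ → Bool := onCell 536870912 536870912 0 536870912 134217728 67108864
    (rowN 3 0 true false false .npn 1 0 1 (qsf 536870912 536870912 0 536870912 1) ndN0q1 ndN4q0 pcN1 Cut.none Ext.none)

def k0_mm_101 : ∃ t, chk3 f_mm_101 t 1 1 1 = true :=
  ⟨(l 4), by decide +kernel⟩

theorem c_mm_101 : CertN 536870912 536870912 0 536870912 134217728 67108864 3 true false false .npn 1 0 1
    ndN0q1 ndN4q0 pcN1 Cut.none Ext.none :=
  certN0 (fam := true) (s1 := false) (s2 := false) (a := 1) (b := 0) (c := 1) (cn := .npn) (n1 := ndN0q1) (n2 := ndN4q0) (pc := pcN1) (cut := Cut.none) (xt := Ext.none) (P1 := 536870912) (W1 := 536870912) (P2 := 0) (W2 := 536870912) (P3 := 134217728) (W3 := 67108864) (N0 := 3)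
    rfl k0_mm_101

noncomputable def f_mm_102 : ℕ → ℕ → ℕ → ℕ → Bool := onCell 536870912 536870912 0 536870912 134217728 67108864
    (rowN 3 0 true false false .npp 1 0 2 (qsf 536870912 536870912 0 536870912 2) ndN0q1 ndN4q0 pcN2 Cut.none Ext.none)

def k0_mm_102 : ∃ t, chk3 f_mm_102 t 1 1 1 = true :=
  ⟨(l 4), by decide +kernel⟩

theorem c_mm_102 : CertN 536870912 536870912 0 536870912 134217728 67108864 3 true false false .npp 1 0 2
    ndN0q1 ndN4q0 pcN2 Cut.none Ext.none :=
  certN0 (fam := true) (s1 := false) (s2 := false) (a := 1) (b := 0) (c := 2) (cn := .npp) (n1 := ndN0q1) (n2 := ndN4q0) (pc := pcN2) (cut := Cut.none) (xt := Ext.none) (P1 := 536870912) (W1 := 536870912) (P2 := 0) (W2 := 536870912) (P3 := 134217728) (W3 := 67108864) (N0 := 3)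
    rfl k0_mm_102

noncomputable def f_mm_112 : ℕ → ℕ → ℕ → ℕ → Bool := onCell 536870912 536870912 536870912 536870912 134217728 67108864
    (rowN 3 0 true false false .dn 1 1 2 (qsf 536870912 536870912 536870912 536870912 2) ndN0q1 ndN4q1 pcN2 Cut.none Ext.none)

def k0_mm_112 : ∃ t, chk3 f_mm_112 t 1 1 1 = true :=
  ⟨(l 4), by decide +kernel⟩

theorem c_mm_112 : CertN 536870912 536870912 536870912 536870912 134217728 67108864 3 true false false .dn 1 1 2
    ndN0q1 ndN4q1 pcN2 Cut.none Ext.none :=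
  certN0 (fam := true) (s1 := false) (s2 := false) (a := 1) (b := 1) (c := 2) (cn := .dn) (n1 := ndN0q1) (n2 := ndN4q1) (pc := pcN2) (cut := Cut.none) (xt := Ext.none) (P1 := 536870912) (W1 := 536870912) (P2 := 536870912) (W2 := 536870912) (P3 := 134217728) (W3 := 67108864) (N0 := 3)
    rfl k0_mm_112

noncomputable def f_mm_113 : ℕ → ℕ → ℕ → ℕ → Bool := onCell 536870912 536870912 536870912 536870912 134217728 67108864
    (rowN 3 0 true false false .nn 1 1 3 (qsf 536870912 536870912 536870912 536870912 3) ndN0q1 ndN4q1 pcN3 Cut.none Ext.none)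

def k0_mm_113 : ∃ t, chk3 f_mm_113 t 1 1 1 = true :=
  ⟨(l 4), by decide +kernel⟩

theorem c_mm_113 : CertN 536870912 536870912 536870912 536870912 134217728 67108864 3 true false false .nn 1 1 3
    ndN0q1 ndN4q1 pcN3 Cut.none Ext.none :=
  certN0 (fam := true) (s1 := false) (s2 := false) (a := 1) (b := 1) (c := 3) (cn := .nn) (n1 := ndN0q1) (n2 := ndN4q1) (pc := pcN3) (cut := Cut.none) (xt := Ext.none) (P1 := 536870912) (W1 := 536870912) (P2 := 536870912) (W2 := 536870912) (P3 := 134217728) (W3 := 67108864) (N0 := 3)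
    rfl k0_mm_113

noncomputable def f_mm_123 : ℕ → ℕ → ℕ → ℕ → Bool := onCell 536870912 536870912 1073741824 536870912 134217728 67108864
    (rowN 3 0 true false false .npn 1 2 3 (qsf 536870912 536870912 1073741824 536870912 3) ndN0q1 ndN4q2 pcN3 Cut.none Ext.none)

def k0_mm_123 : ∃ t, chk3 f_mm_123 t 1 1 1 = true :=
  ⟨(l 4), by decide +kernel⟩

theorem c_mm_123 : CertN 536870912 536870912 1073741824 536870912 134217728 67108864 3 true false false .npn 1 2 3
    ndN0q1 ndN4q2 pcN3 Cut.none Ext.none :=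
  certN0 (fam := true) (s1 := false) (s2 := false) (a := 1) (b := 2) (c := 3) (cn := .npn) (n1 := ndN0q1) (n2 := ndN4q2) (pc := pcN3) (cut := Cut.none) (xt := Ext.none) (P1 := 536870912) (W1 := 536870912) (P2 := 1073741824) (W2 := 536870912) (P3 := 134217728) (W3 := 67108864) (N0 := 3)
    rfl k0_mm_123

noncomputable def f_mm_133 : ℕ → ℕ → ℕ → ℕ → Bool := onCell 536870912 536870912 0 1230186008 134217728 67108864
    (rowN 3 0 true false false .dn 1 3 3 (qsf 536870912 536870912 0 1230186008 3) ndN0q1 ndN4q3 pcN3 Cut.none Ext.none)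

def k0_mm_133 : ∃ t, chk3 f_mm_133 t 1 1 1 = true :=
  ⟨(l 4), by decide +kernel⟩

theorem c_mm_133 : CertN 536870912 536870912 0 1230186008 134217728 67108864 3 true false false .dn 1 3 3
    ndN0q1 ndN4q3 pcN3 Cut.none Ext.none :=
  certN0 (fam := true) (s1 := false) (s2 := false) (a := 1) (b := 3) (c := 3) (cn := .dn) (n1 := ndN0q1) (n2 := ndN4q3) (pc := pcN3) (cut := Cut.none) (xt := Ext.none) (P1 := 536870912) (W1 := 536870912) (P2 := 0) (W2 := 1230186008) (P3 := 134217728) (W3 := 67108864) (N0 := 3)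
    rfl k0_mm_133

noncomputable def f_mm_202 : ℕ → ℕ → ℕ → ℕ → Bool := onCell 0 536870912 0 536870912 134217728 67108864
    (rowN 3 0 true false false .pp 2 0 2 (qsf 0 536870912 0 536870912 2) ndN0q2 ndN4q0 pcN2 Cut.none Ext.none)

def k0_mm_202 : ∃ t, chk3 f_mm_202 t 1 1 1 = true :=
  ⟨(b (a (l 4) (l 4)) (l 4)), by decide +kernel⟩

theorem c_mm_202 : CertN 0 536870912 0 536870912 134217728 67108864 3 true false false .pp 2 0 2
    ndN0q2 ndN4q0 pcN2 Cut.none Ext.none :=
  certN0 (fam := true) (s1 := false) (s2 := false) (a := 2) (b := 0) (c := 2) (cn := .pp) (n1 := ndN0q2) (n2 := ndN4q0) (pc := pcN2) (cut := Cut.none) (xt := Ext.none) (P1 := 0) (W1 := 536870912) (P2 := 0) (W2 := 536870912) (P3 := 134217728) (W3 := 67108864) (N0 := 3)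
    rfl k0_mm_202

noncomputable def f_mm_203 : ℕ → ℕ → ℕ → ℕ → Bool := onCell 0 536870912 1610612736 536870912 134217728 67108864
    (rowN 3 1 true false false .up 2 0 3 (qsf 0 536870912 0 536870912 3) ndN0q2 ndN4q0 pcN3 Cut.none Ext.none)

def k0_mm_203 : ∃ t, chk3 f_mm_203 t 1 1 1 = true :=
  ⟨(l 4), by decide +kernel⟩

theorem c_mm_203 : CertN 0 536870912 0 536870912 134217728 67108864 3 true false false .up 2 0 3
    ndN0q2 ndN4q0 pcN3 Cut.none Ext.none :=
  certN1 (fam := true) (s1 := false) (s2 := false) (a := 2) (b := 0) (c := 3) (cn := .up) (n1 := ndN0q2) (n2 := ndN4q0) (pc := pcN3) (cut := Cut.none) (xt := Ext.none) (P1 := 0) (W1 := 536870912) (P2 := 0) (W2 := 536870912) (P3 := 134217728) (W3 := 67108864) (N0 := 3)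
    rfl (fun _ => rfl) k0_mm_203

noncomputable def f_mm_213 : ℕ → ℕ → ℕ → ℕ → Bool := onCell 0 536870912 536870912 536870912 134217728 67108864
    (rowN 3 0 true false false .pnn 2 1 3 (qsf 0 536870912 536870912 536870912 3) ndN0q2 ndN4q1 pcN3 Cut.none Ext.none)

def k0_mm_213 : ∃ t, chk3 f_mm_213 t 1 1 1 = true :=
  ⟨(l 4), by decide +kernel⟩

theorem c_mm_213 : CertN 0 536870912 536870912 536870912 134217728 67108864 3 true false false .pnn 2 1 3
    ndN0q2 ndN4q1 pcN3 Cut.none Ext.none :=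
  certN0 (fam := true) (s1 := false) (s2 := false) (a := 2) (b := 1) (c := 3) (cn := .pnn) (n1 := ndN0q2) (n2 := ndN4q1) (pc := pcN3) (cut := Cut.none) (xt := Ext.none) (P1 := 0) (W1 := 536870912) (P2 := 536870912) (W2 := 536870912) (P3 := 134217728) (W3 := 67108864) (N0 := 3)
    rfl k0_mm_213

end Pool.Agent.Strip051.G.I1_8_3_16.Tab.C.NA04

namespace Pool.Agent.Strip051.G.I1_8_3_16.Tab.C.NA05

open Pool.Agent.Strip051.PB Pool.Agent.Strip051.PB.T
open Pool.Agent.Strip051.G.I1_8_3_16.Tab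

noncomputable def f_pp_001 : ℕ → ℕ → ℕ → ℕ → Bool := onCell 0 536870912 0 536870912 134217728 67108864
    (rowN 3 0 true true true .up 0 0 1 (qsf 0 536870912 0 536870912 1) ndN0q0 ndN5q0 pcN1 Cut.none Ext.none)

def k0_pp_001 : ∃ t, chk3 f_pp_001 t 1 1 1 = true :=
  ⟨(l 4), by decide +kernel⟩

theorem c_pp_001 : CertN 0 536870912 0 536870912 134217728 67108864 3 true true true .up 0 0 1
    ndN0q0 ndN5q0 pcN1 Cut.none Ext.none :=
  certN0 (fam := true) (s1 := true) (s2 := true) (a := 0) (b := 0) (c := 1) (cn := .up) (n1 := ndN0q0) (n2 := ndN5q0) (pc := pcN1) (cut := Cut.none) (xt := Ext.none) (P1 := 0) (W1 := 536870912) (P2 := 0) (W2 := 536870912) (P3 := 134217728) (W3 := 67108864) (N0 := 3)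
    rfl k0_pp_001

noncomputable def f_pp_011 : ℕ → ℕ → ℕ → ℕ → Bool := onCell 0 536870912 536870912 536870912 134217728 67108864
    (rowN 3 0 true true true .pnn 0 1 1 (qsf 0 536870912 536870912 536870912 1) ndN0q0 ndN5q1 pcN1 Cut.none Ext.none)

def k0_pp_011 : ∃ t, chk3 f_pp_011 t 1 1 1 = true :=
  ⟨(l 4), by decide +kernel⟩

theorem c_pp_011 : CertN 0 536870912 536870912 536870912 134217728 67108864 3 true true true .pnn 0 1 1
    ndN0q0 ndN5q1 pcN1 Cut.none Ext.none :=
  certN0 (fam := true) (s1 := true) (s2 := true) (a := 0) (b := 1) (c := 1) (cn := .pnn) (n1 := ndN0q0) (n2 := ndN5q1) (pc := pcN1) (cut := Cut.none) (xt := Ext.none) (P1 := 0) (W1 := 536870912) (P2 := 536870912) (W2 := 536870912) (P3 := 134217728) (W3 := 67108864) (N0 := 3)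
    rfl k0_pp_011

noncomputable def f_pp_012 : ℕ → ℕ → ℕ → ℕ → Bool := onCell 0 536870912 536870912 536870912 134217728 67108864
    (rowN 3 0 true true true .pnp 0 1 2 (qsf 0 536870912 536870912 536870912 2) ndN0q0 ndN5q1 pcN2 Cut.none Ext.none)

def k0_pp_012 : ∃ t, chk3 f_pp_012 t 1 1 1 = true :=
  ⟨(l 4), by decide +kernel⟩

theorem c_pp_012 : CertN 0 536870912 536870912 536870912 134217728 67108864 3 true true true .pnp 0 1 2
    ndN0q0 ndN5q1 pcN2 Cut.none Ext.none :=
  certN0 (fam := true) (s1 := true) (s2 := true) (a := 0) (b := 1) (c := 2) (cn := .pnp) (n1 := ndN0q0) (n2 := ndN5q1) (pc := pcN2) (cut := Cut.none) (xt := Ext.none) (P1 := 0) (W1 := 536870912) (P2 := 536870912) (W2 := 536870912) (P3 := 134217728) (W3 := 67108864) (N0 := 3)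
    rfl k0_pp_012

noncomputable def f_pp_022 : ℕ → ℕ → ℕ → ℕ → Bool := onCell 0 536870912 1073741824 536870912 134217728 67108864
    (rowN 3 0 true true true .pp 0 2 2 (qsf 0 536870912 1073741824 536870912 2) ndN0q0 ndN5q2 pcN2 Cut.none Ext.none)

def k0_pp_022 : ∃ t, chk3 f_pp_022 t 1 1 1 = true :=
  ⟨(l 4), by decide +kernel⟩

theorem c_pp_022 : CertN 0 536870912 1073741824 536870912 134217728 67108864 3 true true true .pp 0 2 2
    ndN0q0 ndN5q2 pcN2 Cut.none Ext.none :=
  certN0 (fam := true) (s1 := true) (s2 := true) (a := 0) (b := 2) (c := 2) (cn := .pp) (n1 := ndN0q0) (n2 := ndN5q2) (pc := pcN2) (cut := Cut.none) (xt := Ext.none) (P1 := 0) (W1 := 536870912) (P2 := 1073741824) (W2 := 536870912) (P3 := 134217728) (W3 := 67108864) (N0 := 3)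
    rfl k0_pp_022

noncomputable def f_pp_023 : ℕ → ℕ → ℕ → ℕ → Bool := onCell 0 536870912 1073741824 536870912 134217728 67108864
    (rowN 3 0 true true true .up 0 2 3 (qsf 0 536870912 1073741824 536870912 3) ndN0q0 ndN5q2 pcN3 Cut.none Ext.none)

def k0_pp_023 : ∃ t, chk3 f_pp_023 t 1 1 1 = true :=
  ⟨(l 4), by decide +kernel⟩

theorem c_pp_023 : CertN 0 536870912 1073741824 536870912 134217728 67108864 3 true true true .up 0 2 3
    ndN0q0 ndN5q2 pcN3 Cut.none Ext.none :=
  certN0 (fam := true) (s1 := true) (s2 := true) (a := 0) (b := 2) (c := 3) (cn := .up) (n1 := ndN0q0) (n2 := ndN5q2) (pc := pcN3) (cut := Cut.none) (xt := Ext.none) (P1 := 0) (W1 := 536870912) (P2 := 1073741824) (W2 := 536870912) (P3 := 134217728) (W3 := 67108864) (N0 := 3)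
    rfl k0_pp_023

noncomputable def f_pp_033 : ℕ → ℕ → ℕ → ℕ → Bool := onCell 0 536870912 0 1230186008 134217728 67108864
    (rowN 3 0 true true true .pnn 0 3 3 (qsf 0 536870912 0 1230186008 3) ndN0q0 ndN5q3 pcN3 Cut.none Ext.none)

def k0_pp_033 : ∃ t, chk3 f_pp_033 t 1 1 1 = true :=
  ⟨(l 4), by decide +kernel⟩

theorem c_pp_033 : CertN 0 536870912 0 1230186008 134217728 67108864 3 true true true .pnn 0 3 3
    ndN0q0 ndN5q3 pcN3 Cut.none Ext.none :=
  certN0 (fam := true) (s1 := true) (s2 := true) (a := 0) (b := 3) (c := 3) (cn := .pnn) (n1 := ndN0q0) (n2 := ndN5q3) (pc := pcN3) (cut := Cut.none) (xt := Ext.none) (P1 := 0) (W1 := 536870912) (P2 := 0) (W2 := 1230186008) (P3 := 134217728) (W3 := 67108864) (N0 := 3)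
    rfl k0_pp_033

noncomputable def f_pp_101 : ℕ → ℕ → ℕ → ℕ → Bool := onCell 536870912 536870912 0 536870912 134217728 67108864
    (rowN 3 0 true true true .npn 1 0 1 (qsf 536870912 536870912 0 536870912 1) ndN0q1 ndN5q0 pcN1 Cut.none Ext.none)

def k0_pp_101 : ∃ t, chk3 f_pp_101 t 1 1 1 = true :=
  ⟨(l 4), by decide +kernel⟩

theorem c_pp_101 : CertN 536870912 536870912 0 536870912 134217728 67108864 3 true true true .npn 1 0 1
    ndN0q1 ndN5q0 pcN1 Cut.none Ext.none :=
  certN0 (fam := true) (s1 := true) (s2 := true) (a := 1) (b := 0) (c := 1) (cn := .npn) (n1 := ndN0q1) (n2 := ndN5q0) (pc := pcN1) (cut := Cut.none) (xt := Ext.none) (P1 := 536870912) (W1 := 536870912) (P2 := 0) (W2 := 536870912) (P3 := 134217728) (W3 := 67108864) (N0 := 3)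
    rfl k0_pp_101

noncomputable def f_pp_102 : ℕ → ℕ → ℕ → ℕ → Bool := onCell 536870912 536870912 0 536870912 134217728 67108864
    (rowN 3 0 true true true .npp 1 0 2 (qsf 536870912 536870912 0 536870912 2) ndN0q1 ndN5q0 pcN2 Cut.none Ext.none)

def k0_pp_102 : ∃ t, chk3 f_pp_102 t 1 1 1 = true :=
  ⟨(l 4), by decide +kernel⟩

theorem c_pp_102 : CertN 536870912 536870912 0 536870912 134217728 67108864 3 true true true .npp 1 0 2
    ndN0q1 ndN5q0 pcN2 Cut.none Ext.none :=
  certN0 (fam := true) (s1 := true) (s2 := true) (a := 1) (b := 0) (c := 2) (cn := .npp) (n1 := ndN0q1) (n2 := ndN5q0) (pc := pcN2) (cut := Cut.none) (xt := Ext.none) (P1 := 536870912) (W1 := 536870912) (P2 := 0) (W2 := 536870912) (P3 := 134217728) (W3 := 67108864) (N0 := 3)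
    rfl k0_pp_102

noncomputable def f_pp_112 : ℕ → ℕ → ℕ → ℕ → Bool := onCell 536870912 536870912 536870912 536870912 134217728 67108864
    (rowN 3 0 true true true .dn 1 1 2 (qsf 536870912 536870912 536870912 536870912 2) ndN0q1 ndN5q1 pcN2 Cut.none Ext.none)

def k0_pp_112 : ∃ t, chk3 f_pp_112 t 1 1 1 = true :=
  ⟨(l 4), by decide +kernel⟩

theorem c_pp_112 : CertN 536870912 536870912 536870912 536870912 134217728 67108864 3 true true true .dn 1 1 2
    ndN0q1 ndN5q1 pcN2 Cut.none Ext.none :=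
  certN0 (fam := true) (s1 := true) (s2 := true) (a := 1) (b := 1) (c := 2) (cn := .dn) (n1 := ndN0q1) (n2 := ndN5q1) (pc := pcN2) (cut := Cut.none) (xt := Ext.none) (P1 := 536870912) (W1 := 536870912) (P2 := 536870912) (W2 := 536870912) (P3 := 134217728) (W3 := 67108864) (N0 := 3)
    rfl k0_pp_112

noncomputable def f_pp_113 : ℕ → ℕ → ℕ → ℕ → Bool := onCell 536870912 536870912 536870912 536870912 134217728 67108864
    (rowN 3 0 true true true .nn 1 1 3 (qsf 536870912 536870912 536870912 536870912 3) ndN0q1 ndN5q1 pcN3 Cut.none Ext.none)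

def k0_pp_113 : ∃ t, chk3 f_pp_113 t 1 1 1 = true :=
  ⟨(l 4), by decide +kernel⟩

theorem c_pp_113 : CertN 536870912 536870912 536870912 536870912 134217728 67108864 3 true true true .nn 1 1 3
    ndN0q1 ndN5q1 pcN3 Cut.none Ext.none :=
  certN0 (fam := true) (s1 := true) (s2 := true) (a := 1) (b := 1) (c := 3) (cn := .nn) (n1 := ndN0q1) (n2 := ndN5q1) (pc := pcN3) (cut := Cut.none) (xt := Ext.none) (P1 := 536870912) (W1 := 536870912) (P2 := 536870912) (W2 := 536870912) (P3 := 134217728) (W3 := 67108864) (N0 := 3)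
    rfl k0_pp_113

noncomputable def f_pp_123 : ℕ → ℕ → ℕ → ℕ → Bool := onCell 536870912 536870912 1073741824 536870912 134217728 67108864
    (rowN 3 0 true true true .npn 1 2 3 (qsf 536870912 536870912 1073741824 536870912 3) ndN0q1 ndN5q2 pcN3 Cut.none Ext.none)

def k0_pp_123 : ∃ t, chk3 f_pp_123 t 1 1 1 = true :=
  ⟨(l 4), by decide +kernel⟩

theorem c_pp_123 : CertN 536870912 536870912 1073741824 536870912 134217728 67108864 3 true true true .npn 1 2 3
    ndN0q1 ndN5q2 pcN3 Cut.none Ext.none :=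
  certN0 (fam := true) (s1 := true) (s2 := true) (a := 1) (b := 2) (c := 3) (cn := .npn) (n1 := ndN0q1) (n2 := ndN5q2) (pc := pcN3) (cut := Cut.none) (xt := Ext.none) (P1 := 536870912) (W1 := 536870912) (P2 := 1073741824) (W2 := 536870912) (P3 := 134217728) (W3 := 67108864) (N0 := 3)
    rfl k0_pp_123

noncomputable def f_pp_133 : ℕ → ℕ → ℕ → ℕ → Bool := onCell 536870912 536870912 0 1230186008 134217728 67108864
    (rowN 3 0 true true true .dn 1 3 3 (qsf 536870912 536870912 0 1230186008 3) ndN0q1 ndN5q3 pcN3 Cut.none Ext.none)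

def k0_pp_133 : ∃ t, chk3 f_pp_133 t 1 1 1 = true :=
  ⟨(l 4), by decide +kernel⟩

theorem c_pp_133 : CertN 536870912 536870912 0 1230186008 134217728 67108864 3 true true true .dn 1 3 3
    ndN0q1 ndN5q3 pcN3 Cut.none Ext.none :=
  certN0 (fam := true) (s1 := true) (s2 := true) (a := 1) (b := 3) (c := 3) (cn := .dn) (n1 := ndN0q1) (n2 := ndN5q3) (pc := pcN3) (cut := Cut.none) (xt := Ext.none) (P1 := 536870912) (W1 := 536870912) (P2 := 0) (W2 := 1230186008) (P3 := 134217728) (W3 := 67108864) (N0 := 3)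
    rfl k0_pp_133

noncomputable def f_pp_202 : ℕ → ℕ → ℕ → ℕ → Bool := onCell 0 536870912 0 536870912 134217728 67108864
    (rowN 3 0 true true true .pp 2 0 2 (qsf 0 536870912 0 536870912 2) ndN0q2 ndN5q0 pcN2 Cut.none Ext.none)

def k0_pp_202 : ∃ t, chk3 f_pp_202 t 1 1 1 = true :=
  ⟨(l 4), by decide +kernel⟩

theorem c_pp_202 : CertN 0 536870912 0 536870912 134217728 67108864 3 true true true .pp 2 0 2
    ndN0q2 ndN5q0 pcN2 Cut.none Ext.none :=
  certN0 (fam := true) (s1 := true) (s2 := true) (a := 2) (b := 0) (c := 2) (cn := .pp) (n1 := ndN0q2) (n2 := ndN5q0) (pc := pcN2) (cut := Cut.none) (xt := Ext.none) (P1 := 0) (W1 := 536870912) (P2 := 0) (W2 := 536870912) (P3 := 134217728) (W3 := 67108864) (N0 := 3)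
    rfl k0_pp_202

noncomputable def f_pp_203 : ℕ → ℕ → ℕ → ℕ → Bool := onCell 0 536870912 0 536870912 134217728 67108864
    (rowN 3 0 true true true .up 2 0 3 (qsf 0 536870912 0 536870912 3) ndN0q2 ndN5q0 pcN3 Cut.none Ext.none)

def k0_pp_203 : ∃ t, chk3 f_pp_203 t 1 1 1 = true :=
  ⟨(l 4), by decide +kernel⟩

theorem c_pp_203 : CertN 0 536870912 0 536870912 134217728 67108864 3 true true true .up 2 0 3
    ndN0q2 ndN5q0 pcN3 Cut.none Ext.none :=
  certN0 (fam := true) (s1 := true) (s2 := true) (a := 2) (b := 0) (c := 3) (cn := .up) (n1 := ndN0q2) (n2 := ndN5q0) (pc := pcN3) (cut := Cut.none) (xt := Ext.none) (P1 := 0) (W1 := 536870912) (P2 := 0) (W2 := 536870912) (P3 := 134217728) (W3 := 67108864) (N0 := 3)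
    rfl k0_pp_203

noncomputable def f_pp_213 : ℕ → ℕ → ℕ → ℕ → Bool := onCell 0 536870912 536870912 536870912 134217728 67108864
    (rowN 3 0 true true true .pnn 2 1 3 (qsf 0 536870912 536870912 536870912 3) ndN0q2 ndN5q1 pcN3 Cut.none Ext.none)

def k0_pp_213 : ∃ t, chk3 f_pp_213 t 1 1 1 = true :=
  ⟨(l 4), by decide +kernel⟩

theorem c_pp_213 : CertN 0 536870912 536870912 536870912 134217728 67108864 3 true true true .pnn 2 1 3
    ndN0q2 ndN5q1 pcN3 Cut.none Ext.none :=
  certN0 (fam := true) (s1 := true) (s2 := true) (a := 2) (b := 1) (c := 3) (cn := .pnn) (n1 := ndN0q2) (n2 := ndN5q1) (pc := pcN3) (cut := Cut.none) (xt := Ext.none) (P1 := 0) (W1 := 536870912) (P2 := 536870912) (W2 := 536870912) (P3 := 134217728) (W3 := 67108864) (N0 := 3)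
    rfl k0_pp_213

noncomputable def f_pm_001 : ℕ → ℕ → ℕ → ℕ → Bool := onCell 0 536870912 536870912 536870912 134217728 67108864
    (rowN 3 1 true true false .up 0 0 1 (qsf 0 536870912 0 536870912 1) ndN0q0 ndN5q0 pcN1 Cut.none Ext.none)

def k0_pm_001 : ∃ t, chk3 f_pm_001 t 2 1 1 = true :=
  ⟨(b (l 3) (b (b (l 3) (l 2)) (l 2))), by decide +kernel⟩

def k1_pm_001 : ∃ t, chk3 f_pm_001 t 3 2 1 = true :=
  ⟨(b (l 3) (a (l 3) (b (a (l 3) (b (a (l 3) (b (l 3) (a (l 3) (b (l 3) (a (l 3) (l 355039522119)))))) (a (b (l 3) (a (l 3) (b (a (l 3) (l 358797642711)) (a (l 357723894727) (b (l 361481965447) (l 16823176)))))) (a (b (b (l 3) (a (l 3) (l 357186997751))) (c (l 277193323095) (c (l 265919031431) (l 268603388695)))) (b (b (a (l 356113260183) (l 16838720)) (l 16843120)) (l 16820320)))))) (a (b (a (l 3) (b (l 3) (a (l 3) (b (a (l 3) (l 357723874023)) (a (l 357186995575) (l 267529594247)))))) (a (b (a (l 3) (b (l 3) (a (l 3) (l 357723882647)))) (a (b (l 3) (a (l 3) (b (l 345912714007)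 (l 338933392871)))) (a (b (l 357723873335) (l 273435166823)) (c (l 262160894615) (l 260550286039))))) (b (a (b (a (l 358260762647) (b (l 345375837831) (l 364703170983))) (a (b (l 343228345927) (l 16819248)) (l 16812224))) (b (a (l 16814192) (l 16799136)) (l 16814864))) (a (b (l 16819240) (l 16825824)) (l 16815176))))) (b (a (b (a (b (a (l 3) (l 357723888183)) (a (l 357723881271) (b (l 334101537271) (l 16818160)))) (b (l 267529629799) (l 16818152))) (a (b (l 264845257959) (l 16805248)) (l 16836536))) (b (a (l 16828008) (l 16872592)) (l 16840704))) (a (b (a (l 16825288) (l 16891152)) (l 16882440)) (l 16900224))))))), by decide +kernel⟩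

def k2_pm_001 : ∃ t, chk3 f_pm_001 t 3 6 1 = true :=
  ⟨(a (b (a (b (l 3) (a (l 3) (b (l 3) (a (l 3) (b (l 3) (a (b (l 3) (l 2)) (b (l 367387540279) (l 358797607783)))))))) (b (a (l 3) (b (a (l 3) (b (l 3) (a (b (l 3) (l 356650122023)) (b (l 336249059607) (l 345912717191))))) (a (b (a (l 3) (b (l 3) (l 357186982231))) (a (b (l 358260733079) (l 382956777911)) (l 274508892535))) (b (c (l 244444136359) (l 238001688247)) (l 16806184))))) (a (b (a (b (l 3) (a (l 3) (b (l 3) (l 363092556551)))) (c (b (a (l 362555708503) (l 376514344967)) (l 273972061639)) (b (a (l 364166319127) (l 375977451239)) (b (l 306721152807) (l 189146399303))))) (a (b (a (b (l 366850660679) (a (l 359871325815) (l 275582608983))) (l 268603308247)) (a (b (l 16807296) (l 16788376)) (l 16803248))) (c (l 16823720) (l 16810248)))) (b (a (b (a (l 253034064519) (l 16802008)) (l 16821256)) (l 16831072)) (a (l 16826744) (l 16914328)))))) (a (b (a (l 2) (a (l 2) (b (b (l 184784332007) (l 2)) (l 2)))) (l 2)) (b (a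 (b (a (b (l 16824128) (l 16857184)) (l 16845176)) (a (l 16907304) (l 16952792))) (b (l 16913312) (l 17019464))) (a (b (l 16997264) (l 2)) (l 17117600))))) (b (a (b (a (a (b (b (a (b (l 338396532327) (l 353965790055)) (l 16822904)) (a (l 16809904) (l 16804152))) (l 16795192)) (b (b (l 16809192) (l 16838272)) (l 16861856))) (b (a (l 16827328) (l 16914256)) (l 16950032))) (a (b (a (l 16897784) (l 16942664)) (l 16981352)) (l 16996288))) (b (a (l 16945600) (l 17091584)) (a (l 17121288) (l 17200000)))) (a (b (a (l 17074248) (l 17157048)) (a (l 17199968) (l 17278352))) (b (l 17274440) (l 17388936))))), by decide +kernel⟩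

def k3_pm_001 : ∃ t, chk3 f_pm_001 t 3 7 1 = true :=
  ⟨(a (b (a (l 2) (b (a (l 2) (l 17250728)) (l 2))) (l 2)) (b (a (b (l 17367376) (l 17497560)) (b (l 17506448) (l 17627744))) (a (b (l 17630152) (l 2)) (l 17817872)))), by decide +kernel⟩

theorem s4_pm_001 : ∃ t, chk3 f_pm_001 t 3 3 1 = true := ex3_b k2_pm_001 k3_pm_001

theorem s5_pm_001 : ∃ t, chk3 f_pm_001 t 3 1 1 = true := ex3_b k1_pm_001 s4_pm_001

theorem s6_pm_001 : ∃ t, chk3 f_pm_001 t 1 1 1 = true := ex3_a k0_pm_001 s5_pm_001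

theorem c_pm_001 : CertN 0 536870912 0 536870912 134217728 67108864 3 true true false .up 0 0 1
    ndN0q0 ndN5q0 pcN1 Cut.none Ext.none :=
  certN1 (fam := true) (s1 := true) (s2 := false) (a := 0) (b := 0) (c := 1) (cn := .up) (n1 := ndN0q0) (n2 := ndN5q0) (pc := pcN1) (cut := Cut.none) (xt := Ext.none) (P1 := 0) (W1 := 536870912) (P2 := 0) (W2 := 536870912) (P3 := 134217728) (W3 := 67108864) (N0 := 3)
    rfl (fun _ => rfl) s6_pm_001

end Pool.Agent.Strip051.G.I1_8_3_16.Tab.C.NA05

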