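import Pool.Agent.Strip051.G.I1_8_3_16.Tab

/-! # Certificates N7 (generated) -/

set_option linter.all false
set_option maxRecDepth 100000

namespace Pool.Agent.Strip051.G.I1_8_3_16.Tab.C.NA05

open Pool.Agent.Strip051.PB Pool.Agent.Strip051.PB.T
open Pool.Agent.Strip051.G.I1_8_3_16.Tab

noncomputable def cut_pm_011 : Cut := Cut.of [[⟨0, 0, 0, 67108864⟩, ⟨1, 1, 0, 67108864⟩, ⟨2, 1, 0, 67108864⟩]]

noncomputable def f_pm_011 : ℕ → ℕ → ℕ → ℕ → Bool := onCell 0 536870912 536870912 536870912 134217728 67108864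
    (rowN 3 1 true true false .pnn 0 1 1 (qsf 0 536870912 536870912 536870912 1) ndN0q0 ndN5q1 pcN1 cut_pm_011 Ext.none)

def k0_pm_011 : ∃ t, chk3 f_pm_011 t 1 2 1 = true :=
  ⟨(a (l 3) (b (l 1) (a (l 3) (l 1)))), by decide +kernel⟩

def k1_pm_011 : ∃ t, chk3 f_pm_011 t 2 6 1 = true :=
  ⟨(a (l 3) (b (l 3) (a (l 3) (b (l 3) (a (b (l 3) (a (l 3) (b (l 3) (a (l 3) (b (l 3) (a (l 3) (b (l 396378543415) (l 389936083799)))))))) (b (a (l 3) (b (a (l 3) (b (l 3) (l 396378560775))) (a (b (l 3) (a (l 391009825447) (l 411947799911))) (b (a (l 406579096375) (l 376514312967)) (l 167134659591))))) (a (b (a (l 3) (b (a (l 3) (l 401747258759)) (a (b (l 384030495127) (l 397452280151)) (l 222969234087)))) (a (b (a (l 418390253447) (l 354502609735)) (a (l 194515069623) (l 16786760))) (c (l 16796168) (l 16793424)))) (b (a (a (b (l 372219346871) (l 16785072)) (l 16791224)) (l 16784968)) (l 16788456))))))))), by decide +kernel⟩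

def k2_pm_011 : ∃ t, chk3 f_pm_011 t 4 14 1 = true :=
  ⟨(a (l 3) (b (l 3) (a (l 3) (b (l 3) (a (l 3) (b (l 3) (a (b (l 3) (a (l 3) (b (l 3) (a (c (l 329269655223) (l 340543943863)) (b (l 330880275271) (a (l 216526764279) (l 107541967623))))))) (b (a (l 3) (b (a (l 3) (l 336785858743)) (a (c (l 278803796887) (l 284709376631)) (b (a (l 316921629815) (l 178408930023)) (l 16783568))))) (b (a (a (l 312089794791) (b (l 274508828087) (a (l 161229060087) (l 16781000)))) (c (l 16783400) (l 16784896))) (a (a (a (b (l 190756961063) (l 16780688)) (l 48486166871)) (l 16784520)) (l 16781752))))))))))), by decide +kernel⟩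

def k3_pm_011 : ∃ t, chk3 f_pm_011 t 8 30 1 = true :=
  ⟨(a (l 3) (b (l 3) (a (l 3) (b (l 3) (a (l 3) (b (l 3) (a (l 3) (b (l 3) (a (a (l 3) (b (l 3) (b (l 3) (a (c (l 278803780391) (l 289004327175)) (c (l 144586054151) (l 143512311831)))))) (c (b (b (l 321753461239) (a (l 3) (a (l 243370300071) (l 110763186615)))) (b (a (a (l 261087040231) (l 127943055879)) (l 16778920)) (l 16781136))) (b (a (l 3) (b (l 334101485191) (a (l 218674240471) (l 109152573239)))) (a (b (a (l 271824457895) (l 125795571703)) (l 16778584)) (l 16778168))))))))))))), by decide +kernel⟩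

def k4_pm_011 : ∃ t, chk3 f_pm_011 t 16 31 1 = true :=
  ⟨(b (b (l 3) (l 6)) (l 6)), by decide +kernel⟩

def k5_pm_011 : ∃ t, chk3 f_pm_011 t 34 124 1 = true :=
  ⟨(a (l 3) (b (l 3) (a (l 3) (b (l 3) (a (l 3) (c (b (l 3) (b (b (a (l 3) (l 287930587303)) (a (l 3) (a (l 282025004087) (l 98952023895)))) (b (a (l 301889233687) (c (l 69424123463) (l 16778864))) (a (a (l 301352356983) (l 118279376871)) (l 16777832))))) (b (l 3) (b (a (l 3) (a (l 304036716951) (a (l 193441305447) (l 131164279047)))) (a (a (l 317458484583) (a (l 246591525975) (l 146733535527))) (l 46875545335)))))))))), by decide +kernel⟩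

def k6_pm_011 : ∃ t, chk3 f_pm_011 t 68 125 1 = true :=
  ⟨(b (b (l 3) (l 6)) (l 6)), by decide +kernel⟩

def k7_pm_011 : ∃ t, chk3 f_pm_011 t 138 250 1 = true :=
  ⟨(b (a (l 3) (c (b (l 3) (a (a (l 3) (a (c (l 313163520807) (l 316921617047)) (b (l 3) (a (l 264845137095) (l 198273143255))))) (a (a (b (l 3) (b (l 250349621319) (l 16778136))) (b (l 3) (l 84456508855))) (a (b (l 288467457591) (l 16777936)) (b (a (l 248202138775) (l 182167015847)) (l 16777728)))))) (b (l 3) (b (b (l 3) (a (l 3) (a (l 3) (l 175724564327)))) (b (a (l 3) (a (l 184314498935) (l 16777872))) (a (a (l 3) (l 192904433559)) (l 16778976))))))) (a (a (l 6) (a (l 6) (a (l 6) (b (b (b (l 3) (l 6)) (l 6)) (l 6))))) (c (b (b (b (a (a (l 202031239367) (l 16778040)) (l 16777408)) (c (l 16778768) (l 16778680))) (l 16779392)) (l 16778120)) (b (b (b (a (a (l 201494368183) (l 16777880)) (l 16777232)) (l 16778544)) (l 16779200)) (l 16777896))))), by decide +kernel⟩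

def k8_pm_011 : ∃ t, chk3 f_pm_011 t 139 250 1 = true :=
  ⟨(b (a (c (b (b (b (a (l 3) (l 317995355863)) (a (l 3) (a (l 320679709879) (l 140291084183)))) (b (a (l 3) (a (l 149417889751) (l 16778040))) (a (a (l 3) (l 158544695399)) (l 16777832)))) (a (a (b (b (l 167134630007) (l 16778040)) (l 16777408)) (l 16780032)) (l 16779400))) (b (b (b (a (l 3) (l 323900935575)) (a (l 3) (a (l 331417127799) (l 134922374903)))) (b (a (l 3) (c (l 95193927063) (l 94120185063))) (a (a (l 3) (l 157470953271)) (l 16777648)))) (a (b (a (c (l 105394474391) (l 103783861511)) (l 16777656)) (l 16777008)) (l 16779184)))) (a (a (c (b (b (c (l 83382767335) (l 81772154423)) (l 16777416)) (l 16776144)) (b (b (l 80161542071) (l 16777208)) (l 16775912))) (c (c (l 16779248) (l 16779128)) (l 16778960))) (c (c (l 16778616) (l 16778488)) (c (l 16778368) (l 16778248))))) (a (b (c (l 16778128) (l 16777888)) (c (l 16776432) (l 16778768))) (c (c (l 16778296) (l 16778136)) (l 16775272)))), by decide +kernel⟩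

def k9_pm_011 : ∃ t, chk3 f_pm_011 t 69 251 1 = true :=
  ⟨(a (a (l 6) (b (a (l 6) (c (l 16775160) (l 16774856))) (l 6))) (c (a (b (c (l 16776616) (l 16776432)) (l 16770544)) (b (l 16772232) (l 16771512))) (c (b (l 16774080) (l 16769352)) (b (l 16773896) (l 16771728))))), by decide +kernel⟩

def k10_pm_011 : ∃ t, chk3 f_pm_011 t 70 124 1 = true :=
  ⟨(b (a (l 3) (b (l 3) (a (a (l 3) (a (l 3) (b (l 3) (b (l 3) (l 301352363191))))) (c (b (a (l 3) (a (l 3) (b (l 3) (l 270213845127)))) (b (b (a (l 3) (c (l 151028504023) (l 150491632887))) (a (l 285783101671) (l 16779984))) (a (a (a (l 202031241079) (l 140291085607)) (l 16779984)) (l 16778064)))) (b (a (l 3) (b (l 3) (l 292225555255))) (b (a (l 303499847127) (a (l 149954762247) (l 16778416))) (b (a (l 164987147799) (l 16778008)) (l 16779328)))))))) (a (b (b (l 3) (b (a (l 3) (a (l 3) (a (b (l 3) (a (l 239075334247) (l 136532989479))) (c (c (l 105931346471) (l 104857604423)) (l 103783862935))))) (a (l 3) (c (a (c (a (l 252497104423)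 (l 119889990151)) (a (l 256792071511) (l 119353119015))) (l 16778056)) (a (a (l 262160782967) (l 118279377543)) (l 16777824)))))) (a (c (a (b (b (l 3) (b (l 275045685351) (a (l 234243494919) (l 16779760)))) (c (l 25400708759) (l 16778888))) (b (b (a (l 267529492535) (a (l 162839663575) (l 101099508087))) (l 16779360)) (l 16782032))) (b (b (a (l 3) (a (l 276119426759) (a (l 161765921367) (l 98952024215)))) (a (a (l 290078070551) (a (l 177335178039) (l 115058151559))) (l 16779152))) (c (l 16779000) (l 16778888)))) (b (c (c (l 16779904) (l 16779776)) (l 16779584)) (c (l 16780768) (l 16780472))))) (b (a (c (b (b (a (l 319605969815) (a (a (l 250349620743) (l 157470954791)) (l 77477188375))) (a (a (a (l 268603231815) (l 174650823991)) (l 91972703063)) (l 16778056))) (l 16779840)) (b (b (a (l 329269645815) (a (l 178945791575) (l 16779744))) (a (a (a (l 277730036919) (l 173577081911)) (l 89288348135)) (l 16777808))) (l 16779568))) (c (c (l 16779088) (l 16778928)) (c (l 16778768) (l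 16778616)))) (a (c (l 16777312) (l 16776976)) (c (l 16778256) (l 16777856)))))), by decide +kernel⟩

def k11_pm_011 : ∃ t, chk3 f_pm_011 t 71 124 1 = true :=
  ⟨(b (a (b (a (a (l 3) (a (l 3) (b (l 3) (b (l 3) (c (l 238001592903) (l 247128395287)))))) (c (b (b (l 3) (a (l 3) (a (l 318532228039) (l 176798308999)))) (a (a (b (l 322827195415) (l 105394476727)) (b (l 192367565495) (l 16778688))) (c (l 42043708663) (l 40433095767)))) (b (a (l 3) (a (l 329269646871) (b (l 3) (l 175724566807)))) (b (a (a (l 334638354967) (l 191830694231)) (l 16779920)) (c (l 44728062935) (l 43117449911)))))) (a (c (b (b (a (c (l 270213848391) (l 275045683719)) (a (l 121500604039) (l 16778688))) (b (a (a (l 208473691815) (l 16778864)) (l 16778280)) (l 16779592))) (l 16779856)) (b (b (a (c (l 279877521687) (l 284709359671)) (c (l 84993381335) (l 83919639255))) (a (a (l 134922376583) (l 16778408)) (l 16777776))) (l 16779544))) (c (c (l 16781744) (l 16781560)) (l 16778672)))) (b (c (a (b (a (b (a (l 295446778743)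 (l 160692181623)) (l 52781127207)) (l 16779824)) (l 16782504)) (l 16779056)) (a (b (a (b (a (l 306721067351) (l 159618439255)) (l 16779912)) (l 16780800)) (l 16782144)) (l 16778648))) (c (c (l 16779264) (l 16779032)) (l 16777376)))) (a (b (c (c (l 16777912) (l 16777704)) (c (l 16778808) (l 16778608))) (c (c (l 16775888) (l 16775632)) (l 16775256))) (c (b (l 16774480) (l 16772464)) (b (l 16775240) (l 16771816))))), by decide +kernel⟩

def k12_pm_011 : ∃ t, chk3 f_pm_011 t 35 125 1 = true :=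
  ⟨(a (b (b (a (a (c (c (l 16777368) (l 16779840)) (c (l 16779688) (l 16779544))) (c (l 16775616) (l 16777872))) (c (c (l 16773232) (l 16775616)) (l 16773960))) (a (c (c (l 16774504) (l 16774288)) (c (l 16774080) (l 16772560))) (c (c (l 16772536) (l 16772248)) (l 16771832)))) (b (c (a (c (l 16772496) (l 16772232)) (l 16767768)) (a (l 16770528) (l 16768408))) (a (c (c (l 16769208) (l 16768880)) (l 16768408)) (c (l 16765784) (l 16770240))))) (a (b (b (c (l 16771112) (l 16771824)) (c (l 16769112) (l 16773648))) (c (c (l 16764416) (l 16763960)) (c (l 16763520) (l 16763088)))) (b (c (c (l 16767720) (l 16767304)) (c (l 16766896) (l 16766504))) (c (c (l 16766496) (l 16765960)) (l 16759936))))), by decide +kernel⟩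

def k13_pm_011 : ∃ t, chk3 f_pm_011 t 17 63 1 = true :=
  ⟨(b (a (a (l 6) (b (a (l 6) (a (l 6) (b (c (l 16768192) (l 16762320)) (l 6)))) (l 6))) (a (b (b (c (a (c (l 16771176) (l 16770800)) (l 16762512)) (a (l 16765000) (l 16766856))) (a (c (l 16761160) (l 16766848)) (c (l 16759264) (l 16752992)))) (b (a (c (l 16759216) (l 16752984)) (c (l 16761280) (l 16749640))) (a (l 6) (c (l 16747592) (l 16746304))))) (b (c (a (c (l 16757992) (l 16762656)) (c (l 16760128) (l 16748976))) (a (l 16756568) (l 16758488))) (c (c (a (l 16756912) (l 16743376)) (a (l 16745704) (l 16742568))) (b (l 16755160) (l 16751848)))))) (a (l 6) (b (b (c (a (c (l 16751560) (l 16756120)) (c (l 16740240) (l 16739360))) (a (l 16752488) (l 16748560))) (a (l 6) (c (l 16741928) (l 16734808)))) (a (l 6) (c (b (l 16738840) (c (l 16731096) (l 16729968))) (b (l 16731552) (l 16738800))))))), by decide +kernel⟩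

def k14_pm_011 : ∃ t, chk3 f_pm_011 t 18 60 1 = true :=
  ⟨(a (l 3) (b (l 3) (a (l 3) (b (l 3) (a (b (l 3) (a (l 3) (c (b (l 326048427319) (a (b (l 333027747127) (l 175724572167)) (c (l 103246998343) (l 102173255959)))) (b (l 337859586343) (a (c (l 248739012199) (l 252497108087)) (l 101099514055)))))) (b (b (a (l 3) (c (l 289541212071) (l 299741758439))) (b (a (l 3) (a (l 262697661399) (a (l 115058158247) (l 16780976)))) (a (l 300278629271) (c (l 16782464) (l 16780632))))) (b (a (b (a (l 321216591287) (b (l 161765928183) (l 16781720))) (c (c (l 91435837975) (l 90898966599)) (l 90898966615))) (l 16782440)) (c (l 16779408) (l 16778808))))))))), by decide +kernel⟩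

def k15_pm_011 : ∃ t, chk3 f_pm_011 t 36 122 1 = true :=
  ⟨(a (l 3) (b (l 3) (a (a (l 3) (b (l 3) (b (l 3) (c (l 317995366999) (l 322290333463))))) (b (b (l 3) (b (l 3) (a (l 3) (a (l 3) (c (l 239612205975) (l 249812752391)))))) (a (c (b (a (l 3) (l 287930594551)) (a (b (l 287930588311) (l 120963736375)) (c (l 68887257479) (l 67813515239)))) (b (a (l 3) (l 297594264839)) (a (b (l 300278618439) (l 119889993831)) (l 66739773511)))) (c (b (a (b (l 255718333415) (l 88751481511)) (l 48486163031)) (l 16779056)) (a (b (b (l 266455750759) (l 16781328)) (l 16778920)) (l 25400713351)))))))), by decide +kernel⟩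

def k16_pm_011 : ∃ t, chk3 f_pm_011 t 72 123 1 = true :=
  ⟨(b (a (l 3) (b (l 3) (a (b (l 3) (b (a (l 3) (a (l 326048427031) (b (l 321216588215) (l 154249732423)))) (c (a (l 261623917495) (l 79087803527)) (a (l 271287587975) (l 16780640))))) (c (b (b (a (l 3) (c (l 218674239271) (l 223506077079))) (a (c (l 233706624855) (l 238538462695)) (l 16779744))) (c (l 16780408) (l 16781496))) (b (b (a (l 3) (c (l 195051921479) (l 195051921287))) (a (c (l 243907171447) (l 248739009303)) (l 16779328))) (l 16780512)))))) (a (b (c (a (b (l 3) (a (l 320679719271) (b (l 314774132791) (a (l 180019535287) (l 16779480))))) (a (b (l 300815495351) (a (b (l 162302795031) (l 16779136)) (l 16781760))) (b (b (l 275582556039) (a (l 144586054903) (l 16779512))) (l 16778544)))) (a (b (l 3) (a (l 330343389815) (b (l 313700390327) (a (l 179482663751) (l 16779136))))) (a (b (l 309942300199) (b (l 118279379767) (l 16778560))) (b (b (l 286319973607) (l 105394477831)) (l 16778144))))) (c (a (b (b (a (a (l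 202031242727) (l 94120188231)) (l 16778936)) (l 16778528)) (l 16782528)) (l 16781704)) (a (b (a (a (b (l 196662532999) (l 16778768)) (l 16780088)) (l 16778152)) (l 16776880)) (l 16781248)))) (b (c (a (a (a (b (b (l 126869314823) (l 16779152)) (l 16777936)) (l 16780968)) (l 16782976)) (l 16781736)) (a (a (a (b (l 72645352119) (l 16777504)) (l 16780544)) (l 16782528)) (l 16781232))) (c (l 16777904) (l 16778656))))), by decide +kernel⟩

def k17_pm_011 : ∃ t, chk3 f_pm_011 t 73 123 1 = true :=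
  ⟨(b (a (b (a (c (b (a (l 3) (l 322290328087)) (b (a (l 3) (c (l 166597763735) (l 166597763319))) (a (c (l 180556407431) (l 181093277943)) (l 16779768)))) (b (a (l 3) (l 333564616439)) (b (a (l 3) (l 166060892487)) (a (l 180556407271) (l 16779328))))) (c (b (b (a (l 322827197783) (c (l 134922379687) (l 134385508487))) (a (a (l 202568115095) (l 16780240)) (l 16779792))) (l 16779016)) (b (b (a (l 336248969767) (l 134385508503)) (a (l 148881023255) (l 16779320))) (l 16778520)))) (c (c (a (l 16780928) (l 16776680)) (l 16780504)) (c (l 16779584) (l 16779328)))) (b (c (l 16781336) (l 16782064)) (c (l 16784552) (l 16783880)))) (a (c (c (l 16777760) (l 16777424)) (b (l 16778648) (l 16780464))) (c (c (l 16779768) (l 16779352)) (l 16773504)))), by decide +kernel⟩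

def k18_pm_011 : ∃ t, chk3 f_pm_011 t 37 61 1 = true :=
  ⟨(b (a (b (b (b (l 3) (a (l 3) (b (a (l 3) (a (l 3) (c (l 250349625415) (l 257865817095)))) (a (l 3) (c (a (l 265382011079) (l 16781256)) (a (l 273971944599) (l 16780680))))))) (a (b (l 3) (b (a (l 3) (c (l 322290329207) (l 334638359191))) (a (l 3) (a (l 329806525687) (c (l 151028509063) (l 151028508183)))))) (a (a (c (b (l 317458490823) (b (l 135459252535) (l 16780648))) (b (l 330880262583) (c (l 86603998199) (l 85530255911)))) (b (b (l 277730046871) (c (l 119353125095) (l 118816253207))) (l 16782616))) (b (c (c (l 48486164455) (l 16781840)) (l 45801809495)) (l 16784040))))) (b (a (a (a (b (l 3) (b (c (c (l 200420632855) (l 200957503287)) (l 200420632503)) (c (l 16780552) (l 16780040)))) (c (b (b (l 3) (l 185388247719)) (l 16780248)) (b (c (l 253570849799) (l 259476429367)) (l 16779696)))) (a (b (b (c (l 169282120087) (l 168745248375)) (l 16781632)) (l 16784440)) (c (l 16779512) (l 16778904)))) (c (l 16782736) (l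 16782032))) (a (c (l 16782696) (l 16782048)) (c (l 16784664) (l 16783864))))) (b (a (b (a (c (b (a (c (l 262697657431) (l 268066366007)) (b (l 192367570663) (l 16781176))) (l 16783192)) (b (a (c (l 273435074583) (l 278266912279)) (c (l 129016801655) (l 128479930199))) (l 16779960))) (c (l 16782272) (l 16779032))) (c (l 16782536) (l 16787080))) (c (l 16781200) (l 16779848))) (c (a (l 16777560) (l 16779168)) (a (l 16781968) (l 16778288))))) (b (a (c (a (c (l 16783144) (l 16782744)) (l 16774440)) (a (l 16776920) (l 16778752))) (c (c (l 16769432) (l 16774136)) (a (l 16775176) (l 16782016)))) (c (a (a (l 16771080) (l 16773112)) (c (l 16778720) (l 16778072))) (a (c (l 16771304) (l 16770784)) (l 16766632))))), by decide +kernel⟩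

def k19_pm_011 : ∃ t, chk3 f_pm_011 t 38 60 1 = true :=
  ⟨(b (a (l 3) (b (a (l 3) (b (l 3) (a (l 3) (c (l 289541216071) (l 297057408199))))) (a (b (a (l 3) (c (l 324974697639) (l 335175233735))) (b (a (l 333564630311) (a (a (l 262697666935) (l 179482670599)) (a (l 109689450599) (l 16781048)))) (a (c (a (l 251423367703) (l 113984416935)) (a (l 260550172455) (l 16783712))) (l 16780288)))) (b (b (a (l 290614956071) (c (l 107541966807) (l 105931353655))) (a (a (a (l 255718344103) (l 141364835079)) (l 16783680)) (l 16779888))) (c (l 16779632) (l 16778216)))))) (a (b (a (b (l 3) (b (a (l 3) (a (l 333564623799) (a (l 260550183255) (b (l 321753456583) (l 16781200))))) (a (a (l 3) (c (l 247665276583) (l 257865817751))) (c (c (l 81235291015) (l 80161548887)) (l 79087807175))))) (a (b (b (l 3) (a (l 319605984743) (b (l 271287601367) (l 116668772039)))) (c (c (l 16783080) (l 16782832)) (l 39359359351))) (b (b (a (l 276656311223) (b (l 255718341863) (l 16781168))) (c (l 16780856) (l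 16780432))) (l 16783552)))) (c (a (b (a (a (b (a (l 170355863447) (l 16782712)) (l 16780352)) (l 16780264)) (l 16778952)) (l 16787080)) (l 16785032)) (a (a (a (b (b (l 139754220727) (l 16779816)) (l 16777368)) (l 16783360)) (l 16781984)) (l 16784424)))) (b (c (a (c (l 16781912) (l 16782544)) (l 16781360)) (a (l 16782192) (l 16794152))) (c (a (l 16775224) (l 16780168)) (l 16778792))))), by decide +kernel⟩

def k20_pm_011 : ∃ t, chk3 f_pm_011 t 39 60 1 = true :=
  ⟨(b (a (b (a (b (a (l 3) (a (l 313163535719) (b (l 3) (l 170892736775)))) (a (c (b (l 247128408631) (l 16783832)) (b (l 255181463879) (l 16780944))) (c (l 16785584) (l 16780096)))) (b (a (b (a (l 266455763607) (l 135996126695)) (l 16783336)) (l 16782392)) (l 16782720))) (c (a (l 16783176) (l 16789512)) (l 16782088))) (c (b (l 16782336) (l 16801656)) (b (l 16783760) (l 16787504)))) (a (b (c (l 16790448) (l 16788448)) (c (l 16791056) (l 16781752))) (c (b (l 16807744) (l 16810616)) (l 16767032)))), by decide +kernel⟩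

def k21_pm_011 : ∃ t, chk3 f_pm_011 t 19 61 1 = true :=
  ⟨(a (b (c (a (b (c (l 16776856) (l 16780088)) (c (l 16785520) (l 16783968))) (b (l 16770608) (l 16778848))) (a (b (a (l 16781376) (l 16788144)) (l 16772776)) (b (l 16782568) (l 16775912)))) (c (a (b (c (l 16778032) (l 16777440)) (l 16771344)) (b (l 16770592) (l 16764320))) (a (b (l 16776560) (l 16769928)) (b (l 16769312) (l 16741800))))) (b (c (a (b (l 16787336) (l 16778560)) (b (l 16809760) (l 16804600))) (a (l 16762664) (l 16764480))) (c (a (b (l 16763936) (l 16742496)) (l 16787272)) (a (l 16758848) (l 16751696))))), by decide +kernel⟩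

def k22_pm_011 : ∃ t, chk3 f_pm_011 t 9 62 1 = true :=
  ⟨(a (a (b (a (b (c (a (b (l 16777872) (l 16775832)) (c (l 16774392) (l 16774032))) (a (b (l 16778672) (l 16775232)) (c (l 16773680) (l 16773344)))) (c (a (c (l 16771040) (l 16770656)) (c (l 16773088) (l 16772624))) (a (c (l 16770288) (l 16769920)) (l 16766704)))) (a (b (c (c (l 16776416) (l 16775984)) (l 16770096)) (c (l 16764408) (l 16768576))) (b (c (l 16767736) (l 16771960)) (c (l 16766480) (l 16765232))))) (b (c (a (a (a (l 16765088) (l 16768728)) (l 16761104)) (c (l 16756760) (l 16761272))) (a (a (l 16763312) (l 16765200)) (c (l 16760568) (l 16759872)))) (a (a (c (a (l 16763848) (l 16762272)) (l 16761840)) (c (l 16754688) (l 16758528))) (c (c (l 16755736) (l 16754872)) (l 16750984))))) (b (c (a (b (c (l 16763296) (l 16767888)) (c (l 16762192) (l 16771888))) (b (l 16759536) (l 16749952))) (a (b (c (l 16767248) (l 16766616)) (l 16760264)) (b (l 16759976) (l 16763880)))) (a (c (b (c (l 16766424) (l 16765496)) (l 16746624))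 (b (l 16753664) (l 16757624))) (c (b (l 16759464) (l 16753352)) (b (l 16757360) (l 16729952)))))) (a (c (b (a (b (l 16765048) (l 16758840)) (b (l 16737168) (l 16731072))) (a (b (l 16731768) (l 16725760)) (b (l 16725080) (l 16719176)))) (b (a (b (l 16763352) (l 16735880)) (l 16742584)) (a (l 16739360) (l 16740384)))) (b (c (a (l 16737768) (l 16741848)) (a (l 16746088) (l 16718168))) (c (a (l 16736496) (l 16729952)) (a (l 16733584) (l 16705872)))))), by decide +kernel⟩

def k23_pm_011 : ∃ t, chk3 f_pm_011 t 9 63 1 = true :=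
  ⟨(a (b (a (a (a (c (b (l 16751440) (l 16745152)) (b (l 16755192) (l 16738120))) (c (b (l 16753608) (l 16747376)) (b (l 16741432) (l 16734896)))) (c (b (c (l 16760056) (l 16738064)) (c (l 16733024) (l 16731840))) (b (l 16747064) (l 16740592)))) (c (a (b (l 16743120) (l 16737088)) (b (l 16747328) (l 16720440))) (a (b (l 16730192) (l 16723816)) (b (l 16723576) (l 16717280))))) (b (a (c (a (c (l 16743296) (l 16742160)) (c (l 16727072) (l 16725704))) (a (l 16740504) (l 16723704))) (c (a (l 16741632) (l 16714616)) (a (l 16717504) (l 16711056)))) (a (c (b (c (l 16735960) (l 16745056)) (a (l 16735160) (l 16718960))) (b (l 16732552) (a (l 16722008) (l 16715808)))) (c (a (c (l 16715752) (l 16713920)) (l 16729864)) (a (l 16711264) (l 16704912)))))) (b (a (c (a (b (l 16719848) (l 16714040)) (b (l 16713376) (l 16707680))) (a (l 16724176) (l 16727976))) (c (a (l 16725120) (l 16697840)) (a (l 16700392) (l 16693840)))) (a (c (b (l 16715672) (a (l 16702720) (l 16696584))) (b (l 16722144)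 (l 16716128))) (c (b (l 16692808) (l 16708448)) (b (l 16688208) (l 16682368)))))), by decide +kernel⟩

def k24_pm_011 : ∃ t, chk3 f_pm_011 t 10 28 1 = true :=
  ⟨(a (l 3) (b (l 3) (a (b (l 3) (a (l 3) (b (l 3) (a (b (l 3) (l 380809278087)) (b (l 346986413719) (c (l 153712868871) (l 151565387111))))))) (b (a (b (l 3) (a (l 3) (b (l 3) (l 391546703607)))) (b (a (l 3) (b (l 3) (l 370071862455))) (a (b (l 394767926743) (l 202031258183)) (c (l 16785880) (l 16787400))))) (a (b (a (b (l 3) (l 320679736887)) (b (a (l 357186959255) (l 16787472)) (l 16783056))) (c (l 62981684071) (l 16785352))) (c (l 16787344) (l 16788416))))))), by decide +kernel⟩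

def k25_pm_011 : ∃ t, chk3 f_pm_011 t 20 29 1 = true :=
  ⟨(b (a (l 3) (b (a (l 3) (b (l 3) (a (l 3) (b (l 3) (a (l 342154577847) (l 260013323143)))))) (a (b (a (l 3) (b (l 3) (a (l 3) (l 334101502279)))) (b (a (a (l 3) (l 340007084215)) (a (l 260013321063) (c (l 16783280) (l 16786392)))) (a (a (l 298668020615) (c (l 168208383431) (l 166597771639))) (l 16783784)))) (b (b (a (l 315847897287) (c (l 129553677815) (l 127943066167))) (a (a (a (l 263771419463) (l 180019545767)) (l 16786280)) (l 16787400))) (c (l 16788400) (l 16788040)))))) (a (b (a (b (l 3) (a (b (l 3) (a (l 3) (l 329806535255))) (b (a (l 3) (l 291688698871)) (b (a (l 292762439367) (l 114521291207)) (c (l 95193936775) (l 16783472)))))) (a (b (b (l 3) (a (l 3) (c (l 257865840183) (l 260013313463)))) (b (a (c (l 159618448967) (l 158007836599)) (l 16786304)) (l 16784248))) (b (b (a (l 333027760759) (c (l 218674251479) (l 222969219095))) (c (a (l 120426870455) (l 16784896)) (l 84993391159))) (l 16783584)))) (a (a (b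 (b (a (a (l 291688698295) (b (l 331417134871) (l 16783896))) (c (l 109152581255) (l 105394484999))) (c (l 16784520) (l 16779144))) (l 16780272)) (c (l 16781680) (l 16784424))) (c (b (l 16805592) (l 16820320)) (l 16779640)))) (b (c (a (b (a (l 16783976) (l 16799840)) (l 16811688)) (l 16805736)) (a (b (a (l 16784272) (l 16786904)) (l 16790320)) (l 16800176))) (c (a (l 16836184) (l 16860944)) (a (l 16796256) (l 16810984)))))), by decide +kernel⟩

def k26_pm_011 : ∃ t, chk3 f_pm_011 t 21 29 1 = true :=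
  ⟨(b (a (b (b (a (a (l 3) (b (l 379735543639) (a (l 330343413751) (l 166597773879)))) (a (b (a (l 244980930871) (l 16785648)) (l 16785480)) (l 16781112))) (a (b (a (a (l 335712124887) (l 211694932727)) (l 16786256)) (c (l 64592296071) (l 16785408))) (l 16781808))) (c (a (l 16792656) (l 16838864)) (a (l 16786992) (l 16813736)))) (c (b (l 16795040) (l 16877648)) (b (l 16795720) (l 16841000)))) (a (c (b (l 16822512) (l 16900136)) (b (a (l 16815608) (l 16833072)) (l 16837672))) (c (b (l 16916944) (l 16954312)) (b (l 16862016) (l 16878880))))), by decide +kernel⟩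

def k27_pm_011 : ∃ t, chk3 f_pm_011 t 11 14 1 = true :=
  ⟨(b (a (b (a (b (l 3) (a (b (l 3) (a (b (l 3) (l 384567362487)) (b (l 404431604695) (l 241222836567)))) (b (a (b (l 3) (l 402284118551)) (b (l 387788601415) (l 16788944))) (c (l 105394488887) (l 101099524215))))) (a (b (b (a (l 3) (l 414632155175)) (a (b (l 392083574951) (l 355576344183)) (l 168208391927))) (c (l 16791504) (l 16786168))) (b (b (a (b (l 417316502535) (l 16788832)) (l 16792584)) (l 16794784)) (l 16801400)))) (b (a (a (b (a (b (l 343228314503) (l 16790984)) (l 16786968)) (l 16778400)) (l 16792048)) (c (l 16835920) (l 16837616))) (a (a (l 16784136) (l 16848832)) (l 16862320)))) (b (a (c (b (l 16803584) (l 16866048)) (l 16784288)) (c (l 16854672) (l 16852464))) (a (c (l 16928632) (l 16893784)) (l 16957720)))) (a (c (b (a (b (l 16888912) (l 16929984)) (l 16961352)) (a (l 16989704) (l 17042760))) (b (a (b (l 16855216) (l 16880888)) (l 16909824)) (a (l 16914272) (l 16959272)))) (b (c (l 17037360) (l 16973848))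 (c (l 17119904) (l 17027464))))), by decide +kernel⟩

def k28_pm_011 : ∃ t, chk3 f_pm_011 t 5 15 1 = true :=
  ⟨(a (b (a (b (c (a (b (a (b (l 16811512) (l 16821664)) (l 16839440)) (a (l 16832272) (l 16857952))) (b (a (l 16864312) (l 16890776)) (l 16879128))) (a (b (a (l 16771752) (l 16781960)) (a (l 16772328) (l 16766416))) (b (a (l 16796392) (l 16814008)) (l 16795960)))) (a (c (b (a (l 16835688) (l 16866144)) (a (l 16823200) (l 16860720))) (b (a (l 16757144) (l 16734712)) (a (l 16723600) (l 16716512)))) (c (b (l 16914560) (l 16918216)) (b (l 16773792) (l 16734808))))) (b (a (c (b (l 16932288) (l 16959744)) (b (l 16844688) (l 16843488))) (c (l 17005216) (l 16894096))) (c (a (b (l 16981056) (l 16994400)) (l 17058304)) (a (b (l 16832000) (l 16807656)) (l 16888048))))) (b (a (c (a (b (a (l 16789600) (l 16837376)) (a (l 16727944) (l 16790400))) (b (l 16907768) (l 16878912))) (a (b (l 16718304) (l 16716808)) (b (l 16715144) (l 16682640)))) (c (a (b (l 16997424) (l 16987088)) (l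 17084168)) (a (b (l 16767176) (l 16706424)) (l 16837184)))) (a (b (c (a (a (l 16691584) (l 16712208)) (l 16826008)) (a (l 16705096) (l 16671368))) (c (a (b (l 16680640) (l 16675560)) (l 16741584)) (a (l 16693656) (l 16660368)))) (c (a (b (l 16959512) (l 16909616)) (l 17064976)) (b (l 16690040) (a (l 16648336) (l 16671880))))))) (b (a (b (c (l 17091592) (a (l 16945272) (l 16996880))) (c (l 17156616) (a (l 16953432) (l 17016488)))) (c (b (l 17199936) (l 17274720)) (b (l 17072712) (l 17105280)))) (a (b (c (l 17204352) (a (l 16926896) (l 17009048))) (c (a (l 17174464) (l 17269440)) (a (l 16847464) (l 16960848)))) (c (b (l 17340176) (l 17389728)) (b (l 17118984) (l 17104472)))))), by decide +kernel⟩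

def k29_pm_011 : ∃ t, chk3 f_pm_011 t 3 6 1 = true :=
  ⟨(a (b (a (b (l 3) (a (l 3) (b (l 3) (a (l 3) (b (l 3) (a (b (l 3) (l 371145622711)) (b (l 366850648295) (l 358260715799)))))))) (b (l 1) (a (b (l 1) (a (b (l 1) (l 138546314183)) (l 1))) (l 1)))) (a (b (a (b (l 3) (a (b (l 3) (a (l 3) (b (l 3) (a (l 387788600455) (l 404431607687))))) (b (a (b (l 3) (l 384567403207)) (b (a (l 3) (l 403357851943)) (l 257328986919))) (a (b (a (l 395841679543) (l 16804384)) (l 16801136)) (l 16795048))))) (b (b (a (a (l 3) (b (l 3) (l 371682501911))) (a (c (l 337859639399) (l 319606028743)) (l 16799536))) (a (a (b (l 377051196535) (a (l 371145603591) (l 16802400))) (a (l 254644642343) (l 16803416))) (l 16796328))) (a (b (a (b (l 16802136) (l 16793064)) (l 16808304)) (l 16809792)) (l 16818840)))) (b (a (a (b (a (b (a (l 3) (l 404431613031)) (a (l 415169024679) (l 16800784))) (b (l 217063658311) (l 16791016))) (c (l 16797112) (l 16793344))) (b (l 16797120) (l 16832440))) (a (l 16840912) (l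 16929160))) (a (c (l 16808752) (l 16789936)) (l 16933824)))) (b (a (b (a (l 16794720) (l 16866040)) (a (l 16907184) (l 16952672))) (b (l 1) (l 17019168))) (a (b (l 16996968) (l 17064736)) (l 17117000))))) (b (l 1) (a (b (l 1) (l 98281692503)) (l 1)))), by decide +kernel⟩

def k30_pm_011 : ∃ t, chk3 f_pm_011 t 3 7 1 = true :=
  ⟨(a (b (a (b (a (b (a (l 16932032) (l 16978240)) (l 16985176)) (b (l 17046048) (l 17116720))) (a (c (l 17177528) (l 17089592)) (l 17180816))) (b (a (l 17167840) (l 17250016)) (a (l 17306784) (l 17385816)))) (b (a (a (c (l 17340624) (l 17192248)) (l 17359624)) (a (l 17444520) (l 17522360))) (a (a (c (l 17488224) (l 17253752)) (l 17479904)) (c (l 17715688) (l 17511792))))) (b (a (b (l 17365616) (l 17495544)) (l 17565112)) (a (b (l 17627880) (l 17759216)) (l 17812944)))), by decide +kernel⟩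

theorem s31_pm_011 : ∃ t, chk3 f_pm_011 t 3 3 1 = true := ex3_b k29_pm_011 k30_pm_011

theorem s32_pm_011 : ∃ t, chk3 f_pm_011 t 10 29 1 = true := ex3_a k25_pm_011 k26_pm_011

theorem s33_pm_011 : ∃ t, chk3 f_pm_011 t 10 14 1 = true := ex3_b k24_pm_011 s32_pm_011

theorem s34_pm_011 : ∃ t, chk3 f_pm_011 t 5 14 1 = true := ex3_a s33_pm_011 k27_pm_011

theorem s35_pm_011 : ∃ t, chk3 f_pm_011 t 5 7 1 = true := ex3_b s34_pm_011 k28_pm_011

theorem s36_pm_011 : ∃ t, chk3 f_pm_011 t 9 31 1 = true := ex3_b k22_pm_011 k23_pm_011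

theorem s37_pm_011 : ∃ t, chk3 f_pm_011 t 19 60 1 = true := ex3_a k19_pm_011 k20_pm_011

theorem s38_pm_011 : ∃ t, chk3 f_pm_011 t 19 30 1 = true := ex3_b s37_pm_011 k21_pm_011

theorem s39_pm_011 : ∃ t, chk3 f_pm_011 t 36 123 1 = true := ex3_a k16_pm_011 k17_pm_011

theorem s40_pm_011 : ∃ t, chk3 f_pm_011 t 36 61 1 = true := ex3_b k15_pm_011 s39_pm_011

theorem s41_pm_011 : ∃ t, chk3 f_pm_011 t 18 61 1 = true := ex3_a s40_pm_011 k18_pm_011

theorem s42_pm_011 : ∃ t, chk3 f_pm_011 t 18 30 1 = true := ex3_b k14_pm_011 s41_pm_011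

theorem s43_pm_011 : ∃ t, chk3 f_pm_011 t 9 30 1 = true := ex3_a s42_pm_011 s38_pm_011

theorem s44_pm_011 : ∃ t, chk3 f_pm_011 t 9 15 1 = true := ex3_b s43_pm_011 s36_pm_011

theorem s45_pm_011 : ∃ t, chk3 f_pm_011 t 35 124 1 = true := ex3_a k10_pm_011 k11_pm_011

theorem s46_pm_011 : ∃ t, chk3 f_pm_011 t 35 62 1 = true := ex3_b s45_pm_011 k12_pm_011

theorem s47_pm_011 : ∃ t, chk3 f_pm_011 t 69 250 1 = true := ex3_a k7_pm_011 k8_pm_011

theorem s48_pm_011 : ∃ t, chk3 f_pm_011 t 69 125 1 = true := ex3_b s47_pm_011 k9_pm_011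

theorem s49_pm_011 : ∃ t, chk3 f_pm_011 t 34 125 1 = true := ex3_a k6_pm_011 s48_pm_011

theorem s50_pm_011 : ∃ t, chk3 f_pm_011 t 34 62 1 = true := ex3_b k5_pm_011 s49_pm_011

theorem s51_pm_011 : ∃ t, chk3 f_pm_011 t 17 62 1 = true := ex3_a s50_pm_011 s46_pm_011

theorem s52_pm_011 : ∃ t, chk3 f_pm_011 t 17 31 1 = true := ex3_b s51_pm_011 k13_pm_011

theorem s53_pm_011 : ∃ t, chk3 f_pm_011 t 8 31 1 = true := ex3_a k4_pm_011 s52_pm_011

theorem s54_pm_011 : ∃ t, chk3 f_pm_011 t 8 15 1 = true := ex3_b k3_pm_011 s53_pm_011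

theorem s55_pm_011 : ∃ t, chk3 f_pm_011 t 4 15 1 = true := ex3_a s54_pm_011 s44_pm_011

theorem s56_pm_011 : ∃ t, chk3 f_pm_011 t 4 7 1 = true := ex3_b k2_pm_011 s55_pm_011

theorem s57_pm_011 : ∃ t, chk3 f_pm_011 t 2 7 1 = true := ex3_a s56_pm_011 s35_pm_011

theorem s58_pm_011 : ∃ t, chk3 f_pm_011 t 2 3 1 = true := ex3_b k1_pm_011 s57_pm_011

theorem s59_pm_011 : ∃ t, chk3 f_pm_011 t 1 3 1 = true := ex3_a s58_pm_011 s31_pm_011

theorem s60_pm_011 : ∃ t, chk3 f_pm_011 t 1 1 1 = true := ex3_b k0_pm_011 s59_pm_011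

theorem c_pm_011 : CertN 0 536870912 536870912 536870912 134217728 67108864 3 true true false .pnn 0 1 1
    ndN0q0 ndN5q1 pcN1 cut_pm_011 Ext.none :=
  certN1 (fam := true) (s1 := true) (s2 := false) (a := 0) (b := 1) (c := 1) (cn := .pnn) (n1 := ndN0q0) (n2 := ndN5q1) (pc := pcN1) (cut := cut_pm_011) (xt := Ext.none) (P1 := 0) (W1 := 536870912) (P2 := 536870912) (W2 := 536870912) (P3 := 134217728) (W3 := 67108864) (N0 := 3)
    rfl (fun _ => rfl) s60_pm_011

noncomputable def cut_pm_012 : Cut := Cut.of [[⟨0, 0, 0, 67108864⟩, ⟨1, 1, 0, 67108864⟩, ⟨2, 1, 0, 67108864⟩]]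

noncomputable def f_pm_012 : ℕ → ℕ → ℕ → ℕ → Bool := onCell 1073741824 536870912 536870912 536870912 134217728 67108864
    (rowN 3 2 true true false .pnp 0 1 2 (qsf 0 536870912 536870912 536870912 2) ndN0q0 ndN5q1 pcN2 cut_pm_012 Ext.none)

def k0_pm_012 : ∃ t, chk3 f_pm_012 t 2 2 1 = true :=
  ⟨(a (b (a (b (l 18235872) (a (l 18006352) (l 18193200))) (a (a (l 18363224) (b (l 2) (l 18373744))) (a (l 18464720) (l 18510784)))) (a (b (a (c (l 17961296) (l 17716912)) (l 18055904)) (a (c (b (l 17833840) (l 17728408)) (b (l 17559312) (a (l 17361192) (l 17492360)))) (c (l 18038848) (l 17740800)))) (a (a (b (l 18201432) (l 18061096)) (b (a (l 18265096) (l 18305480)) (a (l 18137600) (l 18186352)))) (a (b (l 18345416) (c (l 18385736) (l 18092904))) (b (l 18411136) (l 18322280)))))) (a (a (b (a (l 18548200) (l 2)) (a (b (l 18467640) (l 18394696)) (b (l 18521160) (a (l 18444864) (l 18476944))))) (b (l 2) (l 18745128))) (b (l 2) (a (l 18627400) (l 18683792))))), by decide +kernel⟩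

def k1_pm_012 : ∃ t, chk3 f_pm_012 t 4 6 1 = true :=
  ⟨(a (b (a (b (c (a (l 17517504) (l 17672408)) (a (b (l 17235760) (l 17137184)) (l 17331656))) (c (a (b (l 17384704) (l 17277016)) (l 17507048)) (a (a (l 16729504) (l 16997440)) (b (l 17178120) (l 17052920))))) (c (b (l 17891328) (l 17754824)) (b (l 17541968) (a (l 17278368) (l 17434488))))) (a (a (b (c (a (b (l 17101672) (l 16798984)) (b (l 17197456) (l 17047360))) (a (b (l 16685504) (l 16619872)) (l 16659120))) (a (c (b (a (l 16729792) (l 16782128)) (a (l 16665480) (l 16655968))) (a (b (l 16640912) (l 16657056)) (l 16659976))) (c (b (l 16842608) (l 16654776)) (b (l 16616176) (l 16632456))))) (b (c (b (l 17341496) (l 17118600)) (b (l 16903504) (l 16723576))) (c (b (a (l 16975336) (l 17088400)) (a (l 16755752) (l 16881024))) (b (l 16607568) (a (l 16612864) (l 16572360)))))) (b (c (a (l 17344880) (l 17656584)) (a (b (l 17084104) (l 16920824)) (l 17087168))) (c (a (b (l 17214408) (c (l 17216936) (l 16920616))) (b (l 17472048)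 (l 17185672))) (a (b (l 16721400) (l 16564584)) (b (l 16939584) (l 16721368))))))) (a (a (b (c (l 18040488) (l 17667944)) (b (c (l 17830760) (l 17370008)) (c (l 17400504) (b (l 17149488) (l 16960120))))) (b (a (c (l 18136208) (l 17765656)) (c (l 18196752) (l 17828504))) (c (a (b (l 17951504) (l 17758584)) (b (l 18027840) (l 17852048))) (b (a (l 17495840) (l 17576504)) (a (a (l 17192784) (l 17244176)) (b (l 17392760) (l 17236624))))))) (a (a (b (c (l 18250544) (l 17886072)) (c (l 18026528) (b (l 17652352) (l 17414336)))) (b (l 18123360) (c (l 18101240) (b (l 17725832) (l 17506352))))) (b (c (l 18372296) (l 18018792)) (c (l 18203864) (b (l 17828200) (a (l 17594288) (l 17678240)))))))), by decide +kernel⟩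

def k2_pm_012 : ∃ t, chk3 f_pm_012 t 16 14 1 = true :=
  ⟨(a (b (a (b (c (a (c (l 16682696) (l 16678824)) (l 16671264)) (a (l 16673312) (l 16663520))) (c (a (c (l 16697768) (l 16694424)) (l 16686648)) (b (l 16680704) (l 16688912)))) (c (b (c (l 16659232) (l 16654960)) (c (l 16674408) (l 16670672))) (b (l 16648848) (l 16665344)))) (a (b (c (a (a (c (l 16715064) (l 16712304)) (l 16709024)) (c (l 16703496) (l 16700544))) (a (b (l 16701976) (l 16710024)) (l 16696352))) (b (c (a (c (l 16723352) (l 16721040)) (l 16713144)) (a (l 16717768) (l 16708368))) (a (c (c (l 16719776) (l 16728288)) (a (l 16727856) (l 16723136))) (c (l 16709688) (l 16716072))))) (c (b (a (c (l 16694248) (l 16691136)) (l 16683344)) (a (b (l 16704056) (l 16711152)) (c (l 16699840) (l 16697176)))) (b (a (l 16686712) (l 16677072)) (a (l 16702800) (l 16693376)))))) (b (a (b (c (l 16638264) (l 16629368)) (c (c (l 16655848) (l 16651800)) (l 16645984))) (c (b (l 16615128) (l 16635176)) (b (l 16609952) (l 16626688))))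 (c (b (a (c (l 16671120) (l 16667632)) (c (l 16652752) (l 16648944))) (a (b (l 16675776) (c (l 16689984) (l 16666264))) (b (l 16662568) (l 16670328)))) (b (a (l 16662624) (l 16643456)) (a (b (l 16675104) (l 16683272)) (b (l 16635064) (l 16664360))))))), by decide +kernel⟩

def k3_pm_012 : ∃ t, chk3 f_pm_012 t 16 15 1 = true :=
  ⟨(a (b (a (b (b (c (a (a (c (l 16739568) (l 16737944)) (l 16723672)) (c (l 16728224) (l 16726416))) (a (a (l 16735648) (l 16730912)) (l 16723840))) (a (l 6) (c (c (l 16724808) (l 16733792)) (l 16721160)))) (l 6)) (a (b (c (b (l 16707752) (c (l 16726248) (l 16703624))) (b (l 16714448) (l 16722232))) (l 6)) (b (c (b (l 16709232) (c (l 16696296) (l 16694496))) (b (l 16684128) (l 16712872))) (a (l 6) (b (c (l 16710824) (l 16697368)) (l 6)))))) (l 6)) (b (b (a (c (a (b (l 16700280) (l 16696880)) (b (l 16691392) (l 16687944))) (b (l 16691160) (a (l 16682584) (l 16673312)))) (c (b (c (l 16658336) (l 16655576)) (c (l 16686368) (l 16662984))) (b (l 16672544)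 (l 16680448)))) (a (b (c (a (c (l 16694376) (l 16692744)) (c (l 16685472) (l 16683688))) (a (l 16700856) (l 16681080))) (a (l 6) (a (l 6) (c (l 16697392) (l 16686560))))) (c (b (c (l 16682736) (l 16680696)) (c (a (l 16683616) (l 16674808)) (a (l 16682000) (l 16673032)))) (a (b (l 16671832) (l 16679608)) (b (l 16662640) (l 16670400)))))) (b (a (l 6) (a (l 6) (b (b (c (l 16679288) (l 16676240)) (l 6)) (l 6)))) (l 6)))), by decide +kernel⟩

def k4_pm_012 : ∃ t, chk3 f_pm_012 t 17 14 1 = true :=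
  ⟨(b (a (b (c (a (l 16758360) (l 16900584)) (l 16591880)) (c (a (l 16617008) (l 16599752)) (b (l 16594176) (l 16602672)))) (c (b (c (l 17272384) (l 16943328)) (a (l 16764056) (l 16839248))) (b (l 16543680) (l 16571416)))) (a (b (c (a (c (l 16613912) (l 16609744)) (c (l 16596336) (l 16591776))) (a (l 16624688) (l 16585176))) (c (a (c (l 16650288) (l 16646720)) (c (l 16632840) (l 16607920))) (a (l 16641536) (l 16623152)))) (c (b (a (l 16597256) (l 16578264)) (a (c (l 16594448) (l 16590120)) (c (l 16577064) (l 16572336)))) (b (a (l 16566632) (l 16548088)) (a (l 16604768) (l 16565424)))))), by decide +kernel⟩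

def k5_pm_012 : ∃ t, chk3 f_pm_012 t 17 30 1 = true :=
  ⟨(a (b (c (a (b (l 16657592) (c (l 16648248) (l 16645448))) (b (l 16642680) (c (l 16631096) (l 16627920)))) (a (b (l 16633152) (l 16662328)) (b (l 16614872) (l 16623256)))) (c (b (a (c (l 16676272) (l 16652864)) (c (l 16638528) (l 16635680))) (a (c (l 16672624) (l 16670560)) (c (l 16645568) (l 16643088)))) (b (a (l 16670240) (l 16631472)) (a (a (l 16661448) (l 16652600)) (l 16660360))))) (b (c (a (c (l 16630936) (l 16627232)) (c (l 16613696) (l 16588632))) (a (l 16621784) (l 16603584))) (c (b (c (a (l 16621488) (l 16604360)) (l 16630424)) (c (a (l 16628920) (l 16612000)) (a (l 16626016) (l 16608704)))) (a (b (l 16613472) (l 16621696)) (b (l 16595392) (l 16603792)))))), by decide +kernel⟩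

def k6_pm_012 : ∃ t, chk3 f_pm_012 t 17 31 1 = true :=
  ⟨(b (a (a (a (b (c (c (l 16673272) (l 16671656)) (l 16669216)) (l 6)) (c (b (c (l 16664880) (l 16663072)) (c (l 16671848) (l 16670376))) (b (l 16660352) (c (l 16668872) (l 16667352))))) (c (b (c (l 16662872) (l 16650288)) (c (b (l 16657560) (l 16661024)) (b (l 16655728) (l 16659360)))) (b (c (l 16648184) (l 16646064)) (c (l 16666248) (l 16653960))))) (c (b (c (a (l 16635944) (l 16619408)) (a (l 16633408) (l 16616456))) (a (c (l 16653216) (l 16640592)) (c (l 16647384) (l 16623832)))) (b (a (l 16650576) (l 16632984)) (a (c (l 16638416) (l 16636216)) (c (l 16621224) (l 16618600)))))) (a (a (l 6) (a (l 6) (b (c (c (l 16665336) (l 16660560)) (c (l 16659000) (l 16657400))) (l 6)))) (c (b (a (c (b (l 16647872) (l 16651312)) (b (l 16646008) (l 16649616))) (c (b (l 16631480) (l 16634872)) (l 16651952))) (b (c (a (l 16654768) (l 16638280)) (a (l 16653240) (l 16636368))) (a (l 6) (c (l 16641688) (l 16639960))))) (b (a (c (l 16651216)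 (l 16644088)) (c (l 16628744) (l 16626456))) (a (b (c (l 16651648) (l 16649976)) (l 6)) (c (b (l 16634392) (l 16638144)) (b (l 16632344) (l 16636248)))))))), by decide +kernel⟩

def k7_pm_012 : ∃ t, chk3 f_pm_012 t 36 7 1 = true :=
  ⟨(b (b (c (b (l 17221472) (c (l 17330016) (l 16968808))) (b (l 16723888) (l 16523768))) (c (b (c (l 16901016) (l 16655808)) (a (c (l 16607304) (l 16554792)) (l 16561696))) (b (l 16541408) (a (l 16547232) (l 16529048))))) (b (c (b (c (a (l 16575784) (l 16558904)) (l 16593976)) (b (c (l 16600080) (l 16574848)) (c (l 16607832) (l 16603904)))) (b (b (l 16572224) (l 16580896)) (b (l 16589512) (a (l 16586000) (l 16568240))))) (b (c (b (c (l 16615504) (l 16611896)) (c (a (l 16610264) (l 16593896)) (a (l 16607224) (l 16590408)))) (b (c (l 16608296) (l 16583728)) (c (l 16616440) (l 16613144)))) (c (b (c (b (l 16628440) (l 16631936)) (a (l 16614576) (l 16598120))) (c (b (a (l 16622280) (l 16606528)) (a (l 16625648) (l 16609864))) (b (l 16632744) (a (l 16623480)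 (l 16607216))))) (b (c (a (l 16611872) (l 16594944)) (a (l 16609112) (l 16591720))) (a (c (l 16619352) (l 16616944)) (c (l 16602616) (l 16599728)))))))), by decide +kernel⟩

def k8_pm_012 : ∃ t, chk3 f_pm_012 t 37 7 1 = true :=
  ⟨(b (b (c (a (b (l 17548408) (c (l 17534864) (l 17184504))) (b (l 17661352) (l 17470120))) (a (a (l 16761120) (l 16661992)) (b (l 17043656) (l 16717584)))) (a (c (b (a (l 17053336) (l 17070864)) (a (l 16737672) (l 16689920))) (b (l 16536840) (l 16564912))) (c (b (c (l 17464136) (l 17076816)) (c (l 17200712) (l 16756984))) (b (l 16512672) (l 16516336))))) (b (a (c (b (a (l 16554064) (l 16556280)) (c (a (l 16562120) (l 16554000)) (a (l 16557464) (l 16549112)))) (b (a (l 16533104) (l 16524360)) (b (l 16563904) (l 16572448)))) (c (b (a (l 16548448) (l 16577776)) (c (l 16564472) (l 16559064))) (b (l 16554776) (c (l 16553712) (l 16548416))))) (a (b (c (c (b (l 16591624) (l 16599184)) (b (l 16566360) (l 16574264))) (b (l 16580912) (a (l 16571944) (l 16563296))))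 (c (b (c (l 16606648) (l 16603032)) (c (a (l 16596352) (l 16588440)) (a (l 16593224) (l 16585072)))) (b (c (l 16599384) (l 16574720)) (c (l 16607272) (l 16603896))))) (b (c (c (b (l 16555000) (l 16562528)) (b (l 16550136) (l 16558016))) (b (l 16563840) (l 16572216))) (c (b (c (l 16569952) (l 16565800)) (c (l 16598240) (l 16594448))) (b (c (l 16561624) (l 16557424)) (c (l 16569632) (l 16565736)))))))), by decide +kernel⟩

def k9_pm_012 : ∃ t, chk3 f_pm_012 t 19 7 1 = true :=
  ⟨(b (a (b (c (a (l 17527752) (l 17803576)) (a (b (l 17161792) (l 16940512)) (b (l 17274648) (l 17072592)))) (c (a (b (l 17270352) (c (l 17372128) (l 16942728))) (b (l 17554592) (c (l 17531448) (l 17115800)))) (a (b (l 16659088) (l 16502256)) (b (l 16816976) (l 16487440))))) (b (c (a (l 17905520) (l 18001616)) (a (l 17211168) (l 17404896))) (c (a (b (l 17683368) (l 17436648)) (b (l 17803944) (l 17622440))) (a (b (l 16965816) (l 16668560)) (b (l 17105976) (l 16837864)))))) (a (b (a (c (b (c (l 16951432)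 (l 16559232)) (c (l 16552872) (l 16524240))) (b (l 16519216) (l 16556976))) (c (b (c (l 17254088) (l 16775928)) (c (l 16703192) (l 16510280))) (b (l 16483448) (l 16520832)))) (a (b (c (c (l 16566056) (l 16560624)) (b (l 16527496) (l 16535680))) (c (b (c (l 16555864) (l 16551032)) (c (l 16562904) (l 16558472))) (b (l 16564736) (c (l 16554000) (l 16549488))))) (c (b (c (l 16531440) (l 16525240)) (c (b (l 16541848) (l 16548640)) (b (l 16536304) (l 16543536)))) (b (b (l 16512064) (l 16520072)) (b (l 16528000) (l 16556792)))))) (b (c (b (a (c (l 17436096) (l 16975832)) (c (l 17603656) (l 17160328))) (a (c (l 17039728) (l 16567808)) (c (l 17313376) (l 16801616)))) (b (a (l 16469376) (l 16489728)) (a (l 16485304) (l 16471312)))) (b (c (a (b (l 16511488) (l 16539376)) (c (l 16656448) (l 16498152))) (a (l 16522008) (l 16507520))) (c (a (c (b (l 16528400) (l 16534920)) (l 16546536)) (c (l 16539552) (l 16511736))) (a (b (l 16512696) (l 16520328)) (b (l 16497856) (l 16505264)))))))),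 by decide +kernel⟩

def k10_pm_012 : ∃ t, chk3 f_pm_012 t 20 3 1 = true :=
  ⟨(b (a (b (l 18291744) (c (l 18332352) (b (l 17957872) (l 17796328)))) (b (a (l 18357688) (l 18399480)) (a (c (l 18420240) (l 17983784)) (c (l 18475344) (b (l 18104320) (l 17976552)))))) (b (a (b (c (l 18134904) (a (l 17509040) (l 17607720))) (c (b (l 17970168) (l 17798544)) (a (b (l 17237856) (l 16996096)) (b (l 17361856) (l 17143944))))) (c (a (b (l 18257616) (l 18062824)) (b (l 18333592) (a (l 18138152) (l 18186320)))) (b (a (l 17701152) (a (l 17767920) (l 17810960))) (a (l 17260272) (a (l 17475912) (b (l 17614680) (l 17442064))))))) (a (b (c (b (c (l 17830656) (l 17411176)) (a (c (l 17505384) (l 17015104)) (c (l 17680624) (l 17210352)))) (b (a (l 16684120) (l 16864272)) (a (l 16457888) (l 16498672)))) (c (c (b (a (l 16987768) (l 17378408)) (b (a (l 16799824) (l 17073600)) (l 16539736))) (b (a (l 16583968) (l 16833968)) (a (l 16498424) (l 16485592)))) (b (a (l 16472560) (l 16459056)) (a (b (l 16483480)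 (l 16490640)) (c (l 16477168) (l 16468808)))))) (b (c (a (b (l 17832944) (l 17468584)) (a (b (l 17929784) (l 17733120)) (b (l 17991232) (l 17681560)))) (a (b (l 17031312) (l 16705552)) (a (b (l 17148648) (l 16849760)) (b (a (l 17204888) (l 17241544)) (a (l 16918536) (l 16963272)))))) (a (c (b (c (l 17579680) (l 17060176)) (c (b (l 17318096) (l 17101112)) (b (l 16735032) (l 16476128)))) (b (l 16445968) (l 16480288))) (c (b (a (c (l 17718032) (l 17215944)) (c (l 17804688) (a (l 17289672) (l 17337432)))) (a (c (l 17392488) (l 16808752)) (c (a (l 17476056) (l 17529936)) (a (l 16903496) (l 16943664))))) (b (a (l 16455904) (a (l 16542192) (l 16598144))) (a (l 16449376) (a (l 16444464) (l 16441296)))))))))), by decide +kernel⟩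

def k11_pm_012 : ∃ t, chk3 f_pm_012 t 21 3 1 = true :=
  ⟨(b (b (l 18482688) (c (l 18590528) (l 18183312))) (b (c (b (l 18498808) (l 18381624)) (b (l 17988272) (a (l 17669728) (l 17865944)))) (b (c (a (b (l 18134880) (l 17980464)) (l 18284016)) (a (b (l 17398984) (l 16902920)) (b (l 17649048) (l 17454472)))) (c (a (b (c (l 18004952) (l 17540008)) (c (l 17630344) (b (l 17310976) (l 17125208)))) (b (l 18066600) (c (l 18098200) (l 17611664)))) (b (a (a (l 16732968) (l 16933480)) (c (l 17420736) (l 16985616))) (a (b (l 16530456) (l 16431600)) (b (l 16860808) (l 16608696)))))))), by decide +kernel⟩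

def k12_pm_012 : ∃ t, chk3 f_pm_012 t 11 3 1 = true :=
  ⟨(b (a (b (l 18596128) (l 18556104)) (b (l 18685984) (l 18685480))) (b (a (c (l 18690528) (b (l 18250712) (l 18115760))) (c (l 18870704) (l 18421672))) (a (b (c (l 18555392) (a (l 17793920) (l 17997976))) (c (a (b (l 18312064) (l 18156264)) (l 18466312)) (a (b (l 17514176) (c (l 17483656) (l 17030256))) (b (l 17778568) (l 17515064))))) (c (b (l 18828088) (l 18737408)) (b (l 18252264) (a (b (l 18004192) (l 17848112)) (l 18138632))))))), by decide +kernel⟩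

def k13_pm_012 : ∃ t, chk3 f_pm_012 t 3 1 1 = true :=
  ⟨(b (a (b (l 2) (a (l 18759880) (l 2))) (l 2)) (b (a (a (b (l 18801088) (l 18837288)) (l 18921520)) (b (l 2) (l 19004960))) (a (b (a (c (l 19061936) (l 18673080)) (l 19038136)) (a (c (b (l 19102408) (l 19103488)) (b (l 18618296) (a (l 18393384) (l 18651120)))) (c (l 19327904) (l 18908304)))) (b (l 19122992) (a (l 19237816) (l 19262024)))))), by decide +kernel⟩

theorem s14_pm_012 : ∃ t, chk3 f_pm_012 t 10 3 1 = true := ex3_a k10_pm_012 k11_pm_012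

theorem s15_pm_012 : ∃ t, chk3 f_pm_012 t 5 3 1 = true := ex3_a s14_pm_012 k12_pm_012

theorem s16_pm_012 : ∃ t, chk3 f_pm_012 t 18 7 1 = true := ex3_a k7_pm_012 k8_pm_012

theorem s17_pm_012 : ∃ t, chk3 f_pm_012 t 9 7 1 = true := ex3_a s16_pm_012 k9_pm_012

theorem s18_pm_012 : ∃ t, chk3 f_pm_012 t 17 15 1 = true := ex3_b k5_pm_012 k6_pm_012

theorem s19_pm_012 : ∃ t, chk3 f_pm_012 t 17 7 1 = true := ex3_b k4_pm_012 s18_pm_012

theorem s20_pm_012 : ∃ t, chk3 f_pm_012 t 16 7 1 = true := ex3_b k2_pm_012 k3_pm_012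

theorem s21_pm_012 : ∃ t, chk3 f_pm_012 t 8 7 1 = true := ex3_a s20_pm_012 s19_pm_012

theorem s22_pm_012 : ∃ t, chk3 f_pm_012 t 4 7 1 = true := ex3_a s21_pm_012 s17_pm_012

theorem s23_pm_012 : ∃ t, chk3 f_pm_012 t 4 3 1 = true := ex3_b k1_pm_012 s22_pm_012

theorem s24_pm_012 : ∃ t, chk3 f_pm_012 t 2 3 1 = true := ex3_a s23_pm_012 s15_pm_012

theorem s25_pm_012 : ∃ t, chk3 f_pm_012 t 2 1 1 = true := ex3_b k0_pm_012 s24_pm_012

theorem s26_pm_012 : ∃ t, chk3 f_pm_012 t 1 1 1 = true := ex3_a s25_pm_012 k13_pm_012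

theorem c_pm_012 : CertN 0 536870912 536870912 536870912 134217728 67108864 3 true true false .pnp 0 1 2
    ndN0q0 ndN5q1 pcN2 cut_pm_012 Ext.none :=
  certN2 (fam := true) (s1 := true) (s2 := false) (a := 0) (b := 1) (c := 2) (cn := .pnp) (n1 := ndN0q0) (n2 := ndN5q1) (pc := pcN2) (cut := cut_pm_012) (xt := Ext.none) (P1 := 0) (W1 := 536870912) (P2 := 536870912) (W2 := 536870912) (P3 := 134217728) (W3 := 67108864) (N0 := 3)
    rfl (fun _ => rfl) s26_pm_012

noncomputable def cut_pm_022 : Cut := Cut.of [[⟨0, 0, 0, 67108864⟩, ⟨1, 1, 0, 67108864⟩, ⟨2, 1, 0, 67108864⟩]]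

noncomputable def f_pm_022 : ℕ → ℕ → ℕ → ℕ → Bool := onCell 1073741824 536870912 1073741824 536870912 134217728 67108864
    (rowN 3 2 true true false .pp 0 2 2 (qsf 0 536870912 1073741824 536870912 2) ndN0q0 ndN5q2 pcN2 cut_pm_022 Ext.none)

def k0_pm_022 : ∃ t, chk3 f_pm_022 t 8 4 1 = true :=
  ⟨(b (a (b (l 6) (b (l 6) (l 1))) (b (a (l 6) (a (l 6) (a (l 6) (a (l 6) (b (c (c (b (l 16636880) (l 16635896)) (l 16634992)) (b (l 16632688) (l 16632600))) (c (b (l 16634312) (l 16633216)) (l 16632000))))))) (a (b (l 6) (b (l 6) (l 1))) (b (a (l 6) (a (l 6) (a (l 6) (c (l 16651896) (l 16651160))))) (a (b (l 6) (b (l 6) (l 1))) (b (a (l 6) (a (l 6) (c (l 16662328) (l 16660976)))) (a (b (l 6) (c (l 185790698791) (l 199749339047))) (c (c (l 45667389191) (l 16682728)) (l 42983033447))))))))) (b (b (a (l 1) (a (l 1) (a (l 1) (a (l 1) (a (l 1) (c (l 194380677879) (l 204581179111))))))) (l 1)) (l 1))), by decide +kernel⟩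

def k1_pm_022 : ∃ t, chk3 f_pm_022 t 18 8 1 = true :=
  ⟨(a (b (b (c (b (a (c (l 16626920) (l 16625040)) (c (l 16611152) (l 16608808))) (c (a (l 16625976) (l 16610272)) (l 16637328))) (b (a (c (l 16623072) (l 16621024)) (c (l 16606392) (l 16603888))) (c (l 16635528) (l 16612680)))) (c (b (c (l 16637984) (l 16636624)) (c (l 16636528) (l 16635512))) (b (a (l 16621848) (l 16605192)) (c (l 16634432) (l 16633288))))) (a (b (c (b (l 16642560) (l 16640800)) (l 16638032)) (c (c (l 16667224) (l 16661288)) (c (l 16660576) (l 16670352)))) (c (b (b (l 16627000) (l 16624872)) (a (l 16648168) (l 16617600))) (b (l 16624424) (l 16641904))))) (c (b (a (b (c (b (l 16616976) (l 16595080)) (b (l 16593160) (l 16592664))) (c (l 16614376) (l 16612576))) (b (c (b (l 16580768) (l 16580112)) (b (l 16577360) (l 16577144))) (c (l 16578392) (l 16576104)))) (b (a (c (l 16611224) (l 16610128)) (c (l 16575192) (l 16573720))) (a (l 16605848) (l 16590672)))) (b (a (b (b (c (l 16590232) (l 16587232)) (l 16609880))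 (b (l 16588864) (l 16588608))) (b (b (c (l 16573896) (l 16570360)) (l 16572576)) (l 16593520))) (b (a (l 16608360) (l 16592368)) (l 16601992))))), by decide +kernel⟩

def k2_pm_022 : ∃ t, chk3 f_pm_022 t 18 9 1 = true :=
  ⟨(b (a (c (b (a (b (a (b (l 68752823319) (l 186327541383)) (c (l 16669312) (l 16668400))) (l 190085688967)) (b (l 16645400) (a (b (l 16655440) (l 185790642103)) (l 46741075255)))) (a (l 1) (b (l 190085639719) (l 1)))) (b (a (b (a (b (l 16667832) (l 199212439271)) (l 16666976)) (l 199749339975)) (b (l 16643608) (a (l 91301388583) (l 16652464)))) (a (l 1) (l 204044336231)))) (c (b (a (l 16638104) (l 16611264)) (a (b (a (l 98817556279) (l 16640328)) (l 189548719495)) (b (l 16616752) (l 82174531015)))) (b (a (l 16641536) (l 16609688)) (a (b (l 73584621383) (l 199212390263)) (b (l 16614464) (l 77879559543)))))) (a (l 1) (a (l 1) (b (c (l 194380566615) (l 202970473463)) (l 1))))), by decide +kernel⟩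

def k3_pm_022 : ∃ t, chk3 f_pm_022 t 19 4 1 = true :=
  ⟨(b (a (b (a (c (b (c (b (l 16566352) (l 16565928)) (l 16583296)) (c (l 16564176) (l 16561304))) (b (b (l 16577152) (l 16556840)) (l 16556888))) (c (b (c (l 16572752) (l 16547336)) (c (l 16550096) (l 16546600))) (b (b (l 16540192) (l 16540960)) (l 16541288)))) (c (b (c (l 16585136) (l 16593440)) (b (l 16570328) (l 16567296))) (b (b (l 16569856) (l 16568600)) (l 16587104)))) (b (c (b (c (a (l 16537816) (l 16524344)) (a (l 16532696) (l 16518504))) (c (l 16561584) (l 16546608))) (b (a (c (l 16527552) (l 16522392)) (l 16530712)) (a (l 16525864) (l 16510608)))) (c (b (c (l 16547400) (l 16544008)) (l 16556320)) (b (l 16559832) (l 16535984))))) (a (c (b (b (l 16578824) (a (a (l 16601632) (l 16585672)) (l 16582496))) (b (a (b (l 85395728567) (l 189011791671)) (b (l 16588088) (l 88080054503))) (l 198675570231))) (b (a (b (l 16568680) (l 16591352)) (l 16582184)) (b (a (b (l 16616488) (l 198138590071)) (l 48888476135)) (l 206728604519))))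 (c (b (b (b (l 16536272) (l 16532496)) (l 16547640)) (b (l 16580320) (a (b (l 16596120) (l 190085476135)) (l 51572779287)))) (b (b (l 16552712) (l 16546344)) (b (c (l 16567752) (l 16566352)) (a (l 143377723911) (l 16563960))))))), by decide +kernel⟩

def k4_pm_022 : ∃ t, chk3 f_pm_022 t 4 5 1 = true :=
  ⟨(a (l 1) (a (l 1) (a (l 1) (b (a (l 1) (b (c (l 204044181175) (l 212634083639)) (l 1))) (l 1))))), by decide +kernel⟩

def k5_pm_022 : ∃ t, chk3 f_pm_022 t 10 4 1 = true :=
  ⟨(a (b (a (b (c (b (c (a (l 16511376) (l 16653000)) (a (l 16504784) (l 16491528))) (c (l 16524416) (l 16497544))) (b (a (l 16494920) (l 16480512)) (l 16533280))) (c (b (a (l 16504080) (l 16490824)) (l 16514112)) (b (l 16509104) (l 16507008)))) (a (b (c (b (c (l 16952176) (l 16478688)) (l 16594536)) (b (l 16466480) (l 16466864))) (c (b (l 16569528) (l 16552576)) (l 16465520))) (b (b (c (a (c (l 17154200) (l 16530400)) (a (c (l 17248752) (l 16637632)) (c (l 17309600) (l 16706688)))) (a (l 16456272) (a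 (l 16451240) (l 16447984)))) (c (a (l 16802968) (c (l 17226248) (l 16637864))) (a (l 16456520) (l 16470640)))) (c (a (l 16673240) (b (l 16769976) (l 16866416))) (a (l 16455096) (l 16490144)))))) (c (a (b (b (l 16507512) (l 16521176)) (a (l 16559952) (l 16527080))) (b (a (l 16542856) (b (l 16787224) (l 16775904))) (a (l 16561472) (a (l 16722344) (l 16824696))))) (a (b (b (l 16502848) (l 16497480)) (l 16561728)) (a (b (l 16479472) (l 16466272)) (b (a (l 16448432) (l 16462912)) (l 16499608)))))) (b (c (b (a (b (c (l 17563936) (l 16995712)) (c (l 17503568) (l 16951480))) (c (l 17910992) (l 17276776))) (a (b (l 17077320) (l 17143184)) (l 17336176))) (b (b (a (l 16455488) (c (l 16912184) (l 16405424))) (a (l 16434128) (l 16616608))) (a (l 16452728) (l 16576152)))) (b (c (a (l 16846144) (l 17459032)) (a (l 16424864) (l 16544384))) (c (a (l 17042128) (l 17398120)) (b (l 16444272) (l 16436152)))))), by decide +kernel⟩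

def k6_pm_022 : ∃ t, chk3 f_pm_022 t 10 5 1 = true :=
  ⟨(b (a (b (a (c (b (a (l 140693319175) (l 16548840)) (l 200822853399)) (b (a (l 114923540983) (l 16533656)) (l 208875905015))) (b (c (a (l 16598536) (a (l 16743600) (l 16836576))) (l 16561208)) (a (c (l 135861632999) (l 16544512)) (c (a (l 16768192) (l 16853512)) (l 16544032))))) (a (l 1) (a (l 1) (a (l 1) (c (l 226056464055) (l 211023304775)))))) (c (b (a (l 16994600) (l 17363832)) (a (b (a (l 154652319527) (l 17146984)) (l 245921090551)) (b (l 17354416) (l 17152352)))) (b (a (l 16480136) (l 16560352)) (b (a (l 16508456) (l 16594200)) (l 153578115527))))) (a (l 1) (b (c (l 263101330535) (l 198675331319)) (l 1)))), by decide +kernel⟩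

def k7_pm_022 : ∃ t, chk3 f_pm_022 t 11 2 1 = true :=
  ⟨(b (b (a (c (b (a (l 17987840) (l 18260704)) (a (l 17863936) (l 18129280))) (b (a (b (l 16907504) (l 17029968)) (b (l 17427792) (l 17375168))) (a (l 16972632) (l 17306136)))) (c (a (l 18417312) (l 18604488)) (b (a (l 17693176) (l 17937808)) (l 17691296)))) (a (b (c (l 17895400) (a (l 16916432) (l 17232680))) (c (l 17810240) (l 17016912))) (c (l 18277768) (b (l 17622784) (l 17552200))))) (b (a (b (c (l 17747984) (l 16976288)) (c (l 17708136) (l 17022136))) (c (l 18113048) (b (l 17500792) (l 17468944)))) (a (b (c (a (l 234110469927) (l 17789344)) (a (l 169147755623) (l 17161512))) (c (l 309273134727) (l 262027250519))) (b (c (l 18038104) (l 17456552)) (c (l 18025984) (l 225520310215)))))), by decide +kernel⟩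

def k8_pm_022 : ∃ t, chk3 f_pm_022 t 2 3 1 = true :=
  ⟨(a (l 1) (a (l 1) (b (b (a (l 1) (c (l 337727963095) (l 307662150215))) (l 1)) (l 1)))), by decide +kernel⟩

def k9_pm_022 : ∃ t, chk3 f_pm_022 t 3 1 1 = true :=
  ⟨(b (b (a (a (b (c (l 18950328) (a (l 18176960) (l 18477920))) (c (l 18712096) (a (l 17978016) (l 18271760)))) (b (l 19022624) (l 18809960))) (a (b (l 19193888) (l 19000264)) (l 19150448))) (b (a (a (c (l 18525624) (a (l 17842088) (l 18119280))) (l 18639192)) (l 18893120)) (a (a (c (l 18395632) (a (l 17770776) (l 18020808))) (l 18506720)) (l 18767592)))) (a (b (a (b (c (l 321622679671) (a (l 296388472535) (l 17985888))) (l 348465595607)) (b (l 18417048) (l 18391984))) (a (l 1) (l 363499156183))) (b (a (l 18569344) (l 18662752)) (a (l 348466781527) (l 18555336))))), by decide +kernel⟩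

theorem s10_pm_022 : ∃ t, chk3 f_pm_022 t 10 2 1 = true := ex3_b k5_pm_022 k6_pm_022

theorem s11_pm_022 : ∃ t, chk3 f_pm_022 t 5 2 1 = true := ex3_a s10_pm_022 k7_pm_022

theorem s12_pm_022 : ∃ t, chk3 f_pm_022 t 18 4 1 = true := ex3_b k1_pm_022 k2_pm_022

theorem s13_pm_022 : ∃ t, chk3 f_pm_022 t 9 4 1 = true := ex3_a s12_pm_022 k3_pm_022

theorem s14_pm_022 : ∃ t, chk3 f_pm_022 t 4 4 1 = true := ex3_a k0_pm_022 s13_pm_022

theorem s15_pm_022 : ∃ t, chk3 f_pm_022 t 4 2 1 = true := ex3_b s14_pm_022 k4_pm_022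

theorem s16_pm_022 : ∃ t, chk3 f_pm_022 t 2 2 1 = true := ex3_a s15_pm_022 s11_pm_022

theorem s17_pm_022 : ∃ t, chk3 f_pm_022 t 2 1 1 = true := ex3_b s16_pm_022 k8_pm_022

theorem s18_pm_022 : ∃ t, chk3 f_pm_022 t 1 1 1 = true := ex3_a s17_pm_022 k9_pm_022

theorem c_pm_022 : CertN 0 536870912 1073741824 536870912 134217728 67108864 3 true true false .pp 0 2 2
    ndN0q0 ndN5q2 pcN2 cut_pm_022 Ext.none :=
  certN2 (fam := true) (s1 := true) (s2 := false) (a := 0) (b := 2) (c := 2) (cn := .pp) (n1 := ndN0q0) (n2 := ndN5q2) (pc := pcN2) (cut := cut_pm_022) (xt := Ext.none) (P1 := 0) (W1 := 536870912) (P2 := 1073741824) (W2 := 536870912) (P3 := 134217728) (W3 := 67108864) (N0 := 3)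
    rfl (fun _ => rfl) s18_pm_022

noncomputable def f_pm_023 : ℕ → ℕ → ℕ → ℕ → Bool := onCell 0 536870912 1073741824 536870912 134217728 67108864
    (rowN 3 0 true true false .up 0 2 3 (qsf 0 536870912 1073741824 536870912 3) ndN0q0 ndN5q2 pcN3 Cut.none Ext.none)

def k0_pm_023 : ∃ t, chk3 f_pm_023 t 1 1 1 = true :=
  ⟨(a (b (b (l 1) (a (l 1) (l 361352117959))) (b (a (l 347929463655) (l 18830112)) (a (l 335582083751) (l 18549920)))) (b (a (b (l 369942528439) (l 18855232)) (b (l 18961912) (l 18669592))) (a (b (l 18631536) (l 18332624)) (b (l 18350312) (a (l 18087792) (b (l 17997776) (a (l 17860616) (b (l 17814424) (a (l 17743928) (l 17697096)))))))))), by decide +kernel⟩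

theorem c_pm_023 : CertN 0 536870912 1073741824 536870912 134217728 67108864 3 true true false .up 0 2 3
    ndN0q0 ndN5q2 pcN3 Cut.none Ext.none :=
  certN0 (fam := true) (s1 := true) (s2 := false) (a := 0) (b := 2) (c := 3) (cn := .up) (n1 := ndN0q0) (n2 := ndN5q2) (pc := pcN3) (cut := Cut.none) (xt := Ext.none) (P1 := 0) (W1 := 536870912) (P2 := 1073741824) (W2 := 536870912) (P3 := 134217728) (W3 := 67108864) (N0 := 3)
    rfl k0_pm_023

noncomputable def f_pm_033 : ℕ → ℕ → ℕ → ℕ → Bool := onCell 1610612736 536870912 0 1230186008 134217728 67108864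
    (rowN 3 2 true true false .pnn 0 3 3 (qsf 0 536870912 0 1230186008 3) ndN0q0 ndN5q3 pcN3 Cut.none Ext.none)

def k0_pm_033 : ∃ t, chk3 f_pm_033 t 1 1 1 = true :=
  ⟨(a (b (l 1) (b (a (l 1) (b (l 1) (l 18313096))) (b (a (l 1) (l 18344984)) (a (l 18546088) (l 18568632))))) (b (a (l 1) (b (l 4) (a (l 17882328) (a (l 17832528) (l 4))))) (a (b (b (l 237869790919) (l 18045656)) (b (l 18096192) (b (l 18118656) (l 18142200)))) (b (a (l 17958864) (a (l 17743176) (a (l 17706616) (b (l 4) (l 17696552))))) (a (b (l 17879344) (l 17895272)) (b (a (l 17766088) (a (l 17703160) (l 17663880))) (a (l 17765464) (a (l 17695392) (l 17642512))))))))), by decide +kernel⟩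

theorem c_pm_033 : CertN 0 536870912 0 1230186008 134217728 67108864 3 true true false .pnn 0 3 3
    ndN0q0 ndN5q3 pcN3 Cut.none Ext.none :=
  certN2 (fam := true) (s1 := true) (s2 := false) (a := 0) (b := 3) (c := 3) (cn := .pnn) (n1 := ndN0q0) (n2 := ndN5q3) (pc := pcN3) (cut := Cut.none) (xt := Ext.none) (P1 := 0) (W1 := 536870912) (P2 := 0) (W2 := 1230186008) (P3 := 134217728) (W3 := 67108864) (N0 := 3)
    rfl (fun _ => rfl) k0_pm_033

noncomputable def f_pm_101 : ℕ → ℕ → ℕ → ℕ → Bool := onCell 536870912 536870912 536870912 536870912 134217728 67108864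
    (rowN 3 1 true true false .npn 1 0 1 (qsf 536870912 536870912 0 536870912 1) ndN0q1 ndN5q0 pcN1 Cut.none Ext.none)

def k0_pm_101 : ∃ t, chk3 f_pm_101 t 1 2 1 = true :=
  ⟨(a (b (a (b (a (l 3) (a (a (l 3) (l 1)) (l 1))) (a (b (a (l 3) (b (l 3) (a (l 3) (b (l 3) (a (l 3) (b (l 3) (l 352355175847))))))) (a (b (l 3) (a (l 3) (b (l 3) (a (l 3) (l 353428919767))))) (b (a (b (l 3) (a (l 3) (b (l 3) (l 355576396951)))) (b (a (b (l 3) (l 353428915719)) (b (l 341080884823) (l 16838224))) (a (a (l 344838978071) (l 16837392)) (l 16804424)))) (a (b (a (l 352892050935) (b (l 346449567767) (l 16816952))) (a (b (l 344302083815) (l 16817056)) (l 16806544))) (b (l 16810192) (l 16813280)))))) (b (a (b (a (b (l 3) (a (l 3) (b (l 3) (l 352892049095)))) (b (l 1) (l 359200350023))) (a (b (a (b (l 3) (l 352355177303)) (b (l 340007166967) (l 16840136))) (a (b (l 340007165767) (l 16839384)) (l 16801408))) (b (l 16828784) (l 16811296)))) (b (l 1) (a (l 16827632) (l 1)))) (a (b (a (b (l 16829360)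 (l 16811736)) (l 16826536)) (a (l 16847920) (l 16894784))) (l 16859528))))) (a (b (l 1) (b (l 1) (l 16968376))) (l 1))) (a (b (a (b (a (b (a (b (l 3) (a (l 3) (l 352892044487))) (b (a (l 352892046903) (b (l 342154599319) (l 16816912))) (l 264845279335))) (a (b (a (l 353428912647) (l 266992735767)) (l 264308400663)) (l 16828664))) (b (a (b (l 16812960) (l 16815872)) (l 16849440)) (l 16854048))) (a (b (a (l 16834304) (l 16857360)) (l 16823464)) (l 16864560))) (b (a (l 16858096) (l 17032792)) (l 16974664))) (a (b (a (l 16879608) (l 17046640)) (a (l 17066152) (l 17144872))) (b (l 17171216) (l 17262624)))) (a (b (b (l 17174632) (l 17254984)) (l 17379216)) (b (l 17417600) (l 17551896))))) (b (l 1) (a (a (l 179350863767) (l 1)) (l 1)))), by decide +kernel⟩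

def k1_pm_101 : ∃ t, chk3 f_pm_101 t 1 3 1 = true :=
  ⟨(a (b (a (b (a (b (l 17207936) (l 17309656)) (l 17401960)) (a (l 17466680) (l 17587952))) (a (b (l 17542312) (l 17707544)) (l 17769056))) (a (b (a (l 17682840) (l 17783712)) (a (l 17914080) (l 17994888))) (b (l 17943224) (l 18120536)))) (b (a (a (l 17913744) (l 18089928)) (l 134791997175)) (a (a (l 18177880) (l 18317280)) (l 18824616)))), by decide +kernel⟩

theorem s2_pm_101 : ∃ t, chk3 f_pm_101 t 1 1 1 = true := ex3_b k0_pm_101 k1_pm_101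

theorem c_pm_101 : CertN 536870912 536870912 0 536870912 134217728 67108864 3 true true false .npn 1 0 1
    ndN0q1 ndN5q0 pcN1 Cut.none Ext.none :=
  certN1 (fam := true) (s1 := true) (s2 := false) (a := 1) (b := 0) (c := 1) (cn := .npn) (n1 := ndN0q1) (n2 := ndN5q0) (pc := pcN1) (cut := Cut.none) (xt := Ext.none) (P1 := 536870912) (W1 := 536870912) (P2 := 0) (W2 := 536870912) (P3 := 134217728) (W3 := 67108864) (N0 := 3)
    rfl (fun _ => rfl) s2_pm_101

noncomputable def f_pm_102 : ℕ → ℕ → ℕ → ℕ → Bool := onCell 536870912 536870912 1073741824 536870912 134217728 67108864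
    (rowN 3 1 true true false .npp 1 0 2 (qsf 536870912 536870912 0 536870912 2) ndN0q1 ndN5q0 pcN2 Cut.none Ext.none)

def k0_pm_102 : ∃ t, chk3 f_pm_102 t 1 1 1 = true :=
  ⟨(a (b (a (b (b (a (l 18299008) (l 18406560)) (b (b (l 18448880) (l 158481479223)) (b (l 18500208) (l 18528912)))) (b (b (b (l 18555552) (l 2)) (l 2)) (l 2))) (b (b (l 18577016) (b (b (l 18608032) (l 18615688)) (b (l 18624424) (l 18635512)))) (b (b (b (l 18645032) (l 18656816)) (l 18667200)) (l 18699752)))) (a (l 2) (b (a (l 2) (l 18777648)) (l 2)))) (b (a (b (b (l 18823832) (b (b (l 18795616) (l 18786536)) (l 18772808))) (b (b (l 18766568) (l 18754304)) (l 18747784))) (b (b (l 19084904) (b (l 18992240) (l 18940560))) (a (l 18806856) (l 18853928)))) (a (b (a (l 18756064) (l 18726592)) (a (l 2) (l 18701024))) (b (l 18706552) (l 18702784))))), by decide +kernel⟩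

theorem c_pm_102 : CertN 536870912 536870912 0 536870912 134217728 67108864 3 true true false .npp 1 0 2
    ndN0q1 ndN5q0 pcN2 Cut.none Ext.none :=
  certN1 (fam := true) (s1 := true) (s2 := false) (a := 1) (b := 0) (c := 2) (cn := .npp) (n1 := ndN0q1) (n2 := ndN5q0) (pc := pcN2) (cut := Cut.none) (xt := Ext.none) (P1 := 536870912) (W1 := 536870912) (P2 := 0) (W2 := 536870912) (P3 := 134217728) (W3 := 67108864) (N0 := 3)
    rfl (fun _ => rfl) k0_pm_102

noncomputable def f_pm_112 : ℕ → ℕ → ℕ → ℕ → Bool := onCell 536870912 536870912 1073741824 536870912 134217728 67108864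
    (rowN 3 1 true true false .dn 1 1 2 (qsf 536870912 536870912 536870912 536870912 2) ndN0q1 ndN5q1 pcN2 Cut.none Ext.none)

def k0_pm_112 : ∃ t, chk3 f_pm_112 t 1 1 1 = true :=
  ⟨(a (b (a (b (b (l 18350296) (b (b (l 18440048) (l 18464376)) (b (l 18489680) (l 18517336)))) (b (b (b (l 18542744) (l 18571040)) (l 18597048)) (l 18678928))) (b (b (l 1) (b (l 1) (l 18625744))) (b (b (b (l 18636008) (l 18647400)) (l 18654560)) (l 18677112)))) (a (b (l 18829264) (l 19061000)) (b (l 18757320) (l 18867304)))) (b (a (b (l 1) (b (l 1) (l 18731160))) (l 1)) (b (a (l 18720688) (l 18676192)) (a (l 18707216) (l 18537608))))), by decide +kernel⟩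

theorem c_pm_112 : CertN 536870912 536870912 536870912 536870912 134217728 67108864 3 true true false .dn 1 1 2
    ndN0q1 ndN5q1 pcN2 Cut.none Ext.none :=
  certN1 (fam := true) (s1 := true) (s2 := false) (a := 1) (b := 1) (c := 2) (cn := .dn) (n1 := ndN0q1) (n2 := ndN5q1) (pc := pcN2) (cut := Cut.none) (xt := Ext.none) (P1 := 536870912) (W1 := 536870912) (P2 := 536870912) (W2 := 536870912) (P3 := 134217728) (W3 := 67108864) (N0 := 3)
    rfl (fun _ => rfl) k0_pm_112

noncomputable def f_pm_113 : ℕ → ℕ → ℕ → ℕ → Bool := onCell 536870912 536870912 1610612736 536870912 134217728 67108864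
    (rowN 3 1 true true false .nn 1 1 3 (qsf 536870912 536870912 536870912 536870912 3) ndN0q1 ndN5q1 pcN3 Cut.none Ext.none)

def k0_pm_113 : ∃ t, chk3 f_pm_113 t 1 1 1 = true :=
  ⟨(b (a (b (a (l 18904152) (l 18440368)) (a (l 19183800) (a (l 18746648) (l 18516128)))) (b (a (l 18229664) (b (l 18273376) (l 18250576))) (a (l 18321400) (l 18008792)))) (b (a (a (l 2) (b (l 18758472) (l 2))) (a (l 18432752) (l 4))) (a (l 2) (b (l 4) (l 4))))), by decide +kernel⟩

theorem c_pm_113 : CertN 536870912 536870912 536870912 536870912 134217728 67108864 3 true true false .nn 1 1 3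
    ndN0q1 ndN5q1 pcN3 Cut.none Ext.none :=
  certN1 (fam := true) (s1 := true) (s2 := false) (a := 1) (b := 1) (c := 3) (cn := .nn) (n1 := ndN0q1) (n2 := ndN5q1) (pc := pcN3) (cut := Cut.none) (xt := Ext.none) (P1 := 536870912) (W1 := 536870912) (P2 := 536870912) (W2 := 536870912) (P3 := 134217728) (W3 := 67108864) (N0 := 3)
    rfl (fun _ => rfl) k0_pm_113

noncomputable def f_pm_123 : ℕ → ℕ → ℕ → ℕ → Bool := onCell 536870912 536870912 1610612736 536870912 134217728 67108864
    (rowN 3 1 true true false .npn 1 2 3 (qsf 536870912 536870912 1073741824 536870912 3) ndN0q1 ndN5q2 pcN3 Cut.none Ext.none)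

def k0_pm_123 : ∃ t, chk3 f_pm_123 t 1 1 1 = true :=
  ⟨(b (a (a (b (l 18913264) (l 18558592)) (b (a (l 18972048) (l 1)) (b (l 18730120) (l 18542840)))) (b (l 1) (a (b (l 1) (l 18741816)) (l 1)))) (b (a (a (b (l 18285408) (l 18109304)) (b (l 18341584) (l 18158912))) (a (b (l 18476656) (l 18238336)) (l 4))) (a (a (b (l 17923944) (b (l 17785184) (l 17699896))) (b (l 17962144) (l 4))) (b (l 4) (l 4))))), by decide +kernel⟩

theorem c_pm_123 : CertN 536870912 536870912 1073741824 536870912 134217728 67108864 3 true true false .npn 1 2 3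
    ndN0q1 ndN5q2 pcN3 Cut.none Ext.none :=
  certN1 (fam := true) (s1 := true) (s2 := false) (a := 1) (b := 2) (c := 3) (cn := .npn) (n1 := ndN0q1) (n2 := ndN5q2) (pc := pcN3) (cut := Cut.none) (xt := Ext.none) (P1 := 536870912) (W1 := 536870912) (P2 := 1073741824) (W2 := 536870912) (P3 := 134217728) (W3 := 67108864) (N0 := 3)
    rfl (fun _ => rfl) k0_pm_123

noncomputable def f_pm_133 : ℕ → ℕ → ℕ → ℕ → Bool := onCell 536870912 536870912 0 1230186008 134217728 67108864
    (rowN 3 0 true true false .dn 1 3 3 (qsf 536870912 536870912 0 1230186008 3) ndN0q1 ndN5q3 pcN3 Cut.none Ext.none)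

def k0_pm_133 : ∃ t, chk3 f_pm_133 t 1 1 1 = true :=
  ⟨(b (l 2) (b (l 2) (a (b (l 2) (l 4)) (l 2)))), by decide +kernel⟩

theorem c_pm_133 : CertN 536870912 536870912 0 1230186008 134217728 67108864 3 true true false .dn 1 3 3
    ndN0q1 ndN5q3 pcN3 Cut.none Ext.none :=
  certN0 (fam := true) (s1 := true) (s2 := false) (a := 1) (b := 3) (c := 3) (cn := .dn) (n1 := ndN0q1) (n2 := ndN5q3) (pc := pcN3) (cut := Cut.none) (xt := Ext.none) (P1 := 536870912) (W1 := 536870912) (P2 := 0) (W2 := 1230186008) (P3 := 134217728) (W3 := 67108864) (N0 := 3)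
    rfl k0_pm_133

noncomputable def f_pm_202 : ℕ → ℕ → ℕ → ℕ → Bool := onCell 0 536870912 0 536870912 134217728 67108864
    (rowN 3 0 true true false .pp 2 0 2 (qsf 0 536870912 0 536870912 2) ndN0q2 ndN5q0 pcN2 Cut.none Ext.none)

def k0_pm_202 : ∃ t, chk3 f_pm_202 t 1 1 1 = true :=
  ⟨(a (l 4) (a (b (b (b (l 19000752) (l 18820736)) (l 18629152)) (l 4)) (b (b (l 19185264) (l 18802192)) (b (b (l 18598992) (l 18475784)) (a (l 4) (l 18377720)))))), by decide +kernel⟩

theorem c_pm_202 : CertN 0 536870912 0 536870912 134217728 67108864 3 true true false .pp 2 0 2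
    ndN0q2 ndN5q0 pcN2 Cut.none Ext.none :=
  certN0 (fam := true) (s1 := true) (s2 := false) (a := 2) (b := 0) (c := 2) (cn := .pp) (n1 := ndN0q2) (n2 := ndN5q0) (pc := pcN2) (cut := Cut.none) (xt := Ext.none) (P1 := 0) (W1 := 536870912) (P2 := 0) (W2 := 536870912) (P3 := 134217728) (W3 := 67108864) (N0 := 3)
    rfl k0_pm_202

noncomputable def f_pm_203 : ℕ → ℕ → ℕ → ℕ → Bool := onCell 0 536870912 1610612736 536870912 134217728 67108864
    (rowN 3 1 true true false .up 2 0 3 (qsf 0 536870912 0 536870912 3) ndN0q2 ndN5q0 pcN3 Cut.none Ext.none)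

def k0_pm_203 : ∃ t, chk3 f_pm_203 t 1 1 1 = true :=
  ⟨(a (l 4) (b (l 4) (l 2))), by decide +kernel⟩

theorem c_pm_203 : CertN 0 536870912 0 536870912 134217728 67108864 3 true true false .up 2 0 3
    ndN0q2 ndN5q0 pcN3 Cut.none Ext.none :=
  certN1 (fam := true) (s1 := true) (s2 := false) (a := 2) (b := 0) (c := 3) (cn := .up) (n1 := ndN0q2) (n2 := ndN5q0) (pc := pcN3) (cut := Cut.none) (xt := Ext.none) (P1 := 0) (W1 := 536870912) (P2 := 0) (W2 := 536870912) (P3 := 134217728) (W3 := 67108864) (N0 := 3)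
    rfl (fun _ => rfl) k0_pm_203

noncomputable def f_pm_213 : ℕ → ℕ → ℕ → ℕ → Bool := onCell 0 536870912 536870912 536870912 134217728 67108864
    (rowN 3 0 true true false .pnn 2 1 3 (qsf 0 536870912 536870912 536870912 3) ndN0q2 ndN5q1 pcN3 Cut.none Ext.none)

def k0_pm_213 : ∃ t, chk3 f_pm_213 t 1 1 1 = true :=
  ⟨(a (l 4) (b (l 4) (l 4))), by decide +kernel⟩

theorem c_pm_213 : CertN 0 536870912 536870912 536870912 134217728 67108864 3 true true false .pnn 2 1 3
    ndN0q2 ndN5q1 pcN3 Cut.none Ext.none :=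
  certN0 (fam := true) (s1 := true) (s2 := false) (a := 2) (b := 1) (c := 3) (cn := .pnn) (n1 := ndN0q2) (n2 := ndN5q1) (pc := pcN3) (cut := Cut.none) (xt := Ext.none) (P1 := 0) (W1 := 536870912) (P2 := 536870912) (W2 := 536870912) (P3 := 134217728) (W3 := 67108864) (N0 := 3)
    rfl k0_pm_213

noncomputable def f_mm_001 : ℕ → ℕ → ℕ → ℕ → Bool := onCell 0 536870912 0 536870912 134217728 67108864
    (rowN 3 0 true false false .up 0 0 1 (qsf 0 536870912 0 536870912 1) ndN0q0 ndN5q0 pcN1 Cut.none Ext.none)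

def k0_mm_001 : ∃ t, chk3 f_mm_001 t 1 1 1 = true :=
  ⟨(l 4), by decide +kernel⟩

theorem c_mm_001 : CertN 0 536870912 0 536870912 134217728 67108864 3 true false false .up 0 0 1
    ndN0q0 ndN5q0 pcN1 Cut.none Ext.none :=
  certN0 (fam := true) (s1 := false) (s2 := false) (a := 0) (b := 0) (c := 1) (cn := .up) (n1 := ndN0q0) (n2 := ndN5q0) (pc := pcN1) (cut := Cut.none) (xt := Ext.none) (P1 := 0) (W1 := 536870912) (P2 := 0) (W2 := 536870912) (P3 := 134217728) (W3 := 67108864) (N0 := 3)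
    rfl k0_mm_001

noncomputable def f_mm_011 : ℕ → ℕ → ℕ → ℕ → Bool := onCell 0 536870912 536870912 536870912 134217728 67108864
    (rowN 3 0 true false false .pnn 0 1 1 (qsf 0 536870912 536870912 536870912 1) ndN0q0 ndN5q1 pcN1 Cut.none Ext.none)

def k0_mm_011 : ∃ t, chk3 f_mm_011 t 1 1 1 = true :=
  ⟨(l 4), by decide +kernel⟩

theorem c_mm_011 : CertN 0 536870912 536870912 536870912 134217728 67108864 3 true false false .pnn 0 1 1
    ndN0q0 ndN5q1 pcN1 Cut.none Ext.none :=
  certN0 (fam := true) (s1 := false) (s2 := false) (a := 0) (b := 1) (c := 1) (cn := .pnn) (n1 := ndN0q0) (n2 := ndN5q1) (pc := pcN1) (cut := Cut.none) (xt := Ext.none) (P1 := 0) (W1 := 536870912) (P2 := 536870912) (W2 := 536870912) (P3 := 134217728) (W3 := 67108864) (N0 := 3)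
    rfl k0_mm_011

noncomputable def f_mm_012 : ℕ → ℕ → ℕ → ℕ → Bool := onCell 0 536870912 536870912 536870912 134217728 67108864
    (rowN 3 0 true false false .pnp 0 1 2 (qsf 0 536870912 536870912 536870912 2) ndN0q0 ndN5q1 pcN2 Cut.none Ext.none)

def k0_mm_012 : ∃ t, chk3 f_mm_012 t 1 1 1 = true :=
  ⟨(l 4), by decide +kernel⟩

theorem c_mm_012 : CertN 0 536870912 536870912 536870912 134217728 67108864 3 true false false .pnp 0 1 2
    ndN0q0 ndN5q1 pcN2 Cut.none Ext.none :=
  certN0 (fam := true) (s1 := false) (s2 := false) (a := 0) (b := 1) (c := 2) (cn := .pnp) (n1 := ndN0q0) (n2 := ndN5q1) (pc := pcN2) (cut := Cut.none) (xt := Ext.none) (P1 := 0) (W1 := 536870912) (P2 := 536870912) (W2 := 536870912) (P3 := 134217728) (W3 := 67108864) (N0 := 3)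
    rfl k0_mm_012

noncomputable def f_mm_022 : ℕ → ℕ → ℕ → ℕ → Bool := onCell 0 536870912 1073741824 536870912 134217728 67108864
    (rowN 3 0 true false false .pp 0 2 2 (qsf 0 536870912 1073741824 536870912 2) ndN0q0 ndN5q2 pcN2 Cut.none Ext.none)

def k0_mm_022 : ∃ t, chk3 f_mm_022 t 1 1 1 = true :=
  ⟨(l 4), by decide +kernel⟩

theorem c_mm_022 : CertN 0 536870912 1073741824 536870912 134217728 67108864 3 true false false .pp 0 2 2
    ndN0q0 ndN5q2 pcN2 Cut.none Ext.none :=
  certN0 (fam := true) (s1 := false) (s2 := false) (a := 0) (b := 2) (c := 2) (cn := .pp) (n1 := ndN0q0) (n2 := ndN5q2) (pc := pcN2) (cut := Cut.none) (xt := Ext.none) (P1 := 0) (W1 := 536870912) (P2 := 1073741824) (W2 := 536870912) (P3 := 134217728) (W3 := 67108864) (N0 := 3)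
    rfl k0_mm_022

noncomputable def f_mm_023 : ℕ → ℕ → ℕ → ℕ → Bool := onCell 0 536870912 1073741824 536870912 134217728 67108864
    (rowN 3 0 true false false .up 0 2 3 (qsf 0 536870912 1073741824 536870912 3) ndN0q0 ndN5q2 pcN3 Cut.none Ext.none)

def k0_mm_023 : ∃ t, chk3 f_mm_023 t 1 1 1 = true :=
  ⟨(l 4), by decide +kernel⟩

theorem c_mm_023 : CertN 0 536870912 1073741824 536870912 134217728 67108864 3 true false false .up 0 2 3
    ndN0q0 ndN5q2 pcN3 Cut.none Ext.none :=
  certN0 (fam := true) (s1 := false) (s2 := false) (a := 0) (b := 2) (c := 3) (cn := .up) (n1 := ndN0q0) (n2 := ndN5q2) (pc := pcN3) (cut := Cut.none) (xt := Ext.none) (P1 := 0) (W1 := 536870912) (P2 := 1073741824) (W2 := 536870912) (P3 := 134217728) (W3 := 67108864) (N0 := 3)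
    rfl k0_mm_023

noncomputable def f_mm_033 : ℕ → ℕ → ℕ → ℕ → Bool := onCell 0 536870912 0 1230186008 134217728 67108864
    (rowN 3 0 true false false .pnn 0 3 3 (qsf 0 536870912 0 1230186008 3) ndN0q0 ndN5q3 pcN3 Cut.none Ext.none)

def k0_mm_033 : ∃ t, chk3 f_mm_033 t 1 1 1 = true :=
  ⟨(l 4), by decide +kernel⟩

theorem c_mm_033 : CertN 0 536870912 0 1230186008 134217728 67108864 3 true false false .pnn 0 3 3
    ndN0q0 ndN5q3 pcN3 Cut.none Ext.none :=
  certN0 (fam := true) (s1 := false) (s2 := false) (a := 0) (b := 3) (c := 3) (cn := .pnn) (n1 := ndN0q0) (n2 := ndN5q3) (pc := pcN3) (cut := Cut.none) (xt := Ext.none) (P1 := 0) (W1 := 536870912) (P2 := 0) (W2 := 1230186008) (P3 := 134217728) (W3 := 67108864) (N0 := 3)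
    rfl k0_mm_033

noncomputable def f_mm_101 : ℕ → ℕ → ℕ → ℕ → Bool := onCell 536870912 536870912 0 536870912 134217728 67108864
    (rowN 3 0 true false false .npn 1 0 1 (qsf 536870912 536870912 0 536870912 1) ndN0q1 ndN5q0 pcN1 Cut.none Ext.none)

def k0_mm_101 : ∃ t, chk3 f_mm_101 t 1 1 1 = true :=
  ⟨(l 4), by decide +kernel⟩

theorem c_mm_101 : CertN 536870912 536870912 0 536870912 134217728 67108864 3 true false false .npn 1 0 1
    ndN0q1 ndN5q0 pcN1 Cut.none Ext.none :=
  certN0 (fam := true) (s1 := false) (s2 := false) (a := 1) (b := 0) (c := 1) (cn := .npn) (n1 := ndN0q1) (n2 := ndN5q0) (pc := pcN1) (cut := Cut.none) (xt := Ext.none) (P1 := 536870912) (W1 := 536870912) (P2 := 0) (W2 := 536870912) (P3 := 134217728) (W3 := 67108864) (N0 := 3)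
    rfl k0_mm_101

noncomputable def f_mm_102 : ℕ → ℕ → ℕ → ℕ → Bool := onCell 536870912 536870912 0 536870912 134217728 67108864
    (rowN 3 0 true false false .npp 1 0 2 (qsf 536870912 536870912 0 536870912 2) ndN0q1 ndN5q0 pcN2 Cut.none Ext.none)

def k0_mm_102 : ∃ t, chk3 f_mm_102 t 1 1 1 = true :=
  ⟨(l 4), by decide +kernel⟩

theorem c_mm_102 : CertN 536870912 536870912 0 536870912 134217728 67108864 3 true false false .npp 1 0 2
    ndN0q1 ndN5q0 pcN2 Cut.none Ext.none :=
  certN0 (fam := true) (s1 := false) (s2 := false) (a := 1) (b := 0) (c := 2) (cn := .npp) (n1 := ndN0q1) (n2 := ndN5q0) (pc := pcN2) (cut := Cut.none) (xt := Ext.none) (P1 := 536870912) (W1 := 536870912) (P2 := 0) (W2 := 536870912) (P3 := 134217728) (W3 := 67108864) (N0 := 3)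
    rfl k0_mm_102

noncomputable def f_mm_112 : ℕ → ℕ → ℕ → ℕ → Bool := onCell 536870912 536870912 536870912 536870912 134217728 67108864
    (rowN 3 0 true false false .dn 1 1 2 (qsf 536870912 536870912 536870912 536870912 2) ndN0q1 ndN5q1 pcN2 Cut.none Ext.none)

def k0_mm_112 : ∃ t, chk3 f_mm_112 t 1 1 1 = true :=
  ⟨(l 4), by decide +kernel⟩

theorem c_mm_112 : CertN 536870912 536870912 536870912 536870912 134217728 67108864 3 true false false .dn 1 1 2
    ndN0q1 ndN5q1 pcN2 Cut.none Ext.none :=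
  certN0 (fam := true) (s1 := false) (s2 := false) (a := 1) (b := 1) (c := 2) (cn := .dn) (n1 := ndN0q1) (n2 := ndN5q1) (pc := pcN2) (cut := Cut.none) (xt := Ext.none) (P1 := 536870912) (W1 := 536870912) (P2 := 536870912) (W2 := 536870912) (P3 := 134217728) (W3 := 67108864) (N0 := 3)
    rfl k0_mm_112

noncomputable def f_mm_113 : ℕ → ℕ → ℕ → ℕ → Bool := onCell 536870912 536870912 536870912 536870912 134217728 67108864
    (rowN 3 0 true false false .nn 1 1 3 (qsf 536870912 536870912 536870912 536870912 3) ndN0q1 ndN5q1 pcN3 Cut.none Ext.none)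

def k0_mm_113 : ∃ t, chk3 f_mm_113 t 1 1 1 = true :=
  ⟨(l 4), by decide +kernel⟩

theorem c_mm_113 : CertN 536870912 536870912 536870912 536870912 134217728 67108864 3 true false false .nn 1 1 3
    ndN0q1 ndN5q1 pcN3 Cut.none Ext.none :=
  certN0 (fam := true) (s1 := false) (s2 := false) (a := 1) (b := 1) (c := 3) (cn := .nn) (n1 := ndN0q1) (n2 := ndN5q1) (pc := pcN3) (cut := Cut.none) (xt := Ext.none) (P1 := 536870912) (W1 := 536870912) (P2 := 536870912) (W2 := 536870912) (P3 := 134217728) (W3 := 67108864) (N0 := 3)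
    rfl k0_mm_113

noncomputable def f_mm_123 : ℕ → ℕ → ℕ → ℕ → Bool := onCell 536870912 536870912 1073741824 536870912 134217728 67108864
    (rowN 3 0 true false false .npn 1 2 3 (qsf 536870912 536870912 1073741824 536870912 3) ndN0q1 ndN5q2 pcN3 Cut.none Ext.none)

def k0_mm_123 : ∃ t, chk3 f_mm_123 t 1 1 1 = true :=
  ⟨(l 4), by decide +kernel⟩

theorem c_mm_123 : CertN 536870912 536870912 1073741824 536870912 134217728 67108864 3 true false false .npn 1 2 3
    ndN0q1 ndN5q2 pcN3 Cut.none Ext.none :=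
  certN0 (fam := true) (s1 := false) (s2 := false) (a := 1) (b := 2) (c := 3) (cn := .npn) (n1 := ndN0q1) (n2 := ndN5q2) (pc := pcN3) (cut := Cut.none) (xt := Ext.none) (P1 := 536870912) (W1 := 536870912) (P2 := 1073741824) (W2 := 536870912) (P3 := 134217728) (W3 := 67108864) (N0 := 3)
    rfl k0_mm_123

noncomputable def f_mm_133 : ℕ → ℕ → ℕ → ℕ → Bool := onCell 536870912 536870912 0 1230186008 134217728 67108864
    (rowN 3 0 true false false .dn 1 3 3 (qsf 536870912 536870912 0 1230186008 3) ndN0q1 ndN5q3 pcN3 Cut.none Ext.none)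

def k0_mm_133 : ∃ t, chk3 f_mm_133 t 1 1 1 = true :=
  ⟨(l 4), by decide +kernel⟩

theorem c_mm_133 : CertN 536870912 536870912 0 1230186008 134217728 67108864 3 true false false .dn 1 3 3
    ndN0q1 ndN5q3 pcN3 Cut.none Ext.none :=
  certN0 (fam := true) (s1 := false) (s2 := false) (a := 1) (b := 3) (c := 3) (cn := .dn) (n1 := ndN0q1) (n2 := ndN5q3) (pc := pcN3) (cut := Cut.none) (xt := Ext.none) (P1 := 536870912) (W1 := 536870912) (P2 := 0) (W2 := 1230186008) (P3 := 134217728) (W3 := 67108864) (N0 := 3)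
    rfl k0_mm_133

noncomputable def f_mm_202 : ℕ → ℕ → ℕ → ℕ → Bool := onCell 0 536870912 0 536870912 134217728 67108864
    (rowN 3 0 true false false .pp 2 0 2 (qsf 0 536870912 0 536870912 2) ndN0q2 ndN5q0 pcN2 Cut.none Ext.none)

def k0_mm_202 : ∃ t, chk3 f_mm_202 t 1 1 1 = true :=
  ⟨(l 4), by decide +kernel⟩

theorem c_mm_202 : CertN 0 536870912 0 536870912 134217728 67108864 3 true false false .pp 2 0 2
    ndN0q2 ndN5q0 pcN2 Cut.none Ext.none :=
  certN0 (fam := true) (s1 := false) (s2 := false) (a := 2) (b := 0) (c := 2) (cn := .pp) (n1 := ndN0q2) (n2 := ndN5q0) (pc := pcN2) (cut := Cut.none) (xt := Ext.none) (P1 := 0) (W1 := 536870912) (P2 := 0) (W2 := 536870912) (P3 := 134217728) (W3 := 67108864) (N0 := 3)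
    rfl k0_mm_202

noncomputable def f_mm_203 : ℕ → ℕ → ℕ → ℕ → Bool := onCell 0 536870912 0 536870912 134217728 67108864
    (rowN 3 0 true false false .up 2 0 3 (qsf 0 536870912 0 536870912 3) ndN0q2 ndN5q0 pcN3 Cut.none Ext.none)

def k0_mm_203 : ∃ t, chk3 f_mm_203 t 1 1 1 = true :=
  ⟨(l 4), by decide +kernel⟩

theorem c_mm_203 : CertN 0 536870912 0 536870912 134217728 67108864 3 true false false .up 2 0 3
    ndN0q2 ndN5q0 pcN3 Cut.none Ext.none :=
  certN0 (fam := true) (s1 := false) (s2 := false) (a := 2) (b := 0) (c := 3) (cn := .up) (n1 := ndN0q2) (n2 := ndN5q0) (pc := pcN3) (cut := Cut.none) (xt := Ext.none) (P1 := 0) (W1 := 536870912) (P2 := 0) (W2 := 536870912) (P3 := 134217728) (W3 := 67108864) (N0 := 3)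
    rfl k0_mm_203

noncomputable def f_mm_213 : ℕ → ℕ → ℕ → ℕ → Bool := onCell 0 536870912 536870912 536870912 134217728 67108864
    (rowN 3 0 true false false .pnn 2 1 3 (qsf 0 536870912 536870912 536870912 3) ndN0q2 ndN5q1 pcN3 Cut.none Ext.none)

def k0_mm_213 : ∃ t, chk3 f_mm_213 t 1 1 1 = true :=
  ⟨(l 4), by decide +kernel⟩

theorem c_mm_213 : CertN 0 536870912 536870912 536870912 134217728 67108864 3 true false false .pnn 2 1 3
    ndN0q2 ndN5q1 pcN3 Cut.none Ext.none :=
  certN0 (fam := true) (s1 := false) (s2 := false) (a := 2) (b := 1) (c := 3) (cn := .pnn) (n1 := ndN0q2) (n2 := ndN5q1) (pc := pcN3) (cut := Cut.none) (xt := Ext.none) (P1 := 0) (W1 := 536870912) (P2 := 536870912) (W2 := 536870912) (P3 := 134217728) (W3 := 67108864) (N0 := 3)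
    rfl k0_mm_213

end Pool.Agent.Strip051.G.I1_8_3_16.Tab.C.NA05

namespace Pool.Agent.Strip051.G.I1_8_3_16.Tab.C.NA11

open Pool.Agent.Strip051.PB Pool.Agent.Strip051.PB.T
open Pool.Agent.Strip051.G.I1_8_3_16.Tab

noncomputable def f_pp_001 : ℕ → ℕ → ℕ → ℕ → Bool := onCell 0 536870912 0 536870912 134217728 67108864
    (rowN 3 0 true true true .up 0 0 1 (qsf 0 536870912 0 536870912 1) ndN1q0 ndN1q0 pcN1 Cut.none Ext.none)

def k0_pp_001 : ∃ t, chk3 f_pp_001 t 1 1 1 = true :=
  ⟨(l 4), by decide +kernel⟩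

theorem c_pp_001 : CertN 0 536870912 0 536870912 134217728 67108864 3 true true true .up 0 0 1
    ndN1q0 ndN1q0 pcN1 Cut.none Ext.none :=
  certN0 (fam := true) (s1 := true) (s2 := true) (a := 0) (b := 0) (c := 1) (cn := .up) (n1 := ndN1q0) (n2 := ndN1q0) (pc := pcN1) (cut := Cut.none) (xt := Ext.none) (P1 := 0) (W1 := 536870912) (P2 := 0) (W2 := 536870912) (P3 := 134217728) (W3 := 67108864) (N0 := 3)
    rfl k0_pp_001

noncomputable def f_pp_011 : ℕ → ℕ → ℕ → ℕ → Bool := onCell 0 536870912 536870912 536870912 134217728 67108864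
    (rowN 3 0 true true true .pnn 0 1 1 (qsf 0 536870912 536870912 536870912 1) ndN1q0 ndN1q1 pcN1 Cut.none Ext.none)

def k0_pp_011 : ∃ t, chk3 f_pp_011 t 1 1 1 = true :=
  ⟨(l 4), by decide +kernel⟩

theorem c_pp_011 : CertN 0 536870912 536870912 536870912 134217728 67108864 3 true true true .pnn 0 1 1
    ndN1q0 ndN1q1 pcN1 Cut.none Ext.none :=
  certN0 (fam := true) (s1 := true) (s2 := true) (a := 0) (b := 1) (c := 1) (cn := .pnn) (n1 := ndN1q0) (n2 := ndN1q1) (pc := pcN1) (cut := Cut.none) (xt := Ext.none) (P1 := 0) (W1 := 536870912) (P2 := 536870912) (W2 := 536870912) (P3 := 134217728) (W3 := 67108864) (N0 := 3)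
    rfl k0_pp_011

noncomputable def f_pp_012 : ℕ → ℕ → ℕ → ℕ → Bool := onCell 0 536870912 536870912 536870912 134217728 67108864
    (rowN 3 0 true true true .pnp 0 1 2 (qsf 0 536870912 536870912 536870912 2) ndN1q0 ndN1q1 pcN2 Cut.none Ext.none)

def k0_pp_012 : ∃ t, chk3 f_pp_012 t 1 1 1 = true :=
  ⟨(l 4), by decide +kernel⟩

theorem c_pp_012 : CertN 0 536870912 536870912 536870912 134217728 67108864 3 true true true .pnp 0 1 2
    ndN1q0 ndN1q1 pcN2 Cut.none Ext.none :=
  certN0 (fam := true) (s1 := true) (s2 := true) (a := 0) (b := 1) (c := 2) (cn := .pnp) (n1 := ndN1q0) (n2 := ndN1q1) (pc := pcN2) (cut := Cut.none) (xt := Ext.none) (P1 := 0) (W1 := 536870912) (P2 := 536870912) (W2 := 536870912) (P3 := 134217728) (W3 := 67108864) (N0 := 3)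
    rfl k0_pp_012

noncomputable def cut_pp_022_a : Cut := Cut.of [[⟨0, 0, 0, 67108864⟩, ⟨1, 1, 0, 67108864⟩, ⟨2, 1, 0, 67108864⟩]]

noncomputable def f_pp_022_a : ℕ → ℕ → ℕ → ℕ → Bool := onCell 0 536870912 0 536870912 134217728 67108864
    (rowN 3 0 true true true .pp 0 2 2 (qsf 0 536870912 0 536870912 2) ndN1q0 ndN1q2a pcN2 cut_pp_022_a Ext.none)

def k0_pp_022_a : ∃ t, chk3 f_pp_022_a t 1 1 1 = true :=
  ⟨(a (b (a (a (a (b (a (c (b (l 17028768) (a (l 16867272) (l 17005232))) (b (l 16517376) (l 16529112))) (c (l 17187992) (l 16562592))) (a (b (c (a (l 16652992) (l 16824192)) (l 16568112)) (c (a (l 16603336) (l 16581208)) (a (l 16592592) (l 16571064)))) (b (l 16666992) (l 16616936)))) (b (a (l 17058984) (l 17174144)) (b (l 16761856) (a (l 16716664) (l 16902904))))) (b (a (l 17265376) (l 17297304)) (a (b (l 17168256) (l 17054232)) (l 4)))) (a (b (l 17251376) (l 4)) (l 4))) (a (b (a (b (a (a (a (c (b (l 16602152) (l 16638528)) (b (l 16593368) (l 16610120))) (c (l 16629976)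 (l 16622576))) (a (l 16646824) (l 16625624))) (a (l 16673552) (l 16692584))) (a (a (a (b (c (a (l 16656008) (l 16634672)) (l 16649728)) (c (a (b (l 16649240) (l 16659416)) (l 16653976)) (a (l 16670352) (l 16649472)))) (c (b (l 16634136) (l 16653464)) (l 16681096))) (a (c (l 16685688) (l 16681848)) (l 16710152))) (b (a (l 16639392) (l 4)) (l 4)))) (l 4)) (a (a (a (b (b (a (a (c (b (l 16680664) (a (l 16692184) (l 16681536))) (a (l 16693168) (l 16693232))) (c (l 16696512) (l 16693312))) (c (l 16696096) (l 16693560))) (b (a (a (l 6) (a (l 6) (l 16713440))) (c (l 16715480) (l 16713840))) (a (l 6) (c (l 16731320) (l 16730088))))) (l 6)) (b (b (a (l 16721552) (l 4)) (l 4)) (l 4))) (l 4)) (l 4))) (l 4))) (l 4)), by decide +kernel⟩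

theorem c_pp_022_a : CertN 0 536870912 0 536870912 134217728 67108864 3 true true true .pp 0 2 2
    ndN1q0 ndN1q2a pcN2 cut_pp_022_a Ext.none :=
  certN0 (fam := true) (s1 := true) (s2 := true) (a := 0) (b := 2) (c := 2) (cn := .pp) (n1 := ndN1q0) (n2 := ndN1q2a) (pc := pcN2) (cut := cut_pp_022_a) (xt := Ext.none) (P1 := 0) (W1 := 536870912) (P2 := 0) (W2 := 536870912) (P3 := 134217728) (W3 := 67108864) (N0 := 3)
    rfl k0_pp_022_a

noncomputable def cut_pp_022_b : Cut := Cut.of [[⟨0, 0, 0, 67108864⟩, ⟨1, 1, 0, 67108864⟩, ⟨2, 1, 0, 67108864⟩]]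

noncomputable def f_pp_022_b : ℕ → ℕ → ℕ → ℕ → Bool := onCell 0 536870912 1239849684 370763052 134217728 67108864
    (rowN 3 0 true true true .pp 0 2 2 (qsf 0 536870912 1239849684 370763052 2) ndN1q0 ndN1q2b pcN2 cut_pp_022_b Ext.none)

def k0_pp_022_b : ∃ t, chk3 f_pp_022_b t 1 1 1 = true :=
  ⟨(a (b (a (b (a (a (b (a (b (c (a (l 17186192) (l 17280568)) (l 16521560)) (c (l 17551416) (l 16917216))) (c (l 17515936) (l 16955448))) (a (c (l 17898656) (l 17253352)) (l 17497776))) (b (a (l 17239600) (l 17409688)) (l 17720768))) (a (b (l 17454224) (l 17708224)) (b (l 17452808) (l 17658072)))) (a (a (b (c (l 18195536) (l 17775224)) (l 18200168)) (b (l 17960024) (l 18124600))) (b (l 18066488) (l 17977808)))) (b (a (b (l 17406576) (l 4)) (l 4)) (l 4))) (a (a (b (a (b (l 18336656) (l 18414936)) (l 18265128)) (a (l 18451456) (l 4))) (l 4)) (l 4))) (l 4)), by decide +kernel⟩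

theorem c_pp_022_b : CertN 0 536870912 1239849684 370763052 134217728 67108864 3 true true true .pp 0 2 2
    ndN1q0 ndN1q2b pcN2 cut_pp_022_b Ext.none :=
  certN0 (fam := true) (s1 := true) (s2 := true) (a := 0) (b := 2) (c := 2) (cn := .pp) (n1 := ndN1q0) (n2 := ndN1q2b) (pc := pcN2) (cut := cut_pp_022_b) (xt := Ext.none) (P1 := 0) (W1 := 536870912) (P2 := 1239849684) (W2 := 370763052) (P3 := 134217728) (W3 := 67108864) (N0 := 3)
    rfl k0_pp_022_b

noncomputable def f_pp_023_a : ℕ → ℕ → ℕ → ℕ → Bool := onCell 1610612736 536870912 0 536870912 134217728 67108864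
    (rowN 3 2 true true true .up 0 2 3 (qsf 0 536870912 0 536870912 3) ndN1q0 ndN1q2a pcN3 Cut.none Ext.none)

def k0_pp_023_a : ∃ t, chk3 f_pp_023_a t 1 1 1 = true :=
  ⟨(l 4), by decide +kernel⟩

theorem c_pp_023_a : CertN 0 536870912 0 536870912 134217728 67108864 3 true true true .up 0 2 3
    ndN1q0 ndN1q2a pcN3 Cut.none Ext.none :=
  certN2 (fam := true) (s1 := true) (s2 := true) (a := 0) (b := 2) (c := 3) (cn := .up) (n1 := ndN1q0) (n2 := ndN1q2a) (pc := pcN3) (cut := Cut.none) (xt := Ext.none) (P1 := 0) (W1 := 536870912) (P2 := 0) (W2 := 536870912) (P3 := 134217728) (W3 := 67108864) (N0 := 3)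
    rfl (fun _ => rfl) k0_pp_023_a

noncomputable def f_pp_023_b : ℕ → ℕ → ℕ → ℕ → Bool := onCell 1610612736 536870912 1239849684 370763052 134217728 67108864
    (rowN 3 2 true true true .up 0 2 3 (qsf 0 536870912 1239849684 370763052 3) ndN1q0 ndN1q2b pcN3 Cut.none Ext.none)

def k0_pp_023_b : ∃ t, chk3 f_pp_023_b t 1 1 1 = true :=
  ⟨(a (l 4) (l 4)), by decide +kernel⟩

theorem c_pp_023_b : CertN 0 536870912 1239849684 370763052 134217728 67108864 3 true true true .up 0 2 3
    ndN1q0 ndN1q2b pcN3 Cut.none Ext.none :=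
  certN2 (fam := true) (s1 := true) (s2 := true) (a := 0) (b := 2) (c := 3) (cn := .up) (n1 := ndN1q0) (n2 := ndN1q2b) (pc := pcN3) (cut := Cut.none) (xt := Ext.none) (P1 := 0) (W1 := 536870912) (P2 := 1239849684) (W2 := 370763052) (P3 := 134217728) (W3 := 67108864) (N0 := 3)
    rfl (fun _ => rfl) k0_pp_023_b

noncomputable def f_pp_033 : ℕ → ℕ → ℕ → ℕ → Bool := onCell 0 536870912 1610612736 536870912 134217728 67108864
    (rowN 3 0 true true true .pnn 0 3 3 (qsf 0 536870912 1610612736 536870912 3) ndN1q0 ndN1q3 pcN3 Cut.none Ext.none)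

def k0_pp_033 : ∃ t, chk3 f_pp_033 t 1 1 1 = true :=
  ⟨(a (b (l 4) (l 4)) (l 4)), by decide +kernel⟩

theorem c_pp_033 : CertN 0 536870912 1610612736 536870912 134217728 67108864 3 true true true .pnn 0 3 3
    ndN1q0 ndN1q3 pcN3 Cut.none Ext.none :=
  certN0 (fam := true) (s1 := true) (s2 := true) (a := 0) (b := 3) (c := 3) (cn := .pnn) (n1 := ndN1q0) (n2 := ndN1q3) (pc := pcN3) (cut := Cut.none) (xt := Ext.none) (P1 := 0) (W1 := 536870912) (P2 := 1610612736) (W2 := 536870912) (P3 := 134217728) (W3 := 67108864) (N0 := 3)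
    rfl k0_pp_033

noncomputable def f_pp_101 : ℕ → ℕ → ℕ → ℕ → Bool := onCell 536870912 536870912 0 536870912 134217728 67108864
    (rowN 3 0 true true true .npn 1 0 1 (qsf 536870912 536870912 0 536870912 1) ndN1q1 ndN1q0 pcN1 Cut.none Ext.none)

def k0_pp_101 : ∃ t, chk3 f_pp_101 t 1 1 1 = true :=
  ⟨(l 4), by decide +kernel⟩

theorem c_pp_101 : CertN 536870912 536870912 0 536870912 134217728 67108864 3 true true true .npn 1 0 1
    ndN1q1 ndN1q0 pcN1 Cut.none Ext.none :=
  certN0 (fam := true) (s1 := true) (s2 := true) (a := 1) (b := 0) (c := 1) (cn := .npn) (n1 := ndN1q1) (n2 := ndN1q0) (pc := pcN1) (cut := Cut.none) (xt := Ext.none) (P1 := 536870912) (W1 := 536870912) (P2 := 0) (W2 := 536870912) (P3 := 134217728) (W3 := 67108864) (N0 := 3)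
    rfl k0_pp_101

noncomputable def f_pp_102 : ℕ → ℕ → ℕ → ℕ → Bool := onCell 536870912 536870912 0 536870912 134217728 67108864
    (rowN 3 0 true true true .npp 1 0 2 (qsf 536870912 536870912 0 536870912 2) ndN1q1 ndN1q0 pcN2 Cut.none Ext.none)

def k0_pp_102 : ∃ t, chk3 f_pp_102 t 1 1 1 = true :=
  ⟨(l 4), by decide +kernel⟩

theorem c_pp_102 : CertN 536870912 536870912 0 536870912 134217728 67108864 3 true true true .npp 1 0 2
    ndN1q1 ndN1q0 pcN2 Cut.none Ext.none :=
  certN0 (fam := true) (s1 := true) (s2 := true) (a := 1) (b := 0) (c := 2) (cn := .npp) (n1 := ndN1q1) (n2 := ndN1q0) (pc := pcN2) (cut := Cut.none) (xt := Ext.none) (P1 := 536870912) (W1 := 536870912) (P2 := 0) (W2 := 536870912) (P3 := 134217728) (W3 := 67108864) (N0 := 3)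
    rfl k0_pp_102

noncomputable def f_pp_112 : ℕ → ℕ → ℕ → ℕ → Bool := onCell 536870912 536870912 536870912 536870912 134217728 67108864
    (rowN 3 0 true true true .dn 1 1 2 (qsf 536870912 536870912 536870912 536870912 2) ndN1q1 ndN1q1 pcN2 Cut.none Ext.none)

def k0_pp_112 : ∃ t, chk3 f_pp_112 t 1 1 1 = true :=
  ⟨(l 4), by decide +kernel⟩

theorem c_pp_112 : CertN 536870912 536870912 536870912 536870912 134217728 67108864 3 true true true .dn 1 1 2
    ndN1q1 ndN1q1 pcN2 Cut.none Ext.none :=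
  certN0 (fam := true) (s1 := true) (s2 := true) (a := 1) (b := 1) (c := 2) (cn := .dn) (n1 := ndN1q1) (n2 := ndN1q1) (pc := pcN2) (cut := Cut.none) (xt := Ext.none) (P1 := 536870912) (W1 := 536870912) (P2 := 536870912) (W2 := 536870912) (P3 := 134217728) (W3 := 67108864) (N0 := 3)
    rfl k0_pp_112

noncomputable def f_pp_113 : ℕ → ℕ → ℕ → ℕ → Bool := onCell 536870912 536870912 536870912 536870912 134217728 67108864
    (rowN 3 0 true true true .nn 1 1 3 (qsf 536870912 536870912 536870912 536870912 3) ndN1q1 ndN1q1 pcN3 Cut.none Ext.none)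

def k0_pp_113 : ∃ t, chk3 f_pp_113 t 1 1 1 = true :=
  ⟨(l 4), by decide +kernel⟩

theorem c_pp_113 : CertN 536870912 536870912 536870912 536870912 134217728 67108864 3 true true true .nn 1 1 3
    ndN1q1 ndN1q1 pcN3 Cut.none Ext.none :=
  certN0 (fam := true) (s1 := true) (s2 := true) (a := 1) (b := 1) (c := 3) (cn := .nn) (n1 := ndN1q1) (n2 := ndN1q1) (pc := pcN3) (cut := Cut.none) (xt := Ext.none) (P1 := 536870912) (W1 := 536870912) (P2 := 536870912) (W2 := 536870912) (P3 := 134217728) (W3 := 67108864) (N0 := 3)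
    rfl k0_pp_113

noncomputable def f_pp_123_a : ℕ → ℕ → ℕ → ℕ → Bool := onCell 536870912 536870912 0 536870912 134217728 67108864
    (rowN 3 0 true true true .npn 1 2 3 (qsf 536870912 536870912 0 536870912 3) ndN1q1 ndN1q2a pcN3 Cut.none Ext.none)

def k0_pp_123_a : ∃ t, chk3 f_pp_123_a t 1 1 1 = true :=
  ⟨(l 4), by decide +kernel⟩

theorem c_pp_123_a : CertN 536870912 536870912 0 536870912 134217728 67108864 3 true true true .npn 1 2 3
    ndN1q1 ndN1q2a pcN3 Cut.none Ext.none :=
  certN0 (fam := true) (s1 := true) (s2 := true) (a := 1) (b := 2) (c := 3) (cn := .npn) (n1 := ndN1q1) (n2 := ndN1q2a) (pc := pcN3) (cut := Cut.none) (xt := Ext.none) (P1 := 536870912) (W1 := 536870912) (P2 := 0) (W2 := 536870912) (P3 := 134217728) (W3 := 67108864) (N0 := 3)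
    rfl k0_pp_123_a

noncomputable def f_pp_123_b : ℕ → ℕ → ℕ → ℕ → Bool := onCell 536870912 536870912 1239849684 370763052 134217728 67108864
    (rowN 3 0 true true true .npn 1 2 3 (qsf 536870912 536870912 1239849684 370763052 3) ndN1q1 ndN1q2b pcN3 Cut.none Ext.none)

def k0_pp_123_b : ∃ t, chk3 f_pp_123_b t 1 1 1 = true :=
  ⟨(l 4), by decide +kernel⟩

theorem c_pp_123_b : CertN 536870912 536870912 1239849684 370763052 134217728 67108864 3 true true true .npn 1 2 3
    ndN1q1 ndN1q2b pcN3 Cut.none Ext.none :=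
  certN0 (fam := true) (s1 := true) (s2 := true) (a := 1) (b := 2) (c := 3) (cn := .npn) (n1 := ndN1q1) (n2 := ndN1q2b) (pc := pcN3) (cut := Cut.none) (xt := Ext.none) (P1 := 536870912) (W1 := 536870912) (P2 := 1239849684) (W2 := 370763052) (P3 := 134217728) (W3 := 67108864) (N0 := 3)
    rfl k0_pp_123_b

noncomputable def f_pp_133 : ℕ → ℕ → ℕ → ℕ → Bool := onCell 536870912 536870912 1610612736 536870912 134217728 67108864
    (rowN 3 0 true true true .dn 1 3 3 (qsf 536870912 536870912 1610612736 536870912 3) ndN1q1 ndN1q3 pcN3 Cut.none Ext.none)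

def k0_pp_133 : ∃ t, chk3 f_pp_133 t 1 1 1 = true :=
  ⟨(l 4), by decide +kernel⟩

theorem c_pp_133 : CertN 536870912 536870912 1610612736 536870912 134217728 67108864 3 true true true .dn 1 3 3
    ndN1q1 ndN1q3 pcN3 Cut.none Ext.none :=
  certN0 (fam := true) (s1 := true) (s2 := true) (a := 1) (b := 3) (c := 3) (cn := .dn) (n1 := ndN1q1) (n2 := ndN1q3) (pc := pcN3) (cut := Cut.none) (xt := Ext.none) (P1 := 536870912) (W1 := 536870912) (P2 := 1610612736) (W2 := 536870912) (P3 := 134217728) (W3 := 67108864) (N0 := 3)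
    rfl k0_pp_133

noncomputable def f_pp_202_a : ℕ → ℕ → ℕ → ℕ → Bool := onCell 0 536870912 0 536870912 134217728 67108864
    (rowN 3 0 true true true .pp 2 0 2 (qsf 0 536870912 0 536870912 2) ndN1q2a ndN1q0 pcN2 Cut.none Ext.none)

def k0_pp_202_a : ∃ t, chk3 f_pp_202_a t 1 1 1 = true :=
  ⟨(l 5), by decide +kernel⟩

theorem c_pp_202_a : CertN 0 536870912 0 536870912 134217728 67108864 3 true true true .pp 2 0 2
    ndN1q2a ndN1q0 pcN2 Cut.none Ext.none :=
  certN0 (fam := true) (s1 := true) (s2 := true) (a := 2) (b := 0) (c := 2) (cn := .pp) (n1 := ndN1q2a) (n2 := ndN1q0) (pc := pcN2) (cut := Cut.none) (xt := Ext.none) (P1 := 0) (W1 := 536870912) (P2 := 0) (W2 := 536870912) (P3 := 134217728) (W3 := 67108864) (N0 := 3)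
    rfl k0_pp_202_a

noncomputable def f_pp_202_b : ℕ → ℕ → ℕ → ℕ → Bool := onCell 1239849684 370763052 0 536870912 134217728 67108864
    (rowN 3 0 true true true .pp 2 0 2 (qsf 1239849684 370763052 0 536870912 2) ndN1q2b ndN1q0 pcN2 Cut.none Ext.none)

def k0_pp_202_b : ∃ t, chk3 f_pp_202_b t 1 1 1 = true :=
  ⟨(l 5), by decide +kernel⟩

theorem c_pp_202_b : CertN 1239849684 370763052 0 536870912 134217728 67108864 3 true true true .pp 2 0 2
    ndN1q2b ndN1q0 pcN2 Cut.none Ext.none :=
  certN0 (fam := true) (s1 := true) (s2 := true) (a := 2) (b := 0) (c := 2) (cn := .pp) (n1 := ndN1q2b) (n2 := ndN1q0) (pc := pcN2) (cut := Cut.none) (xt := Ext.none) (P1 := 1239849684) (W1 := 370763052) (P2 := 0) (W2 := 536870912) (P3 := 134217728) (W3 := 67108864) (N0 := 3)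
    rfl k0_pp_202_b

noncomputable def f_pp_203_a : ℕ → ℕ → ℕ → ℕ → Bool := onCell 0 536870912 0 536870912 134217728 67108864
    (rowN 3 0 true true true .up 2 0 3 (qsf 0 536870912 0 536870912 3) ndN1q2a ndN1q0 pcN3 Cut.none Ext.none)

def k0_pp_203_a : ∃ t, chk3 f_pp_203_a t 1 1 1 = true :=
  ⟨(l 5), by decide +kernel⟩

theorem c_pp_203_a : CertN 0 536870912 0 536870912 134217728 67108864 3 true true true .up 2 0 3
    ndN1q2a ndN1q0 pcN3 Cut.none Ext.none :=
  certN0 (fam := true) (s1 := true) (s2 := true) (a := 2) (b := 0) (c := 3) (cn := .up) (n1 := ndN1q2a) (n2 := ndN1q0) (pc := pcN3) (cut := Cut.none) (xt := Ext.none) (P1 := 0) (W1 := 536870912) (P2 := 0) (W2 := 536870912) (P3 := 134217728) (W3 := 67108864) (N0 := 3)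
    rfl k0_pp_203_a

noncomputable def f_pp_203_b : ℕ → ℕ → ℕ → ℕ → Bool := onCell 1239849684 370763052 0 536870912 134217728 67108864
    (rowN 3 0 true true true .up 2 0 3 (qsf 1239849684 370763052 0 536870912 3) ndN1q2b ndN1q0 pcN3 Cut.none Ext.none)

def k0_pp_203_b : ∃ t, chk3 f_pp_203_b t 1 1 1 = true :=
  ⟨(l 5), by decide +kernel⟩

theorem c_pp_203_b : CertN 1239849684 370763052 0 536870912 134217728 67108864 3 true true true .up 2 0 3
    ndN1q2b ndN1q0 pcN3 Cut.none Ext.none :=
  certN0 (fam := true) (s1 := true) (s2 := true) (a := 2) (b := 0) (c := 3) (cn := .up) (n1 := ndN1q2b) (n2 := ndN1q0) (pc := pcN3) (cut := Cut.none) (xt := Ext.none) (P1 := 1239849684) (W1 := 370763052) (P2 := 0) (W2 := 536870912) (P3 := 134217728) (W3 := 67108864) (N0 := 3)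
    rfl k0_pp_203_b

noncomputable def f_pp_213_a : ℕ → ℕ → ℕ → ℕ → Bool := onCell 0 536870912 536870912 536870912 134217728 67108864
    (rowN 3 0 true true true .pnn 2 1 3 (qsf 0 536870912 536870912 536870912 3) ndN1q2a ndN1q1 pcN3 Cut.none Ext.none)

def k0_pp_213_a : ∃ t, chk3 f_pp_213_a t 1 1 1 = true :=
  ⟨(l 4), by decide +kernel⟩

theorem c_pp_213_a : CertN 0 536870912 536870912 536870912 134217728 67108864 3 true true true .pnn 2 1 3
    ndN1q2a ndN1q1 pcN3 Cut.none Ext.none :=
  certN0 (fam := true) (s1 := true) (s2 := true) (a := 2) (b := 1) (c := 3) (cn := .pnn) (n1 := ndN1q2a) (n2 := ndN1q1) (pc := pcN3) (cut := Cut.none) (xt := Ext.none) (P1 := 0) (W1 := 536870912) (P2 := 536870912) (W2 := 536870912) (P3 := 134217728) (W3 := 67108864) (N0 := 3)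
    rfl k0_pp_213_a

noncomputable def f_pp_213_b : ℕ → ℕ → ℕ → ℕ → Bool := onCell 1239849684 370763052 536870912 536870912 134217728 67108864
    (rowN 3 0 true true true .pnn 2 1 3 (qsf 1239849684 370763052 536870912 536870912 3) ndN1q2b ndN1q1 pcN3 Cut.none Ext.none)

def k0_pp_213_b : ∃ t, chk3 f_pp_213_b t 1 1 1 = true :=
  ⟨(l 4), by decide +kernel⟩

theorem c_pp_213_b : CertN 1239849684 370763052 536870912 536870912 134217728 67108864 3 true true true .pnn 2 1 3
    ndN1q2b ndN1q1 pcN3 Cut.none Ext.none :=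
  certN0 (fam := true) (s1 := true) (s2 := true) (a := 2) (b := 1) (c := 3) (cn := .pnn) (n1 := ndN1q2b) (n2 := ndN1q1) (pc := pcN3) (cut := Cut.none) (xt := Ext.none) (P1 := 1239849684) (W1 := 370763052) (P2 := 536870912) (W2 := 536870912) (P3 := 134217728) (W3 := 67108864) (N0 := 3)
    rfl k0_pp_213_b

noncomputable def f_pp_303 : ℕ → ℕ → ℕ → ℕ → Bool := onCell 1610612736 536870912 0 536870912 134217728 67108864
    (rowN 3 0 true true true .npn 3 0 3 (qsf 1610612736 536870912 0 536870912 3) ndN1q3 ndN1q0 pcN3 Cut.none Ext.none)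

def k0_pp_303 : ∃ t, chk3 f_pp_303 t 1 1 1 = true :=
  ⟨(l 5), by decide +kernel⟩

theorem c_pp_303 : CertN 1610612736 536870912 0 536870912 134217728 67108864 3 true true true .npn 3 0 3
    ndN1q3 ndN1q0 pcN3 Cut.none Ext.none :=
  certN0 (fam := true) (s1 := true) (s2 := true) (a := 3) (b := 0) (c := 3) (cn := .npn) (n1 := ndN1q3) (n2 := ndN1q0) (pc := pcN3) (cut := Cut.none) (xt := Ext.none) (P1 := 1610612736) (W1 := 536870912) (P2 := 0) (W2 := 536870912) (P3 := 134217728) (W3 := 67108864) (N0 := 3)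
    rfl k0_pp_303

noncomputable def f_pp_313 : ℕ → ℕ → ℕ → ℕ → Bool := onCell 1610612736 536870912 536870912 536870912 134217728 67108864
    (rowN 3 0 true true true .dn 3 1 3 (qsf 1610612736 536870912 536870912 536870912 3) ndN1q3 ndN1q1 pcN3 Cut.none Ext.none)

def k0_pp_313 : ∃ t, chk3 f_pp_313 t 1 1 1 = true :=
  ⟨(l 4), by decide +kernel⟩

theorem c_pp_313 : CertN 1610612736 536870912 536870912 536870912 134217728 67108864 3 true true true .dn 3 1 3
    ndN1q3 ndN1q1 pcN3 Cut.none Ext.none :=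
  certN0 (fam := true) (s1 := true) (s2 := true) (a := 3) (b := 1) (c := 3) (cn := .dn) (n1 := ndN1q3) (n2 := ndN1q1) (pc := pcN3) (cut := Cut.none) (xt := Ext.none) (P1 := 1610612736) (W1 := 536870912) (P2 := 536870912) (W2 := 536870912) (P3 := 134217728) (W3 := 67108864) (N0 := 3)
    rfl k0_pp_313

noncomputable def f_pm_001 : ℕ → ℕ → ℕ → ℕ → Bool := onCell 0 536870912 0 536870912 134217728 67108864
    (rowN 3 0 true true false .up 0 0 1 (qsf 0 536870912 0 536870912 1) ndN1q0 ndN1q0 pcN1 Cut.none Ext.none)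

def k0_pm_001 : ∃ t, chk3 f_pm_001 t 1 1 1 = true :=
  ⟨(l 3), by decide +kernel⟩

theorem c_pm_001 : CertN 0 536870912 0 536870912 134217728 67108864 3 true true false .up 0 0 1
    ndN1q0 ndN1q0 pcN1 Cut.none Ext.none :=
  certN0 (fam := true) (s1 := true) (s2 := false) (a := 0) (b := 0) (c := 1) (cn := .up) (n1 := ndN1q0) (n2 := ndN1q0) (pc := pcN1) (cut := Cut.none) (xt := Ext.none) (P1 := 0) (W1 := 536870912) (P2 := 0) (W2 := 536870912) (P3 := 134217728) (W3 := 67108864) (N0 := 3)
    rfl k0_pm_001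

noncomputable def f_pm_011 : ℕ → ℕ → ℕ → ℕ → Bool := onCell 0 536870912 536870912 536870912 134217728 67108864
    (rowN 3 1 true true false .pnn 0 1 1 (qsf 0 536870912 536870912 536870912 1) ndN1q0 ndN1q1 pcN1 Cut.none Ext.none)

def k0_pm_011 : ∃ t, chk3 f_pm_011 t 1 1 1 = true :=
  ⟨(l 3), by decide +kernel⟩

theorem c_pm_011 : CertN 0 536870912 536870912 536870912 134217728 67108864 3 true true false .pnn 0 1 1
    ndN1q0 ndN1q1 pcN1 Cut.none Ext.none :=
  certN1 (fam := true) (s1 := true) (s2 := false) (a := 0) (b := 1) (c := 1) (cn := .pnn) (n1 := ndN1q0) (n2 := ndN1q1) (pc := pcN1) (cut := Cut.none) (xt := Ext.none) (P1 := 0) (W1 := 536870912) (P2 := 536870912) (W2 := 536870912) (P3 := 134217728) (W3 := 67108864) (N0 := 3)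
    rfl (fun _ => rfl) k0_pm_011

noncomputable def f_pm_012 : ℕ → ℕ → ℕ → ℕ → Bool := onCell 1073741824 536870912 536870912 536870912 134217728 67108864
    (rowN 3 2 true true false .pnp 0 1 2 (qsf 0 536870912 536870912 536870912 2) ndN1q0 ndN1q1 pcN2 Cut.none Ext.none)

def k0_pm_012 : ∃ t, chk3 f_pm_012 t 1 1 1 = true :=
  ⟨(a (a (l 3) (b (a (a (a (l 3) (a (l 3) (l 164988119607))) (l 17029696)) (l 17087832)) (a (a (a (l 3) (a (l 3) (b (l 17260808) (a (b (l 17174336) (l 16993032)) (b (l 17187352) (l 17130944)))))) (b (l 17226752) (b (l 17245312) (l 16945264)))) (b (l 17299920) (b (l 17388904) (l 17303656)))))) (b (a (l 17183256) (l 2)) (b (a (l 17419624) (l 17499120)) (a (b (l 17584824) (l 17678328)) (l 17755120))))), by decide +kernel⟩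

theorem c_pm_012 : CertN 0 536870912 536870912 536870912 134217728 67108864 3 true true false .pnp 0 1 2
    ndN1q0 ndN1q1 pcN2 Cut.none Ext.none :=
  certN2 (fam := true) (s1 := true) (s2 := false) (a := 0) (b := 1) (c := 2) (cn := .pnp) (n1 := ndN1q0) (n2 := ndN1q1) (pc := pcN2) (cut := Cut.none) (xt := Ext.none) (P1 := 0) (W1 := 536870912) (P2 := 536870912) (W2 := 536870912) (P3 := 134217728) (W3 := 67108864) (N0 := 3)
    rfl (fun _ => rfl) k0_pm_012

noncomputable def cut_pm_022_a : Cut := Cut.of [[⟨0, 0, 0, 67108864⟩, ⟨1, 1, 0, 67108864⟩, ⟨2, 1, 0, 67108864⟩]]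

noncomputable def f_pm_022_a : ℕ → ℕ → ℕ → ℕ → Bool := onCell 1073741824 536870912 0 536870912 134217728 67108864
    (rowN 3 2 true true false .pp 0 2 2 (qsf 0 536870912 0 536870912 2) ndN1q0 ndN1q2a pcN2 cut_pm_022_a Ext.none)

def k0_pm_022_a : ∃ t, chk3 f_pm_022_a t 2 2 1 = true :=
  ⟨(a (b (l 1) (a (l 1) (a (l 1) (a (l 1) (a (l 1) (b (l 1) (b (l 1) (c (a (l 128345282471) (l 139619559943)) (l 159483800631))))))))) (a (a (a (b (l 1) (a (b (l 1) (c (b (l 148746384359) (l 185253600311)) (b (l 151430711399) (l 16554456)))) (b (c (b (l 112239154087) (l 151967593191)) (l 134787710215)) (c (b (l 16547008) (l 16544800)) (b (l 16541696) (l 16530576)))))) (a (b (a (l 1) (b (l 1) (c (l 113849856055) (l 16514520)))) (b (c (b (a (l 16578016) (l 16676632)) (l 16622368)) (l 157873141751)) (c (b (l 16615720) (l 16610808)) (l 16538448)))) (b (a (b (l 1) (c (b (l 16776792) (l 16772584)) (l 16507344))) (b (a (c (l 16845664) (l 16480464)) (c (b (l 16888544) (l 16885768)) (l 16497880))) (a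 (c (l 16838000) (l 16501568)) (c (b (l 16881120) (l 16874920)) (l 16518864))))) (a (b (c (l 16762472) (l 16508512)) (l 16535648)) (b (a (c (l 16824088) (l 16481680)) (c (l 16863152) (l 16498864))) (a (l 16529704) (l 16611056))))))) (b (a (c (a (b (l 16983400) (l 16973600)) (l 17111536)) (b (l 16508704) (l 16508768))) (b (l 16862552) (l 16835872))) (a (b (c (l 17026488) (l 16509648)) (a (l 16569216) (l 16723928))) (b (l 16929896) (l 16916600))))) (a (b (a (l 17045160) (l 17304160)) (a (b (l 17134304) (l 17115416)) (l 17275768))) (b (l 17464960) (l 17438040))))), by decide +kernel⟩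

def k1_pm_022_a : ∃ t, chk3 f_pm_022_a t 4 6 1 = true :=
  ⟨(a (l 1) (a (a (b (l 1) (b (l 1) (a (l 1) (b (c (a (l 1) (l 106870574135)) (l 106870576615)) (c (c (a (l 146599042375) (l 172368842439)) (l 171295113335)) (a (l 129956054855) (l 163778904327))))))) (b (l 1) (a (a (b (l 1) (b (c (l 138545956359) (l 138545951287)) (c (l 16643224) (l 16619768)))) (b (a (l 1) (c (l 114923614247) (l 108481156247))) (c (b (c (l 183106236439) (l 16627600)) (l 16633896)) (b (l 175590041191) (l 16610648))))) (b (a (b (l 1) (c (l 149283348615) (l 153041440135))) (c (b (l 124587271527) (l 16606944)) (l 156799524551))) (c (a (b (l 16624744) (l 16606344)) (l 16619152)) (b (l 16636408) (l 16626728))))))) (a (a (b (b (l 1) (a (c (l 104186155239) (l 103112401959)) (c (b (l 1) (l 139619627767)) (l 120292268967)))) (a (b (c (b (l 169147542055) (l 16589088)) (l 187938021623)) (b (l 16612072) (l 16607184))) (b (c (l 16596248) (l 16597784)) (l 16620616)))) (b (a (b (l 1) (c (b (l 140156485047) (l 16585320))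 (l 154115120791))) (b (c (l 112776060599) (l 116534141543)) (c (l 183106148375) (l 16576624)))) (b (c (l 16604544) (l 16610752)) (l 16640352)))) (b (a (b (c (a (l 119755369623) (l 157336320775)) (l 141767089991)) (c (l 16591128) (l 16583008))) (b (c (l 195454168967) (l 16568208)) (c (l 16567136) (l 16563208)))) (b (c (l 16638760) (a (l 16569976) (l 16571008))) (a (l 16599248) (l 16599944))))))), by decide +kernel⟩

def k2_pm_022_a : ∃ t, chk3 f_pm_022_a t 4 7 1 = true :=
  ⟨(a (a (b (l 1) (l 6)) (a (b (b (l 1) (l 6)) (l 6)) (a (b (b (l 1) (l 6)) (l 6)) (b (b (b (l 1) (b (a (l 1) (c (a (l 117071201943) (l 161631484663)) (l 144451621031))) (a (l 6) (c (c (l 16668456) (l 16667376)) (l 16665752))))) (a (l 6) (a (l 6) (b (l 16670344) (l 16667344))))) (b (l 16685720) (l 16737624)))))) (a (a (b (b (a (b (a (c (c (l 140693498199) (l 141230366439)) (l 142304104231)) (c (b (l 144451590535) (l 208339229383)) (l 171295134279))) (a (c (c (l 16665232) (l 16658912)) (l 16667784)) (c (l 16650752)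 (l 16648752)))) (b (c (c (l 16647896) (l 16657240)) (l 16645056)) (l 16651952))) (a (c (l 16680008) (l 16659176)) (l 16661720))) (b (l 16698856) (l 16740368))) (a (b (b (b (c (l 16661896) (l 16660824)) (l 16677952)) (l 16726424)) (b (l 16702128) (l 16743728))) (b (b (b (l 16663976) (l 16639280)) (l 16666744)) (b (l 16705352) (l 16746968))))) (a (b (b (c (l 16717184) (l 16729560)) (l 16765368)) (a (l 16768960) (l 16749488))) (b (b (l 16691728) (l 16665552)) (a (l 16729824) (l 16731024)))))), by decide +kernel⟩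

def k3_pm_022_a : ∃ t, chk3 f_pm_022_a t 5 3 1 = true :=
  ⟨(a (a (a (b (b (a (c (l 16570480) (l 16582576)) (b (l 16557056) (l 16539920))) (c (l 16663408) (l 16669944))) (b (l 16735424) (a (l 16732184) (l 16733424)))) (b (a (b (l 16590520) (l 16586928)) (b (a (l 16528888) (l 16656744)) (a (l 16588264) (l 16632128)))) (a (b (l 16655576) (l 16735056)) (b (a (l 16657008) (l 16658864)) (l 16843616))))) (b (b (a (l 16652240) (l 16904592)) (l 16731440)) (b (l 16801872) (l 16864856)))) (b (a (b (l 17171936) (l 17149744)) (b (l 17398120) (l 17365176))) (a (b (l 17138080) (l 17144632)) (b (l 17334728) (l 17313768))))), by decide +kernel⟩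

def k4_pm_022_a : ∃ t, chk3 f_pm_022_a t 3 1 1 = true :=
  ⟨(b (a (a (b (l 17638384) (l 17622048)) (l 17706336)) (l 17909856)) (a (b (a (l 17566648) (l 17668032)) (a (l 17494680) (l 17595552))) (b (l 17671992) (l 17617416)))), by decide +kernel⟩

theorem s5_pm_022_a : ∃ t, chk3 f_pm_022_a t 4 3 1 = true := ex3_b k1_pm_022_a k2_pm_022_a

theorem s6_pm_022_a : ∃ t, chk3 f_pm_022_a t 2 3 1 = true := ex3_a s5_pm_022_a k3_pm_022_a

theorem s7_pm_022_a : ∃ t, chk3 f_pm_022_a t 2 1 1 = true := ex3_b k0_pm_022_a s6_pm_022_a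

theorem s8_pm_022_a : ∃ t, chk3 f_pm_022_a t 1 1 1 = true := ex3_a s7_pm_022_a k4_pm_022_a

theorem c_pm_022_a : CertN 0 536870912 0 536870912 134217728 67108864 3 true true false .pp 0 2 2
    ndN1q0 ndN1q2a pcN2 cut_pm_022_a Ext.none :=
  certN2 (fam := true) (s1 := true) (s2 := false) (a := 0) (b := 2) (c := 2) (cn := .pp) (n1 := ndN1q0) (n2 := ndN1q2a) (pc := pcN2) (cut := cut_pm_022_a) (xt := Ext.none) (P1 := 0) (W1 := 536870912) (P2 := 0) (W2 := 536870912) (P3 := 134217728) (W3 := 67108864) (N0 := 3)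
    rfl (fun _ => rfl) s8_pm_022_a

noncomputable def cut_pm_022_b : Cut := Cut.of [[⟨0, 0, 0, 67108864⟩, ⟨1, 1, 0, 67108864⟩, ⟨2, 1, 0, 67108864⟩]]

noncomputable def f_pm_022_b : ℕ → ℕ → ℕ → ℕ → Bool := onCell 0 536870912 1073741824 536870912 134217728 67108864
    (rowN 3 1 true true false .pp 0 2 2 (qsf 0 536870912 1239849684 370763052 2) ndN1q0 ndN1q2b pcN2 cut_pm_022_b Ext.none)

def k0_pm_022_b : ∃ t, chk3 f_pm_022_b t 1 1 1 = true :=
  ⟨(a (b (a (b (l 1) (b (a (b (b (l 1) (b (l 1) (a (a (b (l 1) (b (l 1) (c (l 16877000) (l 16501392)))) (l 1)) (l 1)))) (a (a (b (c (a (l 17048576) (l 17051056)) (l 16508560)) (c (l 17336120) (l 16614632))) (b (l 16637216) (l 16865960))) (b (l 1) (l 16916768)))) (l 1)) (a (a (b (c (b (l 17534152) (l 17720536)) (b (l 16890072) (l 17125712))) (c (l 17943632) (b (l 17324648) (l 17489384)))) (b (c (l 17513584) (l 16963904)) (l 17571216))) (b (a (l 17167688) (l 1)) (l 17420648))))) (l 1)) (b (a (a (b (c (l 18188536) (l 17758680)) (l 18272424))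 (b (l 17747088) (l 18045736))) (a (l 223374168519) (b (l 1) (l 17588144)))) (a (l 18610904) (l 17976128)))) (b (l 1) (b (l 1) (a (b (l 17459536) (l 17618256)) (l 1))))), by decide +kernel⟩

theorem c_pm_022_b : CertN 0 536870912 1239849684 370763052 134217728 67108864 3 true true false .pp 0 2 2
    ndN1q0 ndN1q2b pcN2 cut_pm_022_b Ext.none :=
  certN1 (fam := true) (s1 := true) (s2 := false) (a := 0) (b := 2) (c := 2) (cn := .pp) (n1 := ndN1q0) (n2 := ndN1q2b) (pc := pcN2) (cut := cut_pm_022_b) (xt := Ext.none) (P1 := 0) (W1 := 536870912) (P2 := 1239849684) (W2 := 370763052) (P3 := 134217728) (W3 := 67108864) (N0 := 3)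
    rfl (fun _ => rfl) k0_pm_022_b

noncomputable def f_pm_023_a : ℕ → ℕ → ℕ → ℕ → Bool := onCell 0 536870912 0 536870912 134217728 67108864
    (rowN 3 0 true true false .up 0 2 3 (qsf 0 536870912 0 536870912 3) ndN1q0 ndN1q2a pcN3 Cut.none Ext.none)

def k0_pm_023_a : ∃ t, chk3 f_pm_023_a t 1 1 1 = true :=
  ⟨(a (l 1) (a (b (a (l 1) (l 17858832)) (l 212637022519)) (b (b (l 17722288) (l 17843656)) (b (l 17884328) (l 17891000))))), by decide +kernel⟩

theorem c_pm_023_a : CertN 0 536870912 0 536870912 134217728 67108864 3 true true false .up 0 2 3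
    ndN1q0 ndN1q2a pcN3 Cut.none Ext.none :=
  certN0 (fam := true) (s1 := true) (s2 := false) (a := 0) (b := 2) (c := 3) (cn := .up) (n1 := ndN1q0) (n2 := ndN1q2a) (pc := pcN3) (cut := Cut.none) (xt := Ext.none) (P1 := 0) (W1 := 536870912) (P2 := 0) (W2 := 536870912) (P3 := 134217728) (W3 := 67108864) (N0 := 3)
    rfl k0_pm_023_a

noncomputable def f_pm_023_b : ℕ → ℕ → ℕ → ℕ → Bool := onCell 1610612736 536870912 1239849684 370763052 134217728 67108864
    (rowN 3 2 true true false .up 0 2 3 (qsf 0 536870912 1239849684 370763052 3) ndN1q0 ndN1q2b pcN3 Cut.none Ext.none)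

def k0_pm_023_b : ∃ t, chk3 f_pm_023_b t 1 1 1 = true :=
  ⟨(a (a (b (a (l 17890296) (l 17777584)) (a (l 18150048) (l 18077936))) (a (l 18027000) (b (l 17590600) (l 17865880)))) (a (l 4) (l 4))), by decide +kernel⟩

theorem c_pm_023_b : CertN 0 536870912 1239849684 370763052 134217728 67108864 3 true true false .up 0 2 3
    ndN1q0 ndN1q2b pcN3 Cut.none Ext.none :=
  certN2 (fam := true) (s1 := true) (s2 := false) (a := 0) (b := 2) (c := 3) (cn := .up) (n1 := ndN1q0) (n2 := ndN1q2b) (pc := pcN3) (cut := Cut.none) (xt := Ext.none) (P1 := 0) (W1 := 536870912) (P2 := 1239849684) (W2 := 370763052) (P3 := 134217728) (W3 := 67108864) (N0 := 3)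
    rfl (fun _ => rfl) k0_pm_023_b

noncomputable def f_pm_033 : ℕ → ℕ → ℕ → ℕ → Bool := onCell 0 536870912 1610612736 536870912 134217728 67108864
    (rowN 3 1 true true false .pnn 0 3 3 (qsf 0 536870912 1610612736 536870912 3) ndN1q0 ndN1q3 pcN3 Cut.none Ext.none)

def k0_pm_033 : ∃ t, chk3 f_pm_033 t 1 1 1 = true :=
  ⟨(b (b (a (b (l 18142456) (l 18021080)) (l 1)) (a (b (l 18042656) (l 18044336)) (l 305515098759))) (b (l 4) (l 4))), by decide +kernel⟩

theorem c_pm_033 : CertN 0 536870912 1610612736 536870912 134217728 67108864 3 true true false .pnn 0 3 3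
    ndN1q0 ndN1q3 pcN3 Cut.none Ext.none :=
  certN1 (fam := true) (s1 := true) (s2 := false) (a := 0) (b := 3) (c := 3) (cn := .pnn) (n1 := ndN1q0) (n2 := ndN1q3) (pc := pcN3) (cut := Cut.none) (xt := Ext.none) (P1 := 0) (W1 := 536870912) (P2 := 1610612736) (W2 := 536870912) (P3 := 134217728) (W3 := 67108864) (N0 := 3)
    rfl (fun _ => rfl) k0_pm_033

noncomputable def f_pm_101 : ℕ → ℕ → ℕ → ℕ → Bool := onCell 536870912 536870912 0 536870912 134217728 67108864
    (rowN 3 2 true true false .npn 1 0 1 (qsf 536870912 536870912 0 536870912 1) ndN1q1 ndN1q0 pcN1 Cut.none Ext.none)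

def k0_pm_101 : ∃ t, chk3 f_pm_101 t 1 1 1 = true :=
  ⟨(l 3), by decide +kernel⟩

theorem c_pm_101 : CertN 536870912 536870912 0 536870912 134217728 67108864 3 true true false .npn 1 0 1
    ndN1q1 ndN1q0 pcN1 Cut.none Ext.none :=
  certN2 (fam := true) (s1 := true) (s2 := false) (a := 1) (b := 0) (c := 1) (cn := .npn) (n1 := ndN1q1) (n2 := ndN1q0) (pc := pcN1) (cut := Cut.none) (xt := Ext.none) (P1 := 536870912) (W1 := 536870912) (P2 := 0) (W2 := 536870912) (P3 := 134217728) (W3 := 67108864) (N0 := 3)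
    rfl (fun _ => rfl) k0_pm_101

noncomputable def f_pm_102 : ℕ → ℕ → ℕ → ℕ → Bool := onCell 536870912 536870912 1073741824 536870912 134217728 67108864
    (rowN 3 1 true true false .npp 1 0 2 (qsf 536870912 536870912 0 536870912 2) ndN1q1 ndN1q0 pcN2 Cut.none Ext.none)

def k0_pm_102 : ∃ t, chk3 f_pm_102 t 1 1 1 = true :=
  ⟨(b (b (l 3) (a (b (b (b (l 3) (b (l 3) (l 164988119607))) (l 17029696)) (l 17087832)) (b (b (b (l 3) (b (l 3) (a (l 17260808) (b (a (l 17174336) (l 16993032)) (a (l 17187352) (l 17109968)))))) (a (l 17226752) (a (l 17245312) (l 16945264)))) (a (l 17299920) (a (l 17388904) (l 17303656)))))) (a (b (l 17183256) (l 2)) (a (a (l 17421136) (l 17529408)) (a (l 17655432) (l 18011184))))), by decide +kernel⟩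

theorem c_pm_102 : CertN 536870912 536870912 0 536870912 134217728 67108864 3 true true false .npp 1 0 2
    ndN1q1 ndN1q0 pcN2 Cut.none Ext.none :=
  certN1 (fam := true) (s1 := true) (s2 := false) (a := 1) (b := 0) (c := 2) (cn := .npp) (n1 := ndN1q1) (n2 := ndN1q0) (pc := pcN2) (cut := Cut.none) (xt := Ext.none) (P1 := 536870912) (W1 := 536870912) (P2 := 0) (W2 := 536870912) (P3 := 134217728) (W3 := 67108864) (N0 := 3)
    rfl (fun _ => rfl) k0_pm_102

noncomputable def f_pm_112 : ℕ → ℕ → ℕ → ℕ → Bool := onCell 536870912 536870912 1073741824 536870912 134217728 67108864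
    (rowN 3 1 true true false .dn 1 1 2 (qsf 536870912 536870912 536870912 536870912 2) ndN1q1 ndN1q1 pcN2 Cut.none Ext.none)

def k0_pm_112 : ∃ t, chk3 f_pm_112 t 1 1 1 = true :=
  ⟨(b (b (l 3) (b (a (b (b (l 3) (b (l 3) (l 17583280))) (l 17556584)) (l 1)) (a (l 17536448) (l 17673736)))) (a (l 17454416) (l 17548448))), by decide +kernel⟩

theorem c_pm_112 : CertN 536870912 536870912 536870912 536870912 134217728 67108864 3 true true false .dn 1 1 2
    ndN1q1 ndN1q1 pcN2 Cut.none Ext.none :=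
  certN1 (fam := true) (s1 := true) (s2 := false) (a := 1) (b := 1) (c := 2) (cn := .dn) (n1 := ndN1q1) (n2 := ndN1q1) (pc := pcN2) (cut := Cut.none) (xt := Ext.none) (P1 := 536870912) (W1 := 536870912) (P2 := 536870912) (W2 := 536870912) (P3 := 134217728) (W3 := 67108864) (N0 := 3)
    rfl (fun _ => rfl) k0_pm_112

noncomputable def f_pm_113 : ℕ → ℕ → ℕ → ℕ → Bool := onCell 536870912 536870912 536870912 536870912 134217728 67108864
    (rowN 3 0 true true false .nn 1 1 3 (qsf 536870912 536870912 536870912 536870912 3) ndN1q1 ndN1q1 pcN3 Cut.none Ext.none)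

def k0_pm_113 : ∃ t, chk3 f_pm_113 t 1 1 1 = true :=
  ⟨(a (b (l 17713832) (l 17432512)) (b (l 17432512) (b (l 17193984) (a (l 17154144) (a (l 16998480) (b (l 16970744) (a (l 16889792) (b (l 16873808) (a (l 16833744) (b (l 16825176) (a (l 16805504) (l 16795048)))))))))))), by decide +kernel⟩

theorem c_pm_113 : CertN 536870912 536870912 536870912 536870912 134217728 67108864 3 true true false .nn 1 1 3
    ndN1q1 ndN1q1 pcN3 Cut.none Ext.none :=
  certN0 (fam := true) (s1 := true) (s2 := false) (a := 1) (b := 1) (c := 3) (cn := .nn) (n1 := ndN1q1) (n2 := ndN1q1) (pc := pcN3) (cut := Cut.none) (xt := Ext.none) (P1 := 536870912) (W1 := 536870912) (P2 := 536870912) (W2 := 536870912) (P3 := 134217728) (W3 := 67108864) (N0 := 3)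
    rfl k0_pm_113

noncomputable def f_pm_123_a : ℕ → ℕ → ℕ → ℕ → Bool := onCell 1610612736 536870912 0 536870912 134217728 67108864
    (rowN 3 2 true true false .npn 1 2 3 (qsf 536870912 536870912 0 536870912 3) ndN1q1 ndN1q2a pcN3 Cut.none Ext.none)

def k0_pm_123_a : ∃ t, chk3 f_pm_123_a t 1 1 1 = true :=
  ⟨(a (a (b (l 120293742951) (l 17327800)) (b (a (l 17031264) (l 17028744)) (a (l 17207440) (l 17125864)))) (a (b (l 54459528999) (a (l 17027712) (l 16964360))) (a (b (l 4) (l 16876112)) (l 4)))), by decide +kernel⟩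

theorem c_pm_123_a : CertN 536870912 536870912 0 536870912 134217728 67108864 3 true true false .npn 1 2 3
    ndN1q1 ndN1q2a pcN3 Cut.none Ext.none :=
  certN2 (fam := true) (s1 := true) (s2 := false) (a := 1) (b := 2) (c := 3) (cn := .npn) (n1 := ndN1q1) (n2 := ndN1q2a) (pc := pcN3) (cut := Cut.none) (xt := Ext.none) (P1 := 536870912) (W1 := 536870912) (P2 := 0) (W2 := 536870912) (P3 := 134217728) (W3 := 67108864) (N0 := 3)
    rfl (fun _ => rfl) k0_pm_123_a

noncomputable def f_pm_123_b : ℕ → ℕ → ℕ → ℕ → Bool := onCell 1610612736 536870912 1239849684 370763052 134217728 67108864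
    (rowN 3 2 true true false .npn 1 2 3 (qsf 536870912 536870912 1239849684 370763052 3) ndN1q1 ndN1q2b pcN3 Cut.none Ext.none)

def k0_pm_123_b : ∃ t, chk3 f_pm_123_b t 1 1 1 = true :=
  ⟨(a (a (l 1) (a (l 17024496) (l 17111976))) (a (l 4) (l 4))), by decide +kernel⟩

theorem c_pm_123_b : CertN 536870912 536870912 1239849684 370763052 134217728 67108864 3 true true false .npn 1 2 3
    ndN1q1 ndN1q2b pcN3 Cut.none Ext.none :=
  certN2 (fam := true) (s1 := true) (s2 := false) (a := 1) (b := 2) (c := 3) (cn := .npn) (n1 := ndN1q1) (n2 := ndN1q2b) (pc := pcN3) (cut := Cut.none) (xt := Ext.none) (P1 := 536870912) (W1 := 536870912) (P2 := 1239849684) (W2 := 370763052) (P3 := 134217728) (W3 := 67108864) (N0 := 3)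
    rfl (fun _ => rfl) k0_pm_123_b

noncomputable def f_pm_133 : ℕ → ℕ → ℕ → ℕ → Bool := onCell 536870912 536870912 1610612736 536870912 134217728 67108864
    (rowN 3 0 true true false .dn 1 3 3 (qsf 536870912 536870912 1610612736 536870912 3) ndN1q1 ndN1q3 pcN3 Cut.none Ext.none)

def k0_pm_133 : ∃ t, chk3 f_pm_133 t 1 1 1 = true :=
  ⟨(l 4), by decide +kernel⟩

theorem c_pm_133 : CertN 536870912 536870912 1610612736 536870912 134217728 67108864 3 true true false .dn 1 3 3
    ndN1q1 ndN1q3 pcN3 Cut.none Ext.none :=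
  certN0 (fam := true) (s1 := true) (s2 := false) (a := 1) (b := 3) (c := 3) (cn := .dn) (n1 := ndN1q1) (n2 := ndN1q3) (pc := pcN3) (cut := Cut.none) (xt := Ext.none) (P1 := 536870912) (W1 := 536870912) (P2 := 1610612736) (W2 := 536870912) (P3 := 134217728) (W3 := 67108864) (N0 := 3)
    rfl k0_pm_133

noncomputable def cut_pm_202_a : Cut := Cut.of [[⟨0, 1, 0, 67108864⟩, ⟨1, 0, 0, 67108864⟩, ⟨2, 1, 0, 67108864⟩]]

noncomputable def f_pm_202_a : ℕ → ℕ → ℕ → ℕ → Bool := onCell 0 536870912 1073741824 536870912 134217728 67108864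
    (rowN 3 1 true true false .pp 2 0 2 (qsf 0 536870912 0 536870912 2) ndN1q2a ndN1q0 pcN2 cut_pm_202_a Ext.none)

def k0_pm_202_a : ∃ t, chk3 f_pm_202_a t 2 1 1 = true :=
  ⟨(b (a (b (l 1) (b (b (b (l 1) (b (a (l 1) (c (a (l 1) (b (l 1) (l 16680904))) (l 104186040983))) (b (a (l 1) (c (a (l 16776752) (l 16772560)) (l 16507344))) (a (b (c (a (l 16846776) (l 16844904)) (l 16501440)) (c (a (l 16888504) (l 16885768)) (l 16518848))) (b (c (a (l 16841136) (l 16835240)) (l 16501568)) (c (a (l 16881120) (l 16874920)) (l 16518864))))))) (b (a (c (b (l 16983400) (l 17117488)) (l 16508704)) (c (b (l 16973600) (l 17107240)) (l 16508768))) (a (l 16778664) (l 16751992)))) (b (b (a (l 17153624) (l 17147880)) (l 17304160)) (l 17464960)))) (b (a (l 1) (b (l 1) (b (l 1) (b (l 1) (b (l 1) (a (l 1) (c (b (l 129955895207) (l 139082689031)) (l 160557542455)))))))) (b (b (b (a (b (l 1) (a (c (l 88079963047) (l 16543000)) (c (l 152504464103) (l 16547688)))) (b (a (c (l 149820126183) (l 152504453223))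 (c (l 184179858487) (l 16554456))) (c (a (l 16557496) (l 16544800)) (a (l 16541696) (l 16530576))))) (b (a (c (c (a (l 153041638135) (l 16845872)) (l 153578186855)) (a (l 16540032) (l 16539904))) (c (a (l 16615720) (l 16610808)) (l 16538448))) (b (a (c (l 16762472) (l 16508512)) (l 16535648)) (c (a (b (l 16824088) (l 16863152)) (b (l 16806456) (l 16844656))) (a (a (l 16562872) (l 16563440)) (l 16581064)))))) (b (a (c (l 16837744) (l 16509648)) (b (l 16569216) (l 16723928))) (a (l 16929896) (l 16916600)))) (b (a (b (l 17134304) (l 17288088)) (l 17196296)) (l 17438040))))) (b (b (a (l 17638384) (l 17622048)) (l 17706336)) (l 17805000))), by decide +kernel⟩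

def k1_pm_202_a : ∃ t, chk3 f_pm_202_a t 6 4 1 = true :=
  ⟨(a (b (l 1) (b (l 1) (b (b (a (l 1) (a (l 1) (b (c (l 95596227399) (l 89153767543)) (c (l 139619627767) (l 144451455783))))) (b (a (l 1) (c (a (l 141230226871) (l 16585320)) (l 153578249879))) (a (c (l 114923544247) (l 119218496103)) (c (l 182032406551) (l 187401102535))))) (b (a (c (b (l 120292240535) (l 156799449863)) (a (l 148209535431) (l 169684371159))) (c (a (l 16580800) (l 16580432)) (l 16583008))) (a (c (a (l 16568600) (l 16568024)) (l 16568208)) (c (l 16567136) (l 16563208))))))) (b (l 1) (b (b (a (l 1) (b (l 1) (b (a (l 1) (c (a (l 88616997559) (l 148746539879)) (l 129956054855))) (a (c (l 108481207847) (l 91838200263)) (c (a (l 155188972295) (l 16631880)) (l 163242033415)))))) (b (a (b (l 1) (b (l 1) (a (l 1) (c (l 107407416967) (l 105796798679))))) (b (a (c (l 139082827271) (l 138545951287)) (c (l 16643224) (l 16619768))) (a (c (c (l 182569365527) (l 16627600)) (l 175590041191)) (c (l 16633896) (l 16610648)))))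 (a (b (a (l 1) (c (l 149283348615) (l 153041440135))) (c (a (l 126197884087) (l 16609568)) (a (l 119755426151) (l 16603104)))) (c (b (a (l 16624744) (l 16606344)) (l 16619152)) (a (l 16636408) (l 16626728)))))) (b (b (b (a (c (a (l 169147542055) (l 16589088)) (l 187401150711)) (a (l 16612072) (l 16607184))) (a (c (l 16596248) (l 16597784)) (l 16620616))) (a (c (l 16604544) (l 16610752)) (l 16640352))) (a (c (l 16638760) (b (l 16569976) (l 16571008))) (b (l 16599248) (l 16599944))))))), by decide +kernel⟩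

def k2_pm_202_a : ∃ t, chk3 f_pm_202_a t 6 5 1 = true :=
  ⟨(b (b (b (a (b (c (l 16570480) (l 16556360)) (a (l 16557056) (l 16539920))) (c (l 16684384) (l 16669944))) (b (a (c (l 16609240) (l 16532368)) (l 16586928)) (a (b (l 16528888) (l 16656744)) (b (l 16588264) (l 16632128))))) (a (b (l 16652240) (l 16904592)) (l 16731440))) (b (a (l 17171936) (l 17149744)) (a (l 17398120) (l 17365176)))), by decide +kernel⟩

def k3_pm_202_a : ∃ t, chk3 f_pm_202_a t 7 2 1 = true :=
  ⟨(b (a (b (a (b (l 1) (b (l 1) (b (l 1) (a (l 1) (b (a (l 1) (l 6)) (a (c (c (l 140693528023) (l 142304138535)) (l 144451621031)) (c (c (l 16668456) (l 16667376)) (l 16665752)))))))) (b (l 1) (b (l 6) (b (l 6) (b (l 6) (a (c (l 16689072) (l 16666288)) (l 16667512))))))) (b (b (a (b (a (b (a (l 1) (c (c (l 142840994503) (l 142840992295)) (l 145525345319))) (c (c (l 166463299127) (l 168073909991)) (l 170758263367))) (a (c (c (l 16666104) (l 16665008)) (l 16663352)) (c (l 16676160) (l 16653240)))) (a (c (c (l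 16647896) (l 16646752)) (l 16650304)) (l 16652280))) (a (c (l 16671768) (l 16671880)) (l 16669512))) (b (a (a (c (l 16661896) (l 16660824)) (l 16677952)) (l 16726424)) (a (a (l 16663976) (l 16639280)) (l 16666744)))) (b (a (c (l 16717184) (l 16729560)) (l 16765368)) (a (l 16691728) (l 16665552))))) (b (b (l 6) (b (l 6) (b (l 6) (a (l 16685720) (l 16737624))))) (b (b (a (l 16698856) (l 16740368)) (a (a (l 16813600) (l 16812864)) (l 16865760))) (b (b (l 16768960) (l 16728520)) (b (l 16729824) (l 16731024)))))) (b (b (b (a (l 16735424) (l 16720328)) (b (a (l 16655576) (l 16735056)) (a (b (l 16657008) (l 16658864)) (l 16843616)))) (a (l 16801872) (l 16864792))) (b (a (l 17138080) (l 17144512)) (a (l 17334728) (l 17313640))))), by decide +kernel⟩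

def k4_pm_202_a : ∃ t, chk3 f_pm_202_a t 3 3 1 = true :=
  ⟨(b (a (b (l 17566648) (l 17668032)) (b (l 17493888) (l 17594864))) (a (l 17671992) (l 17616568))), by decide +kernel⟩

theorem s5_pm_202_a : ∃ t, chk3 f_pm_202_a t 6 2 1 = true := ex3_b k1_pm_202_a k2_pm_202_a

theorem s6_pm_202_a : ∃ t, chk3 f_pm_202_a t 3 2 1 = true := ex3_a s5_pm_202_a k3_pm_202_a

theorem s7_pm_202_a : ∃ t, chk3 f_pm_202_a t 3 1 1 = true := ex3_b s6_pm_202_a k4_pm_202_a

theorem s8_pm_202_a : ∃ t, chk3 f_pm_202_a t 1 1 1 = true := ex3_a k0_pm_202_a s7_pm_202_a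

theorem c_pm_202_a : CertN 0 536870912 0 536870912 134217728 67108864 3 true true false .pp 2 0 2
    ndN1q2a ndN1q0 pcN2 cut_pm_202_a Ext.none :=
  certN1 (fam := true) (s1 := true) (s2 := false) (a := 2) (b := 0) (c := 2) (cn := .pp) (n1 := ndN1q2a) (n2 := ndN1q0) (pc := pcN2) (cut := cut_pm_202_a) (xt := Ext.none) (P1 := 0) (W1 := 536870912) (P2 := 0) (W2 := 536870912) (P3 := 134217728) (W3 := 67108864) (N0 := 3)
    rfl (fun _ => rfl) s8_pm_202_a

noncomputable def cut_pm_202_b : Cut := Cut.of [[⟨0, 1, 0, 67108864⟩, ⟨1, 0, 0, 67108864⟩, ⟨2, 1, 0, 67108864⟩]]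

noncomputable def f_pm_202_b : ℕ → ℕ → ℕ → ℕ → Bool := onCell 1073741824 536870912 0 536870912 134217728 67108864
    (rowN 3 2 true true false .pp 2 0 2 (qsf 1239849684 370763052 0 536870912 2) ndN1q2b ndN1q0 pcN2 cut_pm_202_b Ext.none)

def k0_pm_202_b : ∃ t, chk3 f_pm_202_b t 1 1 1 = true :=
  ⟨(a (b (a (l 1) (a (b (b (a (a (l 1) (a (l 1) (b (a (l 1) (a (l 1) (b (c (l 16877000) (l 16501392)) (l 1)))) (l 1)))) (b (b (a (c (b (l 17048576) (l 17051056)) (l 16508560)) (c (l 17336120) (l 16614632))) (a (l 16637216) (l 16865960))) (a (l 1) (l 16916768)))) (l 1)) (l 1)) (b (b (b (a (c (a (l 17534152) (l 17720536)) (a (l 16890072) (l 17125712))) (c (l 17943632) (a (l 17324648) (l 17489384)))) (a (c (l 17513584) (l 16963904)) (l 17571216))) (a (b (l 17167688) (l 1)) (l 17420648))) (l 1)))) (l 1)) (a (b (b (b (a (c (l 18188536) (l 17758680)) (l 18272424)) (a (l 17747088) (l 18045736))) (b (l 223374168519) (a (l 1) (l 17588144)))) (l 1)) (b (b (a (l 18341248) (l 18451160)) (l 17976128))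 (b (a (l 17459536) (l 17618256)) (l 1))))), by decide +kernel⟩

theorem c_pm_202_b : CertN 1239849684 370763052 0 536870912 134217728 67108864 3 true true false .pp 2 0 2
    ndN1q2b ndN1q0 pcN2 cut_pm_202_b Ext.none :=
  certN2 (fam := true) (s1 := true) (s2 := false) (a := 2) (b := 0) (c := 2) (cn := .pp) (n1 := ndN1q2b) (n2 := ndN1q0) (pc := pcN2) (cut := cut_pm_202_b) (xt := Ext.none) (P1 := 1239849684) (W1 := 370763052) (P2 := 0) (W2 := 536870912) (P3 := 134217728) (W3 := 67108864) (N0 := 3)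
    rfl (fun _ => rfl) k0_pm_202_b

noncomputable def f_pm_203_a : ℕ → ℕ → ℕ → ℕ → Bool := onCell 0 536870912 0 536870912 134217728 67108864
    (rowN 3 0 true true false .up 2 0 3 (qsf 0 536870912 0 536870912 3) ndN1q2a ndN1q0 pcN3 Cut.none Ext.none)

def k0_pm_203_a : ∃ t, chk3 f_pm_203_a t 1 1 1 = true :=
  ⟨(b (l 1) (b (a (b (l 1) (l 17858832)) (l 212637022519)) (a (a (l 17722288) (l 17843656)) (a (l 17884328) (l 17891000))))), by decide +kernel⟩

theorem c_pm_203_a : CertN 0 536870912 0 536870912 134217728 67108864 3 true true false .up 2 0 3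
    ndN1q2a ndN1q0 pcN3 Cut.none Ext.none :=
  certN0 (fam := true) (s1 := true) (s2 := false) (a := 2) (b := 0) (c := 3) (cn := .up) (n1 := ndN1q2a) (n2 := ndN1q0) (pc := pcN3) (cut := Cut.none) (xt := Ext.none) (P1 := 0) (W1 := 536870912) (P2 := 0) (W2 := 536870912) (P3 := 134217728) (W3 := 67108864) (N0 := 3)
    rfl k0_pm_203_a

noncomputable def f_pm_203_b : ℕ → ℕ → ℕ → ℕ → Bool := onCell 1239849684 370763052 1610612736 536870912 134217728 67108864
    (rowN 3 1 true true false .up 2 0 3 (qsf 1239849684 370763052 0 536870912 3) ndN1q2b ndN1q0 pcN3 Cut.none Ext.none)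

def k0_pm_203_b : ∃ t, chk3 f_pm_203_b t 1 1 1 = true :=
  ⟨(b (b (a (b (l 17890296) (l 17777584)) (b (l 18150048) (l 18077936))) (b (l 18027000) (a (l 17590600) (l 17865880)))) (b (l 4) (l 4))), by decide +kernel⟩

theorem c_pm_203_b : CertN 1239849684 370763052 0 536870912 134217728 67108864 3 true true false .up 2 0 3
    ndN1q2b ndN1q0 pcN3 Cut.none Ext.none :=
  certN1 (fam := true) (s1 := true) (s2 := false) (a := 2) (b := 0) (c := 3) (cn := .up) (n1 := ndN1q2b) (n2 := ndN1q0) (pc := pcN3) (cut := Cut.none) (xt := Ext.none) (P1 := 1239849684) (W1 := 370763052) (P2 := 0) (W2 := 536870912) (P3 := 134217728) (W3 := 67108864) (N0 := 3)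
    rfl (fun _ => rfl) k0_pm_203_b

noncomputable def f_pm_213_a : ℕ → ℕ → ℕ → ℕ → Bool := onCell 0 536870912 1610612736 536870912 134217728 67108864
    (rowN 3 1 true true false .pnn 2 1 3 (qsf 0 536870912 536870912 536870912 3) ndN1q2a ndN1q1 pcN3 Cut.none Ext.none)

def k0_pm_213_a : ∃ t, chk3 f_pm_213_a t 1 1 1 = true :=
  ⟨(b (b (a (l 120293742951) (l 17348768)) (a (b (l 17031264) (l 17028744)) (b (l 17207440) (l 17125864)))) (b (a (l 53922658087) (b (l 17027712) (l 16964352))) (b (a (l 4) (l 16876112)) (l 4)))), by decide +kernel⟩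

theorem c_pm_213_a : CertN 0 536870912 536870912 536870912 134217728 67108864 3 true true false .pnn 2 1 3
    ndN1q2a ndN1q1 pcN3 Cut.none Ext.none :=
  certN1 (fam := true) (s1 := true) (s2 := false) (a := 2) (b := 1) (c := 3) (cn := .pnn) (n1 := ndN1q2a) (n2 := ndN1q1) (pc := pcN3) (cut := Cut.none) (xt := Ext.none) (P1 := 0) (W1 := 536870912) (P2 := 536870912) (W2 := 536870912) (P3 := 134217728) (W3 := 67108864) (N0 := 3)
    rfl (fun _ => rfl) k0_pm_213_a

noncomputable def f_pm_213_b : ℕ → ℕ → ℕ → ℕ → Bool := onCell 1239849684 370763052 1610612736 536870912 134217728 67108864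
    (rowN 3 1 true true false .pnn 2 1 3 (qsf 1239849684 370763052 536870912 536870912 3) ndN1q2b ndN1q1 pcN3 Cut.none Ext.none)

def k0_pm_213_b : ∃ t, chk3 f_pm_213_b t 1 1 1 = true :=
  ⟨(b (b (l 1) (b (l 17024496) (l 17111976))) (b (l 4) (l 4))), by decide +kernel⟩

theorem c_pm_213_b : CertN 1239849684 370763052 536870912 536870912 134217728 67108864 3 true true false .pnn 2 1 3
    ndN1q2b ndN1q1 pcN3 Cut.none Ext.none :=
  certN1 (fam := true) (s1 := true) (s2 := false) (a := 2) (b := 1) (c := 3) (cn := .pnn) (n1 := ndN1q2b) (n2 := ndN1q1) (pc := pcN3) (cut := Cut.none) (xt := Ext.none) (P1 := 1239849684) (W1 := 370763052) (P2 := 536870912) (W2 := 536870912) (P3 := 134217728) (W3 := 67108864) (N0 := 3)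
    rfl (fun _ => rfl) k0_pm_213_b

noncomputable def f_pm_303 : ℕ → ℕ → ℕ → ℕ → Bool := onCell 1610612736 536870912 0 536870912 134217728 67108864
    (rowN 3 2 true true false .npn 3 0 3 (qsf 1610612736 536870912 0 536870912 3) ndN1q3 ndN1q0 pcN3 Cut.none Ext.none)

def k0_pm_303 : ∃ t, chk3 f_pm_303 t 1 1 1 = true :=
  ⟨(a (a (b (a (l 18142456) (l 18021080)) (l 1)) (b (a (l 18042656) (l 18044336)) (l 305515098759))) (a (l 4) (l 4))), by decide +kernel⟩

theorem c_pm_303 : CertN 1610612736 536870912 0 536870912 134217728 67108864 3 true true false .npn 3 0 3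
    ndN1q3 ndN1q0 pcN3 Cut.none Ext.none :=
  certN2 (fam := true) (s1 := true) (s2 := false) (a := 3) (b := 0) (c := 3) (cn := .npn) (n1 := ndN1q3) (n2 := ndN1q0) (pc := pcN3) (cut := Cut.none) (xt := Ext.none) (P1 := 1610612736) (W1 := 536870912) (P2 := 0) (W2 := 536870912) (P3 := 134217728) (W3 := 67108864) (N0 := 3)
    rfl (fun _ => rfl) k0_pm_303

noncomputable def f_pm_313 : ℕ → ℕ → ℕ → ℕ → Bool := onCell 1610612736 536870912 536870912 536870912 134217728 67108864
    (rowN 3 0 true true false .dn 3 1 3 (qsf 1610612736 536870912 536870912 536870912 3) ndN1q3 ndN1q1 pcN3 Cut.none Ext.none)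

def k0_pm_313 : ∃ t, chk3 f_pm_313 t 1 1 1 = true :=
  ⟨(l 4), by decide +kernel⟩

theorem c_pm_313 : CertN 1610612736 536870912 536870912 536870912 134217728 67108864 3 true true false .dn 3 1 3
    ndN1q3 ndN1q1 pcN3 Cut.none Ext.none :=
  certN0 (fam := true) (s1 := true) (s2 := false) (a := 3) (b := 1) (c := 3) (cn := .dn) (n1 := ndN1q3) (n2 := ndN1q1) (pc := pcN3) (cut := Cut.none) (xt := Ext.none) (P1 := 1610612736) (W1 := 536870912) (P2 := 536870912) (W2 := 536870912) (P3 := 134217728) (W3 := 67108864) (N0 := 3)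
    rfl k0_pm_313

noncomputable def f_mm_001 : ℕ → ℕ → ℕ → ℕ → Bool := onCell 0 536870912 0 536870912 134217728 67108864
    (rowN 3 0 true false false .up 0 0 1 (qsf 0 536870912 0 536870912 1) ndN1q0 ndN1q0 pcN1 Cut.none Ext.none)

def k0_mm_001 : ∃ t, chk3 f_mm_001 t 1 1 1 = true :=
  ⟨(l 4), by decide +kernel⟩

theorem c_mm_001 : CertN 0 536870912 0 536870912 134217728 67108864 3 true false false .up 0 0 1
    ndN1q0 ndN1q0 pcN1 Cut.none Ext.none :=
  certN0 (fam := true) (s1 := false) (s2 := false) (a := 0) (b := 0) (c := 1) (cn := .up) (n1 := ndN1q0) (n2 := ndN1q0) (pc := pcN1) (cut := Cut.none) (xt := Ext.none) (P1 := 0) (W1 := 536870912) (P2 := 0) (W2 := 536870912) (P3 := 134217728) (W3 := 67108864) (N0 := 3)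
    rfl k0_mm_001

noncomputable def f_mm_011 : ℕ → ℕ → ℕ → ℕ → Bool := onCell 0 536870912 536870912 536870912 134217728 67108864
    (rowN 3 0 true false false .pnn 0 1 1 (qsf 0 536870912 536870912 536870912 1) ndN1q0 ndN1q1 pcN1 Cut.none Ext.none)

def k0_mm_011 : ∃ t, chk3 f_mm_011 t 1 1 1 = true :=
  ⟨(l 4), by decide +kernel⟩

theorem c_mm_011 : CertN 0 536870912 536870912 536870912 134217728 67108864 3 true false false .pnn 0 1 1
    ndN1q0 ndN1q1 pcN1 Cut.none Ext.none :=
  certN0 (fam := true) (s1 := false) (s2 := false) (a := 0) (b := 1) (c := 1) (cn := .pnn) (n1 := ndN1q0) (n2 := ndN1q1) (pc := pcN1) (cut := Cut.none) (xt := Ext.none) (P1 := 0) (W1 := 536870912) (P2 := 536870912) (W2 := 536870912) (P3 := 134217728) (W3 := 67108864) (N0 := 3)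
    rfl k0_mm_011

noncomputable def f_mm_012 : ℕ → ℕ → ℕ → ℕ → Bool := onCell 0 536870912 536870912 536870912 134217728 67108864
    (rowN 3 0 true false false .pnp 0 1 2 (qsf 0 536870912 536870912 536870912 2) ndN1q0 ndN1q1 pcN2 Cut.none Ext.none)

def k0_mm_012 : ∃ t, chk3 f_mm_012 t 1 1 1 = true :=
  ⟨(l 4), by decide +kernel⟩

theorem c_mm_012 : CertN 0 536870912 536870912 536870912 134217728 67108864 3 true false false .pnp 0 1 2
    ndN1q0 ndN1q1 pcN2 Cut.none Ext.none :=
  certN0 (fam := true) (s1 := false) (s2 := false) (a := 0) (b := 1) (c := 2) (cn := .pnp) (n1 := ndN1q0) (n2 := ndN1q1) (pc := pcN2) (cut := Cut.none) (xt := Ext.none) (P1 := 0) (W1 := 536870912) (P2 := 536870912) (W2 := 536870912) (P3 := 134217728) (W3 := 67108864) (N0 := 3)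
    rfl k0_mm_012

noncomputable def f_mm_022_a : ℕ → ℕ → ℕ → ℕ → Bool := onCell 0 536870912 0 536870912 134217728 67108864
    (rowN 3 0 true false false .pp 0 2 2 (qsf 0 536870912 0 536870912 2) ndN1q0 ndN1q2a pcN2 Cut.none Ext.none)

def k0_mm_022_a : ∃ t, chk3 f_mm_022_a t 1 1 1 = true :=
  ⟨(l 5), by decide +kernel⟩

theorem c_mm_022_a : CertN 0 536870912 0 536870912 134217728 67108864 3 true false false .pp 0 2 2
    ndN1q0 ndN1q2a pcN2 Cut.none Ext.none :=
  certN0 (fam := true) (s1 := false) (s2 := false) (a := 0) (b := 2) (c := 2) (cn := .pp) (n1 := ndN1q0) (n2 := ndN1q2a) (pc := pcN2) (cut := Cut.none) (xt := Ext.none) (P1 := 0) (W1 := 536870912) (P2 := 0) (W2 := 536870912) (P3 := 134217728) (W3 := 67108864) (N0 := 3)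
    rfl k0_mm_022_a

noncomputable def f_mm_022_b : ℕ → ℕ → ℕ → ℕ → Bool := onCell 0 536870912 1239849684 370763052 134217728 67108864
    (rowN 3 0 true false false .pp 0 2 2 (qsf 0 536870912 1239849684 370763052 2) ndN1q0 ndN1q2b pcN2 Cut.none Ext.none)

def k0_mm_022_b : ∃ t, chk3 f_mm_022_b t 1 1 1 = true :=
  ⟨(l 5), by decide +kernel⟩

theorem c_mm_022_b : CertN 0 536870912 1239849684 370763052 134217728 67108864 3 true false false .pp 0 2 2
    ndN1q0 ndN1q2b pcN2 Cut.none Ext.none :=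
  certN0 (fam := true) (s1 := false) (s2 := false) (a := 0) (b := 2) (c := 2) (cn := .pp) (n1 := ndN1q0) (n2 := ndN1q2b) (pc := pcN2) (cut := Cut.none) (xt := Ext.none) (P1 := 0) (W1 := 536870912) (P2 := 1239849684) (W2 := 370763052) (P3 := 134217728) (W3 := 67108864) (N0 := 3)
    rfl k0_mm_022_b

noncomputable def f_mm_023_a : ℕ → ℕ → ℕ → ℕ → Bool := onCell 0 536870912 0 536870912 134217728 67108864
    (rowN 3 0 true false false .up 0 2 3 (qsf 0 536870912 0 536870912 3) ndN1q0 ndN1q2a pcN3 Cut.none Ext.none)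

def k0_mm_023_a : ∃ t, chk3 f_mm_023_a t 1 1 1 = true :=
  ⟨(l 5), by decide +kernel⟩

theorem c_mm_023_a : CertN 0 536870912 0 536870912 134217728 67108864 3 true false false .up 0 2 3
    ndN1q0 ndN1q2a pcN3 Cut.none Ext.none :=
  certN0 (fam := true) (s1 := false) (s2 := false) (a := 0) (b := 2) (c := 3) (cn := .up) (n1 := ndN1q0) (n2 := ndN1q2a) (pc := pcN3) (cut := Cut.none) (xt := Ext.none) (P1 := 0) (W1 := 536870912) (P2 := 0) (W2 := 536870912) (P3 := 134217728) (W3 := 67108864) (N0 := 3)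
    rfl k0_mm_023_a

noncomputable def f_mm_023_b : ℕ → ℕ → ℕ → ℕ → Bool := onCell 0 536870912 1239849684 370763052 134217728 67108864
    (rowN 3 0 true false false .up 0 2 3 (qsf 0 536870912 1239849684 370763052 3) ndN1q0 ndN1q2b pcN3 Cut.none Ext.none)

def k0_mm_023_b : ∃ t, chk3 f_mm_023_b t 1 1 1 = true :=
  ⟨(l 5), by decide +kernel⟩

theorem c_mm_023_b : CertN 0 536870912 1239849684 370763052 134217728 67108864 3 true false false .up 0 2 3
    ndN1q0 ndN1q2b pcN3 Cut.none Ext.none :=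
  certN0 (fam := true) (s1 := false) (s2 := false) (a := 0) (b := 2) (c := 3) (cn := .up) (n1 := ndN1q0) (n2 := ndN1q2b) (pc := pcN3) (cut := Cut.none) (xt := Ext.none) (P1 := 0) (W1 := 536870912) (P2 := 1239849684) (W2 := 370763052) (P3 := 134217728) (W3 := 67108864) (N0 := 3)
    rfl k0_mm_023_b

noncomputable def f_mm_033 : ℕ → ℕ → ℕ → ℕ → Bool := onCell 0 536870912 1610612736 536870912 134217728 67108864
    (rowN 3 0 true false false .pnn 0 3 3 (qsf 0 536870912 1610612736 536870912 3) ndN1q0 ndN1q3 pcN3 Cut.none Ext.none)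

def k0_mm_033 : ∃ t, chk3 f_mm_033 t 1 1 1 = true :=
  ⟨(l 5), by decide +kernel⟩

theorem c_mm_033 : CertN 0 536870912 1610612736 536870912 134217728 67108864 3 true false false .pnn 0 3 3
    ndN1q0 ndN1q3 pcN3 Cut.none Ext.none :=
  certN0 (fam := true) (s1 := false) (s2 := false) (a := 0) (b := 3) (c := 3) (cn := .pnn) (n1 := ndN1q0) (n2 := ndN1q3) (pc := pcN3) (cut := Cut.none) (xt := Ext.none) (P1 := 0) (W1 := 536870912) (P2 := 1610612736) (W2 := 536870912) (P3 := 134217728) (W3 := 67108864) (N0 := 3)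
    rfl k0_mm_033

noncomputable def f_mm_101 : ℕ → ℕ → ℕ → ℕ → Bool := onCell 536870912 536870912 0 536870912 134217728 67108864
    (rowN 3 0 true false false .npn 1 0 1 (qsf 536870912 536870912 0 536870912 1) ndN1q1 ndN1q0 pcN1 Cut.none Ext.none)

def k0_mm_101 : ∃ t, chk3 f_mm_101 t 1 1 1 = true :=
  ⟨(l 4), by decide +kernel⟩

theorem c_mm_101 : CertN 536870912 536870912 0 536870912 134217728 67108864 3 true false false .npn 1 0 1
    ndN1q1 ndN1q0 pcN1 Cut.none Ext.none :=
  certN0 (fam := true) (s1 := false) (s2 := false) (a := 1) (b := 0) (c := 1) (cn := .npn) (n1 := ndN1q1) (n2 := ndN1q0) (pc := pcN1) (cut := Cut.none) (xt := Ext.none) (P1 := 536870912) (W1 := 536870912) (P2 := 0) (W2 := 536870912) (P3 := 134217728) (W3 := 67108864) (N0 := 3)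
    rfl k0_mm_101

noncomputable def f_mm_102 : ℕ → ℕ → ℕ → ℕ → Bool := onCell 536870912 536870912 0 536870912 134217728 67108864
    (rowN 3 0 true false false .npp 1 0 2 (qsf 536870912 536870912 0 536870912 2) ndN1q1 ndN1q0 pcN2 Cut.none Ext.none)

def k0_mm_102 : ∃ t, chk3 f_mm_102 t 1 1 1 = true :=
  ⟨(l 4), by decide +kernel⟩

theorem c_mm_102 : CertN 536870912 536870912 0 536870912 134217728 67108864 3 true false false .npp 1 0 2
    ndN1q1 ndN1q0 pcN2 Cut.none Ext.none :=
  certN0 (fam := true) (s1 := false) (s2 := false) (a := 1) (b := 0) (c := 2) (cn := .npp) (n1 := ndN1q1) (n2 := ndN1q0) (pc := pcN2) (cut := Cut.none) (xt := Ext.none) (P1 := 536870912) (W1 := 536870912) (P2 := 0) (W2 := 536870912) (P3 := 134217728) (W3 := 67108864) (N0 := 3)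
    rfl k0_mm_102

noncomputable def f_mm_112 : ℕ → ℕ → ℕ → ℕ → Bool := onCell 536870912 536870912 536870912 536870912 134217728 67108864
    (rowN 3 0 true false false .dn 1 1 2 (qsf 536870912 536870912 536870912 536870912 2) ndN1q1 ndN1q1 pcN2 Cut.none Ext.none)

def k0_mm_112 : ∃ t, chk3 f_mm_112 t 1 1 1 = true :=
  ⟨(l 4), by decide +kernel⟩

theorem c_mm_112 : CertN 536870912 536870912 536870912 536870912 134217728 67108864 3 true false false .dn 1 1 2
    ndN1q1 ndN1q1 pcN2 Cut.none Ext.none :=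
  certN0 (fam := true) (s1 := false) (s2 := false) (a := 1) (b := 1) (c := 2) (cn := .dn) (n1 := ndN1q1) (n2 := ndN1q1) (pc := pcN2) (cut := Cut.none) (xt := Ext.none) (P1 := 536870912) (W1 := 536870912) (P2 := 536870912) (W2 := 536870912) (P3 := 134217728) (W3 := 67108864) (N0 := 3)
    rfl k0_mm_112

noncomputable def f_mm_113 : ℕ → ℕ → ℕ → ℕ → Bool := onCell 536870912 536870912 536870912 536870912 134217728 67108864
    (rowN 3 0 true false false .nn 1 1 3 (qsf 536870912 536870912 536870912 536870912 3) ndN1q1 ndN1q1 pcN3 Cut.none Ext.none)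

def k0_mm_113 : ∃ t, chk3 f_mm_113 t 1 1 1 = true :=
  ⟨(l 4), by decide +kernel⟩

theorem c_mm_113 : CertN 536870912 536870912 536870912 536870912 134217728 67108864 3 true false false .nn 1 1 3
    ndN1q1 ndN1q1 pcN3 Cut.none Ext.none :=
  certN0 (fam := true) (s1 := false) (s2 := false) (a := 1) (b := 1) (c := 3) (cn := .nn) (n1 := ndN1q1) (n2 := ndN1q1) (pc := pcN3) (cut := Cut.none) (xt := Ext.none) (P1 := 536870912) (W1 := 536870912) (P2 := 536870912) (W2 := 536870912) (P3 := 134217728) (W3 := 67108864) (N0 := 3)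
    rfl k0_mm_113

noncomputable def f_mm_123_a : ℕ → ℕ → ℕ → ℕ → Bool := onCell 536870912 536870912 0 536870912 134217728 67108864
    (rowN 3 0 true false false .npn 1 2 3 (qsf 536870912 536870912 0 536870912 3) ndN1q1 ndN1q2a pcN3 Cut.none Ext.none)

def k0_mm_123_a : ∃ t, chk3 f_mm_123_a t 1 1 1 = true :=
  ⟨(l 4), by decide +kernel⟩

theorem c_mm_123_a : CertN 536870912 536870912 0 536870912 134217728 67108864 3 true false false .npn 1 2 3
    ndN1q1 ndN1q2a pcN3 Cut.none Ext.none :=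
  certN0 (fam := true) (s1 := false) (s2 := false) (a := 1) (b := 2) (c := 3) (cn := .npn) (n1 := ndN1q1) (n2 := ndN1q2a) (pc := pcN3) (cut := Cut.none) (xt := Ext.none) (P1 := 536870912) (W1 := 536870912) (P2 := 0) (W2 := 536870912) (P3 := 134217728) (W3 := 67108864) (N0 := 3)
    rfl k0_mm_123_a

noncomputable def f_mm_123_b : ℕ → ℕ → ℕ → ℕ → Bool := onCell 536870912 536870912 1239849684 370763052 134217728 67108864
    (rowN 3 0 true false false .npn 1 2 3 (qsf 536870912 536870912 1239849684 370763052 3) ndN1q1 ndN1q2b pcN3 Cut.none Ext.none)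

def k0_mm_123_b : ∃ t, chk3 f_mm_123_b t 1 1 1 = true :=
  ⟨(l 4), by decide +kernel⟩

theorem c_mm_123_b : CertN 536870912 536870912 1239849684 370763052 134217728 67108864 3 true false false .npn 1 2 3
    ndN1q1 ndN1q2b pcN3 Cut.none Ext.none :=
  certN0 (fam := true) (s1 := false) (s2 := false) (a := 1) (b := 2) (c := 3) (cn := .npn) (n1 := ndN1q1) (n2 := ndN1q2b) (pc := pcN3) (cut := Cut.none) (xt := Ext.none) (P1 := 536870912) (W1 := 536870912) (P2 := 1239849684) (W2 := 370763052) (P3 := 134217728) (W3 := 67108864) (N0 := 3)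
    rfl k0_mm_123_b

noncomputable def f_mm_133 : ℕ → ℕ → ℕ → ℕ → Bool := onCell 536870912 536870912 1610612736 536870912 134217728 67108864
    (rowN 3 0 true false false .dn 1 3 3 (qsf 536870912 536870912 1610612736 536870912 3) ndN1q1 ndN1q3 pcN3 Cut.none Ext.none)

def k0_mm_133 : ∃ t, chk3 f_mm_133 t 1 1 1 = true :=
  ⟨(l 4), by decide +kernel⟩

theorem c_mm_133 : CertN 536870912 536870912 1610612736 536870912 134217728 67108864 3 true false false .dn 1 3 3
    ndN1q1 ndN1q3 pcN3 Cut.none Ext.none :=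
  certN0 (fam := true) (s1 := false) (s2 := false) (a := 1) (b := 3) (c := 3) (cn := .dn) (n1 := ndN1q1) (n2 := ndN1q3) (pc := pcN3) (cut := Cut.none) (xt := Ext.none) (P1 := 536870912) (W1 := 536870912) (P2 := 1610612736) (W2 := 536870912) (P3 := 134217728) (W3 := 67108864) (N0 := 3)
    rfl k0_mm_133

noncomputable def cut_mm_202_a : Cut := Cut.of [[⟨0, 1, 0, 67108864⟩, ⟨1, 0, 0, 67108864⟩, ⟨2, 1, 0, 67108864⟩]]

noncomputable def f_mm_202_a : ℕ → ℕ → ℕ → ℕ → Bool := onCell 0 536870912 0 536870912 134217728 67108864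
    (rowN 3 0 true false false .pp 2 0 2 (qsf 0 536870912 0 536870912 2) ndN1q2a ndN1q0 pcN2 cut_mm_202_a Ext.none)

def k0_mm_202_a : ∃ t, chk3 f_mm_202_a t 1 1 1 = true :=
  ⟨(b (a (b (b (a (b (b (a (c (b (l 16962864) (l 17087312)) (l 16517376)) (c (b (l 16636512) (l 17005232)) (l 16529112))) (a (l 16917144) (l 16761160))) (a (l 17152744) (l 17100072))) (b (c (b (a (b (a (l 16725216) (l 16581552)) (l 16824192)) (b (a (l 16576216) (l 16588408)) (l 16581208))) (a (l 17012920) (l 16765424))) (a (b (l 16568112) (l 16545352)) (b (b (l 16592592) (l 16571064)) (l 16570416)))) (a (b (l 16913584) (l 17054768)) (b (l 16716664) (l 16902904))))) (a (b (l 17265376) (l 17297304)) (b (a (l 17168256) (l 17054232)) (l 4)))) (b (a (l 17251376) (l 4)) (l 4))) (b (a (b (a (b (b (b (c (a (l 16602152) (b (l 16617800) (l 16617384))) (a (l 16593368) (l 16610120))) (c (l 16629976) (l 16622576))) (a (l 16596480) (l 16633840))) (b (l 16673552) (l 16692584))) (a (b (b (b (c (b (l 16656008) (l 16634672))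 (b (l 16628776) (l 16628808))) (c (l 16634136) (l 16628840))) (l 16663408)) (b (l 16639392) (l 4))) (b (b (b (c (b (a (l 16649240) (l 16659416)) (l 16653976)) (b (l 16670352) (l 16649472))) (c (l 16653464) (l 16649584))) (c (l 16700408) (l 16697144))) (l 4)))) (l 4)) (b (b (b (a (a (b (b (c (a (l 16680664) (b (l 16692184) (l 16681536))) (a (l 16666208) (l 16678256))) (c (l 16696512) (l 16693312))) (c (l 16696096) (l 16693560))) (a (b (b (l 6) (c (l 16693592) (l 16691376))) (c (l 16715480) (l 16713840))) (b (l 6) (c (l 16731320) (l 16730088))))) (l 6)) (a (a (b (l 16721552) (l 4)) (l 4)) (l 4))) (l 4)) (l 4))) (l 4))) (l 4)), by decide +kernel⟩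

theorem c_mm_202_a : CertN 0 536870912 0 536870912 134217728 67108864 3 true false false .pp 2 0 2
    ndN1q2a ndN1q0 pcN2 cut_mm_202_a Ext.none :=
  certN0 (fam := true) (s1 := false) (s2 := false) (a := 2) (b := 0) (c := 2) (cn := .pp) (n1 := ndN1q2a) (n2 := ndN1q0) (pc := pcN2) (cut := cut_mm_202_a) (xt := Ext.none) (P1 := 0) (W1 := 536870912) (P2 := 0) (W2 := 536870912) (P3 := 134217728) (W3 := 67108864) (N0 := 3)
    rfl k0_mm_202_a

noncomputable def cut_mm_202_b : Cut := Cut.of [[⟨0, 1, 0, 67108864⟩, ⟨1, 0, 0, 67108864⟩, ⟨2, 1, 0, 67108864⟩]]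

noncomputable def f_mm_202_b : ℕ → ℕ → ℕ → ℕ → Bool := onCell 1239849684 370763052 0 536870912 134217728 67108864
    (rowN 3 0 true false false .pp 2 0 2 (qsf 1239849684 370763052 0 536870912 2) ndN1q2b ndN1q0 pcN2 cut_mm_202_b Ext.none)

def k0_mm_202_b : ∃ t, chk3 f_mm_202_b t 1 1 1 = true :=
  ⟨(b (a (b (a (b (b (a (b (a (c (b (l 17186192) (l 17280568)) (l 16521560)) (c (l 17551416) (l 16917216))) (c (l 17515936) (l 16955448))) (b (c (l 17898656) (l 17169464)) (l 17497776))) (a (b (l 17239600) (l 17409688)) (l 17720768))) (b (a (l 17454224) (l 17708224)) (a (l 17452808) (l 17658072)))) (b (b (a (c (l 18195536) (l 17775224)) (l 18200168)) (a (l 17960024) (l 18124600))) (a (l 18066488) (l 17977808)))) (a (b (a (l 17406576) (l 4)) (l 4)) (l 4))) (b (b (a (b (a (l 18336656) (l 18414936)) (l 18265128)) (b (l 18451456) (l 4))) (l 4)) (l 4))) (l 4)), by decide +kernel⟩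

theorem c_mm_202_b : CertN 1239849684 370763052 0 536870912 134217728 67108864 3 true false false .pp 2 0 2
    ndN1q2b ndN1q0 pcN2 cut_mm_202_b Ext.none :=
  certN0 (fam := true) (s1 := false) (s2 := false) (a := 2) (b := 0) (c := 2) (cn := .pp) (n1 := ndN1q2b) (n2 := ndN1q0) (pc := pcN2) (cut := cut_mm_202_b) (xt := Ext.none) (P1 := 1239849684) (W1 := 370763052) (P2 := 0) (W2 := 536870912) (P3 := 134217728) (W3 := 67108864) (N0 := 3)
    rfl k0_mm_202_b

noncomputable def f_mm_203_a : ℕ → ℕ → ℕ → ℕ → Bool := onCell 0 536870912 1610612736 536870912 134217728 67108864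
    (rowN 3 1 true false false .up 2 0 3 (qsf 0 536870912 0 536870912 3) ndN1q2a ndN1q0 pcN3 Cut.none Ext.none)

def k0_mm_203_a : ∃ t, chk3 f_mm_203_a t 1 1 1 = true :=
  ⟨(l 4), by decide +kernel⟩

theorem c_mm_203_a : CertN 0 536870912 0 536870912 134217728 67108864 3 true false false .up 2 0 3
    ndN1q2a ndN1q0 pcN3 Cut.none Ext.none :=
  certN1 (fam := true) (s1 := false) (s2 := false) (a := 2) (b := 0) (c := 3) (cn := .up) (n1 := ndN1q2a) (n2 := ndN1q0) (pc := pcN3) (cut := Cut.none) (xt := Ext.none) (P1 := 0) (W1 := 536870912) (P2 := 0) (W2 := 536870912) (P3 := 134217728) (W3 := 67108864) (N0 := 3)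
    rfl (fun _ => rfl) k0_mm_203_a

noncomputable def f_mm_203_b : ℕ → ℕ → ℕ → ℕ → Bool := onCell 1239849684 370763052 1610612736 536870912 134217728 67108864
    (rowN 3 1 true false false .up 2 0 3 (qsf 1239849684 370763052 0 536870912 3) ndN1q2b ndN1q0 pcN3 Cut.none Ext.none)

def k0_mm_203_b : ∃ t, chk3 f_mm_203_b t 1 1 1 = true :=
  ⟨(b (l 4) (l 4)), by decide +kernel⟩

theorem c_mm_203_b : CertN 1239849684 370763052 0 536870912 134217728 67108864 3 true false false .up 2 0 3
    ndN1q2b ndN1q0 pcN3 Cut.none Ext.none :=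
  certN1 (fam := true) (s1 := false) (s2 := false) (a := 2) (b := 0) (c := 3) (cn := .up) (n1 := ndN1q2b) (n2 := ndN1q0) (pc := pcN3) (cut := Cut.none) (xt := Ext.none) (P1 := 1239849684) (W1 := 370763052) (P2 := 0) (W2 := 536870912) (P3 := 134217728) (W3 := 67108864) (N0 := 3)
    rfl (fun _ => rfl) k0_mm_203_b

noncomputable def f_mm_213_a : ℕ → ℕ → ℕ → ℕ → Bool := onCell 0 536870912 536870912 536870912 134217728 67108864
    (rowN 3 0 true false false .pnn 2 1 3 (qsf 0 536870912 536870912 536870912 3) ndN1q2a ndN1q1 pcN3 Cut.none Ext.none)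

def k0_mm_213_a : ∃ t, chk3 f_mm_213_a t 1 1 1 = true :=
  ⟨(l 4), by decide +kernel⟩

theorem c_mm_213_a : CertN 0 536870912 536870912 536870912 134217728 67108864 3 true false false .pnn 2 1 3
    ndN1q2a ndN1q1 pcN3 Cut.none Ext.none :=
  certN0 (fam := true) (s1 := false) (s2 := false) (a := 2) (b := 1) (c := 3) (cn := .pnn) (n1 := ndN1q2a) (n2 := ndN1q1) (pc := pcN3) (cut := Cut.none) (xt := Ext.none) (P1 := 0) (W1 := 536870912) (P2 := 536870912) (W2 := 536870912) (P3 := 134217728) (W3 := 67108864) (N0 := 3)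
    rfl k0_mm_213_a

noncomputable def f_mm_213_b : ℕ → ℕ → ℕ → ℕ → Bool := onCell 1239849684 370763052 536870912 536870912 134217728 67108864
    (rowN 3 0 true false false .pnn 2 1 3 (qsf 1239849684 370763052 536870912 536870912 3) ndN1q2b ndN1q1 pcN3 Cut.none Ext.none)

def k0_mm_213_b : ∃ t, chk3 f_mm_213_b t 1 1 1 = true :=
  ⟨(l 4), by decide +kernel⟩

theorem c_mm_213_b : CertN 1239849684 370763052 536870912 536870912 134217728 67108864 3 true false false .pnn 2 1 3
    ndN1q2b ndN1q1 pcN3 Cut.none Ext.none :=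
  certN0 (fam := true) (s1 := false) (s2 := false) (a := 2) (b := 1) (c := 3) (cn := .pnn) (n1 := ndN1q2b) (n2 := ndN1q1) (pc := pcN3) (cut := Cut.none) (xt := Ext.none) (P1 := 1239849684) (W1 := 370763052) (P2 := 536870912) (W2 := 536870912) (P3 := 134217728) (W3 := 67108864) (N0 := 3)
    rfl k0_mm_213_b

noncomputable def f_mm_303 : ℕ → ℕ → ℕ → ℕ → Bool := onCell 1610612736 536870912 0 536870912 134217728 67108864
    (rowN 3 0 true false false .npn 3 0 3 (qsf 1610612736 536870912 0 536870912 3) ndN1q3 ndN1q0 pcN3 Cut.none Ext.none)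

def k0_mm_303 : ∃ t, chk3 f_mm_303 t 1 1 1 = true :=
  ⟨(a (b (l 4) (l 4)) (l 4)), by decide +kernel⟩

theorem c_mm_303 : CertN 1610612736 536870912 0 536870912 134217728 67108864 3 true false false .npn 3 0 3
    ndN1q3 ndN1q0 pcN3 Cut.none Ext.none :=
  certN0 (fam := true) (s1 := false) (s2 := false) (a := 3) (b := 0) (c := 3) (cn := .npn) (n1 := ndN1q3) (n2 := ndN1q0) (pc := pcN3) (cut := Cut.none) (xt := Ext.none) (P1 := 1610612736) (W1 := 536870912) (P2 := 0) (W2 := 536870912) (P3 := 134217728) (W3 := 67108864) (N0 := 3)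
    rfl k0_mm_303

noncomputable def f_mm_313 : ℕ → ℕ → ℕ → ℕ → Bool := onCell 1610612736 536870912 536870912 536870912 134217728 67108864
    (rowN 3 0 true false false .dn 3 1 3 (qsf 1610612736 536870912 536870912 536870912 3) ndN1q3 ndN1q1 pcN3 Cut.none Ext.none)

def k0_mm_313 : ∃ t, chk3 f_mm_313 t 1 1 1 = true :=
  ⟨(l 4), by decide +kernel⟩

theorem c_mm_313 : CertN 1610612736 536870912 536870912 536870912 134217728 67108864 3 true false false .dn 3 1 3
    ndN1q3 ndN1q1 pcN3 Cut.none Ext.none :=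
  certN0 (fam := true) (s1 := false) (s2 := false) (a := 3) (b := 1) (c := 3) (cn := .dn) (n1 := ndN1q3) (n2 := ndN1q1) (pc := pcN3) (cut := Cut.none) (xt := Ext.none) (P1 := 1610612736) (W1 := 536870912) (P2 := 536870912) (W2 := 536870912) (P3 := 134217728) (W3 := 67108864) (N0 := 3)
    rfl k0_mm_313

end Pool.Agent.Strip051.G.I1_8_3_16.Tab.C.NA11

namespace Pool.Agent.Strip051.G.I1_8_3_16.Tab.C.NA12

open Pool.Agent.Strip051.PB Pool.Agent.Strip051.PB.T
open Pool.Agent.Strip051.G.I1_8_3_16.Tab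

noncomputable def f_pp_001 : ℕ → ℕ → ℕ → ℕ → Bool := onCell 0 536870912 0 536870912 134217728 67108864
    (rowN 3 0 true true true .up 0 0 1 (qsf 0 536870912 0 536870912 1) ndN1q0 ndN2q0 pcN1 Cut.none Ext.none)

def k0_pp_001 : ∃ t, chk3 f_pp_001 t 1 1 1 = true :=
  ⟨(l 4), by decide +kernel⟩

theorem c_pp_001 : CertN 0 536870912 0 536870912 134217728 67108864 3 true true true .up 0 0 1
    ndN1q0 ndN2q0 pcN1 Cut.none Ext.none :=
  certN0 (fam := true) (s1 := true) (s2 := true) (a := 0) (b := 0) (c := 1) (cn := .up) (n1 := ndN1q0) (n2 := ndN2q0) (pc := pcN1) (cut := Cut.none) (xt := Ext.none) (P1 := 0) (W1 := 536870912) (P2 := 0) (W2 := 536870912) (P3 := 134217728) (W3 := 67108864) (N0 := 3)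
    rfl k0_pp_001

noncomputable def f_pp_011 : ℕ → ℕ → ℕ → ℕ → Bool := onCell 0 536870912 536870912 536870912 134217728 67108864
    (rowN 3 0 true true true .pnn 0 1 1 (qsf 0 536870912 536870912 536870912 1) ndN1q0 ndN2q1 pcN1 Cut.none Ext.none)

def k0_pp_011 : ∃ t, chk3 f_pp_011 t 1 1 1 = true :=
  ⟨(l 4), by decide +kernel⟩

theorem c_pp_011 : CertN 0 536870912 536870912 536870912 134217728 67108864 3 true true true .pnn 0 1 1
    ndN1q0 ndN2q1 pcN1 Cut.none Ext.none :=
  certN0 (fam := true) (s1 := true) (s2 := true) (a := 0) (b := 1) (c := 1) (cn := .pnn) (n1 := ndN1q0) (n2 := ndN2q1) (pc := pcN1) (cut := Cut.none) (xt := Ext.none) (P1 := 0) (W1 := 536870912) (P2 := 536870912) (W2 := 536870912) (P3 := 134217728) (W3 := 67108864) (N0 := 3)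
    rfl k0_pp_011

noncomputable def f_pp_012 : ℕ → ℕ → ℕ → ℕ → Bool := onCell 0 536870912 536870912 536870912 134217728 67108864
    (rowN 3 0 true true true .pnp 0 1 2 (qsf 0 536870912 536870912 536870912 2) ndN1q0 ndN2q1 pcN2 Cut.none Ext.none)

def k0_pp_012 : ∃ t, chk3 f_pp_012 t 1 1 1 = true :=
  ⟨(l 4), by decide +kernel⟩

theorem c_pp_012 : CertN 0 536870912 536870912 536870912 134217728 67108864 3 true true true .pnp 0 1 2
    ndN1q0 ndN2q1 pcN2 Cut.none Ext.none :=
  certN0 (fam := true) (s1 := true) (s2 := true) (a := 0) (b := 1) (c := 2) (cn := .pnp) (n1 := ndN1q0) (n2 := ndN2q1) (pc := pcN2) (cut := Cut.none) (xt := Ext.none) (P1 := 0) (W1 := 536870912) (P2 := 536870912) (W2 := 536870912) (P3 := 134217728) (W3 := 67108864) (N0 := 3)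
    rfl k0_pp_012

noncomputable def cut_pp_022_a : Cut := Cut.of [[⟨0, 0, 0, 67108864⟩, ⟨1, 1, 0, 67108864⟩, ⟨2, 1, 0, 67108864⟩]]

noncomputable def f_pp_022_a : ℕ → ℕ → ℕ → ℕ → Bool := onCell 0 536870912 0 536870912 134217728 67108864
    (rowN 3 0 true true true .pp 0 2 2 (qsf 0 536870912 0 536870912 2) ndN1q0 ndN2q2a pcN2 cut_pp_022_a Ext.none)

def k0_pp_022_a : ∃ t, chk3 f_pp_022_a t 1 1 1 = true :=
  ⟨(a (b (l 4) (a (b (l 4) (a (b (l 4) (a (b (l 4) (l 6)) (l 4))) (l 4))) (l 4))) (l 4)), by decide +kernel⟩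

theorem c_pp_022_a : CertN 0 536870912 0 536870912 134217728 67108864 3 true true true .pp 0 2 2
    ndN1q0 ndN2q2a pcN2 cut_pp_022_a Ext.none :=
  certN0 (fam := true) (s1 := true) (s2 := true) (a := 0) (b := 2) (c := 2) (cn := .pp) (n1 := ndN1q0) (n2 := ndN2q2a) (pc := pcN2) (cut := cut_pp_022_a) (xt := Ext.none) (P1 := 0) (W1 := 536870912) (P2 := 0) (W2 := 536870912) (P3 := 134217728) (W3 := 67108864) (N0 := 3)
    rfl k0_pp_022_a

noncomputable def cut_pp_022_b : Cut := Cut.of [[⟨0, 0, 0, 67108864⟩, ⟨1, 1, 0, 67108864⟩, ⟨2, 1, 0, 67108864⟩]]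

noncomputable def f_pp_022_b : ℕ → ℕ → ℕ → ℕ → Bool := onCell 0 536870912 1239849684 370763052 134217728 67108864
    (rowN 3 0 true true true .pp 0 2 2 (qsf 0 536870912 1239849684 370763052 2) ndN1q0 ndN2q2b pcN2 cut_pp_022_b Ext.none)

def k0_pp_022_b : ∃ t, chk3 f_pp_022_b t 1 1 1 = true :=
  ⟨(a (b (l 4) (l 4)) (l 4)), by decide +kernel⟩

theorem c_pp_022_b : CertN 0 536870912 1239849684 370763052 134217728 67108864 3 true true true .pp 0 2 2
    ndN1q0 ndN2q2b pcN2 cut_pp_022_b Ext.none :=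
  certN0 (fam := true) (s1 := true) (s2 := true) (a := 0) (b := 2) (c := 2) (cn := .pp) (n1 := ndN1q0) (n2 := ndN2q2b) (pc := pcN2) (cut := cut_pp_022_b) (xt := Ext.none) (P1 := 0) (W1 := 536870912) (P2 := 1239849684) (W2 := 370763052) (P3 := 134217728) (W3 := 67108864) (N0 := 3)
    rfl k0_pp_022_b

noncomputable def f_pp_023_a : ℕ → ℕ → ℕ → ℕ → Bool := onCell 1610612736 536870912 0 536870912 134217728 67108864
    (rowN 3 2 true true true .up 0 2 3 (qsf 0 536870912 0 536870912 3) ndN1q0 ndN2q2a pcN3 Cut.none Ext.none)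

def k0_pp_023_a : ∃ t, chk3 f_pp_023_a t 1 1 1 = true :=
  ⟨(l 4), by decide +kernel⟩

theorem c_pp_023_a : CertN 0 536870912 0 536870912 134217728 67108864 3 true true true .up 0 2 3
    ndN1q0 ndN2q2a pcN3 Cut.none Ext.none :=
  certN2 (fam := true) (s1 := true) (s2 := true) (a := 0) (b := 2) (c := 3) (cn := .up) (n1 := ndN1q0) (n2 := ndN2q2a) (pc := pcN3) (cut := Cut.none) (xt := Ext.none) (P1 := 0) (W1 := 536870912) (P2 := 0) (W2 := 536870912) (P3 := 134217728) (W3 := 67108864) (N0 := 3)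
    rfl (fun _ => rfl) k0_pp_023_a

noncomputable def f_pp_023_b : ℕ → ℕ → ℕ → ℕ → Bool := onCell 1610612736 536870912 1239849684 370763052 134217728 67108864
    (rowN 3 2 true true true .up 0 2 3 (qsf 0 536870912 1239849684 370763052 3) ndN1q0 ndN2q2b pcN3 Cut.none Ext.none)

def k0_pp_023_b : ∃ t, chk3 f_pp_023_b t 1 1 1 = true :=
  ⟨(l 4), by decide +kernel⟩

theorem c_pp_023_b : CertN 0 536870912 1239849684 370763052 134217728 67108864 3 true true true .up 0 2 3
    ndN1q0 ndN2q2b pcN3 Cut.none Ext.none :=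
  certN2 (fam := true) (s1 := true) (s2 := true) (a := 0) (b := 2) (c := 3) (cn := .up) (n1 := ndN1q0) (n2 := ndN2q2b) (pc := pcN3) (cut := Cut.none) (xt := Ext.none) (P1 := 0) (W1 := 536870912) (P2 := 1239849684) (W2 := 370763052) (P3 := 134217728) (W3 := 67108864) (N0 := 3)
    rfl (fun _ => rfl) k0_pp_023_b

noncomputable def f_pp_033 : ℕ → ℕ → ℕ → ℕ → Bool := onCell 0 536870912 1610612736 536870912 134217728 67108864
    (rowN 3 0 true true true .pnn 0 3 3 (qsf 0 536870912 1610612736 536870912 3) ndN1q0 ndN2q3 pcN3 Cut.none Ext.none)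

def k0_pp_033 : ∃ t, chk3 f_pp_033 t 1 1 1 = true :=
  ⟨(l 4), by decide +kernel⟩

theorem c_pp_033 : CertN 0 536870912 1610612736 536870912 134217728 67108864 3 true true true .pnn 0 3 3
    ndN1q0 ndN2q3 pcN3 Cut.none Ext.none :=
  certN0 (fam := true) (s1 := true) (s2 := true) (a := 0) (b := 3) (c := 3) (cn := .pnn) (n1 := ndN1q0) (n2 := ndN2q3) (pc := pcN3) (cut := Cut.none) (xt := Ext.none) (P1 := 0) (W1 := 536870912) (P2 := 1610612736) (W2 := 536870912) (P3 := 134217728) (W3 := 67108864) (N0 := 3)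
    rfl k0_pp_033

noncomputable def f_pp_101 : ℕ → ℕ → ℕ → ℕ → Bool := onCell 536870912 536870912 0 536870912 134217728 67108864
    (rowN 3 0 true true true .npn 1 0 1 (qsf 536870912 536870912 0 536870912 1) ndN1q1 ndN2q0 pcN1 Cut.none Ext.none)

def k0_pp_101 : ∃ t, chk3 f_pp_101 t 1 1 1 = true :=
  ⟨(l 4), by decide +kernel⟩

theorem c_pp_101 : CertN 536870912 536870912 0 536870912 134217728 67108864 3 true true true .npn 1 0 1
    ndN1q1 ndN2q0 pcN1 Cut.none Ext.none :=
  certN0 (fam := true) (s1 := true) (s2 := true) (a := 1) (b := 0) (c := 1) (cn := .npn) (n1 := ndN1q1) (n2 := ndN2q0) (pc := pcN1) (cut := Cut.none) (xt := Ext.none) (P1 := 536870912) (W1 := 536870912) (P2 := 0) (W2 := 536870912) (P3 := 134217728) (W3 := 67108864) (N0 := 3)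
    rfl k0_pp_101

noncomputable def f_pp_102 : ℕ → ℕ → ℕ → ℕ → Bool := onCell 536870912 536870912 0 536870912 134217728 67108864
    (rowN 3 0 true true true .npp 1 0 2 (qsf 536870912 536870912 0 536870912 2) ndN1q1 ndN2q0 pcN2 Cut.none Ext.none)

def k0_pp_102 : ∃ t, chk3 f_pp_102 t 1 1 1 = true :=
  ⟨(l 4), by decide +kernel⟩

theorem c_pp_102 : CertN 536870912 536870912 0 536870912 134217728 67108864 3 true true true .npp 1 0 2
    ndN1q1 ndN2q0 pcN2 Cut.none Ext.none :=
  certN0 (fam := true) (s1 := true) (s2 := true) (a := 1) (b := 0) (c := 2) (cn := .npp) (n1 := ndN1q1) (n2 := ndN2q0) (pc := pcN2) (cut := Cut.none) (xt := Ext.none) (P1 := 536870912) (W1 := 536870912) (P2 := 0) (W2 := 536870912) (P3 := 134217728) (W3 := 67108864) (N0 := 3)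
    rfl k0_pp_102

noncomputable def f_pp_112 : ℕ → ℕ → ℕ → ℕ → Bool := onCell 536870912 536870912 536870912 536870912 134217728 67108864
    (rowN 3 0 true true true .dn 1 1 2 (qsf 536870912 536870912 536870912 536870912 2) ndN1q1 ndN2q1 pcN2 Cut.none Ext.none)

def k0_pp_112 : ∃ t, chk3 f_pp_112 t 1 1 1 = true :=
  ⟨(l 4), by decide +kernel⟩

theorem c_pp_112 : CertN 536870912 536870912 536870912 536870912 134217728 67108864 3 true true true .dn 1 1 2
    ndN1q1 ndN2q1 pcN2 Cut.none Ext.none :=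
  certN0 (fam := true) (s1 := true) (s2 := true) (a := 1) (b := 1) (c := 2) (cn := .dn) (n1 := ndN1q1) (n2 := ndN2q1) (pc := pcN2) (cut := Cut.none) (xt := Ext.none) (P1 := 536870912) (W1 := 536870912) (P2 := 536870912) (W2 := 536870912) (P3 := 134217728) (W3 := 67108864) (N0 := 3)
    rfl k0_pp_112

noncomputable def f_pp_113 : ℕ → ℕ → ℕ → ℕ → Bool := onCell 536870912 536870912 536870912 536870912 134217728 67108864
    (rowN 3 0 true true true .nn 1 1 3 (qsf 536870912 536870912 536870912 536870912 3) ndN1q1 ndN2q1 pcN3 Cut.none Ext.none)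

def k0_pp_113 : ∃ t, chk3 f_pp_113 t 1 1 1 = true :=
  ⟨(l 4), by decide +kernel⟩

theorem c_pp_113 : CertN 536870912 536870912 536870912 536870912 134217728 67108864 3 true true true .nn 1 1 3
    ndN1q1 ndN2q1 pcN3 Cut.none Ext.none :=
  certN0 (fam := true) (s1 := true) (s2 := true) (a := 1) (b := 1) (c := 3) (cn := .nn) (n1 := ndN1q1) (n2 := ndN2q1) (pc := pcN3) (cut := Cut.none) (xt := Ext.none) (P1 := 536870912) (W1 := 536870912) (P2 := 536870912) (W2 := 536870912) (P3 := 134217728) (W3 := 67108864) (N0 := 3)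
    rfl k0_pp_113

noncomputable def f_pp_123_a : ℕ → ℕ → ℕ → ℕ → Bool := onCell 536870912 536870912 0 536870912 134217728 67108864
    (rowN 3 0 true true true .npn 1 2 3 (qsf 536870912 536870912 0 536870912 3) ndN1q1 ndN2q2a pcN3 Cut.none Ext.none)

def k0_pp_123_a : ∃ t, chk3 f_pp_123_a t 1 1 1 = true :=
  ⟨(l 4), by decide +kernel⟩

theorem c_pp_123_a : CertN 536870912 536870912 0 536870912 134217728 67108864 3 true true true .npn 1 2 3
    ndN1q1 ndN2q2a pcN3 Cut.none Ext.none :=
  certN0 (fam := true) (s1 := true) (s2 := true) (a := 1) (b := 2) (c := 3) (cn := .npn) (n1 := ndN1q1) (n2 := ndN2q2a) (pc := pcN3) (cut := Cut.none) (xt := Ext.none) (P1 := 536870912) (W1 := 536870912) (P2 := 0) (W2 := 536870912) (P3 := 134217728) (W3 := 67108864) (N0 := 3)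
    rfl k0_pp_123_a

noncomputable def f_pp_123_b : ℕ → ℕ → ℕ → ℕ → Bool := onCell 536870912 536870912 1239849684 370763052 134217728 67108864
    (rowN 3 0 true true true .npn 1 2 3 (qsf 536870912 536870912 1239849684 370763052 3) ndN1q1 ndN2q2b pcN3 Cut.none Ext.none)

def k0_pp_123_b : ∃ t, chk3 f_pp_123_b t 1 1 1 = true :=
  ⟨(l 4), by decide +kernel⟩

theorem c_pp_123_b : CertN 536870912 536870912 1239849684 370763052 134217728 67108864 3 true true true .npn 1 2 3
    ndN1q1 ndN2q2b pcN3 Cut.none Ext.none :=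
  certN0 (fam := true) (s1 := true) (s2 := true) (a := 1) (b := 2) (c := 3) (cn := .npn) (n1 := ndN1q1) (n2 := ndN2q2b) (pc := pcN3) (cut := Cut.none) (xt := Ext.none) (P1 := 536870912) (W1 := 536870912) (P2 := 1239849684) (W2 := 370763052) (P3 := 134217728) (W3 := 67108864) (N0 := 3)
    rfl k0_pp_123_b

noncomputable def f_pp_133 : ℕ → ℕ → ℕ → ℕ → Bool := onCell 536870912 536870912 1610612736 536870912 134217728 67108864
    (rowN 3 0 true true true .dn 1 3 3 (qsf 536870912 536870912 1610612736 536870912 3) ndN1q1 ndN2q3 pcN3 Cut.none Ext.none)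

def k0_pp_133 : ∃ t, chk3 f_pp_133 t 1 1 1 = true :=
  ⟨(l 4), by decide +kernel⟩

theorem c_pp_133 : CertN 536870912 536870912 1610612736 536870912 134217728 67108864 3 true true true .dn 1 3 3
    ndN1q1 ndN2q3 pcN3 Cut.none Ext.none :=
  certN0 (fam := true) (s1 := true) (s2 := true) (a := 1) (b := 3) (c := 3) (cn := .dn) (n1 := ndN1q1) (n2 := ndN2q3) (pc := pcN3) (cut := Cut.none) (xt := Ext.none) (P1 := 536870912) (W1 := 536870912) (P2 := 1610612736) (W2 := 536870912) (P3 := 134217728) (W3 := 67108864) (N0 := 3)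
    rfl k0_pp_133

noncomputable def f_pp_202_a : ℕ → ℕ → ℕ → ℕ → Bool := onCell 0 536870912 0 536870912 134217728 67108864
    (rowN 3 0 true true true .pp 2 0 2 (qsf 0 536870912 0 536870912 2) ndN1q2a ndN2q0 pcN2 Cut.none Ext.none)

def k0_pp_202_a : ∃ t, chk3 f_pp_202_a t 1 1 1 = true :=
  ⟨(l 5), by decide +kernel⟩

theorem c_pp_202_a : CertN 0 536870912 0 536870912 134217728 67108864 3 true true true .pp 2 0 2
    ndN1q2a ndN2q0 pcN2 Cut.none Ext.none :=
  certN0 (fam := true) (s1 := true) (s2 := true) (a := 2) (b := 0) (c := 2) (cn := .pp) (n1 := ndN1q2a) (n2 := ndN2q0) (pc := pcN2) (cut := Cut.none) (xt := Ext.none) (P1 := 0) (W1 := 536870912) (P2 := 0) (W2 := 536870912) (P3 := 134217728) (W3 := 67108864) (N0 := 3)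
    rfl k0_pp_202_a

noncomputable def f_pp_202_b : ℕ → ℕ → ℕ → ℕ → Bool := onCell 1239849684 370763052 0 536870912 134217728 67108864
    (rowN 3 0 true true true .pp 2 0 2 (qsf 1239849684 370763052 0 536870912 2) ndN1q2b ndN2q0 pcN2 Cut.none Ext.none)

def k0_pp_202_b : ∃ t, chk3 f_pp_202_b t 1 1 1 = true :=
  ⟨(l 5), by decide +kernel⟩

theorem c_pp_202_b : CertN 1239849684 370763052 0 536870912 134217728 67108864 3 true true true .pp 2 0 2
    ndN1q2b ndN2q0 pcN2 Cut.none Ext.none :=
  certN0 (fam := true) (s1 := true) (s2 := true) (a := 2) (b := 0) (c := 2) (cn := .pp) (n1 := ndN1q2b) (n2 := ndN2q0) (pc := pcN2) (cut := Cut.none) (xt := Ext.none) (P1 := 1239849684) (W1 := 370763052) (P2 := 0) (W2 := 536870912) (P3 := 134217728) (W3 := 67108864) (N0 := 3)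
    rfl k0_pp_202_b

noncomputable def f_pp_203_a : ℕ → ℕ → ℕ → ℕ → Bool := onCell 0 536870912 0 536870912 134217728 67108864
    (rowN 3 0 true true true .up 2 0 3 (qsf 0 536870912 0 536870912 3) ndN1q2a ndN2q0 pcN3 Cut.none Ext.none)

def k0_pp_203_a : ∃ t, chk3 f_pp_203_a t 1 1 1 = true :=
  ⟨(l 5), by decide +kernel⟩

theorem c_pp_203_a : CertN 0 536870912 0 536870912 134217728 67108864 3 true true true .up 2 0 3
    ndN1q2a ndN2q0 pcN3 Cut.none Ext.none :=
  certN0 (fam := true) (s1 := true) (s2 := true) (a := 2) (b := 0) (c := 3) (cn := .up) (n1 := ndN1q2a) (n2 := ndN2q0) (pc := pcN3) (cut := Cut.none) (xt := Ext.none) (P1 := 0) (W1 := 536870912) (P2 := 0) (W2 := 536870912) (P3 := 134217728) (W3 := 67108864) (N0 := 3)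
    rfl k0_pp_203_a

noncomputable def f_pp_203_b : ℕ → ℕ → ℕ → ℕ → Bool := onCell 1239849684 370763052 0 536870912 134217728 67108864
    (rowN 3 0 true true true .up 2 0 3 (qsf 1239849684 370763052 0 536870912 3) ndN1q2b ndN2q0 pcN3 Cut.none Ext.none)

def k0_pp_203_b : ∃ t, chk3 f_pp_203_b t 1 1 1 = true :=
  ⟨(l 5), by decide +kernel⟩

theorem c_pp_203_b : CertN 1239849684 370763052 0 536870912 134217728 67108864 3 true true true .up 2 0 3
    ndN1q2b ndN2q0 pcN3 Cut.none Ext.none :=
  certN0 (fam := true) (s1 := true) (s2 := true) (a := 2) (b := 0) (c := 3) (cn := .up) (n1 := ndN1q2b) (n2 := ndN2q0) (pc := pcN3) (cut := Cut.none) (xt := Ext.none) (P1 := 1239849684) (W1 := 370763052) (P2 := 0) (W2 := 536870912) (P3 := 134217728) (W3 := 67108864) (N0 := 3)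
    rfl k0_pp_203_b

noncomputable def f_pp_213_a : ℕ → ℕ → ℕ → ℕ → Bool := onCell 0 536870912 536870912 536870912 134217728 67108864
    (rowN 3 0 true true true .pnn 2 1 3 (qsf 0 536870912 536870912 536870912 3) ndN1q2a ndN2q1 pcN3 Cut.none Ext.none)

def k0_pp_213_a : ∃ t, chk3 f_pp_213_a t 1 1 1 = true :=
  ⟨(l 4), by decide +kernel⟩

theorem c_pp_213_a : CertN 0 536870912 536870912 536870912 134217728 67108864 3 true true true .pnn 2 1 3
    ndN1q2a ndN2q1 pcN3 Cut.none Ext.none :=
  certN0 (fam := true) (s1 := true) (s2 := true) (a := 2) (b := 1) (c := 3) (cn := .pnn) (n1 := ndN1q2a) (n2 := ndN2q1) (pc := pcN3) (cut := Cut.none) (xt := Ext.none) (P1 := 0) (W1 := 536870912) (P2 := 536870912) (W2 := 536870912) (P3 := 134217728) (W3 := 67108864) (N0 := 3)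
    rfl k0_pp_213_a

noncomputable def f_pp_213_b : ℕ → ℕ → ℕ → ℕ → Bool := onCell 1239849684 370763052 536870912 536870912 134217728 67108864
    (rowN 3 0 true true true .pnn 2 1 3 (qsf 1239849684 370763052 536870912 536870912 3) ndN1q2b ndN2q1 pcN3 Cut.none Ext.none)

def k0_pp_213_b : ∃ t, chk3 f_pp_213_b t 1 1 1 = true :=
  ⟨(l 4), by decide +kernel⟩

theorem c_pp_213_b : CertN 1239849684 370763052 536870912 536870912 134217728 67108864 3 true true true .pnn 2 1 3
    ndN1q2b ndN2q1 pcN3 Cut.none Ext.none :=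
  certN0 (fam := true) (s1 := true) (s2 := true) (a := 2) (b := 1) (c := 3) (cn := .pnn) (n1 := ndN1q2b) (n2 := ndN2q1) (pc := pcN3) (cut := Cut.none) (xt := Ext.none) (P1 := 1239849684) (W1 := 370763052) (P2 := 536870912) (W2 := 536870912) (P3 := 134217728) (W3 := 67108864) (N0 := 3)
    rfl k0_pp_213_b

noncomputable def f_pp_303 : ℕ → ℕ → ℕ → ℕ → Bool := onCell 1610612736 536870912 0 536870912 134217728 67108864
    (rowN 3 0 true true true .npn 3 0 3 (qsf 1610612736 536870912 0 536870912 3) ndN1q3 ndN2q0 pcN3 Cut.none Ext.none)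

def k0_pp_303 : ∃ t, chk3 f_pp_303 t 1 1 1 = true :=
  ⟨(l 5), by decide +kernel⟩

theorem c_pp_303 : CertN 1610612736 536870912 0 536870912 134217728 67108864 3 true true true .npn 3 0 3
    ndN1q3 ndN2q0 pcN3 Cut.none Ext.none :=
  certN0 (fam := true) (s1 := true) (s2 := true) (a := 3) (b := 0) (c := 3) (cn := .npn) (n1 := ndN1q3) (n2 := ndN2q0) (pc := pcN3) (cut := Cut.none) (xt := Ext.none) (P1 := 1610612736) (W1 := 536870912) (P2 := 0) (W2 := 536870912) (P3 := 134217728) (W3 := 67108864) (N0 := 3)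
    rfl k0_pp_303

noncomputable def f_pp_313 : ℕ → ℕ → ℕ → ℕ → Bool := onCell 1610612736 536870912 536870912 536870912 134217728 67108864
    (rowN 3 0 true true true .dn 3 1 3 (qsf 1610612736 536870912 536870912 536870912 3) ndN1q3 ndN2q1 pcN3 Cut.none Ext.none)

def k0_pp_313 : ∃ t, chk3 f_pp_313 t 1 1 1 = true :=
  ⟨(l 4), by decide +kernel⟩

theorem c_pp_313 : CertN 1610612736 536870912 536870912 536870912 134217728 67108864 3 true true true .dn 3 1 3
    ndN1q3 ndN2q1 pcN3 Cut.none Ext.none :=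
  certN0 (fam := true) (s1 := true) (s2 := true) (a := 3) (b := 1) (c := 3) (cn := .dn) (n1 := ndN1q3) (n2 := ndN2q1) (pc := pcN3) (cut := Cut.none) (xt := Ext.none) (P1 := 1610612736) (W1 := 536870912) (P2 := 536870912) (W2 := 536870912) (P3 := 134217728) (W3 := 67108864) (N0 := 3)
    rfl k0_pp_313

noncomputable def f_pm_001 : ℕ → ℕ → ℕ → ℕ → Bool := onCell 0 536870912 0 536870912 134217728 67108864
    (rowN 3 0 true true false .up 0 0 1 (qsf 0 536870912 0 536870912 1) ndN1q0 ndN2q0 pcN1 Cut.none Ext.none)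

def k0_pm_001 : ∃ t, chk3 f_pm_001 t 1 1 1 = true :=
  ⟨(l 3), by decide +kernel⟩

theorem c_pm_001 : CertN 0 536870912 0 536870912 134217728 67108864 3 true true false .up 0 0 1
    ndN1q0 ndN2q0 pcN1 Cut.none Ext.none :=
  certN0 (fam := true) (s1 := true) (s2 := false) (a := 0) (b := 0) (c := 1) (cn := .up) (n1 := ndN1q0) (n2 := ndN2q0) (pc := pcN1) (cut := Cut.none) (xt := Ext.none) (P1 := 0) (W1 := 536870912) (P2 := 0) (W2 := 536870912) (P3 := 134217728) (W3 := 67108864) (N0 := 3)
    rfl k0_pm_001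

noncomputable def f_pm_011 : ℕ → ℕ → ℕ → ℕ → Bool := onCell 0 536870912 536870912 536870912 134217728 67108864
    (rowN 3 1 true true false .pnn 0 1 1 (qsf 0 536870912 536870912 536870912 1) ndN1q0 ndN2q1 pcN1 Cut.none Ext.none)

def k0_pm_011 : ∃ t, chk3 f_pm_011 t 1 1 1 = true :=
  ⟨(b (l 3) (b (l 3) (l 3))), by decide +kernel⟩

theorem c_pm_011 : CertN 0 536870912 536870912 536870912 134217728 67108864 3 true true false .pnn 0 1 1
    ndN1q0 ndN2q1 pcN1 Cut.none Ext.none :=
  certN1 (fam := true) (s1 := true) (s2 := false) (a := 0) (b := 1) (c := 1) (cn := .pnn) (n1 := ndN1q0) (n2 := ndN2q1) (pc := pcN1) (cut := Cut.none) (xt := Ext.none) (P1 := 0) (W1 := 536870912) (P2 := 536870912) (W2 := 536870912) (P3 := 134217728) (W3 := 67108864) (N0 := 3)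
    rfl (fun _ => rfl) k0_pm_011

noncomputable def f_pm_012 : ℕ → ℕ → ℕ → ℕ → Bool := onCell 1073741824 536870912 536870912 536870912 134217728 67108864
    (rowN 3 2 true true false .pnp 0 1 2 (qsf 0 536870912 536870912 536870912 2) ndN1q0 ndN2q1 pcN2 Cut.none Ext.none)

def k0_pm_012 : ∃ t, chk3 f_pm_012 t 1 1 1 = true :=
  ⟨(a (a (b (a (l 3) (b (l 17331824) (l 180021389351))) (a (b (l 3) (l 3)) (b (a (l 3) (b (l 17626560) (l 17571472))) (b (a (a (l 3) (l 16915688)) (a (l 17134864) (l 17334344))) (a (b (l 16629416) (b (l 16627192) (l 16716408))) (b (l 16516320) (a (l 16532528) (l 16516896)))))))) (b (a (a (a (l 17502984) (b (l 2) (c (l 17684360) (l 17576664)))) (l 17677048)) (l 17751008)) (a (b (a (a (l 17736048) (a (l 17788776) (a (l 17814520) (l 17892992)))) (l 17902680)) (b (a (a (l 17514248) (a (l 17637064) (a (l 17694520) (l 17730560)))) (l 17884568)) (a (a (l 16583696) (a (l 16958832) (b (l 17360024) (l 16820360)))) (b (l 17657648) (l 17292352))))) (b (l 18067424)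 (b (l 18208624) (b (l 18176896) (l 18058680))))))) (b (b (l 2) (l 17933064)) (b (l 18467784) (a (b (l 18582296) (l 18764320)) (l 18894760))))), by decide +kernel⟩

theorem c_pm_012 : CertN 0 536870912 536870912 536870912 134217728 67108864 3 true true false .pnp 0 1 2
    ndN1q0 ndN2q1 pcN2 Cut.none Ext.none :=
  certN2 (fam := true) (s1 := true) (s2 := false) (a := 0) (b := 1) (c := 2) (cn := .pnp) (n1 := ndN1q0) (n2 := ndN2q1) (pc := pcN2) (cut := Cut.none) (xt := Ext.none) (P1 := 0) (W1 := 536870912) (P2 := 536870912) (W2 := 536870912) (P3 := 134217728) (W3 := 67108864) (N0 := 3)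
    rfl (fun _ => rfl) k0_pm_012

noncomputable def cut_pm_022_a : Cut := Cut.of [[⟨0, 0, 0, 67108864⟩, ⟨1, 1, 0, 67108864⟩, ⟨2, 1, 0, 67108864⟩]]

noncomputable def f_pm_022_a : ℕ → ℕ → ℕ → ℕ → Bool := onCell 1073741824 536870912 0 536870912 134217728 67108864
    (rowN 3 2 true true false .pp 0 2 2 (qsf 0 536870912 0 536870912 2) ndN1q0 ndN2q2a pcN2 cut_pm_022_a Ext.none)

def k0_pm_022_a : ∃ t, chk3 f_pm_022_a t 2 2 1 = true :=
  ⟨(a (b (l 1) (a (l 1) (a (l 1) (a (l 1) (b (l 1) (a (l 1) (b (l 1) (c (b (l 155725704359) (l 192232960167)) (l 185790482455))))))))) (a (a (a (b (l 1) (b (a (l 1) (b (c (l 143914500839) (l 137472072791)) (c (l 183642982039) (l 183106098343)))) (a (b (c (a (l 149283258327) (l 172905564471)) (l 175589931015)) (c (b (l 210486545895) (l 16555072)) (l 218002730407))) (c (b (l 214244620919) (l 16541968)) (b (l 16557168) (l 16534160)))))) (a (b (b (l 1) (c (c (l 170758307111) (l 156262549463)) (l 155188801047))) (b (c (b (a (l 161094441031) (l 16650504))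 (l 16595224)) (b (l 185253559927) (l 16523608))) (c (l 16625400) (l 16541648)))) (b (a (b (l 1) (c (b (l 177737422407) (l 16664000)) (l 180958568807))) (c (b (a (b (l 16865976) (l 16759064)) (c (l 17113776) (l 16696848))) (a (b (l 16859520) (l 16852664)) (b (l 16899584) (l 16892552)))) (b (a (l 16512104) (l 16529608)) (a (l 16510656) (l 16507144))))) (b (a (c (l 16777008) (l 16513616)) (c (a (l 16839048) (l 16878504)) (l 16548032))) (a (l 16535000) (b (l 16560104) (l 16546688))))))) (b (a (c (a (b (l 16980120) (l 16990560)) (l 16982528)) (b (l 16517064) (l 16515224))) (c (l 17297248) (l 16624280))) (b (a (c (l 17040888) (l 16512184)) (l 16944352)) (a (l 16616880) (l 16926872))))) (a (b (a (l 17175512) (l 17339624)) (a (l 17142024) (l 17302192))) (b (l 17517664) (l 17477688))))), by decide +kernel⟩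

def k1_pm_022_a : ∃ t, chk3 f_pm_022_a t 4 6 1 = true :=
  ⟨(a (l 1) (a (a (b (l 1) (b (l 1) (a (l 1) (c (c (b (l 128345440999) (a (l 154652121079) (l 184716891511))) (b (l 126197955511) (a (l 157336474119) (l 186327503079)))) (b (l 128882307015) (a (l 162168309783) (l 179885052791))))))) (b (l 1) (a (b (a (l 1) (b (l 1) (c (b (l 1) (l 129956037079)) (l 138545946807)))) (b (a (c (b (l 120292369015) (l 176126942263)) (l 155725847863)) (c (b (l 186327481303) (l 16626240)) (l 192233061575))) (c (a (l 16633136) (l 16625024)) (a (l 16631600) (l 16623568))))) (b (b (a (l 1) (c (l 153041460023) (l 142304037527))) (a (c (b (l 143377794119) (l 197064883559)) (l 169684468007)) (c (l 213170998631) (l 16610680)))) (c (b (a (l 16618744) (l 16611464)) (l 16634936)) (b (l 16634696) (l 16612328))))))) (a (b (a (b (l 1) (b (l 1) (a (c (l 128345365367) (l 119755445719)) (c (l 164315721847) (l 167536942151))))) (b (c (b (l 1) (l 141230280263)) (l 146062110183)) (b (c (a (l 152504549911) (l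 194917337847)) (l 179884974151)) (c (a (l 213170960551) (l 16587264)) (l 219076549063))))) (a (b (c (b (a (l 186327441111) (l 16600080)) (l 16624064)) (b (a (l 189011791687) (l 16596872)) (l 16621240))) (c (l 16621280) (l 16619008))) (b (c (l 16610120) (l 16606656)) (l 16604624)))) (b (a (b (c (c (l 169684393447) (l 171831871847)) (b (l 160020723191) (l 197064814519))) (c (b (l 16599760) (l 16577208)) (l 16594320))) (b (c (b (l 219613374503) (l 16566152)) (l 16581944)) (c (l 16563704) (l 16558408)))) (b (a (l 16593344) (l 16578288)) (l 16618888)))))), by decide +kernel⟩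

def k2_pm_022_a : ∃ t, chk3 f_pm_022_a t 4 7 1 = true :=
  ⟨(a (a (b (l 1) (l 6)) (a (b (b (l 1) (l 6)) (l 6)) (a (b (b (l 1) (l 6)) (l 6)) (a (b (b (b (l 1) (b (l 1) (l 6))) (l 6)) (l 6)) (b (b (b (l 1) (c (c (a (l 165926454039) (l 189011905463)) (l 175590140743)) (a (l 171295170663) (l 195991227143)))) (b (c (l 16668728) (l 16667976)) (l 16667888))) (b (l 16695296) (l 16737288))))))) (a (a (b (b (a (c (c (b (a (l 146599084807) (l 177737597543)) (a (l 16667328) (l 16654528))) (b (a (l 150357179975) (l 179348209735)) (l 208339253911))) (b (a (l 155725887031) (l 182032554711)) (a (l 206728640871) (l 16653344)))) (b (c (c (l 16654560) (l 16653976)) (a (l 16646432) (l 16638560))) (l 16656368))) (c (b (l 16670288) (l 16665336)) (l 16674472))) (b (l 16695856) (l 16739112))) (b (b (a (c (l 16658952) (l 16668488)) (l 16659632)) (c (l 16757488) (l 16761896))) (b (b (l 16746064) (l 16767536)) (l 16864160)))) (a (b (b (b (l 16665840) (l 16663880)) (l 16693880)) (c (l 16822728) (l 16843000)))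 (b (a (l 16637624) (l 16637920)) (a (l 16724872) (l 16725864)))))), by decide +kernel⟩

def k3_pm_022_a : ∃ t, chk3 f_pm_022_a t 5 3 1 = true :=
  ⟨(b (a (a (a (b (b (c (l 16589200) (l 16582176)) (l 16598008)) (b (l 16585384) (l 16577968))) (b (a (l 16539496) (c (l 16781304) (l 16608040))) (a (l 16562600) (l 16690288)))) (b (a (l 16654952) (l 16911248)) (l 16794136))) (a (b (l 17188536) (l 17163224)) (l 17407656))) (a (a (a (b (l 16657840) (l 16704624)) (a (b (l 16639488) (l 16729360)) (b (a (l 16640392) (l 16641648)) (a (l 16730760) (l 16732408))))) (b (l 16820304) (l 16863432))) (a (b (l 17147688) (l 17148808)) (b (l 17353440) (l 17321664))))), by decide +kernel⟩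

def k4_pm_022_a : ∃ t, chk3 f_pm_022_a t 3 1 1 = true :=
  ⟨(b (a (b (l 17796384) (l 18011272)) (l 17827904)) (a (b (a (l 17609648) (l 17728624)) (a (l 17513360) (l 17621120))) (b (l 17750968) (l 17649224)))), by decide +kernel⟩

theorem s5_pm_022_a : ∃ t, chk3 f_pm_022_a t 4 3 1 = true := ex3_b k1_pm_022_a k2_pm_022_a

theorem s6_pm_022_a : ∃ t, chk3 f_pm_022_a t 2 3 1 = true := ex3_a s5_pm_022_a k3_pm_022_a

theorem s7_pm_022_a : ∃ t, chk3 f_pm_022_a t 2 1 1 = true := ex3_b k0_pm_022_a s6_pm_022_a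

theorem s8_pm_022_a : ∃ t, chk3 f_pm_022_a t 1 1 1 = true := ex3_a s7_pm_022_a k4_pm_022_a

theorem c_pm_022_a : CertN 0 536870912 0 536870912 134217728 67108864 3 true true false .pp 0 2 2
    ndN1q0 ndN2q2a pcN2 cut_pm_022_a Ext.none :=
  certN2 (fam := true) (s1 := true) (s2 := false) (a := 0) (b := 2) (c := 2) (cn := .pp) (n1 := ndN1q0) (n2 := ndN2q2a) (pc := pcN2) (cut := cut_pm_022_a) (xt := Ext.none) (P1 := 0) (W1 := 536870912) (P2 := 0) (W2 := 536870912) (P3 := 134217728) (W3 := 67108864) (N0 := 3)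
    rfl (fun _ => rfl) s8_pm_022_a

noncomputable def cut_pm_022_b : Cut := Cut.of [[⟨0, 0, 0, 67108864⟩, ⟨1, 1, 0, 67108864⟩, ⟨2, 1, 0, 67108864⟩]]

noncomputable def f_pm_022_b : ℕ → ℕ → ℕ → ℕ → Bool := onCell 0 536870912 1073741824 536870912 134217728 67108864
    (rowN 3 1 true true false .pp 0 2 2 (qsf 0 536870912 1239849684 370763052 2) ndN1q0 ndN2q2b pcN2 cut_pm_022_b Ext.none)

def k0_pm_022_b : ∃ t, chk3 f_pm_022_b t 1 1 1 = true :=
  ⟨(a (b (a (b (l 1) (b (a (b (b (l 1) (b (l 1) (a (b (l 1) (a (a (b (l 1) (c (l 16712472) (l 16508576))) (l 1)) (l 1))) (l 1)))) (a (a (b (c (b (l 16914272) (l 17151632)) (l 16517928)) (c (l 17270752) (l 16645600))) (c (l 80027633575) (l 16551384))) (b (l 1) (l 16935128)))) (l 1)) (a (b (a (c (b (l 17556824) (l 17743576)) (b (a (l 16933336) (l 16906312)) (l 17156576))) (c (l 17556264) (l 16989976))) (c (a (l 17965568) (l 17859144)) (a (b (l 17356272) (l 17520880)) (l 17366304)))) (b (a (l 17210312) (l 1)) (l 17488952))))) (l 1)) (b (a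 (b (a (c (l 18214784) (l 17791976)) (l 17820504)) (a (l 18284504) (l 18105640))) (b (l 211025925703) (l 17843600))) (a (l 18410464) (l 18084512)))) (b (l 1) (b (l 1) (a (l 17771512) (l 1))))), by decide +kernel⟩

theorem c_pm_022_b : CertN 0 536870912 1239849684 370763052 134217728 67108864 3 true true false .pp 0 2 2
    ndN1q0 ndN2q2b pcN2 cut_pm_022_b Ext.none :=
  certN1 (fam := true) (s1 := true) (s2 := false) (a := 0) (b := 2) (c := 2) (cn := .pp) (n1 := ndN1q0) (n2 := ndN2q2b) (pc := pcN2) (cut := cut_pm_022_b) (xt := Ext.none) (P1 := 0) (W1 := 536870912) (P2 := 1239849684) (W2 := 370763052) (P3 := 134217728) (W3 := 67108864) (N0 := 3)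
    rfl (fun _ => rfl) k0_pm_022_b

noncomputable def f_pm_023_a : ℕ → ℕ → ℕ → ℕ → Bool := onCell 1610612736 536870912 0 536870912 134217728 67108864
    (rowN 3 2 true true false .up 0 2 3 (qsf 0 536870912 0 536870912 3) ndN1q0 ndN2q2a pcN3 Cut.none Ext.none)

def k0_pm_023_a : ∃ t, chk3 f_pm_023_a t 1 1 1 = true :=
  ⟨(a (a (l 17936904) (b (l 17857336) (l 17880264))) (l 2)), by decide +kernel⟩

theorem c_pm_023_a : CertN 0 536870912 0 536870912 134217728 67108864 3 true true false .up 0 2 3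
    ndN1q0 ndN2q2a pcN3 Cut.none Ext.none :=
  certN2 (fam := true) (s1 := true) (s2 := false) (a := 0) (b := 2) (c := 3) (cn := .up) (n1 := ndN1q0) (n2 := ndN2q2a) (pc := pcN3) (cut := Cut.none) (xt := Ext.none) (P1 := 0) (W1 := 536870912) (P2 := 0) (W2 := 536870912) (P3 := 134217728) (W3 := 67108864) (N0 := 3)
    rfl (fun _ => rfl) k0_pm_023_a

noncomputable def f_pm_023_b : ℕ → ℕ → ℕ → ℕ → Bool := onCell 1610612736 536870912 1239849684 370763052 134217728 67108864
    (rowN 3 2 true true false .up 0 2 3 (qsf 0 536870912 1239849684 370763052 3) ndN1q0 ndN2q2b pcN3 Cut.none Ext.none)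

def k0_pm_023_b : ∃ t, chk3 f_pm_023_b t 1 1 1 = true :=
  ⟨(a (a (b (l 18020568) (l 18153856)) (a (l 17964624) (l 17866824))) (a (b (l 17717552) (l 17796760)) (l 4))), by decide +kernel⟩

theorem c_pm_023_b : CertN 0 536870912 1239849684 370763052 134217728 67108864 3 true true false .up 0 2 3
    ndN1q0 ndN2q2b pcN3 Cut.none Ext.none :=
  certN2 (fam := true) (s1 := true) (s2 := false) (a := 0) (b := 2) (c := 3) (cn := .up) (n1 := ndN1q0) (n2 := ndN2q2b) (pc := pcN3) (cut := Cut.none) (xt := Ext.none) (P1 := 0) (W1 := 536870912) (P2 := 1239849684) (W2 := 370763052) (P3 := 134217728) (W3 := 67108864) (N0 := 3)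
    rfl (fun _ => rfl) k0_pm_023_b

noncomputable def f_pm_033 : ℕ → ℕ → ℕ → ℕ → Bool := onCell 0 536870912 1610612736 536870912 134217728 67108864
    (rowN 3 1 true true false .pnn 0 3 3 (qsf 0 536870912 1610612736 536870912 3) ndN1q0 ndN2q3 pcN3 Cut.none Ext.none)

def k0_pm_033 : ∃ t, chk3 f_pm_033 t 1 1 1 = true :=
  ⟨(b (b (a (l 17905768) (l 1)) (a (b (l 17827184) (l 17827632)) (l 358664845223))) (b (a (b (l 17827024) (l 4)) (l 17506808)) (l 4))), by decide +kernel⟩

theorem c_pm_033 : CertN 0 536870912 1610612736 536870912 134217728 67108864 3 true true false .pnn 0 3 3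
    ndN1q0 ndN2q3 pcN3 Cut.none Ext.none :=
  certN1 (fam := true) (s1 := true) (s2 := false) (a := 0) (b := 3) (c := 3) (cn := .pnn) (n1 := ndN1q0) (n2 := ndN2q3) (pc := pcN3) (cut := Cut.none) (xt := Ext.none) (P1 := 0) (W1 := 536870912) (P2 := 1610612736) (W2 := 536870912) (P3 := 134217728) (W3 := 67108864) (N0 := 3)
    rfl (fun _ => rfl) k0_pm_033

noncomputable def f_pm_101 : ℕ → ℕ → ℕ → ℕ → Bool := onCell 536870912 536870912 0 536870912 134217728 67108864
    (rowN 3 2 true true false .npn 1 0 1 (qsf 536870912 536870912 0 536870912 1) ndN1q1 ndN2q0 pcN1 Cut.none Ext.none)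

def k0_pm_101 : ∃ t, chk3 f_pm_101 t 1 1 1 = true :=
  ⟨(a (l 3) (l 3)), by decide +kernel⟩

theorem c_pm_101 : CertN 536870912 536870912 0 536870912 134217728 67108864 3 true true false .npn 1 0 1
    ndN1q1 ndN2q0 pcN1 Cut.none Ext.none :=
  certN2 (fam := true) (s1 := true) (s2 := false) (a := 1) (b := 0) (c := 1) (cn := .npn) (n1 := ndN1q1) (n2 := ndN2q0) (pc := pcN1) (cut := Cut.none) (xt := Ext.none) (P1 := 536870912) (W1 := 536870912) (P2 := 0) (W2 := 536870912) (P3 := 134217728) (W3 := 67108864) (N0 := 3)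
    rfl (fun _ => rfl) k0_pm_101

noncomputable def f_pm_102 : ℕ → ℕ → ℕ → ℕ → Bool := onCell 536870912 536870912 1073741824 536870912 134217728 67108864
    (rowN 3 1 true true false .npp 1 0 2 (qsf 536870912 536870912 0 536870912 2) ndN1q1 ndN2q0 pcN2 Cut.none Ext.none)

def k0_pm_102 : ∃ t, chk3 f_pm_102 t 1 1 1 = true :=
  ⟨(a (b (b (b (l 3) (l 17288240)) (b (b (b (l 17058192) (b (l 17040552) (l 17133992))) (l 17000080)) (l 16938200))) (l 17148664)) (b (b (b (l 3) (l 3)) (b (b (b (a (l 17147096) (l 203642551767)) (a (b (l 17154288) (l 17153256)) (b (a (l 17154072) (l 17070376)) (b (a (l 17169152) (l 17062488)) (l 17252288))))) (a (l 17153360) (a (l 17222024) (l 17017792)))) (a (l 17186904) (a (l 17343272) (l 17277992))))) (a (l 17350360) (a (l 17614096) (l 18033616))))), by decide +kernel⟩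

theorem c_pm_102 : CertN 536870912 536870912 0 536870912 134217728 67108864 3 true true false .npp 1 0 2
    ndN1q1 ndN2q0 pcN2 Cut.none Ext.none :=
  certN1 (fam := true) (s1 := true) (s2 := false) (a := 1) (b := 0) (c := 2) (cn := .npp) (n1 := ndN1q1) (n2 := ndN2q0) (pc := pcN2) (cut := Cut.none) (xt := Ext.none) (P1 := 536870912) (W1 := 536870912) (P2 := 0) (W2 := 536870912) (P3 := 134217728) (W3 := 67108864) (N0 := 3)
    rfl (fun _ => rfl) k0_pm_102

noncomputable def f_pm_112 : ℕ → ℕ → ℕ → ℕ → Bool := onCell 536870912 536870912 1073741824 536870912 134217728 67108864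
    (rowN 3 1 true true false .dn 1 1 2 (qsf 536870912 536870912 536870912 536870912 2) ndN1q1 ndN2q1 pcN2 Cut.none Ext.none)

def k0_pm_112 : ∃ t, chk3 f_pm_112 t 1 1 1 = true :=
  ⟨(a (b (b (b (l 3) (l 343767472663)) (b (b (b (l 17748160) (b (l 17764912) (l 17796072))) (l 17804840)) (l 17875152))) (b (l 18016904) (l 18228104))) (b (b (l 1) (b (l 1) (l 17741032))) (l 385509259079))), by decide +kernel⟩

theorem c_pm_112 : CertN 536870912 536870912 536870912 536870912 134217728 67108864 3 true true false .dn 1 1 2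
    ndN1q1 ndN2q1 pcN2 Cut.none Ext.none :=
  certN1 (fam := true) (s1 := true) (s2 := false) (a := 1) (b := 1) (c := 2) (cn := .dn) (n1 := ndN1q1) (n2 := ndN2q1) (pc := pcN2) (cut := Cut.none) (xt := Ext.none) (P1 := 536870912) (W1 := 536870912) (P2 := 536870912) (W2 := 536870912) (P3 := 134217728) (W3 := 67108864) (N0 := 3)
    rfl (fun _ => rfl) k0_pm_112

noncomputable def f_pm_113 : ℕ → ℕ → ℕ → ℕ → Bool := onCell 536870912 536870912 1610612736 536870912 134217728 67108864
    (rowN 3 1 true true false .nn 1 1 3 (qsf 536870912 536870912 536870912 536870912 3) ndN1q1 ndN2q1 pcN3 Cut.none Ext.none)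

def k0_pm_113 : ∃ t, chk3 f_pm_113 t 1 1 1 = true :=
  ⟨(a (b (b (l 18292808) (l 18591696)) (b (l 99963529719) (l 2))) (b (b (l 17516472) (l 17623032)) (b (l 17797576) (b (l 17991536) (b (l 18123808) (b (l 18217384) (l 18320064))))))), by decide +kernel⟩

theorem c_pm_113 : CertN 536870912 536870912 536870912 536870912 134217728 67108864 3 true true false .nn 1 1 3
    ndN1q1 ndN2q1 pcN3 Cut.none Ext.none :=
  certN1 (fam := true) (s1 := true) (s2 := false) (a := 1) (b := 1) (c := 3) (cn := .nn) (n1 := ndN1q1) (n2 := ndN2q1) (pc := pcN3) (cut := Cut.none) (xt := Ext.none) (P1 := 536870912) (W1 := 536870912) (P2 := 536870912) (W2 := 536870912) (P3 := 134217728) (W3 := 67108864) (N0 := 3)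
    rfl (fun _ => rfl) k0_pm_113

noncomputable def f_pm_123_a : ℕ → ℕ → ℕ → ℕ → Bool := onCell 1610612736 536870912 0 536870912 134217728 67108864
    (rowN 3 2 true true false .npn 1 2 3 (qsf 536870912 536870912 0 536870912 3) ndN1q1 ndN2q2a pcN3 Cut.none Ext.none)

def k0_pm_123_a : ∃ t, chk3 f_pm_123_a t 1 1 1 = true :=
  ⟨(a (a (l 17295648) (b (l 17150136) (l 17236120))) (a (b (l 16997096) (a (l 17098760) (l 17011904))) (a (l 17132976) (l 4)))), by decide +kernel⟩

theorem c_pm_123_a : CertN 536870912 536870912 0 536870912 134217728 67108864 3 true true false .npn 1 2 3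
    ndN1q1 ndN2q2a pcN3 Cut.none Ext.none :=
  certN2 (fam := true) (s1 := true) (s2 := false) (a := 1) (b := 2) (c := 3) (cn := .npn) (n1 := ndN1q1) (n2 := ndN2q2a) (pc := pcN3) (cut := Cut.none) (xt := Ext.none) (P1 := 536870912) (W1 := 536870912) (P2 := 0) (W2 := 536870912) (P3 := 134217728) (W3 := 67108864) (N0 := 3)
    rfl (fun _ => rfl) k0_pm_123_a

noncomputable def f_pm_123_b : ℕ → ℕ → ℕ → ℕ → Bool := onCell 1610612736 536870912 1239849684 370763052 134217728 67108864
    (rowN 3 2 true true false .npn 1 2 3 (qsf 536870912 536870912 1239849684 370763052 3) ndN1q1 ndN2q2b pcN3 Cut.none Ext.none)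

def k0_pm_123_b : ∃ t, chk3 f_pm_123_b t 1 1 1 = true :=
  ⟨(a (a (l 1) (a (l 17035056) (l 16990576))) (a (b (l 17184504) (l 16896472)) (l 4))), by decide +kernel⟩

theorem c_pm_123_b : CertN 536870912 536870912 1239849684 370763052 134217728 67108864 3 true true false .npn 1 2 3
    ndN1q1 ndN2q2b pcN3 Cut.none Ext.none :=
  certN2 (fam := true) (s1 := true) (s2 := false) (a := 1) (b := 2) (c := 3) (cn := .npn) (n1 := ndN1q1) (n2 := ndN2q2b) (pc := pcN3) (cut := Cut.none) (xt := Ext.none) (P1 := 536870912) (W1 := 536870912) (P2 := 1239849684) (W2 := 370763052) (P3 := 134217728) (W3 := 67108864) (N0 := 3)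
    rfl (fun _ => rfl) k0_pm_123_b

noncomputable def f_pm_133 : ℕ → ℕ → ℕ → ℕ → Bool := onCell 536870912 536870912 1610612736 536870912 134217728 67108864
    (rowN 3 0 true true false .dn 1 3 3 (qsf 536870912 536870912 1610612736 536870912 3) ndN1q1 ndN2q3 pcN3 Cut.none Ext.none)

def k0_pm_133 : ∃ t, chk3 f_pm_133 t 1 1 1 = true :=
  ⟨(l 4), by decide +kernel⟩

theorem c_pm_133 : CertN 536870912 536870912 1610612736 536870912 134217728 67108864 3 true true false .dn 1 3 3
    ndN1q1 ndN2q3 pcN3 Cut.none Ext.none :=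
  certN0 (fam := true) (s1 := true) (s2 := false) (a := 1) (b := 3) (c := 3) (cn := .dn) (n1 := ndN1q1) (n2 := ndN2q3) (pc := pcN3) (cut := Cut.none) (xt := Ext.none) (P1 := 536870912) (W1 := 536870912) (P2 := 1610612736) (W2 := 536870912) (P3 := 134217728) (W3 := 67108864) (N0 := 3)
    rfl k0_pm_133

noncomputable def cut_pm_202_a : Cut := Cut.of [[⟨0, 1, 0, 67108864⟩, ⟨1, 0, 0, 67108864⟩, ⟨2, 1, 0, 67108864⟩]]

noncomputable def f_pm_202_a : ℕ → ℕ → ℕ → ℕ → Bool := onCell 0 536870912 1073741824 536870912 134217728 67108864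
    (rowN 3 1 true true false .pp 2 0 2 (qsf 0 536870912 0 536870912 2) ndN1q2a ndN2q0 pcN2 cut_pm_202_a Ext.none)

def k0_pm_202_a : ∃ t, chk3 f_pm_202_a t 2 1 1 = true :=
  ⟨(b (a (b (l 1) (b (b (b (l 1) (b (a (l 1) (b (l 1) (c (a (l 1) (l 312492099447)) (l 280816525383)))) (b (a (l 1) (c (a (l 313028964391) (l 16773520)) (l 304975711431))) (a (b (c (a (l 16846288) (l 16844888)) (l 16501352)) (c (a (l 16888848) (l 16886592)) (l 16519080))) (b (c (a (l 16842032) (l 16837400)) (l 16502264)) (c (a (l 16882872) (l 16877968)) (l 16519896))))))) (b (a (c (b (l 16986344) (l 17124720)) (l 16510304)) (c (b (l 16978400) (l 17116320)) (l 16511224))) (a (l 16955384) (l 16950640)))) (b (b (l 17167968) (l 17331448)) (l 17506880)))) (b (a (l 1) (b (l 1) (b (l 1) (b (l 1) (c (b (l 1) (a (l 1) (b (l 320545032247) (l 323766281271)))) (b (l 1) (a (l 1) (b (l 321618751239) (l 319471290807))))))))) (b (b (b (c (a (b (l 1) (a (l 278132230823) (l 338798643607))) (b (a (l 338261801559) (l 365642227783))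 (a (l 364568466599) (l 16529768)))) (a (b (l 1) (b (l 301754498071) (l 285648360695))) (b (a (l 371547758391) (l 16556592)) (a (l 16533192) (l 16514400))))) (b (a (c (c (a (l 322692842215) (l 16849248)) (l 332893070439)) (a (l 316786917975) (l 16520864))) (a (l 16551984) (l 16532464))) (a (b (c (l 16765888) (l 16489632)) (a (b (l 16513072) (l 16530400)) (l 16596416))) (b (l 16523288) (l 16610184))))) (b (a (b (l 16573784) (l 16736736)) (l 16655872)) (a (l 16941192) (l 16928680)))) (b (a (l 17241408) (l 17221040)) (l 17480968))))) (b (b (l 17692712) (l 17800864)) (l 17929880))), by decide +kernel⟩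

def k1_pm_202_a : ∃ t, chk3 f_pm_202_a t 6 2 1 = true :=
  ⟨(b (a (b (l 1) (b (l 1) (b (b (a (l 1) (a (l 1) (b (c (l 291017229351) (l 281353542615)) (c (l 321081989671) (l 314639526903))))) (a (b (l 1) (c (l 308733927399) (l 310344523863))) (b (c (a (l 333429984455) (l 16589528)) (l 316787006503)) (c (l 364568521063) (l 361884152695))))) (c (b (a (b (l 303902079511) (l 340409302663)) (l 16590528)) (a (b (l 16562224) (l 16547128)) (l 16554288))) (b (a (b (l 297459610631) (l 332356208695)) (l 16586872)) (a (l 16570952) (l 16543728))))))) (b (l 1) (b (b (a (l 1) (c (b (l 1) (c (a (l 302828481783) (b (l 332356376007) (l 354368069111))) (a (l 295849136039) (b (l 326450793191) (l 351683711687))))) (b (l 1) (a (b (l 1) (l 280279868023)) (b (l 318397725319) (l 347925611047)))))) (b (a (a (l 1) (a (l 1) (b (l 1) (c (l 315713339975) (l 299070335495))))) (b (a (c (a (l 300680951719) (l 342556886535)) (l 310881494951)) (c (l 16625232) (l 16622376))) (a (c (a (l 350073081783) (l 16635848))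 (l 351146831207)) (l 16631944)))) (c (b (a (a (l 1) (a (l 323766386487) (l 366716067255))) (l 16624472)) (a (a (l 321618887895) (l 383359054391)) (l 16603360))) (a (b (b (l 288332900183) (l 303902150599)) (a (l 311955202935) (l 16604728))) (a (l 16638720) (l 16626672)))))) (c (b (b (a (a (b (l 352757394759) (l 16584296)) (l 16613336)) (l 16597192)) (a (l 16600712) (l 16585632))) (a (l 16632648) (l 16596040))) (b (b (a (a (a (l 358126123703) (l 16616152)) (l 16608016)) (l 16592128)) (a (l 16593856) (l 16580464))) (l 16660096)))))) (b (b (b (a (b (a (l 16566080) (l 16538208)) (l 16568040)) (l 16630632)) (b (a (l 16536208) (l 16542456)) (a (l 16700488) (l 16666904)))) (a (b (l 16656632) (l 16915448)) (l 16793152))) (b (l 17178512) (l 17415952)))), by decide +kernel⟩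

def k2_pm_202_a : ∃ t, chk3 f_pm_202_a t 7 2 1 = true :=
  ⟨(b (a (b (b (l 1) (b (a (l 1) (l 6)) (a (b (l 1) (a (l 1) (b (a (l 1) (l 6)) (a (c (c (l 339872623319) (l 338798879143)) (l 337188262839)) (c (b (l 6) (l 16668504)) (l 16667600)))))) (b (l 6) (b (l 6) (b (l 6) (l 16686960))))))) (b (b (a (b (b (a (a (l 1) (c (b (l 315713417047) (l 342556956455)) (l 333967019943))) (c (c (l 393022849143) (l 16672456)) (l 374232363543))) (a (c (c (l 348462536231) (l 345778168551)) (l 342020089175)) (l 16665200))) (a (c (c (l 16651984) (l 16650600)) (l 375306071159)) (l 16638704))) (a (l 16682136) (l 16660832))) (b (a (a (l 16673480) (l 16651520)) (l 16660624)) (a (l 16655240) (l 16638624)))) (b (a (l 16709536) (l 16685648)) (l 16667728)))) (b (b (l 6) (b (l 6) (a (b (l 6) (l 16690008)) (l 16708680)))) (b (b (a (l 16671184) (l 16702272)) (a (l 16806992) (l 16797304))) (b (l 16753352) (l 16666680))))) (b (b (b (a (l 16598704) (l 16662072)) (b (l 16628664) (a (l 16636456) (l 16659536))))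 (a (l 16800392) (l 16826640))) (b (l 17119992) (l 17323224)))), by decide +kernel⟩

def k3_pm_202_a : ∃ t, chk3 f_pm_202_a t 3 3 1 = true :=
  ⟨(b (a (l 17698592) (l 17592120)) (a (l 17771776) (l 17674240))), by decide +kernel⟩

theorem s4_pm_202_a : ∃ t, chk3 f_pm_202_a t 3 2 1 = true := ex3_a k1_pm_202_a k2_pm_202_a

theorem s5_pm_202_a : ∃ t, chk3 f_pm_202_a t 3 1 1 = true := ex3_b s4_pm_202_a k3_pm_202_a

theorem s6_pm_202_a : ∃ t, chk3 f_pm_202_a t 1 1 1 = true := ex3_a k0_pm_202_a s5_pm_202_a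

theorem c_pm_202_a : CertN 0 536870912 0 536870912 134217728 67108864 3 true true false .pp 2 0 2
    ndN1q2a ndN2q0 pcN2 cut_pm_202_a Ext.none :=
  certN1 (fam := true) (s1 := true) (s2 := false) (a := 2) (b := 0) (c := 2) (cn := .pp) (n1 := ndN1q2a) (n2 := ndN2q0) (pc := pcN2) (cut := cut_pm_202_a) (xt := Ext.none) (P1 := 0) (W1 := 536870912) (P2 := 0) (W2 := 536870912) (P3 := 134217728) (W3 := 67108864) (N0 := 3)
    rfl (fun _ => rfl) s6_pm_202_a

noncomputable def cut_pm_202_b : Cut := Cut.of [[⟨0, 1, 0, 67108864⟩, ⟨1, 0, 0, 67108864⟩, ⟨2, 1, 0, 67108864⟩]]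

noncomputable def f_pm_202_b : ℕ → ℕ → ℕ → ℕ → Bool := onCell 1073741824 536870912 0 536870912 134217728 67108864
    (rowN 3 2 true true false .pp 2 0 2 (qsf 1239849684 370763052 0 536870912 2) ndN1q2b ndN2q0 pcN2 cut_pm_202_b Ext.none)

def k0_pm_202_b : ∃ t, chk3 f_pm_202_b t 1 1 1 = true :=
  ⟨(a (b (a (l 1) (a (b (b (a (a (l 1) (a (l 1) (b (a (l 1) (a (l 1) (b (c (l 16859160) (l 16502784)) (l 1)))) (l 1)))) (b (b (a (c (b (l 17029648) (l 17056696)) (l 16509744)) (c (l 17341272) (l 16616080))) (l 48888458663)) (b (l 16807240) (l 1)))) (l 1)) (l 1)) (b (b (a (b (a (b (c (l 17569672) (l 16904808)) (l 17206328)) (c (l 17733936) (l 17132832))) (l 17261720)) (b (c (l 17959328) (a (l 17333616) (l 17500136))) (l 17602712))) (a (l 17159488) (l 17463288))) (l 1)))) (l 1)) (a (b (b (b (a (b (c (l 18274280) (l 17823640)) (l 17962528)) (l 18309496)) (a (l 17811944) (l 18130600))) (a (b (l 17593744) (l 1)) (l 17796224))) (l 1)) (b (b (b (l 18548112) (l 18403264)) (l 18320656)) (b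 (a (l 17553856) (l 17761384)) (l 1))))), by decide +kernel⟩

theorem c_pm_202_b : CertN 1239849684 370763052 0 536870912 134217728 67108864 3 true true false .pp 2 0 2
    ndN1q2b ndN2q0 pcN2 cut_pm_202_b Ext.none :=
  certN2 (fam := true) (s1 := true) (s2 := false) (a := 2) (b := 0) (c := 2) (cn := .pp) (n1 := ndN1q2b) (n2 := ndN2q0) (pc := pcN2) (cut := cut_pm_202_b) (xt := Ext.none) (P1 := 1239849684) (W1 := 370763052) (P2 := 0) (W2 := 536870912) (P3 := 134217728) (W3 := 67108864) (N0 := 3)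
    rfl (fun _ => rfl) k0_pm_202_b

noncomputable def f_pm_203_a : ℕ → ℕ → ℕ → ℕ → Bool := onCell 0 536870912 1610612736 536870912 134217728 67108864
    (rowN 3 1 true true false .up 2 0 3 (qsf 0 536870912 0 536870912 3) ndN1q2a ndN2q0 pcN3 Cut.none Ext.none)

def k0_pm_203_a : ∃ t, chk3 f_pm_203_a t 1 1 1 = true :=
  ⟨(b (b (a (l 18094672) (b (l 17974128) (l 17881800))) (a (l 17842560) (b (l 17810104) (l 2)))) (l 2)), by decide +kernel⟩

theorem c_pm_203_a : CertN 0 536870912 0 536870912 134217728 67108864 3 true true false .up 2 0 3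
    ndN1q2a ndN2q0 pcN3 Cut.none Ext.none :=
  certN1 (fam := true) (s1 := true) (s2 := false) (a := 2) (b := 0) (c := 3) (cn := .up) (n1 := ndN1q2a) (n2 := ndN2q0) (pc := pcN3) (cut := Cut.none) (xt := Ext.none) (P1 := 0) (W1 := 536870912) (P2 := 0) (W2 := 536870912) (P3 := 134217728) (W3 := 67108864) (N0 := 3)
    rfl (fun _ => rfl) k0_pm_203_a

noncomputable def f_pm_203_b : ℕ → ℕ → ℕ → ℕ → Bool := onCell 1239849684 370763052 1610612736 536870912 134217728 67108864
    (rowN 3 1 true true false .up 2 0 3 (qsf 1239849684 370763052 0 536870912 3) ndN1q2b ndN2q0 pcN3 Cut.none Ext.none)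

def k0_pm_203_b : ∃ t, chk3 f_pm_203_b t 1 1 1 = true :=
  ⟨(b (b (a (b (l 18009880) (l 17924560)) (b (a (l 18265896) (l 18299592)) (l 18262616))) (a (l 4) (l 18114120))) (l 4)), by decide +kernel⟩

theorem c_pm_203_b : CertN 1239849684 370763052 0 536870912 134217728 67108864 3 true true false .up 2 0 3
    ndN1q2b ndN2q0 pcN3 Cut.none Ext.none :=
  certN1 (fam := true) (s1 := true) (s2 := false) (a := 2) (b := 0) (c := 3) (cn := .up) (n1 := ndN1q2b) (n2 := ndN2q0) (pc := pcN3) (cut := Cut.none) (xt := Ext.none) (P1 := 1239849684) (W1 := 370763052) (P2 := 0) (W2 := 536870912) (P3 := 134217728) (W3 := 67108864) (N0 := 3)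
    rfl (fun _ => rfl) k0_pm_203_b

noncomputable def f_pm_213_a : ℕ → ℕ → ℕ → ℕ → Bool := onCell 0 536870912 1610612736 536870912 134217728 67108864
    (rowN 3 1 true true false .pnn 2 1 3 (qsf 0 536870912 536870912 536870912 3) ndN1q2a ndN2q1 pcN3 Cut.none Ext.none)

def k0_pm_213_a : ∃ t, chk3 f_pm_213_a t 1 1 1 = true :=
  ⟨(b (b (b (a (l 1) (l 17269136)) (a (l 17424984) (l 17377880))) (a (l 17174200) (b (l 17448912) (l 17450752)))) (b (l 4) (l 4))), by decide +kernel⟩

theorem c_pm_213_a : CertN 0 536870912 536870912 536870912 134217728 67108864 3 true true false .pnn 2 1 3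
    ndN1q2a ndN2q1 pcN3 Cut.none Ext.none :=
  certN1 (fam := true) (s1 := true) (s2 := false) (a := 2) (b := 1) (c := 3) (cn := .pnn) (n1 := ndN1q2a) (n2 := ndN2q1) (pc := pcN3) (cut := Cut.none) (xt := Ext.none) (P1 := 0) (W1 := 536870912) (P2 := 536870912) (W2 := 536870912) (P3 := 134217728) (W3 := 67108864) (N0 := 3)
    rfl (fun _ => rfl) k0_pm_213_a

noncomputable def f_pm_213_b : ℕ → ℕ → ℕ → ℕ → Bool := onCell 1239849684 370763052 536870912 536870912 134217728 67108864
    (rowN 3 0 true true false .pnn 2 1 3 (qsf 1239849684 370763052 536870912 536870912 3) ndN1q2b ndN2q1 pcN3 Cut.none Ext.none)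

def k0_pm_213_b : ∃ t, chk3 f_pm_213_b t 1 1 1 = true :=
  ⟨(l 4), by decide +kernel⟩

theorem c_pm_213_b : CertN 1239849684 370763052 536870912 536870912 134217728 67108864 3 true true false .pnn 2 1 3
    ndN1q2b ndN2q1 pcN3 Cut.none Ext.none :=
  certN0 (fam := true) (s1 := true) (s2 := false) (a := 2) (b := 1) (c := 3) (cn := .pnn) (n1 := ndN1q2b) (n2 := ndN2q1) (pc := pcN3) (cut := Cut.none) (xt := Ext.none) (P1 := 1239849684) (W1 := 370763052) (P2 := 536870912) (W2 := 536870912) (P3 := 134217728) (W3 := 67108864) (N0 := 3)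
    rfl k0_pm_213_b

noncomputable def f_pm_303 : ℕ → ℕ → ℕ → ℕ → Bool := onCell 1610612736 536870912 0 536870912 134217728 67108864
    (rowN 3 2 true true false .npn 3 0 3 (qsf 1610612736 536870912 0 536870912 3) ndN1q3 ndN2q0 pcN3 Cut.none Ext.none)

def k0_pm_303 : ∃ t, chk3 f_pm_303 t 1 1 1 = true :=
  ⟨(a (a (b (b (a (l 18190544) (l 18223176)) (l 18082120)) (l 1)) (b (a (b (l 18257192) (l 18115968)) (l 18100888)) (l 360275941255))) (a (b (l 4) (l 4)) (l 4))), by decide +kernel⟩

theorem c_pm_303 : CertN 1610612736 536870912 0 536870912 134217728 67108864 3 true true false .npn 3 0 3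
    ndN1q3 ndN2q0 pcN3 Cut.none Ext.none :=
  certN2 (fam := true) (s1 := true) (s2 := false) (a := 3) (b := 0) (c := 3) (cn := .npn) (n1 := ndN1q3) (n2 := ndN2q0) (pc := pcN3) (cut := Cut.none) (xt := Ext.none) (P1 := 1610612736) (W1 := 536870912) (P2 := 0) (W2 := 536870912) (P3 := 134217728) (W3 := 67108864) (N0 := 3)
    rfl (fun _ => rfl) k0_pm_303

noncomputable def f_pm_313 : ℕ → ℕ → ℕ → ℕ → Bool := onCell 1610612736 536870912 536870912 536870912 134217728 67108864
    (rowN 3 0 true true false .dn 3 1 3 (qsf 1610612736 536870912 536870912 536870912 3) ndN1q3 ndN2q1 pcN3 Cut.none Ext.none)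

def k0_pm_313 : ∃ t, chk3 f_pm_313 t 1 1 1 = true :=
  ⟨(l 4), by decide +kernel⟩

theorem c_pm_313 : CertN 1610612736 536870912 536870912 536870912 134217728 67108864 3 true true false .dn 3 1 3
    ndN1q3 ndN2q1 pcN3 Cut.none Ext.none :=
  certN0 (fam := true) (s1 := true) (s2 := false) (a := 3) (b := 1) (c := 3) (cn := .dn) (n1 := ndN1q3) (n2 := ndN2q1) (pc := pcN3) (cut := Cut.none) (xt := Ext.none) (P1 := 1610612736) (W1 := 536870912) (P2 := 536870912) (W2 := 536870912) (P3 := 134217728) (W3 := 67108864) (N0 := 3)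
    rfl k0_pm_313

noncomputable def f_mm_001 : ℕ → ℕ → ℕ → ℕ → Bool := onCell 0 536870912 0 536870912 134217728 67108864
    (rowN 3 0 true false false .up 0 0 1 (qsf 0 536870912 0 536870912 1) ndN1q0 ndN2q0 pcN1 Cut.none Ext.none)

def k0_mm_001 : ∃ t, chk3 f_mm_001 t 1 1 1 = true :=
  ⟨(l 4), by decide +kernel⟩

theorem c_mm_001 : CertN 0 536870912 0 536870912 134217728 67108864 3 true false false .up 0 0 1
    ndN1q0 ndN2q0 pcN1 Cut.none Ext.none :=
  certN0 (fam := true) (s1 := false) (s2 := false) (a := 0) (b := 0) (c := 1) (cn := .up) (n1 := ndN1q0) (n2 := ndN2q0) (pc := pcN1) (cut := Cut.none) (xt := Ext.none) (P1 := 0) (W1 := 536870912) (P2 := 0) (W2 := 536870912) (P3 := 134217728) (W3 := 67108864) (N0 := 3)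
    rfl k0_mm_001

noncomputable def f_mm_011 : ℕ → ℕ → ℕ → ℕ → Bool := onCell 0 536870912 536870912 536870912 134217728 67108864
    (rowN 3 0 true false false .pnn 0 1 1 (qsf 0 536870912 536870912 536870912 1) ndN1q0 ndN2q1 pcN1 Cut.none Ext.none)

def k0_mm_011 : ∃ t, chk3 f_mm_011 t 1 1 1 = true :=
  ⟨(l 4), by decide +kernel⟩

theorem c_mm_011 : CertN 0 536870912 536870912 536870912 134217728 67108864 3 true false false .pnn 0 1 1
    ndN1q0 ndN2q1 pcN1 Cut.none Ext.none :=
  certN0 (fam := true) (s1 := false) (s2 := false) (a := 0) (b := 1) (c := 1) (cn := .pnn) (n1 := ndN1q0) (n2 := ndN2q1) (pc := pcN1) (cut := Cut.none) (xt := Ext.none) (P1 := 0) (W1 := 536870912) (P2 := 536870912) (W2 := 536870912) (P3 := 134217728) (W3 := 67108864) (N0 := 3)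
    rfl k0_mm_011

noncomputable def f_mm_012 : ℕ → ℕ → ℕ → ℕ → Bool := onCell 0 536870912 536870912 536870912 134217728 67108864
    (rowN 3 0 true false false .pnp 0 1 2 (qsf 0 536870912 536870912 536870912 2) ndN1q0 ndN2q1 pcN2 Cut.none Ext.none)

def k0_mm_012 : ∃ t, chk3 f_mm_012 t 1 1 1 = true :=
  ⟨(l 4), by decide +kernel⟩

theorem c_mm_012 : CertN 0 536870912 536870912 536870912 134217728 67108864 3 true false false .pnp 0 1 2
    ndN1q0 ndN2q1 pcN2 Cut.none Ext.none :=
  certN0 (fam := true) (s1 := false) (s2 := false) (a := 0) (b := 1) (c := 2) (cn := .pnp) (n1 := ndN1q0) (n2 := ndN2q1) (pc := pcN2) (cut := Cut.none) (xt := Ext.none) (P1 := 0) (W1 := 536870912) (P2 := 536870912) (W2 := 536870912) (P3 := 134217728) (W3 := 67108864) (N0 := 3)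
    rfl k0_mm_012

noncomputable def f_mm_022_a : ℕ → ℕ → ℕ → ℕ → Bool := onCell 0 536870912 0 536870912 134217728 67108864
    (rowN 3 0 true false false .pp 0 2 2 (qsf 0 536870912 0 536870912 2) ndN1q0 ndN2q2a pcN2 Cut.none Ext.none)

def k0_mm_022_a : ∃ t, chk3 f_mm_022_a t 1 1 1 = true :=
  ⟨(l 5), by decide +kernel⟩

theorem c_mm_022_a : CertN 0 536870912 0 536870912 134217728 67108864 3 true false false .pp 0 2 2
    ndN1q0 ndN2q2a pcN2 Cut.none Ext.none :=
  certN0 (fam := true) (s1 := false) (s2 := false) (a := 0) (b := 2) (c := 2) (cn := .pp) (n1 := ndN1q0) (n2 := ndN2q2a) (pc := pcN2) (cut := Cut.none) (xt := Ext.none) (P1 := 0) (W1 := 536870912) (P2 := 0) (W2 := 536870912) (P3 := 134217728) (W3 := 67108864) (N0 := 3)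
    rfl k0_mm_022_a

noncomputable def f_mm_022_b : ℕ → ℕ → ℕ → ℕ → Bool := onCell 0 536870912 1239849684 370763052 134217728 67108864
    (rowN 3 0 true false false .pp 0 2 2 (qsf 0 536870912 1239849684 370763052 2) ndN1q0 ndN2q2b pcN2 Cut.none Ext.none)

def k0_mm_022_b : ∃ t, chk3 f_mm_022_b t 1 1 1 = true :=
  ⟨(l 5), by decide +kernel⟩

theorem c_mm_022_b : CertN 0 536870912 1239849684 370763052 134217728 67108864 3 true false false .pp 0 2 2
    ndN1q0 ndN2q2b pcN2 Cut.none Ext.none :=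
  certN0 (fam := true) (s1 := false) (s2 := false) (a := 0) (b := 2) (c := 2) (cn := .pp) (n1 := ndN1q0) (n2 := ndN2q2b) (pc := pcN2) (cut := Cut.none) (xt := Ext.none) (P1 := 0) (W1 := 536870912) (P2 := 1239849684) (W2 := 370763052) (P3 := 134217728) (W3 := 67108864) (N0 := 3)
    rfl k0_mm_022_b

noncomputable def f_mm_023_a : ℕ → ℕ → ℕ → ℕ → Bool := onCell 0 536870912 0 536870912 134217728 67108864
    (rowN 3 0 true false false .up 0 2 3 (qsf 0 536870912 0 536870912 3) ndN1q0 ndN2q2a pcN3 Cut.none Ext.none)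

def k0_mm_023_a : ∃ t, chk3 f_mm_023_a t 1 1 1 = true :=
  ⟨(l 5), by decide +kernel⟩

theorem c_mm_023_a : CertN 0 536870912 0 536870912 134217728 67108864 3 true false false .up 0 2 3
    ndN1q0 ndN2q2a pcN3 Cut.none Ext.none :=
  certN0 (fam := true) (s1 := false) (s2 := false) (a := 0) (b := 2) (c := 3) (cn := .up) (n1 := ndN1q0) (n2 := ndN2q2a) (pc := pcN3) (cut := Cut.none) (xt := Ext.none) (P1 := 0) (W1 := 536870912) (P2 := 0) (W2 := 536870912) (P3 := 134217728) (W3 := 67108864) (N0 := 3)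
    rfl k0_mm_023_a

noncomputable def f_mm_023_b : ℕ → ℕ → ℕ → ℕ → Bool := onCell 0 536870912 1239849684 370763052 134217728 67108864
    (rowN 3 0 true false false .up 0 2 3 (qsf 0 536870912 1239849684 370763052 3) ndN1q0 ndN2q2b pcN3 Cut.none Ext.none)

def k0_mm_023_b : ∃ t, chk3 f_mm_023_b t 1 1 1 = true :=
  ⟨(l 5), by decide +kernel⟩

theorem c_mm_023_b : CertN 0 536870912 1239849684 370763052 134217728 67108864 3 true false false .up 0 2 3
    ndN1q0 ndN2q2b pcN3 Cut.none Ext.none :=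
  certN0 (fam := true) (s1 := false) (s2 := false) (a := 0) (b := 2) (c := 3) (cn := .up) (n1 := ndN1q0) (n2 := ndN2q2b) (pc := pcN3) (cut := Cut.none) (xt := Ext.none) (P1 := 0) (W1 := 536870912) (P2 := 1239849684) (W2 := 370763052) (P3 := 134217728) (W3 := 67108864) (N0 := 3)
    rfl k0_mm_023_b

noncomputable def f_mm_033 : ℕ → ℕ → ℕ → ℕ → Bool := onCell 0 536870912 1610612736 536870912 134217728 67108864
    (rowN 3 0 true false false .pnn 0 3 3 (qsf 0 536870912 1610612736 536870912 3) ndN1q0 ndN2q3 pcN3 Cut.none Ext.none)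

def k0_mm_033 : ∃ t, chk3 f_mm_033 t 1 1 1 = true :=
  ⟨(l 4), by decide +kernel⟩

theorem c_mm_033 : CertN 0 536870912 1610612736 536870912 134217728 67108864 3 true false false .pnn 0 3 3
    ndN1q0 ndN2q3 pcN3 Cut.none Ext.none :=
  certN0 (fam := true) (s1 := false) (s2 := false) (a := 0) (b := 3) (c := 3) (cn := .pnn) (n1 := ndN1q0) (n2 := ndN2q3) (pc := pcN3) (cut := Cut.none) (xt := Ext.none) (P1 := 0) (W1 := 536870912) (P2 := 1610612736) (W2 := 536870912) (P3 := 134217728) (W3 := 67108864) (N0 := 3)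
    rfl k0_mm_033

noncomputable def f_mm_101 : ℕ → ℕ → ℕ → ℕ → Bool := onCell 536870912 536870912 0 536870912 134217728 67108864
    (rowN 3 0 true false false .npn 1 0 1 (qsf 536870912 536870912 0 536870912 1) ndN1q1 ndN2q0 pcN1 Cut.none Ext.none)

def k0_mm_101 : ∃ t, chk3 f_mm_101 t 1 1 1 = true :=
  ⟨(l 4), by decide +kernel⟩

theorem c_mm_101 : CertN 536870912 536870912 0 536870912 134217728 67108864 3 true false false .npn 1 0 1
    ndN1q1 ndN2q0 pcN1 Cut.none Ext.none :=
  certN0 (fam := true) (s1 := false) (s2 := false) (a := 1) (b := 0) (c := 1) (cn := .npn) (n1 := ndN1q1) (n2 := ndN2q0) (pc := pcN1) (cut := Cut.none) (xt := Ext.none) (P1 := 536870912) (W1 := 536870912) (P2 := 0) (W2 := 536870912) (P3 := 134217728) (W3 := 67108864) (N0 := 3)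
    rfl k0_mm_101

noncomputable def f_mm_102 : ℕ → ℕ → ℕ → ℕ → Bool := onCell 536870912 536870912 0 536870912 134217728 67108864
    (rowN 3 0 true false false .npp 1 0 2 (qsf 536870912 536870912 0 536870912 2) ndN1q1 ndN2q0 pcN2 Cut.none Ext.none)

def k0_mm_102 : ∃ t, chk3 f_mm_102 t 1 1 1 = true :=
  ⟨(l 4), by decide +kernel⟩

theorem c_mm_102 : CertN 536870912 536870912 0 536870912 134217728 67108864 3 true false false .npp 1 0 2
    ndN1q1 ndN2q0 pcN2 Cut.none Ext.none :=
  certN0 (fam := true) (s1 := false) (s2 := false) (a := 1) (b := 0) (c := 2) (cn := .npp) (n1 := ndN1q1) (n2 := ndN2q0) (pc := pcN2) (cut := Cut.none) (xt := Ext.none) (P1 := 536870912) (W1 := 536870912) (P2 := 0) (W2 := 536870912) (P3 := 134217728) (W3 := 67108864) (N0 := 3)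
    rfl k0_mm_102

noncomputable def f_mm_112 : ℕ → ℕ → ℕ → ℕ → Bool := onCell 536870912 536870912 536870912 536870912 134217728 67108864
    (rowN 3 0 true false false .dn 1 1 2 (qsf 536870912 536870912 536870912 536870912 2) ndN1q1 ndN2q1 pcN2 Cut.none Ext.none)

def k0_mm_112 : ∃ t, chk3 f_mm_112 t 1 1 1 = true :=
  ⟨(l 4), by decide +kernel⟩

theorem c_mm_112 : CertN 536870912 536870912 536870912 536870912 134217728 67108864 3 true false false .dn 1 1 2
    ndN1q1 ndN2q1 pcN2 Cut.none Ext.none :=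
  certN0 (fam := true) (s1 := false) (s2 := false) (a := 1) (b := 1) (c := 2) (cn := .dn) (n1 := ndN1q1) (n2 := ndN2q1) (pc := pcN2) (cut := Cut.none) (xt := Ext.none) (P1 := 536870912) (W1 := 536870912) (P2 := 536870912) (W2 := 536870912) (P3 := 134217728) (W3 := 67108864) (N0 := 3)
    rfl k0_mm_112

noncomputable def f_mm_113 : ℕ → ℕ → ℕ → ℕ → Bool := onCell 536870912 536870912 536870912 536870912 134217728 67108864
    (rowN 3 0 true false false .nn 1 1 3 (qsf 536870912 536870912 536870912 536870912 3) ndN1q1 ndN2q1 pcN3 Cut.none Ext.none)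

def k0_mm_113 : ∃ t, chk3 f_mm_113 t 1 1 1 = true :=
  ⟨(l 4), by decide +kernel⟩

theorem c_mm_113 : CertN 536870912 536870912 536870912 536870912 134217728 67108864 3 true false false .nn 1 1 3
    ndN1q1 ndN2q1 pcN3 Cut.none Ext.none :=
  certN0 (fam := true) (s1 := false) (s2 := false) (a := 1) (b := 1) (c := 3) (cn := .nn) (n1 := ndN1q1) (n2 := ndN2q1) (pc := pcN3) (cut := Cut.none) (xt := Ext.none) (P1 := 536870912) (W1 := 536870912) (P2 := 536870912) (W2 := 536870912) (P3 := 134217728) (W3 := 67108864) (N0 := 3)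
    rfl k0_mm_113

noncomputable def f_mm_123_a : ℕ → ℕ → ℕ → ℕ → Bool := onCell 536870912 536870912 0 536870912 134217728 67108864
    (rowN 3 0 true false false .npn 1 2 3 (qsf 536870912 536870912 0 536870912 3) ndN1q1 ndN2q2a pcN3 Cut.none Ext.none)

def k0_mm_123_a : ∃ t, chk3 f_mm_123_a t 1 1 1 = true :=
  ⟨(l 4), by decide +kernel⟩

theorem c_mm_123_a : CertN 536870912 536870912 0 536870912 134217728 67108864 3 true false false .npn 1 2 3
    ndN1q1 ndN2q2a pcN3 Cut.none Ext.none :=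
  certN0 (fam := true) (s1 := false) (s2 := false) (a := 1) (b := 2) (c := 3) (cn := .npn) (n1 := ndN1q1) (n2 := ndN2q2a) (pc := pcN3) (cut := Cut.none) (xt := Ext.none) (P1 := 536870912) (W1 := 536870912) (P2 := 0) (W2 := 536870912) (P3 := 134217728) (W3 := 67108864) (N0 := 3)
    rfl k0_mm_123_a

noncomputable def f_mm_123_b : ℕ → ℕ → ℕ → ℕ → Bool := onCell 536870912 536870912 1239849684 370763052 134217728 67108864
    (rowN 3 0 true false false .npn 1 2 3 (qsf 536870912 536870912 1239849684 370763052 3) ndN1q1 ndN2q2b pcN3 Cut.none Ext.none)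

def k0_mm_123_b : ∃ t, chk3 f_mm_123_b t 1 1 1 = true :=
  ⟨(l 4), by decide +kernel⟩

theorem c_mm_123_b : CertN 536870912 536870912 1239849684 370763052 134217728 67108864 3 true false false .npn 1 2 3
    ndN1q1 ndN2q2b pcN3 Cut.none Ext.none :=
  certN0 (fam := true) (s1 := false) (s2 := false) (a := 1) (b := 2) (c := 3) (cn := .npn) (n1 := ndN1q1) (n2 := ndN2q2b) (pc := pcN3) (cut := Cut.none) (xt := Ext.none) (P1 := 536870912) (W1 := 536870912) (P2 := 1239849684) (W2 := 370763052) (P3 := 134217728) (W3 := 67108864) (N0 := 3)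
    rfl k0_mm_123_b

noncomputable def f_mm_133 : ℕ → ℕ → ℕ → ℕ → Bool := onCell 536870912 536870912 1610612736 536870912 134217728 67108864
    (rowN 3 0 true false false .dn 1 3 3 (qsf 536870912 536870912 1610612736 536870912 3) ndN1q1 ndN2q3 pcN3 Cut.none Ext.none)

def k0_mm_133 : ∃ t, chk3 f_mm_133 t 1 1 1 = true :=
  ⟨(l 4), by decide +kernel⟩

theorem c_mm_133 : CertN 536870912 536870912 1610612736 536870912 134217728 67108864 3 true false false .dn 1 3 3
    ndN1q1 ndN2q3 pcN3 Cut.none Ext.none :=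
  certN0 (fam := true) (s1 := false) (s2 := false) (a := 1) (b := 3) (c := 3) (cn := .dn) (n1 := ndN1q1) (n2 := ndN2q3) (pc := pcN3) (cut := Cut.none) (xt := Ext.none) (P1 := 536870912) (W1 := 536870912) (P2 := 1610612736) (W2 := 536870912) (P3 := 134217728) (W3 := 67108864) (N0 := 3)
    rfl k0_mm_133

end Pool.Agent.Strip051.G.I1_8_3_16.Tab.C.NA12

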