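import Pool.Agent.Strip051.G.I1_8_3_16.AsmH
import Pool.Agent.Strip051.G.I1_8_3_16.TrN0
import Pool.Agent.Strip051.G.I1_8_3_16.TrN1
import Pool.Agent.Strip051.G.I1_8_3_16.TrN2
import Pool.Agent.Strip051.G.I1_8_3_16.TrN3
import Pool.Agent.Strip051.G.I1_8_3_16.TrN4
import Pool.Agent.Strip051.G.I1_8_3_16.TrN5
import Pool.Agent.Strip051.G.I1_8_3_16.TrN6
import Pool.Agent.Strip051.G.I1_8_3_16.TrN7
import Pool.Agent.Strip051.G.I1_8_3_16.TrN8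
import Pool.Agent.Strip051.G.I1_8_3_16.Crn12C
import Pool.Agent.Strip051.G.I1_8_3_16.Crn12N
import Pool.Agent.Strip051.G.I1_8_3_16.CrnN_0
import Pool.Agent.Strip051.G.I1_8_3_16.DgY
import Pool.Agent.Strip051.G.I1_8_3_16.MolT

/-! # Rows from certificates (generated) -/

set_option linter.all false
set_option maxRecDepth 100000

namespace Pool.Agent.Strip051.G.I1_8_3_16.Tab

open Pool.Agent.Strip051.PB Pool.Agent.StripNear Pool.Agent.Strip051.LC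

theorem NA00_pp_001 {κ x : ℝ} (hκ : κ * h0 = ken x) (hx : ((134217728 : ℕ) : ℝ) / S ≤ x) (hx' : x ≤ (((134217728 : ℕ) : ℝ) + (67108864 : ℕ)) / S) :
    TriA PP.cur (nearL (h0 * 0) 3 κ (h0 * x) (tbl tKN x) (tbl tL x)) 0 0 1 0 0 1 1 :=
  (sideN hx hx').nearA (Or.inl rfl) (Or.inl rfl) fun y y' F =>
    nearA_cert (s1 := true) (s2 := true) rfl hκ covN00 covN00 hx hx'
        Pool.Agent.Strip051.G.I1_8_3_16.Tab.C.NA00.c_pp_001 noCut_A noExt_A F trivial trivial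

theorem NA00_pp_011 {κ x : ℝ} (hκ : κ * h0 = ken x) (hx : ((134217728 : ℕ) : ℝ) / S ≤ x) (hx' : x ≤ (((134217728 : ℕ) : ℝ) + (67108864 : ℕ)) / S) :
    TriA PP.cur (nearL (h0 * 0) 3 κ (h0 * x) (tbl tKN x) (tbl tL x)) 0 1 1 0 0 1 1 :=
  (sideN hx hx').nearA (Or.inl rfl) (Or.inl rfl) fun y y' F =>
    nearA_cert (s1 := true) (s2 := true) rfl hκ covN00 covN01 hx hx'
        Pool.Agent.Strip051.G.I1_8_3_16.Tab.C.NA00.c_pp_011 (cutA_cons (Pool.Agent.Strip051.G.I1_8_3_16.Tab.altN_A011L_00 hκ hx hx') cutA_nil) noExt_A F trivial trivial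

theorem NA00_pp_012 {κ x : ℝ} (hκ : κ * h0 = ken x) (hx : ((134217728 : ℕ) : ℝ) / S ≤ x) (hx' : x ≤ (((134217728 : ℕ) : ℝ) + (67108864 : ℕ)) / S) :
    TriA PP.cur (nearL (h0 * 0) 3 κ (h0 * x) (tbl tKN x) (tbl tL x)) 0 1 2 0 0 1 1 :=
  (sideN hx hx').nearA (Or.inl rfl) (Or.inl rfl) fun y y' F =>
    nearA_cert (s1 := true) (s2 := true) rfl hκ covN00 covN01 hx hx'
        Pool.Agent.Strip051.G.I1_8_3_16.Tab.C.NA00.c_pp_012 (cutA_cons (Pool.Agent.Strip051.G.I1_8_3_16.Tab.altN_A012L_00 hκ hx hx') cutA_nil) noExt_A F trivial trivial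

theorem NA00_pp_022 {κ x : ℝ} (hκ : κ * h0 = ken x) (hx : ((134217728 : ℕ) : ℝ) / S ≤ x) (hx' : x ≤ (((134217728 : ℕ) : ℝ) + (67108864 : ℕ)) / S) :
    TriA PP.cur (nearL (h0 * 0) 3 κ (h0 * x) (tbl tKN x) (tbl tL x)) 0 2 2 0 0 1 1 :=
  (sideN hx hx').nearA (Or.inl rfl) (Or.inl rfl) fun y y' F =>
    nearA_cert (s1 := true) (s2 := true) rfl hκ covN00 covN02 hx hx'
        Pool.Agent.Strip051.G.I1_8_3_16.Tab.C.NA00.c_pp_022 (cutA_cons (Pool.Agent.Strip051.G.I1_8_3_16.Tab.altN_A022L_00 hκ hx hx') cutA_nil) noExt_A F trivial trivial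

theorem NA00_pp_023 {κ x : ℝ} (hκ : κ * h0 = ken x) (hx : ((134217728 : ℕ) : ℝ) / S ≤ x) (hx' : x ≤ (((134217728 : ℕ) : ℝ) + (67108864 : ℕ)) / S) :
    TriA PP.cur (nearL (h0 * 0) 3 κ (h0 * x) (tbl tKN x) (tbl tL x)) 0 2 3 0 0 1 1 :=
  (sideN hx hx').nearA (Or.inl rfl) (Or.inl rfl) fun y y' F =>
    nearA_cert (s1 := true) (s2 := true) rfl hκ covN00 covN02 hx hx'
        Pool.Agent.Strip051.G.I1_8_3_16.Tab.C.NA00.c_pp_023 noCut_A noExt_A F trivial trivial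

theorem NA00_pp_033 {κ x : ℝ} (hκ : κ * h0 = ken x) (hx : ((134217728 : ℕ) : ℝ) / S ≤ x) (hx' : x ≤ (((134217728 : ℕ) : ℝ) + (67108864 : ℕ)) / S) :
    TriA PP.cur (nearL (h0 * 0) 3 κ (h0 * x) (tbl tKN x) (tbl tL x)) 0 3 3 0 0 1 1 :=
  triA_k0

theorem NA00_pp_101 {κ x : ℝ} (hκ : κ * h0 = ken x) (hx : ((134217728 : ℕ) : ℝ) / S ≤ x) (hx' : x ≤ (((134217728 : ℕ) : ℝ) + (67108864 : ℕ)) / S) :
    TriA PP.cur (nearL (h0 * 0) 3 κ (h0 * x) (tbl tKN x) (tbl tL x)) 1 0 1 0 0 1 1 :=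
  (sideN hx hx').nearA (Or.inl rfl) (Or.inl rfl) fun y y' F =>
    nearA_cert (s1 := true) (s2 := true) rfl hκ covN01 covN00 hx hx'
        Pool.Agent.Strip051.G.I1_8_3_16.Tab.C.NA00.c_pp_101 noCut_A noExt_A F trivial trivial

theorem NA00_pp_102 {κ x : ℝ} (hκ : κ * h0 = ken x) (hx : ((134217728 : ℕ) : ℝ) / S ≤ x) (hx' : x ≤ (((134217728 : ℕ) : ℝ) + (67108864 : ℕ)) / S) :
    TriA PP.cur (nearL (h0 * 0) 3 κ (h0 * x) (tbl tKN x) (tbl tL x)) 1 0 2 0 0 1 1 :=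
  (sideN hx hx').nearA (Or.inl rfl) (Or.inl rfl) fun y y' F =>
    nearA_cert (s1 := true) (s2 := true) rfl hκ covN01 covN00 hx hx'
        Pool.Agent.Strip051.G.I1_8_3_16.Tab.C.NA00.c_pp_102 noCut_A noExt_A F trivial trivial

theorem NA00_pp_112 {κ x : ℝ} (hκ : κ * h0 = ken x) (hx : ((134217728 : ℕ) : ℝ) / S ≤ x) (hx' : x ≤ (((134217728 : ℕ) : ℝ) + (67108864 : ℕ)) / S) :
    TriA PP.cur (nearL (h0 * 0) 3 κ (h0 * x) (tbl tKN x) (tbl tL x)) 1 1 2 0 0 1 1 :=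
  (sideN hx hx').nearA (Or.inl rfl) (Or.inl rfl) fun y y' F =>
    nearA_cert (s1 := true) (s2 := true) rfl hκ covN01 covN01 hx hx'
        Pool.Agent.Strip051.G.I1_8_3_16.Tab.C.NA00.c_pp_112 noCut_A noExt_A F trivial trivial

theorem NA00_pp_113 {κ x : ℝ} (hκ : κ * h0 = ken x) (hx : ((134217728 : ℕ) : ℝ) / S ≤ x) (hx' : x ≤ (((134217728 : ℕ) : ℝ) + (67108864 : ℕ)) / S) :
    TriA PP.cur (nearL (h0 * 0) 3 κ (h0 * x) (tbl tKN x) (tbl tL x)) 1 1 3 0 0 1 1 :=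
  (sideN hx hx').nearA (Or.inl rfl) (Or.inl rfl) fun y y' F =>
    nearA_cert (s1 := true) (s2 := true) rfl hκ covN01 covN01 hx hx'
        Pool.Agent.Strip051.G.I1_8_3_16.Tab.C.NA00.c_pp_113 noCut_A noExt_A F trivial trivial

theorem NA00_pp_123 {κ x : ℝ} (hκ : κ * h0 = ken x) (hx : ((134217728 : ℕ) : ℝ) / S ≤ x) (hx' : x ≤ (((134217728 : ℕ) : ℝ) + (67108864 : ℕ)) / S) :
    TriA PP.cur (nearL (h0 * 0) 3 κ (h0 * x) (tbl tKN x) (tbl tL x)) 1 2 3 0 0 1 1 :=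
  (sideN hx hx').nearA (Or.inl rfl) (Or.inl rfl) fun y y' F =>
    nearA_cert (s1 := true) (s2 := true) rfl hκ covN01 covN02 hx hx'
        Pool.Agent.Strip051.G.I1_8_3_16.Tab.C.NA00.c_pp_123 noCut_A noExt_A F trivial trivial

theorem NA00_pp_133 {κ x : ℝ} (hκ : κ * h0 = ken x) (hx : ((134217728 : ℕ) : ℝ) / S ≤ x) (hx' : x ≤ (((134217728 : ℕ) : ℝ) + (67108864 : ℕ)) / S) :
    TriA PP.cur (nearL (h0 * 0) 3 κ (h0 * x) (tbl tKN x) (tbl tL x)) 1 3 3 0 0 1 1 :=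
  triA_k0

theorem NA00_pp_202 {κ x : ℝ} (hκ : κ * h0 = ken x) (hx : ((134217728 : ℕ) : ℝ) / S ≤ x) (hx' : x ≤ (((134217728 : ℕ) : ℝ) + (67108864 : ℕ)) / S) :
    TriA PP.cur (nearL (h0 * 0) 3 κ (h0 * x) (tbl tKN x) (tbl tL x)) 2 0 2 0 0 1 1 :=
  (sideN hx hx').nearA (Or.inl rfl) (Or.inl rfl) fun y y' F =>
    nearA_cert (s1 := true) (s2 := true) rfl hκ covN02 covN00 hx hx'
        Pool.Agent.Strip051.G.I1_8_3_16.Tab.C.NA00.c_pp_202 noCut_A noExt_A F trivial trivial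

theorem NA00_pp_203 {κ x : ℝ} (hκ : κ * h0 = ken x) (hx : ((134217728 : ℕ) : ℝ) / S ≤ x) (hx' : x ≤ (((134217728 : ℕ) : ℝ) + (67108864 : ℕ)) / S) :
    TriA PP.cur (nearL (h0 * 0) 3 κ (h0 * x) (tbl tKN x) (tbl tL x)) 2 0 3 0 0 1 1 :=
  (sideN hx hx').nearA (Or.inl rfl) (Or.inl rfl) fun y y' F =>
    nearA_cert (s1 := true) (s2 := true) rfl hκ covN02 covN00 hx hx'
        Pool.Agent.Strip051.G.I1_8_3_16.Tab.C.NA00.c_pp_203 noCut_A noExt_A F trivial trivial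

theorem NA00_pp_213 {κ x : ℝ} (hκ : κ * h0 = ken x) (hx : ((134217728 : ℕ) : ℝ) / S ≤ x) (hx' : x ≤ (((134217728 : ℕ) : ℝ) + (67108864 : ℕ)) / S) :
    TriA PP.cur (nearL (h0 * 0) 3 κ (h0 * x) (tbl tKN x) (tbl tL x)) 2 1 3 0 0 1 1 :=
  (sideN hx hx').nearA (Or.inl rfl) (Or.inl rfl) fun y y' F =>
    nearA_cert (s1 := true) (s2 := true) rfl hκ covN02 covN01 hx hx'
        Pool.Agent.Strip051.G.I1_8_3_16.Tab.C.NA00.c_pp_213 noCut_A noExt_A F trivial trivial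

theorem NA00_pp_303 {κ x : ℝ} (hκ : κ * h0 = ken x) (hx : ((134217728 : ℕ) : ℝ) / S ≤ x) (hx' : x ≤ (((134217728 : ℕ) : ℝ) + (67108864 : ℕ)) / S) :
    TriA PP.cur (nearL (h0 * 0) 3 κ (h0 * x) (tbl tKN x) (tbl tL x)) 3 0 3 0 0 1 1 :=
  triA_j0

theorem NA00_pp_313 {κ x : ℝ} (hκ : κ * h0 = ken x) (hx : ((134217728 : ℕ) : ℝ) / S ≤ x) (hx' : x ≤ (((134217728 : ℕ) : ℝ) + (67108864 : ℕ)) / S) :
    TriA PP.cur (nearL (h0 * 0) 3 κ (h0 * x) (tbl tKN x) (tbl tL x)) 3 1 3 0 0 1 1 :=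
  triA_j0

theorem NA00_pm_001 {κ x : ℝ} (hκ : κ * h0 = ken x) (hx : ((134217728 : ℕ) : ℝ) / S ≤ x) (hx' : x ≤ (((134217728 : ℕ) : ℝ) + (67108864 : ℕ)) / S) :
    TriA PP.cur (nearL (h0 * 0) 3 κ (h0 * x) (tbl tKN x) (tbl tL x)) 0 0 1 0 0 1 (-1) :=
  (sideN hx hx').nearA (Or.inl rfl) (Or.inr rfl) fun y y' F =>
    nearA_cert (s1 := true) (s2 := false) rfl hκ covN00 covN00 hx hx'
        Pool.Agent.Strip051.G.I1_8_3_16.Tab.C.NA00.c_pm_001 noCut_A noExt_A F trivial trivial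

theorem NA00_pm_011 {κ x : ℝ} (hκ : κ * h0 = ken x) (hx : ((134217728 : ℕ) : ℝ) / S ≤ x) (hx' : x ≤ (((134217728 : ℕ) : ℝ) + (67108864 : ℕ)) / S) :
    TriA PP.cur (nearL (h0 * 0) 3 κ (h0 * x) (tbl tKN x) (tbl tL x)) 0 1 1 0 0 1 (-1) :=
  (sideN hx hx').nearA (Or.inl rfl) (Or.inr rfl) fun y y' F =>
    nearA_cert (s1 := true) (s2 := false) rfl hκ covN00 covN01 hx hx'
        Pool.Agent.Strip051.G.I1_8_3_16.Tab.C.NA00.c_pm_011 (cutA_cons (Pool.Agent.Strip051.G.I1_8_3_16.Tab.altN_A011E_00 hκ hx hx') cutA_nil) noExt_A F trivial trivial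

theorem NA00_pm_012 {κ x : ℝ} (hκ : κ * h0 = ken x) (hx : ((134217728 : ℕ) : ℝ) / S ≤ x) (hx' : x ≤ (((134217728 : ℕ) : ℝ) + (67108864 : ℕ)) / S) :
    TriA PP.cur (nearL (h0 * 0) 3 κ (h0 * x) (tbl tKN x) (tbl tL x)) 0 1 2 0 0 1 (-1) :=
  (sideN hx hx').nearA (Or.inl rfl) (Or.inr rfl) fun y y' F =>
    nearA_cert (s1 := true) (s2 := false) rfl hκ covN00 covN01 hx hx'
        Pool.Agent.Strip051.G.I1_8_3_16.Tab.C.NA00.c_pm_012 (cutA_cons (Pool.Agent.Strip051.G.I1_8_3_16.Tab.altN_A012E_00 hκ hx hx') (cutA_cons (Pool.Agent.Strip051.G.I1_8_3_16.Tab.Mo.molN_A_012_00_0 hκ hx hx') cutA_nil)) noExt_A F trivial trivial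

theorem NA00_pm_022 {κ x : ℝ} (hκ : κ * h0 = ken x) (hx : ((134217728 : ℕ) : ℝ) / S ≤ x) (hx' : x ≤ (((134217728 : ℕ) : ℝ) + (67108864 : ℕ)) / S) :
    TriA PP.cur (nearL (h0 * 0) 3 κ (h0 * x) (tbl tKN x) (tbl tL x)) 0 2 2 0 0 1 (-1) :=
  (sideN hx hx').nearA (Or.inl rfl) (Or.inr rfl) fun y y' F =>
    nearA_cert (s1 := true) (s2 := false) rfl hκ covN00 covN02 hx hx'
        Pool.Agent.Strip051.G.I1_8_3_16.Tab.C.NA00.c_pm_022 (cutA_cons (Pool.Agent.Strip051.G.I1_8_3_16.Tab.altN_A022E_00 hκ hx hx') (cutA_cons (Pool.Agent.Strip051.G.I1_8_3_16.Tab.Mo.molN_A_022_00_0 hκ hx hx') cutA_nil)) noExt_A F trivial trivial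

theorem NA00_pm_023 {κ x : ℝ} (hκ : κ * h0 = ken x) (hx : ((134217728 : ℕ) : ℝ) / S ≤ x) (hx' : x ≤ (((134217728 : ℕ) : ℝ) + (67108864 : ℕ)) / S) :
    TriA PP.cur (nearL (h0 * 0) 3 κ (h0 * x) (tbl tKN x) (tbl tL x)) 0 2 3 0 0 1 (-1) :=
  (sideN hx hx').nearA (Or.inl rfl) (Or.inr rfl) fun y y' F =>
    nearA_cert (s1 := true) (s2 := false) rfl hκ covN00 covN02 hx hx'
        Pool.Agent.Strip051.G.I1_8_3_16.Tab.C.NA00.c_pm_023 noCut_A noExt_A F trivial trivial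

theorem NA00_pm_033 {κ x : ℝ} (hκ : κ * h0 = ken x) (hx : ((134217728 : ℕ) : ℝ) / S ≤ x) (hx' : x ≤ (((134217728 : ℕ) : ℝ) + (67108864 : ℕ)) / S) :
    TriA PP.cur (nearL (h0 * 0) 3 κ (h0 * x) (tbl tKN x) (tbl tL x)) 0 3 3 0 0 1 (-1) :=
  triA_k0

theorem NA00_pm_101 {κ x : ℝ} (hκ : κ * h0 = ken x) (hx : ((134217728 : ℕ) : ℝ) / S ≤ x) (hx' : x ≤ (((134217728 : ℕ) : ℝ) + (67108864 : ℕ)) / S) :
    TriA PP.cur (nearL (h0 * 0) 3 κ (h0 * x) (tbl tKN x) (tbl tL x)) 1 0 1 0 0 1 (-1) :=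
  (sideN hx hx').nearA (Or.inl rfl) (Or.inr rfl) fun y y' F =>
    nearA_cert (s1 := true) (s2 := false) rfl hκ covN01 covN00 hx hx'
        Pool.Agent.Strip051.G.I1_8_3_16.Tab.C.NA00.c_pm_101 (cutA_cons (Pool.Agent.Strip051.G.I1_8_3_16.Tab.altN_A101E_00 hκ hx hx') cutA_nil) noExt_A F trivial trivial

theorem NA00_pm_102 {κ x : ℝ} (hκ : κ * h0 = ken x) (hx : ((134217728 : ℕ) : ℝ) / S ≤ x) (hx' : x ≤ (((134217728 : ℕ) : ℝ) + (67108864 : ℕ)) / S) :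
    TriA PP.cur (nearL (h0 * 0) 3 κ (h0 * x) (tbl tKN x) (tbl tL x)) 1 0 2 0 0 1 (-1) :=
  (sideN hx hx').nearA (Or.inl rfl) (Or.inr rfl) fun y y' F =>
    nearA_cert (s1 := true) (s2 := false) rfl hκ covN01 covN00 hx hx'
        Pool.Agent.Strip051.G.I1_8_3_16.Tab.C.NA00.c_pm_102 (cutA_cons (Pool.Agent.Strip051.G.I1_8_3_16.Tab.altN_A102E_00 hκ hx hx') (cutA_cons (Pool.Agent.Strip051.G.I1_8_3_16.Tab.Mo.molN_A_102_00_1 hκ hx hx') cutA_nil)) noExt_A F trivial trivial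

theorem NA00_pm_112 {κ x : ℝ} (hκ : κ * h0 = ken x) (hx : ((134217728 : ℕ) : ℝ) / S ≤ x) (hx' : x ≤ (((134217728 : ℕ) : ℝ) + (67108864 : ℕ)) / S) :
    TriA PP.cur (nearL (h0 * 0) 3 κ (h0 * x) (tbl tKN x) (tbl tL x)) 1 1 2 0 0 1 (-1) :=
  (sideN hx hx').nearA (Or.inl rfl) (Or.inr rfl) fun y y' F =>
    nearA_cert (s1 := true) (s2 := false) rfl hκ covN01 covN01 hx hx'
        Pool.Agent.Strip051.G.I1_8_3_16.Tab.C.NA00.c_pm_112 noCut_A noExt_A F trivial trivial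

theorem NA00_pm_113 {κ x : ℝ} (hκ : κ * h0 = ken x) (hx : ((134217728 : ℕ) : ℝ) / S ≤ x) (hx' : x ≤ (((134217728 : ℕ) : ℝ) + (67108864 : ℕ)) / S) :
    TriA PP.cur (nearL (h0 * 0) 3 κ (h0 * x) (tbl tKN x) (tbl tL x)) 1 1 3 0 0 1 (-1) :=
  (sideN hx hx').nearA (Or.inl rfl) (Or.inr rfl) fun y y' F =>
    nearA_cert (s1 := true) (s2 := false) rfl hκ covN01 covN01 hx hx'
        Pool.Agent.Strip051.G.I1_8_3_16.Tab.C.NA00.c_pm_113 (cutA_cons (Pool.Agent.Strip051.G.I1_8_3_16.Tab.alt12N_A113_00 hκ hx hx') cutA_nil) noExt_A F trivial trivial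

theorem NA00_pm_123 {κ x : ℝ} (hκ : κ * h0 = ken x) (hx : ((134217728 : ℕ) : ℝ) / S ≤ x) (hx' : x ≤ (((134217728 : ℕ) : ℝ) + (67108864 : ℕ)) / S) :
    TriA PP.cur (nearL (h0 * 0) 3 κ (h0 * x) (tbl tKN x) (tbl tL x)) 1 2 3 0 0 1 (-1) :=
  (sideN hx hx').nearA (Or.inl rfl) (Or.inr rfl) fun y y' F =>
    nearA_cert (s1 := true) (s2 := false) rfl hκ covN01 covN02 hx hx'
        Pool.Agent.Strip051.G.I1_8_3_16.Tab.C.NA00.c_pm_123 (cutA_cons (Pool.Agent.Strip051.G.I1_8_3_16.Tab.DG.alt12N_A123_00 hκ hx hx') cutA_nil) noExt_A F trivial trivial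

theorem NA00_pm_133 {κ x : ℝ} (hκ : κ * h0 = ken x) (hx : ((134217728 : ℕ) : ℝ) / S ≤ x) (hx' : x ≤ (((134217728 : ℕ) : ℝ) + (67108864 : ℕ)) / S) :
    TriA PP.cur (nearL (h0 * 0) 3 κ (h0 * x) (tbl tKN x) (tbl tL x)) 1 3 3 0 0 1 (-1) :=
  triA_k0

theorem NA00_pm_202 {κ x : ℝ} (hκ : κ * h0 = ken x) (hx : ((134217728 : ℕ) : ℝ) / S ≤ x) (hx' : x ≤ (((134217728 : ℕ) : ℝ) + (67108864 : ℕ)) / S) :
    TriA PP.cur (nearL (h0 * 0) 3 κ (h0 * x) (tbl tKN x) (tbl tL x)) 2 0 2 0 0 1 (-1) :=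
  (sideN hx hx').nearA (Or.inl rfl) (Or.inr rfl) fun y y' F =>
    nearA_cert (s1 := true) (s2 := false) rfl hκ covN02 covN00 hx hx'
        Pool.Agent.Strip051.G.I1_8_3_16.Tab.C.NA00.c_pm_202 (cutA_cons (Pool.Agent.Strip051.G.I1_8_3_16.Tab.altN_A202E_00 hκ hx hx') (cutA_cons (Pool.Agent.Strip051.G.I1_8_3_16.Tab.Mo.molN_A_202_00_1 hκ hx hx') cutA_nil)) noExt_A F trivial trivial

theorem NA00_pm_203 {κ x : ℝ} (hκ : κ * h0 = ken x) (hx : ((134217728 : ℕ) : ℝ) / S ≤ x) (hx' : x ≤ (((134217728 : ℕ) : ℝ) + (67108864 : ℕ)) / S) :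
    TriA PP.cur (nearL (h0 * 0) 3 κ (h0 * x) (tbl tKN x) (tbl tL x)) 2 0 3 0 0 1 (-1) :=
  (sideN hx hx').nearA (Or.inl rfl) (Or.inr rfl) fun y y' F =>
    nearA_cert (s1 := true) (s2 := false) rfl hκ covN02 covN00 hx hx'
        Pool.Agent.Strip051.G.I1_8_3_16.Tab.C.NA00.c_pm_203 noCut_A noExt_A F trivial trivial

theorem NA00_pm_213 {κ x : ℝ} (hκ : κ * h0 = ken x) (hx : ((134217728 : ℕ) : ℝ) / S ≤ x) (hx' : x ≤ (((134217728 : ℕ) : ℝ) + (67108864 : ℕ)) / S) :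
    TriA PP.cur (nearL (h0 * 0) 3 κ (h0 * x) (tbl tKN x) (tbl tL x)) 2 1 3 0 0 1 (-1) :=
  (sideN hx hx').nearA (Or.inl rfl) (Or.inr rfl) fun y y' F =>
    nearA_cert (s1 := true) (s2 := false) rfl hκ covN02 covN01 hx hx'
        Pool.Agent.Strip051.G.I1_8_3_16.Tab.C.NA00.c_pm_213 (cutA_cons (Pool.Agent.Strip051.G.I1_8_3_16.Tab.DG.alt12N_A213_00 hκ hx hx') cutA_nil) noExt_A F trivial trivial

theorem NA00_pm_303 {κ x : ℝ} (hκ : κ * h0 = ken x) (hx : ((134217728 : ℕ) : ℝ) / S ≤ x) (hx' : x ≤ (((134217728 : ℕ) : ℝ) + (67108864 : ℕ)) / S) :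
    TriA PP.cur (nearL (h0 * 0) 3 κ (h0 * x) (tbl tKN x) (tbl tL x)) 3 0 3 0 0 1 (-1) :=
  triA_j0

theorem NA00_pm_313 {κ x : ℝ} (hκ : κ * h0 = ken x) (hx : ((134217728 : ℕ) : ℝ) / S ≤ x) (hx' : x ≤ (((134217728 : ℕ) : ℝ) + (67108864 : ℕ)) / S) :
    TriA PP.cur (nearL (h0 * 0) 3 κ (h0 * x) (tbl tKN x) (tbl tL x)) 3 1 3 0 0 1 (-1) :=
  triA_j0

theorem NA00_mm_001 {κ x : ℝ} (hκ : κ * h0 = ken x) (hx : ((134217728 : ℕ) : ℝ) / S ≤ x) (hx' : x ≤ (((134217728 : ℕ) : ℝ) + (67108864 : ℕ)) / S) :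
    TriA PP.cur (nearL (h0 * 0) 3 κ (h0 * x) (tbl tKN x) (tbl tL x)) 0 0 1 0 0 (-1) (-1) :=
  (sideN hx hx').nearA (Or.inr rfl) (Or.inr rfl) fun y y' F =>
    nearA_cert (s1 := false) (s2 := false) rfl hκ covN00 covN00 hx hx'
        Pool.Agent.Strip051.G.I1_8_3_16.Tab.C.NA00.c_mm_001 noCut_A noExt_A F trivial trivial

theorem NA00_mm_011 {κ x : ℝ} (hκ : κ * h0 = ken x) (hx : ((134217728 : ℕ) : ℝ) / S ≤ x) (hx' : x ≤ (((134217728 : ℕ) : ℝ) + (67108864 : ℕ)) / S) :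
    TriA PP.cur (nearL (h0 * 0) 3 κ (h0 * x) (tbl tKN x) (tbl tL x)) 0 1 1 0 0 (-1) (-1) :=
  (sideN hx hx').nearA (Or.inr rfl) (Or.inr rfl) fun y y' F =>
    nearA_cert (s1 := false) (s2 := false) rfl hκ covN00 covN01 hx hx'
        Pool.Agent.Strip051.G.I1_8_3_16.Tab.C.NA00.c_mm_011 noCut_A noExt_A F trivial trivial

theorem NA00_mm_012 {κ x : ℝ} (hκ : κ * h0 = ken x) (hx : ((134217728 : ℕ) : ℝ) / S ≤ x) (hx' : x ≤ (((134217728 : ℕ) : ℝ) + (67108864 : ℕ)) / S) :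
    TriA PP.cur (nearL (h0 * 0) 3 κ (h0 * x) (tbl tKN x) (tbl tL x)) 0 1 2 0 0 (-1) (-1) :=
  (sideN hx hx').nearA (Or.inr rfl) (Or.inr rfl) fun y y' F =>
    nearA_cert (s1 := false) (s2 := false) rfl hκ covN00 covN01 hx hx'
        Pool.Agent.Strip051.G.I1_8_3_16.Tab.C.NA00.c_mm_012 noCut_A noExt_A F trivial trivial

theorem NA00_mm_022 {κ x : ℝ} (hκ : κ * h0 = ken x) (hx : ((134217728 : ℕ) : ℝ) / S ≤ x) (hx' : x ≤ (((134217728 : ℕ) : ℝ) + (67108864 : ℕ)) / S) :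
    TriA PP.cur (nearL (h0 * 0) 3 κ (h0 * x) (tbl tKN x) (tbl tL x)) 0 2 2 0 0 (-1) (-1) :=
  (sideN hx hx').nearA (Or.inr rfl) (Or.inr rfl) fun y y' F =>
    nearA_cert (s1 := false) (s2 := false) rfl hκ covN00 covN02 hx hx'
        Pool.Agent.Strip051.G.I1_8_3_16.Tab.C.NA00.c_mm_022 noCut_A noExt_A F trivial trivial

theorem NA00_mm_023 {κ x : ℝ} (hκ : κ * h0 = ken x) (hx : ((134217728 : ℕ) : ℝ) / S ≤ x) (hx' : x ≤ (((134217728 : ℕ) : ℝ) + (67108864 : ℕ)) / S) :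
    TriA PP.cur (nearL (h0 * 0) 3 κ (h0 * x) (tbl tKN x) (tbl tL x)) 0 2 3 0 0 (-1) (-1) :=
  (sideN hx hx').nearA (Or.inr rfl) (Or.inr rfl) fun y y' F =>
    nearA_cert (s1 := false) (s2 := false) rfl hκ covN00 covN02 hx hx'
        Pool.Agent.Strip051.G.I1_8_3_16.Tab.C.NA00.c_mm_023 noCut_A noExt_A F trivial trivial

theorem NA00_mm_033 {κ x : ℝ} (hκ : κ * h0 = ken x) (hx : ((134217728 : ℕ) : ℝ) / S ≤ x) (hx' : x ≤ (((134217728 : ℕ) : ℝ) + (67108864 : ℕ)) / S) :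
    TriA PP.cur (nearL (h0 * 0) 3 κ (h0 * x) (tbl tKN x) (tbl tL x)) 0 3 3 0 0 (-1) (-1) :=
  triA_k0

theorem NA00_mm_101 {κ x : ℝ} (hκ : κ * h0 = ken x) (hx : ((134217728 : ℕ) : ℝ) / S ≤ x) (hx' : x ≤ (((134217728 : ℕ) : ℝ) + (67108864 : ℕ)) / S) :
    TriA PP.cur (nearL (h0 * 0) 3 κ (h0 * x) (tbl tKN x) (tbl tL x)) 1 0 1 0 0 (-1) (-1) :=
  (sideN hx hx').nearA (Or.inr rfl) (Or.inr rfl) fun y y' F =>
    nearA_cert (s1 := false) (s2 := false) rfl hκ covN01 covN00 hx hx'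
        Pool.Agent.Strip051.G.I1_8_3_16.Tab.C.NA00.c_mm_101 (cutA_cons (Pool.Agent.Strip051.G.I1_8_3_16.Tab.altN_A101R_00 hκ hx hx') cutA_nil) noExt_A F trivial trivial

theorem NA00_mm_102 {κ x : ℝ} (hκ : κ * h0 = ken x) (hx : ((134217728 : ℕ) : ℝ) / S ≤ x) (hx' : x ≤ (((134217728 : ℕ) : ℝ) + (67108864 : ℕ)) / S) :
    TriA PP.cur (nearL (h0 * 0) 3 κ (h0 * x) (tbl tKN x) (tbl tL x)) 1 0 2 0 0 (-1) (-1) :=
  (sideN hx hx').nearA (Or.inr rfl) (Or.inr rfl) fun y y' F =>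
    nearA_cert (s1 := false) (s2 := false) rfl hκ covN01 covN00 hx hx'
        Pool.Agent.Strip051.G.I1_8_3_16.Tab.C.NA00.c_mm_102 (cutA_cons (Pool.Agent.Strip051.G.I1_8_3_16.Tab.altN_A102R_00 hκ hx hx') cutA_nil) noExt_A F trivial trivial

theorem NA00_mm_112 {κ x : ℝ} (hκ : κ * h0 = ken x) (hx : ((134217728 : ℕ) : ℝ) / S ≤ x) (hx' : x ≤ (((134217728 : ℕ) : ℝ) + (67108864 : ℕ)) / S) :
    TriA PP.cur (nearL (h0 * 0) 3 κ (h0 * x) (tbl tKN x) (tbl tL x)) 1 1 2 0 0 (-1) (-1) :=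
  (sideN hx hx').nearA (Or.inr rfl) (Or.inr rfl) fun y y' F =>
    nearA_cert (s1 := false) (s2 := false) rfl hκ covN01 covN01 hx hx'
        Pool.Agent.Strip051.G.I1_8_3_16.Tab.C.NA00.c_mm_112 noCut_A noExt_A F trivial trivial

theorem NA00_mm_113 {κ x : ℝ} (hκ : κ * h0 = ken x) (hx : ((134217728 : ℕ) : ℝ) / S ≤ x) (hx' : x ≤ (((134217728 : ℕ) : ℝ) + (67108864 : ℕ)) / S) :
    TriA PP.cur (nearL (h0 * 0) 3 κ (h0 * x) (tbl tKN x) (tbl tL x)) 1 1 3 0 0 (-1) (-1) :=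
  (sideN hx hx').nearA (Or.inr rfl) (Or.inr rfl) fun y y' F =>
    nearA_cert (s1 := false) (s2 := false) rfl hκ covN01 covN01 hx hx'
        Pool.Agent.Strip051.G.I1_8_3_16.Tab.C.NA00.c_mm_113 noCut_A noExt_A F trivial trivial

theorem NA00_mm_123 {κ x : ℝ} (hκ : κ * h0 = ken x) (hx : ((134217728 : ℕ) : ℝ) / S ≤ x) (hx' : x ≤ (((134217728 : ℕ) : ℝ) + (67108864 : ℕ)) / S) :
    TriA PP.cur (nearL (h0 * 0) 3 κ (h0 * x) (tbl tKN x) (tbl tL x)) 1 2 3 0 0 (-1) (-1) :=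
  (sideN hx hx').nearA (Or.inr rfl) (Or.inr rfl) fun y y' F =>
    nearA_cert (s1 := false) (s2 := false) rfl hκ covN01 covN02 hx hx'
        Pool.Agent.Strip051.G.I1_8_3_16.Tab.C.NA00.c_mm_123 noCut_A noExt_A F trivial trivial

theorem NA00_mm_133 {κ x : ℝ} (hκ : κ * h0 = ken x) (hx : ((134217728 : ℕ) : ℝ) / S ≤ x) (hx' : x ≤ (((134217728 : ℕ) : ℝ) + (67108864 : ℕ)) / S) :
    TriA PP.cur (nearL (h0 * 0) 3 κ (h0 * x) (tbl tKN x) (tbl tL x)) 1 3 3 0 0 (-1) (-1) :=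
  triA_k0

theorem NA00_mm_202 {κ x : ℝ} (hκ : κ * h0 = ken x) (hx : ((134217728 : ℕ) : ℝ) / S ≤ x) (hx' : x ≤ (((134217728 : ℕ) : ℝ) + (67108864 : ℕ)) / S) :
    TriA PP.cur (nearL (h0 * 0) 3 κ (h0 * x) (tbl tKN x) (tbl tL x)) 2 0 2 0 0 (-1) (-1) :=
  (sideN hx hx').nearA (Or.inr rfl) (Or.inr rfl) fun y y' F =>
    nearA_cert (s1 := false) (s2 := false) rfl hκ covN02 covN00 hx hx'
        Pool.Agent.Strip051.G.I1_8_3_16.Tab.C.NA00.c_mm_202 (cutA_cons (Pool.Agent.Strip051.G.I1_8_3_16.Tab.altN_A202R_00 hκ hx hx') cutA_nil) noExt_A F trivial trivial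

theorem NA00_mm_203 {κ x : ℝ} (hκ : κ * h0 = ken x) (hx : ((134217728 : ℕ) : ℝ) / S ≤ x) (hx' : x ≤ (((134217728 : ℕ) : ℝ) + (67108864 : ℕ)) / S) :
    TriA PP.cur (nearL (h0 * 0) 3 κ (h0 * x) (tbl tKN x) (tbl tL x)) 2 0 3 0 0 (-1) (-1) :=
  (sideN hx hx').nearA (Or.inr rfl) (Or.inr rfl) fun y y' F =>
    nearA_cert (s1 := false) (s2 := false) rfl hκ covN02 covN00 hx hx'
        Pool.Agent.Strip051.G.I1_8_3_16.Tab.C.NA00.c_mm_203 noCut_A noExt_A F trivial trivial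

theorem NA00_mm_213 {κ x : ℝ} (hκ : κ * h0 = ken x) (hx : ((134217728 : ℕ) : ℝ) / S ≤ x) (hx' : x ≤ (((134217728 : ℕ) : ℝ) + (67108864 : ℕ)) / S) :
    TriA PP.cur (nearL (h0 * 0) 3 κ (h0 * x) (tbl tKN x) (tbl tL x)) 2 1 3 0 0 (-1) (-1) :=
  (sideN hx hx').nearA (Or.inr rfl) (Or.inr rfl) fun y y' F =>
    nearA_cert (s1 := false) (s2 := false) rfl hκ covN02 covN01 hx hx'
        Pool.Agent.Strip051.G.I1_8_3_16.Tab.C.NA00.c_mm_213 noCut_A noExt_A F trivial trivial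

theorem NA00_mm_303 {κ x : ℝ} (hκ : κ * h0 = ken x) (hx : ((134217728 : ℕ) : ℝ) / S ≤ x) (hx' : x ≤ (((134217728 : ℕ) : ℝ) + (67108864 : ℕ)) / S) :
    TriA PP.cur (nearL (h0 * 0) 3 κ (h0 * x) (tbl tKN x) (tbl tL x)) 3 0 3 0 0 (-1) (-1) :=
  triA_j0

theorem NA00_mm_313 {κ x : ℝ} (hκ : κ * h0 = ken x) (hx : ((134217728 : ℕ) : ℝ) / S ≤ x) (hx' : x ≤ (((134217728 : ℕ) : ℝ) + (67108864 : ℕ)) / S) :
    TriA PP.cur (nearL (h0 * 0) 3 κ (h0 * x) (tbl tKN x) (tbl tL x)) 3 1 3 0 0 (-1) (-1) :=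
  triA_j0

theorem NA00 {κ x : ℝ} (hκ : κ * h0 = ken x) (hx : ((134217728 : ℕ) : ℝ) / S ≤ x) (hx' : x ≤ (((134217728 : ℕ) : ℝ) + (67108864 : ℕ)) / S) : AllTA PP.cur (nearL (h0 * 0) 3 κ (h0 * x) (tbl tKN x) (tbl tL x)) 0 0 where
  pp := all17 (Q := fun a b c => TriA PP.cur (nearL (h0 * 0) 3 κ (h0 * x) (tbl tKN x) (tbl tL x)) a b c 0 0 1 1)
    (NA00_pp_001 hκ hx hx') (NA00_pp_011 hκ hx hx') (NA00_pp_012 hκ hx hx') (NA00_pp_022 hκ hx hx') (NA00_pp_023 hκ hx hx') (NA00_pp_033 hκ hx hx') (NA00_pp_101 hκ hx hx') (NA00_pp_102 hκ hx hx') (NA00_pp_112 hκ hx hx') (NA00_pp_113 hκ hx hx') (NA00_pp_123 hκ hx hx') (NA00_pp_133 hκ hx hx') (NA00_pp_202 hκ hx hx') (NA00_pp_203 hκ hx hx') (NA00_pp_213 hκ hx hx') (NA00_pp_303 hκ hx hx') (NA00_pp_313 hκ hx hx')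
  pm := all17 (Q := fun a b c => TriA PP.cur (nearL (h0 * 0) 3 κ (h0 * x) (tbl tKN x) (tbl tL x)) a b c 0 0 1 (-1))
    (NA00_pm_001 hκ hx hx') (NA00_pm_011 hκ hx hx') (NA00_pm_012 hκ hx hx') (NA00_pm_022 hκ hx hx') (NA00_pm_023 hκ hx hx') (NA00_pm_033 hκ hx hx') (NA00_pm_101 hκ hx hx') (NA00_pm_102 hκ hx hx') (NA00_pm_112 hκ hx hx') (NA00_pm_113 hκ hx hx') (NA00_pm_123 hκ hx hx') (NA00_pm_133 hκ hx hx') (NA00_pm_202 hκ hx hx') (NA00_pm_203 hκ hx hx') (NA00_pm_213 hκ hx hx') (NA00_pm_303 hκ hx hx') (NA00_pm_313 hκ hx hx')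
  mm := all17 (Q := fun a b c => TriA PP.cur (nearL (h0 * 0) 3 κ (h0 * x) (tbl tKN x) (tbl tL x)) a b c 0 0 (-1) (-1))
    (NA00_mm_001 hκ hx hx') (NA00_mm_011 hκ hx hx') (NA00_mm_012 hκ hx hx') (NA00_mm_022 hκ hx hx') (NA00_mm_023 hκ hx hx') (NA00_mm_033 hκ hx hx') (NA00_mm_101 hκ hx hx') (NA00_mm_102 hκ hx hx') (NA00_mm_112 hκ hx hx') (NA00_mm_113 hκ hx hx') (NA00_mm_123 hκ hx hx') (NA00_mm_133 hκ hx hx') (NA00_mm_202 hκ hx hx') (NA00_mm_203 hκ hx hx') (NA00_mm_213 hκ hx hx') (NA00_mm_303 hκ hx hx') (NA00_mm_313 hκ hx hx')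

theorem NA01_pp_001 {κ x : ℝ} (hκ : κ * h0 = ken x) (hx : ((134217728 : ℕ) : ℝ) / S ≤ x) (hx' : x ≤ (((134217728 : ℕ) : ℝ) + (67108864 : ℕ)) / S) :
    TriA PP.cur (nearL (h0 * 0) 3 κ (h0 * x) (tbl tKN x) (tbl tL x)) 0 0 1 0 1 1 1 :=
  (sideN hx hx').nearA (Or.inl rfl) (Or.inl rfl) fun y y' F =>
    nearA_cert (s1 := true) (s2 := true) rfl hκ covN00 covN10 hx hx'
        Pool.Agent.Strip051.G.I1_8_3_16.Tab.C.NA01.c_pp_001 noCut_A noExt_A F trivial trivial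

theorem NA01_pp_011 {κ x : ℝ} (hκ : κ * h0 = ken x) (hx : ((134217728 : ℕ) : ℝ) / S ≤ x) (hx' : x ≤ (((134217728 : ℕ) : ℝ) + (67108864 : ℕ)) / S) :
    TriA PP.cur (nearL (h0 * 0) 3 κ (h0 * x) (tbl tKN x) (tbl tL x)) 0 1 1 0 1 1 1 :=
  (sideN hx hx').nearA (Or.inl rfl) (Or.inl rfl) fun y y' F =>
    nearA_cert (s1 := true) (s2 := true) rfl hκ covN00 covN11 hx hx'
        Pool.Agent.Strip051.G.I1_8_3_16.Tab.C.NA01.c_pp_011 noCut_A noExt_A F trivial trivial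

theorem NA01_pp_012 {κ x : ℝ} (hκ : κ * h0 = ken x) (hx : ((134217728 : ℕ) : ℝ) / S ≤ x) (hx' : x ≤ (((134217728 : ℕ) : ℝ) + (67108864 : ℕ)) / S) :
    TriA PP.cur (nearL (h0 * 0) 3 κ (h0 * x) (tbl tKN x) (tbl tL x)) 0 1 2 0 1 1 1 :=
  (sideN hx hx').nearA (Or.inl rfl) (Or.inl rfl) fun y y' F =>
    nearA_cert (s1 := true) (s2 := true) rfl hκ covN00 covN11 hx hx'
        Pool.Agent.Strip051.G.I1_8_3_16.Tab.C.NA01.c_pp_012 noCut_A noExt_A F trivial trivial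

theorem NA01_pp_022 {κ x : ℝ} (hκ : κ * h0 = ken x) (hx : ((134217728 : ℕ) : ℝ) / S ≤ x) (hx' : x ≤ (((134217728 : ℕ) : ℝ) + (67108864 : ℕ)) / S) :
    TriA PP.cur (nearL (h0 * 0) 3 κ (h0 * x) (tbl tKN x) (tbl tL x)) 0 2 2 0 1 1 1 :=
  (sideN hx hx').nearA (Or.inl rfl) (Or.inl rfl) fun y y' F =>
    (lt_or_ge (h0 * y') 1).elim
      (fun g => nearA_cert (s1 := true) (s2 := true) rfl hκ covN00 covN12a hx hx'
        Pool.Agent.Strip051.G.I1_8_3_16.Tab.C.NA01.c_pp_022_a (cutA_cons (Pool.Agent.Strip051.G.I1_8_3_16.Tab.altN_A022L_01 hκ hx hx') cutA_nil) noExt_A F trivial g)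
      (fun g => nearA_cert (s1 := true) (s2 := true) rfl hκ covN00 covN12b hx hx'
        Pool.Agent.Strip051.G.I1_8_3_16.Tab.C.NA01.c_pp_022_b (cutA_cons (Pool.Agent.Strip051.G.I1_8_3_16.Tab.altN_A022L_01 hκ hx hx') cutA_nil) noExt_A F trivial g)

theorem NA01_pp_023 {κ x : ℝ} (hκ : κ * h0 = ken x) (hx : ((134217728 : ℕ) : ℝ) / S ≤ x) (hx' : x ≤ (((134217728 : ℕ) : ℝ) + (67108864 : ℕ)) / S) :
    TriA PP.cur (nearL (h0 * 0) 3 κ (h0 * x) (tbl tKN x) (tbl tL x)) 0 2 3 0 1 1 1 :=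
  (sideN hx hx').nearA (Or.inl rfl) (Or.inl rfl) fun y y' F =>
    (lt_or_ge (h0 * y') 1).elim
      (fun g => nearA_cert (s1 := true) (s2 := true) rfl hκ covN00 covN12a hx hx'
        Pool.Agent.Strip051.G.I1_8_3_16.Tab.C.NA01.c_pp_023_a noCut_A noExt_A F trivial g)
      (fun g => nearA_cert (s1 := true) (s2 := true) rfl hκ covN00 covN12b hx hx'
        Pool.Agent.Strip051.G.I1_8_3_16.Tab.C.NA01.c_pp_023_b noCut_A noExt_A F trivial g)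

theorem NA01_pp_033 {κ x : ℝ} (hκ : κ * h0 = ken x) (hx : ((134217728 : ℕ) : ℝ) / S ≤ x) (hx' : x ≤ (((134217728 : ℕ) : ℝ) + (67108864 : ℕ)) / S) :
    TriA PP.cur (nearL (h0 * 0) 3 κ (h0 * x) (tbl tKN x) (tbl tL x)) 0 3 3 0 1 1 1 :=
  (sideN hx hx').nearA (Or.inl rfl) (Or.inl rfl) fun y y' F =>
    nearA_cert (s1 := true) (s2 := true) rfl hκ covN00 covN13 hx hx'
        Pool.Agent.Strip051.G.I1_8_3_16.Tab.C.NA01.c_pp_033 noCut_A noExt_A F trivial trivial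

theorem NA01_pp_101 {κ x : ℝ} (hκ : κ * h0 = ken x) (hx : ((134217728 : ℕ) : ℝ) / S ≤ x) (hx' : x ≤ (((134217728 : ℕ) : ℝ) + (67108864 : ℕ)) / S) :
    TriA PP.cur (nearL (h0 * 0) 3 κ (h0 * x) (tbl tKN x) (tbl tL x)) 1 0 1 0 1 1 1 :=
  (sideN hx hx').nearA (Or.inl rfl) (Or.inl rfl) fun y y' F =>
    nearA_cert (s1 := true) (s2 := true) rfl hκ covN01 covN10 hx hx'
        Pool.Agent.Strip051.G.I1_8_3_16.Tab.C.NA01.c_pp_101 noCut_A noExt_A F trivial trivial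

theorem NA01_pp_102 {κ x : ℝ} (hκ : κ * h0 = ken x) (hx : ((134217728 : ℕ) : ℝ) / S ≤ x) (hx' : x ≤ (((134217728 : ℕ) : ℝ) + (67108864 : ℕ)) / S) :
    TriA PP.cur (nearL (h0 * 0) 3 κ (h0 * x) (tbl tKN x) (tbl tL x)) 1 0 2 0 1 1 1 :=
  (sideN hx hx').nearA (Or.inl rfl) (Or.inl rfl) fun y y' F =>
    nearA_cert (s1 := true) (s2 := true) rfl hκ covN01 covN10 hx hx'
        Pool.Agent.Strip051.G.I1_8_3_16.Tab.C.NA01.c_pp_102 noCut_A noExt_A F trivial trivial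

theorem NA01_pp_112 {κ x : ℝ} (hκ : κ * h0 = ken x) (hx : ((134217728 : ℕ) : ℝ) / S ≤ x) (hx' : x ≤ (((134217728 : ℕ) : ℝ) + (67108864 : ℕ)) / S) :
    TriA PP.cur (nearL (h0 * 0) 3 κ (h0 * x) (tbl tKN x) (tbl tL x)) 1 1 2 0 1 1 1 :=
  (sideN hx hx').nearA (Or.inl rfl) (Or.inl rfl) fun y y' F =>
    nearA_cert (s1 := true) (s2 := true) rfl hκ covN01 covN11 hx hx'
        Pool.Agent.Strip051.G.I1_8_3_16.Tab.C.NA01.c_pp_112 noCut_A noExt_A F trivial trivial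

theorem NA01_pp_113 {κ x : ℝ} (hκ : κ * h0 = ken x) (hx : ((134217728 : ℕ) : ℝ) / S ≤ x) (hx' : x ≤ (((134217728 : ℕ) : ℝ) + (67108864 : ℕ)) / S) :
    TriA PP.cur (nearL (h0 * 0) 3 κ (h0 * x) (tbl tKN x) (tbl tL x)) 1 1 3 0 1 1 1 :=
  (sideN hx hx').nearA (Or.inl rfl) (Or.inl rfl) fun y y' F =>
    nearA_cert (s1 := true) (s2 := true) rfl hκ covN01 covN11 hx hx'
        Pool.Agent.Strip051.G.I1_8_3_16.Tab.C.NA01.c_pp_113 noCut_A noExt_A F trivial trivial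

theorem NA01_pp_123 {κ x : ℝ} (hκ : κ * h0 = ken x) (hx : ((134217728 : ℕ) : ℝ) / S ≤ x) (hx' : x ≤ (((134217728 : ℕ) : ℝ) + (67108864 : ℕ)) / S) :
    TriA PP.cur (nearL (h0 * 0) 3 κ (h0 * x) (tbl tKN x) (tbl tL x)) 1 2 3 0 1 1 1 :=
  (sideN hx hx').nearA (Or.inl rfl) (Or.inl rfl) fun y y' F =>
    (lt_or_ge (h0 * y') 1).elim
      (fun g => nearA_cert (s1 := true) (s2 := true) rfl hκ covN01 covN12a hx hx'
        Pool.Agent.Strip051.G.I1_8_3_16.Tab.C.NA01.c_pp_123_a noCut_A noExt_A F trivial g)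
      (fun g => nearA_cert (s1 := true) (s2 := true) rfl hκ covN01 covN12b hx hx'
        Pool.Agent.Strip051.G.I1_8_3_16.Tab.C.NA01.c_pp_123_b noCut_A noExt_A F trivial g)

theorem NA01_pp_133 {κ x : ℝ} (hκ : κ * h0 = ken x) (hx : ((134217728 : ℕ) : ℝ) / S ≤ x) (hx' : x ≤ (((134217728 : ℕ) : ℝ) + (67108864 : ℕ)) / S) :
    TriA PP.cur (nearL (h0 * 0) 3 κ (h0 * x) (tbl tKN x) (tbl tL x)) 1 3 3 0 1 1 1 :=
  (sideN hx hx').nearA (Or.inl rfl) (Or.inl rfl) fun y y' F =>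
    nearA_cert (s1 := true) (s2 := true) rfl hκ covN01 covN13 hx hx'
        Pool.Agent.Strip051.G.I1_8_3_16.Tab.C.NA01.c_pp_133 noCut_A noExt_A F trivial trivial

theorem NA01_pp_202 {κ x : ℝ} (hκ : κ * h0 = ken x) (hx : ((134217728 : ℕ) : ℝ) / S ≤ x) (hx' : x ≤ (((134217728 : ℕ) : ℝ) + (67108864 : ℕ)) / S) :
    TriA PP.cur (nearL (h0 * 0) 3 κ (h0 * x) (tbl tKN x) (tbl tL x)) 2 0 2 0 1 1 1 :=
  (sideN hx hx').nearA (Or.inl rfl) (Or.inl rfl) fun y y' F =>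
    nearA_cert (s1 := true) (s2 := true) rfl hκ covN02 covN10 hx hx'
        Pool.Agent.Strip051.G.I1_8_3_16.Tab.C.NA01.c_pp_202 noCut_A noExt_A F trivial trivial

theorem NA01_pp_203 {κ x : ℝ} (hκ : κ * h0 = ken x) (hx : ((134217728 : ℕ) : ℝ) / S ≤ x) (hx' : x ≤ (((134217728 : ℕ) : ℝ) + (67108864 : ℕ)) / S) :
    TriA PP.cur (nearL (h0 * 0) 3 κ (h0 * x) (tbl tKN x) (tbl tL x)) 2 0 3 0 1 1 1 :=
  (sideN hx hx').nearA (Or.inl rfl) (Or.inl rfl) fun y y' F =>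
    nearA_cert (s1 := true) (s2 := true) rfl hκ covN02 covN10 hx hx'
        Pool.Agent.Strip051.G.I1_8_3_16.Tab.C.NA01.c_pp_203 noCut_A noExt_A F trivial trivial

theorem NA01_pp_213 {κ x : ℝ} (hκ : κ * h0 = ken x) (hx : ((134217728 : ℕ) : ℝ) / S ≤ x) (hx' : x ≤ (((134217728 : ℕ) : ℝ) + (67108864 : ℕ)) / S) :
    TriA PP.cur (nearL (h0 * 0) 3 κ (h0 * x) (tbl tKN x) (tbl tL x)) 2 1 3 0 1 1 1 :=
  (sideN hx hx').nearA (Or.inl rfl) (Or.inl rfl) fun y y' F =>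
    nearA_cert (s1 := true) (s2 := true) rfl hκ covN02 covN11 hx hx'
        Pool.Agent.Strip051.G.I1_8_3_16.Tab.C.NA01.c_pp_213 noCut_A noExt_A F trivial trivial

theorem NA01_pp_303 {κ x : ℝ} (hκ : κ * h0 = ken x) (hx : ((134217728 : ℕ) : ℝ) / S ≤ x) (hx' : x ≤ (((134217728 : ℕ) : ℝ) + (67108864 : ℕ)) / S) :
    TriA PP.cur (nearL (h0 * 0) 3 κ (h0 * x) (tbl tKN x) (tbl tL x)) 3 0 3 0 1 1 1 :=
  triA_j0

theorem NA01_pp_313 {κ x : ℝ} (hκ : κ * h0 = ken x) (hx : ((134217728 : ℕ) : ℝ) / S ≤ x) (hx' : x ≤ (((134217728 : ℕ) : ℝ) + (67108864 : ℕ)) / S) :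
    TriA PP.cur (nearL (h0 * 0) 3 κ (h0 * x) (tbl tKN x) (tbl tL x)) 3 1 3 0 1 1 1 :=
  triA_j0

theorem NA01_pm_001 {κ x : ℝ} (hκ : κ * h0 = ken x) (hx : ((134217728 : ℕ) : ℝ) / S ≤ x) (hx' : x ≤ (((134217728 : ℕ) : ℝ) + (67108864 : ℕ)) / S) :
    TriA PP.cur (nearL (h0 * 0) 3 κ (h0 * x) (tbl tKN x) (tbl tL x)) 0 0 1 0 1 1 (-1) :=
  (sideN hx hx').nearA (Or.inl rfl) (Or.inr rfl) fun y y' F =>
    nearA_cert (s1 := true) (s2 := false) rfl hκ covN00 covN10 hx hx'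
        Pool.Agent.Strip051.G.I1_8_3_16.Tab.C.NA01.c_pm_001 noCut_A noExt_A F trivial trivial

theorem NA01_pm_011 {κ x : ℝ} (hκ : κ * h0 = ken x) (hx : ((134217728 : ℕ) : ℝ) / S ≤ x) (hx' : x ≤ (((134217728 : ℕ) : ℝ) + (67108864 : ℕ)) / S) :
    TriA PP.cur (nearL (h0 * 0) 3 κ (h0 * x) (tbl tKN x) (tbl tL x)) 0 1 1 0 1 1 (-1) :=
  (sideN hx hx').nearA (Or.inl rfl) (Or.inr rfl) fun y y' F =>
    nearA_cert (s1 := true) (s2 := false) rfl hκ covN00 covN11 hx hx'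
        Pool.Agent.Strip051.G.I1_8_3_16.Tab.C.NA01.c_pm_011 noCut_A noExt_A F trivial trivial

theorem NA01_pm_012 {κ x : ℝ} (hκ : κ * h0 = ken x) (hx : ((134217728 : ℕ) : ℝ) / S ≤ x) (hx' : x ≤ (((134217728 : ℕ) : ℝ) + (67108864 : ℕ)) / S) :
    TriA PP.cur (nearL (h0 * 0) 3 κ (h0 * x) (tbl tKN x) (tbl tL x)) 0 1 2 0 1 1 (-1) :=
  (sideN hx hx').nearA (Or.inl rfl) (Or.inr rfl) fun y y' F =>
    nearA_cert (s1 := true) (s2 := false) rfl hκ covN00 covN11 hx hx'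
        Pool.Agent.Strip051.G.I1_8_3_16.Tab.C.NA01.c_pm_012 noCut_A noExt_A F trivial trivial

theorem NA01_pm_022 {κ x : ℝ} (hκ : κ * h0 = ken x) (hx : ((134217728 : ℕ) : ℝ) / S ≤ x) (hx' : x ≤ (((134217728 : ℕ) : ℝ) + (67108864 : ℕ)) / S) :
    TriA PP.cur (nearL (h0 * 0) 3 κ (h0 * x) (tbl tKN x) (tbl tL x)) 0 2 2 0 1 1 (-1) :=
  (sideN hx hx').nearA (Or.inl rfl) (Or.inr rfl) fun y y' F =>
    (lt_or_ge (h0 * y') 1).elim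
      (fun g => nearA_cert (s1 := true) (s2 := false) rfl hκ covN00 covN12a hx hx'
        Pool.Agent.Strip051.G.I1_8_3_16.Tab.C.NA01.c_pm_022_a (cutA_cons (Pool.Agent.Strip051.G.I1_8_3_16.Tab.altN_A022E_01 hκ hx hx') (cutA_cons (Pool.Agent.Strip051.G.I1_8_3_16.Tab.Mo.molN_A_022_01_0 hκ hx hx') cutA_nil)) noExt_A F trivial g)
      (fun g => nearA_cert (s1 := true) (s2 := false) rfl hκ covN00 covN12b hx hx'
        Pool.Agent.Strip051.G.I1_8_3_16.Tab.C.NA01.c_pm_022_b (cutA_cons (Pool.Agent.Strip051.G.I1_8_3_16.Tab.altN_A022E_01 hκ hx hx') (cutA_cons (Pool.Agent.Strip051.G.I1_8_3_16.Tab.Mo.molN_A_022_01_0 hκ hx hx') cutA_nil)) noExt_A F trivial g)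

theorem NA01_pm_023 {κ x : ℝ} (hκ : κ * h0 = ken x) (hx : ((134217728 : ℕ) : ℝ) / S ≤ x) (hx' : x ≤ (((134217728 : ℕ) : ℝ) + (67108864 : ℕ)) / S) :
    TriA PP.cur (nearL (h0 * 0) 3 κ (h0 * x) (tbl tKN x) (tbl tL x)) 0 2 3 0 1 1 (-1) :=
  (sideN hx hx').nearA (Or.inl rfl) (Or.inr rfl) fun y y' F =>
    (lt_or_ge (h0 * y') 1).elim
      (fun g => nearA_cert (s1 := true) (s2 := false) rfl hκ covN00 covN12a hx hx'
        Pool.Agent.Strip051.G.I1_8_3_16.Tab.C.NA01.c_pm_023_a noCut_A noExt_A F trivial g)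
      (fun g => nearA_cert (s1 := true) (s2 := false) rfl hκ covN00 covN12b hx hx'
        Pool.Agent.Strip051.G.I1_8_3_16.Tab.C.NA01.c_pm_023_b noCut_A noExt_A F trivial g)

theorem NA01_pm_033 {κ x : ℝ} (hκ : κ * h0 = ken x) (hx : ((134217728 : ℕ) : ℝ) / S ≤ x) (hx' : x ≤ (((134217728 : ℕ) : ℝ) + (67108864 : ℕ)) / S) :
    TriA PP.cur (nearL (h0 * 0) 3 κ (h0 * x) (tbl tKN x) (tbl tL x)) 0 3 3 0 1 1 (-1) :=
  (sideN hx hx').nearA (Or.inl rfl) (Or.inr rfl) fun y y' F =>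
    nearA_cert (s1 := true) (s2 := false) rfl hκ covN00 covN13 hx hx'
        Pool.Agent.Strip051.G.I1_8_3_16.Tab.C.NA01.c_pm_033 noCut_A noExt_A F trivial trivial

theorem NA01_pm_101 {κ x : ℝ} (hκ : κ * h0 = ken x) (hx : ((134217728 : ℕ) : ℝ) / S ≤ x) (hx' : x ≤ (((134217728 : ℕ) : ℝ) + (67108864 : ℕ)) / S) :
    TriA PP.cur (nearL (h0 * 0) 3 κ (h0 * x) (tbl tKN x) (tbl tL x)) 1 0 1 0 1 1 (-1) :=
  (sideN hx hx').nearA (Or.inl rfl) (Or.inr rfl) fun y y' F =>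
    nearA_cert (s1 := true) (s2 := false) rfl hκ covN01 covN10 hx hx'
        Pool.Agent.Strip051.G.I1_8_3_16.Tab.C.NA01.c_pm_101 (cutA_cons (Pool.Agent.Strip051.G.I1_8_3_16.Tab.altN_A101E_01 hκ hx hx') cutA_nil) noExt_A F trivial trivial

theorem NA01_pm_102 {κ x : ℝ} (hκ : κ * h0 = ken x) (hx : ((134217728 : ℕ) : ℝ) / S ≤ x) (hx' : x ≤ (((134217728 : ℕ) : ℝ) + (67108864 : ℕ)) / S) :
    TriA PP.cur (nearL (h0 * 0) 3 κ (h0 * x) (tbl tKN x) (tbl tL x)) 1 0 2 0 1 1 (-1) :=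
  (sideN hx hx').nearA (Or.inl rfl) (Or.inr rfl) fun y y' F =>
    nearA_cert (s1 := true) (s2 := false) rfl hκ covN01 covN10 hx hx'
        Pool.Agent.Strip051.G.I1_8_3_16.Tab.C.NA01.c_pm_102 (cutA_cons (Pool.Agent.Strip051.G.I1_8_3_16.Tab.altN_A102E_01 hκ hx hx') cutA_nil) noExt_A F trivial trivial

theorem NA01_pm_112 {κ x : ℝ} (hκ : κ * h0 = ken x) (hx : ((134217728 : ℕ) : ℝ) / S ≤ x) (hx' : x ≤ (((134217728 : ℕ) : ℝ) + (67108864 : ℕ)) / S) :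
    TriA PP.cur (nearL (h0 * 0) 3 κ (h0 * x) (tbl tKN x) (tbl tL x)) 1 1 2 0 1 1 (-1) :=
  (sideN hx hx').nearA (Or.inl rfl) (Or.inr rfl) fun y y' F =>
    nearA_cert (s1 := true) (s2 := false) rfl hκ covN01 covN11 hx hx'
        Pool.Agent.Strip051.G.I1_8_3_16.Tab.C.NA01.c_pm_112 noCut_A noExt_A F trivial trivial

theorem NA01_pm_113 {κ x : ℝ} (hκ : κ * h0 = ken x) (hx : ((134217728 : ℕ) : ℝ) / S ≤ x) (hx' : x ≤ (((134217728 : ℕ) : ℝ) + (67108864 : ℕ)) / S) :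
    TriA PP.cur (nearL (h0 * 0) 3 κ (h0 * x) (tbl tKN x) (tbl tL x)) 1 1 3 0 1 1 (-1) :=
  (sideN hx hx').nearA (Or.inl rfl) (Or.inr rfl) fun y y' F =>
    nearA_cert (s1 := true) (s2 := false) rfl hκ covN01 covN11 hx hx'
        Pool.Agent.Strip051.G.I1_8_3_16.Tab.C.NA01.c_pm_113 noCut_A noExt_A F trivial trivial

theorem NA01_pm_123 {κ x : ℝ} (hκ : κ * h0 = ken x) (hx : ((134217728 : ℕ) : ℝ) / S ≤ x) (hx' : x ≤ (((134217728 : ℕ) : ℝ) + (67108864 : ℕ)) / S) :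
    TriA PP.cur (nearL (h0 * 0) 3 κ (h0 * x) (tbl tKN x) (tbl tL x)) 1 2 3 0 1 1 (-1) :=
  (sideN hx hx').nearA (Or.inl rfl) (Or.inr rfl) fun y y' F =>
    (lt_or_ge (h0 * y') 1).elim
      (fun g => nearA_cert (s1 := true) (s2 := false) rfl hκ covN01 covN12a hx hx'
        Pool.Agent.Strip051.G.I1_8_3_16.Tab.C.NA01.c_pm_123_a (cutA_cons (Pool.Agent.Strip051.G.I1_8_3_16.Tab.alt12cN_A123_01 hκ hx hx') cutA_nil) noExt_A F trivial g)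
      (fun g => nearA_cert (s1 := true) (s2 := false) rfl hκ covN01 covN12b hx hx'
        Pool.Agent.Strip051.G.I1_8_3_16.Tab.C.NA01.c_pm_123_b (cutA_cons (Pool.Agent.Strip051.G.I1_8_3_16.Tab.alt12cN_A123_01 hκ hx hx') cutA_nil) noExt_A F trivial g)

theorem NA01_pm_133 {κ x : ℝ} (hκ : κ * h0 = ken x) (hx : ((134217728 : ℕ) : ℝ) / S ≤ x) (hx' : x ≤ (((134217728 : ℕ) : ℝ) + (67108864 : ℕ)) / S) :
    TriA PP.cur (nearL (h0 * 0) 3 κ (h0 * x) (tbl tKN x) (tbl tL x)) 1 3 3 0 1 1 (-1) :=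
  (sideN hx hx').nearA (Or.inl rfl) (Or.inr rfl) fun y y' F =>
    nearA_cert (s1 := true) (s2 := false) rfl hκ covN01 covN13 hx hx'
        Pool.Agent.Strip051.G.I1_8_3_16.Tab.C.NA01.c_pm_133 noCut_A noExt_A F trivial trivial

theorem NA01_pm_202 {κ x : ℝ} (hκ : κ * h0 = ken x) (hx : ((134217728 : ℕ) : ℝ) / S ≤ x) (hx' : x ≤ (((134217728 : ℕ) : ℝ) + (67108864 : ℕ)) / S) :
    TriA PP.cur (nearL (h0 * 0) 3 κ (h0 * x) (tbl tKN x) (tbl tL x)) 2 0 2 0 1 1 (-1) :=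
  (sideN hx hx').nearA (Or.inl rfl) (Or.inr rfl) fun y y' F =>
    nearA_cert (s1 := true) (s2 := false) rfl hκ covN02 covN10 hx hx'
        Pool.Agent.Strip051.G.I1_8_3_16.Tab.C.NA01.c_pm_202 (cutA_cons (Pool.Agent.Strip051.G.I1_8_3_16.Tab.altN_A202E_01 hκ hx hx') cutA_nil) noExt_A F trivial trivial

theorem NA01_pm_203 {κ x : ℝ} (hκ : κ * h0 = ken x) (hx : ((134217728 : ℕ) : ℝ) / S ≤ x) (hx' : x ≤ (((134217728 : ℕ) : ℝ) + (67108864 : ℕ)) / S) :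
    TriA PP.cur (nearL (h0 * 0) 3 κ (h0 * x) (tbl tKN x) (tbl tL x)) 2 0 3 0 1 1 (-1) :=
  (sideN hx hx').nearA (Or.inl rfl) (Or.inr rfl) fun y y' F =>
    nearA_cert (s1 := true) (s2 := false) rfl hκ covN02 covN10 hx hx'
        Pool.Agent.Strip051.G.I1_8_3_16.Tab.C.NA01.c_pm_203 noCut_A noExt_A F trivial trivial

theorem NA01_pm_213 {κ x : ℝ} (hκ : κ * h0 = ken x) (hx : ((134217728 : ℕ) : ℝ) / S ≤ x) (hx' : x ≤ (((134217728 : ℕ) : ℝ) + (67108864 : ℕ)) / S) :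
    TriA PP.cur (nearL (h0 * 0) 3 κ (h0 * x) (tbl tKN x) (tbl tL x)) 2 1 3 0 1 1 (-1) :=
  (sideN hx hx').nearA (Or.inl rfl) (Or.inr rfl) fun y y' F =>
    nearA_cert (s1 := true) (s2 := false) rfl hκ covN02 covN11 hx hx'
        Pool.Agent.Strip051.G.I1_8_3_16.Tab.C.NA01.c_pm_213 noCut_A noExt_A F trivial trivial

theorem NA01_pm_303 {κ x : ℝ} (hκ : κ * h0 = ken x) (hx : ((134217728 : ℕ) : ℝ) / S ≤ x) (hx' : x ≤ (((134217728 : ℕ) : ℝ) + (67108864 : ℕ)) / S) :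
    TriA PP.cur (nearL (h0 * 0) 3 κ (h0 * x) (tbl tKN x) (tbl tL x)) 3 0 3 0 1 1 (-1) :=
  triA_j0

theorem NA01_pm_313 {κ x : ℝ} (hκ : κ * h0 = ken x) (hx : ((134217728 : ℕ) : ℝ) / S ≤ x) (hx' : x ≤ (((134217728 : ℕ) : ℝ) + (67108864 : ℕ)) / S) :
    TriA PP.cur (nearL (h0 * 0) 3 κ (h0 * x) (tbl tKN x) (tbl tL x)) 3 1 3 0 1 1 (-1) :=
  triA_j0

theorem NA01_mm_001 {κ x : ℝ} (hκ : κ * h0 = ken x) (hx : ((134217728 : ℕ) : ℝ) / S ≤ x) (hx' : x ≤ (((134217728 : ℕ) : ℝ) + (67108864 : ℕ)) / S) :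
    TriA PP.cur (nearL (h0 * 0) 3 κ (h0 * x) (tbl tKN x) (tbl tL x)) 0 0 1 0 1 (-1) (-1) :=
  (sideN hx hx').nearA (Or.inr rfl) (Or.inr rfl) fun y y' F =>
    nearA_cert (s1 := false) (s2 := false) rfl hκ covN00 covN10 hx hx'
        Pool.Agent.Strip051.G.I1_8_3_16.Tab.C.NA01.c_mm_001 noCut_A noExt_A F trivial trivial

theorem NA01_mm_011 {κ x : ℝ} (hκ : κ * h0 = ken x) (hx : ((134217728 : ℕ) : ℝ) / S ≤ x) (hx' : x ≤ (((134217728 : ℕ) : ℝ) + (67108864 : ℕ)) / S) :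
    TriA PP.cur (nearL (h0 * 0) 3 κ (h0 * x) (tbl tKN x) (tbl tL x)) 0 1 1 0 1 (-1) (-1) :=
  (sideN hx hx').nearA (Or.inr rfl) (Or.inr rfl) fun y y' F =>
    nearA_cert (s1 := false) (s2 := false) rfl hκ covN00 covN11 hx hx'
        Pool.Agent.Strip051.G.I1_8_3_16.Tab.C.NA01.c_mm_011 noCut_A noExt_A F trivial trivial

theorem NA01_mm_012 {κ x : ℝ} (hκ : κ * h0 = ken x) (hx : ((134217728 : ℕ) : ℝ) / S ≤ x) (hx' : x ≤ (((134217728 : ℕ) : ℝ) + (67108864 : ℕ)) / S) :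
    TriA PP.cur (nearL (h0 * 0) 3 κ (h0 * x) (tbl tKN x) (tbl tL x)) 0 1 2 0 1 (-1) (-1) :=
  (sideN hx hx').nearA (Or.inr rfl) (Or.inr rfl) fun y y' F =>
    nearA_cert (s1 := false) (s2 := false) rfl hκ covN00 covN11 hx hx'
        Pool.Agent.Strip051.G.I1_8_3_16.Tab.C.NA01.c_mm_012 noCut_A noExt_A F trivial trivial

theorem NA01_mm_022 {κ x : ℝ} (hκ : κ * h0 = ken x) (hx : ((134217728 : ℕ) : ℝ) / S ≤ x) (hx' : x ≤ (((134217728 : ℕ) : ℝ) + (67108864 : ℕ)) / S) :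
    TriA PP.cur (nearL (h0 * 0) 3 κ (h0 * x) (tbl tKN x) (tbl tL x)) 0 2 2 0 1 (-1) (-1) :=
  (sideN hx hx').nearA (Or.inr rfl) (Or.inr rfl) fun y y' F =>
    (lt_or_ge (h0 * y') 1).elim
      (fun g => nearA_cert (s1 := false) (s2 := false) rfl hκ covN00 covN12a hx hx'
        Pool.Agent.Strip051.G.I1_8_3_16.Tab.C.NA01.c_mm_022_a noCut_A noExt_A F trivial g)
      (fun g => nearA_cert (s1 := false) (s2 := false) rfl hκ covN00 covN12b hx hx'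
        Pool.Agent.Strip051.G.I1_8_3_16.Tab.C.NA01.c_mm_022_b noCut_A noExt_A F trivial g)

theorem NA01_mm_023 {κ x : ℝ} (hκ : κ * h0 = ken x) (hx : ((134217728 : ℕ) : ℝ) / S ≤ x) (hx' : x ≤ (((134217728 : ℕ) : ℝ) + (67108864 : ℕ)) / S) :
    TriA PP.cur (nearL (h0 * 0) 3 κ (h0 * x) (tbl tKN x) (tbl tL x)) 0 2 3 0 1 (-1) (-1) :=
  (sideN hx hx').nearA (Or.inr rfl) (Or.inr rfl) fun y y' F =>
    (lt_or_ge (h0 * y') 1).elim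
      (fun g => nearA_cert (s1 := false) (s2 := false) rfl hκ covN00 covN12a hx hx'
        Pool.Agent.Strip051.G.I1_8_3_16.Tab.C.NA01.c_mm_023_a noCut_A noExt_A F trivial g)
      (fun g => nearA_cert (s1 := false) (s2 := false) rfl hκ covN00 covN12b hx hx'
        Pool.Agent.Strip051.G.I1_8_3_16.Tab.C.NA01.c_mm_023_b noCut_A noExt_A F trivial g)

theorem NA01_mm_033 {κ x : ℝ} (hκ : κ * h0 = ken x) (hx : ((134217728 : ℕ) : ℝ) / S ≤ x) (hx' : x ≤ (((134217728 : ℕ) : ℝ) + (67108864 : ℕ)) / S) :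
    TriA PP.cur (nearL (h0 * 0) 3 κ (h0 * x) (tbl tKN x) (tbl tL x)) 0 3 3 0 1 (-1) (-1) :=
  (sideN hx hx').nearA (Or.inr rfl) (Or.inr rfl) fun y y' F =>
    nearA_cert (s1 := false) (s2 := false) rfl hκ covN00 covN13 hx hx'
        Pool.Agent.Strip051.G.I1_8_3_16.Tab.C.NA01.c_mm_033 noCut_A noExt_A F trivial trivial

theorem NA01_mm_101 {κ x : ℝ} (hκ : κ * h0 = ken x) (hx : ((134217728 : ℕ) : ℝ) / S ≤ x) (hx' : x ≤ (((134217728 : ℕ) : ℝ) + (67108864 : ℕ)) / S) :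
    TriA PP.cur (nearL (h0 * 0) 3 κ (h0 * x) (tbl tKN x) (tbl tL x)) 1 0 1 0 1 (-1) (-1) :=
  (sideN hx hx').nearA (Or.inr rfl) (Or.inr rfl) fun y y' F =>
    nearA_cert (s1 := false) (s2 := false) rfl hκ covN01 covN10 hx hx'
        Pool.Agent.Strip051.G.I1_8_3_16.Tab.C.NA01.c_mm_101 (cutA_cons (Pool.Agent.Strip051.G.I1_8_3_16.Tab.altN_A101R_01 hκ hx hx') cutA_nil) noExt_A F trivial trivial

theorem NA01_mm_102 {κ x : ℝ} (hκ : κ * h0 = ken x) (hx : ((134217728 : ℕ) : ℝ) / S ≤ x) (hx' : x ≤ (((134217728 : ℕ) : ℝ) + (67108864 : ℕ)) / S) :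
    TriA PP.cur (nearL (h0 * 0) 3 κ (h0 * x) (tbl tKN x) (tbl tL x)) 1 0 2 0 1 (-1) (-1) :=
  (sideN hx hx').nearA (Or.inr rfl) (Or.inr rfl) fun y y' F =>
    nearA_cert (s1 := false) (s2 := false) rfl hκ covN01 covN10 hx hx'
        Pool.Agent.Strip051.G.I1_8_3_16.Tab.C.NA01.c_mm_102 (cutA_cons (Pool.Agent.Strip051.G.I1_8_3_16.Tab.altN_A102R_01 hκ hx hx') cutA_nil) noExt_A F trivial trivial

theorem NA01_mm_112 {κ x : ℝ} (hκ : κ * h0 = ken x) (hx : ((134217728 : ℕ) : ℝ) / S ≤ x) (hx' : x ≤ (((134217728 : ℕ) : ℝ) + (67108864 : ℕ)) / S) :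
    TriA PP.cur (nearL (h0 * 0) 3 κ (h0 * x) (tbl tKN x) (tbl tL x)) 1 1 2 0 1 (-1) (-1) :=
  (sideN hx hx').nearA (Or.inr rfl) (Or.inr rfl) fun y y' F =>
    nearA_cert (s1 := false) (s2 := false) rfl hκ covN01 covN11 hx hx'
        Pool.Agent.Strip051.G.I1_8_3_16.Tab.C.NA01.c_mm_112 noCut_A noExt_A F trivial trivial

theorem NA01_mm_113 {κ x : ℝ} (hκ : κ * h0 = ken x) (hx : ((134217728 : ℕ) : ℝ) / S ≤ x) (hx' : x ≤ (((134217728 : ℕ) : ℝ) + (67108864 : ℕ)) / S) :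
    TriA PP.cur (nearL (h0 * 0) 3 κ (h0 * x) (tbl tKN x) (tbl tL x)) 1 1 3 0 1 (-1) (-1) :=
  (sideN hx hx').nearA (Or.inr rfl) (Or.inr rfl) fun y y' F =>
    nearA_cert (s1 := false) (s2 := false) rfl hκ covN01 covN11 hx hx'
        Pool.Agent.Strip051.G.I1_8_3_16.Tab.C.NA01.c_mm_113 noCut_A noExt_A F trivial trivial

theorem NA01_mm_123 {κ x : ℝ} (hκ : κ * h0 = ken x) (hx : ((134217728 : ℕ) : ℝ) / S ≤ x) (hx' : x ≤ (((134217728 : ℕ) : ℝ) + (67108864 : ℕ)) / S) :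
    TriA PP.cur (nearL (h0 * 0) 3 κ (h0 * x) (tbl tKN x) (tbl tL x)) 1 2 3 0 1 (-1) (-1) :=
  (sideN hx hx').nearA (Or.inr rfl) (Or.inr rfl) fun y y' F =>
    (lt_or_ge (h0 * y') 1).elim
      (fun g => nearA_cert (s1 := false) (s2 := false) rfl hκ covN01 covN12a hx hx'
        Pool.Agent.Strip051.G.I1_8_3_16.Tab.C.NA01.c_mm_123_a noCut_A noExt_A F trivial g)
      (fun g => nearA_cert (s1 := false) (s2 := false) rfl hκ covN01 covN12b hx hx'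
        Pool.Agent.Strip051.G.I1_8_3_16.Tab.C.NA01.c_mm_123_b noCut_A noExt_A F trivial g)

theorem NA01_mm_133 {κ x : ℝ} (hκ : κ * h0 = ken x) (hx : ((134217728 : ℕ) : ℝ) / S ≤ x) (hx' : x ≤ (((134217728 : ℕ) : ℝ) + (67108864 : ℕ)) / S) :
    TriA PP.cur (nearL (h0 * 0) 3 κ (h0 * x) (tbl tKN x) (tbl tL x)) 1 3 3 0 1 (-1) (-1) :=
  (sideN hx hx').nearA (Or.inr rfl) (Or.inr rfl) fun y y' F =>
    nearA_cert (s1 := false) (s2 := false) rfl hκ covN01 covN13 hx hx'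
        Pool.Agent.Strip051.G.I1_8_3_16.Tab.C.NA01.c_mm_133 noCut_A noExt_A F trivial trivial

theorem NA01_mm_202 {κ x : ℝ} (hκ : κ * h0 = ken x) (hx : ((134217728 : ℕ) : ℝ) / S ≤ x) (hx' : x ≤ (((134217728 : ℕ) : ℝ) + (67108864 : ℕ)) / S) :
    TriA PP.cur (nearL (h0 * 0) 3 κ (h0 * x) (tbl tKN x) (tbl tL x)) 2 0 2 0 1 (-1) (-1) :=
  (sideN hx hx').nearA (Or.inr rfl) (Or.inr rfl) fun y y' F =>
    nearA_cert (s1 := false) (s2 := false) rfl hκ covN02 covN10 hx hx'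
        Pool.Agent.Strip051.G.I1_8_3_16.Tab.C.NA01.c_mm_202 (cutA_cons (Pool.Agent.Strip051.G.I1_8_3_16.Tab.altN_A202R_01 hκ hx hx') cutA_nil) noExt_A F trivial trivial

theorem NA01_mm_203 {κ x : ℝ} (hκ : κ * h0 = ken x) (hx : ((134217728 : ℕ) : ℝ) / S ≤ x) (hx' : x ≤ (((134217728 : ℕ) : ℝ) + (67108864 : ℕ)) / S) :
    TriA PP.cur (nearL (h0 * 0) 3 κ (h0 * x) (tbl tKN x) (tbl tL x)) 2 0 3 0 1 (-1) (-1) :=
  (sideN hx hx').nearA (Or.inr rfl) (Or.inr rfl) fun y y' F =>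
    nearA_cert (s1 := false) (s2 := false) rfl hκ covN02 covN10 hx hx'
        Pool.Agent.Strip051.G.I1_8_3_16.Tab.C.NA01.c_mm_203 noCut_A noExt_A F trivial trivial

theorem NA01_mm_213 {κ x : ℝ} (hκ : κ * h0 = ken x) (hx : ((134217728 : ℕ) : ℝ) / S ≤ x) (hx' : x ≤ (((134217728 : ℕ) : ℝ) + (67108864 : ℕ)) / S) :
    TriA PP.cur (nearL (h0 * 0) 3 κ (h0 * x) (tbl tKN x) (tbl tL x)) 2 1 3 0 1 (-1) (-1) :=
  (sideN hx hx').nearA (Or.inr rfl) (Or.inr rfl) fun y y' F =>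
    nearA_cert (s1 := false) (s2 := false) rfl hκ covN02 covN11 hx hx'
        Pool.Agent.Strip051.G.I1_8_3_16.Tab.C.NA01.c_mm_213 noCut_A noExt_A F trivial trivial

theorem NA01_mm_303 {κ x : ℝ} (hκ : κ * h0 = ken x) (hx : ((134217728 : ℕ) : ℝ) / S ≤ x) (hx' : x ≤ (((134217728 : ℕ) : ℝ) + (67108864 : ℕ)) / S) :
    TriA PP.cur (nearL (h0 * 0) 3 κ (h0 * x) (tbl tKN x) (tbl tL x)) 3 0 3 0 1 (-1) (-1) :=
  triA_j0

theorem NA01_mm_313 {κ x : ℝ} (hκ : κ * h0 = ken x) (hx : ((134217728 : ℕ) : ℝ) / S ≤ x) (hx' : x ≤ (((134217728 : ℕ) : ℝ) + (67108864 : ℕ)) / S) :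
    TriA PP.cur (nearL (h0 * 0) 3 κ (h0 * x) (tbl tKN x) (tbl tL x)) 3 1 3 0 1 (-1) (-1) :=
  triA_j0

theorem NA01 {κ x : ℝ} (hκ : κ * h0 = ken x) (hx : ((134217728 : ℕ) : ℝ) / S ≤ x) (hx' : x ≤ (((134217728 : ℕ) : ℝ) + (67108864 : ℕ)) / S) : AllTA PP.cur (nearL (h0 * 0) 3 κ (h0 * x) (tbl tKN x) (tbl tL x)) 0 1 where
  pp := all17 (Q := fun a b c => TriA PP.cur (nearL (h0 * 0) 3 κ (h0 * x) (tbl tKN x) (tbl tL x)) a b c 0 1 1 1)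
    (NA01_pp_001 hκ hx hx') (NA01_pp_011 hκ hx hx') (NA01_pp_012 hκ hx hx') (NA01_pp_022 hκ hx hx') (NA01_pp_023 hκ hx hx') (NA01_pp_033 hκ hx hx') (NA01_pp_101 hκ hx hx') (NA01_pp_102 hκ hx hx') (NA01_pp_112 hκ hx hx') (NA01_pp_113 hκ hx hx') (NA01_pp_123 hκ hx hx') (NA01_pp_133 hκ hx hx') (NA01_pp_202 hκ hx hx') (NA01_pp_203 hκ hx hx') (NA01_pp_213 hκ hx hx') (NA01_pp_303 hκ hx hx') (NA01_pp_313 hκ hx hx')
  pm := all17 (Q := fun a b c => TriA PP.cur (nearL (h0 * 0) 3 κ (h0 * x) (tbl tKN x) (tbl tL x)) a b c 0 1 1 (-1))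
    (NA01_pm_001 hκ hx hx') (NA01_pm_011 hκ hx hx') (NA01_pm_012 hκ hx hx') (NA01_pm_022 hκ hx hx') (NA01_pm_023 hκ hx hx') (NA01_pm_033 hκ hx hx') (NA01_pm_101 hκ hx hx') (NA01_pm_102 hκ hx hx') (NA01_pm_112 hκ hx hx') (NA01_pm_113 hκ hx hx') (NA01_pm_123 hκ hx hx') (NA01_pm_133 hκ hx hx') (NA01_pm_202 hκ hx hx') (NA01_pm_203 hκ hx hx') (NA01_pm_213 hκ hx hx') (NA01_pm_303 hκ hx hx') (NA01_pm_313 hκ hx hx')
  mm := all17 (Q := fun a b c => TriA PP.cur (nearL (h0 * 0) 3 κ (h0 * x) (tbl tKN x) (tbl tL x)) a b c 0 1 (-1) (-1))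
    (NA01_mm_001 hκ hx hx') (NA01_mm_011 hκ hx hx') (NA01_mm_012 hκ hx hx') (NA01_mm_022 hκ hx hx') (NA01_mm_023 hκ hx hx') (NA01_mm_033 hκ hx hx') (NA01_mm_101 hκ hx hx') (NA01_mm_102 hκ hx hx') (NA01_mm_112 hκ hx hx') (NA01_mm_113 hκ hx hx') (NA01_mm_123 hκ hx hx') (NA01_mm_133 hκ hx hx') (NA01_mm_202 hκ hx hx') (NA01_mm_203 hκ hx hx') (NA01_mm_213 hκ hx hx') (NA01_mm_303 hκ hx hx') (NA01_mm_313 hκ hx hx')

theorem NA02_pp_001 {κ x : ℝ} (hκ : κ * h0 = ken x) (hx : ((134217728 : ℕ) : ℝ) / S ≤ x) (hx' : x ≤ (((134217728 : ℕ) : ℝ) + (67108864 : ℕ)) / S) :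
    TriA PP.cur (nearL (h0 * 0) 3 κ (h0 * x) (tbl tKN x) (tbl tL x)) 0 0 1 0 2 1 1 :=
  (sideN hx hx').nearA (Or.inl rfl) (Or.inl rfl) fun y y' F =>
    nearA_cert (s1 := true) (s2 := true) rfl hκ covN00 covN20 hx hx'
        Pool.Agent.Strip051.G.I1_8_3_16.Tab.C.NA02.c_pp_001 noCut_A noExt_A F trivial trivial

theorem NA02_pp_011 {κ x : ℝ} (hκ : κ * h0 = ken x) (hx : ((134217728 : ℕ) : ℝ) / S ≤ x) (hx' : x ≤ (((134217728 : ℕ) : ℝ) + (67108864 : ℕ)) / S) :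
    TriA PP.cur (nearL (h0 * 0) 3 κ (h0 * x) (tbl tKN x) (tbl tL x)) 0 1 1 0 2 1 1 :=
  (sideN hx hx').nearA (Or.inl rfl) (Or.inl rfl) fun y y' F =>
    nearA_cert (s1 := true) (s2 := true) rfl hκ covN00 covN21 hx hx'
        Pool.Agent.Strip051.G.I1_8_3_16.Tab.C.NA02.c_pp_011 noCut_A noExt_A F trivial trivial

theorem NA02_pp_012 {κ x : ℝ} (hκ : κ * h0 = ken x) (hx : ((134217728 : ℕ) : ℝ) / S ≤ x) (hx' : x ≤ (((134217728 : ℕ) : ℝ) + (67108864 : ℕ)) / S) :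
    TriA PP.cur (nearL (h0 * 0) 3 κ (h0 * x) (tbl tKN x) (tbl tL x)) 0 1 2 0 2 1 1 :=
  (sideN hx hx').nearA (Or.inl rfl) (Or.inl rfl) fun y y' F =>
    nearA_cert (s1 := true) (s2 := true) rfl hκ covN00 covN21 hx hx'
        Pool.Agent.Strip051.G.I1_8_3_16.Tab.C.NA02.c_pp_012 noCut_A noExt_A F trivial trivial

theorem NA02_pp_022 {κ x : ℝ} (hκ : κ * h0 = ken x) (hx : ((134217728 : ℕ) : ℝ) / S ≤ x) (hx' : x ≤ (((134217728 : ℕ) : ℝ) + (67108864 : ℕ)) / S) :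
    TriA PP.cur (nearL (h0 * 0) 3 κ (h0 * x) (tbl tKN x) (tbl tL x)) 0 2 2 0 2 1 1 :=
  (sideN hx hx').nearA (Or.inl rfl) (Or.inl rfl) fun y y' F =>
    (lt_or_ge (h0 * y') 1).elim
      (fun g => nearA_cert (s1 := true) (s2 := true) rfl hκ covN00 covN22a hx hx'
        Pool.Agent.Strip051.G.I1_8_3_16.Tab.C.NA02.c_pp_022_a (cutA_cons (Pool.Agent.Strip051.G.I1_8_3_16.Tab.altN_A022L_02 hκ hx hx') cutA_nil) noExt_A F trivial g)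
      (fun g => nearA_cert (s1 := true) (s2 := true) rfl hκ covN00 covN22b hx hx'
        Pool.Agent.Strip051.G.I1_8_3_16.Tab.C.NA02.c_pp_022_b (cutA_cons (Pool.Agent.Strip051.G.I1_8_3_16.Tab.altN_A022L_02 hκ hx hx') cutA_nil) noExt_A F trivial g)

theorem NA02_pp_023 {κ x : ℝ} (hκ : κ * h0 = ken x) (hx : ((134217728 : ℕ) : ℝ) / S ≤ x) (hx' : x ≤ (((134217728 : ℕ) : ℝ) + (67108864 : ℕ)) / S) :
    TriA PP.cur (nearL (h0 * 0) 3 κ (h0 * x) (tbl tKN x) (tbl tL x)) 0 2 3 0 2 1 1 :=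
  (sideN hx hx').nearA (Or.inl rfl) (Or.inl rfl) fun y y' F =>
    (lt_or_ge (h0 * y') 1).elim
      (fun g => nearA_cert (s1 := true) (s2 := true) rfl hκ covN00 covN22a hx hx'
        Pool.Agent.Strip051.G.I1_8_3_16.Tab.C.NA02.c_pp_023_a noCut_A noExt_A F trivial g)
      (fun g => nearA_cert (s1 := true) (s2 := true) rfl hκ covN00 covN22b hx hx'
        Pool.Agent.Strip051.G.I1_8_3_16.Tab.C.NA02.c_pp_023_b noCut_A noExt_A F trivial g)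

theorem NA02_pp_033 {κ x : ℝ} (hκ : κ * h0 = ken x) (hx : ((134217728 : ℕ) : ℝ) / S ≤ x) (hx' : x ≤ (((134217728 : ℕ) : ℝ) + (67108864 : ℕ)) / S) :
    TriA PP.cur (nearL (h0 * 0) 3 κ (h0 * x) (tbl tKN x) (tbl tL x)) 0 3 3 0 2 1 1 :=
  (sideN hx hx').nearA (Or.inl rfl) (Or.inl rfl) fun y y' F =>
    nearA_cert (s1 := true) (s2 := true) rfl hκ covN00 covN23 hx hx'
        Pool.Agent.Strip051.G.I1_8_3_16.Tab.C.NA02.c_pp_033 noCut_A noExt_A F trivial trivial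

theorem NA02_pp_101 {κ x : ℝ} (hκ : κ * h0 = ken x) (hx : ((134217728 : ℕ) : ℝ) / S ≤ x) (hx' : x ≤ (((134217728 : ℕ) : ℝ) + (67108864 : ℕ)) / S) :
    TriA PP.cur (nearL (h0 * 0) 3 κ (h0 * x) (tbl tKN x) (tbl tL x)) 1 0 1 0 2 1 1 :=
  (sideN hx hx').nearA (Or.inl rfl) (Or.inl rfl) fun y y' F =>
    nearA_cert (s1 := true) (s2 := true) rfl hκ covN01 covN20 hx hx'
        Pool.Agent.Strip051.G.I1_8_3_16.Tab.C.NA02.c_pp_101 noCut_A noExt_A F trivial trivial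

theorem NA02_pp_102 {κ x : ℝ} (hκ : κ * h0 = ken x) (hx : ((134217728 : ℕ) : ℝ) / S ≤ x) (hx' : x ≤ (((134217728 : ℕ) : ℝ) + (67108864 : ℕ)) / S) :
    TriA PP.cur (nearL (h0 * 0) 3 κ (h0 * x) (tbl tKN x) (tbl tL x)) 1 0 2 0 2 1 1 :=
  (sideN hx hx').nearA (Or.inl rfl) (Or.inl rfl) fun y y' F =>
    nearA_cert (s1 := true) (s2 := true) rfl hκ covN01 covN20 hx hx'
        Pool.Agent.Strip051.G.I1_8_3_16.Tab.C.NA02.c_pp_102 noCut_A noExt_A F trivial trivial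

theorem NA02_pp_112 {κ x : ℝ} (hκ : κ * h0 = ken x) (hx : ((134217728 : ℕ) : ℝ) / S ≤ x) (hx' : x ≤ (((134217728 : ℕ) : ℝ) + (67108864 : ℕ)) / S) :
    TriA PP.cur (nearL (h0 * 0) 3 κ (h0 * x) (tbl tKN x) (tbl tL x)) 1 1 2 0 2 1 1 :=
  (sideN hx hx').nearA (Or.inl rfl) (Or.inl rfl) fun y y' F =>
    nearA_cert (s1 := true) (s2 := true) rfl hκ covN01 covN21 hx hx'
        Pool.Agent.Strip051.G.I1_8_3_16.Tab.C.NA02.c_pp_112 noCut_A noExt_A F trivial trivial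

theorem NA02_pp_113 {κ x : ℝ} (hκ : κ * h0 = ken x) (hx : ((134217728 : ℕ) : ℝ) / S ≤ x) (hx' : x ≤ (((134217728 : ℕ) : ℝ) + (67108864 : ℕ)) / S) :
    TriA PP.cur (nearL (h0 * 0) 3 κ (h0 * x) (tbl tKN x) (tbl tL x)) 1 1 3 0 2 1 1 :=
  (sideN hx hx').nearA (Or.inl rfl) (Or.inl rfl) fun y y' F =>
    nearA_cert (s1 := true) (s2 := true) rfl hκ covN01 covN21 hx hx'
        Pool.Agent.Strip051.G.I1_8_3_16.Tab.C.NA02.c_pp_113 noCut_A noExt_A F trivial trivial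

theorem NA02_pp_123 {κ x : ℝ} (hκ : κ * h0 = ken x) (hx : ((134217728 : ℕ) : ℝ) / S ≤ x) (hx' : x ≤ (((134217728 : ℕ) : ℝ) + (67108864 : ℕ)) / S) :
    TriA PP.cur (nearL (h0 * 0) 3 κ (h0 * x) (tbl tKN x) (tbl tL x)) 1 2 3 0 2 1 1 :=
  (sideN hx hx').nearA (Or.inl rfl) (Or.inl rfl) fun y y' F =>
    (lt_or_ge (h0 * y') 1).elim
      (fun g => nearA_cert (s1 := true) (s2 := true) rfl hκ covN01 covN22a hx hx'
        Pool.Agent.Strip051.G.I1_8_3_16.Tab.C.NA02.c_pp_123_a noCut_A noExt_A F trivial g)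
      (fun g => nearA_cert (s1 := true) (s2 := true) rfl hκ covN01 covN22b hx hx'
        Pool.Agent.Strip051.G.I1_8_3_16.Tab.C.NA02.c_pp_123_b noCut_A noExt_A F trivial g)

theorem NA02_pp_133 {κ x : ℝ} (hκ : κ * h0 = ken x) (hx : ((134217728 : ℕ) : ℝ) / S ≤ x) (hx' : x ≤ (((134217728 : ℕ) : ℝ) + (67108864 : ℕ)) / S) :
    TriA PP.cur (nearL (h0 * 0) 3 κ (h0 * x) (tbl tKN x) (tbl tL x)) 1 3 3 0 2 1 1 :=
  (sideN hx hx').nearA (Or.inl rfl) (Or.inl rfl) fun y y' F =>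
    nearA_cert (s1 := true) (s2 := true) rfl hκ covN01 covN23 hx hx'
        Pool.Agent.Strip051.G.I1_8_3_16.Tab.C.NA02.c_pp_133 noCut_A noExt_A F trivial trivial

theorem NA02_pp_202 {κ x : ℝ} (hκ : κ * h0 = ken x) (hx : ((134217728 : ℕ) : ℝ) / S ≤ x) (hx' : x ≤ (((134217728 : ℕ) : ℝ) + (67108864 : ℕ)) / S) :
    TriA PP.cur (nearL (h0 * 0) 3 κ (h0 * x) (tbl tKN x) (tbl tL x)) 2 0 2 0 2 1 1 :=
  (sideN hx hx').nearA (Or.inl rfl) (Or.inl rfl) fun y y' F =>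
    nearA_cert (s1 := true) (s2 := true) rfl hκ covN02 covN20 hx hx'
        Pool.Agent.Strip051.G.I1_8_3_16.Tab.C.NA02.c_pp_202 noCut_A noExt_A F trivial trivial

theorem NA02_pp_203 {κ x : ℝ} (hκ : κ * h0 = ken x) (hx : ((134217728 : ℕ) : ℝ) / S ≤ x) (hx' : x ≤ (((134217728 : ℕ) : ℝ) + (67108864 : ℕ)) / S) :
    TriA PP.cur (nearL (h0 * 0) 3 κ (h0 * x) (tbl tKN x) (tbl tL x)) 2 0 3 0 2 1 1 :=
  (sideN hx hx').nearA (Or.inl rfl) (Or.inl rfl) fun y y' F =>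
    nearA_cert (s1 := true) (s2 := true) rfl hκ covN02 covN20 hx hx'
        Pool.Agent.Strip051.G.I1_8_3_16.Tab.C.NA02.c_pp_203 noCut_A noExt_A F trivial trivial

theorem NA02_pp_213 {κ x : ℝ} (hκ : κ * h0 = ken x) (hx : ((134217728 : ℕ) : ℝ) / S ≤ x) (hx' : x ≤ (((134217728 : ℕ) : ℝ) + (67108864 : ℕ)) / S) :
    TriA PP.cur (nearL (h0 * 0) 3 κ (h0 * x) (tbl tKN x) (tbl tL x)) 2 1 3 0 2 1 1 :=
  (sideN hx hx').nearA (Or.inl rfl) (Or.inl rfl) fun y y' F =>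
    nearA_cert (s1 := true) (s2 := true) rfl hκ covN02 covN21 hx hx'
        Pool.Agent.Strip051.G.I1_8_3_16.Tab.C.NA02.c_pp_213 noCut_A noExt_A F trivial trivial

theorem NA02_pp_303 {κ x : ℝ} (hκ : κ * h0 = ken x) (hx : ((134217728 : ℕ) : ℝ) / S ≤ x) (hx' : x ≤ (((134217728 : ℕ) : ℝ) + (67108864 : ℕ)) / S) :
    TriA PP.cur (nearL (h0 * 0) 3 κ (h0 * x) (tbl tKN x) (tbl tL x)) 3 0 3 0 2 1 1 :=
  triA_j0

theorem NA02_pp_313 {κ x : ℝ} (hκ : κ * h0 = ken x) (hx : ((134217728 : ℕ) : ℝ) / S ≤ x) (hx' : x ≤ (((134217728 : ℕ) : ℝ) + (67108864 : ℕ)) / S) :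
    TriA PP.cur (nearL (h0 * 0) 3 κ (h0 * x) (tbl tKN x) (tbl tL x)) 3 1 3 0 2 1 1 :=
  triA_j0

theorem NA02_pm_001 {κ x : ℝ} (hκ : κ * h0 = ken x) (hx : ((134217728 : ℕ) : ℝ) / S ≤ x) (hx' : x ≤ (((134217728 : ℕ) : ℝ) + (67108864 : ℕ)) / S) :
    TriA PP.cur (nearL (h0 * 0) 3 κ (h0 * x) (tbl tKN x) (tbl tL x)) 0 0 1 0 2 1 (-1) :=
  (sideN hx hx').nearA (Or.inl rfl) (Or.inr rfl) fun y y' F =>
    nearA_cert (s1 := true) (s2 := false) rfl hκ covN00 covN20 hx hx'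
        Pool.Agent.Strip051.G.I1_8_3_16.Tab.C.NA02.c_pm_001 noCut_A noExt_A F trivial trivial

theorem NA02_pm_011 {κ x : ℝ} (hκ : κ * h0 = ken x) (hx : ((134217728 : ℕ) : ℝ) / S ≤ x) (hx' : x ≤ (((134217728 : ℕ) : ℝ) + (67108864 : ℕ)) / S) :
    TriA PP.cur (nearL (h0 * 0) 3 κ (h0 * x) (tbl tKN x) (tbl tL x)) 0 1 1 0 2 1 (-1) :=
  (sideN hx hx').nearA (Or.inl rfl) (Or.inr rfl) fun y y' F =>
    nearA_cert (s1 := true) (s2 := false) rfl hκ covN00 covN21 hx hx'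
        Pool.Agent.Strip051.G.I1_8_3_16.Tab.C.NA02.c_pm_011 noCut_A noExt_A F trivial trivial

theorem NA02_pm_012 {κ x : ℝ} (hκ : κ * h0 = ken x) (hx : ((134217728 : ℕ) : ℝ) / S ≤ x) (hx' : x ≤ (((134217728 : ℕ) : ℝ) + (67108864 : ℕ)) / S) :
    TriA PP.cur (nearL (h0 * 0) 3 κ (h0 * x) (tbl tKN x) (tbl tL x)) 0 1 2 0 2 1 (-1) :=
  (sideN hx hx').nearA (Or.inl rfl) (Or.inr rfl) fun y y' F =>
    nearA_cert (s1 := true) (s2 := false) rfl hκ covN00 covN21 hx hx'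
        Pool.Agent.Strip051.G.I1_8_3_16.Tab.C.NA02.c_pm_012 noCut_A noExt_A F trivial trivial

theorem NA02_pm_022 {κ x : ℝ} (hκ : κ * h0 = ken x) (hx : ((134217728 : ℕ) : ℝ) / S ≤ x) (hx' : x ≤ (((134217728 : ℕ) : ℝ) + (67108864 : ℕ)) / S) :
    TriA PP.cur (nearL (h0 * 0) 3 κ (h0 * x) (tbl tKN x) (tbl tL x)) 0 2 2 0 2 1 (-1) :=
  (sideN hx hx').nearA (Or.inl rfl) (Or.inr rfl) fun y y' F =>
    (lt_or_ge (h0 * y') 1).elim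
      (fun g => nearA_cert (s1 := true) (s2 := false) rfl hκ covN00 covN22a hx hx'
        Pool.Agent.Strip051.G.I1_8_3_16.Tab.C.NA02.c_pm_022_a (cutA_cons (Pool.Agent.Strip051.G.I1_8_3_16.Tab.altN_A022E_02 hκ hx hx') (cutA_cons (Pool.Agent.Strip051.G.I1_8_3_16.Tab.Mo.molN_A_022_02_0 hκ hx hx') cutA_nil)) noExt_A F trivial g)
      (fun g => nearA_cert (s1 := true) (s2 := false) rfl hκ covN00 covN22b hx hx'
        Pool.Agent.Strip051.G.I1_8_3_16.Tab.C.NA02.c_pm_022_b (cutA_cons (Pool.Agent.Strip051.G.I1_8_3_16.Tab.altN_A022E_02 hκ hx hx') (cutA_cons (Pool.Agent.Strip051.G.I1_8_3_16.Tab.Mo.molN_A_022_02_0 hκ hx hx') cutA_nil)) noExt_A F trivial g)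

theorem NA02_pm_023 {κ x : ℝ} (hκ : κ * h0 = ken x) (hx : ((134217728 : ℕ) : ℝ) / S ≤ x) (hx' : x ≤ (((134217728 : ℕ) : ℝ) + (67108864 : ℕ)) / S) :
    TriA PP.cur (nearL (h0 * 0) 3 κ (h0 * x) (tbl tKN x) (tbl tL x)) 0 2 3 0 2 1 (-1) :=
  (sideN hx hx').nearA (Or.inl rfl) (Or.inr rfl) fun y y' F =>
    (lt_or_ge (h0 * y') 1).elim
      (fun g => nearA_cert (s1 := true) (s2 := false) rfl hκ covN00 covN22a hx hx'
        Pool.Agent.Strip051.G.I1_8_3_16.Tab.C.NA02.c_pm_023_a noCut_A noExt_A F trivial g)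
      (fun g => nearA_cert (s1 := true) (s2 := false) rfl hκ covN00 covN22b hx hx'
        Pool.Agent.Strip051.G.I1_8_3_16.Tab.C.NA02.c_pm_023_b noCut_A noExt_A F trivial g)

theorem NA02_pm_033 {κ x : ℝ} (hκ : κ * h0 = ken x) (hx : ((134217728 : ℕ) : ℝ) / S ≤ x) (hx' : x ≤ (((134217728 : ℕ) : ℝ) + (67108864 : ℕ)) / S) :
    TriA PP.cur (nearL (h0 * 0) 3 κ (h0 * x) (tbl tKN x) (tbl tL x)) 0 3 3 0 2 1 (-1) :=
  (sideN hx hx').nearA (Or.inl rfl) (Or.inr rfl) fun y y' F =>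
    nearA_cert (s1 := true) (s2 := false) rfl hκ covN00 covN23 hx hx'
        Pool.Agent.Strip051.G.I1_8_3_16.Tab.C.NA02.c_pm_033 noCut_A noExt_A F trivial trivial

theorem NA02_pm_101 {κ x : ℝ} (hκ : κ * h0 = ken x) (hx : ((134217728 : ℕ) : ℝ) / S ≤ x) (hx' : x ≤ (((134217728 : ℕ) : ℝ) + (67108864 : ℕ)) / S) :
    TriA PP.cur (nearL (h0 * 0) 3 κ (h0 * x) (tbl tKN x) (tbl tL x)) 1 0 1 0 2 1 (-1) :=
  (sideN hx hx').nearA (Or.inl rfl) (Or.inr rfl) fun y y' F =>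
    nearA_cert (s1 := true) (s2 := false) rfl hκ covN01 covN20 hx hx'
        Pool.Agent.Strip051.G.I1_8_3_16.Tab.C.NA02.c_pm_101 (cutA_cons (Pool.Agent.Strip051.G.I1_8_3_16.Tab.altN_A101E_02 hκ hx hx') cutA_nil) noExt_A F trivial trivial

theorem NA02_pm_102 {κ x : ℝ} (hκ : κ * h0 = ken x) (hx : ((134217728 : ℕ) : ℝ) / S ≤ x) (hx' : x ≤ (((134217728 : ℕ) : ℝ) + (67108864 : ℕ)) / S) :
    TriA PP.cur (nearL (h0 * 0) 3 κ (h0 * x) (tbl tKN x) (tbl tL x)) 1 0 2 0 2 1 (-1) :=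
  (sideN hx hx').nearA (Or.inl rfl) (Or.inr rfl) fun y y' F =>
    nearA_cert (s1 := true) (s2 := false) rfl hκ covN01 covN20 hx hx'
        Pool.Agent.Strip051.G.I1_8_3_16.Tab.C.NA02.c_pm_102 (cutA_cons (Pool.Agent.Strip051.G.I1_8_3_16.Tab.altN_A102E_02 hκ hx hx') cutA_nil) noExt_A F trivial trivial

theorem NA02_pm_112 {κ x : ℝ} (hκ : κ * h0 = ken x) (hx : ((134217728 : ℕ) : ℝ) / S ≤ x) (hx' : x ≤ (((134217728 : ℕ) : ℝ) + (67108864 : ℕ)) / S) :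
    TriA PP.cur (nearL (h0 * 0) 3 κ (h0 * x) (tbl tKN x) (tbl tL x)) 1 1 2 0 2 1 (-1) :=
  (sideN hx hx').nearA (Or.inl rfl) (Or.inr rfl) fun y y' F =>
    nearA_cert (s1 := true) (s2 := false) rfl hκ covN01 covN21 hx hx'
        Pool.Agent.Strip051.G.I1_8_3_16.Tab.C.NA02.c_pm_112 noCut_A noExt_A F trivial trivial

theorem NA02_pm_113 {κ x : ℝ} (hκ : κ * h0 = ken x) (hx : ((134217728 : ℕ) : ℝ) / S ≤ x) (hx' : x ≤ (((134217728 : ℕ) : ℝ) + (67108864 : ℕ)) / S) :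
    TriA PP.cur (nearL (h0 * 0) 3 κ (h0 * x) (tbl tKN x) (tbl tL x)) 1 1 3 0 2 1 (-1) :=
  (sideN hx hx').nearA (Or.inl rfl) (Or.inr rfl) fun y y' F =>
    nearA_cert (s1 := true) (s2 := false) rfl hκ covN01 covN21 hx hx'
        Pool.Agent.Strip051.G.I1_8_3_16.Tab.C.NA02.c_pm_113 noCut_A noExt_A F trivial trivial

theorem NA02_pm_123 {κ x : ℝ} (hκ : κ * h0 = ken x) (hx : ((134217728 : ℕ) : ℝ) / S ≤ x) (hx' : x ≤ (((134217728 : ℕ) : ℝ) + (67108864 : ℕ)) / S) :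
    TriA PP.cur (nearL (h0 * 0) 3 κ (h0 * x) (tbl tKN x) (tbl tL x)) 1 2 3 0 2 1 (-1) :=
  (sideN hx hx').nearA (Or.inl rfl) (Or.inr rfl) fun y y' F =>
    (lt_or_ge (h0 * y') 1).elim
      (fun g => nearA_cert (s1 := true) (s2 := false) rfl hκ covN01 covN22a hx hx'
        Pool.Agent.Strip051.G.I1_8_3_16.Tab.C.NA02.c_pm_123_a (cutA_cons (Pool.Agent.Strip051.G.I1_8_3_16.Tab.alt12cN_A123_02 hκ hx hx') cutA_nil) noExt_A F trivial g)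
      (fun g => nearA_cert (s1 := true) (s2 := false) rfl hκ covN01 covN22b hx hx'
        Pool.Agent.Strip051.G.I1_8_3_16.Tab.C.NA02.c_pm_123_b (cutA_cons (Pool.Agent.Strip051.G.I1_8_3_16.Tab.alt12cN_A123_02 hκ hx hx') cutA_nil) noExt_A F trivial g)

theorem NA02_pm_133 {κ x : ℝ} (hκ : κ * h0 = ken x) (hx : ((134217728 : ℕ) : ℝ) / S ≤ x) (hx' : x ≤ (((134217728 : ℕ) : ℝ) + (67108864 : ℕ)) / S) :
    TriA PP.cur (nearL (h0 * 0) 3 κ (h0 * x) (tbl tKN x) (tbl tL x)) 1 3 3 0 2 1 (-1) :=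
  (sideN hx hx').nearA (Or.inl rfl) (Or.inr rfl) fun y y' F =>
    nearA_cert (s1 := true) (s2 := false) rfl hκ covN01 covN23 hx hx'
        Pool.Agent.Strip051.G.I1_8_3_16.Tab.C.NA02.c_pm_133 noCut_A noExt_A F trivial trivial

theorem NA02_pm_202 {κ x : ℝ} (hκ : κ * h0 = ken x) (hx : ((134217728 : ℕ) : ℝ) / S ≤ x) (hx' : x ≤ (((134217728 : ℕ) : ℝ) + (67108864 : ℕ)) / S) :
    TriA PP.cur (nearL (h0 * 0) 3 κ (h0 * x) (tbl tKN x) (tbl tL x)) 2 0 2 0 2 1 (-1) :=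
  (sideN hx hx').nearA (Or.inl rfl) (Or.inr rfl) fun y y' F =>
    nearA_cert (s1 := true) (s2 := false) rfl hκ covN02 covN20 hx hx'
        Pool.Agent.Strip051.G.I1_8_3_16.Tab.C.NA02.c_pm_202 (cutA_cons (Pool.Agent.Strip051.G.I1_8_3_16.Tab.altN_A202E_02 hκ hx hx') cutA_nil) noExt_A F trivial trivial

theorem NA02_pm_203 {κ x : ℝ} (hκ : κ * h0 = ken x) (hx : ((134217728 : ℕ) : ℝ) / S ≤ x) (hx' : x ≤ (((134217728 : ℕ) : ℝ) + (67108864 : ℕ)) / S) :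
    TriA PP.cur (nearL (h0 * 0) 3 κ (h0 * x) (tbl tKN x) (tbl tL x)) 2 0 3 0 2 1 (-1) :=
  (sideN hx hx').nearA (Or.inl rfl) (Or.inr rfl) fun y y' F =>
    nearA_cert (s1 := true) (s2 := false) rfl hκ covN02 covN20 hx hx'
        Pool.Agent.Strip051.G.I1_8_3_16.Tab.C.NA02.c_pm_203 noCut_A noExt_A F trivial trivial

theorem NA02_pm_213 {κ x : ℝ} (hκ : κ * h0 = ken x) (hx : ((134217728 : ℕ) : ℝ) / S ≤ x) (hx' : x ≤ (((134217728 : ℕ) : ℝ) + (67108864 : ℕ)) / S) :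
    TriA PP.cur (nearL (h0 * 0) 3 κ (h0 * x) (tbl tKN x) (tbl tL x)) 2 1 3 0 2 1 (-1) :=
  (sideN hx hx').nearA (Or.inl rfl) (Or.inr rfl) fun y y' F =>
    nearA_cert (s1 := true) (s2 := false) rfl hκ covN02 covN21 hx hx'
        Pool.Agent.Strip051.G.I1_8_3_16.Tab.C.NA02.c_pm_213 noCut_A noExt_A F trivial trivial

theorem NA02_pm_303 {κ x : ℝ} (hκ : κ * h0 = ken x) (hx : ((134217728 : ℕ) : ℝ) / S ≤ x) (hx' : x ≤ (((134217728 : ℕ) : ℝ) + (67108864 : ℕ)) / S) :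
    TriA PP.cur (nearL (h0 * 0) 3 κ (h0 * x) (tbl tKN x) (tbl tL x)) 3 0 3 0 2 1 (-1) :=
  triA_j0

theorem NA02_pm_313 {κ x : ℝ} (hκ : κ * h0 = ken x) (hx : ((134217728 : ℕ) : ℝ) / S ≤ x) (hx' : x ≤ (((134217728 : ℕ) : ℝ) + (67108864 : ℕ)) / S) :
    TriA PP.cur (nearL (h0 * 0) 3 κ (h0 * x) (tbl tKN x) (tbl tL x)) 3 1 3 0 2 1 (-1) :=
  triA_j0

theorem NA02_mm_001 {κ x : ℝ} (hκ : κ * h0 = ken x) (hx : ((134217728 : ℕ) : ℝ) / S ≤ x) (hx' : x ≤ (((134217728 : ℕ) : ℝ) + (67108864 : ℕ)) / S) :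
    TriA PP.cur (nearL (h0 * 0) 3 κ (h0 * x) (tbl tKN x) (tbl tL x)) 0 0 1 0 2 (-1) (-1) :=
  (sideN hx hx').nearA (Or.inr rfl) (Or.inr rfl) fun y y' F =>
    nearA_cert (s1 := false) (s2 := false) rfl hκ covN00 covN20 hx hx'
        Pool.Agent.Strip051.G.I1_8_3_16.Tab.C.NA02.c_mm_001 noCut_A noExt_A F trivial trivial

theorem NA02_mm_011 {κ x : ℝ} (hκ : κ * h0 = ken x) (hx : ((134217728 : ℕ) : ℝ) / S ≤ x) (hx' : x ≤ (((134217728 : ℕ) : ℝ) + (67108864 : ℕ)) / S) :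
    TriA PP.cur (nearL (h0 * 0) 3 κ (h0 * x) (tbl tKN x) (tbl tL x)) 0 1 1 0 2 (-1) (-1) :=
  (sideN hx hx').nearA (Or.inr rfl) (Or.inr rfl) fun y y' F =>
    nearA_cert (s1 := false) (s2 := false) rfl hκ covN00 covN21 hx hx'
        Pool.Agent.Strip051.G.I1_8_3_16.Tab.C.NA02.c_mm_011 noCut_A noExt_A F trivial trivial

theorem NA02_mm_012 {κ x : ℝ} (hκ : κ * h0 = ken x) (hx : ((134217728 : ℕ) : ℝ) / S ≤ x) (hx' : x ≤ (((134217728 : ℕ) : ℝ) + (67108864 : ℕ)) / S) :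
    TriA PP.cur (nearL (h0 * 0) 3 κ (h0 * x) (tbl tKN x) (tbl tL x)) 0 1 2 0 2 (-1) (-1) :=
  (sideN hx hx').nearA (Or.inr rfl) (Or.inr rfl) fun y y' F =>
    nearA_cert (s1 := false) (s2 := false) rfl hκ covN00 covN21 hx hx'
        Pool.Agent.Strip051.G.I1_8_3_16.Tab.C.NA02.c_mm_012 noCut_A noExt_A F trivial trivial

theorem NA02_mm_022 {κ x : ℝ} (hκ : κ * h0 = ken x) (hx : ((134217728 : ℕ) : ℝ) / S ≤ x) (hx' : x ≤ (((134217728 : ℕ) : ℝ) + (67108864 : ℕ)) / S) :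
    TriA PP.cur (nearL (h0 * 0) 3 κ (h0 * x) (tbl tKN x) (tbl tL x)) 0 2 2 0 2 (-1) (-1) :=
  (sideN hx hx').nearA (Or.inr rfl) (Or.inr rfl) fun y y' F =>
    (lt_or_ge (h0 * y') 1).elim
      (fun g => nearA_cert (s1 := false) (s2 := false) rfl hκ covN00 covN22a hx hx'
        Pool.Agent.Strip051.G.I1_8_3_16.Tab.C.NA02.c_mm_022_a noCut_A noExt_A F trivial g)
      (fun g => nearA_cert (s1 := false) (s2 := false) rfl hκ covN00 covN22b hx hx'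
        Pool.Agent.Strip051.G.I1_8_3_16.Tab.C.NA02.c_mm_022_b noCut_A noExt_A F trivial g)

theorem NA02_mm_023 {κ x : ℝ} (hκ : κ * h0 = ken x) (hx : ((134217728 : ℕ) : ℝ) / S ≤ x) (hx' : x ≤ (((134217728 : ℕ) : ℝ) + (67108864 : ℕ)) / S) :
    TriA PP.cur (nearL (h0 * 0) 3 κ (h0 * x) (tbl tKN x) (tbl tL x)) 0 2 3 0 2 (-1) (-1) :=
  (sideN hx hx').nearA (Or.inr rfl) (Or.inr rfl) fun y y' F =>
    (lt_or_ge (h0 * y') 1).elim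
      (fun g => nearA_cert (s1 := false) (s2 := false) rfl hκ covN00 covN22a hx hx'
        Pool.Agent.Strip051.G.I1_8_3_16.Tab.C.NA02.c_mm_023_a noCut_A noExt_A F trivial g)
      (fun g => nearA_cert (s1 := false) (s2 := false) rfl hκ covN00 covN22b hx hx'
        Pool.Agent.Strip051.G.I1_8_3_16.Tab.C.NA02.c_mm_023_b noCut_A noExt_A F trivial g)

theorem NA02_mm_033 {κ x : ℝ} (hκ : κ * h0 = ken x) (hx : ((134217728 : ℕ) : ℝ) / S ≤ x) (hx' : x ≤ (((134217728 : ℕ) : ℝ) + (67108864 : ℕ)) / S) :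
    TriA PP.cur (nearL (h0 * 0) 3 κ (h0 * x) (tbl tKN x) (tbl tL x)) 0 3 3 0 2 (-1) (-1) :=
  (sideN hx hx').nearA (Or.inr rfl) (Or.inr rfl) fun y y' F =>
    nearA_cert (s1 := false) (s2 := false) rfl hκ covN00 covN23 hx hx'
        Pool.Agent.Strip051.G.I1_8_3_16.Tab.C.NA02.c_mm_033 noCut_A noExt_A F trivial trivial

theorem NA02_mm_101 {κ x : ℝ} (hκ : κ * h0 = ken x) (hx : ((134217728 : ℕ) : ℝ) / S ≤ x) (hx' : x ≤ (((134217728 : ℕ) : ℝ) + (67108864 : ℕ)) / S) :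
    TriA PP.cur (nearL (h0 * 0) 3 κ (h0 * x) (tbl tKN x) (tbl tL x)) 1 0 1 0 2 (-1) (-1) :=
  (sideN hx hx').nearA (Or.inr rfl) (Or.inr rfl) fun y y' F =>
    nearA_cert (s1 := false) (s2 := false) rfl hκ covN01 covN20 hx hx'
        Pool.Agent.Strip051.G.I1_8_3_16.Tab.C.NA02.c_mm_101 (cutA_cons (Pool.Agent.Strip051.G.I1_8_3_16.Tab.altN_A101R_02 hκ hx hx') cutA_nil) noExt_A F trivial trivial

theorem NA02_mm_102 {κ x : ℝ} (hκ : κ * h0 = ken x) (hx : ((134217728 : ℕ) : ℝ) / S ≤ x) (hx' : x ≤ (((134217728 : ℕ) : ℝ) + (67108864 : ℕ)) / S) :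
    TriA PP.cur (nearL (h0 * 0) 3 κ (h0 * x) (tbl tKN x) (tbl tL x)) 1 0 2 0 2 (-1) (-1) :=
  (sideN hx hx').nearA (Or.inr rfl) (Or.inr rfl) fun y y' F =>
    nearA_cert (s1 := false) (s2 := false) rfl hκ covN01 covN20 hx hx'
        Pool.Agent.Strip051.G.I1_8_3_16.Tab.C.NA02.c_mm_102 (cutA_cons (Pool.Agent.Strip051.G.I1_8_3_16.Tab.altN_A102R_02 hκ hx hx') cutA_nil) noExt_A F trivial trivial

theorem NA02_mm_112 {κ x : ℝ} (hκ : κ * h0 = ken x) (hx : ((134217728 : ℕ) : ℝ) / S ≤ x) (hx' : x ≤ (((134217728 : ℕ) : ℝ) + (67108864 : ℕ)) / S) :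
    TriA PP.cur (nearL (h0 * 0) 3 κ (h0 * x) (tbl tKN x) (tbl tL x)) 1 1 2 0 2 (-1) (-1) :=
  (sideN hx hx').nearA (Or.inr rfl) (Or.inr rfl) fun y y' F =>
    nearA_cert (s1 := false) (s2 := false) rfl hκ covN01 covN21 hx hx'
        Pool.Agent.Strip051.G.I1_8_3_16.Tab.C.NA02.c_mm_112 noCut_A noExt_A F trivial trivial

theorem NA02_mm_113 {κ x : ℝ} (hκ : κ * h0 = ken x) (hx : ((134217728 : ℕ) : ℝ) / S ≤ x) (hx' : x ≤ (((134217728 : ℕ) : ℝ) + (67108864 : ℕ)) / S) :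
    TriA PP.cur (nearL (h0 * 0) 3 κ (h0 * x) (tbl tKN x) (tbl tL x)) 1 1 3 0 2 (-1) (-1) :=
  (sideN hx hx').nearA (Or.inr rfl) (Or.inr rfl) fun y y' F =>
    nearA_cert (s1 := false) (s2 := false) rfl hκ covN01 covN21 hx hx'
        Pool.Agent.Strip051.G.I1_8_3_16.Tab.C.NA02.c_mm_113 noCut_A noExt_A F trivial trivial

theorem NA02_mm_123 {κ x : ℝ} (hκ : κ * h0 = ken x) (hx : ((134217728 : ℕ) : ℝ) / S ≤ x) (hx' : x ≤ (((134217728 : ℕ) : ℝ) + (67108864 : ℕ)) / S) :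
    TriA PP.cur (nearL (h0 * 0) 3 κ (h0 * x) (tbl tKN x) (tbl tL x)) 1 2 3 0 2 (-1) (-1) :=
  (sideN hx hx').nearA (Or.inr rfl) (Or.inr rfl) fun y y' F =>
    (lt_or_ge (h0 * y') 1).elim
      (fun g => nearA_cert (s1 := false) (s2 := false) rfl hκ covN01 covN22a hx hx'
        Pool.Agent.Strip051.G.I1_8_3_16.Tab.C.NA02.c_mm_123_a noCut_A noExt_A F trivial g)
      (fun g => nearA_cert (s1 := false) (s2 := false) rfl hκ covN01 covN22b hx hx'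
        Pool.Agent.Strip051.G.I1_8_3_16.Tab.C.NA02.c_mm_123_b noCut_A noExt_A F trivial g)

theorem NA02_mm_133 {κ x : ℝ} (hκ : κ * h0 = ken x) (hx : ((134217728 : ℕ) : ℝ) / S ≤ x) (hx' : x ≤ (((134217728 : ℕ) : ℝ) + (67108864 : ℕ)) / S) :
    TriA PP.cur (nearL (h0 * 0) 3 κ (h0 * x) (tbl tKN x) (tbl tL x)) 1 3 3 0 2 (-1) (-1) :=
  (sideN hx hx').nearA (Or.inr rfl) (Or.inr rfl) fun y y' F =>
    nearA_cert (s1 := false) (s2 := false) rfl hκ covN01 covN23 hx hx'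
        Pool.Agent.Strip051.G.I1_8_3_16.Tab.C.NA02.c_mm_133 noCut_A noExt_A F trivial trivial

theorem NA02_mm_202 {κ x : ℝ} (hκ : κ * h0 = ken x) (hx : ((134217728 : ℕ) : ℝ) / S ≤ x) (hx' : x ≤ (((134217728 : ℕ) : ℝ) + (67108864 : ℕ)) / S) :
    TriA PP.cur (nearL (h0 * 0) 3 κ (h0 * x) (tbl tKN x) (tbl tL x)) 2 0 2 0 2 (-1) (-1) :=
  (sideN hx hx').nearA (Or.inr rfl) (Or.inr rfl) fun y y' F =>
    nearA_cert (s1 := false) (s2 := false) rfl hκ covN02 covN20 hx hx'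
        Pool.Agent.Strip051.G.I1_8_3_16.Tab.C.NA02.c_mm_202 (cutA_cons (Pool.Agent.Strip051.G.I1_8_3_16.Tab.altN_A202R_02 hκ hx hx') cutA_nil) noExt_A F trivial trivial

theorem NA02_mm_203 {κ x : ℝ} (hκ : κ * h0 = ken x) (hx : ((134217728 : ℕ) : ℝ) / S ≤ x) (hx' : x ≤ (((134217728 : ℕ) : ℝ) + (67108864 : ℕ)) / S) :
    TriA PP.cur (nearL (h0 * 0) 3 κ (h0 * x) (tbl tKN x) (tbl tL x)) 2 0 3 0 2 (-1) (-1) :=
  (sideN hx hx').nearA (Or.inr rfl) (Or.inr rfl) fun y y' F =>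
    nearA_cert (s1 := false) (s2 := false) rfl hκ covN02 covN20 hx hx'
        Pool.Agent.Strip051.G.I1_8_3_16.Tab.C.NA02.c_mm_203 noCut_A noExt_A F trivial trivial

theorem NA02_mm_213 {κ x : ℝ} (hκ : κ * h0 = ken x) (hx : ((134217728 : ℕ) : ℝ) / S ≤ x) (hx' : x ≤ (((134217728 : ℕ) : ℝ) + (67108864 : ℕ)) / S) :
    TriA PP.cur (nearL (h0 * 0) 3 κ (h0 * x) (tbl tKN x) (tbl tL x)) 2 1 3 0 2 (-1) (-1) :=
  (sideN hx hx').nearA (Or.inr rfl) (Or.inr rfl) fun y y' F =>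
    nearA_cert (s1 := false) (s2 := false) rfl hκ covN02 covN21 hx hx'
        Pool.Agent.Strip051.G.I1_8_3_16.Tab.C.NA02.c_mm_213 noCut_A noExt_A F trivial trivial

theorem NA02_mm_303 {κ x : ℝ} (hκ : κ * h0 = ken x) (hx : ((134217728 : ℕ) : ℝ) / S ≤ x) (hx' : x ≤ (((134217728 : ℕ) : ℝ) + (67108864 : ℕ)) / S) :
    TriA PP.cur (nearL (h0 * 0) 3 κ (h0 * x) (tbl tKN x) (tbl tL x)) 3 0 3 0 2 (-1) (-1) :=
  triA_j0

theorem NA02_mm_313 {κ x : ℝ} (hκ : κ * h0 = ken x) (hx : ((134217728 : ℕ) : ℝ) / S ≤ x) (hx' : x ≤ (((134217728 : ℕ) : ℝ) + (67108864 : ℕ)) / S) :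
    TriA PP.cur (nearL (h0 * 0) 3 κ (h0 * x) (tbl tKN x) (tbl tL x)) 3 1 3 0 2 (-1) (-1) :=
  triA_j0

theorem NA02 {κ x : ℝ} (hκ : κ * h0 = ken x) (hx : ((134217728 : ℕ) : ℝ) / S ≤ x) (hx' : x ≤ (((134217728 : ℕ) : ℝ) + (67108864 : ℕ)) / S) : AllTA PP.cur (nearL (h0 * 0) 3 κ (h0 * x) (tbl tKN x) (tbl tL x)) 0 2 where
  pp := all17 (Q := fun a b c => TriA PP.cur (nearL (h0 * 0) 3 κ (h0 * x) (tbl tKN x) (tbl tL x)) a b c 0 2 1 1)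
    (NA02_pp_001 hκ hx hx') (NA02_pp_011 hκ hx hx') (NA02_pp_012 hκ hx hx') (NA02_pp_022 hκ hx hx') (NA02_pp_023 hκ hx hx') (NA02_pp_033 hκ hx hx') (NA02_pp_101 hκ hx hx') (NA02_pp_102 hκ hx hx') (NA02_pp_112 hκ hx hx') (NA02_pp_113 hκ hx hx') (NA02_pp_123 hκ hx hx') (NA02_pp_133 hκ hx hx') (NA02_pp_202 hκ hx hx') (NA02_pp_203 hκ hx hx') (NA02_pp_213 hκ hx hx') (NA02_pp_303 hκ hx hx') (NA02_pp_313 hκ hx hx')
  pm := all17 (Q := fun a b c => TriA PP.cur (nearL (h0 * 0) 3 κ (h0 * x) (tbl tKN x) (tbl tL x)) a b c 0 2 1 (-1))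
    (NA02_pm_001 hκ hx hx') (NA02_pm_011 hκ hx hx') (NA02_pm_012 hκ hx hx') (NA02_pm_022 hκ hx hx') (NA02_pm_023 hκ hx hx') (NA02_pm_033 hκ hx hx') (NA02_pm_101 hκ hx hx') (NA02_pm_102 hκ hx hx') (NA02_pm_112 hκ hx hx') (NA02_pm_113 hκ hx hx') (NA02_pm_123 hκ hx hx') (NA02_pm_133 hκ hx hx') (NA02_pm_202 hκ hx hx') (NA02_pm_203 hκ hx hx') (NA02_pm_213 hκ hx hx') (NA02_pm_303 hκ hx hx') (NA02_pm_313 hκ hx hx')
  mm := all17 (Q := fun a b c => TriA PP.cur (nearL (h0 * 0) 3 κ (h0 * x) (tbl tKN x) (tbl tL x)) a b c 0 2 (-1) (-1))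
    (NA02_mm_001 hκ hx hx') (NA02_mm_011 hκ hx hx') (NA02_mm_012 hκ hx hx') (NA02_mm_022 hκ hx hx') (NA02_mm_023 hκ hx hx') (NA02_mm_033 hκ hx hx') (NA02_mm_101 hκ hx hx') (NA02_mm_102 hκ hx hx') (NA02_mm_112 hκ hx hx') (NA02_mm_113 hκ hx hx') (NA02_mm_123 hκ hx hx') (NA02_mm_133 hκ hx hx') (NA02_mm_202 hκ hx hx') (NA02_mm_203 hκ hx hx') (NA02_mm_213 hκ hx hx') (NA02_mm_303 hκ hx hx') (NA02_mm_313 hκ hx hx')

theorem NA03_pp_001 {κ x : ℝ} (hκ : κ * h0 = ken x) (hx : ((134217728 : ℕ) : ℝ) / S ≤ x) (hx' : x ≤ (((134217728 : ℕ) : ℝ) + (67108864 : ℕ)) / S) :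
    TriA PP.cur (nearL (h0 * 0) 3 κ (h0 * x) (tbl tKN x) (tbl tL x)) 0 0 1 0 3 1 1 :=
  (sideN hx hx').nearA (Or.inl rfl) (Or.inl rfl) fun y y' F =>
    nearA_cert (s1 := true) (s2 := true) rfl hκ covN00 covN30 hx hx'
        Pool.Agent.Strip051.G.I1_8_3_16.Tab.C.NA03.c_pp_001 noCut_A noExt_A F trivial trivial

theorem NA03_pp_011 {κ x : ℝ} (hκ : κ * h0 = ken x) (hx : ((134217728 : ℕ) : ℝ) / S ≤ x) (hx' : x ≤ (((134217728 : ℕ) : ℝ) + (67108864 : ℕ)) / S) :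
    TriA PP.cur (nearL (h0 * 0) 3 κ (h0 * x) (tbl tKN x) (tbl tL x)) 0 1 1 0 3 1 1 :=
  (sideN hx hx').nearA (Or.inl rfl) (Or.inl rfl) fun y y' F =>
    nearA_cert (s1 := true) (s2 := true) rfl hκ covN00 covN31 hx hx'
        Pool.Agent.Strip051.G.I1_8_3_16.Tab.C.NA03.c_pp_011 noCut_A noExt_A F trivial trivial

theorem NA03_pp_012 {κ x : ℝ} (hκ : κ * h0 = ken x) (hx : ((134217728 : ℕ) : ℝ) / S ≤ x) (hx' : x ≤ (((134217728 : ℕ) : ℝ) + (67108864 : ℕ)) / S) :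
    TriA PP.cur (nearL (h0 * 0) 3 κ (h0 * x) (tbl tKN x) (tbl tL x)) 0 1 2 0 3 1 1 :=
  (sideN hx hx').nearA (Or.inl rfl) (Or.inl rfl) fun y y' F =>
    nearA_cert (s1 := true) (s2 := true) rfl hκ covN00 covN31 hx hx'
        Pool.Agent.Strip051.G.I1_8_3_16.Tab.C.NA03.c_pp_012 noCut_A noExt_A F trivial trivial

theorem NA03_pp_022 {κ x : ℝ} (hκ : κ * h0 = ken x) (hx : ((134217728 : ℕ) : ℝ) / S ≤ x) (hx' : x ≤ (((134217728 : ℕ) : ℝ) + (67108864 : ℕ)) / S) :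
    TriA PP.cur (nearL (h0 * 0) 3 κ (h0 * x) (tbl tKN x) (tbl tL x)) 0 2 2 0 3 1 1 :=
  (sideN hx hx').nearA (Or.inl rfl) (Or.inl rfl) fun y y' F =>
    nearA_cert (s1 := true) (s2 := true) rfl hκ covN00 covN32 hx hx'
        Pool.Agent.Strip051.G.I1_8_3_16.Tab.C.NA03.c_pp_022 noCut_A noExt_A F trivial trivial

theorem NA03_pp_023 {κ x : ℝ} (hκ : κ * h0 = ken x) (hx : ((134217728 : ℕ) : ℝ) / S ≤ x) (hx' : x ≤ (((134217728 : ℕ) : ℝ) + (67108864 : ℕ)) / S) :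
    TriA PP.cur (nearL (h0 * 0) 3 κ (h0 * x) (tbl tKN x) (tbl tL x)) 0 2 3 0 3 1 1 :=
  (sideN hx hx').nearA (Or.inl rfl) (Or.inl rfl) fun y y' F =>
    nearA_cert (s1 := true) (s2 := true) rfl hκ covN00 covN32 hx hx'
        Pool.Agent.Strip051.G.I1_8_3_16.Tab.C.NA03.c_pp_023 noCut_A noExt_A F trivial trivial

theorem NA03_pp_033 {κ x : ℝ} (hκ : κ * h0 = ken x) (hx : ((134217728 : ℕ) : ℝ) / S ≤ x) (hx' : x ≤ (((134217728 : ℕ) : ℝ) + (67108864 : ℕ)) / S) :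
    TriA PP.cur (nearL (h0 * 0) 3 κ (h0 * x) (tbl tKN x) (tbl tL x)) 0 3 3 0 3 1 1 :=
  (sideN hx hx').nearA (Or.inl rfl) (Or.inl rfl) fun y y' F =>
    nearA_cert (s1 := true) (s2 := true) rfl hκ covN00 covN33 hx hx'
        Pool.Agent.Strip051.G.I1_8_3_16.Tab.C.NA03.c_pp_033 noCut_A noExt_A F trivial trivial

theorem NA03_pp_101 {κ x : ℝ} (hκ : κ * h0 = ken x) (hx : ((134217728 : ℕ) : ℝ) / S ≤ x) (hx' : x ≤ (((134217728 : ℕ) : ℝ) + (67108864 : ℕ)) / S) :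
    TriA PP.cur (nearL (h0 * 0) 3 κ (h0 * x) (tbl tKN x) (tbl tL x)) 1 0 1 0 3 1 1 :=
  (sideN hx hx').nearA (Or.inl rfl) (Or.inl rfl) fun y y' F =>
    nearA_cert (s1 := true) (s2 := true) rfl hκ covN01 covN30 hx hx'
        Pool.Agent.Strip051.G.I1_8_3_16.Tab.C.NA03.c_pp_101 noCut_A noExt_A F trivial trivial

theorem NA03_pp_102 {κ x : ℝ} (hκ : κ * h0 = ken x) (hx : ((134217728 : ℕ) : ℝ) / S ≤ x) (hx' : x ≤ (((134217728 : ℕ) : ℝ) + (67108864 : ℕ)) / S) :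
    TriA PP.cur (nearL (h0 * 0) 3 κ (h0 * x) (tbl tKN x) (tbl tL x)) 1 0 2 0 3 1 1 :=
  (sideN hx hx').nearA (Or.inl rfl) (Or.inl rfl) fun y y' F =>
    nearA_cert (s1 := true) (s2 := true) rfl hκ covN01 covN30 hx hx'
        Pool.Agent.Strip051.G.I1_8_3_16.Tab.C.NA03.c_pp_102 noCut_A noExt_A F trivial trivial

theorem NA03_pp_112 {κ x : ℝ} (hκ : κ * h0 = ken x) (hx : ((134217728 : ℕ) : ℝ) / S ≤ x) (hx' : x ≤ (((134217728 : ℕ) : ℝ) + (67108864 : ℕ)) / S) :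
    TriA PP.cur (nearL (h0 * 0) 3 κ (h0 * x) (tbl tKN x) (tbl tL x)) 1 1 2 0 3 1 1 :=
  (sideN hx hx').nearA (Or.inl rfl) (Or.inl rfl) fun y y' F =>
    nearA_cert (s1 := true) (s2 := true) rfl hκ covN01 covN31 hx hx'
        Pool.Agent.Strip051.G.I1_8_3_16.Tab.C.NA03.c_pp_112 noCut_A noExt_A F trivial trivial

theorem NA03_pp_113 {κ x : ℝ} (hκ : κ * h0 = ken x) (hx : ((134217728 : ℕ) : ℝ) / S ≤ x) (hx' : x ≤ (((134217728 : ℕ) : ℝ) + (67108864 : ℕ)) / S) :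
    TriA PP.cur (nearL (h0 * 0) 3 κ (h0 * x) (tbl tKN x) (tbl tL x)) 1 1 3 0 3 1 1 :=
  (sideN hx hx').nearA (Or.inl rfl) (Or.inl rfl) fun y y' F =>
    nearA_cert (s1 := true) (s2 := true) rfl hκ covN01 covN31 hx hx'
        Pool.Agent.Strip051.G.I1_8_3_16.Tab.C.NA03.c_pp_113 noCut_A noExt_A F trivial trivial

theorem NA03_pp_123 {κ x : ℝ} (hκ : κ * h0 = ken x) (hx : ((134217728 : ℕ) : ℝ) / S ≤ x) (hx' : x ≤ (((134217728 : ℕ) : ℝ) + (67108864 : ℕ)) / S) :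
    TriA PP.cur (nearL (h0 * 0) 3 κ (h0 * x) (tbl tKN x) (tbl tL x)) 1 2 3 0 3 1 1 :=
  (sideN hx hx').nearA (Or.inl rfl) (Or.inl rfl) fun y y' F =>
    nearA_cert (s1 := true) (s2 := true) rfl hκ covN01 covN32 hx hx'
        Pool.Agent.Strip051.G.I1_8_3_16.Tab.C.NA03.c_pp_123 noCut_A noExt_A F trivial trivial

theorem NA03_pp_133 {κ x : ℝ} (hκ : κ * h0 = ken x) (hx : ((134217728 : ℕ) : ℝ) / S ≤ x) (hx' : x ≤ (((134217728 : ℕ) : ℝ) + (67108864 : ℕ)) / S) :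
    TriA PP.cur (nearL (h0 * 0) 3 κ (h0 * x) (tbl tKN x) (tbl tL x)) 1 3 3 0 3 1 1 :=
  (sideN hx hx').nearA (Or.inl rfl) (Or.inl rfl) fun y y' F =>
    nearA_cert (s1 := true) (s2 := true) rfl hκ covN01 covN33 hx hx'
        Pool.Agent.Strip051.G.I1_8_3_16.Tab.C.NA03.c_pp_133 noCut_A noExt_A F trivial trivial

theorem NA03_pp_202 {κ x : ℝ} (hκ : κ * h0 = ken x) (hx : ((134217728 : ℕ) : ℝ) / S ≤ x) (hx' : x ≤ (((134217728 : ℕ) : ℝ) + (67108864 : ℕ)) / S) :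
    TriA PP.cur (nearL (h0 * 0) 3 κ (h0 * x) (tbl tKN x) (tbl tL x)) 2 0 2 0 3 1 1 :=
  (sideN hx hx').nearA (Or.inl rfl) (Or.inl rfl) fun y y' F =>
    nearA_cert (s1 := true) (s2 := true) rfl hκ covN02 covN30 hx hx'
        Pool.Agent.Strip051.G.I1_8_3_16.Tab.C.NA03.c_pp_202 noCut_A noExt_A F trivial trivial

theorem NA03_pp_203 {κ x : ℝ} (hκ : κ * h0 = ken x) (hx : ((134217728 : ℕ) : ℝ) / S ≤ x) (hx' : x ≤ (((134217728 : ℕ) : ℝ) + (67108864 : ℕ)) / S) :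
    TriA PP.cur (nearL (h0 * 0) 3 κ (h0 * x) (tbl tKN x) (tbl tL x)) 2 0 3 0 3 1 1 :=
  (sideN hx hx').nearA (Or.inl rfl) (Or.inl rfl) fun y y' F =>
    nearA_cert (s1 := true) (s2 := true) rfl hκ covN02 covN30 hx hx'
        Pool.Agent.Strip051.G.I1_8_3_16.Tab.C.NA03.c_pp_203 noCut_A noExt_A F trivial trivial

theorem NA03_pp_213 {κ x : ℝ} (hκ : κ * h0 = ken x) (hx : ((134217728 : ℕ) : ℝ) / S ≤ x) (hx' : x ≤ (((134217728 : ℕ) : ℝ) + (67108864 : ℕ)) / S) :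
    TriA PP.cur (nearL (h0 * 0) 3 κ (h0 * x) (tbl tKN x) (tbl tL x)) 2 1 3 0 3 1 1 :=
  (sideN hx hx').nearA (Or.inl rfl) (Or.inl rfl) fun y y' F =>
    nearA_cert (s1 := true) (s2 := true) rfl hκ covN02 covN31 hx hx'
        Pool.Agent.Strip051.G.I1_8_3_16.Tab.C.NA03.c_pp_213 noCut_A noExt_A F trivial trivial

theorem NA03_pp_303 {κ x : ℝ} (hκ : κ * h0 = ken x) (hx : ((134217728 : ℕ) : ℝ) / S ≤ x) (hx' : x ≤ (((134217728 : ℕ) : ℝ) + (67108864 : ℕ)) / S) :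
    TriA PP.cur (nearL (h0 * 0) 3 κ (h0 * x) (tbl tKN x) (tbl tL x)) 3 0 3 0 3 1 1 :=
  triA_j0

theorem NA03_pp_313 {κ x : ℝ} (hκ : κ * h0 = ken x) (hx : ((134217728 : ℕ) : ℝ) / S ≤ x) (hx' : x ≤ (((134217728 : ℕ) : ℝ) + (67108864 : ℕ)) / S) :
    TriA PP.cur (nearL (h0 * 0) 3 κ (h0 * x) (tbl tKN x) (tbl tL x)) 3 1 3 0 3 1 1 :=
  triA_j0

theorem NA03_pm_001 {κ x : ℝ} (hκ : κ * h0 = ken x) (hx : ((134217728 : ℕ) : ℝ) / S ≤ x) (hx' : x ≤ (((134217728 : ℕ) : ℝ) + (67108864 : ℕ)) / S) :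
    TriA PP.cur (nearL (h0 * 0) 3 κ (h0 * x) (tbl tKN x) (tbl tL x)) 0 0 1 0 3 1 (-1) :=
  (sideN hx hx').nearA (Or.inl rfl) (Or.inr rfl) fun y y' F =>
    nearA_cert (s1 := true) (s2 := false) rfl hκ covN00 covN30 hx hx'
        Pool.Agent.Strip051.G.I1_8_3_16.Tab.C.NA03.c_pm_001 noCut_A noExt_A F trivial trivial

theorem NA03_pm_011 {κ x : ℝ} (hκ : κ * h0 = ken x) (hx : ((134217728 : ℕ) : ℝ) / S ≤ x) (hx' : x ≤ (((134217728 : ℕ) : ℝ) + (67108864 : ℕ)) / S) :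
    TriA PP.cur (nearL (h0 * 0) 3 κ (h0 * x) (tbl tKN x) (tbl tL x)) 0 1 1 0 3 1 (-1) :=
  (sideN hx hx').nearA (Or.inl rfl) (Or.inr rfl) fun y y' F =>
    nearA_cert (s1 := true) (s2 := false) rfl hκ covN00 covN31 hx hx'
        Pool.Agent.Strip051.G.I1_8_3_16.Tab.C.NA03.c_pm_011 (cutA_cons (Pool.Agent.Strip051.G.I1_8_3_16.Tab.altN_A011R_03 hκ hx hx') cutA_nil) noExt_A F trivial trivial

theorem NA03_pm_012 {κ x : ℝ} (hκ : κ * h0 = ken x) (hx : ((134217728 : ℕ) : ℝ) / S ≤ x) (hx' : x ≤ (((134217728 : ℕ) : ℝ) + (67108864 : ℕ)) / S) :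
    TriA PP.cur (nearL (h0 * 0) 3 κ (h0 * x) (tbl tKN x) (tbl tL x)) 0 1 2 0 3 1 (-1) :=
  (sideN hx hx').nearA (Or.inl rfl) (Or.inr rfl) fun y y' F =>
    nearA_cert (s1 := true) (s2 := false) rfl hκ covN00 covN31 hx hx'
        Pool.Agent.Strip051.G.I1_8_3_16.Tab.C.NA03.c_pm_012 (cutA_cons (Pool.Agent.Strip051.G.I1_8_3_16.Tab.altN_A012R_03 hκ hx hx') cutA_nil) noExt_A F trivial trivial

theorem NA03_pm_022 {κ x : ℝ} (hκ : κ * h0 = ken x) (hx : ((134217728 : ℕ) : ℝ) / S ≤ x) (hx' : x ≤ (((134217728 : ℕ) : ℝ) + (67108864 : ℕ)) / S) :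
    TriA PP.cur (nearL (h0 * 0) 3 κ (h0 * x) (tbl tKN x) (tbl tL x)) 0 2 2 0 3 1 (-1) :=
  (sideN hx hx').nearA (Or.inl rfl) (Or.inr rfl) fun y y' F =>
    nearA_cert (s1 := true) (s2 := false) rfl hκ covN00 covN32 hx hx'
        Pool.Agent.Strip051.G.I1_8_3_16.Tab.C.NA03.c_pm_022 noCut_A noExt_A F trivial trivial

theorem NA03_pm_023 {κ x : ℝ} (hκ : κ * h0 = ken x) (hx : ((134217728 : ℕ) : ℝ) / S ≤ x) (hx' : x ≤ (((134217728 : ℕ) : ℝ) + (67108864 : ℕ)) / S) :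
    TriA PP.cur (nearL (h0 * 0) 3 κ (h0 * x) (tbl tKN x) (tbl tL x)) 0 2 3 0 3 1 (-1) :=
  (sideN hx hx').nearA (Or.inl rfl) (Or.inr rfl) fun y y' F =>
    nearA_cert (s1 := true) (s2 := false) rfl hκ covN00 covN32 hx hx'
        Pool.Agent.Strip051.G.I1_8_3_16.Tab.C.NA03.c_pm_023 noCut_A noExt_A F trivial trivial

theorem NA03_pm_033 {κ x : ℝ} (hκ : κ * h0 = ken x) (hx : ((134217728 : ℕ) : ℝ) / S ≤ x) (hx' : x ≤ (((134217728 : ℕ) : ℝ) + (67108864 : ℕ)) / S) :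
    TriA PP.cur (nearL (h0 * 0) 3 κ (h0 * x) (tbl tKN x) (tbl tL x)) 0 3 3 0 3 1 (-1) :=
  (sideN hx hx').nearA (Or.inl rfl) (Or.inr rfl) fun y y' F =>
    nearA_cert (s1 := true) (s2 := false) rfl hκ covN00 covN33 hx hx'
        Pool.Agent.Strip051.G.I1_8_3_16.Tab.C.NA03.c_pm_033 noCut_A noExt_A F trivial trivial

theorem NA03_pm_101 {κ x : ℝ} (hκ : κ * h0 = ken x) (hx : ((134217728 : ℕ) : ℝ) / S ≤ x) (hx' : x ≤ (((134217728 : ℕ) : ℝ) + (67108864 : ℕ)) / S) :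
    TriA PP.cur (nearL (h0 * 0) 3 κ (h0 * x) (tbl tKN x) (tbl tL x)) 1 0 1 0 3 1 (-1) :=
  (sideN hx hx').nearA (Or.inl rfl) (Or.inr rfl) fun y y' F =>
    nearA_cert (s1 := true) (s2 := false) rfl hκ covN01 covN30 hx hx'
        Pool.Agent.Strip051.G.I1_8_3_16.Tab.C.NA03.c_pm_101 noCut_A noExt_A F trivial trivial

theorem NA03_pm_102 {κ x : ℝ} (hκ : κ * h0 = ken x) (hx : ((134217728 : ℕ) : ℝ) / S ≤ x) (hx' : x ≤ (((134217728 : ℕ) : ℝ) + (67108864 : ℕ)) / S) :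
    TriA PP.cur (nearL (h0 * 0) 3 κ (h0 * x) (tbl tKN x) (tbl tL x)) 1 0 2 0 3 1 (-1) :=
  (sideN hx hx').nearA (Or.inl rfl) (Or.inr rfl) fun y y' F =>
    nearA_cert (s1 := true) (s2 := false) rfl hκ covN01 covN30 hx hx'
        Pool.Agent.Strip051.G.I1_8_3_16.Tab.C.NA03.c_pm_102 noCut_A noExt_A F trivial trivial

theorem NA03_pm_112 {κ x : ℝ} (hκ : κ * h0 = ken x) (hx : ((134217728 : ℕ) : ℝ) / S ≤ x) (hx' : x ≤ (((134217728 : ℕ) : ℝ) + (67108864 : ℕ)) / S) :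
    TriA PP.cur (nearL (h0 * 0) 3 κ (h0 * x) (tbl tKN x) (tbl tL x)) 1 1 2 0 3 1 (-1) :=
  (sideN hx hx').nearA (Or.inl rfl) (Or.inr rfl) fun y y' F =>
    nearA_cert (s1 := true) (s2 := false) rfl hκ covN01 covN31 hx hx'
        Pool.Agent.Strip051.G.I1_8_3_16.Tab.C.NA03.c_pm_112 noCut_A noExt_A F trivial trivial

theorem NA03_pm_113 {κ x : ℝ} (hκ : κ * h0 = ken x) (hx : ((134217728 : ℕ) : ℝ) / S ≤ x) (hx' : x ≤ (((134217728 : ℕ) : ℝ) + (67108864 : ℕ)) / S) :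
    TriA PP.cur (nearL (h0 * 0) 3 κ (h0 * x) (tbl tKN x) (tbl tL x)) 1 1 3 0 3 1 (-1) :=
  (sideN hx hx').nearA (Or.inl rfl) (Or.inr rfl) fun y y' F =>
    nearA_cert (s1 := true) (s2 := false) rfl hκ covN01 covN31 hx hx'
        Pool.Agent.Strip051.G.I1_8_3_16.Tab.C.NA03.c_pm_113 noCut_A noExt_A F trivial trivial

theorem NA03_pm_123 {κ x : ℝ} (hκ : κ * h0 = ken x) (hx : ((134217728 : ℕ) : ℝ) / S ≤ x) (hx' : x ≤ (((134217728 : ℕ) : ℝ) + (67108864 : ℕ)) / S) :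
    TriA PP.cur (nearL (h0 * 0) 3 κ (h0 * x) (tbl tKN x) (tbl tL x)) 1 2 3 0 3 1 (-1) :=
  (sideN hx hx').nearA (Or.inl rfl) (Or.inr rfl) fun y y' F =>
    nearA_cert (s1 := true) (s2 := false) rfl hκ covN01 covN32 hx hx'
        Pool.Agent.Strip051.G.I1_8_3_16.Tab.C.NA03.c_pm_123 noCut_A noExt_A F trivial trivial

theorem NA03_pm_133 {κ x : ℝ} (hκ : κ * h0 = ken x) (hx : ((134217728 : ℕ) : ℝ) / S ≤ x) (hx' : x ≤ (((134217728 : ℕ) : ℝ) + (67108864 : ℕ)) / S) :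
    TriA PP.cur (nearL (h0 * 0) 3 κ (h0 * x) (tbl tKN x) (tbl tL x)) 1 3 3 0 3 1 (-1) :=
  (sideN hx hx').nearA (Or.inl rfl) (Or.inr rfl) fun y y' F =>
    nearA_cert (s1 := true) (s2 := false) rfl hκ covN01 covN33 hx hx'
        Pool.Agent.Strip051.G.I1_8_3_16.Tab.C.NA03.c_pm_133 noCut_A noExt_A F trivial trivial

theorem NA03_pm_202 {κ x : ℝ} (hκ : κ * h0 = ken x) (hx : ((134217728 : ℕ) : ℝ) / S ≤ x) (hx' : x ≤ (((134217728 : ℕ) : ℝ) + (67108864 : ℕ)) / S) :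
    TriA PP.cur (nearL (h0 * 0) 3 κ (h0 * x) (tbl tKN x) (tbl tL x)) 2 0 2 0 3 1 (-1) :=
  (sideN hx hx').nearA (Or.inl rfl) (Or.inr rfl) fun y y' F =>
    nearA_cert (s1 := true) (s2 := false) rfl hκ covN02 covN30 hx hx'
        Pool.Agent.Strip051.G.I1_8_3_16.Tab.C.NA03.c_pm_202 noCut_A noExt_A F trivial trivial

theorem NA03_pm_203 {κ x : ℝ} (hκ : κ * h0 = ken x) (hx : ((134217728 : ℕ) : ℝ) / S ≤ x) (hx' : x ≤ (((134217728 : ℕ) : ℝ) + (67108864 : ℕ)) / S) :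
    TriA PP.cur (nearL (h0 * 0) 3 κ (h0 * x) (tbl tKN x) (tbl tL x)) 2 0 3 0 3 1 (-1) :=
  (sideN hx hx').nearA (Or.inl rfl) (Or.inr rfl) fun y y' F =>
    nearA_cert (s1 := true) (s2 := false) rfl hκ covN02 covN30 hx hx'
        Pool.Agent.Strip051.G.I1_8_3_16.Tab.C.NA03.c_pm_203 noCut_A noExt_A F trivial trivial

theorem NA03_pm_213 {κ x : ℝ} (hκ : κ * h0 = ken x) (hx : ((134217728 : ℕ) : ℝ) / S ≤ x) (hx' : x ≤ (((134217728 : ℕ) : ℝ) + (67108864 : ℕ)) / S) :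
    TriA PP.cur (nearL (h0 * 0) 3 κ (h0 * x) (tbl tKN x) (tbl tL x)) 2 1 3 0 3 1 (-1) :=
  (sideN hx hx').nearA (Or.inl rfl) (Or.inr rfl) fun y y' F =>
    nearA_cert (s1 := true) (s2 := false) rfl hκ covN02 covN31 hx hx'
        Pool.Agent.Strip051.G.I1_8_3_16.Tab.C.NA03.c_pm_213 noCut_A noExt_A F trivial trivial

theorem NA03_pm_303 {κ x : ℝ} (hκ : κ * h0 = ken x) (hx : ((134217728 : ℕ) : ℝ) / S ≤ x) (hx' : x ≤ (((134217728 : ℕ) : ℝ) + (67108864 : ℕ)) / S) :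
    TriA PP.cur (nearL (h0 * 0) 3 κ (h0 * x) (tbl tKN x) (tbl tL x)) 3 0 3 0 3 1 (-1) :=
  triA_j0

theorem NA03_pm_313 {κ x : ℝ} (hκ : κ * h0 = ken x) (hx : ((134217728 : ℕ) : ℝ) / S ≤ x) (hx' : x ≤ (((134217728 : ℕ) : ℝ) + (67108864 : ℕ)) / S) :
    TriA PP.cur (nearL (h0 * 0) 3 κ (h0 * x) (tbl tKN x) (tbl tL x)) 3 1 3 0 3 1 (-1) :=
  triA_j0

theorem NA03_mm_001 {κ x : ℝ} (hκ : κ * h0 = ken x) (hx : ((134217728 : ℕ) : ℝ) / S ≤ x) (hx' : x ≤ (((134217728 : ℕ) : ℝ) + (67108864 : ℕ)) / S) :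
    TriA PP.cur (nearL (h0 * 0) 3 κ (h0 * x) (tbl tKN x) (tbl tL x)) 0 0 1 0 3 (-1) (-1) :=
  (sideN hx hx').nearA (Or.inr rfl) (Or.inr rfl) fun y y' F =>
    nearA_cert (s1 := false) (s2 := false) rfl hκ covN00 covN30 hx hx'
        Pool.Agent.Strip051.G.I1_8_3_16.Tab.C.NA03.c_mm_001 noCut_A noExt_A F trivial trivial

theorem NA03_mm_011 {κ x : ℝ} (hκ : κ * h0 = ken x) (hx : ((134217728 : ℕ) : ℝ) / S ≤ x) (hx' : x ≤ (((134217728 : ℕ) : ℝ) + (67108864 : ℕ)) / S) :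
    TriA PP.cur (nearL (h0 * 0) 3 κ (h0 * x) (tbl tKN x) (tbl tL x)) 0 1 1 0 3 (-1) (-1) :=
  (sideN hx hx').nearA (Or.inr rfl) (Or.inr rfl) fun y y' F =>
    nearA_cert (s1 := false) (s2 := false) rfl hκ covN00 covN31 hx hx'
        Pool.Agent.Strip051.G.I1_8_3_16.Tab.C.NA03.c_mm_011 noCut_A noExt_A F trivial trivial

theorem NA03_mm_012 {κ x : ℝ} (hκ : κ * h0 = ken x) (hx : ((134217728 : ℕ) : ℝ) / S ≤ x) (hx' : x ≤ (((134217728 : ℕ) : ℝ) + (67108864 : ℕ)) / S) :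
    TriA PP.cur (nearL (h0 * 0) 3 κ (h0 * x) (tbl tKN x) (tbl tL x)) 0 1 2 0 3 (-1) (-1) :=
  (sideN hx hx').nearA (Or.inr rfl) (Or.inr rfl) fun y y' F =>
    nearA_cert (s1 := false) (s2 := false) rfl hκ covN00 covN31 hx hx'
        Pool.Agent.Strip051.G.I1_8_3_16.Tab.C.NA03.c_mm_012 noCut_A noExt_A F trivial trivial

theorem NA03_mm_022 {κ x : ℝ} (hκ : κ * h0 = ken x) (hx : ((134217728 : ℕ) : ℝ) / S ≤ x) (hx' : x ≤ (((134217728 : ℕ) : ℝ) + (67108864 : ℕ)) / S) :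
    TriA PP.cur (nearL (h0 * 0) 3 κ (h0 * x) (tbl tKN x) (tbl tL x)) 0 2 2 0 3 (-1) (-1) :=
  (sideN hx hx').nearA (Or.inr rfl) (Or.inr rfl) fun y y' F =>
    nearA_cert (s1 := false) (s2 := false) rfl hκ covN00 covN32 hx hx'
        Pool.Agent.Strip051.G.I1_8_3_16.Tab.C.NA03.c_mm_022 noCut_A noExt_A F trivial trivial

theorem NA03_mm_023 {κ x : ℝ} (hκ : κ * h0 = ken x) (hx : ((134217728 : ℕ) : ℝ) / S ≤ x) (hx' : x ≤ (((134217728 : ℕ) : ℝ) + (67108864 : ℕ)) / S) :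
    TriA PP.cur (nearL (h0 * 0) 3 κ (h0 * x) (tbl tKN x) (tbl tL x)) 0 2 3 0 3 (-1) (-1) :=
  (sideN hx hx').nearA (Or.inr rfl) (Or.inr rfl) fun y y' F =>
    nearA_cert (s1 := false) (s2 := false) rfl hκ covN00 covN32 hx hx'
        Pool.Agent.Strip051.G.I1_8_3_16.Tab.C.NA03.c_mm_023 noCut_A noExt_A F trivial trivial

theorem NA03_mm_033 {κ x : ℝ} (hκ : κ * h0 = ken x) (hx : ((134217728 : ℕ) : ℝ) / S ≤ x) (hx' : x ≤ (((134217728 : ℕ) : ℝ) + (67108864 : ℕ)) / S) :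
    TriA PP.cur (nearL (h0 * 0) 3 κ (h0 * x) (tbl tKN x) (tbl tL x)) 0 3 3 0 3 (-1) (-1) :=
  (sideN hx hx').nearA (Or.inr rfl) (Or.inr rfl) fun y y' F =>
    nearA_cert (s1 := false) (s2 := false) rfl hκ covN00 covN33 hx hx'
        Pool.Agent.Strip051.G.I1_8_3_16.Tab.C.NA03.c_mm_033 noCut_A noExt_A F trivial trivial

theorem NA03_mm_101 {κ x : ℝ} (hκ : κ * h0 = ken x) (hx : ((134217728 : ℕ) : ℝ) / S ≤ x) (hx' : x ≤ (((134217728 : ℕ) : ℝ) + (67108864 : ℕ)) / S) :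
    TriA PP.cur (nearL (h0 * 0) 3 κ (h0 * x) (tbl tKN x) (tbl tL x)) 1 0 1 0 3 (-1) (-1) :=
  (sideN hx hx').nearA (Or.inr rfl) (Or.inr rfl) fun y y' F =>
    nearA_cert (s1 := false) (s2 := false) rfl hκ covN01 covN30 hx hx'
        Pool.Agent.Strip051.G.I1_8_3_16.Tab.C.NA03.c_mm_101 noCut_A noExt_A F trivial trivial

theorem NA03_mm_102 {κ x : ℝ} (hκ : κ * h0 = ken x) (hx : ((134217728 : ℕ) : ℝ) / S ≤ x) (hx' : x ≤ (((134217728 : ℕ) : ℝ) + (67108864 : ℕ)) / S) :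
    TriA PP.cur (nearL (h0 * 0) 3 κ (h0 * x) (tbl tKN x) (tbl tL x)) 1 0 2 0 3 (-1) (-1) :=
  (sideN hx hx').nearA (Or.inr rfl) (Or.inr rfl) fun y y' F =>
    nearA_cert (s1 := false) (s2 := false) rfl hκ covN01 covN30 hx hx'
        Pool.Agent.Strip051.G.I1_8_3_16.Tab.C.NA03.c_mm_102 noCut_A noExt_A F trivial trivial

theorem NA03_mm_112 {κ x : ℝ} (hκ : κ * h0 = ken x) (hx : ((134217728 : ℕ) : ℝ) / S ≤ x) (hx' : x ≤ (((134217728 : ℕ) : ℝ) + (67108864 : ℕ)) / S) :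
    TriA PP.cur (nearL (h0 * 0) 3 κ (h0 * x) (tbl tKN x) (tbl tL x)) 1 1 2 0 3 (-1) (-1) :=
  (sideN hx hx').nearA (Or.inr rfl) (Or.inr rfl) fun y y' F =>
    nearA_cert (s1 := false) (s2 := false) rfl hκ covN01 covN31 hx hx'
        Pool.Agent.Strip051.G.I1_8_3_16.Tab.C.NA03.c_mm_112 noCut_A noExt_A F trivial trivial

theorem NA03_mm_113 {κ x : ℝ} (hκ : κ * h0 = ken x) (hx : ((134217728 : ℕ) : ℝ) / S ≤ x) (hx' : x ≤ (((134217728 : ℕ) : ℝ) + (67108864 : ℕ)) / S) :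
    TriA PP.cur (nearL (h0 * 0) 3 κ (h0 * x) (tbl tKN x) (tbl tL x)) 1 1 3 0 3 (-1) (-1) :=
  (sideN hx hx').nearA (Or.inr rfl) (Or.inr rfl) fun y y' F =>
    nearA_cert (s1 := false) (s2 := false) rfl hκ covN01 covN31 hx hx'
        Pool.Agent.Strip051.G.I1_8_3_16.Tab.C.NA03.c_mm_113 noCut_A noExt_A F trivial trivial

theorem NA03_mm_123 {κ x : ℝ} (hκ : κ * h0 = ken x) (hx : ((134217728 : ℕ) : ℝ) / S ≤ x) (hx' : x ≤ (((134217728 : ℕ) : ℝ) + (67108864 : ℕ)) / S) :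
    TriA PP.cur (nearL (h0 * 0) 3 κ (h0 * x) (tbl tKN x) (tbl tL x)) 1 2 3 0 3 (-1) (-1) :=
  (sideN hx hx').nearA (Or.inr rfl) (Or.inr rfl) fun y y' F =>
    nearA_cert (s1 := false) (s2 := false) rfl hκ covN01 covN32 hx hx'
        Pool.Agent.Strip051.G.I1_8_3_16.Tab.C.NA03.c_mm_123 noCut_A noExt_A F trivial trivial

theorem NA03_mm_133 {κ x : ℝ} (hκ : κ * h0 = ken x) (hx : ((134217728 : ℕ) : ℝ) / S ≤ x) (hx' : x ≤ (((134217728 : ℕ) : ℝ) + (67108864 : ℕ)) / S) :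
    TriA PP.cur (nearL (h0 * 0) 3 κ (h0 * x) (tbl tKN x) (tbl tL x)) 1 3 3 0 3 (-1) (-1) :=
  (sideN hx hx').nearA (Or.inr rfl) (Or.inr rfl) fun y y' F =>
    nearA_cert (s1 := false) (s2 := false) rfl hκ covN01 covN33 hx hx'
        Pool.Agent.Strip051.G.I1_8_3_16.Tab.C.NA03.c_mm_133 noCut_A noExt_A F trivial trivial

theorem NA03_mm_202 {κ x : ℝ} (hκ : κ * h0 = ken x) (hx : ((134217728 : ℕ) : ℝ) / S ≤ x) (hx' : x ≤ (((134217728 : ℕ) : ℝ) + (67108864 : ℕ)) / S) :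
    TriA PP.cur (nearL (h0 * 0) 3 κ (h0 * x) (tbl tKN x) (tbl tL x)) 2 0 2 0 3 (-1) (-1) :=
  (sideN hx hx').nearA (Or.inr rfl) (Or.inr rfl) fun y y' F =>
    nearA_cert (s1 := false) (s2 := false) rfl hκ covN02 covN30 hx hx'
        Pool.Agent.Strip051.G.I1_8_3_16.Tab.C.NA03.c_mm_202 noCut_A noExt_A F trivial trivial

theorem NA03_mm_203 {κ x : ℝ} (hκ : κ * h0 = ken x) (hx : ((134217728 : ℕ) : ℝ) / S ≤ x) (hx' : x ≤ (((134217728 : ℕ) : ℝ) + (67108864 : ℕ)) / S) :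
    TriA PP.cur (nearL (h0 * 0) 3 κ (h0 * x) (tbl tKN x) (tbl tL x)) 2 0 3 0 3 (-1) (-1) :=
  (sideN hx hx').nearA (Or.inr rfl) (Or.inr rfl) fun y y' F =>
    nearA_cert (s1 := false) (s2 := false) rfl hκ covN02 covN30 hx hx'
        Pool.Agent.Strip051.G.I1_8_3_16.Tab.C.NA03.c_mm_203 noCut_A noExt_A F trivial trivial

theorem NA03_mm_213 {κ x : ℝ} (hκ : κ * h0 = ken x) (hx : ((134217728 : ℕ) : ℝ) / S ≤ x) (hx' : x ≤ (((134217728 : ℕ) : ℝ) + (67108864 : ℕ)) / S) :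
    TriA PP.cur (nearL (h0 * 0) 3 κ (h0 * x) (tbl tKN x) (tbl tL x)) 2 1 3 0 3 (-1) (-1) :=
  (sideN hx hx').nearA (Or.inr rfl) (Or.inr rfl) fun y y' F =>
    nearA_cert (s1 := false) (s2 := false) rfl hκ covN02 covN31 hx hx'
        Pool.Agent.Strip051.G.I1_8_3_16.Tab.C.NA03.c_mm_213 noCut_A noExt_A F trivial trivial

theorem NA03_mm_303 {κ x : ℝ} (hκ : κ * h0 = ken x) (hx : ((134217728 : ℕ) : ℝ) / S ≤ x) (hx' : x ≤ (((134217728 : ℕ) : ℝ) + (67108864 : ℕ)) / S) :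
    TriA PP.cur (nearL (h0 * 0) 3 κ (h0 * x) (tbl tKN x) (tbl tL x)) 3 0 3 0 3 (-1) (-1) :=
  triA_j0

theorem NA03_mm_313 {κ x : ℝ} (hκ : κ * h0 = ken x) (hx : ((134217728 : ℕ) : ℝ) / S ≤ x) (hx' : x ≤ (((134217728 : ℕ) : ℝ) + (67108864 : ℕ)) / S) :
    TriA PP.cur (nearL (h0 * 0) 3 κ (h0 * x) (tbl tKN x) (tbl tL x)) 3 1 3 0 3 (-1) (-1) :=
  triA_j0

theorem NA03 {κ x : ℝ} (hκ : κ * h0 = ken x) (hx : ((134217728 : ℕ) : ℝ) / S ≤ x) (hx' : x ≤ (((134217728 : ℕ) : ℝ) + (67108864 : ℕ)) / S) : AllTA PP.cur (nearL (h0 * 0) 3 κ (h0 * x) (tbl tKN x) (tbl tL x)) 0 3 where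
  pp := all17 (Q := fun a b c => TriA PP.cur (nearL (h0 * 0) 3 κ (h0 * x) (tbl tKN x) (tbl tL x)) a b c 0 3 1 1)
    (NA03_pp_001 hκ hx hx') (NA03_pp_011 hκ hx hx') (NA03_pp_012 hκ hx hx') (NA03_pp_022 hκ hx hx') (NA03_pp_023 hκ hx hx') (NA03_pp_033 hκ hx hx') (NA03_pp_101 hκ hx hx') (NA03_pp_102 hκ hx hx') (NA03_pp_112 hκ hx hx') (NA03_pp_113 hκ hx hx') (NA03_pp_123 hκ hx hx') (NA03_pp_133 hκ hx hx') (NA03_pp_202 hκ hx hx') (NA03_pp_203 hκ hx hx') (NA03_pp_213 hκ hx hx') (NA03_pp_303 hκ hx hx') (NA03_pp_313 hκ hx hx')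
  pm := all17 (Q := fun a b c => TriA PP.cur (nearL (h0 * 0) 3 κ (h0 * x) (tbl tKN x) (tbl tL x)) a b c 0 3 1 (-1))
    (NA03_pm_001 hκ hx hx') (NA03_pm_011 hκ hx hx') (NA03_pm_012 hκ hx hx') (NA03_pm_022 hκ hx hx') (NA03_pm_023 hκ hx hx') (NA03_pm_033 hκ hx hx') (NA03_pm_101 hκ hx hx') (NA03_pm_102 hκ hx hx') (NA03_pm_112 hκ hx hx') (NA03_pm_113 hκ hx hx') (NA03_pm_123 hκ hx hx') (NA03_pm_133 hκ hx hx') (NA03_pm_202 hκ hx hx') (NA03_pm_203 hκ hx hx') (NA03_pm_213 hκ hx hx') (NA03_pm_303 hκ hx hx') (NA03_pm_313 hκ hx hx')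
  mm := all17 (Q := fun a b c => TriA PP.cur (nearL (h0 * 0) 3 κ (h0 * x) (tbl tKN x) (tbl tL x)) a b c 0 3 (-1) (-1))
    (NA03_mm_001 hκ hx hx') (NA03_mm_011 hκ hx hx') (NA03_mm_012 hκ hx hx') (NA03_mm_022 hκ hx hx') (NA03_mm_023 hκ hx hx') (NA03_mm_033 hκ hx hx') (NA03_mm_101 hκ hx hx') (NA03_mm_102 hκ hx hx') (NA03_mm_112 hκ hx hx') (NA03_mm_113 hκ hx hx') (NA03_mm_123 hκ hx hx') (NA03_mm_133 hκ hx hx') (NA03_mm_202 hκ hx hx') (NA03_mm_203 hκ hx hx') (NA03_mm_213 hκ hx hx') (NA03_mm_303 hκ hx hx') (NA03_mm_313 hκ hx hx')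

theorem NA04_pp_001 {κ x : ℝ} (hκ : κ * h0 = ken x) (hx : ((134217728 : ℕ) : ℝ) / S ≤ x) (hx' : x ≤ (((134217728 : ℕ) : ℝ) + (67108864 : ℕ)) / S) :
    TriA PP.cur (nearL (h0 * 0) 3 κ (h0 * x) (tbl tKN x) (tbl tL x)) 0 0 1 0 4 1 1 :=
  (sideN hx hx').nearA (Or.inl rfl) (Or.inl rfl) fun y y' F =>
    nearA_cert (s1 := true) (s2 := true) rfl hκ covN00 covN40 hx hx'
        Pool.Agent.Strip051.G.I1_8_3_16.Tab.C.NA04.c_pp_001 noCut_A noExt_A F trivial trivial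

theorem NA04_pp_011 {κ x : ℝ} (hκ : κ * h0 = ken x) (hx : ((134217728 : ℕ) : ℝ) / S ≤ x) (hx' : x ≤ (((134217728 : ℕ) : ℝ) + (67108864 : ℕ)) / S) :
    TriA PP.cur (nearL (h0 * 0) 3 κ (h0 * x) (tbl tKN x) (tbl tL x)) 0 1 1 0 4 1 1 :=
  (sideN hx hx').nearA (Or.inl rfl) (Or.inl rfl) fun y y' F =>
    nearA_cert (s1 := true) (s2 := true) rfl hκ covN00 covN41 hx hx'
        Pool.Agent.Strip051.G.I1_8_3_16.Tab.C.NA04.c_pp_011 noCut_A noExt_A F trivial trivial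

theorem NA04_pp_012 {κ x : ℝ} (hκ : κ * h0 = ken x) (hx : ((134217728 : ℕ) : ℝ) / S ≤ x) (hx' : x ≤ (((134217728 : ℕ) : ℝ) + (67108864 : ℕ)) / S) :
    TriA PP.cur (nearL (h0 * 0) 3 κ (h0 * x) (tbl tKN x) (tbl tL x)) 0 1 2 0 4 1 1 :=
  (sideN hx hx').nearA (Or.inl rfl) (Or.inl rfl) fun y y' F =>
    nearA_cert (s1 := true) (s2 := true) rfl hκ covN00 covN41 hx hx'
        Pool.Agent.Strip051.G.I1_8_3_16.Tab.C.NA04.c_pp_012 noCut_A noExt_A F trivial trivial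

theorem NA04_pp_022 {κ x : ℝ} (hκ : κ * h0 = ken x) (hx : ((134217728 : ℕ) : ℝ) / S ≤ x) (hx' : x ≤ (((134217728 : ℕ) : ℝ) + (67108864 : ℕ)) / S) :
    TriA PP.cur (nearL (h0 * 0) 3 κ (h0 * x) (tbl tKN x) (tbl tL x)) 0 2 2 0 4 1 1 :=
  (sideN hx hx').nearA (Or.inl rfl) (Or.inl rfl) fun y y' F =>
    nearA_cert (s1 := true) (s2 := true) rfl hκ covN00 covN42 hx hx'
        Pool.Agent.Strip051.G.I1_8_3_16.Tab.C.NA04.c_pp_022 noCut_A noExt_A F trivial trivial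

theorem NA04_pp_023 {κ x : ℝ} (hκ : κ * h0 = ken x) (hx : ((134217728 : ℕ) : ℝ) / S ≤ x) (hx' : x ≤ (((134217728 : ℕ) : ℝ) + (67108864 : ℕ)) / S) :
    TriA PP.cur (nearL (h0 * 0) 3 κ (h0 * x) (tbl tKN x) (tbl tL x)) 0 2 3 0 4 1 1 :=
  (sideN hx hx').nearA (Or.inl rfl) (Or.inl rfl) fun y y' F =>
    nearA_cert (s1 := true) (s2 := true) rfl hκ covN00 covN42 hx hx'
        Pool.Agent.Strip051.G.I1_8_3_16.Tab.C.NA04.c_pp_023 noCut_A noExt_A F trivial trivial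

theorem NA04_pp_033 {κ x : ℝ} (hκ : κ * h0 = ken x) (hx : ((134217728 : ℕ) : ℝ) / S ≤ x) (hx' : x ≤ (((134217728 : ℕ) : ℝ) + (67108864 : ℕ)) / S) :
    TriA PP.cur (nearL (h0 * 0) 3 κ (h0 * x) (tbl tKN x) (tbl tL x)) 0 3 3 0 4 1 1 :=
  (sideN hx hx').nearA (Or.inl rfl) (Or.inl rfl) fun y y' F =>
    nearA_cert (s1 := true) (s2 := true) rfl hκ covN00 covN43 hx hx'
        Pool.Agent.Strip051.G.I1_8_3_16.Tab.C.NA04.c_pp_033 noCut_A noExt_A F trivial trivial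

theorem NA04_pp_101 {κ x : ℝ} (hκ : κ * h0 = ken x) (hx : ((134217728 : ℕ) : ℝ) / S ≤ x) (hx' : x ≤ (((134217728 : ℕ) : ℝ) + (67108864 : ℕ)) / S) :
    TriA PP.cur (nearL (h0 * 0) 3 κ (h0 * x) (tbl tKN x) (tbl tL x)) 1 0 1 0 4 1 1 :=
  (sideN hx hx').nearA (Or.inl rfl) (Or.inl rfl) fun y y' F =>
    nearA_cert (s1 := true) (s2 := true) rfl hκ covN01 covN40 hx hx'
        Pool.Agent.Strip051.G.I1_8_3_16.Tab.C.NA04.c_pp_101 noCut_A noExt_A F trivial trivial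

theorem NA04_pp_102 {κ x : ℝ} (hκ : κ * h0 = ken x) (hx : ((134217728 : ℕ) : ℝ) / S ≤ x) (hx' : x ≤ (((134217728 : ℕ) : ℝ) + (67108864 : ℕ)) / S) :
    TriA PP.cur (nearL (h0 * 0) 3 κ (h0 * x) (tbl tKN x) (tbl tL x)) 1 0 2 0 4 1 1 :=
  (sideN hx hx').nearA (Or.inl rfl) (Or.inl rfl) fun y y' F =>
    nearA_cert (s1 := true) (s2 := true) rfl hκ covN01 covN40 hx hx'
        Pool.Agent.Strip051.G.I1_8_3_16.Tab.C.NA04.c_pp_102 noCut_A noExt_A F trivial trivial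

theorem NA04_pp_112 {κ x : ℝ} (hκ : κ * h0 = ken x) (hx : ((134217728 : ℕ) : ℝ) / S ≤ x) (hx' : x ≤ (((134217728 : ℕ) : ℝ) + (67108864 : ℕ)) / S) :
    TriA PP.cur (nearL (h0 * 0) 3 κ (h0 * x) (tbl tKN x) (tbl tL x)) 1 1 2 0 4 1 1 :=
  (sideN hx hx').nearA (Or.inl rfl) (Or.inl rfl) fun y y' F =>
    nearA_cert (s1 := true) (s2 := true) rfl hκ covN01 covN41 hx hx'
        Pool.Agent.Strip051.G.I1_8_3_16.Tab.C.NA04.c_pp_112 noCut_A noExt_A F trivial trivial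

theorem NA04_pp_113 {κ x : ℝ} (hκ : κ * h0 = ken x) (hx : ((134217728 : ℕ) : ℝ) / S ≤ x) (hx' : x ≤ (((134217728 : ℕ) : ℝ) + (67108864 : ℕ)) / S) :
    TriA PP.cur (nearL (h0 * 0) 3 κ (h0 * x) (tbl tKN x) (tbl tL x)) 1 1 3 0 4 1 1 :=
  (sideN hx hx').nearA (Or.inl rfl) (Or.inl rfl) fun y y' F =>
    nearA_cert (s1 := true) (s2 := true) rfl hκ covN01 covN41 hx hx'
        Pool.Agent.Strip051.G.I1_8_3_16.Tab.C.NA04.c_pp_113 noCut_A noExt_A F trivial trivial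

theorem NA04_pp_123 {κ x : ℝ} (hκ : κ * h0 = ken x) (hx : ((134217728 : ℕ) : ℝ) / S ≤ x) (hx' : x ≤ (((134217728 : ℕ) : ℝ) + (67108864 : ℕ)) / S) :
    TriA PP.cur (nearL (h0 * 0) 3 κ (h0 * x) (tbl tKN x) (tbl tL x)) 1 2 3 0 4 1 1 :=
  (sideN hx hx').nearA (Or.inl rfl) (Or.inl rfl) fun y y' F =>
    nearA_cert (s1 := true) (s2 := true) rfl hκ covN01 covN42 hx hx'
        Pool.Agent.Strip051.G.I1_8_3_16.Tab.C.NA04.c_pp_123 noCut_A noExt_A F trivial trivial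

theorem NA04_pp_133 {κ x : ℝ} (hκ : κ * h0 = ken x) (hx : ((134217728 : ℕ) : ℝ) / S ≤ x) (hx' : x ≤ (((134217728 : ℕ) : ℝ) + (67108864 : ℕ)) / S) :
    TriA PP.cur (nearL (h0 * 0) 3 κ (h0 * x) (tbl tKN x) (tbl tL x)) 1 3 3 0 4 1 1 :=
  (sideN hx hx').nearA (Or.inl rfl) (Or.inl rfl) fun y y' F =>
    nearA_cert (s1 := true) (s2 := true) rfl hκ covN01 covN43 hx hx'
        Pool.Agent.Strip051.G.I1_8_3_16.Tab.C.NA04.c_pp_133 noCut_A noExt_A F trivial trivial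

theorem NA04_pp_202 {κ x : ℝ} (hκ : κ * h0 = ken x) (hx : ((134217728 : ℕ) : ℝ) / S ≤ x) (hx' : x ≤ (((134217728 : ℕ) : ℝ) + (67108864 : ℕ)) / S) :
    TriA PP.cur (nearL (h0 * 0) 3 κ (h0 * x) (tbl tKN x) (tbl tL x)) 2 0 2 0 4 1 1 :=
  (sideN hx hx').nearA (Or.inl rfl) (Or.inl rfl) fun y y' F =>
    nearA_cert (s1 := true) (s2 := true) rfl hκ covN02 covN40 hx hx'
        Pool.Agent.Strip051.G.I1_8_3_16.Tab.C.NA04.c_pp_202 noCut_A noExt_A F trivial trivial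

theorem NA04_pp_203 {κ x : ℝ} (hκ : κ * h0 = ken x) (hx : ((134217728 : ℕ) : ℝ) / S ≤ x) (hx' : x ≤ (((134217728 : ℕ) : ℝ) + (67108864 : ℕ)) / S) :
    TriA PP.cur (nearL (h0 * 0) 3 κ (h0 * x) (tbl tKN x) (tbl tL x)) 2 0 3 0 4 1 1 :=
  (sideN hx hx').nearA (Or.inl rfl) (Or.inl rfl) fun y y' F =>
    nearA_cert (s1 := true) (s2 := true) rfl hκ covN02 covN40 hx hx'
        Pool.Agent.Strip051.G.I1_8_3_16.Tab.C.NA04.c_pp_203 noCut_A noExt_A F trivial trivial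

theorem NA04_pp_213 {κ x : ℝ} (hκ : κ * h0 = ken x) (hx : ((134217728 : ℕ) : ℝ) / S ≤ x) (hx' : x ≤ (((134217728 : ℕ) : ℝ) + (67108864 : ℕ)) / S) :
    TriA PP.cur (nearL (h0 * 0) 3 κ (h0 * x) (tbl tKN x) (tbl tL x)) 2 1 3 0 4 1 1 :=
  (sideN hx hx').nearA (Or.inl rfl) (Or.inl rfl) fun y y' F =>
    nearA_cert (s1 := true) (s2 := true) rfl hκ covN02 covN41 hx hx'
        Pool.Agent.Strip051.G.I1_8_3_16.Tab.C.NA04.c_pp_213 noCut_A noExt_A F trivial trivial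

theorem NA04_pp_303 {κ x : ℝ} (hκ : κ * h0 = ken x) (hx : ((134217728 : ℕ) : ℝ) / S ≤ x) (hx' : x ≤ (((134217728 : ℕ) : ℝ) + (67108864 : ℕ)) / S) :
    TriA PP.cur (nearL (h0 * 0) 3 κ (h0 * x) (tbl tKN x) (tbl tL x)) 3 0 3 0 4 1 1 :=
  triA_j0

theorem NA04_pp_313 {κ x : ℝ} (hκ : κ * h0 = ken x) (hx : ((134217728 : ℕ) : ℝ) / S ≤ x) (hx' : x ≤ (((134217728 : ℕ) : ℝ) + (67108864 : ℕ)) / S) :
    TriA PP.cur (nearL (h0 * 0) 3 κ (h0 * x) (tbl tKN x) (tbl tL x)) 3 1 3 0 4 1 1 :=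
  triA_j0

theorem NA04_pm_001 {κ x : ℝ} (hκ : κ * h0 = ken x) (hx : ((134217728 : ℕ) : ℝ) / S ≤ x) (hx' : x ≤ (((134217728 : ℕ) : ℝ) + (67108864 : ℕ)) / S) :
    TriA PP.cur (nearL (h0 * 0) 3 κ (h0 * x) (tbl tKN x) (tbl tL x)) 0 0 1 0 4 1 (-1) :=
  (sideN hx hx').nearA (Or.inl rfl) (Or.inr rfl) fun y y' F =>
    nearA_cert (s1 := true) (s2 := false) rfl hκ covN00 covN40 hx hx'
        Pool.Agent.Strip051.G.I1_8_3_16.Tab.C.NA04.c_pm_001 noCut_A noExt_A F trivial trivial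

theorem NA04_pm_011 {κ x : ℝ} (hκ : κ * h0 = ken x) (hx : ((134217728 : ℕ) : ℝ) / S ≤ x) (hx' : x ≤ (((134217728 : ℕ) : ℝ) + (67108864 : ℕ)) / S) :
    TriA PP.cur (nearL (h0 * 0) 3 κ (h0 * x) (tbl tKN x) (tbl tL x)) 0 1 1 0 4 1 (-1) :=
  (sideN hx hx').nearA (Or.inl rfl) (Or.inr rfl) fun y y' F =>
    nearA_cert (s1 := true) (s2 := false) rfl hκ covN00 covN41 hx hx'
        Pool.Agent.Strip051.G.I1_8_3_16.Tab.C.NA04.c_pm_011 (cutA_cons (Pool.Agent.Strip051.G.I1_8_3_16.Tab.altN_A011R_04 hκ hx hx') cutA_nil) noExt_A F trivial trivial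

theorem NA04_pm_012 {κ x : ℝ} (hκ : κ * h0 = ken x) (hx : ((134217728 : ℕ) : ℝ) / S ≤ x) (hx' : x ≤ (((134217728 : ℕ) : ℝ) + (67108864 : ℕ)) / S) :
    TriA PP.cur (nearL (h0 * 0) 3 κ (h0 * x) (tbl tKN x) (tbl tL x)) 0 1 2 0 4 1 (-1) :=
  (sideN hx hx').nearA (Or.inl rfl) (Or.inr rfl) fun y y' F =>
    nearA_cert (s1 := true) (s2 := false) rfl hκ covN00 covN41 hx hx'
        Pool.Agent.Strip051.G.I1_8_3_16.Tab.C.NA04.c_pm_012 (cutA_cons (Pool.Agent.Strip051.G.I1_8_3_16.Tab.altN_A012R_04 hκ hx hx') cutA_nil) noExt_A F trivial trivial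

theorem NA04_pm_022 {κ x : ℝ} (hκ : κ * h0 = ken x) (hx : ((134217728 : ℕ) : ℝ) / S ≤ x) (hx' : x ≤ (((134217728 : ℕ) : ℝ) + (67108864 : ℕ)) / S) :
    TriA PP.cur (nearL (h0 * 0) 3 κ (h0 * x) (tbl tKN x) (tbl tL x)) 0 2 2 0 4 1 (-1) :=
  (sideN hx hx').nearA (Or.inl rfl) (Or.inr rfl) fun y y' F =>
    nearA_cert (s1 := true) (s2 := false) rfl hκ covN00 covN42 hx hx'
        Pool.Agent.Strip051.G.I1_8_3_16.Tab.C.NA04.c_pm_022 noCut_A noExt_A F trivial trivial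

theorem NA04_pm_023 {κ x : ℝ} (hκ : κ * h0 = ken x) (hx : ((134217728 : ℕ) : ℝ) / S ≤ x) (hx' : x ≤ (((134217728 : ℕ) : ℝ) + (67108864 : ℕ)) / S) :
    TriA PP.cur (nearL (h0 * 0) 3 κ (h0 * x) (tbl tKN x) (tbl tL x)) 0 2 3 0 4 1 (-1) :=
  (sideN hx hx').nearA (Or.inl rfl) (Or.inr rfl) fun y y' F =>
    nearA_cert (s1 := true) (s2 := false) rfl hκ covN00 covN42 hx hx'
        Pool.Agent.Strip051.G.I1_8_3_16.Tab.C.NA04.c_pm_023 noCut_A noExt_A F trivial trivial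

theorem NA04_pm_033 {κ x : ℝ} (hκ : κ * h0 = ken x) (hx : ((134217728 : ℕ) : ℝ) / S ≤ x) (hx' : x ≤ (((134217728 : ℕ) : ℝ) + (67108864 : ℕ)) / S) :
    TriA PP.cur (nearL (h0 * 0) 3 κ (h0 * x) (tbl tKN x) (tbl tL x)) 0 3 3 0 4 1 (-1) :=
  (sideN hx hx').nearA (Or.inl rfl) (Or.inr rfl) fun y y' F =>
    nearA_cert (s1 := true) (s2 := false) rfl hκ covN00 covN43 hx hx'
        Pool.Agent.Strip051.G.I1_8_3_16.Tab.C.NA04.c_pm_033 noCut_A noExt_A F trivial trivial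

theorem NA04_pm_101 {κ x : ℝ} (hκ : κ * h0 = ken x) (hx : ((134217728 : ℕ) : ℝ) / S ≤ x) (hx' : x ≤ (((134217728 : ℕ) : ℝ) + (67108864 : ℕ)) / S) :
    TriA PP.cur (nearL (h0 * 0) 3 κ (h0 * x) (tbl tKN x) (tbl tL x)) 1 0 1 0 4 1 (-1) :=
  (sideN hx hx').nearA (Or.inl rfl) (Or.inr rfl) fun y y' F =>
    nearA_cert (s1 := true) (s2 := false) rfl hκ covN01 covN40 hx hx'
        Pool.Agent.Strip051.G.I1_8_3_16.Tab.C.NA04.c_pm_101 noCut_A noExt_A F trivial trivial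

theorem NA04_pm_102 {κ x : ℝ} (hκ : κ * h0 = ken x) (hx : ((134217728 : ℕ) : ℝ) / S ≤ x) (hx' : x ≤ (((134217728 : ℕ) : ℝ) + (67108864 : ℕ)) / S) :
    TriA PP.cur (nearL (h0 * 0) 3 κ (h0 * x) (tbl tKN x) (tbl tL x)) 1 0 2 0 4 1 (-1) :=
  (sideN hx hx').nearA (Or.inl rfl) (Or.inr rfl) fun y y' F =>
    nearA_cert (s1 := true) (s2 := false) rfl hκ covN01 covN40 hx hx'
        Pool.Agent.Strip051.G.I1_8_3_16.Tab.C.NA04.c_pm_102 noCut_A noExt_A F trivial trivial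

theorem NA04_pm_112 {κ x : ℝ} (hκ : κ * h0 = ken x) (hx : ((134217728 : ℕ) : ℝ) / S ≤ x) (hx' : x ≤ (((134217728 : ℕ) : ℝ) + (67108864 : ℕ)) / S) :
    TriA PP.cur (nearL (h0 * 0) 3 κ (h0 * x) (tbl tKN x) (tbl tL x)) 1 1 2 0 4 1 (-1) :=
  (sideN hx hx').nearA (Or.inl rfl) (Or.inr rfl) fun y y' F =>
    nearA_cert (s1 := true) (s2 := false) rfl hκ covN01 covN41 hx hx'
        Pool.Agent.Strip051.G.I1_8_3_16.Tab.C.NA04.c_pm_112 noCut_A noExt_A F trivial trivial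

theorem NA04_pm_113 {κ x : ℝ} (hκ : κ * h0 = ken x) (hx : ((134217728 : ℕ) : ℝ) / S ≤ x) (hx' : x ≤ (((134217728 : ℕ) : ℝ) + (67108864 : ℕ)) / S) :
    TriA PP.cur (nearL (h0 * 0) 3 κ (h0 * x) (tbl tKN x) (tbl tL x)) 1 1 3 0 4 1 (-1) :=
  (sideN hx hx').nearA (Or.inl rfl) (Or.inr rfl) fun y y' F =>
    nearA_cert (s1 := true) (s2 := false) rfl hκ covN01 covN41 hx hx'
        Pool.Agent.Strip051.G.I1_8_3_16.Tab.C.NA04.c_pm_113 noCut_A noExt_A F trivial trivial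

theorem NA04_pm_123 {κ x : ℝ} (hκ : κ * h0 = ken x) (hx : ((134217728 : ℕ) : ℝ) / S ≤ x) (hx' : x ≤ (((134217728 : ℕ) : ℝ) + (67108864 : ℕ)) / S) :
    TriA PP.cur (nearL (h0 * 0) 3 κ (h0 * x) (tbl tKN x) (tbl tL x)) 1 2 3 0 4 1 (-1) :=
  (sideN hx hx').nearA (Or.inl rfl) (Or.inr rfl) fun y y' F =>
    nearA_cert (s1 := true) (s2 := false) rfl hκ covN01 covN42 hx hx'
        Pool.Agent.Strip051.G.I1_8_3_16.Tab.C.NA04.c_pm_123 noCut_A noExt_A F trivial trivial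

theorem NA04_pm_133 {κ x : ℝ} (hκ : κ * h0 = ken x) (hx : ((134217728 : ℕ) : ℝ) / S ≤ x) (hx' : x ≤ (((134217728 : ℕ) : ℝ) + (67108864 : ℕ)) / S) :
    TriA PP.cur (nearL (h0 * 0) 3 κ (h0 * x) (tbl tKN x) (tbl tL x)) 1 3 3 0 4 1 (-1) :=
  (sideN hx hx').nearA (Or.inl rfl) (Or.inr rfl) fun y y' F =>
    nearA_cert (s1 := true) (s2 := false) rfl hκ covN01 covN43 hx hx'
        Pool.Agent.Strip051.G.I1_8_3_16.Tab.C.NA04.c_pm_133 noCut_A noExt_A F trivial trivial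

theorem NA04_pm_202 {κ x : ℝ} (hκ : κ * h0 = ken x) (hx : ((134217728 : ℕ) : ℝ) / S ≤ x) (hx' : x ≤ (((134217728 : ℕ) : ℝ) + (67108864 : ℕ)) / S) :
    TriA PP.cur (nearL (h0 * 0) 3 κ (h0 * x) (tbl tKN x) (tbl tL x)) 2 0 2 0 4 1 (-1) :=
  (sideN hx hx').nearA (Or.inl rfl) (Or.inr rfl) fun y y' F =>
    nearA_cert (s1 := true) (s2 := false) rfl hκ covN02 covN40 hx hx'
        Pool.Agent.Strip051.G.I1_8_3_16.Tab.C.NA04.c_pm_202 noCut_A noExt_A F trivial trivial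

theorem NA04_pm_203 {κ x : ℝ} (hκ : κ * h0 = ken x) (hx : ((134217728 : ℕ) : ℝ) / S ≤ x) (hx' : x ≤ (((134217728 : ℕ) : ℝ) + (67108864 : ℕ)) / S) :
    TriA PP.cur (nearL (h0 * 0) 3 κ (h0 * x) (tbl tKN x) (tbl tL x)) 2 0 3 0 4 1 (-1) :=
  (sideN hx hx').nearA (Or.inl rfl) (Or.inr rfl) fun y y' F =>
    nearA_cert (s1 := true) (s2 := false) rfl hκ covN02 covN40 hx hx'
        Pool.Agent.Strip051.G.I1_8_3_16.Tab.C.NA04.c_pm_203 noCut_A noExt_A F trivial trivial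

theorem NA04_pm_213 {κ x : ℝ} (hκ : κ * h0 = ken x) (hx : ((134217728 : ℕ) : ℝ) / S ≤ x) (hx' : x ≤ (((134217728 : ℕ) : ℝ) + (67108864 : ℕ)) / S) :
    TriA PP.cur (nearL (h0 * 0) 3 κ (h0 * x) (tbl tKN x) (tbl tL x)) 2 1 3 0 4 1 (-1) :=
  (sideN hx hx').nearA (Or.inl rfl) (Or.inr rfl) fun y y' F =>
    nearA_cert (s1 := true) (s2 := false) rfl hκ covN02 covN41 hx hx'
        Pool.Agent.Strip051.G.I1_8_3_16.Tab.C.NA04.c_pm_213 noCut_A noExt_A F trivial trivial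

theorem NA04_pm_303 {κ x : ℝ} (hκ : κ * h0 = ken x) (hx : ((134217728 : ℕ) : ℝ) / S ≤ x) (hx' : x ≤ (((134217728 : ℕ) : ℝ) + (67108864 : ℕ)) / S) :
    TriA PP.cur (nearL (h0 * 0) 3 κ (h0 * x) (tbl tKN x) (tbl tL x)) 3 0 3 0 4 1 (-1) :=
  triA_j0

theorem NA04_pm_313 {κ x : ℝ} (hκ : κ * h0 = ken x) (hx : ((134217728 : ℕ) : ℝ) / S ≤ x) (hx' : x ≤ (((134217728 : ℕ) : ℝ) + (67108864 : ℕ)) / S) :
    TriA PP.cur (nearL (h0 * 0) 3 κ (h0 * x) (tbl tKN x) (tbl tL x)) 3 1 3 0 4 1 (-1) :=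
  triA_j0

theorem NA04_mm_001 {κ x : ℝ} (hκ : κ * h0 = ken x) (hx : ((134217728 : ℕ) : ℝ) / S ≤ x) (hx' : x ≤ (((134217728 : ℕ) : ℝ) + (67108864 : ℕ)) / S) :
    TriA PP.cur (nearL (h0 * 0) 3 κ (h0 * x) (tbl tKN x) (tbl tL x)) 0 0 1 0 4 (-1) (-1) :=
  (sideN hx hx').nearA (Or.inr rfl) (Or.inr rfl) fun y y' F =>
    nearA_cert (s1 := false) (s2 := false) rfl hκ covN00 covN40 hx hx'
        Pool.Agent.Strip051.G.I1_8_3_16.Tab.C.NA04.c_mm_001 noCut_A noExt_A F trivial trivial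

theorem NA04_mm_011 {κ x : ℝ} (hκ : κ * h0 = ken x) (hx : ((134217728 : ℕ) : ℝ) / S ≤ x) (hx' : x ≤ (((134217728 : ℕ) : ℝ) + (67108864 : ℕ)) / S) :
    TriA PP.cur (nearL (h0 * 0) 3 κ (h0 * x) (tbl tKN x) (tbl tL x)) 0 1 1 0 4 (-1) (-1) :=
  (sideN hx hx').nearA (Or.inr rfl) (Or.inr rfl) fun y y' F =>
    nearA_cert (s1 := false) (s2 := false) rfl hκ covN00 covN41 hx hx'
        Pool.Agent.Strip051.G.I1_8_3_16.Tab.C.NA04.c_mm_011 noCut_A noExt_A F trivial trivial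

theorem NA04_mm_012 {κ x : ℝ} (hκ : κ * h0 = ken x) (hx : ((134217728 : ℕ) : ℝ) / S ≤ x) (hx' : x ≤ (((134217728 : ℕ) : ℝ) + (67108864 : ℕ)) / S) :
    TriA PP.cur (nearL (h0 * 0) 3 κ (h0 * x) (tbl tKN x) (tbl tL x)) 0 1 2 0 4 (-1) (-1) :=
  (sideN hx hx').nearA (Or.inr rfl) (Or.inr rfl) fun y y' F =>
    nearA_cert (s1 := false) (s2 := false) rfl hκ covN00 covN41 hx hx'
        Pool.Agent.Strip051.G.I1_8_3_16.Tab.C.NA04.c_mm_012 noCut_A noExt_A F trivial trivial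

theorem NA04_mm_022 {κ x : ℝ} (hκ : κ * h0 = ken x) (hx : ((134217728 : ℕ) : ℝ) / S ≤ x) (hx' : x ≤ (((134217728 : ℕ) : ℝ) + (67108864 : ℕ)) / S) :
    TriA PP.cur (nearL (h0 * 0) 3 κ (h0 * x) (tbl tKN x) (tbl tL x)) 0 2 2 0 4 (-1) (-1) :=
  (sideN hx hx').nearA (Or.inr rfl) (Or.inr rfl) fun y y' F =>
    nearA_cert (s1 := false) (s2 := false) rfl hκ covN00 covN42 hx hx'
        Pool.Agent.Strip051.G.I1_8_3_16.Tab.C.NA04.c_mm_022 noCut_A noExt_A F trivial trivial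

theorem NA04_mm_023 {κ x : ℝ} (hκ : κ * h0 = ken x) (hx : ((134217728 : ℕ) : ℝ) / S ≤ x) (hx' : x ≤ (((134217728 : ℕ) : ℝ) + (67108864 : ℕ)) / S) :
    TriA PP.cur (nearL (h0 * 0) 3 κ (h0 * x) (tbl tKN x) (tbl tL x)) 0 2 3 0 4 (-1) (-1) :=
  (sideN hx hx').nearA (Or.inr rfl) (Or.inr rfl) fun y y' F =>
    nearA_cert (s1 := false) (s2 := false) rfl hκ covN00 covN42 hx hx'
        Pool.Agent.Strip051.G.I1_8_3_16.Tab.C.NA04.c_mm_023 noCut_A noExt_A F trivial trivial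

theorem NA04_mm_033 {κ x : ℝ} (hκ : κ * h0 = ken x) (hx : ((134217728 : ℕ) : ℝ) / S ≤ x) (hx' : x ≤ (((134217728 : ℕ) : ℝ) + (67108864 : ℕ)) / S) :
    TriA PP.cur (nearL (h0 * 0) 3 κ (h0 * x) (tbl tKN x) (tbl tL x)) 0 3 3 0 4 (-1) (-1) :=
  (sideN hx hx').nearA (Or.inr rfl) (Or.inr rfl) fun y y' F =>
    nearA_cert (s1 := false) (s2 := false) rfl hκ covN00 covN43 hx hx'
        Pool.Agent.Strip051.G.I1_8_3_16.Tab.C.NA04.c_mm_033 noCut_A noExt_A F trivial trivial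

theorem NA04_mm_101 {κ x : ℝ} (hκ : κ * h0 = ken x) (hx : ((134217728 : ℕ) : ℝ) / S ≤ x) (hx' : x ≤ (((134217728 : ℕ) : ℝ) + (67108864 : ℕ)) / S) :
    TriA PP.cur (nearL (h0 * 0) 3 κ (h0 * x) (tbl tKN x) (tbl tL x)) 1 0 1 0 4 (-1) (-1) :=
  (sideN hx hx').nearA (Or.inr rfl) (Or.inr rfl) fun y y' F =>
    nearA_cert (s1 := false) (s2 := false) rfl hκ covN01 covN40 hx hx'
        Pool.Agent.Strip051.G.I1_8_3_16.Tab.C.NA04.c_mm_101 noCut_A noExt_A F trivial trivial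

theorem NA04_mm_102 {κ x : ℝ} (hκ : κ * h0 = ken x) (hx : ((134217728 : ℕ) : ℝ) / S ≤ x) (hx' : x ≤ (((134217728 : ℕ) : ℝ) + (67108864 : ℕ)) / S) :
    TriA PP.cur (nearL (h0 * 0) 3 κ (h0 * x) (tbl tKN x) (tbl tL x)) 1 0 2 0 4 (-1) (-1) :=
  (sideN hx hx').nearA (Or.inr rfl) (Or.inr rfl) fun y y' F =>
    nearA_cert (s1 := false) (s2 := false) rfl hκ covN01 covN40 hx hx'
        Pool.Agent.Strip051.G.I1_8_3_16.Tab.C.NA04.c_mm_102 noCut_A noExt_A F trivial trivial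

theorem NA04_mm_112 {κ x : ℝ} (hκ : κ * h0 = ken x) (hx : ((134217728 : ℕ) : ℝ) / S ≤ x) (hx' : x ≤ (((134217728 : ℕ) : ℝ) + (67108864 : ℕ)) / S) :
    TriA PP.cur (nearL (h0 * 0) 3 κ (h0 * x) (tbl tKN x) (tbl tL x)) 1 1 2 0 4 (-1) (-1) :=
  (sideN hx hx').nearA (Or.inr rfl) (Or.inr rfl) fun y y' F =>
    nearA_cert (s1 := false) (s2 := false) rfl hκ covN01 covN41 hx hx'
        Pool.Agent.Strip051.G.I1_8_3_16.Tab.C.NA04.c_mm_112 noCut_A noExt_A F trivial trivial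

theorem NA04_mm_113 {κ x : ℝ} (hκ : κ * h0 = ken x) (hx : ((134217728 : ℕ) : ℝ) / S ≤ x) (hx' : x ≤ (((134217728 : ℕ) : ℝ) + (67108864 : ℕ)) / S) :
    TriA PP.cur (nearL (h0 * 0) 3 κ (h0 * x) (tbl tKN x) (tbl tL x)) 1 1 3 0 4 (-1) (-1) :=
  (sideN hx hx').nearA (Or.inr rfl) (Or.inr rfl) fun y y' F =>
    nearA_cert (s1 := false) (s2 := false) rfl hκ covN01 covN41 hx hx'
        Pool.Agent.Strip051.G.I1_8_3_16.Tab.C.NA04.c_mm_113 noCut_A noExt_A F trivial trivial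

theorem NA04_mm_123 {κ x : ℝ} (hκ : κ * h0 = ken x) (hx : ((134217728 : ℕ) : ℝ) / S ≤ x) (hx' : x ≤ (((134217728 : ℕ) : ℝ) + (67108864 : ℕ)) / S) :
    TriA PP.cur (nearL (h0 * 0) 3 κ (h0 * x) (tbl tKN x) (tbl tL x)) 1 2 3 0 4 (-1) (-1) :=
  (sideN hx hx').nearA (Or.inr rfl) (Or.inr rfl) fun y y' F =>
    nearA_cert (s1 := false) (s2 := false) rfl hκ covN01 covN42 hx hx'
        Pool.Agent.Strip051.G.I1_8_3_16.Tab.C.NA04.c_mm_123 noCut_A noExt_A F trivial trivial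

theorem NA04_mm_133 {κ x : ℝ} (hκ : κ * h0 = ken x) (hx : ((134217728 : ℕ) : ℝ) / S ≤ x) (hx' : x ≤ (((134217728 : ℕ) : ℝ) + (67108864 : ℕ)) / S) :
    TriA PP.cur (nearL (h0 * 0) 3 κ (h0 * x) (tbl tKN x) (tbl tL x)) 1 3 3 0 4 (-1) (-1) :=
  (sideN hx hx').nearA (Or.inr rfl) (Or.inr rfl) fun y y' F =>
    nearA_cert (s1 := false) (s2 := false) rfl hκ covN01 covN43 hx hx'
        Pool.Agent.Strip051.G.I1_8_3_16.Tab.C.NA04.c_mm_133 noCut_A noExt_A F trivial trivial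

theorem NA04_mm_202 {κ x : ℝ} (hκ : κ * h0 = ken x) (hx : ((134217728 : ℕ) : ℝ) / S ≤ x) (hx' : x ≤ (((134217728 : ℕ) : ℝ) + (67108864 : ℕ)) / S) :
    TriA PP.cur (nearL (h0 * 0) 3 κ (h0 * x) (tbl tKN x) (tbl tL x)) 2 0 2 0 4 (-1) (-1) :=
  (sideN hx hx').nearA (Or.inr rfl) (Or.inr rfl) fun y y' F =>
    nearA_cert (s1 := false) (s2 := false) rfl hκ covN02 covN40 hx hx'
        Pool.Agent.Strip051.G.I1_8_3_16.Tab.C.NA04.c_mm_202 noCut_A noExt_A F trivial trivial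

theorem NA04_mm_203 {κ x : ℝ} (hκ : κ * h0 = ken x) (hx : ((134217728 : ℕ) : ℝ) / S ≤ x) (hx' : x ≤ (((134217728 : ℕ) : ℝ) + (67108864 : ℕ)) / S) :
    TriA PP.cur (nearL (h0 * 0) 3 κ (h0 * x) (tbl tKN x) (tbl tL x)) 2 0 3 0 4 (-1) (-1) :=
  (sideN hx hx').nearA (Or.inr rfl) (Or.inr rfl) fun y y' F =>
    nearA_cert (s1 := false) (s2 := false) rfl hκ covN02 covN40 hx hx'
        Pool.Agent.Strip051.G.I1_8_3_16.Tab.C.NA04.c_mm_203 noCut_A noExt_A F trivial trivial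

theorem NA04_mm_213 {κ x : ℝ} (hκ : κ * h0 = ken x) (hx : ((134217728 : ℕ) : ℝ) / S ≤ x) (hx' : x ≤ (((134217728 : ℕ) : ℝ) + (67108864 : ℕ)) / S) :
    TriA PP.cur (nearL (h0 * 0) 3 κ (h0 * x) (tbl tKN x) (tbl tL x)) 2 1 3 0 4 (-1) (-1) :=
  (sideN hx hx').nearA (Or.inr rfl) (Or.inr rfl) fun y y' F =>
    nearA_cert (s1 := false) (s2 := false) rfl hκ covN02 covN41 hx hx'
        Pool.Agent.Strip051.G.I1_8_3_16.Tab.C.NA04.c_mm_213 noCut_A noExt_A F trivial trivial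

theorem NA04_mm_303 {κ x : ℝ} (hκ : κ * h0 = ken x) (hx : ((134217728 : ℕ) : ℝ) / S ≤ x) (hx' : x ≤ (((134217728 : ℕ) : ℝ) + (67108864 : ℕ)) / S) :
    TriA PP.cur (nearL (h0 * 0) 3 κ (h0 * x) (tbl tKN x) (tbl tL x)) 3 0 3 0 4 (-1) (-1) :=
  triA_j0

theorem NA04_mm_313 {κ x : ℝ} (hκ : κ * h0 = ken x) (hx : ((134217728 : ℕ) : ℝ) / S ≤ x) (hx' : x ≤ (((134217728 : ℕ) : ℝ) + (67108864 : ℕ)) / S) :
    TriA PP.cur (nearL (h0 * 0) 3 κ (h0 * x) (tbl tKN x) (tbl tL x)) 3 1 3 0 4 (-1) (-1) :=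
  triA_j0

theorem NA04 {κ x : ℝ} (hκ : κ * h0 = ken x) (hx : ((134217728 : ℕ) : ℝ) / S ≤ x) (hx' : x ≤ (((134217728 : ℕ) : ℝ) + (67108864 : ℕ)) / S) : AllTA PP.cur (nearL (h0 * 0) 3 κ (h0 * x) (tbl tKN x) (tbl tL x)) 0 4 where
  pp := all17 (Q := fun a b c => TriA PP.cur (nearL (h0 * 0) 3 κ (h0 * x) (tbl tKN x) (tbl tL x)) a b c 0 4 1 1)
    (NA04_pp_001 hκ hx hx') (NA04_pp_011 hκ hx hx') (NA04_pp_012 hκ hx hx') (NA04_pp_022 hκ hx hx') (NA04_pp_023 hκ hx hx') (NA04_pp_033 hκ hx hx') (NA04_pp_101 hκ hx hx') (NA04_pp_102 hκ hx hx') (NA04_pp_112 hκ hx hx') (NA04_pp_113 hκ hx hx') (NA04_pp_123 hκ hx hx') (NA04_pp_133 hκ hx hx') (NA04_pp_202 hκ hx hx') (NA04_pp_203 hκ hx hx') (NA04_pp_213 hκ hx hx') (NA04_pp_303 hκ hx hx') (NA04_pp_313 hκ hx hx')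
  pm := all17 (Q := fun a b c => TriA PP.cur (nearL (h0 * 0) 3 κ (h0 * x) (tbl tKN x) (tbl tL x)) a b c 0 4 1 (-1))
    (NA04_pm_001 hκ hx hx') (NA04_pm_011 hκ hx hx') (NA04_pm_012 hκ hx hx') (NA04_pm_022 hκ hx hx') (NA04_pm_023 hκ hx hx') (NA04_pm_033 hκ hx hx') (NA04_pm_101 hκ hx hx') (NA04_pm_102 hκ hx hx') (NA04_pm_112 hκ hx hx') (NA04_pm_113 hκ hx hx') (NA04_pm_123 hκ hx hx') (NA04_pm_133 hκ hx hx') (NA04_pm_202 hκ hx hx') (NA04_pm_203 hκ hx hx') (NA04_pm_213 hκ hx hx') (NA04_pm_303 hκ hx hx') (NA04_pm_313 hκ hx hx')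
  mm := all17 (Q := fun a b c => TriA PP.cur (nearL (h0 * 0) 3 κ (h0 * x) (tbl tKN x) (tbl tL x)) a b c 0 4 (-1) (-1))
    (NA04_mm_001 hκ hx hx') (NA04_mm_011 hκ hx hx') (NA04_mm_012 hκ hx hx') (NA04_mm_022 hκ hx hx') (NA04_mm_023 hκ hx hx') (NA04_mm_033 hκ hx hx') (NA04_mm_101 hκ hx hx') (NA04_mm_102 hκ hx hx') (NA04_mm_112 hκ hx hx') (NA04_mm_113 hκ hx hx') (NA04_mm_123 hκ hx hx') (NA04_mm_133 hκ hx hx') (NA04_mm_202 hκ hx hx') (NA04_mm_203 hκ hx hx') (NA04_mm_213 hκ hx hx') (NA04_mm_303 hκ hx hx') (NA04_mm_313 hκ hx hx')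

theorem NA05_pp_001 {κ x : ℝ} (hκ : κ * h0 = ken x) (hx : ((134217728 : ℕ) : ℝ) / S ≤ x) (hx' : x ≤ (((134217728 : ℕ) : ℝ) + (67108864 : ℕ)) / S) :
    TriA PP.cur (nearL (h0 * 0) 3 κ (h0 * x) (tbl tKN x) (tbl tL x)) 0 0 1 0 5 1 1 :=
  (sideN hx hx').nearA (Or.inl rfl) (Or.inl rfl) fun y y' F =>
    nearA_cert (s1 := true) (s2 := true) rfl hκ covN00 covN50 hx hx'
        Pool.Agent.Strip051.G.I1_8_3_16.Tab.C.NA05.c_pp_001 noCut_A noExt_A F trivial trivial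

theorem NA05_pp_011 {κ x : ℝ} (hκ : κ * h0 = ken x) (hx : ((134217728 : ℕ) : ℝ) / S ≤ x) (hx' : x ≤ (((134217728 : ℕ) : ℝ) + (67108864 : ℕ)) / S) :
    TriA PP.cur (nearL (h0 * 0) 3 κ (h0 * x) (tbl tKN x) (tbl tL x)) 0 1 1 0 5 1 1 :=
  (sideN hx hx').nearA (Or.inl rfl) (Or.inl rfl) fun y y' F =>
    nearA_cert (s1 := true) (s2 := true) rfl hκ covN00 covN51 hx hx'
        Pool.Agent.Strip051.G.I1_8_3_16.Tab.C.NA05.c_pp_011 noCut_A noExt_A F trivial trivial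

theorem NA05_pp_012 {κ x : ℝ} (hκ : κ * h0 = ken x) (hx : ((134217728 : ℕ) : ℝ) / S ≤ x) (hx' : x ≤ (((134217728 : ℕ) : ℝ) + (67108864 : ℕ)) / S) :
    TriA PP.cur (nearL (h0 * 0) 3 κ (h0 * x) (tbl tKN x) (tbl tL x)) 0 1 2 0 5 1 1 :=
  (sideN hx hx').nearA (Or.inl rfl) (Or.inl rfl) fun y y' F =>
    nearA_cert (s1 := true) (s2 := true) rfl hκ covN00 covN51 hx hx'
        Pool.Agent.Strip051.G.I1_8_3_16.Tab.C.NA05.c_pp_012 noCut_A noExt_A F trivial trivial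

theorem NA05_pp_022 {κ x : ℝ} (hκ : κ * h0 = ken x) (hx : ((134217728 : ℕ) : ℝ) / S ≤ x) (hx' : x ≤ (((134217728 : ℕ) : ℝ) + (67108864 : ℕ)) / S) :
    TriA PP.cur (nearL (h0 * 0) 3 κ (h0 * x) (tbl tKN x) (tbl tL x)) 0 2 2 0 5 1 1 :=
  (sideN hx hx').nearA (Or.inl rfl) (Or.inl rfl) fun y y' F =>
    nearA_cert (s1 := true) (s2 := true) rfl hκ covN00 covN52 hx hx'
        Pool.Agent.Strip051.G.I1_8_3_16.Tab.C.NA05.c_pp_022 noCut_A noExt_A F trivial trivial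

theorem NA05_pp_023 {κ x : ℝ} (hκ : κ * h0 = ken x) (hx : ((134217728 : ℕ) : ℝ) / S ≤ x) (hx' : x ≤ (((134217728 : ℕ) : ℝ) + (67108864 : ℕ)) / S) :
    TriA PP.cur (nearL (h0 * 0) 3 κ (h0 * x) (tbl tKN x) (tbl tL x)) 0 2 3 0 5 1 1 :=
  (sideN hx hx').nearA (Or.inl rfl) (Or.inl rfl) fun y y' F =>
    nearA_cert (s1 := true) (s2 := true) rfl hκ covN00 covN52 hx hx'
        Pool.Agent.Strip051.G.I1_8_3_16.Tab.C.NA05.c_pp_023 noCut_A noExt_A F trivial trivial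

theorem NA05_pp_033 {κ x : ℝ} (hκ : κ * h0 = ken x) (hx : ((134217728 : ℕ) : ℝ) / S ≤ x) (hx' : x ≤ (((134217728 : ℕ) : ℝ) + (67108864 : ℕ)) / S) :
    TriA PP.cur (nearL (h0 * 0) 3 κ (h0 * x) (tbl tKN x) (tbl tL x)) 0 3 3 0 5 1 1 :=
  (sideN hx hx').nearA (Or.inl rfl) (Or.inl rfl) fun y y' F =>
    nearA_cert (s1 := true) (s2 := true) rfl hκ covN00 covN53 hx hx'
        Pool.Agent.Strip051.G.I1_8_3_16.Tab.C.NA05.c_pp_033 noCut_A noExt_A F trivial trivial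

theorem NA05_pp_101 {κ x : ℝ} (hκ : κ * h0 = ken x) (hx : ((134217728 : ℕ) : ℝ) / S ≤ x) (hx' : x ≤ (((134217728 : ℕ) : ℝ) + (67108864 : ℕ)) / S) :
    TriA PP.cur (nearL (h0 * 0) 3 κ (h0 * x) (tbl tKN x) (tbl tL x)) 1 0 1 0 5 1 1 :=
  (sideN hx hx').nearA (Or.inl rfl) (Or.inl rfl) fun y y' F =>
    nearA_cert (s1 := true) (s2 := true) rfl hκ covN01 covN50 hx hx'
        Pool.Agent.Strip051.G.I1_8_3_16.Tab.C.NA05.c_pp_101 noCut_A noExt_A F trivial trivial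

theorem NA05_pp_102 {κ x : ℝ} (hκ : κ * h0 = ken x) (hx : ((134217728 : ℕ) : ℝ) / S ≤ x) (hx' : x ≤ (((134217728 : ℕ) : ℝ) + (67108864 : ℕ)) / S) :
    TriA PP.cur (nearL (h0 * 0) 3 κ (h0 * x) (tbl tKN x) (tbl tL x)) 1 0 2 0 5 1 1 :=
  (sideN hx hx').nearA (Or.inl rfl) (Or.inl rfl) fun y y' F =>
    nearA_cert (s1 := true) (s2 := true) rfl hκ covN01 covN50 hx hx'
        Pool.Agent.Strip051.G.I1_8_3_16.Tab.C.NA05.c_pp_102 noCut_A noExt_A F trivial trivial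

theorem NA05_pp_112 {κ x : ℝ} (hκ : κ * h0 = ken x) (hx : ((134217728 : ℕ) : ℝ) / S ≤ x) (hx' : x ≤ (((134217728 : ℕ) : ℝ) + (67108864 : ℕ)) / S) :
    TriA PP.cur (nearL (h0 * 0) 3 κ (h0 * x) (tbl tKN x) (tbl tL x)) 1 1 2 0 5 1 1 :=
  (sideN hx hx').nearA (Or.inl rfl) (Or.inl rfl) fun y y' F =>
    nearA_cert (s1 := true) (s2 := true) rfl hκ covN01 covN51 hx hx'
        Pool.Agent.Strip051.G.I1_8_3_16.Tab.C.NA05.c_pp_112 noCut_A noExt_A F trivial trivial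

theorem NA05_pp_113 {κ x : ℝ} (hκ : κ * h0 = ken x) (hx : ((134217728 : ℕ) : ℝ) / S ≤ x) (hx' : x ≤ (((134217728 : ℕ) : ℝ) + (67108864 : ℕ)) / S) :
    TriA PP.cur (nearL (h0 * 0) 3 κ (h0 * x) (tbl tKN x) (tbl tL x)) 1 1 3 0 5 1 1 :=
  (sideN hx hx').nearA (Or.inl rfl) (Or.inl rfl) fun y y' F =>
    nearA_cert (s1 := true) (s2 := true) rfl hκ covN01 covN51 hx hx'
        Pool.Agent.Strip051.G.I1_8_3_16.Tab.C.NA05.c_pp_113 noCut_A noExt_A F trivial trivial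

theorem NA05_pp_123 {κ x : ℝ} (hκ : κ * h0 = ken x) (hx : ((134217728 : ℕ) : ℝ) / S ≤ x) (hx' : x ≤ (((134217728 : ℕ) : ℝ) + (67108864 : ℕ)) / S) :
    TriA PP.cur (nearL (h0 * 0) 3 κ (h0 * x) (tbl tKN x) (tbl tL x)) 1 2 3 0 5 1 1 :=
  (sideN hx hx').nearA (Or.inl rfl) (Or.inl rfl) fun y y' F =>
    nearA_cert (s1 := true) (s2 := true) rfl hκ covN01 covN52 hx hx'
        Pool.Agent.Strip051.G.I1_8_3_16.Tab.C.NA05.c_pp_123 noCut_A noExt_A F trivial trivial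

theorem NA05_pp_133 {κ x : ℝ} (hκ : κ * h0 = ken x) (hx : ((134217728 : ℕ) : ℝ) / S ≤ x) (hx' : x ≤ (((134217728 : ℕ) : ℝ) + (67108864 : ℕ)) / S) :
    TriA PP.cur (nearL (h0 * 0) 3 κ (h0 * x) (tbl tKN x) (tbl tL x)) 1 3 3 0 5 1 1 :=
  (sideN hx hx').nearA (Or.inl rfl) (Or.inl rfl) fun y y' F =>
    nearA_cert (s1 := true) (s2 := true) rfl hκ covN01 covN53 hx hx'
        Pool.Agent.Strip051.G.I1_8_3_16.Tab.C.NA05.c_pp_133 noCut_A noExt_A F trivial trivial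

theorem NA05_pp_202 {κ x : ℝ} (hκ : κ * h0 = ken x) (hx : ((134217728 : ℕ) : ℝ) / S ≤ x) (hx' : x ≤ (((134217728 : ℕ) : ℝ) + (67108864 : ℕ)) / S) :
    TriA PP.cur (nearL (h0 * 0) 3 κ (h0 * x) (tbl tKN x) (tbl tL x)) 2 0 2 0 5 1 1 :=
  (sideN hx hx').nearA (Or.inl rfl) (Or.inl rfl) fun y y' F =>
    nearA_cert (s1 := true) (s2 := true) rfl hκ covN02 covN50 hx hx'
        Pool.Agent.Strip051.G.I1_8_3_16.Tab.C.NA05.c_pp_202 noCut_A noExt_A F trivial trivial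

theorem NA05_pp_203 {κ x : ℝ} (hκ : κ * h0 = ken x) (hx : ((134217728 : ℕ) : ℝ) / S ≤ x) (hx' : x ≤ (((134217728 : ℕ) : ℝ) + (67108864 : ℕ)) / S) :
    TriA PP.cur (nearL (h0 * 0) 3 κ (h0 * x) (tbl tKN x) (tbl tL x)) 2 0 3 0 5 1 1 :=
  (sideN hx hx').nearA (Or.inl rfl) (Or.inl rfl) fun y y' F =>
    nearA_cert (s1 := true) (s2 := true) rfl hκ covN02 covN50 hx hx'
        Pool.Agent.Strip051.G.I1_8_3_16.Tab.C.NA05.c_pp_203 noCut_A noExt_A F trivial trivial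

theorem NA05_pp_213 {κ x : ℝ} (hκ : κ * h0 = ken x) (hx : ((134217728 : ℕ) : ℝ) / S ≤ x) (hx' : x ≤ (((134217728 : ℕ) : ℝ) + (67108864 : ℕ)) / S) :
    TriA PP.cur (nearL (h0 * 0) 3 κ (h0 * x) (tbl tKN x) (tbl tL x)) 2 1 3 0 5 1 1 :=
  (sideN hx hx').nearA (Or.inl rfl) (Or.inl rfl) fun y y' F =>
    nearA_cert (s1 := true) (s2 := true) rfl hκ covN02 covN51 hx hx'
        Pool.Agent.Strip051.G.I1_8_3_16.Tab.C.NA05.c_pp_213 noCut_A noExt_A F trivial trivial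

theorem NA05_pp_303 {κ x : ℝ} (hκ : κ * h0 = ken x) (hx : ((134217728 : ℕ) : ℝ) / S ≤ x) (hx' : x ≤ (((134217728 : ℕ) : ℝ) + (67108864 : ℕ)) / S) :
    TriA PP.cur (nearL (h0 * 0) 3 κ (h0 * x) (tbl tKN x) (tbl tL x)) 3 0 3 0 5 1 1 :=
  triA_j0

theorem NA05_pp_313 {κ x : ℝ} (hκ : κ * h0 = ken x) (hx : ((134217728 : ℕ) : ℝ) / S ≤ x) (hx' : x ≤ (((134217728 : ℕ) : ℝ) + (67108864 : ℕ)) / S) :
    TriA PP.cur (nearL (h0 * 0) 3 κ (h0 * x) (tbl tKN x) (tbl tL x)) 3 1 3 0 5 1 1 :=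
  triA_j0

theorem NA05_pm_001 {κ x : ℝ} (hκ : κ * h0 = ken x) (hx : ((134217728 : ℕ) : ℝ) / S ≤ x) (hx' : x ≤ (((134217728 : ℕ) : ℝ) + (67108864 : ℕ)) / S) :
    TriA PP.cur (nearL (h0 * 0) 3 κ (h0 * x) (tbl tKN x) (tbl tL x)) 0 0 1 0 5 1 (-1) :=
  (sideN hx hx').nearA (Or.inl rfl) (Or.inr rfl) fun y y' F =>
    nearA_cert (s1 := true) (s2 := false) rfl hκ covN00 covN50 hx hx'
        Pool.Agent.Strip051.G.I1_8_3_16.Tab.C.NA05.c_pm_001 noCut_A noExt_A F trivial trivial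

theorem NA05_pm_011 {κ x : ℝ} (hκ : κ * h0 = ken x) (hx : ((134217728 : ℕ) : ℝ) / S ≤ x) (hx' : x ≤ (((134217728 : ℕ) : ℝ) + (67108864 : ℕ)) / S) :
    TriA PP.cur (nearL (h0 * 0) 3 κ (h0 * x) (tbl tKN x) (tbl tL x)) 0 1 1 0 5 1 (-1) :=
  (sideN hx hx').nearA (Or.inl rfl) (Or.inr rfl) fun y y' F =>
    nearA_cert (s1 := true) (s2 := false) rfl hκ covN00 covN51 hx hx'
        Pool.Agent.Strip051.G.I1_8_3_16.Tab.C.NA05.c_pm_011 (cutA_cons (Pool.Agent.Strip051.G.I1_8_3_16.Tab.altN_A011R_05 hκ hx hx') cutA_nil) noExt_A F trivial trivial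

theorem NA05_pm_012 {κ x : ℝ} (hκ : κ * h0 = ken x) (hx : ((134217728 : ℕ) : ℝ) / S ≤ x) (hx' : x ≤ (((134217728 : ℕ) : ℝ) + (67108864 : ℕ)) / S) :
    TriA PP.cur (nearL (h0 * 0) 3 κ (h0 * x) (tbl tKN x) (tbl tL x)) 0 1 2 0 5 1 (-1) :=
  (sideN hx hx').nearA (Or.inl rfl) (Or.inr rfl) fun y y' F =>
    nearA_cert (s1 := true) (s2 := false) rfl hκ covN00 covN51 hx hx'
        Pool.Agent.Strip051.G.I1_8_3_16.Tab.C.NA05.c_pm_012 (cutA_cons (Pool.Agent.Strip051.G.I1_8_3_16.Tab.altN_A012R_05 hκ hx hx') cutA_nil) noExt_A F trivial trivial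

theorem NA05_pm_022 {κ x : ℝ} (hκ : κ * h0 = ken x) (hx : ((134217728 : ℕ) : ℝ) / S ≤ x) (hx' : x ≤ (((134217728 : ℕ) : ℝ) + (67108864 : ℕ)) / S) :
    TriA PP.cur (nearL (h0 * 0) 3 κ (h0 * x) (tbl tKN x) (tbl tL x)) 0 2 2 0 5 1 (-1) :=
  (sideN hx hx').nearA (Or.inl rfl) (Or.inr rfl) fun y y' F =>
    nearA_cert (s1 := true) (s2 := false) rfl hκ covN00 covN52 hx hx'
        Pool.Agent.Strip051.G.I1_8_3_16.Tab.C.NA05.c_pm_022 (cutA_cons (Pool.Agent.Strip051.G.I1_8_3_16.Tab.altN_A022R_05 hκ hx hx') cutA_nil) noExt_A F trivial trivial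

theorem NA05_pm_023 {κ x : ℝ} (hκ : κ * h0 = ken x) (hx : ((134217728 : ℕ) : ℝ) / S ≤ x) (hx' : x ≤ (((134217728 : ℕ) : ℝ) + (67108864 : ℕ)) / S) :
    TriA PP.cur (nearL (h0 * 0) 3 κ (h0 * x) (tbl tKN x) (tbl tL x)) 0 2 3 0 5 1 (-1) :=
  (sideN hx hx').nearA (Or.inl rfl) (Or.inr rfl) fun y y' F =>
    nearA_cert (s1 := true) (s2 := false) rfl hκ covN00 covN52 hx hx'
        Pool.Agent.Strip051.G.I1_8_3_16.Tab.C.NA05.c_pm_023 noCut_A noExt_A F trivial trivial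

theorem NA05_pm_033 {κ x : ℝ} (hκ : κ * h0 = ken x) (hx : ((134217728 : ℕ) : ℝ) / S ≤ x) (hx' : x ≤ (((134217728 : ℕ) : ℝ) + (67108864 : ℕ)) / S) :
    TriA PP.cur (nearL (h0 * 0) 3 κ (h0 * x) (tbl tKN x) (tbl tL x)) 0 3 3 0 5 1 (-1) :=
  (sideN hx hx').nearA (Or.inl rfl) (Or.inr rfl) fun y y' F =>
    nearA_cert (s1 := true) (s2 := false) rfl hκ covN00 covN53 hx hx'
        Pool.Agent.Strip051.G.I1_8_3_16.Tab.C.NA05.c_pm_033 noCut_A noExt_A F trivial trivial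

theorem NA05_pm_101 {κ x : ℝ} (hκ : κ * h0 = ken x) (hx : ((134217728 : ℕ) : ℝ) / S ≤ x) (hx' : x ≤ (((134217728 : ℕ) : ℝ) + (67108864 : ℕ)) / S) :
    TriA PP.cur (nearL (h0 * 0) 3 κ (h0 * x) (tbl tKN x) (tbl tL x)) 1 0 1 0 5 1 (-1) :=
  (sideN hx hx').nearA (Or.inl rfl) (Or.inr rfl) fun y y' F =>
    nearA_cert (s1 := true) (s2 := false) rfl hκ covN01 covN50 hx hx'
        Pool.Agent.Strip051.G.I1_8_3_16.Tab.C.NA05.c_pm_101 noCut_A noExt_A F trivial trivial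

theorem NA05_pm_102 {κ x : ℝ} (hκ : κ * h0 = ken x) (hx : ((134217728 : ℕ) : ℝ) / S ≤ x) (hx' : x ≤ (((134217728 : ℕ) : ℝ) + (67108864 : ℕ)) / S) :
    TriA PP.cur (nearL (h0 * 0) 3 κ (h0 * x) (tbl tKN x) (tbl tL x)) 1 0 2 0 5 1 (-1) :=
  (sideN hx hx').nearA (Or.inl rfl) (Or.inr rfl) fun y y' F =>
    nearA_cert (s1 := true) (s2 := false) rfl hκ covN01 covN50 hx hx'
        Pool.Agent.Strip051.G.I1_8_3_16.Tab.C.NA05.c_pm_102 noCut_A noExt_A F trivial trivial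

theorem NA05_pm_112 {κ x : ℝ} (hκ : κ * h0 = ken x) (hx : ((134217728 : ℕ) : ℝ) / S ≤ x) (hx' : x ≤ (((134217728 : ℕ) : ℝ) + (67108864 : ℕ)) / S) :
    TriA PP.cur (nearL (h0 * 0) 3 κ (h0 * x) (tbl tKN x) (tbl tL x)) 1 1 2 0 5 1 (-1) :=
  (sideN hx hx').nearA (Or.inl rfl) (Or.inr rfl) fun y y' F =>
    nearA_cert (s1 := true) (s2 := false) rfl hκ covN01 covN51 hx hx'
        Pool.Agent.Strip051.G.I1_8_3_16.Tab.C.NA05.c_pm_112 noCut_A noExt_A F trivial trivial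

theorem NA05_pm_113 {κ x : ℝ} (hκ : κ * h0 = ken x) (hx : ((134217728 : ℕ) : ℝ) / S ≤ x) (hx' : x ≤ (((134217728 : ℕ) : ℝ) + (67108864 : ℕ)) / S) :
    TriA PP.cur (nearL (h0 * 0) 3 κ (h0 * x) (tbl tKN x) (tbl tL x)) 1 1 3 0 5 1 (-1) :=
  (sideN hx hx').nearA (Or.inl rfl) (Or.inr rfl) fun y y' F =>
    nearA_cert (s1 := true) (s2 := false) rfl hκ covN01 covN51 hx hx'
        Pool.Agent.Strip051.G.I1_8_3_16.Tab.C.NA05.c_pm_113 noCut_A noExt_A F trivial trivial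

theorem NA05_pm_123 {κ x : ℝ} (hκ : κ * h0 = ken x) (hx : ((134217728 : ℕ) : ℝ) / S ≤ x) (hx' : x ≤ (((134217728 : ℕ) : ℝ) + (67108864 : ℕ)) / S) :
    TriA PP.cur (nearL (h0 * 0) 3 κ (h0 * x) (tbl tKN x) (tbl tL x)) 1 2 3 0 5 1 (-1) :=
  (sideN hx hx').nearA (Or.inl rfl) (Or.inr rfl) fun y y' F =>
    nearA_cert (s1 := true) (s2 := false) rfl hκ covN01 covN52 hx hx'
        Pool.Agent.Strip051.G.I1_8_3_16.Tab.C.NA05.c_pm_123 noCut_A noExt_A F trivial trivial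

theorem NA05_pm_133 {κ x : ℝ} (hκ : κ * h0 = ken x) (hx : ((134217728 : ℕ) : ℝ) / S ≤ x) (hx' : x ≤ (((134217728 : ℕ) : ℝ) + (67108864 : ℕ)) / S) :
    TriA PP.cur (nearL (h0 * 0) 3 κ (h0 * x) (tbl tKN x) (tbl tL x)) 1 3 3 0 5 1 (-1) :=
  (sideN hx hx').nearA (Or.inl rfl) (Or.inr rfl) fun y y' F =>
    nearA_cert (s1 := true) (s2 := false) rfl hκ covN01 covN53 hx hx'
        Pool.Agent.Strip051.G.I1_8_3_16.Tab.C.NA05.c_pm_133 noCut_A noExt_A F trivial trivial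

theorem NA05_pm_202 {κ x : ℝ} (hκ : κ * h0 = ken x) (hx : ((134217728 : ℕ) : ℝ) / S ≤ x) (hx' : x ≤ (((134217728 : ℕ) : ℝ) + (67108864 : ℕ)) / S) :
    TriA PP.cur (nearL (h0 * 0) 3 κ (h0 * x) (tbl tKN x) (tbl tL x)) 2 0 2 0 5 1 (-1) :=
  (sideN hx hx').nearA (Or.inl rfl) (Or.inr rfl) fun y y' F =>
    nearA_cert (s1 := true) (s2 := false) rfl hκ covN02 covN50 hx hx'
        Pool.Agent.Strip051.G.I1_8_3_16.Tab.C.NA05.c_pm_202 noCut_A noExt_A F trivial trivial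

theorem NA05_pm_203 {κ x : ℝ} (hκ : κ * h0 = ken x) (hx : ((134217728 : ℕ) : ℝ) / S ≤ x) (hx' : x ≤ (((134217728 : ℕ) : ℝ) + (67108864 : ℕ)) / S) :
    TriA PP.cur (nearL (h0 * 0) 3 κ (h0 * x) (tbl tKN x) (tbl tL x)) 2 0 3 0 5 1 (-1) :=
  (sideN hx hx').nearA (Or.inl rfl) (Or.inr rfl) fun y y' F =>
    nearA_cert (s1 := true) (s2 := false) rfl hκ covN02 covN50 hx hx'
        Pool.Agent.Strip051.G.I1_8_3_16.Tab.C.NA05.c_pm_203 noCut_A noExt_A F trivial trivial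

theorem NA05_pm_213 {κ x : ℝ} (hκ : κ * h0 = ken x) (hx : ((134217728 : ℕ) : ℝ) / S ≤ x) (hx' : x ≤ (((134217728 : ℕ) : ℝ) + (67108864 : ℕ)) / S) :
    TriA PP.cur (nearL (h0 * 0) 3 κ (h0 * x) (tbl tKN x) (tbl tL x)) 2 1 3 0 5 1 (-1) :=
  (sideN hx hx').nearA (Or.inl rfl) (Or.inr rfl) fun y y' F =>
    nearA_cert (s1 := true) (s2 := false) rfl hκ covN02 covN51 hx hx'
        Pool.Agent.Strip051.G.I1_8_3_16.Tab.C.NA05.c_pm_213 noCut_A noExt_A F trivial trivial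

theorem NA05_pm_303 {κ x : ℝ} (hκ : κ * h0 = ken x) (hx : ((134217728 : ℕ) : ℝ) / S ≤ x) (hx' : x ≤ (((134217728 : ℕ) : ℝ) + (67108864 : ℕ)) / S) :
    TriA PP.cur (nearL (h0 * 0) 3 κ (h0 * x) (tbl tKN x) (tbl tL x)) 3 0 3 0 5 1 (-1) :=
  triA_j0

theorem NA05_pm_313 {κ x : ℝ} (hκ : κ * h0 = ken x) (hx : ((134217728 : ℕ) : ℝ) / S ≤ x) (hx' : x ≤ (((134217728 : ℕ) : ℝ) + (67108864 : ℕ)) / S) :
    TriA PP.cur (nearL (h0 * 0) 3 κ (h0 * x) (tbl tKN x) (tbl tL x)) 3 1 3 0 5 1 (-1) :=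
  triA_j0

theorem NA05_mm_001 {κ x : ℝ} (hκ : κ * h0 = ken x) (hx : ((134217728 : ℕ) : ℝ) / S ≤ x) (hx' : x ≤ (((134217728 : ℕ) : ℝ) + (67108864 : ℕ)) / S) :
    TriA PP.cur (nearL (h0 * 0) 3 κ (h0 * x) (tbl tKN x) (tbl tL x)) 0 0 1 0 5 (-1) (-1) :=
  (sideN hx hx').nearA (Or.inr rfl) (Or.inr rfl) fun y y' F =>
    nearA_cert (s1 := false) (s2 := false) rfl hκ covN00 covN50 hx hx'
        Pool.Agent.Strip051.G.I1_8_3_16.Tab.C.NA05.c_mm_001 noCut_A noExt_A F trivial trivial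

theorem NA05_mm_011 {κ x : ℝ} (hκ : κ * h0 = ken x) (hx : ((134217728 : ℕ) : ℝ) / S ≤ x) (hx' : x ≤ (((134217728 : ℕ) : ℝ) + (67108864 : ℕ)) / S) :
    TriA PP.cur (nearL (h0 * 0) 3 κ (h0 * x) (tbl tKN x) (tbl tL x)) 0 1 1 0 5 (-1) (-1) :=
  (sideN hx hx').nearA (Or.inr rfl) (Or.inr rfl) fun y y' F =>
    nearA_cert (s1 := false) (s2 := false) rfl hκ covN00 covN51 hx hx'
        Pool.Agent.Strip051.G.I1_8_3_16.Tab.C.NA05.c_mm_011 noCut_A noExt_A F trivial trivial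

theorem NA05_mm_012 {κ x : ℝ} (hκ : κ * h0 = ken x) (hx : ((134217728 : ℕ) : ℝ) / S ≤ x) (hx' : x ≤ (((134217728 : ℕ) : ℝ) + (67108864 : ℕ)) / S) :
    TriA PP.cur (nearL (h0 * 0) 3 κ (h0 * x) (tbl tKN x) (tbl tL x)) 0 1 2 0 5 (-1) (-1) :=
  (sideN hx hx').nearA (Or.inr rfl) (Or.inr rfl) fun y y' F =>
    nearA_cert (s1 := false) (s2 := false) rfl hκ covN00 covN51 hx hx'
        Pool.Agent.Strip051.G.I1_8_3_16.Tab.C.NA05.c_mm_012 noCut_A noExt_A F trivial trivial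

theorem NA05_mm_022 {κ x : ℝ} (hκ : κ * h0 = ken x) (hx : ((134217728 : ℕ) : ℝ) / S ≤ x) (hx' : x ≤ (((134217728 : ℕ) : ℝ) + (67108864 : ℕ)) / S) :
    TriA PP.cur (nearL (h0 * 0) 3 κ (h0 * x) (tbl tKN x) (tbl tL x)) 0 2 2 0 5 (-1) (-1) :=
  (sideN hx hx').nearA (Or.inr rfl) (Or.inr rfl) fun y y' F =>
    nearA_cert (s1 := false) (s2 := false) rfl hκ covN00 covN52 hx hx'
        Pool.Agent.Strip051.G.I1_8_3_16.Tab.C.NA05.c_mm_022 noCut_A noExt_A F trivial trivial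

theorem NA05_mm_023 {κ x : ℝ} (hκ : κ * h0 = ken x) (hx : ((134217728 : ℕ) : ℝ) / S ≤ x) (hx' : x ≤ (((134217728 : ℕ) : ℝ) + (67108864 : ℕ)) / S) :
    TriA PP.cur (nearL (h0 * 0) 3 κ (h0 * x) (tbl tKN x) (tbl tL x)) 0 2 3 0 5 (-1) (-1) :=
  (sideN hx hx').nearA (Or.inr rfl) (Or.inr rfl) fun y y' F =>
    nearA_cert (s1 := false) (s2 := false) rfl hκ covN00 covN52 hx hx'
        Pool.Agent.Strip051.G.I1_8_3_16.Tab.C.NA05.c_mm_023 noCut_A noExt_A F trivial trivial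

theorem NA05_mm_033 {κ x : ℝ} (hκ : κ * h0 = ken x) (hx : ((134217728 : ℕ) : ℝ) / S ≤ x) (hx' : x ≤ (((134217728 : ℕ) : ℝ) + (67108864 : ℕ)) / S) :
    TriA PP.cur (nearL (h0 * 0) 3 κ (h0 * x) (tbl tKN x) (tbl tL x)) 0 3 3 0 5 (-1) (-1) :=
  (sideN hx hx').nearA (Or.inr rfl) (Or.inr rfl) fun y y' F =>
    nearA_cert (s1 := false) (s2 := false) rfl hκ covN00 covN53 hx hx'
        Pool.Agent.Strip051.G.I1_8_3_16.Tab.C.NA05.c_mm_033 noCut_A noExt_A F trivial trivial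

theorem NA05_mm_101 {κ x : ℝ} (hκ : κ * h0 = ken x) (hx : ((134217728 : ℕ) : ℝ) / S ≤ x) (hx' : x ≤ (((134217728 : ℕ) : ℝ) + (67108864 : ℕ)) / S) :
    TriA PP.cur (nearL (h0 * 0) 3 κ (h0 * x) (tbl tKN x) (tbl tL x)) 1 0 1 0 5 (-1) (-1) :=
  (sideN hx hx').nearA (Or.inr rfl) (Or.inr rfl) fun y y' F =>
    nearA_cert (s1 := false) (s2 := false) rfl hκ covN01 covN50 hx hx'
        Pool.Agent.Strip051.G.I1_8_3_16.Tab.C.NA05.c_mm_101 noCut_A noExt_A F trivial trivial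

theorem NA05_mm_102 {κ x : ℝ} (hκ : κ * h0 = ken x) (hx : ((134217728 : ℕ) : ℝ) / S ≤ x) (hx' : x ≤ (((134217728 : ℕ) : ℝ) + (67108864 : ℕ)) / S) :
    TriA PP.cur (nearL (h0 * 0) 3 κ (h0 * x) (tbl tKN x) (tbl tL x)) 1 0 2 0 5 (-1) (-1) :=
  (sideN hx hx').nearA (Or.inr rfl) (Or.inr rfl) fun y y' F =>
    nearA_cert (s1 := false) (s2 := false) rfl hκ covN01 covN50 hx hx'
        Pool.Agent.Strip051.G.I1_8_3_16.Tab.C.NA05.c_mm_102 noCut_A noExt_A F trivial trivial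

theorem NA05_mm_112 {κ x : ℝ} (hκ : κ * h0 = ken x) (hx : ((134217728 : ℕ) : ℝ) / S ≤ x) (hx' : x ≤ (((134217728 : ℕ) : ℝ) + (67108864 : ℕ)) / S) :
    TriA PP.cur (nearL (h0 * 0) 3 κ (h0 * x) (tbl tKN x) (tbl tL x)) 1 1 2 0 5 (-1) (-1) :=
  (sideN hx hx').nearA (Or.inr rfl) (Or.inr rfl) fun y y' F =>
    nearA_cert (s1 := false) (s2 := false) rfl hκ covN01 covN51 hx hx'
        Pool.Agent.Strip051.G.I1_8_3_16.Tab.C.NA05.c_mm_112 noCut_A noExt_A F trivial trivial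

theorem NA05_mm_113 {κ x : ℝ} (hκ : κ * h0 = ken x) (hx : ((134217728 : ℕ) : ℝ) / S ≤ x) (hx' : x ≤ (((134217728 : ℕ) : ℝ) + (67108864 : ℕ)) / S) :
    TriA PP.cur (nearL (h0 * 0) 3 κ (h0 * x) (tbl tKN x) (tbl tL x)) 1 1 3 0 5 (-1) (-1) :=
  (sideN hx hx').nearA (Or.inr rfl) (Or.inr rfl) fun y y' F =>
    nearA_cert (s1 := false) (s2 := false) rfl hκ covN01 covN51 hx hx'
        Pool.Agent.Strip051.G.I1_8_3_16.Tab.C.NA05.c_mm_113 noCut_A noExt_A F trivial trivial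

theorem NA05_mm_123 {κ x : ℝ} (hκ : κ * h0 = ken x) (hx : ((134217728 : ℕ) : ℝ) / S ≤ x) (hx' : x ≤ (((134217728 : ℕ) : ℝ) + (67108864 : ℕ)) / S) :
    TriA PP.cur (nearL (h0 * 0) 3 κ (h0 * x) (tbl tKN x) (tbl tL x)) 1 2 3 0 5 (-1) (-1) :=
  (sideN hx hx').nearA (Or.inr rfl) (Or.inr rfl) fun y y' F =>
    nearA_cert (s1 := false) (s2 := false) rfl hκ covN01 covN52 hx hx'
        Pool.Agent.Strip051.G.I1_8_3_16.Tab.C.NA05.c_mm_123 noCut_A noExt_A F trivial trivial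

theorem NA05_mm_133 {κ x : ℝ} (hκ : κ * h0 = ken x) (hx : ((134217728 : ℕ) : ℝ) / S ≤ x) (hx' : x ≤ (((134217728 : ℕ) : ℝ) + (67108864 : ℕ)) / S) :
    TriA PP.cur (nearL (h0 * 0) 3 κ (h0 * x) (tbl tKN x) (tbl tL x)) 1 3 3 0 5 (-1) (-1) :=
  (sideN hx hx').nearA (Or.inr rfl) (Or.inr rfl) fun y y' F =>
    nearA_cert (s1 := false) (s2 := false) rfl hκ covN01 covN53 hx hx'
        Pool.Agent.Strip051.G.I1_8_3_16.Tab.C.NA05.c_mm_133 noCut_A noExt_A F trivial trivial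

theorem NA05_mm_202 {κ x : ℝ} (hκ : κ * h0 = ken x) (hx : ((134217728 : ℕ) : ℝ) / S ≤ x) (hx' : x ≤ (((134217728 : ℕ) : ℝ) + (67108864 : ℕ)) / S) :
    TriA PP.cur (nearL (h0 * 0) 3 κ (h0 * x) (tbl tKN x) (tbl tL x)) 2 0 2 0 5 (-1) (-1) :=
  (sideN hx hx').nearA (Or.inr rfl) (Or.inr rfl) fun y y' F =>
    nearA_cert (s1 := false) (s2 := false) rfl hκ covN02 covN50 hx hx'
        Pool.Agent.Strip051.G.I1_8_3_16.Tab.C.NA05.c_mm_202 noCut_A noExt_A F trivial trivial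

theorem NA05_mm_203 {κ x : ℝ} (hκ : κ * h0 = ken x) (hx : ((134217728 : ℕ) : ℝ) / S ≤ x) (hx' : x ≤ (((134217728 : ℕ) : ℝ) + (67108864 : ℕ)) / S) :
    TriA PP.cur (nearL (h0 * 0) 3 κ (h0 * x) (tbl tKN x) (tbl tL x)) 2 0 3 0 5 (-1) (-1) :=
  (sideN hx hx').nearA (Or.inr rfl) (Or.inr rfl) fun y y' F =>
    nearA_cert (s1 := false) (s2 := false) rfl hκ covN02 covN50 hx hx'
        Pool.Agent.Strip051.G.I1_8_3_16.Tab.C.NA05.c_mm_203 noCut_A noExt_A F trivial trivial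

theorem NA05_mm_213 {κ x : ℝ} (hκ : κ * h0 = ken x) (hx : ((134217728 : ℕ) : ℝ) / S ≤ x) (hx' : x ≤ (((134217728 : ℕ) : ℝ) + (67108864 : ℕ)) / S) :
    TriA PP.cur (nearL (h0 * 0) 3 κ (h0 * x) (tbl tKN x) (tbl tL x)) 2 1 3 0 5 (-1) (-1) :=
  (sideN hx hx').nearA (Or.inr rfl) (Or.inr rfl) fun y y' F =>
    nearA_cert (s1 := false) (s2 := false) rfl hκ covN02 covN51 hx hx'
        Pool.Agent.Strip051.G.I1_8_3_16.Tab.C.NA05.c_mm_213 noCut_A noExt_A F trivial trivial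

theorem NA05_mm_303 {κ x : ℝ} (hκ : κ * h0 = ken x) (hx : ((134217728 : ℕ) : ℝ) / S ≤ x) (hx' : x ≤ (((134217728 : ℕ) : ℝ) + (67108864 : ℕ)) / S) :
    TriA PP.cur (nearL (h0 * 0) 3 κ (h0 * x) (tbl tKN x) (tbl tL x)) 3 0 3 0 5 (-1) (-1) :=
  triA_j0

theorem NA05_mm_313 {κ x : ℝ} (hκ : κ * h0 = ken x) (hx : ((134217728 : ℕ) : ℝ) / S ≤ x) (hx' : x ≤ (((134217728 : ℕ) : ℝ) + (67108864 : ℕ)) / S) :
    TriA PP.cur (nearL (h0 * 0) 3 κ (h0 * x) (tbl tKN x) (tbl tL x)) 3 1 3 0 5 (-1) (-1) :=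
  triA_j0

theorem NA05 {κ x : ℝ} (hκ : κ * h0 = ken x) (hx : ((134217728 : ℕ) : ℝ) / S ≤ x) (hx' : x ≤ (((134217728 : ℕ) : ℝ) + (67108864 : ℕ)) / S) : AllTA PP.cur (nearL (h0 * 0) 3 κ (h0 * x) (tbl tKN x) (tbl tL x)) 0 5 where
  pp := all17 (Q := fun a b c => TriA PP.cur (nearL (h0 * 0) 3 κ (h0 * x) (tbl tKN x) (tbl tL x)) a b c 0 5 1 1)
    (NA05_pp_001 hκ hx hx') (NA05_pp_011 hκ hx hx') (NA05_pp_012 hκ hx hx') (NA05_pp_022 hκ hx hx') (NA05_pp_023 hκ hx hx') (NA05_pp_033 hκ hx hx') (NA05_pp_101 hκ hx hx') (NA05_pp_102 hκ hx hx') (NA05_pp_112 hκ hx hx') (NA05_pp_113 hκ hx hx') (NA05_pp_123 hκ hx hx') (NA05_pp_133 hκ hx hx') (NA05_pp_202 hκ hx hx') (NA05_pp_203 hκ hx hx') (NA05_pp_213 hκ hx hx') (NA05_pp_303 hκ hx hx') (NA05_pp_313 hκ hx hx')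
  pm := all17 (Q := fun a b c => TriA PP.cur (nearL (h0 * 0) 3 κ (h0 * x) (tbl tKN x) (tbl tL x)) a b c 0 5 1 (-1))
    (NA05_pm_001 hκ hx hx') (NA05_pm_011 hκ hx hx') (NA05_pm_012 hκ hx hx') (NA05_pm_022 hκ hx hx') (NA05_pm_023 hκ hx hx') (NA05_pm_033 hκ hx hx') (NA05_pm_101 hκ hx hx') (NA05_pm_102 hκ hx hx') (NA05_pm_112 hκ hx hx') (NA05_pm_113 hκ hx hx') (NA05_pm_123 hκ hx hx') (NA05_pm_133 hκ hx hx') (NA05_pm_202 hκ hx hx') (NA05_pm_203 hκ hx hx') (NA05_pm_213 hκ hx hx') (NA05_pm_303 hκ hx hx') (NA05_pm_313 hκ hx hx')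
  mm := all17 (Q := fun a b c => TriA PP.cur (nearL (h0 * 0) 3 κ (h0 * x) (tbl tKN x) (tbl tL x)) a b c 0 5 (-1) (-1))
    (NA05_mm_001 hκ hx hx') (NA05_mm_011 hκ hx hx') (NA05_mm_012 hκ hx hx') (NA05_mm_022 hκ hx hx') (NA05_mm_023 hκ hx hx') (NA05_mm_033 hκ hx hx') (NA05_mm_101 hκ hx hx') (NA05_mm_102 hκ hx hx') (NA05_mm_112 hκ hx hx') (NA05_mm_113 hκ hx hx') (NA05_mm_123 hκ hx hx') (NA05_mm_133 hκ hx hx') (NA05_mm_202 hκ hx hx') (NA05_mm_203 hκ hx hx') (NA05_mm_213 hκ hx hx') (NA05_mm_303 hκ hx hx') (NA05_mm_313 hκ hx hx')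

theorem NA11_pp_001 {κ x : ℝ} (hκ : κ * h0 = ken x) (hx : ((134217728 : ℕ) : ℝ) / S ≤ x) (hx' : x ≤ (((134217728 : ℕ) : ℝ) + (67108864 : ℕ)) / S) :
    TriA PP.cur (nearL (h0 * 0) 3 κ (h0 * x) (tbl tKN x) (tbl tL x)) 0 0 1 1 1 1 1 :=
  (sideN hx hx').nearA (Or.inl rfl) (Or.inl rfl) fun y y' F =>
    nearA_cert (s1 := true) (s2 := true) rfl hκ covN10 covN10 hx hx'
        Pool.Agent.Strip051.G.I1_8_3_16.Tab.C.NA11.c_pp_001 noCut_A noExt_A F trivial trivial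

theorem NA11_pp_011 {κ x : ℝ} (hκ : κ * h0 = ken x) (hx : ((134217728 : ℕ) : ℝ) / S ≤ x) (hx' : x ≤ (((134217728 : ℕ) : ℝ) + (67108864 : ℕ)) / S) :
    TriA PP.cur (nearL (h0 * 0) 3 κ (h0 * x) (tbl tKN x) (tbl tL x)) 0 1 1 1 1 1 1 :=
  (sideN hx hx').nearA (Or.inl rfl) (Or.inl rfl) fun y y' F =>
    nearA_cert (s1 := true) (s2 := true) rfl hκ covN10 covN11 hx hx'
        Pool.Agent.Strip051.G.I1_8_3_16.Tab.C.NA11.c_pp_011 noCut_A noExt_A F trivial trivial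

theorem NA11_pp_012 {κ x : ℝ} (hκ : κ * h0 = ken x) (hx : ((134217728 : ℕ) : ℝ) / S ≤ x) (hx' : x ≤ (((134217728 : ℕ) : ℝ) + (67108864 : ℕ)) / S) :
    TriA PP.cur (nearL (h0 * 0) 3 κ (h0 * x) (tbl tKN x) (tbl tL x)) 0 1 2 1 1 1 1 :=
  (sideN hx hx').nearA (Or.inl rfl) (Or.inl rfl) fun y y' F =>
    nearA_cert (s1 := true) (s2 := true) rfl hκ covN10 covN11 hx hx'
        Pool.Agent.Strip051.G.I1_8_3_16.Tab.C.NA11.c_pp_012 noCut_A noExt_A F trivial trivial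

theorem NA11_pp_022 {κ x : ℝ} (hκ : κ * h0 = ken x) (hx : ((134217728 : ℕ) : ℝ) / S ≤ x) (hx' : x ≤ (((134217728 : ℕ) : ℝ) + (67108864 : ℕ)) / S) :
    TriA PP.cur (nearL (h0 * 0) 3 κ (h0 * x) (tbl tKN x) (tbl tL x)) 0 2 2 1 1 1 1 :=
  (sideN hx hx').nearA (Or.inl rfl) (Or.inl rfl) fun y y' F =>
    (lt_or_ge (h0 * y') 1).elim
      (fun g => nearA_cert (s1 := true) (s2 := true) rfl hκ covN10 covN12a hx hx'
        Pool.Agent.Strip051.G.I1_8_3_16.Tab.C.NA11.c_pp_022_a (cutA_cons (Pool.Agent.Strip051.G.I1_8_3_16.Tab.altN_A022L_11 hκ hx hx') cutA_nil) noExt_A F trivial g)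
      (fun g => nearA_cert (s1 := true) (s2 := true) rfl hκ covN10 covN12b hx hx'
        Pool.Agent.Strip051.G.I1_8_3_16.Tab.C.NA11.c_pp_022_b (cutA_cons (Pool.Agent.Strip051.G.I1_8_3_16.Tab.altN_A022L_11 hκ hx hx') cutA_nil) noExt_A F trivial g)

theorem NA11_pp_023 {κ x : ℝ} (hκ : κ * h0 = ken x) (hx : ((134217728 : ℕ) : ℝ) / S ≤ x) (hx' : x ≤ (((134217728 : ℕ) : ℝ) + (67108864 : ℕ)) / S) :
    TriA PP.cur (nearL (h0 * 0) 3 κ (h0 * x) (tbl tKN x) (tbl tL x)) 0 2 3 1 1 1 1 :=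
  (sideN hx hx').nearA (Or.inl rfl) (Or.inl rfl) fun y y' F =>
    (lt_or_ge (h0 * y') 1).elim
      (fun g => nearA_cert (s1 := true) (s2 := true) rfl hκ covN10 covN12a hx hx'
        Pool.Agent.Strip051.G.I1_8_3_16.Tab.C.NA11.c_pp_023_a noCut_A noExt_A F trivial g)
      (fun g => nearA_cert (s1 := true) (s2 := true) rfl hκ covN10 covN12b hx hx'
        Pool.Agent.Strip051.G.I1_8_3_16.Tab.C.NA11.c_pp_023_b noCut_A noExt_A F trivial g)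

theorem NA11_pp_033 {κ x : ℝ} (hκ : κ * h0 = ken x) (hx : ((134217728 : ℕ) : ℝ) / S ≤ x) (hx' : x ≤ (((134217728 : ℕ) : ℝ) + (67108864 : ℕ)) / S) :
    TriA PP.cur (nearL (h0 * 0) 3 κ (h0 * x) (tbl tKN x) (tbl tL x)) 0 3 3 1 1 1 1 :=
  (sideN hx hx').nearA (Or.inl rfl) (Or.inl rfl) fun y y' F =>
    nearA_cert (s1 := true) (s2 := true) rfl hκ covN10 covN13 hx hx'
        Pool.Agent.Strip051.G.I1_8_3_16.Tab.C.NA11.c_pp_033 noCut_A noExt_A F trivial trivial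

theorem NA11_pp_101 {κ x : ℝ} (hκ : κ * h0 = ken x) (hx : ((134217728 : ℕ) : ℝ) / S ≤ x) (hx' : x ≤ (((134217728 : ℕ) : ℝ) + (67108864 : ℕ)) / S) :
    TriA PP.cur (nearL (h0 * 0) 3 κ (h0 * x) (tbl tKN x) (tbl tL x)) 1 0 1 1 1 1 1 :=
  (sideN hx hx').nearA (Or.inl rfl) (Or.inl rfl) fun y y' F =>
    nearA_cert (s1 := true) (s2 := true) rfl hκ covN11 covN10 hx hx'
        Pool.Agent.Strip051.G.I1_8_3_16.Tab.C.NA11.c_pp_101 noCut_A noExt_A F trivial trivial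

theorem NA11_pp_102 {κ x : ℝ} (hκ : κ * h0 = ken x) (hx : ((134217728 : ℕ) : ℝ) / S ≤ x) (hx' : x ≤ (((134217728 : ℕ) : ℝ) + (67108864 : ℕ)) / S) :
    TriA PP.cur (nearL (h0 * 0) 3 κ (h0 * x) (tbl tKN x) (tbl tL x)) 1 0 2 1 1 1 1 :=
  (sideN hx hx').nearA (Or.inl rfl) (Or.inl rfl) fun y y' F =>
    nearA_cert (s1 := true) (s2 := true) rfl hκ covN11 covN10 hx hx'
        Pool.Agent.Strip051.G.I1_8_3_16.Tab.C.NA11.c_pp_102 noCut_A noExt_A F trivial trivial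

theorem NA11_pp_112 {κ x : ℝ} (hκ : κ * h0 = ken x) (hx : ((134217728 : ℕ) : ℝ) / S ≤ x) (hx' : x ≤ (((134217728 : ℕ) : ℝ) + (67108864 : ℕ)) / S) :
    TriA PP.cur (nearL (h0 * 0) 3 κ (h0 * x) (tbl tKN x) (tbl tL x)) 1 1 2 1 1 1 1 :=
  (sideN hx hx').nearA (Or.inl rfl) (Or.inl rfl) fun y y' F =>
    nearA_cert (s1 := true) (s2 := true) rfl hκ covN11 covN11 hx hx'
        Pool.Agent.Strip051.G.I1_8_3_16.Tab.C.NA11.c_pp_112 noCut_A noExt_A F trivial trivial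

theorem NA11_pp_113 {κ x : ℝ} (hκ : κ * h0 = ken x) (hx : ((134217728 : ℕ) : ℝ) / S ≤ x) (hx' : x ≤ (((134217728 : ℕ) : ℝ) + (67108864 : ℕ)) / S) :
    TriA PP.cur (nearL (h0 * 0) 3 κ (h0 * x) (tbl tKN x) (tbl tL x)) 1 1 3 1 1 1 1 :=
  (sideN hx hx').nearA (Or.inl rfl) (Or.inl rfl) fun y y' F =>
    nearA_cert (s1 := true) (s2 := true) rfl hκ covN11 covN11 hx hx'
        Pool.Agent.Strip051.G.I1_8_3_16.Tab.C.NA11.c_pp_113 noCut_A noExt_A F trivial trivial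

theorem NA11_pp_123 {κ x : ℝ} (hκ : κ * h0 = ken x) (hx : ((134217728 : ℕ) : ℝ) / S ≤ x) (hx' : x ≤ (((134217728 : ℕ) : ℝ) + (67108864 : ℕ)) / S) :
    TriA PP.cur (nearL (h0 * 0) 3 κ (h0 * x) (tbl tKN x) (tbl tL x)) 1 2 3 1 1 1 1 :=
  (sideN hx hx').nearA (Or.inl rfl) (Or.inl rfl) fun y y' F =>
    (lt_or_ge (h0 * y') 1).elim
      (fun g => nearA_cert (s1 := true) (s2 := true) rfl hκ covN11 covN12a hx hx'
        Pool.Agent.Strip051.G.I1_8_3_16.Tab.C.NA11.c_pp_123_a noCut_A noExt_A F trivial g)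
      (fun g => nearA_cert (s1 := true) (s2 := true) rfl hκ covN11 covN12b hx hx'
        Pool.Agent.Strip051.G.I1_8_3_16.Tab.C.NA11.c_pp_123_b noCut_A noExt_A F trivial g)

theorem NA11_pp_133 {κ x : ℝ} (hκ : κ * h0 = ken x) (hx : ((134217728 : ℕ) : ℝ) / S ≤ x) (hx' : x ≤ (((134217728 : ℕ) : ℝ) + (67108864 : ℕ)) / S) :
    TriA PP.cur (nearL (h0 * 0) 3 κ (h0 * x) (tbl tKN x) (tbl tL x)) 1 3 3 1 1 1 1 :=
  (sideN hx hx').nearA (Or.inl rfl) (Or.inl rfl) fun y y' F =>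
    nearA_cert (s1 := true) (s2 := true) rfl hκ covN11 covN13 hx hx'
        Pool.Agent.Strip051.G.I1_8_3_16.Tab.C.NA11.c_pp_133 noCut_A noExt_A F trivial trivial

theorem NA11_pp_202 {κ x : ℝ} (hκ : κ * h0 = ken x) (hx : ((134217728 : ℕ) : ℝ) / S ≤ x) (hx' : x ≤ (((134217728 : ℕ) : ℝ) + (67108864 : ℕ)) / S) :
    TriA PP.cur (nearL (h0 * 0) 3 κ (h0 * x) (tbl tKN x) (tbl tL x)) 2 0 2 1 1 1 1 :=
  (sideN hx hx').nearA (Or.inl rfl) (Or.inl rfl) fun y y' F =>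
    (lt_or_ge (h0 * y) 1).elim
      (fun h => nearA_cert (s1 := true) (s2 := true) rfl hκ covN12a covN10 hx hx'
        Pool.Agent.Strip051.G.I1_8_3_16.Tab.C.NA11.c_pp_202_a noCut_A noExt_A F h trivial)
      (fun h => nearA_cert (s1 := true) (s2 := true) rfl hκ covN12b covN10 hx hx'
        Pool.Agent.Strip051.G.I1_8_3_16.Tab.C.NA11.c_pp_202_b noCut_A noExt_A F h trivial)

theorem NA11_pp_203 {κ x : ℝ} (hκ : κ * h0 = ken x) (hx : ((134217728 : ℕ) : ℝ) / S ≤ x) (hx' : x ≤ (((134217728 : ℕ) : ℝ) + (67108864 : ℕ)) / S) :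
    TriA PP.cur (nearL (h0 * 0) 3 κ (h0 * x) (tbl tKN x) (tbl tL x)) 2 0 3 1 1 1 1 :=
  (sideN hx hx').nearA (Or.inl rfl) (Or.inl rfl) fun y y' F =>
    (lt_or_ge (h0 * y) 1).elim
      (fun h => nearA_cert (s1 := true) (s2 := true) rfl hκ covN12a covN10 hx hx'
        Pool.Agent.Strip051.G.I1_8_3_16.Tab.C.NA11.c_pp_203_a noCut_A noExt_A F h trivial)
      (fun h => nearA_cert (s1 := true) (s2 := true) rfl hκ covN12b covN10 hx hx'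
        Pool.Agent.Strip051.G.I1_8_3_16.Tab.C.NA11.c_pp_203_b noCut_A noExt_A F h trivial)

theorem NA11_pp_213 {κ x : ℝ} (hκ : κ * h0 = ken x) (hx : ((134217728 : ℕ) : ℝ) / S ≤ x) (hx' : x ≤ (((134217728 : ℕ) : ℝ) + (67108864 : ℕ)) / S) :
    TriA PP.cur (nearL (h0 * 0) 3 κ (h0 * x) (tbl tKN x) (tbl tL x)) 2 1 3 1 1 1 1 :=
  (sideN hx hx').nearA (Or.inl rfl) (Or.inl rfl) fun y y' F =>
    (lt_or_ge (h0 * y) 1).elim
      (fun h => nearA_cert (s1 := true) (s2 := true) rfl hκ covN12a covN11 hx hx'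
        Pool.Agent.Strip051.G.I1_8_3_16.Tab.C.NA11.c_pp_213_a noCut_A noExt_A F h trivial)
      (fun h => nearA_cert (s1 := true) (s2 := true) rfl hκ covN12b covN11 hx hx'
        Pool.Agent.Strip051.G.I1_8_3_16.Tab.C.NA11.c_pp_213_b noCut_A noExt_A F h trivial)

theorem NA11_pp_303 {κ x : ℝ} (hκ : κ * h0 = ken x) (hx : ((134217728 : ℕ) : ℝ) / S ≤ x) (hx' : x ≤ (((134217728 : ℕ) : ℝ) + (67108864 : ℕ)) / S) :
    TriA PP.cur (nearL (h0 * 0) 3 κ (h0 * x) (tbl tKN x) (tbl tL x)) 3 0 3 1 1 1 1 :=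
  (sideN hx hx').nearA (Or.inl rfl) (Or.inl rfl) fun y y' F =>
    nearA_cert (s1 := true) (s2 := true) rfl hκ covN13 covN10 hx hx'
        Pool.Agent.Strip051.G.I1_8_3_16.Tab.C.NA11.c_pp_303 noCut_A noExt_A F trivial trivial

theorem NA11_pp_313 {κ x : ℝ} (hκ : κ * h0 = ken x) (hx : ((134217728 : ℕ) : ℝ) / S ≤ x) (hx' : x ≤ (((134217728 : ℕ) : ℝ) + (67108864 : ℕ)) / S) :
    TriA PP.cur (nearL (h0 * 0) 3 κ (h0 * x) (tbl tKN x) (tbl tL x)) 3 1 3 1 1 1 1 :=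
  (sideN hx hx').nearA (Or.inl rfl) (Or.inl rfl) fun y y' F =>
    nearA_cert (s1 := true) (s2 := true) rfl hκ covN13 covN11 hx hx'
        Pool.Agent.Strip051.G.I1_8_3_16.Tab.C.NA11.c_pp_313 noCut_A noExt_A F trivial trivial

theorem NA11_pm_001 {κ x : ℝ} (hκ : κ * h0 = ken x) (hx : ((134217728 : ℕ) : ℝ) / S ≤ x) (hx' : x ≤ (((134217728 : ℕ) : ℝ) + (67108864 : ℕ)) / S) :
    TriA PP.cur (nearL (h0 * 0) 3 κ (h0 * x) (tbl tKN x) (tbl tL x)) 0 0 1 1 1 1 (-1) :=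
  (sideN hx hx').nearA (Or.inl rfl) (Or.inr rfl) fun y y' F =>
    nearA_cert (s1 := true) (s2 := false) rfl hκ covN10 covN10 hx hx'
        Pool.Agent.Strip051.G.I1_8_3_16.Tab.C.NA11.c_pm_001 noCut_A noExt_A F trivial trivial

theorem NA11_pm_011 {κ x : ℝ} (hκ : κ * h0 = ken x) (hx : ((134217728 : ℕ) : ℝ) / S ≤ x) (hx' : x ≤ (((134217728 : ℕ) : ℝ) + (67108864 : ℕ)) / S) :
    TriA PP.cur (nearL (h0 * 0) 3 κ (h0 * x) (tbl tKN x) (tbl tL x)) 0 1 1 1 1 1 (-1) :=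
  (sideN hx hx').nearA (Or.inl rfl) (Or.inr rfl) fun y y' F =>
    nearA_cert (s1 := true) (s2 := false) rfl hκ covN10 covN11 hx hx'
        Pool.Agent.Strip051.G.I1_8_3_16.Tab.C.NA11.c_pm_011 noCut_A noExt_A F trivial trivial

theorem NA11_pm_012 {κ x : ℝ} (hκ : κ * h0 = ken x) (hx : ((134217728 : ℕ) : ℝ) / S ≤ x) (hx' : x ≤ (((134217728 : ℕ) : ℝ) + (67108864 : ℕ)) / S) :
    TriA PP.cur (nearL (h0 * 0) 3 κ (h0 * x) (tbl tKN x) (tbl tL x)) 0 1 2 1 1 1 (-1) :=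
  (sideN hx hx').nearA (Or.inl rfl) (Or.inr rfl) fun y y' F =>
    nearA_cert (s1 := true) (s2 := false) rfl hκ covN10 covN11 hx hx'
        Pool.Agent.Strip051.G.I1_8_3_16.Tab.C.NA11.c_pm_012 noCut_A noExt_A F trivial trivial

theorem NA11_pm_022 {κ x : ℝ} (hκ : κ * h0 = ken x) (hx : ((134217728 : ℕ) : ℝ) / S ≤ x) (hx' : x ≤ (((134217728 : ℕ) : ℝ) + (67108864 : ℕ)) / S) :
    TriA PP.cur (nearL (h0 * 0) 3 κ (h0 * x) (tbl tKN x) (tbl tL x)) 0 2 2 1 1 1 (-1) :=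
  (sideN hx hx').nearA (Or.inl rfl) (Or.inr rfl) fun y y' F =>
    (lt_or_ge (h0 * y') 1).elim
      (fun g => nearA_cert (s1 := true) (s2 := false) rfl hκ covN10 covN12a hx hx'
        Pool.Agent.Strip051.G.I1_8_3_16.Tab.C.NA11.c_pm_022_a (cutA_cons (Pool.Agent.Strip051.G.I1_8_3_16.Tab.altN_A022E_11 hκ hx hx') cutA_nil) noExt_A F trivial g)
      (fun g => nearA_cert (s1 := true) (s2 := false) rfl hκ covN10 covN12b hx hx'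
        Pool.Agent.Strip051.G.I1_8_3_16.Tab.C.NA11.c_pm_022_b (cutA_cons (Pool.Agent.Strip051.G.I1_8_3_16.Tab.altN_A022E_11 hκ hx hx') cutA_nil) noExt_A F trivial g)

theorem NA11_pm_023 {κ x : ℝ} (hκ : κ * h0 = ken x) (hx : ((134217728 : ℕ) : ℝ) / S ≤ x) (hx' : x ≤ (((134217728 : ℕ) : ℝ) + (67108864 : ℕ)) / S) :
    TriA PP.cur (nearL (h0 * 0) 3 κ (h0 * x) (tbl tKN x) (tbl tL x)) 0 2 3 1 1 1 (-1) :=
  (sideN hx hx').nearA (Or.inl rfl) (Or.inr rfl) fun y y' F =>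
    (lt_or_ge (h0 * y') 1).elim
      (fun g => nearA_cert (s1 := true) (s2 := false) rfl hκ covN10 covN12a hx hx'
        Pool.Agent.Strip051.G.I1_8_3_16.Tab.C.NA11.c_pm_023_a noCut_A noExt_A F trivial g)
      (fun g => nearA_cert (s1 := true) (s2 := false) rfl hκ covN10 covN12b hx hx'
        Pool.Agent.Strip051.G.I1_8_3_16.Tab.C.NA11.c_pm_023_b noCut_A noExt_A F trivial g)

theorem NA11_pm_033 {κ x : ℝ} (hκ : κ * h0 = ken x) (hx : ((134217728 : ℕ) : ℝ) / S ≤ x) (hx' : x ≤ (((134217728 : ℕ) : ℝ) + (67108864 : ℕ)) / S) :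
    TriA PP.cur (nearL (h0 * 0) 3 κ (h0 * x) (tbl tKN x) (tbl tL x)) 0 3 3 1 1 1 (-1) :=
  (sideN hx hx').nearA (Or.inl rfl) (Or.inr rfl) fun y y' F =>
    nearA_cert (s1 := true) (s2 := false) rfl hκ covN10 covN13 hx hx'
        Pool.Agent.Strip051.G.I1_8_3_16.Tab.C.NA11.c_pm_033 noCut_A noExt_A F trivial trivial

theorem NA11_pm_101 {κ x : ℝ} (hκ : κ * h0 = ken x) (hx : ((134217728 : ℕ) : ℝ) / S ≤ x) (hx' : x ≤ (((134217728 : ℕ) : ℝ) + (67108864 : ℕ)) / S) :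
    TriA PP.cur (nearL (h0 * 0) 3 κ (h0 * x) (tbl tKN x) (tbl tL x)) 1 0 1 1 1 1 (-1) :=
  (sideN hx hx').nearA (Or.inl rfl) (Or.inr rfl) fun y y' F =>
    nearA_cert (s1 := true) (s2 := false) rfl hκ covN11 covN10 hx hx'
        Pool.Agent.Strip051.G.I1_8_3_16.Tab.C.NA11.c_pm_101 noCut_A noExt_A F trivial trivial

theorem NA11_pm_102 {κ x : ℝ} (hκ : κ * h0 = ken x) (hx : ((134217728 : ℕ) : ℝ) / S ≤ x) (hx' : x ≤ (((134217728 : ℕ) : ℝ) + (67108864 : ℕ)) / S) :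
    TriA PP.cur (nearL (h0 * 0) 3 κ (h0 * x) (tbl tKN x) (tbl tL x)) 1 0 2 1 1 1 (-1) :=
  (sideN hx hx').nearA (Or.inl rfl) (Or.inr rfl) fun y y' F =>
    nearA_cert (s1 := true) (s2 := false) rfl hκ covN11 covN10 hx hx'
        Pool.Agent.Strip051.G.I1_8_3_16.Tab.C.NA11.c_pm_102 noCut_A noExt_A F trivial trivial

theorem NA11_pm_112 {κ x : ℝ} (hκ : κ * h0 = ken x) (hx : ((134217728 : ℕ) : ℝ) / S ≤ x) (hx' : x ≤ (((134217728 : ℕ) : ℝ) + (67108864 : ℕ)) / S) :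
    TriA PP.cur (nearL (h0 * 0) 3 κ (h0 * x) (tbl tKN x) (tbl tL x)) 1 1 2 1 1 1 (-1) :=
  (sideN hx hx').nearA (Or.inl rfl) (Or.inr rfl) fun y y' F =>
    nearA_cert (s1 := true) (s2 := false) rfl hκ covN11 covN11 hx hx'
        Pool.Agent.Strip051.G.I1_8_3_16.Tab.C.NA11.c_pm_112 noCut_A noExt_A F trivial trivial

theorem NA11_pm_113 {κ x : ℝ} (hκ : κ * h0 = ken x) (hx : ((134217728 : ℕ) : ℝ) / S ≤ x) (hx' : x ≤ (((134217728 : ℕ) : ℝ) + (67108864 : ℕ)) / S) :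
    TriA PP.cur (nearL (h0 * 0) 3 κ (h0 * x) (tbl tKN x) (tbl tL x)) 1 1 3 1 1 1 (-1) :=
  (sideN hx hx').nearA (Or.inl rfl) (Or.inr rfl) fun y y' F =>
    nearA_cert (s1 := true) (s2 := false) rfl hκ covN11 covN11 hx hx'
        Pool.Agent.Strip051.G.I1_8_3_16.Tab.C.NA11.c_pm_113 noCut_A noExt_A F trivial trivial

theorem NA11_pm_123 {κ x : ℝ} (hκ : κ * h0 = ken x) (hx : ((134217728 : ℕ) : ℝ) / S ≤ x) (hx' : x ≤ (((134217728 : ℕ) : ℝ) + (67108864 : ℕ)) / S) :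
    TriA PP.cur (nearL (h0 * 0) 3 κ (h0 * x) (tbl tKN x) (tbl tL x)) 1 2 3 1 1 1 (-1) :=
  (sideN hx hx').nearA (Or.inl rfl) (Or.inr rfl) fun y y' F =>
    (lt_or_ge (h0 * y') 1).elim
      (fun g => nearA_cert (s1 := true) (s2 := false) rfl hκ covN11 covN12a hx hx'
        Pool.Agent.Strip051.G.I1_8_3_16.Tab.C.NA11.c_pm_123_a noCut_A noExt_A F trivial g)
      (fun g => nearA_cert (s1 := true) (s2 := false) rfl hκ covN11 covN12b hx hx'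
        Pool.Agent.Strip051.G.I1_8_3_16.Tab.C.NA11.c_pm_123_b noCut_A noExt_A F trivial g)

theorem NA11_pm_133 {κ x : ℝ} (hκ : κ * h0 = ken x) (hx : ((134217728 : ℕ) : ℝ) / S ≤ x) (hx' : x ≤ (((134217728 : ℕ) : ℝ) + (67108864 : ℕ)) / S) :
    TriA PP.cur (nearL (h0 * 0) 3 κ (h0 * x) (tbl tKN x) (tbl tL x)) 1 3 3 1 1 1 (-1) :=
  (sideN hx hx').nearA (Or.inl rfl) (Or.inr rfl) fun y y' F =>
    nearA_cert (s1 := true) (s2 := false) rfl hκ covN11 covN13 hx hx'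
        Pool.Agent.Strip051.G.I1_8_3_16.Tab.C.NA11.c_pm_133 noCut_A noExt_A F trivial trivial

theorem NA11_pm_202 {κ x : ℝ} (hκ : κ * h0 = ken x) (hx : ((134217728 : ℕ) : ℝ) / S ≤ x) (hx' : x ≤ (((134217728 : ℕ) : ℝ) + (67108864 : ℕ)) / S) :
    TriA PP.cur (nearL (h0 * 0) 3 κ (h0 * x) (tbl tKN x) (tbl tL x)) 2 0 2 1 1 1 (-1) :=
  (sideN hx hx').nearA (Or.inl rfl) (Or.inr rfl) fun y y' F =>
    (lt_or_ge (h0 * y) 1).elim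
      (fun h => nearA_cert (s1 := true) (s2 := false) rfl hκ covN12a covN10 hx hx'
        Pool.Agent.Strip051.G.I1_8_3_16.Tab.C.NA11.c_pm_202_a (cutA_cons (Pool.Agent.Strip051.G.I1_8_3_16.Tab.altN_A202E_11 hκ hx hx') cutA_nil) noExt_A F h trivial)
      (fun h => nearA_cert (s1 := true) (s2 := false) rfl hκ covN12b covN10 hx hx'
        Pool.Agent.Strip051.G.I1_8_3_16.Tab.C.NA11.c_pm_202_b (cutA_cons (Pool.Agent.Strip051.G.I1_8_3_16.Tab.altN_A202E_11 hκ hx hx') cutA_nil) noExt_A F h trivial)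

theorem NA11_pm_203 {κ x : ℝ} (hκ : κ * h0 = ken x) (hx : ((134217728 : ℕ) : ℝ) / S ≤ x) (hx' : x ≤ (((134217728 : ℕ) : ℝ) + (67108864 : ℕ)) / S) :
    TriA PP.cur (nearL (h0 * 0) 3 κ (h0 * x) (tbl tKN x) (tbl tL x)) 2 0 3 1 1 1 (-1) :=
  (sideN hx hx').nearA (Or.inl rfl) (Or.inr rfl) fun y y' F =>
    (lt_or_ge (h0 * y) 1).elim
      (fun h => nearA_cert (s1 := true) (s2 := false) rfl hκ covN12a covN10 hx hx'
        Pool.Agent.Strip051.G.I1_8_3_16.Tab.C.NA11.c_pm_203_a noCut_A noExt_A F h trivial)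
      (fun h => nearA_cert (s1 := true) (s2 := false) rfl hκ covN12b covN10 hx hx'
        Pool.Agent.Strip051.G.I1_8_3_16.Tab.C.NA11.c_pm_203_b noCut_A noExt_A F h trivial)

theorem NA11_pm_213 {κ x : ℝ} (hκ : κ * h0 = ken x) (hx : ((134217728 : ℕ) : ℝ) / S ≤ x) (hx' : x ≤ (((134217728 : ℕ) : ℝ) + (67108864 : ℕ)) / S) :
    TriA PP.cur (nearL (h0 * 0) 3 κ (h0 * x) (tbl tKN x) (tbl tL x)) 2 1 3 1 1 1 (-1) :=
  (sideN hx hx').nearA (Or.inl rfl) (Or.inr rfl) fun y y' F =>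
    (lt_or_ge (h0 * y) 1).elim
      (fun h => nearA_cert (s1 := true) (s2 := false) rfl hκ covN12a covN11 hx hx'
        Pool.Agent.Strip051.G.I1_8_3_16.Tab.C.NA11.c_pm_213_a noCut_A noExt_A F h trivial)
      (fun h => nearA_cert (s1 := true) (s2 := false) rfl hκ covN12b covN11 hx hx'
        Pool.Agent.Strip051.G.I1_8_3_16.Tab.C.NA11.c_pm_213_b noCut_A noExt_A F h trivial)

theorem NA11_pm_303 {κ x : ℝ} (hκ : κ * h0 = ken x) (hx : ((134217728 : ℕ) : ℝ) / S ≤ x) (hx' : x ≤ (((134217728 : ℕ) : ℝ) + (67108864 : ℕ)) / S) :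
    TriA PP.cur (nearL (h0 * 0) 3 κ (h0 * x) (tbl tKN x) (tbl tL x)) 3 0 3 1 1 1 (-1) :=
  (sideN hx hx').nearA (Or.inl rfl) (Or.inr rfl) fun y y' F =>
    nearA_cert (s1 := true) (s2 := false) rfl hκ covN13 covN10 hx hx'
        Pool.Agent.Strip051.G.I1_8_3_16.Tab.C.NA11.c_pm_303 noCut_A noExt_A F trivial trivial

theorem NA11_pm_313 {κ x : ℝ} (hκ : κ * h0 = ken x) (hx : ((134217728 : ℕ) : ℝ) / S ≤ x) (hx' : x ≤ (((134217728 : ℕ) : ℝ) + (67108864 : ℕ)) / S) :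
    TriA PP.cur (nearL (h0 * 0) 3 κ (h0 * x) (tbl tKN x) (tbl tL x)) 3 1 3 1 1 1 (-1) :=
  (sideN hx hx').nearA (Or.inl rfl) (Or.inr rfl) fun y y' F =>
    nearA_cert (s1 := true) (s2 := false) rfl hκ covN13 covN11 hx hx'
        Pool.Agent.Strip051.G.I1_8_3_16.Tab.C.NA11.c_pm_313 noCut_A noExt_A F trivial trivial

theorem NA11_mm_001 {κ x : ℝ} (hκ : κ * h0 = ken x) (hx : ((134217728 : ℕ) : ℝ) / S ≤ x) (hx' : x ≤ (((134217728 : ℕ) : ℝ) + (67108864 : ℕ)) / S) :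
    TriA PP.cur (nearL (h0 * 0) 3 κ (h0 * x) (tbl tKN x) (tbl tL x)) 0 0 1 1 1 (-1) (-1) :=
  (sideN hx hx').nearA (Or.inr rfl) (Or.inr rfl) fun y y' F =>
    nearA_cert (s1 := false) (s2 := false) rfl hκ covN10 covN10 hx hx'
        Pool.Agent.Strip051.G.I1_8_3_16.Tab.C.NA11.c_mm_001 noCut_A noExt_A F trivial trivial

theorem NA11_mm_011 {κ x : ℝ} (hκ : κ * h0 = ken x) (hx : ((134217728 : ℕ) : ℝ) / S ≤ x) (hx' : x ≤ (((134217728 : ℕ) : ℝ) + (67108864 : ℕ)) / S) :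
    TriA PP.cur (nearL (h0 * 0) 3 κ (h0 * x) (tbl tKN x) (tbl tL x)) 0 1 1 1 1 (-1) (-1) :=
  (sideN hx hx').nearA (Or.inr rfl) (Or.inr rfl) fun y y' F =>
    nearA_cert (s1 := false) (s2 := false) rfl hκ covN10 covN11 hx hx'
        Pool.Agent.Strip051.G.I1_8_3_16.Tab.C.NA11.c_mm_011 noCut_A noExt_A F trivial trivial

theorem NA11_mm_012 {κ x : ℝ} (hκ : κ * h0 = ken x) (hx : ((134217728 : ℕ) : ℝ) / S ≤ x) (hx' : x ≤ (((134217728 : ℕ) : ℝ) + (67108864 : ℕ)) / S) :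
    TriA PP.cur (nearL (h0 * 0) 3 κ (h0 * x) (tbl tKN x) (tbl tL x)) 0 1 2 1 1 (-1) (-1) :=
  (sideN hx hx').nearA (Or.inr rfl) (Or.inr rfl) fun y y' F =>
    nearA_cert (s1 := false) (s2 := false) rfl hκ covN10 covN11 hx hx'
        Pool.Agent.Strip051.G.I1_8_3_16.Tab.C.NA11.c_mm_012 noCut_A noExt_A F trivial trivial

theorem NA11_mm_022 {κ x : ℝ} (hκ : κ * h0 = ken x) (hx : ((134217728 : ℕ) : ℝ) / S ≤ x) (hx' : x ≤ (((134217728 : ℕ) : ℝ) + (67108864 : ℕ)) / S) :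
    TriA PP.cur (nearL (h0 * 0) 3 κ (h0 * x) (tbl tKN x) (tbl tL x)) 0 2 2 1 1 (-1) (-1) :=
  (sideN hx hx').nearA (Or.inr rfl) (Or.inr rfl) fun y y' F =>
    (lt_or_ge (h0 * y') 1).elim
      (fun g => nearA_cert (s1 := false) (s2 := false) rfl hκ covN10 covN12a hx hx'
        Pool.Agent.Strip051.G.I1_8_3_16.Tab.C.NA11.c_mm_022_a noCut_A noExt_A F trivial g)
      (fun g => nearA_cert (s1 := false) (s2 := false) rfl hκ covN10 covN12b hx hx'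
        Pool.Agent.Strip051.G.I1_8_3_16.Tab.C.NA11.c_mm_022_b noCut_A noExt_A F trivial g)

theorem NA11_mm_023 {κ x : ℝ} (hκ : κ * h0 = ken x) (hx : ((134217728 : ℕ) : ℝ) / S ≤ x) (hx' : x ≤ (((134217728 : ℕ) : ℝ) + (67108864 : ℕ)) / S) :
    TriA PP.cur (nearL (h0 * 0) 3 κ (h0 * x) (tbl tKN x) (tbl tL x)) 0 2 3 1 1 (-1) (-1) :=
  (sideN hx hx').nearA (Or.inr rfl) (Or.inr rfl) fun y y' F =>
    (lt_or_ge (h0 * y') 1).elim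
      (fun g => nearA_cert (s1 := false) (s2 := false) rfl hκ covN10 covN12a hx hx'
        Pool.Agent.Strip051.G.I1_8_3_16.Tab.C.NA11.c_mm_023_a noCut_A noExt_A F trivial g)
      (fun g => nearA_cert (s1 := false) (s2 := false) rfl hκ covN10 covN12b hx hx'
        Pool.Agent.Strip051.G.I1_8_3_16.Tab.C.NA11.c_mm_023_b noCut_A noExt_A F trivial g)

theorem NA11_mm_033 {κ x : ℝ} (hκ : κ * h0 = ken x) (hx : ((134217728 : ℕ) : ℝ) / S ≤ x) (hx' : x ≤ (((134217728 : ℕ) : ℝ) + (67108864 : ℕ)) / S) :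
    TriA PP.cur (nearL (h0 * 0) 3 κ (h0 * x) (tbl tKN x) (tbl tL x)) 0 3 3 1 1 (-1) (-1) :=
  (sideN hx hx').nearA (Or.inr rfl) (Or.inr rfl) fun y y' F =>
    nearA_cert (s1 := false) (s2 := false) rfl hκ covN10 covN13 hx hx'
        Pool.Agent.Strip051.G.I1_8_3_16.Tab.C.NA11.c_mm_033 noCut_A noExt_A F trivial trivial

theorem NA11_mm_101 {κ x : ℝ} (hκ : κ * h0 = ken x) (hx : ((134217728 : ℕ) : ℝ) / S ≤ x) (hx' : x ≤ (((134217728 : ℕ) : ℝ) + (67108864 : ℕ)) / S) :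
    TriA PP.cur (nearL (h0 * 0) 3 κ (h0 * x) (tbl tKN x) (tbl tL x)) 1 0 1 1 1 (-1) (-1) :=
  (sideN hx hx').nearA (Or.inr rfl) (Or.inr rfl) fun y y' F =>
    nearA_cert (s1 := false) (s2 := false) rfl hκ covN11 covN10 hx hx'
        Pool.Agent.Strip051.G.I1_8_3_16.Tab.C.NA11.c_mm_101 noCut_A noExt_A F trivial trivial

theorem NA11_mm_102 {κ x : ℝ} (hκ : κ * h0 = ken x) (hx : ((134217728 : ℕ) : ℝ) / S ≤ x) (hx' : x ≤ (((134217728 : ℕ) : ℝ) + (67108864 : ℕ)) / S) :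
    TriA PP.cur (nearL (h0 * 0) 3 κ (h0 * x) (tbl tKN x) (tbl tL x)) 1 0 2 1 1 (-1) (-1) :=
  (sideN hx hx').nearA (Or.inr rfl) (Or.inr rfl) fun y y' F =>
    nearA_cert (s1 := false) (s2 := false) rfl hκ covN11 covN10 hx hx'
        Pool.Agent.Strip051.G.I1_8_3_16.Tab.C.NA11.c_mm_102 noCut_A noExt_A F trivial trivial

theorem NA11_mm_112 {κ x : ℝ} (hκ : κ * h0 = ken x) (hx : ((134217728 : ℕ) : ℝ) / S ≤ x) (hx' : x ≤ (((134217728 : ℕ) : ℝ) + (67108864 : ℕ)) / S) :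
    TriA PP.cur (nearL (h0 * 0) 3 κ (h0 * x) (tbl tKN x) (tbl tL x)) 1 1 2 1 1 (-1) (-1) :=
  (sideN hx hx').nearA (Or.inr rfl) (Or.inr rfl) fun y y' F =>
    nearA_cert (s1 := false) (s2 := false) rfl hκ covN11 covN11 hx hx'
        Pool.Agent.Strip051.G.I1_8_3_16.Tab.C.NA11.c_mm_112 noCut_A noExt_A F trivial trivial

theorem NA11_mm_113 {κ x : ℝ} (hκ : κ * h0 = ken x) (hx : ((134217728 : ℕ) : ℝ) / S ≤ x) (hx' : x ≤ (((134217728 : ℕ) : ℝ) + (67108864 : ℕ)) / S) :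
    TriA PP.cur (nearL (h0 * 0) 3 κ (h0 * x) (tbl tKN x) (tbl tL x)) 1 1 3 1 1 (-1) (-1) :=
  (sideN hx hx').nearA (Or.inr rfl) (Or.inr rfl) fun y y' F =>
    nearA_cert (s1 := false) (s2 := false) rfl hκ covN11 covN11 hx hx'
        Pool.Agent.Strip051.G.I1_8_3_16.Tab.C.NA11.c_mm_113 noCut_A noExt_A F trivial trivial

theorem NA11_mm_123 {κ x : ℝ} (hκ : κ * h0 = ken x) (hx : ((134217728 : ℕ) : ℝ) / S ≤ x) (hx' : x ≤ (((134217728 : ℕ) : ℝ) + (67108864 : ℕ)) / S) :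
    TriA PP.cur (nearL (h0 * 0) 3 κ (h0 * x) (tbl tKN x) (tbl tL x)) 1 2 3 1 1 (-1) (-1) :=
  (sideN hx hx').nearA (Or.inr rfl) (Or.inr rfl) fun y y' F =>
    (lt_or_ge (h0 * y') 1).elim
      (fun g => nearA_cert (s1 := false) (s2 := false) rfl hκ covN11 covN12a hx hx'
        Pool.Agent.Strip051.G.I1_8_3_16.Tab.C.NA11.c_mm_123_a noCut_A noExt_A F trivial g)
      (fun g => nearA_cert (s1 := false) (s2 := false) rfl hκ covN11 covN12b hx hx'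
        Pool.Agent.Strip051.G.I1_8_3_16.Tab.C.NA11.c_mm_123_b noCut_A noExt_A F trivial g)

theorem NA11_mm_133 {κ x : ℝ} (hκ : κ * h0 = ken x) (hx : ((134217728 : ℕ) : ℝ) / S ≤ x) (hx' : x ≤ (((134217728 : ℕ) : ℝ) + (67108864 : ℕ)) / S) :
    TriA PP.cur (nearL (h0 * 0) 3 κ (h0 * x) (tbl tKN x) (tbl tL x)) 1 3 3 1 1 (-1) (-1) :=
  (sideN hx hx').nearA (Or.inr rfl) (Or.inr rfl) fun y y' F =>
    nearA_cert (s1 := false) (s2 := false) rfl hκ covN11 covN13 hx hx'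
        Pool.Agent.Strip051.G.I1_8_3_16.Tab.C.NA11.c_mm_133 noCut_A noExt_A F trivial trivial

theorem NA11_mm_202 {κ x : ℝ} (hκ : κ * h0 = ken x) (hx : ((134217728 : ℕ) : ℝ) / S ≤ x) (hx' : x ≤ (((134217728 : ℕ) : ℝ) + (67108864 : ℕ)) / S) :
    TriA PP.cur (nearL (h0 * 0) 3 κ (h0 * x) (tbl tKN x) (tbl tL x)) 2 0 2 1 1 (-1) (-1) :=
  (sideN hx hx').nearA (Or.inr rfl) (Or.inr rfl) fun y y' F =>
    (lt_or_ge (h0 * y) 1).elim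
      (fun h => nearA_cert (s1 := false) (s2 := false) rfl hκ covN12a covN10 hx hx'
        Pool.Agent.Strip051.G.I1_8_3_16.Tab.C.NA11.c_mm_202_a (cutA_cons (Pool.Agent.Strip051.G.I1_8_3_16.Tab.altN_A202R_11 hκ hx hx') cutA_nil) noExt_A F h trivial)
      (fun h => nearA_cert (s1 := false) (s2 := false) rfl hκ covN12b covN10 hx hx'
        Pool.Agent.Strip051.G.I1_8_3_16.Tab.C.NA11.c_mm_202_b (cutA_cons (Pool.Agent.Strip051.G.I1_8_3_16.Tab.altN_A202R_11 hκ hx hx') cutA_nil) noExt_A F h trivial)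

theorem NA11_mm_203 {κ x : ℝ} (hκ : κ * h0 = ken x) (hx : ((134217728 : ℕ) : ℝ) / S ≤ x) (hx' : x ≤ (((134217728 : ℕ) : ℝ) + (67108864 : ℕ)) / S) :
    TriA PP.cur (nearL (h0 * 0) 3 κ (h0 * x) (tbl tKN x) (tbl tL x)) 2 0 3 1 1 (-1) (-1) :=
  (sideN hx hx').nearA (Or.inr rfl) (Or.inr rfl) fun y y' F =>
    (lt_or_ge (h0 * y) 1).elim
      (fun h => nearA_cert (s1 := false) (s2 := false) rfl hκ covN12a covN10 hx hx'
        Pool.Agent.Strip051.G.I1_8_3_16.Tab.C.NA11.c_mm_203_a noCut_A noExt_A F h trivial)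
      (fun h => nearA_cert (s1 := false) (s2 := false) rfl hκ covN12b covN10 hx hx'
        Pool.Agent.Strip051.G.I1_8_3_16.Tab.C.NA11.c_mm_203_b noCut_A noExt_A F h trivial)

theorem NA11_mm_213 {κ x : ℝ} (hκ : κ * h0 = ken x) (hx : ((134217728 : ℕ) : ℝ) / S ≤ x) (hx' : x ≤ (((134217728 : ℕ) : ℝ) + (67108864 : ℕ)) / S) :
    TriA PP.cur (nearL (h0 * 0) 3 κ (h0 * x) (tbl tKN x) (tbl tL x)) 2 1 3 1 1 (-1) (-1) :=
  (sideN hx hx').nearA (Or.inr rfl) (Or.inr rfl) fun y y' F =>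
    (lt_or_ge (h0 * y) 1).elim
      (fun h => nearA_cert (s1 := false) (s2 := false) rfl hκ covN12a covN11 hx hx'
        Pool.Agent.Strip051.G.I1_8_3_16.Tab.C.NA11.c_mm_213_a noCut_A noExt_A F h trivial)
      (fun h => nearA_cert (s1 := false) (s2 := false) rfl hκ covN12b covN11 hx hx'
        Pool.Agent.Strip051.G.I1_8_3_16.Tab.C.NA11.c_mm_213_b noCut_A noExt_A F h trivial)

theorem NA11_mm_303 {κ x : ℝ} (hκ : κ * h0 = ken x) (hx : ((134217728 : ℕ) : ℝ) / S ≤ x) (hx' : x ≤ (((134217728 : ℕ) : ℝ) + (67108864 : ℕ)) / S) :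
    TriA PP.cur (nearL (h0 * 0) 3 κ (h0 * x) (tbl tKN x) (tbl tL x)) 3 0 3 1 1 (-1) (-1) :=
  (sideN hx hx').nearA (Or.inr rfl) (Or.inr rfl) fun y y' F =>
    nearA_cert (s1 := false) (s2 := false) rfl hκ covN13 covN10 hx hx'
        Pool.Agent.Strip051.G.I1_8_3_16.Tab.C.NA11.c_mm_303 noCut_A noExt_A F trivial trivial

theorem NA11_mm_313 {κ x : ℝ} (hκ : κ * h0 = ken x) (hx : ((134217728 : ℕ) : ℝ) / S ≤ x) (hx' : x ≤ (((134217728 : ℕ) : ℝ) + (67108864 : ℕ)) / S) :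
    TriA PP.cur (nearL (h0 * 0) 3 κ (h0 * x) (tbl tKN x) (tbl tL x)) 3 1 3 1 1 (-1) (-1) :=
  (sideN hx hx').nearA (Or.inr rfl) (Or.inr rfl) fun y y' F =>
    nearA_cert (s1 := false) (s2 := false) rfl hκ covN13 covN11 hx hx'
        Pool.Agent.Strip051.G.I1_8_3_16.Tab.C.NA11.c_mm_313 noCut_A noExt_A F trivial trivial

theorem NA11 {κ x : ℝ} (hκ : κ * h0 = ken x) (hx : ((134217728 : ℕ) : ℝ) / S ≤ x) (hx' : x ≤ (((134217728 : ℕ) : ℝ) + (67108864 : ℕ)) / S) : AllTA PP.cur (nearL (h0 * 0) 3 κ (h0 * x) (tbl tKN x) (tbl tL x)) 1 1 where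
  pp := all17 (Q := fun a b c => TriA PP.cur (nearL (h0 * 0) 3 κ (h0 * x) (tbl tKN x) (tbl tL x)) a b c 1 1 1 1)
    (NA11_pp_001 hκ hx hx') (NA11_pp_011 hκ hx hx') (NA11_pp_012 hκ hx hx') (NA11_pp_022 hκ hx hx') (NA11_pp_023 hκ hx hx') (NA11_pp_033 hκ hx hx') (NA11_pp_101 hκ hx hx') (NA11_pp_102 hκ hx hx') (NA11_pp_112 hκ hx hx') (NA11_pp_113 hκ hx hx') (NA11_pp_123 hκ hx hx') (NA11_pp_133 hκ hx hx') (NA11_pp_202 hκ hx hx') (NA11_pp_203 hκ hx hx') (NA11_pp_213 hκ hx hx') (NA11_pp_303 hκ hx hx') (NA11_pp_313 hκ hx hx')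
  pm := all17 (Q := fun a b c => TriA PP.cur (nearL (h0 * 0) 3 κ (h0 * x) (tbl tKN x) (tbl tL x)) a b c 1 1 1 (-1))
    (NA11_pm_001 hκ hx hx') (NA11_pm_011 hκ hx hx') (NA11_pm_012 hκ hx hx') (NA11_pm_022 hκ hx hx') (NA11_pm_023 hκ hx hx') (NA11_pm_033 hκ hx hx') (NA11_pm_101 hκ hx hx') (NA11_pm_102 hκ hx hx') (NA11_pm_112 hκ hx hx') (NA11_pm_113 hκ hx hx') (NA11_pm_123 hκ hx hx') (NA11_pm_133 hκ hx hx') (NA11_pm_202 hκ hx hx') (NA11_pm_203 hκ hx hx') (NA11_pm_213 hκ hx hx') (NA11_pm_303 hκ hx hx') (NA11_pm_313 hκ hx hx')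
  mm := all17 (Q := fun a b c => TriA PP.cur (nearL (h0 * 0) 3 κ (h0 * x) (tbl tKN x) (tbl tL x)) a b c 1 1 (-1) (-1))
    (NA11_mm_001 hκ hx hx') (NA11_mm_011 hκ hx hx') (NA11_mm_012 hκ hx hx') (NA11_mm_022 hκ hx hx') (NA11_mm_023 hκ hx hx') (NA11_mm_033 hκ hx hx') (NA11_mm_101 hκ hx hx') (NA11_mm_102 hκ hx hx') (NA11_mm_112 hκ hx hx') (NA11_mm_113 hκ hx hx') (NA11_mm_123 hκ hx hx') (NA11_mm_133 hκ hx hx') (NA11_mm_202 hκ hx hx') (NA11_mm_203 hκ hx hx') (NA11_mm_213 hκ hx hx') (NA11_mm_303 hκ hx hx') (NA11_mm_313 hκ hx hx')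

theorem NA12_pp_001 {κ x : ℝ} (hκ : κ * h0 = ken x) (hx : ((134217728 : ℕ) : ℝ) / S ≤ x) (hx' : x ≤ (((134217728 : ℕ) : ℝ) + (67108864 : ℕ)) / S) :
    TriA PP.cur (nearL (h0 * 0) 3 κ (h0 * x) (tbl tKN x) (tbl tL x)) 0 0 1 1 2 1 1 :=
  (sideN hx hx').nearA (Or.inl rfl) (Or.inl rfl) fun y y' F =>
    nearA_cert (s1 := true) (s2 := true) rfl hκ covN10 covN20 hx hx'
        Pool.Agent.Strip051.G.I1_8_3_16.Tab.C.NA12.c_pp_001 noCut_A noExt_A F trivial trivial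

theorem NA12_pp_011 {κ x : ℝ} (hκ : κ * h0 = ken x) (hx : ((134217728 : ℕ) : ℝ) / S ≤ x) (hx' : x ≤ (((134217728 : ℕ) : ℝ) + (67108864 : ℕ)) / S) :
    TriA PP.cur (nearL (h0 * 0) 3 κ (h0 * x) (tbl tKN x) (tbl tL x)) 0 1 1 1 2 1 1 :=
  (sideN hx hx').nearA (Or.inl rfl) (Or.inl rfl) fun y y' F =>
    nearA_cert (s1 := true) (s2 := true) rfl hκ covN10 covN21 hx hx'
        Pool.Agent.Strip051.G.I1_8_3_16.Tab.C.NA12.c_pp_011 noCut_A noExt_A F trivial trivial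

theorem NA12_pp_012 {κ x : ℝ} (hκ : κ * h0 = ken x) (hx : ((134217728 : ℕ) : ℝ) / S ≤ x) (hx' : x ≤ (((134217728 : ℕ) : ℝ) + (67108864 : ℕ)) / S) :
    TriA PP.cur (nearL (h0 * 0) 3 κ (h0 * x) (tbl tKN x) (tbl tL x)) 0 1 2 1 2 1 1 :=
  (sideN hx hx').nearA (Or.inl rfl) (Or.inl rfl) fun y y' F =>
    nearA_cert (s1 := true) (s2 := true) rfl hκ covN10 covN21 hx hx'
        Pool.Agent.Strip051.G.I1_8_3_16.Tab.C.NA12.c_pp_012 noCut_A noExt_A F trivial trivial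

theorem NA12_pp_022 {κ x : ℝ} (hκ : κ * h0 = ken x) (hx : ((134217728 : ℕ) : ℝ) / S ≤ x) (hx' : x ≤ (((134217728 : ℕ) : ℝ) + (67108864 : ℕ)) / S) :
    TriA PP.cur (nearL (h0 * 0) 3 κ (h0 * x) (tbl tKN x) (tbl tL x)) 0 2 2 1 2 1 1 :=
  (sideN hx hx').nearA (Or.inl rfl) (Or.inl rfl) fun y y' F =>
    (lt_or_ge (h0 * y') 1).elim
      (fun g => nearA_cert (s1 := true) (s2 := true) rfl hκ covN10 covN22a hx hx'
        Pool.Agent.Strip051.G.I1_8_3_16.Tab.C.NA12.c_pp_022_a (cutA_cons (Pool.Agent.Strip051.G.I1_8_3_16.Tab.altN_A022L_12 hκ hx hx') cutA_nil) noExt_A F trivial g)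
      (fun g => nearA_cert (s1 := true) (s2 := true) rfl hκ covN10 covN22b hx hx'
        Pool.Agent.Strip051.G.I1_8_3_16.Tab.C.NA12.c_pp_022_b (cutA_cons (Pool.Agent.Strip051.G.I1_8_3_16.Tab.altN_A022L_12 hκ hx hx') cutA_nil) noExt_A F trivial g)

theorem NA12_pp_023 {κ x : ℝ} (hκ : κ * h0 = ken x) (hx : ((134217728 : ℕ) : ℝ) / S ≤ x) (hx' : x ≤ (((134217728 : ℕ) : ℝ) + (67108864 : ℕ)) / S) :
    TriA PP.cur (nearL (h0 * 0) 3 κ (h0 * x) (tbl tKN x) (tbl tL x)) 0 2 3 1 2 1 1 :=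
  (sideN hx hx').nearA (Or.inl rfl) (Or.inl rfl) fun y y' F =>
    (lt_or_ge (h0 * y') 1).elim
      (fun g => nearA_cert (s1 := true) (s2 := true) rfl hκ covN10 covN22a hx hx'
        Pool.Agent.Strip051.G.I1_8_3_16.Tab.C.NA12.c_pp_023_a noCut_A noExt_A F trivial g)
      (fun g => nearA_cert (s1 := true) (s2 := true) rfl hκ covN10 covN22b hx hx'
        Pool.Agent.Strip051.G.I1_8_3_16.Tab.C.NA12.c_pp_023_b noCut_A noExt_A F trivial g)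

theorem NA12_pp_033 {κ x : ℝ} (hκ : κ * h0 = ken x) (hx : ((134217728 : ℕ) : ℝ) / S ≤ x) (hx' : x ≤ (((134217728 : ℕ) : ℝ) + (67108864 : ℕ)) / S) :
    TriA PP.cur (nearL (h0 * 0) 3 κ (h0 * x) (tbl tKN x) (tbl tL x)) 0 3 3 1 2 1 1 :=
  (sideN hx hx').nearA (Or.inl rfl) (Or.inl rfl) fun y y' F =>
    nearA_cert (s1 := true) (s2 := true) rfl hκ covN10 covN23 hx hx'
        Pool.Agent.Strip051.G.I1_8_3_16.Tab.C.NA12.c_pp_033 noCut_A noExt_A F trivial trivial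

theorem NA12_pp_101 {κ x : ℝ} (hκ : κ * h0 = ken x) (hx : ((134217728 : ℕ) : ℝ) / S ≤ x) (hx' : x ≤ (((134217728 : ℕ) : ℝ) + (67108864 : ℕ)) / S) :
    TriA PP.cur (nearL (h0 * 0) 3 κ (h0 * x) (tbl tKN x) (tbl tL x)) 1 0 1 1 2 1 1 :=
  (sideN hx hx').nearA (Or.inl rfl) (Or.inl rfl) fun y y' F =>
    nearA_cert (s1 := true) (s2 := true) rfl hκ covN11 covN20 hx hx'
        Pool.Agent.Strip051.G.I1_8_3_16.Tab.C.NA12.c_pp_101 noCut_A noExt_A F trivial trivial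

theorem NA12_pp_102 {κ x : ℝ} (hκ : κ * h0 = ken x) (hx : ((134217728 : ℕ) : ℝ) / S ≤ x) (hx' : x ≤ (((134217728 : ℕ) : ℝ) + (67108864 : ℕ)) / S) :
    TriA PP.cur (nearL (h0 * 0) 3 κ (h0 * x) (tbl tKN x) (tbl tL x)) 1 0 2 1 2 1 1 :=
  (sideN hx hx').nearA (Or.inl rfl) (Or.inl rfl) fun y y' F =>
    nearA_cert (s1 := true) (s2 := true) rfl hκ covN11 covN20 hx hx'
        Pool.Agent.Strip051.G.I1_8_3_16.Tab.C.NA12.c_pp_102 noCut_A noExt_A F trivial trivial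

theorem NA12_pp_112 {κ x : ℝ} (hκ : κ * h0 = ken x) (hx : ((134217728 : ℕ) : ℝ) / S ≤ x) (hx' : x ≤ (((134217728 : ℕ) : ℝ) + (67108864 : ℕ)) / S) :
    TriA PP.cur (nearL (h0 * 0) 3 κ (h0 * x) (tbl tKN x) (tbl tL x)) 1 1 2 1 2 1 1 :=
  (sideN hx hx').nearA (Or.inl rfl) (Or.inl rfl) fun y y' F =>
    nearA_cert (s1 := true) (s2 := true) rfl hκ covN11 covN21 hx hx'
        Pool.Agent.Strip051.G.I1_8_3_16.Tab.C.NA12.c_pp_112 noCut_A noExt_A F trivial trivial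

theorem NA12_pp_113 {κ x : ℝ} (hκ : κ * h0 = ken x) (hx : ((134217728 : ℕ) : ℝ) / S ≤ x) (hx' : x ≤ (((134217728 : ℕ) : ℝ) + (67108864 : ℕ)) / S) :
    TriA PP.cur (nearL (h0 * 0) 3 κ (h0 * x) (tbl tKN x) (tbl tL x)) 1 1 3 1 2 1 1 :=
  (sideN hx hx').nearA (Or.inl rfl) (Or.inl rfl) fun y y' F =>
    nearA_cert (s1 := true) (s2 := true) rfl hκ covN11 covN21 hx hx'
        Pool.Agent.Strip051.G.I1_8_3_16.Tab.C.NA12.c_pp_113 noCut_A noExt_A F trivial trivial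

theorem NA12_pp_123 {κ x : ℝ} (hκ : κ * h0 = ken x) (hx : ((134217728 : ℕ) : ℝ) / S ≤ x) (hx' : x ≤ (((134217728 : ℕ) : ℝ) + (67108864 : ℕ)) / S) :
    TriA PP.cur (nearL (h0 * 0) 3 κ (h0 * x) (tbl tKN x) (tbl tL x)) 1 2 3 1 2 1 1 :=
  (sideN hx hx').nearA (Or.inl rfl) (Or.inl rfl) fun y y' F =>
    (lt_or_ge (h0 * y') 1).elim
      (fun g => nearA_cert (s1 := true) (s2 := true) rfl hκ covN11 covN22a hx hx'
        Pool.Agent.Strip051.G.I1_8_3_16.Tab.C.NA12.c_pp_123_a noCut_A noExt_A F trivial g)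
      (fun g => nearA_cert (s1 := true) (s2 := true) rfl hκ covN11 covN22b hx hx'
        Pool.Agent.Strip051.G.I1_8_3_16.Tab.C.NA12.c_pp_123_b noCut_A noExt_A F trivial g)

theorem NA12_pp_133 {κ x : ℝ} (hκ : κ * h0 = ken x) (hx : ((134217728 : ℕ) : ℝ) / S ≤ x) (hx' : x ≤ (((134217728 : ℕ) : ℝ) + (67108864 : ℕ)) / S) :
    TriA PP.cur (nearL (h0 * 0) 3 κ (h0 * x) (tbl tKN x) (tbl tL x)) 1 3 3 1 2 1 1 :=
  (sideN hx hx').nearA (Or.inl rfl) (Or.inl rfl) fun y y' F =>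
    nearA_cert (s1 := true) (s2 := true) rfl hκ covN11 covN23 hx hx'
        Pool.Agent.Strip051.G.I1_8_3_16.Tab.C.NA12.c_pp_133 noCut_A noExt_A F trivial trivial

theorem NA12_pp_202 {κ x : ℝ} (hκ : κ * h0 = ken x) (hx : ((134217728 : ℕ) : ℝ) / S ≤ x) (hx' : x ≤ (((134217728 : ℕ) : ℝ) + (67108864 : ℕ)) / S) :
    TriA PP.cur (nearL (h0 * 0) 3 κ (h0 * x) (tbl tKN x) (tbl tL x)) 2 0 2 1 2 1 1 :=
  (sideN hx hx').nearA (Or.inl rfl) (Or.inl rfl) fun y y' F =>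
    (lt_or_ge (h0 * y) 1).elim
      (fun h => nearA_cert (s1 := true) (s2 := true) rfl hκ covN12a covN20 hx hx'
        Pool.Agent.Strip051.G.I1_8_3_16.Tab.C.NA12.c_pp_202_a noCut_A noExt_A F h trivial)
      (fun h => nearA_cert (s1 := true) (s2 := true) rfl hκ covN12b covN20 hx hx'
        Pool.Agent.Strip051.G.I1_8_3_16.Tab.C.NA12.c_pp_202_b noCut_A noExt_A F h trivial)

theorem NA12_pp_203 {κ x : ℝ} (hκ : κ * h0 = ken x) (hx : ((134217728 : ℕ) : ℝ) / S ≤ x) (hx' : x ≤ (((134217728 : ℕ) : ℝ) + (67108864 : ℕ)) / S) :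
    TriA PP.cur (nearL (h0 * 0) 3 κ (h0 * x) (tbl tKN x) (tbl tL x)) 2 0 3 1 2 1 1 :=
  (sideN hx hx').nearA (Or.inl rfl) (Or.inl rfl) fun y y' F =>
    (lt_or_ge (h0 * y) 1).elim
      (fun h => nearA_cert (s1 := true) (s2 := true) rfl hκ covN12a covN20 hx hx'
        Pool.Agent.Strip051.G.I1_8_3_16.Tab.C.NA12.c_pp_203_a noCut_A noExt_A F h trivial)
      (fun h => nearA_cert (s1 := true) (s2 := true) rfl hκ covN12b covN20 hx hx'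
        Pool.Agent.Strip051.G.I1_8_3_16.Tab.C.NA12.c_pp_203_b noCut_A noExt_A F h trivial)

theorem NA12_pp_213 {κ x : ℝ} (hκ : κ * h0 = ken x) (hx : ((134217728 : ℕ) : ℝ) / S ≤ x) (hx' : x ≤ (((134217728 : ℕ) : ℝ) + (67108864 : ℕ)) / S) :
    TriA PP.cur (nearL (h0 * 0) 3 κ (h0 * x) (tbl tKN x) (tbl tL x)) 2 1 3 1 2 1 1 :=
  (sideN hx hx').nearA (Or.inl rfl) (Or.inl rfl) fun y y' F =>
    (lt_or_ge (h0 * y) 1).elim
      (fun h => nearA_cert (s1 := true) (s2 := true) rfl hκ covN12a covN21 hx hx'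
        Pool.Agent.Strip051.G.I1_8_3_16.Tab.C.NA12.c_pp_213_a noCut_A noExt_A F h trivial)
      (fun h => nearA_cert (s1 := true) (s2 := true) rfl hκ covN12b covN21 hx hx'
        Pool.Agent.Strip051.G.I1_8_3_16.Tab.C.NA12.c_pp_213_b noCut_A noExt_A F h trivial)

theorem NA12_pp_303 {κ x : ℝ} (hκ : κ * h0 = ken x) (hx : ((134217728 : ℕ) : ℝ) / S ≤ x) (hx' : x ≤ (((134217728 : ℕ) : ℝ) + (67108864 : ℕ)) / S) :
    TriA PP.cur (nearL (h0 * 0) 3 κ (h0 * x) (tbl tKN x) (tbl tL x)) 3 0 3 1 2 1 1 :=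
  (sideN hx hx').nearA (Or.inl rfl) (Or.inl rfl) fun y y' F =>
    nearA_cert (s1 := true) (s2 := true) rfl hκ covN13 covN20 hx hx'
        Pool.Agent.Strip051.G.I1_8_3_16.Tab.C.NA12.c_pp_303 noCut_A noExt_A F trivial trivial

theorem NA12_pp_313 {κ x : ℝ} (hκ : κ * h0 = ken x) (hx : ((134217728 : ℕ) : ℝ) / S ≤ x) (hx' : x ≤ (((134217728 : ℕ) : ℝ) + (67108864 : ℕ)) / S) :
    TriA PP.cur (nearL (h0 * 0) 3 κ (h0 * x) (tbl tKN x) (tbl tL x)) 3 1 3 1 2 1 1 :=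
  (sideN hx hx').nearA (Or.inl rfl) (Or.inl rfl) fun y y' F =>
    nearA_cert (s1 := true) (s2 := true) rfl hκ covN13 covN21 hx hx'
        Pool.Agent.Strip051.G.I1_8_3_16.Tab.C.NA12.c_pp_313 noCut_A noExt_A F trivial trivial

theorem NA12_pm_001 {κ x : ℝ} (hκ : κ * h0 = ken x) (hx : ((134217728 : ℕ) : ℝ) / S ≤ x) (hx' : x ≤ (((134217728 : ℕ) : ℝ) + (67108864 : ℕ)) / S) :
    TriA PP.cur (nearL (h0 * 0) 3 κ (h0 * x) (tbl tKN x) (tbl tL x)) 0 0 1 1 2 1 (-1) :=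
  (sideN hx hx').nearA (Or.inl rfl) (Or.inr rfl) fun y y' F =>
    nearA_cert (s1 := true) (s2 := false) rfl hκ covN10 covN20 hx hx'
        Pool.Agent.Strip051.G.I1_8_3_16.Tab.C.NA12.c_pm_001 noCut_A noExt_A F trivial trivial

theorem NA12_pm_011 {κ x : ℝ} (hκ : κ * h0 = ken x) (hx : ((134217728 : ℕ) : ℝ) / S ≤ x) (hx' : x ≤ (((134217728 : ℕ) : ℝ) + (67108864 : ℕ)) / S) :
    TriA PP.cur (nearL (h0 * 0) 3 κ (h0 * x) (tbl tKN x) (tbl tL x)) 0 1 1 1 2 1 (-1) :=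
  (sideN hx hx').nearA (Or.inl rfl) (Or.inr rfl) fun y y' F =>
    nearA_cert (s1 := true) (s2 := false) rfl hκ covN10 covN21 hx hx'
        Pool.Agent.Strip051.G.I1_8_3_16.Tab.C.NA12.c_pm_011 noCut_A noExt_A F trivial trivial

theorem NA12_pm_012 {κ x : ℝ} (hκ : κ * h0 = ken x) (hx : ((134217728 : ℕ) : ℝ) / S ≤ x) (hx' : x ≤ (((134217728 : ℕ) : ℝ) + (67108864 : ℕ)) / S) :
    TriA PP.cur (nearL (h0 * 0) 3 κ (h0 * x) (tbl tKN x) (tbl tL x)) 0 1 2 1 2 1 (-1) :=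
  (sideN hx hx').nearA (Or.inl rfl) (Or.inr rfl) fun y y' F =>
    nearA_cert (s1 := true) (s2 := false) rfl hκ covN10 covN21 hx hx'
        Pool.Agent.Strip051.G.I1_8_3_16.Tab.C.NA12.c_pm_012 noCut_A noExt_A F trivial trivial

theorem NA12_pm_022 {κ x : ℝ} (hκ : κ * h0 = ken x) (hx : ((134217728 : ℕ) : ℝ) / S ≤ x) (hx' : x ≤ (((134217728 : ℕ) : ℝ) + (67108864 : ℕ)) / S) :
    TriA PP.cur (nearL (h0 * 0) 3 κ (h0 * x) (tbl tKN x) (tbl tL x)) 0 2 2 1 2 1 (-1) :=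
  (sideN hx hx').nearA (Or.inl rfl) (Or.inr rfl) fun y y' F =>
    (lt_or_ge (h0 * y') 1).elim
      (fun g => nearA_cert (s1 := true) (s2 := false) rfl hκ covN10 covN22a hx hx'
        Pool.Agent.Strip051.G.I1_8_3_16.Tab.C.NA12.c_pm_022_a (cutA_cons (Pool.Agent.Strip051.G.I1_8_3_16.Tab.altN_A022E_12 hκ hx hx') cutA_nil) noExt_A F trivial g)
      (fun g => nearA_cert (s1 := true) (s2 := false) rfl hκ covN10 covN22b hx hx'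
        Pool.Agent.Strip051.G.I1_8_3_16.Tab.C.NA12.c_pm_022_b (cutA_cons (Pool.Agent.Strip051.G.I1_8_3_16.Tab.altN_A022E_12 hκ hx hx') cutA_nil) noExt_A F trivial g)

theorem NA12_pm_023 {κ x : ℝ} (hκ : κ * h0 = ken x) (hx : ((134217728 : ℕ) : ℝ) / S ≤ x) (hx' : x ≤ (((134217728 : ℕ) : ℝ) + (67108864 : ℕ)) / S) :
    TriA PP.cur (nearL (h0 * 0) 3 κ (h0 * x) (tbl tKN x) (tbl tL x)) 0 2 3 1 2 1 (-1) :=
  (sideN hx hx').nearA (Or.inl rfl) (Or.inr rfl) fun y y' F =>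
    (lt_or_ge (h0 * y') 1).elim
      (fun g => nearA_cert (s1 := true) (s2 := false) rfl hκ covN10 covN22a hx hx'
        Pool.Agent.Strip051.G.I1_8_3_16.Tab.C.NA12.c_pm_023_a noCut_A noExt_A F trivial g)
      (fun g => nearA_cert (s1 := true) (s2 := false) rfl hκ covN10 covN22b hx hx'
        Pool.Agent.Strip051.G.I1_8_3_16.Tab.C.NA12.c_pm_023_b noCut_A noExt_A F trivial g)

theorem NA12_pm_033 {κ x : ℝ} (hκ : κ * h0 = ken x) (hx : ((134217728 : ℕ) : ℝ) / S ≤ x) (hx' : x ≤ (((134217728 : ℕ) : ℝ) + (67108864 : ℕ)) / S) :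
    TriA PP.cur (nearL (h0 * 0) 3 κ (h0 * x) (tbl tKN x) (tbl tL x)) 0 3 3 1 2 1 (-1) :=
  (sideN hx hx').nearA (Or.inl rfl) (Or.inr rfl) fun y y' F =>
    nearA_cert (s1 := true) (s2 := false) rfl hκ covN10 covN23 hx hx'
        Pool.Agent.Strip051.G.I1_8_3_16.Tab.C.NA12.c_pm_033 noCut_A noExt_A F trivial trivial

theorem NA12_pm_101 {κ x : ℝ} (hκ : κ * h0 = ken x) (hx : ((134217728 : ℕ) : ℝ) / S ≤ x) (hx' : x ≤ (((134217728 : ℕ) : ℝ) + (67108864 : ℕ)) / S) :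
    TriA PP.cur (nearL (h0 * 0) 3 κ (h0 * x) (tbl tKN x) (tbl tL x)) 1 0 1 1 2 1 (-1) :=
  (sideN hx hx').nearA (Or.inl rfl) (Or.inr rfl) fun y y' F =>
    nearA_cert (s1 := true) (s2 := false) rfl hκ covN11 covN20 hx hx'
        Pool.Agent.Strip051.G.I1_8_3_16.Tab.C.NA12.c_pm_101 noCut_A noExt_A F trivial trivial

theorem NA12_pm_102 {κ x : ℝ} (hκ : κ * h0 = ken x) (hx : ((134217728 : ℕ) : ℝ) / S ≤ x) (hx' : x ≤ (((134217728 : ℕ) : ℝ) + (67108864 : ℕ)) / S) :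
    TriA PP.cur (nearL (h0 * 0) 3 κ (h0 * x) (tbl tKN x) (tbl tL x)) 1 0 2 1 2 1 (-1) :=
  (sideN hx hx').nearA (Or.inl rfl) (Or.inr rfl) fun y y' F =>
    nearA_cert (s1 := true) (s2 := false) rfl hκ covN11 covN20 hx hx'
        Pool.Agent.Strip051.G.I1_8_3_16.Tab.C.NA12.c_pm_102 noCut_A noExt_A F trivial trivial

theorem NA12_pm_112 {κ x : ℝ} (hκ : κ * h0 = ken x) (hx : ((134217728 : ℕ) : ℝ) / S ≤ x) (hx' : x ≤ (((134217728 : ℕ) : ℝ) + (67108864 : ℕ)) / S) :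
    TriA PP.cur (nearL (h0 * 0) 3 κ (h0 * x) (tbl tKN x) (tbl tL x)) 1 1 2 1 2 1 (-1) :=
  (sideN hx hx').nearA (Or.inl rfl) (Or.inr rfl) fun y y' F =>
    nearA_cert (s1 := true) (s2 := false) rfl hκ covN11 covN21 hx hx'
        Pool.Agent.Strip051.G.I1_8_3_16.Tab.C.NA12.c_pm_112 noCut_A noExt_A F trivial trivial

theorem NA12_pm_113 {κ x : ℝ} (hκ : κ * h0 = ken x) (hx : ((134217728 : ℕ) : ℝ) / S ≤ x) (hx' : x ≤ (((134217728 : ℕ) : ℝ) + (67108864 : ℕ)) / S) :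
    TriA PP.cur (nearL (h0 * 0) 3 κ (h0 * x) (tbl tKN x) (tbl tL x)) 1 1 3 1 2 1 (-1) :=
  (sideN hx hx').nearA (Or.inl rfl) (Or.inr rfl) fun y y' F =>
    nearA_cert (s1 := true) (s2 := false) rfl hκ covN11 covN21 hx hx'
        Pool.Agent.Strip051.G.I1_8_3_16.Tab.C.NA12.c_pm_113 noCut_A noExt_A F trivial trivial

theorem NA12_pm_123 {κ x : ℝ} (hκ : κ * h0 = ken x) (hx : ((134217728 : ℕ) : ℝ) / S ≤ x) (hx' : x ≤ (((134217728 : ℕ) : ℝ) + (67108864 : ℕ)) / S) :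
    TriA PP.cur (nearL (h0 * 0) 3 κ (h0 * x) (tbl tKN x) (tbl tL x)) 1 2 3 1 2 1 (-1) :=
  (sideN hx hx').nearA (Or.inl rfl) (Or.inr rfl) fun y y' F =>
    (lt_or_ge (h0 * y') 1).elim
      (fun g => nearA_cert (s1 := true) (s2 := false) rfl hκ covN11 covN22a hx hx'
        Pool.Agent.Strip051.G.I1_8_3_16.Tab.C.NA12.c_pm_123_a noCut_A noExt_A F trivial g)
      (fun g => nearA_cert (s1 := true) (s2 := false) rfl hκ covN11 covN22b hx hx'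
        Pool.Agent.Strip051.G.I1_8_3_16.Tab.C.NA12.c_pm_123_b noCut_A noExt_A F trivial g)

theorem NA12_pm_133 {κ x : ℝ} (hκ : κ * h0 = ken x) (hx : ((134217728 : ℕ) : ℝ) / S ≤ x) (hx' : x ≤ (((134217728 : ℕ) : ℝ) + (67108864 : ℕ)) / S) :
    TriA PP.cur (nearL (h0 * 0) 3 κ (h0 * x) (tbl tKN x) (tbl tL x)) 1 3 3 1 2 1 (-1) :=
  (sideN hx hx').nearA (Or.inl rfl) (Or.inr rfl) fun y y' F =>
    nearA_cert (s1 := true) (s2 := false) rfl hκ covN11 covN23 hx hx'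
        Pool.Agent.Strip051.G.I1_8_3_16.Tab.C.NA12.c_pm_133 noCut_A noExt_A F trivial trivial

theorem NA12_pm_202 {κ x : ℝ} (hκ : κ * h0 = ken x) (hx : ((134217728 : ℕ) : ℝ) / S ≤ x) (hx' : x ≤ (((134217728 : ℕ) : ℝ) + (67108864 : ℕ)) / S) :
    TriA PP.cur (nearL (h0 * 0) 3 κ (h0 * x) (tbl tKN x) (tbl tL x)) 2 0 2 1 2 1 (-1) :=
  (sideN hx hx').nearA (Or.inl rfl) (Or.inr rfl) fun y y' F =>
    (lt_or_ge (h0 * y) 1).elim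
      (fun h => nearA_cert (s1 := true) (s2 := false) rfl hκ covN12a covN20 hx hx'
        Pool.Agent.Strip051.G.I1_8_3_16.Tab.C.NA12.c_pm_202_a (cutA_cons (Pool.Agent.Strip051.G.I1_8_3_16.Tab.altN_A202E_12 hκ hx hx') cutA_nil) noExt_A F h trivial)
      (fun h => nearA_cert (s1 := true) (s2 := false) rfl hκ covN12b covN20 hx hx'
        Pool.Agent.Strip051.G.I1_8_3_16.Tab.C.NA12.c_pm_202_b (cutA_cons (Pool.Agent.Strip051.G.I1_8_3_16.Tab.altN_A202E_12 hκ hx hx') cutA_nil) noExt_A F h trivial)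

theorem NA12_pm_203 {κ x : ℝ} (hκ : κ * h0 = ken x) (hx : ((134217728 : ℕ) : ℝ) / S ≤ x) (hx' : x ≤ (((134217728 : ℕ) : ℝ) + (67108864 : ℕ)) / S) :
    TriA PP.cur (nearL (h0 * 0) 3 κ (h0 * x) (tbl tKN x) (tbl tL x)) 2 0 3 1 2 1 (-1) :=
  (sideN hx hx').nearA (Or.inl rfl) (Or.inr rfl) fun y y' F =>
    (lt_or_ge (h0 * y) 1).elim
      (fun h => nearA_cert (s1 := true) (s2 := false) rfl hκ covN12a covN20 hx hx'
        Pool.Agent.Strip051.G.I1_8_3_16.Tab.C.NA12.c_pm_203_a noCut_A noExt_A F h trivial)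
      (fun h => nearA_cert (s1 := true) (s2 := false) rfl hκ covN12b covN20 hx hx'
        Pool.Agent.Strip051.G.I1_8_3_16.Tab.C.NA12.c_pm_203_b noCut_A noExt_A F h trivial)

theorem NA12_pm_213 {κ x : ℝ} (hκ : κ * h0 = ken x) (hx : ((134217728 : ℕ) : ℝ) / S ≤ x) (hx' : x ≤ (((134217728 : ℕ) : ℝ) + (67108864 : ℕ)) / S) :
    TriA PP.cur (nearL (h0 * 0) 3 κ (h0 * x) (tbl tKN x) (tbl tL x)) 2 1 3 1 2 1 (-1) :=
  (sideN hx hx').nearA (Or.inl rfl) (Or.inr rfl) fun y y' F =>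
    (lt_or_ge (h0 * y) 1).elim
      (fun h => nearA_cert (s1 := true) (s2 := false) rfl hκ covN12a covN21 hx hx'
        Pool.Agent.Strip051.G.I1_8_3_16.Tab.C.NA12.c_pm_213_a noCut_A noExt_A F h trivial)
      (fun h => nearA_cert (s1 := true) (s2 := false) rfl hκ covN12b covN21 hx hx'
        Pool.Agent.Strip051.G.I1_8_3_16.Tab.C.NA12.c_pm_213_b noCut_A noExt_A F h trivial)

theorem NA12_pm_303 {κ x : ℝ} (hκ : κ * h0 = ken x) (hx : ((134217728 : ℕ) : ℝ) / S ≤ x) (hx' : x ≤ (((134217728 : ℕ) : ℝ) + (67108864 : ℕ)) / S) :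
    TriA PP.cur (nearL (h0 * 0) 3 κ (h0 * x) (tbl tKN x) (tbl tL x)) 3 0 3 1 2 1 (-1) :=
  (sideN hx hx').nearA (Or.inl rfl) (Or.inr rfl) fun y y' F =>
    nearA_cert (s1 := true) (s2 := false) rfl hκ covN13 covN20 hx hx'
        Pool.Agent.Strip051.G.I1_8_3_16.Tab.C.NA12.c_pm_303 noCut_A noExt_A F trivial trivial

theorem NA12_pm_313 {κ x : ℝ} (hκ : κ * h0 = ken x) (hx : ((134217728 : ℕ) : ℝ) / S ≤ x) (hx' : x ≤ (((134217728 : ℕ) : ℝ) + (67108864 : ℕ)) / S) :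
    TriA PP.cur (nearL (h0 * 0) 3 κ (h0 * x) (tbl tKN x) (tbl tL x)) 3 1 3 1 2 1 (-1) :=
  (sideN hx hx').nearA (Or.inl rfl) (Or.inr rfl) fun y y' F =>
    nearA_cert (s1 := true) (s2 := false) rfl hκ covN13 covN21 hx hx'
        Pool.Agent.Strip051.G.I1_8_3_16.Tab.C.NA12.c_pm_313 noCut_A noExt_A F trivial trivial

theorem NA12_mm_001 {κ x : ℝ} (hκ : κ * h0 = ken x) (hx : ((134217728 : ℕ) : ℝ) / S ≤ x) (hx' : x ≤ (((134217728 : ℕ) : ℝ) + (67108864 : ℕ)) / S) :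
    TriA PP.cur (nearL (h0 * 0) 3 κ (h0 * x) (tbl tKN x) (tbl tL x)) 0 0 1 1 2 (-1) (-1) :=
  (sideN hx hx').nearA (Or.inr rfl) (Or.inr rfl) fun y y' F =>
    nearA_cert (s1 := false) (s2 := false) rfl hκ covN10 covN20 hx hx'
        Pool.Agent.Strip051.G.I1_8_3_16.Tab.C.NA12.c_mm_001 noCut_A noExt_A F trivial trivial

theorem NA12_mm_011 {κ x : ℝ} (hκ : κ * h0 = ken x) (hx : ((134217728 : ℕ) : ℝ) / S ≤ x) (hx' : x ≤ (((134217728 : ℕ) : ℝ) + (67108864 : ℕ)) / S) :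
    TriA PP.cur (nearL (h0 * 0) 3 κ (h0 * x) (tbl tKN x) (tbl tL x)) 0 1 1 1 2 (-1) (-1) :=
  (sideN hx hx').nearA (Or.inr rfl) (Or.inr rfl) fun y y' F =>
    nearA_cert (s1 := false) (s2 := false) rfl hκ covN10 covN21 hx hx'
        Pool.Agent.Strip051.G.I1_8_3_16.Tab.C.NA12.c_mm_011 noCut_A noExt_A F trivial trivial

theorem NA12_mm_012 {κ x : ℝ} (hκ : κ * h0 = ken x) (hx : ((134217728 : ℕ) : ℝ) / S ≤ x) (hx' : x ≤ (((134217728 : ℕ) : ℝ) + (67108864 : ℕ)) / S) :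
    TriA PP.cur (nearL (h0 * 0) 3 κ (h0 * x) (tbl tKN x) (tbl tL x)) 0 1 2 1 2 (-1) (-1) :=
  (sideN hx hx').nearA (Or.inr rfl) (Or.inr rfl) fun y y' F =>
    nearA_cert (s1 := false) (s2 := false) rfl hκ covN10 covN21 hx hx'
        Pool.Agent.Strip051.G.I1_8_3_16.Tab.C.NA12.c_mm_012 noCut_A noExt_A F trivial trivial

theorem NA12_mm_022 {κ x : ℝ} (hκ : κ * h0 = ken x) (hx : ((134217728 : ℕ) : ℝ) / S ≤ x) (hx' : x ≤ (((134217728 : ℕ) : ℝ) + (67108864 : ℕ)) / S) :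
    TriA PP.cur (nearL (h0 * 0) 3 κ (h0 * x) (tbl tKN x) (tbl tL x)) 0 2 2 1 2 (-1) (-1) :=
  (sideN hx hx').nearA (Or.inr rfl) (Or.inr rfl) fun y y' F =>
    (lt_or_ge (h0 * y') 1).elim
      (fun g => nearA_cert (s1 := false) (s2 := false) rfl hκ covN10 covN22a hx hx'
        Pool.Agent.Strip051.G.I1_8_3_16.Tab.C.NA12.c_mm_022_a noCut_A noExt_A F trivial g)
      (fun g => nearA_cert (s1 := false) (s2 := false) rfl hκ covN10 covN22b hx hx'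
        Pool.Agent.Strip051.G.I1_8_3_16.Tab.C.NA12.c_mm_022_b noCut_A noExt_A F trivial g)

theorem NA12_mm_023 {κ x : ℝ} (hκ : κ * h0 = ken x) (hx : ((134217728 : ℕ) : ℝ) / S ≤ x) (hx' : x ≤ (((134217728 : ℕ) : ℝ) + (67108864 : ℕ)) / S) :
    TriA PP.cur (nearL (h0 * 0) 3 κ (h0 * x) (tbl tKN x) (tbl tL x)) 0 2 3 1 2 (-1) (-1) :=
  (sideN hx hx').nearA (Or.inr rfl) (Or.inr rfl) fun y y' F =>
    (lt_or_ge (h0 * y') 1).elim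
      (fun g => nearA_cert (s1 := false) (s2 := false) rfl hκ covN10 covN22a hx hx'
        Pool.Agent.Strip051.G.I1_8_3_16.Tab.C.NA12.c_mm_023_a noCut_A noExt_A F trivial g)
      (fun g => nearA_cert (s1 := false) (s2 := false) rfl hκ covN10 covN22b hx hx'
        Pool.Agent.Strip051.G.I1_8_3_16.Tab.C.NA12.c_mm_023_b noCut_A noExt_A F trivial g)

theorem NA12_mm_033 {κ x : ℝ} (hκ : κ * h0 = ken x) (hx : ((134217728 : ℕ) : ℝ) / S ≤ x) (hx' : x ≤ (((134217728 : ℕ) : ℝ) + (67108864 : ℕ)) / S) :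
    TriA PP.cur (nearL (h0 * 0) 3 κ (h0 * x) (tbl tKN x) (tbl tL x)) 0 3 3 1 2 (-1) (-1) :=
  (sideN hx hx').nearA (Or.inr rfl) (Or.inr rfl) fun y y' F =>
    nearA_cert (s1 := false) (s2 := false) rfl hκ covN10 covN23 hx hx'
        Pool.Agent.Strip051.G.I1_8_3_16.Tab.C.NA12.c_mm_033 noCut_A noExt_A F trivial trivial

theorem NA12_mm_101 {κ x : ℝ} (hκ : κ * h0 = ken x) (hx : ((134217728 : ℕ) : ℝ) / S ≤ x) (hx' : x ≤ (((134217728 : ℕ) : ℝ) + (67108864 : ℕ)) / S) :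
    TriA PP.cur (nearL (h0 * 0) 3 κ (h0 * x) (tbl tKN x) (tbl tL x)) 1 0 1 1 2 (-1) (-1) :=
  (sideN hx hx').nearA (Or.inr rfl) (Or.inr rfl) fun y y' F =>
    nearA_cert (s1 := false) (s2 := false) rfl hκ covN11 covN20 hx hx'
        Pool.Agent.Strip051.G.I1_8_3_16.Tab.C.NA12.c_mm_101 noCut_A noExt_A F trivial trivial

theorem NA12_mm_102 {κ x : ℝ} (hκ : κ * h0 = ken x) (hx : ((134217728 : ℕ) : ℝ) / S ≤ x) (hx' : x ≤ (((134217728 : ℕ) : ℝ) + (67108864 : ℕ)) / S) :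
    TriA PP.cur (nearL (h0 * 0) 3 κ (h0 * x) (tbl tKN x) (tbl tL x)) 1 0 2 1 2 (-1) (-1) :=
  (sideN hx hx').nearA (Or.inr rfl) (Or.inr rfl) fun y y' F =>
    nearA_cert (s1 := false) (s2 := false) rfl hκ covN11 covN20 hx hx'
        Pool.Agent.Strip051.G.I1_8_3_16.Tab.C.NA12.c_mm_102 noCut_A noExt_A F trivial trivial

theorem NA12_mm_112 {κ x : ℝ} (hκ : κ * h0 = ken x) (hx : ((134217728 : ℕ) : ℝ) / S ≤ x) (hx' : x ≤ (((134217728 : ℕ) : ℝ) + (67108864 : ℕ)) / S) :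
    TriA PP.cur (nearL (h0 * 0) 3 κ (h0 * x) (tbl tKN x) (tbl tL x)) 1 1 2 1 2 (-1) (-1) :=
  (sideN hx hx').nearA (Or.inr rfl) (Or.inr rfl) fun y y' F =>
    nearA_cert (s1 := false) (s2 := false) rfl hκ covN11 covN21 hx hx'
        Pool.Agent.Strip051.G.I1_8_3_16.Tab.C.NA12.c_mm_112 noCut_A noExt_A F trivial trivial

theorem NA12_mm_113 {κ x : ℝ} (hκ : κ * h0 = ken x) (hx : ((134217728 : ℕ) : ℝ) / S ≤ x) (hx' : x ≤ (((134217728 : ℕ) : ℝ) + (67108864 : ℕ)) / S) :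
    TriA PP.cur (nearL (h0 * 0) 3 κ (h0 * x) (tbl tKN x) (tbl tL x)) 1 1 3 1 2 (-1) (-1) :=
  (sideN hx hx').nearA (Or.inr rfl) (Or.inr rfl) fun y y' F =>
    nearA_cert (s1 := false) (s2 := false) rfl hκ covN11 covN21 hx hx'
        Pool.Agent.Strip051.G.I1_8_3_16.Tab.C.NA12.c_mm_113 noCut_A noExt_A F trivial trivial

theorem NA12_mm_123 {κ x : ℝ} (hκ : κ * h0 = ken x) (hx : ((134217728 : ℕ) : ℝ) / S ≤ x) (hx' : x ≤ (((134217728 : ℕ) : ℝ) + (67108864 : ℕ)) / S) :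
    TriA PP.cur (nearL (h0 * 0) 3 κ (h0 * x) (tbl tKN x) (tbl tL x)) 1 2 3 1 2 (-1) (-1) :=
  (sideN hx hx').nearA (Or.inr rfl) (Or.inr rfl) fun y y' F =>
    (lt_or_ge (h0 * y') 1).elim
      (fun g => nearA_cert (s1 := false) (s2 := false) rfl hκ covN11 covN22a hx hx'
        Pool.Agent.Strip051.G.I1_8_3_16.Tab.C.NA12.c_mm_123_a noCut_A noExt_A F trivial g)
      (fun g => nearA_cert (s1 := false) (s2 := false) rfl hκ covN11 covN22b hx hx'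
        Pool.Agent.Strip051.G.I1_8_3_16.Tab.C.NA12.c_mm_123_b noCut_A noExt_A F trivial g)

theorem NA12_mm_133 {κ x : ℝ} (hκ : κ * h0 = ken x) (hx : ((134217728 : ℕ) : ℝ) / S ≤ x) (hx' : x ≤ (((134217728 : ℕ) : ℝ) + (67108864 : ℕ)) / S) :
    TriA PP.cur (nearL (h0 * 0) 3 κ (h0 * x) (tbl tKN x) (tbl tL x)) 1 3 3 1 2 (-1) (-1) :=
  (sideN hx hx').nearA (Or.inr rfl) (Or.inr rfl) fun y y' F =>
    nearA_cert (s1 := false) (s2 := false) rfl hκ covN11 covN23 hx hx'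
        Pool.Agent.Strip051.G.I1_8_3_16.Tab.C.NA12.c_mm_133 noCut_A noExt_A F trivial trivial

theorem NA12_mm_202 {κ x : ℝ} (hκ : κ * h0 = ken x) (hx : ((134217728 : ℕ) : ℝ) / S ≤ x) (hx' : x ≤ (((134217728 : ℕ) : ℝ) + (67108864 : ℕ)) / S) :
    TriA PP.cur (nearL (h0 * 0) 3 κ (h0 * x) (tbl tKN x) (tbl tL x)) 2 0 2 1 2 (-1) (-1) :=
  (sideN hx hx').nearA (Or.inr rfl) (Or.inr rfl) fun y y' F =>
    (lt_or_ge (h0 * y) 1).elim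
      (fun h => nearA_cert (s1 := false) (s2 := false) rfl hκ covN12a covN20 hx hx'
        Pool.Agent.Strip051.G.I1_8_3_16.Tab.C.NA12.c_mm_202_a (cutA_cons (Pool.Agent.Strip051.G.I1_8_3_16.Tab.altN_A202R_12 hκ hx hx') cutA_nil) noExt_A F h trivial)
      (fun h => nearA_cert (s1 := false) (s2 := false) rfl hκ covN12b covN20 hx hx'
        Pool.Agent.Strip051.G.I1_8_3_16.Tab.C.NA12.c_mm_202_b (cutA_cons (Pool.Agent.Strip051.G.I1_8_3_16.Tab.altN_A202R_12 hκ hx hx') cutA_nil) noExt_A F h trivial)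

theorem NA12_mm_203 {κ x : ℝ} (hκ : κ * h0 = ken x) (hx : ((134217728 : ℕ) : ℝ) / S ≤ x) (hx' : x ≤ (((134217728 : ℕ) : ℝ) + (67108864 : ℕ)) / S) :
    TriA PP.cur (nearL (h0 * 0) 3 κ (h0 * x) (tbl tKN x) (tbl tL x)) 2 0 3 1 2 (-1) (-1) :=
  (sideN hx hx').nearA (Or.inr rfl) (Or.inr rfl) fun y y' F =>
    (lt_or_ge (h0 * y) 1).elim
      (fun h => nearA_cert (s1 := false) (s2 := false) rfl hκ covN12a covN20 hx hx'
        Pool.Agent.Strip051.G.I1_8_3_16.Tab.C.NA12.c_mm_203_a noCut_A noExt_A F h trivial)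
      (fun h => nearA_cert (s1 := false) (s2 := false) rfl hκ covN12b covN20 hx hx'
        Pool.Agent.Strip051.G.I1_8_3_16.Tab.C.NA12.c_mm_203_b noCut_A noExt_A F h trivial)

theorem NA12_mm_213 {κ x : ℝ} (hκ : κ * h0 = ken x) (hx : ((134217728 : ℕ) : ℝ) / S ≤ x) (hx' : x ≤ (((134217728 : ℕ) : ℝ) + (67108864 : ℕ)) / S) :
    TriA PP.cur (nearL (h0 * 0) 3 κ (h0 * x) (tbl tKN x) (tbl tL x)) 2 1 3 1 2 (-1) (-1) :=
  (sideN hx hx').nearA (Or.inr rfl) (Or.inr rfl) fun y y' F =>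
    (lt_or_ge (h0 * y) 1).elim
      (fun h => nearA_cert (s1 := false) (s2 := false) rfl hκ covN12a covN21 hx hx'
        Pool.Agent.Strip051.G.I1_8_3_16.Tab.C.NA12.c_mm_213_a noCut_A noExt_A F h trivial)
      (fun h => nearA_cert (s1 := false) (s2 := false) rfl hκ covN12b covN21 hx hx'
        Pool.Agent.Strip051.G.I1_8_3_16.Tab.C.NA12.c_mm_213_b noCut_A noExt_A F h trivial)

theorem NA12_mm_303 {κ x : ℝ} (hκ : κ * h0 = ken x) (hx : ((134217728 : ℕ) : ℝ) / S ≤ x) (hx' : x ≤ (((134217728 : ℕ) : ℝ) + (67108864 : ℕ)) / S) :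
    TriA PP.cur (nearL (h0 * 0) 3 κ (h0 * x) (tbl tKN x) (tbl tL x)) 3 0 3 1 2 (-1) (-1) :=
  (sideN hx hx').nearA (Or.inr rfl) (Or.inr rfl) fun y y' F =>
    nearA_cert (s1 := false) (s2 := false) rfl hκ covN13 covN20 hx hx'
        Pool.Agent.Strip051.G.I1_8_3_16.Tab.C.NA12.c_mm_303 noCut_A noExt_A F trivial trivial

theorem NA12_mm_313 {κ x : ℝ} (hκ : κ * h0 = ken x) (hx : ((134217728 : ℕ) : ℝ) / S ≤ x) (hx' : x ≤ (((134217728 : ℕ) : ℝ) + (67108864 : ℕ)) / S) :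
    TriA PP.cur (nearL (h0 * 0) 3 κ (h0 * x) (tbl tKN x) (tbl tL x)) 3 1 3 1 2 (-1) (-1) :=
  (sideN hx hx').nearA (Or.inr rfl) (Or.inr rfl) fun y y' F =>
    nearA_cert (s1 := false) (s2 := false) rfl hκ covN13 covN21 hx hx'
        Pool.Agent.Strip051.G.I1_8_3_16.Tab.C.NA12.c_mm_313 noCut_A noExt_A F trivial trivial

theorem NA12 {κ x : ℝ} (hκ : κ * h0 = ken x) (hx : ((134217728 : ℕ) : ℝ) / S ≤ x) (hx' : x ≤ (((134217728 : ℕ) : ℝ) + (67108864 : ℕ)) / S) : AllTA PP.cur (nearL (h0 * 0) 3 κ (h0 * x) (tbl tKN x) (tbl tL x)) 1 2 where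
  pp := all17 (Q := fun a b c => TriA PP.cur (nearL (h0 * 0) 3 κ (h0 * x) (tbl tKN x) (tbl tL x)) a b c 1 2 1 1)
    (NA12_pp_001 hκ hx hx') (NA12_pp_011 hκ hx hx') (NA12_pp_012 hκ hx hx') (NA12_pp_022 hκ hx hx') (NA12_pp_023 hκ hx hx') (NA12_pp_033 hκ hx hx') (NA12_pp_101 hκ hx hx') (NA12_pp_102 hκ hx hx') (NA12_pp_112 hκ hx hx') (NA12_pp_113 hκ hx hx') (NA12_pp_123 hκ hx hx') (NA12_pp_133 hκ hx hx') (NA12_pp_202 hκ hx hx') (NA12_pp_203 hκ hx hx') (NA12_pp_213 hκ hx hx') (NA12_pp_303 hκ hx hx') (NA12_pp_313 hκ hx hx')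
  pm := all17 (Q := fun a b c => TriA PP.cur (nearL (h0 * 0) 3 κ (h0 * x) (tbl tKN x) (tbl tL x)) a b c 1 2 1 (-1))
    (NA12_pm_001 hκ hx hx') (NA12_pm_011 hκ hx hx') (NA12_pm_012 hκ hx hx') (NA12_pm_022 hκ hx hx') (NA12_pm_023 hκ hx hx') (NA12_pm_033 hκ hx hx') (NA12_pm_101 hκ hx hx') (NA12_pm_102 hκ hx hx') (NA12_pm_112 hκ hx hx') (NA12_pm_113 hκ hx hx') (NA12_pm_123 hκ hx hx') (NA12_pm_133 hκ hx hx') (NA12_pm_202 hκ hx hx') (NA12_pm_203 hκ hx hx') (NA12_pm_213 hκ hx hx') (NA12_pm_303 hκ hx hx') (NA12_pm_313 hκ hx hx')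
  mm := all17 (Q := fun a b c => TriA PP.cur (nearL (h0 * 0) 3 κ (h0 * x) (tbl tKN x) (tbl tL x)) a b c 1 2 (-1) (-1))
    (NA12_mm_001 hκ hx hx') (NA12_mm_011 hκ hx hx') (NA12_mm_012 hκ hx hx') (NA12_mm_022 hκ hx hx') (NA12_mm_023 hκ hx hx') (NA12_mm_033 hκ hx hx') (NA12_mm_101 hκ hx hx') (NA12_mm_102 hκ hx hx') (NA12_mm_112 hκ hx hx') (NA12_mm_113 hκ hx hx') (NA12_mm_123 hκ hx hx') (NA12_mm_133 hκ hx hx') (NA12_mm_202 hκ hx hx') (NA12_mm_203 hκ hx hx') (NA12_mm_213 hκ hx hx') (NA12_mm_303 hκ hx hx') (NA12_mm_313 hκ hx hx')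

end Pool.Agent.Strip051.G.I1_8_3_16.Tab
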