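import Pool.Agent.Strip051.G.I1_8_3_16.Tab

/-! # Certificates N10 (generated) -/

set_option linter.all false
set_option maxRecDepth 100000

namespace Pool.Agent.Strip051.G.I1_8_3_16.Tab.C.NB00

open Pool.Agent.Strip051.PB Pool.Agent.Strip051.PB.T
open Pool.Agent.Strip051.G.I1_8_3_16.Tab

noncomputable def cut_pm_011 : Cut := Cut.of [[⟨0, 0, 0, 67108864⟩, ⟨1, 1, 0, 67108864⟩, ⟨2, 1, 0, 67108864⟩], [⟨0, 0, 1, 41943040⟩, ⟨1, 1, 2, 41943040⟩, ⟨2, 1, 0, 16777216⟩]]

noncomputable def f_pm_011 : ℕ → ℕ → ℕ → ℕ → Bool := onCell 0 536870912 536870912 536870912 134217728 67108864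
    (rowN 3 0 false true false .pnn 0 1 1 (qsf 0 536870912 536870912 536870912 1) ndN0q0 ndN0q1 pcN1 cut_pm_011 Ext.none)

def k0_pm_011 : ∃ t, chk3 f_pm_011 t 2 2 1 = true :=
  ⟨(l 4), by decide +kernel⟩

def k1_pm_011 : ∃ t, chk3 f_pm_011 t 4 6 1 = true :=
  ⟨(l 4), by decide +kernel⟩

def k2_pm_011 : ∃ t, chk3 f_pm_011 t 4 14 1 = true :=
  ⟨(a (l 4) (b (l 4) (a (l 4) (b (l 4) (a (l 4) (b (l 4) (a (b (l 4) (a (l 4) (b (l 4) (a (l 108145956679) (b (l 106535341847) (a (l 73249339863) (l 16783664))))))) (b (a (l 4) (b (a (l 4) (l 118346504471)) (a (c (l 90966085319) (l 92039826967)) (b (b (l 93650438551) (l 61975051543)) (l 16783160))))) (a (b (a (l 101703504647) (b (l 89892342455) (a (l 51237632263) (l 16780624)))) (a (c (b (l 43184567159) (l 16780672)) (l 27078440327)) (l 16784224))) (b (c (l 10435440839) (l 16784088)) (l 16781856))))))))))), by decide +kernel⟩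

def k3_pm_011 : ∃ t, chk3 f_pm_011 t 8 30 1 = true :=
  ⟨(a (l 4) (b (l 4) (a (l 4) (b (l 4) (a (l 4) (b (l 4) (a (l 4) (b (l 4) (a (a (l 4) (b (l 4) (b (l 4) (a (l 88281720055) (c (l 46942657079) (l 45868914727)))))) (c (b (b (l 103314107671) (a (l 4) (a (l 72175590599) (l 35668367879)))) (b (a (a (l 83449882087) (l 41037077111)) (l 16778544)) (l 16780568))) (b (a (l 4) (a (l 89892333191) (b (l 106535326231) (l 16780312)))) (a (b (a (l 85597359943) (l 40500205655)) (l 16778336)) (l 16780368))))))))))))), by decide +kernel⟩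

def k4_pm_011 : ∃ t, chk3 f_pm_011 t 16 31 1 = true :=
  ⟨(b (b (l 4) (l 6)) (l 6)), by decide +kernel⟩

def k5_pm_011 : ∃ t, chk3 f_pm_011 t 34 124 1 = true :=
  ⟨(a (l 4) (b (l 4) (a (l 4) (b (l 4) (a (l 4) (c (b (l 4) (b (b (a (l 4) (l 92039815399)) (a (l 4) (a (l 89892331399) (l 31910269015)))) (b (a (l 96334782695) (c (l 21172850615) (l 16779320))) (a (a (l 95797906183) (l 38352719943)) (l 16780064))))) (b (l 4) (b (a (l 4) (a (l 96334782407) (a (l 63585653367) (l 42647687399)))) (a (a (l 100629749719) (a (l 79154910023) (l 48016396535))) (c (l 16778968) (l 16778920))))))))))), by decide +kernel⟩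

def k6_pm_011 : ∃ t, chk3 f_pm_011 t 68 125 1 = true :=
  ⟨(b (b (l 4) (l 6)) (l 6)), by decide +kernel⟩

def k7_pm_011 : ∃ t, chk3 f_pm_011 t 138 250 1 = true :=
  ⟨(b (a (l 4) (c (b (l 4) (a (a (l 4) (a (l 118346487671) (b (l 4) (a (l 85060490119) (l 73786200759))))) (a (a (b (l 4) (b (l 83449876327) (l 16778016))) (b (l 4) (l 26541559559))) (a (b (l 92039812247) (l 16780320)) (b (a (l 79691780983) (l 60901298519)) (l 16780000)))))) (b (l 4) (b (a (l 4) (a (l 4) (a (l 94187295655) (l 73786200567)))) (b (a (l 4) (a (l 60901298183) (l 16777752))) (a (c (l 83449877271) (l 84523618983)) (l 16780088))))))) (a (a (l 6) (a (l 6) (b (b (b (l 4) (l 6)) (l 6)) (l 6)))) (c (b (a (b (b (a (l 66806878327) (l 16779184)) (l 16778872)) (l 16779224)) (l 16778552)) (a (l 16777272) (l 16775944))) (b (a (b (b (a (l 66806878087) (l 16779080)) (l 16778800)) (l 16779240)) (l 16778624)) (c (l 16776800) (l 16776920)))))), by decide +kernel⟩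

def k8_pm_011 : ∃ t, chk3 f_pm_011 t 139 250 1 = true :=
  ⟨(b (a (c (b (b (b (l 122104584583) (a (l 4) (a (l 102240357143) (l 45868912823)))) (b (a (l 4) (a (l 49090138359) (l 16777808))) (a (a (l 4) (l 52311363815)) (l 16780120)))) (c (a (a (a (b (l 42647687047) (l 16777056)) (l 9898561015)) (l 16779496)) (c (l 16781088) (l 16781112))) (a (a (a (b (l 42110816007) (l 16777040)) (l 16778648)) (l 16779488)) (l 16778520)))) (b (b (b (l 125862680743) (a (l 4) (a (l 104387840519) (l 43721428887)))) (b (a (l 4) (c (l 29762784839) (l 29225913815))) (a (a (l 4) (l 51774492631)) (l 16780040)))) (c (a (a (b (l 34057752167) (l 16776872)) (l 16779480)) (l 16778552)) (a (a (b (l 32447139159) (l 16776856)) (l 16779464)) (l 16778584))))) (a (b (b (a (c (c (l 26004688855) (l 25467817655)) (l 24930947047)) (c (l 16780080) (l 16777384))) (c (l 16781744) (l 16779128))) (c (l 16779800) (l 16777360))) (c (c (c (l 16778392) (l 16778440)) (l 16778184)) (c (l 16777952) (l 16778032))))) (c (a (b (c (l 16779112) (l 16779256))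 (l 16774856)) (b (l 16774960) (l 16772832))) (a (b (l 16777464) (l 16774456)) (b (l 16774408) (l 16774672))))), by decide +kernel⟩

def k9_pm_011 : ∃ t, chk3 f_pm_011 t 69 251 1 = true :=
  ⟨(a (a (l 6) (b (b (c (l 16774584) (l 16775816)) (l 6)) (l 6))) (a (b (c (c (l 16772584) (l 16772080)) (b (l 16774872) (l 16773136))) (b (c (l 16770112) (l 16771392)) (l 6))) (b (c (c (l 16770944) (l 16770312)) (l 16770752)) (c (c (l 16768136) (l 16767224)) (l 16767264))))), by decide +kernel⟩

def k10_pm_011 : ∃ t, chk3 f_pm_011 t 70 248 1 = true :=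
  ⟨(a (l 4) (b (l 4) (a (a (l 4) (b (l 4) (c (l 112440911815) (l 117272749687)))) (c (b (a (l 4) (b (l 4) (l 90429201047))) (b (b (a (l 4) (c (l 49090139639) (l 48553268343))) (a (l 90966074231) (l 16779760))) (a (a (a (l 67343750743) (l 45332043143)) (l 16779776)) (l 16780160)))) (b (a (l 4) (b (l 4) (l 92576686903))) (b (a (l 96334783335) (a (l 48553268679) (l 16780872))) (b (a (l 53921977783) (l 16777712)) (l 9898562375)))))))), by decide +kernel⟩

def k11_pm_011 : ∃ t, chk3 f_pm_011 t 70 249 1 = true :=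
  ⟨(a (b (b (l 4) (b (a (l 4) (a (l 4) (a (c (c (l 76470556343) (l 77544297975)) (l 78618039543)) (c (c (l 34057753255) (l 33520882151)) (l 33520882391))))) (a (l 4) (c (a (a (l 81302394487) (a (l 47479526295) (l 26541560375))) (l 16780272)) (a (a (l 82913006871) (l 37815849687)) (l 16780160)))))) (a (c (b (b (a (l 4) (a (l 85597361799) (a (l 53385106375) (l 32447140423)))) (a (a (l 89892329111) (a (l 58753815431) (l 37815849527))) (l 16779008))) (c (a (c (l 16779064) (l 16779056)) (l 16781008)) (a (l 16779040) (l 16781040)))) (b (b (a (l 4) (a (l 87744845127) (a (l 52848235127) (l 30836527351)))) (a (a (l 92039815079) (a (l 58216944199) (l 36742107399))) (l 16778896))) (c (a (l 16779664) (l 16781072)) (l 16779056)))) (b (a (c (l 16779656) (l 16779608)) (c (c (l 16780960) (l 16780992)) (l 16781024))) (c (l 16777744) (l 16779280))))) (b (a (c (b (b (a (l 101166621959) (a (a (l 80228655447) (l 51237623159)) (l 24394077127))) (a (c (a (l 72175589015) (l 29225915031)) (a (l 65196266647) (l 28689043863)))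 (l 16780216))) (a (l 16779608) (l 16780928))) (b (b (a (l 103314105255) (a (l 60364428775) (l 16779600))) (a (a (l 73786201287) (l 27615302263)) (l 16780104))) (c (l 16778952) (l 16778944)))) (b (c (c (l 16778904) (l 16778904)) (c (l 16778896) (l 16778888))) (c (l 16778968) (l 16779168)))) (c (a (b (l 16779008) (l 16776440)) (b (l 16776400) (l 16774424))) (a (c (l 16777976) (l 16778120)) (l 16775000))))), by decide +kernel⟩

def k12_pm_011 : ∃ t, chk3 f_pm_011 t 71 124 1 = true :=
  ⟨(b (a (b (a (a (l 4) (a (l 4) (b (l 4) (b (l 4) (c (l 76470556903) (l 78081171815)))))) (a (b (l 4) (b (a (l 112977782087) (c (l 64122526231) (l 64122525751))) (c (c (l 23320335815) (l 22783464679)) (l 22246594119)))) (c (b (a (l 101166622967) (b (l 4) (l 59290687991))) (c (l 11509175831) (l 16779952))) (a (b (l 103314106167) (l 13656659287)) (b (b (l 4) (l 57143203863)) (l 16777576)))))) (a (c (b (b (a (c (l 86671104743) (l 87744846343)) (c (c (l 27615303015) (l 27078432007)) (l 27078432007))) (b (a (a (l 68954363495) (l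 16778712)) (l 16777800)) (l 16780424))) (c (l 16781480) (l 16781472))) (b (b (a (l 88818587863) (c (l 26004689975) (l 25467818775))) (a (a (l 43721430487) (l 16778232)) (l 16777360))) (l 16778832))) (b (c (l 16778800) (l 16778776)) (c (l 16778880) (a (l 16779664) (l 16778464)))))) (b (a (c (b (a (b (a (l 94187295127) (l 52311366135)) (l 15267272455)) (l 16780608)) (l 16781368)) (b (a (b (a (l 96334778279) (l 51774494727)) (l 16779696)) (l 16780424)) (l 16778720))) (c (b (l 16781320) (c (l 16783992) (l 16784080))) (b (l 16781280) (l 16778952)))) (a (c (l 16776912) (l 16777840)) (c (l 16774992) (l 16775456))))) (a (b (c (a (b (l 16778920) (l 16776368)) (b (l 16776328) (l 16773832))) (a (l 16777288) (l 16775552))) (c (a (b (l 16774136) (l 16772648)) (l 16769640)) (a (l 16773264) (l 16770880)))) (c (b (a (b (l 16778992) (l 16777272)) (l 16770952)) (a (l 16767832) (l 16766664))) (b (a (l 16773176) (l 16770800)) (a (l 16768552) (l 16771768)))))), by decide +kernel⟩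

def k13_pm_011 : ∃ t, chk3 f_pm_011 t 35 125 1 = true :=
  ⟨(b (a (a (b (c (a (b (l 16777128) (l 16775376)) (b (a (l 16777128) (l 16776008)) (l 16774960))) (a (c (l 16777088) (l 16776920)) (b (l 16776928) (l 16774576)))) (c (a (c (l 16772104) (l 16771616)) (c (l 16770440) (l 16772448))) (a (b (l 16774624) (l 16772704)) (l 16770304)))) (c (b (a (b (l 16774696) (l 16773224)) (c (l 16772496) (l 16771920))) (c (l 16769544) (l 16768424))) (b (a (b (l 16774528) (l 16772232)) (b (l 16772136) (l 16770248))) (a (l 16769640) (l 16767656))))) (c (a (b (c (l 16768608) (l 16767848)) (c (l 16765776) (l 16764760))) (b (c (l 16765096) (l 16765432)) (c (l 16762256) (l 16762336)))) (a (b (a (l 16769120) (l 16767120)) (l 16765320)) (b (l 16764096) (l 16760640))))) (a (c (a (a (b (c (l 16769296) (l 16771152)) (c (l 16766488) (l 16768064))) (c (b (l 16767624) (l 16764816)) (b (l 16769360) (l 16766272)))) (b (c (c (l 16765360) (l 16766128)) (l 16765336)) (c (c (l 16762616) (l 16761928)) (c (l 16761264) (l 16763232))))) (a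 (b (a (l 16768792) (l 16766832)) (c (l 16764824) (l 16765168))) (b (c (l 16764344) (l 16764728)) (c (l 16762304) (l 16761136))))) (b (a (c (c (l 16762944) (c (l 16763288) (l 16762664))) (l 16761856)) (c (c (l 16758104) (l 16759240)) (l 16757184))) (c (c (a (l 16761432) (l 16757984)) (a (l 16759880) (l 16756232))) (a (l 16759040) (l 16755104)))))), by decide +kernel⟩

def k14_pm_011 : ∃ t, chk3 f_pm_011 t 17 126 1 = true :=
  ⟨(a (a (l 6) (a (l 6) (a (l 6) (a (l 6) (b (b (b (c (l 16765024) (l 16765464)) (l 6)) (l 6)) (l 6)))))) (b (a (b (a (c (c (c (l 16764512) (l 16763800)) (c (l 16763104) (l 16762432))) (c (l 16762768) (l 16761552))) (c (c (c (l 16762584) (l 16761744)) (l 16760536)) (c (l 16759016) (l 16757600)))) (c (b (c (a (l 16760792) (l 16760272)) (a (l 16761808) (l 16758512))) (c (a (c (l 16762664) (l 16761800)) (l 16754496)) (a (l 16760552) (l 16752792)))) (a (a (l 16761184) (l 16760064)) (c (l 16757856) (l 16756344))))) (b (c (c (a (c (l 16760760) (l 16758528)) (c (l 16756272) (l 16755320)))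 (b (a (l 16762864) (l 16759480)) (a (l 16756408) (l 16748648)))) (c (a (l 16758144) (l 16752200)) (a (l 16756576) (l 16755808)))) (a (c (c (l 16755056) (l 16750712)) (l 16753552)) (c (c (l 16750280) (l 16748600)) (l 16751480))))) (a (c (c (a (b (c (l 16756592) (l 16755792)) (l 6)) (b (l 16756992) (c (l 16753632) (l 16753000)))) (a (b (l 16757264) (l 6)) (b (l 16752528) (l 16752064)))) (a (a (l 6) (b (l 16757192) (l 6))) (c (b (l 16751088) (l 16750864)) (b (l 16749728) (l 16749704))))) (b (c (c (a (l 16751960) (l 16749912)) (a (l 16750472) (l 16748456))) (c (a (l 16749056) (l 16747056)) (l 16751952))) (c (c (a (l 16752664) (l 16749424)) (a (l 16750128) (l 16748216))) (c (a (l 16748936) (l 16747040)) (a (l 16747776) (l 16745880)))))))), by decide +kernel⟩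

def k15_pm_011 : ∃ t, chk3 f_pm_011 t 17 127 1 = true :=
  ⟨(a (l 6) (b (c (a (a (l 6) (a (l 6) (b (c (l 16751976) (l 16751024)) (l 6)))) (b (c (a (c (l 16750848) (l 16750376)) (c (l 16749048) (l 16748584))) (a (l 16749664) (l 16747880))) (b (c (c (l 16749296) (l 16748944)) (c (l 16748584) (l 16748216))) (a (c (c (l 16749712) (l 16749432)) (l 16749000)) (c (c (l 16748120) (l 16747824)) (l 16747360)))))) (a (a (l 6) (b (b (l 16750128) (l 6)) (l 6))) (b (c (a (l 16748720) (l 16746936)) (a (l 16747776) (l 16745976))) (b (c (a (l 16748488) (l 16746792)) (l 16746864)) (c (a (l 16748384) (l 16746696)) (a (l 16747720) (l 16745984))))))) (c (b (a (l 6) (c (a (a (l 6) (b (l 16748936) (l 6))) (c (b (l 16748096) (l 16748240)) (b (l 16747728) (l 16747760)))) (a (b (l 16748600) (l 6)) (c (l 16747320) (l 16746880))))) (a (l 6) (a (l 6) (c (a (b (c (l 16748632) (l 16748056)) (l 6)) (c (b (l 16748048) (c (l 16748320) (l 16747960))) (b (l 16747440) (l 16747416)))) (c (b (l 16747152) (c (l 16747176) (l 16746816))) (b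 (l 16746552) (l 16746288))))))) (a (l 6) (b (c (a (c (l 16747888) (l 16747488)) (c (l 16746432) (l 16745968))) (a (c (l 16747080) (l 16746664)) (l 16745264))) (a (l 6) (c (c (b (l 16745936) (l 16745576)) (b (l 16745328) (l 16744856))) (c (b (l 16744704) (l 16744136)) (l 16743752))))))))), by decide +kernel⟩

def k16_pm_011 : ∃ t, chk3 f_pm_011 t 18 60 1 = true :=
  ⟨(a (l 4) (b (l 4) (a (l 4) (b (l 4) (a (a (l 4) (b (l 4) (c (b (l 104387848119) (a (a (l 92039815431) (l 62511919191)) (c (l 31910275863) (l 31373404455)))) (b (l 107072201767) (a (c (l 79691783239) (l 80228653687)) (l 31910275639)))))) (b (a (c (l 100629760743) (l 102777243543)) (a (b (l 4) (b (l 83986756151) (c (l 16781184) (l 16780720)))) (c (b (l 88281729639) (l 16780736)) (b (l 90966072839) (l 16780304))))) (a (c (b (a (a (l 82376138647) (l 52311371607)) (l 23857212167)) (l 16779496)) (b (a (l 60364435447) (l 16783080)) (l 16779096))) (c (l 16783352) (l 16783040))))))))), by decide +kernel⟩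

def k17_pm_011 : ∃ t, chk3 f_pm_011 t 36 122 1 = true :=
  ⟨(a (l 4) (b (l 4) (a (a (l 4) (a (l 4) (b (l 4) (c (l 101166626711) (l 103314109671))))) (b (b (l 4) (a (l 4) (a (l 4) (a (l 103314108727) (c (l 81302400967) (l 83449883735)))))) (c (a (b (a (l 4) (l 92039819655)) (a (b (l 91502942807) (l 37815853991)) (c (l 20635984391) (l 20099113063)))) (b (a (b (l 81839268935) (l 27615306615)) (l 16781768)) (l 16783360))) (b (b (a (l 4) (a (l 84523620023) (l 16779848))) (a (l 94187302519) (l 16781368))) (a (a (b (l 94187296567) (l 37278982423)) (l 19025371479)) (l 16777808)))))))), by decide +kernel⟩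

def k18_pm_011 : ∃ t, chk3 f_pm_011 t 72 123 1 = true :=
  ⟨(b (a (l 4) (b (l 4) (b (b (a (l 4) (a (l 4) (a (l 90966075815) (b (l 89355462631) (l 16781672))))) (a (l 4) (c (a (c (l 74859948567) (l 76470555703)) (l 16782072)) (a (l 77007431351) (l 16779112))))) (b (a (a (l 4) (c (l 79154914407) (l 81302398711))) (c (c (l 16781608) (l 16781456)) (l 16781232))) (a (c (a (l 83449883047) (l 24394079527)) (a (l 86134236967) (l 16780456))) (c (l 16777728) (l 16777512))))))) (a (b (a (b (l 4) (b (c (l 98482269415) (l 100629752535)) (a (l 110293428487) (a (b (l 92576687639) (l 44258303911)) (b (l 39426465591) (l 16781536)))))) (a (c (b (l 95797914823) (a (b (l 52848237895) (l 16778760)) (l 16781360))) (b (l 97945397911) (b (l 37278981079) (l 16778216)))) (c (b (b (l 87744850391) (a (l 46942657831) (l 16779280))) (l 16783064)) (b (b (l 90429204327) (l 32447142903)) (l 16777624))))) (a (c (b (a (b (a (l 65733139623) (l 29762787799)) (l 16778512)) (l 16783120)) (l 16781272)) (a (b (a (b (l 65733139223) (l 16778560))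 (l 16779832)) (l 16781808)) (l 16779160))) (c (b (l 16781224) (l 16783960)) (c (l 16779992) (l 16780000))))) (a (b (a (b (b (a (b (l 66270012215) (l 16781976)) (l 16781720)) (l 16780896)) (l 16779128)) (c (l 16780472) (l 16781656))) (c (l 16777424) (b (l 16784032) (l 16781712)))) (b (c (c (l 16785120) (l 16785128)) (c (l 16785128) (l 16785120))) (c (l 16780128) (l 16780504)))))), by decide +kernel⟩

def k19_pm_011 : ∃ t, chk3 f_pm_011 t 73 123 1 = true :=
  ⟨(b (a (b (a (c (b (l 103314109687) (b (a (l 4) (c (l 53921981031) (l 53921980487))) (a (c (l 59290690103) (l 58753818823)) (l 16779416)))) (b (l 105998463591) (b (a (l 4) (l 53921980759)) (a (l 58753819031) (l 16779072))))) (c (b (b (a (l 103314102935) (c (l 42647691783) (l 43721433159))) (a (a (l 67343753991) (l 16781384)) (l 16779376))) (l 16783464)) (b (a (b (l 105998456743) (l 47479529799)) (c (l 26541563975) (l 25467821463))) (l 16783184)))) (c (a (c (l 16779728) (l 16782256)) (l 16785040)) (a (l 16780968) (l 16779768)))) (b (c (a (l 16781224)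 (l 16784960)) (c (l 16780864) (l 16780784))) (c (l 16776048) (a (l 16782664) (l 16780320))))) (c (a (b (c (l 16781264) (l 16781408)) (a (l 16777616) (l 16775112))) (b (l 16771760) (a (l 16772632) (b (l 16781896) (l 16779744))))) (a (b (l 16776344) (l 16771736)) (b (l 16776896) (l 16772304))))), by decide +kernel⟩

def k20_pm_011 : ∃ t, chk3 f_pm_011 t 37 122 1 = true :=
  ⟨(a (b (a (b (l 4) (b (l 4) (b (a (l 4) (c (l 102777233975) (l 105998458551))) (a (l 4) (a (l 104387850791) (c (l 49627015703) (l 47479531079))))))) (b (b (l 4) (b (a (l 4) (c (a (l 4) (l 80228654743)) (l 90429207047))) (a (l 4) (c (a (l 84523622135) (l 16783656)) (a (l 86671104759) (l 16780504)))))) (a (a (c (b (l 101703492103) (b (l 42647693751) (l 16780240))) (b (l 100629749335) (c (l 26541564967) (l 25467822823)))) (c (b (b (l 89892331287) (l 36742113543)) (l 16779680)) (b (a (l 78081175079) (l 46405790071)) (l 16779224)))) (b (c (c (l 13119793287) (l 16782640)) (c (l 16782400) (l 16782160))) (l 16781640))))) (a (b (a (a (b (l 4)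 (b (c (l 65733142999) (l 65733142103)) (c (l 16780288) (l 16779840)))) (c (b (b (l 4) (l 60364433879)) (l 16779768)) (b (a (l 96334781079) (l 74859949031)) (l 16779344)))) (a (b (b (c (l 55532595767) (l 54995723943)) (l 16782656)) (l 16783672)) (c (l 16783832) (l 16783456)))) (c (c (l 16780920) (l 16780840)) (c (l 16780752) (l 16780656)))) (c (b (c (l 16786088) (l 16785984)) (a (l 16782432) (l 16790448))) (c (b (l 16780632) (l 16781264)) (b (l 16780520) (l 16781296)))))) (c (b (a (b (a (b (a (c (l 84523622807) (l 86134235031)) (b (l 63048789543) (l 16780896))) (l 16782584)) (l 16783856)) (l 16780432)) (b (l 16785192) (c (l 16790848) (l 16790936)))) (a (c (l 16778384) (l 16778520)) (a (l 16774512) (l 16782376)))) (b (b (a (a (b (a (l 86671110439) (c (l 39426468247) (l 39426467767))) (l 16782120)) (l 16783480)) (l 16785056)) (a (l 16780248) (l 16780552))) (a (c (l 16778648) (l 16778752)) (l 16771144))))), by decide +kernel⟩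

def k21_pm_011 : ∃ t, chk3 f_pm_011 t 37 123 1 = true :=
  ⟨(a (c (b (a (a (c (l 16779952) (l 16780088)) (l 16774280)) (b (l 16776328) (l 16771456))) (a (b (a (l 16772656) (l 16780696)) (a (l 16778520) (l 16776512))) (b (a (l 16778280) (l 16775856)) (a (l 16774488) (l 16772464))))) (b (a (c (l 16776408) (l 16776544)) (c (l 16774328) (l 16774576))) (a (b (l 16772248) (l 16767680)) (b (l 16767640) (l 16773584))))) (b (c (a (b (l 16771216) (a (l 16778160) (l 16775576))) (b (a (l 16777792) (l 16775192)) (a (l 16773008) (l 16771144)))) (a (l 16768344) (l 16764768))) (c (a (b (a (l 16773640) (l 16771768)) (l 16759152)) (b (l 16768960) (l 16750136))) (a (b (l 16773368) (l 16768856)) (b (l 16768544) (l 16764072)))))), by decide +kernel⟩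

def k22_pm_011 : ∃ t, chk3 f_pm_011 t 38 60 1 = true :=
  ⟨(b (a (l 4) (b (a (l 4) (b (l 4) (a (l 4) (c (l 93650440583) (l 95797923719))))) (a (b (a (l 4) (c (l 102777247111) (l 104924730167))) (b (a (l 106535342103) (c (c (l 45868921511) (l 45332050311)) (c (l 46942662759) (l 44795178823)))) (a (a (a (l 103314114903) (l 67880629303)) (c (l 35668372775) (l 16783496))) (l 16784896)))) (b (b (a (l 93650439287) (c (l 31910277319) (l 31373405959))) (a (a (a (l 67880628983) (l 46405792743)) (l 16783352)) (l 16784336))) (c (l 16779712) (l 16787504)))))) (a (b (a (b (l 4) (b (a (l 4) (a (l 105998470263) (c (l 65196274535) (l 63048790103)))) (b (a (l 105998465319) (c (l 35668373047) (l 34594630519))) (a (c (l 80765531319) (l 83449885031)) (l 16782776))))) (a (b (a (l 101166630551) (b (l 4) (b (l 90966079799) (l 35668373495)))) (c (c (l 16782224) (l 16782080)) (l 9898568679))) (b (b (a (l 88818600247) (b (l 86134242215) (l 16783568))) (c (l 16780312) (l 16780000))) (l 16782176)))) (a (c (b (b (a (a (a (l 54458855271)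 (l 16782472)) (l 16780520)) (l 16778720)) (l 16782952)) (l 16784672)) (b (b (a (a (l 43184565351) (l 16780120)) (l 16778424)) (l 16782696)) (l 16784600))) (c (b (l 16785064) (l 16792952)) (b (l 16784120) (l 16790112))))) (a (b (c (c (l 16782072) (l 16783256)) (b (l 16782792) (l 16794096))) (c (l 16776544) (l 16787368))) (b (c (l 16781976) (b (l 16793560) (l 16789096))) (c (l 16781816) (l 16782384)))))), by decide +kernel⟩

def k23_pm_011 : ∃ t, chk3 f_pm_011 t 39 60 1 = true :=
  ⟨(b (a (a (b (b (a (l 4) (a (l 101703503991) (b (l 4) (l 54458857703)))) (a (c (b (l 80228660503) (l 16783416)) (b (l 82376148887) (l 16780608))) (c (l 16784928) (l 16784712)))) (c (b (l 16781776) (l 16784752)) (l 16782112))) (b (a (b (b (a (l 86671116423) (l 44258309847)) (l 16782840)) (l 16787632)) (c (l 16783392) (l 16787280))) (c (l 16789832) (c (l 16791456) (l 16790280))))) (c (b (a (l 16788816) (l 16797136)) (l 16785032)) (b (c (l 16782192) (l 16781104)) (l 16785248)))) (a (b (c (c (l 16801416) (l 16781320)) (l 16773328))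 (c (c (l 16808216) (l 16777800)) (a (l 16777416) (l 16772472)))) (c (b (c (l 16822672) (l 16794952)) (c (l 16831392) (l 16793952))) (b (l 16774008) (a (l 16767544) (l 16762656)))))), by decide +kernel⟩

def k24_pm_011 : ∃ t, chk3 f_pm_011 t 19 61 1 = true :=
  ⟨(a (b (a (b (a (c (l 16775560) (l 16777840)) (c (c (l 16778784) (l 16782920)) (l 16772880))) (c (a (b (l 16780856) (l 16776080)) (b (l 16776752) (a (l 16772192) (l 16769880)))) (a (l 16768840) (l 16774400)))) (a (b (c (l 16780864) (l 16778408)) (c (a (l 16756704) (l 16760704)) (l 16769496))) (c (b (l 16777272) (b (l 16770528) (l 16764264))) (b (l 16773472) (l 16764608))))) (a (b (c (b (c (l 16757792) (a (l 16771648) (l 16767224))) (a (l 16768336) (l 16764552))) (a (l 16759880) (b (l 16767712) (l 16763272)))) (c (a (c (l 16764288) (l 16763040)) (c (l 16760568) (l 16759176))) (a (b (l 16763688) (l 16759568)) (b (l 16758976) (l 16755504))))) (c (b (b (a (l 16766584) (l 16756456)) (c (l 16773384) (l 16758152))) (a (c (l 16752728) (l 16755272)) (c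 (l 16768928) (l 16751328)))) (b (a (b (l 16762848) (l 16758424)) (b (l 16757992) (l 16754240))) (a (b (l 16754888) (l 16751416)) (l 16749048)))))) (b (c (a (b (c (l 16811584) (l 16769880)) (c (l 16790008) (l 16756872))) (b (c (l 16837216) (l 16789176)) (c (l 16839688) (l 16780080)))) (a (b (a (l 16768560) (l 16763664)) (a (b (l 16761944) (l 16757552)) (b (l 16757096) (l 16752840)))) (b (a (l 16758800) (b (l 16756136) (l 16751808))) (a (b (l 16752272) (l 16748632)) (b (l 16747848) (l 16744384)))))) (c (a (b (c (a (l 16798088) (l 16813608)) (l 16764232)) (c (a (l 16786176) (l 16804240)) (c (l 16733144) (l 16744896)))) (b (c (l 16817312) (l 16766024)) (c (a (l 16822896) (l 16842040)) (l 16726096)))) (a (b (a (b (l 16753552) (l 16750096)) (l 16747656)) (a (l 16744904) (l 16740728))) (b (a (l 16743440) (l 16739192)) (a (l 16736512) (l 16732432))))))), by decide +kernel⟩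

def k25_pm_011 : ∃ t, chk3 f_pm_011 t 36 62 1 = true :=
  ⟨(b (a (b (a (b (a (c (l 16777488) (l 16777736)) (c (l 16774936) (l 16775360))) (c (a (b (l 16778944) (l 16776600)) (b (l 16776408) (l 16774744))) (c (l 16771728) (l 16772064)))) (c (b (a (l 16777648) (b (l 16776376) (l 16773984))) (a (l 16773616) (l 16771728))) (b (l 16773128) (l 16767192)))) (c (a (b (a (l 16769112) (l 16767256)) (c (l 16765664) (l 16769984))) (b (c (l 16770120) (l 16769240)) (c (l 16767240) (l 16766128)))) (a (b (a (l 16773680) (l 16771328)) (l 16763472)) (b (a (l 16769072) (l 16767000)) (l 16759352))))) (b (c (a (b (a (b (l 16773872) (l 16772072)) (l 16770896)) (l 16763608)) (b (a (l 16768952) (l 16766984)) (l 16759696))) (a (b (l 16772368) (l 16767768)) (b (l 16767720) (l 16763152)))) (b (c (a (l 16760592) (l 16756680)) (a (l 16763872) (l 16759656))) (c (c (l 16757648) (l 16756288)) (a (l 16760432) (l 16756216)))))) (a (b (c (a (a (b (l 16761832) (l 16758856)) (b (l 16759968) (l 16756992))) (c (b (l 16764376) (l 16761512))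 (l 16757544))) (a (b (l 16760024) (l 16756568)) (b (l 16761152) (l 16757704)))) (b (c (c (a (l 16757120) (l 16753512)) (a (l 16760680) (l 16756904))) (c (l 16756288) (l 16754416))) (a (c (c (l 16756000) (c (l 16758496) (l 16757568))) (l 16754080)) (c (c (l 16754008) (l 16749440)) (l 16750672))))) (b (c (a (c (a (l 16754888) (l 16752976)) (l 16753608)) (c (a (l 16751048) (l 16749192)) (l 16751040))) (a (c (l 16750760) (l 16754560)) (c (l 16749352) (l 16750400)))) (b (c (c (a (l 16750056) (l 16746608)) (b (l 16749512) (l 16748464))) (a (l 16747976) (l 16744472))) (a (c (c (l 16743816) (l 16741888)) (l 16744448)) (c (c (l 16741384) (l 16739544)) (l 16742192))))))), by decide +kernel⟩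

def k26_pm_011 : ∃ t, chk3 f_pm_011 t 37 62 1 = true :=
  ⟨(b (a (b (c (a (b (l 16758744) (l 16755712)) (b (l 16754696) (l 16751648))) (a (b (l 16763120) (l 16758832)) (b (l 16769048) (l 16765008)))) (c (a (c (l 16751920) (l 16755704)) (c (l 16747912) (l 16751568))) (a (b (l 16755392) (l 16751952)) (l 16746752)))) (b (c (a (b (l 16750848) (l 16747792)) (c (l 16762008) (l 16760528))) (a (b (l 16764344) (l 16760856)) (b (l 16760192) (l 16756752)))) (b (c (c (l 16743720) (l 16757744)) (l 16742264)) (c (c (a (l 16758368) (l 16754736)) (l 16744264)) (l 16740296))))) (a (b (c (a (c (b (l 16763296) (l 16750352)) (l 16748696)) (c (b (l 16759376) (l 16746768)) (l 16746176))) (b (l 16746528) (a (l 16745584) (l 16742008)))) (c (c (a (c (l 16741960) (l 16743632)) (c (l 16739384) (l 16741112))) (a (l 16742248) (l 16739808))) (c (a (l 16740496) (l 16738136)) (b (l 16742648) (l 16737856))))) (b (b (c (c (a (l 16755888) (l 16752616)) (l 16741880)) (c (l 16739976) (l 16738192))) (c (c (l 16738040) (l 16736104)) (l 16736016)))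 (c (c (a (b (l 16734024) (l 16734096)) (c (l 16732200) (l 16731376))) (a (l 16737568) (l 16735408))) (c (b (l 16734632) (l 16735000)) (c (l 16738824) (l 16738080))))))), by decide +kernel⟩

def k27_pm_011 : ∃ t, chk3 f_pm_011 t 36 126 1 = true :=
  ⟨(a (b (c (b (c (a (l 16748336) (l 16751336)) (a (l 16746488) (l 16744296))) (a (c (l 16748160) (l 16746520)) (c (l 16746056) (l 16744456)))) (a (c (l 16750104) (l 16748536)) (b (l 16747016) (l 16742176)))) (b (c (c (a (l 16747888) (l 16745888)) (a (l 16746472) (l 16744504))) (c (l 16748632) (l 16742800))) (c (c (a (l 16747520) (l 16745624)) (a (l 16746336) (l 16744464))) (c (a (l 16745168) (l 16743312)) (l 16743096))))) (c (a (b (b (c (l 16749104) (l 16742120)) (c (l 16749096) (l 16742304))) (c (b (c (l 16744088) (l 16743416)) (l 16743728)) (b (l 16747656) (l 16742600)))) (b (b (c (l 16741424) (l 16739768)) (c (l 16746808) (l 16740088))) (c (b (c (l 16741952) (l 16741304)) (c (l 16747120) (l 16741344))) (b (l 16745592) (c (l 16740800) (l 16740256)))))) (b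 (a (c (a (l 16746424) (l 16745352)) (l 16748248)) (c (b (l 16738168) (l 16738648)) (l 16747408))) (b (c (a (l 16741096) (l 16739072)) (a (l 16739800) (l 16737816))) (c (a (l 16741472) (l 16744680)) (a (l 16740336) (l 16738328))))))), by decide +kernel⟩

def k28_pm_011 : ∃ t, chk3 f_pm_011 t 72 127 1 = true :=
  ⟨(b (c (c (b (c (a (l 16747264) (l 16745480)) (a (l 16746808) (l 16745032))) (b (c (l 16745984) (l 16745632)) (c (a (l 16746496) (l 16744960)) (a (l 16746176) (l 16744608))))) (b (a (l 16746104) (l 16744344)) (a (b (l 16745872) (l 16745672)) (c (l 16745712) (l 16744024))))) (b (c (a (l 16745168) (l 16743408)) (a (l 16744200) (l 16742448))) (b (c (c (l 16744520) (l 16744128)) (l 16743512)) (c (c (l 16744272) (l 16743880)) (a (l 16744184) (l 16742408)))))) (c (c (b (b (c (a (l 16746760) (l 16745424)) (l 16745648)) (c (a (l 16746992) (l 16745744)) (a (l 16746448) (l 16745144)))) (c (a (b (c (l 16747344) (l 16747016)) (c (a (l 16747792) (l 16747264)) (a (l 16747416) (l 16746872)))) (b (c (l 16746208)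 (l 16745848)) (c (a (l 16746736) (l 16746216)) (a (l 16746328) (l 16745784))))) (a (b (l 16746528) (c (a (l 16747032) (l 16746472)) (l 16746368))) (b (l 16745304) (b (l 16745400) (a (l 16745728) (l 16745176))))))) (b (c (a (l 16745912) (l 16744504)) (a (l 16745408) (l 16743952))) (c (a (b (l 16745864) (c (l 16745984) (l 16745592))) (b (l 16744584) (c (l 16744800) (l 16744376)))) (a (b (l 16745192) (c (l 16745200) (l 16744816))) (b (l 16743856) (c (l 16743960) (l 16743536))))))) (a (c (b (c (l 16744896) (l 16744376)) (c (b (l 16744520) (l 16744232)) (b (l 16743840) (l 16743448)))) (b (l 16743584) (c (b (l 16743160) (l 16742656)) (l 16742176)))) (c (b (c (l 16743384) (l 16742808)) (c (b (l 16743120) (l 16742904)) (b (l 16742376) (l 16742056)))) (b (l 16741920) (c (b (l 16741632) (l 16741200)) (l 16740616))))))), by decide +kernel⟩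

def k29_pm_011 : ∃ t, chk3 f_pm_011 t 73 127 2 = true :=
  ⟨(a (b (c (b (c (l 16743688) (l 16743248)) (c (b (l 16743512) (l 16743632)) (b (l 16743168) (l 16743232)))) (b (l 16742584) (c (l 16744000) (l 16742288)))) (c (b (c (b (l 16744088) (l 16744496)) (b (l 16743560) (l 16743848))) (c (b (c (l 16745064) (l 16744680)) (b (a (l 16745392) (l 16744856)) (c (a (l 16745768) (l 16745256)) (l 16745048)))) (b (l 16744096) (b (l 16744256) (c (l 16744584) (l 16744120)))))) (b (c (l 16743112) (l 16742496)) (c (b (l 16743312) (c (a (l 16743920) (l 16743336)) (l 16743176))) (b (l 16742528) (c (l 16742728) (l 16742272))))))) (b (b (a (c (l 16742128) (l 16741256)) (c (c (l 16741328) (l 16740920)) (l 16740280))) (c (c (b (l 16741784) (l 16742208)) (b (l 16741432) (l 16741760))) (c (l 16741000) (l 16740576)))) (c (b (c (b (l 16742752) (l 16743256)) (b (l 16742176) (l 16742552))) (c (b (c (l 16743928) (l 16743512)) (b (c (l 16744280) (l 16743816)) (c (a (l 16744744) (l 16744240)) (a (l 16744264) (l 16743736))))) (b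 (c (l 16743096) (l 16742680)) (c (a (l 16743704) (l 16743152)) (a (l 16743232) (l 16742672)))))) (b (c (l 16741720) (l 16741064)) (c (b (l 16742056) (c (a (l 16742760) (l 16742184)) (l 16741992))) (b (l 16741208) (c (l 16741504) (l 16741024)))))))), by decide +kernel⟩

def k30_pm_011 : ∃ t, chk3 f_pm_011 t 73 127 3 = true :=
  ⟨(a (b (c (b (l 16741656) (c (l 16741864) (l 16741432))) (b (l 16740696) (b (l 16741008) (l 16740776)))) (c (b (c (l 16741880) (l 16741248)) (c (b (l 16741728) (l 16741592)) (b (l 16740928) (l 16740680)))) (b (l 16740288) (c (b (l 16740128) (l 16739768)) (l 16739088))))) (b (b (c (a (l 16740344) (l 16739384)) (a (l 16739392) (l 16738440))) (c (c (l 16740128) (l 16739672)) (l 16741576))) (c (b (c (l 16740392) (l 16739712)) (c (b (l 16740360) (l 16740296)) (b (l 16739504) (l 16739328)))) (b (l 16738672) (c (b (l 16738648) (l 16738360)) (l 16737584)))))), by decide +kernel⟩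

def k31_pm_011 : ∃ t, chk3 f_pm_011 t 37 126 1 = true :=
  ⟨(a (c (c (b (a (b (l 16738968) (l 16739032)) (b (l 16736456) (l 16736536))) (a (b (c (l 16739408) (l 16738808)) (c (l 16739600) (l 16739104))) (b (c (l 16736896) (l 16736360)) (c (l 16736944) (l 16736512))))) (b (b (a (l 16737392) (l 16734984)) (a (l 16737648) (l 16735256))) (b (a (l 16737920) (l 16735536)) (a (c (l 16738608) (l 16738096)) (l 16741080))))) (a (b (c (l 16743840) (l 16745064)) (c (b (l 16736728) (l 16742568)) (b (l 16735536) (l 16736272)))) (b (c (l 16738896) (l 16742824)) (c (b (l 16734432) (l 16734904)) (b (l 16733320) (l 16733928)))))) (c (b (c (a (b (l 16734184) (l 16734272)) (b (l 16731984) (l 16732096))) (a (b (l 16732776) (l 16733064)) (b (l 16730648) (l 16730944)))) (b (c (a (c (l 16734624) (l 16734128)) (c (l 16732448) (l 16731976))) (a (l 16733360) (l 16731264))) (c (a (c (l 16734688) (l 16734296)) (c (l 16732520) (l 16732160))) (a (l 16738920) (l 16731592))))) (b (c (a (l 16736760) (l 16734688)) (b (l 16739304) (l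 16739824))) (b (c (a (l 16732320) (l 16730272)) (a (l 16731256) (l 16729248))) (c (a (l 16732808) (l 16730776)) (a (l 16731888) (l 16729896))))))), by decide +kernel⟩

def k32_pm_011 : ∃ t, chk3 f_pm_011 t 74 127 4 = true :=
  ⟨(b (b (a (c (a (l 16740344) (l 16739184)) (a (l 16739944) (l 16738808))) (c (a (l 16737848) (l 16736664)) (a (l 16737504) (l 16736344)))) (a (c (b (a (l 16740456) (l 16739504)) (a (l 16741136) (l 16740336))) (b (l 16744752) (l 16740112))) (c (a (l 16743992) (l 16737704)) (a (l 16738320) (l 16737272))))) (a (b (c (a (l 16742048) (b (l 16741032) (l 16741712))) (b (a (l 16741144) (l 16740400)) (l 16741264))) (c (b (c (l 16742800) (l 16742360)) (b (c (l 16743216) (l 16742728)) (c (a (l 16743728) (l 16743224)) (a (l 16743216) (l 16742696))))) (b (c (l 16741920) (l 16741472)) (c (a (l 16742608) (l 16742064)) (a (l 16742104) (l 16741552)))))) (b (b (c (a (l 16740248) (l 16739240)) (a (l 16739608) (l 16738592))) (c (a (l 16741008) (l 16740192)) (a (l 16740224) (l 16739392)))) (c (a (b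 (c (l 16741888) (l 16741432)) (b (c (l 16742416) (l 16741912)) (c (l 16742720) (l 16742176)))) (b (c (l 16742552) (l 16740776)) (b (c (c (l 16741976) (l 16741712)) (l 16741328)) (c (a (l 16742344) (c (l 16742256) (l 16741976))) (a (l 16741792) (l 16741552)))))) (a (b (c (l 16740976) (l 16740512)) (c (l 16741520) (l 16740992))) (b (c (l 16740304) (l 16739832)) (b (c (l 16740800) (l 16740280)) (c (a (l 16741240) (l 16740992)) (a (l 16740688) (l 16740432)))))))))), by decide +kernel⟩

def k33_pm_011 : ∃ t, chk3 f_pm_011 t 74 127 5 = true :=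
  ⟨(b (b (a (a (l 16739328) (l 16738224)) (c (l 16741648) (l 16736040))) (a (c (a (l 16744720) (l 16738832)) (b (l 16738736) (l 16739104))) (c (a (l 16737880) (l 16736832)) (a (l 16737416) (l 16736368))))) (b (b (a (c (l 16742624) (l 16739360)) (c (l 16740984) (l 16737696))) (a (c (l 16740504) (l 16739736)) (c (a (l 16739432) (l 16738584)) (a (l 16738624) (l 16737768))))) (a (c (b (l 16740808) (c (a (l 16741608) (l 16741032)) (l 16740816))) (b (l 16739912) (c (l 16740304) (l 16739792)))) (c (a (b (l 16741128) (c (l 16740464) (l 16739936))) (b (c (l 16739360) (l 16738888)) (c (a (l 16740016) (l 16739744)) (a (l 16739480) (l 16739200))))) (a (b (l 16738888) (l 16739144)) (b (l 16738176) (b (l 16738440) (a (l 16738744) (l 16738472))))))))), by decide +kernel⟩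

def k34_pm_011 : ∃ t, chk3 f_pm_011 t 74 127 3 = true :=
  ⟨(c (b (b (a (c (l 16743256) (l 16737576)) (c (l 16735664) (l 16735264))) (b (a (c (l 16738328) (l 16737896)) (l 16735888)) (a (c (l 16738576) (l 16738032)) (c (l 16736672) (l 16736112))))) (b (a (a (l 16738928) (b (l 16738096) (l 16738200))) (c (a (l 16737656) (l 16736736)) (a (l 16736896) (l 16735968)))) (a (c (b (l 16739008) (c (l 16739280) (l 16738768))) (b (l 16738096) (l 16738000))) (c (a (b (l 16737952) (l 16738080)) (b (l 16737216) (c (l 16737672) (l 16737128)))) (a (b (l 16737000) (l 16737016)) (b (l 16736248) (c (l 16736584) (l 16736040)))))))) (b (b (a (a (l 16737520) (l 16736480)) (a (l 16735304) (l 16734280))) (b (a (c (l 16737448) (l 16736984)) (l 16734992)) (a (l 16737192) (l 16735232)))) (a (b (b (c (l 16737368) (l 16736672)) (l 16736968)) (c (b (l 16737184) (l 16736968)) (l 16736104))) (b (c (a (l 16736128) (l 16735192)) (a (l 16735352) (l 16734400))) (c (a (b (l 16736056) (l 16735944)) (b (l 16735280) (l 16735216))) (a (b (l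 16735096) (l 16734872)) (b (l 16734296) (l 16734120)))))))), by decide +kernel⟩

def k35_pm_011 : ∃ t, chk3 f_pm_011 t 75 254 4 = true :=
  ⟨(b (a (c (c (l 16740200) (l 16740064)) (a (l 16735304) (l 16734264))) (c (b (l 16732688) (l 16732944)) (b (l 16732408) (l 16732680)))) (b (c (a (l 16735768) (l 16734008)) (a (l 16735400) (l 16733616))) (c (a (l 16736832) (l 16735184)) (a (l 16736312) (l 16734632))))), by decide +kernel⟩

def k36_pm_011 : ∃ t, chk3 f_pm_011 t 75 255 4 = true :=
  ⟨(b (b (c (a (a (l 16738424) (l 16737632)) (c (l 16736480) (l 16736136))) (a (l 16737176) (l 16735608))) (c (b (a (l 16739944) (c (l 16737376) (l 16736968))) (a (c (l 16739320) (l 16738896)) (c (l 16737920) (l 16737480)))) (a (a (l 16738552) (l 16737808)) (a (l 16737064) (l 16736328))))) (a (c (a (b (c (l 16740504) (l 16740032)) (c (b (l 16741208) (b (l 16741552) (a (l 16741968) (l 16741656)))) (b (l 16740680) (a (l 16741296) (l 16740968))))) (c (b (l 16739832) (b (l 16740576) (a (a (l 16741328) (l 16741176)) (c (l 14) (l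 16740784))))) (b (l 16739344) (b (l 16740032) (a (l 16740656) (a (l 16740440) (l 16740288))))))) (a (b (c (l 16739552) (l 16739072)) (c (b (l 16740144) (a (l 16740728) (l 16740392))) (b (l 16739616) (c (l 16740120) (l 16739832))))) (b (c (l 16738856) (l 16738368)) (c (b (l 16739488) (c (l 16740024) (l 16739736))) (b (l 16738944) (c (l 16739440) (l 16739152))))))) (c (a (c (b (l 16739168) (c (l 14) (b (l 16739816) (a (l 16740488) (l 14))))) (b (l 16738672) (b (l 16739400) (b (l 16739752) (a (l 16740160) (l 16739856)))))) (c (l 14) (b (l 16738008) (b (l 16738768) (b (l 16739144) (a (l 16739560) (l 16739264))))))) (a (b (c (l 16738176) (l 16737672)) (c (b (l 16738840) (a (l 16739456) (l 16739144))) (b (l 16738288) (c (l 16738816) (l 16738520))))) (c (b (l 16737496) (b (l 16738208) (a (l 16738840) (l 16738536)))) (b (l 16736984) (b (l 16737640) (c (l 16738192) (l 16737888))))))))), by decide +kernel⟩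

def k37_pm_011 : ∃ t, chk3 f_pm_011 t 75 127 5 = true :=
  ⟨(b (b (a (c (l 16739528) (l 16733952)) (c (l 16737480) (l 16731920))) (a (c (a (l 16735944) (l 16735048)) (l 16737424)) (c (a (l 16734168) (l 16733296)) (l 16733024)))) (a (b (b (c (l 16736496) (l 16735800)) (c (a (l 16737736) (l 16736960)) (l 16737648))) (c (a (b (l 16738344) (c (b (l 16739080) (l 16739400)) (b (l 16738544) (l 16738832)))) (b (l 16738936) (c (b (l 16738400) (l 16738712)) (b (l 16737848) (l 16738136))))) (a (b (l 16737376) (b (l 16737736) (a (l 16738168) (l 16737808)))) (b (l 16736632) (c (b (l 16737304) (l 16737552)) (l 16736832)))))) (b (b (c (l 16734888) (l 16734160)) (c (a (l 16736200) (l 16735448)) (l 16737408))) (c (a (b (l 16738224) (c (b (l 16737728) (l 16738072)) (b (l 16737168) (l 16737480)))) (b (c (l 16736472) (l 16735952)) (a (c (l 16737440) (l 16736856)) (c (l 16737120) (l 16736528))))) (a (b (l 16735904) (c (b (l 16736608) (l 16736880)) (l 16736144))) (b (l 16735176) (c (b (l 16735928) (l 16736224)) (l 16736768)))))))),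 by decide +kernel⟩

def k38_pm_011 : ∃ t, chk3 f_pm_011 t 75 127 3 = true :=
  ⟨(b (b (c (a (c (l 16733608) (l 16733232)) (c (l 16731584) (l 16731232))) (a (c (l 16732840) (l 16732432)) (c (l 16730848) (l 16730448)))) (c (a (c (l 16734304) (l 16733784)) (c (l 16732504) (l 16731952))) (a (c (l 16733256) (l 16732704)) (c (l 16731392) (l 16730808))))) (c (a (b (c (a (l 16735800) (l 16734976)) (a (l 16735016) (l 16734168))) (c (a (b (l 16736392) (c (l 16737024) (l 16736464))) (b (l 16735632) (c (l 16736264) (l 16735696)))) (a (b (l 16735408) (c (l 16735904) (l 16735344))) (b (l 16734624) (l 16736152))))) (b (c (a (l 16734152) (l 16733344)) (a (l 16733336) (l 16732504))) (c (a (b (l 16734880) (c (l 16735560) (l 16734984))) (b (l 16734136) (c (l 16734872) (l 16734280)))) (a (b (l 16733848) (c (l 16734400) (l 16733816))) (b (l 16733088) (c (l 16733688) (l 16733088))))))) (a (b (b (l 16733248) (a (l 16733904) (l 16733048))) (b (c (l 16735488) (l 16732840)) (c (a (l 16734504) (l 16733696)) (a (l 16733376) (l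 16732544))))) (b (b (l 16731488) (a (l 16732200) (l 16731360))) (b (c (l 16732272) (l 16731224)) (c (a (l 16732944) (l 16732200)) (a (l 16731768) (l 16731000)))))))), by decide +kernel⟩

def k39_pm_011 : ∃ t, chk3 f_pm_011 t 19 124 1 = true :=
  ⟨(a (a (a (b (c (c (l 16758256) (l 16756624)) (l 16743872)) (c (c (b (l 16753768) (l 16751264)) (l 16737720)) (l 16738536))) (b (c (c (c (l 16754952) (l 16754040)) (l 16752728)) (l 16739792)) (c (c (b (l 16750064) (l 16747920)) (l 16736720)) (c (l 16734768) (l 16743424))))) (b (c (c (a (c (l 16750848) (l 16750224)) (l 16768128)) (l 16735272)) (a (l 16746200) (l 16742240))) (b (c (c (a (l 16746592) (l 16725824)) (l 16731168)) (c (l 16740968) (l 16739096))) (c (c (c (l 16727048) (l 16722992)) (l 16742456)) (l 16725208))))) (c (b (a (c (b (l 16783192) (a (l 16762200) (l 16784568))) (a (l 16728336) (b (l 16738560) (l 16736376)))) (c (b (a (l 16814336) (l 16835624)) (l 16777360)) (b (a (l 16717552) (l 16738040)) (l 16714712)))) (a (c (a (c (l 16773032) (l 16719528))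 (c (l 16798896) (l 16740928))) (l 16723432)) (c (a (l 16764288) (l 16779456)) (a (l 16713488) (l 16711168))))) (c (a (b (l 16729992) (l 16720288)) (b (l 16722400) (l 16715856))) (a (b (l 16728160) (l 16723784)) (b (l 16718624) (l 16719504)))))), by decide +kernel⟩

def k40_pm_011 : ∃ t, chk3 f_pm_011 t 19 125 1 = true :=
  ⟨(a (a (c (b (c (a (l 16732008) (l 16729704)) (c (l 16731976) (l 16731048))) (c (a (c (l 16729936) (l 16729144)) (c (l 16727640) (l 16726888))) (b (l 16731904) (l 16732152)))) (b (c (l 16732320) (l 16730608)) (c (c (l 16733440) (l 16735328)) (l 16734256)))) (c (c (b (a (l 16727384) (l 16725088)) (a (c (l 16725312) (l 16724600)) (c (l 16722984) (l 16722312)))) (b (c (l 16727448) (l 16726592)) (a (l 16723544) (l 16726560)))) (b (c (l 16727968) (l 16723736)) (c (a (l 16722160) (l 16720000)) (c (l 16730376) (l 16729712)))))) (c (a (b (c (c (a (l 16747416) (l 16777640)) (a (l 16719760) (l 16717448))) (c (l 16722952) (l 16722184))) (c (a (c (l 16720656) (l 16720032)) (b (l 16719696) (l 16720784)))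 (a (l 16719112) (l 16722136)))) (c (b (c (a (l 16807384) (l 16836576)) (a (l 16741000) (l 16770760))) (b (a (l 16753384) (l 16765224)) (c (a (l 16775984) (l 16810688)) (l 16715880)))) (b (c (l 16718360) (l 16717688)) (a (l 16717280) (l 16716984))))) (a (b (c (l 16721048) (l 16719568)) (c (a (l 16717872) (l 16715744)) (l 16725904))) (c (b (l 16716688) (a (l 16713600) (l 16711432))) (b (l 16715368) (l 16721768)))))), by decide +kernel⟩

def k41_pm_011 : ∃ t, chk3 f_pm_011 t 38 126 1 = true :=
  ⟨(c (b (a (c (a (c (l 16735240) (l 16734656)) (b (l 16727512) (l 16730272))) (a (b (l 16728488) (l 16728808)) (b (l 16726312) (l 16726648)))) (c (a (c (b (l 16725512) (l 14)) (l 16724944)) (b (l 16725544) (l 14))) (a (c (l 16724432) (l 16723920)) (c (l 16722200) (l 16721728))))) (a (b (a (c (c (l 16730232) (l 16729800)) (l 16729136)) (c (c (l 14) (l 16727600)) (l 16726992))) (c (a (c (l 16730320) (l 16730000)) (c (l 14) (l 16727808))) (a (l 16729480) (l 16732592)))) (c (a (c (l 14) (b (l 16725368) (l 16725600)))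 (l 14)) (b (a (l 16724824) (l 16722632)) (a (l 16730440) (c (l 16723144) (l 16722904))))))) (b (a (a (c (l 16732600) (l 16726168)) (c (l 16725248) (l 16724112))) (c (b (l 16726920) (l 16730016)) (a (l 16722048) (l 16719976)))) (a (c (a (c (l 16736376) (l 16738560)) (b (l 16726128) (l 16726664))) (a (b (l 16727232) (l 16727904)) (b (l 16725208) (l 16725896)))) (c (a (b (l 16724032) (l 16724584)) (b (l 16721920) (l 16722496))) (a (b (l 16723168) (l 16723872)) (b (l 16721128) (l 16721848))))))), by decide +kernel⟩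

def k42_pm_011 : ∃ t, chk3 f_pm_011 t 39 126 1 = true :=
  ⟨(c (c (b (b (b (a (a (l 16720608) (l 16718304)) (a (l 16744240) (l 16739608))) (l 14)) (l 14)) (l 14)) (c (a (b (a (l 16719968) (l 16717736)) (a (b (l 16720568) (l 16720968)) (l 14))) (b (a (l 16715488) (l 16713224)) (l 14))) (a (b (a (l 16719528) (l 16717344)) (a (b (l 16720280) (l 16720776)) (b (l 16718088) (l 16718664)))) (b (a (l 16715152) (l 16712944)) (b (l 16722376) (a (l 16716552) (l 14))))))) (c (a (b (a (l 16724096) (l 16716736)) (a (b (l 16719800) (l 16720432)) (b (l 16717672) (l 16718384)))) (b (a (l 16719856) (l 16717720)) (b (a (l 16715552) (l 16713424)) (a (c (l 16716408) (l 16716224)) (c (l 16714328) (l 16714176)))))) (a (b (a (l 16717912) (l 16715864)) (a (b (l 16719072) (l 16719856)) (b (l 16717024) (l 16717888)))) (a (b (l 16713824) (b (l 16714992) (l 16715888))) (b (l 16711768) (b (l 16712952) (l 16713872))))))), by decide +kernel⟩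

def k43_pm_011 : ∃ t, chk3 f_pm_011 t 38 127 4 = true :=
  ⟨(a (b (b (a (c (b (l 16730488) (l 16730960)) (b (l 16730248) (l 16730696))) (c (l 14) (b (l 16728136) (l 16728848)))) (a (c (c (l 14) (l 16737952)) (a (l 16732944) (l 16732096))) (c (l 14) (a (l 16731264) (l 16730432))))) (a (b (c (a (c (l 14) (l 16735648)) (l 14)) (b (l 16734064) (a (l 16735608) (l 16734888)))) (c (a (c (l 14) (b (l 16737352) (c (l 14) (b (l 16738008) (a (l 16738688) (l 14)))))) (l 14)) (a (c (b (l 16736832) (b (l 16737576) (a (l 16738232) (a (l 16738016) (l 16737872))))) (b (l 16736304) (b (l 16737000) (c (l 16737584) (l 16737272))))) (c (b (l 16736168) (b (l 16736960) (b (l 16737336) (a (l 16737760) (l 16737472))))) (b (l 16735640) (b (l 16736368) (a (l 16737008) (l 16736712)))))))) (c (l 14) (b (b (l 16735176) (a (l 16734184) (l 16733488))) (a (c (b (l 16735520) (c (l 14) (b (l 16736200) (a (l 16736888) (l 14))))) (b (l 16734984) (b (l 16735744) (a (l 16736416) (l 16736120))))) (c (l 14) (b (l 16734328) (a (b (l 16735320)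 (l 16736480)) (c (l 14) (l 16735104)))))))))) (c (l 14) (c (l 14) (a (a (a (b (b (l 16727272) (l 16729736)) (b (l 16732152) (b (l 16733888) (c (l 14) (l 16735464))))) (l 14)) (l 14)) (l 14))))), by decide +kernel⟩

def k44_pm_011 : ∃ t, chk3 f_pm_011 t 76 127 5 = true :=
  ⟨(b (b (a (c (b (l 16729984) (l 16730408)) (l 16735120)) (b (l 16727792) (l 16728392))) (a (c (a (l 16732432) (l 16731576)) (l 16731280)) (c (a (l 16730720) (l 16729880)) (l 16729576)))) (a (b (b (c (l 16733312) (l 16732552)) (c (a (l 16734704) (l 16733976)) (l 16735904))) (c (a (b (c (l 16735784) (l 16735256)) (c (b (l 16736416) (c (l 16736968) (l 16736656))) (b (l 16735840) (l 16736192)))) (b (c (l 16735104) (l 16734568)) (c (b (l 16735776) (c (l 16736352) (l 16736040))) (b (l 16735184) (l 16735568))))) (a (b (l 16734464) (b (l 16734960) (c (l 16735576) (l 16734960)))) (b (l 16733760) (b (l 16734296) (c (l 16734936) (l 16734304))))))) (b (b (c (l 16731776) (l 16730976)) (c (a (l 16733248) (l 16732536)) (l 16734424))) (c (a (c (b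 (l 16734440) (b (l 16735144) (c (l 16735752) (l 16735432)))) (b (l 16733888) (a (l 16734920) (l 16734608)))) (c (b (l 16733776) (b (l 16734528) (a (l 16735176) (l 16734880)))) (b (l 16733224) (b (l 16733912) (c (l 16734504) (l 16734176)))))) (a (b (l 16733064) (b (l 16733632) (c (l 16734312) (l 16733664)))) (b (l 16732384) (b (l 16734296) (c (l 16733688) (l 16733032))))))))), by decide +kernel⟩

def k45_pm_011 : ∃ t, chk3 f_pm_011 t 77 127 5 = true :=
  ⟨(b (b (a (c (l 16731376) (l 16725840)) (c (l 16729448) (l 16723912))) (a (c (a (l 16729048) (l 16728232)) (l 16727896)) (c (a (l 16727416) (l 16726608)) (l 16726256)))) (a (b (b (c (l 16730272) (l 16729440)) (c (a (l 16731824) (l 16731128)) (l 16731680))) (c (a (c (b (l 16733128) (b (l 16733912) (a (l 16734584) (l 16734296)))) (b (l 16732560) (b (l 16733288) (a (l 16733928) (l 16733624))))) (c (b (l 16732488) (b (l 16733312) (a (l 16734008) (l 16733720)))) (b (l 16731912) (b (l 16732672) (a (l 16733336) (l 16733040)))))) (a (b (l 16731704) (c (b (l 16732664)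 (l 16733080)) (b (l 16732032) (l 16732416)))) (b (l 16731040) (a (c (l 16732432) (l 16731776)) (c (l 16732128) (l 16731464))))))) (b (a (c (c (l 16730048) (l 16729584)) (l 16728880)) (c (c (l 14) (l 16728880)) (l 16728168))) (c (a (c (a (b (l 16732048) (c (l 14) (l 16732984))) (l 14)) (b (l 16731272) (b (l 16732072) (a (l 16732752) (l 16732464))))) (c (l 14) (b (l 16730640) (b (l 16731480) (a (l 16732184) (l 16731896)))))) (a (b (l 16730384) (a (c (l 16731824) (l 16731160)) (b (l 16730976) (c (l 16731776) (l 16731080))))) (c (b (l 16730040) (b (l 16730816) (a (l 16731488) (l 16731200)))) (b (l 16729440) (a (l 16730552) (l 16730256))))))))), by decide +kernel⟩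

def k46_pm_011 : ∃ t, chk3 f_pm_011 t 38 127 6 = true :=
  ⟨(a (b (b (a (c (l 16729552) (l 16729200)) (c (l 16727520) (l 16727176))) (a (c (l 16730728) (l 16730152)) (c (l 16728992) (l 16728384)))) (a (b (c (a (l 16732544) (l 16731752)) (a (l 16731688) (l 16730872))) (c (a (b (l 16733400) (c (l 16734184) (l 16733584))) (b (l 16732680) (c (l 16733512) (l 16732904)))) (a (b (l 16732328) (c (l 16732976) (l 16732376))) (b (l 16731584) (c (l 16732280) (l 16731664)))))) (b (c (a (l 16730968) (l 16730200)) (b (l 16729336) (l 16729864))) (c (a (b (l 16731960) (c (l 16732856) (l 16732224))) (b (l 16731256) (c (l 16732200) (l 16731560)))) (a (b (l 16730848) (c (l 16731600) (l 16730968))) (b (l 16730120) (c (l 16730920) (l 16730280)))))))) (b (b (a (c (l 16725520) (l 16725176)) (c (l 16723592) (l 16723232))) (a (c (l 16727288) (l 16726656)) (c (l 16725616) (l 16724960)))) (a (b (c (b (l 16728592) (l 16729368)) (b (l 16727728) (l 16728352))) (c (a (b (l 16730560) (c (b (l 16731400) (l 16731744)) (l 16730904)))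 (b (l 16729872) (c (b (l 16730760) (l 16731128)) (l 16730264)))) (b (a (l 16729408) (l 16728696)) (a (c (l 16730256) (l 16729600)) (c (l 16729600) (l 16728936)))))) (b (c (b (l 16727064) (l 16727928)) (b (l 16726160) (l 16726872))) (c (b (c (l 16730368) (l 16728456)) (c (a (b (l 16730120) (l 16730512)) (b (l 16729496) (l 16729912))) (a (l 16729632) (l 16729000)))) (b (c (l 16727848) (l 16727248)) (a (c (l 16728952) (l 16728280)) (c (l 16728320) (l 16727632))))))))), by decide +kernel⟩

def k47_pm_011 : ∃ t, chk3 f_pm_011 t 38 127 7 = true :=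
  ⟨(a (b (b (a (b (l 16728504) (l 16728792)) (b (l 16726560) (l 16726880))) (a (c (l 16729560) (l 16728944)) (c (l 16727760) (l 16727120)))) (a (b (c (a (l 16730816) (l 16729984)) (l 16731960)) (b (c (l 16730728) (l 16729640)) (c (a (l 16731464) (l 16730736)) (a (l 16730240) (l 16729496))))) (b (c (b (l 16728488) (l 16728880)) (l 16727672)) (b (c (l 16729224) (l 16728088)) (c (a (l 16730024) (l 16729320)) (a (l 16728760) (l 16728024))))))) (b (b (a (c (l 16724800) (l 16724392)) (l 16727888)) (a (c (l 16726000) (l 16725328)) (l 16726544))) (a (b (c (b (l 16726848) (l 16727320)) (l 16726048)) (b (c (l 16727760) (l 16726576)) (c (a (l 16728624) (l 16727936)) (a (l 16727312) (l 16726600))))) (b (c (b (l 16725248) (l 16725808)) (l 16724456)) (c (b (l 16726336) (a (l 16727264) (c (l 16726944) (l 16726256)))) (b (l 16725112) (a (l 16725904) (l 16725216)))))))), by decide +kernel⟩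

def k48_pm_011 : ∃ t, chk3 f_pm_011 t 78 127 2 = true :=
  ⟨(b (c (l 14) (a (b (c (l 16722376) (l 16722072)) (c (a (l 16725816) (l 14)) (l 16724648))) (c (l 14) (b (l 16720392) (l 16723072))))) (c (l 14) (a (b (c (c (l 14) (a (l 16728184) (l 14))) (a (l 16730080) (l 16729376))) (c (a (c (l 14) (b (l 16730016) (c (l 14) (b (l 16730728) (l 16731280))))) (l 14)) (a (c (b (l 16729408) (b (l 16730224) (a (l 16730912) (l 16730632)))) (b (l 16728800) (a (l 16729960) (l 16729664)))) (c (b (l 16728784) (b (l 16729640) (a (l 16730352) (l 16730072)))) (b (l 16728168) (a (l 16729368) (a (l 16729168) (l 16729024)))))))) (c (l 14) (a (b (c (l 16726320) (l 16725816)) (c (b (l 16728176) (c (l 14) (b (l 16728896) (l 16729456)))) (b (l 16727544) (b (l 16728376) (a (l 16729064) (l 16728792)))))) (c (l 14) (b (l 16725128) (b (l 16726936) (b (l 16727800) (a (l 16728512) (l 16728240))))))))))), by decide +kernel⟩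

def k49_pm_011 : ∃ t, chk3 f_pm_011 t 78 127 3 = true :=
  ⟨(b (b (c (a (c (l 16721744) (l 16721384)) (l 16725104)) (a (l 16720776) (l 16719040))) (c (c (a (l 16723984) (l 16722384)) (a (l 16723296) (l 16721672))) (a (c (l 16722584) (l 16721856)) (c (l 16720936) (l 16720176))))) (c (b (a (c (b (l 16725568) (l 16726528)) (b (l 16724632) (l 16725440))) (c (b (l 16724104) (l 16725168)) (b (l 16723144) (l 16724040)))) (a (c (b (a (l 16727872) (l 16727232)) (b (a (l 16728544) (l 16727928)) (c (a (l 16729320) (l 16728736)) (a (l 16728608) (l 16728016))))) (b (c (l 16726512) (l 16725888)) (c (a (l 16727696) (l 16727080)) (a (l 16726992) (l 16726368))))) (c (b (a (l 16726592) (l 16725968)) (b (c (a (l 16727680) (l 16727096)) (a (l 16726984) (l 16726384))) (c (a (l 16728168) (l 16727608)) (a (l 16727432) (l 16726864))))) (b (c (l 16725224) (l 16724576)) (c (a (l 16726472) (l 16726864)) (a (l 16725752) (l 16725144))))))) (b (a (c (b (l 16723688) (l 16724336)) (l 16722912)) (c (b (l 16722160) (l 16722896)) (l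 16721400))) (a (c (b (l 16727568) (a (c (l 16726296) (l 16725592)) (c (l 16725656) (l 16724944)))) (b (l 16723680) (a (l 16724536) (l 16723872)))) (a (c (b (l 16724024) (c (l 16725032) (l 16724304))) (b (l 16722720) (l 16723216))) (c (b (l 16723360) (c (l 16724416) (l 16723680))) (b (l 16722032) (l 16722568)))))))), by decide +kernel⟩

def k50_pm_011 : ∃ t, chk3 f_pm_011 t 79 127 2 = true :=
  ⟨(a (a (a (c (l 14) (c (l 14) (b (l 16726048) (b (l 16724920) (c (l 14) (b (l 16726512) (c (l 14) (l 16727496)))))))) (l 14)) (l 14)) (l 14)), by decide +kernel⟩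

def k51_pm_011 : ∃ t, chk3 f_pm_011 t 79 127 3 = true :=
  ⟨(b (c (a (c (b (l 16718296) (l 16720824)) (b (l 16717904) (l 16720088))) (c (b (l 16716600) (l 16719312)) (b (l 16716184) (l 16718552)))) (a (b (l 16717248) (c (l 16719320) (l 16718536))) (b (l 16715504) (c (l 16717760) (l 16716936))))) (c (b (b (c (a (l 16722688) (l 16721312)) (a (l 16721696) (l 16720288))) (c (a (l 16723840) (c (l 16722864) (l 16722264))) (a (l 16722680) (l 16721368)))) (a (c (b (a (l 16725352) (l 16724744)) (b (c (a (l 16726520) (l 16725960)) (a (l 16725800) (l 16725224))) (c (a (c (l 16727248) (l 16726872)) (c (l 16726712) (l 16726328))) (a (l 16726296) (l 16725752))))) (b (c (l 16723968) (l 16723296)) (c (b (l 16724712) (a (l 16725536) (l 16724976))) (a (l 16724552) (l 16723968))))) (c (a (a (b (l 16724328) (b (l 16725192) (c (l 16726144) (l 16725360)))) (c (l 14) (b (l 16723688) (l 16724816)))) (c (l 14) (b (l 16723224) (b (l 16724112) (a (l 16724832) (l 16724568)))))) (b (a (l 16722792) (l 16722192)) (b (c (a (l 16723920)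 (l 16723360)) (l 16722816)) (c (a (l 16724424) (l 16723888)) (a (l 16723640) (l 16723088)))))))) (b (a (c (b (l 16720680) (l 16721504)) (l 16719928)) (c (b (l 16719240) (l 16720152)) (l 16718496))) (a (a (c (b (l 16722704) (c (l 16723808) (l 16723064))) (b (l 16721360) (l 16721936))) (c (b (l 16722056) (c (l 16723216) (l 16722456))) (b (l 16720688) (l 16721312)))) (c (b (c (l 16721376) (l 16720680)) (c (a (l 16722624) (l 16722056)) (a (l 16721856) (l 16721272)))) (b (l 16719632) (c (a (l 16721088) (l 16720488)) (a (l 16720312) (l 16719704))))))))), by decide +kernel⟩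

def k52_pm_011 : ∃ t, chk3 f_pm_011 t 5 6 1 = true :=
  ⟨(b (l 4) (a (l 4) (b (l 4) (a (b (l 4) (a (l 4) (b (l 4) (a (l 4) (b (l 4) (a (l 4) (b (l 134452647607) (l 140358218807)))))))) (b (a (l 4) (b (a (l 4) (b (l 4) (a (l 4) (l 135526400487)))) (a (b (l 4) (a (l 133915788887) (b (l 133915760039) (l 16794168)))) (b (a (l 144653200375) (l 133378903991)) (a (l 16800736) (l 16783872)))))) (a (b (a (l 4) (b (c (l 128010200503) (l 142505720647)) (a (b (l 130694554823) (l 140895093255)) (l 77544327335)))) (a (b (a (b (l 4) (l 140358225863)) (b (l 141968836839) (l 16790360))) (c (l 48553290935) (l 16791040))) (c (l 16794832) (l 16792392)))) (b (a (b (c (l 75396849095) (l 65733165959)) (l 16789960)) (l 16783248)) (a (l 16795328) (l 16839112))))))))), by decide +kernel⟩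

def k53_pm_011 : ∃ t, chk3 f_pm_011 t 10 28 1 = true :=
  ⟨(a (l 4) (b (l 4) (a (b (l 4) (a (l 4) (b (l 4) (a (b (l 4) (l 132305153063)) (b (l 122641480151) (c (l 16784744) (l 16785648))))))) (b (a (b (l 4) (a (l 4) (b (l 4) (l 137136998263)))) (b (a (l 4) (b (l 4) (l 130157672615))) (a (b (l 137673867319) (l 64659412791)) (c (l 16788064) (l 16787048))))) (a (b (a (b (l 4) (l 112977804535)) (c (l 49090154375) (l 49090155879))) (c (l 14193539847) (l 16784888))) (c (l 16786080) (l 16787608))))))), by decide +kernel⟩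

def k54_pm_011 : ∃ t, chk3 f_pm_011 t 20 29 1 = true :=
  ⟨(b (a (l 4) (b (a (l 4) (b (l 4) (a (l 4) (b (l 4) (a (l 123178352967) (l 81302410391)))))) (a (b (a (l 4) (b (l 4) (l 127473315911))) (a (b (l 127473317335) (a (l 109219696439) (a (l 68954375095) (l 42647699271)))) (a (b (l 97945416311) (l 16786864)) (c (l 21709731735) (l 16784472))))) (b (a (b (l 119420250711) (a (c (l 71101858359) (l 66270020679)) (l 16786024))) (a (c (l 30299667559) (l 28689056135)) (l 16785696))) (c (l 16787720) (l 16787808)))))) (a (b (a (b (l 4) (a (b (l 4) (a (l 4) (l 117809632359))) (b (a (l 4) (l 95797923687)) (b (a (l 96334793671) (l 35668376055)) (c (l 25467827191) (l 16784312)))))) (a (b (b (l 4) (a (l 4) (c (l 81839278487) (l 85060504167)))) (b (a (b (l 80228665031) (l 16785888)) (l 16786112)) (l 16784080))) (b (b (a (l 119957116071) (c (l 69491246071) (l 71101859207))) (c (a (l 36742116855) (l 16784592)) (l 25467828919))) (c (l 16794456) (l 16782688))))) (a (c (b (b (a (a (b (l 107072202679) (l 59290695575)) (l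 32447149735)) (l 16786200)) (l 16783536)) (l 16783336)) (b (b (a (a (b (l 111367169895) (l 60901308375)) (l 32447150007)) (l 16778488)) (l 16783312)) (l 16778072))) (c (b (l 16784112) (l 16819776)) (b (l 16784336) (l 16786080))))) (c (b (a (b (a (l 9361699943) (l 16799216)) (l 16810904)) (l 16788760)) (a (c (l 16844592) (l 16825656)) (l 16859200))) (b (a (b (a (l 16784144) (l 16786792)) (l 16790408)) (l 16779112)) (a (b (l 16795232) (l 16798200)) (l 16811576)))))), by decide +kernel⟩

def k55_pm_011 : ∃ t, chk3 f_pm_011 t 21 29 1 = true :=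
  ⟨(b (a (b (a (a (b (l 4) (b (a (l 123715222311) (l 68417507559)) (c (l 16782616) (l 16785896)))) (b (b (l 132305149495) (a (l 111904060599) (l 54995732775))) (c (l 16789472) (l 16784600)))) (a (b (b (a (l 80765539431) (l 16785376)) (l 16785088)) (l 16786416)) (c (l 16782920) (l 16794160)))) (c (a (b (l 16781928) (l 16821968)) (l 16815928)) (a (b (l 16791864) (l 16801992)) (l 16812936)))) (c (b (a (l 16780472) (l 16847288)) (l 16832264)) (b (a (l 16785776) (l 16824512)) (a (l 16830280) (l 16848688))))) (c (a (b (a (l 16849632) (l 16874464)) (a (l 16884232) (l 16909848))) (b (l 16912320) (l 16948696))) (a (b (a (l 16815256) (l 16832280)) (a (l 16828528) (l 16847200))) (b (a (l 16850664) (l 16870040)) (a (l 16867112) (l 16887880)))))), by decide +kernel⟩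

def k56_pm_011 : ∃ t, chk3 f_pm_011 t 20 30 1 = true :=
  ⟨(b (c (b (a (a (b (l 16811440) (l 16821960)) (c (l 16852776) (l 16825480))) (a (c (l 16879456) (l 16847304)) (l 16889016))) (a (a (c (l 16831840) (b (l 16813320) (l 16814616))) (c (l 16880408) (l 16837056))) (a (c (l 16909328) (l 16861968)) (c (l 16938960) (l 16888312))))) (a (b (a (a (l 16771776) (l 16775840)) (b (l 16785464) (l 16782168))) (a (b (l 16761936) (l 16749352)) (b (l 16775864) (l 16766160)))) (b (a (c (l 16814920) (l 16782320)) (c (l 16834384) (l 16797656))) (a (c (l 16814280) (l 16766280)) (c (l 16837336) (l 16786016)))))) (a (b (c (a (c (b (l 16865776) (l 16870960)) (b (l 16812688) (l 16807072))) (c (l 16900248) (b (l 16839032) (l 16836496)))) (b (a (l 16763808) (l 16752616)) (a (c (l 16742704) (a (l 16741168) (l 16736800))) (a (l 16728368) (l 16741312))))) (a (b (c (c (l 16872896) (l 16797248)) (a (l 16734896) (l 16730552))) (c (c (a (l 16861544) (l 16881168)) (b (l 16786856) (l 16778656))) (c (b (l 16728648) (l 16726184)) (l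 16718144)))) (b (c (c (l 16908600) (l 16830480)) (a (l 16726160) (l 16740816))) (c (c (b (l 16910416) (l 16911344)) (b (l 16823616) (l 16818816))) (c (b (l 16736160) (l 16725640)) (l 16708360)))))) (c (b (a (c (l 16932584) (l 16846672)) (c (l 16965264) (l 16898112))) (b (a (c (l 16944704) (l 16822928)) (c (l 16980688) (l 16899776))) (a (c (l 16950760) (l 16860624)) (c (l 16989808) (l 16899640))))) (b (a (c (l 16787832) (l 16736392)) (b (l 16801368) (c (l 16826896) (l 16754216)))) (a (b (c (b (l 16787720) (l 16780584)) (l 16724432)) (c (l 16769904) (l 16714000))) (b (c (l 16797352) (l 16740248)) (c (l 16808984) (l 16717824)))))))), by decide +kernel⟩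

def k57_pm_011 : ∃ t, chk3 f_pm_011 t 21 30 1 = true :=
  ⟨(b (a (c (b (a (l 16915448) (l 16942304)) (c (l 16983792) (l 16929304))) (b (a (l 16814608) (l 16856616)) (a (c (l 16861848) (l 16807824)) (c (l 16887264) (l 16831040))))) (c (b (l 16982752) (l 17013824)) (b (c (l 16913272) (l 16866608)) (a (l 16863248) (l 16867744))))) (a (c (b (a (c (l 16997864) (l 16929064)) (c (l 17030008) (l 16959984))) (c (a (l 17022312) (l 17058016)) (a (l 16936768) (l 16972696)))) (b (a (b (l 16828136) (c (l 16857600) (l 16783592))) (b (l 16834816) (c (l 16888816) (l 16814008)))) (a (b (c (l 16853352) (l 16771080)) (c (l 16847584) (l 16756904))) (c (b (l 16888120) (l 16885392)) (b (l 16805920) (l 16795432)))))) (a (c (b (c (l 17061568) (l 16990704)) (l 17029096)) (b (b (c (l 16918064) (l 16849800)) (l 16841192)) (c (l 16922440) (b (l 16840392) (l 16833112))))) (c (b (l 17056808) (l 17083488)) (b (c (l 16949432) (b (l 16877944) (l 16876872))) (c (l 16956872) (b (l 16874216) (l 16869736)))))))), by decide +kernel⟩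

def k58_pm_011 : ∃ t, chk3 f_pm_011 t 20 124 1 = true :=
  ⟨(a (c (a (b (c (a (l 16855904) (l 16878288)) (a (l 16754536) (l 16776824))) (c (a (l 16825824) (l 16871856)) (a (l 16731328) (l 16756960)))) (c (b (l 16890536) (a (l 16896520) (l 16920744))) (b (a (l 16799080) (l 16821224)) (a (l 16782280) (l 16807240))))) (a (c (b (a (l 16727344) (l 16704048)) (l 16711336)) (b (l 16724464) (l 16704672))) (c (b (a (l 16701712) (l 16719376)) (l 16706744)) (b (l 16719960) (l 16700272))))) (c (c (a (b (l 16954880) (l 16956136)) (b (l 16996864) (l 17001568))) (a (b (l 16833072) (a (l 16831792) (l 16855888))) (b (l 16896864) (l 16828176)))) (b (a (c (l 16752688) (l 16694440)) (c (l 16775480) (l 16695616))) (a (c (a (l 16718648) (l 16743656)) (l 16695840)) (c (a (l 16768232) (l 16792344)) (l 16691384)))))), by decide +kernel⟩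

def k59_pm_011 : ∃ t, chk3 f_pm_011 t 20 125 1 = true :=
  ⟨(a (c (b (a (c (a (c (l 16865152) (l 16799944)) (c (l 16893072) (l 16828496))) (a (l 16709448) (l 16710432))) (c (a (l 16825448) (l 16915224)) (b (l 16748600) (a (l 16753968) (l 16783128))))) (a (b (c (a (l 16776160) (l 16807152)) (a (l 16710000) (l 16708072))) (c (a (c (l 16844264) (l 16768584)) (c (l 16876704) (l 16802208))) (c (l 16710216) (l 16708864)))) (c (a (c (l 16911088) (l 16818736)) (c (l 16940536) (l 16870208))) (a (c (l 16747280) (l 16705336)) (b (l 16771152) (l 16757720)))))) (a (b (c (l 16712256) (l 16705864)) (c (a (l 16709256) (l 16707056)) (l 16717592))) (c (b (a (l 16703776) (l 16701512)) (c (l 16711568) (l 16708640))) (b (l 16701568) (l 16713384))))) (c (c (a (b (c (l 16985208) (l 16923016)) (c (l 16982784) (a (l 16899704) (l 16928232)))) (b (l 17003584) (c (l 17035936) (l 16969152)))) (a (b (a (l 16753232) (l 16780096)) (a (c (l 16830360) (l 16760968)) (c (l 16859920) (l 16770608)))) (b (a (l 16848208) (l 16894632)) (a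 (c (l 16888512) (l 16821200)) (c (l 16916160) (l 16849864)))))) (a (c (b (a (l 16699240) (l 16718928)) (a (l 16705640) (l 16703408))) (b (l 16702480) (a (l 16699904) (l 16697776)))) (b (c (a (l 16746592) (l 16752576)) (l 16698144)) (c (c (a (l 16753872) (l 16783568)) (l 16701880)) (a (l 16695656) (l 16693544))))))), by decide +kernel⟩

def k60_pm_011 : ∃ t, chk3 f_pm_011 t 40 63 2 = true :=
  ⟨(b (b (b (b (c (a (c (l 16811176) (l 16753784)) (c (l 16918640) (l 16821960))) (a (c (l 16709488) (l 16709216)) (c (l 16767184) (l 16704680)))) (l 14)) (l 14)) (l 14)) (l 14)), by decide +kernel⟩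

def k61_pm_011 : ∃ t, chk3 f_pm_011 t 40 126 3 = true :=
  ⟨(c (a (b (a (l 16715568) (c (l 16708272) (l 16708040))) (b (c (l 16715248) (l 16709880)) (c (a (l 16712272) (l 14)) (a (l 16712144) (l 16710160))))) (a (b (c (l 16706064) (l 16705888)) (b (l 16706976) (c (l 14) (l 16708240)))) (b (c (l 16703848) (l 16703736)) (l 14)))) (a (a (b (l 16709712) (b (l 16710904) (l 16711872))) (b (l 16707640) (b (l 16708848) (l 16709904)))) (a (b (l 16705568) (b (l 16706792) (l 16708000))) (b (l 16703488) (b (l 16704736) (l 16706200)))))), by decide +kernel⟩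

def k62_pm_011 : ∃ t, chk3 f_pm_011 t 80 127 3 = true :=
  ⟨(b (b (c (c (a (l 16714944) (l 14)) (a (l 16714512) (l 16712872))) (a (l 16713800) (l 16712136))) (c (c (a (l 16717848) (l 14)) (a (l 16717056) (l 16715600))) (a (c (l 16716232) (l 16715392)) (c (l 16714752) (l 16713880))))) (c (b (c (a (a (l 16723648) (l 14)) (l 14)) (a (c (l 16722376) (l 16719176)) (a (l 16718600) (l 16717968)))) (a (c (a (c (l 14) (b (l 16722648) (c (l 14) (b (l 16723376) (l 16723960))))) (l 14)) (b (c (l 16722896) (l 16720872)) (b (c (a (l 16722800) (l 16722264)) (l 16721696)) (c (a (l 16723352) (c (l 16723040) (l 16722632))) (a (l 16722544) (l 16722016)))))) (c (l 14) (b (a (l 16720448) (l 16719888)) (b (c (a (l 16721728) (l 14)) (a (l 16720944) (l 16720416))) (c (a (c (l 14) (l 16722120)) (l 14)) (a (l 16721496) (l 16721648)))))))) (b (a (c (b (l 16717840) (l 16718840)) (l 16717112)) (c (b (l 16716488) (l 16717576)) (l 16715776))) (a (c (b (c (l 16720168) (l 16719448)) (c (a (l 16721488) (b (l 16720704) (l 16721192)))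 (a (l 16720696) (l 16720136)))) (b (l 16718376) (c (a (l 16719904) (l 16719328)) (a (l 16719104) (l 16718520))))) (c (b (c (l 16719000) (l 16718264)) (c (b (l 16719824) (a (l 16720664) (l 16720144))) (a (l 16719584) (l 16719040)))) (b (c (l 16717528) (l 16716784)) (c (a (l 16718768) (l 16718216)) (a (l 16717944) (l 16717384))))))))), by decide +kernel⟩

def k63_pm_011 : ∃ t, chk3 f_pm_011 t 81 127 3 = true :=
  ⟨(b (c (a (c (l 14) (b (l 16711280) (l 16714192))) (l 14)) (b (a (l 16710512) (l 16708936)) (c (a (l 16713320) (l 16711920)) (a (l 16712416) (l 16710992))))) (c (a (a (a (c (l 14) (b (l 16717536) (c (l 14) (b (l 16719120) (l 16721640))))) (l 14)) (l 14)) (l 14)) (b (c (a (b (l 16715184) (l 16716360)) (c (l 16714832) (l 16714192))) (a (b (l 16714016) (l 16715016)) (b (l 16712712) (l 16713800)))) (a (c (b (c (l 16717880) (l 16717120)) (b (c (l 16720072) (l 16717944)) (c (a (l 16719640) (l 16719144)) (a (l 16718776) (l 16718272))))) (b (c (l 16716360) (l 16715600)) (c (a (l 16717672) (l 16717144))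 (a (l 16716832) (l 16716288))))) (c (b (c (l 16716800) (l 16716024)) (c (a (a (l 16718488) (l 14)) (l 14)) (b (l 16716912) (a (l 16717776) (l 16717288))))) (b (c (l 16715240) (l 16714464)) (c (a (l 16716624) (c (l 16716336) (l 16715896))) (a (l 16715760) (l 16715240))))))))), by decide +kernel⟩

def k64_pm_011 : ∃ t, chk3 f_pm_011 t 41 63 1 = true :=
  ⟨(b (c (c (a (b (b (a (l 16884304) (l 16956464)) (l 14)) (l 14)) (c (b (l 17034656) (b (l 17031656) (l 17030472))) (b (a (l 16946776) (l 16976056)) (l 14)))) (b (b (b (a (c (l 16833024) (l 16759832)) (c (l 16894152) (l 16823440))) (l 14)) (l 14)) (l 14))) (c (b (b (a (c (l 16700120) (l 16700056)) (a (l 16697000) (l 16729960))) (l 14)) (l 14)) (c (b (a (a (l 16701472) (l 16699368)) (a (l 16697264) (l 16695160))) (a (b (l 16712080) (l 16714008)) (l 14))) (b (a (l 16710576) (l 16706496)) (a (b (l 16701592) (l 16703328)) (b (l 16708168) (l 16700208))))))) (c (a (l 14) (c (c (b (a (l 14) (l 17045120)) (l 14)) (l 14)) (l 14))) (a (b (c (l 14) (a (b (l 16707400)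 (c (l 16710576) (l 16709616))) (c (l 14) (b (l 16705608) (l 16708288))))) (c (l 14) (b (c (a (c (l 14) (l 16713008)) (l 14)) (a (b (l 16711464) (l 16712632)) (c (l 16711192) (l 16710504)))) (a (c (a (c (l 14) (b (l 16715288) (c (l 14) (l 16716288)))) (l 14)) (b (c (l 16714168) (l 16713368)) (c (b (l 16715056) (a (l 16715912) (l 16715432))) (a (l 16714736) (l 16715552))))) (c (l 14) (b (c (l 16713144) (l 16712320)) (b (c (l 16714744) (l 16713192)) (c (a (l 16714976) (l 14)) (a (l 16714040) (l 16713576)))))))))) (a (a (c (l 14) (c (l 14) (b (l 16705944) (b (l 16710072) (c (l 14) (b (l 16711608) (c (l 14) (l 16712584)))))))) (l 14)) (l 14))))), by decide +kernel⟩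

def k65_pm_011 : ∃ t, chk3 f_pm_011 t 21 62 1 = true :=
  ⟨(a (c (b (c (a (l 17041296) (l 17081152)) (a (b (l 16938336) (l 16936296)) (b (l 16978264) (l 16979408)))) (c (a (b (l 17050216) (l 17053080)) (l 17097392)) (a (a (b (l 16919392) (l 16847320)) (b (l 16943448) (l 16936560))) (b (l 16978192) (c (l 17005792) (l 16942896)))))) (b (a (b (c (l 16839088) (l 16739520)) (c (a (l 16815968) (l 16839080)) (c (l 16745824) (l 16691272)))) (b (c (l 16880352) (l 16782208)) (c (l 16830808) (a (l 16754360) (l 16777552))))) (a (c (b (a (l 16778824) (l 16804368)) (a (c (l 16812304) (l 16747024)) (c (l 16840112) (l 16775832)))) (b (a (l 16689784) (l 16707160)) (c (l 16696648) (l 16690224)))) (b (c (a (l 16850184) (l 16874336)) (a (l 16733528) (l 16759200))) (c (a (c (l 16867008) (l 16803720)) (c (l 16893024) (l 16830704))) (a (l 16687864) (b (l 16743144) (l 16731248)))))))) (c (b (c (l 17137248) (a (l 17018696) (l 17056424))) (c (a (l 17139976) (l 17179832)) (a (b (l 17022256) (l 17021912)) (l 17065256)))) (b (a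 (c (b (l 16920104) (l 16915872)) (b (l 16823512) (a (l 16800232) (l 16822392)))) (c (b (l 16958256) (l 16956928)) (b (l 16863272) (l 16854624)))) (c (a (b (a (l 16897808) (l 16920608)) (a (l 16866520) (l 16912288))) (b (l 16953552) (c (l 16977496) (l 16918360)))) (a (b (a (l 16784160) (l 16808440)) (a (l 16738624) (l 16749552))) (b (a (l 16832056) (l 16855008)) (a (l 16743912) (l 16821344)))))))), by decide +kernel⟩

def k66_pm_011 : ∃ t, chk3 f_pm_011 t 21 63 1 = true :=
  ⟨(c (a (b (c (a (b (l 17011160) (b (l 16988784) (l 17051944))) (b (l 17104016) (l 17107424))) (a (b (b (a (l 16880024) (l 16929232)) (l 14)) (l 14)) (b (c (l 17001656) (a (l 16919768) (l 16947176))) (c (a (l 16982408) (l 17011264)) (l 14))))) (c (a (b (c (l 17092872) (a (l 14) (l 17026176))) (c (l 17092856) (l 14))) (b (l 17111760) (c (l 17156272) (l 17071136)))) (a (l 14) (b (c (a (l 14) (l 17008496)) (l 14)) (l 14))))) (b (c (a (b (l 17151128) (l 17158496)) (l 17200128)) (b (a (c (l 17052168) (l 16986344)) (l 17067160)) (a (c (l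 17052208) (l 16981448)) (l 17069000)))) (c (a (b (l 17166488) (l 17172672)) (l 17221072)) (a (b (a (l 16910960) (l 17029456)) (c (l 17050984) (l 14))) (b (l 17070936) (c (l 17109720) (l 17032216))))))) (a (b (b (b (c (a (a (l 16740760) (l 16750408)) (a (l 16779936) (l 16829368))) (a (l 16699768) (c (l 16736248) (l 16687608)))) (l 14)) (l 14)) (l 14)) (b (c (a (b (b (c (l 16923272) (l 16858848)) (l 14)) (l 14)) (b (b (l 16921144) (c (l 16970000) (l 14))) (c (l 16966960) (l 14)))) (b (b (b (a (l 16744224) (l 16756952)) (l 14)) (l 14)) (l 14))) (c (a (l 14) (b (c (a (l 14) (l 16976432)) (l 14)) (l 14))) (l 14))))), by decide +kernel⟩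

def k67_pm_011 : ∃ t, chk3 f_pm_011 t 11 14 1 = true :=
  ⟨(b (a (b (a (b (a (l 4) (l 4)) (a (b (l 4) (a (l 144116325159) (b (l 141968835991) (l 81839283671)))) (b (a (b (l 4) (l 141968833959)) (b (l 137673864551) (l 16788640))) (c (l 29762798567) (l 27078447415))))) (b (b (a (a (l 4) (b (l 4) (l 146263802327))) (a (b (l 145190058759) (l 16788888)) (l 16792032))) (a (a (b (l 143042578983) (l 125862702311)) (l 55532608791)) (l 16783288))) (c (a (l 16784984) (l 16804496)) (a (l 16785224) (l 16794016))))) (a (b (b (b (a (a (l 119957123287) (l 16782064)) (l 16798352)) (a (c (l 16786272) (l 16784336)) (l 16807128))) (c (l 16793056) (l 16783384))) (a (c (l 16811024) (l 16816288)) (l 16804120))) (b (c (l 16832496) (l 16814208)) (c (l 16893744) (l 16864040))))) (b (a (c (b (l 16801192) (l 16841032)) (b (l 16792648) (l 16844216))) (c (l 16849176) (l 16827128))) (a (c (l 16901000) (l 16867896)) (c (l 16970056) (l 16928864))))) (a (c (b (a (b (l 16884608) (l 16924176)) (l 16953720)) (a (l 16960792) (l 17031696)))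 (b (a (b (l 16852600) (l 16877648)) (b (l 16891640) (l 16917680))) (a (b (l 16900312) (l 16920016)) (c (l 16972784) (l 16933248))))) (c (b (a (l 17001656) (l 17049072)) (l 17061808)) (b (a (l 16945016) (l 16985608)) (a (l 16995536) (l 17037784)))))), by decide +kernel⟩

def k68_pm_011 : ∃ t, chk3 f_pm_011 t 11 30 1 = true :=
  ⟨(a (b (c (a (b (l 17035952) (l 17069560)) (l 17105440)) (a (b (l 16936096) (c (l 16978696) (a (l 16905032) (l 16930152)))) (b (l 16982560) (c (l 17030032) (l 16967864))))) (c (a (b (l 17101320) (c (l 17172600) (l 17089408))) (l 17173640)) (a (b (c (l 16993848) (a (l 16907304) (l 16936416))) (a (c (l 16990088) (b (l 16907128) (l 16905152))) (c (l 17021984) (l 16939184)))) (b (l 16993416) (c (l 17067408) (l 16986128)))))) (c (b (a (l 17155152) (l 17202672)) (l 17250920)) (b (a (b (l 17028336) (l 17048504)) (l 17084344)) (a (c (l 17113416) (l 17038560)) (l 17126448))))), by decide +kernel⟩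

def k69_pm_011 : ∃ t, chk3 f_pm_011 t 11 31 2 = true :=
  ⟨(b (a (a (a (b (l 17140768) (a (l 17088968) (l 17170640))) (b (l 17173848) (l 17155744))) (b (l 17219976) (c (l 17300088) (l 17195232)))) (a (l 17291776) (l 17343072))) (a (a (c (b (l 17261288) (l 17289008)) (b (a (b (l 17111656) (l 17116936)) (l 17156992)) (a (b (l 17122104) (l 17125816)) (l 17172264)))) (b (c (l 17332352) (b (l 17209536) (l 17220824))) (c (l 17366088) (l 17236704)))) (a (b (l 17337376) (l 17369568)) (l 17408808)))), by decide +kernel⟩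

def k70_pm_011 : ∃ t, chk3 f_pm_011 t 11 31 3 = true :=
  ⟨(c (a (b (a (b (a (l 16995584) (l 17031344)) (a (b (l 16995344) (l 16992864)) (l 17014128))) (b (l 17081264) (a (l 17073128) (l 17108520)))) (a (b (b (a (b (l 16989664) (l 16987408)) (l 17033944)) (a (c (l 17018648) (l 16953240)) (l 17034768))) (a (b (a (l 16906112) (l 16996328)) (c (l 17014672) (l 14))) (b (l 17035024) (c (l 17069216) (l 16998216))))) (b (b (a (l 17076040) (l 17115080)) (l 17080080)) (a (b (l 17082952) (l 17084848)) (l 17129456))))) (b (a (l 17150360) (l 17206512)) (a (b (a (l 17155304) (l 17189440)) (l 17189656)) (l 17246496)))) (b (a (a (b (a (b (l 16901472) (l 16895832)) (b (l 16937848) (l 16935000))) (a (b (l 16846232) (a (l 16866520) (l 16889960))) (b (l 16930360) (l 16881712)))) (b (a (l 16972248) (l 17006064)) (a (b (l 16969864) (a (l 16955920) (l 16976424))) (l 16985344)))) (a (b (l 17053464) (l 17059216)) (b (l 17110384) (l 17121536)))) (a (a (b (b (a (b (c (l 16899304) (l 16839248)) (l 14)) (b (l 16917392) (c (l 16943424)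 (l 14)))) (a (l 14) (c (l 16940296) (l 14)))) (a (l 14) (b (c (a (l 14) (l 16948104)) (l 14)) (l 14)))) (b (b (a (b (l 16962360) (l 16960528)) (b (l 17004080) (l 17004160))) (a (c (l 16988712) (l 16928080)) (l 17004224))) (a (b (a (l 16899592) (l 16966992)) (c (l 16982744) (l 14))) (b (l 17003256) (c (l 17033528) (l 16968136)))))) (a (b (b (l 17061760) (l 17044696)) (a (b (l 17047928) (l 17048584)) (l 17090240))) (b (l 17132840) (l 17145528)))))), by decide +kernel⟩

def k71_pm_011 : ∃ t, chk3 f_pm_011 t 3 2 1 = true :=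
  ⟨(b (l 1) (a (l 4) (l 1))), by decide +kernel⟩

def k72_pm_011 : ∃ t, chk3 f_pm_011 t 3 6 1 = true :=
  ⟨(a (b (a (b (l 4) (a (l 4) (b (l 4) (a (l 4) (b (l 4) (a (b (l 4) (l 130157709735)) (b (l 128010220327) (l 90429255383)))))))) (b (l 1) (a (a (a (b (l 1) (l 229277524807)) (l 1)) (l 1)) (l 1)))) (a (b (a (b (l 4) (a (b (l 4) (a (l 4) (b (l 4) (a (l 136600141287) (l 144116323943))))) (a (b (b (l 4) (l 134989545591)) (b (a (l 141431975095) (l 16804776)) (l 16791056))) (b (b (a (l 4) (l 136600137927)) (l 84523659303)) (l 16793824))))) (b (a (b (a (l 4) (b (l 4) (l 138210772647))) (a (b (l 132305187319) (a (l 129620800695) (l 16797464))) (b (l 90429248551) (l 16805008)))) (a (b (c (l 119420288039) (l 111367224471)) (l 16797112)) (b (l 16799336) (l 16798688)))) (a (c (b (l 27615336071) (l 16830960)) (b (a (l 16806288) (l 16805392)) (l 16824912))) (b (l 16798648) (l 16873192))))) (a (b (c (a (b (a (b (l 132842026759) (l 124788976231)) (l 48016429271)) (l 16795176)) (l 16794720)) (a (b (a (b (l 144653183943)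 (l 118883395783)) (l 41573975623)) (l 16791792)) (b (l 16813352) (l 16844000)))) (a (b (c (l 16801664) (l 16812264)) (l 16873080)) (c (l 16911456) (l 16889920)))) (b (a (c (l 16843408) (l 16849416)) (l 16901560)) (c (l 16982496) (l 16951344))))) (b (a (b (a (b (l 16803440) (l 16832488)) (l 16840320)) (a (l 16880616) (l 16945576))) (b (l 1) (l 16989312))) (a (b (c (l 17002600) (l 16973296)) (l 17011128)) (c (l 17126728) (l 17082736)))))) (b (l 1) (a (b (l 1) (a (c (l 17212024) (l 17160984)) (l 1))) (l 1)))), by decide +kernel⟩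

def k73_pm_011 : ∃ t, chk3 f_pm_011 t 3 7 1 = true :=
  ⟨(a (b (a (b (a (b (a (a (l 16913808) (l 16936032)) (l 16948088)) (c (l 17041088) (l 16989536))) (c (b (l 17056784) (l 17131848)) (b (l 17010968) (l 17069472)))) (a (b (c (l 17118720) (l 17046568)) (c (l 17195576) (a (l 17079536) (l 17120376)))) (c (b (l 17207192) (l 17280952)) (b (l 17126112) (l 17179504))))) (b (a (c (l 17182216) (l 17119368)) (c (l 17266168) (l 17196224))) (c (a (l 17325072) (l 17400776)) (a (b (l 17203024) (l 17253912)) (l 17300336))))) (a (b (c (a (b (l 17269712) (l 17341520)) (l 17386296)) (a (b (l 17149472) (a (l 17173152) (l 17216632))) (b (l 17229224) (l 17276600)))) (b (c (a (l 17410840) (l 17488120)) (a (b (l 17226456) (c (l 17290816) (l 17180384))) (b (l 17310160) (l 17331752)))) (c (a (l 17477472) (l 17550080)) (a (a (c (l 17302400) (l 17200616)) (l 17301960)) (c (l 17411768) (l 17320528)))))) (b (c (a (l 17458856) (l 17525376)) (a (l 17325640) (l 17391776))) (c (b (l 17584328) (l 17632072)) (b (a (l 17413760) (l 17455168))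 (a (l 17435512) (l 17492120))))))) (b (a (b (c (l 17384632) (a (l 17271160) (l 17343120))) (c (l 17505088) (a (l 17367816) (l 17431896)))) (b (l 1) (c (l 17630640) (l 17521528)))) (b (a (c (l 17616720) (a (l 17453248) (l 17510984))) (c (l 17724544) (a (l 17565352) (l 17615432)))) (a (c (b (l 17690128) (l 17713960)) (b (a (l 17511024) (l 17561888)) (l 17561672))) (c (l 17823328) (b (l 17630248) (l 17638056))))))), by decide +kernel⟩

theorem s74_pm_011 : ∃ t, chk3 f_pm_011 t 3 3 1 = true := ex3_b k72_pm_011 k73_pm_011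

theorem s75_pm_011 : ∃ t, chk3 f_pm_011 t 3 1 1 = true := ex3_b k71_pm_011 s74_pm_011

theorem s76_pm_011 : ∃ t, chk3 f_pm_011 t 11 31 1 = true := ex3_c k69_pm_011 k70_pm_011

theorem s77_pm_011 : ∃ t, chk3 f_pm_011 t 11 15 1 = true := ex3_b k68_pm_011 s76_pm_011

theorem s78_pm_011 : ∃ t, chk3 f_pm_011 t 11 7 1 = true := ex3_b k67_pm_011 s77_pm_011

theorem s79_pm_011 : ∃ t, chk3 f_pm_011 t 21 31 1 = true := ex3_b k65_pm_011 k66_pm_011

theorem s80_pm_011 : ∃ t, chk3 f_pm_011 t 40 127 3 = true := ex3_a k62_pm_011 k63_pm_011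

theorem s81_pm_011 : ∃ t, chk3 f_pm_011 t 40 63 3 = true := ex3_b k61_pm_011 s80_pm_011

theorem s82_pm_011 : ∃ t, chk3 f_pm_011 t 40 63 1 = true := ex3_c k60_pm_011 s81_pm_011

theorem s83_pm_011 : ∃ t, chk3 f_pm_011 t 20 63 1 = true := ex3_a s82_pm_011 k64_pm_011

theorem s84_pm_011 : ∃ t, chk3 f_pm_011 t 20 62 1 = true := ex3_b k58_pm_011 k59_pm_011

theorem s85_pm_011 : ∃ t, chk3 f_pm_011 t 20 31 1 = true := ex3_b s84_pm_011 s83_pm_011

theorem s86_pm_011 : ∃ t, chk3 f_pm_011 t 10 31 1 = true := ex3_a s85_pm_011 s79_pm_011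

theorem s87_pm_011 : ∃ t, chk3 f_pm_011 t 10 30 1 = true := ex3_a k56_pm_011 k57_pm_011

theorem s88_pm_011 : ∃ t, chk3 f_pm_011 t 10 15 1 = true := ex3_b s87_pm_011 s86_pm_011

theorem s89_pm_011 : ∃ t, chk3 f_pm_011 t 10 29 1 = true := ex3_a k54_pm_011 k55_pm_011

theorem s90_pm_011 : ∃ t, chk3 f_pm_011 t 10 14 1 = true := ex3_b k53_pm_011 s89_pm_011

theorem s91_pm_011 : ∃ t, chk3 f_pm_011 t 10 7 1 = true := ex3_b s90_pm_011 s88_pm_011

theorem s92_pm_011 : ∃ t, chk3 f_pm_011 t 5 7 1 = true := ex3_a s91_pm_011 s78_pm_011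

theorem s93_pm_011 : ∃ t, chk3 f_pm_011 t 5 3 1 = true := ex3_b k52_pm_011 s92_pm_011

theorem s94_pm_011 : ∃ t, chk3 f_pm_011 t 79 127 1 = true := ex3_c k50_pm_011 k51_pm_011

theorem s95_pm_011 : ∃ t, chk3 f_pm_011 t 78 127 1 = true := ex3_c k48_pm_011 k49_pm_011

theorem s96_pm_011 : ∃ t, chk3 f_pm_011 t 39 127 1 = true := ex3_a s95_pm_011 s94_pm_011

theorem s97_pm_011 : ∃ t, chk3 f_pm_011 t 38 127 3 = true := ex3_c k46_pm_011 k47_pm_011

theorem s98_pm_011 : ∃ t, chk3 f_pm_011 t 38 127 5 = true := ex3_a k44_pm_011 k45_pm_011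

theorem s99_pm_011 : ∃ t, chk3 f_pm_011 t 38 127 2 = true := ex3_c k43_pm_011 s98_pm_011

theorem s100_pm_011 : ∃ t, chk3 f_pm_011 t 38 127 1 = true := ex3_c s99_pm_011 s97_pm_011

theorem s101_pm_011 : ∃ t, chk3 f_pm_011 t 19 127 1 = true := ex3_a s100_pm_011 s96_pm_011

theorem s102_pm_011 : ∃ t, chk3 f_pm_011 t 19 126 1 = true := ex3_a k41_pm_011 k42_pm_011

theorem s103_pm_011 : ∃ t, chk3 f_pm_011 t 19 63 1 = true := ex3_b s102_pm_011 s101_pm_011

theorem s104_pm_011 : ∃ t, chk3 f_pm_011 t 19 62 1 = true := ex3_b k39_pm_011 k40_pm_011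

theorem s105_pm_011 : ∃ t, chk3 f_pm_011 t 19 31 1 = true := ex3_b s104_pm_011 s103_pm_011

theorem s106_pm_011 : ∃ t, chk3 f_pm_011 t 75 127 4 = true := ex3_b k35_pm_011 k36_pm_011

theorem s107_pm_011 : ∃ t, chk3 f_pm_011 t 75 127 2 = true := ex3_c s106_pm_011 k37_pm_011

theorem s108_pm_011 : ∃ t, chk3 f_pm_011 t 75 127 1 = true := ex3_c s107_pm_011 k38_pm_011

theorem s109_pm_011 : ∃ t, chk3 f_pm_011 t 74 127 2 = true := ex3_c k32_pm_011 k33_pm_011

theorem s110_pm_011 : ∃ t, chk3 f_pm_011 t 74 127 1 = true := ex3_c s109_pm_011 k34_pm_011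

theorem s111_pm_011 : ∃ t, chk3 f_pm_011 t 37 127 1 = true := ex3_a s110_pm_011 s108_pm_011

theorem s112_pm_011 : ∃ t, chk3 f_pm_011 t 37 63 1 = true := ex3_b k31_pm_011 s111_pm_011

theorem s113_pm_011 : ∃ t, chk3 f_pm_011 t 73 127 1 = true := ex3_c k29_pm_011 k30_pm_011

theorem s114_pm_011 : ∃ t, chk3 f_pm_011 t 36 127 1 = true := ex3_a k28_pm_011 s113_pm_011

theorem s115_pm_011 : ∃ t, chk3 f_pm_011 t 36 63 1 = true := ex3_b k27_pm_011 s114_pm_011

theorem s116_pm_011 : ∃ t, chk3 f_pm_011 t 18 63 1 = true := ex3_a s115_pm_011 s112_pm_011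

theorem s117_pm_011 : ∃ t, chk3 f_pm_011 t 18 62 1 = true := ex3_a k25_pm_011 k26_pm_011

theorem s118_pm_011 : ∃ t, chk3 f_pm_011 t 18 31 1 = true := ex3_b s117_pm_011 s116_pm_011

theorem s119_pm_011 : ∃ t, chk3 f_pm_011 t 9 31 1 = true := ex3_a s118_pm_011 s105_pm_011

theorem s120_pm_011 : ∃ t, chk3 f_pm_011 t 19 60 1 = true := ex3_a k22_pm_011 k23_pm_011

theorem s121_pm_011 : ∃ t, chk3 f_pm_011 t 19 30 1 = true := ex3_b s120_pm_011 k24_pm_011

theorem s122_pm_011 : ∃ t, chk3 f_pm_011 t 37 61 1 = true := ex3_b k20_pm_011 k21_pm_011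

theorem s123_pm_011 : ∃ t, chk3 f_pm_011 t 36 123 1 = true := ex3_a k18_pm_011 k19_pm_011

theorem s124_pm_011 : ∃ t, chk3 f_pm_011 t 36 61 1 = true := ex3_b k17_pm_011 s123_pm_011

theorem s125_pm_011 : ∃ t, chk3 f_pm_011 t 18 61 1 = true := ex3_a s124_pm_011 s122_pm_011

theorem s126_pm_011 : ∃ t, chk3 f_pm_011 t 18 30 1 = true := ex3_b k16_pm_011 s125_pm_011

theorem s127_pm_011 : ∃ t, chk3 f_pm_011 t 9 30 1 = true := ex3_a s126_pm_011 s121_pm_011

theorem s128_pm_011 : ∃ t, chk3 f_pm_011 t 9 15 1 = true := ex3_b s127_pm_011 s119_pm_011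

theorem s129_pm_011 : ∃ t, chk3 f_pm_011 t 17 63 1 = true := ex3_b k14_pm_011 k15_pm_011

theorem s130_pm_011 : ∃ t, chk3 f_pm_011 t 70 124 1 = true := ex3_b k10_pm_011 k11_pm_011

theorem s131_pm_011 : ∃ t, chk3 f_pm_011 t 35 124 1 = true := ex3_a s130_pm_011 k12_pm_011

theorem s132_pm_011 : ∃ t, chk3 f_pm_011 t 35 62 1 = true := ex3_b s131_pm_011 k13_pm_011

theorem s133_pm_011 : ∃ t, chk3 f_pm_011 t 69 250 1 = true := ex3_a k7_pm_011 k8_pm_011

theorem s134_pm_011 : ∃ t, chk3 f_pm_011 t 69 125 1 = true := ex3_b s133_pm_011 k9_pm_011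

theorem s135_pm_011 : ∃ t, chk3 f_pm_011 t 34 125 1 = true := ex3_a k6_pm_011 s134_pm_011

theorem s136_pm_011 : ∃ t, chk3 f_pm_011 t 34 62 1 = true := ex3_b k5_pm_011 s135_pm_011

theorem s137_pm_011 : ∃ t, chk3 f_pm_011 t 17 62 1 = true := ex3_a s136_pm_011 s132_pm_011

theorem s138_pm_011 : ∃ t, chk3 f_pm_011 t 17 31 1 = true := ex3_b s137_pm_011 s129_pm_011

theorem s139_pm_011 : ∃ t, chk3 f_pm_011 t 8 31 1 = true := ex3_a k4_pm_011 s138_pm_011

theorem s140_pm_011 : ∃ t, chk3 f_pm_011 t 8 15 1 = true := ex3_b k3_pm_011 s139_pm_011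

theorem s141_pm_011 : ∃ t, chk3 f_pm_011 t 4 15 1 = true := ex3_a s140_pm_011 s128_pm_011

theorem s142_pm_011 : ∃ t, chk3 f_pm_011 t 4 7 1 = true := ex3_b k2_pm_011 s141_pm_011

theorem s143_pm_011 : ∃ t, chk3 f_pm_011 t 4 3 1 = true := ex3_b k1_pm_011 s142_pm_011

theorem s144_pm_011 : ∃ t, chk3 f_pm_011 t 2 3 1 = true := ex3_a s143_pm_011 s93_pm_011

theorem s145_pm_011 : ∃ t, chk3 f_pm_011 t 2 1 1 = true := ex3_b k0_pm_011 s144_pm_011

theorem s146_pm_011 : ∃ t, chk3 f_pm_011 t 1 1 1 = true := ex3_a s145_pm_011 s75_pm_011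

theorem c_pm_011 : CertN 0 536870912 536870912 536870912 134217728 67108864 3 false true false .pnn 0 1 1
    ndN0q0 ndN0q1 pcN1 cut_pm_011 Ext.none :=
  certN0 (fam := false) (s1 := true) (s2 := false) (a := 0) (b := 1) (c := 1) (cn := .pnn) (n1 := ndN0q0) (n2 := ndN0q1) (pc := pcN1) (cut := cut_pm_011) (xt := Ext.none) (P1 := 0) (W1 := 536870912) (P2 := 536870912) (W2 := 536870912) (P3 := 134217728) (W3 := 67108864) (N0 := 3)
    rfl s146_pm_011

end Pool.Agent.Strip051.G.I1_8_3_16.Tab.C.NB00

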