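import Pool.Agent.Strip051.G.I1_8_3_16.Tab

/-! # Certificates N11 (generated) -/

set_option linter.all false
set_option maxRecDepth 100000

namespace Pool.Agent.Strip051.G.I1_8_3_16.Tab.C.NB00

open Pool.Agent.Strip051.PB Pool.Agent.Strip051.PB.T
open Pool.Agent.Strip051.G.I1_8_3_16.Tab

noncomputable def cut_pm_012 : Cut := Cut.of [[⟨0, 0, 0, 53687091⟩, ⟨1, 1, 0, 53687091⟩, ⟨2, 1, 0, 53687091⟩], [⟨0, 0, 1, 41943040⟩, ⟨1, 1, 2, 41943040⟩, ⟨2, 1, 0, 16777216⟩]]

noncomputable def f_pm_012 : ℕ → ℕ → ℕ → ℕ → Bool := onCell 536870912 536870912 0 536870912 134217728 67108864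
    (rowN 3 2 false true false .pnp 0 1 2 (qsf 0 536870912 0 536870912 1) ndN0q0 ndN0q2 pcN1 cut_pm_012 Ext.none)

def k0_pm_012 : ∃ t, chk3 f_pm_012 t 2 1 1 = true :=
  ⟨(b (a (b (l 2) (a (l 2) (b (l 2) (a (l 2) (l 17301704))))) (b (a (b (a (b (l 16925352) (l 16986552)) (l 17007440)) (a (l 17078232) (l 17119048))) (b (a (l 17056696) (l 17104360)) (l 17178256))) (a (b (l 17235840) (a (l 17319016) (l 17337712))) (b (l 17276016) (a (l 17361904) (l 17392352)))))) (a (b (a (l 2) (b (l 47883786615) (l 17514600))) (b (a (l 17595712) (l 17605824)) (a (b (l 17683736) (c (l 17749392) (l 17626968))) (b (c (l 17672088) (l 17560520)) (c (l 17712232) (l 17575512)))))) (b (a (b (l 17438992) (l 17528936)) (b (l 17479384) (c (l 17612872) (l 17481464)))) (a (b (c (l 17638256) (l 17519656)) (c (b (l 17656208) (l 17664600)) (b (b (l 17524344) (l 17522240)) (a (l 17526520) (l 17484184))))) (b (c (l 17642816) (a (l 17501032) (l 17475528))) (b (c (a (l 17636688) (l 17611280)) (a (l 17477696) (b (l 17439928)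 (l 17411824)))) (c (a (l 17610512) (l 17556832)) (a (b (l 17444640) (l 17410576)) (b (l 17374720) (a (l 17350584) (l 17280608))))))))))), by decide +kernel⟩

def k1_pm_012 : ∃ t, chk3 f_pm_012 t 3 2 1 = true :=
  ⟨(a (b (a (a (l 17193624) (l 17234528)) (a (l 17269576) (a (l 17286208) (l 17289040)))) (a (b (a (l 17324960) (l 17358264)) (c (l 17499424) (l 17375520))) (b (a (l 17383456) (l 17385336)) (a (l 17456720) (c (l 17546408) (l 17314608)))))) (a (b (a (b (l 17247616) (l 17297232)) (b (l 17169016) (l 17131048))) (a (b (l 17337544) (c (l 17499528) (l 17184488))) (b (c (l 17379104) (l 17013048)) (c (l 17358520) (l 16917472))))) (b (a (b (l 17064160) (c (l 17167008) (l 16982344))) (b (c (l 17036944) (l 17001784)) (c (l 16949592) (a (l 16933368) (l 16898440))))) (a (b (c (l 17150168) (l 16888584)) (c (b (l 17079368) (l 16861848)) (b (l 16825672) (l 16787792)))) (b (c (a (l 16871424) (l 16836760)) (a (l 16840632) (l 16807080))) (a (c (b (l 16808088) (l 16770584)) (b (l 16779592) (l 16743384)))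 (b (c (l 16774624) (l 16747784)) (c (l 16738192) (l 16713032))))))))), by decide +kernel⟩

def k2_pm_012 : ∃ t, chk3 f_pm_012 t 6 6 1 = true :=
  ⟨(a (b (c (l 17588040) (l 17433912)) (c (l 17631576) (a (l 17462904) (l 17421720)))) (b (a (c (l 17600064) (l 17383592)) (c (l 17567616) (b (l 17300168) (l 17267752)))) (c (a (l 17595632) (b (l 17536208) (l 17482304))) (a (b (l 17356712) (l 17312856)) (b (l 17212480) (a (l 17186272) (l 17063560))))))), by decide +kernel⟩

def k3_pm_012 : ∃ t, chk3 f_pm_012 t 7 12 1 = true :=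
  ⟨(a (a (c (b (l 17485272) (l 17446440)) (b (l 17122008) (l 17048088))) (b (c (l 17283512) (l 16806816)) (c (a (l 17272576) (l 17089928)) (a (l 16785512) (l 16760376))))) (a (c (b (a (l 16990584) (l 16767136)) (a (l 16825496) (l 16736104))) (a (b (l 16766584) (l 16734616)) (b (l 16738864) (l 16708304)))) (b (a (c (l 16736704) (l 16710576)) (c (a (l 16713376) (l 16697688)) (a (l 16689032) (l 16674608)))) (a (c (b (l 16713720) (l 16699920)) (b (l 16688280) (l 16674864))) (c (a (l 16684688) (b (l 16676136) (l 16663360))) (a (l 16661504) (l 16637592))))))), by decide +kernel⟩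

def k4_pm_012 : ∃ t, chk3 f_pm_012 t 7 13 1 = true :=
  ⟨(a (a (c (b (l 17168208) (a (l 17339368) (l 17109664))) (b (l 16815928) (a (l 16898680) (l 16751584)))) (b (c (a (l 17155416) (l 16861912)) (a (l 16755096) (l 16731104))) (c (a (l 16777704) (b (l 16759528) (l 16734264))) (a (l 16708296) (b (l 16711984) (l 16701176)))))) (a (b (c (a (b (l 16743144) (l 16730408)) (b (l 16715448) (l 16703384))) (a (b (l 16713024) (l 16700264)) (b (l 16687936) (l 16676064)))) (c (a (b (l 16718976) (l 16688016)) (b (a (l 16699224) (l 16686016)) (a (l 16689816) (l 16677032)))) (a (b (l 16688848) (l 16678936)) (b (l 16644616) (a (l 16662184) (l 16651088)))))) (a (b (c (b (l 16666368) (a (l 16682864) (l 16669176))) (b (l 16662680) (a (l 16657816) (l 16645704)))) (c (b (a (l 16672784) (l 16659560)) (a (l 16664264) (c (l 16657448) (l 16645736)))) (b (a (l 16648120) (l 16636576)) (a (l 16640048) (l 16629096))))) (b (c (a (b (l 16666072) (l 16655472)) (b (l 16651880) (c (l 16647064) (l 16636608)))) (a (b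 (l 16643688) (l 16633640)) (b (l 16631088) (l 16621632)))) (a (c (b (c (l 16651936) (l 16640872)) (c (l 16644448) (l 16633640))) (b (l 16625096) (l 16628816))) (c (b (c (l 16638488) (l 16628304)) (a (l 16629792) (c (l 16628736) (l 16619040)))) (b (a (l 16616560) (l 16611016)) (a (l 16610472) (l 16605368))))))))), by decide +kernel⟩

def k5_pm_012 : ∃ t, chk3 f_pm_012 t 12 7 1 = true :=
  ⟨(b (b (c (l 17623096) (a (l 17445152) (l 17373760))) (c (a (l 17611816) (l 17561120)) (a (b (l 17420880) (l 17397672)) (b (l 17331416) (a (l 17325888) (l 17259352)))))) (b (a (c (l 17565432) (b (l 17366368) (a (l 17349952) (l 17295824)))) (c (a (l 17509208) (b (l 17482648) (l 17427416))) (a (b (l 17282280) (l 17206656)) (b (l 17205760) (c (l 17213472) (l 17067096)))))) (a (c (b (l 17505416) (a (l 17473856) (l 17421472))) (b (a (l 17302008) (c (l 17301304) (l 17177928))) (a (c (l 17301200) (l 17185056)) (c (b (l 17253040) (l 17216672)) (b (l 17127936) (a (l 17112048) (l 17068800))))))) (c (b (a (l 17428272)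 (c (l 17431016) (l 17286024))) (a (c (l 17423424) (l 17288720)) (c (l 17349216) (b (l 17223904) (a (l 17202216) (l 17152296)))))) (b (a (c (l 17229376) (b (l 17112160) (l 17075848))) (c (b (l 17158752) (l 17118440)) (b (l 17009992) (a (l 16997664) (l 14))))) (a (c (b (l 17173336) (a (l 17154728) (l 17107960))) (b (a (l 17061408) (l 17010824)) (a (b (l 17031120) (l 16989064)) (c (l 17002904) (l 14))))) (b (c (a (l 17101648) (l 17047176)) (a (c (l 16991744) (l 14)) (l 14))) (c (a (b (l 17068008) (l 17023584)) (c (l 17037664) (l 14))) (l 14))))))))), by decide +kernel⟩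

def k6_pm_012 : ∃ t, chk3 f_pm_012 t 13 14 1 = true :=
  ⟨(a (c (b (l 17537008) (b (l 17484072) (a (l 17471736) (l 17397864)))) (b (a (l 17284280) (l 17198648)) (b (l 17049504) (a (l 17171744) (b (l 17074288) (l 17038456)))))) (b (c (a (l 17440952) (l 17343840)) (a (l 17063184) (l 16785256))) (c (a (b (l 17363232) (l 17213848)) (b (l 17244192) (c (l 17271680) (l 17050704)))) (b (a (l 16985760) (l 16786664)) (a (l 16781216) (b (l 16751400) (l 16744912))))))), by decide +kernel⟩

def k7_pm_012 : ∃ t, chk3 f_pm_012 t 26 15 1 = true :=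
  ⟨(b (c (b (a (l 17417840) (l 17310576)) (a (l 17246280) (c (l 17340384) (b (l 17184488) (l 17140056))))) (b (a (c (l 17185720) (l 17026160)) (l 16779456)) (b (a (l 16840576) (l 16745256)) (a (c (l 17091280) (l 16926800)) (c (l 16874128) (l 16730896)))))) (c (b (a (c (l 17351072) (b (l 17211552) (l 17166832))) (c (b (l 17273032) (l 17223072)) (b (l 16945432) (a (l 17075528) (l 14))))) (a (c (b (l 17281976) (a (l 17256552) (l 17203256))) (b (a (l 17147256) (l 17067512)) (a (c (l 17136880) (l 17056784)) (c (l 17077288) (l 14))))) (c (b (a (l 17200016) (l 17115504)) (a (c (l 17187752) (l 17099384)) (c (l 17123312) (l 14)))) (b (a (c (l 17067112) (l 14)) (l 14)) (l 14))))) (b (b (a (c (l 17006400) (l 16735784)) (c (l 16740976) (l 16728168))) (a (c (a (l 17034040) (l 14)) (l 14)) (l 14))) (a (b (c (a (c (l 17026896) (l 14)) (l 14)) (l 14)) (l 14)) (l 14))))), by decide +kernel⟩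

def k8_pm_012 : ∃ t, chk3 f_pm_012 t 27 30 1 = true :=
  ⟨(c (a (b (c (l 17314920) (l 17117504)) (c (b (l 17247456) (l 17197616)) (b (l 17045864) (a (l 17034272) (l 16950928))))) (b (c (l 17113720) (l 16759640)) (c (b (l 17053584) (a (l 17081456) (l 16988488))) (b (l 16758112) (l 16738888))))) (b (a (c (l 16769112) (l 16740848)) (c (l 16745552) (l 16728672))) (a (c (a (l 16755256) (l 16743928)) (b (l 16732192) (l 16727344))) (a (c (l 16737712) (l 16724328)) (c (l 16733504) (l 16720752)))))), by decide +kernel⟩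

def k9_pm_012 : ∃ t, chk3 f_pm_012 t 27 62 1 = true :=
  ⟨(b (c (a (c (a (l 17179656) (l 17105904)) (a (l 16980984) (l 16830688))) (c (a (l 16979160) (l 16734408)) (a (l 16751600) (l 16738712)))) (a (c (a (l 16779472) (l 16733392)) (a (l 16724720) (l 16722456))) (c (a (l 16730816) (l 16728448)) (a (l 16720376) (l 16718504))))) (c (a (c (a (l 17124064) (l 14)) (l 14)) (l 14)) (a (c (l 14) (a (l 16720768) (l 16719632))) (c (a (b (l 16727976) (l 16726336)) (b (l 16726528) (l 16725480))) (a (b (l 16719008) (l 16718344)) (b (l 16717984) (l 16717880))))))), by decide +kernel⟩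

def k10_pm_012 : ∃ t, chk3 f_pm_012 t 54 63 1 = true :=
  ⟨(c (b (c (a (c (l 17114176) (l 14)) (l 14)) (l 14)) (l 14)) (b (c (l 14) (a (b (l 16718256) (c (l 14) (l 16715192))) (b (l 16717960) (c (l 16718680) (l 16715536))))) (c (l 14) (b (a (c (l 14) (a (l 14) (l 16714560))) (c (a (l 14) (l 16718128)) (a (l 16715016) (l 16715520)))) (a (a (l 14) (a (l 14) (a (l 14) (c (l 14) (b (l 16714344) (c (l 14) (l 16713608))))))) (b (c (a (l 14) (c (l 14) (l 16717112))) (a (c (l 16715296) (l 16714144)) (c (l 16715992) (l 16714872)))) (c (a (l 14) (c (l 14) (a (l 14) (b (l 16717208) (l 16717144))))) (b (a (c (l 16715144) (l 16714088)) (c (l 16715936) (l 16714912))) (a (c (a (l 14) (l 16715304)) (a (l 16713888) (l 16714320))) (c (a (l 16715744) (l 16716184)) (a (l 16714768) (l 16715224)))))))))))), by decide +kernel⟩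

def k11_pm_012 : ∃ t, chk3 f_pm_012 t 55 63 2 = true :=
  ⟨(l 14), by decide +kernel⟩

def k12_pm_012 : ∃ t, chk3 f_pm_012 t 55 126 3 = true :=
  ⟨(c (c (a (l 14) (b (l 16726312) (a (l 14) (l 16725680)))) (a (b (l 16723104) (l 16723384)) (b (l 16722944) (a (l 16722552) (l 16722824))))) (a (b (l 16720488) (c (l 16719064) (l 16716072))) (a (b (l 16718080) (l 16718208)) (b (l 16718184) (l 16723832))))), by decide +kernel⟩

def k13_pm_012 : ∃ t, chk3 f_pm_012 t 110 127 3 = true :=
  ⟨(c (a (l 14) (a (l 14) (c (l 14) (b (l 16721808) (b (l 16721472) (c (l 14) (b (l 16720856) (c (l 14) (l 16720592))))))))) (b (c (a (l 16718616) (l 16719152)) (a (l 16716072) (l 16716664))) (b (c (a (c (l 16718912) (l 16717824)) (c (l 16719648) (l 16718584))) (a (c (l 16716728) (l 16715640)) (l 16716984))) (c (b (a (c (l 16718784) (l 16717784)) (c (l 16719624) (l 16718648))) (a (c (a (l 14) (c (l 14) (l 16718752))) (a (l 16717592) (l 16718048))) (c (a (l 16719440) (l 16719912)) (a (l 16718520) (l 16719000)))))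 (a (c (a (b (l 16716608) (l 16716648)) (l 16717080)) (a (l 16715648) (l 16716112))) (c (a (l 16717544) (l 16718016)) (a (l 16716592) (l 16717080)))))))), by decide +kernel⟩

def k14_pm_012 : ∃ t, chk3 f_pm_012 t 111 127 3 = true :=
  ⟨(c (b (c (a (l 14) (b (l 16725224) (l 16724984))) (a (b (l 16722232) (l 16722088)) (b (l 16722728) (l 16722720)))) (a (c (l 14) (b (c (l 16722504) (l 16721464)) (c (a (l 14) (b (l 16722672) (c (l 14) (l 16722424)))) (a (a (l 16721184) (l 16721416)) (b (l 16721728) (l 16721760)))))) (a (c (l 14) (b (l 16722616) (c (b (l 16723112) (c (l 16723344) (l 16722904))) (b (l 16722184) (l 16722256))))) (c (b (l 16725032) (c (l 14) (b (l 16724480) (c (l 14) (l 16724256))))) (b (l 16723016) (b (l 16724416) (c (l 16723616) (l 16722752)))))))) (b (c (a (l 16719728) (l 16720360)) (a (l 16717312) (l 16718000))) (b (c (a (c (l 16720424) (l 16719384)) (c (l 16721248) (l 16720240))) (a (l 16717832) (l 16718728))) (c (a (c (b (l 16720512) (a (l 16720392) (l 16720880))) (a (l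 16719432) (l 16719920))) (c (a (b (l 16721256) (l 16721384)) (l 16721816)) (a (l 16720416) (l 16720920)))) (a (c (a (l 16718504) (l 16719000)) (a (l 16717576) (l 16718088))) (c (a (l 16719512) (l 16720032)) (a (l 16718608) (l 16719136)))))))), by decide +kernel⟩

def k15_pm_012 : ∃ t, chk3 f_pm_012 t 28 14 1 = true :=
  ⟨(b (c (a (b (l 17246392) (l 17169728)) (b (l 17069936) (l 16885528))) (a (b (l 16776416) (l 16746144)) (b (l 16734696) (l 16725728)))) (b (c (a (c (l 17204656) (l 16954776)) (c (l 17000600) (l 16747392))) (a (l 16737504) (b (l 16720128) (l 16717256)))) (c (a (c (l 17104960) (l 16824936)) (c (l 16767800) (l 16740616))) (a (c (l 16740368) (l 16721632)) (a (l 16718712) (l 16710888)))))), by decide +kernel⟩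

def k16_pm_012 : ∃ t, chk3 f_pm_012 t 28 30 1 = true :=
  ⟨(a (c (b (c (l 16778112) (b (l 16753544) (l 16745640))) (c (b (l 16763688) (a (l 16859272) (l 16753496))) (b (l 16741088) (a (l 16739792) (l 16735944))))) (b (a (c (l 16735928) (l 16720240)) (c (l 16729568) (l 16714672))) (b (c (l 16727944) (l 16715272)) (a (c (l 16728160) (l 16716920)) (c (l 16724896) (l 16714232)))))) (c (b (c (b (l 16764368) (l 16746904)) (a (l 16738144) (l 16731512))) (c (b (a (l 16746744) (l 16741400)) (a (l 16743168) (l 16739200))) (a (b (l 16734144) (l 16732328)) (b (l 16729472) (l 16728952))))) (b (a (c (l 16723464) (l 16709360)) (c (l 16717632) (l 16704296))) (a (c (b (l 16721992) (l 16721864)) (b (l 16710288) (l 16711776))) (b (c (l 16717984) (l 16706936)) (c (l 16719064) (l 16709544))))))), by decide +kernel⟩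

def k17_pm_012 : ∃ t, chk3 f_pm_012 t 28 62 1 = true :=
  ⟨(a (c (b (c (a (l 16746456) (l 16743040)) (a (l 16736008) (l 16733480))) (c (l 14) (a (a (l 14) (l 16732784)) (b (l 16732032) (c (l 16733096) (l 16729536)))))) (b (c (a (l 16726248) (l 16724216)) (a (l 16716792) (l 16715248))) (c (a (b (l 16725232) (l 16724800)) (b (l 16724112) (l 16726904))) (a (b (l 16717120) (l 16717576)) (b (l 16716424) (l 16717448)))))) (c (b (c (a (c (l 16742536) (l 16737928)) (c (l 16739816) (l 16735464))) (a (b (l 16731360) (l 16730944)) (b (l 16728944) (l 16729168)))) (c (a (c (l 14) (b (l 16736456) (l 16735704))) (b (c (l 16738696) (l 16734992)) (c (l 16738176) (l 16734904)))) (a (b (l 16730688) (c (l 16732296) (l 16728928))) (b (c (l 16731352) (l 16727760)) (c (l 16731688) (l 16728512)))))) (b (a (c (l 16722392) (l 16713920)) (c (b (l 16720264) (l 16721288)) (l 16723280))) (b (c (a (l 16723200) (l 16722480)) (a (l 16715936) (l 16715640))) (c (a (a (l 16724288) (l 16724200)) (a (l 16724160) (l 16724168)))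 (a (l 16727992) (l 16725624))))))), by decide +kernel⟩

def k18_pm_012 : ∃ t, chk3 f_pm_012 t 56 63 2 = true :=
  ⟨(b (c (l 14) (c (a (l 14) (b (l 16732312) (a (l 14) (l 16732088)))) (a (b (l 16729384) (a (l 14) (l 16728928))) (b (l 16729208) (a (l 16729184) (l 16729480)))))) (c (l 14) (a (a (l 14) (c (l 14) (c (l 14) (b (l 16727928) (b (l 16727808) (a (l 14) (b (l 16728080) (c (l 14) (l 16727896))))))))) (b (c (a (l 14) (b (l 16731872) (l 16733096))) (a (b (l 16729072) (l 16729056)) (b (l 16729600) (l 16729744)))) (b (c (a (l 14) (c (l 14) (a (l 14) (l 16731576)))) (a (c (a (l 14) (l 16729824)) (l 16728624)) (c (a (l 16730248) (l 16730672)) (l 16729480)))) (c (c (l 14) (a (l 14) (a (l 14) (b (l 16731648) (c (l 14) (l 16731520)))))) (a (c (a (l 14) (b (l 16729864) (c (l 14) (l 16729712)))) (a (b (l 16728552) (c (l 16728808) (l 16728408))) (b (l 16729024) (c (l 16729320) (l 16728928))))) (c (a (b (l 16730344) (c (l 16730616) (l 16730232))) (b (l 16730832) (c (l 16731144) (l 16730760))))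 (a (b (l 16729520) (c (l 16729848) (l 16729464))) (b (l 16730016) (l 16730192))))))))))), by decide +kernel⟩

def k19_pm_012 : ∃ t, chk3 f_pm_012 t 57 126 2 = true :=
  ⟨(c (a (a (l 14) (c (l 14) (b (l 16735392) (l 16735160)))) (a (c (l 14) (b (l 16735352) (l 16735448))) (c (b (l 16738152) (l 16738144)) (b (l 16735360) (l 16735784))))) (a (a (b (l 16730976) (c (l 16732360) (l 16729824))) (b (c (l 16732464) (l 16729568)) (c (l 16732672) (l 16730216)))) (b (c (a (l 16732504) (l 16732600)) (a (l 16729696) (l 16729880))) (c (a (l 16733040) (l 16733448)) (a (l 16730656) (l 16731136)))))), by decide +kernel⟩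

def k20_pm_012 : ∃ t, chk3 f_pm_012 t 114 127 2 = true :=
  ⟨(c (a (l 14) (a (l 14) (c (l 14) (c (l 14) (b (l 16734832) (b (l 16735040) (b (l 16735184) (c (l 14) (a (l 14) (l 16735272)))))))))) (b (c (a (b (l 16732384) (c (l 16732952) (l 16731960))) (b (l 16732936) (c (l 16733656) (l 16732696)))) (a (b (l 16730184) (l 16730480)) (b (l 16730800) (l 16731256)))) (b (c (a (c (a (l 14) (l 16733312)) (a (l 16732000) (l 16732440))) (c (a (l 16733744) (l 16734192)) (a (l 16732888) (l 16733344)))) (a (c (a (l 16731112) (l 16731568)) (l 16731696)) (a (l 16731600) (l 16732080)))) (a (c (c (a (l 14) (a (l 14) (c (l 14) (l 16733424)))) (a (b (l 16732136) (c (l 16732424) (l 16732048))) (b (l 16732632) (c (l 16732952) (l 16732592))))) (c (a (b (l 16731328) (c (l 16731680) (l 16731304))) (b (l 16731840) (c (l 16732224) (l 16731856)))) (a (b (l 16730528) (l 16730744)) (b (l 16731048) (l 16731304))))) (c (c (a (b (l 16733912) (a (l 16733928) (l 16734200))) (b (l 16734416) (c (l 16734760) (l 16734408))))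 (a (b (l 16733136) (c (l 16733496) (l 16733136))) (b (l 16733656) (c (l 16734048) (l 16733696))))) (c (a (b (l 16732360) (l 16733248)) (b (l 16732888) (l 16733160))) (a (b (l 16731584) (l 16731872)) (b (l 16732128) (l 16732456))))))))), by decide +kernel⟩

def k21_pm_012 : ∃ t, chk3 f_pm_012 t 115 127 4 = true :=
  ⟨(b (c (a (l 14) (b (l 16738240) (c (l 14) (l 16737912)))) (a (b (l 16735624) (c (l 16736272) (l 16735336))) (b (l 16736208) (c (l 16737000) (l 16736088))))) (c (c (l 14) (a (l 14) (a (l 14) (b (l 16738456) (b (l 16738680) (c (l 14) (a (l 14) (l 16738848)))))))) (b (a (c (a (l 14) (l 16736752)) (a (l 16735480) (l 16735936))) (c (a (l 16737208) (l 16737664)) (a (l 16736400) (l 16736872)))) (c (a (a (l 14) (b (l 16736936) (c (l 14) (a (l 14) (l 16737064))))) (a (b (l 16737448) (b (l 16737576) (a (l 16737552) (l 16737840)))) (b (l 16737968) (a (a (l 16738008) (l 16738144)) (l 16739008))))) (a (a (b (l 16735688) (b (l 16735800) (a (l 16735760) (l 16736040)))) (b (l 16736200) (a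 (l 16736272) (l 16736552)))) (a (b (l 16736720) (a (l 16736832) (l 16737120))) (b (l 16737256) (c (l 16737688) (l 16737360))))))))), by decide +kernel⟩

def k22_pm_012 : ∃ t, chk3 f_pm_012 t 115 127 5 = true :=
  ⟨(b (a (c (b (l 16733544) (c (l 16734400) (l 16733472))) (b (l 16731472) (l 16734696))) (c (b (l 16734184) (c (l 16735184) (l 16734288))) (a (l 16732456) (l 16732864)))) (a (a (b (c (c (l 16734648) (l 16733816)) (l 16732568)) (c (c (b (l 16734936) (c (l 16735312) (l 16734960))) (b (l 16734184) (c (l 16734616) (l 16734264)))) (c (b (l 16733432) (l 16733744)) (b (l 16732680) (l 16733040))))) (b (c (c (l 16735112) (l 16734296)) (l 16733072)) (c (c (b (l 16735456) (c (l 16735872) (l 16735528))) (a (l 16734752) (l 16735032))) (c (b (l 16733976) (l 16734328)) (b (l 16733240) (l 16733640)))))) (a (b (c (c (l 16735592) (l 16734784)) (l 16733576)) (b (c (c (l 16735992) (l 16735264)) (l 16734176)) (c (c (c (l 16736448) (l 16736112)) (l 16735600)) (c (l 16734928) (l 16734256))))) (b (c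 (c (l 16736080) (l 16735288)) (l 16734096)) (b (c (c (l 16736536) (l 16735824)) (l 16734752)) (c (c (c (l 16737024) (l 16736696)) (l 16736200)) (c (l 16735536) (l 16734872)))))))), by decide +kernel⟩

def k23_pm_012 : ∃ t, chk3 f_pm_012 t 56 126 3 = true :=
  ⟨(c (a (b (c (l 16726144) (l 16722944)) (c (a (l 16725920) (l 16726200)) (a (l 16723136) (l 16723488)))) (b (c (l 16726144) (l 16723120)) (c (a (l 16726520) (l 16726896)) (a (l 16723888) (l 16724336))))) (a (a (b (l 16718328) (l 16724256)) (b (l 16718512) (l 16724720))) (b (a (l 16718736) (l 16719016)) (a (l 16725224) (l 16725128))))), by decide +kernel⟩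

def k24_pm_012 : ∃ t, chk3 f_pm_012 t 112 127 3 = true :=
  ⟨(c (b (c (a (b (l 16725688) (l 16725600)) (b (l 16726200) (l 16726264))) (a (b (l 16723256) (l 16723400)) (b (l 16723832) (l 16724120)))) (b (c (a (c (l 16726048) (l 16725064)) (c (l 16726848) (l 16725888))) (a (c (l 16724080) (l 16723096)) (c (l 16724936) (l 16723976)))) (c (a (c (a (l 14) (b (l 16726288) (c (l 14) (l 16726080)))) (a (b (l 16724936) (c (l 16725168) (l 16724744))) (a (l 16725976) (l 16725560)))) (b (c (a (l 16726744) (l 16727216)) (l 16726040)) (c (a (c (l 16726992) (l 16726584)) (c (l 16727496) (l 16727088))) (a (l 16725968) (l 16726488))))) (b (a (c (l 16724208) (l 16723312)) (c (l 16725168) (l 16724296))) (a (c (a (l 16724112) (l 16724624)) (a (l 16723264) (l 16723784))) (c (a (l 16725144) (l 16725672)) (a (l 16724320) (l 16724864)))))))) (b (c (a (l 16721024) (l 16721736)) (a (l 16718736) (l 16719504))) (b (c (a (c (l 16722112) (l 16721136)) (c (l 16723024) (l 16722072))) (a (l 16719656) (l 16720640)))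 (c (a (c (a (l 16722320) (l 16722832)) (a (l 16721440) (l 16721968))) (c (a (l 16723360) (l 16723904)) (a (l 16722512) (l 16723064)))) (b (a (l 16720160) (l 16721240)) (a (c (l 16720936) (l 16720096)) (c (l 16722072) (l 16721256)))))))), by decide +kernel⟩

def k25_pm_012 : ∃ t, chk3 f_pm_012 t 113 127 3 = true :=
  ⟨(b (c (c (a (b (l 16726752) (l 16726968)) (b (l 16727352) (l 16727720))) (a (b (l 16724448) (l 16724888)) (b (l 16725112) (l 16725696)))) (a (c (l 16722496) (l 16720328)) (c (l 16725912) (l 16721192)))) (c (b (c (a (c (l 16727696) (l 16726760)) (c (l 16728576) (l 16727672))) (a (c (l 16725832) (l 16724904)) (c (l 16726776) (l 16725872)))) (a (c (b (c (a (l 16727696) (l 16728184)) (l 16727024)) (c (a (l 16728472) (l 16728344)) (a (l 16727016) (l 16727560)))) (c (a (b (l 16725992) (l 16726216)) (l 16726640)) (a (l 16725280) (l 16725824)))) (c (b (a (l 16728272) (l 16728792)) (c (a (l 16728880) (l 16729432)) (a (l 16728112) (l 16728672)))) (c (a (l 16727184) (l 16727744)) (a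 (l 16726384) (l 16726952)))))) (b (c (a (l 16726136) (l 16724520)) (a (l 16721656) (l 16722728))) (a (a (c (c (l 16724448) (l 16723624)) (l 16722384)) (c (c (l 16725008) (l 16724192)) (l 16722968))) (a (c (c (l 16725584) (l 16724776)) (l 16723576)) (c (c (l 16726160) (l 16725376)) (l 16724184))))))), by decide +kernel⟩

def k26_pm_012 : ∃ t, chk3 f_pm_012 t 57 126 3 = true :=
  ⟨(c (a (b (c (l 16731576) (l 16723480)) (c (a (l 16727312) (l 16727776)) (a (l 16724824) (l 16725368)))) (b (a (l 16725552) (l 16725856)) (a (c (l 16728288) (l 16725952)) (c (l 16728848) (l 16726584))))) (a (b (a (l 16719344) (l 16719720)) (a (c (l 16722368) (l 16719928)) (c (l 16722976) (l 16720616)))) (a (b (l 16720144) (c (l 16723640) (l 16721344))) (b (l 16720616) (c (l 16724344) (l 16722128)))))), by decide +kernel⟩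

def k27_pm_012 : ∃ t, chk3 f_pm_012 t 114 127 3 = true :=
  ⟨(b (c (a (c (b (l 16727992) (l 16728512)) (b (l 16725824) (l 16726552))) (c (b (l 16728680) (l 16729344)) (b (l 16726576) (l 16727448)))) (a (c (l 16726760) (l 16722096)) (c (l 16727648) (l 16723048)))) (c (b (c (a (c (l 16729504) (l 16728632)) (c (l 16730480) (l 16729632))) (a (c (l 16727760) (l 16726880)) (c (l 16728784) (l 16727936)))) (a (c (c (b (l 16729912) (a (l 16729992) (l 16730568))) (a (l 16729088) (l 16729648))) (c (a (l 16728312) (l 16728888)) (a (l 16727536) (l 16728120)))) (c (c (b (l 16730992) (a (l 16731152) (l 16731744))) (a (l 16730224) (l 16730816))) (c (a (l 16729472) (l 16730072)) (a (l 16728728) (l 16729336)))))) (b (a (c (l 16725576) (l 16723832)) (c (l 16726672) (l 16724984))) (b (a (c (l 16728952) (l 16724744)) (c (l 16727528) (l 16725992))) (a (c (c (l 16727224) (l 16726480)) (c (l 16725736) (l 16724992))) (c (c (l 16728480) (l 16727760)) (c (l 16727040) (l 16726320)))))))), by decide +kernel⟩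

def k28_pm_012 : ∃ t, chk3 f_pm_012 t 115 127 3 = true :=
  ⟨(b (c (a (c (b (l 16729416) (l 16730224)) (b (l 16727376) (l 16728392))) (c (b (l 16730192) (l 16731152)) (b (l 16728224) (l 16729376)))) (a (c (l 16728584) (l 16724048)) (c (b (l 16726264) (l 16727608)) (l 16725088)))) (c (b (a (c (c (l 16731488) (l 16730672)) (c (l 16729848) (l 16729032))) (c (c (l 16732544) (l 16731752)) (c (l 16730960) (l 16730168)))) (a (c (c (a (l 16732136) (l 16732728)) (a (l 16731408) (l 16732016))) (c (a (l 16730680) (l 16731304)) (a (l 16729960) (l 16730592)))) (c (c (a (l 16733336) (l 16733952)) (a (l 16732632) (l 16733264))) (a (c (l 16731936) (l 16731232)) (c (l 16732576) (l 16731888)))))) (b (a (c (l 16727808) (l 16726184)) (c (l 16728992) (l 16727416))) (a (c (a (l 16728864) (l 16729520)) (a (l 16727416) (l 16728088))) (c (a (l 16730184) (l 16730848)) (a (l 16728776) (l 16729472))))))), by decide +kernel⟩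

def k29_pm_012 : ∃ t, chk3 f_pm_012 t 29 14 1 = true :=
  ⟨(b (c (a (b (l 16821432) (l 16741640)) (b (l 16725176) (c (l 16726568) (l 16709336)))) (a (b (l 16713384) (l 16705208)) (b (l 16692032) (l 16674280)))) (a (c (b (b (l 16736744) (c (l 16744160) (l 16725648))) (c (a (l 16744096) (l 16734392)) (a (l 16727328) (l 16718600)))) (b (b (l 16700264) (c (l 16707880) (l 16690864))) (a (l 16698184) (c (l 16703456) (l 16688960))))) (c (b (c (b (l 16721392) (l 16721128)) (b (l 16704272) (l 16704736))) (c (a (l 16725016) (l 16715880)) (a (l 16710200) (l 16702032)))) (b (a (b (l 16684944) (l 16685600)) (b (l 16675152) (l 16677008))) (a (c (l 16696000) (l 16682440)) (c (l 16688784) (l 16676144))))))), by decide +kernel⟩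

def k30_pm_012 : ∃ t, chk3 f_pm_012 t 58 30 1 = true :=
  ⟨(c (b (c (a (l 16738928) (b (l 16732184) (l 16731488))) (a (l 16725296) (b (l 16718624) (l 16719408)))) (a (c (b (l 16736496) (l 16735688)) (b (l 16725224) (l 16726008))) (c (b (l 16731368) (a (l 16733064) (l 16731096))) (b (l 16720792) (a (l 16723832) (l 16722192)))))) (c (b (a (l 16712192) (l 16706728)) (a (b (l 16714392) (l 16716688)) (b (l 16710640) (l 16719304)))) (b (a (l 16699624) (l 16694944)) (a (b (l 16703976) (l 16707720)) (b (l 16700896) (l 16705680)))))), by decide +kernel⟩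

def k31_pm_012 : ∃ t, chk3 f_pm_012 t 58 62 1 = true :=
  ⟨(c (a (b (c (a (l 16736160) (l 16735128)) (a (l 16727960) (l 16727168))) (c (a (c (l 16737960) (l 16734616)) (c (l 16737544) (l 16734304))) (a (b (l 16729184) (l 16730216)) (b (l 16728864) (l 16730216))))) (b (c (a (l 16733872) (l 16732520)) (a (l 16726176) (l 16725112))) (c (a (c (l 16736856) (l 16733736)) (b (l 16733960) (l 16735128))) (a (b (l 16728312) (l 16729960)) (b (l 16727680) (l 16729608)))))) (a (b (c (a (l 16720040) (l 16719488)) (a (l 16712392) (l 16712072))) (c (a (b (l 16722424) (l 16724232)) (b (l 16722312) (l 16724416))) (a (l 16727640) (l 16727872)))) (b (c (a (l 16718752) (l 16717960)) (a (l 16711600) (l 16711080))) (c (a (b (l 16721992) (l 16724368)) (b (l 16721608) (l 16724248))) (a (l 16727912) (l 16717408)))))), by decide +kernel⟩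

def k32_pm_012 : ∃ t, chk3 f_pm_012 t 116 126 2 = true :=
  ⟨(c (b (c (a (l 16738120) (l 16738216)) (a (l 16735416) (l 16735592))) (c (a (b (l 16738344) (l 16738552)) (b (l 16738696) (l 16739064))) (a (l 16736168) (b (l 16736376) (l 16736952))))) (a (b (c (l 16732744) (l 16730104)) (c (l 16733904) (l 16731664))) (b (c (l 16733000) (l 16730448)) (c (l 16737096) (l 16732312))))), by decide +kernel⟩

def k33_pm_012 : ∃ t, chk3 f_pm_012 t 116 254 2 = true :=
  ⟨(c (c (a (b (l 16738800) (c (l 16739528) (l 16738648))) (b (c (l 16739960) (l 16739000)) (c (l 16741672) (l 16742128)))) (a (b (l 16736832) (c (l 16737768) (l 16736888))) (b (l 16737576) (c (l 16738656) (l 16737808))))) (a (c (b (l 16734872) (c (l 16736016) (l 16735144))) (a (l 16733280) (l 16733712))) (c (b (l 16735680) (a (l 16736360) (l 16736840))) (a (l 16734152) (l 16737248))))), by decide +kernel⟩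

def k34_pm_012 : ∃ t, chk3 f_pm_012 t 116 255 4 = true :=
  ⟨(a (b (c (c (a (l 14) (l 16740152)) (a (l 16738912) (l 16739384))) (c (a (l 16738136) (l 16738616)) (a (l 16737352) (l 16737848)))) (a (c (c (l 14) (b (l 16739200) (b (l 16739352) (a (l 16739344) (l 16739624))))) (c (b (l 16738496) (a (l 16738640) (l 16738928))) (b (l 16737792) (c (l 16738264) (l 16737944))))) (c (c (b (l 16740416) (c (l 14) (a (l 14) (l 16740616)))) (b (l 16739728) (b (l 16739904) (a (l 16739920) (l 16740208))))) (c (b (l 16739040) (a (l 16739216) (l 16739512))) (b (l 16738344) (c (l 16738856) (l 16738536))))))) (b (c (c (a (l 16740616) (l 16741104)) (a (l 16739856) (l 16740368))) (c (a (l 16739104) (l 16739624)) (a (l 16738352) (l 16738888)))) (c (b (c (a (l 16740936) (l 16741496)) (a (l 16740264) (l 16740832))) (c (a (c (a (l 14) (l 16741504)) (a (l 16740904) (l 16741192))) (c (a (l 16741792) (l 16742080)) (a (l 16741480) (l 16741776)))) (b (a (l 16740472) (l 16741072)) (a (c (l 16740768) (l 16740464))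 (c (l 16741392) (l 16741088)))))) (a (c (b (l 16739584) (c (l 16740080) (l 16739768))) (b (l 16738912) (c (l 16739456) (l 16739144)))) (c (b (l 16740168) (a (l 16740400) (l 16740712))) (b (l 16739504) (c (l 16740080) (l 16739776)))))))), by decide +kernel⟩

def k35_pm_012 : ∃ t, chk3 f_pm_012 t 116 255 5 = true :=
  ⟨(a (a (b (c (c (l 16736576) (l 16735792)) (l 16734632)) (c (a (c (l 16737816) (l 16736480)) (c (l 16737448) (l 16736776))) (c (b (l 16735688) (l 16736152)) (l 16736560)))) (c (b (c (l 16737080) (l 16736320)) (c (b (l 16737656) (l 16738712)) (b (l 16736968) (l 16737424)))) (b (l 16735176) (c (b (l 16736280) (l 16736784)) (l 16735872))))) (b (c (c (a (l 16737600) (l 16738144)) (a (l 16736848) (l 16737408))) (a (l 16735728) (l 16736304))) (c (a (c (b (l 16738232) (l 16738672)) (b (l 16737560) (l 16738048))) (c (b (l 16738840) (l 16739320)) (b (l 16738176) (l 16738704)))) (a (c (b (l 16736880) (l 16737424)) (l 16736504)) (c (b (l 16737512) (l 16738088)) (l 16737168)))))), by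 decide +kernel⟩

def k36_pm_012 : ∃ t, chk3 f_pm_012 t 116 63 3 = true :=
  ⟨(b (c (a (b (l 16726208) (c (l 16729448) (l 16727256))) (b (l 16731920) (c (l 16730168) (l 16728048)))) (a (b (l 16721136) (c (l 16725088) (l 16722944))) (b (l 16721768) (c (l 16725960) (l 16723888))))) (b (c (a (c (b (l 16731016) (l 16732112)) (b (l 16729104) (l 16730400))) (c (a (l 16732376) (l 16732880)) (a (l 16730608) (l 16731144)))) (a (c (b (l 16727216) (l 16728688)) (l 16726176)) (c (a (l 16728856) (l 16729424)) (l 16732616)))) (c (a (c (b (a (l 16733080) (l 16733656)) (a (c (l 16734576) (l 16733896)) (c (l 16735208) (l 16734544)))) (b (a (l 16731544) (l 16732136)) (a (c (l 16733224) (l 16732544)) (c (l 16733880) (l 16733224))))) (c (b (a (l 16734232) (l 16734840)) (a (c (l 16735856) (l 16735200)) (c (l 16736528) (l 16735888)))) (b (a (l 16732744) (l 16733384)) (a (l 16735864) (c (l 16735256) (l 16734616)))))) (a (c (b (l 16730208) (a (l 16731536) (l 16732224))) (b (l 16728696) (a (l 16730184) (l 16730904))))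 (c (b (a (l 16731264) (l 16731928)) (a (l 16732928) (l 16733664))) (b (l 16730088) (a (l 16731632) (l 16732384)))))))), by decide +kernel⟩

def k37_pm_012 : ∃ t, chk3 f_pm_012 t 117 126 2 = true :=
  ⟨(c (a (b (c (l 16738008) (l 16735480)) (c (b (l 16738720) (l 16739256)) (a (l 16736944) (l 16736936)))) (b (c (l 16737672) (l 16735248)) (c (l 16738976) (l 16736952)))) (a (b (c (l 16732992) (l 16730536)) (c (l 16737384) (l 16732680))) (b (l 16736928) (c (l 16734944) (l 16732960))))), by decide +kernel⟩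

def k38_pm_012 : ∃ t, chk3 f_pm_012 t 117 127 2 = true :=
  ⟨(b (c (b (a (c (a (l 16739880) (l 16739936)) (l 16740616)) (c (l 16740104) (l 16738360))) (a (a (c (l 16740448) (l 16738800)) (c (l 16740584) (l 16738984))) (c (c (l 16741344) (l 16740568)) (l 16739408)))) (a (c (a (b (l 16736192) (l 16737168)) (l 16736872)) (a (l 16737576) (l 16735192))) (c (b (l 16736640) (l 16737872)) (b (l 16734936) (l 16736344))))) (c (a (c (b (a (c (l 16741432) (l 16740704)) (c (l 16741672) (l 16740968))) (b (c (a (l 16741880) (l 16742240)) (a (l 16741232) (l 16741608))) (a (a (c (c (l 16742288) (l 16741992)) (l 16741536)) (c (l 16742312) (l 16741720))) (c (c (l 16742800) (l 16742512)) (l 16742072))))) (b (a (c (l 16739984) (l 16739256)) (c (l 16740264) (l 16739560))) (a (c (b (l 16740584) (a (l 16740936) (l 16741128))) (b (l 16739936) (c (l 16740568) (l 16740272)))) (c (b (l 16740976) (l 16741488)) (b (l 16740344) (l 16740904)))))) (c (b (c (l 16742216) (l 16741536)) (c (b (l 16742904) (b (l 16743256)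 (a (l 16743248) (l 16743728)))) (b (l 16742296) (a (l 16742560) (l 16743056))))) (b (c (l 16740856) (l 16740176)) (c (b (l 16741680) (a (l 16741992) (l 16742496))) (b (l 16741072) (a (l 16741424) (l 16741944))))))) (a (b (c (a (c (l 16738536) (l 16737816)) (l 16738512)) (a (l 16736744) (l 16737112))) (c (a (c (b (l 16739288) (l 16739816)) (b (l 16738648) (l 16739224))) (c (b (l 16739720) (l 16740328)) (l 16739416))) (a (c (b (l 16738000) (l 16738624)) (l 16739008)) (c (l 16738808) (l 16738200))))) (c (b (c (l 16739504) (l 16738824)) (c (b (l 16740464) (l 16741120)) (b (l 16739856) (l 16740560)))) (b (l 16737816) (b (l 16738952) (a (l 16739432) (l 16740000)))))))), by decide +kernel⟩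

def k39_pm_012 : ∃ t, chk3 f_pm_012 t 117 63 3 = true :=
  ⟨(b (c (a (b (l 16732152) (c (l 16730624) (l 16728592))) (b (l 16727056) (c (l 16731008) (l 16729072)))) (a (b (l 16722192) (c (l 16726584) (l 16724600))) (b (l 16722552) (l 16726208)))) (b (c (a (c (a (l 16733248) (l 16733528)) (a (l 16731552) (l 16731872))) (c (b (l 16733240) (l 16734824)) (l 16732456))) (a (c (a (l 16729872) (l 16730240)) (l 16733576)) (c (l 16730872) (l 16729304)))) (c (a (c (b (a (l 16735312) (l 16735728)) (a (c (l 16737072) (l 16736448)) (l 16737296))) (b (a (l 16733888) (l 16734336)) (a (c (l 16735832) (l 16735208)) (l 16736088)))) (c (b (l 16736472) (a (l 16737872) (l 16738456))) (b (l 16735136) (c (l 16737288) (l 16736704))))) (a (c (b (a (l 16732472) (l 16732960)) (a (l 16734272) (l 16734872))) (b (l 16731248) (a (l 16733032) (l 16733664)))) (c (b (l 16733800) (l 16735832)) (b (l 16732480) (l 16734664))))))), by decide +kernel⟩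

def k40_pm_012 : ∃ t, chk3 f_pm_012 t 59 30 1 = true :=
  ⟨(b (c (c (b (l 16721112) (a (l 16725320) (l 16719248))) (b (l 16708832) (a (l 16714032) (l 16708744)))) (b (c (l 16697080) (l 16685848)) (a (l 16703208) (c (l 16698688) (l 16689088))))) (c (c (b (a (l 16726472) (l 16721608)) (a (l 16728200) (b (l 16723728) (l 16725360)))) (b (a (l 16716608) (l 16712456)) (a (l 16719768) (l 16716768)))) (b (a (c (l 16707136) (l 16698072)) (c (l 16703688) (l 16695304))) (a (c (l 16711672) (l 16703904)) (c (l 16709296) (l 16702136)))))), by decide +kernel⟩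

def k41_pm_012 : ∃ t, chk3 f_pm_012 t 59 62 1 = true :=
  ⟨(c (b (c (a (b (l 16729856) (l 16731168)) (b (l 16727200) (l 16729240))) (a (b (l 16722512) (l 16724544)) (b (l 16720424) (l 16723128)))) (c (a (b (c (l 16734160) (l 16731160)) (c (l 16735656) (l 16733024))) (b (c (l 16732864) (l 16730088)) (c (l 16735112) (l 16732680)))) (a (b (l 16726752) (c (l 16730440) (l 16727888))) (b (l 16731272) (c (l 16730296) (l 16727944)))))) (b (a (c (b (l 16715440) (l 16718160)) (l 16710336)) (c (b (l 16713912) (l 16717256)) (l 16720144))) (a (c (b (l 16721056) (l 16724144)) (b (l 16715560) (l 16719288))) (c (b (l 16720784) (l 16729736)) (b (l 16715736) (l 16720040)))))), by decide +kernel⟩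

def k42_pm_012 : ∃ t, chk3 f_pm_012 t 59 126 1 = true :=
  ⟨(c (c (a (b (c (a (l 16737368) (l 16737344)) (a (l 16735056) (l 16735128))) (c (a (l 16739120) (l 16742080)) (a (l 16737176) (l 16737600)))) (b (c (a (l 16737432) (l 16737536)) (a (l 16735304) (l 16735496))) (c (a (l 16742440) (b (l 16739504) (l 16740864))) (a (l 16738032) (l 16738488))))) (a (b (c (l 16738120) (l 16730672)) (c (a (l 16735264) (l 16735760)) (a (l 16733368) (l 16733944)))) (b (c (a (l 16733200) (l 16733488)) (l 16731328)) (c (a (l 16736272) (l 16736816)) (a (l 16734536) (l 16735160)))))) (a (c (b (c (l 16728504) (l 16726368)) (b (l 16735256) (a (l 16731432) (l 16732184)))) (b (l 16728464) (c (l 16728224) (l 16726456)))) (c (b (c (l 16729336) (l 16727376)) (b (l 16736576) (a (l 16732968) (l 16733768)))) (b (l 16729736) (c (l 16729904) (l 16728296)))))), by decide +kernel⟩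

def k43_pm_012 : ∃ t, chk3 f_pm_012 t 59 254 2 = true :=
  ⟨(c (a (c (a (b (l 16740584) (c (l 16741984) (l 16741248))) (b (l 16741128) (c (l 16742648) (l 16741944)))) (a (b (l 16738920) (l 16740136)) (b (l 16739536) (l 16740880)))) (c (a (b (l 16741688) (c (l 16743320) (l 16742648))) (b (l 16742256) (c (l 16744000) (l 16743368)))) (a (b (l 16740168) (l 16741640)) (b (l 16740816) (l 16742416))))) (b (a (c (a (l 16737272) (l 16737960)) (l 16736024)) (c (a (l 16738672) (l 16739392)) (l 16737592))) (a (c (a (l 16738664) (l 16739480)) (a (l 16737200) (l 16738088))) (c (a (l 16740312) (l 16741160)) (a (l 16738992) (l 16739920)))))), by decide +kernel⟩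

def k44_pm_012 : ∃ t, chk3 f_pm_012 t 59 255 2 = true :=
  ⟨(c (b (a (c (a (c (l 16743008) (l 16742360)) (c (l 16743800) (l 16743184))) (a (c (l 16741704) (l 16741064)) (c (l 16742568) (l 16741952)))) (c (a (c (l 16744608) (l 16744024)) (c (l 16745416) (l 16744872))) (a (c (l 16743440) (l 16742864)) (c (l 16744328) (l 16743784))))) (a (c (b (a (c (l 16743792) (l 16743216)) (c (l 16744688) (l 16744144))) (a (c (a (l 16744088) (l 16744568)) (a (l 16743544) (l 16744040))) (c (a (l 16745048) (l 16745528)) (a (l 16744536) (l 16745040))))) (a (c (b (l 16742632) (a (l 16743008) (l 16743520))) (b (l 16742056) (a (l 16742464) (l 16742992)))) (c (b (l 16743592) (a (l 16744032) (l 16744544))) (b (l 16743048) (l 16743784))))) (b (c (a (c (l 16745592) (l 16745080)) (c (l 16746504) (l 16746016))) (a (c (l 16744560) (l 16744048)) (l 16745296))) (c (a (c (a (l 16746016) (l 16746504)) (a (l 16745536) (l 16746040))) (c (a (l 16746992) (l 16747480)) (a (l 16746544) (l 16747048)))) (a (c (a (l 16745056)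 (l 16745576)) (l 16744848)) (c (l 16746360) (l 16745928))))))) (b (a (c (a (c (l 16740416) (l 16739768)) (c (l 16741344) (l 16740728))) (a (l 16738808) (l 16739816))) (c (a (c (l 16742280) (l 16741704)) (l 16742968)) (a (l 16740840) (l 16741888)))) (b (a (c (a (l 16741184) (l 16742224)) (a (l 16740032) (l 16741136))) (c (a (l 16743280) (l 16744344)) (a (l 16742248) (l 16743384)))) (a (c (a (c (l 16742200) (l 16741664)) (c (l 16743280) (l 16742776))) (a (c (l 16741128) (l 16740600)) (c (l 16742280) (l 16741776)))) (c (a (c (l 16744376) (l 16743912)) (c (l 16745488) (l 16745048))) (a (l 16743200) (l 16744392))))))), by decide +kernel⟩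

def k45_pm_012 : ∃ t, chk3 f_pm_012 t 59 127 3 = true :=
  ⟨(b (c (a (c (a (l 16737512) (l 16738400)) (a (l 16733368) (l 16734328))) (c (a (l 16739320) (l 16740264)) (a (l 16735320) (l 16736336)))) (b (a (l 16733168) (l 16735264)) (a (c (l 16733432) (l 16732048)) (c (l 16735680) (l 16734432))))) (c (a (b (c (a (l 16737528) (l 16738600)) (a (l 16736256) (l 16737392))) (b (c (a (l 16738880) (l 16740040)) (l 16738344)) (c (a (l 16739792) (l 16741016)) (a (l 16738728) (l 16740016))))) (b (c (a (l 16739696) (l 16740808)) (a (l 16738560) (l 16739744))) (b (c (a (l 16741224) (l 16742432)) (l 16740848)) (c (a (l 16742264) (l 16743520)) (a (l 16741320) (l 16742648)))))) (a (b (c (l 16735592) (l 16734360)) (c (a (l 16737120) (l 16738440)) (a (l 16736016) (l 16737392)))) (b (c (l 16739368) (l 16736960)) (c (a (l 16739784) (l 16741152)) (a (l 16738800) (l 16740240))))))), by decide +kernel⟩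

def k46_pm_012 : ∃ t, chk3 f_pm_012 t 30 14 1 = true :=
  ⟨(b (a (c (b (c (l 16708488) (l 16692944)) (c (l 16701944) (l 16686488))) (b (a (l 16675992) (l 16665392)) (a (l 16669496) (l 16659440)))) (c (b (a (l 16682104) (l 16659288)) (a (l 16668416) (c (l 16671080) (l 16657976)))) (b (a (l 16654800) (l 16644264)) (a (l 16649416) (l 16639488))))) (c (a (b (c (a (l 16705536) (l 16715776)) (a (l 16690240) (l 16701496))) (c (a (l 16707080) (b (l 16697064) (l 16700216))) (a (l 16694200) (l 16686736)))) (b (a (c (l 16705184) (l 16691952)) (c (b (l 16671120) (l 16675456)) (l 16682752))) (a (c (b (l 16688672) (l 16693352)) (b (l 16677104) (l 16682856))) (c (b (l 16681136) (l 16687360)) (b (l 16670456) (l 16677632)))))) (a (b (a (b (l 16665968) (l 16669000)) (c (l 16687880) (l 16674920))) (a (c (l 16681896) (l 16670168)) (c (l 16675360) (l 16664544)))) (b (a (c (l 16679360) (l 16667408)) (c (l 16671184) (l 16660232))) (a (c (l 16690496) (l 16680536)) (b (l 16676424) (l 16684944))))))), by decide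 +kernel⟩

def k47_pm_012 : ∃ t, chk3 f_pm_012 t 31 14 1 = true :=
  ⟨(b (a (c (b (a (c (l 16663768) (l 16651376)) (c (l 16651208) (l 16639752))) (a (c (l 16658520) (l 16646424)) (c (b (l 16647928) (l 16646328)) (l 16656416)))) (b (a (l 16633824) (c (l 16628840) (l 16618464))) (a (c (l 16634920) (l 16624024)) (c (l 16645888) (l 16635944))))) (c (c (a (b (l 16639056) (b (l 16636376) (l 16656792))) (b (a (l 16630112) (l 16624144)) (a (l 16648160) (l 16645488)))) (a (b (l 16628520) (a (l 16648688) (l 16643664))) (b (a (l 16620264) (l 16614776)) (a (l 16638752) (l 16633968))))) (a (b (c (l 16618512) (l 16609024)) (b (l 16632616) (l 16637928))) (b (a (l 16627432) (l 16622640)) (a (l 16636176) (l 16632128)))))) (a (c (b (a (c (b (l 16660880) (l 16667192)) (b (l 16649312) (l 16656504))) (c (b (l 16651456) (l 16659384)) (b (l 16640920) (l 16649624)))) (a (c (b (l 16674264) (l 16681736)) (b (l 16664432) (l 16672784))) (c (a (l 16694480) (l 16686336)) (a (l 16685704) (l 16683216))))) (b (a (c (l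 16663528) (l 16653560)) (b (l 16647176) (l 16656976))) (b (a (l 16671640) (l 16667176)) (a (c (l 16664312) (l 16656312)) (a (l 16678616) (l 16676976)))))) (b (c (a (c (a (l 16670312) (l 16666360)) (a (l 16660896) (l 16657440))) (b (a (l 16653000) (l 16649192)) (a (l 16663392) (c (l 16664040) (l 16656408))))) (a (a (l 16647800) (l 16650296)) (a (l 16647648) (l 16648024)))) (c (a (a (c (b (l 16662968) (l 16672552)) (l 16680800)) (c (a (l 16686672) (l 16685320)) (l 16678464))) (a (b (c (l 16656944) (l 16649496)) (c (l 16667704) (l 16681896))) (b (c (l 16675024) (l 16668016)) (l 6)))) (a (a (b (l 16664040) (l 16675416)) (b (l 16662064) (l 16673936))) (b (l 16658600) (a (l 16672528) (l 6)))))))), by decide +kernel⟩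

def k48_pm_012 : ∃ t, chk3 f_pm_012 t 30 30 1 = true :=
  ⟨(a (b (c (a (c (b (l 16710480) (l 16713488)) (b (l 16699488) (l 16703768))) (c (b (l 16703960) (l 16708376)) (b (l 16693800) (l 16699392)))) (a (b (l 16683920) (c (l 16694472) (l 16685608))) (b (c (l 16684112) (l 16674896)) (c (l 16690808) (l 16682648))))) (c (a (c (b (l 16717152) (b (l 16720328) (l 16722720))) (b (l 16708696) (b (l 16712816) (l 16715824)))) (c (b (a (l 16714264) (l 16712688)) (b (l 16717656) (l 16720616))) (b (l 16705656) (b (l 16710704) (l 16714248))))) (a (b (c (l 16700600) (l 16692880)) (c (l 16707432) (l 16700840))) (b (c (l 16698176) (l 16691056)) (c (l 16713984) (l 16700048)))))) (b (c (a (c (b (l 16698656) (l 16704560)) (b (l 16689224) (l 16696184))) (c (b (l 16694024) (a (l 16701976) (l 16700328))) (b (l 16685272) (l 16693384)))) (a (b (c (l 16680240) (l 16671728)) (c (l 16688208) (l 16680648))) (b (c (l 16676960) (l 16669096)) (a (l 16703888) (l 16702992))))) (c (a (b (c (a (l 16711496) (l 16710352))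 (l 16714120)) (c (b (l 16716008) (l 16719552)) (b (l 16709528) (l 16713632)))) (b (c (a (l 16709264) (l 16708216)) (a (l 16702368) (l 16701592))) (c (a (l 16722264) (b (l 16714416) (l 16718704))) (a (l 16711168) (l 16710944))))) (b (a (c (l 16696688) (l 16690088)) (c (l 16706040) (l 16689472))) (a (c (b (l 16703360) (l 16707992)) (l 16710552)) (c (a (l 16705592) (l 16705600)) (a (l 16700312) (l 16700544)))))))), by decide +kernel⟩

def k49_pm_012 : ∃ t, chk3 f_pm_012 t 30 62 1 = true :=
  ⟨(a (c (b (a (c (b (l 16725264) (c (l 16729392) (l 16726512))) (b (l 16719000) (l 16722304))) (c (b (a (l 16724000) (l 16723400)) (a (l 16727072) (l 16726752))) (b (l 16717928) (l 16726984)))) (a (c (b (c (l 16732040) (l 16729488)) (c (l 16738096) (l 16732592))) (b (l 16730992) (c (l 16730408) (l 16728256)))) (c (b (a (l 16730272) (l 16730224)) (a (c (l 16734648) (l 16732576)) (c (l 16734816) (l 16732840)))) (b (a (l 16725600) (l 16725752)) (a (l 16729552) (l 16729960)))))) (b (a (c (b (l 16712984)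 (l 16716888)) (l 16719952)) (c (b (l 16712408) (l 16716784)) (b (l 16707136) (l 16712048)))) (a (c (b (l 16720928) (l 16730352)) (b (l 16716296) (l 16721048))) (c (b (l 16726544) (a (l 16725648) (l 16726240))) (b (l 16717096) (l 16727528)))))) (c (b (a (c (b (a (l 16723264) (l 16723176)) (a (l 16726912) (l 16727120))) (b (l 16717864) (a (l 16722024) (l 16722408)))) (c (b (a (l 16723128) (l 16723104)) (a (l 16727352) (l 16727624))) (b (l 16723400) (a (l 16722824) (l 16723280))))) (a (c (b (a (l 16730680) (l 16731176)) (a (c (l 16735528) (l 16733624)) (c (l 16736272) (l 16734440)))) (b (a (l 16726368) (l 16727024)) (a (l 16730840) (l 16731768)))) (c (b (a (l 16736944) (l 16737488)) (a (c (l 16737048) (l 16735288)) (l 6))) (b (a (l 16727712) (l 16728432)) (a (l 16732720) (l 6)))))) (b (a (c (a (l 16725464) (l 16725896)) (b (l 16707872) (l 16713264))) (b (c (l 16713440) (l 16708960)) (c (l 16724072) (l 16714816)))) (a (c (b (a (l 16722240) (l 16723056)) (a (l 16727264) (l 16728328))) (b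 (l 16718784) (l 16729680))) (b (c (a (l 16723904) (l 16724792)) (l 16726048)) (a (c (l 16729432) (l 16726288)) (l 6))))))), by decide +kernel⟩

def k50_pm_012 : ∃ t, chk3 f_pm_012 t 30 126 1 = true :=
  ⟨(a (c (a (c (b (c (a (l 16737656) (l 16737792)) (a (l 16735712) (l 16735944))) (c (b (l 16742616) (a (l 16741312) (l 16741768))) (a (l 16744200) (l 16742064)))) (b (b (l 16736032) (a (l 16733768) (l 16734208))) (c (a (l 16737368) (l 16737944)) (a (l 16735808) (l 16736472))))) (c (b (a (c (l 16737944) (l 16736200)) (c (l 16738384) (l 16736720))) (a (c (b (l 16740496) (l 16742248)) (l 16742568)) (c (b (l 16741136) (l 16743016)) (b (l 16739712) (l 16741744))))) (b (a (c (l 16734480) (l 16732792)) (c (l 16735096) (l 16733488))) (a (c (l 16738544) (l 16737160)) (c (l 16742024) (l 16738104)))))) (a (c (b (a (l 16729144) (l 16729712)) (b (l 16735384) (a (l 16734600) (l 16735456)))) (b (l 16731184) (a (l 16730488) (l 16731464)))) (c (b (a (l 16730312) (l 16731144)) (a (c (l 16735792) (l 16734448))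 (c (l 16736816) (l 16735552)))) (b (a (l 16727112) (l 16728112)) (a (l 16732472) (l 16733688)))))) (c (a (c (b (a (c (l 16739384) (l 16737784)) (c (l 16745664) (l 16738888))) (a (c (b (l 16742360) (l 16744376)) (b (l 16740984) (l 16743160))) (a (b (l 16742624) (l 6)) (l 6)))) (b (a (c (l 16736216) (l 16734672)) (c (l 16737376) (l 16735896))) (a (c (l 16743424) (l 16739544)) (b (l 16740360) (l 6))))) (l 6)) (a (b (c (a (l 16732416) (l 16733736)) (a (l 16729504) (l 16730944))) (c (a (c (l 16738312) (l 16737096)) (c (l 16739848) (l 16738688))) (a (l 16735320) (l 16736984)))) (l 6)))), by decide +kernel⟩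

def k51_pm_012 : ∃ t, chk3 f_pm_012 t 60 254 2 = true :=
  ⟨(c (a (c (a (b (l 16742832) (l 16745704)) (b (l 16743424) (l 16747728))) (a (b (l 16741480) (l 16743200)) (b (l 16742152) (l 16744000)))) (a (c (b (l 16744024) (l 16745832)) (b (l 16742840) (l 16744816))) (c (b (l 16744920) (c (l 16747104) (l 16746624))) (b (l 16743816) (l 16745912))))) (b (a (c (a (l 16740136) (l 16740896)) (l 16741200)) (c (a (l 16741672) (l 16742720)) (a (l 16740512) (l 16741640)))) (a (c (a (l 16742024) (l 16742904)) (a (l 16740864) (l 16741824))) (c (a (l 16743800) (l 16744976)) (a (l 16742800) (l 16744040)))))), by decide +kernel⟩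

def k52_pm_012 : ∃ t, chk3 f_pm_012 t 60 255 2 = true :=
  ⟨(a (c (b (c (a (c (l 16746232) (l 16745728)) (c (l 16747056) (l 16746592))) (a (c (l 16745216) (l 16744712)) (c (l 16746120) (l 16745656)))) (b (c (a (c (l 16747416) (l 16746968)) (c (l 16748336) (l 16747928))) (a (l 16746304) (l 16747320))) (c (a (c (a (l 16747968) (l 16748456)) (l 16747808)) (c (l 16749192) (l 16748832))) (a (c (l 16747408) (l 16747008)) (c (l 16748464) (l 16748104)))))) (b (c (a (l 16743952) (l 16744952)) (a (l 16742944) (l 16744024))) (b (c (a (l 16745416) (l 16746504)) (a (l 16744536) (l 16745696))) (c (a (c (l 16746608) (l 16746208)) (l 16747560)) (a (l 16745600) (l 16746824)))))) (c (b (b (c (a (l 16747208) (l 16748336)) (a (l 16746312) (l 16747512))) (c (a (l 16748136) (l 16749328)) (a (l 16747320) (l 16748584)))) (b (c (a (l 16749072) (c (l 16750504) (l 16750168))) (a (l 16748344) (l 16749664))) (c (a (c (l 16750184) (l 16749856)) (a (l 16750864) (l 6))) (a (c (l 16749536) (l 16749208)) (c (l 16750904)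 (l 16750608)))))) (b (c (a (l 16745968) (l 16749880)) (a (l 16745120) (l 16746480))) (b (c (a (l 16747608) (l 16749000)) (a (l 16746880) (l 16748328))) (c (a (l 16748720) (l 16750168)) (a (l 16748064) (l 16749576))))))), by decide +kernel⟩

def k53_pm_012 : ∃ t, chk3 f_pm_012 t 60 127 3 = true :=
  ⟨(b (b (a (c (c (l 16737968) (l 16736712)) (l 16737472)) (c (a (l 16738808) (l 16740040)) (a (l 16736576) (l 16737960)))) (c (a (a (l 16741752) (l 16740208)) (a (l 16741312) (l 16745288))) (a (c (l 16738024) (l 16736936)) (a (l 16739368) (l 16740856))))) (b (a (a (c (c (l 16741944) (l 16740952)) (l 16739472)) (c (c (l 16743104) (l 16742184)) (l 16740816))) (c (a (c (l 16744272) (l 16743440)) (c (l 16745704) (l 16744936))) (a (l 16742184) (l 16743784)))) (a (c (b (c (l 16744272) (l 16743432)) (c (a (l 16744800) (l 16746096)) (a (l 16743992) (l 16745360)))) (c (a (l 16742544) (l 16743952)) (a (l 16741696) (l 16743184)))) (c (a (b (l 16745784) (a (l 16746736) (l 16747416))) (b (l 16747328) (a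 (l 16748168) (l 6)))) (a (c (l 16745392) (l 16744696)) (a (l 16746224) (l 16747272))))))), by decide +kernel⟩

def k54_pm_012 : ∃ t, chk3 f_pm_012 t 61 127 1 = true :=
  ⟨(b (a (a (b (c (c (c (l 16746432) (l 16745368)) (c (l 16744312) (l 16743280))) (c (l 16741752) (l 16739760))) (c (c (c (l 16749824) (l 16747600)) (c (l 16746704) (l 16745816))) (c (l 16744496) (l 16742768)))) (l 6)) (l 6)) (l 6)), by decide +kernel⟩

def k55_pm_012 : ∃ t, chk3 f_pm_012 t 31 15 1 = true :=
  ⟨(b (a (b (c (a (b (c (a (l 16690696) (l 16688560)) (l 16681576)) (c (a (l 16698736) (l 16697200)) (a (l 16691432) (l 16690208)))) (b (c (a (l 16686488) (l 16684480)) (a (l 16678960) (l 16677304))) (c (a (l 16695720) (l 16694288)) (a (l 16689040) (l 16687936))))) (b (a (a (l 16691896) (l 16690624)) (a (l 16689424) (l 16688288))) (a (a (l 16702168) (l 16701400)) (a (l 16700696) (l 16694816))))) (c (b (a (c (a (l 16707224) (l 16706272)) (a (l 16700864) (l 16700192))) (a (c (l 16715856) (l 16699568)) (l 6))) (a (c (a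 (b (l 16713856) (l 16718432)) (b (l 16713336) (l 6))) (a (l 16721248) (l 16721112))) (l 6))) (b (a (c (a (l 16694840) (l 16694440)) (l 16699576)) (a (c (l 16694088) (l 16688936)) (l 6))) (a (a (c (l 16705656) (l 16700824)) (c (l 16716240) (l 16701152))) (l 6))))) (b (b (a (c (a (c (l 16682536) (l 16675720)) (c (l 16680648) (l 16674200))) (a (l 16687224) (l 16686224))) (l 6)) (l 6)) (l 6))) (b (a (a (a (b (b (c (c (l 16723120) (l 16718472)) (l 16722424)) (l 6)) (l 6)) (l 6)) (l 6)) (l 6)) (l 6))), by decide +kernel⟩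

theorem s56_pm_012 : ∃ t, chk3 f_pm_012 t 60 127 2 = true := ex3_b k51_pm_012 k52_pm_012

theorem s57_pm_012 : ∃ t, chk3 f_pm_012 t 60 127 1 = true := ex3_c s56_pm_012 k53_pm_012

theorem s58_pm_012 : ∃ t, chk3 f_pm_012 t 30 127 1 = true := ex3_a s57_pm_012 k54_pm_012

theorem s59_pm_012 : ∃ t, chk3 f_pm_012 t 30 63 1 = true := ex3_b k50_pm_012 s58_pm_012

theorem s60_pm_012 : ∃ t, chk3 f_pm_012 t 30 31 1 = true := ex3_b k49_pm_012 s59_pm_012

theorem s61_pm_012 : ∃ t, chk3 f_pm_012 t 30 15 1 = true := ex3_b k48_pm_012 s60_pm_012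

theorem s62_pm_012 : ∃ t, chk3 f_pm_012 t 15 15 1 = true := ex3_a s61_pm_012 k55_pm_012

theorem s63_pm_012 : ∃ t, chk3 f_pm_012 t 15 14 1 = true := ex3_a k46_pm_012 k47_pm_012

theorem s64_pm_012 : ∃ t, chk3 f_pm_012 t 15 7 1 = true := ex3_b s63_pm_012 s62_pm_012

theorem s65_pm_012 : ∃ t, chk3 f_pm_012 t 59 127 2 = true := ex3_b k43_pm_012 k44_pm_012

theorem s66_pm_012 : ∃ t, chk3 f_pm_012 t 59 127 1 = true := ex3_c s65_pm_012 k45_pm_012

theorem s67_pm_012 : ∃ t, chk3 f_pm_012 t 59 63 1 = true := ex3_b k42_pm_012 s66_pm_012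

theorem s68_pm_012 : ∃ t, chk3 f_pm_012 t 59 31 1 = true := ex3_b k41_pm_012 s67_pm_012

theorem s69_pm_012 : ∃ t, chk3 f_pm_012 t 59 15 1 = true := ex3_b k40_pm_012 s68_pm_012

theorem s70_pm_012 : ∃ t, chk3 f_pm_012 t 117 63 2 = true := ex3_b k37_pm_012 k38_pm_012

theorem s71_pm_012 : ∃ t, chk3 f_pm_012 t 117 63 1 = true := ex3_c s70_pm_012 k39_pm_012

theorem s72_pm_012 : ∃ t, chk3 f_pm_012 t 116 255 2 = true := ex3_c k34_pm_012 k35_pm_012

theorem s73_pm_012 : ∃ t, chk3 f_pm_012 t 116 127 2 = true := ex3_b k33_pm_012 s72_pm_012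

theorem s74_pm_012 : ∃ t, chk3 f_pm_012 t 116 63 2 = true := ex3_b k32_pm_012 s73_pm_012

theorem s75_pm_012 : ∃ t, chk3 f_pm_012 t 116 63 1 = true := ex3_c s74_pm_012 k36_pm_012

theorem s76_pm_012 : ∃ t, chk3 f_pm_012 t 58 63 1 = true := ex3_a s75_pm_012 s71_pm_012

theorem s77_pm_012 : ∃ t, chk3 f_pm_012 t 58 31 1 = true := ex3_b k31_pm_012 s76_pm_012

theorem s78_pm_012 : ∃ t, chk3 f_pm_012 t 58 15 1 = true := ex3_b k30_pm_012 s77_pm_012

theorem s79_pm_012 : ∃ t, chk3 f_pm_012 t 29 15 1 = true := ex3_a s78_pm_012 s69_pm_012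

theorem s80_pm_012 : ∃ t, chk3 f_pm_012 t 29 7 1 = true := ex3_b k29_pm_012 s79_pm_012

theorem s81_pm_012 : ∃ t, chk3 f_pm_012 t 57 127 3 = true := ex3_a k27_pm_012 k28_pm_012

theorem s82_pm_012 : ∃ t, chk3 f_pm_012 t 57 63 3 = true := ex3_b k26_pm_012 s81_pm_012

theorem s83_pm_012 : ∃ t, chk3 f_pm_012 t 56 127 3 = true := ex3_a k24_pm_012 k25_pm_012

theorem s84_pm_012 : ∃ t, chk3 f_pm_012 t 56 63 3 = true := ex3_b k23_pm_012 s83_pm_012

theorem s85_pm_012 : ∃ t, chk3 f_pm_012 t 28 63 3 = true := ex3_a s84_pm_012 s82_pm_012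

theorem s86_pm_012 : ∃ t, chk3 f_pm_012 t 115 127 2 = true := ex3_c k21_pm_012 k22_pm_012

theorem s87_pm_012 : ∃ t, chk3 f_pm_012 t 57 127 2 = true := ex3_a k20_pm_012 s86_pm_012

theorem s88_pm_012 : ∃ t, chk3 f_pm_012 t 57 63 2 = true := ex3_b k19_pm_012 s87_pm_012

theorem s89_pm_012 : ∃ t, chk3 f_pm_012 t 28 63 2 = true := ex3_a k18_pm_012 s88_pm_012

theorem s90_pm_012 : ∃ t, chk3 f_pm_012 t 28 63 1 = true := ex3_c s89_pm_012 s85_pm_012

theorem s91_pm_012 : ∃ t, chk3 f_pm_012 t 28 31 1 = true := ex3_b k17_pm_012 s90_pm_012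

theorem s92_pm_012 : ∃ t, chk3 f_pm_012 t 28 15 1 = true := ex3_b k16_pm_012 s91_pm_012

theorem s93_pm_012 : ∃ t, chk3 f_pm_012 t 28 7 1 = true := ex3_b k15_pm_012 s92_pm_012

theorem s94_pm_012 : ∃ t, chk3 f_pm_012 t 14 7 1 = true := ex3_a s93_pm_012 s80_pm_012

theorem s95_pm_012 : ∃ t, chk3 f_pm_012 t 7 7 1 = true := ex3_a s94_pm_012 s64_pm_012

theorem s96_pm_012 : ∃ t, chk3 f_pm_012 t 55 127 3 = true := ex3_a k13_pm_012 k14_pm_012

theorem s97_pm_012 : ∃ t, chk3 f_pm_012 t 55 63 3 = true := ex3_b k12_pm_012 s96_pm_012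

theorem s98_pm_012 : ∃ t, chk3 f_pm_012 t 55 63 1 = true := ex3_c k11_pm_012 s97_pm_012

theorem s99_pm_012 : ∃ t, chk3 f_pm_012 t 27 63 1 = true := ex3_a k10_pm_012 s98_pm_012

theorem s100_pm_012 : ∃ t, chk3 f_pm_012 t 27 31 1 = true := ex3_b k9_pm_012 s99_pm_012

theorem s101_pm_012 : ∃ t, chk3 f_pm_012 t 27 15 1 = true := ex3_b k8_pm_012 s100_pm_012

theorem s102_pm_012 : ∃ t, chk3 f_pm_012 t 13 15 1 = true := ex3_a k7_pm_012 s101_pm_012

theorem s103_pm_012 : ∃ t, chk3 f_pm_012 t 13 7 1 = true := ex3_b k6_pm_012 s102_pm_012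

theorem s104_pm_012 : ∃ t, chk3 f_pm_012 t 6 7 1 = true := ex3_a k5_pm_012 s103_pm_012

theorem s105_pm_012 : ∃ t, chk3 f_pm_012 t 3 7 1 = true := ex3_a s104_pm_012 s95_pm_012

theorem s106_pm_012 : ∃ t, chk3 f_pm_012 t 7 6 1 = true := ex3_b k3_pm_012 k4_pm_012

theorem s107_pm_012 : ∃ t, chk3 f_pm_012 t 3 6 1 = true := ex3_a k2_pm_012 s106_pm_012

theorem s108_pm_012 : ∃ t, chk3 f_pm_012 t 3 3 1 = true := ex3_b s107_pm_012 s105_pm_012

theorem s109_pm_012 : ∃ t, chk3 f_pm_012 t 3 1 1 = true := ex3_b k1_pm_012 s108_pm_012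

theorem s110_pm_012 : ∃ t, chk3 f_pm_012 t 1 1 1 = true := ex3_a k0_pm_012 s109_pm_012

theorem c_pm_012 : CertN 0 536870912 0 536870912 134217728 67108864 3 false true false .pnp 0 1 2
    ndN0q0 ndN0q2 pcN1 cut_pm_012 Ext.none :=
  certN2 (fam := false) (s1 := true) (s2 := false) (a := 0) (b := 1) (c := 2) (cn := .pnp) (n1 := ndN0q0) (n2 := ndN0q2) (pc := pcN1) (cut := cut_pm_012) (xt := Ext.none) (P1 := 0) (W1 := 536870912) (P2 := 0) (W2 := 536870912) (P3 := 134217728) (W3 := 67108864) (N0 := 3)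
    rfl (fun _ => rfl) s110_pm_012

noncomputable def cut_pm_022 : Cut := Cut.of [[⟨0, 0, 0, 67108864⟩, ⟨1, 1, 0, 67108864⟩, ⟨2, 1, 0, 67108864⟩]]

noncomputable def f_pm_022 : ℕ → ℕ → ℕ → ℕ → Bool := onCell 0 536870912 0 536870912 134217728 67108864
    (rowN 3 0 false true false .pp 0 2 2 (qsf 0 536870912 0 536870912 2) ndN0q0 ndN0q2 pcN2 cut_pm_022 Ext.none)

def k0_pm_022 : ∃ t, chk3 f_pm_022 t 4 2 1 = true :=
  ⟨(b (a (a (b (a (b (a (c (l 16862456) (l 16531344)) (c (l 16874576) (l 16486168))) (c (b (l 16864432) (l 16847328)) (l 16532992))) (b (c (l 16862128) (l 16501720)) (c (l 16836944) (l 16523496)))) (c (b (l 16795472) (l 16715456)) (l 16542912))) (b (a (b (c (l 16847944) (l 16493648)) (c (l 16822840) (l 16514496))) (b (c (l 16774528) (l 16527584)) (c (l 16812552) (l 16506312)))) (a (c (l 16728784) (l 16526752)) (c (b (l 16759816) (l 16674000)) (l 16573712))))) (a (a (b (a (b (c (l 16831600) (l 16475264)) (c (l 16806752) (l 16475648))) (l 16563672)) (b (c (l 16563312) (l 16539576))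 (c (l 16665336) (l 16460704)))) (b (c (l 16814536) (l 16462336)) (c (l 16683576) (l 16516072)))) (b (c (l 16818176) (l 16475776)) (b (c (l 16755184) (l 16493528)) (c (l 16665488) (l 16466120)))))) (a (b (a (c (a (l 16600432) (l 16564528)) (b (l 16543368) (l 16561392))) (c (b (l 16557992) (l 16546448)) (l 16564328))) (a (c (b (a (l 16584096) (l 16566776)) (a (l 16623232) (l 16583448))) (b (l 16580672) (a (l 16588536) (l 16570216)))) (b (c (l 16581088) (l 16545800)) (c (a (l 16563784) (l 16543192)) (l 16583440))))) (b (a (c (b (l 16535104) (l 16530392)) (l 16521048)) (c (b (l 16535056) (l 16480152)) (l 16485432))) (a (c (b (l 16541024) (b (l 16528560) (l 16555408))) (b (l 16529224) (l 16542864))) (c (b (a (l 16488896) (l 16467384)) (a (l 16498304) (l 16485184))) (b (l 16487232) (l 16496320))))))), by decide +kernel⟩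

def k1_pm_022 : ∃ t, chk3 f_pm_022 t 5 2 1 = true :=
  ⟨(a (a (b (b (c (l 16834344) (l 16513616)) (b (c (l 16775992) (l 16488000)) (c (a (l 16681296) (l 16699352)) (l 16526128)))) (a (b (c (l 16483752) (l 16475760)) (c (b (l 16475168) (l 16481152)) (b (l 16475136) (l 16479784)))) (b (c (l 16482888) (l 16483168)) (l 1)))) (b (b (l 1) (l 1)) (l 1))) (l 1)), by decide +kernel⟩

def k2_pm_022 : ∃ t, chk3 f_pm_022 t 8 6 1 = true :=
  ⟨(a (b (b (c (a (c (l 16623392) (l 16617384)) (l 16621120)) (a (l 16629632) (l 16588896))) (c (a (c (l 16661704) (l 16656616)) (b (l 16612512) (l 16641632))) (a (l 16659640) (l 16628008)))) (b (a (c (c (b (l 16653504) (l 16682912)) (b (l 16648984) (l 16657776))) (b (l 16663312) (l 16672608))) (c (c (l 16666368) (l 16651672)) (c (l 16647552) (l 16643528)))) (a (c (a (c (b (l 16676160) (l 16684712)) (b (l 16672312) (l 16681192))) (c (l 16689672) (l 16686008))) (a (b (l 16666624) (l 16696952)) (b (l 16655088) (l 16664144)))) (c (b (c (l 16667648) (l 16642920))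 (c (l 16675544) (l 16672072))) (b (l 16658408) (a (l 16652144) (l 16639976))))))) (b (c (b (a (l 16600048) (l 16578064)) (a (c (l 16596584) (l 16591944)) (l 16602416))) (b (a (l 16568480) (l 16547376)) (a (l 16606200) (l 16583704)))) (b (a (c (b (l 16626408) (l 16633848)) (c (l 16624296) (l 16620528))) (c (b (l 16602192) (l 16609048)) (a (l 16604640) (l 16592552)))) (c (a (b (c (l 16622112) (l 16618544)) (c (l 16650456) (l 16647136))) (b (c (l 16617576) (l 16614288)) (c (l 16624424) (l 16621344)))) (a (b (l 16634336) (l 16642336)) (b (l 16609560) (l 16616944))))))), by decide +kernel⟩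

def k3_pm_022 : ∃ t, chk3 f_pm_022 t 9 6 1 = true :=
  ⟨(a (b (b (c (a (l 16555144) (l 16531464)) (a (l 16546552) (l 16524200))) (c (a (c (l 16569584) (l 16565856)) (b (l 16539872) (l 16545496))) (a (l 16560512) (l 16557728)))) (b (a (c (b (l 16577040) (c (l 16584864) (l 16581776))) (b (l 16570648) (l 16577360))) (c (a (b (l 16557552) (l 16563384)) (c (l 16538320) (l 16535800))) (a (l 16555192) (l 16537472)))) (b (a (c (a (l 16596304) (l 16582904)) (l 16584056)) (c (a (c (l 16549568) (l 16547056)) (l 1)) (l 16558416))) (a (c (a (l 16602848) (c (b (l 16588936) (l 16592080)) (l 16566920))) (a (l 16597448) (b (l 16561560) (l 16564896)))) (l 1))))) (b (a (c (b (b (l 16505584) (l 16510568)) (c (l 16517464) (l 16515136))) (b (l 16503288) (l 16515296))) (b (c (a (l 16495656) (l 16487720)) (l 16485872)) (l 1))) (b (b (c (a (l 16526424) (l 1)) (l 16528248)) (l 1)) (l 1)))), by decide +kernel⟩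

def k4_pm_022 : ∃ t, chk3 f_pm_022 t 4 7 1 = true :=
  ⟨(a (b (a (b (a (c (a (b (c (l 16714352) (l 16690184)) (b (c (l 16700048) (l 16697088)) (l 6))) (b (c (l 16681256) (l 16678048)) (c (l 16710912) (l 16687040)))) (a (b (c (l 16687024) (l 16683896)) (c (l 16712320) (l 16714752))) (b (l 16694304) (c (l 16684184) (l 16681384))))) (b (c (c (a (l 16668912) (l 16656352)) (a (l 16665712) (l 16653176))) (c (l 16677296) (l 16674256))) (b (a (c (l 16694688) (l 16667880)) (c (l 16681952) (l 16655200))) (l 6)))) (l 6)) (a (b (c (c (b (a (l 16643560) (l 16630536)) (a (l 16672504) (l 16659240))) (b (l 16654928) (b (l 16660968) (l 6)))) (b (a (l 16635936) (l 16644096)) (a (l 16665504) (l 16652400)))) (l 6)) (a (b (c (b (c (l 16617264) (l 16614328)) (c (l 16645744) (l 16643000))) (b (l 16631104) (l 16639112))) (l 6)) (a (b (b (c (l 16626704) (l 16621248)) (b (c (l 16611248) (l 16627048)) (l 6))) (l 6)) (b (c (b (l 16619920) (b (b (l 16624424) (l 16626264)) (l 16629080))) (b (l 16593640) (l 16606536)))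 (l 1)))))) (a (l 6) (a (l 6) (l 1)))) (b (a (b (a (a (c (b (b (c (l 16609256) (l 16606560)) (a (l 16604336) (l 16607888))) (c (l 16607512) (l 16605272))) (b (b (l 16602744) (l 16606376)) (l 16606808))) (b (c (l 16588032) (l 16576640)) (l 1))) (l 1)) (l 1)) (l 1)) (l 1))), by decide +kernel⟩

def k5_pm_022 : ∃ t, chk3 f_pm_022 t 5 3 1 = true :=
  ⟨(b (l 1) (l 1)), by decide +kernel⟩

def k6_pm_022 : ∃ t, chk3 f_pm_022 t 3 1 1 = true :=
  ⟨(l 1), by decide +kernel⟩

theorem s7_pm_022 : ∃ t, chk3 f_pm_022 t 4 6 1 = true := ex3_a k2_pm_022 k3_pm_022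

theorem s8_pm_022 : ∃ t, chk3 f_pm_022 t 4 3 1 = true := ex3_b s7_pm_022 k4_pm_022

theorem s9_pm_022 : ∃ t, chk3 f_pm_022 t 2 3 1 = true := ex3_a s8_pm_022 k5_pm_022

theorem s10_pm_022 : ∃ t, chk3 f_pm_022 t 2 2 1 = true := ex3_a k0_pm_022 k1_pm_022

theorem s11_pm_022 : ∃ t, chk3 f_pm_022 t 2 1 1 = true := ex3_b s10_pm_022 s9_pm_022

theorem s12_pm_022 : ∃ t, chk3 f_pm_022 t 1 1 1 = true := ex3_a s11_pm_022 k6_pm_022

theorem c_pm_022 : CertN 0 536870912 0 536870912 134217728 67108864 3 false true false .pp 0 2 2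
    ndN0q0 ndN0q2 pcN2 cut_pm_022 Ext.none :=
  certN0 (fam := false) (s1 := true) (s2 := false) (a := 0) (b := 2) (c := 2) (cn := .pp) (n1 := ndN0q0) (n2 := ndN0q2) (pc := pcN2) (cut := cut_pm_022) (xt := Ext.none) (P1 := 0) (W1 := 536870912) (P2 := 0) (W2 := 536870912) (P3 := 134217728) (W3 := 67108864) (N0 := 3)
    rfl s12_pm_022

noncomputable def cut_pm_101 : Cut := Cut.of [[⟨0, 1, 0, 53687091⟩, ⟨1, 0, 0, 53687091⟩, ⟨2, 1, 0, 53687091⟩]]

noncomputable def f_pm_101 : ℕ → ℕ → ℕ → ℕ → Bool := onCell 536870912 536870912 536870912 536870912 134217728 67108864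
    (rowN 3 0 false true false .npn 1 0 1 (qsf 536870912 536870912 536870912 536870912 0) ndN0q1 ndN0q1 pcN0 cut_pm_101 Ext.none)

def k0_pm_101 : ∃ t, chk3 f_pm_101 t 4 2 1 = true :=
  ⟨(b (a (b (l 4) (a (b (l 4) (b (l 4) (a (l 4) (b (l 4) (a (l 4) (b (l 4) (l 125862750519))))))) (b (b (l 4) (a (l 4) (b (l 4) (a (l 4) (b (l 4) (l 125862758647)))))) (b (a (b (l 4) (a (l 4) (b (l 4) (l 126399625431)))) (b (a (b (l 4) (l 125862756791)) (b (l 118883438263) (l 16821160))) (a (b (l 119957178103) (l 16820232)) (l 16808584)))) (a (b (a (b (l 4) (l 127473364583)) (b (l 94724271639) (l 16819080))) (a (b (l 97408616967) (l 16817760)) (l 16805776))) (l 16830648)))))) (b (a (a (l 4) (l 1)) (l 1)) (a (b (b (a (b (l 4) (a (l 4) (b (l 4) (l 125862760951)))) (b (l 1) (b (l 1) (l 165389918327)))) (a (b (a (b (l 4) (l 125862760071)) (b (a (l 137137032903) (l 16806040)) (l 16822152))) (a (b (l 118883460727) (l 16821808)) (l 16811848))) (l 16850688))) (b (a (l 16829640) (l 16822816)) (a (l 16823792) (l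 16858512)))) (b (l 158410828295) (a (l 16833656) (l 16910032)))))) (b (a (b (a (b (a (b (l 4) (a (l 4) (b (l 4) (l 124789004679)))) (b (a (b (l 4) (l 125325877863)) (l 86671229463)) (a (l 86134355207) (l 16803176)))) (a (b (a (b (l 130694601591) (l 124789001927)) (l 86134351207)) (a (l 85597475495) (l 16780272))) (l 16835888))) (b (a (l 16832640) (l 16825608)) (a (l 16828608) (l 16862496)))) (a (b (a (l 16819976) (l 16833504)) (a (l 16840304) (l 16873480))) (a (l 16949408) (l 16918552)))) (a (b (a (l 16815080) (l 16911144)) (l 16965520)) (b (l 16960056) (l 17026008)))) (b (a (a (b (l 16960544) (l 16937584)) (l 16977936)) (a (l 17035208) (l 17090392))) (a (a (b (l 16976688) (l 17014512)) (l 17049232)) (l 17125672))))), by decide +kernel⟩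

def k1_pm_101 : ∃ t, chk3 f_pm_101 t 5 2 1 = true :=
  ⟨(b (a (b (l 1) (b (l 1) (a (l 16961800) (l 1)))) (l 1)) (b (a (a (a (l 17040136) (l 17070704)) (l 17118824)) (l 100429828999)) (a (b (l 17172392) (l 17223248)) (l 17307832)))), by decide +kernel⟩

def k2_pm_101 : ∃ t, chk3 f_pm_101 t 2 3 1 = true :=
  ⟨(a (b (b (a (b (a (l 17068192) (l 17113464)) (l 17254216)) (b (l 17179280) (l 17220136))) (a (b (l 17254584) (c (l 17434072) (l 17447696))) (c (l 17482776) (l 17493824)))) (b (a (a (b (l 17355920) (l 17458824)) (l 17357640)) (l 17460232)) (b (a (c (l 17721576) (l 17785472)) (c (l 17431056) (l 17535832))) (a (a (l 17672840) (l 17596808)) (l 17547408))))) (b (b (a (l 17345104) (b (l 17355104) (l 17368816))) (a (b (l 17385192) (l 17298584)) (b (l 17378936) (l 17363784)))) (b (a (l 17378096) (l 17531648)) (b (a (l 17440992) (l 17348712)) (a (b (l 17310072) (l 17367584)) (l 17295656)))))), by decide +kernel⟩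

def k3_pm_101 : ∃ t, chk3 f_pm_101 t 3 1 1 = true :=
  ⟨(b (a (b (l 1) (a (b (l 1) (l 17420792)) (l 1))) (l 1)) (a (b (b (a (b (l 17444552) (l 17447432)) (b (l 1) (l 17602712))) (a (l 17640520) (b (l 17514624) (l 17491304)))) (b (a (l 17546928) (b (l 17442984) (l 17364872))) (b (a (a (l 17190824) (l 17295688)) (b (l 17463264) (l 17293800))) (a (l 17233392) (l 17266520))))) (b (a (b (l 1) (a (l 17635880) (l 1))) (l 1)) (b (b (a (l 115462397783) (l 1)) (a (a (l 17390904) (l 17407656)) (a (l 172370355495) (l 1)))) (a (b (b (c (l 17572552) (a (l 17265728) (l 17275376))) (a (l 17198152) (l 17201296))) (b (l 17322544) (l 17095016))) (b (b (a (c (l 177202494887) (a (l 17281496) (l 192771345063))) (l 1)) (a (a (l 17201424) (l 6)) (l 6))) (a (a (b (l 17059168) (l 16987448)) (l 6)) (l 6)))))))), by decide +kernel⟩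

theorem s4_pm_101 : ∃ t, chk3 f_pm_101 t 2 2 1 = true := ex3_a k0_pm_101 k1_pm_101

theorem s5_pm_101 : ∃ t, chk3 f_pm_101 t 2 1 1 = true := ex3_b s4_pm_101 k2_pm_101

theorem s6_pm_101 : ∃ t, chk3 f_pm_101 t 1 1 1 = true := ex3_a s5_pm_101 k3_pm_101

theorem c_pm_101 : CertN 536870912 536870912 536870912 536870912 134217728 67108864 3 false true false .npn 1 0 1
    ndN0q1 ndN0q1 pcN0 cut_pm_101 Ext.none :=
  certN0 (fam := false) (s1 := true) (s2 := false) (a := 1) (b := 0) (c := 1) (cn := .npn) (n1 := ndN0q1) (n2 := ndN0q1) (pc := pcN0) (cut := cut_pm_101) (xt := Ext.none) (P1 := 536870912) (W1 := 536870912) (P2 := 536870912) (W2 := 536870912) (P3 := 134217728) (W3 := 67108864) (N0 := 3)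
    rfl s6_pm_101

noncomputable def cut_pm_102 : Cut := Cut.of [[⟨0, 1, 0, 67108864⟩, ⟨1, 0, 0, 67108864⟩, ⟨2, 1, 0, 67108864⟩]]

noncomputable def f_pm_102 : ℕ → ℕ → ℕ → ℕ → Bool := onCell 536870912 536870912 0 536870912 134217728 67108864
    (rowN 3 0 false true false .npp 1 0 2 (qsf 536870912 536870912 0 536870912 0) ndN0q1 ndN0q2 pcN0 cut_pm_102 Ext.none)

def k0_pm_102 : ∃ t, chk3 f_pm_102 t 2 1 1 = true :=
  ⟨(b (a (b (l 2) (a (l 2) (b (l 2) (l 296991489831)))) (a (b (b (a (a (l 2) (l 3)) (l 3)) (a (a (l 2) (b (a (l 2) (b (l 81235339927) (l 16799576))) (l 16836544))) (b (a (a (c (l 86067227783) (l 87677850359)) (l 100562731431)) (l 3)) (a (b (a (l 16829624) (l 16808512)) (l 16844432)) (b (a (b (l 88214662311) (l 16813576)) (l 86604046407)) (a (l 16827552) (l 56002408423))))))) (b (b (a (a (l 16928128) (l 16901584)) (b (a (l 16865408) (l 16841768)) (l 16937064))) (a (l 16961264) (l 16969368))) (a (l 16970768) (l 17120256)))) (b (b (l 3) (a (a (b (l 3) (a (c (l 93046545815) (l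 95194040295)) (l 108078946423))) (l 3)) (l 3))) (b (a (b (a (b (a (l 16825208) (l 58686759335)) (l 16838776)) (b (c (l 90362190727) (l 91972793079)) (a (l 16822664) (b (l 68887306631) (l 16816968))))) (a (l 16868488) (b (l 16835592) (l 16854416)))) (b (a (b (l 3) (c (l 94120284487) (l 95730887623))) (l 3)) (a (b (a (l 16819960) (b (l 74792890071) (l 16814432))) (l 16811216)) (b (a (l 87677807895) (l 3)) (a (l 16809272) (b (l 81235337543) (l 16811872))))))) (a (b (l 16980088) (l 16937360)) (b (a (l 16838560) (b (a (l 16833840) (l 16823640)) (l 16845800))) (l 16968520))))))) (a (b (a (l 2) (b (a (l 2) (l 17205128)) (l 17344712))) (b (a (l 17605464) (l 17460968)) (a (c (l 17765896) (l 17765000)) (b (l 17555416) (l 17559848))))) (b (a (a (b (l 17133328) (l 17233384)) (b (l 17065624) (l 17245608))) (b (a (l 17085256) (c (l 17013136) (l 17018880))) (a (l 17196248) (l 17128776)))) (b (a (l 17254072) (b (l 17218264) (l 17199704))) (a (c (l 17522800) (l 17587472)) (b (l 17270856) (l 17425600))))))),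 by decide +kernel⟩

def k1_pm_102 : ∃ t, chk3 f_pm_102 t 3 2 1 = true :=
  ⟨(a (b (l 3) (a (b (a (b (l 3) (a (b (l 3) (a (l 93583406311) (l 3))) (l 3))) (l 3)) (a (b (a (b (a (b (l 65666084279) (l 16817960)) (b (l 82309076007) (l 67276694135))) (a (l 16829976) (l 16820168))) (b (a (l 98952113815) (l 3)) (a (b (l 72108536007) (l 16814696)) (b (l 89825265863) (a (l 16808448) (l 76403497447)))))) (a (l 16891648) (b (a (l 16825976) (l 16806136)) (l 16836520)))) (b (a (b (l 3) (a (b (l 3) (l 97341457655)) (l 3))) (l 3)) (a (b (a (b (a (l 71034791639) (l 80161591623)) (l 16811408)) (c (l 91972774583) (l 93046528263))) (a (l 16821920) (b (l 16804536) (l 16816384)))) (b (l 3) (a (b (a (l 75329754295) (l 83919684023)) (l 67276692647)) (b (l 3) (a (l 71571655351) (l 93046488071))))))))) (l 3))) (l 3)), by decide +kernel⟩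

def k2_pm_102 : ∃ t, chk3 f_pm_102 t 12 6 1 = true :=
  ⟨(b (b (a (c (l 16919392) (l 16908992)) (a (b (l 16831776) (l 16846872)) (b (a (l 16817856) (b (a (l 16808408) (l 73182271911)) (l 16812568))) (l 16848008)))) (a (l 16927576) (b (l 16893328) (l 16887624)))) (a (b (l 16942056) (l 16978352)) (a (l 16961664) (l 16873712)))), by decide +kernel⟩

def k3_pm_102 : ∃ t, chk3 f_pm_102 t 13 6 1 = true :=
  ⟨(b (a (b (a (b (a (b (a (l 81235329351) (l 3)) (a (l 16806728) (l 75329752119))) (b (l 3) (a (l 86604036327) (l 3)))) (a (l 16808544) (b (c (l 70497918935) (l 68887296439)) (l 16808768)))) (b (l 3) (a (b (a (l 95730840423) (l 3)) (a (l 73719139559) (b (l 87140905479) (l 78014103079)))) (l 3)))) (c (a (l 16874592) (b (a (l 16807320) (b (a (l 76940366487) (l 88214650231)) (l 71034789687))) (l 16820648))) (a (b (l 16819080) (l 16832008)) (b (a (l 64055465815) (b (a (l 71034777271) (l 89288384343)) (l 71571654487))) (l 16835592))))) (b (l 3) (a (b (a (b (l 3) (a (b (l 81772195335) (l 76403489991))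 (b (l 3) (l 88751516151)))) (l 3)) (a (b (a (l 16804952) (b (l 77477230167) (l 16802816))) (l 16808408)) (b (a (c (l 87140928151) (l 87677780727)) (l 3)) (a (l 70497914503) (b (a (l 79087841207) (l 82845935159)) (l 76940364071)))))) (b (l 3) (a (b (l 3) (a (b (l 3) (a (l 79624715767) (l 3))) (l 3))) (l 3)))))) (a (b (a (l 16856616) (l 16878600)) (l 16873928)) (b (b (c (a (a (l 16819984) (l 16811640)) (a (b (a (l 75329752103) (b (l 88751516423) (l 76403488375))) (l 16800632)) (b (a (b (l 3) (l 96267706567)) (l 3)) (a (b (l 73719129575) (l 16800496)) (b (l 3) (l 85530296055)))))) (a (a (l 16814176) (l 16806504)) (a (b (a (l 74256001495) (b (l 89288380519) (l 72108513063))) (l 16801312)) (b (a (b (l 3) (l 98415185191)) (l 3)) (a (b (l 74255993095) (l 16796536)) (b (l 3) (l 86067170759))))))) (a (l 16845352) (a (l 16831784) (b (a (l 16801664) (c (l 73182260535) (l 70497900807))) (l 16804240))))) (b (a (l 16836248) (l 16837624)) (l 16837904))))), by decide +kernel⟩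

def k4_pm_102 : ∃ t, chk3 f_pm_102 t 6 7 1 = true :=
  ⟨(b (a (b (a (l 17022928) (l 16937480)) (a (l 17087432) (l 17013864))) (b (a (l 16903040) (l 16856680)) (a (l 16945408) (l 16888480)))) (a (b (l 17205584) (b (l 17173320) (l 17221840))) (b (a (l 17015264) (l 16946912)) (a (l 17068672) (b (l 17005976) (l 17015936)))))), by decide +kernel⟩

def k5_pm_102 : ∃ t, chk3 f_pm_102 t 7 6 1 = true :=
  ⟨(a (b (l 3) (a (b (a (b (l 3) (a (b (c (a (b (l 91972753847) (l 72108512551)) (b (l 3) (l 98952073655))) (a (b (l 93046489879) (l 71034763959)) (b (l 3) (l 101636424759)))) (a (l 16797776) (b (c (l 74255992087) (l 74255985895)) (l 16794784)))) (b (l 3) (a (b (a (l 100562682759) (l 3)) (a (b (l 73719115623) (l 16792424)) (l 91972734695))) (l 3))))) (l 3)) (a (c (b (a (l 16804872) (b (a (l 69424154039) (b (l 94657100167) (l 71571632679))) (l 16798248))) (l 16831848)) (b (a (l 16801056) (b (a (l 68887278679) (b (l 96267708183) (l 71034757767))) (l 16795120))) (l 16827968))) (b (a (b (a (b (l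 3) (a (l 93046478167) (l 3))) (l 3)) (a (b (c (l 76403478711) (l 75329731975)) (l 16791544)) (b (a (b (l 3) (l 93046481271)) (l 3)) (a (l 83919670551) (l 94657087511))))) (l 3)) (b (a (a (l 16795176) (c (l 79624709895) (l 78014093351))) (a (b (a (l 79624701991) (b (l 3) (l 94657090791))) (a (l 16789080) (l 84456539463))) (b (l 3) (a (b (l 102710155079) (l 78014081847)) (l 3))))) (a (l 16798112) (a (l 16802176) (b (a (l 16787384) (l 80698440887)) (l 16788744)))))))) (b (l 3) (a (b (l 3) (a (b (l 3) (c (a (b (l 118816268295) (a (l 71571620135) (l 96804571719))) (l 130627431383)) (a (b (l 119890017159) (a (l 70497875815) (l 102710143735))) (l 129553684471)))) (l 3))) (l 3))))) (l 3)), by decide +kernel⟩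

def k6_pm_102 : ∃ t, chk3 f_pm_102 t 14 14 1 = true :=
  ⟨(a (b (a (l 16826096) (b (a (l 16785216) (l 16818304)) (l 16812896))) (a (l 16851912) (l 16831352))) (b (a (b (a (b (a (b (l 16794936) (l 16789568)) (b (a (l 86067147271) (b (l 3) (l 104857621863))) (a (l 16786456) (l 84993404391)))) (a (l 16793472) (l 16799704))) (b (a (b (l 3) (a (a (l 89825246679) (l 107005105111)) (l 125795582999))) (l 3)) (a (b (a (l 16795312) (l 87140886551)) (l 16796792)) (b (a (b (l 3) (l 107005103111)) (l 3)) (a (l 85530271911) (b (l 114521294759) (l 86604019015))))))) (a (l 16799448) (b (a (l 16811192) (b (l 16789952) (l 16787304))) (l 16793464)))) (b (a (b (l 3) (a (b (l 3) (a (l 125795579527) (l 3))) (l 3))) (l 3)) (a (b (a (b (a (b (l 95193941431) (l 16787496)) (b (l 3) (l 108615713607))) (a (l 16784168) (l 78550945511))) (b (l 3) (a (b (l 116131904503) (l 88751500359)) (b (l 3) (c (l 124184976887) (l 124721846711)))))) (a (l 16787072) (b (a (l 16793088) (b (l 96804551863) (l 16786424))) (l 16794664))))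 (b (l 3) (a (a (b (b (l 3) (l 109689452807)) (l 79624685239)) (b (l 3) (b (c (l 116668783399) (l 104320730727)) (l 90362100471)))) (b (l 3) (a (b (l 3) (c (l 110763187687) (l 110763179319))) (l 3)))))))) (a (l 16854480) (b (a (l 16814160) (b (a (b (l 16787896) (l 16785336)) (b (a (b (c (l 98952033623) (l 97878291287)) (l 16785424)) (b (l 3) (a (l 87677743863) (l 109152577767)))) (a (l 16782184) (l 89288359559)))) (l 16797832))) (l 16821336))))), by decide +kernel⟩

def k7_pm_102 : ∃ t, chk3 f_pm_102 t 15 14 1 = true :=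
  ⟨(a (b (l 3) (a (b (a (b (a (b (l 3) (c (a (b (a (l 101099504775) (l 3)) (l 83919642439)) (l 124184960983)) (a (b (l 107005082791) (l 101099512999)) (l 124184960791)))) (l 3)) (a (b (a (l 16785936) (a (l 92509580919) (b (l 103783863191) (l 16783976)))) (l 16782360)) (b (a (a (b (l 3) (a (l 104320735607) (l 98952030503))) (l 126869311207)) (l 3)) (a (b (l 95730804679) (l 16779888)) (b (c (l 117742511831) (l 115058156871)) (a (l 16780912) (a (l 107541960167) (l 104857610119)))))))) (a (b (l 3) (c (l 139754214583) (l 139217347879))) (l 3))) (a (b (a (l 16786552) (b (l 16786792) (l 16783688))) (l 16790152)) (b (a (b (a (a (l 95730804967) (b (l 115595023575) (l 93583317879))) (b (l 3) (c (l 115595024455) (l 112373798343)))) (a (l 16780504) (c (l 95193934071) (l 94120192247)))) (b (l 3) (a (a (b (l 125258705991) (l 96267672263)) (c (l 125258701511) (l 120963733383))) (l 3)))) (a (l 16794184) (b (a (l 16783632) (b (a (a (l 100562639079) (l 107541961415)) (l 133311765111)) (l 94120191447)))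 (l 16786744)))))) (b (l 3) (a (b (l 3) (a (b (a (b (l 3) (c (l 129016798775) (l 125258701367))) (l 3)) (a (a (l 84993388279) (b (a (l 103783864935) (l 115595025639)) (l 16784480))) (a (b (l 137069861991) (l 101099511351)) (c (l 130627408999) (l 130090539623))))) (l 3))) (l 3))))) (l 3)), by decide +kernel⟩

def k8_pm_102 : ∃ t, chk3 f_pm_102 t 7 15 1 = true :=
  ⟨(a (a (c (b (l 17038096) (l 16966048)) (b (l 17030904) (l 16937056))) (b (b (a (l 16831904) (l 16812776)) (l 16937224)) (b (l 16875928) (l 17006736)))) (a (b (a (b (a (l 16799248) (b (l 16808368) (l 16793528))) (a (l 16812496) (l 16803200))) (b (a (b (a (b (a (l 16781528) (b (l 89825224919) (l 16780384))) (l 16783128)) (b (a (a (b (c (l 111300058727) (l 107541961527)) (l 16784296)) (b (l 140827958135) (c (l 97341414983) (l 92509576119)))) (b (l 3) (c (l 132238023991) (l 132774893959)))) (a (l 16785712) (b (a (l 95193931495) (c (l 116131896647) (l 111836928599))) (l 16781920))))) (a (l 16787192) (l 16791184))) (b (a (b (l 3)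 (a (b (l 3) (b (c (l 126332443767) (l 124184959335)) (a (l 95193930007) (l 127406185063)))) (l 3))) (l 3)) (a (b (a (b (c (a (l 16779320) (l 99488896727)) (l 95193931271)) (l 16780000)) (a (b (c (l 120426861015) (l 116131893031)) (l 88214609687)) (b (l 3) (b (a (l 111836928535) (l 3)) (l 100562638759))))) (a (l 16781880) (l 16784008))) (b (a (b (l 3) (c (l 139754216231) (l 140827952007))) (l 3)) (a (b (a (a (l 91435833863) (b (l 116668766631) (l 16780792))) (c (l 125795569847) (l 122037472823))) (c (l 90362093543) (l 89825222247))) (b (l 3) (a (c (b (l 130627405255) (l 97878282439)) (b (l 130627404663) (l 107005087415))) (l 144049182919)))))))) (a (l 16815440) (b (a (l 16784968) (b (a (l 16786016) (a (l 16782680) (l 6))) (l 6))) (l 16809952))))) (b (a (a (l 16837000) (l 16823184)) (b (l 16820960) (l 6))) (a (l 16891064) (l 6)))) (b (b (l 3) (l 6)) (l 6)))), by decide +kernel⟩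

theorem s9_pm_102 : ∃ t, chk3 f_pm_102 t 7 14 1 = true := ex3_a k6_pm_102 k7_pm_102

theorem s10_pm_102 : ∃ t, chk3 f_pm_102 t 7 7 1 = true := ex3_b s9_pm_102 k8_pm_102

theorem s11_pm_102 : ∃ t, chk3 f_pm_102 t 7 3 1 = true := ex3_b k5_pm_102 s10_pm_102

theorem s12_pm_102 : ∃ t, chk3 f_pm_102 t 6 6 1 = true := ex3_a k2_pm_102 k3_pm_102

theorem s13_pm_102 : ∃ t, chk3 f_pm_102 t 6 3 1 = true := ex3_b s12_pm_102 k4_pm_102

theorem s14_pm_102 : ∃ t, chk3 f_pm_102 t 3 3 1 = true := ex3_a s13_pm_102 s11_pm_102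

theorem s15_pm_102 : ∃ t, chk3 f_pm_102 t 3 1 1 = true := ex3_b k1_pm_102 s14_pm_102

theorem s16_pm_102 : ∃ t, chk3 f_pm_102 t 1 1 1 = true := ex3_a k0_pm_102 s15_pm_102

theorem c_pm_102 : CertN 536870912 536870912 0 536870912 134217728 67108864 3 false true false .npp 1 0 2
    ndN0q1 ndN0q2 pcN0 cut_pm_102 Ext.none :=
  certN0 (fam := false) (s1 := true) (s2 := false) (a := 1) (b := 0) (c := 2) (cn := .npp) (n1 := ndN0q1) (n2 := ndN0q2) (pc := pcN0) (cut := cut_pm_102) (xt := Ext.none) (P1 := 536870912) (W1 := 536870912) (P2 := 0) (W2 := 536870912) (P3 := 134217728) (W3 := 67108864) (N0 := 3)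
    rfl s16_pm_102

noncomputable def f_pm_112 : ℕ → ℕ → ℕ → ℕ → Bool := onCell 536870912 536870912 0 536870912 134217728 67108864
    (rowN 3 2 false true false .dn 1 1 2 (qsf 536870912 536870912 0 536870912 1) ndN0q1 ndN0q2 pcN1 Cut.none Ext.none)

def k0_pm_112 : ∃ t, chk3 f_pm_112 t 1 1 1 = true :=
  ⟨(a (b (a (b (a (b (a (b (l 3) (a (b (l 3) (l 106468288327)) (b (l 105931418343) (b (a (l 102710184407) (l 84456615271)) (l 81772291607))))) (b (a (b (l 3) (l 103247106391)) (b (l 103247085895) (a (b (l 102173314823) (l 84456612535)) (l 81772274503)))) (b (a (a (b (l 102173314295) (l 84456614279)) (l 81772278535)) (a (l 16815912) (l 16811208))) (a (a (l 16816376) (l 16813176)) (l 16840344))))) (a (b (b (a (a (b (l 103783925159) (l 83919747975)) (l 81772286391)) (a (l 16818152) (l 16816168))) (a (b (l 16841224) (l 16821776)) (l 16850048))) (a (b (l 16836296) (l 16905472)) (l 16918000))) (b (a (b (l 16844488) (l 16886608)) (l 16899960)) (l 16945536)))) (b (a (b (b (a (c (l 101636518215)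 (l 98952131991)) (l 16843584)) (a (a (l 16817184) (l 16809952)) (l 16835096))) (a (l 16834792) (l 16888336))) (b (l 16813912) (l 16933112))) (a (b (l 16925368) (l 17021352)) (l 17034080)))) (a (b (a (b (a (l 16978376) (l 17009760)) (l 17088896)) (l 17050872)) (a (l 17228632) (l 17257840))) (b (a (l 17134288) (l 17169360)) (a (l 17280480) (l 17301696))))) (a (b (a (b (b (l 16904376) (l 16986544)) (l 17078232)) (b (l 1) (l 1))) (b (l 17256768) (a (l 17318992) (l 1)))) (l 1))) (a (b (a (a (b (a (l 17402464) (l 17403920)) (l 17517816)) (b (l 17404184) (l 17513408))) (b (a (l 17407672) (l 17416864)) (l 17514472))) (b (a (l 17595664) (l 17584536)) (a (c (l 10236590647) (b (l 17590864) (l 17626744))) (l 1)))) (b (l 1) (l 1)))) (l 1)), by decide +kernel⟩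

theorem c_pm_112 : CertN 536870912 536870912 0 536870912 134217728 67108864 3 false true false .dn 1 1 2
    ndN0q1 ndN0q2 pcN1 Cut.none Ext.none :=
  certN2 (fam := false) (s1 := true) (s2 := false) (a := 1) (b := 1) (c := 2) (cn := .dn) (n1 := ndN0q1) (n2 := ndN0q2) (pc := pcN1) (cut := Cut.none) (xt := Ext.none) (P1 := 536870912) (W1 := 536870912) (P2 := 0) (W2 := 536870912) (P3 := 134217728) (W3 := 67108864) (N0 := 3)
    rfl (fun _ => rfl) k0_pm_112

noncomputable def cut_pm_202 : Cut := Cut.of [[⟨0, 1, 0, 67108864⟩, ⟨1, 0, 0, 67108864⟩, ⟨2, 1, 0, 67108864⟩]]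

noncomputable def f_pm_202 : ℕ → ℕ → ℕ → ℕ → Bool := onCell 0 536870912 0 536870912 134217728 67108864
    (rowN 3 0 false true false .pp 2 0 2 (qsf 0 536870912 0 536870912 0) ndN0q2 ndN0q2 pcN0 cut_pm_202 Ext.none)

def k0_pm_202 : ∃ t, chk3 f_pm_202 t 1 1 1 = true :=
  ⟨(a (l 3) (b (l 3) (a (l 3) (a (l 3) (b (l 3) (b (l 3) (l 6))))))), by decide +kernel⟩

theorem c_pm_202 : CertN 0 536870912 0 536870912 134217728 67108864 3 false true false .pp 2 0 2
    ndN0q2 ndN0q2 pcN0 cut_pm_202 Ext.none :=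
  certN0 (fam := false) (s1 := true) (s2 := false) (a := 2) (b := 0) (c := 2) (cn := .pp) (n1 := ndN0q2) (n2 := ndN0q2) (pc := pcN0) (cut := cut_pm_202) (xt := Ext.none) (P1 := 0) (W1 := 536870912) (P2 := 0) (W2 := 536870912) (P3 := 134217728) (W3 := 67108864) (N0 := 3)
    rfl k0_pm_202

noncomputable def f_mm_001 : ℕ → ℕ → ℕ → ℕ → Bool := onCell 0 536870912 0 536870912 134217728 67108864
    (rowN 3 1 false false false .up 0 0 1 (qsf 0 536870912 536870912 536870912 0) ndN0q0 ndN0q1 pcN0 Cut.none Ext.none)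

def k0_mm_001 : ∃ t, chk3 f_mm_001 t 1 1 1 = true :=
  ⟨(l 3), by decide +kernel⟩

theorem c_mm_001 : CertN 0 536870912 536870912 536870912 134217728 67108864 3 false false false .up 0 0 1
    ndN0q0 ndN0q1 pcN0 Cut.none Ext.none :=
  certN1 (fam := false) (s1 := false) (s2 := false) (a := 0) (b := 0) (c := 1) (cn := .up) (n1 := ndN0q0) (n2 := ndN0q1) (pc := pcN0) (cut := Cut.none) (xt := Ext.none) (P1 := 0) (W1 := 536870912) (P2 := 536870912) (W2 := 536870912) (P3 := 134217728) (W3 := 67108864) (N0 := 3)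
    rfl (fun _ => rfl) k0_mm_001

noncomputable def f_mm_011 : ℕ → ℕ → ℕ → ℕ → Bool := onCell 0 536870912 536870912 536870912 134217728 67108864
    (rowN 3 1 false false false .pnn 0 1 1 (qsf 0 536870912 536870912 536870912 1) ndN0q0 ndN0q1 pcN1 Cut.none Ext.none)

def k0_mm_011 : ∃ t, chk3 f_mm_011 t 1 1 1 = true :=
  ⟨(l 5), by decide +kernel⟩

theorem c_mm_011 : CertN 0 536870912 536870912 536870912 134217728 67108864 3 false false false .pnn 0 1 1
    ndN0q0 ndN0q1 pcN1 Cut.none Ext.none :=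
  certN1 (fam := false) (s1 := false) (s2 := false) (a := 0) (b := 1) (c := 1) (cn := .pnn) (n1 := ndN0q0) (n2 := ndN0q1) (pc := pcN1) (cut := Cut.none) (xt := Ext.none) (P1 := 0) (W1 := 536870912) (P2 := 536870912) (W2 := 536870912) (P3 := 134217728) (W3 := 67108864) (N0 := 3)
    rfl (fun _ => rfl) k0_mm_011

noncomputable def f_mm_012 : ℕ → ℕ → ℕ → ℕ → Bool := onCell 0 536870912 0 536870912 134217728 67108864
    (rowN 3 0 false false false .pnp 0 1 2 (qsf 0 536870912 0 536870912 1) ndN0q0 ndN0q2 pcN1 Cut.none Ext.none)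

def k0_mm_012 : ∃ t, chk3 f_mm_012 t 1 1 1 = true :=
  ⟨(l 5), by decide +kernel⟩

theorem c_mm_012 : CertN 0 536870912 0 536870912 134217728 67108864 3 false false false .pnp 0 1 2
    ndN0q0 ndN0q2 pcN1 Cut.none Ext.none :=
  certN0 (fam := false) (s1 := false) (s2 := false) (a := 0) (b := 1) (c := 2) (cn := .pnp) (n1 := ndN0q0) (n2 := ndN0q2) (pc := pcN1) (cut := Cut.none) (xt := Ext.none) (P1 := 0) (W1 := 536870912) (P2 := 0) (W2 := 536870912) (P3 := 134217728) (W3 := 67108864) (N0 := 3)
    rfl k0_mm_012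

noncomputable def f_mm_022 : ℕ → ℕ → ℕ → ℕ → Bool := onCell 0 536870912 0 536870912 134217728 67108864
    (rowN 3 0 false false false .pp 0 2 2 (qsf 0 536870912 0 536870912 2) ndN0q0 ndN0q2 pcN2 Cut.none Ext.none)

def k0_mm_022 : ∃ t, chk3 f_mm_022 t 1 1 1 = true :=
  ⟨(l 5), by decide +kernel⟩

theorem c_mm_022 : CertN 0 536870912 0 536870912 134217728 67108864 3 false false false .pp 0 2 2
    ndN0q0 ndN0q2 pcN2 Cut.none Ext.none :=
  certN0 (fam := false) (s1 := false) (s2 := false) (a := 0) (b := 2) (c := 2) (cn := .pp) (n1 := ndN0q0) (n2 := ndN0q2) (pc := pcN2) (cut := Cut.none) (xt := Ext.none) (P1 := 0) (W1 := 536870912) (P2 := 0) (W2 := 536870912) (P3 := 134217728) (W3 := 67108864) (N0 := 3)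
    rfl k0_mm_022

noncomputable def f_mm_101 : ℕ → ℕ → ℕ → ℕ → Bool := onCell 536870912 536870912 536870912 536870912 134217728 67108864
    (rowN 3 0 false false false .npn 1 0 1 (qsf 536870912 536870912 536870912 536870912 0) ndN0q1 ndN0q1 pcN0 Cut.none Ext.none)

def k0_mm_101 : ∃ t, chk3 f_mm_101 t 1 1 1 = true :=
  ⟨(l 3), by decide +kernel⟩

theorem c_mm_101 : CertN 536870912 536870912 536870912 536870912 134217728 67108864 3 false false false .npn 1 0 1
    ndN0q1 ndN0q1 pcN0 Cut.none Ext.none :=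
  certN0 (fam := false) (s1 := false) (s2 := false) (a := 1) (b := 0) (c := 1) (cn := .npn) (n1 := ndN0q1) (n2 := ndN0q1) (pc := pcN0) (cut := Cut.none) (xt := Ext.none) (P1 := 536870912) (W1 := 536870912) (P2 := 536870912) (W2 := 536870912) (P3 := 134217728) (W3 := 67108864) (N0 := 3)
    rfl k0_mm_101

noncomputable def f_mm_102 : ℕ → ℕ → ℕ → ℕ → Bool := onCell 536870912 536870912 0 536870912 134217728 67108864
    (rowN 3 0 false false false .npp 1 0 2 (qsf 536870912 536870912 0 536870912 0) ndN0q1 ndN0q2 pcN0 Cut.none Ext.none)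

def k0_mm_102 : ∃ t, chk3 f_mm_102 t 1 1 1 = true :=
  ⟨(a (l 5) (l 3)), by decide +kernel⟩

theorem c_mm_102 : CertN 536870912 536870912 0 536870912 134217728 67108864 3 false false false .npp 1 0 2
    ndN0q1 ndN0q2 pcN0 Cut.none Ext.none :=
  certN0 (fam := false) (s1 := false) (s2 := false) (a := 1) (b := 0) (c := 2) (cn := .npp) (n1 := ndN0q1) (n2 := ndN0q2) (pc := pcN0) (cut := Cut.none) (xt := Ext.none) (P1 := 536870912) (W1 := 536870912) (P2 := 0) (W2 := 536870912) (P3 := 134217728) (W3 := 67108864) (N0 := 3)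
    rfl k0_mm_102

noncomputable def f_mm_112 : ℕ → ℕ → ℕ → ℕ → Bool := onCell 536870912 536870912 0 536870912 134217728 67108864
    (rowN 3 2 false false false .dn 1 1 2 (qsf 536870912 536870912 0 536870912 1) ndN0q1 ndN0q2 pcN1 Cut.none Ext.none)

def k0_mm_112 : ∃ t, chk3 f_mm_112 t 1 1 1 = true :=
  ⟨(l 5), by decide +kernel⟩

theorem c_mm_112 : CertN 536870912 536870912 0 536870912 134217728 67108864 3 false false false .dn 1 1 2
    ndN0q1 ndN0q2 pcN1 Cut.none Ext.none :=
  certN2 (fam := false) (s1 := false) (s2 := false) (a := 1) (b := 1) (c := 2) (cn := .dn) (n1 := ndN0q1) (n2 := ndN0q2) (pc := pcN1) (cut := Cut.none) (xt := Ext.none) (P1 := 536870912) (W1 := 536870912) (P2 := 0) (W2 := 536870912) (P3 := 134217728) (W3 := 67108864) (N0 := 3)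
    rfl (fun _ => rfl) k0_mm_112

noncomputable def f_mm_202 : ℕ → ℕ → ℕ → ℕ → Bool := onCell 0 536870912 0 536870912 134217728 67108864
    (rowN 3 0 false false false .pp 2 0 2 (qsf 0 536870912 0 536870912 0) ndN0q2 ndN0q2 pcN0 Cut.none Ext.none)

def k0_mm_202 : ∃ t, chk3 f_mm_202 t 1 1 1 = true :=
  ⟨(l 3), by decide +kernel⟩

theorem c_mm_202 : CertN 0 536870912 0 536870912 134217728 67108864 3 false false false .pp 2 0 2
    ndN0q2 ndN0q2 pcN0 Cut.none Ext.none :=
  certN0 (fam := false) (s1 := false) (s2 := false) (a := 2) (b := 0) (c := 2) (cn := .pp) (n1 := ndN0q2) (n2 := ndN0q2) (pc := pcN0) (cut := Cut.none) (xt := Ext.none) (P1 := 0) (W1 := 536870912) (P2 := 0) (W2 := 536870912) (P3 := 134217728) (W3 := 67108864) (N0 := 3)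
    rfl k0_mm_202

end Pool.Agent.Strip051.G.I1_8_3_16.Tab.C.NB00

namespace Pool.Agent.Strip051.G.I1_8_3_16.Tab.C.NB01

open Pool.Agent.Strip051.PB Pool.Agent.Strip051.PB.T
open Pool.Agent.Strip051.G.I1_8_3_16.Tab

noncomputable def f_pp_001 : ℕ → ℕ → ℕ → ℕ → Bool := onCell 0 536870912 536870912 536870912 134217728 67108864
    (rowN 3 0 false true true .up 0 0 1 (qsf 0 536870912 536870912 536870912 0) ndN0q0 ndN1q1 pcN0 Cut.none Ext.none)

def k0_pp_001 : ∃ t, chk3 f_pp_001 t 1 1 1 = true :=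
  ⟨(l 3), by decide +kernel⟩

theorem c_pp_001 : CertN 0 536870912 536870912 536870912 134217728 67108864 3 false true true .up 0 0 1
    ndN0q0 ndN1q1 pcN0 Cut.none Ext.none :=
  certN0 (fam := false) (s1 := true) (s2 := true) (a := 0) (b := 0) (c := 1) (cn := .up) (n1 := ndN0q0) (n2 := ndN1q1) (pc := pcN0) (cut := Cut.none) (xt := Ext.none) (P1 := 0) (W1 := 536870912) (P2 := 536870912) (W2 := 536870912) (P3 := 134217728) (W3 := 67108864) (N0 := 3)
    rfl k0_pp_001

noncomputable def f_pp_011 : ℕ → ℕ → ℕ → ℕ → Bool := onCell 0 536870912 536870912 536870912 134217728 67108864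
    (rowN 3 0 false true true .pnn 0 1 1 (qsf 0 536870912 536870912 536870912 1) ndN0q0 ndN1q1 pcN1 Cut.none Ext.none)

def k0_pp_011 : ∃ t, chk3 f_pp_011 t 1 1 1 = true :=
  ⟨(l 3), by decide +kernel⟩

theorem c_pp_011 : CertN 0 536870912 536870912 536870912 134217728 67108864 3 false true true .pnn 0 1 1
    ndN0q0 ndN1q1 pcN1 Cut.none Ext.none :=
  certN0 (fam := false) (s1 := true) (s2 := true) (a := 0) (b := 1) (c := 1) (cn := .pnn) (n1 := ndN0q0) (n2 := ndN1q1) (pc := pcN1) (cut := Cut.none) (xt := Ext.none) (P1 := 0) (W1 := 536870912) (P2 := 536870912) (W2 := 536870912) (P3 := 134217728) (W3 := 67108864) (N0 := 3)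
    rfl k0_pp_011

noncomputable def cut_pp_012_a : Cut := Cut.of [[⟨0, 0, 0, 67108864⟩, ⟨1, 1, 0, 67108864⟩, ⟨2, 1, 0, 67108864⟩]]

noncomputable def f_pp_012_a : ℕ → ℕ → ℕ → ℕ → Bool := onCell 536870912 536870912 0 536870912 134217728 67108864
    (rowN 3 2 false true true .pnp 0 1 2 (qsf 0 536870912 0 536870912 1) ndN0q0 ndN1q2a pcN1 cut_pp_012_a Ext.none)

def k0_pp_012_a : ∃ t, chk3 f_pp_012_a t 2 1 1 = true :=
  ⟨(l 3), by decide +kernel⟩

def k1_pp_012_a : ∃ t, chk3 f_pp_012_a t 6 1 1 = true :=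
  ⟨(b (a (b (l 3) (l 3)) (b (a (b (a (l 28085137095) (l 20569041223)) (a (l 3) (b (l 30769534327) (l 3)))) (b (a (l 16937624) (l 16966160)) (a (b (l 16910568) (l 30769553351)) (c (l 16955656) (l 16903784))))) (a (l 3) (b (a (l 3) (b (c (l 16916496) (l 16875160)) (l 3))) (l 3))))) (l 3)), by decide +kernel⟩

def k2_pp_012_a : ∃ t, chk3 f_pp_012_a t 7 2 1 = true :=
  ⟨(a (b (a (b (c (l 17046568) (l 16951816)) (a (c (l 16991208) (l 16919528)) (c (l 17021928) (l 16926144)))) (b (c (l 17087240) (l 16931728)) (c (l 17052536) (a (l 16919320) (l 16892848))))) (b (a (a (b (c (l 16954392) (l 16892832)) (c (l 16924664) (l 16871344))) (c (l 16950392) (b (l 16900096) (l 16879512)))) (a (c (l 16995008) (b (l 16893736) (l 16872768))) (c (l 17005984) (l 16855456)))) (a (a (b (c (l 30232683543) (l 27011403527)) (l 3)) (b (c (l 16274122711) (l 14126537783)) (c (l 29158945335) (b (l 25937661911) (l 3))))) (a (b (c (l 16949448) (l 16849712)) (c (a (l 16910000) (l 16918312)) (a (l 16829352) (l 16819776))))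 (b (c (l 16958576) (l 16819272)) (c (l 16900696) (a (l 16803032) (l 16777656)))))))) (b (a (b (c (l 17064512) (l 16811704)) (a (l 16817512) (l 16791152))) (b (a (l 16772816) (l 16725792)) (a (l 16749824) (c (l 16769640) (l 16694528))))) (a (b (a (c (l 16996512) (l 16796248)) (c (l 16954280) (l 16688192))) (a (b (c (l 16944648) (l 16753296)) (c (l 16902744) (l 16718352))) (c (b (l 16893064) (l 16841008)) (b (l 16673528) (l 16695552))))) (b (a (c (l 16859192) (l 16678008)) (b (l 16682232) (c (l 16677312) (l 16674792)))) (a (b (c (l 16779392) (l 16672688)) (c (l 16707304) (l 16673152))) (b (c (l 16673584) (l 16671920)) (c (a (l 16672520) (l 16673096)) (l 16671848)))))))), by decide +kernel⟩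

def k3_pp_012_a : ∃ t, chk3 f_pp_012_a t 14 3 1 = true :=
  ⟨(b (a (l 3) (a (b (b (c (a (l 25937688439) (l 28085189527)) (a (l 29695677255) (l 22716347335))) (l 3)) (l 3)) (b (b (c (a (b (l 16893224) (l 16873400)) (l 16878856)) (a (l 16765816) (l 16747712))) (a (b (c (l 16831984) (l 16769968)) (l 3)) (c (b (l 16847352) (l 16775000)) (b (l 16748608) (l 16768048))))) (b (a (l 3) (b (c (l 18958260183) (l 23253217655)) (l 3))) (l 3))))) (l 3)), by decide +kernel⟩

def k4_pp_012_a : ∃ t, chk3 f_pp_012_a t 30 6 1 = true :=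
  ⟨(b (a (b (a (c (l 16866328) (l 16741136)) (c (l 16843048) (l 16727936))) (a (c (b (l 16831736) (l 16808480)) (b (l 16735688) (l 16766760))) (c (b (l 16803912) (l 16777056)) (l 16748648)))) (b (a (c (l 16805736) (l 16714704)) (c (l 16750024) (l 16701488))) (a (c (b (l 16759968) (l 16727776)) (l 16735520)) (c (l 16726640) (l 16722368))))) (a (b (a (b (c (l 11978927415) (l 14663270615)) (c (c (l 18958260551) (l 18421384519)) (b (l 16772176) (l 20031987719)))) (c (b (l 16771600) (c (l 16765344) (l 16767112))) (b (l 16763888) (c (l 16764552) (l 16762072))))) (a (l 3) (a (b (c (l 21105736759) (l 18958244343)) (l 3)) (b (c (c (l 16765256) (l 16773240)) (l 11442045191)) (a (l 3) (c (l 16810767335) (l 14663275639))))))) (b (a (c (b (l 16755688) (l 16755152)) (b (l 16750864) (l 16760936))) (c (b (l 16742040) (l 16752096)) (l 16742824))) (a (b (c (c (l 16766144) (l 16763784)) (c (l 16761504) (l 16759312))) (c (b (c (l 16773248) (l 16770960)) (c (l 9294576279) (l 8757700951))) (b (c (l 16768752)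 (l 16766616)) (a (l 16769464) (l 16769480))))) (b (c (l 16756768) (l 16747472)) (a (c (l 16764672) (l 16760632)) (c (l 16757976) (l 16764680)))))))), by decide +kernel⟩

def k5_pp_012_a : ∃ t, chk3 f_pp_012_a t 31 6 1 = true :=
  ⟨(b (c (a (b (l 16695800) (b (l 16700648) (l 16711048))) (b (a (l 16674888) (l 16675136)) (a (l 16680256) (l 16701096)))) (a (b (l 16687032) (l 16711704)) (b (a (l 16675064) (l 16674176)) (a (l 16680864) (l 16679640))))) (a (b (a (b (c (l 16728272) (l 16724704)) (c (l 16738408) (l 16734888))) (c (l 16719456) (l 16716672))) (a (b (c (l 16737936) (l 16744976)) (c (c (l 16748712) (l 16746976)) (l 16744496))) (c (b (l 16734680) (l 16734176)) (b (b (l 16729424) (l 16734472)) (l 16741992))))) (b (c (a (l 16704288) (l 16692296)) (a (l 16710424) (l 16689184))) (a (c (b (l 16720800) (l 16720224)) (l 16723800)) (c (b (l 16716776) (l 16707592)) (l 16710328)))))), by decide +kernel⟩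

def k6_pp_012_a : ∃ t, chk3 f_pp_012_a t 30 7 1 = true :=
  ⟨(b (a (l 3) (b (a (a (l 3) (b (c (b (c (l 16768408) (l 16766296)) (c (l 16771560) (l 16769568))) (b (l 7683950151) (l 11442049975))) (l 3))) (b (c (a (b (l 16766688) (a (l 15737018167) (l 16769840))) (c (l 16768632) (l 16766760))) (b (c (l 16765744) (l 16763920)) (a (l 7683948599) (l 16766536)))) (c (b (a (c (l 13052670919) (l 11978925607)) (c (l 16770544) (l 16768744))) (a (l 3) (c (c (l 5536478007) (l 5536476263)) (b (l 16766856) (l 16773984))))) (b (a (c (l 16772104) (l 16770368)) (c (l 16772240) (l 16770560))) (a (l 3) (c (l 4999600487) (l 4462726391))))))) (a (l 3) (a (l 3) (a (l 3) (b (b (b (c (l 8220826279) (l 16767200)) (l 3)) (l 3)) (l 3))))))) (l 3)), by decide +kernel⟩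

def k7_pp_012_a : ∃ t, chk3 f_pp_012_a t 62 14 1 = true :=
  ⟨(b (a (b (c (a (c (l 16761880) (l 16760144)) (l 16754272)) (a (l 16757648) (l 16751208))) (c (a (b (l 16763056) (c (l 16768760) (l 16767144))) (b (l 16761568) (l 16763704))) (a (b (l 16765056) (c (l 16770832) (l 16769336))) (c (l 16761744) (l 16760368))))) (b (c (b (l 16741592) (l 16746392)) (l 16746648)) (a (c (c (l 16757600) (l 16756296)) (l 16754440)) (c (l 16749840) (l 16747744))))) (a (b (c (a (a (b (c (l 16774712) (l 16773184)) (l 3)) (b (c (l 16771696) (l 16764984)) (c (l 7683958375) (l 7147085095)))) (b (c (l 16766408) (l 16765080)) (c (b (l 16769864) (l 16772080)) (b (l 16768616) (l 16770888))))) (a (a (b (c (l 16771696) (l 16765024)) (l 3)) (b (l 16768120) (c (l 16772832) (l 16771600)))) (b (l 16765784) (a (a (l 16770376) (l 16768856)) (l 16766384))))) (a (l 3) (a (a (l 3) (b (b (c (l 6073342311) (l 16766928)) (l 3)) (l 3))) (c (a (b (c (l 16771784) (l 16773328)) (l 3)) (b (c (l 16772968) (l 16771912)) (c (l 2852119383)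 (l 16772808)))) (b (c (l 16771520) (l 16770520)) (b (l 16771224) (l 3))))))) (b (c (a (b (l 16761368) (c (l 16763992) (l 16762944))) (b (l 16756968) (l 16759128))) (a (b (l 16761768) (l 16766672)) (c (l 16758016) (l 16757160)))) (a (a (c (b (c (l 16770432) (l 16769440)) (c (b (l 16773792) (l 16772920)) (b (l 16767640) (l 16769456)))) (b (c (l 16768472) (l 16762288)) (b (l 16771552) (a (l 3) (l 16767752))))) (c (b (c (l 16766952) (l 16760800)) (b (a (l 16770944) (l 16763992)) (l 6))) (b (l 16764720) (c (l 16770048) (l 16769272))))) (b (c (c (l 16761712) (l 16760928)) (l 16762416)) (l 6)))))), by decide +kernel⟩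

def k8_pp_012_a : ∃ t, chk3 f_pp_012_a t 63 14 1 = true :=
  ⟨(b (a (b (c (l 16735016) (l 16728072)) (c (a (l 16742720) (l 16735592)) (b (l 16745728) (l 16740160)))) (b (c (l 16719568) (l 16714904)) (c (a (l 16728464) (l 16720024)) (a (l 16739080) (l 16727512))))) (a (b (c (a (c (l 16752696) (l 16751984)) (l 16745312)) (a (l 16750944) (l 16744312))) (a (b (c (l 16757024) (l 16753216)) (l 6)) (l 6))) (b (a (c (l 16738280) (l 16737664)) (l 6)) (l 6)))), by decide +kernel⟩

def k9_pp_012_a : ∃ t, chk3 f_pp_012_a t 31 15 1 = true :=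
  ⟨(a (a (l 3) (b (l 6) (l 3))) (l 6)), by decide +kernel⟩

theorem s10_pp_012_a : ∃ t, chk3 f_pp_012_a t 31 14 1 = true := ex3_a k7_pp_012_a k8_pp_012_a

theorem s11_pp_012_a : ∃ t, chk3 f_pp_012_a t 31 7 1 = true := ex3_b s10_pp_012_a k9_pp_012_a

theorem s12_pp_012_a : ∃ t, chk3 f_pp_012_a t 15 7 1 = true := ex3_a k6_pp_012_a s11_pp_012_a

theorem s13_pp_012_a : ∃ t, chk3 f_pp_012_a t 15 6 1 = true := ex3_a k4_pp_012_a k5_pp_012_a

theorem s14_pp_012_a : ∃ t, chk3 f_pp_012_a t 15 3 1 = true := ex3_b s13_pp_012_a s12_pp_012_a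

theorem s15_pp_012_a : ∃ t, chk3 f_pp_012_a t 7 3 1 = true := ex3_a k3_pp_012_a s14_pp_012_a

theorem s16_pp_012_a : ∃ t, chk3 f_pp_012_a t 7 1 1 = true := ex3_b k2_pp_012_a s15_pp_012_a

theorem s17_pp_012_a : ∃ t, chk3 f_pp_012_a t 3 1 1 = true := ex3_a k1_pp_012_a s16_pp_012_a

theorem s18_pp_012_a : ∃ t, chk3 f_pp_012_a t 1 1 1 = true := ex3_a k0_pp_012_a s17_pp_012_a

theorem c_pp_012_a : CertN 0 536870912 0 536870912 134217728 67108864 3 false true true .pnp 0 1 2
    ndN0q0 ndN1q2a pcN1 cut_pp_012_a Ext.none :=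
  certN2 (fam := false) (s1 := true) (s2 := true) (a := 0) (b := 1) (c := 2) (cn := .pnp) (n1 := ndN0q0) (n2 := ndN1q2a) (pc := pcN1) (cut := cut_pp_012_a) (xt := Ext.none) (P1 := 0) (W1 := 536870912) (P2 := 0) (W2 := 536870912) (P3 := 134217728) (W3 := 67108864) (N0 := 3)
    rfl (fun _ => rfl) s18_pp_012_a

noncomputable def cut_pp_012_b : Cut := Cut.of [[⟨0, 0, 0, 67108864⟩, ⟨1, 1, 0, 67108864⟩, ⟨2, 1, 0, 67108864⟩]]

noncomputable def f_pp_012_b : ℕ → ℕ → ℕ → ℕ → Bool := onCell 536870912 536870912 1239849684 370763052 134217728 67108864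
    (rowN 3 2 false true true .pnp 0 1 2 (qsf 0 536870912 1239849684 370763052 1) ndN0q0 ndN1q2b pcN1 cut_pp_012_b Ext.none)

def k0_pp_012_b : ∃ t, chk3 f_pp_012_b t 1 1 1 = true :=
  ⟨(a (b (l 3) (l 2)) (b (a (a (b (a (l 3) (b (l 3) (l 3))) (l 3)) (b (b (a (a (b (l 16914112) (l 16961656)) (b (l 16947432) (l 16995936))) (b (a (l 16979112) (l 17008192)) (l 17045368))) (a (a (l 17026416) (l 17062832)) (c (l 17146592) (l 17083976)))) (b (a (a (l 3) (l 17133648)) (l 17190040)) (a (l 17159424) (l 17240184))))) (a (b (a (b (b (c (l 17093896) (l 16992512)) (l 17103096)) (c (l 17230352) (l 17134880))) (b (b (c (l 17140352) (l 16980904)) (l 17139056)) (c (l 17308880) (l 17169304)))) (a (b (l 17265672) (l 17320016)) (b (l 17339464) (l 17402928)))) (a (b (b (c (b (l 17133048) (l 17241192)) (b (l 16882648) (l 17010112))) (c (l 17369864) (l 17167400))) (b (l 17403688) (l 17485792))) (b (b (a (c (l 17136056) (l 16800024)) (b (l 16718048) (l 16949704))) (c (l 17385960) (a (l 17119616) (l 17050768))))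 (b (l 17399824) (l 17560600)))))) (a (a (l 2) (b (a (l 3) (b (l 17266288) (l 17271496))) (l 2))) (a (a (b (a (l 17333216) (l 17375160)) (l 2)) (b (l 17440984) (l 17415584))) (b (a (l 17534568) (l 17632704)) (a (l 17507136) (l 17608104))))))), by decide +kernel⟩

theorem c_pp_012_b : CertN 0 536870912 1239849684 370763052 134217728 67108864 3 false true true .pnp 0 1 2
    ndN0q0 ndN1q2b pcN1 cut_pp_012_b Ext.none :=
  certN2 (fam := false) (s1 := true) (s2 := true) (a := 0) (b := 1) (c := 2) (cn := .pnp) (n1 := ndN0q0) (n2 := ndN1q2b) (pc := pcN1) (cut := cut_pp_012_b) (xt := Ext.none) (P1 := 0) (W1 := 536870912) (P2 := 1239849684) (W2 := 370763052) (P3 := 134217728) (W3 := 67108864) (N0 := 3)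
    rfl (fun _ => rfl) k0_pp_012_b

noncomputable def cut_pp_022_a : Cut := Cut.of [[⟨0, 0, 0, 67108864⟩, ⟨1, 1, 0, 67108864⟩, ⟨2, 1, 0, 67108864⟩]]

noncomputable def f_pp_022_a : ℕ → ℕ → ℕ → ℕ → Bool := onCell 1073741824 536870912 0 536870912 134217728 67108864
    (rowN 3 2 false true true .pp 0 2 2 (qsf 0 536870912 0 536870912 2) ndN0q0 ndN1q2a pcN2 cut_pp_022_a Ext.none)

def k0_pp_022_a : ∃ t, chk3 f_pp_022_a t 4 4 1 = true :=
  ⟨(a (a (b (c (l 16789696) (a (l 16597896) (l 16554408))) (c (b (l 16741304) (l 16687344)) (b (l 16605192) (l 16634768)))) (b (c (l 16805424) (l 16552600)) (c (a (l 16721720) (l 16723320)) (l 16593032)))) (c (a (a (b (l 16809496) (l 16721328)) (a (a (l 16758528) (b (l 16808976) (l 16716880))) (b (a (l 16808744) (l 16809072)) (l 16568992)))) (a (a (b (l 16810888) (l 16548360)) (b (l 16813544) (l 16717296))) (a (b (l 16817704) (l 16720160)) (b (l 16823360) (l 16724680))))) (a (a (l 16559936) (a (a (l 16546328) (l 16565080)) (b (l 16573800) (l 16587056))))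 (a (a (a (l 16550808) (l 16545184)) (b (l 16508696) (l 16536832))) (a (l 16538384) (l 16534032)))))), by decide +kernel⟩

def k1_pp_022_a : ∃ t, chk3 f_pp_022_a t 4 5 1 = true :=
  ⟨(a (a (b (c (a (l 16634464) (l 16615816)) (a (l 16624496) (l 16606152))) (a (c (b (l 16637072) (l 16646312)) (l 16651312)) (c (l 16635816) (l 16625568)))) (b (c (a (l 16595816) (l 16574856)) (l 16597968)) (c (a (l 16619936) (l 16603248)) (a (l 16611176) (l 16597488))))) (a (a (b (c (l 16562568) (l 16545872)) (c (l 16588024) (l 16582168))) (a (a (b (c (l 16537280) (l 16541264)) (c (l 16574704) (l 16556784))) (b (c (l 16555624) (l 16559544)) (c (l 16579152) (l 16574256)))) (a (b (c (l 16551768) (l 16556112)) (c (l 16573376) (l 16580608))) (b (c (l 16544416) (l 16549832)) (c (l 16569856) (l 16563568)))))) (a (a (a (b (c (l 16537632) (l 16544072)) (c (l 16570496) (l 16578464))) (b (c (l 16533944) (l 16538040)) (c (l 16567984) (l 16561688)))) (b (c (b (l 16574928) (l 16563808)) (l 16557168)) (c (b (l 16574840)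 (l 16582776)) (b (l 16563928) (l 16578360))))) (b (a (c (l 16565952) (l 16556752)) (c (l 16562320) (l 16546400))) (a (c (b (l 16575424) (l 16577544)) (b (l 16563064) (l 16577096))) (c (b (l 16555344) (l 16577800)) (b (l 16541672) (l 16565704)))))))), by decide +kernel⟩

def k2_pp_022_a : ∃ t, chk3 f_pp_022_a t 5 2 1 = true :=
  ⟨(a (a (a (b (a (c (b (l 16830416) (l 16730768)) (l 16529944)) (c (b (l 16838696) (l 16738168)) (l 16531104))) (b (a (c (l 16563976) (l 16546824)) (c (b (l 16588248) (l 16548208)) (l 16547256))) (a (c (b (l 16556264) (l 16567560)) (b (l 16541480) (l 16554488))) (c (b (l 16556912) (l 1)) (l 16568744))))) (a (b (c (b (l 16847672) (c (l 16965816) (l 16525080))) (b (l 16500400) (l 16509304))) (b (c (l 16565728) (l 16547216)) (l 1))) (b (a (c (b (l 16854552) (l 16751520)) (l 16516208)) (a (c (b (l 16857280) (l 16753040)) (l 16526296)) (c (b (l 16837720) (l 1)) (l 23118538983)))) (l 1)))) (b (b (l 1) (l 1)) (l 1))) (l 1)), by decide +kernel⟩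

def k3_pp_022_a : ∃ t, chk3 f_pp_022_a t 8 6 1 = true :=
  ⟨(a (b (a (c (b (l 16663120) (l 16684664)) (a (b (l 16669872) (l 16686040)) (l 16678920))) (c (b (l 16645104) (l 16659368)) (b (l 16647496) (l 16661376)))) (a (a (b (c (b (l 16696912) (l 16704808)) (l 16701880)) (c (b (l 16712376) (l 16709328)) (b (l 16713344) (l 16720760)))) (b (c (l 16689616) (l 16691008)) (c (l 16698760) (l 16705312)))) (b (c (l 16675616) (l 16674824)) (b (c (l 16683152) (l 16684848)) (c (l 16685024) (l 16691512)))))) (b (b (c (a (l 16627360) (l 16612672)) (a (l 16630048) (l 16613296))) (c (a (l 16641640) (c (l 16630416) (l 16627896))) (a (l 16641984) (l 16624320)))) (b (c (a (b (l 16654320) (l 16663528)) (b (l 16637400) (a (l 16655272) (l 16649200)))) (a (l 16654896) (b (l 16638352) (l 16648384)))) (a (c (b (a (l 16675576) (l 16670688)) (a (l 16685648) (l 16680944))) (b (l 16669592) (l 16674856))) (c (b (a (l 16665296) (l 16648952)) (a (l 16665256) (c (l 16649904) (l 16648288)))) (b (a (l 16661664) (l 16655904))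 (a (l 16672472) (l 16666904)))))))), by decide +kernel⟩

def k4_pp_022_a : ∃ t, chk3 f_pp_022_a t 9 6 1 = true :=
  ⟨(a (a (b (b (c (l 16597328) (l 16597904)) (c (c (l 16616248) (l 16613864)) (l 16613088))) (b (c (b (c (l 16630424) (l 16628328)) (c (l 16640496) (l 16638592))) (b (l 16625320) (l 16630608))) (b (c (a (c (l 16633192) (l 16631448)) (c (l 16626560) (l 16624928))) (a (l 16649880) (l 16633016))) (c (a (c (l 16654384) (l 16642368)) (c (b (l 16634656) (l 16640184)) (l 16646528))) (a (l 16650600) (b (l 16631000) (l 16636784))))))) (a (b (b (c (a (l 16586840) (l 16583320)) (a (l 16568144) (l 16585032))) (c (a (l 16605320) (l 16607224)) (a (l 16601048) (l 16597816)))) (b (c (a (c (l 16626424) (l 16624584)) (c (l 16623192) (l 16621416))) (a (l 16621928) (b (l 16613296) (l 16624184)))) (b (c (a (c (l 16621240) (l 16619720)) (c (l 16628576) (l 16627120))) (a (l 16617464) (l 16635440))) (l 1)))) (b (b (c (a (l 16580752) (l 16580856)) (a (l 16580432) (l 16574936))) (c (a (l 16599448)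 (l 16599216)) (a (l 16595064) (l 16594176)))) (b (c (a (c (l 16620696) (l 16618848)) (b (l 16603400) (l 16613728))) (a (b (l 16610592) (l 16611016)) (b (l 16609520) (l 16620296)))) (l 1))))) (a (a (a (b (c (b (l 16580424) (l 16598496)) (b (l 16573792) (l 16592864))) (b (b (c (l 16602456) (l 16608064)) (l 1)) (l 1))) (b (c (b (l 16580120) (c (l 16589024) (l 16596288))) (b (l 16572808) (l 16591672))) (l 1))) (b (c (b (a (l 16579992) (l 16579952)) (a (c (l 16588688) (l 16585192)) (l 16596992))) (b (l 16592152) (a (l 16590680) (l 16589760)))) (l 1))) (b (b (a (c (a (l 16579936) (l 16579944)) (l 16582568)) (c (l 16581144) (l 16570648))) (l 1)) (l 1)))), by decide +kernel⟩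

def k5_pp_022_a : ∃ t, chk3 f_pp_022_a t 4 7 1 = true :=
  ⟨(a (a (b (b (b (a (c (a (l 16716784) (l 16714832)) (a (l 16717712) (l 16716040))) (c (a (l 16704464) (l 16700392)) (l 16691864))) (b (b (a (c (a (l 16731976) (l 16698416)) (l 16721408)) (c (l 16696024) (l 16706544))) (l 6)) (l 6))) (l 6)) (l 6)) (b (b (a (c (b (a (l 16685680) (c (l 16692384) (l 16669896))) (b (a (l 16704272) (l 16684096)) (l 6))) (b (a (l 16693248) (l 16688680)) (a (l 16693992) (c (l 16690200) (l 16678456))))) (b (c (a (c (l 16676832) (l 16664872)) (c (b (l 16657984) (l 16663504)) (l 16669872))) (a (l 16673200) (c (l 16658008) (l 16656640)))) (b (c (a (c (l 16674568) (l 16673256)) (c (a (l 16670488) (l 16667648)) (l 16678360))) (a (l 16671320) (a (l 16667384) (l 16664656)))) (a (l 6) (a (l 6) (a (l 6) (l 1))))))) (a (l 6) (a (l 6) (a (l 6) (l 1))))) (a (l 6) (l 1)))) (a (a (b (a (b (b (c (c (b (l 16652104) (a (l 16659168) (l 16656168))) (b (l 16650744) (l 16656448))) (b (l 16648704) (a (l 16655984) (l 16653104))))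 (a (c (c (l 16667648) (l 16666552)) (l 16664864)) (l 1))) (l 1)) (b (b (c (b (l 16655640) (l 1)) (l 16645656)) (l 1)) (l 1))) (l 1)) (l 1)) (l 1))), by decide +kernel⟩

def k6_pp_022_a : ∃ t, chk3 f_pp_022_a t 5 3 1 = true :=
  ⟨(b (l 1) (l 1)), by decide +kernel⟩

def k7_pp_022_a : ∃ t, chk3 f_pp_022_a t 3 1 1 = true :=
  ⟨(l 1), by decide +kernel⟩

theorem s8_pp_022_a : ∃ t, chk3 f_pp_022_a t 4 6 1 = true := ex3_a k3_pp_022_a k4_pp_022_a

theorem s9_pp_022_a : ∃ t, chk3 f_pp_022_a t 4 3 1 = true := ex3_b s8_pp_022_a k5_pp_022_a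

theorem s10_pp_022_a : ∃ t, chk3 f_pp_022_a t 2 3 1 = true := ex3_a s9_pp_022_a k6_pp_022_a

theorem s11_pp_022_a : ∃ t, chk3 f_pp_022_a t 4 2 1 = true := ex3_b k0_pp_022_a k1_pp_022_a

theorem s12_pp_022_a : ∃ t, chk3 f_pp_022_a t 2 2 1 = true := ex3_a s11_pp_022_a k2_pp_022_a

theorem s13_pp_022_a : ∃ t, chk3 f_pp_022_a t 2 1 1 = true := ex3_b s12_pp_022_a s10_pp_022_a

theorem s14_pp_022_a : ∃ t, chk3 f_pp_022_a t 1 1 1 = true := ex3_a s13_pp_022_a k7_pp_022_a

theorem c_pp_022_a : CertN 0 536870912 0 536870912 134217728 67108864 3 false true true .pp 0 2 2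
    ndN0q0 ndN1q2a pcN2 cut_pp_022_a Ext.none :=
  certN2 (fam := false) (s1 := true) (s2 := true) (a := 0) (b := 2) (c := 2) (cn := .pp) (n1 := ndN0q0) (n2 := ndN1q2a) (pc := pcN2) (cut := cut_pp_022_a) (xt := Ext.none) (P1 := 0) (W1 := 536870912) (P2 := 0) (W2 := 536870912) (P3 := 134217728) (W3 := 67108864) (N0 := 3)
    rfl (fun _ => rfl) s14_pp_022_a

noncomputable def cut_pp_022_b : Cut := Cut.of [[⟨0, 0, 0, 67108864⟩, ⟨1, 1, 0, 67108864⟩, ⟨2, 1, 0, 67108864⟩]]

noncomputable def f_pp_022_b : ℕ → ℕ → ℕ → ℕ → Bool := onCell 1073741824 536870912 1239849684 370763052 134217728 67108864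
    (rowN 3 2 false true true .pp 0 2 2 (qsf 0 536870912 1239849684 370763052 2) ndN0q0 ndN1q2b pcN2 cut_pp_022_b Ext.none)

def k0_pp_022_b : ∃ t, chk3 f_pp_022_b t 4 2 1 = true :=
  ⟨(b (a (b (a (c (b (l 16866792) (l 17233904)) (a (l 16608176) (l 16600496))) (c (b (l 16978208) (l 17279440)) (l 16556624))) (a (c (l 17505568) (b (l 17017120) (l 17212024))) (c (l 17568280) (b (l 17030112) (l 17239104))))) (a (a (b (c (l 17047456) (l 16566528)) (c (l 17611920) (l 17153984))) (b (c (a (a (l 17181560) (l 17142512)) (b (l 16854600) (l 17328712))) (a (a (l 16557232) (l 16553280)) (a (l 16549328) (l 16545664)))) (a (c (l 17630280) (a (l 17158384) (l 17159648))) (c (l 17642088) (l 17160064))))) (a (b (a (c (b (l 17026168) (l 17334952)) (l 16541104)) (c (b (l 17031040) (l 17342416)) (l 16524920))) (a (c (l 17650640) (l 17160664)) (c (l 17660456) (l 17162232)))) (b (c (a (b (l 17037096) (l 17350656)) (b (l 17044376) (l 17359840))) (a (l 16530976) (l 16527920))) (c (a (l 17670544) (l 17681064))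 (a (l 17164200) (l 17166744))))))) (a (a (b (c (l 17725168) (l 17425128)) (l 17723904)) (b (c (l 17801336) (l 17465864)) (l 17793808))) (a (a (b (l 17676464) (l 17844640)) (a (c (l 17957976) (b (l 17506960) (l 17715048))) (b (l 17537392) (l 17880096)))) (a (a (b (l 17712512) (l 17889176)) (b (l 17721048) (l 17899288))) (c (l 18011024) (b (l 17530256) (l 17748296))))))), by decide +kernel⟩

def k1_pp_022_b : ∃ t, chk3 f_pp_022_b t 5 2 1 = true :=
  ⟨(a (a (a (b (b (c (a (b (l 17052856) (l 17369952)) (b (l 17062408) (l 17380952))) (a (l 16526216) (l 16525816))) (c (l 17697552) (a (l 17170016) (l 17174072)))) (c (l 18037416) (b (l 17543584) (l 17765320)))) (b (b (a (c (b (l 17072696) (l 17392696)) (l 16505480)) (a (c (b (l 17080632) (l 17401848)) (l 16527472)) (c (b (a (l 17084304) (l 16856096)) (l 17240056)) (a (l 16527920) (l 16507432))))) (c (a (l 17716672) (a (l 17726544) (l 17733400))) (a (l 17178904) (a (l 17182984) (a (l 17185128) (l 17186632)))))) (a (b (l 17766120) (l 17949440))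 (c (l 18072960) (b (l 17562232) (l 17787840)))))) (b (b (c (a (b (c (l 17298576) (l 16902536)) (l 17426504)) (b (l 56942067079) (l 17457360))) (a (b (l 16502616) (l 16739344)) (b (l 16489112) (l 16755568)))) (c (a (l 17750840) (l 17781440)) (a (l 17195200) (l 17213008)))) (b (c (l 18019920) (l 17581048)) (l 17983720)))) (b (a (a (b (c (l 90765341591) (b (l 1) (l 16775744))) (c (l 17814992) (l 17235032))) (b (l 1) (c (l 17846704) (l 125661807287)))) (b (l 1) (c (l 175055492263) (a (l 117071919287) (l 17295872))))) (a (b (c (l 18079752) (l 17622408)) (l 18029848)) (b (c (l 18147792) (l 17672768)) (l 18084248))))), by decide +kernel⟩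

def k2_pp_022_b : ∃ t, chk3 f_pp_022_b t 2 3 1 = true :=
  ⟨(a (b (a (b (l 17835856) (l 17859720)) (a (a (l 17954720) (a (l 17980648) (l 17997520))) (a (l 18215640) (l 18034648)))) (a (b (l 17845064) (l 17802824)) (a (a (l 17943504) (l 17973384)) (a (l 18004000) (l 18036624))))) (a (a (a (b (l 18060288) (l 18066272)) (b (a (l 18079816) (l 18093176)) (l 18098304))) (b (l 18114568) (l 18127328))) (b (a (l 18157464) (l 18206776)) (a (l 18174760) (l 18225112))))), by decide +kernel⟩

def k3_pp_022_b : ∃ t, chk3 f_pp_022_b t 3 1 1 = true :=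
  ⟨(a (b (b (l 1) (a (b (c (l 18218240) (l 17723040)) (l 18172560)) (l 207805303991))) (b (a (l 18297336) (l 18406464)) (l 18378088))) (b (l 1) (b (l 248608734903) (l 18580376)))), by decide +kernel⟩

theorem s4_pp_022_b : ∃ t, chk3 f_pp_022_b t 2 2 1 = true := ex3_a k0_pp_022_b k1_pp_022_b

theorem s5_pp_022_b : ∃ t, chk3 f_pp_022_b t 2 1 1 = true := ex3_b s4_pp_022_b k2_pp_022_b

theorem s6_pp_022_b : ∃ t, chk3 f_pp_022_b t 1 1 1 = true := ex3_a s5_pp_022_b k3_pp_022_b

theorem c_pp_022_b : CertN 0 536870912 1239849684 370763052 134217728 67108864 3 false true true .pp 0 2 2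
    ndN0q0 ndN1q2b pcN2 cut_pp_022_b Ext.none :=
  certN2 (fam := false) (s1 := true) (s2 := true) (a := 0) (b := 2) (c := 2) (cn := .pp) (n1 := ndN0q0) (n2 := ndN1q2b) (pc := pcN2) (cut := cut_pp_022_b) (xt := Ext.none) (P1 := 0) (W1 := 536870912) (P2 := 1239849684) (W2 := 370763052) (P3 := 134217728) (W3 := 67108864) (N0 := 3)
    rfl (fun _ => rfl) s6_pp_022_b

noncomputable def f_pp_023 : ℕ → ℕ → ℕ → ℕ → Bool := onCell 0 536870912 1073741824 536870912 134217728 67108864
    (rowN 3 1 false true true .up 0 2 3 (qsf 0 536870912 1610612736 536870912 2) ndN0q0 ndN1q3 pcN2 Cut.none Ext.none)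

def k0_pp_023 : ∃ t, chk3 f_pp_023 t 1 1 1 = true :=
  ⟨(a (b (a (l 1) (b (l 1) (b (l 1) (l 282431013095)))) (a (l 269009711799) (l 273304543527))) (b (a (b (b (l 1) (b (l 1) (b (l 1) (l 18081224)))) (b (b (b (l 18101464) (l 18330824)) (l 18128272)) (l 18138352))) (b (b (l 267397994039) (b (b (l 17944464) (l 18136976)) (b (l 17951456) (l 17956040)))) (b (b (b (l 17956200) (l 17958120)) (l 17939704)) (l 17910240)))) (b (a (l 18168824) (l 17895008)) (a (l 18156664) (l 17847728))))), by decide +kernel⟩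

theorem c_pp_023 : CertN 0 536870912 1610612736 536870912 134217728 67108864 3 false true true .up 0 2 3
    ndN0q0 ndN1q3 pcN2 Cut.none Ext.none :=
  certN1 (fam := false) (s1 := true) (s2 := true) (a := 0) (b := 2) (c := 3) (cn := .up) (n1 := ndN0q0) (n2 := ndN1q3) (pc := pcN2) (cut := Cut.none) (xt := Ext.none) (P1 := 0) (W1 := 536870912) (P2 := 1610612736) (W2 := 536870912) (P3 := 134217728) (W3 := 67108864) (N0 := 3)
    rfl (fun _ => rfl) k0_pp_023

noncomputable def f_pp_033 : ℕ → ℕ → ℕ → ℕ → Bool := onCell 1610612736 536870912 1610612736 536870912 134217728 67108864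
    (rowN 3 2 false true true .pnn 0 3 3 (qsf 0 536870912 1610612736 536870912 3) ndN0q0 ndN1q3 pcN3 Cut.none Ext.none)

def k0_pp_033 : ∃ t, chk3 f_pp_033 t 1 1 1 = true :=
  ⟨(a (b (a (b (a (l 18077584) (l 18224736)) (a (l 17794568) (l 18003384))) (a (l 246460822455) (l 18500376))) (a (b (a (l 17508584) (l 17768704)) (a (l 17237640) (l 17513960))) (a (b (l 17968320) (l 17727616)) (b (l 18093080) (l 17823544))))) (a (b (a (l 262567192503) (l 1)) (l 4)) (l 4))), by decide +kernel⟩

theorem c_pp_033 : CertN 0 536870912 1610612736 536870912 134217728 67108864 3 false true true .pnn 0 3 3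
    ndN0q0 ndN1q3 pcN3 Cut.none Ext.none :=
  certN2 (fam := false) (s1 := true) (s2 := true) (a := 0) (b := 3) (c := 3) (cn := .pnn) (n1 := ndN0q0) (n2 := ndN1q3) (pc := pcN3) (cut := Cut.none) (xt := Ext.none) (P1 := 0) (W1 := 536870912) (P2 := 1610612736) (W2 := 536870912) (P3 := 134217728) (W3 := 67108864) (N0 := 3)
    rfl (fun _ => rfl) k0_pp_033

noncomputable def f_pp_101 : ℕ → ℕ → ℕ → ℕ → Bool := onCell 536870912 536870912 536870912 536870912 134217728 67108864
    (rowN 3 0 false true true .npn 1 0 1 (qsf 536870912 536870912 536870912 536870912 0) ndN0q1 ndN1q1 pcN0 Cut.none Ext.none)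

def k0_pp_101 : ∃ t, chk3 f_pp_101 t 1 1 1 = true :=
  ⟨(l 3), by decide +kernel⟩

theorem c_pp_101 : CertN 536870912 536870912 536870912 536870912 134217728 67108864 3 false true true .npn 1 0 1
    ndN0q1 ndN1q1 pcN0 Cut.none Ext.none :=
  certN0 (fam := false) (s1 := true) (s2 := true) (a := 1) (b := 0) (c := 1) (cn := .npn) (n1 := ndN0q1) (n2 := ndN1q1) (pc := pcN0) (cut := Cut.none) (xt := Ext.none) (P1 := 536870912) (W1 := 536870912) (P2 := 536870912) (W2 := 536870912) (P3 := 134217728) (W3 := 67108864) (N0 := 3)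
    rfl k0_pp_101

noncomputable def f_pp_102_a : ℕ → ℕ → ℕ → ℕ → Bool := onCell 536870912 536870912 0 536870912 134217728 67108864
    (rowN 3 0 false true true .npp 1 0 2 (qsf 536870912 536870912 0 536870912 0) ndN0q1 ndN1q2a pcN0 Cut.none Ext.none)

def k0_pp_102_a : ∃ t, chk3 f_pp_102_a t 1 1 1 = true :=
  ⟨(l 3), by decide +kernel⟩

theorem c_pp_102_a : CertN 536870912 536870912 0 536870912 134217728 67108864 3 false true true .npp 1 0 2
    ndN0q1 ndN1q2a pcN0 Cut.none Ext.none :=
  certN0 (fam := false) (s1 := true) (s2 := true) (a := 1) (b := 0) (c := 2) (cn := .npp) (n1 := ndN0q1) (n2 := ndN1q2a) (pc := pcN0) (cut := Cut.none) (xt := Ext.none) (P1 := 536870912) (W1 := 536870912) (P2 := 0) (W2 := 536870912) (P3 := 134217728) (W3 := 67108864) (N0 := 3)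
    rfl k0_pp_102_a

noncomputable def f_pp_102_b : ℕ → ℕ → ℕ → ℕ → Bool := onCell 536870912 536870912 0 536870912 134217728 67108864
    (rowN 3 1 false true true .npp 1 0 2 (qsf 536870912 536870912 1239849684 370763052 0) ndN0q1 ndN1q2b pcN0 Cut.none Ext.none)

def k0_pp_102_b : ∃ t, chk3 f_pp_102_b t 1 1 1 = true :=
  ⟨(l 3), by decide +kernel⟩

theorem c_pp_102_b : CertN 536870912 536870912 1239849684 370763052 134217728 67108864 3 false true true .npp 1 0 2
    ndN0q1 ndN1q2b pcN0 Cut.none Ext.none :=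
  certN1 (fam := false) (s1 := true) (s2 := true) (a := 1) (b := 0) (c := 2) (cn := .npp) (n1 := ndN0q1) (n2 := ndN1q2b) (pc := pcN0) (cut := Cut.none) (xt := Ext.none) (P1 := 536870912) (W1 := 536870912) (P2 := 1239849684) (W2 := 370763052) (P3 := 134217728) (W3 := 67108864) (N0 := 3)
    rfl (fun _ => rfl) k0_pp_102_b

noncomputable def f_pp_112_a : ℕ → ℕ → ℕ → ℕ → Bool := onCell 536870912 536870912 0 536870912 134217728 67108864
    (rowN 3 0 false true true .dn 1 1 2 (qsf 536870912 536870912 0 536870912 1) ndN0q1 ndN1q2a pcN1 Cut.none Ext.none)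

def k0_pp_112_a : ∃ t, chk3 f_pp_112_a t 1 1 1 = true :=
  ⟨(l 3), by decide +kernel⟩

theorem c_pp_112_a : CertN 536870912 536870912 0 536870912 134217728 67108864 3 false true true .dn 1 1 2
    ndN0q1 ndN1q2a pcN1 Cut.none Ext.none :=
  certN0 (fam := false) (s1 := true) (s2 := true) (a := 1) (b := 1) (c := 2) (cn := .dn) (n1 := ndN0q1) (n2 := ndN1q2a) (pc := pcN1) (cut := Cut.none) (xt := Ext.none) (P1 := 536870912) (W1 := 536870912) (P2 := 0) (W2 := 536870912) (P3 := 134217728) (W3 := 67108864) (N0 := 3)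
    rfl k0_pp_112_a

noncomputable def f_pp_112_b : ℕ → ℕ → ℕ → ℕ → Bool := onCell 536870912 536870912 1239849684 370763052 134217728 67108864
    (rowN 3 0 false true true .dn 1 1 2 (qsf 536870912 536870912 1239849684 370763052 1) ndN0q1 ndN1q2b pcN1 Cut.none Ext.none)

def k0_pp_112_b : ∃ t, chk3 f_pp_112_b t 1 1 1 = true :=
  ⟨(a (b (l 3) (a (b (a (b (a (l 82846548583) (l 3)) (a (l 17254456) (l 17169728))) (l 3)) (a (b (a (l 17422856) (l 17338176)) (l 17704152)) (b (l 135460409335) (a (l 17343856) (l 17259432))))) (l 3))) (l 3)), by decide +kernel⟩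

theorem c_pp_112_b : CertN 536870912 536870912 1239849684 370763052 134217728 67108864 3 false true true .dn 1 1 2
    ndN0q1 ndN1q2b pcN1 Cut.none Ext.none :=
  certN0 (fam := false) (s1 := true) (s2 := true) (a := 1) (b := 1) (c := 2) (cn := .dn) (n1 := ndN0q1) (n2 := ndN1q2b) (pc := pcN1) (cut := Cut.none) (xt := Ext.none) (P1 := 536870912) (W1 := 536870912) (P2 := 1239849684) (W2 := 370763052) (P3 := 134217728) (W3 := 67108864) (N0 := 3)
    rfl k0_pp_112_b

noncomputable def cut_pp_113 : Cut := Cut.of [[⟨0, 1, 0, 39843005⟩, ⟨1, 1, 0, 39843005⟩, ⟨2, 2, 0, 5814905⟩]]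

noncomputable def f_pp_113 : ℕ → ℕ → ℕ → ℕ → Bool := onCell 536870912 536870912 536870912 536870912 134217728 67108864
    (rowN 3 1 false true true .nn 1 1 3 (qsf 536870912 536870912 1610612736 536870912 1) ndN0q1 ndN1q3 pcN1 cut_pp_113 Ext.none)

def k0_pp_113 : ∃ t, chk3 f_pp_113 t 1 1 1 = true :=
  ⟨(b (a (l 3) (l 3)) (a (b (a (b (l 1) (a (l 1) (l 215856779287))) (l 3)) (a (b (a (l 17506712) (l 17455032)) (l 28489904071)) (b (a (l 17374560) (l 17353176)) (a (l 17425328) (l 17296504))))) (b (l 3) (a (b (l 232633989575) (a (l 17158992) (l 17025560))) (b (l 3) (a (l 148881642695) (b (l 3) (a (l 149418193495) (b (l 3) (a (l 151028655799) (b (l 3) (a (l 152102320503) (b (l 3) (a (l 152639152039) (b (l 3) (a (l 153176002967) (l 6))))))))))))))))), by decide +kernel⟩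

theorem c_pp_113 : CertN 536870912 536870912 1610612736 536870912 134217728 67108864 3 false true true .nn 1 1 3
    ndN0q1 ndN1q3 pcN1 cut_pp_113 Ext.none :=
  certN1 (fam := false) (s1 := true) (s2 := true) (a := 1) (b := 1) (c := 3) (cn := .nn) (n1 := ndN0q1) (n2 := ndN1q3) (pc := pcN1) (cut := cut_pp_113) (xt := Ext.none) (P1 := 536870912) (W1 := 536870912) (P2 := 1610612736) (W2 := 536870912) (P3 := 134217728) (W3 := 67108864) (N0 := 3)
    rfl (fun _ => rfl) k0_pp_113

end Pool.Agent.Strip051.G.I1_8_3_16.Tab.C.NB01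

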