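import Pool.Agent.Strip051.G.I1_8_3_16.Tab

/-! # Certificates N12 (generated) -/

set_option linter.all false
set_option maxRecDepth 100000

namespace Pool.Agent.Strip051.G.I1_8_3_16.Tab.C.NB01

open Pool.Agent.Strip051.PB Pool.Agent.Strip051.PB.T
open Pool.Agent.Strip051.G.I1_8_3_16.Tab

noncomputable def cut_pp_123 : Cut := Cut.of [[⟨0, 1, 0, 39843005⟩, ⟨1, 1, 0, 39843005⟩, ⟨2, 2, 0, 5814905⟩]]

noncomputable def f_pp_123 : ℕ → ℕ → ℕ → ℕ → Bool := onCell 536870912 536870912 1073741824 536870912 134217728 67108864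
    (rowN 3 1 false true true .npn 1 2 3 (qsf 536870912 536870912 1610612736 536870912 2) ndN0q1 ndN1q3 pcN2 cut_pp_123 Ext.none)

def k0_pp_123 : ∃ t, chk3 f_pp_123 t 1 1 1 = true :=
  ⟨(a (b (a (b (b (l 17694592) (b (b (l 17720136) (l 17902904)) (b (l 17708608) (l 17705344)))) (b (b (b (l 17698048) (l 17756248)) (l 17664808)) (l 17620176))) (b (b (a (l 17492736) (l 17338224)) (b (b (l 17423928) (l 17413848)) (b (l 17405088) (l 17399528)))) (b (b (b (l 17390696) (l 17385048)) (l 17354696)) (l 17310792)))) (b (a (l 17592384) (l 17304224)) (a (l 17536600) (a (b (l 17353008) (l 2)) (l 2))))) (b (a (b (b (l 17098416) (b (b (l 17098008) (l 17087704)) (b (l 17078952) (l 17073600)))) (b (b (b (l 17065848) (l 62378804551)) (l 17034888)) (l 17179640))) (b (b (a (l 16899368) (a (l 16863600) (b (b (a (l 16798800) (b (a (l 16787072) (b (a (l 16781896) (l 6)) (l 16777152))) (l 16777816))) (l 16781248)) (l 16775120)))) (b (b (l 272831549143) (a (l 16887472) (l 2))) (b (l 251893738359)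 (l 227197683575)))) (b (b (b (l 17076672) (l 2)) (l 2)) (l 2)))) (a (b (a (b (l 17089408) (l 2)) (l 2)) (l 2)) (l 2)))), by decide +kernel⟩

theorem c_pp_123 : CertN 536870912 536870912 1610612736 536870912 134217728 67108864 3 false true true .npn 1 2 3
    ndN0q1 ndN1q3 pcN2 cut_pp_123 Ext.none :=
  certN1 (fam := false) (s1 := true) (s2 := true) (a := 1) (b := 2) (c := 3) (cn := .npn) (n1 := ndN0q1) (n2 := ndN1q3) (pc := pcN2) (cut := cut_pp_123) (xt := Ext.none) (P1 := 536870912) (W1 := 536870912) (P2 := 1610612736) (W2 := 536870912) (P3 := 134217728) (W3 := 67108864) (N0 := 3)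
    rfl (fun _ => rfl) k0_pp_123

noncomputable def f_pp_133 : ℕ → ℕ → ℕ → ℕ → Bool := onCell 536870912 536870912 1610612736 536870912 134217728 67108864
    (rowN 3 0 false true true .dn 1 3 3 (qsf 536870912 536870912 1610612736 536870912 3) ndN0q1 ndN1q3 pcN3 Cut.none Ext.none)

def k0_pp_133 : ∃ t, chk3 f_pp_133 t 1 1 1 = true :=
  ⟨(a (a (a (b (l 1) (b (l 1) (l 341484075815))) (l 1)) (l 1)) (l 1)), by decide +kernel⟩

theorem c_pp_133 : CertN 536870912 536870912 1610612736 536870912 134217728 67108864 3 false true true .dn 1 3 3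
    ndN0q1 ndN1q3 pcN3 Cut.none Ext.none :=
  certN0 (fam := false) (s1 := true) (s2 := true) (a := 1) (b := 3) (c := 3) (cn := .dn) (n1 := ndN0q1) (n2 := ndN1q3) (pc := pcN3) (cut := Cut.none) (xt := Ext.none) (P1 := 536870912) (W1 := 536870912) (P2 := 1610612736) (W2 := 536870912) (P3 := 134217728) (W3 := 67108864) (N0 := 3)
    rfl k0_pp_133

noncomputable def f_pp_202_a : ℕ → ℕ → ℕ → ℕ → Bool := onCell 0 536870912 0 536870912 134217728 67108864
    (rowN 3 0 false true true .pp 2 0 2 (qsf 0 536870912 0 536870912 0) ndN0q2 ndN1q2a pcN0 Cut.none Ext.none)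

def k0_pp_202_a : ∃ t, chk3 f_pp_202_a t 1 1 1 = true :=
  ⟨(l 3), by decide +kernel⟩

theorem c_pp_202_a : CertN 0 536870912 0 536870912 134217728 67108864 3 false true true .pp 2 0 2
    ndN0q2 ndN1q2a pcN0 Cut.none Ext.none :=
  certN0 (fam := false) (s1 := true) (s2 := true) (a := 2) (b := 0) (c := 2) (cn := .pp) (n1 := ndN0q2) (n2 := ndN1q2a) (pc := pcN0) (cut := Cut.none) (xt := Ext.none) (P1 := 0) (W1 := 536870912) (P2 := 0) (W2 := 536870912) (P3 := 134217728) (W3 := 67108864) (N0 := 3)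
    rfl k0_pp_202_a

noncomputable def f_pp_202_b : ℕ → ℕ → ℕ → ℕ → Bool := onCell 0 536870912 1239849684 370763052 134217728 67108864
    (rowN 3 0 false true true .pp 2 0 2 (qsf 0 536870912 1239849684 370763052 0) ndN0q2 ndN1q2b pcN0 Cut.none Ext.none)

def k0_pp_202_b : ∃ t, chk3 f_pp_202_b t 1 1 1 = true :=
  ⟨(l 3), by decide +kernel⟩

theorem c_pp_202_b : CertN 0 536870912 1239849684 370763052 134217728 67108864 3 false true true .pp 2 0 2
    ndN0q2 ndN1q2b pcN0 Cut.none Ext.none :=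
  certN0 (fam := false) (s1 := true) (s2 := true) (a := 2) (b := 0) (c := 2) (cn := .pp) (n1 := ndN0q2) (n2 := ndN1q2b) (pc := pcN0) (cut := Cut.none) (xt := Ext.none) (P1 := 0) (W1 := 536870912) (P2 := 1239849684) (W2 := 370763052) (P3 := 134217728) (W3 := 67108864) (N0 := 3)
    rfl k0_pp_202_b

noncomputable def f_pp_203 : ℕ → ℕ → ℕ → ℕ → Bool := onCell 0 536870912 0 536870912 134217728 67108864
    (rowN 3 1 false true true .up 2 0 3 (qsf 0 536870912 1610612736 536870912 0) ndN0q2 ndN1q3 pcN0 Cut.none Ext.none)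

def k0_pp_203 : ∃ t, chk3 f_pp_203 t 1 1 1 = true :=
  ⟨(l 3), by decide +kernel⟩

theorem c_pp_203 : CertN 0 536870912 1610612736 536870912 134217728 67108864 3 false true true .up 2 0 3
    ndN0q2 ndN1q3 pcN0 Cut.none Ext.none :=
  certN1 (fam := false) (s1 := true) (s2 := true) (a := 2) (b := 0) (c := 3) (cn := .up) (n1 := ndN0q2) (n2 := ndN1q3) (pc := pcN0) (cut := Cut.none) (xt := Ext.none) (P1 := 0) (W1 := 536870912) (P2 := 1610612736) (W2 := 536870912) (P3 := 134217728) (W3 := 67108864) (N0 := 3)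
    rfl (fun _ => rfl) k0_pp_203

noncomputable def cut_pp_213 : Cut := Cut.of [[⟨0, 1, 0, 39843005⟩, ⟨1, 1, 0, 39843005⟩, ⟨2, 2, 0, 5814905⟩]]

noncomputable def f_pp_213 : ℕ → ℕ → ℕ → ℕ → Bool := onCell 0 536870912 1610612736 536870912 134217728 67108864
    (rowN 3 0 false true true .pnn 2 1 3 (qsf 0 536870912 1610612736 536870912 1) ndN0q2 ndN1q3 pcN1 cut_pp_213 Ext.none)

def k0_pp_213 : ∃ t, chk3 f_pp_213 t 1 1 1 = true :=
  ⟨(b (l 3) (a (l 3) (b (l 3) (a (l 3) (b (l 3) (a (l 3) (a (l 3) (b (l 3) (a (l 3) (b (l 3) (b (l 3) (b (l 3) (l 6))))))))))))), by decide +kernel⟩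

theorem c_pp_213 : CertN 0 536870912 1610612736 536870912 134217728 67108864 3 false true true .pnn 2 1 3
    ndN0q2 ndN1q3 pcN1 cut_pp_213 Ext.none :=
  certN0 (fam := false) (s1 := true) (s2 := true) (a := 2) (b := 1) (c := 3) (cn := .pnn) (n1 := ndN0q2) (n2 := ndN1q3) (pc := pcN1) (cut := cut_pp_213) (xt := Ext.none) (P1 := 0) (W1 := 536870912) (P2 := 1610612736) (W2 := 536870912) (P3 := 134217728) (W3 := 67108864) (N0 := 3)
    rfl k0_pp_213

noncomputable def f_pm_001 : ℕ → ℕ → ℕ → ℕ → Bool := onCell 0 536870912 536870912 536870912 134217728 67108864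
    (rowN 3 0 false true false .up 0 0 1 (qsf 0 536870912 536870912 536870912 0) ndN0q0 ndN1q1 pcN0 Cut.none Ext.none)

def k0_pm_001 : ∃ t, chk3 f_pm_001 t 1 1 1 = true :=
  ⟨(l 4), by decide +kernel⟩

theorem c_pm_001 : CertN 0 536870912 536870912 536870912 134217728 67108864 3 false true false .up 0 0 1
    ndN0q0 ndN1q1 pcN0 Cut.none Ext.none :=
  certN0 (fam := false) (s1 := true) (s2 := false) (a := 0) (b := 0) (c := 1) (cn := .up) (n1 := ndN0q0) (n2 := ndN1q1) (pc := pcN0) (cut := Cut.none) (xt := Ext.none) (P1 := 0) (W1 := 536870912) (P2 := 536870912) (W2 := 536870912) (P3 := 134217728) (W3 := 67108864) (N0 := 3)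
    rfl k0_pm_001

noncomputable def f_pm_011 : ℕ → ℕ → ℕ → ℕ → Bool := onCell 0 536870912 536870912 536870912 134217728 67108864
    (rowN 3 0 false true false .pnn 0 1 1 (qsf 0 536870912 536870912 536870912 1) ndN0q0 ndN1q1 pcN1 Cut.none Ext.none)

def k0_pm_011 : ∃ t, chk3 f_pm_011 t 1 1 1 = true :=
  ⟨(l 4), by decide +kernel⟩

theorem c_pm_011 : CertN 0 536870912 536870912 536870912 134217728 67108864 3 false true false .pnn 0 1 1
    ndN0q0 ndN1q1 pcN1 Cut.none Ext.none :=
  certN0 (fam := false) (s1 := true) (s2 := false) (a := 0) (b := 1) (c := 1) (cn := .pnn) (n1 := ndN0q0) (n2 := ndN1q1) (pc := pcN1) (cut := Cut.none) (xt := Ext.none) (P1 := 0) (W1 := 536870912) (P2 := 536870912) (W2 := 536870912) (P3 := 134217728) (W3 := 67108864) (N0 := 3)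
    rfl k0_pm_011

noncomputable def cut_pm_012_a : Cut := Cut.of [[⟨0, 0, 0, 67108864⟩, ⟨1, 1, 0, 67108864⟩, ⟨2, 1, 0, 67108864⟩], [⟨0, 0, 1, 41943040⟩, ⟨1, 1, 2, 41943040⟩, ⟨2, 1, 0, 16777216⟩]]

noncomputable def f_pm_012_a : ℕ → ℕ → ℕ → ℕ → Bool := onCell 536870912 536870912 0 536870912 134217728 67108864
    (rowN 3 2 false true false .pnp 0 1 2 (qsf 0 536870912 0 536870912 1) ndN0q0 ndN1q2a pcN1 cut_pm_012_a Ext.none)

def k0_pm_012_a : ∃ t, chk3 f_pm_012_a t 2 1 1 = true :=
  ⟨(b (a (a (l 2) (b (l 2) (l 17551992))) (a (b (l 17463168) (l 17587552)) (b (l 17524944) (l 17636176)))) (a (b (a (l 2) (l 17642648)) (b (a (l 17679504) (c (l 17726896) (l 17611200))) (a (c (l 17764448) (b (l 17639096) (l 17644944))) (c (l 17737536) (b (l 17606840) (l 17590064)))))) (b (a (b (l 17652360) (l 17669496)) (b (l 17681368) (l 17676672))) (b (a (c (l 17729608) (l 17736872)) (c (b (l 17736544) (l 17711792)) (b (l 17561016) (l 17526056)))) (a (c (b (l 17715144) (l 17681968)) (b (l 17559400)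 (a (l 17537368) (l 17491944)))) (b (c (l 17668104) (a (l 17500352) (l 17438336))) (c (a (l 17622912) (l 17565152)) (a (b (l 17452240) (l 17412088)) (b (l 17376120) (c (l 17379872) (l 17230968))))))))))), by decide +kernel⟩

def k1_pm_012_a : ∃ t, chk3 f_pm_012_a t 3 2 1 = true :=
  ⟨(a (a (b (l 17591296) (c (l 17772048) (l 17582880))) (b (c (l 17740256) (l 17502624)) (c (l 17990024) (a (l 17548176) (l 17474192))))) (a (b (a (c (l 17731976) (l 17387736)) (c (l 17652848) (b (l 17206072) (l 17193968)))) (a (c (b (l 17755400) (l 17710888)) (b (l 17366488) (l 17283376))) (b (c (l 17635448) (l 17123536)) (c (a (l 17593088) (l 17468968)) (a (l 17067384) (l 16859520)))))) (b (a (c (b (l 17460744) (l 17453440)) (b (l 16863472) (l 16815544))) (b (c (a (l 17187192) (l 16894896)) (a (l 16581648) (l 16549976))) (a (c (l 17147040) (l 16527280)) (c (l 16822064) (l 16496968))))) (a (b (c (a (l 17455792) (l 17266856)) (a (l 16814120) (l 16515240))) (c (a (l 17102864) (b (l 17115032) (l 16959304)))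 (a (l 16578248) (l 16531856)))) (b (a (c (l 16742400) (l 16487056)) (c (b (l 16677488) (l 16516408)) (b (l 16465872) (l 16471664)))) (a (c (b (l 16780176) (l 16563432)) (b (l 16466928) (l 16480864))) (c (b (a (l 16468552) (l 16453480)) (a (l 16482752) (l 16468248))) (b (l 16460992) (l 16465704))))))))), by decide +kernel⟩

def k2_pm_012_a : ∃ t, chk3 f_pm_012_a t 12 3 1 = true :=
  ⟨(b (b (c (l 17793704) (l 17578568)) (a (l 17659384) (c (l 17747608) (l 17490512)))) (b (c (a (l 17692688) (b (l 17674896) (l 17600176))) (a (b (l 17491576) (l 17429776)) (b (l 17401144) (a (l 17348368) (l 17275168))))) (b (a (c (l 17589992) (a (l 17372384) (l 17315328))) (c (a (l 17523648) (l 17400200)) (a (b (l 17272944) (l 17214552)) (b (l 17187656) (c (l 17198616) (l 17041952)))))) (a (c (b (l 17512696) (a (l 17475560) (l 17421784))) (b (a (l 17298048) (c (l 17296464) (l 17167040))) (a (c (l 17299472) (l 17181320)) (c (l 17210952) (b (l 17120688) (a (l 17109392) (l 17065720))))))) (c (b (a (l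 17429584) (c (l 17431800) (l 17279112))) (a (c (l 17423520) (l 17286224)) (c (l 17347632) (b (l 17218304) (a (l 17200048) (l 17149648)))))) (b (a (c (l 17220176) (b (l 17095616) (l 17061920))) (c (b (l 17144056) (l 17105624)) (b (l 16987912) (a (l 16980600) (l 14))))) (a (c (b (l 17166760) (a (l 17152264) (l 17105048))) (b (a (l 17052312) (l 17000424)) (a (b (l 17026024) (l 16987240)) (c (l 16999168) (l 14))))) (b (c (a (l 17093120) (l 17037264)) (a (c (l 16980744) (l 14)) (l 14))) (c (a (b (l 17063136) (l 17021816)) (c (l 17034072) (l 14))) (l 14)))))))))), by decide +kernel⟩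

def k3_pm_012_a : ∃ t, chk3 f_pm_012_a t 13 6 1 = true :=
  ⟨(b (a (l 17468880) (c (l 17725136) (l 17358608))) (a (c (l 17698352) (b (l 17415280) (l 17342520))) (c (b (l 17634528) (l 17523112)) (b (l 17239392) (a (l 17193312) (l 17053504)))))), by decide +kernel⟩

def k4_pm_012_a : ∃ t, chk3 f_pm_012_a t 13 14 1 = true :=
  ⟨(a (c (b (l 17588648) (a (l 17517160) (l 17437872))) (b (a (l 17293664) (l 17194360)) (a (b (l 17212488) (l 17149352)) (b (l 17097168) (l 16980904))))) (b (c (a (l 17475184) (l 17301664)) (a (l 17001968) (l 16644664))) (c (a (b (l 17372392) (l 17249744)) (b (l 17198176) (c (l 17264800) (l 17021616)))) (a (b (l 16948560) (l 16734920)) (b (l 16755880) (l 16653432)))))), by decide +kernel⟩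

def k5_pm_012_a : ∃ t, chk3 f_pm_012_a t 26 15 1 = true :=
  ⟨(b (c (a (b (l 17421712) (l 17262704)) (b (l 17284128) (c (l 17334768) (l 17102080)))) (a (b (l 16932264) (c (l 17089232) (b (l 16934816) (l 16895184)))) (a (b (l 16979072) (l 16684720)) (b (l 16880624) (l 16685144))))) (c (b (a (c (l 17347088) (b (l 17199408) (l 17155632))) (c (b (l 17264120) (l 17213984)) (b (l 17011032) (a (l 17060840) (l 14))))) (a (c (b (l 17277672) (a (l 17254784) (l 17200976))) (b (a (l 17139600) (l 17079360)) (a (c (l 17134064) (l 17053296)) (c (l 17073936) (l 14))))) (c (b (a (l 17193528) (l 17128416)) (a (c (l 17185312) (l 17096192)) (c (l 17120304) (l 14)))) (b (a (c (l 17057440) (l 14)) (l 14)) (l 14))))) (b (b (a (c (l 17027840) (l 16686736)) (c (l 16693136) (l 16687896))) (a (c (a (l 17017936) (l 14)) (l 14)) (l 14))) (a (b (c (a (c (l 17016424) (l 14)) (l 14)) (l 14)) (l 14)) (l 14))))), by decide +kernel⟩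

def k6_pm_012_a : ∃ t, chk3 f_pm_012_a t 27 30 1 = true :=
  ⟨(c (a (b (c (l 17308392) (l 17093312)) (c (a (l 17243840) (l 17172064)) (a (l 17034736) (l 16907040)))) (b (c (l 17096456) (l 16682376)) (b (c (l 17031568) (l 16763272)) (c (a (l 17060488) (l 16963056)) (l 16703176))))) (b (a (l 16681672) (c (l 16669320) (l 16659160))) (a (c (l 16690808) (l 16696688)) (b (l 16694544) (a (l 16681784) (l 16680872)))))), by decide +kernel⟩

def k7_pm_012_a : ∃ t, chk3 f_pm_012_a t 54 31 1 = true :=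
  ⟨(b (c (c (a (b (l 17165976) (l 17111264)) (b (l 17088808) (l 14))) (b (l 16703704) (l 14))) (c (b (l 16696320) (l 14)) (b (l 16685720) (a (l 16693648) (l 16693792))))) (c (b (c (a (c (l 17105600) (l 14)) (l 14)) (l 14)) (l 14)) (b (c (l 14) (a (b (l 16699376) (l 16703400)) (b (l 16699984) (l 16704312)))) (b (c (l 14) (a (c (l 14) (a (l 14) (l 16706832))) (c (a (l 14) (l 16710392)) (a (l 16707480) (l 16708168))))) (c (l 14) (c (a (l 14) (a (l 14) (b (l 16713808) (c (l 14) (b (l 16715064) (a (l 14) (l 16717832))))))) (a (a (l 14) (b (l 16710208) (c (l 14) (b (l 16711416) (a (l 14) (l 16712832)))))) (b (a (l 16710960) (l 16711768)) (b (a (l 16715360) (l 16713600)) (a (c (a (l 14) (l 16714680)) (a (l 16713264) (l 16713712))) (c (a (l 16715120) (l 16715576)) (a (l 16714160) (l 16714632))))))))))))), by decide +kernel⟩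

def k8_pm_012_a : ∃ t, chk3 f_pm_012_a t 55 62 1 = true :=
  ⟨(c (b (c (a (l 17000392) (l 16835696)) (a (l 16762960) (l 16698904))) (l 14)) (c (b (l 16702184) (a (l 16700072) (l 16700288))) (b (l 16705952) (a (l 16694128) (l 16694648))))), by decide +kernel⟩

def k9_pm_012_a : ∃ t, chk3 f_pm_012_a t 55 63 2 = true :=
  ⟨(l 14), by decide +kernel⟩

def k10_pm_012_a : ∃ t, chk3 f_pm_012_a t 55 126 3 = true :=
  ⟨(c (a (a (l 14) (l 16716328)) (a (l 16716776) (l 16718256))) (a (b (l 16700776) (l 16705408)) (b (l 16701752) (l 16717176)))), by decide +kernel⟩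

def k11_pm_012_a : ∃ t, chk3 f_pm_012_a t 55 127 3 = true :=
  ⟨(b (c (a (c (l 14) (a (l 14) (l 16713912))) (c (a (l 14) (l 16717408)) (a (l 16714632) (l 16715400)))) (a (c (a (l 16711072) (l 16711800)) (a (l 16708904) (l 16709688))) (c (a (l 16712576) (l 16713400)) (a (l 16710520) (l 16711392))))) (a (c (a (l 14) (c (l 14) (a (l 14) (a (l 14) (b (l 16717760) (c (l 14) (l 16721016))))))) (b (c (a (l 16714608) (l 16715448)) (a (l 16712616) (l 16713504))) (b (c (a (c (l 16716888) (l 16715936)) (c (l 16717776) (l 16716848))) (a (l 16714504) (l 16715448))) (c (a (c (a (l 14) (c (l 14) (l 16718128))) (a (l 16716976) (l 16717440))) (c (a (l 16718824) (l 16719296)) (a (l 16717912) (l 16718400)))) (a (c (a (l 16716040) (l 16716520)) (a (l 16715104) (l 16715592))) (c (a (l 16717008) (l 16717504)) (a (l 16716096) (l 16716608)))))))) (c (b (c (a (l 14) (l 16720944)) (a (l 16718232) (l 16719112))) (b (c (a (l 14) (c (l 14) (l 16722312))) (a (c (l 16720512) (l 16719608)) (c (l 16721440)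 (l 16720560)))) (c (a (l 14) (c (l 14) (a (l 14) (c (l 14) (l 16723632))))) (a (c (a (l 14) (c (l 14) (l 16721800))) (a (l 16721976) (l 16721152))) (c (a (c (l 16722720) (l 16722288)) (l 16723000)) (a (l 16721648) (l 16722160))))))) (b (c (a (l 16716336) (l 16717272)) (a (l 16714448) (l 16715432))) (c (b (a (l 16718256) (l 16719248)) (a (c (a (l 16719784) (l 16720280)) (a (l 16718904) (l 16719408))) (c (a (l 16720792) (l 16721312)) (a (l 16719936) (l 16720464))))) (a (c (a (l 16717360) (l 16717872)) (a (l 16716456) (l 16716984))) (b (l 16717480) (a (l 16718640) (l 16719192))))))))), by decide +kernel⟩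

def k12_pm_012_a : ∃ t, chk3 f_pm_012_a t 14 6 1 = true :=
  ⟨(a (b (c (b (l 17635320) (l 17555536)) (b (l 17173456) (l 17025544))) (c (b (l 17321576) (a (l 17379704) (b (l 17262248) (l 17171016)))) (b (a (l 17024576) (l 16821848)) (a (l 16806712) (l 16626024))))) (b (c (a (l 17312160) (b (l 17310960) (l 17155232))) (b (l 16574696) (a (l 16749672) (l 16530968)))) (b (a (c (b (l 17243336) (l 17153232)) (l 16599688)) (c (b (l 17006968) (l 16888840)) (l 16556672))) (a (c (b (l 17050256) (l 16849200)) (l 16614760)) (c (b (l 16753608) (l 16599448)) (l 16597888)))))), by decide +kernel⟩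

def k13_pm_012_a : ∃ t, chk3 f_pm_012_a t 28 14 1 = true :=
  ⟨(b (c (a (b (l 17260680) (l 17083304)) (b (l 16962536) (c (l 17107160) (l 16792712)))) (a (l 16654280) (b (l 16602216) (l 16612520)))) (a (c (b (c (l 17199608) (l 16923672)) (c (l 17043448) (l 16761848))) (b (l 16634376) (l 16666816))) (c (b (c (l 16959544) (l 16657432)) (c (l 16671416) (l 16653968))) (b (l 16645768) (a (l 16641360) (l 16638280)))))), by decide +kernel⟩

def k14_pm_012_a : ∃ t, chk3 f_pm_012_a t 28 30 1 = true :=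
  ⟨(c (c (a (b (a (l 17015168) (l 16898624)) (a (l 16695256) (l 16692288))) (b (a (l 16761816) (l 16675720)) (a (l 16702520) (l 16700992)))) (a (b (l 16673256) (a (l 16687712) (l 16686184))) (b (a (l 16669776) (l 16667240)) (a (l 16684864) (l 16704728))))) (a (b (a (l 16661072) (l 16658856)) (a (c (l 16679928) (l 16672360)) (c (l 16678816) (l 16671672)))) (b (a (l 16656856) (l 16676056)) (a (c (l 16677920) (l 16671184)) (b (l 16668960) (l 16699984)))))), by decide +kernel⟩

def k15_pm_012_a : ∃ t, chk3 f_pm_012_a t 28 62 1 = true :=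
  ⟨(c (a (c (b (a (l 16738816) (l 16704000)) (l 14)) (a (b (l 16698288) (l 16706120)) (b (l 16697832) (l 16716856)))) (a (c (b (l 16703400) (b (l 16709576) (l 16713896))) (b (l 16697576) (l 16717296))) (c (b (l 16702984) (b (l 16709712) (l 16714392))) (b (l 16697512) (a (l 16707616) (l 16708000)))))) (a (a (c (b (l 16691920) (l 16700680)) (b (l 16685704) (l 16695336))) (b (c (l 16691816) (l 16685944)) (c (l 16701240) (l 16696200)))) (a (b (c (l 16691904) (l 16686384)) (c (l 16712464) (l 16697240))) (b (c (l 16692184) (l 16687000)) (c (l 16713384) (l 16698456)))))), by decide +kernel⟩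

def k16_pm_012_a : ∃ t, chk3 f_pm_012_a t 56 63 2 = true :=
  ⟨(b (c (l 14) (a (b (l 16712336) (c (l 14) (l 16715608))) (b (l 16713120) (c (l 16718840) (l 16716800))))) (a (a (l 14) (a (l 14) (c (l 14) (c (l 14) (b (l 16721104) (b (l 16724760) (c (l 14) (b (l 16726208) (c (l 14) (l 16727280)))))))))) (b (c (l 14) (c (a (l 14) (l 16724256)) (a (l 16721632) (l 16722464)))) (c (l 14) (b (c (a (l 14) (c (l 14) (l 16727560))) (a (l 16728008) (l 16728960))) (b (c (a (l 14) (c (l 14) (l 16729472))) (a (c (l 16727688) (l 16726888)) (c (l 16728696) (l 16727920)))) (c (a (l 14) (c (l 14) (a (l 14) (c (l 14) (l 16730912))))) (a (c (a (l 14) (c (l 14) (l 16729096))) (a (c (l 16728192) (l 16727800)) (c (l 16728712) (l 16728328)))) (c (a (c (l 16730008) (l 16729624)) (c (l 16730536) (l 16730168))) (a (c (l 16729248) (l 16728872)) (l 16730920))))))))))), by decide +kernel⟩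

def k17_pm_012_a : ∃ t, chk3 f_pm_012_a t 56 126 3 = true :=
  ⟨(c (a (b (l 16707584) (c (l 16713464) (l 16711328))) (b (l 16708632) (a (l 16713664) (l 16714416)))) (a (b (l 16702896) (l 16718624)) (b (l 16704216) (l 16720240)))), by decide +kernel⟩

def k18_pm_012_a : ∃ t, chk3 f_pm_012_a t 56 254 3 = true :=
  ⟨(c (a (c (a (l 16718160) (l 16718952)) (a (l 16716208) (l 16717056))) (c (a (l 16719792) (l 16720672)) (a (l 16717952) (l 16718888)))) (a (a (c (l 16714256) (l 16712312)) (c (l 16715168) (l 16713272))) (a (l 16720440) (l 16721464)))), by decide +kernel⟩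

def k19_pm_012_a : ∃ t, chk3 f_pm_012_a t 56 255 3 = true :=
  ⟨(a (c (b (c (a (l 16721824) (l 16722736)) (a (l 16720040) (l 16721008))) (a (b (c (c (l 16724112) (l 16723264)) (c (l 16722408) (l 16721560))) (c (c (a (l 14) (c (l 14) (l 16725456))) (b (l 16724216) (a (l 16724656) (l 16725168)))) (c (a (l 16723512) (l 16724032)) (a (l 16722680) (l 16723208))))) (b (c (c (l 16725080) (l 16724256)) (c (l 16723424) (l 16722600))) (c (c (b (l 16727352) (a (l 16726488) (l 16727008))) (a (l 16725368) (l 16725896))) (c (a (l 16724560) (l 16725096)) (a (l 16723752) (l 16724304))))))) (b (c (a (l 16718248) (l 16719272)) (a (l 16716464) (l 16717536))) (a (c (c (a (l 16721176) (l 16721704)) (a (l 16720328) (l 16720872))) (b (l 16718568) (c (l 16721712) (l 16719568)))) (a (c (c (l 16722248) (l 16721424)) (l 16722808)) (c (c (l 16722808) (l 16721992)) (l 16720776)))))) (c (b (c (a (l 16723704) (l 16724704)) (a (l 16722016) (l 16723072))) (b (c (a (c (l 16726088) (l 16725288)) (c (l 16727144)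 (l 16726360))) (a (l 16724080) (l 16725200))) (c (a (c (a (l 16728528) (l 16727752)) (a (l 16726432) (l 16726984))) (c (a (l 16728304) (l 16728864)) (a (l 16727544) (l 16728112)))) (a (c (a (l 16725648) (l 16726216)) (a (l 16724864) (l 16725440))) (c (a (l 16726784) (l 16727368)) (a (l 16726024) (l 16726616))))))) (b (c (a (l 16720336) (l 16721440)) (a (l 16718648) (l 16719808))) (b (c (a (l 16722472) (l 16723640)) (a (l 16720864) (l 16722080))) (c (a (a (l 16723688) (l 16724280)) (a (l 16724880) (l 16725496))) (a (c (l 16722744) (l 16721960)) (c (l 16723984) (l 16723224)))))))), by decide +kernel⟩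

def k20_pm_012_a : ∃ t, chk3 f_pm_012_a t 57 126 2 = true :=
  ⟨(c (c (a (l 14) (a (l 14) (l 16728608))) (a (b (l 16717280) (l 16732480)) (a (l 16731336) (l 16731960)))) (a (b (l 16724560) (c (l 16730560) (l 16718160))) (b (l 16725680) (c (l 16731960) (l 16730168))))), by decide +kernel⟩

def k21_pm_012_a : ∃ t, chk3 f_pm_012_a t 114 127 2 = true :=
  ⟨(b (c (c (l 14) (a (l 14) (l 16732864))) (c (a (l 16725072) (l 16725928)) (a (l 16723336) (l 16724248)))) (c (a (l 14) (a (l 14) (a (l 14) (c (l 14) (b (l 16731904) (c (l 14) (b (l 16733512) (c (l 14) (l 16734672))))))))) (b (c (a (c (l 16729304) (l 16728520)) (c (l 16730280) (l 16729512))) (a (l 16729952) (l 16730992))) (c (b (a (c (l 16732552) (l 16730488)) (c (l 16732280) (l 16731552))) (a (c (a (l 14) (c (l 14) (b (l 16732384) (l 16733040)))) (a (c (l 16732464) (l 16731448)) (c (l 16732352) (l 16731992)))) (c (a (a (l 16734632) (l 16733592)) (a (l 16733872) (l 16734152))) (a (c (l 16732904) (l 16732552)) (c (l 16733472)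 (l 16733120)))))) (b (a (c (l 16729736) (l 16728984)) (c (l 16730824) (l 16730096))) (a (c (a (c (l 16731080) (l 16730712)) (c (l 16731632) (l 16731272))) (a (l 16730168) (l 16730736))) (c (a (l 16733328) (l 16732600)) (a (l 16731312) (l 16731904))))))))), by decide +kernel⟩

def k22_pm_012_a : ∃ t, chk3 f_pm_012_a t 115 127 2 = true :=
  ⟨(b (c (c (a (l 14) (b (l 16729640) (l 16732224))) (a (l 16733712) (l 16734592))) (c (a (l 16726832) (l 16727776)) (a (l 16725200) (l 16726200)))) (c (b (c (a (l 14) (c (l 14) (l 16734496))) (a (c (l 16732776) (l 16732032)) (c (l 16733776) (l 16733064)))) (c (c (l 14) (a (l 14) (a (l 14) (b (l 16736880) (c (l 14) (a (l 14) (l 16738256))))))) (c (a (a (l 14) (b (l 16735120) (c (l 14) (a (l 14) (l 16736464))))) (a (b (l 16735664) (b (l 16736688) (a (l 16737256) (l 16737544)))) (b (l 16736208) (a (a (l 16737416) (l 16737560)) (l 16739080))))) (a (a (a (c (l 14) (l 16735584)) (b (l 16734040) (l 16736712))) (b (l 16734424) (a (l 16735680) (l 16735968))))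 (a (b (l 16734976) (a (l 16736248) (l 16736544))) (b (l 16735536) (c (l 16737112) (l 16736792)))))))) (b (c (a (c (l 16731296) (l 16730552)) (c (l 16732344) (l 16731632))) (a (l 16732064) (l 16733184))) (a (b (c (c (l 16733352) (l 16732648)) (c (l 16731952) (l 16731248))) (c (c (a (c (l 16734728) (l 16734384)) (c (l 16735296) (l 16734960))) (a (c (l 16734040) (l 16733696)) (c (l 16734624) (l 16734288)))) (c (a (l 16733184) (l 16733784)) (a (l 16732504) (l 16733112))))) (b (c (c (l 16734472) (l 16733792)) (c (l 16733112) (l 16732440))) (c (c (a (c (l 16735872) (l 16735544)) (c (l 16736464) (l 16736144))) (a (l 16735048) (l 16735656))) (c (a (l 16734392) (l 16735008)) (a (l 16733728) (l 16734360))))))))), by decide +kernel⟩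

def k23_pm_012_a : ∃ t, chk3 f_pm_012_a t 57 63 3 = true :=
  ⟨(b (c (b (a (l 16709856) (l 16711248)) (a (a (l 16715216) (l 16716056)) (a (l 16716936) (l 16717864)))) (a (a (l 16718992) (l 16719872)) (a (l 16720808) (l 16721784)))) (a (b (c (a (c (l 16721600) (l 16719872)) (c (l 16722568) (l 16720896))) (a (l 16722528) (l 16723632))) (c (b (a (c (l 16725752) (l 16724168)) (c (l 16726840) (l 16725312))) (a (c (c (b (l 16728232) (a (l 16729432) (l 16730008))) (a (l 16730608) (l 16728568))) (c (a (l 16727240) (l 16727832)) (a (l 16726488) (l 16727096)))) (c (c (b (l 16729368) (a (l 16730600) (l 16731200))) (a (l 16729160) (l 16729768))) (b (l 16727544) (a (l 16728824) (l 16729456)))))) (b (a (c (l 16722592) (l 16721008)) (c (l 16723776) (l 16722248))) (b (a (c (l 16724840) (l 16723328)) (c (l 16726088) (l 16724624))) (a (c (c (l 16728032) (l 16725992)) (c (l 16725256) (l 16724528))) (c (c (l 16727992) (l 16727288)) (c (l 16726576) (l 16725872)))))))) (b (c (a (c (l 16723576)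 (l 16721960)) (c (l 16724632) (l 16723072))) (a (l 16724784) (l 16725976))) (c (a (c (b (l 16727968) (c (a (l 16733696) (l 16734312)) (a (l 16730376) (l 16731000)))) (b (l 16726488) (b (l 16728784) (a (l 16730096) (l 16730752))))) (c (b (l 16729136) (a (c (l 16732312) (l 16731640)) (c (l 16732944) (l 16732280)))) (b (l 16727712) (b (l 16730064) (a (l 16731408) (l 16732080)))))) (b (a (c (l 16725016) (l 16723536)) (c (l 16726288) (l 16724864))) (a (c (a (l 16727928) (l 16728600)) (a (l 16726528) (l 16727216))) (c (a (l 16729272) (l 16729960)) (a (l 16727920) (l 16728632))))))))), by decide +kernel⟩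

def k24_pm_012_a : ∃ t, chk3 f_pm_012_a t 29 14 1 = true :=
  ⟨(b (a (c (b (l 16632480) (a (l 16735280) (l 16622944))) (a (l 16619648) (l 16613600))) (c (b (l 16621112) (c (l 16618584) (l 16607528))) (b (l 16576144) (l 16612824)))) (a (c (b (a (l 16641136) (l 16635600)) (a (l 16675152) (c (l 16654624) (l 16645600)))) (b (a (l 16619328) (l 16615200)) (a (l 16635624) (l 16632736)))) (c (b (c (l 16632568) (l 16623024)) (c (l 16669320) (l 16661264))) (b (l 16630448) (a (l 16630112) (l 16648464)))))), by decide +kernel⟩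

def k25_pm_012_a : ∃ t, chk3 f_pm_012_a t 58 30 1 = true :=
  ⟨(b (c (a (c (l 16673152) (l 16665176)) (c (l 16670168) (l 16662728))) (a (l 16674720) (l 16673064))) (c (a (c (b (l 16685040) (l 16693784)) (l 16704080)) (c (b (l 16683112) (l 16692552)) (b (l 16676840) (l 16687048)))) (a (c (l 16697944) (l 16692016)) (b (l 16688816) (l 16700096))))), by decide +kernel⟩

def k26_pm_012_a : ∃ t, chk3 f_pm_012_a t 58 62 1 = true :=
  ⟨(c (a (c (b (l 16713536) (c (l 16724456) (l 16722256))) (b (l 16697912) (a (l 16708432) (l 16708992)))) (c (b (l 16712992) (a (l 16723856) (l 16713328))) (b (l 16708248) (a (l 16709264) (l 16709416))))) (a (b (c (l 16692920) (l 16688064)) (c (l 16719992) (l 16721088))) (b (c (l 16693152) (l 16688688)) (c (a (l 16705248) (l 16705600)) (l 16722272))))), by decide +kernel⟩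

def k27_pm_012_a : ∃ t, chk3 f_pm_012_a t 116 126 2 = true :=
  ⟨(c (c (b (l 16721496) (a (l 16726528) (l 16727352))) (a (l 16732632) (l 16732112))) (b (a (l 16716592) (l 16717400)) (a (l 16722224) (l 16733680)))), by decide +kernel⟩

def k28_pm_012_a : ∃ t, chk3 f_pm_012_a t 116 254 2 = true :=
  ⟨(c (c (a (b (l 16730464) (l 16733144)) (b (l 16731424) (l 16734184))) (a (b (l 16728888) (l 16731664)) (b (l 16729896) (l 16732760)))) (a (c (l 16734000) (l 16727240)) (c (l 16735104) (l 16728400)))), by decide +kernel⟩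

def k29_pm_012_a : ∃ t, chk3 f_pm_012_a t 116 255 2 = true :=
  ⟨(c (b (c (a (c (l 16738824) (l 16735512)) (a (l 16736760) (l 16737320))) (a (c (l 16734816) (l 16734128)) (c (l 16738608) (l 16735320)))) (c (a (a (c (l 14) (b (l 16737424) (b (l 16738464) (a (l 16739040) (l 16739336))))) (c (b (l 16738632) (c (l 14) (a (l 14) (l 16740032)))) (b (l 16737984) (b (l 16739032) (a (l 16739624) (l 16739920)))))) (b (c (a (l 16739184) (l 16739768)) (a (l 16738544) (l 16739144))) (b (c (a (l 16740232) (l 16740832)) (a (l 16739616) (l 16740232))) (c (a (c (a (l 14) (l 16741264)) (l 16740784)) (a (l 16741416) (l 16741720))) (a (c (l 16740488) (l 16740184)) (c (l 16741104) (l 16740808))))))) (a (c (a (b (l 16736768) (a (l 16738064) (l 16738352))) (b (l 16737336) (a (l 16738648) (l 16738944)))) (a (b (l 16736104) (c (l 16737704) (l 16737384))) (b (l 16736688) (c (l 16738296) (l 16737984))))) (a (b (l 16738904) (a (c (l 16739248) (l 16738632)) (c (l 16739552) (l 16738936)))) (b (l 16739520)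 (a (c (l 16739856) (l 16739248)) (c (l 16740168) (l 16739568)))))))) (a (b (c (c (l 16733440) (l 16732752)) (l 16736960)) (b (c (c (l 16735624) (l 16734968)) (c (l 16734320) (l 16733664))) (c (c (a (c (l 16737064) (l 16736744)) (l 16738832)) (a (l 16736272) (l 16736896))) (c (a (l 16735632) (l 16736272)) (a (l 16735000) (l 16735648)))))) (b (c (a (l 16734072) (l 16734688)) (a (l 16732736) (l 16733368))) (b (a (c (l 16736328) (l 16735056)) (c (l 16736968) (l 16735720))) (c (c (a (l 16738144) (l 16740104)) (a (l 16737528) (l 16738200))) (a (c (l 16736920) (l 16736304)) (c (l 16737592) (l 16736992)))))))), by decide +kernel⟩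

def k30_pm_012_a : ∃ t, chk3 f_pm_012_a t 116 63 3 = true :=
  ⟨(b (c (b (l 16723576) (a (l 16718832) (l 16719920))) (a (l 16722800) (l 16723936))) (b (c (a (c (l 16725728) (l 16724216)) (c (l 16726936) (l 16725488))) (a (l 16727208) (l 16729872))) (c (a (c (b (l 16730344) (a (c (l 16733584) (l 16732936)) (c (l 16734232) (l 16733600)))) (b (l 16728968) (a (c (l 16732288) (l 16731632)) (l 16735264)))) (c (b (l 16731672) (a (c (l 16734896) (l 16734272)) (c (l 16735592) (l 16734976)))) (b (l 16730352) (a (l 16735960) (l 16736680))))) (a (c (b (l 16727600) (a (l 16730656) (l 16731368))) (b (l 16726232) (a (l 16729352) (l 16730088)))) (c (b (l 16729032) (a (l 16732080) (l 16732832))) (b (l 16727712) (a (l 16730832) (l 16731608)))))))), by decide +kernel⟩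

def k31_pm_012_a : ∃ t, chk3 f_pm_012_a t 117 63 2 = true :=
  ⟨(b (b (c (a (l 16721448) (l 16721648)) (a (l 16717904) (l 16718288))) (c (a (c (l 16727824) (l 16726232)) (l 16732656)) (a (l 16734344) (l 16724408)))) (b (c (a (c (a (l 16733432) (l 16733640)) (a (l 16732008) (l 16732248))) (c (l 16739312) (l 16732736))) (a (c (l 16735888) (l 16734496)) (c (l 16731408) (l 16730088)))) (c (b (a (c (a (l 16737704) (l 16738008)) (a (l 16736424) (l 16736760))) (c (l 16741264) (l 16737440))) (a (b (a (c (a (l 16739824) (l 16739968)) (l 16741280)) (c (l 16740272) (l 16739088))) (c (a (a (c (c (l 16741720) (l 16741424)) (l 16740984)) (c (l 16741744) (l 16741168))) (c (c (l 16742240) (l 16741952)) (l 16741528))) (a (a (c (l 16740400) (l 16739808)) (c (l 16740592) (l 16740008))) (c (l 16740960) (l 16740392))))) (b (c (c (l 16741272) (l 16740696)) (l 16739840)) (c (c (b (l 16742432) (a (l 16742968) (l 16743464))) (a (l 16742024) (l 16742528))) (c (a (l 16741472) (l 16741984)) (a (l 16740912)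 (l 16741440))))))) (a (b (c (a (l 16735136) (l 16735520)) (a (l 16733856) (l 16734272))) (b (c (a (l 16737448) (l 16737904)) (a (l 16736232) (l 16736728))) (c (a (c (l 16740616) (l 16738720)) (c (l 16739816) (l 16739248))) (a (c (l 16738136) (l 16737552)) (l 16738392))))) (c (b (l 16736240) (b (l 16738704) (c (l 16740632) (l 16740080)))) (b (l 16735040) (b (l 16737560) (a (l 16738968) (l 16739544))))))))), by decide +kernel⟩

def k32_pm_012_a : ∃ t, chk3 f_pm_012_a t 117 63 3 = true :=
  ⟨(b (c (a (b (l 16714432) (l 16720728)) (l 16728728)) (a (l 16724832) (l 16725656))) (b (c (a (c (l 16727864) (l 16726480)) (l 16733368)) (a (l 16730968) (l 16725512))) (b (c (a (c (l 16737968) (l 16731472)) (c (l 16733848) (l 16732648))) (a (c (l 16730216) (l 16728960)) (l 16730864))) (c (a (c (a (c (l 16736152) (l 16735552)) (l 16739024)) (a (l 16737280) (l 16735240))) (a (c (l 16736992) (l 16735856)) (c (l 16737584) (l 16736480)))) (a (c (a (l 16733464) (l 16734072)) (a (l 16732264) (l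 16732912))) (c (l 16735048) (l 16733928))))))), by decide +kernel⟩

def k33_pm_012_a : ∃ t, chk3 f_pm_012_a t 59 30 1 = true :=
  ⟨(b (c (c (b (l 16661264) (l 16670552)) (b (l 16654312) (l 16664320))) (a (l 16671648) (l 16670176))) (c (b (c (l 16690912) (l 16674912)) (c (a (l 16691456) (l 16690248)) (a (l 16686416) (l 16685680)))) (b (c (l 16669608) (l 16664512)) (a (l 16679184) (l 16689616))))), by decide +kernel⟩

def k34_pm_012_a : ∃ t, chk3 f_pm_012_a t 59 62 1 = true :=
  ⟨(c (b (c (a (l 16702088) (l 16701696)) (a (l 16697768) (l 16697784))) (c (a (b (l 16710384) (l 16716168)) (b (l 16710672) (l 16716920))) (a (l 16720176) (b (l 16707248) (l 16713800))))) (b (a (l 16702016) (c (l 16694000) (l 16690344))) (a (c (l 16706168) (l 16702736)) (c (l 16717832) (l 16704248))))), by decide +kernel⟩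

def k35_pm_012_a : ∃ t, chk3 f_pm_012_a t 59 126 1 = true :=
  ⟨(c (c (a (b (l 16732624) (c (l 16728992) (l 16727592))) (b (l 16728520) (c (l 16730384) (l 16729120)))) (a (b (l 16719032) (c (l 16726208) (l 16724824))) (b (l 16720464) (c (l 16727872) (l 16726632))))) (a (c (b (l 16715984) (l 16722776)) (b (l 16713000) (l 16720080))) (c (b (l 16717712) (l 16724784)) (b (l 16715024) (l 16722368))))), by decide +kernel⟩

def k36_pm_012_a : ∃ t, chk3 f_pm_012_a t 59 127 2 = true :=
  ⟨(b (b (c (a (c (l 16733664) (l 16732392)) (c (l 16735256) (l 16734112))) (a (l 16730488) (l 16737648))) (c (a (c (l 16736824) (l 16735632)) (c (l 16741160) (l 16737480))) (a (c (l 16734440) (l 16733256)) (c (l 16736416) (l 16735368))))) (c (b (a (c (a (l 16739552) (l 16740464)) (a (l 16738408) (l 16739384))) (c (a (l 16741392) (l 16742320)) (a (l 16740368) (l 16741368)))) (a (c (b (a (c (l 16742208) (l 16741672)) (c (l 16743160) (l 16742648))) (a (c (a (l 16744864) (l 16744048)) (a (l 16743032) (l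 16743528))) (c (a (l 16744536) (l 16745024)) (a (l 16744040) (l 16744544))))) (b (a (l 16740856) (l 16741880)) (b (a (l 16742088) (l 16743136)) (a (c (l 16743168) (l 16742656)) (c (l 16744216) (l 16743736)))))) (b (c (a (l 16743872) (l 16744848)) (a (l 16742912) (l 16743960))) (c (b (a (c (l 16745352) (l 16744888)) (l 16746120)) (a (c (l 16746184) (l 16745728)) (c (l 16747176) (l 16746760)))) (a (c (a (l 16744584) (l 16745112)) (l 16744392)) (c (l 16745912) (l 16745480))))))) (b (a (c (a (l 16737264) (l 16738304)) (a (l 16736128) (l 16737224))) (c (a (l 16739360) (l 16740424)) (a (l 16738344) (l 16739480)))) (b (a (c (a (l 16739776) (l 16740864)) (a (l 16738696) (l 16739840))) (c (a (l 16741960) (l 16743072)) (l 16741600))) (a (c (a (c (l 16741720) (l 16741200)) (c (l 16742824) (l 16742328))) (b (l 16740576) (a (l 16740848) (l 16742032)))) (c (a (c (l 16743936) (l 16743472)) (c (l 16745056) (l 16744632))) (a (l 16742784) (l 16743992)))))))), by decide +kernel⟩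

def k37_pm_012_a : ∃ t, chk3 f_pm_012_a t 59 127 3 = true :=
  ⟨(b (b (c (a (l 16727968) (l 16730168)) (a (l 16725488) (l 16727952))) (c (a (l 16734104) (l 16739040)) (a (l 16729136) (l 16731712)))) (b (c (a (c (l 16735576) (l 16734472)) (c (l 16737936) (l 16736968))) (a (c (l 16733368) (l 16732264)) (c (l 16735992) (l 16735024)))) (b (c (a (c (l 16738224) (l 16737168)) (c (l 16740672) (l 16739752))) (a (c (l 16736120) (l 16735072)) (c (l 16738832) (l 16737912)))) (c (a (c (a (l 16739376) (l 16740608)) (a (l 16738328) (l 16739632))) (c (a (l 16741872) (l 16743144)) (a (l 16740952) (l 16742288)))) (a (c (a (l 16737288) (l 16738648)) (l 16736952)) (c (a (l 16740024) (l 16741432)) (l 16739848))))))), by decide +kernel⟩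

def k38_pm_012_a : ∃ t, chk3 f_pm_012_a t 15 6 1 = true :=
  ⟨(b (a (a (c (b (l 17078960) (l 16703352)) (b (l 16506848) (l 16507968))) (c (b (l 16664360) (a (l 16580672) (l 16525144))) (b (l 16482464) (l 16526760)))) (b (a (c (a (l 16488056) (l 16495112)) (l 16499976)) (c (a (l 16481200) (l 16495064)) (c (l 16494072) (l 16499368)))) (a (c (a (l 16511816) (l 16519496)) (l 16514216)) (c (a (l 16515952) (b (l 16504664) (l 16537200))) (a (l 16528240) (b (l 16515272) (l 16537040))))))) (a (b (c (a (b (l 16672800) (l 16569808)) (b (l 16546832) (l 16557584))) (a (b (l 16512304) (l 16541448)) (a (l 16543192) (l 16534088)))) (a (c (b (l 16579600) (l 16591992)) (b (l 16553848) (l 16568848))) (c (b (c (l 16566568) (l 16555048)) (a (l 16579776) (l 16572392))) (b (l 16559864) (l 16566976))))) (b (a (c (c (a (l 16553144) (l 16542168)) (l 16535568)) (a (l 16529560) (l 16547264))) (c (a (b (l 16545960) (l 16540656)) (c (l 16558832) (l 16564240))) (a (l 16564656) (b (l 16553992) (l 16567840)))))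 (a (c (b (a (l 16547848) (l 16560904)) (a (l 16565472) (l 16579992))) (a (l 16563656) (l 16580056))) (c (a (c (l 16573136) (l 16578496)) (b (c (l 16571600) (l 16576392)) (c (l 16588224) (l 16592664)))) (a (b (l 16566856) (l 16583352)) (b (l 16593056) (c (l 16596608) (l 16600056))))))))), by decide +kernel⟩

def k39_pm_012_a : ∃ t, chk3 f_pm_012_a t 15 14 1 = true :=
  ⟨(a (b (a (c (b (a (l 16588528) (l 16602280)) (c (l 16626280) (l 16616808))) (b (l 16585344) (l 16613944))) (c (b (a (l 16595880) (l 16589992)) (a (l 16613584) (l 16609176))) (b (l 16586040) (a (l 16597712) (l 16594624))))) (b (c (a (a (l 16641144) (l 16636608)) (a (c (l 16615760) (l 16608608)) (c (l 16633616) (l 16627024)))) (a (a (l 16604024) (l 16621832)) (a (l 16619536) (l 16617800)))) (a (c (a (c (l 16642264) (l 16635168)) (c (l 16638720) (l 16632248))) (a (l 16646104) (l 16644088))) (c (a (c (l 16657504) (l 16651528)) (c (l 16656168) (l 16650624))) (a (l 16643136) (l 16642864)))))) (b (a (b (c (a (l 16584544)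 (l 16582280)) (a (l 16570440) (l 16586016))) (c (a (c (l 16608864) (l 16601816)) (l 16603096)) (a (l 16592000) (l 16605456)))) (b (c (a (c (l 16590176) (l 16594856)) (a (l 16604320) (c (l 16610032) (l 16593016)))) (a (l 16600984) (c (l 16613832) (l 16617032)))) (c (a (c (l 16610024) (l 16614272)) (c (a (l 16621616) (l 16629272)) (a (l 16625472) (l 16632864)))) (a (l 16625088) (a (l 16630488) (a (l 16635760) (l 16639248))))))) (a (b (c (a (c (l 16631184) (l 16625104)) (c (l 16629304) (l 16623696))) (a (l 16616640) (l 16631184))) (c (a (c (l 16650072) (l 16644928)) (c (a (l 16654784) (l 16654496)) (l 16644680))) (a (b (l 16636192) (l 16649752)) (a (l 16644552) (l 16651432))))) (b (a (c (c (l 16631280) (l 16635032)) (a (l 16636496) (l 16643448))) (a (a (c (l 16642432) (l 16648632)) (l 6)) (l 6))) (a (b (c (c (l 16648280) (l 16651624)) (l 16656040)) (l 6)) (l 6)))))), by decide +kernel⟩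

def k40_pm_012_a : ∃ t, chk3 f_pm_012_a t 15 30 1 = true :=
  ⟨(a (b (a (c (a (c (l 16682864) (l 16677120)) (c (l 16680824) (l 16675600))) (a (l 16668960) (c (l 16670616) (l 16665872)))) (c (b (a (l 16661272) (l 16665264)) (a (c (l 16665384) (l 16660792)) (c (l 16665872) (l 16661600)))) (a (c (l 16670912) (l 16666528)) (b (l 16662760) (l 16676576))))) (c (a (a (c (b (l 16677936) (l 16689608)) (b (l 16673168) (l 16685464))) (b (c (l 16677200) (l 16672856)) (c (l 16689608) (l 16685840)))) (b (a (c (l 16677896) (l 16673848)) (c (l 16689472) (l 16675216))) (a (c (l 16701376) (l 16687392)) (c (l 16703048) (l 16699800))))) (a (a (c (l 16693464) (l 16691976)) (b (l 16687680) (l 16690968))) (b (a (l 16678616) (l 16680416)) (a (l 16698160) (c (l 16696712) (l 16693776))))))) (a (a (b (c (b (c (l 16674304) (l 16669872)) (c (l 16677008) (l 16683544))) (b (l 16663696) (l 16670168))) (l 6)) (l 6)) (l 6))), by decide +kernel⟩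

def k41_pm_012_a : ∃ t, chk3 f_pm_012_a t 15 31 1 = true :=
  ⟨(a (b (a (c (b (a (c (l 16712392) (l 16698360)) (c (l 16712944) (l 16709752))) (a (c (b (l 16711416) (l 16717912)) (b (l 16708312) (l 16715112))) (c (b (l 16712352) (l 16729600)) (a (l 16723152) (l 16724056))))) (b (a (c (l 16694936) (l 16691640)) (c (l 16706680) (l 16693240))) (a (c (l 16719352) (l 16716576)) (b (l 16716112) (a (l 16712472) (l 16713656)))))) (a (b (c (c (a (l 16703752) (l 16715336)) (l 16711840)) (c (l 16709008) (l 16706296))) (l 6)) (l 6))) (b (a (c (a (c (b (c (l 16725160) (l 16723896)) (c (l 16737056) (l 16735952))) (b (l 16722024) (c (l 16729608) (l 16728512)))) (a (b (c (l 16725496) (l 16723240)) (l 6)) (l 6))) (a (c (b (l 16719584) (l 16732136)) (b (l 16717200) (l 16724776))) (b (c (l 16721672) (l 16719600)) (l 6)))) (l 6)) (a (c (b (a (c (c (a (l 16743392) (l 16744248)) (a (l 16737160) (l 16743328))) (b (l 16739640) (a (l 16737464) (l 6)))) (l 6)) (a (a (c (c (b (l 16743256) (a (b (l 16745584)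 (a (l 16747176) (l 6))) (l 6))) (b (l 16742376) (a (c (l 16748456) (l 16745424)) (l 6)))) (c (b (l 16741504) (b (l 16744192) (c (l 16746192) (l 16745800)))) (b (l 16740632) (b (l 16743376) (l 16745216))))) (l 6)) (l 6))) (a (a (c (b (l 16738968) (b (l 16739320) (a (c (l 16743176) (l 16742352)) (l 6)))) (b (l 16731792) (b (l 16737584) (c (l 16741896) (l 16741096))))) (b (c (l 16740160) (l 16733128)) (l 6))) (l 6))) (l 6)))) (l 6)), by decide +kernel⟩

theorem s42_pm_012_a : ∃ t, chk3 f_pm_012_a t 15 15 1 = true := ex3_b k40_pm_012_a k41_pm_012_a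

theorem s43_pm_012_a : ∃ t, chk3 f_pm_012_a t 15 7 1 = true := ex3_b k39_pm_012_a s42_pm_012_a

theorem s44_pm_012_a : ∃ t, chk3 f_pm_012_a t 15 3 1 = true := ex3_b k38_pm_012_a s43_pm_012_a

theorem s45_pm_012_a : ∃ t, chk3 f_pm_012_a t 59 127 1 = true := ex3_c k36_pm_012_a k37_pm_012_a

theorem s46_pm_012_a : ∃ t, chk3 f_pm_012_a t 59 63 1 = true := ex3_b k35_pm_012_a s45_pm_012_a

theorem s47_pm_012_a : ∃ t, chk3 f_pm_012_a t 59 31 1 = true := ex3_b k34_pm_012_a s46_pm_012_a

theorem s48_pm_012_a : ∃ t, chk3 f_pm_012_a t 59 15 1 = true := ex3_b k33_pm_012_a s47_pm_012_a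

theorem s49_pm_012_a : ∃ t, chk3 f_pm_012_a t 117 63 1 = true := ex3_c k31_pm_012_a k32_pm_012_a

theorem s50_pm_012_a : ∃ t, chk3 f_pm_012_a t 116 127 2 = true := ex3_b k28_pm_012_a k29_pm_012_a

theorem s51_pm_012_a : ∃ t, chk3 f_pm_012_a t 116 63 2 = true := ex3_b k27_pm_012_a s50_pm_012_a

theorem s52_pm_012_a : ∃ t, chk3 f_pm_012_a t 116 63 1 = true := ex3_c s51_pm_012_a k30_pm_012_a

theorem s53_pm_012_a : ∃ t, chk3 f_pm_012_a t 58 63 1 = true := ex3_a s52_pm_012_a s49_pm_012_a

theorem s54_pm_012_a : ∃ t, chk3 f_pm_012_a t 58 31 1 = true := ex3_b k26_pm_012_a s53_pm_012_a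

theorem s55_pm_012_a : ∃ t, chk3 f_pm_012_a t 58 15 1 = true := ex3_b k25_pm_012_a s54_pm_012_a

theorem s56_pm_012_a : ∃ t, chk3 f_pm_012_a t 29 15 1 = true := ex3_a s55_pm_012_a s48_pm_012_a

theorem s57_pm_012_a : ∃ t, chk3 f_pm_012_a t 29 7 1 = true := ex3_b k24_pm_012_a s56_pm_012_a

theorem s58_pm_012_a : ∃ t, chk3 f_pm_012_a t 57 127 2 = true := ex3_a k21_pm_012_a k22_pm_012_a

theorem s59_pm_012_a : ∃ t, chk3 f_pm_012_a t 57 63 2 = true := ex3_b k20_pm_012_a s58_pm_012_a

theorem s60_pm_012_a : ∃ t, chk3 f_pm_012_a t 57 63 1 = true := ex3_c s59_pm_012_a k23_pm_012_a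

theorem s61_pm_012_a : ∃ t, chk3 f_pm_012_a t 56 127 3 = true := ex3_b k18_pm_012_a k19_pm_012_a

theorem s62_pm_012_a : ∃ t, chk3 f_pm_012_a t 56 63 3 = true := ex3_b k17_pm_012_a s61_pm_012_a

theorem s63_pm_012_a : ∃ t, chk3 f_pm_012_a t 56 63 1 = true := ex3_c k16_pm_012_a s62_pm_012_a

theorem s64_pm_012_a : ∃ t, chk3 f_pm_012_a t 28 63 1 = true := ex3_a s63_pm_012_a s60_pm_012_a

theorem s65_pm_012_a : ∃ t, chk3 f_pm_012_a t 28 31 1 = true := ex3_b k15_pm_012_a s64_pm_012_a

theorem s66_pm_012_a : ∃ t, chk3 f_pm_012_a t 28 15 1 = true := ex3_b k14_pm_012_a s65_pm_012_a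

theorem s67_pm_012_a : ∃ t, chk3 f_pm_012_a t 28 7 1 = true := ex3_b k13_pm_012_a s66_pm_012_a

theorem s68_pm_012_a : ∃ t, chk3 f_pm_012_a t 14 7 1 = true := ex3_a s67_pm_012_a s57_pm_012_a

theorem s69_pm_012_a : ∃ t, chk3 f_pm_012_a t 14 3 1 = true := ex3_b k12_pm_012_a s68_pm_012_a

theorem s70_pm_012_a : ∃ t, chk3 f_pm_012_a t 7 3 1 = true := ex3_a s69_pm_012_a s44_pm_012_a

theorem s71_pm_012_a : ∃ t, chk3 f_pm_012_a t 55 63 3 = true := ex3_b k10_pm_012_a k11_pm_012_a

theorem s72_pm_012_a : ∃ t, chk3 f_pm_012_a t 55 63 1 = true := ex3_c k9_pm_012_a s71_pm_012_a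

theorem s73_pm_012_a : ∃ t, chk3 f_pm_012_a t 55 31 1 = true := ex3_b k8_pm_012_a s72_pm_012_a

theorem s74_pm_012_a : ∃ t, chk3 f_pm_012_a t 27 31 1 = true := ex3_a k7_pm_012_a s73_pm_012_a

theorem s75_pm_012_a : ∃ t, chk3 f_pm_012_a t 27 15 1 = true := ex3_b k6_pm_012_a s74_pm_012_a

theorem s76_pm_012_a : ∃ t, chk3 f_pm_012_a t 13 15 1 = true := ex3_a k5_pm_012_a s75_pm_012_a

theorem s77_pm_012_a : ∃ t, chk3 f_pm_012_a t 13 7 1 = true := ex3_b k4_pm_012_a s76_pm_012_a

theorem s78_pm_012_a : ∃ t, chk3 f_pm_012_a t 13 3 1 = true := ex3_b k3_pm_012_a s77_pm_012_a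

theorem s79_pm_012_a : ∃ t, chk3 f_pm_012_a t 6 3 1 = true := ex3_a k2_pm_012_a s78_pm_012_a

theorem s80_pm_012_a : ∃ t, chk3 f_pm_012_a t 3 3 1 = true := ex3_a s79_pm_012_a s70_pm_012_a

theorem s81_pm_012_a : ∃ t, chk3 f_pm_012_a t 3 1 1 = true := ex3_b k1_pm_012_a s80_pm_012_a

theorem s82_pm_012_a : ∃ t, chk3 f_pm_012_a t 1 1 1 = true := ex3_a k0_pm_012_a s81_pm_012_a

theorem c_pm_012_a : CertN 0 536870912 0 536870912 134217728 67108864 3 false true false .pnp 0 1 2
    ndN0q0 ndN1q2a pcN1 cut_pm_012_a Ext.none :=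
  certN2 (fam := false) (s1 := true) (s2 := false) (a := 0) (b := 1) (c := 2) (cn := .pnp) (n1 := ndN0q0) (n2 := ndN1q2a) (pc := pcN1) (cut := cut_pm_012_a) (xt := Ext.none) (P1 := 0) (W1 := 536870912) (P2 := 0) (W2 := 536870912) (P3 := 134217728) (W3 := 67108864) (N0 := 3)
    rfl (fun _ => rfl) s82_pm_012_a

noncomputable def cut_pm_012_b : Cut := Cut.of [[⟨0, 0, 0, 67108864⟩, ⟨1, 1, 0, 67108864⟩, ⟨2, 1, 0, 67108864⟩], [⟨0, 0, 1, 41943040⟩, ⟨1, 1, 2, 41943040⟩, ⟨2, 1, 0, 16777216⟩]]

noncomputable def f_pm_012_b : ℕ → ℕ → ℕ → ℕ → Bool := onCell 536870912 536870912 1239849684 370763052 134217728 67108864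
    (rowN 3 2 false true false .pnp 0 1 2 (qsf 0 536870912 1239849684 370763052 1) ndN0q0 ndN1q2b pcN1 cut_pm_012_b Ext.none)

def k0_pm_012_b : ∃ t, chk3 f_pm_012_b t 1 1 1 = true :=
  ⟨(a (b (a (l 2) (b (a (l 69358834039) (b (l 17478280) (l 17502056))) (a (l 2) (l 17515680)))) (l 2)) (b (a (b (a (b (l 17564192) (l 17610088)) (b (a (l 17622240) (l 17643496)) (l 17727288))) (a (l 17622328) (l 17846464))) (a (b (b (a (l 17634400) (c (l 17766600) (l 17372136))) (a (l 17794888) (l 17809336))) (b (l 17925872) (l 17981440))) (b (b (a (c (b (l 17564248) (l 17766208)) (b (l 17010624) (l 17263304))) (a (c (l 17508840) (l 16841112)) (c (b (l 17128176) (l 17507616)) (l 16603736)))) (a (c (l 17992056) (l 17555736)) (c (l 17939144) (a (l 17426152) (l 17292160))))) (b (a (l 18001280) (c (l 18235232) (l 17771296))) (a (l 18124648) (l 18202112)))))) (a (b (a (l 2) (l 17735656)) (l 2)) (a (b (l 17967424) (l 17825880)) (b (b (l 18231960) (l 18230128)) (l 18132936)))))), by decide +kernel⟩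

theorem c_pm_012_b : CertN 0 536870912 1239849684 370763052 134217728 67108864 3 false true false .pnp 0 1 2
    ndN0q0 ndN1q2b pcN1 cut_pm_012_b Ext.none :=
  certN2 (fam := false) (s1 := true) (s2 := false) (a := 0) (b := 1) (c := 2) (cn := .pnp) (n1 := ndN0q0) (n2 := ndN1q2b) (pc := pcN1) (cut := cut_pm_012_b) (xt := Ext.none) (P1 := 0) (W1 := 536870912) (P2 := 1239849684) (W2 := 370763052) (P3 := 134217728) (W3 := 67108864) (N0 := 3)
    rfl (fun _ => rfl) k0_pm_012_b

noncomputable def cut_pm_022_a : Cut := Cut.of [[⟨0, 0, 0, 67108864⟩, ⟨1, 1, 0, 67108864⟩, ⟨2, 1, 0, 67108864⟩]]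

noncomputable def f_pm_022_a : ℕ → ℕ → ℕ → ℕ → Bool := onCell 1073741824 536870912 0 536870912 134217728 67108864
    (rowN 3 2 false true false .pp 0 2 2 (qsf 0 536870912 0 536870912 2) ndN0q0 ndN1q2a pcN2 cut_pm_022_a Ext.none)

def k0_pm_022_a : ∃ t, chk3 f_pm_022_a t 4 2 1 = true :=
  ⟨(a (b (a (b (c (a (l 16868952) (l 16848592)) (l 16435840)) (c (a (b (l 16790520) (l 16685280)) (l 16718136)) (l 16461840))) (c (b (l 16828200) (a (l 16705536) (l 16698824))) (b (l 16424360) (l 16446864)))) (b (a (c (a (b (l 16532336) (l 16451536)) (l 16463904)) (b (l 16441520) (l 16470152))) (c (a (l 16458632) (l 16452640)) (l 16473024))) (a (c (a (b (l 16472320) (l 16491232)) (c (l 16485736) (l 16486432))) (a (b (l 16461240) (l 16475144)) (l 16487016))) (c (a (b (l 16453688) (l 16489560)) (b (l 16469168) (l 16514328))) (a (l 16494744) (l 16501464)))))) (c (b (a (b (l 16819992) (l 16678912)) (b (l 16834080) (l 16680984))) (b (a (b (l 16520648) (l 16511256)) (a (l 16521816) (l 16547072)))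 (a (a (l 16541112) (l 16568472)) (b (l 16584688) (a (l 16575656) (l 42446037143)))))) (b (a (b (l 16435800) (l 16466944)) (a (l 16497984) (l 16520648))) (b (a (l 16513856) (l 16564128)) (a (b (l 16522184) (l 16547480)) (b (l 16573648) (a (l 16544832) (l 16591176)))))))), by decide +kernel⟩

def k1_pm_022_a : ∃ t, chk3 f_pm_022_a t 8 6 1 = true :=
  ⟨(a (b (c (a (b (c (l 16492784) (l 16492968)) (c (l 16535128) (l 16535464))) (b (l 16511520) (c (l 16532904) (l 16533824)))) (b (a (l 16492816) (l 16512664)) (a (l 16535568) (l 16534824)))) (b (c (a (c (l 16560624) (l 16561136)) (c (l 16558848) (l 16559920))) (a (a (l 16561552) (l 16561600)) (l 16566408))) (b (c (a (a (l 16572592) (l 16582704)) (l 16576848)) (a (l 16583832) (l 16584016))) (c (a (c (l 16588264) (l 16589032)) (c (l 16598440) (l 16599592))) (a (a (l 16579120) (l 16579560)) (l 16601016)))))) (a (b (b (c (l 16507984) (l 16510448)) (c (l 16546112) (l 16533056))) (b (c (c (l 16587312) (l 16584432)) (l 16581224)) (c (b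 (l 16606816) (a (l 16611808) (l 16626048))) (a (l 16616784) (l 16630944))))) (c (b (b (l 16543240) (l 16576576)) (b (b (l 16583336) (l 16603416)) (b (l 16636432) (c (l 16648248) (l 16645776))))) (b (a (l 16556856) (l 16570784)) (b (l 16608536) (b (l 16619344) (l 16652680))))))), by decide +kernel⟩

def k2_pm_022_a : ∃ t, chk3 f_pm_022_a t 9 6 1 = true :=
  ⟨(b (a (b (c (a (l 16550504) (l 16577896)) (l 16598024)) (a (c (l 16604648) (l 16576536)) (c (c (l 16612880) (l 16609008)) (l 16603400)))) (a (b (c (l 16614984) (l 16595608)) (c (a (b (l 16601048) (l 48351663415)) (b (l 66068393687) (l 146062151223))) (a (l 16633600) (l 98280673943)))) (b (c (a (l 90764450407) (l 150357086823)) (a (l 84858854391) (l 154652035607))) (l 1)))) (a (b (a (c (c (l 16643872) (l 16640656)) (l 16636000)) (b (c (c (l 16640008) (l 16636568)) (l 16631552)) (c (a (l 16651376) (c (l 99891320375) (l 97206960759))) (a (l 16624304) (l 92911990663))))) (a (b (c (c (l 16653520) (l 16650744)) (l 16657168))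 (a (c (l 16667520) (l 16662680)) (c (b (c (l 16666040) (l 16653032)) (a (l 70900311143) (l 1))) (b (l 16670272) (l 88617058903))))) (b (a (c (c (l 86469563751) (l 83785204647)) (b (l 16661224) (l 100428199479))) (l 1)) (l 1)))) (b (a (b (a (c (l 129956034951) (l 109554973495)) (l 1)) (l 1)) (l 1)) (l 1)))), by decide +kernel⟩

def k3_pm_022_a : ∃ t, chk3 f_pm_022_a t 4 7 1 = true :=
  ⟨(a (b (a (b (a (c (a (b (c (l 16595360) (l 16596104)) (c (l 16624848) (l 16636136))) (c (l 16631416) (l 16632360))) (b (a (l 16617856) (l 16618560)) (a (l 16631792) (l 16638008)))) (b (c (a (l 16617320) (l 16621376)) (a (l 16619176) (l 16619704))) (b (c (c (l 16633960) (l 16632808)) (l 16634224)) (l 6)))) (l 6)) (b (a (b (c (c (b (l 16637752) (l 16649888)) (l 16652144)) (a (l 16631472) (l 16645520))) (b (c (c (l 16662320) (l 16660304)) (l 16667904)) (l 6))) (a (b (c (l 16663656) (l 16659392)) (c (c (l 16689400) (l 16687528)) (l 16690032))) (b (c (c (l 16678424) (l 16676264)) (l 16673088)) (c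 (b (c (l 38688088471) (l 37614343655)) (a (l 6) (l 149283494871))) (b (c (l 16692776) (l 16690904)) (a (l 6) (l 163779002743))))))) (a (l 6) (a (l 6) (a (l 6) (l 1)))))) (a (l 6) (a (l 6) (l 1)))) (b (a (b (a (b (a (a (c (c (l 40835560503) (l 16686408)) (l 37614329783)) (c (b (l 61236644759) (l 153041568167)) (b (l 16662848) (l 165389591111)))) (b (c (l 156799660663) (l 167537070295)) (l 1))) (a (b (c (a (l 149820353831) (l 1)) (l 162705254999)) (l 1)) (l 1))) (l 1)) (l 1)) (l 1)) (l 1))), by decide +kernel⟩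

def k4_pm_022_a : ∃ t, chk3 f_pm_022_a t 5 1 1 = true :=
  ⟨(b (a (b (b (a (c (a (l 16858312) (l 16880456)) (l 16523624)) (l 1)) (a (c (a (l 16755216) (c (l 17002296) (l 16565080))) (l 39224725383)) (l 1))) (a (b (a (c (l 38151020679) (l 16558304)) (c (l 138008994343) (l 127271620727))) (a (b (c (l 74658286663) (l 73584524567)) (c (l 151430808471) (l 155188883559))) (l 1))) (l 1))) (l 1)) (b (l 1) (l 1))), by decide +kernel⟩

def k5_pm_022_a : ∃ t, chk3 f_pm_022_a t 3 1 1 = true :=
  ⟨(l 1), by decide +kernel⟩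

theorem s6_pm_022_a : ∃ t, chk3 f_pm_022_a t 4 6 1 = true := ex3_a k1_pm_022_a k2_pm_022_a

theorem s7_pm_022_a : ∃ t, chk3 f_pm_022_a t 4 3 1 = true := ex3_b s6_pm_022_a k3_pm_022_a

theorem s8_pm_022_a : ∃ t, chk3 f_pm_022_a t 4 1 1 = true := ex3_b k0_pm_022_a s7_pm_022_a

theorem s9_pm_022_a : ∃ t, chk3 f_pm_022_a t 2 1 1 = true := ex3_a s8_pm_022_a k4_pm_022_a

theorem s10_pm_022_a : ∃ t, chk3 f_pm_022_a t 1 1 1 = true := ex3_a s9_pm_022_a k5_pm_022_a

theorem c_pm_022_a : CertN 0 536870912 0 536870912 134217728 67108864 3 false true false .pp 0 2 2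
    ndN0q0 ndN1q2a pcN2 cut_pm_022_a Ext.none :=
  certN2 (fam := false) (s1 := true) (s2 := false) (a := 0) (b := 2) (c := 2) (cn := .pp) (n1 := ndN0q0) (n2 := ndN1q2a) (pc := pcN2) (cut := cut_pm_022_a) (xt := Ext.none) (P1 := 0) (W1 := 536870912) (P2 := 0) (W2 := 536870912) (P3 := 134217728) (W3 := 67108864) (N0 := 3)
    rfl (fun _ => rfl) s10_pm_022_a

noncomputable def cut_pm_022_b : Cut := Cut.of [[⟨0, 0, 0, 67108864⟩, ⟨1, 1, 0, 67108864⟩, ⟨2, 1, 0, 67108864⟩]]

noncomputable def f_pm_022_b : ℕ → ℕ → ℕ → ℕ → Bool := onCell 1073741824 536870912 1239849684 370763052 134217728 67108864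
    (rowN 3 2 false true false .pp 0 2 2 (qsf 0 536870912 1239849684 370763052 2) ndN0q0 ndN1q2b pcN2 cut_pm_022_b Ext.none)

def k0_pm_022_b : ∃ t, chk3 f_pm_022_b t 1 1 1 = true :=
  ⟨(a (b (a (b (a (b (c (a (b (c (l 17385584) (l 16920240)) (l 17592784)) (b (l 16988552) (l 17543672))) (a (b (l 16441904) (l 16669752)) (b (l 16428680) (l 16739736)))) (c (b (l 17896288) (l 18149456)) (a (b (l 17201072) (l 17531880)) (l 17099920)))) (b (a (c (b (l 17093608) (l 17508296)) (b (l 16434896) (l 16722064))) (c (b (l 17091400) (l 17486704)) (l 16501888))) (c (b (l 17812488) (l 18061328)) (a (l 17296952) (l 17275120))))) (a (b (c (l 18423488) (b (l 17765856) (l 17970504))) (c (l 18649656) (l 18197392))) (b (c (l 18339216) (l 17795792)) (l 18354056)))) (b (a (b (c (b (a (l 16676646023) (b (a (l 138546256343) (l 1)) (l 53184190359))) (a (l 17479240) (l 17485912))) (a (b (l 16508320) (l 16739104)) (b (l 124587191175) (l 16732592)))) (c (b (l 17770560) (l 18005368)) (a (l 17265352) (l 17268160))))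 (a (b (b (l 1) (c (l 213172290903) (l 145525219879))) (c (l 17885216) (b (l 17146848) (l 17410880)))) (b (l 1) (c (l 254512166487) (l 226057307527))))) (a (b (c (l 18275888) (l 17748008)) (l 18298232)) (b (c (l 18234872) (l 17731776)) (l 18257056))))) (a (b (a (l 18618168) (l 18575928)) (a (l 18627608) (l 18627528))) (b (a (l 18540248) (l 18505544)) (a (l 18627624) (l 18623584))))) (a (b (b (l 1) (a (b (c (l 18249152) (l 288335332055)) (l 18238224)) (l 330212138743))) (b (a (l 18472240) (l 18454960)) (l 18599728))) (b (l 1) (a (a (l 345782433479) (l 353835495447)) (l 1202829766199))))), by decide +kernel⟩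

theorem c_pm_022_b : CertN 0 536870912 1239849684 370763052 134217728 67108864 3 false true false .pp 0 2 2
    ndN0q0 ndN1q2b pcN2 cut_pm_022_b Ext.none :=
  certN2 (fam := false) (s1 := true) (s2 := false) (a := 0) (b := 2) (c := 2) (cn := .pp) (n1 := ndN0q0) (n2 := ndN1q2b) (pc := pcN2) (cut := cut_pm_022_b) (xt := Ext.none) (P1 := 0) (W1 := 536870912) (P2 := 1239849684) (W2 := 370763052) (P3 := 134217728) (W3 := 67108864) (N0 := 3)
    rfl (fun _ => rfl) k0_pm_022_b

noncomputable def f_pm_023 : ℕ → ℕ → ℕ → ℕ → Bool := onCell 0 536870912 1073741824 536870912 134217728 67108864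
    (rowN 3 1 false true false .up 0 2 3 (qsf 0 536870912 1610612736 536870912 2) ndN0q0 ndN1q3 pcN2 Cut.none Ext.none)

def k0_pm_023 : ∃ t, chk3 f_pm_023 t 1 1 1 = true :=
  ⟨(a (b (b (l 1) (a (l 1) (l 302832729063))) (b (a (l 328065144919) (l 18637192)) (a (l 328602735239) (l 18516504)))) (b (a (b (l 272768083639) (l 18596520)) (b (b (l 18540104) (l 18477264)) (l 18357088))) (b (a (l 18483392) (l 18159568)) (a (l 18271256) (l 17920392))))), by decide +kernel⟩

theorem c_pm_023 : CertN 0 536870912 1610612736 536870912 134217728 67108864 3 false true false .up 0 2 3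
    ndN0q0 ndN1q3 pcN2 Cut.none Ext.none :=
  certN1 (fam := false) (s1 := true) (s2 := false) (a := 0) (b := 2) (c := 3) (cn := .up) (n1 := ndN0q0) (n2 := ndN1q3) (pc := pcN2) (cut := Cut.none) (xt := Ext.none) (P1 := 0) (W1 := 536870912) (P2 := 1610612736) (W2 := 536870912) (P3 := 134217728) (W3 := 67108864) (N0 := 3)
    rfl (fun _ => rfl) k0_pm_023

noncomputable def f_pm_033 : ℕ → ℕ → ℕ → ℕ → Bool := onCell 1610612736 536870912 1610612736 536870912 134217728 67108864
    (rowN 3 2 false true false .pnn 0 3 3 (qsf 0 536870912 1610612736 536870912 3) ndN0q0 ndN1q3 pcN3 Cut.none Ext.none)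

def k0_pm_033 : ∃ t, chk3 f_pm_033 t 1 1 1 = true :=
  ⟨(a (b (a (a (b (l 4) (l 18367232)) (l 4)) (l 4)) (a (b (a (l 18010696) (l 18095408)) (a (l 17437968) (l 17667184))) (b (l 4) (a (l 17785376) (l 4))))) (l 4)), by decide +kernel⟩

theorem c_pm_033 : CertN 0 536870912 1610612736 536870912 134217728 67108864 3 false true false .pnn 0 3 3
    ndN0q0 ndN1q3 pcN3 Cut.none Ext.none :=
  certN2 (fam := false) (s1 := true) (s2 := false) (a := 0) (b := 3) (c := 3) (cn := .pnn) (n1 := ndN0q0) (n2 := ndN1q3) (pc := pcN3) (cut := Cut.none) (xt := Ext.none) (P1 := 0) (W1 := 536870912) (P2 := 1610612736) (W2 := 536870912) (P3 := 134217728) (W3 := 67108864) (N0 := 3)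
    rfl (fun _ => rfl) k0_pm_033

noncomputable def f_pm_101 : ℕ → ℕ → ℕ → ℕ → Bool := onCell 0 536870912 536870912 536870912 134217728 67108864
    (rowN 3 2 false true false .npn 1 0 1 (qsf 536870912 536870912 536870912 536870912 0) ndN0q1 ndN1q1 pcN0 Cut.none Ext.none)

def k0_pm_101 : ∃ t, chk3 f_pm_101 t 1 1 1 = true :=
  ⟨(a (b (l 4) (a (b (a (l 31376232519) (l 4)) (b (a (l 18186952) (l 18147848)) (a (l 18130784) (l 18205072)))) (b (l 4) (b (l 4) (a (l 18234328) (l 18210848)))))) (l 4)), by decide +kernel⟩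

theorem c_pm_101 : CertN 536870912 536870912 536870912 536870912 134217728 67108864 3 false true false .npn 1 0 1
    ndN0q1 ndN1q1 pcN0 Cut.none Ext.none :=
  certN2 (fam := false) (s1 := true) (s2 := false) (a := 1) (b := 0) (c := 1) (cn := .npn) (n1 := ndN0q1) (n2 := ndN1q1) (pc := pcN0) (cut := Cut.none) (xt := Ext.none) (P1 := 536870912) (W1 := 536870912) (P2 := 536870912) (W2 := 536870912) (P3 := 134217728) (W3 := 67108864) (N0 := 3)
    rfl (fun _ => rfl) k0_pm_101

noncomputable def cut_pm_102_a : Cut := Cut.of [[⟨0, 1, 0, 67108864⟩, ⟨1, 0, 0, 67108864⟩, ⟨2, 1, 0, 67108864⟩]]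

noncomputable def f_pm_102_a : ℕ → ℕ → ℕ → ℕ → Bool := onCell 536870912 536870912 0 536870912 134217728 67108864
    (rowN 3 0 false true false .npp 1 0 2 (qsf 536870912 536870912 0 536870912 0) ndN0q1 ndN1q2a pcN0 cut_pm_102_a Ext.none)

def k0_pm_102_a : ∃ t, chk3 f_pm_102_a t 2 1 1 = true :=
  ⟨(b (a (a (l 2) (b (l 2) (l 17314760))) (a (b (l 17027976) (b (l 17139824) (l 17148120))) (b (l 16932976) (l 17164024)))) (a (a (b (l 2) (b (l 17656536) (l 17811304))) (b (l 17396960) (b (l 17514712) (l 17554816)))) (b (a (l 17247856) (b (l 17054608) (l 17130256))) (b (a (l 17371040) (l 17220240)) (a (l 17529024) (l 17474984)))))), by decide +kernel⟩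

def k1_pm_102_a : ∃ t, chk3 f_pm_102_a t 3 2 1 = true :=
  ⟨(a (a (b (a (l 16804272) (c (l 16930928) (l 16992168))) (l 16968688)) (b (a (b (a (l 122037662343) (l 141901947751)) (a (l 16837456) (l 120427014119))) (b (l 3) (a (b (l 142438830199) (l 125258905319)) (b (l 3) (l 144049461175))))) (a (l 16872768) (b (a (l 16857440) (b (l 131701388199) (l 16874920))) (l 16820384))))) (a (b (l 3) (a (b (a (b (l 144586318375) (a (l 130627581047) (l 143512561367))) (l 3)) (c (a (b (l 16896640) (l 16863984)) (b (l 141901991079) (l 127943281895))) (a (b (l 16850864) (l 16828208)) (b (l 138143757655) (a (l 16833928) (l 118279486279)))))) (b (l 3) (a (a (b (l 3) (c (l 142438830583) (l 138680573655))) (l 3)) (l 3))))) (l 3))), by decide +kernel⟩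

def k2_pm_102_a : ∃ t, chk3 f_pm_102_a t 6 3 1 = true :=
  ⟨(b (b (a (l 16912552) (l 16933008)) (a (l 16975144) (l 17017920))) (b (a (l 17068208) (a (l 16959944) (l 16891528))) (a (b (l 17147072) (l 17180520)) (a (l 17143104) (l 17106232))))), by decide +kernel⟩

def k3_pm_102_a : ∃ t, chk3 f_pm_102_a t 7 6 1 = true :=
  ⟨(a (a (b (a (l 16803792) (b (l 16835472) (l 16807968))) (l 16821144)) (b (a (c (b (a (l 16874672) (l 129553870327)) (l 16841280)) (b (a (l 16805880) (l 134922355255)) (l 16779640))) (c (b (a (l 143512498615) (l 3)) (a (b (l 131164427895) (l 16833960)) (b (l 144049320167) (l 138680504007)))) (b (a (l 140827933767) (l 3)) (a (b (l 132774854775) (l 16766064)) (b (l 141364783319) (l 135459208695)))))) (c (a (l 16792856) (b (a (l 16806216) (b (l 123111215591) (l 16787352))) (l 16785800))) (b (a (l 16784816) (a (l 16774944) (b (l 124184948311) (l 16771000)))) (l 16831856))))) (a (b (l 3) (a (b (a (c (b (l 139217327543) (a (l 16771880) (l 134922352535))) (b (l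 137606713351) (a (l 16765608) (l 127943020135)))) (c (b (l 3) (a (l 139754188151) (l 3))) (b (l 3) (a (l 139217306087) (l 3))))) (c (a (l 16787040) (b (a (l 127406173079) (b (l 140827930535) (l 136532965047))) (a (l 16774272) (b (l 127406170759) (l 16772232))))) (a (b (l 16769840) (l 16775856)) (b (a (l 126869303175) (b (l 140291049127) (l 135996084471))) (a (l 16770408) (b (l 126869285943) (l 16768256))))))) (c (b (l 3) (a (b (l 3) (a (b (l 138680448391) (l 129016780071)) (b (l 3) (l 140291061207)))) (l 3))) (b (l 3) (a (b (l 3) (a (b (l 138143568087) (l 128479895351)) (b (l 3) (l 140291052103)))) (l 3)))))) (l 3))), by decide +kernel⟩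

def k4_pm_102_a : ∃ t, chk3 f_pm_102_a t 14 14 1 = true :=
  ⟨(a (l 17009168) (b (l 16817912) (l 16829176))), by decide +kernel⟩

def k5_pm_102_a : ∃ t, chk3 f_pm_102_a t 30 14 1 = true :=
  ⟨(a (b (a (l 16785720) (b (l 16776200) (l 16781872))) (l 16791216)) (b (a (c (b (a (l 16772744) (b (a (l 129553645559) (l 138143578375)) (a (l 16771504) (l 129016776887)))) (l 16776384)) (b (a (l 16769104) (b (l 135459224615) (l 128479904119))) (l 16773432))) (c (b (a (b (l 3) (a (l 134922356551) (l 140827933095))) (l 3)) (c (a (b (l 130090530903) (l 16773424)) (b (l 140291064871) (a (l 130627391287) (l 138143582167)))) (a (b (l 130090516743) (l 16771816)) (b (l 140291060967) (a (l 130090516983) (l 137606707735)))))) (b (a (b (l 3) (a (l 132237991575) (l 140827925047))) (l 3)) (a (b (a (l 16767208) (l 130627380679)) (l 16769488)) (b (a (l 139754184535) (l 3)) (a (b (l 130627381447) (l 16767528)) (b (l 140827927207) (l 135996090583)))))))) (a (l 16804776) (b (a (l 16775568) (b (a (l 16771384)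 (b (c (l 131701135223) (l 129553643991)) (l 16770288))) (l 16773368))) (l 16800560))))), by decide +kernel⟩

def k6_pm_102_a : ∃ t, chk3 f_pm_102_a t 31 14 1 = true :=
  ⟨(a (b (l 3) (a (b (a (b (a (c (c (l 134385486695) (l 134385483591)) (b (l 138143574359) (l 131164254391))) (c (c (l 140291065431) (l 140827933159)) (l 140827933815))) (a (c (l 16771728) (l 16769224)) (b (c (a (l 132238001479) (l 138143580407)) (l 135459221191)) (c (a (l 16770920) (l 131701132407)) (l 130090515831))))) (b (l 3) (a (b (l 3) (c (c (l 138143581767) (l 138143579223)) (l 138680446439))) (l 3)))) (a (b (a (l 16773328) (l 16771376)) (l 16775320)) (b (a (b (c (c (l 132238003095) (l 132238000807)) (l 131701126567)) (c (l 16771168) (l 16769160))) (b (c (a (l 139754198183) (l 3)) (l 140827930103)) (c (c (l 136532969527) (l 135996096519)) (a (l 131164255719) (l 138143576375))))) (a (l 16772400) (b (c (c (l 130090519847) (l 129553646983)) (l 130090516823)) (l 16771192)))))) (b (l 3) (a (b (l 3) (a (b (c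 (c (l 138143581703) (l 138143579783)) (a (l 134922351751) (l 141901672887))) (c (c (l 133848615975) (l 132774872471)) (a (l 16768896) (l 133311739991)))) (b (l 3) (l 6)))) (l 3))))) (l 3)), by decide +kernel⟩

def k7_pm_102_a : ∃ t, chk3 f_pm_102_a t 7 15 1 = true :=
  ⟨(a (a (l 17089752) (b (l 16948040) (l 16972576))) (a (b (a (l 16869776) (a (l 16852864) (l 16808624))) (b (a (l 16841520) (l 16852480)) (l 16944744))) (b (a (a (b (a (l 16779904) (b (l 16774496) (l 6))) (l 6)) (l 6)) (l 6)) (l 6)))), by decide +kernel⟩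

theorem s8_pm_102_a : ∃ t, chk3 f_pm_102_a t 15 14 1 = true := ex3_a k5_pm_102_a k6_pm_102_a

theorem s9_pm_102_a : ∃ t, chk3 f_pm_102_a t 7 14 1 = true := ex3_a k4_pm_102_a s8_pm_102_a

theorem s10_pm_102_a : ∃ t, chk3 f_pm_102_a t 7 7 1 = true := ex3_b s9_pm_102_a k7_pm_102_a

theorem s11_pm_102_a : ∃ t, chk3 f_pm_102_a t 7 3 1 = true := ex3_b k3_pm_102_a s10_pm_102_a

theorem s12_pm_102_a : ∃ t, chk3 f_pm_102_a t 3 3 1 = true := ex3_a k2_pm_102_a s11_pm_102_a

theorem s13_pm_102_a : ∃ t, chk3 f_pm_102_a t 3 1 1 = true := ex3_b k1_pm_102_a s12_pm_102_a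

theorem s14_pm_102_a : ∃ t, chk3 f_pm_102_a t 1 1 1 = true := ex3_a k0_pm_102_a s13_pm_102_a

theorem c_pm_102_a : CertN 536870912 536870912 0 536870912 134217728 67108864 3 false true false .npp 1 0 2
    ndN0q1 ndN1q2a pcN0 cut_pm_102_a Ext.none :=
  certN0 (fam := false) (s1 := true) (s2 := false) (a := 1) (b := 0) (c := 2) (cn := .npp) (n1 := ndN0q1) (n2 := ndN1q2a) (pc := pcN0) (cut := cut_pm_102_a) (xt := Ext.none) (P1 := 536870912) (W1 := 536870912) (P2 := 0) (W2 := 536870912) (P3 := 134217728) (W3 := 67108864) (N0 := 3)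
    rfl s14_pm_102_a

noncomputable def cut_pm_102_b : Cut := Cut.of [[⟨0, 1, 0, 67108864⟩, ⟨1, 0, 0, 67108864⟩, ⟨2, 1, 0, 67108864⟩]]

noncomputable def f_pm_102_b : ℕ → ℕ → ℕ → ℕ → Bool := onCell 536870912 536870912 1239849684 370763052 134217728 67108864
    (rowN 3 0 false true false .npp 1 0 2 (qsf 536870912 536870912 1239849684 370763052 0) ndN0q1 ndN1q2b pcN0 cut_pm_102_b Ext.none)

def k0_pm_102_b : ∃ t, chk3 f_pm_102_b t 1 1 1 = true :=
  ⟨(a (b (a (l 2) (b (a (b (l 16955688) (l 2)) (a (l 16909168) (l 16962672))) (a (l 2) (l 17036368)))) (l 2)) (b (a (a (b (a (b (l 16842584) (l 16905024)) (b (a (l 16871640) (b (l 16881448) (l 16928856))) (l 16975928))) (b (l 17070008) (l 17053896))) (b (a (b (a (b (l 140291352583) (l 142438933159)) (l 3)) (a (l 142975962503) (l 299742308455))) (l 3)) (a (b (a (l 17098776) (l 146197419527)) (l 17165760)) (b (l 3) (l 313701299639))))) (l 3)) (a (a (l 2) (b (a (l 17203520) (b (l 131702496391) (l 17274736))) (l 2))) (a (b (l 3) (a (l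 2) (l 3))) (l 3))))), by decide +kernel⟩

theorem c_pm_102_b : CertN 536870912 536870912 1239849684 370763052 134217728 67108864 3 false true false .npp 1 0 2
    ndN0q1 ndN1q2b pcN0 cut_pm_102_b Ext.none :=
  certN0 (fam := false) (s1 := true) (s2 := false) (a := 1) (b := 0) (c := 2) (cn := .npp) (n1 := ndN0q1) (n2 := ndN1q2b) (pc := pcN0) (cut := cut_pm_102_b) (xt := Ext.none) (P1 := 536870912) (W1 := 536870912) (P2 := 1239849684) (W2 := 370763052) (P3 := 134217728) (W3 := 67108864) (N0 := 3)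
    rfl k0_pm_102_b

noncomputable def f_pm_112_a : ℕ → ℕ → ℕ → ℕ → Bool := onCell 536870912 536870912 0 536870912 134217728 67108864
    (rowN 3 2 false true false .dn 1 1 2 (qsf 536870912 536870912 0 536870912 1) ndN0q1 ndN1q2a pcN1 Cut.none Ext.none)

def k0_pm_112_a : ∃ t, chk3 f_pm_112_a t 1 1 1 = true :=
  ⟨(a (a (b (a (b (a (l 17386096) (l 17406856)) (l 17530912)) (b (l 17424688) (l 17551992))) (b (a (l 17635768) (l 17642504)) (b (a (l 17679456) (l 119221185719)) (a (c (l 17764040) (l 17873536)) (l 1))))) (b (a (b (l 17463128) (l 17587432)) (l 1)) (b (l 1) (l 1)))) (l 1)), by decide +kernel⟩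

theorem c_pm_112_a : CertN 536870912 536870912 0 536870912 134217728 67108864 3 false true false .dn 1 1 2
    ndN0q1 ndN1q2a pcN1 Cut.none Ext.none :=
  certN2 (fam := false) (s1 := true) (s2 := false) (a := 1) (b := 1) (c := 2) (cn := .dn) (n1 := ndN0q1) (n2 := ndN1q2a) (pc := pcN1) (cut := Cut.none) (xt := Ext.none) (P1 := 536870912) (W1 := 536870912) (P2 := 0) (W2 := 536870912) (P3 := 134217728) (W3 := 67108864) (N0 := 3)
    rfl (fun _ => rfl) k0_pm_112_a

noncomputable def f_pm_112_b : ℕ → ℕ → ℕ → ℕ → Bool := onCell 536870912 536870912 536870912 536870912 134217728 67108864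
    (rowN 3 1 false true false .dn 1 1 2 (qsf 536870912 536870912 1239849684 370763052 1) ndN0q1 ndN1q2b pcN1 Cut.none Ext.none)

def k0_pm_112_b : ∃ t, chk3 f_pm_112_b t 1 1 1 = true :=
  ⟨(b (a (b (a (a (b (l 1) (l 195455788695)) (b (l 197066378199) (l 17367216))) (b (a (l 17300032) (l 17262096)) (l 17551360))) (a (b (l 136400580967) (l 17513544)) (b (l 17395992) (l 17445624)))) (b (a (a (b (l 17211136) (l 17261520)) (b (l 94658619431) (l 17240960))) (a (b (l 3) (l 240687033095)) (l 3))) (a (a (l 17314384) (l 17467712)) (a (b (l 323835317479) (l 2)) (l 2))))) (a (b (a (a (l 17666656) (l 17613824)) (l 17608952)) (a (a (l 17943760) (l 17778168)) (l 17573352))) (b (a (l 169216515495) (l 2)) (l 2)))), by decide +kernel⟩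

theorem c_pm_112_b : CertN 536870912 536870912 1239849684 370763052 134217728 67108864 3 false true false .dn 1 1 2
    ndN0q1 ndN1q2b pcN1 Cut.none Ext.none :=
  certN1 (fam := false) (s1 := true) (s2 := false) (a := 1) (b := 1) (c := 2) (cn := .dn) (n1 := ndN0q1) (n2 := ndN1q2b) (pc := pcN1) (cut := Cut.none) (xt := Ext.none) (P1 := 536870912) (W1 := 536870912) (P2 := 1239849684) (W2 := 370763052) (P3 := 134217728) (W3 := 67108864) (N0 := 3)
    rfl (fun _ => rfl) k0_pm_112_b

noncomputable def cut_pm_113 : Cut := Cut.of [[⟨0, 1, 0, 39843005⟩, ⟨1, 1, 0, 39843005⟩, ⟨2, 2, 0, 5814905⟩]]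

noncomputable def f_pm_113 : ℕ → ℕ → ℕ → ℕ → Bool := onCell 536870912 536870912 536870912 536870912 134217728 67108864
    (rowN 3 1 false true false .nn 1 1 3 (qsf 536870912 536870912 1610612736 536870912 1) ndN0q1 ndN1q3 pcN1 cut_pm_113 Ext.none)

def k0_pm_113 : ∃ t, chk3 f_pm_113 t 1 1 1 = true :=
  ⟨(b (a (b (l 1) (a (l 1) (l 17476712))) (b (a (a (l 1) (b (l 1) (l 17482040))) (a (b (l 3) (l 284173825799)) (l 3))) (a (a (l 17236840) (b (l 17312552) (l 17246088))) (a (b (l 151567065703) (l 178410020567)) (l 3))))) (a (b (a (l 187940288839) (l 17376984)) (a (l 173445036375) (l 17465712))) (b (a (a (l 17248968) (l 17145656)) (a (l 170893933927) (a (l 234781570135) (l 3)))) (a (l 17248320) (a (l 17122032) (a (l 17145224) (b (l 301352632087) (b (l 331417415431) (a (l 16831744) (a (l 16813656) (a (l 16824632) (a (l 16829392) (a (b (l 3) (l 16803544)) (a (b (l 3) (b (l 3) (l 16790440))) (b (l 3) (b (l 3) (b (l 3) (l 6)))))))))))))))))), by decide +kernel⟩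

theorem c_pm_113 : CertN 536870912 536870912 1610612736 536870912 134217728 67108864 3 false true false .nn 1 1 3
    ndN0q1 ndN1q3 pcN1 cut_pm_113 Ext.none :=
  certN1 (fam := false) (s1 := true) (s2 := false) (a := 1) (b := 1) (c := 3) (cn := .nn) (n1 := ndN0q1) (n2 := ndN1q3) (pc := pcN1) (cut := cut_pm_113) (xt := Ext.none) (P1 := 536870912) (W1 := 536870912) (P2 := 1610612736) (W2 := 536870912) (P3 := 134217728) (W3 := 67108864) (N0 := 3)
    rfl (fun _ => rfl) k0_pm_113

noncomputable def cut_pm_123 : Cut := Cut.of [[⟨0, 1, 0, 39843005⟩, ⟨1, 1, 0, 39843005⟩, ⟨2, 2, 0, 5814905⟩]]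

noncomputable def f_pm_123 : ℕ → ℕ → ℕ → ℕ → Bool := onCell 1073741824 536870912 1610612736 536870912 134217728 67108864
    (rowN 3 2 false true false .npn 1 2 3 (qsf 536870912 536870912 1610612736 536870912 2) ndN0q1 ndN1q3 pcN2 cut_pm_123 Ext.none)

def k0_pm_123 : ∃ t, chk3 f_pm_123 t 1 1 1 = true :=
  ⟨(a (b (a (b (a (l 18389024) (a (a (l 18386432) (l 18400616)) (l 18425816))) (a (l 18029496) (a (a (l 18025912) (l 18049136)) (l 18247176)))) (a (b (l 18500680) (a (l 18292760) (l 18163616))) (b (l 1) (l 18226136)))) (a (b (a (b (l 17589856) (l 17329344)) (a (a (l 17562888) (l 17594792)) (a (l 17624576) (l 17653720)))) (a (b (l 17226248) (b (l 17165576) (a (b (l 16840712) (b (l 16812224) (b (l 16840200) (l 6)))) (l 16861672)))) (a (a (b (l 17191288) (l 16956520)) (b (l 17222008) (l 17169408))) (a (b (l 17253392) (l 17007248)) (l 17321712))))) (a (a (b (a (l 17682376) (l 17710560)) (a (l 17183640) (b (l 17351168) (l 17099072)))) (b (l 17742712) (l 17248128))) (b (b (l 17935248)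 (l 17708456)) (a (l 17300416) (l 17359232)))))) (b (a (b (l 1) (a (l 18312320) (l 1))) (l 1)) (a (b (a (l 17919808) (l 18013088)) (a (l 17434976) (l 17586920))) (b (a (l 18089416) (l 1)) (a (l 17687256) (l 17769408)))))), by decide +kernel⟩

theorem c_pm_123 : CertN 536870912 536870912 1610612736 536870912 134217728 67108864 3 false true false .npn 1 2 3
    ndN0q1 ndN1q3 pcN2 cut_pm_123 Ext.none :=
  certN2 (fam := false) (s1 := true) (s2 := false) (a := 1) (b := 2) (c := 3) (cn := .npn) (n1 := ndN0q1) (n2 := ndN1q3) (pc := pcN2) (cut := cut_pm_123) (xt := Ext.none) (P1 := 536870912) (W1 := 536870912) (P2 := 1610612736) (W2 := 536870912) (P3 := 134217728) (W3 := 67108864) (N0 := 3)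
    rfl (fun _ => rfl) k0_pm_123

noncomputable def f_pm_133 : ℕ → ℕ → ℕ → ℕ → Bool := onCell 536870912 536870912 1610612736 536870912 134217728 67108864
    (rowN 3 0 false true false .dn 1 3 3 (qsf 536870912 536870912 1610612736 536870912 3) ndN0q1 ndN1q3 pcN3 Cut.none Ext.none)

def k0_pm_133 : ∃ t, chk3 f_pm_133 t 1 1 1 = true :=
  ⟨(a (a (b (l 1) (a (b (l 1) (l 16936448)) (l 1))) (l 1)) (l 1)), by decide +kernel⟩

theorem c_pm_133 : CertN 536870912 536870912 1610612736 536870912 134217728 67108864 3 false true false .dn 1 3 3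
    ndN0q1 ndN1q3 pcN3 Cut.none Ext.none :=
  certN0 (fam := false) (s1 := true) (s2 := false) (a := 1) (b := 3) (c := 3) (cn := .dn) (n1 := ndN0q1) (n2 := ndN1q3) (pc := pcN3) (cut := Cut.none) (xt := Ext.none) (P1 := 536870912) (W1 := 536870912) (P2 := 1610612736) (W2 := 536870912) (P3 := 134217728) (W3 := 67108864) (N0 := 3)
    rfl k0_pm_133

noncomputable def cut_pm_202_a : Cut := Cut.of [[⟨0, 1, 0, 67108864⟩, ⟨1, 0, 0, 67108864⟩, ⟨2, 1, 0, 67108864⟩]]

noncomputable def f_pm_202_a : ℕ → ℕ → ℕ → ℕ → Bool := onCell 0 536870912 0 536870912 134217728 67108864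
    (rowN 3 0 false true false .pp 2 0 2 (qsf 0 536870912 0 536870912 0) ndN0q2 ndN1q2a pcN0 cut_pm_202_a Ext.none)

def k0_pm_202_a : ∃ t, chk3 f_pm_202_a t 1 1 1 = true :=
  ⟨(a (l 3) (b (l 3) (a (l 3) (b (l 3) (a (l 3) (b (l 3) (l 6))))))), by decide +kernel⟩

theorem c_pm_202_a : CertN 0 536870912 0 536870912 134217728 67108864 3 false true false .pp 2 0 2
    ndN0q2 ndN1q2a pcN0 cut_pm_202_a Ext.none :=
  certN0 (fam := false) (s1 := true) (s2 := false) (a := 2) (b := 0) (c := 2) (cn := .pp) (n1 := ndN0q2) (n2 := ndN1q2a) (pc := pcN0) (cut := cut_pm_202_a) (xt := Ext.none) (P1 := 0) (W1 := 536870912) (P2 := 0) (W2 := 536870912) (P3 := 134217728) (W3 := 67108864) (N0 := 3)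
    rfl k0_pm_202_a

noncomputable def cut_pm_202_b : Cut := Cut.of [[⟨0, 1, 0, 67108864⟩, ⟨1, 0, 0, 67108864⟩, ⟨2, 1, 0, 67108864⟩]]

noncomputable def f_pm_202_b : ℕ → ℕ → ℕ → ℕ → Bool := onCell 0 536870912 1239849684 370763052 134217728 67108864
    (rowN 3 0 false true false .pp 2 0 2 (qsf 0 536870912 1239849684 370763052 0) ndN0q2 ndN1q2b pcN0 cut_pm_202_b Ext.none)

def k0_pm_202_b : ∃ t, chk3 f_pm_202_b t 1 1 1 = true :=
  ⟨(l 3), by decide +kernel⟩

theorem c_pm_202_b : CertN 0 536870912 1239849684 370763052 134217728 67108864 3 false true false .pp 2 0 2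
    ndN0q2 ndN1q2b pcN0 cut_pm_202_b Ext.none :=
  certN0 (fam := false) (s1 := true) (s2 := false) (a := 2) (b := 0) (c := 2) (cn := .pp) (n1 := ndN0q2) (n2 := ndN1q2b) (pc := pcN0) (cut := cut_pm_202_b) (xt := Ext.none) (P1 := 0) (W1 := 536870912) (P2 := 1239849684) (W2 := 370763052) (P3 := 134217728) (W3 := 67108864) (N0 := 3)
    rfl k0_pm_202_b

noncomputable def f_pm_203 : ℕ → ℕ → ℕ → ℕ → Bool := onCell 0 536870912 0 536870912 134217728 67108864
    (rowN 3 1 false true false .up 2 0 3 (qsf 0 536870912 1610612736 536870912 0) ndN0q2 ndN1q3 pcN0 Cut.none Ext.none)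

def k0_pm_203 : ∃ t, chk3 f_pm_203 t 1 1 1 = true :=
  ⟨(l 3), by decide +kernel⟩

theorem c_pm_203 : CertN 0 536870912 1610612736 536870912 134217728 67108864 3 false true false .up 2 0 3
    ndN0q2 ndN1q3 pcN0 Cut.none Ext.none :=
  certN1 (fam := false) (s1 := true) (s2 := false) (a := 2) (b := 0) (c := 3) (cn := .up) (n1 := ndN0q2) (n2 := ndN1q3) (pc := pcN0) (cut := Cut.none) (xt := Ext.none) (P1 := 0) (W1 := 536870912) (P2 := 1610612736) (W2 := 536870912) (P3 := 134217728) (W3 := 67108864) (N0 := 3)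
    rfl (fun _ => rfl) k0_pm_203

noncomputable def cut_pm_213 : Cut := Cut.of [[⟨0, 1, 0, 39843005⟩, ⟨1, 1, 0, 39843005⟩, ⟨2, 2, 0, 5814905⟩]]

noncomputable def f_pm_213 : ℕ → ℕ → ℕ → ℕ → Bool := onCell 0 536870912 1610612736 536870912 134217728 67108864
    (rowN 3 0 false true false .pnn 2 1 3 (qsf 0 536870912 1610612736 536870912 1) ndN0q2 ndN1q3 pcN1 cut_pm_213 Ext.none)

def k0_pm_213 : ∃ t, chk3 f_pm_213 t 1 1 1 = true :=
  ⟨(b (l 3) (a (l 3) (b (l 3) (a (l 3) (a (l 3) (b (l 3) (a (l 3) (a (l 3) (a (l 3) (b (l 3) (a (l 3) (b (l 3) (a (l 3) (c (b (l 3) (b (l 3) (l 6))) (b (l 3) (b (l 3) (l 6))))))))))))))))), by decide +kernel⟩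

theorem c_pm_213 : CertN 0 536870912 1610612736 536870912 134217728 67108864 3 false true false .pnn 2 1 3
    ndN0q2 ndN1q3 pcN1 cut_pm_213 Ext.none :=
  certN0 (fam := false) (s1 := true) (s2 := false) (a := 2) (b := 1) (c := 3) (cn := .pnn) (n1 := ndN0q2) (n2 := ndN1q3) (pc := pcN1) (cut := cut_pm_213) (xt := Ext.none) (P1 := 0) (W1 := 536870912) (P2 := 1610612736) (W2 := 536870912) (P3 := 134217728) (W3 := 67108864) (N0 := 3)
    rfl k0_pm_213

noncomputable def f_mm_001 : ℕ → ℕ → ℕ → ℕ → Bool := onCell 0 536870912 536870912 536870912 134217728 67108864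
    (rowN 3 0 false false false .up 0 0 1 (qsf 0 536870912 536870912 536870912 0) ndN0q0 ndN1q1 pcN0 Cut.none Ext.none)

def k0_mm_001 : ∃ t, chk3 f_mm_001 t 1 1 1 = true :=
  ⟨(l 3), by decide +kernel⟩

theorem c_mm_001 : CertN 0 536870912 536870912 536870912 134217728 67108864 3 false false false .up 0 0 1
    ndN0q0 ndN1q1 pcN0 Cut.none Ext.none :=
  certN0 (fam := false) (s1 := false) (s2 := false) (a := 0) (b := 0) (c := 1) (cn := .up) (n1 := ndN0q0) (n2 := ndN1q1) (pc := pcN0) (cut := Cut.none) (xt := Ext.none) (P1 := 0) (W1 := 536870912) (P2 := 536870912) (W2 := 536870912) (P3 := 134217728) (W3 := 67108864) (N0 := 3)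
    rfl k0_mm_001

noncomputable def f_mm_011 : ℕ → ℕ → ℕ → ℕ → Bool := onCell 0 536870912 536870912 536870912 134217728 67108864
    (rowN 3 0 false false false .pnn 0 1 1 (qsf 0 536870912 536870912 536870912 1) ndN0q0 ndN1q1 pcN1 Cut.none Ext.none)

def k0_mm_011 : ∃ t, chk3 f_mm_011 t 1 1 1 = true :=
  ⟨(l 3), by decide +kernel⟩

theorem c_mm_011 : CertN 0 536870912 536870912 536870912 134217728 67108864 3 false false false .pnn 0 1 1
    ndN0q0 ndN1q1 pcN1 Cut.none Ext.none :=
  certN0 (fam := false) (s1 := false) (s2 := false) (a := 0) (b := 1) (c := 1) (cn := .pnn) (n1 := ndN0q0) (n2 := ndN1q1) (pc := pcN1) (cut := Cut.none) (xt := Ext.none) (P1 := 0) (W1 := 536870912) (P2 := 536870912) (W2 := 536870912) (P3 := 134217728) (W3 := 67108864) (N0 := 3)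
    rfl k0_mm_011

noncomputable def f_mm_012_a : ℕ → ℕ → ℕ → ℕ → Bool := onCell 0 536870912 0 536870912 134217728 67108864
    (rowN 3 0 false false false .pnp 0 1 2 (qsf 0 536870912 0 536870912 1) ndN0q0 ndN1q2a pcN1 Cut.none Ext.none)

def k0_mm_012_a : ∃ t, chk3 f_mm_012_a t 1 1 1 = true :=
  ⟨(l 5), by decide +kernel⟩

theorem c_mm_012_a : CertN 0 536870912 0 536870912 134217728 67108864 3 false false false .pnp 0 1 2
    ndN0q0 ndN1q2a pcN1 Cut.none Ext.none :=
  certN0 (fam := false) (s1 := false) (s2 := false) (a := 0) (b := 1) (c := 2) (cn := .pnp) (n1 := ndN0q0) (n2 := ndN1q2a) (pc := pcN1) (cut := Cut.none) (xt := Ext.none) (P1 := 0) (W1 := 536870912) (P2 := 0) (W2 := 536870912) (P3 := 134217728) (W3 := 67108864) (N0 := 3)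
    rfl k0_mm_012_a

noncomputable def f_mm_012_b : ℕ → ℕ → ℕ → ℕ → Bool := onCell 0 536870912 1239849684 370763052 134217728 67108864
    (rowN 3 0 false false false .pnp 0 1 2 (qsf 0 536870912 1239849684 370763052 1) ndN0q0 ndN1q2b pcN1 Cut.none Ext.none)

def k0_mm_012_b : ∃ t, chk3 f_mm_012_b t 1 1 1 = true :=
  ⟨(l 5), by decide +kernel⟩

theorem c_mm_012_b : CertN 0 536870912 1239849684 370763052 134217728 67108864 3 false false false .pnp 0 1 2
    ndN0q0 ndN1q2b pcN1 Cut.none Ext.none :=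
  certN0 (fam := false) (s1 := false) (s2 := false) (a := 0) (b := 1) (c := 2) (cn := .pnp) (n1 := ndN0q0) (n2 := ndN1q2b) (pc := pcN1) (cut := Cut.none) (xt := Ext.none) (P1 := 0) (W1 := 536870912) (P2 := 1239849684) (W2 := 370763052) (P3 := 134217728) (W3 := 67108864) (N0 := 3)
    rfl k0_mm_012_b

noncomputable def f_mm_022_a : ℕ → ℕ → ℕ → ℕ → Bool := onCell 0 536870912 0 536870912 134217728 67108864
    (rowN 3 0 false false false .pp 0 2 2 (qsf 0 536870912 0 536870912 2) ndN0q0 ndN1q2a pcN2 Cut.none Ext.none)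

def k0_mm_022_a : ∃ t, chk3 f_mm_022_a t 1 1 1 = true :=
  ⟨(l 5), by decide +kernel⟩

theorem c_mm_022_a : CertN 0 536870912 0 536870912 134217728 67108864 3 false false false .pp 0 2 2
    ndN0q0 ndN1q2a pcN2 Cut.none Ext.none :=
  certN0 (fam := false) (s1 := false) (s2 := false) (a := 0) (b := 2) (c := 2) (cn := .pp) (n1 := ndN0q0) (n2 := ndN1q2a) (pc := pcN2) (cut := Cut.none) (xt := Ext.none) (P1 := 0) (W1 := 536870912) (P2 := 0) (W2 := 536870912) (P3 := 134217728) (W3 := 67108864) (N0 := 3)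
    rfl k0_mm_022_a

noncomputable def f_mm_022_b : ℕ → ℕ → ℕ → ℕ → Bool := onCell 0 536870912 1239849684 370763052 134217728 67108864
    (rowN 3 0 false false false .pp 0 2 2 (qsf 0 536870912 1239849684 370763052 2) ndN0q0 ndN1q2b pcN2 Cut.none Ext.none)

def k0_mm_022_b : ∃ t, chk3 f_mm_022_b t 1 1 1 = true :=
  ⟨(l 5), by decide +kernel⟩

theorem c_mm_022_b : CertN 0 536870912 1239849684 370763052 134217728 67108864 3 false false false .pp 0 2 2
    ndN0q0 ndN1q2b pcN2 Cut.none Ext.none :=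
  certN0 (fam := false) (s1 := false) (s2 := false) (a := 0) (b := 2) (c := 2) (cn := .pp) (n1 := ndN0q0) (n2 := ndN1q2b) (pc := pcN2) (cut := Cut.none) (xt := Ext.none) (P1 := 0) (W1 := 536870912) (P2 := 1239849684) (W2 := 370763052) (P3 := 134217728) (W3 := 67108864) (N0 := 3)
    rfl k0_mm_022_b

noncomputable def f_mm_023 : ℕ → ℕ → ℕ → ℕ → Bool := onCell 0 536870912 1610612736 536870912 134217728 67108864
    (rowN 3 0 false false false .up 0 2 3 (qsf 0 536870912 1610612736 536870912 2) ndN0q0 ndN1q3 pcN2 Cut.none Ext.none)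

def k0_mm_023 : ∃ t, chk3 f_mm_023 t 1 1 1 = true :=
  ⟨(l 5), by decide +kernel⟩

theorem c_mm_023 : CertN 0 536870912 1610612736 536870912 134217728 67108864 3 false false false .up 0 2 3
    ndN0q0 ndN1q3 pcN2 Cut.none Ext.none :=
  certN0 (fam := false) (s1 := false) (s2 := false) (a := 0) (b := 2) (c := 3) (cn := .up) (n1 := ndN0q0) (n2 := ndN1q3) (pc := pcN2) (cut := Cut.none) (xt := Ext.none) (P1 := 0) (W1 := 536870912) (P2 := 1610612736) (W2 := 536870912) (P3 := 134217728) (W3 := 67108864) (N0 := 3)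
    rfl k0_mm_023

noncomputable def f_mm_033 : ℕ → ℕ → ℕ → ℕ → Bool := onCell 0 536870912 1610612736 536870912 134217728 67108864
    (rowN 3 0 false false false .pnn 0 3 3 (qsf 0 536870912 1610612736 536870912 3) ndN0q0 ndN1q3 pcN3 Cut.none Ext.none)

def k0_mm_033 : ∃ t, chk3 f_mm_033 t 1 1 1 = true :=
  ⟨(l 5), by decide +kernel⟩

theorem c_mm_033 : CertN 0 536870912 1610612736 536870912 134217728 67108864 3 false false false .pnn 0 3 3
    ndN0q0 ndN1q3 pcN3 Cut.none Ext.none :=
  certN0 (fam := false) (s1 := false) (s2 := false) (a := 0) (b := 3) (c := 3) (cn := .pnn) (n1 := ndN0q0) (n2 := ndN1q3) (pc := pcN3) (cut := Cut.none) (xt := Ext.none) (P1 := 0) (W1 := 536870912) (P2 := 1610612736) (W2 := 536870912) (P3 := 134217728) (W3 := 67108864) (N0 := 3)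
    rfl k0_mm_033

noncomputable def f_mm_101 : ℕ → ℕ → ℕ → ℕ → Bool := onCell 536870912 536870912 536870912 536870912 134217728 67108864
    (rowN 3 0 false false false .npn 1 0 1 (qsf 536870912 536870912 536870912 536870912 0) ndN0q1 ndN1q1 pcN0 Cut.none Ext.none)

def k0_mm_101 : ∃ t, chk3 f_mm_101 t 1 1 1 = true :=
  ⟨(l 3), by decide +kernel⟩

theorem c_mm_101 : CertN 536870912 536870912 536870912 536870912 134217728 67108864 3 false false false .npn 1 0 1
    ndN0q1 ndN1q1 pcN0 Cut.none Ext.none :=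
  certN0 (fam := false) (s1 := false) (s2 := false) (a := 1) (b := 0) (c := 1) (cn := .npn) (n1 := ndN0q1) (n2 := ndN1q1) (pc := pcN0) (cut := Cut.none) (xt := Ext.none) (P1 := 536870912) (W1 := 536870912) (P2 := 536870912) (W2 := 536870912) (P3 := 134217728) (W3 := 67108864) (N0 := 3)
    rfl k0_mm_101

noncomputable def f_mm_102_a : ℕ → ℕ → ℕ → ℕ → Bool := onCell 536870912 536870912 0 536870912 134217728 67108864
    (rowN 3 0 false false false .npp 1 0 2 (qsf 536870912 536870912 0 536870912 0) ndN0q1 ndN1q2a pcN0 Cut.none Ext.none)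

def k0_mm_102_a : ∃ t, chk3 f_mm_102_a t 1 1 1 = true :=
  ⟨(l 3), by decide +kernel⟩

theorem c_mm_102_a : CertN 536870912 536870912 0 536870912 134217728 67108864 3 false false false .npp 1 0 2
    ndN0q1 ndN1q2a pcN0 Cut.none Ext.none :=
  certN0 (fam := false) (s1 := false) (s2 := false) (a := 1) (b := 0) (c := 2) (cn := .npp) (n1 := ndN0q1) (n2 := ndN1q2a) (pc := pcN0) (cut := Cut.none) (xt := Ext.none) (P1 := 536870912) (W1 := 536870912) (P2 := 0) (W2 := 536870912) (P3 := 134217728) (W3 := 67108864) (N0 := 3)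
    rfl k0_mm_102_a

noncomputable def f_mm_102_b : ℕ → ℕ → ℕ → ℕ → Bool := onCell 536870912 536870912 1239849684 370763052 134217728 67108864
    (rowN 3 0 false false false .npp 1 0 2 (qsf 536870912 536870912 1239849684 370763052 0) ndN0q1 ndN1q2b pcN0 Cut.none Ext.none)

def k0_mm_102_b : ∃ t, chk3 f_mm_102_b t 1 1 1 = true :=
  ⟨(l 5), by decide +kernel⟩

theorem c_mm_102_b : CertN 536870912 536870912 1239849684 370763052 134217728 67108864 3 false false false .npp 1 0 2
    ndN0q1 ndN1q2b pcN0 Cut.none Ext.none :=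
  certN0 (fam := false) (s1 := false) (s2 := false) (a := 1) (b := 0) (c := 2) (cn := .npp) (n1 := ndN0q1) (n2 := ndN1q2b) (pc := pcN0) (cut := Cut.none) (xt := Ext.none) (P1 := 536870912) (W1 := 536870912) (P2 := 1239849684) (W2 := 370763052) (P3 := 134217728) (W3 := 67108864) (N0 := 3)
    rfl k0_mm_102_b

noncomputable def f_mm_112_a : ℕ → ℕ → ℕ → ℕ → Bool := onCell 536870912 536870912 0 536870912 134217728 67108864
    (rowN 3 0 false false false .dn 1 1 2 (qsf 536870912 536870912 0 536870912 1) ndN0q1 ndN1q2a pcN1 Cut.none Ext.none)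

def k0_mm_112_a : ∃ t, chk3 f_mm_112_a t 1 1 1 = true :=
  ⟨(l 3), by decide +kernel⟩

theorem c_mm_112_a : CertN 536870912 536870912 0 536870912 134217728 67108864 3 false false false .dn 1 1 2
    ndN0q1 ndN1q2a pcN1 Cut.none Ext.none :=
  certN0 (fam := false) (s1 := false) (s2 := false) (a := 1) (b := 1) (c := 2) (cn := .dn) (n1 := ndN0q1) (n2 := ndN1q2a) (pc := pcN1) (cut := Cut.none) (xt := Ext.none) (P1 := 536870912) (W1 := 536870912) (P2 := 0) (W2 := 536870912) (P3 := 134217728) (W3 := 67108864) (N0 := 3)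
    rfl k0_mm_112_a

noncomputable def f_mm_112_b : ℕ → ℕ → ℕ → ℕ → Bool := onCell 536870912 536870912 1239849684 370763052 134217728 67108864
    (rowN 3 0 false false false .dn 1 1 2 (qsf 536870912 536870912 1239849684 370763052 1) ndN0q1 ndN1q2b pcN1 Cut.none Ext.none)

def k0_mm_112_b : ∃ t, chk3 f_mm_112_b t 1 1 1 = true :=
  ⟨(l 5), by decide +kernel⟩

theorem c_mm_112_b : CertN 536870912 536870912 1239849684 370763052 134217728 67108864 3 false false false .dn 1 1 2
    ndN0q1 ndN1q2b pcN1 Cut.none Ext.none :=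
  certN0 (fam := false) (s1 := false) (s2 := false) (a := 1) (b := 1) (c := 2) (cn := .dn) (n1 := ndN0q1) (n2 := ndN1q2b) (pc := pcN1) (cut := Cut.none) (xt := Ext.none) (P1 := 536870912) (W1 := 536870912) (P2 := 1239849684) (W2 := 370763052) (P3 := 134217728) (W3 := 67108864) (N0 := 3)
    rfl k0_mm_112_b

noncomputable def f_mm_113 : ℕ → ℕ → ℕ → ℕ → Bool := onCell 536870912 536870912 1610612736 536870912 134217728 67108864
    (rowN 3 0 false false false .nn 1 1 3 (qsf 536870912 536870912 1610612736 536870912 1) ndN0q1 ndN1q3 pcN1 Cut.none Ext.none)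

def k0_mm_113 : ∃ t, chk3 f_mm_113 t 1 1 1 = true :=
  ⟨(l 5), by decide +kernel⟩

theorem c_mm_113 : CertN 536870912 536870912 1610612736 536870912 134217728 67108864 3 false false false .nn 1 1 3
    ndN0q1 ndN1q3 pcN1 Cut.none Ext.none :=
  certN0 (fam := false) (s1 := false) (s2 := false) (a := 1) (b := 1) (c := 3) (cn := .nn) (n1 := ndN0q1) (n2 := ndN1q3) (pc := pcN1) (cut := Cut.none) (xt := Ext.none) (P1 := 536870912) (W1 := 536870912) (P2 := 1610612736) (W2 := 536870912) (P3 := 134217728) (W3 := 67108864) (N0 := 3)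
    rfl k0_mm_113

noncomputable def f_mm_123 : ℕ → ℕ → ℕ → ℕ → Bool := onCell 536870912 536870912 1610612736 536870912 134217728 67108864
    (rowN 3 0 false false false .npn 1 2 3 (qsf 536870912 536870912 1610612736 536870912 2) ndN0q1 ndN1q3 pcN2 Cut.none Ext.none)

def k0_mm_123 : ∃ t, chk3 f_mm_123 t 1 1 1 = true :=
  ⟨(l 5), by decide +kernel⟩

theorem c_mm_123 : CertN 536870912 536870912 1610612736 536870912 134217728 67108864 3 false false false .npn 1 2 3
    ndN0q1 ndN1q3 pcN2 Cut.none Ext.none :=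
  certN0 (fam := false) (s1 := false) (s2 := false) (a := 1) (b := 2) (c := 3) (cn := .npn) (n1 := ndN0q1) (n2 := ndN1q3) (pc := pcN2) (cut := Cut.none) (xt := Ext.none) (P1 := 536870912) (W1 := 536870912) (P2 := 1610612736) (W2 := 536870912) (P3 := 134217728) (W3 := 67108864) (N0 := 3)
    rfl k0_mm_123

noncomputable def f_mm_133 : ℕ → ℕ → ℕ → ℕ → Bool := onCell 536870912 536870912 1610612736 536870912 134217728 67108864
    (rowN 3 0 false false false .dn 1 3 3 (qsf 536870912 536870912 1610612736 536870912 3) ndN0q1 ndN1q3 pcN3 Cut.none Ext.none)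

def k0_mm_133 : ∃ t, chk3 f_mm_133 t 1 1 1 = true :=
  ⟨(l 5), by decide +kernel⟩

theorem c_mm_133 : CertN 536870912 536870912 1610612736 536870912 134217728 67108864 3 false false false .dn 1 3 3
    ndN0q1 ndN1q3 pcN3 Cut.none Ext.none :=
  certN0 (fam := false) (s1 := false) (s2 := false) (a := 1) (b := 3) (c := 3) (cn := .dn) (n1 := ndN0q1) (n2 := ndN1q3) (pc := pcN3) (cut := Cut.none) (xt := Ext.none) (P1 := 536870912) (W1 := 536870912) (P2 := 1610612736) (W2 := 536870912) (P3 := 134217728) (W3 := 67108864) (N0 := 3)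
    rfl k0_mm_133

noncomputable def f_mm_202_a : ℕ → ℕ → ℕ → ℕ → Bool := onCell 0 536870912 0 536870912 134217728 67108864
    (rowN 3 0 false false false .pp 2 0 2 (qsf 0 536870912 0 536870912 0) ndN0q2 ndN1q2a pcN0 Cut.none Ext.none)

def k0_mm_202_a : ∃ t, chk3 f_mm_202_a t 1 1 1 = true :=
  ⟨(l 3), by decide +kernel⟩

theorem c_mm_202_a : CertN 0 536870912 0 536870912 134217728 67108864 3 false false false .pp 2 0 2
    ndN0q2 ndN1q2a pcN0 Cut.none Ext.none :=
  certN0 (fam := false) (s1 := false) (s2 := false) (a := 2) (b := 0) (c := 2) (cn := .pp) (n1 := ndN0q2) (n2 := ndN1q2a) (pc := pcN0) (cut := Cut.none) (xt := Ext.none) (P1 := 0) (W1 := 536870912) (P2 := 0) (W2 := 536870912) (P3 := 134217728) (W3 := 67108864) (N0 := 3)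
    rfl k0_mm_202_a

noncomputable def f_mm_202_b : ℕ → ℕ → ℕ → ℕ → Bool := onCell 0 536870912 1239849684 370763052 134217728 67108864
    (rowN 3 0 false false false .pp 2 0 2 (qsf 0 536870912 1239849684 370763052 0) ndN0q2 ndN1q2b pcN0 Cut.none Ext.none)

def k0_mm_202_b : ∃ t, chk3 f_mm_202_b t 1 1 1 = true :=
  ⟨(l 3), by decide +kernel⟩

theorem c_mm_202_b : CertN 0 536870912 1239849684 370763052 134217728 67108864 3 false false false .pp 2 0 2
    ndN0q2 ndN1q2b pcN0 Cut.none Ext.none :=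
  certN0 (fam := false) (s1 := false) (s2 := false) (a := 2) (b := 0) (c := 2) (cn := .pp) (n1 := ndN0q2) (n2 := ndN1q2b) (pc := pcN0) (cut := Cut.none) (xt := Ext.none) (P1 := 0) (W1 := 536870912) (P2 := 1239849684) (W2 := 370763052) (P3 := 134217728) (W3 := 67108864) (N0 := 3)
    rfl k0_mm_202_b

noncomputable def f_mm_203 : ℕ → ℕ → ℕ → ℕ → Bool := onCell 0 536870912 0 536870912 134217728 67108864
    (rowN 3 1 false false false .up 2 0 3 (qsf 0 536870912 1610612736 536870912 0) ndN0q2 ndN1q3 pcN0 Cut.none Ext.none)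

def k0_mm_203 : ∃ t, chk3 f_mm_203 t 1 1 1 = true :=
  ⟨(l 3), by decide +kernel⟩

theorem c_mm_203 : CertN 0 536870912 1610612736 536870912 134217728 67108864 3 false false false .up 2 0 3
    ndN0q2 ndN1q3 pcN0 Cut.none Ext.none :=
  certN1 (fam := false) (s1 := false) (s2 := false) (a := 2) (b := 0) (c := 3) (cn := .up) (n1 := ndN0q2) (n2 := ndN1q3) (pc := pcN0) (cut := Cut.none) (xt := Ext.none) (P1 := 0) (W1 := 536870912) (P2 := 1610612736) (W2 := 536870912) (P3 := 134217728) (W3 := 67108864) (N0 := 3)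
    rfl (fun _ => rfl) k0_mm_203

noncomputable def f_mm_213 : ℕ → ℕ → ℕ → ℕ → Bool := onCell 0 536870912 1610612736 536870912 134217728 67108864
    (rowN 3 0 false false false .pnn 2 1 3 (qsf 0 536870912 1610612736 536870912 1) ndN0q2 ndN1q3 pcN1 Cut.none Ext.none)

def k0_mm_213 : ∃ t, chk3 f_mm_213 t 1 1 1 = true :=
  ⟨(a (l 3) (l 5)), by decide +kernel⟩

theorem c_mm_213 : CertN 0 536870912 1610612736 536870912 134217728 67108864 3 false false false .pnn 2 1 3
    ndN0q2 ndN1q3 pcN1 Cut.none Ext.none :=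
  certN0 (fam := false) (s1 := false) (s2 := false) (a := 2) (b := 1) (c := 3) (cn := .pnn) (n1 := ndN0q2) (n2 := ndN1q3) (pc := pcN1) (cut := Cut.none) (xt := Ext.none) (P1 := 0) (W1 := 536870912) (P2 := 1610612736) (W2 := 536870912) (P3 := 134217728) (W3 := 67108864) (N0 := 3)
    rfl k0_mm_213

end Pool.Agent.Strip051.G.I1_8_3_16.Tab.C.NB01

namespace Pool.Agent.Strip051.G.I1_8_3_16.Tab.C.NB02

open Pool.Agent.Strip051.PB Pool.Agent.Strip051.PB.T
open Pool.Agent.Strip051.G.I1_8_3_16.Tab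

noncomputable def f_pp_001 : ℕ → ℕ → ℕ → ℕ → Bool := onCell 0 536870912 0 536870912 134217728 67108864
    (rowN 3 1 false true true .up 0 0 1 (qsf 0 536870912 536870912 536870912 0) ndN0q0 ndN2q1 pcN0 Cut.none Ext.none)

def k0_pp_001 : ∃ t, chk3 f_pp_001 t 1 1 1 = true :=
  ⟨(l 3), by decide +kernel⟩

theorem c_pp_001 : CertN 0 536870912 536870912 536870912 134217728 67108864 3 false true true .up 0 0 1
    ndN0q0 ndN2q1 pcN0 Cut.none Ext.none :=
  certN1 (fam := false) (s1 := true) (s2 := true) (a := 0) (b := 0) (c := 1) (cn := .up) (n1 := ndN0q0) (n2 := ndN2q1) (pc := pcN0) (cut := Cut.none) (xt := Ext.none) (P1 := 0) (W1 := 536870912) (P2 := 536870912) (W2 := 536870912) (P3 := 134217728) (W3 := 67108864) (N0 := 3)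
    rfl (fun _ => rfl) k0_pp_001

noncomputable def f_pp_011 : ℕ → ℕ → ℕ → ℕ → Bool := onCell 0 536870912 536870912 536870912 134217728 67108864
    (rowN 3 0 false true true .pnn 0 1 1 (qsf 0 536870912 536870912 536870912 1) ndN0q0 ndN2q1 pcN1 Cut.none Ext.none)

def k0_pp_011 : ∃ t, chk3 f_pp_011 t 1 1 1 = true :=
  ⟨(a (l 3) (l 3)), by decide +kernel⟩

theorem c_pp_011 : CertN 0 536870912 536870912 536870912 134217728 67108864 3 false true true .pnn 0 1 1
    ndN0q0 ndN2q1 pcN1 Cut.none Ext.none :=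
  certN0 (fam := false) (s1 := true) (s2 := true) (a := 0) (b := 1) (c := 1) (cn := .pnn) (n1 := ndN0q0) (n2 := ndN2q1) (pc := pcN1) (cut := Cut.none) (xt := Ext.none) (P1 := 0) (W1 := 536870912) (P2 := 536870912) (W2 := 536870912) (P3 := 134217728) (W3 := 67108864) (N0 := 3)
    rfl k0_pp_011

noncomputable def cut_pp_012_a : Cut := Cut.of [[⟨0, 0, 0, 67108864⟩, ⟨1, 1, 0, 67108864⟩, ⟨2, 1, 0, 67108864⟩]]

noncomputable def f_pp_012_a : ℕ → ℕ → ℕ → ℕ → Bool := onCell 536870912 536870912 0 536870912 134217728 67108864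
    (rowN 3 2 false true true .pnp 0 1 2 (qsf 0 536870912 0 536870912 1) ndN0q0 ndN2q2a pcN1 cut_pp_012_a Ext.none)

def k0_pp_012_a : ∃ t, chk3 f_pp_012_a t 2 1 1 = true :=
  ⟨(l 3), by decide +kernel⟩

def k1_pp_012_a : ∃ t, chk3 f_pp_012_a t 6 1 1 = true :=
  ⟨(l 3), by decide +kernel⟩

def k2_pp_012_a : ∃ t, chk3 f_pp_012_a t 14 2 1 = true :=
  ⟨(l 3), by decide +kernel⟩

def k3_pp_012_a : ∃ t, chk3 f_pp_012_a t 30 2 1 = true :=
  ⟨(b (b (a (l 3) (a (l 3) (a (l 3) (b (c (l 17037312) (l 24863741495)) (l 3))))) (l 3)) (l 3)), by decide +kernel⟩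

def k4_pp_012_a : ∃ t, chk3 f_pp_012_a t 31 4 1 = true :=
  ⟨(a (c (b (b (c (l 17080528) (a (l 16962640) (l 16924464))) (c (l 17073776) (a (l 16956336) (l 16917688)))) (b (c (a (l 17067656) (l 17048112)) (a (l 16942216) (l 16901920))) (c (a (l 17046248) (l 17024456)) (a (b (l 16926744) (l 16913456)) (b (l 16884328) (l 16869168)))))) (b (b (a (c (l 16835984) (l 16712576)) (l 16703664)) (a (c (b (l 16832720) (l 16827656)) (l 16727040)) (l 16713824))) (c (b (a (b (l 9831480039) (l 8757718199)) (l 16712464)) (a (a (l 3) (l 16273810679)) (b (l 16735704) (l 16719488)))) (b (a (l 13589452311) (l 16705248)) (a (b (l 16730776) (l 13052583447)) (l 16720296)))))) (b (c (b (c (l 17016288) (l 16834184)) (a (c (l 17030560) (l 16861504)) (l 16798040))) (b (l 16697864) (a (l 16686856) (l 16670392)))) (c (b (a (c (l 17013072) (l 16842704)) (c (l 16959272) (l 16760408))) (a (c (l 16985160) (l 16812232)) (c (l 16925600) (l 16723000)))) (b (a (l 16691336) (l 16674880)) (a (l 16711680) (l 16679552)))))),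 by decide +kernel⟩

def k5_pp_012_a : ∃ t, chk3 f_pp_012_a t 62 5 1 = true :=
  ⟨(b (c (a (b (c (l 16995696) (b (l 16845504) (l 3))) (l 3)) (b (c (b (l 17000928) (l 16981648)) (b (a (l 16865312) (l 16836000)) (a (l 16845392) (l 16814264)))) (c (b (l 16938512) (c (l 16972736) (l 16895584))) (a (b (l 9831417175) (l 16733384)) (b (l 16789272) (l 16739768)))))) (a (a (l 3) (b (c (l 21642523943) (l 18421287991)) (l 3))) (b (c (b (l 16728800) (l 16273806151)) (b (l 16723792) (l 16726080))) (c (b (l 14126326535) (a (l 16728408) (l 16721456))) (b (l 13589448231) (a (l 16723584) (l 16716808))))))) (b (a (l 3) (c (c (b (a (l 16854272) (c (l 16933560) (l 16851712))) (a (l 3) (c (l 16900456) (l 9294592631)))) (b (a (l 16737824) (l 16728560)) (a (l 3) (l 12515720951)))) (c (b (a (l 16730200) (l 16723936)) (a (l 3) (l 16731592))) (b (a (l 16725528) (l 16719408)) (a (l 3) (l 16721952)))))) (a (l 3) (a (l 3) (c (c (b (c (l 3389095799) (l 16736080)) (b (l 7683895095) (l 10905122551))) (b (l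 9831370279) (c (l 16741448) (l 16739352)))) (c (b (l 8757625287) (l 8220757847)) (b (l 16734936) (l 16737416)))))))), by decide +kernel⟩

def k6_pp_012_a : ∃ t, chk3 f_pp_012_a t 63 5 1 = true :=
  ⟨(b (a (c (b (c (l 16945560) (l 16716296)) (c (b (l 16907608) (a (l 16893792) (l 16858880))) (a (l 16722976) (l 16708112)))) (b (c (l 16702992) (l 16698512)) (c (b (l 16706680) (l 16709224)) (l 16714104)))) (c (a (b (l 16705384) (c (l 16834640) (l 16699632))) (b (l 16695232) (c (l 16786448) (l 16691120)))) (b (l 16694936) (b (l 16688304) (l 16701464))))) (a (a (c (b (c (b (l 16860832) (l 16739512)) (b (l 16720280) (l 16722840))) (c (b (l 16733760) (c (l 16738664) (l 16731264))) (b (l 16725488) (l 16736104)))) (b (c (b (l 16715904) (l 16718584)) (l 16723480)) (c (b (l 16721368) (l 16724272)) (b (l 16717328) (l 16720376))))) (c (b (c (l 16722616) (l 16713192)) (c (b (l 16732568) (l 16723840)) (b (l 16717232) (l 16720064)))) (b (c (l 16709136) (l 16705160)) (c (l 16725320) (l 16711112)))))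 (a (c (b (c (l 16710272) (l 16704816)) (c (l 16724440) (l 16710376))) (b (l 16709656) (c (l 16706856) (l 16703384)))) (c (b (c (l 16699960) (l 16696408)) (c (l 16715872) (l 16702096))) (b (l 16701672) (c (l 16698848) (l 16695648))))))), by decide +kernel⟩

def k7_pp_012_a : ∃ t, chk3 f_pp_012_a t 14 3 1 = true :=
  ⟨(l 3), by decide +kernel⟩

def k8_pp_012_a : ∃ t, chk3 f_pp_012_a t 30 6 1 = true :=
  ⟨(l 3), by decide +kernel⟩

def k9_pp_012_a : ∃ t, chk3 f_pp_012_a t 31 12 1 = true :=
  ⟨(a (a (l 3) (a (l 3) (b (b (a (l 3) (c (c (l 13589478887) (l 7683892535)) (c (l 16732128) (l 16728264)))) (l 3)) (l 3)))) (a (c (b (c (b (a (c (l 16741160) (l 16739200)) (l 16731880)) (a (c (l 10368255799) (l 9831381159)) (c (l 16730440) (l 16728696)))) (b (a (b (l 16730384) (l 16737040)) (l 16723016)) (a (b (l 10368245575) (l 8757635303)) (l 16726104)))) (c (b (a (c (b (l 16745696) (l 16746960)) (b (l 16738664) (l 16739976))) (c (l 16738712) (l 16731816))) (a (a (l 3) (c (l 6610162503)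 (l 16745928))) (a (b (l 16737104) (l 16744016)) (l 16739112)))) (b (a (b (l 7683895943) (l 6073285335)) (l 16739848)) (a (b (l 9831372711) (l 8757633367)) (b (l 16731920) (l 16744184)))))) (b (b (c (a (l 16735120) (l 16719448)) (a (l 16723512) (l 16715944))) (c (a (b (l 16729528) (l 16731024)) (l 16722704)) (a (l 16737144) (l 16719360)))) (b (c (a (b (l 16732512) (l 16739256)) (l 16726136)) (a (l 9831369703) (l 16722952))) (c (a (b (l 9294504903) (l 8757636695)) (b (l 16728824) (l 16730688))) (a (b (l 16737520) (l 16739144)) (l 16737232)))))) (a (c (b (c (b (l 16718224) (l 16721240)) (b (l 16714872) (l 16718040))) (c (b (l 16724400) (l 16738232)) (b (l 16721376) (l 16724904)))) (b (c (l 16723688) (l 16710024)) (b (l 16727408) (c (l 16722096) (l 16719320))))) (c (b (c (b (l 16709768) (l 16712864)) (l 16718776)) (c (b (l 16716112) (l 16719552)) (b (l 16713360) (l 16716968)))) (b (b (l 16702152) (l 16705632)) (b (l 16709288) (l 16723632))))))), by decide +kernel⟩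

def k10_pp_012_a : ∃ t, chk3 f_pp_012_a t 62 13 1 = true :=
  ⟨(l 3), by decide +kernel⟩

def k11_pp_012_a : ∃ t, chk3 f_pp_012_a t 126 13 1 = true :=
  ⟨(b (c (a (b (a (l 3) (a (l 3) (b (c (l 16745640) (l 16739936)) (l 3)))) (l 3)) (b (c (b (c (l 16744456) (l 16737728)) (c (l 9294517207) (l 16744728))) (b (l 10368250519) (c (l 16738056) (l 16736640)))) (c (b (c (a (l 16744504) (l 16740792)) (l 7683905127)) (c (a (l 16746096) (l 16742672)) (l 6610165207))) (b (c (l 16745120) (l 16738512)) (c (l 6073292967) (l 16745632)))))) (a (a (l 3) (b (c (l 7147026039) (l 16740536)) (l 3))) (b (c (b (l 16732608) (l 16745024)) (b (l 16729744) (l 16731776))) (c (b (l 7683897239) (a (l 16740088) (l 16736864))) (b (l 16744304) (l 9831379351)))))) (c (b (a (l 3) (a (b (c (c (l 16747656) (l 16746360)) (l 7147035687)) (l 3)) (c (b (c (l 16744600) (l 16743344)) (c (l 16746512) (l 16745312))) (b (l 16741480) (l 16748768))))) (a (l 3) (a (l 3) (c (b (c (l 16748312) (l 16747176)) (c (l 7147045911)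 (l 16754064))) (b (c (l 16746040) (l 16744912)) (c (l 16747760) (l 16746704))))))) (a (l 3) (a (b (c (b (l 16741912) (l 3)) (l 6610159815)) (l 3)) (b (c (b (l 16739016) (l 16741168)) (l 5536414663)) (c (b (l 16748480) (l 16750376)) (b (l 16741024) (l 16743064)))))))), by decide +kernel⟩

def k12_pp_012_a : ∃ t, chk3 f_pp_012_a t 127 13 1 = true :=
  ⟨(b (c (a (c (b (b (l 16730400) (l 16732232)) (b (l 16739360) (c (l 16736672) (l 16735456)))) (b (l 16739136) (b (l 16731608) (l 16733648)))) (b (c (l 16733688) (l 16720800)) (c (b (l 16726088) (l 16728080)) (l 16735336)))) (b (a (c (l 16726024) (l 16723432)) (c (l 16718416) (l 16716064))) (a (c (l 16740664) (l 16727776)) (c (l 16722656) (l 16720480))))) (c (a (a (b (c (b (l 16740048) (l 16747328)) (b (l 16737672) (l 16739808))) (c (b (l 16749240) (c (l 16746360) (l 16745352))) (b (l 16741848) (l 16743848)))) (b (c (l 16742296) (l 16734856)) (c (b (l 16739912) (l 16741808)) (l 16749392)))) (b (c (b (l 16730032) (l 16731896)) (b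 (l 16727968) (l 16729960))) (c (b (l 16744256) (l 16743600)) (b (l 16731968) (l 16734064))))) (a (b (c (b (l 16733456) (l 16735664)) (b (l 16731192) (l 16733496))) (c (b (l 16748296) (a (l 16741856) (l 16738072))) (b (l 16735768) (l 16748544)))) (b (c (l 16737440) (l 16724992)) (c (b (l 16730176) (l 16732392)) (l 16740040)))))), by decide +kernel⟩

def k13_pp_012_a : ∃ t, chk3 f_pp_012_a t 15 7 1 = true :=
  ⟨(a (l 3) (b (a (l 3) (a (a (l 3) (a (l 3) (b (b (b (c (c (c (l 11978886167) (l 10905142535)) (c (l 16752056) (l 16748456))) (c (l 7147040807) (l 16745080))) (l 3)) (l 3)) (l 3)))) (b (a (c (b (a (c (b (c (l 16748264) (l 16747328)) (c (b (l 16749728) (l 16750704)) (l 8757658503))) (b (c (l 16746392) (l 16745456)) (c (l 16753696) (l 16747584)))) (c (b (l 16743808) (c (l 16746312) (l 16745496))) (b (l 16742064) (l 16744288)))) (c (b (a (c (b (l 16754296) (l 8220792103)) (b (l 16750856) (l 16754472))) (c (l 16748472) (l 16747720))) (a (a (l 3) (c (l 16755952) (l 16752608)))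 (c (l 16753208) (l 16755152)))) (b (a (c (l 8220789671) (l 8757658983)) (l 16751848)) (a (c (b (l 16752024) (l 16752968)) (l 7683920231)) (c (l 16749224) (l 16748544)))))) (a (b (c (b (l 16744064) (l 10905137079)) (b (l 16742224) (l 16744584))) (c (b (c (l 16754168) (l 16748136)) (c (l 7683919111) (l 16755552))) (b (l 16752192) (l 8220787399)))) (b (c (b (l 16740328) (l 16742680)) (l 16750320)) (c (b (l 16745112) (l 16747528)) (b (l 16743624) (l 16746168)))))) (a (c (b (c (b (l 16739800) (l 16741936)) (l 16749792)) (c (b (l 16744176) (l 16751616)) (b (l 16742800) (l 16745128)))) (b (c (l 16737760) (l 16736216)) (c (l 16747232) (l 16746576)))) (c (b (c (l 16742104) (l 16735440)) (b (c (l 16740248) (l 16739000)) (l 6))) (b (c (l 16734016) (l 16732592)) (c (l 16744216) (l 16748256)))))) (a (a (a (l 3) (l 6)) (l 6)) (l 6))))) (a (l 3) (l 6)))), by decide +kernel⟩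

theorem s14_pp_012_a : ∃ t, chk3 f_pp_012_a t 63 13 1 = true := ex3_a k11_pp_012_a k12_pp_012_a

theorem s15_pp_012_a : ∃ t, chk3 f_pp_012_a t 31 13 1 = true := ex3_a k10_pp_012_a s14_pp_012_a

theorem s16_pp_012_a : ∃ t, chk3 f_pp_012_a t 31 6 1 = true := ex3_b k9_pp_012_a s15_pp_012_a

theorem s17_pp_012_a : ∃ t, chk3 f_pp_012_a t 15 6 1 = true := ex3_a k8_pp_012_a s16_pp_012_a

theorem s18_pp_012_a : ∃ t, chk3 f_pp_012_a t 15 3 1 = true := ex3_b s17_pp_012_a k13_pp_012_a

theorem s19_pp_012_a : ∃ t, chk3 f_pp_012_a t 7 3 1 = true := ex3_a k7_pp_012_a s18_pp_012_a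

theorem s20_pp_012_a : ∃ t, chk3 f_pp_012_a t 31 5 1 = true := ex3_a k5_pp_012_a k6_pp_012_a

theorem s21_pp_012_a : ∃ t, chk3 f_pp_012_a t 31 2 1 = true := ex3_b k4_pp_012_a s20_pp_012_a

theorem s22_pp_012_a : ∃ t, chk3 f_pp_012_a t 15 2 1 = true := ex3_a k3_pp_012_a s21_pp_012_a

theorem s23_pp_012_a : ∃ t, chk3 f_pp_012_a t 7 2 1 = true := ex3_a k2_pp_012_a s22_pp_012_a

theorem s24_pp_012_a : ∃ t, chk3 f_pp_012_a t 7 1 1 = true := ex3_b s23_pp_012_a s19_pp_012_a

theorem s25_pp_012_a : ∃ t, chk3 f_pp_012_a t 3 1 1 = true := ex3_a k1_pp_012_a s24_pp_012_a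

theorem s26_pp_012_a : ∃ t, chk3 f_pp_012_a t 1 1 1 = true := ex3_a k0_pp_012_a s25_pp_012_a

theorem c_pp_012_a : CertN 0 536870912 0 536870912 134217728 67108864 3 false true true .pnp 0 1 2
    ndN0q0 ndN2q2a pcN1 cut_pp_012_a Ext.none :=
  certN2 (fam := false) (s1 := true) (s2 := true) (a := 0) (b := 1) (c := 2) (cn := .pnp) (n1 := ndN0q0) (n2 := ndN2q2a) (pc := pcN1) (cut := cut_pp_012_a) (xt := Ext.none) (P1 := 0) (W1 := 536870912) (P2 := 0) (W2 := 536870912) (P3 := 134217728) (W3 := 67108864) (N0 := 3)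
    rfl (fun _ => rfl) s26_pp_012_a

noncomputable def cut_pp_012_b : Cut := Cut.of [[⟨0, 0, 0, 67108864⟩, ⟨1, 1, 0, 67108864⟩, ⟨2, 1, 0, 67108864⟩]]

noncomputable def f_pp_012_b : ℕ → ℕ → ℕ → ℕ → Bool := onCell 536870912 536870912 1239849684 370763052 134217728 67108864
    (rowN 3 2 false true true .pnp 0 1 2 (qsf 0 536870912 1239849684 370763052 1) ndN0q0 ndN2q2b pcN1 cut_pp_012_b Ext.none)

def k0_pp_012_b : ∃ t, chk3 f_pp_012_b t 1 1 1 = true :=
  ⟨(a (l 3) (b (a (l 3) (a (l 3) (b (a (a (l 3) (a (l 3) (a (l 3) (b (c (b (c (l 17151056) (l 17043096)) (l 17198568)) (b (c (l 8757836919) (l 16719032)) (c (l 17048672) (l 16947392)))) (l 3))))) (b (a (c (b (a (c (l 17151248) (l 17010320)) (c (l 17142664) (l 17004776))) (c (l 17260816) (l 17144720))) (b (b (a (c (l 16874160) (l 16748928)) (l 16719456)) (a (c (l 16944576) (l 16825104)) (l 16753904))) (a (c (l 17038056) (b (l 16894472) (l 16957576))) (c (l 17014448) (l 16888280))))) (c (b (a (c (l 17123584) (l 16964968)) (c (l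 17090864) (l 16908176))) (a (l 17192160) (l 17173448))) (a (b (l 16682336) (c (l 16980296) (l 16837280))) (a (l 16679880) (l 16674800))))) (c (a (b (l 17298352) (l 17374672)) (b (l 17306392) (l 17401016))) (b (a (a (l 17009184) (l 17056528)) (a (l 17054304) (l 17021856))) (a (l 17183440) (b (l 17135000) (l 17190496))))))) (a (l 3) (a (b (c (l 17458568) (l 17295384)) (l 17459840)) (b (c (l 17502712) (b (l 17262520) (l 17340040))) (l 17503336))))))) (a (l 3) (a (l 3) (a (l 3) (b (b (c (l 17583288) (l 17467968)) (l 17535976)) (b (l 17520776) (l 17488472)))))))), by decide +kernel⟩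

theorem c_pp_012_b : CertN 0 536870912 1239849684 370763052 134217728 67108864 3 false true true .pnp 0 1 2
    ndN0q0 ndN2q2b pcN1 cut_pp_012_b Ext.none :=
  certN2 (fam := false) (s1 := true) (s2 := true) (a := 0) (b := 1) (c := 2) (cn := .pnp) (n1 := ndN0q0) (n2 := ndN2q2b) (pc := pcN1) (cut := cut_pp_012_b) (xt := Ext.none) (P1 := 0) (W1 := 536870912) (P2 := 1239849684) (W2 := 370763052) (P3 := 134217728) (W3 := 67108864) (N0 := 3)
    rfl (fun _ => rfl) k0_pp_012_b

noncomputable def cut_pp_022_a : Cut := Cut.of [[⟨0, 0, 0, 67108864⟩, ⟨1, 1, 0, 67108864⟩, ⟨2, 1, 0, 67108864⟩]]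

noncomputable def f_pp_022_a : ℕ → ℕ → ℕ → ℕ → Bool := onCell 1073741824 536870912 0 536870912 134217728 67108864
    (rowN 3 2 false true true .pp 0 2 2 (qsf 0 536870912 0 536870912 2) ndN0q0 ndN2q2a pcN2 cut_pp_022_a Ext.none)

def k0_pp_022_a : ∃ t, chk3 f_pp_022_a t 4 4 1 = true :=
  ⟨(a (a (a (b (c (b (l 16748120) (a (l 16825336) (l 16835824))) (a (l 16665504) (l 16651072))) (c (a (b (l 16757432) (c (l 16891280) (l 16679448))) (l 16680168)) (b (l 16684304) (l 16688032)))) (b (c (l 16786952) (l 16629872)) (c (b (l 16792312) (l 16743800)) (l 16657256)))) (a (b (c (l 16816808) (l 16602112)) (c (l 16727520) (l 16628848))) (b (c (l 16809512) (l 16575056)) (c (l 16735048) (l 16601064))))) (a (a (c (b (l 16806472) (l 16726376)) (b (l 16569584) (l 16573608))) (a (c (b (a (l 16806512) (l 16806952)) (a (l 16723208) (l 16722432))) (b (l 16548200) (l 16572728))) (c (b (l 16808384) (a (l 16722008) (l 16722168))) (b (l 16537720) (l 16545424))))) (a (a (c (b (l 16811800) (l 16681600))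 (b (l 16538040) (l 16545504))) (c (b (l 16816560) (l 16726264)) (b (l 16516344) (l 16544608)))) (b (c (a (l 16822872) (l 16830680)) (a (l 16515792) (l 16515272))) (c (a (l 16730624) (l 16715584)) (a (l 16543840) (l 16522096))))))), by decide +kernel⟩

def k1_pp_022_a : ∃ t, chk3 f_pp_022_a t 4 5 1 = true :=
  ⟨(a (a (a (b (c (b (a (c (l 16834936) (l 16683400)) (l 16699616)) (a (c (l 16757992) (l 16687600)) (l 16673608))) (b (l 16692048) (a (l 16682960) (l 16668080)))) (c (b (a (c (l 16695040) (l 16692120)) (l 16688520)) (a (c (l 16710256) (l 16697064)) (l 16693368))) (b (a (l 16698216) (l 16672832)) (a (c (l 16694360) (l 16691640)) (l 16678088))))) (b (c (b (l 16674144) (l 16671720)) (b (l 16641896) (l 16646128))) (c (b (c (l 16656200) (l 16654056)) (c (l 16681920) (l 16679960))) (b (l 16671784) (l 16677008))))) (a (c (b (b (l 16645632) (l 16641608)) (b (l 16645800) (l 16650256))) (b (l 16636080) (b (l 16642640) (l 16647512)))) (b (c (b (l 16623096) (l 16611736)) (c (l 16608144)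 (l 16606912))) (c (b (l 16615360) (l 16619336)) (b (l 16613384) (l 16617816)))))) (a (a (b (c (b (l 16605952) (l 16581824)) (l 16579096)) (c (b (l 16585240) (l 16588872)) (l 16590040))) (b (a (c (a (l 16564384) (l 16563320)) (l 16578888)) (c (b (l 16592344) (l 16568168)) (l 16571096))) (a (a (c (l 16581936) (l 16584968)) (c (a (l 16580792) (l 16580056)) (l 16583552))) (c (b (l 16579240) (l 16591872)) (b (l 16576176) (l 16588824)))))) (a (b (c (a (b (l 16590368) (l 16568880)) (l 16567008)) (a (l 16560264) (l 16559016))) (c (b (a (l 16579536) (l 16578872)) (a (l 16591704) (l 16585376))) (a (b (l 16575392) (l 16587680)) (b (l 16552800) (l 16585752))))) (b (c (a (l 16566864) (b (l 16593992) (l 16546888))) (a (l 16557848) (l 16556632))) (c (a (b (l 16578184) (c (l 16569960) (l 16567096))) (b (l 16566896) (c (l 16568880) (l 16565648)))) (a (b (l 16551208) (l 16562848)) (b (l 16549560) (l 16581808)))))))), by decide +kernel⟩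

def k2_pp_022_a : ∃ t, chk3 f_pp_022_a t 5 2 1 = true :=
  ⟨(a (a (a (b (c (b (a (l 16839920) (l 16850488)) (a (l 16660104) (c (l 16962768) (l 16542080)))) (b (a (l 16514704) (l 16514000)) (a (l 16521256) (l 16520264)))) (c (b (a (b (l 16598520) (l 16546296)) (b (l 16604512) (l 16555920))) (a (b (c (l 16557344) (l 16553496)) (l 16582840)) (b (l 16554144) (l 1)))) (b (a (l 16555336) (l 16553880)) (a (b (l 16547800) (l 16558712)) (b (l 16545880) (l 1)))))) (b (a (b (c (l 16736280) (l 16512960)) (c (c (l 16977224) (l 16547088)) (l 16518960))) (a (c (b (l 16850392) (b (l 16810704) (l 16730784))) (b (l 16511960) (l 16517752))) (c (b (a (l 16791736) (c (l 17088720) (l 16666016))) (a (l 16772168) (l 1))) (b (a (l 16511256) (l 16510888)) (a (l 16516976) (l 1)))))) (a (b (c (b (c (l 16838256) (l 16534568)) (l 16544112)) (l 16552112)) (l 1)) (l 1)))) (b (b (l 1) (l 1)) (l 1))) (l 1)), by decide +kernel⟩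

def k3_pp_022_a : ∃ t, chk3 f_pp_022_a t 16 6 1 = true :=
  ⟨(b (a (a (c (b (c (b (l 16703648) (l 16706408)) (l 16718272)) (c (b (l 16709336) (l 16722936)) (b (l 16707088) (l 16720840)))) (b (c (l 16710568) (l 16718592)) (a (b (l 16707472) (l 16721432)) (l 16701704)))) (c (b (c (l 16689344) (l 16687200)) (c (l 16705704) (l 16693344))) (b (l 16683960) (l 16711488)))) (b (c (c (l 16687080) (l 16685360)) (l 16682768)) (c (a (c (l 16679560) (l 16677984)) (l 16673680)) (b (l 16687440) (l 16690672))))) (a (b (a (c (b (c (l 16726240) (l 16724304)) (a (c (l 16723152) (l 16721320)) (l 16724784))) (b (c (l 16722360) (l 16720400)) (c (l 16726072) (l 16724296)))) (c (c (l 16717136) (l 16710376)) (c (l 16708848) (l 16717792)))) (a (a (c (c (b (l 16736960) (b (l 16729056) (l 16730896))) (b (l 16724864) (l 16739072))) (b (c (l 16723240) (l 16721592)) (c (l 16727184) (l 16725768)))) (c (c (l 16730592) (l 16729272)) (b (l 16714744) (l 16718848)))) (c (b (c (l 16706352) (l 16705144)) (c (l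 16720536) (l 16709040))) (b (l 16724272) (l 16717960))))) (c (b (a (c (l 16695960) (l 16705248)) (b (l 16667712) (l 16692072))) (a (b (l 16700624) (l 16704568)) (b (l 16695792) (l 16689400)))) (b (b (l 16694072) (l 16697744)) (a (b (l 16688240) (l 16713472)) (l 16691232)))))), by decide +kernel⟩

def k4_pp_022_a : ∃ t, chk3 f_pp_022_a t 17 6 1 = true :=
  ⟨(b (a (c (b (c (l 16655608) (l 16654512)) (c (l 16660800) (l 16660000))) (b (l 16652832) (l 16658760))) (b (c (c (l 16624312) (l 16623792)) (l 16622960)) (c (a (l 16637296) (l 16620552)) (a (l 16636392) (l 16629760))))) (a (a (b (c (l 16669480) (l 16673352)) (c (b (l 16680368) (l 16674120)) (l 16676280))) (b (c (l 16652664) (l 16658304)) (c (b (l 16667352) (l 16667112)) (b (l 16666600) (l 16676808))))) (b (c (a (b (l 16646280) (l 16655736)) (c (l 16638824) (l 16648640))) (a (l 16650064) (l 16637112))) (c (a (b (l 16665488) (l 16662384)) (b (c (l 16642392) (l 16641736)) (c (l 16652144) (l 16651528)))) (a (b (l 16664392) (l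 16674408)) (b (l 16640704) (l 16661024))))))), by decide +kernel⟩

def k5_pp_022_a : ∃ t, chk3 f_pp_022_a t 18 6 1 = true :=
  ⟨(a (b (c (b (c (l 16611992) (l 16611080)) (c (l 16620344) (l 16616792))) (b (l 16609712) (a (l 16627240) (l 16624256)))) (b (c (b (c (l 16620048) (l 16619136)) (c (l 16639488) (l 16638608))) (b (l 16628216) (a (l 16628304) (l 16624992)))) (c (b (a (c (l 16639688) (l 16638920)) (c (l 16636456) (l 16635600))) (a (c (l 16649200) (l 16648496)) (a (c (l 16646640) (l 16645896)) (c (l 16644760) (l 16643992))))) (b (a (l 16637688) (l 16644704)) (a (c (l 16647744) (l 16646944)) (a (l 16642032) (b (l 16640296) (l 1)))))))) (b (c (a (a (b (l 16587040) (l 16613392)) (b (l 16606616) (c (l 16601936) (l 16600784)))) (b (c (l 16606672) (l 16605192)) (c (l 16621936) (l 16620560)))) (a (b (l 16611272) (a (l 16600672) (l 16619976))) (b (l 16602952) (b (l 16614336) (l 16622392))))) (b (c (a (b (c (l 16637064) (l 16635976)) (c (l 16645664) (l 16644648))) (b (c (l 16623472)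 (l 16622208)) (a (c (l 16621304) (l 16620232)) (l 16630216)))) (a (a (l 16628288) (b (l 16611528) (l 16620304))) (b (c (l 16631384) (l 16630024)) (a (l 16618504) (l 16617192))))) (b (a (c (a (c (l 16633608) (l 16632720)) (c (l 16631728) (l 16630824))) (a (l 16631272) (l 16639824))) (l 1)) (l 1))))), by decide +kernel⟩

def k6_pp_022_a : ∃ t, chk3 f_pp_022_a t 19 6 1 = true :=
  ⟨(a (a (b (c (b (c (l 16606184) (l 16604280)) (b (c (l 16595992) (l 16594208)) (c (l 16614064) (l 16601896)))) (b (l 16601408) (b (l 16612456) (a (l 16599064) (l 16597768))))) (a (b (b (c (c (l 16610992) (l 16609528)) (l 16607240)) (l 1)) (l 1)) (l 1))) (b (c (b (c (l 16594336) (l 16581568)) (b (c (l 16594208) (l 16592096)) (c (l 16601496) (l 16599520)))) (b (l 16599112) (b (l 16599376) (l 16596488)))) (l 1))) (b (b (a (c (c (l 16592880) (l 16590248)) (b (l 16572360) (l 16579160))) (c (c (l 16580776) (l 16577832)) (l 16573408))) (l 1)) (l 1))), by decide +kernel⟩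

def k7_pp_022_a : ∃ t, chk3 f_pp_022_a t 8 7 1 = true :=
  ⟨(a (b (a (b (a (a (c (b (c (b (l 16732824) (l 16745344)) (b (l 16731608) (l 16733744))) (b (c (l 16742240) (l 16735976)) (l 6))) (b (c (l 16736720) (l 16740752)) (a (c (l 16737984) (l 16736944)) (l 16744184)))) (c (b (c (l 16725904) (l 16724880)) (c (l 16730200) (l 16729360))) (b (l 16723296) (l 16738536)))) (c (b (c (l 16724632) (l 16723784)) (c (l 16729080) (l 16728392))) (b (l 16722480) (c (l 16727688) (l 16726960))))) (l 6)) (b (a (c (b (c (l 16719720) (l 16719080)) (c (l 16713880) (l 16713360))) (b (l 16707608) (l 16712552))) (c (b (l 16696528) (c (l 16698992) (l 16709072))) (b (l 16703408) (l 16697976)))) (l 6))) (l 6)) (b (b (a (b (c (a (l 16680712) (c (l 16688280) (l 16687912))) (a (l 16689424) (l 16676832))) (b (c (a (l 16687608) (l 16680360)) (a (l 16676656) (l 16674376))) (l 6))) (a (c (b (c (l 16675480) (l 16664512)) (b (a (l 16673224) (l 16671800)) (l 6))) (b (l 16674224) (c (l 16685088) (l 16684584))))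 (b (c (c (b (l 16659552) (l 16664576)) (l 16672040)) (c (l 16660960) (l 16660320))) (c (b (a (l 16675464) (c (l 16668776) (l 16668304))) (a (l 6) (c (l 16674000) (l 16673568)))) (b (a (l 16669192) (l 16667464)) (a (l 6) (l 16672784))))))) (a (l 6) (a (l 6) (a (l 6) (l 1))))) (a (l 6) (l 1)))), by decide +kernel⟩

def k8_pp_022_a : ∃ t, chk3 f_pp_022_a t 9 7 1 = true :=
  ⟨(a (a (c (a (b (b (b (a (c (b (l 16657224) (l 16662144)) (l 16659120)) (b (c (l 16655552) (l 16654912)) (l 16660128))) (b (c (l 16666240) (l 16665728)) (l 1))) (l 1)) (l 1)) (b (b (b (c (l 16655176) (l 16654544)) (l 1)) (l 1)) (l 1))) (b (b (b (a (b (a (l 16655584) (l 16653824)) (a (l 16660624) (l 16658816))) (l 16653440)) (a (b (l 16664816) (l 1)) (l 1))) (l 1)) (l 1))) (l 1)) (l 1)), by decide +kernel⟩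

def k9_pp_022_a : ∃ t, chk3 f_pp_022_a t 5 3 1 = true :=
  ⟨(b (l 1) (l 1)), by decide +kernel⟩

def k10_pp_022_a : ∃ t, chk3 f_pp_022_a t 3 1 1 = true :=
  ⟨(l 1), by decide +kernel⟩

theorem s11_pp_022_a : ∃ t, chk3 f_pp_022_a t 4 7 1 = true := ex3_a k7_pp_022_a k8_pp_022_a

theorem s12_pp_022_a : ∃ t, chk3 f_pp_022_a t 9 6 1 = true := ex3_a k5_pp_022_a k6_pp_022_a

theorem s13_pp_022_a : ∃ t, chk3 f_pp_022_a t 8 6 1 = true := ex3_a k3_pp_022_a k4_pp_022_a

theorem s14_pp_022_a : ∃ t, chk3 f_pp_022_a t 4 6 1 = true := ex3_a s13_pp_022_a s12_pp_022_a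

theorem s15_pp_022_a : ∃ t, chk3 f_pp_022_a t 4 3 1 = true := ex3_b s14_pp_022_a s11_pp_022_a

theorem s16_pp_022_a : ∃ t, chk3 f_pp_022_a t 2 3 1 = true := ex3_a s15_pp_022_a k9_pp_022_a

theorem s17_pp_022_a : ∃ t, chk3 f_pp_022_a t 4 2 1 = true := ex3_b k0_pp_022_a k1_pp_022_a

theorem s18_pp_022_a : ∃ t, chk3 f_pp_022_a t 2 2 1 = true := ex3_a s17_pp_022_a k2_pp_022_a

theorem s19_pp_022_a : ∃ t, chk3 f_pp_022_a t 2 1 1 = true := ex3_b s18_pp_022_a s16_pp_022_a

theorem s20_pp_022_a : ∃ t, chk3 f_pp_022_a t 1 1 1 = true := ex3_a s19_pp_022_a k10_pp_022_a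

theorem c_pp_022_a : CertN 0 536870912 0 536870912 134217728 67108864 3 false true true .pp 0 2 2
    ndN0q0 ndN2q2a pcN2 cut_pp_022_a Ext.none :=
  certN2 (fam := false) (s1 := true) (s2 := true) (a := 0) (b := 2) (c := 2) (cn := .pp) (n1 := ndN0q0) (n2 := ndN2q2a) (pc := pcN2) (cut := cut_pp_022_a) (xt := Ext.none) (P1 := 0) (W1 := 536870912) (P2 := 0) (W2 := 536870912) (P3 := 134217728) (W3 := 67108864) (N0 := 3)
    rfl (fun _ => rfl) s20_pp_022_a

noncomputable def cut_pp_022_b : Cut := Cut.of [[⟨0, 0, 0, 67108864⟩, ⟨1, 1, 0, 67108864⟩, ⟨2, 1, 0, 67108864⟩]]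

noncomputable def f_pp_022_b : ℕ → ℕ → ℕ → ℕ → Bool := onCell 1073741824 536870912 1239849684 370763052 134217728 67108864
    (rowN 3 2 false true true .pp 0 2 2 (qsf 0 536870912 1239849684 370763052 2) ndN0q0 ndN2q2b pcN2 cut_pp_022_b Ext.none)

def k0_pp_022_b : ∃ t, chk3 f_pp_022_b t 4 4 1 = true :=
  ⟨(a (a (b (c (b (a (a (c (l 17081304) (l 16880208)) (l 16914552)) (c (l 17087976) (l 16860568))) (a (c (l 17264952) (l 17087128)) (l 17186744))) (a (a (b (l 16660400) (l 16781928)) (l 16658584)) (b (l 16624376) (l 16793784)))) (c (b (a (l 17322480) (l 17342280)) (l 17444656)) (a (b (a (l 17011856) (l 17006568)) (l 17156080)) (b (l 17000560) (l 17157552))))) (b (c (b (a (l 16911416) (l 16915384)) (a (l 17200784) (l 17218256))) (a (b (l 16596464) (l 16774744)) (b (l 16569368) (l 16759856)))) (c (b (l 17377416) (l 17501152)) (b (a (l 16995800) (l 16994568)) (l 17165736))))) (a (a (b (c (b (l 16923040) (l 17238800)) (b (l 16564112) (l 16748656))) (c (l 17489672) (l 17032296)))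 (b (a (c (b (a (l 16992384) (l 16995248)) (l 17255440)) (b (l 16612752) (l 16742168))) (c (b (a (l 16998296) (l 17001592)) (l 17267376)) (b (l 16550440) (l 16738912)))) (a (c (l 17513512) (b (l 16999344) (l 17189816))) (c (l 17529992) (b (l 17002136) (l 17196584)))))) (a (b (c (a (b (l 16839528) (l 17279408)) (b (l 16911152) (l 17292648))) (a (b (l 16517816) (l 16736576)) (b (l 16517552) (l 16735400)))) (c (a (l 17545568) (l 17562176)) (a (l 17027400) (l 17117144)))) (b (c (b (a (l 16942160) (l 16932528)) (a (l 17306904) (l 17322232))) (a (b (l 16517496) (l 16735456)) (b (l 16517488) (l 16736800)))) (c (b (l 17511144) (l 17651576)) (a (l 17123736) (l 17131128))))))), by decide +kernel⟩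

def k1_pp_022_b : ∃ t, chk3 f_pp_022_b t 4 5 1 = true :=
  ⟨(a (b (a (c (l 17563488) (b (l 17274216) (l 17365960))) (c (l 17629088) (b (l 17296032) (l 17396088)))) (a (c (l 17654592) (l 17464680)) (c (l 17726944) (l 17503824)))) (a (a (b (c (l 17684200) (l 17376792)) (l 17664088)) (c (b (l 17717976) (l 17822152)) (b (a (l 17391440) (l 17401912)) (l 17562088)))) (a (b (c (l 17753840) (l 17413816)) (l 17723400)) (b (c (l 17792432) (l 17436704)) (l 17756128))))), by decide +kernel⟩

def k2_pp_022_b : ∃ t, chk3 f_pp_022_b t 5 2 1 = true :=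
  ⟨(a (a (a (b (b (c (b (a (l 16882224) (c (l 17244832) (l 16882064))) (a (l 17338576) (l 17355896))) (b (a (l 16517440) (l 16517264)) (a (l 16739424) (l 16743280)))) (c (l 17604080) (b (l 17030480) (l 17241120)))) (b (c (l 17831712) (l 17460792)) (l 17789104))) (b (b (a (b (c (c (l 17263584) (l 16892832)) (l 16516752)) (c (l 17374096) (l 16748264))) (c (a (b (c (l 17278104) (l 16901472)) (l 17388232)) (b (a (c (l 17285344) (l 16905800)) (c (l 17290152) (l 16803912))) (a (l 17395368) (l 17400200)))) (a (b (l 16495136) (l 16752680)) (a (b (l 16494600) (l 16755024)) (b (l 16515328) (l 16756728)))))) (c (a (l 17655128) (a (l 17670640) (l 17681240))) (a (l 17158552) (a (l 17166600) (a (l 17170768) (l 17068784)))))) (b (a (l 17672120) (a (l 17684848) (a (l 17691384) (l 17695808)))) (a (l 17814752) (l 17832400))))) (b (b (c (b (a (a (c (l 17300976) (l 32245584215)) (b (l 17023744) (l 17174616))) (a (l 17010304) (l 1))) (a (l 17403128) (b (l 17336216) (l 17528520)))) (a (b (a (l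 16494904) (l 16495336)) (l 16578560)) (b (l 16517976) (a (l 16782096) (l 16604328))))) (b (c (l 17485736) (a (l 17070056) (l 17096696))) (c (l 17795984) (l 17198616)))) (b (c (l 17934312) (l 17528704)) (l 17872184)))) (b (a (b (a (b (l 1) (c (l 17289472) (b (l 1) (l 16900848)))) (l 1)) (c (a (l 17802856) (l 143916593607)) (b (a (l 17127672) (l 16989704)) (l 17369720)))) (b (l 1) (c (b (l 17804520) (l 17977984)) (a (b (l 17183888) (l 17423808)) (l 17330336))))) (b (a (c (l 18025080) (l 17594992)) (c (l 18123304) (b (l 17607176) (l 17725256)))) (a (l 17944360) (l 18024392))))), by decide +kernel⟩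

def k3_pp_022_b : ∃ t, chk3 f_pp_022_b t 2 3 1 = true :=
  ⟨(a (b (a (a (b (l 17617672) (l 17633816)) (b (l 17679448) (l 17699736))) (a (a (l 17747184) (c (l 17873312) (l 17682136))) (a (b (l 17794256) (l 17818544)) (l 17846040)))) (a (a (l 17605192) (l 17674776)) (a (a (l 17730952) (l 17763424)) (a (l 17797488) (l 17833336))))) (a (a (a (b (l 17880208) (l 17868304)) (b (a (l 17906408) (l 17924168)) (l 17905472))) (b (l 17960152) (l 17946752))) (b (a (l 18023776) (l 18092568)) (a (l 18007448) (l 18068912))))), by decide +kernel⟩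

def k4_pp_022_b : ∃ t, chk3 f_pp_022_b t 3 1 1 = true :=
  ⟨(a (b (b (l 1) (a (b (c (l 18221848) (a (l 17730648) (l 17771456))) (c (l 18342152) (l 17954744))) (b (l 1) (l 18259488)))) (b (a (l 18213664) (b (l 18356000) (l 18372384))) (a (l 18180816) (l 18327944)))) (b (l 1) (b (a (l 18470560) (l 1)) (l 18526712)))), by decide +kernel⟩

theorem s5_pp_022_b : ∃ t, chk3 f_pp_022_b t 4 2 1 = true := ex3_b k0_pp_022_b k1_pp_022_b

theorem s6_pp_022_b : ∃ t, chk3 f_pp_022_b t 2 2 1 = true := ex3_a s5_pp_022_b k2_pp_022_b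

theorem s7_pp_022_b : ∃ t, chk3 f_pp_022_b t 2 1 1 = true := ex3_b s6_pp_022_b k3_pp_022_b

theorem s8_pp_022_b : ∃ t, chk3 f_pp_022_b t 1 1 1 = true := ex3_a s7_pp_022_b k4_pp_022_b

theorem c_pp_022_b : CertN 0 536870912 1239849684 370763052 134217728 67108864 3 false true true .pp 0 2 2
    ndN0q0 ndN2q2b pcN2 cut_pp_022_b Ext.none :=
  certN2 (fam := false) (s1 := true) (s2 := true) (a := 0) (b := 2) (c := 2) (cn := .pp) (n1 := ndN0q0) (n2 := ndN2q2b) (pc := pcN2) (cut := cut_pp_022_b) (xt := Ext.none) (P1 := 0) (W1 := 536870912) (P2 := 1239849684) (W2 := 370763052) (P3 := 134217728) (W3 := 67108864) (N0 := 3)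
    rfl (fun _ => rfl) s8_pp_022_b

noncomputable def f_pp_023 : ℕ → ℕ → ℕ → ℕ → Bool := onCell 0 536870912 1073741824 536870912 134217728 67108864
    (rowN 3 1 false true true .up 0 2 3 (qsf 0 536870912 1610612736 536870912 2) ndN0q0 ndN2q3 pcN2 Cut.none Ext.none)

def k0_pp_023 : ∃ t, chk3 f_pp_023 t 1 1 1 = true :=
  ⟨(a (a (b (l 1) (l 279210022391)) (b (b (l 1) (b (l 1) (l 291020748807))) (b (l 18192672) (l 18228432)))) (b (a (b (a (l 1) (b (l 1) (b (l 1) (l 296925942679)))) (b (b (b (l 17971384) (l 146065375623)) (l 18004728)) (l 148749771703))) (b (b (a (l 286187591799) (l 306588815159)) (b (b (l 17834032) (l 17859712)) (b (l 17842928) (l 17847432)))) (b (b (b (l 17849040) (l 17851640)) (l 17837440)) (l 18035496)))) (b (a (l 18036944) (l 17801440)) (a (l 18044584) (b (l 17795864) (l 17785288)))))), by decide +kernel⟩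

theorem c_pp_023 : CertN 0 536870912 1610612736 536870912 134217728 67108864 3 false true true .up 0 2 3
    ndN0q0 ndN2q3 pcN2 Cut.none Ext.none :=
  certN1 (fam := false) (s1 := true) (s2 := true) (a := 0) (b := 2) (c := 3) (cn := .up) (n1 := ndN0q0) (n2 := ndN2q3) (pc := pcN2) (cut := Cut.none) (xt := Ext.none) (P1 := 0) (W1 := 536870912) (P2 := 1610612736) (W2 := 536870912) (P3 := 134217728) (W3 := 67108864) (N0 := 3)
    rfl (fun _ => rfl) k0_pp_023

noncomputable def f_pp_033 : ℕ → ℕ → ℕ → ℕ → Bool := onCell 1610612736 536870912 1610612736 536870912 134217728 67108864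
    (rowN 3 2 false true true .pnn 0 3 3 (qsf 0 536870912 1610612736 536870912 3) ndN0q0 ndN2q3 pcN3 Cut.none Ext.none)

def k0_pp_033 : ∃ t, chk3 f_pp_033 t 1 1 1 = true :=
  ⟨(b (a (a (b (l 18013760) (l 17771072)) (a (l 222837974311) (b (l 1) (l 18043048)))) (a (a (l 214248264471) (l 1)) (l 1))) (a (a (b (a (l 17426448) (l 17574376)) (a (l 17160696) (l 17432688))) (b (a (l 17764624) (l 17922296)) (a (l 17652136) (l 17637200)))) (a (b (l 20437225143) (l 17845904)) (l 4)))), by decide +kernel⟩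

theorem c_pp_033 : CertN 0 536870912 1610612736 536870912 134217728 67108864 3 false true true .pnn 0 3 3
    ndN0q0 ndN2q3 pcN3 Cut.none Ext.none :=
  certN2 (fam := false) (s1 := true) (s2 := true) (a := 0) (b := 3) (c := 3) (cn := .pnn) (n1 := ndN0q0) (n2 := ndN2q3) (pc := pcN3) (cut := Cut.none) (xt := Ext.none) (P1 := 0) (W1 := 536870912) (P2 := 1610612736) (W2 := 536870912) (P3 := 134217728) (W3 := 67108864) (N0 := 3)
    rfl (fun _ => rfl) k0_pp_033

noncomputable def f_pp_101 : ℕ → ℕ → ℕ → ℕ → Bool := onCell 536870912 536870912 536870912 536870912 134217728 67108864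
    (rowN 3 0 false true true .npn 1 0 1 (qsf 536870912 536870912 536870912 536870912 0) ndN0q1 ndN2q1 pcN0 Cut.none Ext.none)

def k0_pp_101 : ∃ t, chk3 f_pp_101 t 1 1 1 = true :=
  ⟨(a (l 3) (l 5)), by decide +kernel⟩

theorem c_pp_101 : CertN 536870912 536870912 536870912 536870912 134217728 67108864 3 false true true .npn 1 0 1
    ndN0q1 ndN2q1 pcN0 Cut.none Ext.none :=
  certN0 (fam := false) (s1 := true) (s2 := true) (a := 1) (b := 0) (c := 1) (cn := .npn) (n1 := ndN0q1) (n2 := ndN2q1) (pc := pcN0) (cut := Cut.none) (xt := Ext.none) (P1 := 536870912) (W1 := 536870912) (P2 := 536870912) (W2 := 536870912) (P3 := 134217728) (W3 := 67108864) (N0 := 3)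
    rfl k0_pp_101

noncomputable def f_pp_102_a : ℕ → ℕ → ℕ → ℕ → Bool := onCell 536870912 536870912 0 536870912 134217728 67108864
    (rowN 3 0 false true true .npp 1 0 2 (qsf 536870912 536870912 0 536870912 0) ndN0q1 ndN2q2a pcN0 Cut.none Ext.none)

def k0_pp_102_a : ∃ t, chk3 f_pp_102_a t 1 1 1 = true :=
  ⟨(l 3), by decide +kernel⟩

theorem c_pp_102_a : CertN 536870912 536870912 0 536870912 134217728 67108864 3 false true true .npp 1 0 2
    ndN0q1 ndN2q2a pcN0 Cut.none Ext.none :=
  certN0 (fam := false) (s1 := true) (s2 := true) (a := 1) (b := 0) (c := 2) (cn := .npp) (n1 := ndN0q1) (n2 := ndN2q2a) (pc := pcN0) (cut := Cut.none) (xt := Ext.none) (P1 := 536870912) (W1 := 536870912) (P2 := 0) (W2 := 536870912) (P3 := 134217728) (W3 := 67108864) (N0 := 3)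
    rfl k0_pp_102_a

noncomputable def f_pp_102_b : ℕ → ℕ → ℕ → ℕ → Bool := onCell 536870912 536870912 0 536870912 134217728 67108864
    (rowN 3 1 false true true .npp 1 0 2 (qsf 536870912 536870912 1239849684 370763052 0) ndN0q1 ndN2q2b pcN0 Cut.none Ext.none)

def k0_pp_102_b : ∃ t, chk3 f_pp_102_b t 1 1 1 = true :=
  ⟨(l 3), by decide +kernel⟩

theorem c_pp_102_b : CertN 536870912 536870912 1239849684 370763052 134217728 67108864 3 false true true .npp 1 0 2
    ndN0q1 ndN2q2b pcN0 Cut.none Ext.none :=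
  certN1 (fam := false) (s1 := true) (s2 := true) (a := 1) (b := 0) (c := 2) (cn := .npp) (n1 := ndN0q1) (n2 := ndN2q2b) (pc := pcN0) (cut := Cut.none) (xt := Ext.none) (P1 := 536870912) (W1 := 536870912) (P2 := 1239849684) (W2 := 370763052) (P3 := 134217728) (W3 := 67108864) (N0 := 3)
    rfl (fun _ => rfl) k0_pp_102_b

noncomputable def f_pp_112_a : ℕ → ℕ → ℕ → ℕ → Bool := onCell 536870912 536870912 0 536870912 134217728 67108864
    (rowN 3 0 false true true .dn 1 1 2 (qsf 536870912 536870912 0 536870912 1) ndN0q1 ndN2q2a pcN1 Cut.none Ext.none)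

def k0_pp_112_a : ∃ t, chk3 f_pp_112_a t 1 1 1 = true :=
  ⟨(l 3), by decide +kernel⟩

theorem c_pp_112_a : CertN 536870912 536870912 0 536870912 134217728 67108864 3 false true true .dn 1 1 2
    ndN0q1 ndN2q2a pcN1 Cut.none Ext.none :=
  certN0 (fam := false) (s1 := true) (s2 := true) (a := 1) (b := 1) (c := 2) (cn := .dn) (n1 := ndN0q1) (n2 := ndN2q2a) (pc := pcN1) (cut := Cut.none) (xt := Ext.none) (P1 := 536870912) (W1 := 536870912) (P2 := 0) (W2 := 536870912) (P3 := 134217728) (W3 := 67108864) (N0 := 3)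
    rfl k0_pp_112_a

noncomputable def f_pp_112_b : ℕ → ℕ → ℕ → ℕ → Bool := onCell 536870912 536870912 536870912 536870912 134217728 67108864
    (rowN 3 1 false true true .dn 1 1 2 (qsf 536870912 536870912 1239849684 370763052 1) ndN0q1 ndN2q2b pcN1 Cut.none Ext.none)

def k0_pp_112_b : ∃ t, chk3 f_pp_112_b t 1 1 1 = true :=
  ⟨(b (l 3) (b (l 3) (a (b (l 3) (a (a (l 153177750391) (l 17528560)) (l 2))) (l 2)))), by decide +kernel⟩

theorem c_pp_112_b : CertN 536870912 536870912 1239849684 370763052 134217728 67108864 3 false true true .dn 1 1 2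
    ndN0q1 ndN2q2b pcN1 Cut.none Ext.none :=
  certN1 (fam := false) (s1 := true) (s2 := true) (a := 1) (b := 1) (c := 2) (cn := .dn) (n1 := ndN0q1) (n2 := ndN2q2b) (pc := pcN1) (cut := Cut.none) (xt := Ext.none) (P1 := 536870912) (W1 := 536870912) (P2 := 1239849684) (W2 := 370763052) (P3 := 134217728) (W3 := 67108864) (N0 := 3)
    rfl (fun _ => rfl) k0_pp_112_b

noncomputable def cut_pp_113 : Cut := Cut.of [[⟨0, 1, 0, 39843005⟩, ⟨1, 1, 0, 39843005⟩, ⟨2, 2, 0, 5814905⟩]]

noncomputable def f_pp_113 : ℕ → ℕ → ℕ → ℕ → Bool := onCell 536870912 536870912 536870912 536870912 134217728 67108864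
    (rowN 3 1 false true true .nn 1 1 3 (qsf 536870912 536870912 1610612736 536870912 1) ndN0q1 ndN2q3 pcN1 cut_pp_113 Ext.none)

def k0_pp_113 : ∃ t, chk3 f_pp_113 t 1 1 1 = true :=
  ⟨(b (l 3) (b (l 3) (b (a (l 3) (l 3)) (b (a (l 3) (l 3)) (a (a (a (l 17692224) (l 17620280)) (a (l 17519912) (l 17393608))) (a (a (l 17251112) (l 166598801063)) (b (l 3) (a (l 174651139511) (a (l 177335408295) (b (l 3) (a (l 182167087783) (b (l 3) (a (l 179482733847) (a (l 181630164135) (a (l 198810042919) (b (l 3) (l 6))))))))))))))))), by decide +kernel⟩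

theorem c_pp_113 : CertN 536870912 536870912 1610612736 536870912 134217728 67108864 3 false true true .nn 1 1 3
    ndN0q1 ndN2q3 pcN1 cut_pp_113 Ext.none :=
  certN1 (fam := false) (s1 := true) (s2 := true) (a := 1) (b := 1) (c := 3) (cn := .nn) (n1 := ndN0q1) (n2 := ndN2q3) (pc := pcN1) (cut := cut_pp_113) (xt := Ext.none) (P1 := 536870912) (W1 := 536870912) (P2 := 1610612736) (W2 := 536870912) (P3 := 134217728) (W3 := 67108864) (N0 := 3)
    rfl (fun _ => rfl) k0_pp_113

noncomputable def cut_pp_123 : Cut := Cut.of [[⟨0, 1, 0, 39843005⟩, ⟨1, 1, 0, 39843005⟩, ⟨2, 2, 0, 5814905⟩]]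

noncomputable def f_pp_123 : ℕ → ℕ → ℕ → ℕ → Bool := onCell 536870912 536870912 1073741824 536870912 134217728 67108864
    (rowN 3 1 false true true .npn 1 2 3 (qsf 536870912 536870912 1610612736 536870912 2) ndN0q1 ndN2q3 pcN2 cut_pp_123 Ext.none)

def k0_pp_123 : ∃ t, chk3 f_pp_123 t 1 1 1 = true :=
  ⟨(a (b (a (b (b (a (l 17719984) (l 17628224)) (b (b (l 17666976) (l 17658424)) (b (l 17650936) (l 17645264)))) (b (b (b (l 17637608) (l 17716248)) (l 17605320)) (b (l 17571120) (l 17544752)))) (b (b (a (l 17512768) (l 17374288)) (b (b (l 17420056) (l 17574464)) (b (l 17395040) (l 17385880)))) (b (b (b (l 17375024) (l 17535168)) (l 17335536)) (b (l 17302416) (l 17282256))))) (a (b (l 17560704) (b (l 17549960) (l 17473392))) (b (b (l 17291728) (l 17574656)) (a (b (l 17347192) (l 2)) (l 2))))) (b (a (b (b (a (l 17222280) (l 17154496)) (b (b (l 17115864) (l 17185568)) (b (l 17089752) (l 17080952)))) (b (b (b (l 17070592) (a (l 17141056) (l 16995464))) (l 17054216)) (b (l 17010968)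 (l 17008968)))) (b (a (b (b (l 16945752) (l 16915392)) (b (b (l 16902912) (l 16889304)) (b (l 16878176) (l 16870432)))) (b (b (b (a (l 16837128) (a (l 16810880) (b (a (l 16793584) (b (a (l 16785272) (l 6)) (l 16775440))) (l 16774472)))) (l 203038128311)) (l 16867784)) (b (b (l 16774056) (l 2)) (l 2)))) (a (b (b (b (l 16862432) (l 2)) (l 2)) (l 2)) (l 2)))) (a (b (a (b (l 17097208) (l 2)) (l 2)) (l 2)) (l 2)))), by decide +kernel⟩

theorem c_pp_123 : CertN 536870912 536870912 1610612736 536870912 134217728 67108864 3 false true true .npn 1 2 3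
    ndN0q1 ndN2q3 pcN2 cut_pp_123 Ext.none :=
  certN1 (fam := false) (s1 := true) (s2 := true) (a := 1) (b := 2) (c := 3) (cn := .npn) (n1 := ndN0q1) (n2 := ndN2q3) (pc := pcN2) (cut := cut_pp_123) (xt := Ext.none) (P1 := 536870912) (W1 := 536870912) (P2 := 1610612736) (W2 := 536870912) (P3 := 134217728) (W3 := 67108864) (N0 := 3)
    rfl (fun _ => rfl) k0_pp_123

noncomputable def f_pp_133 : ℕ → ℕ → ℕ → ℕ → Bool := onCell 1610612736 536870912 1610612736 536870912 134217728 67108864
    (rowN 3 2 false true true .dn 1 3 3 (qsf 536870912 536870912 1610612736 536870912 3) ndN0q1 ndN2q3 pcN3 Cut.none Ext.none)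

def k0_pp_133 : ∃ t, chk3 f_pp_133 t 1 1 1 = true :=
  ⟨(a (b (l 1) (a (b (l 1) (a (l 17340576) (l 1))) (l 1))) (l 1)), by decide +kernel⟩

theorem c_pp_133 : CertN 536870912 536870912 1610612736 536870912 134217728 67108864 3 false true true .dn 1 3 3
    ndN0q1 ndN2q3 pcN3 Cut.none Ext.none :=
  certN2 (fam := false) (s1 := true) (s2 := true) (a := 1) (b := 3) (c := 3) (cn := .dn) (n1 := ndN0q1) (n2 := ndN2q3) (pc := pcN3) (cut := Cut.none) (xt := Ext.none) (P1 := 536870912) (W1 := 536870912) (P2 := 1610612736) (W2 := 536870912) (P3 := 134217728) (W3 := 67108864) (N0 := 3)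
    rfl (fun _ => rfl) k0_pp_133

noncomputable def f_pp_202_a : ℕ → ℕ → ℕ → ℕ → Bool := onCell 0 536870912 0 536870912 134217728 67108864
    (rowN 3 0 false true true .pp 2 0 2 (qsf 0 536870912 0 536870912 0) ndN0q2 ndN2q2a pcN0 Cut.none Ext.none)

def k0_pp_202_a : ∃ t, chk3 f_pp_202_a t 1 1 1 = true :=
  ⟨(l 3), by decide +kernel⟩

theorem c_pp_202_a : CertN 0 536870912 0 536870912 134217728 67108864 3 false true true .pp 2 0 2
    ndN0q2 ndN2q2a pcN0 Cut.none Ext.none :=
  certN0 (fam := false) (s1 := true) (s2 := true) (a := 2) (b := 0) (c := 2) (cn := .pp) (n1 := ndN0q2) (n2 := ndN2q2a) (pc := pcN0) (cut := Cut.none) (xt := Ext.none) (P1 := 0) (W1 := 536870912) (P2 := 0) (W2 := 536870912) (P3 := 134217728) (W3 := 67108864) (N0 := 3)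
    rfl k0_pp_202_a

noncomputable def f_pp_202_b : ℕ → ℕ → ℕ → ℕ → Bool := onCell 0 536870912 1239849684 370763052 134217728 67108864
    (rowN 3 0 false true true .pp 2 0 2 (qsf 0 536870912 1239849684 370763052 0) ndN0q2 ndN2q2b pcN0 Cut.none Ext.none)

def k0_pp_202_b : ∃ t, chk3 f_pp_202_b t 1 1 1 = true :=
  ⟨(l 3), by decide +kernel⟩

theorem c_pp_202_b : CertN 0 536870912 1239849684 370763052 134217728 67108864 3 false true true .pp 2 0 2
    ndN0q2 ndN2q2b pcN0 Cut.none Ext.none :=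
  certN0 (fam := false) (s1 := true) (s2 := true) (a := 2) (b := 0) (c := 2) (cn := .pp) (n1 := ndN0q2) (n2 := ndN2q2b) (pc := pcN0) (cut := Cut.none) (xt := Ext.none) (P1 := 0) (W1 := 536870912) (P2 := 1239849684) (W2 := 370763052) (P3 := 134217728) (W3 := 67108864) (N0 := 3)
    rfl k0_pp_202_b

noncomputable def f_pp_203 : ℕ → ℕ → ℕ → ℕ → Bool := onCell 0 536870912 0 536870912 134217728 67108864
    (rowN 3 1 false true true .up 2 0 3 (qsf 0 536870912 1610612736 536870912 0) ndN0q2 ndN2q3 pcN0 Cut.none Ext.none)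

def k0_pp_203 : ∃ t, chk3 f_pp_203 t 1 1 1 = true :=
  ⟨(l 3), by decide +kernel⟩

theorem c_pp_203 : CertN 0 536870912 1610612736 536870912 134217728 67108864 3 false true true .up 2 0 3
    ndN0q2 ndN2q3 pcN0 Cut.none Ext.none :=
  certN1 (fam := false) (s1 := true) (s2 := true) (a := 2) (b := 0) (c := 3) (cn := .up) (n1 := ndN0q2) (n2 := ndN2q3) (pc := pcN0) (cut := Cut.none) (xt := Ext.none) (P1 := 0) (W1 := 536870912) (P2 := 1610612736) (W2 := 536870912) (P3 := 134217728) (W3 := 67108864) (N0 := 3)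
    rfl (fun _ => rfl) k0_pp_203

noncomputable def cut_pp_213 : Cut := Cut.of [[⟨0, 1, 0, 39843005⟩, ⟨1, 1, 0, 39843005⟩, ⟨2, 2, 0, 5814905⟩]]

noncomputable def f_pp_213 : ℕ → ℕ → ℕ → ℕ → Bool := onCell 0 536870912 1610612736 536870912 134217728 67108864
    (rowN 3 0 false true true .pnn 2 1 3 (qsf 0 536870912 1610612736 536870912 1) ndN0q2 ndN2q3 pcN1 cut_pp_213 Ext.none)

def k0_pp_213 : ∃ t, chk3 f_pp_213 t 1 1 1 = true :=
  ⟨(b (l 3) (a (l 3) (b (l 3) (a (l 3) (b (l 3) (a (l 3) (b (l 3) (a (l 3) (b (l 3) (b (l 3) (b (l 3) (l 6)))))))))))), by decide +kernel⟩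

theorem c_pp_213 : CertN 0 536870912 1610612736 536870912 134217728 67108864 3 false true true .pnn 2 1 3
    ndN0q2 ndN2q3 pcN1 cut_pp_213 Ext.none :=
  certN0 (fam := false) (s1 := true) (s2 := true) (a := 2) (b := 1) (c := 3) (cn := .pnn) (n1 := ndN0q2) (n2 := ndN2q3) (pc := pcN1) (cut := cut_pp_213) (xt := Ext.none) (P1 := 0) (W1 := 536870912) (P2 := 1610612736) (W2 := 536870912) (P3 := 134217728) (W3 := 67108864) (N0 := 3)
    rfl k0_pp_213

noncomputable def f_pm_001 : ℕ → ℕ → ℕ → ℕ → Bool := onCell 0 536870912 536870912 536870912 134217728 67108864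
    (rowN 3 0 false true false .up 0 0 1 (qsf 0 536870912 536870912 536870912 0) ndN0q0 ndN2q1 pcN0 Cut.none Ext.none)

def k0_pm_001 : ∃ t, chk3 f_pm_001 t 1 1 1 = true :=
  ⟨(l 4), by decide +kernel⟩

theorem c_pm_001 : CertN 0 536870912 536870912 536870912 134217728 67108864 3 false true false .up 0 0 1
    ndN0q0 ndN2q1 pcN0 Cut.none Ext.none :=
  certN0 (fam := false) (s1 := true) (s2 := false) (a := 0) (b := 0) (c := 1) (cn := .up) (n1 := ndN0q0) (n2 := ndN2q1) (pc := pcN0) (cut := Cut.none) (xt := Ext.none) (P1 := 0) (W1 := 536870912) (P2 := 536870912) (W2 := 536870912) (P3 := 134217728) (W3 := 67108864) (N0 := 3)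
    rfl k0_pm_001

noncomputable def f_pm_011 : ℕ → ℕ → ℕ → ℕ → Bool := onCell 0 536870912 536870912 536870912 134217728 67108864
    (rowN 3 0 false true false .pnn 0 1 1 (qsf 0 536870912 536870912 536870912 1) ndN0q0 ndN2q1 pcN1 Cut.none Ext.none)

def k0_pm_011 : ∃ t, chk3 f_pm_011 t 1 1 1 = true :=
  ⟨(l 4), by decide +kernel⟩

theorem c_pm_011 : CertN 0 536870912 536870912 536870912 134217728 67108864 3 false true false .pnn 0 1 1
    ndN0q0 ndN2q1 pcN1 Cut.none Ext.none :=
  certN0 (fam := false) (s1 := true) (s2 := false) (a := 0) (b := 1) (c := 1) (cn := .pnn) (n1 := ndN0q0) (n2 := ndN2q1) (pc := pcN1) (cut := Cut.none) (xt := Ext.none) (P1 := 0) (W1 := 536870912) (P2 := 536870912) (W2 := 536870912) (P3 := 134217728) (W3 := 67108864) (N0 := 3)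
    rfl k0_pm_011

end Pool.Agent.Strip051.G.I1_8_3_16.Tab.C.NB02

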