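import Pool.Agent.Strip051.G.I1_8_3_16.Tab

/-! # Certificates N13 (generated) -/

set_option linter.all false
set_option maxRecDepth 100000

namespace Pool.Agent.Strip051.G.I1_8_3_16.Tab.C.NB02

open Pool.Agent.Strip051.PB Pool.Agent.Strip051.PB.T
open Pool.Agent.Strip051.G.I1_8_3_16.Tab

noncomputable def cut_pm_012_a : Cut := Cut.of [[⟨0, 0, 0, 67108864⟩, ⟨1, 1, 0, 67108864⟩, ⟨2, 1, 0, 67108864⟩], [⟨0, 0, 1, 41943040⟩, ⟨1, 1, 2, 41943040⟩, ⟨2, 1, 0, 16777216⟩]]

noncomputable def f_pm_012_a : ℕ → ℕ → ℕ → ℕ → Bool := onCell 536870912 536870912 0 536870912 134217728 67108864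
    (rowN 3 2 false true false .pnp 0 1 2 (qsf 0 536870912 0 536870912 1) ndN0q0 ndN2q2a pcN1 cut_pm_012_a Ext.none)

def k0_pm_012_a : ∃ t, chk3 f_pm_012_a t 2 1 1 = true :=
  ⟨(b (a (a (l 2) (l 17776128)) (a (l 17825352) (b (l 17881312) (l 17877624)))) (a (b (a (l 2) (l 17887304)) (a (b (l 17765104) (c (l 17806456) (l 17757592))) (b (l 17760640) (c (l 17775160) (b (l 17647592) (l 17601992)))))) (b (a (b (l 17814848) (l 17795760)) (b (l 17845032) (c (l 17897008) (l 17690416)))) (a (b (c (l 17830112) (l 17659616)) (c (b (l 17763912) (l 17696208)) (b (l 17589504) (a (l 17546344) (l 17498448))))) (b (c (l 17808896) (a (l 17615584) (l 17565888))) (b (c (l 17702728) (a (l 17519728) (l 17449088))) (c (a (l 17633184) (l 17572160)) (a (b (l 17458824) (l 17413440)) (b (l 17377760) (c (l 17380208) (l 17271680))))))))))), by decide +kernel⟩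

def k1_pm_012_a : ∃ t, chk3 f_pm_012_a t 3 2 1 = true :=
  ⟨(a (a (b (l 17936328) (a (l 17902992) (l 17906688))) (b (a (l 17944416) (l 17917376)) (a (c (l 18048032) (l 17723784)) (c (l 18024096) (l 17605608))))) (a (a (b (c (l 18067304) (l 17611352)) (c (b (l 18001728) (l 17891984)) (b (l 17519800) (a (l 17441552) (l 17311816))))) (b (c (a (l 17998592) (l 17921600)) (a (l 17454696) (l 17242552))) (c (a (b (l 17903384) (l 17754016)) (b (l 17800752) (l 17615552))) (a (b (l 17327400) (l 17099152)) (b (l 17146560) (l 16747968)))))) (a (b (c (b (l 17561808) (a (l 17786064) (l 17617424))) (b (a (l 17148752) (l 16894408)) (a (l 17074008) (l 16693024)))) (c (b (a (l 17655616) (c (l 17664952) (l 17234824))) (a (c (l 17622768) (l 17222176)) (b (c (l 17474752) (l 17018696)) (c (l 17294864) (l 16815768))))) (b (a (l 16780576) (l 16458088)) (a (b (l 16707472) (l 16523728)) (b (l 16438096) (l 16452392)))))) (b (c (a (b (c (l 17701320) (l 17243384)) (c (l 17613648) (l 17140216)))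 (b (c (l 17284712) (b (l 16911672) (l 16878768))) (b (c (l 17360960) (l 16768160)) (c (l 17141440) (l 16617896))))) (b (a (l 16466544) (b (l 16445976) (l 16447264))) (a (l 16430240) (b (l 16450392) (l 16455448))))) (b (a (c (c (b (l 17479360) (l 17342656)) (b (l 16985504) (l 16829328))) (b (l 16440136) (l 16449568))) (c (b (c (a (l 17232336) (l 17023584)) (l 16484544)) (c (a (l 17062392) (l 16825048)) (l 16475472))) (a (l 16482776) (b (l 16468024) (l 16477272))))) (a (c (a (b (l 16804824) (l 16611240)) (b (l 16551696) (l 16488080))) (b (l 16461304) (l 16496528))) (c (b (c (l 16494424) (l 16486952)) (c (a (l 16535616) (l 16508496)) (l 16521880))) (b (a (l 16478088) (l 16488896)) (a (l 16492312) (l 16524080)))))))))), by decide +kernel⟩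

def k2_pm_012_a : ∃ t, chk3 f_pm_012_a t 12 3 1 = true :=
  ⟨(b (b (a (l 17844752) (l 17820160)) (a (l 17760432) (c (l 17858400) (l 17550576)))) (b (c (a (l 17756776) (b (l 17739016) (l 17633312))) (a (b (l 17531080) (l 17446128)) (b (l 17422088) (a (l 17353072) (l 17271448))))) (b (a (c (l 17610912) (a (l 17375792) (l 17313352))) (c (a (l 17536552) (l 17407216)) (a (b (l 17267352) (l 17205320)) (b (l 17175096) (c (l 17187984) (l 17023080)))))) (a (c (b (l 17519080) (a (l 17477104) (l 17422224))) (b (a (l 17295408) (l 17121240)) (a (c (l 17298248) (l 17178464)) (c (l 17229520) (b (l 17115104) (a (l 17107336) (l 17063328))))))) (c (b (a (l 17431216) (l 17164976)) (a (c (l 17423784) (l 17284400)) (c (l 17346568) (b (l 17214088) (a (l 17198400) (l 17147624)))))) (b (a (c (l 17213360) (b (l 17083048) (l 17051184))) (a (b (l 17080512) (l 16877552)) (c (l 17086240) (l 16837528)))) (a (c (b (l 17161736) (a (l 17150376) (l 17102792))) (c (b (l 17054984) (a (l 17048432) (l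 16996248))) (b (l 16962600) (a (l 16980264) (l 14))))) (b (c (a (l 17086536) (l 17029576)) (a (l 16892000) (l 14))) (c (a (b (l 17059352) (l 17041416)) (c (l 17031280) (l 14))) (l 14)))))))))), by decide +kernel⟩

def k3_pm_012_a : ∃ t, chk3 f_pm_012_a t 26 3 1 = true :=
  ⟨(b (b (c (l 17936272) (l 17583960)) (c (l 17790888) (b (l 17467792) (l 17367552)))) (b (c (b (l 17633224) (a (l 17537872) (l 17428768))) (b (a (l 17299552) (l 17189640)) (a (b (l 17203856) (l 17133608)) (b (l 17078864) (l 16977224))))) (b (c (a (b (l 17426528) (l 17281280)) (b (l 17260528) (c (l 17331504) (l 17109480)))) (a (b (l 16933288) (c (l 17072656) (l 16743248))) (b (a (l 16953296) (l 16871712)) (b (c (l 16950536) (l 16745832)) (c (l 16905768) (l 16702960)))))) (c (b (a (c (l 17344496) (b (l 17190400) (l 17147136))) (c (a (l 17263136) (l 17200008)) (b (l 17039064) (a (l 17049552) (l 14))))) (a (a (c (l 17276744) (b (l 17133736) (c (l 17131904) (l 17050600)))) (c (l 17118448) (b (l 17072320)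 (c (l 17071352) (l 14))))) (c (b (a (l 17188632) (l 17122264)) (a (c (l 17183464) (l 17093736)) (c (l 17118008) (l 14)))) (b (a (c (l 17049976) (l 14)) (l 14)) (l 14))))) (c (b (a (b (l 17012144) (a (l 17005488) (l 14))) (b (l 16672344) (l 14))) (a (b (a (l 16882480) (l 14)) (l 14)) (l 14))) (b (b (a (l 16790784) (l 16660856)) (l 14)) (l 14))))))), by decide +kernel⟩

def k4_pm_012_a : ∃ t, chk3 f_pm_012_a t 27 6 1 = true :=
  ⟨(b (c (l 17861960) (a (l 17475120) (l 17374192))) (c (a (l 17701264) (l 17509376)) (a (b (l 17327296) (l 17200464)) (b (l 17198720) (l 17048208))))), by decide +kernel⟩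

def k5_pm_012_a : ∃ t, chk3 f_pm_012_a t 27 14 1 = true :=
  ⟨(b (c (a (l 17503904) (l 17193448)) (a (l 16944296) (b (l 16917384) (l 16820480)))) (c (a (c (l 17449408) (l 17220256)) (b (l 17112352) (c (l 17261352) (l 17000792)))) (a (b (l 16920048) (l 16742688)) (b (l 16716472) (l 16585424))))), by decide +kernel⟩

def k6_pm_012_a : ∃ t, chk3 f_pm_012_a t 27 30 1 = true :=
  ⟨(a (c (b (c (l 17304840) (l 17075776)) (c (l 17073368) (a (l 17016152) (l 16926832)))) (b (c (l 16824104) (l 16612704)) (c (l 16660688) (l 16653888)))) (c (b (c (l 17063352) (a (l 16939080) (l 16831128))) (c (a (l 17074448) (l 16870608)) (a (l 16804016) (l 16708320)))) (b (c (l 16624192) (l 16603600)) (c (l 16659600) (l 16655408))))), by decide +kernel⟩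

def k7_pm_012_a : ∃ t, chk3 f_pm_012_a t 27 62 1 = true :=
  ⟨(b (a (c (c (l 16991016) (a (l 16939856) (l 16846056))) (c (l 16669896) (l 16656128))) (c (c (a (l 16984552) (l 16858728)) (l 16679496)) (c (l 16683160) (l 16679216)))) (a (c (c (a (l 17101504) (l 14)) (l 14)) (c (l 14) (l 16693200))) (c (l 14) (c (a (l 16678712) (l 16680032)) (a (l 16674776) (l 16676320)))))), by decide +kernel⟩

def k8_pm_012_a : ∃ t, chk3 f_pm_012_a t 54 63 1 = true :=
  ⟨(c (b (c (a (c (l 17099032) (l 14)) (l 14)) (l 14)) (l 14)) (b (c (l 14) (a (l 16699176) (l 16700544))) (b (c (l 14) (a (c (l 14) (l 16700240)) (c (l 16703752) (l 16701808)))) (c (l 14) (c (c (l 14) (a (l 14) (a (l 14) (a (l 14) (a (l 14) (b (l 16710680) (l 16717672))))))) (a (a (l 14) (b (l 16707176) (c (l 14) (b (l 16709920) (a (l 14) (l 16712344)))))) (b (a (l 16708008) (l 16708888)) (b (a (l 16711264) (l 16712160)) (a (c (a (l 14) (l 16714184)) (a (l 16712776) (l 16713224))) (c (a (l 16714632) (l 16715096)) (a (l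 16713688) (l 16714160)))))))))))), by decide +kernel⟩

def k9_pm_012_a : ∃ t, chk3 f_pm_012_a t 55 63 1 = true :=
  ⟨(c (l 14) (b (c (a (b (l 16691144) (l 16699592)) (c (l 16708296) (l 16706512))) (a (l 16712584) (l 16709072))) (b (c (a (c (l 14) (l 16717728)) (c (a (l 14) (l 16711368)) (l 16719456))) (a (c (l 16705400) (l 16703560)) (c (l 16717720) (l 16705488)))) (c (c (a (l 14) (a (l 14) (b (l 16717936) (c (l 14) (b (l 16720832) (a (l 14) (b (l 16722792) (l 16724568)))))))) (a (a (l 14) (a (l 14) (a (l 14) (b (l 16714760) (c (l 14) (l 16721344)))))) (b (a (l 16715288) (l 16716248)) (a (b (l 16718592) (c (a (l 14) (b (l 16720968) (l 16722080))) (a (l 16721488) (l 16720672)))) (b (l 16719568) (c (a (b (l 16721464) (l 16722576)) (l 16725144)) (a (l 16721176) (l 16721688)))))))) (a (b (c (a (l 16711656) (l 16712576)) (a (l 16709808) (l 16710776))) (b (c (a (l 16714936) (l 16715872)) (a (l 16713096) (l 16714088))) (c (a (c (a (l 14) (b (l 16717312) (l 16718416))) (a (l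 16716488) (l 16716960))) (c (a (l 16718336) (l 16718816)) (a (l 16717440) (l 16717936)))) (a (c (a (l 16715568) (l 16716048)) (a (l 16714640) (l 16715136))) (c (a (l 16716544) (l 16717048)) (a (l 16715648) (l 16716160))))))) (b (c (a (l 16713544) (l 16714552)) (a (l 16711792) (l 16712848))) (b (c (a (l 16716856) (l 16717888)) (a (l 16715120) (l 16716192))) (c (a (c (a (l 16719312) (l 16719816)) (a (l 16718440) (l 16718952))) (c (a (l 16720328) (l 16720856)) (a (l 16719480) (l 16720024)))) (b (a (l 16716792) (l 16717872)) (a (c (l 16719648) (l 16717472)) (c (l 16719416) (l 16718576)))))))))))), by decide +kernel⟩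

def k10_pm_012_a : ∃ t, chk3 f_pm_012_a t 14 6 1 = true :=
  ⟨(a (b (c (a (l 17757120) (l 17652872)) (a (l 17242608) (b (l 17144432) (l 16996544)))) (c (a (b (l 17575832) (l 17415992)) (b (l 17433944) (c (l 17400632) (l 17079896)))) (a (b (l 17032096) (l 16809432)) (b (l 16815064) (a (l 16665472) (l 16518248)))))) (b (a (c (b (l 17585008) (l 17432224)) (b (l 16935968) (l 16753960))) (c (b (l 17405952) (l 16984944)) (b (l 16660256) (l 16458936)))) (a (b (c (c (l 17417032) (l 17063896)) (l 16550232)) (c (a (l 16901104) (l 16698936)) (l 16504840))) (b (c (c (l 17180736) (l 16769384)) (l 16481720)) (c (b (l 16714576) (l 16587096)) (l 16518448)))))), by decide +kernel⟩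

def k11_pm_012_a : ∃ t, chk3 f_pm_012_a t 28 14 1 = true :=
  ⟨(b (c (a (c (l 17365272) (l 17012192)) (b (c (l 17233416) (l 16902216)) (a (l 17001688) (l 16868720)))) (a (b (l 16693976) (l 16577232)) (b (l 16513408) (l 16540360)))) (c (a (b (c (l 17197120) (l 16900656)) (a (l 16812920) (l 16713344))) (b (a (l 16824256) (l 16718200)) (a (l 16656888) (l 16607256)))) (b (a (l 16568696) (l 16568536)) (a (l 16597496) (l 16608696))))), by decide +kernel⟩

def k12_pm_012_a : ∃ t, chk3 f_pm_012_a t 28 30 1 = true :=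
  ⟨(b (c (a (c (a (l 16996184) (l 16874768)) (l 16637016)) (c (a (l 16732832) (l 16619016)) (l 16645056))) (a (c (l 16629824) (l 16625872)) (a (l 16630312) (l 16631504)))) (c (a (c (a (b (l 16895520) (l 16827000)) (l 16665136)) (a (l 16644648) (l 16645520))) (c (a (l 16670992) (l 16671984)) (a (l 16667552) (l 16668792)))) (a (a (l 16659808) (l 16661056)) (a (l 16662488) (l 16669336))))), by decide +kernel⟩

def k13_pm_012_a : ∃ t, chk3 f_pm_012_a t 56 62 1 = true :=
  ⟨(b (c (c (a (l 16758592) (l 16673168)) (a (l 16668496) (l 16669720))) (c (l 16685424) (l 16681960))) (c (c (l 14) (a (l 16685024) (l 16686472))) (c (a (l 16681520) (l 16683184)) (a (l 16678032) (l 16679912))))), by decide +kernel⟩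

def k14_pm_012_a : ∃ t, chk3 f_pm_012_a t 56 63 2 = true :=
  ⟨(b (c (l 14) (a (b (l 16697664) (l 16716744)) (b (l 16699272) (l 16718464)))) (b (c (l 14) (a (c (l 14) (a (l 14) (l 16714864))) (c (a (l 14) (l 16718336)) (a (l 16715816) (l 16716824))))) (c (l 14) (a (a (l 14) (a (l 14) (a (l 14) (a (l 14) (c (l 14) (b (l 16722008) (c (l 14) (l 16728712)))))))) (b (c (a (l 14) (l 16725016)) (a (l 16722488) (l 16723528))) (b (c (a (l 14) (c (l 14) (l 16728016))) (a (c (l 16726224) (l 16725464)) (c (l 16727272) (l 16726528)))) (c (a (l 14) (a (l 14) (a (l 14) (c (l 14) (l 16732080))))) (b (a (c (l 16729224) (l 16727144)) (c (l 16728968) (l 16728224))) (a (c (a (l 14) (c (l 14) (l 16729184))) (a (c (l 16728272) (l 16727888)) (l 16728616))) (c (a (c (l 16730088) (l 16729720)) (l 16731760)) (a (l 16729160) (l 16729720)))))))))))), by decide +kernel⟩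

def k15_pm_012_a : ∃ t, chk3 f_pm_012_a t 56 126 3 = true :=
  ⟨(a (c (c (l 16709952) (l 16708264)) (l 16710984)) (c (b (l 16696088) (l 16715336)) (c (l 16719088) (l 16717512)))), by decide +kernel⟩

def k16_pm_012_a : ∃ t, chk3 f_pm_012_a t 56 127 3 = true :=
  ⟨(b (c (b (a (l 16719968) (l 16721960)) (a (c (l 16714704) (l 16713080)) (c (l 16716704) (l 16715176)))) (a (c (l 16719720) (l 16707592)) (c (l 16721896) (l 16720352)))) (a (c (b (c (a (l 16718896) (l 16719896)) (a (l 16717256) (l 16718304))) (b (c (a (c (l 16722632) (l 16721816)) (l 16725872)) (a (l 16720592) (l 16721664))) (c (b (a (c (l 16724304) (l 16723496)) (c (l 16725320) (l 16724536))) (a (c (a (l 14) (c (l 14) (l 16725536))) (a (l 16724416) (l 16724928))) (c (a (l 16726248) (l 16726776)) (a (l 16725456) (l 16725992))))) (a (c (a (l 16723040) (l 16723560)) (a (l 16722216) (l 16722752))) (c (a (l 16724104) (l 16724648)) (a (l 16723304) (l 16723864))))))) (b (c (a (l 16715608) (l 16716704)) (a (l 16713952)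 (l 16715096))) (b (c (a (l 16718960) (l 16720072)) (a (l 16717312) (l 16718480))) (c (a (c (a (l 16721400) (l 16721944)) (a (l 16720576) (l 16721136))) (a (a (l 16721976) (l 16722264)) (l 16725304))) (a (c (l 16722600) (l 16719160)) (c (l 16721144) (l 16720344))))))) (c (b (c (a (l 16720944) (l 16722032)) (a (l 16719392) (l 16720528))) (a (b (c (l 16724312) (l 16722776)) (c (c (a (l 16728056) (l 16727296)) (a (l 16725976) (l 16726536))) (c (a (l 16725208) (l 16725776)) (a (l 16724432) (l 16725016))))) (c (b (l 16725416) (c (a (l 16727848) (l 16728416)) (a (l 16727104) (l 16727680)))) (a (c (l 16727840) (l 16724472)) (c (l 16725808) (l 16725064)))))) (b (a (a (l 16716832) (l 16717432)) (l 16723520)) (a (a (c (b (l 16721000) (l 16723272)) (l 16720584)) (c (b (l 16721600) (l 16723872)) (l 16721200))) (a (c (b (l 16722200) (l 16724480)) (l 16721832)) (c (b (l 16722816) (l 16725096)) (l 16722472)))))))), by decide +kernel⟩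

def k17_pm_012_a : ∃ t, chk3 f_pm_012_a t 57 62 1 = true :=
  ⟨(c (b (c (a (l 16674336) (l 16675680)) (a (l 16671120) (l 16672680))) (c (a (l 16701656) (l 16703216)) (a (l 16698568) (l 16700344)))) (b (a (l 16687312) (l 16689224)) (a (c (l 16685016) (l 16681960)) (c (l 16687008) (l 16684176))))), by decide +kernel⟩

def k18_pm_012_a : ∃ t, chk3 f_pm_012_a t 57 126 2 = true :=
  ⟨(b (c (a (l 16714528) (l 16716256)) (a (l 16701048) (l 16702984))) (c (a (c (l 14) (l 16712048)) (c (l 16725784) (l 16713936))) (a (a (l 16709704) (l 16710720)) (a (l 16711768) (l 16712856))))), by decide +kernel⟩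

def k19_pm_012_a : ∃ t, chk3 f_pm_012_a t 57 254 2 = true :=
  ⟨(c (a (c (l 14) (a (l 14) (l 16721784))) (c (a (l 14) (l 16735680)) (a (l 16722808) (l 16723880)))) (a (c (a (l 16719328) (l 16720368)) (a (l 16717864) (l 16718952))) (c (a (l 16721440) (l 16722560)) (a (l 16720072) (l 16721240))))), by decide +kernel⟩

def k20_pm_012_a : ∃ t, chk3 f_pm_012_a t 114 255 2 = true :=
  ⟨(c (a (l 14) (a (l 14) (c (l 14) (b (l 16728872) (c (l 14) (b (l 16731936) (b (l 16733640) (c (l 14) (l 16734608))))))))) (b (c (a (l 16726048) (l 16727128)) (a (l 16724608) (l 16725728))) (c (b (a (c (l 16729792) (l 16729080)) (c (l 16730872) (l 16730184))) (b (a (c (a (l 14) (l 16731848)) (l 16732088)) (c (a (l 16732392) (l 16732952)) (l 16731896))) (a (c (a (l 14) (c (l 14) (l 16732808))) (a (c (l 16731904) (l 16731544)) (c (l 16732456) (l 16732096)))) (c (a (c (l 16733712) (l 16733360)) (c (l 16734272) (l 16733928))) (a (l 16734152) (l 16733416)))))) (b (a (c (l 16728360) (l 16727640))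 (c (l 16729488) (l 16728792))) (a (c (b (l 16730064) (a (l 16731000) (l 16731568))) (a (l 16729712) (l 16730288))) (c (a (b (l 16731000) (l 16732144)) (l 16734776)) (a (l 16730872) (l 16731472)))))))), by decide +kernel⟩

def k21_pm_012_a : ∃ t, chk3 f_pm_012_a t 115 255 2 = true :=
  ⟨(c (b (c (a (l 14) (c (l 14) (l 16731664))) (a (l 16734832) (l 16735936))) (c (c (l 14) (a (l 14) (a (l 14) (b (l 16735480) (c (l 14) (b (l 16737048) (l 16739504))))))) (a (b (c (l 16733336) (l 16732664)) (c (a (l 14) (c (l 14) (b (l 16735264) (l 16736408)))) (a (b (l 16734200) (c (l 16735512) (l 16735176))) (a (l 16736528) (l 16738128))))) (b (c (l 16734448) (l 16733800)) (b (c (a (l 16735992) (l 16736568)) (a (l 16735344) (l 16735928))) (c (a (c (l 16737304) (l 16736976)) (c (l 16737880) (l 16737560))) (a (c (l 16736656) (l 16736328)) (c (l 16737240) (l 16736928))))))))) (b (c (a (l 16728240) (l 16729392)) (a (l 16726888) (l 16728088))) (a (b (c (c (l 16732000) (l 16731328)) (l 16732944))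 (c (b (c (a (l 16733528) (l 16734104)) (l 16733048)) (c (a (c (l 16734840) (l 16734504)) (l 16736560)) (a (l 16734000) (l 16734592)))) (c (a (l 16732752) (l 16733360)) (a (l 16732080) (l 16732696))))) (b (c (c (l 16733160) (l 16732512)) (l 16734160)) (c (c (b (l 16736192) (a (l 16735848) (l 16736448))) (a (l 16735928) (l 16735232))) (c (a (l 16733968) (l 16734592)) (a (l 16733320) (l 16733960)))))))), by decide +kernel⟩

def k22_pm_012_a : ∃ t, chk3 f_pm_012_a t 57 63 3 = true :=
  ⟨(b (c (a (c (l 16724232) (l 16722752)) (c (l 16721128) (l 16724992))) (a (c (l 16721280) (l 16719800)) (c (l 16723624) (l 16722256)))) (b (c (a (a (l 16726144) (l 16727304)) (a (l 16728504) (l 16729744))) (a (a (l 16712720) (l 16713976)) (a (l 16715272) (l 16716616)))) (a (c (b (a (c (l 16723160) (l 16721704)) (c (l 16724328) (l 16722928))) (a (c (b (l 16726568) (c (a (l 16728992) (l 16729576)) (a (l 16728272) (l 16728864)))) (a (a (l 16728528) (l 16728832)) (a (l 16729144) (l 16732072))))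 (c (b (l 16727752) (c (a (l 16730176) (l 16730784)) (a (l 16729480) (l 16730096)))) (b (l 16726360) (a (l 16728424) (l 16729064)))))) (b (a (l 16724768) (l 16726056)) (a (a (c (l 16727208) (l 16723120)) (c (l 16727840) (l 16723784))) (a (c (l 16731112) (l 16724456)) (c (l 16731776) (l 16725144)))))) (c (b (a (c (l 16725536) (l 16724184)) (c (l 16726792) (l 16725480))) (a (a (c (c (l 16732872) (l 16729576)) (b (l 16727400) (l 16729712))) (c (c (l 16733504) (l 16730216)) (b (l 16728056) (l 16730368)))) (c (a (c (l 16734136) (l 16730864)) (a (l 16734320) (l 16734648))) (b (l 16728952) (a (l 16731040) (l 16731712)))))) (b (a (l 16727392) (l 16723520)) (a (a (c (l 16727200) (l 16725832)) (c (l 16727880) (l 16726536))) (a (c (l 16728568) (l 16727256)) (c (l 16729264) (l 16727976))))))))), by decide +kernel⟩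

def k23_pm_012_a : ∃ t, chk3 f_pm_012_a t 29 14 1 = true :=
  ⟨(a (b (c (a (b (l 16866592) (l 16712912)) (b (l 16702336) (l 16549936))) (b (l 16534104) (l 16556688))) (b (c (a (l 16578048) (l 16577624)) (l 16585744)) (c (a (l 16607952) (l 16610600)) (a (l 16601312) (l 16602016))))) (b (b (c (c (l 16626176) (l 16528424)) (l 16530088)) (c (l 16548960) (l 16546184))) (b (c (c (l 16578544) (l 16575848)) (l 16572000)) (c (b (l 16589680) (l 16605568)) (l 16603336))))), by decide +kernel⟩

def k24_pm_012_a : ∃ t, chk3 f_pm_012_a t 58 30 1 = true :=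
  ⟨(b (c (a (c (l 16641024) (l 16637824)) (c (l 16641344) (l 16638456))) (a (l 16633168) (l 16634272))) (a (c (c (l 16673480) (l 16670512)) (c (l 16667600) (l 16664744))) (c (c (l 16674240) (l 16671568)) (c (l 16668952) (l 16666376))))), by decide +kernel⟩

def k25_pm_012_a : ∃ t, chk3 f_pm_012_a t 58 62 1 = true :=
  ⟨(a (c (c (b (l 16688000) (l 16710512)) (b (l 16674728) (l 16713088))) (b (l 16691592) (c (l 16710432) (l 16707808)))) (c (c (b (l 16689080) (c (l 16707160) (l 16705952))) (b (l 16697064) (l 16714640))) (b (l 16693368) (c (l 16712264) (l 16709912))))), by decide +kernel⟩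

def k26_pm_012_a : ∃ t, chk3 f_pm_012_a t 116 126 2 = true :=
  ⟨(c (b (l 16718464) (c (l 16728056) (l 16726784))) (a (l 16720000) (l 16721232))), by decide +kernel⟩

def k27_pm_012_a : ∃ t, chk3 f_pm_012_a t 116 127 2 = true :=
  ⟨(b (c (c (a (l 16736744) (l 16737928)) (a (l 16724984) (l 16726216))) (a (c (l 16723712) (l 16722448)) (c (l 16725000) (l 16723776)))) (c (b (c (a (c (l 16733400) (l 16732776)) (c (l 16734608) (l 16734008))) (a (l 16737080) (a (l 16732848) (l 16733480)))) (c (a (b (c (a (l 14) (l 16737248)) (l 16736216)) (b (c (a (l 14) (l 16738976)) (a (l 16737776) (l 16738360))) (c (a (l 14) (c (l 14) (a (l 14) (l 16740152)))) (a (a (l 16740128) (l 16739104)) (c (l 16739672) (l 16739360)))))) (b (a (l 16740144) (l 16740752)) (b (c (a (l 16739552) (l 16740168)) (a (l 16738952) (l 16739576))) (c (b (a (l 16740424) (l 16741040)) (a (c (l 16741152) (l 16740848)) (c (l 16741768) (l 16741472)))) (a (c (l 16740264) (l 16739960)) (c (l 16740888) (l 16740592)))))))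 (b (a (c (l 16735600) (l 16734976)) (c (l 16739496) (l 16736280))) (b (a (c (a (l 16737152) (l 16737744)) (a (l 16736528) (l 16737136))) (c (a (l 16738352) (l 16738992)) (a (l 16737752) (l 16738400)))) (a (c (a (c (l 16738464) (l 16738152)) (c (l 16739056) (l 16738752))) (a (c (l 16737840) (l 16737528)) (l 16738296))) (c (a (c (l 16739664) (l 16739360)) (c (l 16740296) (l 16740008))) (a (l 16738912) (l 16739568)))))))) (a (b (c (l 16730584) (l 16729336)) (b (c (c (l 16734352) (l 16733736)) (l 16735424)) (c (c (b (l 16737400) (a (l 16737056) (l 16737680))) (a (l 16735856) (l 16736488))) (c (a (l 16735232) (l 16735872)) (a (l 16734600) (l 16735256)))))) (b (c (l 16731904) (l 16730696)) (b (c (c (l 16735680) (l 16735080)) (a (l 16733896) (l 16734576))) (c (c (a (l 16739040) (l 16739704)) (a (l 16737128) (l 16737800))) (a (c (l 16736528) (l 16735920)) (c (l 16737208) (l 16736624))))))))), by decide +kernel⟩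

def k28_pm_012_a : ∃ t, chk3 f_pm_012_a t 116 63 3 = true :=
  ⟨(b (c (a (l 16717392) (l 16729208)) (a (l 16704304) (l 16726704))) (b (c (a (l 16731024) (l 16732424)) (a (l 16717992) (l 16719488))) (b (c (a (c (l 16728080) (l 16726824)) (c (l 16729488) (l 16728280))) (a (l 16724936) (l 16731712))) (c (a (a (a (c (l 16734984) (l 16731096)) (c (l 16735312) (l 16731440))) (c (b (l 16732000) (l 16736960)) (l 16734560))) (c (b (l 16732984) (a (l 16735016) (l 16738352))) (a (l 16735264) (l 16736000)))) (a (a (c (l 16729976) (l 16728712)) (c (l 16730696) (l 16729456))) (c (a (l 16731424) (l 16732184)) (a (l 16730208) (l 16730992)))))))), by decide +kernel⟩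

def k29_pm_012_a : ∃ t, chk3 f_pm_012_a t 117 63 1 = true :=
  ⟨(b (c (c (b (l 16722520) (a (l 16729032) (l 16719200))) (a (l 16722144) (l 16722928))) (c (a (l 16719760) (l 16720696)) (a (l 16727872) (l 16707992)))) (c (b (c (a (c (l 16738752) (l 16737592)) (c (l 16729048) (l 16727960))) (a (c (l 16725944) (l 16724784)) (l 16736808))) (c (b (a (c (a (l 16735096) (l 16735448)) (a (l 16733936) (l 16734320))) (c (l 16736144) (l 16735064))) (a (b (a (c (l 16741200) (l 16737424)) (c (l 16738992) (l 16737872))) (c (b (a (c (l 16740616) (l 16740040)) (l 16742096)) (c (a (a (l 16741712) (l 16741904)) (l 16742264)) (a (c (l 16741360) (l 16741072)) (l 16741704)))) (a (a (c (l 16739976) (l 16739400)) (c (l 16740176) (l 16739600))) (c (l 16740552) (l 16739992))))) (b (c (l 16739736) (l 16738656)) (b (c (c (l 16741808) (l 16741264)) (l 16740456)) (c (c (a (l 16742760) (l 16743256)) (a (l 16742216) (l 16742720))) (c (l 16741928) (l 16741392))))))) (b (a (c (l 16738144) (l 16731760))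 (c (l 16733976) (l 16732896))) (b (a (c (a (l 16736272) (l 16736752)) (a (l 16735112) (l 16735624))) (c (l 16737576) (l 16736488))) (a (c (a (c (l 16741528) (l 16738336)) (c (l 16739432) (l 16738872))) (a (c (l 16737760) (l 16737184)) (l 16738024))) (c (c (l 16741560) (l 16739712)) (c (l 16739168) (l 16738632)))))))) (b (c (a (l 16733528) (l 16724136)) (a (l 16720728) (l 16721960))) (b (c (a (c (l 16730616) (l 16729472)) (l 16731264)) (a (l 16732992) (l 16729088))) (c (a (c (a (b (l 16733960) (l 16738944)) (l 16738328)) (a (l 16736608) (l 16734576))) (b (l 16737488) (c (l 16737816) (l 16736736)))) (a (c (a (l 16732824) (l 16733448)) (a (l 16731664) (l 16732320))) (c (l 16734440) (l 16733352)))))))), by decide +kernel⟩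

def k30_pm_012_a : ∃ t, chk3 f_pm_012_a t 59 30 1 = true :=
  ⟨(b (c (c (a (l 16641776) (l 16641976)) (l 16639576)) (a (l 16635576) (l 16636672))) (c (c (b (l 16656400) (l 16673400)) (a (l 16672760) (l 16673736))) (a (l 16669336) (l 16670824)))), by decide +kernel⟩

def k31_pm_012_a : ∃ t, chk3 f_pm_012_a t 59 62 1 = true :=
  ⟨(c (b (c (a (l 16679760) (l 16680872)) (l 16688832)) (c (a (l 16708000) (l 16709568)) (a (l 16695416) (l 16707736)))) (a (b (l 16674360) (l 16708032)) (b (l 16686728) (a (l 16704400) (l 16705648))))), by decide +kernel⟩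

def k32_pm_012_a : ∃ t, chk3 f_pm_012_a t 59 126 1 = true :=
  ⟨(c (c (a (b (l 16711160) (l 16730976)) (b (l 16713040) (l 16732968))) (a (b (l 16709112) (l 16718464)) (b (l 16711240) (l 16720696)))) (c (b (l 16718768) (a (l 16716448) (l 16718920))) (a (l 16720264) (l 16722912)))), by decide +kernel⟩

def k33_pm_012_a : ∃ t, chk3 f_pm_012_a t 59 127 2 = true :=
  ⟨(b (b (c (a (l 16727584) (l 16729608)) (a (l 16725576) (l 16727840))) (c (a (c (l 16732848) (l 16731848)) (c (l 16734832) (l 16733960))) (a (l 16735592) (l 16732640)))) (c (b (a (c (a (l 16737136) (l 16738128)) (a (l 16736104) (l 16737160))) (c (a (l 16739128) (l 16740136)) (a (l 16738224) (l 16739296)))) (a (c (b (a (l 16740728) (l 16741736)) (a (c (a (l 16744456) (l 16744952)) (a (l 16742624) (l 16743136))) (c (a (l 16744136) (l 16744632)) (a (l 16743648) (l 16744160))))) (b (a (l 16739712) (l 16740768)) (b (a (l 16741512) (l 16742584)) (a (c (l 16742976) (l 16742464)) (c (l 16744032) (l 16743552)))))) (b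 (c (a (l 16742744) (l 16743760)) (a (l 16741848) (l 16742928))) (b (c (a (l 16744560) (l 16745576)) (a (l 16743656) (l 16744744))) (c (a (c (l 16745992) (l 16745544)) (c (l 16747000) (l 16746584))) (a (c (l 16745096) (l 16744648)) (c (l 16746168) (l 16745752)))))))) (b (a (c (l 16735640) (l 16734640)) (c (l 16737896) (l 16737024))) (b (a (c (l 16740560) (l 16738256)) (c (l 16741520) (l 16740648))) (a (c (a (c (l 16741352) (l 16740840)) (c (l 16742464) (l 16741984))) (b (l 16740064) (a (l 16740680) (l 16741864)))) (c (b (l 16743336) (a (l 16743976) (l 16745128))) (a (l 16742464) (l 16743688)))))))), by decide +kernel⟩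

def k34_pm_012_a : ∃ t, chk3 f_pm_012_a t 59 127 3 = true :=
  ⟨(b (c (a (c (l 16726464) (l 16725456)) (c (l 16728928) (l 16728048))) (a (l 16723952) (l 16737208))) (b (c (a (c (l 16733640) (l 16732640)) (c (l 16736144) (l 16735272))) (a (l 16731144) (l 16733960))) (b (c (a (c (l 16737256) (l 16736256)) (c (l 16739784) (l 16738912))) (a (l 16734760) (l 16737600))) (c (a (c (a (l 16739048) (l 16740296)) (a (l 16738024) (l 16739328))) (c (a (l 16741568) (l 16742848)) (a (l 16740664) (l 16742016)))) (a (c (a (l 16736992) (l 16738360)) (l 16736680)) (c (a (l 16739760) (l 16741176)) (l 16739600))))))), by decide +kernel⟩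

def k35_pm_012_a : ∃ t, chk3 f_pm_012_a t 15 6 1 = true :=
  ⟨(a (b (a (c (b (c (l 17372752) (l 16942296)) (c (l 17142688) (l 16686720))) (b (l 16444776) (l 16485624))) (c (b (c (l 16999168) (l 16554504)) (a (l 16610672) (l 16517728))) (b (l 16469408) (l 16510344)))) (a (c (b (a (l 16688880) (l 16515336)) (b (l 16527624) (c (l 16541392) (l 16541920)))) (b (l 16508664) (b (l 16528168) (l 16542352)))) (b (c (c (l 16534400) (l 16534208)) (l 16543976)) (c (c (a (l 16554456) (l 16566912)) (b (l 16532640) (l 16567728))) (a (l 16554256) (l 16566200)))))) (b (a (c (b (a (l 16489240) (l 16522136)) (c (l 16536168) (l 16535304))) (b (l 16524008) (a (l 16506928) (l 16518280)))) (c (b (c (a (l 16513488) (l 16524952)) (a (l 16512024) (l 16523232))) (a (c (l 16532944) (l 16531704)) (c (l 16565336) (l 16542896)))) (b (a (l 16509320) (c (l 16521232) (l 16518968))) (a (l 16550352) (b (l 16534824) (l 16545680)))))) (a (b (c (a (c (l 16531960) (l 16531408)) (c (l 16543912) (l 16543136)))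 (a (l 16530152) (l 16562520))) (c (a (c (l 16579112) (l 16578776)) (c (l 16591048) (l 16590536))) (a (l 16577912) (b (l 16561264) (l 16575648))))) (b (c (a (c (l 16576560) (l 16554608)) (c (b (l 16560944) (l 16573104)) (b (l 16559688) (l 16572008)))) (a (b (l 16546472) (l 16559016)) (c (l 16585376) (l 16583752)))) (c (a (c (b (l 16574800) (l 16588672)) (l 16601952)) (c (b (l 16586024) (l 16620584)) (b (l 16585104) (l 16598920)))) (a (b (l 16572480) (l 16607792)) (b (c (l 16583984) (l 16582648)) (c (l 16598032) (l 16596944))))))))), by decide +kernel⟩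

def k36_pm_012_a : ∃ t, chk3 f_pm_012_a t 15 14 1 = true :=
  ⟨(a (b (a (c (b (a (l 16549648) (l 16563792)) (c (l 16572424) (l 16573080))) (a (l 16569360) (l 16582848))) (b (c (c (l 16582712) (l 16582816)) (l 16582664)) (c (c (l 16604048) (l 16599008)) (c (l 16599064) (l 16598976))))) (a (b (c (c (l 16595144) (l 16590584)) (l 16596616)) (a (c (l 16608320) (l 16604592)) (c (a (l 16612648) (l 16619552)) (l 16617000)))) (b (c (a (l 16605064) (c (l 16622432) (l 16622648))) (a (l 16610736) (l 16622736))) (c (a (c (l 16628608) (l 16629024)) (b (l 16636152) (l 16634960))) (a (l 16629464) (l 16641280)))))) (b (a (c (a (b (l 16601112) (c (l 16596168) (l 16596160))) (b (c (l 16592008) (l 16591720)) (c (l 16607672) (l 16607584)))) (a (b (l 16579496) (l 16616832)) (b (l 16590960) (l 16628120)))) (c (a (b (c (l 16603248) (l 16602864)) (c (l 16639744) (l 16639600))) (b (c (a (l 16611384) (l 16616776)) (a (l 16610960) (l 16616312))) (c (a (l 16627056) (l 16632536)) (a (l 16626856)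 (l 16632296))))) (a (b (c (l 16602304) (l 16601560)) (c (l 16618312) (l 16617832))) (b (c (l 16633968) (l 16612184)) (a (l 16626224) (c (l 16631872) (l 16631280))))))) (a (c (b (a (c (l 16634184) (l 16634328)) (c (l 16645552) (l 16645648))) (a (c (l 16646968) (l 16652536)) (c (b (l 16638104) (l 16658024)) (b (l 16638320) (l 16647832))))) (b (a (l 16634288) (c (l 16645600) (l 16624432))) (a (c (l 16652736) (l 16652816)) (c (l 16664160) (l 16664160))))) (a (b (c (c (a (l 16633064) (l 16638688)) (a (l 16633112) (l 16638688))) (c (l 16654112) (l 16656464))) (a (b (c (l 16657272) (l 16646832)) (l 6)) (l 6))) (b (a (a (b (c (l 16638424) (l 16637968)) (l 6)) (l 6)) (l 6)) (l 6)))))), by decide +kernel⟩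

def k37_pm_012_a : ∃ t, chk3 f_pm_012_a t 15 30 1 = true :=
  ⟨(a (b (a (c (c (b (l 16623808) (l 16643584)) (b (l 16632616) (l 16639328))) (a (l 16637992) (l 16639768))) (c (a (b (l 16643240) (l 16646552)) (c (l 16657120) (l 16655032))) (a (l 16643864) (b (l 16655840) (l 16665976))))) (b (a (c (c (l 16660944) (l 16656736)) (l 16659696)) (c (a (l 16664328) (l 16668088)) (a (l 16669600) (l 16676696)))) (a (c (c (a (l 16664512) (l 16687400)) (l 16679688)) (a (l 16681424) (l 16683944))) (c (c (a (l 16690800) (l 16684128)) (a (l 16689496) (l 16682912))) (a (l 16677144) (l 16681192)))))) (a (a (b (c (c (b (l 16666584) (l 16676616)) (b (l 16667016) (l 16677120))) (b (l 16667472) (l 16667208))) (l 6)) (l 6)) (l 6))), by decide +kernel⟩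

def k38_pm_012_a : ∃ t, chk3 f_pm_012_a t 15 31 1 = true :=
  ⟨(a (b (a (b (c (a (c (l 16693056) (l 16680960)) (c (l 16695088) (l 16693728))) (a (l 16689072) (l 16691728))) (c (a (c (l 16711488) (l 16709912)) (c (a (l 16712952) (l 16714248)) (l 16712296))) (a (c (l 16708360) (l 16696336)) (c (l 16711000) (l 16709720))))) (a (b (c (c (l 16698576) (l 16697328)) (l 16700760)) (l 6)) (l 6))) (b (b (a (c (c (a (l 16715032) (l 16727696)) (a (l 16713488) (l 16715936))) (a (l 16721680) (c (l 16714672) (l 16713416)))) (l 6)) (a (a (c (c (c (l 16724888) (l 16724128)) (l 16722992)) (c (l 16721480) (l 16719976))) (l 6)) (l 6))) (a (c (b (a (b (c (l 16731672) (l 16730168)) (a (c (l 16735944) (l 16734392)) (l 6))) (l 6)) (a (a (b (c (c (l 16741152) (l 16740384)) (l 16744472)) (a (b (c (c (l 16744528) (l 16743744)) (l 16742568)) (c (c (c (l 16747144) (l 16746752)) (l 16746168)) (c (l 16745392) (l 16744608)))) (l 6))) (l 6)) (l 6))) (a (a (b (c (l 16730424) (l 16728864)) (c (b (l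 16737680) (a (c (l 16742608) (l 16741824)) (l 6))) (b (l 16736136) (c (l 16741400) (l 16740624))))) (b (c (l 16731752) (l 16730336)) (l 6))) (l 6))) (l 6)))) (l 6)), by decide +kernel⟩

theorem s39_pm_012_a : ∃ t, chk3 f_pm_012_a t 15 15 1 = true := ex3_b k37_pm_012_a k38_pm_012_a

theorem s40_pm_012_a : ∃ t, chk3 f_pm_012_a t 15 7 1 = true := ex3_b k36_pm_012_a s39_pm_012_a

theorem s41_pm_012_a : ∃ t, chk3 f_pm_012_a t 15 3 1 = true := ex3_b k35_pm_012_a s40_pm_012_a

theorem s42_pm_012_a : ∃ t, chk3 f_pm_012_a t 59 127 1 = true := ex3_c k33_pm_012_a k34_pm_012_a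

theorem s43_pm_012_a : ∃ t, chk3 f_pm_012_a t 59 63 1 = true := ex3_b k32_pm_012_a s42_pm_012_a

theorem s44_pm_012_a : ∃ t, chk3 f_pm_012_a t 59 31 1 = true := ex3_b k31_pm_012_a s43_pm_012_a

theorem s45_pm_012_a : ∃ t, chk3 f_pm_012_a t 59 15 1 = true := ex3_b k30_pm_012_a s44_pm_012_a

theorem s46_pm_012_a : ∃ t, chk3 f_pm_012_a t 116 63 2 = true := ex3_b k26_pm_012_a k27_pm_012_a

theorem s47_pm_012_a : ∃ t, chk3 f_pm_012_a t 116 63 1 = true := ex3_c s46_pm_012_a k28_pm_012_a

theorem s48_pm_012_a : ∃ t, chk3 f_pm_012_a t 58 63 1 = true := ex3_a s47_pm_012_a k29_pm_012_a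

theorem s49_pm_012_a : ∃ t, chk3 f_pm_012_a t 58 31 1 = true := ex3_b k25_pm_012_a s48_pm_012_a

theorem s50_pm_012_a : ∃ t, chk3 f_pm_012_a t 58 15 1 = true := ex3_b k24_pm_012_a s49_pm_012_a

theorem s51_pm_012_a : ∃ t, chk3 f_pm_012_a t 29 15 1 = true := ex3_a s50_pm_012_a s45_pm_012_a

theorem s52_pm_012_a : ∃ t, chk3 f_pm_012_a t 29 7 1 = true := ex3_b k23_pm_012_a s51_pm_012_a

theorem s53_pm_012_a : ∃ t, chk3 f_pm_012_a t 57 255 2 = true := ex3_a k20_pm_012_a k21_pm_012_a

theorem s54_pm_012_a : ∃ t, chk3 f_pm_012_a t 57 127 2 = true := ex3_b k19_pm_012_a s53_pm_012_a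

theorem s55_pm_012_a : ∃ t, chk3 f_pm_012_a t 57 63 2 = true := ex3_b k18_pm_012_a s54_pm_012_a

theorem s56_pm_012_a : ∃ t, chk3 f_pm_012_a t 57 63 1 = true := ex3_c s55_pm_012_a k22_pm_012_a

theorem s57_pm_012_a : ∃ t, chk3 f_pm_012_a t 57 31 1 = true := ex3_b k17_pm_012_a s56_pm_012_a

theorem s58_pm_012_a : ∃ t, chk3 f_pm_012_a t 56 63 3 = true := ex3_b k15_pm_012_a k16_pm_012_a

theorem s59_pm_012_a : ∃ t, chk3 f_pm_012_a t 56 63 1 = true := ex3_c k14_pm_012_a s58_pm_012_a

theorem s60_pm_012_a : ∃ t, chk3 f_pm_012_a t 56 31 1 = true := ex3_b k13_pm_012_a s59_pm_012_a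

theorem s61_pm_012_a : ∃ t, chk3 f_pm_012_a t 28 31 1 = true := ex3_a s60_pm_012_a s57_pm_012_a

theorem s62_pm_012_a : ∃ t, chk3 f_pm_012_a t 28 15 1 = true := ex3_b k12_pm_012_a s61_pm_012_a

theorem s63_pm_012_a : ∃ t, chk3 f_pm_012_a t 28 7 1 = true := ex3_b k11_pm_012_a s62_pm_012_a

theorem s64_pm_012_a : ∃ t, chk3 f_pm_012_a t 14 7 1 = true := ex3_a s63_pm_012_a s52_pm_012_a

theorem s65_pm_012_a : ∃ t, chk3 f_pm_012_a t 14 3 1 = true := ex3_b k10_pm_012_a s64_pm_012_a

theorem s66_pm_012_a : ∃ t, chk3 f_pm_012_a t 7 3 1 = true := ex3_a s65_pm_012_a s41_pm_012_a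

theorem s67_pm_012_a : ∃ t, chk3 f_pm_012_a t 27 63 1 = true := ex3_a k8_pm_012_a k9_pm_012_a

theorem s68_pm_012_a : ∃ t, chk3 f_pm_012_a t 27 31 1 = true := ex3_b k7_pm_012_a s67_pm_012_a

theorem s69_pm_012_a : ∃ t, chk3 f_pm_012_a t 27 15 1 = true := ex3_b k6_pm_012_a s68_pm_012_a

theorem s70_pm_012_a : ∃ t, chk3 f_pm_012_a t 27 7 1 = true := ex3_b k5_pm_012_a s69_pm_012_a

theorem s71_pm_012_a : ∃ t, chk3 f_pm_012_a t 27 3 1 = true := ex3_b k4_pm_012_a s70_pm_012_a

theorem s72_pm_012_a : ∃ t, chk3 f_pm_012_a t 13 3 1 = true := ex3_a k3_pm_012_a s71_pm_012_a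

theorem s73_pm_012_a : ∃ t, chk3 f_pm_012_a t 6 3 1 = true := ex3_a k2_pm_012_a s72_pm_012_a

theorem s74_pm_012_a : ∃ t, chk3 f_pm_012_a t 3 3 1 = true := ex3_a s73_pm_012_a s66_pm_012_a

theorem s75_pm_012_a : ∃ t, chk3 f_pm_012_a t 3 1 1 = true := ex3_b k1_pm_012_a s74_pm_012_a

theorem s76_pm_012_a : ∃ t, chk3 f_pm_012_a t 1 1 1 = true := ex3_a k0_pm_012_a s75_pm_012_a

theorem c_pm_012_a : CertN 0 536870912 0 536870912 134217728 67108864 3 false true false .pnp 0 1 2
    ndN0q0 ndN2q2a pcN1 cut_pm_012_a Ext.none :=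
  certN2 (fam := false) (s1 := true) (s2 := false) (a := 0) (b := 1) (c := 2) (cn := .pnp) (n1 := ndN0q0) (n2 := ndN2q2a) (pc := pcN1) (cut := cut_pm_012_a) (xt := Ext.none) (P1 := 0) (W1 := 536870912) (P2 := 0) (W2 := 536870912) (P3 := 134217728) (W3 := 67108864) (N0 := 3)
    rfl (fun _ => rfl) s76_pm_012_a

noncomputable def cut_pm_012_b : Cut := Cut.of [[⟨0, 0, 0, 67108864⟩, ⟨1, 1, 0, 67108864⟩, ⟨2, 1, 0, 67108864⟩], [⟨0, 0, 1, 41943040⟩, ⟨1, 1, 2, 41943040⟩, ⟨2, 1, 0, 16777216⟩]]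

noncomputable def f_pm_012_b : ℕ → ℕ → ℕ → ℕ → Bool := onCell 536870912 536870912 1239849684 370763052 134217728 67108864
    (rowN 3 2 false true false .pnp 0 1 2 (qsf 0 536870912 1239849684 370763052 1) ndN0q0 ndN2q2b pcN1 cut_pm_012_b Ext.none)

def k0_pm_012_b : ∃ t, chk3 f_pm_012_b t 1 1 1 = true :=
  ⟨(a (b (a (l 2) (b (a (l 17829808) (l 17921088)) (a (l 2) (l 17914488)))) (l 2)) (b (a (b (a (b (l 17982832) (l 18053304)) (b (a (l 18027128) (l 18035144)) (l 18170616))) (a (l 18072552) (l 18254704))) (a (b (a (b (c (l 18214352) (l 17801584)) (l 18233232)) (b (c (l 18098000) (a (l 17707880) (l 17614568))) (c (l 18459320) (l 18024744)))) (b (l 18400096) (l 18473160))) (b (b (a (c (b (a (l 17985144) (l 17870184)) (l 18189944)) (b (a (l 17332408) (c (l 17311896) (l 16935952))) (a (l 17626280) (l 17484480)))) (c (b (a (c (l 17915992) (l 17489296)) (c (a (l 17769616) (l 17645408)) (a (l 17291528) (l 16938984)))) (a (l 18056424) (c (l 18127080) (l 17691352)))) (b (a (a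 (l 16879960) (l 16653952)) (c (l 16460856) (l 16448552))) (a (c (l 17484584) (l 17099680)) (a (c (l 17317864) (l 16891304)) (c (l 17182088) (l 16723960))))))) (a (c (l 18472680) (b (l 17820840) (l 18029448))) (c (b (a (l 18328752) (l 18247768)) (l 18523240)) (b (a (l 17645280) (c (l 17665912) (l 17169520))) (a (l 17923960) (l 17812344)))))) (b (a (l 18481360) (c (l 18766976) (b (l 18112896) (l 18296152)))) (c (l 18879512) (l 18466744)))))) (a (b (a (l 2) (l 18195832)) (l 2)) (a (b (l 18459752) (l 18283304)) (b (b (l 18749048) (l 18744056)) (l 18626632)))))), by decide +kernel⟩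

theorem c_pm_012_b : CertN 0 536870912 1239849684 370763052 134217728 67108864 3 false true false .pnp 0 1 2
    ndN0q0 ndN2q2b pcN1 cut_pm_012_b Ext.none :=
  certN2 (fam := false) (s1 := true) (s2 := false) (a := 0) (b := 1) (c := 2) (cn := .pnp) (n1 := ndN0q0) (n2 := ndN2q2b) (pc := pcN1) (cut := cut_pm_012_b) (xt := Ext.none) (P1 := 0) (W1 := 536870912) (P2 := 1239849684) (W2 := 370763052) (P3 := 134217728) (W3 := 67108864) (N0 := 3)
    rfl (fun _ => rfl) k0_pm_012_b

noncomputable def cut_pm_022_a : Cut := Cut.of [[⟨0, 0, 0, 67108864⟩, ⟨1, 1, 0, 67108864⟩, ⟨2, 1, 0, 67108864⟩]]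

noncomputable def f_pm_022_a : ℕ → ℕ → ℕ → ℕ → Bool := onCell 1073741824 536870912 0 536870912 134217728 67108864
    (rowN 3 2 false true false .pp 0 2 2 (qsf 0 536870912 0 536870912 2) ndN0q0 ndN2q2a pcN2 cut_pm_022_a Ext.none)

def k0_pm_022_a : ∃ t, chk3 f_pm_022_a t 4 2 1 = true :=
  ⟨(a (b (a (c (b (a (c (l 17231872) (l 16647648)) (l 16736376)) (a (c (l 17093248) (l 16487040)) (c (l 17053408) (l 16464992)))) (b (a (l 16452136) (l 16450904)) (a (l 16479872) (l 16458040)))) (c (b (a (l 16873712) (l 16849072)) (a (l 16730968) (l 16710384))) (b (l 16448176) (l 16476720)))) (a (b (c (a (c (b (l 16884936) (l 16672056)) (l 16481136)) (c (l 16745872) (l 16480024))) (a (b (l 16469008) (l 16478768)) (l 16473648))) (c (c (a (b (l 16501632) (l 16515440)) (l 16528720)) (a (b (l 16497448) (l 16511664)) (l 16504256))) (a (b (l 16490952) (l 16526736)) (b (l 16491224) (l 16506440))))) (b (c (a (l 16501184) (l 16477424)) (a (l 16472856) (l 16471216))) (c (a (b (l 16497424) (l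 16512048)) (b (l 16494720) (l 16509208))) (a (l 16519480) (l 16517880)))))) (b (a (c (b (l 16823472) (a (l 16696248) (l 16689264))) (b (l 16441768) (l 16470104))) (c (b (l 16815880) (l 16658336)) (b (l 16464920) (l 16506776)))) (a (a (c (b (l 16493808) (b (l 16487816) (l 16519240))) (b (l 16467952) (l 16531056))) (b (c (l 16481640) (l 16478640)) (l 4))) (l 4)))), by decide +kernel⟩

def k1_pm_022_a : ∃ t, chk3 f_pm_022_a t 4 3 1 = true :=
  ⟨(b (a (a (b (c (a (b (c (l 16531968) (l 16528640)) (c (a (l 16551272) (l 16551664)) (l 16569576))) (b (c (l 16531848) (l 16528960)) (c (l 16551400) (l 16549024)))) (a (b (c (l 16525200) (l 16521632)) (a (l 16564704) (l 16544640))) (b (l 16524440) (l 16566256)))) (b (c (a (c (a (l 16594680) (l 16574016)) (a (l 16571352) (l 16571872))) (c (l 16594872) (l 16572088))) (a (a (c (l 16568872) (l 16566272)) (l 16589424)) (b (l 16562824) (l 16575656)))) (c (a (a (c (b (l 16592352) (l 16605864)) (b (l 16590488) (l 16604344))) (c (l 16620512)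 (l 16598048))) (c (a (l 16620952) (l 16621192)) (a (l 16598648) (l 16620008)))) (a (a (b (l 16587456) (l 16601840)) (b (l 16588344) (l 16602920))) (a (l 16617448) (l 16618080)))))) (a (b (c (b (l 16550192) (c (l 16550072) (l 16548176))) (b (l 16524272) (l 16545184))) (b (c (c (l 16592296) (l 16590952)) (l 16599296)) (a (c (c (l 16618512) (l 16617576)) (l 16616056)) (l 4)))) (b (c (b (l 16545592) (l 16567064)) (b (l 16520944) (l 16559344))) (l 4)))) (l 4)) (a (a (b (b (a (c (a (c (b (l 16620472) (l 16646832)) (b (l 16619296) (l 16635480))) (c (b (l 16621368) (l 16637536)) (b (l 16620328) (l 16636768)))) (a (b (c (l 16618000) (l 16616592)) (c (l 16634504) (l 16633408))) (b (l 16618576) (l 16645920)))) (c (a (b (c (l 16622232) (l 16621296)) (c (l 16638512) (l 16637816))) (b (l 16636864) (c (l 16656720) (l 16656248)))) (a (b (l 16619744) (l 16657616)) (b (l 16619440) (l 16655440))))) (l 6)) (l 6)) (l 4)) (l 4))), by decide +kernel⟩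

def k2_pm_022_a : ∃ t, chk3 f_pm_022_a t 5 1 1 = true :=
  ⟨(b (l 4) (l 4)), by decide +kernel⟩

def k3_pm_022_a : ∃ t, chk3 f_pm_022_a t 3 1 1 = true :=
  ⟨(l 1), by decide +kernel⟩

theorem s4_pm_022_a : ∃ t, chk3 f_pm_022_a t 4 1 1 = true := ex3_b k0_pm_022_a k1_pm_022_a

theorem s5_pm_022_a : ∃ t, chk3 f_pm_022_a t 2 1 1 = true := ex3_a s4_pm_022_a k2_pm_022_a

theorem s6_pm_022_a : ∃ t, chk3 f_pm_022_a t 1 1 1 = true := ex3_a s5_pm_022_a k3_pm_022_a

theorem c_pm_022_a : CertN 0 536870912 0 536870912 134217728 67108864 3 false true false .pp 0 2 2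
    ndN0q0 ndN2q2a pcN2 cut_pm_022_a Ext.none :=
  certN2 (fam := false) (s1 := true) (s2 := false) (a := 0) (b := 2) (c := 2) (cn := .pp) (n1 := ndN0q0) (n2 := ndN2q2a) (pc := pcN2) (cut := cut_pm_022_a) (xt := Ext.none) (P1 := 0) (W1 := 536870912) (P2 := 0) (W2 := 536870912) (P3 := 134217728) (W3 := 67108864) (N0 := 3)
    rfl (fun _ => rfl) s6_pm_022_a

noncomputable def cut_pm_022_b : Cut := Cut.of [[⟨0, 0, 0, 67108864⟩, ⟨1, 1, 0, 67108864⟩, ⟨2, 1, 0, 67108864⟩]]

noncomputable def f_pm_022_b : ℕ → ℕ → ℕ → ℕ → Bool := onCell 1073741824 536870912 1239849684 370763052 134217728 67108864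
    (rowN 3 2 false true false .pp 0 2 2 (qsf 0 536870912 1239849684 370763052 2) ndN0q0 ndN2q2b pcN2 cut_pm_022_b Ext.none)

def k0_pm_022_b : ∃ t, chk3 f_pm_022_b t 1 1 1 = true :=
  ⟨(a (b (a (b (a (b (c (b (a (a (c (l 17550880) (l 16949840)) (c (l 17503392) (l 16975576))) (c (l 17440216) (l 16929264))) (a (c (l 17995280) (l 17529328)) (l 17546736))) (a (a (b (l 16454456) (c (l 17080240) (l 16605184))) (b (l 16431552) (l 16808968))) (b (l 16448728) (l 16556840)))) (c (b (a (l 18140952) (l 18045960)) (l 18380576)) (a (b (a (l 17290472) (l 17292240)) (l 17688432)) (b (l 17238856) (l 17609480))))) (b (c (a (b (c (l 17372160) (l 16886368)) (l 17596968)) (b (a (l 17102208) (l 17092840)) (l 17537120))) (a (b (l 16441600) (l 16727240)) (b (l 16448040) (l 16708888)))) (c (a (l 18113456) (l 18037808)) (b (a (l 17180896) (l 17138656)) (l 17408504))))) (b (a (c (l 18692128) (a (l 18105600) (l 18024920))) (c (l 18528072) (l 17921648))) (a (c (l 18948304) (l 18429456)) (l 18552360))))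 (a (a (b (b (l 4) (c (l 17971136) (l 17057552))) (b (c (l 18416896) (l 17836048)) (l 18458840))) (b (l 4) (l 312696189879))) (l 4))) (a (b (a (l 18906800) (l 18807888)) (a (l 18914720) (l 18870536))) (b (a (l 18713168) (l 18607496)) (a (l 18824720) (l 18769424))))) (b (l 4) (a (b (l 4) (l 254179063639)) (l 4)))), by decide +kernel⟩

theorem c_pm_022_b : CertN 0 536870912 1239849684 370763052 134217728 67108864 3 false true false .pp 0 2 2
    ndN0q0 ndN2q2b pcN2 cut_pm_022_b Ext.none :=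
  certN2 (fam := false) (s1 := true) (s2 := false) (a := 0) (b := 2) (c := 2) (cn := .pp) (n1 := ndN0q0) (n2 := ndN2q2b) (pc := pcN2) (cut := cut_pm_022_b) (xt := Ext.none) (P1 := 0) (W1 := 536870912) (P2 := 1239849684) (W2 := 370763052) (P3 := 134217728) (W3 := 67108864) (N0 := 3)
    rfl (fun _ => rfl) k0_pm_022_b

noncomputable def f_pm_023 : ℕ → ℕ → ℕ → ℕ → Bool := onCell 0 536870912 1073741824 536870912 134217728 67108864
    (rowN 3 1 false true false .up 0 2 3 (qsf 0 536870912 1610612736 536870912 2) ndN0q0 ndN2q3 pcN2 Cut.none Ext.none)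

def k0_pm_023 : ∃ t, chk3 f_pm_023 t 1 1 1 = true :=
  ⟨(a (b (b (l 1) (a (l 1) (l 331823680183))) (b (a (l 4) (l 321623688359)) (l 4))) (b (a (b (l 316255124407) (l 18771600)) (b (l 18689112) (l 18479200))) (b (a (l 18598608) (l 18228800)) (a (l 18328920) (l 17942472))))), by decide +kernel⟩

theorem c_pm_023 : CertN 0 536870912 1610612736 536870912 134217728 67108864 3 false true false .up 0 2 3
    ndN0q0 ndN2q3 pcN2 Cut.none Ext.none :=
  certN1 (fam := false) (s1 := true) (s2 := false) (a := 0) (b := 2) (c := 3) (cn := .up) (n1 := ndN0q0) (n2 := ndN2q3) (pc := pcN2) (cut := Cut.none) (xt := Ext.none) (P1 := 0) (W1 := 536870912) (P2 := 1610612736) (W2 := 536870912) (P3 := 134217728) (W3 := 67108864) (N0 := 3)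
    rfl (fun _ => rfl) k0_pm_023

noncomputable def f_pm_033 : ℕ → ℕ → ℕ → ℕ → Bool := onCell 1610612736 536870912 1610612736 536870912 134217728 67108864
    (rowN 3 2 false true false .pnn 0 3 3 (qsf 0 536870912 1610612736 536870912 3) ndN0q0 ndN2q3 pcN3 Cut.none Ext.none)

def k0_pm_033 : ∃ t, chk3 f_pm_033 t 1 1 1 = true :=
  ⟨(a (b (l 4) (a (b (a (l 18142600) (l 4)) (a (l 17522720) (l 17519256))) (b (l 4) (l 109758907207)))) (l 4)), by decide +kernel⟩

theorem c_pm_033 : CertN 0 536870912 1610612736 536870912 134217728 67108864 3 false true false .pnn 0 3 3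
    ndN0q0 ndN2q3 pcN3 Cut.none Ext.none :=
  certN2 (fam := false) (s1 := true) (s2 := false) (a := 0) (b := 3) (c := 3) (cn := .pnn) (n1 := ndN0q0) (n2 := ndN2q3) (pc := pcN3) (cut := Cut.none) (xt := Ext.none) (P1 := 0) (W1 := 536870912) (P2 := 1610612736) (W2 := 536870912) (P3 := 134217728) (W3 := 67108864) (N0 := 3)
    rfl (fun _ => rfl) k0_pm_033

noncomputable def f_pm_101 : ℕ → ℕ → ℕ → ℕ → Bool := onCell 536870912 536870912 536870912 536870912 134217728 67108864
    (rowN 3 0 false true false .npn 1 0 1 (qsf 536870912 536870912 536870912 536870912 0) ndN0q1 ndN2q1 pcN0 Cut.none Ext.none)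

def k0_pm_101 : ∃ t, chk3 f_pm_101 t 1 1 1 = true :=
  ⟨(l 4), by decide +kernel⟩

theorem c_pm_101 : CertN 536870912 536870912 536870912 536870912 134217728 67108864 3 false true false .npn 1 0 1
    ndN0q1 ndN2q1 pcN0 Cut.none Ext.none :=
  certN0 (fam := false) (s1 := true) (s2 := false) (a := 1) (b := 0) (c := 1) (cn := .npn) (n1 := ndN0q1) (n2 := ndN2q1) (pc := pcN0) (cut := Cut.none) (xt := Ext.none) (P1 := 536870912) (W1 := 536870912) (P2 := 536870912) (W2 := 536870912) (P3 := 134217728) (W3 := 67108864) (N0 := 3)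
    rfl k0_pm_101

noncomputable def cut_pm_102_a : Cut := Cut.of [[⟨0, 1, 0, 67108864⟩, ⟨1, 0, 0, 67108864⟩, ⟨2, 1, 0, 67108864⟩]]

noncomputable def f_pm_102_a : ℕ → ℕ → ℕ → ℕ → Bool := onCell 536870912 536870912 0 536870912 134217728 67108864
    (rowN 3 0 false true false .npp 1 0 2 (qsf 536870912 536870912 0 536870912 0) ndN0q1 ndN2q2a pcN0 cut_pm_102_a Ext.none)

def k0_pm_102_a : ∃ t, chk3 f_pm_102_a t 2 1 1 = true :=
  ⟨(a (b (l 17669312) (b (a (l 2) (l 17474752)) (a (l 17746728) (l 17698400)))) (b (l 17380712) (b (a (l 17329400) (l 17174144)) (a (b (l 17398936) (l 17403512)) (b (l 17256272) (l 17275840)))))), by decide +kernel⟩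

def k1_pm_102_a : ∃ t, chk3 f_pm_102_a t 6 2 1 = true :=
  ⟨(a (l 16913856) (l 17025712)), by decide +kernel⟩

def k2_pm_102_a : ∃ t, chk3 f_pm_102_a t 14 2 1 = true :=
  ⟨(a (l 16903536) (b (l 16957704) (l 16895664))), by decide +kernel⟩

def k3_pm_102_a : ∃ t, chk3 f_pm_102_a t 30 2 1 = true :=
  ⟨(b (a (l 16957400) (a (b (l 16950672) (l 16928384)) (b (b (a (l 16833624) (c (l 16975736) (l 128479826807))) (c (l 17035856) (l 16816176))) (c (l 17013864) (l 16792728))))) (a (l 16877520) (b (l 16761744) (l 16784752)))), by decide +kernel⟩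

def k4_pm_102_a : ∃ t, chk3 f_pm_102_a t 31 2 1 = true :=
  ⟨(b (a (a (b (a (c (c (l 149955378007) (l 148881395095)) (b (l 145659685671) (a (l 128479821207) (l 143512195943)))) (l 3)) (a (c (b (l 117742736903) (l 16990632)) (b (a (l 16773184) (l 128479821895)) (l 16743440))) (c (c (l 149955310535) (b (l 149418202231) (l 145660058919))) (c (b (l 145659843543) (l 141364721175)) (b (l 142438449143) (l 138680356519)))))) (b (l 3) (l 3))) (l 3)) (a (a (c (b (a (l 16942576) (b (c (l 17013520) (l 16879680)) (l 16905784))) (l 16833712)) (b (a (l 16733440) (b (c (l 16734168) (l 16724440)) (l 16730160))) (l 16737944))) (b (a (b (a (c (c (l 149418339383) (a (l 116668936551) (l 147270545815))) (c (l 140827849495) (l 140827839191))) (l 3)) (a (c (c (l 16961928) (l 123648067975)) (c (l 16728912) (l 16724072))) (c (c (l 148344390471) (b (l 145659866759) (l 141901715767))) (c (l 140827850743) (l 140290970087))))) (l 3)) (a (b (a (c (l 16833512) (l 16730024)) (c (c (l 109689589319)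 (l 129553586615)) (c (l 132237931479) (l 133848540119)))) (c (l 16753568) (l 16732808))) (b (a (c (c (b (l 148344390407) (a (l 16870344) (l 145659877687))) (b (l 142975360215) (l 139217250151))) (c (b (l 142438464007) (l 139217241095)) (b (l 141901583831) (l 138680361303)))) (l 3)) (a (c (b (c (l 125795533335) (l 16737224)) (l 16738496)) (b (c (l 16730288) (l 16726048)) (l 16730312))) (a (c (b (c (a (l 118816222151) (l 145659780391)) (l 140827862967)) (c (l 131164202135) (l 133848553671))) (b (c (l 140827854295) (l 140290974871)) (c (l 16730552) (l 16726512)))) (b (l 3) (c (c (l 141901611335) (l 140827864311)) (c (l 140290985143) (l 140290977031)))))))))) (a (b (l 3) (l 3)) (l 3)))), by decide +kernel⟩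

def k5_pm_102_a : ∃ t, chk3 f_pm_102_a t 6 3 1 = true :=
  ⟨(b (a (l 17017896) (l 16891128)) (a (b (l 17109328) (a (l 17182944) (l 17161328))) (b (l 16965488) (l 17269752)))), by decide +kernel⟩

def k6_pm_102_a : ∃ t, chk3 f_pm_102_a t 14 6 1 = true :=
  ⟨(b (l 16921472) (a (l 16802536) (l 16803792))), by decide +kernel⟩

def k7_pm_102_a : ∃ t, chk3 f_pm_102_a t 30 6 1 = true :=
  ⟨(a (l 16826792) (b (l 16763488) (l 16773704))), by decide +kernel⟩

def k8_pm_102_a : ∃ t, chk3 f_pm_102_a t 62 6 1 = true :=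
  ⟨(b (a (l 16750080) (a (b (l 16741008) (l 16745744)) (b (a (c (l 16741304) (l 16733824)) (b (c (c (l 132237949511) (l 134922299095)) (c (l 134922282631) (l 16728344))) (c (l 16740040) (l 16732728)))) (c (l 16744496) (l 16737960))))) (a (l 16760928) (b (a (l 16751312) (l 16746880)) (l 16755680)))), by decide +kernel⟩

def k9_pm_102_a : ∃ t, chk3 f_pm_102_a t 63 12 1 = true :=
  ⟨(a (a (b (a (a (b (c (c (a (l 135996035927) (l 142438486295)) (l 140827865959)) (c (l 140290987223) (l 140827850455))) (c (c (l 134385434983) (l 135459161303)) (c (l 135996026343) (l 16729184)))) (b (l 3) (c (c (a (l 137069787143) (l 142438493079)) (l 140290997047)) (c (l 140827860599) (l 141901595175))))) (l 3)) (a (b (c (c (b (l 135459177607) (l 16742248)) (l 135996035639)) (c (l 134922287351) (l 16731400))) (c (l 16742344) (l 16735968))) (a (b (c (c (b (l 141901618327) (l 139754136263)) (l 140827870343)) (c (l 142438476183) (l 139754114839))) (c (c (b (l 137069785015) (l 16742888)) (l 134385425623))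 (c (l 133848548135) (l 16732696)))) (b (l 3) (c (c (b (l 141901620551) (l 139217267799)) (l 140291002263)) (c (l 139754124935) (l 139754118615))))))) (l 3)) (l 3)), by decide +kernel⟩

def k10_pm_102_a : ∃ t, chk3 f_pm_102_a t 63 13 1 = true :=
  ⟨(a (a (b (a (c (l 16746360) (l 16740760)) (b (c (a (l 16743296) (c (b (l 133311691959) (l 16744344)) (l 131701074199))) (c (l 129016713879) (l 133848546119))) (c (l 16745616) (l 16740240)))) (c (l 16751464) (l 16746888))) (b (a (a (b (c (c (c (l 140291013127) (l 140291010103)) (l 140291010855)) (c (l 139754128775) (l 139754122951))) (c (c (c (l 133311695735) (l 132237950999)) (a (l 16742872) (l 132774819303))) (c (l 130090459399) (l 134922291959)))) (b (l 3) (c (c (c (l 139754145431) (l 139754142663)) (b (l 141901620855) (l 138680397943))) (c (l 139754133143) (l 139754127799))))) (l 3)) (a (b (c (a (l 16747112) (c (c (l 133848570151) (l 132774825831)) (b (l 132774822055) (l 16745656)))) (a (l 16742232) (c (l 130627334871)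 (l 133848555351)))) (c (l 16749896) (l 16745544))) (a (b (c (c (c (a (l 138680407527) (l 141364761623)) (l 139754146695)) (b (l 141901625143) (l 138680402487))) (c (l 139754148551) (l 139217262311))) (c (b (c (b (l 136532927335) (l 16748984)) (l 134385439543)) (c (l 16750048) (l 16747928))) (b (c (l 133848563943) (l 133848559335)) (l 16744800)))) (b (l 3) (c (b (c (b (l 142975375703) (l 141364763959)) (l 141364758903)) (c (a (l 136532929239) (l 140827894359)) (l 138143536007))) (c (a (l 135459176071) (l 139217271927)) (l 138680397063)))))))) (l 3)), by decide +kernel⟩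

def k11_pm_102_a : ∃ t, chk3 f_pm_102_a t 7 7 1 = true :=
  ⟨(b (a (c (l 17071056) (l 17086880)) (a (a (l 16815688) (b (l 16783736) (l 16789720))) (a (a (l 16817192) (b (l 16763088) (l 16791936))) (a (a (b (c (l 16758248) (l 16754808)) (l 16774992)) (b (a (c (l 16754832) (l 16751424)) (b (c (a (l 16751408) (b (c (a (l 16750672) (l 133848576199)) (l 133311701479)) (c (l 16752000) (l 16750216)))) (b (c (l 132237956135) (l 132237952231)) (l 16748144))) (c (l 16754368) (l 16751280)))) (b (c (l 16759200) (l 16756720)) (l 6)))) (b (a (a (b (a (c (b (c (b (l 142975379159) (l 138680412999)) (l 140291021319)) (c (c (l 138143545047) (l 138143543255)) (l 138143540599))) (c (b (l 139217275655) (l 138143537079)) (l 138680408039))) (l 3)) (c (a (b (c (c (l 131701096599) (l 131701094903)) (a (l 16751240) (l 133848576951))) (c (l 16754280) (l 16752824))) (b (c (c (l 138143546775) (l 138680416071)) (l 139217288487)) (c (c (l 138143549463) (l 138143548023)) (a (l 137069804855) (l 138143545431)))))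 (a (b (c (l 132774831975) (l 131701086871)) (l 16750648)) (b (c (l 139217281335) (l 139217278135)) (c (l 138143542951) (l 138143540071)))))) (l 3)) (l 3)) (a (a (a (b (c (l 16756376) (l 16753944)) (l 6)) (l 6)) (l 6)) (l 3))))))) (a (b (l 17053856) (a (l 16951288) (l 16958096))) (a (b (a (l 16814744) (l 16810200)) (a (l 16873496) (l 16909136))) (b (a (b (l 16781936) (l 6)) (l 6)) (l 6))))), by decide +kernel⟩

theorem s12_pm_102_a : ∃ t, chk3 f_pm_102_a t 63 6 1 = true := ex3_b k9_pm_102_a k10_pm_102_a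

theorem s13_pm_102_a : ∃ t, chk3 f_pm_102_a t 31 6 1 = true := ex3_a k8_pm_102_a s12_pm_102_a

theorem s14_pm_102_a : ∃ t, chk3 f_pm_102_a t 15 6 1 = true := ex3_a k7_pm_102_a s13_pm_102_a

theorem s15_pm_102_a : ∃ t, chk3 f_pm_102_a t 7 6 1 = true := ex3_a k6_pm_102_a s14_pm_102_a

theorem s16_pm_102_a : ∃ t, chk3 f_pm_102_a t 7 3 1 = true := ex3_b s15_pm_102_a k11_pm_102_a

theorem s17_pm_102_a : ∃ t, chk3 f_pm_102_a t 3 3 1 = true := ex3_a k5_pm_102_a s16_pm_102_a

theorem s18_pm_102_a : ∃ t, chk3 f_pm_102_a t 15 2 1 = true := ex3_a k3_pm_102_a k4_pm_102_a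

theorem s19_pm_102_a : ∃ t, chk3 f_pm_102_a t 7 2 1 = true := ex3_a k2_pm_102_a s18_pm_102_a

theorem s20_pm_102_a : ∃ t, chk3 f_pm_102_a t 3 2 1 = true := ex3_a k1_pm_102_a s19_pm_102_a

theorem s21_pm_102_a : ∃ t, chk3 f_pm_102_a t 3 1 1 = true := ex3_b s20_pm_102_a s17_pm_102_a

theorem s22_pm_102_a : ∃ t, chk3 f_pm_102_a t 1 1 1 = true := ex3_a k0_pm_102_a s21_pm_102_a

theorem c_pm_102_a : CertN 536870912 536870912 0 536870912 134217728 67108864 3 false true false .npp 1 0 2
    ndN0q1 ndN2q2a pcN0 cut_pm_102_a Ext.none :=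
  certN0 (fam := false) (s1 := true) (s2 := false) (a := 1) (b := 0) (c := 2) (cn := .npp) (n1 := ndN0q1) (n2 := ndN2q2a) (pc := pcN0) (cut := cut_pm_102_a) (xt := Ext.none) (P1 := 536870912) (W1 := 536870912) (P2 := 0) (W2 := 536870912) (P3 := 134217728) (W3 := 67108864) (N0 := 3)
    rfl s22_pm_102_a

noncomputable def cut_pm_102_b : Cut := Cut.of [[⟨0, 1, 0, 67108864⟩, ⟨1, 0, 0, 67108864⟩, ⟨2, 1, 0, 67108864⟩]]

noncomputable def f_pm_102_b : ℕ → ℕ → ℕ → ℕ → Bool := onCell 536870912 536870912 1239849684 370763052 134217728 67108864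
    (rowN 3 0 false true false .npp 1 0 2 (qsf 536870912 536870912 1239849684 370763052 0) ndN0q1 ndN2q2b pcN0 cut_pm_102_b Ext.none)

def k0_pm_102_b : ∃ t, chk3 f_pm_102_b t 1 1 1 = true :=
  ⟨(a (b (a (l 2) (a (l 17072832) (l 16968832))) (l 2)) (b (a (b (a (l 16972232) (l 17084120)) (a (l 16890048) (l 17078584))) (a (b (a (l 17039792) (b (l 17041040) (l 17164320))) (a (l 17210200) (l 17335264))) (b (a (a (b (a (l 17059504) (l 17061168)) (l 17208328)) (a (b (c (l 17148264) (l 16967640)) (l 17224472)) (b (c (a (l 17130224) (b (c (l 17152352) (l 16981120)) (l 17200432))) (a (b (l 16895296) (l 17007528)) (b (a (l 16883712) (c (l 141901772887) (l 138143488679))) (c (l 17049864) (l 16927200))))) (c (l 17317528) (b (l 17102360) (l 17185552)))))) (a (a (a (b (a (b (l 3) (c (l 154250285079) (c (l 565493173623) (l 559050715079)))) (l 3)) (c (l 154250599991) (b (l 155860974999) (l 155324038887)))) (l 3)) (l 3)) (l 3))) (a (a (l 17352208) (b (c (l 17414992) (l 17278520)) (l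 17421024))) (a (b (a (c (l 17445984) (l 158008848775)) (l 3)) (l 158546052359)) (l 3)))))) (a (a (l 2) (b (l 17173848) (l 2))) (a (b (a (l 17296440) (l 17374304)) (l 17374008)) (b (a (b (l 17440760) (l 17454280)) (a (b (l 159619833207) (l 17508752)) (l 3))) (a (l 17462480) (a (l 17630952) (l 3)))))))), by decide +kernel⟩

theorem c_pm_102_b : CertN 536870912 536870912 1239849684 370763052 134217728 67108864 3 false true false .npp 1 0 2
    ndN0q1 ndN2q2b pcN0 cut_pm_102_b Ext.none :=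
  certN0 (fam := false) (s1 := true) (s2 := false) (a := 1) (b := 0) (c := 2) (cn := .npp) (n1 := ndN0q1) (n2 := ndN2q2b) (pc := pcN0) (cut := cut_pm_102_b) (xt := Ext.none) (P1 := 536870912) (W1 := 536870912) (P2 := 1239849684) (W2 := 370763052) (P3 := 134217728) (W3 := 67108864) (N0 := 3)
    rfl k0_pm_102_b

noncomputable def f_pm_112_a : ℕ → ℕ → ℕ → ℕ → Bool := onCell 536870912 536870912 0 536870912 134217728 67108864
    (rowN 3 0 false true false .dn 1 1 2 (qsf 536870912 536870912 0 536870912 1) ndN0q1 ndN2q2a pcN1 Cut.none Ext.none)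

def k0_pm_112_a : ∃ t, chk3 f_pm_112_a t 1 1 1 = true :=
  ⟨(a (a (a (b (l 17787480) (b (l 17773480) (b (l 17766712) (c (l 17827400) (l 17702576))))) (b (l 17751272) (b (l 17763264) (l 204047019239)))) (b (l 71439816615) (b (l 1) (l 1)))) (l 1)), by decide +kernel⟩

theorem c_pm_112_a : CertN 536870912 536870912 0 536870912 134217728 67108864 3 false true false .dn 1 1 2
    ndN0q1 ndN2q2a pcN1 Cut.none Ext.none :=
  certN0 (fam := false) (s1 := true) (s2 := false) (a := 1) (b := 1) (c := 2) (cn := .dn) (n1 := ndN0q1) (n2 := ndN2q2a) (pc := pcN1) (cut := Cut.none) (xt := Ext.none) (P1 := 536870912) (W1 := 536870912) (P2 := 0) (W2 := 536870912) (P3 := 134217728) (W3 := 67108864) (N0 := 3)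
    rfl k0_pm_112_a

noncomputable def f_pm_112_b : ℕ → ℕ → ℕ → ℕ → Bool := onCell 536870912 536870912 1239849684 370763052 134217728 67108864
    (rowN 3 0 false true false .dn 1 1 2 (qsf 536870912 536870912 1239849684 370763052 1) ndN0q1 ndN2q2b pcN1 Cut.none Ext.none)

def k0_pm_112_b : ∃ t, chk3 f_pm_112_b t 1 1 1 = true :=
  ⟨(a (b (a (b (a (l 17846224) (l 17770424)) (l 17925368)) (b (l 17939592) (l 17704312))) (a (a (l 18285792) (l 18022040)) (a (l 17805840) (l 17639840)))) (b (a (b (l 1) (a (l 17794848) (l 169149933063))) (l 1)) (a (a (b (l 17560704) (l 17504048)) (b (l 17469088) (l 17407568))) (a (b (l 256659513591) (l 17465936)) (b (l 1) (a (l 96135186279) (a (l 62312485543) (l 3)))))))), by decide +kernel⟩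

theorem c_pm_112_b : CertN 536870912 536870912 1239849684 370763052 134217728 67108864 3 false true false .dn 1 1 2
    ndN0q1 ndN2q2b pcN1 Cut.none Ext.none :=
  certN0 (fam := false) (s1 := true) (s2 := false) (a := 1) (b := 1) (c := 2) (cn := .dn) (n1 := ndN0q1) (n2 := ndN2q2b) (pc := pcN1) (cut := Cut.none) (xt := Ext.none) (P1 := 536870912) (W1 := 536870912) (P2 := 1239849684) (W2 := 370763052) (P3 := 134217728) (W3 := 67108864) (N0 := 3)
    rfl k0_pm_112_b

noncomputable def cut_pm_113 : Cut := Cut.of [[⟨0, 1, 0, 39843005⟩, ⟨1, 1, 0, 39843005⟩, ⟨2, 2, 0, 5814905⟩]]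

noncomputable def f_pm_113 : ℕ → ℕ → ℕ → ℕ → Bool := onCell 536870912 536870912 536870912 536870912 134217728 67108864
    (rowN 3 1 false true false .nn 1 1 3 (qsf 536870912 536870912 1610612736 536870912 1) ndN0q1 ndN2q3 pcN1 cut_pm_113 Ext.none)

def k0_pm_113 : ∃ t, chk3 f_pm_113 t 1 1 1 = true :=
  ⟨(a (b (b (l 1) (a (l 1) (l 17376064))) (b (a (l 17821960) (l 17421184)) (a (l 231427647415) (l 17511136)))) (b (b (a (a (l 1) (l 17443016)) (a (b (l 17533904) (l 17505608)) (a (b (l 17625312) (l 17572488)) (b (a (l 17678264) (l 3)) (l 169284023351))))) (a (l 17548616) (a (l 17562512) (b (l 155862300935) (l 17625768))))) (a (b (l 17367208) (l 17315136)) (b (a (l 17230696) (b (l 17434496) (a (l 17147304) (l 17245280)))) (a (l 17035432) (b (a (l 17025216) (b (l 17019456) (l 16997240))) (a (l 16906912) (a (l 16873552) (b (l 279877679383) (a (l 16826400) (a (l 16816560) (b (l 16846544) (b (l 16787104) (a (l 16789696) (a (l 16787104) (b (l 16799648) (l 6))))))))))))))))),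 by decide +kernel⟩

theorem c_pm_113 : CertN 536870912 536870912 1610612736 536870912 134217728 67108864 3 false true false .nn 1 1 3
    ndN0q1 ndN2q3 pcN1 cut_pm_113 Ext.none :=
  certN1 (fam := false) (s1 := true) (s2 := false) (a := 1) (b := 1) (c := 3) (cn := .nn) (n1 := ndN0q1) (n2 := ndN2q3) (pc := pcN1) (cut := cut_pm_113) (xt := Ext.none) (P1 := 536870912) (W1 := 536870912) (P2 := 1610612736) (W2 := 536870912) (P3 := 134217728) (W3 := 67108864) (N0 := 3)
    rfl (fun _ => rfl) k0_pm_113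

noncomputable def cut_pm_123 : Cut := Cut.of [[⟨0, 1, 0, 39843005⟩, ⟨1, 1, 0, 39843005⟩, ⟨2, 2, 0, 5814905⟩]]

noncomputable def f_pm_123 : ℕ → ℕ → ℕ → ℕ → Bool := onCell 1073741824 536870912 1610612736 536870912 134217728 67108864
    (rowN 3 2 false true false .npn 1 2 3 (qsf 536870912 536870912 1610612736 536870912 2) ndN0q1 ndN2q3 pcN2 cut_pm_123 Ext.none)

def k0_pm_123 : ∃ t, chk3 f_pm_123 t 1 1 1 = true :=
  ⟨(a (b (a (b (b (l 18742472) (l 18421304)) (a (b (l 18144152) (l 17899896)) (a (a (l 18090848) (l 18118880)) (l 18156736)))) (b (a (l 18714552) (l 1)) (a (l 18232152) (l 18326120)))) (a (b (a (l 17466872) (a (a (l 17579792) (l 17615576)) (b (l 17800408) (l 17524720)))) (b (a (a (l 17019168) (l 17115640)) (a (a (l 17187608) (l 17220688)) (l 17331840))) (a (b (l 17053984) (a (b (l 16824232) (b (l 16803544) (b (l 16814776) (l 6)))) (l 16853760))) (a (a (l 16949008) (a (l 16975872) (l 16994088))) (a (l 17003048) (l 17034800)))))) (a (b (a (b (l 17861848) (l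 17605608)) (l 17788392)) (a (a (l 17267616) (b (l 17357712) (l 17160824))) (l 17253384))) (b (l 17861832) (b (l 17465288) (l 17206208)))))) (b (a (b (l 1) (a (l 18408000) (l 1))) (l 1)) (a (b (a (l 17966112) (l 18062496)) (a (l 17479816) (l 17703296))) (b (a (l 18133728) (l 1)) (a (l 17695560) (l 17776880)))))), by decide +kernel⟩

theorem c_pm_123 : CertN 536870912 536870912 1610612736 536870912 134217728 67108864 3 false true false .npn 1 2 3
    ndN0q1 ndN2q3 pcN2 cut_pm_123 Ext.none :=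
  certN2 (fam := false) (s1 := true) (s2 := false) (a := 1) (b := 2) (c := 3) (cn := .npn) (n1 := ndN0q1) (n2 := ndN2q3) (pc := pcN2) (cut := cut_pm_123) (xt := Ext.none) (P1 := 536870912) (W1 := 536870912) (P2 := 1610612736) (W2 := 536870912) (P3 := 134217728) (W3 := 67108864) (N0 := 3)
    rfl (fun _ => rfl) k0_pm_123

noncomputable def f_pm_133 : ℕ → ℕ → ℕ → ℕ → Bool := onCell 1610612736 536870912 1610612736 536870912 134217728 67108864
    (rowN 3 2 false true false .dn 1 3 3 (qsf 536870912 536870912 1610612736 536870912 3) ndN0q1 ndN2q3 pcN3 Cut.none Ext.none)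

def k0_pm_133 : ∃ t, chk3 f_pm_133 t 1 1 1 = true :=
  ⟨(a (b (l 1) (a (b (l 1) (a (l 17576752) (l 1))) (l 1))) (l 1)), by decide +kernel⟩

theorem c_pm_133 : CertN 536870912 536870912 1610612736 536870912 134217728 67108864 3 false true false .dn 1 3 3
    ndN0q1 ndN2q3 pcN3 Cut.none Ext.none :=
  certN2 (fam := false) (s1 := true) (s2 := false) (a := 1) (b := 3) (c := 3) (cn := .dn) (n1 := ndN0q1) (n2 := ndN2q3) (pc := pcN3) (cut := Cut.none) (xt := Ext.none) (P1 := 536870912) (W1 := 536870912) (P2 := 1610612736) (W2 := 536870912) (P3 := 134217728) (W3 := 67108864) (N0 := 3)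
    rfl (fun _ => rfl) k0_pm_133

noncomputable def cut_pm_202_a : Cut := Cut.of [[⟨0, 1, 0, 67108864⟩, ⟨1, 0, 0, 67108864⟩, ⟨2, 1, 0, 67108864⟩]]

noncomputable def f_pm_202_a : ℕ → ℕ → ℕ → ℕ → Bool := onCell 0 536870912 0 536870912 134217728 67108864
    (rowN 3 0 false true false .pp 2 0 2 (qsf 0 536870912 0 536870912 0) ndN0q2 ndN2q2a pcN0 cut_pm_202_a Ext.none)

def k0_pm_202_a : ∃ t, chk3 f_pm_202_a t 1 1 1 = true :=
  ⟨(a (l 3) (b (l 3) (a (l 3) (b (l 3) (b (l 3) (a (l 3) (l 6))))))), by decide +kernel⟩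

theorem c_pm_202_a : CertN 0 536870912 0 536870912 134217728 67108864 3 false true false .pp 2 0 2
    ndN0q2 ndN2q2a pcN0 cut_pm_202_a Ext.none :=
  certN0 (fam := false) (s1 := true) (s2 := false) (a := 2) (b := 0) (c := 2) (cn := .pp) (n1 := ndN0q2) (n2 := ndN2q2a) (pc := pcN0) (cut := cut_pm_202_a) (xt := Ext.none) (P1 := 0) (W1 := 536870912) (P2 := 0) (W2 := 536870912) (P3 := 134217728) (W3 := 67108864) (N0 := 3)
    rfl k0_pm_202_a

noncomputable def cut_pm_202_b : Cut := Cut.of [[⟨0, 1, 0, 67108864⟩, ⟨1, 0, 0, 67108864⟩, ⟨2, 1, 0, 67108864⟩]]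

noncomputable def f_pm_202_b : ℕ → ℕ → ℕ → ℕ → Bool := onCell 0 536870912 1239849684 370763052 134217728 67108864
    (rowN 3 0 false true false .pp 2 0 2 (qsf 0 536870912 1239849684 370763052 0) ndN0q2 ndN2q2b pcN0 cut_pm_202_b Ext.none)

def k0_pm_202_b : ∃ t, chk3 f_pm_202_b t 1 1 1 = true :=
  ⟨(a (l 3) (l 3)), by decide +kernel⟩

theorem c_pm_202_b : CertN 0 536870912 1239849684 370763052 134217728 67108864 3 false true false .pp 2 0 2
    ndN0q2 ndN2q2b pcN0 cut_pm_202_b Ext.none :=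
  certN0 (fam := false) (s1 := true) (s2 := false) (a := 2) (b := 0) (c := 2) (cn := .pp) (n1 := ndN0q2) (n2 := ndN2q2b) (pc := pcN0) (cut := cut_pm_202_b) (xt := Ext.none) (P1 := 0) (W1 := 536870912) (P2 := 1239849684) (W2 := 370763052) (P3 := 134217728) (W3 := 67108864) (N0 := 3)
    rfl k0_pm_202_b

noncomputable def f_pm_203 : ℕ → ℕ → ℕ → ℕ → Bool := onCell 0 536870912 0 536870912 134217728 67108864
    (rowN 3 1 false true false .up 2 0 3 (qsf 0 536870912 1610612736 536870912 0) ndN0q2 ndN2q3 pcN0 Cut.none Ext.none)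

def k0_pm_203 : ∃ t, chk3 f_pm_203 t 1 1 1 = true :=
  ⟨(b (l 1) (a (l 3) (l 3))), by decide +kernel⟩

theorem c_pm_203 : CertN 0 536870912 1610612736 536870912 134217728 67108864 3 false true false .up 2 0 3
    ndN0q2 ndN2q3 pcN0 Cut.none Ext.none :=
  certN1 (fam := false) (s1 := true) (s2 := false) (a := 2) (b := 0) (c := 3) (cn := .up) (n1 := ndN0q2) (n2 := ndN2q3) (pc := pcN0) (cut := Cut.none) (xt := Ext.none) (P1 := 0) (W1 := 536870912) (P2 := 1610612736) (W2 := 536870912) (P3 := 134217728) (W3 := 67108864) (N0 := 3)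
    rfl (fun _ => rfl) k0_pm_203

noncomputable def cut_pm_213 : Cut := Cut.of [[⟨0, 1, 0, 39843005⟩, ⟨1, 1, 0, 39843005⟩, ⟨2, 2, 0, 5814905⟩]]

noncomputable def f_pm_213 : ℕ → ℕ → ℕ → ℕ → Bool := onCell 0 536870912 1610612736 536870912 134217728 67108864
    (rowN 3 0 false true false .pnn 2 1 3 (qsf 0 536870912 1610612736 536870912 1) ndN0q2 ndN2q3 pcN1 cut_pm_213 Ext.none)

def k0_pm_213 : ∃ t, chk3 f_pm_213 t 1 1 1 = true :=
  ⟨(a (l 3) (a (l 3) (a (b (l 3) (l 3)) (b (l 3) (b (l 3) (b (l 3) (a (l 3) (a (l 3) (b (l 3) (a (l 3) (b (l 3) (b (l 3) (b (l 3) (l 6)))))))))))))), by decide +kernel⟩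

theorem c_pm_213 : CertN 0 536870912 1610612736 536870912 134217728 67108864 3 false true false .pnn 2 1 3
    ndN0q2 ndN2q3 pcN1 cut_pm_213 Ext.none :=
  certN0 (fam := false) (s1 := true) (s2 := false) (a := 2) (b := 1) (c := 3) (cn := .pnn) (n1 := ndN0q2) (n2 := ndN2q3) (pc := pcN1) (cut := cut_pm_213) (xt := Ext.none) (P1 := 0) (W1 := 536870912) (P2 := 1610612736) (W2 := 536870912) (P3 := 134217728) (W3 := 67108864) (N0 := 3)
    rfl k0_pm_213

noncomputable def f_mm_001 : ℕ → ℕ → ℕ → ℕ → Bool := onCell 0 536870912 0 536870912 134217728 67108864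
    (rowN 3 1 false false false .up 0 0 1 (qsf 0 536870912 536870912 536870912 0) ndN0q0 ndN2q1 pcN0 Cut.none Ext.none)

def k0_mm_001 : ∃ t, chk3 f_mm_001 t 1 1 1 = true :=
  ⟨(l 3), by decide +kernel⟩

theorem c_mm_001 : CertN 0 536870912 536870912 536870912 134217728 67108864 3 false false false .up 0 0 1
    ndN0q0 ndN2q1 pcN0 Cut.none Ext.none :=
  certN1 (fam := false) (s1 := false) (s2 := false) (a := 0) (b := 0) (c := 1) (cn := .up) (n1 := ndN0q0) (n2 := ndN2q1) (pc := pcN0) (cut := Cut.none) (xt := Ext.none) (P1 := 0) (W1 := 536870912) (P2 := 536870912) (W2 := 536870912) (P3 := 134217728) (W3 := 67108864) (N0 := 3)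
    rfl (fun _ => rfl) k0_mm_001

noncomputable def f_mm_011 : ℕ → ℕ → ℕ → ℕ → Bool := onCell 0 536870912 536870912 536870912 134217728 67108864
    (rowN 3 1 false false false .pnn 0 1 1 (qsf 0 536870912 536870912 536870912 1) ndN0q0 ndN2q1 pcN1 Cut.none Ext.none)

def k0_mm_011 : ∃ t, chk3 f_mm_011 t 1 1 1 = true :=
  ⟨(l 5), by decide +kernel⟩

theorem c_mm_011 : CertN 0 536870912 536870912 536870912 134217728 67108864 3 false false false .pnn 0 1 1
    ndN0q0 ndN2q1 pcN1 Cut.none Ext.none :=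
  certN1 (fam := false) (s1 := false) (s2 := false) (a := 0) (b := 1) (c := 1) (cn := .pnn) (n1 := ndN0q0) (n2 := ndN2q1) (pc := pcN1) (cut := Cut.none) (xt := Ext.none) (P1 := 0) (W1 := 536870912) (P2 := 536870912) (W2 := 536870912) (P3 := 134217728) (W3 := 67108864) (N0 := 3)
    rfl (fun _ => rfl) k0_mm_011

noncomputable def f_mm_012_a : ℕ → ℕ → ℕ → ℕ → Bool := onCell 0 536870912 0 536870912 134217728 67108864
    (rowN 3 0 false false false .pnp 0 1 2 (qsf 0 536870912 0 536870912 1) ndN0q0 ndN2q2a pcN1 Cut.none Ext.none)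

def k0_mm_012_a : ∃ t, chk3 f_mm_012_a t 1 1 1 = true :=
  ⟨(l 5), by decide +kernel⟩

theorem c_mm_012_a : CertN 0 536870912 0 536870912 134217728 67108864 3 false false false .pnp 0 1 2
    ndN0q0 ndN2q2a pcN1 Cut.none Ext.none :=
  certN0 (fam := false) (s1 := false) (s2 := false) (a := 0) (b := 1) (c := 2) (cn := .pnp) (n1 := ndN0q0) (n2 := ndN2q2a) (pc := pcN1) (cut := Cut.none) (xt := Ext.none) (P1 := 0) (W1 := 536870912) (P2 := 0) (W2 := 536870912) (P3 := 134217728) (W3 := 67108864) (N0 := 3)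
    rfl k0_mm_012_a

noncomputable def f_mm_012_b : ℕ → ℕ → ℕ → ℕ → Bool := onCell 0 536870912 1239849684 370763052 134217728 67108864
    (rowN 3 0 false false false .pnp 0 1 2 (qsf 0 536870912 1239849684 370763052 1) ndN0q0 ndN2q2b pcN1 Cut.none Ext.none)

def k0_mm_012_b : ∃ t, chk3 f_mm_012_b t 1 1 1 = true :=
  ⟨(l 5), by decide +kernel⟩

theorem c_mm_012_b : CertN 0 536870912 1239849684 370763052 134217728 67108864 3 false false false .pnp 0 1 2
    ndN0q0 ndN2q2b pcN1 Cut.none Ext.none :=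
  certN0 (fam := false) (s1 := false) (s2 := false) (a := 0) (b := 1) (c := 2) (cn := .pnp) (n1 := ndN0q0) (n2 := ndN2q2b) (pc := pcN1) (cut := Cut.none) (xt := Ext.none) (P1 := 0) (W1 := 536870912) (P2 := 1239849684) (W2 := 370763052) (P3 := 134217728) (W3 := 67108864) (N0 := 3)
    rfl k0_mm_012_b

noncomputable def f_mm_022_a : ℕ → ℕ → ℕ → ℕ → Bool := onCell 0 536870912 0 536870912 134217728 67108864
    (rowN 3 0 false false false .pp 0 2 2 (qsf 0 536870912 0 536870912 2) ndN0q0 ndN2q2a pcN2 Cut.none Ext.none)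

def k0_mm_022_a : ∃ t, chk3 f_mm_022_a t 1 1 1 = true :=
  ⟨(l 5), by decide +kernel⟩

theorem c_mm_022_a : CertN 0 536870912 0 536870912 134217728 67108864 3 false false false .pp 0 2 2
    ndN0q0 ndN2q2a pcN2 Cut.none Ext.none :=
  certN0 (fam := false) (s1 := false) (s2 := false) (a := 0) (b := 2) (c := 2) (cn := .pp) (n1 := ndN0q0) (n2 := ndN2q2a) (pc := pcN2) (cut := Cut.none) (xt := Ext.none) (P1 := 0) (W1 := 536870912) (P2 := 0) (W2 := 536870912) (P3 := 134217728) (W3 := 67108864) (N0 := 3)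
    rfl k0_mm_022_a

noncomputable def f_mm_022_b : ℕ → ℕ → ℕ → ℕ → Bool := onCell 0 536870912 1239849684 370763052 134217728 67108864
    (rowN 3 0 false false false .pp 0 2 2 (qsf 0 536870912 1239849684 370763052 2) ndN0q0 ndN2q2b pcN2 Cut.none Ext.none)

def k0_mm_022_b : ∃ t, chk3 f_mm_022_b t 1 1 1 = true :=
  ⟨(l 5), by decide +kernel⟩

theorem c_mm_022_b : CertN 0 536870912 1239849684 370763052 134217728 67108864 3 false false false .pp 0 2 2
    ndN0q0 ndN2q2b pcN2 Cut.none Ext.none :=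
  certN0 (fam := false) (s1 := false) (s2 := false) (a := 0) (b := 2) (c := 2) (cn := .pp) (n1 := ndN0q0) (n2 := ndN2q2b) (pc := pcN2) (cut := Cut.none) (xt := Ext.none) (P1 := 0) (W1 := 536870912) (P2 := 1239849684) (W2 := 370763052) (P3 := 134217728) (W3 := 67108864) (N0 := 3)
    rfl k0_mm_022_b

noncomputable def f_mm_023 : ℕ → ℕ → ℕ → ℕ → Bool := onCell 0 536870912 1610612736 536870912 134217728 67108864
    (rowN 3 0 false false false .up 0 2 3 (qsf 0 536870912 1610612736 536870912 2) ndN0q0 ndN2q3 pcN2 Cut.none Ext.none)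

def k0_mm_023 : ∃ t, chk3 f_mm_023 t 1 1 1 = true :=
  ⟨(l 5), by decide +kernel⟩

theorem c_mm_023 : CertN 0 536870912 1610612736 536870912 134217728 67108864 3 false false false .up 0 2 3
    ndN0q0 ndN2q3 pcN2 Cut.none Ext.none :=
  certN0 (fam := false) (s1 := false) (s2 := false) (a := 0) (b := 2) (c := 3) (cn := .up) (n1 := ndN0q0) (n2 := ndN2q3) (pc := pcN2) (cut := Cut.none) (xt := Ext.none) (P1 := 0) (W1 := 536870912) (P2 := 1610612736) (W2 := 536870912) (P3 := 134217728) (W3 := 67108864) (N0 := 3)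
    rfl k0_mm_023

noncomputable def f_mm_033 : ℕ → ℕ → ℕ → ℕ → Bool := onCell 0 536870912 1610612736 536870912 134217728 67108864
    (rowN 3 0 false false false .pnn 0 3 3 (qsf 0 536870912 1610612736 536870912 3) ndN0q0 ndN2q3 pcN3 Cut.none Ext.none)

def k0_mm_033 : ∃ t, chk3 f_mm_033 t 1 1 1 = true :=
  ⟨(l 5), by decide +kernel⟩

theorem c_mm_033 : CertN 0 536870912 1610612736 536870912 134217728 67108864 3 false false false .pnn 0 3 3
    ndN0q0 ndN2q3 pcN3 Cut.none Ext.none :=
  certN0 (fam := false) (s1 := false) (s2 := false) (a := 0) (b := 3) (c := 3) (cn := .pnn) (n1 := ndN0q0) (n2 := ndN2q3) (pc := pcN3) (cut := Cut.none) (xt := Ext.none) (P1 := 0) (W1 := 536870912) (P2 := 1610612736) (W2 := 536870912) (P3 := 134217728) (W3 := 67108864) (N0 := 3)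
    rfl k0_mm_033

noncomputable def f_mm_101 : ℕ → ℕ → ℕ → ℕ → Bool := onCell 0 536870912 536870912 536870912 134217728 67108864
    (rowN 3 2 false false false .npn 1 0 1 (qsf 536870912 536870912 536870912 536870912 0) ndN0q1 ndN2q1 pcN0 Cut.none Ext.none)

def k0_mm_101 : ∃ t, chk3 f_mm_101 t 1 1 1 = true :=
  ⟨(a (l 3) (l 3)), by decide +kernel⟩

theorem c_mm_101 : CertN 536870912 536870912 536870912 536870912 134217728 67108864 3 false false false .npn 1 0 1
    ndN0q1 ndN2q1 pcN0 Cut.none Ext.none :=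
  certN2 (fam := false) (s1 := false) (s2 := false) (a := 1) (b := 0) (c := 1) (cn := .npn) (n1 := ndN0q1) (n2 := ndN2q1) (pc := pcN0) (cut := Cut.none) (xt := Ext.none) (P1 := 536870912) (W1 := 536870912) (P2 := 536870912) (W2 := 536870912) (P3 := 134217728) (W3 := 67108864) (N0 := 3)
    rfl (fun _ => rfl) k0_mm_101

noncomputable def f_mm_102_a : ℕ → ℕ → ℕ → ℕ → Bool := onCell 536870912 536870912 0 536870912 134217728 67108864
    (rowN 3 0 false false false .npp 1 0 2 (qsf 536870912 536870912 0 536870912 0) ndN0q1 ndN2q2a pcN0 Cut.none Ext.none)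

def k0_mm_102_a : ∃ t, chk3 f_mm_102_a t 1 1 1 = true :=
  ⟨(l 3), by decide +kernel⟩

theorem c_mm_102_a : CertN 536870912 536870912 0 536870912 134217728 67108864 3 false false false .npp 1 0 2
    ndN0q1 ndN2q2a pcN0 Cut.none Ext.none :=
  certN0 (fam := false) (s1 := false) (s2 := false) (a := 1) (b := 0) (c := 2) (cn := .npp) (n1 := ndN0q1) (n2 := ndN2q2a) (pc := pcN0) (cut := Cut.none) (xt := Ext.none) (P1 := 536870912) (W1 := 536870912) (P2 := 0) (W2 := 536870912) (P3 := 134217728) (W3 := 67108864) (N0 := 3)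
    rfl k0_mm_102_a

noncomputable def f_mm_102_b : ℕ → ℕ → ℕ → ℕ → Bool := onCell 536870912 536870912 1239849684 370763052 134217728 67108864
    (rowN 3 0 false false false .npp 1 0 2 (qsf 536870912 536870912 1239849684 370763052 0) ndN0q1 ndN2q2b pcN0 Cut.none Ext.none)

def k0_mm_102_b : ∃ t, chk3 f_mm_102_b t 1 1 1 = true :=
  ⟨(l 5), by decide +kernel⟩

theorem c_mm_102_b : CertN 536870912 536870912 1239849684 370763052 134217728 67108864 3 false false false .npp 1 0 2
    ndN0q1 ndN2q2b pcN0 Cut.none Ext.none :=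
  certN0 (fam := false) (s1 := false) (s2 := false) (a := 1) (b := 0) (c := 2) (cn := .npp) (n1 := ndN0q1) (n2 := ndN2q2b) (pc := pcN0) (cut := Cut.none) (xt := Ext.none) (P1 := 536870912) (W1 := 536870912) (P2 := 1239849684) (W2 := 370763052) (P3 := 134217728) (W3 := 67108864) (N0 := 3)
    rfl k0_mm_102_b

noncomputable def f_mm_112_a : ℕ → ℕ → ℕ → ℕ → Bool := onCell 536870912 536870912 0 536870912 134217728 67108864
    (rowN 3 0 false false false .dn 1 1 2 (qsf 536870912 536870912 0 536870912 1) ndN0q1 ndN2q2a pcN1 Cut.none Ext.none)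

def k0_mm_112_a : ∃ t, chk3 f_mm_112_a t 1 1 1 = true :=
  ⟨(l 3), by decide +kernel⟩

theorem c_mm_112_a : CertN 536870912 536870912 0 536870912 134217728 67108864 3 false false false .dn 1 1 2
    ndN0q1 ndN2q2a pcN1 Cut.none Ext.none :=
  certN0 (fam := false) (s1 := false) (s2 := false) (a := 1) (b := 1) (c := 2) (cn := .dn) (n1 := ndN0q1) (n2 := ndN2q2a) (pc := pcN1) (cut := Cut.none) (xt := Ext.none) (P1 := 536870912) (W1 := 536870912) (P2 := 0) (W2 := 536870912) (P3 := 134217728) (W3 := 67108864) (N0 := 3)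
    rfl k0_mm_112_a

noncomputable def f_mm_112_b : ℕ → ℕ → ℕ → ℕ → Bool := onCell 536870912 536870912 1239849684 370763052 134217728 67108864
    (rowN 3 0 false false false .dn 1 1 2 (qsf 536870912 536870912 1239849684 370763052 1) ndN0q1 ndN2q2b pcN1 Cut.none Ext.none)

def k0_mm_112_b : ∃ t, chk3 f_mm_112_b t 1 1 1 = true :=
  ⟨(l 5), by decide +kernel⟩

theorem c_mm_112_b : CertN 536870912 536870912 1239849684 370763052 134217728 67108864 3 false false false .dn 1 1 2
    ndN0q1 ndN2q2b pcN1 Cut.none Ext.none :=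
  certN0 (fam := false) (s1 := false) (s2 := false) (a := 1) (b := 1) (c := 2) (cn := .dn) (n1 := ndN0q1) (n2 := ndN2q2b) (pc := pcN1) (cut := Cut.none) (xt := Ext.none) (P1 := 536870912) (W1 := 536870912) (P2 := 1239849684) (W2 := 370763052) (P3 := 134217728) (W3 := 67108864) (N0 := 3)
    rfl k0_mm_112_b

noncomputable def f_mm_113 : ℕ → ℕ → ℕ → ℕ → Bool := onCell 536870912 536870912 1610612736 536870912 134217728 67108864
    (rowN 3 0 false false false .nn 1 1 3 (qsf 536870912 536870912 1610612736 536870912 1) ndN0q1 ndN2q3 pcN1 Cut.none Ext.none)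

def k0_mm_113 : ∃ t, chk3 f_mm_113 t 1 1 1 = true :=
  ⟨(l 5), by decide +kernel⟩

theorem c_mm_113 : CertN 536870912 536870912 1610612736 536870912 134217728 67108864 3 false false false .nn 1 1 3
    ndN0q1 ndN2q3 pcN1 Cut.none Ext.none :=
  certN0 (fam := false) (s1 := false) (s2 := false) (a := 1) (b := 1) (c := 3) (cn := .nn) (n1 := ndN0q1) (n2 := ndN2q3) (pc := pcN1) (cut := Cut.none) (xt := Ext.none) (P1 := 536870912) (W1 := 536870912) (P2 := 1610612736) (W2 := 536870912) (P3 := 134217728) (W3 := 67108864) (N0 := 3)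
    rfl k0_mm_113

noncomputable def f_mm_123 : ℕ → ℕ → ℕ → ℕ → Bool := onCell 536870912 536870912 1610612736 536870912 134217728 67108864
    (rowN 3 0 false false false .npn 1 2 3 (qsf 536870912 536870912 1610612736 536870912 2) ndN0q1 ndN2q3 pcN2 Cut.none Ext.none)

def k0_mm_123 : ∃ t, chk3 f_mm_123 t 1 1 1 = true :=
  ⟨(l 5), by decide +kernel⟩

theorem c_mm_123 : CertN 536870912 536870912 1610612736 536870912 134217728 67108864 3 false false false .npn 1 2 3
    ndN0q1 ndN2q3 pcN2 Cut.none Ext.none :=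
  certN0 (fam := false) (s1 := false) (s2 := false) (a := 1) (b := 2) (c := 3) (cn := .npn) (n1 := ndN0q1) (n2 := ndN2q3) (pc := pcN2) (cut := Cut.none) (xt := Ext.none) (P1 := 536870912) (W1 := 536870912) (P2 := 1610612736) (W2 := 536870912) (P3 := 134217728) (W3 := 67108864) (N0 := 3)
    rfl k0_mm_123

noncomputable def f_mm_133 : ℕ → ℕ → ℕ → ℕ → Bool := onCell 536870912 536870912 1610612736 536870912 134217728 67108864
    (rowN 3 0 false false false .dn 1 3 3 (qsf 536870912 536870912 1610612736 536870912 3) ndN0q1 ndN2q3 pcN3 Cut.none Ext.none)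

def k0_mm_133 : ∃ t, chk3 f_mm_133 t 1 1 1 = true :=
  ⟨(l 5), by decide +kernel⟩

theorem c_mm_133 : CertN 536870912 536870912 1610612736 536870912 134217728 67108864 3 false false false .dn 1 3 3
    ndN0q1 ndN2q3 pcN3 Cut.none Ext.none :=
  certN0 (fam := false) (s1 := false) (s2 := false) (a := 1) (b := 3) (c := 3) (cn := .dn) (n1 := ndN0q1) (n2 := ndN2q3) (pc := pcN3) (cut := Cut.none) (xt := Ext.none) (P1 := 536870912) (W1 := 536870912) (P2 := 1610612736) (W2 := 536870912) (P3 := 134217728) (W3 := 67108864) (N0 := 3)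
    rfl k0_mm_133

noncomputable def f_mm_202_a : ℕ → ℕ → ℕ → ℕ → Bool := onCell 0 536870912 0 536870912 134217728 67108864
    (rowN 3 0 false false false .pp 2 0 2 (qsf 0 536870912 0 536870912 0) ndN0q2 ndN2q2a pcN0 Cut.none Ext.none)

def k0_mm_202_a : ∃ t, chk3 f_mm_202_a t 1 1 1 = true :=
  ⟨(l 3), by decide +kernel⟩

theorem c_mm_202_a : CertN 0 536870912 0 536870912 134217728 67108864 3 false false false .pp 2 0 2
    ndN0q2 ndN2q2a pcN0 Cut.none Ext.none :=
  certN0 (fam := false) (s1 := false) (s2 := false) (a := 2) (b := 0) (c := 2) (cn := .pp) (n1 := ndN0q2) (n2 := ndN2q2a) (pc := pcN0) (cut := Cut.none) (xt := Ext.none) (P1 := 0) (W1 := 536870912) (P2 := 0) (W2 := 536870912) (P3 := 134217728) (W3 := 67108864) (N0 := 3)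
    rfl k0_mm_202_a

noncomputable def f_mm_202_b : ℕ → ℕ → ℕ → ℕ → Bool := onCell 0 536870912 1239849684 370763052 134217728 67108864
    (rowN 3 0 false false false .pp 2 0 2 (qsf 0 536870912 1239849684 370763052 0) ndN0q2 ndN2q2b pcN0 Cut.none Ext.none)

def k0_mm_202_b : ∃ t, chk3 f_mm_202_b t 1 1 1 = true :=
  ⟨(l 3), by decide +kernel⟩

theorem c_mm_202_b : CertN 0 536870912 1239849684 370763052 134217728 67108864 3 false false false .pp 2 0 2
    ndN0q2 ndN2q2b pcN0 Cut.none Ext.none :=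
  certN0 (fam := false) (s1 := false) (s2 := false) (a := 2) (b := 0) (c := 2) (cn := .pp) (n1 := ndN0q2) (n2 := ndN2q2b) (pc := pcN0) (cut := Cut.none) (xt := Ext.none) (P1 := 0) (W1 := 536870912) (P2 := 1239849684) (W2 := 370763052) (P3 := 134217728) (W3 := 67108864) (N0 := 3)
    rfl k0_mm_202_b

noncomputable def f_mm_203 : ℕ → ℕ → ℕ → ℕ → Bool := onCell 0 536870912 0 536870912 134217728 67108864
    (rowN 3 1 false false false .up 2 0 3 (qsf 0 536870912 1610612736 536870912 0) ndN0q2 ndN2q3 pcN0 Cut.none Ext.none)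

def k0_mm_203 : ∃ t, chk3 f_mm_203 t 1 1 1 = true :=
  ⟨(l 3), by decide +kernel⟩

theorem c_mm_203 : CertN 0 536870912 1610612736 536870912 134217728 67108864 3 false false false .up 2 0 3
    ndN0q2 ndN2q3 pcN0 Cut.none Ext.none :=
  certN1 (fam := false) (s1 := false) (s2 := false) (a := 2) (b := 0) (c := 3) (cn := .up) (n1 := ndN0q2) (n2 := ndN2q3) (pc := pcN0) (cut := Cut.none) (xt := Ext.none) (P1 := 0) (W1 := 536870912) (P2 := 1610612736) (W2 := 536870912) (P3 := 134217728) (W3 := 67108864) (N0 := 3)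
    rfl (fun _ => rfl) k0_mm_203

noncomputable def f_mm_213 : ℕ → ℕ → ℕ → ℕ → Bool := onCell 0 536870912 1610612736 536870912 134217728 67108864
    (rowN 3 0 false false false .pnn 2 1 3 (qsf 0 536870912 1610612736 536870912 1) ndN0q2 ndN2q3 pcN1 Cut.none Ext.none)

def k0_mm_213 : ∃ t, chk3 f_mm_213 t 1 1 1 = true :=
  ⟨(b (l 3) (a (l 3) (l 5))), by decide +kernel⟩

theorem c_mm_213 : CertN 0 536870912 1610612736 536870912 134217728 67108864 3 false false false .pnn 2 1 3
    ndN0q2 ndN2q3 pcN1 Cut.none Ext.none :=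
  certN0 (fam := false) (s1 := false) (s2 := false) (a := 2) (b := 1) (c := 3) (cn := .pnn) (n1 := ndN0q2) (n2 := ndN2q3) (pc := pcN1) (cut := Cut.none) (xt := Ext.none) (P1 := 0) (W1 := 536870912) (P2 := 1610612736) (W2 := 536870912) (P3 := 134217728) (W3 := 67108864) (N0 := 3)
    rfl k0_mm_213

end Pool.Agent.Strip051.G.I1_8_3_16.Tab.C.NB02

namespace Pool.Agent.Strip051.G.I1_8_3_16.Tab.C.NB03

open Pool.Agent.Strip051.PB Pool.Agent.Strip051.PB.T
open Pool.Agent.Strip051.G.I1_8_3_16.Tab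

noncomputable def f_pp_001 : ℕ → ℕ → ℕ → ℕ → Bool := onCell 0 536870912 0 536870912 134217728 67108864
    (rowN 3 1 false true true .up 0 0 1 (qsf 0 536870912 536870912 536870912 0) ndN0q0 ndN3q1 pcN0 Cut.none Ext.none)

def k0_pp_001 : ∃ t, chk3 f_pp_001 t 1 1 1 = true :=
  ⟨(l 3), by decide +kernel⟩

theorem c_pp_001 : CertN 0 536870912 536870912 536870912 134217728 67108864 3 false true true .up 0 0 1
    ndN0q0 ndN3q1 pcN0 Cut.none Ext.none :=
  certN1 (fam := false) (s1 := true) (s2 := true) (a := 0) (b := 0) (c := 1) (cn := .up) (n1 := ndN0q0) (n2 := ndN3q1) (pc := pcN0) (cut := Cut.none) (xt := Ext.none) (P1 := 0) (W1 := 536870912) (P2 := 536870912) (W2 := 536870912) (P3 := 134217728) (W3 := 67108864) (N0 := 3)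
    rfl (fun _ => rfl) k0_pp_001

noncomputable def cut_pp_011 : Cut := Cut.of [[⟨0, 0, 0, 67108864⟩, ⟨1, 1, 0, 67108864⟩, ⟨2, 1, 0, 67108864⟩]]

noncomputable def f_pp_011 : ℕ → ℕ → ℕ → ℕ → Bool := onCell 0 536870912 536870912 536870912 134217728 67108864
    (rowN 3 1 false true true .pnn 0 1 1 (qsf 0 536870912 536870912 536870912 1) ndN0q0 ndN3q1 pcN1 cut_pp_011 Ext.none)

def k0_pp_011 : ∃ t, chk3 f_pp_011 t 1 1 1 = true :=
  ⟨(b (l 3) (a (a (b (l 3) (b (l 3) (a (b (l 3) (a (l 6) (l 3))) (l 3)))) (l 3)) (l 3))), by decide +kernel⟩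

theorem c_pp_011 : CertN 0 536870912 536870912 536870912 134217728 67108864 3 false true true .pnn 0 1 1
    ndN0q0 ndN3q1 pcN1 cut_pp_011 Ext.none :=
  certN1 (fam := false) (s1 := true) (s2 := true) (a := 0) (b := 1) (c := 1) (cn := .pnn) (n1 := ndN0q0) (n2 := ndN3q1) (pc := pcN1) (cut := cut_pp_011) (xt := Ext.none) (P1 := 0) (W1 := 536870912) (P2 := 536870912) (W2 := 536870912) (P3 := 134217728) (W3 := 67108864) (N0 := 3)
    rfl (fun _ => rfl) k0_pp_011

noncomputable def f_pp_012 : ℕ → ℕ → ℕ → ℕ → Bool := onCell 0 536870912 536870912 536870912 134217728 67108864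
    (rowN 3 1 false true true .pnp 0 1 2 (qsf 0 536870912 1073741824 536870912 1) ndN0q0 ndN3q2 pcN1 Cut.none Ext.none)

def k0_pp_012 : ∃ t, chk3 f_pp_012 t 1 1 1 = true :=
  ⟨(l 3), by decide +kernel⟩

theorem c_pp_012 : CertN 0 536870912 1073741824 536870912 134217728 67108864 3 false true true .pnp 0 1 2
    ndN0q0 ndN3q2 pcN1 Cut.none Ext.none :=
  certN1 (fam := false) (s1 := true) (s2 := true) (a := 0) (b := 1) (c := 2) (cn := .pnp) (n1 := ndN0q0) (n2 := ndN3q2) (pc := pcN1) (cut := Cut.none) (xt := Ext.none) (P1 := 0) (W1 := 536870912) (P2 := 1073741824) (W2 := 536870912) (P3 := 134217728) (W3 := 67108864) (N0 := 3)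
    rfl (fun _ => rfl) k0_pp_012

noncomputable def f_pp_022 : ℕ → ℕ → ℕ → ℕ → Bool := onCell 1073741824 536870912 1073741824 536870912 134217728 67108864
    (rowN 3 2 false true true .pp 0 2 2 (qsf 0 536870912 1073741824 536870912 2) ndN0q0 ndN3q2 pcN2 Cut.none Ext.none)

def k0_pp_022 : ∃ t, chk3 f_pp_022 t 4 4 1 = true :=
  ⟨(a (l 3) (b (a (l 3) (l 1)) (b (a (l 3) (b (l 1) (b (l 1) (a (b (l 1) (c (l 95730490839) (l 16610168))) (l 1))))) (b (a (l 3) (a (b (c (a (b (l 16614408) (l 16604480)) (b (l 1) (l 16601480))) (a (b (l 16595280) (l 16589776)) (b (l 1) (l 16587008)))) (c (a (b (l 16600104) (l 16595888)) (b (l 16597360) (l 16593408))) (a (b (l 16584648) (l 16582336)) (b (l 16582128) (l 16577440))))) (a (b (l 1) (c (l 16616504) (l 16601080))) (l 1)))) (a (l 3) (a (b (c (a (l 16613112) (l 16605736)) (a (l 16605864) (l 16593784))) (c (a (l 16599256) (l 16592368)) (a (l 16600224) (l 16584424)))) (a (b (c (b (l 16586808) (l 16583208)) (l 16591504)) (c (l 16590088) (l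 16582472))) (b (b (l 1) (c (l 16558792) (l 16542288))) (c (c (l 16581128) (l 16571840)) (l 16569264)))))))))), by decide +kernel⟩

def k1_pp_022 : ∃ t, chk3 f_pp_022 t 4 5 1 = true :=
  ⟨(b (b (a (l 3) (b (a (a (l 3) (a (l 3) (l 3))) (a (c (b (a (l 16596016) (l 16594840)) (a (l 16587320) (l 16586584))) (b (a (l 16599472) (l 16577528)) (l 16603096))) (c (b (b (l 16571424) (l 16567912)) (b (l 16564312) (l 16560568))) (b (l 16572872) (l 16564376))))) (a (a (l 3) (a (l 3) (b (c (l 16631872) (l 16596464)) (b (c (l 16743120) (l 16596912)) (c (b (l 16793560) (l 16825528)) (b (l 16597648) (l 16618912))))))) (b (a (c (a (l 16626480) (l 16624008)) (l 16607816)) (c (b (l 16577400) (l 16667896)) (l 16555432))) (c (a (b (l 16743208) (b (l 16796544) (a (l 16828144) (l 16832888)))) (b (l 16750264) (b (l 16807120) (a (l 16839296) (l 16847096))))) (a (b (l 16586824) (b (l 16587320) (l 16608432))) (b (l 16548336) (b (l 16544256) (a (l 16554048) (l 16540704)))))))))) (a (l 3) (a (a (l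 3) (a (l 3) (b (c (l 16745488) (l 16612816)) (c (l 17134920) (l 16646880))))) (a (b (c (b (a (l 16906320) (l 16914064)) (l 16979416)) (b (l 16584808) (l 16580848))) (c (a (l 17150088) (l 17166496)) (b (l 16574016) (l 16692168)))) (b (c (b (l 16886704) (l 17047840)) (b (l 16540000) (l 16535728))) (c (b (l 17148768) (l 17234640)) (l 16668400))))))) (a (l 3) (b (a (a (l 3) (b (c (l 17257496) (l 16777488)) (c (l 17355472) (l 16985072)))) (a (c (b (l 17297312) (l 17401024)) (b (l 16840832) (l 16997264))) (b (c (l 17340760) (l 16846632)) (c (l 17449384) (l 17013624))))) (a (a (l 3) (a (l 3) (b (c (l 17443312) (l 17103376)) (l 17223840)))) (a (c (l 17511416) (b (l 17118208) (l 17214368))) (c (l 17563128) (b (l 17141872) (l 17241864)))))))), by decide +kernel⟩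

def k2_pp_022 : ∃ t, chk3 f_pp_022 t 5 4 1 = true :=
  ⟨(a (b (l 1) (b (l 1) (a (a (b (l 1) (b (l 1) (c (l 16600992) (l 16573648)))) (l 1)) (l 1)))) (l 1)), by decide +kernel⟩

def k3_pp_022 : ∃ t, chk3 f_pp_022 t 5 10 1 = true :=
  ⟨(b (a (a (a (b (b (c (a (l 16575584) (l 16559552)) (a (l 16546792) (l 16541688))) (c (a (l 16557896) (l 16563136)) (a (l 16538712) (l 16533848)))) (b (c (a (l 16625976) (l 16628120)) (l 16559688)) (b (c (l 16657208) (l 16542504)) (b (c (l 16738560) (l 16538696)) (c (a (l 16855888) (l 16844240)) (a (l 16538056) (l 16533776))))))) (a (b (b (l 1) (c (l 16549152) (l 16530224))) (b (c (b (l 16581328) (l 16682848)) (l 16543680)) (b (c (l 16775056) (l 16516760)) (b (c (l 16838056) (l 16513280)) (c (c (l 17080864) (l 16673792)) (l 16532136)))))) (b (l 1) (b (b (l 1) (c (l 16697184) (l 16505200))) (b (c (a (l 16786728) (l 16794960)) (l 16522320)) (b (c (a (l 16851520) (l 16861392)) (l 16518992)) (c (a (l 16891856) (c (l 17112944) (l 16692024)))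 (l 16537936)))))))) (b (l 1) (b (l 1) (b (l 1) (b (l 1) (c (a (l 16721688) (l 1)) (l 16526384))))))) (l 1)) (a (a (a (b (c (b (a (l 16945752) (l 16958064)) (l 17016040)) (a (l 16534544) (l 16530824))) (c (b (l 17186056) (l 17276840)) (a (l 16623400) (l 16622672)))) (b (c (a (b (l 16973448) (l 17106048)) (b (l 16869840) (l 17130216))) (a (l 16529912) (l 16546696))) (c (a (l 17267072) (l 17104760)) (b (l 16535704) (l 16678184))))) (b (c (a (b (a (l 17012080) (l 17018032)) (a (l 17152952) (l 17168472))) (l 17104408)) (a (b (l 16489968) (l 16486944)) (l 16476408))) (c (a (l 17247624) (b (l 17312928) (l 17425304))) (a (l 16642696) (b (l 16566168) (l 16724688)))))) (b (l 1) (a (c (l 17395376) (l 16655936)) (l 1))))), by decide +kernel⟩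

def k4_pp_022 : ∃ t, chk3 f_pp_022 t 5 11 1 = true :=
  ⟨(a (a (a (b (b (c (l 17388528) (l 16815704)) (c (l 17501608) (l 17034616))) (c (l 17617952) (b (l 17169608) (l 17273072)))) (b (b (c (a (l 17426936) (l 17454984)) (a (l 16870008) (l 16882936))) (c (l 17556872) (a (l 17053752) (l 17069584)))) (c (l 17671968) (b (l 17201680) (l 17306640))))) (b (b (c (l 17525552) (b (l 16851568) (l 16965584))) (c (l 17646528) (l 17108888))) (b (c (l 17732464) (l 17256776)) (l 17474856)))) (b (c (a (b (a (l 17599576) (l 17623776)) (l 17761768)) (l 17740304)) (a (b (a (b (l 16876704) (l 17003280)) (l 16953048)) (a (l 17158624) (l 17186784))) (b (l 1) (l 17207808)))) (c (b (a (l 17860176) (l 17956808)) (l 17979944)) (b (a (l 17336112) (l 17399072)) (a (l 17450248) (l 17534592)))))), by decide +kernel⟩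

def k5_pp_022 : ∃ t, chk3 f_pp_022 t 2 3 1 = true :=
  ⟨(a (a (l 3) (b (b (a (a (l 3) (b (c (l 17554664) (l 17295232)) (l 17500168))) (a (c (l 17635648) (b (l 17323800) (l 17423024))) (c (l 17687568) (l 17411720)))) (a (c (l 17607120) (a (l 17425112) (l 17471896))) (a (l 17598024) (l 17641112)))) (a (b (l 95732507287) (l 17497352)) (b (a (l 17605144) (l 17647984)) (l 17582152))))) (b (a (a (a (b (b (l 17403872) (l 17628008)) (l 17684872)) (b (c (l 17790048) (l 17480648)) (l 17723680))) (b (b (l 17585176) (l 17742944)) (l 17793752))) (b (b (c (l 18041600) (l 17620280)) (l 17903400)) (c (l 18083968) (l 17807376)))) (a (b (a (l 17704968) (l 17794808)) (l 17709056)) (b (l 17938016) (l 17884000))))), by decide +kernel⟩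

def k6_pp_022 : ∃ t, chk3 f_pp_022 t 3 1 1 = true :=
  ⟨(b (a (b (l 1) (b (l 1) (b (l 1) (a (b (l 1) (l 17840648)) (l 1))))) (l 1)) (a (b (a (b (c (l 18267336) (b (l 17763816) (l 17910208))) (l 18157336)) (b (l 103115290311) (l 18331672))) (a (b (l 18129176) (l 18064736)) (b (l 18324504) (l 18241360)))) (b (b (l 1) (l 142845077447)) (b (l 18529224) (l 18491608))))), by decide +kernel⟩

theorem s7_pp_022 : ∃ t, chk3 f_pp_022 t 5 5 1 = true := ex3_b k3_pp_022 k4_pp_022

theorem s8_pp_022 : ∃ t, chk3 f_pp_022 t 5 2 1 = true := ex3_b k2_pp_022 s7_pp_022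

theorem s9_pp_022 : ∃ t, chk3 f_pp_022 t 4 2 1 = true := ex3_b k0_pp_022 k1_pp_022

theorem s10_pp_022 : ∃ t, chk3 f_pp_022 t 2 2 1 = true := ex3_a s9_pp_022 s8_pp_022

theorem s11_pp_022 : ∃ t, chk3 f_pp_022 t 2 1 1 = true := ex3_b s10_pp_022 k5_pp_022

theorem s12_pp_022 : ∃ t, chk3 f_pp_022 t 1 1 1 = true := ex3_a s11_pp_022 k6_pp_022

theorem c_pp_022 : CertN 0 536870912 1073741824 536870912 134217728 67108864 3 false true true .pp 0 2 2
    ndN0q0 ndN3q2 pcN2 Cut.none Ext.none :=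
  certN2 (fam := false) (s1 := true) (s2 := true) (a := 0) (b := 2) (c := 2) (cn := .pp) (n1 := ndN0q0) (n2 := ndN3q2) (pc := pcN2) (cut := Cut.none) (xt := Ext.none) (P1 := 0) (W1 := 536870912) (P2 := 1073741824) (W2 := 536870912) (P3 := 134217728) (W3 := 67108864) (N0 := 3)
    rfl (fun _ => rfl) s12_pp_022

noncomputable def f_pp_023 : ℕ → ℕ → ℕ → ℕ → Bool := onCell 1073741824 536870912 0 1230186008 134217728 67108864
    (rowN 3 2 false true true .up 0 2 3 (qsf 0 536870912 0 1230186008 2) ndN0q0 ndN3q3 pcN2 Cut.none Ext.none)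

def k0_pp_023 : ∃ t, chk3 f_pp_023 t 1 1 1 = true :=
  ⟨(b (a (l 2) (a (l 2) (b (l 17528104) (l 17642744)))) (b (a (b (l 2) (a (l 2) (a (l 2) (l 17660712)))) (a (b (l 17705848) (a (l 17558592) (l 17672472))) (b (l 17725504) (l 17860392)))) (a (b (a (l 2) (a (a (a (l 17497720) (l 17526176)) (l 17556360)) (a (l 17606560) (l 17656576)))) (a (a (b (l 2) (l 3)) (a (b (l 17548400) (l 127945089767)) (b (l 17606704) (a (l 17674440) (l 17700544))))) (a (a (b (l 17650104) (l 17741264)) (l 17936392)) (b (l 17782616) (l 17888576))))) (b (a (a (l 17741720) (l 17860504)) (l 18020216)) (a (a (l 18015976) (l 18053928)) (l 18184400)))))), by decide +kernel⟩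

theorem c_pp_023 : CertN 0 536870912 0 1230186008 134217728 67108864 3 false true true .up 0 2 3
    ndN0q0 ndN3q3 pcN2 Cut.none Ext.none :=
  certN2 (fam := false) (s1 := true) (s2 := true) (a := 0) (b := 2) (c := 3) (cn := .up) (n1 := ndN0q0) (n2 := ndN3q3) (pc := pcN2) (cut := Cut.none) (xt := Ext.none) (P1 := 0) (W1 := 536870912) (P2 := 0) (W2 := 1230186008) (P3 := 134217728) (W3 := 67108864) (N0 := 3)
    rfl (fun _ => rfl) k0_pp_023

noncomputable def f_pp_033 : ℕ → ℕ → ℕ → ℕ → Bool := onCell 1610612736 536870912 0 1230186008 134217728 67108864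
    (rowN 3 2 false true true .pnn 0 3 3 (qsf 0 536870912 0 1230186008 3) ndN0q0 ndN3q3 pcN3 Cut.none Ext.none)

def k0_pp_033 : ∃ t, chk3 f_pp_033 t 1 1 1 = true :=
  ⟨(a (b (a (b (l 17327176) (a (l 17102632) (l 17287208))) (b (l 17473728) (a (l 17509296) (l 17627160)))) (b (a (b (l 17364000) (l 17548552)) (a (l 17643280) (l 17769144))) (a (b (l 17754864) (l 18194776)) (b (b (l 17870400) (l 17970136)) (l 18110112))))) (a (b (a (l 17666320) (l 4)) (b (a (l 18033064) (l 17958688)) (l 1))) (b (l 4) (a (b (l 18033400) (l 1)) (l 1))))), by decide +kernel⟩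

theorem c_pp_033 : CertN 0 536870912 0 1230186008 134217728 67108864 3 false true true .pnn 0 3 3
    ndN0q0 ndN3q3 pcN3 Cut.none Ext.none :=
  certN2 (fam := false) (s1 := true) (s2 := true) (a := 0) (b := 3) (c := 3) (cn := .pnn) (n1 := ndN0q0) (n2 := ndN3q3) (pc := pcN3) (cut := Cut.none) (xt := Ext.none) (P1 := 0) (W1 := 536870912) (P2 := 0) (W2 := 1230186008) (P3 := 134217728) (W3 := 67108864) (N0 := 3)
    rfl (fun _ => rfl) k0_pp_033

noncomputable def f_pp_101 : ℕ → ℕ → ℕ → ℕ → Bool := onCell 536870912 536870912 536870912 536870912 134217728 67108864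
    (rowN 3 0 false true true .npn 1 0 1 (qsf 536870912 536870912 536870912 536870912 0) ndN0q1 ndN3q1 pcN0 Cut.none Ext.none)

def k0_pp_101 : ∃ t, chk3 f_pp_101 t 1 1 1 = true :=
  ⟨(a (l 3) (l 5)), by decide +kernel⟩

theorem c_pp_101 : CertN 536870912 536870912 536870912 536870912 134217728 67108864 3 false true true .npn 1 0 1
    ndN0q1 ndN3q1 pcN0 Cut.none Ext.none :=
  certN0 (fam := false) (s1 := true) (s2 := true) (a := 1) (b := 0) (c := 1) (cn := .npn) (n1 := ndN0q1) (n2 := ndN3q1) (pc := pcN0) (cut := Cut.none) (xt := Ext.none) (P1 := 536870912) (W1 := 536870912) (P2 := 536870912) (W2 := 536870912) (P3 := 134217728) (W3 := 67108864) (N0 := 3)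
    rfl k0_pp_101

noncomputable def f_pp_102 : ℕ → ℕ → ℕ → ℕ → Bool := onCell 536870912 536870912 0 536870912 134217728 67108864
    (rowN 3 1 false true true .npp 1 0 2 (qsf 536870912 536870912 1073741824 536870912 0) ndN0q1 ndN3q2 pcN0 Cut.none Ext.none)

def k0_pp_102 : ∃ t, chk3 f_pp_102 t 1 1 1 = true :=
  ⟨(l 3), by decide +kernel⟩

theorem c_pp_102 : CertN 536870912 536870912 1073741824 536870912 134217728 67108864 3 false true true .npp 1 0 2
    ndN0q1 ndN3q2 pcN0 Cut.none Ext.none :=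
  certN1 (fam := false) (s1 := true) (s2 := true) (a := 1) (b := 0) (c := 2) (cn := .npp) (n1 := ndN0q1) (n2 := ndN3q2) (pc := pcN0) (cut := Cut.none) (xt := Ext.none) (P1 := 536870912) (W1 := 536870912) (P2 := 1073741824) (W2 := 536870912) (P3 := 134217728) (W3 := 67108864) (N0 := 3)
    rfl (fun _ => rfl) k0_pp_102

noncomputable def f_pp_112 : ℕ → ℕ → ℕ → ℕ → Bool := onCell 536870912 536870912 1073741824 536870912 134217728 67108864
    (rowN 3 0 false true true .dn 1 1 2 (qsf 536870912 536870912 1073741824 536870912 1) ndN0q1 ndN3q2 pcN1 Cut.none Ext.none)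

def k0_pp_112 : ∃ t, chk3 f_pp_112 t 1 1 1 = true :=
  ⟨(a (l 3) (l 3)), by decide +kernel⟩

theorem c_pp_112 : CertN 536870912 536870912 1073741824 536870912 134217728 67108864 3 false true true .dn 1 1 2
    ndN0q1 ndN3q2 pcN1 Cut.none Ext.none :=
  certN0 (fam := false) (s1 := true) (s2 := true) (a := 1) (b := 1) (c := 2) (cn := .dn) (n1 := ndN0q1) (n2 := ndN3q2) (pc := pcN1) (cut := Cut.none) (xt := Ext.none) (P1 := 536870912) (W1 := 536870912) (P2 := 1073741824) (W2 := 536870912) (P3 := 134217728) (W3 := 67108864) (N0 := 3)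
    rfl k0_pp_112

noncomputable def cut_pp_113 : Cut := Cut.of [[⟨0, 1, 0, 39843005⟩, ⟨1, 1, 0, 39843005⟩, ⟨2, 2, 0, 5814905⟩]]

noncomputable def f_pp_113 : ℕ → ℕ → ℕ → ℕ → Bool := onCell 536870912 536870912 0 1230186008 134217728 67108864
    (rowN 3 2 false true true .nn 1 1 3 (qsf 536870912 536870912 0 1230186008 1) ndN0q1 ndN3q3 pcN1 cut_pp_113 Ext.none)

def k0_pp_113 : ∃ t, chk3 f_pp_113 t 1 1 1 = true :=
  ⟨(b (a (l 2) (a (l 2) (b (a (l 2) (a (l 2) (b (b (l 6) (l 3)) (l 3)))) (l 3)))) (a (b (l 3) (a (l 3) (l 3))) (b (a (l 3) (l 3)) (l 3)))), by decide +kernel⟩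

theorem c_pp_113 : CertN 536870912 536870912 0 1230186008 134217728 67108864 3 false true true .nn 1 1 3
    ndN0q1 ndN3q3 pcN1 cut_pp_113 Ext.none :=
  certN2 (fam := false) (s1 := true) (s2 := true) (a := 1) (b := 1) (c := 3) (cn := .nn) (n1 := ndN0q1) (n2 := ndN3q3) (pc := pcN1) (cut := cut_pp_113) (xt := Ext.none) (P1 := 536870912) (W1 := 536870912) (P2 := 0) (W2 := 1230186008) (P3 := 134217728) (W3 := 67108864) (N0 := 3)
    rfl (fun _ => rfl) k0_pp_113

noncomputable def cut_pp_123 : Cut := Cut.of [[⟨0, 1, 0, 39843005⟩, ⟨1, 1, 0, 39843005⟩, ⟨2, 2, 0, 5814905⟩]]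

noncomputable def f_pp_123 : ℕ → ℕ → ℕ → ℕ → Bool := onCell 1073741824 536870912 0 1230186008 134217728 67108864
    (rowN 3 2 false true true .npn 1 2 3 (qsf 536870912 536870912 0 1230186008 2) ndN0q1 ndN3q3 pcN2 cut_pp_123 Ext.none)

def k0_pp_123 : ∃ t, chk3 f_pp_123 t 1 2 1 = true :=
  ⟨(b (a (b (a (a (a (b (l 6) (b (l 6) (a (b (l 6) (a (l 3) (l 270750784791))) (l 16798872)))) (l 16817432)) (a (a (l 16853800) (l 16873856)) (a (l 16896560) (l 16922584)))) (a (a (a (l 16947288) (l 16976432)) (l 16999880)) (l 17067288))) (a (a (a (a (a (l 3) (b (a (l 262160845879) (l 16817432)) (l 254644677863))) (a (l 16872616) (l 16820744))) (l 16900640)) (a (a (l 16865200) (l 16884640)) (l 17128232))) (a (a (a (l 16957040) (l 16985672)) (l 17008904)) (l 17075032)))) (a (l 17275632) (l 17528112))) (a (a (a (a (a (b (l 3) (l 3)) (b (b (l 16900136) (l 229948767767)) (b (l 204715846615) (l 17017504)))) (b (l 17006864) (l 17179000))) (a (a (l 17155072) (b (l 16924600) (l 16999216)))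 (b (l 17110976) (l 17233904)))) (a (a (a (l 17035912) (l 17274320)) (l 17092808)) (a (l 17136848) (l 17180736)))) (a (a (l 17274664) (l 17407864)) (a (l 17535584) (l 17662480))))), by decide +kernel⟩

def k1_pp_123 : ∃ t, chk3 f_pp_123 t 1 3 1 = true :=
  ⟨(b (a (b (a (a (a (l 3) (b (l 17108656) (l 17170736))) (a (a (l 17098880) (l 17134736)) (a (l 17138272) (l 17163040)))) (a (a (a (l 17189312) (l 17217840)) (l 17249392)) (a (l 17292600) (l 17334344)))) (a (a (a (l 3) (a (l 210085633879) (l 17407152))) (a (l 17494608) (a (l 17289880) (l 17312368)))) (a (a (a (l 17335632) (l 17359160)) (l 17392320)) (l 17660648)))) (a (b (a (l 17413280) (l 17531136)) (a (l 17559552) (l 17676776))) (b (l 17904248) (l 1)))) (a (b (a (a (a (l 3) (b (l 17337880) (l 168746729911))) (a (b (l 17387408) (l 17469416)) (b (l 17426632) (l 17511400)))) (a (a (a (l 17497688) (l 17526224)) (l 17556784)) (a (l 17607864) (l 17659296)))) (a (a (b (a (l 3) (l 162304561335)) (l 3)) (b (a (l 17548488)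 (l 17607064)) (a (l 69828951703) (l 1)))) (a (a (b (l 17650952) (l 1)) (l 1)) (l 1)))) (l 1))), by decide +kernel⟩

theorem s2_pp_123 : ∃ t, chk3 f_pp_123 t 1 1 1 = true := ex3_b k0_pp_123 k1_pp_123

theorem c_pp_123 : CertN 536870912 536870912 0 1230186008 134217728 67108864 3 false true true .npn 1 2 3
    ndN0q1 ndN3q3 pcN2 cut_pp_123 Ext.none :=
  certN2 (fam := false) (s1 := true) (s2 := true) (a := 1) (b := 2) (c := 3) (cn := .npn) (n1 := ndN0q1) (n2 := ndN3q3) (pc := pcN2) (cut := cut_pp_123) (xt := Ext.none) (P1 := 536870912) (W1 := 536870912) (P2 := 0) (W2 := 1230186008) (P3 := 134217728) (W3 := 67108864) (N0 := 3)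
    rfl (fun _ => rfl) s2_pp_123

noncomputable def f_pp_133 : ℕ → ℕ → ℕ → ℕ → Bool := onCell 1610612736 536870912 0 1230186008 134217728 67108864
    (rowN 3 2 false true true .dn 1 3 3 (qsf 536870912 536870912 0 1230186008 3) ndN0q1 ndN3q3 pcN3 Cut.none Ext.none)

def k0_pp_133 : ∃ t, chk3 f_pp_133 t 1 1 1 = true :=
  ⟨(b (b (a (a (l 418257274471) (l 1)) (l 1)) (l 1)) (l 1)), by decide +kernel⟩

theorem c_pp_133 : CertN 536870912 536870912 0 1230186008 134217728 67108864 3 false true true .dn 1 3 3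
    ndN0q1 ndN3q3 pcN3 Cut.none Ext.none :=
  certN2 (fam := false) (s1 := true) (s2 := true) (a := 1) (b := 3) (c := 3) (cn := .dn) (n1 := ndN0q1) (n2 := ndN3q3) (pc := pcN3) (cut := Cut.none) (xt := Ext.none) (P1 := 536870912) (W1 := 536870912) (P2 := 0) (W2 := 1230186008) (P3 := 134217728) (W3 := 67108864) (N0 := 3)
    rfl (fun _ => rfl) k0_pp_133

noncomputable def f_pp_202 : ℕ → ℕ → ℕ → ℕ → Bool := onCell 0 536870912 1073741824 536870912 134217728 67108864
    (rowN 3 0 false true true .pp 2 0 2 (qsf 0 536870912 1073741824 536870912 0) ndN0q2 ndN3q2 pcN0 Cut.none Ext.none)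

def k0_pp_202 : ∃ t, chk3 f_pp_202 t 1 1 1 = true :=
  ⟨(l 3), by decide +kernel⟩

theorem c_pp_202 : CertN 0 536870912 1073741824 536870912 134217728 67108864 3 false true true .pp 2 0 2
    ndN0q2 ndN3q2 pcN0 Cut.none Ext.none :=
  certN0 (fam := false) (s1 := true) (s2 := true) (a := 2) (b := 0) (c := 2) (cn := .pp) (n1 := ndN0q2) (n2 := ndN3q2) (pc := pcN0) (cut := Cut.none) (xt := Ext.none) (P1 := 0) (W1 := 536870912) (P2 := 1073741824) (W2 := 536870912) (P3 := 134217728) (W3 := 67108864) (N0 := 3)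
    rfl k0_pp_202

noncomputable def f_pp_203 : ℕ → ℕ → ℕ → ℕ → Bool := onCell 0 536870912 0 1230186008 134217728 67108864
    (rowN 3 0 false true true .up 2 0 3 (qsf 0 536870912 0 1230186008 0) ndN0q2 ndN3q3 pcN0 Cut.none Ext.none)

def k0_pp_203 : ∃ t, chk3 f_pp_203 t 1 1 1 = true :=
  ⟨(b (l 2) (l 3)), by decide +kernel⟩

theorem c_pp_203 : CertN 0 536870912 0 1230186008 134217728 67108864 3 false true true .up 2 0 3
    ndN0q2 ndN3q3 pcN0 Cut.none Ext.none :=
  certN0 (fam := false) (s1 := true) (s2 := true) (a := 2) (b := 0) (c := 3) (cn := .up) (n1 := ndN0q2) (n2 := ndN3q3) (pc := pcN0) (cut := Cut.none) (xt := Ext.none) (P1 := 0) (W1 := 536870912) (P2 := 0) (W2 := 1230186008) (P3 := 134217728) (W3 := 67108864) (N0 := 3)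
    rfl k0_pp_203

noncomputable def cut_pp_213 : Cut := Cut.of [[⟨0, 1, 0, 39843005⟩, ⟨1, 1, 0, 39843005⟩, ⟨2, 2, 0, 5814905⟩]]

noncomputable def f_pp_213 : ℕ → ℕ → ℕ → ℕ → Bool := onCell 0 536870912 0 1230186008 134217728 67108864
    (rowN 3 0 false true true .pnn 2 1 3 (qsf 0 536870912 0 1230186008 1) ndN0q2 ndN3q3 pcN1 cut_pp_213 Ext.none)

def k0_pp_213 : ∃ t, chk3 f_pp_213 t 1 1 1 = true :=
  ⟨(b (a (l 3) (b (a (l 3) (a (l 3) (a (l 3) (b (b (l 6) (l 3)) (l 3))))) (l 3))) (l 3)), by decide +kernel⟩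

theorem c_pp_213 : CertN 0 536870912 0 1230186008 134217728 67108864 3 false true true .pnn 2 1 3
    ndN0q2 ndN3q3 pcN1 cut_pp_213 Ext.none :=
  certN0 (fam := false) (s1 := true) (s2 := true) (a := 2) (b := 1) (c := 3) (cn := .pnn) (n1 := ndN0q2) (n2 := ndN3q3) (pc := pcN1) (cut := cut_pp_213) (xt := Ext.none) (P1 := 0) (W1 := 536870912) (P2 := 0) (W2 := 1230186008) (P3 := 134217728) (W3 := 67108864) (N0 := 3)
    rfl k0_pp_213

noncomputable def f_pm_001 : ℕ → ℕ → ℕ → ℕ → Bool := onCell 0 536870912 536870912 536870912 134217728 67108864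
    (rowN 3 0 false true false .up 0 0 1 (qsf 0 536870912 536870912 536870912 0) ndN0q0 ndN3q1 pcN0 Cut.none Ext.none)

def k0_pm_001 : ∃ t, chk3 f_pm_001 t 1 1 1 = true :=
  ⟨(l 4), by decide +kernel⟩

theorem c_pm_001 : CertN 0 536870912 536870912 536870912 134217728 67108864 3 false true false .up 0 0 1
    ndN0q0 ndN3q1 pcN0 Cut.none Ext.none :=
  certN0 (fam := false) (s1 := true) (s2 := false) (a := 0) (b := 0) (c := 1) (cn := .up) (n1 := ndN0q0) (n2 := ndN3q1) (pc := pcN0) (cut := Cut.none) (xt := Ext.none) (P1 := 0) (W1 := 536870912) (P2 := 536870912) (W2 := 536870912) (P3 := 134217728) (W3 := 67108864) (N0 := 3)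
    rfl k0_pm_001

noncomputable def f_pm_011 : ℕ → ℕ → ℕ → ℕ → Bool := onCell 0 536870912 536870912 536870912 134217728 67108864
    (rowN 3 0 false true false .pnn 0 1 1 (qsf 0 536870912 536870912 536870912 1) ndN0q0 ndN3q1 pcN1 Cut.none Ext.none)

def k0_pm_011 : ∃ t, chk3 f_pm_011 t 1 1 1 = true :=
  ⟨(l 4), by decide +kernel⟩

theorem c_pm_011 : CertN 0 536870912 536870912 536870912 134217728 67108864 3 false true false .pnn 0 1 1
    ndN0q0 ndN3q1 pcN1 Cut.none Ext.none :=
  certN0 (fam := false) (s1 := true) (s2 := false) (a := 0) (b := 1) (c := 1) (cn := .pnn) (n1 := ndN0q0) (n2 := ndN3q1) (pc := pcN1) (cut := Cut.none) (xt := Ext.none) (P1 := 0) (W1 := 536870912) (P2 := 536870912) (W2 := 536870912) (P3 := 134217728) (W3 := 67108864) (N0 := 3)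
    rfl k0_pm_011

noncomputable def f_pm_012 : ℕ → ℕ → ℕ → ℕ → Bool := onCell 0 536870912 1073741824 536870912 134217728 67108864
    (rowN 3 0 false true false .pnp 0 1 2 (qsf 0 536870912 1073741824 536870912 1) ndN0q0 ndN3q2 pcN1 Cut.none Ext.none)

def k0_pm_012 : ∃ t, chk3 f_pm_012 t 1 1 1 = true :=
  ⟨(a (l 4) (b (a (b (a (l 4) (b (c (l 57682903511) (a (l 4) (l 17790472))) (l 4))) (l 4)) (b (a (b (c (l 18122112) (l 17890384)) (b (b (l 18174600) (b (l 18220456) (l 18250680))) (b (l 18277328) (l 18331872)))) (b (l 18094192) (b (b (l 18238432) (l 18279256)) (b (l 18320928) (l 18365352))))) (b (b (b (l 49093872743) (a (l 55536391879) (l 18450432))) (a (l 18490880) (l 18495720))) (a (b (l 18582600) (l 18680632)) (a (l 18612936) (l 18751248)))))) (a (l 4) (b (a (b (l 18851904) (l 19082280)) (b (a (l 18802040) (l 18744736)) (a (b (l 18947776) (a (l 19062520) (l 19023080))) (b (l 18876344) (l 18962488))))) (a (l 4) (b (a (b (a (l 19163520) (b (l 19091728) (l 19138512)))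 (l 19226168)) (b (b (l 19010032) (l 19056872)) (a (l 19138656) (l 19101944)))) (l 19268400))))))), by decide +kernel⟩

theorem c_pm_012 : CertN 0 536870912 1073741824 536870912 134217728 67108864 3 false true false .pnp 0 1 2
    ndN0q0 ndN3q2 pcN1 Cut.none Ext.none :=
  certN0 (fam := false) (s1 := true) (s2 := false) (a := 0) (b := 1) (c := 2) (cn := .pnp) (n1 := ndN0q0) (n2 := ndN3q2) (pc := pcN1) (cut := Cut.none) (xt := Ext.none) (P1 := 0) (W1 := 536870912) (P2 := 1073741824) (W2 := 536870912) (P3 := 134217728) (W3 := 67108864) (N0 := 3)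
    rfl k0_pm_012

noncomputable def f_pm_022 : ℕ → ℕ → ℕ → ℕ → Bool := onCell 1073741824 536870912 1073741824 536870912 134217728 67108864
    (rowN 3 2 false true false .pp 0 2 2 (qsf 0 536870912 1073741824 536870912 2) ndN0q0 ndN3q2 pcN2 Cut.none Ext.none)

def k0_pm_022 : ∃ t, chk3 f_pm_022 t 1 1 1 = true :=
  ⟨(a (b (l 4) (a (b (l 4) (a (l 19391240) (l 4))) (l 4))) (l 4)), by decide +kernel⟩

theorem c_pm_022 : CertN 0 536870912 1073741824 536870912 134217728 67108864 3 false true false .pp 0 2 2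
    ndN0q0 ndN3q2 pcN2 Cut.none Ext.none :=
  certN2 (fam := false) (s1 := true) (s2 := false) (a := 0) (b := 2) (c := 2) (cn := .pp) (n1 := ndN0q0) (n2 := ndN3q2) (pc := pcN2) (cut := Cut.none) (xt := Ext.none) (P1 := 0) (W1 := 536870912) (P2 := 1073741824) (W2 := 536870912) (P3 := 134217728) (W3 := 67108864) (N0 := 3)
    rfl (fun _ => rfl) k0_pm_022

noncomputable def f_pm_023 : ℕ → ℕ → ℕ → ℕ → Bool := onCell 0 536870912 0 1230186008 134217728 67108864
    (rowN 3 0 false true false .up 0 2 3 (qsf 0 536870912 0 1230186008 2) ndN0q0 ndN3q3 pcN2 Cut.none Ext.none)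

def k0_pm_023 : ∃ t, chk3 f_pm_023 t 1 1 1 = true :=
  ⟨(a (b (l 2) (l 4)) (a (b (l 2) (b (l 4) (l 4))) (b (b (l 17671632) (a (l 17825072) (l 17800272))) (b (b (a (l 18051432) (l 18021088)) (a (l 18265688) (l 18235184))) (b (a (l 18516744) (l 18494888)) (a (l 4) (l 18797464))))))), by decide +kernel⟩

theorem c_pm_023 : CertN 0 536870912 0 1230186008 134217728 67108864 3 false true false .up 0 2 3
    ndN0q0 ndN3q3 pcN2 Cut.none Ext.none :=
  certN0 (fam := false) (s1 := true) (s2 := false) (a := 0) (b := 2) (c := 3) (cn := .up) (n1 := ndN0q0) (n2 := ndN3q3) (pc := pcN2) (cut := Cut.none) (xt := Ext.none) (P1 := 0) (W1 := 536870912) (P2 := 0) (W2 := 1230186008) (P3 := 134217728) (W3 := 67108864) (N0 := 3)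
    rfl k0_pm_023

noncomputable def f_pm_033 : ℕ → ℕ → ℕ → ℕ → Bool := onCell 1610612736 536870912 0 1230186008 134217728 67108864
    (rowN 3 2 false true false .pnn 0 3 3 (qsf 0 536870912 0 1230186008 3) ndN0q0 ndN3q3 pcN3 Cut.none Ext.none)

def k0_pm_033 : ∃ t, chk3 f_pm_033 t 1 1 1 = true :=
  ⟨(b (a (a (b (a (l 17251504) (l 17502888)) (a (l 17700920) (l 17542016))) (b (l 17496376) (l 4))) (l 4)) (a (b (a (l 4) (l 4)) (l 4)) (l 4))), by decide +kernel⟩

theorem c_pm_033 : CertN 0 536870912 0 1230186008 134217728 67108864 3 false true false .pnn 0 3 3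
    ndN0q0 ndN3q3 pcN3 Cut.none Ext.none :=
  certN2 (fam := false) (s1 := true) (s2 := false) (a := 0) (b := 3) (c := 3) (cn := .pnn) (n1 := ndN0q0) (n2 := ndN3q3) (pc := pcN3) (cut := Cut.none) (xt := Ext.none) (P1 := 0) (W1 := 536870912) (P2 := 0) (W2 := 1230186008) (P3 := 134217728) (W3 := 67108864) (N0 := 3)
    rfl (fun _ => rfl) k0_pm_033

noncomputable def f_pm_101 : ℕ → ℕ → ℕ → ℕ → Bool := onCell 536870912 536870912 536870912 536870912 134217728 67108864
    (rowN 3 0 false true false .npn 1 0 1 (qsf 536870912 536870912 536870912 536870912 0) ndN0q1 ndN3q1 pcN0 Cut.none Ext.none)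

def k0_pm_101 : ∃ t, chk3 f_pm_101 t 1 1 1 = true :=
  ⟨(l 4), by decide +kernel⟩

theorem c_pm_101 : CertN 536870912 536870912 536870912 536870912 134217728 67108864 3 false true false .npn 1 0 1
    ndN0q1 ndN3q1 pcN0 Cut.none Ext.none :=
  certN0 (fam := false) (s1 := true) (s2 := false) (a := 1) (b := 0) (c := 1) (cn := .npn) (n1 := ndN0q1) (n2 := ndN3q1) (pc := pcN0) (cut := Cut.none) (xt := Ext.none) (P1 := 536870912) (W1 := 536870912) (P2 := 536870912) (W2 := 536870912) (P3 := 134217728) (W3 := 67108864) (N0 := 3)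
    rfl k0_pm_101

noncomputable def f_pm_102 : ℕ → ℕ → ℕ → ℕ → Bool := onCell 536870912 536870912 1073741824 536870912 134217728 67108864
    (rowN 3 0 false true false .npp 1 0 2 (qsf 536870912 536870912 1073741824 536870912 0) ndN0q1 ndN3q2 pcN0 Cut.none Ext.none)

def k0_pm_102 : ∃ t, chk3 f_pm_102 t 1 1 1 = true :=
  ⟨(a (b (a (b (a (b (l 132709908823) (b (b (l 17581504) (l 2)) (l 2))) (b (l 17483064) (b (b (l 17471136) (l 17454792)) (l 17394664)))) (b (a (l 2) (b (l 17442960) (l 2))) (l 2))) (b (b (l 17450912) (b (b (l 17415880) (l 17383624)) (b (l 17351528) (l 17321872)))) (b (b (b (l 17287848) (l 17256928)) (l 17203120)) (a (l 17125200) (l 17020880))))) (a (l 2) (b (a (l 2) (l 16947288)) (l 2)))) (b (a (b (b (l 17644728) (b (b (l 17377264) (l 17370656)) (b (l 17374944) (l 17223816)))) (b (b (b (l 17179504) (l 17392904)) (l 17183432)) (a (l 16920416) (l 16953360)))) (b (a (b (b (l 17467600) (l 17392536)) (b (b (l 17326736) (b (l 17294552) (l 17274392))) (b (l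 17218800) (l 17151120)))) (b (b (l 17440832) (a (l 17357576) (l 17329152))) (b (b (l 17346656) (b (l 17277232) (l 17275944))) (b (l 17288856) (l 17129880))))) (b (b (b (a (l 17091776) (l 17044984)) (a (l 17044896) (b (l 17002200) (l 17005096)))) (a (l 17002224) (l 17133296))) (a (l 17277632) (b (l 17136912) (l 17247704)))))) (a (b (a (b (l 16795560) (l 16850152)) (b (l 16965888) (l 17061688))) (l 17057464)) (b (a (b (l 17179208) (l 17267320)) (b (a (l 17327912) (l 17416024)) (l 17713192))) (a (l 17332344) (b (l 17684880) (l 17539664))))))), by decide +kernel⟩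

theorem c_pm_102 : CertN 536870912 536870912 1073741824 536870912 134217728 67108864 3 false true false .npp 1 0 2
    ndN0q1 ndN3q2 pcN0 Cut.none Ext.none :=
  certN0 (fam := false) (s1 := true) (s2 := false) (a := 1) (b := 0) (c := 2) (cn := .npp) (n1 := ndN0q1) (n2 := ndN3q2) (pc := pcN0) (cut := Cut.none) (xt := Ext.none) (P1 := 536870912) (W1 := 536870912) (P2 := 1073741824) (W2 := 536870912) (P3 := 134217728) (W3 := 67108864) (N0 := 3)
    rfl k0_pm_102

noncomputable def f_pm_112 : ℕ → ℕ → ℕ → ℕ → Bool := onCell 536870912 536870912 1073741824 536870912 134217728 67108864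
    (rowN 3 2 false true false .dn 1 1 2 (qsf 536870912 536870912 1073741824 536870912 1) ndN0q1 ndN3q2 pcN1 Cut.none Ext.none)

def k0_pm_112 : ∃ t, chk3 f_pm_112 t 1 1 1 = true :=
  ⟨(a (b (a (b (b (a (l 18130200) (l 230890855111)) (b (b (l 18490360) (a (l 18325432) (l 18294440))) (b (l 18512696) (l 18377112)))) (b (b (b (l 18399448) (a (l 18397032) (l 18432528))) (l 18419352)) (b (l 18368848) (l 18322664)))) (b (b (l 1) (b (l 1) (b (l 1) (l 261493322791)))) (b (b (b (l 245924175767) (a (l 18449176) (l 1))) (l 93452994247)) (b (l 18515808) (l 18533624))))) (a (b (a (b (l 18104656) (l 18060984)) (b (l 18277808) (l 18073008))) (a (b (l 17755432) (l 17557704)) (l 17722056))) (b (a (b (l 18424768) (l 18208088)) (b (l 18566680) (l 18441752))) (b (a (l 18068280) (l 18237440)) (l 17886656))))) (b (a (b (l 1) (b (l 1) (a (b (l 1) (l 18635656)) (l 1)))) (l 1)) (a (a (b (b (l 18709640) (l 18651904)) (b (l 18446936) (l 18422968))) (b (b (l 269010447975) (l 18854248)) (b (l 18733952)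 (l 18505992)))) (a (a (b (l 282969344311) (l 18835400)) (b (l 1) (l 219618647751))) (b (l 1) (l 246999495639)))))), by decide +kernel⟩

theorem c_pm_112 : CertN 536870912 536870912 1073741824 536870912 134217728 67108864 3 false true false .dn 1 1 2
    ndN0q1 ndN3q2 pcN1 Cut.none Ext.none :=
  certN2 (fam := false) (s1 := true) (s2 := false) (a := 1) (b := 1) (c := 2) (cn := .dn) (n1 := ndN0q1) (n2 := ndN3q2) (pc := pcN1) (cut := Cut.none) (xt := Ext.none) (P1 := 536870912) (W1 := 536870912) (P2 := 1073741824) (W2 := 536870912) (P3 := 134217728) (W3 := 67108864) (N0 := 3)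
    rfl (fun _ => rfl) k0_pm_112

noncomputable def cut_pm_113 : Cut := Cut.of [[⟨0, 1, 0, 39843005⟩, ⟨1, 1, 0, 39843005⟩, ⟨2, 2, 0, 5814905⟩]]

noncomputable def f_pm_113 : ℕ → ℕ → ℕ → ℕ → Bool := onCell 536870912 536870912 0 1230186008 134217728 67108864
    (rowN 3 0 false true false .nn 1 1 3 (qsf 536870912 536870912 0 1230186008 1) ndN0q1 ndN3q3 pcN1 cut_pm_113 Ext.none)

def k0_pm_113 : ∃ t, chk3 f_pm_113 t 1 1 1 = true :=
  ⟨(b (a (l 2) (a (l 2) (b (a (l 2) (a (l 2) (b (b (l 6) (l 16810120)) (l 16835880)))) (a (b (l 16839928) (l 16906984)) (b (l 16989488) (l 16984528)))))) (b (a (b (l 2) (a (l 2) (a (l 2) (l 17857096)))) (a (b (a (l 2) (l 17013168)) (a (l 17375536) (l 17058056))) (b (a (l 17006496) (l 17050432)) (a (l 17129960) (l 17188232))))) (a (b (a (l 2) (l 18204328)) (a (a (b (l 2) (l 18839480)) (b (l 18571976) (b (a (l 18570288) (l 18346216)) (a (b (l 18501304) (l 18449336)) (l 18271328))))) (l 18005608))) (a (b (a (l 17407016) (l 17179016)) (l 17454808))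 (b (a (l 17264928) (l 17468312)) (a (l 17508784) (b (l 17444160) (l 17490976)))))))), by decide +kernel⟩

theorem c_pm_113 : CertN 536870912 536870912 0 1230186008 134217728 67108864 3 false true false .nn 1 1 3
    ndN0q1 ndN3q3 pcN1 cut_pm_113 Ext.none :=
  certN0 (fam := false) (s1 := true) (s2 := false) (a := 1) (b := 1) (c := 3) (cn := .nn) (n1 := ndN0q1) (n2 := ndN3q3) (pc := pcN1) (cut := cut_pm_113) (xt := Ext.none) (P1 := 536870912) (W1 := 536870912) (P2 := 0) (W2 := 1230186008) (P3 := 134217728) (W3 := 67108864) (N0 := 3)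
    rfl k0_pm_113

noncomputable def cut_pm_123 : Cut := Cut.of [[⟨0, 1, 0, 39843005⟩, ⟨1, 1, 0, 39843005⟩, ⟨2, 2, 0, 5814905⟩]]

noncomputable def f_pm_123 : ℕ → ℕ → ℕ → ℕ → Bool := onCell 1073741824 536870912 0 1230186008 134217728 67108864
    (rowN 3 2 false true false .npn 1 2 3 (qsf 536870912 536870912 0 1230186008 2) ndN0q1 ndN3q3 pcN2 cut_pm_123 Ext.none)

def k0_pm_123 : ∃ t, chk3 f_pm_123 t 1 1 1 = true :=
  ⟨(b (b (a (a (a (a (b (b (l 6) (l 16813936)) (l 16838936)) (l 17102712)) (a (a (l 16900392) (b (l 16891208) (l 16953296))) (a (l 16950848) (l 16980712)))) (a (a (a (l 17008560) (l 17166256)) (l 17068664)) (l 17143992))) (a (l 17354424) (l 17566392))) (a (a (a (b (l 17047976) (l 17140944)) (a (a (l 17162088) (l 17225456)) (a (l 17215392) (l 17249056)))) (a (a (a (l 17281344) (l 17314784)) (l 17354416)) (l 17641328))) (a (a (l 17570024) (l 17670664)) (a (l 17752248) (l 17804752))))) (b (a (b (a (a (l 17430320) (a (a (l 17531536) (l 17568800)) (l 17615064)))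 (a (a (l 17657760) (l 17734368)) (l 17815528))) (a (a (l 17804056) (a (l 17901264) (l 17966368))) (l 18293264))) (a (a (l 18044936) (l 138549128743)) (b (l 18190280) (l 1)))) (a (a (b (a (l 18253752) (l 18349304)) (b (l 18647928) (l 19065688))) (b (a (l 18428240) (l 18483696)) (a (l 19037248) (l 1)))) (l 1)))), by decide +kernel⟩

theorem c_pm_123 : CertN 536870912 536870912 0 1230186008 134217728 67108864 3 false true false .npn 1 2 3
    ndN0q1 ndN3q3 pcN2 cut_pm_123 Ext.none :=
  certN2 (fam := false) (s1 := true) (s2 := false) (a := 1) (b := 2) (c := 3) (cn := .npn) (n1 := ndN0q1) (n2 := ndN3q3) (pc := pcN2) (cut := cut_pm_123) (xt := Ext.none) (P1 := 536870912) (W1 := 536870912) (P2 := 0) (W2 := 1230186008) (P3 := 134217728) (W3 := 67108864) (N0 := 3)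
    rfl (fun _ => rfl) k0_pm_123

noncomputable def f_pm_133 : ℕ → ℕ → ℕ → ℕ → Bool := onCell 536870912 536870912 0 1230186008 134217728 67108864
    (rowN 3 0 false true false .dn 1 3 3 (qsf 536870912 536870912 0 1230186008 3) ndN0q1 ndN3q3 pcN3 Cut.none Ext.none)

def k0_pm_133 : ∃ t, chk3 f_pm_133 t 1 1 1 = true :=
  ⟨(b (b (a (a (a (l 16873832) (l 1)) (l 1)) (l 1)) (l 1)) (l 1)), by decide +kernel⟩

theorem c_pm_133 : CertN 536870912 536870912 0 1230186008 134217728 67108864 3 false true false .dn 1 3 3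
    ndN0q1 ndN3q3 pcN3 Cut.none Ext.none :=
  certN0 (fam := false) (s1 := true) (s2 := false) (a := 1) (b := 3) (c := 3) (cn := .dn) (n1 := ndN0q1) (n2 := ndN3q3) (pc := pcN3) (cut := Cut.none) (xt := Ext.none) (P1 := 536870912) (W1 := 536870912) (P2 := 0) (W2 := 1230186008) (P3 := 134217728) (W3 := 67108864) (N0 := 3)
    rfl k0_pm_133

noncomputable def f_pm_202 : ℕ → ℕ → ℕ → ℕ → Bool := onCell 0 536870912 1073741824 536870912 134217728 67108864
    (rowN 3 0 false true false .pp 2 0 2 (qsf 0 536870912 1073741824 536870912 0) ndN0q2 ndN3q2 pcN0 Cut.none Ext.none)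

def k0_pm_202 : ∃ t, chk3 f_pm_202 t 2 1 1 = true :=
  ⟨(b (l 3) (l 3)), by decide +kernel⟩

def k1_pm_202 : ∃ t, chk3 f_pm_202 t 6 4 1 = true :=
  ⟨(a (b (l 1) (b (l 1) (b (b (l 3) (l 3)) (l 3)))) (b (l 1) (b (b (a (l 1) (b (l 1) (l 16876768))) (b (a (b (l 1) (l 626561993831)) (b (l 16839728) (l 16813816))) (a (a (b (l 1) (c (l 489659576935) (l 416108242775))) (b (l 16712112) (l 16700264))) (l 16915768)))) (b (b (b (a (a (a (b (c (l 16584648) (l 16592328)) (c (l 16610776) (l 16616976))) (l 16669296)) (c (l 16646064) (l 16647120))) (l 16724792)) (a (a (c (a (l 141364491127) (l 16595656)) (a (l 16601104) (l 16603552))) (l 16677120)) (l 16672480))) (b (a (a (c (l 139216996727) (l 139216994759)) (l 16651408)) (l 16661376)) (a (a (c (l 138680114055) (l 139217000039)) (l 16600376)) (l 16673352)))) (a (b (a (c (a (l 138680144311) (l 16607648)) (a (l 139217025575) (l 16597680))) (a (l 16640728) (l 16627512))) (a (c (a (l 139217101735) (l 16602376)) (l 138143304039)) (a (l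 16621992) (l 16590136)))) (b (l 16712776) (l 16679240))))))), by decide +kernel⟩

def k2_pm_202 : ∃ t, chk3 f_pm_202 t 6 5 1 = true :=
  ⟨(b (b (b (c (a (l 3) (a (a (b (a (l 131163890887) (l 16579176)) (l 126332070679)) (l 16681600)) (l 16714992))) (a (l 3) (a (a (b (l 138680148855) (l 138143271943)) (l 16692296)) (l 16729816)))) (a (l 3) (b (a (a (c (l 137606427607) (l 138143275623)) (l 16644656)) (l 16711032)) (c (a (b (l 135459170631) (a (b (l 137606758279) (l 137069952471)) (l 16808840))) (l 16800624)) (a (b (l 135995825415) (b (l 135995825927) (l 135995861975))) (l 16792152)))))) (a (l 3) (a (a (a (l 3) (b (c (l 135996258375) (l 136532653335)) (c (l 135996467975) (l 136532858807)))) (b (c (l 16955040) (l 16603784)) (c (l 17134752) (l 16648560)))) (b (l 16683768) (l 16895696))))) (a (l 3) (b (a (b (c (l 134386482647) (l 134922413607)) (c (l 134386677559) (l 135459663207))) (c (l 17310360) (l 16924016))) (a (a (l 3) (c (l 133313020327) (b (l 17101544) (l 17192488))))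 (c (l 17461448) (l 17150920)))))), by decide +kernel⟩

def k3_pm_202 : ∃ t, chk3 f_pm_202 t 7 2 1 = true :=
  ⟨(b (a (b (b (l 1) (a (b (l 1) (l 17074600)) (b (b (l 17246768) (l 17209184)) (l 17151384)))) (b (b (a (l 16987688) (l 17071056)) (b (a (l 16914768) (l 17003896)) (l 17059056))) (b (a (l 17015024) (b (l 16903528) (l 16849416))) (a (b (l 16687280) (l 16637688)) (l 16756872))))) (b (b (a (b (l 1) (l 270617763879)) (l 17410096)) (a (b (l 17302288) (l 17227216)) (l 17341152))) (b (b (l 17196808) (b (l 17136968) (l 17096648))) (b (b (l 17046888) (l 16998088)) (b (l 16947248) (l 16894800)))))) (b (b (b (a (a (l 16726536) (l 16705704)) (l 16811048)) (a (a (b (l 16632688) (l 16791848)) (b (l 16640024) (l 16672080))) (b (l 16734912) (b (l 16707208) (l 16697960))))) (a (a (b (l 16705256) (l 16907376)) (l 16825888)) (l 16899304))) (b (a (a (l 17118752) (l 17123032)) (l 17120312)) (a (a (l 17303472) (l 17302800)) (l 17297840))))), by decide +kernel⟩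

def k4_pm_202 : ∃ t, chk3 f_pm_202 t 3 3 1 = true :=
  ⟨(b (a (a (l 3) (b (b (c (l 132776436967) (a (l 134386533095) (l 17297392))) (a (l 135997539495) (l 17495624))) (a (l 3) (c (l 17625440) (l 17462128))))) (a (b (a (l 17464928) (l 17464304)) (l 17551480)) (b (l 17460936) (l 17556824)))) (a (a (l 3) (b (l 146735034199) (l 158009206567))) (a (b (l 17555592) (l 17508384)) (b (l 17574008) (l 17544792))))), by decide +kernel⟩

theorem s5_pm_202 : ∃ t, chk3 f_pm_202 t 6 2 1 = true := ex3_b k1_pm_202 k2_pm_202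

theorem s6_pm_202 : ∃ t, chk3 f_pm_202 t 3 2 1 = true := ex3_a s5_pm_202 k3_pm_202

theorem s7_pm_202 : ∃ t, chk3 f_pm_202 t 3 1 1 = true := ex3_b s6_pm_202 k4_pm_202

theorem s8_pm_202 : ∃ t, chk3 f_pm_202 t 1 1 1 = true := ex3_a k0_pm_202 s7_pm_202

theorem c_pm_202 : CertN 0 536870912 1073741824 536870912 134217728 67108864 3 false true false .pp 2 0 2
    ndN0q2 ndN3q2 pcN0 Cut.none Ext.none :=
  certN0 (fam := false) (s1 := true) (s2 := false) (a := 2) (b := 0) (c := 2) (cn := .pp) (n1 := ndN0q2) (n2 := ndN3q2) (pc := pcN0) (cut := Cut.none) (xt := Ext.none) (P1 := 0) (W1 := 536870912) (P2 := 1073741824) (W2 := 536870912) (P3 := 134217728) (W3 := 67108864) (N0 := 3)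
    rfl s8_pm_202

noncomputable def f_pm_203 : ℕ → ℕ → ℕ → ℕ → Bool := onCell 0 536870912 0 1230186008 134217728 67108864
    (rowN 3 0 false true false .up 2 0 3 (qsf 0 536870912 0 1230186008 0) ndN0q2 ndN3q3 pcN0 Cut.none Ext.none)

def k0_pm_203 : ∃ t, chk3 f_pm_203 t 1 1 1 = true :=
  ⟨(b (l 2) (b (l 2) (a (l 3) (b (l 2) (a (a (l 3) (b (l 3) (l 3))) (b (a (a (l 17539128) (l 2)) (l 2)) (a (a (l 17634912) (l 17684880)) (l 17765776)))))))), by decide +kernel⟩

theorem c_pm_203 : CertN 0 536870912 0 1230186008 134217728 67108864 3 false true false .up 2 0 3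
    ndN0q2 ndN3q3 pcN0 Cut.none Ext.none :=
  certN0 (fam := false) (s1 := true) (s2 := false) (a := 2) (b := 0) (c := 3) (cn := .up) (n1 := ndN0q2) (n2 := ndN3q3) (pc := pcN0) (cut := Cut.none) (xt := Ext.none) (P1 := 0) (W1 := 536870912) (P2 := 0) (W2 := 1230186008) (P3 := 134217728) (W3 := 67108864) (N0 := 3)
    rfl k0_pm_203

noncomputable def cut_pm_213 : Cut := Cut.of [[⟨0, 1, 0, 39843005⟩, ⟨1, 1, 0, 39843005⟩, ⟨2, 2, 0, 5814905⟩]]

noncomputable def f_pm_213 : ℕ → ℕ → ℕ → ℕ → Bool := onCell 0 536870912 0 1230186008 134217728 67108864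
    (rowN 3 0 false true false .pnn 2 1 3 (qsf 0 536870912 0 1230186008 1) ndN0q2 ndN3q3 pcN1 cut_pm_213 Ext.none)

def k0_pm_213 : ∃ t, chk3 f_pm_213 t 1 1 1 = true :=
  ⟨(b (a (l 3) (a (l 3) (b (a (l 3) (a (b (l 3) (l 3)) (b (a (l 3) (b (l 6) (b (l 6) (a (l 263234560263) (l 16791496))))) (a (b (l 381883073095) (a (l 446307594519) (l 258939685735))) (b (b (l 262160856679) (l 16806080)) (l 16802248)))))) (a (b (l 3) (l 3)) (b (a (b (l 505900274279) (l 254644789959)) (b (l 234780525335) (l 16880808))) (a (b (l 241759945911) (l 17021272)) (l 16947704))))))) (a (l 3) (b (a (l 3) (b (a (b (l 3) (l 232633490087)) (b (l 17108656) (l 17095016))) (a (b (l 219211881543) (l 206327161719)) (b (l 17174864) (l 17262016))))) (b (a (l 3) (a (b (l 192369165863) (l 180558229351)) (b (l 17351424) (l 17434160)))) (b (a (l 3) (a (a (l 175726252439) (l 17518488)) (l 17504608))) (a (l 1) (a (b (l 17594648) (l 1)) (l 17554120)))))))), by decide +kernel⟩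

theorem c_pm_213 : CertN 0 536870912 0 1230186008 134217728 67108864 3 false true false .pnn 2 1 3
    ndN0q2 ndN3q3 pcN1 cut_pm_213 Ext.none :=
  certN0 (fam := false) (s1 := true) (s2 := false) (a := 2) (b := 1) (c := 3) (cn := .pnn) (n1 := ndN0q2) (n2 := ndN3q3) (pc := pcN1) (cut := cut_pm_213) (xt := Ext.none) (P1 := 0) (W1 := 536870912) (P2 := 0) (W2 := 1230186008) (P3 := 134217728) (W3 := 67108864) (N0 := 3)
    rfl k0_pm_213

noncomputable def f_mm_001 : ℕ → ℕ → ℕ → ℕ → Bool := onCell 0 536870912 0 536870912 134217728 67108864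
    (rowN 3 1 false false false .up 0 0 1 (qsf 0 536870912 536870912 536870912 0) ndN0q0 ndN3q1 pcN0 Cut.none Ext.none)

def k0_mm_001 : ∃ t, chk3 f_mm_001 t 1 1 1 = true :=
  ⟨(l 3), by decide +kernel⟩

theorem c_mm_001 : CertN 0 536870912 536870912 536870912 134217728 67108864 3 false false false .up 0 0 1
    ndN0q0 ndN3q1 pcN0 Cut.none Ext.none :=
  certN1 (fam := false) (s1 := false) (s2 := false) (a := 0) (b := 0) (c := 1) (cn := .up) (n1 := ndN0q0) (n2 := ndN3q1) (pc := pcN0) (cut := Cut.none) (xt := Ext.none) (P1 := 0) (W1 := 536870912) (P2 := 536870912) (W2 := 536870912) (P3 := 134217728) (W3 := 67108864) (N0 := 3)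
    rfl (fun _ => rfl) k0_mm_001

noncomputable def f_mm_011 : ℕ → ℕ → ℕ → ℕ → Bool := onCell 0 536870912 536870912 536870912 134217728 67108864
    (rowN 3 1 false false false .pnn 0 1 1 (qsf 0 536870912 536870912 536870912 1) ndN0q0 ndN3q1 pcN1 Cut.none Ext.none)

def k0_mm_011 : ∃ t, chk3 f_mm_011 t 1 1 1 = true :=
  ⟨(l 5), by decide +kernel⟩

theorem c_mm_011 : CertN 0 536870912 536870912 536870912 134217728 67108864 3 false false false .pnn 0 1 1
    ndN0q0 ndN3q1 pcN1 Cut.none Ext.none :=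
  certN1 (fam := false) (s1 := false) (s2 := false) (a := 0) (b := 1) (c := 1) (cn := .pnn) (n1 := ndN0q0) (n2 := ndN3q1) (pc := pcN1) (cut := Cut.none) (xt := Ext.none) (P1 := 0) (W1 := 536870912) (P2 := 536870912) (W2 := 536870912) (P3 := 134217728) (W3 := 67108864) (N0 := 3)
    rfl (fun _ => rfl) k0_mm_011

noncomputable def f_mm_012 : ℕ → ℕ → ℕ → ℕ → Bool := onCell 0 536870912 1073741824 536870912 134217728 67108864
    (rowN 3 0 false false false .pnp 0 1 2 (qsf 0 536870912 1073741824 536870912 1) ndN0q0 ndN3q2 pcN1 Cut.none Ext.none)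

def k0_mm_012 : ∃ t, chk3 f_mm_012 t 1 1 1 = true :=
  ⟨(l 5), by decide +kernel⟩

theorem c_mm_012 : CertN 0 536870912 1073741824 536870912 134217728 67108864 3 false false false .pnp 0 1 2
    ndN0q0 ndN3q2 pcN1 Cut.none Ext.none :=
  certN0 (fam := false) (s1 := false) (s2 := false) (a := 0) (b := 1) (c := 2) (cn := .pnp) (n1 := ndN0q0) (n2 := ndN3q2) (pc := pcN1) (cut := Cut.none) (xt := Ext.none) (P1 := 0) (W1 := 536870912) (P2 := 1073741824) (W2 := 536870912) (P3 := 134217728) (W3 := 67108864) (N0 := 3)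
    rfl k0_mm_012

noncomputable def f_mm_022 : ℕ → ℕ → ℕ → ℕ → Bool := onCell 0 536870912 1073741824 536870912 134217728 67108864
    (rowN 3 0 false false false .pp 0 2 2 (qsf 0 536870912 1073741824 536870912 2) ndN0q0 ndN3q2 pcN2 Cut.none Ext.none)

def k0_mm_022 : ∃ t, chk3 f_mm_022 t 1 1 1 = true :=
  ⟨(l 5), by decide +kernel⟩

theorem c_mm_022 : CertN 0 536870912 1073741824 536870912 134217728 67108864 3 false false false .pp 0 2 2
    ndN0q0 ndN3q2 pcN2 Cut.none Ext.none :=
  certN0 (fam := false) (s1 := false) (s2 := false) (a := 0) (b := 2) (c := 2) (cn := .pp) (n1 := ndN0q0) (n2 := ndN3q2) (pc := pcN2) (cut := Cut.none) (xt := Ext.none) (P1 := 0) (W1 := 536870912) (P2 := 1073741824) (W2 := 536870912) (P3 := 134217728) (W3 := 67108864) (N0 := 3)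
    rfl k0_mm_022

noncomputable def f_mm_023 : ℕ → ℕ → ℕ → ℕ → Bool := onCell 0 536870912 0 1230186008 134217728 67108864
    (rowN 3 0 false false false .up 0 2 3 (qsf 0 536870912 0 1230186008 2) ndN0q0 ndN3q3 pcN2 Cut.none Ext.none)

def k0_mm_023 : ∃ t, chk3 f_mm_023 t 1 1 1 = true :=
  ⟨(l 5), by decide +kernel⟩

theorem c_mm_023 : CertN 0 536870912 0 1230186008 134217728 67108864 3 false false false .up 0 2 3
    ndN0q0 ndN3q3 pcN2 Cut.none Ext.none :=
  certN0 (fam := false) (s1 := false) (s2 := false) (a := 0) (b := 2) (c := 3) (cn := .up) (n1 := ndN0q0) (n2 := ndN3q3) (pc := pcN2) (cut := Cut.none) (xt := Ext.none) (P1 := 0) (W1 := 536870912) (P2 := 0) (W2 := 1230186008) (P3 := 134217728) (W3 := 67108864) (N0 := 3)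
    rfl k0_mm_023

noncomputable def f_mm_033 : ℕ → ℕ → ℕ → ℕ → Bool := onCell 0 536870912 0 1230186008 134217728 67108864
    (rowN 3 0 false false false .pnn 0 3 3 (qsf 0 536870912 0 1230186008 3) ndN0q0 ndN3q3 pcN3 Cut.none Ext.none)

def k0_mm_033 : ∃ t, chk3 f_mm_033 t 1 1 1 = true :=
  ⟨(l 5), by decide +kernel⟩

theorem c_mm_033 : CertN 0 536870912 0 1230186008 134217728 67108864 3 false false false .pnn 0 3 3
    ndN0q0 ndN3q3 pcN3 Cut.none Ext.none :=
  certN0 (fam := false) (s1 := false) (s2 := false) (a := 0) (b := 3) (c := 3) (cn := .pnn) (n1 := ndN0q0) (n2 := ndN3q3) (pc := pcN3) (cut := Cut.none) (xt := Ext.none) (P1 := 0) (W1 := 536870912) (P2 := 0) (W2 := 1230186008) (P3 := 134217728) (W3 := 67108864) (N0 := 3)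
    rfl k0_mm_033

noncomputable def cut_mm_101 : Cut := Cut.of [[⟨0, 1, 0, 67108864⟩, ⟨1, 0, 0, 67108864⟩, ⟨2, 1, 0, 67108864⟩]]

noncomputable def f_mm_101 : ℕ → ℕ → ℕ → ℕ → Bool := onCell 536870912 536870912 0 536870912 134217728 67108864
    (rowN 3 1 false false false .npn 1 0 1 (qsf 536870912 536870912 536870912 536870912 0) ndN0q1 ndN3q1 pcN0 cut_mm_101 Ext.none)

def k0_mm_101 : ∃ t, chk3 f_mm_101 t 1 1 1 = true :=
  ⟨(a (l 3) (b (a (l 3) (b (b (a (l 3) (a (l 3) (b (l 6) (l 3)))) (l 3)) (l 3))) (l 3))), by decide +kernel⟩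

theorem c_mm_101 : CertN 536870912 536870912 536870912 536870912 134217728 67108864 3 false false false .npn 1 0 1
    ndN0q1 ndN3q1 pcN0 cut_mm_101 Ext.none :=
  certN1 (fam := false) (s1 := false) (s2 := false) (a := 1) (b := 0) (c := 1) (cn := .npn) (n1 := ndN0q1) (n2 := ndN3q1) (pc := pcN0) (cut := cut_mm_101) (xt := Ext.none) (P1 := 536870912) (W1 := 536870912) (P2 := 536870912) (W2 := 536870912) (P3 := 134217728) (W3 := 67108864) (N0 := 3)
    rfl (fun _ => rfl) k0_mm_101

noncomputable def f_mm_102 : ℕ → ℕ → ℕ → ℕ → Bool := onCell 536870912 536870912 0 536870912 134217728 67108864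
    (rowN 3 1 false false false .npp 1 0 2 (qsf 536870912 536870912 1073741824 536870912 0) ndN0q1 ndN3q2 pcN0 Cut.none Ext.none)

def k0_mm_102 : ∃ t, chk3 f_mm_102 t 1 1 1 = true :=
  ⟨(l 3), by decide +kernel⟩

theorem c_mm_102 : CertN 536870912 536870912 1073741824 536870912 134217728 67108864 3 false false false .npp 1 0 2
    ndN0q1 ndN3q2 pcN0 Cut.none Ext.none :=
  certN1 (fam := false) (s1 := false) (s2 := false) (a := 1) (b := 0) (c := 2) (cn := .npp) (n1 := ndN0q1) (n2 := ndN3q2) (pc := pcN0) (cut := Cut.none) (xt := Ext.none) (P1 := 536870912) (W1 := 536870912) (P2 := 1073741824) (W2 := 536870912) (P3 := 134217728) (W3 := 67108864) (N0 := 3)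
    rfl (fun _ => rfl) k0_mm_102

noncomputable def f_mm_112 : ℕ → ℕ → ℕ → ℕ → Bool := onCell 536870912 536870912 1073741824 536870912 134217728 67108864
    (rowN 3 2 false false false .dn 1 1 2 (qsf 536870912 536870912 1073741824 536870912 1) ndN0q1 ndN3q2 pcN1 Cut.none Ext.none)

def k0_mm_112 : ∃ t, chk3 f_mm_112 t 1 1 1 = true :=
  ⟨(l 5), by decide +kernel⟩

theorem c_mm_112 : CertN 536870912 536870912 1073741824 536870912 134217728 67108864 3 false false false .dn 1 1 2
    ndN0q1 ndN3q2 pcN1 Cut.none Ext.none :=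
  certN2 (fam := false) (s1 := false) (s2 := false) (a := 1) (b := 1) (c := 2) (cn := .dn) (n1 := ndN0q1) (n2 := ndN3q2) (pc := pcN1) (cut := Cut.none) (xt := Ext.none) (P1 := 536870912) (W1 := 536870912) (P2 := 1073741824) (W2 := 536870912) (P3 := 134217728) (W3 := 67108864) (N0 := 3)
    rfl (fun _ => rfl) k0_mm_112

noncomputable def f_mm_113 : ℕ → ℕ → ℕ → ℕ → Bool := onCell 536870912 536870912 0 1230186008 134217728 67108864
    (rowN 3 0 false false false .nn 1 1 3 (qsf 536870912 536870912 0 1230186008 1) ndN0q1 ndN3q3 pcN1 Cut.none Ext.none)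

def k0_mm_113 : ∃ t, chk3 f_mm_113 t 1 1 1 = true :=
  ⟨(b (l 5) (l 5)), by decide +kernel⟩

theorem c_mm_113 : CertN 536870912 536870912 0 1230186008 134217728 67108864 3 false false false .nn 1 1 3
    ndN0q1 ndN3q3 pcN1 Cut.none Ext.none :=
  certN0 (fam := false) (s1 := false) (s2 := false) (a := 1) (b := 1) (c := 3) (cn := .nn) (n1 := ndN0q1) (n2 := ndN3q3) (pc := pcN1) (cut := Cut.none) (xt := Ext.none) (P1 := 536870912) (W1 := 536870912) (P2 := 0) (W2 := 1230186008) (P3 := 134217728) (W3 := 67108864) (N0 := 3)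
    rfl k0_mm_113

noncomputable def f_mm_123 : ℕ → ℕ → ℕ → ℕ → Bool := onCell 536870912 536870912 0 1230186008 134217728 67108864
    (rowN 3 0 false false false .npn 1 2 3 (qsf 536870912 536870912 0 1230186008 2) ndN0q1 ndN3q3 pcN2 Cut.none Ext.none)

def k0_mm_123 : ∃ t, chk3 f_mm_123 t 1 1 1 = true :=
  ⟨(b (l 5) (l 5)), by decide +kernel⟩

theorem c_mm_123 : CertN 536870912 536870912 0 1230186008 134217728 67108864 3 false false false .npn 1 2 3
    ndN0q1 ndN3q3 pcN2 Cut.none Ext.none :=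
  certN0 (fam := false) (s1 := false) (s2 := false) (a := 1) (b := 2) (c := 3) (cn := .npn) (n1 := ndN0q1) (n2 := ndN3q3) (pc := pcN2) (cut := Cut.none) (xt := Ext.none) (P1 := 536870912) (W1 := 536870912) (P2 := 0) (W2 := 1230186008) (P3 := 134217728) (W3 := 67108864) (N0 := 3)
    rfl k0_mm_123

noncomputable def f_mm_133 : ℕ → ℕ → ℕ → ℕ → Bool := onCell 1610612736 536870912 0 1230186008 134217728 67108864
    (rowN 3 2 false false false .dn 1 3 3 (qsf 536870912 536870912 0 1230186008 3) ndN0q1 ndN3q3 pcN3 Cut.none Ext.none)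

def k0_mm_133 : ∃ t, chk3 f_mm_133 t 1 1 1 = true :=
  ⟨(l 5), by decide +kernel⟩

theorem c_mm_133 : CertN 536870912 536870912 0 1230186008 134217728 67108864 3 false false false .dn 1 3 3
    ndN0q1 ndN3q3 pcN3 Cut.none Ext.none :=
  certN2 (fam := false) (s1 := false) (s2 := false) (a := 1) (b := 3) (c := 3) (cn := .dn) (n1 := ndN0q1) (n2 := ndN3q3) (pc := pcN3) (cut := Cut.none) (xt := Ext.none) (P1 := 536870912) (W1 := 536870912) (P2 := 0) (W2 := 1230186008) (P3 := 134217728) (W3 := 67108864) (N0 := 3)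
    rfl (fun _ => rfl) k0_mm_133

noncomputable def f_mm_202 : ℕ → ℕ → ℕ → ℕ → Bool := onCell 0 536870912 1073741824 536870912 134217728 67108864
    (rowN 3 0 false false false .pp 2 0 2 (qsf 0 536870912 1073741824 536870912 0) ndN0q2 ndN3q2 pcN0 Cut.none Ext.none)

def k0_mm_202 : ∃ t, chk3 f_mm_202 t 1 1 1 = true :=
  ⟨(l 3), by decide +kernel⟩

theorem c_mm_202 : CertN 0 536870912 1073741824 536870912 134217728 67108864 3 false false false .pp 2 0 2
    ndN0q2 ndN3q2 pcN0 Cut.none Ext.none :=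
  certN0 (fam := false) (s1 := false) (s2 := false) (a := 2) (b := 0) (c := 2) (cn := .pp) (n1 := ndN0q2) (n2 := ndN3q2) (pc := pcN0) (cut := Cut.none) (xt := Ext.none) (P1 := 0) (W1 := 536870912) (P2 := 1073741824) (W2 := 536870912) (P3 := 134217728) (W3 := 67108864) (N0 := 3)
    rfl k0_mm_202

noncomputable def f_mm_203 : ℕ → ℕ → ℕ → ℕ → Bool := onCell 0 536870912 0 1230186008 134217728 67108864
    (rowN 3 0 false false false .up 2 0 3 (qsf 0 536870912 0 1230186008 0) ndN0q2 ndN3q3 pcN0 Cut.none Ext.none)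

def k0_mm_203 : ∃ t, chk3 f_mm_203 t 1 1 1 = true :=
  ⟨(b (l 2) (l 3)), by decide +kernel⟩

theorem c_mm_203 : CertN 0 536870912 0 1230186008 134217728 67108864 3 false false false .up 2 0 3
    ndN0q2 ndN3q3 pcN0 Cut.none Ext.none :=
  certN0 (fam := false) (s1 := false) (s2 := false) (a := 2) (b := 0) (c := 3) (cn := .up) (n1 := ndN0q2) (n2 := ndN3q3) (pc := pcN0) (cut := Cut.none) (xt := Ext.none) (P1 := 0) (W1 := 536870912) (P2 := 0) (W2 := 1230186008) (P3 := 134217728) (W3 := 67108864) (N0 := 3)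
    rfl k0_mm_203

noncomputable def f_mm_213 : ℕ → ℕ → ℕ → ℕ → Bool := onCell 0 536870912 0 1230186008 134217728 67108864
    (rowN 3 0 false false false .pnn 2 1 3 (qsf 0 536870912 0 1230186008 1) ndN0q2 ndN3q3 pcN1 Cut.none Ext.none)

def k0_mm_213 : ∃ t, chk3 f_mm_213 t 1 1 1 = true :=
  ⟨(b (a (l 3) (l 5)) (l 3)), by decide +kernel⟩

theorem c_mm_213 : CertN 0 536870912 0 1230186008 134217728 67108864 3 false false false .pnn 2 1 3
    ndN0q2 ndN3q3 pcN1 Cut.none Ext.none :=
  certN0 (fam := false) (s1 := false) (s2 := false) (a := 2) (b := 1) (c := 3) (cn := .pnn) (n1 := ndN0q2) (n2 := ndN3q3) (pc := pcN1) (cut := Cut.none) (xt := Ext.none) (P1 := 0) (W1 := 536870912) (P2 := 0) (W2 := 1230186008) (P3 := 134217728) (W3 := 67108864) (N0 := 3)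
    rfl k0_mm_213

end Pool.Agent.Strip051.G.I1_8_3_16.Tab.C.NB03

namespace Pool.Agent.Strip051.G.I1_8_3_16.Tab.C.NB04

open Pool.Agent.Strip051.PB Pool.Agent.Strip051.PB.T
open Pool.Agent.Strip051.G.I1_8_3_16.Tab

noncomputable def f_pp_001 : ℕ → ℕ → ℕ → ℕ → Bool := onCell 0 536870912 0 536870912 134217728 67108864
    (rowN 3 1 false true true .up 0 0 1 (qsf 0 536870912 536870912 536870912 0) ndN0q0 ndN4q1 pcN0 Cut.none Ext.none)

def k0_pp_001 : ∃ t, chk3 f_pp_001 t 1 1 1 = true :=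
  ⟨(l 3), by decide +kernel⟩

theorem c_pp_001 : CertN 0 536870912 536870912 536870912 134217728 67108864 3 false true true .up 0 0 1
    ndN0q0 ndN4q1 pcN0 Cut.none Ext.none :=
  certN1 (fam := false) (s1 := true) (s2 := true) (a := 0) (b := 0) (c := 1) (cn := .up) (n1 := ndN0q0) (n2 := ndN4q1) (pc := pcN0) (cut := Cut.none) (xt := Ext.none) (P1 := 0) (W1 := 536870912) (P2 := 536870912) (W2 := 536870912) (P3 := 134217728) (W3 := 67108864) (N0 := 3)
    rfl (fun _ => rfl) k0_pp_001

noncomputable def cut_pp_011 : Cut := Cut.of [[⟨0, 0, 0, 67108864⟩, ⟨1, 1, 0, 67108864⟩, ⟨2, 1, 0, 67108864⟩]]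

noncomputable def f_pp_011 : ℕ → ℕ → ℕ → ℕ → Bool := onCell 0 536870912 536870912 536870912 134217728 67108864
    (rowN 3 1 false true true .pnn 0 1 1 (qsf 0 536870912 536870912 536870912 1) ndN0q0 ndN4q1 pcN1 cut_pp_011 Ext.none)

def k0_pp_011 : ∃ t, chk3 f_pp_011 t 1 1 1 = true :=
  ⟨(b (l 3) (a (b (l 3) (a (b (l 3) (a (b (l 3) (a (l 6) (l 3))) (l 3))) (l 3))) (l 3))), by decide +kernel⟩

theorem c_pp_011 : CertN 0 536870912 536870912 536870912 134217728 67108864 3 false true true .pnn 0 1 1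
    ndN0q0 ndN4q1 pcN1 cut_pp_011 Ext.none :=
  certN1 (fam := false) (s1 := true) (s2 := true) (a := 0) (b := 1) (c := 1) (cn := .pnn) (n1 := ndN0q0) (n2 := ndN4q1) (pc := pcN1) (cut := cut_pp_011) (xt := Ext.none) (P1 := 0) (W1 := 536870912) (P2 := 536870912) (W2 := 536870912) (P3 := 134217728) (W3 := 67108864) (N0 := 3)
    rfl (fun _ => rfl) k0_pp_011

noncomputable def f_pp_012 : ℕ → ℕ → ℕ → ℕ → Bool := onCell 0 536870912 536870912 536870912 134217728 67108864
    (rowN 3 1 false true true .pnp 0 1 2 (qsf 0 536870912 1073741824 536870912 1) ndN0q0 ndN4q2 pcN1 Cut.none Ext.none)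

def k0_pp_012 : ∃ t, chk3 f_pp_012 t 1 1 1 = true :=
  ⟨(l 3), by decide +kernel⟩

theorem c_pp_012 : CertN 0 536870912 1073741824 536870912 134217728 67108864 3 false true true .pnp 0 1 2
    ndN0q0 ndN4q2 pcN1 Cut.none Ext.none :=
  certN1 (fam := false) (s1 := true) (s2 := true) (a := 0) (b := 1) (c := 2) (cn := .pnp) (n1 := ndN0q0) (n2 := ndN4q2) (pc := pcN1) (cut := Cut.none) (xt := Ext.none) (P1 := 0) (W1 := 536870912) (P2 := 1073741824) (W2 := 536870912) (P3 := 134217728) (W3 := 67108864) (N0 := 3)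
    rfl (fun _ => rfl) k0_pp_012

noncomputable def f_pp_022 : ℕ → ℕ → ℕ → ℕ → Bool := onCell 0 536870912 1073741824 536870912 134217728 67108864
    (rowN 3 1 false true true .pp 0 2 2 (qsf 0 536870912 1073741824 536870912 2) ndN0q0 ndN4q2 pcN2 Cut.none Ext.none)

def k0_pp_022 : ∃ t, chk3 f_pp_022 t 1 1 1 = true :=
  ⟨(a (b (b (l 3) (b (a (b (b (l 3) (a (b (l 3) (b (l 3) (a (b (c (a (l 16801576) (l 17225392)) (a (l 16511688) (l 16573368))) (c (a (l 17048656) (l 17253904)) (l 16502680))) (b (c (l 17414040) (l 16786328)) (c (l 17434552) (l 16936072)))))) (b (l 3) (b (l 3) (b (l 3) (a (l 17109016) (l 17437008))))))) (a (a (c (a (b (l 17058472) (l 17445360)) (l 17410416)) (a (b (l 16466800) (l 16764120)) (l 16875848))) (c (a (l 17564272) (l 17620432)) (a (l 17055616) (l 17182864)))) (a (c (l 17662272) (l 17307432)) (l 17367448)))) (b (b (l 3) (b (l 3) (b (l 3) (a (b (l 17456120) (l 17465512)) (b (l 17428608) (l 17436192)))))) (a (c (l 17640256) (l 17443536)) (l 17498240))))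 (a (a (a (a (c (l 17698672) (a (l 17205528) (l 17356008))) (c (l 17927440) (l 17352104))) (c (l 17948992) (b (l 17420112) (l 17652936)))) (a (c (l 17936304) (l 17615328)) (l 17771232))) (a (b (l 17672528) (l 17785472)) (l 17653832))))) (a (b (b (a (a (c (l 18304056) (l 17887456)) (l 18086312)) (l 18028192)) (a (l 18328368) (l 18197312))) (a (l 18507712) (l 18337760))) (b (a (l 18002536) (l 17886864)) (l 18107168)))) (b (b (l 3) (b (a (b (b (l 3) (b (a (l 3) (l 17271640)) (b (a (l 17358280) (l 17284144)) (a (b (l 17367144) (l 17373592)) (l 7081628279))))) (a (l 17426496) (l 17343320))) (b (b (a (l 3) (l 2)) (l 2)) (l 2))) (a (a (l 17560536) (l 17461152)) (l 2)))) (b (a (b (l 17648312) (l 2)) (l 2)) (l 2)))), by decide +kernel⟩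

theorem c_pp_022 : CertN 0 536870912 1073741824 536870912 134217728 67108864 3 false true true .pp 0 2 2
    ndN0q0 ndN4q2 pcN2 Cut.none Ext.none :=
  certN1 (fam := false) (s1 := true) (s2 := true) (a := 0) (b := 2) (c := 2) (cn := .pp) (n1 := ndN0q0) (n2 := ndN4q2) (pc := pcN2) (cut := Cut.none) (xt := Ext.none) (P1 := 0) (W1 := 536870912) (P2 := 1073741824) (W2 := 536870912) (P3 := 134217728) (W3 := 67108864) (N0 := 3)
    rfl (fun _ => rfl) k0_pp_022

noncomputable def f_pp_023 : ℕ → ℕ → ℕ → ℕ → Bool := onCell 1073741824 536870912 0 1230186008 134217728 67108864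
    (rowN 3 2 false true true .up 0 2 3 (qsf 0 536870912 0 1230186008 2) ndN0q0 ndN4q3 pcN2 Cut.none Ext.none)

def k0_pp_023 : ∃ t, chk3 f_pp_023 t 1 1 1 = true :=
  ⟨(b (a (l 2) (a (l 2) (b (l 17744128) (a (l 17420960) (l 17541856))))) (b (a (b (l 2) (a (l 2) (a (l 2) (l 17402824)))) (a (b (a (l 2) (l 17408520)) (a (l 17421808) (l 17536208))) (b (l 17580064) (l 17716672)))) (a (a (b (l 2) (l 3)) (b (a (a (b (l 2) (a (l 17290864) (a (l 17311984) (a (l 17323512) (b (l 2) (l 17540776)))))) (l 17548096)) (b (l 17404688) (l 17487624))) (a (a (a (b (l 17395512) (l 3)) (a (b (l 17400080) (l 17514904)) (b (a (l 17413064) (b (l 17586144) (l 17701048))) (a (l 17529600) (a (l 17537360) (l 17542728)))))) (b (l 17468584) (l 17587264))) (b (l 17588392) (l 17705856))))) (b (a (a (l 17586192) (l 17718384)) (l 17879480)) (a (b (l 17948232) (l 18113032)) (l 18230192)))))), by decide +kernel⟩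

theorem c_pp_023 : CertN 0 536870912 0 1230186008 134217728 67108864 3 false true true .up 0 2 3
    ndN0q0 ndN4q3 pcN2 Cut.none Ext.none :=
  certN2 (fam := false) (s1 := true) (s2 := true) (a := 0) (b := 2) (c := 3) (cn := .up) (n1 := ndN0q0) (n2 := ndN4q3) (pc := pcN2) (cut := Cut.none) (xt := Ext.none) (P1 := 0) (W1 := 536870912) (P2 := 0) (W2 := 1230186008) (P3 := 134217728) (W3 := 67108864) (N0 := 3)
    rfl (fun _ => rfl) k0_pp_023

noncomputable def f_pp_033 : ℕ → ℕ → ℕ → ℕ → Bool := onCell 1610612736 536870912 0 1230186008 134217728 67108864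
    (rowN 3 2 false true true .pnn 0 3 3 (qsf 0 536870912 0 1230186008 3) ndN0q0 ndN4q3 pcN3 Cut.none Ext.none)

def k0_pp_033 : ∃ t, chk3 f_pp_033 t 1 1 1 = true :=
  ⟨(a (b (a (b (a (l 16992728) (l 17184400)) (b (l 17095280) (l 17185016))) (b (l 17459976) (a (l 17429296) (l 17507232)))) (b (a (b (l 17354016) (l 17563952)) (l 17790224)) (b (a (l 17798792) (l 17941152)) (a (b (l 18013064) (l 18165280)) (l 18257320))))) (a (b (b (l 17638656) (l 17828032)) (b (a (l 17778080) (l 17865984)) (l 1))) (b (a (l 17821240) (l 4)) (a (b (l 17933856) (l 1)) (l 1))))), by decide +kernel⟩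

theorem c_pp_033 : CertN 0 536870912 0 1230186008 134217728 67108864 3 false true true .pnn 0 3 3
    ndN0q0 ndN4q3 pcN3 Cut.none Ext.none :=
  certN2 (fam := false) (s1 := true) (s2 := true) (a := 0) (b := 3) (c := 3) (cn := .pnn) (n1 := ndN0q0) (n2 := ndN4q3) (pc := pcN3) (cut := Cut.none) (xt := Ext.none) (P1 := 0) (W1 := 536870912) (P2 := 0) (W2 := 1230186008) (P3 := 134217728) (W3 := 67108864) (N0 := 3)
    rfl (fun _ => rfl) k0_pp_033

noncomputable def f_pp_101 : ℕ → ℕ → ℕ → ℕ → Bool := onCell 536870912 536870912 536870912 536870912 134217728 67108864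
    (rowN 3 0 false true true .npn 1 0 1 (qsf 536870912 536870912 536870912 536870912 0) ndN0q1 ndN4q1 pcN0 Cut.none Ext.none)

def k0_pp_101 : ∃ t, chk3 f_pp_101 t 1 1 1 = true :=
  ⟨(a (l 3) (l 5)), by decide +kernel⟩

theorem c_pp_101 : CertN 536870912 536870912 536870912 536870912 134217728 67108864 3 false true true .npn 1 0 1
    ndN0q1 ndN4q1 pcN0 Cut.none Ext.none :=
  certN0 (fam := false) (s1 := true) (s2 := true) (a := 1) (b := 0) (c := 1) (cn := .npn) (n1 := ndN0q1) (n2 := ndN4q1) (pc := pcN0) (cut := Cut.none) (xt := Ext.none) (P1 := 536870912) (W1 := 536870912) (P2 := 536870912) (W2 := 536870912) (P3 := 134217728) (W3 := 67108864) (N0 := 3)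
    rfl k0_pp_101

noncomputable def f_pp_102 : ℕ → ℕ → ℕ → ℕ → Bool := onCell 536870912 536870912 1073741824 536870912 134217728 67108864
    (rowN 3 0 false true true .npp 1 0 2 (qsf 536870912 536870912 1073741824 536870912 0) ndN0q1 ndN4q2 pcN0 Cut.none Ext.none)

def k0_pp_102 : ∃ t, chk3 f_pp_102 t 1 1 1 = true :=
  ⟨(l 3), by decide +kernel⟩

theorem c_pp_102 : CertN 536870912 536870912 1073741824 536870912 134217728 67108864 3 false true true .npp 1 0 2
    ndN0q1 ndN4q2 pcN0 Cut.none Ext.none :=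
  certN0 (fam := false) (s1 := true) (s2 := true) (a := 1) (b := 0) (c := 2) (cn := .npp) (n1 := ndN0q1) (n2 := ndN4q2) (pc := pcN0) (cut := Cut.none) (xt := Ext.none) (P1 := 536870912) (W1 := 536870912) (P2 := 1073741824) (W2 := 536870912) (P3 := 134217728) (W3 := 67108864) (N0 := 3)
    rfl k0_pp_102

noncomputable def f_pp_112 : ℕ → ℕ → ℕ → ℕ → Bool := onCell 536870912 536870912 1073741824 536870912 134217728 67108864
    (rowN 3 0 false true true .dn 1 1 2 (qsf 536870912 536870912 1073741824 536870912 1) ndN0q1 ndN4q2 pcN1 Cut.none Ext.none)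

def k0_pp_112 : ∃ t, chk3 f_pp_112 t 1 1 1 = true :=
  ⟨(l 3), by decide +kernel⟩

theorem c_pp_112 : CertN 536870912 536870912 1073741824 536870912 134217728 67108864 3 false true true .dn 1 1 2
    ndN0q1 ndN4q2 pcN1 Cut.none Ext.none :=
  certN0 (fam := false) (s1 := true) (s2 := true) (a := 1) (b := 1) (c := 2) (cn := .dn) (n1 := ndN0q1) (n2 := ndN4q2) (pc := pcN1) (cut := Cut.none) (xt := Ext.none) (P1 := 536870912) (W1 := 536870912) (P2 := 1073741824) (W2 := 536870912) (P3 := 134217728) (W3 := 67108864) (N0 := 3)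
    rfl k0_pp_112

noncomputable def cut_pp_113 : Cut := Cut.of [[⟨0, 1, 0, 39843005⟩, ⟨1, 1, 0, 39843005⟩, ⟨2, 2, 0, 5814905⟩]]

noncomputable def f_pp_113 : ℕ → ℕ → ℕ → ℕ → Bool := onCell 536870912 536870912 0 1230186008 134217728 67108864
    (rowN 3 2 false true true .nn 1 1 3 (qsf 536870912 536870912 0 1230186008 1) ndN0q1 ndN4q3 pcN1 cut_pp_113 Ext.none)

def k0_pp_113 : ∃ t, chk3 f_pp_113 t 1 1 1 = true :=
  ⟨(b (a (l 2) (a (l 2) (b (a (l 2) (a (l 2) (b (b (l 6) (l 3)) (l 3)))) (l 3)))) (a (b (b (l 2) (l 3)) (a (b (l 2) (l 3)) (l 3))) (b (l 3) (l 3)))), by decide +kernel⟩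

theorem c_pp_113 : CertN 536870912 536870912 0 1230186008 134217728 67108864 3 false true true .nn 1 1 3
    ndN0q1 ndN4q3 pcN1 cut_pp_113 Ext.none :=
  certN2 (fam := false) (s1 := true) (s2 := true) (a := 1) (b := 1) (c := 3) (cn := .nn) (n1 := ndN0q1) (n2 := ndN4q3) (pc := pcN1) (cut := cut_pp_113) (xt := Ext.none) (P1 := 536870912) (W1 := 536870912) (P2 := 0) (W2 := 1230186008) (P3 := 134217728) (W3 := 67108864) (N0 := 3)
    rfl (fun _ => rfl) k0_pp_113

noncomputable def cut_pp_123 : Cut := Cut.of [[⟨0, 1, 0, 39843005⟩, ⟨1, 1, 0, 39843005⟩, ⟨2, 2, 0, 5814905⟩]]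

noncomputable def f_pp_123 : ℕ → ℕ → ℕ → ℕ → Bool := onCell 1073741824 536870912 0 1230186008 134217728 67108864
    (rowN 3 2 false true true .npn 1 2 3 (qsf 536870912 536870912 0 1230186008 2) ndN0q1 ndN4q3 pcN2 cut_pp_123 Ext.none)

def k0_pp_123 : ∃ t, chk3 f_pp_123 t 1 2 1 = true :=
  ⟨(b (a (b (a (a (b (a (l 6) (l 16812456)) (b (a (l 6) (l 16809856)) (b (a (l 6) (l 16894936)) (a (a (l 3) (a (l 3) (a (l 276119470919) (l 16788608)))) (a (l 16820456) (l 16812920)))))) (a (a (l 16841120) (l 16902432)) (a (l 16882472) (l 16907440)))) (a (a (a (l 16931648) (l 16959832)) (l 16983360)) (l 17047048))) (a (a (a (a (l 3) (b (a (l 3) (b (a (b (l 311552963799) (l 3)) (l 250349680663)) (l 3))) (l 3))) (a (b (a (b (a (l 236927921287) (l 16813560)) (l 272361406503)) (b (l 16803000) (l 16848320))) (b (a (l 307258012695) (l 212231862519)) (l 298131255511))) (b (l 16859160) (a (l 211695076647) (l 16816344))))) (a (a (l 16900632) (l 16952992)) (a (l 16870680) (l 16887024)))) (a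 (a (a (l 16910728) (l 16937128)) (l 16965656)) (l 17026456)))) (a (l 17235888) (l 17765112))) (a (b (a (a (a (l 3) (a (l 3) (b (a (l 256255315527) (l 192367739687)) (l 260550323031)))) (a (a (b (l 16916752) (l 176798558999)) (l 16946568)) (a (l 17055224) (l 16898200)))) (a (a (a (l 16920544) (l 16950880)) (l 16980328)) (l 17051632))) (a (a (l 3) (a (a (b (a (l 3) (l 260013578999)) (l 3)) (b (l 16928736) (l 235317552167))) (a (b (l 16904440) (l 16938616)) (l 17009736)))) (a (a (a (l 16973264) (l 17133672)) (l 17027304)) (l 17298464)))) (a (a (b (l 17162144) (l 17217600)) (l 17302640)) (a (l 17421216) (l 17544536))))), by decide +kernel⟩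

def k1_pp_123 : ∃ t, chk3 f_pp_123 t 1 3 1 = true :=
  ⟨(b (a (a (a (l 3) (b (a (a (l 3) (b (l 232633211495) (l 3))) (a (b (l 16973656) (l 242834137575)) (l 17166312))) (a (l 3) (a (b (l 3) (l 3)) (b (l 17091064) (l 17143128)))))) (a (a (a (b (l 17080728) (l 17349736)) (b (a (l 17065752) (l 17070096)) (a (l 17160512) (a (l 17171520) (a (l 17177336) (l 17179672)))))) (b (l 17106136) (l 17211320))) (b (a (l 17165608) (l 17222504)) (l 17423728)))) (a (b (a (l 17300480) (l 17408952)) (a (l 17422776) (l 17540544))) (b (l 17800752) (l 1)))) (a (a (b (a (l 3) (a (l 3) (b (l 3) (l 3)))) (l 3)) (b (a (a (a (b (l 17224464) (l 17290904)) (a (l 17465280) (a (l 17288080) (a (l 17294744) (l 17299976))))) (l 8088349543)) (b (l 17405296) (l 1))) (a (a (a (b (l 192369058455) (l 1)) (l 1)) (l 1)) (l 1)))) (l 1))), by decide +kernel⟩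

theorem s2_pp_123 : ∃ t, chk3 f_pp_123 t 1 1 1 = true := ex3_b k0_pp_123 k1_pp_123

theorem c_pp_123 : CertN 536870912 536870912 0 1230186008 134217728 67108864 3 false true true .npn 1 2 3
    ndN0q1 ndN4q3 pcN2 cut_pp_123 Ext.none :=
  certN2 (fam := false) (s1 := true) (s2 := true) (a := 1) (b := 2) (c := 3) (cn := .npn) (n1 := ndN0q1) (n2 := ndN4q3) (pc := pcN2) (cut := cut_pp_123) (xt := Ext.none) (P1 := 536870912) (W1 := 536870912) (P2 := 0) (W2 := 1230186008) (P3 := 134217728) (W3 := 67108864) (N0 := 3)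
    rfl (fun _ => rfl) s2_pp_123

noncomputable def f_pp_133 : ℕ → ℕ → ℕ → ℕ → Bool := onCell 536870912 536870912 0 1230186008 134217728 67108864
    (rowN 3 0 false true true .dn 1 3 3 (qsf 536870912 536870912 0 1230186008 3) ndN0q1 ndN4q3 pcN3 Cut.none Ext.none)

def k0_pp_133 : ∃ t, chk3 f_pp_133 t 1 1 1 = true :=
  ⟨(b (b (a (a (b (l 16878360) (l 1)) (l 1)) (l 1)) (l 1)) (l 1)), by decide +kernel⟩

theorem c_pp_133 : CertN 536870912 536870912 0 1230186008 134217728 67108864 3 false true true .dn 1 3 3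
    ndN0q1 ndN4q3 pcN3 Cut.none Ext.none :=
  certN0 (fam := false) (s1 := true) (s2 := true) (a := 1) (b := 3) (c := 3) (cn := .dn) (n1 := ndN0q1) (n2 := ndN4q3) (pc := pcN3) (cut := Cut.none) (xt := Ext.none) (P1 := 536870912) (W1 := 536870912) (P2 := 0) (W2 := 1230186008) (P3 := 134217728) (W3 := 67108864) (N0 := 3)
    rfl k0_pp_133

noncomputable def f_pp_202 : ℕ → ℕ → ℕ → ℕ → Bool := onCell 0 536870912 1073741824 536870912 134217728 67108864
    (rowN 3 0 false true true .pp 2 0 2 (qsf 0 536870912 1073741824 536870912 0) ndN0q2 ndN4q2 pcN0 Cut.none Ext.none)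

def k0_pp_202 : ∃ t, chk3 f_pp_202 t 1 1 1 = true :=
  ⟨(l 5), by decide +kernel⟩

theorem c_pp_202 : CertN 0 536870912 1073741824 536870912 134217728 67108864 3 false true true .pp 2 0 2
    ndN0q2 ndN4q2 pcN0 Cut.none Ext.none :=
  certN0 (fam := false) (s1 := true) (s2 := true) (a := 2) (b := 0) (c := 2) (cn := .pp) (n1 := ndN0q2) (n2 := ndN4q2) (pc := pcN0) (cut := Cut.none) (xt := Ext.none) (P1 := 0) (W1 := 536870912) (P2 := 1073741824) (W2 := 536870912) (P3 := 134217728) (W3 := 67108864) (N0 := 3)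
    rfl k0_pp_202

noncomputable def f_pp_203 : ℕ → ℕ → ℕ → ℕ → Bool := onCell 0 536870912 0 1230186008 134217728 67108864
    (rowN 3 0 false true true .up 2 0 3 (qsf 0 536870912 0 1230186008 0) ndN0q2 ndN4q3 pcN0 Cut.none Ext.none)

def k0_pp_203 : ∃ t, chk3 f_pp_203 t 1 1 1 = true :=
  ⟨(b (l 2) (b (l 2) (l 3))), by decide +kernel⟩

theorem c_pp_203 : CertN 0 536870912 0 1230186008 134217728 67108864 3 false true true .up 2 0 3
    ndN0q2 ndN4q3 pcN0 Cut.none Ext.none :=
  certN0 (fam := false) (s1 := true) (s2 := true) (a := 2) (b := 0) (c := 3) (cn := .up) (n1 := ndN0q2) (n2 := ndN4q3) (pc := pcN0) (cut := Cut.none) (xt := Ext.none) (P1 := 0) (W1 := 536870912) (P2 := 0) (W2 := 1230186008) (P3 := 134217728) (W3 := 67108864) (N0 := 3)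
    rfl k0_pp_203

noncomputable def cut_pp_213 : Cut := Cut.of [[⟨0, 1, 0, 39843005⟩, ⟨1, 1, 0, 39843005⟩, ⟨2, 2, 0, 5814905⟩]]

noncomputable def f_pp_213 : ℕ → ℕ → ℕ → ℕ → Bool := onCell 0 536870912 0 1230186008 134217728 67108864
    (rowN 3 0 false true true .pnn 2 1 3 (qsf 0 536870912 0 1230186008 1) ndN0q2 ndN4q3 pcN1 cut_pp_213 Ext.none)

def k0_pp_213 : ∃ t, chk3 f_pp_213 t 1 1 1 = true :=
  ⟨(b (a (l 3) (b (a (l 3) (a (l 3) (b (a (l 3) (b (l 6) (l 3))) (l 3)))) (l 3))) (b (l 3) (l 3))), by decide +kernel⟩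

theorem c_pp_213 : CertN 0 536870912 0 1230186008 134217728 67108864 3 false true true .pnn 2 1 3
    ndN0q2 ndN4q3 pcN1 cut_pp_213 Ext.none :=
  certN0 (fam := false) (s1 := true) (s2 := true) (a := 2) (b := 1) (c := 3) (cn := .pnn) (n1 := ndN0q2) (n2 := ndN4q3) (pc := pcN1) (cut := cut_pp_213) (xt := Ext.none) (P1 := 0) (W1 := 536870912) (P2 := 0) (W2 := 1230186008) (P3 := 134217728) (W3 := 67108864) (N0 := 3)
    rfl k0_pp_213

noncomputable def f_pm_001 : ℕ → ℕ → ℕ → ℕ → Bool := onCell 0 536870912 536870912 536870912 134217728 67108864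
    (rowN 3 0 false true false .up 0 0 1 (qsf 0 536870912 536870912 536870912 0) ndN0q0 ndN4q1 pcN0 Cut.none Ext.none)

def k0_pm_001 : ∃ t, chk3 f_pm_001 t 1 1 1 = true :=
  ⟨(l 4), by decide +kernel⟩

theorem c_pm_001 : CertN 0 536870912 536870912 536870912 134217728 67108864 3 false true false .up 0 0 1
    ndN0q0 ndN4q1 pcN0 Cut.none Ext.none :=
  certN0 (fam := false) (s1 := true) (s2 := false) (a := 0) (b := 0) (c := 1) (cn := .up) (n1 := ndN0q0) (n2 := ndN4q1) (pc := pcN0) (cut := Cut.none) (xt := Ext.none) (P1 := 0) (W1 := 536870912) (P2 := 536870912) (W2 := 536870912) (P3 := 134217728) (W3 := 67108864) (N0 := 3)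
    rfl k0_pm_001

noncomputable def f_pm_011 : ℕ → ℕ → ℕ → ℕ → Bool := onCell 0 536870912 536870912 536870912 134217728 67108864
    (rowN 3 0 false true false .pnn 0 1 1 (qsf 0 536870912 536870912 536870912 1) ndN0q0 ndN4q1 pcN1 Cut.none Ext.none)

def k0_pm_011 : ∃ t, chk3 f_pm_011 t 1 1 1 = true :=
  ⟨(l 4), by decide +kernel⟩

theorem c_pm_011 : CertN 0 536870912 536870912 536870912 134217728 67108864 3 false true false .pnn 0 1 1
    ndN0q0 ndN4q1 pcN1 Cut.none Ext.none :=
  certN0 (fam := false) (s1 := true) (s2 := false) (a := 0) (b := 1) (c := 1) (cn := .pnn) (n1 := ndN0q0) (n2 := ndN4q1) (pc := pcN1) (cut := Cut.none) (xt := Ext.none) (P1 := 0) (W1 := 536870912) (P2 := 536870912) (W2 := 536870912) (P3 := 134217728) (W3 := 67108864) (N0 := 3)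
    rfl k0_pm_011

noncomputable def f_pm_012 : ℕ → ℕ → ℕ → ℕ → Bool := onCell 0 536870912 1073741824 536870912 134217728 67108864
    (rowN 3 0 false true false .pnp 0 1 2 (qsf 0 536870912 1073741824 536870912 1) ndN0q0 ndN4q2 pcN1 Cut.none Ext.none)

def k0_pm_012 : ∃ t, chk3 f_pm_012 t 1 1 1 = true :=
  ⟨(l 4), by decide +kernel⟩

theorem c_pm_012 : CertN 0 536870912 1073741824 536870912 134217728 67108864 3 false true false .pnp 0 1 2
    ndN0q0 ndN4q2 pcN1 Cut.none Ext.none :=
  certN0 (fam := false) (s1 := true) (s2 := false) (a := 0) (b := 1) (c := 2) (cn := .pnp) (n1 := ndN0q0) (n2 := ndN4q2) (pc := pcN1) (cut := Cut.none) (xt := Ext.none) (P1 := 0) (W1 := 536870912) (P2 := 1073741824) (W2 := 536870912) (P3 := 134217728) (W3 := 67108864) (N0 := 3)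
    rfl k0_pm_012

noncomputable def f_pm_022 : ℕ → ℕ → ℕ → ℕ → Bool := onCell 0 536870912 1073741824 536870912 134217728 67108864
    (rowN 3 0 false true false .pp 0 2 2 (qsf 0 536870912 1073741824 536870912 2) ndN0q0 ndN4q2 pcN2 Cut.none Ext.none)

def k0_pm_022 : ∃ t, chk3 f_pm_022 t 1 1 1 = true :=
  ⟨(l 4), by decide +kernel⟩

theorem c_pm_022 : CertN 0 536870912 1073741824 536870912 134217728 67108864 3 false true false .pp 0 2 2
    ndN0q0 ndN4q2 pcN2 Cut.none Ext.none :=
  certN0 (fam := false) (s1 := true) (s2 := false) (a := 0) (b := 2) (c := 2) (cn := .pp) (n1 := ndN0q0) (n2 := ndN4q2) (pc := pcN2) (cut := Cut.none) (xt := Ext.none) (P1 := 0) (W1 := 536870912) (P2 := 1073741824) (W2 := 536870912) (P3 := 134217728) (W3 := 67108864) (N0 := 3)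
    rfl k0_pm_022

noncomputable def f_pm_023 : ℕ → ℕ → ℕ → ℕ → Bool := onCell 0 536870912 0 1230186008 134217728 67108864
    (rowN 3 0 false true false .up 0 2 3 (qsf 0 536870912 0 1230186008 2) ndN0q0 ndN4q3 pcN2 Cut.none Ext.none)

def k0_pm_023 : ∃ t, chk3 f_pm_023 t 1 1 1 = true :=
  ⟨(a (b (l 2) (l 4)) (b (a (l 2) (b (l 17676416) (a (l 17837864) (l 17824120)))) (b (l 4) (l 4)))), by decide +kernel⟩

theorem c_pm_023 : CertN 0 536870912 0 1230186008 134217728 67108864 3 false true false .up 0 2 3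
    ndN0q0 ndN4q3 pcN2 Cut.none Ext.none :=
  certN0 (fam := false) (s1 := true) (s2 := false) (a := 0) (b := 2) (c := 3) (cn := .up) (n1 := ndN0q0) (n2 := ndN4q3) (pc := pcN2) (cut := Cut.none) (xt := Ext.none) (P1 := 0) (W1 := 536870912) (P2 := 0) (W2 := 1230186008) (P3 := 134217728) (W3 := 67108864) (N0 := 3)
    rfl k0_pm_023

noncomputable def f_pm_033 : ℕ → ℕ → ℕ → ℕ → Bool := onCell 1610612736 536870912 0 1230186008 134217728 67108864
    (rowN 3 2 false true false .pnn 0 3 3 (qsf 0 536870912 0 1230186008 3) ndN0q0 ndN4q3 pcN3 Cut.none Ext.none)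

def k0_pm_033 : ∃ t, chk3 f_pm_033 t 1 1 1 = true :=
  ⟨(b (a (a (b (a (l 17282768) (l 17366792)) (a (l 17466248) (l 4))) (b (l 17511120) (l 4))) (l 4)) (l 4)), by decide +kernel⟩

theorem c_pm_033 : CertN 0 536870912 0 1230186008 134217728 67108864 3 false true false .pnn 0 3 3
    ndN0q0 ndN4q3 pcN3 Cut.none Ext.none :=
  certN2 (fam := false) (s1 := true) (s2 := false) (a := 0) (b := 3) (c := 3) (cn := .pnn) (n1 := ndN0q0) (n2 := ndN4q3) (pc := pcN3) (cut := Cut.none) (xt := Ext.none) (P1 := 0) (W1 := 536870912) (P2 := 0) (W2 := 1230186008) (P3 := 134217728) (W3 := 67108864) (N0 := 3)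
    rfl (fun _ => rfl) k0_pm_033

noncomputable def f_pm_101 : ℕ → ℕ → ℕ → ℕ → Bool := onCell 536870912 536870912 536870912 536870912 134217728 67108864
    (rowN 3 0 false true false .npn 1 0 1 (qsf 536870912 536870912 536870912 536870912 0) ndN0q1 ndN4q1 pcN0 Cut.none Ext.none)

def k0_pm_101 : ∃ t, chk3 f_pm_101 t 1 1 1 = true :=
  ⟨(l 4), by decide +kernel⟩

theorem c_pm_101 : CertN 536870912 536870912 536870912 536870912 134217728 67108864 3 false true false .npn 1 0 1
    ndN0q1 ndN4q1 pcN0 Cut.none Ext.none :=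
  certN0 (fam := false) (s1 := true) (s2 := false) (a := 1) (b := 0) (c := 1) (cn := .npn) (n1 := ndN0q1) (n2 := ndN4q1) (pc := pcN0) (cut := Cut.none) (xt := Ext.none) (P1 := 536870912) (W1 := 536870912) (P2 := 536870912) (W2 := 536870912) (P3 := 134217728) (W3 := 67108864) (N0 := 3)
    rfl k0_pm_101

noncomputable def f_pm_102 : ℕ → ℕ → ℕ → ℕ → Bool := onCell 536870912 536870912 0 536870912 134217728 67108864
    (rowN 3 1 false true false .npp 1 0 2 (qsf 536870912 536870912 1073741824 536870912 0) ndN0q1 ndN4q2 pcN0 Cut.none Ext.none)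

def k0_pm_102 : ∃ t, chk3 f_pm_102 t 1 1 1 = true :=
  ⟨(a (l 4) (b (b (a (l 4) (a (l 19078408) (l 18772112))) (a (b (l 4) (l 18928792)) (b (l 18670088) (a (l 18641576) (l 18152976))))) (b (a (a (l 4) (l 19029896311)) (b (a (l 18441728) (l 18100256)) (a (l 18182136) (a (l 17752128) (l 17538880))))) (a (b (a (l 4) (l 18566408)) (a (l 4) (l 18414688))) (a (b (a (l 18070936) (l 17706784)) (a (l 17685736) (l 17424160))) (b (a (l 17462056) (l 17419792)) (l 17545824))))))), by decide +kernel⟩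

theorem c_pm_102 : CertN 536870912 536870912 1073741824 536870912 134217728 67108864 3 false true false .npp 1 0 2
    ndN0q1 ndN4q2 pcN0 Cut.none Ext.none :=
  certN1 (fam := false) (s1 := true) (s2 := false) (a := 1) (b := 0) (c := 2) (cn := .npp) (n1 := ndN0q1) (n2 := ndN4q2) (pc := pcN0) (cut := Cut.none) (xt := Ext.none) (P1 := 536870912) (W1 := 536870912) (P2 := 1073741824) (W2 := 536870912) (P3 := 134217728) (W3 := 67108864) (N0 := 3)
    rfl (fun _ => rfl) k0_pm_102

noncomputable def f_pm_112 : ℕ → ℕ → ℕ → ℕ → Bool := onCell 536870912 536870912 1073741824 536870912 134217728 67108864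
    (rowN 3 2 false true false .dn 1 1 2 (qsf 536870912 536870912 1073741824 536870912 1) ndN0q1 ndN4q2 pcN1 Cut.none Ext.none)

def k0_pm_112 : ∃ t, chk3 f_pm_112 t 1 1 1 = true :=
  ⟨(b (l 4) (a (a (b (l 18816544) (a (l 18497960) (l 18510256))) (b (l 4) (l 18779504))) (a (b (l 4) (l 19051536)) (l 4)))), by decide +kernel⟩

theorem c_pm_112 : CertN 536870912 536870912 1073741824 536870912 134217728 67108864 3 false true false .dn 1 1 2
    ndN0q1 ndN4q2 pcN1 Cut.none Ext.none :=
  certN2 (fam := false) (s1 := true) (s2 := false) (a := 1) (b := 1) (c := 2) (cn := .dn) (n1 := ndN0q1) (n2 := ndN4q2) (pc := pcN1) (cut := Cut.none) (xt := Ext.none) (P1 := 536870912) (W1 := 536870912) (P2 := 1073741824) (W2 := 536870912) (P3 := 134217728) (W3 := 67108864) (N0 := 3)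
    rfl (fun _ => rfl) k0_pm_112

noncomputable def cut_pm_113 : Cut := Cut.of [[⟨0, 1, 0, 39843005⟩, ⟨1, 1, 0, 39843005⟩, ⟨2, 2, 0, 5814905⟩]]

noncomputable def f_pm_113 : ℕ → ℕ → ℕ → ℕ → Bool := onCell 536870912 536870912 0 1230186008 134217728 67108864
    (rowN 3 2 false true false .nn 1 1 3 (qsf 536870912 536870912 0 1230186008 1) ndN0q1 ndN4q3 pcN1 cut_pm_113 Ext.none)

def k0_pm_113 : ∃ t, chk3 f_pm_113 t 1 1 1 = true :=
  ⟨(b (a (l 2) (a (l 2) (b (a (l 2) (a (l 2) (b (b (l 6) (l 876274058583)) (l 778026956871)))) (a (b (l 1614471810519) (l 730782768071)) (b (l 17099144) (l 16963160)))))) (b (a (a (l 2) (b (l 2) (a (l 2) (b (l 2) (l 939089246855))))) (b (a (a (l 2) (b (l 17193824) (l 17130512))) (a (l 17119000) (l 17083680))) (a (a (b (l 17205504) (l 17179632)) (b (l 17115104) (l 17133728))) (a (l 17299472) (l 17705416))))) (a (a (b (l 2) (b (a (l 2) (l 17337320)) (a (l 17387544) (l 17447144)))) (b (a (b (l 902045289319) (l 17280672)) (b (l 17235288) (l 17194776)))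 (a (b (l 17311872) (l 17575408)) (l 17787880)))) (b (a (b (l 17339424) (a (l 17484832) (l 17778752))) (a (a (l 17876648) (l 18060648)) (l 18533296))) (a (a (b (l 17799176) (l 18084544)) (l 18224536)) (a (a (l 18417200) (l 18548712)) (l 18741608))))))), by decide +kernel⟩

theorem c_pm_113 : CertN 536870912 536870912 0 1230186008 134217728 67108864 3 false true false .nn 1 1 3
    ndN0q1 ndN4q3 pcN1 cut_pm_113 Ext.none :=
  certN2 (fam := false) (s1 := true) (s2 := false) (a := 1) (b := 1) (c := 3) (cn := .nn) (n1 := ndN0q1) (n2 := ndN4q3) (pc := pcN1) (cut := cut_pm_113) (xt := Ext.none) (P1 := 536870912) (W1 := 536870912) (P2 := 0) (W2 := 1230186008) (P3 := 134217728) (W3 := 67108864) (N0 := 3)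
    rfl (fun _ => rfl) k0_pm_113

noncomputable def cut_pm_123 : Cut := Cut.of [[⟨0, 1, 0, 39843005⟩, ⟨1, 1, 0, 39843005⟩, ⟨2, 2, 0, 5814905⟩]]

noncomputable def f_pm_123 : ℕ → ℕ → ℕ → ℕ → Bool := onCell 1073741824 536870912 0 1230186008 134217728 67108864
    (rowN 3 2 false true false .npn 1 2 3 (qsf 536870912 536870912 0 1230186008 2) ndN0q1 ndN4q3 pcN2 cut_pm_123 Ext.none)

def k0_pm_123 : ∃ t, chk3 f_pm_123 t 1 1 1 = true :=
  ⟨(b (b (a (a (a (b (a (b (l 6) (l 16795200)) (l 16835968)) (a (l 16857968) (l 16919200))) (a (a (l 16939904) (b (l 16989936) (l 17013032))) (a (l 17178072) (l 17020136)))) (a (a (a (l 17048816) (b (l 17021192) (l 17137720))) (l 17112352)) (l 17192544))) (a (a (l 17342408) (l 17465000)) (l 17578032))) (a (b (a (a (l 17048992) (a (a (l 17157640) (l 17187936)) (l 17219784))) (a (a (l 17297912) (l 17363120)) (l 17453176))) (a (a (l 17317408) (a (a (l 17409176) (l 17439040)) (l 17478928))) (a (l 17669912) (l 17691896)))) (a (b (l 17597200) (l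 17816328)) (l 17785144)))) (b (b (a (a (a (l 17641208) (l 17778840)) (l 18058200)) (a (l 18253816) (l 4))) (a (a (l 18129048) (a (l 18248800) (l 18266712))) (l 4))) (a (a (b (l 29229754247) (l 4)) (l 4)) (l 1)))), by decide +kernel⟩

theorem c_pm_123 : CertN 536870912 536870912 0 1230186008 134217728 67108864 3 false true false .npn 1 2 3
    ndN0q1 ndN4q3 pcN2 cut_pm_123 Ext.none :=
  certN2 (fam := false) (s1 := true) (s2 := false) (a := 1) (b := 2) (c := 3) (cn := .npn) (n1 := ndN0q1) (n2 := ndN4q3) (pc := pcN2) (cut := cut_pm_123) (xt := Ext.none) (P1 := 536870912) (W1 := 536870912) (P2 := 0) (W2 := 1230186008) (P3 := 134217728) (W3 := 67108864) (N0 := 3)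
    rfl (fun _ => rfl) k0_pm_123

noncomputable def f_pm_133 : ℕ → ℕ → ℕ → ℕ → Bool := onCell 536870912 536870912 0 1230186008 134217728 67108864
    (rowN 3 0 false true false .dn 1 3 3 (qsf 536870912 536870912 0 1230186008 3) ndN0q1 ndN4q3 pcN3 Cut.none Ext.none)

def k0_pm_133 : ∃ t, chk3 f_pm_133 t 1 1 1 = true :=
  ⟨(b (b (a (a (a (l 17048032) (l 1)) (l 1)) (l 1)) (l 1)) (l 1)), by decide +kernel⟩

theorem c_pm_133 : CertN 536870912 536870912 0 1230186008 134217728 67108864 3 false true false .dn 1 3 3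
    ndN0q1 ndN4q3 pcN3 Cut.none Ext.none :=
  certN0 (fam := false) (s1 := true) (s2 := false) (a := 1) (b := 3) (c := 3) (cn := .dn) (n1 := ndN0q1) (n2 := ndN4q3) (pc := pcN3) (cut := Cut.none) (xt := Ext.none) (P1 := 536870912) (W1 := 536870912) (P2 := 0) (W2 := 1230186008) (P3 := 134217728) (W3 := 67108864) (N0 := 3)
    rfl k0_pm_133

noncomputable def f_pm_202 : ℕ → ℕ → ℕ → ℕ → Bool := onCell 0 536870912 0 536870912 134217728 67108864
    (rowN 3 1 false true false .pp 2 0 2 (qsf 0 536870912 1073741824 536870912 0) ndN0q2 ndN4q2 pcN0 Cut.none Ext.none)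

def k0_pm_202 : ∃ t, chk3 f_pm_202 t 1 1 1 = true :=
  ⟨(b (a (b (a (a (b (b (b (l 16921200) (a (l 16849344) (l 16751360))) (a (b (a (l 17113856) (l 17100552)) (l 17250976)) (l 17143712))) (b (c (l 17573976) (l 17183160)) (a (l 17444944) (l 17471464)))) (b (b (l 17273880) (l 17006960)) (b (l 17350280) (l 17493816)))) (a (b (b (l 17383072) (l 17254336)) (b (l 17238872) (l 17450912))) (b (b (l 17634880) (l 17533584)) (b (l 17391488) (l 17410336))))) (a (a (b (a (b (l 154250763831) (l 158545735735)) (l 17487952)) (l 167135876583)) (b (l 17536104) (l 17485512))) (b (a (b (l 17558392) (l 17591472)) (b (l 17511632) (l 17590632))) (a (l 17565616) (a (l 17606400) (l 17631712)))))) (b (a (b (a (l 17819200) (l 18065976)) (a (b (l 17684248) (l 17560752)) (l 17908472))) (b (l 18569712) (a (l 18119832) (l 18296240)))) (a (b (a (l 17805648) (b (l 17775224) (l 17671968))) (a (l 17616496) (l 17604568))) (a (b (l 17885128) (l 17760192)) (b (l 18061592) (l 17830168)))))) (a (b (a (a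 (b (l 182704911863) (l 3)) (b (l 126333613559) (l 178946770071))) (b (a (l 17479752) (l 17568520)) (a (l 17374728) (l 17488016)))) (a (l 2) (b (l 1473811918807) (l 2)))) (b (a (b (l 17696648) (l 17779520)) (b (a (l 17584016) (l 17563952)) (a (l 17699016) (l 17520464)))) (a (b (l 17514040) (l 2)) (b (l 17791656) (l 17703168)))))), by decide +kernel⟩

theorem c_pm_202 : CertN 0 536870912 1073741824 536870912 134217728 67108864 3 false true false .pp 2 0 2
    ndN0q2 ndN4q2 pcN0 Cut.none Ext.none :=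
  certN1 (fam := false) (s1 := true) (s2 := false) (a := 2) (b := 0) (c := 2) (cn := .pp) (n1 := ndN0q2) (n2 := ndN4q2) (pc := pcN0) (cut := Cut.none) (xt := Ext.none) (P1 := 0) (W1 := 536870912) (P2 := 1073741824) (W2 := 536870912) (P3 := 134217728) (W3 := 67108864) (N0 := 3)
    rfl (fun _ => rfl) k0_pm_202

noncomputable def f_pm_203 : ℕ → ℕ → ℕ → ℕ → Bool := onCell 0 536870912 0 1230186008 134217728 67108864
    (rowN 3 0 false true false .up 2 0 3 (qsf 0 536870912 0 1230186008 0) ndN0q2 ndN4q3 pcN0 Cut.none Ext.none)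

def k0_pm_203 : ∃ t, chk3 f_pm_203 t 1 1 1 = true :=
  ⟨(b (l 2) (b (l 2) (a (b (a (l 3) (b (l 2) (a (l 231023241447) (l 198744108007)))) (a (a (l 3) (b (l 3) (a (l 3) (l 176799768711)))) (b (a (a (l 199348091159) (l 17430216)) (l 17518976)) (a (b (l 17525008) (l 17606792)) (l 17657784))))) (b (l 2) (a (b (a (l 17640392) (l 17767792)) (a (l 17758360) (l 17846760))) (b (l 17916504) (l 17955504))))))), by decide +kernel⟩

theorem c_pm_203 : CertN 0 536870912 0 1230186008 134217728 67108864 3 false true false .up 2 0 3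
    ndN0q2 ndN4q3 pcN0 Cut.none Ext.none :=
  certN0 (fam := false) (s1 := true) (s2 := false) (a := 2) (b := 0) (c := 3) (cn := .up) (n1 := ndN0q2) (n2 := ndN4q3) (pc := pcN0) (cut := Cut.none) (xt := Ext.none) (P1 := 0) (W1 := 536870912) (P2 := 0) (W2 := 1230186008) (P3 := 134217728) (W3 := 67108864) (N0 := 3)
    rfl k0_pm_203

noncomputable def cut_pm_213 : Cut := Cut.of [[⟨0, 1, 0, 39843005⟩, ⟨1, 1, 0, 39843005⟩, ⟨2, 2, 0, 5814905⟩]]

noncomputable def f_pm_213 : ℕ → ℕ → ℕ → ℕ → Bool := onCell 0 536870912 0 1230186008 134217728 67108864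
    (rowN 3 0 false true false .pnn 2 1 3 (qsf 0 536870912 0 1230186008 1) ndN0q2 ndN4q3 pcN1 cut_pm_213 Ext.none)

def k0_pm_213 : ∃ t, chk3 f_pm_213 t 1 1 1 = true :=
  ⟨(b (a (l 3) (b (a (l 3) (a (b (l 3) (a (l 3) (b (a (l 3) (l 309942343159)) (a (b (l 3) (l 305647386887)) (b (l 265382075751) (l 258939678759)))))) (b (a (b (l 3) (a (l 3) (b (l 6) (a (l 296520553623) (b (l 6) (l 266455787559)))))) (b (l 6) (a (b (l 6) (a (l 16791064) (l 16796624))) (l 16799608)))) (a (b (a (b (l 291688724919) (a (l 294909961607) (l 262697726615))) (b (b (l 249812807239) (l 16797816)) (l 16807792))) (a (l 16792488) (l 16829856))) (b (l 16817968) (l 16846792)))))) (a (a (l 3) (b (a (l 3) (b (l 3) (l 322290457959))) (a (b (l 3) (l 292762702455)) (b (l 250349891111) (l 16931056))))) (a (b (a (b (a (l 3) (l 305647459367)) (l 248202394551)) (b (b (l 249812888215) (l 16844424)) (l 16873864))) (b (a (l 16897792) (l 16917592)) (l 16956216))) (b (a (l 16876592) (l 16899856)) (l 16974192))))))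 (b (a (b (l 3) (a (l 3) (a (l 3) (b (l 3) (l 230486113815))))) (b (a (a (b (l 306721422935) (l 238538942375)) (b (l 226727985591) (l 17040688))) (a (l 17039264) (l 17078552))) (a (a (b (l 220822357863) (l 17148848)) (b (l 17101304) (l 17155640))) (a (l 17151328) (l 17169960))))) (a (b (a (l 3) (a (b (l 3) (l 248740047111)) (b (l 216527608247) (l 199348350807)))) (b (a (l 1) (a (l 1) (l 17285024))) (l 1))) (b (a (b (l 17381848) (a (l 17226888) (l 17219248))) (a (l 17208288) (l 17249232))) (a (b (a (l 17228544) (l 17213632)) (l 1)) (b (l 17268288) (l 17425064))))))), by decide +kernel⟩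

theorem c_pm_213 : CertN 0 536870912 0 1230186008 134217728 67108864 3 false true false .pnn 2 1 3
    ndN0q2 ndN4q3 pcN1 cut_pm_213 Ext.none :=
  certN0 (fam := false) (s1 := true) (s2 := false) (a := 2) (b := 1) (c := 3) (cn := .pnn) (n1 := ndN0q2) (n2 := ndN4q3) (pc := pcN1) (cut := cut_pm_213) (xt := Ext.none) (P1 := 0) (W1 := 536870912) (P2 := 0) (W2 := 1230186008) (P3 := 134217728) (W3 := 67108864) (N0 := 3)
    rfl k0_pm_213

noncomputable def f_mm_001 : ℕ → ℕ → ℕ → ℕ → Bool := onCell 0 536870912 0 536870912 134217728 67108864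
    (rowN 3 1 false false false .up 0 0 1 (qsf 0 536870912 536870912 536870912 0) ndN0q0 ndN4q1 pcN0 Cut.none Ext.none)

def k0_mm_001 : ∃ t, chk3 f_mm_001 t 1 1 1 = true :=
  ⟨(l 3), by decide +kernel⟩

theorem c_mm_001 : CertN 0 536870912 536870912 536870912 134217728 67108864 3 false false false .up 0 0 1
    ndN0q0 ndN4q1 pcN0 Cut.none Ext.none :=
  certN1 (fam := false) (s1 := false) (s2 := false) (a := 0) (b := 0) (c := 1) (cn := .up) (n1 := ndN0q0) (n2 := ndN4q1) (pc := pcN0) (cut := Cut.none) (xt := Ext.none) (P1 := 0) (W1 := 536870912) (P2 := 536870912) (W2 := 536870912) (P3 := 134217728) (W3 := 67108864) (N0 := 3)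
    rfl (fun _ => rfl) k0_mm_001

noncomputable def f_mm_011 : ℕ → ℕ → ℕ → ℕ → Bool := onCell 0 536870912 536870912 536870912 134217728 67108864
    (rowN 3 1 false false false .pnn 0 1 1 (qsf 0 536870912 536870912 536870912 1) ndN0q0 ndN4q1 pcN1 Cut.none Ext.none)

def k0_mm_011 : ∃ t, chk3 f_mm_011 t 1 1 1 = true :=
  ⟨(l 5), by decide +kernel⟩

theorem c_mm_011 : CertN 0 536870912 536870912 536870912 134217728 67108864 3 false false false .pnn 0 1 1
    ndN0q0 ndN4q1 pcN1 Cut.none Ext.none :=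
  certN1 (fam := false) (s1 := false) (s2 := false) (a := 0) (b := 1) (c := 1) (cn := .pnn) (n1 := ndN0q0) (n2 := ndN4q1) (pc := pcN1) (cut := Cut.none) (xt := Ext.none) (P1 := 0) (W1 := 536870912) (P2 := 536870912) (W2 := 536870912) (P3 := 134217728) (W3 := 67108864) (N0 := 3)
    rfl (fun _ => rfl) k0_mm_011

noncomputable def f_mm_012 : ℕ → ℕ → ℕ → ℕ → Bool := onCell 0 536870912 1073741824 536870912 134217728 67108864
    (rowN 3 0 false false false .pnp 0 1 2 (qsf 0 536870912 1073741824 536870912 1) ndN0q0 ndN4q2 pcN1 Cut.none Ext.none)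

def k0_mm_012 : ∃ t, chk3 f_mm_012 t 1 1 1 = true :=
  ⟨(l 5), by decide +kernel⟩

theorem c_mm_012 : CertN 0 536870912 1073741824 536870912 134217728 67108864 3 false false false .pnp 0 1 2
    ndN0q0 ndN4q2 pcN1 Cut.none Ext.none :=
  certN0 (fam := false) (s1 := false) (s2 := false) (a := 0) (b := 1) (c := 2) (cn := .pnp) (n1 := ndN0q0) (n2 := ndN4q2) (pc := pcN1) (cut := Cut.none) (xt := Ext.none) (P1 := 0) (W1 := 536870912) (P2 := 1073741824) (W2 := 536870912) (P3 := 134217728) (W3 := 67108864) (N0 := 3)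
    rfl k0_mm_012

noncomputable def f_mm_022 : ℕ → ℕ → ℕ → ℕ → Bool := onCell 0 536870912 1073741824 536870912 134217728 67108864
    (rowN 3 0 false false false .pp 0 2 2 (qsf 0 536870912 1073741824 536870912 2) ndN0q0 ndN4q2 pcN2 Cut.none Ext.none)

def k0_mm_022 : ∃ t, chk3 f_mm_022 t 1 1 1 = true :=
  ⟨(l 5), by decide +kernel⟩

theorem c_mm_022 : CertN 0 536870912 1073741824 536870912 134217728 67108864 3 false false false .pp 0 2 2
    ndN0q0 ndN4q2 pcN2 Cut.none Ext.none :=
  certN0 (fam := false) (s1 := false) (s2 := false) (a := 0) (b := 2) (c := 2) (cn := .pp) (n1 := ndN0q0) (n2 := ndN4q2) (pc := pcN2) (cut := Cut.none) (xt := Ext.none) (P1 := 0) (W1 := 536870912) (P2 := 1073741824) (W2 := 536870912) (P3 := 134217728) (W3 := 67108864) (N0 := 3)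
    rfl k0_mm_022

noncomputable def f_mm_023 : ℕ → ℕ → ℕ → ℕ → Bool := onCell 0 536870912 0 1230186008 134217728 67108864
    (rowN 3 0 false false false .up 0 2 3 (qsf 0 536870912 0 1230186008 2) ndN0q0 ndN4q3 pcN2 Cut.none Ext.none)

def k0_mm_023 : ∃ t, chk3 f_mm_023 t 1 1 1 = true :=
  ⟨(l 5), by decide +kernel⟩

theorem c_mm_023 : CertN 0 536870912 0 1230186008 134217728 67108864 3 false false false .up 0 2 3
    ndN0q0 ndN4q3 pcN2 Cut.none Ext.none :=
  certN0 (fam := false) (s1 := false) (s2 := false) (a := 0) (b := 2) (c := 3) (cn := .up) (n1 := ndN0q0) (n2 := ndN4q3) (pc := pcN2) (cut := Cut.none) (xt := Ext.none) (P1 := 0) (W1 := 536870912) (P2 := 0) (W2 := 1230186008) (P3 := 134217728) (W3 := 67108864) (N0 := 3)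
    rfl k0_mm_023

noncomputable def f_mm_033 : ℕ → ℕ → ℕ → ℕ → Bool := onCell 0 536870912 0 1230186008 134217728 67108864
    (rowN 3 0 false false false .pnn 0 3 3 (qsf 0 536870912 0 1230186008 3) ndN0q0 ndN4q3 pcN3 Cut.none Ext.none)

def k0_mm_033 : ∃ t, chk3 f_mm_033 t 1 1 1 = true :=
  ⟨(l 5), by decide +kernel⟩

theorem c_mm_033 : CertN 0 536870912 0 1230186008 134217728 67108864 3 false false false .pnn 0 3 3
    ndN0q0 ndN4q3 pcN3 Cut.none Ext.none :=
  certN0 (fam := false) (s1 := false) (s2 := false) (a := 0) (b := 3) (c := 3) (cn := .pnn) (n1 := ndN0q0) (n2 := ndN4q3) (pc := pcN3) (cut := Cut.none) (xt := Ext.none) (P1 := 0) (W1 := 536870912) (P2 := 0) (W2 := 1230186008) (P3 := 134217728) (W3 := 67108864) (N0 := 3)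
    rfl k0_mm_033

noncomputable def cut_mm_101 : Cut := Cut.of [[⟨0, 1, 0, 67108864⟩, ⟨1, 0, 0, 67108864⟩, ⟨2, 1, 0, 67108864⟩]]

noncomputable def f_mm_101 : ℕ → ℕ → ℕ → ℕ → Bool := onCell 536870912 536870912 0 536870912 134217728 67108864
    (rowN 3 1 false false false .npn 1 0 1 (qsf 536870912 536870912 536870912 536870912 0) ndN0q1 ndN4q1 pcN0 cut_mm_101 Ext.none)

def k0_mm_101 : ∃ t, chk3 f_mm_101 t 1 1 1 = true :=
  ⟨(a (l 3) (b (a (l 3) (b (a (l 3) (b (b (a (l 3) (l 6)) (l 3)) (l 3))) (l 3))) (l 3))), by decide +kernel⟩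

theorem c_mm_101 : CertN 536870912 536870912 536870912 536870912 134217728 67108864 3 false false false .npn 1 0 1
    ndN0q1 ndN4q1 pcN0 cut_mm_101 Ext.none :=
  certN1 (fam := false) (s1 := false) (s2 := false) (a := 1) (b := 0) (c := 1) (cn := .npn) (n1 := ndN0q1) (n2 := ndN4q1) (pc := pcN0) (cut := cut_mm_101) (xt := Ext.none) (P1 := 536870912) (W1 := 536870912) (P2 := 536870912) (W2 := 536870912) (P3 := 134217728) (W3 := 67108864) (N0 := 3)
    rfl (fun _ => rfl) k0_mm_101

noncomputable def f_mm_102 : ℕ → ℕ → ℕ → ℕ → Bool := onCell 536870912 536870912 1073741824 536870912 134217728 67108864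
    (rowN 3 0 false false false .npp 1 0 2 (qsf 536870912 536870912 1073741824 536870912 0) ndN0q1 ndN4q2 pcN0 Cut.none Ext.none)

def k0_mm_102 : ∃ t, chk3 f_mm_102 t 1 1 1 = true :=
  ⟨(l 3), by decide +kernel⟩

theorem c_mm_102 : CertN 536870912 536870912 1073741824 536870912 134217728 67108864 3 false false false .npp 1 0 2
    ndN0q1 ndN4q2 pcN0 Cut.none Ext.none :=
  certN0 (fam := false) (s1 := false) (s2 := false) (a := 1) (b := 0) (c := 2) (cn := .npp) (n1 := ndN0q1) (n2 := ndN4q2) (pc := pcN0) (cut := Cut.none) (xt := Ext.none) (P1 := 536870912) (W1 := 536870912) (P2 := 1073741824) (W2 := 536870912) (P3 := 134217728) (W3 := 67108864) (N0 := 3)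
    rfl k0_mm_102

noncomputable def f_mm_112 : ℕ → ℕ → ℕ → ℕ → Bool := onCell 536870912 536870912 1073741824 536870912 134217728 67108864
    (rowN 3 0 false false false .dn 1 1 2 (qsf 536870912 536870912 1073741824 536870912 1) ndN0q1 ndN4q2 pcN1 Cut.none Ext.none)

def k0_mm_112 : ∃ t, chk3 f_mm_112 t 1 1 1 = true :=
  ⟨(l 3), by decide +kernel⟩

theorem c_mm_112 : CertN 536870912 536870912 1073741824 536870912 134217728 67108864 3 false false false .dn 1 1 2
    ndN0q1 ndN4q2 pcN1 Cut.none Ext.none :=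
  certN0 (fam := false) (s1 := false) (s2 := false) (a := 1) (b := 1) (c := 2) (cn := .dn) (n1 := ndN0q1) (n2 := ndN4q2) (pc := pcN1) (cut := Cut.none) (xt := Ext.none) (P1 := 536870912) (W1 := 536870912) (P2 := 1073741824) (W2 := 536870912) (P3 := 134217728) (W3 := 67108864) (N0 := 3)
    rfl k0_mm_112

noncomputable def f_mm_113 : ℕ → ℕ → ℕ → ℕ → Bool := onCell 536870912 536870912 0 1230186008 134217728 67108864
    (rowN 3 0 false false false .nn 1 1 3 (qsf 536870912 536870912 0 1230186008 1) ndN0q1 ndN4q3 pcN1 Cut.none Ext.none)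

def k0_mm_113 : ∃ t, chk3 f_mm_113 t 1 1 1 = true :=
  ⟨(b (l 5) (a (l 5) (b (l 5) (l 3)))), by decide +kernel⟩

theorem c_mm_113 : CertN 536870912 536870912 0 1230186008 134217728 67108864 3 false false false .nn 1 1 3
    ndN0q1 ndN4q3 pcN1 Cut.none Ext.none :=
  certN0 (fam := false) (s1 := false) (s2 := false) (a := 1) (b := 1) (c := 3) (cn := .nn) (n1 := ndN0q1) (n2 := ndN4q3) (pc := pcN1) (cut := Cut.none) (xt := Ext.none) (P1 := 536870912) (W1 := 536870912) (P2 := 0) (W2 := 1230186008) (P3 := 134217728) (W3 := 67108864) (N0 := 3)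
    rfl k0_mm_113

noncomputable def f_mm_123 : ℕ → ℕ → ℕ → ℕ → Bool := onCell 1073741824 536870912 0 1230186008 134217728 67108864
    (rowN 3 2 false false false .npn 1 2 3 (qsf 536870912 536870912 0 1230186008 2) ndN0q1 ndN4q3 pcN2 Cut.none Ext.none)

def k0_mm_123 : ∃ t, chk3 f_mm_123 t 1 1 1 = true :=
  ⟨(b (l 5) (l 5)), by decide +kernel⟩

theorem c_mm_123 : CertN 536870912 536870912 0 1230186008 134217728 67108864 3 false false false .npn 1 2 3
    ndN0q1 ndN4q3 pcN2 Cut.none Ext.none :=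
  certN2 (fam := false) (s1 := false) (s2 := false) (a := 1) (b := 2) (c := 3) (cn := .npn) (n1 := ndN0q1) (n2 := ndN4q3) (pc := pcN2) (cut := Cut.none) (xt := Ext.none) (P1 := 536870912) (W1 := 536870912) (P2 := 0) (W2 := 1230186008) (P3 := 134217728) (W3 := 67108864) (N0 := 3)
    rfl (fun _ => rfl) k0_mm_123

noncomputable def f_mm_133 : ℕ → ℕ → ℕ → ℕ → Bool := onCell 1610612736 536870912 0 1230186008 134217728 67108864
    (rowN 3 2 false false false .dn 1 3 3 (qsf 536870912 536870912 0 1230186008 3) ndN0q1 ndN4q3 pcN3 Cut.none Ext.none)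

def k0_mm_133 : ∃ t, chk3 f_mm_133 t 1 1 1 = true :=
  ⟨(l 5), by decide +kernel⟩

theorem c_mm_133 : CertN 536870912 536870912 0 1230186008 134217728 67108864 3 false false false .dn 1 3 3
    ndN0q1 ndN4q3 pcN3 Cut.none Ext.none :=
  certN2 (fam := false) (s1 := false) (s2 := false) (a := 1) (b := 3) (c := 3) (cn := .dn) (n1 := ndN0q1) (n2 := ndN4q3) (pc := pcN3) (cut := Cut.none) (xt := Ext.none) (P1 := 536870912) (W1 := 536870912) (P2 := 0) (W2 := 1230186008) (P3 := 134217728) (W3 := 67108864) (N0 := 3)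
    rfl (fun _ => rfl) k0_mm_133

noncomputable def f_mm_202 : ℕ → ℕ → ℕ → ℕ → Bool := onCell 0 536870912 0 536870912 134217728 67108864
    (rowN 3 1 false false false .pp 2 0 2 (qsf 0 536870912 1073741824 536870912 0) ndN0q2 ndN4q2 pcN0 Cut.none Ext.none)

def k0_mm_202 : ∃ t, chk3 f_mm_202 t 1 1 1 = true :=
  ⟨(b (a (b (a (a (b (b (a (b (a (l 16546376) (a (l 16606824) (c (l 17000824) (l 16536680)))) (c (a (l 17236480) (l 17240088)) (a (l 16571808) (l 16583352)))) (a (b (b (c (a (l 16934296) (l 144049086711)) (l 149954300567)) (c (l 142438666119) (l 16510200))) (c (l 144586599415) (l 143512075015))) (l 3))) (b (a (c (l 17380232) (l 16829056)) (c (l 149419023207) (l 147270475863))) (c (l 148882346199) (l 146733953415)))) (a (b (c (l 148882405815) (l 147271196311)) (l 155324737335)) (l 3))) (l 3)) (l 3)) (l 3)) (l 3)) (l 3)), by decide +kernel⟩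

theorem c_mm_202 : CertN 0 536870912 1073741824 536870912 134217728 67108864 3 false false false .pp 2 0 2
    ndN0q2 ndN4q2 pcN0 Cut.none Ext.none :=
  certN1 (fam := false) (s1 := false) (s2 := false) (a := 2) (b := 0) (c := 2) (cn := .pp) (n1 := ndN0q2) (n2 := ndN4q2) (pc := pcN0) (cut := Cut.none) (xt := Ext.none) (P1 := 0) (W1 := 536870912) (P2 := 1073741824) (W2 := 536870912) (P3 := 134217728) (W3 := 67108864) (N0 := 3)
    rfl (fun _ => rfl) k0_mm_202

noncomputable def f_mm_203 : ℕ → ℕ → ℕ → ℕ → Bool := onCell 0 536870912 0 1230186008 134217728 67108864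
    (rowN 3 0 false false false .up 2 0 3 (qsf 0 536870912 0 1230186008 0) ndN0q2 ndN4q3 pcN0 Cut.none Ext.none)

def k0_mm_203 : ∃ t, chk3 f_mm_203 t 1 1 1 = true :=
  ⟨(b (l 2) (b (l 2) (l 3))), by decide +kernel⟩

theorem c_mm_203 : CertN 0 536870912 0 1230186008 134217728 67108864 3 false false false .up 2 0 3
    ndN0q2 ndN4q3 pcN0 Cut.none Ext.none :=
  certN0 (fam := false) (s1 := false) (s2 := false) (a := 2) (b := 0) (c := 3) (cn := .up) (n1 := ndN0q2) (n2 := ndN4q3) (pc := pcN0) (cut := Cut.none) (xt := Ext.none) (P1 := 0) (W1 := 536870912) (P2 := 0) (W2 := 1230186008) (P3 := 134217728) (W3 := 67108864) (N0 := 3)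
    rfl k0_mm_203

noncomputable def f_mm_213 : ℕ → ℕ → ℕ → ℕ → Bool := onCell 0 536870912 0 1230186008 134217728 67108864
    (rowN 3 0 false false false .pnn 2 1 3 (qsf 0 536870912 0 1230186008 1) ndN0q2 ndN4q3 pcN1 Cut.none Ext.none)

def k0_mm_213 : ∃ t, chk3 f_mm_213 t 1 1 1 = true :=
  ⟨(b (a (l 3) (b (l 5) (l 3))) (b (l 3) (l 3))), by decide +kernel⟩

theorem c_mm_213 : CertN 0 536870912 0 1230186008 134217728 67108864 3 false false false .pnn 2 1 3
    ndN0q2 ndN4q3 pcN1 Cut.none Ext.none :=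
  certN0 (fam := false) (s1 := false) (s2 := false) (a := 2) (b := 1) (c := 3) (cn := .pnn) (n1 := ndN0q2) (n2 := ndN4q3) (pc := pcN1) (cut := Cut.none) (xt := Ext.none) (P1 := 0) (W1 := 536870912) (P2 := 0) (W2 := 1230186008) (P3 := 134217728) (W3 := 67108864) (N0 := 3)
    rfl k0_mm_213

end Pool.Agent.Strip051.G.I1_8_3_16.Tab.C.NB04

namespace Pool.Agent.Strip051.G.I1_8_3_16.Tab.C.NB05

open Pool.Agent.Strip051.PB Pool.Agent.Strip051.PB.T
open Pool.Agent.Strip051.G.I1_8_3_16.Tab

noncomputable def f_pp_001 : ℕ → ℕ → ℕ → ℕ → Bool := onCell 0 536870912 0 536870912 134217728 67108864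
    (rowN 3 1 false true true .up 0 0 1 (qsf 0 536870912 536870912 536870912 0) ndN0q0 ndN5q1 pcN0 Cut.none Ext.none)

def k0_pp_001 : ∃ t, chk3 f_pp_001 t 1 1 1 = true :=
  ⟨(l 3), by decide +kernel⟩

theorem c_pp_001 : CertN 0 536870912 536870912 536870912 134217728 67108864 3 false true true .up 0 0 1
    ndN0q0 ndN5q1 pcN0 Cut.none Ext.none :=
  certN1 (fam := false) (s1 := true) (s2 := true) (a := 0) (b := 0) (c := 1) (cn := .up) (n1 := ndN0q0) (n2 := ndN5q1) (pc := pcN0) (cut := Cut.none) (xt := Ext.none) (P1 := 0) (W1 := 536870912) (P2 := 536870912) (W2 := 536870912) (P3 := 134217728) (W3 := 67108864) (N0 := 3)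
    rfl (fun _ => rfl) k0_pp_001

noncomputable def cut_pp_011 : Cut := Cut.of [[⟨0, 0, 0, 67108864⟩, ⟨1, 1, 0, 67108864⟩, ⟨2, 1, 0, 67108864⟩]]

noncomputable def f_pp_011 : ℕ → ℕ → ℕ → ℕ → Bool := onCell 0 536870912 536870912 536870912 134217728 67108864
    (rowN 3 1 false true true .pnn 0 1 1 (qsf 0 536870912 536870912 536870912 1) ndN0q0 ndN5q1 pcN1 cut_pp_011 Ext.none)

def k0_pp_011 : ∃ t, chk3 f_pp_011 t 1 1 1 = true :=
  ⟨(b (l 3) (a (b (l 3) (a (b (l 3) (a (b (l 3) (a (l 6) (l 3))) (l 3))) (l 3))) (l 3))), by decide +kernel⟩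

theorem c_pp_011 : CertN 0 536870912 536870912 536870912 134217728 67108864 3 false true true .pnn 0 1 1
    ndN0q0 ndN5q1 pcN1 cut_pp_011 Ext.none :=
  certN1 (fam := false) (s1 := true) (s2 := true) (a := 0) (b := 1) (c := 1) (cn := .pnn) (n1 := ndN0q0) (n2 := ndN5q1) (pc := pcN1) (cut := cut_pp_011) (xt := Ext.none) (P1 := 0) (W1 := 536870912) (P2 := 536870912) (W2 := 536870912) (P3 := 134217728) (W3 := 67108864) (N0 := 3)
    rfl (fun _ => rfl) k0_pp_011

noncomputable def cut_pp_012 : Cut := Cut.of [[⟨0, 0, 0, 67108864⟩, ⟨1, 1, 0, 67108864⟩, ⟨2, 1, 0, 67108864⟩]]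

noncomputable def f_pp_012 : ℕ → ℕ → ℕ → ℕ → Bool := onCell 0 536870912 536870912 536870912 134217728 67108864
    (rowN 3 1 false true true .pnp 0 1 2 (qsf 0 536870912 1073741824 536870912 1) ndN0q0 ndN5q2 pcN1 cut_pp_012 Ext.none)

def k0_pp_012 : ∃ t, chk3 f_pp_012 t 1 1 1 = true :=
  ⟨(b (l 3) (a (b (l 3) (a (b (l 3) (a (b (l 3) (a (l 6) (l 3))) (l 3))) (l 3))) (l 3))), by decide +kernel⟩

theorem c_pp_012 : CertN 0 536870912 1073741824 536870912 134217728 67108864 3 false true true .pnp 0 1 2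
    ndN0q0 ndN5q2 pcN1 cut_pp_012 Ext.none :=
  certN1 (fam := false) (s1 := true) (s2 := true) (a := 0) (b := 1) (c := 2) (cn := .pnp) (n1 := ndN0q0) (n2 := ndN5q2) (pc := pcN1) (cut := cut_pp_012) (xt := Ext.none) (P1 := 0) (W1 := 536870912) (P2 := 1073741824) (W2 := 536870912) (P3 := 134217728) (W3 := 67108864) (N0 := 3)
    rfl (fun _ => rfl) k0_pp_012

end Pool.Agent.Strip051.G.I1_8_3_16.Tab.C.NB05

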