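import Pool.Agent.Strip051.G.I1_8_3_16.Tab

/-! # Certificates N14 (generated) -/

set_option linter.all false
set_option maxRecDepth 100000

namespace Pool.Agent.Strip051.G.I1_8_3_16.Tab.C.NB05

open Pool.Agent.Strip051.PB Pool.Agent.Strip051.PB.T
open Pool.Agent.Strip051.G.I1_8_3_16.Tab

noncomputable def cut_pp_022 : Cut := Cut.of [[⟨0, 0, 0, 67108864⟩, ⟨1, 1, 0, 67108864⟩, ⟨2, 1, 0, 67108864⟩]]

noncomputable def f_pp_022 : ℕ → ℕ → ℕ → ℕ → Bool := onCell 0 536870912 1073741824 536870912 134217728 67108864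
    (rowN 3 1 false true true .pp 0 2 2 (qsf 0 536870912 1073741824 536870912 2) ndN0q0 ndN5q2 pcN2 cut_pp_022 Ext.none)

def k0_pp_022 : ∃ t, chk3 f_pp_022 t 16 16 1 = true :=
  ⟨(b (l 6) (a (l 6) (b (l 6) (a (l 6) (a (l 6) (a (l 6) (b (l 6) (c (l 16755720) (l 16760488))))))))), by decide +kernel⟩

def k1_pp_022 : ∃ t, chk3 f_pp_022 t 17 32 1 = true :=
  ⟨(a (a (l 6) (l 3)) (l 3)), by decide +kernel⟩

def k2_pp_022 : ∃ t, chk3 f_pp_022 t 68 66 1 = true :=
  ⟨(b (l 6) (a (l 6) (b (l 6) (c (b (l 6) (l 16770112)) (l 16772264))))), by decide +kernel⟩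

def k3_pp_022 : ∃ t, chk3 f_pp_022 t 69 132 1 = true :=
  ⟨(a (a (l 6) (l 3)) (l 3)), by decide +kernel⟩

def k4_pp_022 : ∃ t, chk3 f_pp_022 t 138 133 1 = true :=
  ⟨(b (c (b (b (a (l 6) (a (l 6) (l 3))) (b (a (l 6) (a (l 6) (l 3))) (a (l 6) (a (l 16778952) (a (l 202031239751) (l 3)))))) (b (b (a (l 6) (a (l 16779648) (a (l 16777920) (l 190220079655)))) (a (l 6) (l 16779640))) (c (l 16778864) (l 16778792)))) (b (b (a (l 6) (a (l 6) (l 3))) (b (a (l 6) (a (l 6) (l 3))) (a (l 6) (a (l 16780096) (a (l 198810013959) (l 3)))))) (b (b (a (l 6) (a (l 16776872) (a (l 16777760) (l 189683208407)))) (c (l 16778656) (l 16778256))) (c (l 16778720) (l 16778656))))) (c (b (a (l 16777096) (l 16779496)) (a (l 16775088) (l 16777040))) (b (a (l 16776984) (l 16779360)) (a (l 16775104) (l 16776912))))), by decide +kernel⟩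

def k5_pp_022 : ∃ t, chk3 f_pp_022 t 139 133 1 = true :=
  ⟨(b (c (b (l 3) (a (c (b (b (l 3) (a (a (l 182167015527) (l 3)) (l 3))) (b (a (a (l 16777944) (l 173577080903)) (l 3)) (a (l 16777640) (a (l 164450275383) (l 330343386663))))) (b (b (l 3) (a (a (l 180556402615) (l 3)) (l 3))) (b (a (l 111300055143) (l 3)) (a (l 16777544) (a (l 162839662471) (l 336248966503)))))) (l 3))) (b (l 3) (a (b (b (l 3) (a (a (l 177872048311) (l 3)) (l 3))) (b (a (c (l 109152571319) (l 106468216583)) (l 3)) (a (l 16777416) (a (l 160155308151) (l 344302029895))))) (l 3)))) (c (b (a (b (a (l 16781920) (a (l 16777576) (c (l 102173249607) (l 96804540455)))) (l 16778672)) (b (b (a (l 331417129015) (l 3)) (a (a (l 142975439111) (l 330343386471)) (l 3))) (b (a (c (l 89288347687) (l 86603992919)) (l 327122164247)) (a (l 16777544) (a (l 124184957063) (l 309942291719)))))) (a (l 16779448) (a (l 16781256) (a (l 16779536) (b (l 73182220487) (l 16776904)))))) (b (a (b (a (l 16781744) (c (l 68887252743) (l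 66202898007))) (l 16778504)) (b (b (a (l 341617675943) (l 3)) (a (a (l 141901696951) (l 339470191591)) (l 3))) (b (a (l 82845896583) (l 335712095799)) (a (l 16777352) (c (l 173577081783) (l 171429597959)))))) (a (l 16779288) (a (l 16781072) (a (l 16779344) (l 35601256343))))))), by decide +kernel⟩

def k6_pp_022 : ∃ t, chk3 f_pp_022 t 34 67 1 = true :=
  ⟨(a (b (b (a (l 6) (c (c (l 16770128) (l 16770080)) (l 16768680))) (c (a (l 16762096) (l 16765296)) (a (l 16763128) (l 16766408)))) (c (a (a (l 16757360) (l 16758984)) (c (l 16761456) (l 16761296))) (a (l 16759064) (c (l 16761128) (l 16760960))))) (b (b (a (c (b (l 16772800) (l 16772368)) (l 16771904)) (c (b (l 16776880) (a (l 16779920) (l 16776928))) (b (l 16776728) (l 16775592)))) (a (c (l 16768440) (l 16769640)) (c (b (l 16773696) (l 16771952)) (l 16771504)))) (a (c (c (l 16765240) (l 16765120)) (a (l 16763488) (l 16765088))) (b (c (l 16769352) (l 16769248)) (c (l 16771136) (l 16770944)))))), by decide +kernel⟩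

def k7_pp_022 : ∃ t, chk3 f_pp_022 t 35 66 1 = true :=
  ⟨(b (l 3) (a (b (l 3) (a (c (b (l 3) (b (b (a (a (l 311552910327) (l 3)) (l 3)) (a (a (a (l 16779720) (l 290078067879)) (l 3)) (l 3))) (b (a (a (l 16779424) (l 297594263895)) (l 3)) (a (a (l 16777496) (a (l 16778384) (l 231022269847))) (l 3))))) (b (l 3) (b (b (a (a (l 319069102663) (l 3)) (l 3)) (a (a (c (l 160155308919) (l 158007825079)) (l 3)) (l 3))) (b (a (a (l 16779208) (l 304573585319)) (l 3)) (a (a (l 16777288) (a (l 16778168) (l 227264173031))) (l 3)))))) (l 3))) (l 3))), by decide +kernel⟩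

def k8_pp_022 : ∃ t, chk3 f_pp_022 t 70 67 1 = true :=
  ⟨(b (b (a (c (b (b (b (a (l 16779456) (a (c (l 282561875751) (l 285783100999)) (l 3))) (a (l 16779496) (a (c (l 138143601815) (l 135459247031)) (l 3)))) (b (a (l 16781496) (a (l 16778056) (c (l 265918880007) (l 269140102615)))) (a (l 16780880) (a (l 16777448) (a (l 16778336) (l 187535725735)))))) (a (l 16779344) (l 16779136))) (b (b (b (a (l 16779896) (a (l 290078070583) (l 3))) (a (l 16779288) (a (l 132238021543) (l 3)))) (b (a (l 16781296) (a (l 16777832) (c (l 275045682423) (l 278803778583)))) (a (l 16780688) (a (l 16777224) (l 117742506887))))) (c (l 16779088) (l 16778992)))) (c (b (l 3) (b (b (a (a (c (l 250886494391) (l 254107719607)) (l 3)) (l 3)) (a (a (l 109152572551) (l 331954000599)) (l 3))) (b (a (a (l 16778008) (a (l 153175987207) (l 334638354423))) (l 3)) (a (c (l 57076093815) (l 54391738999)) (a (l 330343387751) (l 3)))))) (b (l 3) (b (b (a (a (c (l 257328942215) (l 261087038375)) (l 3)) (l 3)) (a (a (l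 103783863031) (l 344302031047)) (l 3))) (b (a (a (l 16777760) (c (l 193441306375) (l 195051918871))) (l 3)) (a (l 51170513815) (a (l 340007063623) (l 3)))))))) (a (c (b (l 16776768) (l 16775600)) (b (l 16777896) (l 16775440))) (c (b (a (l 16779080) (b (b (a (c (l 183240759463) (l 181093275559)) (l 3)) (a (l 16779872) (l 319605969399))) (b (a (l 16777952) (l 167134632231)) (l 16779256)))) (l 16779128)) (b (a (l 16781464) (b (b (a (l 177335179127) (l 3)) (a (l 16779608) (l 321753452503))) (a (l 16777392) (a (l 16780888) (l 163913406263))))) (l 16778888))))) (b (a (c (b (l 16773232) (l 16776744)) (l 16772376)) (c (b (l 16777960) (l 16775472)) (b (l 16777744) (l 16775280)))) (a (c (l 16768920) (l 16774072)) (c (b (l 16778224) (l 16776264)) (l 16771904))))), by decide +kernel⟩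

def k9_pp_022 : ∃ t, chk3 f_pp_022 t 71 67 1 = true :=
  ⟨(b (b (l 3) (a (c (b (b (l 3) (a (a (l 308331686071) (l 3)) (l 3))) (b (b (a (a (l 152102246567) (l 3)) (l 3)) (a (a (l 16778504) (l 282561881495)) (l 3))) (b (a (a (l 16777904) (l 137069860999)) (l 3)) (a (l 16780512) (a (l 266455751399) (l 3)))))) (b (b (l 3) (a (a (l 315311007351) (l 3)) (l 3))) (b (a (a (c (l 107005089207) (l 104320734375)) (c (l 302962971143) (l 306721067239))) (l 3)) (a (a (l 16777312) (l 94657058519)) (a (c (l 290614942663) (l 294373036135)) (l 3)))))) (l 3))) (b (a (c (b (a (l 16781584) (c (b (a (l 89825220343) (a (l 251960234247) (l 332490872311))) (l 52244256583)) (a (l 55465481767) (b (a (l 214379273047) (l 338933322935)) (l 16779960))))) (a (l 16784344) (l 16781528))) (b (b (a (l 16781928) (a (l 82845898215) (a (l 211158047447) (l 346986386135)))) (a (l 16780696) (l 45801805191))) (l 16780048))) (c (b (b (l 3) (b (a (l 332490878631) (l 3)) (a (a (l 191293824183) (l 3)) (l 3)))) (b (b (a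 (a (l 16780304) (l 325511550087)) (l 3)) (a (a (l 16778400) (l 175187696759)) (l 3))) (b (a (l 16781008) (l 321753460135)) (a (l 16777768) (a (l 158544698359) (l 3)))))) (b (b (l 3) (a (a (a (l 195051919991) (l 340543935063)) (l 3)) (l 3))) (b (a (a (l 16781000) (a (l 178945792551) (l 328195903943))) (l 3)) (b (a (l 16780680) (l 324437813975)) (a (l 16777448) (a (l 151565375799) (l 3)))))))) (a (c (l 16776584) (l 16776352)) (a (c (b (l 16781464) (l 16784208)) (b (l 16781152) (l 16783928))) (a (c (l 16780072) (l 16779088)) (b (b (a (c (l 151565376423) (l 145659795783)) (c (l 279340651383) (l 285783101639))) (l 16781056)) (l 16781832))))))), by decide +kernel⟩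

def k10_pp_022 : ∃ t, chk3 f_pp_022 t 16 17 1 = true :=
  ⟨(a (b (b (l 6) (a (l 6) (a (l 6) (a (l 6) (c (l 16723048) (l 16721776)))))) (a (b (a (l 6) (c (l 16700456) (l 16688488))) (c (a (l 16682344) (l 16686368)) (a (l 16670144) (l 16674072)))) (b (c (a (l 16704344) (l 16708176)) (a (l 16692312) (l 16706568))) (c (a (l 16690328) (l 16694224)) (l 16690336))))) (b (c (b (a (b (l 6) (a (l 6) (l 16734472))) (b (a (l 16744680) (l 16748024)) (a (l 16737880) (l 16741240)))) (a (a (c (l 16726112) (l 16725472)) (c (l 16729768) (l 16729120))) (b (c (l 16736216) (l 16734984)) (c (l 16726392) (l 16725688))))) (b (a (b (l 6) (a (l 6) (l 16738696))) (b (a (l 16743928) (l 16752576)) (a (l 16731672) (l 16745576)))) (a (a (l 16724504) (l 16728136)) (a (l 16731640) (l 16734928))))) (a (b (c (a (l 16711944) (l 16715648)) (a (l 16710288) (l 16724432))) (c (a (l 16698072) (l 16701848)) (l 16697864))) (c (b (a (l 16719296) (l 16722968)) (c (l 16707944) (l 16706832))) (b (b (l 16722992) (l 16705336))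 (l 16705184)))))), by decide +kernel⟩

def k11_pp_022 : ∃ t, chk3 f_pp_022 t 17 17 1 = true :=
  ⟨(b (a (b (b (a (c (a (l 16751304) (l 16754520)) (a (l 16755936) (l 16759232))) (c (a (l 16757680) (l 16761424)) (a (l 16757240) (l 16760424)))) (c (a (a (l 16744528) (l 16752992)) (a (l 16756152) (l 16759248))) (a (a (l 16748936) (l 16752240)) (a (l 16755488) (l 16758680))))) (a (b (c (c (l 16739656) (l 16739144)) (l 16740992)) (c (a (l 16725848) (l 16729096)) (l 16731416))) (c (b (c (l 16745952) (l 16745528)) (l 16741688)) (a (l 16745032) (l 16748240))))) (b (c (a (a (b (c (l 16769096) (l 16768976)) (l 16762280)) (b (b (l 16773704) (l 16770312)) (l 16765248))) (b (b (a (b (l 16778064) (l 16775752)) (l 16776432)) (a (l 16773208) (l 16776632))) (b (a (l 16780328) (l 16783160)) (l 16762000)))) (a (b (b (l 16767504) (l 16762368)) (a (l 16761816) (l 16764896))) (b (b (a (l 16776648) (l 16776168)) (a (l 16773144) (l 16776432))) (b (l 16765896) (l 16767672))))) (a (c (b (a (l 16766072)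 (l 16769040)) (l 16747792)) (b (l 16753792) (l 16749488))) (b (c (a (l 16771952) (l 16774800)) (l 16759840)) (c (l 16753632) (l 16755560)))))) (a (b (c (a (a (l 16726184) (l 16729592)) (a (l 16732784) (l 16735912))) (a (a (l 16734928) (l 16738384)) (c (l 16733152) (l 16732384)))) (c (a (c (l 16715288) (l 16714128)) (c (l 16721528) (l 16730880))) (a (l 16712416) (l 16718736)))) (b (a (b (c (l 16743800) (l 16753064)) (c (l 16747696) (l 16725192))) (c (c (l 16746616) (l 16746040)) (b (l 16759152) (l 16752256)))) (c (a (l 16727368) (l 16733256)) (a (l 16735792) (l 16741896)))))), by decide +kernel⟩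

def k12_pp_022 : ∃ t, chk3 f_pp_022 t 9 16 1 = true :=
  ⟨(a (b (l 3) (b (l 3) (a (a (b (l 3) (b (l 3) (a (c (b (a (b (a (l 334638357255) (l 3)) (a (a (l 134922377991) (l 262160782087)) (l 334638357111))) (l 3)) (b (a (a (l 16778584) (a (l 16780744) (l 209547436215))) (a (l 333564615159) (l 3))) (a (l 16777960) (a (c (l 142438571719) (l 139217345847)) (l 327122164071))))) (b (a (a (b (l 346986387479) (a (l 16780400) (l 220821724775))) (a (l 344302033479) (l 3))) (l 3)) (b (a (a (l 16778216) (l 148344151383)) (a (l 345912645351) (l 3))) (a (l 16777584) (a (l 134922378471) (l 335175226967)))))) (l 3)))) (l 3)) (l 3)))) (l 3)), by decide +kernel⟩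

def k13_pp_022 : ∃ t, chk3 f_pp_022 t 36 136 1 = true :=
  ⟨(a (b (a (b (b (a (l 16781776) (a (l 16780944) (c (l 127943057223) (l 121500605639)))) (c (l 16781928) (l 16781560))) (c (l 16780048) (a (l 16783744) (l 16786136)))) (c (b (b (a (a (l 316921616615) (l 3)) (l 3)) (a (a (l 114521284215) (l 295983650919)) (l 3))) (b (a (c (l 16781136) (l 16781568)) (a (l 281488141399) (l 3))) (a (l 16777824) (a (l 16782216) (c (l 267529492551) (l 270213846663)))))) (b (b (a (a (l 316921615799) (l 3)) (l 3)) (a (a (l 108078832615) (l 301889230119)) (l 3))) (b (a (l 16781256) (a (l 286856844439) (l 3))) (a (l 16777408) (a (l 16779152) (l 271824458759))))))) (a (c (l 16781512) (l 16781216)) (a (b (l 16780992) (l 16778488)) (b (c (l 16781000) (l 16780552)) (l 16780904))))) (b (l 3) (a (c (b (b (a (a (c (l 252497106903) (l 255181461015)) (l 3)) (l 3)) (a (a (l 16779536) (l 203641858007)) (l 335175230743))) (a (l 16783552) (b (a (l 187535730423) (l 337859583847)) (a (l 16779472) (l 168208377623)))))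 (b (b (a (a (l 256255207431) (l 3)) (l 3)) (a (a (l 16779064) (l 197736276935)) (l 346449518887))) (a (l 16783080) (a (a (l 16781912) (l 142975444023)) (b (l 351818226567) (l 160155312983)))))) (b (l 3) (b (l 3) (a (c (l 334101488599) (l 345912647607)) (l 3))))))), by decide +kernel⟩

def k14_pp_022 : ∃ t, chk3 f_pp_022 t 36 137 1 = true :=
  ⟨(a (b (a (c (l 16776448) (l 16776224)) (c (l 16781344) (l 16781008))) (a (c (l 16782576) (l 16782544)) (c (l 16786744) (l 16786488)))) (b (a (c (c (l 16781128) (l 16780896)) (b (l 16781800) (l 16784552))) (c (b (b (a (a (l 153175991863) (l 334638358071)) (l 3)) (a (c (l 95730803927) (l 91972706999)) (l 326585300759))) (b (a (l 16778784) (a (l 16781776) (l 311552908551))) (c (l 16781512) (l 16781232)))) (b (b (a (a (l 145122927159) (l 342691420727)) (l 3)) (a (l 87140868663) (l 334101487191))) (b (a (l 16778256) (a (l 16779928) (l 306721069287))) (l 16781488))))) (c (c (l 16781136) (l 16780912)) (a (l 16780792) (l 16780352))))), by decide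 +kernel⟩

def k15_pp_022 : ∃ t, chk3 f_pp_022 t 36 69 1 = true :=
  ⟨(c (b (a (b (a (l 16779248) (l 16781960)) (l 16766800)) (b (l 16775912) (a (l 16781424) (l 16786344)))) (a (a (l 16770960) (l 16773680)) (b (a (l 16777992) (l 16781200)) (l 16775992)))) (b (a (b (l 16770024) (l 16777064)) (b (l 16775560) (l 16773144))) (a (l 16761400) (b (l 16779216) (l 16775776))))), by decide +kernel⟩

def k16_pp_022 : ∃ t, chk3 f_pp_022 t 37 34 1 = true :=
  ⟨(b (a (b (l 3) (b (b (l 3) (b (l 3) (a (a (c (a (l 284709362823) (l 3)) (l 306721076887)) (l 3)) (l 3)))) (a (a (a (c (l 16781272) (l 16783328)) (b (b (a (l 210084308183) (l 333027750007)) (l 16782728)) (l 16783560))) (a (b (b (l 3) (c (l 221358597927) (l 211158051319))) (l 16782120)) (c (b (l 337322715687) (c (l 137606736919) (l 127406188967))) (b (l 350207616327) (l 123111221575))))) (b (l 3) (b (a (c (l 336785844503) (l 349133874215)) (l 3)) (a (a (a (l 142438574935) (l 248739017431)) (l 341617685895)) (l 3))))))) (l 3)) (b (a (a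 (c (b (l 16785920) (l 16791288)) (l 16782880)) (b (c (b (b (a (l 112910675255) (l 335712102279)) (a (l 16779712) (a (l 16782584) (l 329269649895)))) (c (l 49023036375) (l 16782824))) (b (a (l 76403451991) (a (a (l 179482668295) (l 275582557079)) (l 337859584519))) (c (l 16781184) (l 16783496)))) (c (l 16785736) (l 16785152)))) (b (b (l 3) (b (a (a (c (l 320679716119) (l 327659036727)) (l 3)) (l 3)) (a (a (a (l 108615707863) (l 275582565383)) (l 3)) (l 3)))) (b (b (a (a (c (l 16780560) (l 16779912)) (c (l 286856853255) (l 291151819367))) (l 3)) (a (a (l 16779032) (c (l 142975447111) (l 134385511463))) (a (c (l 338933328375) (l 352355099959)) (l 3)))) (a (c (l 16783832) (l 16783208)) (b (a (a (l 181093281735) (l 343765164471)) (l 3)) (a (c (l 115595029671) (l 16783144)) (c (l 337322714887) (l 347523261063)))))))) (a (b (c (l 16778144) (l 16777712)) (c (l 16783464) (l 16783136))) (a (c (b (l 16785248) (l 16790576)) (b (l 16784696) (l 16790112))) (b (b (b (a (l 16779680) (a (l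 141901704935) (l 319069112343))) (c (l 16782456) (l 16784488))) (l 16782920)) (l 16779104)))))), by decide +kernel⟩

def k17_pp_022 : ∃ t, chk3 f_pp_022 t 18 35 1 = true :=
  ⟨(a (b (a (c (b (l 16765736) (l 16759184)) (b (l 16765000) (l 16758120))) (c (b (l 16771056) (l 16764528)) (l 16757472))) (c (a (l 16738896) (l 16744280)) (a (l 16747776) (l 16753440)))) (c (b (b (a (b (l 16778288) (l 16774520)) (b (l 16787648) (l 16782432))) (a (l 16769632) (l 16779240))) (a (c (l 16767384) (l 16759664)) (l 16755656))) (b (b (a (b (l 16778072) (l 16774312)) (l 16774264)) (a (l 16769176) (l 16774752))) (b (l 16755952) (l 16746552))))), by decide +kernel⟩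

def k18_pp_022 : ∃ t, chk3 f_pp_022 t 19 34 1 = true :=
  ⟨(b (l 3) (a (b (l 3) (a (b (a (b (a (c (l 321753464279) (l 329806532055)) (l 3)) (a (c (c (l 123111223367) (l 119889997495)) (l 115595030199)) (c (l 294373049623) (l 300278628583)))) (l 3)) (b (b (a (c (a (l 16779344) (l 133848641047)) (l 80161549575)) (a (l 342691429031) (l 3))) (a (l 16784152) (a (c (l 226727312759) (l 202568119175)) (l 3)))) (b (a (l 16782896) (a (l 102173257495) (l 327659047943))) (a (l 16786872) (a (l 16779632) (a (l 16781056) (l 264308275031))))))) (l 3))) (l 3))), by decide +kernel⟩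

def k19_pp_022 : ∃ t, chk3 f_pp_022 t 19 35 1 = true :=
  ⟨(b (a (b (a (a (c (b (l 16794360) (l 16771744)) (l 16780928)) (b (c (l 16783056) (l 16782624)) (l 16782936))) (b (b (b (a (a (l 288467470615) (l 3)) (l 3)) (a (a (c (l 145659801287) (l 16783584)) (l 344838907591)) (l 3))) (a (a (l 16779544) (b (l 246054667879) (l 111836933847))) (a (l 336785854855) (l 3)))) (a (l 16782080) (b (a (c (l 138143609639) (l 133848641591)) (l 317458501143)) (c (l 82845905095) (l 78014066519)))))) (a (c (l 16775400) (l 16783392)) (c (l 16781752) (l 16781672)))) (b (a (b (l 3) (a (a (b (l 3) (l 282025020103)) (l 3)) (l 3))) (l 3)) (a (b (b (a (a (l 86604000967) (c (l 253033990327) (l 260550172023))) (l 3)) (a (c (l 16780792) (l 16778880)) (a (c (l 222969218503) (l 196125669527)) (l 342691435447)))) (a (l 16786968) (a (l 16783672) (b (a (l 16783600) (l 212768666535)) (l 16779136))))) (b (l 3) (a (a (b (l 334101499863) (a (l 16780592) (l 178945799591))) (a (l 313163534855) (l 342154566215)))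 (l 3)))))) (c (a (a (b (l 16780752) (l 16790152)) (b (l 16788584) (l 16798944))) (b (a (l 16788648) (b (a (l 62444810071) (b (l 293836181687) (c (l 146733545559) (l 146196674887)))) (l 16780768))) (a (l 16800088) (l 16785112)))) (a (b (a (l 16773664) (l 16781832)) (a (l 16766928) (l 16772552))) (b (a (l 16790464) (b (a (l 16783664) (b (l 301889245015) (l 146733547015))) (l 16785896))) (a (l 16781824) (l 16783512)))))), by decide +kernel⟩

def k20_pp_022 : ∃ t, chk3 f_pp_022 t 8 9 1 = true :=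
  ⟨(b (a (a (b (a (c (a (c (l 16671952) (l 16670936)) (l 16675584)) (a (l 16669360) (l 16673376))) (a (c (l 16679672) (l 16677344)) (c (l 16683696) (l 16681248)))) (c (a (a (l 16643000) (l 16647264)) (c (l 16654272) (l 16652744))) (a (l 16642360) (l 16650440)))) (b (b (c (a (l 16686136) (l 16693752)) (a (l 16673216) (l 16680664))) (c (a (l 16672272) (l 16669560)) (a (l 16658992) (l 16666544)))) (c (a (c (l 16662528) (l 16660840)) (l 16669608)) (a (l 16658312) (l 16665952))))) (b (a (c (b (a (l 16701128) (l 16708280)) (a (l 16677088) (l 16684368))) (a (a (l 16699992) (l 16703576)) (b (l 16715912) (l 16680992)))) (b (c (a (l 16724848) (l 16731000)) (a (l 16722080) (l 16728408))) (c (a (l 16712328) (l 16697280)) (a (l 16687880) (l 16693880))))) (a (c (a (l 16677320) (l 16684792)) (a (l 16673400) (l 16680640))) (c (a (l 16692048) (b (l 16684872) (l 16743936))) (b (l 16698448) (l 16684136)))))) (a (a (b (c (a (l 16616576) (l 16625128)) (a (l 16613136) (l 16600304))) (c (a (l 16587800)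 (l 16575472)) (l 16598072))) (c (b (a (l 16633464) (l 16641568)) (a (l 16583888) (l 16659984))) (b (a (l 16608248) (l 16615984)) (l 16603496)))) (a (b (c (a (l 16649440) (l 16681112)) (l 16658568)) (c (a (l 16797000) (l 16899672)) (l 16618712))) (b (c (a (l 16788376) (l 16867168)) (l 16662472)) (c (l 16775072) (l 16633288)))))), by decide +kernel⟩

def k21_pp_022 : ∃ t, chk3 f_pp_022 t 9 9 1 = true :=
  ⟨(b (b (a (a (c (b (a (l 16736664) (l 16742096)) (a (l 16703208) (l 16752816))) (b (a (l 16734296) (l 16739984)) (l 16718544))) (b (c (a (l 16758904) (l 16791248)) (a (l 16745488) (l 16751160))) (c (a (l 16798456) (l 16828416)) (a (l 16732224) (l 16737936))))) (a (b (c (a (l 16810464) (l 16819872)) (a (l 16756920) (l 16762584))) (c (a (l 16846504) (l 16855592)) (a (l 16743744) (l 16747200)))) (c (b (a (l 16821936) (b (l 16810384) (l 16827048))) (a (l 16857848) (l 16854952))) (b (a (l 16760280) (l 16774336)) (a (l 16770816) (l 16786112)))))) (a (a (c (a (l 16702664) (l 16710416))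 (a (l 16700640) (l 16706344))) (b (c (l 16862088) (l 16721856)) (c (l 16914840) (l 16697096)))) (a (c (b (l 16894752) (l 16942192)) (b (l 16752904) (l 16782896))) (c (b (l 16898408) (l 16943488)) (b (l 16799920) (l 16827520)))))) (c (a (b (a (b (l 16911368) (l 16980696)) (b (l 16971256) (l 17029680))) (a (l 17085200) (l 17118968))) (b (a (l 17018704) (l 17015272)) (a (l 17124976) (l 17114232)))) (a (b (a (b (l 16662864) (l 16665608)) (b (l 16740608) (l 16789136))) (a (l 16763784) (l 16867376))) (b (a (b (l 16819184) (l 16859952)) (l 16878304)) (a (l 16926552) (l 16956800)))))), by decide +kernel⟩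

def k22_pp_022 : ∃ t, chk3 f_pp_022 t 4 5 1 = true :=
  ⟨(b (b (b (a (a (a (c (l 16573104) (l 16557272)) (c (a (l 16806232) (l 16932856)) (l 16573112))) (a (c (l 16940576) (l 16567328)) (c (l 17171112) (l 16764232)))) (a (a (c (l 17221240) (l 16896832)) (c (l 17237152) (l 16976336))) (c (l 17223928) (a (l 17020784) (l 17041528))))) (a (a (a (c (b (l 16792008) (b (l 16934912) (l 17010592))) (b (l 16513016) (l 16538344))) (c (b (l 17067560) (l 17057744)) (l 16590296))) (c (a (b (l 17211608) (l 17300936)) (l 17323896)) (a (b (l 16713672) (l 16814056)) (b (l 16887232) (l 16964896))))) (c (a (b (l 17323664) (l 17382696)) (l 17327416)) (a (b (l 17031048) (l 17089208)) (b (l 17101984) (l 17148008)))))) (a (a (a (c (b (l 17019976) (l 17432152)) (b (l 16474104) (l 16774280))) (c (l 17188720) (l 16652744))) (c (a (l 17503832) (l 17527800)) (a (l 17046864) (l 17149232)))) (a (c (l 17519000) (a (l 17210136) (l 17242688))) (c (l 17465088) (l 17257552))))) (a (a (b (a (c (l 17723808) (l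 17140352)) (c (l 17762248) (l 17274272))) (c (l 18007808) (l 17541600))) (b (c (l 17762688) (l 17383560)) (l 17779904))) (a (b (c (l 17706720) (l 17429640)) (l 17729576)) (b (l 17521544) (l 17657464))))), by decide +kernel⟩

def k23_pp_022 : ∃ t, chk3 f_pp_022 t 5 8 1 = true :=
  ⟨(a (b (l 3) (b (l 3) (a (b (l 3) (a (b (a (b (a (a (l 342154567207) (l 3)) (l 3)) (b (a (a (l 176798317895) (l 338933327479)) (l 3)) (a (c (l 105931354679) (l 104857613223)) (l 319605986039)))) (l 3)) (a (b (b (a (l 16781256) (a (l 116131902391) (l 271824482279))) (c (l 16782664) (l 16783832))) (l 16781984)) (b (a (c (l 293836187783) (l 302426122375)) (l 3)) (b (a (c (l 125795579111) (l 127943063143)) (l 337859597447)) (a (l 16782136) (a (l 143512319879) (l 293836189959))))))) (l 3))) (l 3)))) (l 3)), by decide +kernel⟩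

def k24_pp_022 : ∃ t, chk3 f_pp_022 t 10 18 1 = true :=
  ⟨(b (a (b (a (c (a (b (l 16802584) (l 16819816)) (a (l 16782432) (b (l 49023036871) (l 16806712)))) (a (l 16777696) (b (b (l 51170521943) (l 16782456)) (l 16786632)))) (b (a (a (b (b (l 287393739703) (a (l 16781120) (l 202568122151))) (l 16784008)) (b (l 343228314535) (c (b (l 220284872983) (l 16782528)) (b (l 231559162839) (l 16780504))))) (b (l 3) (a (l 313163545927) (l 3)))) (a (c (l 16786816) (l 16785224)) (b (a (c (l 112910677607) (l 117205646103)) (c (l 271287611511) (l 279340676071))) (c (l 62444809847) (l 62444811527)))))) (a (c (a (l 16848184) (l 16838528)) (a (l 16794888) (l 16798576))) (c (a (l 16805800) (l 16782056)) (a (l 16798288) (l 16794912))))) (b (a (b (l 3) (a (a (b (l 3) (a (a (l 153175997415) (l 214916157863)) (l 275582578199))) (l 3)) (l 3))) (l 3)) (a (b (b (a (a (l 16782552) (c (l 161229062807) (l 176261448231))) (a (l 352355121031) (l 3))) (a (l 16784928) (a (c (l 107541966551) (l 116668774311))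 (c (l 264308287431) (l 272361352727))))) (c (a (l 16809720) (b (l 16784360) (l 16800264))) (a (l 16794920) (l 51707392951)))) (b (l 3) (a (a (b (a (l 160155320007) (l 293299316007)) (l 16786672)) (b (l 3) (c (l 133848641079) (l 146733546119)))) (b (l 3) (l 342154574199))))))) (c (a (a (b (l 16885176) (l 16929400)) (b (l 16841480) (l 16906552))) (b (a (a (l 16841976) (l 16806464)) (a (l 16781056) (b (a (l 63518548295) (b (l 268066380055) (l 16788080))) (l 16787552)))) (a (l 16879080) (b (l 16838384) (l 16860824))))) (a (b (a (l 16818848) (l 16799280)) (a (l 16846064) (l 16848080))) (b (a (l 16779392) (a (l 16788872) (b (b (a (l 16782176) (l 244980933319)) (l 16786728)) (l 16797680)))) (a (l 16839720) (b (l 16817264) (l 16832880))))))), by decide +kernel⟩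

def k25_pp_022 : ∃ t, chk3 f_pp_022 t 11 18 1 = true :=
  ⟨(b (l 3) (a (b (a (b (a (b (l 3) (a (c (l 142975445943) (l 165524039223)) (l 329806538951))) (l 3)) (a (c (b (l 74792836791) (l 16799088)) (l 70497874567)) (b (a (l 282025023863) (l 3)) (c (l 113984416023) (l 124184967719))))) (a (l 3) (l 3))) (a (c (b (l 16782288) (l 16831032)) (a (l 16790496) (l 16780736))) (b (a (a (c (l 73182225127) (l 16782104)) (b (l 273971958439) (l 16781400))) (b (l 3) (a (l 142438576343) (l 3)))) (c (a (l 16788120) (b (l 75329710791) (l 16800504))) (a (l 16799800) (l 65129161223)))))) (b (l 3) (a (b (l 3) (a (b (l 281488174999) (c (l 103247001351) (l 103246997559))) (l 3))) (l 3))))), by decide +kernel⟩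

def k26_pp_022 : ∃ t, chk3 f_pp_022 t 5 19 1 = true :=
  ⟨(a (b (a (a (c (l 16998800) (l 16894560)) (c (l 16974824) (l 16895992))) (b (a (l 16876808) (c (l 16894648) (l 16857232))) (a (l 16937272) (l 16915384)))) (a (c (l 17080576) (a (l 16968016) (l 16966920))) (a (l 16976704) (l 16912344)))) (b (a (b (a (c (l 16864864) (l 16839576)) (c (b (l 16803528) (l 16846992)) (l 16788592))) (a (l 16891728) (c (l 16880568) (l 16854576)))) (b (a (b (b (a (l 16788304) (c (l 128479937159) (l 130627416695))) (c (l 40969977863) (l 16785000))) (c (a (l 16826016) (l 16812544)) (l 16787512))) (b (a (b (l 3) (c (l 147807288391) (l 157470963943))) (l 3)) (c (a (l 16788376) (b (l 198810037143) (l 16785520))) (a (l 16782488) (l 148881034391))))) (a (c (l 16831736) (l 16813792)) (c (b (l 16793120) (l 16836168)) (l 16793112))))) (a (b (a (l 16931448) (l 16907256)) (l 16958952)) (a (b (l 16883424) (l 16922880)) (b (l 16838296) (l 16898640)))))), by decide +kernel⟩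

def k27_pp_022 : ∃ t, chk3 f_pp_022 t 5 5 1 = true :=
  ⟨(b (b (b (a (a (c (l 17172912) (l 17045408)) (c (l 17109552) (l 17022976))) (a (b (l 16998056) (l 17036424)) (b (l 16949496) (l 16987472)))) (b (a (a (l 17173456) (l 17125456)) (a (l 17074000) (l 17024264))) (a (a (l 17217560) (b (l 17156088) (l 17177776))) (b (a (l 17101848) (l 17050808)) (b (a (l 17117456) (l 17064408)) (l 17101200)))))) (a (a (l 17316568) (l 17259408)) (a (l 17200320) (l 17143664)))) (a (b (a (l 17457416) (l 17388840)) (l 17540232)) (b (l 17293168) (l 17401176)))), by decide +kernel⟩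

def k28_pp_022 : ∃ t, chk3 f_pp_022 t 2 3 1 = true :=
  ⟨(a (b (a (b (a (b (l 17992120) (l 18151480)) (l 18006432)) (a (l 18311792) (l 18193040))) (b (a (l 17914352) (l 17818248)) (l 18022472))) (a (b (l 18357968) (l 18397648)) (b (l 18114592) (l 18159736)))) (b (a (b (l 17686744) (l 17828848)) (b (l 17538872) (l 17677144))) (a (b (l 17921488) (l 2)) (l 2)))), by decide +kernel⟩

def k29_pp_022 : ∃ t, chk3 f_pp_022 t 3 2 1 = true :=
  ⟨(b (a (b (l 3) (b (l 3) (a (b (a (b (a (b (l 3) (l 330880318343)) (l 3)) (a (b (a (c (l 68887260695) (l 71571614823)) (b (l 3) (l 126332452503))) (c (l 16788192) (l 16780920))) (b (l 3) (a (c (l 104320741079) (l 123648100903)) (l 273971982087))))) (l 3)) (a (a (b (b (l 16804288) (l 16845000)) (l 16874432)) (b (b (a (l 16786848) (l 16782816)) (l 16800872)) (l 16830232))) (b (a (b (a (c (l 133311777031) (l 155323491991)) (l 290078113591)) (a (l 16784208) (l 59760460999))) (b (l 3) (a (l 174650852455) (l 306721094423)))) (a (b (l 16798336) (l 16838680))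 (b (c (l 16790368) (l 16791000)) (l 16796656)))))) (b (l 3) (a (b (l 3) (a (b (b (l 311552955687) (l 186462023895)) (c (l 16789656) (l 16795936))) (b (l 3) (b (l 316384774983) (l 219748031943))))) (l 3)))))) (b (l 3) (l 3))) (a (b (b (b (a (a (b (a (l 16913056) (l 16889712)) (l 16938976)) (b (a (l 16867448) (l 16825320)) (a (l 16904968) (l 16883696)))) (a (b (a (l 16805336) (b (c (l 16800408) (l 16796432)) (l 16795904))) (a (l 16863576) (l 16823720))) (b (a (b (l 257865865527) (l 78550961159)) (b (l 3) (l 247128449799))) (b (a (l 16796880) (l 46808518567)) (l 16796256))))) (b (a (a (l 16975424) (l 16930408)) (a (b (l 16881056) (l 16898576)) (a (l 16862832) (l 30702412903)))) (b (a (a (l 17001416) (l 16956080)) (a (l 16915376) (l 16879552))) (a (b (a (l 17013816) (l 16968152)) (a (l 17022416) (l 16976024))) (b (l 63452008343) (a (l 16934744) (l 16898336))))))) (a (a (l 17090032) (l 17041512)) (a (l 16998200) (a (l 16968792) (l 2))))) (a (b (l 17180544) (l 17283096)) (a (l 17159360)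 (l 2)))) (b (b (b (b (b (l 3) (l 2)) (l 2)) (l 2)) (l 2)) (l 2)))), by decide +kernel⟩

def k30_pp_022 : ∃ t, chk3 f_pp_022 t 3 3 1 = true :=
  ⟨(a (b (b (a (l 17414528) (l 2)) (l 2)) (l 2)) (l 2)), by decide +kernel⟩

theorem s31_pp_022 : ∃ t, chk3 f_pp_022 t 3 1 1 = true := ex3_b k29_pp_022 k30_pp_022

theorem s32_pp_022 : ∃ t, chk3 f_pp_022 t 5 18 1 = true := ex3_a k24_pp_022 k25_pp_022

theorem s33_pp_022 : ∃ t, chk3 f_pp_022 t 5 9 1 = true := ex3_b s32_pp_022 k26_pp_022

theorem s34_pp_022 : ∃ t, chk3 f_pp_022 t 5 4 1 = true := ex3_b k23_pp_022 s33_pp_022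

theorem s35_pp_022 : ∃ t, chk3 f_pp_022 t 5 2 1 = true := ex3_b s34_pp_022 k27_pp_022

theorem s36_pp_022 : ∃ t, chk3 f_pp_022 t 4 9 1 = true := ex3_a k20_pp_022 k21_pp_022

theorem s37_pp_022 : ∃ t, chk3 f_pp_022 t 19 17 1 = true := ex3_b k18_pp_022 k19_pp_022

theorem s38_pp_022 : ∃ t, chk3 f_pp_022 t 36 68 1 = true := ex3_b k13_pp_022 k14_pp_022

theorem s39_pp_022 : ∃ t, chk3 f_pp_022 t 36 34 1 = true := ex3_b s38_pp_022 k15_pp_022

theorem s40_pp_022 : ∃ t, chk3 f_pp_022 t 18 34 1 = true := ex3_a s39_pp_022 k16_pp_022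

theorem s41_pp_022 : ∃ t, chk3 f_pp_022 t 18 17 1 = true := ex3_b s40_pp_022 k17_pp_022

theorem s42_pp_022 : ∃ t, chk3 f_pp_022 t 9 17 1 = true := ex3_a s41_pp_022 s37_pp_022

theorem s43_pp_022 : ∃ t, chk3 f_pp_022 t 9 8 1 = true := ex3_b k12_pp_022 s42_pp_022

theorem s44_pp_022 : ∃ t, chk3 f_pp_022 t 8 17 1 = true := ex3_a k10_pp_022 k11_pp_022

theorem s45_pp_022 : ∃ t, chk3 f_pp_022 t 35 67 1 = true := ex3_a k8_pp_022 k9_pp_022

theorem s46_pp_022 : ∃ t, chk3 f_pp_022 t 35 33 1 = true := ex3_b k7_pp_022 s45_pp_022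

theorem s47_pp_022 : ∃ t, chk3 f_pp_022 t 69 133 1 = true := ex3_a k4_pp_022 k5_pp_022

theorem s48_pp_022 : ∃ t, chk3 f_pp_022 t 69 66 1 = true := ex3_b k3_pp_022 s47_pp_022

theorem s49_pp_022 : ∃ t, chk3 f_pp_022 t 34 66 1 = true := ex3_a k2_pp_022 s48_pp_022

theorem s50_pp_022 : ∃ t, chk3 f_pp_022 t 34 33 1 = true := ex3_b s49_pp_022 k6_pp_022

theorem s51_pp_022 : ∃ t, chk3 f_pp_022 t 17 33 1 = true := ex3_a s50_pp_022 s46_pp_022

theorem s52_pp_022 : ∃ t, chk3 f_pp_022 t 17 16 1 = true := ex3_b k1_pp_022 s51_pp_022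

theorem s53_pp_022 : ∃ t, chk3 f_pp_022 t 8 16 1 = true := ex3_a k0_pp_022 s52_pp_022

theorem s54_pp_022 : ∃ t, chk3 f_pp_022 t 8 8 1 = true := ex3_b s53_pp_022 s44_pp_022

theorem s55_pp_022 : ∃ t, chk3 f_pp_022 t 4 8 1 = true := ex3_a s54_pp_022 s43_pp_022

theorem s56_pp_022 : ∃ t, chk3 f_pp_022 t 4 4 1 = true := ex3_b s55_pp_022 s36_pp_022

theorem s57_pp_022 : ∃ t, chk3 f_pp_022 t 4 2 1 = true := ex3_b s56_pp_022 k22_pp_022

theorem s58_pp_022 : ∃ t, chk3 f_pp_022 t 2 2 1 = true := ex3_a s57_pp_022 s35_pp_022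

theorem s59_pp_022 : ∃ t, chk3 f_pp_022 t 2 1 1 = true := ex3_b s58_pp_022 k28_pp_022

theorem s60_pp_022 : ∃ t, chk3 f_pp_022 t 1 1 1 = true := ex3_a s59_pp_022 s31_pp_022

theorem c_pp_022 : CertN 0 536870912 1073741824 536870912 134217728 67108864 3 false true true .pp 0 2 2
    ndN0q0 ndN5q2 pcN2 cut_pp_022 Ext.none :=
  certN1 (fam := false) (s1 := true) (s2 := true) (a := 0) (b := 2) (c := 2) (cn := .pp) (n1 := ndN0q0) (n2 := ndN5q2) (pc := pcN2) (cut := cut_pp_022) (xt := Ext.none) (P1 := 0) (W1 := 536870912) (P2 := 1073741824) (W2 := 536870912) (P3 := 134217728) (W3 := 67108864) (N0 := 3)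
    rfl (fun _ => rfl) s60_pp_022

noncomputable def f_pp_023 : ℕ → ℕ → ℕ → ℕ → Bool := onCell 1073741824 536870912 0 1230186008 134217728 67108864
    (rowN 3 2 false true true .up 0 2 3 (qsf 0 536870912 0 1230186008 2) ndN0q0 ndN5q3 pcN2 Cut.none Ext.none)

def k0_pp_023 : ∃ t, chk3 f_pp_023 t 1 2 1 = true :=
  ⟨(a (l 2) (a (l 2) (b (a (l 2) (l 17524008)) (b (l 17367440) (l 17393288))))), by decide +kernel⟩

def k1_pp_023 : ∃ t, chk3 f_pp_023 t 1 6 1 = true :=
  ⟨(a (a (l 2) (a (l 2) (b (l 2) (l 380206115255)))) (a (b (a (l 2) (l 17256944)) (a (b (l 17126912) (l 17151232)) (l 17319048))) (b (l 17696968) (a (l 17499032) (l 17665952))))), by decide +kernel⟩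

def k2_pp_023 : ∃ t, chk3 f_pp_023 t 1 7 1 = true :=
  ⟨(a (a (b (l 2) (l 3)) (b (b (a (a (l 2) (l 375910549127)) (a (l 16975264) (l 17036216))) (b (a (a (l 2) (a (l 273368002839) (l 16871824))) (l 17199880)) (a (a (a (l 3) (a (l 3) (a (l 271824564615) (a (l 16834528) (l 16798664))))) (a (a (l 16815632) (l 16844168)) (l 16888048))) (l 17268064)))) (a (a (a (b (l 3) (b (a (l 3) (a (l 3) (b (l 336785886423) (a (l 279877560247) (l 16811880))))) (a (b (l 3) (a (l 3) (b (l 3) (l 278266944535)))) (b (a (a (l 3) (l 248202198407)) (l 99488939047)) (a (a (l 209547493367) (l 16821192)) (l 16816464)))))) (a (b (b (a (l 3) (b (l 362018804471) (l 292225597447))) (a (b (l 3) (l 264308306919)) (b (l 226727363479) (l 16800120)))) (a (b (b (l 210621245703) (l 16826544)) (b (l 16799824) (l 16838160))) (b (b (l 16812008) (l 16825872)) (b (l 16841728) (l 16859592))))) (b (a (b (a (l 222432415703) (l 16819504)) (a (l 16829544) (l 16817360))) (b (a (c (l 16807824) (l 16803984)) (l 16813040)) (a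 (l 16825592) (l 16833624)))) (a (b (b (l 16831224) (l 16845664)) (b (l 16862024) (l 16880344))) (b (a (l 16893872) (l 16860648)) (a (l 16885512) (l 16894888))))))) (b (b (a (a (l 16831816) (l 16862936)) (l 16910048)) (a (a (l 16854136) (l 16887384)) (l 16937592))) (b (a (l 16858552) (l 16971880)) (a (l 16937368) (l 17013480))))) (a (b (l 17231600) (b (l 17079104) (l 17127584))) (b (l 17153000) (l 17250048)))))) (b (a (a (b (l 17193040) (l 17258016)) (l 17570016)) (a (l 17650176) (l 17838824))) (a (a (b (l 17346912) (a (l 17394104) (l 17535504))) (b (l 17594848) (l 17739272))) (b (l 17937520) (l 18131600))))), by decide +kernel⟩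

theorem s3_pp_023 : ∃ t, chk3 f_pp_023 t 1 3 1 = true := ex3_b k1_pp_023 k2_pp_023

theorem s4_pp_023 : ∃ t, chk3 f_pp_023 t 1 1 1 = true := ex3_b k0_pp_023 s3_pp_023

theorem c_pp_023 : CertN 0 536870912 0 1230186008 134217728 67108864 3 false true true .up 0 2 3
    ndN0q0 ndN5q3 pcN2 Cut.none Ext.none :=
  certN2 (fam := false) (s1 := true) (s2 := true) (a := 0) (b := 2) (c := 3) (cn := .up) (n1 := ndN0q0) (n2 := ndN5q3) (pc := pcN2) (cut := Cut.none) (xt := Ext.none) (P1 := 0) (W1 := 536870912) (P2 := 0) (W2 := 1230186008) (P3 := 134217728) (W3 := 67108864) (N0 := 3)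
    rfl (fun _ => rfl) s4_pp_023

noncomputable def f_pp_033 : ℕ → ℕ → ℕ → ℕ → Bool := onCell 0 536870912 0 1230186008 134217728 67108864
    (rowN 3 0 false true true .pnn 0 3 3 (qsf 0 536870912 0 1230186008 3) ndN0q0 ndN5q3 pcN3 Cut.none Ext.none)

def k0_pp_033 : ∃ t, chk3 f_pp_033 t 1 1 1 = true :=
  ⟨(b (a (a (b (l 4) (a (b (l 17805840) (l 17777896)) (b (l 17687944) (l 17684344)))) (b (l 17599192) (a (l 17749416) (b (l 17478440) (l 17456536))))) (a (b (a (l 17375376) (l 17266936)) (a (b (l 17398024) (l 17350584)) (l 17205552))) (b (a (b (l 17207192) (l 17060760)) (b (l 16969000) (l 16909432))) (l 17145088)))) (b (a (a (b (a (l 17862432) (l 17759888)) (l 18021032)) (b (l 17623400) (l 17779488))) (a (b (l 17388328) (l 17498168)) (l 496103553719))) (a (a (b (l 18194680) (l 208342602967)) (b (l 17879904) (l 311958262151))) (l 1)))), by decide +kernel⟩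

theorem c_pp_033 : CertN 0 536870912 0 1230186008 134217728 67108864 3 false true true .pnn 0 3 3
    ndN0q0 ndN5q3 pcN3 Cut.none Ext.none :=
  certN0 (fam := false) (s1 := true) (s2 := true) (a := 0) (b := 3) (c := 3) (cn := .pnn) (n1 := ndN0q0) (n2 := ndN5q3) (pc := pcN3) (cut := Cut.none) (xt := Ext.none) (P1 := 0) (W1 := 536870912) (P2 := 0) (W2 := 1230186008) (P3 := 134217728) (W3 := 67108864) (N0 := 3)
    rfl k0_pp_033

noncomputable def f_pp_101 : ℕ → ℕ → ℕ → ℕ → Bool := onCell 536870912 536870912 536870912 536870912 134217728 67108864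
    (rowN 3 0 false true true .npn 1 0 1 (qsf 536870912 536870912 536870912 536870912 0) ndN0q1 ndN5q1 pcN0 Cut.none Ext.none)

def k0_pp_101 : ∃ t, chk3 f_pp_101 t 1 1 1 = true :=
  ⟨(a (l 3) (l 5)), by decide +kernel⟩

theorem c_pp_101 : CertN 536870912 536870912 536870912 536870912 134217728 67108864 3 false true true .npn 1 0 1
    ndN0q1 ndN5q1 pcN0 Cut.none Ext.none :=
  certN0 (fam := false) (s1 := true) (s2 := true) (a := 1) (b := 0) (c := 1) (cn := .npn) (n1 := ndN0q1) (n2 := ndN5q1) (pc := pcN0) (cut := Cut.none) (xt := Ext.none) (P1 := 536870912) (W1 := 536870912) (P2 := 536870912) (W2 := 536870912) (P3 := 134217728) (W3 := 67108864) (N0 := 3)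
    rfl k0_pp_101

noncomputable def f_pp_102 : ℕ → ℕ → ℕ → ℕ → Bool := onCell 536870912 536870912 1073741824 536870912 134217728 67108864
    (rowN 3 0 false true true .npp 1 0 2 (qsf 536870912 536870912 1073741824 536870912 0) ndN0q1 ndN5q2 pcN0 Cut.none Ext.none)

def k0_pp_102 : ∃ t, chk3 f_pp_102 t 1 1 1 = true :=
  ⟨(a (l 3) (b (l 5) (l 3))), by decide +kernel⟩

theorem c_pp_102 : CertN 536870912 536870912 1073741824 536870912 134217728 67108864 3 false true true .npp 1 0 2
    ndN0q1 ndN5q2 pcN0 Cut.none Ext.none :=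
  certN0 (fam := false) (s1 := true) (s2 := true) (a := 1) (b := 0) (c := 2) (cn := .npp) (n1 := ndN0q1) (n2 := ndN5q2) (pc := pcN0) (cut := Cut.none) (xt := Ext.none) (P1 := 536870912) (W1 := 536870912) (P2 := 1073741824) (W2 := 536870912) (P3 := 134217728) (W3 := 67108864) (N0 := 3)
    rfl k0_pp_102

noncomputable def f_pp_112 : ℕ → ℕ → ℕ → ℕ → Bool := onCell 536870912 536870912 1073741824 536870912 134217728 67108864
    (rowN 3 0 false true true .dn 1 1 2 (qsf 536870912 536870912 1073741824 536870912 1) ndN0q1 ndN5q2 pcN1 Cut.none Ext.none)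

def k0_pp_112 : ∃ t, chk3 f_pp_112 t 1 1 1 = true :=
  ⟨(a (l 3) (b (l 5) (l 3))), by decide +kernel⟩

theorem c_pp_112 : CertN 536870912 536870912 1073741824 536870912 134217728 67108864 3 false true true .dn 1 1 2
    ndN0q1 ndN5q2 pcN1 Cut.none Ext.none :=
  certN0 (fam := false) (s1 := true) (s2 := true) (a := 1) (b := 1) (c := 2) (cn := .dn) (n1 := ndN0q1) (n2 := ndN5q2) (pc := pcN1) (cut := Cut.none) (xt := Ext.none) (P1 := 536870912) (W1 := 536870912) (P2 := 1073741824) (W2 := 536870912) (P3 := 134217728) (W3 := 67108864) (N0 := 3)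
    rfl k0_pp_112

noncomputable def cut_pp_113 : Cut := Cut.of [[⟨0, 1, 0, 39843005⟩, ⟨1, 1, 0, 39843005⟩, ⟨2, 2, 0, 5814905⟩]]

noncomputable def f_pp_113 : ℕ → ℕ → ℕ → ℕ → Bool := onCell 536870912 536870912 0 1230186008 134217728 67108864
    (rowN 3 2 false true true .nn 1 1 3 (qsf 536870912 536870912 0 1230186008 1) ndN0q1 ndN5q3 pcN1 cut_pp_113 Ext.none)

def k0_pp_113 : ∃ t, chk3 f_pp_113 t 1 1 1 = true :=
  ⟨(b (a (l 2) (a (l 2) (b (a (l 2) (b (a (l 2) (b (l 6) (l 3))) (l 3))) (l 3)))) (a (b (a (l 2) (b (l 2) (a (l 2) (l 3)))) (a (b (l 2) (l 3)) (l 3))) (b (a (l 3) (l 3)) (l 3)))), by decide +kernel⟩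

theorem c_pp_113 : CertN 536870912 536870912 0 1230186008 134217728 67108864 3 false true true .nn 1 1 3
    ndN0q1 ndN5q3 pcN1 cut_pp_113 Ext.none :=
  certN2 (fam := false) (s1 := true) (s2 := true) (a := 1) (b := 1) (c := 3) (cn := .nn) (n1 := ndN0q1) (n2 := ndN5q3) (pc := pcN1) (cut := cut_pp_113) (xt := Ext.none) (P1 := 536870912) (W1 := 536870912) (P2 := 0) (W2 := 1230186008) (P3 := 134217728) (W3 := 67108864) (N0 := 3)
    rfl (fun _ => rfl) k0_pp_113

noncomputable def cut_pp_123 : Cut := Cut.of [[⟨0, 1, 0, 39843005⟩, ⟨1, 1, 0, 39843005⟩, ⟨2, 2, 0, 5814905⟩]]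

noncomputable def f_pp_123 : ℕ → ℕ → ℕ → ℕ → Bool := onCell 1073741824 536870912 0 1230186008 134217728 67108864
    (rowN 3 2 false true true .npn 1 2 3 (qsf 536870912 536870912 0 1230186008 2) ndN0q1 ndN5q3 pcN2 cut_pp_123 Ext.none)

def k0_pp_123 : ∃ t, chk3 f_pp_123 t 2 8 1 = true :=
  ⟨(a (b (a (a (l 6) (a (l 16849664) (l 16818536))) (a (a (l 16841312) (l 16860736)) (a (l 16882736) (l 16907808)))) (a (a (b (l 6) (l 3)) (a (b (a (b (l 16828336) (a (a (l 6) (b (l 16780840) (b (l 16778704) (l 271824464087)))) (l 16800824))) (l 16836720)) (a (b (a (b (a (l 3) (b (a (b (c (l 325511549319) (l 329269645447)) (l 3)) (b (l 287930587271) (a (l 331953999847) (l 312626650423)))) (l 3))) (l 3)) (b (a (a (a (b (l 16782504) (b (l 319605972951) (l 3))) (c (l 279877528583) (l 281488138823))) (l 264845140503)) (l 16779192)) (a (a (l 3) (b (b (c (l 319069097527) (l 321753451927)) (l 3)) (l 3))) (b (l 276656302823) (a (b (l 329806525063) (l 3)) (b (l 297057393351) (a (l 295446788999) (l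 316384747415)))))))) (l 3)) (b (a (b (l 16782344) (a (l 269140111687) (l 16780464))) (l 16784840)) (a (b (a (a (b (b (c (l 312626645767) (l 314774129351)) (l 330880267159)) (l 3)) (b (l 284172496135) (b (c (l 321216581735) (l 324437807031)) (l 3)))) (b (l 16778256) (l 280414399655))) (a (l 3) (a (b (b (l 331417135671) (l 3)) (l 3)) (b (b (l 304036715687) (l 322290331559)) (l 3))))) (b (l 16780720) (a (a (a (b (l 16782984) (l 327659041751)) (c (l 288467464087) (l 291151813543))) (l 271287593207)) (l 16778840))))))) (b (l 16805280) (a (b (l 16790256) (l 16823352)) (l 16803592))))) (a (a (l 16819368) (l 16880560)) (a (l 16853072) (l 16875336))))) (a (a (a (l 16916120) (l 17027232)) (l 16968352)) (l 17240544))), by decide +kernel⟩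

def k1_pp_123 : ∃ t, chk3 f_pp_123 t 4 18 1 = true :=
  ⟨(a (a (l 3) (a (b (a (l 3) (b (a (l 3) (b (a (a (l 3) (b (a (l 296520532919) (l 323364073895)) (l 3))) (b (l 283098754535) (a (a (l 3) (l 294909919543)) (a (l 319605976983) (l 307794815319))))) (a (l 3) (a (l 3) (b (l 297594276695) (l 3)))))) (l 3))) (l 3)) (b (a (b (a (b (a (l 16783272) (l 16780232)) (a (a (b (b (l 314774135335) (l 294373048327)) (l 3)) (b (l 272898204391) (b (l 322290334503) (l 297057393815)))) (l 271287598407))) (l 16782128)) (a (b (a (l 3) (b (c (a (l 293836179063) (l 311552904871)) (a (l 296520533255) (l 313700388519))) (c (l 295983666487) (l 298668020375)))) (l 3)) (c (b (l 268066373767) (a (b (a (l 3) (l 323364067303)) (l 3)) (b (l 272898205351) (a (l 293299307959) (l 310479162999))))) (b (l 270750732839) (a (b (a (l 3) (l 326048421671)) (l 3)) (b (l 272361334807) (a (l 295983662231) (l 312089775831)))))))) (b (l 16788448) (a (l 16791096) (l 16785400)))) (a (b (a (l 3) (b (a (l 3) (b (c (l 295446795255)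 (l 298131149223)) (l 3))) (l 3))) (l 3)) (b (a (b (b (l 277193184679) (a (a (l 297594277655) (a (l 291151823543) (l 316921625575))) (l 16783224))) (a (l 3) (a (b (l 326048433143) (l 3)) (b (l 272898206967) (l 294909921367))))) (b (l 16780672) (l 268066378903))) (a (l 3) (b (a (b (a (l 296520535255) (l 316921626215)) (l 298131156679)) (a (b (l 16778544) (l 320679723559)) (l 16788584))) (a (l 3) (b (c (l 328732780071) (l 332490876087)) (l 3)))))))))) (a (b (a (l 16844488) (l 16859192)) (a (c (a (b (l 16787696) (a (l 266455769575) (l 16783576))) (l 16810608)) (a (b (l 16785544) (a (l 269140125495) (l 16782032))) (l 16807512))) (l 16809120))) (a (l 16836272) (l 16852176)))), by decide +kernel⟩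

def k2_pp_123 : ∃ t, chk3 f_pp_123 t 4 19 1 = true :=
  ⟨(a (l 3) (a (a (b (a (b (a (b (a (b (l 297057408711) (l 3)) (b (c (l 309405421863) (l 311552905783)) (c (l 324974682807) (l 327659037159)))) (a (l 3) (b (l 299204894487) (l 3)))) (b (l 16788472) (a (b (c (l 314774132711) (l 317995358311)) (c (l 294373063767) (l 296520547063))) (l 16788824)))) (a (l 3) (b (a (l 3) (b (c (l 321216585399) (l 323900939943)) (l 297594290951))) (l 3)))) (b (l 16784192) (a (a (b (l 271824472391) (b (c (l 325511554423) (l 328732779735)) (l 299204905527))) (l 277730056263)) (l 16780424)))) (a (l 3) (b (a (b (a (l 3) (b (l 330880280839) (l 301352369991))) (l 3)) (c (b (l 286319992487) (a (l 297057423159) (b (l 16790480) (l 323900941783)))) (b (l 292225573287) (a (l 299204906183) (l 318532230935))))) (a (l 3) (b (a (l 3) (l 299204908039)) (l 3)))))) (b (a (l 16792280) (l 16803456)) (a (b (l 16803064) (a (b (a (b (l 16785984) (l 328195920935)) (l 16778712)) (a (l 300278651303) (b (l 271287603735)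 (l 295983677991)))) (l 16799336))) (l 16790672)))) (a (l 16900656) (l 16839328)))), by decide +kernel⟩

def k3_pp_123 : ∃ t, chk3 f_pp_123 t 5 9 1 = true :=
  ⟨(a (a (a (l 16865984) (l 17037400)) (l 16919208)) (l 17153728)), by decide +kernel⟩

def k4_pp_123 : ∃ t, chk3 f_pp_123 t 3 4 1 = true :=
  ⟨(a (a (l 17145984) (l 17267808)) (a (l 17381808) (l 17524224))), by decide +kernel⟩

def k5_pp_123 : ∃ t, chk3 f_pp_123 t 2 10 1 = true :=
  ⟨(a (a (l 3) (a (b (a (l 3) (b (a (b (a (b (a (l 3) (l 302426136295)) (l 3)) (b (a (b (l 318532253319) (l 296520550119)) (l 16779752)) (a (l 303499858375) (b (l 321216608951) (l 297594272087))))) (a (l 3) (b (a (l 3) (l 304573601319)) (l 3)))) (b (a (l 16798520) (l 16783520)) (a (b (a (l 328732804983) (l 16801640)) (a (l 3) (l 331417160455))) (l 16798816)))) (a (l 3) (b (a (l 3) (b (a (l 333027774007) (l 16802408)) (a (l 3) (l 334638387447)))) (l 3))))) (l 3)) (a (b (b (l 16838128) (a (a (b (l 16799480) (a (b (l 298131166023) (l 3)) (b (l 16803008)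 (l 298668037431)))) (l 16800024)) (l 16788704))) (a (b (a (l 3) (b (a (b (l 298668016823) (l 3)) (b (l 16782456) (l 298131146183))) (a (l 3) (l 307257964823)))) (l 3)) (b (a (b (l 16800272) (a (l 335712140679) (l 322290360119))) (l 16800040)) (a (b (a (l 3) (l 304573609895)) (l 3)) (b (a (l 334638393383) (l 271287621383)) (a (l 3) (l 302962996279))))))) (b (l 16853240) (a (b (l 16788072) (c (l 266992681335) (c (l 273972005015) (l 277730091975)))) (l 16816336)))))) (a (a (a (b (l 16838576) (l 16855656)) (a (l 16847656) (l 16855968))) (l 16930440)) (a (l 16947008) (l 17004912)))), by decide +kernel⟩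

def k6_pp_123 : ∃ t, chk3 f_pp_123 t 2 11 1 = true :=
  ⟨(a (a (l 3) (a (l 3) (a (l 3) (b (a (b (a (b (l 306721137799) (l 3)) (b (a (l 330343403239) (l 16783640)) (l 341617734679))) (l 3)) (b (l 261087103911) (a (b (l 336785904567) (l 3)) (b (l 16804680) (a (l 300278641623) (l 16798480)))))) (a (l 3) (b (a (l 3) (b (l 309405456759) (l 3))) (l 3))))))) (a (a (a (b (a (b (l 16791024) (l 16802112)) (l 16800304)) (a (b (a (b (l 327659061447) (l 300815538903)) (l 16809896)) (a (l 3) (b (l 336785864359) (l 311016072455)))) (b (l 16805768) (l 266455832135)))) (a (b (l 16815960) (l 16816024)) (a (l 16902504) (a (l 16866864) (l 16828856))))) (l 16992376)) (a (l 16939424) (l 17006216)))), by decide +kernel⟩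

def k7_pp_123 : ∃ t, chk3 f_pp_123 t 3 5 1 = true :=
  ⟨(a (a (b (l 17089816) (l 17098056)) (l 17300696)) (b (l 17367944) (l 17417080))), by decide +kernel⟩

def k8_pp_123 : ∃ t, chk3 f_pp_123 t 1 3 1 = true :=
  ⟨(b (a (a (l 3) (a (a (a (b (b (a (l 3) (b (a (b (l 298668056391) (l 3)) (b (l 16787080) (l 333027767351))) (a (l 3) (b (l 309942327991) (l 3))))) (l 3)) (l 3)) (b (a (b (b (l 16824904) (a (l 324974753687) (l 16803664))) (b (a (b (l 309942328807) (l 3)) (l 266992695063)) (a (l 3) (l 336785917799)))) (b (a (l 16812280) (a (l 16798576) (l 16803800))) (a (b (l 16803664) (l 16831432)) (a (l 16829200) (l 16813168))))) (a (l 3) (b (a (b (l 330343482375) (l 345912748215)) (a (b (l 16809584) (l 16829968)) (l 16828504))) (a (l 3) (a (b (l 277193262135) (l 278267000999)) (l 262697748295))))))) (b (a (b (l 16826904) (l 16815160)) (l 16967624)) (a (a (b (l 16838840) (l 16835408)) (b (l 16817648) (l 16814976))) (a (l 16986120) (l 16987456))))) (b (a (l 16996984) (l 17003480))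 (b (l 16913584) (a (l 16917824) (l 17009912)))))) (a (b (a (l 17155096) (l 17257368)) (a (b (l 17127064) (l 17152072)) (l 17354832))) (b (a (l 17398568) (l 1)) (l 1)))) (a (a (b (l 3) (l 3)) (b (a (b (a (a (l 3) (a (l 3) (a (l 3) (b (a (l 3) (l 16793040)) (a (l 276119522791) (l 16791208)))))) (a (b (l 16827064) (l 16873416)) (l 16835928))) (b (a (a (l 3) (a (l 3) (a (l 364703247703) (a (l 262160881527) (l 16811288))))) (a (a (l 16804960) (l 16831016)) (l 16871888))) (a (a (l 3) (a (l 3) (a (l 271824568151) (a (l 16845040) (l 16798696))))) (a (a (l 16815688) (l 1)) (l 1))))) (b (a (l 16996400) (l 17036672)) (l 1))) (a (a (a (b (l 3) (l 1)) (l 1)) (l 1)) (l 1)))) (l 1))), by decide +kernel⟩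

theorem s9_pp_123 : ∃ t, chk3 f_pp_123 t 2 5 1 = true := ex3_b k5_pp_123 k6_pp_123

theorem s10_pp_123 : ∃ t, chk3 f_pp_123 t 1 5 1 = true := ex3_a s9_pp_123 k7_pp_123

theorem s11_pp_123 : ∃ t, chk3 f_pp_123 t 4 9 1 = true := ex3_b k1_pp_123 k2_pp_123

theorem s12_pp_123 : ∃ t, chk3 f_pp_123 t 2 9 1 = true := ex3_a s11_pp_123 k3_pp_123

theorem s13_pp_123 : ∃ t, chk3 f_pp_123 t 2 4 1 = true := ex3_b k0_pp_123 s12_pp_123

theorem s14_pp_123 : ∃ t, chk3 f_pp_123 t 1 4 1 = true := ex3_a s13_pp_123 k4_pp_123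

theorem s15_pp_123 : ∃ t, chk3 f_pp_123 t 1 2 1 = true := ex3_b s14_pp_123 s10_pp_123

theorem s16_pp_123 : ∃ t, chk3 f_pp_123 t 1 1 1 = true := ex3_b s15_pp_123 k8_pp_123

theorem c_pp_123 : CertN 536870912 536870912 0 1230186008 134217728 67108864 3 false true true .npn 1 2 3
    ndN0q1 ndN5q3 pcN2 cut_pp_123 Ext.none :=
  certN2 (fam := false) (s1 := true) (s2 := true) (a := 1) (b := 2) (c := 3) (cn := .npn) (n1 := ndN0q1) (n2 := ndN5q3) (pc := pcN2) (cut := cut_pp_123) (xt := Ext.none) (P1 := 536870912) (W1 := 536870912) (P2 := 0) (W2 := 1230186008) (P3 := 134217728) (W3 := 67108864) (N0 := 3)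
    rfl (fun _ => rfl) s16_pp_123

noncomputable def f_pp_133 : ℕ → ℕ → ℕ → ℕ → Bool := onCell 536870912 536870912 0 1230186008 134217728 67108864
    (rowN 3 0 false true true .dn 1 3 3 (qsf 536870912 536870912 0 1230186008 3) ndN0q1 ndN5q3 pcN3 Cut.none Ext.none)

def k0_pp_133 : ∃ t, chk3 f_pp_133 t 1 1 1 = true :=
  ⟨(b (b (a (a (a (b (l 16829416) (l 1)) (l 1)) (l 1)) (l 1)) (l 1)) (l 1)), by decide +kernel⟩

theorem c_pp_133 : CertN 536870912 536870912 0 1230186008 134217728 67108864 3 false true true .dn 1 3 3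
    ndN0q1 ndN5q3 pcN3 Cut.none Ext.none :=
  certN0 (fam := false) (s1 := true) (s2 := true) (a := 1) (b := 3) (c := 3) (cn := .dn) (n1 := ndN0q1) (n2 := ndN5q3) (pc := pcN3) (cut := Cut.none) (xt := Ext.none) (P1 := 536870912) (W1 := 536870912) (P2 := 0) (W2 := 1230186008) (P3 := 134217728) (W3 := 67108864) (N0 := 3)
    rfl k0_pp_133

noncomputable def f_pp_202 : ℕ → ℕ → ℕ → ℕ → Bool := onCell 0 536870912 1073741824 536870912 134217728 67108864
    (rowN 3 0 false true true .pp 2 0 2 (qsf 0 536870912 1073741824 536870912 0) ndN0q2 ndN5q2 pcN0 Cut.none Ext.none)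

def k0_pp_202 : ∃ t, chk3 f_pp_202 t 1 1 1 = true :=
  ⟨(l 5), by decide +kernel⟩

theorem c_pp_202 : CertN 0 536870912 1073741824 536870912 134217728 67108864 3 false true true .pp 2 0 2
    ndN0q2 ndN5q2 pcN0 Cut.none Ext.none :=
  certN0 (fam := false) (s1 := true) (s2 := true) (a := 2) (b := 0) (c := 2) (cn := .pp) (n1 := ndN0q2) (n2 := ndN5q2) (pc := pcN0) (cut := Cut.none) (xt := Ext.none) (P1 := 0) (W1 := 536870912) (P2 := 1073741824) (W2 := 536870912) (P3 := 134217728) (W3 := 67108864) (N0 := 3)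
    rfl k0_pp_202

noncomputable def f_pp_203 : ℕ → ℕ → ℕ → ℕ → Bool := onCell 0 536870912 0 1230186008 134217728 67108864
    (rowN 3 0 false true true .up 2 0 3 (qsf 0 536870912 0 1230186008 0) ndN0q2 ndN5q3 pcN0 Cut.none Ext.none)

def k0_pp_203 : ∃ t, chk3 f_pp_203 t 1 1 1 = true :=
  ⟨(b (l 2) (b (l 2) (a (l 5) (l 3)))), by decide +kernel⟩

theorem c_pp_203 : CertN 0 536870912 0 1230186008 134217728 67108864 3 false true true .up 2 0 3
    ndN0q2 ndN5q3 pcN0 Cut.none Ext.none :=
  certN0 (fam := false) (s1 := true) (s2 := true) (a := 2) (b := 0) (c := 3) (cn := .up) (n1 := ndN0q2) (n2 := ndN5q3) (pc := pcN0) (cut := Cut.none) (xt := Ext.none) (P1 := 0) (W1 := 536870912) (P2 := 0) (W2 := 1230186008) (P3 := 134217728) (W3 := 67108864) (N0 := 3)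
    rfl k0_pp_203

noncomputable def cut_pp_213 : Cut := Cut.of [[⟨0, 1, 0, 39843005⟩, ⟨1, 1, 0, 39843005⟩, ⟨2, 2, 0, 5814905⟩]]

noncomputable def f_pp_213 : ℕ → ℕ → ℕ → ℕ → Bool := onCell 0 536870912 0 1230186008 134217728 67108864
    (rowN 3 0 false true true .pnn 2 1 3 (qsf 0 536870912 0 1230186008 1) ndN0q2 ndN5q3 pcN1 cut_pp_213 Ext.none)

def k0_pp_213 : ∃ t, chk3 f_pp_213 t 1 1 1 = true :=
  ⟨(a (b (l 3) (l 5)) (b (b (a (l 3) (b (a (l 3) (b (a (l 3) (l 6)) (l 3))) (l 3))) (l 3)) (b (l 3) (l 3)))), by decide +kernel⟩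

theorem c_pp_213 : CertN 0 536870912 0 1230186008 134217728 67108864 3 false true true .pnn 2 1 3
    ndN0q2 ndN5q3 pcN1 cut_pp_213 Ext.none :=
  certN0 (fam := false) (s1 := true) (s2 := true) (a := 2) (b := 1) (c := 3) (cn := .pnn) (n1 := ndN0q2) (n2 := ndN5q3) (pc := pcN1) (cut := cut_pp_213) (xt := Ext.none) (P1 := 0) (W1 := 536870912) (P2 := 0) (W2 := 1230186008) (P3 := 134217728) (W3 := 67108864) (N0 := 3)
    rfl k0_pp_213

noncomputable def f_pm_001 : ℕ → ℕ → ℕ → ℕ → Bool := onCell 0 536870912 536870912 536870912 134217728 67108864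
    (rowN 3 0 false true false .up 0 0 1 (qsf 0 536870912 536870912 536870912 0) ndN0q0 ndN5q1 pcN0 Cut.none Ext.none)

def k0_pm_001 : ∃ t, chk3 f_pm_001 t 1 1 1 = true :=
  ⟨(l 4), by decide +kernel⟩

theorem c_pm_001 : CertN 0 536870912 536870912 536870912 134217728 67108864 3 false true false .up 0 0 1
    ndN0q0 ndN5q1 pcN0 Cut.none Ext.none :=
  certN0 (fam := false) (s1 := true) (s2 := false) (a := 0) (b := 0) (c := 1) (cn := .up) (n1 := ndN0q0) (n2 := ndN5q1) (pc := pcN0) (cut := Cut.none) (xt := Ext.none) (P1 := 0) (W1 := 536870912) (P2 := 536870912) (W2 := 536870912) (P3 := 134217728) (W3 := 67108864) (N0 := 3)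
    rfl k0_pm_001

noncomputable def f_pm_011 : ℕ → ℕ → ℕ → ℕ → Bool := onCell 0 536870912 536870912 536870912 134217728 67108864
    (rowN 3 0 false true false .pnn 0 1 1 (qsf 0 536870912 536870912 536870912 1) ndN0q0 ndN5q1 pcN1 Cut.none Ext.none)

def k0_pm_011 : ∃ t, chk3 f_pm_011 t 1 1 1 = true :=
  ⟨(l 4), by decide +kernel⟩

theorem c_pm_011 : CertN 0 536870912 536870912 536870912 134217728 67108864 3 false true false .pnn 0 1 1
    ndN0q0 ndN5q1 pcN1 Cut.none Ext.none :=
  certN0 (fam := false) (s1 := true) (s2 := false) (a := 0) (b := 1) (c := 1) (cn := .pnn) (n1 := ndN0q0) (n2 := ndN5q1) (pc := pcN1) (cut := Cut.none) (xt := Ext.none) (P1 := 0) (W1 := 536870912) (P2 := 536870912) (W2 := 536870912) (P3 := 134217728) (W3 := 67108864) (N0 := 3)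
    rfl k0_pm_011

noncomputable def f_pm_012 : ℕ → ℕ → ℕ → ℕ → Bool := onCell 0 536870912 1073741824 536870912 134217728 67108864
    (rowN 3 0 false true false .pnp 0 1 2 (qsf 0 536870912 1073741824 536870912 1) ndN0q0 ndN5q2 pcN1 Cut.none Ext.none)

def k0_pm_012 : ∃ t, chk3 f_pm_012 t 1 1 1 = true :=
  ⟨(l 4), by decide +kernel⟩

theorem c_pm_012 : CertN 0 536870912 1073741824 536870912 134217728 67108864 3 false true false .pnp 0 1 2
    ndN0q0 ndN5q2 pcN1 Cut.none Ext.none :=
  certN0 (fam := false) (s1 := true) (s2 := false) (a := 0) (b := 1) (c := 2) (cn := .pnp) (n1 := ndN0q0) (n2 := ndN5q2) (pc := pcN1) (cut := Cut.none) (xt := Ext.none) (P1 := 0) (W1 := 536870912) (P2 := 1073741824) (W2 := 536870912) (P3 := 134217728) (W3 := 67108864) (N0 := 3)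
    rfl k0_pm_012

noncomputable def f_pm_022 : ℕ → ℕ → ℕ → ℕ → Bool := onCell 0 536870912 1073741824 536870912 134217728 67108864
    (rowN 3 0 false true false .pp 0 2 2 (qsf 0 536870912 1073741824 536870912 2) ndN0q0 ndN5q2 pcN2 Cut.none Ext.none)

def k0_pm_022 : ∃ t, chk3 f_pm_022 t 1 1 1 = true :=
  ⟨(l 4), by decide +kernel⟩

theorem c_pm_022 : CertN 0 536870912 1073741824 536870912 134217728 67108864 3 false true false .pp 0 2 2
    ndN0q0 ndN5q2 pcN2 Cut.none Ext.none :=
  certN0 (fam := false) (s1 := true) (s2 := false) (a := 0) (b := 2) (c := 2) (cn := .pp) (n1 := ndN0q0) (n2 := ndN5q2) (pc := pcN2) (cut := Cut.none) (xt := Ext.none) (P1 := 0) (W1 := 536870912) (P2 := 1073741824) (W2 := 536870912) (P3 := 134217728) (W3 := 67108864) (N0 := 3)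
    rfl k0_pm_022

noncomputable def f_pm_023 : ℕ → ℕ → ℕ → ℕ → Bool := onCell 0 536870912 0 1230186008 134217728 67108864
    (rowN 3 0 false true false .up 0 2 3 (qsf 0 536870912 0 1230186008 2) ndN0q0 ndN5q3 pcN2 Cut.none Ext.none)

def k0_pm_023 : ∃ t, chk3 f_pm_023 t 1 1 1 = true :=
  ⟨(a (b (l 2) (l 4)) (b (a (l 2) (b (l 17681296) (a (l 4) (l 4)))) (l 4))), by decide +kernel⟩

theorem c_pm_023 : CertN 0 536870912 0 1230186008 134217728 67108864 3 false true false .up 0 2 3
    ndN0q0 ndN5q3 pcN2 Cut.none Ext.none :=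
  certN0 (fam := false) (s1 := true) (s2 := false) (a := 0) (b := 2) (c := 3) (cn := .up) (n1 := ndN0q0) (n2 := ndN5q3) (pc := pcN2) (cut := Cut.none) (xt := Ext.none) (P1 := 0) (W1 := 536870912) (P2 := 0) (W2 := 1230186008) (P3 := 134217728) (W3 := 67108864) (N0 := 3)
    rfl k0_pm_023

noncomputable def f_pm_033 : ℕ → ℕ → ℕ → ℕ → Bool := onCell 1610612736 536870912 0 1230186008 134217728 67108864
    (rowN 3 2 false true false .pnn 0 3 3 (qsf 0 536870912 0 1230186008 3) ndN0q0 ndN5q3 pcN3 Cut.none Ext.none)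

def k0_pm_033 : ∃ t, chk3 f_pm_033 t 1 1 1 = true :=
  ⟨(b (a (b (a (a (l 17286696) (l 17374880)) (l 17525496)) (l 4)) (l 4)) (l 4)), by decide +kernel⟩

theorem c_pm_033 : CertN 0 536870912 0 1230186008 134217728 67108864 3 false true false .pnn 0 3 3
    ndN0q0 ndN5q3 pcN3 Cut.none Ext.none :=
  certN2 (fam := false) (s1 := true) (s2 := false) (a := 0) (b := 3) (c := 3) (cn := .pnn) (n1 := ndN0q0) (n2 := ndN5q3) (pc := pcN3) (cut := Cut.none) (xt := Ext.none) (P1 := 0) (W1 := 536870912) (P2 := 0) (W2 := 1230186008) (P3 := 134217728) (W3 := 67108864) (N0 := 3)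
    rfl (fun _ => rfl) k0_pm_033

noncomputable def f_pm_101 : ℕ → ℕ → ℕ → ℕ → Bool := onCell 536870912 536870912 536870912 536870912 134217728 67108864
    (rowN 3 0 false true false .npn 1 0 1 (qsf 536870912 536870912 536870912 536870912 0) ndN0q1 ndN5q1 pcN0 Cut.none Ext.none)

def k0_pm_101 : ∃ t, chk3 f_pm_101 t 1 1 1 = true :=
  ⟨(l 4), by decide +kernel⟩

theorem c_pm_101 : CertN 536870912 536870912 536870912 536870912 134217728 67108864 3 false true false .npn 1 0 1
    ndN0q1 ndN5q1 pcN0 Cut.none Ext.none :=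
  certN0 (fam := false) (s1 := true) (s2 := false) (a := 1) (b := 0) (c := 1) (cn := .npn) (n1 := ndN0q1) (n2 := ndN5q1) (pc := pcN0) (cut := Cut.none) (xt := Ext.none) (P1 := 536870912) (W1 := 536870912) (P2 := 536870912) (W2 := 536870912) (P3 := 134217728) (W3 := 67108864) (N0 := 3)
    rfl k0_pm_101

noncomputable def f_pm_102 : ℕ → ℕ → ℕ → ℕ → Bool := onCell 536870912 536870912 0 536870912 134217728 67108864
    (rowN 3 1 false true false .npp 1 0 2 (qsf 536870912 536870912 1073741824 536870912 0) ndN0q1 ndN5q2 pcN0 Cut.none Ext.none)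

def k0_pm_102 : ∃ t, chk3 f_pm_102 t 1 1 1 = true :=
  ⟨(a (l 4) (b (l 4) (b (l 4) (a (l 4) (b (l 4) (a (l 4) (l 18003512))))))), by decide +kernel⟩

theorem c_pm_102 : CertN 536870912 536870912 1073741824 536870912 134217728 67108864 3 false true false .npp 1 0 2
    ndN0q1 ndN5q2 pcN0 Cut.none Ext.none :=
  certN1 (fam := false) (s1 := true) (s2 := false) (a := 1) (b := 0) (c := 2) (cn := .npp) (n1 := ndN0q1) (n2 := ndN5q2) (pc := pcN0) (cut := Cut.none) (xt := Ext.none) (P1 := 536870912) (W1 := 536870912) (P2 := 1073741824) (W2 := 536870912) (P3 := 134217728) (W3 := 67108864) (N0 := 3)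
    rfl (fun _ => rfl) k0_pm_102

noncomputable def f_pm_112 : ℕ → ℕ → ℕ → ℕ → Bool := onCell 536870912 536870912 1073741824 536870912 134217728 67108864
    (rowN 3 0 false true false .dn 1 1 2 (qsf 536870912 536870912 1073741824 536870912 1) ndN0q1 ndN5q2 pcN1 Cut.none Ext.none)

def k0_pm_112 : ∃ t, chk3 f_pm_112 t 1 1 1 = true :=
  ⟨(a (l 4) (b (l 4) (b (l 4) (a (l 4) (l 18586520))))), by decide +kernel⟩

theorem c_pm_112 : CertN 536870912 536870912 1073741824 536870912 134217728 67108864 3 false true false .dn 1 1 2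
    ndN0q1 ndN5q2 pcN1 Cut.none Ext.none :=
  certN0 (fam := false) (s1 := true) (s2 := false) (a := 1) (b := 1) (c := 2) (cn := .dn) (n1 := ndN0q1) (n2 := ndN5q2) (pc := pcN1) (cut := Cut.none) (xt := Ext.none) (P1 := 536870912) (W1 := 536870912) (P2 := 1073741824) (W2 := 536870912) (P3 := 134217728) (W3 := 67108864) (N0 := 3)
    rfl k0_pm_112

noncomputable def cut_pm_113 : Cut := Cut.of [[⟨0, 1, 0, 39843005⟩, ⟨1, 1, 0, 39843005⟩, ⟨2, 2, 0, 5814905⟩]]

noncomputable def f_pm_113 : ℕ → ℕ → ℕ → ℕ → Bool := onCell 536870912 536870912 0 1230186008 134217728 67108864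
    (rowN 3 0 false true false .nn 1 1 3 (qsf 536870912 536870912 0 1230186008 1) ndN0q1 ndN5q3 pcN1 cut_pm_113 Ext.none)

def k0_pm_113 : ∃ t, chk3 f_pm_113 t 1 1 1 = true :=
  ⟨(b (a (l 2) (a (l 2) (b (a (l 2) (b (a (l 2) (b (l 6) (l 16813992))) (l 16850024))) (a (b (l 16954840) (l 17218264)) (b (l 16893216) (l 16899456)))))) (b (b (a (l 2) (a (a (l 2) (l 17985744)) (l 17551032))) (a (l 4) (a (a (l 18532016) (b (a (l 18255440) (b (l 18035848) (l 18116792))) (a (b (l 18345432) (l 18396104)) (b (l 18187856) (l 18257072))))) (b (a (b (l 17729128) (l 17812328)) (l 17413752)) (a (a (l 18057424) (l 17842624)) (a (l 17667736) (l 17495648))))))) (a (l 4) (b (a (a (l 4) (b (a (l 18419144) (l 18327424)) (l 18420512))) (b (a (a (l 18208168) (l 18033728)) (a (l 17853360) (l 17692384))) (a (l 18251776) (l 18002616)))) (a (l 4) (l 18320112)))))), by decide +kernel⟩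

theorem c_pm_113 : CertN 536870912 536870912 0 1230186008 134217728 67108864 3 false true false .nn 1 1 3
    ndN0q1 ndN5q3 pcN1 cut_pm_113 Ext.none :=
  certN0 (fam := false) (s1 := true) (s2 := false) (a := 1) (b := 1) (c := 3) (cn := .nn) (n1 := ndN0q1) (n2 := ndN5q3) (pc := pcN1) (cut := cut_pm_113) (xt := Ext.none) (P1 := 536870912) (W1 := 536870912) (P2 := 0) (W2 := 1230186008) (P3 := 134217728) (W3 := 67108864) (N0 := 3)
    rfl k0_pm_113

noncomputable def cut_pm_123 : Cut := Cut.of [[⟨0, 1, 0, 39843005⟩, ⟨1, 1, 0, 39843005⟩, ⟨2, 2, 0, 5814905⟩]]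

noncomputable def f_pm_123 : ℕ → ℕ → ℕ → ℕ → Bool := onCell 1073741824 536870912 0 1230186008 134217728 67108864
    (rowN 3 2 false true false .npn 1 2 3 (qsf 536870912 536870912 0 1230186008 2) ndN0q1 ndN5q3 pcN2 cut_pm_123 Ext.none)

def k0_pm_123 : ∃ t, chk3 f_pm_123 t 1 1 1 = true :=
  ⟨(b (b (a (a (a (b (b (a (l 6) (l 16829408)) (l 17066704)) (b (l 16892912) (l 17001304))) (a (a (l 17002232) (a (l 17256224) (l 17042552))) (a (b (l 16951816) (l 17115752)) (l 17166624)))) (a (a (a (l 17090840) (b (l 17084328) (l 17207840))) (l 17157400)) (b (l 17149616) (l 17344280)))) (a (b (l 17363024) (l 17528088)) (l 17578176))) (a (b (a (a (l 17208456) (a (a (l 17301040) (l 17330704)) (l 17367208))) (a (a (l 17423616) (l 17478032)) (l 17564208))) (a (a (l 17544760) (b (l 17571688) (l 17762768))) (l 17734384))) (a (a (l 17706640) (l 17730520)) (l 17785304)))) (b (a (a (b (l 18061344) (l 18171528)) (b (l 17906648) (l 4))) (l 4)) (l 4))), by decide +kernel⟩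

theorem c_pm_123 : CertN 536870912 536870912 0 1230186008 134217728 67108864 3 false true false .npn 1 2 3
    ndN0q1 ndN5q3 pcN2 cut_pm_123 Ext.none :=
  certN2 (fam := false) (s1 := true) (s2 := false) (a := 1) (b := 2) (c := 3) (cn := .npn) (n1 := ndN0q1) (n2 := ndN5q3) (pc := pcN2) (cut := cut_pm_123) (xt := Ext.none) (P1 := 536870912) (W1 := 536870912) (P2 := 0) (W2 := 1230186008) (P3 := 134217728) (W3 := 67108864) (N0 := 3)
    rfl (fun _ => rfl) k0_pm_123

noncomputable def f_pm_133 : ℕ → ℕ → ℕ → ℕ → Bool := onCell 1610612736 536870912 0 1230186008 134217728 67108864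
    (rowN 3 2 false true false .dn 1 3 3 (qsf 536870912 536870912 0 1230186008 3) ndN0q1 ndN5q3 pcN3 Cut.none Ext.none)

def k0_pm_133 : ∃ t, chk3 f_pm_133 t 1 1 1 = true :=
  ⟨(b (b (a (a (a (l 17287640) (l 1)) (l 1)) (l 1)) (l 1)) (l 1)), by decide +kernel⟩

theorem c_pm_133 : CertN 536870912 536870912 0 1230186008 134217728 67108864 3 false true false .dn 1 3 3
    ndN0q1 ndN5q3 pcN3 Cut.none Ext.none :=
  certN2 (fam := false) (s1 := true) (s2 := false) (a := 1) (b := 3) (c := 3) (cn := .dn) (n1 := ndN0q1) (n2 := ndN5q3) (pc := pcN3) (cut := Cut.none) (xt := Ext.none) (P1 := 536870912) (W1 := 536870912) (P2 := 0) (W2 := 1230186008) (P3 := 134217728) (W3 := 67108864) (N0 := 3)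
    rfl (fun _ => rfl) k0_pm_133

noncomputable def f_pm_202 : ℕ → ℕ → ℕ → ℕ → Bool := onCell 0 536870912 1073741824 536870912 134217728 67108864
    (rowN 3 0 false true false .pp 2 0 2 (qsf 0 536870912 1073741824 536870912 0) ndN0q2 ndN5q2 pcN0 Cut.none Ext.none)

def k0_pm_202 : ∃ t, chk3 f_pm_202 t 1 1 1 = true :=
  ⟨(a (b (b (b (l 1) (a (l 1) (l 18582784))) (b (a (l 18144792) (l 18557552)) (a (l 17986384) (l 18297944)))) (b (a (b (l 17736752) (a (l 17465008) (l 17525904))) (b (l 17968176) (a (l 17675536) (l 17733736)))) (b (a (a (l 17469960) (l 17439816)) (l 17499776)) (a (l 17415432) (l 17711376))))) (b (b (a (b (l 1) (l 19020096)) (l 4)) (a (b (l 18899752) (l 18630784)) (l 29767167879))) (b (a (b (l 18339112) (a (l 17860568) (l 18122064))) (b (l 18398728) (l 18208136))) (a (b (a (l 17561288) (l 17697824)) (b (a (l 17435680) (l 17454488)) (l 17488320))) (b (a (l 18039720) (l 18379080)) (a (b (l 17668016) (l 17434672)) (l 17973480))))))), by decide +kernel⟩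

theorem c_pm_202 : CertN 0 536870912 1073741824 536870912 134217728 67108864 3 false true false .pp 2 0 2
    ndN0q2 ndN5q2 pcN0 Cut.none Ext.none :=
  certN0 (fam := false) (s1 := true) (s2 := false) (a := 2) (b := 0) (c := 2) (cn := .pp) (n1 := ndN0q2) (n2 := ndN5q2) (pc := pcN0) (cut := Cut.none) (xt := Ext.none) (P1 := 0) (W1 := 536870912) (P2 := 1073741824) (W2 := 536870912) (P3 := 134217728) (W3 := 67108864) (N0 := 3)
    rfl k0_pm_202

noncomputable def f_pm_203 : ℕ → ℕ → ℕ → ℕ → Bool := onCell 0 536870912 0 1230186008 134217728 67108864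
    (rowN 3 0 false true false .up 2 0 3 (qsf 0 536870912 0 1230186008 0) ndN0q2 ndN5q3 pcN0 Cut.none Ext.none)

def k0_pm_203 : ∃ t, chk3 f_pm_203 t 1 1 1 = true :=
  ⟨(b (l 2) (b (l 2) (b (a (b (l 2) (a (l 227197202231) (l 17577552))) (l 2)) (a (b (a (a (l 17151312) (l 17283416)) (l 17449376)) (a (a (l 17276192) (l 17389464)) (l 17504128))) (a (b (l 17593176) (l 17552104)) (b (a (l 17539040) (l 2)) (a (b (l 17456168) (l 17342152)) (b (a (l 17356416) (l 2)) (l 17441120))))))))), by decide +kernel⟩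

theorem c_pm_203 : CertN 0 536870912 0 1230186008 134217728 67108864 3 false true false .up 2 0 3
    ndN0q2 ndN5q3 pcN0 Cut.none Ext.none :=
  certN0 (fam := false) (s1 := true) (s2 := false) (a := 2) (b := 0) (c := 3) (cn := .up) (n1 := ndN0q2) (n2 := ndN5q3) (pc := pcN0) (cut := Cut.none) (xt := Ext.none) (P1 := 0) (W1 := 536870912) (P2 := 0) (W2 := 1230186008) (P3 := 134217728) (W3 := 67108864) (N0 := 3)
    rfl k0_pm_203

noncomputable def cut_pm_213 : Cut := Cut.of [[⟨0, 1, 0, 39843005⟩, ⟨1, 1, 0, 39843005⟩, ⟨2, 2, 0, 5814905⟩]]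

noncomputable def f_pm_213 : ℕ → ℕ → ℕ → ℕ → Bool := onCell 0 536870912 0 1230186008 134217728 67108864
    (rowN 3 0 false true false .pnn 2 1 3 (qsf 0 536870912 0 1230186008 1) ndN0q2 ndN5q3 pcN1 cut_pm_213 Ext.none)

def k0_pm_213 : ∃ t, chk3 f_pm_213 t 2 2 1 = true :=
  ⟨(b (l 3) (a (l 3) (b (l 3) (a (b (l 3) (a (l 3) (b (l 3) (a (l 3) (l 301352405655))))) (b (a (l 3) (b (a (l 3) (l 300815528615)) (a (l 293836216119) (l 268603288103)))) (a (b (a (l 3) (l 287930638407)) (a (l 273435137415) (l 254644637047))) (b (a (l 260550233383) (l 16791120)) (l 16795568)))))))), by decide +kernel⟩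

def k1_pm_213 : ∃ t, chk3 f_pm_213 t 6 4 1 = true :=
  ⟨(b (l 3) (a (l 3) (b (l 3) (a (l 3) (b (a (l 3) (b (l 3) (a (l 3) (b (l 283635630183) (l 279340663607))))) (a (b (l 3) (a (l 286856868551) (l 275045708023))) (b (a (b (l 279340674519) (l 276119449575)) (l 262160802679)) (a (l 16790072) (l 16784656))))))))), by decide +kernel⟩

def k2_pm_213 : ∃ t, chk3 f_pm_213 t 7 4 1 = true :=
  ⟨(b (a (b (l 3) (a (l 3) (b (l 3) (a (l 3) (b (a (l 3) (a (l 3) (c (l 280951267303) (l 280951269735)))) (a (b (l 3) (a (l 3) (l 275582556631))) (b (a (l 276656298071) (b (l 273435077927) (l 16782728))) (a (l 265918885447) (l 16780496))))))))) (b (a (a (l 3) (l 6)) (l 6)) (a (b (a (b (l 3) (a (b (l 3) (l 3)) (a (a (b (l 3) (l 275582555607)) (l 6)) (l 6)))) (l 6)) (a (b (a (b (a (l 278266909479) (b (l 274508814119) (l 266992626551))) (a (b (l 273971948695) (l 263234530679)) (l 16779704))) (b (a (b (l 16782456) (l 16780096)) (l 6)) (l 16783840))) (l 16806768)) (l 16793872))) (b (l 6) (l 16810776)))))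 (a (b (a (b (l 3) (a (b (l 3) (a (l 3) (b (l 3) (l 277730048615)))) (b (a (b (l 3) (a (l 3) (l 275045693255))) (b (l 277730044535) (l 271824472199))) (a (b (l 278266918983) (l 268603252311)) (l 16791392))))) (b (a (b (a (l 3) (b (l 3) (a (l 274508817911) (l 274508820711)))) (a (b (a (l 3) (l 275582563095)) (a (l 276656305367) (l 271824466455))) (b (a (l 273435079095) (l 16778976)) (l 16780744)))) (b (a (b (a (l 275582562247) (l 260013306023)) (a (l 16783808) (l 16781296))) (l 16783864)) (l 16787400))) (a (b (a (b (a (l 269676993319) (l 16779808)) (l 16781592)) (l 16785504)) (l 16789080)) (l 16797032)))) (a (b (a (b (a (b (l 3) (l 278803791479)) (b (l 275045694423) (l 262160801495))) (a (l 266455769607) (l 16782720))) (l 16808720)) (l 16794920)) (l 16810904))) (b (a (l 16807728) (l 16830760)) (l 16844936)))), by decide +kernel⟩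

def k3_pm_213 : ∃ t, chk3 f_pm_213 t 3 5 1 = true :=
  ⟨(a (b (a (b (a (l 3) (b (l 3) (a (l 3) (b (l 3) (l 291688712391))))) (a (b (l 3) (a (l 3) (b (l 293299308567) (l 276119460551)))) (b (a (b (l 3) (l 284709392135)) (b (l 276656326951) (l 259476457495))) (a (b (l 269677007703) (l 16785256)) (l 16788120))))) (b (a (b (a (l 3) (b (a (l 3) (l 284709385799)) (a (l 280951290903) (l 269140129687)))) (a (b (a (l 289004335303) (l 279877550455)) (l 268066395271)) (b (l 254107753175) (l 16786328)))) (b (a (b (a (l 272361354391) (l 16780376)) (l 16784064)) (l 16791584)) (l 16798864))) (a (b (l 16811624) (l 16803248)) (l 16817944)))) (a (b (a (b (a (b (l 284709396583) (l 270213883415)) (l 252497161735)) (l 16809440)) (l 16802032)) (l 16815016)) (l 16905816))) (b (a (l 17006224) (l 16884640)) (a (l 16882728) (l 16919120)))), by decide +kernel⟩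

def k4_pm_213 : ∃ t, chk3 f_pm_213 t 1 3 1 = true :=
  ⟨(b (a (b (a (a (l 3) (b (l 3) (a (l 3) (b (a (l 3) (l 295983701175)) (a (l 283635692567) (l 253570939031)))))) (a (b (a (b (l 3) (a (l 3) (l 282561947527))) (b (a (l 292762471431) (l 264308335927)) (a (l 255718406791) (l 16800440)))) (a (b (a (l 264308340551) (l 16823952)) (l 16809528)) (l 16816200))) (b (a (l 16854280) (l 16810360)) (l 16837608)))) (a (b (a (a (l 3) (b (l 3) (a (l 3) (l 282025081287)))) (a (b (b (l 292762478007) (l 265382090791)) (a (b (l 264308323271) (l 16825448)) (l 16810712))) (b (a (l 256255309543) (l 16812712)) (l 16827168)))) (a (a (b (l 310479246231) (b (l 276656374407) (a (l 270213901223) (l 16786152)))) (b (a (b (l 278803834071) (l 257865877207)) (b (l 253034043095) (l 16812224))) (b (l 16796144) (l 16830344)))) (a (l 16881040) (l 16868440)))) (b (l 17039432) (l 16945480)))) (b (a (a (l 16884288) (l 16873016)) (a (l 16897904) (l 16957728))) (a (b (l 16958432) (l 17069648)) (a (l 17121648) (l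 17262184))))) (a (b (a (b (a (a (b (a (b (a (l 254107746935) (l 16807896)) (l 16817568)) (l 16827472)) (l 16853176)) (l 16873568)) (l 16935744)) (a (l 16956704) (l 17071648))) (b (l 17065840) (l 17212464))) (b (a (l 1) (l 17388192)) (l 1))) (b (a (b (l 17211120) (l 17471296)) (b (l 17492704) (l 17667632))) (a (b (l 17605144) (l 1)) (b (l 18042040) (l 18086928)))))), by decide +kernel⟩

theorem s5_pm_213 : ∃ t, chk3 f_pm_213 t 3 4 1 = true := ex3_a k1_pm_213 k2_pm_213

theorem s6_pm_213 : ∃ t, chk3 f_pm_213 t 3 2 1 = true := ex3_b s5_pm_213 k3_pm_213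

theorem s7_pm_213 : ∃ t, chk3 f_pm_213 t 1 2 1 = true := ex3_a k0_pm_213 s6_pm_213

theorem s8_pm_213 : ∃ t, chk3 f_pm_213 t 1 1 1 = true := ex3_b s7_pm_213 k4_pm_213

theorem c_pm_213 : CertN 0 536870912 0 1230186008 134217728 67108864 3 false true false .pnn 2 1 3
    ndN0q2 ndN5q3 pcN1 cut_pm_213 Ext.none :=
  certN0 (fam := false) (s1 := true) (s2 := false) (a := 2) (b := 1) (c := 3) (cn := .pnn) (n1 := ndN0q2) (n2 := ndN5q3) (pc := pcN1) (cut := cut_pm_213) (xt := Ext.none) (P1 := 0) (W1 := 536870912) (P2 := 0) (W2 := 1230186008) (P3 := 134217728) (W3 := 67108864) (N0 := 3)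
    rfl s8_pm_213

noncomputable def f_mm_001 : ℕ → ℕ → ℕ → ℕ → Bool := onCell 0 536870912 0 536870912 134217728 67108864
    (rowN 3 1 false false false .up 0 0 1 (qsf 0 536870912 536870912 536870912 0) ndN0q0 ndN5q1 pcN0 Cut.none Ext.none)

def k0_mm_001 : ∃ t, chk3 f_mm_001 t 1 1 1 = true :=
  ⟨(l 3), by decide +kernel⟩

theorem c_mm_001 : CertN 0 536870912 536870912 536870912 134217728 67108864 3 false false false .up 0 0 1
    ndN0q0 ndN5q1 pcN0 Cut.none Ext.none :=
  certN1 (fam := false) (s1 := false) (s2 := false) (a := 0) (b := 0) (c := 1) (cn := .up) (n1 := ndN0q0) (n2 := ndN5q1) (pc := pcN0) (cut := Cut.none) (xt := Ext.none) (P1 := 0) (W1 := 536870912) (P2 := 536870912) (W2 := 536870912) (P3 := 134217728) (W3 := 67108864) (N0 := 3)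
    rfl (fun _ => rfl) k0_mm_001

noncomputable def f_mm_011 : ℕ → ℕ → ℕ → ℕ → Bool := onCell 0 536870912 536870912 536870912 134217728 67108864
    (rowN 3 1 false false false .pnn 0 1 1 (qsf 0 536870912 536870912 536870912 1) ndN0q0 ndN5q1 pcN1 Cut.none Ext.none)

def k0_mm_011 : ∃ t, chk3 f_mm_011 t 1 1 1 = true :=
  ⟨(l 5), by decide +kernel⟩

theorem c_mm_011 : CertN 0 536870912 536870912 536870912 134217728 67108864 3 false false false .pnn 0 1 1
    ndN0q0 ndN5q1 pcN1 Cut.none Ext.none :=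
  certN1 (fam := false) (s1 := false) (s2 := false) (a := 0) (b := 1) (c := 1) (cn := .pnn) (n1 := ndN0q0) (n2 := ndN5q1) (pc := pcN1) (cut := Cut.none) (xt := Ext.none) (P1 := 0) (W1 := 536870912) (P2 := 536870912) (W2 := 536870912) (P3 := 134217728) (W3 := 67108864) (N0 := 3)
    rfl (fun _ => rfl) k0_mm_011

noncomputable def f_mm_012 : ℕ → ℕ → ℕ → ℕ → Bool := onCell 0 536870912 1073741824 536870912 134217728 67108864
    (rowN 3 0 false false false .pnp 0 1 2 (qsf 0 536870912 1073741824 536870912 1) ndN0q0 ndN5q2 pcN1 Cut.none Ext.none)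

def k0_mm_012 : ∃ t, chk3 f_mm_012 t 1 1 1 = true :=
  ⟨(l 5), by decide +kernel⟩

theorem c_mm_012 : CertN 0 536870912 1073741824 536870912 134217728 67108864 3 false false false .pnp 0 1 2
    ndN0q0 ndN5q2 pcN1 Cut.none Ext.none :=
  certN0 (fam := false) (s1 := false) (s2 := false) (a := 0) (b := 1) (c := 2) (cn := .pnp) (n1 := ndN0q0) (n2 := ndN5q2) (pc := pcN1) (cut := Cut.none) (xt := Ext.none) (P1 := 0) (W1 := 536870912) (P2 := 1073741824) (W2 := 536870912) (P3 := 134217728) (W3 := 67108864) (N0 := 3)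
    rfl k0_mm_012

noncomputable def f_mm_022 : ℕ → ℕ → ℕ → ℕ → Bool := onCell 0 536870912 1073741824 536870912 134217728 67108864
    (rowN 3 0 false false false .pp 0 2 2 (qsf 0 536870912 1073741824 536870912 2) ndN0q0 ndN5q2 pcN2 Cut.none Ext.none)

def k0_mm_022 : ∃ t, chk3 f_mm_022 t 1 1 1 = true :=
  ⟨(l 5), by decide +kernel⟩

theorem c_mm_022 : CertN 0 536870912 1073741824 536870912 134217728 67108864 3 false false false .pp 0 2 2
    ndN0q0 ndN5q2 pcN2 Cut.none Ext.none :=
  certN0 (fam := false) (s1 := false) (s2 := false) (a := 0) (b := 2) (c := 2) (cn := .pp) (n1 := ndN0q0) (n2 := ndN5q2) (pc := pcN2) (cut := Cut.none) (xt := Ext.none) (P1 := 0) (W1 := 536870912) (P2 := 1073741824) (W2 := 536870912) (P3 := 134217728) (W3 := 67108864) (N0 := 3)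
    rfl k0_mm_022

noncomputable def f_mm_023 : ℕ → ℕ → ℕ → ℕ → Bool := onCell 0 536870912 0 1230186008 134217728 67108864
    (rowN 3 0 false false false .up 0 2 3 (qsf 0 536870912 0 1230186008 2) ndN0q0 ndN5q3 pcN2 Cut.none Ext.none)

def k0_mm_023 : ∃ t, chk3 f_mm_023 t 1 1 1 = true :=
  ⟨(l 5), by decide +kernel⟩

theorem c_mm_023 : CertN 0 536870912 0 1230186008 134217728 67108864 3 false false false .up 0 2 3
    ndN0q0 ndN5q3 pcN2 Cut.none Ext.none :=
  certN0 (fam := false) (s1 := false) (s2 := false) (a := 0) (b := 2) (c := 3) (cn := .up) (n1 := ndN0q0) (n2 := ndN5q3) (pc := pcN2) (cut := Cut.none) (xt := Ext.none) (P1 := 0) (W1 := 536870912) (P2 := 0) (W2 := 1230186008) (P3 := 134217728) (W3 := 67108864) (N0 := 3)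
    rfl k0_mm_023

noncomputable def f_mm_033 : ℕ → ℕ → ℕ → ℕ → Bool := onCell 0 536870912 0 1230186008 134217728 67108864
    (rowN 3 0 false false false .pnn 0 3 3 (qsf 0 536870912 0 1230186008 3) ndN0q0 ndN5q3 pcN3 Cut.none Ext.none)

def k0_mm_033 : ∃ t, chk3 f_mm_033 t 1 1 1 = true :=
  ⟨(l 5), by decide +kernel⟩

theorem c_mm_033 : CertN 0 536870912 0 1230186008 134217728 67108864 3 false false false .pnn 0 3 3
    ndN0q0 ndN5q3 pcN3 Cut.none Ext.none :=
  certN0 (fam := false) (s1 := false) (s2 := false) (a := 0) (b := 3) (c := 3) (cn := .pnn) (n1 := ndN0q0) (n2 := ndN5q3) (pc := pcN3) (cut := Cut.none) (xt := Ext.none) (P1 := 0) (W1 := 536870912) (P2 := 0) (W2 := 1230186008) (P3 := 134217728) (W3 := 67108864) (N0 := 3)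
    rfl k0_mm_033

noncomputable def cut_mm_101 : Cut := Cut.of [[⟨0, 1, 0, 67108864⟩, ⟨1, 0, 0, 67108864⟩, ⟨2, 1, 0, 67108864⟩]]

noncomputable def f_mm_101 : ℕ → ℕ → ℕ → ℕ → Bool := onCell 536870912 536870912 0 536870912 134217728 67108864
    (rowN 3 1 false false false .npn 1 0 1 (qsf 536870912 536870912 536870912 536870912 0) ndN0q1 ndN5q1 pcN0 cut_mm_101 Ext.none)

def k0_mm_101 : ∃ t, chk3 f_mm_101 t 1 1 1 = true :=
  ⟨(a (l 3) (b (a (l 3) (b (a (l 3) (b (b (a (l 3) (l 6)) (l 3)) (l 3))) (l 3))) (l 3))), by decide +kernel⟩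

theorem c_mm_101 : CertN 536870912 536870912 536870912 536870912 134217728 67108864 3 false false false .npn 1 0 1
    ndN0q1 ndN5q1 pcN0 cut_mm_101 Ext.none :=
  certN1 (fam := false) (s1 := false) (s2 := false) (a := 1) (b := 0) (c := 1) (cn := .npn) (n1 := ndN0q1) (n2 := ndN5q1) (pc := pcN0) (cut := cut_mm_101) (xt := Ext.none) (P1 := 536870912) (W1 := 536870912) (P2 := 536870912) (W2 := 536870912) (P3 := 134217728) (W3 := 67108864) (N0 := 3)
    rfl (fun _ => rfl) k0_mm_101

noncomputable def cut_mm_102 : Cut := Cut.of [[⟨0, 1, 0, 67108864⟩, ⟨1, 0, 0, 67108864⟩, ⟨2, 1, 0, 67108864⟩]]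

noncomputable def f_mm_102 : ℕ → ℕ → ℕ → ℕ → Bool := onCell 536870912 536870912 0 536870912 134217728 67108864
    (rowN 3 1 false false false .npp 1 0 2 (qsf 536870912 536870912 1073741824 536870912 0) ndN0q1 ndN5q2 pcN0 cut_mm_102 Ext.none)

def k0_mm_102 : ∃ t, chk3 f_mm_102 t 1 1 1 = true :=
  ⟨(b (a (l 3) (a (l 3) (b (a (l 3) (b (b (a (l 3) (l 6)) (l 3)) (l 3))) (l 3)))) (l 3)), by decide +kernel⟩

theorem c_mm_102 : CertN 536870912 536870912 1073741824 536870912 134217728 67108864 3 false false false .npp 1 0 2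
    ndN0q1 ndN5q2 pcN0 cut_mm_102 Ext.none :=
  certN1 (fam := false) (s1 := false) (s2 := false) (a := 1) (b := 0) (c := 2) (cn := .npp) (n1 := ndN0q1) (n2 := ndN5q2) (pc := pcN0) (cut := cut_mm_102) (xt := Ext.none) (P1 := 536870912) (W1 := 536870912) (P2 := 1073741824) (W2 := 536870912) (P3 := 134217728) (W3 := 67108864) (N0 := 3)
    rfl (fun _ => rfl) k0_mm_102

noncomputable def f_mm_112 : ℕ → ℕ → ℕ → ℕ → Bool := onCell 536870912 536870912 1073741824 536870912 134217728 67108864
    (rowN 3 2 false false false .dn 1 1 2 (qsf 536870912 536870912 1073741824 536870912 1) ndN0q1 ndN5q2 pcN1 Cut.none Ext.none)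

def k0_mm_112 : ∃ t, chk3 f_mm_112 t 1 1 1 = true :=
  ⟨(a (l 3) (l 5)), by decide +kernel⟩

theorem c_mm_112 : CertN 536870912 536870912 1073741824 536870912 134217728 67108864 3 false false false .dn 1 1 2
    ndN0q1 ndN5q2 pcN1 Cut.none Ext.none :=
  certN2 (fam := false) (s1 := false) (s2 := false) (a := 1) (b := 1) (c := 2) (cn := .dn) (n1 := ndN0q1) (n2 := ndN5q2) (pc := pcN1) (cut := Cut.none) (xt := Ext.none) (P1 := 536870912) (W1 := 536870912) (P2 := 1073741824) (W2 := 536870912) (P3 := 134217728) (W3 := 67108864) (N0 := 3)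
    rfl (fun _ => rfl) k0_mm_112

noncomputable def f_mm_113 : ℕ → ℕ → ℕ → ℕ → Bool := onCell 536870912 536870912 0 1230186008 134217728 67108864
    (rowN 3 0 false false false .nn 1 1 3 (qsf 536870912 536870912 0 1230186008 1) ndN0q1 ndN5q3 pcN1 Cut.none Ext.none)

def k0_mm_113 : ∃ t, chk3 f_mm_113 t 1 1 1 = true :=
  ⟨(b (l 5) (a (l 5) (b (a (l 5) (l 3)) (l 3)))), by decide +kernel⟩

theorem c_mm_113 : CertN 536870912 536870912 0 1230186008 134217728 67108864 3 false false false .nn 1 1 3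
    ndN0q1 ndN5q3 pcN1 Cut.none Ext.none :=
  certN0 (fam := false) (s1 := false) (s2 := false) (a := 1) (b := 1) (c := 3) (cn := .nn) (n1 := ndN0q1) (n2 := ndN5q3) (pc := pcN1) (cut := Cut.none) (xt := Ext.none) (P1 := 536870912) (W1 := 536870912) (P2 := 0) (W2 := 1230186008) (P3 := 134217728) (W3 := 67108864) (N0 := 3)
    rfl k0_mm_113

noncomputable def f_mm_123 : ℕ → ℕ → ℕ → ℕ → Bool := onCell 1073741824 536870912 0 1230186008 134217728 67108864
    (rowN 3 2 false false false .npn 1 2 3 (qsf 536870912 536870912 0 1230186008 2) ndN0q1 ndN5q3 pcN2 Cut.none Ext.none)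

def k0_mm_123 : ∃ t, chk3 f_mm_123 t 1 1 1 = true :=
  ⟨(b (l 5) (l 5)), by decide +kernel⟩

theorem c_mm_123 : CertN 536870912 536870912 0 1230186008 134217728 67108864 3 false false false .npn 1 2 3
    ndN0q1 ndN5q3 pcN2 Cut.none Ext.none :=
  certN2 (fam := false) (s1 := false) (s2 := false) (a := 1) (b := 2) (c := 3) (cn := .npn) (n1 := ndN0q1) (n2 := ndN5q3) (pc := pcN2) (cut := Cut.none) (xt := Ext.none) (P1 := 536870912) (W1 := 536870912) (P2 := 0) (W2 := 1230186008) (P3 := 134217728) (W3 := 67108864) (N0 := 3)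
    rfl (fun _ => rfl) k0_mm_123

noncomputable def f_mm_133 : ℕ → ℕ → ℕ → ℕ → Bool := onCell 1610612736 536870912 0 1230186008 134217728 67108864
    (rowN 3 2 false false false .dn 1 3 3 (qsf 536870912 536870912 0 1230186008 3) ndN0q1 ndN5q3 pcN3 Cut.none Ext.none)

def k0_mm_133 : ∃ t, chk3 f_mm_133 t 1 1 1 = true :=
  ⟨(l 5), by decide +kernel⟩

theorem c_mm_133 : CertN 536870912 536870912 0 1230186008 134217728 67108864 3 false false false .dn 1 3 3
    ndN0q1 ndN5q3 pcN3 Cut.none Ext.none :=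
  certN2 (fam := false) (s1 := false) (s2 := false) (a := 1) (b := 3) (c := 3) (cn := .dn) (n1 := ndN0q1) (n2 := ndN5q3) (pc := pcN3) (cut := Cut.none) (xt := Ext.none) (P1 := 536870912) (W1 := 536870912) (P2 := 0) (W2 := 1230186008) (P3 := 134217728) (W3 := 67108864) (N0 := 3)
    rfl (fun _ => rfl) k0_mm_133

noncomputable def cut_mm_202 : Cut := Cut.of [[⟨0, 1, 0, 67108864⟩, ⟨1, 0, 0, 67108864⟩, ⟨2, 1, 0, 67108864⟩]]

noncomputable def f_mm_202 : ℕ → ℕ → ℕ → ℕ → Bool := onCell 0 536870912 0 536870912 134217728 67108864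
    (rowN 3 1 false false false .pp 2 0 2 (qsf 0 536870912 1073741824 536870912 0) ndN0q2 ndN5q2 pcN0 cut_mm_202 Ext.none)

def k0_mm_202 : ∃ t, chk3 f_mm_202 t 2 2 1 = true :=
  ⟨(b (b (a (l 17731928) (a (b (l 17543168) (l 17397600)) (b (l 17370664) (l 17225520)))) (a (a (l 17572936) (b (l 17439224) (l 17366304))) (b (a (l 17243232) (l 17041728)) (a (l 17265280) (l 17177784))))) (a (b (b (a (l 17450704) (l 17371392)) (a (l 17420600) (l 17401088))) (c (l 17453312) (l 17330032))) (b (b (a (l 17321080) (l 17207368)) (a (l 17320088) (l 17164688))) (a (b (l 17256168) (l 17182376)) (b (a (l 17136648) (l 17059960)) (l 17032736)))))), by decide +kernel⟩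

def k1_mm_202 : ∃ t, chk3 f_mm_202 t 6 4 1 = true :=
  ⟨(b (b (a (b (l 17269616) (l 17179688)) (b (a (l 17127360) (l 17028504)) (l 17098504))) (a (l 16976056) (b (l 16922960) (a (l 16735400) (l 16746784))))) (a (b (a (l 16939064) (l 16856880)) (a (l 17080528) (l 16993864))) (b (a (l 16781384) (l 16768352)) (a (b (l 16887048) (l 16916936)) (l 16763384))))), by decide +kernel⟩

def k2_mm_202 : ∃ t, chk3 f_mm_202 t 14 8 1 = true :=
  ⟨(b (a (b (b (l 16969608) (l 16907232)) (l 16873800)) (b (b (a (l 16908792) (l 6)) (a (l 16846664) (l 16810352))) (b (a (l 16782832) (l 16746824)) (l 16809448)))) (a (b (l 16824584) (l 16744888)) (a (b (l 16752512) (l 16763024)) (b (l 16761440) (l 16762536))))), by decide +kernel⟩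

def k3_mm_202 : ∃ t, chk3 f_mm_202 t 15 16 1 = true :=
  ⟨(a (b (l 6) (a (b (l 6) (l 16760896)) (l 6))) (l 6)), by decide +kernel⟩

def k4_mm_202 : ∃ t, chk3 f_mm_202 t 30 34 1 = true :=
  ⟨(a (b (l 16775864) (l 16769792)) (a (b (l 16776648) (c (l 16785272) (l 16785016))) (b (a (l 16773984) (l 6)) (a (b (l 16780408) (a (l 16778152) (a (l 16780168) (a (c (l 16779312) (l 16778456)) (b (l 16775512) (b (l 16782392) (b (l 152639115943) (c (c (l 232096011367) (l 233169750375)) (l 233706623639))))))))) (b (a (c (l 16779272) (l 16779088)) (b (l 6) (c (a (a (l 16782040) (a (l 147270405511) (b (l 16777096) (b (l 16777912) (l 244980912887))))) (a (a (b (l 16777432) (b (l 196125658743) (l 301889227751))) (b (l 6) (l 285246232311))) (b (l 6) (l 3)))) (a (a (l 16781864) (a (l 144586050599) (b (l 16776928) (b (l 16777736) (l 247128396215))))) (a (b (l 16778744) (a (b (l 193441303847) (l 307257936535)) (l 288467457431))) (b (l 6) (l 3))))))) (a (b (c (a (l 16779240) (b (l 148344147575) (c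 (a (b (l 16777952) (l 221895462583)) (b (c (l 244980911959) (l 246054652375)) (l 3))) (a (b (l 16777856) (l 221358590247)) (b (c (l 246591523191) (l 247128394023)) (l 3)))))) (a (l 16781672) (b (l 145659792647) (c (a (b (l 16777760) (l 222432331879)) (b (l 248202135703) (l 3))) (a (b (l 16777672) (l 223506073527)) (b (l 249275877367) (l 3))))))) (c (a (a (b (l 159081565991) (a (b (l 215989883159) (l 3)) (l 298131137399))) (b (b (l 188609466455) (l 272361330247)) (l 3))) (a (b (l 296520522327) (l 3)) (l 3))) (a (a (b (l 156397211207) (b (l 255181460359) (l 3))) (b (b (l 185925111671) (l 275045684439)) (l 3))) (a (b (l 299741747415) (l 3)) (l 3))))) (a (b (b (c (a (b (l 181630144279) (a (l 250349622151) (l 302426098807))) (c (l 290614942103) (l 292762425559))) (a (b (l 178945789367) (l 268603233223)) (a (l 291688683031) (l 3)))) (l 3)) (l 3)) (l 3)))))))), by decide +kernel⟩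

def k5_mm_202 : ∃ t, chk3 f_mm_202 t 60 35 1 = true :=
  ⟨(a (b (l 16752088) (l 16781616)) (b (l 16775432) (a (l 16778856) (b (l 16781896) (a (l 16784968) (b (l 16781264) (a (l 16782808) (a (c (l 165524019879) (l 162302793847)) (b (l 16781272) (a (b (l 197736274935) (l 298668008967)) (l 279877527223))))))))))), by decide +kernel⟩

def k6_mm_202 : ∃ t, chk3 f_mm_202 t 122 70 1 = true :=
  ⟨(a (b (l 16788936) (l 16780184)) (b (c (l 16778632) (l 16778392)) (a (a (l 16779568) (b (l 16786360) (a (c (l 16779840) (l 16780216)) (a (b (l 16777680) (c (l 196125660695) (l 192904434839))) (b (l 16783256) (b (l 202568112231) (l 303499846551))))))) (b (c (a (l 16779960) (a (b (l 16777792) (b (l 174650823143) (l 256792074135))) (b (l 175724565495) (l 284172491639)))) (a (l 16779704) (b (l 161229050375) (a (b (l 16779656) (l 258939554679)) (l 287393716599))))) (a (a (c (b (l 181630145911) (l 290614945543)) (b (l 178408920071) (l 293836170471))) (b (b (c (l 236927850151) (l 238001588871))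 (l 302426104983)) (l 3))) (l 3)))))), by decide +kernel⟩

def k7_mm_202 : ∃ t, chk3 f_mm_202 t 122 71 1 = true :=
  ⟨(a (b (b (a (l 16795240) (c (a (l 16776416) (l 149417891351)) (l 142438568887))) (a (c (l 16781872) (l 16781560)) (c (a (a (l 156934084215) (b (l 16778392) (a (l 224042948887) (l 264845138647)))) (b (a (l 193978177847) (a (l 260550171175) (l 299741745911))) (l 301352365383))) (a (a (l 153712858439) (b (l 16778080) (a (l 208473692039) (l 266455748167)))) (b (a (l 190756951751) (a (l 262160785959) (l 304036712615))) (l 306721073863)))))) (a (a (a (b (l 16782920) (b (b (l 175724567255) (a (l 220821724391) (l 293836170583))) (l 304573590407))) (b (c (l 161229052119) (l 158007826135)) (b (b (l 271824463111) (l 3)) (l 3)))) (a (b (b (l 16781064) (b (a (l 16780360) (l 250349626103)) (l 290078074407))) (l 3)) (b (b (b (l 16780120) (a (l 208473693111) (l 277730042855))) (l 304573590023)) (l 3)))) (a (a (b (b (c (l 276119428391) (l 279340653239)) (l 3)) (l 3)) (l 3)) (l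 3)))) (b (a (b (c (a (a (b (l 16778184) (a (l 204178724903) (l 256255203703))) (b (l 187535726343) (l 298131133431))) (a (b (b (l 245517785063) (l 302962971271)) (l 3)) (l 3))) (a (b (l 169818985687) (a (a (l 200420627927) (l 258939557703)) (l 301889229223))) (a (a (b (l 254107719335) (l 3)) (l 300278621191)) (l 3)))) (l 3)) (l 3)) (l 3))), by decide +kernel⟩

def k8_mm_202 : ∃ t, chk3 f_mm_202 t 123 35 1 = true :=
  ⟨(b (a (b (a (b (a (l 16785992) (b (l 16781544) (l 16780016))) (c (a (a (l 16780104) (b (l 16777600) (b (l 16779728) (l 248202139223)))) (a (b (l 169818985095) (c (l 278803782295) (l 279877523879))) (b (b (l 203641852791) (l 287393713799)) (l 3)))) (a (a (l 16779864) (b (l 16777368) (b (l 16778176) (l 250349622407)))) (a (b (l 166597759159) (c (l 281488136391) (l 283635617191))) (b (b (l 203104981607) (l 291151809719)) (l 3)))))) (b (c (a (b (l 155860341015) (c (a (b (l 16778296) (l 240149072711)) (b (l 260013296743) (l 3))) (a (b (l 16778184) (l 241222814327))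 (b (l 261623909271) (l 3))))) (b (a (b (l 196125659559) (l 279340655047)) (l 301352360855)) (l 3))) (a (b (l 153175986023) (c (a (b (l 16778072) (l 242833426855)) (b (l 263234521799) (l 3))) (a (b (l 16777968) (l 243907168471)) (b (l 265382005239) (l 3))))) (b (a (b (l 195588788391) (l 282561874855)) (l 305110456807)) (l 3)))) (a (a (b (c (l 301889232087) (l 306721072439)) (l 3)) (l 3)) (l 3)))) (a (a (b (b (a (b (c (l 226727302599) (l 210621174535)) (l 294373040983)) (c (l 302426100695) (l 307257938407))) (l 3)) (l 3)) (l 3)) (l 3))) (l 3)) (l 3)), by decide +kernel⟩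

def k9_mm_202 : ∃ t, chk3 f_mm_202 t 31 17 1 = true :=
  ⟨(a (b (a (b (l 6) (a (b (a (a (b (l 6) (b (l 6) (l 3))) (l 6)) (l 3)) (l 3)) (l 3))) (l 3)) (l 3)) (l 3)), by decide +kernel⟩

def k10_mm_202 : ∃ t, chk3 f_mm_202 t 14 18 1 = true :=
  ⟨(a (b (a (l 16699336) (l 16720784)) (l 16754760)) (b (a (l 16760072) (a (l 16774480) (b (l 16780088) (l 16781000)))) (a (a (l 16772120) (l 16781864)) (a (b (l 16787568) (a (l 16783040) (b (l 16786056) (a (l 16783640) (b (c (l 16782816) (l 16782200)) (c (a (b (l 16781000) (l 241759690167)) (b (l 261087043335) (l 306184202151))) (a (b (l 16780408) (l 241222818343)) (b (l 261623913191) (l 313163522871))))))))) (b (a (b (l 16792936) (c (l 16787248) (l 16786616))) (b (a (l 16786312) (b (l 16777288) (c (a (l 16779176) (l 175187700151)) (l 161229055303)))) (a (b (c (l 16779488) (l 16778848)) (c (a (b (l 16780496) (l 207399955655)) (b (c (l 235317239367) (l 234243497015)) (l 302962975847))) (a (l 181093279991) (b (l 231559141751) (l 306184200055)))))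 (a (b (a (c (l 189683215255) (l 185388246679)) (b (l 187535731527) (l 290614948311))) (c (l 302962977751) (l 308331685575))) (b (b (c (l 270750724967) (l 271824460375)) (l 3)) (l 3)))))) (a (b (a (a (l 16783984) (b (l 16778984) (b (l 16780456) (a (l 16782344) (l 254644596839))))) (b (b (c (l 170892733031) (l 16782632)) (a (l 16783296) (c (l 266455752631) (l 267529493271)))) (a (b (a (l 212768665303) (l 285246239255)) (l 305110464551)) (b (l 306721077959) (l 3))))) (a (b (a (b (a (l 16780848) (l 222432340599)) (l 275045694887)) (b (l 295983658407) (l 3))) (l 3)) (l 3))) (b (a (a (b (c (l 293299305271) (l 295983658583)) (l 3)) (l 3)) (l 3)) (l 3)))))))), by decide +kernel⟩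

def k11_mm_202 : ∃ t, chk3 f_mm_202 t 28 19 1 = true :=
  ⟨(a (b (l 16771104) (l 16800216)) (b (l 16777200) (a (l 16786088) (b (l 16778512) (a (l 16782192) (b (a (l 16780552) (l 16785192)) (a (b (l 16780432) (c (l 203104984759) (l 204715597223))) (b (c (l 220821730535) (l 222432348231)) (l 296520536103))))))))), by decide +kernel⟩

def k12_mm_202 : ∃ t, chk3 f_mm_202 t 29 19 1 = true :=
  ⟨(a (b (a (b (l 16763312) (l 16783112)) (b (a (l 16791656) (b (l 16773648) (c (l 16783168) (l 16782720)))) (a (b (l 16787200) (a (c (l 164450282663) (l 161765927639)) (b (c (l 191293829191) (l 189146344951)) (a (a (l 235317246695) (l 272898213863)) (l 304573599799))))) (b (a (b (l 16779424) (a (l 174113959367) (a (l 214379279559) (l 261087053495)))) (b (c (a (l 196662537831) (l 266455763511)) (a (l 193441311479) (l 269140106727))) (c (l 301889236375) (l 306184202759)))) (a (b (c (l 284172505415) (l 287393730055)) (l 3)) (l 3)))))) (a (b (a (b (l 16776528) (a (l 16778856) (c (l 174113959927)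 (l 171966476295)))) (b (a (l 16788912) (b (l 16779872) (a (l 195588796903) (l 260013311735)))) (a (b (c (l 206863086679) (l 207399957127)) (l 280414408087)) (b (l 300815504023) (l 3))))) (a (b (a (b (l 170892734471) (a (l 215453021287) (l 278266923335))) (b (c (a (l 244444044359) (l 301889234423)) (l 266455760375)) (l 3))) (a (b (l 305647342935) (l 3)) (l 3))) (l 3))) (b (a (b (a (b (a (a (l 198273151095) (l 241759694967)) (l 284172503879)) (l 305647343559)) (l 3)) (l 3)) (l 3)) (l 3)))) (b (a (b (a (b (a (l 16787904) (a (l 16783224) (b (l 16779528) (b (l 16783536) (a (l 239075341719) (l 293299297911)))))) (a (b (c (l 175187701079) (l 171966474759)) (a (b (l 193978183191) (l 265382020759)) (l 293836180775))) (b (a (a (b (l 16781872) (l 299741749047)) (l 279877536119)) (l 305110468615)) (l 3)))) (b (a (a (b (c (l 179482667943) (l 16783056)) (c (l 287393729959) (l 285246234791))) (b (b (a (l 16781056) (l 250349631479)) (l 291688696167)) (l 3))) (b (c (a (l 302426106327) (l 3))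 (l 307257944983)) (l 3))) (l 3))) (a (b (a (b (c (l 303499850519) (l 309405429559)) (l 3)) (l 3)) (l 3)) (l 3))) (l 3)) (l 3))), by decide +kernel⟩

def k13_mm_202 : ∃ t, chk3 f_mm_202 t 120 36 1 = true :=
  ⟨(b (a (l 16787728) (c (l 16782624) (l 16782232))) (a (b (a (l 16772072) (l 16795640)) (a (l 16787016) (b (l 16783248) (c (a (l 165524022407) (b (l 193441310327) (l 274508820855))) (a (l 16781896) (b (l 192904438327) (l 276119429911))))))) (b (a (b (l 16776160) (c (l 16781256) (l 16780752))) (a (b (l 16783360) (c (b (l 181093277991) (a (l 244980913895) (l 302962973719))) (b (l 176798309863) (c (l 264308266647) (l 265382008023))))) (b (b (l 16778856) (a (l 16782216) (b (l 194515051287) (l 268603238823)))) (b (c (l 279877529559) (l 282025012279)) (l 3))))) (a (a (a (b (c (l 16782488) (l 16779328)) (c (l 295983658375) (l 299204882775))) (b (b (l 16779672) (a (l 226190436887) (l 272898206743))) (l 3))) (a (b (b (a (l 188072600887) (l 220821727447)) (l 304036720743)) (l 3))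 (b (c (l 291688690615) (l 290614947767)) (l 3)))) (l 3))))), by decide +kernel⟩

def k14_mm_202 : ∃ t, chk3 f_mm_202 t 121 36 1 = true :=
  ⟨(b (a (b (a (l 16794608) (c (l 16781704) (l 16781320))) (a (b (l 16782200) (c (a (l 16778744) (b (l 168745245991) (a (l 222969211319) (l 291688683687)))) (a (l 16778288) (a (l 181093277591) (b (l 16779320) (l 290078070087)))))) (a (a (b (l 16781208) (b (b (l 219747984231) (l 296520526327)) (l 3))) (b (c (b (l 16778904) (l 204715597799)) (l 176261438855)) (c (l 302426109111) (l 307257941191)))) (b (a (c (b (l 16779528) (l 279877523191)) (b (l 16779104) (l 282025006023))) (b (b (l 209010565319) (l 283098753127)) (l 3))) (l 3))))) (b (a (a (a (b (l 16776800) (c (b (l 16778656) (l 197199404455)) (l 171429600199))) (b (l 16782704) (b (l 166060891639) (c (l 271824464343) (l 273971941975))))) (a (b (l 16780736) (b (b (l 195588792135) (l 272361334503)) (l 3))) (b (c (b (l 16778416) (l 189683211175)) (l 166597761559)) (c (l 300815495527) (l 304573591111)))))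 (b (c (a (a (b (l 16779056) (c (l 264845137015) (l 265918878471))) (b (c (l 227801043367) (l 227801043063)) (l 3))) (b (l 295983656391) (l 3))) (a (a (b (l 16778680) (l 266455754087)) (b (l 228337916199) (l 3))) (b (l 297594268391) (l 3)))) (l 3))) (a (a (a (b (b (l 302962977815) (l 3)) (l 3)) (l 3)) (l 3)) (l 3)))) (a (b (a (b (c (a (b (a (l 189146341223) (l 261087041191)) (l 299204877703)) (b (l 302962974695) (l 3))) (a (b (a (l 184851373079) (l 263234523975)) (l 302962973159)) (b (l 308868553799) (l 3)))) (l 3)) (l 3)) (l 3)) (l 3))), by decide +kernel⟩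

def k15_mm_202 : ∃ t, chk3 f_mm_202 t 60 37 1 = true :=
  ⟨(a (b (a (b (a (a (b (l 16784448) (c (b (l 210084309591) (l 292225556663)) (b (l 205789341447) (l 294909910071)))) (b (b (l 16782528) (a (l 200420633303) (l 268066371719))) (c (l 301889240199) (l 307257942871)))) (a (b (a (b (a (l 209010567671) (l 253570853975)) (l 306184205303)) (b (l 295446786071) (l 3))) (l 3)) (l 3))) (l 3)) (l 3)) (l 3)) (l 3)), by decide +kernel⟩

def k16_mm_202 : ∃ t, chk3 f_mm_202 t 61 18 1 = true :=
  ⟨(l 3), by decide +kernel⟩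

def k17_mm_202 : ∃ t, chk3 f_mm_202 t 30 19 1 = true :=
  ⟨(l 3), by decide +kernel⟩

def k18_mm_202 : ∃ t, chk3 f_mm_202 t 31 9 1 = true :=
  ⟨(l 3), by decide +kernel⟩

def k19_mm_202 : ∃ t, chk3 f_mm_202 t 6 10 1 = true :=
  ⟨(a (b (a (l 17082928) (l 16999072)) (a (l 17039800) (l 16958776))) (b (a (l 16917984) (b (l 16773344) (a (l 16852208) (a (l 16824400) (l 16785776))))) (a (b (l 16889424) (l 16798776)) (a (b (l 16808104) (a (b (l 16817664) (l 16781056)) (b (c (l 16780968) (l 16782312)) (a (b (l 16790520) (c (l 195588796631) (l 197736286855))) (b (a (c (l 178408921719) (l 185388246679)) (b (l 222969226983) (l 295446778295))) (l 309405446663)))))) (b (a (a (l 16783704) (b (l 16802016) (b (l 16791496) (c (l 186998866423) (l 184851378519))))) (b (a (l 16782256) (b (l 16781888) (a (c (l 182703891911) (l 186461990391)) (b (l 213305540855) (l 281488157831))))) (a (b (a (l 169282121095) (b (l 186998861479) (l 265918899031))) (c (l 288467479927) (l 276656321447))) (b (l 307794836295)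 (l 3))))) (a (b (a (b (c (l 166597761831) (l 170355861111)) (a (b (l 16782128) (l 242296578375)) (l 284709381719))) (b (a (b (l 195588801895) (l 277730038119)) (l 307257962727)) (l 3))) (l 3)) (l 3))))))), by decide +kernel⟩

def k20_mm_202 : ∃ t, chk3 f_mm_202 t 6 11 1 = true :=
  ⟨(a (a (b (l 16980928) (l 16851944)) (b (l 16814672) (a (b (l 16869960) (l 16793408)) (b (c (l 16792984) (l 16799392)) (a (b (l 16791360) (b (l 151028518071) (c (l 192367587511) (l 190220096519)))) (b (a (b (l 16800704) (l 152639124007)) (b (l 167671510743) (l 227264197031))) (a (c (l 247665290887) (l 265382025863)) (l 3)))))))) (b (a (a (b (l 16851664) (a (l 16829248) (b (l 16816184) (c (l 159081572967) (l 159081569735))))) (b (a (l 16798848) (b (l 16806784) (a (b (l 16799656) (l 16791232)) (b (l 157470956167) (a (l 186998861399) (l 264845153703)))))) (a (b (a (l 16800048) (b (l 16783016) (a (l 16782448) (l 195051925895)))) (a (b (c (l 167671505815) (l 168208373367)) (a (l 214379284951) (l 279340670839)))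 (b (l 273971981623) (l 3)))) (b (a (b (c (l 196125668551) (l 199346889287)) (l 294373056551)) (l 320142866327)) (l 3))))) (a (b (a (c (b (a (l 163913406615) (b (l 188072609095) (l 278803818615))) (a (b (a (l 196662535191) (l 284172486503)) (l 3)) (l 3))) (b (a (l 167671506103) (b (l 185388248711) (l 276656316791))) (a (b (l 259476446295) (l 3)) (l 3)))) (b (a (b (l 292225585143) (l 3)) (l 3)) (l 3))) (l 3)) (l 3))) (a (a (b (a (c (b (l 16787184) (a (b (l 16799776) (l 183777650071)) (b (l 189683224887) (l 242296582551)))) (b (l 16799672) (a (l 180556423559) (b (l 187535734071) (l 270213844903))))) (b (a (b (l 156397223735) (a (l 174113961287) (l 225116712503))) (a (c (l 236927883287) (l 253034006215)) (l 283098769847))) (l 311552958023))) (a (a (c (l 298131196343) (l 307257988391)) (l 3)) (l 3))) (l 3)) (l 3)))), by decide +kernel⟩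

def k21_mm_202 : ∃ t, chk3 f_mm_202 t 7 5 1 = true :=
  ⟨(b (a (a (b (a (b (a (l 16806920) (b (l 16795808) (c (l 16783912) (l 16783160)))) (a (b (l 16784992) (a (b (l 16791264) (c (l 168208377351) (l 166597766215))) (b (a (l 16785192) (b (l 16782840) (l 215453025047))) (a (b (l 201494378103) (l 267529513815)) (l 292762450167))))) (b (a (b (l 16786784) (a (l 164987154695) (b (l 187535733351) (l 253570869863)))) (b (b (c (l 191293827607) (l 194515059479)) (a (l 200420637559) (l 286856868743))) (a (l 283098773319) (l 3)))) (a (b (a (b (l 235317247815) (l 302962996567)) (l 3)) (l 3)) (l 3))))) (b (a (b (a (l 16787512) (b (l 16783952) (a (l 16782616) (b (l 16781288) (c (l 217600509783) (l 219747983207)))))) (a (c (b (l 166060895431) (a (b (l 16782872) (l 236390989943)) (l 271824483543))) (b (l 164987154135) (a (b (l 16780296) (l 240685947223)) (l 275582580183)))) (b (a (b (c (l 199883763431) (l 200957505671)) (l 272898224551)) (l 296520542999)) (l 3)))) (b (a (b (b (c (l 173577088183)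 (l 173040217575)) (a (l 170355863383) (c (l 258402698967) (l 262160795287)))) (a (b (c (l 240149087015) (l 243370312599)) (l 305647342247)) (l 3))) (b (a (b (l 276119440199) (l 3)) (l 3)) (l 3))) (l 3))) (a (b (a (b (a (l 306721085623) (l 3)) (l 3)) (l 3)) (l 3)) (l 3)))) (a (b (a (b (a (b (a (b (l 16782392) (l 232632892727)) (l 270750740151)) (l 308868580887)) (l 3)) (l 3)) (l 3)) (l 3)) (l 3))) (l 3)) (l 3)) (l 3)), by decide +kernel⟩

def k22_mm_202 : ∃ t, chk3 f_mm_202 t 1 3 1 = true :=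
  ⟨(a (b (a (b (a (l 17320272) (b (l 17255472) (l 17185976))) (a (l 17400720) (l 17276568))) (b (a (b (l 17113056) (l 17046496)) (a (l 16822440) (b (l 16884080) (a (l 16833880) (a (l 16793264) (b (l 16843144) (c (l 162302804375) (l 167671520887)))))))) (a (a (l 16981984) (b (l 16941768) (l 204111667415))) (b (a (b (l 16861152) (c (l 16789960) (l 16798952))) (a (b (c (l 16785096) (l 16786936)) (a (b (l 16785056) (a (l 220821768775) (l 233706653639))) (b (l 228874830343) (l 3)))) (b (a (b (l 163376549831) (l 244444092375)) (c (l 284172577799) (l 286856915735))) (l 3)))) (a (a (b (l 16810168) (a (l 240618878071) (b (l 200957532055) (a (l 248202168807) (l 3))))) (b (a (b (l 16810408) (l 204178760743)) (b (l 208473723831) (a (l 262160810759) (l 3)))) (a (l 297057451559) (l 3)))) (a (b (a (l 310479226711) (l 3)) (l 3)) (l 3))))))) (a (l 2) (a (l 2) (a (l 2) (l 3))))) (b (a (b (a (b (a (a (l 16823664) (b (l 16799976) (a (b (l 16825712) (l 16786872)) (b (l 151028517399) (a (b (l 16796568)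 (l 192904450279)) (l 241759722375)))))) (a (b (c (a (l 154249736807) (b (l 166597766711) (a (l 201494383863) (l 279340672887)))) (a (l 155323475591) (b (l 167134633511) (a (l 203641861383) (l 291688680839))))) (a (b (a (b (l 159081578631) (l 203641861959)) (l 266455788103)) (l 3)) (l 3))) (b (a (b (a (b (l 191830706247) (l 270750735527)) (l 3)) (l 3)) (l 3)) (l 3)))) (a (a (b (a (l 16801640) (b (l 16789856) (a (l 16782432) (l 200957514295)))) (a (b (a (l 16801000) (l 195588811047)) (l 270213888023)) (b (l 279877565191) (l 3)))) (b (a (b (a (l 161765929175) (b (l 174650829415) (l 248739010391))) (l 293836210775)) (l 316384811655)) (l 3))) (l 3))) (l 3)) (l 3)) (l 3)) (l 3))), by decide +kernel⟩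

theorem s23_mm_202 : ∃ t, chk3 f_mm_202 t 6 5 1 = true := ex3_b k19_mm_202 k20_mm_202

theorem s24_mm_202 : ∃ t, chk3 f_mm_202 t 3 5 1 = true := ex3_a s23_mm_202 k21_mm_202

theorem s25_mm_202 : ∃ t, chk3 f_mm_202 t 60 36 1 = true := ex3_a k13_mm_202 k14_mm_202

theorem s26_mm_202 : ∃ t, chk3 f_mm_202 t 60 18 1 = true := ex3_b s25_mm_202 k15_mm_202

theorem s27_mm_202 : ∃ t, chk3 f_mm_202 t 30 18 1 = true := ex3_a s26_mm_202 k16_mm_202

theorem s28_mm_202 : ∃ t, chk3 f_mm_202 t 30 9 1 = true := ex3_b s27_mm_202 k17_mm_202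

theorem s29_mm_202 : ∃ t, chk3 f_mm_202 t 15 9 1 = true := ex3_a s28_mm_202 k18_mm_202

theorem s30_mm_202 : ∃ t, chk3 f_mm_202 t 14 19 1 = true := ex3_a k11_mm_202 k12_mm_202

theorem s31_mm_202 : ∃ t, chk3 f_mm_202 t 14 9 1 = true := ex3_b k10_mm_202 s30_mm_202

theorem s32_mm_202 : ∃ t, chk3 f_mm_202 t 7 9 1 = true := ex3_a s31_mm_202 s29_mm_202

theorem s33_mm_202 : ∃ t, chk3 f_mm_202 t 122 35 1 = true := ex3_b k6_mm_202 k7_mm_202

theorem s34_mm_202 : ∃ t, chk3 f_mm_202 t 61 35 1 = true := ex3_a s33_mm_202 k8_mm_202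

theorem s35_mm_202 : ∃ t, chk3 f_mm_202 t 30 35 1 = true := ex3_a k5_mm_202 s34_mm_202

theorem s36_mm_202 : ∃ t, chk3 f_mm_202 t 30 17 1 = true := ex3_b k4_mm_202 s35_mm_202

theorem s37_mm_202 : ∃ t, chk3 f_mm_202 t 15 17 1 = true := ex3_a s36_mm_202 k9_mm_202

theorem s38_mm_202 : ∃ t, chk3 f_mm_202 t 15 8 1 = true := ex3_b k3_mm_202 s37_mm_202

theorem s39_mm_202 : ∃ t, chk3 f_mm_202 t 7 8 1 = true := ex3_a k2_mm_202 s38_mm_202

theorem s40_mm_202 : ∃ t, chk3 f_mm_202 t 7 4 1 = true := ex3_b s39_mm_202 s32_mm_202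

theorem s41_mm_202 : ∃ t, chk3 f_mm_202 t 3 4 1 = true := ex3_a k1_mm_202 s40_mm_202

theorem s42_mm_202 : ∃ t, chk3 f_mm_202 t 3 2 1 = true := ex3_b s41_mm_202 s24_mm_202

theorem s43_mm_202 : ∃ t, chk3 f_mm_202 t 1 2 1 = true := ex3_a k0_mm_202 s42_mm_202

theorem s44_mm_202 : ∃ t, chk3 f_mm_202 t 1 1 1 = true := ex3_b s43_mm_202 k22_mm_202

theorem c_mm_202 : CertN 0 536870912 1073741824 536870912 134217728 67108864 3 false false false .pp 2 0 2
    ndN0q2 ndN5q2 pcN0 cut_mm_202 Ext.none :=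
  certN1 (fam := false) (s1 := false) (s2 := false) (a := 2) (b := 0) (c := 2) (cn := .pp) (n1 := ndN0q2) (n2 := ndN5q2) (pc := pcN0) (cut := cut_mm_202) (xt := Ext.none) (P1 := 0) (W1 := 536870912) (P2 := 1073741824) (W2 := 536870912) (P3 := 134217728) (W3 := 67108864) (N0 := 3)
    rfl (fun _ => rfl) s44_mm_202

noncomputable def f_mm_203 : ℕ → ℕ → ℕ → ℕ → Bool := onCell 0 536870912 0 1230186008 134217728 67108864
    (rowN 3 0 false false false .up 2 0 3 (qsf 0 536870912 0 1230186008 0) ndN0q2 ndN5q3 pcN0 Cut.none Ext.none)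

def k0_mm_203 : ∃ t, chk3 f_mm_203 t 1 1 1 = true :=
  ⟨(b (l 2) (b (l 2) (a (b (a (b (l 2) (b (l 2) (a (a (l 16947936) (l 16807344)) (a (a (b (a (l 323297018791) (l 249812834551)) (l 16827112)) (b (l 311553010519) (a (b (l 244444084151) (l 16805408)) (l 274508878599)))) (l 3))))) (l 3)) (a (b (a (b (l 16892048) (l 17043376)) (b (a (b (c (l 16803512) (l 16815760)) (l 16855216)) (a (b (a (b (l 275582597015) (l 16809312)) (l 289541268343)) (c (l 180019585687) (l 184314561399))) (b (l 3) (a (l 248739101047) (l 305110529703))))) (a (l 16929864) (b (a (l 16850168) (a (l 16818312) (b (l 232632922967) (l 16806032)))) (l 16823632))))) (a (b (l 17111040) (l 17180616)) (b (l 16898848) (l 17036312)))) (b (a (b (l 3) (a (a (b (a (l 271824541927) (l 3)) (b (a (l 16802808) (l 262697691303)) (l 182703933351))) (b (l 3) (a (b (l 3) (l 272361368519)) (l 3)))) (l 3))) (l 3)) (a (b (a (a (b (l 16838520) (l 16876936)) (b (a (b (l 224579877927) (l 16814960)) (b (l 281488175319) (l 213842469655)))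 (l 16811768))) (a (b (c (l 318532266391) (l 321753494215)) (a (b (l 222432398327) (l 16808800)) (b (l 302426123527) (l 231559198151)))) (l 3))) (a (l 16913944) (a (b (b (l 161229083575) (l 16837008)) (l 16867440)) (b (a (b (l 249812805191) (l 176261465015)) (l 287930687815)) (b (a (l 16822832) (l 192367601015)) (l 16831664)))))) (b (l 3) (a (a (b (l 3) (a (b (a (l 249275911639) (l 3)) (a (l 16802520) (l 209547455815))) (a (l 291688762375) (l 3)))) (l 3)) (l 3))))))) (l 3)))), by decide +kernel⟩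

theorem c_mm_203 : CertN 0 536870912 0 1230186008 134217728 67108864 3 false false false .up 2 0 3
    ndN0q2 ndN5q3 pcN0 Cut.none Ext.none :=
  certN0 (fam := false) (s1 := false) (s2 := false) (a := 2) (b := 0) (c := 3) (cn := .up) (n1 := ndN0q2) (n2 := ndN5q3) (pc := pcN0) (cut := Cut.none) (xt := Ext.none) (P1 := 0) (W1 := 536870912) (P2 := 0) (W2 := 1230186008) (P3 := 134217728) (W3 := 67108864) (N0 := 3)
    rfl k0_mm_203

noncomputable def f_mm_213 : ℕ → ℕ → ℕ → ℕ → Bool := onCell 0 536870912 0 1230186008 134217728 67108864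
    (rowN 3 0 false false false .pnn 2 1 3 (qsf 0 536870912 0 1230186008 1) ndN0q2 ndN5q3 pcN1 Cut.none Ext.none)

def k0_mm_213 : ∃ t, chk3 f_mm_213 t 1 1 1 = true :=
  ⟨(b (a (l 3) (b (l 5) (l 3))) (b (a (b (l 3) (a (l 3) (l 3))) (l 3)) (a (b (a (b (a (a (b (a (a (b (l 272361361927) (l 16783576)) (l 271287684375)) (l 299204950599)) (a (l 16822632) (b (a (l 261624002151) (l 270750748727)) (l 16811192)))) (b (l 3) (b (l 311552943719) (l 280951360423)))) (l 3)) (a (a (b (l 16850768) (l 16902784)) (b (a (b (a (l 16812632) (l 260550269943)) (l 16825976)) (b (l 270213918247) (a (l 16808664) (l 246591606087)))) (b (l 16835336) (l 1)))) (a (b (a (l 292762539287) (l 3)) (b (a (a (l 259476541895) (l 247665362583)) (l 292225601223)) (l 1))) (b (l 3) (l 3))))) (l 3)) (b (a (l 1) (a (l 1) (l 3))) (l 1))) (l 3)))), by decide +kernel⟩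

theorem c_mm_213 : CertN 0 536870912 0 1230186008 134217728 67108864 3 false false false .pnn 2 1 3
    ndN0q2 ndN5q3 pcN1 Cut.none Ext.none :=
  certN0 (fam := false) (s1 := false) (s2 := false) (a := 2) (b := 1) (c := 3) (cn := .pnn) (n1 := ndN0q2) (n2 := ndN5q3) (pc := pcN1) (cut := Cut.none) (xt := Ext.none) (P1 := 0) (W1 := 536870912) (P2 := 0) (W2 := 1230186008) (P3 := 134217728) (W3 := 67108864) (N0 := 3)
    rfl k0_mm_213

end Pool.Agent.Strip051.G.I1_8_3_16.Tab.C.NB05

namespace Pool.Agent.Strip051.G.I1_8_3_16.Tab.C.NB10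

open Pool.Agent.Strip051.PB Pool.Agent.Strip051.PB.T
open Pool.Agent.Strip051.G.I1_8_3_16.Tab

noncomputable def f_pp_001 : ℕ → ℕ → ℕ → ℕ → Bool := onCell 0 536870912 0 536870912 134217728 67108864
    (rowN 3 1 false true true .up 0 0 1 (qsf 0 536870912 536870912 536870912 0) ndN1q0 ndN0q1 pcN0 Cut.none Ext.none)

def k0_pp_001 : ∃ t, chk3 f_pp_001 t 1 1 1 = true :=
  ⟨(l 3), by decide +kernel⟩

theorem c_pp_001 : CertN 0 536870912 536870912 536870912 134217728 67108864 3 false true true .up 0 0 1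
    ndN1q0 ndN0q1 pcN0 Cut.none Ext.none :=
  certN1 (fam := false) (s1 := true) (s2 := true) (a := 0) (b := 0) (c := 1) (cn := .up) (n1 := ndN1q0) (n2 := ndN0q1) (pc := pcN0) (cut := Cut.none) (xt := Ext.none) (P1 := 0) (W1 := 536870912) (P2 := 536870912) (W2 := 536870912) (P3 := 134217728) (W3 := 67108864) (N0 := 3)
    rfl (fun _ => rfl) k0_pp_001

noncomputable def cut_pp_011 : Cut := Cut.of [[⟨0, 0, 0, 67108864⟩, ⟨1, 1, 0, 67108864⟩, ⟨2, 1, 0, 67108864⟩]]

noncomputable def f_pp_011 : ℕ → ℕ → ℕ → ℕ → Bool := onCell 0 536870912 536870912 536870912 134217728 67108864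
    (rowN 3 0 false true true .pnn 0 1 1 (qsf 0 536870912 536870912 536870912 1) ndN1q0 ndN0q1 pcN1 cut_pp_011 Ext.none)

def k0_pp_011 : ∃ t, chk3 f_pp_011 t 1 1 1 = true :=
  ⟨(a (b (l 3) (b (l 3) (a (b (l 3) (a (a (a (b (l 3) (l 6)) (l 3)) (l 3)) (l 3))) (l 3)))) (l 3)), by decide +kernel⟩

theorem c_pp_011 : CertN 0 536870912 536870912 536870912 134217728 67108864 3 false true true .pnn 0 1 1
    ndN1q0 ndN0q1 pcN1 cut_pp_011 Ext.none :=
  certN0 (fam := false) (s1 := true) (s2 := true) (a := 0) (b := 1) (c := 1) (cn := .pnn) (n1 := ndN1q0) (n2 := ndN0q1) (pc := pcN1) (cut := cut_pp_011) (xt := Ext.none) (P1 := 0) (W1 := 536870912) (P2 := 536870912) (W2 := 536870912) (P3 := 134217728) (W3 := 67108864) (N0 := 3)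
    rfl k0_pp_011

noncomputable def cut_pp_012 : Cut := Cut.of [[⟨0, 0, 0, 67108864⟩, ⟨1, 1, 0, 67108864⟩, ⟨2, 1, 0, 67108864⟩]]

noncomputable def f_pp_012 : ℕ → ℕ → ℕ → ℕ → Bool := onCell 536870912 536870912 0 536870912 134217728 67108864
    (rowN 3 2 false true true .pnp 0 1 2 (qsf 0 536870912 0 536870912 1) ndN1q0 ndN0q2 pcN1 cut_pp_012 Ext.none)

def k0_pp_012 : ∃ t, chk3 f_pp_012 t 1 1 1 = true :=
  ⟨(a (b (a (b (l 2) (a (l 2) (l 17205336))) (b (l 16993008) (a (l 16992896) (l 16929976)))) (a (b (a (l 2) (b (l 132776302359) (l 3))) (l 3)) (b (a (b (l 17126904) (l 148881927607)) (b (l 16994808) (l 17202904))) (a (l 3) (b (l 154250472119) (l 3)))))) (b (a (b (l 17169368) (l 17136696)) (b (a (l 17179200) (a (l 16943120) (l 16921664))) (a (l 17011656) (a (l 16891128) (l 16881400))))) (a (b (a (l 17094592) (l 17003296)) (a (b (l 152639556071) (l 3)) (b (l 17046080) (l 164987542375)))) (b (a (b (l 16875256) (l 16833784)) (b (a (l 16827480) (l 16813728)) (a (l 16806152) (a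 (l 16793576) (l 16785616))))) (b (a (b (l 16821512) (l 16875040)) (a (b (l 16800752) (l 16801704)) (a (l 16786232) (b (l 16776912) (a (l 16778288) (l 16773296)))))) (a (b (l 16956552) (b (l 142975822535) (l 3))) (b (a (l 16845912) (a (l 16809552) (l 6))) (a (b (l 16835376) (l 179482758119)) (l 6))))))))), by decide +kernel⟩

theorem c_pp_012 : CertN 0 536870912 0 536870912 134217728 67108864 3 false true true .pnp 0 1 2
    ndN1q0 ndN0q2 pcN1 cut_pp_012 Ext.none :=
  certN2 (fam := false) (s1 := true) (s2 := true) (a := 0) (b := 1) (c := 2) (cn := .pnp) (n1 := ndN1q0) (n2 := ndN0q2) (pc := pcN1) (cut := cut_pp_012) (xt := Ext.none) (P1 := 0) (W1 := 536870912) (P2 := 0) (W2 := 536870912) (P3 := 134217728) (W3 := 67108864) (N0 := 3)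
    rfl (fun _ => rfl) k0_pp_012

noncomputable def cut_pp_022 : Cut := Cut.of [[⟨0, 0, 0, 67108864⟩, ⟨1, 1, 0, 67108864⟩, ⟨2, 1, 0, 67108864⟩]]

noncomputable def f_pp_022 : ℕ → ℕ → ℕ → ℕ → Bool := onCell 1073741824 536870912 0 536870912 134217728 67108864
    (rowN 3 2 false true true .pp 0 2 2 (qsf 0 536870912 0 536870912 2) ndN1q0 ndN0q2 pcN2 cut_pp_022 Ext.none)

def k0_pp_022 : ∃ t, chk3 f_pp_022 t 2 2 1 = true :=
  ⟨(a (b (a (l 16617920) (a (a (l 16512272) (b (l 16544520) (l 16634992))) (a (a (l 16519792) (l 16529696)) (b (l 16522568) (l 16578160))))) (a (b (l 16584352) (a (l 16619256) (l 16590600))) (a (a (l 16643952) (a (b (l 16533376) (l 16663024)) (b (l 16545512) (b (l 16564856) (l 16617664))))) (c (a (b (l 16618104) (a (l 16570176) (l 16582704))) (b (l 16617864) (b (a (l 16538288) (l 16567176)) (a (l 16578240) (l 206728482983))))) (a (b (l 16619344) (a (l 16562336) (l 16591632))) (b (l 16589280) (a (l 16570152) (b (l 16525120) (l 199749118903))))))))) (a (a (a (b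 (b (l 16552120) (a (l 16525984) (c (l 16740144) (l 16481904)))) (c (b (b (l 16581752) (a (l 16539872) (l 223908298391))) (a (b (l 216928997559) (a (l 221760782903) (l 1))) (b (l 236793175527) (l 1)))) (b (a (l 16533464) (l 223908263767)) (a (b (l 16552904) (l 272226651863)) (l 274911064967))))) (b (c (a (b (l 16856328) (l 231424585447)) (b (a (l 16865936) (l 244309569527)) (a (l 237867035799) (a (l 241088260679) (l 1))))) (a (b (l 16480360) (l 16511272)) (b (l 242161939927) (a (l 16517384) (l 301754603447))))) (a (b (c (l 274374159959) (a (l 269542228199) (l 259341667463))) (l 1)) (l 1)))) (b (b (l 1) (l 1)) (l 1))) (l 1))), by decide +kernel⟩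

def k1_pp_022 : ∃ t, chk3 f_pp_022 t 4 6 1 = true :=
  ⟨(a (b (a (l 16628344) (l 16644480)) (a (b (l 16658464) (a (l 16703400) (l 16683024))) (b (a (l 16636608) (l 16662432)) (a (l 16684400) (a (l 16671032) (c (l 16668000) (l 16636752))))))) (a (a (b (l 16622352) (b (c (l 16652160) (l 16640240)) (b (a (l 16648536) (c (l 228203423831) (l 16636152))) (a (c (b (l 16641680) (l 16658296)) (l 16656904)) (c (b (l 198138662135) (l 161094576615)) (l 191696195495)))))) (a (a (b (l 16610800) (b (c (l 16620760) (l 16611440)) (b (c (l 204044216119) (l 201359844055)) (l 1)))) (b (c (l 16612816) (l 16601584)) (b (b (c (l 16610984) (l 16606296)) (c (l 219613475831) (l 16624384))) (b (c (b (l 180958775687) (l 1)) (l 183643130151)) (l 1))))) (b (a (c (l 16608280) (l 16597384)) (b (l 16582248) (c (l 16610352) (l 16592632)))) (b (a (b (c (l 16630296) (l 16602344)) (c (l 200286113063) (l 193843642247))) (b (c (l 207802284151) (l 16606864)) (c (b (l 170758196231) (l 1)) (l 240014523591)))) (l 1)))))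 (a (b (a (b (c (l 16610608) (l 16616496)) (a (c (l 16607272) (l 16607016)) (c (b (l 16586504) (l 199212328567)) (l 212097210759)))) (b (c (b (l 16588440) (l 205654777623)) (l 16591432)) (b (c (l 177200650215) (l 164852585799)) (a (c (l 170221305111) (l 164315693143)) (l 1))))) (a (b (a (b (c (l 191696156999) (l 186864292919)) (l 1)) (l 1)) (l 1)) (l 1))) (b (b (a (c (b (l 202970399159) (l 277058604695)) (l 211023457127)) (c (l 265247445687) (l 262563049975))) (l 1)) (l 1))))), by decide +kernel⟩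

def k2_pp_022 : ∃ t, chk3 f_pp_022 t 4 7 1 = true :=
  ⟨(a (b (b (a (a (l 16715696) (l 16719408)) (a (b (c (l 16682640) (l 16673056)) (a (l 16691584) (l 16705824))) (b (a (l 16687608) (c (c (l 16676488) (l 16661816)) (l 16676896))) (a (c (b (l 16679264) (l 6)) (l 16696088)) (c (a (b (l 16674416) (l 6)) (c (a (l 186864431239) (l 165926462775)) (l 185253810359))) (b (l 207265528263) (l 163242123927))))))) (a (l 6) (a (l 6) (a (l 6) (a (l 6) (l 1)))))) (a (l 6) (a (l 6) (l 1)))) (a (a (b (b (b (a (c (c (a (l 197601840407) (l 183106296439)) (l 180421958215)) (l 192769978167)) (c (b (l 150894021879) (l 1)) (l 163778916775))) (a (c (b (l 147135984967) (l 1)) (l 160557752215)) (l 1))) (l 1)) (l 1)) (l 1)) (l 1))), by decide +kernel⟩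

def k3_pp_022 : ∃ t, chk3 f_pp_022 t 5 3 1 = true :=
  ⟨(b (l 1) (l 1)), by decide +kernel⟩

def k4_pp_022 : ∃ t, chk3 f_pp_022 t 3 1 1 = true :=
  ⟨(l 1), by decide +kernel⟩

theorem s5_pp_022 : ∃ t, chk3 f_pp_022 t 4 3 1 = true := ex3_b k1_pp_022 k2_pp_022

theorem s6_pp_022 : ∃ t, chk3 f_pp_022 t 2 3 1 = true := ex3_a s5_pp_022 k3_pp_022

theorem s7_pp_022 : ∃ t, chk3 f_pp_022 t 2 1 1 = true := ex3_b k0_pp_022 s6_pp_022

theorem s8_pp_022 : ∃ t, chk3 f_pp_022 t 1 1 1 = true := ex3_a s7_pp_022 k4_pp_022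

theorem c_pp_022 : CertN 0 536870912 0 536870912 134217728 67108864 3 false true true .pp 0 2 2
    ndN1q0 ndN0q2 pcN2 cut_pp_022 Ext.none :=
  certN2 (fam := false) (s1 := true) (s2 := true) (a := 0) (b := 2) (c := 2) (cn := .pp) (n1 := ndN1q0) (n2 := ndN0q2) (pc := pcN2) (cut := cut_pp_022) (xt := Ext.none) (P1 := 0) (W1 := 536870912) (P2 := 0) (W2 := 536870912) (P3 := 134217728) (W3 := 67108864) (N0 := 3)
    rfl (fun _ => rfl) s8_pp_022

noncomputable def f_pp_101 : ℕ → ℕ → ℕ → ℕ → Bool := onCell 536870912 536870912 536870912 536870912 134217728 67108864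
    (rowN 3 0 false true true .npn 1 0 1 (qsf 536870912 536870912 536870912 536870912 0) ndN1q1 ndN0q1 pcN0 Cut.none Ext.none)

def k0_pp_101 : ∃ t, chk3 f_pp_101 t 1 1 1 = true :=
  ⟨(l 3), by decide +kernel⟩

theorem c_pp_101 : CertN 536870912 536870912 536870912 536870912 134217728 67108864 3 false true true .npn 1 0 1
    ndN1q1 ndN0q1 pcN0 Cut.none Ext.none :=
  certN0 (fam := false) (s1 := true) (s2 := true) (a := 1) (b := 0) (c := 1) (cn := .npn) (n1 := ndN1q1) (n2 := ndN0q1) (pc := pcN0) (cut := Cut.none) (xt := Ext.none) (P1 := 536870912) (W1 := 536870912) (P2 := 536870912) (W2 := 536870912) (P3 := 134217728) (W3 := 67108864) (N0 := 3)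
    rfl k0_pp_101

noncomputable def f_pp_102 : ℕ → ℕ → ℕ → ℕ → Bool := onCell 0 536870912 0 536870912 134217728 67108864
    (rowN 3 2 false true true .npp 1 0 2 (qsf 536870912 536870912 0 536870912 0) ndN1q1 ndN0q2 pcN0 Cut.none Ext.none)

def k0_pp_102 : ∃ t, chk3 f_pp_102 t 1 1 1 = true :=
  ⟨(a (b (b (a (l 2) (a (b (a (b (l 150492137079) (l 3)) (b (l 144586604311) (l 173040780311))) (l 3)) (b (a (l 144049809351) (l 17188288)) (a (l 3) (l 180557277911))))) (l 3)) (l 3)) (b (a (b (a (b (l 17284592) (b (l 17313760) (l 180020720951))) (b (l 17259216) (l 17305768))) (b (a (l 187000016759) (l 153713999815)) (l 3))) (b (a (l 17216272) (l 17150904)) (a (b (l 17301008) (l 158008975815)) (b (l 17257264) (l 147271841943))))) (a (l 3) (l 3)))), by decide +kernel⟩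

theorem c_pp_102 : CertN 536870912 536870912 0 536870912 134217728 67108864 3 false true true .npp 1 0 2
    ndN1q1 ndN0q2 pcN0 Cut.none Ext.none :=
  certN2 (fam := false) (s1 := true) (s2 := true) (a := 1) (b := 0) (c := 2) (cn := .npp) (n1 := ndN1q1) (n2 := ndN0q2) (pc := pcN0) (cut := Cut.none) (xt := Ext.none) (P1 := 536870912) (W1 := 536870912) (P2 := 0) (W2 := 536870912) (P3 := 134217728) (W3 := 67108864) (N0 := 3)
    rfl (fun _ => rfl) k0_pp_102

noncomputable def f_pp_112 : ℕ → ℕ → ℕ → ℕ → Bool := onCell 536870912 536870912 0 536870912 134217728 67108864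
    (rowN 3 2 false true true .dn 1 1 2 (qsf 536870912 536870912 0 536870912 1) ndN1q1 ndN0q2 pcN1 Cut.none Ext.none)

def k0_pp_112 : ∃ t, chk3 f_pp_112 t 1 1 1 = true :=
  ⟨(a (b (a (b (l 17539600) (a (b (l 17335384) (l 17353104)) (l 17388536))) (b (l 17520024) (l 957813174519))) (a (b (b (a (l 147271634583) (l 137608215655)) (l 3)) (l 3)) (b (l 1) (l 1)))) (l 1)), by decide +kernel⟩

theorem c_pp_112 : CertN 536870912 536870912 0 536870912 134217728 67108864 3 false true true .dn 1 1 2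
    ndN1q1 ndN0q2 pcN1 Cut.none Ext.none :=
  certN2 (fam := false) (s1 := true) (s2 := true) (a := 1) (b := 1) (c := 2) (cn := .dn) (n1 := ndN1q1) (n2 := ndN0q2) (pc := pcN1) (cut := Cut.none) (xt := Ext.none) (P1 := 536870912) (W1 := 536870912) (P2 := 0) (W2 := 536870912) (P3 := 134217728) (W3 := 67108864) (N0 := 3)
    rfl (fun _ => rfl) k0_pp_112

noncomputable def f_pp_202_a : ℕ → ℕ → ℕ → ℕ → Bool := onCell 0 536870912 0 536870912 134217728 67108864
    (rowN 3 0 false true true .pp 2 0 2 (qsf 0 536870912 0 536870912 0) ndN1q2a ndN0q2 pcN0 Cut.none Ext.none)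

def k0_pp_202_a : ∃ t, chk3 f_pp_202_a t 1 1 1 = true :=
  ⟨(l 3), by decide +kernel⟩

theorem c_pp_202_a : CertN 0 536870912 0 536870912 134217728 67108864 3 false true true .pp 2 0 2
    ndN1q2a ndN0q2 pcN0 Cut.none Ext.none :=
  certN0 (fam := false) (s1 := true) (s2 := true) (a := 2) (b := 0) (c := 2) (cn := .pp) (n1 := ndN1q2a) (n2 := ndN0q2) (pc := pcN0) (cut := Cut.none) (xt := Ext.none) (P1 := 0) (W1 := 536870912) (P2 := 0) (W2 := 536870912) (P3 := 134217728) (W3 := 67108864) (N0 := 3)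
    rfl k0_pp_202_a

noncomputable def f_pp_202_b : ℕ → ℕ → ℕ → ℕ → Bool := onCell 1239849684 370763052 0 536870912 134217728 67108864
    (rowN 3 0 false true true .pp 2 0 2 (qsf 1239849684 370763052 0 536870912 0) ndN1q2b ndN0q2 pcN0 Cut.none Ext.none)

def k0_pp_202_b : ∃ t, chk3 f_pp_202_b t 1 1 1 = true :=
  ⟨(l 3), by decide +kernel⟩

theorem c_pp_202_b : CertN 1239849684 370763052 0 536870912 134217728 67108864 3 false true true .pp 2 0 2
    ndN1q2b ndN0q2 pcN0 Cut.none Ext.none :=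
  certN0 (fam := false) (s1 := true) (s2 := true) (a := 2) (b := 0) (c := 2) (cn := .pp) (n1 := ndN1q2b) (n2 := ndN0q2) (pc := pcN0) (cut := Cut.none) (xt := Ext.none) (P1 := 1239849684) (W1 := 370763052) (P2 := 0) (W2 := 536870912) (P3 := 134217728) (W3 := 67108864) (N0 := 3)
    rfl k0_pp_202_b

noncomputable def f_pm_001 : ℕ → ℕ → ℕ → ℕ → Bool := onCell 0 536870912 536870912 536870912 134217728 67108864
    (rowN 3 0 false true false .up 0 0 1 (qsf 0 536870912 536870912 536870912 0) ndN1q0 ndN0q1 pcN0 Cut.none Ext.none)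

def k0_pm_001 : ∃ t, chk3 f_pm_001 t 1 1 1 = true :=
  ⟨(b (l 4) (b (l 4) (b (l 4) (a (l 2) (a (l 2) (b (l 4) (a (l 2) (l 17592320)))))))), by decide +kernel⟩

theorem c_pm_001 : CertN 0 536870912 536870912 536870912 134217728 67108864 3 false true false .up 0 0 1
    ndN1q0 ndN0q1 pcN0 Cut.none Ext.none :=
  certN0 (fam := false) (s1 := true) (s2 := false) (a := 0) (b := 0) (c := 1) (cn := .up) (n1 := ndN1q0) (n2 := ndN0q1) (pc := pcN0) (cut := Cut.none) (xt := Ext.none) (P1 := 0) (W1 := 536870912) (P2 := 536870912) (W2 := 536870912) (P3 := 134217728) (W3 := 67108864) (N0 := 3)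
    rfl k0_pm_001

noncomputable def cut_pm_011 : Cut := Cut.of [[⟨0, 0, 0, 67108864⟩, ⟨1, 1, 0, 67108864⟩, ⟨2, 1, 0, 67108864⟩]]

noncomputable def f_pm_011 : ℕ → ℕ → ℕ → ℕ → Bool := onCell 0 536870912 536870912 536870912 134217728 67108864
    (rowN 3 0 false true false .pnn 0 1 1 (qsf 0 536870912 536870912 536870912 1) ndN1q0 ndN0q1 pcN1 cut_pm_011 Ext.none)

def k0_pm_011 : ∃ t, chk3 f_pm_011 t 1 1 1 = true :=
  ⟨(b (l 4) (b (l 4) (b (l 4) (b (a (l 4) (l 4)) (a (a (a (a (b (l 4) (l 6)) (l 4)) (l 4)) (l 4)) (a (l 452818913175) (l 17613784))))))), by decide +kernel⟩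

theorem c_pm_011 : CertN 0 536870912 536870912 536870912 134217728 67108864 3 false true false .pnn 0 1 1
    ndN1q0 ndN0q1 pcN1 cut_pm_011 Ext.none :=
  certN0 (fam := false) (s1 := true) (s2 := false) (a := 0) (b := 1) (c := 1) (cn := .pnn) (n1 := ndN1q0) (n2 := ndN0q1) (pc := pcN1) (cut := cut_pm_011) (xt := Ext.none) (P1 := 0) (W1 := 536870912) (P2 := 536870912) (W2 := 536870912) (P3 := 134217728) (W3 := 67108864) (N0 := 3)
    rfl k0_pm_011

noncomputable def cut_pm_012 : Cut := Cut.of [[⟨0, 0, 0, 67108864⟩, ⟨1, 1, 0, 67108864⟩, ⟨2, 1, 0, 67108864⟩]]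

noncomputable def f_pm_012 : ℕ → ℕ → ℕ → ℕ → Bool := onCell 536870912 536870912 0 536870912 134217728 67108864
    (rowN 3 2 false true false .pnp 0 1 2 (qsf 0 536870912 0 536870912 1) ndN1q0 ndN0q2 pcN1 cut_pm_012 Ext.none)

def k0_pm_012 : ∃ t, chk3 f_pm_012 t 1 1 1 = true :=
  ⟨(a (b (a (b (l 2) (l 17386648)) (b (l 17228848) (b (l 17420808) (l 17539608)))) (a (b (b (l 17611928) (l 17731624)) (l 17750632)) (b (b (l 17646760) (a (l 17755848) (l 17735144))) (b (l 17730688) (l 17609040))))) (b (b (a (l 17381144) (a (l 17333216) (a (l 17046608) (l 16703184)))) (a (a (l 17561432) (l 17553392)) (a (l 17369904) (a (l 16895192) (b (l 16563760) (l 16507544)))))) (a (a (b (b (l 17651840) (l 17847280)) (b (a (l 17589264) (l 17484376)) (l 17304800))) (a (b (l 17565512) (b (l 17323120) (b (l 17072264) (l 16878120)))) (b (l 17546664) (b (a (l 17145240) (l 16987552)) (l 60901291383))))) (a (b (a (b (l 17333016) (l 17096248)) (b (l 17013032) (l 16631280))) (a (b (l 16699256) (b (l 16749296)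 (l 16657360))) (b (a (l 16625592) (l 16570792)) (b (a (l 16662480) (l 16663992)) (l 16764344))))) (b (a (b (l 16485472) (l 16584656)) (b (l 16498336) (a (l 16556168) (l 16642248)))) (b (a (b (l 16563104) (l 16609064)) (a (b (l 16589288) (l 16629848)) (b (l 16609776) (b (l 16616080) (l 16678376))))) (b (a (a (l 16678320) (l 16687816)) (a (b (l 16664264) (l 6)) (l 6))) (a (b (l 16747368) (b (l 16749072) (l 4))) (l 6))))))))), by decide +kernel⟩

theorem c_pm_012 : CertN 0 536870912 0 536870912 134217728 67108864 3 false true false .pnp 0 1 2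
    ndN1q0 ndN0q2 pcN1 cut_pm_012 Ext.none :=
  certN2 (fam := false) (s1 := true) (s2 := false) (a := 0) (b := 1) (c := 2) (cn := .pnp) (n1 := ndN1q0) (n2 := ndN0q2) (pc := pcN1) (cut := cut_pm_012) (xt := Ext.none) (P1 := 0) (W1 := 536870912) (P2 := 0) (W2 := 536870912) (P3 := 134217728) (W3 := 67108864) (N0 := 3)
    rfl (fun _ => rfl) k0_pm_012

noncomputable def cut_pm_022 : Cut := Cut.of [[⟨0, 0, 0, 67108864⟩, ⟨1, 1, 0, 67108864⟩, ⟨2, 1, 0, 67108864⟩]]

noncomputable def f_pm_022 : ℕ → ℕ → ℕ → ℕ → Bool := onCell 0 536870912 0 536870912 134217728 67108864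
    (rowN 3 0 false true false .pp 0 2 2 (qsf 0 536870912 0 536870912 2) ndN1q0 ndN0q2 pcN2 cut_pm_022 Ext.none)

def k0_pm_022 : ∃ t, chk3 f_pm_022 t 1 1 1 = true :=
  ⟨(a (b (a (b (b (a (a (b (a (a (c (l 16881456) (l 16528320)) (l 16510600)) (l 16516624)) (a (c (l 16851984) (l 16528408)) (l 16520880))) (a (l 16558688) (l 16558632))) (a (a (l 16577088) (l 16490752)) (l 16517544))) (a (a (a (c (l 16760152) (l 16521600)) (l 16530448)) (l 16493112)) (l 16496608))) (a (a (a (b (c (l 16593952) (l 16553928)) (b (c (l 16598632) (l 16562400)) (c (l 16616840) (l 16582920)))) (c (b (l 16524112) (l 16556248)) (l 16631984))) (b (l 16535976) (l 16587176))) (a (l 16569616) (b (l 16510704) (l 16518168))))) (a (b (l 16604000) (b (l 16552832) (l 16553200))) (l 1))) (a (b (a (a (a (b (a (c (b (l 16643136) (a (l 16665512) (l 16636176))) (b (l 16610768) (l 16630672))) (c (l 16635880) (l 16626264))) (a (b (c (b (l 16674616) (l 16683408)) (l 16670848)) (c (a (c (l 16702776) (l 16699200)) (l 16671144))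 (b (l 16663952) (l 16694304)))) (c (b (l 16640728) (l 16657728)) (l 16684552)))) (b (c (l 16610624) (l 16602312)) (c (l 16685368) (l 16679784)))) (b (a (l 16593920) (l 16538600)) (b (l 16620768) (l 16627272)))) (b (a (l 16542968) (l 16543240)) (a (b (l 16557552) (l 16609664)) (b (l 16574336) (l 1))))) (a (a (b (b (a (a (a (c (c (b (l 16694848) (l 16724808)) (b (l 16691752) (l 16701072))) (b (l 16708136) (a (l 16720136) (l 16694792)))) (c (l 16709784) (l 16683368))) (c (l 16696072) (l 16691136))) (c (l 16668296) (l 16664312))) (l 6)) (l 6)) (a (b (b (l 16650192) (l 6)) (l 6)) (b (b (l 16614840) (b (l 16646656) (l 16669432))) (l 1)))) (b (a (a (b (l 16621592) (l 1)) (l 1)) (l 1)) (l 1)))) (b (l 1) (l 1)))) (l 1)), by decide +kernel⟩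

theorem c_pm_022 : CertN 0 536870912 0 536870912 134217728 67108864 3 false true false .pp 0 2 2
    ndN1q0 ndN0q2 pcN2 cut_pm_022 Ext.none :=
  certN0 (fam := false) (s1 := true) (s2 := false) (a := 0) (b := 2) (c := 2) (cn := .pp) (n1 := ndN1q0) (n2 := ndN0q2) (pc := pcN2) (cut := cut_pm_022) (xt := Ext.none) (P1 := 0) (W1 := 536870912) (P2 := 0) (W2 := 536870912) (P3 := 134217728) (W3 := 67108864) (N0 := 3)
    rfl k0_pm_022

noncomputable def f_pm_101 : ℕ → ℕ → ℕ → ℕ → Bool := onCell 0 536870912 536870912 536870912 134217728 67108864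
    (rowN 3 2 false true false .npn 1 0 1 (qsf 536870912 536870912 536870912 536870912 0) ndN1q1 ndN0q1 pcN0 Cut.none Ext.none)

def k0_pm_101 : ∃ t, chk3 f_pm_101 t 1 1 1 = true :=
  ⟨(b (l 4) (b (a (a (b (l 4) (l 18022864)) (l 4)) (l 4)) (a (a (b (l 18135984) (l 18055864)) (b (l 18222432) (l 18045376))) (a (b (a (l 18053992) (l 4)) (a (l 18066184) (l 18082112))) (b (l 4) (a (l 67346876487) (b (l 4) (l 18085928)))))))), by decide +kernel⟩

theorem c_pm_101 : CertN 536870912 536870912 536870912 536870912 134217728 67108864 3 false true false .npn 1 0 1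
    ndN1q1 ndN0q1 pcN0 Cut.none Ext.none :=
  certN2 (fam := false) (s1 := true) (s2 := false) (a := 1) (b := 0) (c := 1) (cn := .npn) (n1 := ndN1q1) (n2 := ndN0q1) (pc := pcN0) (cut := Cut.none) (xt := Ext.none) (P1 := 536870912) (W1 := 536870912) (P2 := 536870912) (W2 := 536870912) (P3 := 134217728) (W3 := 67108864) (N0 := 3)
    rfl (fun _ => rfl) k0_pm_101

noncomputable def f_pm_102 : ℕ → ℕ → ℕ → ℕ → Bool := onCell 536870912 536870912 0 536870912 134217728 67108864
    (rowN 3 0 false true false .npp 1 0 2 (qsf 536870912 536870912 0 536870912 0) ndN1q1 ndN0q2 pcN0 Cut.none Ext.none)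

def k0_pm_102 : ∃ t, chk3 f_pm_102 t 1 1 1 = true :=
  ⟨(a (b (a (b (l 2) (l 17070160)) (b (l 17013952) (l 17162624))) (b (a (a (l 2) (l 79558591799)) (b (a (l 16910200) (l 16859368)) (l 17115464))) (a (b (l 86538677319) (a (l 17940544) (l 17799976))) (b (l 17426152) (a (l 17784392) (l 17774984)))))) (b (a (b (a (l 17144968) (l 17218512)) (b (l 17126248) (l 16950656))) (b (a (b (l 17202264) (l 17166648)) (a (l 17038224) (b (l 17016128) (l 17005928)))) (b (a (l 17118912) (a (l 17028048) (l 16978064))) (a (l 16969440) (l 16650968))))) (b (a (b (a (l 16863560) (l 16937240)) (l 17170744)) (b (a (l 16992472) (l 17023560)) (l 17314520))) (a (b (l 17478008) (l 17754520)) (b (l 17681056) (a (l 17785232) (l 17810456))))))), by decide +kernel⟩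

theorem c_pm_102 : CertN 536870912 536870912 0 536870912 134217728 67108864 3 false true false .npp 1 0 2
    ndN1q1 ndN0q2 pcN0 Cut.none Ext.none :=
  certN0 (fam := false) (s1 := true) (s2 := false) (a := 1) (b := 0) (c := 2) (cn := .npp) (n1 := ndN1q1) (n2 := ndN0q2) (pc := pcN0) (cut := Cut.none) (xt := Ext.none) (P1 := 536870912) (W1 := 536870912) (P2 := 0) (W2 := 536870912) (P3 := 134217728) (W3 := 67108864) (N0 := 3)
    rfl k0_pm_102

noncomputable def f_pm_112 : ℕ → ℕ → ℕ → ℕ → Bool := onCell 536870912 536870912 0 536870912 134217728 67108864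
    (rowN 3 2 false true false .dn 1 1 2 (qsf 536870912 536870912 0 536870912 1) ndN1q1 ndN0q2 pcN1 Cut.none Ext.none)

def k0_pm_112 : ∃ t, chk3 f_pm_112 t 1 1 1 = true :=
  ⟨(a (b (a (b (l 17562424) (l 17974832)) (b (l 17633416) (l 18136392))) (a (b (l 60166368759) (l 18169360)) (b (l 1) (l 1)))) (l 1)), by decide +kernel⟩

theorem c_pm_112 : CertN 536870912 536870912 0 536870912 134217728 67108864 3 false true false .dn 1 1 2
    ndN1q1 ndN0q2 pcN1 Cut.none Ext.none :=
  certN2 (fam := false) (s1 := true) (s2 := false) (a := 1) (b := 1) (c := 2) (cn := .dn) (n1 := ndN1q1) (n2 := ndN0q2) (pc := pcN1) (cut := Cut.none) (xt := Ext.none) (P1 := 536870912) (W1 := 536870912) (P2 := 0) (W2 := 536870912) (P3 := 134217728) (W3 := 67108864) (N0 := 3)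
    rfl (fun _ => rfl) k0_pm_112

noncomputable def cut_pm_202_a : Cut := Cut.of [[⟨0, 1, 0, 67108864⟩, ⟨1, 0, 0, 67108864⟩, ⟨2, 1, 0, 67108864⟩]]

noncomputable def f_pm_202_a : ℕ → ℕ → ℕ → ℕ → Bool := onCell 0 536870912 0 536870912 134217728 67108864
    (rowN 3 0 false true false .pp 2 0 2 (qsf 0 536870912 0 536870912 0) ndN1q2a ndN0q2 pcN0 cut_pm_202_a Ext.none)

def k0_pm_202_a : ∃ t, chk3 f_pm_202_a t 1 1 1 = true :=
  ⟨(a (l 3) (b (l 3) (a (l 3) (a (l 3) (b (l 3) (b (l 3) (l 6))))))), by decide +kernel⟩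

theorem c_pm_202_a : CertN 0 536870912 0 536870912 134217728 67108864 3 false true false .pp 2 0 2
    ndN1q2a ndN0q2 pcN0 cut_pm_202_a Ext.none :=
  certN0 (fam := false) (s1 := true) (s2 := false) (a := 2) (b := 0) (c := 2) (cn := .pp) (n1 := ndN1q2a) (n2 := ndN0q2) (pc := pcN0) (cut := cut_pm_202_a) (xt := Ext.none) (P1 := 0) (W1 := 536870912) (P2 := 0) (W2 := 536870912) (P3 := 134217728) (W3 := 67108864) (N0 := 3)
    rfl k0_pm_202_a

noncomputable def cut_pm_202_b : Cut := Cut.of [[⟨0, 1, 0, 67108864⟩, ⟨1, 0, 0, 67108864⟩, ⟨2, 1, 0, 67108864⟩]]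

noncomputable def f_pm_202_b : ℕ → ℕ → ℕ → ℕ → Bool := onCell 1239849684 370763052 0 536870912 134217728 67108864
    (rowN 3 0 false true false .pp 2 0 2 (qsf 1239849684 370763052 0 536870912 0) ndN1q2b ndN0q2 pcN0 cut_pm_202_b Ext.none)

def k0_pm_202_b : ∃ t, chk3 f_pm_202_b t 1 1 1 = true :=
  ⟨(l 3), by decide +kernel⟩

theorem c_pm_202_b : CertN 1239849684 370763052 0 536870912 134217728 67108864 3 false true false .pp 2 0 2
    ndN1q2b ndN0q2 pcN0 cut_pm_202_b Ext.none :=
  certN0 (fam := false) (s1 := true) (s2 := false) (a := 2) (b := 0) (c := 2) (cn := .pp) (n1 := ndN1q2b) (n2 := ndN0q2) (pc := pcN0) (cut := cut_pm_202_b) (xt := Ext.none) (P1 := 1239849684) (W1 := 370763052) (P2 := 0) (W2 := 536870912) (P3 := 134217728) (W3 := 67108864) (N0 := 3)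
    rfl k0_pm_202_b

noncomputable def f_mm_001 : ℕ → ℕ → ℕ → ℕ → Bool := onCell 0 536870912 536870912 536870912 134217728 67108864
    (rowN 3 0 false false false .up 0 0 1 (qsf 0 536870912 536870912 536870912 0) ndN1q0 ndN0q1 pcN0 Cut.none Ext.none)

def k0_mm_001 : ∃ t, chk3 f_mm_001 t 1 1 1 = true :=
  ⟨(l 5), by decide +kernel⟩

theorem c_mm_001 : CertN 0 536870912 536870912 536870912 134217728 67108864 3 false false false .up 0 0 1
    ndN1q0 ndN0q1 pcN0 Cut.none Ext.none :=
  certN0 (fam := false) (s1 := false) (s2 := false) (a := 0) (b := 0) (c := 1) (cn := .up) (n1 := ndN1q0) (n2 := ndN0q1) (pc := pcN0) (cut := Cut.none) (xt := Ext.none) (P1 := 0) (W1 := 536870912) (P2 := 536870912) (W2 := 536870912) (P3 := 134217728) (W3 := 67108864) (N0 := 3)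
    rfl k0_mm_001

noncomputable def f_mm_011 : ℕ → ℕ → ℕ → ℕ → Bool := onCell 0 536870912 536870912 536870912 134217728 67108864
    (rowN 3 0 false false false .pnn 0 1 1 (qsf 0 536870912 536870912 536870912 1) ndN1q0 ndN0q1 pcN1 Cut.none Ext.none)

def k0_mm_011 : ∃ t, chk3 f_mm_011 t 1 1 1 = true :=
  ⟨(l 5), by decide +kernel⟩

theorem c_mm_011 : CertN 0 536870912 536870912 536870912 134217728 67108864 3 false false false .pnn 0 1 1
    ndN1q0 ndN0q1 pcN1 Cut.none Ext.none :=
  certN0 (fam := false) (s1 := false) (s2 := false) (a := 0) (b := 1) (c := 1) (cn := .pnn) (n1 := ndN1q0) (n2 := ndN0q1) (pc := pcN1) (cut := Cut.none) (xt := Ext.none) (P1 := 0) (W1 := 536870912) (P2 := 536870912) (W2 := 536870912) (P3 := 134217728) (W3 := 67108864) (N0 := 3)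
    rfl k0_mm_011

noncomputable def f_mm_012 : ℕ → ℕ → ℕ → ℕ → Bool := onCell 0 536870912 0 536870912 134217728 67108864
    (rowN 3 0 false false false .pnp 0 1 2 (qsf 0 536870912 0 536870912 1) ndN1q0 ndN0q2 pcN1 Cut.none Ext.none)

def k0_mm_012 : ∃ t, chk3 f_mm_012 t 1 1 1 = true :=
  ⟨(l 5), by decide +kernel⟩

theorem c_mm_012 : CertN 0 536870912 0 536870912 134217728 67108864 3 false false false .pnp 0 1 2
    ndN1q0 ndN0q2 pcN1 Cut.none Ext.none :=
  certN0 (fam := false) (s1 := false) (s2 := false) (a := 0) (b := 1) (c := 2) (cn := .pnp) (n1 := ndN1q0) (n2 := ndN0q2) (pc := pcN1) (cut := Cut.none) (xt := Ext.none) (P1 := 0) (W1 := 536870912) (P2 := 0) (W2 := 536870912) (P3 := 134217728) (W3 := 67108864) (N0 := 3)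
    rfl k0_mm_012

noncomputable def f_mm_022 : ℕ → ℕ → ℕ → ℕ → Bool := onCell 0 536870912 0 536870912 134217728 67108864
    (rowN 3 0 false false false .pp 0 2 2 (qsf 0 536870912 0 536870912 2) ndN1q0 ndN0q2 pcN2 Cut.none Ext.none)

def k0_mm_022 : ∃ t, chk3 f_mm_022 t 1 1 1 = true :=
  ⟨(l 5), by decide +kernel⟩

theorem c_mm_022 : CertN 0 536870912 0 536870912 134217728 67108864 3 false false false .pp 0 2 2
    ndN1q0 ndN0q2 pcN2 Cut.none Ext.none :=
  certN0 (fam := false) (s1 := false) (s2 := false) (a := 0) (b := 2) (c := 2) (cn := .pp) (n1 := ndN1q0) (n2 := ndN0q2) (pc := pcN2) (cut := Cut.none) (xt := Ext.none) (P1 := 0) (W1 := 536870912) (P2 := 0) (W2 := 536870912) (P3 := 134217728) (W3 := 67108864) (N0 := 3)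
    rfl k0_mm_022

noncomputable def f_mm_101 : ℕ → ℕ → ℕ → ℕ → Bool := onCell 536870912 536870912 536870912 536870912 134217728 67108864
    (rowN 3 0 false false false .npn 1 0 1 (qsf 536870912 536870912 536870912 536870912 0) ndN1q1 ndN0q1 pcN0 Cut.none Ext.none)

def k0_mm_101 : ∃ t, chk3 f_mm_101 t 1 1 1 = true :=
  ⟨(l 3), by decide +kernel⟩

theorem c_mm_101 : CertN 536870912 536870912 536870912 536870912 134217728 67108864 3 false false false .npn 1 0 1
    ndN1q1 ndN0q1 pcN0 Cut.none Ext.none :=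
  certN0 (fam := false) (s1 := false) (s2 := false) (a := 1) (b := 0) (c := 1) (cn := .npn) (n1 := ndN1q1) (n2 := ndN0q1) (pc := pcN0) (cut := Cut.none) (xt := Ext.none) (P1 := 536870912) (W1 := 536870912) (P2 := 536870912) (W2 := 536870912) (P3 := 134217728) (W3 := 67108864) (N0 := 3)
    rfl k0_mm_101

noncomputable def f_mm_102 : ℕ → ℕ → ℕ → ℕ → Bool := onCell 536870912 536870912 0 536870912 134217728 67108864
    (rowN 3 0 false false false .npp 1 0 2 (qsf 536870912 536870912 0 536870912 0) ndN1q1 ndN0q2 pcN0 Cut.none Ext.none)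

def k0_mm_102 : ∃ t, chk3 f_mm_102 t 1 1 1 = true :=
  ⟨(l 5), by decide +kernel⟩

theorem c_mm_102 : CertN 536870912 536870912 0 536870912 134217728 67108864 3 false false false .npp 1 0 2
    ndN1q1 ndN0q2 pcN0 Cut.none Ext.none :=
  certN0 (fam := false) (s1 := false) (s2 := false) (a := 1) (b := 0) (c := 2) (cn := .npp) (n1 := ndN1q1) (n2 := ndN0q2) (pc := pcN0) (cut := Cut.none) (xt := Ext.none) (P1 := 536870912) (W1 := 536870912) (P2 := 0) (W2 := 536870912) (P3 := 134217728) (W3 := 67108864) (N0 := 3)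
    rfl k0_mm_102

noncomputable def f_mm_112 : ℕ → ℕ → ℕ → ℕ → Bool := onCell 536870912 536870912 0 536870912 134217728 67108864
    (rowN 3 0 false false false .dn 1 1 2 (qsf 536870912 536870912 0 536870912 1) ndN1q1 ndN0q2 pcN1 Cut.none Ext.none)

def k0_mm_112 : ∃ t, chk3 f_mm_112 t 1 1 1 = true :=
  ⟨(l 5), by decide +kernel⟩

theorem c_mm_112 : CertN 536870912 536870912 0 536870912 134217728 67108864 3 false false false .dn 1 1 2
    ndN1q1 ndN0q2 pcN1 Cut.none Ext.none :=
  certN0 (fam := false) (s1 := false) (s2 := false) (a := 1) (b := 1) (c := 2) (cn := .dn) (n1 := ndN1q1) (n2 := ndN0q2) (pc := pcN1) (cut := Cut.none) (xt := Ext.none) (P1 := 536870912) (W1 := 536870912) (P2 := 0) (W2 := 536870912) (P3 := 134217728) (W3 := 67108864) (N0 := 3)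
    rfl k0_mm_112

noncomputable def f_mm_202_a : ℕ → ℕ → ℕ → ℕ → Bool := onCell 0 536870912 0 536870912 134217728 67108864
    (rowN 3 0 false false false .pp 2 0 2 (qsf 0 536870912 0 536870912 0) ndN1q2a ndN0q2 pcN0 Cut.none Ext.none)

def k0_mm_202_a : ∃ t, chk3 f_mm_202_a t 1 1 1 = true :=
  ⟨(l 3), by decide +kernel⟩

theorem c_mm_202_a : CertN 0 536870912 0 536870912 134217728 67108864 3 false false false .pp 2 0 2
    ndN1q2a ndN0q2 pcN0 Cut.none Ext.none :=
  certN0 (fam := false) (s1 := false) (s2 := false) (a := 2) (b := 0) (c := 2) (cn := .pp) (n1 := ndN1q2a) (n2 := ndN0q2) (pc := pcN0) (cut := Cut.none) (xt := Ext.none) (P1 := 0) (W1 := 536870912) (P2 := 0) (W2 := 536870912) (P3 := 134217728) (W3 := 67108864) (N0 := 3)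
    rfl k0_mm_202_a

noncomputable def f_mm_202_b : ℕ → ℕ → ℕ → ℕ → Bool := onCell 1239849684 370763052 0 536870912 134217728 67108864
    (rowN 3 0 false false false .pp 2 0 2 (qsf 1239849684 370763052 0 536870912 0) ndN1q2b ndN0q2 pcN0 Cut.none Ext.none)

def k0_mm_202_b : ∃ t, chk3 f_mm_202_b t 1 1 1 = true :=
  ⟨(l 3), by decide +kernel⟩

theorem c_mm_202_b : CertN 1239849684 370763052 0 536870912 134217728 67108864 3 false false false .pp 2 0 2
    ndN1q2b ndN0q2 pcN0 Cut.none Ext.none :=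
  certN0 (fam := false) (s1 := false) (s2 := false) (a := 2) (b := 0) (c := 2) (cn := .pp) (n1 := ndN1q2b) (n2 := ndN0q2) (pc := pcN0) (cut := Cut.none) (xt := Ext.none) (P1 := 1239849684) (W1 := 370763052) (P2 := 0) (W2 := 536870912) (P3 := 134217728) (W3 := 67108864) (N0 := 3)
    rfl k0_mm_202_b

end Pool.Agent.Strip051.G.I1_8_3_16.Tab.C.NB10

namespace Pool.Agent.Strip051.G.I1_8_3_16.Tab.C.NB11

open Pool.Agent.Strip051.PB Pool.Agent.Strip051.PB.T
open Pool.Agent.Strip051.G.I1_8_3_16.Tab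

noncomputable def f_pp_001 : ℕ → ℕ → ℕ → ℕ → Bool := onCell 0 536870912 536870912 536870912 134217728 67108864
    (rowN 3 0 false true true .up 0 0 1 (qsf 0 536870912 536870912 536870912 0) ndN1q0 ndN1q1 pcN0 Cut.none Ext.none)

def k0_pp_001 : ∃ t, chk3 f_pp_001 t 1 1 1 = true :=
  ⟨(l 3), by decide +kernel⟩

theorem c_pp_001 : CertN 0 536870912 536870912 536870912 134217728 67108864 3 false true true .up 0 0 1
    ndN1q0 ndN1q1 pcN0 Cut.none Ext.none :=
  certN0 (fam := false) (s1 := true) (s2 := true) (a := 0) (b := 0) (c := 1) (cn := .up) (n1 := ndN1q0) (n2 := ndN1q1) (pc := pcN0) (cut := Cut.none) (xt := Ext.none) (P1 := 0) (W1 := 536870912) (P2 := 536870912) (W2 := 536870912) (P3 := 134217728) (W3 := 67108864) (N0 := 3)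
    rfl k0_pp_001

noncomputable def f_pp_011 : ℕ → ℕ → ℕ → ℕ → Bool := onCell 0 536870912 536870912 536870912 134217728 67108864
    (rowN 3 0 false true true .pnn 0 1 1 (qsf 0 536870912 536870912 536870912 1) ndN1q0 ndN1q1 pcN1 Cut.none Ext.none)

def k0_pp_011 : ∃ t, chk3 f_pp_011 t 1 1 1 = true :=
  ⟨(l 3), by decide +kernel⟩

theorem c_pp_011 : CertN 0 536870912 536870912 536870912 134217728 67108864 3 false true true .pnn 0 1 1
    ndN1q0 ndN1q1 pcN1 Cut.none Ext.none :=
  certN0 (fam := false) (s1 := true) (s2 := true) (a := 0) (b := 1) (c := 1) (cn := .pnn) (n1 := ndN1q0) (n2 := ndN1q1) (pc := pcN1) (cut := Cut.none) (xt := Ext.none) (P1 := 0) (W1 := 536870912) (P2 := 536870912) (W2 := 536870912) (P3 := 134217728) (W3 := 67108864) (N0 := 3)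
    rfl k0_pp_011

noncomputable def cut_pp_012_a : Cut := Cut.of [[⟨0, 0, 0, 67108864⟩, ⟨1, 1, 0, 67108864⟩, ⟨2, 1, 0, 67108864⟩]]

noncomputable def f_pp_012_a : ℕ → ℕ → ℕ → ℕ → Bool := onCell 536870912 536870912 0 536870912 134217728 67108864
    (rowN 3 2 false true true .pnp 0 1 2 (qsf 0 536870912 0 536870912 1) ndN1q0 ndN1q2a pcN1 cut_pp_012_a Ext.none)

def k0_pp_012_a : ∃ t, chk3 f_pp_012_a t 1 1 1 = true :=
  ⟨(a (a (b (a (l 2) (b (l 2) (l 166061824135))) (l 3)) (b (a (b (l 17039816) (l 17237400)) (l 17100840)) (b (a (l 3) (b (l 17098440) (l 3))) (l 3)))) (a (b (a (l 16896360) (l 16887160)) (b (a (l 17101088) (l 16957064)) (a (l 3) (b (l 17021504) (l 3))))) (b (a (l 16963352) (b (l 16811952) (l 16802032))) (b (a (b (l 16827648) (l 16800760)) (a (l 16775368) (b (l 16710632) (l 16723048)))) (a (b (l 16937032) (b (l 16952336) (l 3))) (b (a (l 16828984) (a (l 16750416) (b (l 16734376) (l 16746808)))) (b (a (l 16836392) (a (l 16793296) (l 6))) (a (l 256255345047) (l 6))))))))),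 by decide +kernel⟩

theorem c_pp_012_a : CertN 0 536870912 0 536870912 134217728 67108864 3 false true true .pnp 0 1 2
    ndN1q0 ndN1q2a pcN1 cut_pp_012_a Ext.none :=
  certN2 (fam := false) (s1 := true) (s2 := true) (a := 0) (b := 1) (c := 2) (cn := .pnp) (n1 := ndN1q0) (n2 := ndN1q2a) (pc := pcN1) (cut := cut_pp_012_a) (xt := Ext.none) (P1 := 0) (W1 := 536870912) (P2 := 0) (W2 := 536870912) (P3 := 134217728) (W3 := 67108864) (N0 := 3)
    rfl (fun _ => rfl) k0_pp_012_a

noncomputable def cut_pp_012_b : Cut := Cut.of [[⟨0, 0, 0, 67108864⟩, ⟨1, 1, 0, 67108864⟩, ⟨2, 1, 0, 67108864⟩]]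

noncomputable def f_pp_012_b : ℕ → ℕ → ℕ → ℕ → Bool := onCell 536870912 536870912 1239849684 370763052 134217728 67108864
    (rowN 3 2 false true true .pnp 0 1 2 (qsf 0 536870912 1239849684 370763052 1) ndN1q0 ndN1q2b pcN1 cut_pp_012_b Ext.none)

def k0_pp_012_b : ∃ t, chk3 f_pp_012_b t 1 1 1 = true :=
  ⟨(a (a (l 2) (b (a (l 16894256) (l 16857536)) (l 2))) (a (b (b (l 17012608) (l 17158848)) (l 17283912)) (b (b (a (l 17190808) (a (l 17194800) (l 17087920))) (a (l 17403864) (l 17536464))) (a (l 17554552) (l 17746376))))), by decide +kernel⟩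

theorem c_pp_012_b : CertN 0 536870912 1239849684 370763052 134217728 67108864 3 false true true .pnp 0 1 2
    ndN1q0 ndN1q2b pcN1 cut_pp_012_b Ext.none :=
  certN2 (fam := false) (s1 := true) (s2 := true) (a := 0) (b := 1) (c := 2) (cn := .pnp) (n1 := ndN1q0) (n2 := ndN1q2b) (pc := pcN1) (cut := cut_pp_012_b) (xt := Ext.none) (P1 := 0) (W1 := 536870912) (P2 := 1239849684) (W2 := 370763052) (P3 := 134217728) (W3 := 67108864) (N0 := 3)
    rfl (fun _ => rfl) k0_pp_012_b

noncomputable def cut_pp_022_a : Cut := Cut.of [[⟨0, 0, 0, 67108864⟩, ⟨1, 1, 0, 67108864⟩, ⟨2, 1, 0, 67108864⟩]]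

noncomputable def f_pp_022_a : ℕ → ℕ → ℕ → ℕ → Bool := onCell 1073741824 536870912 0 536870912 134217728 67108864
    (rowN 3 2 false true true .pp 0 2 2 (qsf 0 536870912 0 536870912 2) ndN1q0 ndN1q2a pcN2 cut_pp_022_a Ext.none)

def k0_pp_022_a : ∃ t, chk3 f_pp_022_a t 2 2 1 = true :=
  ⟨(a (b (a (l 16592848) (a (a (l 16559304) (a (l 16567152) (l 16537384))) (a (a (l 16542416) (l 16527840)) (a (l 16533112) (l 16537600))))) (a (b (l 16597920) (l 16686232)) (a (a (l 16592440) (a (b (l 16596672) (a (l 16567696) (l 16564168))) (b (l 16567192) (b (l 16592584) (l 16618928))))) (a (b (a (l 16571232) (l 16576992)) (a (c (l 16596632) (l 16581360)) (c (l 16590880) (l 16587896)))) (b (a (l 16560560) (b (l 16533088) (l 16564248))) (b (a (l 16574832) (c (l 16570840) (l 16557088))) (a (c (l 16582808) (l 16571832)) (c (l 197064797687) (l 191696066679))))))))) (a (a (a (b (a (c (l 16766296) (l 16507808)) (b (l 16516696) (c (l 16731600) (l 16499264)))) (b (a (c (l 16566440) (l 16549560))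 (c (b (l 16583912) (l 214781495655)) (l 216928966583))) (a (b (c (l 208339061127) (l 203507196615)) (c (l 202970347223) (b (l 190622303479) (l 1)))) (b (c (l 209412776663) (l 268468545831)) (l 1))))) (a (b (b (c (l 16843248) (l 16472216)) (c (a (l 16740184) (l 16662632)) (l 16526584))) (b (a (c (l 236256271959) (l 241088073367)) (c (l 217465795687) (l 221760725879))) (l 1))) (b (a (c (b (l 16852736) (l 251288808087)) (b (l 16477072) (l 16520568))) (a (c (b (l 16856984) (l 229277097255)) (l 250751778839)) (b (c (l 296385959095) (l 16522528)) (l 1)))) (l 1)))) (b (b (l 1) (l 1)) (l 1))) (l 1))), by decide +kernel⟩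

def k1_pp_022_a : ∃ t, chk3 f_pp_022_a t 4 6 1 = true :=
  ⟨(a (a (b (l 16633040) (l 16718184)) (b (l 16646184) (a (l 16677272) (b (l 16638240) (c (l 16661008) (l 16657400)))))) (a (a (b (l 16613584) (b (c (l 16626024) (l 16622176)) (a (b (l 16640760) (c (a (l 16641160) (l 16649832)) (l 16647752))) (b (c (a (l 16623728) (l 223371565031)) (l 16630112)) (c (c (l 166463278711) (l 172368834951)) (b (l 202433611191) (l 172905708855))))))) (a (a (b (l 16600048) (b (c (l 16620320) (l 16616872)) (b (c (l 187401210487) (l 184179979847)) (l 1)))) (b (b (l 16571992) (l 16607880)) (b (c (b (l 16611888) (l 213171002839)) (b (l 16587408) (l 215318480887))) (b (b (c (l 177737523319) (l 179885000935)) (l 1)) (l 1))))) (b (a (c (l 16598992) (l 16601056)) (b (l 16579408) (c (l 16593384) (l 16588448)))) (b (b (a (c (l 16611224) (l 16607504)) (c (l 199212329351) (l 204044160199))) (a (c (l 180958744839) (l 175590030023)) (c (l 159483892759) (l 161094497527)))) (l 1))))) (a (b (c (b (a (l 16595888)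 (a (l 16574568) (l 16576696))) (a (b (a (l 16567392) (l 16589944)) (a (l 16595664) (l 195991082311))) (a (a (l 215855300535) (l 200822895863)) (l 186864276727)))) (b (a (l 16588720) (a (l 16566648) (l 16568176))) (a (a (l 16594400) (l 208339107735)) (b (l 165926315031) (l 233035196183))))) (a (b (a (b (c (l 186864284279) (a (l 170758151527) (l 151967671031))) (l 1)) (l 1)) (l 1)) (l 1))) (b (b (c (a (b (l 198138546007) (l 191159242519)) (b (l 188474851031) (l 1))) (a (l 207265362183) (l 248604403447))) (l 1)) (l 1))))), by decide +kernel⟩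

def k2_pp_022_a : ∃ t, chk3 f_pp_022_a t 4 7 1 = true :=
  ⟨(a (b (b (a (a (l 16698968) (l 16702984)) (a (a (l 16695736) (b (l 16664000) (l 16697904))) (b (a (l 16680840) (c (c (l 16668664) (l 16667264)) (l 16665208))) (b (a (c (l 16671240) (l 16668608)) (a (c (l 16668544) (l 16666072)) (c (c (l 175590134263) (l 175053261367)) (l 175590130967)))) (a (l 6) (a (l 6) (a (l 6) (l 1)))))))) (a (l 6) (a (l 6) (a (l 6) (a (l 6) (l 1)))))) (a (l 6) (a (l 6) (l 1)))) (a (a (b (b (b (c (c (a (b (l 190085618823) (l 151967784599)) (l 135324773479)) (a (l 173979503431) (l 138009125559))) (a (b (l 192233098663) (l 165389551111)) (l 141767218135))) (b (c (c (l 131566701399) (l 135861666423)) (l 143377876647)) (l 1))) (l 1)) (l 1)) (l 1)) (l 1))), by decide +kernel⟩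

def k3_pp_022_a : ∃ t, chk3 f_pp_022_a t 5 3 1 = true :=
  ⟨(b (l 1) (l 1)), by decide +kernel⟩

def k4_pp_022_a : ∃ t, chk3 f_pp_022_a t 3 1 1 = true :=
  ⟨(l 1), by decide +kernel⟩

theorem s5_pp_022_a : ∃ t, chk3 f_pp_022_a t 4 3 1 = true := ex3_b k1_pp_022_a k2_pp_022_a

theorem s6_pp_022_a : ∃ t, chk3 f_pp_022_a t 2 3 1 = true := ex3_a s5_pp_022_a k3_pp_022_a

theorem s7_pp_022_a : ∃ t, chk3 f_pp_022_a t 2 1 1 = true := ex3_b k0_pp_022_a s6_pp_022_a

theorem s8_pp_022_a : ∃ t, chk3 f_pp_022_a t 1 1 1 = true := ex3_a s7_pp_022_a k4_pp_022_a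

theorem c_pp_022_a : CertN 0 536870912 0 536870912 134217728 67108864 3 false true true .pp 0 2 2
    ndN1q0 ndN1q2a pcN2 cut_pp_022_a Ext.none :=
  certN2 (fam := false) (s1 := true) (s2 := true) (a := 0) (b := 2) (c := 2) (cn := .pp) (n1 := ndN1q0) (n2 := ndN1q2a) (pc := pcN2) (cut := cut_pp_022_a) (xt := Ext.none) (P1 := 0) (W1 := 536870912) (P2 := 0) (W2 := 536870912) (P3 := 134217728) (W3 := 67108864) (N0 := 3)
    rfl (fun _ => rfl) s8_pp_022_a

noncomputable def cut_pp_022_b : Cut := Cut.of [[⟨0, 0, 0, 67108864⟩, ⟨1, 1, 0, 67108864⟩, ⟨2, 1, 0, 67108864⟩]]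

noncomputable def f_pp_022_b : ℕ → ℕ → ℕ → ℕ → Bool := onCell 0 536870912 1073741824 536870912 134217728 67108864
    (rowN 3 1 false true true .pp 0 2 2 (qsf 0 536870912 1239849684 370763052 2) ndN1q0 ndN1q2b pcN2 cut_pp_022_b Ext.none)

def k0_pp_022_b : ∃ t, chk3 f_pp_022_b t 1 1 1 = true :=
  ⟨(a (b (a (b (a (b (l 1) (b (b (l 1) (b (l 1) (l 322155745351))) (b (a (l 1) (l 238404056503)) (a (a (l 1) (l 248067663015)) (l 16590232))))) (b (b (l 263100046023) (l 16614088)) (b (b (l 16661232) (b (l 16870944) (l 16997096))) (b (b (l 17112832) (l 17220024)) (a (l 17167136) (l 17530880)))))) (b (b (b (a (b (a (l 250751896439) (l 16860744)) (a (l 256120575335) (l 16998000))) (l 17536448)) (a (a (b (a (l 263099869047) (l 16724096)) (c (b (l 16876136) (a (b (l 17001840) (l 17019880)) (l 17280072))) (a (b (l 16485568) (l 16560200)) (l 16565872)))) (b (l 17123464) (b (l 17210592) (l 17181608)))) (b (l 17649608) (l 17718792)))) (a (a (b (a (c (l 16978920) (l 16481816)) (l 16919072))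 (c (l 17431320) (l 16801952))) (c (l 17777760) (l 17196968))) (l 17868648))) (a (a (c (b (a (l 17766432) (l 17893392)) (l 18100352)) (b (b (l 17130024) (l 17336296)) (l 17586152))) (b (l 17797016) (l 18023384))) (b (l 18061456) (l 18209176))))) (b (b (a (l 90764865543) (l 17709272)) (b (b (l 17776200) (a (l 17662920) (l 18030288))) (b (l 17963264) (l 18043368)))) (b (b (b (l 18113448) (l 18177152)) (l 18251424)) (l 18368152)))) (b (a (a (b (a (l 18010664) (l 18265080)) (l 18443248)) (l 18457472)) (l 18520408)) (a (l 18741320) (l 18538024)))) (b (b (b (l 18245856) (b (b (l 18323672) (l 18344760)) (l 18591616))) (b (b (a (l 18378736) (l 18402320)) (l 18417936)) (l 18438000))) (b (l 18424288) (l 2)))), by decide +kernel⟩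

theorem c_pp_022_b : CertN 0 536870912 1239849684 370763052 134217728 67108864 3 false true true .pp 0 2 2
    ndN1q0 ndN1q2b pcN2 cut_pp_022_b Ext.none :=
  certN1 (fam := false) (s1 := true) (s2 := true) (a := 0) (b := 2) (c := 2) (cn := .pp) (n1 := ndN1q0) (n2 := ndN1q2b) (pc := pcN2) (cut := cut_pp_022_b) (xt := Ext.none) (P1 := 0) (W1 := 536870912) (P2 := 1239849684) (W2 := 370763052) (P3 := 134217728) (W3 := 67108864) (N0 := 3)
    rfl (fun _ => rfl) k0_pp_022_b

noncomputable def f_pp_023 : ℕ → ℕ → ℕ → ℕ → Bool := onCell 1073741824 536870912 1610612736 536870912 134217728 67108864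
    (rowN 3 2 false true true .up 0 2 3 (qsf 0 536870912 1610612736 536870912 2) ndN1q0 ndN1q3 pcN2 Cut.none Ext.none)

def k0_pp_023 : ∃ t, chk3 f_pp_023 t 1 1 1 = true :=
  ⟨(a (b (a (a (l 18382888) (a (a (l 18407840) (l 18411112)) (l 18407240))) (a (a (l 18423384) (l 18427632)) (l 18439008))) (a (l 2) (a (l 2) (l 18252728)))) (a (b (l 18459976) (l 18239080)) (b (l 18527480) (l 18197904)))), by decide +kernel⟩

theorem c_pp_023 : CertN 0 536870912 1610612736 536870912 134217728 67108864 3 false true true .up 0 2 3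
    ndN1q0 ndN1q3 pcN2 Cut.none Ext.none :=
  certN2 (fam := false) (s1 := true) (s2 := true) (a := 0) (b := 2) (c := 3) (cn := .up) (n1 := ndN1q0) (n2 := ndN1q3) (pc := pcN2) (cut := Cut.none) (xt := Ext.none) (P1 := 0) (W1 := 536870912) (P2 := 1610612736) (W2 := 536870912) (P3 := 134217728) (W3 := 67108864) (N0 := 3)
    rfl (fun _ => rfl) k0_pp_023

noncomputable def f_pp_033 : ℕ → ℕ → ℕ → ℕ → Bool := onCell 0 536870912 1610612736 536870912 134217728 67108864
    (rowN 3 1 false true true .pnn 0 3 3 (qsf 0 536870912 1610612736 536870912 3) ndN1q0 ndN1q3 pcN3 Cut.none Ext.none)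

def k0_pp_033 : ∃ t, chk3 f_pp_033 t 1 1 1 = true :=
  ⟨(a (b (b (b (a (l 18087816) (l 18038864)) (a (l 18156200) (l 18112568))) (b (l 18090688) (l 17933312))) (b (l 18091400) (a (l 4) (a (b (l 4) (l 2)) (l 2))))) (b (b (b (l 17708808) (l 17607240)) (a (l 17739320) (a (b (l 4) (l 2)) (l 2)))) (a (b (a (b (l 4) (l 2)) (l 2)) (l 2)) (l 2)))), by decide +kernel⟩

theorem c_pp_033 : CertN 0 536870912 1610612736 536870912 134217728 67108864 3 false true true .pnn 0 3 3
    ndN1q0 ndN1q3 pcN3 Cut.none Ext.none :=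
  certN1 (fam := false) (s1 := true) (s2 := true) (a := 0) (b := 3) (c := 3) (cn := .pnn) (n1 := ndN1q0) (n2 := ndN1q3) (pc := pcN3) (cut := Cut.none) (xt := Ext.none) (P1 := 0) (W1 := 536870912) (P2 := 1610612736) (W2 := 536870912) (P3 := 134217728) (W3 := 67108864) (N0 := 3)
    rfl (fun _ => rfl) k0_pp_033

noncomputable def f_pp_101 : ℕ → ℕ → ℕ → ℕ → Bool := onCell 536870912 536870912 536870912 536870912 134217728 67108864
    (rowN 3 0 false true true .npn 1 0 1 (qsf 536870912 536870912 536870912 536870912 0) ndN1q1 ndN1q1 pcN0 Cut.none Ext.none)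

def k0_pp_101 : ∃ t, chk3 f_pp_101 t 1 1 1 = true :=
  ⟨(l 3), by decide +kernel⟩

theorem c_pp_101 : CertN 536870912 536870912 536870912 536870912 134217728 67108864 3 false true true .npn 1 0 1
    ndN1q1 ndN1q1 pcN0 Cut.none Ext.none :=
  certN0 (fam := false) (s1 := true) (s2 := true) (a := 1) (b := 0) (c := 1) (cn := .npn) (n1 := ndN1q1) (n2 := ndN1q1) (pc := pcN0) (cut := Cut.none) (xt := Ext.none) (P1 := 536870912) (W1 := 536870912) (P2 := 536870912) (W2 := 536870912) (P3 := 134217728) (W3 := 67108864) (N0 := 3)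
    rfl k0_pp_101

noncomputable def f_pp_102_a : ℕ → ℕ → ℕ → ℕ → Bool := onCell 0 536870912 0 536870912 134217728 67108864
    (rowN 3 2 false true true .npp 1 0 2 (qsf 536870912 536870912 0 536870912 0) ndN1q1 ndN1q2a pcN0 Cut.none Ext.none)

def k0_pp_102_a : ∃ t, chk3 f_pp_102_a t 1 1 1 = true :=
  ⟨(b (a (l 3) (a (l 3) (l 3))) (l 3)), by decide +kernel⟩

theorem c_pp_102_a : CertN 536870912 536870912 0 536870912 134217728 67108864 3 false true true .npp 1 0 2
    ndN1q1 ndN1q2a pcN0 Cut.none Ext.none :=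
  certN2 (fam := false) (s1 := true) (s2 := true) (a := 1) (b := 0) (c := 2) (cn := .npp) (n1 := ndN1q1) (n2 := ndN1q2a) (pc := pcN0) (cut := Cut.none) (xt := Ext.none) (P1 := 536870912) (W1 := 536870912) (P2 := 0) (W2 := 536870912) (P3 := 134217728) (W3 := 67108864) (N0 := 3)
    rfl (fun _ => rfl) k0_pp_102_a

noncomputable def f_pp_102_b : ℕ → ℕ → ℕ → ℕ → Bool := onCell 0 536870912 1239849684 370763052 134217728 67108864
    (rowN 3 2 false true true .npp 1 0 2 (qsf 536870912 536870912 1239849684 370763052 0) ndN1q1 ndN1q2b pcN0 Cut.none Ext.none)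

def k0_pp_102_b : ∃ t, chk3 f_pp_102_b t 1 1 1 = true :=
  ⟨(a (l 3) (a (b (l 3) (l 3)) (b (b (l 3) (l 3)) (l 3)))), by decide +kernel⟩

theorem c_pp_102_b : CertN 536870912 536870912 1239849684 370763052 134217728 67108864 3 false true true .npp 1 0 2
    ndN1q1 ndN1q2b pcN0 Cut.none Ext.none :=
  certN2 (fam := false) (s1 := true) (s2 := true) (a := 1) (b := 0) (c := 2) (cn := .npp) (n1 := ndN1q1) (n2 := ndN1q2b) (pc := pcN0) (cut := Cut.none) (xt := Ext.none) (P1 := 536870912) (W1 := 536870912) (P2 := 1239849684) (W2 := 370763052) (P3 := 134217728) (W3 := 67108864) (N0 := 3)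
    rfl (fun _ => rfl) k0_pp_102_b

noncomputable def f_pp_112_a : ℕ → ℕ → ℕ → ℕ → Bool := onCell 536870912 536870912 0 536870912 134217728 67108864
    (rowN 3 0 false true true .dn 1 1 2 (qsf 536870912 536870912 0 536870912 1) ndN1q1 ndN1q2a pcN1 Cut.none Ext.none)

def k0_pp_112_a : ∃ t, chk3 f_pp_112_a t 1 1 1 = true :=
  ⟨(a (b (a (b (a (l 17458776) (l 124186514519)) (a (l 149419321383) (l 3))) (a (b (l 138681753239) (l 3)) (l 1))) (l 3)) (l 1)), by decide +kernel⟩

theorem c_pp_112_a : CertN 536870912 536870912 0 536870912 134217728 67108864 3 false true true .dn 1 1 2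
    ndN1q1 ndN1q2a pcN1 Cut.none Ext.none :=
  certN0 (fam := false) (s1 := true) (s2 := true) (a := 1) (b := 1) (c := 2) (cn := .dn) (n1 := ndN1q1) (n2 := ndN1q2a) (pc := pcN1) (cut := Cut.none) (xt := Ext.none) (P1 := 536870912) (W1 := 536870912) (P2 := 0) (W2 := 536870912) (P3 := 134217728) (W3 := 67108864) (N0 := 3)
    rfl k0_pp_112_a

noncomputable def f_pp_112_b : ℕ → ℕ → ℕ → ℕ → Bool := onCell 536870912 536870912 1239849684 370763052 134217728 67108864
    (rowN 3 2 false true true .dn 1 1 2 (qsf 536870912 536870912 1239849684 370763052 1) ndN1q1 ndN1q2b pcN1 Cut.none Ext.none)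

def k0_pp_112_b : ∃ t, chk3 f_pp_112_b t 1 1 1 = true :=
  ⟨(a (a (b (b (a (l 17438304) (l 17448344)) (l 128481940567)) (a (l 174116348647) (l 17617448))) (b (a (l 17492872) (l 17528760)) (l 17518424))) (a (b (l 17624352) (l 17492064)) (l 337190681047))), by decide +kernel⟩

theorem c_pp_112_b : CertN 536870912 536870912 1239849684 370763052 134217728 67108864 3 false true true .dn 1 1 2
    ndN1q1 ndN1q2b pcN1 Cut.none Ext.none :=
  certN2 (fam := false) (s1 := true) (s2 := true) (a := 1) (b := 1) (c := 2) (cn := .dn) (n1 := ndN1q1) (n2 := ndN1q2b) (pc := pcN1) (cut := Cut.none) (xt := Ext.none) (P1 := 536870912) (W1 := 536870912) (P2 := 1239849684) (W2 := 370763052) (P3 := 134217728) (W3 := 67108864) (N0 := 3)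
    rfl (fun _ => rfl) k0_pp_112_b

noncomputable def f_pp_113 : ℕ → ℕ → ℕ → ℕ → Bool := onCell 536870912 536870912 536870912 536870912 134217728 67108864
    (rowN 3 1 false true true .nn 1 1 3 (qsf 536870912 536870912 1610612736 536870912 1) ndN1q1 ndN1q3 pcN1 Cut.none Ext.none)

def k0_pp_113 : ∃ t, chk3 f_pp_113 t 1 1 1 = true :=
  ⟨(b (a (b (l 1) (l 346853850199)) (b (a (l 366718258951) (l 348599273847)) (l 107409527735))) (b (a (l 17394792) (l 17219552)) (a (l 17394264) (l 17035328)))), by decide +kernel⟩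

theorem c_pp_113 : CertN 536870912 536870912 1610612736 536870912 134217728 67108864 3 false true true .nn 1 1 3
    ndN1q1 ndN1q3 pcN1 Cut.none Ext.none :=
  certN1 (fam := false) (s1 := true) (s2 := true) (a := 1) (b := 1) (c := 3) (cn := .nn) (n1 := ndN1q1) (n2 := ndN1q3) (pc := pcN1) (cut := Cut.none) (xt := Ext.none) (P1 := 536870912) (W1 := 536870912) (P2 := 1610612736) (W2 := 536870912) (P3 := 134217728) (W3 := 67108864) (N0 := 3)
    rfl (fun _ => rfl) k0_pp_113

noncomputable def f_pp_123 : ℕ → ℕ → ℕ → ℕ → Bool := onCell 1073741824 536870912 1610612736 536870912 134217728 67108864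
    (rowN 3 2 false true true .npn 1 2 3 (qsf 536870912 536870912 1610612736 536870912 2) ndN1q1 ndN1q3 pcN2 Cut.none Ext.none)

def k0_pp_123 : ∃ t, chk3 f_pp_123 t 1 1 1 = true :=
  ⟨(a (b (a (a (l 17813808) (a (l 324842988807) (l 17795520))) (a (l 352760228615) (l 17732352))) (a (a (l 17473496) (a (a (l 17505264) (l 17511576)) (l 17518120))) (a (a (l 17523880) (l 17522064)) (l 17516600)))) (a (b (l 17641128) (l 17479136)) (b (l 1) (l 17355288)))), by decide +kernel⟩

theorem c_pp_123 : CertN 536870912 536870912 1610612736 536870912 134217728 67108864 3 false true true .npn 1 2 3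
    ndN1q1 ndN1q3 pcN2 Cut.none Ext.none :=
  certN2 (fam := false) (s1 := true) (s2 := true) (a := 1) (b := 2) (c := 3) (cn := .npn) (n1 := ndN1q1) (n2 := ndN1q3) (pc := pcN2) (cut := Cut.none) (xt := Ext.none) (P1 := 536870912) (W1 := 536870912) (P2 := 1610612736) (W2 := 536870912) (P3 := 134217728) (W3 := 67108864) (N0 := 3)
    rfl (fun _ => rfl) k0_pp_123

noncomputable def f_pp_133 : ℕ → ℕ → ℕ → ℕ → Bool := onCell 1610612736 536870912 1610612736 536870912 134217728 67108864
    (rowN 3 2 false true true .dn 1 3 3 (qsf 536870912 536870912 1610612736 536870912 3) ndN1q1 ndN1q3 pcN3 Cut.none Ext.none)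

def k0_pp_133 : ∃ t, chk3 f_pp_133 t 1 1 1 = true :=
  ⟨(a (b (l 1) (a (b (l 1) (l 17261744)) (l 1))) (l 1)), by decide +kernel⟩

theorem c_pp_133 : CertN 536870912 536870912 1610612736 536870912 134217728 67108864 3 false true true .dn 1 3 3
    ndN1q1 ndN1q3 pcN3 Cut.none Ext.none :=
  certN2 (fam := false) (s1 := true) (s2 := true) (a := 1) (b := 3) (c := 3) (cn := .dn) (n1 := ndN1q1) (n2 := ndN1q3) (pc := pcN3) (cut := Cut.none) (xt := Ext.none) (P1 := 536870912) (W1 := 536870912) (P2 := 1610612736) (W2 := 536870912) (P3 := 134217728) (W3 := 67108864) (N0 := 3)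
    rfl (fun _ => rfl) k0_pp_133

noncomputable def f_pp_202_aa : ℕ → ℕ → ℕ → ℕ → Bool := onCell 0 536870912 0 536870912 134217728 67108864
    (rowN 3 0 false true true .pp 2 0 2 (qsf 0 536870912 0 536870912 0) ndN1q2a ndN1q2a pcN0 Cut.none Ext.none)

def k0_pp_202_aa : ∃ t, chk3 f_pp_202_aa t 1 1 1 = true :=
  ⟨(l 3), by decide +kernel⟩

theorem c_pp_202_aa : CertN 0 536870912 0 536870912 134217728 67108864 3 false true true .pp 2 0 2
    ndN1q2a ndN1q2a pcN0 Cut.none Ext.none :=
  certN0 (fam := false) (s1 := true) (s2 := true) (a := 2) (b := 0) (c := 2) (cn := .pp) (n1 := ndN1q2a) (n2 := ndN1q2a) (pc := pcN0) (cut := Cut.none) (xt := Ext.none) (P1 := 0) (W1 := 536870912) (P2 := 0) (W2 := 536870912) (P3 := 134217728) (W3 := 67108864) (N0 := 3)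
    rfl k0_pp_202_aa

noncomputable def f_pp_202_ab : ℕ → ℕ → ℕ → ℕ → Bool := onCell 0 536870912 1239849684 370763052 134217728 67108864
    (rowN 3 0 false true true .pp 2 0 2 (qsf 0 536870912 1239849684 370763052 0) ndN1q2a ndN1q2b pcN0 Cut.none Ext.none)

def k0_pp_202_ab : ∃ t, chk3 f_pp_202_ab t 1 1 1 = true :=
  ⟨(l 3), by decide +kernel⟩

theorem c_pp_202_ab : CertN 0 536870912 1239849684 370763052 134217728 67108864 3 false true true .pp 2 0 2
    ndN1q2a ndN1q2b pcN0 Cut.none Ext.none :=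
  certN0 (fam := false) (s1 := true) (s2 := true) (a := 2) (b := 0) (c := 2) (cn := .pp) (n1 := ndN1q2a) (n2 := ndN1q2b) (pc := pcN0) (cut := Cut.none) (xt := Ext.none) (P1 := 0) (W1 := 536870912) (P2 := 1239849684) (W2 := 370763052) (P3 := 134217728) (W3 := 67108864) (N0 := 3)
    rfl k0_pp_202_ab

noncomputable def f_pp_202_ba : ℕ → ℕ → ℕ → ℕ → Bool := onCell 1239849684 370763052 0 536870912 134217728 67108864
    (rowN 3 0 false true true .pp 2 0 2 (qsf 1239849684 370763052 0 536870912 0) ndN1q2b ndN1q2a pcN0 Cut.none Ext.none)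

def k0_pp_202_ba : ∃ t, chk3 f_pp_202_ba t 1 1 1 = true :=
  ⟨(l 3), by decide +kernel⟩

theorem c_pp_202_ba : CertN 1239849684 370763052 0 536870912 134217728 67108864 3 false true true .pp 2 0 2
    ndN1q2b ndN1q2a pcN0 Cut.none Ext.none :=
  certN0 (fam := false) (s1 := true) (s2 := true) (a := 2) (b := 0) (c := 2) (cn := .pp) (n1 := ndN1q2b) (n2 := ndN1q2a) (pc := pcN0) (cut := Cut.none) (xt := Ext.none) (P1 := 1239849684) (W1 := 370763052) (P2 := 0) (W2 := 536870912) (P3 := 134217728) (W3 := 67108864) (N0 := 3)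
    rfl k0_pp_202_ba

noncomputable def f_pp_202_bb : ℕ → ℕ → ℕ → ℕ → Bool := onCell 1239849684 370763052 1239849684 370763052 134217728 67108864
    (rowN 3 0 false true true .pp 2 0 2 (qsf 1239849684 370763052 1239849684 370763052 0) ndN1q2b ndN1q2b pcN0 Cut.none Ext.none)

def k0_pp_202_bb : ∃ t, chk3 f_pp_202_bb t 1 1 1 = true :=
  ⟨(l 3), by decide +kernel⟩

theorem c_pp_202_bb : CertN 1239849684 370763052 1239849684 370763052 134217728 67108864 3 false true true .pp 2 0 2
    ndN1q2b ndN1q2b pcN0 Cut.none Ext.none :=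
  certN0 (fam := false) (s1 := true) (s2 := true) (a := 2) (b := 0) (c := 2) (cn := .pp) (n1 := ndN1q2b) (n2 := ndN1q2b) (pc := pcN0) (cut := Cut.none) (xt := Ext.none) (P1 := 1239849684) (W1 := 370763052) (P2 := 1239849684) (W2 := 370763052) (P3 := 134217728) (W3 := 67108864) (N0 := 3)
    rfl k0_pp_202_bb

noncomputable def f_pp_203_a : ℕ → ℕ → ℕ → ℕ → Bool := onCell 0 536870912 0 536870912 134217728 67108864
    (rowN 3 1 false true true .up 2 0 3 (qsf 0 536870912 1610612736 536870912 0) ndN1q2a ndN1q3 pcN0 Cut.none Ext.none)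

def k0_pp_203_a : ∃ t, chk3 f_pp_203_a t 1 1 1 = true :=
  ⟨(l 3), by decide +kernel⟩

theorem c_pp_203_a : CertN 0 536870912 1610612736 536870912 134217728 67108864 3 false true true .up 2 0 3
    ndN1q2a ndN1q3 pcN0 Cut.none Ext.none :=
  certN1 (fam := false) (s1 := true) (s2 := true) (a := 2) (b := 0) (c := 3) (cn := .up) (n1 := ndN1q2a) (n2 := ndN1q3) (pc := pcN0) (cut := Cut.none) (xt := Ext.none) (P1 := 0) (W1 := 536870912) (P2 := 1610612736) (W2 := 536870912) (P3 := 134217728) (W3 := 67108864) (N0 := 3)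
    rfl (fun _ => rfl) k0_pp_203_a

noncomputable def f_pp_203_b : ℕ → ℕ → ℕ → ℕ → Bool := onCell 1239849684 370763052 1610612736 536870912 134217728 67108864
    (rowN 3 0 false true true .up 2 0 3 (qsf 1239849684 370763052 1610612736 536870912 0) ndN1q2b ndN1q3 pcN0 Cut.none Ext.none)

def k0_pp_203_b : ∃ t, chk3 f_pp_203_b t 1 1 1 = true :=
  ⟨(l 3), by decide +kernel⟩

theorem c_pp_203_b : CertN 1239849684 370763052 1610612736 536870912 134217728 67108864 3 false true true .up 2 0 3
    ndN1q2b ndN1q3 pcN0 Cut.none Ext.none :=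
  certN0 (fam := false) (s1 := true) (s2 := true) (a := 2) (b := 0) (c := 3) (cn := .up) (n1 := ndN1q2b) (n2 := ndN1q3) (pc := pcN0) (cut := Cut.none) (xt := Ext.none) (P1 := 1239849684) (W1 := 370763052) (P2 := 1610612736) (W2 := 536870912) (P3 := 134217728) (W3 := 67108864) (N0 := 3)
    rfl k0_pp_203_b

noncomputable def cut_pp_213_a : Cut := Cut.of [[⟨0, 1, 0, 39843005⟩, ⟨1, 1, 0, 39843005⟩, ⟨2, 2, 0, 5814905⟩]]

noncomputable def f_pp_213_a : ℕ → ℕ → ℕ → ℕ → Bool := onCell 0 536870912 1610612736 536870912 134217728 67108864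
    (rowN 3 0 false true true .pnn 2 1 3 (qsf 0 536870912 1610612736 536870912 1) ndN1q2a ndN1q3 pcN1 cut_pp_213_a Ext.none)

def k0_pp_213_a : ∃ t, chk3 f_pp_213_a t 1 1 1 = true :=
  ⟨(b (l 3) (a (l 3) (b (l 3) (a (l 3) (b (l 3) (a (l 3) (b (l 3) (a (l 3) (b (l 3) (b (l 3) (b (l 3) (l 6)))))))))))), by decide +kernel⟩

theorem c_pp_213_a : CertN 0 536870912 1610612736 536870912 134217728 67108864 3 false true true .pnn 2 1 3
    ndN1q2a ndN1q3 pcN1 cut_pp_213_a Ext.none :=
  certN0 (fam := false) (s1 := true) (s2 := true) (a := 2) (b := 1) (c := 3) (cn := .pnn) (n1 := ndN1q2a) (n2 := ndN1q3) (pc := pcN1) (cut := cut_pp_213_a) (xt := Ext.none) (P1 := 0) (W1 := 536870912) (P2 := 1610612736) (W2 := 536870912) (P3 := 134217728) (W3 := 67108864) (N0 := 3)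
    rfl k0_pp_213_a

noncomputable def cut_pp_213_b : Cut := Cut.of [[⟨0, 1, 0, 39843005⟩, ⟨1, 1, 0, 39843005⟩, ⟨2, 2, 0, 5814905⟩]]

noncomputable def f_pp_213_b : ℕ → ℕ → ℕ → ℕ → Bool := onCell 1239849684 370763052 1610612736 536870912 134217728 67108864
    (rowN 3 0 false true true .pnn 2 1 3 (qsf 1239849684 370763052 1610612736 536870912 1) ndN1q2b ndN1q3 pcN1 cut_pp_213_b Ext.none)

def k0_pp_213_b : ∃ t, chk3 f_pp_213_b t 1 1 1 = true :=
  ⟨(l 3), by decide +kernel⟩

theorem c_pp_213_b : CertN 1239849684 370763052 1610612736 536870912 134217728 67108864 3 false true true .pnn 2 1 3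
    ndN1q2b ndN1q3 pcN1 cut_pp_213_b Ext.none :=
  certN0 (fam := false) (s1 := true) (s2 := true) (a := 2) (b := 1) (c := 3) (cn := .pnn) (n1 := ndN1q2b) (n2 := ndN1q3) (pc := pcN1) (cut := cut_pp_213_b) (xt := Ext.none) (P1 := 1239849684) (W1 := 370763052) (P2 := 1610612736) (W2 := 536870912) (P3 := 134217728) (W3 := 67108864) (N0 := 3)
    rfl k0_pp_213_b

noncomputable def f_pp_303 : ℕ → ℕ → ℕ → ℕ → Bool := onCell 1610612736 536870912 1610612736 536870912 134217728 67108864
    (rowN 3 0 false true true .npn 3 0 3 (qsf 1610612736 536870912 1610612736 536870912 0) ndN1q3 ndN1q3 pcN0 Cut.none Ext.none)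

def k0_pp_303 : ∃ t, chk3 f_pp_303 t 1 1 1 = true :=
  ⟨(l 3), by decide +kernel⟩

theorem c_pp_303 : CertN 1610612736 536870912 1610612736 536870912 134217728 67108864 3 false true true .npn 3 0 3
    ndN1q3 ndN1q3 pcN0 Cut.none Ext.none :=
  certN0 (fam := false) (s1 := true) (s2 := true) (a := 3) (b := 0) (c := 3) (cn := .npn) (n1 := ndN1q3) (n2 := ndN1q3) (pc := pcN0) (cut := Cut.none) (xt := Ext.none) (P1 := 1610612736) (W1 := 536870912) (P2 := 1610612736) (W2 := 536870912) (P3 := 134217728) (W3 := 67108864) (N0 := 3)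
    rfl k0_pp_303

noncomputable def f_pp_313 : ℕ → ℕ → ℕ → ℕ → Bool := onCell 1610612736 536870912 1610612736 536870912 134217728 67108864
    (rowN 3 0 false true true .dn 3 1 3 (qsf 1610612736 536870912 1610612736 536870912 1) ndN1q3 ndN1q3 pcN1 Cut.none Ext.none)

def k0_pp_313 : ∃ t, chk3 f_pp_313 t 1 1 1 = true :=
  ⟨(l 3), by decide +kernel⟩

theorem c_pp_313 : CertN 1610612736 536870912 1610612736 536870912 134217728 67108864 3 false true true .dn 3 1 3
    ndN1q3 ndN1q3 pcN1 Cut.none Ext.none :=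
  certN0 (fam := false) (s1 := true) (s2 := true) (a := 3) (b := 1) (c := 3) (cn := .dn) (n1 := ndN1q3) (n2 := ndN1q3) (pc := pcN1) (cut := Cut.none) (xt := Ext.none) (P1 := 1610612736) (W1 := 536870912) (P2 := 1610612736) (W2 := 536870912) (P3 := 134217728) (W3 := 67108864) (N0 := 3)
    rfl k0_pp_313

noncomputable def f_pm_001 : ℕ → ℕ → ℕ → ℕ → Bool := onCell 0 536870912 536870912 536870912 134217728 67108864
    (rowN 3 0 false true false .up 0 0 1 (qsf 0 536870912 536870912 536870912 0) ndN1q0 ndN1q1 pcN0 Cut.none Ext.none)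

def k0_pm_001 : ∃ t, chk3 f_pm_001 t 1 1 1 = true :=
  ⟨(l 4), by decide +kernel⟩

theorem c_pm_001 : CertN 0 536870912 536870912 536870912 134217728 67108864 3 false true false .up 0 0 1
    ndN1q0 ndN1q1 pcN0 Cut.none Ext.none :=
  certN0 (fam := false) (s1 := true) (s2 := false) (a := 0) (b := 0) (c := 1) (cn := .up) (n1 := ndN1q0) (n2 := ndN1q1) (pc := pcN0) (cut := Cut.none) (xt := Ext.none) (P1 := 0) (W1 := 536870912) (P2 := 536870912) (W2 := 536870912) (P3 := 134217728) (W3 := 67108864) (N0 := 3)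
    rfl k0_pm_001

noncomputable def f_pm_011 : ℕ → ℕ → ℕ → ℕ → Bool := onCell 0 536870912 536870912 536870912 134217728 67108864
    (rowN 3 0 false true false .pnn 0 1 1 (qsf 0 536870912 536870912 536870912 1) ndN1q0 ndN1q1 pcN1 Cut.none Ext.none)

def k0_pm_011 : ∃ t, chk3 f_pm_011 t 1 1 1 = true :=
  ⟨(l 4), by decide +kernel⟩

theorem c_pm_011 : CertN 0 536870912 536870912 536870912 134217728 67108864 3 false true false .pnn 0 1 1
    ndN1q0 ndN1q1 pcN1 Cut.none Ext.none :=
  certN0 (fam := false) (s1 := true) (s2 := false) (a := 0) (b := 1) (c := 1) (cn := .pnn) (n1 := ndN1q0) (n2 := ndN1q1) (pc := pcN1) (cut := Cut.none) (xt := Ext.none) (P1 := 0) (W1 := 536870912) (P2 := 536870912) (W2 := 536870912) (P3 := 134217728) (W3 := 67108864) (N0 := 3)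
    rfl k0_pm_011

noncomputable def cut_pm_012_a : Cut := Cut.of [[⟨0, 0, 0, 67108864⟩, ⟨1, 1, 0, 67108864⟩, ⟨2, 1, 0, 67108864⟩]]

noncomputable def f_pm_012_a : ℕ → ℕ → ℕ → ℕ → Bool := onCell 536870912 536870912 0 536870912 134217728 67108864
    (rowN 3 2 false true false .pnp 0 1 2 (qsf 0 536870912 0 536870912 1) ndN1q0 ndN1q2a pcN1 cut_pm_012_a Ext.none)

def k0_pm_012_a : ∃ t, chk3 f_pm_012_a t 1 1 1 = true :=
  ⟨(a (b (a (b (l 2) (l 17825768)) (b (l 17750536) (l 17918896))) (a (b (l 17884864) (l 17792624)) (b (l 17921120) (a (l 17745136) (l 17651280))))) (b (a (a (b (l 17828048) (l 17931280)) (b (l 17827416) (l 17852352))) (a (a (b (l 17740032) (l 17677232)) (b (l 17593640) (l 17443640))) (b (a (l 17307232) (l 16748776)) (a (l 17015536) (b (l 16489344) (l 16510904)))))) (a (a (b (a (l 17867664) (l 17801408)) (b (l 17589848) (l 17315384))) (b (a (l 17706888) (l 17550888)) (b (l 17231640) (b (l 16929176) (l 4))))) (a (a (b (b (l 17447680) (l 17128216)) (b (l 16635240)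 (l 16713080))) (b (a (b (l 17187960) (l 16761192)) (l 16687256)) (b (a (l 16592944) (l 16605912)) (l 254711611943)))) (b (a (b (l 16517696) (l 16589120)) (b (l 16540928) (a (l 16579128) (l 16590608)))) (b (a (b (a (l 16610080) (l 16615120)) (l 16680928)) (b (a (l 16623032) (l 16632592)) (a (l 16676480) (a (l 16664224) (l 16669168))))) (b (a (l 185992049655) (a (b (l 16680576) (l 6)) (l 6))) (a (l 4) (l 6))))))))), by decide +kernel⟩

theorem c_pm_012_a : CertN 0 536870912 0 536870912 134217728 67108864 3 false true false .pnp 0 1 2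
    ndN1q0 ndN1q2a pcN1 cut_pm_012_a Ext.none :=
  certN2 (fam := false) (s1 := true) (s2 := false) (a := 0) (b := 1) (c := 2) (cn := .pnp) (n1 := ndN1q0) (n2 := ndN1q2a) (pc := pcN1) (cut := cut_pm_012_a) (xt := Ext.none) (P1 := 0) (W1 := 536870912) (P2 := 0) (W2 := 536870912) (P3 := 134217728) (W3 := 67108864) (N0 := 3)
    rfl (fun _ => rfl) k0_pm_012_a

noncomputable def cut_pm_012_b : Cut := Cut.of [[⟨0, 0, 0, 67108864⟩, ⟨1, 1, 0, 67108864⟩, ⟨2, 1, 0, 67108864⟩]]

noncomputable def f_pm_012_b : ℕ → ℕ → ℕ → ℕ → Bool := onCell 536870912 536870912 1239849684 370763052 134217728 67108864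
    (rowN 3 2 false true false .pnp 0 1 2 (qsf 0 536870912 1239849684 370763052 1) ndN1q0 ndN1q2b pcN1 cut_pm_012_b Ext.none)

def k0_pm_012_b : ∃ t, chk3 f_pm_012_b t 1 1 1 = true :=
  ⟨(a (b (a (l 2) (l 17798024)) (l 2)) (b (a (b (l 17945992) (l 18162328)) (a (b (l 17994008) (l 18415336)) (b (a (l 17875728) (b (l 17284264) (l 17960880))) (l 18531272)))) (a (l 18231168) (b (l 18715464) (l 18767016))))), by decide +kernel⟩

theorem c_pm_012_b : CertN 0 536870912 1239849684 370763052 134217728 67108864 3 false true false .pnp 0 1 2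
    ndN1q0 ndN1q2b pcN1 cut_pm_012_b Ext.none :=
  certN2 (fam := false) (s1 := true) (s2 := false) (a := 0) (b := 1) (c := 2) (cn := .pnp) (n1 := ndN1q0) (n2 := ndN1q2b) (pc := pcN1) (cut := cut_pm_012_b) (xt := Ext.none) (P1 := 0) (W1 := 536870912) (P2 := 1239849684) (W2 := 370763052) (P3 := 134217728) (W3 := 67108864) (N0 := 3)
    rfl (fun _ => rfl) k0_pm_012_b

noncomputable def cut_pm_022_a : Cut := Cut.of [[⟨0, 0, 0, 67108864⟩, ⟨1, 1, 0, 67108864⟩, ⟨2, 1, 0, 67108864⟩]]

noncomputable def f_pm_022_a : ℕ → ℕ → ℕ → ℕ → Bool := onCell 0 536870912 0 536870912 134217728 67108864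
    (rowN 3 0 false true false .pp 0 2 2 (qsf 0 536870912 0 536870912 2) ndN1q0 ndN1q2a pcN2 cut_pm_022_a Ext.none)

def k0_pm_022_a : ∃ t, chk3 f_pm_022_a t 1 1 1 = true :=
  ⟨(a (b (a (a (b (a (a (c (b (l 16872672) (l 16765536)) (l 16572536)) (l 16545736)) (l 16513360)) (c (a (a (b (l 16564296) (a (l 16594512) (l 16554464))) (l 16599784)) (l 16561944)) (a (a (b (l 16551832) (l 16595800)) (l 16590480)) (l 16543680)))) (b (a (l 16447536) (l 16474152)) (a (b (l 16467224) (l 16496992)) (b (l 16490360) (l 16516840))))) (a (b (l 16509000) (a (l 16522640) (l 1))) (l 1))) (a (b (a (a (a (b (b (c (l 16604288) (l 16596104)) (c (a (l 16629280) (l 16588832)) (l 16633544))) (a (b (c (l 16646456) (l 16640416)) (c (c (l 16666896) (l 16664496)) (l 16671424))) (c (l 16657400) (l 16652792)))) (b (b (l 16561912) (l 16598416)) (b (l 16615968) (l 16635688)))) (b (l 16583032) (b (l 16583856) (l 16648656)))) (b (a (l 16539464) (l 16555240)) (a (b (l 16578816) (l 16609592)) (b (l 16591088) (l 1)))))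 (b (b (a (a (a (a (a (c (c (l 16693080) (l 16691216)) (l 16693680)) (c (l 16682408) (l 16679040))) (c (l 16667680) (l 16664792))) (l 16664216)) (a (l 16650424) (l 16635704))) (a (a (l 16641024) (l 1)) (l 1))) (a (a (l 6) (a (l 6) (b (l 16664376) (l 16684584)))) (l 1))) (a (a (l 6) (a (l 6) (l 1))) (l 1)))) (b (l 1) (l 1)))) (l 1)), by decide +kernel⟩

theorem c_pm_022_a : CertN 0 536870912 0 536870912 134217728 67108864 3 false true false .pp 0 2 2
    ndN1q0 ndN1q2a pcN2 cut_pm_022_a Ext.none :=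
  certN0 (fam := false) (s1 := true) (s2 := false) (a := 0) (b := 2) (c := 2) (cn := .pp) (n1 := ndN1q0) (n2 := ndN1q2a) (pc := pcN2) (cut := cut_pm_022_a) (xt := Ext.none) (P1 := 0) (W1 := 536870912) (P2 := 0) (W2 := 536870912) (P3 := 134217728) (W3 := 67108864) (N0 := 3)
    rfl k0_pm_022_a

noncomputable def cut_pm_022_b : Cut := Cut.of [[⟨0, 0, 0, 67108864⟩, ⟨1, 1, 0, 67108864⟩, ⟨2, 1, 0, 67108864⟩]]

noncomputable def f_pm_022_b : ℕ → ℕ → ℕ → ℕ → Bool := onCell 0 536870912 1239849684 370763052 134217728 67108864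
    (rowN 3 0 false true false .pp 0 2 2 (qsf 0 536870912 1239849684 370763052 2) ndN1q0 ndN1q2b pcN2 cut_pm_022_b Ext.none)

def k0_pm_022_b : ∃ t, chk3 f_pm_022_b t 1 1 1 = true :=
  ⟨(a (b (a (b (a (a (b (c (a (b (l 17119352) (l 17486728)) (l 17306264)) (a (l 16563024) (l 16528448))) (c (l 17884392) (l 17282040))) (b (c (l 17302840) (l 16490696)) (l 17588256))) (b (a (l 16896352) (l 16923752)) (l 17624576))) (a (b (a (l 17859776) (l 18004864)) (l 18251424)) (b (l 18052368) (l 18318008)))) (b (a (b (a (l 16979576) (l 17056480)) (l 17733848)) (b (l 17199656) (l 17888440))) (a (l 18299648) (l 18430848)))) (b (a (a (b (l 18412968) (l 18507944)) (l 18539232)) (l 18714800)) (a (a (l 18557960) (l 18632288)) (l 18754664)))) (a (b (b (l 1) (a (l 18564464) (l 18687576))) (b (l 18890520) (l 18929800))) (b (l 1) (b (l 19074448) (l 19099584))))), by decide +kernel⟩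

theorem c_pm_022_b : CertN 0 536870912 1239849684 370763052 134217728 67108864 3 false true false .pp 0 2 2
    ndN1q0 ndN1q2b pcN2 cut_pm_022_b Ext.none :=
  certN0 (fam := false) (s1 := true) (s2 := false) (a := 0) (b := 2) (c := 2) (cn := .pp) (n1 := ndN1q0) (n2 := ndN1q2b) (pc := pcN2) (cut := cut_pm_022_b) (xt := Ext.none) (P1 := 0) (W1 := 536870912) (P2 := 1239849684) (W2 := 370763052) (P3 := 134217728) (W3 := 67108864) (N0 := 3)
    rfl k0_pm_022_b

end Pool.Agent.Strip051.G.I1_8_3_16.Tab.C.NB11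

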