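import Pool.Agent.Strip051.G.I1_8_3_16.Tab

/-! # Certificates N15 (generated) -/

set_option linter.all false
set_option maxRecDepth 100000

namespace Pool.Agent.Strip051.G.I1_8_3_16.Tab.C.NB11

open Pool.Agent.Strip051.PB Pool.Agent.Strip051.PB.T
open Pool.Agent.Strip051.G.I1_8_3_16.Tab

noncomputable def f_pm_023 : ℕ → ℕ → ℕ → ℕ → Bool := onCell 0 536870912 1073741824 536870912 134217728 67108864
    (rowN 3 1 false true false .up 0 2 3 (qsf 0 536870912 1610612736 536870912 2) ndN1q0 ndN1q3 pcN2 Cut.none Ext.none)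

def k0_pm_023 : ∃ t, chk3 f_pm_023 t 1 1 1 = true :=
  ⟨(b (a (b (l 1) (l 466577616663)) (l 305517986247)) (b (a (l 516507190567) (l 18655192)) (a (a (l 330750276903) (l 4)) (l 18341824)))), by decide +kernel⟩

theorem c_pm_023 : CertN 0 536870912 1610612736 536870912 134217728 67108864 3 false true false .up 0 2 3
    ndN1q0 ndN1q3 pcN2 Cut.none Ext.none :=
  certN1 (fam := false) (s1 := true) (s2 := false) (a := 0) (b := 2) (c := 3) (cn := .up) (n1 := ndN1q0) (n2 := ndN1q3) (pc := pcN2) (cut := Cut.none) (xt := Ext.none) (P1 := 0) (W1 := 536870912) (P2 := 1610612736) (W2 := 536870912) (P3 := 134217728) (W3 := 67108864) (N0 := 3)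
    rfl (fun _ => rfl) k0_pm_023

noncomputable def f_pm_033 : ℕ → ℕ → ℕ → ℕ → Bool := onCell 0 536870912 1610612736 536870912 134217728 67108864
    (rowN 3 0 false true false .pnn 0 3 3 (qsf 0 536870912 1610612736 536870912 3) ndN1q0 ndN1q3 pcN3 Cut.none Ext.none)

def k0_pm_033 : ∃ t, chk3 f_pm_033 t 1 1 1 = true :=
  ⟨(a (b (b (a (l 4) (a (b (l 1) (l 4)) (l 1))) (l 4)) (l 4)) (b (a (b (l 1) (a (b (l 1) (l 4)) (l 1))) (l 1)) (b (a (l 4) (a (l 412891000615) (l 1))) (a (l 4) (a (l 4) (l 18080768)))))), by decide +kernel⟩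

theorem c_pm_033 : CertN 0 536870912 1610612736 536870912 134217728 67108864 3 false true false .pnn 0 3 3
    ndN1q0 ndN1q3 pcN3 Cut.none Ext.none :=
  certN0 (fam := false) (s1 := true) (s2 := false) (a := 0) (b := 3) (c := 3) (cn := .pnn) (n1 := ndN1q0) (n2 := ndN1q3) (pc := pcN3) (cut := Cut.none) (xt := Ext.none) (P1 := 0) (W1 := 536870912) (P2 := 1610612736) (W2 := 536870912) (P3 := 134217728) (W3 := 67108864) (N0 := 3)
    rfl k0_pm_033

noncomputable def f_pm_101 : ℕ → ℕ → ℕ → ℕ → Bool := onCell 536870912 536870912 536870912 536870912 134217728 67108864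
    (rowN 3 0 false true false .npn 1 0 1 (qsf 536870912 536870912 536870912 536870912 0) ndN1q1 ndN1q1 pcN0 Cut.none Ext.none)

def k0_pm_101 : ∃ t, chk3 f_pm_101 t 1 1 1 = true :=
  ⟨(l 4), by decide +kernel⟩

theorem c_pm_101 : CertN 536870912 536870912 536870912 536870912 134217728 67108864 3 false true false .npn 1 0 1
    ndN1q1 ndN1q1 pcN0 Cut.none Ext.none :=
  certN0 (fam := false) (s1 := true) (s2 := false) (a := 1) (b := 0) (c := 1) (cn := .npn) (n1 := ndN1q1) (n2 := ndN1q1) (pc := pcN0) (cut := Cut.none) (xt := Ext.none) (P1 := 536870912) (W1 := 536870912) (P2 := 536870912) (W2 := 536870912) (P3 := 134217728) (W3 := 67108864) (N0 := 3)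
    rfl k0_pm_101

noncomputable def f_pm_102_a : ℕ → ℕ → ℕ → ℕ → Bool := onCell 536870912 536870912 0 536870912 134217728 67108864
    (rowN 3 0 false true false .npp 1 0 2 (qsf 536870912 536870912 0 536870912 0) ndN1q1 ndN1q2a pcN0 Cut.none Ext.none)

def k0_pm_102_a : ∃ t, chk3 f_pm_102_a t 1 1 1 = true :=
  ⟨(a (b (a (b (l 2) (l 17234488)) (b (l 16847960) (l 17104464))) (a (b (b (l 17205048) (l 17387912)) (b (l 147205449479) (a (l 17928456) (l 17900264)))) (b (l 17350472) (b (l 17636352) (l 17861928))))) (b (a (b (l 16927992) (l 17056568)) (b (a (l 17073952) (l 17009400)) (l 17220704))) (a (b (l 17388096) (b (l 17616176) (l 17842552))) (b (l 17523352) (b (l 17673952) (l 17867016)))))), by decide +kernel⟩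

theorem c_pm_102_a : CertN 536870912 536870912 0 536870912 134217728 67108864 3 false true false .npp 1 0 2
    ndN1q1 ndN1q2a pcN0 Cut.none Ext.none :=
  certN0 (fam := false) (s1 := true) (s2 := false) (a := 1) (b := 0) (c := 2) (cn := .npp) (n1 := ndN1q1) (n2 := ndN1q2a) (pc := pcN0) (cut := Cut.none) (xt := Ext.none) (P1 := 536870912) (W1 := 536870912) (P2 := 0) (W2 := 536870912) (P3 := 134217728) (W3 := 67108864) (N0 := 3)
    rfl k0_pm_102_a

noncomputable def f_pm_102_b : ℕ → ℕ → ℕ → ℕ → Bool := onCell 536870912 536870912 1239849684 370763052 134217728 67108864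
    (rowN 3 0 false true false .npp 1 0 2 (qsf 536870912 536870912 1239849684 370763052 0) ndN1q1 ndN1q2b pcN0 Cut.none Ext.none)

def k0_pm_102_b : ∃ t, chk3 f_pm_102_b t 1 1 1 = true :=
  ⟨(a (b (a (l 2) (b (l 16921288) (l 16990200))) (l 2)) (b (a (b (l 17086648) (l 17253976)) (b (b (l 17139912) (l 17324176)) (a (l 17479904) (l 17582088)))) (a (l 17385184) (a (l 17641264) (l 17819744))))), by decide +kernel⟩

theorem c_pm_102_b : CertN 536870912 536870912 1239849684 370763052 134217728 67108864 3 false true false .npp 1 0 2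
    ndN1q1 ndN1q2b pcN0 Cut.none Ext.none :=
  certN0 (fam := false) (s1 := true) (s2 := false) (a := 1) (b := 0) (c := 2) (cn := .npp) (n1 := ndN1q1) (n2 := ndN1q2b) (pc := pcN0) (cut := Cut.none) (xt := Ext.none) (P1 := 536870912) (W1 := 536870912) (P2 := 1239849684) (W2 := 370763052) (P3 := 134217728) (W3 := 67108864) (N0 := 3)
    rfl k0_pm_102_b

noncomputable def f_pm_112_a : ℕ → ℕ → ℕ → ℕ → Bool := onCell 536870912 536870912 0 536870912 134217728 67108864
    (rowN 3 2 false true false .dn 1 1 2 (qsf 536870912 536870912 0 536870912 1) ndN1q1 ndN1q2a pcN1 Cut.none Ext.none)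

def k0_pm_112_a : ∃ t, chk3 f_pm_112_a t 1 1 1 = true :=
  ⟨(a (b (a (l 18144984) (b (l 18074848) (l 18274544))) (a (l 119759241927) (b (l 1) (l 1)))) (l 1)), by decide +kernel⟩

theorem c_pm_112_a : CertN 536870912 536870912 0 536870912 134217728 67108864 3 false true false .dn 1 1 2
    ndN1q1 ndN1q2a pcN1 Cut.none Ext.none :=
  certN2 (fam := false) (s1 := true) (s2 := false) (a := 1) (b := 1) (c := 2) (cn := .dn) (n1 := ndN1q1) (n2 := ndN1q2a) (pc := pcN1) (cut := Cut.none) (xt := Ext.none) (P1 := 536870912) (W1 := 536870912) (P2 := 0) (W2 := 536870912) (P3 := 134217728) (W3 := 67108864) (N0 := 3)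
    rfl (fun _ => rfl) k0_pm_112_a

noncomputable def f_pm_112_b : ℕ → ℕ → ℕ → ℕ → Bool := onCell 536870912 536870912 1239849684 370763052 134217728 67108864
    (rowN 3 2 false true false .dn 1 1 2 (qsf 536870912 536870912 1239849684 370763052 1) ndN1q1 ndN1q2b pcN1 Cut.none Ext.none)

def k0_pm_112_b : ∃ t, chk3 f_pm_112_b t 1 1 1 = true :=
  ⟨(a (b (a (l 17862304) (l 18011584)) (a (l 17649360) (l 17837408))) (b (l 424165181239) (l 115464342679))), by decide +kernel⟩

theorem c_pm_112_b : CertN 536870912 536870912 1239849684 370763052 134217728 67108864 3 false true false .dn 1 1 2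
    ndN1q1 ndN1q2b pcN1 Cut.none Ext.none :=
  certN2 (fam := false) (s1 := true) (s2 := false) (a := 1) (b := 1) (c := 2) (cn := .dn) (n1 := ndN1q1) (n2 := ndN1q2b) (pc := pcN1) (cut := Cut.none) (xt := Ext.none) (P1 := 536870912) (W1 := 536870912) (P2 := 1239849684) (W2 := 370763052) (P3 := 134217728) (W3 := 67108864) (N0 := 3)
    rfl (fun _ => rfl) k0_pm_112_b

noncomputable def f_pm_113 : ℕ → ℕ → ℕ → ℕ → Bool := onCell 536870912 536870912 536870912 536870912 134217728 67108864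
    (rowN 3 1 false true false .nn 1 1 3 (qsf 536870912 536870912 1610612736 536870912 1) ndN1q1 ndN1q3 pcN1 Cut.none Ext.none)

def k0_pm_113 : ∃ t, chk3 f_pm_113 t 1 1 1 = true :=
  ⟨(a (b (b (l 1) (l 342559928775)) (a (l 18166688) (l 17925440))) (b (b (l 173444932423) (l 17410368)) (b (l 17362880) (l 17347696)))), by decide +kernel⟩

theorem c_pm_113 : CertN 536870912 536870912 1610612736 536870912 134217728 67108864 3 false true false .nn 1 1 3
    ndN1q1 ndN1q3 pcN1 Cut.none Ext.none :=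
  certN1 (fam := false) (s1 := true) (s2 := false) (a := 1) (b := 1) (c := 3) (cn := .nn) (n1 := ndN1q1) (n2 := ndN1q3) (pc := pcN1) (cut := Cut.none) (xt := Ext.none) (P1 := 536870912) (W1 := 536870912) (P2 := 1610612736) (W2 := 536870912) (P3 := 134217728) (W3 := 67108864) (N0 := 3)
    rfl (fun _ => rfl) k0_pm_113

noncomputable def f_pm_123 : ℕ → ℕ → ℕ → ℕ → Bool := onCell 1073741824 536870912 1610612736 536870912 134217728 67108864
    (rowN 3 2 false true false .npn 1 2 3 (qsf 536870912 536870912 1610612736 536870912 2) ndN1q1 ndN1q3 pcN2 Cut.none Ext.none)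

def k0_pm_123 : ∃ t, chk3 f_pm_123 t 1 1 1 = true :=
  ⟨(a (b (a (l 18309776) (l 18148464)) (a (a (l 17681880) (a (l 17860928) (l 17699984))) (l 17681784))) (a (b (l 17909904) (l 17589928)) (b (l 1) (l 17389088)))), by decide +kernel⟩

theorem c_pm_123 : CertN 536870912 536870912 1610612736 536870912 134217728 67108864 3 false true false .npn 1 2 3
    ndN1q1 ndN1q3 pcN2 Cut.none Ext.none :=
  certN2 (fam := false) (s1 := true) (s2 := false) (a := 1) (b := 2) (c := 3) (cn := .npn) (n1 := ndN1q1) (n2 := ndN1q3) (pc := pcN2) (cut := Cut.none) (xt := Ext.none) (P1 := 536870912) (W1 := 536870912) (P2 := 1610612736) (W2 := 536870912) (P3 := 134217728) (W3 := 67108864) (N0 := 3)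
    rfl (fun _ => rfl) k0_pm_123

noncomputable def f_pm_133 : ℕ → ℕ → ℕ → ℕ → Bool := onCell 1610612736 536870912 1610612736 536870912 134217728 67108864
    (rowN 3 2 false true false .dn 1 3 3 (qsf 536870912 536870912 1610612736 536870912 3) ndN1q1 ndN1q3 pcN3 Cut.none Ext.none)

def k0_pm_133 : ∃ t, chk3 f_pm_133 t 1 1 1 = true :=
  ⟨(a (b (l 1) (a (a (l 17184416) (l 1)) (l 1))) (l 1)), by decide +kernel⟩

theorem c_pm_133 : CertN 536870912 536870912 1610612736 536870912 134217728 67108864 3 false true false .dn 1 3 3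
    ndN1q1 ndN1q3 pcN3 Cut.none Ext.none :=
  certN2 (fam := false) (s1 := true) (s2 := false) (a := 1) (b := 3) (c := 3) (cn := .dn) (n1 := ndN1q1) (n2 := ndN1q3) (pc := pcN3) (cut := Cut.none) (xt := Ext.none) (P1 := 536870912) (W1 := 536870912) (P2 := 1610612736) (W2 := 536870912) (P3 := 134217728) (W3 := 67108864) (N0 := 3)
    rfl (fun _ => rfl) k0_pm_133

noncomputable def cut_pm_202_aa : Cut := Cut.of [[⟨0, 1, 0, 67108864⟩, ⟨1, 0, 0, 67108864⟩, ⟨2, 1, 0, 67108864⟩]]

noncomputable def f_pm_202_aa : ℕ → ℕ → ℕ → ℕ → Bool := onCell 0 536870912 0 536870912 134217728 67108864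
    (rowN 3 0 false true false .pp 2 0 2 (qsf 0 536870912 0 536870912 0) ndN1q2a ndN1q2a pcN0 cut_pm_202_aa Ext.none)

def k0_pm_202_aa : ∃ t, chk3 f_pm_202_aa t 1 1 1 = true :=
  ⟨(b (l 3) (a (l 3) (b (l 3) (b (l 3) (a (l 1) (a (l 3) (l 6))))))), by decide +kernel⟩

theorem c_pm_202_aa : CertN 0 536870912 0 536870912 134217728 67108864 3 false true false .pp 2 0 2
    ndN1q2a ndN1q2a pcN0 cut_pm_202_aa Ext.none :=
  certN0 (fam := false) (s1 := true) (s2 := false) (a := 2) (b := 0) (c := 2) (cn := .pp) (n1 := ndN1q2a) (n2 := ndN1q2a) (pc := pcN0) (cut := cut_pm_202_aa) (xt := Ext.none) (P1 := 0) (W1 := 536870912) (P2 := 0) (W2 := 536870912) (P3 := 134217728) (W3 := 67108864) (N0 := 3)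
    rfl k0_pm_202_aa

noncomputable def cut_pm_202_ab : Cut := Cut.of [[⟨0, 1, 0, 67108864⟩, ⟨1, 0, 0, 67108864⟩, ⟨2, 1, 0, 67108864⟩]]

noncomputable def f_pm_202_ab : ℕ → ℕ → ℕ → ℕ → Bool := onCell 0 536870912 1239849684 370763052 134217728 67108864
    (rowN 3 0 false true false .pp 2 0 2 (qsf 0 536870912 1239849684 370763052 0) ndN1q2a ndN1q2b pcN0 cut_pm_202_ab Ext.none)

def k0_pm_202_ab : ∃ t, chk3 f_pm_202_ab t 1 1 1 = true :=
  ⟨(l 3), by decide +kernel⟩

theorem c_pm_202_ab : CertN 0 536870912 1239849684 370763052 134217728 67108864 3 false true false .pp 2 0 2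
    ndN1q2a ndN1q2b pcN0 cut_pm_202_ab Ext.none :=
  certN0 (fam := false) (s1 := true) (s2 := false) (a := 2) (b := 0) (c := 2) (cn := .pp) (n1 := ndN1q2a) (n2 := ndN1q2b) (pc := pcN0) (cut := cut_pm_202_ab) (xt := Ext.none) (P1 := 0) (W1 := 536870912) (P2 := 1239849684) (W2 := 370763052) (P3 := 134217728) (W3 := 67108864) (N0 := 3)
    rfl k0_pm_202_ab

noncomputable def cut_pm_202_ba : Cut := Cut.of [[⟨0, 1, 0, 67108864⟩, ⟨1, 0, 0, 67108864⟩, ⟨2, 1, 0, 67108864⟩]]

noncomputable def f_pm_202_ba : ℕ → ℕ → ℕ → ℕ → Bool := onCell 1239849684 370763052 0 536870912 134217728 67108864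
    (rowN 3 0 false true false .pp 2 0 2 (qsf 1239849684 370763052 0 536870912 0) ndN1q2b ndN1q2a pcN0 cut_pm_202_ba Ext.none)

def k0_pm_202_ba : ∃ t, chk3 f_pm_202_ba t 1 1 1 = true :=
  ⟨(l 3), by decide +kernel⟩

theorem c_pm_202_ba : CertN 1239849684 370763052 0 536870912 134217728 67108864 3 false true false .pp 2 0 2
    ndN1q2b ndN1q2a pcN0 cut_pm_202_ba Ext.none :=
  certN0 (fam := false) (s1 := true) (s2 := false) (a := 2) (b := 0) (c := 2) (cn := .pp) (n1 := ndN1q2b) (n2 := ndN1q2a) (pc := pcN0) (cut := cut_pm_202_ba) (xt := Ext.none) (P1 := 1239849684) (W1 := 370763052) (P2 := 0) (W2 := 536870912) (P3 := 134217728) (W3 := 67108864) (N0 := 3)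
    rfl k0_pm_202_ba

noncomputable def cut_pm_202_bb : Cut := Cut.of [[⟨0, 1, 0, 67108864⟩, ⟨1, 0, 0, 67108864⟩, ⟨2, 1, 0, 67108864⟩]]

noncomputable def f_pm_202_bb : ℕ → ℕ → ℕ → ℕ → Bool := onCell 1239849684 370763052 1239849684 370763052 134217728 67108864
    (rowN 3 0 false true false .pp 2 0 2 (qsf 1239849684 370763052 1239849684 370763052 0) ndN1q2b ndN1q2b pcN0 cut_pm_202_bb Ext.none)

def k0_pm_202_bb : ∃ t, chk3 f_pm_202_bb t 1 1 1 = true :=
  ⟨(l 3), by decide +kernel⟩

theorem c_pm_202_bb : CertN 1239849684 370763052 1239849684 370763052 134217728 67108864 3 false true false .pp 2 0 2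
    ndN1q2b ndN1q2b pcN0 cut_pm_202_bb Ext.none :=
  certN0 (fam := false) (s1 := true) (s2 := false) (a := 2) (b := 0) (c := 2) (cn := .pp) (n1 := ndN1q2b) (n2 := ndN1q2b) (pc := pcN0) (cut := cut_pm_202_bb) (xt := Ext.none) (P1 := 1239849684) (W1 := 370763052) (P2 := 1239849684) (W2 := 370763052) (P3 := 134217728) (W3 := 67108864) (N0 := 3)
    rfl k0_pm_202_bb

noncomputable def f_pm_203_a : ℕ → ℕ → ℕ → ℕ → Bool := onCell 0 536870912 0 536870912 134217728 67108864
    (rowN 3 1 false true false .up 2 0 3 (qsf 0 536870912 1610612736 536870912 0) ndN1q2a ndN1q3 pcN0 Cut.none Ext.none)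

def k0_pm_203_a : ∃ t, chk3 f_pm_203_a t 1 1 1 = true :=
  ⟨(l 3), by decide +kernel⟩

theorem c_pm_203_a : CertN 0 536870912 1610612736 536870912 134217728 67108864 3 false true false .up 2 0 3
    ndN1q2a ndN1q3 pcN0 Cut.none Ext.none :=
  certN1 (fam := false) (s1 := true) (s2 := false) (a := 2) (b := 0) (c := 3) (cn := .up) (n1 := ndN1q2a) (n2 := ndN1q3) (pc := pcN0) (cut := Cut.none) (xt := Ext.none) (P1 := 0) (W1 := 536870912) (P2 := 1610612736) (W2 := 536870912) (P3 := 134217728) (W3 := 67108864) (N0 := 3)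
    rfl (fun _ => rfl) k0_pm_203_a

noncomputable def f_pm_203_b : ℕ → ℕ → ℕ → ℕ → Bool := onCell 1239849684 370763052 1610612736 536870912 134217728 67108864
    (rowN 3 0 false true false .up 2 0 3 (qsf 1239849684 370763052 1610612736 536870912 0) ndN1q2b ndN1q3 pcN0 Cut.none Ext.none)

def k0_pm_203_b : ∃ t, chk3 f_pm_203_b t 1 1 1 = true :=
  ⟨(l 3), by decide +kernel⟩

theorem c_pm_203_b : CertN 1239849684 370763052 1610612736 536870912 134217728 67108864 3 false true false .up 2 0 3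
    ndN1q2b ndN1q3 pcN0 Cut.none Ext.none :=
  certN0 (fam := false) (s1 := true) (s2 := false) (a := 2) (b := 0) (c := 3) (cn := .up) (n1 := ndN1q2b) (n2 := ndN1q3) (pc := pcN0) (cut := Cut.none) (xt := Ext.none) (P1 := 1239849684) (W1 := 370763052) (P2 := 1610612736) (W2 := 536870912) (P3 := 134217728) (W3 := 67108864) (N0 := 3)
    rfl k0_pm_203_b

noncomputable def cut_pm_213_a : Cut := Cut.of [[⟨0, 1, 0, 39843005⟩, ⟨1, 1, 0, 39843005⟩, ⟨2, 2, 0, 5814905⟩]]

noncomputable def f_pm_213_a : ℕ → ℕ → ℕ → ℕ → Bool := onCell 0 536870912 1610612736 536870912 134217728 67108864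
    (rowN 3 0 false true false .pnn 2 1 3 (qsf 0 536870912 1610612736 536870912 1) ndN1q2a ndN1q3 pcN1 cut_pm_213_a Ext.none)

def k0_pm_213_a : ∃ t, chk3 f_pm_213_a t 1 1 1 = true :=
  ⟨(b (l 3) (a (l 3) (b (l 3) (a (l 3) (a (l 3) (b (l 3) (a (l 3) (a (l 3) (b (l 3) (a (l 3) (b (l 3) (a (l 3) (a (l 3) (a (l 3) (a (l 3) (b (l 3) (b (l 3) (l 6)))))))))))))))))), by decide +kernel⟩

theorem c_pm_213_a : CertN 0 536870912 1610612736 536870912 134217728 67108864 3 false true false .pnn 2 1 3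
    ndN1q2a ndN1q3 pcN1 cut_pm_213_a Ext.none :=
  certN0 (fam := false) (s1 := true) (s2 := false) (a := 2) (b := 1) (c := 3) (cn := .pnn) (n1 := ndN1q2a) (n2 := ndN1q3) (pc := pcN1) (cut := cut_pm_213_a) (xt := Ext.none) (P1 := 0) (W1 := 536870912) (P2 := 1610612736) (W2 := 536870912) (P3 := 134217728) (W3 := 67108864) (N0 := 3)
    rfl k0_pm_213_a

noncomputable def cut_pm_213_b : Cut := Cut.of [[⟨0, 1, 0, 39843005⟩, ⟨1, 1, 0, 39843005⟩, ⟨2, 2, 0, 5814905⟩]]

noncomputable def f_pm_213_b : ℕ → ℕ → ℕ → ℕ → Bool := onCell 1239849684 370763052 1610612736 536870912 134217728 67108864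
    (rowN 3 0 false true false .pnn 2 1 3 (qsf 1239849684 370763052 1610612736 536870912 1) ndN1q2b ndN1q3 pcN1 cut_pm_213_b Ext.none)

def k0_pm_213_b : ∃ t, chk3 f_pm_213_b t 1 1 1 = true :=
  ⟨(l 3), by decide +kernel⟩

theorem c_pm_213_b : CertN 1239849684 370763052 1610612736 536870912 134217728 67108864 3 false true false .pnn 2 1 3
    ndN1q2b ndN1q3 pcN1 cut_pm_213_b Ext.none :=
  certN0 (fam := false) (s1 := true) (s2 := false) (a := 2) (b := 1) (c := 3) (cn := .pnn) (n1 := ndN1q2b) (n2 := ndN1q3) (pc := pcN1) (cut := cut_pm_213_b) (xt := Ext.none) (P1 := 1239849684) (W1 := 370763052) (P2 := 1610612736) (W2 := 536870912) (P3 := 134217728) (W3 := 67108864) (N0 := 3)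
    rfl k0_pm_213_b

noncomputable def f_pm_303 : ℕ → ℕ → ℕ → ℕ → Bool := onCell 1610612736 536870912 1610612736 536870912 134217728 67108864
    (rowN 3 0 false true false .npn 3 0 3 (qsf 1610612736 536870912 1610612736 536870912 0) ndN1q3 ndN1q3 pcN0 Cut.none Ext.none)

def k0_pm_303 : ∃ t, chk3 f_pm_303 t 1 1 1 = true :=
  ⟨(l 3), by decide +kernel⟩

theorem c_pm_303 : CertN 1610612736 536870912 1610612736 536870912 134217728 67108864 3 false true false .npn 3 0 3
    ndN1q3 ndN1q3 pcN0 Cut.none Ext.none :=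
  certN0 (fam := false) (s1 := true) (s2 := false) (a := 3) (b := 0) (c := 3) (cn := .npn) (n1 := ndN1q3) (n2 := ndN1q3) (pc := pcN0) (cut := Cut.none) (xt := Ext.none) (P1 := 1610612736) (W1 := 536870912) (P2 := 1610612736) (W2 := 536870912) (P3 := 134217728) (W3 := 67108864) (N0 := 3)
    rfl k0_pm_303

noncomputable def f_pm_313 : ℕ → ℕ → ℕ → ℕ → Bool := onCell 1610612736 536870912 1610612736 536870912 134217728 67108864
    (rowN 3 0 false true false .dn 3 1 3 (qsf 1610612736 536870912 1610612736 536870912 1) ndN1q3 ndN1q3 pcN1 Cut.none Ext.none)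

def k0_pm_313 : ∃ t, chk3 f_pm_313 t 1 1 1 = true :=
  ⟨(l 3), by decide +kernel⟩

theorem c_pm_313 : CertN 1610612736 536870912 1610612736 536870912 134217728 67108864 3 false true false .dn 3 1 3
    ndN1q3 ndN1q3 pcN1 Cut.none Ext.none :=
  certN0 (fam := false) (s1 := true) (s2 := false) (a := 3) (b := 1) (c := 3) (cn := .dn) (n1 := ndN1q3) (n2 := ndN1q3) (pc := pcN1) (cut := Cut.none) (xt := Ext.none) (P1 := 1610612736) (W1 := 536870912) (P2 := 1610612736) (W2 := 536870912) (P3 := 134217728) (W3 := 67108864) (N0 := 3)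
    rfl k0_pm_313

noncomputable def f_mm_001 : ℕ → ℕ → ℕ → ℕ → Bool := onCell 0 536870912 536870912 536870912 134217728 67108864
    (rowN 3 0 false false false .up 0 0 1 (qsf 0 536870912 536870912 536870912 0) ndN1q0 ndN1q1 pcN0 Cut.none Ext.none)

def k0_mm_001 : ∃ t, chk3 f_mm_001 t 1 1 1 = true :=
  ⟨(l 3), by decide +kernel⟩

theorem c_mm_001 : CertN 0 536870912 536870912 536870912 134217728 67108864 3 false false false .up 0 0 1
    ndN1q0 ndN1q1 pcN0 Cut.none Ext.none :=
  certN0 (fam := false) (s1 := false) (s2 := false) (a := 0) (b := 0) (c := 1) (cn := .up) (n1 := ndN1q0) (n2 := ndN1q1) (pc := pcN0) (cut := Cut.none) (xt := Ext.none) (P1 := 0) (W1 := 536870912) (P2 := 536870912) (W2 := 536870912) (P3 := 134217728) (W3 := 67108864) (N0 := 3)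
    rfl k0_mm_001

noncomputable def f_mm_011 : ℕ → ℕ → ℕ → ℕ → Bool := onCell 0 536870912 536870912 536870912 134217728 67108864
    (rowN 3 0 false false false .pnn 0 1 1 (qsf 0 536870912 536870912 536870912 1) ndN1q0 ndN1q1 pcN1 Cut.none Ext.none)

def k0_mm_011 : ∃ t, chk3 f_mm_011 t 1 1 1 = true :=
  ⟨(l 3), by decide +kernel⟩

theorem c_mm_011 : CertN 0 536870912 536870912 536870912 134217728 67108864 3 false false false .pnn 0 1 1
    ndN1q0 ndN1q1 pcN1 Cut.none Ext.none :=
  certN0 (fam := false) (s1 := false) (s2 := false) (a := 0) (b := 1) (c := 1) (cn := .pnn) (n1 := ndN1q0) (n2 := ndN1q1) (pc := pcN1) (cut := Cut.none) (xt := Ext.none) (P1 := 0) (W1 := 536870912) (P2 := 536870912) (W2 := 536870912) (P3 := 134217728) (W3 := 67108864) (N0 := 3)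
    rfl k0_mm_011

noncomputable def f_mm_012_a : ℕ → ℕ → ℕ → ℕ → Bool := onCell 0 536870912 0 536870912 134217728 67108864
    (rowN 3 0 false false false .pnp 0 1 2 (qsf 0 536870912 0 536870912 1) ndN1q0 ndN1q2a pcN1 Cut.none Ext.none)

def k0_mm_012_a : ∃ t, chk3 f_mm_012_a t 1 1 1 = true :=
  ⟨(l 5), by decide +kernel⟩

theorem c_mm_012_a : CertN 0 536870912 0 536870912 134217728 67108864 3 false false false .pnp 0 1 2
    ndN1q0 ndN1q2a pcN1 Cut.none Ext.none :=
  certN0 (fam := false) (s1 := false) (s2 := false) (a := 0) (b := 1) (c := 2) (cn := .pnp) (n1 := ndN1q0) (n2 := ndN1q2a) (pc := pcN1) (cut := Cut.none) (xt := Ext.none) (P1 := 0) (W1 := 536870912) (P2 := 0) (W2 := 536870912) (P3 := 134217728) (W3 := 67108864) (N0 := 3)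
    rfl k0_mm_012_a

noncomputable def f_mm_012_b : ℕ → ℕ → ℕ → ℕ → Bool := onCell 0 536870912 1239849684 370763052 134217728 67108864
    (rowN 3 0 false false false .pnp 0 1 2 (qsf 0 536870912 1239849684 370763052 1) ndN1q0 ndN1q2b pcN1 Cut.none Ext.none)

def k0_mm_012_b : ∃ t, chk3 f_mm_012_b t 1 1 1 = true :=
  ⟨(l 5), by decide +kernel⟩

theorem c_mm_012_b : CertN 0 536870912 1239849684 370763052 134217728 67108864 3 false false false .pnp 0 1 2
    ndN1q0 ndN1q2b pcN1 Cut.none Ext.none :=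
  certN0 (fam := false) (s1 := false) (s2 := false) (a := 0) (b := 1) (c := 2) (cn := .pnp) (n1 := ndN1q0) (n2 := ndN1q2b) (pc := pcN1) (cut := Cut.none) (xt := Ext.none) (P1 := 0) (W1 := 536870912) (P2 := 1239849684) (W2 := 370763052) (P3 := 134217728) (W3 := 67108864) (N0 := 3)
    rfl k0_mm_012_b

noncomputable def f_mm_022_a : ℕ → ℕ → ℕ → ℕ → Bool := onCell 0 536870912 0 536870912 134217728 67108864
    (rowN 3 0 false false false .pp 0 2 2 (qsf 0 536870912 0 536870912 2) ndN1q0 ndN1q2a pcN2 Cut.none Ext.none)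

def k0_mm_022_a : ∃ t, chk3 f_mm_022_a t 1 1 1 = true :=
  ⟨(l 5), by decide +kernel⟩

theorem c_mm_022_a : CertN 0 536870912 0 536870912 134217728 67108864 3 false false false .pp 0 2 2
    ndN1q0 ndN1q2a pcN2 Cut.none Ext.none :=
  certN0 (fam := false) (s1 := false) (s2 := false) (a := 0) (b := 2) (c := 2) (cn := .pp) (n1 := ndN1q0) (n2 := ndN1q2a) (pc := pcN2) (cut := Cut.none) (xt := Ext.none) (P1 := 0) (W1 := 536870912) (P2 := 0) (W2 := 536870912) (P3 := 134217728) (W3 := 67108864) (N0 := 3)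
    rfl k0_mm_022_a

noncomputable def f_mm_022_b : ℕ → ℕ → ℕ → ℕ → Bool := onCell 0 536870912 1239849684 370763052 134217728 67108864
    (rowN 3 0 false false false .pp 0 2 2 (qsf 0 536870912 1239849684 370763052 2) ndN1q0 ndN1q2b pcN2 Cut.none Ext.none)

def k0_mm_022_b : ∃ t, chk3 f_mm_022_b t 1 1 1 = true :=
  ⟨(l 5), by decide +kernel⟩

theorem c_mm_022_b : CertN 0 536870912 1239849684 370763052 134217728 67108864 3 false false false .pp 0 2 2
    ndN1q0 ndN1q2b pcN2 Cut.none Ext.none :=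
  certN0 (fam := false) (s1 := false) (s2 := false) (a := 0) (b := 2) (c := 2) (cn := .pp) (n1 := ndN1q0) (n2 := ndN1q2b) (pc := pcN2) (cut := Cut.none) (xt := Ext.none) (P1 := 0) (W1 := 536870912) (P2 := 1239849684) (W2 := 370763052) (P3 := 134217728) (W3 := 67108864) (N0 := 3)
    rfl k0_mm_022_b

noncomputable def f_mm_023 : ℕ → ℕ → ℕ → ℕ → Bool := onCell 0 536870912 1610612736 536870912 134217728 67108864
    (rowN 3 0 false false false .up 0 2 3 (qsf 0 536870912 1610612736 536870912 2) ndN1q0 ndN1q3 pcN2 Cut.none Ext.none)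

def k0_mm_023 : ∃ t, chk3 f_mm_023 t 1 1 1 = true :=
  ⟨(l 5), by decide +kernel⟩

theorem c_mm_023 : CertN 0 536870912 1610612736 536870912 134217728 67108864 3 false false false .up 0 2 3
    ndN1q0 ndN1q3 pcN2 Cut.none Ext.none :=
  certN0 (fam := false) (s1 := false) (s2 := false) (a := 0) (b := 2) (c := 3) (cn := .up) (n1 := ndN1q0) (n2 := ndN1q3) (pc := pcN2) (cut := Cut.none) (xt := Ext.none) (P1 := 0) (W1 := 536870912) (P2 := 1610612736) (W2 := 536870912) (P3 := 134217728) (W3 := 67108864) (N0 := 3)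
    rfl k0_mm_023

noncomputable def f_mm_033 : ℕ → ℕ → ℕ → ℕ → Bool := onCell 0 536870912 1610612736 536870912 134217728 67108864
    (rowN 3 0 false false false .pnn 0 3 3 (qsf 0 536870912 1610612736 536870912 3) ndN1q0 ndN1q3 pcN3 Cut.none Ext.none)

def k0_mm_033 : ∃ t, chk3 f_mm_033 t 1 1 1 = true :=
  ⟨(l 5), by decide +kernel⟩

theorem c_mm_033 : CertN 0 536870912 1610612736 536870912 134217728 67108864 3 false false false .pnn 0 3 3
    ndN1q0 ndN1q3 pcN3 Cut.none Ext.none :=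
  certN0 (fam := false) (s1 := false) (s2 := false) (a := 0) (b := 3) (c := 3) (cn := .pnn) (n1 := ndN1q0) (n2 := ndN1q3) (pc := pcN3) (cut := Cut.none) (xt := Ext.none) (P1 := 0) (W1 := 536870912) (P2 := 1610612736) (W2 := 536870912) (P3 := 134217728) (W3 := 67108864) (N0 := 3)
    rfl k0_mm_033

noncomputable def f_mm_101 : ℕ → ℕ → ℕ → ℕ → Bool := onCell 536870912 536870912 536870912 536870912 134217728 67108864
    (rowN 3 0 false false false .npn 1 0 1 (qsf 536870912 536870912 536870912 536870912 0) ndN1q1 ndN1q1 pcN0 Cut.none Ext.none)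

def k0_mm_101 : ∃ t, chk3 f_mm_101 t 1 1 1 = true :=
  ⟨(l 3), by decide +kernel⟩

theorem c_mm_101 : CertN 536870912 536870912 536870912 536870912 134217728 67108864 3 false false false .npn 1 0 1
    ndN1q1 ndN1q1 pcN0 Cut.none Ext.none :=
  certN0 (fam := false) (s1 := false) (s2 := false) (a := 1) (b := 0) (c := 1) (cn := .npn) (n1 := ndN1q1) (n2 := ndN1q1) (pc := pcN0) (cut := Cut.none) (xt := Ext.none) (P1 := 536870912) (W1 := 536870912) (P2 := 536870912) (W2 := 536870912) (P3 := 134217728) (W3 := 67108864) (N0 := 3)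
    rfl k0_mm_101

noncomputable def f_mm_102_a : ℕ → ℕ → ℕ → ℕ → Bool := onCell 536870912 536870912 0 536870912 134217728 67108864
    (rowN 3 0 false false false .npp 1 0 2 (qsf 536870912 536870912 0 536870912 0) ndN1q1 ndN1q2a pcN0 Cut.none Ext.none)

def k0_mm_102_a : ∃ t, chk3 f_mm_102_a t 1 1 1 = true :=
  ⟨(l 5), by decide +kernel⟩

theorem c_mm_102_a : CertN 536870912 536870912 0 536870912 134217728 67108864 3 false false false .npp 1 0 2
    ndN1q1 ndN1q2a pcN0 Cut.none Ext.none :=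
  certN0 (fam := false) (s1 := false) (s2 := false) (a := 1) (b := 0) (c := 2) (cn := .npp) (n1 := ndN1q1) (n2 := ndN1q2a) (pc := pcN0) (cut := Cut.none) (xt := Ext.none) (P1 := 536870912) (W1 := 536870912) (P2 := 0) (W2 := 536870912) (P3 := 134217728) (W3 := 67108864) (N0 := 3)
    rfl k0_mm_102_a

noncomputable def f_mm_102_b : ℕ → ℕ → ℕ → ℕ → Bool := onCell 536870912 536870912 1239849684 370763052 134217728 67108864
    (rowN 3 0 false false false .npp 1 0 2 (qsf 536870912 536870912 1239849684 370763052 0) ndN1q1 ndN1q2b pcN0 Cut.none Ext.none)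

def k0_mm_102_b : ∃ t, chk3 f_mm_102_b t 1 1 1 = true :=
  ⟨(l 5), by decide +kernel⟩

theorem c_mm_102_b : CertN 536870912 536870912 1239849684 370763052 134217728 67108864 3 false false false .npp 1 0 2
    ndN1q1 ndN1q2b pcN0 Cut.none Ext.none :=
  certN0 (fam := false) (s1 := false) (s2 := false) (a := 1) (b := 0) (c := 2) (cn := .npp) (n1 := ndN1q1) (n2 := ndN1q2b) (pc := pcN0) (cut := Cut.none) (xt := Ext.none) (P1 := 536870912) (W1 := 536870912) (P2 := 1239849684) (W2 := 370763052) (P3 := 134217728) (W3 := 67108864) (N0 := 3)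
    rfl k0_mm_102_b

noncomputable def f_mm_112_a : ℕ → ℕ → ℕ → ℕ → Bool := onCell 536870912 536870912 0 536870912 134217728 67108864
    (rowN 3 0 false false false .dn 1 1 2 (qsf 536870912 536870912 0 536870912 1) ndN1q1 ndN1q2a pcN1 Cut.none Ext.none)

def k0_mm_112_a : ∃ t, chk3 f_mm_112_a t 1 1 1 = true :=
  ⟨(l 5), by decide +kernel⟩

theorem c_mm_112_a : CertN 536870912 536870912 0 536870912 134217728 67108864 3 false false false .dn 1 1 2
    ndN1q1 ndN1q2a pcN1 Cut.none Ext.none :=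
  certN0 (fam := false) (s1 := false) (s2 := false) (a := 1) (b := 1) (c := 2) (cn := .dn) (n1 := ndN1q1) (n2 := ndN1q2a) (pc := pcN1) (cut := Cut.none) (xt := Ext.none) (P1 := 536870912) (W1 := 536870912) (P2 := 0) (W2 := 536870912) (P3 := 134217728) (W3 := 67108864) (N0 := 3)
    rfl k0_mm_112_a

noncomputable def f_mm_112_b : ℕ → ℕ → ℕ → ℕ → Bool := onCell 536870912 536870912 1239849684 370763052 134217728 67108864
    (rowN 3 0 false false false .dn 1 1 2 (qsf 536870912 536870912 1239849684 370763052 1) ndN1q1 ndN1q2b pcN1 Cut.none Ext.none)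

def k0_mm_112_b : ∃ t, chk3 f_mm_112_b t 1 1 1 = true :=
  ⟨(l 5), by decide +kernel⟩

theorem c_mm_112_b : CertN 536870912 536870912 1239849684 370763052 134217728 67108864 3 false false false .dn 1 1 2
    ndN1q1 ndN1q2b pcN1 Cut.none Ext.none :=
  certN0 (fam := false) (s1 := false) (s2 := false) (a := 1) (b := 1) (c := 2) (cn := .dn) (n1 := ndN1q1) (n2 := ndN1q2b) (pc := pcN1) (cut := Cut.none) (xt := Ext.none) (P1 := 536870912) (W1 := 536870912) (P2 := 1239849684) (W2 := 370763052) (P3 := 134217728) (W3 := 67108864) (N0 := 3)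
    rfl k0_mm_112_b

noncomputable def f_mm_113 : ℕ → ℕ → ℕ → ℕ → Bool := onCell 536870912 536870912 1610612736 536870912 134217728 67108864
    (rowN 3 0 false false false .nn 1 1 3 (qsf 536870912 536870912 1610612736 536870912 1) ndN1q1 ndN1q3 pcN1 Cut.none Ext.none)

def k0_mm_113 : ∃ t, chk3 f_mm_113 t 1 1 1 = true :=
  ⟨(l 5), by decide +kernel⟩

theorem c_mm_113 : CertN 536870912 536870912 1610612736 536870912 134217728 67108864 3 false false false .nn 1 1 3
    ndN1q1 ndN1q3 pcN1 Cut.none Ext.none :=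
  certN0 (fam := false) (s1 := false) (s2 := false) (a := 1) (b := 1) (c := 3) (cn := .nn) (n1 := ndN1q1) (n2 := ndN1q3) (pc := pcN1) (cut := Cut.none) (xt := Ext.none) (P1 := 536870912) (W1 := 536870912) (P2 := 1610612736) (W2 := 536870912) (P3 := 134217728) (W3 := 67108864) (N0 := 3)
    rfl k0_mm_113

noncomputable def f_mm_123 : ℕ → ℕ → ℕ → ℕ → Bool := onCell 536870912 536870912 1610612736 536870912 134217728 67108864
    (rowN 3 0 false false false .npn 1 2 3 (qsf 536870912 536870912 1610612736 536870912 2) ndN1q1 ndN1q3 pcN2 Cut.none Ext.none)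

def k0_mm_123 : ∃ t, chk3 f_mm_123 t 1 1 1 = true :=
  ⟨(l 5), by decide +kernel⟩

theorem c_mm_123 : CertN 536870912 536870912 1610612736 536870912 134217728 67108864 3 false false false .npn 1 2 3
    ndN1q1 ndN1q3 pcN2 Cut.none Ext.none :=
  certN0 (fam := false) (s1 := false) (s2 := false) (a := 1) (b := 2) (c := 3) (cn := .npn) (n1 := ndN1q1) (n2 := ndN1q3) (pc := pcN2) (cut := Cut.none) (xt := Ext.none) (P1 := 536870912) (W1 := 536870912) (P2 := 1610612736) (W2 := 536870912) (P3 := 134217728) (W3 := 67108864) (N0 := 3)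
    rfl k0_mm_123

noncomputable def f_mm_133 : ℕ → ℕ → ℕ → ℕ → Bool := onCell 536870912 536870912 1610612736 536870912 134217728 67108864
    (rowN 3 0 false false false .dn 1 3 3 (qsf 536870912 536870912 1610612736 536870912 3) ndN1q1 ndN1q3 pcN3 Cut.none Ext.none)

def k0_mm_133 : ∃ t, chk3 f_mm_133 t 1 1 1 = true :=
  ⟨(l 5), by decide +kernel⟩

theorem c_mm_133 : CertN 536870912 536870912 1610612736 536870912 134217728 67108864 3 false false false .dn 1 3 3
    ndN1q1 ndN1q3 pcN3 Cut.none Ext.none :=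
  certN0 (fam := false) (s1 := false) (s2 := false) (a := 1) (b := 3) (c := 3) (cn := .dn) (n1 := ndN1q1) (n2 := ndN1q3) (pc := pcN3) (cut := Cut.none) (xt := Ext.none) (P1 := 536870912) (W1 := 536870912) (P2 := 1610612736) (W2 := 536870912) (P3 := 134217728) (W3 := 67108864) (N0 := 3)
    rfl k0_mm_133

noncomputable def f_mm_202_aa : ℕ → ℕ → ℕ → ℕ → Bool := onCell 0 536870912 0 536870912 134217728 67108864
    (rowN 3 0 false false false .pp 2 0 2 (qsf 0 536870912 0 536870912 0) ndN1q2a ndN1q2a pcN0 Cut.none Ext.none)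

def k0_mm_202_aa : ∃ t, chk3 f_mm_202_aa t 1 1 1 = true :=
  ⟨(l 3), by decide +kernel⟩

theorem c_mm_202_aa : CertN 0 536870912 0 536870912 134217728 67108864 3 false false false .pp 2 0 2
    ndN1q2a ndN1q2a pcN0 Cut.none Ext.none :=
  certN0 (fam := false) (s1 := false) (s2 := false) (a := 2) (b := 0) (c := 2) (cn := .pp) (n1 := ndN1q2a) (n2 := ndN1q2a) (pc := pcN0) (cut := Cut.none) (xt := Ext.none) (P1 := 0) (W1 := 536870912) (P2 := 0) (W2 := 536870912) (P3 := 134217728) (W3 := 67108864) (N0 := 3)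
    rfl k0_mm_202_aa

noncomputable def f_mm_202_ab : ℕ → ℕ → ℕ → ℕ → Bool := onCell 0 536870912 1239849684 370763052 134217728 67108864
    (rowN 3 0 false false false .pp 2 0 2 (qsf 0 536870912 1239849684 370763052 0) ndN1q2a ndN1q2b pcN0 Cut.none Ext.none)

def k0_mm_202_ab : ∃ t, chk3 f_mm_202_ab t 1 1 1 = true :=
  ⟨(l 3), by decide +kernel⟩

theorem c_mm_202_ab : CertN 0 536870912 1239849684 370763052 134217728 67108864 3 false false false .pp 2 0 2
    ndN1q2a ndN1q2b pcN0 Cut.none Ext.none :=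
  certN0 (fam := false) (s1 := false) (s2 := false) (a := 2) (b := 0) (c := 2) (cn := .pp) (n1 := ndN1q2a) (n2 := ndN1q2b) (pc := pcN0) (cut := Cut.none) (xt := Ext.none) (P1 := 0) (W1 := 536870912) (P2 := 1239849684) (W2 := 370763052) (P3 := 134217728) (W3 := 67108864) (N0 := 3)
    rfl k0_mm_202_ab

noncomputable def f_mm_202_ba : ℕ → ℕ → ℕ → ℕ → Bool := onCell 1239849684 370763052 0 536870912 134217728 67108864
    (rowN 3 0 false false false .pp 2 0 2 (qsf 1239849684 370763052 0 536870912 0) ndN1q2b ndN1q2a pcN0 Cut.none Ext.none)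

def k0_mm_202_ba : ∃ t, chk3 f_mm_202_ba t 1 1 1 = true :=
  ⟨(l 3), by decide +kernel⟩

theorem c_mm_202_ba : CertN 1239849684 370763052 0 536870912 134217728 67108864 3 false false false .pp 2 0 2
    ndN1q2b ndN1q2a pcN0 Cut.none Ext.none :=
  certN0 (fam := false) (s1 := false) (s2 := false) (a := 2) (b := 0) (c := 2) (cn := .pp) (n1 := ndN1q2b) (n2 := ndN1q2a) (pc := pcN0) (cut := Cut.none) (xt := Ext.none) (P1 := 1239849684) (W1 := 370763052) (P2 := 0) (W2 := 536870912) (P3 := 134217728) (W3 := 67108864) (N0 := 3)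
    rfl k0_mm_202_ba

noncomputable def f_mm_202_bb : ℕ → ℕ → ℕ → ℕ → Bool := onCell 1239849684 370763052 1239849684 370763052 134217728 67108864
    (rowN 3 0 false false false .pp 2 0 2 (qsf 1239849684 370763052 1239849684 370763052 0) ndN1q2b ndN1q2b pcN0 Cut.none Ext.none)

def k0_mm_202_bb : ∃ t, chk3 f_mm_202_bb t 1 1 1 = true :=
  ⟨(l 3), by decide +kernel⟩

theorem c_mm_202_bb : CertN 1239849684 370763052 1239849684 370763052 134217728 67108864 3 false false false .pp 2 0 2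
    ndN1q2b ndN1q2b pcN0 Cut.none Ext.none :=
  certN0 (fam := false) (s1 := false) (s2 := false) (a := 2) (b := 0) (c := 2) (cn := .pp) (n1 := ndN1q2b) (n2 := ndN1q2b) (pc := pcN0) (cut := Cut.none) (xt := Ext.none) (P1 := 1239849684) (W1 := 370763052) (P2 := 1239849684) (W2 := 370763052) (P3 := 134217728) (W3 := 67108864) (N0 := 3)
    rfl k0_mm_202_bb

noncomputable def f_mm_203_a : ℕ → ℕ → ℕ → ℕ → Bool := onCell 0 536870912 1610612736 536870912 134217728 67108864
    (rowN 3 0 false false false .up 2 0 3 (qsf 0 536870912 1610612736 536870912 0) ndN1q2a ndN1q3 pcN0 Cut.none Ext.none)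

def k0_mm_203_a : ∃ t, chk3 f_mm_203_a t 1 1 1 = true :=
  ⟨(l 5), by decide +kernel⟩

theorem c_mm_203_a : CertN 0 536870912 1610612736 536870912 134217728 67108864 3 false false false .up 2 0 3
    ndN1q2a ndN1q3 pcN0 Cut.none Ext.none :=
  certN0 (fam := false) (s1 := false) (s2 := false) (a := 2) (b := 0) (c := 3) (cn := .up) (n1 := ndN1q2a) (n2 := ndN1q3) (pc := pcN0) (cut := Cut.none) (xt := Ext.none) (P1 := 0) (W1 := 536870912) (P2 := 1610612736) (W2 := 536870912) (P3 := 134217728) (W3 := 67108864) (N0 := 3)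
    rfl k0_mm_203_a

noncomputable def f_mm_203_b : ℕ → ℕ → ℕ → ℕ → Bool := onCell 1239849684 370763052 1610612736 536870912 134217728 67108864
    (rowN 3 0 false false false .up 2 0 3 (qsf 1239849684 370763052 1610612736 536870912 0) ndN1q2b ndN1q3 pcN0 Cut.none Ext.none)

def k0_mm_203_b : ∃ t, chk3 f_mm_203_b t 1 1 1 = true :=
  ⟨(l 3), by decide +kernel⟩

theorem c_mm_203_b : CertN 1239849684 370763052 1610612736 536870912 134217728 67108864 3 false false false .up 2 0 3
    ndN1q2b ndN1q3 pcN0 Cut.none Ext.none :=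
  certN0 (fam := false) (s1 := false) (s2 := false) (a := 2) (b := 0) (c := 3) (cn := .up) (n1 := ndN1q2b) (n2 := ndN1q3) (pc := pcN0) (cut := Cut.none) (xt := Ext.none) (P1 := 1239849684) (W1 := 370763052) (P2 := 1610612736) (W2 := 536870912) (P3 := 134217728) (W3 := 67108864) (N0 := 3)
    rfl k0_mm_203_b

noncomputable def f_mm_213_a : ℕ → ℕ → ℕ → ℕ → Bool := onCell 0 536870912 1610612736 536870912 134217728 67108864
    (rowN 3 0 false false false .pnn 2 1 3 (qsf 0 536870912 1610612736 536870912 1) ndN1q2a ndN1q3 pcN1 Cut.none Ext.none)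

def k0_mm_213_a : ∃ t, chk3 f_mm_213_a t 1 1 1 = true :=
  ⟨(l 5), by decide +kernel⟩

theorem c_mm_213_a : CertN 0 536870912 1610612736 536870912 134217728 67108864 3 false false false .pnn 2 1 3
    ndN1q2a ndN1q3 pcN1 Cut.none Ext.none :=
  certN0 (fam := false) (s1 := false) (s2 := false) (a := 2) (b := 1) (c := 3) (cn := .pnn) (n1 := ndN1q2a) (n2 := ndN1q3) (pc := pcN1) (cut := Cut.none) (xt := Ext.none) (P1 := 0) (W1 := 536870912) (P2 := 1610612736) (W2 := 536870912) (P3 := 134217728) (W3 := 67108864) (N0 := 3)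
    rfl k0_mm_213_a

noncomputable def f_mm_213_b : ℕ → ℕ → ℕ → ℕ → Bool := onCell 1239849684 370763052 1610612736 536870912 134217728 67108864
    (rowN 3 0 false false false .pnn 2 1 3 (qsf 1239849684 370763052 1610612736 536870912 1) ndN1q2b ndN1q3 pcN1 Cut.none Ext.none)

def k0_mm_213_b : ∃ t, chk3 f_mm_213_b t 1 1 1 = true :=
  ⟨(l 3), by decide +kernel⟩

theorem c_mm_213_b : CertN 1239849684 370763052 1610612736 536870912 134217728 67108864 3 false false false .pnn 2 1 3
    ndN1q2b ndN1q3 pcN1 Cut.none Ext.none :=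
  certN0 (fam := false) (s1 := false) (s2 := false) (a := 2) (b := 1) (c := 3) (cn := .pnn) (n1 := ndN1q2b) (n2 := ndN1q3) (pc := pcN1) (cut := Cut.none) (xt := Ext.none) (P1 := 1239849684) (W1 := 370763052) (P2 := 1610612736) (W2 := 536870912) (P3 := 134217728) (W3 := 67108864) (N0 := 3)
    rfl k0_mm_213_b

noncomputable def f_mm_303 : ℕ → ℕ → ℕ → ℕ → Bool := onCell 1610612736 536870912 1610612736 536870912 134217728 67108864
    (rowN 3 0 false false false .npn 3 0 3 (qsf 1610612736 536870912 1610612736 536870912 0) ndN1q3 ndN1q3 pcN0 Cut.none Ext.none)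

def k0_mm_303 : ∃ t, chk3 f_mm_303 t 1 1 1 = true :=
  ⟨(l 3), by decide +kernel⟩

theorem c_mm_303 : CertN 1610612736 536870912 1610612736 536870912 134217728 67108864 3 false false false .npn 3 0 3
    ndN1q3 ndN1q3 pcN0 Cut.none Ext.none :=
  certN0 (fam := false) (s1 := false) (s2 := false) (a := 3) (b := 0) (c := 3) (cn := .npn) (n1 := ndN1q3) (n2 := ndN1q3) (pc := pcN0) (cut := Cut.none) (xt := Ext.none) (P1 := 1610612736) (W1 := 536870912) (P2 := 1610612736) (W2 := 536870912) (P3 := 134217728) (W3 := 67108864) (N0 := 3)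
    rfl k0_mm_303

noncomputable def f_mm_313 : ℕ → ℕ → ℕ → ℕ → Bool := onCell 1610612736 536870912 1610612736 536870912 134217728 67108864
    (rowN 3 0 false false false .dn 3 1 3 (qsf 1610612736 536870912 1610612736 536870912 1) ndN1q3 ndN1q3 pcN1 Cut.none Ext.none)

def k0_mm_313 : ∃ t, chk3 f_mm_313 t 1 1 1 = true :=
  ⟨(l 3), by decide +kernel⟩

theorem c_mm_313 : CertN 1610612736 536870912 1610612736 536870912 134217728 67108864 3 false false false .dn 3 1 3
    ndN1q3 ndN1q3 pcN1 Cut.none Ext.none :=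
  certN0 (fam := false) (s1 := false) (s2 := false) (a := 3) (b := 1) (c := 3) (cn := .dn) (n1 := ndN1q3) (n2 := ndN1q3) (pc := pcN1) (cut := Cut.none) (xt := Ext.none) (P1 := 1610612736) (W1 := 536870912) (P2 := 1610612736) (W2 := 536870912) (P3 := 134217728) (W3 := 67108864) (N0 := 3)
    rfl k0_mm_313

end Pool.Agent.Strip051.G.I1_8_3_16.Tab.C.NB11

namespace Pool.Agent.Strip051.G.I1_8_3_16.Tab.C.NB12

open Pool.Agent.Strip051.PB Pool.Agent.Strip051.PB.T
open Pool.Agent.Strip051.G.I1_8_3_16.Tab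

noncomputable def f_pp_001 : ℕ → ℕ → ℕ → ℕ → Bool := onCell 0 536870912 0 536870912 134217728 67108864
    (rowN 3 1 false true true .up 0 0 1 (qsf 0 536870912 536870912 536870912 0) ndN1q0 ndN2q1 pcN0 Cut.none Ext.none)

def k0_pp_001 : ∃ t, chk3 f_pp_001 t 1 1 1 = true :=
  ⟨(l 3), by decide +kernel⟩

theorem c_pp_001 : CertN 0 536870912 536870912 536870912 134217728 67108864 3 false true true .up 0 0 1
    ndN1q0 ndN2q1 pcN0 Cut.none Ext.none :=
  certN1 (fam := false) (s1 := true) (s2 := true) (a := 0) (b := 0) (c := 1) (cn := .up) (n1 := ndN1q0) (n2 := ndN2q1) (pc := pcN0) (cut := Cut.none) (xt := Ext.none) (P1 := 0) (W1 := 536870912) (P2 := 536870912) (W2 := 536870912) (P3 := 134217728) (W3 := 67108864) (N0 := 3)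
    rfl (fun _ => rfl) k0_pp_001

noncomputable def f_pp_011 : ℕ → ℕ → ℕ → ℕ → Bool := onCell 0 536870912 536870912 536870912 134217728 67108864
    (rowN 3 0 false true true .pnn 0 1 1 (qsf 0 536870912 536870912 536870912 1) ndN1q0 ndN2q1 pcN1 Cut.none Ext.none)

def k0_pp_011 : ∃ t, chk3 f_pp_011 t 1 1 1 = true :=
  ⟨(a (l 3) (l 3)), by decide +kernel⟩

theorem c_pp_011 : CertN 0 536870912 536870912 536870912 134217728 67108864 3 false true true .pnn 0 1 1
    ndN1q0 ndN2q1 pcN1 Cut.none Ext.none :=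
  certN0 (fam := false) (s1 := true) (s2 := true) (a := 0) (b := 1) (c := 1) (cn := .pnn) (n1 := ndN1q0) (n2 := ndN2q1) (pc := pcN1) (cut := Cut.none) (xt := Ext.none) (P1 := 0) (W1 := 536870912) (P2 := 536870912) (W2 := 536870912) (P3 := 134217728) (W3 := 67108864) (N0 := 3)
    rfl k0_pp_011

noncomputable def cut_pp_012_a : Cut := Cut.of [[⟨0, 0, 0, 67108864⟩, ⟨1, 1, 0, 67108864⟩, ⟨2, 1, 0, 67108864⟩]]

noncomputable def f_pp_012_a : ℕ → ℕ → ℕ → ℕ → Bool := onCell 536870912 536870912 0 536870912 134217728 67108864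
    (rowN 3 2 false true true .pnp 0 1 2 (qsf 0 536870912 0 536870912 1) ndN1q0 ndN2q2a pcN1 cut_pp_012_a Ext.none)

def k0_pp_012_a : ∃ t, chk3 f_pp_012_a t 1 1 1 = true :=
  ⟨(a (l 3) (a (b (a (l 3) (l 16873720)) (b (l 3) (l 3))) (b (a (l 16907928) (b (a (l 16937384) (l 16757048)) (a (l 16843424) (l 16669384)))) (b (a (b (l 16817816) (l 16830808)) (a (l 16777528) (b (l 16695960) (l 16718984)))) (a (b (l 16936152) (l 3)) (b (a (l 16852704) (a (l 16758048) (b (l 16727032) (l 16742592)))) (b (a (l 16825336) (a (l 16801832) (l 6))) (a (l 3) (l 6))))))))), by decide +kernel⟩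

theorem c_pp_012_a : CertN 0 536870912 0 536870912 134217728 67108864 3 false true true .pnp 0 1 2
    ndN1q0 ndN2q2a pcN1 cut_pp_012_a Ext.none :=
  certN2 (fam := false) (s1 := true) (s2 := true) (a := 0) (b := 1) (c := 2) (cn := .pnp) (n1 := ndN1q0) (n2 := ndN2q2a) (pc := pcN1) (cut := cut_pp_012_a) (xt := Ext.none) (P1 := 0) (W1 := 536870912) (P2 := 0) (W2 := 536870912) (P3 := 134217728) (W3 := 67108864) (N0 := 3)
    rfl (fun _ => rfl) k0_pp_012_a

noncomputable def cut_pp_012_b : Cut := Cut.of [[⟨0, 0, 0, 67108864⟩, ⟨1, 1, 0, 67108864⟩, ⟨2, 1, 0, 67108864⟩]]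

noncomputable def f_pp_012_b : ℕ → ℕ → ℕ → ℕ → Bool := onCell 536870912 536870912 1239849684 370763052 134217728 67108864
    (rowN 3 2 false true true .pnp 0 1 2 (qsf 0 536870912 1239849684 370763052 1) ndN1q0 ndN2q2b pcN1 cut_pp_012_b Ext.none)

def k0_pp_012_b : ∃ t, chk3 f_pp_012_b t 1 1 1 = true :=
  ⟨(b (a (l 3) (a (a (l 17029648) (b (l 16918472) (l 17088816))) (a (b (l 17083472) (l 17281712)) (b (a (l 17154264) (l 17121064)) (l 17454520))))) (a (l 2) (a (l 48420303495) (a (l 17440560) (l 17641760))))), by decide +kernel⟩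

theorem c_pp_012_b : CertN 0 536870912 1239849684 370763052 134217728 67108864 3 false true true .pnp 0 1 2
    ndN1q0 ndN2q2b pcN1 cut_pp_012_b Ext.none :=
  certN2 (fam := false) (s1 := true) (s2 := true) (a := 0) (b := 1) (c := 2) (cn := .pnp) (n1 := ndN1q0) (n2 := ndN2q2b) (pc := pcN1) (cut := cut_pp_012_b) (xt := Ext.none) (P1 := 0) (W1 := 536870912) (P2 := 1239849684) (W2 := 370763052) (P3 := 134217728) (W3 := 67108864) (N0 := 3)
    rfl (fun _ => rfl) k0_pp_012_b

noncomputable def cut_pp_022_a : Cut := Cut.of [[⟨0, 0, 0, 67108864⟩, ⟨1, 1, 0, 67108864⟩, ⟨2, 1, 0, 67108864⟩]]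

noncomputable def f_pp_022_a : ℕ → ℕ → ℕ → ℕ → Bool := onCell 0 536870912 0 536870912 134217728 67108864
    (rowN 3 0 false true true .pp 0 2 2 (qsf 0 536870912 0 536870912 2) ndN1q0 ndN2q2a pcN2 cut_pp_022_a Ext.none)

def k0_pp_022_a : ∃ t, chk3 f_pp_022_a t 4 2 1 = true :=
  ⟨(b (a (a (a (b (a (a (b (c (a (a (b (c (l 17103456) (l 16683424)) (l 16887400)) (l 16888632)) (l 16885776)) (b (a (l 16551240) (l 16509056)) (l 16508840))) (c (a (l 16674352) (l 16859688)) (l 16531280))) (c (b (l 16880040) (l 16854088)) (l 16529616))) (c (b (l 16869200) (l 16843616)) (l 16548184))) (a (c (a (b (c (l 17022400) (l 16593200)) (l 16599496)) (l 16570232)) (b (l 16554968) (l 16539824))) (c (l 16603480) (l 16576848)))) (b (a (b (l 16527664) (l 16529272)) (l 16566744)) (a (b (l 16532768) (l 16559200)) (c (l 16731384) (l 16571376))))) (a (a (b (l 16562616) (l 16625336)) (b (l 16579688) (l 16625848))) (b (b (l 16624400) (l 16649768)) (a (l 16674816) (l 16723968))))) (a (a (b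 (a (l 16658024) (l 16549520)) (a (c (l 16761392) (l 16767832)) (l 16559304))) (l 16571440)) (l 16602536))) (a (b (a (a (a (c (b (b (l 16618208) (l 16570840)) (a (l 16565696) (l 16542984))) (b (l 16568352) (l 16577888))) (c (b (l 16595640) (l 16562432)) (b (l 16544616) (l 16554448)))) (a (b (l 16566760) (l 16587112)) (b (l 16563632) (l 16595168)))) (a (b (b (l 16625960) (l 16642064)) (a (l 16593400) (l 16613816))) (a (b (l 16589240) (l 16642984)) (b (l 16624304) (l 16696296))))) (a (a (b (a (b (c (l 16572304) (l 16564536)) (c (l 16577944) (l 16570744))) (c (l 16594600) (l 16587688))) (a (c (a (c (l 16590056) (l 16586792)) (l 16587112)) (a (l 16592440) (l 16580976))) (c (l 16629480) (l 16623696)))) (b (a (a (l 16587456) (l 16586152)) (l 16629688)) (a (b (l 16597136) (l 16605024)) (a (l 16600552) (l 16600248))))) (a (b (a (l 16650456) (l 16665904)) (a (c (l 16686016) (l 16682544)) (a (l 16660880) (l 16566288)))) (b (a (l 16728184) (l 16572704)) (l 16583016)))))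 (a (l 16608408) (l 16642424)))), by decide +kernel⟩

def k1_pp_022_a : ∃ t, chk3 f_pp_022_a t 5 2 1 = true :=
  ⟨(a (a (a (l 16674048) (l 16681976)) (l 209949988263)) (l 1)), by decide +kernel⟩

def k2_pp_022_a : ∃ t, chk3 f_pp_022_a t 2 3 1 = true :=
  ⟨(a (a (b (b (a (a (b (a (a (b (c (l 16587248) (l 16571336)) (c (l 16595072) (l 16579808))) (c (l 16623592) (l 16618672))) (c (a (l 16622808) (l 16622184)) (b (l 16591648) (l 16621880)))) (a (c (a (b (c (l 16594120) (l 16592072)) (c (l 16624184) (l 16622480))) (b (l 16592088) (l 16622576))) (a (b (l 16609944) (l 16619848)) (b (l 16588304) (l 16619424)))) (c (b (l 16635488) (l 16653344)) (b (l 16632032) (l 16661136))))) (b (a (c (l 16694656) (l 16690928)) (c (l 16737400) (l 16734152))) (a (b (b (l 16626480) (l 16631984)) (a (l 16640208) (l 16596440))) (l 16591376)))) (a (b (a (b (l 16653456) (l 16575136)) (l 16582720)) (l 16599064)) (l 16614472))) (a (a (b (b (a (c (a (c (l 16634088) (l 16632704)) (l 16631608))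 (a (l 16630528) (l 16629128))) (c (l 16680896) (l 16683752))) (a (a (c (a (c (l 16643144) (l 16642064)) (l 16642552)) (a (l 16640344) (l 16640384))) (c (l 16653976) (l 16662328))) (l 16630440))) (c (a (a (c (l 16650152) (l 16659832)) (l 16660488)) (l 16661032)) (a (c (l 16659120) (l 16658224)) (l 16659504)))) (c (l 16660896) (l 16659232))) (b (l 16692000) (l 16712000)))) (a (b (b (a (c (a (a (c (b (l 16658872) (l 16682832)) (a (l 16682784) (l 16686280))) (l 16686936)) (l 16687872)) (a (b (b (l 16654096) (l 16663512)) (c (l 16682184) (l 16681640))) (l 16686824))) (c (l 16690344) (l 16689296))) (l 6)) (l 6)) (a (b (b (l 16691424) (l 6)) (l 6)) (b (b (l 16695736) (b (l 16744160) (l 16763696))) (l 1))))) (a (b (b (l 16651736) (b (l 16710328) (l 16739856))) (b (b (a (l 16740552) (l 1)) (l 1)) (l 1))) (b (b (l 16696392) (b (l 16733528) (l 1))) (l 1)))) (b (l 1) (l 1))), by decide +kernel⟩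

def k3_pp_022_a : ∃ t, chk3 f_pp_022_a t 3 1 1 = true :=
  ⟨(l 1), by decide +kernel⟩

theorem s4_pp_022_a : ∃ t, chk3 f_pp_022_a t 2 2 1 = true := ex3_a k0_pp_022_a k1_pp_022_a

theorem s5_pp_022_a : ∃ t, chk3 f_pp_022_a t 2 1 1 = true := ex3_b s4_pp_022_a k2_pp_022_a

theorem s6_pp_022_a : ∃ t, chk3 f_pp_022_a t 1 1 1 = true := ex3_a s5_pp_022_a k3_pp_022_a

theorem c_pp_022_a : CertN 0 536870912 0 536870912 134217728 67108864 3 false true true .pp 0 2 2
    ndN1q0 ndN2q2a pcN2 cut_pp_022_a Ext.none :=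
  certN0 (fam := false) (s1 := true) (s2 := true) (a := 0) (b := 2) (c := 2) (cn := .pp) (n1 := ndN1q0) (n2 := ndN2q2a) (pc := pcN2) (cut := cut_pp_022_a) (xt := Ext.none) (P1 := 0) (W1 := 536870912) (P2 := 0) (W2 := 536870912) (P3 := 134217728) (W3 := 67108864) (N0 := 3)
    rfl s6_pp_022_a

noncomputable def cut_pp_022_b : Cut := Cut.of [[⟨0, 0, 0, 67108864⟩, ⟨1, 1, 0, 67108864⟩, ⟨2, 1, 0, 67108864⟩]]

noncomputable def f_pp_022_b : ℕ → ℕ → ℕ → ℕ → Bool := onCell 0 536870912 1073741824 536870912 134217728 67108864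
    (rowN 3 1 false true true .pp 0 2 2 (qsf 0 536870912 1239849684 370763052 2) ndN1q0 ndN2q2b pcN2 cut_pp_022_b Ext.none)

def k0_pp_022_b : ∃ t, chk3 f_pp_022_b t 2 1 1 = true :=
  ⟨(b (a (b (a (b (l 1) (b (b (l 1) (b (l 1) (l 278132352839))) (b (a (l 1) (l 224445388327)) (a (a (l 1) (l 237867062615)) (b (l 16570072) (l 16726352)))))) (b (b (l 186327640327) (l 16658384)) (b (b (l 16672080) (b (l 16627384) (l 16825120))) (b (b (l 17077600) (l 17176456)) (a (l 17138912) (l 17453112)))))) (b (b (b (c (a (a (l 249678222535) (l 17265976)) (l 17714736)) (a (a (l 245920109831) (l 16605040)) (l 17229408))) (a (a (b (a (c (l 257731190423) (l 16531616)) (l 16683960)) (a (b (c (l 16726440) (l 16501008)) (c (b (l 16807888) (a (l 52109946231) (l 17123096))) (b (l 16496032) (l 16513816)))) (c (b (l 17218800) (l 17282504)) (l 16582160)))) (b (l 17120392) (b (l 17204024) (c (l 17552992) (l 16957992))))) (b (l 17580840) (a (l 17534928) (l 17740784))))) (a (a (a (b (c (c (l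 17407832) (l 16995592)) (l 16502968)) (c (l 17285864) (l 16667344))) (c (l 17539824) (b (l 16766928) (l 17024200)))) (c (l 17744152) (l 17198064))) (a (l 17704312) (l 17862776)))) (a (a (b (b (a (c (l 17681840) (l 17035936)) (l 17378984)) (c (l 17904512) (l 17209064))) (c (l 18091912) (b (l 17526496) (l 17668176)))) (b (c (l 18006152) (l 17530824)) (l 17987640))) (b (l 17974968) (l 18115256))))) (b (b (a (b (l 16836320) (l 17183720)) (l 17499320)) (b (b (l 17609208) (b (l 17687464) (l 17736800))) (b (a (l 17644464) (l 17900152)) (l 17874224)))) (b (b (b (l 17945800) (b (l 17994960) (l 18026264))) (l 18084592)) (b (l 18166224) (l 18233200))))) (b (a (a (b (a (c (l 18351056) (l 17941000)) (l 18217000)) (l 18399008)) (l 18360568)) (l 18375608)) (a (l 18671608) (l 18468744)))), by decide +kernel⟩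

def k1_pp_022_b : ∃ t, chk3 f_pp_022_b t 3 1 1 = true :=
  ⟨(b (b (b (a (l 17837968) (l 18015368)) (b (b (l 18073568) (l 18356216)) (b (l 18133344) (l 18161600)))) (b (b (b (l 18184416) (l 18207136)) (l 18221672)) (l 18270712))) (b (a (l 18337776) (l 2)) (l 2))), by decide +kernel⟩

theorem s2_pp_022_b : ∃ t, chk3 f_pp_022_b t 1 1 1 = true := ex3_a k0_pp_022_b k1_pp_022_b

theorem c_pp_022_b : CertN 0 536870912 1239849684 370763052 134217728 67108864 3 false true true .pp 0 2 2
    ndN1q0 ndN2q2b pcN2 cut_pp_022_b Ext.none :=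
  certN1 (fam := false) (s1 := true) (s2 := true) (a := 0) (b := 2) (c := 2) (cn := .pp) (n1 := ndN1q0) (n2 := ndN2q2b) (pc := pcN2) (cut := cut_pp_022_b) (xt := Ext.none) (P1 := 0) (W1 := 536870912) (P2 := 1239849684) (W2 := 370763052) (P3 := 134217728) (W3 := 67108864) (N0 := 3)
    rfl (fun _ => rfl) s2_pp_022_b

noncomputable def f_pp_023 : ℕ → ℕ → ℕ → ℕ → Bool := onCell 1073741824 536870912 1610612736 536870912 134217728 67108864
    (rowN 3 2 false true true .up 0 2 3 (qsf 0 536870912 1610612736 536870912 2) ndN1q0 ndN2q3 pcN2 Cut.none Ext.none)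

def k0_pp_023 : ∃ t, chk3 f_pp_023 t 1 1 1 = true :=
  ⟨(b (a (a (a (l 18287288) (a (a (l 18321184) (l 18321984)) (l 18491048))) (a (a (a (l 18326928) (l 18329584)) (l 18319760)) (l 18308456))) (b (l 18342600) (l 18325360))) (a (a (l 2) (a (l 2) (l 18239472))) (a (b (l 18266200) (l 18173144)) (l 18149744)))), by decide +kernel⟩

theorem c_pp_023 : CertN 0 536870912 1610612736 536870912 134217728 67108864 3 false true true .up 0 2 3
    ndN1q0 ndN2q3 pcN2 Cut.none Ext.none :=
  certN2 (fam := false) (s1 := true) (s2 := true) (a := 0) (b := 2) (c := 3) (cn := .up) (n1 := ndN1q0) (n2 := ndN2q3) (pc := pcN2) (cut := Cut.none) (xt := Ext.none) (P1 := 0) (W1 := 536870912) (P2 := 1610612736) (W2 := 536870912) (P3 := 134217728) (W3 := 67108864) (N0 := 3)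
    rfl (fun _ => rfl) k0_pp_023

noncomputable def f_pp_033 : ℕ → ℕ → ℕ → ℕ → Bool := onCell 1610612736 536870912 1610612736 536870912 134217728 67108864
    (rowN 3 2 false true true .pnn 0 3 3 (qsf 0 536870912 1610612736 536870912 3) ndN1q0 ndN2q3 pcN3 Cut.none Ext.none)

def k0_pp_033 : ∃ t, chk3 f_pp_033 t 1 1 1 = true :=
  ⟨(a (b (a (b (l 17968400) (l 17836600)) (b (a (b (l 1) (l 17985400)) (l 1)) (b (l 17981008) (l 17962608)))) (a (b (l 17828128) (l 17645832)) (a (l 17922488) (l 17807368)))) (b (a (b (l 1) (a (b (l 1) (l 18004432)) (l 1))) (l 1)) (a (a (l 17845496) (l 17934272)) (b (a (b (l 1) (l 4)) (l 1)) (l 4))))), by decide +kernel⟩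

theorem c_pp_033 : CertN 0 536870912 1610612736 536870912 134217728 67108864 3 false true true .pnn 0 3 3
    ndN1q0 ndN2q3 pcN3 Cut.none Ext.none :=
  certN2 (fam := false) (s1 := true) (s2 := true) (a := 0) (b := 3) (c := 3) (cn := .pnn) (n1 := ndN1q0) (n2 := ndN2q3) (pc := pcN3) (cut := Cut.none) (xt := Ext.none) (P1 := 0) (W1 := 536870912) (P2 := 1610612736) (W2 := 536870912) (P3 := 134217728) (W3 := 67108864) (N0 := 3)
    rfl (fun _ => rfl) k0_pp_033

noncomputable def f_pp_101 : ℕ → ℕ → ℕ → ℕ → Bool := onCell 536870912 536870912 536870912 536870912 134217728 67108864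
    (rowN 3 0 false true true .npn 1 0 1 (qsf 536870912 536870912 536870912 536870912 0) ndN1q1 ndN2q1 pcN0 Cut.none Ext.none)

def k0_pp_101 : ∃ t, chk3 f_pp_101 t 1 1 1 = true :=
  ⟨(l 3), by decide +kernel⟩

theorem c_pp_101 : CertN 536870912 536870912 536870912 536870912 134217728 67108864 3 false true true .npn 1 0 1
    ndN1q1 ndN2q1 pcN0 Cut.none Ext.none :=
  certN0 (fam := false) (s1 := true) (s2 := true) (a := 1) (b := 0) (c := 1) (cn := .npn) (n1 := ndN1q1) (n2 := ndN2q1) (pc := pcN0) (cut := Cut.none) (xt := Ext.none) (P1 := 536870912) (W1 := 536870912) (P2 := 536870912) (W2 := 536870912) (P3 := 134217728) (W3 := 67108864) (N0 := 3)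
    rfl k0_pp_101

noncomputable def f_pp_102_a : ℕ → ℕ → ℕ → ℕ → Bool := onCell 536870912 536870912 0 536870912 134217728 67108864
    (rowN 3 0 false true true .npp 1 0 2 (qsf 536870912 536870912 0 536870912 0) ndN1q1 ndN2q2a pcN0 Cut.none Ext.none)

def k0_pp_102_a : ∃ t, chk3 f_pp_102_a t 1 1 1 = true :=
  ⟨(l 3), by decide +kernel⟩

theorem c_pp_102_a : CertN 536870912 536870912 0 536870912 134217728 67108864 3 false true true .npp 1 0 2
    ndN1q1 ndN2q2a pcN0 Cut.none Ext.none :=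
  certN0 (fam := false) (s1 := true) (s2 := true) (a := 1) (b := 0) (c := 2) (cn := .npp) (n1 := ndN1q1) (n2 := ndN2q2a) (pc := pcN0) (cut := Cut.none) (xt := Ext.none) (P1 := 536870912) (W1 := 536870912) (P2 := 0) (W2 := 536870912) (P3 := 134217728) (W3 := 67108864) (N0 := 3)
    rfl k0_pp_102_a

noncomputable def f_pp_102_b : ℕ → ℕ → ℕ → ℕ → Bool := onCell 536870912 536870912 0 536870912 134217728 67108864
    (rowN 3 1 false true true .npp 1 0 2 (qsf 536870912 536870912 1239849684 370763052 0) ndN1q1 ndN2q2b pcN0 Cut.none Ext.none)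

def k0_pp_102_b : ∃ t, chk3 f_pp_102_b t 1 1 1 = true :=
  ⟨(l 3), by decide +kernel⟩

theorem c_pp_102_b : CertN 536870912 536870912 1239849684 370763052 134217728 67108864 3 false true true .npp 1 0 2
    ndN1q1 ndN2q2b pcN0 Cut.none Ext.none :=
  certN1 (fam := false) (s1 := true) (s2 := true) (a := 1) (b := 0) (c := 2) (cn := .npp) (n1 := ndN1q1) (n2 := ndN2q2b) (pc := pcN0) (cut := Cut.none) (xt := Ext.none) (P1 := 536870912) (W1 := 536870912) (P2 := 1239849684) (W2 := 370763052) (P3 := 134217728) (W3 := 67108864) (N0 := 3)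
    rfl (fun _ => rfl) k0_pp_102_b

noncomputable def f_pp_112_a : ℕ → ℕ → ℕ → ℕ → Bool := onCell 536870912 536870912 0 536870912 134217728 67108864
    (rowN 3 0 false true true .dn 1 1 2 (qsf 536870912 536870912 0 536870912 1) ndN1q1 ndN2q2a pcN1 Cut.none Ext.none)

def k0_pp_112_a : ∃ t, chk3 f_pp_112_a t 1 1 1 = true :=
  ⟨(l 3), by decide +kernel⟩

theorem c_pp_112_a : CertN 536870912 536870912 0 536870912 134217728 67108864 3 false true true .dn 1 1 2
    ndN1q1 ndN2q2a pcN1 Cut.none Ext.none :=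
  certN0 (fam := false) (s1 := true) (s2 := true) (a := 1) (b := 1) (c := 2) (cn := .dn) (n1 := ndN1q1) (n2 := ndN2q2a) (pc := pcN1) (cut := Cut.none) (xt := Ext.none) (P1 := 536870912) (W1 := 536870912) (P2 := 0) (W2 := 536870912) (P3 := 134217728) (W3 := 67108864) (N0 := 3)
    rfl k0_pp_112_a

noncomputable def f_pp_112_b : ℕ → ℕ → ℕ → ℕ → Bool := onCell 536870912 536870912 1239849684 370763052 134217728 67108864
    (rowN 3 2 false true true .dn 1 1 2 (qsf 536870912 536870912 1239849684 370763052 1) ndN1q1 ndN2q2b pcN1 Cut.none Ext.none)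

def k0_pp_112_b : ∃ t, chk3 f_pp_112_b t 1 1 1 = true :=
  ⟨(a (a (l 3) (b (l 3) (l 3))) (a (b (b (l 1) (l 17669512)) (l 17582120)) (b (l 1) (l 17559816)))), by decide +kernel⟩

theorem c_pp_112_b : CertN 536870912 536870912 1239849684 370763052 134217728 67108864 3 false true true .dn 1 1 2
    ndN1q1 ndN2q2b pcN1 Cut.none Ext.none :=
  certN2 (fam := false) (s1 := true) (s2 := true) (a := 1) (b := 1) (c := 2) (cn := .dn) (n1 := ndN1q1) (n2 := ndN2q2b) (pc := pcN1) (cut := Cut.none) (xt := Ext.none) (P1 := 536870912) (W1 := 536870912) (P2 := 1239849684) (W2 := 370763052) (P3 := 134217728) (W3 := 67108864) (N0 := 3)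
    rfl (fun _ => rfl) k0_pp_112_b

noncomputable def f_pp_113 : ℕ → ℕ → ℕ → ℕ → Bool := onCell 536870912 536870912 536870912 536870912 134217728 67108864
    (rowN 3 1 false true true .nn 1 1 3 (qsf 536870912 536870912 1610612736 536870912 1) ndN1q1 ndN2q3 pcN1 Cut.none Ext.none)

def k0_pp_113 : ∃ t, chk3 f_pp_113 t 1 1 1 = true :=
  ⟨(b (b (l 3) (a (l 301219115815) (b (l 3) (l 17274440)))) (b (a (l 326989716583) (b (l 17180440) (l 17179568))) (a (l 17467384) (a (l 17232936) (l 17001120))))), by decide +kernel⟩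

theorem c_pp_113 : CertN 536870912 536870912 1610612736 536870912 134217728 67108864 3 false true true .nn 1 1 3
    ndN1q1 ndN2q3 pcN1 Cut.none Ext.none :=
  certN1 (fam := false) (s1 := true) (s2 := true) (a := 1) (b := 1) (c := 3) (cn := .nn) (n1 := ndN1q1) (n2 := ndN2q3) (pc := pcN1) (cut := Cut.none) (xt := Ext.none) (P1 := 536870912) (W1 := 536870912) (P2 := 1610612736) (W2 := 536870912) (P3 := 134217728) (W3 := 67108864) (N0 := 3)
    rfl (fun _ => rfl) k0_pp_113

noncomputable def f_pp_123 : ℕ → ℕ → ℕ → ℕ → Bool := onCell 1073741824 536870912 1610612736 536870912 134217728 67108864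
    (rowN 3 2 false true true .npn 1 2 3 (qsf 536870912 536870912 1610612736 536870912 2) ndN1q1 ndN2q3 pcN2 Cut.none Ext.none)

def k0_pp_123 : ∃ t, chk3 f_pp_123 t 1 1 1 = true :=
  ⟨(a (b (a (a (l 17709840) (a (a (l 17714824) (l 17702936)) (l 17662368))) (a (a (l 17783896) (l 17616056)) (l 17547808))) (a (a (l 17473936) (a (a (l 17505120) (l 17509416)) (l 17551584))) (a (b (l 17547072) (l 17458776)) (l 17495896)))) (a (b (l 17434072) (b (l 17476256) (l 17407288))) (b (l 1) (l 17338896)))), by decide +kernel⟩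

theorem c_pp_123 : CertN 536870912 536870912 1610612736 536870912 134217728 67108864 3 false true true .npn 1 2 3
    ndN1q1 ndN2q3 pcN2 Cut.none Ext.none :=
  certN2 (fam := false) (s1 := true) (s2 := true) (a := 1) (b := 2) (c := 3) (cn := .npn) (n1 := ndN1q1) (n2 := ndN2q3) (pc := pcN2) (cut := Cut.none) (xt := Ext.none) (P1 := 536870912) (W1 := 536870912) (P2 := 1610612736) (W2 := 536870912) (P3 := 134217728) (W3 := 67108864) (N0 := 3)
    rfl (fun _ => rfl) k0_pp_123

noncomputable def f_pp_133 : ℕ → ℕ → ℕ → ℕ → Bool := onCell 536870912 536870912 1610612736 536870912 134217728 67108864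
    (rowN 3 0 false true true .dn 1 3 3 (qsf 536870912 536870912 1610612736 536870912 3) ndN1q1 ndN2q3 pcN3 Cut.none Ext.none)

def k0_pp_133 : ∃ t, chk3 f_pp_133 t 1 1 1 = true :=
  ⟨(a (b (l 1) (a (b (l 1) (b (l 1) (l 452079753927))) (l 1))) (l 1)), by decide +kernel⟩

theorem c_pp_133 : CertN 536870912 536870912 1610612736 536870912 134217728 67108864 3 false true true .dn 1 3 3
    ndN1q1 ndN2q3 pcN3 Cut.none Ext.none :=
  certN0 (fam := false) (s1 := true) (s2 := true) (a := 1) (b := 3) (c := 3) (cn := .dn) (n1 := ndN1q1) (n2 := ndN2q3) (pc := pcN3) (cut := Cut.none) (xt := Ext.none) (P1 := 536870912) (W1 := 536870912) (P2 := 1610612736) (W2 := 536870912) (P3 := 134217728) (W3 := 67108864) (N0 := 3)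
    rfl k0_pp_133

noncomputable def f_pp_202_aa : ℕ → ℕ → ℕ → ℕ → Bool := onCell 0 536870912 0 536870912 134217728 67108864
    (rowN 3 0 false true true .pp 2 0 2 (qsf 0 536870912 0 536870912 0) ndN1q2a ndN2q2a pcN0 Cut.none Ext.none)

def k0_pp_202_aa : ∃ t, chk3 f_pp_202_aa t 1 1 1 = true :=
  ⟨(l 3), by decide +kernel⟩

theorem c_pp_202_aa : CertN 0 536870912 0 536870912 134217728 67108864 3 false true true .pp 2 0 2
    ndN1q2a ndN2q2a pcN0 Cut.none Ext.none :=
  certN0 (fam := false) (s1 := true) (s2 := true) (a := 2) (b := 0) (c := 2) (cn := .pp) (n1 := ndN1q2a) (n2 := ndN2q2a) (pc := pcN0) (cut := Cut.none) (xt := Ext.none) (P1 := 0) (W1 := 536870912) (P2 := 0) (W2 := 536870912) (P3 := 134217728) (W3 := 67108864) (N0 := 3)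
    rfl k0_pp_202_aa

noncomputable def f_pp_202_ab : ℕ → ℕ → ℕ → ℕ → Bool := onCell 0 536870912 1239849684 370763052 134217728 67108864
    (rowN 3 0 false true true .pp 2 0 2 (qsf 0 536870912 1239849684 370763052 0) ndN1q2a ndN2q2b pcN0 Cut.none Ext.none)

def k0_pp_202_ab : ∃ t, chk3 f_pp_202_ab t 1 1 1 = true :=
  ⟨(l 3), by decide +kernel⟩

theorem c_pp_202_ab : CertN 0 536870912 1239849684 370763052 134217728 67108864 3 false true true .pp 2 0 2
    ndN1q2a ndN2q2b pcN0 Cut.none Ext.none :=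
  certN0 (fam := false) (s1 := true) (s2 := true) (a := 2) (b := 0) (c := 2) (cn := .pp) (n1 := ndN1q2a) (n2 := ndN2q2b) (pc := pcN0) (cut := Cut.none) (xt := Ext.none) (P1 := 0) (W1 := 536870912) (P2 := 1239849684) (W2 := 370763052) (P3 := 134217728) (W3 := 67108864) (N0 := 3)
    rfl k0_pp_202_ab

noncomputable def f_pp_202_ba : ℕ → ℕ → ℕ → ℕ → Bool := onCell 1239849684 370763052 0 536870912 134217728 67108864
    (rowN 3 0 false true true .pp 2 0 2 (qsf 1239849684 370763052 0 536870912 0) ndN1q2b ndN2q2a pcN0 Cut.none Ext.none)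

def k0_pp_202_ba : ∃ t, chk3 f_pp_202_ba t 1 1 1 = true :=
  ⟨(l 3), by decide +kernel⟩

theorem c_pp_202_ba : CertN 1239849684 370763052 0 536870912 134217728 67108864 3 false true true .pp 2 0 2
    ndN1q2b ndN2q2a pcN0 Cut.none Ext.none :=
  certN0 (fam := false) (s1 := true) (s2 := true) (a := 2) (b := 0) (c := 2) (cn := .pp) (n1 := ndN1q2b) (n2 := ndN2q2a) (pc := pcN0) (cut := Cut.none) (xt := Ext.none) (P1 := 1239849684) (W1 := 370763052) (P2 := 0) (W2 := 536870912) (P3 := 134217728) (W3 := 67108864) (N0 := 3)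
    rfl k0_pp_202_ba

noncomputable def f_pp_202_bb : ℕ → ℕ → ℕ → ℕ → Bool := onCell 1239849684 370763052 1239849684 370763052 134217728 67108864
    (rowN 3 0 false true true .pp 2 0 2 (qsf 1239849684 370763052 1239849684 370763052 0) ndN1q2b ndN2q2b pcN0 Cut.none Ext.none)

def k0_pp_202_bb : ∃ t, chk3 f_pp_202_bb t 1 1 1 = true :=
  ⟨(l 3), by decide +kernel⟩

theorem c_pp_202_bb : CertN 1239849684 370763052 1239849684 370763052 134217728 67108864 3 false true true .pp 2 0 2
    ndN1q2b ndN2q2b pcN0 Cut.none Ext.none :=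
  certN0 (fam := false) (s1 := true) (s2 := true) (a := 2) (b := 0) (c := 2) (cn := .pp) (n1 := ndN1q2b) (n2 := ndN2q2b) (pc := pcN0) (cut := Cut.none) (xt := Ext.none) (P1 := 1239849684) (W1 := 370763052) (P2 := 1239849684) (W2 := 370763052) (P3 := 134217728) (W3 := 67108864) (N0 := 3)
    rfl k0_pp_202_bb

noncomputable def f_pp_203_a : ℕ → ℕ → ℕ → ℕ → Bool := onCell 0 536870912 0 536870912 134217728 67108864
    (rowN 3 1 false true true .up 2 0 3 (qsf 0 536870912 1610612736 536870912 0) ndN1q2a ndN2q3 pcN0 Cut.none Ext.none)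

def k0_pp_203_a : ∃ t, chk3 f_pp_203_a t 1 1 1 = true :=
  ⟨(l 3), by decide +kernel⟩

theorem c_pp_203_a : CertN 0 536870912 1610612736 536870912 134217728 67108864 3 false true true .up 2 0 3
    ndN1q2a ndN2q3 pcN0 Cut.none Ext.none :=
  certN1 (fam := false) (s1 := true) (s2 := true) (a := 2) (b := 0) (c := 3) (cn := .up) (n1 := ndN1q2a) (n2 := ndN2q3) (pc := pcN0) (cut := Cut.none) (xt := Ext.none) (P1 := 0) (W1 := 536870912) (P2 := 1610612736) (W2 := 536870912) (P3 := 134217728) (W3 := 67108864) (N0 := 3)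
    rfl (fun _ => rfl) k0_pp_203_a

noncomputable def f_pp_203_b : ℕ → ℕ → ℕ → ℕ → Bool := onCell 1239849684 370763052 1610612736 536870912 134217728 67108864
    (rowN 3 0 false true true .up 2 0 3 (qsf 1239849684 370763052 1610612736 536870912 0) ndN1q2b ndN2q3 pcN0 Cut.none Ext.none)

def k0_pp_203_b : ∃ t, chk3 f_pp_203_b t 1 1 1 = true :=
  ⟨(l 3), by decide +kernel⟩

theorem c_pp_203_b : CertN 1239849684 370763052 1610612736 536870912 134217728 67108864 3 false true true .up 2 0 3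
    ndN1q2b ndN2q3 pcN0 Cut.none Ext.none :=
  certN0 (fam := false) (s1 := true) (s2 := true) (a := 2) (b := 0) (c := 3) (cn := .up) (n1 := ndN1q2b) (n2 := ndN2q3) (pc := pcN0) (cut := Cut.none) (xt := Ext.none) (P1 := 1239849684) (W1 := 370763052) (P2 := 1610612736) (W2 := 536870912) (P3 := 134217728) (W3 := 67108864) (N0 := 3)
    rfl k0_pp_203_b

noncomputable def cut_pp_213_a : Cut := Cut.of [[⟨0, 1, 0, 39843005⟩, ⟨1, 1, 0, 39843005⟩, ⟨2, 2, 0, 5814905⟩]]

noncomputable def f_pp_213_a : ℕ → ℕ → ℕ → ℕ → Bool := onCell 0 536870912 1610612736 536870912 134217728 67108864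
    (rowN 3 0 false true true .pnn 2 1 3 (qsf 0 536870912 1610612736 536870912 1) ndN1q2a ndN2q3 pcN1 cut_pp_213_a Ext.none)

def k0_pp_213_a : ∃ t, chk3 f_pp_213_a t 1 1 1 = true :=
  ⟨(b (l 3) (b (l 3) (a (l 3) (a (l 3) (b (l 3) (a (l 3) (b (l 3) (a (l 3) (b (l 3) (b (l 3) (b (l 3) (l 6)))))))))))), by decide +kernel⟩

theorem c_pp_213_a : CertN 0 536870912 1610612736 536870912 134217728 67108864 3 false true true .pnn 2 1 3
    ndN1q2a ndN2q3 pcN1 cut_pp_213_a Ext.none :=
  certN0 (fam := false) (s1 := true) (s2 := true) (a := 2) (b := 1) (c := 3) (cn := .pnn) (n1 := ndN1q2a) (n2 := ndN2q3) (pc := pcN1) (cut := cut_pp_213_a) (xt := Ext.none) (P1 := 0) (W1 := 536870912) (P2 := 1610612736) (W2 := 536870912) (P3 := 134217728) (W3 := 67108864) (N0 := 3)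
    rfl k0_pp_213_a

noncomputable def cut_pp_213_b : Cut := Cut.of [[⟨0, 1, 0, 39843005⟩, ⟨1, 1, 0, 39843005⟩, ⟨2, 2, 0, 5814905⟩]]

noncomputable def f_pp_213_b : ℕ → ℕ → ℕ → ℕ → Bool := onCell 1239849684 370763052 1610612736 536870912 134217728 67108864
    (rowN 3 0 false true true .pnn 2 1 3 (qsf 1239849684 370763052 1610612736 536870912 1) ndN1q2b ndN2q3 pcN1 cut_pp_213_b Ext.none)

def k0_pp_213_b : ∃ t, chk3 f_pp_213_b t 1 1 1 = true :=
  ⟨(l 3), by decide +kernel⟩

theorem c_pp_213_b : CertN 1239849684 370763052 1610612736 536870912 134217728 67108864 3 false true true .pnn 2 1 3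
    ndN1q2b ndN2q3 pcN1 cut_pp_213_b Ext.none :=
  certN0 (fam := false) (s1 := true) (s2 := true) (a := 2) (b := 1) (c := 3) (cn := .pnn) (n1 := ndN1q2b) (n2 := ndN2q3) (pc := pcN1) (cut := cut_pp_213_b) (xt := Ext.none) (P1 := 1239849684) (W1 := 370763052) (P2 := 1610612736) (W2 := 536870912) (P3 := 134217728) (W3 := 67108864) (N0 := 3)
    rfl k0_pp_213_b

noncomputable def f_pp_303 : ℕ → ℕ → ℕ → ℕ → Bool := onCell 1610612736 536870912 1610612736 536870912 134217728 67108864
    (rowN 3 0 false true true .npn 3 0 3 (qsf 1610612736 536870912 1610612736 536870912 0) ndN1q3 ndN2q3 pcN0 Cut.none Ext.none)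

def k0_pp_303 : ∃ t, chk3 f_pp_303 t 1 1 1 = true :=
  ⟨(l 3), by decide +kernel⟩

theorem c_pp_303 : CertN 1610612736 536870912 1610612736 536870912 134217728 67108864 3 false true true .npn 3 0 3
    ndN1q3 ndN2q3 pcN0 Cut.none Ext.none :=
  certN0 (fam := false) (s1 := true) (s2 := true) (a := 3) (b := 0) (c := 3) (cn := .npn) (n1 := ndN1q3) (n2 := ndN2q3) (pc := pcN0) (cut := Cut.none) (xt := Ext.none) (P1 := 1610612736) (W1 := 536870912) (P2 := 1610612736) (W2 := 536870912) (P3 := 134217728) (W3 := 67108864) (N0 := 3)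
    rfl k0_pp_303

noncomputable def f_pp_313 : ℕ → ℕ → ℕ → ℕ → Bool := onCell 1610612736 536870912 1610612736 536870912 134217728 67108864
    (rowN 3 0 false true true .dn 3 1 3 (qsf 1610612736 536870912 1610612736 536870912 1) ndN1q3 ndN2q3 pcN1 Cut.none Ext.none)

def k0_pp_313 : ∃ t, chk3 f_pp_313 t 1 1 1 = true :=
  ⟨(l 3), by decide +kernel⟩

theorem c_pp_313 : CertN 1610612736 536870912 1610612736 536870912 134217728 67108864 3 false true true .dn 3 1 3
    ndN1q3 ndN2q3 pcN1 Cut.none Ext.none :=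
  certN0 (fam := false) (s1 := true) (s2 := true) (a := 3) (b := 1) (c := 3) (cn := .dn) (n1 := ndN1q3) (n2 := ndN2q3) (pc := pcN1) (cut := Cut.none) (xt := Ext.none) (P1 := 1610612736) (W1 := 536870912) (P2 := 1610612736) (W2 := 536870912) (P3 := 134217728) (W3 := 67108864) (N0 := 3)
    rfl k0_pp_313

noncomputable def f_pm_001 : ℕ → ℕ → ℕ → ℕ → Bool := onCell 0 536870912 536870912 536870912 134217728 67108864
    (rowN 3 0 false true false .up 0 0 1 (qsf 0 536870912 536870912 536870912 0) ndN1q0 ndN2q1 pcN0 Cut.none Ext.none)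

def k0_pm_001 : ∃ t, chk3 f_pm_001 t 1 1 1 = true :=
  ⟨(l 4), by decide +kernel⟩

theorem c_pm_001 : CertN 0 536870912 536870912 536870912 134217728 67108864 3 false true false .up 0 0 1
    ndN1q0 ndN2q1 pcN0 Cut.none Ext.none :=
  certN0 (fam := false) (s1 := true) (s2 := false) (a := 0) (b := 0) (c := 1) (cn := .up) (n1 := ndN1q0) (n2 := ndN2q1) (pc := pcN0) (cut := Cut.none) (xt := Ext.none) (P1 := 0) (W1 := 536870912) (P2 := 536870912) (W2 := 536870912) (P3 := 134217728) (W3 := 67108864) (N0 := 3)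
    rfl k0_pm_001

noncomputable def f_pm_011 : ℕ → ℕ → ℕ → ℕ → Bool := onCell 0 536870912 536870912 536870912 134217728 67108864
    (rowN 3 0 false true false .pnn 0 1 1 (qsf 0 536870912 536870912 536870912 1) ndN1q0 ndN2q1 pcN1 Cut.none Ext.none)

def k0_pm_011 : ∃ t, chk3 f_pm_011 t 1 1 1 = true :=
  ⟨(l 4), by decide +kernel⟩

theorem c_pm_011 : CertN 0 536870912 536870912 536870912 134217728 67108864 3 false true false .pnn 0 1 1
    ndN1q0 ndN2q1 pcN1 Cut.none Ext.none :=
  certN0 (fam := false) (s1 := true) (s2 := false) (a := 0) (b := 1) (c := 1) (cn := .pnn) (n1 := ndN1q0) (n2 := ndN2q1) (pc := pcN1) (cut := Cut.none) (xt := Ext.none) (P1 := 0) (W1 := 536870912) (P2 := 536870912) (W2 := 536870912) (P3 := 134217728) (W3 := 67108864) (N0 := 3)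
    rfl k0_pm_011

noncomputable def cut_pm_012_a : Cut := Cut.of [[⟨0, 0, 0, 67108864⟩, ⟨1, 1, 0, 67108864⟩, ⟨2, 1, 0, 67108864⟩]]

noncomputable def f_pm_012_a : ℕ → ℕ → ℕ → ℕ → Bool := onCell 0 536870912 0 536870912 134217728 67108864
    (rowN 3 0 false true false .pnp 0 1 2 (qsf 0 536870912 0 536870912 1) ndN1q0 ndN2q2a pcN1 cut_pm_012_a Ext.none)

def k0_pm_012_a : ∃ t, chk3 f_pm_012_a t 1 1 1 = true :=
  ⟨(a (b (l 4) (a (a (a (b (l 2) (b (l 2) (l 6))) (l 4)) (l 4)) (l 4))) (b (a (a (l 4) (l 18146648)) (l 18156744)) (a (b (l 4) (a (l 4) (l 17725096))) (b (l 18008280) (a (l 17792872) (l 17813704)))))), by decide +kernel⟩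

theorem c_pm_012_a : CertN 0 536870912 0 536870912 134217728 67108864 3 false true false .pnp 0 1 2
    ndN1q0 ndN2q2a pcN1 cut_pm_012_a Ext.none :=
  certN0 (fam := false) (s1 := true) (s2 := false) (a := 0) (b := 1) (c := 2) (cn := .pnp) (n1 := ndN1q0) (n2 := ndN2q2a) (pc := pcN1) (cut := cut_pm_012_a) (xt := Ext.none) (P1 := 0) (W1 := 536870912) (P2 := 0) (W2 := 536870912) (P3 := 134217728) (W3 := 67108864) (N0 := 3)
    rfl k0_pm_012_a

noncomputable def cut_pm_012_b : Cut := Cut.of [[⟨0, 0, 0, 67108864⟩, ⟨1, 1, 0, 67108864⟩, ⟨2, 1, 0, 67108864⟩]]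

noncomputable def f_pm_012_b : ℕ → ℕ → ℕ → ℕ → Bool := onCell 0 536870912 1239849684 370763052 134217728 67108864
    (rowN 3 0 false true false .pnp 0 1 2 (qsf 0 536870912 1239849684 370763052 1) ndN1q0 ndN2q2b pcN1 cut_pm_012_b Ext.none)

def k0_pm_012_b : ∃ t, chk3 f_pm_012_b t 1 1 1 = true :=
  ⟨(a (b (a (l 2) (l 4)) (l 2)) (b (b (a (a (l 4) (l 18411568)) (l 18372080)) (a (l 4) (l 18729800))) (a (l 4) (b (l 19084584) (l 19352056))))), by decide +kernel⟩

theorem c_pm_012_b : CertN 0 536870912 1239849684 370763052 134217728 67108864 3 false true false .pnp 0 1 2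
    ndN1q0 ndN2q2b pcN1 cut_pm_012_b Ext.none :=
  certN0 (fam := false) (s1 := true) (s2 := false) (a := 0) (b := 1) (c := 2) (cn := .pnp) (n1 := ndN1q0) (n2 := ndN2q2b) (pc := pcN1) (cut := cut_pm_012_b) (xt := Ext.none) (P1 := 0) (W1 := 536870912) (P2 := 1239849684) (W2 := 370763052) (P3 := 134217728) (W3 := 67108864) (N0 := 3)
    rfl k0_pm_012_b

noncomputable def cut_pm_022_a : Cut := Cut.of [[⟨0, 0, 0, 67108864⟩, ⟨1, 1, 0, 67108864⟩, ⟨2, 1, 0, 67108864⟩]]

noncomputable def f_pm_022_a : ℕ → ℕ → ℕ → ℕ → Bool := onCell 0 536870912 0 536870912 134217728 67108864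
    (rowN 3 0 false true false .pp 0 2 2 (qsf 0 536870912 0 536870912 2) ndN1q0 ndN2q2a pcN2 cut_pm_022_a Ext.none)

def k0_pm_022_a : ∃ t, chk3 f_pm_022_a t 1 1 1 = true :=
  ⟨(a (b (l 4) (a (b (l 4) (a (a (b (l 4) (l 6)) (l 4)) (l 4))) (l 4))) (l 1)), by decide +kernel⟩

theorem c_pm_022_a : CertN 0 536870912 0 536870912 134217728 67108864 3 false true false .pp 0 2 2
    ndN1q0 ndN2q2a pcN2 cut_pm_022_a Ext.none :=
  certN0 (fam := false) (s1 := true) (s2 := false) (a := 0) (b := 2) (c := 2) (cn := .pp) (n1 := ndN1q0) (n2 := ndN2q2a) (pc := pcN2) (cut := cut_pm_022_a) (xt := Ext.none) (P1 := 0) (W1 := 536870912) (P2 := 0) (W2 := 536870912) (P3 := 134217728) (W3 := 67108864) (N0 := 3)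
    rfl k0_pm_022_a

noncomputable def cut_pm_022_b : Cut := Cut.of [[⟨0, 0, 0, 67108864⟩, ⟨1, 1, 0, 67108864⟩, ⟨2, 1, 0, 67108864⟩]]

noncomputable def f_pm_022_b : ℕ → ℕ → ℕ → ℕ → Bool := onCell 0 536870912 1239849684 370763052 134217728 67108864
    (rowN 3 0 false true false .pp 0 2 2 (qsf 0 536870912 1239849684 370763052 2) ndN1q0 ndN2q2b pcN2 cut_pm_022_b Ext.none)

def k0_pm_022_b : ∃ t, chk3 f_pm_022_b t 1 1 1 = true :=
  ⟨(a (b (a (l 4) (l 4)) (l 4)) (b (a (b (l 1) (l 4)) (l 1)) (a (l 4) (b (l 19370696) (l 19333408))))), by decide +kernel⟩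

theorem c_pm_022_b : CertN 0 536870912 1239849684 370763052 134217728 67108864 3 false true false .pp 0 2 2
    ndN1q0 ndN2q2b pcN2 cut_pm_022_b Ext.none :=
  certN0 (fam := false) (s1 := true) (s2 := false) (a := 0) (b := 2) (c := 2) (cn := .pp) (n1 := ndN1q0) (n2 := ndN2q2b) (pc := pcN2) (cut := cut_pm_022_b) (xt := Ext.none) (P1 := 0) (W1 := 536870912) (P2 := 1239849684) (W2 := 370763052) (P3 := 134217728) (W3 := 67108864) (N0 := 3)
    rfl k0_pm_022_b

noncomputable def f_pm_023 : ℕ → ℕ → ℕ → ℕ → Bool := onCell 0 536870912 1610612736 536870912 134217728 67108864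
    (rowN 3 0 false true false .up 0 2 3 (qsf 0 536870912 1610612736 536870912 2) ndN1q0 ndN2q3 pcN2 Cut.none Ext.none)

def k0_pm_023 : ∃ t, chk3 f_pm_023 t 1 1 1 = true :=
  ⟨(a (l 4) (b (b (a (l 4) (l 4)) (l 4)) (b (l 4) (a (l 4) (l 4))))), by decide +kernel⟩

theorem c_pm_023 : CertN 0 536870912 1610612736 536870912 134217728 67108864 3 false true false .up 0 2 3
    ndN1q0 ndN2q3 pcN2 Cut.none Ext.none :=
  certN0 (fam := false) (s1 := true) (s2 := false) (a := 0) (b := 2) (c := 3) (cn := .up) (n1 := ndN1q0) (n2 := ndN2q3) (pc := pcN2) (cut := Cut.none) (xt := Ext.none) (P1 := 0) (W1 := 536870912) (P2 := 1610612736) (W2 := 536870912) (P3 := 134217728) (W3 := 67108864) (N0 := 3)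
    rfl k0_pm_023

noncomputable def f_pm_033 : ℕ → ℕ → ℕ → ℕ → Bool := onCell 0 536870912 1610612736 536870912 134217728 67108864
    (rowN 3 0 false true false .pnn 0 3 3 (qsf 0 536870912 1610612736 536870912 3) ndN1q0 ndN2q3 pcN3 Cut.none Ext.none)

def k0_pm_033 : ∃ t, chk3 f_pm_033 t 1 1 1 = true :=
  ⟨(a (l 4) (b (a (l 4) (l 1)) (b (l 4) (a (l 4) (l 4))))), by decide +kernel⟩

theorem c_pm_033 : CertN 0 536870912 1610612736 536870912 134217728 67108864 3 false true false .pnn 0 3 3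
    ndN1q0 ndN2q3 pcN3 Cut.none Ext.none :=
  certN0 (fam := false) (s1 := true) (s2 := false) (a := 0) (b := 3) (c := 3) (cn := .pnn) (n1 := ndN1q0) (n2 := ndN2q3) (pc := pcN3) (cut := Cut.none) (xt := Ext.none) (P1 := 0) (W1 := 536870912) (P2 := 1610612736) (W2 := 536870912) (P3 := 134217728) (W3 := 67108864) (N0 := 3)
    rfl k0_pm_033

noncomputable def f_pm_101 : ℕ → ℕ → ℕ → ℕ → Bool := onCell 536870912 536870912 536870912 536870912 134217728 67108864
    (rowN 3 0 false true false .npn 1 0 1 (qsf 536870912 536870912 536870912 536870912 0) ndN1q1 ndN2q1 pcN0 Cut.none Ext.none)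

def k0_pm_101 : ∃ t, chk3 f_pm_101 t 1 1 1 = true :=
  ⟨(l 4), by decide +kernel⟩

theorem c_pm_101 : CertN 536870912 536870912 536870912 536870912 134217728 67108864 3 false true false .npn 1 0 1
    ndN1q1 ndN2q1 pcN0 Cut.none Ext.none :=
  certN0 (fam := false) (s1 := true) (s2 := false) (a := 1) (b := 0) (c := 1) (cn := .npn) (n1 := ndN1q1) (n2 := ndN2q1) (pc := pcN0) (cut := Cut.none) (xt := Ext.none) (P1 := 536870912) (W1 := 536870912) (P2 := 536870912) (W2 := 536870912) (P3 := 134217728) (W3 := 67108864) (N0 := 3)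
    rfl k0_pm_101

noncomputable def f_pm_102_a : ℕ → ℕ → ℕ → ℕ → Bool := onCell 536870912 536870912 0 536870912 134217728 67108864
    (rowN 3 0 false true false .npp 1 0 2 (qsf 536870912 536870912 0 536870912 0) ndN1q1 ndN2q2a pcN0 Cut.none Ext.none)

def k0_pm_102_a : ∃ t, chk3 f_pm_102_a t 1 1 1 = true :=
  ⟨(a (b (a (a (l 2) (l 17696328)) (l 17742600)) (a (b (a (l 2) (l 17886792)) (a (l 18028344) (l 17970272))) (b (l 17758760) (l 17900440)))) (b (a (l 17459720) (l 17655040)) (a (b (l 17669256) (l 17850936)) (b (l 17781464) (l 17859400))))), by decide +kernel⟩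

theorem c_pm_102_a : CertN 536870912 536870912 0 536870912 134217728 67108864 3 false true false .npp 1 0 2
    ndN1q1 ndN2q2a pcN0 Cut.none Ext.none :=
  certN0 (fam := false) (s1 := true) (s2 := false) (a := 1) (b := 0) (c := 2) (cn := .npp) (n1 := ndN1q1) (n2 := ndN2q2a) (pc := pcN0) (cut := Cut.none) (xt := Ext.none) (P1 := 536870912) (W1 := 536870912) (P2 := 0) (W2 := 536870912) (P3 := 134217728) (W3 := 67108864) (N0 := 3)
    rfl k0_pm_102_a

noncomputable def f_pm_102_b : ℕ → ℕ → ℕ → ℕ → Bool := onCell 536870912 536870912 1239849684 370763052 134217728 67108864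
    (rowN 3 0 false true false .npp 1 0 2 (qsf 536870912 536870912 1239849684 370763052 0) ndN1q1 ndN2q2b pcN0 Cut.none Ext.none)

def k0_pm_102_b : ∃ t, chk3 f_pm_102_b t 1 1 1 = true :=
  ⟨(a (b (a (l 2) (b (a (l 17291056) (l 17276376)) (a (l 2) (l 17096488)))) (l 2)) (b (a (b (l 17331408) (l 17196768)) (b (l 17488488) (l 17485488))) (a (l 17303376) (a (l 17534664) (l 17721320))))), by decide +kernel⟩

theorem c_pm_102_b : CertN 536870912 536870912 1239849684 370763052 134217728 67108864 3 false true false .npp 1 0 2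
    ndN1q1 ndN2q2b pcN0 Cut.none Ext.none :=
  certN0 (fam := false) (s1 := true) (s2 := false) (a := 1) (b := 0) (c := 2) (cn := .npp) (n1 := ndN1q1) (n2 := ndN2q2b) (pc := pcN0) (cut := Cut.none) (xt := Ext.none) (P1 := 536870912) (W1 := 536870912) (P2 := 1239849684) (W2 := 370763052) (P3 := 134217728) (W3 := 67108864) (N0 := 3)
    rfl k0_pm_102_b

noncomputable def f_pm_112_a : ℕ → ℕ → ℕ → ℕ → Bool := onCell 536870912 536870912 0 536870912 134217728 67108864
    (rowN 3 2 false true false .dn 1 1 2 (qsf 536870912 536870912 0 536870912 1) ndN1q1 ndN2q2a pcN1 Cut.none Ext.none)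

def k0_pm_112_a : ∃ t, chk3 f_pm_112_a t 1 1 1 = true :=
  ⟨(a (b (l 123517728839) (a (l 18313192) (l 397320748231))) (l 1)), by decide +kernel⟩

theorem c_pm_112_a : CertN 536870912 536870912 0 536870912 134217728 67108864 3 false true false .dn 1 1 2
    ndN1q1 ndN2q2a pcN1 Cut.none Ext.none :=
  certN2 (fam := false) (s1 := true) (s2 := false) (a := 1) (b := 1) (c := 2) (cn := .dn) (n1 := ndN1q1) (n2 := ndN2q2a) (pc := pcN1) (cut := Cut.none) (xt := Ext.none) (P1 := 536870912) (W1 := 536870912) (P2 := 0) (W2 := 536870912) (P3 := 134217728) (W3 := 67108864) (N0 := 3)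
    rfl (fun _ => rfl) k0_pm_112_a

noncomputable def f_pm_112_b : ℕ → ℕ → ℕ → ℕ → Bool := onCell 536870912 536870912 1239849684 370763052 134217728 67108864
    (rowN 3 2 false true false .dn 1 1 2 (qsf 536870912 536870912 1239849684 370763052 1) ndN1q1 ndN2q2b pcN1 Cut.none Ext.none)

def k0_pm_112_b : ∃ t, chk3 f_pm_112_b t 1 1 1 = true :=
  ⟨(a (a (b (l 18400104) (l 18071648)) (b (l 18556816) (l 18452384))) (b (a (l 18718768) (l 1)) (a (a (l 18557928) (l 18709624)) (a (l 420944608871) (l 18976664))))), by decide +kernel⟩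

theorem c_pm_112_b : CertN 536870912 536870912 1239849684 370763052 134217728 67108864 3 false true false .dn 1 1 2
    ndN1q1 ndN2q2b pcN1 Cut.none Ext.none :=
  certN2 (fam := false) (s1 := true) (s2 := false) (a := 1) (b := 1) (c := 2) (cn := .dn) (n1 := ndN1q1) (n2 := ndN2q2b) (pc := pcN1) (cut := Cut.none) (xt := Ext.none) (P1 := 536870912) (W1 := 536870912) (P2 := 1239849684) (W2 := 370763052) (P3 := 134217728) (W3 := 67108864) (N0 := 3)
    rfl (fun _ => rfl) k0_pm_112_b

noncomputable def f_pm_113 : ℕ → ℕ → ℕ → ℕ → Bool := onCell 536870912 536870912 536870912 536870912 134217728 67108864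
    (rowN 3 1 false true false .nn 1 1 3 (qsf 536870912 536870912 1610612736 536870912 1) ndN1q1 ndN2q3 pcN1 Cut.none Ext.none)

def k0_pm_113 : ∃ t, chk3 f_pm_113 t 1 1 1 = true :=
  ⟨(a (b (b (l 1) (l 389805063415)) (b (b (l 18359376) (l 18295352)) (b (b (l 18311064) (l 18335256)) (l 18384864)))) (b (b (a (l 17808104) (l 17640856)) (a (l 17708328) (l 17369256))) (a (b (b (l 17706016) (l 17713528)) (b (l 17784880) (l 17754192))) (b (l 17240616) (l 17157440))))), by decide +kernel⟩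

theorem c_pm_113 : CertN 536870912 536870912 1610612736 536870912 134217728 67108864 3 false true false .nn 1 1 3
    ndN1q1 ndN2q3 pcN1 Cut.none Ext.none :=
  certN1 (fam := false) (s1 := true) (s2 := false) (a := 1) (b := 1) (c := 3) (cn := .nn) (n1 := ndN1q1) (n2 := ndN2q3) (pc := pcN1) (cut := Cut.none) (xt := Ext.none) (P1 := 536870912) (W1 := 536870912) (P2 := 1610612736) (W2 := 536870912) (P3 := 134217728) (W3 := 67108864) (N0 := 3)
    rfl (fun _ => rfl) k0_pm_113

noncomputable def f_pm_123 : ℕ → ℕ → ℕ → ℕ → Bool := onCell 1073741824 536870912 1610612736 536870912 134217728 67108864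
    (rowN 3 2 false true false .npn 1 2 3 (qsf 536870912 536870912 1610612736 536870912 2) ndN1q1 ndN2q3 pcN2 Cut.none Ext.none)

def k0_pm_123 : ∃ t, chk3 f_pm_123 t 1 1 1 = true :=
  ⟨(b (a (a (l 18389064) (l 18227360)) (l 4)) (a (a (a (l 17636976) (a (a (l 17696400) (l 17702368)) (l 17706856))) (l 17660272)) (a (l 17520584) (l 17361952)))), by decide +kernel⟩

theorem c_pm_123 : CertN 536870912 536870912 1610612736 536870912 134217728 67108864 3 false true false .npn 1 2 3
    ndN1q1 ndN2q3 pcN2 Cut.none Ext.none :=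
  certN2 (fam := false) (s1 := true) (s2 := false) (a := 1) (b := 2) (c := 3) (cn := .npn) (n1 := ndN1q1) (n2 := ndN2q3) (pc := pcN2) (cut := Cut.none) (xt := Ext.none) (P1 := 536870912) (W1 := 536870912) (P2 := 1610612736) (W2 := 536870912) (P3 := 134217728) (W3 := 67108864) (N0 := 3)
    rfl (fun _ => rfl) k0_pm_123

noncomputable def f_pm_133 : ℕ → ℕ → ℕ → ℕ → Bool := onCell 1610612736 536870912 1610612736 536870912 134217728 67108864
    (rowN 3 2 false true false .dn 1 3 3 (qsf 536870912 536870912 1610612736 536870912 3) ndN1q1 ndN2q3 pcN3 Cut.none Ext.none)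

def k0_pm_133 : ∃ t, chk3 f_pm_133 t 1 1 1 = true :=
  ⟨(a (b (l 1) (a (b (l 1) (l 4)) (l 1))) (l 1)), by decide +kernel⟩

theorem c_pm_133 : CertN 536870912 536870912 1610612736 536870912 134217728 67108864 3 false true false .dn 1 3 3
    ndN1q1 ndN2q3 pcN3 Cut.none Ext.none :=
  certN2 (fam := false) (s1 := true) (s2 := false) (a := 1) (b := 3) (c := 3) (cn := .dn) (n1 := ndN1q1) (n2 := ndN2q3) (pc := pcN3) (cut := Cut.none) (xt := Ext.none) (P1 := 536870912) (W1 := 536870912) (P2 := 1610612736) (W2 := 536870912) (P3 := 134217728) (W3 := 67108864) (N0 := 3)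
    rfl (fun _ => rfl) k0_pm_133

noncomputable def cut_pm_202_aa : Cut := Cut.of [[⟨0, 1, 0, 67108864⟩, ⟨1, 0, 0, 67108864⟩, ⟨2, 1, 0, 67108864⟩]]

noncomputable def f_pm_202_aa : ℕ → ℕ → ℕ → ℕ → Bool := onCell 0 536870912 0 536870912 134217728 67108864
    (rowN 3 0 false true false .pp 2 0 2 (qsf 0 536870912 0 536870912 0) ndN1q2a ndN2q2a pcN0 cut_pm_202_aa Ext.none)

def k0_pm_202_aa : ∃ t, chk3 f_pm_202_aa t 1 1 1 = true :=
  ⟨(a (l 3) (b (l 3) (b (l 3) (b (l 3) (a (l 1) (a (l 3) (l 6))))))), by decide +kernel⟩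

theorem c_pm_202_aa : CertN 0 536870912 0 536870912 134217728 67108864 3 false true false .pp 2 0 2
    ndN1q2a ndN2q2a pcN0 cut_pm_202_aa Ext.none :=
  certN0 (fam := false) (s1 := true) (s2 := false) (a := 2) (b := 0) (c := 2) (cn := .pp) (n1 := ndN1q2a) (n2 := ndN2q2a) (pc := pcN0) (cut := cut_pm_202_aa) (xt := Ext.none) (P1 := 0) (W1 := 536870912) (P2 := 0) (W2 := 536870912) (P3 := 134217728) (W3 := 67108864) (N0 := 3)
    rfl k0_pm_202_aa

noncomputable def cut_pm_202_ab : Cut := Cut.of [[⟨0, 1, 0, 67108864⟩, ⟨1, 0, 0, 67108864⟩, ⟨2, 1, 0, 67108864⟩]]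

noncomputable def f_pm_202_ab : ℕ → ℕ → ℕ → ℕ → Bool := onCell 0 536870912 1239849684 370763052 134217728 67108864
    (rowN 3 0 false true false .pp 2 0 2 (qsf 0 536870912 1239849684 370763052 0) ndN1q2a ndN2q2b pcN0 cut_pm_202_ab Ext.none)

def k0_pm_202_ab : ∃ t, chk3 f_pm_202_ab t 1 1 1 = true :=
  ⟨(b (l 3) (l 3)), by decide +kernel⟩

theorem c_pm_202_ab : CertN 0 536870912 1239849684 370763052 134217728 67108864 3 false true false .pp 2 0 2
    ndN1q2a ndN2q2b pcN0 cut_pm_202_ab Ext.none :=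
  certN0 (fam := false) (s1 := true) (s2 := false) (a := 2) (b := 0) (c := 2) (cn := .pp) (n1 := ndN1q2a) (n2 := ndN2q2b) (pc := pcN0) (cut := cut_pm_202_ab) (xt := Ext.none) (P1 := 0) (W1 := 536870912) (P2 := 1239849684) (W2 := 370763052) (P3 := 134217728) (W3 := 67108864) (N0 := 3)
    rfl k0_pm_202_ab

noncomputable def cut_pm_202_ba : Cut := Cut.of [[⟨0, 1, 0, 67108864⟩, ⟨1, 0, 0, 67108864⟩, ⟨2, 1, 0, 67108864⟩]]

noncomputable def f_pm_202_ba : ℕ → ℕ → ℕ → ℕ → Bool := onCell 1239849684 370763052 0 536870912 134217728 67108864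
    (rowN 3 0 false true false .pp 2 0 2 (qsf 1239849684 370763052 0 536870912 0) ndN1q2b ndN2q2a pcN0 cut_pm_202_ba Ext.none)

def k0_pm_202_ba : ∃ t, chk3 f_pm_202_ba t 1 1 1 = true :=
  ⟨(l 3), by decide +kernel⟩

theorem c_pm_202_ba : CertN 1239849684 370763052 0 536870912 134217728 67108864 3 false true false .pp 2 0 2
    ndN1q2b ndN2q2a pcN0 cut_pm_202_ba Ext.none :=
  certN0 (fam := false) (s1 := true) (s2 := false) (a := 2) (b := 0) (c := 2) (cn := .pp) (n1 := ndN1q2b) (n2 := ndN2q2a) (pc := pcN0) (cut := cut_pm_202_ba) (xt := Ext.none) (P1 := 1239849684) (W1 := 370763052) (P2 := 0) (W2 := 536870912) (P3 := 134217728) (W3 := 67108864) (N0 := 3)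
    rfl k0_pm_202_ba

noncomputable def cut_pm_202_bb : Cut := Cut.of [[⟨0, 1, 0, 67108864⟩, ⟨1, 0, 0, 67108864⟩, ⟨2, 1, 0, 67108864⟩]]

noncomputable def f_pm_202_bb : ℕ → ℕ → ℕ → ℕ → Bool := onCell 1239849684 370763052 1239849684 370763052 134217728 67108864
    (rowN 3 0 false true false .pp 2 0 2 (qsf 1239849684 370763052 1239849684 370763052 0) ndN1q2b ndN2q2b pcN0 cut_pm_202_bb Ext.none)

def k0_pm_202_bb : ∃ t, chk3 f_pm_202_bb t 1 1 1 = true :=
  ⟨(l 3), by decide +kernel⟩

theorem c_pm_202_bb : CertN 1239849684 370763052 1239849684 370763052 134217728 67108864 3 false true false .pp 2 0 2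
    ndN1q2b ndN2q2b pcN0 cut_pm_202_bb Ext.none :=
  certN0 (fam := false) (s1 := true) (s2 := false) (a := 2) (b := 0) (c := 2) (cn := .pp) (n1 := ndN1q2b) (n2 := ndN2q2b) (pc := pcN0) (cut := cut_pm_202_bb) (xt := Ext.none) (P1 := 1239849684) (W1 := 370763052) (P2 := 1239849684) (W2 := 370763052) (P3 := 134217728) (W3 := 67108864) (N0 := 3)
    rfl k0_pm_202_bb

noncomputable def f_pm_203_a : ℕ → ℕ → ℕ → ℕ → Bool := onCell 0 536870912 0 536870912 134217728 67108864
    (rowN 3 1 false true false .up 2 0 3 (qsf 0 536870912 1610612736 536870912 0) ndN1q2a ndN2q3 pcN0 Cut.none Ext.none)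

def k0_pm_203_a : ∃ t, chk3 f_pm_203_a t 1 1 1 = true :=
  ⟨(b (l 1) (l 3)), by decide +kernel⟩

theorem c_pm_203_a : CertN 0 536870912 1610612736 536870912 134217728 67108864 3 false true false .up 2 0 3
    ndN1q2a ndN2q3 pcN0 Cut.none Ext.none :=
  certN1 (fam := false) (s1 := true) (s2 := false) (a := 2) (b := 0) (c := 3) (cn := .up) (n1 := ndN1q2a) (n2 := ndN2q3) (pc := pcN0) (cut := Cut.none) (xt := Ext.none) (P1 := 0) (W1 := 536870912) (P2 := 1610612736) (W2 := 536870912) (P3 := 134217728) (W3 := 67108864) (N0 := 3)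
    rfl (fun _ => rfl) k0_pm_203_a

noncomputable def f_pm_203_b : ℕ → ℕ → ℕ → ℕ → Bool := onCell 1239849684 370763052 1610612736 536870912 134217728 67108864
    (rowN 3 0 false true false .up 2 0 3 (qsf 1239849684 370763052 1610612736 536870912 0) ndN1q2b ndN2q3 pcN0 Cut.none Ext.none)

def k0_pm_203_b : ∃ t, chk3 f_pm_203_b t 1 1 1 = true :=
  ⟨(l 3), by decide +kernel⟩

theorem c_pm_203_b : CertN 1239849684 370763052 1610612736 536870912 134217728 67108864 3 false true false .up 2 0 3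
    ndN1q2b ndN2q3 pcN0 Cut.none Ext.none :=
  certN0 (fam := false) (s1 := true) (s2 := false) (a := 2) (b := 0) (c := 3) (cn := .up) (n1 := ndN1q2b) (n2 := ndN2q3) (pc := pcN0) (cut := Cut.none) (xt := Ext.none) (P1 := 1239849684) (W1 := 370763052) (P2 := 1610612736) (W2 := 536870912) (P3 := 134217728) (W3 := 67108864) (N0 := 3)
    rfl k0_pm_203_b

noncomputable def cut_pm_213_a : Cut := Cut.of [[⟨0, 1, 0, 39843005⟩, ⟨1, 1, 0, 39843005⟩, ⟨2, 2, 0, 5814905⟩]]

noncomputable def f_pm_213_a : ℕ → ℕ → ℕ → ℕ → Bool := onCell 0 536870912 1610612736 536870912 134217728 67108864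
    (rowN 3 0 false true false .pnn 2 1 3 (qsf 0 536870912 1610612736 536870912 1) ndN1q2a ndN2q3 pcN1 cut_pm_213_a Ext.none)

def k0_pm_213_a : ∃ t, chk3 f_pm_213_a t 1 1 1 = true :=
  ⟨(a (l 3) (a (l 3) (b (l 3) (b (l 3) (b (l 3) (a (l 3) (a (l 3) (b (l 3) (a (l 3) (b (l 3) (b (l 3) (b (l 3) (l 6))))))))))))), by decide +kernel⟩

theorem c_pm_213_a : CertN 0 536870912 1610612736 536870912 134217728 67108864 3 false true false .pnn 2 1 3
    ndN1q2a ndN2q3 pcN1 cut_pm_213_a Ext.none :=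
  certN0 (fam := false) (s1 := true) (s2 := false) (a := 2) (b := 1) (c := 3) (cn := .pnn) (n1 := ndN1q2a) (n2 := ndN2q3) (pc := pcN1) (cut := cut_pm_213_a) (xt := Ext.none) (P1 := 0) (W1 := 536870912) (P2 := 1610612736) (W2 := 536870912) (P3 := 134217728) (W3 := 67108864) (N0 := 3)
    rfl k0_pm_213_a

noncomputable def cut_pm_213_b : Cut := Cut.of [[⟨0, 1, 0, 39843005⟩, ⟨1, 1, 0, 39843005⟩, ⟨2, 2, 0, 5814905⟩]]

noncomputable def f_pm_213_b : ℕ → ℕ → ℕ → ℕ → Bool := onCell 1239849684 370763052 1610612736 536870912 134217728 67108864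
    (rowN 3 0 false true false .pnn 2 1 3 (qsf 1239849684 370763052 1610612736 536870912 1) ndN1q2b ndN2q3 pcN1 cut_pm_213_b Ext.none)

def k0_pm_213_b : ∃ t, chk3 f_pm_213_b t 1 1 1 = true :=
  ⟨(l 3), by decide +kernel⟩

theorem c_pm_213_b : CertN 1239849684 370763052 1610612736 536870912 134217728 67108864 3 false true false .pnn 2 1 3
    ndN1q2b ndN2q3 pcN1 cut_pm_213_b Ext.none :=
  certN0 (fam := false) (s1 := true) (s2 := false) (a := 2) (b := 1) (c := 3) (cn := .pnn) (n1 := ndN1q2b) (n2 := ndN2q3) (pc := pcN1) (cut := cut_pm_213_b) (xt := Ext.none) (P1 := 1239849684) (W1 := 370763052) (P2 := 1610612736) (W2 := 536870912) (P3 := 134217728) (W3 := 67108864) (N0 := 3)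
    rfl k0_pm_213_b

noncomputable def f_pm_303 : ℕ → ℕ → ℕ → ℕ → Bool := onCell 1610612736 536870912 1610612736 536870912 134217728 67108864
    (rowN 3 0 false true false .npn 3 0 3 (qsf 1610612736 536870912 1610612736 536870912 0) ndN1q3 ndN2q3 pcN0 Cut.none Ext.none)

def k0_pm_303 : ∃ t, chk3 f_pm_303 t 1 1 1 = true :=
  ⟨(l 3), by decide +kernel⟩

theorem c_pm_303 : CertN 1610612736 536870912 1610612736 536870912 134217728 67108864 3 false true false .npn 3 0 3
    ndN1q3 ndN2q3 pcN0 Cut.none Ext.none :=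
  certN0 (fam := false) (s1 := true) (s2 := false) (a := 3) (b := 0) (c := 3) (cn := .npn) (n1 := ndN1q3) (n2 := ndN2q3) (pc := pcN0) (cut := Cut.none) (xt := Ext.none) (P1 := 1610612736) (W1 := 536870912) (P2 := 1610612736) (W2 := 536870912) (P3 := 134217728) (W3 := 67108864) (N0 := 3)
    rfl k0_pm_303

noncomputable def f_pm_313 : ℕ → ℕ → ℕ → ℕ → Bool := onCell 1610612736 536870912 1610612736 536870912 134217728 67108864
    (rowN 3 0 false true false .dn 3 1 3 (qsf 1610612736 536870912 1610612736 536870912 1) ndN1q3 ndN2q3 pcN1 Cut.none Ext.none)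

def k0_pm_313 : ∃ t, chk3 f_pm_313 t 1 1 1 = true :=
  ⟨(l 3), by decide +kernel⟩

theorem c_pm_313 : CertN 1610612736 536870912 1610612736 536870912 134217728 67108864 3 false true false .dn 3 1 3
    ndN1q3 ndN2q3 pcN1 Cut.none Ext.none :=
  certN0 (fam := false) (s1 := true) (s2 := false) (a := 3) (b := 1) (c := 3) (cn := .dn) (n1 := ndN1q3) (n2 := ndN2q3) (pc := pcN1) (cut := Cut.none) (xt := Ext.none) (P1 := 1610612736) (W1 := 536870912) (P2 := 1610612736) (W2 := 536870912) (P3 := 134217728) (W3 := 67108864) (N0 := 3)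
    rfl k0_pm_313

noncomputable def f_mm_001 : ℕ → ℕ → ℕ → ℕ → Bool := onCell 0 536870912 0 536870912 134217728 67108864
    (rowN 3 1 false false false .up 0 0 1 (qsf 0 536870912 536870912 536870912 0) ndN1q0 ndN2q1 pcN0 Cut.none Ext.none)

def k0_mm_001 : ∃ t, chk3 f_mm_001 t 1 1 1 = true :=
  ⟨(l 3), by decide +kernel⟩

theorem c_mm_001 : CertN 0 536870912 536870912 536870912 134217728 67108864 3 false false false .up 0 0 1
    ndN1q0 ndN2q1 pcN0 Cut.none Ext.none :=
  certN1 (fam := false) (s1 := false) (s2 := false) (a := 0) (b := 0) (c := 1) (cn := .up) (n1 := ndN1q0) (n2 := ndN2q1) (pc := pcN0) (cut := Cut.none) (xt := Ext.none) (P1 := 0) (W1 := 536870912) (P2 := 536870912) (W2 := 536870912) (P3 := 134217728) (W3 := 67108864) (N0 := 3)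
    rfl (fun _ => rfl) k0_mm_001

noncomputable def f_mm_011 : ℕ → ℕ → ℕ → ℕ → Bool := onCell 0 536870912 536870912 536870912 134217728 67108864
    (rowN 3 1 false false false .pnn 0 1 1 (qsf 0 536870912 536870912 536870912 1) ndN1q0 ndN2q1 pcN1 Cut.none Ext.none)

def k0_mm_011 : ∃ t, chk3 f_mm_011 t 1 1 1 = true :=
  ⟨(l 5), by decide +kernel⟩

theorem c_mm_011 : CertN 0 536870912 536870912 536870912 134217728 67108864 3 false false false .pnn 0 1 1
    ndN1q0 ndN2q1 pcN1 Cut.none Ext.none :=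
  certN1 (fam := false) (s1 := false) (s2 := false) (a := 0) (b := 1) (c := 1) (cn := .pnn) (n1 := ndN1q0) (n2 := ndN2q1) (pc := pcN1) (cut := Cut.none) (xt := Ext.none) (P1 := 0) (W1 := 536870912) (P2 := 536870912) (W2 := 536870912) (P3 := 134217728) (W3 := 67108864) (N0 := 3)
    rfl (fun _ => rfl) k0_mm_011

noncomputable def f_mm_012_a : ℕ → ℕ → ℕ → ℕ → Bool := onCell 0 536870912 0 536870912 134217728 67108864
    (rowN 3 0 false false false .pnp 0 1 2 (qsf 0 536870912 0 536870912 1) ndN1q0 ndN2q2a pcN1 Cut.none Ext.none)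

def k0_mm_012_a : ∃ t, chk3 f_mm_012_a t 1 1 1 = true :=
  ⟨(l 5), by decide +kernel⟩

theorem c_mm_012_a : CertN 0 536870912 0 536870912 134217728 67108864 3 false false false .pnp 0 1 2
    ndN1q0 ndN2q2a pcN1 Cut.none Ext.none :=
  certN0 (fam := false) (s1 := false) (s2 := false) (a := 0) (b := 1) (c := 2) (cn := .pnp) (n1 := ndN1q0) (n2 := ndN2q2a) (pc := pcN1) (cut := Cut.none) (xt := Ext.none) (P1 := 0) (W1 := 536870912) (P2 := 0) (W2 := 536870912) (P3 := 134217728) (W3 := 67108864) (N0 := 3)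
    rfl k0_mm_012_a

noncomputable def f_mm_012_b : ℕ → ℕ → ℕ → ℕ → Bool := onCell 0 536870912 1239849684 370763052 134217728 67108864
    (rowN 3 0 false false false .pnp 0 1 2 (qsf 0 536870912 1239849684 370763052 1) ndN1q0 ndN2q2b pcN1 Cut.none Ext.none)

def k0_mm_012_b : ∃ t, chk3 f_mm_012_b t 1 1 1 = true :=
  ⟨(l 5), by decide +kernel⟩

theorem c_mm_012_b : CertN 0 536870912 1239849684 370763052 134217728 67108864 3 false false false .pnp 0 1 2
    ndN1q0 ndN2q2b pcN1 Cut.none Ext.none :=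
  certN0 (fam := false) (s1 := false) (s2 := false) (a := 0) (b := 1) (c := 2) (cn := .pnp) (n1 := ndN1q0) (n2 := ndN2q2b) (pc := pcN1) (cut := Cut.none) (xt := Ext.none) (P1 := 0) (W1 := 536870912) (P2 := 1239849684) (W2 := 370763052) (P3 := 134217728) (W3 := 67108864) (N0 := 3)
    rfl k0_mm_012_b

noncomputable def f_mm_022_a : ℕ → ℕ → ℕ → ℕ → Bool := onCell 0 536870912 0 536870912 134217728 67108864
    (rowN 3 0 false false false .pp 0 2 2 (qsf 0 536870912 0 536870912 2) ndN1q0 ndN2q2a pcN2 Cut.none Ext.none)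

def k0_mm_022_a : ∃ t, chk3 f_mm_022_a t 1 1 1 = true :=
  ⟨(l 5), by decide +kernel⟩

theorem c_mm_022_a : CertN 0 536870912 0 536870912 134217728 67108864 3 false false false .pp 0 2 2
    ndN1q0 ndN2q2a pcN2 Cut.none Ext.none :=
  certN0 (fam := false) (s1 := false) (s2 := false) (a := 0) (b := 2) (c := 2) (cn := .pp) (n1 := ndN1q0) (n2 := ndN2q2a) (pc := pcN2) (cut := Cut.none) (xt := Ext.none) (P1 := 0) (W1 := 536870912) (P2 := 0) (W2 := 536870912) (P3 := 134217728) (W3 := 67108864) (N0 := 3)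
    rfl k0_mm_022_a

noncomputable def f_mm_022_b : ℕ → ℕ → ℕ → ℕ → Bool := onCell 0 536870912 1239849684 370763052 134217728 67108864
    (rowN 3 0 false false false .pp 0 2 2 (qsf 0 536870912 1239849684 370763052 2) ndN1q0 ndN2q2b pcN2 Cut.none Ext.none)

def k0_mm_022_b : ∃ t, chk3 f_mm_022_b t 1 1 1 = true :=
  ⟨(l 5), by decide +kernel⟩

theorem c_mm_022_b : CertN 0 536870912 1239849684 370763052 134217728 67108864 3 false false false .pp 0 2 2
    ndN1q0 ndN2q2b pcN2 Cut.none Ext.none :=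
  certN0 (fam := false) (s1 := false) (s2 := false) (a := 0) (b := 2) (c := 2) (cn := .pp) (n1 := ndN1q0) (n2 := ndN2q2b) (pc := pcN2) (cut := Cut.none) (xt := Ext.none) (P1 := 0) (W1 := 536870912) (P2 := 1239849684) (W2 := 370763052) (P3 := 134217728) (W3 := 67108864) (N0 := 3)
    rfl k0_mm_022_b

noncomputable def f_mm_023 : ℕ → ℕ → ℕ → ℕ → Bool := onCell 0 536870912 1610612736 536870912 134217728 67108864
    (rowN 3 0 false false false .up 0 2 3 (qsf 0 536870912 1610612736 536870912 2) ndN1q0 ndN2q3 pcN2 Cut.none Ext.none)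

def k0_mm_023 : ∃ t, chk3 f_mm_023 t 1 1 1 = true :=
  ⟨(l 5), by decide +kernel⟩

theorem c_mm_023 : CertN 0 536870912 1610612736 536870912 134217728 67108864 3 false false false .up 0 2 3
    ndN1q0 ndN2q3 pcN2 Cut.none Ext.none :=
  certN0 (fam := false) (s1 := false) (s2 := false) (a := 0) (b := 2) (c := 3) (cn := .up) (n1 := ndN1q0) (n2 := ndN2q3) (pc := pcN2) (cut := Cut.none) (xt := Ext.none) (P1 := 0) (W1 := 536870912) (P2 := 1610612736) (W2 := 536870912) (P3 := 134217728) (W3 := 67108864) (N0 := 3)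
    rfl k0_mm_023

noncomputable def f_mm_033 : ℕ → ℕ → ℕ → ℕ → Bool := onCell 0 536870912 1610612736 536870912 134217728 67108864
    (rowN 3 0 false false false .pnn 0 3 3 (qsf 0 536870912 1610612736 536870912 3) ndN1q0 ndN2q3 pcN3 Cut.none Ext.none)

def k0_mm_033 : ∃ t, chk3 f_mm_033 t 1 1 1 = true :=
  ⟨(l 5), by decide +kernel⟩

theorem c_mm_033 : CertN 0 536870912 1610612736 536870912 134217728 67108864 3 false false false .pnn 0 3 3
    ndN1q0 ndN2q3 pcN3 Cut.none Ext.none :=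
  certN0 (fam := false) (s1 := false) (s2 := false) (a := 0) (b := 3) (c := 3) (cn := .pnn) (n1 := ndN1q0) (n2 := ndN2q3) (pc := pcN3) (cut := Cut.none) (xt := Ext.none) (P1 := 0) (W1 := 536870912) (P2 := 1610612736) (W2 := 536870912) (P3 := 134217728) (W3 := 67108864) (N0 := 3)
    rfl k0_mm_033

noncomputable def f_mm_101 : ℕ → ℕ → ℕ → ℕ → Bool := onCell 536870912 536870912 536870912 536870912 134217728 67108864
    (rowN 3 0 false false false .npn 1 0 1 (qsf 536870912 536870912 536870912 536870912 0) ndN1q1 ndN2q1 pcN0 Cut.none Ext.none)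

def k0_mm_101 : ∃ t, chk3 f_mm_101 t 1 1 1 = true :=
  ⟨(l 3), by decide +kernel⟩

theorem c_mm_101 : CertN 536870912 536870912 536870912 536870912 134217728 67108864 3 false false false .npn 1 0 1
    ndN1q1 ndN2q1 pcN0 Cut.none Ext.none :=
  certN0 (fam := false) (s1 := false) (s2 := false) (a := 1) (b := 0) (c := 1) (cn := .npn) (n1 := ndN1q1) (n2 := ndN2q1) (pc := pcN0) (cut := Cut.none) (xt := Ext.none) (P1 := 536870912) (W1 := 536870912) (P2 := 536870912) (W2 := 536870912) (P3 := 134217728) (W3 := 67108864) (N0 := 3)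
    rfl k0_mm_101

noncomputable def f_mm_102_a : ℕ → ℕ → ℕ → ℕ → Bool := onCell 536870912 536870912 0 536870912 134217728 67108864
    (rowN 3 0 false false false .npp 1 0 2 (qsf 536870912 536870912 0 536870912 0) ndN1q1 ndN2q2a pcN0 Cut.none Ext.none)

def k0_mm_102_a : ∃ t, chk3 f_mm_102_a t 1 1 1 = true :=
  ⟨(l 3), by decide +kernel⟩

theorem c_mm_102_a : CertN 536870912 536870912 0 536870912 134217728 67108864 3 false false false .npp 1 0 2
    ndN1q1 ndN2q2a pcN0 Cut.none Ext.none :=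
  certN0 (fam := false) (s1 := false) (s2 := false) (a := 1) (b := 0) (c := 2) (cn := .npp) (n1 := ndN1q1) (n2 := ndN2q2a) (pc := pcN0) (cut := Cut.none) (xt := Ext.none) (P1 := 536870912) (W1 := 536870912) (P2 := 0) (W2 := 536870912) (P3 := 134217728) (W3 := 67108864) (N0 := 3)
    rfl k0_mm_102_a

noncomputable def f_mm_102_b : ℕ → ℕ → ℕ → ℕ → Bool := onCell 536870912 536870912 1239849684 370763052 134217728 67108864
    (rowN 3 0 false false false .npp 1 0 2 (qsf 536870912 536870912 1239849684 370763052 0) ndN1q1 ndN2q2b pcN0 Cut.none Ext.none)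

def k0_mm_102_b : ∃ t, chk3 f_mm_102_b t 1 1 1 = true :=
  ⟨(l 5), by decide +kernel⟩

theorem c_mm_102_b : CertN 536870912 536870912 1239849684 370763052 134217728 67108864 3 false false false .npp 1 0 2
    ndN1q1 ndN2q2b pcN0 Cut.none Ext.none :=
  certN0 (fam := false) (s1 := false) (s2 := false) (a := 1) (b := 0) (c := 2) (cn := .npp) (n1 := ndN1q1) (n2 := ndN2q2b) (pc := pcN0) (cut := Cut.none) (xt := Ext.none) (P1 := 536870912) (W1 := 536870912) (P2 := 1239849684) (W2 := 370763052) (P3 := 134217728) (W3 := 67108864) (N0 := 3)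
    rfl k0_mm_102_b

noncomputable def f_mm_112_a : ℕ → ℕ → ℕ → ℕ → Bool := onCell 536870912 536870912 0 536870912 134217728 67108864
    (rowN 3 0 false false false .dn 1 1 2 (qsf 536870912 536870912 0 536870912 1) ndN1q1 ndN2q2a pcN1 Cut.none Ext.none)

def k0_mm_112_a : ∃ t, chk3 f_mm_112_a t 1 1 1 = true :=
  ⟨(l 3), by decide +kernel⟩

theorem c_mm_112_a : CertN 536870912 536870912 0 536870912 134217728 67108864 3 false false false .dn 1 1 2
    ndN1q1 ndN2q2a pcN1 Cut.none Ext.none :=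
  certN0 (fam := false) (s1 := false) (s2 := false) (a := 1) (b := 1) (c := 2) (cn := .dn) (n1 := ndN1q1) (n2 := ndN2q2a) (pc := pcN1) (cut := Cut.none) (xt := Ext.none) (P1 := 536870912) (W1 := 536870912) (P2 := 0) (W2 := 536870912) (P3 := 134217728) (W3 := 67108864) (N0 := 3)
    rfl k0_mm_112_a

noncomputable def f_mm_112_b : ℕ → ℕ → ℕ → ℕ → Bool := onCell 536870912 536870912 1239849684 370763052 134217728 67108864
    (rowN 3 0 false false false .dn 1 1 2 (qsf 536870912 536870912 1239849684 370763052 1) ndN1q1 ndN2q2b pcN1 Cut.none Ext.none)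

def k0_mm_112_b : ∃ t, chk3 f_mm_112_b t 1 1 1 = true :=
  ⟨(l 5), by decide +kernel⟩

theorem c_mm_112_b : CertN 536870912 536870912 1239849684 370763052 134217728 67108864 3 false false false .dn 1 1 2
    ndN1q1 ndN2q2b pcN1 Cut.none Ext.none :=
  certN0 (fam := false) (s1 := false) (s2 := false) (a := 1) (b := 1) (c := 2) (cn := .dn) (n1 := ndN1q1) (n2 := ndN2q2b) (pc := pcN1) (cut := Cut.none) (xt := Ext.none) (P1 := 536870912) (W1 := 536870912) (P2 := 1239849684) (W2 := 370763052) (P3 := 134217728) (W3 := 67108864) (N0 := 3)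
    rfl k0_mm_112_b

noncomputable def f_mm_113 : ℕ → ℕ → ℕ → ℕ → Bool := onCell 536870912 536870912 1610612736 536870912 134217728 67108864
    (rowN 3 0 false false false .nn 1 1 3 (qsf 536870912 536870912 1610612736 536870912 1) ndN1q1 ndN2q3 pcN1 Cut.none Ext.none)

def k0_mm_113 : ∃ t, chk3 f_mm_113 t 1 1 1 = true :=
  ⟨(l 5), by decide +kernel⟩

theorem c_mm_113 : CertN 536870912 536870912 1610612736 536870912 134217728 67108864 3 false false false .nn 1 1 3
    ndN1q1 ndN2q3 pcN1 Cut.none Ext.none :=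
  certN0 (fam := false) (s1 := false) (s2 := false) (a := 1) (b := 1) (c := 3) (cn := .nn) (n1 := ndN1q1) (n2 := ndN2q3) (pc := pcN1) (cut := Cut.none) (xt := Ext.none) (P1 := 536870912) (W1 := 536870912) (P2 := 1610612736) (W2 := 536870912) (P3 := 134217728) (W3 := 67108864) (N0 := 3)
    rfl k0_mm_113

noncomputable def f_mm_123 : ℕ → ℕ → ℕ → ℕ → Bool := onCell 536870912 536870912 1610612736 536870912 134217728 67108864
    (rowN 3 0 false false false .npn 1 2 3 (qsf 536870912 536870912 1610612736 536870912 2) ndN1q1 ndN2q3 pcN2 Cut.none Ext.none)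

def k0_mm_123 : ∃ t, chk3 f_mm_123 t 1 1 1 = true :=
  ⟨(l 5), by decide +kernel⟩

theorem c_mm_123 : CertN 536870912 536870912 1610612736 536870912 134217728 67108864 3 false false false .npn 1 2 3
    ndN1q1 ndN2q3 pcN2 Cut.none Ext.none :=
  certN0 (fam := false) (s1 := false) (s2 := false) (a := 1) (b := 2) (c := 3) (cn := .npn) (n1 := ndN1q1) (n2 := ndN2q3) (pc := pcN2) (cut := Cut.none) (xt := Ext.none) (P1 := 536870912) (W1 := 536870912) (P2 := 1610612736) (W2 := 536870912) (P3 := 134217728) (W3 := 67108864) (N0 := 3)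
    rfl k0_mm_123

noncomputable def f_mm_133 : ℕ → ℕ → ℕ → ℕ → Bool := onCell 536870912 536870912 1610612736 536870912 134217728 67108864
    (rowN 3 0 false false false .dn 1 3 3 (qsf 536870912 536870912 1610612736 536870912 3) ndN1q1 ndN2q3 pcN3 Cut.none Ext.none)

def k0_mm_133 : ∃ t, chk3 f_mm_133 t 1 1 1 = true :=
  ⟨(l 5), by decide +kernel⟩

theorem c_mm_133 : CertN 536870912 536870912 1610612736 536870912 134217728 67108864 3 false false false .dn 1 3 3
    ndN1q1 ndN2q3 pcN3 Cut.none Ext.none :=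
  certN0 (fam := false) (s1 := false) (s2 := false) (a := 1) (b := 3) (c := 3) (cn := .dn) (n1 := ndN1q1) (n2 := ndN2q3) (pc := pcN3) (cut := Cut.none) (xt := Ext.none) (P1 := 536870912) (W1 := 536870912) (P2 := 1610612736) (W2 := 536870912) (P3 := 134217728) (W3 := 67108864) (N0 := 3)
    rfl k0_mm_133

noncomputable def f_mm_202_aa : ℕ → ℕ → ℕ → ℕ → Bool := onCell 0 536870912 0 536870912 134217728 67108864
    (rowN 3 0 false false false .pp 2 0 2 (qsf 0 536870912 0 536870912 0) ndN1q2a ndN2q2a pcN0 Cut.none Ext.none)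

def k0_mm_202_aa : ∃ t, chk3 f_mm_202_aa t 1 1 1 = true :=
  ⟨(l 3), by decide +kernel⟩

theorem c_mm_202_aa : CertN 0 536870912 0 536870912 134217728 67108864 3 false false false .pp 2 0 2
    ndN1q2a ndN2q2a pcN0 Cut.none Ext.none :=
  certN0 (fam := false) (s1 := false) (s2 := false) (a := 2) (b := 0) (c := 2) (cn := .pp) (n1 := ndN1q2a) (n2 := ndN2q2a) (pc := pcN0) (cut := Cut.none) (xt := Ext.none) (P1 := 0) (W1 := 536870912) (P2 := 0) (W2 := 536870912) (P3 := 134217728) (W3 := 67108864) (N0 := 3)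
    rfl k0_mm_202_aa

noncomputable def f_mm_202_ab : ℕ → ℕ → ℕ → ℕ → Bool := onCell 0 536870912 1239849684 370763052 134217728 67108864
    (rowN 3 0 false false false .pp 2 0 2 (qsf 0 536870912 1239849684 370763052 0) ndN1q2a ndN2q2b pcN0 Cut.none Ext.none)

def k0_mm_202_ab : ∃ t, chk3 f_mm_202_ab t 1 1 1 = true :=
  ⟨(l 3), by decide +kernel⟩

theorem c_mm_202_ab : CertN 0 536870912 1239849684 370763052 134217728 67108864 3 false false false .pp 2 0 2
    ndN1q2a ndN2q2b pcN0 Cut.none Ext.none :=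
  certN0 (fam := false) (s1 := false) (s2 := false) (a := 2) (b := 0) (c := 2) (cn := .pp) (n1 := ndN1q2a) (n2 := ndN2q2b) (pc := pcN0) (cut := Cut.none) (xt := Ext.none) (P1 := 0) (W1 := 536870912) (P2 := 1239849684) (W2 := 370763052) (P3 := 134217728) (W3 := 67108864) (N0 := 3)
    rfl k0_mm_202_ab

noncomputable def f_mm_202_ba : ℕ → ℕ → ℕ → ℕ → Bool := onCell 1239849684 370763052 0 536870912 134217728 67108864
    (rowN 3 0 false false false .pp 2 0 2 (qsf 1239849684 370763052 0 536870912 0) ndN1q2b ndN2q2a pcN0 Cut.none Ext.none)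

def k0_mm_202_ba : ∃ t, chk3 f_mm_202_ba t 1 1 1 = true :=
  ⟨(l 3), by decide +kernel⟩

theorem c_mm_202_ba : CertN 1239849684 370763052 0 536870912 134217728 67108864 3 false false false .pp 2 0 2
    ndN1q2b ndN2q2a pcN0 Cut.none Ext.none :=
  certN0 (fam := false) (s1 := false) (s2 := false) (a := 2) (b := 0) (c := 2) (cn := .pp) (n1 := ndN1q2b) (n2 := ndN2q2a) (pc := pcN0) (cut := Cut.none) (xt := Ext.none) (P1 := 1239849684) (W1 := 370763052) (P2 := 0) (W2 := 536870912) (P3 := 134217728) (W3 := 67108864) (N0 := 3)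
    rfl k0_mm_202_ba

noncomputable def f_mm_202_bb : ℕ → ℕ → ℕ → ℕ → Bool := onCell 1239849684 370763052 1239849684 370763052 134217728 67108864
    (rowN 3 0 false false false .pp 2 0 2 (qsf 1239849684 370763052 1239849684 370763052 0) ndN1q2b ndN2q2b pcN0 Cut.none Ext.none)

def k0_mm_202_bb : ∃ t, chk3 f_mm_202_bb t 1 1 1 = true :=
  ⟨(l 3), by decide +kernel⟩

theorem c_mm_202_bb : CertN 1239849684 370763052 1239849684 370763052 134217728 67108864 3 false false false .pp 2 0 2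
    ndN1q2b ndN2q2b pcN0 Cut.none Ext.none :=
  certN0 (fam := false) (s1 := false) (s2 := false) (a := 2) (b := 0) (c := 2) (cn := .pp) (n1 := ndN1q2b) (n2 := ndN2q2b) (pc := pcN0) (cut := Cut.none) (xt := Ext.none) (P1 := 1239849684) (W1 := 370763052) (P2 := 1239849684) (W2 := 370763052) (P3 := 134217728) (W3 := 67108864) (N0 := 3)
    rfl k0_mm_202_bb

noncomputable def f_mm_203_a : ℕ → ℕ → ℕ → ℕ → Bool := onCell 0 536870912 0 536870912 134217728 67108864
    (rowN 3 1 false false false .up 2 0 3 (qsf 0 536870912 1610612736 536870912 0) ndN1q2a ndN2q3 pcN0 Cut.none Ext.none)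

def k0_mm_203_a : ∃ t, chk3 f_mm_203_a t 1 1 1 = true :=
  ⟨(l 3), by decide +kernel⟩

theorem c_mm_203_a : CertN 0 536870912 1610612736 536870912 134217728 67108864 3 false false false .up 2 0 3
    ndN1q2a ndN2q3 pcN0 Cut.none Ext.none :=
  certN1 (fam := false) (s1 := false) (s2 := false) (a := 2) (b := 0) (c := 3) (cn := .up) (n1 := ndN1q2a) (n2 := ndN2q3) (pc := pcN0) (cut := Cut.none) (xt := Ext.none) (P1 := 0) (W1 := 536870912) (P2 := 1610612736) (W2 := 536870912) (P3 := 134217728) (W3 := 67108864) (N0 := 3)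
    rfl (fun _ => rfl) k0_mm_203_a

noncomputable def f_mm_203_b : ℕ → ℕ → ℕ → ℕ → Bool := onCell 1239849684 370763052 1610612736 536870912 134217728 67108864
    (rowN 3 0 false false false .up 2 0 3 (qsf 1239849684 370763052 1610612736 536870912 0) ndN1q2b ndN2q3 pcN0 Cut.none Ext.none)

def k0_mm_203_b : ∃ t, chk3 f_mm_203_b t 1 1 1 = true :=
  ⟨(l 3), by decide +kernel⟩

theorem c_mm_203_b : CertN 1239849684 370763052 1610612736 536870912 134217728 67108864 3 false false false .up 2 0 3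
    ndN1q2b ndN2q3 pcN0 Cut.none Ext.none :=
  certN0 (fam := false) (s1 := false) (s2 := false) (a := 2) (b := 0) (c := 3) (cn := .up) (n1 := ndN1q2b) (n2 := ndN2q3) (pc := pcN0) (cut := Cut.none) (xt := Ext.none) (P1 := 1239849684) (W1 := 370763052) (P2 := 1610612736) (W2 := 536870912) (P3 := 134217728) (W3 := 67108864) (N0 := 3)
    rfl k0_mm_203_b

noncomputable def f_mm_213_a : ℕ → ℕ → ℕ → ℕ → Bool := onCell 0 536870912 1610612736 536870912 134217728 67108864
    (rowN 3 0 false false false .pnn 2 1 3 (qsf 0 536870912 1610612736 536870912 1) ndN1q2a ndN2q3 pcN1 Cut.none Ext.none)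

def k0_mm_213_a : ∃ t, chk3 f_mm_213_a t 1 1 1 = true :=
  ⟨(b (l 3) (l 5)), by decide +kernel⟩

theorem c_mm_213_a : CertN 0 536870912 1610612736 536870912 134217728 67108864 3 false false false .pnn 2 1 3
    ndN1q2a ndN2q3 pcN1 Cut.none Ext.none :=
  certN0 (fam := false) (s1 := false) (s2 := false) (a := 2) (b := 1) (c := 3) (cn := .pnn) (n1 := ndN1q2a) (n2 := ndN2q3) (pc := pcN1) (cut := Cut.none) (xt := Ext.none) (P1 := 0) (W1 := 536870912) (P2 := 1610612736) (W2 := 536870912) (P3 := 134217728) (W3 := 67108864) (N0 := 3)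
    rfl k0_mm_213_a

noncomputable def f_mm_213_b : ℕ → ℕ → ℕ → ℕ → Bool := onCell 1239849684 370763052 1610612736 536870912 134217728 67108864
    (rowN 3 0 false false false .pnn 2 1 3 (qsf 1239849684 370763052 1610612736 536870912 1) ndN1q2b ndN2q3 pcN1 Cut.none Ext.none)

def k0_mm_213_b : ∃ t, chk3 f_mm_213_b t 1 1 1 = true :=
  ⟨(l 3), by decide +kernel⟩

theorem c_mm_213_b : CertN 1239849684 370763052 1610612736 536870912 134217728 67108864 3 false false false .pnn 2 1 3
    ndN1q2b ndN2q3 pcN1 Cut.none Ext.none :=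
  certN0 (fam := false) (s1 := false) (s2 := false) (a := 2) (b := 1) (c := 3) (cn := .pnn) (n1 := ndN1q2b) (n2 := ndN2q3) (pc := pcN1) (cut := Cut.none) (xt := Ext.none) (P1 := 1239849684) (W1 := 370763052) (P2 := 1610612736) (W2 := 536870912) (P3 := 134217728) (W3 := 67108864) (N0 := 3)
    rfl k0_mm_213_b

noncomputable def f_mm_303 : ℕ → ℕ → ℕ → ℕ → Bool := onCell 1610612736 536870912 1610612736 536870912 134217728 67108864
    (rowN 3 0 false false false .npn 3 0 3 (qsf 1610612736 536870912 1610612736 536870912 0) ndN1q3 ndN2q3 pcN0 Cut.none Ext.none)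

def k0_mm_303 : ∃ t, chk3 f_mm_303 t 1 1 1 = true :=
  ⟨(l 3), by decide +kernel⟩

theorem c_mm_303 : CertN 1610612736 536870912 1610612736 536870912 134217728 67108864 3 false false false .npn 3 0 3
    ndN1q3 ndN2q3 pcN0 Cut.none Ext.none :=
  certN0 (fam := false) (s1 := false) (s2 := false) (a := 3) (b := 0) (c := 3) (cn := .npn) (n1 := ndN1q3) (n2 := ndN2q3) (pc := pcN0) (cut := Cut.none) (xt := Ext.none) (P1 := 1610612736) (W1 := 536870912) (P2 := 1610612736) (W2 := 536870912) (P3 := 134217728) (W3 := 67108864) (N0 := 3)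
    rfl k0_mm_303

noncomputable def f_mm_313 : ℕ → ℕ → ℕ → ℕ → Bool := onCell 1610612736 536870912 1610612736 536870912 134217728 67108864
    (rowN 3 0 false false false .dn 3 1 3 (qsf 1610612736 536870912 1610612736 536870912 1) ndN1q3 ndN2q3 pcN1 Cut.none Ext.none)

def k0_mm_313 : ∃ t, chk3 f_mm_313 t 1 1 1 = true :=
  ⟨(l 3), by decide +kernel⟩

theorem c_mm_313 : CertN 1610612736 536870912 1610612736 536870912 134217728 67108864 3 false false false .dn 3 1 3
    ndN1q3 ndN2q3 pcN1 Cut.none Ext.none :=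
  certN0 (fam := false) (s1 := false) (s2 := false) (a := 3) (b := 1) (c := 3) (cn := .dn) (n1 := ndN1q3) (n2 := ndN2q3) (pc := pcN1) (cut := Cut.none) (xt := Ext.none) (P1 := 1610612736) (W1 := 536870912) (P2 := 1610612736) (W2 := 536870912) (P3 := 134217728) (W3 := 67108864) (N0 := 3)
    rfl k0_mm_313

end Pool.Agent.Strip051.G.I1_8_3_16.Tab.C.NB12

namespace Pool.Agent.Strip051.G.I1_8_3_16.Tab.C.NB13

open Pool.Agent.Strip051.PB Pool.Agent.Strip051.PB.T
open Pool.Agent.Strip051.G.I1_8_3_16.Tab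

noncomputable def f_pp_001 : ℕ → ℕ → ℕ → ℕ → Bool := onCell 0 536870912 0 536870912 134217728 67108864
    (rowN 3 1 false true true .up 0 0 1 (qsf 0 536870912 536870912 536870912 0) ndN1q0 ndN3q1 pcN0 Cut.none Ext.none)

def k0_pp_001 : ∃ t, chk3 f_pp_001 t 1 1 1 = true :=
  ⟨(l 3), by decide +kernel⟩

theorem c_pp_001 : CertN 0 536870912 536870912 536870912 134217728 67108864 3 false true true .up 0 0 1
    ndN1q0 ndN3q1 pcN0 Cut.none Ext.none :=
  certN1 (fam := false) (s1 := true) (s2 := true) (a := 0) (b := 0) (c := 1) (cn := .up) (n1 := ndN1q0) (n2 := ndN3q1) (pc := pcN0) (cut := Cut.none) (xt := Ext.none) (P1 := 0) (W1 := 536870912) (P2 := 536870912) (W2 := 536870912) (P3 := 134217728) (W3 := 67108864) (N0 := 3)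
    rfl (fun _ => rfl) k0_pp_001

noncomputable def cut_pp_011 : Cut := Cut.of [[⟨0, 0, 0, 67108864⟩, ⟨1, 1, 0, 67108864⟩, ⟨2, 1, 0, 67108864⟩]]

noncomputable def f_pp_011 : ℕ → ℕ → ℕ → ℕ → Bool := onCell 0 536870912 536870912 536870912 134217728 67108864
    (rowN 3 1 false true true .pnn 0 1 1 (qsf 0 536870912 536870912 536870912 1) ndN1q0 ndN3q1 pcN1 cut_pp_011 Ext.none)

def k0_pp_011 : ∃ t, chk3 f_pp_011 t 1 1 1 = true :=
  ⟨(a (b (l 3) (a (b (l 3) (a (a (b (l 3) (b (l 3) (l 6))) (l 3)) (l 3))) (l 3))) (l 3)), by decide +kernel⟩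

theorem c_pp_011 : CertN 0 536870912 536870912 536870912 134217728 67108864 3 false true true .pnn 0 1 1
    ndN1q0 ndN3q1 pcN1 cut_pp_011 Ext.none :=
  certN1 (fam := false) (s1 := true) (s2 := true) (a := 0) (b := 1) (c := 1) (cn := .pnn) (n1 := ndN1q0) (n2 := ndN3q1) (pc := pcN1) (cut := cut_pp_011) (xt := Ext.none) (P1 := 0) (W1 := 536870912) (P2 := 536870912) (W2 := 536870912) (P3 := 134217728) (W3 := 67108864) (N0 := 3)
    rfl (fun _ => rfl) k0_pp_011

noncomputable def f_pp_012 : ℕ → ℕ → ℕ → ℕ → Bool := onCell 536870912 536870912 1073741824 536870912 134217728 67108864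
    (rowN 3 2 false true true .pnp 0 1 2 (qsf 0 536870912 1073741824 536870912 1) ndN1q0 ndN3q2 pcN1 Cut.none Ext.none)

def k0_pp_012 : ∃ t, chk3 f_pp_012 t 1 1 1 = true :=
  ⟨(a (l 3) (a (l 3) (b (l 3) (a (l 387789568039) (b (l 353966415239) (l 17512808)))))), by decide +kernel⟩

theorem c_pp_012 : CertN 0 536870912 1073741824 536870912 134217728 67108864 3 false true true .pnp 0 1 2
    ndN1q0 ndN3q2 pcN1 Cut.none Ext.none :=
  certN2 (fam := false) (s1 := true) (s2 := true) (a := 0) (b := 1) (c := 2) (cn := .pnp) (n1 := ndN1q0) (n2 := ndN3q2) (pc := pcN1) (cut := Cut.none) (xt := Ext.none) (P1 := 0) (W1 := 536870912) (P2 := 1073741824) (W2 := 536870912) (P3 := 134217728) (W3 := 67108864) (N0 := 3)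
    rfl (fun _ => rfl) k0_pp_012

noncomputable def f_pp_022 : ℕ → ℕ → ℕ → ℕ → Bool := onCell 1073741824 536870912 1073741824 536870912 134217728 67108864
    (rowN 3 2 false true true .pp 0 2 2 (qsf 0 536870912 1073741824 536870912 2) ndN1q0 ndN3q2 pcN2 Cut.none Ext.none)

def k0_pp_022 : ∃ t, chk3 f_pp_022 t 4 2 1 = true :=
  ⟨(b (a (l 3) (b (a (l 3) (l 1)) (b (a (l 3) (b (l 1) (b (l 1) (b (l 1) (a (c (a (l 67678981351) (l 1)) (l 75732038919)) (l 1)))))) (b (a (b (l 3) (a (l 3) (c (l 16642328) (l 16654448)))) (b (a (b (a (c (l 109018025207) (l 111702354311)) (l 1)) (c (a (l 160020746151) (l 16607496)) (a (l 16591232) (l 16589888)))) (l 1)) (b (a (c (a (l 16596536) (l 135861543127)) (l 138545882791)) (l 1)) (a (c (a (l 16590200) (l 16592240)) (l 149820155591)) (c (l 94522449911) (l 93448720295)))))) (a (a (l 3) (b (a (l 3) (l 16642392)) (l 16633064))) (c (a (b (b (l 16593008) (l 16579000)) (l 16592480)) (b (a (l 151967687991) (l 87006310103)) (a (l 16585096)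 (l 155725755303)))) (a (b (a (l 16584224) (l 16589784)) (l 16573936)) (b (a (l 136935271751) (l 91838118551)) (a (l 16578120) (l 151430755335)))))))))) (b (b (a (l 3) (b (a (b (a (l 3) (l 16592464)) (l 16708744)) (a (b (a (l 16579504) (l 16577160)) (l 16568496)) (b (c (l 16584032) (l 16565992)) (a (l 16560504) (l 16570192))))) (a (b (a (l 16635744) (l 16594176)) (a (l 16787768) (l 16787040))) (b (a (l 16548688) (l 16563456)) (a (b (l 16550040) (l 16636136)) (b (l 16525264) (c (l 16817712) (l 16576168)))))))) (a (a (l 3) (l 16829576)) (a (a (l 16805072) (l 16793032)) (a (l 16683872) (b (l 16650984) (l 16910032)))))) (a (b (a (l 3) (l 17121000)) (a (l 17279168) (l 17313432))) (a (b (l 17138128) (l 17356080)) (b (a (l 17164904) (l 17187304)) (l 17410776)))))), by decide +kernel⟩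

def k1_pp_022 : ∃ t, chk3 f_pp_022 t 5 4 1 = true :=
  ⟨(a (b (l 1) (b (l 1) (a (a (b (l 1) (b (l 1) (c (l 98817462455) (l 91838110439)))) (l 1)) (l 1)))) (l 1)), by decide +kernel⟩

def k2_pp_022 : ∃ t, chk3 f_pp_022 t 5 5 1 = true :=
  ⟨(b (b (a (a (a (b (b (c (a (l 153041372199) (l 104722991207)) (l 132640266215)) (c (a (l 16552136) (l 149820117911)) (l 162168138743))) (b (c (a (l 16617616) (l 16623480)) (l 16551952)) (b (c (l 16754872) (l 16509968)) (b (l 16538704) (c (l 16853896) (l 16521456)))))) (b (a (b (l 1) (c (l 117071006247) (l 16555648))) (l 1)) (a (c (b (b (l 128882247735) (l 160020763527)) (b (l 16773304) (b (l 16835800) (l 16875456)))) (b (l 147135725687) (b (l 16493192) (l 16580656)))) (b (b (l 1) (c (l 138009052295) (l 16529288))) (b (c (a (l 16786720) (l 16796664)) (l 16544328)) (b (c (a (l 16850552) (l 16777872)) (l 16518456)) (c (a (l 16890424) (c (l 17112728) (l 16691568))) (l 16546824)))))))) (a (b (l 1) (b (l 1) (b (l 1) (b (l 1) (c (l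 129956085127) (l 105796652343)))))) (l 1))) (l 1)) (a (a (a (b (b (l 16592144) (l 16728776)) (l 16926208)) (b (c (a (l 17041888) (b (l 16847040) (l 17128600))) (b (l 16553392) (l 16527952))) (c (l 17284416) (l 16623584)))) (c (b (a (b (a (l 203507596407) (l 16789760)) (l 162705701447)) (l 204582034679)) (a (l 17331504) (b (l 221224938727) (l 17425256)))) (b (a (l 180958565495) (l 129418859879)) (a (l 16636296) (b (l 169147513927) (l 169684389623)))))) (b (l 1) (a (c (l 258269702135) (l 173979510919)) (l 1))))) (a (b (a (a (l 17215192) (b (l 17163800) (l 17323272))) (b (c (l 17529136) (a (l 16894848) (l 16919184))) (c (l 17658368) (l 17107896)))) (a (l 17478264) (b (l 17510816) (l 17605744)))) (b (a (b (b (c (l 242163444535) (l 171831997255)) (c (l 132105223127) (l 140156950007))) (c (l 151969820135) (a (l 17157456) (l 249142014983)))) (b (l 1) (c (l 310883389127) (l 270617359383)))) (c (b (a (l 17868488) (l 17953264)) (l 17988792)) (b (a (l 17337416) (l 285113074983))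 (l 162706882343)))))), by decide +kernel⟩

def k3_pp_022 : ∃ t, chk3 f_pp_022 t 2 3 1 = true :=
  ⟨(a (b (a (b (l 17482256) (l 17630088)) (a (a (l 17647440) (l 17666872)) (b (l 17706616) (l 17771936)))) (a (l 17719384) (a (a (l 17802760) (l 17829808)) (a (l 17857568) (l 17886840))))) (a (a (b (a (l 17760760) (b (l 17711416) (l 17861968))) (a (l 17915144) (l 17945048))) (b (b (l 17768960) (l 17907928)) (l 17981304))) (b (b (b (c (l 18066072) (l 17633488)) (l 17944328)) (l 18022280)) (l 18064200)))), by decide +kernel⟩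

def k4_pp_022 : ∃ t, chk3 f_pp_022 t 3 1 1 = true :=
  ⟨(b (a (b (l 1) (a (b (l 1) (b (l 1) (b (l 1) (l 342022463527)))) (l 1))) (l 1)) (b (a (b (a (b (c (l 141770582871) (l 149822689463)) (l 149286192743)) (b (l 1) (l 410205764199))) (a (l 18192248) (b (l 160560793479) (l 18360600)))) (a (b (l 1) (l 471946254599)) (l 1))) (a (b (l 18282712) (l 18256312)) (b (a (l 18479440) (l 497716766215)) (l 18500320))))), by decide +kernel⟩

theorem s5_pp_022 : ∃ t, chk3 f_pp_022 t 5 2 1 = true := ex3_b k1_pp_022 k2_pp_022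

theorem s6_pp_022 : ∃ t, chk3 f_pp_022 t 2 2 1 = true := ex3_a k0_pp_022 s5_pp_022

theorem s7_pp_022 : ∃ t, chk3 f_pp_022 t 2 1 1 = true := ex3_b s6_pp_022 k3_pp_022

theorem s8_pp_022 : ∃ t, chk3 f_pp_022 t 1 1 1 = true := ex3_a s7_pp_022 k4_pp_022

theorem c_pp_022 : CertN 0 536870912 1073741824 536870912 134217728 67108864 3 false true true .pp 0 2 2
    ndN1q0 ndN3q2 pcN2 Cut.none Ext.none :=
  certN2 (fam := false) (s1 := true) (s2 := true) (a := 0) (b := 2) (c := 2) (cn := .pp) (n1 := ndN1q0) (n2 := ndN3q2) (pc := pcN2) (cut := Cut.none) (xt := Ext.none) (P1 := 0) (W1 := 536870912) (P2 := 1073741824) (W2 := 536870912) (P3 := 134217728) (W3 := 67108864) (N0 := 3)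
    rfl (fun _ => rfl) s8_pp_022

noncomputable def f_pp_023 : ℕ → ℕ → ℕ → ℕ → Bool := onCell 1073741824 536870912 0 1230186008 134217728 67108864
    (rowN 3 2 false true true .up 0 2 3 (qsf 0 536870912 0 1230186008 2) ndN1q0 ndN3q3 pcN2 Cut.none Ext.none)

def k0_pp_023 : ∃ t, chk3 f_pp_023 t 1 1 1 = true :=
  ⟨(b (a (l 2) (a (l 2) (l 18025872))) (b (a (a (l 2) (a (l 2) (l 18119304))) (a (l 18137888) (l 18168224))) (a (a (a (l 18063168) (a (a (l 18110680) (l 18366760)) (a (l 18120352) (l 18127776)))) (a (a (a (l 18132256) (b (l 18143488) (l 18129832))) (l 18130272)) (b (l 18117328) (l 18127792)))) (b (l 18178112) (l 18271280))))), by decide +kernel⟩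

theorem c_pp_023 : CertN 0 536870912 0 1230186008 134217728 67108864 3 false true true .up 0 2 3
    ndN1q0 ndN3q3 pcN2 Cut.none Ext.none :=
  certN2 (fam := false) (s1 := true) (s2 := true) (a := 0) (b := 2) (c := 3) (cn := .up) (n1 := ndN1q0) (n2 := ndN3q3) (pc := pcN2) (cut := Cut.none) (xt := Ext.none) (P1 := 0) (W1 := 536870912) (P2 := 0) (W2 := 1230186008) (P3 := 134217728) (W3 := 67108864) (N0 := 3)
    rfl (fun _ => rfl) k0_pp_023

noncomputable def f_pp_033 : ℕ → ℕ → ℕ → ℕ → Bool := onCell 1610612736 536870912 0 1230186008 134217728 67108864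
    (rowN 3 2 false true true .pnn 0 3 3 (qsf 0 536870912 0 1230186008 3) ndN1q0 ndN3q3 pcN3 Cut.none Ext.none)

def k0_pp_033 : ∃ t, chk3 f_pp_033 t 1 1 1 = true :=
  ⟨(b (a (a (a (l 17608760) (l 17613752)) (l 17879872)) (a (l 17877416) (l 4))) (b (a (a (b (l 17601320) (l 17645800)) (b (l 17804312) (l 17800752))) (a (a (l 17905000) (l 18067104)) (b (a (l 4) (l 1)) (l 1)))) (a (a (b (l 17798184) (l 201363039847)) (b (l 17885472) (b (a (l 17991072) (l 1)) (l 1)))) (l 1)))), by decide +kernel⟩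

theorem c_pp_033 : CertN 0 536870912 0 1230186008 134217728 67108864 3 false true true .pnn 0 3 3
    ndN1q0 ndN3q3 pcN3 Cut.none Ext.none :=
  certN2 (fam := false) (s1 := true) (s2 := true) (a := 0) (b := 3) (c := 3) (cn := .pnn) (n1 := ndN1q0) (n2 := ndN3q3) (pc := pcN3) (cut := Cut.none) (xt := Ext.none) (P1 := 0) (W1 := 536870912) (P2 := 0) (W2 := 1230186008) (P3 := 134217728) (W3 := 67108864) (N0 := 3)
    rfl (fun _ => rfl) k0_pp_033

noncomputable def f_pp_101 : ℕ → ℕ → ℕ → ℕ → Bool := onCell 536870912 536870912 536870912 536870912 134217728 67108864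
    (rowN 3 0 false true true .npn 1 0 1 (qsf 536870912 536870912 536870912 536870912 0) ndN1q1 ndN3q1 pcN0 Cut.none Ext.none)

def k0_pp_101 : ∃ t, chk3 f_pp_101 t 1 1 1 = true :=
  ⟨(l 3), by decide +kernel⟩

theorem c_pp_101 : CertN 536870912 536870912 536870912 536870912 134217728 67108864 3 false true true .npn 1 0 1
    ndN1q1 ndN3q1 pcN0 Cut.none Ext.none :=
  certN0 (fam := false) (s1 := true) (s2 := true) (a := 1) (b := 0) (c := 1) (cn := .npn) (n1 := ndN1q1) (n2 := ndN3q1) (pc := pcN0) (cut := Cut.none) (xt := Ext.none) (P1 := 536870912) (W1 := 536870912) (P2 := 536870912) (W2 := 536870912) (P3 := 134217728) (W3 := 67108864) (N0 := 3)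
    rfl k0_pp_101

noncomputable def f_pp_102 : ℕ → ℕ → ℕ → ℕ → Bool := onCell 536870912 536870912 0 536870912 134217728 67108864
    (rowN 3 1 false true true .npp 1 0 2 (qsf 536870912 536870912 1073741824 536870912 0) ndN1q1 ndN3q2 pcN0 Cut.none Ext.none)

def k0_pp_102 : ∃ t, chk3 f_pp_102 t 1 1 1 = true :=
  ⟨(l 3), by decide +kernel⟩

theorem c_pp_102 : CertN 536870912 536870912 1073741824 536870912 134217728 67108864 3 false true true .npp 1 0 2
    ndN1q1 ndN3q2 pcN0 Cut.none Ext.none :=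
  certN1 (fam := false) (s1 := true) (s2 := true) (a := 1) (b := 0) (c := 2) (cn := .npp) (n1 := ndN1q1) (n2 := ndN3q2) (pc := pcN0) (cut := Cut.none) (xt := Ext.none) (P1 := 536870912) (W1 := 536870912) (P2 := 1073741824) (W2 := 536870912) (P3 := 134217728) (W3 := 67108864) (N0 := 3)
    rfl (fun _ => rfl) k0_pp_102

noncomputable def f_pp_112 : ℕ → ℕ → ℕ → ℕ → Bool := onCell 536870912 536870912 1073741824 536870912 134217728 67108864
    (rowN 3 2 false true true .dn 1 1 2 (qsf 536870912 536870912 1073741824 536870912 1) ndN1q1 ndN3q2 pcN1 Cut.none Ext.none)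

def k0_pp_112 : ∃ t, chk3 f_pp_112 t 1 1 1 = true :=
  ⟨(a (l 3) (b (l 3) (a (l 3) (b (l 231964281623) (l 17614320))))), by decide +kernel⟩

theorem c_pp_112 : CertN 536870912 536870912 1073741824 536870912 134217728 67108864 3 false true true .dn 1 1 2
    ndN1q1 ndN3q2 pcN1 Cut.none Ext.none :=
  certN2 (fam := false) (s1 := true) (s2 := true) (a := 1) (b := 1) (c := 2) (cn := .dn) (n1 := ndN1q1) (n2 := ndN3q2) (pc := pcN1) (cut := Cut.none) (xt := Ext.none) (P1 := 536870912) (W1 := 536870912) (P2 := 1073741824) (W2 := 536870912) (P3 := 134217728) (W3 := 67108864) (N0 := 3)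
    rfl (fun _ => rfl) k0_pp_112

noncomputable def f_pp_113 : ℕ → ℕ → ℕ → ℕ → Bool := onCell 536870912 536870912 0 1230186008 134217728 67108864
    (rowN 3 2 false true true .nn 1 1 3 (qsf 536870912 536870912 0 1230186008 1) ndN1q1 ndN3q3 pcN1 Cut.none Ext.none)

def k0_pp_113 : ∃ t, chk3 f_pp_113 t 1 1 1 = true :=
  ⟨(b (a (l 2) (a (l 2) (b (l 543951619463) (l 16899736)))) (a (b (b (l 2) (l 3)) (a (l 3) (l 3))) (b (a (a (l 266993867927) (l 17013352)) (l 17115440)) (a (b (l 17181240) (l 3)) (l 123112938455))))), by decide +kernel⟩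

theorem c_pp_113 : CertN 536870912 536870912 0 1230186008 134217728 67108864 3 false true true .nn 1 1 3
    ndN1q1 ndN3q3 pcN1 Cut.none Ext.none :=
  certN2 (fam := false) (s1 := true) (s2 := true) (a := 1) (b := 1) (c := 3) (cn := .nn) (n1 := ndN1q1) (n2 := ndN3q3) (pc := pcN1) (cut := Cut.none) (xt := Ext.none) (P1 := 536870912) (W1 := 536870912) (P2 := 0) (W2 := 1230186008) (P3 := 134217728) (W3 := 67108864) (N0 := 3)
    rfl (fun _ => rfl) k0_pp_113

noncomputable def f_pp_123 : ℕ → ℕ → ℕ → ℕ → Bool := onCell 1073741824 536870912 0 1230186008 134217728 67108864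
    (rowN 3 2 false true true .npn 1 2 3 (qsf 536870912 536870912 0 1230186008 2) ndN1q1 ndN3q3 pcN2 Cut.none Ext.none)

def k0_pp_123 : ∃ t, chk3 f_pp_123 t 1 1 1 = true :=
  ⟨(b (b (a (a (a (l 17266080) (a (l 17298800) (l 17334240))) (a (l 17351720) (l 17365064))) (a (l 17351408) (l 17239216))) (a (a (a (l 17295296) (a (a (l 17338376) (l 17345360)) (l 17342472))) (a (a (l 17365464) (l 17367592)) (l 17374064))) (a (l 17353144) (l 17262616)))) (b (a (a (a (l 17381552) (a (a (l 17422856) (l 17423784)) (l 17400424))) (a (a (l 17423888) (l 17406352)) (l 17376552))) (a (l 17343968) (l 17259016))) (a (a (a (l 17483168) (a (a (l 17497888) (l 17487936)) (a (l 17477992) (l 17469520)))) (a (a (a (l 17457144) (l 17446792)) (l 17408752)) (l 17594016))) (l 1)))), by decide +kernel⟩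

theorem c_pp_123 : CertN 536870912 536870912 0 1230186008 134217728 67108864 3 false true true .npn 1 2 3
    ndN1q1 ndN3q3 pcN2 Cut.none Ext.none :=
  certN2 (fam := false) (s1 := true) (s2 := true) (a := 1) (b := 2) (c := 3) (cn := .npn) (n1 := ndN1q1) (n2 := ndN3q3) (pc := pcN2) (cut := Cut.none) (xt := Ext.none) (P1 := 536870912) (W1 := 536870912) (P2 := 0) (W2 := 1230186008) (P3 := 134217728) (W3 := 67108864) (N0 := 3)
    rfl (fun _ => rfl) k0_pp_123

noncomputable def f_pp_133 : ℕ → ℕ → ℕ → ℕ → Bool := onCell 536870912 536870912 0 1230186008 134217728 67108864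
    (rowN 3 0 false true true .dn 1 3 3 (qsf 536870912 536870912 0 1230186008 3) ndN1q1 ndN3q3 pcN3 Cut.none Ext.none)

def k0_pp_133 : ∃ t, chk3 f_pp_133 t 1 1 1 = true :=
  ⟨(b (b (a (a (l 17146104) (l 1)) (l 1)) (l 1)) (l 1)), by decide +kernel⟩

theorem c_pp_133 : CertN 536870912 536870912 0 1230186008 134217728 67108864 3 false true true .dn 1 3 3
    ndN1q1 ndN3q3 pcN3 Cut.none Ext.none :=
  certN0 (fam := false) (s1 := true) (s2 := true) (a := 1) (b := 3) (c := 3) (cn := .dn) (n1 := ndN1q1) (n2 := ndN3q3) (pc := pcN3) (cut := Cut.none) (xt := Ext.none) (P1 := 536870912) (W1 := 536870912) (P2 := 0) (W2 := 1230186008) (P3 := 134217728) (W3 := 67108864) (N0 := 3)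
    rfl k0_pp_133

noncomputable def f_pp_202_a : ℕ → ℕ → ℕ → ℕ → Bool := onCell 0 536870912 1073741824 536870912 134217728 67108864
    (rowN 3 0 false true true .pp 2 0 2 (qsf 0 536870912 1073741824 536870912 0) ndN1q2a ndN3q2 pcN0 Cut.none Ext.none)

def k0_pp_202_a : ∃ t, chk3 f_pp_202_a t 1 1 1 = true :=
  ⟨(l 3), by decide +kernel⟩

theorem c_pp_202_a : CertN 0 536870912 1073741824 536870912 134217728 67108864 3 false true true .pp 2 0 2
    ndN1q2a ndN3q2 pcN0 Cut.none Ext.none :=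
  certN0 (fam := false) (s1 := true) (s2 := true) (a := 2) (b := 0) (c := 2) (cn := .pp) (n1 := ndN1q2a) (n2 := ndN3q2) (pc := pcN0) (cut := Cut.none) (xt := Ext.none) (P1 := 0) (W1 := 536870912) (P2 := 1073741824) (W2 := 536870912) (P3 := 134217728) (W3 := 67108864) (N0 := 3)
    rfl k0_pp_202_a

noncomputable def f_pp_202_b : ℕ → ℕ → ℕ → ℕ → Bool := onCell 1239849684 370763052 1073741824 536870912 134217728 67108864
    (rowN 3 0 false true true .pp 2 0 2 (qsf 1239849684 370763052 1073741824 536870912 0) ndN1q2b ndN3q2 pcN0 Cut.none Ext.none)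

def k0_pp_202_b : ∃ t, chk3 f_pp_202_b t 1 1 1 = true :=
  ⟨(l 3), by decide +kernel⟩

theorem c_pp_202_b : CertN 1239849684 370763052 1073741824 536870912 134217728 67108864 3 false true true .pp 2 0 2
    ndN1q2b ndN3q2 pcN0 Cut.none Ext.none :=
  certN0 (fam := false) (s1 := true) (s2 := true) (a := 2) (b := 0) (c := 2) (cn := .pp) (n1 := ndN1q2b) (n2 := ndN3q2) (pc := pcN0) (cut := Cut.none) (xt := Ext.none) (P1 := 1239849684) (W1 := 370763052) (P2 := 1073741824) (W2 := 536870912) (P3 := 134217728) (W3 := 67108864) (N0 := 3)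
    rfl k0_pp_202_b

noncomputable def f_pp_203_a : ℕ → ℕ → ℕ → ℕ → Bool := onCell 0 536870912 0 1230186008 134217728 67108864
    (rowN 3 0 false true true .up 2 0 3 (qsf 0 536870912 0 1230186008 0) ndN1q2a ndN3q3 pcN0 Cut.none Ext.none)

def k0_pp_203_a : ∃ t, chk3 f_pp_203_a t 1 1 1 = true :=
  ⟨(b (l 2) (l 3)), by decide +kernel⟩

theorem c_pp_203_a : CertN 0 536870912 0 1230186008 134217728 67108864 3 false true true .up 2 0 3
    ndN1q2a ndN3q3 pcN0 Cut.none Ext.none :=
  certN0 (fam := false) (s1 := true) (s2 := true) (a := 2) (b := 0) (c := 3) (cn := .up) (n1 := ndN1q2a) (n2 := ndN3q3) (pc := pcN0) (cut := Cut.none) (xt := Ext.none) (P1 := 0) (W1 := 536870912) (P2 := 0) (W2 := 1230186008) (P3 := 134217728) (W3 := 67108864) (N0 := 3)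
    rfl k0_pp_203_a

noncomputable def f_pp_203_b : ℕ → ℕ → ℕ → ℕ → Bool := onCell 1239849684 370763052 0 1230186008 134217728 67108864
    (rowN 3 0 false true true .up 2 0 3 (qsf 1239849684 370763052 0 1230186008 0) ndN1q2b ndN3q3 pcN0 Cut.none Ext.none)

def k0_pp_203_b : ∃ t, chk3 f_pp_203_b t 1 1 1 = true :=
  ⟨(b (l 3) (l 3)), by decide +kernel⟩

theorem c_pp_203_b : CertN 1239849684 370763052 0 1230186008 134217728 67108864 3 false true true .up 2 0 3
    ndN1q2b ndN3q3 pcN0 Cut.none Ext.none :=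
  certN0 (fam := false) (s1 := true) (s2 := true) (a := 2) (b := 0) (c := 3) (cn := .up) (n1 := ndN1q2b) (n2 := ndN3q3) (pc := pcN0) (cut := Cut.none) (xt := Ext.none) (P1 := 1239849684) (W1 := 370763052) (P2 := 0) (W2 := 1230186008) (P3 := 134217728) (W3 := 67108864) (N0 := 3)
    rfl k0_pp_203_b

noncomputable def cut_pp_213_a : Cut := Cut.of [[⟨0, 1, 0, 39843005⟩, ⟨1, 1, 0, 39843005⟩, ⟨2, 2, 0, 5814905⟩]]

noncomputable def f_pp_213_a : ℕ → ℕ → ℕ → ℕ → Bool := onCell 0 536870912 0 1230186008 134217728 67108864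
    (rowN 3 0 false true true .pnn 2 1 3 (qsf 0 536870912 0 1230186008 1) ndN1q2a ndN3q3 pcN1 cut_pp_213_a Ext.none)

def k0_pp_213_a : ∃ t, chk3 f_pp_213_a t 1 1 1 = true :=
  ⟨(b (a (l 3) (b (a (l 3) (a (l 3) (b (a (l 3) (b (l 6) (l 3))) (l 3)))) (l 3))) (l 3)), by decide +kernel⟩

theorem c_pp_213_a : CertN 0 536870912 0 1230186008 134217728 67108864 3 false true true .pnn 2 1 3
    ndN1q2a ndN3q3 pcN1 cut_pp_213_a Ext.none :=
  certN0 (fam := false) (s1 := true) (s2 := true) (a := 2) (b := 1) (c := 3) (cn := .pnn) (n1 := ndN1q2a) (n2 := ndN3q3) (pc := pcN1) (cut := cut_pp_213_a) (xt := Ext.none) (P1 := 0) (W1 := 536870912) (P2 := 0) (W2 := 1230186008) (P3 := 134217728) (W3 := 67108864) (N0 := 3)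
    rfl k0_pp_213_a

noncomputable def cut_pp_213_b : Cut := Cut.of [[⟨0, 1, 0, 39843005⟩, ⟨1, 1, 0, 39843005⟩, ⟨2, 2, 0, 5814905⟩]]

noncomputable def f_pp_213_b : ℕ → ℕ → ℕ → ℕ → Bool := onCell 1239849684 370763052 0 1230186008 134217728 67108864
    (rowN 3 0 false true true .pnn 2 1 3 (qsf 1239849684 370763052 0 1230186008 1) ndN1q2b ndN3q3 pcN1 cut_pp_213_b Ext.none)

def k0_pp_213_b : ∃ t, chk3 f_pp_213_b t 1 1 1 = true :=
  ⟨(b (l 3) (l 3)), by decide +kernel⟩

theorem c_pp_213_b : CertN 1239849684 370763052 0 1230186008 134217728 67108864 3 false true true .pnn 2 1 3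
    ndN1q2b ndN3q3 pcN1 cut_pp_213_b Ext.none :=
  certN0 (fam := false) (s1 := true) (s2 := true) (a := 2) (b := 1) (c := 3) (cn := .pnn) (n1 := ndN1q2b) (n2 := ndN3q3) (pc := pcN1) (cut := cut_pp_213_b) (xt := Ext.none) (P1 := 1239849684) (W1 := 370763052) (P2 := 0) (W2 := 1230186008) (P3 := 134217728) (W3 := 67108864) (N0 := 3)
    rfl k0_pp_213_b

noncomputable def f_pp_303 : ℕ → ℕ → ℕ → ℕ → Bool := onCell 1610612736 536870912 0 1230186008 134217728 67108864
    (rowN 3 0 false true true .npn 3 0 3 (qsf 1610612736 536870912 0 1230186008 0) ndN1q3 ndN3q3 pcN0 Cut.none Ext.none)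

def k0_pp_303 : ∃ t, chk3 f_pp_303 t 1 1 1 = true :=
  ⟨(b (l 3) (l 3)), by decide +kernel⟩

theorem c_pp_303 : CertN 1610612736 536870912 0 1230186008 134217728 67108864 3 false true true .npn 3 0 3
    ndN1q3 ndN3q3 pcN0 Cut.none Ext.none :=
  certN0 (fam := false) (s1 := true) (s2 := true) (a := 3) (b := 0) (c := 3) (cn := .npn) (n1 := ndN1q3) (n2 := ndN3q3) (pc := pcN0) (cut := Cut.none) (xt := Ext.none) (P1 := 1610612736) (W1 := 536870912) (P2 := 0) (W2 := 1230186008) (P3 := 134217728) (W3 := 67108864) (N0 := 3)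
    rfl k0_pp_303

noncomputable def f_pp_313 : ℕ → ℕ → ℕ → ℕ → Bool := onCell 1610612736 536870912 0 1230186008 134217728 67108864
    (rowN 3 0 false true true .dn 3 1 3 (qsf 1610612736 536870912 0 1230186008 1) ndN1q3 ndN3q3 pcN1 Cut.none Ext.none)

def k0_pp_313 : ∃ t, chk3 f_pp_313 t 1 1 1 = true :=
  ⟨(b (l 3) (l 1)), by decide +kernel⟩

theorem c_pp_313 : CertN 1610612736 536870912 0 1230186008 134217728 67108864 3 false true true .dn 3 1 3
    ndN1q3 ndN3q3 pcN1 Cut.none Ext.none :=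
  certN0 (fam := false) (s1 := true) (s2 := true) (a := 3) (b := 1) (c := 3) (cn := .dn) (n1 := ndN1q3) (n2 := ndN3q3) (pc := pcN1) (cut := Cut.none) (xt := Ext.none) (P1 := 1610612736) (W1 := 536870912) (P2 := 0) (W2 := 1230186008) (P3 := 134217728) (W3 := 67108864) (N0 := 3)
    rfl k0_pp_313

noncomputable def f_pm_001 : ℕ → ℕ → ℕ → ℕ → Bool := onCell 0 536870912 536870912 536870912 134217728 67108864
    (rowN 3 0 false true false .up 0 0 1 (qsf 0 536870912 536870912 536870912 0) ndN1q0 ndN3q1 pcN0 Cut.none Ext.none)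

def k0_pm_001 : ∃ t, chk3 f_pm_001 t 1 1 1 = true :=
  ⟨(l 4), by decide +kernel⟩

theorem c_pm_001 : CertN 0 536870912 536870912 536870912 134217728 67108864 3 false true false .up 0 0 1
    ndN1q0 ndN3q1 pcN0 Cut.none Ext.none :=
  certN0 (fam := false) (s1 := true) (s2 := false) (a := 0) (b := 0) (c := 1) (cn := .up) (n1 := ndN1q0) (n2 := ndN3q1) (pc := pcN0) (cut := Cut.none) (xt := Ext.none) (P1 := 0) (W1 := 536870912) (P2 := 536870912) (W2 := 536870912) (P3 := 134217728) (W3 := 67108864) (N0 := 3)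
    rfl k0_pm_001

noncomputable def f_pm_011 : ℕ → ℕ → ℕ → ℕ → Bool := onCell 0 536870912 536870912 536870912 134217728 67108864
    (rowN 3 0 false true false .pnn 0 1 1 (qsf 0 536870912 536870912 536870912 1) ndN1q0 ndN3q1 pcN1 Cut.none Ext.none)

def k0_pm_011 : ∃ t, chk3 f_pm_011 t 1 1 1 = true :=
  ⟨(l 4), by decide +kernel⟩

theorem c_pm_011 : CertN 0 536870912 536870912 536870912 134217728 67108864 3 false true false .pnn 0 1 1
    ndN1q0 ndN3q1 pcN1 Cut.none Ext.none :=
  certN0 (fam := false) (s1 := true) (s2 := false) (a := 0) (b := 1) (c := 1) (cn := .pnn) (n1 := ndN1q0) (n2 := ndN3q1) (pc := pcN1) (cut := Cut.none) (xt := Ext.none) (P1 := 0) (W1 := 536870912) (P2 := 536870912) (W2 := 536870912) (P3 := 134217728) (W3 := 67108864) (N0 := 3)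
    rfl k0_pm_011

noncomputable def f_pm_012 : ℕ → ℕ → ℕ → ℕ → Bool := onCell 0 536870912 1073741824 536870912 134217728 67108864
    (rowN 3 0 false true false .pnp 0 1 2 (qsf 0 536870912 1073741824 536870912 1) ndN1q0 ndN3q2 pcN1 Cut.none Ext.none)

def k0_pm_012 : ∃ t, chk3 f_pm_012 t 1 1 1 = true :=
  ⟨(l 4), by decide +kernel⟩

theorem c_pm_012 : CertN 0 536870912 1073741824 536870912 134217728 67108864 3 false true false .pnp 0 1 2
    ndN1q0 ndN3q2 pcN1 Cut.none Ext.none :=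
  certN0 (fam := false) (s1 := true) (s2 := false) (a := 0) (b := 1) (c := 2) (cn := .pnp) (n1 := ndN1q0) (n2 := ndN3q2) (pc := pcN1) (cut := Cut.none) (xt := Ext.none) (P1 := 0) (W1 := 536870912) (P2 := 1073741824) (W2 := 536870912) (P3 := 134217728) (W3 := 67108864) (N0 := 3)
    rfl k0_pm_012

noncomputable def f_pm_022 : ℕ → ℕ → ℕ → ℕ → Bool := onCell 0 536870912 1073741824 536870912 134217728 67108864
    (rowN 3 0 false true false .pp 0 2 2 (qsf 0 536870912 1073741824 536870912 2) ndN1q0 ndN3q2 pcN2 Cut.none Ext.none)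

def k0_pm_022 : ∃ t, chk3 f_pm_022 t 1 1 1 = true :=
  ⟨(l 4), by decide +kernel⟩

theorem c_pm_022 : CertN 0 536870912 1073741824 536870912 134217728 67108864 3 false true false .pp 0 2 2
    ndN1q0 ndN3q2 pcN2 Cut.none Ext.none :=
  certN0 (fam := false) (s1 := true) (s2 := false) (a := 0) (b := 2) (c := 2) (cn := .pp) (n1 := ndN1q0) (n2 := ndN3q2) (pc := pcN2) (cut := Cut.none) (xt := Ext.none) (P1 := 0) (W1 := 536870912) (P2 := 1073741824) (W2 := 536870912) (P3 := 134217728) (W3 := 67108864) (N0 := 3)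
    rfl k0_pm_022

noncomputable def f_pm_023 : ℕ → ℕ → ℕ → ℕ → Bool := onCell 0 536870912 0 1230186008 134217728 67108864
    (rowN 3 0 false true false .up 0 2 3 (qsf 0 536870912 0 1230186008 2) ndN1q0 ndN3q3 pcN2 Cut.none Ext.none)

def k0_pm_023 : ∃ t, chk3 f_pm_023 t 1 1 1 = true :=
  ⟨(b (b (a (l 2) (a (l 2) (l 17908944))) (l 4)) (b (l 4) (l 4))), by decide +kernel⟩

theorem c_pm_023 : CertN 0 536870912 0 1230186008 134217728 67108864 3 false true false .up 0 2 3
    ndN1q0 ndN3q3 pcN2 Cut.none Ext.none :=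
  certN0 (fam := false) (s1 := true) (s2 := false) (a := 0) (b := 2) (c := 3) (cn := .up) (n1 := ndN1q0) (n2 := ndN3q3) (pc := pcN2) (cut := Cut.none) (xt := Ext.none) (P1 := 0) (W1 := 536870912) (P2 := 0) (W2 := 1230186008) (P3 := 134217728) (W3 := 67108864) (N0 := 3)
    rfl k0_pm_023

noncomputable def f_pm_033 : ℕ → ℕ → ℕ → ℕ → Bool := onCell 0 536870912 0 1230186008 134217728 67108864
    (rowN 3 0 false true false .pnn 0 3 3 (qsf 0 536870912 0 1230186008 3) ndN1q0 ndN3q3 pcN3 Cut.none Ext.none)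

def k0_pm_033 : ∃ t, chk3 f_pm_033 t 1 1 1 = true :=
  ⟨(b (a (l 4) (a (l 4) (b (l 18150632) (l 4)))) (b (l 4) (l 4))), by decide +kernel⟩

theorem c_pm_033 : CertN 0 536870912 0 1230186008 134217728 67108864 3 false true false .pnn 0 3 3
    ndN1q0 ndN3q3 pcN3 Cut.none Ext.none :=
  certN0 (fam := false) (s1 := true) (s2 := false) (a := 0) (b := 3) (c := 3) (cn := .pnn) (n1 := ndN1q0) (n2 := ndN3q3) (pc := pcN3) (cut := Cut.none) (xt := Ext.none) (P1 := 0) (W1 := 536870912) (P2 := 0) (W2 := 1230186008) (P3 := 134217728) (W3 := 67108864) (N0 := 3)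
    rfl k0_pm_033

noncomputable def f_pm_101 : ℕ → ℕ → ℕ → ℕ → Bool := onCell 536870912 536870912 536870912 536870912 134217728 67108864
    (rowN 3 0 false true false .npn 1 0 1 (qsf 536870912 536870912 536870912 536870912 0) ndN1q1 ndN3q1 pcN0 Cut.none Ext.none)

def k0_pm_101 : ∃ t, chk3 f_pm_101 t 1 1 1 = true :=
  ⟨(l 4), by decide +kernel⟩

theorem c_pm_101 : CertN 536870912 536870912 536870912 536870912 134217728 67108864 3 false true false .npn 1 0 1
    ndN1q1 ndN3q1 pcN0 Cut.none Ext.none :=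
  certN0 (fam := false) (s1 := true) (s2 := false) (a := 1) (b := 0) (c := 1) (cn := .npn) (n1 := ndN1q1) (n2 := ndN3q1) (pc := pcN0) (cut := Cut.none) (xt := Ext.none) (P1 := 536870912) (W1 := 536870912) (P2 := 536870912) (W2 := 536870912) (P3 := 134217728) (W3 := 67108864) (N0 := 3)
    rfl k0_pm_101

noncomputable def f_pm_102 : ℕ → ℕ → ℕ → ℕ → Bool := onCell 536870912 536870912 1073741824 536870912 134217728 67108864
    (rowN 3 0 false true false .npp 1 0 2 (qsf 536870912 536870912 1073741824 536870912 0) ndN1q1 ndN3q2 pcN0 Cut.none Ext.none)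

def k0_pm_102 : ∃ t, chk3 f_pm_102 t 1 1 1 = true :=
  ⟨(a (l 4) (b (a (l 4) (b (b (l 18477536) (b (b (l 18461536) (l 18439392)) (l 18602128))) (b (b (b (l 18376416) (l 18357336)) (l 18305048)) (a (l 18304504) (l 18156528))))) (a (b (l 4) (a (l 2) (b (l 18372360) (l 2)))) (b (a (b (l 18247736) (l 18172536)) (l 17966072)) (a (b (l 18040664) (l 17803736)) (b (l 17676928) (l 17470768))))))), by decide +kernel⟩

theorem c_pm_102 : CertN 536870912 536870912 1073741824 536870912 134217728 67108864 3 false true false .npp 1 0 2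
    ndN1q1 ndN3q2 pcN0 Cut.none Ext.none :=
  certN0 (fam := false) (s1 := true) (s2 := false) (a := 1) (b := 0) (c := 2) (cn := .npp) (n1 := ndN1q1) (n2 := ndN3q2) (pc := pcN0) (cut := Cut.none) (xt := Ext.none) (P1 := 536870912) (W1 := 536870912) (P2 := 1073741824) (W2 := 536870912) (P3 := 134217728) (W3 := 67108864) (N0 := 3)
    rfl k0_pm_102

noncomputable def f_pm_112 : ℕ → ℕ → ℕ → ℕ → Bool := onCell 536870912 536870912 1073741824 536870912 134217728 67108864
    (rowN 3 2 false true false .dn 1 1 2 (qsf 536870912 536870912 1073741824 536870912 1) ndN1q1 ndN3q2 pcN1 Cut.none Ext.none)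

def k0_pm_112 : ∃ t, chk3 f_pm_112 t 1 1 1 = true :=
  ⟨(a (b (l 4) (a (l 18417056) (l 18624400))) (l 4)), by decide +kernel⟩

theorem c_pm_112 : CertN 536870912 536870912 1073741824 536870912 134217728 67108864 3 false true false .dn 1 1 2
    ndN1q1 ndN3q2 pcN1 Cut.none Ext.none :=
  certN2 (fam := false) (s1 := true) (s2 := false) (a := 1) (b := 1) (c := 2) (cn := .dn) (n1 := ndN1q1) (n2 := ndN3q2) (pc := pcN1) (cut := Cut.none) (xt := Ext.none) (P1 := 536870912) (W1 := 536870912) (P2 := 1073741824) (W2 := 536870912) (P3 := 134217728) (W3 := 67108864) (N0 := 3)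
    rfl (fun _ => rfl) k0_pm_112

noncomputable def f_pm_113 : ℕ → ℕ → ℕ → ℕ → Bool := onCell 536870912 536870912 0 1230186008 134217728 67108864
    (rowN 3 2 false true false .nn 1 1 3 (qsf 536870912 536870912 0 1230186008 1) ndN1q1 ndN3q3 pcN1 Cut.none Ext.none)

def k0_pm_113 : ∃ t, chk3 f_pm_113 t 1 1 1 = true :=
  ⟨(b (a (l 2) (a (l 2) (b (l 515497437991) (l 17066048)))) (b (a (a (l 2) (b (l 2) (a (l 2) (l 17108744)))) (a (b (l 17028016) (a (l 17280936) (l 17502024))) (a (b (l 17377216) (l 17775296)) (l 17869472)))) (a (a (b (l 2) (a (l 17416024) (l 17561720))) (b (l 17333776) (l 17762048))) (a (a (b (l 17676752) (l 18072104)) (l 18181848)) (b (a (l 18164728) (l 18336768)) (l 4)))))), by decide +kernel⟩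

theorem c_pm_113 : CertN 536870912 536870912 0 1230186008 134217728 67108864 3 false true false .nn 1 1 3
    ndN1q1 ndN3q3 pcN1 Cut.none Ext.none :=
  certN2 (fam := false) (s1 := true) (s2 := false) (a := 1) (b := 1) (c := 3) (cn := .nn) (n1 := ndN1q1) (n2 := ndN3q3) (pc := pcN1) (cut := Cut.none) (xt := Ext.none) (P1 := 536870912) (W1 := 536870912) (P2 := 0) (W2 := 1230186008) (P3 := 134217728) (W3 := 67108864) (N0 := 3)
    rfl (fun _ => rfl) k0_pm_113

noncomputable def f_pm_123 : ℕ → ℕ → ℕ → ℕ → Bool := onCell 1073741824 536870912 0 1230186008 134217728 67108864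
    (rowN 3 2 false true false .npn 1 2 3 (qsf 536870912 536870912 0 1230186008 2) ndN1q1 ndN3q3 pcN2 Cut.none Ext.none)

def k0_pm_123 : ∃ t, chk3 f_pm_123 t 1 1 1 = true :=
  ⟨(a (b (b (a (a (l 17345024) (a (l 17373072) (l 17392696))) (l 17422568)) (a (b (l 17521912) (l 17697408)) (l 17623688))) (b (a (l 18024056) (l 17916104)) (a (l 18449896) (l 4)))) (b (a (l 17400576) (l 17251904)) (b (a (l 17734040) (l 4)) (l 1)))), by decide +kernel⟩

theorem c_pm_123 : CertN 536870912 536870912 0 1230186008 134217728 67108864 3 false true false .npn 1 2 3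
    ndN1q1 ndN3q3 pcN2 Cut.none Ext.none :=
  certN2 (fam := false) (s1 := true) (s2 := false) (a := 1) (b := 2) (c := 3) (cn := .npn) (n1 := ndN1q1) (n2 := ndN3q3) (pc := pcN2) (cut := Cut.none) (xt := Ext.none) (P1 := 536870912) (W1 := 536870912) (P2 := 0) (W2 := 1230186008) (P3 := 134217728) (W3 := 67108864) (N0 := 3)
    rfl (fun _ => rfl) k0_pm_123

noncomputable def f_pm_133 : ℕ → ℕ → ℕ → ℕ → Bool := onCell 1610612736 536870912 0 1230186008 134217728 67108864
    (rowN 3 2 false true false .dn 1 3 3 (qsf 536870912 536870912 0 1230186008 3) ndN1q1 ndN3q3 pcN3 Cut.none Ext.none)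

def k0_pm_133 : ∃ t, chk3 f_pm_133 t 1 1 1 = true :=
  ⟨(b (a (a (a (l 16904864) (l 1)) (l 1)) (l 1)) (l 1)), by decide +kernel⟩

theorem c_pm_133 : CertN 536870912 536870912 0 1230186008 134217728 67108864 3 false true false .dn 1 3 3
    ndN1q1 ndN3q3 pcN3 Cut.none Ext.none :=
  certN2 (fam := false) (s1 := true) (s2 := false) (a := 1) (b := 3) (c := 3) (cn := .dn) (n1 := ndN1q1) (n2 := ndN3q3) (pc := pcN3) (cut := Cut.none) (xt := Ext.none) (P1 := 536870912) (W1 := 536870912) (P2 := 0) (W2 := 1230186008) (P3 := 134217728) (W3 := 67108864) (N0 := 3)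
    rfl (fun _ => rfl) k0_pm_133

noncomputable def f_pm_202_a : ℕ → ℕ → ℕ → ℕ → Bool := onCell 0 536870912 1073741824 536870912 134217728 67108864
    (rowN 3 0 false true false .pp 2 0 2 (qsf 0 536870912 1073741824 536870912 0) ndN1q2a ndN3q2 pcN0 Cut.none Ext.none)

def k0_pm_202_a : ∃ t, chk3 f_pm_202_a t 2 1 1 = true :=
  ⟨(b (a (b (l 1) (l 3)) (b (a (l 1) (b (l 1) (b (l 1) (b (l 1) (b (l 1) (l 16851872)))))) (b (b (b (a (b (l 1) (c (a (b (l 1) (l 804265743767)) (l 16536312)) (a (a (l 1) (l 827888116807)) (l 16519880)))) (b (l 546031332231) (a (l 16602256) (l 16628216)))) (c (a (a (a (l 3) (b (b (l 130090209351) (l 139217022215)) (b (l 139217030423) (b (l 139217043719) (l 139217058791))))) (b (b (l 16600392) (l 16669656)) (b (l 16761936) (b (l 16823456) (a (l 16865736) (l 16858544)))))) (b (l 16557256) (b (l 16741592) (a (l 16835536) (l 16827072))))) (a (b (a (l 132237564567) (l 16563440)) (b (l 141901185735) (b (l 140290574791) (a (l 142438066631) (l 16525760)))))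 (b (l 16541624) (b (l 16530472) (l 16600064)))))) (b (a (a (l 3) (c (a (b (l 16960088) (l 17090944)) (l 17021816)) (a (l 16527216) (l 16499200)))) (a (c (l 17014848) (l 16497376)) (l 16654624))) (a (a (l 3) (c (l 138144029447) (l 139217061015))) (a (l 16840064) (l 16916752))))) (b (a (a (l 3) (c (b (l 17360064) (l 17514248)) (b (l 138680492151) (l 138143775831)))) (a (b (l 17017112) (l 17184520)) (l 16979520))) (a (a (l 3) (c (l 136534501127) (l 137607387991))) (c (l 17609776) (a (l 17223448) (l 17215560)))))))) (a (l 3) (b (a (l 3) (b (c (l 17727504) (b (l 17382280) (l 17481832))) (l 136534797687))) (b (l 152641337335) (l 3))))), by decide +kernel⟩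

def k1_pm_202_a : ∃ t, chk3 f_pm_202_a t 3 1 1 = true :=
  ⟨(b (a (a (b (b (l 1) (b (l 1) (b (b (l 17008512) (l 16949952)) (b (l 16888640) (l 16825064))))) (b (b (b (b (l 16759496) (l 16692240)) (b (l 16623784) (b (l 16571440) (l 16610784)))) (b (l 16652912) (l 16908536))) (b (b (l 17096248) (l 17237736)) (l 17390120)))) (b (b (l 1) (b (b (l 17225968) (b (l 17158840) (l 17112792))) (b (l 17268888) (l 16930320)))) (b (b (b (l 16813016) (b (l 16700160) (b (l 16651960) (l 16620896)))) (l 16793832)) (b (l 17152568) (l 17362960))))) (b (a (b (b (l 1) (a (b (l 1) (l 17311240)) (b (l 17352504) (l 17325520)))) (b (b (l 17251904) (b (l 17188568) (l 17145872))) (b (l 17055744) (l 16956312)))) (b (b (a (l 17409224) (l 17429368)) (a (b (l 17375856) (l 17336768)) (l 17365872))) (b (b (l 17271984) (b (l 17214168) (l 17175184))) (b (l 17089576) (l 16997552))))) (b (b (b (a (l 16847968) (l 16897144)) (b (l 16792376) (a (l 16707120) (l 16767696)))) (a (l 16809592) (l 16844032)))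 (b (a (l 17133168) (l 17117280)) (a (l 17334928) (l 17303840)))))) (b (a (b (a (l 17565632) (l 17540056)) (a (l 17652904) (l 17634376))) (b (a (l 17509656) (l 17475528)) (a (l 17607704) (l 17573664)))) (a (b (l 17663592) (l 17630960)) (a (l 17818048) (l 17819000))))), by decide +kernel⟩

theorem s2_pm_202_a : ∃ t, chk3 f_pm_202_a t 1 1 1 = true := ex3_a k0_pm_202_a k1_pm_202_a

theorem c_pm_202_a : CertN 0 536870912 1073741824 536870912 134217728 67108864 3 false true false .pp 2 0 2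
    ndN1q2a ndN3q2 pcN0 Cut.none Ext.none :=
  certN0 (fam := false) (s1 := true) (s2 := false) (a := 2) (b := 0) (c := 2) (cn := .pp) (n1 := ndN1q2a) (n2 := ndN3q2) (pc := pcN0) (cut := Cut.none) (xt := Ext.none) (P1 := 0) (W1 := 536870912) (P2 := 1073741824) (W2 := 536870912) (P3 := 134217728) (W3 := 67108864) (N0 := 3)
    rfl s2_pm_202_a

noncomputable def f_pm_202_b : ℕ → ℕ → ℕ → ℕ → Bool := onCell 1239849684 370763052 0 536870912 134217728 67108864
    (rowN 3 1 false true false .pp 2 0 2 (qsf 1239849684 370763052 1073741824 536870912 0) ndN1q2b ndN3q2 pcN0 Cut.none Ext.none)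

def k0_pm_202_b : ∃ t, chk3 f_pm_202_b t 1 1 1 = true :=
  ⟨(b (l 3) (l 3)), by decide +kernel⟩

theorem c_pm_202_b : CertN 1239849684 370763052 1073741824 536870912 134217728 67108864 3 false true false .pp 2 0 2
    ndN1q2b ndN3q2 pcN0 Cut.none Ext.none :=
  certN1 (fam := false) (s1 := true) (s2 := false) (a := 2) (b := 0) (c := 2) (cn := .pp) (n1 := ndN1q2b) (n2 := ndN3q2) (pc := pcN0) (cut := Cut.none) (xt := Ext.none) (P1 := 1239849684) (W1 := 370763052) (P2 := 1073741824) (W2 := 536870912) (P3 := 134217728) (W3 := 67108864) (N0 := 3)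
    rfl (fun _ => rfl) k0_pm_202_b

noncomputable def f_pm_203_a : ℕ → ℕ → ℕ → ℕ → Bool := onCell 0 536870912 0 1230186008 134217728 67108864
    (rowN 3 0 false true false .up 2 0 3 (qsf 0 536870912 0 1230186008 0) ndN1q2a ndN3q3 pcN0 Cut.none Ext.none)

def k0_pm_203_a : ∃ t, chk3 f_pm_203_a t 1 1 1 = true :=
  ⟨(b (l 2) (b (l 2) (a (b (l 3) (l 3)) (b (l 2) (a (b (l 130629235831) (a (l 17674816) (l 17706440))) (b (l 17922648) (l 17855056))))))), by decide +kernel⟩

theorem c_pm_203_a : CertN 0 536870912 0 1230186008 134217728 67108864 3 false true false .up 2 0 3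
    ndN1q2a ndN3q3 pcN0 Cut.none Ext.none :=
  certN0 (fam := false) (s1 := true) (s2 := false) (a := 2) (b := 0) (c := 3) (cn := .up) (n1 := ndN1q2a) (n2 := ndN3q3) (pc := pcN0) (cut := Cut.none) (xt := Ext.none) (P1 := 0) (W1 := 536870912) (P2 := 0) (W2 := 1230186008) (P3 := 134217728) (W3 := 67108864) (N0 := 3)
    rfl k0_pm_203_a

noncomputable def f_pm_203_b : ℕ → ℕ → ℕ → ℕ → Bool := onCell 1239849684 370763052 0 1230186008 134217728 67108864
    (rowN 3 0 false true false .up 2 0 3 (qsf 1239849684 370763052 0 1230186008 0) ndN1q2b ndN3q3 pcN0 Cut.none Ext.none)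

def k0_pm_203_b : ∃ t, chk3 f_pm_203_b t 1 1 1 = true :=
  ⟨(b (l 3) (b (l 3) (l 3))), by decide +kernel⟩

theorem c_pm_203_b : CertN 1239849684 370763052 0 1230186008 134217728 67108864 3 false true false .up 2 0 3
    ndN1q2b ndN3q3 pcN0 Cut.none Ext.none :=
  certN0 (fam := false) (s1 := true) (s2 := false) (a := 2) (b := 0) (c := 3) (cn := .up) (n1 := ndN1q2b) (n2 := ndN3q3) (pc := pcN0) (cut := Cut.none) (xt := Ext.none) (P1 := 1239849684) (W1 := 370763052) (P2 := 0) (W2 := 1230186008) (P3 := 134217728) (W3 := 67108864) (N0 := 3)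
    rfl k0_pm_203_b

noncomputable def cut_pm_213_a : Cut := Cut.of [[⟨0, 1, 0, 39843005⟩, ⟨1, 1, 0, 39843005⟩, ⟨2, 2, 0, 5814905⟩]]

noncomputable def f_pm_213_a : ℕ → ℕ → ℕ → ℕ → Bool := onCell 0 536870912 0 1230186008 134217728 67108864
    (rowN 3 0 false true false .pnn 2 1 3 (qsf 0 536870912 0 1230186008 1) ndN1q2a ndN3q3 pcN1 cut_pm_213_a Ext.none)

def k0_pm_213_a : ∃ t, chk3 f_pm_213_a t 1 1 1 = true :=
  ⟨(b (a (l 3) (b (a (l 3) (a (l 3) (b (a (l 3) (b (l 6) (a (l 349670760503) (l 177872110407)))) (a (b (l 3) (l 386714919255)) (b (l 176261557383) (l 16823088)))))) (a (l 3) (b (a (l 3) (b (l 170893037095) (l 16903336))) (b (a (l 458655828599) (l 16945176)) (l 161229942407)))))) (b (a (l 3) (a (b (l 3) (b (l 3) (l 266993651095))) (b (b (l 152103256759) (a (l 17110176) (l 17105832))) (a (b (l 17193416) (l 17283056)) (l 17227064))))) (a (b (l 3) (l 3)) (b (a (b (l 166599477239) (l 156399106007)) (b (l 17569640) (l 17651336))) (a (b (a (l 17580064) (l 17557648))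 (l 1)) (b (a (l 17520784) (l 17506008)) (a (l 17568568) (l 17552440)))))))), by decide +kernel⟩

theorem c_pm_213_a : CertN 0 536870912 0 1230186008 134217728 67108864 3 false true false .pnn 2 1 3
    ndN1q2a ndN3q3 pcN1 cut_pm_213_a Ext.none :=
  certN0 (fam := false) (s1 := true) (s2 := false) (a := 2) (b := 1) (c := 3) (cn := .pnn) (n1 := ndN1q2a) (n2 := ndN3q3) (pc := pcN1) (cut := cut_pm_213_a) (xt := Ext.none) (P1 := 0) (W1 := 536870912) (P2 := 0) (W2 := 1230186008) (P3 := 134217728) (W3 := 67108864) (N0 := 3)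
    rfl k0_pm_213_a

noncomputable def cut_pm_213_b : Cut := Cut.of [[⟨0, 1, 0, 39843005⟩, ⟨1, 1, 0, 39843005⟩, ⟨2, 2, 0, 5814905⟩]]

noncomputable def f_pm_213_b : ℕ → ℕ → ℕ → ℕ → Bool := onCell 1239849684 370763052 0 1230186008 134217728 67108864
    (rowN 3 0 false true false .pnn 2 1 3 (qsf 1239849684 370763052 0 1230186008 1) ndN1q2b ndN3q3 pcN1 cut_pm_213_b Ext.none)

def k0_pm_213_b : ∃ t, chk3 f_pm_213_b t 1 1 1 = true :=
  ⟨(b (l 3) (b (l 3) (l 3))), by decide +kernel⟩

theorem c_pm_213_b : CertN 1239849684 370763052 0 1230186008 134217728 67108864 3 false true false .pnn 2 1 3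
    ndN1q2b ndN3q3 pcN1 cut_pm_213_b Ext.none :=
  certN0 (fam := false) (s1 := true) (s2 := false) (a := 2) (b := 1) (c := 3) (cn := .pnn) (n1 := ndN1q2b) (n2 := ndN3q3) (pc := pcN1) (cut := cut_pm_213_b) (xt := Ext.none) (P1 := 1239849684) (W1 := 370763052) (P2 := 0) (W2 := 1230186008) (P3 := 134217728) (W3 := 67108864) (N0 := 3)
    rfl k0_pm_213_b

noncomputable def f_pm_303 : ℕ → ℕ → ℕ → ℕ → Bool := onCell 1610612736 536870912 0 1230186008 134217728 67108864
    (rowN 3 0 false true false .npn 3 0 3 (qsf 1610612736 536870912 0 1230186008 0) ndN1q3 ndN3q3 pcN0 Cut.none Ext.none)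

def k0_pm_303 : ∃ t, chk3 f_pm_303 t 1 1 1 = true :=
  ⟨(b (l 3) (l 3)), by decide +kernel⟩

theorem c_pm_303 : CertN 1610612736 536870912 0 1230186008 134217728 67108864 3 false true false .npn 3 0 3
    ndN1q3 ndN3q3 pcN0 Cut.none Ext.none :=
  certN0 (fam := false) (s1 := true) (s2 := false) (a := 3) (b := 0) (c := 3) (cn := .npn) (n1 := ndN1q3) (n2 := ndN3q3) (pc := pcN0) (cut := Cut.none) (xt := Ext.none) (P1 := 1610612736) (W1 := 536870912) (P2 := 0) (W2 := 1230186008) (P3 := 134217728) (W3 := 67108864) (N0 := 3)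
    rfl k0_pm_303

noncomputable def f_pm_313 : ℕ → ℕ → ℕ → ℕ → Bool := onCell 1610612736 536870912 0 1230186008 134217728 67108864
    (rowN 3 0 false true false .dn 3 1 3 (qsf 1610612736 536870912 0 1230186008 1) ndN1q3 ndN3q3 pcN1 Cut.none Ext.none)

def k0_pm_313 : ∃ t, chk3 f_pm_313 t 1 1 1 = true :=
  ⟨(b (l 3) (l 1)), by decide +kernel⟩

theorem c_pm_313 : CertN 1610612736 536870912 0 1230186008 134217728 67108864 3 false true false .dn 3 1 3
    ndN1q3 ndN3q3 pcN1 Cut.none Ext.none :=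
  certN0 (fam := false) (s1 := true) (s2 := false) (a := 3) (b := 1) (c := 3) (cn := .dn) (n1 := ndN1q3) (n2 := ndN3q3) (pc := pcN1) (cut := Cut.none) (xt := Ext.none) (P1 := 1610612736) (W1 := 536870912) (P2 := 0) (W2 := 1230186008) (P3 := 134217728) (W3 := 67108864) (N0 := 3)
    rfl k0_pm_313

noncomputable def f_mm_001 : ℕ → ℕ → ℕ → ℕ → Bool := onCell 0 536870912 0 536870912 134217728 67108864
    (rowN 3 1 false false false .up 0 0 1 (qsf 0 536870912 536870912 536870912 0) ndN1q0 ndN3q1 pcN0 Cut.none Ext.none)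

def k0_mm_001 : ∃ t, chk3 f_mm_001 t 1 1 1 = true :=
  ⟨(l 3), by decide +kernel⟩

theorem c_mm_001 : CertN 0 536870912 536870912 536870912 134217728 67108864 3 false false false .up 0 0 1
    ndN1q0 ndN3q1 pcN0 Cut.none Ext.none :=
  certN1 (fam := false) (s1 := false) (s2 := false) (a := 0) (b := 0) (c := 1) (cn := .up) (n1 := ndN1q0) (n2 := ndN3q1) (pc := pcN0) (cut := Cut.none) (xt := Ext.none) (P1 := 0) (W1 := 536870912) (P2 := 536870912) (W2 := 536870912) (P3 := 134217728) (W3 := 67108864) (N0 := 3)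
    rfl (fun _ => rfl) k0_mm_001

noncomputable def f_mm_011 : ℕ → ℕ → ℕ → ℕ → Bool := onCell 0 536870912 536870912 536870912 134217728 67108864
    (rowN 3 1 false false false .pnn 0 1 1 (qsf 0 536870912 536870912 536870912 1) ndN1q0 ndN3q1 pcN1 Cut.none Ext.none)

def k0_mm_011 : ∃ t, chk3 f_mm_011 t 1 1 1 = true :=
  ⟨(l 5), by decide +kernel⟩

theorem c_mm_011 : CertN 0 536870912 536870912 536870912 134217728 67108864 3 false false false .pnn 0 1 1
    ndN1q0 ndN3q1 pcN1 Cut.none Ext.none :=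
  certN1 (fam := false) (s1 := false) (s2 := false) (a := 0) (b := 1) (c := 1) (cn := .pnn) (n1 := ndN1q0) (n2 := ndN3q1) (pc := pcN1) (cut := Cut.none) (xt := Ext.none) (P1 := 0) (W1 := 536870912) (P2 := 536870912) (W2 := 536870912) (P3 := 134217728) (W3 := 67108864) (N0 := 3)
    rfl (fun _ => rfl) k0_mm_011

noncomputable def f_mm_012 : ℕ → ℕ → ℕ → ℕ → Bool := onCell 0 536870912 1073741824 536870912 134217728 67108864
    (rowN 3 0 false false false .pnp 0 1 2 (qsf 0 536870912 1073741824 536870912 1) ndN1q0 ndN3q2 pcN1 Cut.none Ext.none)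

def k0_mm_012 : ∃ t, chk3 f_mm_012 t 1 1 1 = true :=
  ⟨(l 5), by decide +kernel⟩

theorem c_mm_012 : CertN 0 536870912 1073741824 536870912 134217728 67108864 3 false false false .pnp 0 1 2
    ndN1q0 ndN3q2 pcN1 Cut.none Ext.none :=
  certN0 (fam := false) (s1 := false) (s2 := false) (a := 0) (b := 1) (c := 2) (cn := .pnp) (n1 := ndN1q0) (n2 := ndN3q2) (pc := pcN1) (cut := Cut.none) (xt := Ext.none) (P1 := 0) (W1 := 536870912) (P2 := 1073741824) (W2 := 536870912) (P3 := 134217728) (W3 := 67108864) (N0 := 3)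
    rfl k0_mm_012

noncomputable def f_mm_022 : ℕ → ℕ → ℕ → ℕ → Bool := onCell 0 536870912 1073741824 536870912 134217728 67108864
    (rowN 3 0 false false false .pp 0 2 2 (qsf 0 536870912 1073741824 536870912 2) ndN1q0 ndN3q2 pcN2 Cut.none Ext.none)

def k0_mm_022 : ∃ t, chk3 f_mm_022 t 1 1 1 = true :=
  ⟨(l 5), by decide +kernel⟩

theorem c_mm_022 : CertN 0 536870912 1073741824 536870912 134217728 67108864 3 false false false .pp 0 2 2
    ndN1q0 ndN3q2 pcN2 Cut.none Ext.none :=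
  certN0 (fam := false) (s1 := false) (s2 := false) (a := 0) (b := 2) (c := 2) (cn := .pp) (n1 := ndN1q0) (n2 := ndN3q2) (pc := pcN2) (cut := Cut.none) (xt := Ext.none) (P1 := 0) (W1 := 536870912) (P2 := 1073741824) (W2 := 536870912) (P3 := 134217728) (W3 := 67108864) (N0 := 3)
    rfl k0_mm_022

noncomputable def f_mm_023 : ℕ → ℕ → ℕ → ℕ → Bool := onCell 0 536870912 0 1230186008 134217728 67108864
    (rowN 3 0 false false false .up 0 2 3 (qsf 0 536870912 0 1230186008 2) ndN1q0 ndN3q3 pcN2 Cut.none Ext.none)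

def k0_mm_023 : ∃ t, chk3 f_mm_023 t 1 1 1 = true :=
  ⟨(l 5), by decide +kernel⟩

theorem c_mm_023 : CertN 0 536870912 0 1230186008 134217728 67108864 3 false false false .up 0 2 3
    ndN1q0 ndN3q3 pcN2 Cut.none Ext.none :=
  certN0 (fam := false) (s1 := false) (s2 := false) (a := 0) (b := 2) (c := 3) (cn := .up) (n1 := ndN1q0) (n2 := ndN3q3) (pc := pcN2) (cut := Cut.none) (xt := Ext.none) (P1 := 0) (W1 := 536870912) (P2 := 0) (W2 := 1230186008) (P3 := 134217728) (W3 := 67108864) (N0 := 3)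
    rfl k0_mm_023

noncomputable def f_mm_033 : ℕ → ℕ → ℕ → ℕ → Bool := onCell 0 536870912 0 1230186008 134217728 67108864
    (rowN 3 0 false false false .pnn 0 3 3 (qsf 0 536870912 0 1230186008 3) ndN1q0 ndN3q3 pcN3 Cut.none Ext.none)

def k0_mm_033 : ∃ t, chk3 f_mm_033 t 1 1 1 = true :=
  ⟨(l 5), by decide +kernel⟩

theorem c_mm_033 : CertN 0 536870912 0 1230186008 134217728 67108864 3 false false false .pnn 0 3 3
    ndN1q0 ndN3q3 pcN3 Cut.none Ext.none :=
  certN0 (fam := false) (s1 := false) (s2 := false) (a := 0) (b := 3) (c := 3) (cn := .pnn) (n1 := ndN1q0) (n2 := ndN3q3) (pc := pcN3) (cut := Cut.none) (xt := Ext.none) (P1 := 0) (W1 := 536870912) (P2 := 0) (W2 := 1230186008) (P3 := 134217728) (W3 := 67108864) (N0 := 3)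
    rfl k0_mm_033

noncomputable def f_mm_101 : ℕ → ℕ → ℕ → ℕ → Bool := onCell 536870912 536870912 536870912 536870912 134217728 67108864
    (rowN 3 0 false false false .npn 1 0 1 (qsf 536870912 536870912 536870912 536870912 0) ndN1q1 ndN3q1 pcN0 Cut.none Ext.none)

def k0_mm_101 : ∃ t, chk3 f_mm_101 t 1 1 1 = true :=
  ⟨(l 3), by decide +kernel⟩

theorem c_mm_101 : CertN 536870912 536870912 536870912 536870912 134217728 67108864 3 false false false .npn 1 0 1
    ndN1q1 ndN3q1 pcN0 Cut.none Ext.none :=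
  certN0 (fam := false) (s1 := false) (s2 := false) (a := 1) (b := 0) (c := 1) (cn := .npn) (n1 := ndN1q1) (n2 := ndN3q1) (pc := pcN0) (cut := Cut.none) (xt := Ext.none) (P1 := 536870912) (W1 := 536870912) (P2 := 536870912) (W2 := 536870912) (P3 := 134217728) (W3 := 67108864) (N0 := 3)
    rfl k0_mm_101

noncomputable def f_mm_102 : ℕ → ℕ → ℕ → ℕ → Bool := onCell 536870912 536870912 1073741824 536870912 134217728 67108864
    (rowN 3 0 false false false .npp 1 0 2 (qsf 536870912 536870912 1073741824 536870912 0) ndN1q1 ndN3q2 pcN0 Cut.none Ext.none)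

def k0_mm_102 : ∃ t, chk3 f_mm_102 t 1 1 1 = true :=
  ⟨(l 5), by decide +kernel⟩

theorem c_mm_102 : CertN 536870912 536870912 1073741824 536870912 134217728 67108864 3 false false false .npp 1 0 2
    ndN1q1 ndN3q2 pcN0 Cut.none Ext.none :=
  certN0 (fam := false) (s1 := false) (s2 := false) (a := 1) (b := 0) (c := 2) (cn := .npp) (n1 := ndN1q1) (n2 := ndN3q2) (pc := pcN0) (cut := Cut.none) (xt := Ext.none) (P1 := 536870912) (W1 := 536870912) (P2 := 1073741824) (W2 := 536870912) (P3 := 134217728) (W3 := 67108864) (N0 := 3)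
    rfl k0_mm_102

noncomputable def f_mm_112 : ℕ → ℕ → ℕ → ℕ → Bool := onCell 536870912 536870912 1073741824 536870912 134217728 67108864
    (rowN 3 0 false false false .dn 1 1 2 (qsf 536870912 536870912 1073741824 536870912 1) ndN1q1 ndN3q2 pcN1 Cut.none Ext.none)

def k0_mm_112 : ∃ t, chk3 f_mm_112 t 1 1 1 = true :=
  ⟨(l 5), by decide +kernel⟩

theorem c_mm_112 : CertN 536870912 536870912 1073741824 536870912 134217728 67108864 3 false false false .dn 1 1 2
    ndN1q1 ndN3q2 pcN1 Cut.none Ext.none :=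
  certN0 (fam := false) (s1 := false) (s2 := false) (a := 1) (b := 1) (c := 2) (cn := .dn) (n1 := ndN1q1) (n2 := ndN3q2) (pc := pcN1) (cut := Cut.none) (xt := Ext.none) (P1 := 536870912) (W1 := 536870912) (P2 := 1073741824) (W2 := 536870912) (P3 := 134217728) (W3 := 67108864) (N0 := 3)
    rfl k0_mm_112

noncomputable def f_mm_113 : ℕ → ℕ → ℕ → ℕ → Bool := onCell 536870912 536870912 0 1230186008 134217728 67108864
    (rowN 3 0 false false false .nn 1 1 3 (qsf 536870912 536870912 0 1230186008 1) ndN1q1 ndN3q3 pcN1 Cut.none Ext.none)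

def k0_mm_113 : ∃ t, chk3 f_mm_113 t 1 1 1 = true :=
  ⟨(l 5), by decide +kernel⟩

theorem c_mm_113 : CertN 536870912 536870912 0 1230186008 134217728 67108864 3 false false false .nn 1 1 3
    ndN1q1 ndN3q3 pcN1 Cut.none Ext.none :=
  certN0 (fam := false) (s1 := false) (s2 := false) (a := 1) (b := 1) (c := 3) (cn := .nn) (n1 := ndN1q1) (n2 := ndN3q3) (pc := pcN1) (cut := Cut.none) (xt := Ext.none) (P1 := 536870912) (W1 := 536870912) (P2 := 0) (W2 := 1230186008) (P3 := 134217728) (W3 := 67108864) (N0 := 3)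
    rfl k0_mm_113

noncomputable def f_mm_123 : ℕ → ℕ → ℕ → ℕ → Bool := onCell 536870912 536870912 0 1230186008 134217728 67108864
    (rowN 3 0 false false false .npn 1 2 3 (qsf 536870912 536870912 0 1230186008 2) ndN1q1 ndN3q3 pcN2 Cut.none Ext.none)

def k0_mm_123 : ∃ t, chk3 f_mm_123 t 1 1 1 = true :=
  ⟨(l 5), by decide +kernel⟩

theorem c_mm_123 : CertN 536870912 536870912 0 1230186008 134217728 67108864 3 false false false .npn 1 2 3
    ndN1q1 ndN3q3 pcN2 Cut.none Ext.none :=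
  certN0 (fam := false) (s1 := false) (s2 := false) (a := 1) (b := 2) (c := 3) (cn := .npn) (n1 := ndN1q1) (n2 := ndN3q3) (pc := pcN2) (cut := Cut.none) (xt := Ext.none) (P1 := 536870912) (W1 := 536870912) (P2 := 0) (W2 := 1230186008) (P3 := 134217728) (W3 := 67108864) (N0 := 3)
    rfl k0_mm_123

noncomputable def f_mm_133 : ℕ → ℕ → ℕ → ℕ → Bool := onCell 536870912 536870912 0 1230186008 134217728 67108864
    (rowN 3 0 false false false .dn 1 3 3 (qsf 536870912 536870912 0 1230186008 3) ndN1q1 ndN3q3 pcN3 Cut.none Ext.none)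

def k0_mm_133 : ∃ t, chk3 f_mm_133 t 1 1 1 = true :=
  ⟨(l 5), by decide +kernel⟩

theorem c_mm_133 : CertN 536870912 536870912 0 1230186008 134217728 67108864 3 false false false .dn 1 3 3
    ndN1q1 ndN3q3 pcN3 Cut.none Ext.none :=
  certN0 (fam := false) (s1 := false) (s2 := false) (a := 1) (b := 3) (c := 3) (cn := .dn) (n1 := ndN1q1) (n2 := ndN3q3) (pc := pcN3) (cut := Cut.none) (xt := Ext.none) (P1 := 536870912) (W1 := 536870912) (P2 := 0) (W2 := 1230186008) (P3 := 134217728) (W3 := 67108864) (N0 := 3)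
    rfl k0_mm_133

noncomputable def f_mm_202_a : ℕ → ℕ → ℕ → ℕ → Bool := onCell 0 536870912 1073741824 536870912 134217728 67108864
    (rowN 3 0 false false false .pp 2 0 2 (qsf 0 536870912 1073741824 536870912 0) ndN1q2a ndN3q2 pcN0 Cut.none Ext.none)

def k0_mm_202_a : ∃ t, chk3 f_mm_202_a t 1 1 1 = true :=
  ⟨(l 3), by decide +kernel⟩

theorem c_mm_202_a : CertN 0 536870912 1073741824 536870912 134217728 67108864 3 false false false .pp 2 0 2
    ndN1q2a ndN3q2 pcN0 Cut.none Ext.none :=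
  certN0 (fam := false) (s1 := false) (s2 := false) (a := 2) (b := 0) (c := 2) (cn := .pp) (n1 := ndN1q2a) (n2 := ndN3q2) (pc := pcN0) (cut := Cut.none) (xt := Ext.none) (P1 := 0) (W1 := 536870912) (P2 := 1073741824) (W2 := 536870912) (P3 := 134217728) (W3 := 67108864) (N0 := 3)
    rfl k0_mm_202_a

noncomputable def f_mm_202_b : ℕ → ℕ → ℕ → ℕ → Bool := onCell 1239849684 370763052 1073741824 536870912 134217728 67108864
    (rowN 3 0 false false false .pp 2 0 2 (qsf 1239849684 370763052 1073741824 536870912 0) ndN1q2b ndN3q2 pcN0 Cut.none Ext.none)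

def k0_mm_202_b : ∃ t, chk3 f_mm_202_b t 1 1 1 = true :=
  ⟨(l 3), by decide +kernel⟩

theorem c_mm_202_b : CertN 1239849684 370763052 1073741824 536870912 134217728 67108864 3 false false false .pp 2 0 2
    ndN1q2b ndN3q2 pcN0 Cut.none Ext.none :=
  certN0 (fam := false) (s1 := false) (s2 := false) (a := 2) (b := 0) (c := 2) (cn := .pp) (n1 := ndN1q2b) (n2 := ndN3q2) (pc := pcN0) (cut := Cut.none) (xt := Ext.none) (P1 := 1239849684) (W1 := 370763052) (P2 := 1073741824) (W2 := 536870912) (P3 := 134217728) (W3 := 67108864) (N0 := 3)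
    rfl k0_mm_202_b

noncomputable def f_mm_203_a : ℕ → ℕ → ℕ → ℕ → Bool := onCell 0 536870912 0 1230186008 134217728 67108864
    (rowN 3 0 false false false .up 2 0 3 (qsf 0 536870912 0 1230186008 0) ndN1q2a ndN3q3 pcN0 Cut.none Ext.none)

def k0_mm_203_a : ∃ t, chk3 f_mm_203_a t 1 1 1 = true :=
  ⟨(b (l 2) (l 3)), by decide +kernel⟩

theorem c_mm_203_a : CertN 0 536870912 0 1230186008 134217728 67108864 3 false false false .up 2 0 3
    ndN1q2a ndN3q3 pcN0 Cut.none Ext.none :=
  certN0 (fam := false) (s1 := false) (s2 := false) (a := 2) (b := 0) (c := 3) (cn := .up) (n1 := ndN1q2a) (n2 := ndN3q3) (pc := pcN0) (cut := Cut.none) (xt := Ext.none) (P1 := 0) (W1 := 536870912) (P2 := 0) (W2 := 1230186008) (P3 := 134217728) (W3 := 67108864) (N0 := 3)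
    rfl k0_mm_203_a

noncomputable def f_mm_203_b : ℕ → ℕ → ℕ → ℕ → Bool := onCell 1239849684 370763052 0 1230186008 134217728 67108864
    (rowN 3 0 false false false .up 2 0 3 (qsf 1239849684 370763052 0 1230186008 0) ndN1q2b ndN3q3 pcN0 Cut.none Ext.none)

def k0_mm_203_b : ∃ t, chk3 f_mm_203_b t 1 1 1 = true :=
  ⟨(b (l 3) (l 3)), by decide +kernel⟩

theorem c_mm_203_b : CertN 1239849684 370763052 0 1230186008 134217728 67108864 3 false false false .up 2 0 3
    ndN1q2b ndN3q3 pcN0 Cut.none Ext.none :=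
  certN0 (fam := false) (s1 := false) (s2 := false) (a := 2) (b := 0) (c := 3) (cn := .up) (n1 := ndN1q2b) (n2 := ndN3q3) (pc := pcN0) (cut := Cut.none) (xt := Ext.none) (P1 := 1239849684) (W1 := 370763052) (P2 := 0) (W2 := 1230186008) (P3 := 134217728) (W3 := 67108864) (N0 := 3)
    rfl k0_mm_203_b

noncomputable def f_mm_213_a : ℕ → ℕ → ℕ → ℕ → Bool := onCell 0 536870912 0 1230186008 134217728 67108864
    (rowN 3 0 false false false .pnn 2 1 3 (qsf 0 536870912 0 1230186008 1) ndN1q2a ndN3q3 pcN1 Cut.none Ext.none)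

def k0_mm_213_a : ∃ t, chk3 f_mm_213_a t 1 1 1 = true :=
  ⟨(b (l 5) (l 3)), by decide +kernel⟩

theorem c_mm_213_a : CertN 0 536870912 0 1230186008 134217728 67108864 3 false false false .pnn 2 1 3
    ndN1q2a ndN3q3 pcN1 Cut.none Ext.none :=
  certN0 (fam := false) (s1 := false) (s2 := false) (a := 2) (b := 1) (c := 3) (cn := .pnn) (n1 := ndN1q2a) (n2 := ndN3q3) (pc := pcN1) (cut := Cut.none) (xt := Ext.none) (P1 := 0) (W1 := 536870912) (P2 := 0) (W2 := 1230186008) (P3 := 134217728) (W3 := 67108864) (N0 := 3)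
    rfl k0_mm_213_a

noncomputable def f_mm_213_b : ℕ → ℕ → ℕ → ℕ → Bool := onCell 1239849684 370763052 0 1230186008 134217728 67108864
    (rowN 3 0 false false false .pnn 2 1 3 (qsf 1239849684 370763052 0 1230186008 1) ndN1q2b ndN3q3 pcN1 Cut.none Ext.none)

def k0_mm_213_b : ∃ t, chk3 f_mm_213_b t 1 1 1 = true :=
  ⟨(b (l 3) (l 3)), by decide +kernel⟩

theorem c_mm_213_b : CertN 1239849684 370763052 0 1230186008 134217728 67108864 3 false false false .pnn 2 1 3
    ndN1q2b ndN3q3 pcN1 Cut.none Ext.none :=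
  certN0 (fam := false) (s1 := false) (s2 := false) (a := 2) (b := 1) (c := 3) (cn := .pnn) (n1 := ndN1q2b) (n2 := ndN3q3) (pc := pcN1) (cut := Cut.none) (xt := Ext.none) (P1 := 1239849684) (W1 := 370763052) (P2 := 0) (W2 := 1230186008) (P3 := 134217728) (W3 := 67108864) (N0 := 3)
    rfl k0_mm_213_b

noncomputable def f_mm_303 : ℕ → ℕ → ℕ → ℕ → Bool := onCell 1610612736 536870912 0 1230186008 134217728 67108864
    (rowN 3 0 false false false .npn 3 0 3 (qsf 1610612736 536870912 0 1230186008 0) ndN1q3 ndN3q3 pcN0 Cut.none Ext.none)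

def k0_mm_303 : ∃ t, chk3 f_mm_303 t 1 1 1 = true :=
  ⟨(b (l 3) (l 3)), by decide +kernel⟩

theorem c_mm_303 : CertN 1610612736 536870912 0 1230186008 134217728 67108864 3 false false false .npn 3 0 3
    ndN1q3 ndN3q3 pcN0 Cut.none Ext.none :=
  certN0 (fam := false) (s1 := false) (s2 := false) (a := 3) (b := 0) (c := 3) (cn := .npn) (n1 := ndN1q3) (n2 := ndN3q3) (pc := pcN0) (cut := Cut.none) (xt := Ext.none) (P1 := 1610612736) (W1 := 536870912) (P2 := 0) (W2 := 1230186008) (P3 := 134217728) (W3 := 67108864) (N0 := 3)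
    rfl k0_mm_303

noncomputable def f_mm_313 : ℕ → ℕ → ℕ → ℕ → Bool := onCell 1610612736 536870912 0 1230186008 134217728 67108864
    (rowN 3 0 false false false .dn 3 1 3 (qsf 1610612736 536870912 0 1230186008 1) ndN1q3 ndN3q3 pcN1 Cut.none Ext.none)

def k0_mm_313 : ∃ t, chk3 f_mm_313 t 1 1 1 = true :=
  ⟨(b (l 3) (l 1)), by decide +kernel⟩

theorem c_mm_313 : CertN 1610612736 536870912 0 1230186008 134217728 67108864 3 false false false .dn 3 1 3
    ndN1q3 ndN3q3 pcN1 Cut.none Ext.none :=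
  certN0 (fam := false) (s1 := false) (s2 := false) (a := 3) (b := 1) (c := 3) (cn := .dn) (n1 := ndN1q3) (n2 := ndN3q3) (pc := pcN1) (cut := Cut.none) (xt := Ext.none) (P1 := 1610612736) (W1 := 536870912) (P2 := 0) (W2 := 1230186008) (P3 := 134217728) (W3 := 67108864) (N0 := 3)
    rfl k0_mm_313

end Pool.Agent.Strip051.G.I1_8_3_16.Tab.C.NB13

namespace Pool.Agent.Strip051.G.I1_8_3_16.Tab.C.NB14

open Pool.Agent.Strip051.PB Pool.Agent.Strip051.PB.T
open Pool.Agent.Strip051.G.I1_8_3_16.Tab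

noncomputable def f_pp_001 : ℕ → ℕ → ℕ → ℕ → Bool := onCell 0 536870912 0 536870912 134217728 67108864
    (rowN 3 1 false true true .up 0 0 1 (qsf 0 536870912 536870912 536870912 0) ndN1q0 ndN4q1 pcN0 Cut.none Ext.none)

def k0_pp_001 : ∃ t, chk3 f_pp_001 t 1 1 1 = true :=
  ⟨(l 3), by decide +kernel⟩

theorem c_pp_001 : CertN 0 536870912 536870912 536870912 134217728 67108864 3 false true true .up 0 0 1
    ndN1q0 ndN4q1 pcN0 Cut.none Ext.none :=
  certN1 (fam := false) (s1 := true) (s2 := true) (a := 0) (b := 0) (c := 1) (cn := .up) (n1 := ndN1q0) (n2 := ndN4q1) (pc := pcN0) (cut := Cut.none) (xt := Ext.none) (P1 := 0) (W1 := 536870912) (P2 := 536870912) (W2 := 536870912) (P3 := 134217728) (W3 := 67108864) (N0 := 3)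
    rfl (fun _ => rfl) k0_pp_001

noncomputable def cut_pp_011 : Cut := Cut.of [[⟨0, 0, 0, 67108864⟩, ⟨1, 1, 0, 67108864⟩, ⟨2, 1, 0, 67108864⟩]]

noncomputable def f_pp_011 : ℕ → ℕ → ℕ → ℕ → Bool := onCell 0 536870912 536870912 536870912 134217728 67108864
    (rowN 3 1 false true true .pnn 0 1 1 (qsf 0 536870912 536870912 536870912 1) ndN1q0 ndN4q1 pcN1 cut_pp_011 Ext.none)

def k0_pp_011 : ∃ t, chk3 f_pp_011 t 1 1 1 = true :=
  ⟨(b (l 3) (b (l 3) (a (b (l 3) (a (a (a (b (l 3) (l 6)) (l 3)) (l 3)) (l 2))) (l 2)))), by decide +kernel⟩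

theorem c_pp_011 : CertN 0 536870912 536870912 536870912 134217728 67108864 3 false true true .pnn 0 1 1
    ndN1q0 ndN4q1 pcN1 cut_pp_011 Ext.none :=
  certN1 (fam := false) (s1 := true) (s2 := true) (a := 0) (b := 1) (c := 1) (cn := .pnn) (n1 := ndN1q0) (n2 := ndN4q1) (pc := pcN1) (cut := cut_pp_011) (xt := Ext.none) (P1 := 0) (W1 := 536870912) (P2 := 536870912) (W2 := 536870912) (P3 := 134217728) (W3 := 67108864) (N0 := 3)
    rfl (fun _ => rfl) k0_pp_011

noncomputable def f_pp_012 : ℕ → ℕ → ℕ → ℕ → Bool := onCell 0 536870912 536870912 536870912 134217728 67108864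
    (rowN 3 1 false true true .pnp 0 1 2 (qsf 0 536870912 1073741824 536870912 1) ndN1q0 ndN4q2 pcN1 Cut.none Ext.none)

def k0_pp_012 : ∃ t, chk3 f_pp_012 t 1 1 1 = true :=
  ⟨(l 3), by decide +kernel⟩

theorem c_pp_012 : CertN 0 536870912 1073741824 536870912 134217728 67108864 3 false true true .pnp 0 1 2
    ndN1q0 ndN4q2 pcN1 Cut.none Ext.none :=
  certN1 (fam := false) (s1 := true) (s2 := true) (a := 0) (b := 1) (c := 2) (cn := .pnp) (n1 := ndN1q0) (n2 := ndN4q2) (pc := pcN1) (cut := Cut.none) (xt := Ext.none) (P1 := 0) (W1 := 536870912) (P2 := 1073741824) (W2 := 536870912) (P3 := 134217728) (W3 := 67108864) (N0 := 3)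
    rfl (fun _ => rfl) k0_pp_012

noncomputable def f_pp_022 : ℕ → ℕ → ℕ → ℕ → Bool := onCell 0 536870912 1073741824 536870912 134217728 67108864
    (rowN 3 1 false true true .pp 0 2 2 (qsf 0 536870912 1073741824 536870912 2) ndN1q0 ndN4q2 pcN2 Cut.none Ext.none)

def k0_pp_022 : ∃ t, chk3 f_pp_022 t 1 1 1 = true :=
  ⟨(a (b (b (l 3) (b (a (b (b (l 3) (b (l 3) (b (a (l 3) (l 17417024)) (a (a (b (a (c (l 16798368) (l 16526208)) (l 16893800)) (a (c (l 17045680) (l 16480024)) (l 16925984))) (b (l 3) (l 17189664))) (b (l 17438480) (l 17452776)))))) (a (a (a (c (a (l 17115800) (l 17371632)) (a (l 16538000) (l 16686320))) (c (l 17475640) (l 16867728))) (l 17181816)) (l 17568272))) (b (b (l 17508432) (b (l 17559768) (b (l 17584672) (a (l 17575944) (l 17618032))))) (l 17677224))) (a (a (a (b (a (c (l 17734352) (l 17125192)) (l 17542496)) (c (l 18038664) (l 17539504))) (c (l 17977352) (l 17557288))) (l 17840904)) (l 17852184)))) (a (b (a (b (a (c (l 18314320) (l 17893288))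 (l 18117880)) (l 18351304)) (l 18193728)) (a (l 18533592) (l 18416440))) (b (l 18094280) (l 18250568)))) (b (b (b (l 3) (a (l 552072842311) (l 17477048))) (b (b (b (l 17593928) (b (l 17604568) (a (b (l 17619888) (l 17629952)) (l 2)))) (a (l 17681368) (l 2))) (a (l 17802680) (l 2)))) (b (a (l 17954168) (l 2)) (l 2)))), by decide +kernel⟩

theorem c_pp_022 : CertN 0 536870912 1073741824 536870912 134217728 67108864 3 false true true .pp 0 2 2
    ndN1q0 ndN4q2 pcN2 Cut.none Ext.none :=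
  certN1 (fam := false) (s1 := true) (s2 := true) (a := 0) (b := 2) (c := 2) (cn := .pp) (n1 := ndN1q0) (n2 := ndN4q2) (pc := pcN2) (cut := Cut.none) (xt := Ext.none) (P1 := 0) (W1 := 536870912) (P2 := 1073741824) (W2 := 536870912) (P3 := 134217728) (W3 := 67108864) (N0 := 3)
    rfl (fun _ => rfl) k0_pp_022

noncomputable def f_pp_023 : ℕ → ℕ → ℕ → ℕ → Bool := onCell 1073741824 536870912 0 1230186008 134217728 67108864
    (rowN 3 2 false true true .up 0 2 3 (qsf 0 536870912 0 1230186008 2) ndN1q0 ndN4q3 pcN2 Cut.none Ext.none)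

def k0_pp_023 : ∃ t, chk3 f_pp_023 t 1 1 1 = true :=
  ⟨(b (a (l 2) (a (l 2) (l 18001664))) (a (a (b (l 2) (b (l 2) (a (l 17761904) (l 17829088)))) (b (a (l 2) (l 17918704)) (a (a (a (l 17886952) (b (l 17905296) (l 18092864))) (l 17897760)) (b (l 17919640) (l 17944072))))) (b (l 17959456) (a (l 18208336) (l 18142616))))), by decide +kernel⟩

theorem c_pp_023 : CertN 0 536870912 0 1230186008 134217728 67108864 3 false true true .up 0 2 3
    ndN1q0 ndN4q3 pcN2 Cut.none Ext.none :=
  certN2 (fam := false) (s1 := true) (s2 := true) (a := 0) (b := 2) (c := 3) (cn := .up) (n1 := ndN1q0) (n2 := ndN4q3) (pc := pcN2) (cut := Cut.none) (xt := Ext.none) (P1 := 0) (W1 := 536870912) (P2 := 0) (W2 := 1230186008) (P3 := 134217728) (W3 := 67108864) (N0 := 3)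
    rfl (fun _ => rfl) k0_pp_023

noncomputable def f_pp_033 : ℕ → ℕ → ℕ → ℕ → Bool := onCell 0 536870912 0 1230186008 134217728 67108864
    (rowN 3 0 false true true .pnn 0 3 3 (qsf 0 536870912 0 1230186008 3) ndN1q0 ndN4q3 pcN3 Cut.none Ext.none)

def k0_pp_033 : ∃ t, chk3 f_pp_033 t 1 1 1 = true :=
  ⟨(b (b (a (l 4) (a (l 17586096) (l 17553136))) (a (a (a (b (l 4) (l 17805432)) (l 17749792)) (a (l 17699864) (l 17549696))) (a (b (l 17606936) (a (l 17514624) (l 17418736))) (b (l 17412408) (l 17316664))))) (b (a (a (b (a (l 17769136) (l 17722832)) (l 17761552)) (b (b (l 17587344) (l 17593224)) (l 17639600))) (a (b (l 17450912) (l 17519608)) (l 17379472))) (a (b (l 17815512) (l 18146792)) (l 1)))), by decide +kernel⟩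

theorem c_pp_033 : CertN 0 536870912 0 1230186008 134217728 67108864 3 false true true .pnn 0 3 3
    ndN1q0 ndN4q3 pcN3 Cut.none Ext.none :=
  certN0 (fam := false) (s1 := true) (s2 := true) (a := 0) (b := 3) (c := 3) (cn := .pnn) (n1 := ndN1q0) (n2 := ndN4q3) (pc := pcN3) (cut := Cut.none) (xt := Ext.none) (P1 := 0) (W1 := 536870912) (P2 := 0) (W2 := 1230186008) (P3 := 134217728) (W3 := 67108864) (N0 := 3)
    rfl k0_pp_033

noncomputable def f_pp_101 : ℕ → ℕ → ℕ → ℕ → Bool := onCell 536870912 536870912 536870912 536870912 134217728 67108864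
    (rowN 3 0 false true true .npn 1 0 1 (qsf 536870912 536870912 536870912 536870912 0) ndN1q1 ndN4q1 pcN0 Cut.none Ext.none)

def k0_pp_101 : ∃ t, chk3 f_pp_101 t 1 1 1 = true :=
  ⟨(l 3), by decide +kernel⟩

theorem c_pp_101 : CertN 536870912 536870912 536870912 536870912 134217728 67108864 3 false true true .npn 1 0 1
    ndN1q1 ndN4q1 pcN0 Cut.none Ext.none :=
  certN0 (fam := false) (s1 := true) (s2 := true) (a := 1) (b := 0) (c := 1) (cn := .npn) (n1 := ndN1q1) (n2 := ndN4q1) (pc := pcN0) (cut := Cut.none) (xt := Ext.none) (P1 := 536870912) (W1 := 536870912) (P2 := 536870912) (W2 := 536870912) (P3 := 134217728) (W3 := 67108864) (N0 := 3)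
    rfl k0_pp_101

noncomputable def f_pp_102 : ℕ → ℕ → ℕ → ℕ → Bool := onCell 536870912 536870912 1073741824 536870912 134217728 67108864
    (rowN 3 0 false true true .npp 1 0 2 (qsf 536870912 536870912 1073741824 536870912 0) ndN1q1 ndN4q2 pcN0 Cut.none Ext.none)

def k0_pp_102 : ∃ t, chk3 f_pp_102 t 1 1 1 = true :=
  ⟨(l 3), by decide +kernel⟩

theorem c_pp_102 : CertN 536870912 536870912 1073741824 536870912 134217728 67108864 3 false true true .npp 1 0 2
    ndN1q1 ndN4q2 pcN0 Cut.none Ext.none :=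
  certN0 (fam := false) (s1 := true) (s2 := true) (a := 1) (b := 0) (c := 2) (cn := .npp) (n1 := ndN1q1) (n2 := ndN4q2) (pc := pcN0) (cut := Cut.none) (xt := Ext.none) (P1 := 536870912) (W1 := 536870912) (P2 := 1073741824) (W2 := 536870912) (P3 := 134217728) (W3 := 67108864) (N0 := 3)
    rfl k0_pp_102

noncomputable def f_pp_112 : ℕ → ℕ → ℕ → ℕ → Bool := onCell 536870912 536870912 1073741824 536870912 134217728 67108864
    (rowN 3 0 false true true .dn 1 1 2 (qsf 536870912 536870912 1073741824 536870912 1) ndN1q1 ndN4q2 pcN1 Cut.none Ext.none)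

def k0_pp_112 : ∃ t, chk3 f_pp_112 t 1 1 1 = true :=
  ⟨(l 3), by decide +kernel⟩

theorem c_pp_112 : CertN 536870912 536870912 1073741824 536870912 134217728 67108864 3 false true true .dn 1 1 2
    ndN1q1 ndN4q2 pcN1 Cut.none Ext.none :=
  certN0 (fam := false) (s1 := true) (s2 := true) (a := 1) (b := 1) (c := 2) (cn := .dn) (n1 := ndN1q1) (n2 := ndN4q2) (pc := pcN1) (cut := Cut.none) (xt := Ext.none) (P1 := 536870912) (W1 := 536870912) (P2 := 1073741824) (W2 := 536870912) (P3 := 134217728) (W3 := 67108864) (N0 := 3)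
    rfl k0_pp_112

noncomputable def f_pp_113 : ℕ → ℕ → ℕ → ℕ → Bool := onCell 536870912 536870912 0 1230186008 134217728 67108864
    (rowN 3 2 false true true .nn 1 1 3 (qsf 536870912 536870912 0 1230186008 1) ndN1q1 ndN4q3 pcN1 Cut.none Ext.none)

def k0_pp_113 : ∃ t, chk3 f_pp_113 t 1 1 1 = true :=
  ⟨(b (a (l 2) (a (l 2) (b (l 557373335015) (a (l 16906752) (l 16954728))))) (a (b (l 3) (l 3)) (b (a (l 3) (a (l 17061480) (l 17133984))) (a (l 3) (b (l 17195904) (l 3)))))), by decide +kernel⟩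

theorem c_pp_113 : CertN 536870912 536870912 0 1230186008 134217728 67108864 3 false true true .nn 1 1 3
    ndN1q1 ndN4q3 pcN1 Cut.none Ext.none :=
  certN2 (fam := false) (s1 := true) (s2 := true) (a := 1) (b := 1) (c := 3) (cn := .nn) (n1 := ndN1q1) (n2 := ndN4q3) (pc := pcN1) (cut := Cut.none) (xt := Ext.none) (P1 := 536870912) (W1 := 536870912) (P2 := 0) (W2 := 1230186008) (P3 := 134217728) (W3 := 67108864) (N0 := 3)
    rfl (fun _ => rfl) k0_pp_113

noncomputable def f_pp_123 : ℕ → ℕ → ℕ → ℕ → Bool := onCell 1073741824 536870912 0 1230186008 134217728 67108864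
    (rowN 3 2 false true true .npn 1 2 3 (qsf 536870912 536870912 0 1230186008 2) ndN1q1 ndN4q3 pcN2 Cut.none Ext.none)

def k0_pp_123 : ∃ t, chk3 f_pp_123 t 1 1 1 = true :=
  ⟨(b (b (a (a (a (l 17218528) (a (a (l 17267680) (l 17278216)) (l 17290408))) (a (a (l 17316312) (l 17323920)) (l 17327280))) (a (l 17313832) (l 17223800))) (a (a (a (l 17173648) (a (a (l 17213048) (l 17220328)) (l 17205128))) (a (a (l 17286008) (l 17239208)) (l 17229488))) (a (l 17241560) (l 17205496)))) (b (a (a (a (l 17232488) (a (a (l 17215480) (l 17218440)) (a (l 17218760) (l 17218888)))) (a (a (a (l 17216104) (l 17215136)) (l 17194816)) (l 17160720))) (l 17105056)) (a (a (a (l 17443920) (a (a (l 17209352) (l 17456672)) (b (l 17203840) (l 17161280)))) (a (a (a (l 17177896) (l 244311092823)) (l 17133408)) (l 17320344))) (l 1)))), by decide +kernel⟩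

theorem c_pp_123 : CertN 536870912 536870912 0 1230186008 134217728 67108864 3 false true true .npn 1 2 3
    ndN1q1 ndN4q3 pcN2 Cut.none Ext.none :=
  certN2 (fam := false) (s1 := true) (s2 := true) (a := 1) (b := 2) (c := 3) (cn := .npn) (n1 := ndN1q1) (n2 := ndN4q3) (pc := pcN2) (cut := Cut.none) (xt := Ext.none) (P1 := 536870912) (W1 := 536870912) (P2 := 0) (W2 := 1230186008) (P3 := 134217728) (W3 := 67108864) (N0 := 3)
    rfl (fun _ => rfl) k0_pp_123

noncomputable def f_pp_133 : ℕ → ℕ → ℕ → ℕ → Bool := onCell 1610612736 536870912 0 1230186008 134217728 67108864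
    (rowN 3 2 false true true .dn 1 3 3 (qsf 536870912 536870912 0 1230186008 3) ndN1q1 ndN4q3 pcN3 Cut.none Ext.none)

def k0_pp_133 : ∃ t, chk3 f_pp_133 t 1 1 1 = true :=
  ⟨(a (b (a (b (l 16898432) (l 1)) (l 1)) (l 1)) (l 1)), by decide +kernel⟩

theorem c_pp_133 : CertN 536870912 536870912 0 1230186008 134217728 67108864 3 false true true .dn 1 3 3
    ndN1q1 ndN4q3 pcN3 Cut.none Ext.none :=
  certN2 (fam := false) (s1 := true) (s2 := true) (a := 1) (b := 3) (c := 3) (cn := .dn) (n1 := ndN1q1) (n2 := ndN4q3) (pc := pcN3) (cut := Cut.none) (xt := Ext.none) (P1 := 536870912) (W1 := 536870912) (P2 := 0) (W2 := 1230186008) (P3 := 134217728) (W3 := 67108864) (N0 := 3)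
    rfl (fun _ => rfl) k0_pp_133

noncomputable def f_pp_202_a : ℕ → ℕ → ℕ → ℕ → Bool := onCell 0 536870912 1073741824 536870912 134217728 67108864
    (rowN 3 0 false true true .pp 2 0 2 (qsf 0 536870912 1073741824 536870912 0) ndN1q2a ndN4q2 pcN0 Cut.none Ext.none)

def k0_pp_202_a : ∃ t, chk3 f_pp_202_a t 1 1 1 = true :=
  ⟨(l 3), by decide +kernel⟩

theorem c_pp_202_a : CertN 0 536870912 1073741824 536870912 134217728 67108864 3 false true true .pp 2 0 2
    ndN1q2a ndN4q2 pcN0 Cut.none Ext.none :=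
  certN0 (fam := false) (s1 := true) (s2 := true) (a := 2) (b := 0) (c := 2) (cn := .pp) (n1 := ndN1q2a) (n2 := ndN4q2) (pc := pcN0) (cut := Cut.none) (xt := Ext.none) (P1 := 0) (W1 := 536870912) (P2 := 1073741824) (W2 := 536870912) (P3 := 134217728) (W3 := 67108864) (N0 := 3)
    rfl k0_pp_202_a

noncomputable def f_pp_202_b : ℕ → ℕ → ℕ → ℕ → Bool := onCell 1239849684 370763052 1073741824 536870912 134217728 67108864
    (rowN 3 0 false true true .pp 2 0 2 (qsf 1239849684 370763052 1073741824 536870912 0) ndN1q2b ndN4q2 pcN0 Cut.none Ext.none)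

def k0_pp_202_b : ∃ t, chk3 f_pp_202_b t 1 1 1 = true :=
  ⟨(l 5), by decide +kernel⟩

theorem c_pp_202_b : CertN 1239849684 370763052 1073741824 536870912 134217728 67108864 3 false true true .pp 2 0 2
    ndN1q2b ndN4q2 pcN0 Cut.none Ext.none :=
  certN0 (fam := false) (s1 := true) (s2 := true) (a := 2) (b := 0) (c := 2) (cn := .pp) (n1 := ndN1q2b) (n2 := ndN4q2) (pc := pcN0) (cut := Cut.none) (xt := Ext.none) (P1 := 1239849684) (W1 := 370763052) (P2 := 1073741824) (W2 := 536870912) (P3 := 134217728) (W3 := 67108864) (N0 := 3)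
    rfl k0_pp_202_b

noncomputable def f_pp_203_a : ℕ → ℕ → ℕ → ℕ → Bool := onCell 0 536870912 0 1230186008 134217728 67108864
    (rowN 3 0 false true true .up 2 0 3 (qsf 0 536870912 0 1230186008 0) ndN1q2a ndN4q3 pcN0 Cut.none Ext.none)

def k0_pp_203_a : ∃ t, chk3 f_pp_203_a t 1 1 1 = true :=
  ⟨(b (l 2) (l 3)), by decide +kernel⟩

theorem c_pp_203_a : CertN 0 536870912 0 1230186008 134217728 67108864 3 false true true .up 2 0 3
    ndN1q2a ndN4q3 pcN0 Cut.none Ext.none :=
  certN0 (fam := false) (s1 := true) (s2 := true) (a := 2) (b := 0) (c := 3) (cn := .up) (n1 := ndN1q2a) (n2 := ndN4q3) (pc := pcN0) (cut := Cut.none) (xt := Ext.none) (P1 := 0) (W1 := 536870912) (P2 := 0) (W2 := 1230186008) (P3 := 134217728) (W3 := 67108864) (N0 := 3)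
    rfl k0_pp_203_a

noncomputable def f_pp_203_b : ℕ → ℕ → ℕ → ℕ → Bool := onCell 1239849684 370763052 0 1230186008 134217728 67108864
    (rowN 3 0 false true true .up 2 0 3 (qsf 1239849684 370763052 0 1230186008 0) ndN1q2b ndN4q3 pcN0 Cut.none Ext.none)

def k0_pp_203_b : ∃ t, chk3 f_pp_203_b t 1 1 1 = true :=
  ⟨(b (l 3) (l 3)), by decide +kernel⟩

theorem c_pp_203_b : CertN 1239849684 370763052 0 1230186008 134217728 67108864 3 false true true .up 2 0 3
    ndN1q2b ndN4q3 pcN0 Cut.none Ext.none :=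
  certN0 (fam := false) (s1 := true) (s2 := true) (a := 2) (b := 0) (c := 3) (cn := .up) (n1 := ndN1q2b) (n2 := ndN4q3) (pc := pcN0) (cut := Cut.none) (xt := Ext.none) (P1 := 1239849684) (W1 := 370763052) (P2 := 0) (W2 := 1230186008) (P3 := 134217728) (W3 := 67108864) (N0 := 3)
    rfl k0_pp_203_b

noncomputable def cut_pp_213_a : Cut := Cut.of [[⟨0, 1, 0, 39843005⟩, ⟨1, 1, 0, 39843005⟩, ⟨2, 2, 0, 5814905⟩]]

noncomputable def f_pp_213_a : ℕ → ℕ → ℕ → ℕ → Bool := onCell 0 536870912 0 1230186008 134217728 67108864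
    (rowN 3 0 false true true .pnn 2 1 3 (qsf 0 536870912 0 1230186008 1) ndN1q2a ndN4q3 pcN1 cut_pp_213_a Ext.none)

def k0_pp_213_a : ∃ t, chk3 f_pp_213_a t 1 1 1 = true :=
  ⟨(b (a (l 3) (b (a (l 3) (b (a (l 3) (b (a (l 3) (l 6)) (l 3))) (l 3))) (l 3))) (l 3)), by decide +kernel⟩

theorem c_pp_213_a : CertN 0 536870912 0 1230186008 134217728 67108864 3 false true true .pnn 2 1 3
    ndN1q2a ndN4q3 pcN1 cut_pp_213_a Ext.none :=
  certN0 (fam := false) (s1 := true) (s2 := true) (a := 2) (b := 1) (c := 3) (cn := .pnn) (n1 := ndN1q2a) (n2 := ndN4q3) (pc := pcN1) (cut := cut_pp_213_a) (xt := Ext.none) (P1 := 0) (W1 := 536870912) (P2 := 0) (W2 := 1230186008) (P3 := 134217728) (W3 := 67108864) (N0 := 3)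
    rfl k0_pp_213_a

noncomputable def cut_pp_213_b : Cut := Cut.of [[⟨0, 1, 0, 39843005⟩, ⟨1, 1, 0, 39843005⟩, ⟨2, 2, 0, 5814905⟩]]

noncomputable def f_pp_213_b : ℕ → ℕ → ℕ → ℕ → Bool := onCell 1239849684 370763052 0 1230186008 134217728 67108864
    (rowN 3 0 false true true .pnn 2 1 3 (qsf 1239849684 370763052 0 1230186008 1) ndN1q2b ndN4q3 pcN1 cut_pp_213_b Ext.none)

def k0_pp_213_b : ∃ t, chk3 f_pp_213_b t 1 1 1 = true :=
  ⟨(b (l 3) (l 3)), by decide +kernel⟩

theorem c_pp_213_b : CertN 1239849684 370763052 0 1230186008 134217728 67108864 3 false true true .pnn 2 1 3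
    ndN1q2b ndN4q3 pcN1 cut_pp_213_b Ext.none :=
  certN0 (fam := false) (s1 := true) (s2 := true) (a := 2) (b := 1) (c := 3) (cn := .pnn) (n1 := ndN1q2b) (n2 := ndN4q3) (pc := pcN1) (cut := cut_pp_213_b) (xt := Ext.none) (P1 := 1239849684) (W1 := 370763052) (P2 := 0) (W2 := 1230186008) (P3 := 134217728) (W3 := 67108864) (N0 := 3)
    rfl k0_pp_213_b

noncomputable def f_pp_303 : ℕ → ℕ → ℕ → ℕ → Bool := onCell 0 536870912 0 1230186008 134217728 67108864
    (rowN 3 2 false true true .npn 3 0 3 (qsf 1610612736 536870912 0 1230186008 0) ndN1q3 ndN4q3 pcN0 Cut.none Ext.none)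

def k0_pp_303 : ∃ t, chk3 f_pp_303 t 1 1 1 = true :=
  ⟨(b (l 3) (l 3)), by decide +kernel⟩

theorem c_pp_303 : CertN 1610612736 536870912 0 1230186008 134217728 67108864 3 false true true .npn 3 0 3
    ndN1q3 ndN4q3 pcN0 Cut.none Ext.none :=
  certN2 (fam := false) (s1 := true) (s2 := true) (a := 3) (b := 0) (c := 3) (cn := .npn) (n1 := ndN1q3) (n2 := ndN4q3) (pc := pcN0) (cut := Cut.none) (xt := Ext.none) (P1 := 1610612736) (W1 := 536870912) (P2 := 0) (W2 := 1230186008) (P3 := 134217728) (W3 := 67108864) (N0 := 3)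
    rfl (fun _ => rfl) k0_pp_303

noncomputable def f_pp_313 : ℕ → ℕ → ℕ → ℕ → Bool := onCell 1610612736 536870912 0 1230186008 134217728 67108864
    (rowN 3 0 false true true .dn 3 1 3 (qsf 1610612736 536870912 0 1230186008 1) ndN1q3 ndN4q3 pcN1 Cut.none Ext.none)

def k0_pp_313 : ∃ t, chk3 f_pp_313 t 1 1 1 = true :=
  ⟨(b (l 3) (l 1)), by decide +kernel⟩

theorem c_pp_313 : CertN 1610612736 536870912 0 1230186008 134217728 67108864 3 false true true .dn 3 1 3
    ndN1q3 ndN4q3 pcN1 Cut.none Ext.none :=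
  certN0 (fam := false) (s1 := true) (s2 := true) (a := 3) (b := 1) (c := 3) (cn := .dn) (n1 := ndN1q3) (n2 := ndN4q3) (pc := pcN1) (cut := Cut.none) (xt := Ext.none) (P1 := 1610612736) (W1 := 536870912) (P2 := 0) (W2 := 1230186008) (P3 := 134217728) (W3 := 67108864) (N0 := 3)
    rfl k0_pp_313

noncomputable def f_pm_001 : ℕ → ℕ → ℕ → ℕ → Bool := onCell 0 536870912 536870912 536870912 134217728 67108864
    (rowN 3 0 false true false .up 0 0 1 (qsf 0 536870912 536870912 536870912 0) ndN1q0 ndN4q1 pcN0 Cut.none Ext.none)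

def k0_pm_001 : ∃ t, chk3 f_pm_001 t 1 1 1 = true :=
  ⟨(l 4), by decide +kernel⟩

theorem c_pm_001 : CertN 0 536870912 536870912 536870912 134217728 67108864 3 false true false .up 0 0 1
    ndN1q0 ndN4q1 pcN0 Cut.none Ext.none :=
  certN0 (fam := false) (s1 := true) (s2 := false) (a := 0) (b := 0) (c := 1) (cn := .up) (n1 := ndN1q0) (n2 := ndN4q1) (pc := pcN0) (cut := Cut.none) (xt := Ext.none) (P1 := 0) (W1 := 536870912) (P2 := 536870912) (W2 := 536870912) (P3 := 134217728) (W3 := 67108864) (N0 := 3)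
    rfl k0_pm_001

noncomputable def f_pm_011 : ℕ → ℕ → ℕ → ℕ → Bool := onCell 0 536870912 536870912 536870912 134217728 67108864
    (rowN 3 0 false true false .pnn 0 1 1 (qsf 0 536870912 536870912 536870912 1) ndN1q0 ndN4q1 pcN1 Cut.none Ext.none)

def k0_pm_011 : ∃ t, chk3 f_pm_011 t 1 1 1 = true :=
  ⟨(l 4), by decide +kernel⟩

theorem c_pm_011 : CertN 0 536870912 536870912 536870912 134217728 67108864 3 false true false .pnn 0 1 1
    ndN1q0 ndN4q1 pcN1 Cut.none Ext.none :=
  certN0 (fam := false) (s1 := true) (s2 := false) (a := 0) (b := 1) (c := 1) (cn := .pnn) (n1 := ndN1q0) (n2 := ndN4q1) (pc := pcN1) (cut := Cut.none) (xt := Ext.none) (P1 := 0) (W1 := 536870912) (P2 := 536870912) (W2 := 536870912) (P3 := 134217728) (W3 := 67108864) (N0 := 3)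
    rfl k0_pm_011

noncomputable def f_pm_012 : ℕ → ℕ → ℕ → ℕ → Bool := onCell 0 536870912 1073741824 536870912 134217728 67108864
    (rowN 3 0 false true false .pnp 0 1 2 (qsf 0 536870912 1073741824 536870912 1) ndN1q0 ndN4q2 pcN1 Cut.none Ext.none)

def k0_pm_012 : ∃ t, chk3 f_pm_012 t 1 1 1 = true :=
  ⟨(l 4), by decide +kernel⟩

theorem c_pm_012 : CertN 0 536870912 1073741824 536870912 134217728 67108864 3 false true false .pnp 0 1 2
    ndN1q0 ndN4q2 pcN1 Cut.none Ext.none :=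
  certN0 (fam := false) (s1 := true) (s2 := false) (a := 0) (b := 1) (c := 2) (cn := .pnp) (n1 := ndN1q0) (n2 := ndN4q2) (pc := pcN1) (cut := Cut.none) (xt := Ext.none) (P1 := 0) (W1 := 536870912) (P2 := 1073741824) (W2 := 536870912) (P3 := 134217728) (W3 := 67108864) (N0 := 3)
    rfl k0_pm_012

noncomputable def f_pm_022 : ℕ → ℕ → ℕ → ℕ → Bool := onCell 0 536870912 1073741824 536870912 134217728 67108864
    (rowN 3 0 false true false .pp 0 2 2 (qsf 0 536870912 1073741824 536870912 2) ndN1q0 ndN4q2 pcN2 Cut.none Ext.none)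

def k0_pm_022 : ∃ t, chk3 f_pm_022 t 1 1 1 = true :=
  ⟨(l 4), by decide +kernel⟩

theorem c_pm_022 : CertN 0 536870912 1073741824 536870912 134217728 67108864 3 false true false .pp 0 2 2
    ndN1q0 ndN4q2 pcN2 Cut.none Ext.none :=
  certN0 (fam := false) (s1 := true) (s2 := false) (a := 0) (b := 2) (c := 2) (cn := .pp) (n1 := ndN1q0) (n2 := ndN4q2) (pc := pcN2) (cut := Cut.none) (xt := Ext.none) (P1 := 0) (W1 := 536870912) (P2 := 1073741824) (W2 := 536870912) (P3 := 134217728) (W3 := 67108864) (N0 := 3)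
    rfl k0_pm_022

noncomputable def f_pm_023 : ℕ → ℕ → ℕ → ℕ → Bool := onCell 0 536870912 0 1230186008 134217728 67108864
    (rowN 3 0 false true false .up 0 2 3 (qsf 0 536870912 0 1230186008 2) ndN1q0 ndN4q3 pcN2 Cut.none Ext.none)

def k0_pm_023 : ∃ t, chk3 f_pm_023 t 1 1 1 = true :=
  ⟨(b (b (a (l 2) (a (l 2) (l 17935560))) (l 4)) (l 4)), by decide +kernel⟩

theorem c_pm_023 : CertN 0 536870912 0 1230186008 134217728 67108864 3 false true false .up 0 2 3
    ndN1q0 ndN4q3 pcN2 Cut.none Ext.none :=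
  certN0 (fam := false) (s1 := true) (s2 := false) (a := 0) (b := 2) (c := 3) (cn := .up) (n1 := ndN1q0) (n2 := ndN4q3) (pc := pcN2) (cut := Cut.none) (xt := Ext.none) (P1 := 0) (W1 := 536870912) (P2 := 0) (W2 := 1230186008) (P3 := 134217728) (W3 := 67108864) (N0 := 3)
    rfl k0_pm_023

noncomputable def f_pm_033 : ℕ → ℕ → ℕ → ℕ → Bool := onCell 0 536870912 0 1230186008 134217728 67108864
    (rowN 3 0 false true false .pnn 0 3 3 (qsf 0 536870912 0 1230186008 3) ndN1q0 ndN4q3 pcN3 Cut.none Ext.none)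

def k0_pm_033 : ∃ t, chk3 f_pm_033 t 1 1 1 = true :=
  ⟨(b (a (l 4) (a (l 4) (b (l 17568184) (l 4)))) (l 4)), by decide +kernel⟩

theorem c_pm_033 : CertN 0 536870912 0 1230186008 134217728 67108864 3 false true false .pnn 0 3 3
    ndN1q0 ndN4q3 pcN3 Cut.none Ext.none :=
  certN0 (fam := false) (s1 := true) (s2 := false) (a := 0) (b := 3) (c := 3) (cn := .pnn) (n1 := ndN1q0) (n2 := ndN4q3) (pc := pcN3) (cut := Cut.none) (xt := Ext.none) (P1 := 0) (W1 := 536870912) (P2 := 0) (W2 := 1230186008) (P3 := 134217728) (W3 := 67108864) (N0 := 3)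
    rfl k0_pm_033

noncomputable def f_pm_101 : ℕ → ℕ → ℕ → ℕ → Bool := onCell 536870912 536870912 536870912 536870912 134217728 67108864
    (rowN 3 0 false true false .npn 1 0 1 (qsf 536870912 536870912 536870912 536870912 0) ndN1q1 ndN4q1 pcN0 Cut.none Ext.none)

def k0_pm_101 : ∃ t, chk3 f_pm_101 t 1 1 1 = true :=
  ⟨(l 4), by decide +kernel⟩

theorem c_pm_101 : CertN 536870912 536870912 536870912 536870912 134217728 67108864 3 false true false .npn 1 0 1
    ndN1q1 ndN4q1 pcN0 Cut.none Ext.none :=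
  certN0 (fam := false) (s1 := true) (s2 := false) (a := 1) (b := 0) (c := 1) (cn := .npn) (n1 := ndN1q1) (n2 := ndN4q1) (pc := pcN0) (cut := Cut.none) (xt := Ext.none) (P1 := 536870912) (W1 := 536870912) (P2 := 536870912) (W2 := 536870912) (P3 := 134217728) (W3 := 67108864) (N0 := 3)
    rfl k0_pm_101

noncomputable def f_pm_102 : ℕ → ℕ → ℕ → ℕ → Bool := onCell 536870912 536870912 1073741824 536870912 134217728 67108864
    (rowN 3 0 false true false .npp 1 0 2 (qsf 536870912 536870912 1073741824 536870912 0) ndN1q1 ndN4q2 pcN0 Cut.none Ext.none)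

def k0_pm_102 : ∃ t, chk3 f_pm_102 t 1 1 1 = true :=
  ⟨(l 4), by decide +kernel⟩

theorem c_pm_102 : CertN 536870912 536870912 1073741824 536870912 134217728 67108864 3 false true false .npp 1 0 2
    ndN1q1 ndN4q2 pcN0 Cut.none Ext.none :=
  certN0 (fam := false) (s1 := true) (s2 := false) (a := 1) (b := 0) (c := 2) (cn := .npp) (n1 := ndN1q1) (n2 := ndN4q2) (pc := pcN0) (cut := Cut.none) (xt := Ext.none) (P1 := 536870912) (W1 := 536870912) (P2 := 1073741824) (W2 := 536870912) (P3 := 134217728) (W3 := 67108864) (N0 := 3)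
    rfl k0_pm_102

noncomputable def f_pm_112 : ℕ → ℕ → ℕ → ℕ → Bool := onCell 536870912 536870912 1073741824 536870912 134217728 67108864
    (rowN 3 0 false true false .dn 1 1 2 (qsf 536870912 536870912 1073741824 536870912 1) ndN1q1 ndN4q2 pcN1 Cut.none Ext.none)

def k0_pm_112 : ∃ t, chk3 f_pm_112 t 1 1 1 = true :=
  ⟨(l 4), by decide +kernel⟩

theorem c_pm_112 : CertN 536870912 536870912 1073741824 536870912 134217728 67108864 3 false true false .dn 1 1 2
    ndN1q1 ndN4q2 pcN1 Cut.none Ext.none :=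
  certN0 (fam := false) (s1 := true) (s2 := false) (a := 1) (b := 1) (c := 2) (cn := .dn) (n1 := ndN1q1) (n2 := ndN4q2) (pc := pcN1) (cut := Cut.none) (xt := Ext.none) (P1 := 536870912) (W1 := 536870912) (P2 := 1073741824) (W2 := 536870912) (P3 := 134217728) (W3 := 67108864) (N0 := 3)
    rfl k0_pm_112

noncomputable def f_pm_113 : ℕ → ℕ → ℕ → ℕ → Bool := onCell 536870912 536870912 0 1230186008 134217728 67108864
    (rowN 3 2 false true false .nn 1 1 3 (qsf 536870912 536870912 0 1230186008 1) ndN1q1 ndN4q3 pcN1 Cut.none Ext.none)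

def k0_pm_113 : ∃ t, chk3 f_pm_113 t 1 1 1 = true :=
  ⟨(a (b (l 2) (b (a (l 2) (b (l 2) (a (l 2) (l 17234936)))) (b (a (l 2) (l 17618744)) (l 17711696)))) (b (a (l 2) (b (l 491875182951) (a (a (l 17114320) (l 17233864)) (l 17476008)))) (b (b (a (a (l 2) (l 17441168)) (a (l 17704960) (l 17956016))) (a (a (l 17588776) (l 17790960)) (l 18046912))) (l 18194480)))), by decide +kernel⟩

theorem c_pm_113 : CertN 536870912 536870912 0 1230186008 134217728 67108864 3 false true false .nn 1 1 3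
    ndN1q1 ndN4q3 pcN1 Cut.none Ext.none :=
  certN2 (fam := false) (s1 := true) (s2 := false) (a := 1) (b := 1) (c := 3) (cn := .nn) (n1 := ndN1q1) (n2 := ndN4q3) (pc := pcN1) (cut := Cut.none) (xt := Ext.none) (P1 := 536870912) (W1 := 536870912) (P2 := 0) (W2 := 1230186008) (P3 := 134217728) (W3 := 67108864) (N0 := 3)
    rfl (fun _ => rfl) k0_pm_113

noncomputable def f_pm_123 : ℕ → ℕ → ℕ → ℕ → Bool := onCell 1073741824 536870912 0 1230186008 134217728 67108864
    (rowN 3 2 false true false .npn 1 2 3 (qsf 536870912 536870912 0 1230186008 2) ndN1q1 ndN4q3 pcN2 Cut.none Ext.none)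

def k0_pm_123 : ∃ t, chk3 f_pm_123 t 1 1 1 = true :=
  ⟨(a (b (b (a (a (l 17380368) (a (l 17411432) (l 17433848))) (l 17460520)) (a (l 17613872) (l 17513696))) (b (a (l 17784192) (l 4)) (l 4))) (b (a (l 17383816) (l 17252616)) (l 4))), by decide +kernel⟩

theorem c_pm_123 : CertN 536870912 536870912 0 1230186008 134217728 67108864 3 false true false .npn 1 2 3
    ndN1q1 ndN4q3 pcN2 Cut.none Ext.none :=
  certN2 (fam := false) (s1 := true) (s2 := false) (a := 1) (b := 2) (c := 3) (cn := .npn) (n1 := ndN1q1) (n2 := ndN4q3) (pc := pcN2) (cut := Cut.none) (xt := Ext.none) (P1 := 536870912) (W1 := 536870912) (P2 := 0) (W2 := 1230186008) (P3 := 134217728) (W3 := 67108864) (N0 := 3)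
    rfl (fun _ => rfl) k0_pm_123

noncomputable def f_pm_133 : ℕ → ℕ → ℕ → ℕ → Bool := onCell 1610612736 536870912 0 1230186008 134217728 67108864
    (rowN 3 2 false true false .dn 1 3 3 (qsf 536870912 536870912 0 1230186008 3) ndN1q1 ndN4q3 pcN3 Cut.none Ext.none)

def k0_pm_133 : ∃ t, chk3 f_pm_133 t 1 1 1 = true :=
  ⟨(b (a (a (a (l 16973920) (l 1)) (l 1)) (l 1)) (l 1)), by decide +kernel⟩

theorem c_pm_133 : CertN 536870912 536870912 0 1230186008 134217728 67108864 3 false true false .dn 1 3 3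
    ndN1q1 ndN4q3 pcN3 Cut.none Ext.none :=
  certN2 (fam := false) (s1 := true) (s2 := false) (a := 1) (b := 3) (c := 3) (cn := .dn) (n1 := ndN1q1) (n2 := ndN4q3) (pc := pcN3) (cut := Cut.none) (xt := Ext.none) (P1 := 536870912) (W1 := 536870912) (P2 := 0) (W2 := 1230186008) (P3 := 134217728) (W3 := 67108864) (N0 := 3)
    rfl (fun _ => rfl) k0_pm_133

noncomputable def f_pm_202_a : ℕ → ℕ → ℕ → ℕ → Bool := onCell 0 536870912 1073741824 536870912 134217728 67108864
    (rowN 3 0 false true false .pp 2 0 2 (qsf 0 536870912 1073741824 536870912 0) ndN1q2a ndN4q2 pcN0 Cut.none Ext.none)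

def k0_pm_202_a : ∃ t, chk3 f_pm_202_a t 1 1 1 = true :=
  ⟨(a (b (b (b (l 1) (a (l 1) (b (l 1) (l 18016272)))) (b (a (l 17756360) (l 17930920)) (l 17676992))) (b (b (a (l 17873424) (l 17878920)) (a (l 17753016) (l 17705520))) (b (a (l 17712576) (l 17754280)) (a (l 17660840) (l 17733456))))) (b (b (a (b (l 1) (l 18180160)) (b (l 18574920) (l 18494832))) (a (b (l 18136800) (l 17993112)) (b (l 18161352) (l 17940392)))) (b (b (l 17993112) (a (l 17686512) (l 17633248))) (a (l 17706480) (b (l 17572760) (l 17623960)))))), by decide +kernel⟩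

theorem c_pm_202_a : CertN 0 536870912 1073741824 536870912 134217728 67108864 3 false true false .pp 2 0 2
    ndN1q2a ndN4q2 pcN0 Cut.none Ext.none :=
  certN0 (fam := false) (s1 := true) (s2 := false) (a := 2) (b := 0) (c := 2) (cn := .pp) (n1 := ndN1q2a) (n2 := ndN4q2) (pc := pcN0) (cut := Cut.none) (xt := Ext.none) (P1 := 0) (W1 := 536870912) (P2 := 1073741824) (W2 := 536870912) (P3 := 134217728) (W3 := 67108864) (N0 := 3)
    rfl k0_pm_202_a

noncomputable def f_pm_202_b : ℕ → ℕ → ℕ → ℕ → Bool := onCell 0 536870912 1073741824 536870912 134217728 67108864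
    (rowN 3 2 false true false .pp 2 0 2 (qsf 1239849684 370763052 1073741824 536870912 0) ndN1q2b ndN4q2 pcN0 Cut.none Ext.none)

def k0_pm_202_b : ∃ t, chk3 f_pm_202_b t 1 1 1 = true :=
  ⟨(a (b (a (b (l 1) (a (l 87545614807) (b (l 1) (l 17421216)))) (l 1)) (a (b (a (a (l 17751376) (l 17780544)) (b (l 17622336) (l 17935368))) (a (b (l 18203536) (l 18468640)) (b (l 18227568) (l 18394584)))) (b (a (b (l 17549736) (l 17846176)) (b (l 1) (l 17652112))) (a (b (l 18087088) (l 18180512)) (l 17909216))))) (b (l 1) (a (b (l 1) (a (l 17666208) (l 17441936))) (l 1)))), by decide +kernel⟩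

theorem c_pm_202_b : CertN 1239849684 370763052 1073741824 536870912 134217728 67108864 3 false true false .pp 2 0 2
    ndN1q2b ndN4q2 pcN0 Cut.none Ext.none :=
  certN2 (fam := false) (s1 := true) (s2 := false) (a := 2) (b := 0) (c := 2) (cn := .pp) (n1 := ndN1q2b) (n2 := ndN4q2) (pc := pcN0) (cut := Cut.none) (xt := Ext.none) (P1 := 1239849684) (W1 := 370763052) (P2 := 1073741824) (W2 := 536870912) (P3 := 134217728) (W3 := 67108864) (N0 := 3)
    rfl (fun _ => rfl) k0_pm_202_b

noncomputable def f_pm_203_a : ℕ → ℕ → ℕ → ℕ → Bool := onCell 0 536870912 0 1230186008 134217728 67108864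
    (rowN 3 0 false true false .up 2 0 3 (qsf 0 536870912 0 1230186008 0) ndN1q2a ndN4q3 pcN0 Cut.none Ext.none)

def k0_pm_203_a : ∃ t, chk3 f_pm_203_a t 1 1 1 = true :=
  ⟨(b (l 2) (b (l 2) (b (a (b (l 2) (l 227199292055)) (l 2)) (a (b (a (l 17671280) (l 17796128)) (a (l 17799992) (l 17897632))) (a (b (l 17892552) (l 17983352)) (l 17980520)))))), by decide +kernel⟩

theorem c_pm_203_a : CertN 0 536870912 0 1230186008 134217728 67108864 3 false true false .up 2 0 3
    ndN1q2a ndN4q3 pcN0 Cut.none Ext.none :=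
  certN0 (fam := false) (s1 := true) (s2 := false) (a := 2) (b := 0) (c := 3) (cn := .up) (n1 := ndN1q2a) (n2 := ndN4q3) (pc := pcN0) (cut := Cut.none) (xt := Ext.none) (P1 := 0) (W1 := 536870912) (P2 := 0) (W2 := 1230186008) (P3 := 134217728) (W3 := 67108864) (N0 := 3)
    rfl k0_pm_203_a

noncomputable def f_pm_203_b : ℕ → ℕ → ℕ → ℕ → Bool := onCell 0 536870912 0 1230186008 134217728 67108864
    (rowN 3 2 false true false .up 2 0 3 (qsf 1239849684 370763052 0 1230186008 0) ndN1q2b ndN4q3 pcN0 Cut.none Ext.none)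

def k0_pm_203_b : ∃ t, chk3 f_pm_203_b t 1 1 1 = true :=
  ⟨(b (l 3) (b (a (l 3) (l 3)) (b (a (l 3) (a (l 17909344) (a (l 17562512) (l 17470496)))) (a (a (a (b (l 2) (b (l 18174072) (l 18211248))) (l 18092528)) (l 17997704)) (a (l 17943464) (a (l 17689592) (l 17593032))))))), by decide +kernel⟩

theorem c_pm_203_b : CertN 1239849684 370763052 0 1230186008 134217728 67108864 3 false true false .up 2 0 3
    ndN1q2b ndN4q3 pcN0 Cut.none Ext.none :=
  certN2 (fam := false) (s1 := true) (s2 := false) (a := 2) (b := 0) (c := 3) (cn := .up) (n1 := ndN1q2b) (n2 := ndN4q3) (pc := pcN0) (cut := Cut.none) (xt := Ext.none) (P1 := 1239849684) (W1 := 370763052) (P2 := 0) (W2 := 1230186008) (P3 := 134217728) (W3 := 67108864) (N0 := 3)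
    rfl (fun _ => rfl) k0_pm_203_b

noncomputable def cut_pm_213_a : Cut := Cut.of [[⟨0, 1, 0, 39843005⟩, ⟨1, 1, 0, 39843005⟩, ⟨2, 2, 0, 5814905⟩]]

noncomputable def f_pm_213_a : ℕ → ℕ → ℕ → ℕ → Bool := onCell 0 536870912 0 1230186008 134217728 67108864
    (rowN 3 0 false true false .pnn 2 1 3 (qsf 0 536870912 0 1230186008 1) ndN1q2a ndN4q3 pcN1 cut_pm_213_a Ext.none)

def k0_pm_213_a : ∃ t, chk3 f_pm_213_a t 1 1 1 = true :=
  ⟨(b (a (b (l 3) (b (l 3) (a (l 3) (l 256255555815)))) (b (a (b (l 3) (a (l 3) (l 320142935047))) (b (a (l 3) (b (a (l 3) (l 6)) (a (l 277730109479) (l 16840944)))) (a (b (l 288467539063) (l 186462236631)) (b (l 16900800) (l 16845696))))) (a (b (a (l 282025190935) (l 199884094967)) (l 185925957079)) (a (b (l 16878576) (l 16966376)) (b (l 16898760) (l 16985704)))))) (b (a (b (a (l 301889745447) (b (l 230486198839) (l 17085648))) (a (b (l 262698367735) (l 17198504)) (l 17354792))) (b (a (l 17120144) (l 17078296)) (a (l 17161064) (l 17183408))))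 (b (a (b (l 17434496) (a (l 17266728) (l 17223648))) (a (l 17359936) (l 17408936))) (a (b (l 1364760765335) (l 1)) (a (b (l 17217312) (l 1)) (b (l 17270040) (l 17263920))))))), by decide +kernel⟩

theorem c_pm_213_a : CertN 0 536870912 0 1230186008 134217728 67108864 3 false true false .pnn 2 1 3
    ndN1q2a ndN4q3 pcN1 cut_pm_213_a Ext.none :=
  certN0 (fam := false) (s1 := true) (s2 := false) (a := 2) (b := 1) (c := 3) (cn := .pnn) (n1 := ndN1q2a) (n2 := ndN4q3) (pc := pcN1) (cut := cut_pm_213_a) (xt := Ext.none) (P1 := 0) (W1 := 536870912) (P2 := 0) (W2 := 1230186008) (P3 := 134217728) (W3 := 67108864) (N0 := 3)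
    rfl k0_pm_213_a

noncomputable def cut_pm_213_b : Cut := Cut.of [[⟨0, 1, 0, 39843005⟩, ⟨1, 1, 0, 39843005⟩, ⟨2, 2, 0, 5814905⟩]]

noncomputable def f_pm_213_b : ℕ → ℕ → ℕ → ℕ → Bool := onCell 1239849684 370763052 0 1230186008 134217728 67108864
    (rowN 3 0 false true false .pnn 2 1 3 (qsf 1239849684 370763052 0 1230186008 1) ndN1q2b ndN4q3 pcN1 cut_pm_213_b Ext.none)

def k0_pm_213_b : ∃ t, chk3 f_pm_213_b t 1 1 1 = true :=
  ⟨(b (l 3) (b (a (b (l 3) (a (b (l 3) (l 275584051239)) (l 3))) (l 3)) (a (b (a (b (a (l 17301280) (l 17394544)) (a (l 17338968) (l 1))) (l 1)) (l 1)) (l 1)))), by decide +kernel⟩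

theorem c_pm_213_b : CertN 1239849684 370763052 0 1230186008 134217728 67108864 3 false true false .pnn 2 1 3
    ndN1q2b ndN4q3 pcN1 cut_pm_213_b Ext.none :=
  certN0 (fam := false) (s1 := true) (s2 := false) (a := 2) (b := 1) (c := 3) (cn := .pnn) (n1 := ndN1q2b) (n2 := ndN4q3) (pc := pcN1) (cut := cut_pm_213_b) (xt := Ext.none) (P1 := 1239849684) (W1 := 370763052) (P2 := 0) (W2 := 1230186008) (P3 := 134217728) (W3 := 67108864) (N0 := 3)
    rfl k0_pm_213_b

noncomputable def f_pm_303 : ℕ → ℕ → ℕ → ℕ → Bool := onCell 0 536870912 0 1230186008 134217728 67108864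
    (rowN 3 2 false true false .npn 3 0 3 (qsf 1610612736 536870912 0 1230186008 0) ndN1q3 ndN4q3 pcN0 Cut.none Ext.none)

def k0_pm_303 : ∃ t, chk3 f_pm_303 t 1 1 1 = true :=
  ⟨(b (l 3) (b (a (l 3) (l 3)) (a (b (l 3) (a (a (b (l 3) (l 18039872)) (l 17976208)) (l 17945960))) (l 1)))), by decide +kernel⟩

theorem c_pm_303 : CertN 1610612736 536870912 0 1230186008 134217728 67108864 3 false true false .npn 3 0 3
    ndN1q3 ndN4q3 pcN0 Cut.none Ext.none :=
  certN2 (fam := false) (s1 := true) (s2 := false) (a := 3) (b := 0) (c := 3) (cn := .npn) (n1 := ndN1q3) (n2 := ndN4q3) (pc := pcN0) (cut := Cut.none) (xt := Ext.none) (P1 := 1610612736) (W1 := 536870912) (P2 := 0) (W2 := 1230186008) (P3 := 134217728) (W3 := 67108864) (N0 := 3)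
    rfl (fun _ => rfl) k0_pm_303

noncomputable def f_pm_313 : ℕ → ℕ → ℕ → ℕ → Bool := onCell 1610612736 536870912 0 1230186008 134217728 67108864
    (rowN 3 0 false true false .dn 3 1 3 (qsf 1610612736 536870912 0 1230186008 1) ndN1q3 ndN4q3 pcN1 Cut.none Ext.none)

def k0_pm_313 : ∃ t, chk3 f_pm_313 t 1 1 1 = true :=
  ⟨(b (l 3) (l 1)), by decide +kernel⟩

theorem c_pm_313 : CertN 1610612736 536870912 0 1230186008 134217728 67108864 3 false true false .dn 3 1 3
    ndN1q3 ndN4q3 pcN1 Cut.none Ext.none :=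
  certN0 (fam := false) (s1 := true) (s2 := false) (a := 3) (b := 1) (c := 3) (cn := .dn) (n1 := ndN1q3) (n2 := ndN4q3) (pc := pcN1) (cut := Cut.none) (xt := Ext.none) (P1 := 1610612736) (W1 := 536870912) (P2 := 0) (W2 := 1230186008) (P3 := 134217728) (W3 := 67108864) (N0 := 3)
    rfl k0_pm_313

noncomputable def f_mm_001 : ℕ → ℕ → ℕ → ℕ → Bool := onCell 0 536870912 0 536870912 134217728 67108864
    (rowN 3 1 false false false .up 0 0 1 (qsf 0 536870912 536870912 536870912 0) ndN1q0 ndN4q1 pcN0 Cut.none Ext.none)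

def k0_mm_001 : ∃ t, chk3 f_mm_001 t 1 1 1 = true :=
  ⟨(l 3), by decide +kernel⟩

theorem c_mm_001 : CertN 0 536870912 536870912 536870912 134217728 67108864 3 false false false .up 0 0 1
    ndN1q0 ndN4q1 pcN0 Cut.none Ext.none :=
  certN1 (fam := false) (s1 := false) (s2 := false) (a := 0) (b := 0) (c := 1) (cn := .up) (n1 := ndN1q0) (n2 := ndN4q1) (pc := pcN0) (cut := Cut.none) (xt := Ext.none) (P1 := 0) (W1 := 536870912) (P2 := 536870912) (W2 := 536870912) (P3 := 134217728) (W3 := 67108864) (N0 := 3)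
    rfl (fun _ => rfl) k0_mm_001

noncomputable def f_mm_011 : ℕ → ℕ → ℕ → ℕ → Bool := onCell 0 536870912 536870912 536870912 134217728 67108864
    (rowN 3 1 false false false .pnn 0 1 1 (qsf 0 536870912 536870912 536870912 1) ndN1q0 ndN4q1 pcN1 Cut.none Ext.none)

def k0_mm_011 : ∃ t, chk3 f_mm_011 t 1 1 1 = true :=
  ⟨(l 5), by decide +kernel⟩

theorem c_mm_011 : CertN 0 536870912 536870912 536870912 134217728 67108864 3 false false false .pnn 0 1 1
    ndN1q0 ndN4q1 pcN1 Cut.none Ext.none :=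
  certN1 (fam := false) (s1 := false) (s2 := false) (a := 0) (b := 1) (c := 1) (cn := .pnn) (n1 := ndN1q0) (n2 := ndN4q1) (pc := pcN1) (cut := Cut.none) (xt := Ext.none) (P1 := 0) (W1 := 536870912) (P2 := 536870912) (W2 := 536870912) (P3 := 134217728) (W3 := 67108864) (N0 := 3)
    rfl (fun _ => rfl) k0_mm_011

noncomputable def f_mm_012 : ℕ → ℕ → ℕ → ℕ → Bool := onCell 0 536870912 1073741824 536870912 134217728 67108864
    (rowN 3 0 false false false .pnp 0 1 2 (qsf 0 536870912 1073741824 536870912 1) ndN1q0 ndN4q2 pcN1 Cut.none Ext.none)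

def k0_mm_012 : ∃ t, chk3 f_mm_012 t 1 1 1 = true :=
  ⟨(l 5), by decide +kernel⟩

theorem c_mm_012 : CertN 0 536870912 1073741824 536870912 134217728 67108864 3 false false false .pnp 0 1 2
    ndN1q0 ndN4q2 pcN1 Cut.none Ext.none :=
  certN0 (fam := false) (s1 := false) (s2 := false) (a := 0) (b := 1) (c := 2) (cn := .pnp) (n1 := ndN1q0) (n2 := ndN4q2) (pc := pcN1) (cut := Cut.none) (xt := Ext.none) (P1 := 0) (W1 := 536870912) (P2 := 1073741824) (W2 := 536870912) (P3 := 134217728) (W3 := 67108864) (N0 := 3)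
    rfl k0_mm_012

noncomputable def f_mm_022 : ℕ → ℕ → ℕ → ℕ → Bool := onCell 0 536870912 1073741824 536870912 134217728 67108864
    (rowN 3 0 false false false .pp 0 2 2 (qsf 0 536870912 1073741824 536870912 2) ndN1q0 ndN4q2 pcN2 Cut.none Ext.none)

def k0_mm_022 : ∃ t, chk3 f_mm_022 t 1 1 1 = true :=
  ⟨(l 5), by decide +kernel⟩

theorem c_mm_022 : CertN 0 536870912 1073741824 536870912 134217728 67108864 3 false false false .pp 0 2 2
    ndN1q0 ndN4q2 pcN2 Cut.none Ext.none :=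
  certN0 (fam := false) (s1 := false) (s2 := false) (a := 0) (b := 2) (c := 2) (cn := .pp) (n1 := ndN1q0) (n2 := ndN4q2) (pc := pcN2) (cut := Cut.none) (xt := Ext.none) (P1 := 0) (W1 := 536870912) (P2 := 1073741824) (W2 := 536870912) (P3 := 134217728) (W3 := 67108864) (N0 := 3)
    rfl k0_mm_022

noncomputable def f_mm_023 : ℕ → ℕ → ℕ → ℕ → Bool := onCell 0 536870912 0 1230186008 134217728 67108864
    (rowN 3 0 false false false .up 0 2 3 (qsf 0 536870912 0 1230186008 2) ndN1q0 ndN4q3 pcN2 Cut.none Ext.none)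

def k0_mm_023 : ∃ t, chk3 f_mm_023 t 1 1 1 = true :=
  ⟨(l 5), by decide +kernel⟩

theorem c_mm_023 : CertN 0 536870912 0 1230186008 134217728 67108864 3 false false false .up 0 2 3
    ndN1q0 ndN4q3 pcN2 Cut.none Ext.none :=
  certN0 (fam := false) (s1 := false) (s2 := false) (a := 0) (b := 2) (c := 3) (cn := .up) (n1 := ndN1q0) (n2 := ndN4q3) (pc := pcN2) (cut := Cut.none) (xt := Ext.none) (P1 := 0) (W1 := 536870912) (P2 := 0) (W2 := 1230186008) (P3 := 134217728) (W3 := 67108864) (N0 := 3)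
    rfl k0_mm_023

noncomputable def f_mm_033 : ℕ → ℕ → ℕ → ℕ → Bool := onCell 0 536870912 0 1230186008 134217728 67108864
    (rowN 3 0 false false false .pnn 0 3 3 (qsf 0 536870912 0 1230186008 3) ndN1q0 ndN4q3 pcN3 Cut.none Ext.none)

def k0_mm_033 : ∃ t, chk3 f_mm_033 t 1 1 1 = true :=
  ⟨(l 5), by decide +kernel⟩

theorem c_mm_033 : CertN 0 536870912 0 1230186008 134217728 67108864 3 false false false .pnn 0 3 3
    ndN1q0 ndN4q3 pcN3 Cut.none Ext.none :=
  certN0 (fam := false) (s1 := false) (s2 := false) (a := 0) (b := 3) (c := 3) (cn := .pnn) (n1 := ndN1q0) (n2 := ndN4q3) (pc := pcN3) (cut := Cut.none) (xt := Ext.none) (P1 := 0) (W1 := 536870912) (P2 := 0) (W2 := 1230186008) (P3 := 134217728) (W3 := 67108864) (N0 := 3)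
    rfl k0_mm_033

noncomputable def f_mm_101 : ℕ → ℕ → ℕ → ℕ → Bool := onCell 536870912 536870912 536870912 536870912 134217728 67108864
    (rowN 3 0 false false false .npn 1 0 1 (qsf 536870912 536870912 536870912 536870912 0) ndN1q1 ndN4q1 pcN0 Cut.none Ext.none)

def k0_mm_101 : ∃ t, chk3 f_mm_101 t 1 1 1 = true :=
  ⟨(l 3), by decide +kernel⟩

theorem c_mm_101 : CertN 536870912 536870912 536870912 536870912 134217728 67108864 3 false false false .npn 1 0 1
    ndN1q1 ndN4q1 pcN0 Cut.none Ext.none :=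
  certN0 (fam := false) (s1 := false) (s2 := false) (a := 1) (b := 0) (c := 1) (cn := .npn) (n1 := ndN1q1) (n2 := ndN4q1) (pc := pcN0) (cut := Cut.none) (xt := Ext.none) (P1 := 536870912) (W1 := 536870912) (P2 := 536870912) (W2 := 536870912) (P3 := 134217728) (W3 := 67108864) (N0 := 3)
    rfl k0_mm_101

noncomputable def f_mm_102 : ℕ → ℕ → ℕ → ℕ → Bool := onCell 536870912 536870912 1073741824 536870912 134217728 67108864
    (rowN 3 0 false false false .npp 1 0 2 (qsf 536870912 536870912 1073741824 536870912 0) ndN1q1 ndN4q2 pcN0 Cut.none Ext.none)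

def k0_mm_102 : ∃ t, chk3 f_mm_102 t 1 1 1 = true :=
  ⟨(l 3), by decide +kernel⟩

theorem c_mm_102 : CertN 536870912 536870912 1073741824 536870912 134217728 67108864 3 false false false .npp 1 0 2
    ndN1q1 ndN4q2 pcN0 Cut.none Ext.none :=
  certN0 (fam := false) (s1 := false) (s2 := false) (a := 1) (b := 0) (c := 2) (cn := .npp) (n1 := ndN1q1) (n2 := ndN4q2) (pc := pcN0) (cut := Cut.none) (xt := Ext.none) (P1 := 536870912) (W1 := 536870912) (P2 := 1073741824) (W2 := 536870912) (P3 := 134217728) (W3 := 67108864) (N0 := 3)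
    rfl k0_mm_102

noncomputable def f_mm_112 : ℕ → ℕ → ℕ → ℕ → Bool := onCell 536870912 536870912 1073741824 536870912 134217728 67108864
    (rowN 3 0 false false false .dn 1 1 2 (qsf 536870912 536870912 1073741824 536870912 1) ndN1q1 ndN4q2 pcN1 Cut.none Ext.none)

def k0_mm_112 : ∃ t, chk3 f_mm_112 t 1 1 1 = true :=
  ⟨(l 3), by decide +kernel⟩

theorem c_mm_112 : CertN 536870912 536870912 1073741824 536870912 134217728 67108864 3 false false false .dn 1 1 2
    ndN1q1 ndN4q2 pcN1 Cut.none Ext.none :=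
  certN0 (fam := false) (s1 := false) (s2 := false) (a := 1) (b := 1) (c := 2) (cn := .dn) (n1 := ndN1q1) (n2 := ndN4q2) (pc := pcN1) (cut := Cut.none) (xt := Ext.none) (P1 := 536870912) (W1 := 536870912) (P2 := 1073741824) (W2 := 536870912) (P3 := 134217728) (W3 := 67108864) (N0 := 3)
    rfl k0_mm_112

noncomputable def f_mm_113 : ℕ → ℕ → ℕ → ℕ → Bool := onCell 536870912 536870912 0 1230186008 134217728 67108864
    (rowN 3 0 false false false .nn 1 1 3 (qsf 536870912 536870912 0 1230186008 1) ndN1q1 ndN4q3 pcN1 Cut.none Ext.none)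

def k0_mm_113 : ∃ t, chk3 f_mm_113 t 1 1 1 = true :=
  ⟨(l 5), by decide +kernel⟩

theorem c_mm_113 : CertN 536870912 536870912 0 1230186008 134217728 67108864 3 false false false .nn 1 1 3
    ndN1q1 ndN4q3 pcN1 Cut.none Ext.none :=
  certN0 (fam := false) (s1 := false) (s2 := false) (a := 1) (b := 1) (c := 3) (cn := .nn) (n1 := ndN1q1) (n2 := ndN4q3) (pc := pcN1) (cut := Cut.none) (xt := Ext.none) (P1 := 536870912) (W1 := 536870912) (P2 := 0) (W2 := 1230186008) (P3 := 134217728) (W3 := 67108864) (N0 := 3)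
    rfl k0_mm_113

noncomputable def f_mm_123 : ℕ → ℕ → ℕ → ℕ → Bool := onCell 536870912 536870912 0 1230186008 134217728 67108864
    (rowN 3 0 false false false .npn 1 2 3 (qsf 536870912 536870912 0 1230186008 2) ndN1q1 ndN4q3 pcN2 Cut.none Ext.none)

def k0_mm_123 : ∃ t, chk3 f_mm_123 t 1 1 1 = true :=
  ⟨(l 5), by decide +kernel⟩

theorem c_mm_123 : CertN 536870912 536870912 0 1230186008 134217728 67108864 3 false false false .npn 1 2 3
    ndN1q1 ndN4q3 pcN2 Cut.none Ext.none :=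
  certN0 (fam := false) (s1 := false) (s2 := false) (a := 1) (b := 2) (c := 3) (cn := .npn) (n1 := ndN1q1) (n2 := ndN4q3) (pc := pcN2) (cut := Cut.none) (xt := Ext.none) (P1 := 536870912) (W1 := 536870912) (P2 := 0) (W2 := 1230186008) (P3 := 134217728) (W3 := 67108864) (N0 := 3)
    rfl k0_mm_123

noncomputable def f_mm_133 : ℕ → ℕ → ℕ → ℕ → Bool := onCell 536870912 536870912 0 1230186008 134217728 67108864
    (rowN 3 0 false false false .dn 1 3 3 (qsf 536870912 536870912 0 1230186008 3) ndN1q1 ndN4q3 pcN3 Cut.none Ext.none)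

def k0_mm_133 : ∃ t, chk3 f_mm_133 t 1 1 1 = true :=
  ⟨(l 5), by decide +kernel⟩

theorem c_mm_133 : CertN 536870912 536870912 0 1230186008 134217728 67108864 3 false false false .dn 1 3 3
    ndN1q1 ndN4q3 pcN3 Cut.none Ext.none :=
  certN0 (fam := false) (s1 := false) (s2 := false) (a := 1) (b := 3) (c := 3) (cn := .dn) (n1 := ndN1q1) (n2 := ndN4q3) (pc := pcN3) (cut := Cut.none) (xt := Ext.none) (P1 := 536870912) (W1 := 536870912) (P2 := 0) (W2 := 1230186008) (P3 := 134217728) (W3 := 67108864) (N0 := 3)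
    rfl k0_mm_133

noncomputable def f_mm_202_a : ℕ → ℕ → ℕ → ℕ → Bool := onCell 0 536870912 1073741824 536870912 134217728 67108864
    (rowN 3 0 false false false .pp 2 0 2 (qsf 0 536870912 1073741824 536870912 0) ndN1q2a ndN4q2 pcN0 Cut.none Ext.none)

def k0_mm_202_a : ∃ t, chk3 f_mm_202_a t 1 1 1 = true :=
  ⟨(l 3), by decide +kernel⟩

theorem c_mm_202_a : CertN 0 536870912 1073741824 536870912 134217728 67108864 3 false false false .pp 2 0 2
    ndN1q2a ndN4q2 pcN0 Cut.none Ext.none :=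
  certN0 (fam := false) (s1 := false) (s2 := false) (a := 2) (b := 0) (c := 2) (cn := .pp) (n1 := ndN1q2a) (n2 := ndN4q2) (pc := pcN0) (cut := Cut.none) (xt := Ext.none) (P1 := 0) (W1 := 536870912) (P2 := 1073741824) (W2 := 536870912) (P3 := 134217728) (W3 := 67108864) (N0 := 3)
    rfl k0_mm_202_a

noncomputable def f_mm_202_b : ℕ → ℕ → ℕ → ℕ → Bool := onCell 1239849684 370763052 1073741824 536870912 134217728 67108864
    (rowN 3 0 false false false .pp 2 0 2 (qsf 1239849684 370763052 1073741824 536870912 0) ndN1q2b ndN4q2 pcN0 Cut.none Ext.none)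

def k0_mm_202_b : ∃ t, chk3 f_mm_202_b t 1 1 1 = true :=
  ⟨(b (a (l 3) (l 1)) (l 3)), by decide +kernel⟩

theorem c_mm_202_b : CertN 1239849684 370763052 1073741824 536870912 134217728 67108864 3 false false false .pp 2 0 2
    ndN1q2b ndN4q2 pcN0 Cut.none Ext.none :=
  certN0 (fam := false) (s1 := false) (s2 := false) (a := 2) (b := 0) (c := 2) (cn := .pp) (n1 := ndN1q2b) (n2 := ndN4q2) (pc := pcN0) (cut := Cut.none) (xt := Ext.none) (P1 := 1239849684) (W1 := 370763052) (P2 := 1073741824) (W2 := 536870912) (P3 := 134217728) (W3 := 67108864) (N0 := 3)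
    rfl k0_mm_202_b

noncomputable def f_mm_203_a : ℕ → ℕ → ℕ → ℕ → Bool := onCell 0 536870912 0 1230186008 134217728 67108864
    (rowN 3 0 false false false .up 2 0 3 (qsf 0 536870912 0 1230186008 0) ndN1q2a ndN4q3 pcN0 Cut.none Ext.none)

def k0_mm_203_a : ∃ t, chk3 f_mm_203_a t 1 1 1 = true :=
  ⟨(b (l 2) (l 3)), by decide +kernel⟩

theorem c_mm_203_a : CertN 0 536870912 0 1230186008 134217728 67108864 3 false false false .up 2 0 3
    ndN1q2a ndN4q3 pcN0 Cut.none Ext.none :=
  certN0 (fam := false) (s1 := false) (s2 := false) (a := 2) (b := 0) (c := 3) (cn := .up) (n1 := ndN1q2a) (n2 := ndN4q3) (pc := pcN0) (cut := Cut.none) (xt := Ext.none) (P1 := 0) (W1 := 536870912) (P2 := 0) (W2 := 1230186008) (P3 := 134217728) (W3 := 67108864) (N0 := 3)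
    rfl k0_mm_203_a

noncomputable def f_mm_203_b : ℕ → ℕ → ℕ → ℕ → Bool := onCell 1239849684 370763052 0 1230186008 134217728 67108864
    (rowN 3 0 false false false .up 2 0 3 (qsf 1239849684 370763052 0 1230186008 0) ndN1q2b ndN4q3 pcN0 Cut.none Ext.none)

def k0_mm_203_b : ∃ t, chk3 f_mm_203_b t 1 1 1 = true :=
  ⟨(b (l 3) (l 3)), by decide +kernel⟩

theorem c_mm_203_b : CertN 1239849684 370763052 0 1230186008 134217728 67108864 3 false false false .up 2 0 3
    ndN1q2b ndN4q3 pcN0 Cut.none Ext.none :=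
  certN0 (fam := false) (s1 := false) (s2 := false) (a := 2) (b := 0) (c := 3) (cn := .up) (n1 := ndN1q2b) (n2 := ndN4q3) (pc := pcN0) (cut := Cut.none) (xt := Ext.none) (P1 := 1239849684) (W1 := 370763052) (P2 := 0) (W2 := 1230186008) (P3 := 134217728) (W3 := 67108864) (N0 := 3)
    rfl k0_mm_203_b

noncomputable def f_mm_213_a : ℕ → ℕ → ℕ → ℕ → Bool := onCell 0 536870912 0 1230186008 134217728 67108864
    (rowN 3 0 false false false .pnn 2 1 3 (qsf 0 536870912 0 1230186008 1) ndN1q2a ndN4q3 pcN1 Cut.none Ext.none)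

def k0_mm_213_a : ∃ t, chk3 f_mm_213_a t 1 1 1 = true :=
  ⟨(b (a (l 3) (l 5)) (l 3)), by decide +kernel⟩

theorem c_mm_213_a : CertN 0 536870912 0 1230186008 134217728 67108864 3 false false false .pnn 2 1 3
    ndN1q2a ndN4q3 pcN1 Cut.none Ext.none :=
  certN0 (fam := false) (s1 := false) (s2 := false) (a := 2) (b := 1) (c := 3) (cn := .pnn) (n1 := ndN1q2a) (n2 := ndN4q3) (pc := pcN1) (cut := Cut.none) (xt := Ext.none) (P1 := 0) (W1 := 536870912) (P2 := 0) (W2 := 1230186008) (P3 := 134217728) (W3 := 67108864) (N0 := 3)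
    rfl k0_mm_213_a

noncomputable def f_mm_213_b : ℕ → ℕ → ℕ → ℕ → Bool := onCell 1239849684 370763052 0 1230186008 134217728 67108864
    (rowN 3 0 false false false .pnn 2 1 3 (qsf 1239849684 370763052 0 1230186008 1) ndN1q2b ndN4q3 pcN1 Cut.none Ext.none)

def k0_mm_213_b : ∃ t, chk3 f_mm_213_b t 1 1 1 = true :=
  ⟨(b (l 3) (l 3)), by decide +kernel⟩

theorem c_mm_213_b : CertN 1239849684 370763052 0 1230186008 134217728 67108864 3 false false false .pnn 2 1 3
    ndN1q2b ndN4q3 pcN1 Cut.none Ext.none :=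
  certN0 (fam := false) (s1 := false) (s2 := false) (a := 2) (b := 1) (c := 3) (cn := .pnn) (n1 := ndN1q2b) (n2 := ndN4q3) (pc := pcN1) (cut := Cut.none) (xt := Ext.none) (P1 := 1239849684) (W1 := 370763052) (P2 := 0) (W2 := 1230186008) (P3 := 134217728) (W3 := 67108864) (N0 := 3)
    rfl k0_mm_213_b

noncomputable def f_mm_303 : ℕ → ℕ → ℕ → ℕ → Bool := onCell 0 536870912 0 1230186008 134217728 67108864
    (rowN 3 2 false false false .npn 3 0 3 (qsf 1610612736 536870912 0 1230186008 0) ndN1q3 ndN4q3 pcN0 Cut.none Ext.none)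

def k0_mm_303 : ∃ t, chk3 f_mm_303 t 1 1 1 = true :=
  ⟨(b (l 3) (l 3)), by decide +kernel⟩

theorem c_mm_303 : CertN 1610612736 536870912 0 1230186008 134217728 67108864 3 false false false .npn 3 0 3
    ndN1q3 ndN4q3 pcN0 Cut.none Ext.none :=
  certN2 (fam := false) (s1 := false) (s2 := false) (a := 3) (b := 0) (c := 3) (cn := .npn) (n1 := ndN1q3) (n2 := ndN4q3) (pc := pcN0) (cut := Cut.none) (xt := Ext.none) (P1 := 1610612736) (W1 := 536870912) (P2 := 0) (W2 := 1230186008) (P3 := 134217728) (W3 := 67108864) (N0 := 3)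
    rfl (fun _ => rfl) k0_mm_303

noncomputable def f_mm_313 : ℕ → ℕ → ℕ → ℕ → Bool := onCell 1610612736 536870912 0 1230186008 134217728 67108864
    (rowN 3 0 false false false .dn 3 1 3 (qsf 1610612736 536870912 0 1230186008 1) ndN1q3 ndN4q3 pcN1 Cut.none Ext.none)

def k0_mm_313 : ∃ t, chk3 f_mm_313 t 1 1 1 = true :=
  ⟨(b (l 3) (l 1)), by decide +kernel⟩

theorem c_mm_313 : CertN 1610612736 536870912 0 1230186008 134217728 67108864 3 false false false .dn 3 1 3
    ndN1q3 ndN4q3 pcN1 Cut.none Ext.none :=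
  certN0 (fam := false) (s1 := false) (s2 := false) (a := 3) (b := 1) (c := 3) (cn := .dn) (n1 := ndN1q3) (n2 := ndN4q3) (pc := pcN1) (cut := Cut.none) (xt := Ext.none) (P1 := 1610612736) (W1 := 536870912) (P2 := 0) (W2 := 1230186008) (P3 := 134217728) (W3 := 67108864) (N0 := 3)
    rfl k0_mm_313

end Pool.Agent.Strip051.G.I1_8_3_16.Tab.C.NB14

namespace Pool.Agent.Strip051.G.I1_8_3_16.Tab.C.NB15

open Pool.Agent.Strip051.PB Pool.Agent.Strip051.PB.T
open Pool.Agent.Strip051.G.I1_8_3_16.Tab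

noncomputable def f_pp_001 : ℕ → ℕ → ℕ → ℕ → Bool := onCell 0 536870912 0 536870912 134217728 67108864
    (rowN 3 1 false true true .up 0 0 1 (qsf 0 536870912 536870912 536870912 0) ndN1q0 ndN5q1 pcN0 Cut.none Ext.none)

def k0_pp_001 : ∃ t, chk3 f_pp_001 t 1 1 1 = true :=
  ⟨(l 3), by decide +kernel⟩

theorem c_pp_001 : CertN 0 536870912 536870912 536870912 134217728 67108864 3 false true true .up 0 0 1
    ndN1q0 ndN5q1 pcN0 Cut.none Ext.none :=
  certN1 (fam := false) (s1 := true) (s2 := true) (a := 0) (b := 0) (c := 1) (cn := .up) (n1 := ndN1q0) (n2 := ndN5q1) (pc := pcN0) (cut := Cut.none) (xt := Ext.none) (P1 := 0) (W1 := 536870912) (P2 := 536870912) (W2 := 536870912) (P3 := 134217728) (W3 := 67108864) (N0 := 3)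
    rfl (fun _ => rfl) k0_pp_001

noncomputable def cut_pp_011 : Cut := Cut.of [[⟨0, 0, 0, 67108864⟩, ⟨1, 1, 0, 67108864⟩, ⟨2, 1, 0, 67108864⟩]]

noncomputable def f_pp_011 : ℕ → ℕ → ℕ → ℕ → Bool := onCell 0 536870912 536870912 536870912 134217728 67108864
    (rowN 3 1 false true true .pnn 0 1 1 (qsf 0 536870912 536870912 536870912 1) ndN1q0 ndN5q1 pcN1 cut_pp_011 Ext.none)

def k0_pp_011 : ∃ t, chk3 f_pp_011 t 1 1 1 = true :=
  ⟨(b (l 3) (b (l 3) (a (b (l 3) (a (a (a (b (l 3) (l 6)) (l 3)) (l 3)) (l 2))) (l 2)))), by decide +kernel⟩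

theorem c_pp_011 : CertN 0 536870912 536870912 536870912 134217728 67108864 3 false true true .pnn 0 1 1
    ndN1q0 ndN5q1 pcN1 cut_pp_011 Ext.none :=
  certN1 (fam := false) (s1 := true) (s2 := true) (a := 0) (b := 1) (c := 1) (cn := .pnn) (n1 := ndN1q0) (n2 := ndN5q1) (pc := pcN1) (cut := cut_pp_011) (xt := Ext.none) (P1 := 0) (W1 := 536870912) (P2 := 536870912) (W2 := 536870912) (P3 := 134217728) (W3 := 67108864) (N0 := 3)
    rfl (fun _ => rfl) k0_pp_011

noncomputable def cut_pp_012 : Cut := Cut.of [[⟨0, 0, 0, 67108864⟩, ⟨1, 1, 0, 67108864⟩, ⟨2, 1, 0, 67108864⟩]]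

noncomputable def f_pp_012 : ℕ → ℕ → ℕ → ℕ → Bool := onCell 0 536870912 536870912 536870912 134217728 67108864
    (rowN 3 1 false true true .pnp 0 1 2 (qsf 0 536870912 1073741824 536870912 1) ndN1q0 ndN5q2 pcN1 cut_pp_012 Ext.none)

def k0_pp_012 : ∃ t, chk3 f_pp_012 t 1 1 1 = true :=
  ⟨(b (l 3) (a (b (l 3) (a (b (l 3) (b (l 3) (a (a (l 6) (l 3)) (l 3)))) (l 3))) (l 3))), by decide +kernel⟩

theorem c_pp_012 : CertN 0 536870912 1073741824 536870912 134217728 67108864 3 false true true .pnp 0 1 2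
    ndN1q0 ndN5q2 pcN1 cut_pp_012 Ext.none :=
  certN1 (fam := false) (s1 := true) (s2 := true) (a := 0) (b := 1) (c := 2) (cn := .pnp) (n1 := ndN1q0) (n2 := ndN5q2) (pc := pcN1) (cut := cut_pp_012) (xt := Ext.none) (P1 := 0) (W1 := 536870912) (P2 := 1073741824) (W2 := 536870912) (P3 := 134217728) (W3 := 67108864) (N0 := 3)
    rfl (fun _ => rfl) k0_pp_012

noncomputable def cut_pp_022 : Cut := Cut.of [[⟨0, 0, 0, 67108864⟩, ⟨1, 1, 0, 67108864⟩, ⟨2, 1, 0, 67108864⟩]]

noncomputable def f_pp_022 : ℕ → ℕ → ℕ → ℕ → Bool := onCell 0 536870912 1073741824 536870912 134217728 67108864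
    (rowN 3 1 false true true .pp 0 2 2 (qsf 0 536870912 1073741824 536870912 2) ndN1q0 ndN5q2 pcN2 cut_pp_022 Ext.none)

def k0_pp_022 : ∃ t, chk3 f_pp_022 t 4 4 1 = true :=
  ⟨(b (a (b (a (b (l 6) (a (l 6) (a (l 6) (a (l 6) (l 16780768))))) (l 3)) (a (b (b (a (l 6) (a (l 16724608) (l 16728712))) (a (a (l 6) (a (l 6) (l 16706768))) (l 16728168))) (c (a (a (a (b (l 6) (l 16681760)) (l 16702064)) (l 16711696)) (l 16721968)) (a (a (a (a (l 16697040) (l 16698480)) (l 16700584)) (l 16705008)) (l 16721064)))) (a (b (b (l 16753872) (l 16725864)) (l 16719264)) (a (l 16825360) (l 16818264))))) (b (l 3) (a (b (l 3) (l 3)) (l 3)))) (a (b (a (a (a (c (b (a (l 16670848) (l 16673784)) (a (l 16642360) (l 16624360))) (a (b (l 16668816) (l 16618784)) (l 16677840))) (c (a (l 16683024) (l 16685824)) (b (l 16675896) (l 16625872)))) (b (a (l 16682312) (l 16664656)) (a (l 16653640) (l 16637416)))) (b (a (l 16669976) (l 16675344)) (l 16684632))) (a (a (a (b (c (l 16615152) (l 16611840))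 (c (l 16586200) (l 16561144))) (c (l 16626544) (l 16622672))) (b (c (l 16607712) (l 16603800)) (l 16596624))) (b (l 16656216) (a (l 16585144) (l 16794384))))) (b (a (b (l 16719792) (l 16726952)) (b (l 3) (l 16884440))) (a (b (l 16846704) (l 16976288)) (b (l 16974664) (l 17074984)))))), by decide +kernel⟩

def k1_pp_022 : ∃ t, chk3 f_pp_022 t 4 5 1 = true :=
  ⟨(b (b (b (a (a (a (c (l 16564152) (l 16553848)) (l 16565392)) (a (l 16804080) (l 16970880))) (a (l 17106400) (l 17177752))) (b (a (a (a (c (l 16789664) (l 16509184)) (l 16748608)) (l 17035936)) (l 17235848)) (a (a (a (c (a (l 16794376) (l 17035208)) (l 16533976)) (l 16813320)) (l 17122072)) (b (l 17276752) (b (l 17297320) (l 17311168)))))) (a (a (a (c (a (l 17061056) (l 17354720)) (a (l 16544160) (l 16699128))) (c (l 17444464) (l 16878816))) (a (l 17282120) (l 17354480))) (a (l 17407472) (l 17420704)))) (a (a (b (a (c (l 17725800) (l 17118744)) (l 17440680)) (c (l 18015112) (l 17544784))) (b (l 17591608)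 (l 17802920))) (a (l 17696296) (l 17662696)))), by decide +kernel⟩

def k2_pp_022 : ∃ t, chk3 f_pp_022 t 5 2 1 = true :=
  ⟨(b (b (l 3) (b (l 3) (a (b (l 17023240) (l 17106056)) (l 3)))) (b (b (b (a (l 17189872) (l 17168384)) (b (a (l 17255312) (l 17224896)) (a (b (l 17286824) (b (l 17302080) (l 17312248))) (l 17263848)))) (a (l 17394840) (l 17350024))) (a (l 17602040) (l 17534344)))), by decide +kernel⟩

def k3_pp_022 : ∃ t, chk3 f_pp_022 t 2 3 1 = true :=
  ⟨(a (b (a (b (a (b (l 17978416) (l 18160144)) (l 18034656)) (a (l 18321768) (l 18228208))) (b (l 17935328) (l 18099680))) (a (b (l 18383320) (l 18424656)) (l 18331720))) (b (a (b (l 17815040) (l 17962224)) (l 17805040)) (a (l 18089776) (l 2)))), by decide +kernel⟩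

def k4_pp_022 : ∃ t, chk3 f_pp_022 t 3 1 1 = true :=
  ⟨(b (b (a (l 3) (l 3)) (a (b (b (b (l 3) (b (l 17212616) (b (l 17236640) (l 17252672)))) (l 17322688)) (a (l 17495576) (l 17488968))) (b (b (b (l 17246296) (l 2)) (l 2)) (l 2)))) (a (b (b (l 17664688) (l 2)) (l 2)) (l 2))), by decide +kernel⟩

theorem s5_pp_022 : ∃ t, chk3 f_pp_022 t 4 2 1 = true := ex3_b k0_pp_022 k1_pp_022

theorem s6_pp_022 : ∃ t, chk3 f_pp_022 t 2 2 1 = true := ex3_a s5_pp_022 k2_pp_022

theorem s7_pp_022 : ∃ t, chk3 f_pp_022 t 2 1 1 = true := ex3_b s6_pp_022 k3_pp_022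

theorem s8_pp_022 : ∃ t, chk3 f_pp_022 t 1 1 1 = true := ex3_a s7_pp_022 k4_pp_022

theorem c_pp_022 : CertN 0 536870912 1073741824 536870912 134217728 67108864 3 false true true .pp 0 2 2
    ndN1q0 ndN5q2 pcN2 cut_pp_022 Ext.none :=
  certN1 (fam := false) (s1 := true) (s2 := true) (a := 0) (b := 2) (c := 2) (cn := .pp) (n1 := ndN1q0) (n2 := ndN5q2) (pc := pcN2) (cut := cut_pp_022) (xt := Ext.none) (P1 := 0) (W1 := 536870912) (P2 := 1073741824) (W2 := 536870912) (P3 := 134217728) (W3 := 67108864) (N0 := 3)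
    rfl (fun _ => rfl) s8_pp_022

noncomputable def f_pp_023 : ℕ → ℕ → ℕ → ℕ → Bool := onCell 1073741824 536870912 0 1230186008 134217728 67108864
    (rowN 3 2 false true true .up 0 2 3 (qsf 0 536870912 0 1230186008 2) ndN1q0 ndN5q3 pcN2 Cut.none Ext.none)

def k0_pp_023 : ∃ t, chk3 f_pp_023 t 1 1 1 = true :=
  ⟨(a (b (l 2) (a (b (l 2) (b (l 2) (l 3))) (b (a (l 2) (l 208408655063)) (b (a (a (a (l 17409240) (a (l 17426112) (l 17534904))) (l 17468616)) (l 17549944)) (a (a (a (l 3) (a (l 17275448) (l 17423352))) (l 17352112)) (l 17485632)))))) (b (a (l 2) (b (l 17977856) (l 17907728))) (b (a (l 17732624) (l 17847160)) (b (l 17982256) (a (l 17756688) (l 18122184)))))), by decide +kernel⟩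

theorem c_pp_023 : CertN 0 536870912 0 1230186008 134217728 67108864 3 false true true .up 0 2 3
    ndN1q0 ndN5q3 pcN2 Cut.none Ext.none :=
  certN2 (fam := false) (s1 := true) (s2 := true) (a := 0) (b := 2) (c := 3) (cn := .up) (n1 := ndN1q0) (n2 := ndN5q3) (pc := pcN2) (cut := Cut.none) (xt := Ext.none) (P1 := 0) (W1 := 536870912) (P2 := 0) (W2 := 1230186008) (P3 := 134217728) (W3 := 67108864) (N0 := 3)
    rfl (fun _ => rfl) k0_pp_023

noncomputable def f_pp_033 : ℕ → ℕ → ℕ → ℕ → Bool := onCell 0 536870912 0 1230186008 134217728 67108864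
    (rowN 3 0 false true true .pnn 0 3 3 (qsf 0 536870912 0 1230186008 3) ndN1q0 ndN5q3 pcN3 Cut.none Ext.none)

def k0_pp_033 : ∃ t, chk3 f_pp_033 t 1 1 1 = true :=
  ⟨(b (a (a (b (l 4) (a (b (l 4) (l 17788920)) (l 17842376))) (b (l 17667744) (b (l 17571248) (l 17644080)))) (a (b (l 17573984) (b (l 17484528) (b (l 17408176) (l 17424320)))) (b (a (l 17550144) (l 17334304)) (b (a (l 17317456) (l 17239224)) (l 17264080))))) (b (a (a (b (a (l 17868608) (l 17774928)) (l 17997320)) (l 17718416)) (l 567507942775)) (a (b (b (l 18036544) (l 18106344)) (a (l 18350400) (l 17946600))) (l 1)))), by decide +kernel⟩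

theorem c_pp_033 : CertN 0 536870912 0 1230186008 134217728 67108864 3 false true true .pnn 0 3 3
    ndN1q0 ndN5q3 pcN3 Cut.none Ext.none :=
  certN0 (fam := false) (s1 := true) (s2 := true) (a := 0) (b := 3) (c := 3) (cn := .pnn) (n1 := ndN1q0) (n2 := ndN5q3) (pc := pcN3) (cut := Cut.none) (xt := Ext.none) (P1 := 0) (W1 := 536870912) (P2 := 0) (W2 := 1230186008) (P3 := 134217728) (W3 := 67108864) (N0 := 3)
    rfl k0_pp_033

noncomputable def f_pp_101 : ℕ → ℕ → ℕ → ℕ → Bool := onCell 536870912 536870912 536870912 536870912 134217728 67108864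
    (rowN 3 0 false true true .npn 1 0 1 (qsf 536870912 536870912 536870912 536870912 0) ndN1q1 ndN5q1 pcN0 Cut.none Ext.none)

def k0_pp_101 : ∃ t, chk3 f_pp_101 t 1 1 1 = true :=
  ⟨(l 3), by decide +kernel⟩

theorem c_pp_101 : CertN 536870912 536870912 536870912 536870912 134217728 67108864 3 false true true .npn 1 0 1
    ndN1q1 ndN5q1 pcN0 Cut.none Ext.none :=
  certN0 (fam := false) (s1 := true) (s2 := true) (a := 1) (b := 0) (c := 1) (cn := .npn) (n1 := ndN1q1) (n2 := ndN5q1) (pc := pcN0) (cut := Cut.none) (xt := Ext.none) (P1 := 536870912) (W1 := 536870912) (P2 := 536870912) (W2 := 536870912) (P3 := 134217728) (W3 := 67108864) (N0 := 3)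
    rfl k0_pp_101

noncomputable def f_pp_102 : ℕ → ℕ → ℕ → ℕ → Bool := onCell 536870912 536870912 1073741824 536870912 134217728 67108864
    (rowN 3 0 false true true .npp 1 0 2 (qsf 536870912 536870912 1073741824 536870912 0) ndN1q1 ndN5q2 pcN0 Cut.none Ext.none)

def k0_pp_102 : ∃ t, chk3 f_pp_102 t 1 1 1 = true :=
  ⟨(l 3), by decide +kernel⟩

theorem c_pp_102 : CertN 536870912 536870912 1073741824 536870912 134217728 67108864 3 false true true .npp 1 0 2
    ndN1q1 ndN5q2 pcN0 Cut.none Ext.none :=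
  certN0 (fam := false) (s1 := true) (s2 := true) (a := 1) (b := 0) (c := 2) (cn := .npp) (n1 := ndN1q1) (n2 := ndN5q2) (pc := pcN0) (cut := Cut.none) (xt := Ext.none) (P1 := 536870912) (W1 := 536870912) (P2 := 1073741824) (W2 := 536870912) (P3 := 134217728) (W3 := 67108864) (N0 := 3)
    rfl k0_pp_102

noncomputable def f_pp_112 : ℕ → ℕ → ℕ → ℕ → Bool := onCell 536870912 536870912 1073741824 536870912 134217728 67108864
    (rowN 3 0 false true true .dn 1 1 2 (qsf 536870912 536870912 1073741824 536870912 1) ndN1q1 ndN5q2 pcN1 Cut.none Ext.none)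

def k0_pp_112 : ∃ t, chk3 f_pp_112 t 1 1 1 = true :=
  ⟨(l 3), by decide +kernel⟩

theorem c_pp_112 : CertN 536870912 536870912 1073741824 536870912 134217728 67108864 3 false true true .dn 1 1 2
    ndN1q1 ndN5q2 pcN1 Cut.none Ext.none :=
  certN0 (fam := false) (s1 := true) (s2 := true) (a := 1) (b := 1) (c := 2) (cn := .dn) (n1 := ndN1q1) (n2 := ndN5q2) (pc := pcN1) (cut := Cut.none) (xt := Ext.none) (P1 := 536870912) (W1 := 536870912) (P2 := 1073741824) (W2 := 536870912) (P3 := 134217728) (W3 := 67108864) (N0 := 3)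
    rfl k0_pp_112

noncomputable def f_pp_113 : ℕ → ℕ → ℕ → ℕ → Bool := onCell 536870912 536870912 0 1230186008 134217728 67108864
    (rowN 3 2 false true true .nn 1 1 3 (qsf 536870912 536870912 0 1230186008 1) ndN1q1 ndN5q3 pcN1 Cut.none Ext.none)

def k0_pp_113 : ∃ t, chk3 f_pp_113 t 1 1 1 = true :=
  ⟨(b (a (l 2) (a (l 2) (b (b (l 17097824) (l 16831320)) (a (l 17109488) (l 16916712))))) (a (l 3) (b (a (l 3) (b (l 3) (l 3))) (l 3)))), by decide +kernel⟩

theorem c_pp_113 : CertN 536870912 536870912 0 1230186008 134217728 67108864 3 false true true .nn 1 1 3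
    ndN1q1 ndN5q3 pcN1 Cut.none Ext.none :=
  certN2 (fam := false) (s1 := true) (s2 := true) (a := 1) (b := 1) (c := 3) (cn := .nn) (n1 := ndN1q1) (n2 := ndN5q3) (pc := pcN1) (cut := Cut.none) (xt := Ext.none) (P1 := 536870912) (W1 := 536870912) (P2 := 0) (W2 := 1230186008) (P3 := 134217728) (W3 := 67108864) (N0 := 3)
    rfl (fun _ => rfl) k0_pp_113

noncomputable def f_pp_123 : ℕ → ℕ → ℕ → ℕ → Bool := onCell 1073741824 536870912 0 1230186008 134217728 67108864
    (rowN 3 2 false true true .npn 1 2 3 (qsf 536870912 536870912 0 1230186008 2) ndN1q1 ndN5q3 pcN2 Cut.none Ext.none)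

def k0_pp_123 : ∃ t, chk3 f_pp_123 t 1 1 1 = true :=
  ⟨(b (b (a (a (a (l 17169312) (a (a (l 17224960) (l 17235752)) (l 17243368))) (a (a (l 17277712) (l 17285736)) (l 17289704))) (a (l 17293568) (l 17185368))) (a (a (a (l 17163000) (a (a (l 17056832) (l 17064392)) (a (l 17071256) (l 17079792)))) (a (a (a (l 17085120) (l 17092496)) (l 17083392)) (l 17180352))) (a (l 17090392) (l 17086984)))) (b (a (a (a (b (l 16918800) (l 17082216)) (b (a (a (l 16951080) (l 16959480)) (l 16962336)) (l 17018016))) (a (a (b (l 16962712) (a (l 16984760) (l 17141976))) (l 16927688)) (b (l 16953832) (l 16932360)))) (b (l 16963552) (l 16914128))) (a (a (b (a (l 3) (l 17299336)) (l 3)) (b (a (a (a (l 17181472) (l 303903779751)) (l 17151344)) (l 17119096)) (a (a (a (l 3) (l 1)) (l 1)) (l 1)))) (l 1)))), by decide +kernel⟩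

theorem c_pp_123 : CertN 536870912 536870912 0 1230186008 134217728 67108864 3 false true true .npn 1 2 3
    ndN1q1 ndN5q3 pcN2 Cut.none Ext.none :=
  certN2 (fam := false) (s1 := true) (s2 := true) (a := 1) (b := 2) (c := 3) (cn := .npn) (n1 := ndN1q1) (n2 := ndN5q3) (pc := pcN2) (cut := Cut.none) (xt := Ext.none) (P1 := 536870912) (W1 := 536870912) (P2 := 0) (W2 := 1230186008) (P3 := 134217728) (W3 := 67108864) (N0 := 3)
    rfl (fun _ => rfl) k0_pp_123

noncomputable def f_pp_133 : ℕ → ℕ → ℕ → ℕ → Bool := onCell 1610612736 536870912 0 1230186008 134217728 67108864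
    (rowN 3 2 false true true .dn 1 3 3 (qsf 536870912 536870912 0 1230186008 3) ndN1q1 ndN5q3 pcN3 Cut.none Ext.none)

def k0_pp_133 : ∃ t, chk3 f_pp_133 t 1 1 1 = true :=
  ⟨(b (a (a (b (l 16956328) (l 1)) (l 1)) (l 1)) (l 1)), by decide +kernel⟩

theorem c_pp_133 : CertN 536870912 536870912 0 1230186008 134217728 67108864 3 false true true .dn 1 3 3
    ndN1q1 ndN5q3 pcN3 Cut.none Ext.none :=
  certN2 (fam := false) (s1 := true) (s2 := true) (a := 1) (b := 3) (c := 3) (cn := .dn) (n1 := ndN1q1) (n2 := ndN5q3) (pc := pcN3) (cut := Cut.none) (xt := Ext.none) (P1 := 536870912) (W1 := 536870912) (P2 := 0) (W2 := 1230186008) (P3 := 134217728) (W3 := 67108864) (N0 := 3)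
    rfl (fun _ => rfl) k0_pp_133

noncomputable def f_pp_202_a : ℕ → ℕ → ℕ → ℕ → Bool := onCell 0 536870912 1073741824 536870912 134217728 67108864
    (rowN 3 0 false true true .pp 2 0 2 (qsf 0 536870912 1073741824 536870912 0) ndN1q2a ndN5q2 pcN0 Cut.none Ext.none)

def k0_pp_202_a : ∃ t, chk3 f_pp_202_a t 1 1 1 = true :=
  ⟨(l 5), by decide +kernel⟩

theorem c_pp_202_a : CertN 0 536870912 1073741824 536870912 134217728 67108864 3 false true true .pp 2 0 2
    ndN1q2a ndN5q2 pcN0 Cut.none Ext.none :=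
  certN0 (fam := false) (s1 := true) (s2 := true) (a := 2) (b := 0) (c := 2) (cn := .pp) (n1 := ndN1q2a) (n2 := ndN5q2) (pc := pcN0) (cut := Cut.none) (xt := Ext.none) (P1 := 0) (W1 := 536870912) (P2 := 1073741824) (W2 := 536870912) (P3 := 134217728) (W3 := 67108864) (N0 := 3)
    rfl k0_pp_202_a

noncomputable def f_pp_202_b : ℕ → ℕ → ℕ → ℕ → Bool := onCell 1239849684 370763052 1073741824 536870912 134217728 67108864
    (rowN 3 0 false true true .pp 2 0 2 (qsf 1239849684 370763052 1073741824 536870912 0) ndN1q2b ndN5q2 pcN0 Cut.none Ext.none)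

def k0_pp_202_b : ∃ t, chk3 f_pp_202_b t 1 1 1 = true :=
  ⟨(l 5), by decide +kernel⟩

theorem c_pp_202_b : CertN 1239849684 370763052 1073741824 536870912 134217728 67108864 3 false true true .pp 2 0 2
    ndN1q2b ndN5q2 pcN0 Cut.none Ext.none :=
  certN0 (fam := false) (s1 := true) (s2 := true) (a := 2) (b := 0) (c := 2) (cn := .pp) (n1 := ndN1q2b) (n2 := ndN5q2) (pc := pcN0) (cut := Cut.none) (xt := Ext.none) (P1 := 1239849684) (W1 := 370763052) (P2 := 1073741824) (W2 := 536870912) (P3 := 134217728) (W3 := 67108864) (N0 := 3)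
    rfl k0_pp_202_b

noncomputable def f_pp_203_a : ℕ → ℕ → ℕ → ℕ → Bool := onCell 0 536870912 0 1230186008 134217728 67108864
    (rowN 3 0 false true true .up 2 0 3 (qsf 0 536870912 0 1230186008 0) ndN1q2a ndN5q3 pcN0 Cut.none Ext.none)

def k0_pp_203_a : ∃ t, chk3 f_pp_203_a t 1 1 1 = true :=
  ⟨(b (l 2) (b (l 2) (l 3))), by decide +kernel⟩

theorem c_pp_203_a : CertN 0 536870912 0 1230186008 134217728 67108864 3 false true true .up 2 0 3
    ndN1q2a ndN5q3 pcN0 Cut.none Ext.none :=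
  certN0 (fam := false) (s1 := true) (s2 := true) (a := 2) (b := 0) (c := 3) (cn := .up) (n1 := ndN1q2a) (n2 := ndN5q3) (pc := pcN0) (cut := Cut.none) (xt := Ext.none) (P1 := 0) (W1 := 536870912) (P2 := 0) (W2 := 1230186008) (P3 := 134217728) (W3 := 67108864) (N0 := 3)
    rfl k0_pp_203_a

noncomputable def f_pp_203_b : ℕ → ℕ → ℕ → ℕ → Bool := onCell 1239849684 370763052 0 1230186008 134217728 67108864
    (rowN 3 0 false true true .up 2 0 3 (qsf 1239849684 370763052 0 1230186008 0) ndN1q2b ndN5q3 pcN0 Cut.none Ext.none)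

def k0_pp_203_b : ∃ t, chk3 f_pp_203_b t 1 1 1 = true :=
  ⟨(b (l 3) (l 5)), by decide +kernel⟩

theorem c_pp_203_b : CertN 1239849684 370763052 0 1230186008 134217728 67108864 3 false true true .up 2 0 3
    ndN1q2b ndN5q3 pcN0 Cut.none Ext.none :=
  certN0 (fam := false) (s1 := true) (s2 := true) (a := 2) (b := 0) (c := 3) (cn := .up) (n1 := ndN1q2b) (n2 := ndN5q3) (pc := pcN0) (cut := Cut.none) (xt := Ext.none) (P1 := 1239849684) (W1 := 370763052) (P2 := 0) (W2 := 1230186008) (P3 := 134217728) (W3 := 67108864) (N0 := 3)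
    rfl k0_pp_203_b

noncomputable def cut_pp_213_a : Cut := Cut.of [[⟨0, 1, 0, 39843005⟩, ⟨1, 1, 0, 39843005⟩, ⟨2, 2, 0, 5814905⟩]]

noncomputable def f_pp_213_a : ℕ → ℕ → ℕ → ℕ → Bool := onCell 0 536870912 0 1230186008 134217728 67108864
    (rowN 3 0 false true true .pnn 2 1 3 (qsf 0 536870912 0 1230186008 1) ndN1q2a ndN5q3 pcN1 cut_pp_213_a Ext.none)

def k0_pp_213_a : ∃ t, chk3 f_pp_213_a t 1 1 1 = true :=
  ⟨(b (a (l 3) (b (a (l 3) (b (a (l 3) (b (a (l 3) (l 6)) (l 3))) (l 3))) (l 3))) (b (l 3) (l 3))), by decide +kernel⟩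

theorem c_pp_213_a : CertN 0 536870912 0 1230186008 134217728 67108864 3 false true true .pnn 2 1 3
    ndN1q2a ndN5q3 pcN1 cut_pp_213_a Ext.none :=
  certN0 (fam := false) (s1 := true) (s2 := true) (a := 2) (b := 1) (c := 3) (cn := .pnn) (n1 := ndN1q2a) (n2 := ndN5q3) (pc := pcN1) (cut := cut_pp_213_a) (xt := Ext.none) (P1 := 0) (W1 := 536870912) (P2 := 0) (W2 := 1230186008) (P3 := 134217728) (W3 := 67108864) (N0 := 3)
    rfl k0_pp_213_a

noncomputable def cut_pp_213_b : Cut := Cut.of [[⟨0, 1, 0, 39843005⟩, ⟨1, 1, 0, 39843005⟩, ⟨2, 2, 0, 5814905⟩]]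

noncomputable def f_pp_213_b : ℕ → ℕ → ℕ → ℕ → Bool := onCell 1239849684 370763052 0 1230186008 134217728 67108864
    (rowN 3 0 false true true .pnn 2 1 3 (qsf 1239849684 370763052 0 1230186008 1) ndN1q2b ndN5q3 pcN1 cut_pp_213_b Ext.none)

def k0_pp_213_b : ∃ t, chk3 f_pp_213_b t 1 1 1 = true :=
  ⟨(b (l 3) (l 5)), by decide +kernel⟩

theorem c_pp_213_b : CertN 1239849684 370763052 0 1230186008 134217728 67108864 3 false true true .pnn 2 1 3
    ndN1q2b ndN5q3 pcN1 cut_pp_213_b Ext.none :=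
  certN0 (fam := false) (s1 := true) (s2 := true) (a := 2) (b := 1) (c := 3) (cn := .pnn) (n1 := ndN1q2b) (n2 := ndN5q3) (pc := pcN1) (cut := cut_pp_213_b) (xt := Ext.none) (P1 := 1239849684) (W1 := 370763052) (P2 := 0) (W2 := 1230186008) (P3 := 134217728) (W3 := 67108864) (N0 := 3)
    rfl k0_pp_213_b

noncomputable def f_pp_303 : ℕ → ℕ → ℕ → ℕ → Bool := onCell 1610612736 536870912 0 1230186008 134217728 67108864
    (rowN 3 0 false true true .npn 3 0 3 (qsf 1610612736 536870912 0 1230186008 0) ndN1q3 ndN5q3 pcN0 Cut.none Ext.none)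

def k0_pp_303 : ∃ t, chk3 f_pp_303 t 1 1 1 = true :=
  ⟨(b (l 3) (l 5)), by decide +kernel⟩

theorem c_pp_303 : CertN 1610612736 536870912 0 1230186008 134217728 67108864 3 false true true .npn 3 0 3
    ndN1q3 ndN5q3 pcN0 Cut.none Ext.none :=
  certN0 (fam := false) (s1 := true) (s2 := true) (a := 3) (b := 0) (c := 3) (cn := .npn) (n1 := ndN1q3) (n2 := ndN5q3) (pc := pcN0) (cut := Cut.none) (xt := Ext.none) (P1 := 1610612736) (W1 := 536870912) (P2 := 0) (W2 := 1230186008) (P3 := 134217728) (W3 := 67108864) (N0 := 3)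
    rfl k0_pp_303

noncomputable def f_pp_313 : ℕ → ℕ → ℕ → ℕ → Bool := onCell 1610612736 536870912 0 1230186008 134217728 67108864
    (rowN 3 0 false true true .dn 3 1 3 (qsf 1610612736 536870912 0 1230186008 1) ndN1q3 ndN5q3 pcN1 Cut.none Ext.none)

def k0_pp_313 : ∃ t, chk3 f_pp_313 t 1 1 1 = true :=
  ⟨(b (l 3) (l 1)), by decide +kernel⟩

theorem c_pp_313 : CertN 1610612736 536870912 0 1230186008 134217728 67108864 3 false true true .dn 3 1 3
    ndN1q3 ndN5q3 pcN1 Cut.none Ext.none :=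
  certN0 (fam := false) (s1 := true) (s2 := true) (a := 3) (b := 1) (c := 3) (cn := .dn) (n1 := ndN1q3) (n2 := ndN5q3) (pc := pcN1) (cut := Cut.none) (xt := Ext.none) (P1 := 1610612736) (W1 := 536870912) (P2 := 0) (W2 := 1230186008) (P3 := 134217728) (W3 := 67108864) (N0 := 3)
    rfl k0_pp_313

noncomputable def f_pm_001 : ℕ → ℕ → ℕ → ℕ → Bool := onCell 0 536870912 536870912 536870912 134217728 67108864
    (rowN 3 0 false true false .up 0 0 1 (qsf 0 536870912 536870912 536870912 0) ndN1q0 ndN5q1 pcN0 Cut.none Ext.none)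

def k0_pm_001 : ∃ t, chk3 f_pm_001 t 1 1 1 = true :=
  ⟨(l 4), by decide +kernel⟩

theorem c_pm_001 : CertN 0 536870912 536870912 536870912 134217728 67108864 3 false true false .up 0 0 1
    ndN1q0 ndN5q1 pcN0 Cut.none Ext.none :=
  certN0 (fam := false) (s1 := true) (s2 := false) (a := 0) (b := 0) (c := 1) (cn := .up) (n1 := ndN1q0) (n2 := ndN5q1) (pc := pcN0) (cut := Cut.none) (xt := Ext.none) (P1 := 0) (W1 := 536870912) (P2 := 536870912) (W2 := 536870912) (P3 := 134217728) (W3 := 67108864) (N0 := 3)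
    rfl k0_pm_001

noncomputable def f_pm_011 : ℕ → ℕ → ℕ → ℕ → Bool := onCell 0 536870912 536870912 536870912 134217728 67108864
    (rowN 3 0 false true false .pnn 0 1 1 (qsf 0 536870912 536870912 536870912 1) ndN1q0 ndN5q1 pcN1 Cut.none Ext.none)

def k0_pm_011 : ∃ t, chk3 f_pm_011 t 1 1 1 = true :=
  ⟨(l 4), by decide +kernel⟩

theorem c_pm_011 : CertN 0 536870912 536870912 536870912 134217728 67108864 3 false true false .pnn 0 1 1
    ndN1q0 ndN5q1 pcN1 Cut.none Ext.none :=
  certN0 (fam := false) (s1 := true) (s2 := false) (a := 0) (b := 1) (c := 1) (cn := .pnn) (n1 := ndN1q0) (n2 := ndN5q1) (pc := pcN1) (cut := Cut.none) (xt := Ext.none) (P1 := 0) (W1 := 536870912) (P2 := 536870912) (W2 := 536870912) (P3 := 134217728) (W3 := 67108864) (N0 := 3)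
    rfl k0_pm_011

noncomputable def f_pm_012 : ℕ → ℕ → ℕ → ℕ → Bool := onCell 0 536870912 1073741824 536870912 134217728 67108864
    (rowN 3 0 false true false .pnp 0 1 2 (qsf 0 536870912 1073741824 536870912 1) ndN1q0 ndN5q2 pcN1 Cut.none Ext.none)

def k0_pm_012 : ∃ t, chk3 f_pm_012 t 1 1 1 = true :=
  ⟨(l 4), by decide +kernel⟩

theorem c_pm_012 : CertN 0 536870912 1073741824 536870912 134217728 67108864 3 false true false .pnp 0 1 2
    ndN1q0 ndN5q2 pcN1 Cut.none Ext.none :=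
  certN0 (fam := false) (s1 := true) (s2 := false) (a := 0) (b := 1) (c := 2) (cn := .pnp) (n1 := ndN1q0) (n2 := ndN5q2) (pc := pcN1) (cut := Cut.none) (xt := Ext.none) (P1 := 0) (W1 := 536870912) (P2 := 1073741824) (W2 := 536870912) (P3 := 134217728) (W3 := 67108864) (N0 := 3)
    rfl k0_pm_012

noncomputable def f_pm_022 : ℕ → ℕ → ℕ → ℕ → Bool := onCell 0 536870912 1073741824 536870912 134217728 67108864
    (rowN 3 0 false true false .pp 0 2 2 (qsf 0 536870912 1073741824 536870912 2) ndN1q0 ndN5q2 pcN2 Cut.none Ext.none)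

def k0_pm_022 : ∃ t, chk3 f_pm_022 t 1 1 1 = true :=
  ⟨(l 4), by decide +kernel⟩

theorem c_pm_022 : CertN 0 536870912 1073741824 536870912 134217728 67108864 3 false true false .pp 0 2 2
    ndN1q0 ndN5q2 pcN2 Cut.none Ext.none :=
  certN0 (fam := false) (s1 := true) (s2 := false) (a := 0) (b := 2) (c := 2) (cn := .pp) (n1 := ndN1q0) (n2 := ndN5q2) (pc := pcN2) (cut := Cut.none) (xt := Ext.none) (P1 := 0) (W1 := 536870912) (P2 := 1073741824) (W2 := 536870912) (P3 := 134217728) (W3 := 67108864) (N0 := 3)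
    rfl k0_pm_022

noncomputable def f_pm_023 : ℕ → ℕ → ℕ → ℕ → Bool := onCell 0 536870912 0 1230186008 134217728 67108864
    (rowN 3 0 false true false .up 0 2 3 (qsf 0 536870912 0 1230186008 2) ndN1q0 ndN5q3 pcN2 Cut.none Ext.none)

def k0_pm_023 : ∃ t, chk3 f_pm_023 t 1 1 1 = true :=
  ⟨(b (b (a (l 2) (a (l 2) (l 17940224))) (l 4)) (l 4)), by decide +kernel⟩

theorem c_pm_023 : CertN 0 536870912 0 1230186008 134217728 67108864 3 false true false .up 0 2 3
    ndN1q0 ndN5q3 pcN2 Cut.none Ext.none :=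
  certN0 (fam := false) (s1 := true) (s2 := false) (a := 0) (b := 2) (c := 3) (cn := .up) (n1 := ndN1q0) (n2 := ndN5q3) (pc := pcN2) (cut := Cut.none) (xt := Ext.none) (P1 := 0) (W1 := 536870912) (P2 := 0) (W2 := 1230186008) (P3 := 134217728) (W3 := 67108864) (N0 := 3)
    rfl k0_pm_023

noncomputable def f_pm_033 : ℕ → ℕ → ℕ → ℕ → Bool := onCell 0 536870912 0 1230186008 134217728 67108864
    (rowN 3 0 false true false .pnn 0 3 3 (qsf 0 536870912 0 1230186008 3) ndN1q0 ndN5q3 pcN3 Cut.none Ext.none)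

def k0_pm_033 : ∃ t, chk3 f_pm_033 t 1 1 1 = true :=
  ⟨(b (a (l 4) (a (l 4) (b (l 17573048) (l 4)))) (l 4)), by decide +kernel⟩

theorem c_pm_033 : CertN 0 536870912 0 1230186008 134217728 67108864 3 false true false .pnn 0 3 3
    ndN1q0 ndN5q3 pcN3 Cut.none Ext.none :=
  certN0 (fam := false) (s1 := true) (s2 := false) (a := 0) (b := 3) (c := 3) (cn := .pnn) (n1 := ndN1q0) (n2 := ndN5q3) (pc := pcN3) (cut := Cut.none) (xt := Ext.none) (P1 := 0) (W1 := 536870912) (P2 := 0) (W2 := 1230186008) (P3 := 134217728) (W3 := 67108864) (N0 := 3)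
    rfl k0_pm_033

noncomputable def f_pm_101 : ℕ → ℕ → ℕ → ℕ → Bool := onCell 536870912 536870912 536870912 536870912 134217728 67108864
    (rowN 3 0 false true false .npn 1 0 1 (qsf 536870912 536870912 536870912 536870912 0) ndN1q1 ndN5q1 pcN0 Cut.none Ext.none)

def k0_pm_101 : ∃ t, chk3 f_pm_101 t 1 1 1 = true :=
  ⟨(l 4), by decide +kernel⟩

theorem c_pm_101 : CertN 536870912 536870912 536870912 536870912 134217728 67108864 3 false true false .npn 1 0 1
    ndN1q1 ndN5q1 pcN0 Cut.none Ext.none :=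
  certN0 (fam := false) (s1 := true) (s2 := false) (a := 1) (b := 0) (c := 1) (cn := .npn) (n1 := ndN1q1) (n2 := ndN5q1) (pc := pcN0) (cut := Cut.none) (xt := Ext.none) (P1 := 536870912) (W1 := 536870912) (P2 := 536870912) (W2 := 536870912) (P3 := 134217728) (W3 := 67108864) (N0 := 3)
    rfl k0_pm_101

noncomputable def f_pm_102 : ℕ → ℕ → ℕ → ℕ → Bool := onCell 536870912 536870912 1073741824 536870912 134217728 67108864
    (rowN 3 0 false true false .npp 1 0 2 (qsf 536870912 536870912 1073741824 536870912 0) ndN1q1 ndN5q2 pcN0 Cut.none Ext.none)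

def k0_pm_102 : ∃ t, chk3 f_pm_102 t 1 1 1 = true :=
  ⟨(l 4), by decide +kernel⟩

theorem c_pm_102 : CertN 536870912 536870912 1073741824 536870912 134217728 67108864 3 false true false .npp 1 0 2
    ndN1q1 ndN5q2 pcN0 Cut.none Ext.none :=
  certN0 (fam := false) (s1 := true) (s2 := false) (a := 1) (b := 0) (c := 2) (cn := .npp) (n1 := ndN1q1) (n2 := ndN5q2) (pc := pcN0) (cut := Cut.none) (xt := Ext.none) (P1 := 536870912) (W1 := 536870912) (P2 := 1073741824) (W2 := 536870912) (P3 := 134217728) (W3 := 67108864) (N0 := 3)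
    rfl k0_pm_102

noncomputable def f_pm_112 : ℕ → ℕ → ℕ → ℕ → Bool := onCell 536870912 536870912 1073741824 536870912 134217728 67108864
    (rowN 3 0 false true false .dn 1 1 2 (qsf 536870912 536870912 1073741824 536870912 1) ndN1q1 ndN5q2 pcN1 Cut.none Ext.none)

def k0_pm_112 : ∃ t, chk3 f_pm_112 t 1 1 1 = true :=
  ⟨(l 4), by decide +kernel⟩

theorem c_pm_112 : CertN 536870912 536870912 1073741824 536870912 134217728 67108864 3 false true false .dn 1 1 2
    ndN1q1 ndN5q2 pcN1 Cut.none Ext.none :=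
  certN0 (fam := false) (s1 := true) (s2 := false) (a := 1) (b := 1) (c := 2) (cn := .dn) (n1 := ndN1q1) (n2 := ndN5q2) (pc := pcN1) (cut := Cut.none) (xt := Ext.none) (P1 := 536870912) (W1 := 536870912) (P2 := 1073741824) (W2 := 536870912) (P3 := 134217728) (W3 := 67108864) (N0 := 3)
    rfl k0_pm_112

noncomputable def f_pm_113 : ℕ → ℕ → ℕ → ℕ → Bool := onCell 536870912 536870912 0 1230186008 134217728 67108864
    (rowN 3 0 false true false .nn 1 1 3 (qsf 536870912 536870912 0 1230186008 1) ndN1q1 ndN5q3 pcN1 Cut.none Ext.none)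

def k0_pm_113 : ∃ t, chk3 f_pm_113 t 1 1 1 = true :=
  ⟨(a (b (l 2) (l 4)) (b (a (l 2) (b (a (l 2) (l 17233816)) (b (l 17805696) (a (l 18039400) (a (l 17882248) (b (l 17757592) (l 17834984))))))) (b (l 18125744) (l 4)))), by decide +kernel⟩

theorem c_pm_113 : CertN 536870912 536870912 0 1230186008 134217728 67108864 3 false true false .nn 1 1 3
    ndN1q1 ndN5q3 pcN1 Cut.none Ext.none :=
  certN0 (fam := false) (s1 := true) (s2 := false) (a := 1) (b := 1) (c := 3) (cn := .nn) (n1 := ndN1q1) (n2 := ndN5q3) (pc := pcN1) (cut := Cut.none) (xt := Ext.none) (P1 := 536870912) (W1 := 536870912) (P2 := 0) (W2 := 1230186008) (P3 := 134217728) (W3 := 67108864) (N0 := 3)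
    rfl k0_pm_113

noncomputable def f_pm_123 : ℕ → ℕ → ℕ → ℕ → Bool := onCell 1073741824 536870912 0 1230186008 134217728 67108864
    (rowN 3 2 false true false .npn 1 2 3 (qsf 536870912 536870912 0 1230186008 2) ndN1q1 ndN5q3 pcN2 Cut.none Ext.none)

def k0_pm_123 : ∃ t, chk3 f_pm_123 t 1 1 1 = true :=
  ⟨(a (b (b (a (a (l 17419448) (a (l 17454416) (l 17477624))) (l 17462816)) (a (l 17593848) (l 17501304))) (l 4)) (b (a (l 17370816) (l 17254720)) (l 4))), by decide +kernel⟩

theorem c_pm_123 : CertN 536870912 536870912 0 1230186008 134217728 67108864 3 false true false .npn 1 2 3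
    ndN1q1 ndN5q3 pcN2 Cut.none Ext.none :=
  certN2 (fam := false) (s1 := true) (s2 := false) (a := 1) (b := 2) (c := 3) (cn := .npn) (n1 := ndN1q1) (n2 := ndN5q3) (pc := pcN2) (cut := Cut.none) (xt := Ext.none) (P1 := 536870912) (W1 := 536870912) (P2 := 0) (W2 := 1230186008) (P3 := 134217728) (W3 := 67108864) (N0 := 3)
    rfl (fun _ => rfl) k0_pm_123

noncomputable def f_pm_133 : ℕ → ℕ → ℕ → ℕ → Bool := onCell 1610612736 536870912 0 1230186008 134217728 67108864
    (rowN 3 2 false true false .dn 1 3 3 (qsf 536870912 536870912 0 1230186008 3) ndN1q1 ndN5q3 pcN3 Cut.none Ext.none)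

def k0_pm_133 : ∃ t, chk3 f_pm_133 t 1 1 1 = true :=
  ⟨(b (a (a (b (l 16925328) (l 1)) (l 1)) (l 1)) (l 1)), by decide +kernel⟩

theorem c_pm_133 : CertN 536870912 536870912 0 1230186008 134217728 67108864 3 false true false .dn 1 3 3
    ndN1q1 ndN5q3 pcN3 Cut.none Ext.none :=
  certN2 (fam := false) (s1 := true) (s2 := false) (a := 1) (b := 3) (c := 3) (cn := .dn) (n1 := ndN1q1) (n2 := ndN5q3) (pc := pcN3) (cut := Cut.none) (xt := Ext.none) (P1 := 536870912) (W1 := 536870912) (P2 := 0) (W2 := 1230186008) (P3 := 134217728) (W3 := 67108864) (N0 := 3)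
    rfl (fun _ => rfl) k0_pm_133

noncomputable def f_pm_202_a : ℕ → ℕ → ℕ → ℕ → Bool := onCell 0 536870912 1073741824 536870912 134217728 67108864
    (rowN 3 0 false true false .pp 2 0 2 (qsf 0 536870912 1073741824 536870912 0) ndN1q2a ndN5q2 pcN0 Cut.none Ext.none)

def k0_pm_202_a : ∃ t, chk3 f_pm_202_a t 1 1 1 = true :=
  ⟨(a (b (b (b (l 1) (l 18865064)) (b (l 18711368) (l 18621728))) (b (a (b (l 18239992) (l 17904600)) (l 18270840)) (b (a (l 17648304) (l 17727736)) (a (l 17558096) (l 17494752))))) (b (b (l 4) (a (l 18947056) (l 4))) (b (a (l 18351224) (b (l 4) (l 18575048))) (a (b (l 18001672) (b (l 17672680) (l 17464832))) (b (l 18121896) (l 1848242663)))))), by decide +kernel⟩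

theorem c_pm_202_a : CertN 0 536870912 1073741824 536870912 134217728 67108864 3 false true false .pp 2 0 2
    ndN1q2a ndN5q2 pcN0 Cut.none Ext.none :=
  certN0 (fam := false) (s1 := true) (s2 := false) (a := 2) (b := 0) (c := 2) (cn := .pp) (n1 := ndN1q2a) (n2 := ndN5q2) (pc := pcN0) (cut := Cut.none) (xt := Ext.none) (P1 := 0) (W1 := 536870912) (P2 := 1073741824) (W2 := 536870912) (P3 := 134217728) (W3 := 67108864) (N0 := 3)
    rfl k0_pm_202_a

noncomputable def f_pm_202_b : ℕ → ℕ → ℕ → ℕ → Bool := onCell 0 536870912 1073741824 536870912 134217728 67108864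
    (rowN 3 2 false true false .pp 2 0 2 (qsf 1239849684 370763052 1073741824 536870912 0) ndN1q2b ndN5q2 pcN0 Cut.none Ext.none)

def k0_pm_202_b : ∃ t, chk3 f_pm_202_b t 1 1 1 = true :=
  ⟨(a (b (b (l 1) (a (l 18511256) (l 1))) (b (a (l 18087464) (l 18140200)) (a (l 17814680) (l 17951192)))) (b (l 1) (b (l 1) (a (b (l 17426312) (l 17562960)) (l 1))))), by decide +kernel⟩

theorem c_pm_202_b : CertN 1239849684 370763052 1073741824 536870912 134217728 67108864 3 false true false .pp 2 0 2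
    ndN1q2b ndN5q2 pcN0 Cut.none Ext.none :=
  certN2 (fam := false) (s1 := true) (s2 := false) (a := 2) (b := 0) (c := 2) (cn := .pp) (n1 := ndN1q2b) (n2 := ndN5q2) (pc := pcN0) (cut := Cut.none) (xt := Ext.none) (P1 := 1239849684) (W1 := 370763052) (P2 := 1073741824) (W2 := 536870912) (P3 := 134217728) (W3 := 67108864) (N0 := 3)
    rfl (fun _ => rfl) k0_pm_202_b

noncomputable def f_pm_203_a : ℕ → ℕ → ℕ → ℕ → Bool := onCell 0 536870912 0 1230186008 134217728 67108864
    (rowN 3 0 false true false .up 2 0 3 (qsf 0 536870912 0 1230186008 0) ndN1q2a ndN5q3 pcN0 Cut.none Ext.none)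

def k0_pm_203_a : ∃ t, chk3 f_pm_203_a t 1 1 1 = true :=
  ⟨(b (l 2) (b (l 2) (b (a (b (l 2) (l 17630832)) (l 2)) (a (b (l 17605744) (l 17648848)) (b (a (l 17590208) (a (l 17597816) (l 2))) (a (b (l 17497440) (l 17411632)) (b (a (l 17389744) (l 17279392)) (a (l 17381264) (l 17645496))))))))), by decide +kernel⟩

theorem c_pm_203_a : CertN 0 536870912 0 1230186008 134217728 67108864 3 false true false .up 2 0 3
    ndN1q2a ndN5q3 pcN0 Cut.none Ext.none :=
  certN0 (fam := false) (s1 := true) (s2 := false) (a := 2) (b := 0) (c := 3) (cn := .up) (n1 := ndN1q2a) (n2 := ndN5q3) (pc := pcN0) (cut := Cut.none) (xt := Ext.none) (P1 := 0) (W1 := 536870912) (P2 := 0) (W2 := 1230186008) (P3 := 134217728) (W3 := 67108864) (N0 := 3)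
    rfl k0_pm_203_a

noncomputable def f_pm_203_b : ℕ → ℕ → ℕ → ℕ → Bool := onCell 0 536870912 0 1230186008 134217728 67108864
    (rowN 3 2 false true false .up 2 0 3 (qsf 1239849684 370763052 0 1230186008 0) ndN1q2b ndN5q3 pcN0 Cut.none Ext.none)

def k0_pm_203_b : ∃ t, chk3 f_pm_203_b t 1 1 1 = true :=
  ⟨(b (l 3) (a (b (a (l 2) (b (l 2) (l 17895008))) (b (a (l 2) (b (l 18097944) (l 18142256))) (a (b (l 18259864) (l 17950296)) (a (l 18080760) (l 18028056))))) (b (a (b (l 3) (l 17720888)) (a (l 124186528231) (l 120965546407))) (a (b (l 17899176) (b (l 17950776) (l 17788312))) (b (l 17660624) (l 156265049415)))))), by decide +kernel⟩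

theorem c_pm_203_b : CertN 1239849684 370763052 0 1230186008 134217728 67108864 3 false true false .up 2 0 3
    ndN1q2b ndN5q3 pcN0 Cut.none Ext.none :=
  certN2 (fam := false) (s1 := true) (s2 := false) (a := 2) (b := 0) (c := 3) (cn := .up) (n1 := ndN1q2b) (n2 := ndN5q3) (pc := pcN0) (cut := Cut.none) (xt := Ext.none) (P1 := 1239849684) (W1 := 370763052) (P2 := 0) (W2 := 1230186008) (P3 := 134217728) (W3 := 67108864) (N0 := 3)
    rfl (fun _ => rfl) k0_pm_203_b

noncomputable def cut_pm_213_a : Cut := Cut.of [[⟨0, 1, 0, 39843005⟩, ⟨1, 1, 0, 39843005⟩, ⟨2, 2, 0, 5814905⟩]]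

noncomputable def f_pm_213_a : ℕ → ℕ → ℕ → ℕ → Bool := onCell 0 536870912 0 1230186008 134217728 67108864
    (rowN 3 0 false true false .pnn 2 1 3 (qsf 0 536870912 0 1230186008 1) ndN1q2a ndN5q3 pcN1 cut_pm_213_a Ext.none)

def k0_pm_213_a : ∃ t, chk3 f_pm_213_a t 1 1 1 = true :=
  ⟨(b (a (b (b (l 3) (l 3)) (b (a (l 358260781703) (b (l 277193287223) (l 241222998183))) (a (b (l 289541308007) (l 16872336)) (l 16890584)))) (b (a (b (l 3) (b (l 284709561143) (a (l 272361420855) (l 16818600)))) (b (a (b (l 3) (l 272361435159)) (b (a (l 284172532999) (l 6)) (b (l 173577242599) (l 16809424)))) (a (b (l 16872552) (l 16833944)) (l 16843936)))) (a (b (l 181093914583) (l 16892760)) (b (l 17051200) (l 17021064))))) (b (a (b (a (l 16873744) (l 16896056)) (b (l 16905512) (l 17019264))) (b (a (l 16899512) (l 17086832)) (a (l 17068144) (l 17232512)))) (a (b (b (l 17158008) (l 17408496)) (b (l 17581576) (l 1))) (b (b (l 17465224) (l 17800968)) (b (l 17886704) (l 18137544)))))),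 by decide +kernel⟩

theorem c_pm_213_a : CertN 0 536870912 0 1230186008 134217728 67108864 3 false true false .pnn 2 1 3
    ndN1q2a ndN5q3 pcN1 cut_pm_213_a Ext.none :=
  certN0 (fam := false) (s1 := true) (s2 := false) (a := 2) (b := 1) (c := 3) (cn := .pnn) (n1 := ndN1q2a) (n2 := ndN5q3) (pc := pcN1) (cut := cut_pm_213_a) (xt := Ext.none) (P1 := 0) (W1 := 536870912) (P2 := 0) (W2 := 1230186008) (P3 := 134217728) (W3 := 67108864) (N0 := 3)
    rfl k0_pm_213_a

noncomputable def cut_pm_213_b : Cut := Cut.of [[⟨0, 1, 0, 39843005⟩, ⟨1, 1, 0, 39843005⟩, ⟨2, 2, 0, 5814905⟩]]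

noncomputable def f_pm_213_b : ℕ → ℕ → ℕ → ℕ → Bool := onCell 1239849684 370763052 0 1230186008 134217728 67108864
    (rowN 3 0 false true false .pnn 2 1 3 (qsf 1239849684 370763052 0 1230186008 1) ndN1q2b ndN5q3 pcN1 cut_pm_213_b Ext.none)

def k0_pm_213_b : ∃ t, chk3 f_pm_213_b t 1 1 1 = true :=
  ⟨(b (a (b (l 3) (a (b (l 3) (b (l 3) (c (l 256255988759) (l 257866659815)))) (l 3))) (l 3)) (b (a (b (a (b (l 16968664) (l 16927120)) (b (l 17231176) (l 17104456))) (a (b (l 16918096) (l 16904624)) (b (l 17069360) (l 17008704)))) (b (a (b (l 3) (l 17354136)) (l 1)) (l 1))) (a (b (b (a (l 17062032) (l 1)) (l 17197024)) (l 1)) (l 1)))), by decide +kernel⟩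

theorem c_pm_213_b : CertN 1239849684 370763052 0 1230186008 134217728 67108864 3 false true false .pnn 2 1 3
    ndN1q2b ndN5q3 pcN1 cut_pm_213_b Ext.none :=
  certN0 (fam := false) (s1 := true) (s2 := false) (a := 2) (b := 1) (c := 3) (cn := .pnn) (n1 := ndN1q2b) (n2 := ndN5q3) (pc := pcN1) (cut := cut_pm_213_b) (xt := Ext.none) (P1 := 1239849684) (W1 := 370763052) (P2 := 0) (W2 := 1230186008) (P3 := 134217728) (W3 := 67108864) (N0 := 3)
    rfl k0_pm_213_b

noncomputable def f_pm_303 : ℕ → ℕ → ℕ → ℕ → Bool := onCell 0 536870912 0 1230186008 134217728 67108864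
    (rowN 3 2 false true false .npn 3 0 3 (qsf 1610612736 536870912 0 1230186008 0) ndN1q3 ndN5q3 pcN0 Cut.none Ext.none)

def k0_pm_303 : ∃ t, chk3 f_pm_303 t 1 1 1 = true :=
  ⟨(b (l 3) (a (b (a (b (l 3) (l 17978600)) (l 157473121847)) (b (a (a (b (l 18328528) (l 18000336)) (b (l 18145288) (l 18179960))) (b (l 17959216) (l 18153856))) (a (c (l 18055128) (l 17932344)) (a (l 17844080) (l 1))))) (b (a (l 145124824839) (a (l 17572744) (l 1))) (l 1)))), by decide +kernel⟩

theorem c_pm_303 : CertN 1610612736 536870912 0 1230186008 134217728 67108864 3 false true false .npn 3 0 3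
    ndN1q3 ndN5q3 pcN0 Cut.none Ext.none :=
  certN2 (fam := false) (s1 := true) (s2 := false) (a := 3) (b := 0) (c := 3) (cn := .npn) (n1 := ndN1q3) (n2 := ndN5q3) (pc := pcN0) (cut := Cut.none) (xt := Ext.none) (P1 := 1610612736) (W1 := 536870912) (P2 := 0) (W2 := 1230186008) (P3 := 134217728) (W3 := 67108864) (N0 := 3)
    rfl (fun _ => rfl) k0_pm_303

noncomputable def f_pm_313 : ℕ → ℕ → ℕ → ℕ → Bool := onCell 1610612736 536870912 0 1230186008 134217728 67108864
    (rowN 3 0 false true false .dn 3 1 3 (qsf 1610612736 536870912 0 1230186008 1) ndN1q3 ndN5q3 pcN1 Cut.none Ext.none)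

def k0_pm_313 : ∃ t, chk3 f_pm_313 t 1 1 1 = true :=
  ⟨(b (l 3) (l 1)), by decide +kernel⟩

theorem c_pm_313 : CertN 1610612736 536870912 0 1230186008 134217728 67108864 3 false true false .dn 3 1 3
    ndN1q3 ndN5q3 pcN1 Cut.none Ext.none :=
  certN0 (fam := false) (s1 := true) (s2 := false) (a := 3) (b := 1) (c := 3) (cn := .dn) (n1 := ndN1q3) (n2 := ndN5q3) (pc := pcN1) (cut := Cut.none) (xt := Ext.none) (P1 := 1610612736) (W1 := 536870912) (P2 := 0) (W2 := 1230186008) (P3 := 134217728) (W3 := 67108864) (N0 := 3)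
    rfl k0_pm_313

noncomputable def f_mm_001 : ℕ → ℕ → ℕ → ℕ → Bool := onCell 0 536870912 0 536870912 134217728 67108864
    (rowN 3 1 false false false .up 0 0 1 (qsf 0 536870912 536870912 536870912 0) ndN1q0 ndN5q1 pcN0 Cut.none Ext.none)

def k0_mm_001 : ∃ t, chk3 f_mm_001 t 1 1 1 = true :=
  ⟨(l 3), by decide +kernel⟩

theorem c_mm_001 : CertN 0 536870912 536870912 536870912 134217728 67108864 3 false false false .up 0 0 1
    ndN1q0 ndN5q1 pcN0 Cut.none Ext.none :=
  certN1 (fam := false) (s1 := false) (s2 := false) (a := 0) (b := 0) (c := 1) (cn := .up) (n1 := ndN1q0) (n2 := ndN5q1) (pc := pcN0) (cut := Cut.none) (xt := Ext.none) (P1 := 0) (W1 := 536870912) (P2 := 536870912) (W2 := 536870912) (P3 := 134217728) (W3 := 67108864) (N0 := 3)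
    rfl (fun _ => rfl) k0_mm_001

noncomputable def f_mm_011 : ℕ → ℕ → ℕ → ℕ → Bool := onCell 0 536870912 536870912 536870912 134217728 67108864
    (rowN 3 1 false false false .pnn 0 1 1 (qsf 0 536870912 536870912 536870912 1) ndN1q0 ndN5q1 pcN1 Cut.none Ext.none)

def k0_mm_011 : ∃ t, chk3 f_mm_011 t 1 1 1 = true :=
  ⟨(l 5), by decide +kernel⟩

theorem c_mm_011 : CertN 0 536870912 536870912 536870912 134217728 67108864 3 false false false .pnn 0 1 1
    ndN1q0 ndN5q1 pcN1 Cut.none Ext.none :=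
  certN1 (fam := false) (s1 := false) (s2 := false) (a := 0) (b := 1) (c := 1) (cn := .pnn) (n1 := ndN1q0) (n2 := ndN5q1) (pc := pcN1) (cut := Cut.none) (xt := Ext.none) (P1 := 0) (W1 := 536870912) (P2 := 536870912) (W2 := 536870912) (P3 := 134217728) (W3 := 67108864) (N0 := 3)
    rfl (fun _ => rfl) k0_mm_011

noncomputable def f_mm_012 : ℕ → ℕ → ℕ → ℕ → Bool := onCell 0 536870912 1073741824 536870912 134217728 67108864
    (rowN 3 0 false false false .pnp 0 1 2 (qsf 0 536870912 1073741824 536870912 1) ndN1q0 ndN5q2 pcN1 Cut.none Ext.none)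

def k0_mm_012 : ∃ t, chk3 f_mm_012 t 1 1 1 = true :=
  ⟨(l 5), by decide +kernel⟩

theorem c_mm_012 : CertN 0 536870912 1073741824 536870912 134217728 67108864 3 false false false .pnp 0 1 2
    ndN1q0 ndN5q2 pcN1 Cut.none Ext.none :=
  certN0 (fam := false) (s1 := false) (s2 := false) (a := 0) (b := 1) (c := 2) (cn := .pnp) (n1 := ndN1q0) (n2 := ndN5q2) (pc := pcN1) (cut := Cut.none) (xt := Ext.none) (P1 := 0) (W1 := 536870912) (P2 := 1073741824) (W2 := 536870912) (P3 := 134217728) (W3 := 67108864) (N0 := 3)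
    rfl k0_mm_012

noncomputable def f_mm_022 : ℕ → ℕ → ℕ → ℕ → Bool := onCell 0 536870912 1073741824 536870912 134217728 67108864
    (rowN 3 0 false false false .pp 0 2 2 (qsf 0 536870912 1073741824 536870912 2) ndN1q0 ndN5q2 pcN2 Cut.none Ext.none)

def k0_mm_022 : ∃ t, chk3 f_mm_022 t 1 1 1 = true :=
  ⟨(l 5), by decide +kernel⟩

theorem c_mm_022 : CertN 0 536870912 1073741824 536870912 134217728 67108864 3 false false false .pp 0 2 2
    ndN1q0 ndN5q2 pcN2 Cut.none Ext.none :=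
  certN0 (fam := false) (s1 := false) (s2 := false) (a := 0) (b := 2) (c := 2) (cn := .pp) (n1 := ndN1q0) (n2 := ndN5q2) (pc := pcN2) (cut := Cut.none) (xt := Ext.none) (P1 := 0) (W1 := 536870912) (P2 := 1073741824) (W2 := 536870912) (P3 := 134217728) (W3 := 67108864) (N0 := 3)
    rfl k0_mm_022

noncomputable def f_mm_023 : ℕ → ℕ → ℕ → ℕ → Bool := onCell 0 536870912 0 1230186008 134217728 67108864
    (rowN 3 0 false false false .up 0 2 3 (qsf 0 536870912 0 1230186008 2) ndN1q0 ndN5q3 pcN2 Cut.none Ext.none)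

def k0_mm_023 : ∃ t, chk3 f_mm_023 t 1 1 1 = true :=
  ⟨(l 5), by decide +kernel⟩

theorem c_mm_023 : CertN 0 536870912 0 1230186008 134217728 67108864 3 false false false .up 0 2 3
    ndN1q0 ndN5q3 pcN2 Cut.none Ext.none :=
  certN0 (fam := false) (s1 := false) (s2 := false) (a := 0) (b := 2) (c := 3) (cn := .up) (n1 := ndN1q0) (n2 := ndN5q3) (pc := pcN2) (cut := Cut.none) (xt := Ext.none) (P1 := 0) (W1 := 536870912) (P2 := 0) (W2 := 1230186008) (P3 := 134217728) (W3 := 67108864) (N0 := 3)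
    rfl k0_mm_023

noncomputable def f_mm_033 : ℕ → ℕ → ℕ → ℕ → Bool := onCell 0 536870912 0 1230186008 134217728 67108864
    (rowN 3 0 false false false .pnn 0 3 3 (qsf 0 536870912 0 1230186008 3) ndN1q0 ndN5q3 pcN3 Cut.none Ext.none)

def k0_mm_033 : ∃ t, chk3 f_mm_033 t 1 1 1 = true :=
  ⟨(l 5), by decide +kernel⟩

theorem c_mm_033 : CertN 0 536870912 0 1230186008 134217728 67108864 3 false false false .pnn 0 3 3
    ndN1q0 ndN5q3 pcN3 Cut.none Ext.none :=
  certN0 (fam := false) (s1 := false) (s2 := false) (a := 0) (b := 3) (c := 3) (cn := .pnn) (n1 := ndN1q0) (n2 := ndN5q3) (pc := pcN3) (cut := Cut.none) (xt := Ext.none) (P1 := 0) (W1 := 536870912) (P2 := 0) (W2 := 1230186008) (P3 := 134217728) (W3 := 67108864) (N0 := 3)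
    rfl k0_mm_033

noncomputable def f_mm_101 : ℕ → ℕ → ℕ → ℕ → Bool := onCell 536870912 536870912 536870912 536870912 134217728 67108864
    (rowN 3 0 false false false .npn 1 0 1 (qsf 536870912 536870912 536870912 536870912 0) ndN1q1 ndN5q1 pcN0 Cut.none Ext.none)

def k0_mm_101 : ∃ t, chk3 f_mm_101 t 1 1 1 = true :=
  ⟨(l 3), by decide +kernel⟩

theorem c_mm_101 : CertN 536870912 536870912 536870912 536870912 134217728 67108864 3 false false false .npn 1 0 1
    ndN1q1 ndN5q1 pcN0 Cut.none Ext.none :=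
  certN0 (fam := false) (s1 := false) (s2 := false) (a := 1) (b := 0) (c := 1) (cn := .npn) (n1 := ndN1q1) (n2 := ndN5q1) (pc := pcN0) (cut := Cut.none) (xt := Ext.none) (P1 := 536870912) (W1 := 536870912) (P2 := 536870912) (W2 := 536870912) (P3 := 134217728) (W3 := 67108864) (N0 := 3)
    rfl k0_mm_101

noncomputable def f_mm_102 : ℕ → ℕ → ℕ → ℕ → Bool := onCell 536870912 536870912 1073741824 536870912 134217728 67108864
    (rowN 3 0 false false false .npp 1 0 2 (qsf 536870912 536870912 1073741824 536870912 0) ndN1q1 ndN5q2 pcN0 Cut.none Ext.none)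

def k0_mm_102 : ∃ t, chk3 f_mm_102 t 1 1 1 = true :=
  ⟨(l 3), by decide +kernel⟩

theorem c_mm_102 : CertN 536870912 536870912 1073741824 536870912 134217728 67108864 3 false false false .npp 1 0 2
    ndN1q1 ndN5q2 pcN0 Cut.none Ext.none :=
  certN0 (fam := false) (s1 := false) (s2 := false) (a := 1) (b := 0) (c := 2) (cn := .npp) (n1 := ndN1q1) (n2 := ndN5q2) (pc := pcN0) (cut := Cut.none) (xt := Ext.none) (P1 := 536870912) (W1 := 536870912) (P2 := 1073741824) (W2 := 536870912) (P3 := 134217728) (W3 := 67108864) (N0 := 3)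
    rfl k0_mm_102

noncomputable def f_mm_112 : ℕ → ℕ → ℕ → ℕ → Bool := onCell 536870912 536870912 1073741824 536870912 134217728 67108864
    (rowN 3 0 false false false .dn 1 1 2 (qsf 536870912 536870912 1073741824 536870912 1) ndN1q1 ndN5q2 pcN1 Cut.none Ext.none)

def k0_mm_112 : ∃ t, chk3 f_mm_112 t 1 1 1 = true :=
  ⟨(l 3), by decide +kernel⟩

theorem c_mm_112 : CertN 536870912 536870912 1073741824 536870912 134217728 67108864 3 false false false .dn 1 1 2
    ndN1q1 ndN5q2 pcN1 Cut.none Ext.none :=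
  certN0 (fam := false) (s1 := false) (s2 := false) (a := 1) (b := 1) (c := 2) (cn := .dn) (n1 := ndN1q1) (n2 := ndN5q2) (pc := pcN1) (cut := Cut.none) (xt := Ext.none) (P1 := 536870912) (W1 := 536870912) (P2 := 1073741824) (W2 := 536870912) (P3 := 134217728) (W3 := 67108864) (N0 := 3)
    rfl k0_mm_112

noncomputable def f_mm_113 : ℕ → ℕ → ℕ → ℕ → Bool := onCell 536870912 536870912 0 1230186008 134217728 67108864
    (rowN 3 0 false false false .nn 1 1 3 (qsf 536870912 536870912 0 1230186008 1) ndN1q1 ndN5q3 pcN1 Cut.none Ext.none)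

def k0_mm_113 : ∃ t, chk3 f_mm_113 t 1 1 1 = true :=
  ⟨(l 5), by decide +kernel⟩

theorem c_mm_113 : CertN 536870912 536870912 0 1230186008 134217728 67108864 3 false false false .nn 1 1 3
    ndN1q1 ndN5q3 pcN1 Cut.none Ext.none :=
  certN0 (fam := false) (s1 := false) (s2 := false) (a := 1) (b := 1) (c := 3) (cn := .nn) (n1 := ndN1q1) (n2 := ndN5q3) (pc := pcN1) (cut := Cut.none) (xt := Ext.none) (P1 := 536870912) (W1 := 536870912) (P2 := 0) (W2 := 1230186008) (P3 := 134217728) (W3 := 67108864) (N0 := 3)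
    rfl k0_mm_113

noncomputable def f_mm_123 : ℕ → ℕ → ℕ → ℕ → Bool := onCell 536870912 536870912 0 1230186008 134217728 67108864
    (rowN 3 0 false false false .npn 1 2 3 (qsf 536870912 536870912 0 1230186008 2) ndN1q1 ndN5q3 pcN2 Cut.none Ext.none)

def k0_mm_123 : ∃ t, chk3 f_mm_123 t 1 1 1 = true :=
  ⟨(l 5), by decide +kernel⟩

theorem c_mm_123 : CertN 536870912 536870912 0 1230186008 134217728 67108864 3 false false false .npn 1 2 3
    ndN1q1 ndN5q3 pcN2 Cut.none Ext.none :=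
  certN0 (fam := false) (s1 := false) (s2 := false) (a := 1) (b := 2) (c := 3) (cn := .npn) (n1 := ndN1q1) (n2 := ndN5q3) (pc := pcN2) (cut := Cut.none) (xt := Ext.none) (P1 := 536870912) (W1 := 536870912) (P2 := 0) (W2 := 1230186008) (P3 := 134217728) (W3 := 67108864) (N0 := 3)
    rfl k0_mm_123

noncomputable def f_mm_133 : ℕ → ℕ → ℕ → ℕ → Bool := onCell 536870912 536870912 0 1230186008 134217728 67108864
    (rowN 3 0 false false false .dn 1 3 3 (qsf 536870912 536870912 0 1230186008 3) ndN1q1 ndN5q3 pcN3 Cut.none Ext.none)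

def k0_mm_133 : ∃ t, chk3 f_mm_133 t 1 1 1 = true :=
  ⟨(l 5), by decide +kernel⟩

theorem c_mm_133 : CertN 536870912 536870912 0 1230186008 134217728 67108864 3 false false false .dn 1 3 3
    ndN1q1 ndN5q3 pcN3 Cut.none Ext.none :=
  certN0 (fam := false) (s1 := false) (s2 := false) (a := 1) (b := 3) (c := 3) (cn := .dn) (n1 := ndN1q1) (n2 := ndN5q3) (pc := pcN3) (cut := Cut.none) (xt := Ext.none) (P1 := 536870912) (W1 := 536870912) (P2 := 0) (W2 := 1230186008) (P3 := 134217728) (W3 := 67108864) (N0 := 3)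
    rfl k0_mm_133

noncomputable def cut_mm_202_a : Cut := Cut.of [[⟨0, 1, 0, 67108864⟩, ⟨1, 0, 0, 67108864⟩, ⟨2, 1, 0, 67108864⟩]]

noncomputable def f_mm_202_a : ℕ → ℕ → ℕ → ℕ → Bool := onCell 0 536870912 0 536870912 134217728 67108864
    (rowN 3 1 false false false .pp 2 0 2 (qsf 0 536870912 1073741824 536870912 0) ndN1q2a ndN5q2 pcN0 cut_mm_202_a Ext.none)

def k0_mm_202_a : ∃ t, chk3 f_mm_202_a t 2 4 1 = true :=
  ⟨(b (a (b (a (l 17139608) (l 16978600)) (a (l 17022072) (l 17026944))) (b (b (a (l 16916792) (l 16808424)) (a (l 16766320) (l 16654032))) (a (b (l 16854752) (l 17056832)) (b (l 16680760) (l 16907256))))) (a (b (a (l 17290520) (l 17256744)) (a (l 17342456) (l 17279992))) (b (a (c (l 17331520) (l 17014880)) (b (a (l 17050648) (l 16975688)) (l 17007168))) (a (l 17196640) (a (b (l 17123096) (l 17121312)) (b (l 17001592) (l 184851665111))))))), by decide +kernel⟩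

def k1_mm_202_a : ∃ t, chk3 f_mm_202_a t 3 16 1 = true :=
  ⟨(a (a (b (a (l 16743920) (l 16729888)) (c (l 16714904) (l 16708776))) (b (a (b (l 16723544) (l 16650240)) (b (l 16749728) (l 16699472))) (a (b (l 16675408) (l 16658312)) (b (l 16702824) (b (l 16675344) (l 16678592)))))) (a (b (a (b (b (l 16760000) (l 16704800)) (a (l 16714584) (b (l 16709640) (l 16703120)))) (b (a (b (l 6) (l 16705720)) (l 6)) (a (c (l 16729112) (l 16722672)) (a (a (l 16719056) (l 6)) (l 6))))) (a (b (a (l 16693432) (c (l 16707080) (l 16705160))) (a (l 16698240) (c (l 16714456) (l 16712360)))) (c (a (b (l 16715808) (b (l 16717360) (a (l 16707408) (l 133848521415)))) (b (b (l 16724616) (a (l 16714488) (l 132237924423))) (a (b (l 132774787639) (l 164987032535)) (b (l 164450180119) (l 3))))) (a (b (l 16719544) (a (l 16724288) (l 131164167015))) (b (a (l 16721440) (b (l 6) (l 16731992))) (a (b (l 16727904) (l 167134513431)) (b (l 166597671975) (l 3)))))))) (a (b (l 6) (b (l 6) (l 3)))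 (l 6)))), by decide +kernel⟩

def k2_mm_202_a : ∃ t, chk3 f_mm_202_a t 3 17 1 = true :=
  ⟨(a (c (a (b (a (l 16792760) (l 16624840)) (a (l 16966136) (l 16841872))) (a (b (a (l 16660736) (l 16649904)) (b (l 16657408) (l 16751928))) (b (b (l 16687096) (a (l 16668464) (l 16682464))) (a (b (l 16677680) (l 138143492151)) (b (l 138680325655) (l 178408756039)))))) (a (b (l 16670216) (a (l 16609032) (l 16614576))) (a (b (l 16672304) (a (l 16650408) (l 16685000))) (b (b (l 16683896) (l 16692864)) (a (l 148880857239) (b (l 137606577863) (l 177871878151))))))) (a (a (c (b (a (b (l 16708664) (l 144585906599)) (b (a (l 16709184) (l 134385380615)) (a (l 172503193159) (l 3)))) (a (b (l 178408788087) (l 3)) (l 3))) (b (a (b (l 16685008) (l 134922236263)) (b (l 145122795255) (a (l 173040059111) (l 3)))) (a (b (l 177871911431) (l 3)) (l 3)))) (b (a (c (b (a (l 144049069255) (l 169818881559)) (l 3)) (b (a (l 144049065463) (l 171429496359)) (l 3))) (l 3)) (l 3))) (l 3))), by decide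 +kernel⟩

def k3_mm_202_a : ∃ t, chk3 f_mm_202_a t 3 9 1 = true :=
  ⟨(a (b (b (a (a (l 16891368) (b (l 16765168) (c (l 16974096) (l 16679432)))) (a (b (c (l 171429435319) (l 180556205607)) (c (l 193441492119) (l 185924929735))) (l 3))) (c (a (a (l 17092336) (l 199347339879)) (l 3)) (a (a (l 16840248) (l 183777610679)) (l 3)))) (a (a (b (a (l 134385654375) (l 200420908071)) (l 3)) (l 3)) (l 3))) (l 3)), by decide +kernel⟩

def k4_mm_202_a : ∃ t, chk3 f_mm_202_a t 1 5 1 = true :=
  ⟨(a (b (a (a (b (l 17294920) (l 17225608)) (b (l 17234680) (l 17169528))) (a (b (a (l 17182208) (l 135996646807)) (a (l 152639634231) (l 197736859335))) (b (a (b (l 139217740055) (l 205253060743)) (l 210084820247)) (l 3)))) (a (a (b (l 17152048) (l 164987627383)) (b (l 180557029607) (l 196662994263))) (l 3))) (l 3)), by decide +kernel⟩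

def k5_mm_202_a : ∃ t, chk3 f_mm_202_a t 1 3 1 = true :=
  ⟨(b (a (b (a (a (b (l 193441729863) (l 3)) (l 3)) (l 3)) (l 3)) (l 3)) (l 3)), by decide +kernel⟩

theorem s6_mm_202_a : ∃ t, chk3 f_mm_202_a t 3 8 1 = true := ex3_b k1_mm_202_a k2_mm_202_a

theorem s7_mm_202_a : ∃ t, chk3 f_mm_202_a t 3 4 1 = true := ex3_b s6_mm_202_a k3_mm_202_a

theorem s8_mm_202_a : ∃ t, chk3 f_mm_202_a t 1 4 1 = true := ex3_a k0_mm_202_a s7_mm_202_a

theorem s9_mm_202_a : ∃ t, chk3 f_mm_202_a t 1 2 1 = true := ex3_b s8_mm_202_a k4_mm_202_a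

theorem s10_mm_202_a : ∃ t, chk3 f_mm_202_a t 1 1 1 = true := ex3_b s9_mm_202_a k5_mm_202_a

theorem c_mm_202_a : CertN 0 536870912 1073741824 536870912 134217728 67108864 3 false false false .pp 2 0 2
    ndN1q2a ndN5q2 pcN0 cut_mm_202_a Ext.none :=
  certN1 (fam := false) (s1 := false) (s2 := false) (a := 2) (b := 0) (c := 2) (cn := .pp) (n1 := ndN1q2a) (n2 := ndN5q2) (pc := pcN0) (cut := cut_mm_202_a) (xt := Ext.none) (P1 := 0) (W1 := 536870912) (P2 := 1073741824) (W2 := 536870912) (P3 := 134217728) (W3 := 67108864) (N0 := 3)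
    rfl (fun _ => rfl) s10_mm_202_a

noncomputable def cut_mm_202_b : Cut := Cut.of [[⟨0, 1, 0, 67108864⟩, ⟨1, 0, 0, 67108864⟩, ⟨2, 1, 0, 67108864⟩]]

noncomputable def f_mm_202_b : ℕ → ℕ → ℕ → ℕ → Bool := onCell 1239849684 370763052 0 536870912 134217728 67108864
    (rowN 3 1 false false false .pp 2 0 2 (qsf 1239849684 370763052 1073741824 536870912 0) ndN1q2b ndN5q2 pcN0 cut_mm_202_b Ext.none)

def k0_mm_202_b : ∃ t, chk3 f_mm_202_b t 1 1 1 = true :=
  ⟨(b (a (b (b (a (b (a (l 17113272) (l 17335240)) (l 17510752)) (b (l 17926408) (a (l 17944688) (l 18126680)))) (a (b (a (l 17458432) (l 17727736)) (l 17789656)) (b (l 17965320) (l 17827520)))) (b (a (b (a (l 17411096) (l 17561264)) (a (l 17329360) (l 17464704))) (b (l 17694448) (l 200422706839))) (a (b (a (l 17248368) (l 17365880)) (a (l 30233428279) (l 3))) (l 3)))) (b (b (a (b (a (l 18283840) (l 18385048)) (l 18227976)) (b (l 18376608) (l 3))) (a (b (l 18058216) (l 3)) (l 3))) (l 3))) (a (b (a (b (a (b (b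 (l 17099440) (l 202568719527)) (l 3)) (l 3)) (l 3)) (l 3)) (l 2)) (l 2))), by decide +kernel⟩

theorem c_mm_202_b : CertN 1239849684 370763052 1073741824 536870912 134217728 67108864 3 false false false .pp 2 0 2
    ndN1q2b ndN5q2 pcN0 cut_mm_202_b Ext.none :=
  certN1 (fam := false) (s1 := false) (s2 := false) (a := 2) (b := 0) (c := 2) (cn := .pp) (n1 := ndN1q2b) (n2 := ndN5q2) (pc := pcN0) (cut := cut_mm_202_b) (xt := Ext.none) (P1 := 1239849684) (W1 := 370763052) (P2 := 1073741824) (W2 := 536870912) (P3 := 134217728) (W3 := 67108864) (N0 := 3)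
    rfl (fun _ => rfl) k0_mm_202_b

noncomputable def f_mm_203_a : ℕ → ℕ → ℕ → ℕ → Bool := onCell 0 536870912 0 1230186008 134217728 67108864
    (rowN 3 0 false false false .up 2 0 3 (qsf 0 536870912 0 1230186008 0) ndN1q2a ndN5q3 pcN0 Cut.none Ext.none)

def k0_mm_203_a : ∃ t, chk3 f_mm_203_a t 1 1 1 = true :=
  ⟨(b (l 2) (b (l 2) (l 3))), by decide +kernel⟩

theorem c_mm_203_a : CertN 0 536870912 0 1230186008 134217728 67108864 3 false false false .up 2 0 3
    ndN1q2a ndN5q3 pcN0 Cut.none Ext.none :=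
  certN0 (fam := false) (s1 := false) (s2 := false) (a := 2) (b := 0) (c := 3) (cn := .up) (n1 := ndN1q2a) (n2 := ndN5q3) (pc := pcN0) (cut := Cut.none) (xt := Ext.none) (P1 := 0) (W1 := 536870912) (P2 := 0) (W2 := 1230186008) (P3 := 134217728) (W3 := 67108864) (N0 := 3)
    rfl k0_mm_203_a

noncomputable def f_mm_203_b : ℕ → ℕ → ℕ → ℕ → Bool := onCell 1239849684 370763052 0 1230186008 134217728 67108864
    (rowN 3 0 false false false .up 2 0 3 (qsf 1239849684 370763052 0 1230186008 0) ndN1q2b ndN5q3 pcN0 Cut.none Ext.none)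

def k0_mm_203_b : ∃ t, chk3 f_mm_203_b t 1 1 1 = true :=
  ⟨(b (l 3) (b (l 3) (a (l 3) (l 3)))), by decide +kernel⟩

theorem c_mm_203_b : CertN 1239849684 370763052 0 1230186008 134217728 67108864 3 false false false .up 2 0 3
    ndN1q2b ndN5q3 pcN0 Cut.none Ext.none :=
  certN0 (fam := false) (s1 := false) (s2 := false) (a := 2) (b := 0) (c := 3) (cn := .up) (n1 := ndN1q2b) (n2 := ndN5q3) (pc := pcN0) (cut := Cut.none) (xt := Ext.none) (P1 := 1239849684) (W1 := 370763052) (P2 := 0) (W2 := 1230186008) (P3 := 134217728) (W3 := 67108864) (N0 := 3)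
    rfl k0_mm_203_b

noncomputable def f_mm_213_a : ℕ → ℕ → ℕ → ℕ → Bool := onCell 0 536870912 0 1230186008 134217728 67108864
    (rowN 3 0 false false false .pnn 2 1 3 (qsf 0 536870912 0 1230186008 1) ndN1q2a ndN5q3 pcN1 Cut.none Ext.none)

def k0_mm_213_a : ∃ t, chk3 f_mm_213_a t 1 1 1 = true :=
  ⟨(b (a (l 3) (l 5)) (b (l 3) (l 3))), by decide +kernel⟩

theorem c_mm_213_a : CertN 0 536870912 0 1230186008 134217728 67108864 3 false false false .pnn 2 1 3
    ndN1q2a ndN5q3 pcN1 Cut.none Ext.none :=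
  certN0 (fam := false) (s1 := false) (s2 := false) (a := 2) (b := 1) (c := 3) (cn := .pnn) (n1 := ndN1q2a) (n2 := ndN5q3) (pc := pcN1) (cut := Cut.none) (xt := Ext.none) (P1 := 0) (W1 := 536870912) (P2 := 0) (W2 := 1230186008) (P3 := 134217728) (W3 := 67108864) (N0 := 3)
    rfl k0_mm_213_a

noncomputable def f_mm_213_b : ℕ → ℕ → ℕ → ℕ → Bool := onCell 1239849684 370763052 0 1230186008 134217728 67108864
    (rowN 3 0 false false false .pnn 2 1 3 (qsf 1239849684 370763052 0 1230186008 1) ndN1q2b ndN5q3 pcN1 Cut.none Ext.none)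

def k0_mm_213_b : ∃ t, chk3 f_mm_213_b t 1 1 1 = true :=
  ⟨(b (l 3) (b (l 3) (a (l 3) (l 1)))), by decide +kernel⟩

theorem c_mm_213_b : CertN 1239849684 370763052 0 1230186008 134217728 67108864 3 false false false .pnn 2 1 3
    ndN1q2b ndN5q3 pcN1 Cut.none Ext.none :=
  certN0 (fam := false) (s1 := false) (s2 := false) (a := 2) (b := 1) (c := 3) (cn := .pnn) (n1 := ndN1q2b) (n2 := ndN5q3) (pc := pcN1) (cut := Cut.none) (xt := Ext.none) (P1 := 1239849684) (W1 := 370763052) (P2 := 0) (W2 := 1230186008) (P3 := 134217728) (W3 := 67108864) (N0 := 3)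
    rfl k0_mm_213_b

noncomputable def f_mm_303 : ℕ → ℕ → ℕ → ℕ → Bool := onCell 0 536870912 0 1230186008 134217728 67108864
    (rowN 3 2 false false false .npn 3 0 3 (qsf 1610612736 536870912 0 1230186008 0) ndN1q3 ndN5q3 pcN0 Cut.none Ext.none)

def k0_mm_303 : ∃ t, chk3 f_mm_303 t 1 1 1 = true :=
  ⟨(b (l 3) (b (l 3) (a (l 3) (l 1)))), by decide +kernel⟩

theorem c_mm_303 : CertN 1610612736 536870912 0 1230186008 134217728 67108864 3 false false false .npn 3 0 3
    ndN1q3 ndN5q3 pcN0 Cut.none Ext.none :=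
  certN2 (fam := false) (s1 := false) (s2 := false) (a := 3) (b := 0) (c := 3) (cn := .npn) (n1 := ndN1q3) (n2 := ndN5q3) (pc := pcN0) (cut := Cut.none) (xt := Ext.none) (P1 := 1610612736) (W1 := 536870912) (P2 := 0) (W2 := 1230186008) (P3 := 134217728) (W3 := 67108864) (N0 := 3)
    rfl (fun _ => rfl) k0_mm_303

noncomputable def f_mm_313 : ℕ → ℕ → ℕ → ℕ → Bool := onCell 1610612736 536870912 0 1230186008 134217728 67108864
    (rowN 3 0 false false false .dn 3 1 3 (qsf 1610612736 536870912 0 1230186008 1) ndN1q3 ndN5q3 pcN1 Cut.none Ext.none)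

def k0_mm_313 : ∃ t, chk3 f_mm_313 t 1 1 1 = true :=
  ⟨(b (l 3) (l 1)), by decide +kernel⟩

theorem c_mm_313 : CertN 1610612736 536870912 0 1230186008 134217728 67108864 3 false false false .dn 3 1 3
    ndN1q3 ndN5q3 pcN1 Cut.none Ext.none :=
  certN0 (fam := false) (s1 := false) (s2 := false) (a := 3) (b := 1) (c := 3) (cn := .dn) (n1 := ndN1q3) (n2 := ndN5q3) (pc := pcN1) (cut := Cut.none) (xt := Ext.none) (P1 := 1610612736) (W1 := 536870912) (P2 := 0) (W2 := 1230186008) (P3 := 134217728) (W3 := 67108864) (N0 := 3)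
    rfl k0_mm_313

end Pool.Agent.Strip051.G.I1_8_3_16.Tab.C.NB15

namespace Pool.Agent.Strip051.G.I1_8_3_16.Tab.C.NB20

open Pool.Agent.Strip051.PB Pool.Agent.Strip051.PB.T
open Pool.Agent.Strip051.G.I1_8_3_16.Tab

noncomputable def f_pp_001 : ℕ → ℕ → ℕ → ℕ → Bool := onCell 0 536870912 0 536870912 134217728 67108864
    (rowN 3 1 false true true .up 0 0 1 (qsf 0 536870912 536870912 536870912 0) ndN2q0 ndN0q1 pcN0 Cut.none Ext.none)

def k0_pp_001 : ∃ t, chk3 f_pp_001 t 1 1 1 = true :=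
  ⟨(a (l 3) (b (l 3) (l 3))), by decide +kernel⟩

theorem c_pp_001 : CertN 0 536870912 536870912 536870912 134217728 67108864 3 false true true .up 0 0 1
    ndN2q0 ndN0q1 pcN0 Cut.none Ext.none :=
  certN1 (fam := false) (s1 := true) (s2 := true) (a := 0) (b := 0) (c := 1) (cn := .up) (n1 := ndN2q0) (n2 := ndN0q1) (pc := pcN0) (cut := Cut.none) (xt := Ext.none) (P1 := 0) (W1 := 536870912) (P2 := 536870912) (W2 := 536870912) (P3 := 134217728) (W3 := 67108864) (N0 := 3)
    rfl (fun _ => rfl) k0_pp_001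

noncomputable def cut_pp_011 : Cut := Cut.of [[⟨0, 0, 0, 67108864⟩, ⟨1, 1, 0, 67108864⟩, ⟨2, 1, 0, 67108864⟩]]

noncomputable def f_pp_011 : ℕ → ℕ → ℕ → ℕ → Bool := onCell 0 536870912 536870912 536870912 134217728 67108864
    (rowN 3 0 false true true .pnn 0 1 1 (qsf 0 536870912 536870912 536870912 1) ndN2q0 ndN0q1 pcN1 cut_pp_011 Ext.none)

def k0_pp_011 : ∃ t, chk3 f_pp_011 t 1 1 1 = true :=
  ⟨(b (l 3) (b (l 3) (b (l 3) (a (a (b (l 3) (a (b (l 3) (a (l 6) (l 3))) (l 3))) (l 3)) (l 3))))), by decide +kernel⟩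

theorem c_pp_011 : CertN 0 536870912 536870912 536870912 134217728 67108864 3 false true true .pnn 0 1 1
    ndN2q0 ndN0q1 pcN1 cut_pp_011 Ext.none :=
  certN0 (fam := false) (s1 := true) (s2 := true) (a := 0) (b := 1) (c := 1) (cn := .pnn) (n1 := ndN2q0) (n2 := ndN0q1) (pc := pcN1) (cut := cut_pp_011) (xt := Ext.none) (P1 := 0) (W1 := 536870912) (P2 := 536870912) (W2 := 536870912) (P3 := 134217728) (W3 := 67108864) (N0 := 3)
    rfl k0_pp_011

noncomputable def cut_pp_012 : Cut := Cut.of [[⟨0, 0, 0, 67108864⟩, ⟨1, 1, 0, 67108864⟩, ⟨2, 1, 0, 67108864⟩]]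

noncomputable def f_pp_012 : ℕ → ℕ → ℕ → ℕ → Bool := onCell 536870912 536870912 0 536870912 134217728 67108864
    (rowN 3 2 false true true .pnp 0 1 2 (qsf 0 536870912 0 536870912 1) ndN2q0 ndN0q2 pcN1 cut_pp_012 Ext.none)

def k0_pp_012 : ∃ t, chk3 f_pp_012 t 1 1 1 = true :=
  ⟨(a (b (a (b (l 2) (l 17037208)) (b (l 17132064) (l 17031224))) (a (a (b (l 2) (b (l 17564320) (b (l 17712992) (l 3)))) (b (l 17259424) (b (l 17455880) (l 166063001223)))) (b (l 17358080) (a (b (l 17349504) (l 161230858951)) (l 133850159815))))) (b (a (b (l 17308416) (l 17140760)) (b (a (l 17278992) (l 16869768)) (a (l 17093064) (a (l 17040840) (l 17005472))))) (a (b (a (l 17072520) (l 17013528)) (a (l 131165541463) (b (l 17030576) (l 17164552)))) (b (a (l 17015760) (a (l 16957768) (b (l 16935544) (a (l 16902368) (l 16878672))))) (a (b (l 16940608) (a (l 16975424) (l 16963752))) (b (a (l 16902920) (b (a (l 16875104) (l 16849856)) (b (l 16849528) (l 16841408)))) (b (a (l 16871528) (a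 (l 16843248) (l 6))) (a (b (l 16868272) (l 16887496)) (l 6))))))))), by decide +kernel⟩

theorem c_pp_012 : CertN 0 536870912 0 536870912 134217728 67108864 3 false true true .pnp 0 1 2
    ndN2q0 ndN0q2 pcN1 cut_pp_012 Ext.none :=
  certN2 (fam := false) (s1 := true) (s2 := true) (a := 0) (b := 1) (c := 2) (cn := .pnp) (n1 := ndN2q0) (n2 := ndN0q2) (pc := pcN1) (cut := cut_pp_012) (xt := Ext.none) (P1 := 0) (W1 := 536870912) (P2 := 0) (W2 := 536870912) (P3 := 134217728) (W3 := 67108864) (N0 := 3)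
    rfl (fun _ => rfl) k0_pp_012

noncomputable def cut_pp_022 : Cut := Cut.of [[⟨0, 0, 0, 67108864⟩, ⟨1, 1, 0, 67108864⟩, ⟨2, 1, 0, 67108864⟩]]

noncomputable def f_pp_022 : ℕ → ℕ → ℕ → ℕ → Bool := onCell 0 536870912 0 536870912 134217728 67108864
    (rowN 3 0 false true true .pp 0 2 2 (qsf 0 536870912 0 536870912 2) ndN2q0 ndN0q2 pcN2 cut_pp_022 Ext.none)

def k0_pp_022 : ∃ t, chk3 f_pp_022 t 2 2 1 = true :=
  ⟨(a (b (a (a (a (b (a (b (c (a (l 16883760) (l 16879112)) (l 16548360)) (c (l 16853784) (l 16528592))) (l 16554784)) (a (b (c (l 16799456) (l 16531760)) (c (l 16713784) (l 16535248))) (b (l 16536976) (l 16540400)))) (b (l 16606776) (b (l 16569832) (l 16617312)))) (b (a (l 16528648) (l 16531720)) (a (b (l 16515032) (l 16565064)) (a (l 16570800) (l 16603848))))) (a (a (b (l 16586368) (a (l 16625048) (l 16466296))) (l 16467952)) (l 16484152))) (a (b (a (a (a (b (c (l 16570824) (l 16560168)) (c (b (l 16544872) (l 16569008)) (l 16582056))) (b (l 16576040)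 (l 16608944))) (b (a (l 16538512) (l 16532680)) (a (l 16588184) (l 16583688)))) (a (b (l 16681192) (a (l 16580024) (l 16577664))) (b (a (l 16517736) (l 16522280)) (a (l 16621016) (l 16643600))))) (a (a (b (a (c (a (l 16597680) (l 16594904)) (a (l 16575256) (l 16572936))) (c (l 16635904) (l 16614448))) (b (a (c (l 16604520) (l 16583272)) (l 16610632)) (a (c (a (l 16588848) (l 16565424)) (l 16604312)) (a (l 16574128) (l 16572280))))) (b (a (l 16663432) (l 16661152)) (a (b (l 16607512) (l 16638192)) (a (l 16675320) (l 16675464))))) (a (b (a (l 16681520) (l 16719560)) (a (a (l 16696200) (l 16718720)) (a (l 16740032) (l 16541096)))) (b (a (a (l 16621400) (l 16524384)) (l 16526344)) (l 16543800))))) (l 16651232))) (a (b (l 16516320) (l 16583472)) (l 1))), by decide +kernel⟩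

def k1_pp_022 : ∃ t, chk3 f_pp_022 t 8 6 1 = true :=
  ⟨(b (a (a (b (a (a (b (c (l 16596304) (l 16576872)) (c (l 16615728) (l 16597512))) (b (c (l 16594240) (l 16575416)) (c (l 16603680) (l 16607072)))) (b (a (l 16603936) (l 16602608)) (c (l 16692944) (l 16675848)))) (c (a (b (a (c (l 16641504) (l 16632576)) (l 16636136)) (a (b (l 16621360) (l 16627776)) (l 16681688))) (b (a (l 16635728) (l 16614832)) (a (l 16687080) (l 16688864)))) (a (b (a (b (l 16593200) (l 16599304)) (l 16619968)) (a (b (l 16605968) (l 16613264)) (l 16667112))) (b (a (l 16620256) (l 16621032)) (b (l 16681728) (l 16712248)))))) (b (a (b (l 16681728) (c (l 16706416) (l 16696688))) (b (l 16707536) (a (l 16636360) (l 16558576)))) (a (a (b (l 16666056) (l 16738704)) (b (l 16668792) (l 16578032))) (l 16573712)))) (b (a (a (b (l 16734240) (l 16559232)) (l 16557024)) (l 16560192)) (l 16592856))) (a (b (a (a (b (b (a (c (l 16639472) (l 16625992)) (c (l 16634872) (l 16622072))) (a (c (l 16645312)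 (l 16633088)) (c (l 16660112) (l 16648472)))) (b (a (c (c (l 16656760) (l 16651024)) (l 16650232)) (c (l 16668912) (l 16657896))) (a (a (c (l 16638208) (l 16638848)) (l 16623336)) (l 16627584)))) (a (b (b (l 16658584) (l 16685184)) (l 16607592)) (l 16623672))) (l 16636824)) (a (a (b (c (l 16644872) (l 16635296)) (a (c (l 16661624) (l 16653088)) (l 16662688))) (c (l 16646224) (l 16614832))) (c (l 16686968) (l 16653640)))) (b (l 16644448) (a (l 16666936) (l 16713248))))), by decide +kernel⟩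

def k2_pp_022 : ∃ t, chk3 f_pp_022 t 8 7 1 = true :=
  ⟨(b (a (b (a (a (a (c (a (c (b (l 16660432) (l 16699696)) (l 16687176)) (l 16691752)) (b (l 16673088) (l 16692552))) (c (l 16696016) (l 16688248))) (c (l 16684056) (l 16696408))) (l 16740600)) (l 6)) (b (a (l 16727800) (l 16760072)) (a (l 6) (b (l 16786536) (l 16803120))))) (a (l 6) (a (l 6) (l 1)))), by decide +kernel⟩

def k3_pp_022 : ∃ t, chk3 f_pp_022 t 9 3 1 = true :=
  ⟨(b (b (l 16644968) (a (b (l 16675648) (l 16742568)) (l 280280162919))) (b (a (b (l 127809136839) (l 1)) (l 1)) (l 1))), by decide +kernel⟩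

def k4_pp_022 : ∃ t, chk3 f_pp_022 t 5 3 1 = true :=
  ⟨(b (l 1) (l 1)), by decide +kernel⟩

def k5_pp_022 : ∃ t, chk3 f_pp_022 t 3 1 1 = true :=
  ⟨(l 1), by decide +kernel⟩

theorem s6_pp_022 : ∃ t, chk3 f_pp_022 t 8 3 1 = true := ex3_b k1_pp_022 k2_pp_022

theorem s7_pp_022 : ∃ t, chk3 f_pp_022 t 4 3 1 = true := ex3_a s6_pp_022 k3_pp_022

theorem s8_pp_022 : ∃ t, chk3 f_pp_022 t 2 3 1 = true := ex3_a s7_pp_022 k4_pp_022

theorem s9_pp_022 : ∃ t, chk3 f_pp_022 t 2 1 1 = true := ex3_b k0_pp_022 s8_pp_022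

theorem s10_pp_022 : ∃ t, chk3 f_pp_022 t 1 1 1 = true := ex3_a s9_pp_022 k5_pp_022

theorem c_pp_022 : CertN 0 536870912 0 536870912 134217728 67108864 3 false true true .pp 0 2 2
    ndN2q0 ndN0q2 pcN2 cut_pp_022 Ext.none :=
  certN0 (fam := false) (s1 := true) (s2 := true) (a := 0) (b := 2) (c := 2) (cn := .pp) (n1 := ndN2q0) (n2 := ndN0q2) (pc := pcN2) (cut := cut_pp_022) (xt := Ext.none) (P1 := 0) (W1 := 536870912) (P2 := 0) (W2 := 536870912) (P3 := 134217728) (W3 := 67108864) (N0 := 3)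
    rfl s10_pp_022

noncomputable def f_pp_101 : ℕ → ℕ → ℕ → ℕ → Bool := onCell 536870912 536870912 536870912 536870912 134217728 67108864
    (rowN 3 0 false true true .npn 1 0 1 (qsf 536870912 536870912 536870912 536870912 0) ndN2q1 ndN0q1 pcN0 Cut.none Ext.none)

def k0_pp_101 : ∃ t, chk3 f_pp_101 t 1 1 1 = true :=
  ⟨(b (l 3) (a (l 3) (l 3))), by decide +kernel⟩

theorem c_pp_101 : CertN 536870912 536870912 536870912 536870912 134217728 67108864 3 false true true .npn 1 0 1
    ndN2q1 ndN0q1 pcN0 Cut.none Ext.none :=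
  certN0 (fam := false) (s1 := true) (s2 := true) (a := 1) (b := 0) (c := 1) (cn := .npn) (n1 := ndN2q1) (n2 := ndN0q1) (pc := pcN0) (cut := Cut.none) (xt := Ext.none) (P1 := 536870912) (W1 := 536870912) (P2 := 536870912) (W2 := 536870912) (P3 := 134217728) (W3 := 67108864) (N0 := 3)
    rfl k0_pp_101

noncomputable def f_pp_102 : ℕ → ℕ → ℕ → ℕ → Bool := onCell 536870912 536870912 0 536870912 134217728 67108864
    (rowN 3 0 false true true .npp 1 0 2 (qsf 536870912 536870912 0 536870912 0) ndN2q1 ndN0q2 pcN0 Cut.none Ext.none)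

def k0_pp_102 : ∃ t, chk3 f_pp_102 t 2 1 1 = true :=
  ⟨(b (a (b (l 2) (l 17356288)) (b (l 17406712) (a (l 17484032) (l 17572544)))) (a (a (b (l 2) (b (l 17598632) (b (l 170357806871) (l 3)))) (b (l 17534344) (b (l 17599944) (b (l 172505242007) (l 3))))) (b (b (l 17593424) (a (l 17595752) (l 17615920))) (b (b (a (l 17602296) (l 17595080)) (a (l 17597144) (c (l 17649320) (l 17488224)))) (b (a (l 173578689607) (a (l 174115499975) (l 431276598743))) (l 3)))))), by decide +kernel⟩

def k1_pp_102 : ∃ t, chk3 f_pp_102 t 3 2 1 = true :=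
  ⟨(a (b (a (l 17589032) (l 17714000)) (a (l 17665064) (b (l 17671640) (l 17640224)))) (b (a (b (l 17779000) (l 17679528)) (b (l 17757728) (l 17479888))) (a (b (l 17553280) (l 17415112)) (b (l 17087720) (a (l 16866984) (l 16652720)))))), by decide +kernel⟩

def k2_pp_102 : ∃ t, chk3 f_pp_102 t 6 3 1 = true :=
  ⟨(b (a (b (l 17638448) (l 17590808)) (b (l 17563032) (b (l 17473760) (l 17396392)))) (b (a (b (l 17532224) (b (c (l 17607432) (l 17379240)) (a (l 170893753687) (c (l 17546576) (l 166598479959))))) (b (a (l 17389072) (b (l 17223464) (l 17100760))) (b (a (c (l 17483480) (l 17165688)) (c (b (l 17320680) (l 17058656)) (b (l 16908384) (l 16770984)))) (a (c (l 171967786647) (b (l 160692382519) (l 3))) (b (c (l 396379464199) (a (l 159081867879) (l 205789296183))) (l 3)))))) (a (b (l 3) (l 3)) (l 3)))), by decide +kernel⟩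

def k3_pp_102 : ∃ t, chk3 f_pp_102 t 7 3 1 = true :=
  ⟨(b (b (a (a (l 17345616) (l 17023200)) (a (l 16506056) (l 16628792))) (a (b (l 16987304) (a (l 17018376) (l 16602096))) (a (b (l 16485720) (b (l 16530856) (l 16587656))) (b (l 16551928) (b (l 16570936) (l 16612288)))))) (b (a (c (b (a (l 17028016) (b (l 16651096) (l 16707912))) (b (a (a (l 155860431575) (l 154786613815)) (a (a (l 152102155335) (l 151565266855)) (c (l 150491515831) (l 150491481399)))) (l 3))) (b (b (l 16673496) (a (l 16680192) (l 16694496))) (b (a (a (l 152639062343) (l 153175864503)) (b (a (l 16685912) (l 146196494215)) (a (l 151028347927) (l 170892542615)))) (l 3)))) (b (a (a (b (l 16610296) (c (l 16682336) (l 16653400))) (a (b (l 16598912) (c (l 16648840) (l 16643664))) (b (l 16612440) (c (b (l 16631280) (l 16649832)) (l 16637328))))) (b (a (l 16643552) (b (l 16596328) (l 16620488))) (b (a (c (l 16640320) (l 16619016)) (c (a (l 16629072) (l 16621808)) (l 16619888))) (a (b (c (a (l 16637176)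 (l 16629744)) (l 16632896)) (c (a (l 140290855303) (l 138143359143)) (a (l 16644928) (l 135995837207)))) (b (c (a (l 16643472) (a (l 16638072) (l 16631800))) (a (l 16624600) (l 16621112))) (c (b (a (l 136532724663) (l 172503061447)) (l 3)) (a (l 133848343207) (l 251959908823)))))))) (b (b (b (a (a (c (a (l 16688304) (l 16680056)) (l 148880777543)) (c (a (l 149954538199) (l 146196431655)) (a (l 144585797799) (l 141364564023)))) (a (a (c (l 162302542567) (l 146733240583)) (l 3)) (l 3))) (a (a (c (a (l 153712669159) (l 175724381831)) (l 162302559095)) (l 3)) (l 3))) (l 3)) (l 3)))) (l 3))), by decide +kernel⟩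

theorem s4_pp_102 : ∃ t, chk3 f_pp_102 t 3 3 1 = true := ex3_a k2_pp_102 k3_pp_102

theorem s5_pp_102 : ∃ t, chk3 f_pp_102 t 3 1 1 = true := ex3_b k1_pp_102 s4_pp_102

theorem s6_pp_102 : ∃ t, chk3 f_pp_102 t 1 1 1 = true := ex3_a k0_pp_102 s5_pp_102

theorem c_pp_102 : CertN 536870912 536870912 0 536870912 134217728 67108864 3 false true true .npp 1 0 2
    ndN2q1 ndN0q2 pcN0 Cut.none Ext.none :=
  certN0 (fam := false) (s1 := true) (s2 := true) (a := 1) (b := 0) (c := 2) (cn := .npp) (n1 := ndN2q1) (n2 := ndN0q2) (pc := pcN0) (cut := Cut.none) (xt := Ext.none) (P1 := 536870912) (W1 := 536870912) (P2 := 0) (W2 := 536870912) (P3 := 134217728) (W3 := 67108864) (N0 := 3)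
    rfl s6_pp_102

noncomputable def f_pp_112 : ℕ → ℕ → ℕ → ℕ → Bool := onCell 536870912 536870912 0 536870912 134217728 67108864
    (rowN 3 2 false true true .dn 1 1 2 (qsf 536870912 536870912 0 536870912 1) ndN2q1 ndN0q2 pcN1 Cut.none Ext.none)

def k0_pp_112 : ∃ t, chk3 f_pp_112 t 1 1 1 = true :=
  ⟨(a (b (a (b (l 18045664) (l 17803840)) (b (l 17940888) (l 17733512))) (a (a (b (l 17748400) (b (l 17694512) (b (l 17666968) (l 3)))) (b (l 17735168) (l 568044852631))) (b (l 1) (l 1)))) (l 1)), by decide +kernel⟩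

theorem c_pp_112 : CertN 536870912 536870912 0 536870912 134217728 67108864 3 false true true .dn 1 1 2
    ndN2q1 ndN0q2 pcN1 Cut.none Ext.none :=
  certN2 (fam := false) (s1 := true) (s2 := true) (a := 1) (b := 1) (c := 2) (cn := .dn) (n1 := ndN2q1) (n2 := ndN0q2) (pc := pcN1) (cut := Cut.none) (xt := Ext.none) (P1 := 536870912) (W1 := 536870912) (P2 := 0) (W2 := 536870912) (P3 := 134217728) (W3 := 67108864) (N0 := 3)
    rfl (fun _ => rfl) k0_pp_112

noncomputable def f_pp_202_a : ℕ → ℕ → ℕ → ℕ → Bool := onCell 0 536870912 0 536870912 134217728 67108864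
    (rowN 3 0 false true true .pp 2 0 2 (qsf 0 536870912 0 536870912 0) ndN2q2a ndN0q2 pcN0 Cut.none Ext.none)

def k0_pp_202_a : ∃ t, chk3 f_pp_202_a t 1 1 1 = true :=
  ⟨(l 3), by decide +kernel⟩

theorem c_pp_202_a : CertN 0 536870912 0 536870912 134217728 67108864 3 false true true .pp 2 0 2
    ndN2q2a ndN0q2 pcN0 Cut.none Ext.none :=
  certN0 (fam := false) (s1 := true) (s2 := true) (a := 2) (b := 0) (c := 2) (cn := .pp) (n1 := ndN2q2a) (n2 := ndN0q2) (pc := pcN0) (cut := Cut.none) (xt := Ext.none) (P1 := 0) (W1 := 536870912) (P2 := 0) (W2 := 536870912) (P3 := 134217728) (W3 := 67108864) (N0 := 3)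
    rfl k0_pp_202_a

noncomputable def f_pp_202_b : ℕ → ℕ → ℕ → ℕ → Bool := onCell 1239849684 370763052 0 536870912 134217728 67108864
    (rowN 3 0 false true true .pp 2 0 2 (qsf 1239849684 370763052 0 536870912 0) ndN2q2b ndN0q2 pcN0 Cut.none Ext.none)

def k0_pp_202_b : ∃ t, chk3 f_pp_202_b t 1 1 1 = true :=
  ⟨(l 3), by decide +kernel⟩

theorem c_pp_202_b : CertN 1239849684 370763052 0 536870912 134217728 67108864 3 false true true .pp 2 0 2
    ndN2q2b ndN0q2 pcN0 Cut.none Ext.none :=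
  certN0 (fam := false) (s1 := true) (s2 := true) (a := 2) (b := 0) (c := 2) (cn := .pp) (n1 := ndN2q2b) (n2 := ndN0q2) (pc := pcN0) (cut := Cut.none) (xt := Ext.none) (P1 := 1239849684) (W1 := 370763052) (P2 := 0) (W2 := 536870912) (P3 := 134217728) (W3 := 67108864) (N0 := 3)
    rfl k0_pp_202_b

noncomputable def f_pm_001 : ℕ → ℕ → ℕ → ℕ → Bool := onCell 0 536870912 0 536870912 134217728 67108864
    (rowN 3 1 false true false .up 0 0 1 (qsf 0 536870912 536870912 536870912 0) ndN2q0 ndN0q1 pcN0 Cut.none Ext.none)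

def k0_pm_001 : ∃ t, chk3 f_pm_001 t 1 1 1 = true :=
  ⟨(a (l 4) (l 4)), by decide +kernel⟩

theorem c_pm_001 : CertN 0 536870912 536870912 536870912 134217728 67108864 3 false true false .up 0 0 1
    ndN2q0 ndN0q1 pcN0 Cut.none Ext.none :=
  certN1 (fam := false) (s1 := true) (s2 := false) (a := 0) (b := 0) (c := 1) (cn := .up) (n1 := ndN2q0) (n2 := ndN0q1) (pc := pcN0) (cut := Cut.none) (xt := Ext.none) (P1 := 0) (W1 := 536870912) (P2 := 536870912) (W2 := 536870912) (P3 := 134217728) (W3 := 67108864) (N0 := 3)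
    rfl (fun _ => rfl) k0_pm_001

noncomputable def cut_pm_011 : Cut := Cut.of [[⟨0, 0, 0, 67108864⟩, ⟨1, 1, 0, 67108864⟩, ⟨2, 1, 0, 67108864⟩]]

noncomputable def f_pm_011 : ℕ → ℕ → ℕ → ℕ → Bool := onCell 0 536870912 536870912 536870912 134217728 67108864
    (rowN 3 0 false true false .pnn 0 1 1 (qsf 0 536870912 536870912 536870912 1) ndN2q0 ndN0q1 pcN1 cut_pm_011 Ext.none)

def k0_pm_011 : ∃ t, chk3 f_pm_011 t 1 1 1 = true :=
  ⟨(a (b (l 4) (a (b (l 4) (b (l 4) (a (b (l 4) (a (a (l 6) (l 4)) (l 4))) (l 4)))) (l 4))) (l 4)), by decide +kernel⟩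

theorem c_pm_011 : CertN 0 536870912 536870912 536870912 134217728 67108864 3 false true false .pnn 0 1 1
    ndN2q0 ndN0q1 pcN1 cut_pm_011 Ext.none :=
  certN0 (fam := false) (s1 := true) (s2 := false) (a := 0) (b := 1) (c := 1) (cn := .pnn) (n1 := ndN2q0) (n2 := ndN0q1) (pc := pcN1) (cut := cut_pm_011) (xt := Ext.none) (P1 := 0) (W1 := 536870912) (P2 := 536870912) (W2 := 536870912) (P3 := 134217728) (W3 := 67108864) (N0 := 3)
    rfl k0_pm_011

noncomputable def cut_pm_012 : Cut := Cut.of [[⟨0, 0, 0, 67108864⟩, ⟨1, 1, 0, 67108864⟩, ⟨2, 1, 0, 67108864⟩]]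

noncomputable def f_pm_012 : ℕ → ℕ → ℕ → ℕ → Bool := onCell 536870912 536870912 0 536870912 134217728 67108864
    (rowN 3 2 false true false .pnp 0 1 2 (qsf 0 536870912 0 536870912 1) ndN2q0 ndN0q2 pcN1 cut_pm_012 Ext.none)

def k0_pm_012 : ∃ t, chk3 f_pm_012 t 1 1 1 = true :=
  ⟨(a (b (a (l 17580120) (l 17728216)) (a (l 17878264) (b (l 17789912) (l 4)))) (b (a (a (b (l 17543824) (l 17777256)) (c (l 17768008) (l 17506088))) (a (b (l 17460464) (a (l 17558056) (l 17347672))) (b (l 16899280) (b (l 16753312) (l 16457272))))) (a (a (b (l 17761640) (l 4)) (b (a (l 17652960) (l 17512792)) (l 4))) (a (b (a (l 17267072) (b (l 17043472) (l 16702576))) (b (a (l 16684720) (l 103314144839)) (l 4))) (a (b (l 16716544) (b (l 16681608) (l 4))) (b (b (l 16456840) (l 16557648)) (b (a (l 16647536) (b (l 16581928) (l 16629024))) (b (a (l 16693008) (l 6)) (l 6))))))))), by decide +kernel⟩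

theorem c_pm_012 : CertN 0 536870912 0 536870912 134217728 67108864 3 false true false .pnp 0 1 2
    ndN2q0 ndN0q2 pcN1 cut_pm_012 Ext.none :=
  certN2 (fam := false) (s1 := true) (s2 := false) (a := 0) (b := 1) (c := 2) (cn := .pnp) (n1 := ndN2q0) (n2 := ndN0q2) (pc := pcN1) (cut := cut_pm_012) (xt := Ext.none) (P1 := 0) (W1 := 536870912) (P2 := 0) (W2 := 536870912) (P3 := 134217728) (W3 := 67108864) (N0 := 3)
    rfl (fun _ => rfl) k0_pm_012

noncomputable def cut_pm_022 : Cut := Cut.of [[⟨0, 0, 0, 67108864⟩, ⟨1, 1, 0, 67108864⟩, ⟨2, 1, 0, 67108864⟩]]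

noncomputable def f_pm_022 : ℕ → ℕ → ℕ → ℕ → Bool := onCell 0 536870912 0 536870912 134217728 67108864
    (rowN 3 0 false true false .pp 0 2 2 (qsf 0 536870912 0 536870912 2) ndN2q0 ndN0q2 pcN2 cut_pm_022 Ext.none)

def k0_pm_022 : ∃ t, chk3 f_pm_022 t 1 1 1 = true :=
  ⟨(a (b (a (a (b (a (a (b (a (b (c (l 16862112) (l 16529000)) (c (l 16860312) (l 16513352))) (l 16576600)) (c (l 16762544) (l 16523224))) (b (l 16586984) (l 16514176))) (b (a (l 16465992) (l 16445584)) (l 16460504))) (a (a (b (c (l 16600768) (l 16555568)) (a (c (b (l 16585904) (l 16604488)) (l 16623032)) (l 16617040))) (b (l 16541056) (l 16575936))) (a (l 16596784) (l 16506808)))) (b (l 16483752) (a (l 16506336) (l 16453912)))) (b (l 16575608) (a (l 16473624) (l 1)))) (a (b (a (a (a (b (a (c (b (l 16643976) (a (l 16665944) (l 16637472))) (b (l 16611640) (l 16631568))) (c (l 16617456) (l 16607936))) (a (a (b (c (c (l 16665000) (l 16660752)) (l 16654464)) (c (c (l 16703240) (l 16699672)) (a (l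 16696256) (l 16671536)))) (c (b (l 16655136) (l 16672552)) (l 16698624))) (c (l 16673032) (l 16666392)))) (b (l 16632576) (b (l 16616592) (l 16654672)))) (b (l 16608032) (a (l 16614256) (l 16560584)))) (b (l 16570272) (a (l 16558440) (l 16541072)))) (a (a (b (b (a (a (a (a (c (c (b (l 16697360) (l 16706384)) (b (l 16694232) (l 16703584))) (b (l 16689576) (l 16720384))) (c (l 16717344) (l 16690672))) (c (l 16690288) (l 16684864))) (l 16696560)) (l 16672256)) (l 6)) (l 6)) (a (b (a (l 16677688) (l 16660864)) (l 6)) (b (l 16667120) (l 1)))) (b (a (b (l 16592856) (l 1)) (l 1)) (l 1)))) (b (l 1) (l 1)))) (l 1)), by decide +kernel⟩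

theorem c_pm_022 : CertN 0 536870912 0 536870912 134217728 67108864 3 false true false .pp 0 2 2
    ndN2q0 ndN0q2 pcN2 cut_pm_022 Ext.none :=
  certN0 (fam := false) (s1 := true) (s2 := false) (a := 0) (b := 2) (c := 2) (cn := .pp) (n1 := ndN2q0) (n2 := ndN0q2) (pc := pcN2) (cut := cut_pm_022) (xt := Ext.none) (P1 := 0) (W1 := 536870912) (P2 := 0) (W2 := 536870912) (P3 := 134217728) (W3 := 67108864) (N0 := 3)
    rfl k0_pm_022

noncomputable def f_pm_101 : ℕ → ℕ → ℕ → ℕ → Bool := onCell 536870912 536870912 536870912 536870912 134217728 67108864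
    (rowN 3 0 false true false .npn 1 0 1 (qsf 536870912 536870912 536870912 536870912 0) ndN2q1 ndN0q1 pcN0 Cut.none Ext.none)

def k0_pm_101 : ∃ t, chk3 f_pm_101 t 1 1 1 = true :=
  ⟨(l 4), by decide +kernel⟩

theorem c_pm_101 : CertN 536870912 536870912 536870912 536870912 134217728 67108864 3 false true false .npn 1 0 1
    ndN2q1 ndN0q1 pcN0 Cut.none Ext.none :=
  certN0 (fam := false) (s1 := true) (s2 := false) (a := 1) (b := 0) (c := 1) (cn := .npn) (n1 := ndN2q1) (n2 := ndN0q1) (pc := pcN0) (cut := Cut.none) (xt := Ext.none) (P1 := 536870912) (W1 := 536870912) (P2 := 536870912) (W2 := 536870912) (P3 := 134217728) (W3 := 67108864) (N0 := 3)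
    rfl k0_pm_101

noncomputable def f_pm_102 : ℕ → ℕ → ℕ → ℕ → Bool := onCell 0 536870912 0 536870912 134217728 67108864
    (rowN 3 2 false true false .npp 1 0 2 (qsf 536870912 536870912 0 536870912 0) ndN2q1 ndN0q2 pcN0 Cut.none Ext.none)

def k0_pm_102 : ∃ t, chk3 f_pm_102 t 1 1 1 = true :=
  ⟨(a (b (a (b (l 2) (l 19034424)) (b (a (l 18145168) (l 18050952)) (l 18634576))) (b (a (l 19394840) (l 18870160)) (l 4))) (b (a (a (b (l 17864416) (l 18312576)) (b (l 17579656) (l 18089048))) (b (l 17360240) (b (l 17596808) (l 17913088)))) (b (a (l 18597928) (b (l 18340384) (l 4))) (l 4)))), by decide +kernel⟩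

theorem c_pm_102 : CertN 536870912 536870912 0 536870912 134217728 67108864 3 false true false .npp 1 0 2
    ndN2q1 ndN0q2 pcN0 Cut.none Ext.none :=
  certN2 (fam := false) (s1 := true) (s2 := false) (a := 1) (b := 0) (c := 2) (cn := .npp) (n1 := ndN2q1) (n2 := ndN0q2) (pc := pcN0) (cut := Cut.none) (xt := Ext.none) (P1 := 536870912) (W1 := 536870912) (P2 := 0) (W2 := 536870912) (P3 := 134217728) (W3 := 67108864) (N0 := 3)
    rfl (fun _ => rfl) k0_pm_102

noncomputable def f_pm_112 : ℕ → ℕ → ℕ → ℕ → Bool := onCell 536870912 536870912 0 536870912 134217728 67108864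
    (rowN 3 0 false true false .dn 1 1 2 (qsf 536870912 536870912 0 536870912 1) ndN2q1 ndN0q2 pcN1 Cut.none Ext.none)

def k0_pm_112 : ∃ t, chk3 f_pm_112 t 1 1 1 = true :=
  ⟨(a (b (a (b (l 18134112) (l 18322520)) (l 18383376)) (b (l 18475688) (l 4))) (l 1)), by decide +kernel⟩

theorem c_pm_112 : CertN 536870912 536870912 0 536870912 134217728 67108864 3 false true false .dn 1 1 2
    ndN2q1 ndN0q2 pcN1 Cut.none Ext.none :=
  certN0 (fam := false) (s1 := true) (s2 := false) (a := 1) (b := 1) (c := 2) (cn := .dn) (n1 := ndN2q1) (n2 := ndN0q2) (pc := pcN1) (cut := Cut.none) (xt := Ext.none) (P1 := 536870912) (W1 := 536870912) (P2 := 0) (W2 := 536870912) (P3 := 134217728) (W3 := 67108864) (N0 := 3)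
    rfl k0_pm_112

noncomputable def cut_pm_202_a : Cut := Cut.of [[⟨0, 1, 0, 67108864⟩, ⟨1, 0, 0, 67108864⟩, ⟨2, 1, 0, 67108864⟩]]

noncomputable def f_pm_202_a : ℕ → ℕ → ℕ → ℕ → Bool := onCell 0 536870912 0 536870912 134217728 67108864
    (rowN 3 0 false true false .pp 2 0 2 (qsf 0 536870912 0 536870912 0) ndN2q2a ndN0q2 pcN0 cut_pm_202_a Ext.none)

def k0_pm_202_a : ∃ t, chk3 f_pm_202_a t 1 1 1 = true :=
  ⟨(a (l 3) (b (l 3) (b (l 3) (a (l 3) (b (l 3) (a (l 3) (l 6))))))), by decide +kernel⟩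

theorem c_pm_202_a : CertN 0 536870912 0 536870912 134217728 67108864 3 false true false .pp 2 0 2
    ndN2q2a ndN0q2 pcN0 cut_pm_202_a Ext.none :=
  certN0 (fam := false) (s1 := true) (s2 := false) (a := 2) (b := 0) (c := 2) (cn := .pp) (n1 := ndN2q2a) (n2 := ndN0q2) (pc := pcN0) (cut := cut_pm_202_a) (xt := Ext.none) (P1 := 0) (W1 := 536870912) (P2 := 0) (W2 := 536870912) (P3 := 134217728) (W3 := 67108864) (N0 := 3)
    rfl k0_pm_202_a

noncomputable def cut_pm_202_b : Cut := Cut.of [[⟨0, 1, 0, 67108864⟩, ⟨1, 0, 0, 67108864⟩, ⟨2, 1, 0, 67108864⟩]]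

noncomputable def f_pm_202_b : ℕ → ℕ → ℕ → ℕ → Bool := onCell 1239849684 370763052 0 536870912 134217728 67108864
    (rowN 3 0 false true false .pp 2 0 2 (qsf 1239849684 370763052 0 536870912 0) ndN2q2b ndN0q2 pcN0 cut_pm_202_b Ext.none)

def k0_pm_202_b : ∃ t, chk3 f_pm_202_b t 1 1 1 = true :=
  ⟨(b (l 3) (l 1)), by decide +kernel⟩

theorem c_pm_202_b : CertN 1239849684 370763052 0 536870912 134217728 67108864 3 false true false .pp 2 0 2
    ndN2q2b ndN0q2 pcN0 cut_pm_202_b Ext.none :=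
  certN0 (fam := false) (s1 := true) (s2 := false) (a := 2) (b := 0) (c := 2) (cn := .pp) (n1 := ndN2q2b) (n2 := ndN0q2) (pc := pcN0) (cut := cut_pm_202_b) (xt := Ext.none) (P1 := 1239849684) (W1 := 370763052) (P2 := 0) (W2 := 536870912) (P3 := 134217728) (W3 := 67108864) (N0 := 3)
    rfl k0_pm_202_b

noncomputable def f_mm_001 : ℕ → ℕ → ℕ → ℕ → Bool := onCell 0 536870912 536870912 536870912 134217728 67108864
    (rowN 3 0 false false false .up 0 0 1 (qsf 0 536870912 536870912 536870912 0) ndN2q0 ndN0q1 pcN0 Cut.none Ext.none)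

def k0_mm_001 : ∃ t, chk3 f_mm_001 t 1 1 1 = true :=
  ⟨(l 5), by decide +kernel⟩

theorem c_mm_001 : CertN 0 536870912 536870912 536870912 134217728 67108864 3 false false false .up 0 0 1
    ndN2q0 ndN0q1 pcN0 Cut.none Ext.none :=
  certN0 (fam := false) (s1 := false) (s2 := false) (a := 0) (b := 0) (c := 1) (cn := .up) (n1 := ndN2q0) (n2 := ndN0q1) (pc := pcN0) (cut := Cut.none) (xt := Ext.none) (P1 := 0) (W1 := 536870912) (P2 := 536870912) (W2 := 536870912) (P3 := 134217728) (W3 := 67108864) (N0 := 3)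
    rfl k0_mm_001

noncomputable def f_mm_011 : ℕ → ℕ → ℕ → ℕ → Bool := onCell 0 536870912 536870912 536870912 134217728 67108864
    (rowN 3 0 false false false .pnn 0 1 1 (qsf 0 536870912 536870912 536870912 1) ndN2q0 ndN0q1 pcN1 Cut.none Ext.none)

def k0_mm_011 : ∃ t, chk3 f_mm_011 t 1 1 1 = true :=
  ⟨(l 5), by decide +kernel⟩

theorem c_mm_011 : CertN 0 536870912 536870912 536870912 134217728 67108864 3 false false false .pnn 0 1 1
    ndN2q0 ndN0q1 pcN1 Cut.none Ext.none :=
  certN0 (fam := false) (s1 := false) (s2 := false) (a := 0) (b := 1) (c := 1) (cn := .pnn) (n1 := ndN2q0) (n2 := ndN0q1) (pc := pcN1) (cut := Cut.none) (xt := Ext.none) (P1 := 0) (W1 := 536870912) (P2 := 536870912) (W2 := 536870912) (P3 := 134217728) (W3 := 67108864) (N0 := 3)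
    rfl k0_mm_011

noncomputable def f_mm_012 : ℕ → ℕ → ℕ → ℕ → Bool := onCell 0 536870912 0 536870912 134217728 67108864
    (rowN 3 0 false false false .pnp 0 1 2 (qsf 0 536870912 0 536870912 1) ndN2q0 ndN0q2 pcN1 Cut.none Ext.none)

def k0_mm_012 : ∃ t, chk3 f_mm_012 t 1 1 1 = true :=
  ⟨(l 5), by decide +kernel⟩

theorem c_mm_012 : CertN 0 536870912 0 536870912 134217728 67108864 3 false false false .pnp 0 1 2
    ndN2q0 ndN0q2 pcN1 Cut.none Ext.none :=
  certN0 (fam := false) (s1 := false) (s2 := false) (a := 0) (b := 1) (c := 2) (cn := .pnp) (n1 := ndN2q0) (n2 := ndN0q2) (pc := pcN1) (cut := Cut.none) (xt := Ext.none) (P1 := 0) (W1 := 536870912) (P2 := 0) (W2 := 536870912) (P3 := 134217728) (W3 := 67108864) (N0 := 3)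
    rfl k0_mm_012

noncomputable def f_mm_022 : ℕ → ℕ → ℕ → ℕ → Bool := onCell 0 536870912 0 536870912 134217728 67108864
    (rowN 3 0 false false false .pp 0 2 2 (qsf 0 536870912 0 536870912 2) ndN2q0 ndN0q2 pcN2 Cut.none Ext.none)

def k0_mm_022 : ∃ t, chk3 f_mm_022 t 1 1 1 = true :=
  ⟨(l 5), by decide +kernel⟩

theorem c_mm_022 : CertN 0 536870912 0 536870912 134217728 67108864 3 false false false .pp 0 2 2
    ndN2q0 ndN0q2 pcN2 Cut.none Ext.none :=
  certN0 (fam := false) (s1 := false) (s2 := false) (a := 0) (b := 2) (c := 2) (cn := .pp) (n1 := ndN2q0) (n2 := ndN0q2) (pc := pcN2) (cut := Cut.none) (xt := Ext.none) (P1 := 0) (W1 := 536870912) (P2 := 0) (W2 := 536870912) (P3 := 134217728) (W3 := 67108864) (N0 := 3)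
    rfl k0_mm_022

noncomputable def f_mm_101 : ℕ → ℕ → ℕ → ℕ → Bool := onCell 536870912 536870912 536870912 536870912 134217728 67108864
    (rowN 3 0 false false false .npn 1 0 1 (qsf 536870912 536870912 536870912 536870912 0) ndN2q1 ndN0q1 pcN0 Cut.none Ext.none)

def k0_mm_101 : ∃ t, chk3 f_mm_101 t 1 1 1 = true :=
  ⟨(b (l 3) (l 5)), by decide +kernel⟩

theorem c_mm_101 : CertN 536870912 536870912 536870912 536870912 134217728 67108864 3 false false false .npn 1 0 1
    ndN2q1 ndN0q1 pcN0 Cut.none Ext.none :=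
  certN0 (fam := false) (s1 := false) (s2 := false) (a := 1) (b := 0) (c := 1) (cn := .npn) (n1 := ndN2q1) (n2 := ndN0q1) (pc := pcN0) (cut := Cut.none) (xt := Ext.none) (P1 := 536870912) (W1 := 536870912) (P2 := 536870912) (W2 := 536870912) (P3 := 134217728) (W3 := 67108864) (N0 := 3)
    rfl k0_mm_101

noncomputable def f_mm_102 : ℕ → ℕ → ℕ → ℕ → Bool := onCell 536870912 536870912 0 536870912 134217728 67108864
    (rowN 3 0 false false false .npp 1 0 2 (qsf 536870912 536870912 0 536870912 0) ndN2q1 ndN0q2 pcN0 Cut.none Ext.none)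

def k0_mm_102 : ∃ t, chk3 f_mm_102 t 1 1 1 = true :=
  ⟨(l 5), by decide +kernel⟩

theorem c_mm_102 : CertN 536870912 536870912 0 536870912 134217728 67108864 3 false false false .npp 1 0 2
    ndN2q1 ndN0q2 pcN0 Cut.none Ext.none :=
  certN0 (fam := false) (s1 := false) (s2 := false) (a := 1) (b := 0) (c := 2) (cn := .npp) (n1 := ndN2q1) (n2 := ndN0q2) (pc := pcN0) (cut := Cut.none) (xt := Ext.none) (P1 := 536870912) (W1 := 536870912) (P2 := 0) (W2 := 536870912) (P3 := 134217728) (W3 := 67108864) (N0 := 3)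
    rfl k0_mm_102

noncomputable def f_mm_112 : ℕ → ℕ → ℕ → ℕ → Bool := onCell 536870912 536870912 0 536870912 134217728 67108864
    (rowN 3 0 false false false .dn 1 1 2 (qsf 536870912 536870912 0 536870912 1) ndN2q1 ndN0q2 pcN1 Cut.none Ext.none)

def k0_mm_112 : ∃ t, chk3 f_mm_112 t 1 1 1 = true :=
  ⟨(l 5), by decide +kernel⟩

theorem c_mm_112 : CertN 536870912 536870912 0 536870912 134217728 67108864 3 false false false .dn 1 1 2
    ndN2q1 ndN0q2 pcN1 Cut.none Ext.none :=
  certN0 (fam := false) (s1 := false) (s2 := false) (a := 1) (b := 1) (c := 2) (cn := .dn) (n1 := ndN2q1) (n2 := ndN0q2) (pc := pcN1) (cut := Cut.none) (xt := Ext.none) (P1 := 536870912) (W1 := 536870912) (P2 := 0) (W2 := 536870912) (P3 := 134217728) (W3 := 67108864) (N0 := 3)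
    rfl k0_mm_112

noncomputable def f_mm_202_a : ℕ → ℕ → ℕ → ℕ → Bool := onCell 0 536870912 0 536870912 134217728 67108864
    (rowN 3 0 false false false .pp 2 0 2 (qsf 0 536870912 0 536870912 0) ndN2q2a ndN0q2 pcN0 Cut.none Ext.none)

def k0_mm_202_a : ∃ t, chk3 f_mm_202_a t 1 1 1 = true :=
  ⟨(l 3), by decide +kernel⟩

theorem c_mm_202_a : CertN 0 536870912 0 536870912 134217728 67108864 3 false false false .pp 2 0 2
    ndN2q2a ndN0q2 pcN0 Cut.none Ext.none :=
  certN0 (fam := false) (s1 := false) (s2 := false) (a := 2) (b := 0) (c := 2) (cn := .pp) (n1 := ndN2q2a) (n2 := ndN0q2) (pc := pcN0) (cut := Cut.none) (xt := Ext.none) (P1 := 0) (W1 := 536870912) (P2 := 0) (W2 := 536870912) (P3 := 134217728) (W3 := 67108864) (N0 := 3)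
    rfl k0_mm_202_a

noncomputable def f_mm_202_b : ℕ → ℕ → ℕ → ℕ → Bool := onCell 1239849684 370763052 0 536870912 134217728 67108864
    (rowN 3 0 false false false .pp 2 0 2 (qsf 1239849684 370763052 0 536870912 0) ndN2q2b ndN0q2 pcN0 Cut.none Ext.none)

def k0_mm_202_b : ∃ t, chk3 f_mm_202_b t 1 1 1 = true :=
  ⟨(l 3), by decide +kernel⟩

theorem c_mm_202_b : CertN 1239849684 370763052 0 536870912 134217728 67108864 3 false false false .pp 2 0 2
    ndN2q2b ndN0q2 pcN0 Cut.none Ext.none :=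
  certN0 (fam := false) (s1 := false) (s2 := false) (a := 2) (b := 0) (c := 2) (cn := .pp) (n1 := ndN2q2b) (n2 := ndN0q2) (pc := pcN0) (cut := Cut.none) (xt := Ext.none) (P1 := 1239849684) (W1 := 370763052) (P2 := 0) (W2 := 536870912) (P3 := 134217728) (W3 := 67108864) (N0 := 3)
    rfl k0_mm_202_b

end Pool.Agent.Strip051.G.I1_8_3_16.Tab.C.NB20

namespace Pool.Agent.Strip051.G.I1_8_3_16.Tab.C.NB21

open Pool.Agent.Strip051.PB Pool.Agent.Strip051.PB.T
open Pool.Agent.Strip051.G.I1_8_3_16.Tab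

noncomputable def f_pp_001 : ℕ → ℕ → ℕ → ℕ → Bool := onCell 0 536870912 536870912 536870912 134217728 67108864
    (rowN 3 0 false true true .up 0 0 1 (qsf 0 536870912 536870912 536870912 0) ndN2q0 ndN1q1 pcN0 Cut.none Ext.none)

def k0_pp_001 : ∃ t, chk3 f_pp_001 t 1 1 1 = true :=
  ⟨(l 3), by decide +kernel⟩

theorem c_pp_001 : CertN 0 536870912 536870912 536870912 134217728 67108864 3 false true true .up 0 0 1
    ndN2q0 ndN1q1 pcN0 Cut.none Ext.none :=
  certN0 (fam := false) (s1 := true) (s2 := true) (a := 0) (b := 0) (c := 1) (cn := .up) (n1 := ndN2q0) (n2 := ndN1q1) (pc := pcN0) (cut := Cut.none) (xt := Ext.none) (P1 := 0) (W1 := 536870912) (P2 := 536870912) (W2 := 536870912) (P3 := 134217728) (W3 := 67108864) (N0 := 3)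
    rfl k0_pp_001

noncomputable def f_pp_011 : ℕ → ℕ → ℕ → ℕ → Bool := onCell 0 536870912 536870912 536870912 134217728 67108864
    (rowN 3 0 false true true .pnn 0 1 1 (qsf 0 536870912 536870912 536870912 1) ndN2q0 ndN1q1 pcN1 Cut.none Ext.none)

def k0_pp_011 : ∃ t, chk3 f_pp_011 t 1 1 1 = true :=
  ⟨(l 3), by decide +kernel⟩

theorem c_pp_011 : CertN 0 536870912 536870912 536870912 134217728 67108864 3 false true true .pnn 0 1 1
    ndN2q0 ndN1q1 pcN1 Cut.none Ext.none :=
  certN0 (fam := false) (s1 := true) (s2 := true) (a := 0) (b := 1) (c := 1) (cn := .pnn) (n1 := ndN2q0) (n2 := ndN1q1) (pc := pcN1) (cut := Cut.none) (xt := Ext.none) (P1 := 0) (W1 := 536870912) (P2 := 536870912) (W2 := 536870912) (P3 := 134217728) (W3 := 67108864) (N0 := 3)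
    rfl k0_pp_011

noncomputable def cut_pp_012_a : Cut := Cut.of [[⟨0, 0, 0, 67108864⟩, ⟨1, 1, 0, 67108864⟩, ⟨2, 1, 0, 67108864⟩]]

noncomputable def f_pp_012_a : ℕ → ℕ → ℕ → ℕ → Bool := onCell 536870912 536870912 0 536870912 134217728 67108864
    (rowN 3 2 false true true .pnp 0 1 2 (qsf 0 536870912 0 536870912 1) ndN2q0 ndN1q2a pcN1 cut_pp_012_a Ext.none)

def k0_pp_012_a : ∃ t, chk3 f_pp_012_a t 1 1 1 = true :=
  ⟨(a (a (b (l 17397896) (b (l 34462233671) (a (a (l 239077223783) (l 211160302599)) (l 221897517431)))) (b (l 17192464) (b (l 17388624) (a (l 214917934135) (l 209012086967))))) (a (b (a (l 17011888) (l 17048696)) (b (a (l 17068344) (l 16976456)) (a (l 17347728) (b (l 17017840) (l 17139920))))) (b (a (l 17024984) (b (l 16932840) (a (l 16905760) (l 16862520)))) (b (a (l 16941352) (a (l 16879792) (c (l 16838072) (l 16825160)))) (a (b (l 16917808) (a (l 16969296) (l 16935304))) (b (a (l 16869544) (a (l 16832448) (l 16806080))) (b (a (l 16858352) (a (l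 16827464) (l 6))) (a (l 16926184) (l 6))))))))), by decide +kernel⟩

theorem c_pp_012_a : CertN 0 536870912 0 536870912 134217728 67108864 3 false true true .pnp 0 1 2
    ndN2q0 ndN1q2a pcN1 cut_pp_012_a Ext.none :=
  certN2 (fam := false) (s1 := true) (s2 := true) (a := 0) (b := 1) (c := 2) (cn := .pnp) (n1 := ndN2q0) (n2 := ndN1q2a) (pc := pcN1) (cut := cut_pp_012_a) (xt := Ext.none) (P1 := 0) (W1 := 536870912) (P2 := 0) (W2 := 536870912) (P3 := 134217728) (W3 := 67108864) (N0 := 3)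
    rfl (fun _ => rfl) k0_pp_012_a

noncomputable def cut_pp_012_b : Cut := Cut.of [[⟨0, 0, 0, 67108864⟩, ⟨1, 1, 0, 67108864⟩, ⟨2, 1, 0, 67108864⟩]]

noncomputable def f_pp_012_b : ℕ → ℕ → ℕ → ℕ → Bool := onCell 536870912 536870912 1239849684 370763052 134217728 67108864
    (rowN 3 2 false true true .pnp 0 1 2 (qsf 0 536870912 1239849684 370763052 1) ndN2q0 ndN1q2b pcN1 cut_pp_012_b Ext.none)

def k0_pp_012_b : ∃ t, chk3 f_pp_012_b t 1 1 1 = true :=
  ⟨(a (a (l 2) (b (l 16954032) (l 2))) (a (b (b (l 17121560) (l 17275064)) (l 17522752)) (b (b (a (l 17250360) (b (l 16965112) (l 17276712))) (a (l 17509840) (l 17623032))) (a (l 17852672) (l 18101136))))), by decide +kernel⟩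

theorem c_pp_012_b : CertN 0 536870912 1239849684 370763052 134217728 67108864 3 false true true .pnp 0 1 2
    ndN2q0 ndN1q2b pcN1 cut_pp_012_b Ext.none :=
  certN2 (fam := false) (s1 := true) (s2 := true) (a := 0) (b := 1) (c := 2) (cn := .pnp) (n1 := ndN2q0) (n2 := ndN1q2b) (pc := pcN1) (cut := cut_pp_012_b) (xt := Ext.none) (P1 := 0) (W1 := 536870912) (P2 := 1239849684) (W2 := 370763052) (P3 := 134217728) (W3 := 67108864) (N0 := 3)
    rfl (fun _ => rfl) k0_pp_012_b

noncomputable def cut_pp_022_a : Cut := Cut.of [[⟨0, 0, 0, 67108864⟩, ⟨1, 1, 0, 67108864⟩, ⟨2, 1, 0, 67108864⟩]]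

noncomputable def f_pp_022_a : ℕ → ℕ → ℕ → ℕ → Bool := onCell 0 536870912 0 536870912 134217728 67108864
    (rowN 3 0 false true true .pp 0 2 2 (qsf 0 536870912 0 536870912 2) ndN2q0 ndN1q2a pcN2 cut_pp_022_a Ext.none)

def k0_pp_022_a : ∃ t, chk3 f_pp_022_a t 4 4 1 = true :=
  ⟨(a (a (a (b (a (a (b (a (c (a (b (l 16791400) (l 16868832)) (l 16871240)) (l 16560936)) (c (l 16869560) (l 16477000))) (c (a (l 16802864) (l 16843216)) (l 16540744))) (b (l 16527024) (l 16528680))) (b (l 16523064) (l 16545976))) (a (b (a (c (b (l 16808296) (l 16774800)) (l 16525024)) (l 16548616)) (c (a (b (l 16733552) (l 16683976)) (l 16703480)) (l 16573064))) (b (l 16561032) (l 16578784)))) (b (a (l 16603080) (l 16555712)) (a (a (l 16634720) (l 16632320)) (a (l 16609016) (l 16606800))))) (a (b (a (l 16571520) (l 16566904)) (a (l 16713392) (c (l 16716064) (l 16662424)))) (b (b (l 16591008) (l 16640856)) (a (b (l 16478192) (l 16547728)) (b (l 16485656) (l 16560760)))))) (a (a (b (a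 (l 16613408) (l 16496904)) (a (b (l 16517032) (l 16605032)) (l 16508776))) (l 16507352)) (l 16518536))), by decide +kernel⟩

def k1_pp_022_a : ∃ t, chk3 f_pp_022_a t 4 5 1 = true :=
  ⟨(a (b (a (a (b (a (c (a (l 16570232) (l 16586384)) (b (l 16538104) (l 16543528))) (b (l 16563848) (l 16569240))) (a (c (a (l 16590328) (l 16589032)) (b (l 16548800) (l 16554080))) (c (l 16631456) (l 16614384)))) (b (a (l 16606128) (l 16581960)) (a (l 16662736) (l 16661280)))) (a (b (a (l 16579776) (l 16600128)) (a (l 16661448) (l 16685176))) (b (a (l 16625288) (l 16671336)) (a (l 16761984) (b (l 16521432) (l 16525152)))))) (a (a (a (b (b (c (l 16575528) (l 16570384)) (c (l 16591328) (l 16577016))) (c (a (b (l 16563912) (l 16570448)) (l 16633064)) (a (a (l 16598424) (l 16598312)) (l 16620856)))) (b (c (l 16654728) (l 16650376)) (c (c (l 16705672) (l 16699264)) (a (l 16600288) (l 16601008))))) (b (a (a (l 16632096) (l 16611088)) (b (l 16585688) (l 16616296))) (a (c (l 16748848) (l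 16742280)) (c (l 16798912) (l 16808592))))) (a (b (a (b (l 16585952) (l 16619368)) (b (l 16622176) (l 16657336))) (a (b (l 16685816) (l 16699760)) (b (l 16716768) (l 16551696)))) (b (a (a (l 16719664) (l 16529984)) (l 16530744)) (l 16559728))))) (a (l 16539832) (l 16567872))), by decide +kernel⟩

def k2_pp_022_a : ∃ t, chk3 f_pp_022_a t 5 2 1 = true :=
  ⟨(b (l 16578144) (a (l 16599232) (l 1))), by decide +kernel⟩

def k3_pp_022_a : ∃ t, chk3 f_pp_022_a t 8 3 1 = true :=
  ⟨(b (b (a (a (b (a (a (c (b (l 16588408) (l 16602160)) (b (l 16588784) (l 16598656))) (c (a (l 16637736) (l 16648552)) (a (l 16638768) (l 16639224)))) (b (b (l 16613984) (l 16618880)) (c (l 16656392) (l 16647968)))) (b (a (c (a (c (l 16608496) (l 16615136)) (l 16617704)) (a (b (l 16583856) (l 16589400)) (l 16610568))) (c (l 16694960) (l 16693040))) (c (a (a (c (l 16629576) (l 16626416)) (l 16629296)) (a (l 16627448) (l 16629736))) (a (a (b (l 16595240) (l 16601392)) (l 16623464)) (a (l 16622160)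 (l 16624600)))))) (b (a (b (l 16681232) (a (l 16606144) (l 16604104))) (b (l 16725832) (a (l 16628072) (l 16564048)))) (a (b (c (l 16730240) (l 16723904)) (b (l 16714480) (l 16590176))) (l 16587232)))) (b (a (a (b (l 16800784) (l 16572360)) (l 16576352)) (l 16595824)) (l 16616712))) (a (a (b (a (b (a (b (c (l 16612784) (l 16607840)) (c (l 16624152) (l 16619824))) (c (l 16670344) (l 16665896))) (b (a (c (a (l 16622488) (l 16623280)) (l 16630568)) (a (l 16628128) (l 16602648))) (a (c (a (l 16629704) (l 16609352)) (a (l 16626448) (l 16606048))) (l 16610424)))) (b (a (a (l 16657944) (l 16659848)) (l 16596640)) (l 16612032))) (a (c (a (c (l 16652072) (l 16650520)) (l 16634216)) (b (l 16641032) (l 16653264))) (l 16659536))) (b (l 16606616) (l 16673576))) (b (l 16651848) (l 16666968)))) (b (b (a (a (a (a (c (a (c (b (l 16655632) (l 16683072)) (l 16686648)) (l 16686664)) (a (c (l 16682736) (l 16681448)) (l 16683920))) (c (l 16689816) (l 16686800))) (l 16705232)) (l 16709392))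 (a (l 16711648) (l 16738928))) (a (l 6) (a (l 6) (b (l 16766600) (l 16785248))))) (a (l 6) (a (l 6) (l 1))))), by decide +kernel⟩

def k4_pp_022_a : ∃ t, chk3 f_pp_022_a t 9 3 1 = true :=
  ⟨(a (b (b (l 16651072) (b (l 16715016) (l 16749320))) (b (b (l 16828608) (l 1)) (l 1))) (b (b (l 16693304) (l 149284019847)) (l 1))), by decide +kernel⟩

def k5_pp_022_a : ∃ t, chk3 f_pp_022_a t 5 3 1 = true :=
  ⟨(b (l 1) (l 1)), by decide +kernel⟩

def k6_pp_022_a : ∃ t, chk3 f_pp_022_a t 3 1 1 = true :=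
  ⟨(l 1), by decide +kernel⟩

theorem s7_pp_022_a : ∃ t, chk3 f_pp_022_a t 4 3 1 = true := ex3_a k3_pp_022_a k4_pp_022_a

theorem s8_pp_022_a : ∃ t, chk3 f_pp_022_a t 2 3 1 = true := ex3_a s7_pp_022_a k5_pp_022_a

theorem s9_pp_022_a : ∃ t, chk3 f_pp_022_a t 4 2 1 = true := ex3_b k0_pp_022_a k1_pp_022_a

theorem s10_pp_022_a : ∃ t, chk3 f_pp_022_a t 2 2 1 = true := ex3_a s9_pp_022_a k2_pp_022_a

theorem s11_pp_022_a : ∃ t, chk3 f_pp_022_a t 2 1 1 = true := ex3_b s10_pp_022_a s8_pp_022_a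

theorem s12_pp_022_a : ∃ t, chk3 f_pp_022_a t 1 1 1 = true := ex3_a s11_pp_022_a k6_pp_022_a

theorem c_pp_022_a : CertN 0 536870912 0 536870912 134217728 67108864 3 false true true .pp 0 2 2
    ndN2q0 ndN1q2a pcN2 cut_pp_022_a Ext.none :=
  certN0 (fam := false) (s1 := true) (s2 := true) (a := 0) (b := 2) (c := 2) (cn := .pp) (n1 := ndN2q0) (n2 := ndN1q2a) (pc := pcN2) (cut := cut_pp_022_a) (xt := Ext.none) (P1 := 0) (W1 := 536870912) (P2 := 0) (W2 := 536870912) (P3 := 134217728) (W3 := 67108864) (N0 := 3)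
    rfl s12_pp_022_a

noncomputable def cut_pp_022_b : Cut := Cut.of [[⟨0, 0, 0, 67108864⟩, ⟨1, 1, 0, 67108864⟩, ⟨2, 1, 0, 67108864⟩]]

noncomputable def f_pp_022_b : ℕ → ℕ → ℕ → ℕ → Bool := onCell 0 536870912 1073741824 536870912 134217728 67108864
    (rowN 3 1 false true true .pp 0 2 2 (qsf 0 536870912 1239849684 370763052 2) ndN2q0 ndN1q2b pcN2 cut_pp_022_b Ext.none)

def k0_pp_022_b : ∃ t, chk3 f_pp_022_b t 1 1 1 = true :=
  ⟨(a (b (a (b (a (b (l 1) (b (b (l 1) (a (l 1) (l 419866558535))) (b (a (l 1) (l 398928350183)) (a (a (l 1) (l 16655968)) (l 16635320))))) (b (l 355441814519) (b (b (l 16645624) (b (l 16873400) (l 17009992))) (b (l 17193432) (l 17408056))))) (b (b (b (a (a (a (l 433288121463) (l 16597296)) (l 16945376)) (l 17592160)) (a (a (a (b (c (l 16794000) (l 16520736)) (b (a (l 442414696199) (l 16611584)) (c (b (l 17005608) (l 16960936)) (l 16561456)))) (b (l 16729704) (b (l 16848760) (l 16902016)))) (b (l 17143632) (l 17052344))) (a (l 17596368)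 (l 17887320)))) (a (a (a (b (a (c (l 17106504) (l 16473296)) (l 16774904)) (c (l 17470192) (l 16761496))) (c (l 17561792) (l 16885432))) (l 17521176)) (l 17949072))) (a (a (b (a (c (l 17773728) (b (l 17030752) (l 17256920))) (l 17566784)) (c (l 18118280) (l 17430488))) (b (l 17839032) (l 18073024))) (l 18240672)))) (b (b (a (l 17094408) (l 17821336)) (b (b (l 17884112) (l 18000256)) (a (l 17935832) (l 18308512)))) (b (b (b (l 18276880) (l 18349568)) (l 18439744)) (l 18583800)))) (b (a (a (a (c (l 18519024) (l 18124744)) (l 18441688)) (l 18579560)) (l 18733848)) (a (a (l 18660896) (l 18728104)) (l 18733232)))) (b (a (b (b (l 18384576) (b (b (l 18521016) (l 18564944)) (l 18619664))) (b (l 18703488) (l 18770720))) (b (b (l 18703920) (l 18782248)) (l 18818240))) (b (l 18755480) (l 2)))), by decide +kernel⟩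

theorem c_pp_022_b : CertN 0 536870912 1239849684 370763052 134217728 67108864 3 false true true .pp 0 2 2
    ndN2q0 ndN1q2b pcN2 cut_pp_022_b Ext.none :=
  certN1 (fam := false) (s1 := true) (s2 := true) (a := 0) (b := 2) (c := 2) (cn := .pp) (n1 := ndN2q0) (n2 := ndN1q2b) (pc := pcN2) (cut := cut_pp_022_b) (xt := Ext.none) (P1 := 0) (W1 := 536870912) (P2 := 1239849684) (W2 := 370763052) (P3 := 134217728) (W3 := 67108864) (N0 := 3)
    rfl (fun _ => rfl) k0_pp_022_b

noncomputable def f_pp_023 : ℕ → ℕ → ℕ → ℕ → Bool := onCell 1073741824 536870912 1610612736 536870912 134217728 67108864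
    (rowN 3 2 false true true .up 0 2 3 (qsf 0 536870912 1610612736 536870912 2) ndN2q0 ndN1q3 pcN2 Cut.none Ext.none)

def k0_pp_023 : ∃ t, chk3 f_pp_023 t 1 1 1 = true :=
  ⟨(a (b (l 18850600) (a (l 2) (l 18735232))) (a (b (l 18761096) (l 18609912)) (b (b (l 18673328) (l 18672824)) (l 18419072)))), by decide +kernel⟩

theorem c_pp_023 : CertN 0 536870912 1610612736 536870912 134217728 67108864 3 false true true .up 0 2 3
    ndN2q0 ndN1q3 pcN2 Cut.none Ext.none :=
  certN2 (fam := false) (s1 := true) (s2 := true) (a := 0) (b := 2) (c := 3) (cn := .up) (n1 := ndN2q0) (n2 := ndN1q3) (pc := pcN2) (cut := Cut.none) (xt := Ext.none) (P1 := 0) (W1 := 536870912) (P2 := 1610612736) (W2 := 536870912) (P3 := 134217728) (W3 := 67108864) (N0 := 3)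
    rfl (fun _ => rfl) k0_pp_023

noncomputable def f_pp_033 : ℕ → ℕ → ℕ → ℕ → Bool := onCell 0 536870912 1610612736 536870912 134217728 67108864
    (rowN 3 1 false true true .pnn 0 3 3 (qsf 0 536870912 1610612736 536870912 3) ndN2q0 ndN1q3 pcN3 Cut.none Ext.none)

def k0_pp_033 : ∃ t, chk3 f_pp_033 t 1 1 1 = true :=
  ⟨(a (b (b (b (a (l 18205744) (l 18390920)) (a (l 18357200) (l 18368128))) (b (l 18145912) (l 18051432))) (b (l 18209496) (a (l 4) (a (b (l 4) (l 2)) (l 2))))) (b (b (b (l 17935848) (l 17834384)) (a (l 4) (a (b (l 4) (l 2)) (l 2)))) (a (b (a (b (l 4) (l 2)) (l 2)) (l 2)) (l 2)))), by decide +kernel⟩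

theorem c_pp_033 : CertN 0 536870912 1610612736 536870912 134217728 67108864 3 false true true .pnn 0 3 3
    ndN2q0 ndN1q3 pcN3 Cut.none Ext.none :=
  certN1 (fam := false) (s1 := true) (s2 := true) (a := 0) (b := 3) (c := 3) (cn := .pnn) (n1 := ndN2q0) (n2 := ndN1q3) (pc := pcN3) (cut := Cut.none) (xt := Ext.none) (P1 := 0) (W1 := 536870912) (P2 := 1610612736) (W2 := 536870912) (P3 := 134217728) (W3 := 67108864) (N0 := 3)
    rfl (fun _ => rfl) k0_pp_033

noncomputable def f_pp_101 : ℕ → ℕ → ℕ → ℕ → Bool := onCell 536870912 536870912 536870912 536870912 134217728 67108864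
    (rowN 3 0 false true true .npn 1 0 1 (qsf 536870912 536870912 536870912 536870912 0) ndN2q1 ndN1q1 pcN0 Cut.none Ext.none)

def k0_pp_101 : ∃ t, chk3 f_pp_101 t 1 1 1 = true :=
  ⟨(l 3), by decide +kernel⟩

theorem c_pp_101 : CertN 536870912 536870912 536870912 536870912 134217728 67108864 3 false true true .npn 1 0 1
    ndN2q1 ndN1q1 pcN0 Cut.none Ext.none :=
  certN0 (fam := false) (s1 := true) (s2 := true) (a := 1) (b := 0) (c := 1) (cn := .npn) (n1 := ndN2q1) (n2 := ndN1q1) (pc := pcN0) (cut := Cut.none) (xt := Ext.none) (P1 := 536870912) (W1 := 536870912) (P2 := 536870912) (W2 := 536870912) (P3 := 134217728) (W3 := 67108864) (N0 := 3)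
    rfl k0_pp_101

noncomputable def f_pp_102_a : ℕ → ℕ → ℕ → ℕ → Bool := onCell 536870912 536870912 0 536870912 134217728 67108864
    (rowN 3 0 false true true .npp 1 0 2 (qsf 536870912 536870912 0 536870912 0) ndN2q1 ndN1q2a pcN0 Cut.none Ext.none)

def k0_pp_102_a : ∃ t, chk3 f_pp_102_a t 1 1 1 = true :=
  ⟨(a (b (a (b (l 2) (l 17603232)) (b (l 17686480) (l 17727896))) (a (a (b (l 2) (b (l 17674984) (l 3))) (b (l 17673144) (b (l 209012754551) (l 3)))) (b (b (l 17725312) (a (l 17693488) (l 17697424))) (b (a (l 210623241287) (b (l 206864789607) (l 3))) (l 3))))) (b (a (b (l 17824120) (a (l 17796496) (l 17763904))) (a (b (l 17695984) (a (l 17620848) (l 17403088))) (b (a (l 17328896) (l 16769904)) (b (a (l 17136968) (l 16481400)) (a (l 16846992) (l 16553560)))))) (a (b (a (b (l 17735896) (b (l 17680280) (c (l 17751040) (l 17509560)))) (b (a (l 17673768) (l 17572152)) (b (a (l 17583672) (c (l 17645056) (l 17240216))) (a (c (l 17670120) (l 185388906039)) (c (l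 190757975223) (l 182704583943)))))) (b (a (b (c (l 444698661575) (l 426981496743)) (l 3)) (l 3)) (l 3))) (b (a (b (a (c (l 17628320) (l 17131608)) (c (l 17128784) (l 16661304))) (b (a (c (l 17432208) (l 16676784)) (a (c (l 16992112) (l 16548672)) (c (l 158007663207) (l 149954355591)))) (b (a (c (l 180020158839) (l 159618152695)) (c (l 309405691255) (l 192367142935))) (l 3)))) (b (a (b (l 16524200) (c (a (l 16883736) (l 16496392)) (l 16517520))) (b (c (l 16520328) (l 16510456)) (a (c (l 16499976) (l 16524312)) (c (b (l 16500128) (a (l 16517520) (l 139216857207))) (b (l 16510320) (a (l 16508160) (l 16544616))))))) (b (a (b (c (a (l 16675240) (l 145659326295)) (a (l 16516048) (l 16518184))) (a (c (l 161765464807) (l 154786084503)) (c (l 183777156471) (l 197735769767)))) (b (c (a (b (l 141364298743) (l 193440801351)) (a (l 161228541879) (l 231021797399))) (a (l 169281600983) (a (l 141901192503) (l 233706152055)))) (l 3))) (l 3)))) (l 3))))), by decide +kernel⟩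

theorem c_pp_102_a : CertN 536870912 536870912 0 536870912 134217728 67108864 3 false true true .npp 1 0 2
    ndN2q1 ndN1q2a pcN0 Cut.none Ext.none :=
  certN0 (fam := false) (s1 := true) (s2 := true) (a := 1) (b := 0) (c := 2) (cn := .npp) (n1 := ndN2q1) (n2 := ndN1q2a) (pc := pcN0) (cut := Cut.none) (xt := Ext.none) (P1 := 536870912) (W1 := 536870912) (P2 := 0) (W2 := 536870912) (P3 := 134217728) (W3 := 67108864) (N0 := 3)
    rfl k0_pp_102_a

noncomputable def f_pp_102_b : ℕ → ℕ → ℕ → ℕ → Bool := onCell 536870912 536870912 1239849684 370763052 134217728 67108864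
    (rowN 3 0 false true true .npp 1 0 2 (qsf 536870912 536870912 1239849684 370763052 0) ndN2q1 ndN1q2b pcN0 Cut.none Ext.none)

def k0_pp_102_b : ∃ t, chk3 f_pp_102_b t 1 1 1 = true :=
  ⟨(a (b (a (l 2) (b (l 17763600) (l 17858656))) (l 2)) (b (a (b (l 17983744) (l 18212680)) (a (b (l 18062464) (l 18491000)) (b (a (l 17955056) (l 17735056)) (l 18626240)))) (a (l 18348944) (l 18875616)))), by decide +kernel⟩

theorem c_pp_102_b : CertN 536870912 536870912 1239849684 370763052 134217728 67108864 3 false true true .npp 1 0 2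
    ndN2q1 ndN1q2b pcN0 Cut.none Ext.none :=
  certN0 (fam := false) (s1 := true) (s2 := true) (a := 1) (b := 0) (c := 2) (cn := .npp) (n1 := ndN2q1) (n2 := ndN1q2b) (pc := pcN0) (cut := Cut.none) (xt := Ext.none) (P1 := 536870912) (W1 := 536870912) (P2 := 1239849684) (W2 := 370763052) (P3 := 134217728) (W3 := 67108864) (N0 := 3)
    rfl k0_pp_102_b

noncomputable def f_pp_112_a : ℕ → ℕ → ℕ → ℕ → Bool := onCell 536870912 536870912 0 536870912 134217728 67108864
    (rowN 3 2 false true true .dn 1 1 2 (qsf 536870912 536870912 0 536870912 1) ndN2q1 ndN1q2a pcN1 Cut.none Ext.none)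

def k0_pp_112_a : ∃ t, chk3 f_pp_112_a t 1 1 1 = true :=
  ⟨(a (b (a (l 17856944) (l 17762056)) (a (a (b (l 17760096) (b (l 17703864) (l 204180512487))) (b (l 17761704) (l 439195856023))) (b (l 1) (l 1)))) (l 1)), by decide +kernel⟩

theorem c_pp_112_a : CertN 536870912 536870912 0 536870912 134217728 67108864 3 false true true .dn 1 1 2
    ndN2q1 ndN1q2a pcN1 Cut.none Ext.none :=
  certN2 (fam := false) (s1 := true) (s2 := true) (a := 1) (b := 1) (c := 2) (cn := .dn) (n1 := ndN2q1) (n2 := ndN1q2a) (pc := pcN1) (cut := Cut.none) (xt := Ext.none) (P1 := 536870912) (W1 := 536870912) (P2 := 0) (W2 := 536870912) (P3 := 134217728) (W3 := 67108864) (N0 := 3)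
    rfl (fun _ => rfl) k0_pp_112_a

noncomputable def f_pp_112_b : ℕ → ℕ → ℕ → ℕ → Bool := onCell 536870912 536870912 1239849684 370763052 134217728 67108864
    (rowN 3 2 false true true .dn 1 1 2 (qsf 536870912 536870912 1239849684 370763052 1) ndN2q1 ndN1q2b pcN1 Cut.none Ext.none)

def k0_pp_112_b : ∃ t, chk3 f_pp_112_b t 1 1 1 = true :=
  ⟨(a (a (b (l 18008520) (l 18343984)) (b (l 17837216) (l 18026632))) (a (b (l 17763152) (l 17822432)) (b (l 1) (l 17767128)))), by decide +kernel⟩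

theorem c_pp_112_b : CertN 536870912 536870912 1239849684 370763052 134217728 67108864 3 false true true .dn 1 1 2
    ndN2q1 ndN1q2b pcN1 Cut.none Ext.none :=
  certN2 (fam := false) (s1 := true) (s2 := true) (a := 1) (b := 1) (c := 2) (cn := .dn) (n1 := ndN2q1) (n2 := ndN1q2b) (pc := pcN1) (cut := Cut.none) (xt := Ext.none) (P1 := 536870912) (W1 := 536870912) (P2 := 1239849684) (W2 := 370763052) (P3 := 134217728) (W3 := 67108864) (N0 := 3)
    rfl (fun _ => rfl) k0_pp_112_b

noncomputable def f_pp_113 : ℕ → ℕ → ℕ → ℕ → Bool := onCell 536870912 536870912 536870912 536870912 134217728 67108864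
    (rowN 3 1 false true true .nn 1 1 3 (qsf 536870912 536870912 1610612736 536870912 1) ndN2q1 ndN1q3 pcN1 Cut.none Ext.none)

def k0_pp_113 : ∃ t, chk3 f_pp_113 t 1 1 1 = true :=
  ⟨(a (b (b (l 1) (l 17870008)) (b (l 17707824) (l 17682456))) (b (b (l 18274992) (l 18087144)) (b (l 17787304) (b (l 17467320) (l 17187904))))), by decide +kernel⟩

theorem c_pp_113 : CertN 536870912 536870912 1610612736 536870912 134217728 67108864 3 false true true .nn 1 1 3
    ndN2q1 ndN1q3 pcN1 Cut.none Ext.none :=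
  certN1 (fam := false) (s1 := true) (s2 := true) (a := 1) (b := 1) (c := 3) (cn := .nn) (n1 := ndN2q1) (n2 := ndN1q3) (pc := pcN1) (cut := Cut.none) (xt := Ext.none) (P1 := 536870912) (W1 := 536870912) (P2 := 1610612736) (W2 := 536870912) (P3 := 134217728) (W3 := 67108864) (N0 := 3)
    rfl (fun _ => rfl) k0_pp_113

noncomputable def f_pp_123 : ℕ → ℕ → ℕ → ℕ → Bool := onCell 1073741824 536870912 1610612736 536870912 134217728 67108864
    (rowN 3 2 false true true .npn 1 2 3 (qsf 536870912 536870912 1610612736 536870912 2) ndN2q1 ndN1q3 pcN2 Cut.none Ext.none)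

def k0_pp_123 : ∃ t, chk3 f_pp_123 t 1 1 1 = true :=
  ⟨(a (b (a (l 17968368) (l 17888752)) (a (l 17353896) (l 17434504))) (b (a (l 17732400) (l 1)) (a (l 17408048) (l 17240088)))), by decide +kernel⟩

theorem c_pp_123 : CertN 536870912 536870912 1610612736 536870912 134217728 67108864 3 false true true .npn 1 2 3
    ndN2q1 ndN1q3 pcN2 Cut.none Ext.none :=
  certN2 (fam := false) (s1 := true) (s2 := true) (a := 1) (b := 2) (c := 3) (cn := .npn) (n1 := ndN2q1) (n2 := ndN1q3) (pc := pcN2) (cut := Cut.none) (xt := Ext.none) (P1 := 536870912) (W1 := 536870912) (P2 := 1610612736) (W2 := 536870912) (P3 := 134217728) (W3 := 67108864) (N0 := 3)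
    rfl (fun _ => rfl) k0_pp_123

noncomputable def f_pp_133 : ℕ → ℕ → ℕ → ℕ → Bool := onCell 1610612736 536870912 1610612736 536870912 134217728 67108864
    (rowN 3 2 false true true .dn 1 3 3 (qsf 536870912 536870912 1610612736 536870912 3) ndN2q1 ndN1q3 pcN3 Cut.none Ext.none)

def k0_pp_133 : ∃ t, chk3 f_pp_133 t 1 1 1 = true :=
  ⟨(a (b (l 1) (b (l 1) (l 4))) (l 1)), by decide +kernel⟩

theorem c_pp_133 : CertN 536870912 536870912 1610612736 536870912 134217728 67108864 3 false true true .dn 1 3 3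
    ndN2q1 ndN1q3 pcN3 Cut.none Ext.none :=
  certN2 (fam := false) (s1 := true) (s2 := true) (a := 1) (b := 3) (c := 3) (cn := .dn) (n1 := ndN2q1) (n2 := ndN1q3) (pc := pcN3) (cut := Cut.none) (xt := Ext.none) (P1 := 536870912) (W1 := 536870912) (P2 := 1610612736) (W2 := 536870912) (P3 := 134217728) (W3 := 67108864) (N0 := 3)
    rfl (fun _ => rfl) k0_pp_133

noncomputable def f_pp_202_aa : ℕ → ℕ → ℕ → ℕ → Bool := onCell 0 536870912 0 536870912 134217728 67108864
    (rowN 3 0 false true true .pp 2 0 2 (qsf 0 536870912 0 536870912 0) ndN2q2a ndN1q2a pcN0 Cut.none Ext.none)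

def k0_pp_202_aa : ∃ t, chk3 f_pp_202_aa t 1 1 1 = true :=
  ⟨(l 3), by decide +kernel⟩

theorem c_pp_202_aa : CertN 0 536870912 0 536870912 134217728 67108864 3 false true true .pp 2 0 2
    ndN2q2a ndN1q2a pcN0 Cut.none Ext.none :=
  certN0 (fam := false) (s1 := true) (s2 := true) (a := 2) (b := 0) (c := 2) (cn := .pp) (n1 := ndN2q2a) (n2 := ndN1q2a) (pc := pcN0) (cut := Cut.none) (xt := Ext.none) (P1 := 0) (W1 := 536870912) (P2 := 0) (W2 := 536870912) (P3 := 134217728) (W3 := 67108864) (N0 := 3)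
    rfl k0_pp_202_aa

noncomputable def f_pp_202_ab : ℕ → ℕ → ℕ → ℕ → Bool := onCell 0 536870912 1239849684 370763052 134217728 67108864
    (rowN 3 0 false true true .pp 2 0 2 (qsf 0 536870912 1239849684 370763052 0) ndN2q2a ndN1q2b pcN0 Cut.none Ext.none)

def k0_pp_202_ab : ∃ t, chk3 f_pp_202_ab t 1 1 1 = true :=
  ⟨(l 3), by decide +kernel⟩

theorem c_pp_202_ab : CertN 0 536870912 1239849684 370763052 134217728 67108864 3 false true true .pp 2 0 2
    ndN2q2a ndN1q2b pcN0 Cut.none Ext.none :=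
  certN0 (fam := false) (s1 := true) (s2 := true) (a := 2) (b := 0) (c := 2) (cn := .pp) (n1 := ndN2q2a) (n2 := ndN1q2b) (pc := pcN0) (cut := Cut.none) (xt := Ext.none) (P1 := 0) (W1 := 536870912) (P2 := 1239849684) (W2 := 370763052) (P3 := 134217728) (W3 := 67108864) (N0 := 3)
    rfl k0_pp_202_ab

noncomputable def f_pp_202_ba : ℕ → ℕ → ℕ → ℕ → Bool := onCell 1239849684 370763052 0 536870912 134217728 67108864
    (rowN 3 0 false true true .pp 2 0 2 (qsf 1239849684 370763052 0 536870912 0) ndN2q2b ndN1q2a pcN0 Cut.none Ext.none)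

def k0_pp_202_ba : ∃ t, chk3 f_pp_202_ba t 1 1 1 = true :=
  ⟨(l 3), by decide +kernel⟩

theorem c_pp_202_ba : CertN 1239849684 370763052 0 536870912 134217728 67108864 3 false true true .pp 2 0 2
    ndN2q2b ndN1q2a pcN0 Cut.none Ext.none :=
  certN0 (fam := false) (s1 := true) (s2 := true) (a := 2) (b := 0) (c := 2) (cn := .pp) (n1 := ndN2q2b) (n2 := ndN1q2a) (pc := pcN0) (cut := Cut.none) (xt := Ext.none) (P1 := 1239849684) (W1 := 370763052) (P2 := 0) (W2 := 536870912) (P3 := 134217728) (W3 := 67108864) (N0 := 3)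
    rfl k0_pp_202_ba

noncomputable def f_pp_202_bb : ℕ → ℕ → ℕ → ℕ → Bool := onCell 1239849684 370763052 1239849684 370763052 134217728 67108864
    (rowN 3 0 false true true .pp 2 0 2 (qsf 1239849684 370763052 1239849684 370763052 0) ndN2q2b ndN1q2b pcN0 Cut.none Ext.none)

def k0_pp_202_bb : ∃ t, chk3 f_pp_202_bb t 1 1 1 = true :=
  ⟨(l 3), by decide +kernel⟩

theorem c_pp_202_bb : CertN 1239849684 370763052 1239849684 370763052 134217728 67108864 3 false true true .pp 2 0 2
    ndN2q2b ndN1q2b pcN0 Cut.none Ext.none :=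
  certN0 (fam := false) (s1 := true) (s2 := true) (a := 2) (b := 0) (c := 2) (cn := .pp) (n1 := ndN2q2b) (n2 := ndN1q2b) (pc := pcN0) (cut := Cut.none) (xt := Ext.none) (P1 := 1239849684) (W1 := 370763052) (P2 := 1239849684) (W2 := 370763052) (P3 := 134217728) (W3 := 67108864) (N0 := 3)
    rfl k0_pp_202_bb

noncomputable def f_pp_203_a : ℕ → ℕ → ℕ → ℕ → Bool := onCell 0 536870912 0 536870912 134217728 67108864
    (rowN 3 1 false true true .up 2 0 3 (qsf 0 536870912 1610612736 536870912 0) ndN2q2a ndN1q3 pcN0 Cut.none Ext.none)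

def k0_pp_203_a : ∃ t, chk3 f_pp_203_a t 1 1 1 = true :=
  ⟨(l 3), by decide +kernel⟩

theorem c_pp_203_a : CertN 0 536870912 1610612736 536870912 134217728 67108864 3 false true true .up 2 0 3
    ndN2q2a ndN1q3 pcN0 Cut.none Ext.none :=
  certN1 (fam := false) (s1 := true) (s2 := true) (a := 2) (b := 0) (c := 3) (cn := .up) (n1 := ndN2q2a) (n2 := ndN1q3) (pc := pcN0) (cut := Cut.none) (xt := Ext.none) (P1 := 0) (W1 := 536870912) (P2 := 1610612736) (W2 := 536870912) (P3 := 134217728) (W3 := 67108864) (N0 := 3)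
    rfl (fun _ => rfl) k0_pp_203_a

noncomputable def f_pp_203_b : ℕ → ℕ → ℕ → ℕ → Bool := onCell 1239849684 370763052 1610612736 536870912 134217728 67108864
    (rowN 3 0 false true true .up 2 0 3 (qsf 1239849684 370763052 1610612736 536870912 0) ndN2q2b ndN1q3 pcN0 Cut.none Ext.none)

def k0_pp_203_b : ∃ t, chk3 f_pp_203_b t 1 1 1 = true :=
  ⟨(l 3), by decide +kernel⟩

theorem c_pp_203_b : CertN 1239849684 370763052 1610612736 536870912 134217728 67108864 3 false true true .up 2 0 3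
    ndN2q2b ndN1q3 pcN0 Cut.none Ext.none :=
  certN0 (fam := false) (s1 := true) (s2 := true) (a := 2) (b := 0) (c := 3) (cn := .up) (n1 := ndN2q2b) (n2 := ndN1q3) (pc := pcN0) (cut := Cut.none) (xt := Ext.none) (P1 := 1239849684) (W1 := 370763052) (P2 := 1610612736) (W2 := 536870912) (P3 := 134217728) (W3 := 67108864) (N0 := 3)
    rfl k0_pp_203_b

noncomputable def cut_pp_213_a : Cut := Cut.of [[⟨0, 1, 0, 39843005⟩, ⟨1, 1, 0, 39843005⟩, ⟨2, 2, 0, 5814905⟩]]

noncomputable def f_pp_213_a : ℕ → ℕ → ℕ → ℕ → Bool := onCell 0 536870912 1610612736 536870912 134217728 67108864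
    (rowN 3 0 false true true .pnn 2 1 3 (qsf 0 536870912 1610612736 536870912 1) ndN2q2a ndN1q3 pcN1 cut_pp_213_a Ext.none)

def k0_pp_213_a : ∃ t, chk3 f_pp_213_a t 1 1 1 = true :=
  ⟨(b (l 3) (b (l 3) (a (l 3) (a (l 3) (b (l 3) (b (l 3) (a (l 3) (b (l 3) (b (l 3) (a (l 3) (b (l 3) (l 6)))))))))))), by decide +kernel⟩

theorem c_pp_213_a : CertN 0 536870912 1610612736 536870912 134217728 67108864 3 false true true .pnn 2 1 3
    ndN2q2a ndN1q3 pcN1 cut_pp_213_a Ext.none :=
  certN0 (fam := false) (s1 := true) (s2 := true) (a := 2) (b := 1) (c := 3) (cn := .pnn) (n1 := ndN2q2a) (n2 := ndN1q3) (pc := pcN1) (cut := cut_pp_213_a) (xt := Ext.none) (P1 := 0) (W1 := 536870912) (P2 := 1610612736) (W2 := 536870912) (P3 := 134217728) (W3 := 67108864) (N0 := 3)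
    rfl k0_pp_213_a

noncomputable def cut_pp_213_b : Cut := Cut.of [[⟨0, 1, 0, 39843005⟩, ⟨1, 1, 0, 39843005⟩, ⟨2, 2, 0, 5814905⟩]]

noncomputable def f_pp_213_b : ℕ → ℕ → ℕ → ℕ → Bool := onCell 1239849684 370763052 1610612736 536870912 134217728 67108864
    (rowN 3 0 false true true .pnn 2 1 3 (qsf 1239849684 370763052 1610612736 536870912 1) ndN2q2b ndN1q3 pcN1 cut_pp_213_b Ext.none)

def k0_pp_213_b : ∃ t, chk3 f_pp_213_b t 1 1 1 = true :=
  ⟨(l 3), by decide +kernel⟩

theorem c_pp_213_b : CertN 1239849684 370763052 1610612736 536870912 134217728 67108864 3 false true true .pnn 2 1 3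
    ndN2q2b ndN1q3 pcN1 cut_pp_213_b Ext.none :=
  certN0 (fam := false) (s1 := true) (s2 := true) (a := 2) (b := 1) (c := 3) (cn := .pnn) (n1 := ndN2q2b) (n2 := ndN1q3) (pc := pcN1) (cut := cut_pp_213_b) (xt := Ext.none) (P1 := 1239849684) (W1 := 370763052) (P2 := 1610612736) (W2 := 536870912) (P3 := 134217728) (W3 := 67108864) (N0 := 3)
    rfl k0_pp_213_b

noncomputable def f_pp_303 : ℕ → ℕ → ℕ → ℕ → Bool := onCell 1610612736 536870912 1610612736 536870912 134217728 67108864
    (rowN 3 0 false true true .npn 3 0 3 (qsf 1610612736 536870912 1610612736 536870912 0) ndN2q3 ndN1q3 pcN0 Cut.none Ext.none)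

def k0_pp_303 : ∃ t, chk3 f_pp_303 t 1 1 1 = true :=
  ⟨(l 3), by decide +kernel⟩

theorem c_pp_303 : CertN 1610612736 536870912 1610612736 536870912 134217728 67108864 3 false true true .npn 3 0 3
    ndN2q3 ndN1q3 pcN0 Cut.none Ext.none :=
  certN0 (fam := false) (s1 := true) (s2 := true) (a := 3) (b := 0) (c := 3) (cn := .npn) (n1 := ndN2q3) (n2 := ndN1q3) (pc := pcN0) (cut := Cut.none) (xt := Ext.none) (P1 := 1610612736) (W1 := 536870912) (P2 := 1610612736) (W2 := 536870912) (P3 := 134217728) (W3 := 67108864) (N0 := 3)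
    rfl k0_pp_303

noncomputable def f_pp_313 : ℕ → ℕ → ℕ → ℕ → Bool := onCell 1610612736 536870912 1610612736 536870912 134217728 67108864
    (rowN 3 0 false true true .dn 3 1 3 (qsf 1610612736 536870912 1610612736 536870912 1) ndN2q3 ndN1q3 pcN1 Cut.none Ext.none)

def k0_pp_313 : ∃ t, chk3 f_pp_313 t 1 1 1 = true :=
  ⟨(l 3), by decide +kernel⟩

theorem c_pp_313 : CertN 1610612736 536870912 1610612736 536870912 134217728 67108864 3 false true true .dn 3 1 3
    ndN2q3 ndN1q3 pcN1 Cut.none Ext.none :=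
  certN0 (fam := false) (s1 := true) (s2 := true) (a := 3) (b := 1) (c := 3) (cn := .dn) (n1 := ndN2q3) (n2 := ndN1q3) (pc := pcN1) (cut := Cut.none) (xt := Ext.none) (P1 := 1610612736) (W1 := 536870912) (P2 := 1610612736) (W2 := 536870912) (P3 := 134217728) (W3 := 67108864) (N0 := 3)
    rfl k0_pp_313

noncomputable def f_pm_001 : ℕ → ℕ → ℕ → ℕ → Bool := onCell 0 536870912 536870912 536870912 134217728 67108864
    (rowN 3 0 false true false .up 0 0 1 (qsf 0 536870912 536870912 536870912 0) ndN2q0 ndN1q1 pcN0 Cut.none Ext.none)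

def k0_pm_001 : ∃ t, chk3 f_pm_001 t 1 1 1 = true :=
  ⟨(l 4), by decide +kernel⟩

theorem c_pm_001 : CertN 0 536870912 536870912 536870912 134217728 67108864 3 false true false .up 0 0 1
    ndN2q0 ndN1q1 pcN0 Cut.none Ext.none :=
  certN0 (fam := false) (s1 := true) (s2 := false) (a := 0) (b := 0) (c := 1) (cn := .up) (n1 := ndN2q0) (n2 := ndN1q1) (pc := pcN0) (cut := Cut.none) (xt := Ext.none) (P1 := 0) (W1 := 536870912) (P2 := 536870912) (W2 := 536870912) (P3 := 134217728) (W3 := 67108864) (N0 := 3)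
    rfl k0_pm_001

noncomputable def f_pm_011 : ℕ → ℕ → ℕ → ℕ → Bool := onCell 0 536870912 536870912 536870912 134217728 67108864
    (rowN 3 0 false true false .pnn 0 1 1 (qsf 0 536870912 536870912 536870912 1) ndN2q0 ndN1q1 pcN1 Cut.none Ext.none)

def k0_pm_011 : ∃ t, chk3 f_pm_011 t 1 1 1 = true :=
  ⟨(l 4), by decide +kernel⟩

theorem c_pm_011 : CertN 0 536870912 536870912 536870912 134217728 67108864 3 false true false .pnn 0 1 1
    ndN2q0 ndN1q1 pcN1 Cut.none Ext.none :=
  certN0 (fam := false) (s1 := true) (s2 := false) (a := 0) (b := 1) (c := 1) (cn := .pnn) (n1 := ndN2q0) (n2 := ndN1q1) (pc := pcN1) (cut := Cut.none) (xt := Ext.none) (P1 := 0) (W1 := 536870912) (P2 := 536870912) (W2 := 536870912) (P3 := 134217728) (W3 := 67108864) (N0 := 3)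
    rfl k0_pm_011

noncomputable def cut_pm_012_a : Cut := Cut.of [[⟨0, 0, 0, 67108864⟩, ⟨1, 1, 0, 67108864⟩, ⟨2, 1, 0, 67108864⟩]]

noncomputable def f_pm_012_a : ℕ → ℕ → ℕ → ℕ → Bool := onCell 536870912 536870912 0 536870912 134217728 67108864
    (rowN 3 2 false true false .pnp 0 1 2 (qsf 0 536870912 0 536870912 1) ndN2q0 ndN1q2a pcN1 cut_pm_012_a Ext.none)

def k0_pm_012_a : ∃ t, chk3 f_pm_012_a t 1 1 1 = true :=
  ⟨(a (b (a (l 17815488) (l 17970256)) (l 4)) (b (a (a (l 18018272) (b (l 18011888) (l 17942264))) (a (a (l 17806656) (b (l 17706552) (l 17489288))) (a (b (l 17364584) (l 17012528)) (b (l 16735912) (l 16425600))))) (a (l 4) (a (l 4) (a (l 4) (b (l 257932553511) (a (l 4) (b (l 4) (l 6))))))))), by decide +kernel⟩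

theorem c_pm_012_a : CertN 0 536870912 0 536870912 134217728 67108864 3 false true false .pnp 0 1 2
    ndN2q0 ndN1q2a pcN1 cut_pm_012_a Ext.none :=
  certN2 (fam := false) (s1 := true) (s2 := false) (a := 0) (b := 1) (c := 2) (cn := .pnp) (n1 := ndN2q0) (n2 := ndN1q2a) (pc := pcN1) (cut := cut_pm_012_a) (xt := Ext.none) (P1 := 0) (W1 := 536870912) (P2 := 0) (W2 := 536870912) (P3 := 134217728) (W3 := 67108864) (N0 := 3)
    rfl (fun _ => rfl) k0_pm_012_a

noncomputable def cut_pm_012_b : Cut := Cut.of [[⟨0, 0, 0, 67108864⟩, ⟨1, 1, 0, 67108864⟩, ⟨2, 1, 0, 67108864⟩]]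

noncomputable def f_pm_012_b : ℕ → ℕ → ℕ → ℕ → Bool := onCell 536870912 536870912 1239849684 370763052 134217728 67108864
    (rowN 3 2 false true false .pnp 0 1 2 (qsf 0 536870912 1239849684 370763052 1) ndN2q0 ndN1q2b pcN1 cut_pm_012_b Ext.none)

def k0_pm_012_b : ∃ t, chk3 f_pm_012_b t 1 1 1 = true :=
  ⟨(a (a (l 2) (b (l 18187480) (l 2))) (b (a (a (l 18367368) (b (l 18268752) (l 18643168))) (a (a (l 18515432) (b (l 18179976) (l 18778184))) (b (a (l 18033128) (l 17759632)) (l 18794232)))) (a (l 18761232) (l 19179920)))), by decide +kernel⟩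

theorem c_pm_012_b : CertN 0 536870912 1239849684 370763052 134217728 67108864 3 false true false .pnp 0 1 2
    ndN2q0 ndN1q2b pcN1 cut_pm_012_b Ext.none :=
  certN2 (fam := false) (s1 := true) (s2 := false) (a := 0) (b := 1) (c := 2) (cn := .pnp) (n1 := ndN2q0) (n2 := ndN1q2b) (pc := pcN1) (cut := cut_pm_012_b) (xt := Ext.none) (P1 := 0) (W1 := 536870912) (P2 := 1239849684) (W2 := 370763052) (P3 := 134217728) (W3 := 67108864) (N0 := 3)
    rfl (fun _ => rfl) k0_pm_012_b

noncomputable def cut_pm_022_a : Cut := Cut.of [[⟨0, 0, 0, 67108864⟩, ⟨1, 1, 0, 67108864⟩, ⟨2, 1, 0, 67108864⟩]]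

noncomputable def f_pm_022_a : ℕ → ℕ → ℕ → ℕ → Bool := onCell 0 536870912 0 536870912 134217728 67108864
    (rowN 3 0 false true false .pp 0 2 2 (qsf 0 536870912 0 536870912 2) ndN2q0 ndN1q2a pcN2 cut_pm_022_a Ext.none)

def k0_pm_022_a : ∃ t, chk3 f_pm_022_a t 1 1 1 = true :=
  ⟨(a (b (a (a (a (a (b (c (b (l 16875624) (l 16767928)) (l 16574152)) (b (c (l 16565872) (l 16553480)) (c (a (l 16595320) (l 16556888)) (l 16597496)))) (b (b (l 16483192) (l 16490848)) (c (l 16583544) (l 16553480)))) (b (l 16480696) (l 16589152))) (b (l 16425168) (l 16587616))) (a (a (l 16558312) (l 16528272)) (l 1))) (a (b (a (a (a (b (a (c (b (l 16593888) (l 16630152)) (l 16640776)) (l 16622216)) (a (b (c (l 16657840) (l 16641336)) (c (a (l 16671064) (l 16641280)) (l 16672384))) (c (l 16660144) (l 16655608)))) (b (l 16595832) (l 16652280))) (b (l 16562552) (a (l 16597248) (l 16549088)))) (b (l 16592616) (a (l 16554576) (l 4)))) (a (a (b (b (a (a (b (c (a (l 16686944) (l 16657208))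 (l 16678720)) (c (a (l 16687904) (l 16668688)) (l 16690776))) (l 16690168)) (l 16664896)) (l 6)) (l 6)) (b (b (l 16647104) (l 4)) (l 4))) (l 4))) (b (l 1) (l 1)))) (l 1)), by decide +kernel⟩

theorem c_pm_022_a : CertN 0 536870912 0 536870912 134217728 67108864 3 false true false .pp 0 2 2
    ndN2q0 ndN1q2a pcN2 cut_pm_022_a Ext.none :=
  certN0 (fam := false) (s1 := true) (s2 := false) (a := 0) (b := 2) (c := 2) (cn := .pp) (n1 := ndN2q0) (n2 := ndN1q2a) (pc := pcN2) (cut := cut_pm_022_a) (xt := Ext.none) (P1 := 0) (W1 := 536870912) (P2 := 0) (W2 := 536870912) (P3 := 134217728) (W3 := 67108864) (N0 := 3)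
    rfl k0_pm_022_a

noncomputable def cut_pm_022_b : Cut := Cut.of [[⟨0, 0, 0, 67108864⟩, ⟨1, 1, 0, 67108864⟩, ⟨2, 1, 0, 67108864⟩]]

noncomputable def f_pm_022_b : ℕ → ℕ → ℕ → ℕ → Bool := onCell 0 536870912 1239849684 370763052 134217728 67108864
    (rowN 3 0 false true false .pp 0 2 2 (qsf 0 536870912 1239849684 370763052 2) ndN2q0 ndN1q2b pcN2 cut_pm_022_b Ext.none)

def k0_pm_022_b : ∃ t, chk3 f_pm_022_b t 1 1 1 = true :=
  ⟨(a (b (a (a (b (a (b (a (c (b (l 17123576) (l 17492840)) (a (l 16573888) (l 16556096))) (l 16822848)) (c (l 17900008) (a (l 17293504) (l 17291648)))) (b (l 16910104) (l 17621192))) (a (b (c (l 18249328) (l 17752440)) (l 18258024)) (l 18200232))) (b (b (l 16910752) (l 17675560)) (b (l 18130672) (l 18412888)))) (b (a (b (l 16987904) (l 17792424)) (b (l 17129736) (l 17942928))) (a (l 18425424) (l 18583816)))) (a (b (a (b (l 18451736) (l 18547088)) (l 18643272)) (a (l 18658048) (l 4))) (b (a (l 18777584) (l 18915016)) (l 4)))) (b (a (b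 (l 1) (l 338803733543)) (l 1)) (b (a (l 4) (l 4)) (l 4)))), by decide +kernel⟩

theorem c_pm_022_b : CertN 0 536870912 1239849684 370763052 134217728 67108864 3 false true false .pp 0 2 2
    ndN2q0 ndN1q2b pcN2 cut_pm_022_b Ext.none :=
  certN0 (fam := false) (s1 := true) (s2 := false) (a := 0) (b := 2) (c := 2) (cn := .pp) (n1 := ndN2q0) (n2 := ndN1q2b) (pc := pcN2) (cut := cut_pm_022_b) (xt := Ext.none) (P1 := 0) (W1 := 536870912) (P2 := 1239849684) (W2 := 370763052) (P3 := 134217728) (W3 := 67108864) (N0 := 3)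
    rfl k0_pm_022_b

noncomputable def f_pm_023 : ℕ → ℕ → ℕ → ℕ → Bool := onCell 0 536870912 1610612736 536870912 134217728 67108864
    (rowN 3 0 false true false .up 0 2 3 (qsf 0 536870912 1610612736 536870912 2) ndN2q0 ndN1q3 pcN2 Cut.none Ext.none)

def k0_pm_023 : ∃ t, chk3 f_pm_023 t 1 1 1 = true :=
  ⟨(b (a (l 4) (l 4)) (l 4)), by decide +kernel⟩

theorem c_pm_023 : CertN 0 536870912 1610612736 536870912 134217728 67108864 3 false true false .up 0 2 3
    ndN2q0 ndN1q3 pcN2 Cut.none Ext.none :=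
  certN0 (fam := false) (s1 := true) (s2 := false) (a := 0) (b := 2) (c := 3) (cn := .up) (n1 := ndN2q0) (n2 := ndN1q3) (pc := pcN2) (cut := Cut.none) (xt := Ext.none) (P1 := 0) (W1 := 536870912) (P2 := 1610612736) (W2 := 536870912) (P3 := 134217728) (W3 := 67108864) (N0 := 3)
    rfl k0_pm_023

noncomputable def f_pm_033 : ℕ → ℕ → ℕ → ℕ → Bool := onCell 0 536870912 1610612736 536870912 134217728 67108864
    (rowN 3 0 false true false .pnn 0 3 3 (qsf 0 536870912 1610612736 536870912 3) ndN2q0 ndN1q3 pcN3 Cut.none Ext.none)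

def k0_pm_033 : ∃ t, chk3 f_pm_033 t 1 1 1 = true :=
  ⟨(b (a (l 4) (l 4)) (l 4)), by decide +kernel⟩

theorem c_pm_033 : CertN 0 536870912 1610612736 536870912 134217728 67108864 3 false true false .pnn 0 3 3
    ndN2q0 ndN1q3 pcN3 Cut.none Ext.none :=
  certN0 (fam := false) (s1 := true) (s2 := false) (a := 0) (b := 3) (c := 3) (cn := .pnn) (n1 := ndN2q0) (n2 := ndN1q3) (pc := pcN3) (cut := Cut.none) (xt := Ext.none) (P1 := 0) (W1 := 536870912) (P2 := 1610612736) (W2 := 536870912) (P3 := 134217728) (W3 := 67108864) (N0 := 3)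
    rfl k0_pm_033

noncomputable def f_pm_101 : ℕ → ℕ → ℕ → ℕ → Bool := onCell 536870912 536870912 536870912 536870912 134217728 67108864
    (rowN 3 0 false true false .npn 1 0 1 (qsf 536870912 536870912 536870912 536870912 0) ndN2q1 ndN1q1 pcN0 Cut.none Ext.none)

def k0_pm_101 : ∃ t, chk3 f_pm_101 t 1 1 1 = true :=
  ⟨(l 4), by decide +kernel⟩

theorem c_pm_101 : CertN 536870912 536870912 536870912 536870912 134217728 67108864 3 false true false .npn 1 0 1
    ndN2q1 ndN1q1 pcN0 Cut.none Ext.none :=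
  certN0 (fam := false) (s1 := true) (s2 := false) (a := 1) (b := 0) (c := 1) (cn := .npn) (n1 := ndN2q1) (n2 := ndN1q1) (pc := pcN0) (cut := Cut.none) (xt := Ext.none) (P1 := 536870912) (W1 := 536870912) (P2 := 536870912) (W2 := 536870912) (P3 := 134217728) (W3 := 67108864) (N0 := 3)
    rfl k0_pm_101

noncomputable def f_pm_102_a : ℕ → ℕ → ℕ → ℕ → Bool := onCell 536870912 536870912 0 536870912 134217728 67108864
    (rowN 3 0 false true false .npp 1 0 2 (qsf 536870912 536870912 0 536870912 0) ndN2q1 ndN1q2a pcN0 Cut.none Ext.none)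

def k0_pm_102_a : ∃ t, chk3 f_pm_102_a t 1 1 1 = true :=
  ⟨(b (b (a (a (l 2) (l 18389192)) (a (l 18550840) (l 18916512))) (a (l 4) (a (l 4) (l 19004336)))) (l 4)), by decide +kernel⟩

theorem c_pm_102_a : CertN 536870912 536870912 0 536870912 134217728 67108864 3 false true false .npp 1 0 2
    ndN2q1 ndN1q2a pcN0 Cut.none Ext.none :=
  certN0 (fam := false) (s1 := true) (s2 := false) (a := 1) (b := 0) (c := 2) (cn := .npp) (n1 := ndN2q1) (n2 := ndN1q2a) (pc := pcN0) (cut := Cut.none) (xt := Ext.none) (P1 := 536870912) (W1 := 536870912) (P2 := 0) (W2 := 536870912) (P3 := 134217728) (W3 := 67108864) (N0 := 3)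
    rfl k0_pm_102_a

noncomputable def f_pm_102_b : ℕ → ℕ → ℕ → ℕ → Bool := onCell 536870912 536870912 0 536870912 134217728 67108864
    (rowN 3 1 false true false .npp 1 0 2 (qsf 536870912 536870912 1239849684 370763052 0) ndN2q1 ndN1q2b pcN0 Cut.none Ext.none)

def k0_pm_102_b : ∃ t, chk3 f_pm_102_b t 1 1 1 = true :=
  ⟨(b (a (l 1) (b (l 1) (l 436513702199))) (a (b (l 1) (a (l 1) (l 18119592))) (b (l 428460728407) (a (l 18340480) (l 18483616))))), by decide +kernel⟩

theorem c_pm_102_b : CertN 536870912 536870912 1239849684 370763052 134217728 67108864 3 false true false .npp 1 0 2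
    ndN2q1 ndN1q2b pcN0 Cut.none Ext.none :=
  certN1 (fam := false) (s1 := true) (s2 := false) (a := 1) (b := 0) (c := 2) (cn := .npp) (n1 := ndN2q1) (n2 := ndN1q2b) (pc := pcN0) (cut := Cut.none) (xt := Ext.none) (P1 := 536870912) (W1 := 536870912) (P2 := 1239849684) (W2 := 370763052) (P3 := 134217728) (W3 := 67108864) (N0 := 3)
    rfl (fun _ => rfl) k0_pm_102_b

noncomputable def f_pm_112_a : ℕ → ℕ → ℕ → ℕ → Bool := onCell 536870912 536870912 0 536870912 134217728 67108864
    (rowN 3 0 false true false .dn 1 1 2 (qsf 536870912 536870912 0 536870912 1) ndN2q1 ndN1q2a pcN1 Cut.none Ext.none)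

def k0_pm_112_a : ∃ t, chk3 f_pm_112_a t 1 1 1 = true :=
  ⟨(a (b (l 18527016) (l 4)) (l 1)), by decide +kernel⟩

theorem c_pm_112_a : CertN 536870912 536870912 0 536870912 134217728 67108864 3 false true false .dn 1 1 2
    ndN2q1 ndN1q2a pcN1 Cut.none Ext.none :=
  certN0 (fam := false) (s1 := true) (s2 := false) (a := 1) (b := 1) (c := 2) (cn := .dn) (n1 := ndN2q1) (n2 := ndN1q2a) (pc := pcN1) (cut := Cut.none) (xt := Ext.none) (P1 := 536870912) (W1 := 536870912) (P2 := 0) (W2 := 536870912) (P3 := 134217728) (W3 := 67108864) (N0 := 3)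
    rfl k0_pm_112_a

noncomputable def f_pm_112_b : ℕ → ℕ → ℕ → ℕ → Bool := onCell 536870912 536870912 1239849684 370763052 134217728 67108864
    (rowN 3 0 false true false .dn 1 1 2 (qsf 536870912 536870912 1239849684 370763052 1) ndN2q1 ndN1q2b pcN1 Cut.none Ext.none)

def k0_pm_112_b : ∃ t, chk3 f_pm_112_b t 1 1 1 = true :=
  ⟨(a (b (a (l 18597984) (l 18558344)) (l 18588616)) (b (a (l 18619416) (l 1)) (l 18677944))), by decide +kernel⟩

theorem c_pm_112_b : CertN 536870912 536870912 1239849684 370763052 134217728 67108864 3 false true false .dn 1 1 2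
    ndN2q1 ndN1q2b pcN1 Cut.none Ext.none :=
  certN0 (fam := false) (s1 := true) (s2 := false) (a := 1) (b := 1) (c := 2) (cn := .dn) (n1 := ndN2q1) (n2 := ndN1q2b) (pc := pcN1) (cut := Cut.none) (xt := Ext.none) (P1 := 536870912) (W1 := 536870912) (P2 := 1239849684) (W2 := 370763052) (P3 := 134217728) (W3 := 67108864) (N0 := 3)
    rfl k0_pm_112_b

noncomputable def f_pm_113 : ℕ → ℕ → ℕ → ℕ → Bool := onCell 536870912 536870912 536870912 536870912 134217728 67108864
    (rowN 3 1 false true false .nn 1 1 3 (qsf 536870912 536870912 1610612736 536870912 1) ndN2q1 ndN1q3 pcN1 Cut.none Ext.none)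

def k0_pm_113 : ∃ t, chk3 f_pm_113 t 1 1 1 = true :=
  ⟨(b (a (l 528318443511) (l 18245880)) (a (l 18462264) (b (b (l 17816672) (l 17749000)) (b (b (l 17665512) (l 17608040)) (l 17497744))))), by decide +kernel⟩

theorem c_pm_113 : CertN 536870912 536870912 1610612736 536870912 134217728 67108864 3 false true false .nn 1 1 3
    ndN2q1 ndN1q3 pcN1 Cut.none Ext.none :=
  certN1 (fam := false) (s1 := true) (s2 := false) (a := 1) (b := 1) (c := 3) (cn := .nn) (n1 := ndN2q1) (n2 := ndN1q3) (pc := pcN1) (cut := Cut.none) (xt := Ext.none) (P1 := 536870912) (W1 := 536870912) (P2 := 1610612736) (W2 := 536870912) (P3 := 134217728) (W3 := 67108864) (N0 := 3)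
    rfl (fun _ => rfl) k0_pm_113

noncomputable def f_pm_123 : ℕ → ℕ → ℕ → ℕ → Bool := onCell 1073741824 536870912 1610612736 536870912 134217728 67108864
    (rowN 3 2 false true false .npn 1 2 3 (qsf 536870912 536870912 1610612736 536870912 2) ndN2q1 ndN1q3 pcN2 Cut.none Ext.none)

def k0_pm_123 : ∃ t, chk3 f_pm_123 t 1 1 1 = true :=
  ⟨(a (b (l 4) (a (l 17515280) (l 17523440))) (a (l 4) (b (l 1) (l 4)))), by decide +kernel⟩

theorem c_pm_123 : CertN 536870912 536870912 1610612736 536870912 134217728 67108864 3 false true false .npn 1 2 3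
    ndN2q1 ndN1q3 pcN2 Cut.none Ext.none :=
  certN2 (fam := false) (s1 := true) (s2 := false) (a := 1) (b := 2) (c := 3) (cn := .npn) (n1 := ndN2q1) (n2 := ndN1q3) (pc := pcN2) (cut := Cut.none) (xt := Ext.none) (P1 := 536870912) (W1 := 536870912) (P2 := 1610612736) (W2 := 536870912) (P3 := 134217728) (W3 := 67108864) (N0 := 3)
    rfl (fun _ => rfl) k0_pm_123

noncomputable def f_pm_133 : ℕ → ℕ → ℕ → ℕ → Bool := onCell 536870912 536870912 1610612736 536870912 134217728 67108864
    (rowN 3 0 false true false .dn 1 3 3 (qsf 536870912 536870912 1610612736 536870912 3) ndN2q1 ndN1q3 pcN3 Cut.none Ext.none)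

def k0_pm_133 : ∃ t, chk3 f_pm_133 t 1 1 1 = true :=
  ⟨(a (b (l 1) (l 4)) (l 1)), by decide +kernel⟩

theorem c_pm_133 : CertN 536870912 536870912 1610612736 536870912 134217728 67108864 3 false true false .dn 1 3 3
    ndN2q1 ndN1q3 pcN3 Cut.none Ext.none :=
  certN0 (fam := false) (s1 := true) (s2 := false) (a := 1) (b := 3) (c := 3) (cn := .dn) (n1 := ndN2q1) (n2 := ndN1q3) (pc := pcN3) (cut := Cut.none) (xt := Ext.none) (P1 := 536870912) (W1 := 536870912) (P2 := 1610612736) (W2 := 536870912) (P3 := 134217728) (W3 := 67108864) (N0 := 3)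
    rfl k0_pm_133

noncomputable def cut_pm_202_aa : Cut := Cut.of [[⟨0, 1, 0, 67108864⟩, ⟨1, 0, 0, 67108864⟩, ⟨2, 1, 0, 67108864⟩]]

noncomputable def f_pm_202_aa : ℕ → ℕ → ℕ → ℕ → Bool := onCell 0 536870912 0 536870912 134217728 67108864
    (rowN 3 0 false true false .pp 2 0 2 (qsf 0 536870912 0 536870912 0) ndN2q2a ndN1q2a pcN0 cut_pm_202_aa Ext.none)

def k0_pm_202_aa : ∃ t, chk3 f_pm_202_aa t 1 1 1 = true :=
  ⟨(b (l 3) (a (l 3) (b (l 3) (a (l 3) (b (l 3) (a (l 3) (l 6))))))), by decide +kernel⟩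

theorem c_pm_202_aa : CertN 0 536870912 0 536870912 134217728 67108864 3 false true false .pp 2 0 2
    ndN2q2a ndN1q2a pcN0 cut_pm_202_aa Ext.none :=
  certN0 (fam := false) (s1 := true) (s2 := false) (a := 2) (b := 0) (c := 2) (cn := .pp) (n1 := ndN2q2a) (n2 := ndN1q2a) (pc := pcN0) (cut := cut_pm_202_aa) (xt := Ext.none) (P1 := 0) (W1 := 536870912) (P2 := 0) (W2 := 536870912) (P3 := 134217728) (W3 := 67108864) (N0 := 3)
    rfl k0_pm_202_aa

noncomputable def cut_pm_202_ab : Cut := Cut.of [[⟨0, 1, 0, 67108864⟩, ⟨1, 0, 0, 67108864⟩, ⟨2, 1, 0, 67108864⟩]]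

noncomputable def f_pm_202_ab : ℕ → ℕ → ℕ → ℕ → Bool := onCell 0 536870912 1239849684 370763052 134217728 67108864
    (rowN 3 0 false true false .pp 2 0 2 (qsf 0 536870912 1239849684 370763052 0) ndN2q2a ndN1q2b pcN0 cut_pm_202_ab Ext.none)

def k0_pm_202_ab : ∃ t, chk3 f_pm_202_ab t 1 1 1 = true :=
  ⟨(l 3), by decide +kernel⟩

theorem c_pm_202_ab : CertN 0 536870912 1239849684 370763052 134217728 67108864 3 false true false .pp 2 0 2
    ndN2q2a ndN1q2b pcN0 cut_pm_202_ab Ext.none :=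
  certN0 (fam := false) (s1 := true) (s2 := false) (a := 2) (b := 0) (c := 2) (cn := .pp) (n1 := ndN2q2a) (n2 := ndN1q2b) (pc := pcN0) (cut := cut_pm_202_ab) (xt := Ext.none) (P1 := 0) (W1 := 536870912) (P2 := 1239849684) (W2 := 370763052) (P3 := 134217728) (W3 := 67108864) (N0 := 3)
    rfl k0_pm_202_ab

noncomputable def cut_pm_202_ba : Cut := Cut.of [[⟨0, 1, 0, 67108864⟩, ⟨1, 0, 0, 67108864⟩, ⟨2, 1, 0, 67108864⟩]]

noncomputable def f_pm_202_ba : ℕ → ℕ → ℕ → ℕ → Bool := onCell 1239849684 370763052 0 536870912 134217728 67108864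
    (rowN 3 0 false true false .pp 2 0 2 (qsf 1239849684 370763052 0 536870912 0) ndN2q2b ndN1q2a pcN0 cut_pm_202_ba Ext.none)

def k0_pm_202_ba : ∃ t, chk3 f_pm_202_ba t 1 1 1 = true :=
  ⟨(b (l 3) (l 1)), by decide +kernel⟩

theorem c_pm_202_ba : CertN 1239849684 370763052 0 536870912 134217728 67108864 3 false true false .pp 2 0 2
    ndN2q2b ndN1q2a pcN0 cut_pm_202_ba Ext.none :=
  certN0 (fam := false) (s1 := true) (s2 := false) (a := 2) (b := 0) (c := 2) (cn := .pp) (n1 := ndN2q2b) (n2 := ndN1q2a) (pc := pcN0) (cut := cut_pm_202_ba) (xt := Ext.none) (P1 := 1239849684) (W1 := 370763052) (P2 := 0) (W2 := 536870912) (P3 := 134217728) (W3 := 67108864) (N0 := 3)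
    rfl k0_pm_202_ba

noncomputable def cut_pm_202_bb : Cut := Cut.of [[⟨0, 1, 0, 67108864⟩, ⟨1, 0, 0, 67108864⟩, ⟨2, 1, 0, 67108864⟩]]

noncomputable def f_pm_202_bb : ℕ → ℕ → ℕ → ℕ → Bool := onCell 1239849684 370763052 1239849684 370763052 134217728 67108864
    (rowN 3 0 false true false .pp 2 0 2 (qsf 1239849684 370763052 1239849684 370763052 0) ndN2q2b ndN1q2b pcN0 cut_pm_202_bb Ext.none)

def k0_pm_202_bb : ∃ t, chk3 f_pm_202_bb t 1 1 1 = true :=
  ⟨(l 3), by decide +kernel⟩

theorem c_pm_202_bb : CertN 1239849684 370763052 1239849684 370763052 134217728 67108864 3 false true false .pp 2 0 2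
    ndN2q2b ndN1q2b pcN0 cut_pm_202_bb Ext.none :=
  certN0 (fam := false) (s1 := true) (s2 := false) (a := 2) (b := 0) (c := 2) (cn := .pp) (n1 := ndN2q2b) (n2 := ndN1q2b) (pc := pcN0) (cut := cut_pm_202_bb) (xt := Ext.none) (P1 := 1239849684) (W1 := 370763052) (P2 := 1239849684) (W2 := 370763052) (P3 := 134217728) (W3 := 67108864) (N0 := 3)
    rfl k0_pm_202_bb

noncomputable def f_pm_203_a : ℕ → ℕ → ℕ → ℕ → Bool := onCell 0 536870912 0 536870912 134217728 67108864
    (rowN 3 1 false true false .up 2 0 3 (qsf 0 536870912 1610612736 536870912 0) ndN2q2a ndN1q3 pcN0 Cut.none Ext.none)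

def k0_pm_203_a : ∃ t, chk3 f_pm_203_a t 1 1 1 = true :=
  ⟨(l 3), by decide +kernel⟩

theorem c_pm_203_a : CertN 0 536870912 1610612736 536870912 134217728 67108864 3 false true false .up 2 0 3
    ndN2q2a ndN1q3 pcN0 Cut.none Ext.none :=
  certN1 (fam := false) (s1 := true) (s2 := false) (a := 2) (b := 0) (c := 3) (cn := .up) (n1 := ndN2q2a) (n2 := ndN1q3) (pc := pcN0) (cut := Cut.none) (xt := Ext.none) (P1 := 0) (W1 := 536870912) (P2 := 1610612736) (W2 := 536870912) (P3 := 134217728) (W3 := 67108864) (N0 := 3)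
    rfl (fun _ => rfl) k0_pm_203_a

noncomputable def f_pm_203_b : ℕ → ℕ → ℕ → ℕ → Bool := onCell 1239849684 370763052 1610612736 536870912 134217728 67108864
    (rowN 3 0 false true false .up 2 0 3 (qsf 1239849684 370763052 1610612736 536870912 0) ndN2q2b ndN1q3 pcN0 Cut.none Ext.none)

def k0_pm_203_b : ∃ t, chk3 f_pm_203_b t 1 1 1 = true :=
  ⟨(l 3), by decide +kernel⟩

theorem c_pm_203_b : CertN 1239849684 370763052 1610612736 536870912 134217728 67108864 3 false true false .up 2 0 3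
    ndN2q2b ndN1q3 pcN0 Cut.none Ext.none :=
  certN0 (fam := false) (s1 := true) (s2 := false) (a := 2) (b := 0) (c := 3) (cn := .up) (n1 := ndN2q2b) (n2 := ndN1q3) (pc := pcN0) (cut := Cut.none) (xt := Ext.none) (P1 := 1239849684) (W1 := 370763052) (P2 := 1610612736) (W2 := 536870912) (P3 := 134217728) (W3 := 67108864) (N0 := 3)
    rfl k0_pm_203_b

noncomputable def cut_pm_213_a : Cut := Cut.of [[⟨0, 1, 0, 39843005⟩, ⟨1, 1, 0, 39843005⟩, ⟨2, 2, 0, 5814905⟩]]

noncomputable def f_pm_213_a : ℕ → ℕ → ℕ → ℕ → Bool := onCell 0 536870912 1610612736 536870912 134217728 67108864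
    (rowN 3 0 false true false .pnn 2 1 3 (qsf 0 536870912 1610612736 536870912 1) ndN2q2a ndN1q3 pcN1 cut_pm_213_a Ext.none)

def k0_pm_213_a : ∃ t, chk3 f_pm_213_a t 1 1 1 = true :=
  ⟨(b (l 3) (a (l 3) (b (l 3) (a (l 3) (b (l 3) (a (l 3) (a (l 3) (b (l 3) (a (l 3) (b (l 3) (b (l 3) (b (l 3) (l 6))))))))))))), by decide +kernel⟩

theorem c_pm_213_a : CertN 0 536870912 1610612736 536870912 134217728 67108864 3 false true false .pnn 2 1 3
    ndN2q2a ndN1q3 pcN1 cut_pm_213_a Ext.none :=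
  certN0 (fam := false) (s1 := true) (s2 := false) (a := 2) (b := 1) (c := 3) (cn := .pnn) (n1 := ndN2q2a) (n2 := ndN1q3) (pc := pcN1) (cut := cut_pm_213_a) (xt := Ext.none) (P1 := 0) (W1 := 536870912) (P2 := 1610612736) (W2 := 536870912) (P3 := 134217728) (W3 := 67108864) (N0 := 3)
    rfl k0_pm_213_a

noncomputable def cut_pm_213_b : Cut := Cut.of [[⟨0, 1, 0, 39843005⟩, ⟨1, 1, 0, 39843005⟩, ⟨2, 2, 0, 5814905⟩]]

noncomputable def f_pm_213_b : ℕ → ℕ → ℕ → ℕ → Bool := onCell 1239849684 370763052 1610612736 536870912 134217728 67108864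
    (rowN 3 0 false true false .pnn 2 1 3 (qsf 1239849684 370763052 1610612736 536870912 1) ndN2q2b ndN1q3 pcN1 cut_pm_213_b Ext.none)

def k0_pm_213_b : ∃ t, chk3 f_pm_213_b t 1 1 1 = true :=
  ⟨(l 3), by decide +kernel⟩

theorem c_pm_213_b : CertN 1239849684 370763052 1610612736 536870912 134217728 67108864 3 false true false .pnn 2 1 3
    ndN2q2b ndN1q3 pcN1 cut_pm_213_b Ext.none :=
  certN0 (fam := false) (s1 := true) (s2 := false) (a := 2) (b := 1) (c := 3) (cn := .pnn) (n1 := ndN2q2b) (n2 := ndN1q3) (pc := pcN1) (cut := cut_pm_213_b) (xt := Ext.none) (P1 := 1239849684) (W1 := 370763052) (P2 := 1610612736) (W2 := 536870912) (P3 := 134217728) (W3 := 67108864) (N0 := 3)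
    rfl k0_pm_213_b

noncomputable def f_pm_303 : ℕ → ℕ → ℕ → ℕ → Bool := onCell 1610612736 536870912 1610612736 536870912 134217728 67108864
    (rowN 3 0 false true false .npn 3 0 3 (qsf 1610612736 536870912 1610612736 536870912 0) ndN2q3 ndN1q3 pcN0 Cut.none Ext.none)

def k0_pm_303 : ∃ t, chk3 f_pm_303 t 1 1 1 = true :=
  ⟨(l 3), by decide +kernel⟩

theorem c_pm_303 : CertN 1610612736 536870912 1610612736 536870912 134217728 67108864 3 false true false .npn 3 0 3
    ndN2q3 ndN1q3 pcN0 Cut.none Ext.none :=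
  certN0 (fam := false) (s1 := true) (s2 := false) (a := 3) (b := 0) (c := 3) (cn := .npn) (n1 := ndN2q3) (n2 := ndN1q3) (pc := pcN0) (cut := Cut.none) (xt := Ext.none) (P1 := 1610612736) (W1 := 536870912) (P2 := 1610612736) (W2 := 536870912) (P3 := 134217728) (W3 := 67108864) (N0 := 3)
    rfl k0_pm_303

noncomputable def f_pm_313 : ℕ → ℕ → ℕ → ℕ → Bool := onCell 1610612736 536870912 1610612736 536870912 134217728 67108864
    (rowN 3 0 false true false .dn 3 1 3 (qsf 1610612736 536870912 1610612736 536870912 1) ndN2q3 ndN1q3 pcN1 Cut.none Ext.none)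

def k0_pm_313 : ∃ t, chk3 f_pm_313 t 1 1 1 = true :=
  ⟨(l 3), by decide +kernel⟩

theorem c_pm_313 : CertN 1610612736 536870912 1610612736 536870912 134217728 67108864 3 false true false .dn 3 1 3
    ndN2q3 ndN1q3 pcN1 Cut.none Ext.none :=
  certN0 (fam := false) (s1 := true) (s2 := false) (a := 3) (b := 1) (c := 3) (cn := .dn) (n1 := ndN2q3) (n2 := ndN1q3) (pc := pcN1) (cut := Cut.none) (xt := Ext.none) (P1 := 1610612736) (W1 := 536870912) (P2 := 1610612736) (W2 := 536870912) (P3 := 134217728) (W3 := 67108864) (N0 := 3)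
    rfl k0_pm_313

noncomputable def f_mm_001 : ℕ → ℕ → ℕ → ℕ → Bool := onCell 0 536870912 536870912 536870912 134217728 67108864
    (rowN 3 0 false false false .up 0 0 1 (qsf 0 536870912 536870912 536870912 0) ndN2q0 ndN1q1 pcN0 Cut.none Ext.none)

def k0_mm_001 : ∃ t, chk3 f_mm_001 t 1 1 1 = true :=
  ⟨(l 3), by decide +kernel⟩

theorem c_mm_001 : CertN 0 536870912 536870912 536870912 134217728 67108864 3 false false false .up 0 0 1
    ndN2q0 ndN1q1 pcN0 Cut.none Ext.none :=
  certN0 (fam := false) (s1 := false) (s2 := false) (a := 0) (b := 0) (c := 1) (cn := .up) (n1 := ndN2q0) (n2 := ndN1q1) (pc := pcN0) (cut := Cut.none) (xt := Ext.none) (P1 := 0) (W1 := 536870912) (P2 := 536870912) (W2 := 536870912) (P3 := 134217728) (W3 := 67108864) (N0 := 3)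
    rfl k0_mm_001

noncomputable def f_mm_011 : ℕ → ℕ → ℕ → ℕ → Bool := onCell 0 536870912 536870912 536870912 134217728 67108864
    (rowN 3 0 false false false .pnn 0 1 1 (qsf 0 536870912 536870912 536870912 1) ndN2q0 ndN1q1 pcN1 Cut.none Ext.none)

def k0_mm_011 : ∃ t, chk3 f_mm_011 t 1 1 1 = true :=
  ⟨(l 3), by decide +kernel⟩

theorem c_mm_011 : CertN 0 536870912 536870912 536870912 134217728 67108864 3 false false false .pnn 0 1 1
    ndN2q0 ndN1q1 pcN1 Cut.none Ext.none :=
  certN0 (fam := false) (s1 := false) (s2 := false) (a := 0) (b := 1) (c := 1) (cn := .pnn) (n1 := ndN2q0) (n2 := ndN1q1) (pc := pcN1) (cut := Cut.none) (xt := Ext.none) (P1 := 0) (W1 := 536870912) (P2 := 536870912) (W2 := 536870912) (P3 := 134217728) (W3 := 67108864) (N0 := 3)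
    rfl k0_mm_011

noncomputable def f_mm_012_a : ℕ → ℕ → ℕ → ℕ → Bool := onCell 0 536870912 0 536870912 134217728 67108864
    (rowN 3 0 false false false .pnp 0 1 2 (qsf 0 536870912 0 536870912 1) ndN2q0 ndN1q2a pcN1 Cut.none Ext.none)

def k0_mm_012_a : ∃ t, chk3 f_mm_012_a t 1 1 1 = true :=
  ⟨(l 5), by decide +kernel⟩

theorem c_mm_012_a : CertN 0 536870912 0 536870912 134217728 67108864 3 false false false .pnp 0 1 2
    ndN2q0 ndN1q2a pcN1 Cut.none Ext.none :=
  certN0 (fam := false) (s1 := false) (s2 := false) (a := 0) (b := 1) (c := 2) (cn := .pnp) (n1 := ndN2q0) (n2 := ndN1q2a) (pc := pcN1) (cut := Cut.none) (xt := Ext.none) (P1 := 0) (W1 := 536870912) (P2 := 0) (W2 := 536870912) (P3 := 134217728) (W3 := 67108864) (N0 := 3)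
    rfl k0_mm_012_a

noncomputable def f_mm_012_b : ℕ → ℕ → ℕ → ℕ → Bool := onCell 0 536870912 1239849684 370763052 134217728 67108864
    (rowN 3 0 false false false .pnp 0 1 2 (qsf 0 536870912 1239849684 370763052 1) ndN2q0 ndN1q2b pcN1 Cut.none Ext.none)

def k0_mm_012_b : ∃ t, chk3 f_mm_012_b t 1 1 1 = true :=
  ⟨(l 5), by decide +kernel⟩

theorem c_mm_012_b : CertN 0 536870912 1239849684 370763052 134217728 67108864 3 false false false .pnp 0 1 2
    ndN2q0 ndN1q2b pcN1 Cut.none Ext.none :=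
  certN0 (fam := false) (s1 := false) (s2 := false) (a := 0) (b := 1) (c := 2) (cn := .pnp) (n1 := ndN2q0) (n2 := ndN1q2b) (pc := pcN1) (cut := Cut.none) (xt := Ext.none) (P1 := 0) (W1 := 536870912) (P2 := 1239849684) (W2 := 370763052) (P3 := 134217728) (W3 := 67108864) (N0 := 3)
    rfl k0_mm_012_b

noncomputable def f_mm_022_a : ℕ → ℕ → ℕ → ℕ → Bool := onCell 0 536870912 0 536870912 134217728 67108864
    (rowN 3 0 false false false .pp 0 2 2 (qsf 0 536870912 0 536870912 2) ndN2q0 ndN1q2a pcN2 Cut.none Ext.none)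

def k0_mm_022_a : ∃ t, chk3 f_mm_022_a t 1 1 1 = true :=
  ⟨(l 5), by decide +kernel⟩

theorem c_mm_022_a : CertN 0 536870912 0 536870912 134217728 67108864 3 false false false .pp 0 2 2
    ndN2q0 ndN1q2a pcN2 Cut.none Ext.none :=
  certN0 (fam := false) (s1 := false) (s2 := false) (a := 0) (b := 2) (c := 2) (cn := .pp) (n1 := ndN2q0) (n2 := ndN1q2a) (pc := pcN2) (cut := Cut.none) (xt := Ext.none) (P1 := 0) (W1 := 536870912) (P2 := 0) (W2 := 536870912) (P3 := 134217728) (W3 := 67108864) (N0 := 3)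
    rfl k0_mm_022_a

noncomputable def f_mm_022_b : ℕ → ℕ → ℕ → ℕ → Bool := onCell 0 536870912 1239849684 370763052 134217728 67108864
    (rowN 3 0 false false false .pp 0 2 2 (qsf 0 536870912 1239849684 370763052 2) ndN2q0 ndN1q2b pcN2 Cut.none Ext.none)

def k0_mm_022_b : ∃ t, chk3 f_mm_022_b t 1 1 1 = true :=
  ⟨(l 5), by decide +kernel⟩

theorem c_mm_022_b : CertN 0 536870912 1239849684 370763052 134217728 67108864 3 false false false .pp 0 2 2
    ndN2q0 ndN1q2b pcN2 Cut.none Ext.none :=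
  certN0 (fam := false) (s1 := false) (s2 := false) (a := 0) (b := 2) (c := 2) (cn := .pp) (n1 := ndN2q0) (n2 := ndN1q2b) (pc := pcN2) (cut := Cut.none) (xt := Ext.none) (P1 := 0) (W1 := 536870912) (P2 := 1239849684) (W2 := 370763052) (P3 := 134217728) (W3 := 67108864) (N0 := 3)
    rfl k0_mm_022_b

noncomputable def f_mm_023 : ℕ → ℕ → ℕ → ℕ → Bool := onCell 0 536870912 1610612736 536870912 134217728 67108864
    (rowN 3 0 false false false .up 0 2 3 (qsf 0 536870912 1610612736 536870912 2) ndN2q0 ndN1q3 pcN2 Cut.none Ext.none)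

def k0_mm_023 : ∃ t, chk3 f_mm_023 t 1 1 1 = true :=
  ⟨(l 5), by decide +kernel⟩

theorem c_mm_023 : CertN 0 536870912 1610612736 536870912 134217728 67108864 3 false false false .up 0 2 3
    ndN2q0 ndN1q3 pcN2 Cut.none Ext.none :=
  certN0 (fam := false) (s1 := false) (s2 := false) (a := 0) (b := 2) (c := 3) (cn := .up) (n1 := ndN2q0) (n2 := ndN1q3) (pc := pcN2) (cut := Cut.none) (xt := Ext.none) (P1 := 0) (W1 := 536870912) (P2 := 1610612736) (W2 := 536870912) (P3 := 134217728) (W3 := 67108864) (N0 := 3)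
    rfl k0_mm_023

noncomputable def f_mm_033 : ℕ → ℕ → ℕ → ℕ → Bool := onCell 0 536870912 1610612736 536870912 134217728 67108864
    (rowN 3 0 false false false .pnn 0 3 3 (qsf 0 536870912 1610612736 536870912 3) ndN2q0 ndN1q3 pcN3 Cut.none Ext.none)

def k0_mm_033 : ∃ t, chk3 f_mm_033 t 1 1 1 = true :=
  ⟨(l 5), by decide +kernel⟩

theorem c_mm_033 : CertN 0 536870912 1610612736 536870912 134217728 67108864 3 false false false .pnn 0 3 3
    ndN2q0 ndN1q3 pcN3 Cut.none Ext.none :=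
  certN0 (fam := false) (s1 := false) (s2 := false) (a := 0) (b := 3) (c := 3) (cn := .pnn) (n1 := ndN2q0) (n2 := ndN1q3) (pc := pcN3) (cut := Cut.none) (xt := Ext.none) (P1 := 0) (W1 := 536870912) (P2 := 1610612736) (W2 := 536870912) (P3 := 134217728) (W3 := 67108864) (N0 := 3)
    rfl k0_mm_033

noncomputable def f_mm_101 : ℕ → ℕ → ℕ → ℕ → Bool := onCell 536870912 536870912 536870912 536870912 134217728 67108864
    (rowN 3 0 false false false .npn 1 0 1 (qsf 536870912 536870912 536870912 536870912 0) ndN2q1 ndN1q1 pcN0 Cut.none Ext.none)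

def k0_mm_101 : ∃ t, chk3 f_mm_101 t 1 1 1 = true :=
  ⟨(l 3), by decide +kernel⟩

theorem c_mm_101 : CertN 536870912 536870912 536870912 536870912 134217728 67108864 3 false false false .npn 1 0 1
    ndN2q1 ndN1q1 pcN0 Cut.none Ext.none :=
  certN0 (fam := false) (s1 := false) (s2 := false) (a := 1) (b := 0) (c := 1) (cn := .npn) (n1 := ndN2q1) (n2 := ndN1q1) (pc := pcN0) (cut := Cut.none) (xt := Ext.none) (P1 := 536870912) (W1 := 536870912) (P2 := 536870912) (W2 := 536870912) (P3 := 134217728) (W3 := 67108864) (N0 := 3)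
    rfl k0_mm_101

noncomputable def f_mm_102_a : ℕ → ℕ → ℕ → ℕ → Bool := onCell 536870912 536870912 0 536870912 134217728 67108864
    (rowN 3 0 false false false .npp 1 0 2 (qsf 536870912 536870912 0 536870912 0) ndN2q1 ndN1q2a pcN0 Cut.none Ext.none)

def k0_mm_102_a : ∃ t, chk3 f_mm_102_a t 1 1 1 = true :=
  ⟨(l 5), by decide +kernel⟩

theorem c_mm_102_a : CertN 536870912 536870912 0 536870912 134217728 67108864 3 false false false .npp 1 0 2
    ndN2q1 ndN1q2a pcN0 Cut.none Ext.none :=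
  certN0 (fam := false) (s1 := false) (s2 := false) (a := 1) (b := 0) (c := 2) (cn := .npp) (n1 := ndN2q1) (n2 := ndN1q2a) (pc := pcN0) (cut := Cut.none) (xt := Ext.none) (P1 := 536870912) (W1 := 536870912) (P2 := 0) (W2 := 536870912) (P3 := 134217728) (W3 := 67108864) (N0 := 3)
    rfl k0_mm_102_a

noncomputable def f_mm_102_b : ℕ → ℕ → ℕ → ℕ → Bool := onCell 536870912 536870912 1239849684 370763052 134217728 67108864
    (rowN 3 0 false false false .npp 1 0 2 (qsf 536870912 536870912 1239849684 370763052 0) ndN2q1 ndN1q2b pcN0 Cut.none Ext.none)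

def k0_mm_102_b : ∃ t, chk3 f_mm_102_b t 1 1 1 = true :=
  ⟨(l 5), by decide +kernel⟩

theorem c_mm_102_b : CertN 536870912 536870912 1239849684 370763052 134217728 67108864 3 false false false .npp 1 0 2
    ndN2q1 ndN1q2b pcN0 Cut.none Ext.none :=
  certN0 (fam := false) (s1 := false) (s2 := false) (a := 1) (b := 0) (c := 2) (cn := .npp) (n1 := ndN2q1) (n2 := ndN1q2b) (pc := pcN0) (cut := Cut.none) (xt := Ext.none) (P1 := 536870912) (W1 := 536870912) (P2 := 1239849684) (W2 := 370763052) (P3 := 134217728) (W3 := 67108864) (N0 := 3)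
    rfl k0_mm_102_b

noncomputable def f_mm_112_a : ℕ → ℕ → ℕ → ℕ → Bool := onCell 536870912 536870912 0 536870912 134217728 67108864
    (rowN 3 0 false false false .dn 1 1 2 (qsf 536870912 536870912 0 536870912 1) ndN2q1 ndN1q2a pcN1 Cut.none Ext.none)

def k0_mm_112_a : ∃ t, chk3 f_mm_112_a t 1 1 1 = true :=
  ⟨(l 5), by decide +kernel⟩

theorem c_mm_112_a : CertN 536870912 536870912 0 536870912 134217728 67108864 3 false false false .dn 1 1 2
    ndN2q1 ndN1q2a pcN1 Cut.none Ext.none :=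
  certN0 (fam := false) (s1 := false) (s2 := false) (a := 1) (b := 1) (c := 2) (cn := .dn) (n1 := ndN2q1) (n2 := ndN1q2a) (pc := pcN1) (cut := Cut.none) (xt := Ext.none) (P1 := 536870912) (W1 := 536870912) (P2 := 0) (W2 := 536870912) (P3 := 134217728) (W3 := 67108864) (N0 := 3)
    rfl k0_mm_112_a

noncomputable def f_mm_112_b : ℕ → ℕ → ℕ → ℕ → Bool := onCell 536870912 536870912 1239849684 370763052 134217728 67108864
    (rowN 3 0 false false false .dn 1 1 2 (qsf 536870912 536870912 1239849684 370763052 1) ndN2q1 ndN1q2b pcN1 Cut.none Ext.none)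

def k0_mm_112_b : ∃ t, chk3 f_mm_112_b t 1 1 1 = true :=
  ⟨(l 5), by decide +kernel⟩

theorem c_mm_112_b : CertN 536870912 536870912 1239849684 370763052 134217728 67108864 3 false false false .dn 1 1 2
    ndN2q1 ndN1q2b pcN1 Cut.none Ext.none :=
  certN0 (fam := false) (s1 := false) (s2 := false) (a := 1) (b := 1) (c := 2) (cn := .dn) (n1 := ndN2q1) (n2 := ndN1q2b) (pc := pcN1) (cut := Cut.none) (xt := Ext.none) (P1 := 536870912) (W1 := 536870912) (P2 := 1239849684) (W2 := 370763052) (P3 := 134217728) (W3 := 67108864) (N0 := 3)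
    rfl k0_mm_112_b

noncomputable def f_mm_113 : ℕ → ℕ → ℕ → ℕ → Bool := onCell 536870912 536870912 1610612736 536870912 134217728 67108864
    (rowN 3 0 false false false .nn 1 1 3 (qsf 536870912 536870912 1610612736 536870912 1) ndN2q1 ndN1q3 pcN1 Cut.none Ext.none)

def k0_mm_113 : ∃ t, chk3 f_mm_113 t 1 1 1 = true :=
  ⟨(l 5), by decide +kernel⟩

theorem c_mm_113 : CertN 536870912 536870912 1610612736 536870912 134217728 67108864 3 false false false .nn 1 1 3
    ndN2q1 ndN1q3 pcN1 Cut.none Ext.none :=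
  certN0 (fam := false) (s1 := false) (s2 := false) (a := 1) (b := 1) (c := 3) (cn := .nn) (n1 := ndN2q1) (n2 := ndN1q3) (pc := pcN1) (cut := Cut.none) (xt := Ext.none) (P1 := 536870912) (W1 := 536870912) (P2 := 1610612736) (W2 := 536870912) (P3 := 134217728) (W3 := 67108864) (N0 := 3)
    rfl k0_mm_113

noncomputable def f_mm_123 : ℕ → ℕ → ℕ → ℕ → Bool := onCell 536870912 536870912 1610612736 536870912 134217728 67108864
    (rowN 3 0 false false false .npn 1 2 3 (qsf 536870912 536870912 1610612736 536870912 2) ndN2q1 ndN1q3 pcN2 Cut.none Ext.none)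

def k0_mm_123 : ∃ t, chk3 f_mm_123 t 1 1 1 = true :=
  ⟨(l 5), by decide +kernel⟩

theorem c_mm_123 : CertN 536870912 536870912 1610612736 536870912 134217728 67108864 3 false false false .npn 1 2 3
    ndN2q1 ndN1q3 pcN2 Cut.none Ext.none :=
  certN0 (fam := false) (s1 := false) (s2 := false) (a := 1) (b := 2) (c := 3) (cn := .npn) (n1 := ndN2q1) (n2 := ndN1q3) (pc := pcN2) (cut := Cut.none) (xt := Ext.none) (P1 := 536870912) (W1 := 536870912) (P2 := 1610612736) (W2 := 536870912) (P3 := 134217728) (W3 := 67108864) (N0 := 3)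
    rfl k0_mm_123

noncomputable def f_mm_133 : ℕ → ℕ → ℕ → ℕ → Bool := onCell 536870912 536870912 1610612736 536870912 134217728 67108864
    (rowN 3 0 false false false .dn 1 3 3 (qsf 536870912 536870912 1610612736 536870912 3) ndN2q1 ndN1q3 pcN3 Cut.none Ext.none)

def k0_mm_133 : ∃ t, chk3 f_mm_133 t 1 1 1 = true :=
  ⟨(l 5), by decide +kernel⟩

theorem c_mm_133 : CertN 536870912 536870912 1610612736 536870912 134217728 67108864 3 false false false .dn 1 3 3
    ndN2q1 ndN1q3 pcN3 Cut.none Ext.none :=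
  certN0 (fam := false) (s1 := false) (s2 := false) (a := 1) (b := 3) (c := 3) (cn := .dn) (n1 := ndN2q1) (n2 := ndN1q3) (pc := pcN3) (cut := Cut.none) (xt := Ext.none) (P1 := 536870912) (W1 := 536870912) (P2 := 1610612736) (W2 := 536870912) (P3 := 134217728) (W3 := 67108864) (N0 := 3)
    rfl k0_mm_133

noncomputable def f_mm_202_aa : ℕ → ℕ → ℕ → ℕ → Bool := onCell 0 536870912 0 536870912 134217728 67108864
    (rowN 3 0 false false false .pp 2 0 2 (qsf 0 536870912 0 536870912 0) ndN2q2a ndN1q2a pcN0 Cut.none Ext.none)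

def k0_mm_202_aa : ∃ t, chk3 f_mm_202_aa t 1 1 1 = true :=
  ⟨(l 3), by decide +kernel⟩

theorem c_mm_202_aa : CertN 0 536870912 0 536870912 134217728 67108864 3 false false false .pp 2 0 2
    ndN2q2a ndN1q2a pcN0 Cut.none Ext.none :=
  certN0 (fam := false) (s1 := false) (s2 := false) (a := 2) (b := 0) (c := 2) (cn := .pp) (n1 := ndN2q2a) (n2 := ndN1q2a) (pc := pcN0) (cut := Cut.none) (xt := Ext.none) (P1 := 0) (W1 := 536870912) (P2 := 0) (W2 := 536870912) (P3 := 134217728) (W3 := 67108864) (N0 := 3)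
    rfl k0_mm_202_aa

noncomputable def f_mm_202_ab : ℕ → ℕ → ℕ → ℕ → Bool := onCell 0 536870912 1239849684 370763052 134217728 67108864
    (rowN 3 0 false false false .pp 2 0 2 (qsf 0 536870912 1239849684 370763052 0) ndN2q2a ndN1q2b pcN0 Cut.none Ext.none)

def k0_mm_202_ab : ∃ t, chk3 f_mm_202_ab t 1 1 1 = true :=
  ⟨(l 3), by decide +kernel⟩

theorem c_mm_202_ab : CertN 0 536870912 1239849684 370763052 134217728 67108864 3 false false false .pp 2 0 2
    ndN2q2a ndN1q2b pcN0 Cut.none Ext.none :=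
  certN0 (fam := false) (s1 := false) (s2 := false) (a := 2) (b := 0) (c := 2) (cn := .pp) (n1 := ndN2q2a) (n2 := ndN1q2b) (pc := pcN0) (cut := Cut.none) (xt := Ext.none) (P1 := 0) (W1 := 536870912) (P2 := 1239849684) (W2 := 370763052) (P3 := 134217728) (W3 := 67108864) (N0 := 3)
    rfl k0_mm_202_ab

noncomputable def f_mm_202_ba : ℕ → ℕ → ℕ → ℕ → Bool := onCell 1239849684 370763052 0 536870912 134217728 67108864
    (rowN 3 0 false false false .pp 2 0 2 (qsf 1239849684 370763052 0 536870912 0) ndN2q2b ndN1q2a pcN0 Cut.none Ext.none)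

def k0_mm_202_ba : ∃ t, chk3 f_mm_202_ba t 1 1 1 = true :=
  ⟨(l 3), by decide +kernel⟩

theorem c_mm_202_ba : CertN 1239849684 370763052 0 536870912 134217728 67108864 3 false false false .pp 2 0 2
    ndN2q2b ndN1q2a pcN0 Cut.none Ext.none :=
  certN0 (fam := false) (s1 := false) (s2 := false) (a := 2) (b := 0) (c := 2) (cn := .pp) (n1 := ndN2q2b) (n2 := ndN1q2a) (pc := pcN0) (cut := Cut.none) (xt := Ext.none) (P1 := 1239849684) (W1 := 370763052) (P2 := 0) (W2 := 536870912) (P3 := 134217728) (W3 := 67108864) (N0 := 3)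
    rfl k0_mm_202_ba

noncomputable def f_mm_202_bb : ℕ → ℕ → ℕ → ℕ → Bool := onCell 1239849684 370763052 1239849684 370763052 134217728 67108864
    (rowN 3 0 false false false .pp 2 0 2 (qsf 1239849684 370763052 1239849684 370763052 0) ndN2q2b ndN1q2b pcN0 Cut.none Ext.none)

def k0_mm_202_bb : ∃ t, chk3 f_mm_202_bb t 1 1 1 = true :=
  ⟨(l 3), by decide +kernel⟩

theorem c_mm_202_bb : CertN 1239849684 370763052 1239849684 370763052 134217728 67108864 3 false false false .pp 2 0 2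
    ndN2q2b ndN1q2b pcN0 Cut.none Ext.none :=
  certN0 (fam := false) (s1 := false) (s2 := false) (a := 2) (b := 0) (c := 2) (cn := .pp) (n1 := ndN2q2b) (n2 := ndN1q2b) (pc := pcN0) (cut := Cut.none) (xt := Ext.none) (P1 := 1239849684) (W1 := 370763052) (P2 := 1239849684) (W2 := 370763052) (P3 := 134217728) (W3 := 67108864) (N0 := 3)
    rfl k0_mm_202_bb

noncomputable def f_mm_203_a : ℕ → ℕ → ℕ → ℕ → Bool := onCell 0 536870912 1610612736 536870912 134217728 67108864
    (rowN 3 0 false false false .up 2 0 3 (qsf 0 536870912 1610612736 536870912 0) ndN2q2a ndN1q3 pcN0 Cut.none Ext.none)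

def k0_mm_203_a : ∃ t, chk3 f_mm_203_a t 1 1 1 = true :=
  ⟨(l 5), by decide +kernel⟩

theorem c_mm_203_a : CertN 0 536870912 1610612736 536870912 134217728 67108864 3 false false false .up 2 0 3
    ndN2q2a ndN1q3 pcN0 Cut.none Ext.none :=
  certN0 (fam := false) (s1 := false) (s2 := false) (a := 2) (b := 0) (c := 3) (cn := .up) (n1 := ndN2q2a) (n2 := ndN1q3) (pc := pcN0) (cut := Cut.none) (xt := Ext.none) (P1 := 0) (W1 := 536870912) (P2 := 1610612736) (W2 := 536870912) (P3 := 134217728) (W3 := 67108864) (N0 := 3)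
    rfl k0_mm_203_a

noncomputable def f_mm_203_b : ℕ → ℕ → ℕ → ℕ → Bool := onCell 1239849684 370763052 1610612736 536870912 134217728 67108864
    (rowN 3 0 false false false .up 2 0 3 (qsf 1239849684 370763052 1610612736 536870912 0) ndN2q2b ndN1q3 pcN0 Cut.none Ext.none)

def k0_mm_203_b : ∃ t, chk3 f_mm_203_b t 1 1 1 = true :=
  ⟨(l 3), by decide +kernel⟩

theorem c_mm_203_b : CertN 1239849684 370763052 1610612736 536870912 134217728 67108864 3 false false false .up 2 0 3
    ndN2q2b ndN1q3 pcN0 Cut.none Ext.none :=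
  certN0 (fam := false) (s1 := false) (s2 := false) (a := 2) (b := 0) (c := 3) (cn := .up) (n1 := ndN2q2b) (n2 := ndN1q3) (pc := pcN0) (cut := Cut.none) (xt := Ext.none) (P1 := 1239849684) (W1 := 370763052) (P2 := 1610612736) (W2 := 536870912) (P3 := 134217728) (W3 := 67108864) (N0 := 3)
    rfl k0_mm_203_b

noncomputable def f_mm_213_a : ℕ → ℕ → ℕ → ℕ → Bool := onCell 0 536870912 1610612736 536870912 134217728 67108864
    (rowN 3 0 false false false .pnn 2 1 3 (qsf 0 536870912 1610612736 536870912 1) ndN2q2a ndN1q3 pcN1 Cut.none Ext.none)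

def k0_mm_213_a : ∃ t, chk3 f_mm_213_a t 1 1 1 = true :=
  ⟨(l 5), by decide +kernel⟩

theorem c_mm_213_a : CertN 0 536870912 1610612736 536870912 134217728 67108864 3 false false false .pnn 2 1 3
    ndN2q2a ndN1q3 pcN1 Cut.none Ext.none :=
  certN0 (fam := false) (s1 := false) (s2 := false) (a := 2) (b := 1) (c := 3) (cn := .pnn) (n1 := ndN2q2a) (n2 := ndN1q3) (pc := pcN1) (cut := Cut.none) (xt := Ext.none) (P1 := 0) (W1 := 536870912) (P2 := 1610612736) (W2 := 536870912) (P3 := 134217728) (W3 := 67108864) (N0 := 3)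
    rfl k0_mm_213_a

noncomputable def f_mm_213_b : ℕ → ℕ → ℕ → ℕ → Bool := onCell 1239849684 370763052 1610612736 536870912 134217728 67108864
    (rowN 3 0 false false false .pnn 2 1 3 (qsf 1239849684 370763052 1610612736 536870912 1) ndN2q2b ndN1q3 pcN1 Cut.none Ext.none)

def k0_mm_213_b : ∃ t, chk3 f_mm_213_b t 1 1 1 = true :=
  ⟨(l 3), by decide +kernel⟩

theorem c_mm_213_b : CertN 1239849684 370763052 1610612736 536870912 134217728 67108864 3 false false false .pnn 2 1 3
    ndN2q2b ndN1q3 pcN1 Cut.none Ext.none :=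
  certN0 (fam := false) (s1 := false) (s2 := false) (a := 2) (b := 1) (c := 3) (cn := .pnn) (n1 := ndN2q2b) (n2 := ndN1q3) (pc := pcN1) (cut := Cut.none) (xt := Ext.none) (P1 := 1239849684) (W1 := 370763052) (P2 := 1610612736) (W2 := 536870912) (P3 := 134217728) (W3 := 67108864) (N0 := 3)
    rfl k0_mm_213_b

noncomputable def f_mm_303 : ℕ → ℕ → ℕ → ℕ → Bool := onCell 1610612736 536870912 1610612736 536870912 134217728 67108864
    (rowN 3 0 false false false .npn 3 0 3 (qsf 1610612736 536870912 1610612736 536870912 0) ndN2q3 ndN1q3 pcN0 Cut.none Ext.none)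

def k0_mm_303 : ∃ t, chk3 f_mm_303 t 1 1 1 = true :=
  ⟨(l 3), by decide +kernel⟩

theorem c_mm_303 : CertN 1610612736 536870912 1610612736 536870912 134217728 67108864 3 false false false .npn 3 0 3
    ndN2q3 ndN1q3 pcN0 Cut.none Ext.none :=
  certN0 (fam := false) (s1 := false) (s2 := false) (a := 3) (b := 0) (c := 3) (cn := .npn) (n1 := ndN2q3) (n2 := ndN1q3) (pc := pcN0) (cut := Cut.none) (xt := Ext.none) (P1 := 1610612736) (W1 := 536870912) (P2 := 1610612736) (W2 := 536870912) (P3 := 134217728) (W3 := 67108864) (N0 := 3)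
    rfl k0_mm_303

noncomputable def f_mm_313 : ℕ → ℕ → ℕ → ℕ → Bool := onCell 1610612736 536870912 1610612736 536870912 134217728 67108864
    (rowN 3 0 false false false .dn 3 1 3 (qsf 1610612736 536870912 1610612736 536870912 1) ndN2q3 ndN1q3 pcN1 Cut.none Ext.none)

def k0_mm_313 : ∃ t, chk3 f_mm_313 t 1 1 1 = true :=
  ⟨(l 3), by decide +kernel⟩

theorem c_mm_313 : CertN 1610612736 536870912 1610612736 536870912 134217728 67108864 3 false false false .dn 3 1 3
    ndN2q3 ndN1q3 pcN1 Cut.none Ext.none :=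
  certN0 (fam := false) (s1 := false) (s2 := false) (a := 3) (b := 1) (c := 3) (cn := .dn) (n1 := ndN2q3) (n2 := ndN1q3) (pc := pcN1) (cut := Cut.none) (xt := Ext.none) (P1 := 1610612736) (W1 := 536870912) (P2 := 1610612736) (W2 := 536870912) (P3 := 134217728) (W3 := 67108864) (N0 := 3)
    rfl k0_mm_313

end Pool.Agent.Strip051.G.I1_8_3_16.Tab.C.NB21

namespace Pool.Agent.Strip051.G.I1_8_3_16.Tab.C.NB22

open Pool.Agent.Strip051.PB Pool.Agent.Strip051.PB.T
open Pool.Agent.Strip051.G.I1_8_3_16.Tab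

noncomputable def f_pp_001 : ℕ → ℕ → ℕ → ℕ → Bool := onCell 0 536870912 0 536870912 134217728 67108864
    (rowN 3 1 false true true .up 0 0 1 (qsf 0 536870912 536870912 536870912 0) ndN2q0 ndN2q1 pcN0 Cut.none Ext.none)

def k0_pp_001 : ∃ t, chk3 f_pp_001 t 1 1 1 = true :=
  ⟨(l 3), by decide +kernel⟩

theorem c_pp_001 : CertN 0 536870912 536870912 536870912 134217728 67108864 3 false true true .up 0 0 1
    ndN2q0 ndN2q1 pcN0 Cut.none Ext.none :=
  certN1 (fam := false) (s1 := true) (s2 := true) (a := 0) (b := 0) (c := 1) (cn := .up) (n1 := ndN2q0) (n2 := ndN2q1) (pc := pcN0) (cut := Cut.none) (xt := Ext.none) (P1 := 0) (W1 := 536870912) (P2 := 536870912) (W2 := 536870912) (P3 := 134217728) (W3 := 67108864) (N0 := 3)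
    rfl (fun _ => rfl) k0_pp_001

noncomputable def f_pp_011 : ℕ → ℕ → ℕ → ℕ → Bool := onCell 0 536870912 536870912 536870912 134217728 67108864
    (rowN 3 0 false true true .pnn 0 1 1 (qsf 0 536870912 536870912 536870912 1) ndN2q0 ndN2q1 pcN1 Cut.none Ext.none)

def k0_pp_011 : ∃ t, chk3 f_pp_011 t 1 1 1 = true :=
  ⟨(a (l 3) (l 3)), by decide +kernel⟩

theorem c_pp_011 : CertN 0 536870912 536870912 536870912 134217728 67108864 3 false true true .pnn 0 1 1
    ndN2q0 ndN2q1 pcN1 Cut.none Ext.none :=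
  certN0 (fam := false) (s1 := true) (s2 := true) (a := 0) (b := 1) (c := 1) (cn := .pnn) (n1 := ndN2q0) (n2 := ndN2q1) (pc := pcN1) (cut := Cut.none) (xt := Ext.none) (P1 := 0) (W1 := 536870912) (P2 := 536870912) (W2 := 536870912) (P3 := 134217728) (W3 := 67108864) (N0 := 3)
    rfl k0_pp_011

noncomputable def cut_pp_012_a : Cut := Cut.of [[⟨0, 0, 0, 67108864⟩, ⟨1, 1, 0, 67108864⟩, ⟨2, 1, 0, 67108864⟩]]

noncomputable def f_pp_012_a : ℕ → ℕ → ℕ → ℕ → Bool := onCell 536870912 536870912 0 536870912 134217728 67108864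
    (rowN 3 2 false true true .pnp 0 1 2 (qsf 0 536870912 0 536870912 1) ndN2q0 ndN2q2a pcN1 cut_pp_012_a Ext.none)

def k0_pp_012_a : ∃ t, chk3 f_pp_012_a t 1 1 1 = true :=
  ⟨(a (a (b (l 17643016) (b (l 61306104775) (b (l 407654974599) (l 3)))) (b (l 17177528) (a (l 337324538679) (b (l 17201640) (l 17445560))))) (a (b (l 16974024) (b (l 17137016) (a (l 17306704) (l 17241976)))) (b (a (l 16932944) (b (l 16795720) (l 16790728))) (b (a (l 16893728) (a (l 16831064) (c (l 16785400) (l 16776792)))) (a (b (l 16923136) (a (l 16964456) (l 16929272))) (b (a (l 16845688) (a (l 16807560) (l 16780912))) (b (a (l 16847592) (a (l 16814472) (l 6))) (a (l 16901760) (l 6))))))))), by decide +kernel⟩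

theorem c_pp_012_a : CertN 0 536870912 0 536870912 134217728 67108864 3 false true true .pnp 0 1 2
    ndN2q0 ndN2q2a pcN1 cut_pp_012_a Ext.none :=
  certN2 (fam := false) (s1 := true) (s2 := true) (a := 0) (b := 1) (c := 2) (cn := .pnp) (n1 := ndN2q0) (n2 := ndN2q2a) (pc := pcN1) (cut := cut_pp_012_a) (xt := Ext.none) (P1 := 0) (W1 := 536870912) (P2 := 0) (W2 := 536870912) (P3 := 134217728) (W3 := 67108864) (N0 := 3)
    rfl (fun _ => rfl) k0_pp_012_a

noncomputable def cut_pp_012_b : Cut := Cut.of [[⟨0, 0, 0, 67108864⟩, ⟨1, 1, 0, 67108864⟩, ⟨2, 1, 0, 67108864⟩]]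

noncomputable def f_pp_012_b : ℕ → ℕ → ℕ → ℕ → Bool := onCell 536870912 536870912 1239849684 370763052 134217728 67108864
    (rowN 3 2 false true true .pnp 0 1 2 (qsf 0 536870912 1239849684 370763052 1) ndN2q0 ndN2q2b pcN1 cut_pp_012_b Ext.none)

def k0_pp_012_b : ∃ t, chk3 f_pp_012_b t 1 1 1 = true :=
  ⟨(a (a (l 2) (b (l 17254216) (l 2))) (a (b (b (l 16922584) (l 17080712)) (l 17280616)) (b (a (l 17243160) (b (a (l 17141872) (l 17053072)) (l 17501472))) (a (l 17578496) (l 17787656))))), by decide +kernel⟩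

theorem c_pp_012_b : CertN 0 536870912 1239849684 370763052 134217728 67108864 3 false true true .pnp 0 1 2
    ndN2q0 ndN2q2b pcN1 cut_pp_012_b Ext.none :=
  certN2 (fam := false) (s1 := true) (s2 := true) (a := 0) (b := 1) (c := 2) (cn := .pnp) (n1 := ndN2q0) (n2 := ndN2q2b) (pc := pcN1) (cut := cut_pp_012_b) (xt := Ext.none) (P1 := 0) (W1 := 536870912) (P2 := 1239849684) (W2 := 370763052) (P3 := 134217728) (W3 := 67108864) (N0 := 3)
    rfl (fun _ => rfl) k0_pp_012_b

noncomputable def cut_pp_022_a : Cut := Cut.of [[⟨0, 0, 0, 67108864⟩, ⟨1, 1, 0, 67108864⟩, ⟨2, 1, 0, 67108864⟩]]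

noncomputable def f_pp_022_a : ℕ → ℕ → ℕ → ℕ → Bool := onCell 0 536870912 0 536870912 134217728 67108864
    (rowN 3 0 false true true .pp 0 2 2 (qsf 0 536870912 0 536870912 2) ndN2q0 ndN2q2a pcN2 cut_pp_022_a Ext.none)

def k0_pp_022_a : ∃ t, chk3 f_pp_022_a t 2 2 1 = true :=
  ⟨(a (b (a (a (a (b (a (a (b (c (a (a (b (c (l 17103792) (l 16683632)) (l 16887672)) (l 16889448)) (l 16887376)) (b (a (l 16551520) (l 16509896)) (l 16509392))) (c (a (l 16653912) (l 16861256)) (l 16531832))) (c (l 16868488) (l 16531320))) (c (l 16860608) (l 16551688))) (a (b (c (a (a (l 16789744) (l 16808152)) (l 16804200)) (l 16556104)) (c (c (l 16942760) (l 16548888)) (l 16561960))) (c (l 16608480) (l 16580472)))) (a (b (l 16577632) (l 16606824)) (b (l 16555424) (l 16606832)))) (a (b (l 16729624) (b (l 16629816) (l 16680528))) (b (c (l 16822936) (l 16733800)) (a (l 16654704) (l 16744248))))) (a (a (b (a (l 16637456) (l 16511920)) (a (b (l 16519232) (l 16573592)) (l 16525928))) (l 16536272))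 (l 16576232))) (a (b (a (a (a (a (c (b (c (l 16835224) (l 16534744)) (l 16566464)) (b (l 16527432) (l 16557592))) (c (l 16615872) (l 16616904))) (c (l 16659784) (l 16660672))) (a (b (l 16552928) (l 16584032)) (a (l 16644104) (l 16644904)))) (b (a (l 16755872) (a (l 16573144) (l 16600168))) (a (b (l 16697904) (l 16727152)) (a (l 16630584) (l 16703920))))) (a (a (a (a (c (b (c (l 16578712) (l 16574752)) (b (l 16563792) (l 16570376))) (b (l 16568920) (l 16603592))) (c (b (l 16555776) (l 16589584)) (b (l 16547992) (l 16583000)))) (b (c (l 16599576) (l 16570776)) (c (l 16634752) (l 16628080)))) (b (a (l 16617904) (l 16620232)) (a (l 16655192) (l 16701792)))) (a (b (a (l 16624360) (l 16663896)) (a (l 16763344) (a (l 16638120) (l 16570440)))) (b (a (a (l 16602016) (l 16556328)) (l 16562424)) (l 16580128))))) (a (l 16580312) (l 16632912)))) (a (b (l 16654688) (a (l 16701424) (l 1))) (l 1))), by decide +kernel⟩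

def k1_pp_022_a : ∃ t, chk3 f_pp_022_a t 2 3 1 = true :=
  ⟨(a (a (b (b (a (a (b (a (a (b (c (l 16588056) (l 16572000)) (c (l 16606384) (l 16601464))) (c (l 16626208) (l 16620856))) (c (l 16673512) (l 16667992))) (a (a (c (a (b (l 16603680) (l 16612776)) (l 16647968)) (b (l 16610656) (l 16620592))) (c (l 16666336) (l 16662192))) (c (b (l 16641136) (l 16669248)) (a (l 16681992) (l 16683744))))) (b (a (b (l 16622144) (l 16649208)) (a (l 16669416) (l 16693472))) (a (b (l 16681400) (l 16715120)) (l 16604144)))) (a (b (a (a (l 16718744) (l 16587040)) (l 16592256)) (l 16614184)) (l 16618240))) (a (a (b (b (a (a (c (c (l 16635032) (l 16633584)) (l 16641800)) (a (c (l 16612360) (l 16609560)) (l 16632576))) (a (l 16655744) (l 16613792))) (a (c (a (a (c (l 16643608) (l 16642504)) (l 16643928)) (l 16667376)) (a (a (l 16645976) (l 16641576)) (l 16664872))) (l 16625464))) (a (c (a (c (l 16651176) (l 16660792)) (l 16642632)) (c (l 16660960) (l 16659944))) (l 16666496))) (b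 (l 16627296) (l 16634104))) (a (l 16636016) (l 16655472)))) (b (b (a (a (a (a (c (b (c (l 16660032) (l 16659376)) (c (l 16684080) (l 16673080))) (a (a (b (l 16657384) (l 16681648)) (l 16685984)) (l 16686976))) (c (l 16669600) (l 16668088))) (l 16694584)) (l 16669032)) (l 16692992)) (a (l 6) (a (l 6) (b (l 16752848) (l 16771984))))) (a (l 6) (a (l 6) (l 1))))) (b (a (b (l 16629712) (l 16671160)) (b (l 16707680) (l 147673279543))) (b (a (b (l 16828856) (l 1)) (l 1)) (l 1)))) (b (l 1) (l 1))), by decide +kernel⟩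

def k2_pp_022_a : ∃ t, chk3 f_pp_022_a t 3 1 1 = true :=
  ⟨(l 1), by decide +kernel⟩

theorem s3_pp_022_a : ∃ t, chk3 f_pp_022_a t 2 1 1 = true := ex3_b k0_pp_022_a k1_pp_022_a

theorem s4_pp_022_a : ∃ t, chk3 f_pp_022_a t 1 1 1 = true := ex3_a s3_pp_022_a k2_pp_022_a

theorem c_pp_022_a : CertN 0 536870912 0 536870912 134217728 67108864 3 false true true .pp 0 2 2
    ndN2q0 ndN2q2a pcN2 cut_pp_022_a Ext.none :=
  certN0 (fam := false) (s1 := true) (s2 := true) (a := 0) (b := 2) (c := 2) (cn := .pp) (n1 := ndN2q0) (n2 := ndN2q2a) (pc := pcN2) (cut := cut_pp_022_a) (xt := Ext.none) (P1 := 0) (W1 := 536870912) (P2 := 0) (W2 := 536870912) (P3 := 134217728) (W3 := 67108864) (N0 := 3)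
    rfl s4_pp_022_a

noncomputable def cut_pp_022_b : Cut := Cut.of [[⟨0, 0, 0, 67108864⟩, ⟨1, 1, 0, 67108864⟩, ⟨2, 1, 0, 67108864⟩]]

noncomputable def f_pp_022_b : ℕ → ℕ → ℕ → ℕ → Bool := onCell 0 536870912 1073741824 536870912 134217728 67108864
    (rowN 3 1 false true true .pp 0 2 2 (qsf 0 536870912 1239849684 370763052 2) ndN2q0 ndN2q2b pcN2 cut_pp_022_b Ext.none)

def k0_pp_022_b : ∃ t, chk3 f_pp_022_b t 1 1 1 = true :=
  ⟨(a (b (a (b (a (b (l 1) (b (b (l 1) (a (l 1) (l 408055414775))) (b (a (l 1) (l 394633569783)) (a (l 415571452951) (l 16637520))))) (b (b (l 312492520135) (l 16605432)) (b (b (l 16655424) (b (l 16860008) (l 16984584))) (b (a (l 16930376) (l 17337912)) (a (l 17167264) (l 17511016)))))) (b (b (b (a (a (a (l 426845623063) (l 16595848)) (l 16932136)) (l 17528232)) (a (a (b (c (l 451541914775) (l 420403046855)) (a (b (c (l 458521178519) (l 16503256)) (b (c (l 467111234551) (l 16498240)) (c (c (l 17257776) (l 16864232)) (l 16516000)))) (c (l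 17265912) (l 16586368)))) (b (l 17142576) (b (l 17228928) (l 17283376)))) (b (l 17644152) (l 17715352)))) (a (a (a (c (a (b (c (l 17355864) (l 16972936)) (l 17431120)) (l 17312040)) (b (l 16526184) (l 16586864))) (c (l 17559672) (l 16914184))) (c (l 17786184) (l 17223352))) (l 17869192))) (a (a (b (c (b (l 17595544) (l 17921432)) (a (b (l 16977728) (l 17284104)) (l 17355376))) (c (l 18110344) (b (l 17539888) (l 17682680)))) (b (l 17812888) (l 18036568))) (b (l 18067200) (l 18218984))))) (b (b (a (l 16996352) (l 17601824)) (b (b (l 17713144) (a (l 17612312) (l 17997160))) (b (l 17931312) (l 18026184)))) (b (b (b (l 18109448) (l 18185928)) (l 18273704)) (l 18413656)))) (a (b (a (b (a (c (l 18371416) (l 17957632)) (l 18272928)) (l 18440688)) (l 18481264)) (a (l 18608032) (l 18662968))) (b (l 18606136) (l 18688784)))) (b (b (b (l 18289352) (b (b (l 18412104) (l 18449488)) (a (l 18377744) (l 18567824)))) (b (b (a (l 18474208) (l 18617328)) (l 18603120)) (l 18642432)))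 (b (a (l 18674208) (l 2)) (l 2)))), by decide +kernel⟩

theorem c_pp_022_b : CertN 0 536870912 1239849684 370763052 134217728 67108864 3 false true true .pp 0 2 2
    ndN2q0 ndN2q2b pcN2 cut_pp_022_b Ext.none :=
  certN1 (fam := false) (s1 := true) (s2 := true) (a := 0) (b := 2) (c := 2) (cn := .pp) (n1 := ndN2q0) (n2 := ndN2q2b) (pc := pcN2) (cut := cut_pp_022_b) (xt := Ext.none) (P1 := 0) (W1 := 536870912) (P2 := 1239849684) (W2 := 370763052) (P3 := 134217728) (W3 := 67108864) (N0 := 3)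
    rfl (fun _ => rfl) k0_pp_022_b

noncomputable def f_pp_023 : ℕ → ℕ → ℕ → ℕ → Bool := onCell 1073741824 536870912 1610612736 536870912 134217728 67108864
    (rowN 3 2 false true true .up 0 2 3 (qsf 0 536870912 1610612736 536870912 2) ndN2q0 ndN2q3 pcN2 Cut.none Ext.none)

def k0_pp_023 : ∃ t, chk3 f_pp_023 t 1 1 1 = true :=
  ⟨(a (b (a (a (l 18820672) (a (a (l 18806440) (l 18798272)) (l 18782144))) (a (b (l 18957864) (l 18780520)) (l 18721168))) (a (l 2) (l 18672208))) (b (a (l 18659168) (b (l 18538248) (l 18599832))) (a (l 18539744) (l 18420376)))), by decide +kernel⟩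

theorem c_pp_023 : CertN 0 536870912 1610612736 536870912 134217728 67108864 3 false true true .up 0 2 3
    ndN2q0 ndN2q3 pcN2 Cut.none Ext.none :=
  certN2 (fam := false) (s1 := true) (s2 := true) (a := 0) (b := 2) (c := 3) (cn := .up) (n1 := ndN2q0) (n2 := ndN2q3) (pc := pcN2) (cut := Cut.none) (xt := Ext.none) (P1 := 0) (W1 := 536870912) (P2 := 1610612736) (W2 := 536870912) (P3 := 134217728) (W3 := 67108864) (N0 := 3)
    rfl (fun _ => rfl) k0_pp_023

noncomputable def f_pp_033 : ℕ → ℕ → ℕ → ℕ → Bool := onCell 0 536870912 1610612736 536870912 134217728 67108864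
    (rowN 3 0 false true true .pnn 0 3 3 (qsf 0 536870912 1610612736 536870912 3) ndN2q0 ndN2q3 pcN3 Cut.none Ext.none)

def k0_pp_033 : ∃ t, chk3 f_pp_033 t 1 1 1 = true :=
  ⟨(a (b (a (b (l 18034728) (b (l 17984352) (l 18062584))) (b (l 18028264) (b (l 17980696) (l 18102224)))) (b (a (a (b (l 18085432) (l 4)) (l 18007096)) (b (l 18207376) (l 17994712))) (l 4))) (b (a (b (l 1) (b (l 1) (l 18069952))) (l 1)) (b (a (b (l 18227720) (l 18298200)) (b (l 1) (l 18367600))) (a (l 4) (b (l 18547064) (l 4)))))), by decide +kernel⟩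

theorem c_pp_033 : CertN 0 536870912 1610612736 536870912 134217728 67108864 3 false true true .pnn 0 3 3
    ndN2q0 ndN2q3 pcN3 Cut.none Ext.none :=
  certN0 (fam := false) (s1 := true) (s2 := true) (a := 0) (b := 3) (c := 3) (cn := .pnn) (n1 := ndN2q0) (n2 := ndN2q3) (pc := pcN3) (cut := Cut.none) (xt := Ext.none) (P1 := 0) (W1 := 536870912) (P2 := 1610612736) (W2 := 536870912) (P3 := 134217728) (W3 := 67108864) (N0 := 3)
    rfl k0_pp_033

noncomputable def f_pp_101 : ℕ → ℕ → ℕ → ℕ → Bool := onCell 536870912 536870912 536870912 536870912 134217728 67108864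
    (rowN 3 0 false true true .npn 1 0 1 (qsf 536870912 536870912 536870912 536870912 0) ndN2q1 ndN2q1 pcN0 Cut.none Ext.none)

def k0_pp_101 : ∃ t, chk3 f_pp_101 t 1 1 1 = true :=
  ⟨(l 3), by decide +kernel⟩

theorem c_pp_101 : CertN 536870912 536870912 536870912 536870912 134217728 67108864 3 false true true .npn 1 0 1
    ndN2q1 ndN2q1 pcN0 Cut.none Ext.none :=
  certN0 (fam := false) (s1 := true) (s2 := true) (a := 1) (b := 0) (c := 1) (cn := .npn) (n1 := ndN2q1) (n2 := ndN2q1) (pc := pcN0) (cut := Cut.none) (xt := Ext.none) (P1 := 536870912) (W1 := 536870912) (P2 := 536870912) (W2 := 536870912) (P3 := 134217728) (W3 := 67108864) (N0 := 3)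
    rfl k0_pp_101

noncomputable def f_pp_102_a : ℕ → ℕ → ℕ → ℕ → Bool := onCell 0 536870912 0 536870912 134217728 67108864
    (rowN 3 2 false true true .npp 1 0 2 (qsf 536870912 536870912 0 536870912 0) ndN2q1 ndN2q2a pcN0 Cut.none Ext.none)

def k0_pp_102_a : ∃ t, chk3 f_pp_102_a t 1 1 1 = true :=
  ⟨(a (a (l 3) (b (l 3) (l 3))) (a (b (a (b (c (l 479596137687) (l 460804749559)) (l 3)) (b (l 17951472) (l 423761139719))) (l 3)) (b (a (b (l 17928384) (l 17882240)) (l 17858112)) (b (a (l 342693657399) (l 17778488)) (l 3))))), by decide +kernel⟩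

theorem c_pp_102_a : CertN 536870912 536870912 0 536870912 134217728 67108864 3 false true true .npp 1 0 2
    ndN2q1 ndN2q2a pcN0 Cut.none Ext.none :=
  certN2 (fam := false) (s1 := true) (s2 := true) (a := 1) (b := 0) (c := 2) (cn := .npp) (n1 := ndN2q1) (n2 := ndN2q2a) (pc := pcN0) (cut := Cut.none) (xt := Ext.none) (P1 := 536870912) (W1 := 536870912) (P2 := 0) (W2 := 536870912) (P3 := 134217728) (W3 := 67108864) (N0 := 3)
    rfl (fun _ => rfl) k0_pp_102_a

noncomputable def f_pp_102_b : ℕ → ℕ → ℕ → ℕ → Bool := onCell 536870912 536870912 0 536870912 134217728 67108864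
    (rowN 3 1 false true true .npp 1 0 2 (qsf 536870912 536870912 1239849684 370763052 0) ndN2q1 ndN2q2b pcN0 Cut.none Ext.none)

def k0_pp_102_b : ∃ t, chk3 f_pp_102_b t 1 1 1 = true :=
  ⟨(b (a (l 1) (b (l 1) (a (l 1) (l 3)))) (b (a (l 1) (a (b (a (l 1) (b (l 3) (l 443624818871))) (a (l 306588868535) (l 121905505863))) (c (b (a (l 484427961495) (l 494629306887)) (l 18784896)) (b (b (a (l 410875365335) (l 430203332375)) (a (l 17958264) (l 18289104))) (a (l 18239448) (l 18572936)))))) (a (a (l 1) (b (l 308736250743) (l 248607266503))) (a (b (l 179351280263) (l 18303536)) (b (l 18778888) (l 18858576)))))), by decide +kernel⟩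

theorem c_pp_102_b : CertN 536870912 536870912 1239849684 370763052 134217728 67108864 3 false true true .npp 1 0 2
    ndN2q1 ndN2q2b pcN0 Cut.none Ext.none :=
  certN1 (fam := false) (s1 := true) (s2 := true) (a := 1) (b := 0) (c := 2) (cn := .npp) (n1 := ndN2q1) (n2 := ndN2q2b) (pc := pcN0) (cut := Cut.none) (xt := Ext.none) (P1 := 536870912) (W1 := 536870912) (P2 := 1239849684) (W2 := 370763052) (P3 := 134217728) (W3 := 67108864) (N0 := 3)
    rfl (fun _ => rfl) k0_pp_102_b

noncomputable def f_pp_112_a : ℕ → ℕ → ℕ → ℕ → Bool := onCell 536870912 536870912 0 536870912 134217728 67108864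
    (rowN 3 2 false true true .dn 1 1 2 (qsf 536870912 536870912 0 536870912 1) ndN2q1 ndN2q2a pcN1 Cut.none Ext.none)

def k0_pp_112_a : ∃ t, chk3 f_pp_112_a t 1 1 1 = true :=
  ⟨(a (a (b (l 17941896) (b (a (l 17774792) (l 17780176)) (b (l 345915057623) (l 3)))) (b (l 17823848) (b (l 1) (l 1)))) (l 1)), by decide +kernel⟩

theorem c_pp_112_a : CertN 536870912 536870912 0 536870912 134217728 67108864 3 false true true .dn 1 1 2
    ndN2q1 ndN2q2a pcN1 Cut.none Ext.none :=
  certN2 (fam := false) (s1 := true) (s2 := true) (a := 1) (b := 1) (c := 2) (cn := .dn) (n1 := ndN2q1) (n2 := ndN2q2a) (pc := pcN1) (cut := Cut.none) (xt := Ext.none) (P1 := 536870912) (W1 := 536870912) (P2 := 0) (W2 := 536870912) (P3 := 134217728) (W3 := 67108864) (N0 := 3)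
    rfl (fun _ => rfl) k0_pp_112_a

noncomputable def f_pp_112_b : ℕ → ℕ → ℕ → ℕ → Bool := onCell 536870912 536870912 1239849684 370763052 134217728 67108864
    (rowN 3 2 false true true .dn 1 1 2 (qsf 536870912 536870912 1239849684 370763052 1) ndN2q1 ndN2q2b pcN1 Cut.none Ext.none)

def k0_pp_112_b : ∃ t, chk3 f_pp_112_b t 1 1 1 = true :=
  ⟨(a (a (b (b (l 17935432) (l 18121112)) (b (l 18326360) (l 18542224))) (b (l 18073720) (l 18080208))) (a (b (l 18000416) (l 17843824)) (l 484830465767))), by decide +kernel⟩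

theorem c_pp_112_b : CertN 536870912 536870912 1239849684 370763052 134217728 67108864 3 false true true .dn 1 1 2
    ndN2q1 ndN2q2b pcN1 Cut.none Ext.none :=
  certN2 (fam := false) (s1 := true) (s2 := true) (a := 1) (b := 1) (c := 2) (cn := .dn) (n1 := ndN2q1) (n2 := ndN2q2b) (pc := pcN1) (cut := Cut.none) (xt := Ext.none) (P1 := 536870912) (W1 := 536870912) (P2 := 1239849684) (W2 := 370763052) (P3 := 134217728) (W3 := 67108864) (N0 := 3)
    rfl (fun _ => rfl) k0_pp_112_b

noncomputable def f_pp_113 : ℕ → ℕ → ℕ → ℕ → Bool := onCell 536870912 536870912 536870912 536870912 134217728 67108864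
    (rowN 3 1 false true true .nn 1 1 3 (qsf 536870912 536870912 1610612736 536870912 1) ndN2q1 ndN2q3 pcN1 Cut.none Ext.none)

def k0_pp_113 : ∃ t, chk3 f_pp_113 t 1 1 1 = true :=
  ⟨(a (b (b (l 1) (l 445101779559)) (b (l 17810136) (l 17651552))) (b (b (l 489663205847) (l 357592567863)) (b (a (l 17693168) (l 17824200)) (b (l 17459992) (l 17178536))))), by decide +kernel⟩

theorem c_pp_113 : CertN 536870912 536870912 1610612736 536870912 134217728 67108864 3 false true true .nn 1 1 3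
    ndN2q1 ndN2q3 pcN1 Cut.none Ext.none :=
  certN1 (fam := false) (s1 := true) (s2 := true) (a := 1) (b := 1) (c := 3) (cn := .nn) (n1 := ndN2q1) (n2 := ndN2q3) (pc := pcN1) (cut := Cut.none) (xt := Ext.none) (P1 := 536870912) (W1 := 536870912) (P2 := 1610612736) (W2 := 536870912) (P3 := 134217728) (W3 := 67108864) (N0 := 3)
    rfl (fun _ => rfl) k0_pp_113

noncomputable def f_pp_123 : ℕ → ℕ → ℕ → ℕ → Bool := onCell 1073741824 536870912 1610612736 536870912 134217728 67108864
    (rowN 3 2 false true true .npn 1 2 3 (qsf 536870912 536870912 1610612736 536870912 2) ndN2q1 ndN2q3 pcN2 Cut.none Ext.none)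

def k0_pp_123 : ∃ t, chk3 f_pp_123 t 1 1 1 = true :=
  ⟨(a (b (a (a (l 17880672) (a (a (l 17861128) (l 17849168)) (l 17825576))) (a (b (l 17785368) (l 17728888)) (l 17700344))) (a (l 17350216) (b (l 17545432) (l 17248736)))) (b (b (l 1) (l 17661584)) (a (l 17429376) (l 17226656)))), by decide +kernel⟩

theorem c_pp_123 : CertN 536870912 536870912 1610612736 536870912 134217728 67108864 3 false true true .npn 1 2 3
    ndN2q1 ndN2q3 pcN2 Cut.none Ext.none :=
  certN2 (fam := false) (s1 := true) (s2 := true) (a := 1) (b := 2) (c := 3) (cn := .npn) (n1 := ndN2q1) (n2 := ndN2q3) (pc := pcN2) (cut := Cut.none) (xt := Ext.none) (P1 := 536870912) (W1 := 536870912) (P2 := 1610612736) (W2 := 536870912) (P3 := 134217728) (W3 := 67108864) (N0 := 3)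
    rfl (fun _ => rfl) k0_pp_123

noncomputable def f_pp_133 : ℕ → ℕ → ℕ → ℕ → Bool := onCell 1610612736 536870912 1610612736 536870912 134217728 67108864
    (rowN 3 2 false true true .dn 1 3 3 (qsf 536870912 536870912 1610612736 536870912 3) ndN2q1 ndN2q3 pcN3 Cut.none Ext.none)

def k0_pp_133 : ∃ t, chk3 f_pp_133 t 1 1 1 = true :=
  ⟨(a (b (l 1) (a (b (l 1) (l 689913436647)) (l 1))) (l 1)), by decide +kernel⟩

theorem c_pp_133 : CertN 536870912 536870912 1610612736 536870912 134217728 67108864 3 false true true .dn 1 3 3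
    ndN2q1 ndN2q3 pcN3 Cut.none Ext.none :=
  certN2 (fam := false) (s1 := true) (s2 := true) (a := 1) (b := 3) (c := 3) (cn := .dn) (n1 := ndN2q1) (n2 := ndN2q3) (pc := pcN3) (cut := Cut.none) (xt := Ext.none) (P1 := 536870912) (W1 := 536870912) (P2 := 1610612736) (W2 := 536870912) (P3 := 134217728) (W3 := 67108864) (N0 := 3)
    rfl (fun _ => rfl) k0_pp_133

noncomputable def f_pp_202_aa : ℕ → ℕ → ℕ → ℕ → Bool := onCell 0 536870912 0 536870912 134217728 67108864
    (rowN 3 0 false true true .pp 2 0 2 (qsf 0 536870912 0 536870912 0) ndN2q2a ndN2q2a pcN0 Cut.none Ext.none)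

def k0_pp_202_aa : ∃ t, chk3 f_pp_202_aa t 1 1 1 = true :=
  ⟨(l 3), by decide +kernel⟩

theorem c_pp_202_aa : CertN 0 536870912 0 536870912 134217728 67108864 3 false true true .pp 2 0 2
    ndN2q2a ndN2q2a pcN0 Cut.none Ext.none :=
  certN0 (fam := false) (s1 := true) (s2 := true) (a := 2) (b := 0) (c := 2) (cn := .pp) (n1 := ndN2q2a) (n2 := ndN2q2a) (pc := pcN0) (cut := Cut.none) (xt := Ext.none) (P1 := 0) (W1 := 536870912) (P2 := 0) (W2 := 536870912) (P3 := 134217728) (W3 := 67108864) (N0 := 3)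
    rfl k0_pp_202_aa

noncomputable def f_pp_202_ab : ℕ → ℕ → ℕ → ℕ → Bool := onCell 0 536870912 1239849684 370763052 134217728 67108864
    (rowN 3 0 false true true .pp 2 0 2 (qsf 0 536870912 1239849684 370763052 0) ndN2q2a ndN2q2b pcN0 Cut.none Ext.none)

def k0_pp_202_ab : ∃ t, chk3 f_pp_202_ab t 1 1 1 = true :=
  ⟨(l 3), by decide +kernel⟩

theorem c_pp_202_ab : CertN 0 536870912 1239849684 370763052 134217728 67108864 3 false true true .pp 2 0 2
    ndN2q2a ndN2q2b pcN0 Cut.none Ext.none :=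
  certN0 (fam := false) (s1 := true) (s2 := true) (a := 2) (b := 0) (c := 2) (cn := .pp) (n1 := ndN2q2a) (n2 := ndN2q2b) (pc := pcN0) (cut := Cut.none) (xt := Ext.none) (P1 := 0) (W1 := 536870912) (P2 := 1239849684) (W2 := 370763052) (P3 := 134217728) (W3 := 67108864) (N0 := 3)
    rfl k0_pp_202_ab

noncomputable def f_pp_202_ba : ℕ → ℕ → ℕ → ℕ → Bool := onCell 1239849684 370763052 0 536870912 134217728 67108864
    (rowN 3 0 false true true .pp 2 0 2 (qsf 1239849684 370763052 0 536870912 0) ndN2q2b ndN2q2a pcN0 Cut.none Ext.none)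

def k0_pp_202_ba : ∃ t, chk3 f_pp_202_ba t 1 1 1 = true :=
  ⟨(l 3), by decide +kernel⟩

theorem c_pp_202_ba : CertN 1239849684 370763052 0 536870912 134217728 67108864 3 false true true .pp 2 0 2
    ndN2q2b ndN2q2a pcN0 Cut.none Ext.none :=
  certN0 (fam := false) (s1 := true) (s2 := true) (a := 2) (b := 0) (c := 2) (cn := .pp) (n1 := ndN2q2b) (n2 := ndN2q2a) (pc := pcN0) (cut := Cut.none) (xt := Ext.none) (P1 := 1239849684) (W1 := 370763052) (P2 := 0) (W2 := 536870912) (P3 := 134217728) (W3 := 67108864) (N0 := 3)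
    rfl k0_pp_202_ba

noncomputable def f_pp_202_bb : ℕ → ℕ → ℕ → ℕ → Bool := onCell 1239849684 370763052 1239849684 370763052 134217728 67108864
    (rowN 3 0 false true true .pp 2 0 2 (qsf 1239849684 370763052 1239849684 370763052 0) ndN2q2b ndN2q2b pcN0 Cut.none Ext.none)

def k0_pp_202_bb : ∃ t, chk3 f_pp_202_bb t 1 1 1 = true :=
  ⟨(l 3), by decide +kernel⟩

theorem c_pp_202_bb : CertN 1239849684 370763052 1239849684 370763052 134217728 67108864 3 false true true .pp 2 0 2
    ndN2q2b ndN2q2b pcN0 Cut.none Ext.none :=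
  certN0 (fam := false) (s1 := true) (s2 := true) (a := 2) (b := 0) (c := 2) (cn := .pp) (n1 := ndN2q2b) (n2 := ndN2q2b) (pc := pcN0) (cut := Cut.none) (xt := Ext.none) (P1 := 1239849684) (W1 := 370763052) (P2 := 1239849684) (W2 := 370763052) (P3 := 134217728) (W3 := 67108864) (N0 := 3)
    rfl k0_pp_202_bb

noncomputable def f_pp_203_a : ℕ → ℕ → ℕ → ℕ → Bool := onCell 0 536870912 0 536870912 134217728 67108864
    (rowN 3 1 false true true .up 2 0 3 (qsf 0 536870912 1610612736 536870912 0) ndN2q2a ndN2q3 pcN0 Cut.none Ext.none)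

def k0_pp_203_a : ∃ t, chk3 f_pp_203_a t 1 1 1 = true :=
  ⟨(l 3), by decide +kernel⟩

theorem c_pp_203_a : CertN 0 536870912 1610612736 536870912 134217728 67108864 3 false true true .up 2 0 3
    ndN2q2a ndN2q3 pcN0 Cut.none Ext.none :=
  certN1 (fam := false) (s1 := true) (s2 := true) (a := 2) (b := 0) (c := 3) (cn := .up) (n1 := ndN2q2a) (n2 := ndN2q3) (pc := pcN0) (cut := Cut.none) (xt := Ext.none) (P1 := 0) (W1 := 536870912) (P2 := 1610612736) (W2 := 536870912) (P3 := 134217728) (W3 := 67108864) (N0 := 3)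
    rfl (fun _ => rfl) k0_pp_203_a

noncomputable def f_pp_203_b : ℕ → ℕ → ℕ → ℕ → Bool := onCell 1239849684 370763052 1610612736 536870912 134217728 67108864
    (rowN 3 0 false true true .up 2 0 3 (qsf 1239849684 370763052 1610612736 536870912 0) ndN2q2b ndN2q3 pcN0 Cut.none Ext.none)

def k0_pp_203_b : ∃ t, chk3 f_pp_203_b t 1 1 1 = true :=
  ⟨(l 3), by decide +kernel⟩

theorem c_pp_203_b : CertN 1239849684 370763052 1610612736 536870912 134217728 67108864 3 false true true .up 2 0 3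
    ndN2q2b ndN2q3 pcN0 Cut.none Ext.none :=
  certN0 (fam := false) (s1 := true) (s2 := true) (a := 2) (b := 0) (c := 3) (cn := .up) (n1 := ndN2q2b) (n2 := ndN2q3) (pc := pcN0) (cut := Cut.none) (xt := Ext.none) (P1 := 1239849684) (W1 := 370763052) (P2 := 1610612736) (W2 := 536870912) (P3 := 134217728) (W3 := 67108864) (N0 := 3)
    rfl k0_pp_203_b

noncomputable def cut_pp_213_a : Cut := Cut.of [[⟨0, 1, 0, 39843005⟩, ⟨1, 1, 0, 39843005⟩, ⟨2, 2, 0, 5814905⟩]]

noncomputable def f_pp_213_a : ℕ → ℕ → ℕ → ℕ → Bool := onCell 0 536870912 1610612736 536870912 134217728 67108864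
    (rowN 3 0 false true true .pnn 2 1 3 (qsf 0 536870912 1610612736 536870912 1) ndN2q2a ndN2q3 pcN1 cut_pp_213_a Ext.none)

def k0_pp_213_a : ∃ t, chk3 f_pp_213_a t 1 1 1 = true :=
  ⟨(b (l 3) (b (l 3) (a (l 3) (a (l 3) (b (l 3) (b (l 3) (a (l 3) (b (l 3) (b (l 3) (a (l 3) (b (l 3) (l 6)))))))))))), by decide +kernel⟩

theorem c_pp_213_a : CertN 0 536870912 1610612736 536870912 134217728 67108864 3 false true true .pnn 2 1 3
    ndN2q2a ndN2q3 pcN1 cut_pp_213_a Ext.none :=
  certN0 (fam := false) (s1 := true) (s2 := true) (a := 2) (b := 1) (c := 3) (cn := .pnn) (n1 := ndN2q2a) (n2 := ndN2q3) (pc := pcN1) (cut := cut_pp_213_a) (xt := Ext.none) (P1 := 0) (W1 := 536870912) (P2 := 1610612736) (W2 := 536870912) (P3 := 134217728) (W3 := 67108864) (N0 := 3)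
    rfl k0_pp_213_a

noncomputable def cut_pp_213_b : Cut := Cut.of [[⟨0, 1, 0, 39843005⟩, ⟨1, 1, 0, 39843005⟩, ⟨2, 2, 0, 5814905⟩]]

noncomputable def f_pp_213_b : ℕ → ℕ → ℕ → ℕ → Bool := onCell 1239849684 370763052 1610612736 536870912 134217728 67108864
    (rowN 3 0 false true true .pnn 2 1 3 (qsf 1239849684 370763052 1610612736 536870912 1) ndN2q2b ndN2q3 pcN1 cut_pp_213_b Ext.none)

def k0_pp_213_b : ∃ t, chk3 f_pp_213_b t 1 1 1 = true :=
  ⟨(l 3), by decide +kernel⟩

theorem c_pp_213_b : CertN 1239849684 370763052 1610612736 536870912 134217728 67108864 3 false true true .pnn 2 1 3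
    ndN2q2b ndN2q3 pcN1 cut_pp_213_b Ext.none :=
  certN0 (fam := false) (s1 := true) (s2 := true) (a := 2) (b := 1) (c := 3) (cn := .pnn) (n1 := ndN2q2b) (n2 := ndN2q3) (pc := pcN1) (cut := cut_pp_213_b) (xt := Ext.none) (P1 := 1239849684) (W1 := 370763052) (P2 := 1610612736) (W2 := 536870912) (P3 := 134217728) (W3 := 67108864) (N0 := 3)
    rfl k0_pp_213_b

noncomputable def f_pp_303 : ℕ → ℕ → ℕ → ℕ → Bool := onCell 1610612736 536870912 1610612736 536870912 134217728 67108864
    (rowN 3 0 false true true .npn 3 0 3 (qsf 1610612736 536870912 1610612736 536870912 0) ndN2q3 ndN2q3 pcN0 Cut.none Ext.none)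

def k0_pp_303 : ∃ t, chk3 f_pp_303 t 1 1 1 = true :=
  ⟨(l 3), by decide +kernel⟩

theorem c_pp_303 : CertN 1610612736 536870912 1610612736 536870912 134217728 67108864 3 false true true .npn 3 0 3
    ndN2q3 ndN2q3 pcN0 Cut.none Ext.none :=
  certN0 (fam := false) (s1 := true) (s2 := true) (a := 3) (b := 0) (c := 3) (cn := .npn) (n1 := ndN2q3) (n2 := ndN2q3) (pc := pcN0) (cut := Cut.none) (xt := Ext.none) (P1 := 1610612736) (W1 := 536870912) (P2 := 1610612736) (W2 := 536870912) (P3 := 134217728) (W3 := 67108864) (N0 := 3)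
    rfl k0_pp_303

noncomputable def f_pp_313 : ℕ → ℕ → ℕ → ℕ → Bool := onCell 1610612736 536870912 1610612736 536870912 134217728 67108864
    (rowN 3 0 false true true .dn 3 1 3 (qsf 1610612736 536870912 1610612736 536870912 1) ndN2q3 ndN2q3 pcN1 Cut.none Ext.none)

def k0_pp_313 : ∃ t, chk3 f_pp_313 t 1 1 1 = true :=
  ⟨(l 3), by decide +kernel⟩

theorem c_pp_313 : CertN 1610612736 536870912 1610612736 536870912 134217728 67108864 3 false true true .dn 3 1 3
    ndN2q3 ndN2q3 pcN1 Cut.none Ext.none :=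
  certN0 (fam := false) (s1 := true) (s2 := true) (a := 3) (b := 1) (c := 3) (cn := .dn) (n1 := ndN2q3) (n2 := ndN2q3) (pc := pcN1) (cut := Cut.none) (xt := Ext.none) (P1 := 1610612736) (W1 := 536870912) (P2 := 1610612736) (W2 := 536870912) (P3 := 134217728) (W3 := 67108864) (N0 := 3)
    rfl k0_pp_313

noncomputable def f_pm_001 : ℕ → ℕ → ℕ → ℕ → Bool := onCell 0 536870912 536870912 536870912 134217728 67108864
    (rowN 3 0 false true false .up 0 0 1 (qsf 0 536870912 536870912 536870912 0) ndN2q0 ndN2q1 pcN0 Cut.none Ext.none)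

def k0_pm_001 : ∃ t, chk3 f_pm_001 t 1 1 1 = true :=
  ⟨(l 4), by decide +kernel⟩

theorem c_pm_001 : CertN 0 536870912 536870912 536870912 134217728 67108864 3 false true false .up 0 0 1
    ndN2q0 ndN2q1 pcN0 Cut.none Ext.none :=
  certN0 (fam := false) (s1 := true) (s2 := false) (a := 0) (b := 0) (c := 1) (cn := .up) (n1 := ndN2q0) (n2 := ndN2q1) (pc := pcN0) (cut := Cut.none) (xt := Ext.none) (P1 := 0) (W1 := 536870912) (P2 := 536870912) (W2 := 536870912) (P3 := 134217728) (W3 := 67108864) (N0 := 3)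
    rfl k0_pm_001

noncomputable def f_pm_011 : ℕ → ℕ → ℕ → ℕ → Bool := onCell 0 536870912 536870912 536870912 134217728 67108864
    (rowN 3 0 false true false .pnn 0 1 1 (qsf 0 536870912 536870912 536870912 1) ndN2q0 ndN2q1 pcN1 Cut.none Ext.none)

def k0_pm_011 : ∃ t, chk3 f_pm_011 t 1 1 1 = true :=
  ⟨(l 4), by decide +kernel⟩

theorem c_pm_011 : CertN 0 536870912 536870912 536870912 134217728 67108864 3 false true false .pnn 0 1 1
    ndN2q0 ndN2q1 pcN1 Cut.none Ext.none :=
  certN0 (fam := false) (s1 := true) (s2 := false) (a := 0) (b := 1) (c := 1) (cn := .pnn) (n1 := ndN2q0) (n2 := ndN2q1) (pc := pcN1) (cut := Cut.none) (xt := Ext.none) (P1 := 0) (W1 := 536870912) (P2 := 536870912) (W2 := 536870912) (P3 := 134217728) (W3 := 67108864) (N0 := 3)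
    rfl k0_pm_011

noncomputable def cut_pm_012_a : Cut := Cut.of [[⟨0, 0, 0, 67108864⟩, ⟨1, 1, 0, 67108864⟩, ⟨2, 1, 0, 67108864⟩]]

noncomputable def f_pm_012_a : ℕ → ℕ → ℕ → ℕ → Bool := onCell 0 536870912 0 536870912 134217728 67108864
    (rowN 3 0 false true false .pnp 0 1 2 (qsf 0 536870912 0 536870912 1) ndN2q0 ndN2q2a pcN1 cut_pm_012_a Ext.none)

def k0_pm_012_a : ∃ t, chk3 f_pm_012_a t 1 1 1 = true :=
  ⟨(a (b (l 4) (a (a (a (b (l 2) (b (l 2) (l 6))) (l 4)) (l 4)) (l 4))) (l 4)), by decide +kernel⟩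

theorem c_pm_012_a : CertN 0 536870912 0 536870912 134217728 67108864 3 false true false .pnp 0 1 2
    ndN2q0 ndN2q2a pcN1 cut_pm_012_a Ext.none :=
  certN0 (fam := false) (s1 := true) (s2 := false) (a := 0) (b := 1) (c := 2) (cn := .pnp) (n1 := ndN2q0) (n2 := ndN2q2a) (pc := pcN1) (cut := cut_pm_012_a) (xt := Ext.none) (P1 := 0) (W1 := 536870912) (P2 := 0) (W2 := 536870912) (P3 := 134217728) (W3 := 67108864) (N0 := 3)
    rfl k0_pm_012_a

noncomputable def cut_pm_012_b : Cut := Cut.of [[⟨0, 0, 0, 67108864⟩, ⟨1, 1, 0, 67108864⟩, ⟨2, 1, 0, 67108864⟩]]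

noncomputable def f_pm_012_b : ℕ → ℕ → ℕ → ℕ → Bool := onCell 536870912 536870912 1239849684 370763052 134217728 67108864
    (rowN 3 2 false true false .pnp 0 1 2 (qsf 0 536870912 1239849684 370763052 1) ndN2q0 ndN2q2b pcN1 cut_pm_012_b Ext.none)

def k0_pm_012_b : ∃ t, chk3 f_pm_012_b t 1 1 1 = true :=
  ⟨(l 4), by decide +kernel⟩

theorem c_pm_012_b : CertN 0 536870912 1239849684 370763052 134217728 67108864 3 false true false .pnp 0 1 2
    ndN2q0 ndN2q2b pcN1 cut_pm_012_b Ext.none :=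
  certN2 (fam := false) (s1 := true) (s2 := false) (a := 0) (b := 1) (c := 2) (cn := .pnp) (n1 := ndN2q0) (n2 := ndN2q2b) (pc := pcN1) (cut := cut_pm_012_b) (xt := Ext.none) (P1 := 0) (W1 := 536870912) (P2 := 1239849684) (W2 := 370763052) (P3 := 134217728) (W3 := 67108864) (N0 := 3)
    rfl (fun _ => rfl) k0_pm_012_b

noncomputable def cut_pm_022_a : Cut := Cut.of [[⟨0, 0, 0, 67108864⟩, ⟨1, 1, 0, 67108864⟩, ⟨2, 1, 0, 67108864⟩]]

noncomputable def f_pm_022_a : ℕ → ℕ → ℕ → ℕ → Bool := onCell 0 536870912 0 536870912 134217728 67108864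
    (rowN 3 0 false true false .pp 0 2 2 (qsf 0 536870912 0 536870912 2) ndN2q0 ndN2q2a pcN2 cut_pm_022_a Ext.none)

def k0_pm_022_a : ∃ t, chk3 f_pm_022_a t 1 1 1 = true :=
  ⟨(a (a (b (l 4) (a (a (b (l 4) (b (l 4) (l 6))) (l 4)) (l 4))) (l 4)) (l 1)), by decide +kernel⟩

theorem c_pm_022_a : CertN 0 536870912 0 536870912 134217728 67108864 3 false true false .pp 0 2 2
    ndN2q0 ndN2q2a pcN2 cut_pm_022_a Ext.none :=
  certN0 (fam := false) (s1 := true) (s2 := false) (a := 0) (b := 2) (c := 2) (cn := .pp) (n1 := ndN2q0) (n2 := ndN2q2a) (pc := pcN2) (cut := cut_pm_022_a) (xt := Ext.none) (P1 := 0) (W1 := 536870912) (P2 := 0) (W2 := 536870912) (P3 := 134217728) (W3 := 67108864) (N0 := 3)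
    rfl k0_pm_022_a

noncomputable def cut_pm_022_b : Cut := Cut.of [[⟨0, 0, 0, 67108864⟩, ⟨1, 1, 0, 67108864⟩, ⟨2, 1, 0, 67108864⟩]]

noncomputable def f_pm_022_b : ℕ → ℕ → ℕ → ℕ → Bool := onCell 0 536870912 1239849684 370763052 134217728 67108864
    (rowN 3 0 false true false .pp 0 2 2 (qsf 0 536870912 1239849684 370763052 2) ndN2q0 ndN2q2b pcN2 cut_pm_022_b Ext.none)

def k0_pm_022_b : ∃ t, chk3 f_pm_022_b t 1 1 1 = true :=
  ⟨(a (l 4) (l 4)), by decide +kernel⟩

theorem c_pm_022_b : CertN 0 536870912 1239849684 370763052 134217728 67108864 3 false true false .pp 0 2 2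
    ndN2q0 ndN2q2b pcN2 cut_pm_022_b Ext.none :=
  certN0 (fam := false) (s1 := true) (s2 := false) (a := 0) (b := 2) (c := 2) (cn := .pp) (n1 := ndN2q0) (n2 := ndN2q2b) (pc := pcN2) (cut := cut_pm_022_b) (xt := Ext.none) (P1 := 0) (W1 := 536870912) (P2 := 1239849684) (W2 := 370763052) (P3 := 134217728) (W3 := 67108864) (N0 := 3)
    rfl k0_pm_022_b

noncomputable def f_pm_023 : ℕ → ℕ → ℕ → ℕ → Bool := onCell 0 536870912 1610612736 536870912 134217728 67108864
    (rowN 3 0 false true false .up 0 2 3 (qsf 0 536870912 1610612736 536870912 2) ndN2q0 ndN2q3 pcN2 Cut.none Ext.none)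

def k0_pm_023 : ∃ t, chk3 f_pm_023 t 1 1 1 = true :=
  ⟨(l 4), by decide +kernel⟩

theorem c_pm_023 : CertN 0 536870912 1610612736 536870912 134217728 67108864 3 false true false .up 0 2 3
    ndN2q0 ndN2q3 pcN2 Cut.none Ext.none :=
  certN0 (fam := false) (s1 := true) (s2 := false) (a := 0) (b := 2) (c := 3) (cn := .up) (n1 := ndN2q0) (n2 := ndN2q3) (pc := pcN2) (cut := Cut.none) (xt := Ext.none) (P1 := 0) (W1 := 536870912) (P2 := 1610612736) (W2 := 536870912) (P3 := 134217728) (W3 := 67108864) (N0 := 3)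
    rfl k0_pm_023

noncomputable def f_pm_033 : ℕ → ℕ → ℕ → ℕ → Bool := onCell 0 536870912 1610612736 536870912 134217728 67108864
    (rowN 3 0 false true false .pnn 0 3 3 (qsf 0 536870912 1610612736 536870912 3) ndN2q0 ndN2q3 pcN3 Cut.none Ext.none)

def k0_pm_033 : ∃ t, chk3 f_pm_033 t 1 1 1 = true :=
  ⟨(l 4), by decide +kernel⟩

theorem c_pm_033 : CertN 0 536870912 1610612736 536870912 134217728 67108864 3 false true false .pnn 0 3 3
    ndN2q0 ndN2q3 pcN3 Cut.none Ext.none :=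
  certN0 (fam := false) (s1 := true) (s2 := false) (a := 0) (b := 3) (c := 3) (cn := .pnn) (n1 := ndN2q0) (n2 := ndN2q3) (pc := pcN3) (cut := Cut.none) (xt := Ext.none) (P1 := 0) (W1 := 536870912) (P2 := 1610612736) (W2 := 536870912) (P3 := 134217728) (W3 := 67108864) (N0 := 3)
    rfl k0_pm_033

noncomputable def f_pm_101 : ℕ → ℕ → ℕ → ℕ → Bool := onCell 536870912 536870912 536870912 536870912 134217728 67108864
    (rowN 3 0 false true false .npn 1 0 1 (qsf 536870912 536870912 536870912 536870912 0) ndN2q1 ndN2q1 pcN0 Cut.none Ext.none)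

def k0_pm_101 : ∃ t, chk3 f_pm_101 t 1 1 1 = true :=
  ⟨(l 4), by decide +kernel⟩

theorem c_pm_101 : CertN 536870912 536870912 536870912 536870912 134217728 67108864 3 false true false .npn 1 0 1
    ndN2q1 ndN2q1 pcN0 Cut.none Ext.none :=
  certN0 (fam := false) (s1 := true) (s2 := false) (a := 1) (b := 0) (c := 1) (cn := .npn) (n1 := ndN2q1) (n2 := ndN2q1) (pc := pcN0) (cut := Cut.none) (xt := Ext.none) (P1 := 536870912) (W1 := 536870912) (P2 := 536870912) (W2 := 536870912) (P3 := 134217728) (W3 := 67108864) (N0 := 3)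
    rfl k0_pm_101

noncomputable def f_pm_102_a : ℕ → ℕ → ℕ → ℕ → Bool := onCell 536870912 536870912 0 536870912 134217728 67108864
    (rowN 3 0 false true false .npp 1 0 2 (qsf 536870912 536870912 0 536870912 0) ndN2q1 ndN2q2a pcN0 Cut.none Ext.none)

def k0_pm_102_a : ∃ t, chk3 f_pm_102_a t 1 1 1 = true :=
  ⟨(l 4), by decide +kernel⟩

theorem c_pm_102_a : CertN 536870912 536870912 0 536870912 134217728 67108864 3 false true false .npp 1 0 2
    ndN2q1 ndN2q2a pcN0 Cut.none Ext.none :=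
  certN0 (fam := false) (s1 := true) (s2 := false) (a := 1) (b := 0) (c := 2) (cn := .npp) (n1 := ndN2q1) (n2 := ndN2q2a) (pc := pcN0) (cut := Cut.none) (xt := Ext.none) (P1 := 536870912) (W1 := 536870912) (P2 := 0) (W2 := 536870912) (P3 := 134217728) (W3 := 67108864) (N0 := 3)
    rfl k0_pm_102_a

noncomputable def f_pm_102_b : ℕ → ℕ → ℕ → ℕ → Bool := onCell 536870912 536870912 1239849684 370763052 134217728 67108864
    (rowN 3 0 false true false .npp 1 0 2 (qsf 536870912 536870912 1239849684 370763052 0) ndN2q1 ndN2q2b pcN0 Cut.none Ext.none)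

def k0_pm_102_b : ∃ t, chk3 f_pm_102_b t 1 1 1 = true :=
  ⟨(l 4), by decide +kernel⟩

theorem c_pm_102_b : CertN 536870912 536870912 1239849684 370763052 134217728 67108864 3 false true false .npp 1 0 2
    ndN2q1 ndN2q2b pcN0 Cut.none Ext.none :=
  certN0 (fam := false) (s1 := true) (s2 := false) (a := 1) (b := 0) (c := 2) (cn := .npp) (n1 := ndN2q1) (n2 := ndN2q2b) (pc := pcN0) (cut := Cut.none) (xt := Ext.none) (P1 := 536870912) (W1 := 536870912) (P2 := 1239849684) (W2 := 370763052) (P3 := 134217728) (W3 := 67108864) (N0 := 3)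
    rfl k0_pm_102_b

noncomputable def f_pm_112_a : ℕ → ℕ → ℕ → ℕ → Bool := onCell 536870912 536870912 0 536870912 134217728 67108864
    (rowN 3 0 false true false .dn 1 1 2 (qsf 536870912 536870912 0 536870912 1) ndN2q1 ndN2q2a pcN1 Cut.none Ext.none)

def k0_pm_112_a : ∃ t, chk3 f_pm_112_a t 1 1 1 = true :=
  ⟨(l 4), by decide +kernel⟩

theorem c_pm_112_a : CertN 536870912 536870912 0 536870912 134217728 67108864 3 false true false .dn 1 1 2
    ndN2q1 ndN2q2a pcN1 Cut.none Ext.none :=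
  certN0 (fam := false) (s1 := true) (s2 := false) (a := 1) (b := 1) (c := 2) (cn := .dn) (n1 := ndN2q1) (n2 := ndN2q2a) (pc := pcN1) (cut := Cut.none) (xt := Ext.none) (P1 := 536870912) (W1 := 536870912) (P2 := 0) (W2 := 536870912) (P3 := 134217728) (W3 := 67108864) (N0 := 3)
    rfl k0_pm_112_a

noncomputable def f_pm_112_b : ℕ → ℕ → ℕ → ℕ → Bool := onCell 536870912 536870912 1239849684 370763052 134217728 67108864
    (rowN 3 0 false true false .dn 1 1 2 (qsf 536870912 536870912 1239849684 370763052 1) ndN2q1 ndN2q2b pcN1 Cut.none Ext.none)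

def k0_pm_112_b : ∃ t, chk3 f_pm_112_b t 1 1 1 = true :=
  ⟨(l 4), by decide +kernel⟩

theorem c_pm_112_b : CertN 536870912 536870912 1239849684 370763052 134217728 67108864 3 false true false .dn 1 1 2
    ndN2q1 ndN2q2b pcN1 Cut.none Ext.none :=
  certN0 (fam := false) (s1 := true) (s2 := false) (a := 1) (b := 1) (c := 2) (cn := .dn) (n1 := ndN2q1) (n2 := ndN2q2b) (pc := pcN1) (cut := Cut.none) (xt := Ext.none) (P1 := 536870912) (W1 := 536870912) (P2 := 1239849684) (W2 := 370763052) (P3 := 134217728) (W3 := 67108864) (N0 := 3)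
    rfl k0_pm_112_b

noncomputable def f_pm_113 : ℕ → ℕ → ℕ → ℕ → Bool := onCell 536870912 536870912 536870912 536870912 134217728 67108864
    (rowN 3 1 false true false .nn 1 1 3 (qsf 536870912 536870912 1610612736 536870912 1) ndN2q1 ndN2q3 pcN1 Cut.none Ext.none)

def k0_pm_113 : ∃ t, chk3 f_pm_113 t 1 1 1 = true :=
  ⟨(b (l 4) (a (l 4) (b (l 17702032) (b (b (l 17555712) (l 17515976)) (l 17411736))))), by decide +kernel⟩

theorem c_pm_113 : CertN 536870912 536870912 1610612736 536870912 134217728 67108864 3 false true false .nn 1 1 3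
    ndN2q1 ndN2q3 pcN1 Cut.none Ext.none :=
  certN1 (fam := false) (s1 := true) (s2 := false) (a := 1) (b := 1) (c := 3) (cn := .nn) (n1 := ndN2q1) (n2 := ndN2q3) (pc := pcN1) (cut := Cut.none) (xt := Ext.none) (P1 := 536870912) (W1 := 536870912) (P2 := 1610612736) (W2 := 536870912) (P3 := 134217728) (W3 := 67108864) (N0 := 3)
    rfl (fun _ => rfl) k0_pm_113

noncomputable def f_pm_123 : ℕ → ℕ → ℕ → ℕ → Bool := onCell 1073741824 536870912 1610612736 536870912 134217728 67108864
    (rowN 3 2 false true false .npn 1 2 3 (qsf 536870912 536870912 1610612736 536870912 2) ndN2q1 ndN2q3 pcN2 Cut.none Ext.none)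

def k0_pm_123 : ∃ t, chk3 f_pm_123 t 1 1 1 = true :=
  ⟨(b (l 4) (a (a (l 17449128) (l 17482392)) (l 4))), by decide +kernel⟩

theorem c_pm_123 : CertN 536870912 536870912 1610612736 536870912 134217728 67108864 3 false true false .npn 1 2 3
    ndN2q1 ndN2q3 pcN2 Cut.none Ext.none :=
  certN2 (fam := false) (s1 := true) (s2 := false) (a := 1) (b := 2) (c := 3) (cn := .npn) (n1 := ndN2q1) (n2 := ndN2q3) (pc := pcN2) (cut := Cut.none) (xt := Ext.none) (P1 := 536870912) (W1 := 536870912) (P2 := 1610612736) (W2 := 536870912) (P3 := 134217728) (W3 := 67108864) (N0 := 3)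
    rfl (fun _ => rfl) k0_pm_123

noncomputable def f_pm_133 : ℕ → ℕ → ℕ → ℕ → Bool := onCell 536870912 536870912 1610612736 536870912 134217728 67108864
    (rowN 3 0 false true false .dn 1 3 3 (qsf 536870912 536870912 1610612736 536870912 3) ndN2q1 ndN2q3 pcN3 Cut.none Ext.none)

def k0_pm_133 : ∃ t, chk3 f_pm_133 t 1 1 1 = true :=
  ⟨(a (l 4) (l 1)), by decide +kernel⟩

theorem c_pm_133 : CertN 536870912 536870912 1610612736 536870912 134217728 67108864 3 false true false .dn 1 3 3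
    ndN2q1 ndN2q3 pcN3 Cut.none Ext.none :=
  certN0 (fam := false) (s1 := true) (s2 := false) (a := 1) (b := 3) (c := 3) (cn := .dn) (n1 := ndN2q1) (n2 := ndN2q3) (pc := pcN3) (cut := Cut.none) (xt := Ext.none) (P1 := 536870912) (W1 := 536870912) (P2 := 1610612736) (W2 := 536870912) (P3 := 134217728) (W3 := 67108864) (N0 := 3)
    rfl k0_pm_133

noncomputable def cut_pm_202_aa : Cut := Cut.of [[⟨0, 1, 0, 67108864⟩, ⟨1, 0, 0, 67108864⟩, ⟨2, 1, 0, 67108864⟩]]

noncomputable def f_pm_202_aa : ℕ → ℕ → ℕ → ℕ → Bool := onCell 0 536870912 0 536870912 134217728 67108864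
    (rowN 3 0 false true false .pp 2 0 2 (qsf 0 536870912 0 536870912 0) ndN2q2a ndN2q2a pcN0 cut_pm_202_aa Ext.none)

def k0_pm_202_aa : ∃ t, chk3 f_pm_202_aa t 1 1 1 = true :=
  ⟨(b (l 3) (a (l 3) (a (l 3) (b (l 3) (a (l 3) (b (l 3) (l 6))))))), by decide +kernel⟩

theorem c_pm_202_aa : CertN 0 536870912 0 536870912 134217728 67108864 3 false true false .pp 2 0 2
    ndN2q2a ndN2q2a pcN0 cut_pm_202_aa Ext.none :=
  certN0 (fam := false) (s1 := true) (s2 := false) (a := 2) (b := 0) (c := 2) (cn := .pp) (n1 := ndN2q2a) (n2 := ndN2q2a) (pc := pcN0) (cut := cut_pm_202_aa) (xt := Ext.none) (P1 := 0) (W1 := 536870912) (P2 := 0) (W2 := 536870912) (P3 := 134217728) (W3 := 67108864) (N0 := 3)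
    rfl k0_pm_202_aa

noncomputable def cut_pm_202_ab : Cut := Cut.of [[⟨0, 1, 0, 67108864⟩, ⟨1, 0, 0, 67108864⟩, ⟨2, 1, 0, 67108864⟩]]

noncomputable def f_pm_202_ab : ℕ → ℕ → ℕ → ℕ → Bool := onCell 0 536870912 1239849684 370763052 134217728 67108864
    (rowN 3 0 false true false .pp 2 0 2 (qsf 0 536870912 1239849684 370763052 0) ndN2q2a ndN2q2b pcN0 cut_pm_202_ab Ext.none)

def k0_pm_202_ab : ∃ t, chk3 f_pm_202_ab t 1 1 1 = true :=
  ⟨(b (l 3) (l 3)), by decide +kernel⟩

theorem c_pm_202_ab : CertN 0 536870912 1239849684 370763052 134217728 67108864 3 false true false .pp 2 0 2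
    ndN2q2a ndN2q2b pcN0 cut_pm_202_ab Ext.none :=
  certN0 (fam := false) (s1 := true) (s2 := false) (a := 2) (b := 0) (c := 2) (cn := .pp) (n1 := ndN2q2a) (n2 := ndN2q2b) (pc := pcN0) (cut := cut_pm_202_ab) (xt := Ext.none) (P1 := 0) (W1 := 536870912) (P2 := 1239849684) (W2 := 370763052) (P3 := 134217728) (W3 := 67108864) (N0 := 3)
    rfl k0_pm_202_ab

noncomputable def cut_pm_202_ba : Cut := Cut.of [[⟨0, 1, 0, 67108864⟩, ⟨1, 0, 0, 67108864⟩, ⟨2, 1, 0, 67108864⟩]]

noncomputable def f_pm_202_ba : ℕ → ℕ → ℕ → ℕ → Bool := onCell 1239849684 370763052 0 536870912 134217728 67108864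
    (rowN 3 0 false true false .pp 2 0 2 (qsf 1239849684 370763052 0 536870912 0) ndN2q2b ndN2q2a pcN0 cut_pm_202_ba Ext.none)

def k0_pm_202_ba : ∃ t, chk3 f_pm_202_ba t 1 1 1 = true :=
  ⟨(b (l 3) (l 1)), by decide +kernel⟩

theorem c_pm_202_ba : CertN 1239849684 370763052 0 536870912 134217728 67108864 3 false true false .pp 2 0 2
    ndN2q2b ndN2q2a pcN0 cut_pm_202_ba Ext.none :=
  certN0 (fam := false) (s1 := true) (s2 := false) (a := 2) (b := 0) (c := 2) (cn := .pp) (n1 := ndN2q2b) (n2 := ndN2q2a) (pc := pcN0) (cut := cut_pm_202_ba) (xt := Ext.none) (P1 := 1239849684) (W1 := 370763052) (P2 := 0) (W2 := 536870912) (P3 := 134217728) (W3 := 67108864) (N0 := 3)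
    rfl k0_pm_202_ba

noncomputable def cut_pm_202_bb : Cut := Cut.of [[⟨0, 1, 0, 67108864⟩, ⟨1, 0, 0, 67108864⟩, ⟨2, 1, 0, 67108864⟩]]

noncomputable def f_pm_202_bb : ℕ → ℕ → ℕ → ℕ → Bool := onCell 1239849684 370763052 1239849684 370763052 134217728 67108864
    (rowN 3 0 false true false .pp 2 0 2 (qsf 1239849684 370763052 1239849684 370763052 0) ndN2q2b ndN2q2b pcN0 cut_pm_202_bb Ext.none)

def k0_pm_202_bb : ∃ t, chk3 f_pm_202_bb t 1 1 1 = true :=
  ⟨(l 3), by decide +kernel⟩

theorem c_pm_202_bb : CertN 1239849684 370763052 1239849684 370763052 134217728 67108864 3 false true false .pp 2 0 2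
    ndN2q2b ndN2q2b pcN0 cut_pm_202_bb Ext.none :=
  certN0 (fam := false) (s1 := true) (s2 := false) (a := 2) (b := 0) (c := 2) (cn := .pp) (n1 := ndN2q2b) (n2 := ndN2q2b) (pc := pcN0) (cut := cut_pm_202_bb) (xt := Ext.none) (P1 := 1239849684) (W1 := 370763052) (P2 := 1239849684) (W2 := 370763052) (P3 := 134217728) (W3 := 67108864) (N0 := 3)
    rfl k0_pm_202_bb

noncomputable def f_pm_203_a : ℕ → ℕ → ℕ → ℕ → Bool := onCell 0 536870912 0 536870912 134217728 67108864
    (rowN 3 1 false true false .up 2 0 3 (qsf 0 536870912 1610612736 536870912 0) ndN2q2a ndN2q3 pcN0 Cut.none Ext.none)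

def k0_pm_203_a : ∃ t, chk3 f_pm_203_a t 1 1 1 = true :=
  ⟨(b (l 1) (l 3)), by decide +kernel⟩

theorem c_pm_203_a : CertN 0 536870912 1610612736 536870912 134217728 67108864 3 false true false .up 2 0 3
    ndN2q2a ndN2q3 pcN0 Cut.none Ext.none :=
  certN1 (fam := false) (s1 := true) (s2 := false) (a := 2) (b := 0) (c := 3) (cn := .up) (n1 := ndN2q2a) (n2 := ndN2q3) (pc := pcN0) (cut := Cut.none) (xt := Ext.none) (P1 := 0) (W1 := 536870912) (P2 := 1610612736) (W2 := 536870912) (P3 := 134217728) (W3 := 67108864) (N0 := 3)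
    rfl (fun _ => rfl) k0_pm_203_a

noncomputable def f_pm_203_b : ℕ → ℕ → ℕ → ℕ → Bool := onCell 1239849684 370763052 1610612736 536870912 134217728 67108864
    (rowN 3 0 false true false .up 2 0 3 (qsf 1239849684 370763052 1610612736 536870912 0) ndN2q2b ndN2q3 pcN0 Cut.none Ext.none)

def k0_pm_203_b : ∃ t, chk3 f_pm_203_b t 1 1 1 = true :=
  ⟨(b (l 3) (l 3)), by decide +kernel⟩

theorem c_pm_203_b : CertN 1239849684 370763052 1610612736 536870912 134217728 67108864 3 false true false .up 2 0 3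
    ndN2q2b ndN2q3 pcN0 Cut.none Ext.none :=
  certN0 (fam := false) (s1 := true) (s2 := false) (a := 2) (b := 0) (c := 3) (cn := .up) (n1 := ndN2q2b) (n2 := ndN2q3) (pc := pcN0) (cut := Cut.none) (xt := Ext.none) (P1 := 1239849684) (W1 := 370763052) (P2 := 1610612736) (W2 := 536870912) (P3 := 134217728) (W3 := 67108864) (N0 := 3)
    rfl k0_pm_203_b

noncomputable def cut_pm_213_a : Cut := Cut.of [[⟨0, 1, 0, 39843005⟩, ⟨1, 1, 0, 39843005⟩, ⟨2, 2, 0, 5814905⟩]]

noncomputable def f_pm_213_a : ℕ → ℕ → ℕ → ℕ → Bool := onCell 0 536870912 1610612736 536870912 134217728 67108864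
    (rowN 3 0 false true false .pnn 2 1 3 (qsf 0 536870912 1610612736 536870912 1) ndN2q2a ndN2q3 pcN1 cut_pm_213_a Ext.none)

def k0_pm_213_a : ∃ t, chk3 f_pm_213_a t 1 1 1 = true :=
  ⟨(a (l 3) (b (l 3) (a (l 3) (b (l 3) (b (l 3) (a (l 3) (b (l 3) (a (l 3) (b (l 3) (b (l 3) (b (l 3) (l 6)))))))))))), by decide +kernel⟩

theorem c_pm_213_a : CertN 0 536870912 1610612736 536870912 134217728 67108864 3 false true false .pnn 2 1 3
    ndN2q2a ndN2q3 pcN1 cut_pm_213_a Ext.none :=
  certN0 (fam := false) (s1 := true) (s2 := false) (a := 2) (b := 1) (c := 3) (cn := .pnn) (n1 := ndN2q2a) (n2 := ndN2q3) (pc := pcN1) (cut := cut_pm_213_a) (xt := Ext.none) (P1 := 0) (W1 := 536870912) (P2 := 1610612736) (W2 := 536870912) (P3 := 134217728) (W3 := 67108864) (N0 := 3)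
    rfl k0_pm_213_a

noncomputable def cut_pm_213_b : Cut := Cut.of [[⟨0, 1, 0, 39843005⟩, ⟨1, 1, 0, 39843005⟩, ⟨2, 2, 0, 5814905⟩]]

noncomputable def f_pm_213_b : ℕ → ℕ → ℕ → ℕ → Bool := onCell 1239849684 370763052 1610612736 536870912 134217728 67108864
    (rowN 3 0 false true false .pnn 2 1 3 (qsf 1239849684 370763052 1610612736 536870912 1) ndN2q2b ndN2q3 pcN1 cut_pm_213_b Ext.none)

def k0_pm_213_b : ∃ t, chk3 f_pm_213_b t 1 1 1 = true :=
  ⟨(b (l 3) (l 3)), by decide +kernel⟩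

theorem c_pm_213_b : CertN 1239849684 370763052 1610612736 536870912 134217728 67108864 3 false true false .pnn 2 1 3
    ndN2q2b ndN2q3 pcN1 cut_pm_213_b Ext.none :=
  certN0 (fam := false) (s1 := true) (s2 := false) (a := 2) (b := 1) (c := 3) (cn := .pnn) (n1 := ndN2q2b) (n2 := ndN2q3) (pc := pcN1) (cut := cut_pm_213_b) (xt := Ext.none) (P1 := 1239849684) (W1 := 370763052) (P2 := 1610612736) (W2 := 536870912) (P3 := 134217728) (W3 := 67108864) (N0 := 3)
    rfl k0_pm_213_b

noncomputable def f_pm_303 : ℕ → ℕ → ℕ → ℕ → Bool := onCell 1610612736 536870912 1610612736 536870912 134217728 67108864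
    (rowN 3 0 false true false .npn 3 0 3 (qsf 1610612736 536870912 1610612736 536870912 0) ndN2q3 ndN2q3 pcN0 Cut.none Ext.none)

def k0_pm_303 : ∃ t, chk3 f_pm_303 t 1 1 1 = true :=
  ⟨(l 3), by decide +kernel⟩

theorem c_pm_303 : CertN 1610612736 536870912 1610612736 536870912 134217728 67108864 3 false true false .npn 3 0 3
    ndN2q3 ndN2q3 pcN0 Cut.none Ext.none :=
  certN0 (fam := false) (s1 := true) (s2 := false) (a := 3) (b := 0) (c := 3) (cn := .npn) (n1 := ndN2q3) (n2 := ndN2q3) (pc := pcN0) (cut := Cut.none) (xt := Ext.none) (P1 := 1610612736) (W1 := 536870912) (P2 := 1610612736) (W2 := 536870912) (P3 := 134217728) (W3 := 67108864) (N0 := 3)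
    rfl k0_pm_303

noncomputable def f_pm_313 : ℕ → ℕ → ℕ → ℕ → Bool := onCell 1610612736 536870912 1610612736 536870912 134217728 67108864
    (rowN 3 0 false true false .dn 3 1 3 (qsf 1610612736 536870912 1610612736 536870912 1) ndN2q3 ndN2q3 pcN1 Cut.none Ext.none)

def k0_pm_313 : ∃ t, chk3 f_pm_313 t 1 1 1 = true :=
  ⟨(l 3), by decide +kernel⟩

theorem c_pm_313 : CertN 1610612736 536870912 1610612736 536870912 134217728 67108864 3 false true false .dn 3 1 3
    ndN2q3 ndN2q3 pcN1 Cut.none Ext.none :=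
  certN0 (fam := false) (s1 := true) (s2 := false) (a := 3) (b := 1) (c := 3) (cn := .dn) (n1 := ndN2q3) (n2 := ndN2q3) (pc := pcN1) (cut := Cut.none) (xt := Ext.none) (P1 := 1610612736) (W1 := 536870912) (P2 := 1610612736) (W2 := 536870912) (P3 := 134217728) (W3 := 67108864) (N0 := 3)
    rfl k0_pm_313

noncomputable def f_mm_001 : ℕ → ℕ → ℕ → ℕ → Bool := onCell 0 536870912 0 536870912 134217728 67108864
    (rowN 3 1 false false false .up 0 0 1 (qsf 0 536870912 536870912 536870912 0) ndN2q0 ndN2q1 pcN0 Cut.none Ext.none)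

def k0_mm_001 : ∃ t, chk3 f_mm_001 t 1 1 1 = true :=
  ⟨(l 3), by decide +kernel⟩

theorem c_mm_001 : CertN 0 536870912 536870912 536870912 134217728 67108864 3 false false false .up 0 0 1
    ndN2q0 ndN2q1 pcN0 Cut.none Ext.none :=
  certN1 (fam := false) (s1 := false) (s2 := false) (a := 0) (b := 0) (c := 1) (cn := .up) (n1 := ndN2q0) (n2 := ndN2q1) (pc := pcN0) (cut := Cut.none) (xt := Ext.none) (P1 := 0) (W1 := 536870912) (P2 := 536870912) (W2 := 536870912) (P3 := 134217728) (W3 := 67108864) (N0 := 3)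
    rfl (fun _ => rfl) k0_mm_001

noncomputable def f_mm_011 : ℕ → ℕ → ℕ → ℕ → Bool := onCell 0 536870912 536870912 536870912 134217728 67108864
    (rowN 3 1 false false false .pnn 0 1 1 (qsf 0 536870912 536870912 536870912 1) ndN2q0 ndN2q1 pcN1 Cut.none Ext.none)

def k0_mm_011 : ∃ t, chk3 f_mm_011 t 1 1 1 = true :=
  ⟨(l 5), by decide +kernel⟩

theorem c_mm_011 : CertN 0 536870912 536870912 536870912 134217728 67108864 3 false false false .pnn 0 1 1
    ndN2q0 ndN2q1 pcN1 Cut.none Ext.none :=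
  certN1 (fam := false) (s1 := false) (s2 := false) (a := 0) (b := 1) (c := 1) (cn := .pnn) (n1 := ndN2q0) (n2 := ndN2q1) (pc := pcN1) (cut := Cut.none) (xt := Ext.none) (P1 := 0) (W1 := 536870912) (P2 := 536870912) (W2 := 536870912) (P3 := 134217728) (W3 := 67108864) (N0 := 3)
    rfl (fun _ => rfl) k0_mm_011

noncomputable def f_mm_012_a : ℕ → ℕ → ℕ → ℕ → Bool := onCell 0 536870912 0 536870912 134217728 67108864
    (rowN 3 0 false false false .pnp 0 1 2 (qsf 0 536870912 0 536870912 1) ndN2q0 ndN2q2a pcN1 Cut.none Ext.none)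

def k0_mm_012_a : ∃ t, chk3 f_mm_012_a t 1 1 1 = true :=
  ⟨(l 5), by decide +kernel⟩

theorem c_mm_012_a : CertN 0 536870912 0 536870912 134217728 67108864 3 false false false .pnp 0 1 2
    ndN2q0 ndN2q2a pcN1 Cut.none Ext.none :=
  certN0 (fam := false) (s1 := false) (s2 := false) (a := 0) (b := 1) (c := 2) (cn := .pnp) (n1 := ndN2q0) (n2 := ndN2q2a) (pc := pcN1) (cut := Cut.none) (xt := Ext.none) (P1 := 0) (W1 := 536870912) (P2 := 0) (W2 := 536870912) (P3 := 134217728) (W3 := 67108864) (N0 := 3)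
    rfl k0_mm_012_a

noncomputable def f_mm_012_b : ℕ → ℕ → ℕ → ℕ → Bool := onCell 0 536870912 1239849684 370763052 134217728 67108864
    (rowN 3 0 false false false .pnp 0 1 2 (qsf 0 536870912 1239849684 370763052 1) ndN2q0 ndN2q2b pcN1 Cut.none Ext.none)

def k0_mm_012_b : ∃ t, chk3 f_mm_012_b t 1 1 1 = true :=
  ⟨(l 5), by decide +kernel⟩

theorem c_mm_012_b : CertN 0 536870912 1239849684 370763052 134217728 67108864 3 false false false .pnp 0 1 2
    ndN2q0 ndN2q2b pcN1 Cut.none Ext.none :=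
  certN0 (fam := false) (s1 := false) (s2 := false) (a := 0) (b := 1) (c := 2) (cn := .pnp) (n1 := ndN2q0) (n2 := ndN2q2b) (pc := pcN1) (cut := Cut.none) (xt := Ext.none) (P1 := 0) (W1 := 536870912) (P2 := 1239849684) (W2 := 370763052) (P3 := 134217728) (W3 := 67108864) (N0 := 3)
    rfl k0_mm_012_b

noncomputable def f_mm_022_a : ℕ → ℕ → ℕ → ℕ → Bool := onCell 0 536870912 0 536870912 134217728 67108864
    (rowN 3 0 false false false .pp 0 2 2 (qsf 0 536870912 0 536870912 2) ndN2q0 ndN2q2a pcN2 Cut.none Ext.none)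

def k0_mm_022_a : ∃ t, chk3 f_mm_022_a t 1 1 1 = true :=
  ⟨(l 5), by decide +kernel⟩

theorem c_mm_022_a : CertN 0 536870912 0 536870912 134217728 67108864 3 false false false .pp 0 2 2
    ndN2q0 ndN2q2a pcN2 Cut.none Ext.none :=
  certN0 (fam := false) (s1 := false) (s2 := false) (a := 0) (b := 2) (c := 2) (cn := .pp) (n1 := ndN2q0) (n2 := ndN2q2a) (pc := pcN2) (cut := Cut.none) (xt := Ext.none) (P1 := 0) (W1 := 536870912) (P2 := 0) (W2 := 536870912) (P3 := 134217728) (W3 := 67108864) (N0 := 3)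
    rfl k0_mm_022_a

noncomputable def f_mm_022_b : ℕ → ℕ → ℕ → ℕ → Bool := onCell 0 536870912 1239849684 370763052 134217728 67108864
    (rowN 3 0 false false false .pp 0 2 2 (qsf 0 536870912 1239849684 370763052 2) ndN2q0 ndN2q2b pcN2 Cut.none Ext.none)

def k0_mm_022_b : ∃ t, chk3 f_mm_022_b t 1 1 1 = true :=
  ⟨(l 5), by decide +kernel⟩

theorem c_mm_022_b : CertN 0 536870912 1239849684 370763052 134217728 67108864 3 false false false .pp 0 2 2
    ndN2q0 ndN2q2b pcN2 Cut.none Ext.none :=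
  certN0 (fam := false) (s1 := false) (s2 := false) (a := 0) (b := 2) (c := 2) (cn := .pp) (n1 := ndN2q0) (n2 := ndN2q2b) (pc := pcN2) (cut := Cut.none) (xt := Ext.none) (P1 := 0) (W1 := 536870912) (P2 := 1239849684) (W2 := 370763052) (P3 := 134217728) (W3 := 67108864) (N0 := 3)
    rfl k0_mm_022_b

noncomputable def f_mm_023 : ℕ → ℕ → ℕ → ℕ → Bool := onCell 0 536870912 1610612736 536870912 134217728 67108864
    (rowN 3 0 false false false .up 0 2 3 (qsf 0 536870912 1610612736 536870912 2) ndN2q0 ndN2q3 pcN2 Cut.none Ext.none)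

def k0_mm_023 : ∃ t, chk3 f_mm_023 t 1 1 1 = true :=
  ⟨(l 5), by decide +kernel⟩

theorem c_mm_023 : CertN 0 536870912 1610612736 536870912 134217728 67108864 3 false false false .up 0 2 3
    ndN2q0 ndN2q3 pcN2 Cut.none Ext.none :=
  certN0 (fam := false) (s1 := false) (s2 := false) (a := 0) (b := 2) (c := 3) (cn := .up) (n1 := ndN2q0) (n2 := ndN2q3) (pc := pcN2) (cut := Cut.none) (xt := Ext.none) (P1 := 0) (W1 := 536870912) (P2 := 1610612736) (W2 := 536870912) (P3 := 134217728) (W3 := 67108864) (N0 := 3)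
    rfl k0_mm_023

noncomputable def f_mm_033 : ℕ → ℕ → ℕ → ℕ → Bool := onCell 0 536870912 1610612736 536870912 134217728 67108864
    (rowN 3 0 false false false .pnn 0 3 3 (qsf 0 536870912 1610612736 536870912 3) ndN2q0 ndN2q3 pcN3 Cut.none Ext.none)

def k0_mm_033 : ∃ t, chk3 f_mm_033 t 1 1 1 = true :=
  ⟨(l 5), by decide +kernel⟩

theorem c_mm_033 : CertN 0 536870912 1610612736 536870912 134217728 67108864 3 false false false .pnn 0 3 3
    ndN2q0 ndN2q3 pcN3 Cut.none Ext.none :=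
  certN0 (fam := false) (s1 := false) (s2 := false) (a := 0) (b := 3) (c := 3) (cn := .pnn) (n1 := ndN2q0) (n2 := ndN2q3) (pc := pcN3) (cut := Cut.none) (xt := Ext.none) (P1 := 0) (W1 := 536870912) (P2 := 1610612736) (W2 := 536870912) (P3 := 134217728) (W3 := 67108864) (N0 := 3)
    rfl k0_mm_033

noncomputable def f_mm_101 : ℕ → ℕ → ℕ → ℕ → Bool := onCell 536870912 536870912 536870912 536870912 134217728 67108864
    (rowN 3 0 false false false .npn 1 0 1 (qsf 536870912 536870912 536870912 536870912 0) ndN2q1 ndN2q1 pcN0 Cut.none Ext.none)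

def k0_mm_101 : ∃ t, chk3 f_mm_101 t 1 1 1 = true :=
  ⟨(l 3), by decide +kernel⟩

theorem c_mm_101 : CertN 536870912 536870912 536870912 536870912 134217728 67108864 3 false false false .npn 1 0 1
    ndN2q1 ndN2q1 pcN0 Cut.none Ext.none :=
  certN0 (fam := false) (s1 := false) (s2 := false) (a := 1) (b := 0) (c := 1) (cn := .npn) (n1 := ndN2q1) (n2 := ndN2q1) (pc := pcN0) (cut := Cut.none) (xt := Ext.none) (P1 := 536870912) (W1 := 536870912) (P2 := 536870912) (W2 := 536870912) (P3 := 134217728) (W3 := 67108864) (N0 := 3)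
    rfl k0_mm_101

noncomputable def f_mm_102_a : ℕ → ℕ → ℕ → ℕ → Bool := onCell 536870912 536870912 0 536870912 134217728 67108864
    (rowN 3 0 false false false .npp 1 0 2 (qsf 536870912 536870912 0 536870912 0) ndN2q1 ndN2q2a pcN0 Cut.none Ext.none)

def k0_mm_102_a : ∃ t, chk3 f_mm_102_a t 1 1 1 = true :=
  ⟨(l 5), by decide +kernel⟩

theorem c_mm_102_a : CertN 536870912 536870912 0 536870912 134217728 67108864 3 false false false .npp 1 0 2
    ndN2q1 ndN2q2a pcN0 Cut.none Ext.none :=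
  certN0 (fam := false) (s1 := false) (s2 := false) (a := 1) (b := 0) (c := 2) (cn := .npp) (n1 := ndN2q1) (n2 := ndN2q2a) (pc := pcN0) (cut := Cut.none) (xt := Ext.none) (P1 := 536870912) (W1 := 536870912) (P2 := 0) (W2 := 536870912) (P3 := 134217728) (W3 := 67108864) (N0 := 3)
    rfl k0_mm_102_a

noncomputable def f_mm_102_b : ℕ → ℕ → ℕ → ℕ → Bool := onCell 536870912 536870912 1239849684 370763052 134217728 67108864
    (rowN 3 0 false false false .npp 1 0 2 (qsf 536870912 536870912 1239849684 370763052 0) ndN2q1 ndN2q2b pcN0 Cut.none Ext.none)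

def k0_mm_102_b : ∃ t, chk3 f_mm_102_b t 1 1 1 = true :=
  ⟨(l 5), by decide +kernel⟩

theorem c_mm_102_b : CertN 536870912 536870912 1239849684 370763052 134217728 67108864 3 false false false .npp 1 0 2
    ndN2q1 ndN2q2b pcN0 Cut.none Ext.none :=
  certN0 (fam := false) (s1 := false) (s2 := false) (a := 1) (b := 0) (c := 2) (cn := .npp) (n1 := ndN2q1) (n2 := ndN2q2b) (pc := pcN0) (cut := Cut.none) (xt := Ext.none) (P1 := 536870912) (W1 := 536870912) (P2 := 1239849684) (W2 := 370763052) (P3 := 134217728) (W3 := 67108864) (N0 := 3)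
    rfl k0_mm_102_b

noncomputable def f_mm_112_a : ℕ → ℕ → ℕ → ℕ → Bool := onCell 536870912 536870912 0 536870912 134217728 67108864
    (rowN 3 0 false false false .dn 1 1 2 (qsf 536870912 536870912 0 536870912 1) ndN2q1 ndN2q2a pcN1 Cut.none Ext.none)

def k0_mm_112_a : ∃ t, chk3 f_mm_112_a t 1 1 1 = true :=
  ⟨(l 5), by decide +kernel⟩

theorem c_mm_112_a : CertN 536870912 536870912 0 536870912 134217728 67108864 3 false false false .dn 1 1 2
    ndN2q1 ndN2q2a pcN1 Cut.none Ext.none :=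
  certN0 (fam := false) (s1 := false) (s2 := false) (a := 1) (b := 1) (c := 2) (cn := .dn) (n1 := ndN2q1) (n2 := ndN2q2a) (pc := pcN1) (cut := Cut.none) (xt := Ext.none) (P1 := 536870912) (W1 := 536870912) (P2 := 0) (W2 := 536870912) (P3 := 134217728) (W3 := 67108864) (N0 := 3)
    rfl k0_mm_112_a

noncomputable def f_mm_112_b : ℕ → ℕ → ℕ → ℕ → Bool := onCell 536870912 536870912 1239849684 370763052 134217728 67108864
    (rowN 3 0 false false false .dn 1 1 2 (qsf 536870912 536870912 1239849684 370763052 1) ndN2q1 ndN2q2b pcN1 Cut.none Ext.none)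

def k0_mm_112_b : ∃ t, chk3 f_mm_112_b t 1 1 1 = true :=
  ⟨(l 5), by decide +kernel⟩

theorem c_mm_112_b : CertN 536870912 536870912 1239849684 370763052 134217728 67108864 3 false false false .dn 1 1 2
    ndN2q1 ndN2q2b pcN1 Cut.none Ext.none :=
  certN0 (fam := false) (s1 := false) (s2 := false) (a := 1) (b := 1) (c := 2) (cn := .dn) (n1 := ndN2q1) (n2 := ndN2q2b) (pc := pcN1) (cut := Cut.none) (xt := Ext.none) (P1 := 536870912) (W1 := 536870912) (P2 := 1239849684) (W2 := 370763052) (P3 := 134217728) (W3 := 67108864) (N0 := 3)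
    rfl k0_mm_112_b

noncomputable def f_mm_113 : ℕ → ℕ → ℕ → ℕ → Bool := onCell 536870912 536870912 1610612736 536870912 134217728 67108864
    (rowN 3 0 false false false .nn 1 1 3 (qsf 536870912 536870912 1610612736 536870912 1) ndN2q1 ndN2q3 pcN1 Cut.none Ext.none)

def k0_mm_113 : ∃ t, chk3 f_mm_113 t 1 1 1 = true :=
  ⟨(l 5), by decide +kernel⟩

theorem c_mm_113 : CertN 536870912 536870912 1610612736 536870912 134217728 67108864 3 false false false .nn 1 1 3
    ndN2q1 ndN2q3 pcN1 Cut.none Ext.none :=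
  certN0 (fam := false) (s1 := false) (s2 := false) (a := 1) (b := 1) (c := 3) (cn := .nn) (n1 := ndN2q1) (n2 := ndN2q3) (pc := pcN1) (cut := Cut.none) (xt := Ext.none) (P1 := 536870912) (W1 := 536870912) (P2 := 1610612736) (W2 := 536870912) (P3 := 134217728) (W3 := 67108864) (N0 := 3)
    rfl k0_mm_113

noncomputable def f_mm_123 : ℕ → ℕ → ℕ → ℕ → Bool := onCell 536870912 536870912 1610612736 536870912 134217728 67108864
    (rowN 3 0 false false false .npn 1 2 3 (qsf 536870912 536870912 1610612736 536870912 2) ndN2q1 ndN2q3 pcN2 Cut.none Ext.none)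

def k0_mm_123 : ∃ t, chk3 f_mm_123 t 1 1 1 = true :=
  ⟨(l 5), by decide +kernel⟩

theorem c_mm_123 : CertN 536870912 536870912 1610612736 536870912 134217728 67108864 3 false false false .npn 1 2 3
    ndN2q1 ndN2q3 pcN2 Cut.none Ext.none :=
  certN0 (fam := false) (s1 := false) (s2 := false) (a := 1) (b := 2) (c := 3) (cn := .npn) (n1 := ndN2q1) (n2 := ndN2q3) (pc := pcN2) (cut := Cut.none) (xt := Ext.none) (P1 := 536870912) (W1 := 536870912) (P2 := 1610612736) (W2 := 536870912) (P3 := 134217728) (W3 := 67108864) (N0 := 3)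
    rfl k0_mm_123

noncomputable def f_mm_133 : ℕ → ℕ → ℕ → ℕ → Bool := onCell 536870912 536870912 1610612736 536870912 134217728 67108864
    (rowN 3 0 false false false .dn 1 3 3 (qsf 536870912 536870912 1610612736 536870912 3) ndN2q1 ndN2q3 pcN3 Cut.none Ext.none)

def k0_mm_133 : ∃ t, chk3 f_mm_133 t 1 1 1 = true :=
  ⟨(l 5), by decide +kernel⟩

theorem c_mm_133 : CertN 536870912 536870912 1610612736 536870912 134217728 67108864 3 false false false .dn 1 3 3
    ndN2q1 ndN2q3 pcN3 Cut.none Ext.none :=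
  certN0 (fam := false) (s1 := false) (s2 := false) (a := 1) (b := 3) (c := 3) (cn := .dn) (n1 := ndN2q1) (n2 := ndN2q3) (pc := pcN3) (cut := Cut.none) (xt := Ext.none) (P1 := 536870912) (W1 := 536870912) (P2 := 1610612736) (W2 := 536870912) (P3 := 134217728) (W3 := 67108864) (N0 := 3)
    rfl k0_mm_133

noncomputable def f_mm_202_aa : ℕ → ℕ → ℕ → ℕ → Bool := onCell 0 536870912 0 536870912 134217728 67108864
    (rowN 3 0 false false false .pp 2 0 2 (qsf 0 536870912 0 536870912 0) ndN2q2a ndN2q2a pcN0 Cut.none Ext.none)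

def k0_mm_202_aa : ∃ t, chk3 f_mm_202_aa t 1 1 1 = true :=
  ⟨(l 3), by decide +kernel⟩

theorem c_mm_202_aa : CertN 0 536870912 0 536870912 134217728 67108864 3 false false false .pp 2 0 2
    ndN2q2a ndN2q2a pcN0 Cut.none Ext.none :=
  certN0 (fam := false) (s1 := false) (s2 := false) (a := 2) (b := 0) (c := 2) (cn := .pp) (n1 := ndN2q2a) (n2 := ndN2q2a) (pc := pcN0) (cut := Cut.none) (xt := Ext.none) (P1 := 0) (W1 := 536870912) (P2 := 0) (W2 := 536870912) (P3 := 134217728) (W3 := 67108864) (N0 := 3)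
    rfl k0_mm_202_aa

noncomputable def f_mm_202_ab : ℕ → ℕ → ℕ → ℕ → Bool := onCell 0 536870912 1239849684 370763052 134217728 67108864
    (rowN 3 0 false false false .pp 2 0 2 (qsf 0 536870912 1239849684 370763052 0) ndN2q2a ndN2q2b pcN0 Cut.none Ext.none)

def k0_mm_202_ab : ∃ t, chk3 f_mm_202_ab t 1 1 1 = true :=
  ⟨(l 3), by decide +kernel⟩

theorem c_mm_202_ab : CertN 0 536870912 1239849684 370763052 134217728 67108864 3 false false false .pp 2 0 2
    ndN2q2a ndN2q2b pcN0 Cut.none Ext.none :=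
  certN0 (fam := false) (s1 := false) (s2 := false) (a := 2) (b := 0) (c := 2) (cn := .pp) (n1 := ndN2q2a) (n2 := ndN2q2b) (pc := pcN0) (cut := Cut.none) (xt := Ext.none) (P1 := 0) (W1 := 536870912) (P2 := 1239849684) (W2 := 370763052) (P3 := 134217728) (W3 := 67108864) (N0 := 3)
    rfl k0_mm_202_ab

noncomputable def f_mm_202_ba : ℕ → ℕ → ℕ → ℕ → Bool := onCell 1239849684 370763052 0 536870912 134217728 67108864
    (rowN 3 0 false false false .pp 2 0 2 (qsf 1239849684 370763052 0 536870912 0) ndN2q2b ndN2q2a pcN0 Cut.none Ext.none)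

def k0_mm_202_ba : ∃ t, chk3 f_mm_202_ba t 1 1 1 = true :=
  ⟨(l 3), by decide +kernel⟩

theorem c_mm_202_ba : CertN 1239849684 370763052 0 536870912 134217728 67108864 3 false false false .pp 2 0 2
    ndN2q2b ndN2q2a pcN0 Cut.none Ext.none :=
  certN0 (fam := false) (s1 := false) (s2 := false) (a := 2) (b := 0) (c := 2) (cn := .pp) (n1 := ndN2q2b) (n2 := ndN2q2a) (pc := pcN0) (cut := Cut.none) (xt := Ext.none) (P1 := 1239849684) (W1 := 370763052) (P2 := 0) (W2 := 536870912) (P3 := 134217728) (W3 := 67108864) (N0 := 3)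
    rfl k0_mm_202_ba

noncomputable def f_mm_202_bb : ℕ → ℕ → ℕ → ℕ → Bool := onCell 1239849684 370763052 1239849684 370763052 134217728 67108864
    (rowN 3 0 false false false .pp 2 0 2 (qsf 1239849684 370763052 1239849684 370763052 0) ndN2q2b ndN2q2b pcN0 Cut.none Ext.none)

def k0_mm_202_bb : ∃ t, chk3 f_mm_202_bb t 1 1 1 = true :=
  ⟨(l 3), by decide +kernel⟩

theorem c_mm_202_bb : CertN 1239849684 370763052 1239849684 370763052 134217728 67108864 3 false false false .pp 2 0 2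
    ndN2q2b ndN2q2b pcN0 Cut.none Ext.none :=
  certN0 (fam := false) (s1 := false) (s2 := false) (a := 2) (b := 0) (c := 2) (cn := .pp) (n1 := ndN2q2b) (n2 := ndN2q2b) (pc := pcN0) (cut := Cut.none) (xt := Ext.none) (P1 := 1239849684) (W1 := 370763052) (P2 := 1239849684) (W2 := 370763052) (P3 := 134217728) (W3 := 67108864) (N0 := 3)
    rfl k0_mm_202_bb

noncomputable def f_mm_203_a : ℕ → ℕ → ℕ → ℕ → Bool := onCell 0 536870912 1610612736 536870912 134217728 67108864
    (rowN 3 0 false false false .up 2 0 3 (qsf 0 536870912 1610612736 536870912 0) ndN2q2a ndN2q3 pcN0 Cut.none Ext.none)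

def k0_mm_203_a : ∃ t, chk3 f_mm_203_a t 1 1 1 = true :=
  ⟨(l 5), by decide +kernel⟩

theorem c_mm_203_a : CertN 0 536870912 1610612736 536870912 134217728 67108864 3 false false false .up 2 0 3
    ndN2q2a ndN2q3 pcN0 Cut.none Ext.none :=
  certN0 (fam := false) (s1 := false) (s2 := false) (a := 2) (b := 0) (c := 3) (cn := .up) (n1 := ndN2q2a) (n2 := ndN2q3) (pc := pcN0) (cut := Cut.none) (xt := Ext.none) (P1 := 0) (W1 := 536870912) (P2 := 1610612736) (W2 := 536870912) (P3 := 134217728) (W3 := 67108864) (N0 := 3)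
    rfl k0_mm_203_a

noncomputable def f_mm_203_b : ℕ → ℕ → ℕ → ℕ → Bool := onCell 1239849684 370763052 1610612736 536870912 134217728 67108864
    (rowN 3 0 false false false .up 2 0 3 (qsf 1239849684 370763052 1610612736 536870912 0) ndN2q2b ndN2q3 pcN0 Cut.none Ext.none)

def k0_mm_203_b : ∃ t, chk3 f_mm_203_b t 1 1 1 = true :=
  ⟨(l 3), by decide +kernel⟩

theorem c_mm_203_b : CertN 1239849684 370763052 1610612736 536870912 134217728 67108864 3 false false false .up 2 0 3
    ndN2q2b ndN2q3 pcN0 Cut.none Ext.none :=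
  certN0 (fam := false) (s1 := false) (s2 := false) (a := 2) (b := 0) (c := 3) (cn := .up) (n1 := ndN2q2b) (n2 := ndN2q3) (pc := pcN0) (cut := Cut.none) (xt := Ext.none) (P1 := 1239849684) (W1 := 370763052) (P2 := 1610612736) (W2 := 536870912) (P3 := 134217728) (W3 := 67108864) (N0 := 3)
    rfl k0_mm_203_b

noncomputable def f_mm_213_a : ℕ → ℕ → ℕ → ℕ → Bool := onCell 0 536870912 1610612736 536870912 134217728 67108864
    (rowN 3 0 false false false .pnn 2 1 3 (qsf 0 536870912 1610612736 536870912 1) ndN2q2a ndN2q3 pcN1 Cut.none Ext.none)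

def k0_mm_213_a : ∃ t, chk3 f_mm_213_a t 1 1 1 = true :=
  ⟨(l 5), by decide +kernel⟩

theorem c_mm_213_a : CertN 0 536870912 1610612736 536870912 134217728 67108864 3 false false false .pnn 2 1 3
    ndN2q2a ndN2q3 pcN1 Cut.none Ext.none :=
  certN0 (fam := false) (s1 := false) (s2 := false) (a := 2) (b := 1) (c := 3) (cn := .pnn) (n1 := ndN2q2a) (n2 := ndN2q3) (pc := pcN1) (cut := Cut.none) (xt := Ext.none) (P1 := 0) (W1 := 536870912) (P2 := 1610612736) (W2 := 536870912) (P3 := 134217728) (W3 := 67108864) (N0 := 3)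
    rfl k0_mm_213_a

noncomputable def f_mm_213_b : ℕ → ℕ → ℕ → ℕ → Bool := onCell 1239849684 370763052 1610612736 536870912 134217728 67108864
    (rowN 3 0 false false false .pnn 2 1 3 (qsf 1239849684 370763052 1610612736 536870912 1) ndN2q2b ndN2q3 pcN1 Cut.none Ext.none)

def k0_mm_213_b : ∃ t, chk3 f_mm_213_b t 1 1 1 = true :=
  ⟨(l 3), by decide +kernel⟩

theorem c_mm_213_b : CertN 1239849684 370763052 1610612736 536870912 134217728 67108864 3 false false false .pnn 2 1 3
    ndN2q2b ndN2q3 pcN1 Cut.none Ext.none :=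
  certN0 (fam := false) (s1 := false) (s2 := false) (a := 2) (b := 1) (c := 3) (cn := .pnn) (n1 := ndN2q2b) (n2 := ndN2q3) (pc := pcN1) (cut := Cut.none) (xt := Ext.none) (P1 := 1239849684) (W1 := 370763052) (P2 := 1610612736) (W2 := 536870912) (P3 := 134217728) (W3 := 67108864) (N0 := 3)
    rfl k0_mm_213_b

noncomputable def f_mm_303 : ℕ → ℕ → ℕ → ℕ → Bool := onCell 1610612736 536870912 1610612736 536870912 134217728 67108864
    (rowN 3 0 false false false .npn 3 0 3 (qsf 1610612736 536870912 1610612736 536870912 0) ndN2q3 ndN2q3 pcN0 Cut.none Ext.none)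

def k0_mm_303 : ∃ t, chk3 f_mm_303 t 1 1 1 = true :=
  ⟨(l 3), by decide +kernel⟩

theorem c_mm_303 : CertN 1610612736 536870912 1610612736 536870912 134217728 67108864 3 false false false .npn 3 0 3
    ndN2q3 ndN2q3 pcN0 Cut.none Ext.none :=
  certN0 (fam := false) (s1 := false) (s2 := false) (a := 3) (b := 0) (c := 3) (cn := .npn) (n1 := ndN2q3) (n2 := ndN2q3) (pc := pcN0) (cut := Cut.none) (xt := Ext.none) (P1 := 1610612736) (W1 := 536870912) (P2 := 1610612736) (W2 := 536870912) (P3 := 134217728) (W3 := 67108864) (N0 := 3)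
    rfl k0_mm_303

noncomputable def f_mm_313 : ℕ → ℕ → ℕ → ℕ → Bool := onCell 1610612736 536870912 1610612736 536870912 134217728 67108864
    (rowN 3 0 false false false .dn 3 1 3 (qsf 1610612736 536870912 1610612736 536870912 1) ndN2q3 ndN2q3 pcN1 Cut.none Ext.none)

def k0_mm_313 : ∃ t, chk3 f_mm_313 t 1 1 1 = true :=
  ⟨(l 3), by decide +kernel⟩

theorem c_mm_313 : CertN 1610612736 536870912 1610612736 536870912 134217728 67108864 3 false false false .dn 3 1 3
    ndN2q3 ndN2q3 pcN1 Cut.none Ext.none :=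
  certN0 (fam := false) (s1 := false) (s2 := false) (a := 3) (b := 1) (c := 3) (cn := .dn) (n1 := ndN2q3) (n2 := ndN2q3) (pc := pcN1) (cut := Cut.none) (xt := Ext.none) (P1 := 1610612736) (W1 := 536870912) (P2 := 1610612736) (W2 := 536870912) (P3 := 134217728) (W3 := 67108864) (N0 := 3)
    rfl k0_mm_313

end Pool.Agent.Strip051.G.I1_8_3_16.Tab.C.NB22

namespace Pool.Agent.Strip051.G.I1_8_3_16.Tab.C.NB23

open Pool.Agent.Strip051.PB Pool.Agent.Strip051.PB.T
open Pool.Agent.Strip051.G.I1_8_3_16.Tab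

noncomputable def f_pp_001 : ℕ → ℕ → ℕ → ℕ → Bool := onCell 0 536870912 0 536870912 134217728 67108864
    (rowN 3 1 false true true .up 0 0 1 (qsf 0 536870912 536870912 536870912 0) ndN2q0 ndN3q1 pcN0 Cut.none Ext.none)

def k0_pp_001 : ∃ t, chk3 f_pp_001 t 1 1 1 = true :=
  ⟨(l 3), by decide +kernel⟩

theorem c_pp_001 : CertN 0 536870912 536870912 536870912 134217728 67108864 3 false true true .up 0 0 1
    ndN2q0 ndN3q1 pcN0 Cut.none Ext.none :=
  certN1 (fam := false) (s1 := true) (s2 := true) (a := 0) (b := 0) (c := 1) (cn := .up) (n1 := ndN2q0) (n2 := ndN3q1) (pc := pcN0) (cut := Cut.none) (xt := Ext.none) (P1 := 0) (W1 := 536870912) (P2 := 536870912) (W2 := 536870912) (P3 := 134217728) (W3 := 67108864) (N0 := 3)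
    rfl (fun _ => rfl) k0_pp_001

noncomputable def cut_pp_011 : Cut := Cut.of [[⟨0, 0, 0, 67108864⟩, ⟨1, 1, 0, 67108864⟩, ⟨2, 1, 0, 67108864⟩]]

noncomputable def f_pp_011 : ℕ → ℕ → ℕ → ℕ → Bool := onCell 0 536870912 536870912 536870912 134217728 67108864
    (rowN 3 1 false true true .pnn 0 1 1 (qsf 0 536870912 536870912 536870912 1) ndN2q0 ndN3q1 pcN1 cut_pp_011 Ext.none)

def k0_pp_011 : ∃ t, chk3 f_pp_011 t 1 1 1 = true :=
  ⟨(a (b (l 3) (a (b (l 3) (a (a (b (l 3) (b (l 3) (l 6))) (l 3)) (l 3))) (l 3))) (l 3)), by decide +kernel⟩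

theorem c_pp_011 : CertN 0 536870912 536870912 536870912 134217728 67108864 3 false true true .pnn 0 1 1
    ndN2q0 ndN3q1 pcN1 cut_pp_011 Ext.none :=
  certN1 (fam := false) (s1 := true) (s2 := true) (a := 0) (b := 1) (c := 1) (cn := .pnn) (n1 := ndN2q0) (n2 := ndN3q1) (pc := pcN1) (cut := cut_pp_011) (xt := Ext.none) (P1 := 0) (W1 := 536870912) (P2 := 536870912) (W2 := 536870912) (P3 := 134217728) (W3 := 67108864) (N0 := 3)
    rfl (fun _ => rfl) k0_pp_011

noncomputable def f_pp_012 : ℕ → ℕ → ℕ → ℕ → Bool := onCell 536870912 536870912 1073741824 536870912 134217728 67108864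
    (rowN 3 2 false true true .pnp 0 1 2 (qsf 0 536870912 1073741824 536870912 1) ndN2q0 ndN3q2 pcN1 Cut.none Ext.none)

def k0_pp_012 : ∃ t, chk3 f_pp_012 t 1 1 1 = true :=
  ⟨(a (b (l 3) (a (l 2) (b (l 17093600) (l 2)))) (b (a (b (l 3) (b (l 3) (l 381883707847))) (b (l 3) (b (b (l 3) (a (l 3) (l 16977616))) (a (l 17034312) (l 17181288))))) (a (b (l 17000352) (l 17110840)) (b (a (l 17259056) (l 17471240)) (a (l 17441480) (l 17674672)))))), by decide +kernel⟩

theorem c_pp_012 : CertN 0 536870912 1073741824 536870912 134217728 67108864 3 false true true .pnp 0 1 2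
    ndN2q0 ndN3q2 pcN1 Cut.none Ext.none :=
  certN2 (fam := false) (s1 := true) (s2 := true) (a := 0) (b := 1) (c := 2) (cn := .pnp) (n1 := ndN2q0) (n2 := ndN3q2) (pc := pcN1) (cut := Cut.none) (xt := Ext.none) (P1 := 0) (W1 := 536870912) (P2 := 1073741824) (W2 := 536870912) (P3 := 134217728) (W3 := 67108864) (N0 := 3)
    rfl (fun _ => rfl) k0_pp_012

noncomputable def f_pp_022 : ℕ → ℕ → ℕ → ℕ → Bool := onCell 1073741824 536870912 1073741824 536870912 134217728 67108864
    (rowN 3 2 false true true .pp 0 2 2 (qsf 0 536870912 1073741824 536870912 2) ndN2q0 ndN3q2 pcN2 Cut.none Ext.none)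

def k0_pp_022 : ∃ t, chk3 f_pp_022 t 4 2 1 = true :=
  ⟨(b (a (b (l 3) (b (l 3) (b (l 3) (a (l 3) (l 16766504))))) (b (a (l 3) (l 1)) (b (a (l 3) (b (l 1) (a (a (a (l 3) (l 1)) (l 1)) (l 1)))) (b (a (a (l 3) (b (c (l 408189429415) (l 397451984439)) (a (l 16622448) (l 16625424)))) (b (a (c (b (a (l 327524475367) (l 1)) (a (l 339872497991) (l 259341834615))) (b (a (l 324303221847) (l 1)) (a (l 336651245975) (l 286722221239)))) (l 1)) (a (a (c (b (l 16599008) (l 16573344)) (l 16610552)) (b (c (l 324840076231) (l 286185339783)) (c (l 337724989511) (l 334503732583)))) (a (c (l 311955236935) (l 316787042983)) (l 1))))) (c (a (a (l 16665344) (l 16679832)) (a (b (a (l 16568776) (l 16604136)) (l 16579344)) (b (a (l 337725020279) (l 307123355687)) (b (l 323229444407) (l 352220471751))))) (a (a (l 16657392) (l 16680368)) (a (b (a (l 16573472) (l 16592784)) (l 16562200)) (b (a (l 337724986775) (l 308197063607)) (a (l 16580856) (l 331282505623)))))))))) (a (b (b (b (a (l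 3) (l 16681104)) (b (l 16644368) (b (l 16642368) (l 16705208)))) (a (l 16827616) (l 16803304))) (b (l 17117376) (l 17335368))) (b (b (b (a (a (l 16623344) (l 16634056)) (a (b (l 16560408) (l 16529112)) (b (a (l 16579104) (c (l 16566248) (l 16548056))) (l 16578512)))) (a (b (l 16559512) (l 16703136)) (b (a (l 16517976) (l 16535616)) (b (l 16569936) (l 16647200))))) (a (l 16793056) (b (l 16594488) (l 16920424)))) (a (a (l 17417432) (b (l 17175496) (l 17431800))) (b (l 17209536) (l 17474224)))))), by decide +kernel⟩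

def k1_pp_022 : ∃ t, chk3 f_pp_022 t 5 4 1 = true :=
  ⟨(a (b (l 1) (b (l 1) (a (a (a (b (l 1) (b (l 1) (c (l 271152961527) (l 303902051703)))) (l 1)) (l 1)) (l 1)))) (l 1)), by decide +kernel⟩

def k2_pp_022 : ∃ t, chk3 f_pp_022 t 5 10 1 = true :=
  ⟨(b (a (a (a (b (c (b (a (l 331282482887) (l 267394820727)) (a (l 16554296) (l 332893070727))) (b (a (l 317860704759) (l 301754543223)) (l 331819346583))) (b (a (l 16553848) (c (l 16625880) (l 16522496))) (b (l 16544848) (c (l 16843232) (l 16571896))))) (b (a (b (l 1) (c (l 275984752151) (l 305512613959))) (l 1)) (a (b (c (b (l 309270881639) (l 338798770423)) (l 317860670391)) (b (c (l 16776384) (l 16495552)) (b (l 16521920) (l 16540320)))) (c (c (b (l 326988134439) (b (l 338799327543) (b (l 335578268871) (l 362958864295)))) (b (l 288869619351) (b (l 296922721415) (b (l 334503799671) (a (l 16683464) (l 344704344407)))))) (b (b (l 1) (l 281890262343)) (b (l 288869575031) (b (l 331282436855) (l 360810366967))))))))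 (b (l 1) (b (l 1) (b (l 1) (b (l 1) (b (l 1) (c (l 340409994807) (l 284037687063)))))))) (l 1)) (c (a (a (a (b (l 17031256) (l 17266720)) (b (a (l 17053320) (b (l 16746840) (l 17138496))) (l 17303744))) (b (a (b (a (l 400002811559) (l 346315768295)) (l 340946849591)) (l 370475121591)) (a (l 17238184) (b (l 427920736615) (l 339873640999))))) (a (b (l 1) (l 426310250775)) (l 1))) (a (a (a (l 16555568) (b (b (l 16556008) (l 16511256)) (l 16628376))) (b (b (l 305512561863) (l 304438811207)) (a (l 16620304) (b (l 337724936823) (l 338261841079))))) (a (b (l 1) (a (l 327524562519) (l 1))) (l 1))))), by decide +kernel⟩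

def k3_pp_022 : ∃ t, chk3 f_pp_022 t 5 11 1 = true :=
  ⟨(a (a (b (a (l 17249832) (b (l 17186960) (l 17359808))) (a (l 17522208) (l 17556328))) (b (b (c (l 17548584) (a (l 16907448) (l 16926848))) (l 17412256)) (b (l 17551752) (l 17661216)))) (b (a (c (b (a (l 479460922775) (l 455301744151)) (l 331821579239)) (b (a (b (l 382285840503) (l 338799051575)) (l 381749111623)) (a (l 17167312) (l 443489746343)))) (b (l 1) (c (l 504157364279) (l 440805398247)))) (a (b (c (l 17892688) (l 17354024)) (l 17734600)) (b (c (l 505768286263) (a (l 463354021895) (l 450469486087))) (c (l 18053440) (l 333431595239)))))), by decide +kernel⟩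

def k4_pp_022 : ∃ t, chk3 f_pp_022 t 2 3 1 = true :=
  ⟨(a (a (b (l 17695648) (l 17999424)) (a (a (l 17968840) (b (l 17817720) (l 18118680))) (a (b (l 17846184) (l 18141976)) (b (l 17875944) (l 18167616))))) (a (a (a (b (l 17904704) (l 18189792)) (b (b (l 17819360) (l 18030872)) (l 18214336))) (b (b (l 17862784) (l 18065416)) (l 18231336))) (b (b (a (l 17930240) (b (b (l 17895848) (l 17969128)) (l 18056656))) (l 18145200)) (l 18424192)))), by decide +kernel⟩

def k5_pp_022 : ∃ t, chk3 f_pp_022 t 3 1 1 = true :=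
  ⟨(b (a (b (l 1) (a (b (l 1) (b (l 1) (a (b (l 1) (l 500399312663)) (l 1)))) (l 1))) (l 1)) (a (b (b (a (b (a (b (l 527243104919) (l 337190487719)) (l 548718020967)) (a (l 18121848) (l 554086598295))) (b (l 1) (l 607237242919))) (a (b (l 18233632) (l 18292120)) (b (l 592742049047) (l 18379376)))) (b (a (l 18347504) (l 18441160)) (l 18429552))) (b (a (b (l 1) (b (l 1) (l 657703558647))) (l 1)) (b (a (l 630323907047) (l 728570600439)) (l 354372382231))))), by decide +kernel⟩

theorem s6_pp_022 : ∃ t, chk3 f_pp_022 t 5 5 1 = true := ex3_b k2_pp_022 k3_pp_022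

theorem s7_pp_022 : ∃ t, chk3 f_pp_022 t 5 2 1 = true := ex3_b k1_pp_022 s6_pp_022

theorem s8_pp_022 : ∃ t, chk3 f_pp_022 t 2 2 1 = true := ex3_a k0_pp_022 s7_pp_022

theorem s9_pp_022 : ∃ t, chk3 f_pp_022 t 2 1 1 = true := ex3_b s8_pp_022 k4_pp_022

theorem s10_pp_022 : ∃ t, chk3 f_pp_022 t 1 1 1 = true := ex3_a s9_pp_022 k5_pp_022

theorem c_pp_022 : CertN 0 536870912 1073741824 536870912 134217728 67108864 3 false true true .pp 0 2 2
    ndN2q0 ndN3q2 pcN2 Cut.none Ext.none :=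
  certN2 (fam := false) (s1 := true) (s2 := true) (a := 0) (b := 2) (c := 2) (cn := .pp) (n1 := ndN2q0) (n2 := ndN3q2) (pc := pcN2) (cut := Cut.none) (xt := Ext.none) (P1 := 0) (W1 := 536870912) (P2 := 1073741824) (W2 := 536870912) (P3 := 134217728) (W3 := 67108864) (N0 := 3)
    rfl (fun _ => rfl) s10_pp_022

noncomputable def f_pp_023 : ℕ → ℕ → ℕ → ℕ → Bool := onCell 1073741824 536870912 0 1230186008 134217728 67108864
    (rowN 3 2 false true true .up 0 2 3 (qsf 0 536870912 0 1230186008 2) ndN2q0 ndN3q3 pcN2 Cut.none Ext.none)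

def k0_pp_023 : ∃ t, chk3 f_pp_023 t 1 1 1 = true :=
  ⟨(b (a (l 2) (a (l 2) (l 18290440))) (b (a (a (l 2) (a (l 2) (l 18607848))) (a (l 18556536) (l 18464920))) (a (a (a (l 18564472) (a (a (l 18582016) (l 18579264)) (l 18746432))) (a (a (a (l 18572368) (l 18570640)) (l 18555144)) (l 18527464))) (b (l 18511280) (a (l 18470192) (l 18417448)))))), by decide +kernel⟩

theorem c_pp_023 : CertN 0 536870912 0 1230186008 134217728 67108864 3 false true true .up 0 2 3
    ndN2q0 ndN3q3 pcN2 Cut.none Ext.none :=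
  certN2 (fam := false) (s1 := true) (s2 := true) (a := 0) (b := 2) (c := 3) (cn := .up) (n1 := ndN2q0) (n2 := ndN3q3) (pc := pcN2) (cut := Cut.none) (xt := Ext.none) (P1 := 0) (W1 := 536870912) (P2 := 0) (W2 := 1230186008) (P3 := 134217728) (W3 := 67108864) (N0 := 3)
    rfl (fun _ => rfl) k0_pp_023

noncomputable def f_pp_033 : ℕ → ℕ → ℕ → ℕ → Bool := onCell 0 536870912 0 1230186008 134217728 67108864
    (rowN 3 0 false true true .pnn 0 3 3 (qsf 0 536870912 0 1230186008 3) ndN2q0 ndN3q3 pcN3 Cut.none Ext.none)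

def k0_pp_033 : ∃ t, chk3 f_pp_033 t 1 1 1 = true :=
  ⟨(b (b (l 4) (a (a (l 4) (a (l 4) (l 17884896))) (a (a (l 17876120) (l 17875144)) (b (l 18223592) (l 18236200))))) (b (a (a (b (a (l 17923728) (l 17945864)) (b (l 18030072) (l 17910256))) (b (l 17963160) (l 18092536))) (b (a (l 18102968) (l 18045552)) (a (l 17848408) (l 1)))) (a (b (b (a (l 17910288) (l 17872432)) (l 17932472)) (l 18159152)) (l 1)))), by decide +kernel⟩

theorem c_pp_033 : CertN 0 536870912 0 1230186008 134217728 67108864 3 false true true .pnn 0 3 3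
    ndN2q0 ndN3q3 pcN3 Cut.none Ext.none :=
  certN0 (fam := false) (s1 := true) (s2 := true) (a := 0) (b := 3) (c := 3) (cn := .pnn) (n1 := ndN2q0) (n2 := ndN3q3) (pc := pcN3) (cut := Cut.none) (xt := Ext.none) (P1 := 0) (W1 := 536870912) (P2 := 0) (W2 := 1230186008) (P3 := 134217728) (W3 := 67108864) (N0 := 3)
    rfl k0_pp_033

noncomputable def f_pp_101 : ℕ → ℕ → ℕ → ℕ → Bool := onCell 536870912 536870912 536870912 536870912 134217728 67108864
    (rowN 3 0 false true true .npn 1 0 1 (qsf 536870912 536870912 536870912 536870912 0) ndN2q1 ndN3q1 pcN0 Cut.none Ext.none)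

def k0_pp_101 : ∃ t, chk3 f_pp_101 t 1 1 1 = true :=
  ⟨(l 3), by decide +kernel⟩

theorem c_pp_101 : CertN 536870912 536870912 536870912 536870912 134217728 67108864 3 false true true .npn 1 0 1
    ndN2q1 ndN3q1 pcN0 Cut.none Ext.none :=
  certN0 (fam := false) (s1 := true) (s2 := true) (a := 1) (b := 0) (c := 1) (cn := .npn) (n1 := ndN2q1) (n2 := ndN3q1) (pc := pcN0) (cut := Cut.none) (xt := Ext.none) (P1 := 536870912) (W1 := 536870912) (P2 := 536870912) (W2 := 536870912) (P3 := 134217728) (W3 := 67108864) (N0 := 3)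
    rfl k0_pp_101

noncomputable def f_pp_102 : ℕ → ℕ → ℕ → ℕ → Bool := onCell 536870912 536870912 0 536870912 134217728 67108864
    (rowN 3 1 false true true .npp 1 0 2 (qsf 536870912 536870912 1073741824 536870912 0) ndN2q1 ndN3q2 pcN0 Cut.none Ext.none)

def k0_pp_102 : ∃ t, chk3 f_pp_102 t 1 1 1 = true :=
  ⟨(l 3), by decide +kernel⟩

theorem c_pp_102 : CertN 536870912 536870912 1073741824 536870912 134217728 67108864 3 false true true .npp 1 0 2
    ndN2q1 ndN3q2 pcN0 Cut.none Ext.none :=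
  certN1 (fam := false) (s1 := true) (s2 := true) (a := 1) (b := 0) (c := 2) (cn := .npp) (n1 := ndN2q1) (n2 := ndN3q2) (pc := pcN0) (cut := Cut.none) (xt := Ext.none) (P1 := 536870912) (W1 := 536870912) (P2 := 1073741824) (W2 := 536870912) (P3 := 134217728) (W3 := 67108864) (N0 := 3)
    rfl (fun _ => rfl) k0_pp_102

noncomputable def f_pp_112 : ℕ → ℕ → ℕ → ℕ → Bool := onCell 536870912 536870912 1073741824 536870912 134217728 67108864
    (rowN 3 2 false true true .dn 1 1 2 (qsf 536870912 536870912 1073741824 536870912 1) ndN2q1 ndN3q2 pcN1 Cut.none Ext.none)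

def k0_pp_112 : ∃ t, chk3 f_pp_112 t 1 1 1 = true :=
  ⟨(a (b (l 3) (a (b (l 3) (l 364170502023)) (b (l 18085912) (l 18237480)))) (b (a (a (l 3) (l 1)) (l 1)) (a (b (l 17936520) (l 17962408)) (l 430069768807)))), by decide +kernel⟩

theorem c_pp_112 : CertN 536870912 536870912 1073741824 536870912 134217728 67108864 3 false true true .dn 1 1 2
    ndN2q1 ndN3q2 pcN1 Cut.none Ext.none :=
  certN2 (fam := false) (s1 := true) (s2 := true) (a := 1) (b := 1) (c := 2) (cn := .dn) (n1 := ndN2q1) (n2 := ndN3q2) (pc := pcN1) (cut := Cut.none) (xt := Ext.none) (P1 := 536870912) (W1 := 536870912) (P2 := 1073741824) (W2 := 536870912) (P3 := 134217728) (W3 := 67108864) (N0 := 3)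
    rfl (fun _ => rfl) k0_pp_112

end Pool.Agent.Strip051.G.I1_8_3_16.Tab.C.NB23

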