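import Pool.Agent.Strip051.G.I1_8_3_16.Tab

/-! # Certificates N9 (generated) -/

set_option linter.all false
set_option maxRecDepth 100000

namespace Pool.Agent.Strip051.G.I1_8_3_16.Tab.C.NB00

open Pool.Agent.Strip051.PB Pool.Agent.Strip051.PB.T
open Pool.Agent.Strip051.G.I1_8_3_16.Tab

noncomputable def cut_pp_011 : Cut := Cut.of [[⟨0, 0, 0, 67108864⟩, ⟨1, 1, 0, 67108864⟩, ⟨2, 1, 0, 67108864⟩]]

noncomputable def f_pp_011 : ℕ → ℕ → ℕ → ℕ → Bool := onCell 536870912 536870912 536870912 536870912 134217728 67108864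
    (rowN 3 2 false true true .pnn 0 1 1 (qsf 0 536870912 536870912 536870912 1) ndN0q0 ndN0q1 pcN1 cut_pp_011 Ext.none)

def k0_pp_011 : ∃ t, chk3 f_pp_011 t 1 1 1 = true :=
  ⟨(a (l 3) (b (l 3) (a (l 3) (b (l 3) (a (l 3) (b (l 3) (b (l 3) (a (l 3) (l 6))))))))), by decide +kernel⟩

theorem c_pp_011 : CertN 0 536870912 536870912 536870912 134217728 67108864 3 false true true .pnn 0 1 1
    ndN0q0 ndN0q1 pcN1 cut_pp_011 Ext.none :=
  certN2 (fam := false) (s1 := true) (s2 := true) (a := 0) (b := 1) (c := 1) (cn := .pnn) (n1 := ndN0q0) (n2 := ndN0q1) (pc := pcN1) (cut := cut_pp_011) (xt := Ext.none) (P1 := 0) (W1 := 536870912) (P2 := 536870912) (W2 := 536870912) (P3 := 134217728) (W3 := 67108864) (N0 := 3)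
    rfl (fun _ => rfl) k0_pp_011

noncomputable def cut_pp_012 : Cut := Cut.of [[⟨0, 0, 0, 67108864⟩, ⟨1, 1, 0, 67108864⟩, ⟨2, 1, 0, 67108864⟩]]

noncomputable def f_pp_012 : ℕ → ℕ → ℕ → ℕ → Bool := onCell 536870912 536870912 0 536870912 134217728 67108864
    (rowN 3 2 false true true .pnp 0 1 2 (qsf 0 536870912 0 536870912 1) ndN0q0 ndN0q2 pcN1 cut_pp_012 Ext.none)

def k0_pp_012 : ∃ t, chk3 f_pp_012 t 2 1 1 = true :=
  ⟨(b (a (b (l 2) (l 3)) (b (a (b (a (a (l 2) (a (l 2) (l 16814168))) (b (l 16901648) (l 16823184))) (a (b (a (l 2) (b (a (l 2) (l 80161655543)) (l 103247084167))) (l 3)) (b (a (b (l 16829208) (a (l 102173328071) (l 80698519479))) (b (l 16837848) (l 16832168))) (a (b (l 103783974967) (l 3)) (b (a (l 100562714311) (l 16825096)) (l 103783984039)))))) (b (a (b (l 16978728) (l 16904224)) (l 17007680)) (a (b (l 16817848) (a (b (l 16835240) (a (l 98952100391) (l 16825384))) (b (l 16844200) (l 16817544)))) (c (l 16849952) (l 16831832))))) (a (l 3) (b (a (b (a (b (a (l 3) (l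 103783925159)) (l 3)) (b (a (l 96267744583) (l 16826000)) (a (l 3) (l 103783923095)))) (l 3)) (b (a (b (l 16821144) (a (l 90362163351) (l 16827304))) (l 16811768)) (a (b (a (l 107542027463) (l 110226371767)) (l 3)) (b (b (l 16829168) (l 82309133767)) (a (l 108078895623) (b (l 83382853159) (l 103247051351))))))) (l 3))))) (l 3)), by decide +kernel⟩

def k1_pp_012 : ∃ t, chk3 f_pp_012 t 3 2 1 = true :=
  ⟨(a (a (b (a (b (l 17061208) (b (l 16989488) (l 16917400))) (b (l 17111944) (b (l 17044840) (l 16996616)))) (b (a (b (a (l 16869152) (l 16900280)) (a (b (l 16829088) (a (l 78551026199) (l 16813040))) (b (l 16859872) (l 16833408)))) (b (l 16924664) (a (l 16856520) (l 16907992)))) (a (b (a (b (a (l 103783925223) (l 95730870615)) (l 3)) (b (a (b (l 16809728) (l 85530327127)) (l 16816656)) (a (b (l 102710175751) (l 3)) (b (l 16825608) (l 109152625095))))) (l 3)) (b (a (b (l 16837784) (a (b (l 16813736) (l 16804816)) (l 16820584))) (l 16813168)) (a (b (a (b (l 99488947111) (l 108615760503))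 (b (l 16805456) (l 97341461991))) (a (l 3) (l 109152634295))) (b (c (l 16804960) (l 16805000)) (a (b (l 91435901623) (l 103783917847)) (b (l 16810584) (l 84993459495))))))))) (b (a (b (l 17156816) (l 17071584)) (b (l 17188248) (l 17110016))) (b (a (a (l 16962448) (l 16988616)) (b (l 17044504) (l 16997624))) (a (b (a (l 16885128) (l 16913360)) (a (a (c (l 16799616) (l 16801200)) (l 16819904)) (l 16841256))) (b (a (l 16938408) (l 16958488)) (a (l 16888552) (l 16910232))))))) (a (b (a (b (l 17190264) (l 17121088)) (b (l 17129936) (l 17073320))) (b (a (c (l 17101448) (l 16977424)) (c (l 17097896) (l 16902152))) (a (b (c (l 17025448) (l 16920704)) (a (l 16924368) (l 16926512))) (a (b (l 16955264) (l 16910824)) (b (l 16913152) (l 16868432)))))) (b (a (b (l 16990280) (l 16928616)) (b (c (l 17012640) (l 16981544)) (c (l 16946256) (l 16920840)))) (a (b (a (l 16894800) (l 16871616)) (b (a (l 16832360) (l 16832408)) (a (l 16811416) (l 16810576)))) (b (a (l 16872784) (c (l 16884800) (l 16862768)))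 (a (b (l 16832432) (l 16809792)) (b (l 16832456) (c (l 16817728) (l 16800600))))))))), by decide +kernel⟩

def k2_pp_012 : ∃ t, chk3 f_pp_012 t 6 3 1 = true :=
  ⟨(b (a (b (a (l 3) (b (a (l 3) (b (a (l 3) (b (l 103247044647) (l 3))) (l 3))) (l 3))) (l 3)) (b (a (b (a (b (a (c (l 88214701271) (b (l 79087868407) (l 109152617623))) (b (l 16813232) (c (l 69424199799) (l 67813578183)))) (a (l 3) (b (a (l 103247042295) (l 97878329031)) (l 3)))) (b (a (l 16819328) (l 16832144)) (a (b (c (l 16806464) (l 16814536)) (a (l 102173297959) (l 89825269815))) (b (l 16815840) (c (l 16810672) (l 16807680)))))) (a (l 3) (b (c (a (l 109152636327) (b (l 88751547127) (l 103247047527))) (a (l 111836981351) (b (a (l 107005129383) (l 81235334039)) (l 109689489223)))) (l 3)))) (b (a (c (b (l 16864168) (l 16815080)) (l 16803152)) (c (l 16881208) (l 16843792))) (a (b (c (a (b (l 16811776) (a (l 96267717911) (l 16803984))) (l 16797056)) (a (b (l 16807040) (a (l 94657096567) (l 16800824))) (l 16808576))) (a (b (c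 (l 107542011607) (l 109689486279)) (l 3)) (b (a (b (l 16801216) (l 98415200935)) (c (l 16807088) (l 16804720))) (a (l 109152619415) (b (l 94657103703) (l 102173293511)))))) (b (c (l 16839728) (l 16817600)) (a (b (l 16809864) (a (b (l 16803776) (c (l 90899014343) (l 83382816439))) (l 16801128))) (l 16802728)))))) (a (l 3) (b (a (l 3) (b (a (c (b (a (l 102710169239) (b (l 16806472) (l 103247035063))) (l 3)) (b (a (l 110763224471) (b (l 16802920) (l 108615736231))) (l 3))) (b (a (a (b (l 16804248) (l 16798176)) (l 16803448)) (l 16803000)) (a (b (a (l 104320770487) (l 90362133655)) (l 107542000279)) (b (c (l 16801296) (l 16799040)) (a (l 99488934119) (l 16799928)))))) (a (l 3) (a (l 3) (b (c (l 106468257895) (l 113447572631)) (l 3)))))) (l 3))))) (l 3)), by decide +kernel⟩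

def k3_pp_012 : ∃ t, chk3 f_pp_012 t 14 12 1 = true :=
  ⟨(a (b (a (l 16815168) (l 16797584)) (a (c (l 16810688) (l 16804992)) (c (l 16871016) (l 16807072)))) (b (a (l 16824648) (l 16802088)) (a (c (l 16874712) (l 16786376)) (c (l 16853320) (l 16781960))))), by decide +kernel⟩

def k4_pp_012 : ∃ t, chk3 f_pp_012 t 14 13 1 = true :=
  ⟨(a (b (a (b (a (c (l 16800816) (l 16797896)) (l 16797408)) (a (b (a (b (a (l 90899001143) (l 16795624)) (a (l 108078862759) (l 101099548007))) (b (l 16798064) (c (l 67276683399) (l 64055451671)))) (a (l 3) (b (a (l 106468246311) (l 92509610391)) (l 3)))) (b (c (l 16802632) (l 16793888)) (a (b (c (l 16797200) (l 16793824)) (a (l 108615736983) (l 80161577015))) (c (b (l 16797800) (l 16795784)) (l 16792768)))))) (b (c (l 16833336) (l 16789496)) (c (l 16797360) (l 16798864)))) (a (b (a (l 3) (b (c (a (l 111300088663) (b (l 78014104759) (l 109689469495))) (a (l 115058179351) (b (l 75866616199) (l 112373818791)))) (l 3))) (l 3)) (b (b (a (a (b (l 16792616)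 (a (l 79087832791) (l 16791744))) (l 16791080)) (l 16788360)) (a (a (b (a (l 108078852327) (l 92509613511)) (l 3)) (b (c (a (l 16790808) (l 16791800)) (l 16789312)) (a (l 110226342967) (l 77477220375)))) (c (l 16790776) (l 16787248)))) (a (a (l 3) (b (c (l 110763211207) (l 114521303287)) (l 3))) (b (a (b (a (l 98952050679) (c (l 16786152) (l 16787360))) (a (l 3) (l 110226339991))) (b (l 16787832) (c (l 53854893575) (l 50633664103)))) (a (l 3) (b (a (l 112373813879) (l 91435865399)) (l 3)))))))) (b (a (c (b (l 16838064) (l 16795176)) (b (l 16782408) (l 16781368))) (c (b (l 16815784) (l 16793512)) (b (l 16777024) (l 16775360)))) (a (b (c (a (l 16798024) (l 16795672)) (a (l 16783344) (l 16779768))) (a (b (c (l 16787472) (l 16784184)) (a (b (c (l 35601277911) (l 16785464)) (a (l 109152595415) (c (l 65666046711) (l 62981691479)))) (c (l 16785952) (l 16784048)))) (c (l 16793672) (l 16791360)))) (b (c (l 16778192) (l 16785352)) (c (a (l 16779560) (l 16776384)) (a (l 16777256) (l 16773880))))))),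 by decide +kernel⟩

def k5_pp_012 : ∃ t, chk3 f_pp_012 t 15 6 1 = true :=
  ⟨(a (b (b (a (l 16794520) (l 16813672)) (a (c (l 16789872) (l 16778136)) (c (l 16783712) (l 16774672)))) (c (b (a (b (l 16778496) (l 16775200)) (b (l 16775520) (l 16771672))) (a (b (l 16773112) (a (l 16773520) (l 16770952))) (b (l 16769024) (a (l 16768632) (l 16766504))))) (b (a (b (l 16772368) (l 16770152)) (b (l 16768216) (l 16765520))) (a (b (l 16769120) (a (l 16770736) (l 16767792))) (b (l 16764000) (a (l 16765000) (l 16762304))))))) (c (b (a (b (l 16797592) (l 16782032)) (b (l 16797192) (a (l 16781056) (l 16780568)))) (a (b (b (l 16773136) (l 16768792)) (b (a (l 16766416) (l 16764888)) (a (l 16764552) (l 16762776)))) (b (a (l 16769408) (b (l 16770912) (l 16766056))) (a (b (l 16763520) (l 16761320)) (b (l 16762504) (l 16760368)))))) (b (a (b (l 16784648) (l 16771376)) (b (l 16782240) (a (l 16768976) (l 16767464)))) (a (b (b (l 16764288) (l 16761168)) (b (l 16763152) (a (l 16759680) (l 16757152)))) (b (a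 (l 16759824) (b (l 16759712) (l 16756128))) (a (b (l 16755832) (l 16754824)) (b (l 16753824) (l 16752848)))))))), by decide +kernel⟩

def k6_pp_012 : ∃ t, chk3 f_pp_012 t 14 7 1 = true :=
  ⟨(b (a (l 3) (b (a (b (a (b (a (l 3) (b (a (l 89288368487) (c (l 16788096) (l 16783984))) (a (l 3) (l 108078851031)))) (l 3)) (b (a (b (l 16783696) (a (a (l 82845915335) (l 54928625975)) (l 16783568))) (l 16787344)) (a (b (a (l 3) (l 87140887527)) (l 3)) (b (c (l 31306302999) (l 16784792)) (a (l 106468235911) (c (l 60834203495) (l 58149847175))))))) (l 3)) (b (a (a (b (l 16780240) (c (l 16781824) (l 16780624))) (b (l 16778424) (l 16784600))) (c (l 16781648) (l 16780720))) (a (b (b (a (a (b (l 67813524647) (l 109152577927)) (c (l 41506846183) (l 16783736))) (l 16785424)) (a (a (l 3) (l 102710137303)) (a (a (l 76940330423) (l 46875554887)) (l 16785560)))) (a (l 3) (b (a (l 3) (b (l 62981682999) (l 108615715351))) (l 3)))) (b (c (l 16788680) (l 16787736)) (a (b (c (a (l 37748746663) (l 16779440)) (l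 23790102519)) (a (l 100562651575) (b (l 16782280) (l 81235295703)))) (c (l 16783632) (l 16783056))))))) (a (l 3) (b (a (l 3) (b (a (l 3) (b (a (b (l 62444812455) (l 107005100615)) (c (l 33990647383) (l 16781288))) (a (l 3) (l 110226326039)))) (l 3))) (l 3))))) (l 3)), by decide +kernel⟩

def k7_pp_012 : ∃ t, chk3 f_pp_012 t 30 28 1 = true :=
  ⟨(a (b (c (a (l 16773880) (l 16771008)) (a (l 16772056) (l 16768848))) (c (a (b (l 16774776) (l 16778360)) (b (l 16771672) (l 16772472))) (a (b (l 16773632) (l 16777640)) (b (l 16770224) (l 16771488))))) (b (c (a (l 16768400) (l 16765992)) (a (l 16765808) (l 16762880))) (a (c (b (l 16768840) (l 16769496)) (b (l 16767008) (l 16768144))) (c (b (l 16766232) (l 16766752)) (b (l 16763904) (l 16764920)))))), by decide +kernel⟩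

def k8_pp_012 : ∃ t, chk3 f_pp_012 t 30 29 1 = true :=
  ⟨(a (b (a (b (b (c (l 16781848) (l 16786688)) (a (a (b (l 16781032) (l 66202904311)) (l 16782888)) (l 16781504))) (a (b (a (l 3) (b (l 52244258727) (l 117742516999))) (l 3)) (b (c (c (l 20568872199) (l 16779792)) (l 18958260439)) (a (b (l 107005094599) (l 3)) (b (l 16779920) (a (l 116131902167) (l 47412417847))))))) (c (b (l 16777472) (a (l 16780968) (l 16784504))) (b (l 16775608) (a (l 16780888) (l 16784288))))) (a (l 3) (b (a (b (a (b (c (l 46875546471) (l 45801804967)) (l 124184966215)) (c (l 25937580455) (l 16779312))) (a (l 3) (a (l 137606740183) (b (l 59760449847) (l 3))))) (b (l 16780416) (a (b (l 16780264) (a (l 112910675879) (l 40433096215))) (l 16780888)))) (a (l 3) (b (a (l 136532999111) (b (c (l 42043709367) (l 40969966823)) (c (l 111300059399) (l 116131896983)))) (l 3)))))) (b (c (a (b (l 16773032) (c (l 16774320) (l 16774096))) (b (l 16767552) (a (l 16769344) (l 16768088)))) (a (b (l 16769512) (l 16776360)) (b (l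 16766192) (l 16773032)))) (a (b (c (c (l 16778312) (l 16778288)) (c (l 16778248) (l 16778200))) (a (b (a (c (c (l 16779688) (l 16780904)) (l 16779848)) (l 16780072)) (a (a (l 127943064039) (b (a (l 64592288791) (l 42043709655)) (l 3))) (b (l 16779808) (a (a (l 112910676807) (l 61371063015)) (l 32380033447))))) (c (l 16779072) (l 16779552)))) (a (b (c (l 16770896) (l 16770464)) (c (l 16775776) (l 16775328))) (c (b (l 16769688) (l 16774144)) (b (l 16768952) (l 16776352))))))), by decide +kernel⟩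

def k9_pp_012 : ∃ t, chk3 f_pp_012 t 31 14 1 = true :=
  ⟨(a (b (b (a (c (l 16763776) (l 16760040)) (c (l 16761880) (l 16757392))) (a (c (b (l 16763840) (l 16764360)) (b (l 16760912) (l 16761920))) (c (b (l 16762000) (l 16762576)) (b (l 16758288) (l 16759320))))) (c (b (a (b (l 16765248) (a (l 16767008) (l 16765952))) (b (l 16763384) (a (l 16764928) (l 16763928)))) (a (b (a (l 16768512) (l 16767360)) (a (l 16770240) (l 16768984))) (b (a (l 16766232) (l 16765128)) (a (l 16767760) (l 6))))) (b (a (b (l 16763240) (l 16770096)) (a (l 16762016) (l 16760664))) (a (b (a (l 16767440) (l 16765952)) (a (l 16769520) (l 16767952))) (b (a (l 16764464) (l 16762992)) (a (l 16766384) (l 6))))))) (c (b (a (b (l 16760488) (b (l 16760600) (l 16761000))) (b (a (l 16759696) (l 16759192)) (a (l 16759768) (b (l 16758984) (l 16759152))))) (a (b (a (b (l 16762056) (l 16762944)) (b (l 16761192) (l 16761992))) (a (b (l 16764056) (l 6)) (l 6))) (b (a (b (l 16760360) (l 6)) (l 6)) (l 6)))) (b (a (b (l 16755088)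 (a (l 16757024) (l 16755840))) (b (a (l 16753528) (l 16752504)) (a (l 16754664) (l 16753504)))) (a (b (a (l 16764560) (b (l 16757320) (l 16758608))) (a (b (l 16761536) (l 6)) (l 6))) (b (a (b (l 16756040) (l 6)) (l 6)) (l 6)))))), by decide +kernel⟩

def k10_pp_012 : ∃ t, chk3 f_pp_012 t 15 15 1 = true :=
  ⟨(a (b (a (l 3) (b (a (b (a (a (l 3) (b (c (l 124721834215) (l 130627413623)) (l 3))) (b (a (a (b (c (l 47949289287) (l 46338675799)) (l 3)) (b (l 16781584) (a (l 108615703863) (l 54928611623)))) (c (l 13052678791) (l 16779704))) (a (l 3) (b (c (a (l 105394478919) (l 40969966855)) (a (l 111836924023) (l 39896224359))) (l 132774896647))))) (l 3)) (b (b (c (c (l 16778952) (l 16778936)) (c (l 16778920) (l 16778888))) (a (a (b (l 16780976) (a (b (l 40969967047) (l 109689445447)) (l 16810775127))) (l 16778536)) (c (l 16776712) (l 16779304)))) (a (b (a (a (l 3) (b (b (l 64055416647) (l 3)) (l 3))) (a (b (c (l 34527515271) (l 16779296)) (l 124184960791)) (b (l 16781208) (c (b (l 16780016)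 (l 70497866359)) (l 50096771687))))) (l 3)) (a (b (c (l 16779520) (l 16778376)) (a (b (b (l 52781126999) (l 126332443975)) (l 3)) (b (c (l 27548192743) (l 16779336)) (c (l 115058155047) (l 120963734663))))) (b (c (l 16780088) (l 16774888)) (b (l 16778400) (a (c (b (l 16779672) (l 61371060647)) (l 43654320295)) (l 16778816)))))))) (a (l 3) (b (a (l 3) (b (a (l 3) (a (l 3) (l 6))) (l 3))) (l 3))))) (l 3)) (b (a (b (a (a (a (c (b (l 16775144) (l 16777304)) (b (l 16772208) (l 16777288))) (b (c (l 16771840) (l 16771376)) (c (c (l 16775944) (l 16775872)) (l 16776408)))) (b (c (c (l 16770992) (l 16770648)) (l 16772752)) (l 6))) (l 6)) (l 6)) (l 6)) (l 6))), by decide +kernel⟩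

theorem s11_pp_012 : ∃ t, chk3 f_pp_012 t 30 14 1 = true := ex3_b k7_pp_012 k8_pp_012

theorem s12_pp_012 : ∃ t, chk3 f_pp_012 t 15 14 1 = true := ex3_a s11_pp_012 k9_pp_012

theorem s13_pp_012 : ∃ t, chk3 f_pp_012 t 15 7 1 = true := ex3_b s12_pp_012 k10_pp_012

theorem s14_pp_012 : ∃ t, chk3 f_pp_012 t 7 7 1 = true := ex3_a k6_pp_012 s13_pp_012

theorem s15_pp_012 : ∃ t, chk3 f_pp_012 t 14 6 1 = true := ex3_b k3_pp_012 k4_pp_012

theorem s16_pp_012 : ∃ t, chk3 f_pp_012 t 7 6 1 = true := ex3_a s15_pp_012 k5_pp_012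

theorem s17_pp_012 : ∃ t, chk3 f_pp_012 t 7 3 1 = true := ex3_b s16_pp_012 s14_pp_012

theorem s18_pp_012 : ∃ t, chk3 f_pp_012 t 3 3 1 = true := ex3_a k2_pp_012 s17_pp_012

theorem s19_pp_012 : ∃ t, chk3 f_pp_012 t 3 1 1 = true := ex3_b k1_pp_012 s18_pp_012

theorem s20_pp_012 : ∃ t, chk3 f_pp_012 t 1 1 1 = true := ex3_a k0_pp_012 s19_pp_012

theorem c_pp_012 : CertN 0 536870912 0 536870912 134217728 67108864 3 false true true .pnp 0 1 2
    ndN0q0 ndN0q2 pcN1 cut_pp_012 Ext.none :=
  certN2 (fam := false) (s1 := true) (s2 := true) (a := 0) (b := 1) (c := 2) (cn := .pnp) (n1 := ndN0q0) (n2 := ndN0q2) (pc := pcN1) (cut := cut_pp_012) (xt := Ext.none) (P1 := 0) (W1 := 536870912) (P2 := 0) (W2 := 536870912) (P3 := 134217728) (W3 := 67108864) (N0 := 3)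
    rfl (fun _ => rfl) s20_pp_012

noncomputable def cut_pp_022 : Cut := Cut.of [[⟨0, 0, 0, 67108864⟩, ⟨1, 1, 0, 67108864⟩, ⟨2, 1, 0, 67108864⟩]]

noncomputable def f_pp_022 : ℕ → ℕ → ℕ → ℕ → Bool := onCell 1073741824 536870912 0 536870912 134217728 67108864
    (rowN 3 2 false true true .pp 0 2 2 (qsf 0 536870912 0 536870912 2) ndN0q0 ndN0q2 pcN2 cut_pp_022 Ext.none)

def k0_pp_022 : ∃ t, chk3 f_pp_022 t 4 2 1 = true :=
  ⟨(b (a (a (b (c (l 16697128) (l 16522504)) (c (b (l 16758904) (l 16685872)) (l 16560440))) (b (c (l 16814648) (l 16506792)) (c (l 16537216) (l 16525280)))) (a (a (b (c (l 16813432) (l 16473560)) (c (l 16713272) (l 16514456))) (a (b (c (l 16814696) (l 16507104)) (c (l 16671208) (l 16548152))) (b (c (l 16816568) (l 16502080)) (c (l 16713872) (l 16521760))))) (a (a (c (b (l 16819848) (l 16716480)) (l 16545200)) (b (c (l 16824144) (l 16489704)) (c (l 16720072) (l 16500496)))) (b (c (a (l 16829576) (l 16836072)) (l 16539800)) (c (a (l 16724984) (l 16731152)) (l 16576640))))))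 (a (b (a (c (b (l 16589792) (l 16606008)) (b (l 16557656) (l 16571136))) (c (b (l 16580280) (l 16579432)) (l 16567688))) (a (b (c (l 16633464) (l 16616832)) (a (c (l 16652584) (l 16634784)) (c (l 16632184) (l 16615000)))) (c (a (l 16631472) (b (l 16571176) (l 16593488))) (b (l 16573000) (l 16612936))))) (a (a (b (c (l 16554824) (l 16542528)) (c (b (l 16556104) (l 16574872)) (l 16571704))) (a (b (c (a (l 16527648) (l 16546968)) (b (l 16547888) (l 16584224))) (a (c (l 16578232) (l 16568768)) (c (l 16576304) (l 16587760)))) (b (c (l 16569920) (l 16581992)) (c (a (l 16573296) (l 16572016)) (a (l 16585120) (l 16580096)))))) (a (b (a (c (b (l 16567280) (l 16557400)) (l 16561656)) (c (l 16555656) (l 16536080))) (a (c (b (l 16569064) (l 16593944)) (a (l 16575536) (l 16570752))) (c (b (l 16570424) (l 16583976)) (b (l 16553776) (l 16567120))))) (b (c (a (l 16558592) (l 16561616)) (a (l 16537824) (l 16539808))) (a (c (b (l 16572352) (l 16585160)) (l 16569128)) (c (b (l 16553488) (l 16576096))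 (c (l 16564456) (l 16554424))))))))), by decide +kernel⟩

def k1_pp_022 : ∃ t, chk3 f_pp_022 t 5 2 1 = true :=
  ⟨(a (a (a (b (b (c (a (l 16843544) (l 16851840)) (l 16525280)) (c (a (l 16738448) (l 16746720)) (l 16564936))) (a (b (c (l 16554040) (l 16541856)) (c (b (l 16555536) (l 16566992)) (l 16565464))) (b (c (l 16556616) (l 16543792)) (c (l 16589048) (l 16561032))))) (b (a (b (c (l 16860776) (l 16487576)) (c (l 16755600) (l 16514968))) (b (c (a (l 16867760) (l 16830296)) (l 16573928)) (a (c (l 16762256) (l 16495600)) (c (a (l 16765216) (l 1)) (l 16559152))))) (a (b (c (l 16558472) (l 16545336)) (l 1)) (l 1)))) (b (b (l 1) (l 1)) (l 1))) (l 1)), by decide +kernel⟩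

def k2_pp_022 : ∃ t, chk3 f_pp_022 t 8 6 1 = true :=
  ⟨(b (a (a (b (c (l 16687208) (l 16668616)) (c (b (l 16693688) (l 16703792)) (b (l 16695648) (l 16706416)))) (c (b (l 16663680) (b (l 16668192) (l 16681040))) (b (b (l 16637664) (l 16653960)) (b (l 16671176) (l 16684408))))) (a (c (b (l 16641016) (l 16692160)) (b (l 16624120) (b (l 16647440) (l 16661664)))) (b (c (l 16618888) (l 16602856)) (c (b (l 16639712) (l 16653464)) (l 16651872))))) (a (b (a (c (b (l 16725072) (a (l 16710016) (l 16701136))) (b (l 16708488) (l 16711776))) (c (b (l 16683936) (l 16708272)) (a (l 16696120) (l 16686512)))) (a (b (c (a (l 16712424) (l 16704400)) (c (l 16719448) (l 16713192))) (c (a (l 16726448) (l 16708656)) (a (l 16725368) (l 16697168)))) (c (b (l 16712648) (a (l 16700944) (l 16692840))) (b (l 16699808) (c (l 16709424) (l 16704112)))))) (b (b (c (a (l 16662672) (l 16661000)) (a (l 16668336) (l 16646800))) (c (a (l 16688592) (c (l 16649960) (l 16643248))) (a (l 16674840) (l 16654816)))) (c (a (b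 (l 16694464) (b (l 16699392) (l 16702960))) (b (a (l 16658936) (l 16669776)) (a (l 16677240) (c (l 16659848) (l 16654880))))) (a (b (l 16682288) (l 16690592)) (b (l 16663704) (c (l 16675712) (l 16671112)))))))), by decide +kernel⟩

def k3_pp_022 : ∃ t, chk3 f_pp_022 t 9 6 1 = true :=
  ⟨(a (a (b (c (b (l 16617752) (b (l 16615016) (l 16627856))) (b (l 16589184) (l 16628248))) (b (c (b (l 16637168) (c (l 16648312) (l 16642280))) (b (l 16624352) (l 16633840))) (c (b (c (l 16656808) (l 16651528)) (a (c (l 16650024) (l 16645352)) (c (l 16650344) (l 16635512)))) (b (a (l 16649080) (l 16639056)) (a (l 16659752) (l 16650376)))))) (a (b (a (c (b (l 16582912) (l 16605640)) (l 16602624)) (b (c (l 16599488) (l 16585512)) (c (l 16626760) (l 16610880)))) (a (b (c (l 16626248) (l 16615112)) (b (c (l 16629968) (l 16631360)) (l 1))) (b (c (b (l 16637464) (l 16636272)) (a (l 16610840) (l 16608216))) (b (c (l 16641048) (l 16637512)) (l 1))))) (b (b (c (a (l 16596464) (l 16576080)) (a (l 16583040) (l 16577808)))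 (c (a (l 16617832) (l 16607488)) (a (l 16613792) (l 16608432)))) (b (c (a (c (l 16630936) (l 16625136)) (b (l 16612656) (l 16621840))) (a (l 16622296) (l 16618688))) (l 1))))) (a (a (a (b (b (c (l 16575984) (l 16573112)) (c (l 16606912) (l 16603680))) (b (c (b (l 16611888) (l 1)) (l 16614480)) (l 1))) (b (c (b (l 16576112) (l 16606576)) (b (l 16568152) (l 16591096))) (l 1))) (b (c (b (c (l 16605376) (l 16595872)) (a (l 16596048) (l 16596144))) (b (l 16587872) (b (l 16597704) (l 16614144)))) (l 1))) (b (b (a (c (l 16606168) (l 16581824)) (c (l 16601592) (l 16581472))) (l 1)) (l 1)))), by decide +kernel⟩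

def k4_pp_022 : ∃ t, chk3 f_pp_022 t 4 7 1 = true :=
  ⟨(a (a (b (b (a (a (c (b (c (l 16723080) (l 16717848)) (b (l 16734736) (l 6))) (b (l 16726224) (a (l 16729280) (l 16736872)))) (b (c (l 16724280) (l 16724896)) (c (c (l 16721904) (l 16717536)) (l 16721904)))) (b (c (c (l 16721400) (l 16721576)) (a (l 16717992) (l 16710768))) (b (b (c (l 16717704) (l 16719552)) (l 6)) (l 6)))) (l 6)) (l 6)) (b (a (b (b (c (a (l 16712592) (c (l 16686000) (l 16681328))) (b (l 16697248) (l 16701912))) (b (c (a (l 16697336) (l 16700328)) (l 16706720)) (l 6))) (l 6)) (a (b (c (b (c (l 16677504) (l 16673056)) (c (b (l 16683888) (l 6)) (l 16692976))) (b (l 16687760) (b (l 16674584) (l 6)))) (l 6)) (a (b (c (b (c (l 16670848) (l 16666600)) (b (l 16686224) (l 6))) (b (l 16660600) (l 16682048))) (l 6)) (b (c (b (c (l 16666312) (l 16662200)) (c (b (l 16673288) (l 16678120)) (l 16672400))) (b (l 16656392) (l 16678136))) (l 1))))) (a (l 6) (l 1)))) (b (a (a (b (a (c (b (c (b (l 16657000) (l 16661840)) (l 16666040))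 (c (l 16679840) (l 16666208))) (b (l 16671000) (l 16682696))) (b (c (l 16663864) (l 16641272)) (l 1))) (l 1)) (l 1)) (l 1)) (l 1))), by decide +kernel⟩

def k5_pp_022 : ∃ t, chk3 f_pp_022 t 5 3 1 = true :=
  ⟨(b (l 1) (l 1)), by decide +kernel⟩

def k6_pp_022 : ∃ t, chk3 f_pp_022 t 3 1 1 = true :=
  ⟨(l 1), by decide +kernel⟩

theorem s7_pp_022 : ∃ t, chk3 f_pp_022 t 4 6 1 = true := ex3_a k2_pp_022 k3_pp_022

theorem s8_pp_022 : ∃ t, chk3 f_pp_022 t 4 3 1 = true := ex3_b s7_pp_022 k4_pp_022

theorem s9_pp_022 : ∃ t, chk3 f_pp_022 t 2 3 1 = true := ex3_a s8_pp_022 k5_pp_022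

theorem s10_pp_022 : ∃ t, chk3 f_pp_022 t 2 2 1 = true := ex3_a k0_pp_022 k1_pp_022

theorem s11_pp_022 : ∃ t, chk3 f_pp_022 t 2 1 1 = true := ex3_b s10_pp_022 s9_pp_022

theorem s12_pp_022 : ∃ t, chk3 f_pp_022 t 1 1 1 = true := ex3_a s11_pp_022 k6_pp_022

theorem c_pp_022 : CertN 0 536870912 0 536870912 134217728 67108864 3 false true true .pp 0 2 2
    ndN0q0 ndN0q2 pcN2 cut_pp_022 Ext.none :=
  certN2 (fam := false) (s1 := true) (s2 := true) (a := 0) (b := 2) (c := 2) (cn := .pp) (n1 := ndN0q0) (n2 := ndN0q2) (pc := pcN2) (cut := cut_pp_022) (xt := Ext.none) (P1 := 0) (W1 := 536870912) (P2 := 0) (W2 := 536870912) (P3 := 134217728) (W3 := 67108864) (N0 := 3)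
    rfl (fun _ => rfl) s12_pp_022

noncomputable def f_pp_101 : ℕ → ℕ → ℕ → ℕ → Bool := onCell 536870912 536870912 536870912 536870912 134217728 67108864
    (rowN 3 0 false true true .npn 1 0 1 (qsf 536870912 536870912 536870912 536870912 0) ndN0q1 ndN0q1 pcN0 Cut.none Ext.none)

def k0_pp_101 : ∃ t, chk3 f_pp_101 t 1 1 1 = true :=
  ⟨(l 3), by decide +kernel⟩

theorem c_pp_101 : CertN 536870912 536870912 536870912 536870912 134217728 67108864 3 false true true .npn 1 0 1
    ndN0q1 ndN0q1 pcN0 Cut.none Ext.none :=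
  certN0 (fam := false) (s1 := true) (s2 := true) (a := 1) (b := 0) (c := 1) (cn := .npn) (n1 := ndN0q1) (n2 := ndN0q1) (pc := pcN0) (cut := Cut.none) (xt := Ext.none) (P1 := 536870912) (W1 := 536870912) (P2 := 536870912) (W2 := 536870912) (P3 := 134217728) (W3 := 67108864) (N0 := 3)
    rfl k0_pp_101

noncomputable def f_pp_102 : ℕ → ℕ → ℕ → ℕ → Bool := onCell 0 536870912 0 536870912 134217728 67108864
    (rowN 3 2 false true true .npp 1 0 2 (qsf 536870912 536870912 0 536870912 0) ndN0q1 ndN0q2 pcN0 Cut.none Ext.none)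

def k0_pp_102 : ∃ t, chk3 f_pp_102 t 1 1 1 = true :=
  ⟨(a (b (l 3) (l 3)) (l 3)), by decide +kernel⟩

theorem c_pp_102 : CertN 536870912 536870912 0 536870912 134217728 67108864 3 false true true .npp 1 0 2
    ndN0q1 ndN0q2 pcN0 Cut.none Ext.none :=
  certN2 (fam := false) (s1 := true) (s2 := true) (a := 1) (b := 0) (c := 2) (cn := .npp) (n1 := ndN0q1) (n2 := ndN0q2) (pc := pcN0) (cut := Cut.none) (xt := Ext.none) (P1 := 536870912) (W1 := 536870912) (P2 := 0) (W2 := 536870912) (P3 := 134217728) (W3 := 67108864) (N0 := 3)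
    rfl (fun _ => rfl) k0_pp_102

noncomputable def f_pp_112 : ℕ → ℕ → ℕ → ℕ → Bool := onCell 536870912 536870912 0 536870912 134217728 67108864
    (rowN 3 0 false true true .dn 1 1 2 (qsf 536870912 536870912 0 536870912 1) ndN0q1 ndN0q2 pcN1 Cut.none Ext.none)

def k0_pp_112 : ∃ t, chk3 f_pp_112 t 1 1 1 = true :=
  ⟨(a (b (a (b (a (b (a (b (a (l 16875200) (l 16844736)) (a (b (l 16828664) (l 66739887271)) (b (l 65129270791) (a (l 102173323399) (l 104320796407))))) (b (a (b (l 16829664) (l 63518657143)) (b (l 62444915047) (a (l 103247104999) (l 104857666135)))) (a (b (a (l 102710214183) (l 104320795767)) (l 3)) (l 3)))) (a (b (a (b (a (l 101099582615) (l 103783926183)) (l 3)) (l 3)) (l 3)) (l 3))) (b (a (b (a (b (a (b (l 16801352) (l 95730856327)) (l 104857665687)) (l 3)) (l 3)) (l 3)) (l 3)) (l 3))) (l 3)) (l 3)) (l 3)) (l 1)), by decide +kernel⟩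

theorem c_pp_112 : CertN 536870912 536870912 0 536870912 134217728 67108864 3 false true true .dn 1 1 2
    ndN0q1 ndN0q2 pcN1 Cut.none Ext.none :=
  certN0 (fam := false) (s1 := true) (s2 := true) (a := 1) (b := 1) (c := 2) (cn := .dn) (n1 := ndN0q1) (n2 := ndN0q2) (pc := pcN1) (cut := Cut.none) (xt := Ext.none) (P1 := 536870912) (W1 := 536870912) (P2 := 0) (W2 := 536870912) (P3 := 134217728) (W3 := 67108864) (N0 := 3)
    rfl k0_pp_112

noncomputable def f_pp_202 : ℕ → ℕ → ℕ → ℕ → Bool := onCell 0 536870912 0 536870912 134217728 67108864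
    (rowN 3 0 false true true .pp 2 0 2 (qsf 0 536870912 0 536870912 0) ndN0q2 ndN0q2 pcN0 Cut.none Ext.none)

def k0_pp_202 : ∃ t, chk3 f_pp_202 t 1 1 1 = true :=
  ⟨(l 3), by decide +kernel⟩

theorem c_pp_202 : CertN 0 536870912 0 536870912 134217728 67108864 3 false true true .pp 2 0 2
    ndN0q2 ndN0q2 pcN0 Cut.none Ext.none :=
  certN0 (fam := false) (s1 := true) (s2 := true) (a := 2) (b := 0) (c := 2) (cn := .pp) (n1 := ndN0q2) (n2 := ndN0q2) (pc := pcN0) (cut := Cut.none) (xt := Ext.none) (P1 := 0) (W1 := 536870912) (P2 := 0) (W2 := 536870912) (P3 := 134217728) (W3 := 67108864) (N0 := 3)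
    rfl k0_pp_202

noncomputable def f_pm_001 : ℕ → ℕ → ℕ → ℕ → Bool := onCell 0 536870912 536870912 536870912 134217728 67108864
    (rowN 3 0 false true false .up 0 0 1 (qsf 0 536870912 536870912 536870912 0) ndN0q0 ndN0q1 pcN0 Cut.none Ext.none)

def k0_pm_001 : ∃ t, chk3 f_pm_001 t 2 1 1 = true :=
  ⟨(b (l 4) (b (b (l 4) (l 2)) (l 2))), by decide +kernel⟩

def k1_pm_001 : ∃ t, chk3 f_pm_001 t 3 2 1 = true :=
  ⟨(b (l 4) (a (l 4) (b (a (l 4) (b (a (l 4) (b (l 4) (a (l 4) (b (l 4) (a (l 4) (b (l 130694598503) (l 124788998551))))))) (a (b (l 4) (a (l 4) (b (a (l 4) (l 128010256039)) (a (b (l 4) (l 128547111319)) (b (l 127473354807) (l 87744947687)))))) (b (a (b (l 4) (a (l 4) (b (l 128010236103) (l 89892443639)))) (b (a (b (l 128010240311) (l 90429319351)) (l 16835664)) (l 82913129927))) (a (b (a (b (l 127473360359) (l 88818696231)) (l 16829928)) (l 16821856)) (l 16805384)))))) (a (b (a (l 4) (b (l 4) (a (l 4) (b (a (l 4) (b (l 127473369575) (a (l 125862745543) (l 16827384)))) (a (b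 (l 127473362151) (a (l 125325887863) (l 16820136))) (l 86671209559)))))) (a (b (a (l 4) (b (l 4) (a (l 4) (b (l 4) (l 127473357303))))) (a (b (l 4) (a (l 4) (b (l 126399616999) (a (l 122104658983) (l 91503031335))))) (b (a (b (l 4) (a (l 4) (l 94187390759))) (b (a (l 124252104167) (l 16817344)) (l 16829288))) (a (b (l 90429303047) (l 16806192)) (l 16812048))))) (b (a (b (a (b (l 4) (l 126399624039)) (b (a (l 4) (l 125325883591)) (l 90429305623))) (a (b (a (l 123715258023) (l 91503035063)) (l 88818684503)) (l 16804448))) (b (l 85597473495) (l 16804752))) (a (b (l 16834128) (l 16816704)) (l 16841824))))) (b (a (b (a (b (a (l 4) (b (l 4) (l 128010234167))) (a (b (l 4) (l 128010227287)) (l 88818708679))) (b (a (b (l 127473348567) (l 16838024)) (l 16802256)) (l 16807416))) (a (b (a (l 87744959255) (l 16803240)) (l 16794792)) (l 16820680))) (b (a (l 16812520) (l 16848096)) (l 16821328))) (a (b (a (l 16830360) (l 16845288)) (l 16863224)) (a (l 17005816) (l 16952952)))))))), by decide +kernel⟩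

def k2_pm_001 : ∃ t, chk3 f_pm_001 t 6 12 1 = true :=
  ⟨(a (b (l 4) (a (l 4) (b (l 4) (a (l 4) (b (l 4) (a (b (l 4) (l 2)) (b (a (l 4) (b (l 126936455959) (l 95261107959))) (a (b (l 139821372071) (l 2)) (c (l 16815192) (l 16810696)))))))))) (b (a (l 4) (b (a (l 4) (b (l 4) (a (b (l 4) (a (l 4) (l 122104627575))) (b (a (l 119420283431) (l 92576773911)) (l 90429297287))))) (a (b (a (l 4) (b (l 4) (a (l 4) (a (l 96334858695) (l 92576762743))))) (a (b (a (l 4) (l 126936469463)) (a (l 132842043687) (l 92576767095))) (b (l 92039913303) (l 16813232)))) (b (a (b (a (l 134452658071) (l 16822976)) (l 16818928)) (l 16816376)) (a (l 16824528) (l 16822728)))))) (a (b (a (b (l 4) (a (l 4) (b (l 4) (a (l 4) (b (l 124788976759) (l 94724238967)))))) (b (a (b (l 4) (a (l 4) (l 125862724759))) (b (a (l 4) (b (l 119420271031) (l 94187370327))) (a (l 92039899207) (l 16809008)))) (a (a (b (l 132842061655) (l 92039892647)) (a (l 88818684727) (l 81302477623))) (c (l 16805248) (l 16810648))))) (a (a (b (b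 (a (l 4) (l 126936462583)) (a (l 134452691079) (b (l 95261108951) (l 16808832)))) (b (a (l 89355534903) (l 16819224)) (a (b (l 16799440) (l 16809456)) (l 16818160)))) (b (b (a (b (l 96334848503) (l 16815024)) (l 16810456)) (a (l 16814104) (l 16825840))) (b (c (l 16820720) (l 16857032)) (l 16828336)))) (b (a (b (a (l 16820240) (l 16811104)) (l 16865728)) (l 16838712)) (a (l 16833448) (l 16858056))))) (b (b (a (a (b (l 90429286343) (l 16800464)) (l 16834424)) (l 16885856)) (a (a (l 16846096) (l 16847080)) (l 16877256))) (a (b (a (l 16861984) (l 16883608)) (l 16912336)) (b (l 16912744) (l 16950520))))))), by decide +kernel⟩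

def k3_pm_001 : ∃ t, chk3 f_pm_001 t 6 13 1 = true :=
  ⟨(a (b (a (l 2) (b (a (l 2) (a (l 2) (b (b (l 147740308055) (l 2)) (l 2)))) (l 2))) (l 2)) (b (b (a (a (a (b (b (l 16812048) (l 16835360)) (l 65062221431)) (b (l 16859400) (c (l 16925648) (l 16916112)))) (a (b (l 16877528) (l 16924952)) (b (l 16901464) (l 16968984)))) (a (a (l 16945832) (b (l 16964368) (l 17009016))) (l 17012008))) (b (a (a (a (l 2) (l 49493155143)) (c (l 17014984) (l 50566946199))) (a (l 17027120) (l 17080368))) (a (a (l 2) (c (l 17071144) (l 17054048))) (a (l 17100240) (l 17130296))))) (b (a (a (l 2) (c (l 84926963943) (a (l 2) (l 74726467591)))) (a (b (l 76873967879) (l 94590850231)) (b (l 17184176) (l 17242408)))) (a (l 2) (c (a (l 17336224) (l 17357352)) (a (l 101033440839) (l 87611777095))))))), by decide +kernel⟩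

def k4_pm_001 : ∃ t, chk3 f_pm_001 t 7 6 1 = true :=
  ⟨(b (a (b (a (b (a (b (a (b (a (l 4) (l 133915792935)) (a (l 136600141847) (l 16812120))) (l 88281818359)) (a (l 16831200) (l 16804368))) (b (l 16846736) (l 16831368))) (a (b (l 16863648) (l 16850160)) (l 16872936))) (b (a (l 16855736) (l 16891272)) (a (l 16908008) (l 16940392)))) (a (b (a (l 16937936) (l 16929128)) (a (l 16963624) (l 16989880))) (b (l 16974864) (l 17025024)))) (b (a (b (l 16940208) (l 16984776)) (l 17123616)) (a (l 17070248) (l 17092496)))) (a (b (b (a (a (l 17040488) (l 17062800)) (l 17085792)) (a (b (l 17094848) (l 17246256)) (l 17163608))) (a (a (b (l 17232144) (b (l 17320760) (l 17386016))) (b (l 17245336) (l 17360496))) (b (a (l 17253016) (l 17255744)) (c (l 17379192) (l 17345056))))) (b (a (l 17133752) (l 17155072)) (b (l 17432896) (a (l 17348248) (l 17326768)))))), by decide +kernel⟩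

def k5_pm_001 : ∃ t, chk3 f_pm_001 t 3 7 1 = true :=
  ⟨(a (b (a (l 2) (b (a (l 2) (b (c (l 106402560695) (a (l 2) (l 147204663031))) (l 2))) (l 2))) (l 2)) (b (a (b (a (b (c (l 17562528) (a (c (l 17481928) (l 96202103095)) (l 17471320))) (b (c (l 102108030023) (a (l 182101519687) (a (l 150963055623) (l 17624416)))) (a (l 2) (c (l 17695520) (c (l 17647392) (l 182638533895)))))) (a (b (l 17512648) (c (l 17633512) (b (l 17563936) (l 17601872)))) (b (c (l 17512464) (l 17465512)) (l 17572848)))) (b (c (l 123046113207) (a (l 181564879623) (l 17629008))) (a (l 2) (l 164385034167)))) (b (b (a (c (l 17537608) (l 17601144)) (l 17432064)) (c (l 17505648) (l 17467280))) (a (l 17609456) (l 17532768)))) (a (b (c (l 147742430103) (a (l 2) (l 142373691975))) (l 2)) (b (c (l 55937710727) (a (l 17711104) (l 17640152))) (c (l 18057992) (a (l 17861296) (l 17721032))))))), by decide +kernel⟩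

theorem s6_pm_001 : ∃ t, chk3 f_pm_001 t 6 6 1 = true := ex3_b k2_pm_001 k3_pm_001

theorem s7_pm_001 : ∃ t, chk3 f_pm_001 t 3 6 1 = true := ex3_a s6_pm_001 k4_pm_001

theorem s8_pm_001 : ∃ t, chk3 f_pm_001 t 3 3 1 = true := ex3_b s7_pm_001 k5_pm_001

theorem s9_pm_001 : ∃ t, chk3 f_pm_001 t 3 1 1 = true := ex3_b k1_pm_001 s8_pm_001

theorem s10_pm_001 : ∃ t, chk3 f_pm_001 t 1 1 1 = true := ex3_a k0_pm_001 s9_pm_001

theorem c_pm_001 : CertN 0 536870912 536870912 536870912 134217728 67108864 3 false true false .up 0 0 1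
    ndN0q0 ndN0q1 pcN0 Cut.none Ext.none :=
  certN0 (fam := false) (s1 := true) (s2 := false) (a := 0) (b := 0) (c := 1) (cn := .up) (n1 := ndN0q0) (n2 := ndN0q1) (pc := pcN0) (cut := Cut.none) (xt := Ext.none) (P1 := 0) (W1 := 536870912) (P2 := 536870912) (W2 := 536870912) (P3 := 134217728) (W3 := 67108864) (N0 := 3)
    rfl s10_pm_001

end Pool.Agent.Strip051.G.I1_8_3_16.Tab.C.NB00

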