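import Pool.Agent.Strip051.G.I1_8_3_16.Tab

/-! # Certificates N16 (generated) -/

set_option linter.all false
set_option maxRecDepth 100000

namespace Pool.Agent.Strip051.G.I1_8_3_16.Tab.C.NB23

open Pool.Agent.Strip051.PB Pool.Agent.Strip051.PB.T
open Pool.Agent.Strip051.G.I1_8_3_16.Tab

noncomputable def f_pp_113 : ℕ → ℕ → ℕ → ℕ → Bool := onCell 536870912 536870912 0 1230186008 134217728 67108864
    (rowN 3 2 false true true .nn 1 1 3 (qsf 536870912 536870912 0 1230186008 1) ndN2q1 ndN3q3 pcN1 Cut.none Ext.none)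

def k0_pp_113 : ∃ t, chk3 f_pp_113 t 1 1 1 = true :=
  ⟨(a (b (l 2) (b (a (l 2) (b (l 2) (l 18593920))) (a (b (l 2) (a (l 18951648) (l 18552912))) (b (l 18360096) (l 18072336))))) (a (b (l 2) (b (l 18023184) (l 17852088))) (b (b (a (l 2) (l 17009768)) (l 17390312)) (b (l 17492088) (l 17625880))))), by decide +kernel⟩

theorem c_pp_113 : CertN 536870912 536870912 0 1230186008 134217728 67108864 3 false true true .nn 1 1 3
    ndN2q1 ndN3q3 pcN1 Cut.none Ext.none :=
  certN2 (fam := false) (s1 := true) (s2 := true) (a := 1) (b := 1) (c := 3) (cn := .nn) (n1 := ndN2q1) (n2 := ndN3q3) (pc := pcN1) (cut := Cut.none) (xt := Ext.none) (P1 := 536870912) (W1 := 536870912) (P2 := 0) (W2 := 1230186008) (P3 := 134217728) (W3 := 67108864) (N0 := 3)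
    rfl (fun _ => rfl) k0_pp_113

noncomputable def f_pp_123 : ℕ → ℕ → ℕ → ℕ → Bool := onCell 1073741824 536870912 0 1230186008 134217728 67108864
    (rowN 3 2 false true true .npn 1 2 3 (qsf 536870912 536870912 0 1230186008 2) ndN2q1 ndN3q3 pcN2 Cut.none Ext.none)

def k0_pp_123 : ∃ t, chk3 f_pp_123 t 1 1 1 = true :=
  ⟨(b (a (a (l 17010952) (l 17049248)) (a (l 17088584) (l 17062432))) (b (a (a (a (l 17325104) (a (l 17507304) (l 17381016))) (a (l 17522560) (l 17403104))) (a (l 17377552) (l 17262568))) (a (a (a (l 17623576) (a (a (l 17631920) (l 17623640)) (l 17696232))) (a (a (l 494493788503) (l 17550056)) (l 17483768))) (l 1)))), by decide +kernel⟩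

theorem c_pp_123 : CertN 536870912 536870912 0 1230186008 134217728 67108864 3 false true true .npn 1 2 3
    ndN2q1 ndN3q3 pcN2 Cut.none Ext.none :=
  certN2 (fam := false) (s1 := true) (s2 := true) (a := 1) (b := 2) (c := 3) (cn := .npn) (n1 := ndN2q1) (n2 := ndN3q3) (pc := pcN2) (cut := Cut.none) (xt := Ext.none) (P1 := 536870912) (W1 := 536870912) (P2 := 0) (W2 := 1230186008) (P3 := 134217728) (W3 := 67108864) (N0 := 3)
    rfl (fun _ => rfl) k0_pp_123

noncomputable def f_pp_133 : ℕ → ℕ → ℕ → ℕ → Bool := onCell 1610612736 536870912 0 1230186008 134217728 67108864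
    (rowN 3 2 false true true .dn 1 3 3 (qsf 536870912 536870912 0 1230186008 3) ndN2q1 ndN3q3 pcN3 Cut.none Ext.none)

def k0_pp_133 : ∃ t, chk3 f_pp_133 t 1 1 1 = true :=
  ⟨(b (b (l 4) (l 1)) (l 1)), by decide +kernel⟩

theorem c_pp_133 : CertN 536870912 536870912 0 1230186008 134217728 67108864 3 false true true .dn 1 3 3
    ndN2q1 ndN3q3 pcN3 Cut.none Ext.none :=
  certN2 (fam := false) (s1 := true) (s2 := true) (a := 1) (b := 3) (c := 3) (cn := .dn) (n1 := ndN2q1) (n2 := ndN3q3) (pc := pcN3) (cut := Cut.none) (xt := Ext.none) (P1 := 536870912) (W1 := 536870912) (P2 := 0) (W2 := 1230186008) (P3 := 134217728) (W3 := 67108864) (N0 := 3)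
    rfl (fun _ => rfl) k0_pp_133

noncomputable def f_pp_202_a : ℕ → ℕ → ℕ → ℕ → Bool := onCell 0 536870912 1073741824 536870912 134217728 67108864
    (rowN 3 0 false true true .pp 2 0 2 (qsf 0 536870912 1073741824 536870912 0) ndN2q2a ndN3q2 pcN0 Cut.none Ext.none)

def k0_pp_202_a : ∃ t, chk3 f_pp_202_a t 1 1 1 = true :=
  ⟨(l 3), by decide +kernel⟩

theorem c_pp_202_a : CertN 0 536870912 1073741824 536870912 134217728 67108864 3 false true true .pp 2 0 2
    ndN2q2a ndN3q2 pcN0 Cut.none Ext.none :=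
  certN0 (fam := false) (s1 := true) (s2 := true) (a := 2) (b := 0) (c := 2) (cn := .pp) (n1 := ndN2q2a) (n2 := ndN3q2) (pc := pcN0) (cut := Cut.none) (xt := Ext.none) (P1 := 0) (W1 := 536870912) (P2 := 1073741824) (W2 := 536870912) (P3 := 134217728) (W3 := 67108864) (N0 := 3)
    rfl k0_pp_202_a

noncomputable def f_pp_202_b : ℕ → ℕ → ℕ → ℕ → Bool := onCell 1239849684 370763052 1073741824 536870912 134217728 67108864
    (rowN 3 0 false true true .pp 2 0 2 (qsf 1239849684 370763052 1073741824 536870912 0) ndN2q2b ndN3q2 pcN0 Cut.none Ext.none)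

def k0_pp_202_b : ∃ t, chk3 f_pp_202_b t 1 1 1 = true :=
  ⟨(l 3), by decide +kernel⟩

theorem c_pp_202_b : CertN 1239849684 370763052 1073741824 536870912 134217728 67108864 3 false true true .pp 2 0 2
    ndN2q2b ndN3q2 pcN0 Cut.none Ext.none :=
  certN0 (fam := false) (s1 := true) (s2 := true) (a := 2) (b := 0) (c := 2) (cn := .pp) (n1 := ndN2q2b) (n2 := ndN3q2) (pc := pcN0) (cut := Cut.none) (xt := Ext.none) (P1 := 1239849684) (W1 := 370763052) (P2 := 1073741824) (W2 := 536870912) (P3 := 134217728) (W3 := 67108864) (N0 := 3)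
    rfl k0_pp_202_b

noncomputable def f_pp_203_a : ℕ → ℕ → ℕ → ℕ → Bool := onCell 0 536870912 0 1230186008 134217728 67108864
    (rowN 3 0 false true true .up 2 0 3 (qsf 0 536870912 0 1230186008 0) ndN2q2a ndN3q3 pcN0 Cut.none Ext.none)

def k0_pp_203_a : ∃ t, chk3 f_pp_203_a t 1 1 1 = true :=
  ⟨(b (l 2) (l 3)), by decide +kernel⟩

theorem c_pp_203_a : CertN 0 536870912 0 1230186008 134217728 67108864 3 false true true .up 2 0 3
    ndN2q2a ndN3q3 pcN0 Cut.none Ext.none :=
  certN0 (fam := false) (s1 := true) (s2 := true) (a := 2) (b := 0) (c := 3) (cn := .up) (n1 := ndN2q2a) (n2 := ndN3q3) (pc := pcN0) (cut := Cut.none) (xt := Ext.none) (P1 := 0) (W1 := 536870912) (P2 := 0) (W2 := 1230186008) (P3 := 134217728) (W3 := 67108864) (N0 := 3)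
    rfl k0_pp_203_a

noncomputable def f_pp_203_b : ℕ → ℕ → ℕ → ℕ → Bool := onCell 1239849684 370763052 0 1230186008 134217728 67108864
    (rowN 3 0 false true true .up 2 0 3 (qsf 1239849684 370763052 0 1230186008 0) ndN2q2b ndN3q3 pcN0 Cut.none Ext.none)

def k0_pp_203_b : ∃ t, chk3 f_pp_203_b t 1 1 1 = true :=
  ⟨(b (l 3) (l 3)), by decide +kernel⟩

theorem c_pp_203_b : CertN 1239849684 370763052 0 1230186008 134217728 67108864 3 false true true .up 2 0 3
    ndN2q2b ndN3q3 pcN0 Cut.none Ext.none :=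
  certN0 (fam := false) (s1 := true) (s2 := true) (a := 2) (b := 0) (c := 3) (cn := .up) (n1 := ndN2q2b) (n2 := ndN3q3) (pc := pcN0) (cut := Cut.none) (xt := Ext.none) (P1 := 1239849684) (W1 := 370763052) (P2 := 0) (W2 := 1230186008) (P3 := 134217728) (W3 := 67108864) (N0 := 3)
    rfl k0_pp_203_b

noncomputable def cut_pp_213_a : Cut := Cut.of [[⟨0, 1, 0, 39843005⟩, ⟨1, 1, 0, 39843005⟩, ⟨2, 2, 0, 5814905⟩]]

noncomputable def f_pp_213_a : ℕ → ℕ → ℕ → ℕ → Bool := onCell 0 536870912 0 1230186008 134217728 67108864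
    (rowN 3 0 false true true .pnn 2 1 3 (qsf 0 536870912 0 1230186008 1) ndN2q2a ndN3q3 pcN1 cut_pp_213_a Ext.none)

def k0_pp_213_a : ∃ t, chk3 f_pp_213_a t 1 1 1 = true :=
  ⟨(b (a (l 3) (b (a (l 3) (b (a (l 3) (b (a (l 3) (l 6)) (l 3))) (l 3))) (l 3))) (l 3)), by decide +kernel⟩

theorem c_pp_213_a : CertN 0 536870912 0 1230186008 134217728 67108864 3 false true true .pnn 2 1 3
    ndN2q2a ndN3q3 pcN1 cut_pp_213_a Ext.none :=
  certN0 (fam := false) (s1 := true) (s2 := true) (a := 2) (b := 1) (c := 3) (cn := .pnn) (n1 := ndN2q2a) (n2 := ndN3q3) (pc := pcN1) (cut := cut_pp_213_a) (xt := Ext.none) (P1 := 0) (W1 := 536870912) (P2 := 0) (W2 := 1230186008) (P3 := 134217728) (W3 := 67108864) (N0 := 3)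
    rfl k0_pp_213_a

noncomputable def cut_pp_213_b : Cut := Cut.of [[⟨0, 1, 0, 39843005⟩, ⟨1, 1, 0, 39843005⟩, ⟨2, 2, 0, 5814905⟩]]

noncomputable def f_pp_213_b : ℕ → ℕ → ℕ → ℕ → Bool := onCell 1239849684 370763052 0 1230186008 134217728 67108864
    (rowN 3 0 false true true .pnn 2 1 3 (qsf 1239849684 370763052 0 1230186008 1) ndN2q2b ndN3q3 pcN1 cut_pp_213_b Ext.none)

def k0_pp_213_b : ∃ t, chk3 f_pp_213_b t 1 1 1 = true :=
  ⟨(b (l 3) (l 3)), by decide +kernel⟩

theorem c_pp_213_b : CertN 1239849684 370763052 0 1230186008 134217728 67108864 3 false true true .pnn 2 1 3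
    ndN2q2b ndN3q3 pcN1 cut_pp_213_b Ext.none :=
  certN0 (fam := false) (s1 := true) (s2 := true) (a := 2) (b := 1) (c := 3) (cn := .pnn) (n1 := ndN2q2b) (n2 := ndN3q3) (pc := pcN1) (cut := cut_pp_213_b) (xt := Ext.none) (P1 := 1239849684) (W1 := 370763052) (P2 := 0) (W2 := 1230186008) (P3 := 134217728) (W3 := 67108864) (N0 := 3)
    rfl k0_pp_213_b

noncomputable def f_pp_303 : ℕ → ℕ → ℕ → ℕ → Bool := onCell 1610612736 536870912 0 1230186008 134217728 67108864
    (rowN 3 0 false true true .npn 3 0 3 (qsf 1610612736 536870912 0 1230186008 0) ndN2q3 ndN3q3 pcN0 Cut.none Ext.none)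

def k0_pp_303 : ∃ t, chk3 f_pp_303 t 1 1 1 = true :=
  ⟨(b (l 3) (l 3)), by decide +kernel⟩

theorem c_pp_303 : CertN 1610612736 536870912 0 1230186008 134217728 67108864 3 false true true .npn 3 0 3
    ndN2q3 ndN3q3 pcN0 Cut.none Ext.none :=
  certN0 (fam := false) (s1 := true) (s2 := true) (a := 3) (b := 0) (c := 3) (cn := .npn) (n1 := ndN2q3) (n2 := ndN3q3) (pc := pcN0) (cut := Cut.none) (xt := Ext.none) (P1 := 1610612736) (W1 := 536870912) (P2 := 0) (W2 := 1230186008) (P3 := 134217728) (W3 := 67108864) (N0 := 3)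
    rfl k0_pp_303

noncomputable def f_pp_313 : ℕ → ℕ → ℕ → ℕ → Bool := onCell 1610612736 536870912 0 1230186008 134217728 67108864
    (rowN 3 0 false true true .dn 3 1 3 (qsf 1610612736 536870912 0 1230186008 1) ndN2q3 ndN3q3 pcN1 Cut.none Ext.none)

def k0_pp_313 : ∃ t, chk3 f_pp_313 t 1 1 1 = true :=
  ⟨(b (l 3) (l 1)), by decide +kernel⟩

theorem c_pp_313 : CertN 1610612736 536870912 0 1230186008 134217728 67108864 3 false true true .dn 3 1 3
    ndN2q3 ndN3q3 pcN1 Cut.none Ext.none :=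
  certN0 (fam := false) (s1 := true) (s2 := true) (a := 3) (b := 1) (c := 3) (cn := .dn) (n1 := ndN2q3) (n2 := ndN3q3) (pc := pcN1) (cut := Cut.none) (xt := Ext.none) (P1 := 1610612736) (W1 := 536870912) (P2 := 0) (W2 := 1230186008) (P3 := 134217728) (W3 := 67108864) (N0 := 3)
    rfl k0_pp_313

noncomputable def f_pm_001 : ℕ → ℕ → ℕ → ℕ → Bool := onCell 0 536870912 536870912 536870912 134217728 67108864
    (rowN 3 0 false true false .up 0 0 1 (qsf 0 536870912 536870912 536870912 0) ndN2q0 ndN3q1 pcN0 Cut.none Ext.none)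

def k0_pm_001 : ∃ t, chk3 f_pm_001 t 1 1 1 = true :=
  ⟨(l 4), by decide +kernel⟩

theorem c_pm_001 : CertN 0 536870912 536870912 536870912 134217728 67108864 3 false true false .up 0 0 1
    ndN2q0 ndN3q1 pcN0 Cut.none Ext.none :=
  certN0 (fam := false) (s1 := true) (s2 := false) (a := 0) (b := 0) (c := 1) (cn := .up) (n1 := ndN2q0) (n2 := ndN3q1) (pc := pcN0) (cut := Cut.none) (xt := Ext.none) (P1 := 0) (W1 := 536870912) (P2 := 536870912) (W2 := 536870912) (P3 := 134217728) (W3 := 67108864) (N0 := 3)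
    rfl k0_pm_001

noncomputable def f_pm_011 : ℕ → ℕ → ℕ → ℕ → Bool := onCell 0 536870912 536870912 536870912 134217728 67108864
    (rowN 3 0 false true false .pnn 0 1 1 (qsf 0 536870912 536870912 536870912 1) ndN2q0 ndN3q1 pcN1 Cut.none Ext.none)

def k0_pm_011 : ∃ t, chk3 f_pm_011 t 1 1 1 = true :=
  ⟨(l 4), by decide +kernel⟩

theorem c_pm_011 : CertN 0 536870912 536870912 536870912 134217728 67108864 3 false true false .pnn 0 1 1
    ndN2q0 ndN3q1 pcN1 Cut.none Ext.none :=
  certN0 (fam := false) (s1 := true) (s2 := false) (a := 0) (b := 1) (c := 1) (cn := .pnn) (n1 := ndN2q0) (n2 := ndN3q1) (pc := pcN1) (cut := Cut.none) (xt := Ext.none) (P1 := 0) (W1 := 536870912) (P2 := 536870912) (W2 := 536870912) (P3 := 134217728) (W3 := 67108864) (N0 := 3)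
    rfl k0_pm_011

noncomputable def f_pm_012 : ℕ → ℕ → ℕ → ℕ → Bool := onCell 0 536870912 1073741824 536870912 134217728 67108864
    (rowN 3 0 false true false .pnp 0 1 2 (qsf 0 536870912 1073741824 536870912 1) ndN2q0 ndN3q2 pcN1 Cut.none Ext.none)

def k0_pm_012 : ∃ t, chk3 f_pm_012 t 1 1 1 = true :=
  ⟨(l 4), by decide +kernel⟩

theorem c_pm_012 : CertN 0 536870912 1073741824 536870912 134217728 67108864 3 false true false .pnp 0 1 2
    ndN2q0 ndN3q2 pcN1 Cut.none Ext.none :=
  certN0 (fam := false) (s1 := true) (s2 := false) (a := 0) (b := 1) (c := 2) (cn := .pnp) (n1 := ndN2q0) (n2 := ndN3q2) (pc := pcN1) (cut := Cut.none) (xt := Ext.none) (P1 := 0) (W1 := 536870912) (P2 := 1073741824) (W2 := 536870912) (P3 := 134217728) (W3 := 67108864) (N0 := 3)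
    rfl k0_pm_012

noncomputable def f_pm_022 : ℕ → ℕ → ℕ → ℕ → Bool := onCell 0 536870912 1073741824 536870912 134217728 67108864
    (rowN 3 0 false true false .pp 0 2 2 (qsf 0 536870912 1073741824 536870912 2) ndN2q0 ndN3q2 pcN2 Cut.none Ext.none)

def k0_pm_022 : ∃ t, chk3 f_pm_022 t 1 1 1 = true :=
  ⟨(l 4), by decide +kernel⟩

theorem c_pm_022 : CertN 0 536870912 1073741824 536870912 134217728 67108864 3 false true false .pp 0 2 2
    ndN2q0 ndN3q2 pcN2 Cut.none Ext.none :=
  certN0 (fam := false) (s1 := true) (s2 := false) (a := 0) (b := 2) (c := 2) (cn := .pp) (n1 := ndN2q0) (n2 := ndN3q2) (pc := pcN2) (cut := Cut.none) (xt := Ext.none) (P1 := 0) (W1 := 536870912) (P2 := 1073741824) (W2 := 536870912) (P3 := 134217728) (W3 := 67108864) (N0 := 3)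
    rfl k0_pm_022

noncomputable def f_pm_023 : ℕ → ℕ → ℕ → ℕ → Bool := onCell 0 536870912 0 1230186008 134217728 67108864
    (rowN 3 0 false true false .up 0 2 3 (qsf 0 536870912 0 1230186008 2) ndN2q0 ndN3q3 pcN2 Cut.none Ext.none)

def k0_pm_023 : ∃ t, chk3 f_pm_023 t 1 1 1 = true :=
  ⟨(b (l 4) (l 4)), by decide +kernel⟩

theorem c_pm_023 : CertN 0 536870912 0 1230186008 134217728 67108864 3 false true false .up 0 2 3
    ndN2q0 ndN3q3 pcN2 Cut.none Ext.none :=
  certN0 (fam := false) (s1 := true) (s2 := false) (a := 0) (b := 2) (c := 3) (cn := .up) (n1 := ndN2q0) (n2 := ndN3q3) (pc := pcN2) (cut := Cut.none) (xt := Ext.none) (P1 := 0) (W1 := 536870912) (P2 := 0) (W2 := 1230186008) (P3 := 134217728) (W3 := 67108864) (N0 := 3)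
    rfl k0_pm_023

noncomputable def f_pm_033 : ℕ → ℕ → ℕ → ℕ → Bool := onCell 0 536870912 0 1230186008 134217728 67108864
    (rowN 3 0 false true false .pnn 0 3 3 (qsf 0 536870912 0 1230186008 3) ndN2q0 ndN3q3 pcN3 Cut.none Ext.none)

def k0_pm_033 : ∃ t, chk3 f_pm_033 t 1 1 1 = true :=
  ⟨(b (l 4) (l 4)), by decide +kernel⟩

theorem c_pm_033 : CertN 0 536870912 0 1230186008 134217728 67108864 3 false true false .pnn 0 3 3
    ndN2q0 ndN3q3 pcN3 Cut.none Ext.none :=
  certN0 (fam := false) (s1 := true) (s2 := false) (a := 0) (b := 3) (c := 3) (cn := .pnn) (n1 := ndN2q0) (n2 := ndN3q3) (pc := pcN3) (cut := Cut.none) (xt := Ext.none) (P1 := 0) (W1 := 536870912) (P2 := 0) (W2 := 1230186008) (P3 := 134217728) (W3 := 67108864) (N0 := 3)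
    rfl k0_pm_033

noncomputable def f_pm_101 : ℕ → ℕ → ℕ → ℕ → Bool := onCell 536870912 536870912 536870912 536870912 134217728 67108864
    (rowN 3 0 false true false .npn 1 0 1 (qsf 536870912 536870912 536870912 536870912 0) ndN2q1 ndN3q1 pcN0 Cut.none Ext.none)

def k0_pm_101 : ∃ t, chk3 f_pm_101 t 1 1 1 = true :=
  ⟨(l 4), by decide +kernel⟩

theorem c_pm_101 : CertN 536870912 536870912 536870912 536870912 134217728 67108864 3 false true false .npn 1 0 1
    ndN2q1 ndN3q1 pcN0 Cut.none Ext.none :=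
  certN0 (fam := false) (s1 := true) (s2 := false) (a := 1) (b := 0) (c := 1) (cn := .npn) (n1 := ndN2q1) (n2 := ndN3q1) (pc := pcN0) (cut := Cut.none) (xt := Ext.none) (P1 := 536870912) (W1 := 536870912) (P2 := 536870912) (W2 := 536870912) (P3 := 134217728) (W3 := 67108864) (N0 := 3)
    rfl k0_pm_101

noncomputable def f_pm_102 : ℕ → ℕ → ℕ → ℕ → Bool := onCell 536870912 536870912 1073741824 536870912 134217728 67108864
    (rowN 3 0 false true false .npp 1 0 2 (qsf 536870912 536870912 1073741824 536870912 0) ndN2q1 ndN3q2 pcN0 Cut.none Ext.none)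

def k0_pm_102 : ∃ t, chk3 f_pm_102 t 1 1 1 = true :=
  ⟨(l 4), by decide +kernel⟩

theorem c_pm_102 : CertN 536870912 536870912 1073741824 536870912 134217728 67108864 3 false true false .npp 1 0 2
    ndN2q1 ndN3q2 pcN0 Cut.none Ext.none :=
  certN0 (fam := false) (s1 := true) (s2 := false) (a := 1) (b := 0) (c := 2) (cn := .npp) (n1 := ndN2q1) (n2 := ndN3q2) (pc := pcN0) (cut := Cut.none) (xt := Ext.none) (P1 := 536870912) (W1 := 536870912) (P2 := 1073741824) (W2 := 536870912) (P3 := 134217728) (W3 := 67108864) (N0 := 3)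
    rfl k0_pm_102

noncomputable def f_pm_112 : ℕ → ℕ → ℕ → ℕ → Bool := onCell 536870912 536870912 1073741824 536870912 134217728 67108864
    (rowN 3 0 false true false .dn 1 1 2 (qsf 536870912 536870912 1073741824 536870912 1) ndN2q1 ndN3q2 pcN1 Cut.none Ext.none)

def k0_pm_112 : ∃ t, chk3 f_pm_112 t 1 1 1 = true :=
  ⟨(l 4), by decide +kernel⟩

theorem c_pm_112 : CertN 536870912 536870912 1073741824 536870912 134217728 67108864 3 false true false .dn 1 1 2
    ndN2q1 ndN3q2 pcN1 Cut.none Ext.none :=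
  certN0 (fam := false) (s1 := true) (s2 := false) (a := 1) (b := 1) (c := 2) (cn := .dn) (n1 := ndN2q1) (n2 := ndN3q2) (pc := pcN1) (cut := Cut.none) (xt := Ext.none) (P1 := 536870912) (W1 := 536870912) (P2 := 1073741824) (W2 := 536870912) (P3 := 134217728) (W3 := 67108864) (N0 := 3)
    rfl k0_pm_112

noncomputable def f_pm_113 : ℕ → ℕ → ℕ → ℕ → Bool := onCell 536870912 536870912 0 1230186008 134217728 67108864
    (rowN 3 0 false true false .nn 1 1 3 (qsf 536870912 536870912 0 1230186008 1) ndN2q1 ndN3q3 pcN1 Cut.none Ext.none)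

def k0_pm_113 : ∃ t, chk3 f_pm_113 t 1 1 1 = true :=
  ⟨(b (a (l 2) (b (l 17233880) (b (l 17364688) (l 4)))) (b (l 4) (l 4))), by decide +kernel⟩

theorem c_pm_113 : CertN 536870912 536870912 0 1230186008 134217728 67108864 3 false true false .nn 1 1 3
    ndN2q1 ndN3q3 pcN1 Cut.none Ext.none :=
  certN0 (fam := false) (s1 := true) (s2 := false) (a := 1) (b := 1) (c := 3) (cn := .nn) (n1 := ndN2q1) (n2 := ndN3q3) (pc := pcN1) (cut := Cut.none) (xt := Ext.none) (P1 := 536870912) (W1 := 536870912) (P2 := 0) (W2 := 1230186008) (P3 := 134217728) (W3 := 67108864) (N0 := 3)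
    rfl k0_pm_113

noncomputable def f_pm_123 : ℕ → ℕ → ℕ → ℕ → Bool := onCell 1073741824 536870912 0 1230186008 134217728 67108864
    (rowN 3 2 false true false .npn 1 2 3 (qsf 536870912 536870912 0 1230186008 2) ndN2q1 ndN3q3 pcN2 Cut.none Ext.none)

def k0_pm_123 : ∃ t, chk3 f_pm_123 t 1 1 1 = true :=
  ⟨(b (a (a (l 16939768) (l 16987224)) (a (l 17057328) (l 4))) (a (l 4) (l 4))), by decide +kernel⟩

theorem c_pm_123 : CertN 536870912 536870912 0 1230186008 134217728 67108864 3 false true false .npn 1 2 3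
    ndN2q1 ndN3q3 pcN2 Cut.none Ext.none :=
  certN2 (fam := false) (s1 := true) (s2 := false) (a := 1) (b := 2) (c := 3) (cn := .npn) (n1 := ndN2q1) (n2 := ndN3q3) (pc := pcN2) (cut := Cut.none) (xt := Ext.none) (P1 := 536870912) (W1 := 536870912) (P2 := 0) (W2 := 1230186008) (P3 := 134217728) (W3 := 67108864) (N0 := 3)
    rfl (fun _ => rfl) k0_pm_123

noncomputable def f_pm_133 : ℕ → ℕ → ℕ → ℕ → Bool := onCell 1610612736 536870912 0 1230186008 134217728 67108864
    (rowN 3 2 false true false .dn 1 3 3 (qsf 536870912 536870912 0 1230186008 3) ndN2q1 ndN3q3 pcN3 Cut.none Ext.none)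

def k0_pm_133 : ∃ t, chk3 f_pm_133 t 1 1 1 = true :=
  ⟨(b (a (l 4) (l 1)) (l 1)), by decide +kernel⟩

theorem c_pm_133 : CertN 536870912 536870912 0 1230186008 134217728 67108864 3 false true false .dn 1 3 3
    ndN2q1 ndN3q3 pcN3 Cut.none Ext.none :=
  certN2 (fam := false) (s1 := true) (s2 := false) (a := 1) (b := 3) (c := 3) (cn := .dn) (n1 := ndN2q1) (n2 := ndN3q3) (pc := pcN3) (cut := Cut.none) (xt := Ext.none) (P1 := 536870912) (W1 := 536870912) (P2 := 0) (W2 := 1230186008) (P3 := 134217728) (W3 := 67108864) (N0 := 3)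
    rfl (fun _ => rfl) k0_pm_133

noncomputable def f_pm_202_a : ℕ → ℕ → ℕ → ℕ → Bool := onCell 0 536870912 1073741824 536870912 134217728 67108864
    (rowN 3 0 false true false .pp 2 0 2 (qsf 0 536870912 1073741824 536870912 0) ndN2q2a ndN3q2 pcN0 Cut.none Ext.none)

def k0_pm_202_a : ∃ t, chk3 f_pm_202_a t 1 1 1 = true :=
  ⟨(a (b (a (b (l 1) (b (b (b (l 1) (b (l 17153560) (l 17097992))) (l 16926184)) (b (l 17176656) (l 17536880)))) (b (a (l 1) (b (l 1) (b (l 1) (b (l 1) (l 17279776))))) (b (b (b (l 17320584) (b (l 17144472) (l 17089624))) (l 16985392)) (b (l 17182808) (l 17501600))))) (b (b (a (l 17745960) (l 17703896)) (l 18044688)) (b (l 17810936) (l 17758528)))) (b (a (b (a (b (l 1) (b (l 1) (b (l 17326808) (l 17265352)))) (b (l 1) (b (b (l 17409344) (b (l 17383672) (l 17360256))) (b (l 17297488) (l 17224904))))) (b (b (b (l 17343392) (b (l 17066344) (l 17054672))) (l 17059240)) (b (l 17414352) (l 17429016)))) (b (a (b (c (l 26342153383) (b (l 1) (l 17375360)))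 (b (b (l 17376064) (b (l 17349024) (l 17326080))) (b (l 17244224) (l 17148256)))) (b (b (a (l 17453192) (l 17445064)) (a (l 17502912) (l 17380064))) (b (b (l 17337728) (b (l 17275952) (l 17238024))) (b (l 17154104) (l 17064240))))) (b (b (b (a (l 17048152) (l 16966008)) (b (l 16930880) (a (l 16917992) (l 16839256)))) (a (l 16867600) (l 16886632))) (b (a (l 17146496) (l 17118448)) (l 17329136))))) (b (a (b (l 17622776) (l 17724000)) (b (l 17661592) (l 17618568))) (a (b (l 17739152) (l 17699680)) (b (l 17641608) (l 17615152)))))), by decide +kernel⟩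

theorem c_pm_202_a : CertN 0 536870912 1073741824 536870912 134217728 67108864 3 false true false .pp 2 0 2
    ndN2q2a ndN3q2 pcN0 Cut.none Ext.none :=
  certN0 (fam := false) (s1 := true) (s2 := false) (a := 2) (b := 0) (c := 2) (cn := .pp) (n1 := ndN2q2a) (n2 := ndN3q2) (pc := pcN0) (cut := Cut.none) (xt := Ext.none) (P1 := 0) (W1 := 536870912) (P2 := 1073741824) (W2 := 536870912) (P3 := 134217728) (W3 := 67108864) (N0 := 3)
    rfl k0_pm_202_a

noncomputable def f_pm_202_b : ℕ → ℕ → ℕ → ℕ → Bool := onCell 1239849684 370763052 0 536870912 134217728 67108864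
    (rowN 3 1 false true false .pp 2 0 2 (qsf 1239849684 370763052 1073741824 536870912 0) ndN2q2b ndN3q2 pcN0 Cut.none Ext.none)

def k0_pm_202_b : ∃ t, chk3 f_pm_202_b t 1 1 1 = true :=
  ⟨(b (a (b (a (b (a (b (a (b (l 16934744) (l 16892312)) (l 17075808)) (a (l 17300472) (l 17544688))) (b (b (l 17380824) (l 17598448)) (l 17839552))) (b (a (b (l 17672200) (l 17760960)) (l 17982216)) (l 17928976))) (b (b (l 18054720) (l 18198928)) (l 18188272))) (b (a (l 17951968) (l 18101096)) (l 17966408))) (b (b (a (b (l 18405656) (l 18370912)) (l 3)) (l 18242816)) (b (l 59226473527) (l 2)))) (b (a (b (l 17863496) (l 17747312)) (l 2)) (l 2))), by decide +kernel⟩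

theorem c_pm_202_b : CertN 1239849684 370763052 1073741824 536870912 134217728 67108864 3 false true false .pp 2 0 2
    ndN2q2b ndN3q2 pcN0 Cut.none Ext.none :=
  certN1 (fam := false) (s1 := true) (s2 := false) (a := 2) (b := 0) (c := 2) (cn := .pp) (n1 := ndN2q2b) (n2 := ndN3q2) (pc := pcN0) (cut := Cut.none) (xt := Ext.none) (P1 := 1239849684) (W1 := 370763052) (P2 := 1073741824) (W2 := 536870912) (P3 := 134217728) (W3 := 67108864) (N0 := 3)
    rfl (fun _ => rfl) k0_pm_202_b

noncomputable def f_pm_203_a : ℕ → ℕ → ℕ → ℕ → Bool := onCell 0 536870912 0 1230186008 134217728 67108864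
    (rowN 3 0 false true false .up 2 0 3 (qsf 0 536870912 0 1230186008 0) ndN2q2a ndN3q3 pcN0 Cut.none Ext.none)

def k0_pm_203_a : ∃ t, chk3 f_pm_203_a t 1 1 1 = true :=
  ⟨(b (l 2) (b (l 2) (b (a (b (l 2) (l 17582736)) (l 2)) (a (b (l 17703776) (l 17821504)) (b (a (l 17723032) (l 17742648)) (a (l 17819000) (l 17817120))))))), by decide +kernel⟩

theorem c_pm_203_a : CertN 0 536870912 0 1230186008 134217728 67108864 3 false true false .up 2 0 3
    ndN2q2a ndN3q3 pcN0 Cut.none Ext.none :=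
  certN0 (fam := false) (s1 := true) (s2 := false) (a := 2) (b := 0) (c := 3) (cn := .up) (n1 := ndN2q2a) (n2 := ndN3q3) (pc := pcN0) (cut := Cut.none) (xt := Ext.none) (P1 := 0) (W1 := 536870912) (P2 := 0) (W2 := 1230186008) (P3 := 134217728) (W3 := 67108864) (N0 := 3)
    rfl k0_pm_203_a

noncomputable def f_pm_203_b : ℕ → ℕ → ℕ → ℕ → Bool := onCell 0 536870912 0 1230186008 134217728 67108864
    (rowN 3 2 false true false .up 2 0 3 (qsf 1239849684 370763052 0 1230186008 0) ndN2q2b ndN3q3 pcN0 Cut.none Ext.none)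

def k0_pm_203_b : ∃ t, chk3 f_pm_203_b t 1 1 1 = true :=
  ⟨(b (l 3) (b (a (l 3) (l 3)) (a (a (l 3) (b (l 3) (l 17960056))) (a (b (l 3) (l 18103808)) (b (l 17740808) (a (l 17759832) (l 17701672))))))), by decide +kernel⟩

theorem c_pm_203_b : CertN 1239849684 370763052 0 1230186008 134217728 67108864 3 false true false .up 2 0 3
    ndN2q2b ndN3q3 pcN0 Cut.none Ext.none :=
  certN2 (fam := false) (s1 := true) (s2 := false) (a := 2) (b := 0) (c := 3) (cn := .up) (n1 := ndN2q2b) (n2 := ndN3q3) (pc := pcN0) (cut := Cut.none) (xt := Ext.none) (P1 := 1239849684) (W1 := 370763052) (P2 := 0) (W2 := 1230186008) (P3 := 134217728) (W3 := 67108864) (N0 := 3)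
    rfl (fun _ => rfl) k0_pm_203_b

noncomputable def cut_pm_213_a : Cut := Cut.of [[⟨0, 1, 0, 39843005⟩, ⟨1, 1, 0, 39843005⟩, ⟨2, 2, 0, 5814905⟩]]

noncomputable def f_pm_213_a : ℕ → ℕ → ℕ → ℕ → Bool := onCell 0 536870912 0 1230186008 134217728 67108864
    (rowN 3 0 false true false .pnn 2 1 3 (qsf 0 536870912 0 1230186008 1) ndN2q2a ndN3q3 pcN1 cut_pm_213_a Ext.none)

def k0_pm_213_a : ∃ t, chk3 f_pm_213_a t 1 1 1 = true :=
  ⟨(b (a (b (l 3) (l 3)) (b (a (l 3) (a (b (l 3) (l 3)) (a (b (l 3) (l 425906641879)) (b (b (l 6) (l 16833448)) (l 16858712))))) (a (b (l 3) (l 322291017687)) (b (b (l 44191750055) (l 17082040)) (a (l 16967344) (l 16958496)))))) (b (a (b (l 3) (l 295985235495)) (b (a (l 85531201943) (a (l 17073056) (l 17079120))) (a (b (l 17243256) (l 17327656)) (b (l 17199352) (l 17284824))))) (b (a (b (l 17453680) (l 17537424)) (a (b (l 17409000) (l 17479400)) (b (l 17368344) (l 17445800)))) (a (b (l 17629160) (l 1)) (a (b (l 17538384) (l 1)) (b (l 17507608)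 (l 17549688))))))), by decide +kernel⟩

theorem c_pm_213_a : CertN 0 536870912 0 1230186008 134217728 67108864 3 false true false .pnn 2 1 3
    ndN2q2a ndN3q3 pcN1 cut_pm_213_a Ext.none :=
  certN0 (fam := false) (s1 := true) (s2 := false) (a := 2) (b := 1) (c := 3) (cn := .pnn) (n1 := ndN2q2a) (n2 := ndN3q3) (pc := pcN1) (cut := cut_pm_213_a) (xt := Ext.none) (P1 := 0) (W1 := 536870912) (P2 := 0) (W2 := 1230186008) (P3 := 134217728) (W3 := 67108864) (N0 := 3)
    rfl k0_pm_213_a

noncomputable def cut_pm_213_b : Cut := Cut.of [[⟨0, 1, 0, 39843005⟩, ⟨1, 1, 0, 39843005⟩, ⟨2, 2, 0, 5814905⟩]]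

noncomputable def f_pm_213_b : ℕ → ℕ → ℕ → ℕ → Bool := onCell 1239849684 370763052 0 1230186008 134217728 67108864
    (rowN 3 0 false true false .pnn 2 1 3 (qsf 1239849684 370763052 0 1230186008 1) ndN2q2b ndN3q3 pcN1 cut_pm_213_b Ext.none)

def k0_pm_213_b : ∃ t, chk3 f_pm_213_b t 1 1 1 = true :=
  ⟨(b (l 3) (b (a (l 3) (l 3)) (a (b (a (b (l 3) (l 17770056)) (l 1)) (l 1)) (l 1)))), by decide +kernel⟩

theorem c_pm_213_b : CertN 1239849684 370763052 0 1230186008 134217728 67108864 3 false true false .pnn 2 1 3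
    ndN2q2b ndN3q3 pcN1 cut_pm_213_b Ext.none :=
  certN0 (fam := false) (s1 := true) (s2 := false) (a := 2) (b := 1) (c := 3) (cn := .pnn) (n1 := ndN2q2b) (n2 := ndN3q3) (pc := pcN1) (cut := cut_pm_213_b) (xt := Ext.none) (P1 := 1239849684) (W1 := 370763052) (P2 := 0) (W2 := 1230186008) (P3 := 134217728) (W3 := 67108864) (N0 := 3)
    rfl k0_pm_213_b

noncomputable def f_pm_303 : ℕ → ℕ → ℕ → ℕ → Bool := onCell 1610612736 536870912 0 1230186008 134217728 67108864
    (rowN 3 0 false true false .npn 3 0 3 (qsf 1610612736 536870912 0 1230186008 0) ndN2q3 ndN3q3 pcN0 Cut.none Ext.none)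

def k0_pm_303 : ∃ t, chk3 f_pm_303 t 1 1 1 = true :=
  ⟨(b (l 3) (b (l 3) (a (l 3) (l 1)))), by decide +kernel⟩

theorem c_pm_303 : CertN 1610612736 536870912 0 1230186008 134217728 67108864 3 false true false .npn 3 0 3
    ndN2q3 ndN3q3 pcN0 Cut.none Ext.none :=
  certN0 (fam := false) (s1 := true) (s2 := false) (a := 3) (b := 0) (c := 3) (cn := .npn) (n1 := ndN2q3) (n2 := ndN3q3) (pc := pcN0) (cut := Cut.none) (xt := Ext.none) (P1 := 1610612736) (W1 := 536870912) (P2 := 0) (W2 := 1230186008) (P3 := 134217728) (W3 := 67108864) (N0 := 3)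
    rfl k0_pm_303

noncomputable def f_pm_313 : ℕ → ℕ → ℕ → ℕ → Bool := onCell 1610612736 536870912 0 1230186008 134217728 67108864
    (rowN 3 0 false true false .dn 3 1 3 (qsf 1610612736 536870912 0 1230186008 1) ndN2q3 ndN3q3 pcN1 Cut.none Ext.none)

def k0_pm_313 : ∃ t, chk3 f_pm_313 t 1 1 1 = true :=
  ⟨(b (l 3) (l 1)), by decide +kernel⟩

theorem c_pm_313 : CertN 1610612736 536870912 0 1230186008 134217728 67108864 3 false true false .dn 3 1 3
    ndN2q3 ndN3q3 pcN1 Cut.none Ext.none :=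
  certN0 (fam := false) (s1 := true) (s2 := false) (a := 3) (b := 1) (c := 3) (cn := .dn) (n1 := ndN2q3) (n2 := ndN3q3) (pc := pcN1) (cut := Cut.none) (xt := Ext.none) (P1 := 1610612736) (W1 := 536870912) (P2 := 0) (W2 := 1230186008) (P3 := 134217728) (W3 := 67108864) (N0 := 3)
    rfl k0_pm_313

noncomputable def f_mm_001 : ℕ → ℕ → ℕ → ℕ → Bool := onCell 0 536870912 0 536870912 134217728 67108864
    (rowN 3 1 false false false .up 0 0 1 (qsf 0 536870912 536870912 536870912 0) ndN2q0 ndN3q1 pcN0 Cut.none Ext.none)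

def k0_mm_001 : ∃ t, chk3 f_mm_001 t 1 1 1 = true :=
  ⟨(l 3), by decide +kernel⟩

theorem c_mm_001 : CertN 0 536870912 536870912 536870912 134217728 67108864 3 false false false .up 0 0 1
    ndN2q0 ndN3q1 pcN0 Cut.none Ext.none :=
  certN1 (fam := false) (s1 := false) (s2 := false) (a := 0) (b := 0) (c := 1) (cn := .up) (n1 := ndN2q0) (n2 := ndN3q1) (pc := pcN0) (cut := Cut.none) (xt := Ext.none) (P1 := 0) (W1 := 536870912) (P2 := 536870912) (W2 := 536870912) (P3 := 134217728) (W3 := 67108864) (N0 := 3)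
    rfl (fun _ => rfl) k0_mm_001

noncomputable def f_mm_011 : ℕ → ℕ → ℕ → ℕ → Bool := onCell 0 536870912 536870912 536870912 134217728 67108864
    (rowN 3 1 false false false .pnn 0 1 1 (qsf 0 536870912 536870912 536870912 1) ndN2q0 ndN3q1 pcN1 Cut.none Ext.none)

def k0_mm_011 : ∃ t, chk3 f_mm_011 t 1 1 1 = true :=
  ⟨(l 5), by decide +kernel⟩

theorem c_mm_011 : CertN 0 536870912 536870912 536870912 134217728 67108864 3 false false false .pnn 0 1 1
    ndN2q0 ndN3q1 pcN1 Cut.none Ext.none :=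
  certN1 (fam := false) (s1 := false) (s2 := false) (a := 0) (b := 1) (c := 1) (cn := .pnn) (n1 := ndN2q0) (n2 := ndN3q1) (pc := pcN1) (cut := Cut.none) (xt := Ext.none) (P1 := 0) (W1 := 536870912) (P2 := 536870912) (W2 := 536870912) (P3 := 134217728) (W3 := 67108864) (N0 := 3)
    rfl (fun _ => rfl) k0_mm_011

noncomputable def f_mm_012 : ℕ → ℕ → ℕ → ℕ → Bool := onCell 0 536870912 1073741824 536870912 134217728 67108864
    (rowN 3 0 false false false .pnp 0 1 2 (qsf 0 536870912 1073741824 536870912 1) ndN2q0 ndN3q2 pcN1 Cut.none Ext.none)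

def k0_mm_012 : ∃ t, chk3 f_mm_012 t 1 1 1 = true :=
  ⟨(l 5), by decide +kernel⟩

theorem c_mm_012 : CertN 0 536870912 1073741824 536870912 134217728 67108864 3 false false false .pnp 0 1 2
    ndN2q0 ndN3q2 pcN1 Cut.none Ext.none :=
  certN0 (fam := false) (s1 := false) (s2 := false) (a := 0) (b := 1) (c := 2) (cn := .pnp) (n1 := ndN2q0) (n2 := ndN3q2) (pc := pcN1) (cut := Cut.none) (xt := Ext.none) (P1 := 0) (W1 := 536870912) (P2 := 1073741824) (W2 := 536870912) (P3 := 134217728) (W3 := 67108864) (N0 := 3)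
    rfl k0_mm_012

noncomputable def f_mm_022 : ℕ → ℕ → ℕ → ℕ → Bool := onCell 0 536870912 1073741824 536870912 134217728 67108864
    (rowN 3 0 false false false .pp 0 2 2 (qsf 0 536870912 1073741824 536870912 2) ndN2q0 ndN3q2 pcN2 Cut.none Ext.none)

def k0_mm_022 : ∃ t, chk3 f_mm_022 t 1 1 1 = true :=
  ⟨(l 5), by decide +kernel⟩

theorem c_mm_022 : CertN 0 536870912 1073741824 536870912 134217728 67108864 3 false false false .pp 0 2 2
    ndN2q0 ndN3q2 pcN2 Cut.none Ext.none :=
  certN0 (fam := false) (s1 := false) (s2 := false) (a := 0) (b := 2) (c := 2) (cn := .pp) (n1 := ndN2q0) (n2 := ndN3q2) (pc := pcN2) (cut := Cut.none) (xt := Ext.none) (P1 := 0) (W1 := 536870912) (P2 := 1073741824) (W2 := 536870912) (P3 := 134217728) (W3 := 67108864) (N0 := 3)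
    rfl k0_mm_022

noncomputable def f_mm_023 : ℕ → ℕ → ℕ → ℕ → Bool := onCell 0 536870912 0 1230186008 134217728 67108864
    (rowN 3 0 false false false .up 0 2 3 (qsf 0 536870912 0 1230186008 2) ndN2q0 ndN3q3 pcN2 Cut.none Ext.none)

def k0_mm_023 : ∃ t, chk3 f_mm_023 t 1 1 1 = true :=
  ⟨(l 5), by decide +kernel⟩

theorem c_mm_023 : CertN 0 536870912 0 1230186008 134217728 67108864 3 false false false .up 0 2 3
    ndN2q0 ndN3q3 pcN2 Cut.none Ext.none :=
  certN0 (fam := false) (s1 := false) (s2 := false) (a := 0) (b := 2) (c := 3) (cn := .up) (n1 := ndN2q0) (n2 := ndN3q3) (pc := pcN2) (cut := Cut.none) (xt := Ext.none) (P1 := 0) (W1 := 536870912) (P2 := 0) (W2 := 1230186008) (P3 := 134217728) (W3 := 67108864) (N0 := 3)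
    rfl k0_mm_023

noncomputable def f_mm_033 : ℕ → ℕ → ℕ → ℕ → Bool := onCell 0 536870912 0 1230186008 134217728 67108864
    (rowN 3 0 false false false .pnn 0 3 3 (qsf 0 536870912 0 1230186008 3) ndN2q0 ndN3q3 pcN3 Cut.none Ext.none)

def k0_mm_033 : ∃ t, chk3 f_mm_033 t 1 1 1 = true :=
  ⟨(l 5), by decide +kernel⟩

theorem c_mm_033 : CertN 0 536870912 0 1230186008 134217728 67108864 3 false false false .pnn 0 3 3
    ndN2q0 ndN3q3 pcN3 Cut.none Ext.none :=
  certN0 (fam := false) (s1 := false) (s2 := false) (a := 0) (b := 3) (c := 3) (cn := .pnn) (n1 := ndN2q0) (n2 := ndN3q3) (pc := pcN3) (cut := Cut.none) (xt := Ext.none) (P1 := 0) (W1 := 536870912) (P2 := 0) (W2 := 1230186008) (P3 := 134217728) (W3 := 67108864) (N0 := 3)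
    rfl k0_mm_033

noncomputable def f_mm_101 : ℕ → ℕ → ℕ → ℕ → Bool := onCell 536870912 536870912 536870912 536870912 134217728 67108864
    (rowN 3 0 false false false .npn 1 0 1 (qsf 536870912 536870912 536870912 536870912 0) ndN2q1 ndN3q1 pcN0 Cut.none Ext.none)

def k0_mm_101 : ∃ t, chk3 f_mm_101 t 1 1 1 = true :=
  ⟨(l 3), by decide +kernel⟩

theorem c_mm_101 : CertN 536870912 536870912 536870912 536870912 134217728 67108864 3 false false false .npn 1 0 1
    ndN2q1 ndN3q1 pcN0 Cut.none Ext.none :=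
  certN0 (fam := false) (s1 := false) (s2 := false) (a := 1) (b := 0) (c := 1) (cn := .npn) (n1 := ndN2q1) (n2 := ndN3q1) (pc := pcN0) (cut := Cut.none) (xt := Ext.none) (P1 := 536870912) (W1 := 536870912) (P2 := 536870912) (W2 := 536870912) (P3 := 134217728) (W3 := 67108864) (N0 := 3)
    rfl k0_mm_101

noncomputable def f_mm_102 : ℕ → ℕ → ℕ → ℕ → Bool := onCell 536870912 536870912 1073741824 536870912 134217728 67108864
    (rowN 3 0 false false false .npp 1 0 2 (qsf 536870912 536870912 1073741824 536870912 0) ndN2q1 ndN3q2 pcN0 Cut.none Ext.none)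

def k0_mm_102 : ∃ t, chk3 f_mm_102 t 1 1 1 = true :=
  ⟨(l 5), by decide +kernel⟩

theorem c_mm_102 : CertN 536870912 536870912 1073741824 536870912 134217728 67108864 3 false false false .npp 1 0 2
    ndN2q1 ndN3q2 pcN0 Cut.none Ext.none :=
  certN0 (fam := false) (s1 := false) (s2 := false) (a := 1) (b := 0) (c := 2) (cn := .npp) (n1 := ndN2q1) (n2 := ndN3q2) (pc := pcN0) (cut := Cut.none) (xt := Ext.none) (P1 := 536870912) (W1 := 536870912) (P2 := 1073741824) (W2 := 536870912) (P3 := 134217728) (W3 := 67108864) (N0 := 3)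
    rfl k0_mm_102

noncomputable def f_mm_112 : ℕ → ℕ → ℕ → ℕ → Bool := onCell 536870912 536870912 1073741824 536870912 134217728 67108864
    (rowN 3 0 false false false .dn 1 1 2 (qsf 536870912 536870912 1073741824 536870912 1) ndN2q1 ndN3q2 pcN1 Cut.none Ext.none)

def k0_mm_112 : ∃ t, chk3 f_mm_112 t 1 1 1 = true :=
  ⟨(l 5), by decide +kernel⟩

theorem c_mm_112 : CertN 536870912 536870912 1073741824 536870912 134217728 67108864 3 false false false .dn 1 1 2
    ndN2q1 ndN3q2 pcN1 Cut.none Ext.none :=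
  certN0 (fam := false) (s1 := false) (s2 := false) (a := 1) (b := 1) (c := 2) (cn := .dn) (n1 := ndN2q1) (n2 := ndN3q2) (pc := pcN1) (cut := Cut.none) (xt := Ext.none) (P1 := 536870912) (W1 := 536870912) (P2 := 1073741824) (W2 := 536870912) (P3 := 134217728) (W3 := 67108864) (N0 := 3)
    rfl k0_mm_112

noncomputable def f_mm_113 : ℕ → ℕ → ℕ → ℕ → Bool := onCell 536870912 536870912 0 1230186008 134217728 67108864
    (rowN 3 0 false false false .nn 1 1 3 (qsf 536870912 536870912 0 1230186008 1) ndN2q1 ndN3q3 pcN1 Cut.none Ext.none)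

def k0_mm_113 : ∃ t, chk3 f_mm_113 t 1 1 1 = true :=
  ⟨(l 5), by decide +kernel⟩

theorem c_mm_113 : CertN 536870912 536870912 0 1230186008 134217728 67108864 3 false false false .nn 1 1 3
    ndN2q1 ndN3q3 pcN1 Cut.none Ext.none :=
  certN0 (fam := false) (s1 := false) (s2 := false) (a := 1) (b := 1) (c := 3) (cn := .nn) (n1 := ndN2q1) (n2 := ndN3q3) (pc := pcN1) (cut := Cut.none) (xt := Ext.none) (P1 := 536870912) (W1 := 536870912) (P2 := 0) (W2 := 1230186008) (P3 := 134217728) (W3 := 67108864) (N0 := 3)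
    rfl k0_mm_113

noncomputable def f_mm_123 : ℕ → ℕ → ℕ → ℕ → Bool := onCell 536870912 536870912 0 1230186008 134217728 67108864
    (rowN 3 0 false false false .npn 1 2 3 (qsf 536870912 536870912 0 1230186008 2) ndN2q1 ndN3q3 pcN2 Cut.none Ext.none)

def k0_mm_123 : ∃ t, chk3 f_mm_123 t 1 1 1 = true :=
  ⟨(l 5), by decide +kernel⟩

theorem c_mm_123 : CertN 536870912 536870912 0 1230186008 134217728 67108864 3 false false false .npn 1 2 3
    ndN2q1 ndN3q3 pcN2 Cut.none Ext.none :=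
  certN0 (fam := false) (s1 := false) (s2 := false) (a := 1) (b := 2) (c := 3) (cn := .npn) (n1 := ndN2q1) (n2 := ndN3q3) (pc := pcN2) (cut := Cut.none) (xt := Ext.none) (P1 := 536870912) (W1 := 536870912) (P2 := 0) (W2 := 1230186008) (P3 := 134217728) (W3 := 67108864) (N0 := 3)
    rfl k0_mm_123

noncomputable def f_mm_133 : ℕ → ℕ → ℕ → ℕ → Bool := onCell 536870912 536870912 0 1230186008 134217728 67108864
    (rowN 3 0 false false false .dn 1 3 3 (qsf 536870912 536870912 0 1230186008 3) ndN2q1 ndN3q3 pcN3 Cut.none Ext.none)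

def k0_mm_133 : ∃ t, chk3 f_mm_133 t 1 1 1 = true :=
  ⟨(l 5), by decide +kernel⟩

theorem c_mm_133 : CertN 536870912 536870912 0 1230186008 134217728 67108864 3 false false false .dn 1 3 3
    ndN2q1 ndN3q3 pcN3 Cut.none Ext.none :=
  certN0 (fam := false) (s1 := false) (s2 := false) (a := 1) (b := 3) (c := 3) (cn := .dn) (n1 := ndN2q1) (n2 := ndN3q3) (pc := pcN3) (cut := Cut.none) (xt := Ext.none) (P1 := 536870912) (W1 := 536870912) (P2 := 0) (W2 := 1230186008) (P3 := 134217728) (W3 := 67108864) (N0 := 3)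
    rfl k0_mm_133

noncomputable def f_mm_202_a : ℕ → ℕ → ℕ → ℕ → Bool := onCell 0 536870912 1073741824 536870912 134217728 67108864
    (rowN 3 0 false false false .pp 2 0 2 (qsf 0 536870912 1073741824 536870912 0) ndN2q2a ndN3q2 pcN0 Cut.none Ext.none)

def k0_mm_202_a : ∃ t, chk3 f_mm_202_a t 1 1 1 = true :=
  ⟨(l 3), by decide +kernel⟩

theorem c_mm_202_a : CertN 0 536870912 1073741824 536870912 134217728 67108864 3 false false false .pp 2 0 2
    ndN2q2a ndN3q2 pcN0 Cut.none Ext.none :=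
  certN0 (fam := false) (s1 := false) (s2 := false) (a := 2) (b := 0) (c := 2) (cn := .pp) (n1 := ndN2q2a) (n2 := ndN3q2) (pc := pcN0) (cut := Cut.none) (xt := Ext.none) (P1 := 0) (W1 := 536870912) (P2 := 1073741824) (W2 := 536870912) (P3 := 134217728) (W3 := 67108864) (N0 := 3)
    rfl k0_mm_202_a

noncomputable def f_mm_202_b : ℕ → ℕ → ℕ → ℕ → Bool := onCell 1239849684 370763052 1073741824 536870912 134217728 67108864
    (rowN 3 0 false false false .pp 2 0 2 (qsf 1239849684 370763052 1073741824 536870912 0) ndN2q2b ndN3q2 pcN0 Cut.none Ext.none)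

def k0_mm_202_b : ∃ t, chk3 f_mm_202_b t 1 1 1 = true :=
  ⟨(l 3), by decide +kernel⟩

theorem c_mm_202_b : CertN 1239849684 370763052 1073741824 536870912 134217728 67108864 3 false false false .pp 2 0 2
    ndN2q2b ndN3q2 pcN0 Cut.none Ext.none :=
  certN0 (fam := false) (s1 := false) (s2 := false) (a := 2) (b := 0) (c := 2) (cn := .pp) (n1 := ndN2q2b) (n2 := ndN3q2) (pc := pcN0) (cut := Cut.none) (xt := Ext.none) (P1 := 1239849684) (W1 := 370763052) (P2 := 1073741824) (W2 := 536870912) (P3 := 134217728) (W3 := 67108864) (N0 := 3)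
    rfl k0_mm_202_b

noncomputable def f_mm_203_a : ℕ → ℕ → ℕ → ℕ → Bool := onCell 0 536870912 0 1230186008 134217728 67108864
    (rowN 3 0 false false false .up 2 0 3 (qsf 0 536870912 0 1230186008 0) ndN2q2a ndN3q3 pcN0 Cut.none Ext.none)

def k0_mm_203_a : ∃ t, chk3 f_mm_203_a t 1 1 1 = true :=
  ⟨(b (l 2) (l 3)), by decide +kernel⟩

theorem c_mm_203_a : CertN 0 536870912 0 1230186008 134217728 67108864 3 false false false .up 2 0 3
    ndN2q2a ndN3q3 pcN0 Cut.none Ext.none :=
  certN0 (fam := false) (s1 := false) (s2 := false) (a := 2) (b := 0) (c := 3) (cn := .up) (n1 := ndN2q2a) (n2 := ndN3q3) (pc := pcN0) (cut := Cut.none) (xt := Ext.none) (P1 := 0) (W1 := 536870912) (P2 := 0) (W2 := 1230186008) (P3 := 134217728) (W3 := 67108864) (N0 := 3)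
    rfl k0_mm_203_a

noncomputable def f_mm_203_b : ℕ → ℕ → ℕ → ℕ → Bool := onCell 1239849684 370763052 0 1230186008 134217728 67108864
    (rowN 3 0 false false false .up 2 0 3 (qsf 1239849684 370763052 0 1230186008 0) ndN2q2b ndN3q3 pcN0 Cut.none Ext.none)

def k0_mm_203_b : ∃ t, chk3 f_mm_203_b t 1 1 1 = true :=
  ⟨(b (l 3) (l 3)), by decide +kernel⟩

theorem c_mm_203_b : CertN 1239849684 370763052 0 1230186008 134217728 67108864 3 false false false .up 2 0 3
    ndN2q2b ndN3q3 pcN0 Cut.none Ext.none :=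
  certN0 (fam := false) (s1 := false) (s2 := false) (a := 2) (b := 0) (c := 3) (cn := .up) (n1 := ndN2q2b) (n2 := ndN3q3) (pc := pcN0) (cut := Cut.none) (xt := Ext.none) (P1 := 1239849684) (W1 := 370763052) (P2 := 0) (W2 := 1230186008) (P3 := 134217728) (W3 := 67108864) (N0 := 3)
    rfl k0_mm_203_b

noncomputable def f_mm_213_a : ℕ → ℕ → ℕ → ℕ → Bool := onCell 0 536870912 0 1230186008 134217728 67108864
    (rowN 3 0 false false false .pnn 2 1 3 (qsf 0 536870912 0 1230186008 1) ndN2q2a ndN3q3 pcN1 Cut.none Ext.none)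

def k0_mm_213_a : ∃ t, chk3 f_mm_213_a t 1 1 1 = true :=
  ⟨(b (l 5) (l 3)), by decide +kernel⟩

theorem c_mm_213_a : CertN 0 536870912 0 1230186008 134217728 67108864 3 false false false .pnn 2 1 3
    ndN2q2a ndN3q3 pcN1 Cut.none Ext.none :=
  certN0 (fam := false) (s1 := false) (s2 := false) (a := 2) (b := 1) (c := 3) (cn := .pnn) (n1 := ndN2q2a) (n2 := ndN3q3) (pc := pcN1) (cut := Cut.none) (xt := Ext.none) (P1 := 0) (W1 := 536870912) (P2 := 0) (W2 := 1230186008) (P3 := 134217728) (W3 := 67108864) (N0 := 3)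
    rfl k0_mm_213_a

noncomputable def f_mm_213_b : ℕ → ℕ → ℕ → ℕ → Bool := onCell 1239849684 370763052 0 1230186008 134217728 67108864
    (rowN 3 0 false false false .pnn 2 1 3 (qsf 1239849684 370763052 0 1230186008 1) ndN2q2b ndN3q3 pcN1 Cut.none Ext.none)

def k0_mm_213_b : ∃ t, chk3 f_mm_213_b t 1 1 1 = true :=
  ⟨(b (l 3) (l 3)), by decide +kernel⟩

theorem c_mm_213_b : CertN 1239849684 370763052 0 1230186008 134217728 67108864 3 false false false .pnn 2 1 3
    ndN2q2b ndN3q3 pcN1 Cut.none Ext.none :=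
  certN0 (fam := false) (s1 := false) (s2 := false) (a := 2) (b := 1) (c := 3) (cn := .pnn) (n1 := ndN2q2b) (n2 := ndN3q3) (pc := pcN1) (cut := Cut.none) (xt := Ext.none) (P1 := 1239849684) (W1 := 370763052) (P2 := 0) (W2 := 1230186008) (P3 := 134217728) (W3 := 67108864) (N0 := 3)
    rfl k0_mm_213_b

noncomputable def f_mm_303 : ℕ → ℕ → ℕ → ℕ → Bool := onCell 1610612736 536870912 0 1230186008 134217728 67108864
    (rowN 3 0 false false false .npn 3 0 3 (qsf 1610612736 536870912 0 1230186008 0) ndN2q3 ndN3q3 pcN0 Cut.none Ext.none)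

def k0_mm_303 : ∃ t, chk3 f_mm_303 t 1 1 1 = true :=
  ⟨(b (l 3) (l 3)), by decide +kernel⟩

theorem c_mm_303 : CertN 1610612736 536870912 0 1230186008 134217728 67108864 3 false false false .npn 3 0 3
    ndN2q3 ndN3q3 pcN0 Cut.none Ext.none :=
  certN0 (fam := false) (s1 := false) (s2 := false) (a := 3) (b := 0) (c := 3) (cn := .npn) (n1 := ndN2q3) (n2 := ndN3q3) (pc := pcN0) (cut := Cut.none) (xt := Ext.none) (P1 := 1610612736) (W1 := 536870912) (P2 := 0) (W2 := 1230186008) (P3 := 134217728) (W3 := 67108864) (N0 := 3)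
    rfl k0_mm_303

noncomputable def f_mm_313 : ℕ → ℕ → ℕ → ℕ → Bool := onCell 1610612736 536870912 0 1230186008 134217728 67108864
    (rowN 3 0 false false false .dn 3 1 3 (qsf 1610612736 536870912 0 1230186008 1) ndN2q3 ndN3q3 pcN1 Cut.none Ext.none)

def k0_mm_313 : ∃ t, chk3 f_mm_313 t 1 1 1 = true :=
  ⟨(b (l 3) (l 1)), by decide +kernel⟩

theorem c_mm_313 : CertN 1610612736 536870912 0 1230186008 134217728 67108864 3 false false false .dn 3 1 3
    ndN2q3 ndN3q3 pcN1 Cut.none Ext.none :=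
  certN0 (fam := false) (s1 := false) (s2 := false) (a := 3) (b := 1) (c := 3) (cn := .dn) (n1 := ndN2q3) (n2 := ndN3q3) (pc := pcN1) (cut := Cut.none) (xt := Ext.none) (P1 := 1610612736) (W1 := 536870912) (P2 := 0) (W2 := 1230186008) (P3 := 134217728) (W3 := 67108864) (N0 := 3)
    rfl k0_mm_313

end Pool.Agent.Strip051.G.I1_8_3_16.Tab.C.NB23

namespace Pool.Agent.Strip051.G.I1_8_3_16.Tab.C.NB24

open Pool.Agent.Strip051.PB Pool.Agent.Strip051.PB.T
open Pool.Agent.Strip051.G.I1_8_3_16.Tab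

noncomputable def f_pp_001 : ℕ → ℕ → ℕ → ℕ → Bool := onCell 0 536870912 0 536870912 134217728 67108864
    (rowN 3 1 false true true .up 0 0 1 (qsf 0 536870912 536870912 536870912 0) ndN2q0 ndN4q1 pcN0 Cut.none Ext.none)

def k0_pp_001 : ∃ t, chk3 f_pp_001 t 1 1 1 = true :=
  ⟨(l 3), by decide +kernel⟩

theorem c_pp_001 : CertN 0 536870912 536870912 536870912 134217728 67108864 3 false true true .up 0 0 1
    ndN2q0 ndN4q1 pcN0 Cut.none Ext.none :=
  certN1 (fam := false) (s1 := true) (s2 := true) (a := 0) (b := 0) (c := 1) (cn := .up) (n1 := ndN2q0) (n2 := ndN4q1) (pc := pcN0) (cut := Cut.none) (xt := Ext.none) (P1 := 0) (W1 := 536870912) (P2 := 536870912) (W2 := 536870912) (P3 := 134217728) (W3 := 67108864) (N0 := 3)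
    rfl (fun _ => rfl) k0_pp_001

noncomputable def cut_pp_011 : Cut := Cut.of [[⟨0, 0, 0, 67108864⟩, ⟨1, 1, 0, 67108864⟩, ⟨2, 1, 0, 67108864⟩]]

noncomputable def f_pp_011 : ℕ → ℕ → ℕ → ℕ → Bool := onCell 0 536870912 536870912 536870912 134217728 67108864
    (rowN 3 1 false true true .pnn 0 1 1 (qsf 0 536870912 536870912 536870912 1) ndN2q0 ndN4q1 pcN1 cut_pp_011 Ext.none)

def k0_pp_011 : ∃ t, chk3 f_pp_011 t 1 1 1 = true :=
  ⟨(b (l 3) (b (l 3) (a (b (l 3) (a (a (a (b (l 3) (l 6)) (l 3)) (l 3)) (l 2))) (l 2)))), by decide +kernel⟩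

theorem c_pp_011 : CertN 0 536870912 536870912 536870912 134217728 67108864 3 false true true .pnn 0 1 1
    ndN2q0 ndN4q1 pcN1 cut_pp_011 Ext.none :=
  certN1 (fam := false) (s1 := true) (s2 := true) (a := 0) (b := 1) (c := 1) (cn := .pnn) (n1 := ndN2q0) (n2 := ndN4q1) (pc := pcN1) (cut := cut_pp_011) (xt := Ext.none) (P1 := 0) (W1 := 536870912) (P2 := 536870912) (W2 := 536870912) (P3 := 134217728) (W3 := 67108864) (N0 := 3)
    rfl (fun _ => rfl) k0_pp_011

noncomputable def f_pp_012 : ℕ → ℕ → ℕ → ℕ → Bool := onCell 0 536870912 536870912 536870912 134217728 67108864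
    (rowN 3 1 false true true .pnp 0 1 2 (qsf 0 536870912 1073741824 536870912 1) ndN2q0 ndN4q2 pcN1 Cut.none Ext.none)

def k0_pp_012 : ∃ t, chk3 f_pp_012 t 1 1 1 = true :=
  ⟨(b (l 3) (b (l 3) (a (l 3) (b (l 3) (l 388326716119))))), by decide +kernel⟩

theorem c_pp_012 : CertN 0 536870912 1073741824 536870912 134217728 67108864 3 false true true .pnp 0 1 2
    ndN2q0 ndN4q2 pcN1 Cut.none Ext.none :=
  certN1 (fam := false) (s1 := true) (s2 := true) (a := 0) (b := 1) (c := 2) (cn := .pnp) (n1 := ndN2q0) (n2 := ndN4q2) (pc := pcN1) (cut := Cut.none) (xt := Ext.none) (P1 := 0) (W1 := 536870912) (P2 := 1073741824) (W2 := 536870912) (P3 := 134217728) (W3 := 67108864) (N0 := 3)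
    rfl (fun _ => rfl) k0_pp_012

noncomputable def f_pp_022 : ℕ → ℕ → ℕ → ℕ → Bool := onCell 0 536870912 1073741824 536870912 134217728 67108864
    (rowN 3 1 false true true .pp 0 2 2 (qsf 0 536870912 1073741824 536870912 2) ndN2q0 ndN4q2 pcN2 Cut.none Ext.none)

def k0_pp_022 : ∃ t, chk3 f_pp_022 t 1 1 1 = true :=
  ⟨(a (b (b (b (l 3) (a (l 3) (b (l 3) (l 17730088)))) (a (b (b (b (l 3) (a (b (l 3) (b (l 3) (a (b (a (c (l 16759984) (l 16506272)) (l 3)) (a (c (l 17049432) (l 16481040)) (l 16934472))) (b (l 17190960) (l 17214760))))) (b (l 17437872) (b (l 17485040) (b (l 17508360) (l 17523832)))))) (a (a (a (a (c (l 17097352) (l 16538568)) (l 16806304)) (l 17186704)) (l 17402552)) (l 17648432))) (a (a (a (b (c (l 17741752) (l 17129304)) (c (l 18031936) (l 17499032))) (l 17459576)) (l 17814720)) (l 17939992))) (b (b (b (l 17671280) (b (l 17724048) (b (l 17753304) (l 17772520)))) (l 17856280)) (l 18047400)))) (a (b (a (a (b (c (l 18335192) (l 17909440)) (l 18389944))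 (l 18300384)) (l 18312256)) (a (l 18578080) (l 18534184))) (b (l 18302048) (l 18456984)))) (b (b (b (a (l 17403360) (l 17619624)) (a (l 17699488) (b (b (l 17779056) (l 17831368)) (l 17944312)))) (b (b (b (l 17911152) (b (l 17943584) (l 17955080))) (l 18008800)) (a (l 18087448) (l 2)))) (b (a (l 18272352) (l 2)) (l 2)))), by decide +kernel⟩

theorem c_pp_022 : CertN 0 536870912 1073741824 536870912 134217728 67108864 3 false true true .pp 0 2 2
    ndN2q0 ndN4q2 pcN2 Cut.none Ext.none :=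
  certN1 (fam := false) (s1 := true) (s2 := true) (a := 0) (b := 2) (c := 2) (cn := .pp) (n1 := ndN2q0) (n2 := ndN4q2) (pc := pcN2) (cut := Cut.none) (xt := Ext.none) (P1 := 0) (W1 := 536870912) (P2 := 1073741824) (W2 := 536870912) (P3 := 134217728) (W3 := 67108864) (N0 := 3)
    rfl (fun _ => rfl) k0_pp_022

noncomputable def f_pp_023 : ℕ → ℕ → ℕ → ℕ → Bool := onCell 1073741824 536870912 0 1230186008 134217728 67108864
    (rowN 3 2 false true true .up 0 2 3 (qsf 0 536870912 0 1230186008 2) ndN2q0 ndN4q3 pcN2 Cut.none Ext.none)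

def k0_pp_023 : ∃ t, chk3 f_pp_023 t 1 1 1 = true :=
  ⟨(b (a (l 2) (a (l 2) (l 18296840))) (b (a (a (l 2) (a (l 2) (l 18401904))) (b (l 18388960) (l 18336656))) (a (a (a (l 18273104) (a (a (l 18282904) (l 18283088)) (a (l 18285528) (l 18291016)))) (a (a (a (l 18294160) (l 18297720)) (l 18291408)) (b (l 18297032) (l 18263032)))) (b (l 18293008) (a (l 18284352) (l 18279464)))))), by decide +kernel⟩

theorem c_pp_023 : CertN 0 536870912 0 1230186008 134217728 67108864 3 false true true .up 0 2 3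
    ndN2q0 ndN4q3 pcN2 Cut.none Ext.none :=
  certN2 (fam := false) (s1 := true) (s2 := true) (a := 0) (b := 2) (c := 3) (cn := .up) (n1 := ndN2q0) (n2 := ndN4q3) (pc := pcN2) (cut := Cut.none) (xt := Ext.none) (P1 := 0) (W1 := 536870912) (P2 := 0) (W2 := 1230186008) (P3 := 134217728) (W3 := 67108864) (N0 := 3)
    rfl (fun _ => rfl) k0_pp_023

noncomputable def f_pp_033 : ℕ → ℕ → ℕ → ℕ → Bool := onCell 0 536870912 0 1230186008 134217728 67108864
    (rowN 3 0 false true true .pnn 0 3 3 (qsf 0 536870912 0 1230186008 3) ndN2q0 ndN4q3 pcN3 Cut.none Ext.none)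

def k0_pp_033 : ∃ t, chk3 f_pp_033 t 1 1 1 = true :=
  ⟨(b (b (a (l 4) (a (l 4) (l 17785088))) (a (a (a (b (l 4) (l 17842344)) (l 17848344)) (a (l 17845496) (l 17844368))) (a (a (l 17847208) (l 17857624)) (b (l 18088080) (l 17835616))))) (b (a (a (b (a (l 17802368) (l 17811480)) (l 17816568)) (b (b (l 17835712) (l 17765392)) (l 17802968))) (b (a (l 17715032) (l 17612192)) (l 17688544))) (a (b (l 17917128) (a (l 18111008) (l 18032168))) (l 1)))), by decide +kernel⟩

theorem c_pp_033 : CertN 0 536870912 0 1230186008 134217728 67108864 3 false true true .pnn 0 3 3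
    ndN2q0 ndN4q3 pcN3 Cut.none Ext.none :=
  certN0 (fam := false) (s1 := true) (s2 := true) (a := 0) (b := 3) (c := 3) (cn := .pnn) (n1 := ndN2q0) (n2 := ndN4q3) (pc := pcN3) (cut := Cut.none) (xt := Ext.none) (P1 := 0) (W1 := 536870912) (P2 := 0) (W2 := 1230186008) (P3 := 134217728) (W3 := 67108864) (N0 := 3)
    rfl k0_pp_033

noncomputable def f_pp_101 : ℕ → ℕ → ℕ → ℕ → Bool := onCell 536870912 536870912 536870912 536870912 134217728 67108864
    (rowN 3 0 false true true .npn 1 0 1 (qsf 536870912 536870912 536870912 536870912 0) ndN2q1 ndN4q1 pcN0 Cut.none Ext.none)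

def k0_pp_101 : ∃ t, chk3 f_pp_101 t 1 1 1 = true :=
  ⟨(l 3), by decide +kernel⟩

theorem c_pp_101 : CertN 536870912 536870912 536870912 536870912 134217728 67108864 3 false true true .npn 1 0 1
    ndN2q1 ndN4q1 pcN0 Cut.none Ext.none :=
  certN0 (fam := false) (s1 := true) (s2 := true) (a := 1) (b := 0) (c := 1) (cn := .npn) (n1 := ndN2q1) (n2 := ndN4q1) (pc := pcN0) (cut := Cut.none) (xt := Ext.none) (P1 := 536870912) (W1 := 536870912) (P2 := 536870912) (W2 := 536870912) (P3 := 134217728) (W3 := 67108864) (N0 := 3)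
    rfl k0_pp_101

noncomputable def f_pp_102 : ℕ → ℕ → ℕ → ℕ → Bool := onCell 536870912 536870912 0 536870912 134217728 67108864
    (rowN 3 1 false true true .npp 1 0 2 (qsf 536870912 536870912 1073741824 536870912 0) ndN2q1 ndN4q2 pcN0 Cut.none Ext.none)

def k0_pp_102 : ∃ t, chk3 f_pp_102 t 1 1 1 = true :=
  ⟨(l 3), by decide +kernel⟩

theorem c_pp_102 : CertN 536870912 536870912 1073741824 536870912 134217728 67108864 3 false true true .npp 1 0 2
    ndN2q1 ndN4q2 pcN0 Cut.none Ext.none :=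
  certN1 (fam := false) (s1 := true) (s2 := true) (a := 1) (b := 0) (c := 2) (cn := .npp) (n1 := ndN2q1) (n2 := ndN4q2) (pc := pcN0) (cut := Cut.none) (xt := Ext.none) (P1 := 536870912) (W1 := 536870912) (P2 := 1073741824) (W2 := 536870912) (P3 := 134217728) (W3 := 67108864) (N0 := 3)
    rfl (fun _ => rfl) k0_pp_102

noncomputable def f_pp_112 : ℕ → ℕ → ℕ → ℕ → Bool := onCell 536870912 536870912 1073741824 536870912 134217728 67108864
    (rowN 3 0 false true true .dn 1 1 2 (qsf 536870912 536870912 1073741824 536870912 1) ndN2q1 ndN4q2 pcN1 Cut.none Ext.none)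

def k0_pp_112 : ∃ t, chk3 f_pp_112 t 1 1 1 = true :=
  ⟨(a (b (l 3) (b (l 3) (a (l 286860009639) (l 3)))) (l 3)), by decide +kernel⟩

theorem c_pp_112 : CertN 536870912 536870912 1073741824 536870912 134217728 67108864 3 false true true .dn 1 1 2
    ndN2q1 ndN4q2 pcN1 Cut.none Ext.none :=
  certN0 (fam := false) (s1 := true) (s2 := true) (a := 1) (b := 1) (c := 2) (cn := .dn) (n1 := ndN2q1) (n2 := ndN4q2) (pc := pcN1) (cut := Cut.none) (xt := Ext.none) (P1 := 536870912) (W1 := 536870912) (P2 := 1073741824) (W2 := 536870912) (P3 := 134217728) (W3 := 67108864) (N0 := 3)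
    rfl k0_pp_112

noncomputable def f_pp_113 : ℕ → ℕ → ℕ → ℕ → Bool := onCell 536870912 536870912 0 1230186008 134217728 67108864
    (rowN 3 2 false true true .nn 1 1 3 (qsf 536870912 536870912 0 1230186008 1) ndN2q1 ndN4q3 pcN1 Cut.none Ext.none)

def k0_pp_113 : ∃ t, chk3 f_pp_113 t 1 1 1 = true :=
  ⟨(a (b (l 2) (b (a (l 2) (a (l 2) (l 18590600))) (a (l 3) (b (l 273975774631) (l 3))))) (a (b (l 2) (b (l 18056208) (b (l 17809344) (l 17626656)))) (b (b (a (l 2) (l 17117280)) (l 17621296)) (b (l 17666208) (b (l 17390080) (l 17325552)))))), by decide +kernel⟩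

theorem c_pp_113 : CertN 536870912 536870912 0 1230186008 134217728 67108864 3 false true true .nn 1 1 3
    ndN2q1 ndN4q3 pcN1 Cut.none Ext.none :=
  certN2 (fam := false) (s1 := true) (s2 := true) (a := 1) (b := 1) (c := 3) (cn := .nn) (n1 := ndN2q1) (n2 := ndN4q3) (pc := pcN1) (cut := Cut.none) (xt := Ext.none) (P1 := 536870912) (W1 := 536870912) (P2 := 0) (W2 := 1230186008) (P3 := 134217728) (W3 := 67108864) (N0 := 3)
    rfl (fun _ => rfl) k0_pp_113

noncomputable def f_pp_123 : ℕ → ℕ → ℕ → ℕ → Bool := onCell 1073741824 536870912 0 1230186008 134217728 67108864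
    (rowN 3 2 false true true .npn 1 2 3 (qsf 536870912 536870912 0 1230186008 2) ndN2q1 ndN4q3 pcN2 Cut.none Ext.none)

def k0_pp_123 : ∃ t, chk3 f_pp_123 t 1 1 1 = true :=
  ⟨(b (a (b (a (l 16872352) (l 17044024)) (b (l 16986304) (a (a (l 16998488) (a (l 16985064) (l 17026288))) (a (l 17072992) (l 17121960))))) (a (l 17232008) (l 17067224))) (b (a (a (a (l 17111032) (a (a (l 17135632) (l 17148240)) (l 17147792))) (a (a (l 17182840) (l 17185336)) (l 17181056))) (b (l 17181896) (l 17138344))) (a (a (a (l 17430208) (a (a (l 17316344) (l 17516648)) (b (l 17227312) (l 17278152)))) (a (a (a (l 17283216) (l 17357304)) (l 17244792)) (l 471944431447))) (l 1)))), by decide +kernel⟩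

theorem c_pp_123 : CertN 536870912 536870912 0 1230186008 134217728 67108864 3 false true true .npn 1 2 3
    ndN2q1 ndN4q3 pcN2 Cut.none Ext.none :=
  certN2 (fam := false) (s1 := true) (s2 := true) (a := 1) (b := 2) (c := 3) (cn := .npn) (n1 := ndN2q1) (n2 := ndN4q3) (pc := pcN2) (cut := Cut.none) (xt := Ext.none) (P1 := 536870912) (W1 := 536870912) (P2 := 0) (W2 := 1230186008) (P3 := 134217728) (W3 := 67108864) (N0 := 3)
    rfl (fun _ => rfl) k0_pp_123

noncomputable def f_pp_133 : ℕ → ℕ → ℕ → ℕ → Bool := onCell 1610612736 536870912 0 1230186008 134217728 67108864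
    (rowN 3 2 false true true .dn 1 3 3 (qsf 536870912 536870912 0 1230186008 3) ndN2q1 ndN4q3 pcN3 Cut.none Ext.none)

def k0_pp_133 : ∃ t, chk3 f_pp_133 t 1 1 1 = true :=
  ⟨(b (a (a (l 930968623367) (l 1)) (l 1)) (l 1)), by decide +kernel⟩

theorem c_pp_133 : CertN 536870912 536870912 0 1230186008 134217728 67108864 3 false true true .dn 1 3 3
    ndN2q1 ndN4q3 pcN3 Cut.none Ext.none :=
  certN2 (fam := false) (s1 := true) (s2 := true) (a := 1) (b := 3) (c := 3) (cn := .dn) (n1 := ndN2q1) (n2 := ndN4q3) (pc := pcN3) (cut := Cut.none) (xt := Ext.none) (P1 := 536870912) (W1 := 536870912) (P2 := 0) (W2 := 1230186008) (P3 := 134217728) (W3 := 67108864) (N0 := 3)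
    rfl (fun _ => rfl) k0_pp_133

noncomputable def f_pp_202_a : ℕ → ℕ → ℕ → ℕ → Bool := onCell 0 536870912 1073741824 536870912 134217728 67108864
    (rowN 3 0 false true true .pp 2 0 2 (qsf 0 536870912 1073741824 536870912 0) ndN2q2a ndN4q2 pcN0 Cut.none Ext.none)

def k0_pp_202_a : ∃ t, chk3 f_pp_202_a t 1 1 1 = true :=
  ⟨(l 3), by decide +kernel⟩

theorem c_pp_202_a : CertN 0 536870912 1073741824 536870912 134217728 67108864 3 false true true .pp 2 0 2
    ndN2q2a ndN4q2 pcN0 Cut.none Ext.none :=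
  certN0 (fam := false) (s1 := true) (s2 := true) (a := 2) (b := 0) (c := 2) (cn := .pp) (n1 := ndN2q2a) (n2 := ndN4q2) (pc := pcN0) (cut := Cut.none) (xt := Ext.none) (P1 := 0) (W1 := 536870912) (P2 := 1073741824) (W2 := 536870912) (P3 := 134217728) (W3 := 67108864) (N0 := 3)
    rfl k0_pp_202_a

noncomputable def f_pp_202_b : ℕ → ℕ → ℕ → ℕ → Bool := onCell 1239849684 370763052 1073741824 536870912 134217728 67108864
    (rowN 3 0 false true true .pp 2 0 2 (qsf 1239849684 370763052 1073741824 536870912 0) ndN2q2b ndN4q2 pcN0 Cut.none Ext.none)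

def k0_pp_202_b : ∃ t, chk3 f_pp_202_b t 1 1 1 = true :=
  ⟨(l 3), by decide +kernel⟩

theorem c_pp_202_b : CertN 1239849684 370763052 1073741824 536870912 134217728 67108864 3 false true true .pp 2 0 2
    ndN2q2b ndN4q2 pcN0 Cut.none Ext.none :=
  certN0 (fam := false) (s1 := true) (s2 := true) (a := 2) (b := 0) (c := 2) (cn := .pp) (n1 := ndN2q2b) (n2 := ndN4q2) (pc := pcN0) (cut := Cut.none) (xt := Ext.none) (P1 := 1239849684) (W1 := 370763052) (P2 := 1073741824) (W2 := 536870912) (P3 := 134217728) (W3 := 67108864) (N0 := 3)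
    rfl k0_pp_202_b

noncomputable def f_pp_203_a : ℕ → ℕ → ℕ → ℕ → Bool := onCell 0 536870912 0 1230186008 134217728 67108864
    (rowN 3 0 false true true .up 2 0 3 (qsf 0 536870912 0 1230186008 0) ndN2q2a ndN4q3 pcN0 Cut.none Ext.none)

def k0_pp_203_a : ∃ t, chk3 f_pp_203_a t 1 1 1 = true :=
  ⟨(b (l 2) (l 3)), by decide +kernel⟩

theorem c_pp_203_a : CertN 0 536870912 0 1230186008 134217728 67108864 3 false true true .up 2 0 3
    ndN2q2a ndN4q3 pcN0 Cut.none Ext.none :=
  certN0 (fam := false) (s1 := true) (s2 := true) (a := 2) (b := 0) (c := 3) (cn := .up) (n1 := ndN2q2a) (n2 := ndN4q3) (pc := pcN0) (cut := Cut.none) (xt := Ext.none) (P1 := 0) (W1 := 536870912) (P2 := 0) (W2 := 1230186008) (P3 := 134217728) (W3 := 67108864) (N0 := 3)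
    rfl k0_pp_203_a

noncomputable def f_pp_203_b : ℕ → ℕ → ℕ → ℕ → Bool := onCell 1239849684 370763052 0 1230186008 134217728 67108864
    (rowN 3 0 false true true .up 2 0 3 (qsf 1239849684 370763052 0 1230186008 0) ndN2q2b ndN4q3 pcN0 Cut.none Ext.none)

def k0_pp_203_b : ∃ t, chk3 f_pp_203_b t 1 1 1 = true :=
  ⟨(b (l 3) (l 3)), by decide +kernel⟩

theorem c_pp_203_b : CertN 1239849684 370763052 0 1230186008 134217728 67108864 3 false true true .up 2 0 3
    ndN2q2b ndN4q3 pcN0 Cut.none Ext.none :=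
  certN0 (fam := false) (s1 := true) (s2 := true) (a := 2) (b := 0) (c := 3) (cn := .up) (n1 := ndN2q2b) (n2 := ndN4q3) (pc := pcN0) (cut := Cut.none) (xt := Ext.none) (P1 := 1239849684) (W1 := 370763052) (P2 := 0) (W2 := 1230186008) (P3 := 134217728) (W3 := 67108864) (N0 := 3)
    rfl k0_pp_203_b

noncomputable def cut_pp_213_a : Cut := Cut.of [[⟨0, 1, 0, 39843005⟩, ⟨1, 1, 0, 39843005⟩, ⟨2, 2, 0, 5814905⟩]]

noncomputable def f_pp_213_a : ℕ → ℕ → ℕ → ℕ → Bool := onCell 0 536870912 0 1230186008 134217728 67108864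
    (rowN 3 0 false true true .pnn 2 1 3 (qsf 0 536870912 0 1230186008 1) ndN2q2a ndN4q3 pcN1 cut_pp_213_a Ext.none)

def k0_pp_213_a : ∃ t, chk3 f_pp_213_a t 1 1 1 = true :=
  ⟨(b (a (l 3) (b (a (l 3) (a (l 3) (a (l 3) (b (b (l 6) (l 3)) (l 3))))) (l 3))) (l 3)), by decide +kernel⟩

theorem c_pp_213_a : CertN 0 536870912 0 1230186008 134217728 67108864 3 false true true .pnn 2 1 3
    ndN2q2a ndN4q3 pcN1 cut_pp_213_a Ext.none :=
  certN0 (fam := false) (s1 := true) (s2 := true) (a := 2) (b := 1) (c := 3) (cn := .pnn) (n1 := ndN2q2a) (n2 := ndN4q3) (pc := pcN1) (cut := cut_pp_213_a) (xt := Ext.none) (P1 := 0) (W1 := 536870912) (P2 := 0) (W2 := 1230186008) (P3 := 134217728) (W3 := 67108864) (N0 := 3)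
    rfl k0_pp_213_a

noncomputable def cut_pp_213_b : Cut := Cut.of [[⟨0, 1, 0, 39843005⟩, ⟨1, 1, 0, 39843005⟩, ⟨2, 2, 0, 5814905⟩]]

noncomputable def f_pp_213_b : ℕ → ℕ → ℕ → ℕ → Bool := onCell 1239849684 370763052 0 1230186008 134217728 67108864
    (rowN 3 0 false true true .pnn 2 1 3 (qsf 1239849684 370763052 0 1230186008 1) ndN2q2b ndN4q3 pcN1 cut_pp_213_b Ext.none)

def k0_pp_213_b : ∃ t, chk3 f_pp_213_b t 1 1 1 = true :=
  ⟨(b (l 3) (l 3)), by decide +kernel⟩

theorem c_pp_213_b : CertN 1239849684 370763052 0 1230186008 134217728 67108864 3 false true true .pnn 2 1 3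
    ndN2q2b ndN4q3 pcN1 cut_pp_213_b Ext.none :=
  certN0 (fam := false) (s1 := true) (s2 := true) (a := 2) (b := 1) (c := 3) (cn := .pnn) (n1 := ndN2q2b) (n2 := ndN4q3) (pc := pcN1) (cut := cut_pp_213_b) (xt := Ext.none) (P1 := 1239849684) (W1 := 370763052) (P2 := 0) (W2 := 1230186008) (P3 := 134217728) (W3 := 67108864) (N0 := 3)
    rfl k0_pp_213_b

noncomputable def f_pp_303 : ℕ → ℕ → ℕ → ℕ → Bool := onCell 0 536870912 0 1230186008 134217728 67108864
    (rowN 3 2 false true true .npn 3 0 3 (qsf 1610612736 536870912 0 1230186008 0) ndN2q3 ndN4q3 pcN0 Cut.none Ext.none)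

def k0_pp_303 : ∃ t, chk3 f_pp_303 t 1 1 1 = true :=
  ⟨(b (l 3) (l 3)), by decide +kernel⟩

theorem c_pp_303 : CertN 1610612736 536870912 0 1230186008 134217728 67108864 3 false true true .npn 3 0 3
    ndN2q3 ndN4q3 pcN0 Cut.none Ext.none :=
  certN2 (fam := false) (s1 := true) (s2 := true) (a := 3) (b := 0) (c := 3) (cn := .npn) (n1 := ndN2q3) (n2 := ndN4q3) (pc := pcN0) (cut := Cut.none) (xt := Ext.none) (P1 := 1610612736) (W1 := 536870912) (P2 := 0) (W2 := 1230186008) (P3 := 134217728) (W3 := 67108864) (N0 := 3)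
    rfl (fun _ => rfl) k0_pp_303

noncomputable def f_pp_313 : ℕ → ℕ → ℕ → ℕ → Bool := onCell 1610612736 536870912 0 1230186008 134217728 67108864
    (rowN 3 0 false true true .dn 3 1 3 (qsf 1610612736 536870912 0 1230186008 1) ndN2q3 ndN4q3 pcN1 Cut.none Ext.none)

def k0_pp_313 : ∃ t, chk3 f_pp_313 t 1 1 1 = true :=
  ⟨(b (l 3) (l 1)), by decide +kernel⟩

theorem c_pp_313 : CertN 1610612736 536870912 0 1230186008 134217728 67108864 3 false true true .dn 3 1 3
    ndN2q3 ndN4q3 pcN1 Cut.none Ext.none :=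
  certN0 (fam := false) (s1 := true) (s2 := true) (a := 3) (b := 1) (c := 3) (cn := .dn) (n1 := ndN2q3) (n2 := ndN4q3) (pc := pcN1) (cut := Cut.none) (xt := Ext.none) (P1 := 1610612736) (W1 := 536870912) (P2 := 0) (W2 := 1230186008) (P3 := 134217728) (W3 := 67108864) (N0 := 3)
    rfl k0_pp_313

noncomputable def f_pm_001 : ℕ → ℕ → ℕ → ℕ → Bool := onCell 0 536870912 536870912 536870912 134217728 67108864
    (rowN 3 0 false true false .up 0 0 1 (qsf 0 536870912 536870912 536870912 0) ndN2q0 ndN4q1 pcN0 Cut.none Ext.none)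

def k0_pm_001 : ∃ t, chk3 f_pm_001 t 1 1 1 = true :=
  ⟨(l 4), by decide +kernel⟩

theorem c_pm_001 : CertN 0 536870912 536870912 536870912 134217728 67108864 3 false true false .up 0 0 1
    ndN2q0 ndN4q1 pcN0 Cut.none Ext.none :=
  certN0 (fam := false) (s1 := true) (s2 := false) (a := 0) (b := 0) (c := 1) (cn := .up) (n1 := ndN2q0) (n2 := ndN4q1) (pc := pcN0) (cut := Cut.none) (xt := Ext.none) (P1 := 0) (W1 := 536870912) (P2 := 536870912) (W2 := 536870912) (P3 := 134217728) (W3 := 67108864) (N0 := 3)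
    rfl k0_pm_001

noncomputable def f_pm_011 : ℕ → ℕ → ℕ → ℕ → Bool := onCell 0 536870912 536870912 536870912 134217728 67108864
    (rowN 3 0 false true false .pnn 0 1 1 (qsf 0 536870912 536870912 536870912 1) ndN2q0 ndN4q1 pcN1 Cut.none Ext.none)

def k0_pm_011 : ∃ t, chk3 f_pm_011 t 1 1 1 = true :=
  ⟨(l 4), by decide +kernel⟩

theorem c_pm_011 : CertN 0 536870912 536870912 536870912 134217728 67108864 3 false true false .pnn 0 1 1
    ndN2q0 ndN4q1 pcN1 Cut.none Ext.none :=
  certN0 (fam := false) (s1 := true) (s2 := false) (a := 0) (b := 1) (c := 1) (cn := .pnn) (n1 := ndN2q0) (n2 := ndN4q1) (pc := pcN1) (cut := Cut.none) (xt := Ext.none) (P1 := 0) (W1 := 536870912) (P2 := 536870912) (W2 := 536870912) (P3 := 134217728) (W3 := 67108864) (N0 := 3)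
    rfl k0_pm_011

noncomputable def f_pm_012 : ℕ → ℕ → ℕ → ℕ → Bool := onCell 0 536870912 1073741824 536870912 134217728 67108864
    (rowN 3 0 false true false .pnp 0 1 2 (qsf 0 536870912 1073741824 536870912 1) ndN2q0 ndN4q2 pcN1 Cut.none Ext.none)

def k0_pm_012 : ∃ t, chk3 f_pm_012 t 1 1 1 = true :=
  ⟨(l 4), by decide +kernel⟩

theorem c_pm_012 : CertN 0 536870912 1073741824 536870912 134217728 67108864 3 false true false .pnp 0 1 2
    ndN2q0 ndN4q2 pcN1 Cut.none Ext.none :=
  certN0 (fam := false) (s1 := true) (s2 := false) (a := 0) (b := 1) (c := 2) (cn := .pnp) (n1 := ndN2q0) (n2 := ndN4q2) (pc := pcN1) (cut := Cut.none) (xt := Ext.none) (P1 := 0) (W1 := 536870912) (P2 := 1073741824) (W2 := 536870912) (P3 := 134217728) (W3 := 67108864) (N0 := 3)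
    rfl k0_pm_012

noncomputable def f_pm_022 : ℕ → ℕ → ℕ → ℕ → Bool := onCell 0 536870912 1073741824 536870912 134217728 67108864
    (rowN 3 0 false true false .pp 0 2 2 (qsf 0 536870912 1073741824 536870912 2) ndN2q0 ndN4q2 pcN2 Cut.none Ext.none)

def k0_pm_022 : ∃ t, chk3 f_pm_022 t 1 1 1 = true :=
  ⟨(l 4), by decide +kernel⟩

theorem c_pm_022 : CertN 0 536870912 1073741824 536870912 134217728 67108864 3 false true false .pp 0 2 2
    ndN2q0 ndN4q2 pcN2 Cut.none Ext.none :=
  certN0 (fam := false) (s1 := true) (s2 := false) (a := 0) (b := 2) (c := 2) (cn := .pp) (n1 := ndN2q0) (n2 := ndN4q2) (pc := pcN2) (cut := Cut.none) (xt := Ext.none) (P1 := 0) (W1 := 536870912) (P2 := 1073741824) (W2 := 536870912) (P3 := 134217728) (W3 := 67108864) (N0 := 3)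
    rfl k0_pm_022

noncomputable def f_pm_023 : ℕ → ℕ → ℕ → ℕ → Bool := onCell 0 536870912 0 1230186008 134217728 67108864
    (rowN 3 0 false true false .up 0 2 3 (qsf 0 536870912 0 1230186008 2) ndN2q0 ndN4q3 pcN2 Cut.none Ext.none)

def k0_pm_023 : ∃ t, chk3 f_pm_023 t 1 1 1 = true :=
  ⟨(b (l 4) (l 4)), by decide +kernel⟩

theorem c_pm_023 : CertN 0 536870912 0 1230186008 134217728 67108864 3 false true false .up 0 2 3
    ndN2q0 ndN4q3 pcN2 Cut.none Ext.none :=
  certN0 (fam := false) (s1 := true) (s2 := false) (a := 0) (b := 2) (c := 3) (cn := .up) (n1 := ndN2q0) (n2 := ndN4q3) (pc := pcN2) (cut := Cut.none) (xt := Ext.none) (P1 := 0) (W1 := 536870912) (P2 := 0) (W2 := 1230186008) (P3 := 134217728) (W3 := 67108864) (N0 := 3)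
    rfl k0_pm_023

noncomputable def f_pm_033 : ℕ → ℕ → ℕ → ℕ → Bool := onCell 0 536870912 0 1230186008 134217728 67108864
    (rowN 3 0 false true false .pnn 0 3 3 (qsf 0 536870912 0 1230186008 3) ndN2q0 ndN4q3 pcN3 Cut.none Ext.none)

def k0_pm_033 : ∃ t, chk3 f_pm_033 t 1 1 1 = true :=
  ⟨(b (l 4) (l 4)), by decide +kernel⟩

theorem c_pm_033 : CertN 0 536870912 0 1230186008 134217728 67108864 3 false true false .pnn 0 3 3
    ndN2q0 ndN4q3 pcN3 Cut.none Ext.none :=
  certN0 (fam := false) (s1 := true) (s2 := false) (a := 0) (b := 3) (c := 3) (cn := .pnn) (n1 := ndN2q0) (n2 := ndN4q3) (pc := pcN3) (cut := Cut.none) (xt := Ext.none) (P1 := 0) (W1 := 536870912) (P2 := 0) (W2 := 1230186008) (P3 := 134217728) (W3 := 67108864) (N0 := 3)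
    rfl k0_pm_033

noncomputable def f_pm_101 : ℕ → ℕ → ℕ → ℕ → Bool := onCell 536870912 536870912 536870912 536870912 134217728 67108864
    (rowN 3 0 false true false .npn 1 0 1 (qsf 536870912 536870912 536870912 536870912 0) ndN2q1 ndN4q1 pcN0 Cut.none Ext.none)

def k0_pm_101 : ∃ t, chk3 f_pm_101 t 1 1 1 = true :=
  ⟨(l 4), by decide +kernel⟩

theorem c_pm_101 : CertN 536870912 536870912 536870912 536870912 134217728 67108864 3 false true false .npn 1 0 1
    ndN2q1 ndN4q1 pcN0 Cut.none Ext.none :=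
  certN0 (fam := false) (s1 := true) (s2 := false) (a := 1) (b := 0) (c := 1) (cn := .npn) (n1 := ndN2q1) (n2 := ndN4q1) (pc := pcN0) (cut := Cut.none) (xt := Ext.none) (P1 := 536870912) (W1 := 536870912) (P2 := 536870912) (W2 := 536870912) (P3 := 134217728) (W3 := 67108864) (N0 := 3)
    rfl k0_pm_101

noncomputable def f_pm_102 : ℕ → ℕ → ℕ → ℕ → Bool := onCell 536870912 536870912 1073741824 536870912 134217728 67108864
    (rowN 3 0 false true false .npp 1 0 2 (qsf 536870912 536870912 1073741824 536870912 0) ndN2q1 ndN4q2 pcN0 Cut.none Ext.none)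

def k0_pm_102 : ∃ t, chk3 f_pm_102 t 1 1 1 = true :=
  ⟨(l 4), by decide +kernel⟩

theorem c_pm_102 : CertN 536870912 536870912 1073741824 536870912 134217728 67108864 3 false true false .npp 1 0 2
    ndN2q1 ndN4q2 pcN0 Cut.none Ext.none :=
  certN0 (fam := false) (s1 := true) (s2 := false) (a := 1) (b := 0) (c := 2) (cn := .npp) (n1 := ndN2q1) (n2 := ndN4q2) (pc := pcN0) (cut := Cut.none) (xt := Ext.none) (P1 := 536870912) (W1 := 536870912) (P2 := 1073741824) (W2 := 536870912) (P3 := 134217728) (W3 := 67108864) (N0 := 3)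
    rfl k0_pm_102

noncomputable def f_pm_112 : ℕ → ℕ → ℕ → ℕ → Bool := onCell 536870912 536870912 1073741824 536870912 134217728 67108864
    (rowN 3 0 false true false .dn 1 1 2 (qsf 536870912 536870912 1073741824 536870912 1) ndN2q1 ndN4q2 pcN1 Cut.none Ext.none)

def k0_pm_112 : ∃ t, chk3 f_pm_112 t 1 1 1 = true :=
  ⟨(l 4), by decide +kernel⟩

theorem c_pm_112 : CertN 536870912 536870912 1073741824 536870912 134217728 67108864 3 false true false .dn 1 1 2
    ndN2q1 ndN4q2 pcN1 Cut.none Ext.none :=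
  certN0 (fam := false) (s1 := true) (s2 := false) (a := 1) (b := 1) (c := 2) (cn := .dn) (n1 := ndN2q1) (n2 := ndN4q2) (pc := pcN1) (cut := Cut.none) (xt := Ext.none) (P1 := 536870912) (W1 := 536870912) (P2 := 1073741824) (W2 := 536870912) (P3 := 134217728) (W3 := 67108864) (N0 := 3)
    rfl k0_pm_112

noncomputable def f_pm_113 : ℕ → ℕ → ℕ → ℕ → Bool := onCell 536870912 536870912 0 1230186008 134217728 67108864
    (rowN 3 0 false true false .nn 1 1 3 (qsf 536870912 536870912 0 1230186008 1) ndN2q1 ndN4q3 pcN1 Cut.none Ext.none)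

def k0_pm_113 : ∃ t, chk3 f_pm_113 t 1 1 1 = true :=
  ⟨(b (b (a (l 2) (l 17236272)) (l 4)) (l 4)), by decide +kernel⟩

theorem c_pm_113 : CertN 536870912 536870912 0 1230186008 134217728 67108864 3 false true false .nn 1 1 3
    ndN2q1 ndN4q3 pcN1 Cut.none Ext.none :=
  certN0 (fam := false) (s1 := true) (s2 := false) (a := 1) (b := 1) (c := 3) (cn := .nn) (n1 := ndN2q1) (n2 := ndN4q3) (pc := pcN1) (cut := Cut.none) (xt := Ext.none) (P1 := 536870912) (W1 := 536870912) (P2 := 0) (W2 := 1230186008) (P3 := 134217728) (W3 := 67108864) (N0 := 3)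
    rfl k0_pm_113

noncomputable def f_pm_123 : ℕ → ℕ → ℕ → ℕ → Bool := onCell 536870912 536870912 0 1230186008 134217728 67108864
    (rowN 3 0 false true false .npn 1 2 3 (qsf 536870912 536870912 0 1230186008 2) ndN2q1 ndN4q3 pcN2 Cut.none Ext.none)

def k0_pm_123 : ∃ t, chk3 f_pm_123 t 1 1 1 = true :=
  ⟨(b (a (l 4) (b (a (l 17058064) (l 16941248)) (l 4))) (l 4)), by decide +kernel⟩

theorem c_pm_123 : CertN 536870912 536870912 0 1230186008 134217728 67108864 3 false true false .npn 1 2 3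
    ndN2q1 ndN4q3 pcN2 Cut.none Ext.none :=
  certN0 (fam := false) (s1 := true) (s2 := false) (a := 1) (b := 2) (c := 3) (cn := .npn) (n1 := ndN2q1) (n2 := ndN4q3) (pc := pcN2) (cut := Cut.none) (xt := Ext.none) (P1 := 536870912) (W1 := 536870912) (P2 := 0) (W2 := 1230186008) (P3 := 134217728) (W3 := 67108864) (N0 := 3)
    rfl k0_pm_123

noncomputable def f_pm_133 : ℕ → ℕ → ℕ → ℕ → Bool := onCell 536870912 536870912 0 1230186008 134217728 67108864
    (rowN 3 0 false true false .dn 1 3 3 (qsf 536870912 536870912 0 1230186008 3) ndN2q1 ndN4q3 pcN3 Cut.none Ext.none)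

def k0_pm_133 : ∃ t, chk3 f_pm_133 t 1 1 1 = true :=
  ⟨(a (b (l 4) (l 1)) (l 1)), by decide +kernel⟩

theorem c_pm_133 : CertN 536870912 536870912 0 1230186008 134217728 67108864 3 false true false .dn 1 3 3
    ndN2q1 ndN4q3 pcN3 Cut.none Ext.none :=
  certN0 (fam := false) (s1 := true) (s2 := false) (a := 1) (b := 3) (c := 3) (cn := .dn) (n1 := ndN2q1) (n2 := ndN4q3) (pc := pcN3) (cut := Cut.none) (xt := Ext.none) (P1 := 536870912) (W1 := 536870912) (P2 := 0) (W2 := 1230186008) (P3 := 134217728) (W3 := 67108864) (N0 := 3)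
    rfl k0_pm_133

noncomputable def f_pm_202_a : ℕ → ℕ → ℕ → ℕ → Bool := onCell 0 536870912 0 536870912 134217728 67108864
    (rowN 3 1 false true false .pp 2 0 2 (qsf 0 536870912 1073741824 536870912 0) ndN2q2a ndN4q2 pcN0 Cut.none Ext.none)

def k0_pm_202_a : ∃ t, chk3 f_pm_202_a t 1 1 1 = true :=
  ⟨(b (b (a (b (l 18176000) (l 18062744)) (b (l 18443048) (a (l 18261368) (l 18499944)))) (a (l 17903960) (a (l 17985056) (l 17987336)))) (b (a (l 17944888) (b (a (l 17733056) (l 17659464)) (l 17743312))) (a (l 17682760) (b (l 17828664) (l 17672440))))), by decide +kernel⟩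

theorem c_pm_202_a : CertN 0 536870912 1073741824 536870912 134217728 67108864 3 false true false .pp 2 0 2
    ndN2q2a ndN4q2 pcN0 Cut.none Ext.none :=
  certN1 (fam := false) (s1 := true) (s2 := false) (a := 2) (b := 0) (c := 2) (cn := .pp) (n1 := ndN2q2a) (n2 := ndN4q2) (pc := pcN0) (cut := Cut.none) (xt := Ext.none) (P1 := 0) (W1 := 536870912) (P2 := 1073741824) (W2 := 536870912) (P3 := 134217728) (W3 := 67108864) (N0 := 3)
    rfl (fun _ => rfl) k0_pm_202_a

noncomputable def f_pm_202_b : ℕ → ℕ → ℕ → ℕ → Bool := onCell 0 536870912 1073741824 536870912 134217728 67108864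
    (rowN 3 2 false true false .pp 2 0 2 (qsf 1239849684 370763052 1073741824 536870912 0) ndN2q2b ndN4q2 pcN0 Cut.none Ext.none)

def k0_pm_202_b : ∃ t, chk3 f_pm_202_b t 1 1 1 = true :=
  ⟨(a (b (a (b (l 1) (b (l 18396200) (l 18037024))) (l 1)) (b (a (l 17727616) (l 17821120)) (a (a (l 18030592) (l 18132480)) (a (l 18053936) (l 17944120))))) (b (l 1) (b (l 1) (a (a (l 17815312) (l 17745472)) (l 1))))), by decide +kernel⟩

theorem c_pm_202_b : CertN 1239849684 370763052 1073741824 536870912 134217728 67108864 3 false true false .pp 2 0 2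
    ndN2q2b ndN4q2 pcN0 Cut.none Ext.none :=
  certN2 (fam := false) (s1 := true) (s2 := false) (a := 2) (b := 0) (c := 2) (cn := .pp) (n1 := ndN2q2b) (n2 := ndN4q2) (pc := pcN0) (cut := Cut.none) (xt := Ext.none) (P1 := 1239849684) (W1 := 370763052) (P2 := 1073741824) (W2 := 536870912) (P3 := 134217728) (W3 := 67108864) (N0 := 3)
    rfl (fun _ => rfl) k0_pm_202_b

noncomputable def f_pm_203_a : ℕ → ℕ → ℕ → ℕ → Bool := onCell 0 536870912 0 1230186008 134217728 67108864
    (rowN 3 0 false true false .up 2 0 3 (qsf 0 536870912 0 1230186008 0) ndN2q2a ndN4q3 pcN0 Cut.none Ext.none)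

def k0_pm_203_a : ∃ t, chk3 f_pm_203_a t 1 1 1 = true :=
  ⟨(b (l 2) (b (l 2) (b (a (l 18047928) (l 2)) (a (l 18027960) (b (l 18025600) (l 18169760)))))), by decide +kernel⟩

theorem c_pm_203_a : CertN 0 536870912 0 1230186008 134217728 67108864 3 false true false .up 2 0 3
    ndN2q2a ndN4q3 pcN0 Cut.none Ext.none :=
  certN0 (fam := false) (s1 := true) (s2 := false) (a := 2) (b := 0) (c := 3) (cn := .up) (n1 := ndN2q2a) (n2 := ndN4q3) (pc := pcN0) (cut := Cut.none) (xt := Ext.none) (P1 := 0) (W1 := 536870912) (P2 := 0) (W2 := 1230186008) (P3 := 134217728) (W3 := 67108864) (N0 := 3)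
    rfl k0_pm_203_a

noncomputable def f_pm_203_b : ℕ → ℕ → ℕ → ℕ → Bool := onCell 0 536870912 0 1230186008 134217728 67108864
    (rowN 3 2 false true false .up 2 0 3 (qsf 1239849684 370763052 0 1230186008 0) ndN2q2b ndN4q3 pcN0 Cut.none Ext.none)

def k0_pm_203_b : ∃ t, chk3 f_pm_203_b t 1 1 1 = true :=
  ⟨(b (a (l 2) (l 3)) (a (b (a (l 2) (l 655084940071)) (a (b (l 2) (b (l 276055510487) (l 17908904))) (b (l 18015344) (c (l 18316512) (l 18277592))))) (b (a (l 171431818087) (b (l 174115906007) (l 17763864))) (a (b (l 17952392) (l 18335104)) (b (l 17884640) (l 18036152)))))), by decide +kernel⟩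

theorem c_pm_203_b : CertN 1239849684 370763052 0 1230186008 134217728 67108864 3 false true false .up 2 0 3
    ndN2q2b ndN4q3 pcN0 Cut.none Ext.none :=
  certN2 (fam := false) (s1 := true) (s2 := false) (a := 2) (b := 0) (c := 3) (cn := .up) (n1 := ndN2q2b) (n2 := ndN4q3) (pc := pcN0) (cut := Cut.none) (xt := Ext.none) (P1 := 1239849684) (W1 := 370763052) (P2 := 0) (W2 := 1230186008) (P3 := 134217728) (W3 := 67108864) (N0 := 3)
    rfl (fun _ => rfl) k0_pm_203_b

noncomputable def cut_pm_213_a : Cut := Cut.of [[⟨0, 1, 0, 39843005⟩, ⟨1, 1, 0, 39843005⟩, ⟨2, 2, 0, 5814905⟩]]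

noncomputable def f_pm_213_a : ℕ → ℕ → ℕ → ℕ → Bool := onCell 0 536870912 0 1230186008 134217728 67108864
    (rowN 3 0 false true false .pnn 2 1 3 (qsf 0 536870912 0 1230186008 1) ndN2q2a ndN4q3 pcN1 cut_pm_213_a Ext.none)

def k0_pm_213_a : ∃ t, chk3 f_pm_213_a t 1 1 1 = true :=
  ⟨(b (a (b (l 3) (b (l 17115784) (l 17008792))) (b (a (b (l 3) (l 286320515303)) (a (b (l 286856909543) (l 16838168)) (b (a (l 270750842519) (b (l 6) (l 16803304))) (l 16840224)))) (a (b (l 16905528) (l 16993296)) (b (l 17008896) (l 16991792))))) (b (a (b (l 17105960) (l 17178984)) (b (a (l 17093952) (l 17095104)) (a (l 17181488) (l 17184672)))) (b (a (l 17183824) (a (l 17216264) (l 17249272))) (a (l 17154904) (b (l 17256048) (l 17466032)))))), by decide +kernel⟩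

theorem c_pm_213_a : CertN 0 536870912 0 1230186008 134217728 67108864 3 false true false .pnn 2 1 3
    ndN2q2a ndN4q3 pcN1 cut_pm_213_a Ext.none :=
  certN0 (fam := false) (s1 := true) (s2 := false) (a := 2) (b := 1) (c := 3) (cn := .pnn) (n1 := ndN2q2a) (n2 := ndN4q3) (pc := pcN1) (cut := cut_pm_213_a) (xt := Ext.none) (P1 := 0) (W1 := 536870912) (P2 := 0) (W2 := 1230186008) (P3 := 134217728) (W3 := 67108864) (N0 := 3)
    rfl k0_pm_213_a

noncomputable def cut_pm_213_b : Cut := Cut.of [[⟨0, 1, 0, 39843005⟩, ⟨1, 1, 0, 39843005⟩, ⟨2, 2, 0, 5814905⟩]]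

noncomputable def f_pm_213_b : ℕ → ℕ → ℕ → ℕ → Bool := onCell 1239849684 370763052 0 1230186008 134217728 67108864
    (rowN 3 0 false true false .pnn 2 1 3 (qsf 1239849684 370763052 0 1230186008 1) ndN2q2b ndN4q3 pcN1 cut_pm_213_b Ext.none)

def k0_pm_213_b : ∃ t, chk3 f_pm_213_b t 1 1 1 = true :=
  ⟨(b (a (b (l 3) (b (a (l 17240744) (l 3)) (a (l 17278440) (l 17277192)))) (l 3)) (b (a (b (a (l 17154768) (l 17532528)) (a (l 17207016) (l 17312520))) (b (a (l 236392768007) (l 1)) (l 1))) (a (b (a (b (l 17191528) (l 17141416)) (l 1)) (l 1)) (l 1)))), by decide +kernel⟩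

theorem c_pm_213_b : CertN 1239849684 370763052 0 1230186008 134217728 67108864 3 false true false .pnn 2 1 3
    ndN2q2b ndN4q3 pcN1 cut_pm_213_b Ext.none :=
  certN0 (fam := false) (s1 := true) (s2 := false) (a := 2) (b := 1) (c := 3) (cn := .pnn) (n1 := ndN2q2b) (n2 := ndN4q3) (pc := pcN1) (cut := cut_pm_213_b) (xt := Ext.none) (P1 := 1239849684) (W1 := 370763052) (P2 := 0) (W2 := 1230186008) (P3 := 134217728) (W3 := 67108864) (N0 := 3)
    rfl k0_pm_213_b

noncomputable def f_pm_303 : ℕ → ℕ → ℕ → ℕ → Bool := onCell 0 536870912 0 1230186008 134217728 67108864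
    (rowN 3 2 false true false .npn 3 0 3 (qsf 1610612736 536870912 0 1230186008 0) ndN2q3 ndN4q3 pcN0 Cut.none Ext.none)

def k0_pm_303 : ∃ t, chk3 f_pm_303 t 1 1 1 = true :=
  ⟨(b (a (l 3) (l 3)) (a (b (a (l 3) (l 191295524359)) (b (a (b (l 17730960) (l 17803608)) (l 17706616)) (a (b (l 17864056) (l 17686256)) (l 17871216)))) (b (a (l 156935621527) (a (l 17226424) (l 1))) (l 1)))), by decide +kernel⟩

theorem c_pm_303 : CertN 1610612736 536870912 0 1230186008 134217728 67108864 3 false true false .npn 3 0 3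
    ndN2q3 ndN4q3 pcN0 Cut.none Ext.none :=
  certN2 (fam := false) (s1 := true) (s2 := false) (a := 3) (b := 0) (c := 3) (cn := .npn) (n1 := ndN2q3) (n2 := ndN4q3) (pc := pcN0) (cut := Cut.none) (xt := Ext.none) (P1 := 1610612736) (W1 := 536870912) (P2 := 0) (W2 := 1230186008) (P3 := 134217728) (W3 := 67108864) (N0 := 3)
    rfl (fun _ => rfl) k0_pm_303

noncomputable def f_pm_313 : ℕ → ℕ → ℕ → ℕ → Bool := onCell 1610612736 536870912 0 1230186008 134217728 67108864
    (rowN 3 0 false true false .dn 3 1 3 (qsf 1610612736 536870912 0 1230186008 1) ndN2q3 ndN4q3 pcN1 Cut.none Ext.none)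

def k0_pm_313 : ∃ t, chk3 f_pm_313 t 1 1 1 = true :=
  ⟨(b (l 3) (l 1)), by decide +kernel⟩

theorem c_pm_313 : CertN 1610612736 536870912 0 1230186008 134217728 67108864 3 false true false .dn 3 1 3
    ndN2q3 ndN4q3 pcN1 Cut.none Ext.none :=
  certN0 (fam := false) (s1 := true) (s2 := false) (a := 3) (b := 1) (c := 3) (cn := .dn) (n1 := ndN2q3) (n2 := ndN4q3) (pc := pcN1) (cut := Cut.none) (xt := Ext.none) (P1 := 1610612736) (W1 := 536870912) (P2 := 0) (W2 := 1230186008) (P3 := 134217728) (W3 := 67108864) (N0 := 3)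
    rfl k0_pm_313

noncomputable def f_mm_001 : ℕ → ℕ → ℕ → ℕ → Bool := onCell 0 536870912 0 536870912 134217728 67108864
    (rowN 3 1 false false false .up 0 0 1 (qsf 0 536870912 536870912 536870912 0) ndN2q0 ndN4q1 pcN0 Cut.none Ext.none)

def k0_mm_001 : ∃ t, chk3 f_mm_001 t 1 1 1 = true :=
  ⟨(l 3), by decide +kernel⟩

theorem c_mm_001 : CertN 0 536870912 536870912 536870912 134217728 67108864 3 false false false .up 0 0 1
    ndN2q0 ndN4q1 pcN0 Cut.none Ext.none :=
  certN1 (fam := false) (s1 := false) (s2 := false) (a := 0) (b := 0) (c := 1) (cn := .up) (n1 := ndN2q0) (n2 := ndN4q1) (pc := pcN0) (cut := Cut.none) (xt := Ext.none) (P1 := 0) (W1 := 536870912) (P2 := 536870912) (W2 := 536870912) (P3 := 134217728) (W3 := 67108864) (N0 := 3)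
    rfl (fun _ => rfl) k0_mm_001

noncomputable def f_mm_011 : ℕ → ℕ → ℕ → ℕ → Bool := onCell 0 536870912 536870912 536870912 134217728 67108864
    (rowN 3 1 false false false .pnn 0 1 1 (qsf 0 536870912 536870912 536870912 1) ndN2q0 ndN4q1 pcN1 Cut.none Ext.none)

def k0_mm_011 : ∃ t, chk3 f_mm_011 t 1 1 1 = true :=
  ⟨(l 5), by decide +kernel⟩

theorem c_mm_011 : CertN 0 536870912 536870912 536870912 134217728 67108864 3 false false false .pnn 0 1 1
    ndN2q0 ndN4q1 pcN1 Cut.none Ext.none :=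
  certN1 (fam := false) (s1 := false) (s2 := false) (a := 0) (b := 1) (c := 1) (cn := .pnn) (n1 := ndN2q0) (n2 := ndN4q1) (pc := pcN1) (cut := Cut.none) (xt := Ext.none) (P1 := 0) (W1 := 536870912) (P2 := 536870912) (W2 := 536870912) (P3 := 134217728) (W3 := 67108864) (N0 := 3)
    rfl (fun _ => rfl) k0_mm_011

noncomputable def f_mm_012 : ℕ → ℕ → ℕ → ℕ → Bool := onCell 0 536870912 1073741824 536870912 134217728 67108864
    (rowN 3 0 false false false .pnp 0 1 2 (qsf 0 536870912 1073741824 536870912 1) ndN2q0 ndN4q2 pcN1 Cut.none Ext.none)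

def k0_mm_012 : ∃ t, chk3 f_mm_012 t 1 1 1 = true :=
  ⟨(l 5), by decide +kernel⟩

theorem c_mm_012 : CertN 0 536870912 1073741824 536870912 134217728 67108864 3 false false false .pnp 0 1 2
    ndN2q0 ndN4q2 pcN1 Cut.none Ext.none :=
  certN0 (fam := false) (s1 := false) (s2 := false) (a := 0) (b := 1) (c := 2) (cn := .pnp) (n1 := ndN2q0) (n2 := ndN4q2) (pc := pcN1) (cut := Cut.none) (xt := Ext.none) (P1 := 0) (W1 := 536870912) (P2 := 1073741824) (W2 := 536870912) (P3 := 134217728) (W3 := 67108864) (N0 := 3)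
    rfl k0_mm_012

noncomputable def f_mm_022 : ℕ → ℕ → ℕ → ℕ → Bool := onCell 0 536870912 1073741824 536870912 134217728 67108864
    (rowN 3 0 false false false .pp 0 2 2 (qsf 0 536870912 1073741824 536870912 2) ndN2q0 ndN4q2 pcN2 Cut.none Ext.none)

def k0_mm_022 : ∃ t, chk3 f_mm_022 t 1 1 1 = true :=
  ⟨(l 5), by decide +kernel⟩

theorem c_mm_022 : CertN 0 536870912 1073741824 536870912 134217728 67108864 3 false false false .pp 0 2 2
    ndN2q0 ndN4q2 pcN2 Cut.none Ext.none :=
  certN0 (fam := false) (s1 := false) (s2 := false) (a := 0) (b := 2) (c := 2) (cn := .pp) (n1 := ndN2q0) (n2 := ndN4q2) (pc := pcN2) (cut := Cut.none) (xt := Ext.none) (P1 := 0) (W1 := 536870912) (P2 := 1073741824) (W2 := 536870912) (P3 := 134217728) (W3 := 67108864) (N0 := 3)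
    rfl k0_mm_022

noncomputable def f_mm_023 : ℕ → ℕ → ℕ → ℕ → Bool := onCell 0 536870912 0 1230186008 134217728 67108864
    (rowN 3 0 false false false .up 0 2 3 (qsf 0 536870912 0 1230186008 2) ndN2q0 ndN4q3 pcN2 Cut.none Ext.none)

def k0_mm_023 : ∃ t, chk3 f_mm_023 t 1 1 1 = true :=
  ⟨(l 5), by decide +kernel⟩

theorem c_mm_023 : CertN 0 536870912 0 1230186008 134217728 67108864 3 false false false .up 0 2 3
    ndN2q0 ndN4q3 pcN2 Cut.none Ext.none :=
  certN0 (fam := false) (s1 := false) (s2 := false) (a := 0) (b := 2) (c := 3) (cn := .up) (n1 := ndN2q0) (n2 := ndN4q3) (pc := pcN2) (cut := Cut.none) (xt := Ext.none) (P1 := 0) (W1 := 536870912) (P2 := 0) (W2 := 1230186008) (P3 := 134217728) (W3 := 67108864) (N0 := 3)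
    rfl k0_mm_023

noncomputable def f_mm_033 : ℕ → ℕ → ℕ → ℕ → Bool := onCell 0 536870912 0 1230186008 134217728 67108864
    (rowN 3 0 false false false .pnn 0 3 3 (qsf 0 536870912 0 1230186008 3) ndN2q0 ndN4q3 pcN3 Cut.none Ext.none)

def k0_mm_033 : ∃ t, chk3 f_mm_033 t 1 1 1 = true :=
  ⟨(l 5), by decide +kernel⟩

theorem c_mm_033 : CertN 0 536870912 0 1230186008 134217728 67108864 3 false false false .pnn 0 3 3
    ndN2q0 ndN4q3 pcN3 Cut.none Ext.none :=
  certN0 (fam := false) (s1 := false) (s2 := false) (a := 0) (b := 3) (c := 3) (cn := .pnn) (n1 := ndN2q0) (n2 := ndN4q3) (pc := pcN3) (cut := Cut.none) (xt := Ext.none) (P1 := 0) (W1 := 536870912) (P2 := 0) (W2 := 1230186008) (P3 := 134217728) (W3 := 67108864) (N0 := 3)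
    rfl k0_mm_033

noncomputable def f_mm_101 : ℕ → ℕ → ℕ → ℕ → Bool := onCell 536870912 536870912 536870912 536870912 134217728 67108864
    (rowN 3 0 false false false .npn 1 0 1 (qsf 536870912 536870912 536870912 536870912 0) ndN2q1 ndN4q1 pcN0 Cut.none Ext.none)

def k0_mm_101 : ∃ t, chk3 f_mm_101 t 1 1 1 = true :=
  ⟨(l 3), by decide +kernel⟩

theorem c_mm_101 : CertN 536870912 536870912 536870912 536870912 134217728 67108864 3 false false false .npn 1 0 1
    ndN2q1 ndN4q1 pcN0 Cut.none Ext.none :=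
  certN0 (fam := false) (s1 := false) (s2 := false) (a := 1) (b := 0) (c := 1) (cn := .npn) (n1 := ndN2q1) (n2 := ndN4q1) (pc := pcN0) (cut := Cut.none) (xt := Ext.none) (P1 := 536870912) (W1 := 536870912) (P2 := 536870912) (W2 := 536870912) (P3 := 134217728) (W3 := 67108864) (N0 := 3)
    rfl k0_mm_101

noncomputable def f_mm_102 : ℕ → ℕ → ℕ → ℕ → Bool := onCell 536870912 536870912 1073741824 536870912 134217728 67108864
    (rowN 3 0 false false false .npp 1 0 2 (qsf 536870912 536870912 1073741824 536870912 0) ndN2q1 ndN4q2 pcN0 Cut.none Ext.none)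

def k0_mm_102 : ∃ t, chk3 f_mm_102 t 1 1 1 = true :=
  ⟨(l 5), by decide +kernel⟩

theorem c_mm_102 : CertN 536870912 536870912 1073741824 536870912 134217728 67108864 3 false false false .npp 1 0 2
    ndN2q1 ndN4q2 pcN0 Cut.none Ext.none :=
  certN0 (fam := false) (s1 := false) (s2 := false) (a := 1) (b := 0) (c := 2) (cn := .npp) (n1 := ndN2q1) (n2 := ndN4q2) (pc := pcN0) (cut := Cut.none) (xt := Ext.none) (P1 := 536870912) (W1 := 536870912) (P2 := 1073741824) (W2 := 536870912) (P3 := 134217728) (W3 := 67108864) (N0 := 3)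
    rfl k0_mm_102

noncomputable def f_mm_112 : ℕ → ℕ → ℕ → ℕ → Bool := onCell 536870912 536870912 1073741824 536870912 134217728 67108864
    (rowN 3 0 false false false .dn 1 1 2 (qsf 536870912 536870912 1073741824 536870912 1) ndN2q1 ndN4q2 pcN1 Cut.none Ext.none)

def k0_mm_112 : ∃ t, chk3 f_mm_112 t 1 1 1 = true :=
  ⟨(l 5), by decide +kernel⟩

theorem c_mm_112 : CertN 536870912 536870912 1073741824 536870912 134217728 67108864 3 false false false .dn 1 1 2
    ndN2q1 ndN4q2 pcN1 Cut.none Ext.none :=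
  certN0 (fam := false) (s1 := false) (s2 := false) (a := 1) (b := 1) (c := 2) (cn := .dn) (n1 := ndN2q1) (n2 := ndN4q2) (pc := pcN1) (cut := Cut.none) (xt := Ext.none) (P1 := 536870912) (W1 := 536870912) (P2 := 1073741824) (W2 := 536870912) (P3 := 134217728) (W3 := 67108864) (N0 := 3)
    rfl k0_mm_112

noncomputable def f_mm_113 : ℕ → ℕ → ℕ → ℕ → Bool := onCell 536870912 536870912 0 1230186008 134217728 67108864
    (rowN 3 0 false false false .nn 1 1 3 (qsf 536870912 536870912 0 1230186008 1) ndN2q1 ndN4q3 pcN1 Cut.none Ext.none)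

def k0_mm_113 : ∃ t, chk3 f_mm_113 t 1 1 1 = true :=
  ⟨(l 5), by decide +kernel⟩

theorem c_mm_113 : CertN 536870912 536870912 0 1230186008 134217728 67108864 3 false false false .nn 1 1 3
    ndN2q1 ndN4q3 pcN1 Cut.none Ext.none :=
  certN0 (fam := false) (s1 := false) (s2 := false) (a := 1) (b := 1) (c := 3) (cn := .nn) (n1 := ndN2q1) (n2 := ndN4q3) (pc := pcN1) (cut := Cut.none) (xt := Ext.none) (P1 := 536870912) (W1 := 536870912) (P2 := 0) (W2 := 1230186008) (P3 := 134217728) (W3 := 67108864) (N0 := 3)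
    rfl k0_mm_113

noncomputable def f_mm_123 : ℕ → ℕ → ℕ → ℕ → Bool := onCell 536870912 536870912 0 1230186008 134217728 67108864
    (rowN 3 0 false false false .npn 1 2 3 (qsf 536870912 536870912 0 1230186008 2) ndN2q1 ndN4q3 pcN2 Cut.none Ext.none)

def k0_mm_123 : ∃ t, chk3 f_mm_123 t 1 1 1 = true :=
  ⟨(l 5), by decide +kernel⟩

theorem c_mm_123 : CertN 536870912 536870912 0 1230186008 134217728 67108864 3 false false false .npn 1 2 3
    ndN2q1 ndN4q3 pcN2 Cut.none Ext.none :=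
  certN0 (fam := false) (s1 := false) (s2 := false) (a := 1) (b := 2) (c := 3) (cn := .npn) (n1 := ndN2q1) (n2 := ndN4q3) (pc := pcN2) (cut := Cut.none) (xt := Ext.none) (P1 := 536870912) (W1 := 536870912) (P2 := 0) (W2 := 1230186008) (P3 := 134217728) (W3 := 67108864) (N0 := 3)
    rfl k0_mm_123

noncomputable def f_mm_133 : ℕ → ℕ → ℕ → ℕ → Bool := onCell 536870912 536870912 0 1230186008 134217728 67108864
    (rowN 3 0 false false false .dn 1 3 3 (qsf 536870912 536870912 0 1230186008 3) ndN2q1 ndN4q3 pcN3 Cut.none Ext.none)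

def k0_mm_133 : ∃ t, chk3 f_mm_133 t 1 1 1 = true :=
  ⟨(l 5), by decide +kernel⟩

theorem c_mm_133 : CertN 536870912 536870912 0 1230186008 134217728 67108864 3 false false false .dn 1 3 3
    ndN2q1 ndN4q3 pcN3 Cut.none Ext.none :=
  certN0 (fam := false) (s1 := false) (s2 := false) (a := 1) (b := 3) (c := 3) (cn := .dn) (n1 := ndN2q1) (n2 := ndN4q3) (pc := pcN3) (cut := Cut.none) (xt := Ext.none) (P1 := 536870912) (W1 := 536870912) (P2 := 0) (W2 := 1230186008) (P3 := 134217728) (W3 := 67108864) (N0 := 3)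
    rfl k0_mm_133

noncomputable def f_mm_202_a : ℕ → ℕ → ℕ → ℕ → Bool := onCell 0 536870912 1073741824 536870912 134217728 67108864
    (rowN 3 0 false false false .pp 2 0 2 (qsf 0 536870912 1073741824 536870912 0) ndN2q2a ndN4q2 pcN0 Cut.none Ext.none)

def k0_mm_202_a : ∃ t, chk3 f_mm_202_a t 1 1 1 = true :=
  ⟨(l 3), by decide +kernel⟩

theorem c_mm_202_a : CertN 0 536870912 1073741824 536870912 134217728 67108864 3 false false false .pp 2 0 2
    ndN2q2a ndN4q2 pcN0 Cut.none Ext.none :=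
  certN0 (fam := false) (s1 := false) (s2 := false) (a := 2) (b := 0) (c := 2) (cn := .pp) (n1 := ndN2q2a) (n2 := ndN4q2) (pc := pcN0) (cut := Cut.none) (xt := Ext.none) (P1 := 0) (W1 := 536870912) (P2 := 1073741824) (W2 := 536870912) (P3 := 134217728) (W3 := 67108864) (N0 := 3)
    rfl k0_mm_202_a

noncomputable def f_mm_202_b : ℕ → ℕ → ℕ → ℕ → Bool := onCell 1239849684 370763052 1073741824 536870912 134217728 67108864
    (rowN 3 0 false false false .pp 2 0 2 (qsf 1239849684 370763052 1073741824 536870912 0) ndN2q2b ndN4q2 pcN0 Cut.none Ext.none)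

def k0_mm_202_b : ∃ t, chk3 f_mm_202_b t 1 1 1 = true :=
  ⟨(l 3), by decide +kernel⟩

theorem c_mm_202_b : CertN 1239849684 370763052 1073741824 536870912 134217728 67108864 3 false false false .pp 2 0 2
    ndN2q2b ndN4q2 pcN0 Cut.none Ext.none :=
  certN0 (fam := false) (s1 := false) (s2 := false) (a := 2) (b := 0) (c := 2) (cn := .pp) (n1 := ndN2q2b) (n2 := ndN4q2) (pc := pcN0) (cut := Cut.none) (xt := Ext.none) (P1 := 1239849684) (W1 := 370763052) (P2 := 1073741824) (W2 := 536870912) (P3 := 134217728) (W3 := 67108864) (N0 := 3)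
    rfl k0_mm_202_b

noncomputable def f_mm_203_a : ℕ → ℕ → ℕ → ℕ → Bool := onCell 0 536870912 0 1230186008 134217728 67108864
    (rowN 3 0 false false false .up 2 0 3 (qsf 0 536870912 0 1230186008 0) ndN2q2a ndN4q3 pcN0 Cut.none Ext.none)

def k0_mm_203_a : ∃ t, chk3 f_mm_203_a t 1 1 1 = true :=
  ⟨(b (l 2) (l 3)), by decide +kernel⟩

theorem c_mm_203_a : CertN 0 536870912 0 1230186008 134217728 67108864 3 false false false .up 2 0 3
    ndN2q2a ndN4q3 pcN0 Cut.none Ext.none :=
  certN0 (fam := false) (s1 := false) (s2 := false) (a := 2) (b := 0) (c := 3) (cn := .up) (n1 := ndN2q2a) (n2 := ndN4q3) (pc := pcN0) (cut := Cut.none) (xt := Ext.none) (P1 := 0) (W1 := 536870912) (P2 := 0) (W2 := 1230186008) (P3 := 134217728) (W3 := 67108864) (N0 := 3)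
    rfl k0_mm_203_a

noncomputable def f_mm_203_b : ℕ → ℕ → ℕ → ℕ → Bool := onCell 1239849684 370763052 0 1230186008 134217728 67108864
    (rowN 3 0 false false false .up 2 0 3 (qsf 1239849684 370763052 0 1230186008 0) ndN2q2b ndN4q3 pcN0 Cut.none Ext.none)

def k0_mm_203_b : ∃ t, chk3 f_mm_203_b t 1 1 1 = true :=
  ⟨(b (l 3) (l 3)), by decide +kernel⟩

theorem c_mm_203_b : CertN 1239849684 370763052 0 1230186008 134217728 67108864 3 false false false .up 2 0 3
    ndN2q2b ndN4q3 pcN0 Cut.none Ext.none :=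
  certN0 (fam := false) (s1 := false) (s2 := false) (a := 2) (b := 0) (c := 3) (cn := .up) (n1 := ndN2q2b) (n2 := ndN4q3) (pc := pcN0) (cut := Cut.none) (xt := Ext.none) (P1 := 1239849684) (W1 := 370763052) (P2 := 0) (W2 := 1230186008) (P3 := 134217728) (W3 := 67108864) (N0 := 3)
    rfl k0_mm_203_b

noncomputable def f_mm_213_a : ℕ → ℕ → ℕ → ℕ → Bool := onCell 0 536870912 0 1230186008 134217728 67108864
    (rowN 3 0 false false false .pnn 2 1 3 (qsf 0 536870912 0 1230186008 1) ndN2q2a ndN4q3 pcN1 Cut.none Ext.none)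

def k0_mm_213_a : ∃ t, chk3 f_mm_213_a t 1 1 1 = true :=
  ⟨(b (l 5) (l 3)), by decide +kernel⟩

theorem c_mm_213_a : CertN 0 536870912 0 1230186008 134217728 67108864 3 false false false .pnn 2 1 3
    ndN2q2a ndN4q3 pcN1 Cut.none Ext.none :=
  certN0 (fam := false) (s1 := false) (s2 := false) (a := 2) (b := 1) (c := 3) (cn := .pnn) (n1 := ndN2q2a) (n2 := ndN4q3) (pc := pcN1) (cut := Cut.none) (xt := Ext.none) (P1 := 0) (W1 := 536870912) (P2 := 0) (W2 := 1230186008) (P3 := 134217728) (W3 := 67108864) (N0 := 3)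
    rfl k0_mm_213_a

noncomputable def f_mm_213_b : ℕ → ℕ → ℕ → ℕ → Bool := onCell 1239849684 370763052 0 1230186008 134217728 67108864
    (rowN 3 0 false false false .pnn 2 1 3 (qsf 1239849684 370763052 0 1230186008 1) ndN2q2b ndN4q3 pcN1 Cut.none Ext.none)

def k0_mm_213_b : ∃ t, chk3 f_mm_213_b t 1 1 1 = true :=
  ⟨(b (l 3) (l 3)), by decide +kernel⟩

theorem c_mm_213_b : CertN 1239849684 370763052 0 1230186008 134217728 67108864 3 false false false .pnn 2 1 3
    ndN2q2b ndN4q3 pcN1 Cut.none Ext.none :=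
  certN0 (fam := false) (s1 := false) (s2 := false) (a := 2) (b := 1) (c := 3) (cn := .pnn) (n1 := ndN2q2b) (n2 := ndN4q3) (pc := pcN1) (cut := Cut.none) (xt := Ext.none) (P1 := 1239849684) (W1 := 370763052) (P2 := 0) (W2 := 1230186008) (P3 := 134217728) (W3 := 67108864) (N0 := 3)
    rfl k0_mm_213_b

noncomputable def f_mm_303 : ℕ → ℕ → ℕ → ℕ → Bool := onCell 0 536870912 0 1230186008 134217728 67108864
    (rowN 3 2 false false false .npn 3 0 3 (qsf 1610612736 536870912 0 1230186008 0) ndN2q3 ndN4q3 pcN0 Cut.none Ext.none)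

def k0_mm_303 : ∃ t, chk3 f_mm_303 t 1 1 1 = true :=
  ⟨(b (l 3) (l 3)), by decide +kernel⟩

theorem c_mm_303 : CertN 1610612736 536870912 0 1230186008 134217728 67108864 3 false false false .npn 3 0 3
    ndN2q3 ndN4q3 pcN0 Cut.none Ext.none :=
  certN2 (fam := false) (s1 := false) (s2 := false) (a := 3) (b := 0) (c := 3) (cn := .npn) (n1 := ndN2q3) (n2 := ndN4q3) (pc := pcN0) (cut := Cut.none) (xt := Ext.none) (P1 := 1610612736) (W1 := 536870912) (P2 := 0) (W2 := 1230186008) (P3 := 134217728) (W3 := 67108864) (N0 := 3)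
    rfl (fun _ => rfl) k0_mm_303

noncomputable def f_mm_313 : ℕ → ℕ → ℕ → ℕ → Bool := onCell 1610612736 536870912 0 1230186008 134217728 67108864
    (rowN 3 0 false false false .dn 3 1 3 (qsf 1610612736 536870912 0 1230186008 1) ndN2q3 ndN4q3 pcN1 Cut.none Ext.none)

def k0_mm_313 : ∃ t, chk3 f_mm_313 t 1 1 1 = true :=
  ⟨(b (l 3) (l 1)), by decide +kernel⟩

theorem c_mm_313 : CertN 1610612736 536870912 0 1230186008 134217728 67108864 3 false false false .dn 3 1 3
    ndN2q3 ndN4q3 pcN1 Cut.none Ext.none :=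
  certN0 (fam := false) (s1 := false) (s2 := false) (a := 3) (b := 1) (c := 3) (cn := .dn) (n1 := ndN2q3) (n2 := ndN4q3) (pc := pcN1) (cut := Cut.none) (xt := Ext.none) (P1 := 1610612736) (W1 := 536870912) (P2 := 0) (W2 := 1230186008) (P3 := 134217728) (W3 := 67108864) (N0 := 3)
    rfl k0_mm_313

end Pool.Agent.Strip051.G.I1_8_3_16.Tab.C.NB24

namespace Pool.Agent.Strip051.G.I1_8_3_16.Tab.C.NB25

open Pool.Agent.Strip051.PB Pool.Agent.Strip051.PB.T
open Pool.Agent.Strip051.G.I1_8_3_16.Tab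

noncomputable def f_pp_001 : ℕ → ℕ → ℕ → ℕ → Bool := onCell 0 536870912 0 536870912 134217728 67108864
    (rowN 3 1 false true true .up 0 0 1 (qsf 0 536870912 536870912 536870912 0) ndN2q0 ndN5q1 pcN0 Cut.none Ext.none)

def k0_pp_001 : ∃ t, chk3 f_pp_001 t 1 1 1 = true :=
  ⟨(l 3), by decide +kernel⟩

theorem c_pp_001 : CertN 0 536870912 536870912 536870912 134217728 67108864 3 false true true .up 0 0 1
    ndN2q0 ndN5q1 pcN0 Cut.none Ext.none :=
  certN1 (fam := false) (s1 := true) (s2 := true) (a := 0) (b := 0) (c := 1) (cn := .up) (n1 := ndN2q0) (n2 := ndN5q1) (pc := pcN0) (cut := Cut.none) (xt := Ext.none) (P1 := 0) (W1 := 536870912) (P2 := 536870912) (W2 := 536870912) (P3 := 134217728) (W3 := 67108864) (N0 := 3)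
    rfl (fun _ => rfl) k0_pp_001

noncomputable def cut_pp_011 : Cut := Cut.of [[⟨0, 0, 0, 67108864⟩, ⟨1, 1, 0, 67108864⟩, ⟨2, 1, 0, 67108864⟩]]

noncomputable def f_pp_011 : ℕ → ℕ → ℕ → ℕ → Bool := onCell 0 536870912 536870912 536870912 134217728 67108864
    (rowN 3 1 false true true .pnn 0 1 1 (qsf 0 536870912 536870912 536870912 1) ndN2q0 ndN5q1 pcN1 cut_pp_011 Ext.none)

def k0_pp_011 : ∃ t, chk3 f_pp_011 t 1 1 1 = true :=
  ⟨(a (b (l 3) (b (l 3) (b (l 3) (a (a (a (b (l 3) (l 6)) (l 3)) (l 3)) (l 2))))) (l 3)), by decide +kernel⟩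

theorem c_pp_011 : CertN 0 536870912 536870912 536870912 134217728 67108864 3 false true true .pnn 0 1 1
    ndN2q0 ndN5q1 pcN1 cut_pp_011 Ext.none :=
  certN1 (fam := false) (s1 := true) (s2 := true) (a := 0) (b := 1) (c := 1) (cn := .pnn) (n1 := ndN2q0) (n2 := ndN5q1) (pc := pcN1) (cut := cut_pp_011) (xt := Ext.none) (P1 := 0) (W1 := 536870912) (P2 := 536870912) (W2 := 536870912) (P3 := 134217728) (W3 := 67108864) (N0 := 3)
    rfl (fun _ => rfl) k0_pp_011

noncomputable def cut_pp_012 : Cut := Cut.of [[⟨0, 0, 0, 67108864⟩, ⟨1, 1, 0, 67108864⟩, ⟨2, 1, 0, 67108864⟩]]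

noncomputable def f_pp_012 : ℕ → ℕ → ℕ → ℕ → Bool := onCell 0 536870912 536870912 536870912 134217728 67108864
    (rowN 3 1 false true true .pnp 0 1 2 (qsf 0 536870912 1073741824 536870912 1) ndN2q0 ndN5q2 pcN1 cut_pp_012 Ext.none)

def k0_pp_012 : ∃ t, chk3 f_pp_012 t 1 1 1 = true :=
  ⟨(b (l 3) (a (b (l 3) (a (a (a (b (l 1) (b (l 3) (l 6))) (l 3)) (l 3)) (l 3))) (l 3))), by decide +kernel⟩

theorem c_pp_012 : CertN 0 536870912 1073741824 536870912 134217728 67108864 3 false true true .pnp 0 1 2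
    ndN2q0 ndN5q2 pcN1 cut_pp_012 Ext.none :=
  certN1 (fam := false) (s1 := true) (s2 := true) (a := 0) (b := 1) (c := 2) (cn := .pnp) (n1 := ndN2q0) (n2 := ndN5q2) (pc := pcN1) (cut := cut_pp_012) (xt := Ext.none) (P1 := 0) (W1 := 536870912) (P2 := 1073741824) (W2 := 536870912) (P3 := 134217728) (W3 := 67108864) (N0 := 3)
    rfl (fun _ => rfl) k0_pp_012

noncomputable def cut_pp_022 : Cut := Cut.of [[⟨0, 0, 0, 67108864⟩, ⟨1, 1, 0, 67108864⟩, ⟨2, 1, 0, 67108864⟩]]

noncomputable def f_pp_022 : ℕ → ℕ → ℕ → ℕ → Bool := onCell 0 536870912 1073741824 536870912 134217728 67108864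
    (rowN 3 1 false true true .pp 0 2 2 (qsf 0 536870912 1073741824 536870912 2) ndN2q0 ndN5q2 pcN2 cut_pp_022 Ext.none)

def k0_pp_022 : ∃ t, chk3 f_pp_022 t 2 2 1 = true :=
  ⟨(a (b (b (a (b (a (a (l 6) (a (l 6) (l 3))) (l 3)) (a (b (a (a (l 6) (a (l 6) (l 16742944))) (a (l 16746296) (l 16727744))) (b (a (a (a (l 6) (l 16701616)) (l 16718816)) (l 16711176)) (a (a (a (c (l 16682976) (l 16670736)) (l 16676792)) (l 16683920)) (l 16696688)))) (a (l 16801960) (l 3)))) (l 3)) (a (b (a (a (a (c (a (b (c (l 16672568) (l 16671536)) (l 16643536)) (l 16683712)) (a (b (l 16669928) (l 16619864)) (l 16681112))) (b (l 16684208) (l 16654944))) (b (l 16715920) (l 16666712))) (b (l 16705184) (l 16671768))) (a (a (b (a (c (l 16617392) (l 16613888)) (l 16604480)) (a (c (l 16588288) (l 16563064)) (l 16574424))) (b (l 16638960) (l 16588144))) (b (l 16602688) (l 16702480)))) (b (l 16846512) (a (b (l 16860720) (l 17005256)) (l 17079968))))) (b (b (b (a (a (a (c (a (l 16537480) (l 16640216))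 (l 16557312)) (l 16555176)) (l 16913768)) (l 17209024)) (a (a (a (c (a (b (l 16725280) (l 16796616)) (l 16973408)) (a (l 16550944) (l 16511912))) (l 16739216)) (b (l 17059272) (l 17148288))) (b (l 17302264) (b (l 17345504) (b (l 17367448) (l 17381968)))))) (a (a (a (a (c (l 17043112) (l 16545528)) (c (l 17364096) (l 16703680))) (l 17072800)) (l 17356560)) (l 17499080))) (a (a (b (a (c (l 17733768) (l 17103016)) (l 17545120)) (c (l 18033408) (l 17474680))) (b (l 17634400) (l 17851944))) (a (l 17777000) (l 17781088))))) (b (b (l 3) (b (l 3) (a (l 3) (l 3)))) (b (b (b (l 17515576) (b (l 17415792) (b (l 17449272) (a (l 17452160) (l 17491272))))) (l 17561296)) (a (l 17776456) (l 17778680))))), by decide +kernel⟩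

def k1_pp_022 : ∃ t, chk3 f_pp_022 t 2 3 1 = true :=
  ⟨(a (b (a (a (b (b (l 17849488) (l 18179288)) (l 18342456)) (a (l 18299776) (l 18195944))) (b (l 18049728) (l 18223424))) (a (b (l 18431872) (l 18470576)) (l 18356128))) (b (a (l 18092528) (l 18062032)) (a (l 18284648) (l 2)))), by decide +kernel⟩

def k2_pp_022 : ∃ t, chk3 f_pp_022 t 3 1 1 = true :=
  ⟨(b (a (b (l 3) (b (b (b (l 17471736) (l 146735569335)) (l 17646616)) (l 17816056))) (b (b (l 3) (l 17504408)) (b (b (b (l 17659064) (l 2)) (l 2)) (l 2)))) (a (b (b (l 17992544) (l 2)) (l 2)) (l 2))), by decide +kernel⟩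

theorem s3_pp_022 : ∃ t, chk3 f_pp_022 t 2 1 1 = true := ex3_b k0_pp_022 k1_pp_022

theorem s4_pp_022 : ∃ t, chk3 f_pp_022 t 1 1 1 = true := ex3_a s3_pp_022 k2_pp_022

theorem c_pp_022 : CertN 0 536870912 1073741824 536870912 134217728 67108864 3 false true true .pp 0 2 2
    ndN2q0 ndN5q2 pcN2 cut_pp_022 Ext.none :=
  certN1 (fam := false) (s1 := true) (s2 := true) (a := 0) (b := 2) (c := 2) (cn := .pp) (n1 := ndN2q0) (n2 := ndN5q2) (pc := pcN2) (cut := cut_pp_022) (xt := Ext.none) (P1 := 0) (W1 := 536870912) (P2 := 1073741824) (W2 := 536870912) (P3 := 134217728) (W3 := 67108864) (N0 := 3)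
    rfl (fun _ => rfl) s4_pp_022

noncomputable def f_pp_023 : ℕ → ℕ → ℕ → ℕ → Bool := onCell 1073741824 536870912 0 1230186008 134217728 67108864
    (rowN 3 2 false true true .up 0 2 3 (qsf 0 536870912 0 1230186008 2) ndN2q0 ndN5q3 pcN2 Cut.none Ext.none)

def k0_pp_023 : ∃ t, chk3 f_pp_023 t 1 1 1 = true :=
  ⟨(b (a (l 2) (a (l 2) (l 18249424))) (b (a (a (l 2) (a (l 2) (l 18177936))) (l 18158784)) (a (b (a (l 2) (a (a (l 17869696) (l 17891056)) (l 17943368))) (a (a (l 3) (l 17575272)) (a (a (a (l 17652832) (l 17684552)) (l 17736824)) (l 17839792)))) (b (l 18123832) (b (l 18142984) (l 18215296)))))), by decide +kernel⟩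

theorem c_pp_023 : CertN 0 536870912 0 1230186008 134217728 67108864 3 false true true .up 0 2 3
    ndN2q0 ndN5q3 pcN2 Cut.none Ext.none :=
  certN2 (fam := false) (s1 := true) (s2 := true) (a := 0) (b := 2) (c := 3) (cn := .up) (n1 := ndN2q0) (n2 := ndN5q3) (pc := pcN2) (cut := Cut.none) (xt := Ext.none) (P1 := 0) (W1 := 536870912) (P2 := 0) (W2 := 1230186008) (P3 := 134217728) (W3 := 67108864) (N0 := 3)
    rfl (fun _ => rfl) k0_pp_023

noncomputable def f_pp_033 : ℕ → ℕ → ℕ → ℕ → Bool := onCell 0 536870912 0 1230186008 134217728 67108864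
    (rowN 3 0 false true true .pnn 0 3 3 (qsf 0 536870912 0 1230186008 3) ndN2q0 ndN5q3 pcN3 Cut.none Ext.none)

def k0_pp_033 : ∃ t, chk3 f_pp_033 t 1 1 1 = true :=
  ⟨(b (b (a (l 4) (a (l 17789528) (l 17781784))) (a (a (a (a (l 18097848) (l 17815672)) (l 17787328)) (b (l 17811088) (l 17769072))) (a (b (l 17811304) (l 17977664)) (b (l 17818864) (l 17553528))))) (b (a (a (b (b (l 17875560) (l 17910216)) (l 18057840)) (l 17848200)) (l 17632232)) (a (b (a (l 18270216) (l 18065864)) (a (l 18418384) (l 18098944))) (l 1)))), by decide +kernel⟩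

theorem c_pp_033 : CertN 0 536870912 0 1230186008 134217728 67108864 3 false true true .pnn 0 3 3
    ndN2q0 ndN5q3 pcN3 Cut.none Ext.none :=
  certN0 (fam := false) (s1 := true) (s2 := true) (a := 0) (b := 3) (c := 3) (cn := .pnn) (n1 := ndN2q0) (n2 := ndN5q3) (pc := pcN3) (cut := Cut.none) (xt := Ext.none) (P1 := 0) (W1 := 536870912) (P2 := 0) (W2 := 1230186008) (P3 := 134217728) (W3 := 67108864) (N0 := 3)
    rfl k0_pp_033

noncomputable def f_pp_101 : ℕ → ℕ → ℕ → ℕ → Bool := onCell 536870912 536870912 536870912 536870912 134217728 67108864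
    (rowN 3 0 false true true .npn 1 0 1 (qsf 536870912 536870912 536870912 536870912 0) ndN2q1 ndN5q1 pcN0 Cut.none Ext.none)

def k0_pp_101 : ∃ t, chk3 f_pp_101 t 1 1 1 = true :=
  ⟨(l 3), by decide +kernel⟩

theorem c_pp_101 : CertN 536870912 536870912 536870912 536870912 134217728 67108864 3 false true true .npn 1 0 1
    ndN2q1 ndN5q1 pcN0 Cut.none Ext.none :=
  certN0 (fam := false) (s1 := true) (s2 := true) (a := 1) (b := 0) (c := 1) (cn := .npn) (n1 := ndN2q1) (n2 := ndN5q1) (pc := pcN0) (cut := Cut.none) (xt := Ext.none) (P1 := 536870912) (W1 := 536870912) (P2 := 536870912) (W2 := 536870912) (P3 := 134217728) (W3 := 67108864) (N0 := 3)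
    rfl k0_pp_101

noncomputable def f_pp_102 : ℕ → ℕ → ℕ → ℕ → Bool := onCell 536870912 536870912 1073741824 536870912 134217728 67108864
    (rowN 3 0 false true true .npp 1 0 2 (qsf 536870912 536870912 1073741824 536870912 0) ndN2q1 ndN5q2 pcN0 Cut.none Ext.none)

def k0_pp_102 : ∃ t, chk3 f_pp_102 t 1 1 1 = true :=
  ⟨(l 3), by decide +kernel⟩

theorem c_pp_102 : CertN 536870912 536870912 1073741824 536870912 134217728 67108864 3 false true true .npp 1 0 2
    ndN2q1 ndN5q2 pcN0 Cut.none Ext.none :=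
  certN0 (fam := false) (s1 := true) (s2 := true) (a := 1) (b := 0) (c := 2) (cn := .npp) (n1 := ndN2q1) (n2 := ndN5q2) (pc := pcN0) (cut := Cut.none) (xt := Ext.none) (P1 := 536870912) (W1 := 536870912) (P2 := 1073741824) (W2 := 536870912) (P3 := 134217728) (W3 := 67108864) (N0 := 3)
    rfl k0_pp_102

noncomputable def f_pp_112 : ℕ → ℕ → ℕ → ℕ → Bool := onCell 536870912 536870912 1073741824 536870912 134217728 67108864
    (rowN 3 0 false true true .dn 1 1 2 (qsf 536870912 536870912 1073741824 536870912 1) ndN2q1 ndN5q2 pcN1 Cut.none Ext.none)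

def k0_pp_112 : ∃ t, chk3 f_pp_112 t 1 1 1 = true :=
  ⟨(l 3), by decide +kernel⟩

theorem c_pp_112 : CertN 536870912 536870912 1073741824 536870912 134217728 67108864 3 false true true .dn 1 1 2
    ndN2q1 ndN5q2 pcN1 Cut.none Ext.none :=
  certN0 (fam := false) (s1 := true) (s2 := true) (a := 1) (b := 1) (c := 2) (cn := .dn) (n1 := ndN2q1) (n2 := ndN5q2) (pc := pcN1) (cut := Cut.none) (xt := Ext.none) (P1 := 536870912) (W1 := 536870912) (P2 := 1073741824) (W2 := 536870912) (P3 := 134217728) (W3 := 67108864) (N0 := 3)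
    rfl k0_pp_112

noncomputable def f_pp_113 : ℕ → ℕ → ℕ → ℕ → Bool := onCell 536870912 536870912 0 1230186008 134217728 67108864
    (rowN 3 2 false true true .nn 1 1 3 (qsf 536870912 536870912 0 1230186008 1) ndN2q1 ndN5q3 pcN1 Cut.none Ext.none)

def k0_pp_113 : ∃ t, chk3 f_pp_113 t 1 1 1 = true :=
  ⟨(a (b (l 2) (b (b (l 2) (l 3)) (l 3))) (b (a (l 2) (b (a (l 2) (l 17227280)) (l 17677040))) (b (a (b (l 18303456) (l 18262856)) (b (l 17745560) (l 17740224))) (a (l 3) (b (l 17783616) (l 3)))))), by decide +kernel⟩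

theorem c_pp_113 : CertN 536870912 536870912 0 1230186008 134217728 67108864 3 false true true .nn 1 1 3
    ndN2q1 ndN5q3 pcN1 Cut.none Ext.none :=
  certN2 (fam := false) (s1 := true) (s2 := true) (a := 1) (b := 1) (c := 3) (cn := .nn) (n1 := ndN2q1) (n2 := ndN5q3) (pc := pcN1) (cut := Cut.none) (xt := Ext.none) (P1 := 536870912) (W1 := 536870912) (P2 := 0) (W2 := 1230186008) (P3 := 134217728) (W3 := 67108864) (N0 := 3)
    rfl (fun _ => rfl) k0_pp_113

noncomputable def f_pp_123 : ℕ → ℕ → ℕ → ℕ → Bool := onCell 1073741824 536870912 0 1230186008 134217728 67108864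
    (rowN 3 2 false true true .npn 1 2 3 (qsf 536870912 536870912 0 1230186008 2) ndN2q1 ndN5q3 pcN2 Cut.none Ext.none)

def k0_pp_123 : ∃ t, chk3 f_pp_123 t 1 1 1 = true :=
  ⟨(b (a (a (a (b (l 16835264) (l 17102256)) (b (l 16880024) (a (a (l 16991792) (l 16954656)) (l 16908128)))) (b (l 16952064) (a (a (l 16892736) (l 16924664)) (l 16965656)))) (a (b (l 17009528) (l 17063416)) (l 17272728))) (b (a (a (a (l 17380504) (a (a (l 17270816) (l 17278536)) (a (l 17203488) (l 17170680)))) (a (a (a (l 17140792) (l 17111656)) (l 17077072)) (b (l 16944016) (l 17087296)))) (b (l 16977272) (l 16982008))) (a (b (a (b (a (l 17518680) (a (l 17424600) (l 17365840))) (l 17549296)) (a (a (l 17519432) (l 17305568)) (l 17243168))) (a (a (l 3) (l 17617920)) (a (a (l 446712198423) (l 1)) (l 1)))) (l 1)))), by decide +kernel⟩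

theorem c_pp_123 : CertN 536870912 536870912 0 1230186008 134217728 67108864 3 false true true .npn 1 2 3
    ndN2q1 ndN5q3 pcN2 Cut.none Ext.none :=
  certN2 (fam := false) (s1 := true) (s2 := true) (a := 1) (b := 2) (c := 3) (cn := .npn) (n1 := ndN2q1) (n2 := ndN5q3) (pc := pcN2) (cut := Cut.none) (xt := Ext.none) (P1 := 536870912) (W1 := 536870912) (P2 := 0) (W2 := 1230186008) (P3 := 134217728) (W3 := 67108864) (N0 := 3)
    rfl (fun _ => rfl) k0_pp_123

noncomputable def f_pp_133 : ℕ → ℕ → ℕ → ℕ → Bool := onCell 1610612736 536870912 0 1230186008 134217728 67108864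
    (rowN 3 2 false true true .dn 1 3 3 (qsf 536870912 536870912 0 1230186008 3) ndN2q1 ndN5q3 pcN3 Cut.none Ext.none)

def k0_pp_133 : ∃ t, chk3 f_pp_133 t 1 1 1 = true :=
  ⟨(b (a (a (b (l 16999496) (l 1)) (l 1)) (l 1)) (l 1)), by decide +kernel⟩

theorem c_pp_133 : CertN 536870912 536870912 0 1230186008 134217728 67108864 3 false true true .dn 1 3 3
    ndN2q1 ndN5q3 pcN3 Cut.none Ext.none :=
  certN2 (fam := false) (s1 := true) (s2 := true) (a := 1) (b := 3) (c := 3) (cn := .dn) (n1 := ndN2q1) (n2 := ndN5q3) (pc := pcN3) (cut := Cut.none) (xt := Ext.none) (P1 := 536870912) (W1 := 536870912) (P2 := 0) (W2 := 1230186008) (P3 := 134217728) (W3 := 67108864) (N0 := 3)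
    rfl (fun _ => rfl) k0_pp_133

noncomputable def f_pp_202_a : ℕ → ℕ → ℕ → ℕ → Bool := onCell 0 536870912 1073741824 536870912 134217728 67108864
    (rowN 3 0 false true true .pp 2 0 2 (qsf 0 536870912 1073741824 536870912 0) ndN2q2a ndN5q2 pcN0 Cut.none Ext.none)

def k0_pp_202_a : ∃ t, chk3 f_pp_202_a t 1 1 1 = true :=
  ⟨(l 5), by decide +kernel⟩

theorem c_pp_202_a : CertN 0 536870912 1073741824 536870912 134217728 67108864 3 false true true .pp 2 0 2
    ndN2q2a ndN5q2 pcN0 Cut.none Ext.none :=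
  certN0 (fam := false) (s1 := true) (s2 := true) (a := 2) (b := 0) (c := 2) (cn := .pp) (n1 := ndN2q2a) (n2 := ndN5q2) (pc := pcN0) (cut := Cut.none) (xt := Ext.none) (P1 := 0) (W1 := 536870912) (P2 := 1073741824) (W2 := 536870912) (P3 := 134217728) (W3 := 67108864) (N0 := 3)
    rfl k0_pp_202_a

noncomputable def f_pp_202_b : ℕ → ℕ → ℕ → ℕ → Bool := onCell 1239849684 370763052 1073741824 536870912 134217728 67108864
    (rowN 3 0 false true true .pp 2 0 2 (qsf 1239849684 370763052 1073741824 536870912 0) ndN2q2b ndN5q2 pcN0 Cut.none Ext.none)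

def k0_pp_202_b : ∃ t, chk3 f_pp_202_b t 1 1 1 = true :=
  ⟨(l 5), by decide +kernel⟩

theorem c_pp_202_b : CertN 1239849684 370763052 1073741824 536870912 134217728 67108864 3 false true true .pp 2 0 2
    ndN2q2b ndN5q2 pcN0 Cut.none Ext.none :=
  certN0 (fam := false) (s1 := true) (s2 := true) (a := 2) (b := 0) (c := 2) (cn := .pp) (n1 := ndN2q2b) (n2 := ndN5q2) (pc := pcN0) (cut := Cut.none) (xt := Ext.none) (P1 := 1239849684) (W1 := 370763052) (P2 := 1073741824) (W2 := 536870912) (P3 := 134217728) (W3 := 67108864) (N0 := 3)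
    rfl k0_pp_202_b

noncomputable def f_pp_203_a : ℕ → ℕ → ℕ → ℕ → Bool := onCell 0 536870912 0 1230186008 134217728 67108864
    (rowN 3 0 false true true .up 2 0 3 (qsf 0 536870912 0 1230186008 0) ndN2q2a ndN5q3 pcN0 Cut.none Ext.none)

def k0_pp_203_a : ∃ t, chk3 f_pp_203_a t 1 1 1 = true :=
  ⟨(b (l 2) (l 3)), by decide +kernel⟩

theorem c_pp_203_a : CertN 0 536870912 0 1230186008 134217728 67108864 3 false true true .up 2 0 3
    ndN2q2a ndN5q3 pcN0 Cut.none Ext.none :=
  certN0 (fam := false) (s1 := true) (s2 := true) (a := 2) (b := 0) (c := 3) (cn := .up) (n1 := ndN2q2a) (n2 := ndN5q3) (pc := pcN0) (cut := Cut.none) (xt := Ext.none) (P1 := 0) (W1 := 536870912) (P2 := 0) (W2 := 1230186008) (P3 := 134217728) (W3 := 67108864) (N0 := 3)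
    rfl k0_pp_203_a

noncomputable def f_pp_203_b : ℕ → ℕ → ℕ → ℕ → Bool := onCell 1239849684 370763052 0 1230186008 134217728 67108864
    (rowN 3 0 false true true .up 2 0 3 (qsf 1239849684 370763052 0 1230186008 0) ndN2q2b ndN5q3 pcN0 Cut.none Ext.none)

def k0_pp_203_b : ∃ t, chk3 f_pp_203_b t 1 1 1 = true :=
  ⟨(b (l 3) (l 3)), by decide +kernel⟩

theorem c_pp_203_b : CertN 1239849684 370763052 0 1230186008 134217728 67108864 3 false true true .up 2 0 3
    ndN2q2b ndN5q3 pcN0 Cut.none Ext.none :=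
  certN0 (fam := false) (s1 := true) (s2 := true) (a := 2) (b := 0) (c := 3) (cn := .up) (n1 := ndN2q2b) (n2 := ndN5q3) (pc := pcN0) (cut := Cut.none) (xt := Ext.none) (P1 := 1239849684) (W1 := 370763052) (P2 := 0) (W2 := 1230186008) (P3 := 134217728) (W3 := 67108864) (N0 := 3)
    rfl k0_pp_203_b

noncomputable def cut_pp_213_a : Cut := Cut.of [[⟨0, 1, 0, 39843005⟩, ⟨1, 1, 0, 39843005⟩, ⟨2, 2, 0, 5814905⟩]]

noncomputable def f_pp_213_a : ℕ → ℕ → ℕ → ℕ → Bool := onCell 0 536870912 0 1230186008 134217728 67108864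
    (rowN 3 0 false true true .pnn 2 1 3 (qsf 0 536870912 0 1230186008 1) ndN2q2a ndN5q3 pcN1 cut_pp_213_a Ext.none)

def k0_pp_213_a : ∃ t, chk3 f_pp_213_a t 1 1 1 = true :=
  ⟨(b (a (l 3) (b (a (l 3) (b (a (l 3) (a (l 3) (b (l 6) (l 3)))) (l 3))) (l 3))) (l 3)), by decide +kernel⟩

theorem c_pp_213_a : CertN 0 536870912 0 1230186008 134217728 67108864 3 false true true .pnn 2 1 3
    ndN2q2a ndN5q3 pcN1 cut_pp_213_a Ext.none :=
  certN0 (fam := false) (s1 := true) (s2 := true) (a := 2) (b := 1) (c := 3) (cn := .pnn) (n1 := ndN2q2a) (n2 := ndN5q3) (pc := pcN1) (cut := cut_pp_213_a) (xt := Ext.none) (P1 := 0) (W1 := 536870912) (P2 := 0) (W2 := 1230186008) (P3 := 134217728) (W3 := 67108864) (N0 := 3)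
    rfl k0_pp_213_a

noncomputable def cut_pp_213_b : Cut := Cut.of [[⟨0, 1, 0, 39843005⟩, ⟨1, 1, 0, 39843005⟩, ⟨2, 2, 0, 5814905⟩]]

noncomputable def f_pp_213_b : ℕ → ℕ → ℕ → ℕ → Bool := onCell 1239849684 370763052 0 1230186008 134217728 67108864
    (rowN 3 0 false true true .pnn 2 1 3 (qsf 1239849684 370763052 0 1230186008 1) ndN2q2b ndN5q3 pcN1 cut_pp_213_b Ext.none)

def k0_pp_213_b : ∃ t, chk3 f_pp_213_b t 1 1 1 = true :=
  ⟨(b (l 3) (l 3)), by decide +kernel⟩

theorem c_pp_213_b : CertN 1239849684 370763052 0 1230186008 134217728 67108864 3 false true true .pnn 2 1 3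
    ndN2q2b ndN5q3 pcN1 cut_pp_213_b Ext.none :=
  certN0 (fam := false) (s1 := true) (s2 := true) (a := 2) (b := 1) (c := 3) (cn := .pnn) (n1 := ndN2q2b) (n2 := ndN5q3) (pc := pcN1) (cut := cut_pp_213_b) (xt := Ext.none) (P1 := 1239849684) (W1 := 370763052) (P2 := 0) (W2 := 1230186008) (P3 := 134217728) (W3 := 67108864) (N0 := 3)
    rfl k0_pp_213_b

noncomputable def f_pp_303 : ℕ → ℕ → ℕ → ℕ → Bool := onCell 0 536870912 0 1230186008 134217728 67108864
    (rowN 3 2 false true true .npn 3 0 3 (qsf 1610612736 536870912 0 1230186008 0) ndN2q3 ndN5q3 pcN0 Cut.none Ext.none)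

def k0_pp_303 : ∃ t, chk3 f_pp_303 t 1 1 1 = true :=
  ⟨(b (l 3) (l 3)), by decide +kernel⟩

theorem c_pp_303 : CertN 1610612736 536870912 0 1230186008 134217728 67108864 3 false true true .npn 3 0 3
    ndN2q3 ndN5q3 pcN0 Cut.none Ext.none :=
  certN2 (fam := false) (s1 := true) (s2 := true) (a := 3) (b := 0) (c := 3) (cn := .npn) (n1 := ndN2q3) (n2 := ndN5q3) (pc := pcN0) (cut := Cut.none) (xt := Ext.none) (P1 := 1610612736) (W1 := 536870912) (P2 := 0) (W2 := 1230186008) (P3 := 134217728) (W3 := 67108864) (N0 := 3)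
    rfl (fun _ => rfl) k0_pp_303

noncomputable def f_pp_313 : ℕ → ℕ → ℕ → ℕ → Bool := onCell 1610612736 536870912 0 1230186008 134217728 67108864
    (rowN 3 0 false true true .dn 3 1 3 (qsf 1610612736 536870912 0 1230186008 1) ndN2q3 ndN5q3 pcN1 Cut.none Ext.none)

def k0_pp_313 : ∃ t, chk3 f_pp_313 t 1 1 1 = true :=
  ⟨(b (l 3) (l 1)), by decide +kernel⟩

theorem c_pp_313 : CertN 1610612736 536870912 0 1230186008 134217728 67108864 3 false true true .dn 3 1 3
    ndN2q3 ndN5q3 pcN1 Cut.none Ext.none :=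
  certN0 (fam := false) (s1 := true) (s2 := true) (a := 3) (b := 1) (c := 3) (cn := .dn) (n1 := ndN2q3) (n2 := ndN5q3) (pc := pcN1) (cut := Cut.none) (xt := Ext.none) (P1 := 1610612736) (W1 := 536870912) (P2 := 0) (W2 := 1230186008) (P3 := 134217728) (W3 := 67108864) (N0 := 3)
    rfl k0_pp_313

noncomputable def f_pm_001 : ℕ → ℕ → ℕ → ℕ → Bool := onCell 0 536870912 536870912 536870912 134217728 67108864
    (rowN 3 0 false true false .up 0 0 1 (qsf 0 536870912 536870912 536870912 0) ndN2q0 ndN5q1 pcN0 Cut.none Ext.none)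

def k0_pm_001 : ∃ t, chk3 f_pm_001 t 1 1 1 = true :=
  ⟨(l 4), by decide +kernel⟩

theorem c_pm_001 : CertN 0 536870912 536870912 536870912 134217728 67108864 3 false true false .up 0 0 1
    ndN2q0 ndN5q1 pcN0 Cut.none Ext.none :=
  certN0 (fam := false) (s1 := true) (s2 := false) (a := 0) (b := 0) (c := 1) (cn := .up) (n1 := ndN2q0) (n2 := ndN5q1) (pc := pcN0) (cut := Cut.none) (xt := Ext.none) (P1 := 0) (W1 := 536870912) (P2 := 536870912) (W2 := 536870912) (P3 := 134217728) (W3 := 67108864) (N0 := 3)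
    rfl k0_pm_001

noncomputable def f_pm_011 : ℕ → ℕ → ℕ → ℕ → Bool := onCell 0 536870912 536870912 536870912 134217728 67108864
    (rowN 3 0 false true false .pnn 0 1 1 (qsf 0 536870912 536870912 536870912 1) ndN2q0 ndN5q1 pcN1 Cut.none Ext.none)

def k0_pm_011 : ∃ t, chk3 f_pm_011 t 1 1 1 = true :=
  ⟨(l 4), by decide +kernel⟩

theorem c_pm_011 : CertN 0 536870912 536870912 536870912 134217728 67108864 3 false true false .pnn 0 1 1
    ndN2q0 ndN5q1 pcN1 Cut.none Ext.none :=
  certN0 (fam := false) (s1 := true) (s2 := false) (a := 0) (b := 1) (c := 1) (cn := .pnn) (n1 := ndN2q0) (n2 := ndN5q1) (pc := pcN1) (cut := Cut.none) (xt := Ext.none) (P1 := 0) (W1 := 536870912) (P2 := 536870912) (W2 := 536870912) (P3 := 134217728) (W3 := 67108864) (N0 := 3)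
    rfl k0_pm_011

noncomputable def f_pm_012 : ℕ → ℕ → ℕ → ℕ → Bool := onCell 0 536870912 1073741824 536870912 134217728 67108864
    (rowN 3 0 false true false .pnp 0 1 2 (qsf 0 536870912 1073741824 536870912 1) ndN2q0 ndN5q2 pcN1 Cut.none Ext.none)

def k0_pm_012 : ∃ t, chk3 f_pm_012 t 1 1 1 = true :=
  ⟨(l 4), by decide +kernel⟩

theorem c_pm_012 : CertN 0 536870912 1073741824 536870912 134217728 67108864 3 false true false .pnp 0 1 2
    ndN2q0 ndN5q2 pcN1 Cut.none Ext.none :=
  certN0 (fam := false) (s1 := true) (s2 := false) (a := 0) (b := 1) (c := 2) (cn := .pnp) (n1 := ndN2q0) (n2 := ndN5q2) (pc := pcN1) (cut := Cut.none) (xt := Ext.none) (P1 := 0) (W1 := 536870912) (P2 := 1073741824) (W2 := 536870912) (P3 := 134217728) (W3 := 67108864) (N0 := 3)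
    rfl k0_pm_012

noncomputable def f_pm_022 : ℕ → ℕ → ℕ → ℕ → Bool := onCell 0 536870912 1073741824 536870912 134217728 67108864
    (rowN 3 0 false true false .pp 0 2 2 (qsf 0 536870912 1073741824 536870912 2) ndN2q0 ndN5q2 pcN2 Cut.none Ext.none)

def k0_pm_022 : ∃ t, chk3 f_pm_022 t 1 1 1 = true :=
  ⟨(l 4), by decide +kernel⟩

theorem c_pm_022 : CertN 0 536870912 1073741824 536870912 134217728 67108864 3 false true false .pp 0 2 2
    ndN2q0 ndN5q2 pcN2 Cut.none Ext.none :=
  certN0 (fam := false) (s1 := true) (s2 := false) (a := 0) (b := 2) (c := 2) (cn := .pp) (n1 := ndN2q0) (n2 := ndN5q2) (pc := pcN2) (cut := Cut.none) (xt := Ext.none) (P1 := 0) (W1 := 536870912) (P2 := 1073741824) (W2 := 536870912) (P3 := 134217728) (W3 := 67108864) (N0 := 3)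
    rfl k0_pm_022

noncomputable def f_pm_023 : ℕ → ℕ → ℕ → ℕ → Bool := onCell 0 536870912 0 1230186008 134217728 67108864
    (rowN 3 0 false true false .up 0 2 3 (qsf 0 536870912 0 1230186008 2) ndN2q0 ndN5q3 pcN2 Cut.none Ext.none)

def k0_pm_023 : ∃ t, chk3 f_pm_023 t 1 1 1 = true :=
  ⟨(b (l 4) (l 4)), by decide +kernel⟩

theorem c_pm_023 : CertN 0 536870912 0 1230186008 134217728 67108864 3 false true false .up 0 2 3
    ndN2q0 ndN5q3 pcN2 Cut.none Ext.none :=
  certN0 (fam := false) (s1 := true) (s2 := false) (a := 0) (b := 2) (c := 3) (cn := .up) (n1 := ndN2q0) (n2 := ndN5q3) (pc := pcN2) (cut := Cut.none) (xt := Ext.none) (P1 := 0) (W1 := 536870912) (P2 := 0) (W2 := 1230186008) (P3 := 134217728) (W3 := 67108864) (N0 := 3)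
    rfl k0_pm_023

noncomputable def f_pm_033 : ℕ → ℕ → ℕ → ℕ → Bool := onCell 0 536870912 0 1230186008 134217728 67108864
    (rowN 3 0 false true false .pnn 0 3 3 (qsf 0 536870912 0 1230186008 3) ndN2q0 ndN5q3 pcN3 Cut.none Ext.none)

def k0_pm_033 : ∃ t, chk3 f_pm_033 t 1 1 1 = true :=
  ⟨(b (l 4) (l 4)), by decide +kernel⟩

theorem c_pm_033 : CertN 0 536870912 0 1230186008 134217728 67108864 3 false true false .pnn 0 3 3
    ndN2q0 ndN5q3 pcN3 Cut.none Ext.none :=
  certN0 (fam := false) (s1 := true) (s2 := false) (a := 0) (b := 3) (c := 3) (cn := .pnn) (n1 := ndN2q0) (n2 := ndN5q3) (pc := pcN3) (cut := Cut.none) (xt := Ext.none) (P1 := 0) (W1 := 536870912) (P2 := 0) (W2 := 1230186008) (P3 := 134217728) (W3 := 67108864) (N0 := 3)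
    rfl k0_pm_033

noncomputable def f_pm_101 : ℕ → ℕ → ℕ → ℕ → Bool := onCell 536870912 536870912 536870912 536870912 134217728 67108864
    (rowN 3 0 false true false .npn 1 0 1 (qsf 536870912 536870912 536870912 536870912 0) ndN2q1 ndN5q1 pcN0 Cut.none Ext.none)

def k0_pm_101 : ∃ t, chk3 f_pm_101 t 1 1 1 = true :=
  ⟨(l 4), by decide +kernel⟩

theorem c_pm_101 : CertN 536870912 536870912 536870912 536870912 134217728 67108864 3 false true false .npn 1 0 1
    ndN2q1 ndN5q1 pcN0 Cut.none Ext.none :=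
  certN0 (fam := false) (s1 := true) (s2 := false) (a := 1) (b := 0) (c := 1) (cn := .npn) (n1 := ndN2q1) (n2 := ndN5q1) (pc := pcN0) (cut := Cut.none) (xt := Ext.none) (P1 := 536870912) (W1 := 536870912) (P2 := 536870912) (W2 := 536870912) (P3 := 134217728) (W3 := 67108864) (N0 := 3)
    rfl k0_pm_101

noncomputable def f_pm_102 : ℕ → ℕ → ℕ → ℕ → Bool := onCell 536870912 536870912 1073741824 536870912 134217728 67108864
    (rowN 3 0 false true false .npp 1 0 2 (qsf 536870912 536870912 1073741824 536870912 0) ndN2q1 ndN5q2 pcN0 Cut.none Ext.none)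

def k0_pm_102 : ∃ t, chk3 f_pm_102 t 1 1 1 = true :=
  ⟨(l 4), by decide +kernel⟩

theorem c_pm_102 : CertN 536870912 536870912 1073741824 536870912 134217728 67108864 3 false true false .npp 1 0 2
    ndN2q1 ndN5q2 pcN0 Cut.none Ext.none :=
  certN0 (fam := false) (s1 := true) (s2 := false) (a := 1) (b := 0) (c := 2) (cn := .npp) (n1 := ndN2q1) (n2 := ndN5q2) (pc := pcN0) (cut := Cut.none) (xt := Ext.none) (P1 := 536870912) (W1 := 536870912) (P2 := 1073741824) (W2 := 536870912) (P3 := 134217728) (W3 := 67108864) (N0 := 3)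
    rfl k0_pm_102

noncomputable def f_pm_112 : ℕ → ℕ → ℕ → ℕ → Bool := onCell 536870912 536870912 1073741824 536870912 134217728 67108864
    (rowN 3 0 false true false .dn 1 1 2 (qsf 536870912 536870912 1073741824 536870912 1) ndN2q1 ndN5q2 pcN1 Cut.none Ext.none)

def k0_pm_112 : ∃ t, chk3 f_pm_112 t 1 1 1 = true :=
  ⟨(l 4), by decide +kernel⟩

theorem c_pm_112 : CertN 536870912 536870912 1073741824 536870912 134217728 67108864 3 false true false .dn 1 1 2
    ndN2q1 ndN5q2 pcN1 Cut.none Ext.none :=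
  certN0 (fam := false) (s1 := true) (s2 := false) (a := 1) (b := 1) (c := 2) (cn := .dn) (n1 := ndN2q1) (n2 := ndN5q2) (pc := pcN1) (cut := Cut.none) (xt := Ext.none) (P1 := 536870912) (W1 := 536870912) (P2 := 1073741824) (W2 := 536870912) (P3 := 134217728) (W3 := 67108864) (N0 := 3)
    rfl k0_pm_112

noncomputable def f_pm_113 : ℕ → ℕ → ℕ → ℕ → Bool := onCell 536870912 536870912 0 1230186008 134217728 67108864
    (rowN 3 0 false true false .nn 1 1 3 (qsf 536870912 536870912 0 1230186008 1) ndN2q1 ndN5q3 pcN1 Cut.none Ext.none)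

def k0_pm_113 : ∃ t, chk3 f_pm_113 t 1 1 1 = true :=
  ⟨(b (b (a (l 2) (l 17220136)) (l 4)) (l 4)), by decide +kernel⟩

theorem c_pm_113 : CertN 536870912 536870912 0 1230186008 134217728 67108864 3 false true false .nn 1 1 3
    ndN2q1 ndN5q3 pcN1 Cut.none Ext.none :=
  certN0 (fam := false) (s1 := true) (s2 := false) (a := 1) (b := 1) (c := 3) (cn := .nn) (n1 := ndN2q1) (n2 := ndN5q3) (pc := pcN1) (cut := Cut.none) (xt := Ext.none) (P1 := 536870912) (W1 := 536870912) (P2 := 0) (W2 := 1230186008) (P3 := 134217728) (W3 := 67108864) (N0 := 3)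
    rfl k0_pm_113

noncomputable def f_pm_123 : ℕ → ℕ → ℕ → ℕ → Bool := onCell 1073741824 536870912 0 1230186008 134217728 67108864
    (rowN 3 2 false true false .npn 1 2 3 (qsf 536870912 536870912 0 1230186008 2) ndN2q1 ndN5q3 pcN2 Cut.none Ext.none)

def k0_pm_123 : ∃ t, chk3 f_pm_123 t 1 1 1 = true :=
  ⟨(b (a (a (l 17052936) (l 16938488)) (l 4)) (l 4)), by decide +kernel⟩

theorem c_pm_123 : CertN 536870912 536870912 0 1230186008 134217728 67108864 3 false true false .npn 1 2 3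
    ndN2q1 ndN5q3 pcN2 Cut.none Ext.none :=
  certN2 (fam := false) (s1 := true) (s2 := false) (a := 1) (b := 2) (c := 3) (cn := .npn) (n1 := ndN2q1) (n2 := ndN5q3) (pc := pcN2) (cut := Cut.none) (xt := Ext.none) (P1 := 536870912) (W1 := 536870912) (P2 := 0) (W2 := 1230186008) (P3 := 134217728) (W3 := 67108864) (N0 := 3)
    rfl (fun _ => rfl) k0_pm_123

noncomputable def f_pm_133 : ℕ → ℕ → ℕ → ℕ → Bool := onCell 536870912 536870912 0 1230186008 134217728 67108864
    (rowN 3 0 false true false .dn 1 3 3 (qsf 536870912 536870912 0 1230186008 3) ndN2q1 ndN5q3 pcN3 Cut.none Ext.none)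

def k0_pm_133 : ∃ t, chk3 f_pm_133 t 1 1 1 = true :=
  ⟨(a (b (l 4) (l 1)) (l 1)), by decide +kernel⟩

theorem c_pm_133 : CertN 536870912 536870912 0 1230186008 134217728 67108864 3 false true false .dn 1 3 3
    ndN2q1 ndN5q3 pcN3 Cut.none Ext.none :=
  certN0 (fam := false) (s1 := true) (s2 := false) (a := 1) (b := 3) (c := 3) (cn := .dn) (n1 := ndN2q1) (n2 := ndN5q3) (pc := pcN3) (cut := Cut.none) (xt := Ext.none) (P1 := 536870912) (W1 := 536870912) (P2 := 0) (W2 := 1230186008) (P3 := 134217728) (W3 := 67108864) (N0 := 3)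
    rfl k0_pm_133

noncomputable def f_pm_202_a : ℕ → ℕ → ℕ → ℕ → Bool := onCell 0 536870912 1073741824 536870912 134217728 67108864
    (rowN 3 0 false true false .pp 2 0 2 (qsf 0 536870912 1073741824 536870912 0) ndN2q2a ndN5q2 pcN0 Cut.none Ext.none)

def k0_pm_202_a : ∃ t, chk3 f_pm_202_a t 1 1 1 = true :=
  ⟨(b (l 4) (a (b (l 18538584) (b (l 18167072) (l 17794256))) (b (l 4) (a (b (l 18307072) (l 17949128)) (b (l 18441768) (l 18139712)))))), by decide +kernel⟩

theorem c_pm_202_a : CertN 0 536870912 1073741824 536870912 134217728 67108864 3 false true false .pp 2 0 2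
    ndN2q2a ndN5q2 pcN0 Cut.none Ext.none :=
  certN0 (fam := false) (s1 := true) (s2 := false) (a := 2) (b := 0) (c := 2) (cn := .pp) (n1 := ndN2q2a) (n2 := ndN5q2) (pc := pcN0) (cut := Cut.none) (xt := Ext.none) (P1 := 0) (W1 := 536870912) (P2 := 1073741824) (W2 := 536870912) (P3 := 134217728) (W3 := 67108864) (N0 := 3)
    rfl k0_pm_202_a

noncomputable def f_pm_202_b : ℕ → ℕ → ℕ → ℕ → Bool := onCell 0 536870912 1073741824 536870912 134217728 67108864
    (rowN 3 2 false true false .pp 2 0 2 (qsf 1239849684 370763052 1073741824 536870912 0) ndN2q2b ndN5q2 pcN0 Cut.none Ext.none)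

def k0_pm_202_b : ∃ t, chk3 f_pm_202_b t 1 1 1 = true :=
  ⟨(b (l 4) (a (b (a (l 18457720) (l 18519648)) (a (l 17883248) (l 17914664))) (b (l 1) (a (l 272229816983) (l 1))))), by decide +kernel⟩

theorem c_pm_202_b : CertN 1239849684 370763052 1073741824 536870912 134217728 67108864 3 false true false .pp 2 0 2
    ndN2q2b ndN5q2 pcN0 Cut.none Ext.none :=
  certN2 (fam := false) (s1 := true) (s2 := false) (a := 2) (b := 0) (c := 2) (cn := .pp) (n1 := ndN2q2b) (n2 := ndN5q2) (pc := pcN0) (cut := Cut.none) (xt := Ext.none) (P1 := 1239849684) (W1 := 370763052) (P2 := 1073741824) (W2 := 536870912) (P3 := 134217728) (W3 := 67108864) (N0 := 3)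
    rfl (fun _ => rfl) k0_pm_202_b

noncomputable def f_pm_203_a : ℕ → ℕ → ℕ → ℕ → Bool := onCell 0 536870912 0 1230186008 134217728 67108864
    (rowN 3 0 false true false .up 2 0 3 (qsf 0 536870912 0 1230186008 0) ndN2q2a ndN5q3 pcN0 Cut.none Ext.none)

def k0_pm_203_a : ∃ t, chk3 f_pm_203_a t 1 1 1 = true :=
  ⟨(b (l 2) (b (l 2) (b (a (l 17754712) (l 2)) (a (b (l 17702776) (l 17489992)) (a (b (l 17566536) (l 17394408)) (b (b (l 2) (l 17418744)) (b (l 17306256) (l 17705696)))))))), by decide +kernel⟩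

theorem c_pm_203_a : CertN 0 536870912 0 1230186008 134217728 67108864 3 false true false .up 2 0 3
    ndN2q2a ndN5q3 pcN0 Cut.none Ext.none :=
  certN0 (fam := false) (s1 := true) (s2 := false) (a := 2) (b := 0) (c := 3) (cn := .up) (n1 := ndN2q2a) (n2 := ndN5q3) (pc := pcN0) (cut := Cut.none) (xt := Ext.none) (P1 := 0) (W1 := 536870912) (P2 := 0) (W2 := 1230186008) (P3 := 134217728) (W3 := 67108864) (N0 := 3)
    rfl k0_pm_203_a

noncomputable def f_pm_203_b : ℕ → ℕ → ℕ → ℕ → Bool := onCell 1239849684 370763052 0 1230186008 134217728 67108864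
    (rowN 3 0 false true false .up 2 0 3 (qsf 1239849684 370763052 0 1230186008 0) ndN2q2b ndN5q3 pcN0 Cut.none Ext.none)

def k0_pm_203_b : ∃ t, chk3 f_pm_203_b t 1 1 1 = true :=
  ⟨(b (a (l 2) (b (l 3) (a (b (l 2) (l 17358552)) (b (l 3) (l 218676081399))))) (b (a (b (a (l 2) (l 17556416)) (b (l 17840768) (l 17830080))) (b (a (l 17577880) (l 17784960)) (b (l 18002672) (l 17926880)))) (b (a (b (l 17889688) (l 17773744)) (b (l 18064112) (l 18108496))) (b (a (l 17870488) (l 17793312)) (a (l 17618656) (l 17934296)))))), by decide +kernel⟩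

theorem c_pm_203_b : CertN 1239849684 370763052 0 1230186008 134217728 67108864 3 false true false .up 2 0 3
    ndN2q2b ndN5q3 pcN0 Cut.none Ext.none :=
  certN0 (fam := false) (s1 := true) (s2 := false) (a := 2) (b := 0) (c := 3) (cn := .up) (n1 := ndN2q2b) (n2 := ndN5q3) (pc := pcN0) (cut := Cut.none) (xt := Ext.none) (P1 := 1239849684) (W1 := 370763052) (P2 := 0) (W2 := 1230186008) (P3 := 134217728) (W3 := 67108864) (N0 := 3)
    rfl k0_pm_203_b

noncomputable def cut_pm_213_a : Cut := Cut.of [[⟨0, 1, 0, 39843005⟩, ⟨1, 1, 0, 39843005⟩, ⟨2, 2, 0, 5814905⟩]]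

noncomputable def f_pm_213_a : ℕ → ℕ → ℕ → ℕ → Bool := onCell 0 536870912 0 1230186008 134217728 67108864
    (rowN 3 0 false true false .pnn 2 1 3 (qsf 0 536870912 0 1230186008 1) ndN2q2a ndN5q3 pcN1 cut_pm_213_a Ext.none)

def k0_pm_213_a : ∃ t, chk3 f_pm_213_a t 1 1 1 = true :=
  ⟨(b (a (b (b (l 3) (l 256255894295)) (b (l 16901976) (l 16936344))) (b (b (a (l 284172601511) (a (l 263771548103) (b (a (l 268603266791) (l 6)) (l 16812048)))) (a (l 16891840) (l 16994760))) (b (a (l 16895376) (l 16900904)) (a (l 16937408) (l 16936752))))) (b (a (b (l 16926904) (l 17073336)) (b (a (l 16923392) (l 16948784)) (l 17210320))) (b (a (l 17439856) (b (l 17500152) (l 17773392))) (a (l 17859520) (b (l 18000616) (l 18151384)))))), by decide +kernel⟩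

theorem c_pm_213_a : CertN 0 536870912 0 1230186008 134217728 67108864 3 false true false .pnn 2 1 3
    ndN2q2a ndN5q3 pcN1 cut_pm_213_a Ext.none :=
  certN0 (fam := false) (s1 := true) (s2 := false) (a := 2) (b := 1) (c := 3) (cn := .pnn) (n1 := ndN2q2a) (n2 := ndN5q3) (pc := pcN1) (cut := cut_pm_213_a) (xt := Ext.none) (P1 := 0) (W1 := 536870912) (P2 := 0) (W2 := 1230186008) (P3 := 134217728) (W3 := 67108864) (N0 := 3)
    rfl k0_pm_213_a

noncomputable def cut_pm_213_b : Cut := Cut.of [[⟨0, 1, 0, 39843005⟩, ⟨1, 1, 0, 39843005⟩, ⟨2, 2, 0, 5814905⟩]]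

noncomputable def f_pm_213_b : ℕ → ℕ → ℕ → ℕ → Bool := onCell 536870912 536870912 0 1230186008 134217728 67108864
    (rowN 3 2 false true false .pnn 2 1 3 (qsf 1239849684 370763052 0 1230186008 1) ndN2q2b ndN5q3 pcN1 cut_pm_213_b Ext.none)

def k0_pm_213_b : ∃ t, chk3 f_pm_213_b t 1 1 1 = true :=
  ⟨(b (a (b (l 3) (a (a (l 200958637799) (l 184315571847)) (b (l 192905477431) (l 16999464)))) (a (b (b (l 3) (a (l 17126728) (l 17013560))) (a (l 17115296) (l 85933631127))) (l 1))) (b (a (a (b (l 17052480) (l 16975176)) (b (l 16929776) (l 17125032))) (l 1)) (a (b (a (l 17437376) (l 1)) (l 1)) (l 1)))), by decide +kernel⟩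

theorem c_pm_213_b : CertN 1239849684 370763052 0 1230186008 134217728 67108864 3 false true false .pnn 2 1 3
    ndN2q2b ndN5q3 pcN1 cut_pm_213_b Ext.none :=
  certN2 (fam := false) (s1 := true) (s2 := false) (a := 2) (b := 1) (c := 3) (cn := .pnn) (n1 := ndN2q2b) (n2 := ndN5q3) (pc := pcN1) (cut := cut_pm_213_b) (xt := Ext.none) (P1 := 1239849684) (W1 := 370763052) (P2 := 0) (W2 := 1230186008) (P3 := 134217728) (W3 := 67108864) (N0 := 3)
    rfl (fun _ => rfl) k0_pm_213_b

noncomputable def f_pm_303 : ℕ → ℕ → ℕ → ℕ → Bool := onCell 0 536870912 0 1230186008 134217728 67108864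
    (rowN 3 2 false true false .npn 3 0 3 (qsf 1610612736 536870912 0 1230186008 0) ndN2q3 ndN5q3 pcN0 Cut.none Ext.none)

def k0_pm_303 : ∃ t, chk3 f_pm_303 t 1 1 1 = true :=
  ⟨(b (a (l 3) (b (l 3) (a (l 3) (a (l 228875825095) (l 208474641879))))) (a (b (b (a (l 3) (l 17516712)) (a (a (l 18086024) (l 17855848)) (l 17720640))) (b (a (l 17705640) (l 17771096)) (b (l 17497744) (l 17444464)))) (b (a (l 17666504) (b (l 17190096) (l 1))) (l 1)))), by decide +kernel⟩

theorem c_pm_303 : CertN 1610612736 536870912 0 1230186008 134217728 67108864 3 false true false .npn 3 0 3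
    ndN2q3 ndN5q3 pcN0 Cut.none Ext.none :=
  certN2 (fam := false) (s1 := true) (s2 := false) (a := 3) (b := 0) (c := 3) (cn := .npn) (n1 := ndN2q3) (n2 := ndN5q3) (pc := pcN0) (cut := Cut.none) (xt := Ext.none) (P1 := 1610612736) (W1 := 536870912) (P2 := 0) (W2 := 1230186008) (P3 := 134217728) (W3 := 67108864) (N0 := 3)
    rfl (fun _ => rfl) k0_pm_303

noncomputable def f_pm_313 : ℕ → ℕ → ℕ → ℕ → Bool := onCell 1610612736 536870912 0 1230186008 134217728 67108864
    (rowN 3 0 false true false .dn 3 1 3 (qsf 1610612736 536870912 0 1230186008 1) ndN2q3 ndN5q3 pcN1 Cut.none Ext.none)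

def k0_pm_313 : ∃ t, chk3 f_pm_313 t 1 1 1 = true :=
  ⟨(b (b (l 3) (l 1)) (l 1)), by decide +kernel⟩

theorem c_pm_313 : CertN 1610612736 536870912 0 1230186008 134217728 67108864 3 false true false .dn 3 1 3
    ndN2q3 ndN5q3 pcN1 Cut.none Ext.none :=
  certN0 (fam := false) (s1 := true) (s2 := false) (a := 3) (b := 1) (c := 3) (cn := .dn) (n1 := ndN2q3) (n2 := ndN5q3) (pc := pcN1) (cut := Cut.none) (xt := Ext.none) (P1 := 1610612736) (W1 := 536870912) (P2 := 0) (W2 := 1230186008) (P3 := 134217728) (W3 := 67108864) (N0 := 3)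
    rfl k0_pm_313

noncomputable def f_mm_001 : ℕ → ℕ → ℕ → ℕ → Bool := onCell 0 536870912 0 536870912 134217728 67108864
    (rowN 3 1 false false false .up 0 0 1 (qsf 0 536870912 536870912 536870912 0) ndN2q0 ndN5q1 pcN0 Cut.none Ext.none)

def k0_mm_001 : ∃ t, chk3 f_mm_001 t 1 1 1 = true :=
  ⟨(l 3), by decide +kernel⟩

theorem c_mm_001 : CertN 0 536870912 536870912 536870912 134217728 67108864 3 false false false .up 0 0 1
    ndN2q0 ndN5q1 pcN0 Cut.none Ext.none :=
  certN1 (fam := false) (s1 := false) (s2 := false) (a := 0) (b := 0) (c := 1) (cn := .up) (n1 := ndN2q0) (n2 := ndN5q1) (pc := pcN0) (cut := Cut.none) (xt := Ext.none) (P1 := 0) (W1 := 536870912) (P2 := 536870912) (W2 := 536870912) (P3 := 134217728) (W3 := 67108864) (N0 := 3)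
    rfl (fun _ => rfl) k0_mm_001

noncomputable def f_mm_011 : ℕ → ℕ → ℕ → ℕ → Bool := onCell 0 536870912 536870912 536870912 134217728 67108864
    (rowN 3 1 false false false .pnn 0 1 1 (qsf 0 536870912 536870912 536870912 1) ndN2q0 ndN5q1 pcN1 Cut.none Ext.none)

def k0_mm_011 : ∃ t, chk3 f_mm_011 t 1 1 1 = true :=
  ⟨(l 5), by decide +kernel⟩

theorem c_mm_011 : CertN 0 536870912 536870912 536870912 134217728 67108864 3 false false false .pnn 0 1 1
    ndN2q0 ndN5q1 pcN1 Cut.none Ext.none :=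
  certN1 (fam := false) (s1 := false) (s2 := false) (a := 0) (b := 1) (c := 1) (cn := .pnn) (n1 := ndN2q0) (n2 := ndN5q1) (pc := pcN1) (cut := Cut.none) (xt := Ext.none) (P1 := 0) (W1 := 536870912) (P2 := 536870912) (W2 := 536870912) (P3 := 134217728) (W3 := 67108864) (N0 := 3)
    rfl (fun _ => rfl) k0_mm_011

noncomputable def f_mm_012 : ℕ → ℕ → ℕ → ℕ → Bool := onCell 0 536870912 1073741824 536870912 134217728 67108864
    (rowN 3 0 false false false .pnp 0 1 2 (qsf 0 536870912 1073741824 536870912 1) ndN2q0 ndN5q2 pcN1 Cut.none Ext.none)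

def k0_mm_012 : ∃ t, chk3 f_mm_012 t 1 1 1 = true :=
  ⟨(l 5), by decide +kernel⟩

theorem c_mm_012 : CertN 0 536870912 1073741824 536870912 134217728 67108864 3 false false false .pnp 0 1 2
    ndN2q0 ndN5q2 pcN1 Cut.none Ext.none :=
  certN0 (fam := false) (s1 := false) (s2 := false) (a := 0) (b := 1) (c := 2) (cn := .pnp) (n1 := ndN2q0) (n2 := ndN5q2) (pc := pcN1) (cut := Cut.none) (xt := Ext.none) (P1 := 0) (W1 := 536870912) (P2 := 1073741824) (W2 := 536870912) (P3 := 134217728) (W3 := 67108864) (N0 := 3)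
    rfl k0_mm_012

noncomputable def f_mm_022 : ℕ → ℕ → ℕ → ℕ → Bool := onCell 0 536870912 1073741824 536870912 134217728 67108864
    (rowN 3 0 false false false .pp 0 2 2 (qsf 0 536870912 1073741824 536870912 2) ndN2q0 ndN5q2 pcN2 Cut.none Ext.none)

def k0_mm_022 : ∃ t, chk3 f_mm_022 t 1 1 1 = true :=
  ⟨(l 5), by decide +kernel⟩

theorem c_mm_022 : CertN 0 536870912 1073741824 536870912 134217728 67108864 3 false false false .pp 0 2 2
    ndN2q0 ndN5q2 pcN2 Cut.none Ext.none :=
  certN0 (fam := false) (s1 := false) (s2 := false) (a := 0) (b := 2) (c := 2) (cn := .pp) (n1 := ndN2q0) (n2 := ndN5q2) (pc := pcN2) (cut := Cut.none) (xt := Ext.none) (P1 := 0) (W1 := 536870912) (P2 := 1073741824) (W2 := 536870912) (P3 := 134217728) (W3 := 67108864) (N0 := 3)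
    rfl k0_mm_022

noncomputable def f_mm_023 : ℕ → ℕ → ℕ → ℕ → Bool := onCell 0 536870912 0 1230186008 134217728 67108864
    (rowN 3 0 false false false .up 0 2 3 (qsf 0 536870912 0 1230186008 2) ndN2q0 ndN5q3 pcN2 Cut.none Ext.none)

def k0_mm_023 : ∃ t, chk3 f_mm_023 t 1 1 1 = true :=
  ⟨(l 5), by decide +kernel⟩

theorem c_mm_023 : CertN 0 536870912 0 1230186008 134217728 67108864 3 false false false .up 0 2 3
    ndN2q0 ndN5q3 pcN2 Cut.none Ext.none :=
  certN0 (fam := false) (s1 := false) (s2 := false) (a := 0) (b := 2) (c := 3) (cn := .up) (n1 := ndN2q0) (n2 := ndN5q3) (pc := pcN2) (cut := Cut.none) (xt := Ext.none) (P1 := 0) (W1 := 536870912) (P2 := 0) (W2 := 1230186008) (P3 := 134217728) (W3 := 67108864) (N0 := 3)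
    rfl k0_mm_023

noncomputable def f_mm_033 : ℕ → ℕ → ℕ → ℕ → Bool := onCell 0 536870912 0 1230186008 134217728 67108864
    (rowN 3 0 false false false .pnn 0 3 3 (qsf 0 536870912 0 1230186008 3) ndN2q0 ndN5q3 pcN3 Cut.none Ext.none)

def k0_mm_033 : ∃ t, chk3 f_mm_033 t 1 1 1 = true :=
  ⟨(l 5), by decide +kernel⟩

theorem c_mm_033 : CertN 0 536870912 0 1230186008 134217728 67108864 3 false false false .pnn 0 3 3
    ndN2q0 ndN5q3 pcN3 Cut.none Ext.none :=
  certN0 (fam := false) (s1 := false) (s2 := false) (a := 0) (b := 3) (c := 3) (cn := .pnn) (n1 := ndN2q0) (n2 := ndN5q3) (pc := pcN3) (cut := Cut.none) (xt := Ext.none) (P1 := 0) (W1 := 536870912) (P2 := 0) (W2 := 1230186008) (P3 := 134217728) (W3 := 67108864) (N0 := 3)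
    rfl k0_mm_033

noncomputable def f_mm_101 : ℕ → ℕ → ℕ → ℕ → Bool := onCell 536870912 536870912 536870912 536870912 134217728 67108864
    (rowN 3 0 false false false .npn 1 0 1 (qsf 536870912 536870912 536870912 536870912 0) ndN2q1 ndN5q1 pcN0 Cut.none Ext.none)

def k0_mm_101 : ∃ t, chk3 f_mm_101 t 1 1 1 = true :=
  ⟨(l 3), by decide +kernel⟩

theorem c_mm_101 : CertN 536870912 536870912 536870912 536870912 134217728 67108864 3 false false false .npn 1 0 1
    ndN2q1 ndN5q1 pcN0 Cut.none Ext.none :=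
  certN0 (fam := false) (s1 := false) (s2 := false) (a := 1) (b := 0) (c := 1) (cn := .npn) (n1 := ndN2q1) (n2 := ndN5q1) (pc := pcN0) (cut := Cut.none) (xt := Ext.none) (P1 := 536870912) (W1 := 536870912) (P2 := 536870912) (W2 := 536870912) (P3 := 134217728) (W3 := 67108864) (N0 := 3)
    rfl k0_mm_101

noncomputable def f_mm_102 : ℕ → ℕ → ℕ → ℕ → Bool := onCell 536870912 536870912 1073741824 536870912 134217728 67108864
    (rowN 3 0 false false false .npp 1 0 2 (qsf 536870912 536870912 1073741824 536870912 0) ndN2q1 ndN5q2 pcN0 Cut.none Ext.none)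

def k0_mm_102 : ∃ t, chk3 f_mm_102 t 1 1 1 = true :=
  ⟨(l 3), by decide +kernel⟩

theorem c_mm_102 : CertN 536870912 536870912 1073741824 536870912 134217728 67108864 3 false false false .npp 1 0 2
    ndN2q1 ndN5q2 pcN0 Cut.none Ext.none :=
  certN0 (fam := false) (s1 := false) (s2 := false) (a := 1) (b := 0) (c := 2) (cn := .npp) (n1 := ndN2q1) (n2 := ndN5q2) (pc := pcN0) (cut := Cut.none) (xt := Ext.none) (P1 := 536870912) (W1 := 536870912) (P2 := 1073741824) (W2 := 536870912) (P3 := 134217728) (W3 := 67108864) (N0 := 3)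
    rfl k0_mm_102

noncomputable def f_mm_112 : ℕ → ℕ → ℕ → ℕ → Bool := onCell 536870912 536870912 1073741824 536870912 134217728 67108864
    (rowN 3 0 false false false .dn 1 1 2 (qsf 536870912 536870912 1073741824 536870912 1) ndN2q1 ndN5q2 pcN1 Cut.none Ext.none)

def k0_mm_112 : ∃ t, chk3 f_mm_112 t 1 1 1 = true :=
  ⟨(l 3), by decide +kernel⟩

theorem c_mm_112 : CertN 536870912 536870912 1073741824 536870912 134217728 67108864 3 false false false .dn 1 1 2
    ndN2q1 ndN5q2 pcN1 Cut.none Ext.none :=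
  certN0 (fam := false) (s1 := false) (s2 := false) (a := 1) (b := 1) (c := 2) (cn := .dn) (n1 := ndN2q1) (n2 := ndN5q2) (pc := pcN1) (cut := Cut.none) (xt := Ext.none) (P1 := 536870912) (W1 := 536870912) (P2 := 1073741824) (W2 := 536870912) (P3 := 134217728) (W3 := 67108864) (N0 := 3)
    rfl k0_mm_112

noncomputable def f_mm_113 : ℕ → ℕ → ℕ → ℕ → Bool := onCell 536870912 536870912 0 1230186008 134217728 67108864
    (rowN 3 0 false false false .nn 1 1 3 (qsf 536870912 536870912 0 1230186008 1) ndN2q1 ndN5q3 pcN1 Cut.none Ext.none)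

def k0_mm_113 : ∃ t, chk3 f_mm_113 t 1 1 1 = true :=
  ⟨(l 5), by decide +kernel⟩

theorem c_mm_113 : CertN 536870912 536870912 0 1230186008 134217728 67108864 3 false false false .nn 1 1 3
    ndN2q1 ndN5q3 pcN1 Cut.none Ext.none :=
  certN0 (fam := false) (s1 := false) (s2 := false) (a := 1) (b := 1) (c := 3) (cn := .nn) (n1 := ndN2q1) (n2 := ndN5q3) (pc := pcN1) (cut := Cut.none) (xt := Ext.none) (P1 := 536870912) (W1 := 536870912) (P2 := 0) (W2 := 1230186008) (P3 := 134217728) (W3 := 67108864) (N0 := 3)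
    rfl k0_mm_113

noncomputable def f_mm_123 : ℕ → ℕ → ℕ → ℕ → Bool := onCell 536870912 536870912 0 1230186008 134217728 67108864
    (rowN 3 0 false false false .npn 1 2 3 (qsf 536870912 536870912 0 1230186008 2) ndN2q1 ndN5q3 pcN2 Cut.none Ext.none)

def k0_mm_123 : ∃ t, chk3 f_mm_123 t 1 1 1 = true :=
  ⟨(l 5), by decide +kernel⟩

theorem c_mm_123 : CertN 536870912 536870912 0 1230186008 134217728 67108864 3 false false false .npn 1 2 3
    ndN2q1 ndN5q3 pcN2 Cut.none Ext.none :=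
  certN0 (fam := false) (s1 := false) (s2 := false) (a := 1) (b := 2) (c := 3) (cn := .npn) (n1 := ndN2q1) (n2 := ndN5q3) (pc := pcN2) (cut := Cut.none) (xt := Ext.none) (P1 := 536870912) (W1 := 536870912) (P2 := 0) (W2 := 1230186008) (P3 := 134217728) (W3 := 67108864) (N0 := 3)
    rfl k0_mm_123

noncomputable def f_mm_133 : ℕ → ℕ → ℕ → ℕ → Bool := onCell 536870912 536870912 0 1230186008 134217728 67108864
    (rowN 3 0 false false false .dn 1 3 3 (qsf 536870912 536870912 0 1230186008 3) ndN2q1 ndN5q3 pcN3 Cut.none Ext.none)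

def k0_mm_133 : ∃ t, chk3 f_mm_133 t 1 1 1 = true :=
  ⟨(l 5), by decide +kernel⟩

theorem c_mm_133 : CertN 536870912 536870912 0 1230186008 134217728 67108864 3 false false false .dn 1 3 3
    ndN2q1 ndN5q3 pcN3 Cut.none Ext.none :=
  certN0 (fam := false) (s1 := false) (s2 := false) (a := 1) (b := 3) (c := 3) (cn := .dn) (n1 := ndN2q1) (n2 := ndN5q3) (pc := pcN3) (cut := Cut.none) (xt := Ext.none) (P1 := 536870912) (W1 := 536870912) (P2 := 0) (W2 := 1230186008) (P3 := 134217728) (W3 := 67108864) (N0 := 3)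
    rfl k0_mm_133

noncomputable def cut_mm_202_a : Cut := Cut.of [[⟨0, 1, 0, 67108864⟩, ⟨1, 0, 0, 67108864⟩, ⟨2, 1, 0, 67108864⟩]]

noncomputable def f_mm_202_a : ℕ → ℕ → ℕ → ℕ → Bool := onCell 0 536870912 0 536870912 134217728 67108864
    (rowN 3 1 false false false .pp 2 0 2 (qsf 0 536870912 1073741824 536870912 0) ndN2q2a ndN5q2 pcN0 cut_mm_202_a Ext.none)

def k0_mm_202_a : ∃ t, chk3 f_mm_202_a t 1 1 1 = true :=
  ⟨(b (b (a (l 3) (b (b (a (l 3) (a (l 3) (b (l 6) (l 3)))) (l 3)) (l 3))) (l 3)) (l 3)), by decide +kernel⟩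

theorem c_mm_202_a : CertN 0 536870912 1073741824 536870912 134217728 67108864 3 false false false .pp 2 0 2
    ndN2q2a ndN5q2 pcN0 cut_mm_202_a Ext.none :=
  certN1 (fam := false) (s1 := false) (s2 := false) (a := 2) (b := 0) (c := 2) (cn := .pp) (n1 := ndN2q2a) (n2 := ndN5q2) (pc := pcN0) (cut := cut_mm_202_a) (xt := Ext.none) (P1 := 0) (W1 := 536870912) (P2 := 1073741824) (W2 := 536870912) (P3 := 134217728) (W3 := 67108864) (N0 := 3)
    rfl (fun _ => rfl) k0_mm_202_a

noncomputable def cut_mm_202_b : Cut := Cut.of [[⟨0, 1, 0, 67108864⟩, ⟨1, 0, 0, 67108864⟩, ⟨2, 1, 0, 67108864⟩]]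

noncomputable def f_mm_202_b : ℕ → ℕ → ℕ → ℕ → Bool := onCell 1239849684 370763052 0 536870912 134217728 67108864
    (rowN 3 1 false false false .pp 2 0 2 (qsf 1239849684 370763052 1073741824 536870912 0) ndN2q2b ndN5q2 pcN0 cut_mm_202_b Ext.none)

def k0_mm_202_b : ∃ t, chk3 f_mm_202_b t 1 1 1 = true :=
  ⟨(b (a (b (l 3) (l 3)) (l 3)) (a (l 3) (l 2))), by decide +kernel⟩

theorem c_mm_202_b : CertN 1239849684 370763052 1073741824 536870912 134217728 67108864 3 false false false .pp 2 0 2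
    ndN2q2b ndN5q2 pcN0 cut_mm_202_b Ext.none :=
  certN1 (fam := false) (s1 := false) (s2 := false) (a := 2) (b := 0) (c := 2) (cn := .pp) (n1 := ndN2q2b) (n2 := ndN5q2) (pc := pcN0) (cut := cut_mm_202_b) (xt := Ext.none) (P1 := 1239849684) (W1 := 370763052) (P2 := 1073741824) (W2 := 536870912) (P3 := 134217728) (W3 := 67108864) (N0 := 3)
    rfl (fun _ => rfl) k0_mm_202_b

noncomputable def f_mm_203_a : ℕ → ℕ → ℕ → ℕ → Bool := onCell 0 536870912 0 1230186008 134217728 67108864
    (rowN 3 0 false false false .up 2 0 3 (qsf 0 536870912 0 1230186008 0) ndN2q2a ndN5q3 pcN0 Cut.none Ext.none)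

def k0_mm_203_a : ∃ t, chk3 f_mm_203_a t 1 1 1 = true :=
  ⟨(b (l 2) (l 3)), by decide +kernel⟩

theorem c_mm_203_a : CertN 0 536870912 0 1230186008 134217728 67108864 3 false false false .up 2 0 3
    ndN2q2a ndN5q3 pcN0 Cut.none Ext.none :=
  certN0 (fam := false) (s1 := false) (s2 := false) (a := 2) (b := 0) (c := 3) (cn := .up) (n1 := ndN2q2a) (n2 := ndN5q3) (pc := pcN0) (cut := Cut.none) (xt := Ext.none) (P1 := 0) (W1 := 536870912) (P2 := 0) (W2 := 1230186008) (P3 := 134217728) (W3 := 67108864) (N0 := 3)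
    rfl k0_mm_203_a

noncomputable def f_mm_203_b : ℕ → ℕ → ℕ → ℕ → Bool := onCell 1239849684 370763052 0 1230186008 134217728 67108864
    (rowN 3 0 false false false .up 2 0 3 (qsf 1239849684 370763052 0 1230186008 0) ndN2q2b ndN5q3 pcN0 Cut.none Ext.none)

def k0_mm_203_b : ∃ t, chk3 f_mm_203_b t 1 1 1 = true :=
  ⟨(b (l 3) (l 3)), by decide +kernel⟩

theorem c_mm_203_b : CertN 1239849684 370763052 0 1230186008 134217728 67108864 3 false false false .up 2 0 3
    ndN2q2b ndN5q3 pcN0 Cut.none Ext.none :=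
  certN0 (fam := false) (s1 := false) (s2 := false) (a := 2) (b := 0) (c := 3) (cn := .up) (n1 := ndN2q2b) (n2 := ndN5q3) (pc := pcN0) (cut := Cut.none) (xt := Ext.none) (P1 := 1239849684) (W1 := 370763052) (P2 := 0) (W2 := 1230186008) (P3 := 134217728) (W3 := 67108864) (N0 := 3)
    rfl k0_mm_203_b

noncomputable def f_mm_213_a : ℕ → ℕ → ℕ → ℕ → Bool := onCell 0 536870912 0 1230186008 134217728 67108864
    (rowN 3 0 false false false .pnn 2 1 3 (qsf 0 536870912 0 1230186008 1) ndN2q2a ndN5q3 pcN1 Cut.none Ext.none)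

def k0_mm_213_a : ∃ t, chk3 f_mm_213_a t 1 1 1 = true :=
  ⟨(b (l 5) (l 3)), by decide +kernel⟩

theorem c_mm_213_a : CertN 0 536870912 0 1230186008 134217728 67108864 3 false false false .pnn 2 1 3
    ndN2q2a ndN5q3 pcN1 Cut.none Ext.none :=
  certN0 (fam := false) (s1 := false) (s2 := false) (a := 2) (b := 1) (c := 3) (cn := .pnn) (n1 := ndN2q2a) (n2 := ndN5q3) (pc := pcN1) (cut := Cut.none) (xt := Ext.none) (P1 := 0) (W1 := 536870912) (P2 := 0) (W2 := 1230186008) (P3 := 134217728) (W3 := 67108864) (N0 := 3)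
    rfl k0_mm_213_a

noncomputable def f_mm_213_b : ℕ → ℕ → ℕ → ℕ → Bool := onCell 1239849684 370763052 0 1230186008 134217728 67108864
    (rowN 3 0 false false false .pnn 2 1 3 (qsf 1239849684 370763052 0 1230186008 1) ndN2q2b ndN5q3 pcN1 Cut.none Ext.none)

def k0_mm_213_b : ∃ t, chk3 f_mm_213_b t 1 1 1 = true :=
  ⟨(b (l 3) (l 3)), by decide +kernel⟩

theorem c_mm_213_b : CertN 1239849684 370763052 0 1230186008 134217728 67108864 3 false false false .pnn 2 1 3
    ndN2q2b ndN5q3 pcN1 Cut.none Ext.none :=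
  certN0 (fam := false) (s1 := false) (s2 := false) (a := 2) (b := 1) (c := 3) (cn := .pnn) (n1 := ndN2q2b) (n2 := ndN5q3) (pc := pcN1) (cut := Cut.none) (xt := Ext.none) (P1 := 1239849684) (W1 := 370763052) (P2 := 0) (W2 := 1230186008) (P3 := 134217728) (W3 := 67108864) (N0 := 3)
    rfl k0_mm_213_b

noncomputable def f_mm_303 : ℕ → ℕ → ℕ → ℕ → Bool := onCell 0 536870912 0 1230186008 134217728 67108864
    (rowN 3 2 false false false .npn 3 0 3 (qsf 1610612736 536870912 0 1230186008 0) ndN2q3 ndN5q3 pcN0 Cut.none Ext.none)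

def k0_mm_303 : ∃ t, chk3 f_mm_303 t 1 1 1 = true :=
  ⟨(b (l 3) (l 3)), by decide +kernel⟩

theorem c_mm_303 : CertN 1610612736 536870912 0 1230186008 134217728 67108864 3 false false false .npn 3 0 3
    ndN2q3 ndN5q3 pcN0 Cut.none Ext.none :=
  certN2 (fam := false) (s1 := false) (s2 := false) (a := 3) (b := 0) (c := 3) (cn := .npn) (n1 := ndN2q3) (n2 := ndN5q3) (pc := pcN0) (cut := Cut.none) (xt := Ext.none) (P1 := 1610612736) (W1 := 536870912) (P2 := 0) (W2 := 1230186008) (P3 := 134217728) (W3 := 67108864) (N0 := 3)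
    rfl (fun _ => rfl) k0_mm_303

noncomputable def f_mm_313 : ℕ → ℕ → ℕ → ℕ → Bool := onCell 1610612736 536870912 0 1230186008 134217728 67108864
    (rowN 3 0 false false false .dn 3 1 3 (qsf 1610612736 536870912 0 1230186008 1) ndN2q3 ndN5q3 pcN1 Cut.none Ext.none)

def k0_mm_313 : ∃ t, chk3 f_mm_313 t 1 1 1 = true :=
  ⟨(b (l 3) (l 1)), by decide +kernel⟩

theorem c_mm_313 : CertN 1610612736 536870912 0 1230186008 134217728 67108864 3 false false false .dn 3 1 3
    ndN2q3 ndN5q3 pcN1 Cut.none Ext.none :=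
  certN0 (fam := false) (s1 := false) (s2 := false) (a := 3) (b := 1) (c := 3) (cn := .dn) (n1 := ndN2q3) (n2 := ndN5q3) (pc := pcN1) (cut := Cut.none) (xt := Ext.none) (P1 := 1610612736) (W1 := 536870912) (P2 := 0) (W2 := 1230186008) (P3 := 134217728) (W3 := 67108864) (N0 := 3)
    rfl k0_mm_313

end Pool.Agent.Strip051.G.I1_8_3_16.Tab.C.NB25

namespace Pool.Agent.Strip051.G.I1_8_3_16.Tab.C.NB30

open Pool.Agent.Strip051.PB Pool.Agent.Strip051.PB.T
open Pool.Agent.Strip051.G.I1_8_3_16.Tab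

noncomputable def f_pp_001 : ℕ → ℕ → ℕ → ℕ → Bool := onCell 0 536870912 0 536870912 134217728 67108864
    (rowN 3 1 false true true .up 0 0 1 (qsf 0 536870912 536870912 536870912 0) ndN3q0 ndN0q1 pcN0 Cut.none Ext.none)

def k0_pp_001 : ∃ t, chk3 f_pp_001 t 1 1 1 = true :=
  ⟨(a (l 3) (b (l 3) (b (l 3) (a (l 3) (b (l 3) (a (l 3) (b (l 3) (a (l 222434197271) (l 170357755639))))))))), by decide +kernel⟩

theorem c_pp_001 : CertN 0 536870912 536870912 536870912 134217728 67108864 3 false true true .up 0 0 1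
    ndN3q0 ndN0q1 pcN0 Cut.none Ext.none :=
  certN1 (fam := false) (s1 := true) (s2 := true) (a := 0) (b := 0) (c := 1) (cn := .up) (n1 := ndN3q0) (n2 := ndN0q1) (pc := pcN0) (cut := Cut.none) (xt := Ext.none) (P1 := 0) (W1 := 536870912) (P2 := 536870912) (W2 := 536870912) (P3 := 134217728) (W3 := 67108864) (N0 := 3)
    rfl (fun _ => rfl) k0_pp_001

noncomputable def f_pp_011 : ℕ → ℕ → ℕ → ℕ → Bool := onCell 0 536870912 536870912 536870912 134217728 67108864
    (rowN 3 0 false true true .pnn 0 1 1 (qsf 0 536870912 536870912 536870912 1) ndN3q0 ndN0q1 pcN1 Cut.none Ext.none)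

def k0_pp_011 : ∃ t, chk3 f_pp_011 t 1 1 1 = true :=
  ⟨(b (l 3) (b (l 3) (b (a (a (l 3) (l 3)) (l 3)) (a (a (a (b (b (l 100026872567) (l 17312480)) (l 17307864)) (b (l 17422096) (l 17279208))) (a (b (l 17393536) (l 17240512)) (l 118817694039))) (a (b (a (l 187537072727) (b (l 3) (l 212233204471))) (a (l 17149144) (l 17259152))) (b (a (b (l 3) (l 17775592)) (a (l 224581630807) (l 679714126727))) (a (b (l 17488664) (l 17364456)) (b (l 66607740615) (l 17526432))))))))), by decide +kernel⟩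

theorem c_pp_011 : CertN 0 536870912 536870912 536870912 134217728 67108864 3 false true true .pnn 0 1 1
    ndN3q0 ndN0q1 pcN1 Cut.none Ext.none :=
  certN0 (fam := false) (s1 := true) (s2 := true) (a := 0) (b := 1) (c := 1) (cn := .pnn) (n1 := ndN3q0) (n2 := ndN0q1) (pc := pcN1) (cut := Cut.none) (xt := Ext.none) (P1 := 0) (W1 := 536870912) (P2 := 536870912) (W2 := 536870912) (P3 := 134217728) (W3 := 67108864) (N0 := 3)
    rfl k0_pp_011

noncomputable def f_pp_012 : ℕ → ℕ → ℕ → ℕ → Bool := onCell 536870912 536870912 0 536870912 134217728 67108864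
    (rowN 3 2 false true true .pnp 0 1 2 (qsf 0 536870912 0 536870912 1) ndN3q0 ndN0q2 pcN1 Cut.none Ext.none)

def k0_pp_012 : ∃ t, chk3 f_pp_012 t 1 1 1 = true :=
  ⟨(a (b (a (b (l 2) (l 17014608)) (b (l 17311296) (l 16920472))) (a (b (l 17192016) (a (l 17399384) (l 17215848))) (b (l 16953560) (a (l 17089408) (l 17082464))))) (b (b (a (a (l 17439144) (l 17491512)) (l 17457008)) (a (l 17102848) (l 17126392))) (a (b (l 17011712) (b (l 17061000) (l 17208744))) (b (a (l 17019464) (l 17166536)) (a (b (l 17096888) (l 17210456)) (b (l 17153920) (b (l 17214184) (l 17269816)))))))), by decide +kernel⟩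

theorem c_pp_012 : CertN 0 536870912 0 536870912 134217728 67108864 3 false true true .pnp 0 1 2
    ndN3q0 ndN0q2 pcN1 Cut.none Ext.none :=
  certN2 (fam := false) (s1 := true) (s2 := true) (a := 0) (b := 1) (c := 2) (cn := .pnp) (n1 := ndN3q0) (n2 := ndN0q2) (pc := pcN1) (cut := Cut.none) (xt := Ext.none) (P1 := 0) (W1 := 536870912) (P2 := 0) (W2 := 536870912) (P3 := 134217728) (W3 := 67108864) (N0 := 3)
    rfl (fun _ => rfl) k0_pp_012

noncomputable def f_pp_022 : ℕ → ℕ → ℕ → ℕ → Bool := onCell 1073741824 536870912 0 536870912 134217728 67108864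
    (rowN 3 2 false true true .pp 0 2 2 (qsf 0 536870912 0 536870912 2) ndN3q0 ndN0q2 pcN2 Cut.none Ext.none)

def k0_pp_022 : ∃ t, chk3 f_pp_022 t 1 1 1 = true :=
  ⟨(a (b (a (b (a (l 17310720) (a (l 17289384) (l 17270584))) (a (l 17362856) (a (a (l 17340744) (l 17329480)) (a (l 17317416) (l 17304696))))) (a (a (b (l 17253480) (a (l 17291984) (l 17469360))) (b (l 17238544) (l 1))) (l 1))) (a (b (a (a (l 17385416) (l 17367856)) (a (a (l 17359616) (b (l 17345064) (l 431679402199))) (a (l 430068843767) (b (l 17318296) (l 1))))) (a (b (a (l 17358496) (b (l 17353752) (l 187402679175))) (a (a (l 188476461879) (l 387655600855)) (b (a (l 17327864) (l 1)) (l 1)))) (a (a (b (l 398929874215) (l 1)) (l 1)) (l 1)))) (b (l 1) (l 1)))) (l 1)), by decide +kernel⟩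

theorem c_pp_022 : CertN 0 536870912 0 536870912 134217728 67108864 3 false true true .pp 0 2 2
    ndN3q0 ndN0q2 pcN2 Cut.none Ext.none :=
  certN2 (fam := false) (s1 := true) (s2 := true) (a := 0) (b := 2) (c := 2) (cn := .pp) (n1 := ndN3q0) (n2 := ndN0q2) (pc := pcN2) (cut := Cut.none) (xt := Ext.none) (P1 := 0) (W1 := 536870912) (P2 := 0) (W2 := 536870912) (P3 := 134217728) (W3 := 67108864) (N0 := 3)
    rfl (fun _ => rfl) k0_pp_022

noncomputable def cut_pp_101 : Cut := Cut.of [[⟨0, 1, 0, 67108864⟩, ⟨1, 0, 0, 67108864⟩, ⟨2, 1, 0, 67108864⟩]]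

noncomputable def f_pp_101 : ℕ → ℕ → ℕ → ℕ → Bool := onCell 0 536870912 536870912 536870912 134217728 67108864
    (rowN 3 2 false true true .npn 1 0 1 (qsf 536870912 536870912 536870912 536870912 0) ndN3q1 ndN0q1 pcN0 cut_pp_101 Ext.none)

def k0_pp_101 : ∃ t, chk3 f_pp_101 t 2 2 1 = true :=
  ⟨(l 3), by decide +kernel⟩

def k1_pp_101 : ∃ t, chk3 f_pp_101 t 4 6 1 = true :=
  ⟨(l 3), by decide +kernel⟩

def k2_pp_101 : ∃ t, chk3 f_pp_101 t 8 7 1 = true :=
  ⟨(b (l 3) (a (b (l 3) (b (l 3) (l 6))) (b (l 3) (b (l 3) (b (l 3) (b (a (l 3) (a (l 3) (b (l 3) (b (l 3) (b (l 3) (c (a (c (l 142438508455) (l 144585991111)) (c (l 135459186951) (l 136532927831))) (c (l 147807213303) (l 149954695703)))))))) (a (l 6) (a (l 6) (b (c (a (b (c (l 125795512839) (l 16749872)) (l 6)) (c (l 16744224) (l 16743704))) (b (c (b (l 16750160) (l 16744928)) (l 130090476151)) (l 16742680))) (c (l 16739768) (l 16738760))))))))))), by decide +kernel⟩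

def k3_pp_101 : ∃ t, chk3 f_pp_101 t 9 14 1 = true :=
  ⟨(l 3), by decide +kernel⟩

def k4_pp_101 : ∃ t, chk3 f_pp_101 t 9 30 1 = true :=
  ⟨(l 3), by decide +kernel⟩

def k5_pp_101 : ∃ t, chk3 f_pp_101 t 18 31 1 = true :=
  ⟨(b (l 3) (a (b (l 3) (b (b (l 3) (c (b (a (a (l 3) (c (l 140827888151) (l 142975370535))) (a (c (l 139217271223) (l 139754140823)) (c (l 137069783175) (l 138680394567)))) (a (a (c (l 138680406071) (l 139754145399)) (c (l 126332375623) (l 134922308311))) (c (b (l 16746104) (l 16739552)) (l 16739544)))) (b (a (c (l 145122854887) (l 147270337079)) (c (l 140291008023) (l 140827877335))) (a (c (b (l 147807206695) (l 16742904)) (l 141901623991)) (c (l 16738824) (l 16738032)))))) (b (c (c (b (l 16750424) (l 16737296)) (l 16748488)) (a (l 16749792) (l 16734544))) (c (l 16733032) (l 16731744))))) (b (l 3) (b (a (a (b (l 3) (c (b (a (c (l 137606650567) (l 134922300231)) (c (l 131701075479) (l 133311685255))) (l 16746576)) (b (c (l 131164207399) (l 132237946951))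 (l 16734624)))) (b (a (l 3) (b (l 3) (c (c (l 140291000231) (l 144049095479)) (c (l 146733448727) (l 149954672711))))) (b (c (c (a (l 130627330167) (l 16735240)) (l 119889913367)) (c (l 120426782583) (l 16739024))) (c (l 16733264) (l 16731872))))) (a (b (b (l 3) (c (c (a (l 137606643015) (l 137069769479)) (l 137606640263)) (c (l 138143509911) (l 138680379383)))) (c (c (l 16742088) (l 16731040)) (c (l 16730400) (l 16729664)))) (b (b (l 3) (c (c (a (l 137069766791) (l 135996022231)) (l 136532893159)) (c (l 137606633783) (l 134385415111)))) (c (c (l 16728792) (l 16728272)) (l 16737792))))) (a (c (b (l 16740800) (l 16725128)) (b (l 16749904) (l 16723768))) (c (l 16743080) (l 16741784))))))), by decide +kernel⟩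

def k6_pp_101 : ∃ t, chk3 f_pp_101 t 19 31 1 = true :=
  ⟨(b (l 3) (b (a (l 3) (b (l 3) (b (l 3) (c (b (l 3) (b (a (l 3) (c (a (c (l 137069734551) (l 137069734583)) (c (l 135996041591) (l 134922245319))) (a (l 137069734471) (l 133311642439)))) (a (c (a (c (l 137606615063) (l 137606614919)) (c (l 135459125799) (l 135459125735))) (a (l 137606614583) (l 133311651191))) (c (c (a (l 118279258343) (l 16735160)) (l 118816132263)) (a (l 116131776871) (l 16713248)))))) (b (l 3) (a (a (c (l 141901581895) (l 140290968215)) (c (l 137606609319) (l 137606608487))) (a (c (l 135459120295) (l 133311643463)) (c (l 130627287655) (l 131164155751))))))))) (a (b (a (a (b (b (l 3) (c (c (a (l 131701059703) (l 131164185975)) (l 130627318679)) (c (l 130627316727) (l 132774796663)))) (c (c (l 16725952) (l 16725472)) (l 16724552))) (b (c (b (c (a (l 137606630407) (l 137069756807)) (l 140290982551)) (c (b (l 118279282759) (l 16726240)) (l 16726384))) (c (l 137069753815) (l 137606623463)))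 (c (l 16722880) (l 16721776)))) (a (b (c (b (c (c (l 135459139831) (l 135996010455)) (l 136532880839)) (c (l 16723896) (l 16723536))) (c (l 135459135687) (l 136532876327))) (c (l 16720008) (l 16718992))) (b (c (b (c (c (l 134385392375) (l 134385392151)) (l 134922262615)) (c (l 16720968) (l 16720656))) (c (l 129553565223) (l 129553563479))) (c (l 16717112) (l 16716184))))) (b (c (l 16734856) (l 16733920)) (c (l 16729824) (l 16728840)))) (b (b (c (a (b (c (a (c (l 120426751959) (l 118816139143)) (a (l 16720896) (l 16716768))) (a (l 117205528183) (l 16717272))) (c (l 16716144) (l 16715944))) (c (a (l 16713160) (l 16710152)) (l 16721720))) (a (a (c (l 119353012311) (l 117742397911)) (c (l 16715680) (l 16715224))) (c (l 16721520) (l 16710672)))) (c (c (l 16728864) (l 16728744)) (l 16738784))) (c (l 16720808) (l 16720200)))))), by decide +kernel⟩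

def k7_pp_101 : ∃ t, chk3 f_pp_101 t 5 6 1 = true :=
  ⟨(l 3), by decide +kernel⟩

def k8_pp_101 : ∃ t, chk3 f_pp_101 t 10 14 1 = true :=
  ⟨(l 3), by decide +kernel⟩

def k9_pp_101 : ∃ t, chk3 f_pp_101 t 10 30 1 = true :=
  ⟨(l 3), by decide +kernel⟩

def k10_pp_101 : ∃ t, chk3 f_pp_101 t 20 31 1 = true :=
  ⟨(b (l 3) (b (a (b (l 3) (c (b (l 3) (b (a (b (l 3) (c (a (c (l 171429620631) (l 137069725031)) (c (l 129553772071) (l 132774813495))) (c (l 135459122183) (l 135459109175)))) (c (a (c (l 127943241559) (l 130627375495)) (c (l 126869463895) (l 129553644935))) (c (a (l 134385360039) (l 130090463623)) (b (l 134922239447) (l 116131758727))))) (a (c (a (c (l 130090466903) (l 116131765191)) (a (l 16741336) (l 16788712))) (c (l 116668639559) (l 116131768727))) (c (a (l 16819440) (l 16858752)) (l 16703200))))) (b (l 3) (a (b (c (a (l 137069725815) (l 135459107719)) (l 136532851335)) (c (a (l 16710808) (l 16707928)) (l 113984287575))) (a (c (l 132237884823) (l 129553534711))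 (c (l 129553529495) (l 128479787351))))))) (b (l 3) (b (b (l 3) (c (a (c (c (l 279341026839) (a (l 222432510567) (l 127943299191))) (a (c (l 170892736503) (l 136532836279)) (c (l 130090619703) (l 132774811239)))) (c (c (l 17030336) (l 125795791399)) (a (c (l 127406334455) (l 129553658343)) (c (l 16846488) (l 128479888935))))) (a (c (a (l 136532836759) (l 134922218583)) (l 135459092151)) (c (c (a (l 133311600055) (l 129016718695)) (l 132237855447)) (l 130090390999))))) (a (c (c (a (c (l 16943072) (l 125795627431)) (l 16913880)) (b (a (c (l 128479850087) (l 16701456)) (l 16749264)) (l 16740176))) (c (a (l 113447396535) (l 16697480)) (l 113984271207))) (c (c (l 16984512) (b (l 16782304) (l 16815640))) (c (l 16692872) (l 16693192))))))) (b (c (a (a (c (l 16713568) (l 16713184)) (c (l 16814608) (l 16696792))) (c (a (l 16896024) (l 16969488)) (l 16709080))) (a (b (a (l 16715704) (l 16699520)) (l 16717264)) (b (l 16711056) (l 16685016)))) (a (c (l 16709408) (l 16688288))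 (c (l 16801640) (l 16677056)))))), by decide +kernel⟩

def k11_pp_101 : ∃ t, chk3 f_pp_101 t 21 31 1 = true :=
  ⟨(b (l 3) (b (a (b (a (l 3) (a (l 3) (a (l 3) (c (c (l 368461910391) (l 300279036407)) (c (l 224579907735) (l 141901625927)))))) (c (c (b (a (l 124722192535) (l 17104328)) (l 17074192)) (b (c (a (l 124722144855) (l 16995416)) (a (a (l 126869446615) (l 125258896775)) (l 123648272471))) (a (l 16887816) (l 16949968)))) (b (b (a (a (c (l 145659716135) (l 135459077767)) (c (l 130627333991) (l 133848459783))) (a (c (l 127406145895) (l 131164112023)) (c (l 127406136183) (l 114521107255)))) (a (c (a (l 126869232743) (l 16762272)) (l 16701904)) (c (l 16810632) (l 16685824)))) (a (c (l 16730088) (l 16687552)) (l 16722704))))) (c (b (c (l 127943842551) (a (l 127943473191) (l 126333017799))) (c (l 17176984) (a (l 16989360) (l 17061624)))) (b (b (l 3) (a (a (c (l 129553766343) (l 151028418135)) (c (l 127943292023) (l 131164232519))) (a (c (l 125795860855) (l 129016805767))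 (c (l 124185298663) (l 126869397911))))) (b (a (a (c (l 16838616) (l 16719216)) (c (l 16888120) (l 16750248))) (c (l 16928808) (l 16794512))) (a (l 16788296) (l 16848696)))))) (b (c (a (a (l 16951024) (l 17014976)) (l 17100152)) (a (l 16696880) (l 16794432))) (c (a (l 16960728) (l 17089944)) (l 16698592))))), by decide +kernel⟩

def k12_pp_101 : ∃ t, chk3 f_pp_101 t 11 7 1 = true :=
  ⟨(b (l 3) (b (l 3) (a (b (l 3) (b (c (c (a (l 123112055495) (l 17329496)) (a (b (l 124722533911) (l 17131072)) (l 119353910311))) (a (b (b (c (l 313163986375) (a (l 3) (l 264845415159))) (c (a (l 123648353831) (l 17031504)) (a (b (l 126332547959) (l 16858904)) (l 122574468343)))) (a (b (l 16809832) (l 16904432)) (l 16960024))) (b (a (c (l 122574815351) (l 122037834583)) (c (l 17113112) (l 118279724423))) (a (l 17006744) (l 17050112))))) (c (a (l 17197288) (l 17282960)) (a (b (l 16914848) (l 16890424)) (l 17010096))))) (b (b (l 3) (c (l 402822071463) (a (l 315311666439) (l 126333222599))))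 (b (c (a (l 17333664) (l 17388840)) (a (b (l 115595443127) (l 17108432)) (l 17175704))) (c (l 17385576) (a (l 17099848) (l 17174816)))))))), by decide +kernel⟩

def k13_pp_101 : ∃ t, chk3 f_pp_101 t 3 1 1 = true :=
  ⟨(b (l 3) (b (l 3) (b (l 3) (a (b (l 3) (b (a (b (l 3) (c (l 133313008087) (a (l 127943987143) (l 129554586695)))) (c (l 140292627351) (b (l 313164788775) (l 135460463287)))) (a (c (a (l 17475072) (l 17554792)) (a (b (l 17258624) (l 17267144)) (l 17357216))) (c (l 17649024) (l 17465776))))) (b (b (l 3) (a (l 3) (l 235855898679))) (a (b (c (l 17696024) (l 141903195063)) (l 17661120)) (c (l 17808008) (l 149419751767)))))))), by decide +kernel⟩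

theorem s14_pp_101 : ∃ t, chk3 f_pp_101 t 10 31 1 = true := ex3_a k10_pp_101 k11_pp_101

theorem s15_pp_101 : ∃ t, chk3 f_pp_101 t 10 15 1 = true := ex3_b k9_pp_101 s14_pp_101

theorem s16_pp_101 : ∃ t, chk3 f_pp_101 t 10 7 1 = true := ex3_b k8_pp_101 s15_pp_101

theorem s17_pp_101 : ∃ t, chk3 f_pp_101 t 5 7 1 = true := ex3_a s16_pp_101 k12_pp_101

theorem s18_pp_101 : ∃ t, chk3 f_pp_101 t 5 3 1 = true := ex3_b k7_pp_101 s17_pp_101

theorem s19_pp_101 : ∃ t, chk3 f_pp_101 t 9 31 1 = true := ex3_a k5_pp_101 k6_pp_101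

theorem s20_pp_101 : ∃ t, chk3 f_pp_101 t 9 15 1 = true := ex3_b k4_pp_101 s19_pp_101

theorem s21_pp_101 : ∃ t, chk3 f_pp_101 t 9 7 1 = true := ex3_b k3_pp_101 s20_pp_101

theorem s22_pp_101 : ∃ t, chk3 f_pp_101 t 4 7 1 = true := ex3_a k2_pp_101 s21_pp_101

theorem s23_pp_101 : ∃ t, chk3 f_pp_101 t 4 3 1 = true := ex3_b k1_pp_101 s22_pp_101

theorem s24_pp_101 : ∃ t, chk3 f_pp_101 t 2 3 1 = true := ex3_a s23_pp_101 s18_pp_101

theorem s25_pp_101 : ∃ t, chk3 f_pp_101 t 2 1 1 = true := ex3_b k0_pp_101 s24_pp_101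

theorem s26_pp_101 : ∃ t, chk3 f_pp_101 t 1 1 1 = true := ex3_a s25_pp_101 k13_pp_101

theorem c_pp_101 : CertN 536870912 536870912 536870912 536870912 134217728 67108864 3 false true true .npn 1 0 1
    ndN3q1 ndN0q1 pcN0 cut_pp_101 Ext.none :=
  certN2 (fam := false) (s1 := true) (s2 := true) (a := 1) (b := 0) (c := 1) (cn := .npn) (n1 := ndN3q1) (n2 := ndN0q1) (pc := pcN0) (cut := cut_pp_101) (xt := Ext.none) (P1 := 536870912) (W1 := 536870912) (P2 := 536870912) (W2 := 536870912) (P3 := 134217728) (W3 := 67108864) (N0 := 3)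
    rfl (fun _ => rfl) s26_pp_101

noncomputable def cut_pp_102 : Cut := Cut.of [[⟨0, 1, 0, 67108864⟩, ⟨1, 0, 0, 67108864⟩, ⟨2, 1, 0, 67108864⟩]]

noncomputable def f_pp_102 : ℕ → ℕ → ℕ → ℕ → Bool := onCell 536870912 536870912 0 536870912 134217728 67108864
    (rowN 3 0 false true true .npp 1 0 2 (qsf 536870912 536870912 0 536870912 0) ndN3q1 ndN0q2 pcN0 cut_pp_102 Ext.none)

def k0_pp_102 : ∃ t, chk3 f_pp_102 t 2 1 1 = true :=
  ⟨(b (a (b (l 2) (l 17605528)) (b (l 17675672) (l 17894584))) (a (b (b (l 17691744) (l 17734544)) (b (l 17760112) (a (l 17772720) (l 17719992)))) (b (b (l 17772728) (l 17761224)) (b (a (l 17728880) (l 17669784)) (b (a (l 17672920) (l 17571072)) (a (l 17616552) (b (l 17507976) (l 17439928)))))))), by decide +kernel⟩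

def k1_pp_102 : ∃ t, chk3 f_pp_102 t 3 1 1 = true :=
  ⟨(b (b (a (a (l 17862824) (l 17963896)) (a (l 18098792) (l 18022264))) (a (a (l 17825056) (b (l 17884048) (l 17784072))) (a (b (l 17832024) (a (l 17652048) (l 17485528))) (b (l 17510224) (l 17194048))))) (a (b (a (b (l 17775216) (l 17688472)) (b (l 17670560) (l 17492248))) (a (b (a (l 17580384) (l 17480424)) (b (a (l 17439792) (l 17301344)) (b (a (l 17355544) (l 17197848)) (a (c (l 17429456) (l 17161280)) (c (l 17281680) (l 16969480)))))) (b (a (l 17324008) (l 17073624)) (b (a (l 17091608) (l 16760640)) (a (b (l 16962384) (c (a (l 17127528) (l 16994576)) (l 16688952))) (b (l 16670032) (a (l 16692008) (l 16714248)))))))) (b (a (a (b (l 17419584) (l 17114272)) (b (l 17101600) (l 16685512))) (b (a (l 16835960) (l 16993712)) (a (b (l 16656248) (l 16574192)) (l 16893120)))) (a (b (a (l 16657680) (b (l 16591056) (l 16714192))) (a (b (l 16679000) (b (l 16731904) (a (b (l 16682984) (l 16705376)) (a (l 16725248) (l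 16730920))))) (a (b (l 16636088) (b (l 16672664) (b (l 16726752) (c (l 16749632) (l 16748400))))) (b (l 16652904) (b (l 16662752) (b (l 16716976) (b (l 16712832) (l 16745096)))))))) (b (a (b (l 16569944) (l 16645688)) (b (l 16859960) (a (l 16655064) (a (l 16669280) (l 16720560))))) (b (a (a (l 16670176) (l 16725184)) (a (b (l 16656080) (l 6)) (l 6))) (c (a (b (l 16726424) (a (b (l 16705440) (l 16749016)) (l 6))) (l 6)) (a (b (l 16725704) (b (l 16741904) (a (l 16748256) (l 6)))) (l 6))))))))), by decide +kernel⟩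

theorem s2_pp_102 : ∃ t, chk3 f_pp_102 t 1 1 1 = true := ex3_a k0_pp_102 k1_pp_102

theorem c_pp_102 : CertN 536870912 536870912 0 536870912 134217728 67108864 3 false true true .npp 1 0 2
    ndN3q1 ndN0q2 pcN0 cut_pp_102 Ext.none :=
  certN0 (fam := false) (s1 := true) (s2 := true) (a := 1) (b := 0) (c := 2) (cn := .npp) (n1 := ndN3q1) (n2 := ndN0q2) (pc := pcN0) (cut := cut_pp_102) (xt := Ext.none) (P1 := 536870912) (W1 := 536870912) (P2 := 0) (W2 := 536870912) (P3 := 134217728) (W3 := 67108864) (N0 := 3)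
    rfl s2_pp_102

noncomputable def f_pp_112 : ℕ → ℕ → ℕ → ℕ → Bool := onCell 536870912 536870912 0 536870912 134217728 67108864
    (rowN 3 2 false true true .dn 1 1 2 (qsf 536870912 536870912 0 536870912 1) ndN3q1 ndN0q2 pcN1 Cut.none Ext.none)

def k0_pp_112 : ∃ t, chk3 f_pp_112 t 1 1 1 = true :=
  ⟨(a (b (a (b (l 18475104) (l 18314104)) (l 18523152)) (a (b (l 18144152) (b (l 18061640) (a (l 17971240) (l 1)))) (b (l 1) (l 1)))) (l 1)), by decide +kernel⟩

theorem c_pp_112 : CertN 536870912 536870912 0 536870912 134217728 67108864 3 false true true .dn 1 1 2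
    ndN3q1 ndN0q2 pcN1 Cut.none Ext.none :=
  certN2 (fam := false) (s1 := true) (s2 := true) (a := 1) (b := 1) (c := 2) (cn := .dn) (n1 := ndN3q1) (n2 := ndN0q2) (pc := pcN1) (cut := Cut.none) (xt := Ext.none) (P1 := 536870912) (W1 := 536870912) (P2 := 0) (W2 := 536870912) (P3 := 134217728) (W3 := 67108864) (N0 := 3)
    rfl (fun _ => rfl) k0_pp_112

noncomputable def f_pp_202 : ℕ → ℕ → ℕ → ℕ → Bool := onCell 1073741824 536870912 0 536870912 134217728 67108864
    (rowN 3 0 false true true .pp 2 0 2 (qsf 1073741824 536870912 0 536870912 0) ndN3q2 ndN0q2 pcN0 Cut.none Ext.none)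

def k0_pp_202 : ∃ t, chk3 f_pp_202 t 1 1 1 = true :=
  ⟨(l 3), by decide +kernel⟩

theorem c_pp_202 : CertN 1073741824 536870912 0 536870912 134217728 67108864 3 false true true .pp 2 0 2
    ndN3q2 ndN0q2 pcN0 Cut.none Ext.none :=
  certN0 (fam := false) (s1 := true) (s2 := true) (a := 2) (b := 0) (c := 2) (cn := .pp) (n1 := ndN3q2) (n2 := ndN0q2) (pc := pcN0) (cut := Cut.none) (xt := Ext.none) (P1 := 1073741824) (W1 := 536870912) (P2 := 0) (W2 := 536870912) (P3 := 134217728) (W3 := 67108864) (N0 := 3)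
    rfl k0_pp_202

noncomputable def f_pm_001 : ℕ → ℕ → ℕ → ℕ → Bool := onCell 0 536870912 0 536870912 134217728 67108864
    (rowN 3 1 false true false .up 0 0 1 (qsf 0 536870912 536870912 536870912 0) ndN3q0 ndN0q1 pcN0 Cut.none Ext.none)

def k0_pm_001 : ∃ t, chk3 f_pm_001 t 1 1 1 = true :=
  ⟨(l 4), by decide +kernel⟩

theorem c_pm_001 : CertN 0 536870912 536870912 536870912 134217728 67108864 3 false true false .up 0 0 1
    ndN3q0 ndN0q1 pcN0 Cut.none Ext.none :=
  certN1 (fam := false) (s1 := true) (s2 := false) (a := 0) (b := 0) (c := 1) (cn := .up) (n1 := ndN3q0) (n2 := ndN0q1) (pc := pcN0) (cut := Cut.none) (xt := Ext.none) (P1 := 0) (W1 := 536870912) (P2 := 536870912) (W2 := 536870912) (P3 := 134217728) (W3 := 67108864) (N0 := 3)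
    rfl (fun _ => rfl) k0_pm_001

noncomputable def f_pm_011 : ℕ → ℕ → ℕ → ℕ → Bool := onCell 0 536870912 536870912 536870912 134217728 67108864
    (rowN 3 0 false true false .pnn 0 1 1 (qsf 0 536870912 536870912 536870912 1) ndN3q0 ndN0q1 pcN1 Cut.none Ext.none)

def k0_pm_011 : ∃ t, chk3 f_pm_011 t 1 1 1 = true :=
  ⟨(b (l 4) (l 4)), by decide +kernel⟩

theorem c_pm_011 : CertN 0 536870912 536870912 536870912 134217728 67108864 3 false true false .pnn 0 1 1
    ndN3q0 ndN0q1 pcN1 Cut.none Ext.none :=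
  certN0 (fam := false) (s1 := true) (s2 := false) (a := 0) (b := 1) (c := 1) (cn := .pnn) (n1 := ndN3q0) (n2 := ndN0q1) (pc := pcN1) (cut := Cut.none) (xt := Ext.none) (P1 := 0) (W1 := 536870912) (P2 := 536870912) (W2 := 536870912) (P3 := 134217728) (W3 := 67108864) (N0 := 3)
    rfl k0_pm_011

noncomputable def f_pm_012 : ℕ → ℕ → ℕ → ℕ → Bool := onCell 536870912 536870912 0 536870912 134217728 67108864
    (rowN 3 2 false true false .pnp 0 1 2 (qsf 0 536870912 0 536870912 1) ndN3q0 ndN0q2 pcN1 Cut.none Ext.none)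

def k0_pm_012 : ∃ t, chk3 f_pm_012 t 1 1 1 = true :=
  ⟨(a (b (a (l 17540904) (l 17721880)) (l 4)) (b (a (a (l 17876624) (l 17808432)) (a (a (b (l 17757752) (l 17783168)) (l 17651352)) (b (l 17485248) (l 17229232)))) (b (a (l 4) (a (l 4) (l 4))) (l 4)))), by decide +kernel⟩

theorem c_pm_012 : CertN 0 536870912 0 536870912 134217728 67108864 3 false true false .pnp 0 1 2
    ndN3q0 ndN0q2 pcN1 Cut.none Ext.none :=
  certN2 (fam := false) (s1 := true) (s2 := false) (a := 0) (b := 1) (c := 2) (cn := .pnp) (n1 := ndN3q0) (n2 := ndN0q2) (pc := pcN1) (cut := Cut.none) (xt := Ext.none) (P1 := 0) (W1 := 536870912) (P2 := 0) (W2 := 536870912) (P3 := 134217728) (W3 := 67108864) (N0 := 3)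
    rfl (fun _ => rfl) k0_pm_012

noncomputable def f_pm_022 : ℕ → ℕ → ℕ → ℕ → Bool := onCell 0 536870912 0 536870912 134217728 67108864
    (rowN 3 0 false true false .pp 0 2 2 (qsf 0 536870912 0 536870912 2) ndN3q0 ndN0q2 pcN2 Cut.none Ext.none)

def k0_pm_022 : ∃ t, chk3 f_pm_022 t 1 1 1 = true :=
  ⟨(a (b (b (a (l 17268448) (l 17450696)) (a (a (l 17259840) (l 17266248)) (a (l 17255544) (l 1)))) (b (a (b (a (l 17265320) (l 17233120)) (l 4)) (l 1)) (l 4))) (l 1)), by decide +kernel⟩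

theorem c_pm_022 : CertN 0 536870912 0 536870912 134217728 67108864 3 false true false .pp 0 2 2
    ndN3q0 ndN0q2 pcN2 Cut.none Ext.none :=
  certN0 (fam := false) (s1 := true) (s2 := false) (a := 0) (b := 2) (c := 2) (cn := .pp) (n1 := ndN3q0) (n2 := ndN0q2) (pc := pcN2) (cut := Cut.none) (xt := Ext.none) (P1 := 0) (W1 := 536870912) (P2 := 0) (W2 := 536870912) (P3 := 134217728) (W3 := 67108864) (N0 := 3)
    rfl k0_pm_022

noncomputable def f_pm_101 : ℕ → ℕ → ℕ → ℕ → Bool := onCell 536870912 536870912 536870912 536870912 134217728 67108864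
    (rowN 3 0 false true false .npn 1 0 1 (qsf 536870912 536870912 536870912 536870912 0) ndN3q1 ndN0q1 pcN0 Cut.none Ext.none)

def k0_pm_101 : ∃ t, chk3 f_pm_101 t 1 1 1 = true :=
  ⟨(l 4), by decide +kernel⟩

theorem c_pm_101 : CertN 536870912 536870912 536870912 536870912 134217728 67108864 3 false true false .npn 1 0 1
    ndN3q1 ndN0q1 pcN0 Cut.none Ext.none :=
  certN0 (fam := false) (s1 := true) (s2 := false) (a := 1) (b := 0) (c := 1) (cn := .npn) (n1 := ndN3q1) (n2 := ndN0q1) (pc := pcN0) (cut := Cut.none) (xt := Ext.none) (P1 := 536870912) (W1 := 536870912) (P2 := 536870912) (W2 := 536870912) (P3 := 134217728) (W3 := 67108864) (N0 := 3)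
    rfl k0_pm_101

noncomputable def f_pm_102 : ℕ → ℕ → ℕ → ℕ → Bool := onCell 536870912 536870912 0 536870912 134217728 67108864
    (rowN 3 0 false true false .npp 1 0 2 (qsf 536870912 536870912 0 536870912 0) ndN3q1 ndN0q2 pcN0 Cut.none Ext.none)

def k0_pm_102 : ∃ t, chk3 f_pm_102 t 1 1 1 = true :=
  ⟨(a (b (a (b (l 2) (a (l 2) (b (l 2) (l 18772496)))) (b (b (l 17802536) (l 18007952)) (b (l 18598056) (l 18806840)))) (l 4)) (b (a (a (b (b (l 18033528) (l 18310976)) (l 18822472)) (b (l 18309528) (l 18980128))) (a (b (l 18480872) (l 19176304)) (b (l 18560416) (l 19268704)))) (l 4))), by decide +kernel⟩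

theorem c_pm_102 : CertN 536870912 536870912 0 536870912 134217728 67108864 3 false true false .npp 1 0 2
    ndN3q1 ndN0q2 pcN0 Cut.none Ext.none :=
  certN0 (fam := false) (s1 := true) (s2 := false) (a := 1) (b := 0) (c := 2) (cn := .npp) (n1 := ndN3q1) (n2 := ndN0q2) (pc := pcN0) (cut := Cut.none) (xt := Ext.none) (P1 := 536870912) (W1 := 536870912) (P2 := 0) (W2 := 536870912) (P3 := 134217728) (W3 := 67108864) (N0 := 3)
    rfl k0_pm_102

noncomputable def f_pm_112 : ℕ → ℕ → ℕ → ℕ → Bool := onCell 536870912 536870912 0 536870912 134217728 67108864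
    (rowN 3 0 false true false .dn 1 1 2 (qsf 536870912 536870912 0 536870912 1) ndN3q1 ndN0q2 pcN1 Cut.none Ext.none)

def k0_pm_112 : ∃ t, chk3 f_pm_112 t 1 1 1 = true :=
  ⟨(a (b (a (l 18695824) (l 18863360)) (l 4)) (l 1)), by decide +kernel⟩

theorem c_pm_112 : CertN 536870912 536870912 0 536870912 134217728 67108864 3 false true false .dn 1 1 2
    ndN3q1 ndN0q2 pcN1 Cut.none Ext.none :=
  certN0 (fam := false) (s1 := true) (s2 := false) (a := 1) (b := 1) (c := 2) (cn := .dn) (n1 := ndN3q1) (n2 := ndN0q2) (pc := pcN1) (cut := Cut.none) (xt := Ext.none) (P1 := 536870912) (W1 := 536870912) (P2 := 0) (W2 := 536870912) (P3 := 134217728) (W3 := 67108864) (N0 := 3)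
    rfl k0_pm_112

noncomputable def f_pm_202 : ℕ → ℕ → ℕ → ℕ → Bool := onCell 0 536870912 0 536870912 134217728 67108864
    (rowN 3 2 false true false .pp 2 0 2 (qsf 1073741824 536870912 0 536870912 0) ndN3q2 ndN0q2 pcN0 Cut.none Ext.none)

def k0_pm_202 : ∃ t, chk3 f_pm_202 t 2 2 1 = true :=
  ⟨(l 3), by decide +kernel⟩

def k1_pm_202 : ∃ t, chk3 f_pm_202 t 8 3 1 = true :=
  ⟨(b (b (a (b (l 3) (b (l 3) (b (l 3) (a (b (l 3) (a (c (a (l 221895139463) (l 172503022455)) (a (l 246591174279) (l 139753869799))) (a (c (l 137069551495) (l 139753881127)) (c (l 137606443159) (l 16623192))))) (c (l 137606441351) (l 142975121815)))))) (b (l 3) (b (l 3) (c (a (l 133848383095) (l 131700907223)) (a (l 120426580615) (l 132237766407)))))) (a (b (a (b (a (b (c (a (c (l 147807036935) (l 148343893367)) (b (l 16620200) (l 16631088))) (a (b (l 16617352) (l 16628824)) (b (l 16617944) (l 16619096)))) (a (a (l 16702168) (l 16701656)) (c (l 16702296) (l 16708008)))) (a (b (c (b (l 16630200)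 (l 16633640)) (b (l 16620448) (l 16621928))) (c (l 16676160) (l 16671856))) (c (l 16638176) (l 16605800)))) (a (b (a (l 16759024) (l 16755296)) (a (l 16766008) (l 16702544))) (l 16703152))) (c (b (a (l 16626480) (l 16637616)) (l 16680720)) (b (l 16640120) (l 16669528)))) (a (l 16974624) (a (l 16734704) (l 16731024)))) (a (b (b (b (l 16655368) (l 16628552)) (l 16647992)) (l 16789624)) (b (b (c (l 16657896) (l 16641752)) (l 16662784)) (l 16760160))))) (b (a (b (b (l 16916120) (l 16981520)) (l 17252424)) (b (a (l 16807288) (l 16730032)) (a (l 16982432) (l 16904416)))) (a (b (c (l 17556920) (a (l 17256128) (l 17193792))) (a (l 17397328) (l 17346168))) (a (b (l 17148576) (l 1)) (l 1))))), by decide +kernel⟩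

def k2_pm_202 : ∃ t, chk3 f_pm_202 t 9 3 1 = true :=
  ⟨(b (b (b (l 3) (a (c (b (l 3) (a (l 134385351399) (l 133848524951))) (b (l 3) (a (l 136532800375) (l 135995971527)))) (a (b (b (l 3) (b (l 3) (c (l 128479833559) (l 130090406007)))) (b (c (l 16716128) (l 16696456)) (l 16710584))) (l 1)))) (a (b (a (b (l 16693568) (l 16684528)) (b (l 16695320) (l 16707248))) (a (l 16730432) (l 16721960))) (b (b (l 16792912) (l 1)) (l 1)))) (b (a (b (b (l 16878448) (l 16830952)) (l 1)) (l 1)) (l 1))), by decide +kernel⟩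

def k3_pm_202 : ∃ t, chk3 f_pm_202 t 5 3 1 = true :=
  ⟨(b (l 1) (l 1)), by decide +kernel⟩

def k4_pm_202 : ∃ t, chk3 f_pm_202 t 3 1 1 = true :=
  ⟨(l 1), by decide +kernel⟩

theorem s5_pm_202 : ∃ t, chk3 f_pm_202 t 4 3 1 = true := ex3_a k1_pm_202 k2_pm_202

theorem s6_pm_202 : ∃ t, chk3 f_pm_202 t 2 3 1 = true := ex3_a s5_pm_202 k3_pm_202

theorem s7_pm_202 : ∃ t, chk3 f_pm_202 t 2 1 1 = true := ex3_b k0_pm_202 s6_pm_202

theorem s8_pm_202 : ∃ t, chk3 f_pm_202 t 1 1 1 = true := ex3_a s7_pm_202 k4_pm_202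

theorem c_pm_202 : CertN 1073741824 536870912 0 536870912 134217728 67108864 3 false true false .pp 2 0 2
    ndN3q2 ndN0q2 pcN0 Cut.none Ext.none :=
  certN2 (fam := false) (s1 := true) (s2 := false) (a := 2) (b := 0) (c := 2) (cn := .pp) (n1 := ndN3q2) (n2 := ndN0q2) (pc := pcN0) (cut := Cut.none) (xt := Ext.none) (P1 := 1073741824) (W1 := 536870912) (P2 := 0) (W2 := 536870912) (P3 := 134217728) (W3 := 67108864) (N0 := 3)
    rfl (fun _ => rfl) s8_pm_202

noncomputable def f_mm_001 : ℕ → ℕ → ℕ → ℕ → Bool := onCell 0 536870912 536870912 536870912 134217728 67108864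
    (rowN 3 0 false false false .up 0 0 1 (qsf 0 536870912 536870912 536870912 0) ndN3q0 ndN0q1 pcN0 Cut.none Ext.none)

def k0_mm_001 : ∃ t, chk3 f_mm_001 t 1 1 1 = true :=
  ⟨(l 5), by decide +kernel⟩

theorem c_mm_001 : CertN 0 536870912 536870912 536870912 134217728 67108864 3 false false false .up 0 0 1
    ndN3q0 ndN0q1 pcN0 Cut.none Ext.none :=
  certN0 (fam := false) (s1 := false) (s2 := false) (a := 0) (b := 0) (c := 1) (cn := .up) (n1 := ndN3q0) (n2 := ndN0q1) (pc := pcN0) (cut := Cut.none) (xt := Ext.none) (P1 := 0) (W1 := 536870912) (P2 := 536870912) (W2 := 536870912) (P3 := 134217728) (W3 := 67108864) (N0 := 3)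
    rfl k0_mm_001

noncomputable def f_mm_011 : ℕ → ℕ → ℕ → ℕ → Bool := onCell 0 536870912 536870912 536870912 134217728 67108864
    (rowN 3 0 false false false .pnn 0 1 1 (qsf 0 536870912 536870912 536870912 1) ndN3q0 ndN0q1 pcN1 Cut.none Ext.none)

def k0_mm_011 : ∃ t, chk3 f_mm_011 t 1 1 1 = true :=
  ⟨(l 5), by decide +kernel⟩

theorem c_mm_011 : CertN 0 536870912 536870912 536870912 134217728 67108864 3 false false false .pnn 0 1 1
    ndN3q0 ndN0q1 pcN1 Cut.none Ext.none :=
  certN0 (fam := false) (s1 := false) (s2 := false) (a := 0) (b := 1) (c := 1) (cn := .pnn) (n1 := ndN3q0) (n2 := ndN0q1) (pc := pcN1) (cut := Cut.none) (xt := Ext.none) (P1 := 0) (W1 := 536870912) (P2 := 536870912) (W2 := 536870912) (P3 := 134217728) (W3 := 67108864) (N0 := 3)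
    rfl k0_mm_011

noncomputable def f_mm_012 : ℕ → ℕ → ℕ → ℕ → Bool := onCell 0 536870912 0 536870912 134217728 67108864
    (rowN 3 0 false false false .pnp 0 1 2 (qsf 0 536870912 0 536870912 1) ndN3q0 ndN0q2 pcN1 Cut.none Ext.none)

def k0_mm_012 : ∃ t, chk3 f_mm_012 t 1 1 1 = true :=
  ⟨(l 5), by decide +kernel⟩

theorem c_mm_012 : CertN 0 536870912 0 536870912 134217728 67108864 3 false false false .pnp 0 1 2
    ndN3q0 ndN0q2 pcN1 Cut.none Ext.none :=
  certN0 (fam := false) (s1 := false) (s2 := false) (a := 0) (b := 1) (c := 2) (cn := .pnp) (n1 := ndN3q0) (n2 := ndN0q2) (pc := pcN1) (cut := Cut.none) (xt := Ext.none) (P1 := 0) (W1 := 536870912) (P2 := 0) (W2 := 536870912) (P3 := 134217728) (W3 := 67108864) (N0 := 3)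
    rfl k0_mm_012

noncomputable def f_mm_022 : ℕ → ℕ → ℕ → ℕ → Bool := onCell 0 536870912 0 536870912 134217728 67108864
    (rowN 3 0 false false false .pp 0 2 2 (qsf 0 536870912 0 536870912 2) ndN3q0 ndN0q2 pcN2 Cut.none Ext.none)

def k0_mm_022 : ∃ t, chk3 f_mm_022 t 1 1 1 = true :=
  ⟨(l 5), by decide +kernel⟩

theorem c_mm_022 : CertN 0 536870912 0 536870912 134217728 67108864 3 false false false .pp 0 2 2
    ndN3q0 ndN0q2 pcN2 Cut.none Ext.none :=
  certN0 (fam := false) (s1 := false) (s2 := false) (a := 0) (b := 2) (c := 2) (cn := .pp) (n1 := ndN3q0) (n2 := ndN0q2) (pc := pcN2) (cut := Cut.none) (xt := Ext.none) (P1 := 0) (W1 := 536870912) (P2 := 0) (W2 := 536870912) (P3 := 134217728) (W3 := 67108864) (N0 := 3)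
    rfl k0_mm_022

noncomputable def f_mm_101 : ℕ → ℕ → ℕ → ℕ → Bool := onCell 536870912 536870912 536870912 536870912 134217728 67108864
    (rowN 3 0 false false false .npn 1 0 1 (qsf 536870912 536870912 536870912 536870912 0) ndN3q1 ndN0q1 pcN0 Cut.none Ext.none)

def k0_mm_101 : ∃ t, chk3 f_mm_101 t 1 1 1 = true :=
  ⟨(b (l 3) (l 5)), by decide +kernel⟩

theorem c_mm_101 : CertN 536870912 536870912 536870912 536870912 134217728 67108864 3 false false false .npn 1 0 1
    ndN3q1 ndN0q1 pcN0 Cut.none Ext.none :=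
  certN0 (fam := false) (s1 := false) (s2 := false) (a := 1) (b := 0) (c := 1) (cn := .npn) (n1 := ndN3q1) (n2 := ndN0q1) (pc := pcN0) (cut := Cut.none) (xt := Ext.none) (P1 := 536870912) (W1 := 536870912) (P2 := 536870912) (W2 := 536870912) (P3 := 134217728) (W3 := 67108864) (N0 := 3)
    rfl k0_mm_101

noncomputable def f_mm_102 : ℕ → ℕ → ℕ → ℕ → Bool := onCell 536870912 536870912 0 536870912 134217728 67108864
    (rowN 3 0 false false false .npp 1 0 2 (qsf 536870912 536870912 0 536870912 0) ndN3q1 ndN0q2 pcN0 Cut.none Ext.none)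

def k0_mm_102 : ∃ t, chk3 f_mm_102 t 1 1 1 = true :=
  ⟨(l 5), by decide +kernel⟩

theorem c_mm_102 : CertN 536870912 536870912 0 536870912 134217728 67108864 3 false false false .npp 1 0 2
    ndN3q1 ndN0q2 pcN0 Cut.none Ext.none :=
  certN0 (fam := false) (s1 := false) (s2 := false) (a := 1) (b := 0) (c := 2) (cn := .npp) (n1 := ndN3q1) (n2 := ndN0q2) (pc := pcN0) (cut := Cut.none) (xt := Ext.none) (P1 := 536870912) (W1 := 536870912) (P2 := 0) (W2 := 536870912) (P3 := 134217728) (W3 := 67108864) (N0 := 3)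
    rfl k0_mm_102

noncomputable def f_mm_112 : ℕ → ℕ → ℕ → ℕ → Bool := onCell 536870912 536870912 0 536870912 134217728 67108864
    (rowN 3 0 false false false .dn 1 1 2 (qsf 536870912 536870912 0 536870912 1) ndN3q1 ndN0q2 pcN1 Cut.none Ext.none)

def k0_mm_112 : ∃ t, chk3 f_mm_112 t 1 1 1 = true :=
  ⟨(l 5), by decide +kernel⟩

theorem c_mm_112 : CertN 536870912 536870912 0 536870912 134217728 67108864 3 false false false .dn 1 1 2
    ndN3q1 ndN0q2 pcN1 Cut.none Ext.none :=
  certN0 (fam := false) (s1 := false) (s2 := false) (a := 1) (b := 1) (c := 2) (cn := .dn) (n1 := ndN3q1) (n2 := ndN0q2) (pc := pcN1) (cut := Cut.none) (xt := Ext.none) (P1 := 536870912) (W1 := 536870912) (P2 := 0) (W2 := 536870912) (P3 := 134217728) (W3 := 67108864) (N0 := 3)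
    rfl k0_mm_112

noncomputable def f_mm_202 : ℕ → ℕ → ℕ → ℕ → Bool := onCell 1073741824 536870912 0 536870912 134217728 67108864
    (rowN 3 0 false false false .pp 2 0 2 (qsf 1073741824 536870912 0 536870912 0) ndN3q2 ndN0q2 pcN0 Cut.none Ext.none)

def k0_mm_202 : ∃ t, chk3 f_mm_202 t 1 1 1 = true :=
  ⟨(l 3), by decide +kernel⟩

theorem c_mm_202 : CertN 1073741824 536870912 0 536870912 134217728 67108864 3 false false false .pp 2 0 2
    ndN3q2 ndN0q2 pcN0 Cut.none Ext.none :=
  certN0 (fam := false) (s1 := false) (s2 := false) (a := 2) (b := 0) (c := 2) (cn := .pp) (n1 := ndN3q2) (n2 := ndN0q2) (pc := pcN0) (cut := Cut.none) (xt := Ext.none) (P1 := 1073741824) (W1 := 536870912) (P2 := 0) (W2 := 536870912) (P3 := 134217728) (W3 := 67108864) (N0 := 3)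
    rfl k0_mm_202

end Pool.Agent.Strip051.G.I1_8_3_16.Tab.C.NB30

namespace Pool.Agent.Strip051.G.I1_8_3_16.Tab.C.NB31

open Pool.Agent.Strip051.PB Pool.Agent.Strip051.PB.T
open Pool.Agent.Strip051.G.I1_8_3_16.Tab

noncomputable def f_pp_001 : ℕ → ℕ → ℕ → ℕ → Bool := onCell 0 536870912 536870912 536870912 134217728 67108864
    (rowN 3 0 false true true .up 0 0 1 (qsf 0 536870912 536870912 536870912 0) ndN3q0 ndN1q1 pcN0 Cut.none Ext.none)

def k0_pp_001 : ∃ t, chk3 f_pp_001 t 1 1 1 = true :=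
  ⟨(l 3), by decide +kernel⟩

theorem c_pp_001 : CertN 0 536870912 536870912 536870912 134217728 67108864 3 false true true .up 0 0 1
    ndN3q0 ndN1q1 pcN0 Cut.none Ext.none :=
  certN0 (fam := false) (s1 := true) (s2 := true) (a := 0) (b := 0) (c := 1) (cn := .up) (n1 := ndN3q0) (n2 := ndN1q1) (pc := pcN0) (cut := Cut.none) (xt := Ext.none) (P1 := 0) (W1 := 536870912) (P2 := 536870912) (W2 := 536870912) (P3 := 134217728) (W3 := 67108864) (N0 := 3)
    rfl k0_pp_001

noncomputable def f_pp_011 : ℕ → ℕ → ℕ → ℕ → Bool := onCell 0 536870912 536870912 536870912 134217728 67108864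
    (rowN 3 0 false true true .pnn 0 1 1 (qsf 0 536870912 536870912 536870912 1) ndN3q0 ndN1q1 pcN1 Cut.none Ext.none)

def k0_pp_011 : ∃ t, chk3 f_pp_011 t 1 1 1 = true :=
  ⟨(l 3), by decide +kernel⟩

theorem c_pp_011 : CertN 0 536870912 536870912 536870912 134217728 67108864 3 false true true .pnn 0 1 1
    ndN3q0 ndN1q1 pcN1 Cut.none Ext.none :=
  certN0 (fam := false) (s1 := true) (s2 := true) (a := 0) (b := 1) (c := 1) (cn := .pnn) (n1 := ndN3q0) (n2 := ndN1q1) (pc := pcN1) (cut := Cut.none) (xt := Ext.none) (P1 := 0) (W1 := 536870912) (P2 := 536870912) (W2 := 536870912) (P3 := 134217728) (W3 := 67108864) (N0 := 3)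
    rfl k0_pp_011

noncomputable def f_pp_012_a : ℕ → ℕ → ℕ → ℕ → Bool := onCell 536870912 536870912 0 536870912 134217728 67108864
    (rowN 3 2 false true true .pnp 0 1 2 (qsf 0 536870912 0 536870912 1) ndN3q0 ndN1q2a pcN1 Cut.none Ext.none)

def k0_pp_012_a : ∃ t, chk3 f_pp_012_a t 1 1 1 = true :=
  ⟨(a (a (b (l 16959832) (b (l 17160272) (a (l 17390008) (l 17252920)))) (b (l 16866016) (b (l 16999376) (l 17306824)))) (a (b (l 16939184) (b (l 16996536) (a (l 17123328) (l 17150688)))) (b (b (l 17131144) (l 17048344)) (b (a (l 17092192) (l 17132648)) (a (b (l 17133768) (l 17222208)) (b (l 17174344) (a (l 17245528) (l 17257024)))))))), by decide +kernel⟩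

theorem c_pp_012_a : CertN 0 536870912 0 536870912 134217728 67108864 3 false true true .pnp 0 1 2
    ndN3q0 ndN1q2a pcN1 Cut.none Ext.none :=
  certN2 (fam := false) (s1 := true) (s2 := true) (a := 0) (b := 1) (c := 2) (cn := .pnp) (n1 := ndN3q0) (n2 := ndN1q2a) (pc := pcN1) (cut := Cut.none) (xt := Ext.none) (P1 := 0) (W1 := 536870912) (P2 := 0) (W2 := 536870912) (P3 := 134217728) (W3 := 67108864) (N0 := 3)
    rfl (fun _ => rfl) k0_pp_012_a

noncomputable def f_pp_012_b : ℕ → ℕ → ℕ → ℕ → Bool := onCell 536870912 536870912 1239849684 370763052 134217728 67108864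
    (rowN 3 2 false true true .pnp 0 1 2 (qsf 0 536870912 1239849684 370763052 1) ndN3q0 ndN1q2b pcN1 Cut.none Ext.none)

def k0_pp_012_b : ∃ t, chk3 f_pp_012_b t 1 1 1 = true :=
  ⟨(a (b (l 17103992) (l 2)) (b (a (l 17324768) (a (l 17564880) (l 17692248))) (a (l 17703176) (l 18170968)))), by decide +kernel⟩

theorem c_pp_012_b : CertN 0 536870912 1239849684 370763052 134217728 67108864 3 false true true .pnp 0 1 2
    ndN3q0 ndN1q2b pcN1 Cut.none Ext.none :=
  certN2 (fam := false) (s1 := true) (s2 := true) (a := 0) (b := 1) (c := 2) (cn := .pnp) (n1 := ndN3q0) (n2 := ndN1q2b) (pc := pcN1) (cut := Cut.none) (xt := Ext.none) (P1 := 0) (W1 := 536870912) (P2 := 1239849684) (W2 := 370763052) (P3 := 134217728) (W3 := 67108864) (N0 := 3)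
    rfl (fun _ => rfl) k0_pp_012_b

noncomputable def f_pp_022_a : ℕ → ℕ → ℕ → ℕ → Bool := onCell 1073741824 536870912 0 536870912 134217728 67108864
    (rowN 3 2 false true true .pp 0 2 2 (qsf 0 536870912 0 536870912 2) ndN3q0 ndN1q2a pcN2 Cut.none Ext.none)

def k0_pp_022_a : ∃ t, chk3 f_pp_022_a t 1 1 1 = true :=
  ⟨(a (b (a (a (l 17353648) (a (a (l 17335176) (l 17321416)) (a (l 17308168) (l 17296552)))) (a (a (a (l 17282008) (b (l 17269032) (l 443490414327))) (l 469797003383)) (l 1))) (a (b (a (a (l 17359120) (l 17344952)) (a (a (l 17340048) (a (l 17334968) (l 17331384))) (a (b (l 17310376) (l 17531584)) (b (l 17295656) (l 1))))) (a (b (a (l 17336592) (b (l 17331520) (l 180960233575))) (a (b (l 17328216) (l 222836132711)) (b (l 401614177703) (l 1)))) (a (a (b (l 403224811303) (l 1)) (l 1)) (l 1)))) (b (l 1) (l 1)))) (l 1)), by decide +kernel⟩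

theorem c_pp_022_a : CertN 0 536870912 0 536870912 134217728 67108864 3 false true true .pp 0 2 2
    ndN3q0 ndN1q2a pcN2 Cut.none Ext.none :=
  certN2 (fam := false) (s1 := true) (s2 := true) (a := 0) (b := 2) (c := 2) (cn := .pp) (n1 := ndN3q0) (n2 := ndN1q2a) (pc := pcN2) (cut := Cut.none) (xt := Ext.none) (P1 := 0) (W1 := 536870912) (P2 := 0) (W2 := 536870912) (P3 := 134217728) (W3 := 67108864) (N0 := 3)
    rfl (fun _ => rfl) k0_pp_022_a

noncomputable def f_pp_022_b : ℕ → ℕ → ℕ → ℕ → Bool := onCell 0 536870912 1073741824 536870912 134217728 67108864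
    (rowN 3 1 false true true .pp 0 2 2 (qsf 0 536870912 1239849684 370763052 2) ndN3q0 ndN1q2b pcN2 Cut.none Ext.none)

def k0_pp_022_b : ∃ t, chk3 f_pp_022_b t 1 1 1 = true :=
  ⟨(a (b (a (b (b (l 390340314231) (b (b (l 17324856) (l 406983272087)) (a (l 455301600823) (l 17358280)))) (b (b (b (l 17264056) (l 17338840)) (l 17470112)) (a (l 17462200) (l 18032360)))) (b (b (l 17879552) (b (b (l 18045416) (l 18104200)) (l 18182704))) (b (l 18415848) (l 18429080)))) (b (a (l 18156656) (l 18492640)) (a (l 18305256) (l 18394656)))) (b (b (l 18689824) (l 18714888)) (b (l 18511480) (l 2)))), by decide +kernel⟩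

theorem c_pp_022_b : CertN 0 536870912 1239849684 370763052 134217728 67108864 3 false true true .pp 0 2 2
    ndN3q0 ndN1q2b pcN2 Cut.none Ext.none :=
  certN1 (fam := false) (s1 := true) (s2 := true) (a := 0) (b := 2) (c := 2) (cn := .pp) (n1 := ndN3q0) (n2 := ndN1q2b) (pc := pcN2) (cut := Cut.none) (xt := Ext.none) (P1 := 0) (W1 := 536870912) (P2 := 1239849684) (W2 := 370763052) (P3 := 134217728) (W3 := 67108864) (N0 := 3)
    rfl (fun _ => rfl) k0_pp_022_b

noncomputable def f_pp_023 : ℕ → ℕ → ℕ → ℕ → Bool := onCell 1073741824 536870912 1610612736 536870912 134217728 67108864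
    (rowN 3 2 false true true .up 0 2 3 (qsf 0 536870912 1610612736 536870912 2) ndN3q0 ndN1q3 pcN2 Cut.none Ext.none)

def k0_pp_023 : ∃ t, chk3 f_pp_023 t 1 1 1 = true :=
  ⟨(b (a (l 18851264) (a (l 18572616) (l 18318480))) (a (a (l 2) (l 18732352)) (a (l 18504160) (l 18202272)))), by decide +kernel⟩

theorem c_pp_023 : CertN 0 536870912 1610612736 536870912 134217728 67108864 3 false true true .up 0 2 3
    ndN3q0 ndN1q3 pcN2 Cut.none Ext.none :=
  certN2 (fam := false) (s1 := true) (s2 := true) (a := 0) (b := 2) (c := 3) (cn := .up) (n1 := ndN3q0) (n2 := ndN1q3) (pc := pcN2) (cut := Cut.none) (xt := Ext.none) (P1 := 0) (W1 := 536870912) (P2 := 1610612736) (W2 := 536870912) (P3 := 134217728) (W3 := 67108864) (N0 := 3)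
    rfl (fun _ => rfl) k0_pp_023

noncomputable def f_pp_033 : ℕ → ℕ → ℕ → ℕ → Bool := onCell 0 536870912 1610612736 536870912 134217728 67108864
    (rowN 3 0 false true true .pnn 0 3 3 (qsf 0 536870912 1610612736 536870912 3) ndN3q0 ndN1q3 pcN3 Cut.none Ext.none)

def k0_pp_033 : ∃ t, chk3 f_pp_033 t 1 1 1 = true :=
  ⟨(a (b (b (a (b (l 17932432) (l 18006440)) (b (l 1) (l 18171632))) (a (a (l 17839888) (b (l 18084160) (l 4))) (b (l 18237096) (l 18160032)))) (l 4)) (b (a (b (l 1) (b (l 1) (l 18410480))) (l 1)) (b (a (l 4) (b (l 1) (l 4))) (l 4)))), by decide +kernel⟩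

theorem c_pp_033 : CertN 0 536870912 1610612736 536870912 134217728 67108864 3 false true true .pnn 0 3 3
    ndN3q0 ndN1q3 pcN3 Cut.none Ext.none :=
  certN0 (fam := false) (s1 := true) (s2 := true) (a := 0) (b := 3) (c := 3) (cn := .pnn) (n1 := ndN3q0) (n2 := ndN1q3) (pc := pcN3) (cut := Cut.none) (xt := Ext.none) (P1 := 0) (W1 := 536870912) (P2 := 1610612736) (W2 := 536870912) (P3 := 134217728) (W3 := 67108864) (N0 := 3)
    rfl k0_pp_033

noncomputable def f_pp_101 : ℕ → ℕ → ℕ → ℕ → Bool := onCell 536870912 536870912 536870912 536870912 134217728 67108864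
    (rowN 3 0 false true true .npn 1 0 1 (qsf 536870912 536870912 536870912 536870912 0) ndN3q1 ndN1q1 pcN0 Cut.none Ext.none)

def k0_pp_101 : ∃ t, chk3 f_pp_101 t 1 1 1 = true :=
  ⟨(l 3), by decide +kernel⟩

theorem c_pp_101 : CertN 536870912 536870912 536870912 536870912 134217728 67108864 3 false true true .npn 1 0 1
    ndN3q1 ndN1q1 pcN0 Cut.none Ext.none :=
  certN0 (fam := false) (s1 := true) (s2 := true) (a := 1) (b := 0) (c := 1) (cn := .npn) (n1 := ndN3q1) (n2 := ndN1q1) (pc := pcN0) (cut := Cut.none) (xt := Ext.none) (P1 := 536870912) (W1 := 536870912) (P2 := 536870912) (W2 := 536870912) (P3 := 134217728) (W3 := 67108864) (N0 := 3)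
    rfl k0_pp_101

noncomputable def cut_pp_102_a : Cut := Cut.of [[⟨0, 1, 0, 67108864⟩, ⟨1, 0, 0, 67108864⟩, ⟨2, 1, 0, 67108864⟩]]

noncomputable def f_pp_102_a : ℕ → ℕ → ℕ → ℕ → Bool := onCell 536870912 536870912 0 536870912 134217728 67108864
    (rowN 3 0 false true true .npp 1 0 2 (qsf 536870912 536870912 0 536870912 0) ndN3q1 ndN1q2a pcN0 cut_pp_102_a Ext.none)

def k0_pp_102_a : ∃ t, chk3 f_pp_102_a t 2 1 1 = true :=
  ⟨(b (a (b (l 2) (l 17830856)) (b (l 17912088) (l 17938544))) (a (b (l 17860896) (b (l 17833368) (a (l 17798312) (l 17742112)))) (b (a (l 17883880) (l 17873856)) (b (a (l 17787096) (l 17717296)) (b (a (l 17700856) (l 17593536)) (a (l 17625568) (c (l 17608392) (l 17376560)))))))), by decide +kernel⟩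

def k1_pp_102_a : ∃ t, chk3 f_pp_102_a t 3 1 1 = true :=
  ⟨(b (a (a (l 17979440) (b (l 17996776) (l 17912840))) (a (b (a (l 17891664) (l 17735856)) (a (l 17735504) (l 17490912))) (b (a (l 17462784) (l 16996984)) (a (l 17035192) (l 16644752))))) (a (b (a (b (l 17876248) (l 17753832)) (b (l 17737424) (a (l 17606448) (l 17426592)))) (a (b (a (l 17619448) (l 17512984)) (b (a (l 17458008) (l 17316288)) (a (c (l 17468320) (b (l 17225056) (l 17163504))) (b (l 17204728) (c (l 17284400) (l 16971000)))))) (b (a (l 17348288) (b (l 17185088) (l 16986808))) (a (b (c (l 17303824) (l 16899984)) (a (b (l 17036816) (l 16741216)) (c (l 16940536) (l 16662656)))) (b (a (l 16866824) (l 16653608)) (b (l 16692256) (c (l 16726128) (l 16736360)))))))) (a (b (a (b (l 17454416) (l 17125720)) (b (l 17084000) (l 16702992))) (b (a (b (l 16787056) (l 16603888)) (a (l 16591624) (l 16608168))) (a (a (b (l 16609184) (b (l 16651248) (b (l 16683632) (l 16705560)))) (b (l 16627504) (b (l 16683520)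 (a (l 16704720) (l 16720896))))) (b (a (l 16667112) (l 16644688)) (a (b (l 16695464) (b (l 16727520) (c (l 16749824) (l 16748664)))) (b (l 16685696) (b (l 16717848) (c (l 16719304) (l 16718184))))))))) (b (a (b (l 16504608) (l 16581960)) (b (l 16507608) (b (l 16553216) (l 16586568)))) (b (a (b (l 16601040) (l 16678568)) (a (b (l 16619192) (l 16671808)) (b (l 16624920) (l 16715096)))) (b (a (a (l 16666336) (b (l 16656760) (l 16672992))) (a (b (l 16675096) (l 6)) (l 6))) (a (a (b (l 16694968) (b (l 16727176) (c (l 16749328) (l 16748592)))) (b (l 16716912) (l 6))) (l 6)))))))), by decide +kernel⟩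

theorem s2_pp_102_a : ∃ t, chk3 f_pp_102_a t 1 1 1 = true := ex3_a k0_pp_102_a k1_pp_102_a

theorem c_pp_102_a : CertN 536870912 536870912 0 536870912 134217728 67108864 3 false true true .npp 1 0 2
    ndN3q1 ndN1q2a pcN0 cut_pp_102_a Ext.none :=
  certN0 (fam := false) (s1 := true) (s2 := true) (a := 1) (b := 0) (c := 2) (cn := .npp) (n1 := ndN3q1) (n2 := ndN1q2a) (pc := pcN0) (cut := cut_pp_102_a) (xt := Ext.none) (P1 := 536870912) (W1 := 536870912) (P2 := 0) (W2 := 536870912) (P3 := 134217728) (W3 := 67108864) (N0 := 3)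
    rfl s2_pp_102_a

noncomputable def cut_pp_102_b : Cut := Cut.of [[⟨0, 1, 0, 67108864⟩, ⟨1, 0, 0, 67108864⟩, ⟨2, 1, 0, 67108864⟩]]

noncomputable def f_pp_102_b : ℕ → ℕ → ℕ → ℕ → Bool := onCell 536870912 536870912 1239849684 370763052 134217728 67108864
    (rowN 3 0 false true true .npp 1 0 2 (qsf 536870912 536870912 1239849684 370763052 0) ndN3q1 ndN1q2b pcN0 cut_pp_102_b Ext.none)

def k0_pp_102_b : ∃ t, chk3 f_pp_102_b t 1 1 1 = true :=
  ⟨(a (b (a (l 2) (l 18095704)) (l 2)) (a (b (a (l 18300920) (b (l 18249504) (l 18580872))) (a (l 2) (l 18784504))) (a (b (b (a (l 18253328) (l 18217488)) (l 18750960)) (l 19044720)) (b (b (b (l 17764000) (l 18283232)) (l 18803600)) (l 19256712))))), by decide +kernel⟩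

theorem c_pp_102_b : CertN 536870912 536870912 1239849684 370763052 134217728 67108864 3 false true true .npp 1 0 2
    ndN3q1 ndN1q2b pcN0 cut_pp_102_b Ext.none :=
  certN0 (fam := false) (s1 := true) (s2 := true) (a := 1) (b := 0) (c := 2) (cn := .npp) (n1 := ndN3q1) (n2 := ndN1q2b) (pc := pcN0) (cut := cut_pp_102_b) (xt := Ext.none) (P1 := 536870912) (W1 := 536870912) (P2 := 1239849684) (W2 := 370763052) (P3 := 134217728) (W3 := 67108864) (N0 := 3)
    rfl k0_pp_102_b

noncomputable def f_pp_112_a : ℕ → ℕ → ℕ → ℕ → Bool := onCell 536870912 536870912 0 536870912 134217728 67108864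
    (rowN 3 2 false true true .dn 1 1 2 (qsf 536870912 536870912 0 536870912 1) ndN3q1 ndN1q2a pcN1 Cut.none Ext.none)

def k0_pp_112_a : ∃ t, chk3 f_pp_112_a t 1 1 1 = true :=
  ⟨(a (b (a (l 18270928) (l 18154416)) (a (b (l 18140664) (b (l 18063344) (a (l 17971200) (l 1)))) (l 479999331879))) (l 1)), by decide +kernel⟩

theorem c_pp_112_a : CertN 536870912 536870912 0 536870912 134217728 67108864 3 false true true .dn 1 1 2
    ndN3q1 ndN1q2a pcN1 Cut.none Ext.none :=
  certN2 (fam := false) (s1 := true) (s2 := true) (a := 1) (b := 1) (c := 2) (cn := .dn) (n1 := ndN3q1) (n2 := ndN1q2a) (pc := pcN1) (cut := Cut.none) (xt := Ext.none) (P1 := 536870912) (W1 := 536870912) (P2 := 0) (W2 := 536870912) (P3 := 134217728) (W3 := 67108864) (N0 := 3)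
    rfl (fun _ => rfl) k0_pp_112_a

noncomputable def f_pp_112_b : ℕ → ℕ → ℕ → ℕ → Bool := onCell 536870912 536870912 1239849684 370763052 134217728 67108864
    (rowN 3 0 false true true .dn 1 1 2 (qsf 536870912 536870912 1239849684 370763052 1) ndN3q1 ndN1q2b pcN1 Cut.none Ext.none)

def k0_pp_112_b : ∃ t, chk3 f_pp_112_b t 1 1 1 = true :=
  ⟨(a (b (l 18349496) (l 18240248)) (b (a (a (l 18560456) (l 18871400)) (l 1)) (a (l 18549896) (a (l 18778616) (l 18895864))))), by decide +kernel⟩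

theorem c_pp_112_b : CertN 536870912 536870912 1239849684 370763052 134217728 67108864 3 false true true .dn 1 1 2
    ndN3q1 ndN1q2b pcN1 Cut.none Ext.none :=
  certN0 (fam := false) (s1 := true) (s2 := true) (a := 1) (b := 1) (c := 2) (cn := .dn) (n1 := ndN3q1) (n2 := ndN1q2b) (pc := pcN1) (cut := Cut.none) (xt := Ext.none) (P1 := 536870912) (W1 := 536870912) (P2 := 1239849684) (W2 := 370763052) (P3 := 134217728) (W3 := 67108864) (N0 := 3)
    rfl k0_pp_112_b

noncomputable def f_pp_113 : ℕ → ℕ → ℕ → ℕ → Bool := onCell 536870912 536870912 536870912 536870912 134217728 67108864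
    (rowN 3 1 false true true .nn 1 1 3 (qsf 536870912 536870912 1610612736 536870912 1) ndN3q1 ndN1q3 pcN1 Cut.none Ext.none)

def k0_pp_113 : ∃ t, chk3 f_pp_113 t 1 1 1 = true :=
  ⟨(a (b (l 449934798023) (l 513285074471)) (b (a (l 510064654375) (a (l 18477752) (l 18480712))) (a (b (l 18004656) (b (l 17706576) (l 17458400))) (b (a (l 17956152) (l 17832088)) (a (b (l 17561224) (l 17258968)) (b (l 17396648) (l 17059592))))))), by decide +kernel⟩

theorem c_pp_113 : CertN 536870912 536870912 1610612736 536870912 134217728 67108864 3 false true true .nn 1 1 3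
    ndN3q1 ndN1q3 pcN1 Cut.none Ext.none :=
  certN1 (fam := false) (s1 := true) (s2 := true) (a := 1) (b := 1) (c := 3) (cn := .nn) (n1 := ndN3q1) (n2 := ndN1q3) (pc := pcN1) (cut := Cut.none) (xt := Ext.none) (P1 := 536870912) (W1 := 536870912) (P2 := 1610612736) (W2 := 536870912) (P3 := 134217728) (W3 := 67108864) (N0 := 3)
    rfl (fun _ => rfl) k0_pp_113

noncomputable def f_pp_123 : ℕ → ℕ → ℕ → ℕ → Bool := onCell 536870912 536870912 1610612736 536870912 134217728 67108864
    (rowN 3 0 false true true .npn 1 2 3 (qsf 536870912 536870912 1610612736 536870912 2) ndN3q1 ndN1q3 pcN2 Cut.none Ext.none)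

def k0_pp_123 : ∃ t, chk3 f_pp_123 t 1 1 1 = true :=
  ⟨(a (b (a (b (l 18044392) (l 17747432)) (l 570730080039)) (a (b (l 17372784) (l 4)) (b (l 17422304) (b (l 17105976) (l 4))))) (b (a (a (l 17859840) (l 1)) (l 1)) (a (b (a (l 17397000) (l 17343856)) (a (l 17006624) (l 16992016))) (a (b (l 17429104) (l 16992064)) (l 726421308023))))), by decide +kernel⟩

theorem c_pp_123 : CertN 536870912 536870912 1610612736 536870912 134217728 67108864 3 false true true .npn 1 2 3
    ndN3q1 ndN1q3 pcN2 Cut.none Ext.none :=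
  certN0 (fam := false) (s1 := true) (s2 := true) (a := 1) (b := 2) (c := 3) (cn := .npn) (n1 := ndN3q1) (n2 := ndN1q3) (pc := pcN2) (cut := Cut.none) (xt := Ext.none) (P1 := 536870912) (W1 := 536870912) (P2 := 1610612736) (W2 := 536870912) (P3 := 134217728) (W3 := 67108864) (N0 := 3)
    rfl k0_pp_123

noncomputable def f_pp_133 : ℕ → ℕ → ℕ → ℕ → Bool := onCell 1610612736 536870912 1610612736 536870912 134217728 67108864
    (rowN 3 2 false true true .dn 1 3 3 (qsf 536870912 536870912 1610612736 536870912 3) ndN3q1 ndN1q3 pcN3 Cut.none Ext.none)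

def k0_pp_133 : ∃ t, chk3 f_pp_133 t 1 1 1 = true :=
  ⟨(a (b (l 1) (a (l 4) (l 1))) (l 1)), by decide +kernel⟩

theorem c_pp_133 : CertN 536870912 536870912 1610612736 536870912 134217728 67108864 3 false true true .dn 1 3 3
    ndN3q1 ndN1q3 pcN3 Cut.none Ext.none :=
  certN2 (fam := false) (s1 := true) (s2 := true) (a := 1) (b := 3) (c := 3) (cn := .dn) (n1 := ndN3q1) (n2 := ndN1q3) (pc := pcN3) (cut := Cut.none) (xt := Ext.none) (P1 := 536870912) (W1 := 536870912) (P2 := 1610612736) (W2 := 536870912) (P3 := 134217728) (W3 := 67108864) (N0 := 3)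
    rfl (fun _ => rfl) k0_pp_133

noncomputable def f_pp_202_a : ℕ → ℕ → ℕ → ℕ → Bool := onCell 1073741824 536870912 0 536870912 134217728 67108864
    (rowN 3 0 false true true .pp 2 0 2 (qsf 1073741824 536870912 0 536870912 0) ndN3q2 ndN1q2a pcN0 Cut.none Ext.none)

def k0_pp_202_a : ∃ t, chk3 f_pp_202_a t 1 1 1 = true :=
  ⟨(l 3), by decide +kernel⟩

theorem c_pp_202_a : CertN 1073741824 536870912 0 536870912 134217728 67108864 3 false true true .pp 2 0 2
    ndN3q2 ndN1q2a pcN0 Cut.none Ext.none :=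
  certN0 (fam := false) (s1 := true) (s2 := true) (a := 2) (b := 0) (c := 2) (cn := .pp) (n1 := ndN3q2) (n2 := ndN1q2a) (pc := pcN0) (cut := Cut.none) (xt := Ext.none) (P1 := 1073741824) (W1 := 536870912) (P2 := 0) (W2 := 536870912) (P3 := 134217728) (W3 := 67108864) (N0 := 3)
    rfl k0_pp_202_a

noncomputable def f_pp_202_b : ℕ → ℕ → ℕ → ℕ → Bool := onCell 1073741824 536870912 1239849684 370763052 134217728 67108864
    (rowN 3 0 false true true .pp 2 0 2 (qsf 1073741824 536870912 1239849684 370763052 0) ndN3q2 ndN1q2b pcN0 Cut.none Ext.none)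

def k0_pp_202_b : ∃ t, chk3 f_pp_202_b t 1 1 1 = true :=
  ⟨(l 3), by decide +kernel⟩

theorem c_pp_202_b : CertN 1073741824 536870912 1239849684 370763052 134217728 67108864 3 false true true .pp 2 0 2
    ndN3q2 ndN1q2b pcN0 Cut.none Ext.none :=
  certN0 (fam := false) (s1 := true) (s2 := true) (a := 2) (b := 0) (c := 2) (cn := .pp) (n1 := ndN3q2) (n2 := ndN1q2b) (pc := pcN0) (cut := Cut.none) (xt := Ext.none) (P1 := 1073741824) (W1 := 536870912) (P2 := 1239849684) (W2 := 370763052) (P3 := 134217728) (W3 := 67108864) (N0 := 3)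
    rfl k0_pp_202_b

noncomputable def f_pp_203 : ℕ → ℕ → ℕ → ℕ → Bool := onCell 1073741824 536870912 0 536870912 134217728 67108864
    (rowN 3 1 false true true .up 2 0 3 (qsf 1073741824 536870912 1610612736 536870912 0) ndN3q2 ndN1q3 pcN0 Cut.none Ext.none)

def k0_pp_203 : ∃ t, chk3 f_pp_203 t 1 1 1 = true :=
  ⟨(l 3), by decide +kernel⟩

theorem c_pp_203 : CertN 1073741824 536870912 1610612736 536870912 134217728 67108864 3 false true true .up 2 0 3
    ndN3q2 ndN1q3 pcN0 Cut.none Ext.none :=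
  certN1 (fam := false) (s1 := true) (s2 := true) (a := 2) (b := 0) (c := 3) (cn := .up) (n1 := ndN3q2) (n2 := ndN1q3) (pc := pcN0) (cut := Cut.none) (xt := Ext.none) (P1 := 1073741824) (W1 := 536870912) (P2 := 1610612736) (W2 := 536870912) (P3 := 134217728) (W3 := 67108864) (N0 := 3)
    rfl (fun _ => rfl) k0_pp_203

noncomputable def f_pp_213 : ℕ → ℕ → ℕ → ℕ → Bool := onCell 1073741824 536870912 1610612736 536870912 134217728 67108864
    (rowN 3 0 false true true .pnn 2 1 3 (qsf 1073741824 536870912 1610612736 536870912 1) ndN3q2 ndN1q3 pcN1 Cut.none Ext.none)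

def k0_pp_213 : ∃ t, chk3 f_pp_213 t 1 1 1 = true :=
  ⟨(a (b (l 3) (b (l 3) (a (a (b (l 17209952) (l 16928416)) (a (a (l 212769733799) (b (l 3) (l 17000616))) (a (l 226728436103) (l 241223991015)))) (a (a (a (l 247666476695) (l 257330197527)) (l 3)) (l 3))))) (l 3)), by decide +kernel⟩

theorem c_pp_213 : CertN 1073741824 536870912 1610612736 536870912 134217728 67108864 3 false true true .pnn 2 1 3
    ndN3q2 ndN1q3 pcN1 Cut.none Ext.none :=
  certN0 (fam := false) (s1 := true) (s2 := true) (a := 2) (b := 1) (c := 3) (cn := .pnn) (n1 := ndN3q2) (n2 := ndN1q3) (pc := pcN1) (cut := Cut.none) (xt := Ext.none) (P1 := 1073741824) (W1 := 536870912) (P2 := 1610612736) (W2 := 536870912) (P3 := 134217728) (W3 := 67108864) (N0 := 3)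
    rfl k0_pp_213

noncomputable def f_pp_303 : ℕ → ℕ → ℕ → ℕ → Bool := onCell 0 1230186008 1610612736 536870912 134217728 67108864
    (rowN 3 0 false true true .npn 3 0 3 (qsf 0 1230186008 1610612736 536870912 0) ndN3q3 ndN1q3 pcN0 Cut.none Ext.none)

def k0_pp_303 : ∃ t, chk3 f_pp_303 t 1 1 1 = true :=
  ⟨(a (l 3) (l 3)), by decide +kernel⟩

theorem c_pp_303 : CertN 0 1230186008 1610612736 536870912 134217728 67108864 3 false true true .npn 3 0 3
    ndN3q3 ndN1q3 pcN0 Cut.none Ext.none :=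
  certN0 (fam := false) (s1 := true) (s2 := true) (a := 3) (b := 0) (c := 3) (cn := .npn) (n1 := ndN3q3) (n2 := ndN1q3) (pc := pcN0) (cut := Cut.none) (xt := Ext.none) (P1 := 0) (W1 := 1230186008) (P2 := 1610612736) (W2 := 536870912) (P3 := 134217728) (W3 := 67108864) (N0 := 3)
    rfl k0_pp_303

noncomputable def f_pp_313 : ℕ → ℕ → ℕ → ℕ → Bool := onCell 0 1230186008 1610612736 536870912 134217728 67108864
    (rowN 3 0 false true true .dn 3 1 3 (qsf 0 1230186008 1610612736 536870912 1) ndN3q3 ndN1q3 pcN1 Cut.none Ext.none)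

def k0_pp_313 : ∃ t, chk3 f_pp_313 t 1 1 1 = true :=
  ⟨(a (l 1) (l 3)), by decide +kernel⟩

theorem c_pp_313 : CertN 0 1230186008 1610612736 536870912 134217728 67108864 3 false true true .dn 3 1 3
    ndN3q3 ndN1q3 pcN1 Cut.none Ext.none :=
  certN0 (fam := false) (s1 := true) (s2 := true) (a := 3) (b := 1) (c := 3) (cn := .dn) (n1 := ndN3q3) (n2 := ndN1q3) (pc := pcN1) (cut := Cut.none) (xt := Ext.none) (P1 := 0) (W1 := 1230186008) (P2 := 1610612736) (W2 := 536870912) (P3 := 134217728) (W3 := 67108864) (N0 := 3)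
    rfl k0_pp_313

noncomputable def f_pm_001 : ℕ → ℕ → ℕ → ℕ → Bool := onCell 0 536870912 536870912 536870912 134217728 67108864
    (rowN 3 0 false true false .up 0 0 1 (qsf 0 536870912 536870912 536870912 0) ndN3q0 ndN1q1 pcN0 Cut.none Ext.none)

def k0_pm_001 : ∃ t, chk3 f_pm_001 t 1 1 1 = true :=
  ⟨(l 4), by decide +kernel⟩

theorem c_pm_001 : CertN 0 536870912 536870912 536870912 134217728 67108864 3 false true false .up 0 0 1
    ndN3q0 ndN1q1 pcN0 Cut.none Ext.none :=
  certN0 (fam := false) (s1 := true) (s2 := false) (a := 0) (b := 0) (c := 1) (cn := .up) (n1 := ndN3q0) (n2 := ndN1q1) (pc := pcN0) (cut := Cut.none) (xt := Ext.none) (P1 := 0) (W1 := 536870912) (P2 := 536870912) (W2 := 536870912) (P3 := 134217728) (W3 := 67108864) (N0 := 3)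
    rfl k0_pm_001

noncomputable def f_pm_011 : ℕ → ℕ → ℕ → ℕ → Bool := onCell 0 536870912 536870912 536870912 134217728 67108864
    (rowN 3 0 false true false .pnn 0 1 1 (qsf 0 536870912 536870912 536870912 1) ndN3q0 ndN1q1 pcN1 Cut.none Ext.none)

def k0_pm_011 : ∃ t, chk3 f_pm_011 t 1 1 1 = true :=
  ⟨(l 4), by decide +kernel⟩

theorem c_pm_011 : CertN 0 536870912 536870912 536870912 134217728 67108864 3 false true false .pnn 0 1 1
    ndN3q0 ndN1q1 pcN1 Cut.none Ext.none :=
  certN0 (fam := false) (s1 := true) (s2 := false) (a := 0) (b := 1) (c := 1) (cn := .pnn) (n1 := ndN3q0) (n2 := ndN1q1) (pc := pcN1) (cut := Cut.none) (xt := Ext.none) (P1 := 0) (W1 := 536870912) (P2 := 536870912) (W2 := 536870912) (P3 := 134217728) (W3 := 67108864) (N0 := 3)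
    rfl k0_pm_011

noncomputable def f_pm_012_a : ℕ → ℕ → ℕ → ℕ → Bool := onCell 536870912 536870912 0 536870912 134217728 67108864
    (rowN 3 2 false true false .pnp 0 1 2 (qsf 0 536870912 0 536870912 1) ndN3q0 ndN1q2a pcN1 Cut.none Ext.none)

def k0_pm_012_a : ∃ t, chk3 f_pm_012_a t 1 1 1 = true :=
  ⟨(a (l 4) (b (l 4) (l 4))), by decide +kernel⟩

theorem c_pm_012_a : CertN 0 536870912 0 536870912 134217728 67108864 3 false true false .pnp 0 1 2
    ndN3q0 ndN1q2a pcN1 Cut.none Ext.none :=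
  certN2 (fam := false) (s1 := true) (s2 := false) (a := 0) (b := 1) (c := 2) (cn := .pnp) (n1 := ndN3q0) (n2 := ndN1q2a) (pc := pcN1) (cut := Cut.none) (xt := Ext.none) (P1 := 0) (W1 := 536870912) (P2 := 0) (W2 := 536870912) (P3 := 134217728) (W3 := 67108864) (N0 := 3)
    rfl (fun _ => rfl) k0_pm_012_a

noncomputable def f_pm_012_b : ℕ → ℕ → ℕ → ℕ → Bool := onCell 536870912 536870912 1239849684 370763052 134217728 67108864
    (rowN 3 2 false true false .pnp 0 1 2 (qsf 0 536870912 1239849684 370763052 1) ndN3q0 ndN1q2b pcN1 Cut.none Ext.none)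

def k0_pm_012_b : ∃ t, chk3 f_pm_012_b t 1 1 1 = true :=
  ⟨(a (l 4) (l 4)), by decide +kernel⟩

theorem c_pm_012_b : CertN 0 536870912 1239849684 370763052 134217728 67108864 3 false true false .pnp 0 1 2
    ndN3q0 ndN1q2b pcN1 Cut.none Ext.none :=
  certN2 (fam := false) (s1 := true) (s2 := false) (a := 0) (b := 1) (c := 2) (cn := .pnp) (n1 := ndN3q0) (n2 := ndN1q2b) (pc := pcN1) (cut := Cut.none) (xt := Ext.none) (P1 := 0) (W1 := 536870912) (P2 := 1239849684) (W2 := 370763052) (P3 := 134217728) (W3 := 67108864) (N0 := 3)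
    rfl (fun _ => rfl) k0_pm_012_b

noncomputable def f_pm_022_a : ℕ → ℕ → ℕ → ℕ → Bool := onCell 0 536870912 0 536870912 134217728 67108864
    (rowN 3 0 false true false .pp 0 2 2 (qsf 0 536870912 0 536870912 2) ndN3q0 ndN1q2a pcN2 Cut.none Ext.none)

def k0_pm_022_a : ∃ t, chk3 f_pm_022_a t 1 1 1 = true :=
  ⟨(a (b (a (a (b (l 17198480) (l 4)) (l 4)) (l 4)) (l 4)) (l 1)), by decide +kernel⟩

theorem c_pm_022_a : CertN 0 536870912 0 536870912 134217728 67108864 3 false true false .pp 0 2 2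
    ndN3q0 ndN1q2a pcN2 Cut.none Ext.none :=
  certN0 (fam := false) (s1 := true) (s2 := false) (a := 0) (b := 2) (c := 2) (cn := .pp) (n1 := ndN3q0) (n2 := ndN1q2a) (pc := pcN2) (cut := Cut.none) (xt := Ext.none) (P1 := 0) (W1 := 536870912) (P2 := 0) (W2 := 536870912) (P3 := 134217728) (W3 := 67108864) (N0 := 3)
    rfl k0_pm_022_a

noncomputable def f_pm_022_b : ℕ → ℕ → ℕ → ℕ → Bool := onCell 0 536870912 1239849684 370763052 134217728 67108864
    (rowN 3 0 false true false .pp 0 2 2 (qsf 0 536870912 1239849684 370763052 2) ndN3q0 ndN1q2b pcN2 Cut.none Ext.none)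

def k0_pm_022_b : ∃ t, chk3 f_pm_022_b t 1 1 1 = true :=
  ⟨(a (b (a (b (a (b (l 17186344) (l 4)) (l 4)) (l 4)) (l 4)) (l 4)) (l 4)), by decide +kernel⟩

theorem c_pm_022_b : CertN 0 536870912 1239849684 370763052 134217728 67108864 3 false true false .pp 0 2 2
    ndN3q0 ndN1q2b pcN2 Cut.none Ext.none :=
  certN0 (fam := false) (s1 := true) (s2 := false) (a := 0) (b := 2) (c := 2) (cn := .pp) (n1 := ndN3q0) (n2 := ndN1q2b) (pc := pcN2) (cut := Cut.none) (xt := Ext.none) (P1 := 0) (W1 := 536870912) (P2 := 1239849684) (W2 := 370763052) (P3 := 134217728) (W3 := 67108864) (N0 := 3)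
    rfl k0_pm_022_b

noncomputable def f_pm_023 : ℕ → ℕ → ℕ → ℕ → Bool := onCell 0 536870912 1610612736 536870912 134217728 67108864
    (rowN 3 0 false true false .up 0 2 3 (qsf 0 536870912 1610612736 536870912 2) ndN3q0 ndN1q3 pcN2 Cut.none Ext.none)

def k0_pm_023 : ∃ t, chk3 f_pm_023 t 1 1 1 = true :=
  ⟨(l 4), by decide +kernel⟩

theorem c_pm_023 : CertN 0 536870912 1610612736 536870912 134217728 67108864 3 false true false .up 0 2 3
    ndN3q0 ndN1q3 pcN2 Cut.none Ext.none :=
  certN0 (fam := false) (s1 := true) (s2 := false) (a := 0) (b := 2) (c := 3) (cn := .up) (n1 := ndN3q0) (n2 := ndN1q3) (pc := pcN2) (cut := Cut.none) (xt := Ext.none) (P1 := 0) (W1 := 536870912) (P2 := 1610612736) (W2 := 536870912) (P3 := 134217728) (W3 := 67108864) (N0 := 3)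
    rfl k0_pm_023

noncomputable def f_pm_033 : ℕ → ℕ → ℕ → ℕ → Bool := onCell 0 536870912 1610612736 536870912 134217728 67108864
    (rowN 3 0 false true false .pnn 0 3 3 (qsf 0 536870912 1610612736 536870912 3) ndN3q0 ndN1q3 pcN3 Cut.none Ext.none)

def k0_pm_033 : ∃ t, chk3 f_pm_033 t 1 1 1 = true :=
  ⟨(l 4), by decide +kernel⟩

theorem c_pm_033 : CertN 0 536870912 1610612736 536870912 134217728 67108864 3 false true false .pnn 0 3 3
    ndN3q0 ndN1q3 pcN3 Cut.none Ext.none :=
  certN0 (fam := false) (s1 := true) (s2 := false) (a := 0) (b := 3) (c := 3) (cn := .pnn) (n1 := ndN3q0) (n2 := ndN1q3) (pc := pcN3) (cut := Cut.none) (xt := Ext.none) (P1 := 0) (W1 := 536870912) (P2 := 1610612736) (W2 := 536870912) (P3 := 134217728) (W3 := 67108864) (N0 := 3)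
    rfl k0_pm_033

noncomputable def f_pm_101 : ℕ → ℕ → ℕ → ℕ → Bool := onCell 536870912 536870912 536870912 536870912 134217728 67108864
    (rowN 3 0 false true false .npn 1 0 1 (qsf 536870912 536870912 536870912 536870912 0) ndN3q1 ndN1q1 pcN0 Cut.none Ext.none)

def k0_pm_101 : ∃ t, chk3 f_pm_101 t 1 1 1 = true :=
  ⟨(l 4), by decide +kernel⟩

theorem c_pm_101 : CertN 536870912 536870912 536870912 536870912 134217728 67108864 3 false true false .npn 1 0 1
    ndN3q1 ndN1q1 pcN0 Cut.none Ext.none :=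
  certN0 (fam := false) (s1 := true) (s2 := false) (a := 1) (b := 0) (c := 1) (cn := .npn) (n1 := ndN3q1) (n2 := ndN1q1) (pc := pcN0) (cut := Cut.none) (xt := Ext.none) (P1 := 536870912) (W1 := 536870912) (P2 := 536870912) (W2 := 536870912) (P3 := 134217728) (W3 := 67108864) (N0 := 3)
    rfl k0_pm_101

noncomputable def f_pm_102_a : ℕ → ℕ → ℕ → ℕ → Bool := onCell 536870912 536870912 0 536870912 134217728 67108864
    (rowN 3 0 false true false .npp 1 0 2 (qsf 536870912 536870912 0 536870912 0) ndN3q1 ndN1q2a pcN0 Cut.none Ext.none)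

def k0_pm_102_a : ∃ t, chk3 f_pm_102_a t 1 1 1 = true :=
  ⟨(a (l 4) (b (l 4) (l 4))), by decide +kernel⟩

theorem c_pm_102_a : CertN 536870912 536870912 0 536870912 134217728 67108864 3 false true false .npp 1 0 2
    ndN3q1 ndN1q2a pcN0 Cut.none Ext.none :=
  certN0 (fam := false) (s1 := true) (s2 := false) (a := 1) (b := 0) (c := 2) (cn := .npp) (n1 := ndN3q1) (n2 := ndN1q2a) (pc := pcN0) (cut := Cut.none) (xt := Ext.none) (P1 := 536870912) (W1 := 536870912) (P2 := 0) (W2 := 536870912) (P3 := 134217728) (W3 := 67108864) (N0 := 3)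
    rfl k0_pm_102_a

noncomputable def f_pm_102_b : ℕ → ℕ → ℕ → ℕ → Bool := onCell 536870912 536870912 1239849684 370763052 134217728 67108864
    (rowN 3 0 false true false .npp 1 0 2 (qsf 536870912 536870912 1239849684 370763052 0) ndN3q1 ndN1q2b pcN0 Cut.none Ext.none)

def k0_pm_102_b : ∃ t, chk3 f_pm_102_b t 1 1 1 = true :=
  ⟨(a (l 4) (b (l 4) (l 4))), by decide +kernel⟩

theorem c_pm_102_b : CertN 536870912 536870912 1239849684 370763052 134217728 67108864 3 false true false .npp 1 0 2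
    ndN3q1 ndN1q2b pcN0 Cut.none Ext.none :=
  certN0 (fam := false) (s1 := true) (s2 := false) (a := 1) (b := 0) (c := 2) (cn := .npp) (n1 := ndN3q1) (n2 := ndN1q2b) (pc := pcN0) (cut := Cut.none) (xt := Ext.none) (P1 := 536870912) (W1 := 536870912) (P2 := 1239849684) (W2 := 370763052) (P3 := 134217728) (W3 := 67108864) (N0 := 3)
    rfl k0_pm_102_b

noncomputable def f_pm_112_a : ℕ → ℕ → ℕ → ℕ → Bool := onCell 536870912 536870912 0 536870912 134217728 67108864
    (rowN 3 0 false true false .dn 1 1 2 (qsf 536870912 536870912 0 536870912 1) ndN3q1 ndN1q2a pcN1 Cut.none Ext.none)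

def k0_pm_112_a : ∃ t, chk3 f_pm_112_a t 1 1 1 = true :=
  ⟨(a (l 4) (l 1)), by decide +kernel⟩

theorem c_pm_112_a : CertN 536870912 536870912 0 536870912 134217728 67108864 3 false true false .dn 1 1 2
    ndN3q1 ndN1q2a pcN1 Cut.none Ext.none :=
  certN0 (fam := false) (s1 := true) (s2 := false) (a := 1) (b := 1) (c := 2) (cn := .dn) (n1 := ndN3q1) (n2 := ndN1q2a) (pc := pcN1) (cut := Cut.none) (xt := Ext.none) (P1 := 536870912) (W1 := 536870912) (P2 := 0) (W2 := 536870912) (P3 := 134217728) (W3 := 67108864) (N0 := 3)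
    rfl k0_pm_112_a

noncomputable def f_pm_112_b : ℕ → ℕ → ℕ → ℕ → Bool := onCell 536870912 536870912 1239849684 370763052 134217728 67108864
    (rowN 3 2 false true false .dn 1 1 2 (qsf 536870912 536870912 1239849684 370763052 1) ndN3q1 ndN1q2b pcN1 Cut.none Ext.none)

def k0_pm_112_b : ∃ t, chk3 f_pm_112_b t 1 1 1 = true :=
  ⟨(a (l 4) (l 4)), by decide +kernel⟩

theorem c_pm_112_b : CertN 536870912 536870912 1239849684 370763052 134217728 67108864 3 false true false .dn 1 1 2
    ndN3q1 ndN1q2b pcN1 Cut.none Ext.none :=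
  certN2 (fam := false) (s1 := true) (s2 := false) (a := 1) (b := 1) (c := 2) (cn := .dn) (n1 := ndN3q1) (n2 := ndN1q2b) (pc := pcN1) (cut := Cut.none) (xt := Ext.none) (P1 := 536870912) (W1 := 536870912) (P2 := 1239849684) (W2 := 370763052) (P3 := 134217728) (W3 := 67108864) (N0 := 3)
    rfl (fun _ => rfl) k0_pm_112_b

noncomputable def f_pm_113 : ℕ → ℕ → ℕ → ℕ → Bool := onCell 536870912 536870912 1610612736 536870912 134217728 67108864
    (rowN 3 0 false true false .nn 1 1 3 (qsf 536870912 536870912 1610612736 536870912 1) ndN3q1 ndN1q3 pcN1 Cut.none Ext.none)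

def k0_pm_113 : ∃ t, chk3 f_pm_113 t 1 1 1 = true :=
  ⟨(a (l 4) (b (l 4) (a (l 4) (a (l 4) (b (l 4) (b (l 4) (l 16910040))))))), by decide +kernel⟩

theorem c_pm_113 : CertN 536870912 536870912 1610612736 536870912 134217728 67108864 3 false true false .nn 1 1 3
    ndN3q1 ndN1q3 pcN1 Cut.none Ext.none :=
  certN0 (fam := false) (s1 := true) (s2 := false) (a := 1) (b := 1) (c := 3) (cn := .nn) (n1 := ndN3q1) (n2 := ndN1q3) (pc := pcN1) (cut := Cut.none) (xt := Ext.none) (P1 := 536870912) (W1 := 536870912) (P2 := 1610612736) (W2 := 536870912) (P3 := 134217728) (W3 := 67108864) (N0 := 3)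
    rfl k0_pm_113

noncomputable def f_pm_123 : ℕ → ℕ → ℕ → ℕ → Bool := onCell 536870912 536870912 1610612736 536870912 134217728 67108864
    (rowN 3 0 false true false .npn 1 2 3 (qsf 536870912 536870912 1610612736 536870912 2) ndN3q1 ndN1q3 pcN2 Cut.none Ext.none)

def k0_pm_123 : ∃ t, chk3 f_pm_123 t 1 1 1 = true :=
  ⟨(a (l 4) (b (l 4) (a (l 4) (a (l 4) (l 17311336))))), by decide +kernel⟩

theorem c_pm_123 : CertN 536870912 536870912 1610612736 536870912 134217728 67108864 3 false true false .npn 1 2 3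
    ndN3q1 ndN1q3 pcN2 Cut.none Ext.none :=
  certN0 (fam := false) (s1 := true) (s2 := false) (a := 1) (b := 2) (c := 3) (cn := .npn) (n1 := ndN3q1) (n2 := ndN1q3) (pc := pcN2) (cut := Cut.none) (xt := Ext.none) (P1 := 536870912) (W1 := 536870912) (P2 := 1610612736) (W2 := 536870912) (P3 := 134217728) (W3 := 67108864) (N0 := 3)
    rfl k0_pm_123

noncomputable def f_pm_133 : ℕ → ℕ → ℕ → ℕ → Bool := onCell 536870912 536870912 1610612736 536870912 134217728 67108864
    (rowN 3 0 false true false .dn 1 3 3 (qsf 536870912 536870912 1610612736 536870912 3) ndN3q1 ndN1q3 pcN3 Cut.none Ext.none)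

def k0_pm_133 : ∃ t, chk3 f_pm_133 t 1 1 1 = true :=
  ⟨(a (l 4) (l 1)), by decide +kernel⟩

theorem c_pm_133 : CertN 536870912 536870912 1610612736 536870912 134217728 67108864 3 false true false .dn 1 3 3
    ndN3q1 ndN1q3 pcN3 Cut.none Ext.none :=
  certN0 (fam := false) (s1 := true) (s2 := false) (a := 1) (b := 3) (c := 3) (cn := .dn) (n1 := ndN3q1) (n2 := ndN1q3) (pc := pcN3) (cut := Cut.none) (xt := Ext.none) (P1 := 536870912) (W1 := 536870912) (P2 := 1610612736) (W2 := 536870912) (P3 := 134217728) (W3 := 67108864) (N0 := 3)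
    rfl k0_pm_133

noncomputable def f_pm_202_a : ℕ → ℕ → ℕ → ℕ → Bool := onCell 1073741824 536870912 0 536870912 134217728 67108864
    (rowN 3 0 false true false .pp 2 0 2 (qsf 1073741824 536870912 0 536870912 0) ndN3q2 ndN1q2a pcN0 Cut.none Ext.none)

def k0_pm_202_a : ∃ t, chk3 f_pm_202_a t 2 2 1 = true :=
  ⟨(a (b (b (l 3) (a (b (a (a (l 139753916823) (l 3)) (l 3)) (a (c (l 115057883143) (l 16633736)) (c (l 138680111575) (l 139216960679)))) (a (a (c (l 138143486535) (l 137069370247)) (a (a (l 138680058055) (l 3)) (l 3))) (l 3)))) (a (a (b (l 16655648) (l 16688128)) (b (c (l 16597704) (l 16602800)) (l 16649128))) (a (a (b (c (l 16566968) (l 16550888)) (l 16666144)) (a (b (a (b (l 16558968) (l 16551776)) (c (l 16591448) (l 16590112))) (b (l 16631840) (l 16677448))) (b (b (c (l 130627034471) (l 130090173639)) (l 16613248)) (b (l 16597384) (l 16704200))))) (a (b (a (b (c (l 130626969319) (l 131163865911)) (b (l 16584168) (l 16569160))) (b (c (l 131700701383) (l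 131700704119)) (b (l 16550032) (l 16553240)))) (b (a (l 16634184) (l 16669528)) (a (l 16632392) (l 16671896)))) (b (b (a (c (l 130626965703) (l 131700678247)) (c (l 130626963767) (l 131163803351))) (a (b (l 16563144) (l 16552168)) (b (l 16560392) (l 16565128)))) (b (a (b (l 16577904) (l 16587832)) (l 16630024)) (a (l 16711016) (l 16750152)))))))) (b (l 3) (a (a (a (b (a (b (c (l 129553308615) (l 132237543623)) (c (l 16603448) (b (l 16541000) (l 16511344)))) (b (b (l 3) (c (l 129553233639) (l 130090069863))) (b (c (l 16574368) (l 16569552)) (l 16634384)))) (b (a (b (l 16588008) (l 16668216)) (l 16733048)) (l 17016232))) (b (a (b (b (l 3) (a (c (l 146733098231) (l 147269932215)) (l 1))) (b (l 1) (l 1))) (l 1)) (l 1))) (l 1)) (l 1)))), by decide +kernel⟩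

def k1_pm_202_a : ∃ t, chk3 f_pm_202_a t 2 3 1 = true :=
  ⟨(a (b (a (b (a (l 16748480) (b (l 16677344) (l 16738456))) (a (b (l 16704872) (l 16869424)) (b (l 16861872) (l 17031648)))) (a (a (b (l 16909152) (l 17161208)) (b (a (b (l 16718048) (l 16885360)) (b (l 16782928) (l 16928264))) (a (l 17368136) (b (l 17093680) (l 1))))) (b (a (a (l 17051192) (l 17089072)) (a (l 17126192) (l 17141920))) (a (b (l 17299672) (l 1)) (l 1))))) (a (b (a (b (l 17040320) (l 17241352)) (b (l 17272584) (a (l 17311664) (l 17360536)))) (a (b (a (l 17320432) (l 17365696)) (l 17450704)) (c (l 17524208) (l 17437760)))) (a (a (b (b (l 17310784) (l 1)) (l 1)) (l 1)) (l 1)))) (b (l 1) (l 1))), by decide +kernel⟩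

def k2_pm_202_a : ∃ t, chk3 f_pm_202_a t 3 1 1 = true :=
  ⟨(l 1), by decide +kernel⟩

theorem s3_pm_202_a : ∃ t, chk3 f_pm_202_a t 2 1 1 = true := ex3_b k0_pm_202_a k1_pm_202_a

theorem s4_pm_202_a : ∃ t, chk3 f_pm_202_a t 1 1 1 = true := ex3_a s3_pm_202_a k2_pm_202_a

theorem c_pm_202_a : CertN 1073741824 536870912 0 536870912 134217728 67108864 3 false true false .pp 2 0 2
    ndN3q2 ndN1q2a pcN0 Cut.none Ext.none :=
  certN0 (fam := false) (s1 := true) (s2 := false) (a := 2) (b := 0) (c := 2) (cn := .pp) (n1 := ndN3q2) (n2 := ndN1q2a) (pc := pcN0) (cut := Cut.none) (xt := Ext.none) (P1 := 1073741824) (W1 := 536870912) (P2 := 0) (W2 := 536870912) (P3 := 134217728) (W3 := 67108864) (N0 := 3)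
    rfl s4_pm_202_a

noncomputable def f_pm_202_b : ℕ → ℕ → ℕ → ℕ → Bool := onCell 1073741824 536870912 1239849684 370763052 134217728 67108864
    (rowN 3 0 false true false .pp 2 0 2 (qsf 1073741824 536870912 1239849684 370763052 0) ndN3q2 ndN1q2b pcN0 Cut.none Ext.none)

def k0_pm_202_b : ∃ t, chk3 f_pm_202_b t 1 1 1 = true :=
  ⟨(a (b (l 3) (a (b (l 3) (a (l 515029492519) (l 3))) (l 3))) (l 3)), by decide +kernel⟩

theorem c_pm_202_b : CertN 1073741824 536870912 1239849684 370763052 134217728 67108864 3 false true false .pp 2 0 2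
    ndN3q2 ndN1q2b pcN0 Cut.none Ext.none :=
  certN0 (fam := false) (s1 := true) (s2 := false) (a := 2) (b := 0) (c := 2) (cn := .pp) (n1 := ndN3q2) (n2 := ndN1q2b) (pc := pcN0) (cut := Cut.none) (xt := Ext.none) (P1 := 1073741824) (W1 := 536870912) (P2 := 1239849684) (W2 := 370763052) (P3 := 134217728) (W3 := 67108864) (N0 := 3)
    rfl k0_pm_202_b

noncomputable def f_pm_203 : ℕ → ℕ → ℕ → ℕ → Bool := onCell 1073741824 536870912 0 536870912 134217728 67108864
    (rowN 3 1 false true false .up 2 0 3 (qsf 1073741824 536870912 1610612736 536870912 0) ndN3q2 ndN1q3 pcN0 Cut.none Ext.none)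

def k0_pm_203 : ∃ t, chk3 f_pm_203 t 1 1 1 = true :=
  ⟨(a (b (l 3) (a (b (l 3) (a (l 562811129767) (l 3))) (l 3))) (l 3)), by decide +kernel⟩

theorem c_pm_203 : CertN 1073741824 536870912 1610612736 536870912 134217728 67108864 3 false true false .up 2 0 3
    ndN3q2 ndN1q3 pcN0 Cut.none Ext.none :=
  certN1 (fam := false) (s1 := true) (s2 := false) (a := 2) (b := 0) (c := 3) (cn := .up) (n1 := ndN3q2) (n2 := ndN1q3) (pc := pcN0) (cut := Cut.none) (xt := Ext.none) (P1 := 1073741824) (W1 := 536870912) (P2 := 1610612736) (W2 := 536870912) (P3 := 134217728) (W3 := 67108864) (N0 := 3)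
    rfl (fun _ => rfl) k0_pm_203

noncomputable def f_pm_213 : ℕ → ℕ → ℕ → ℕ → Bool := onCell 1073741824 536870912 1610612736 536870912 134217728 67108864
    (rowN 3 0 false true false .pnn 2 1 3 (qsf 1073741824 536870912 1610612736 536870912 1) ndN3q2 ndN1q3 pcN1 Cut.none Ext.none)

def k0_pm_213 : ∃ t, chk3 f_pm_213 t 1 1 1 = true :=
  ⟨(a (b (a (b (a (b (l 17891864) (l 17683320)) (l 3)) (a (b (l 17560944) (l 17421376)) (a (a (l 17591464) (l 561736527639)) (l 3)))) (l 3)) (a (b (a (l 17326512) (a (a (l 17296424) (l 17382424)) (a (l 17342344) (l 17367024)))) (a (b (l 17014568) (l 16914208)) (a (a (l 17027960) (l 17122192)) (a (l 17051592) (l 17069576))))) (a (b (b (l 3) (l 3)) (a (a (l 17086232) (l 17171896)) (l 3))) (l 3)))) (l 3)), by decide +kernel⟩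

theorem c_pm_213 : CertN 1073741824 536870912 1610612736 536870912 134217728 67108864 3 false true false .pnn 2 1 3
    ndN3q2 ndN1q3 pcN1 Cut.none Ext.none :=
  certN0 (fam := false) (s1 := true) (s2 := false) (a := 2) (b := 1) (c := 3) (cn := .pnn) (n1 := ndN3q2) (n2 := ndN1q3) (pc := pcN1) (cut := Cut.none) (xt := Ext.none) (P1 := 1073741824) (W1 := 536870912) (P2 := 1610612736) (W2 := 536870912) (P3 := 134217728) (W3 := 67108864) (N0 := 3)
    rfl k0_pm_213

noncomputable def f_pm_303 : ℕ → ℕ → ℕ → ℕ → Bool := onCell 0 1230186008 1610612736 536870912 134217728 67108864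
    (rowN 3 0 false true false .npn 3 0 3 (qsf 0 1230186008 1610612736 536870912 0) ndN3q3 ndN1q3 pcN0 Cut.none Ext.none)

def k0_pm_303 : ∃ t, chk3 f_pm_303 t 1 1 1 = true :=
  ⟨(a (l 3) (l 3)), by decide +kernel⟩

theorem c_pm_303 : CertN 0 1230186008 1610612736 536870912 134217728 67108864 3 false true false .npn 3 0 3
    ndN3q3 ndN1q3 pcN0 Cut.none Ext.none :=
  certN0 (fam := false) (s1 := true) (s2 := false) (a := 3) (b := 0) (c := 3) (cn := .npn) (n1 := ndN3q3) (n2 := ndN1q3) (pc := pcN0) (cut := Cut.none) (xt := Ext.none) (P1 := 0) (W1 := 1230186008) (P2 := 1610612736) (W2 := 536870912) (P3 := 134217728) (W3 := 67108864) (N0 := 3)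
    rfl k0_pm_303

noncomputable def f_pm_313 : ℕ → ℕ → ℕ → ℕ → Bool := onCell 0 1230186008 1610612736 536870912 134217728 67108864
    (rowN 3 0 false true false .dn 3 1 3 (qsf 0 1230186008 1610612736 536870912 1) ndN3q3 ndN1q3 pcN1 Cut.none Ext.none)

def k0_pm_313 : ∃ t, chk3 f_pm_313 t 1 1 1 = true :=
  ⟨(a (l 1) (l 3)), by decide +kernel⟩

theorem c_pm_313 : CertN 0 1230186008 1610612736 536870912 134217728 67108864 3 false true false .dn 3 1 3
    ndN3q3 ndN1q3 pcN1 Cut.none Ext.none :=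
  certN0 (fam := false) (s1 := true) (s2 := false) (a := 3) (b := 1) (c := 3) (cn := .dn) (n1 := ndN3q3) (n2 := ndN1q3) (pc := pcN1) (cut := Cut.none) (xt := Ext.none) (P1 := 0) (W1 := 1230186008) (P2 := 1610612736) (W2 := 536870912) (P3 := 134217728) (W3 := 67108864) (N0 := 3)
    rfl k0_pm_313

noncomputable def f_mm_001 : ℕ → ℕ → ℕ → ℕ → Bool := onCell 0 536870912 536870912 536870912 134217728 67108864
    (rowN 3 0 false false false .up 0 0 1 (qsf 0 536870912 536870912 536870912 0) ndN3q0 ndN1q1 pcN0 Cut.none Ext.none)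

def k0_mm_001 : ∃ t, chk3 f_mm_001 t 1 1 1 = true :=
  ⟨(l 3), by decide +kernel⟩

theorem c_mm_001 : CertN 0 536870912 536870912 536870912 134217728 67108864 3 false false false .up 0 0 1
    ndN3q0 ndN1q1 pcN0 Cut.none Ext.none :=
  certN0 (fam := false) (s1 := false) (s2 := false) (a := 0) (b := 0) (c := 1) (cn := .up) (n1 := ndN3q0) (n2 := ndN1q1) (pc := pcN0) (cut := Cut.none) (xt := Ext.none) (P1 := 0) (W1 := 536870912) (P2 := 536870912) (W2 := 536870912) (P3 := 134217728) (W3 := 67108864) (N0 := 3)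
    rfl k0_mm_001

noncomputable def f_mm_011 : ℕ → ℕ → ℕ → ℕ → Bool := onCell 0 536870912 536870912 536870912 134217728 67108864
    (rowN 3 0 false false false .pnn 0 1 1 (qsf 0 536870912 536870912 536870912 1) ndN3q0 ndN1q1 pcN1 Cut.none Ext.none)

def k0_mm_011 : ∃ t, chk3 f_mm_011 t 1 1 1 = true :=
  ⟨(l 3), by decide +kernel⟩

theorem c_mm_011 : CertN 0 536870912 536870912 536870912 134217728 67108864 3 false false false .pnn 0 1 1
    ndN3q0 ndN1q1 pcN1 Cut.none Ext.none :=
  certN0 (fam := false) (s1 := false) (s2 := false) (a := 0) (b := 1) (c := 1) (cn := .pnn) (n1 := ndN3q0) (n2 := ndN1q1) (pc := pcN1) (cut := Cut.none) (xt := Ext.none) (P1 := 0) (W1 := 536870912) (P2 := 536870912) (W2 := 536870912) (P3 := 134217728) (W3 := 67108864) (N0 := 3)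
    rfl k0_mm_011

noncomputable def f_mm_012_a : ℕ → ℕ → ℕ → ℕ → Bool := onCell 0 536870912 0 536870912 134217728 67108864
    (rowN 3 0 false false false .pnp 0 1 2 (qsf 0 536870912 0 536870912 1) ndN3q0 ndN1q2a pcN1 Cut.none Ext.none)

def k0_mm_012_a : ∃ t, chk3 f_mm_012_a t 1 1 1 = true :=
  ⟨(l 5), by decide +kernel⟩

theorem c_mm_012_a : CertN 0 536870912 0 536870912 134217728 67108864 3 false false false .pnp 0 1 2
    ndN3q0 ndN1q2a pcN1 Cut.none Ext.none :=
  certN0 (fam := false) (s1 := false) (s2 := false) (a := 0) (b := 1) (c := 2) (cn := .pnp) (n1 := ndN3q0) (n2 := ndN1q2a) (pc := pcN1) (cut := Cut.none) (xt := Ext.none) (P1 := 0) (W1 := 536870912) (P2 := 0) (W2 := 536870912) (P3 := 134217728) (W3 := 67108864) (N0 := 3)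
    rfl k0_mm_012_a

noncomputable def f_mm_012_b : ℕ → ℕ → ℕ → ℕ → Bool := onCell 0 536870912 1239849684 370763052 134217728 67108864
    (rowN 3 0 false false false .pnp 0 1 2 (qsf 0 536870912 1239849684 370763052 1) ndN3q0 ndN1q2b pcN1 Cut.none Ext.none)

def k0_mm_012_b : ∃ t, chk3 f_mm_012_b t 1 1 1 = true :=
  ⟨(l 5), by decide +kernel⟩

theorem c_mm_012_b : CertN 0 536870912 1239849684 370763052 134217728 67108864 3 false false false .pnp 0 1 2
    ndN3q0 ndN1q2b pcN1 Cut.none Ext.none :=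
  certN0 (fam := false) (s1 := false) (s2 := false) (a := 0) (b := 1) (c := 2) (cn := .pnp) (n1 := ndN3q0) (n2 := ndN1q2b) (pc := pcN1) (cut := Cut.none) (xt := Ext.none) (P1 := 0) (W1 := 536870912) (P2 := 1239849684) (W2 := 370763052) (P3 := 134217728) (W3 := 67108864) (N0 := 3)
    rfl k0_mm_012_b

noncomputable def f_mm_022_a : ℕ → ℕ → ℕ → ℕ → Bool := onCell 0 536870912 0 536870912 134217728 67108864
    (rowN 3 0 false false false .pp 0 2 2 (qsf 0 536870912 0 536870912 2) ndN3q0 ndN1q2a pcN2 Cut.none Ext.none)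

def k0_mm_022_a : ∃ t, chk3 f_mm_022_a t 1 1 1 = true :=
  ⟨(l 5), by decide +kernel⟩

theorem c_mm_022_a : CertN 0 536870912 0 536870912 134217728 67108864 3 false false false .pp 0 2 2
    ndN3q0 ndN1q2a pcN2 Cut.none Ext.none :=
  certN0 (fam := false) (s1 := false) (s2 := false) (a := 0) (b := 2) (c := 2) (cn := .pp) (n1 := ndN3q0) (n2 := ndN1q2a) (pc := pcN2) (cut := Cut.none) (xt := Ext.none) (P1 := 0) (W1 := 536870912) (P2 := 0) (W2 := 536870912) (P3 := 134217728) (W3 := 67108864) (N0 := 3)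
    rfl k0_mm_022_a

noncomputable def f_mm_022_b : ℕ → ℕ → ℕ → ℕ → Bool := onCell 0 536870912 1239849684 370763052 134217728 67108864
    (rowN 3 0 false false false .pp 0 2 2 (qsf 0 536870912 1239849684 370763052 2) ndN3q0 ndN1q2b pcN2 Cut.none Ext.none)

def k0_mm_022_b : ∃ t, chk3 f_mm_022_b t 1 1 1 = true :=
  ⟨(l 5), by decide +kernel⟩

theorem c_mm_022_b : CertN 0 536870912 1239849684 370763052 134217728 67108864 3 false false false .pp 0 2 2
    ndN3q0 ndN1q2b pcN2 Cut.none Ext.none :=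
  certN0 (fam := false) (s1 := false) (s2 := false) (a := 0) (b := 2) (c := 2) (cn := .pp) (n1 := ndN3q0) (n2 := ndN1q2b) (pc := pcN2) (cut := Cut.none) (xt := Ext.none) (P1 := 0) (W1 := 536870912) (P2 := 1239849684) (W2 := 370763052) (P3 := 134217728) (W3 := 67108864) (N0 := 3)
    rfl k0_mm_022_b

noncomputable def f_mm_023 : ℕ → ℕ → ℕ → ℕ → Bool := onCell 0 536870912 1610612736 536870912 134217728 67108864
    (rowN 3 0 false false false .up 0 2 3 (qsf 0 536870912 1610612736 536870912 2) ndN3q0 ndN1q3 pcN2 Cut.none Ext.none)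

def k0_mm_023 : ∃ t, chk3 f_mm_023 t 1 1 1 = true :=
  ⟨(l 5), by decide +kernel⟩

theorem c_mm_023 : CertN 0 536870912 1610612736 536870912 134217728 67108864 3 false false false .up 0 2 3
    ndN3q0 ndN1q3 pcN2 Cut.none Ext.none :=
  certN0 (fam := false) (s1 := false) (s2 := false) (a := 0) (b := 2) (c := 3) (cn := .up) (n1 := ndN3q0) (n2 := ndN1q3) (pc := pcN2) (cut := Cut.none) (xt := Ext.none) (P1 := 0) (W1 := 536870912) (P2 := 1610612736) (W2 := 536870912) (P3 := 134217728) (W3 := 67108864) (N0 := 3)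
    rfl k0_mm_023

noncomputable def f_mm_033 : ℕ → ℕ → ℕ → ℕ → Bool := onCell 0 536870912 1610612736 536870912 134217728 67108864
    (rowN 3 0 false false false .pnn 0 3 3 (qsf 0 536870912 1610612736 536870912 3) ndN3q0 ndN1q3 pcN3 Cut.none Ext.none)

def k0_mm_033 : ∃ t, chk3 f_mm_033 t 1 1 1 = true :=
  ⟨(l 5), by decide +kernel⟩

theorem c_mm_033 : CertN 0 536870912 1610612736 536870912 134217728 67108864 3 false false false .pnn 0 3 3
    ndN3q0 ndN1q3 pcN3 Cut.none Ext.none :=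
  certN0 (fam := false) (s1 := false) (s2 := false) (a := 0) (b := 3) (c := 3) (cn := .pnn) (n1 := ndN3q0) (n2 := ndN1q3) (pc := pcN3) (cut := Cut.none) (xt := Ext.none) (P1 := 0) (W1 := 536870912) (P2 := 1610612736) (W2 := 536870912) (P3 := 134217728) (W3 := 67108864) (N0 := 3)
    rfl k0_mm_033

noncomputable def f_mm_101 : ℕ → ℕ → ℕ → ℕ → Bool := onCell 536870912 536870912 536870912 536870912 134217728 67108864
    (rowN 3 0 false false false .npn 1 0 1 (qsf 536870912 536870912 536870912 536870912 0) ndN3q1 ndN1q1 pcN0 Cut.none Ext.none)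

def k0_mm_101 : ∃ t, chk3 f_mm_101 t 1 1 1 = true :=
  ⟨(l 3), by decide +kernel⟩

theorem c_mm_101 : CertN 536870912 536870912 536870912 536870912 134217728 67108864 3 false false false .npn 1 0 1
    ndN3q1 ndN1q1 pcN0 Cut.none Ext.none :=
  certN0 (fam := false) (s1 := false) (s2 := false) (a := 1) (b := 0) (c := 1) (cn := .npn) (n1 := ndN3q1) (n2 := ndN1q1) (pc := pcN0) (cut := Cut.none) (xt := Ext.none) (P1 := 536870912) (W1 := 536870912) (P2 := 536870912) (W2 := 536870912) (P3 := 134217728) (W3 := 67108864) (N0 := 3)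
    rfl k0_mm_101

noncomputable def f_mm_102_a : ℕ → ℕ → ℕ → ℕ → Bool := onCell 536870912 536870912 0 536870912 134217728 67108864
    (rowN 3 0 false false false .npp 1 0 2 (qsf 536870912 536870912 0 536870912 0) ndN3q1 ndN1q2a pcN0 Cut.none Ext.none)

def k0_mm_102_a : ∃ t, chk3 f_mm_102_a t 1 1 1 = true :=
  ⟨(l 5), by decide +kernel⟩

theorem c_mm_102_a : CertN 536870912 536870912 0 536870912 134217728 67108864 3 false false false .npp 1 0 2
    ndN3q1 ndN1q2a pcN0 Cut.none Ext.none :=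
  certN0 (fam := false) (s1 := false) (s2 := false) (a := 1) (b := 0) (c := 2) (cn := .npp) (n1 := ndN3q1) (n2 := ndN1q2a) (pc := pcN0) (cut := Cut.none) (xt := Ext.none) (P1 := 536870912) (W1 := 536870912) (P2 := 0) (W2 := 536870912) (P3 := 134217728) (W3 := 67108864) (N0 := 3)
    rfl k0_mm_102_a

noncomputable def f_mm_102_b : ℕ → ℕ → ℕ → ℕ → Bool := onCell 536870912 536870912 1239849684 370763052 134217728 67108864
    (rowN 3 0 false false false .npp 1 0 2 (qsf 536870912 536870912 1239849684 370763052 0) ndN3q1 ndN1q2b pcN0 Cut.none Ext.none)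

def k0_mm_102_b : ∃ t, chk3 f_mm_102_b t 1 1 1 = true :=
  ⟨(l 5), by decide +kernel⟩

theorem c_mm_102_b : CertN 536870912 536870912 1239849684 370763052 134217728 67108864 3 false false false .npp 1 0 2
    ndN3q1 ndN1q2b pcN0 Cut.none Ext.none :=
  certN0 (fam := false) (s1 := false) (s2 := false) (a := 1) (b := 0) (c := 2) (cn := .npp) (n1 := ndN3q1) (n2 := ndN1q2b) (pc := pcN0) (cut := Cut.none) (xt := Ext.none) (P1 := 536870912) (W1 := 536870912) (P2 := 1239849684) (W2 := 370763052) (P3 := 134217728) (W3 := 67108864) (N0 := 3)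
    rfl k0_mm_102_b

noncomputable def f_mm_112_a : ℕ → ℕ → ℕ → ℕ → Bool := onCell 536870912 536870912 0 536870912 134217728 67108864
    (rowN 3 0 false false false .dn 1 1 2 (qsf 536870912 536870912 0 536870912 1) ndN3q1 ndN1q2a pcN1 Cut.none Ext.none)

def k0_mm_112_a : ∃ t, chk3 f_mm_112_a t 1 1 1 = true :=
  ⟨(l 5), by decide +kernel⟩

theorem c_mm_112_a : CertN 536870912 536870912 0 536870912 134217728 67108864 3 false false false .dn 1 1 2
    ndN3q1 ndN1q2a pcN1 Cut.none Ext.none :=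
  certN0 (fam := false) (s1 := false) (s2 := false) (a := 1) (b := 1) (c := 2) (cn := .dn) (n1 := ndN3q1) (n2 := ndN1q2a) (pc := pcN1) (cut := Cut.none) (xt := Ext.none) (P1 := 536870912) (W1 := 536870912) (P2 := 0) (W2 := 536870912) (P3 := 134217728) (W3 := 67108864) (N0 := 3)
    rfl k0_mm_112_a

noncomputable def f_mm_112_b : ℕ → ℕ → ℕ → ℕ → Bool := onCell 536870912 536870912 1239849684 370763052 134217728 67108864
    (rowN 3 0 false false false .dn 1 1 2 (qsf 536870912 536870912 1239849684 370763052 1) ndN3q1 ndN1q2b pcN1 Cut.none Ext.none)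

def k0_mm_112_b : ∃ t, chk3 f_mm_112_b t 1 1 1 = true :=
  ⟨(l 5), by decide +kernel⟩

theorem c_mm_112_b : CertN 536870912 536870912 1239849684 370763052 134217728 67108864 3 false false false .dn 1 1 2
    ndN3q1 ndN1q2b pcN1 Cut.none Ext.none :=
  certN0 (fam := false) (s1 := false) (s2 := false) (a := 1) (b := 1) (c := 2) (cn := .dn) (n1 := ndN3q1) (n2 := ndN1q2b) (pc := pcN1) (cut := Cut.none) (xt := Ext.none) (P1 := 536870912) (W1 := 536870912) (P2 := 1239849684) (W2 := 370763052) (P3 := 134217728) (W3 := 67108864) (N0 := 3)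
    rfl k0_mm_112_b

noncomputable def f_mm_113 : ℕ → ℕ → ℕ → ℕ → Bool := onCell 536870912 536870912 1610612736 536870912 134217728 67108864
    (rowN 3 0 false false false .nn 1 1 3 (qsf 536870912 536870912 1610612736 536870912 1) ndN3q1 ndN1q3 pcN1 Cut.none Ext.none)

def k0_mm_113 : ∃ t, chk3 f_mm_113 t 1 1 1 = true :=
  ⟨(l 5), by decide +kernel⟩

theorem c_mm_113 : CertN 536870912 536870912 1610612736 536870912 134217728 67108864 3 false false false .nn 1 1 3
    ndN3q1 ndN1q3 pcN1 Cut.none Ext.none :=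
  certN0 (fam := false) (s1 := false) (s2 := false) (a := 1) (b := 1) (c := 3) (cn := .nn) (n1 := ndN3q1) (n2 := ndN1q3) (pc := pcN1) (cut := Cut.none) (xt := Ext.none) (P1 := 536870912) (W1 := 536870912) (P2 := 1610612736) (W2 := 536870912) (P3 := 134217728) (W3 := 67108864) (N0 := 3)
    rfl k0_mm_113

noncomputable def f_mm_123 : ℕ → ℕ → ℕ → ℕ → Bool := onCell 536870912 536870912 1610612736 536870912 134217728 67108864
    (rowN 3 0 false false false .npn 1 2 3 (qsf 536870912 536870912 1610612736 536870912 2) ndN3q1 ndN1q3 pcN2 Cut.none Ext.none)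

def k0_mm_123 : ∃ t, chk3 f_mm_123 t 1 1 1 = true :=
  ⟨(l 5), by decide +kernel⟩

theorem c_mm_123 : CertN 536870912 536870912 1610612736 536870912 134217728 67108864 3 false false false .npn 1 2 3
    ndN3q1 ndN1q3 pcN2 Cut.none Ext.none :=
  certN0 (fam := false) (s1 := false) (s2 := false) (a := 1) (b := 2) (c := 3) (cn := .npn) (n1 := ndN3q1) (n2 := ndN1q3) (pc := pcN2) (cut := Cut.none) (xt := Ext.none) (P1 := 536870912) (W1 := 536870912) (P2 := 1610612736) (W2 := 536870912) (P3 := 134217728) (W3 := 67108864) (N0 := 3)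
    rfl k0_mm_123

noncomputable def f_mm_133 : ℕ → ℕ → ℕ → ℕ → Bool := onCell 536870912 536870912 1610612736 536870912 134217728 67108864
    (rowN 3 0 false false false .dn 1 3 3 (qsf 536870912 536870912 1610612736 536870912 3) ndN3q1 ndN1q3 pcN3 Cut.none Ext.none)

def k0_mm_133 : ∃ t, chk3 f_mm_133 t 1 1 1 = true :=
  ⟨(l 5), by decide +kernel⟩

theorem c_mm_133 : CertN 536870912 536870912 1610612736 536870912 134217728 67108864 3 false false false .dn 1 3 3
    ndN3q1 ndN1q3 pcN3 Cut.none Ext.none :=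
  certN0 (fam := false) (s1 := false) (s2 := false) (a := 1) (b := 3) (c := 3) (cn := .dn) (n1 := ndN3q1) (n2 := ndN1q3) (pc := pcN3) (cut := Cut.none) (xt := Ext.none) (P1 := 536870912) (W1 := 536870912) (P2 := 1610612736) (W2 := 536870912) (P3 := 134217728) (W3 := 67108864) (N0 := 3)
    rfl k0_mm_133

noncomputable def f_mm_202_a : ℕ → ℕ → ℕ → ℕ → Bool := onCell 1073741824 536870912 0 536870912 134217728 67108864
    (rowN 3 0 false false false .pp 2 0 2 (qsf 1073741824 536870912 0 536870912 0) ndN3q2 ndN1q2a pcN0 Cut.none Ext.none)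

def k0_mm_202_a : ∃ t, chk3 f_mm_202_a t 1 1 1 = true :=
  ⟨(l 3), by decide +kernel⟩

theorem c_mm_202_a : CertN 1073741824 536870912 0 536870912 134217728 67108864 3 false false false .pp 2 0 2
    ndN3q2 ndN1q2a pcN0 Cut.none Ext.none :=
  certN0 (fam := false) (s1 := false) (s2 := false) (a := 2) (b := 0) (c := 2) (cn := .pp) (n1 := ndN3q2) (n2 := ndN1q2a) (pc := pcN0) (cut := Cut.none) (xt := Ext.none) (P1 := 1073741824) (W1 := 536870912) (P2 := 0) (W2 := 536870912) (P3 := 134217728) (W3 := 67108864) (N0 := 3)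
    rfl k0_mm_202_a

noncomputable def f_mm_202_b : ℕ → ℕ → ℕ → ℕ → Bool := onCell 1073741824 536870912 1239849684 370763052 134217728 67108864
    (rowN 3 0 false false false .pp 2 0 2 (qsf 1073741824 536870912 1239849684 370763052 0) ndN3q2 ndN1q2b pcN0 Cut.none Ext.none)

def k0_mm_202_b : ∃ t, chk3 f_mm_202_b t 1 1 1 = true :=
  ⟨(l 3), by decide +kernel⟩

theorem c_mm_202_b : CertN 1073741824 536870912 1239849684 370763052 134217728 67108864 3 false false false .pp 2 0 2
    ndN3q2 ndN1q2b pcN0 Cut.none Ext.none :=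
  certN0 (fam := false) (s1 := false) (s2 := false) (a := 2) (b := 0) (c := 2) (cn := .pp) (n1 := ndN3q2) (n2 := ndN1q2b) (pc := pcN0) (cut := Cut.none) (xt := Ext.none) (P1 := 1073741824) (W1 := 536870912) (P2 := 1239849684) (W2 := 370763052) (P3 := 134217728) (W3 := 67108864) (N0 := 3)
    rfl k0_mm_202_b

noncomputable def f_mm_203 : ℕ → ℕ → ℕ → ℕ → Bool := onCell 1073741824 536870912 1610612736 536870912 134217728 67108864
    (rowN 3 0 false false false .up 2 0 3 (qsf 1073741824 536870912 1610612736 536870912 0) ndN3q2 ndN1q3 pcN0 Cut.none Ext.none)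

def k0_mm_203 : ∃ t, chk3 f_mm_203 t 1 1 1 = true :=
  ⟨(l 5), by decide +kernel⟩

theorem c_mm_203 : CertN 1073741824 536870912 1610612736 536870912 134217728 67108864 3 false false false .up 2 0 3
    ndN3q2 ndN1q3 pcN0 Cut.none Ext.none :=
  certN0 (fam := false) (s1 := false) (s2 := false) (a := 2) (b := 0) (c := 3) (cn := .up) (n1 := ndN3q2) (n2 := ndN1q3) (pc := pcN0) (cut := Cut.none) (xt := Ext.none) (P1 := 1073741824) (W1 := 536870912) (P2 := 1610612736) (W2 := 536870912) (P3 := 134217728) (W3 := 67108864) (N0 := 3)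
    rfl k0_mm_203

noncomputable def f_mm_213 : ℕ → ℕ → ℕ → ℕ → Bool := onCell 1073741824 536870912 1610612736 536870912 134217728 67108864
    (rowN 3 0 false false false .pnn 2 1 3 (qsf 1073741824 536870912 1610612736 536870912 1) ndN3q2 ndN1q3 pcN1 Cut.none Ext.none)

def k0_mm_213 : ∃ t, chk3 f_mm_213 t 1 1 1 = true :=
  ⟨(l 5), by decide +kernel⟩

theorem c_mm_213 : CertN 1073741824 536870912 1610612736 536870912 134217728 67108864 3 false false false .pnn 2 1 3
    ndN3q2 ndN1q3 pcN1 Cut.none Ext.none :=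
  certN0 (fam := false) (s1 := false) (s2 := false) (a := 2) (b := 1) (c := 3) (cn := .pnn) (n1 := ndN3q2) (n2 := ndN1q3) (pc := pcN1) (cut := Cut.none) (xt := Ext.none) (P1 := 1073741824) (W1 := 536870912) (P2 := 1610612736) (W2 := 536870912) (P3 := 134217728) (W3 := 67108864) (N0 := 3)
    rfl k0_mm_213

noncomputable def f_mm_303 : ℕ → ℕ → ℕ → ℕ → Bool := onCell 0 1230186008 1610612736 536870912 134217728 67108864
    (rowN 3 0 false false false .npn 3 0 3 (qsf 0 1230186008 1610612736 536870912 0) ndN3q3 ndN1q3 pcN0 Cut.none Ext.none)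

def k0_mm_303 : ∃ t, chk3 f_mm_303 t 1 1 1 = true :=
  ⟨(a (l 3) (l 3)), by decide +kernel⟩

theorem c_mm_303 : CertN 0 1230186008 1610612736 536870912 134217728 67108864 3 false false false .npn 3 0 3
    ndN3q3 ndN1q3 pcN0 Cut.none Ext.none :=
  certN0 (fam := false) (s1 := false) (s2 := false) (a := 3) (b := 0) (c := 3) (cn := .npn) (n1 := ndN3q3) (n2 := ndN1q3) (pc := pcN0) (cut := Cut.none) (xt := Ext.none) (P1 := 0) (W1 := 1230186008) (P2 := 1610612736) (W2 := 536870912) (P3 := 134217728) (W3 := 67108864) (N0 := 3)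
    rfl k0_mm_303

noncomputable def f_mm_313 : ℕ → ℕ → ℕ → ℕ → Bool := onCell 0 1230186008 1610612736 536870912 134217728 67108864
    (rowN 3 0 false false false .dn 3 1 3 (qsf 0 1230186008 1610612736 536870912 1) ndN3q3 ndN1q3 pcN1 Cut.none Ext.none)

def k0_mm_313 : ∃ t, chk3 f_mm_313 t 1 1 1 = true :=
  ⟨(a (l 1) (l 3)), by decide +kernel⟩

theorem c_mm_313 : CertN 0 1230186008 1610612736 536870912 134217728 67108864 3 false false false .dn 3 1 3
    ndN3q3 ndN1q3 pcN1 Cut.none Ext.none :=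
  certN0 (fam := false) (s1 := false) (s2 := false) (a := 3) (b := 1) (c := 3) (cn := .dn) (n1 := ndN3q3) (n2 := ndN1q3) (pc := pcN1) (cut := Cut.none) (xt := Ext.none) (P1 := 0) (W1 := 1230186008) (P2 := 1610612736) (W2 := 536870912) (P3 := 134217728) (W3 := 67108864) (N0 := 3)
    rfl k0_mm_313

end Pool.Agent.Strip051.G.I1_8_3_16.Tab.C.NB31

namespace Pool.Agent.Strip051.G.I1_8_3_16.Tab.C.NB32

open Pool.Agent.Strip051.PB Pool.Agent.Strip051.PB.T
open Pool.Agent.Strip051.G.I1_8_3_16.Tab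

noncomputable def f_pp_001 : ℕ → ℕ → ℕ → ℕ → Bool := onCell 0 536870912 536870912 536870912 134217728 67108864
    (rowN 3 0 false true true .up 0 0 1 (qsf 0 536870912 536870912 536870912 0) ndN3q0 ndN2q1 pcN0 Cut.none Ext.none)

def k0_pp_001 : ∃ t, chk3 f_pp_001 t 1 1 1 = true :=
  ⟨(l 3), by decide +kernel⟩

theorem c_pp_001 : CertN 0 536870912 536870912 536870912 134217728 67108864 3 false true true .up 0 0 1
    ndN3q0 ndN2q1 pcN0 Cut.none Ext.none :=
  certN0 (fam := false) (s1 := true) (s2 := true) (a := 0) (b := 0) (c := 1) (cn := .up) (n1 := ndN3q0) (n2 := ndN2q1) (pc := pcN0) (cut := Cut.none) (xt := Ext.none) (P1 := 0) (W1 := 536870912) (P2 := 536870912) (W2 := 536870912) (P3 := 134217728) (W3 := 67108864) (N0 := 3)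
    rfl k0_pp_001

noncomputable def f_pp_011 : ℕ → ℕ → ℕ → ℕ → Bool := onCell 0 536870912 536870912 536870912 134217728 67108864
    (rowN 3 0 false true true .pnn 0 1 1 (qsf 0 536870912 536870912 536870912 1) ndN3q0 ndN2q1 pcN1 Cut.none Ext.none)

def k0_pp_011 : ∃ t, chk3 f_pp_011 t 1 1 1 = true :=
  ⟨(l 3), by decide +kernel⟩

theorem c_pp_011 : CertN 0 536870912 536870912 536870912 134217728 67108864 3 false true true .pnn 0 1 1
    ndN3q0 ndN2q1 pcN1 Cut.none Ext.none :=
  certN0 (fam := false) (s1 := true) (s2 := true) (a := 0) (b := 1) (c := 1) (cn := .pnn) (n1 := ndN3q0) (n2 := ndN2q1) (pc := pcN1) (cut := Cut.none) (xt := Ext.none) (P1 := 0) (W1 := 536870912) (P2 := 536870912) (W2 := 536870912) (P3 := 134217728) (W3 := 67108864) (N0 := 3)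
    rfl k0_pp_011

noncomputable def f_pp_012_a : ℕ → ℕ → ℕ → ℕ → Bool := onCell 536870912 536870912 0 536870912 134217728 67108864
    (rowN 3 2 false true true .pnp 0 1 2 (qsf 0 536870912 0 536870912 1) ndN3q0 ndN2q2a pcN1 Cut.none Ext.none)

def k0_pp_012_a : ∃ t, chk3 f_pp_012_a t 1 1 1 = true :=
  ⟨(a (a (b (l 17187912) (a (l 17454008) (l 17246296))) (b (l 16978616) (b (l 17045000) (l 17235496)))) (a (b (l 16966272) (b (l 17049488) (l 17345376))) (b (l 17213272) (b (a (l 17101088) (l 17194664)) (a (b (l 17160720) (l 17231920)) (b (l 17194712) (a (l 17254544) (l 17265552)))))))), by decide +kernel⟩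

theorem c_pp_012_a : CertN 0 536870912 0 536870912 134217728 67108864 3 false true true .pnp 0 1 2
    ndN3q0 ndN2q2a pcN1 Cut.none Ext.none :=
  certN2 (fam := false) (s1 := true) (s2 := true) (a := 0) (b := 1) (c := 2) (cn := .pnp) (n1 := ndN3q0) (n2 := ndN2q2a) (pc := pcN1) (cut := Cut.none) (xt := Ext.none) (P1 := 0) (W1 := 536870912) (P2 := 0) (W2 := 536870912) (P3 := 134217728) (W3 := 67108864) (N0 := 3)
    rfl (fun _ => rfl) k0_pp_012_a

noncomputable def f_pp_012_b : ℕ → ℕ → ℕ → ℕ → Bool := onCell 536870912 536870912 1239849684 370763052 134217728 67108864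
    (rowN 3 2 false true true .pnp 0 1 2 (qsf 0 536870912 1239849684 370763052 1) ndN3q0 ndN2q2b pcN1 Cut.none Ext.none)

def k0_pp_012_b : ∃ t, chk3 f_pp_012_b t 1 1 1 = true :=
  ⟨(a (a (l 2) (b (l 16845992) (l 2))) (a (b (l 17020448) (l 17307816)) (b (b (l 17250040) (l 17448672)) (l 17705040)))), by decide +kernel⟩

theorem c_pp_012_b : CertN 0 536870912 1239849684 370763052 134217728 67108864 3 false true true .pnp 0 1 2
    ndN3q0 ndN2q2b pcN1 Cut.none Ext.none :=
  certN2 (fam := false) (s1 := true) (s2 := true) (a := 0) (b := 1) (c := 2) (cn := .pnp) (n1 := ndN3q0) (n2 := ndN2q2b) (pc := pcN1) (cut := Cut.none) (xt := Ext.none) (P1 := 0) (W1 := 536870912) (P2 := 1239849684) (W2 := 370763052) (P3 := 134217728) (W3 := 67108864) (N0 := 3)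
    rfl (fun _ => rfl) k0_pp_012_b

noncomputable def f_pp_022_a : ℕ → ℕ → ℕ → ℕ → Bool := onCell 1073741824 536870912 0 536870912 134217728 67108864
    (rowN 3 2 false true true .pp 0 2 2 (qsf 0 536870912 0 536870912 2) ndN3q0 ndN2q2a pcN2 Cut.none Ext.none)

def k0_pp_022_a : ∃ t, chk3 f_pp_022_a t 1 1 1 = true :=
  ⟨(a (b (a (a (l 17315064) (a (a (l 17304384) (l 17350216)) (a (l 17271072) (l 17257840)))) (a (a (a (l 17240456) (a (l 17227384) (l 17449624))) (l 444563969463)) (l 1))) (a (b (a (a (l 17321968) (l 17313384)) (a (a (l 17312600) (a (l 17308656) (l 17305480))) (a (l 419868115031) (b (l 17263864) (l 1))))) (a (b (a (l 17322088) (b (l 17318056) (l 17322296))) (a (b (l 17331560) (l 179349582039)) (b (l 403761657159) (l 1)))) (a (a (b (l 404835380567) (l 1)) (l 1)) (l 1)))) (b (l 1) (l 1)))) (l 1)), by decide +kernel⟩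

theorem c_pp_022_a : CertN 0 536870912 0 536870912 134217728 67108864 3 false true true .pp 0 2 2
    ndN3q0 ndN2q2a pcN2 Cut.none Ext.none :=
  certN2 (fam := false) (s1 := true) (s2 := true) (a := 0) (b := 2) (c := 2) (cn := .pp) (n1 := ndN3q0) (n2 := ndN2q2a) (pc := pcN2) (cut := Cut.none) (xt := Ext.none) (P1 := 0) (W1 := 536870912) (P2 := 0) (W2 := 536870912) (P3 := 134217728) (W3 := 67108864) (N0 := 3)
    rfl (fun _ => rfl) k0_pp_022_a

noncomputable def f_pp_022_b : ℕ → ℕ → ℕ → ℕ → Bool := onCell 1073741824 536870912 1239849684 370763052 134217728 67108864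
    (rowN 3 2 false true true .pp 0 2 2 (qsf 0 536870912 1239849684 370763052 2) ndN3q0 ndN2q2b pcN2 Cut.none Ext.none)

def k0_pp_022_b : ∃ t, chk3 f_pp_022_b t 1 1 1 = true :=
  ⟨(a (b (a (a (b (l 17556784) (l 18016120)) (a (a (l 17772392) (b (l 17354952) (l 17980752))) (a (l 17699656) (l 17638872)))) (a (a (a (l 17615152) (b (a (l 17215744) (l 17208552)) (l 17892696))) (b (l 17336280) (l 17842616))) (b (a (l 467649286599) (l 497177076967)) (l 205120672375)))) (a (a (l 18372768) (a (a (l 18369840) (l 18364856)) (l 18349032))) (a (a (l 18384552) (l 18321264)) (l 18281056)))) (b (a (b (l 1) (a (l 17579488) (l 597035150935))) (l 1)) (a (b (l 18047072) (l 18305544)) (b (a (l 17875448) (l 1)) (l 18151024))))), by decide +kernel⟩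

theorem c_pp_022_b : CertN 0 536870912 1239849684 370763052 134217728 67108864 3 false true true .pp 0 2 2
    ndN3q0 ndN2q2b pcN2 Cut.none Ext.none :=
  certN2 (fam := false) (s1 := true) (s2 := true) (a := 0) (b := 2) (c := 2) (cn := .pp) (n1 := ndN3q0) (n2 := ndN2q2b) (pc := pcN2) (cut := Cut.none) (xt := Ext.none) (P1 := 0) (W1 := 536870912) (P2 := 1239849684) (W2 := 370763052) (P3 := 134217728) (W3 := 67108864) (N0 := 3)
    rfl (fun _ => rfl) k0_pp_022_b

noncomputable def f_pp_023 : ℕ → ℕ → ℕ → ℕ → Bool := onCell 1073741824 536870912 1610612736 536870912 134217728 67108864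
    (rowN 3 2 false true true .up 0 2 3 (qsf 0 536870912 1610612736 536870912 2) ndN3q0 ndN2q3 pcN2 Cut.none Ext.none)

def k0_pp_023 : ∃ t, chk3 f_pp_023 t 1 1 1 = true :=
  ⟨(a (a (b (a (l 18875824) (a (l 18817600) (l 18776240))) (l 2)) (b (a (l 18707680) (l 18616008)) (l 18600432))) (a (b (l 18461464) (l 18402352)) (b (b (l 18193920) (l 18294736)) (l 18202752)))), by decide +kernel⟩

theorem c_pp_023 : CertN 0 536870912 1610612736 536870912 134217728 67108864 3 false true true .up 0 2 3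
    ndN3q0 ndN2q3 pcN2 Cut.none Ext.none :=
  certN2 (fam := false) (s1 := true) (s2 := true) (a := 0) (b := 2) (c := 3) (cn := .up) (n1 := ndN3q0) (n2 := ndN2q3) (pc := pcN2) (cut := Cut.none) (xt := Ext.none) (P1 := 0) (W1 := 536870912) (P2 := 1610612736) (W2 := 536870912) (P3 := 134217728) (W3 := 67108864) (N0 := 3)
    rfl (fun _ => rfl) k0_pp_023

noncomputable def f_pp_033 : ℕ → ℕ → ℕ → ℕ → Bool := onCell 0 536870912 1610612736 536870912 134217728 67108864
    (rowN 3 1 false true true .pnn 0 3 3 (qsf 0 536870912 1610612736 536870912 3) ndN3q0 ndN2q3 pcN3 Cut.none Ext.none)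

def k0_pp_033 : ∃ t, chk3 f_pp_033 t 1 1 1 = true :=
  ⟨(a (b (a (b (b (l 17663040) (l 17712912)) (l 17596728)) (b (l 17732336) (l 17569568))) (b (l 17681832) (a (l 4) (a (b (l 4) (l 2)) (l 2))))) (b (b (b (l 17663448) (l 17576168)) (a (l 4) (a (b (l 4) (l 2)) (l 2)))) (a (b (a (b (l 4) (l 2)) (l 2)) (l 2)) (l 2)))), by decide +kernel⟩

theorem c_pp_033 : CertN 0 536870912 1610612736 536870912 134217728 67108864 3 false true true .pnn 0 3 3
    ndN3q0 ndN2q3 pcN3 Cut.none Ext.none :=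
  certN1 (fam := false) (s1 := true) (s2 := true) (a := 0) (b := 3) (c := 3) (cn := .pnn) (n1 := ndN3q0) (n2 := ndN2q3) (pc := pcN3) (cut := Cut.none) (xt := Ext.none) (P1 := 0) (W1 := 536870912) (P2 := 1610612736) (W2 := 536870912) (P3 := 134217728) (W3 := 67108864) (N0 := 3)
    rfl (fun _ => rfl) k0_pp_033

noncomputable def f_pp_101 : ℕ → ℕ → ℕ → ℕ → Bool := onCell 536870912 536870912 536870912 536870912 134217728 67108864
    (rowN 3 0 false true true .npn 1 0 1 (qsf 536870912 536870912 536870912 536870912 0) ndN3q1 ndN2q1 pcN0 Cut.none Ext.none)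

def k0_pp_101 : ∃ t, chk3 f_pp_101 t 1 1 1 = true :=
  ⟨(l 3), by decide +kernel⟩

theorem c_pp_101 : CertN 536870912 536870912 536870912 536870912 134217728 67108864 3 false true true .npn 1 0 1
    ndN3q1 ndN2q1 pcN0 Cut.none Ext.none :=
  certN0 (fam := false) (s1 := true) (s2 := true) (a := 1) (b := 0) (c := 1) (cn := .npn) (n1 := ndN3q1) (n2 := ndN2q1) (pc := pcN0) (cut := Cut.none) (xt := Ext.none) (P1 := 536870912) (W1 := 536870912) (P2 := 536870912) (W2 := 536870912) (P3 := 134217728) (W3 := 67108864) (N0 := 3)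
    rfl k0_pp_101

noncomputable def cut_pp_102_a : Cut := Cut.of [[⟨0, 1, 0, 67108864⟩, ⟨1, 0, 0, 67108864⟩, ⟨2, 1, 0, 67108864⟩]]

noncomputable def f_pp_102_a : ℕ → ℕ → ℕ → ℕ → Bool := onCell 536870912 536870912 0 536870912 134217728 67108864
    (rowN 3 0 false true true .npp 1 0 2 (qsf 536870912 536870912 0 536870912 0) ndN3q1 ndN2q2a pcN0 cut_pp_102_a Ext.none)

def k0_pp_102_a : ∃ t, chk3 f_pp_102_a t 2 1 1 = true :=
  ⟨(b (a (l 18013960) (l 18111976)) (a (b (l 17970344) (b (l 17889416) (a (l 17819088) (l 17760112)))) (b (a (l 17971584) (l 17945648)) (b (a (l 17831144) (l 17752856)) (a (b (l 17723520) (l 17633064)) (b (l 17611808) (c (l 17615384) (l 17381632)))))))), by decide +kernel⟩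

def k1_pp_102_a : ∃ t, chk3 f_pp_102_a t 3 2 1 = true :=
  ⟨(a (a (l 18104320) (a (l 18061552) (l 17991792))) (a (a (b (l 17966224) (l 17781672)) (b (l 17779576) (a (l 17597728) (l 17427032)))) (b (a (l 17437496) (l 16813240)) (a (b (l 17215496) (l 16900752)) (b (l 16502672) (l 16518928)))))), by decide +kernel⟩

def k2_pp_102_a : ∃ t, chk3 f_pp_102_a t 6 3 1 = true :=
  ⟨(a (b (a (l 17895864) (l 17836224)) (b (a (l 17648504) (c (l 17712376) (l 17362056))) (b (a (l 17472872) (c (l 17498992) (l 17158056))) (a (c (l 17474112) (l 17197776)) (c (b (l 17374680) (l 17286760)) (b (l 17046680) (l 16972360))))))) (a (b (b (l 17835424) (l 17639840)) (b (c (l 17575408) (l 17158128)) (b (c (l 17315432) (l 16905864)) (a (c (l 17179328) (l 16811984)) (c (l 16964512) (l 16642456)))))) (c (b (l 17818040) (b (b (l 17454024) (l 17252720)) (b (a (l 17111744) (l 16926416)) (b (l 16674944) (l 16726656))))) (b (b (l 17465016) (l 17202248)) (b (b (l 16943728) (l 16736944)) (b (l 16632760)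 (b (l 16673312) (l 16715888)))))))), by decide +kernel⟩

def k3_pp_102_a : ∃ t, chk3 f_pp_102_a t 7 3 1 = true :=
  ⟨(a (b (a (b (l 17288592) (a (l 17230512) (l 16985976))) (a (b (l 17207112) (l 16570888)) (b (l 16953176) (l 16549152)))) (a (b (b (a (l 16914968) (l 16649632)) (a (l 16657208) (l 16590152))) (b (a (l 16641568) (b (l 16610016) (l 16644440))) (b (c (b (l 16703400) (l 16724424)) (l 16725048)) (c (a (l 16695320) (l 16727576)) (a (l 16694896) (l 16705848)))))) (b (a (b (l 16583384) (b (l 16580064) (l 16614360))) (b (l 16558296) (l 16615672))) (a (b (c (l 16659000) (l 16658304)) (b (c (l 16697520) (l 16697088)) (c (a (l 16717408) (l 16722432)) (l 16749000)))) (b (c (l 16658192) (l 16656200)) (b (c (l 16687840) (l 16687480)) (b (l 16718776) (c (l 16719592) (l 16718496))))))))) (b (a (b (l 16561688) (a (l 16587200) (b (l 16550456) (l 16570832)))) (c (b (l 16549224) (a (l 16578560) (l 16614248))) (b (l 16540416) (a (l 16572008) (l 16608288))))) (b (a (b (a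 (l 16598544) (l 16616008)) (a (a (l 16620920) (l 16631328)) (c (l 16646520) (l 16643168)))) (a (b (c (l 16613776) (l 16609472)) (c (b (l 16635128) (l 16650856)) (b (l 16631992) (l 16648536)))) (b (c (l 16651120) (l 16647384)) (a (c (l 16677232) (l 16674896)) (c (l 16686320) (l 16684152)))))) (b (a (a (c (b (l 16619568) (l 16668376)) (l 16665328)) (b (c (l 16670432) (l 16668304)) (c (l 16688432) (l 16687104)))) (a (b (a (l 16683424) (l 6)) (l 6)) (l 6))) (a (a (b (c (l 16707704) (l 16697104)) (b (c (l 16728464) (l 16727968)) (c (l 16749672) (l 16748936)))) (a (b (a (l 16709248) (l 16712368)) (l 6)) (l 6))) (l 6)))))), by decide +kernel⟩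

theorem s4_pp_102_a : ∃ t, chk3 f_pp_102_a t 3 3 1 = true := ex3_a k2_pp_102_a k3_pp_102_a

theorem s5_pp_102_a : ∃ t, chk3 f_pp_102_a t 3 1 1 = true := ex3_b k1_pp_102_a s4_pp_102_a

theorem s6_pp_102_a : ∃ t, chk3 f_pp_102_a t 1 1 1 = true := ex3_a k0_pp_102_a s5_pp_102_a

theorem c_pp_102_a : CertN 536870912 536870912 0 536870912 134217728 67108864 3 false true true .npp 1 0 2
    ndN3q1 ndN2q2a pcN0 cut_pp_102_a Ext.none :=
  certN0 (fam := false) (s1 := true) (s2 := true) (a := 1) (b := 0) (c := 2) (cn := .npp) (n1 := ndN3q1) (n2 := ndN2q2a) (pc := pcN0) (cut := cut_pp_102_a) (xt := Ext.none) (P1 := 536870912) (W1 := 536870912) (P2 := 0) (W2 := 536870912) (P3 := 134217728) (W3 := 67108864) (N0 := 3)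
    rfl s6_pp_102_a

noncomputable def cut_pp_102_b : Cut := Cut.of [[⟨0, 1, 0, 67108864⟩, ⟨1, 0, 0, 67108864⟩, ⟨2, 1, 0, 67108864⟩]]

noncomputable def f_pp_102_b : ℕ → ℕ → ℕ → ℕ → Bool := onCell 536870912 536870912 1239849684 370763052 134217728 67108864
    (rowN 3 0 false true true .npp 1 0 2 (qsf 536870912 536870912 1239849684 370763052 0) ndN3q1 ndN2q2b pcN0 cut_pp_102_b Ext.none)

def k0_pp_102_b : ∃ t, chk3 f_pp_102_b t 1 1 1 = true :=
  ⟨(a (b (a (l 2) (b (l 18208688) (l 18312760))) (l 2)) (b (a (a (b (l 18320232) (l 18516424)) (b (l 18369152) (l 18663800))) (a (b (a (l 18340504) (b (l 18071136) (l 18448824))) (a (l 18748200) (l 18799888))) (b (a (b (l 17851480) (l 18364808)) (b (c (l 17905584) (l 16996344)) (l 18194648))) (b (l 18687392) (l 18941192))))) (a (a (l 2) (b (l 18787976) (l 2))) (a (b (l 19000592) (l 19065512)) (b (l 19154960) (l 19266336)))))), by decide +kernel⟩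

theorem c_pp_102_b : CertN 536870912 536870912 1239849684 370763052 134217728 67108864 3 false true true .npp 1 0 2
    ndN3q1 ndN2q2b pcN0 cut_pp_102_b Ext.none :=
  certN0 (fam := false) (s1 := true) (s2 := true) (a := 1) (b := 0) (c := 2) (cn := .npp) (n1 := ndN3q1) (n2 := ndN2q2b) (pc := pcN0) (cut := cut_pp_102_b) (xt := Ext.none) (P1 := 536870912) (W1 := 536870912) (P2 := 1239849684) (W2 := 370763052) (P3 := 134217728) (W3 := 67108864) (N0 := 3)
    rfl k0_pp_102_b

noncomputable def f_pp_112_a : ℕ → ℕ → ℕ → ℕ → Bool := onCell 536870912 536870912 0 536870912 134217728 67108864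
    (rowN 3 2 false true true .dn 1 1 2 (qsf 536870912 536870912 0 536870912 1) ndN3q1 ndN2q2a pcN1 Cut.none Ext.none)

def k0_pp_112_a : ∃ t, chk3 f_pp_112_a t 1 1 1 = true :=
  ⟨(a (a (b (l 18218240) (a (b (l 18129512) (l 18005824)) (l 359203326743))) (b (l 18187072) (l 387120698663))) (l 1)), by decide +kernel⟩

theorem c_pp_112_a : CertN 536870912 536870912 0 536870912 134217728 67108864 3 false true true .dn 1 1 2
    ndN3q1 ndN2q2a pcN1 Cut.none Ext.none :=
  certN2 (fam := false) (s1 := true) (s2 := true) (a := 1) (b := 1) (c := 2) (cn := .dn) (n1 := ndN3q1) (n2 := ndN2q2a) (pc := pcN1) (cut := Cut.none) (xt := Ext.none) (P1 := 536870912) (W1 := 536870912) (P2 := 0) (W2 := 536870912) (P3 := 134217728) (W3 := 67108864) (N0 := 3)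
    rfl (fun _ => rfl) k0_pp_112_a

noncomputable def f_pp_112_b : ℕ → ℕ → ℕ → ℕ → Bool := onCell 536870912 536870912 536870912 536870912 134217728 67108864
    (rowN 3 1 false true true .dn 1 1 2 (qsf 536870912 536870912 1239849684 370763052 1) ndN3q1 ndN2q2b pcN1 Cut.none Ext.none)

def k0_pp_112_b : ∃ t, chk3 f_pp_112_b t 1 1 1 = true :=
  ⟨(a (b (b (a (l 398395090279) (l 18419656)) (l 361888156455)) (b (l 18264840) (l 17983224))) (b (a (b (a (l 18584320) (l 18696488)) (a (l 18461920) (l 18519088))) (a (b (l 18804984) (l 18570736)) (b (l 18847536) (l 2)))) (a (b (l 18209680) (l 2)) (l 2)))), by decide +kernel⟩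

theorem c_pp_112_b : CertN 536870912 536870912 1239849684 370763052 134217728 67108864 3 false true true .dn 1 1 2
    ndN3q1 ndN2q2b pcN1 Cut.none Ext.none :=
  certN1 (fam := false) (s1 := true) (s2 := true) (a := 1) (b := 1) (c := 2) (cn := .dn) (n1 := ndN3q1) (n2 := ndN2q2b) (pc := pcN1) (cut := Cut.none) (xt := Ext.none) (P1 := 536870912) (W1 := 536870912) (P2 := 1239849684) (W2 := 370763052) (P3 := 134217728) (W3 := 67108864) (N0 := 3)
    rfl (fun _ => rfl) k0_pp_112_b

noncomputable def f_pp_113 : ℕ → ℕ → ℕ → ℕ → Bool := onCell 536870912 536870912 536870912 536870912 134217728 67108864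
    (rowN 3 1 false true true .nn 1 1 3 (qsf 536870912 536870912 1610612736 536870912 1) ndN3q1 ndN2q3 pcN1 Cut.none Ext.none)

def k0_pp_113 : ∃ t, chk3 f_pp_113 t 1 1 1 = true :=
  ⟨(a (b (b (l 1) (l 481609725351)) (b (l 17875928) (l 17697448))) (b (a (b (l 513822707623) (l 18242960)) (a (b (l 18544304) (l 18305856)) (b (l 18602192) (l 18313864)))) (a (b (l 17941648) (l 17549848)) (b (a (l 17947856) (l 17877088)) (a (b (l 17567784) (l 17244048)) (b (l 17398616) (l 17064448))))))), by decide +kernel⟩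

theorem c_pp_113 : CertN 536870912 536870912 1610612736 536870912 134217728 67108864 3 false true true .nn 1 1 3
    ndN3q1 ndN2q3 pcN1 Cut.none Ext.none :=
  certN1 (fam := false) (s1 := true) (s2 := true) (a := 1) (b := 1) (c := 3) (cn := .nn) (n1 := ndN3q1) (n2 := ndN2q3) (pc := pcN1) (cut := Cut.none) (xt := Ext.none) (P1 := 536870912) (W1 := 536870912) (P2 := 1610612736) (W2 := 536870912) (P3 := 134217728) (W3 := 67108864) (N0 := 3)
    rfl (fun _ => rfl) k0_pp_113

noncomputable def f_pp_123 : ℕ → ℕ → ℕ → ℕ → Bool := onCell 536870912 536870912 1610612736 536870912 134217728 67108864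
    (rowN 3 0 false true true .npn 1 2 3 (qsf 536870912 536870912 1610612736 536870912 2) ndN3q1 ndN2q3 pcN2 Cut.none Ext.none)

def k0_pp_123 : ∃ t, chk3 f_pp_123 t 1 1 1 = true :=
  ⟨(a (b (b (b (l 17995480) (l 17870992)) (a (l 17641696) (l 17682176))) (b (a (l 17335240) (l 17396680)) (a (l 16917632) (l 16962856)))) (b (a (a (l 663608505495) (l 1)) (l 1)) (a (b (a (l 17381280) (l 17339576)) (a (l 17017128) (l 17003712))) (b (a (l 17381520) (l 1)) (a (l 16964792) (l 16984992)))))), by decide +kernel⟩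

theorem c_pp_123 : CertN 536870912 536870912 1610612736 536870912 134217728 67108864 3 false true true .npn 1 2 3
    ndN3q1 ndN2q3 pcN2 Cut.none Ext.none :=
  certN0 (fam := false) (s1 := true) (s2 := true) (a := 1) (b := 2) (c := 3) (cn := .npn) (n1 := ndN3q1) (n2 := ndN2q3) (pc := pcN2) (cut := Cut.none) (xt := Ext.none) (P1 := 536870912) (W1 := 536870912) (P2 := 1610612736) (W2 := 536870912) (P3 := 134217728) (W3 := 67108864) (N0 := 3)
    rfl k0_pp_123

noncomputable def f_pp_133 : ℕ → ℕ → ℕ → ℕ → Bool := onCell 1610612736 536870912 1610612736 536870912 134217728 67108864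
    (rowN 3 2 false true true .dn 1 3 3 (qsf 536870912 536870912 1610612736 536870912 3) ndN3q1 ndN2q3 pcN3 Cut.none Ext.none)

def k0_pp_133 : ∃ t, chk3 f_pp_133 t 1 1 1 = true :=
  ⟨(a (b (l 1) (b (l 1) (l 4))) (l 1)), by decide +kernel⟩

theorem c_pp_133 : CertN 536870912 536870912 1610612736 536870912 134217728 67108864 3 false true true .dn 1 3 3
    ndN3q1 ndN2q3 pcN3 Cut.none Ext.none :=
  certN2 (fam := false) (s1 := true) (s2 := true) (a := 1) (b := 3) (c := 3) (cn := .dn) (n1 := ndN3q1) (n2 := ndN2q3) (pc := pcN3) (cut := Cut.none) (xt := Ext.none) (P1 := 536870912) (W1 := 536870912) (P2 := 1610612736) (W2 := 536870912) (P3 := 134217728) (W3 := 67108864) (N0 := 3)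
    rfl (fun _ => rfl) k0_pp_133

noncomputable def f_pp_202_a : ℕ → ℕ → ℕ → ℕ → Bool := onCell 1073741824 536870912 0 536870912 134217728 67108864
    (rowN 3 0 false true true .pp 2 0 2 (qsf 1073741824 536870912 0 536870912 0) ndN3q2 ndN2q2a pcN0 Cut.none Ext.none)

def k0_pp_202_a : ∃ t, chk3 f_pp_202_a t 1 1 1 = true :=
  ⟨(l 3), by decide +kernel⟩

theorem c_pp_202_a : CertN 1073741824 536870912 0 536870912 134217728 67108864 3 false true true .pp 2 0 2
    ndN3q2 ndN2q2a pcN0 Cut.none Ext.none :=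
  certN0 (fam := false) (s1 := true) (s2 := true) (a := 2) (b := 0) (c := 2) (cn := .pp) (n1 := ndN3q2) (n2 := ndN2q2a) (pc := pcN0) (cut := Cut.none) (xt := Ext.none) (P1 := 1073741824) (W1 := 536870912) (P2 := 0) (W2 := 536870912) (P3 := 134217728) (W3 := 67108864) (N0 := 3)
    rfl k0_pp_202_a

noncomputable def f_pp_202_b : ℕ → ℕ → ℕ → ℕ → Bool := onCell 1073741824 536870912 1239849684 370763052 134217728 67108864
    (rowN 3 0 false true true .pp 2 0 2 (qsf 1073741824 536870912 1239849684 370763052 0) ndN3q2 ndN2q2b pcN0 Cut.none Ext.none)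

def k0_pp_202_b : ∃ t, chk3 f_pp_202_b t 1 1 1 = true :=
  ⟨(l 3), by decide +kernel⟩

theorem c_pp_202_b : CertN 1073741824 536870912 1239849684 370763052 134217728 67108864 3 false true true .pp 2 0 2
    ndN3q2 ndN2q2b pcN0 Cut.none Ext.none :=
  certN0 (fam := false) (s1 := true) (s2 := true) (a := 2) (b := 0) (c := 2) (cn := .pp) (n1 := ndN3q2) (n2 := ndN2q2b) (pc := pcN0) (cut := Cut.none) (xt := Ext.none) (P1 := 1073741824) (W1 := 536870912) (P2 := 1239849684) (W2 := 370763052) (P3 := 134217728) (W3 := 67108864) (N0 := 3)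
    rfl k0_pp_202_b

noncomputable def f_pp_203 : ℕ → ℕ → ℕ → ℕ → Bool := onCell 1073741824 536870912 0 536870912 134217728 67108864
    (rowN 3 1 false true true .up 2 0 3 (qsf 1073741824 536870912 1610612736 536870912 0) ndN3q2 ndN2q3 pcN0 Cut.none Ext.none)

def k0_pp_203 : ∃ t, chk3 f_pp_203 t 1 1 1 = true :=
  ⟨(l 3), by decide +kernel⟩

theorem c_pp_203 : CertN 1073741824 536870912 1610612736 536870912 134217728 67108864 3 false true true .up 2 0 3
    ndN3q2 ndN2q3 pcN0 Cut.none Ext.none :=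
  certN1 (fam := false) (s1 := true) (s2 := true) (a := 2) (b := 0) (c := 3) (cn := .up) (n1 := ndN3q2) (n2 := ndN2q3) (pc := pcN0) (cut := Cut.none) (xt := Ext.none) (P1 := 1073741824) (W1 := 536870912) (P2 := 1610612736) (W2 := 536870912) (P3 := 134217728) (W3 := 67108864) (N0 := 3)
    rfl (fun _ => rfl) k0_pp_203

noncomputable def f_pp_213 : ℕ → ℕ → ℕ → ℕ → Bool := onCell 1073741824 536870912 1610612736 536870912 134217728 67108864
    (rowN 3 0 false true true .pnn 2 1 3 (qsf 1073741824 536870912 1610612736 536870912 1) ndN3q2 ndN2q3 pcN1 Cut.none Ext.none)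

def k0_pp_213 : ∃ t, chk3 f_pp_213 t 1 1 1 = true :=
  ⟨(a (b (l 3) (b (l 3) (a (a (b (l 213843366407) (l 16966848)) (a (a (l 215454028871) (b (l 3) (l 17025024))) (a (l 227802148135) (l 236928976567)))) (a (a (a (l 248203303703) (l 255182672855)) (l 3)) (l 3))))) (l 3)), by decide +kernel⟩

theorem c_pp_213 : CertN 1073741824 536870912 1610612736 536870912 134217728 67108864 3 false true true .pnn 2 1 3
    ndN3q2 ndN2q3 pcN1 Cut.none Ext.none :=
  certN0 (fam := false) (s1 := true) (s2 := true) (a := 2) (b := 1) (c := 3) (cn := .pnn) (n1 := ndN3q2) (n2 := ndN2q3) (pc := pcN1) (cut := Cut.none) (xt := Ext.none) (P1 := 1073741824) (W1 := 536870912) (P2 := 1610612736) (W2 := 536870912) (P3 := 134217728) (W3 := 67108864) (N0 := 3)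
    rfl k0_pp_213

noncomputable def f_pp_303 : ℕ → ℕ → ℕ → ℕ → Bool := onCell 0 1230186008 1610612736 536870912 134217728 67108864
    (rowN 3 0 false true true .npn 3 0 3 (qsf 0 1230186008 1610612736 536870912 0) ndN3q3 ndN2q3 pcN0 Cut.none Ext.none)

def k0_pp_303 : ∃ t, chk3 f_pp_303 t 1 1 1 = true :=
  ⟨(a (l 3) (l 3)), by decide +kernel⟩

theorem c_pp_303 : CertN 0 1230186008 1610612736 536870912 134217728 67108864 3 false true true .npn 3 0 3
    ndN3q3 ndN2q3 pcN0 Cut.none Ext.none :=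
  certN0 (fam := false) (s1 := true) (s2 := true) (a := 3) (b := 0) (c := 3) (cn := .npn) (n1 := ndN3q3) (n2 := ndN2q3) (pc := pcN0) (cut := Cut.none) (xt := Ext.none) (P1 := 0) (W1 := 1230186008) (P2 := 1610612736) (W2 := 536870912) (P3 := 134217728) (W3 := 67108864) (N0 := 3)
    rfl k0_pp_303

noncomputable def f_pp_313 : ℕ → ℕ → ℕ → ℕ → Bool := onCell 0 1230186008 1610612736 536870912 134217728 67108864
    (rowN 3 0 false true true .dn 3 1 3 (qsf 0 1230186008 1610612736 536870912 1) ndN3q3 ndN2q3 pcN1 Cut.none Ext.none)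

def k0_pp_313 : ∃ t, chk3 f_pp_313 t 1 1 1 = true :=
  ⟨(a (l 1) (l 3)), by decide +kernel⟩

theorem c_pp_313 : CertN 0 1230186008 1610612736 536870912 134217728 67108864 3 false true true .dn 3 1 3
    ndN3q3 ndN2q3 pcN1 Cut.none Ext.none :=
  certN0 (fam := false) (s1 := true) (s2 := true) (a := 3) (b := 1) (c := 3) (cn := .dn) (n1 := ndN3q3) (n2 := ndN2q3) (pc := pcN1) (cut := Cut.none) (xt := Ext.none) (P1 := 0) (W1 := 1230186008) (P2 := 1610612736) (W2 := 536870912) (P3 := 134217728) (W3 := 67108864) (N0 := 3)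
    rfl k0_pp_313

noncomputable def f_pm_001 : ℕ → ℕ → ℕ → ℕ → Bool := onCell 0 536870912 536870912 536870912 134217728 67108864
    (rowN 3 0 false true false .up 0 0 1 (qsf 0 536870912 536870912 536870912 0) ndN3q0 ndN2q1 pcN0 Cut.none Ext.none)

def k0_pm_001 : ∃ t, chk3 f_pm_001 t 1 1 1 = true :=
  ⟨(l 4), by decide +kernel⟩

theorem c_pm_001 : CertN 0 536870912 536870912 536870912 134217728 67108864 3 false true false .up 0 0 1
    ndN3q0 ndN2q1 pcN0 Cut.none Ext.none :=
  certN0 (fam := false) (s1 := true) (s2 := false) (a := 0) (b := 0) (c := 1) (cn := .up) (n1 := ndN3q0) (n2 := ndN2q1) (pc := pcN0) (cut := Cut.none) (xt := Ext.none) (P1 := 0) (W1 := 536870912) (P2 := 536870912) (W2 := 536870912) (P3 := 134217728) (W3 := 67108864) (N0 := 3)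
    rfl k0_pm_001

noncomputable def f_pm_011 : ℕ → ℕ → ℕ → ℕ → Bool := onCell 0 536870912 536870912 536870912 134217728 67108864
    (rowN 3 0 false true false .pnn 0 1 1 (qsf 0 536870912 536870912 536870912 1) ndN3q0 ndN2q1 pcN1 Cut.none Ext.none)

def k0_pm_011 : ∃ t, chk3 f_pm_011 t 1 1 1 = true :=
  ⟨(l 4), by decide +kernel⟩

theorem c_pm_011 : CertN 0 536870912 536870912 536870912 134217728 67108864 3 false true false .pnn 0 1 1
    ndN3q0 ndN2q1 pcN1 Cut.none Ext.none :=
  certN0 (fam := false) (s1 := true) (s2 := false) (a := 0) (b := 1) (c := 1) (cn := .pnn) (n1 := ndN3q0) (n2 := ndN2q1) (pc := pcN1) (cut := Cut.none) (xt := Ext.none) (P1 := 0) (W1 := 536870912) (P2 := 536870912) (W2 := 536870912) (P3 := 134217728) (W3 := 67108864) (N0 := 3)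
    rfl k0_pm_011

noncomputable def f_pm_012_a : ℕ → ℕ → ℕ → ℕ → Bool := onCell 0 536870912 0 536870912 134217728 67108864
    (rowN 3 0 false true false .pnp 0 1 2 (qsf 0 536870912 0 536870912 1) ndN3q0 ndN2q2a pcN1 Cut.none Ext.none)

def k0_pm_012_a : ∃ t, chk3 f_pm_012_a t 1 1 1 = true :=
  ⟨(l 4), by decide +kernel⟩

theorem c_pm_012_a : CertN 0 536870912 0 536870912 134217728 67108864 3 false true false .pnp 0 1 2
    ndN3q0 ndN2q2a pcN1 Cut.none Ext.none :=
  certN0 (fam := false) (s1 := true) (s2 := false) (a := 0) (b := 1) (c := 2) (cn := .pnp) (n1 := ndN3q0) (n2 := ndN2q2a) (pc := pcN1) (cut := Cut.none) (xt := Ext.none) (P1 := 0) (W1 := 536870912) (P2 := 0) (W2 := 536870912) (P3 := 134217728) (W3 := 67108864) (N0 := 3)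
    rfl k0_pm_012_a

noncomputable def f_pm_012_b : ℕ → ℕ → ℕ → ℕ → Bool := onCell 0 536870912 1239849684 370763052 134217728 67108864
    (rowN 3 0 false true false .pnp 0 1 2 (qsf 0 536870912 1239849684 370763052 1) ndN3q0 ndN2q2b pcN1 Cut.none Ext.none)

def k0_pm_012_b : ∃ t, chk3 f_pm_012_b t 1 1 1 = true :=
  ⟨(l 4), by decide +kernel⟩

theorem c_pm_012_b : CertN 0 536870912 1239849684 370763052 134217728 67108864 3 false true false .pnp 0 1 2
    ndN3q0 ndN2q2b pcN1 Cut.none Ext.none :=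
  certN0 (fam := false) (s1 := true) (s2 := false) (a := 0) (b := 1) (c := 2) (cn := .pnp) (n1 := ndN3q0) (n2 := ndN2q2b) (pc := pcN1) (cut := Cut.none) (xt := Ext.none) (P1 := 0) (W1 := 536870912) (P2 := 1239849684) (W2 := 370763052) (P3 := 134217728) (W3 := 67108864) (N0 := 3)
    rfl k0_pm_012_b

noncomputable def f_pm_022_a : ℕ → ℕ → ℕ → ℕ → Bool := onCell 0 536870912 0 536870912 134217728 67108864
    (rowN 3 0 false true false .pp 0 2 2 (qsf 0 536870912 0 536870912 2) ndN3q0 ndN2q2a pcN2 Cut.none Ext.none)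

def k0_pm_022_a : ∃ t, chk3 f_pm_022_a t 1 1 1 = true :=
  ⟨(l 4), by decide +kernel⟩

theorem c_pm_022_a : CertN 0 536870912 0 536870912 134217728 67108864 3 false true false .pp 0 2 2
    ndN3q0 ndN2q2a pcN2 Cut.none Ext.none :=
  certN0 (fam := false) (s1 := true) (s2 := false) (a := 0) (b := 2) (c := 2) (cn := .pp) (n1 := ndN3q0) (n2 := ndN2q2a) (pc := pcN2) (cut := Cut.none) (xt := Ext.none) (P1 := 0) (W1 := 536870912) (P2 := 0) (W2 := 536870912) (P3 := 134217728) (W3 := 67108864) (N0 := 3)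
    rfl k0_pm_022_a

noncomputable def f_pm_022_b : ℕ → ℕ → ℕ → ℕ → Bool := onCell 0 536870912 1239849684 370763052 134217728 67108864
    (rowN 3 0 false true false .pp 0 2 2 (qsf 0 536870912 1239849684 370763052 2) ndN3q0 ndN2q2b pcN2 Cut.none Ext.none)

def k0_pm_022_b : ∃ t, chk3 f_pm_022_b t 1 1 1 = true :=
  ⟨(l 4), by decide +kernel⟩

theorem c_pm_022_b : CertN 0 536870912 1239849684 370763052 134217728 67108864 3 false true false .pp 0 2 2
    ndN3q0 ndN2q2b pcN2 Cut.none Ext.none :=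
  certN0 (fam := false) (s1 := true) (s2 := false) (a := 0) (b := 2) (c := 2) (cn := .pp) (n1 := ndN3q0) (n2 := ndN2q2b) (pc := pcN2) (cut := Cut.none) (xt := Ext.none) (P1 := 0) (W1 := 536870912) (P2 := 1239849684) (W2 := 370763052) (P3 := 134217728) (W3 := 67108864) (N0 := 3)
    rfl k0_pm_022_b

noncomputable def f_pm_023 : ℕ → ℕ → ℕ → ℕ → Bool := onCell 0 536870912 1610612736 536870912 134217728 67108864
    (rowN 3 0 false true false .up 0 2 3 (qsf 0 536870912 1610612736 536870912 2) ndN3q0 ndN2q3 pcN2 Cut.none Ext.none)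

def k0_pm_023 : ∃ t, chk3 f_pm_023 t 1 1 1 = true :=
  ⟨(l 4), by decide +kernel⟩

theorem c_pm_023 : CertN 0 536870912 1610612736 536870912 134217728 67108864 3 false true false .up 0 2 3
    ndN3q0 ndN2q3 pcN2 Cut.none Ext.none :=
  certN0 (fam := false) (s1 := true) (s2 := false) (a := 0) (b := 2) (c := 3) (cn := .up) (n1 := ndN3q0) (n2 := ndN2q3) (pc := pcN2) (cut := Cut.none) (xt := Ext.none) (P1 := 0) (W1 := 536870912) (P2 := 1610612736) (W2 := 536870912) (P3 := 134217728) (W3 := 67108864) (N0 := 3)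
    rfl k0_pm_023

noncomputable def f_pm_033 : ℕ → ℕ → ℕ → ℕ → Bool := onCell 0 536870912 1610612736 536870912 134217728 67108864
    (rowN 3 0 false true false .pnn 0 3 3 (qsf 0 536870912 1610612736 536870912 3) ndN3q0 ndN2q3 pcN3 Cut.none Ext.none)

def k0_pm_033 : ∃ t, chk3 f_pm_033 t 1 1 1 = true :=
  ⟨(l 4), by decide +kernel⟩

theorem c_pm_033 : CertN 0 536870912 1610612736 536870912 134217728 67108864 3 false true false .pnn 0 3 3
    ndN3q0 ndN2q3 pcN3 Cut.none Ext.none :=
  certN0 (fam := false) (s1 := true) (s2 := false) (a := 0) (b := 3) (c := 3) (cn := .pnn) (n1 := ndN3q0) (n2 := ndN2q3) (pc := pcN3) (cut := Cut.none) (xt := Ext.none) (P1 := 0) (W1 := 536870912) (P2 := 1610612736) (W2 := 536870912) (P3 := 134217728) (W3 := 67108864) (N0 := 3)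
    rfl k0_pm_033

noncomputable def f_pm_101 : ℕ → ℕ → ℕ → ℕ → Bool := onCell 536870912 536870912 536870912 536870912 134217728 67108864
    (rowN 3 0 false true false .npn 1 0 1 (qsf 536870912 536870912 536870912 536870912 0) ndN3q1 ndN2q1 pcN0 Cut.none Ext.none)

def k0_pm_101 : ∃ t, chk3 f_pm_101 t 1 1 1 = true :=
  ⟨(l 4), by decide +kernel⟩

theorem c_pm_101 : CertN 536870912 536870912 536870912 536870912 134217728 67108864 3 false true false .npn 1 0 1
    ndN3q1 ndN2q1 pcN0 Cut.none Ext.none :=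
  certN0 (fam := false) (s1 := true) (s2 := false) (a := 1) (b := 0) (c := 1) (cn := .npn) (n1 := ndN3q1) (n2 := ndN2q1) (pc := pcN0) (cut := Cut.none) (xt := Ext.none) (P1 := 536870912) (W1 := 536870912) (P2 := 536870912) (W2 := 536870912) (P3 := 134217728) (W3 := 67108864) (N0 := 3)
    rfl k0_pm_101

noncomputable def f_pm_102_a : ℕ → ℕ → ℕ → ℕ → Bool := onCell 536870912 536870912 0 536870912 134217728 67108864
    (rowN 3 0 false true false .npp 1 0 2 (qsf 536870912 536870912 0 536870912 0) ndN3q1 ndN2q2a pcN0 Cut.none Ext.none)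

def k0_pm_102_a : ∃ t, chk3 f_pm_102_a t 1 1 1 = true :=
  ⟨(l 4), by decide +kernel⟩

theorem c_pm_102_a : CertN 536870912 536870912 0 536870912 134217728 67108864 3 false true false .npp 1 0 2
    ndN3q1 ndN2q2a pcN0 Cut.none Ext.none :=
  certN0 (fam := false) (s1 := true) (s2 := false) (a := 1) (b := 0) (c := 2) (cn := .npp) (n1 := ndN3q1) (n2 := ndN2q2a) (pc := pcN0) (cut := Cut.none) (xt := Ext.none) (P1 := 536870912) (W1 := 536870912) (P2 := 0) (W2 := 536870912) (P3 := 134217728) (W3 := 67108864) (N0 := 3)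
    rfl k0_pm_102_a

noncomputable def f_pm_102_b : ℕ → ℕ → ℕ → ℕ → Bool := onCell 536870912 536870912 1239849684 370763052 134217728 67108864
    (rowN 3 0 false true false .npp 1 0 2 (qsf 536870912 536870912 1239849684 370763052 0) ndN3q1 ndN2q2b pcN0 Cut.none Ext.none)

def k0_pm_102_b : ∃ t, chk3 f_pm_102_b t 1 1 1 = true :=
  ⟨(l 4), by decide +kernel⟩

theorem c_pm_102_b : CertN 536870912 536870912 1239849684 370763052 134217728 67108864 3 false true false .npp 1 0 2
    ndN3q1 ndN2q2b pcN0 Cut.none Ext.none :=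
  certN0 (fam := false) (s1 := true) (s2 := false) (a := 1) (b := 0) (c := 2) (cn := .npp) (n1 := ndN3q1) (n2 := ndN2q2b) (pc := pcN0) (cut := Cut.none) (xt := Ext.none) (P1 := 536870912) (W1 := 536870912) (P2 := 1239849684) (W2 := 370763052) (P3 := 134217728) (W3 := 67108864) (N0 := 3)
    rfl k0_pm_102_b

noncomputable def f_pm_112_a : ℕ → ℕ → ℕ → ℕ → Bool := onCell 536870912 536870912 0 536870912 134217728 67108864
    (rowN 3 0 false true false .dn 1 1 2 (qsf 536870912 536870912 0 536870912 1) ndN3q1 ndN2q2a pcN1 Cut.none Ext.none)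

def k0_pm_112_a : ∃ t, chk3 f_pm_112_a t 1 1 1 = true :=
  ⟨(l 4), by decide +kernel⟩

theorem c_pm_112_a : CertN 536870912 536870912 0 536870912 134217728 67108864 3 false true false .dn 1 1 2
    ndN3q1 ndN2q2a pcN1 Cut.none Ext.none :=
  certN0 (fam := false) (s1 := true) (s2 := false) (a := 1) (b := 1) (c := 2) (cn := .dn) (n1 := ndN3q1) (n2 := ndN2q2a) (pc := pcN1) (cut := Cut.none) (xt := Ext.none) (P1 := 536870912) (W1 := 536870912) (P2 := 0) (W2 := 536870912) (P3 := 134217728) (W3 := 67108864) (N0 := 3)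
    rfl k0_pm_112_a

noncomputable def f_pm_112_b : ℕ → ℕ → ℕ → ℕ → Bool := onCell 536870912 536870912 1239849684 370763052 134217728 67108864
    (rowN 3 0 false true false .dn 1 1 2 (qsf 536870912 536870912 1239849684 370763052 1) ndN3q1 ndN2q2b pcN1 Cut.none Ext.none)

def k0_pm_112_b : ∃ t, chk3 f_pm_112_b t 1 1 1 = true :=
  ⟨(l 4), by decide +kernel⟩

theorem c_pm_112_b : CertN 536870912 536870912 1239849684 370763052 134217728 67108864 3 false true false .dn 1 1 2
    ndN3q1 ndN2q2b pcN1 Cut.none Ext.none :=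
  certN0 (fam := false) (s1 := true) (s2 := false) (a := 1) (b := 1) (c := 2) (cn := .dn) (n1 := ndN3q1) (n2 := ndN2q2b) (pc := pcN1) (cut := Cut.none) (xt := Ext.none) (P1 := 536870912) (W1 := 536870912) (P2 := 1239849684) (W2 := 370763052) (P3 := 134217728) (W3 := 67108864) (N0 := 3)
    rfl k0_pm_112_b

noncomputable def f_pm_113 : ℕ → ℕ → ℕ → ℕ → Bool := onCell 536870912 536870912 1610612736 536870912 134217728 67108864
    (rowN 3 0 false true false .nn 1 1 3 (qsf 536870912 536870912 1610612736 536870912 1) ndN3q1 ndN2q3 pcN1 Cut.none Ext.none)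

def k0_pm_113 : ∃ t, chk3 f_pm_113 t 1 1 1 = true :=
  ⟨(a (l 4) (b (l 4) (a (l 4) (a (l 4) (b (l 4) (b (l 4) (l 16884896))))))), by decide +kernel⟩

theorem c_pm_113 : CertN 536870912 536870912 1610612736 536870912 134217728 67108864 3 false true false .nn 1 1 3
    ndN3q1 ndN2q3 pcN1 Cut.none Ext.none :=
  certN0 (fam := false) (s1 := true) (s2 := false) (a := 1) (b := 1) (c := 3) (cn := .nn) (n1 := ndN3q1) (n2 := ndN2q3) (pc := pcN1) (cut := Cut.none) (xt := Ext.none) (P1 := 536870912) (W1 := 536870912) (P2 := 1610612736) (W2 := 536870912) (P3 := 134217728) (W3 := 67108864) (N0 := 3)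
    rfl k0_pm_113

noncomputable def f_pm_123 : ℕ → ℕ → ℕ → ℕ → Bool := onCell 536870912 536870912 1610612736 536870912 134217728 67108864
    (rowN 3 0 false true false .npn 1 2 3 (qsf 536870912 536870912 1610612736 536870912 2) ndN3q1 ndN2q3 pcN2 Cut.none Ext.none)

def k0_pm_123 : ∃ t, chk3 f_pm_123 t 1 1 1 = true :=
  ⟨(a (l 4) (b (l 4) (a (l 4) (a (l 4) (b (l 1) (l 16983496)))))), by decide +kernel⟩

theorem c_pm_123 : CertN 536870912 536870912 1610612736 536870912 134217728 67108864 3 false true false .npn 1 2 3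
    ndN3q1 ndN2q3 pcN2 Cut.none Ext.none :=
  certN0 (fam := false) (s1 := true) (s2 := false) (a := 1) (b := 2) (c := 3) (cn := .npn) (n1 := ndN3q1) (n2 := ndN2q3) (pc := pcN2) (cut := Cut.none) (xt := Ext.none) (P1 := 536870912) (W1 := 536870912) (P2 := 1610612736) (W2 := 536870912) (P3 := 134217728) (W3 := 67108864) (N0 := 3)
    rfl k0_pm_123

noncomputable def f_pm_133 : ℕ → ℕ → ℕ → ℕ → Bool := onCell 536870912 536870912 1610612736 536870912 134217728 67108864
    (rowN 3 0 false true false .dn 1 3 3 (qsf 536870912 536870912 1610612736 536870912 3) ndN3q1 ndN2q3 pcN3 Cut.none Ext.none)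

def k0_pm_133 : ∃ t, chk3 f_pm_133 t 1 1 1 = true :=
  ⟨(a (l 4) (l 1)), by decide +kernel⟩

theorem c_pm_133 : CertN 536870912 536870912 1610612736 536870912 134217728 67108864 3 false true false .dn 1 3 3
    ndN3q1 ndN2q3 pcN3 Cut.none Ext.none :=
  certN0 (fam := false) (s1 := true) (s2 := false) (a := 1) (b := 3) (c := 3) (cn := .dn) (n1 := ndN3q1) (n2 := ndN2q3) (pc := pcN3) (cut := Cut.none) (xt := Ext.none) (P1 := 536870912) (W1 := 536870912) (P2 := 1610612736) (W2 := 536870912) (P3 := 134217728) (W3 := 67108864) (N0 := 3)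
    rfl k0_pm_133

noncomputable def f_pm_202_a : ℕ → ℕ → ℕ → ℕ → Bool := onCell 1073741824 536870912 0 536870912 134217728 67108864
    (rowN 3 0 false true false .pp 2 0 2 (qsf 1073741824 536870912 0 536870912 0) ndN3q2 ndN2q2a pcN0 Cut.none Ext.none)

def k0_pm_202_a : ∃ t, chk3 f_pm_202_a t 1 1 1 = true :=
  ⟨(a (b (a (b (a (l 16781984) (a (a (l 16764088) (l 16993496)) (a (l 16890112) (l 16959624)))) (a (a (l 16720352) (l 16855504)) (a (a (l 16970528) (a (l 17024896) (l 17061840))) (a (l 17177600) (l 17316264))))) (a (a (b (a (l 17025832) (a (l 17075904) (l 17110288))) (a (l 17355344) (a (l 17232384) (l 1)))) (b (l 17276416) (l 1))) (l 1))) (a (b (a (a (l 17274376) (b (l 17074336) (l 17254256))) (a (a (b (l 17191040) (l 17330248)) (b (l 17479568) (a (l 17368664) (l 17393424)))) (b (a (l 17281624) (l 17318160)) (a (l 17396984) (l 1))))) (a (b (a (b (l 17256608) (l 17325528)) (b (l 17352584) (l 17419480))) (a (l 17437776) (c (l 17551136) (l 17464664)))) (a (a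 (b (l 17446256) (l 1)) (l 1)) (l 1)))) (b (l 1) (l 1)))) (l 1)), by decide +kernel⟩

theorem c_pm_202_a : CertN 1073741824 536870912 0 536870912 134217728 67108864 3 false true false .pp 2 0 2
    ndN3q2 ndN2q2a pcN0 Cut.none Ext.none :=
  certN0 (fam := false) (s1 := true) (s2 := false) (a := 2) (b := 0) (c := 2) (cn := .pp) (n1 := ndN3q2) (n2 := ndN2q2a) (pc := pcN0) (cut := Cut.none) (xt := Ext.none) (P1 := 1073741824) (W1 := 536870912) (P2 := 0) (W2 := 536870912) (P3 := 134217728) (W3 := 67108864) (N0 := 3)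
    rfl k0_pm_202_a

noncomputable def f_pm_202_b : ℕ → ℕ → ℕ → ℕ → Bool := onCell 1073741824 536870912 0 536870912 134217728 67108864
    (rowN 3 1 false true false .pp 2 0 2 (qsf 1073741824 536870912 1239849684 370763052 0) ndN3q2 ndN2q2b pcN0 Cut.none Ext.none)

def k0_pm_202_b : ∃ t, chk3 f_pm_202_b t 1 1 1 = true :=
  ⟨(a (b (a (b (a (b (l 1) (b (l 16881960) (l 16660016))) (a (a (b (l 1) (l 16684368)) (b (a (l 1) (l 17146824)) (a (l 16870288) (l 16985912)))) (b (a (b (l 1) (l 16915792)) (b (l 17059664) (l 16825128))) (a (b (l 16912392) (l 17331352)) (l 17334672))))) (a (b (l 66606492183) (l 17505752)) (a (a (b (l 17432120) (l 17757416)) (b (l 17562008) (l 17827072))) (a (b (l 17675920) (l 17889560)) (b (l 17776360) (l 17947280)))))) (a (a (b (a (b (b (l 17012112) (l 16830528)) (l 17502488)) (b (a (l 16897520) (b (l 16949480) (l 17130136))) (a (l 17615312) (l 17705008)))) (a (b (l 17861776) (l 17995192)) (b (l 17937896) (l 18039880)))) (b (b (l 17137024) (l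 17826400)) (b (l 18018504) (l 18075744)))) (b (b (a (l 17529224) (l 17830160)) (a (l 18006176) (l 18138888))) (b (l 18368672) (l 18121336))))) (a (b (a (l 17788320) (a (a (l 17926936) (l 17957672)) (a (l 17984688) (l 18010232)))) (a (l 17837152) (a (a (l 17903224) (l 17906176)) (a (l 17906752) (l 17907272))))) (a (a (b (a (l 18028032) (l 18045104)) (a (l 17900992) (l 2))) (b (l 18040096) (l 2))) (b (l 18143464) (l 2))))) (b (a (b (b (b (a (l 18037104) (l 18366624)) (l 18314736)) (l 18310856)) (l 18192832)) (b (b (a (b (l 18466336) (l 18420152)) (l 3)) (l 3)) (l 3))) (b (a (l 17971784) (l 2)) (l 2)))), by decide +kernel⟩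

theorem c_pm_202_b : CertN 1073741824 536870912 1239849684 370763052 134217728 67108864 3 false true false .pp 2 0 2
    ndN3q2 ndN2q2b pcN0 Cut.none Ext.none :=
  certN1 (fam := false) (s1 := true) (s2 := false) (a := 2) (b := 0) (c := 2) (cn := .pp) (n1 := ndN3q2) (n2 := ndN2q2b) (pc := pcN0) (cut := Cut.none) (xt := Ext.none) (P1 := 1073741824) (W1 := 536870912) (P2 := 1239849684) (W2 := 370763052) (P3 := 134217728) (W3 := 67108864) (N0 := 3)
    rfl (fun _ => rfl) k0_pm_202_b

noncomputable def f_pm_203 : ℕ → ℕ → ℕ → ℕ → Bool := onCell 1073741824 536870912 1610612736 536870912 134217728 67108864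
    (rowN 3 0 false true false .up 2 0 3 (qsf 1073741824 536870912 1610612736 536870912 0) ndN3q2 ndN2q3 pcN0 Cut.none Ext.none)

def k0_pm_203 : ∃ t, chk3 f_pm_203 t 1 1 1 = true :=
  ⟨(a (b (a (b (a (l 17977104) (a (a (l 18021064) (l 18021912)) (a (l 18024560) (l 18031424)))) (a (l 2) (a (l 2) (a (l 2) (l 17833992))))) (a (a (b (a (l 18034536) (l 18042280)) (a (l 17828512) (l 17829344))) (b (l 18033480) (l 17807256))) (b (a (l 18032104) (l 18038400)) (a (l 17789416) (l 17782848))))) (a (l 2) (a (l 2) (b (a (l 2) (l 17541776)) (l 2))))) (b (a (b (a (l 18077992) (l 18186184)) (a (l 17819528) (l 3))) (b (l 3) (l 3))) (a (b (l 3) (l 3)) (l 3)))), by decide +kernel⟩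

theorem c_pm_203 : CertN 1073741824 536870912 1610612736 536870912 134217728 67108864 3 false true false .up 2 0 3
    ndN3q2 ndN2q3 pcN0 Cut.none Ext.none :=
  certN0 (fam := false) (s1 := true) (s2 := false) (a := 2) (b := 0) (c := 3) (cn := .up) (n1 := ndN3q2) (n2 := ndN2q3) (pc := pcN0) (cut := Cut.none) (xt := Ext.none) (P1 := 1073741824) (W1 := 536870912) (P2 := 1610612736) (W2 := 536870912) (P3 := 134217728) (W3 := 67108864) (N0 := 3)
    rfl k0_pm_203

noncomputable def f_pm_213 : ℕ → ℕ → ℕ → ℕ → Bool := onCell 1073741824 536870912 1610612736 536870912 134217728 67108864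
    (rowN 3 0 false true false .pnn 2 1 3 (qsf 1073741824 536870912 1610612736 536870912 1) ndN3q2 ndN2q3 pcN1 Cut.none Ext.none)

def k0_pm_213 : ∃ t, chk3 f_pm_213 t 1 1 1 = true :=
  ⟨(a (b (a (b (a (l 17759872) (a (a (l 17725784) (l 17729312)) (a (l 17735712) (l 17747832)))) (a (l 17524248) (a (a (l 17590112) (l 17599280)) (a (l 17610136) (l 17624384))))) (a (b (a (a (l 17757904) (l 1)) (l 1)) (a (a (l 17636168) (l 17718680)) (l 17664416))) (b (l 1) (a (l 17696968) (l 17867896))))) (a (b (a (l 17285016) (a (a (l 17355672) (l 17368496)) (a (l 17382016) (l 17398888)))) (a (l 17196728) (a (a (l 17068272) (l 17096728)) (a (l 17086440) (l 17101368))))) (a (b (a (a (l 17414744) (l 17434688)) (l 17482920)) (a (a (l 17114176) (l 17154048)) (l 17138968))) (b (b (l 17642904) (l 17550688)) (a (l 17159424) (l 3)))))) (b (a (b (l 1) (a (b (l 1) (l 17764720)) (l 1))) (l 1)) (b (a (l 3) (l 3)) (l 3)))), by decide +kernel⟩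

theorem c_pm_213 : CertN 1073741824 536870912 1610612736 536870912 134217728 67108864 3 false true false .pnn 2 1 3
    ndN3q2 ndN2q3 pcN1 Cut.none Ext.none :=
  certN0 (fam := false) (s1 := true) (s2 := false) (a := 2) (b := 1) (c := 3) (cn := .pnn) (n1 := ndN3q2) (n2 := ndN2q3) (pc := pcN1) (cut := Cut.none) (xt := Ext.none) (P1 := 1073741824) (W1 := 536870912) (P2 := 1610612736) (W2 := 536870912) (P3 := 134217728) (W3 := 67108864) (N0 := 3)
    rfl k0_pm_213

noncomputable def f_pm_303 : ℕ → ℕ → ℕ → ℕ → Bool := onCell 0 1230186008 1610612736 536870912 134217728 67108864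
    (rowN 3 0 false true false .npn 3 0 3 (qsf 0 1230186008 1610612736 536870912 0) ndN3q3 ndN2q3 pcN0 Cut.none Ext.none)

def k0_pm_303 : ∃ t, chk3 f_pm_303 t 1 1 1 = true :=
  ⟨(a (l 3) (a (l 3) (b (l 3) (l 3)))), by decide +kernel⟩

theorem c_pm_303 : CertN 0 1230186008 1610612736 536870912 134217728 67108864 3 false true false .npn 3 0 3
    ndN3q3 ndN2q3 pcN0 Cut.none Ext.none :=
  certN0 (fam := false) (s1 := true) (s2 := false) (a := 3) (b := 0) (c := 3) (cn := .npn) (n1 := ndN3q3) (n2 := ndN2q3) (pc := pcN0) (cut := Cut.none) (xt := Ext.none) (P1 := 0) (W1 := 1230186008) (P2 := 1610612736) (W2 := 536870912) (P3 := 134217728) (W3 := 67108864) (N0 := 3)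
    rfl k0_pm_303

noncomputable def f_pm_313 : ℕ → ℕ → ℕ → ℕ → Bool := onCell 0 1230186008 1610612736 536870912 134217728 67108864
    (rowN 3 0 false true false .dn 3 1 3 (qsf 0 1230186008 1610612736 536870912 1) ndN3q3 ndN2q3 pcN1 Cut.none Ext.none)

def k0_pm_313 : ∃ t, chk3 f_pm_313 t 1 1 1 = true :=
  ⟨(a (l 1) (b (l 1) (l 3))), by decide +kernel⟩

theorem c_pm_313 : CertN 0 1230186008 1610612736 536870912 134217728 67108864 3 false true false .dn 3 1 3
    ndN3q3 ndN2q3 pcN1 Cut.none Ext.none :=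
  certN0 (fam := false) (s1 := true) (s2 := false) (a := 3) (b := 1) (c := 3) (cn := .dn) (n1 := ndN3q3) (n2 := ndN2q3) (pc := pcN1) (cut := Cut.none) (xt := Ext.none) (P1 := 0) (W1 := 1230186008) (P2 := 1610612736) (W2 := 536870912) (P3 := 134217728) (W3 := 67108864) (N0 := 3)
    rfl k0_pm_313

noncomputable def f_mm_001 : ℕ → ℕ → ℕ → ℕ → Bool := onCell 0 536870912 536870912 536870912 134217728 67108864
    (rowN 3 0 false false false .up 0 0 1 (qsf 0 536870912 536870912 536870912 0) ndN3q0 ndN2q1 pcN0 Cut.none Ext.none)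

def k0_mm_001 : ∃ t, chk3 f_mm_001 t 1 1 1 = true :=
  ⟨(l 3), by decide +kernel⟩

theorem c_mm_001 : CertN 0 536870912 536870912 536870912 134217728 67108864 3 false false false .up 0 0 1
    ndN3q0 ndN2q1 pcN0 Cut.none Ext.none :=
  certN0 (fam := false) (s1 := false) (s2 := false) (a := 0) (b := 0) (c := 1) (cn := .up) (n1 := ndN3q0) (n2 := ndN2q1) (pc := pcN0) (cut := Cut.none) (xt := Ext.none) (P1 := 0) (W1 := 536870912) (P2 := 536870912) (W2 := 536870912) (P3 := 134217728) (W3 := 67108864) (N0 := 3)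
    rfl k0_mm_001

noncomputable def f_mm_011 : ℕ → ℕ → ℕ → ℕ → Bool := onCell 0 536870912 536870912 536870912 134217728 67108864
    (rowN 3 0 false false false .pnn 0 1 1 (qsf 0 536870912 536870912 536870912 1) ndN3q0 ndN2q1 pcN1 Cut.none Ext.none)

def k0_mm_011 : ∃ t, chk3 f_mm_011 t 1 1 1 = true :=
  ⟨(l 3), by decide +kernel⟩

theorem c_mm_011 : CertN 0 536870912 536870912 536870912 134217728 67108864 3 false false false .pnn 0 1 1
    ndN3q0 ndN2q1 pcN1 Cut.none Ext.none :=
  certN0 (fam := false) (s1 := false) (s2 := false) (a := 0) (b := 1) (c := 1) (cn := .pnn) (n1 := ndN3q0) (n2 := ndN2q1) (pc := pcN1) (cut := Cut.none) (xt := Ext.none) (P1 := 0) (W1 := 536870912) (P2 := 536870912) (W2 := 536870912) (P3 := 134217728) (W3 := 67108864) (N0 := 3)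
    rfl k0_mm_011

noncomputable def f_mm_012_a : ℕ → ℕ → ℕ → ℕ → Bool := onCell 0 536870912 0 536870912 134217728 67108864
    (rowN 3 0 false false false .pnp 0 1 2 (qsf 0 536870912 0 536870912 1) ndN3q0 ndN2q2a pcN1 Cut.none Ext.none)

def k0_mm_012_a : ∃ t, chk3 f_mm_012_a t 1 1 1 = true :=
  ⟨(l 5), by decide +kernel⟩

theorem c_mm_012_a : CertN 0 536870912 0 536870912 134217728 67108864 3 false false false .pnp 0 1 2
    ndN3q0 ndN2q2a pcN1 Cut.none Ext.none :=
  certN0 (fam := false) (s1 := false) (s2 := false) (a := 0) (b := 1) (c := 2) (cn := .pnp) (n1 := ndN3q0) (n2 := ndN2q2a) (pc := pcN1) (cut := Cut.none) (xt := Ext.none) (P1 := 0) (W1 := 536870912) (P2 := 0) (W2 := 536870912) (P3 := 134217728) (W3 := 67108864) (N0 := 3)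
    rfl k0_mm_012_a

noncomputable def f_mm_012_b : ℕ → ℕ → ℕ → ℕ → Bool := onCell 0 536870912 1239849684 370763052 134217728 67108864
    (rowN 3 0 false false false .pnp 0 1 2 (qsf 0 536870912 1239849684 370763052 1) ndN3q0 ndN2q2b pcN1 Cut.none Ext.none)

def k0_mm_012_b : ∃ t, chk3 f_mm_012_b t 1 1 1 = true :=
  ⟨(l 5), by decide +kernel⟩

theorem c_mm_012_b : CertN 0 536870912 1239849684 370763052 134217728 67108864 3 false false false .pnp 0 1 2
    ndN3q0 ndN2q2b pcN1 Cut.none Ext.none :=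
  certN0 (fam := false) (s1 := false) (s2 := false) (a := 0) (b := 1) (c := 2) (cn := .pnp) (n1 := ndN3q0) (n2 := ndN2q2b) (pc := pcN1) (cut := Cut.none) (xt := Ext.none) (P1 := 0) (W1 := 536870912) (P2 := 1239849684) (W2 := 370763052) (P3 := 134217728) (W3 := 67108864) (N0 := 3)
    rfl k0_mm_012_b

noncomputable def f_mm_022_a : ℕ → ℕ → ℕ → ℕ → Bool := onCell 0 536870912 0 536870912 134217728 67108864
    (rowN 3 0 false false false .pp 0 2 2 (qsf 0 536870912 0 536870912 2) ndN3q0 ndN2q2a pcN2 Cut.none Ext.none)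

def k0_mm_022_a : ∃ t, chk3 f_mm_022_a t 1 1 1 = true :=
  ⟨(l 5), by decide +kernel⟩

theorem c_mm_022_a : CertN 0 536870912 0 536870912 134217728 67108864 3 false false false .pp 0 2 2
    ndN3q0 ndN2q2a pcN2 Cut.none Ext.none :=
  certN0 (fam := false) (s1 := false) (s2 := false) (a := 0) (b := 2) (c := 2) (cn := .pp) (n1 := ndN3q0) (n2 := ndN2q2a) (pc := pcN2) (cut := Cut.none) (xt := Ext.none) (P1 := 0) (W1 := 536870912) (P2 := 0) (W2 := 536870912) (P3 := 134217728) (W3 := 67108864) (N0 := 3)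
    rfl k0_mm_022_a

noncomputable def f_mm_022_b : ℕ → ℕ → ℕ → ℕ → Bool := onCell 0 536870912 1239849684 370763052 134217728 67108864
    (rowN 3 0 false false false .pp 0 2 2 (qsf 0 536870912 1239849684 370763052 2) ndN3q0 ndN2q2b pcN2 Cut.none Ext.none)

def k0_mm_022_b : ∃ t, chk3 f_mm_022_b t 1 1 1 = true :=
  ⟨(l 5), by decide +kernel⟩

theorem c_mm_022_b : CertN 0 536870912 1239849684 370763052 134217728 67108864 3 false false false .pp 0 2 2
    ndN3q0 ndN2q2b pcN2 Cut.none Ext.none :=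
  certN0 (fam := false) (s1 := false) (s2 := false) (a := 0) (b := 2) (c := 2) (cn := .pp) (n1 := ndN3q0) (n2 := ndN2q2b) (pc := pcN2) (cut := Cut.none) (xt := Ext.none) (P1 := 0) (W1 := 536870912) (P2 := 1239849684) (W2 := 370763052) (P3 := 134217728) (W3 := 67108864) (N0 := 3)
    rfl k0_mm_022_b

noncomputable def f_mm_023 : ℕ → ℕ → ℕ → ℕ → Bool := onCell 0 536870912 1610612736 536870912 134217728 67108864
    (rowN 3 0 false false false .up 0 2 3 (qsf 0 536870912 1610612736 536870912 2) ndN3q0 ndN2q3 pcN2 Cut.none Ext.none)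

def k0_mm_023 : ∃ t, chk3 f_mm_023 t 1 1 1 = true :=
  ⟨(l 5), by decide +kernel⟩

theorem c_mm_023 : CertN 0 536870912 1610612736 536870912 134217728 67108864 3 false false false .up 0 2 3
    ndN3q0 ndN2q3 pcN2 Cut.none Ext.none :=
  certN0 (fam := false) (s1 := false) (s2 := false) (a := 0) (b := 2) (c := 3) (cn := .up) (n1 := ndN3q0) (n2 := ndN2q3) (pc := pcN2) (cut := Cut.none) (xt := Ext.none) (P1 := 0) (W1 := 536870912) (P2 := 1610612736) (W2 := 536870912) (P3 := 134217728) (W3 := 67108864) (N0 := 3)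
    rfl k0_mm_023

noncomputable def f_mm_033 : ℕ → ℕ → ℕ → ℕ → Bool := onCell 0 536870912 1610612736 536870912 134217728 67108864
    (rowN 3 0 false false false .pnn 0 3 3 (qsf 0 536870912 1610612736 536870912 3) ndN3q0 ndN2q3 pcN3 Cut.none Ext.none)

def k0_mm_033 : ∃ t, chk3 f_mm_033 t 1 1 1 = true :=
  ⟨(l 5), by decide +kernel⟩

theorem c_mm_033 : CertN 0 536870912 1610612736 536870912 134217728 67108864 3 false false false .pnn 0 3 3
    ndN3q0 ndN2q3 pcN3 Cut.none Ext.none :=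
  certN0 (fam := false) (s1 := false) (s2 := false) (a := 0) (b := 3) (c := 3) (cn := .pnn) (n1 := ndN3q0) (n2 := ndN2q3) (pc := pcN3) (cut := Cut.none) (xt := Ext.none) (P1 := 0) (W1 := 536870912) (P2 := 1610612736) (W2 := 536870912) (P3 := 134217728) (W3 := 67108864) (N0 := 3)
    rfl k0_mm_033

noncomputable def f_mm_101 : ℕ → ℕ → ℕ → ℕ → Bool := onCell 536870912 536870912 536870912 536870912 134217728 67108864
    (rowN 3 0 false false false .npn 1 0 1 (qsf 536870912 536870912 536870912 536870912 0) ndN3q1 ndN2q1 pcN0 Cut.none Ext.none)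

def k0_mm_101 : ∃ t, chk3 f_mm_101 t 1 1 1 = true :=
  ⟨(l 3), by decide +kernel⟩

theorem c_mm_101 : CertN 536870912 536870912 536870912 536870912 134217728 67108864 3 false false false .npn 1 0 1
    ndN3q1 ndN2q1 pcN0 Cut.none Ext.none :=
  certN0 (fam := false) (s1 := false) (s2 := false) (a := 1) (b := 0) (c := 1) (cn := .npn) (n1 := ndN3q1) (n2 := ndN2q1) (pc := pcN0) (cut := Cut.none) (xt := Ext.none) (P1 := 536870912) (W1 := 536870912) (P2 := 536870912) (W2 := 536870912) (P3 := 134217728) (W3 := 67108864) (N0 := 3)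
    rfl k0_mm_101

noncomputable def f_mm_102_a : ℕ → ℕ → ℕ → ℕ → Bool := onCell 536870912 536870912 0 536870912 134217728 67108864
    (rowN 3 0 false false false .npp 1 0 2 (qsf 536870912 536870912 0 536870912 0) ndN3q1 ndN2q2a pcN0 Cut.none Ext.none)

def k0_mm_102_a : ∃ t, chk3 f_mm_102_a t 1 1 1 = true :=
  ⟨(l 5), by decide +kernel⟩

theorem c_mm_102_a : CertN 536870912 536870912 0 536870912 134217728 67108864 3 false false false .npp 1 0 2
    ndN3q1 ndN2q2a pcN0 Cut.none Ext.none :=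
  certN0 (fam := false) (s1 := false) (s2 := false) (a := 1) (b := 0) (c := 2) (cn := .npp) (n1 := ndN3q1) (n2 := ndN2q2a) (pc := pcN0) (cut := Cut.none) (xt := Ext.none) (P1 := 536870912) (W1 := 536870912) (P2 := 0) (W2 := 536870912) (P3 := 134217728) (W3 := 67108864) (N0 := 3)
    rfl k0_mm_102_a

noncomputable def f_mm_102_b : ℕ → ℕ → ℕ → ℕ → Bool := onCell 536870912 536870912 1239849684 370763052 134217728 67108864
    (rowN 3 0 false false false .npp 1 0 2 (qsf 536870912 536870912 1239849684 370763052 0) ndN3q1 ndN2q2b pcN0 Cut.none Ext.none)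

def k0_mm_102_b : ∃ t, chk3 f_mm_102_b t 1 1 1 = true :=
  ⟨(l 5), by decide +kernel⟩

theorem c_mm_102_b : CertN 536870912 536870912 1239849684 370763052 134217728 67108864 3 false false false .npp 1 0 2
    ndN3q1 ndN2q2b pcN0 Cut.none Ext.none :=
  certN0 (fam := false) (s1 := false) (s2 := false) (a := 1) (b := 0) (c := 2) (cn := .npp) (n1 := ndN3q1) (n2 := ndN2q2b) (pc := pcN0) (cut := Cut.none) (xt := Ext.none) (P1 := 536870912) (W1 := 536870912) (P2 := 1239849684) (W2 := 370763052) (P3 := 134217728) (W3 := 67108864) (N0 := 3)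
    rfl k0_mm_102_b

noncomputable def f_mm_112_a : ℕ → ℕ → ℕ → ℕ → Bool := onCell 536870912 536870912 0 536870912 134217728 67108864
    (rowN 3 0 false false false .dn 1 1 2 (qsf 536870912 536870912 0 536870912 1) ndN3q1 ndN2q2a pcN1 Cut.none Ext.none)

def k0_mm_112_a : ∃ t, chk3 f_mm_112_a t 1 1 1 = true :=
  ⟨(l 5), by decide +kernel⟩

theorem c_mm_112_a : CertN 536870912 536870912 0 536870912 134217728 67108864 3 false false false .dn 1 1 2
    ndN3q1 ndN2q2a pcN1 Cut.none Ext.none :=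
  certN0 (fam := false) (s1 := false) (s2 := false) (a := 1) (b := 1) (c := 2) (cn := .dn) (n1 := ndN3q1) (n2 := ndN2q2a) (pc := pcN1) (cut := Cut.none) (xt := Ext.none) (P1 := 536870912) (W1 := 536870912) (P2 := 0) (W2 := 536870912) (P3 := 134217728) (W3 := 67108864) (N0 := 3)
    rfl k0_mm_112_a

noncomputable def f_mm_112_b : ℕ → ℕ → ℕ → ℕ → Bool := onCell 536870912 536870912 1239849684 370763052 134217728 67108864
    (rowN 3 0 false false false .dn 1 1 2 (qsf 536870912 536870912 1239849684 370763052 1) ndN3q1 ndN2q2b pcN1 Cut.none Ext.none)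

def k0_mm_112_b : ∃ t, chk3 f_mm_112_b t 1 1 1 = true :=
  ⟨(l 5), by decide +kernel⟩

theorem c_mm_112_b : CertN 536870912 536870912 1239849684 370763052 134217728 67108864 3 false false false .dn 1 1 2
    ndN3q1 ndN2q2b pcN1 Cut.none Ext.none :=
  certN0 (fam := false) (s1 := false) (s2 := false) (a := 1) (b := 1) (c := 2) (cn := .dn) (n1 := ndN3q1) (n2 := ndN2q2b) (pc := pcN1) (cut := Cut.none) (xt := Ext.none) (P1 := 536870912) (W1 := 536870912) (P2 := 1239849684) (W2 := 370763052) (P3 := 134217728) (W3 := 67108864) (N0 := 3)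
    rfl k0_mm_112_b

noncomputable def f_mm_113 : ℕ → ℕ → ℕ → ℕ → Bool := onCell 536870912 536870912 1610612736 536870912 134217728 67108864
    (rowN 3 0 false false false .nn 1 1 3 (qsf 536870912 536870912 1610612736 536870912 1) ndN3q1 ndN2q3 pcN1 Cut.none Ext.none)

def k0_mm_113 : ∃ t, chk3 f_mm_113 t 1 1 1 = true :=
  ⟨(l 5), by decide +kernel⟩

theorem c_mm_113 : CertN 536870912 536870912 1610612736 536870912 134217728 67108864 3 false false false .nn 1 1 3
    ndN3q1 ndN2q3 pcN1 Cut.none Ext.none :=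
  certN0 (fam := false) (s1 := false) (s2 := false) (a := 1) (b := 1) (c := 3) (cn := .nn) (n1 := ndN3q1) (n2 := ndN2q3) (pc := pcN1) (cut := Cut.none) (xt := Ext.none) (P1 := 536870912) (W1 := 536870912) (P2 := 1610612736) (W2 := 536870912) (P3 := 134217728) (W3 := 67108864) (N0 := 3)
    rfl k0_mm_113

noncomputable def f_mm_123 : ℕ → ℕ → ℕ → ℕ → Bool := onCell 536870912 536870912 1610612736 536870912 134217728 67108864
    (rowN 3 0 false false false .npn 1 2 3 (qsf 536870912 536870912 1610612736 536870912 2) ndN3q1 ndN2q3 pcN2 Cut.none Ext.none)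

def k0_mm_123 : ∃ t, chk3 f_mm_123 t 1 1 1 = true :=
  ⟨(l 5), by decide +kernel⟩

theorem c_mm_123 : CertN 536870912 536870912 1610612736 536870912 134217728 67108864 3 false false false .npn 1 2 3
    ndN3q1 ndN2q3 pcN2 Cut.none Ext.none :=
  certN0 (fam := false) (s1 := false) (s2 := false) (a := 1) (b := 2) (c := 3) (cn := .npn) (n1 := ndN3q1) (n2 := ndN2q3) (pc := pcN2) (cut := Cut.none) (xt := Ext.none) (P1 := 536870912) (W1 := 536870912) (P2 := 1610612736) (W2 := 536870912) (P3 := 134217728) (W3 := 67108864) (N0 := 3)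
    rfl k0_mm_123

noncomputable def f_mm_133 : ℕ → ℕ → ℕ → ℕ → Bool := onCell 536870912 536870912 1610612736 536870912 134217728 67108864
    (rowN 3 0 false false false .dn 1 3 3 (qsf 536870912 536870912 1610612736 536870912 3) ndN3q1 ndN2q3 pcN3 Cut.none Ext.none)

def k0_mm_133 : ∃ t, chk3 f_mm_133 t 1 1 1 = true :=
  ⟨(l 5), by decide +kernel⟩

theorem c_mm_133 : CertN 536870912 536870912 1610612736 536870912 134217728 67108864 3 false false false .dn 1 3 3
    ndN3q1 ndN2q3 pcN3 Cut.none Ext.none :=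
  certN0 (fam := false) (s1 := false) (s2 := false) (a := 1) (b := 3) (c := 3) (cn := .dn) (n1 := ndN3q1) (n2 := ndN2q3) (pc := pcN3) (cut := Cut.none) (xt := Ext.none) (P1 := 536870912) (W1 := 536870912) (P2 := 1610612736) (W2 := 536870912) (P3 := 134217728) (W3 := 67108864) (N0 := 3)
    rfl k0_mm_133

noncomputable def f_mm_202_a : ℕ → ℕ → ℕ → ℕ → Bool := onCell 1073741824 536870912 0 536870912 134217728 67108864
    (rowN 3 0 false false false .pp 2 0 2 (qsf 1073741824 536870912 0 536870912 0) ndN3q2 ndN2q2a pcN0 Cut.none Ext.none)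

def k0_mm_202_a : ∃ t, chk3 f_mm_202_a t 1 1 1 = true :=
  ⟨(l 3), by decide +kernel⟩

theorem c_mm_202_a : CertN 1073741824 536870912 0 536870912 134217728 67108864 3 false false false .pp 2 0 2
    ndN3q2 ndN2q2a pcN0 Cut.none Ext.none :=
  certN0 (fam := false) (s1 := false) (s2 := false) (a := 2) (b := 0) (c := 2) (cn := .pp) (n1 := ndN3q2) (n2 := ndN2q2a) (pc := pcN0) (cut := Cut.none) (xt := Ext.none) (P1 := 1073741824) (W1 := 536870912) (P2 := 0) (W2 := 536870912) (P3 := 134217728) (W3 := 67108864) (N0 := 3)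
    rfl k0_mm_202_a

noncomputable def f_mm_202_b : ℕ → ℕ → ℕ → ℕ → Bool := onCell 1073741824 536870912 1239849684 370763052 134217728 67108864
    (rowN 3 0 false false false .pp 2 0 2 (qsf 1073741824 536870912 1239849684 370763052 0) ndN3q2 ndN2q2b pcN0 Cut.none Ext.none)

def k0_mm_202_b : ∃ t, chk3 f_mm_202_b t 1 1 1 = true :=
  ⟨(l 3), by decide +kernel⟩

theorem c_mm_202_b : CertN 1073741824 536870912 1239849684 370763052 134217728 67108864 3 false false false .pp 2 0 2
    ndN3q2 ndN2q2b pcN0 Cut.none Ext.none :=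
  certN0 (fam := false) (s1 := false) (s2 := false) (a := 2) (b := 0) (c := 2) (cn := .pp) (n1 := ndN3q2) (n2 := ndN2q2b) (pc := pcN0) (cut := Cut.none) (xt := Ext.none) (P1 := 1073741824) (W1 := 536870912) (P2 := 1239849684) (W2 := 370763052) (P3 := 134217728) (W3 := 67108864) (N0 := 3)
    rfl k0_mm_202_b

noncomputable def f_mm_203 : ℕ → ℕ → ℕ → ℕ → Bool := onCell 1073741824 536870912 1610612736 536870912 134217728 67108864
    (rowN 3 0 false false false .up 2 0 3 (qsf 1073741824 536870912 1610612736 536870912 0) ndN3q2 ndN2q3 pcN0 Cut.none Ext.none)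

def k0_mm_203 : ∃ t, chk3 f_mm_203 t 1 1 1 = true :=
  ⟨(l 5), by decide +kernel⟩

theorem c_mm_203 : CertN 1073741824 536870912 1610612736 536870912 134217728 67108864 3 false false false .up 2 0 3
    ndN3q2 ndN2q3 pcN0 Cut.none Ext.none :=
  certN0 (fam := false) (s1 := false) (s2 := false) (a := 2) (b := 0) (c := 3) (cn := .up) (n1 := ndN3q2) (n2 := ndN2q3) (pc := pcN0) (cut := Cut.none) (xt := Ext.none) (P1 := 1073741824) (W1 := 536870912) (P2 := 1610612736) (W2 := 536870912) (P3 := 134217728) (W3 := 67108864) (N0 := 3)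
    rfl k0_mm_203

noncomputable def f_mm_213 : ℕ → ℕ → ℕ → ℕ → Bool := onCell 1073741824 536870912 1610612736 536870912 134217728 67108864
    (rowN 3 0 false false false .pnn 2 1 3 (qsf 1073741824 536870912 1610612736 536870912 1) ndN3q2 ndN2q3 pcN1 Cut.none Ext.none)

def k0_mm_213 : ∃ t, chk3 f_mm_213 t 1 1 1 = true :=
  ⟨(l 5), by decide +kernel⟩

theorem c_mm_213 : CertN 1073741824 536870912 1610612736 536870912 134217728 67108864 3 false false false .pnn 2 1 3
    ndN3q2 ndN2q3 pcN1 Cut.none Ext.none :=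
  certN0 (fam := false) (s1 := false) (s2 := false) (a := 2) (b := 1) (c := 3) (cn := .pnn) (n1 := ndN3q2) (n2 := ndN2q3) (pc := pcN1) (cut := Cut.none) (xt := Ext.none) (P1 := 1073741824) (W1 := 536870912) (P2 := 1610612736) (W2 := 536870912) (P3 := 134217728) (W3 := 67108864) (N0 := 3)
    rfl k0_mm_213

noncomputable def f_mm_303 : ℕ → ℕ → ℕ → ℕ → Bool := onCell 0 1230186008 1610612736 536870912 134217728 67108864
    (rowN 3 0 false false false .npn 3 0 3 (qsf 0 1230186008 1610612736 536870912 0) ndN3q3 ndN2q3 pcN0 Cut.none Ext.none)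

def k0_mm_303 : ∃ t, chk3 f_mm_303 t 1 1 1 = true :=
  ⟨(a (l 3) (l 3)), by decide +kernel⟩

theorem c_mm_303 : CertN 0 1230186008 1610612736 536870912 134217728 67108864 3 false false false .npn 3 0 3
    ndN3q3 ndN2q3 pcN0 Cut.none Ext.none :=
  certN0 (fam := false) (s1 := false) (s2 := false) (a := 3) (b := 0) (c := 3) (cn := .npn) (n1 := ndN3q3) (n2 := ndN2q3) (pc := pcN0) (cut := Cut.none) (xt := Ext.none) (P1 := 0) (W1 := 1230186008) (P2 := 1610612736) (W2 := 536870912) (P3 := 134217728) (W3 := 67108864) (N0 := 3)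
    rfl k0_mm_303

noncomputable def f_mm_313 : ℕ → ℕ → ℕ → ℕ → Bool := onCell 0 1230186008 1610612736 536870912 134217728 67108864
    (rowN 3 0 false false false .dn 3 1 3 (qsf 0 1230186008 1610612736 536870912 1) ndN3q3 ndN2q3 pcN1 Cut.none Ext.none)

def k0_mm_313 : ∃ t, chk3 f_mm_313 t 1 1 1 = true :=
  ⟨(a (l 1) (l 3)), by decide +kernel⟩

theorem c_mm_313 : CertN 0 1230186008 1610612736 536870912 134217728 67108864 3 false false false .dn 3 1 3
    ndN3q3 ndN2q3 pcN1 Cut.none Ext.none :=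
  certN0 (fam := false) (s1 := false) (s2 := false) (a := 3) (b := 1) (c := 3) (cn := .dn) (n1 := ndN3q3) (n2 := ndN2q3) (pc := pcN1) (cut := Cut.none) (xt := Ext.none) (P1 := 0) (W1 := 1230186008) (P2 := 1610612736) (W2 := 536870912) (P3 := 134217728) (W3 := 67108864) (N0 := 3)
    rfl k0_mm_313

end Pool.Agent.Strip051.G.I1_8_3_16.Tab.C.NB32

namespace Pool.Agent.Strip051.G.I1_8_3_16.Tab.C.NB33

open Pool.Agent.Strip051.PB Pool.Agent.Strip051.PB.T
open Pool.Agent.Strip051.G.I1_8_3_16.Tab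

noncomputable def f_pp_001 : ℕ → ℕ → ℕ → ℕ → Bool := onCell 0 536870912 536870912 536870912 134217728 67108864
    (rowN 3 0 false true true .up 0 0 1 (qsf 0 536870912 536870912 536870912 0) ndN3q0 ndN3q1 pcN0 Cut.none Ext.none)

def k0_pp_001 : ∃ t, chk3 f_pp_001 t 1 1 1 = true :=
  ⟨(l 3), by decide +kernel⟩

theorem c_pp_001 : CertN 0 536870912 536870912 536870912 134217728 67108864 3 false true true .up 0 0 1
    ndN3q0 ndN3q1 pcN0 Cut.none Ext.none :=
  certN0 (fam := false) (s1 := true) (s2 := true) (a := 0) (b := 0) (c := 1) (cn := .up) (n1 := ndN3q0) (n2 := ndN3q1) (pc := pcN0) (cut := Cut.none) (xt := Ext.none) (P1 := 0) (W1 := 536870912) (P2 := 536870912) (W2 := 536870912) (P3 := 134217728) (W3 := 67108864) (N0 := 3)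
    rfl k0_pp_001

noncomputable def f_pp_011 : ℕ → ℕ → ℕ → ℕ → Bool := onCell 0 536870912 536870912 536870912 134217728 67108864
    (rowN 3 0 false true true .pnn 0 1 1 (qsf 0 536870912 536870912 536870912 1) ndN3q0 ndN3q1 pcN1 Cut.none Ext.none)

def k0_pp_011 : ∃ t, chk3 f_pp_011 t 1 1 1 = true :=
  ⟨(l 3), by decide +kernel⟩

theorem c_pp_011 : CertN 0 536870912 536870912 536870912 134217728 67108864 3 false true true .pnn 0 1 1
    ndN3q0 ndN3q1 pcN1 Cut.none Ext.none :=
  certN0 (fam := false) (s1 := true) (s2 := true) (a := 0) (b := 1) (c := 1) (cn := .pnn) (n1 := ndN3q0) (n2 := ndN3q1) (pc := pcN1) (cut := Cut.none) (xt := Ext.none) (P1 := 0) (W1 := 536870912) (P2 := 536870912) (W2 := 536870912) (P3 := 134217728) (W3 := 67108864) (N0 := 3)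
    rfl k0_pp_011

noncomputable def f_pp_012 : ℕ → ℕ → ℕ → ℕ → Bool := onCell 536870912 536870912 1073741824 536870912 134217728 67108864
    (rowN 3 2 false true true .pnp 0 1 2 (qsf 0 536870912 1073741824 536870912 1) ndN3q0 ndN3q2 pcN1 Cut.none Ext.none)

def k0_pp_012 : ∃ t, chk3 f_pp_012 t 1 1 1 = true :=
  ⟨(a (b (a (l 3) (b (l 3) (b (b (l 3) (l 17134896)) (l 17207376)))) (a (l 2) (b (l 16963712) (l 2)))) (b (a (b (a (l 3) (b (l 3) (b (l 3) (l 410875327095)))) (b (b (b (l 17175888) (l 17156440)) (l 17101608)) (l 17091296))) (b (b (a (l 3) (l 371146818487)) (b (b (l 17374592) (a (l 17275832) (l 17366328))) (b (l 17510104) (l 17312544)))) (b (b (b (l 17264376) (a (l 17204304) (l 17381000))) (l 17302320)) (l 17442472)))) (a (l 17218592) (b (l 17381128) (l 17521504))))), by decide +kernel⟩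

theorem c_pp_012 : CertN 0 536870912 1073741824 536870912 134217728 67108864 3 false true true .pnp 0 1 2
    ndN3q0 ndN3q2 pcN1 Cut.none Ext.none :=
  certN2 (fam := false) (s1 := true) (s2 := true) (a := 0) (b := 1) (c := 2) (cn := .pnp) (n1 := ndN3q0) (n2 := ndN3q2) (pc := pcN1) (cut := Cut.none) (xt := Ext.none) (P1 := 0) (W1 := 536870912) (P2 := 1073741824) (W2 := 536870912) (P3 := 134217728) (W3 := 67108864) (N0 := 3)
    rfl (fun _ => rfl) k0_pp_012

noncomputable def f_pp_022 : ℕ → ℕ → ℕ → ℕ → Bool := onCell 1073741824 536870912 1073741824 536870912 134217728 67108864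
    (rowN 3 2 false true true .pp 0 2 2 (qsf 0 536870912 1073741824 536870912 2) ndN3q0 ndN3q2 pcN2 Cut.none Ext.none)

def k0_pp_022 : ∃ t, chk3 f_pp_022 t 2 1 1 = true :=
  ⟨(b (a (b (a (b (a (b (a (l 3) (l 258403707719)) (b (l 17354640) (l 17380968))) (b (a (c (l 350074547687) (l 327525817607)) (l 1)) (b (a (l 17318120) (l 344705795255)) (l 17336304)))) (b (b (a (l 17399016) (l 17354896)) (b (l 17387344) (l 17392552))) (b (l 17373992) (l 17375888)))) (b (a (a (b (l 1) (b (l 1) (l 17300888))) (l 1)) (l 1)) (b (a (b (l 17310672) (a (l 17323760) (l 17407072))) (b (l 1) (l 340411188823))) (a (b (a (l 17325992) (l 17303456)) (a (l 17330376) (l 17308056))) (b (b (l 17280448) (l 17281336)) (l 17294560)))))) (a (b (b (b (l 17372400) (l 17372584)) (l 17336360)) (l 17518224)) (b (a (b (a (b (l 17330536) (l 17334192)) (b (l 17308360) (l 17312088))) (a (l 17305464) (l 17284120))) (b (b (l 17272424) (b (l 17268856) (l 17267968))) (l 17428448))) (a (a (l 17489944) (l 17454976))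 (a (l 17415024) (l 17371752)))))) (b (a (b (l 1) (b (l 1) (a (b (l 1) (a (l 17236968) (l 1))) (l 1)))) (l 1)) (a (b (b (a (b (a (l 17240632) (l 17219904)) (a (l 17246328) (l 393561426823))) (b (l 1) (l 17412408))) (a (a (l 17221488) (l 17200240)) (l 17161640))) (a (a (l 17323240) (b (l 17172744) (l 17427192))) (b (l 17133648) (l 17366712)))) (b (b (l 1) (a (l 17113912) (l 1))) (b (l 422015171031) (l 17240136)))))) (a (a (l 17877904) (a (a (l 18005464) (b (l 18068272) (l 18120424))) (b (a (l 17861296) (l 17864696)) (l 18107480)))) (a (a (b (a (l 17863136) (l 18093016)) (l 18146432)) (b (l 17841320) (l 18141536))) (b (a (l 17820224) (l 17803488)) (l 18125776))))), by decide +kernel⟩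

def k1_pp_022 : ∃ t, chk3 f_pp_022 t 3 1 1 = true :=
  ⟨(b (a (b (l 1) (a (b (l 1) (b (l 1) (l 16977688))) (l 1))) (l 1)) (b (a (b (a (l 17553840) (l 575560833559)) (l 17873944)) (a (b (l 1) (l 650186607719)) (l 1))) (a (l 18129984) (b (l 623880404839) (l 18147976))))), by decide +kernel⟩

theorem s2_pp_022 : ∃ t, chk3 f_pp_022 t 1 1 1 = true := ex3_a k0_pp_022 k1_pp_022

theorem c_pp_022 : CertN 0 536870912 1073741824 536870912 134217728 67108864 3 false true true .pp 0 2 2
    ndN3q0 ndN3q2 pcN2 Cut.none Ext.none :=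
  certN2 (fam := false) (s1 := true) (s2 := true) (a := 0) (b := 2) (c := 2) (cn := .pp) (n1 := ndN3q0) (n2 := ndN3q2) (pc := pcN2) (cut := Cut.none) (xt := Ext.none) (P1 := 0) (W1 := 536870912) (P2 := 1073741824) (W2 := 536870912) (P3 := 134217728) (W3 := 67108864) (N0 := 3)
    rfl (fun _ => rfl) s2_pp_022

noncomputable def f_pp_023 : ℕ → ℕ → ℕ → ℕ → Bool := onCell 1073741824 536870912 0 1230186008 134217728 67108864
    (rowN 3 2 false true true .up 0 2 3 (qsf 0 536870912 0 1230186008 2) ndN3q0 ndN3q3 pcN2 Cut.none Ext.none)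

def k0_pp_023 : ∃ t, chk3 f_pp_023 t 1 1 1 = true :=
  ⟨(b (a (l 2) (l 18470952)) (b (a (a (l 2) (l 18647328)) (a (l 18475776) (l 18245072))) (a (a (a (l 18643352) (a (a (l 18616872) (l 18601416)) (l 18570128))) (a (a (b (l 18606280) (l 18459024)) (l 18507224)) (l 18446000))) (b (l 18436272) (l 18149536))))), by decide +kernel⟩

theorem c_pp_023 : CertN 0 536870912 0 1230186008 134217728 67108864 3 false true true .up 0 2 3
    ndN3q0 ndN3q3 pcN2 Cut.none Ext.none :=
  certN2 (fam := false) (s1 := true) (s2 := true) (a := 0) (b := 2) (c := 3) (cn := .up) (n1 := ndN3q0) (n2 := ndN3q3) (pc := pcN2) (cut := Cut.none) (xt := Ext.none) (P1 := 0) (W1 := 536870912) (P2 := 0) (W2 := 1230186008) (P3 := 134217728) (W3 := 67108864) (N0 := 3)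
    rfl (fun _ => rfl) k0_pp_023

noncomputable def f_pp_033 : ℕ → ℕ → ℕ → ℕ → Bool := onCell 1610612736 536870912 0 1230186008 134217728 67108864
    (rowN 3 2 false true true .pnn 0 3 3 (qsf 0 536870912 0 1230186008 3) ndN3q0 ndN3q3 pcN3 Cut.none Ext.none)

def k0_pp_033 : ∃ t, chk3 f_pp_033 t 1 1 1 = true :=
  ⟨(b (a (a (l 4) (l 4)) (l 4)) (b (a (a (l 17685104) (l 17576768)) (a (a (l 17468912) (l 17375120)) (b (a (l 4) (l 1)) (l 1)))) (a (b (a (l 17550736) (a (l 17491144) (l 17438184))) (a (l 17482704) (b (a (l 17415856) (l 1)) (l 1)))) (l 1)))), by decide +kernel⟩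

theorem c_pp_033 : CertN 0 536870912 0 1230186008 134217728 67108864 3 false true true .pnn 0 3 3
    ndN3q0 ndN3q3 pcN3 Cut.none Ext.none :=
  certN2 (fam := false) (s1 := true) (s2 := true) (a := 0) (b := 3) (c := 3) (cn := .pnn) (n1 := ndN3q0) (n2 := ndN3q3) (pc := pcN3) (cut := Cut.none) (xt := Ext.none) (P1 := 0) (W1 := 536870912) (P2 := 0) (W2 := 1230186008) (P3 := 134217728) (W3 := 67108864) (N0 := 3)
    rfl (fun _ => rfl) k0_pp_033

noncomputable def f_pp_101 : ℕ → ℕ → ℕ → ℕ → Bool := onCell 536870912 536870912 536870912 536870912 134217728 67108864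
    (rowN 3 0 false true true .npn 1 0 1 (qsf 536870912 536870912 536870912 536870912 0) ndN3q1 ndN3q1 pcN0 Cut.none Ext.none)

def k0_pp_101 : ∃ t, chk3 f_pp_101 t 1 1 1 = true :=
  ⟨(l 3), by decide +kernel⟩

theorem c_pp_101 : CertN 536870912 536870912 536870912 536870912 134217728 67108864 3 false true true .npn 1 0 1
    ndN3q1 ndN3q1 pcN0 Cut.none Ext.none :=
  certN0 (fam := false) (s1 := true) (s2 := true) (a := 1) (b := 0) (c := 1) (cn := .npn) (n1 := ndN3q1) (n2 := ndN3q1) (pc := pcN0) (cut := Cut.none) (xt := Ext.none) (P1 := 536870912) (W1 := 536870912) (P2 := 536870912) (W2 := 536870912) (P3 := 134217728) (W3 := 67108864) (N0 := 3)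
    rfl k0_pp_101

noncomputable def f_pp_102 : ℕ → ℕ → ℕ → ℕ → Bool := onCell 536870912 536870912 0 536870912 134217728 67108864
    (rowN 3 1 false true true .npp 1 0 2 (qsf 536870912 536870912 1073741824 536870912 0) ndN3q1 ndN3q2 pcN0 Cut.none Ext.none)

def k0_pp_102 : ∃ t, chk3 f_pp_102 t 1 1 1 = true :=
  ⟨(a (l 3) (b (l 3) (b (l 3) (a (l 3) (a (b (l 3) (l 393699186263)) (l 386720207031)))))), by decide +kernel⟩

theorem c_pp_102 : CertN 536870912 536870912 1073741824 536870912 134217728 67108864 3 false true true .npp 1 0 2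
    ndN3q1 ndN3q2 pcN0 Cut.none Ext.none :=
  certN1 (fam := false) (s1 := true) (s2 := true) (a := 1) (b := 0) (c := 2) (cn := .npp) (n1 := ndN3q1) (n2 := ndN3q2) (pc := pcN0) (cut := Cut.none) (xt := Ext.none) (P1 := 536870912) (W1 := 536870912) (P2 := 1073741824) (W2 := 536870912) (P3 := 134217728) (W3 := 67108864) (N0 := 3)
    rfl (fun _ => rfl) k0_pp_102

noncomputable def f_pp_112 : ℕ → ℕ → ℕ → ℕ → Bool := onCell 536870912 536870912 1073741824 536870912 134217728 67108864
    (rowN 3 0 false true true .dn 1 1 2 (qsf 536870912 536870912 1073741824 536870912 1) ndN3q1 ndN3q2 pcN1 Cut.none Ext.none)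

def k0_pp_112 : ∃ t, chk3 f_pp_112 t 1 1 1 = true :=
  ⟨(a (b (b (l 3) (a (b (l 3) (b (l 18353008) (l 18353416))) (l 3))) (b (a (b (l 18364296) (l 18332696)) (b (l 18503376) (l 18507816))) (a (l 18214496) (l 18423880)))) (b (l 3) (a (b (a (l 349138167687) (b (l 3) (l 18843376))) (a (l 18631224) (l 249817399255))) (b (a (l 3) (l 1)) (a (a (l 18943776) (l 574490477143)) (b (l 581470130423) (l 19182880))))))), by decide +kernel⟩

theorem c_pp_112 : CertN 536870912 536870912 1073741824 536870912 134217728 67108864 3 false true true .dn 1 1 2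
    ndN3q1 ndN3q2 pcN1 Cut.none Ext.none :=
  certN0 (fam := false) (s1 := true) (s2 := true) (a := 1) (b := 1) (c := 2) (cn := .dn) (n1 := ndN3q1) (n2 := ndN3q2) (pc := pcN1) (cut := Cut.none) (xt := Ext.none) (P1 := 536870912) (W1 := 536870912) (P2 := 1073741824) (W2 := 536870912) (P3 := 134217728) (W3 := 67108864) (N0 := 3)
    rfl k0_pp_112

noncomputable def f_pp_113 : ℕ → ℕ → ℕ → ℕ → Bool := onCell 536870912 536870912 0 1230186008 134217728 67108864
    (rowN 3 0 false true true .nn 1 1 3 (qsf 536870912 536870912 0 1230186008 1) ndN3q1 ndN3q3 pcN1 Cut.none Ext.none)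

def k0_pp_113 : ∃ t, chk3 f_pp_113 t 1 1 1 = true :=
  ⟨(b (a (l 2) (a (l 2) (a (b (l 2) (l 17031752)) (b (l 16818496) (b (l 17023712) (l 17351344)))))) (b (a (a (l 2) (l 17444776)) (a (a (l 17316896) (l 17489256)) (a (b (l 17524888) (l 17888664)) (l 17907600)))) (a (b (a (l 2) (b (l 17473272) (l 17605608))) (a (b (a (l 2) (l 17537216)) (l 17585856)) (b (l 17717096) (l 17822872)))) (b (a (a (l 17774264) (l 17964744)) (a (l 18181040) (l 18361960))) (a (a (l 18003240) (l 18198232)) (a (l 18430512) (l 18643488))))))), by decide +kernel⟩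

theorem c_pp_113 : CertN 536870912 536870912 0 1230186008 134217728 67108864 3 false true true .nn 1 1 3
    ndN3q1 ndN3q3 pcN1 Cut.none Ext.none :=
  certN0 (fam := false) (s1 := true) (s2 := true) (a := 1) (b := 1) (c := 3) (cn := .nn) (n1 := ndN3q1) (n2 := ndN3q3) (pc := pcN1) (cut := Cut.none) (xt := Ext.none) (P1 := 536870912) (W1 := 536870912) (P2 := 0) (W2 := 1230186008) (P3 := 134217728) (W3 := 67108864) (N0 := 3)
    rfl k0_pp_113

noncomputable def f_pp_123 : ℕ → ℕ → ℕ → ℕ → Bool := onCell 1073741824 536870912 0 1230186008 134217728 67108864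
    (rowN 3 2 false true true .npn 1 2 3 (qsf 536870912 536870912 0 1230186008 2) ndN3q1 ndN3q3 pcN2 Cut.none Ext.none)

def k0_pp_123 : ∃ t, chk3 f_pp_123 t 1 1 1 = true :=
  ⟨(b (b (a (b (a (a (l 16785264) (l 4)) (l 4)) (a (a (a (l 16847792) (a (l 16825712) (l 16829704))) (l 16864832)) (l 16829280))) (l 4)) (a (b (a (a (a (b (l 16916400) (l 17032576)) (l 16969096)) (l 16939488)) (a (l 16941848) (l 16942160))) (a (a (a (b (l 17057064) (l 17112040)) (l 17072656)) (l 17009760)) (a (l 17037616) (l 17050368)))) (a (l 16956312) (l 16850688)))) (b (a (a (b (a (l 17236480) (l 17139088)) (a (l 17328896) (l 17298984))) (l 17236984)) (a (l 17185160) (l 17049040))) (a (a (a (l 17553984) (a (a (l 17555456) (l 17550240)) (l 17533384))) (a (b (l 17435896) (l 17531640)) (l 17455416))) (l 1)))), by decide +kernel⟩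

theorem c_pp_123 : CertN 536870912 536870912 0 1230186008 134217728 67108864 3 false true true .npn 1 2 3
    ndN3q1 ndN3q3 pcN2 Cut.none Ext.none :=
  certN2 (fam := false) (s1 := true) (s2 := true) (a := 1) (b := 2) (c := 3) (cn := .npn) (n1 := ndN3q1) (n2 := ndN3q3) (pc := pcN2) (cut := Cut.none) (xt := Ext.none) (P1 := 536870912) (W1 := 536870912) (P2 := 0) (W2 := 1230186008) (P3 := 134217728) (W3 := 67108864) (N0 := 3)
    rfl (fun _ => rfl) k0_pp_123

noncomputable def f_pp_133 : ℕ → ℕ → ℕ → ℕ → Bool := onCell 1610612736 536870912 0 1230186008 134217728 67108864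
    (rowN 3 2 false true true .dn 1 3 3 (qsf 536870912 536870912 0 1230186008 3) ndN3q1 ndN3q3 pcN3 Cut.none Ext.none)

def k0_pp_133 : ∃ t, chk3 f_pp_133 t 1 1 1 = true :=
  ⟨(b (b (l 4) (l 1)) (l 1)), by decide +kernel⟩

theorem c_pp_133 : CertN 536870912 536870912 0 1230186008 134217728 67108864 3 false true true .dn 1 3 3
    ndN3q1 ndN3q3 pcN3 Cut.none Ext.none :=
  certN2 (fam := false) (s1 := true) (s2 := true) (a := 1) (b := 3) (c := 3) (cn := .dn) (n1 := ndN3q1) (n2 := ndN3q3) (pc := pcN3) (cut := Cut.none) (xt := Ext.none) (P1 := 536870912) (W1 := 536870912) (P2 := 0) (W2 := 1230186008) (P3 := 134217728) (W3 := 67108864) (N0 := 3)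
    rfl (fun _ => rfl) k0_pp_133

noncomputable def f_pp_202 : ℕ → ℕ → ℕ → ℕ → Bool := onCell 1073741824 536870912 1073741824 536870912 134217728 67108864
    (rowN 3 0 false true true .pp 2 0 2 (qsf 1073741824 536870912 1073741824 536870912 0) ndN3q2 ndN3q2 pcN0 Cut.none Ext.none)

def k0_pp_202 : ∃ t, chk3 f_pp_202 t 1 1 1 = true :=
  ⟨(l 3), by decide +kernel⟩

theorem c_pp_202 : CertN 1073741824 536870912 1073741824 536870912 134217728 67108864 3 false true true .pp 2 0 2
    ndN3q2 ndN3q2 pcN0 Cut.none Ext.none :=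
  certN0 (fam := false) (s1 := true) (s2 := true) (a := 2) (b := 0) (c := 2) (cn := .pp) (n1 := ndN3q2) (n2 := ndN3q2) (pc := pcN0) (cut := Cut.none) (xt := Ext.none) (P1 := 1073741824) (W1 := 536870912) (P2 := 1073741824) (W2 := 536870912) (P3 := 134217728) (W3 := 67108864) (N0 := 3)
    rfl k0_pp_202

noncomputable def f_pp_203 : ℕ → ℕ → ℕ → ℕ → Bool := onCell 0 536870912 0 1230186008 134217728 67108864
    (rowN 3 2 false true true .up 2 0 3 (qsf 1073741824 536870912 0 1230186008 0) ndN3q2 ndN3q3 pcN0 Cut.none Ext.none)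

def k0_pp_203 : ∃ t, chk3 f_pp_203 t 1 1 1 = true :=
  ⟨(b (l 3) (l 3)), by decide +kernel⟩

theorem c_pp_203 : CertN 1073741824 536870912 0 1230186008 134217728 67108864 3 false true true .up 2 0 3
    ndN3q2 ndN3q3 pcN0 Cut.none Ext.none :=
  certN2 (fam := false) (s1 := true) (s2 := true) (a := 2) (b := 0) (c := 3) (cn := .up) (n1 := ndN3q2) (n2 := ndN3q3) (pc := pcN0) (cut := Cut.none) (xt := Ext.none) (P1 := 1073741824) (W1 := 536870912) (P2 := 0) (W2 := 1230186008) (P3 := 134217728) (W3 := 67108864) (N0 := 3)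
    rfl (fun _ => rfl) k0_pp_203

noncomputable def f_pp_213 : ℕ → ℕ → ℕ → ℕ → Bool := onCell 1073741824 536870912 0 1230186008 134217728 67108864
    (rowN 3 0 false true true .pnn 2 1 3 (qsf 1073741824 536870912 0 1230186008 1) ndN3q2 ndN3q3 pcN1 Cut.none Ext.none)

def k0_pp_213 : ∃ t, chk3 f_pp_213 t 1 1 1 = true :=
  ⟨(b (a (b (a (a (l 16876176) (a (a (l 16937272) (l 16946920)) (a (l 16959296) (l 16976488)))) (a (a (a (l 16991720) (l 17053960)) (l 17019520)) (l 3))) (a (b (a (l 16944440) (l 3)) (l 3)) (l 3))) (l 3)) (b (l 3) (l 3))), by decide +kernel⟩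

theorem c_pp_213 : CertN 1073741824 536870912 0 1230186008 134217728 67108864 3 false true true .pnn 2 1 3
    ndN3q2 ndN3q3 pcN1 Cut.none Ext.none :=
  certN0 (fam := false) (s1 := true) (s2 := true) (a := 2) (b := 1) (c := 3) (cn := .pnn) (n1 := ndN3q2) (n2 := ndN3q3) (pc := pcN1) (cut := Cut.none) (xt := Ext.none) (P1 := 1073741824) (W1 := 536870912) (P2 := 0) (W2 := 1230186008) (P3 := 134217728) (W3 := 67108864) (N0 := 3)
    rfl k0_pp_213

noncomputable def f_pp_303 : ℕ → ℕ → ℕ → ℕ → Bool := onCell 0 1230186008 0 1230186008 134217728 67108864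
    (rowN 3 0 false true true .npn 3 0 3 (qsf 0 1230186008 0 1230186008 0) ndN3q3 ndN3q3 pcN0 Cut.none Ext.none)

def k0_pp_303 : ∃ t, chk3 f_pp_303 t 1 1 1 = true :=
  ⟨(a (b (l 3) (l 3)) (b (l 3) (l 3))), by decide +kernel⟩

theorem c_pp_303 : CertN 0 1230186008 0 1230186008 134217728 67108864 3 false true true .npn 3 0 3
    ndN3q3 ndN3q3 pcN0 Cut.none Ext.none :=
  certN0 (fam := false) (s1 := true) (s2 := true) (a := 3) (b := 0) (c := 3) (cn := .npn) (n1 := ndN3q3) (n2 := ndN3q3) (pc := pcN0) (cut := Cut.none) (xt := Ext.none) (P1 := 0) (W1 := 1230186008) (P2 := 0) (W2 := 1230186008) (P3 := 134217728) (W3 := 67108864) (N0 := 3)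
    rfl k0_pp_303

noncomputable def f_pp_313 : ℕ → ℕ → ℕ → ℕ → Bool := onCell 0 1230186008 0 1230186008 134217728 67108864
    (rowN 3 0 false true true .dn 3 1 3 (qsf 0 1230186008 0 1230186008 1) ndN3q3 ndN3q3 pcN1 Cut.none Ext.none)

def k0_pp_313 : ∃ t, chk3 f_pp_313 t 1 1 1 = true :=
  ⟨(a (l 1) (b (l 3) (l 1))), by decide +kernel⟩

theorem c_pp_313 : CertN 0 1230186008 0 1230186008 134217728 67108864 3 false true true .dn 3 1 3
    ndN3q3 ndN3q3 pcN1 Cut.none Ext.none :=
  certN0 (fam := false) (s1 := true) (s2 := true) (a := 3) (b := 1) (c := 3) (cn := .dn) (n1 := ndN3q3) (n2 := ndN3q3) (pc := pcN1) (cut := Cut.none) (xt := Ext.none) (P1 := 0) (W1 := 1230186008) (P2 := 0) (W2 := 1230186008) (P3 := 134217728) (W3 := 67108864) (N0 := 3)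
    rfl k0_pp_313

noncomputable def f_pm_001 : ℕ → ℕ → ℕ → ℕ → Bool := onCell 0 536870912 536870912 536870912 134217728 67108864
    (rowN 3 0 false true false .up 0 0 1 (qsf 0 536870912 536870912 536870912 0) ndN3q0 ndN3q1 pcN0 Cut.none Ext.none)

def k0_pm_001 : ∃ t, chk3 f_pm_001 t 1 1 1 = true :=
  ⟨(l 4), by decide +kernel⟩

theorem c_pm_001 : CertN 0 536870912 536870912 536870912 134217728 67108864 3 false true false .up 0 0 1
    ndN3q0 ndN3q1 pcN0 Cut.none Ext.none :=
  certN0 (fam := false) (s1 := true) (s2 := false) (a := 0) (b := 0) (c := 1) (cn := .up) (n1 := ndN3q0) (n2 := ndN3q1) (pc := pcN0) (cut := Cut.none) (xt := Ext.none) (P1 := 0) (W1 := 536870912) (P2 := 536870912) (W2 := 536870912) (P3 := 134217728) (W3 := 67108864) (N0 := 3)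
    rfl k0_pm_001

noncomputable def f_pm_011 : ℕ → ℕ → ℕ → ℕ → Bool := onCell 0 536870912 536870912 536870912 134217728 67108864
    (rowN 3 0 false true false .pnn 0 1 1 (qsf 0 536870912 536870912 536870912 1) ndN3q0 ndN3q1 pcN1 Cut.none Ext.none)

def k0_pm_011 : ∃ t, chk3 f_pm_011 t 1 1 1 = true :=
  ⟨(l 4), by decide +kernel⟩

theorem c_pm_011 : CertN 0 536870912 536870912 536870912 134217728 67108864 3 false true false .pnn 0 1 1
    ndN3q0 ndN3q1 pcN1 Cut.none Ext.none :=
  certN0 (fam := false) (s1 := true) (s2 := false) (a := 0) (b := 1) (c := 1) (cn := .pnn) (n1 := ndN3q0) (n2 := ndN3q1) (pc := pcN1) (cut := Cut.none) (xt := Ext.none) (P1 := 0) (W1 := 536870912) (P2 := 536870912) (W2 := 536870912) (P3 := 134217728) (W3 := 67108864) (N0 := 3)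
    rfl k0_pm_011

noncomputable def f_pm_012 : ℕ → ℕ → ℕ → ℕ → Bool := onCell 0 536870912 1073741824 536870912 134217728 67108864
    (rowN 3 0 false true false .pnp 0 1 2 (qsf 0 536870912 1073741824 536870912 1) ndN3q0 ndN3q2 pcN1 Cut.none Ext.none)

def k0_pm_012 : ∃ t, chk3 f_pm_012 t 1 1 1 = true :=
  ⟨(l 4), by decide +kernel⟩

theorem c_pm_012 : CertN 0 536870912 1073741824 536870912 134217728 67108864 3 false true false .pnp 0 1 2
    ndN3q0 ndN3q2 pcN1 Cut.none Ext.none :=
  certN0 (fam := false) (s1 := true) (s2 := false) (a := 0) (b := 1) (c := 2) (cn := .pnp) (n1 := ndN3q0) (n2 := ndN3q2) (pc := pcN1) (cut := Cut.none) (xt := Ext.none) (P1 := 0) (W1 := 536870912) (P2 := 1073741824) (W2 := 536870912) (P3 := 134217728) (W3 := 67108864) (N0 := 3)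
    rfl k0_pm_012

noncomputable def f_pm_022 : ℕ → ℕ → ℕ → ℕ → Bool := onCell 0 536870912 1073741824 536870912 134217728 67108864
    (rowN 3 0 false true false .pp 0 2 2 (qsf 0 536870912 1073741824 536870912 2) ndN3q0 ndN3q2 pcN2 Cut.none Ext.none)

def k0_pm_022 : ∃ t, chk3 f_pm_022 t 1 1 1 = true :=
  ⟨(l 4), by decide +kernel⟩

theorem c_pm_022 : CertN 0 536870912 1073741824 536870912 134217728 67108864 3 false true false .pp 0 2 2
    ndN3q0 ndN3q2 pcN2 Cut.none Ext.none :=
  certN0 (fam := false) (s1 := true) (s2 := false) (a := 0) (b := 2) (c := 2) (cn := .pp) (n1 := ndN3q0) (n2 := ndN3q2) (pc := pcN2) (cut := Cut.none) (xt := Ext.none) (P1 := 0) (W1 := 536870912) (P2 := 1073741824) (W2 := 536870912) (P3 := 134217728) (W3 := 67108864) (N0 := 3)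
    rfl k0_pm_022

noncomputable def f_pm_023 : ℕ → ℕ → ℕ → ℕ → Bool := onCell 0 536870912 0 1230186008 134217728 67108864
    (rowN 3 0 false true false .up 0 2 3 (qsf 0 536870912 0 1230186008 2) ndN3q0 ndN3q3 pcN2 Cut.none Ext.none)

def k0_pm_023 : ∃ t, chk3 f_pm_023 t 1 1 1 = true :=
  ⟨(b (l 4) (l 4)), by decide +kernel⟩

theorem c_pm_023 : CertN 0 536870912 0 1230186008 134217728 67108864 3 false true false .up 0 2 3
    ndN3q0 ndN3q3 pcN2 Cut.none Ext.none :=
  certN0 (fam := false) (s1 := true) (s2 := false) (a := 0) (b := 2) (c := 3) (cn := .up) (n1 := ndN3q0) (n2 := ndN3q3) (pc := pcN2) (cut := Cut.none) (xt := Ext.none) (P1 := 0) (W1 := 536870912) (P2 := 0) (W2 := 1230186008) (P3 := 134217728) (W3 := 67108864) (N0 := 3)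
    rfl k0_pm_023

noncomputable def f_pm_033 : ℕ → ℕ → ℕ → ℕ → Bool := onCell 0 536870912 0 1230186008 134217728 67108864
    (rowN 3 0 false true false .pnn 0 3 3 (qsf 0 536870912 0 1230186008 3) ndN3q0 ndN3q3 pcN3 Cut.none Ext.none)

def k0_pm_033 : ∃ t, chk3 f_pm_033 t 1 1 1 = true :=
  ⟨(b (l 4) (l 4)), by decide +kernel⟩

theorem c_pm_033 : CertN 0 536870912 0 1230186008 134217728 67108864 3 false true false .pnn 0 3 3
    ndN3q0 ndN3q3 pcN3 Cut.none Ext.none :=
  certN0 (fam := false) (s1 := true) (s2 := false) (a := 0) (b := 3) (c := 3) (cn := .pnn) (n1 := ndN3q0) (n2 := ndN3q3) (pc := pcN3) (cut := Cut.none) (xt := Ext.none) (P1 := 0) (W1 := 536870912) (P2 := 0) (W2 := 1230186008) (P3 := 134217728) (W3 := 67108864) (N0 := 3)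
    rfl k0_pm_033

noncomputable def f_pm_101 : ℕ → ℕ → ℕ → ℕ → Bool := onCell 536870912 536870912 536870912 536870912 134217728 67108864
    (rowN 3 0 false true false .npn 1 0 1 (qsf 536870912 536870912 536870912 536870912 0) ndN3q1 ndN3q1 pcN0 Cut.none Ext.none)

def k0_pm_101 : ∃ t, chk3 f_pm_101 t 1 1 1 = true :=
  ⟨(l 4), by decide +kernel⟩

theorem c_pm_101 : CertN 536870912 536870912 536870912 536870912 134217728 67108864 3 false true false .npn 1 0 1
    ndN3q1 ndN3q1 pcN0 Cut.none Ext.none :=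
  certN0 (fam := false) (s1 := true) (s2 := false) (a := 1) (b := 0) (c := 1) (cn := .npn) (n1 := ndN3q1) (n2 := ndN3q1) (pc := pcN0) (cut := Cut.none) (xt := Ext.none) (P1 := 536870912) (W1 := 536870912) (P2 := 536870912) (W2 := 536870912) (P3 := 134217728) (W3 := 67108864) (N0 := 3)
    rfl k0_pm_101

noncomputable def f_pm_102 : ℕ → ℕ → ℕ → ℕ → Bool := onCell 536870912 536870912 1073741824 536870912 134217728 67108864
    (rowN 3 0 false true false .npp 1 0 2 (qsf 536870912 536870912 1073741824 536870912 0) ndN3q1 ndN3q2 pcN0 Cut.none Ext.none)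

def k0_pm_102 : ∃ t, chk3 f_pm_102 t 1 1 1 = true :=
  ⟨(l 4), by decide +kernel⟩

theorem c_pm_102 : CertN 536870912 536870912 1073741824 536870912 134217728 67108864 3 false true false .npp 1 0 2
    ndN3q1 ndN3q2 pcN0 Cut.none Ext.none :=
  certN0 (fam := false) (s1 := true) (s2 := false) (a := 1) (b := 0) (c := 2) (cn := .npp) (n1 := ndN3q1) (n2 := ndN3q2) (pc := pcN0) (cut := Cut.none) (xt := Ext.none) (P1 := 536870912) (W1 := 536870912) (P2 := 1073741824) (W2 := 536870912) (P3 := 134217728) (W3 := 67108864) (N0 := 3)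
    rfl k0_pm_102

noncomputable def f_pm_112 : ℕ → ℕ → ℕ → ℕ → Bool := onCell 536870912 536870912 1073741824 536870912 134217728 67108864
    (rowN 3 0 false true false .dn 1 1 2 (qsf 536870912 536870912 1073741824 536870912 1) ndN3q1 ndN3q2 pcN1 Cut.none Ext.none)

def k0_pm_112 : ∃ t, chk3 f_pm_112 t 1 1 1 = true :=
  ⟨(l 4), by decide +kernel⟩

theorem c_pm_112 : CertN 536870912 536870912 1073741824 536870912 134217728 67108864 3 false true false .dn 1 1 2
    ndN3q1 ndN3q2 pcN1 Cut.none Ext.none :=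
  certN0 (fam := false) (s1 := true) (s2 := false) (a := 1) (b := 1) (c := 2) (cn := .dn) (n1 := ndN3q1) (n2 := ndN3q2) (pc := pcN1) (cut := Cut.none) (xt := Ext.none) (P1 := 536870912) (W1 := 536870912) (P2 := 1073741824) (W2 := 536870912) (P3 := 134217728) (W3 := 67108864) (N0 := 3)
    rfl k0_pm_112

noncomputable def f_pm_113 : ℕ → ℕ → ℕ → ℕ → Bool := onCell 536870912 536870912 0 1230186008 134217728 67108864
    (rowN 3 0 false true false .nn 1 1 3 (qsf 536870912 536870912 0 1230186008 1) ndN3q1 ndN3q3 pcN1 Cut.none Ext.none)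

def k0_pm_113 : ∃ t, chk3 f_pm_113 t 1 1 1 = true :=
  ⟨(b (b (a (l 2) (a (l 2) (a (l 2) (l 16840856)))) (l 4)) (l 4)), by decide +kernel⟩

theorem c_pm_113 : CertN 536870912 536870912 0 1230186008 134217728 67108864 3 false true false .nn 1 1 3
    ndN3q1 ndN3q3 pcN1 Cut.none Ext.none :=
  certN0 (fam := false) (s1 := true) (s2 := false) (a := 1) (b := 1) (c := 3) (cn := .nn) (n1 := ndN3q1) (n2 := ndN3q3) (pc := pcN1) (cut := Cut.none) (xt := Ext.none) (P1 := 536870912) (W1 := 536870912) (P2 := 0) (W2 := 1230186008) (P3 := 134217728) (W3 := 67108864) (N0 := 3)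
    rfl k0_pm_113

noncomputable def f_pm_123 : ℕ → ℕ → ℕ → ℕ → Bool := onCell 536870912 536870912 0 1230186008 134217728 67108864
    (rowN 3 0 false true false .npn 1 2 3 (qsf 536870912 536870912 0 1230186008 2) ndN3q1 ndN3q3 pcN2 Cut.none Ext.none)

def k0_pm_123 : ∃ t, chk3 f_pm_123 t 1 1 1 = true :=
  ⟨(b (b (a (l 4) (a (l 4) (a (l 4) (l 16830584)))) (l 4)) (l 4)), by decide +kernel⟩

theorem c_pm_123 : CertN 536870912 536870912 0 1230186008 134217728 67108864 3 false true false .npn 1 2 3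
    ndN3q1 ndN3q3 pcN2 Cut.none Ext.none :=
  certN0 (fam := false) (s1 := true) (s2 := false) (a := 1) (b := 2) (c := 3) (cn := .npn) (n1 := ndN3q1) (n2 := ndN3q3) (pc := pcN2) (cut := Cut.none) (xt := Ext.none) (P1 := 536870912) (W1 := 536870912) (P2 := 0) (W2 := 1230186008) (P3 := 134217728) (W3 := 67108864) (N0 := 3)
    rfl k0_pm_123

noncomputable def f_pm_133 : ℕ → ℕ → ℕ → ℕ → Bool := onCell 1610612736 536870912 0 1230186008 134217728 67108864
    (rowN 3 2 false true false .dn 1 3 3 (qsf 536870912 536870912 0 1230186008 3) ndN3q1 ndN3q3 pcN3 Cut.none Ext.none)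

def k0_pm_133 : ∃ t, chk3 f_pm_133 t 1 1 1 = true :=
  ⟨(b (l 4) (l 1)), by decide +kernel⟩

theorem c_pm_133 : CertN 536870912 536870912 0 1230186008 134217728 67108864 3 false true false .dn 1 3 3
    ndN3q1 ndN3q3 pcN3 Cut.none Ext.none :=
  certN2 (fam := false) (s1 := true) (s2 := false) (a := 1) (b := 3) (c := 3) (cn := .dn) (n1 := ndN3q1) (n2 := ndN3q3) (pc := pcN3) (cut := Cut.none) (xt := Ext.none) (P1 := 536870912) (W1 := 536870912) (P2 := 0) (W2 := 1230186008) (P3 := 134217728) (W3 := 67108864) (N0 := 3)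
    rfl (fun _ => rfl) k0_pm_133

noncomputable def f_pm_202 : ℕ → ℕ → ℕ → ℕ → Bool := onCell 1073741824 536870912 1073741824 536870912 134217728 67108864
    (rowN 3 0 false true false .pp 2 0 2 (qsf 1073741824 536870912 1073741824 536870912 0) ndN3q2 ndN3q2 pcN0 Cut.none Ext.none)

def k0_pm_202 : ∃ t, chk3 f_pm_202 t 2 1 1 = true :=
  ⟨(b (a (b (a (b (l 17885408) (b (b (l 17890784) (l 17863624)) (b (l 17837832) (l 17813000)))) (b (a (a (l 17885992) (l 1)) (l 1)) (b (a (b (a (l 17925792) (l 17918520)) (a (l 17899952) (l 17898432))) (b (l 1) (a (l 17891872) (l 1)))) (a (a (l 17858928) (b (l 17871624) (l 17843952))) (b (a (l 17871016) (l 17867592)) (l 18058848)))))) (a (b (b (b (l 17780448) (l 17748544)) (l 17659872)) (l 17752840)) (a (b (a (b (b (l 17812184) (l 17781544)) (l 17699376)) (b (b (l 17811064) (l 17780256)) (l 17699600))) (a (l 17635264) (l 17606064))) (b (b (b (l 17880408) (a (l 17780840) (l 17785440))) (l 17790928)) (a (l 17564792) (l 17535840))))))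 (b (a (b (l 1) (b (l 1) (a (a (b (l 1) (l 17840768)) (l 1)) (l 1)))) (l 1)) (b (a (b (a (b (a (l 17815848) (l 17812112)) (a (l 17786744) (l 17789056))) (b (l 1) (l 17755016))) (a (a (l 17707840) (l 17713312)) (l 17689600))) (b (l 1) (l 17637008))) (a (a (a (l 17540552) (l 17632448)) (l 17534056)) (b (l 17554848) (l 17456208)))))) (a (b (a (b (l 17685872) (l 17798384)) (a (a (l 17826024) (l 17862960)) (b (l 17743808) (l 17899024)))) (a (b (l 17896592) (l 17909488)) (a (a (l 17993040) (b (l 18048048) (l 18058992))) (b (l 18092240) (l 18071088))))) (a (c (a (b (b (l 17900072) (l 18060424)) (l 18212016)) (b (l 18017360) (l 18250312))) (a (b (b (l 17821056) (l 17838840)) (l 18016608)) (b (l 17928960) (l 18047128)))) (b (b (l 17607760) (a (l 17931608) (l 17915800))) (b (l 18126296) (l 18238688)))))), by decide +kernel⟩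

def k1_pm_202 : ∃ t, chk3 f_pm_202 t 3 1 1 = true :=
  ⟨(b (a (b (l 1) (a (b (l 1) (b (l 1) (l 17457808))) (l 1))) (l 1)) (b (a (a (b (l 17342680) (l 17986520)) (b (l 17371744) (l 17736320))) (a (b (l 1) (l 17402864)) (l 1))) (a (b (a (l 18117224) (l 18167024)) (a (l 18314184) (l 18401296))) (b (a (l 18350256) (l 17759504)) (a (l 18231576) (l 18465968)))))), by decide +kernel⟩

theorem s2_pm_202 : ∃ t, chk3 f_pm_202 t 1 1 1 = true := ex3_a k0_pm_202 k1_pm_202

theorem c_pm_202 : CertN 1073741824 536870912 1073741824 536870912 134217728 67108864 3 false true false .pp 2 0 2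
    ndN3q2 ndN3q2 pcN0 Cut.none Ext.none :=
  certN0 (fam := false) (s1 := true) (s2 := false) (a := 2) (b := 0) (c := 2) (cn := .pp) (n1 := ndN3q2) (n2 := ndN3q2) (pc := pcN0) (cut := Cut.none) (xt := Ext.none) (P1 := 1073741824) (W1 := 536870912) (P2 := 1073741824) (W2 := 536870912) (P3 := 134217728) (W3 := 67108864) (N0 := 3)
    rfl s2_pm_202

noncomputable def f_pm_203 : ℕ → ℕ → ℕ → ℕ → Bool := onCell 1073741824 536870912 0 1230186008 134217728 67108864
    (rowN 3 0 false true false .up 2 0 3 (qsf 1073741824 536870912 0 1230186008 0) ndN3q2 ndN3q3 pcN0 Cut.none Ext.none)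

def k0_pm_203 : ∃ t, chk3 f_pm_203 t 1 1 1 = true :=
  ⟨(b (a (l 2) (a (l 2) (l 3))) (b (a (b (l 2) (a (l 2) (a (l 2) (l 17743272)))) (a (b (a (l 2) (l 17522256)) (a (l 17735920) (l 17752320))) (b (a (l 3) (l 3)) (a (l 17794808) (l 17841888))))) (a (b (a (l 2) (a (a (a (l 18036016) (l 18033136)) (l 18010168)) (l 17973968))) (a (a (l 18138792) (a (a (l 18192232) (l 18196400)) (a (l 18195592) (l 18202712)))) (a (a (a (l 18206392) (l 18213400)) (l 18201880)) (b (l 18135264) (l 18256912))))) (b (a (a (l 17981064) (l 18009720)) (b (l 17993384) (l 18114904))) (a (b (l 18173216) (l 18453376)) (b (l 18249744) (a (l 18251696) (l 18297392)))))))), by decide +kernel⟩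

theorem c_pm_203 : CertN 1073741824 536870912 0 1230186008 134217728 67108864 3 false true false .up 2 0 3
    ndN3q2 ndN3q3 pcN0 Cut.none Ext.none :=
  certN0 (fam := false) (s1 := true) (s2 := false) (a := 2) (b := 0) (c := 3) (cn := .up) (n1 := ndN3q2) (n2 := ndN3q3) (pc := pcN0) (cut := Cut.none) (xt := Ext.none) (P1 := 1073741824) (W1 := 536870912) (P2 := 0) (W2 := 1230186008) (P3 := 134217728) (W3 := 67108864) (N0 := 3)
    rfl k0_pm_203

noncomputable def f_pm_213 : ℕ → ℕ → ℕ → ℕ → Bool := onCell 1073741824 536870912 0 1230186008 134217728 67108864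
    (rowN 3 0 false true false .pnn 2 1 3 (qsf 1073741824 536870912 0 1230186008 1) ndN3q2 ndN3q3 pcN1 Cut.none Ext.none)

def k0_pm_213 : ∃ t, chk3 f_pm_213 t 1 1 1 = true :=
  ⟨(b (b (a (a (a (l 16902488) (a (a (l 16958840) (l 16964552)) (a (l 16972104) (l 16983824)))) (a (a (a (l 16993208) (l 17008264)) (l 17010416)) (l 17036264))) (l 3)) (a (a (a (l 17028128) (a (a (l 17084504) (l 17090088)) (a (l 17097864) (l 17110000)))) (a (a (a (l 17120136) (l 17134904)) (l 17134248)) (b (l 17110536) (l 17199264)))) (a (a (l 17325624) (l 185389454663)) (l 3)))) (b (a (a (a (b (l 17188760) (l 17319408)) (a (a (l 17311256) (l 17314984)) (b (l 17224136) (l 17338712)))) (a (a (a (l 17335952) (l 17346872)) (l 17337776)) (b (l 17296096) (l 17375216)))) (a (b (a (l 17386256) (l 17501704)) (a (l 17453344) (l 17775928))) (b (a (l 3) (l 1)) (l 1)))) (a (b (a (a (l 17427072) (a (a (l 17459624) (l 17453344)) (l 17407232))) (a (a (l 17436016) (l 17424936)) (l 17393280))) (a (a (l 17511184)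 (a (a (l 17528384) (l 17515368)) (l 17699560))) (a (a (b (l 17460848) (l 1)) (l 1)) (l 1)))) (l 1)))), by decide +kernel⟩

theorem c_pm_213 : CertN 1073741824 536870912 0 1230186008 134217728 67108864 3 false true false .pnn 2 1 3
    ndN3q2 ndN3q3 pcN1 Cut.none Ext.none :=
  certN0 (fam := false) (s1 := true) (s2 := false) (a := 2) (b := 1) (c := 3) (cn := .pnn) (n1 := ndN3q2) (n2 := ndN3q3) (pc := pcN1) (cut := Cut.none) (xt := Ext.none) (P1 := 1073741824) (W1 := 536870912) (P2 := 0) (W2 := 1230186008) (P3 := 134217728) (W3 := 67108864) (N0 := 3)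
    rfl k0_pm_213

noncomputable def f_pm_303 : ℕ → ℕ → ℕ → ℕ → Bool := onCell 0 1230186008 0 1230186008 134217728 67108864
    (rowN 3 0 false true false .npn 3 0 3 (qsf 0 1230186008 0 1230186008 0) ndN3q3 ndN3q3 pcN0 Cut.none Ext.none)

def k0_pm_303 : ∃ t, chk3 f_pm_303 t 1 1 1 = true :=
  ⟨(a (b (l 3) (l 3)) (b (l 3) (a (b (l 3) (a (l 1) (l 3))) (b (a (l 3) (l 3)) (b (a (l 3) (l 117744833975)) (b (a (l 3) (b (l 17893016) (l 74795580759))) (a (l 1) (a (a (l 1) (l 17588392)) (l 17842776))))))))), by decide +kernel⟩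

theorem c_pm_303 : CertN 0 1230186008 0 1230186008 134217728 67108864 3 false true false .npn 3 0 3
    ndN3q3 ndN3q3 pcN0 Cut.none Ext.none :=
  certN0 (fam := false) (s1 := true) (s2 := false) (a := 3) (b := 0) (c := 3) (cn := .npn) (n1 := ndN3q3) (n2 := ndN3q3) (pc := pcN0) (cut := Cut.none) (xt := Ext.none) (P1 := 0) (W1 := 1230186008) (P2 := 0) (W2 := 1230186008) (P3 := 134217728) (W3 := 67108864) (N0 := 3)
    rfl k0_pm_303

noncomputable def f_pm_313 : ℕ → ℕ → ℕ → ℕ → Bool := onCell 0 1230186008 0 1230186008 134217728 67108864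
    (rowN 3 0 false true false .dn 3 1 3 (qsf 0 1230186008 0 1230186008 1) ndN3q3 ndN3q3 pcN1 Cut.none Ext.none)

def k0_pm_313 : ∃ t, chk3 f_pm_313 t 1 1 1 = true :=
  ⟨(a (l 1) (b (l 3) (l 1))), by decide +kernel⟩

theorem c_pm_313 : CertN 0 1230186008 0 1230186008 134217728 67108864 3 false true false .dn 3 1 3
    ndN3q3 ndN3q3 pcN1 Cut.none Ext.none :=
  certN0 (fam := false) (s1 := true) (s2 := false) (a := 3) (b := 1) (c := 3) (cn := .dn) (n1 := ndN3q3) (n2 := ndN3q3) (pc := pcN1) (cut := Cut.none) (xt := Ext.none) (P1 := 0) (W1 := 1230186008) (P2 := 0) (W2 := 1230186008) (P3 := 134217728) (W3 := 67108864) (N0 := 3)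
    rfl k0_pm_313

noncomputable def f_mm_001 : ℕ → ℕ → ℕ → ℕ → Bool := onCell 0 536870912 536870912 536870912 134217728 67108864
    (rowN 3 0 false false false .up 0 0 1 (qsf 0 536870912 536870912 536870912 0) ndN3q0 ndN3q1 pcN0 Cut.none Ext.none)

def k0_mm_001 : ∃ t, chk3 f_mm_001 t 1 1 1 = true :=
  ⟨(l 3), by decide +kernel⟩

theorem c_mm_001 : CertN 0 536870912 536870912 536870912 134217728 67108864 3 false false false .up 0 0 1
    ndN3q0 ndN3q1 pcN0 Cut.none Ext.none :=
  certN0 (fam := false) (s1 := false) (s2 := false) (a := 0) (b := 0) (c := 1) (cn := .up) (n1 := ndN3q0) (n2 := ndN3q1) (pc := pcN0) (cut := Cut.none) (xt := Ext.none) (P1 := 0) (W1 := 536870912) (P2 := 536870912) (W2 := 536870912) (P3 := 134217728) (W3 := 67108864) (N0 := 3)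
    rfl k0_mm_001

noncomputable def f_mm_011 : ℕ → ℕ → ℕ → ℕ → Bool := onCell 0 536870912 536870912 536870912 134217728 67108864
    (rowN 3 0 false false false .pnn 0 1 1 (qsf 0 536870912 536870912 536870912 1) ndN3q0 ndN3q1 pcN1 Cut.none Ext.none)

def k0_mm_011 : ∃ t, chk3 f_mm_011 t 1 1 1 = true :=
  ⟨(l 3), by decide +kernel⟩

theorem c_mm_011 : CertN 0 536870912 536870912 536870912 134217728 67108864 3 false false false .pnn 0 1 1
    ndN3q0 ndN3q1 pcN1 Cut.none Ext.none :=
  certN0 (fam := false) (s1 := false) (s2 := false) (a := 0) (b := 1) (c := 1) (cn := .pnn) (n1 := ndN3q0) (n2 := ndN3q1) (pc := pcN1) (cut := Cut.none) (xt := Ext.none) (P1 := 0) (W1 := 536870912) (P2 := 536870912) (W2 := 536870912) (P3 := 134217728) (W3 := 67108864) (N0 := 3)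
    rfl k0_mm_011

noncomputable def f_mm_012 : ℕ → ℕ → ℕ → ℕ → Bool := onCell 0 536870912 1073741824 536870912 134217728 67108864
    (rowN 3 0 false false false .pnp 0 1 2 (qsf 0 536870912 1073741824 536870912 1) ndN3q0 ndN3q2 pcN1 Cut.none Ext.none)

def k0_mm_012 : ∃ t, chk3 f_mm_012 t 1 1 1 = true :=
  ⟨(l 5), by decide +kernel⟩

theorem c_mm_012 : CertN 0 536870912 1073741824 536870912 134217728 67108864 3 false false false .pnp 0 1 2
    ndN3q0 ndN3q2 pcN1 Cut.none Ext.none :=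
  certN0 (fam := false) (s1 := false) (s2 := false) (a := 0) (b := 1) (c := 2) (cn := .pnp) (n1 := ndN3q0) (n2 := ndN3q2) (pc := pcN1) (cut := Cut.none) (xt := Ext.none) (P1 := 0) (W1 := 536870912) (P2 := 1073741824) (W2 := 536870912) (P3 := 134217728) (W3 := 67108864) (N0 := 3)
    rfl k0_mm_012

noncomputable def f_mm_022 : ℕ → ℕ → ℕ → ℕ → Bool := onCell 0 536870912 1073741824 536870912 134217728 67108864
    (rowN 3 0 false false false .pp 0 2 2 (qsf 0 536870912 1073741824 536870912 2) ndN3q0 ndN3q2 pcN2 Cut.none Ext.none)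

def k0_mm_022 : ∃ t, chk3 f_mm_022 t 1 1 1 = true :=
  ⟨(l 5), by decide +kernel⟩

theorem c_mm_022 : CertN 0 536870912 1073741824 536870912 134217728 67108864 3 false false false .pp 0 2 2
    ndN3q0 ndN3q2 pcN2 Cut.none Ext.none :=
  certN0 (fam := false) (s1 := false) (s2 := false) (a := 0) (b := 2) (c := 2) (cn := .pp) (n1 := ndN3q0) (n2 := ndN3q2) (pc := pcN2) (cut := Cut.none) (xt := Ext.none) (P1 := 0) (W1 := 536870912) (P2 := 1073741824) (W2 := 536870912) (P3 := 134217728) (W3 := 67108864) (N0 := 3)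
    rfl k0_mm_022

noncomputable def f_mm_023 : ℕ → ℕ → ℕ → ℕ → Bool := onCell 0 536870912 0 1230186008 134217728 67108864
    (rowN 3 0 false false false .up 0 2 3 (qsf 0 536870912 0 1230186008 2) ndN3q0 ndN3q3 pcN2 Cut.none Ext.none)

def k0_mm_023 : ∃ t, chk3 f_mm_023 t 1 1 1 = true :=
  ⟨(l 5), by decide +kernel⟩

theorem c_mm_023 : CertN 0 536870912 0 1230186008 134217728 67108864 3 false false false .up 0 2 3
    ndN3q0 ndN3q3 pcN2 Cut.none Ext.none :=
  certN0 (fam := false) (s1 := false) (s2 := false) (a := 0) (b := 2) (c := 3) (cn := .up) (n1 := ndN3q0) (n2 := ndN3q3) (pc := pcN2) (cut := Cut.none) (xt := Ext.none) (P1 := 0) (W1 := 536870912) (P2 := 0) (W2 := 1230186008) (P3 := 134217728) (W3 := 67108864) (N0 := 3)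
    rfl k0_mm_023

noncomputable def f_mm_033 : ℕ → ℕ → ℕ → ℕ → Bool := onCell 0 536870912 0 1230186008 134217728 67108864
    (rowN 3 0 false false false .pnn 0 3 3 (qsf 0 536870912 0 1230186008 3) ndN3q0 ndN3q3 pcN3 Cut.none Ext.none)

def k0_mm_033 : ∃ t, chk3 f_mm_033 t 1 1 1 = true :=
  ⟨(l 5), by decide +kernel⟩

theorem c_mm_033 : CertN 0 536870912 0 1230186008 134217728 67108864 3 false false false .pnn 0 3 3
    ndN3q0 ndN3q3 pcN3 Cut.none Ext.none :=
  certN0 (fam := false) (s1 := false) (s2 := false) (a := 0) (b := 3) (c := 3) (cn := .pnn) (n1 := ndN3q0) (n2 := ndN3q3) (pc := pcN3) (cut := Cut.none) (xt := Ext.none) (P1 := 0) (W1 := 536870912) (P2 := 0) (W2 := 1230186008) (P3 := 134217728) (W3 := 67108864) (N0 := 3)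
    rfl k0_mm_033

noncomputable def f_mm_101 : ℕ → ℕ → ℕ → ℕ → Bool := onCell 536870912 536870912 536870912 536870912 134217728 67108864
    (rowN 3 0 false false false .npn 1 0 1 (qsf 536870912 536870912 536870912 536870912 0) ndN3q1 ndN3q1 pcN0 Cut.none Ext.none)

def k0_mm_101 : ∃ t, chk3 f_mm_101 t 1 1 1 = true :=
  ⟨(l 3), by decide +kernel⟩

theorem c_mm_101 : CertN 536870912 536870912 536870912 536870912 134217728 67108864 3 false false false .npn 1 0 1
    ndN3q1 ndN3q1 pcN0 Cut.none Ext.none :=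
  certN0 (fam := false) (s1 := false) (s2 := false) (a := 1) (b := 0) (c := 1) (cn := .npn) (n1 := ndN3q1) (n2 := ndN3q1) (pc := pcN0) (cut := Cut.none) (xt := Ext.none) (P1 := 536870912) (W1 := 536870912) (P2 := 536870912) (W2 := 536870912) (P3 := 134217728) (W3 := 67108864) (N0 := 3)
    rfl k0_mm_101

noncomputable def f_mm_102 : ℕ → ℕ → ℕ → ℕ → Bool := onCell 536870912 536870912 1073741824 536870912 134217728 67108864
    (rowN 3 0 false false false .npp 1 0 2 (qsf 536870912 536870912 1073741824 536870912 0) ndN3q1 ndN3q2 pcN0 Cut.none Ext.none)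

def k0_mm_102 : ∃ t, chk3 f_mm_102 t 1 1 1 = true :=
  ⟨(l 5), by decide +kernel⟩

theorem c_mm_102 : CertN 536870912 536870912 1073741824 536870912 134217728 67108864 3 false false false .npp 1 0 2
    ndN3q1 ndN3q2 pcN0 Cut.none Ext.none :=
  certN0 (fam := false) (s1 := false) (s2 := false) (a := 1) (b := 0) (c := 2) (cn := .npp) (n1 := ndN3q1) (n2 := ndN3q2) (pc := pcN0) (cut := Cut.none) (xt := Ext.none) (P1 := 536870912) (W1 := 536870912) (P2 := 1073741824) (W2 := 536870912) (P3 := 134217728) (W3 := 67108864) (N0 := 3)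
    rfl k0_mm_102

noncomputable def f_mm_112 : ℕ → ℕ → ℕ → ℕ → Bool := onCell 536870912 536870912 1073741824 536870912 134217728 67108864
    (rowN 3 0 false false false .dn 1 1 2 (qsf 536870912 536870912 1073741824 536870912 1) ndN3q1 ndN3q2 pcN1 Cut.none Ext.none)

def k0_mm_112 : ∃ t, chk3 f_mm_112 t 1 1 1 = true :=
  ⟨(l 5), by decide +kernel⟩

theorem c_mm_112 : CertN 536870912 536870912 1073741824 536870912 134217728 67108864 3 false false false .dn 1 1 2
    ndN3q1 ndN3q2 pcN1 Cut.none Ext.none :=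
  certN0 (fam := false) (s1 := false) (s2 := false) (a := 1) (b := 1) (c := 2) (cn := .dn) (n1 := ndN3q1) (n2 := ndN3q2) (pc := pcN1) (cut := Cut.none) (xt := Ext.none) (P1 := 536870912) (W1 := 536870912) (P2 := 1073741824) (W2 := 536870912) (P3 := 134217728) (W3 := 67108864) (N0 := 3)
    rfl k0_mm_112

noncomputable def f_mm_113 : ℕ → ℕ → ℕ → ℕ → Bool := onCell 536870912 536870912 0 1230186008 134217728 67108864
    (rowN 3 0 false false false .nn 1 1 3 (qsf 536870912 536870912 0 1230186008 1) ndN3q1 ndN3q3 pcN1 Cut.none Ext.none)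

def k0_mm_113 : ∃ t, chk3 f_mm_113 t 1 1 1 = true :=
  ⟨(l 5), by decide +kernel⟩

theorem c_mm_113 : CertN 536870912 536870912 0 1230186008 134217728 67108864 3 false false false .nn 1 1 3
    ndN3q1 ndN3q3 pcN1 Cut.none Ext.none :=
  certN0 (fam := false) (s1 := false) (s2 := false) (a := 1) (b := 1) (c := 3) (cn := .nn) (n1 := ndN3q1) (n2 := ndN3q3) (pc := pcN1) (cut := Cut.none) (xt := Ext.none) (P1 := 536870912) (W1 := 536870912) (P2 := 0) (W2 := 1230186008) (P3 := 134217728) (W3 := 67108864) (N0 := 3)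
    rfl k0_mm_113

noncomputable def f_mm_123 : ℕ → ℕ → ℕ → ℕ → Bool := onCell 536870912 536870912 0 1230186008 134217728 67108864
    (rowN 3 0 false false false .npn 1 2 3 (qsf 536870912 536870912 0 1230186008 2) ndN3q1 ndN3q3 pcN2 Cut.none Ext.none)

def k0_mm_123 : ∃ t, chk3 f_mm_123 t 1 1 1 = true :=
  ⟨(l 5), by decide +kernel⟩

theorem c_mm_123 : CertN 536870912 536870912 0 1230186008 134217728 67108864 3 false false false .npn 1 2 3
    ndN3q1 ndN3q3 pcN2 Cut.none Ext.none :=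
  certN0 (fam := false) (s1 := false) (s2 := false) (a := 1) (b := 2) (c := 3) (cn := .npn) (n1 := ndN3q1) (n2 := ndN3q3) (pc := pcN2) (cut := Cut.none) (xt := Ext.none) (P1 := 536870912) (W1 := 536870912) (P2 := 0) (W2 := 1230186008) (P3 := 134217728) (W3 := 67108864) (N0 := 3)
    rfl k0_mm_123

noncomputable def f_mm_133 : ℕ → ℕ → ℕ → ℕ → Bool := onCell 536870912 536870912 0 1230186008 134217728 67108864
    (rowN 3 0 false false false .dn 1 3 3 (qsf 536870912 536870912 0 1230186008 3) ndN3q1 ndN3q3 pcN3 Cut.none Ext.none)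

def k0_mm_133 : ∃ t, chk3 f_mm_133 t 1 1 1 = true :=
  ⟨(l 5), by decide +kernel⟩

theorem c_mm_133 : CertN 536870912 536870912 0 1230186008 134217728 67108864 3 false false false .dn 1 3 3
    ndN3q1 ndN3q3 pcN3 Cut.none Ext.none :=
  certN0 (fam := false) (s1 := false) (s2 := false) (a := 1) (b := 3) (c := 3) (cn := .dn) (n1 := ndN3q1) (n2 := ndN3q3) (pc := pcN3) (cut := Cut.none) (xt := Ext.none) (P1 := 536870912) (W1 := 536870912) (P2 := 0) (W2 := 1230186008) (P3 := 134217728) (W3 := 67108864) (N0 := 3)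
    rfl k0_mm_133

noncomputable def f_mm_202 : ℕ → ℕ → ℕ → ℕ → Bool := onCell 1073741824 536870912 1073741824 536870912 134217728 67108864
    (rowN 3 0 false false false .pp 2 0 2 (qsf 1073741824 536870912 1073741824 536870912 0) ndN3q2 ndN3q2 pcN0 Cut.none Ext.none)

def k0_mm_202 : ∃ t, chk3 f_mm_202 t 1 1 1 = true :=
  ⟨(l 3), by decide +kernel⟩

theorem c_mm_202 : CertN 1073741824 536870912 1073741824 536870912 134217728 67108864 3 false false false .pp 2 0 2
    ndN3q2 ndN3q2 pcN0 Cut.none Ext.none :=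
  certN0 (fam := false) (s1 := false) (s2 := false) (a := 2) (b := 0) (c := 2) (cn := .pp) (n1 := ndN3q2) (n2 := ndN3q2) (pc := pcN0) (cut := Cut.none) (xt := Ext.none) (P1 := 1073741824) (W1 := 536870912) (P2 := 1073741824) (W2 := 536870912) (P3 := 134217728) (W3 := 67108864) (N0 := 3)
    rfl k0_mm_202

noncomputable def f_mm_203 : ℕ → ℕ → ℕ → ℕ → Bool := onCell 0 536870912 0 1230186008 134217728 67108864
    (rowN 3 2 false false false .up 2 0 3 (qsf 1073741824 536870912 0 1230186008 0) ndN3q2 ndN3q3 pcN0 Cut.none Ext.none)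

def k0_mm_203 : ∃ t, chk3 f_mm_203 t 1 1 1 = true :=
  ⟨(b (l 3) (l 3)), by decide +kernel⟩

theorem c_mm_203 : CertN 1073741824 536870912 0 1230186008 134217728 67108864 3 false false false .up 2 0 3
    ndN3q2 ndN3q3 pcN0 Cut.none Ext.none :=
  certN2 (fam := false) (s1 := false) (s2 := false) (a := 2) (b := 0) (c := 3) (cn := .up) (n1 := ndN3q2) (n2 := ndN3q3) (pc := pcN0) (cut := Cut.none) (xt := Ext.none) (P1 := 1073741824) (W1 := 536870912) (P2 := 0) (W2 := 1230186008) (P3 := 134217728) (W3 := 67108864) (N0 := 3)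
    rfl (fun _ => rfl) k0_mm_203

noncomputable def f_mm_213 : ℕ → ℕ → ℕ → ℕ → Bool := onCell 536870912 536870912 0 1230186008 134217728 67108864
    (rowN 3 2 false false false .pnn 2 1 3 (qsf 1073741824 536870912 0 1230186008 1) ndN3q2 ndN3q3 pcN1 Cut.none Ext.none)

def k0_mm_213 : ∃ t, chk3 f_mm_213 t 1 1 1 = true :=
  ⟨(b (l 5) (l 5)), by decide +kernel⟩

theorem c_mm_213 : CertN 1073741824 536870912 0 1230186008 134217728 67108864 3 false false false .pnn 2 1 3
    ndN3q2 ndN3q3 pcN1 Cut.none Ext.none :=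
  certN2 (fam := false) (s1 := false) (s2 := false) (a := 2) (b := 1) (c := 3) (cn := .pnn) (n1 := ndN3q2) (n2 := ndN3q3) (pc := pcN1) (cut := Cut.none) (xt := Ext.none) (P1 := 1073741824) (W1 := 536870912) (P2 := 0) (W2 := 1230186008) (P3 := 134217728) (W3 := 67108864) (N0 := 3)
    rfl (fun _ => rfl) k0_mm_213

noncomputable def f_mm_303 : ℕ → ℕ → ℕ → ℕ → Bool := onCell 0 1230186008 0 1230186008 134217728 67108864
    (rowN 3 0 false false false .npn 3 0 3 (qsf 0 1230186008 0 1230186008 0) ndN3q3 ndN3q3 pcN0 Cut.none Ext.none)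

def k0_mm_303 : ∃ t, chk3 f_mm_303 t 1 1 1 = true :=
  ⟨(a (b (l 3) (l 3)) (b (l 3) (l 3))), by decide +kernel⟩

theorem c_mm_303 : CertN 0 1230186008 0 1230186008 134217728 67108864 3 false false false .npn 3 0 3
    ndN3q3 ndN3q3 pcN0 Cut.none Ext.none :=
  certN0 (fam := false) (s1 := false) (s2 := false) (a := 3) (b := 0) (c := 3) (cn := .npn) (n1 := ndN3q3) (n2 := ndN3q3) (pc := pcN0) (cut := Cut.none) (xt := Ext.none) (P1 := 0) (W1 := 1230186008) (P2 := 0) (W2 := 1230186008) (P3 := 134217728) (W3 := 67108864) (N0 := 3)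
    rfl k0_mm_303

noncomputable def f_mm_313 : ℕ → ℕ → ℕ → ℕ → Bool := onCell 0 1230186008 0 1230186008 134217728 67108864
    (rowN 3 0 false false false .dn 3 1 3 (qsf 0 1230186008 0 1230186008 1) ndN3q3 ndN3q3 pcN1 Cut.none Ext.none)

def k0_mm_313 : ∃ t, chk3 f_mm_313 t 1 1 1 = true :=
  ⟨(a (l 1) (b (l 3) (l 1))), by decide +kernel⟩

theorem c_mm_313 : CertN 0 1230186008 0 1230186008 134217728 67108864 3 false false false .dn 3 1 3
    ndN3q3 ndN3q3 pcN1 Cut.none Ext.none :=
  certN0 (fam := false) (s1 := false) (s2 := false) (a := 3) (b := 1) (c := 3) (cn := .dn) (n1 := ndN3q3) (n2 := ndN3q3) (pc := pcN1) (cut := Cut.none) (xt := Ext.none) (P1 := 0) (W1 := 1230186008) (P2 := 0) (W2 := 1230186008) (P3 := 134217728) (W3 := 67108864) (N0 := 3)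
    rfl k0_mm_313

end Pool.Agent.Strip051.G.I1_8_3_16.Tab.C.NB33

namespace Pool.Agent.Strip051.G.I1_8_3_16.Tab.C.NB34

open Pool.Agent.Strip051.PB Pool.Agent.Strip051.PB.T
open Pool.Agent.Strip051.G.I1_8_3_16.Tab

noncomputable def f_pp_001 : ℕ → ℕ → ℕ → ℕ → Bool := onCell 0 536870912 0 536870912 134217728 67108864
    (rowN 3 1 false true true .up 0 0 1 (qsf 0 536870912 536870912 536870912 0) ndN3q0 ndN4q1 pcN0 Cut.none Ext.none)

def k0_pp_001 : ∃ t, chk3 f_pp_001 t 1 1 1 = true :=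
  ⟨(l 3), by decide +kernel⟩

theorem c_pp_001 : CertN 0 536870912 536870912 536870912 134217728 67108864 3 false true true .up 0 0 1
    ndN3q0 ndN4q1 pcN0 Cut.none Ext.none :=
  certN1 (fam := false) (s1 := true) (s2 := true) (a := 0) (b := 0) (c := 1) (cn := .up) (n1 := ndN3q0) (n2 := ndN4q1) (pc := pcN0) (cut := Cut.none) (xt := Ext.none) (P1 := 0) (W1 := 536870912) (P2 := 536870912) (W2 := 536870912) (P3 := 134217728) (W3 := 67108864) (N0 := 3)
    rfl (fun _ => rfl) k0_pp_001

noncomputable def f_pp_011 : ℕ → ℕ → ℕ → ℕ → Bool := onCell 0 536870912 536870912 536870912 134217728 67108864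
    (rowN 3 0 false true true .pnn 0 1 1 (qsf 0 536870912 536870912 536870912 1) ndN3q0 ndN4q1 pcN1 Cut.none Ext.none)

def k0_pp_011 : ∃ t, chk3 f_pp_011 t 1 1 1 = true :=
  ⟨(a (l 3) (l 3)), by decide +kernel⟩

theorem c_pp_011 : CertN 0 536870912 536870912 536870912 134217728 67108864 3 false true true .pnn 0 1 1
    ndN3q0 ndN4q1 pcN1 Cut.none Ext.none :=
  certN0 (fam := false) (s1 := true) (s2 := true) (a := 0) (b := 1) (c := 1) (cn := .pnn) (n1 := ndN3q0) (n2 := ndN4q1) (pc := pcN1) (cut := Cut.none) (xt := Ext.none) (P1 := 0) (W1 := 536870912) (P2 := 536870912) (W2 := 536870912) (P3 := 134217728) (W3 := 67108864) (N0 := 3)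
    rfl k0_pp_011

noncomputable def f_pp_012 : ℕ → ℕ → ℕ → ℕ → Bool := onCell 0 536870912 536870912 536870912 134217728 67108864
    (rowN 3 1 false true true .pnp 0 1 2 (qsf 0 536870912 1073741824 536870912 1) ndN3q0 ndN4q2 pcN1 Cut.none Ext.none)

def k0_pp_012 : ∃ t, chk3 f_pp_012 t 1 1 1 = true :=
  ⟨(b (l 3) (b (l 3) (a (l 3) (b (l 3) (l 366315258535))))), by decide +kernel⟩

theorem c_pp_012 : CertN 0 536870912 1073741824 536870912 134217728 67108864 3 false true true .pnp 0 1 2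
    ndN3q0 ndN4q2 pcN1 Cut.none Ext.none :=
  certN1 (fam := false) (s1 := true) (s2 := true) (a := 0) (b := 1) (c := 2) (cn := .pnp) (n1 := ndN3q0) (n2 := ndN4q2) (pc := pcN1) (cut := Cut.none) (xt := Ext.none) (P1 := 0) (W1 := 536870912) (P2 := 1073741824) (W2 := 536870912) (P3 := 134217728) (W3 := 67108864) (N0 := 3)
    rfl (fun _ => rfl) k0_pp_012

noncomputable def f_pp_022 : ℕ → ℕ → ℕ → ℕ → Bool := onCell 0 536870912 1073741824 536870912 134217728 67108864
    (rowN 3 1 false true true .pp 0 2 2 (qsf 0 536870912 1073741824 536870912 2) ndN3q0 ndN4q2 pcN2 Cut.none Ext.none)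

def k0_pp_022 : ∃ t, chk3 f_pp_022 t 1 1 1 = true :=
  ⟨(a (b (a (b (b (l 3) (a (l 3) (l 661594507367))) (b (b (b (a (l 17312672) (l 17376576)) (b (l 17300856) (a (b (l 17288408) (l 17284016)) (l 17456384)))) (a (l 17265992) (l 17549392))) (a (l 17371152) (l 17745504)))) (b (b (l 3) (l 17599312)) (b (b (b (l 17698984) (l 17921712)) (l 17786176)) (a (l 17868448) (l 17913288))))) (a (b (a (l 17898352) (l 18007904)) (l 18187152)) (b (l 18062728) (l 18165680)))) (b (b (b (l 141903874679) (b (b (l 17710528) (l 17751776)) (a (l 17753096) (l 17827592)))) (b (b (b (l 17858152) (l 17893960)) (l 17936520)) (a (l 17945000) (l 2)))) (b (a (l 18089440) (l 2)) (l 2)))), by decide +kernel⟩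

theorem c_pp_022 : CertN 0 536870912 1073741824 536870912 134217728 67108864 3 false true true .pp 0 2 2
    ndN3q0 ndN4q2 pcN2 Cut.none Ext.none :=
  certN1 (fam := false) (s1 := true) (s2 := true) (a := 0) (b := 2) (c := 2) (cn := .pp) (n1 := ndN3q0) (n2 := ndN4q2) (pc := pcN2) (cut := Cut.none) (xt := Ext.none) (P1 := 0) (W1 := 536870912) (P2 := 1073741824) (W2 := 536870912) (P3 := 134217728) (W3 := 67108864) (N0 := 3)
    rfl (fun _ => rfl) k0_pp_022

noncomputable def f_pp_023 : ℕ → ℕ → ℕ → ℕ → Bool := onCell 1073741824 536870912 0 1230186008 134217728 67108864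
    (rowN 3 2 false true true .up 0 2 3 (qsf 0 536870912 0 1230186008 2) ndN3q0 ndN4q3 pcN2 Cut.none Ext.none)

def k0_pp_023 : ∃ t, chk3 f_pp_023 t 1 1 1 = true :=
  ⟨(b (a (l 2) (a (l 2) (l 18131640))) (b (a (a (l 2) (a (l 2) (l 18420224))) (a (l 18353888) (l 18175416))) (a (a (a (l 18264192) (a (a (l 18274664) (l 18262728)) (a (l 18252632) (l 18245960)))) (a (a (a (l 18236008) (l 18227880)) (l 18196984)) (l 18340472))) (b (l 18084400) (l 18146464))))), by decide +kernel⟩

theorem c_pp_023 : CertN 0 536870912 0 1230186008 134217728 67108864 3 false true true .up 0 2 3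
    ndN3q0 ndN4q3 pcN2 Cut.none Ext.none :=
  certN2 (fam := false) (s1 := true) (s2 := true) (a := 0) (b := 2) (c := 3) (cn := .up) (n1 := ndN3q0) (n2 := ndN4q3) (pc := pcN2) (cut := Cut.none) (xt := Ext.none) (P1 := 0) (W1 := 536870912) (P2 := 0) (W2 := 1230186008) (P3 := 134217728) (W3 := 67108864) (N0 := 3)
    rfl (fun _ => rfl) k0_pp_023

noncomputable def f_pp_033 : ℕ → ℕ → ℕ → ℕ → Bool := onCell 1610612736 536870912 0 1230186008 134217728 67108864
    (rowN 3 2 false true true .pnn 0 3 3 (qsf 0 536870912 0 1230186008 3) ndN3q0 ndN4q3 pcN3 Cut.none Ext.none)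

def k0_pp_033 : ∃ t, chk3 f_pp_033 t 1 1 1 = true :=
  ⟨(b (a (a (l 17663760) (l 17489080)) (a (l 17430248) (a (l 4) (l 4)))) (b (a (a (b (l 17600400) (l 17443784)) (a (l 17451800) (l 17407272))) (a (a (l 17357400) (l 17462184)) (b (a (l 17292856) (l 1)) (l 1)))) (a (b (l 17667960) (a (l 17567120) (b (a (l 17482520) (l 1)) (l 1)))) (l 1)))), by decide +kernel⟩

theorem c_pp_033 : CertN 0 536870912 0 1230186008 134217728 67108864 3 false true true .pnn 0 3 3
    ndN3q0 ndN4q3 pcN3 Cut.none Ext.none :=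
  certN2 (fam := false) (s1 := true) (s2 := true) (a := 0) (b := 3) (c := 3) (cn := .pnn) (n1 := ndN3q0) (n2 := ndN4q3) (pc := pcN3) (cut := Cut.none) (xt := Ext.none) (P1 := 0) (W1 := 536870912) (P2 := 0) (W2 := 1230186008) (P3 := 134217728) (W3 := 67108864) (N0 := 3)
    rfl (fun _ => rfl) k0_pp_033

noncomputable def f_pp_101 : ℕ → ℕ → ℕ → ℕ → Bool := onCell 536870912 536870912 536870912 536870912 134217728 67108864
    (rowN 3 0 false true true .npn 1 0 1 (qsf 536870912 536870912 536870912 536870912 0) ndN3q1 ndN4q1 pcN0 Cut.none Ext.none)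

def k0_pp_101 : ∃ t, chk3 f_pp_101 t 1 1 1 = true :=
  ⟨(l 3), by decide +kernel⟩

theorem c_pp_101 : CertN 536870912 536870912 536870912 536870912 134217728 67108864 3 false true true .npn 1 0 1
    ndN3q1 ndN4q1 pcN0 Cut.none Ext.none :=
  certN0 (fam := false) (s1 := true) (s2 := true) (a := 1) (b := 0) (c := 1) (cn := .npn) (n1 := ndN3q1) (n2 := ndN4q1) (pc := pcN0) (cut := Cut.none) (xt := Ext.none) (P1 := 536870912) (W1 := 536870912) (P2 := 536870912) (W2 := 536870912) (P3 := 134217728) (W3 := 67108864) (N0 := 3)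
    rfl k0_pp_101

noncomputable def f_pp_102 : ℕ → ℕ → ℕ → ℕ → Bool := onCell 536870912 536870912 0 536870912 134217728 67108864
    (rowN 3 1 false true true .npp 1 0 2 (qsf 536870912 536870912 1073741824 536870912 0) ndN3q1 ndN4q2 pcN0 Cut.none Ext.none)

def k0_pp_102 : ∃ t, chk3 f_pp_102 t 1 1 1 = true :=
  ⟨(l 3), by decide +kernel⟩

theorem c_pp_102 : CertN 536870912 536870912 1073741824 536870912 134217728 67108864 3 false true true .npp 1 0 2
    ndN3q1 ndN4q2 pcN0 Cut.none Ext.none :=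
  certN1 (fam := false) (s1 := true) (s2 := true) (a := 1) (b := 0) (c := 2) (cn := .npp) (n1 := ndN3q1) (n2 := ndN4q2) (pc := pcN0) (cut := Cut.none) (xt := Ext.none) (P1 := 536870912) (W1 := 536870912) (P2 := 1073741824) (W2 := 536870912) (P3 := 134217728) (W3 := 67108864) (N0 := 3)
    rfl (fun _ => rfl) k0_pp_102

noncomputable def f_pp_112 : ℕ → ℕ → ℕ → ℕ → Bool := onCell 536870912 536870912 1073741824 536870912 134217728 67108864
    (rowN 3 2 false true true .dn 1 1 2 (qsf 536870912 536870912 1073741824 536870912 1) ndN3q1 ndN4q2 pcN1 Cut.none Ext.none)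

def k0_pp_112 : ∃ t, chk3 f_pp_112 t 1 1 1 = true :=
  ⟨(a (l 3) (b (l 3) (a (l 3) (l 364706914327)))), by decide +kernel⟩

theorem c_pp_112 : CertN 536870912 536870912 1073741824 536870912 134217728 67108864 3 false true true .dn 1 1 2
    ndN3q1 ndN4q2 pcN1 Cut.none Ext.none :=
  certN2 (fam := false) (s1 := true) (s2 := true) (a := 1) (b := 1) (c := 2) (cn := .dn) (n1 := ndN3q1) (n2 := ndN4q2) (pc := pcN1) (cut := Cut.none) (xt := Ext.none) (P1 := 536870912) (W1 := 536870912) (P2 := 1073741824) (W2 := 536870912) (P3 := 134217728) (W3 := 67108864) (N0 := 3)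
    rfl (fun _ => rfl) k0_pp_112

noncomputable def f_pp_113 : ℕ → ℕ → ℕ → ℕ → Bool := onCell 536870912 536870912 0 1230186008 134217728 67108864
    (rowN 3 0 false true true .nn 1 1 3 (qsf 536870912 536870912 0 1230186008 1) ndN3q1 ndN4q3 pcN1 Cut.none Ext.none)

def k0_pp_113 : ∃ t, chk3 f_pp_113 t 1 1 1 = true :=
  ⟨(b (a (l 2) (a (l 2) (a (b (l 2) (l 17225936)) (b (l 16854192) (l 17440464))))) (b (a (b (l 2) (a (l 2) (a (l 2) (l 17386440)))) (b (a (a (l 2) (l 17523872)) (a (l 17767064) (l 17955072))) (a (a (l 17580728) (l 17771816)) (a (l 17980208) (l 18156432))))) (a (b (a (l 2) (b (l 17494472) (l 17590464))) (a (b (a (l 2) (l 17501352)) (l 17553464)) (b (l 17696376) (l 17809152)))) (b (a (a (l 17774392) (l 17968272)) (a (l 18204008) (l 18575032))) (a (a (l 18007880) (l 315314404695)) (a (l 325515428807) (l 3))))))), by decide +kernel⟩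

theorem c_pp_113 : CertN 536870912 536870912 0 1230186008 134217728 67108864 3 false true true .nn 1 1 3
    ndN3q1 ndN4q3 pcN1 Cut.none Ext.none :=
  certN0 (fam := false) (s1 := true) (s2 := true) (a := 1) (b := 1) (c := 3) (cn := .nn) (n1 := ndN3q1) (n2 := ndN4q3) (pc := pcN1) (cut := Cut.none) (xt := Ext.none) (P1 := 536870912) (W1 := 536870912) (P2 := 0) (W2 := 1230186008) (P3 := 134217728) (W3 := 67108864) (N0 := 3)
    rfl k0_pp_113

noncomputable def f_pp_123 : ℕ → ℕ → ℕ → ℕ → Bool := onCell 1073741824 536870912 0 1230186008 134217728 67108864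
    (rowN 3 2 false true true .npn 1 2 3 (qsf 536870912 536870912 0 1230186008 2) ndN3q1 ndN4q3 pcN2 Cut.none Ext.none)

def k0_pp_123 : ∃ t, chk3 f_pp_123 t 1 1 1 = true :=
  ⟨(b (b (a (b (a (a (l 16798712) (l 16822440)) (l 16776024)) (a (a (b (l 16859840) (a (l 16936928) (l 16931088))) (l 16896320)) (l 16919704))) (l 17030520)) (a (b (a (a (a (b (l 16998208) (l 17123624)) (l 17044808)) (l 16998824)) (a (l 16863176) (l 16869688))) (a (a (a (b (l 17153064) (l 17208784)) (l 17155544)) (l 17050832)) (a (l 16965376) (l 16924008)))) (a (l 16895456) (l 16785008)))) (b (a (a (a (b (b (l 17262928) (l 17294128)) (l 17379464)) (a (b (l 17185680) (l 17292392)) (b (l 17134456) (l 17237544)))) (a (a (l 17141664) (l 17104072)) (l 17053136))) (b (l 16952224) (l 17003160))) (a (a (a (l 17461568) (a (a (l 17402216) (l 17504048)) (b (l 17315160) (l 17343760)))) (a (a (b (l 17271824) (l 17310376)) (l 17255072)) (l 475165640615))) (l 1)))), by decide +kernel⟩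

theorem c_pp_123 : CertN 536870912 536870912 0 1230186008 134217728 67108864 3 false true true .npn 1 2 3
    ndN3q1 ndN4q3 pcN2 Cut.none Ext.none :=
  certN2 (fam := false) (s1 := true) (s2 := true) (a := 1) (b := 2) (c := 3) (cn := .npn) (n1 := ndN3q1) (n2 := ndN4q3) (pc := pcN2) (cut := Cut.none) (xt := Ext.none) (P1 := 536870912) (W1 := 536870912) (P2 := 0) (W2 := 1230186008) (P3 := 134217728) (W3 := 67108864) (N0 := 3)
    rfl (fun _ => rfl) k0_pp_123

noncomputable def f_pp_133 : ℕ → ℕ → ℕ → ℕ → Bool := onCell 1610612736 536870912 0 1230186008 134217728 67108864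
    (rowN 3 2 false true true .dn 1 3 3 (qsf 536870912 536870912 0 1230186008 3) ndN3q1 ndN4q3 pcN3 Cut.none Ext.none)

def k0_pp_133 : ∃ t, chk3 f_pp_133 t 1 1 1 = true :=
  ⟨(b (b (l 4) (l 1)) (l 1)), by decide +kernel⟩

theorem c_pp_133 : CertN 536870912 536870912 0 1230186008 134217728 67108864 3 false true true .dn 1 3 3
    ndN3q1 ndN4q3 pcN3 Cut.none Ext.none :=
  certN2 (fam := false) (s1 := true) (s2 := true) (a := 1) (b := 3) (c := 3) (cn := .dn) (n1 := ndN3q1) (n2 := ndN4q3) (pc := pcN3) (cut := Cut.none) (xt := Ext.none) (P1 := 536870912) (W1 := 536870912) (P2 := 0) (W2 := 1230186008) (P3 := 134217728) (W3 := 67108864) (N0 := 3)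
    rfl (fun _ => rfl) k0_pp_133

noncomputable def f_pp_202 : ℕ → ℕ → ℕ → ℕ → Bool := onCell 1073741824 536870912 1073741824 536870912 134217728 67108864
    (rowN 3 0 false true true .pp 2 0 2 (qsf 1073741824 536870912 1073741824 536870912 0) ndN3q2 ndN4q2 pcN0 Cut.none Ext.none)

def k0_pp_202 : ∃ t, chk3 f_pp_202 t 1 1 1 = true :=
  ⟨(l 3), by decide +kernel⟩

theorem c_pp_202 : CertN 1073741824 536870912 1073741824 536870912 134217728 67108864 3 false true true .pp 2 0 2
    ndN3q2 ndN4q2 pcN0 Cut.none Ext.none :=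
  certN0 (fam := false) (s1 := true) (s2 := true) (a := 2) (b := 0) (c := 2) (cn := .pp) (n1 := ndN3q2) (n2 := ndN4q2) (pc := pcN0) (cut := Cut.none) (xt := Ext.none) (P1 := 1073741824) (W1 := 536870912) (P2 := 1073741824) (W2 := 536870912) (P3 := 134217728) (W3 := 67108864) (N0 := 3)
    rfl k0_pp_202

noncomputable def f_pp_203 : ℕ → ℕ → ℕ → ℕ → Bool := onCell 0 536870912 0 1230186008 134217728 67108864
    (rowN 3 2 false true true .up 2 0 3 (qsf 1073741824 536870912 0 1230186008 0) ndN3q2 ndN4q3 pcN0 Cut.none Ext.none)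

def k0_pp_203 : ∃ t, chk3 f_pp_203 t 1 1 1 = true :=
  ⟨(b (l 3) (l 3)), by decide +kernel⟩

theorem c_pp_203 : CertN 1073741824 536870912 0 1230186008 134217728 67108864 3 false true true .up 2 0 3
    ndN3q2 ndN4q3 pcN0 Cut.none Ext.none :=
  certN2 (fam := false) (s1 := true) (s2 := true) (a := 2) (b := 0) (c := 3) (cn := .up) (n1 := ndN3q2) (n2 := ndN4q3) (pc := pcN0) (cut := Cut.none) (xt := Ext.none) (P1 := 1073741824) (W1 := 536870912) (P2 := 0) (W2 := 1230186008) (P3 := 134217728) (W3 := 67108864) (N0 := 3)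
    rfl (fun _ => rfl) k0_pp_203

noncomputable def f_pp_213 : ℕ → ℕ → ℕ → ℕ → Bool := onCell 1073741824 536870912 0 1230186008 134217728 67108864
    (rowN 3 0 false true true .pnn 2 1 3 (qsf 1073741824 536870912 0 1230186008 1) ndN3q2 ndN4q3 pcN1 Cut.none Ext.none)

def k0_pp_213 : ∃ t, chk3 f_pp_213 t 1 1 1 = true :=
  ⟨(b (a (b (a (a (l 17101608) (a (a (l 16937792) (l 238002435799)) (a (l 17111824) (l 17086080)))) (a (a (a (l 265919351287) (l 264309251943)) (l 17217688)) (l 3))) (b (l 3) (l 3))) (l 3)) (l 3)), by decide +kernel⟩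

theorem c_pp_213 : CertN 1073741824 536870912 0 1230186008 134217728 67108864 3 false true true .pnn 2 1 3
    ndN3q2 ndN4q3 pcN1 Cut.none Ext.none :=
  certN0 (fam := false) (s1 := true) (s2 := true) (a := 2) (b := 1) (c := 3) (cn := .pnn) (n1 := ndN3q2) (n2 := ndN4q3) (pc := pcN1) (cut := Cut.none) (xt := Ext.none) (P1 := 1073741824) (W1 := 536870912) (P2 := 0) (W2 := 1230186008) (P3 := 134217728) (W3 := 67108864) (N0 := 3)
    rfl k0_pp_213

noncomputable def f_pp_303 : ℕ → ℕ → ℕ → ℕ → Bool := onCell 0 1230186008 0 1230186008 134217728 67108864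
    (rowN 3 0 false true true .npn 3 0 3 (qsf 0 1230186008 0 1230186008 0) ndN3q3 ndN4q3 pcN0 Cut.none Ext.none)

def k0_pp_303 : ∃ t, chk3 f_pp_303 t 1 1 1 = true :=
  ⟨(a (b (l 3) (l 5)) (b (l 3) (l 3))), by decide +kernel⟩

theorem c_pp_303 : CertN 0 1230186008 0 1230186008 134217728 67108864 3 false true true .npn 3 0 3
    ndN3q3 ndN4q3 pcN0 Cut.none Ext.none :=
  certN0 (fam := false) (s1 := true) (s2 := true) (a := 3) (b := 0) (c := 3) (cn := .npn) (n1 := ndN3q3) (n2 := ndN4q3) (pc := pcN0) (cut := Cut.none) (xt := Ext.none) (P1 := 0) (W1 := 1230186008) (P2 := 0) (W2 := 1230186008) (P3 := 134217728) (W3 := 67108864) (N0 := 3)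
    rfl k0_pp_303

noncomputable def f_pp_313 : ℕ → ℕ → ℕ → ℕ → Bool := onCell 0 1230186008 0 1230186008 134217728 67108864
    (rowN 3 0 false true true .dn 3 1 3 (qsf 0 1230186008 0 1230186008 1) ndN3q3 ndN4q3 pcN1 Cut.none Ext.none)

def k0_pp_313 : ∃ t, chk3 f_pp_313 t 1 1 1 = true :=
  ⟨(a (l 1) (b (l 3) (l 1))), by decide +kernel⟩

theorem c_pp_313 : CertN 0 1230186008 0 1230186008 134217728 67108864 3 false true true .dn 3 1 3
    ndN3q3 ndN4q3 pcN1 Cut.none Ext.none :=
  certN0 (fam := false) (s1 := true) (s2 := true) (a := 3) (b := 1) (c := 3) (cn := .dn) (n1 := ndN3q3) (n2 := ndN4q3) (pc := pcN1) (cut := Cut.none) (xt := Ext.none) (P1 := 0) (W1 := 1230186008) (P2 := 0) (W2 := 1230186008) (P3 := 134217728) (W3 := 67108864) (N0 := 3)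
    rfl k0_pp_313

noncomputable def f_pm_001 : ℕ → ℕ → ℕ → ℕ → Bool := onCell 0 536870912 536870912 536870912 134217728 67108864
    (rowN 3 0 false true false .up 0 0 1 (qsf 0 536870912 536870912 536870912 0) ndN3q0 ndN4q1 pcN0 Cut.none Ext.none)

def k0_pm_001 : ∃ t, chk3 f_pm_001 t 1 1 1 = true :=
  ⟨(l 4), by decide +kernel⟩

theorem c_pm_001 : CertN 0 536870912 536870912 536870912 134217728 67108864 3 false true false .up 0 0 1
    ndN3q0 ndN4q1 pcN0 Cut.none Ext.none :=
  certN0 (fam := false) (s1 := true) (s2 := false) (a := 0) (b := 0) (c := 1) (cn := .up) (n1 := ndN3q0) (n2 := ndN4q1) (pc := pcN0) (cut := Cut.none) (xt := Ext.none) (P1 := 0) (W1 := 536870912) (P2 := 536870912) (W2 := 536870912) (P3 := 134217728) (W3 := 67108864) (N0 := 3)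
    rfl k0_pm_001

noncomputable def f_pm_011 : ℕ → ℕ → ℕ → ℕ → Bool := onCell 0 536870912 536870912 536870912 134217728 67108864
    (rowN 3 0 false true false .pnn 0 1 1 (qsf 0 536870912 536870912 536870912 1) ndN3q0 ndN4q1 pcN1 Cut.none Ext.none)

def k0_pm_011 : ∃ t, chk3 f_pm_011 t 1 1 1 = true :=
  ⟨(l 4), by decide +kernel⟩

theorem c_pm_011 : CertN 0 536870912 536870912 536870912 134217728 67108864 3 false true false .pnn 0 1 1
    ndN3q0 ndN4q1 pcN1 Cut.none Ext.none :=
  certN0 (fam := false) (s1 := true) (s2 := false) (a := 0) (b := 1) (c := 1) (cn := .pnn) (n1 := ndN3q0) (n2 := ndN4q1) (pc := pcN1) (cut := Cut.none) (xt := Ext.none) (P1 := 0) (W1 := 536870912) (P2 := 536870912) (W2 := 536870912) (P3 := 134217728) (W3 := 67108864) (N0 := 3)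
    rfl k0_pm_011

noncomputable def f_pm_012 : ℕ → ℕ → ℕ → ℕ → Bool := onCell 0 536870912 1073741824 536870912 134217728 67108864
    (rowN 3 0 false true false .pnp 0 1 2 (qsf 0 536870912 1073741824 536870912 1) ndN3q0 ndN4q2 pcN1 Cut.none Ext.none)

def k0_pm_012 : ∃ t, chk3 f_pm_012 t 1 1 1 = true :=
  ⟨(l 4), by decide +kernel⟩

theorem c_pm_012 : CertN 0 536870912 1073741824 536870912 134217728 67108864 3 false true false .pnp 0 1 2
    ndN3q0 ndN4q2 pcN1 Cut.none Ext.none :=
  certN0 (fam := false) (s1 := true) (s2 := false) (a := 0) (b := 1) (c := 2) (cn := .pnp) (n1 := ndN3q0) (n2 := ndN4q2) (pc := pcN1) (cut := Cut.none) (xt := Ext.none) (P1 := 0) (W1 := 536870912) (P2 := 1073741824) (W2 := 536870912) (P3 := 134217728) (W3 := 67108864) (N0 := 3)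
    rfl k0_pm_012

noncomputable def f_pm_022 : ℕ → ℕ → ℕ → ℕ → Bool := onCell 0 536870912 1073741824 536870912 134217728 67108864
    (rowN 3 0 false true false .pp 0 2 2 (qsf 0 536870912 1073741824 536870912 2) ndN3q0 ndN4q2 pcN2 Cut.none Ext.none)

def k0_pm_022 : ∃ t, chk3 f_pm_022 t 1 1 1 = true :=
  ⟨(l 4), by decide +kernel⟩

theorem c_pm_022 : CertN 0 536870912 1073741824 536870912 134217728 67108864 3 false true false .pp 0 2 2
    ndN3q0 ndN4q2 pcN2 Cut.none Ext.none :=
  certN0 (fam := false) (s1 := true) (s2 := false) (a := 0) (b := 2) (c := 2) (cn := .pp) (n1 := ndN3q0) (n2 := ndN4q2) (pc := pcN2) (cut := Cut.none) (xt := Ext.none) (P1 := 0) (W1 := 536870912) (P2 := 1073741824) (W2 := 536870912) (P3 := 134217728) (W3 := 67108864) (N0 := 3)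
    rfl k0_pm_022

noncomputable def f_pm_023 : ℕ → ℕ → ℕ → ℕ → Bool := onCell 0 536870912 0 1230186008 134217728 67108864
    (rowN 3 0 false true false .up 0 2 3 (qsf 0 536870912 0 1230186008 2) ndN3q0 ndN4q3 pcN2 Cut.none Ext.none)

def k0_pm_023 : ∃ t, chk3 f_pm_023 t 1 1 1 = true :=
  ⟨(b (l 4) (l 4)), by decide +kernel⟩

theorem c_pm_023 : CertN 0 536870912 0 1230186008 134217728 67108864 3 false true false .up 0 2 3
    ndN3q0 ndN4q3 pcN2 Cut.none Ext.none :=
  certN0 (fam := false) (s1 := true) (s2 := false) (a := 0) (b := 2) (c := 3) (cn := .up) (n1 := ndN3q0) (n2 := ndN4q3) (pc := pcN2) (cut := Cut.none) (xt := Ext.none) (P1 := 0) (W1 := 536870912) (P2 := 0) (W2 := 1230186008) (P3 := 134217728) (W3 := 67108864) (N0 := 3)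
    rfl k0_pm_023

noncomputable def f_pm_033 : ℕ → ℕ → ℕ → ℕ → Bool := onCell 0 536870912 0 1230186008 134217728 67108864
    (rowN 3 0 false true false .pnn 0 3 3 (qsf 0 536870912 0 1230186008 3) ndN3q0 ndN4q3 pcN3 Cut.none Ext.none)

def k0_pm_033 : ∃ t, chk3 f_pm_033 t 1 1 1 = true :=
  ⟨(b (l 4) (l 4)), by decide +kernel⟩

theorem c_pm_033 : CertN 0 536870912 0 1230186008 134217728 67108864 3 false true false .pnn 0 3 3
    ndN3q0 ndN4q3 pcN3 Cut.none Ext.none :=
  certN0 (fam := false) (s1 := true) (s2 := false) (a := 0) (b := 3) (c := 3) (cn := .pnn) (n1 := ndN3q0) (n2 := ndN4q3) (pc := pcN3) (cut := Cut.none) (xt := Ext.none) (P1 := 0) (W1 := 536870912) (P2 := 0) (W2 := 1230186008) (P3 := 134217728) (W3 := 67108864) (N0 := 3)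
    rfl k0_pm_033

noncomputable def f_pm_101 : ℕ → ℕ → ℕ → ℕ → Bool := onCell 536870912 536870912 536870912 536870912 134217728 67108864
    (rowN 3 0 false true false .npn 1 0 1 (qsf 536870912 536870912 536870912 536870912 0) ndN3q1 ndN4q1 pcN0 Cut.none Ext.none)

def k0_pm_101 : ∃ t, chk3 f_pm_101 t 1 1 1 = true :=
  ⟨(l 4), by decide +kernel⟩

theorem c_pm_101 : CertN 536870912 536870912 536870912 536870912 134217728 67108864 3 false true false .npn 1 0 1
    ndN3q1 ndN4q1 pcN0 Cut.none Ext.none :=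
  certN0 (fam := false) (s1 := true) (s2 := false) (a := 1) (b := 0) (c := 1) (cn := .npn) (n1 := ndN3q1) (n2 := ndN4q1) (pc := pcN0) (cut := Cut.none) (xt := Ext.none) (P1 := 536870912) (W1 := 536870912) (P2 := 536870912) (W2 := 536870912) (P3 := 134217728) (W3 := 67108864) (N0 := 3)
    rfl k0_pm_101

noncomputable def f_pm_102 : ℕ → ℕ → ℕ → ℕ → Bool := onCell 536870912 536870912 1073741824 536870912 134217728 67108864
    (rowN 3 0 false true false .npp 1 0 2 (qsf 536870912 536870912 1073741824 536870912 0) ndN3q1 ndN4q2 pcN0 Cut.none Ext.none)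

def k0_pm_102 : ∃ t, chk3 f_pm_102 t 1 1 1 = true :=
  ⟨(l 4), by decide +kernel⟩

theorem c_pm_102 : CertN 536870912 536870912 1073741824 536870912 134217728 67108864 3 false true false .npp 1 0 2
    ndN3q1 ndN4q2 pcN0 Cut.none Ext.none :=
  certN0 (fam := false) (s1 := true) (s2 := false) (a := 1) (b := 0) (c := 2) (cn := .npp) (n1 := ndN3q1) (n2 := ndN4q2) (pc := pcN0) (cut := Cut.none) (xt := Ext.none) (P1 := 536870912) (W1 := 536870912) (P2 := 1073741824) (W2 := 536870912) (P3 := 134217728) (W3 := 67108864) (N0 := 3)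
    rfl k0_pm_102

noncomputable def f_pm_112 : ℕ → ℕ → ℕ → ℕ → Bool := onCell 536870912 536870912 1073741824 536870912 134217728 67108864
    (rowN 3 0 false true false .dn 1 1 2 (qsf 536870912 536870912 1073741824 536870912 1) ndN3q1 ndN4q2 pcN1 Cut.none Ext.none)

def k0_pm_112 : ∃ t, chk3 f_pm_112 t 1 1 1 = true :=
  ⟨(l 4), by decide +kernel⟩

theorem c_pm_112 : CertN 536870912 536870912 1073741824 536870912 134217728 67108864 3 false true false .dn 1 1 2
    ndN3q1 ndN4q2 pcN1 Cut.none Ext.none :=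
  certN0 (fam := false) (s1 := true) (s2 := false) (a := 1) (b := 1) (c := 2) (cn := .dn) (n1 := ndN3q1) (n2 := ndN4q2) (pc := pcN1) (cut := Cut.none) (xt := Ext.none) (P1 := 536870912) (W1 := 536870912) (P2 := 1073741824) (W2 := 536870912) (P3 := 134217728) (W3 := 67108864) (N0 := 3)
    rfl k0_pm_112

noncomputable def f_pm_113 : ℕ → ℕ → ℕ → ℕ → Bool := onCell 536870912 536870912 0 1230186008 134217728 67108864
    (rowN 3 0 false true false .nn 1 1 3 (qsf 536870912 536870912 0 1230186008 1) ndN3q1 ndN4q3 pcN1 Cut.none Ext.none)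

def k0_pm_113 : ∃ t, chk3 f_pm_113 t 1 1 1 = true :=
  ⟨(b (b (a (l 2) (a (l 2) (a (l 2) (l 16821736)))) (l 4)) (l 4)), by decide +kernel⟩

theorem c_pm_113 : CertN 536870912 536870912 0 1230186008 134217728 67108864 3 false true false .nn 1 1 3
    ndN3q1 ndN4q3 pcN1 Cut.none Ext.none :=
  certN0 (fam := false) (s1 := true) (s2 := false) (a := 1) (b := 1) (c := 3) (cn := .nn) (n1 := ndN3q1) (n2 := ndN4q3) (pc := pcN1) (cut := Cut.none) (xt := Ext.none) (P1 := 536870912) (W1 := 536870912) (P2 := 0) (W2 := 1230186008) (P3 := 134217728) (W3 := 67108864) (N0 := 3)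
    rfl k0_pm_113

noncomputable def f_pm_123 : ℕ → ℕ → ℕ → ℕ → Bool := onCell 536870912 536870912 0 1230186008 134217728 67108864
    (rowN 3 0 false true false .npn 1 2 3 (qsf 536870912 536870912 0 1230186008 2) ndN3q1 ndN4q3 pcN2 Cut.none Ext.none)

def k0_pm_123 : ∃ t, chk3 f_pm_123 t 1 1 1 = true :=
  ⟨(b (b (a (l 4) (a (l 4) (a (l 4) (l 16866880)))) (l 4)) (l 4)), by decide +kernel⟩

theorem c_pm_123 : CertN 536870912 536870912 0 1230186008 134217728 67108864 3 false true false .npn 1 2 3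
    ndN3q1 ndN4q3 pcN2 Cut.none Ext.none :=
  certN0 (fam := false) (s1 := true) (s2 := false) (a := 1) (b := 2) (c := 3) (cn := .npn) (n1 := ndN3q1) (n2 := ndN4q3) (pc := pcN2) (cut := Cut.none) (xt := Ext.none) (P1 := 536870912) (W1 := 536870912) (P2 := 0) (W2 := 1230186008) (P3 := 134217728) (W3 := 67108864) (N0 := 3)
    rfl k0_pm_123

noncomputable def f_pm_133 : ℕ → ℕ → ℕ → ℕ → Bool := onCell 1610612736 536870912 0 1230186008 134217728 67108864
    (rowN 3 2 false true false .dn 1 3 3 (qsf 536870912 536870912 0 1230186008 3) ndN3q1 ndN4q3 pcN3 Cut.none Ext.none)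

def k0_pm_133 : ∃ t, chk3 f_pm_133 t 1 1 1 = true :=
  ⟨(b (l 4) (l 1)), by decide +kernel⟩

theorem c_pm_133 : CertN 536870912 536870912 0 1230186008 134217728 67108864 3 false true false .dn 1 3 3
    ndN3q1 ndN4q3 pcN3 Cut.none Ext.none :=
  certN2 (fam := false) (s1 := true) (s2 := false) (a := 1) (b := 3) (c := 3) (cn := .dn) (n1 := ndN3q1) (n2 := ndN4q3) (pc := pcN3) (cut := Cut.none) (xt := Ext.none) (P1 := 536870912) (W1 := 536870912) (P2 := 0) (W2 := 1230186008) (P3 := 134217728) (W3 := 67108864) (N0 := 3)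
    rfl (fun _ => rfl) k0_pm_133

noncomputable def f_pm_202 : ℕ → ℕ → ℕ → ℕ → Bool := onCell 1073741824 536870912 1073741824 536870912 134217728 67108864
    (rowN 3 0 false true false .pp 2 0 2 (qsf 1073741824 536870912 1073741824 536870912 0) ndN3q2 ndN4q2 pcN0 Cut.none Ext.none)

def k0_pm_202 : ∃ t, chk3 f_pm_202 t 1 1 1 = true :=
  ⟨(a (b (a (b (l 4) (a (l 18744928) (a (a (l 18769760) (l 18771136)) (l 18742760)))) (b (a (b (l 1) (a (l 4) (l 1))) (l 1)) (a (a (a (l 18790200) (l 18758192)) (l 18517928)) (b (l 18336040) (l 18480168))))) (a (b (a (l 18335816) (a (a (l 18329064) (l 18323408)) (l 18293464))) (a (b (l 17893712) (l 17546256)) (a (a (l 17748000) (l 17771392)) (l 17869064)))) (a (b (a (l 18339976) (l 18358400)) (a (l 18080312) (l 17924776))) (b (l 18355624) (l 17945272))))) (b (a (b (l 1) (a (b (l 1) (l 18300912)) (l 1))) (l 1)) (a (b (b (l 18172616) (l 18094984)) (b (l 17982008) (l 17941408))) (b (a (b (l 1) (l 17918840)) (l 1)) (b (l 17778976) (l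 17882136)))))), by decide +kernel⟩

theorem c_pm_202 : CertN 1073741824 536870912 1073741824 536870912 134217728 67108864 3 false true false .pp 2 0 2
    ndN3q2 ndN4q2 pcN0 Cut.none Ext.none :=
  certN0 (fam := false) (s1 := true) (s2 := false) (a := 2) (b := 0) (c := 2) (cn := .pp) (n1 := ndN3q2) (n2 := ndN4q2) (pc := pcN0) (cut := Cut.none) (xt := Ext.none) (P1 := 1073741824) (W1 := 536870912) (P2 := 1073741824) (W2 := 536870912) (P3 := 134217728) (W3 := 67108864) (N0 := 3)
    rfl k0_pm_202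

noncomputable def f_pm_203 : ℕ → ℕ → ℕ → ℕ → Bool := onCell 1073741824 536870912 0 1230186008 134217728 67108864
    (rowN 3 0 false true false .up 2 0 3 (qsf 1073741824 536870912 0 1230186008 0) ndN3q2 ndN4q3 pcN0 Cut.none Ext.none)

def k0_pm_203 : ∃ t, chk3 f_pm_203 t 1 1 1 = true :=
  ⟨(b (a (l 2) (a (l 2) (b (l 3) (b (l 207938708199) (a (l 17524016) (l 17546352)))))) (b (a (b (l 2) (a (l 2) (a (l 2) (l 18049032)))) (a (b (a (l 2) (l 17774176)) (l 18245152)) (b (a (l 17764760) (l 17772848)) (l 18226072)))) (a (b (a (l 2) (a (a (l 190693313271) (l 18243472)) (l 18194976))) (a (a (l 18129712) (a (a (l 18167960) (l 18143792)) (b (l 18155144) (l 17965448)))) (a (a (l 18155864) (l 18127800)) (b (l 18082616) (l 17863632))))) (b (a (l 18196952) (b (l 18154616) (l 18033136))) (a (l 18053328) (l 18006336)))))), by decide +kernel⟩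

theorem c_pm_203 : CertN 1073741824 536870912 0 1230186008 134217728 67108864 3 false true false .up 2 0 3
    ndN3q2 ndN4q3 pcN0 Cut.none Ext.none :=
  certN0 (fam := false) (s1 := true) (s2 := false) (a := 2) (b := 0) (c := 3) (cn := .up) (n1 := ndN3q2) (n2 := ndN4q3) (pc := pcN0) (cut := Cut.none) (xt := Ext.none) (P1 := 1073741824) (W1 := 536870912) (P2 := 0) (W2 := 1230186008) (P3 := 134217728) (W3 := 67108864) (N0 := 3)
    rfl k0_pm_203

noncomputable def f_pm_213 : ℕ → ℕ → ℕ → ℕ → Bool := onCell 1073741824 536870912 0 1230186008 134217728 67108864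
    (rowN 3 0 false true false .pnn 2 1 3 (qsf 1073741824 536870912 0 1230186008 1) ndN3q2 ndN4q3 pcN1 Cut.none Ext.none)

def k0_pm_213 : ∃ t, chk3 f_pm_213 t 1 1 1 = true :=
  ⟨(b (b (a (a (a (l 16919296) (a (a (l 16973680) (l 16978464)) (a (l 16984912) (l 16995336)))) (a (a (a (l 17003168) (l 17016112)) (l 17013888)) (l 17157056))) (a (a (l 17120120) (l 17219768)) (l 3))) (a (a (a (l 17084720) (a (a (l 17100184) (l 17110744)) (l 17329664))) (a (a (a (l 17122880) (l 17130400)) (l 17117840)) (l 17321312))) (a (b (l 17197384) (l 17209992)) (b (a (l 17359960) (l 3)) (a (l 17375408) (l 17507136)))))) (b (a (b (a (a (l 17108880) (a (a (l 17180824) (l 17187384)) (l 17156712))) (a (a (l 17200648) (l 17178736)) (l 17140168))) (a (a (l 17114440) (a (a (l 17179088) (l 17183984)) (l 17153416))) (a (a (l 17196344) (l 17173608)) (l 17130696)))) (a (b (a (l 17143000) (l 17200328)) (b (l 17118216) (l 17098032))) (b (a (l 17278648) (l 1)) (l 1)))) (a (b (a (a (l 17207632) (a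 (a (l 17201760) (l 17203600)) (l 17169280))) (a (a (l 17267272) (l 17174728)) (l 17130608))) (a (a (l 17439928) (a (a (l 17395016) (l 17374720)) (l 17332088))) (a (a (l 17312912) (l 1)) (l 1)))) (l 1)))), by decide +kernel⟩

theorem c_pm_213 : CertN 1073741824 536870912 0 1230186008 134217728 67108864 3 false true false .pnn 2 1 3
    ndN3q2 ndN4q3 pcN1 Cut.none Ext.none :=
  certN0 (fam := false) (s1 := true) (s2 := false) (a := 2) (b := 1) (c := 3) (cn := .pnn) (n1 := ndN3q2) (n2 := ndN4q3) (pc := pcN1) (cut := Cut.none) (xt := Ext.none) (P1 := 1073741824) (W1 := 536870912) (P2 := 0) (W2 := 1230186008) (P3 := 134217728) (W3 := 67108864) (N0 := 3)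
    rfl k0_pm_213

noncomputable def f_pm_303 : ℕ → ℕ → ℕ → ℕ → Bool := onCell 0 1230186008 0 1230186008 134217728 67108864
    (rowN 3 0 false true false .npn 3 0 3 (qsf 0 1230186008 0 1230186008 0) ndN3q3 ndN4q3 pcN0 Cut.none Ext.none)

def k0_pm_303 : ∃ t, chk3 f_pm_303 t 1 1 1 = true :=
  ⟨(a (b (l 3) (b (l 3) (l 1))) (b (a (l 3) (a (l 3) (b (l 3) (a (l 3) (l 221896546615))))) (a (b (b (l 3) (a (l 3) (l 189148575847))) (a (l 1) (b (b (a (l 1) (l 17445384)) (l 1)) (l 1)))) (b (a (b (l 17442456) (l 135998324807)) (b (l 17446800) (l 17623616))) (a (b (b (l 17773432) (l 17439792)) (a (l 1) (b (l 17231120) (l 1)))) (b (b (l 17742600) (l 17568256)) (b (l 17517128) (l 17225344)))))))), by decide +kernel⟩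

theorem c_pm_303 : CertN 0 1230186008 0 1230186008 134217728 67108864 3 false true false .npn 3 0 3
    ndN3q3 ndN4q3 pcN0 Cut.none Ext.none :=
  certN0 (fam := false) (s1 := true) (s2 := false) (a := 3) (b := 0) (c := 3) (cn := .npn) (n1 := ndN3q3) (n2 := ndN4q3) (pc := pcN0) (cut := Cut.none) (xt := Ext.none) (P1 := 0) (W1 := 1230186008) (P2 := 0) (W2 := 1230186008) (P3 := 134217728) (W3 := 67108864) (N0 := 3)
    rfl k0_pm_303

noncomputable def f_pm_313 : ℕ → ℕ → ℕ → ℕ → Bool := onCell 0 1230186008 0 1230186008 134217728 67108864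
    (rowN 3 0 false true false .dn 3 1 3 (qsf 0 1230186008 0 1230186008 1) ndN3q3 ndN4q3 pcN1 Cut.none Ext.none)

def k0_pm_313 : ∃ t, chk3 f_pm_313 t 1 1 1 = true :=
  ⟨(a (l 1) (b (b (l 3) (l 1)) (l 1))), by decide +kernel⟩

theorem c_pm_313 : CertN 0 1230186008 0 1230186008 134217728 67108864 3 false true false .dn 3 1 3
    ndN3q3 ndN4q3 pcN1 Cut.none Ext.none :=
  certN0 (fam := false) (s1 := true) (s2 := false) (a := 3) (b := 1) (c := 3) (cn := .dn) (n1 := ndN3q3) (n2 := ndN4q3) (pc := pcN1) (cut := Cut.none) (xt := Ext.none) (P1 := 0) (W1 := 1230186008) (P2 := 0) (W2 := 1230186008) (P3 := 134217728) (W3 := 67108864) (N0 := 3)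
    rfl k0_pm_313

noncomputable def f_mm_001 : ℕ → ℕ → ℕ → ℕ → Bool := onCell 0 536870912 0 536870912 134217728 67108864
    (rowN 3 1 false false false .up 0 0 1 (qsf 0 536870912 536870912 536870912 0) ndN3q0 ndN4q1 pcN0 Cut.none Ext.none)

def k0_mm_001 : ∃ t, chk3 f_mm_001 t 1 1 1 = true :=
  ⟨(l 3), by decide +kernel⟩

theorem c_mm_001 : CertN 0 536870912 536870912 536870912 134217728 67108864 3 false false false .up 0 0 1
    ndN3q0 ndN4q1 pcN0 Cut.none Ext.none :=
  certN1 (fam := false) (s1 := false) (s2 := false) (a := 0) (b := 0) (c := 1) (cn := .up) (n1 := ndN3q0) (n2 := ndN4q1) (pc := pcN0) (cut := Cut.none) (xt := Ext.none) (P1 := 0) (W1 := 536870912) (P2 := 536870912) (W2 := 536870912) (P3 := 134217728) (W3 := 67108864) (N0 := 3)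
    rfl (fun _ => rfl) k0_mm_001

noncomputable def f_mm_011 : ℕ → ℕ → ℕ → ℕ → Bool := onCell 0 536870912 536870912 536870912 134217728 67108864
    (rowN 3 1 false false false .pnn 0 1 1 (qsf 0 536870912 536870912 536870912 1) ndN3q0 ndN4q1 pcN1 Cut.none Ext.none)

def k0_mm_011 : ∃ t, chk3 f_mm_011 t 1 1 1 = true :=
  ⟨(l 5), by decide +kernel⟩

theorem c_mm_011 : CertN 0 536870912 536870912 536870912 134217728 67108864 3 false false false .pnn 0 1 1
    ndN3q0 ndN4q1 pcN1 Cut.none Ext.none :=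
  certN1 (fam := false) (s1 := false) (s2 := false) (a := 0) (b := 1) (c := 1) (cn := .pnn) (n1 := ndN3q0) (n2 := ndN4q1) (pc := pcN1) (cut := Cut.none) (xt := Ext.none) (P1 := 0) (W1 := 536870912) (P2 := 536870912) (W2 := 536870912) (P3 := 134217728) (W3 := 67108864) (N0 := 3)
    rfl (fun _ => rfl) k0_mm_011

noncomputable def f_mm_012 : ℕ → ℕ → ℕ → ℕ → Bool := onCell 0 536870912 1073741824 536870912 134217728 67108864
    (rowN 3 0 false false false .pnp 0 1 2 (qsf 0 536870912 1073741824 536870912 1) ndN3q0 ndN4q2 pcN1 Cut.none Ext.none)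

def k0_mm_012 : ∃ t, chk3 f_mm_012 t 1 1 1 = true :=
  ⟨(l 5), by decide +kernel⟩

theorem c_mm_012 : CertN 0 536870912 1073741824 536870912 134217728 67108864 3 false false false .pnp 0 1 2
    ndN3q0 ndN4q2 pcN1 Cut.none Ext.none :=
  certN0 (fam := false) (s1 := false) (s2 := false) (a := 0) (b := 1) (c := 2) (cn := .pnp) (n1 := ndN3q0) (n2 := ndN4q2) (pc := pcN1) (cut := Cut.none) (xt := Ext.none) (P1 := 0) (W1 := 536870912) (P2 := 1073741824) (W2 := 536870912) (P3 := 134217728) (W3 := 67108864) (N0 := 3)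
    rfl k0_mm_012

noncomputable def f_mm_022 : ℕ → ℕ → ℕ → ℕ → Bool := onCell 0 536870912 1073741824 536870912 134217728 67108864
    (rowN 3 0 false false false .pp 0 2 2 (qsf 0 536870912 1073741824 536870912 2) ndN3q0 ndN4q2 pcN2 Cut.none Ext.none)

def k0_mm_022 : ∃ t, chk3 f_mm_022 t 1 1 1 = true :=
  ⟨(l 5), by decide +kernel⟩

theorem c_mm_022 : CertN 0 536870912 1073741824 536870912 134217728 67108864 3 false false false .pp 0 2 2
    ndN3q0 ndN4q2 pcN2 Cut.none Ext.none :=
  certN0 (fam := false) (s1 := false) (s2 := false) (a := 0) (b := 2) (c := 2) (cn := .pp) (n1 := ndN3q0) (n2 := ndN4q2) (pc := pcN2) (cut := Cut.none) (xt := Ext.none) (P1 := 0) (W1 := 536870912) (P2 := 1073741824) (W2 := 536870912) (P3 := 134217728) (W3 := 67108864) (N0 := 3)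
    rfl k0_mm_022

noncomputable def f_mm_023 : ℕ → ℕ → ℕ → ℕ → Bool := onCell 0 536870912 0 1230186008 134217728 67108864
    (rowN 3 0 false false false .up 0 2 3 (qsf 0 536870912 0 1230186008 2) ndN3q0 ndN4q3 pcN2 Cut.none Ext.none)

def k0_mm_023 : ∃ t, chk3 f_mm_023 t 1 1 1 = true :=
  ⟨(l 5), by decide +kernel⟩

theorem c_mm_023 : CertN 0 536870912 0 1230186008 134217728 67108864 3 false false false .up 0 2 3
    ndN3q0 ndN4q3 pcN2 Cut.none Ext.none :=
  certN0 (fam := false) (s1 := false) (s2 := false) (a := 0) (b := 2) (c := 3) (cn := .up) (n1 := ndN3q0) (n2 := ndN4q3) (pc := pcN2) (cut := Cut.none) (xt := Ext.none) (P1 := 0) (W1 := 536870912) (P2 := 0) (W2 := 1230186008) (P3 := 134217728) (W3 := 67108864) (N0 := 3)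
    rfl k0_mm_023

noncomputable def f_mm_033 : ℕ → ℕ → ℕ → ℕ → Bool := onCell 0 536870912 0 1230186008 134217728 67108864
    (rowN 3 0 false false false .pnn 0 3 3 (qsf 0 536870912 0 1230186008 3) ndN3q0 ndN4q3 pcN3 Cut.none Ext.none)

def k0_mm_033 : ∃ t, chk3 f_mm_033 t 1 1 1 = true :=
  ⟨(l 5), by decide +kernel⟩

theorem c_mm_033 : CertN 0 536870912 0 1230186008 134217728 67108864 3 false false false .pnn 0 3 3
    ndN3q0 ndN4q3 pcN3 Cut.none Ext.none :=
  certN0 (fam := false) (s1 := false) (s2 := false) (a := 0) (b := 3) (c := 3) (cn := .pnn) (n1 := ndN3q0) (n2 := ndN4q3) (pc := pcN3) (cut := Cut.none) (xt := Ext.none) (P1 := 0) (W1 := 536870912) (P2 := 0) (W2 := 1230186008) (P3 := 134217728) (W3 := 67108864) (N0 := 3)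
    rfl k0_mm_033

noncomputable def f_mm_101 : ℕ → ℕ → ℕ → ℕ → Bool := onCell 536870912 536870912 536870912 536870912 134217728 67108864
    (rowN 3 0 false false false .npn 1 0 1 (qsf 536870912 536870912 536870912 536870912 0) ndN3q1 ndN4q1 pcN0 Cut.none Ext.none)

def k0_mm_101 : ∃ t, chk3 f_mm_101 t 1 1 1 = true :=
  ⟨(l 3), by decide +kernel⟩

theorem c_mm_101 : CertN 536870912 536870912 536870912 536870912 134217728 67108864 3 false false false .npn 1 0 1
    ndN3q1 ndN4q1 pcN0 Cut.none Ext.none :=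
  certN0 (fam := false) (s1 := false) (s2 := false) (a := 1) (b := 0) (c := 1) (cn := .npn) (n1 := ndN3q1) (n2 := ndN4q1) (pc := pcN0) (cut := Cut.none) (xt := Ext.none) (P1 := 536870912) (W1 := 536870912) (P2 := 536870912) (W2 := 536870912) (P3 := 134217728) (W3 := 67108864) (N0 := 3)
    rfl k0_mm_101

noncomputable def f_mm_102 : ℕ → ℕ → ℕ → ℕ → Bool := onCell 536870912 536870912 1073741824 536870912 134217728 67108864
    (rowN 3 0 false false false .npp 1 0 2 (qsf 536870912 536870912 1073741824 536870912 0) ndN3q1 ndN4q2 pcN0 Cut.none Ext.none)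

def k0_mm_102 : ∃ t, chk3 f_mm_102 t 1 1 1 = true :=
  ⟨(l 5), by decide +kernel⟩

theorem c_mm_102 : CertN 536870912 536870912 1073741824 536870912 134217728 67108864 3 false false false .npp 1 0 2
    ndN3q1 ndN4q2 pcN0 Cut.none Ext.none :=
  certN0 (fam := false) (s1 := false) (s2 := false) (a := 1) (b := 0) (c := 2) (cn := .npp) (n1 := ndN3q1) (n2 := ndN4q2) (pc := pcN0) (cut := Cut.none) (xt := Ext.none) (P1 := 536870912) (W1 := 536870912) (P2 := 1073741824) (W2 := 536870912) (P3 := 134217728) (W3 := 67108864) (N0 := 3)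
    rfl k0_mm_102

noncomputable def f_mm_112 : ℕ → ℕ → ℕ → ℕ → Bool := onCell 536870912 536870912 1073741824 536870912 134217728 67108864
    (rowN 3 0 false false false .dn 1 1 2 (qsf 536870912 536870912 1073741824 536870912 1) ndN3q1 ndN4q2 pcN1 Cut.none Ext.none)

def k0_mm_112 : ∃ t, chk3 f_mm_112 t 1 1 1 = true :=
  ⟨(l 5), by decide +kernel⟩

theorem c_mm_112 : CertN 536870912 536870912 1073741824 536870912 134217728 67108864 3 false false false .dn 1 1 2
    ndN3q1 ndN4q2 pcN1 Cut.none Ext.none :=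
  certN0 (fam := false) (s1 := false) (s2 := false) (a := 1) (b := 1) (c := 2) (cn := .dn) (n1 := ndN3q1) (n2 := ndN4q2) (pc := pcN1) (cut := Cut.none) (xt := Ext.none) (P1 := 536870912) (W1 := 536870912) (P2 := 1073741824) (W2 := 536870912) (P3 := 134217728) (W3 := 67108864) (N0 := 3)
    rfl k0_mm_112

noncomputable def f_mm_113 : ℕ → ℕ → ℕ → ℕ → Bool := onCell 536870912 536870912 0 1230186008 134217728 67108864
    (rowN 3 0 false false false .nn 1 1 3 (qsf 536870912 536870912 0 1230186008 1) ndN3q1 ndN4q3 pcN1 Cut.none Ext.none)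

def k0_mm_113 : ∃ t, chk3 f_mm_113 t 1 1 1 = true :=
  ⟨(l 5), by decide +kernel⟩

theorem c_mm_113 : CertN 536870912 536870912 0 1230186008 134217728 67108864 3 false false false .nn 1 1 3
    ndN3q1 ndN4q3 pcN1 Cut.none Ext.none :=
  certN0 (fam := false) (s1 := false) (s2 := false) (a := 1) (b := 1) (c := 3) (cn := .nn) (n1 := ndN3q1) (n2 := ndN4q3) (pc := pcN1) (cut := Cut.none) (xt := Ext.none) (P1 := 536870912) (W1 := 536870912) (P2 := 0) (W2 := 1230186008) (P3 := 134217728) (W3 := 67108864) (N0 := 3)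
    rfl k0_mm_113

noncomputable def f_mm_123 : ℕ → ℕ → ℕ → ℕ → Bool := onCell 536870912 536870912 0 1230186008 134217728 67108864
    (rowN 3 0 false false false .npn 1 2 3 (qsf 536870912 536870912 0 1230186008 2) ndN3q1 ndN4q3 pcN2 Cut.none Ext.none)

def k0_mm_123 : ∃ t, chk3 f_mm_123 t 1 1 1 = true :=
  ⟨(l 5), by decide +kernel⟩

theorem c_mm_123 : CertN 536870912 536870912 0 1230186008 134217728 67108864 3 false false false .npn 1 2 3
    ndN3q1 ndN4q3 pcN2 Cut.none Ext.none :=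
  certN0 (fam := false) (s1 := false) (s2 := false) (a := 1) (b := 2) (c := 3) (cn := .npn) (n1 := ndN3q1) (n2 := ndN4q3) (pc := pcN2) (cut := Cut.none) (xt := Ext.none) (P1 := 536870912) (W1 := 536870912) (P2 := 0) (W2 := 1230186008) (P3 := 134217728) (W3 := 67108864) (N0 := 3)
    rfl k0_mm_123

noncomputable def f_mm_133 : ℕ → ℕ → ℕ → ℕ → Bool := onCell 536870912 536870912 0 1230186008 134217728 67108864
    (rowN 3 0 false false false .dn 1 3 3 (qsf 536870912 536870912 0 1230186008 3) ndN3q1 ndN4q3 pcN3 Cut.none Ext.none)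

def k0_mm_133 : ∃ t, chk3 f_mm_133 t 1 1 1 = true :=
  ⟨(l 5), by decide +kernel⟩

theorem c_mm_133 : CertN 536870912 536870912 0 1230186008 134217728 67108864 3 false false false .dn 1 3 3
    ndN3q1 ndN4q3 pcN3 Cut.none Ext.none :=
  certN0 (fam := false) (s1 := false) (s2 := false) (a := 1) (b := 3) (c := 3) (cn := .dn) (n1 := ndN3q1) (n2 := ndN4q3) (pc := pcN3) (cut := Cut.none) (xt := Ext.none) (P1 := 536870912) (W1 := 536870912) (P2 := 0) (W2 := 1230186008) (P3 := 134217728) (W3 := 67108864) (N0 := 3)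
    rfl k0_mm_133

noncomputable def f_mm_202 : ℕ → ℕ → ℕ → ℕ → Bool := onCell 1073741824 536870912 1073741824 536870912 134217728 67108864
    (rowN 3 0 false false false .pp 2 0 2 (qsf 1073741824 536870912 1073741824 536870912 0) ndN3q2 ndN4q2 pcN0 Cut.none Ext.none)

def k0_mm_202 : ∃ t, chk3 f_mm_202 t 1 1 1 = true :=
  ⟨(l 3), by decide +kernel⟩

theorem c_mm_202 : CertN 1073741824 536870912 1073741824 536870912 134217728 67108864 3 false false false .pp 2 0 2
    ndN3q2 ndN4q2 pcN0 Cut.none Ext.none :=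
  certN0 (fam := false) (s1 := false) (s2 := false) (a := 2) (b := 0) (c := 2) (cn := .pp) (n1 := ndN3q2) (n2 := ndN4q2) (pc := pcN0) (cut := Cut.none) (xt := Ext.none) (P1 := 1073741824) (W1 := 536870912) (P2 := 1073741824) (W2 := 536870912) (P3 := 134217728) (W3 := 67108864) (N0 := 3)
    rfl k0_mm_202

noncomputable def f_mm_203 : ℕ → ℕ → ℕ → ℕ → Bool := onCell 1073741824 536870912 0 1230186008 134217728 67108864
    (rowN 3 0 false false false .up 2 0 3 (qsf 1073741824 536870912 0 1230186008 0) ndN3q2 ndN4q3 pcN0 Cut.none Ext.none)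

def k0_mm_203 : ∃ t, chk3 f_mm_203 t 1 1 1 = true :=
  ⟨(b (l 5) (l 3)), by decide +kernel⟩

theorem c_mm_203 : CertN 1073741824 536870912 0 1230186008 134217728 67108864 3 false false false .up 2 0 3
    ndN3q2 ndN4q3 pcN0 Cut.none Ext.none :=
  certN0 (fam := false) (s1 := false) (s2 := false) (a := 2) (b := 0) (c := 3) (cn := .up) (n1 := ndN3q2) (n2 := ndN4q3) (pc := pcN0) (cut := Cut.none) (xt := Ext.none) (P1 := 1073741824) (W1 := 536870912) (P2 := 0) (W2 := 1230186008) (P3 := 134217728) (W3 := 67108864) (N0 := 3)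
    rfl k0_mm_203

noncomputable def f_mm_213 : ℕ → ℕ → ℕ → ℕ → Bool := onCell 1073741824 536870912 0 1230186008 134217728 67108864
    (rowN 3 0 false false false .pnn 2 1 3 (qsf 1073741824 536870912 0 1230186008 1) ndN3q2 ndN4q3 pcN1 Cut.none Ext.none)

def k0_mm_213 : ∃ t, chk3 f_mm_213 t 1 1 1 = true :=
  ⟨(b (l 5) (l 3)), by decide +kernel⟩

theorem c_mm_213 : CertN 1073741824 536870912 0 1230186008 134217728 67108864 3 false false false .pnn 2 1 3
    ndN3q2 ndN4q3 pcN1 Cut.none Ext.none :=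
  certN0 (fam := false) (s1 := false) (s2 := false) (a := 2) (b := 1) (c := 3) (cn := .pnn) (n1 := ndN3q2) (n2 := ndN4q3) (pc := pcN1) (cut := Cut.none) (xt := Ext.none) (P1 := 1073741824) (W1 := 536870912) (P2 := 0) (W2 := 1230186008) (P3 := 134217728) (W3 := 67108864) (N0 := 3)
    rfl k0_mm_213

noncomputable def f_mm_303 : ℕ → ℕ → ℕ → ℕ → Bool := onCell 0 1230186008 0 1230186008 134217728 67108864
    (rowN 3 0 false false false .npn 3 0 3 (qsf 0 1230186008 0 1230186008 0) ndN3q3 ndN4q3 pcN0 Cut.none Ext.none)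

def k0_mm_303 : ∃ t, chk3 f_mm_303 t 1 1 1 = true :=
  ⟨(a (b (l 3) (a (l 1) (l 3))) (b (l 3) (l 3))), by decide +kernel⟩

theorem c_mm_303 : CertN 0 1230186008 0 1230186008 134217728 67108864 3 false false false .npn 3 0 3
    ndN3q3 ndN4q3 pcN0 Cut.none Ext.none :=
  certN0 (fam := false) (s1 := false) (s2 := false) (a := 3) (b := 0) (c := 3) (cn := .npn) (n1 := ndN3q3) (n2 := ndN4q3) (pc := pcN0) (cut := Cut.none) (xt := Ext.none) (P1 := 0) (W1 := 1230186008) (P2 := 0) (W2 := 1230186008) (P3 := 134217728) (W3 := 67108864) (N0 := 3)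
    rfl k0_mm_303

noncomputable def f_mm_313 : ℕ → ℕ → ℕ → ℕ → Bool := onCell 0 1230186008 0 1230186008 134217728 67108864
    (rowN 3 0 false false false .dn 3 1 3 (qsf 0 1230186008 0 1230186008 1) ndN3q3 ndN4q3 pcN1 Cut.none Ext.none)

def k0_mm_313 : ∃ t, chk3 f_mm_313 t 1 1 1 = true :=
  ⟨(a (l 1) (b (l 3) (l 1))), by decide +kernel⟩

theorem c_mm_313 : CertN 0 1230186008 0 1230186008 134217728 67108864 3 false false false .dn 3 1 3
    ndN3q3 ndN4q3 pcN1 Cut.none Ext.none :=
  certN0 (fam := false) (s1 := false) (s2 := false) (a := 3) (b := 1) (c := 3) (cn := .dn) (n1 := ndN3q3) (n2 := ndN4q3) (pc := pcN1) (cut := Cut.none) (xt := Ext.none) (P1 := 0) (W1 := 1230186008) (P2 := 0) (W2 := 1230186008) (P3 := 134217728) (W3 := 67108864) (N0 := 3)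
    rfl k0_mm_313

end Pool.Agent.Strip051.G.I1_8_3_16.Tab.C.NB34

namespace Pool.Agent.Strip051.G.I1_8_3_16.Tab.C.NB35

open Pool.Agent.Strip051.PB Pool.Agent.Strip051.PB.T
open Pool.Agent.Strip051.G.I1_8_3_16.Tab

noncomputable def f_pp_001 : ℕ → ℕ → ℕ → ℕ → Bool := onCell 0 536870912 0 536870912 134217728 67108864
    (rowN 3 1 false true true .up 0 0 1 (qsf 0 536870912 536870912 536870912 0) ndN3q0 ndN5q1 pcN0 Cut.none Ext.none)

def k0_pp_001 : ∃ t, chk3 f_pp_001 t 1 1 1 = true :=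
  ⟨(l 3), by decide +kernel⟩

theorem c_pp_001 : CertN 0 536870912 536870912 536870912 134217728 67108864 3 false true true .up 0 0 1
    ndN3q0 ndN5q1 pcN0 Cut.none Ext.none :=
  certN1 (fam := false) (s1 := true) (s2 := true) (a := 0) (b := 0) (c := 1) (cn := .up) (n1 := ndN3q0) (n2 := ndN5q1) (pc := pcN0) (cut := Cut.none) (xt := Ext.none) (P1 := 0) (W1 := 536870912) (P2 := 536870912) (W2 := 536870912) (P3 := 134217728) (W3 := 67108864) (N0 := 3)
    rfl (fun _ => rfl) k0_pp_001

noncomputable def f_pp_011 : ℕ → ℕ → ℕ → ℕ → Bool := onCell 0 536870912 536870912 536870912 134217728 67108864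
    (rowN 3 0 false true true .pnn 0 1 1 (qsf 0 536870912 536870912 536870912 1) ndN3q0 ndN5q1 pcN1 Cut.none Ext.none)

def k0_pp_011 : ∃ t, chk3 f_pp_011 t 1 1 1 = true :=
  ⟨(a (l 3) (l 3)), by decide +kernel⟩

theorem c_pp_011 : CertN 0 536870912 536870912 536870912 134217728 67108864 3 false true true .pnn 0 1 1
    ndN3q0 ndN5q1 pcN1 Cut.none Ext.none :=
  certN0 (fam := false) (s1 := true) (s2 := true) (a := 0) (b := 1) (c := 1) (cn := .pnn) (n1 := ndN3q0) (n2 := ndN5q1) (pc := pcN1) (cut := Cut.none) (xt := Ext.none) (P1 := 0) (W1 := 536870912) (P2 := 536870912) (W2 := 536870912) (P3 := 134217728) (W3 := 67108864) (N0 := 3)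
    rfl k0_pp_011

noncomputable def f_pp_012 : ℕ → ℕ → ℕ → ℕ → Bool := onCell 0 536870912 536870912 536870912 134217728 67108864
    (rowN 3 1 false true true .pnp 0 1 2 (qsf 0 536870912 1073741824 536870912 1) ndN3q0 ndN5q2 pcN1 Cut.none Ext.none)

def k0_pp_012 : ∃ t, chk3 f_pp_012 t 1 1 1 = true :=
  ⟨(a (l 3) (l 3)), by decide +kernel⟩

theorem c_pp_012 : CertN 0 536870912 1073741824 536870912 134217728 67108864 3 false true true .pnp 0 1 2
    ndN3q0 ndN5q2 pcN1 Cut.none Ext.none :=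
  certN1 (fam := false) (s1 := true) (s2 := true) (a := 0) (b := 1) (c := 2) (cn := .pnp) (n1 := ndN3q0) (n2 := ndN5q2) (pc := pcN1) (cut := Cut.none) (xt := Ext.none) (P1 := 0) (W1 := 536870912) (P2 := 1073741824) (W2 := 536870912) (P3 := 134217728) (W3 := 67108864) (N0 := 3)
    rfl (fun _ => rfl) k0_pp_012

noncomputable def f_pp_022 : ℕ → ℕ → ℕ → ℕ → Bool := onCell 0 536870912 1073741824 536870912 134217728 67108864
    (rowN 3 1 false true true .pp 0 2 2 (qsf 0 536870912 1073741824 536870912 2) ndN3q0 ndN5q2 pcN2 Cut.none Ext.none)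

def k0_pp_022 : ∃ t, chk3 f_pp_022 t 1 1 1 = true :=
  ⟨(a (b (b (a (b (l 3) (a (b (l 3) (a (l 17306344) (l 17337128))) (l 3))) (l 3)) (a (b (b (b (a (l 17287744) (l 17329824)) (a (b (l 17271888) (b (l 17264120) (l 17384976))) (b (l 17309648) (l 17395256)))) (a (l 17229432) (l 17398736))) (a (l 17327592) (l 17572784))) (b (b (b (l 3) (b (l 17437416) (l 17539232))) (l 17505288)) (l 17631632)))) (a (b (a (b (l 17702904) (l 17923096)) (l 17851256)) (a (l 18070928) (l 18008112))) (b (a (l 17834736) (l 17833312)) (a (l 17965496) (l 2))))) (b (a (b (b (l 3) (l 17510576)) (b (a (l 176800281975) (l 17545544)) (l 17688736))) (b (b (l 3) (l 17486688)) (b (b (l 17638424) (l 2)) (l 2)))) (a (b (l 17868000) (l 2)) (l 2)))), by decide +kernel⟩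

theorem c_pp_022 : CertN 0 536870912 1073741824 536870912 134217728 67108864 3 false true true .pp 0 2 2
    ndN3q0 ndN5q2 pcN2 Cut.none Ext.none :=
  certN1 (fam := false) (s1 := true) (s2 := true) (a := 0) (b := 2) (c := 2) (cn := .pp) (n1 := ndN3q0) (n2 := ndN5q2) (pc := pcN2) (cut := Cut.none) (xt := Ext.none) (P1 := 0) (W1 := 536870912) (P2 := 1073741824) (W2 := 536870912) (P3 := 134217728) (W3 := 67108864) (N0 := 3)
    rfl (fun _ => rfl) k0_pp_022

noncomputable def f_pp_023 : ℕ → ℕ → ℕ → ℕ → Bool := onCell 1073741824 536870912 0 1230186008 134217728 67108864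
    (rowN 3 2 false true true .up 0 2 3 (qsf 0 536870912 0 1230186008 2) ndN3q0 ndN5q3 pcN2 Cut.none Ext.none)

def k0_pp_023 : ∃ t, chk3 f_pp_023 t 1 1 1 = true :=
  ⟨(b (a (l 2) (a (l 2) (l 18098400))) (b (a (a (l 2) (a (l 2) (l 18094496))) (a (l 18057120) (l 18025936))) (a (a (b (l 2) (a (l 17465632) (l 17561112))) (a (a (b (l 17843352) (l 17616912)) (l 17743152)) (b (l 17851912) (l 17712728)))) (b (l 17900144) (a (l 17831040) (l 17962528)))))), by decide +kernel⟩

theorem c_pp_023 : CertN 0 536870912 0 1230186008 134217728 67108864 3 false true true .up 0 2 3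
    ndN3q0 ndN5q3 pcN2 Cut.none Ext.none :=
  certN2 (fam := false) (s1 := true) (s2 := true) (a := 0) (b := 2) (c := 3) (cn := .up) (n1 := ndN3q0) (n2 := ndN5q3) (pc := pcN2) (cut := Cut.none) (xt := Ext.none) (P1 := 0) (W1 := 536870912) (P2 := 0) (W2 := 1230186008) (P3 := 134217728) (W3 := 67108864) (N0 := 3)
    rfl (fun _ => rfl) k0_pp_023

noncomputable def f_pp_033 : ℕ → ℕ → ℕ → ℕ → Bool := onCell 0 536870912 0 1230186008 134217728 67108864
    (rowN 3 0 false true true .pnn 0 3 3 (qsf 0 536870912 0 1230186008 3) ndN3q0 ndN5q3 pcN3 Cut.none Ext.none)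

def k0_pp_033 : ∃ t, chk3 f_pp_033 t 1 1 1 = true :=
  ⟨(b (b (a (l 4) (a (l 4) (l 17561144))) (a (a (b (l 4) (a (l 17374976) (l 17402784))) (b (l 17417808) (l 17462200))) (a (b (l 17503280) (l 17567056)) (b (l 17621000) (l 17464696))))) (b (a (b (a (a (l 17415784) (l 17435160)) (l 17650872)) (l 17509152)) (b (b (a (l 17371056) (l 17327544)) (l 17357344)) (l 17374640))) (a (b (l 17702520) (a (l 17988240) (l 17699384))) (l 1)))), by decide +kernel⟩

theorem c_pp_033 : CertN 0 536870912 0 1230186008 134217728 67108864 3 false true true .pnn 0 3 3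
    ndN3q0 ndN5q3 pcN3 Cut.none Ext.none :=
  certN0 (fam := false) (s1 := true) (s2 := true) (a := 0) (b := 3) (c := 3) (cn := .pnn) (n1 := ndN3q0) (n2 := ndN5q3) (pc := pcN3) (cut := Cut.none) (xt := Ext.none) (P1 := 0) (W1 := 536870912) (P2 := 0) (W2 := 1230186008) (P3 := 134217728) (W3 := 67108864) (N0 := 3)
    rfl k0_pp_033

noncomputable def f_pp_101 : ℕ → ℕ → ℕ → ℕ → Bool := onCell 536870912 536870912 536870912 536870912 134217728 67108864
    (rowN 3 0 false true true .npn 1 0 1 (qsf 536870912 536870912 536870912 536870912 0) ndN3q1 ndN5q1 pcN0 Cut.none Ext.none)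

def k0_pp_101 : ∃ t, chk3 f_pp_101 t 1 1 1 = true :=
  ⟨(l 3), by decide +kernel⟩

theorem c_pp_101 : CertN 536870912 536870912 536870912 536870912 134217728 67108864 3 false true true .npn 1 0 1
    ndN3q1 ndN5q1 pcN0 Cut.none Ext.none :=
  certN0 (fam := false) (s1 := true) (s2 := true) (a := 1) (b := 0) (c := 1) (cn := .npn) (n1 := ndN3q1) (n2 := ndN5q1) (pc := pcN0) (cut := Cut.none) (xt := Ext.none) (P1 := 536870912) (W1 := 536870912) (P2 := 536870912) (W2 := 536870912) (P3 := 134217728) (W3 := 67108864) (N0 := 3)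
    rfl k0_pp_101

noncomputable def f_pp_102 : ℕ → ℕ → ℕ → ℕ → Bool := onCell 536870912 536870912 1073741824 536870912 134217728 67108864
    (rowN 3 0 false true true .npp 1 0 2 (qsf 536870912 536870912 1073741824 536870912 0) ndN3q1 ndN5q2 pcN0 Cut.none Ext.none)

def k0_pp_102 : ∃ t, chk3 f_pp_102 t 1 1 1 = true :=
  ⟨(l 3), by decide +kernel⟩

theorem c_pp_102 : CertN 536870912 536870912 1073741824 536870912 134217728 67108864 3 false true true .npp 1 0 2
    ndN3q1 ndN5q2 pcN0 Cut.none Ext.none :=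
  certN0 (fam := false) (s1 := true) (s2 := true) (a := 1) (b := 0) (c := 2) (cn := .npp) (n1 := ndN3q1) (n2 := ndN5q2) (pc := pcN0) (cut := Cut.none) (xt := Ext.none) (P1 := 536870912) (W1 := 536870912) (P2 := 1073741824) (W2 := 536870912) (P3 := 134217728) (W3 := 67108864) (N0 := 3)
    rfl k0_pp_102

noncomputable def f_pp_112 : ℕ → ℕ → ℕ → ℕ → Bool := onCell 536870912 536870912 1073741824 536870912 134217728 67108864
    (rowN 3 0 false true true .dn 1 1 2 (qsf 536870912 536870912 1073741824 536870912 1) ndN3q1 ndN5q2 pcN1 Cut.none Ext.none)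

def k0_pp_112 : ∃ t, chk3 f_pp_112 t 1 1 1 = true :=
  ⟨(l 3), by decide +kernel⟩

theorem c_pp_112 : CertN 536870912 536870912 1073741824 536870912 134217728 67108864 3 false true true .dn 1 1 2
    ndN3q1 ndN5q2 pcN1 Cut.none Ext.none :=
  certN0 (fam := false) (s1 := true) (s2 := true) (a := 1) (b := 1) (c := 2) (cn := .dn) (n1 := ndN3q1) (n2 := ndN5q2) (pc := pcN1) (cut := Cut.none) (xt := Ext.none) (P1 := 536870912) (W1 := 536870912) (P2 := 1073741824) (W2 := 536870912) (P3 := 134217728) (W3 := 67108864) (N0 := 3)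
    rfl k0_pp_112

noncomputable def f_pp_113 : ℕ → ℕ → ℕ → ℕ → Bool := onCell 536870912 536870912 0 1230186008 134217728 67108864
    (rowN 3 0 false true true .nn 1 1 3 (qsf 536870912 536870912 0 1230186008 1) ndN3q1 ndN5q3 pcN1 Cut.none Ext.none)

def k0_pp_113 : ∃ t, chk3 f_pp_113 t 1 1 1 = true :=
  ⟨(b (a (l 2) (a (l 2) (b (a (l 2) (l 16930712)) (a (b (l 17271760) (l 17696272)) (l 17627104))))) (b (a (a (l 2) (b (l 2) (a (l 2) (l 17675784)))) (b (a (a (l 2) (l 17755544)) (a (l 17955008) (l 18113896))) (a (a (l 17835984) (l 18012608)) (a (l 222972599095) (l 18417512))))) (a (b (a (l 2) (b (l 17847608) (l 18028864))) (a (b (l 18205392) (l 18224624)) (b (l 3) (l 3)))) (b (a (a (l 18171200) (l 18477808)) (l 3)) (l 3))))), by decide +kernel⟩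

theorem c_pp_113 : CertN 536870912 536870912 0 1230186008 134217728 67108864 3 false true true .nn 1 1 3
    ndN3q1 ndN5q3 pcN1 Cut.none Ext.none :=
  certN0 (fam := false) (s1 := true) (s2 := true) (a := 1) (b := 1) (c := 3) (cn := .nn) (n1 := ndN3q1) (n2 := ndN5q3) (pc := pcN1) (cut := Cut.none) (xt := Ext.none) (P1 := 536870912) (W1 := 536870912) (P2 := 0) (W2 := 1230186008) (P3 := 134217728) (W3 := 67108864) (N0 := 3)
    rfl k0_pp_113

noncomputable def f_pp_123 : ℕ → ℕ → ℕ → ℕ → Bool := onCell 1073741824 536870912 0 1230186008 134217728 67108864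
    (rowN 3 2 false true true .npn 1 2 3 (qsf 536870912 536870912 0 1230186008 2) ndN3q1 ndN5q3 pcN2 Cut.none Ext.none)

def k0_pp_123 : ∃ t, chk3 f_pp_123 t 1 1 1 = true :=
  ⟨(b (a (b (b (a (a (l 16817560) (l 16829936)) (l 16781504)) (a (a (a (l 16983248) (b (l 16899336) (l 17011808))) (l 16953288)) (l 16989368))) (b (a (a (a (b (l 17113616) (l 17270344)) (l 17166664)) (a (l 17085064) (l 17019200))) (a (l 16941880) (l 16863832))) (a (a (a (b (l 17330368) (l 17423200)) (l 17332264)) (a (l 17257416) (l 17170936))) (a (l 17304504) (l 16996376))))) (a (b (l 16872440) (l 16846552)) (l 17021632))) (b (a (a (a (b (b (l 17507040) (l 17576264)) (l 17720400)) (a (b (a (l 17426960) (l 17395296)) (a (l 17607360) (l 17577040))) (b (l 17362872) (l 17544576)))) (a (a (b (l 17289000) (l 17474672)) (l 17334040)) (l 17349624))) (a (l 17134120) (l 16993168))) (a (a (a (b (l 17856392) (l 18055184)) (b (a (a (l 17778912) (l 17749912)) (l 17709376)) (l 17941608))) (a (a (b (l 17652568)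 (l 17859688)) (l 499862740487)) (b (l 17524896) (l 1)))) (l 1)))), by decide +kernel⟩

theorem c_pp_123 : CertN 536870912 536870912 0 1230186008 134217728 67108864 3 false true true .npn 1 2 3
    ndN3q1 ndN5q3 pcN2 Cut.none Ext.none :=
  certN2 (fam := false) (s1 := true) (s2 := true) (a := 1) (b := 2) (c := 3) (cn := .npn) (n1 := ndN3q1) (n2 := ndN5q3) (pc := pcN2) (cut := Cut.none) (xt := Ext.none) (P1 := 536870912) (W1 := 536870912) (P2 := 0) (W2 := 1230186008) (P3 := 134217728) (W3 := 67108864) (N0 := 3)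
    rfl (fun _ => rfl) k0_pp_123

noncomputable def f_pp_133 : ℕ → ℕ → ℕ → ℕ → Bool := onCell 1610612736 536870912 0 1230186008 134217728 67108864
    (rowN 3 2 false true true .dn 1 3 3 (qsf 536870912 536870912 0 1230186008 3) ndN3q1 ndN5q3 pcN3 Cut.none Ext.none)

def k0_pp_133 : ∃ t, chk3 f_pp_133 t 1 1 1 = true :=
  ⟨(b (b (b (l 4) (l 1)) (l 1)) (l 1)), by decide +kernel⟩

theorem c_pp_133 : CertN 536870912 536870912 0 1230186008 134217728 67108864 3 false true true .dn 1 3 3
    ndN3q1 ndN5q3 pcN3 Cut.none Ext.none :=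
  certN2 (fam := false) (s1 := true) (s2 := true) (a := 1) (b := 3) (c := 3) (cn := .dn) (n1 := ndN3q1) (n2 := ndN5q3) (pc := pcN3) (cut := Cut.none) (xt := Ext.none) (P1 := 536870912) (W1 := 536870912) (P2 := 0) (W2 := 1230186008) (P3 := 134217728) (W3 := 67108864) (N0 := 3)
    rfl (fun _ => rfl) k0_pp_133

noncomputable def f_pp_202 : ℕ → ℕ → ℕ → ℕ → Bool := onCell 1073741824 536870912 1073741824 536870912 134217728 67108864
    (rowN 3 0 false true true .pp 2 0 2 (qsf 1073741824 536870912 1073741824 536870912 0) ndN3q2 ndN5q2 pcN0 Cut.none Ext.none)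

def k0_pp_202 : ∃ t, chk3 f_pp_202 t 1 1 1 = true :=
  ⟨(a (l 3) (l 5)), by decide +kernel⟩

theorem c_pp_202 : CertN 1073741824 536870912 1073741824 536870912 134217728 67108864 3 false true true .pp 2 0 2
    ndN3q2 ndN5q2 pcN0 Cut.none Ext.none :=
  certN0 (fam := false) (s1 := true) (s2 := true) (a := 2) (b := 0) (c := 2) (cn := .pp) (n1 := ndN3q2) (n2 := ndN5q2) (pc := pcN0) (cut := Cut.none) (xt := Ext.none) (P1 := 1073741824) (W1 := 536870912) (P2 := 1073741824) (W2 := 536870912) (P3 := 134217728) (W3 := 67108864) (N0 := 3)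
    rfl k0_pp_202

noncomputable def f_pp_203 : ℕ → ℕ → ℕ → ℕ → Bool := onCell 0 536870912 0 1230186008 134217728 67108864
    (rowN 3 2 false true true .up 2 0 3 (qsf 1073741824 536870912 0 1230186008 0) ndN3q2 ndN5q3 pcN0 Cut.none Ext.none)

def k0_pp_203 : ∃ t, chk3 f_pp_203 t 1 1 1 = true :=
  ⟨(b (l 3) (l 3)), by decide +kernel⟩

theorem c_pp_203 : CertN 1073741824 536870912 0 1230186008 134217728 67108864 3 false true true .up 2 0 3
    ndN3q2 ndN5q3 pcN0 Cut.none Ext.none :=
  certN2 (fam := false) (s1 := true) (s2 := true) (a := 2) (b := 0) (c := 3) (cn := .up) (n1 := ndN3q2) (n2 := ndN5q3) (pc := pcN0) (cut := Cut.none) (xt := Ext.none) (P1 := 1073741824) (W1 := 536870912) (P2 := 0) (W2 := 1230186008) (P3 := 134217728) (W3 := 67108864) (N0 := 3)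
    rfl (fun _ => rfl) k0_pp_203

noncomputable def f_pp_213 : ℕ → ℕ → ℕ → ℕ → Bool := onCell 1073741824 536870912 0 1230186008 134217728 67108864
    (rowN 3 0 false true true .pnn 2 1 3 (qsf 1073741824 536870912 0 1230186008 1) ndN3q2 ndN5q3 pcN1 Cut.none Ext.none)

def k0_pp_213 : ∃ t, chk3 f_pp_213 t 1 1 1 = true :=
  ⟨(b (b (a (b (a (a (l 16857016) (a (a (l 16920272) (l 16931288)) (a (l 16944760) (l 16962888)))) (a (a (a (l 16978776) (l 17104424)) (l 3)) (l 3))) (a (a (l 267530208855) (l 3)) (l 3))) (l 3)) (l 3)) (l 3)), by decide +kernel⟩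

theorem c_pp_213 : CertN 1073741824 536870912 0 1230186008 134217728 67108864 3 false true true .pnn 2 1 3
    ndN3q2 ndN5q3 pcN1 Cut.none Ext.none :=
  certN0 (fam := false) (s1 := true) (s2 := true) (a := 2) (b := 1) (c := 3) (cn := .pnn) (n1 := ndN3q2) (n2 := ndN5q3) (pc := pcN1) (cut := Cut.none) (xt := Ext.none) (P1 := 1073741824) (W1 := 536870912) (P2 := 0) (W2 := 1230186008) (P3 := 134217728) (W3 := 67108864) (N0 := 3)
    rfl k0_pp_213

noncomputable def f_pp_303 : ℕ → ℕ → ℕ → ℕ → Bool := onCell 0 1230186008 0 1230186008 134217728 67108864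
    (rowN 3 0 false true true .npn 3 0 3 (qsf 0 1230186008 0 1230186008 0) ndN3q3 ndN5q3 pcN0 Cut.none Ext.none)

def k0_pp_303 : ∃ t, chk3 f_pp_303 t 1 1 1 = true :=
  ⟨(a (b (l 3) (l 5)) (b (l 3) (a (l 5) (l 3)))), by decide +kernel⟩

theorem c_pp_303 : CertN 0 1230186008 0 1230186008 134217728 67108864 3 false true true .npn 3 0 3
    ndN3q3 ndN5q3 pcN0 Cut.none Ext.none :=
  certN0 (fam := false) (s1 := true) (s2 := true) (a := 3) (b := 0) (c := 3) (cn := .npn) (n1 := ndN3q3) (n2 := ndN5q3) (pc := pcN0) (cut := Cut.none) (xt := Ext.none) (P1 := 0) (W1 := 1230186008) (P2 := 0) (W2 := 1230186008) (P3 := 134217728) (W3 := 67108864) (N0 := 3)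
    rfl k0_pp_303

noncomputable def f_pp_313 : ℕ → ℕ → ℕ → ℕ → Bool := onCell 0 1230186008 0 1230186008 134217728 67108864
    (rowN 3 0 false true true .dn 3 1 3 (qsf 0 1230186008 0 1230186008 1) ndN3q3 ndN5q3 pcN1 Cut.none Ext.none)

def k0_pp_313 : ∃ t, chk3 f_pp_313 t 1 1 1 = true :=
  ⟨(a (l 1) (b (l 3) (l 1))), by decide +kernel⟩

theorem c_pp_313 : CertN 0 1230186008 0 1230186008 134217728 67108864 3 false true true .dn 3 1 3
    ndN3q3 ndN5q3 pcN1 Cut.none Ext.none :=
  certN0 (fam := false) (s1 := true) (s2 := true) (a := 3) (b := 1) (c := 3) (cn := .dn) (n1 := ndN3q3) (n2 := ndN5q3) (pc := pcN1) (cut := Cut.none) (xt := Ext.none) (P1 := 0) (W1 := 1230186008) (P2 := 0) (W2 := 1230186008) (P3 := 134217728) (W3 := 67108864) (N0 := 3)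
    rfl k0_pp_313

noncomputable def f_pm_001 : ℕ → ℕ → ℕ → ℕ → Bool := onCell 0 536870912 536870912 536870912 134217728 67108864
    (rowN 3 0 false true false .up 0 0 1 (qsf 0 536870912 536870912 536870912 0) ndN3q0 ndN5q1 pcN0 Cut.none Ext.none)

def k0_pm_001 : ∃ t, chk3 f_pm_001 t 1 1 1 = true :=
  ⟨(l 4), by decide +kernel⟩

theorem c_pm_001 : CertN 0 536870912 536870912 536870912 134217728 67108864 3 false true false .up 0 0 1
    ndN3q0 ndN5q1 pcN0 Cut.none Ext.none :=
  certN0 (fam := false) (s1 := true) (s2 := false) (a := 0) (b := 0) (c := 1) (cn := .up) (n1 := ndN3q0) (n2 := ndN5q1) (pc := pcN0) (cut := Cut.none) (xt := Ext.none) (P1 := 0) (W1 := 536870912) (P2 := 536870912) (W2 := 536870912) (P3 := 134217728) (W3 := 67108864) (N0 := 3)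
    rfl k0_pm_001

noncomputable def f_pm_011 : ℕ → ℕ → ℕ → ℕ → Bool := onCell 0 536870912 536870912 536870912 134217728 67108864
    (rowN 3 0 false true false .pnn 0 1 1 (qsf 0 536870912 536870912 536870912 1) ndN3q0 ndN5q1 pcN1 Cut.none Ext.none)

def k0_pm_011 : ∃ t, chk3 f_pm_011 t 1 1 1 = true :=
  ⟨(l 4), by decide +kernel⟩

theorem c_pm_011 : CertN 0 536870912 536870912 536870912 134217728 67108864 3 false true false .pnn 0 1 1
    ndN3q0 ndN5q1 pcN1 Cut.none Ext.none :=
  certN0 (fam := false) (s1 := true) (s2 := false) (a := 0) (b := 1) (c := 1) (cn := .pnn) (n1 := ndN3q0) (n2 := ndN5q1) (pc := pcN1) (cut := Cut.none) (xt := Ext.none) (P1 := 0) (W1 := 536870912) (P2 := 536870912) (W2 := 536870912) (P3 := 134217728) (W3 := 67108864) (N0 := 3)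
    rfl k0_pm_011

noncomputable def f_pm_012 : ℕ → ℕ → ℕ → ℕ → Bool := onCell 0 536870912 1073741824 536870912 134217728 67108864
    (rowN 3 0 false true false .pnp 0 1 2 (qsf 0 536870912 1073741824 536870912 1) ndN3q0 ndN5q2 pcN1 Cut.none Ext.none)

def k0_pm_012 : ∃ t, chk3 f_pm_012 t 1 1 1 = true :=
  ⟨(l 4), by decide +kernel⟩

theorem c_pm_012 : CertN 0 536870912 1073741824 536870912 134217728 67108864 3 false true false .pnp 0 1 2
    ndN3q0 ndN5q2 pcN1 Cut.none Ext.none :=
  certN0 (fam := false) (s1 := true) (s2 := false) (a := 0) (b := 1) (c := 2) (cn := .pnp) (n1 := ndN3q0) (n2 := ndN5q2) (pc := pcN1) (cut := Cut.none) (xt := Ext.none) (P1 := 0) (W1 := 536870912) (P2 := 1073741824) (W2 := 536870912) (P3 := 134217728) (W3 := 67108864) (N0 := 3)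
    rfl k0_pm_012

noncomputable def f_pm_022 : ℕ → ℕ → ℕ → ℕ → Bool := onCell 0 536870912 1073741824 536870912 134217728 67108864
    (rowN 3 0 false true false .pp 0 2 2 (qsf 0 536870912 1073741824 536870912 2) ndN3q0 ndN5q2 pcN2 Cut.none Ext.none)

def k0_pm_022 : ∃ t, chk3 f_pm_022 t 1 1 1 = true :=
  ⟨(l 4), by decide +kernel⟩

theorem c_pm_022 : CertN 0 536870912 1073741824 536870912 134217728 67108864 3 false true false .pp 0 2 2
    ndN3q0 ndN5q2 pcN2 Cut.none Ext.none :=
  certN0 (fam := false) (s1 := true) (s2 := false) (a := 0) (b := 2) (c := 2) (cn := .pp) (n1 := ndN3q0) (n2 := ndN5q2) (pc := pcN2) (cut := Cut.none) (xt := Ext.none) (P1 := 0) (W1 := 536870912) (P2 := 1073741824) (W2 := 536870912) (P3 := 134217728) (W3 := 67108864) (N0 := 3)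
    rfl k0_pm_022

noncomputable def f_pm_023 : ℕ → ℕ → ℕ → ℕ → Bool := onCell 0 536870912 0 1230186008 134217728 67108864
    (rowN 3 0 false true false .up 0 2 3 (qsf 0 536870912 0 1230186008 2) ndN3q0 ndN5q3 pcN2 Cut.none Ext.none)

def k0_pm_023 : ∃ t, chk3 f_pm_023 t 1 1 1 = true :=
  ⟨(l 4), by decide +kernel⟩

theorem c_pm_023 : CertN 0 536870912 0 1230186008 134217728 67108864 3 false true false .up 0 2 3
    ndN3q0 ndN5q3 pcN2 Cut.none Ext.none :=
  certN0 (fam := false) (s1 := true) (s2 := false) (a := 0) (b := 2) (c := 3) (cn := .up) (n1 := ndN3q0) (n2 := ndN5q3) (pc := pcN2) (cut := Cut.none) (xt := Ext.none) (P1 := 0) (W1 := 536870912) (P2 := 0) (W2 := 1230186008) (P3 := 134217728) (W3 := 67108864) (N0 := 3)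
    rfl k0_pm_023

noncomputable def f_pm_033 : ℕ → ℕ → ℕ → ℕ → Bool := onCell 0 536870912 0 1230186008 134217728 67108864
    (rowN 3 0 false true false .pnn 0 3 3 (qsf 0 536870912 0 1230186008 3) ndN3q0 ndN5q3 pcN3 Cut.none Ext.none)

def k0_pm_033 : ∃ t, chk3 f_pm_033 t 1 1 1 = true :=
  ⟨(l 4), by decide +kernel⟩

theorem c_pm_033 : CertN 0 536870912 0 1230186008 134217728 67108864 3 false true false .pnn 0 3 3
    ndN3q0 ndN5q3 pcN3 Cut.none Ext.none :=
  certN0 (fam := false) (s1 := true) (s2 := false) (a := 0) (b := 3) (c := 3) (cn := .pnn) (n1 := ndN3q0) (n2 := ndN5q3) (pc := pcN3) (cut := Cut.none) (xt := Ext.none) (P1 := 0) (W1 := 536870912) (P2 := 0) (W2 := 1230186008) (P3 := 134217728) (W3 := 67108864) (N0 := 3)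
    rfl k0_pm_033

noncomputable def f_pm_101 : ℕ → ℕ → ℕ → ℕ → Bool := onCell 536870912 536870912 536870912 536870912 134217728 67108864
    (rowN 3 0 false true false .npn 1 0 1 (qsf 536870912 536870912 536870912 536870912 0) ndN3q1 ndN5q1 pcN0 Cut.none Ext.none)

def k0_pm_101 : ∃ t, chk3 f_pm_101 t 1 1 1 = true :=
  ⟨(l 4), by decide +kernel⟩

theorem c_pm_101 : CertN 536870912 536870912 536870912 536870912 134217728 67108864 3 false true false .npn 1 0 1
    ndN3q1 ndN5q1 pcN0 Cut.none Ext.none :=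
  certN0 (fam := false) (s1 := true) (s2 := false) (a := 1) (b := 0) (c := 1) (cn := .npn) (n1 := ndN3q1) (n2 := ndN5q1) (pc := pcN0) (cut := Cut.none) (xt := Ext.none) (P1 := 536870912) (W1 := 536870912) (P2 := 536870912) (W2 := 536870912) (P3 := 134217728) (W3 := 67108864) (N0 := 3)
    rfl k0_pm_101

noncomputable def f_pm_102 : ℕ → ℕ → ℕ → ℕ → Bool := onCell 536870912 536870912 1073741824 536870912 134217728 67108864
    (rowN 3 0 false true false .npp 1 0 2 (qsf 536870912 536870912 1073741824 536870912 0) ndN3q1 ndN5q2 pcN0 Cut.none Ext.none)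

def k0_pm_102 : ∃ t, chk3 f_pm_102 t 1 1 1 = true :=
  ⟨(l 4), by decide +kernel⟩

theorem c_pm_102 : CertN 536870912 536870912 1073741824 536870912 134217728 67108864 3 false true false .npp 1 0 2
    ndN3q1 ndN5q2 pcN0 Cut.none Ext.none :=
  certN0 (fam := false) (s1 := true) (s2 := false) (a := 1) (b := 0) (c := 2) (cn := .npp) (n1 := ndN3q1) (n2 := ndN5q2) (pc := pcN0) (cut := Cut.none) (xt := Ext.none) (P1 := 536870912) (W1 := 536870912) (P2 := 1073741824) (W2 := 536870912) (P3 := 134217728) (W3 := 67108864) (N0 := 3)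
    rfl k0_pm_102

noncomputable def f_pm_112 : ℕ → ℕ → ℕ → ℕ → Bool := onCell 536870912 536870912 1073741824 536870912 134217728 67108864
    (rowN 3 0 false true false .dn 1 1 2 (qsf 536870912 536870912 1073741824 536870912 1) ndN3q1 ndN5q2 pcN1 Cut.none Ext.none)

def k0_pm_112 : ∃ t, chk3 f_pm_112 t 1 1 1 = true :=
  ⟨(l 4), by decide +kernel⟩

theorem c_pm_112 : CertN 536870912 536870912 1073741824 536870912 134217728 67108864 3 false true false .dn 1 1 2
    ndN3q1 ndN5q2 pcN1 Cut.none Ext.none :=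
  certN0 (fam := false) (s1 := true) (s2 := false) (a := 1) (b := 1) (c := 2) (cn := .dn) (n1 := ndN3q1) (n2 := ndN5q2) (pc := pcN1) (cut := Cut.none) (xt := Ext.none) (P1 := 536870912) (W1 := 536870912) (P2 := 1073741824) (W2 := 536870912) (P3 := 134217728) (W3 := 67108864) (N0 := 3)
    rfl k0_pm_112

noncomputable def f_pm_113 : ℕ → ℕ → ℕ → ℕ → Bool := onCell 536870912 536870912 0 1230186008 134217728 67108864
    (rowN 3 0 false true false .nn 1 1 3 (qsf 536870912 536870912 0 1230186008 1) ndN3q1 ndN5q3 pcN1 Cut.none Ext.none)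

def k0_pm_113 : ∃ t, chk3 f_pm_113 t 1 1 1 = true :=
  ⟨(b (b (a (l 2) (a (l 2) (a (l 2) (l 16857808)))) (l 4)) (l 4)), by decide +kernel⟩

theorem c_pm_113 : CertN 536870912 536870912 0 1230186008 134217728 67108864 3 false true false .nn 1 1 3
    ndN3q1 ndN5q3 pcN1 Cut.none Ext.none :=
  certN0 (fam := false) (s1 := true) (s2 := false) (a := 1) (b := 1) (c := 3) (cn := .nn) (n1 := ndN3q1) (n2 := ndN5q3) (pc := pcN1) (cut := Cut.none) (xt := Ext.none) (P1 := 536870912) (W1 := 536870912) (P2 := 0) (W2 := 1230186008) (P3 := 134217728) (W3 := 67108864) (N0 := 3)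
    rfl k0_pm_113

noncomputable def f_pm_123 : ℕ → ℕ → ℕ → ℕ → Bool := onCell 536870912 536870912 0 1230186008 134217728 67108864
    (rowN 3 0 false true false .npn 1 2 3 (qsf 536870912 536870912 0 1230186008 2) ndN3q1 ndN5q3 pcN2 Cut.none Ext.none)

def k0_pm_123 : ∃ t, chk3 f_pm_123 t 1 1 1 = true :=
  ⟨(b (a (l 4) (a (l 4) (a (l 4) (l 17477136)))) (l 4)), by decide +kernel⟩

theorem c_pm_123 : CertN 536870912 536870912 0 1230186008 134217728 67108864 3 false true false .npn 1 2 3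
    ndN3q1 ndN5q3 pcN2 Cut.none Ext.none :=
  certN0 (fam := false) (s1 := true) (s2 := false) (a := 1) (b := 2) (c := 3) (cn := .npn) (n1 := ndN3q1) (n2 := ndN5q3) (pc := pcN2) (cut := Cut.none) (xt := Ext.none) (P1 := 536870912) (W1 := 536870912) (P2 := 0) (W2 := 1230186008) (P3 := 134217728) (W3 := 67108864) (N0 := 3)
    rfl k0_pm_123

noncomputable def f_pm_133 : ℕ → ℕ → ℕ → ℕ → Bool := onCell 1610612736 536870912 0 1230186008 134217728 67108864
    (rowN 3 2 false true false .dn 1 3 3 (qsf 536870912 536870912 0 1230186008 3) ndN3q1 ndN5q3 pcN3 Cut.none Ext.none)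

def k0_pm_133 : ∃ t, chk3 f_pm_133 t 1 1 1 = true :=
  ⟨(b (l 4) (l 1)), by decide +kernel⟩

theorem c_pm_133 : CertN 536870912 536870912 0 1230186008 134217728 67108864 3 false true false .dn 1 3 3
    ndN3q1 ndN5q3 pcN3 Cut.none Ext.none :=
  certN2 (fam := false) (s1 := true) (s2 := false) (a := 1) (b := 3) (c := 3) (cn := .dn) (n1 := ndN3q1) (n2 := ndN5q3) (pc := pcN3) (cut := Cut.none) (xt := Ext.none) (P1 := 536870912) (W1 := 536870912) (P2 := 0) (W2 := 1230186008) (P3 := 134217728) (W3 := 67108864) (N0 := 3)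
    rfl (fun _ => rfl) k0_pm_133

noncomputable def f_pm_202 : ℕ → ℕ → ℕ → ℕ → Bool := onCell 0 536870912 1073741824 536870912 134217728 67108864
    (rowN 3 2 false true false .pp 2 0 2 (qsf 1073741824 536870912 1073741824 536870912 0) ndN3q2 ndN5q2 pcN0 Cut.none Ext.none)

def k0_pm_202 : ∃ t, chk3 f_pm_202 t 1 1 1 = true :=
  ⟨(a (b (l 4) (a (b (l 4) (l 18038384)) (l 4))) (l 4)), by decide +kernel⟩

theorem c_pm_202 : CertN 1073741824 536870912 1073741824 536870912 134217728 67108864 3 false true false .pp 2 0 2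
    ndN3q2 ndN5q2 pcN0 Cut.none Ext.none :=
  certN2 (fam := false) (s1 := true) (s2 := false) (a := 2) (b := 0) (c := 2) (cn := .pp) (n1 := ndN3q2) (n2 := ndN5q2) (pc := pcN0) (cut := Cut.none) (xt := Ext.none) (P1 := 1073741824) (W1 := 536870912) (P2 := 1073741824) (W2 := 536870912) (P3 := 134217728) (W3 := 67108864) (N0 := 3)
    rfl (fun _ => rfl) k0_pm_202

noncomputable def f_pm_203 : ℕ → ℕ → ℕ → ℕ → Bool := onCell 1073741824 536870912 0 1230186008 134217728 67108864
    (rowN 3 0 false true false .up 2 0 3 (qsf 1073741824 536870912 0 1230186008 0) ndN3q2 ndN5q3 pcN0 Cut.none Ext.none)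

def k0_pm_203 : ∃ t, chk3 f_pm_203 t 1 1 1 = true :=
  ⟨(b (a (l 2) (a (l 2) (b (b (l 3) (l 228876559367)) (b (l 100027707255) (b (l 17649752) (l 17781888)))))) (b (a (a (l 2) (a (l 2) (l 18083984))) (a (b (l 17940992) (l 17999240)) (b (l 17924040) (l 18044064)))) (a (b (a (l 2) (a (a (b (l 2) (l 17506544)) (b (l 17615672) (l 17396424))) (b (l 17608440) (l 17301808)))) (a (l 4) (b (a (a (l 17890432) (l 17816064)) (l 17682336)) (l 4)))) (b (a (b (b (l 17743368) (l 17617752)) (l 17557704)) (b (l 17731136) (l 17598000))) (a (b (l 17518640) (l 17798880)) (l 17639000)))))), by decide +kernel⟩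

theorem c_pm_203 : CertN 1073741824 536870912 0 1230186008 134217728 67108864 3 false true false .up 2 0 3
    ndN3q2 ndN5q3 pcN0 Cut.none Ext.none :=
  certN0 (fam := false) (s1 := true) (s2 := false) (a := 2) (b := 0) (c := 3) (cn := .up) (n1 := ndN3q2) (n2 := ndN5q3) (pc := pcN0) (cut := Cut.none) (xt := Ext.none) (P1 := 1073741824) (W1 := 536870912) (P2 := 0) (W2 := 1230186008) (P3 := 134217728) (W3 := 67108864) (N0 := 3)
    rfl k0_pm_203

noncomputable def f_pm_213 : ℕ → ℕ → ℕ → ℕ → Bool := onCell 1073741824 536870912 0 1230186008 134217728 67108864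
    (rowN 3 0 false true false .pnn 2 1 3 (qsf 1073741824 536870912 0 1230186008 1) ndN3q2 ndN5q3 pcN1 Cut.none Ext.none)

def k0_pm_213 : ∃ t, chk3 f_pm_213 t 1 1 1 = true :=
  ⟨(b (b (a (a (a (l 16934440) (a (a (l 16987224) (l 16991232)) (a (l 16996736) (l 17006000)))) (a (a (a (l 17012408) (l 17023544)) (l 17017864)) (l 209011560039))) (a (b (l 263235624359) (l 17222448)) (a (l 268067626247) (l 3)))) (a (a (a (b (l 16957328) (l 16955936)) (a (a (l 16976424) (l 16988656)) (b (l 17012584) (l 16919576)))) (a (a (a (l 17021416) (l 17032000)) (l 17021064)) (b (l 17037544) (l 16985112)))) (a (b (l 17105632) (l 16993080)) (b (a (l 17243440) (l 17364456)) (a (l 17046680) (l 17116816)))))) (b (a (b (a (a (b (l 17183072) (l 17340360)) (a (a (l 17145768) (l 17100800)) (b (l 16998432) (l 17143096)))) (a (a (l 17153200) (l 16947560)) (l 16895080))) (a (a (b (l 17538696) (l 17774144)) (a (a (l 17561720) (l 17529864)) (l 17406048))) (a (a (l 17330912) (l 17281448)) (l 17182560))))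 (b (a (l 16859944) (b (l 16982088) (l 1))) (a (l 17071072) (l 1)))) (a (b (a (a (l 17927952) (a (a (l 17846080) (l 17817968)) (l 17781520))) (a (a (l 17721624) (l 17670840)) (l 17594088))) (a (l 4) (a (l 18187672) (l 1)))) (l 1)))), by decide +kernel⟩

theorem c_pm_213 : CertN 1073741824 536870912 0 1230186008 134217728 67108864 3 false true false .pnn 2 1 3
    ndN3q2 ndN5q3 pcN1 Cut.none Ext.none :=
  certN0 (fam := false) (s1 := true) (s2 := false) (a := 2) (b := 1) (c := 3) (cn := .pnn) (n1 := ndN3q2) (n2 := ndN5q3) (pc := pcN1) (cut := Cut.none) (xt := Ext.none) (P1 := 1073741824) (W1 := 536870912) (P2 := 0) (W2 := 1230186008) (P3 := 134217728) (W3 := 67108864) (N0 := 3)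
    rfl k0_pm_213

noncomputable def f_pm_303 : ℕ → ℕ → ℕ → ℕ → Bool := onCell 0 1230186008 0 1230186008 134217728 67108864
    (rowN 3 0 false true false .npn 3 0 3 (qsf 0 1230186008 0 1230186008 0) ndN3q3 ndN5q3 pcN0 Cut.none Ext.none)

def k0_pm_303 : ∃ t, chk3 f_pm_303 t 1 1 1 = true :=
  ⟨(a (b (l 3) (b (b (l 3) (l 1)) (l 1))) (b (a (l 3) (b (l 3) (a (l 221360124999) (b (l 219212247351) (l 17277656))))) (a (a (b (b (l 210623592935) (b (l 415574301047) (l 1))) (l 1)) (b (b (l 160157655543) (b (l 17830216) (l 17677056))) (b (b (l 17518184) (l 1)) (l 1)))) (b (a (b (l 17628456) (b (l 17828912) (l 17645536))) (b (l 17505792) (l 17645080))) (a (b (l 17262656) (a (l 1) (b (l 17383360) (l 1)))) (b (l 17263912) (l 17205752))))))), by decide +kernel⟩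

theorem c_pm_303 : CertN 0 1230186008 0 1230186008 134217728 67108864 3 false true false .npn 3 0 3
    ndN3q3 ndN5q3 pcN0 Cut.none Ext.none :=
  certN0 (fam := false) (s1 := true) (s2 := false) (a := 3) (b := 0) (c := 3) (cn := .npn) (n1 := ndN3q3) (n2 := ndN5q3) (pc := pcN0) (cut := Cut.none) (xt := Ext.none) (P1 := 0) (W1 := 1230186008) (P2 := 0) (W2 := 1230186008) (P3 := 134217728) (W3 := 67108864) (N0 := 3)
    rfl k0_pm_303

noncomputable def f_pm_313 : ℕ → ℕ → ℕ → ℕ → Bool := onCell 0 1230186008 0 1230186008 134217728 67108864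
    (rowN 3 0 false true false .dn 3 1 3 (qsf 0 1230186008 0 1230186008 1) ndN3q3 ndN5q3 pcN1 Cut.none Ext.none)

def k0_pm_313 : ∃ t, chk3 f_pm_313 t 1 1 1 = true :=
  ⟨(a (l 1) (b (b (l 3) (l 1)) (l 1))), by decide +kernel⟩

theorem c_pm_313 : CertN 0 1230186008 0 1230186008 134217728 67108864 3 false true false .dn 3 1 3
    ndN3q3 ndN5q3 pcN1 Cut.none Ext.none :=
  certN0 (fam := false) (s1 := true) (s2 := false) (a := 3) (b := 1) (c := 3) (cn := .dn) (n1 := ndN3q3) (n2 := ndN5q3) (pc := pcN1) (cut := Cut.none) (xt := Ext.none) (P1 := 0) (W1 := 1230186008) (P2 := 0) (W2 := 1230186008) (P3 := 134217728) (W3 := 67108864) (N0 := 3)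
    rfl k0_pm_313

noncomputable def f_mm_001 : ℕ → ℕ → ℕ → ℕ → Bool := onCell 0 536870912 0 536870912 134217728 67108864
    (rowN 3 1 false false false .up 0 0 1 (qsf 0 536870912 536870912 536870912 0) ndN3q0 ndN5q1 pcN0 Cut.none Ext.none)

def k0_mm_001 : ∃ t, chk3 f_mm_001 t 1 1 1 = true :=
  ⟨(l 3), by decide +kernel⟩

theorem c_mm_001 : CertN 0 536870912 536870912 536870912 134217728 67108864 3 false false false .up 0 0 1
    ndN3q0 ndN5q1 pcN0 Cut.none Ext.none :=
  certN1 (fam := false) (s1 := false) (s2 := false) (a := 0) (b := 0) (c := 1) (cn := .up) (n1 := ndN3q0) (n2 := ndN5q1) (pc := pcN0) (cut := Cut.none) (xt := Ext.none) (P1 := 0) (W1 := 536870912) (P2 := 536870912) (W2 := 536870912) (P3 := 134217728) (W3 := 67108864) (N0 := 3)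
    rfl (fun _ => rfl) k0_mm_001

noncomputable def f_mm_011 : ℕ → ℕ → ℕ → ℕ → Bool := onCell 0 536870912 536870912 536870912 134217728 67108864
    (rowN 3 1 false false false .pnn 0 1 1 (qsf 0 536870912 536870912 536870912 1) ndN3q0 ndN5q1 pcN1 Cut.none Ext.none)

def k0_mm_011 : ∃ t, chk3 f_mm_011 t 1 1 1 = true :=
  ⟨(l 5), by decide +kernel⟩

theorem c_mm_011 : CertN 0 536870912 536870912 536870912 134217728 67108864 3 false false false .pnn 0 1 1
    ndN3q0 ndN5q1 pcN1 Cut.none Ext.none :=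
  certN1 (fam := false) (s1 := false) (s2 := false) (a := 0) (b := 1) (c := 1) (cn := .pnn) (n1 := ndN3q0) (n2 := ndN5q1) (pc := pcN1) (cut := Cut.none) (xt := Ext.none) (P1 := 0) (W1 := 536870912) (P2 := 536870912) (W2 := 536870912) (P3 := 134217728) (W3 := 67108864) (N0 := 3)
    rfl (fun _ => rfl) k0_mm_011

noncomputable def f_mm_012 : ℕ → ℕ → ℕ → ℕ → Bool := onCell 0 536870912 1073741824 536870912 134217728 67108864
    (rowN 3 0 false false false .pnp 0 1 2 (qsf 0 536870912 1073741824 536870912 1) ndN3q0 ndN5q2 pcN1 Cut.none Ext.none)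

def k0_mm_012 : ∃ t, chk3 f_mm_012 t 1 1 1 = true :=
  ⟨(l 5), by decide +kernel⟩

theorem c_mm_012 : CertN 0 536870912 1073741824 536870912 134217728 67108864 3 false false false .pnp 0 1 2
    ndN3q0 ndN5q2 pcN1 Cut.none Ext.none :=
  certN0 (fam := false) (s1 := false) (s2 := false) (a := 0) (b := 1) (c := 2) (cn := .pnp) (n1 := ndN3q0) (n2 := ndN5q2) (pc := pcN1) (cut := Cut.none) (xt := Ext.none) (P1 := 0) (W1 := 536870912) (P2 := 1073741824) (W2 := 536870912) (P3 := 134217728) (W3 := 67108864) (N0 := 3)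
    rfl k0_mm_012

noncomputable def f_mm_022 : ℕ → ℕ → ℕ → ℕ → Bool := onCell 0 536870912 1073741824 536870912 134217728 67108864
    (rowN 3 0 false false false .pp 0 2 2 (qsf 0 536870912 1073741824 536870912 2) ndN3q0 ndN5q2 pcN2 Cut.none Ext.none)

def k0_mm_022 : ∃ t, chk3 f_mm_022 t 1 1 1 = true :=
  ⟨(l 5), by decide +kernel⟩

theorem c_mm_022 : CertN 0 536870912 1073741824 536870912 134217728 67108864 3 false false false .pp 0 2 2
    ndN3q0 ndN5q2 pcN2 Cut.none Ext.none :=
  certN0 (fam := false) (s1 := false) (s2 := false) (a := 0) (b := 2) (c := 2) (cn := .pp) (n1 := ndN3q0) (n2 := ndN5q2) (pc := pcN2) (cut := Cut.none) (xt := Ext.none) (P1 := 0) (W1 := 536870912) (P2 := 1073741824) (W2 := 536870912) (P3 := 134217728) (W3 := 67108864) (N0 := 3)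
    rfl k0_mm_022

noncomputable def f_mm_023 : ℕ → ℕ → ℕ → ℕ → Bool := onCell 0 536870912 0 1230186008 134217728 67108864
    (rowN 3 0 false false false .up 0 2 3 (qsf 0 536870912 0 1230186008 2) ndN3q0 ndN5q3 pcN2 Cut.none Ext.none)

def k0_mm_023 : ∃ t, chk3 f_mm_023 t 1 1 1 = true :=
  ⟨(l 5), by decide +kernel⟩

theorem c_mm_023 : CertN 0 536870912 0 1230186008 134217728 67108864 3 false false false .up 0 2 3
    ndN3q0 ndN5q3 pcN2 Cut.none Ext.none :=
  certN0 (fam := false) (s1 := false) (s2 := false) (a := 0) (b := 2) (c := 3) (cn := .up) (n1 := ndN3q0) (n2 := ndN5q3) (pc := pcN2) (cut := Cut.none) (xt := Ext.none) (P1 := 0) (W1 := 536870912) (P2 := 0) (W2 := 1230186008) (P3 := 134217728) (W3 := 67108864) (N0 := 3)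
    rfl k0_mm_023

noncomputable def f_mm_033 : ℕ → ℕ → ℕ → ℕ → Bool := onCell 0 536870912 0 1230186008 134217728 67108864
    (rowN 3 0 false false false .pnn 0 3 3 (qsf 0 536870912 0 1230186008 3) ndN3q0 ndN5q3 pcN3 Cut.none Ext.none)

def k0_mm_033 : ∃ t, chk3 f_mm_033 t 1 1 1 = true :=
  ⟨(l 5), by decide +kernel⟩

theorem c_mm_033 : CertN 0 536870912 0 1230186008 134217728 67108864 3 false false false .pnn 0 3 3
    ndN3q0 ndN5q3 pcN3 Cut.none Ext.none :=
  certN0 (fam := false) (s1 := false) (s2 := false) (a := 0) (b := 3) (c := 3) (cn := .pnn) (n1 := ndN3q0) (n2 := ndN5q3) (pc := pcN3) (cut := Cut.none) (xt := Ext.none) (P1 := 0) (W1 := 536870912) (P2 := 0) (W2 := 1230186008) (P3 := 134217728) (W3 := 67108864) (N0 := 3)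
    rfl k0_mm_033

noncomputable def f_mm_101 : ℕ → ℕ → ℕ → ℕ → Bool := onCell 536870912 536870912 536870912 536870912 134217728 67108864
    (rowN 3 0 false false false .npn 1 0 1 (qsf 536870912 536870912 536870912 536870912 0) ndN3q1 ndN5q1 pcN0 Cut.none Ext.none)

def k0_mm_101 : ∃ t, chk3 f_mm_101 t 1 1 1 = true :=
  ⟨(l 3), by decide +kernel⟩

theorem c_mm_101 : CertN 536870912 536870912 536870912 536870912 134217728 67108864 3 false false false .npn 1 0 1
    ndN3q1 ndN5q1 pcN0 Cut.none Ext.none :=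
  certN0 (fam := false) (s1 := false) (s2 := false) (a := 1) (b := 0) (c := 1) (cn := .npn) (n1 := ndN3q1) (n2 := ndN5q1) (pc := pcN0) (cut := Cut.none) (xt := Ext.none) (P1 := 536870912) (W1 := 536870912) (P2 := 536870912) (W2 := 536870912) (P3 := 134217728) (W3 := 67108864) (N0 := 3)
    rfl k0_mm_101

noncomputable def f_mm_102 : ℕ → ℕ → ℕ → ℕ → Bool := onCell 536870912 536870912 1073741824 536870912 134217728 67108864
    (rowN 3 0 false false false .npp 1 0 2 (qsf 536870912 536870912 1073741824 536870912 0) ndN3q1 ndN5q2 pcN0 Cut.none Ext.none)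

def k0_mm_102 : ∃ t, chk3 f_mm_102 t 1 1 1 = true :=
  ⟨(l 3), by decide +kernel⟩

theorem c_mm_102 : CertN 536870912 536870912 1073741824 536870912 134217728 67108864 3 false false false .npp 1 0 2
    ndN3q1 ndN5q2 pcN0 Cut.none Ext.none :=
  certN0 (fam := false) (s1 := false) (s2 := false) (a := 1) (b := 0) (c := 2) (cn := .npp) (n1 := ndN3q1) (n2 := ndN5q2) (pc := pcN0) (cut := Cut.none) (xt := Ext.none) (P1 := 536870912) (W1 := 536870912) (P2 := 1073741824) (W2 := 536870912) (P3 := 134217728) (W3 := 67108864) (N0 := 3)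
    rfl k0_mm_102

noncomputable def f_mm_112 : ℕ → ℕ → ℕ → ℕ → Bool := onCell 536870912 536870912 1073741824 536870912 134217728 67108864
    (rowN 3 0 false false false .dn 1 1 2 (qsf 536870912 536870912 1073741824 536870912 1) ndN3q1 ndN5q2 pcN1 Cut.none Ext.none)

def k0_mm_112 : ∃ t, chk3 f_mm_112 t 1 1 1 = true :=
  ⟨(l 3), by decide +kernel⟩

theorem c_mm_112 : CertN 536870912 536870912 1073741824 536870912 134217728 67108864 3 false false false .dn 1 1 2
    ndN3q1 ndN5q2 pcN1 Cut.none Ext.none :=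
  certN0 (fam := false) (s1 := false) (s2 := false) (a := 1) (b := 1) (c := 2) (cn := .dn) (n1 := ndN3q1) (n2 := ndN5q2) (pc := pcN1) (cut := Cut.none) (xt := Ext.none) (P1 := 536870912) (W1 := 536870912) (P2 := 1073741824) (W2 := 536870912) (P3 := 134217728) (W3 := 67108864) (N0 := 3)
    rfl k0_mm_112

noncomputable def f_mm_113 : ℕ → ℕ → ℕ → ℕ → Bool := onCell 536870912 536870912 0 1230186008 134217728 67108864
    (rowN 3 0 false false false .nn 1 1 3 (qsf 536870912 536870912 0 1230186008 1) ndN3q1 ndN5q3 pcN1 Cut.none Ext.none)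

def k0_mm_113 : ∃ t, chk3 f_mm_113 t 1 1 1 = true :=
  ⟨(l 5), by decide +kernel⟩

theorem c_mm_113 : CertN 536870912 536870912 0 1230186008 134217728 67108864 3 false false false .nn 1 1 3
    ndN3q1 ndN5q3 pcN1 Cut.none Ext.none :=
  certN0 (fam := false) (s1 := false) (s2 := false) (a := 1) (b := 1) (c := 3) (cn := .nn) (n1 := ndN3q1) (n2 := ndN5q3) (pc := pcN1) (cut := Cut.none) (xt := Ext.none) (P1 := 536870912) (W1 := 536870912) (P2 := 0) (W2 := 1230186008) (P3 := 134217728) (W3 := 67108864) (N0 := 3)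
    rfl k0_mm_113

noncomputable def f_mm_123 : ℕ → ℕ → ℕ → ℕ → Bool := onCell 536870912 536870912 0 1230186008 134217728 67108864
    (rowN 3 0 false false false .npn 1 2 3 (qsf 536870912 536870912 0 1230186008 2) ndN3q1 ndN5q3 pcN2 Cut.none Ext.none)

def k0_mm_123 : ∃ t, chk3 f_mm_123 t 1 1 1 = true :=
  ⟨(l 5), by decide +kernel⟩

theorem c_mm_123 : CertN 536870912 536870912 0 1230186008 134217728 67108864 3 false false false .npn 1 2 3
    ndN3q1 ndN5q3 pcN2 Cut.none Ext.none :=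
  certN0 (fam := false) (s1 := false) (s2 := false) (a := 1) (b := 2) (c := 3) (cn := .npn) (n1 := ndN3q1) (n2 := ndN5q3) (pc := pcN2) (cut := Cut.none) (xt := Ext.none) (P1 := 536870912) (W1 := 536870912) (P2 := 0) (W2 := 1230186008) (P3 := 134217728) (W3 := 67108864) (N0 := 3)
    rfl k0_mm_123

noncomputable def f_mm_133 : ℕ → ℕ → ℕ → ℕ → Bool := onCell 536870912 536870912 0 1230186008 134217728 67108864
    (rowN 3 0 false false false .dn 1 3 3 (qsf 536870912 536870912 0 1230186008 3) ndN3q1 ndN5q3 pcN3 Cut.none Ext.none)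

def k0_mm_133 : ∃ t, chk3 f_mm_133 t 1 1 1 = true :=
  ⟨(l 5), by decide +kernel⟩

theorem c_mm_133 : CertN 536870912 536870912 0 1230186008 134217728 67108864 3 false false false .dn 1 3 3
    ndN3q1 ndN5q3 pcN3 Cut.none Ext.none :=
  certN0 (fam := false) (s1 := false) (s2 := false) (a := 1) (b := 3) (c := 3) (cn := .dn) (n1 := ndN3q1) (n2 := ndN5q3) (pc := pcN3) (cut := Cut.none) (xt := Ext.none) (P1 := 536870912) (W1 := 536870912) (P2 := 0) (W2 := 1230186008) (P3 := 134217728) (W3 := 67108864) (N0 := 3)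
    rfl k0_mm_133

noncomputable def f_mm_202 : ℕ → ℕ → ℕ → ℕ → Bool := onCell 0 536870912 1073741824 536870912 134217728 67108864
    (rowN 3 2 false false false .pp 2 0 2 (qsf 1073741824 536870912 1073741824 536870912 0) ndN3q2 ndN5q2 pcN0 Cut.none Ext.none)

def k0_mm_202 : ∃ t, chk3 f_mm_202 t 1 1 1 = true :=
  ⟨(a (l 3) (l 3)), by decide +kernel⟩

theorem c_mm_202 : CertN 1073741824 536870912 1073741824 536870912 134217728 67108864 3 false false false .pp 2 0 2
    ndN3q2 ndN5q2 pcN0 Cut.none Ext.none :=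
  certN2 (fam := false) (s1 := false) (s2 := false) (a := 2) (b := 0) (c := 2) (cn := .pp) (n1 := ndN3q2) (n2 := ndN5q2) (pc := pcN0) (cut := Cut.none) (xt := Ext.none) (P1 := 1073741824) (W1 := 536870912) (P2 := 1073741824) (W2 := 536870912) (P3 := 134217728) (W3 := 67108864) (N0 := 3)
    rfl (fun _ => rfl) k0_mm_202

noncomputable def f_mm_203 : ℕ → ℕ → ℕ → ℕ → Bool := onCell 1073741824 536870912 0 1230186008 134217728 67108864
    (rowN 3 0 false false false .up 2 0 3 (qsf 1073741824 536870912 0 1230186008 0) ndN3q2 ndN5q3 pcN0 Cut.none Ext.none)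

def k0_mm_203 : ∃ t, chk3 f_mm_203 t 1 1 1 = true :=
  ⟨(b (l 5) (l 3)), by decide +kernel⟩

theorem c_mm_203 : CertN 1073741824 536870912 0 1230186008 134217728 67108864 3 false false false .up 2 0 3
    ndN3q2 ndN5q3 pcN0 Cut.none Ext.none :=
  certN0 (fam := false) (s1 := false) (s2 := false) (a := 2) (b := 0) (c := 3) (cn := .up) (n1 := ndN3q2) (n2 := ndN5q3) (pc := pcN0) (cut := Cut.none) (xt := Ext.none) (P1 := 1073741824) (W1 := 536870912) (P2 := 0) (W2 := 1230186008) (P3 := 134217728) (W3 := 67108864) (N0 := 3)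
    rfl k0_mm_203

noncomputable def f_mm_213 : ℕ → ℕ → ℕ → ℕ → Bool := onCell 1073741824 536870912 0 1230186008 134217728 67108864
    (rowN 3 0 false false false .pnn 2 1 3 (qsf 1073741824 536870912 0 1230186008 1) ndN3q2 ndN5q3 pcN1 Cut.none Ext.none)

def k0_mm_213 : ∃ t, chk3 f_mm_213 t 1 1 1 = true :=
  ⟨(b (l 5) (l 3)), by decide +kernel⟩

theorem c_mm_213 : CertN 1073741824 536870912 0 1230186008 134217728 67108864 3 false false false .pnn 2 1 3
    ndN3q2 ndN5q3 pcN1 Cut.none Ext.none :=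
  certN0 (fam := false) (s1 := false) (s2 := false) (a := 2) (b := 1) (c := 3) (cn := .pnn) (n1 := ndN3q2) (n2 := ndN5q3) (pc := pcN1) (cut := Cut.none) (xt := Ext.none) (P1 := 1073741824) (W1 := 536870912) (P2 := 0) (W2 := 1230186008) (P3 := 134217728) (W3 := 67108864) (N0 := 3)
    rfl k0_mm_213

noncomputable def f_mm_303 : ℕ → ℕ → ℕ → ℕ → Bool := onCell 0 1230186008 0 1230186008 134217728 67108864
    (rowN 3 0 false false false .npn 3 0 3 (qsf 0 1230186008 0 1230186008 0) ndN3q3 ndN5q3 pcN0 Cut.none Ext.none)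

def k0_mm_303 : ∃ t, chk3 f_mm_303 t 1 1 1 = true :=
  ⟨(a (b (l 3) (b (l 3) (l 1))) (a (a (b (l 3) (l 3)) (l 3)) (l 3))), by decide +kernel⟩

theorem c_mm_303 : CertN 0 1230186008 0 1230186008 134217728 67108864 3 false false false .npn 3 0 3
    ndN3q3 ndN5q3 pcN0 Cut.none Ext.none :=
  certN0 (fam := false) (s1 := false) (s2 := false) (a := 3) (b := 0) (c := 3) (cn := .npn) (n1 := ndN3q3) (n2 := ndN5q3) (pc := pcN0) (cut := Cut.none) (xt := Ext.none) (P1 := 0) (W1 := 1230186008) (P2 := 0) (W2 := 1230186008) (P3 := 134217728) (W3 := 67108864) (N0 := 3)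
    rfl k0_mm_303

noncomputable def f_mm_313 : ℕ → ℕ → ℕ → ℕ → Bool := onCell 0 1230186008 0 1230186008 134217728 67108864
    (rowN 3 0 false false false .dn 3 1 3 (qsf 0 1230186008 0 1230186008 1) ndN3q3 ndN5q3 pcN1 Cut.none Ext.none)

def k0_mm_313 : ∃ t, chk3 f_mm_313 t 1 1 1 = true :=
  ⟨(a (l 1) (b (l 3) (l 1))), by decide +kernel⟩

theorem c_mm_313 : CertN 0 1230186008 0 1230186008 134217728 67108864 3 false false false .dn 3 1 3
    ndN3q3 ndN5q3 pcN1 Cut.none Ext.none :=
  certN0 (fam := false) (s1 := false) (s2 := false) (a := 3) (b := 1) (c := 3) (cn := .dn) (n1 := ndN3q3) (n2 := ndN5q3) (pc := pcN1) (cut := Cut.none) (xt := Ext.none) (P1 := 0) (W1 := 1230186008) (P2 := 0) (W2 := 1230186008) (P3 := 134217728) (W3 := 67108864) (N0 := 3)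
    rfl k0_mm_313

end Pool.Agent.Strip051.G.I1_8_3_16.Tab.C.NB35

namespace Pool.Agent.Strip051.G.I1_8_3_16.Tab.C.NB40

open Pool.Agent.Strip051.PB Pool.Agent.Strip051.PB.T
open Pool.Agent.Strip051.G.I1_8_3_16.Tab

noncomputable def f_pp_001 : ℕ → ℕ → ℕ → ℕ → Bool := onCell 0 536870912 0 536870912 134217728 67108864
    (rowN 3 1 false true true .up 0 0 1 (qsf 0 536870912 536870912 536870912 0) ndN4q0 ndN0q1 pcN0 Cut.none Ext.none)

def k0_pp_001 : ∃ t, chk3 f_pp_001 t 1 1 1 = true :=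
  ⟨(a (l 3) (b (l 3) (b (l 3) (a (b (l 3) (a (l 3) (b (l 3) (l 261625042151)))) (b (c (a (l 3) (b (l 269141887095) (a (l 254646206951) (l 193979872663)))) (a (l 3) (b (a (l 3) (b (l 3) (a (l 3) (l 245519453255)))) (a (l 244982417799) (b (l 193442905959) (l 17556968)))))) (a (b (l 239076748183) (a (l 219212315607) (l 17421432))) (b (a (l 155324935527) (l 17554520)) (l 17495816)))))))), by decide +kernel⟩

theorem c_pp_001 : CertN 0 536870912 536870912 536870912 134217728 67108864 3 false true true .up 0 0 1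
    ndN4q0 ndN0q1 pcN0 Cut.none Ext.none :=
  certN1 (fam := false) (s1 := true) (s2 := true) (a := 0) (b := 0) (c := 1) (cn := .up) (n1 := ndN4q0) (n2 := ndN0q1) (pc := pcN0) (cut := Cut.none) (xt := Ext.none) (P1 := 0) (W1 := 536870912) (P2 := 536870912) (W2 := 536870912) (P3 := 134217728) (W3 := 67108864) (N0 := 3)
    rfl (fun _ => rfl) k0_pp_001

noncomputable def f_pp_011 : ℕ → ℕ → ℕ → ℕ → Bool := onCell 536870912 536870912 536870912 536870912 134217728 67108864
    (rowN 3 2 false true true .pnn 0 1 1 (qsf 0 536870912 536870912 536870912 1) ndN4q0 ndN0q1 pcN1 Cut.none Ext.none)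

def k0_pp_011 : ∃ t, chk3 f_pp_011 t 1 1 1 = true :=
  ⟨(a (b (a (l 3) (b (a (b (l 1) (l 3)) (l 1)) (l 3))) (a (b (b (l 3) (a (b (l 3) (l 204180149687)) (l 180020967927))) (b (a (l 17449912) (l 17366728)) (l 17445520))) (b (b (a (l 3) (l 174114996183)) (a (b (l 17295592) (l 17356896)) (l 17425016))) (a (b (l 17443192) (l 17528888)) (l 17567872))))) (b (a (b (l 1) (a (b (l 1) (l 3)) (l 1))) (l 1)) (a (b (b (a (l 145660935639) (l 366718303879)) (a (l 17518448) (l 17602056))) (b (l 17643480) (l 17689264))) (b (a (b (l 1) (l 17659008)) (l 1)) (b (l 17940112) (l 17787840)))))), by decide +kernel⟩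

theorem c_pp_011 : CertN 0 536870912 536870912 536870912 134217728 67108864 3 false true true .pnn 0 1 1
    ndN4q0 ndN0q1 pcN1 Cut.none Ext.none :=
  certN2 (fam := false) (s1 := true) (s2 := true) (a := 0) (b := 1) (c := 1) (cn := .pnn) (n1 := ndN4q0) (n2 := ndN0q1) (pc := pcN1) (cut := Cut.none) (xt := Ext.none) (P1 := 0) (W1 := 536870912) (P2 := 536870912) (W2 := 536870912) (P3 := 134217728) (W3 := 67108864) (N0 := 3)
    rfl (fun _ => rfl) k0_pp_011

noncomputable def f_pp_012 : ℕ → ℕ → ℕ → ℕ → Bool := onCell 536870912 536870912 0 536870912 134217728 67108864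
    (rowN 3 2 false true true .pnp 0 1 2 (qsf 0 536870912 0 536870912 1) ndN4q0 ndN0q2 pcN1 Cut.none Ext.none)

def k0_pp_012 : ∃ t, chk3 f_pp_012 t 1 1 1 = true :=
  ⟨(a (b (a (b (l 2) (l 17247400)) (b (l 17791952) (l 17572168))) (b (l 17317192) (a (l 17507200) (l 17500704)))) (b (a (a (b (l 18009184) (l 17785408)) (l 17998776)) (a (a (l 18105952) (l 18172560)) (l 18258272))) (b (a (l 17601072) (l 17959200)) (a (l 17608304) (l 17751184))))), by decide +kernel⟩

theorem c_pp_012 : CertN 0 536870912 0 536870912 134217728 67108864 3 false true true .pnp 0 1 2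
    ndN4q0 ndN0q2 pcN1 Cut.none Ext.none :=
  certN2 (fam := false) (s1 := true) (s2 := true) (a := 0) (b := 1) (c := 2) (cn := .pnp) (n1 := ndN4q0) (n2 := ndN0q2) (pc := pcN1) (cut := Cut.none) (xt := Ext.none) (P1 := 0) (W1 := 536870912) (P2 := 0) (W2 := 536870912) (P3 := 134217728) (W3 := 67108864) (N0 := 3)
    rfl (fun _ => rfl) k0_pp_012

noncomputable def f_pp_022 : ℕ → ℕ → ℕ → ℕ → Bool := onCell 0 536870912 0 536870912 134217728 67108864
    (rowN 3 0 false true true .pp 0 2 2 (qsf 0 536870912 0 536870912 2) ndN4q0 ndN0q2 pcN2 Cut.none Ext.none)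

def k0_pp_022 : ∃ t, chk3 f_pp_022 t 1 1 1 = true :=
  ⟨(a (b (a (b (l 18173536) (l 18224904)) (b (l 18542728) (l 18583056))) (b (a (b (l 18273392) (b (l 18299528) (l 18314304))) (l 1)) (a (b (l 18345360) (l 18364120)) (l 1)))) (l 1)), by decide +kernel⟩

theorem c_pp_022 : CertN 0 536870912 0 536870912 134217728 67108864 3 false true true .pp 0 2 2
    ndN4q0 ndN0q2 pcN2 Cut.none Ext.none :=
  certN0 (fam := false) (s1 := true) (s2 := true) (a := 0) (b := 2) (c := 2) (cn := .pp) (n1 := ndN4q0) (n2 := ndN0q2) (pc := pcN2) (cut := Cut.none) (xt := Ext.none) (P1 := 0) (W1 := 536870912) (P2 := 0) (W2 := 536870912) (P3 := 134217728) (W3 := 67108864) (N0 := 3)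
    rfl k0_pp_022

noncomputable def cut_pp_101 : Cut := Cut.of [[⟨0, 1, 0, 67108864⟩, ⟨1, 0, 0, 67108864⟩, ⟨2, 1, 0, 67108864⟩]]

noncomputable def f_pp_101 : ℕ → ℕ → ℕ → ℕ → Bool := onCell 0 536870912 536870912 536870912 134217728 67108864
    (rowN 3 2 false true true .npn 1 0 1 (qsf 536870912 536870912 536870912 536870912 0) ndN4q1 ndN0q1 pcN0 cut_pp_101 Ext.none)

def k0_pp_101 : ∃ t, chk3 f_pp_101 t 2 2 1 = true :=
  ⟨(l 3), by decide +kernel⟩

def k1_pp_101 : ∃ t, chk3 f_pp_101 t 2 6 1 = true :=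
  ⟨(l 3), by decide +kernel⟩

def k2_pp_101 : ∃ t, chk3 f_pp_101 t 4 14 1 = true :=
  ⟨(l 3), by decide +kernel⟩

def k3_pp_101 : ∃ t, chk3 f_pp_101 t 8 15 1 = true :=
  ⟨(b (l 3) (a (b (l 3) (l 6)) (b (a (l 3) (b (l 3) (b (l 3) (a (l 3) (a (l 3) (b (l 3) (c (c (l 146733486679) (l 148880971687)) (l 216526701255)))))))) (b (a (b (b (l 3) (l 6)) (l 6)) (b (a (b (b (l 3) (a (l 3) (c (c (l 144586015463) (l 146733495479)) (l 199883710743)))) (a (c (a (b (l 3) (l 6)) (c (l 138680430967) (l 139754174503))) (b (l 200957456919) (a (l 6) (l 126869264935)))) (c (a (c (l 138680432535) (l 139217299847)) (c (l 130090492455) (l 126332392407))) (b (a (l 154786553175) (l 126869260583)) (l 16758768))))) (b (a (c (c (b (l 145122871767) (l 138680428391)) (l 147270360583)) (b (l 199346835383) (l 156397159479))) (c (c (l 138143551287) (l 139217289223)) (b (l 156397154935) (l 16754296)))) (a (c (c (l 16754760) (l 16758128)) (l 16755536)) (c (l 16765328) (l 16740736))))) (a (a (a (l 6)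 (c (l 16757376) (l 16756768))) (c (l 16756920) (l 16764080))) (b (l 16753584) (l 16757272))))) (a (l 6) (b (a (l 16748840) (l 16750952)) (l 16746608))))))), by decide +kernel⟩

def k4_pp_101 : ∃ t, chk3 f_pp_101 t 9 30 1 = true :=
  ⟨(a (l 3) (b (l 3) (b (l 3) (a (l 3) (b (l 3) (b (l 3) (a (l 3) (c (c (l 152639216647) (l 135459167287)) (l 227800921463))))))))), by decide +kernel⟩

def k5_pp_101 : ∃ t, chk3 f_pp_101 t 18 62 1 = true :=
  ⟨(b (a (l 3) (b (l 3) (a (l 3) (a (l 3) (c (c (l 184851290583) (l 204178628743)) (l 243370209991)))))) (a (b (a (l 3) (a (l 3) (c (c (l 150491571943) (l 202031164935)) (l 239612136231)))) (a (b (a (l 3) (a (l 3) (c (l 147270347351) (l 207399894999)))) (a (c (c (l 142975388359) (l 140291029815)) (b (l 200420578503) (l 156934021207))) (c (c (l 137606671415) (l 138680419671)) (b (l 157470887367) (l 16760096))))) (c (c (b (a (l 142438508151) (l 137606672343)) (l 16743664)) (b (a (l 146196610919) (l 138680410007)) (l 16746832))) (b (a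 (l 165523950183) (b (l 159618371703) (l 16755208))) (l 16741336))))) (b (c (c (a (b (l 152102175847) (a (l 139217283239) (l 137606662151))) (b (a (l 139217273303) (l 137069781927)) (l 16749648))) (a (b (l 198809941079) (l 143512236823)) (a (a (l 139754138567) (l 139217263671)) (l 139754123127)))) (a (b (l 236927775399) (a (l 168208292071) (b (l 164450199671) (l 16750104)))) (b (a (l 170892636599) (b (l 127942958519) (l 16745288))) (l 16734032)))) (c (a (b (a (l 16741192) (l 16751072)) (l 16749368)) (l 16742640)) (a (l 16738248) (l 16738560)))))), by decide +kernel⟩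

def k6_pp_101 : ∃ t, chk3 f_pp_101 t 19 62 1 = true :=
  ⟨(b (a (b (a (l 3) (a (l 3) (c (c (l 135996051591) (l 192367449831)) (l 238001492343)))) (a (b (a (l 3) (c (c (l 139217261863) (l 148880933943)) (l 225653468343))) (c (c (a (l 139754134903) (l 140827868855)) (a (l 140827872407) (l 138143509879))) (c (l 164987049975) (l 179482560759)))) (b (c (c (a (l 140290996455) (l 130090428439)) (a (l 141364733879) (l 142438467831))) (c (l 166597653271) (l 177871933271))) (c (c (l 16740288) (l 16738032)) (l 16734896))))) (b (a (c (c (a (l 134385480535) (l 133311760279)) (b (l 185388140583) (a (l 142438466247) (l 142438458215)))) (b (l 231559027751) (c (l 165523896663) (l 176798181911)))) (c (c (b (l 132238069031) (l 16817192)) (b (l 132237916119) (l 16711920))) (b (c (l 164987015863) (l 176261301127)) (l 16725216)))) (c (a (a (c (l 16740968) (l 16733504)) (l 16730264)) (l 16744264)) (a (l 16717664) (l 16719264))))) (c (a (b (a (b (a (l 16730288) (l 16741672)) (l 16739952))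 (l 16733256)) (l 16729736)) (l 16716304)) (a (b (a (l 16728544) (l 16728904)) (l 16725368)) (l 16711704)))), by decide +kernel⟩

def k7_pp_101 : ∃ t, chk3 f_pp_101 t 9 63 1 = true :=
  ⟨(a (b (a (b (a (a (c (c (l 16751032) (l 16746432)) (l 16746312)) (c (l 16758816) (l 16755024))) (c (l 16752256) (l 16748376))) (a (l 16750792) (l 16742040))) (b (l 16738256) (l 16728776))) (b (l 16745152) (l 16731440))) (b (a (l 16715384) (l 16697624)) (l 16711000))), by decide +kernel⟩

def k8_pp_101 : ∃ t, chk3 f_pp_101 t 5 14 1 = true :=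
  ⟨(a (l 3) (a (l 3) (b (l 3) (b (l 3) (c (l 220822378743) (l 207400428023)))))), by decide +kernel⟩

def k9_pp_101 : ∃ t, chk3 f_pp_101 t 5 30 1 = true :=
  ⟨(a (b (a (l 3) (b (l 3) (a (l 3) (c (l 204716064727) (b (l 3) (l 174651058967)))))) (a (b (a (l 3) (a (l 3) (b (l 3) (c (l 176798617751) (l 155860361991))))) (a (b (a (l 3) (a (l 3) (a (l 3) (c (l 164450418951) (l 135996004359))))) (a (a (c (c (l 131701313591) (l 133311749975)) (c (l 168745119239) (l 180556275543))) (b (c (l 154786612599) (l 215989752583)) (a (c (l 133311759559) (l 162302657735)) (c (l 133848631719) (l 16720560))))) (b (c (c (l 131164540247) (l 131701237159)) (c (l 135996029079) (l 173576936263))) (c (c (l 16909696) (l 16816616)) (l 16714808))))) (b (c (c (l 132238323623) (a (l 131164448919) (l 130627646791))) (a (b (l 139217279799) (l 134385458327)) (b (l 126869291639) (l 16771520)))) (c (a (b (l 16861968) (l 16902360)) (l 16941008)) (a (l 16751456) (l 16756848)))))) (b (a (c (b (l 194515436567)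 (a (l 131164634183) (l 129017071719))) (b (a (l 3) (l 163376685735)) (a (b (l 156934168327) (l 126332496199)) (l 124721885687)))) (c (l 131701546359) (c (l 124185263751) (a (l 125258832151) (l 122574472727))))) (a (a (b (c (l 16973880) (l 16808736)) (l 16781352)) (c (l 17011160) (l 16836304))) (c (l 17061680) (l 16887296)))))) (b (a (b (a (l 3) (c (l 218137985975) (l 198810421255))) (c (a (l 135996697959) (l 17122256)) (a (b (l 186999185879) (l 125795868631)) (l 122574643911)))) (c (l 127943702535) (b (a (l 130091034967) (l 17072184)) (l 17027136)))) (a (b (c (l 17085136) (a (b (l 16952568) (l 16953832)) (l 17008168))) (c (l 17155120) (l 16983680))) (c (l 17247232) (l 17091976))))), by decide +kernel⟩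

def k10_pp_101 : ∃ t, chk3 f_pp_101 t 5 31 1 = true :=
  ⟨(a (b (a (b (a (a (b (c (c (l 16864328) (l 16761968)) (b (l 16720104) (l 16716168))) (l 16733352)) (c (l 16849776) (l 16705008))) (c (l 16916216) (l 16696992))) (a (l 16695944) (l 16757576))) (b (c (l 17039112) (l 16826976)) (l 16913280))) (b (a (l 16691520) (l 16877192)) (l 16684464))) (b (a (c (l 17189960) (l 16973912)) (l 17209984)) (a (l 17071200) (l 17233176)))), by decide +kernel⟩

def k11_pp_101 : ∃ t, chk3 f_pp_101 t 3 1 1 = true :=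
  ⟨(b (l 3) (a (b (l 3) (b (a (b (l 3) (b (a (l 3) (l 219211893351)) (a (c (l 147271242455) (l 137607373207)) (c (l 17280416) (l 127406849399))))) (a (b (l 3) (b (l 140828894583) (l 17304704))) (b (l 215990809959) (c (l 17396816) (l 17298000))))) (b (a (a (b (c (l 17268312) (l 17146672)) (l 17263440)) (b (l 17288040) (l 17345408))) (b (l 17394664) (l 17450168))) (a (b (l 17359256) (l 17405912)) (l 17532976))))) (a (b (l 3) (a (b (b (l 145123996167) (l 17413104)) (l 17562768)) (b (b (l 316788608599) (l 17473040)) (l 17610312)))) (b (l 1) (b (l 346853638263) (l 17669288)))))), by decide +kernel⟩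

theorem s12_pp_101 : ∃ t, chk3 f_pp_101 t 5 15 1 = true := ex3_b k9_pp_101 k10_pp_101

theorem s13_pp_101 : ∃ t, chk3 f_pp_101 t 5 7 1 = true := ex3_b k8_pp_101 s12_pp_101

theorem s14_pp_101 : ∃ t, chk3 f_pp_101 t 9 62 1 = true := ex3_a k5_pp_101 k6_pp_101

theorem s15_pp_101 : ∃ t, chk3 f_pp_101 t 9 31 1 = true := ex3_b s14_pp_101 k7_pp_101

theorem s16_pp_101 : ∃ t, chk3 f_pp_101 t 9 15 1 = true := ex3_b k4_pp_101 s15_pp_101

theorem s17_pp_101 : ∃ t, chk3 f_pp_101 t 4 15 1 = true := ex3_a k3_pp_101 s16_pp_101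

theorem s18_pp_101 : ∃ t, chk3 f_pp_101 t 4 7 1 = true := ex3_b k2_pp_101 s17_pp_101

theorem s19_pp_101 : ∃ t, chk3 f_pp_101 t 2 7 1 = true := ex3_a s18_pp_101 s13_pp_101

theorem s20_pp_101 : ∃ t, chk3 f_pp_101 t 2 3 1 = true := ex3_b k1_pp_101 s19_pp_101

theorem s21_pp_101 : ∃ t, chk3 f_pp_101 t 2 1 1 = true := ex3_b k0_pp_101 s20_pp_101

theorem s22_pp_101 : ∃ t, chk3 f_pp_101 t 1 1 1 = true := ex3_a s21_pp_101 k11_pp_101

theorem c_pp_101 : CertN 536870912 536870912 536870912 536870912 134217728 67108864 3 false true true .npn 1 0 1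
    ndN4q1 ndN0q1 pcN0 cut_pp_101 Ext.none :=
  certN2 (fam := false) (s1 := true) (s2 := true) (a := 1) (b := 0) (c := 1) (cn := .npn) (n1 := ndN4q1) (n2 := ndN0q1) (pc := pcN0) (cut := cut_pp_101) (xt := Ext.none) (P1 := 536870912) (W1 := 536870912) (P2 := 536870912) (W2 := 536870912) (P3 := 134217728) (W3 := 67108864) (N0 := 3)
    rfl (fun _ => rfl) s22_pp_101

end Pool.Agent.Strip051.G.I1_8_3_16.Tab.C.NB40

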