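import Pool.Agent.Strip051.G.I1_8_3_16.Fact
import Pool.Agent.Strip051.G.I1_8_3_16.Prf
import Pool.Agent.Strip051.PB.CornA

/-! # Aligned corners: the germs (generated) -/

set_option linter.all false

namespace Pool.Agent.Strip051.G.I1_8_3_16.Tab

open Pool.Agent.Strip051.PB Pool.Agent.StripNear Pool.Agent.Strip051.LC

theorem gatF00 (x : ℝ) : gF0q0.At ((0 : ℕ) : ℝ) (((2 : ℕ) : ℝ) / 2) (c0F.v x) x := by
  obtain ⟨h1, h2, h3⟩ := corF00 x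
  have e : cR gF0q0.cc ((0 : ℕ) : ℝ) = 0 := by
    show ((0 : ℕ) : ℝ) = 0
    norm_num
  refine Gn.At.of e ⟨?_, ?_, ?_⟩
  · exact h1.trans (by norm_num)
  · exact h2.trans (by simp only [c0F]; norm_num)
  · exact h3

theorem gatF01 (x : ℝ) : gF0q1.At ((1 : ℕ) : ℝ) (((1 : ℕ) : ℝ) / 2) (c0F.v x) x := by
  obtain ⟨h1, h2, h3⟩ := corF01 x
  have e : cR gF0q1.cc ((1 : ℕ) : ℝ) = 1 := by
    show ((1 : ℕ) : ℝ) = 1
    norm_num
  refine Gn.At.of e ⟨?_, ?_, ?_⟩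
  · exact h1.trans (by norm_num)
  · exact h2.trans (by simp only [c0F]; norm_num)
  · exact h3

theorem gatF02 (x : ℝ) : gF0q2.At ((1 : ℕ) : ℝ) (((1 : ℕ) : ℝ) / 2) (c0F.v x) x := by
  obtain ⟨h1, h2, h3⟩ := corF02 x
  have e : cR gF0q2.cc ((1 : ℕ) : ℝ) = 1 / 2 := by
    show c1n ((1 : ℕ) : ℝ) = 1 / 2
    rw [Nat.cast_one]
    exact c1n_one
  refine Gn.At.of e ⟨?_, ?_, ?_⟩
  · exact h1.trans (by norm_num)
  · exact h2.trans (by simp only [c0F]; norm_num)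
  · exact h3

theorem gatF10 (x : ℝ) : gF1q0.At ((0 : ℕ) : ℝ) (((2 : ℕ) : ℝ) / 2) (c0F.v x) x := by
  obtain ⟨h1, h2, h3⟩ := corF10 x
  have e : cR gF1q0.cc ((0 : ℕ) : ℝ) = 0 := by
    show ((0 : ℕ) : ℝ) = 0
    norm_num
  refine Gn.At.of e ⟨?_, ?_, ?_⟩
  · exact h1.trans (by norm_num)
  · exact h2.trans (by simp only [c0F]; norm_num)
  · exact h3

theorem gatF12 (x : ℝ) : gF1q2.At ((1 : ℕ) : ℝ) (((1 : ℕ) : ℝ) / 2) (c0F.v x) x := by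
  obtain ⟨h1, h2, h3⟩ := corF12 x
  have e : cR gF1q2.cc ((1 : ℕ) : ℝ) = 1 := by
    show ((1 : ℕ) : ℝ) = 1
    norm_num
  refine Gn.At.of e ⟨?_, ?_, ?_⟩
  · exact h1.trans (by norm_num)
  · exact h2.trans (by simp only [c0F]; norm_num)
  · exact h3

theorem gatF20 (x : ℝ) : gF2q0.At ((0 : ℕ) : ℝ) (((2 : ℕ) : ℝ) / 2) (c0F.v x) x := by
  obtain ⟨h1, h2, h3⟩ := corF20 x
  have e : cR gF2q0.cc ((0 : ℕ) : ℝ) = 0 := by
    show ((0 : ℕ) : ℝ) = 0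
    norm_num
  refine Gn.At.of e ⟨?_, ?_, ?_⟩
  · exact h1.trans (by norm_num)
  · exact h2.trans (by simp only [c0F]; norm_num)
  · exact h3

theorem gatF22 (x : ℝ) : gF2q2.At ((1 : ℕ) : ℝ) (((1 : ℕ) : ℝ) / 2) (c0F.v x) x := by
  obtain ⟨h1, h2, h3⟩ := corF22 x
  have e : cR gF2q2.cc ((1 : ℕ) : ℝ) = 1 := by
    show ((1 : ℕ) : ℝ) = 1
    norm_num
  refine Gn.At.of e ⟨?_, ?_, ?_⟩
  · exact h1.trans (by norm_num)
  · exact h2.trans (by simp only [c0F]; norm_num)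
  · exact h3

theorem gatF31 (x : ℝ) : gF3q1.At ((1 : ℕ) : ℝ) (((3 : ℕ) : ℝ) / 2) (c0F.v x) x := by
  obtain ⟨h1, h2, h3⟩ := corF31 x
  have e : cR gF3q1.cc ((1 : ℕ) : ℝ) = 1 := by
    show ((1 : ℕ) : ℝ) = 1
    norm_num
  refine Gn.At.of e ⟨?_, ?_, ?_⟩
  · exact h1.trans (by norm_num)
  · exact h2.trans (by simp only [c0F]; norm_num)
  · exact h3

theorem gatF41 (x : ℝ) : gF4q1.At ((1 : ℕ) : ℝ) (((3 : ℕ) : ℝ) / 2) (c0F.v x) x := by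
  obtain ⟨h1, h2, h3⟩ := corF41 x
  have e : cR gF4q1.cc ((1 : ℕ) : ℝ) = 1 := by
    show ((1 : ℕ) : ℝ) = 1
    norm_num
  refine Gn.At.of e ⟨?_, ?_, ?_⟩
  · exact h1.trans (by norm_num)
  · exact h2.trans (by simp only [c0F]; norm_num)
  · exact h3

theorem gatF51 (x : ℝ) : gF5q1.At ((1 : ℕ) : ℝ) (((3 : ℕ) : ℝ) / 2) (c0F.v x) x := by
  obtain ⟨h1, h2, h3⟩ := corF51 x
  have e : cR gF5q1.cc ((1 : ℕ) : ℝ) = 1 := by
    show ((1 : ℕ) : ℝ) = 1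
    norm_num
  refine Gn.At.of e ⟨?_, ?_, ?_⟩
  · exact h1.trans (by norm_num)
  · exact h2.trans (by simp only [c0F]; norm_num)
  · exact h3

theorem gatF52 (x : ℝ) : gF5q2.At ((1 : ℕ) : ℝ) (((3 : ℕ) : ℝ) / 2) (c0F.v x) x := by
  obtain ⟨h1, h2, h3⟩ := corF52 x
  have e : cR gF5q2.cc ((1 : ℕ) : ℝ) = 1 := by
    show ((1 : ℕ) : ℝ) = 1
    norm_num
  refine Gn.At.of e ⟨?_, ?_, ?_⟩
  · exact h1.trans (by norm_num)
  · exact h2.trans (by simp only [c0F]; norm_num)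
  · exact h3

theorem gokF {x : ℝ} : GnOk PP tKF tL gF x := by
  refine GnOk.of fun j q y hq ho _ => ?_
  interval_cases q <;> fin_cases j
  · exact atF00 ho
  · exact atF10 ho
  · exact atF20 ho
  · exact atF30 ho
  · exact atF40 ho
  · exact atF50 ho
  · exact atF01 ho
  · exact atF11 ho
  · exact atF21 ho
  · exact atF31 ho
  · exact atF41 ho
  · exact atF51 ho
  · exact atF02 ho
  · exact atF12 ho
  · exact atF22 ho
  · exact atF32 ho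
  · exact atF42 ho
  · exact atF52 ho

theorem gatN00 (x : ℝ) : gN0q0.At ((0 : ℕ) : ℝ) (((2 : ℕ) : ℝ) / 2) (c0N.v x) x := by
  obtain ⟨h1, h2, h3⟩ := corN00 x
  have e : cR gN0q0.cc ((0 : ℕ) : ℝ) = 0 := by
    show ((0 : ℕ) : ℝ) = 0
    norm_num
  refine Gn.At.of e ⟨?_, ?_, ?_⟩
  · exact h1.trans (by norm_num)
  · exact h2.trans (by simp only [c0N, c0n]; push_cast; ring)
  · exact h3

theorem gatN01 (x : ℝ) : gN0q1.At ((1 : ℕ) : ℝ) (((1 : ℕ) : ℝ) / 2) (c0N.v x) x := by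
  obtain ⟨h1, h2, h3⟩ := corN01 x
  have e : cR gN0q1.cc ((1 : ℕ) : ℝ) = 1 := by
    show ((1 : ℕ) : ℝ) = 1
    norm_num
  refine Gn.At.of e ⟨?_, ?_, ?_⟩
  · exact h1.trans (by norm_num)
  · exact h2.trans (by simp only [c0N, c0n]; push_cast; ring)
  · exact h3

theorem gatN02 (x : ℝ) : gN0q2.At ((1 : ℕ) : ℝ) (((1 : ℕ) : ℝ) / 2) (c0N.v x) x := by
  obtain ⟨h1, h2, h3⟩ := corN02 x
  have e : cR gN0q2.cc ((1 : ℕ) : ℝ) = 1 / 2 := by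
    show c1n ((1 : ℕ) : ℝ) = 1 / 2
    rw [Nat.cast_one]
    exact c1n_one
  refine Gn.At.of e ⟨?_, ?_, ?_⟩
  · exact h1.trans (by norm_num)
  · exact h2.trans (by simp only [c0N, c0n]; push_cast; ring)
  · exact h3

theorem gatN10 (x : ℝ) : gN1q0.At ((0 : ℕ) : ℝ) (((2 : ℕ) : ℝ) / 2) (c0N.v x) x := by
  obtain ⟨h1, h2, h3⟩ := corN10 x
  have e : cR gN1q0.cc ((0 : ℕ) : ℝ) = 0 := by
    show ((0 : ℕ) : ℝ) = 0
    norm_num
  refine Gn.At.of e ⟨?_, ?_, ?_⟩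
  · exact h1.trans (by norm_num)
  · exact h2.trans (by simp only [c0N, c0n]; push_cast; ring)
  · exact h3

theorem gatN12 (x : ℝ) : gN1q2.At ((1 : ℕ) : ℝ) (((1 : ℕ) : ℝ) / 2) (c0N.v x) x := by
  obtain ⟨h1, h2, h3⟩ := corN12 x
  have e : cR gN1q2.cc ((1 : ℕ) : ℝ) = 1 := by
    show ((1 : ℕ) : ℝ) = 1
    norm_num
  refine Gn.At.of e ⟨?_, ?_, ?_⟩
  · exact h1.trans (by norm_num)
  · exact h2.trans (by simp only [c0N, c0n]; push_cast; ring)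
  · exact h3

theorem gatN20 (x : ℝ) : gN2q0.At ((0 : ℕ) : ℝ) (((2 : ℕ) : ℝ) / 2) (c0N.v x) x := by
  obtain ⟨h1, h2, h3⟩ := corN20 x
  have e : cR gN2q0.cc ((0 : ℕ) : ℝ) = 0 := by
    show ((0 : ℕ) : ℝ) = 0
    norm_num
  refine Gn.At.of e ⟨?_, ?_, ?_⟩
  · exact h1.trans (by norm_num)
  · exact h2.trans (by simp only [c0N, c0n]; push_cast; ring)
  · exact h3

theorem gatN22 (x : ℝ) : gN2q2.At ((1 : ℕ) : ℝ) (((1 : ℕ) : ℝ) / 2) (c0N.v x) x := by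
  obtain ⟨h1, h2, h3⟩ := corN22 x
  have e : cR gN2q2.cc ((1 : ℕ) : ℝ) = 1 := by
    show ((1 : ℕ) : ℝ) = 1
    norm_num
  refine Gn.At.of e ⟨?_, ?_, ?_⟩
  · exact h1.trans (by norm_num)
  · exact h2.trans (by simp only [c0N, c0n]; push_cast; ring)
  · exact h3

theorem gatN31 (x : ℝ) : gN3q1.At ((1 : ℕ) : ℝ) (((3 : ℕ) : ℝ) / 2) (c0N.v x) x := by
  obtain ⟨h1, h2, h3⟩ := corN31 x
  have e : cR gN3q1.cc ((1 : ℕ) : ℝ) = 1 := by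
    show ((1 : ℕ) : ℝ) = 1
    norm_num
  refine Gn.At.of e ⟨?_, ?_, ?_⟩
  · exact h1.trans (by norm_num)
  · exact h2.trans (by simp only [c0N, c0n]; push_cast; ring)
  · exact h3

theorem gatN41 (x : ℝ) : gN4q1.At ((1 : ℕ) : ℝ) (((3 : ℕ) : ℝ) / 2) (c0N.v x) x := by
  obtain ⟨h1, h2, h3⟩ := corN41 x
  have e : cR gN4q1.cc ((1 : ℕ) : ℝ) = 1 := by
    show ((1 : ℕ) : ℝ) = 1
    norm_num
  refine Gn.At.of e ⟨?_, ?_, ?_⟩
  · exact h1.trans (by norm_num)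
  · exact h2.trans (by simp only [c0N, c0n]; push_cast; ring)
  · exact h3

theorem gatN51 (x : ℝ) : gN5q1.At ((1 : ℕ) : ℝ) (((3 : ℕ) : ℝ) / 2) (c0N.v x) x := by
  obtain ⟨h1, h2, h3⟩ := corN51 x
  have e : cR gN5q1.cc ((1 : ℕ) : ℝ) = 1 := by
    show ((1 : ℕ) : ℝ) = 1
    norm_num
  refine Gn.At.of e ⟨?_, ?_, ?_⟩
  · exact h1.trans (by norm_num)
  · exact h2.trans (by simp only [c0N, c0n]; push_cast; ring)
  · exact h3

theorem gatN52 (x : ℝ) : gN5q2.At ((1 : ℕ) : ℝ) (((3 : ℕ) : ℝ) / 2) (c0N.v x) x := by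
  obtain ⟨h1, h2, h3⟩ := corN52 x
  have e : cR gN5q2.cc ((1 : ℕ) : ℝ) = 1 := by
    show ((1 : ℕ) : ℝ) = 1
    norm_num
  refine Gn.At.of e ⟨?_, ?_, ?_⟩
  · exact h1.trans (by norm_num)
  · exact h2.trans (by simp only [c0N, c0n]; push_cast; ring)
  · exact h3

theorem gokN {x : ℝ} : GnOk PP tKN tL gN x := by
  refine GnOk.of fun j q y hq ho _ => ?_
  interval_cases q <;> fin_cases j
  · exact atN00 ho
  · exact atN10 ho
  · exact atN20 ho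
  · exact atN30 ho
  · exact atN40 ho
  · exact atN50 ho
  · exact atN01 ho
  · exact atN11 ho
  · exact atN21 ho
  · exact atN31 ho
  · exact atN41 ho
  · exact atN51 ho
  · exact atN02 ho
  · exact atN12 ho
  · exact atN22 ho
  · exact atN32 ho
  · exact atN42 ho
  · exact atN52 ho

end Pool.Agent.Strip051.G.I1_8_3_16.Tab
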