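import Pool.Agent.Strip051.PB.DgE
import Pool.Agent.Strip051.G.I1_8_3_16.Fact

/-! # The corner (1, 1, 2): parameters of the degenerate charts (generated) -/

set_option linter.all false

namespace Pool.Agent.Strip051.G.I1_8_3_16.Tab.DG

open Pool.Agent.Strip051.PB Pool.Agent.Strip051.PB.Dg Pool.Agent.StripNear Pool.Agent.Strip051.LC

noncomputable def pFma : Fn1 := ⟨_, _, fun h1 => (enc_norm (enc_add (enc_scale 8173047 38000000 (enc_subr 5 32 h1)) (enc_rat _ 335232557 7600000000)))⟩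
noncomputable def pFmb : Fn1 := ⟨_, _, fun h1 => (enc_norm (enc_sub (enc_rat _ 43611 8000000) (enc_scale 226089 1600000 (enc_subr 5 32 h1))))⟩
noncomputable def pFmu : Fn1 := ⟨_, _, fun h1 => (mug3.enc h1)⟩
noncomputable def pFnx : Fn1 := ⟨_, _, fun h1 => (enc_norm (enc_add h1 (enc_pnc _ 3)))⟩
noncomputable def pFc0 : Fn1 := ⟨_, _, fun h1 => (enc_pnc _ 1)⟩
noncomputable def pFkc : Fn1 := ⟨_, _, fun h1 => (enc_norm (enc_subr 8917 31250 (enc_scale 45373 50000 (enc_subr 5 32 h1))))⟩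
noncomputable def pFjc : Fn1 := ⟨_, _, fun h1 => (enc_norm (enc_sub (enc_rat _ 1117160053 2212000000) (enc_scale 22093148771 1990800000 (enc_subr 5 32 h1))))⟩
noncomputable def pFca : Fn1 := ⟨_, _, fun h1 => (enc_norm (enc_add (enc_scale 8673 5000 (enc_subr 5 32 h1)) (enc_rat _ 332763 1000000)))⟩
noncomputable def pFcb : Fn1 := ⟨_, _, fun h1 => (enc_norm (enc_subr 159707 500000 (enc_neg (enc_scale 185303 100000 (enc_subr 5 32 h1)))))⟩
noncomputable def pFcc : Fn1 := ⟨_, _, fun h1 => (enc_norm (enc_subr 348317 125000 (enc_scale 570543 100000 (enc_subr 5 32 h1))))⟩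
noncomputable def pFsv : Fn1 := ⟨_, _, fun h1 => (enc_norm (enc_subr 39843005 1073741824 h1))⟩
noncomputable def pFx11 : Fn1 := ⟨_, _, fun h1 => (cv1m.enc h1)⟩
noncomputable def pFx01 : Fn1 := ⟨_, _, fun h1 => (c1g.enc h1)⟩
noncomputable def pFK11 : Fn2 := ⟨_, _, fun h1 h2 => (kf1q1.enc h1 h2)⟩
noncomputable def pFK01 : Fn2 := ⟨_, _, fun h1 h2 => (kf0q1.enc h1 h2)⟩
noncomputable def pFL11 : Fn2 := ⟨_, _, fun h1 h2 => (l1q1.enc h1 h2)⟩
noncomputable def pFL01 : Fn2 := ⟨_, _, fun h1 h2 => (l0q1.enc h1 h2)⟩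
noncomputable def kFa0_2 : Fn1 := ⟨_, _, fun h1 => (enc_subr 5 32 h1)⟩
noncomputable def kFa0 : Fn1 := ⟨_, _, fun h1 => (enc_norm (enc_add (enc_mul (enc_norm (enc_subr 48542337844821 1636150040000000 (enc_neg (enc_scale 460218 486625 (kFa0_2.enc h1))))) (enc_norm (kFa0_2.enc h1))) (enc_rat _ 25000824599657 16361500400000000)))⟩
noncomputable def kFa0g : Fn1 := ⟨_, _, fun h1 => (enc_norm (enc_subr 363147 1000000 (enc_neg (enc_scale 319409 100000 (enc_subr 5 32 h1)))))⟩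
noncomputable def kFb0 : Fn1 := ⟨_, _, fun h1 => (enc_norm (enc_add (enc_scale 8357 230000000 (enc_subr 5 32 h1)) (enc_rat _ 727 50000000)))⟩
noncomputable def kFb0g : Fn1 := ⟨_, _, fun h1 => (enc_norm (enc_add (enc_scale 4599 25000 (enc_subr 5 32 h1)) (enc_rat _ 59 125000)))⟩
noncomputable def kFd0_2 : Fn1 := ⟨_, _, fun h1 => (enc_subr 5 32 h1)⟩
noncomputable def kFd0 : Fn1 := ⟨_, _, fun h1 => (enc_norm (enc_add (enc_mul (enc_norm (enc_subr 48542337844821 1636150040000000 (enc_neg (enc_scale 460218 486625 (kFd0_2.enc h1))))) (enc_norm (kFd0_2.enc h1))) (enc_rat _ 25000824599657 16361500400000000)))⟩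
noncomputable def kFd0g : Fn1 := ⟨_, _, fun h1 => (enc_norm (enc_subr 363147 1000000 (enc_neg (enc_scale 319409 100000 (enc_subr 5 32 h1)))))⟩
noncomputable def kFd1 : Fn1 := ⟨_, _, fun h1 => (enc_norm (enc_add (enc_scale 8357 115000000 (enc_subr 5 32 h1)) (enc_rat _ 727 25000000)))⟩
noncomputable def kFd1g : Fn1 := ⟨_, _, fun h1 => (enc_norm (enc_add (enc_scale 4599 12500 (enc_subr 5 32 h1)) (enc_rat _ 59 62500)))⟩
noncomputable def kFe0_2 : Fn1 := ⟨_, _, fun h1 => (enc_subr 5 32 h1)⟩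
noncomputable def kFe0 : Fn1 := ⟨_, _, fun h1 => (enc_norm (enc_add (enc_mul (enc_norm (enc_subr 48542337844821 1636150040000000 (enc_neg (enc_scale 460218 486625 (kFe0_2.enc h1))))) (enc_norm (kFe0_2.enc h1))) (enc_rat _ 25000824599657 16361500400000000)))⟩
noncomputable def kFe0g : Fn1 := ⟨_, _, fun h1 => (enc_norm (enc_subr 363147 1000000 (enc_neg (enc_scale 319409 100000 (enc_subr 5 32 h1)))))⟩
noncomputable def kFe1 : Fn1 := ⟨_, _, fun h1 => (enc_norm (enc_add (enc_scale 8357 230000000 (enc_subr 5 32 h1)) (enc_rat _ 727 50000000)))⟩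
noncomputable def kFe1g : Fn1 := ⟨_, _, fun h1 => (enc_norm (enc_add (enc_scale 4599 25000 (enc_subr 5 32 h1)) (enc_rat _ 59 125000)))⟩
noncomputable def cFxs1 : Fn1 := ⟨_, _, fun h1 => (enc_norm (enc_add (enc_half (dgxi.enc h1)) (enc_half (dgws.enc h1))))⟩
noncomputable def cFsB1_5 : Fn2 := ⟨_, _, fun h1 h2 => (enc_subr 5 32 h2)⟩
noncomputable def cFsB1 : Fn2 := ⟨_, _, fun h1 h2 => (enc_norm (enc_case (enc_subr 3 100 h1) (enc_sub (enc_rat _ 721 7500) (enc_scale 561 500 (cFsB1_5.enc h1 h2))) (enc_add (enc_sub (enc_rat _ 2231 15000) (enc_scale 511 500 (cFsB1_5.enc h1 h2))) (enc_mul (enc_norm (enc_subr 789 500000 (enc_neg (enc_scale 3 1000 (cFsB1_5.enc h1 h2))))) (enc_inv h1)))))⟩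
noncomputable def cFBs1 : Fn2 := ⟨_, _, fun h1 h2 => (cFsB1.enc h1 h2)⟩
noncomputable def cFsX1_5 : Fn2 := ⟨_, _, fun h1 h2 => (enc_subr 5 32 h2)⟩
noncomputable def cFsX1 : Fn2 := ⟨_, _, fun h1 h2 => (enc_norm (enc_case (enc_subr 3 100 h1) (enc_add (enc_scale 121 375 (cFsX1_5.enc h1 h2)) (enc_rat _ 1897 15000)) (enc_add (enc_add (enc_scale 949 1500 (cFsX1_5.enc h1 h2)) (enc_rat _ 1579 7500)) (enc_mul (enc_norm (enc_subr 1261 500000 (enc_neg (enc_scale 93 10000 (cFsX1_5.enc h1 h2))))) (enc_inv h1)))))⟩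
noncomputable def cFxs2 : Fn1 := ⟨_, _, fun h1 => (enc_norm (enc_add (enc_scale 1 10 (dgxi.enc h1)) (enc_scale 9 10 (dgws.enc h1))))⟩
noncomputable def cFsB2_5 : Fn2 := ⟨_, _, fun h1 h2 => (enc_subr 5 32 h2)⟩
noncomputable def cFsB2 : Fn2 := ⟨_, _, fun h1 h2 => (enc_norm (enc_case (enc_subr 3 100 h1) (enc_subr 1791 10000 (enc_neg (enc_scale 299 250 (cFsB2_5.enc h1 h2)))) (enc_add (enc_subr 2929 10000 (enc_neg (enc_scale 2683 3000 (cFsB2_5.enc h1 h2)))) (enc_mul (enc_norm (enc_sub (enc_rat _ 1707 500000) (enc_scale 181 20000 (cFsB2_5.enc h1 h2)))) (enc_inv h1)))))⟩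
noncomputable def cFBs2 : Fn2 := ⟨_, _, fun h1 h2 => (cFsB2.enc h1 h2)⟩
noncomputable def cFsX2_5 : Fn2 := ⟨_, _, fun h1 h2 => (enc_subr 5 32 h2)⟩
noncomputable def cFsX2 : Fn2 := ⟨_, _, fun h1 h2 => (enc_norm (enc_case (enc_subr 3 100 h1) (enc_add (enc_scale 227 600 (cFsX2_5.enc h1 h2)) (enc_rat _ 33 400)) (enc_add (enc_add (enc_scale 262 375 (cFsX2_5.enc h1 h2)) (enc_rat _ 151 1200)) (enc_mul (enc_norm (enc_subr 13 10000 (enc_neg (enc_scale 961 100000 (cFsX2_5.enc h1 h2))))) (enc_inv h1)))))⟩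
noncomputable def nFsc2 : Fn1 := ⟨_, _, fun h1 => (enc_scale 9 10 h1)⟩
noncomputable def nFBv2 : Fn1 := ⟨_, _, fun h1 => (enc_norm (enc_sub (enc_rat _ 657561 1000000) (enc_scale 47441 25000 (enc_subr 5 32 h1))))⟩
noncomputable def nFBm2 : Fn1 := ⟨_, _, fun h1 => (enc_norm (enc_add (enc_scale 1499 50000 (enc_subr 5 32 h1)) (enc_rat _ 1097 100000)))⟩
noncomputable def nFXv2 : Fn1 := ⟨_, _, fun h1 => (enc_norm (enc_add (enc_scale 39677 100000 (enc_subr 5 32 h1)) (enc_rat _ 97851 1000000)))⟩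
noncomputable def nFXm2 : Fn1 := ⟨_, _, fun h1 => (enc_norm (enc_sub (enc_rat _ 61 20000) (enc_scale 7139 25000 (enc_subr 5 32 h1))))⟩
noncomputable def nFsc3 : Fn1 := ⟨_, _, fun h1 => (enc_norm (enc_add (enc_scale 4 5 h1) (enc_rat _ 1 5)))⟩
noncomputable def nFBv3 : Fn1 := ⟨_, _, fun h1 => (enc_rat _ 1 2)⟩
noncomputable def nFBm3 : Fn1 := ⟨_, _, fun h1 => (enc_norm (enc_add (enc_scale 2667 12500 (enc_subr 5 32 h1)) (enc_rat _ 31547 250000)))⟩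
noncomputable def nFXv3 : Fn1 := ⟨_, _, fun h1 => (enc_norm (enc_subr 418093457 15200000000 (enc_scale 5132361 152000000 (enc_subr 5 32 h1))))⟩
noncomputable def nFXm3 : Fn1 := ⟨_, _, fun h1 => (enc_norm (enc_subr 1293811057 7600000000 (enc_neg (enc_scale 52819159 76000000 (enc_subr 5 32 h1)))))⟩
noncomputable def nFsc4 : Fn1 := ⟨_, _, fun h1 => (enc_norm (enc_add (enc_scale 2 5 h1) (enc_rat _ 3 5)))⟩
noncomputable def nFBv4 : Fn1 := ⟨_, _, fun h1 => (enc_rat _ 1 2)⟩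
noncomputable def nFBm4 : Fn1 := ⟨_, _, fun h1 => (enc_norm (enc_add (enc_scale 20271 25000 (enc_subr 5 32 h1)) (enc_rat _ 4749 12500)))⟩
noncomputable def nFXv4 : Fn1 := ⟨_, _, fun h1 => (enc_norm (enc_subr 418093457 15200000000 (enc_scale 5132361 152000000 (enc_subr 5 32 h1))))⟩
noncomputable def nFXm4 : Fn1 := ⟨_, _, fun h1 => (enc_norm (enc_subr 1233771057 7600000000 (enc_scale 37289481 76000000 (enc_subr 5 32 h1))))⟩
noncomputable def l12F : List Knk := []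
noncomputable def laF : List Knk := [⟨19, 400, kFa0, kFa0g⟩]
noncomputable def lbF : List Knk := [⟨1, 16, kFb0, kFb0g⟩]
noncomputable def l1F : List Knk := [⟨19, 400, kFe0, kFe0g⟩, ⟨1, 16, kFe1, kFe1g⟩]
noncomputable def l2F : List Knk := [⟨19, 400, kFd0, kFd0g⟩, ⟨1, 16, kFd1, kFd1g⟩]
noncomputable def cvF1 : CvP := ⟨cFxs1, cFBs1, cFsX1⟩
noncomputable def cvF2 : CvP := ⟨cFxs2, cFBs2, cFsX2⟩
noncomputable def ndFP2 : NdP := ⟨nFsc2, nFBv2, nFBm2, nFXv2, nFXm2⟩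
noncomputable def ndFP3 : NdP := ⟨nFsc3, nFBv3, nFBm3, nFXv3, nFXm3⟩
noncomputable def ndFP4 : NdP := ⟨nFsc4, nFBv4, nFBm4, nFXv4, nFXm4⟩
noncomputable def pF : Pm := ⟨pFma, pFmb, pFmu, pFnx, pFc0, pFkc, pFjc, pFkc, pFjc, pFkc, pFjc, pFca, pFcb, pFcc, pFcc, pFcc, pFsv, l12F, l12F, l12F, laF, lbF, l1F, l2F, cvF1, pFx11, pFx01, pFK11, pFK01, pFL11, pFL01⟩
noncomputable def pNc0 : Fn1 := ⟨_, _, fun h1 => (enc_norm (enc_add (enc_pnc _ 1) (enc_mul (mug3.enc h1) (gug.enc h1))))⟩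
noncomputable def pNk12_3 : Fn1 := ⟨_, _, fun h1 => (enc_subr 5 32 h1)⟩
noncomputable def pNk12 : Fn1 := ⟨_, _, fun h1 => (enc_norm (enc_add (enc_mul (pNc0.enc h1) (enc_norm (enc_subr 8917 31250 (enc_scale 45373 50000 (pNk12_3.enc h1))))) (enc_mul (pFmu.enc h1) (enc_norm (enc_subr 112049 250000 (enc_scale 1037 12500 (pNk12_3.enc h1)))))))⟩
noncomputable def pNj12_3 : Fn1 := ⟨_, _, fun h1 => (enc_subr 5 32 h1)⟩
noncomputable def pNj12 : Fn1 := ⟨_, _, fun h1 => (enc_norm (enc_add (enc_mul (pNc0.enc h1) (enc_norm (enc_sub (enc_rat _ 1117160053 2212000000) (enc_scale 22093148771 1990800000 (pNj12_3.enc h1))))) (enc_mul (pFmu.enc h1) (enc_norm (enc_sub (enc_rat _ 807445671749 595000000000) (enc_scale 453317499991 297500000000 (pNj12_3.enc h1)))))))⟩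
noncomputable def pNk23_3 : Fn1 := ⟨_, _, fun h1 => (enc_subr 5 32 h1)⟩
noncomputable def pNk23 : Fn1 := ⟨_, _, fun h1 => (enc_norm (enc_add (enc_mul (pNc0.enc h1) (enc_norm (enc_subr 8917 31250 (enc_scale 45373 50000 (pNk23_3.enc h1))))) (enc_mul (pFmu.enc h1) (enc_norm (enc_subr 112049 250000 (enc_scale 1037 12500 (pNk23_3.enc h1)))))))⟩
noncomputable def pNj23_3 : Fn1 := ⟨_, _, fun h1 => (enc_subr 5 32 h1)⟩
noncomputable def pNj23 : Fn1 := ⟨_, _, fun h1 => (enc_norm (enc_add (enc_mul (pNc0.enc h1) (enc_norm (enc_sub (enc_rat _ 1117160053 2212000000) (enc_scale 22093148771 1990800000 (pNj23_3.enc h1))))) (enc_mul (pFmu.enc h1) (enc_norm (enc_sub (enc_rat _ 360171 400000) (enc_scale 7209 40000 (pNj23_3.enc h1)))))))⟩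
noncomputable def pNk13_3 : Fn1 := ⟨_, _, fun h1 => (enc_subr 5 32 h1)⟩
noncomputable def pNk13 : Fn1 := ⟨_, _, fun h1 => (enc_norm (enc_add (enc_mul (pNc0.enc h1) (enc_norm (enc_subr 8917 31250 (enc_scale 45373 50000 (pNk13_3.enc h1))))) (enc_mul (pFmu.enc h1) (enc_norm (enc_add (enc_scale 63181 50000 (pNk13_3.enc h1)) (enc_rat _ 696851 1000000))))))⟩
noncomputable def pNj13_3 : Fn1 := ⟨_, _, fun h1 => (enc_subr 5 32 h1)⟩
noncomputable def pNj13 : Fn1 := ⟨_, _, fun h1 => (enc_norm (enc_add (enc_mul (pNc0.enc h1) (enc_norm (enc_sub (enc_rat _ 1117160053 2212000000) (enc_scale 22093148771 1990800000 (pNj13_3.enc h1))))) (enc_mul (pFmu.enc h1) (enc_norm (enc_subr 49731 200000 (enc_neg (enc_scale 67329 50000 (pNj13_3.enc h1))))))))⟩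
noncomputable def pNc12 : Fn1 := ⟨_, _, fun h1 => (enc_norm (enc_mul (pNc0.enc h1) (enc_norm (enc_subr 348317 125000 (enc_scale 570543 100000 (enc_subr 5 32 h1))))))⟩
noncomputable def pNc23 : Fn1 := ⟨_, _, fun h1 => (enc_norm (enc_mul (pNc0.enc h1) (enc_norm (enc_subr 348317 125000 (enc_scale 570543 100000 (enc_subr 5 32 h1))))))⟩
noncomputable def pNc13 : Fn1 := ⟨_, _, fun h1 => (enc_norm (enc_mul (pNc0.enc h1) (enc_norm (enc_subr 348317 125000 (enc_scale 570543 100000 (enc_subr 5 32 h1))))))⟩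
noncomputable def pNK11 : Fn2 := ⟨_, _, fun h1 h2 => (kn1q1.enc h1 h2)⟩
noncomputable def pNK01 : Fn2 := ⟨_, _, fun h1 h2 => (kn0q1.enc h1 h2)⟩
noncomputable def cNsD1_5 : Fn2 := ⟨_, _, fun h1 h2 => (enc_subr 5 32 h2)⟩
noncomputable def cNsD1 : Fn2 := ⟨_, _, fun h1 h2 => (enc_norm (enc_case (enc_subr 3 100 h1) (enc_sub (enc_rat _ 209 240) (enc_scale 141 1000 (cNsD1_5.enc h1 h2))) (enc_add (enc_sub (enc_rat _ 26347 30000) (enc_scale 29 250 (cNsD1_5.enc h1 h2))) (enc_mul (enc_norm (enc_subr 111 500000 (enc_neg (enc_scale 3 4000 (cNsD1_5.enc h1 h2))))) (enc_inv h1)))))⟩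
noncomputable def cNBs1 : Fn2 := ⟨_, _, fun h1 h2 => (enc_norm (enc_add (enc_mul (pNc0.enc h2) (cFsB1.enc h1 h2)) (enc_mul (pFmu.enc h2) (cNsD1.enc h1 h2))))⟩
noncomputable def cNsD2_5 : Fn2 := ⟨_, _, fun h1 h2 => (enc_subr 5 32 h2)⟩
noncomputable def cNsD2 : Fn2 := ⟨_, _, fun h1 h2 => (enc_norm (enc_case (enc_subr 3 100 h1) (enc_add (enc_scale 97 75 (cNsD2_5.enc h1 h2)) (enc_rat _ 2789 5000)) (enc_add (enc_add (enc_scale 1927 1500 (cNsD2_5.enc h1 h2)) (enc_rat _ 5549 10000)) (enc_mul (enc_norm (enc_add (enc_scale 13 50000 (cNsD2_5.enc h1 h2)) (enc_rat _ 87 1000000))) (enc_inv h1)))))⟩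
noncomputable def cNBs2 : Fn2 := ⟨_, _, fun h1 h2 => (enc_norm (enc_add (enc_mul (pNc0.enc h2) (cFsB2.enc h1 h2)) (enc_mul (pFmu.enc h2) (cNsD2.enc h1 h2))))⟩
noncomputable def nNBv2_3 : Fn1 := ⟨_, _, fun h1 => (enc_subr 5 32 h1)⟩
noncomputable def nNBv2 : Fn1 := ⟨_, _, fun h1 => (enc_norm (enc_add (enc_mul (pNc0.enc h1) (enc_norm (enc_sub (enc_rat _ 657561 1000000) (enc_scale 47441 25000 (nNBv2_3.enc h1))))) (enc_mul (pFmu.enc h1) (enc_norm (enc_subr 95131 1000000 (enc_neg (enc_scale 52883 100000 (nNBv2_3.enc h1))))))))⟩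
noncomputable def nNBm2_3 : Fn1 := ⟨_, _, fun h1 => (enc_subr 5 32 h1)⟩
noncomputable def nNBm2 : Fn1 := ⟨_, _, fun h1 => (enc_norm (enc_add (enc_mul (pNc0.enc h1) (enc_norm (enc_add (enc_scale 1499 50000 (nNBm2_3.enc h1)) (enc_rat _ 1097 100000)))) (enc_mul (pFmu.enc h1) (enc_norm (enc_add (enc_scale 9 1250 (nNBm2_3.enc h1)) (enc_rat _ 1061 250000))))))⟩
noncomputable def nNBv3 : Fn1 := ⟨_, _, fun h1 => (enc_half (pNc0.enc h1))⟩
noncomputable def nNBm3_3 : Fn1 := ⟨_, _, fun h1 => (enc_subr 5 32 h1)⟩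
noncomputable def nNBm3 : Fn1 := ⟨_, _, fun h1 => (enc_norm (enc_add (enc_mul (pNc0.enc h1) (enc_norm (enc_add (enc_scale 2667 12500 (nNBm3_3.enc h1)) (enc_rat _ 31547 250000)))) (enc_mul (pFmu.enc h1) (enc_norm (enc_add (enc_scale 687 12500 (nNBm3_3.enc h1)) (enc_rat _ 1863 50000))))))⟩
noncomputable def nNBv4 : Fn1 := ⟨_, _, fun h1 => (enc_half (pNc0.enc h1))⟩
noncomputable def nNBm4_3 : Fn1 := ⟨_, _, fun h1 => (enc_subr 5 32 h1)⟩
noncomputable def nNBm4 : Fn1 := ⟨_, _, fun h1 => (enc_norm (enc_add (enc_mul (pNc0.enc h1) (enc_norm (enc_add (enc_scale 20271 25000 (nNBm4_3.enc h1)) (enc_rat _ 4749 12500)))) (enc_mul (pFmu.enc h1) (enc_norm (enc_add (enc_scale 764 3125 (nNBm4_3.enc h1)) (enc_rat _ 78511 500000))))))⟩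
noncomputable def l12N : List Knk := []
noncomputable def l23N : List Knk := []
noncomputable def l13N : List Knk := []
noncomputable def cvN1 : CvP := ⟨cFxs1, cNBs1, cFsX1⟩
noncomputable def cvN2 : CvP := ⟨cFxs2, cNBs2, cFsX2⟩
noncomputable def ndNP2 : NdP := ⟨nFsc2, nNBv2, nNBm2, nFXv2, nFXm2⟩
noncomputable def ndNP3 : NdP := ⟨nFsc3, nNBv3, nNBm3, nFXv3, nFXm3⟩
noncomputable def ndNP4 : NdP := ⟨nFsc4, nNBv4, nNBm4, nFXv4, nFXm4⟩
noncomputable def pN : Pm := ⟨pFma, pFmb, pFmu, pFnx, pNc0, pNk12, pNj12, pNk23, pNj23, pNk13, pNj13, pFca, pFcb, pNc12, pNc23, pNc13, pFsv, l12N, l23N, l13N, laF, lbF, l1F, l2F, cvN1, pFx11, pFx01, pNK11, pNK01, pFL11, pFL01⟩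

end Pool.Agent.Strip051.G.I1_8_3_16.Tab.DG
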