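import Pool.Agent.Strip051.PB.FlAsm
import Pool.Agent.Strip051.G.I1_8_3_16.Tab

/-! # Slopes (generated) -/

set_option linter.all false

namespace Pool.Agent.Strip051.G.I1_8_3_16.Tab

open Pool.Agent.Strip051.PB

attribute [local irreducible] padd psub pneg pmul psq pinv psqrt psqrtg pabs pps pmax pmin pphi
  plam pcase phf pnat prat pscale pnorm pdc pnc pone ppos pnn

noncomputable def c1g_fs : Sl1 c1g := ⟨_, fun h1 => (pr_sqrtg (pr_csub (enc_pnc _ 1) (pr_scale 3 4 (pr_sq h1))))⟩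
noncomputable def kcg_6_fs : Sl2 kcg_6 := ⟨_, fun h1 h2 => (pr_addc h1 (enc_rat _ 1 4))⟩
noncomputable def kcg_9_fs : Sl2 kcg_9 := ⟨_, fun h1 h2 => (pr_addc h1 (enc_rat _ 37 100))⟩
noncomputable def kcg_12_fs : Sl2 kcg_12 := ⟨_, fun h1 h2 => (pr_addc h1 (enc_rat _ 481 1106))⟩
noncomputable def kcg_13_fs : Sl2 kcg_13 := ⟨_, fun h1 h2 => (pr_scale 1294573 4000000 h1)⟩
noncomputable def kcg_17_fs : Sl2 kcg_17 := ⟨_, fun h1 h2 => (pr_scale 38614331 3600000 h1)⟩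
noncomputable def kcg_34_fs : Sl2 kcg_34 := ⟨_, fun h1 h2 => (pr_scale 1701581 7178000 h1)⟩
noncomputable def kcg_38_fs : Sl2 kcg_38 := ⟨_, fun h1 h2 => (pr_scale 582309 71780 h1)⟩
noncomputable def kcg_54_fs : Sl2 kcg_54 := ⟨_, fun h1 h2 => (pr_addc h1 (enc_rat _ 23 73))⟩
noncomputable def kcg_55_fs : Sl2 kcg_55 := ⟨_, fun h1 h2 => (pr_scale 2044949 4010000 h1)⟩
noncomputable def kcg_59_fs : Sl2 kcg_59 := ⟨_, fun h1 h2 => (pr_scale 796357 200500 h1)⟩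
noncomputable def kcg_72_fs : Sl2 kcg_72 := ⟨_, fun h1 h2 => (pr_scale 104463 125000 h1)⟩
noncomputable def kcg_77_fs : Sl2 kcg_77 := ⟨_, fun h1 h2 => (pr_scale 73657 475000 h1)⟩
noncomputable def kcg_95_fs : Sl2 kcg_95 := ⟨_, fun h1 h2 => (pr_addc h1 (enc_rat _ 29 200))⟩
noncomputable def kcg_98_fs : Sl2 kcg_98 := ⟨_, fun h1 h2 => (pr_addc h1 (enc_rat _ 19 100))⟩
noncomputable def kcg_99_fs : Sl2 kcg_99 := ⟨_, fun h1 h2 => (pr_scale 20183 20000 h1)⟩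
noncomputable def kcg_104_fs : Sl2 kcg_104 := ⟨_, fun h1 h2 => (pr_scale 20309 6000 h1)⟩
noncomputable def kcg_119_fs : Sl2 kcg_119 := ⟨_, fun h1 h2 => (pr_scale 14617 15000 h1)⟩
noncomputable def kcg_124_fs : Sl2 kcg_124 := ⟨_, fun h1 h2 => (pr_scale 19309 4500 h1)⟩
noncomputable def kcg_145_fs : Sl2 kcg_145 := ⟨_, fun h1 h2 => (pr_addc h1 (enc_rat _ 1 10))⟩
noncomputable def kcg_146_fs : Sl2 kcg_146 := ⟨_, fun h1 h2 => (pr_scale 8837 11250 h1)⟩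
noncomputable def kcg_151_fs : Sl2 kcg_151 := ⟨_, fun h1 h2 => (pr_scale 387 125 h1)⟩
noncomputable def kcg_172_fs : Sl2 kcg_172 := ⟨_, fun h1 h2 => (pr_scale 313 750 h1)⟩
noncomputable def kcg_177_fs : Sl2 kcg_177 := ⟨_, fun h1 h2 => (pr_scale 2647 3750 h1)⟩
noncomputable def kcg_195_fs : Sl2 kcg_195 := ⟨_, fun h1 h2 => (pr_scale 11101 62500 h1)⟩
noncomputable def kcg_199_fs : Sl2 kcg_199 := ⟨_, fun h1 h2 => (pr_cmul (enc_norm (kcg_3.enc h1.l h2)) (pr_nd (pr_scale 3657 6250 h1)))⟩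
noncomputable def kcg_206_fs : Sl2 kcg_206 := ⟨_, fun h1 h2 => (pr_csub (enc_rat _ 1 4) h1)⟩
noncomputable def kcg_207_fs : Sl2 kcg_207 := ⟨_, fun h1 h2 => (pr_csub (enc_rat _ 37 100) h1)⟩
noncomputable def kcg_208_fs : Sl2 kcg_208 := ⟨_, fun h1 h2 => (pr_csub (enc_rat _ 481 1106) h1)⟩
noncomputable def kcg_229_fs : Sl2 kcg_229 := ⟨_, fun h1 h2 => (pr_csub (enc_rat _ 23 73) h1)⟩
noncomputable def kcg_249_fs : Sl2 kcg_249 := ⟨_, fun h1 h2 => (pr_csub (enc_rat _ 29 200) h1)⟩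
noncomputable def kcg_250_fs : Sl2 kcg_250 := ⟨_, fun h1 h2 => (pr_csub (enc_rat _ 19 100) h1)⟩
noncomputable def kcg_268_fs : Sl2 kcg_268 := ⟨_, fun h1 h2 => (pr_csub (enc_rat _ 1 10) h1)⟩
noncomputable def kcg_fs : Sl2 kcg := ⟨_, fun h1 h2 => (pr_norm (pr_case h1 (pr_case (kcg_6_fs.snd h1 h2) (pr_case (kcg_9_fs.snd h1 h2) (pr_case (kcg_12_fs.snd h1 h2) (pr_add (pr_add (pr_csub (enc_rat _ 988179 8000000) (kcg_13_fs.snd h1 h2)) (pr_cmul (enc_norm (kcg_3.enc h1.l h2)) (pr_norm (pr_addc (kcg_17_fs.snd h1 h2) (enc_rat _ 32080619 7200000))))) (pr_cmul (enc_norm (kcg_26.enc h1.l h2)) (pr_norm (pr_mul (pr_norm (pr_addc h1 (enc_rat _ 1 2))) (pr_norm (pr_csub (enc_neg (enc_rat _ 481 1106)) h1)))))) (pr_add (pr_add (pr_csub (enc_rat _ 625377 3880000) (kcg_34_fs.snd h1 h2)) (pr_cmul (enc_norm (kcg_3.enc h1.l h2)) (pr_norm (pr_addc (kcg_38_fs.snd h1 h2) (enc_rat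 _ 32193357 9700000))))) (pr_cmul (enc_norm (kcg_46.enc h1.l h2)) (pr_norm (pr_mul (pr_norm (kcg_12_fs.snd h1 h2)) (pr_norm (pr_csub (enc_neg (enc_rat _ 37 100)) h1))))))) (pr_case (kcg_54_fs.snd h1 h2) (pr_add (pr_add (pr_csub (enc_rat _ 24141777 401000000) (kcg_55_fs.snd h1 h2)) (pr_cmul (enc_norm (kcg_3.enc h1.l h2)) (pr_norm (pr_addc (kcg_59_fs.snd h1 h2) (enc_rat _ 71654549 40100000))))) (pr_cmul (enc_norm (kcg_67.enc h1.l h2)) (pr_norm (pr_mul (pr_norm (kcg_9_fs.snd h1 h2)) (pr_norm (pr_csub (enc_neg (enc_rat _ 23 73)) h1)))))) (pr_add (pr_add (pr_subr 42427 1000000 (pr_neg (kcg_72_fs.snd h1 h2))) (pr_cmul (enc_norm (kcg_3.enc h1.l h2)) (pr_norm (pr_csub (enc_rat _ 924603 1900000) (kcg_77_fs.snd h1 h2))))) (pr_cmul (enc_norm (kcg_86.enc h1.l h2)) (pr_norm (pr_mul (pr_norm (kcg_54_fs.snd h1 h2)) (pr_norm (pr_csub (enc_neg (enc_rat _ 1 4)) h1))))))))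 (pr_case (kcg_95_fs.snd h1 h2) (pr_case (kcg_98_fs.snd h1 h2) (pr_add (pr_add (pr_subr 171577 2000000 (pr_neg (kcg_99_fs.snd h1 h2))) (pr_cmul (enc_norm (kcg_3.enc h1.l h2)) (pr_norm (pr_subr 38497 120000 (pr_neg (kcg_104_fs.snd h1 h2)))))) (pr_cmul (enc_norm (kcg_114.enc h1.l h2)) (pr_norm (pr_mul (pr_norm (kcg_6_fs.snd h1 h2)) (pr_norm (pr_csub (enc_neg (enc_rat _ 19 100)) h1)))))) (pr_add (pr_add (pr_subr 59399 750000 (pr_neg (kcg_119_fs.snd h1 h2))) (pr_cmul (enc_norm (kcg_3.enc h1.l h2)) (pr_norm (pr_subr 443663 900000 (pr_neg (kcg_124_fs.snd h1 h2)))))) (pr_cmul (enc_norm (kcg_137.enc h1.l h2)) (pr_norm (pr_mul (pr_norm (kcg_98_fs.snd h1 h2)) (pr_norm (pr_csub (enc_neg (enc_rat _ 29 200)) h1))))))) (pr_case (kcg_145_fs.snd h1 h2) (pr_add (pr_add (pr_subr 466201 9000000 (pr_neg (kcg_146_fs.snd h1 h2))) (pr_cmul (enc_norm (kcg_3.enc h1.l h2)) (pr_norm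 (pr_subr 3197 10000 (pr_neg (kcg_151_fs.snd h1 h2)))))) (pr_cmul (enc_norm (kcg_164.enc h1.l h2)) (pr_norm (pr_mul (pr_norm (kcg_95_fs.snd h1 h2)) (pr_norm (pr_csub (enc_neg (enc_rat _ 1 10)) h1)))))) (pr_case (pr_addc h1 (enc_rat _ 1 16)) (pr_add (pr_add (pr_subr 44947 3000000 (pr_neg (kcg_172_fs.snd h1 h2))) (pr_cmul (enc_norm (kcg_3.enc h1.l h2)) (pr_norm (pr_subr 12103 150000 (pr_neg (kcg_177_fs.snd h1 h2)))))) (pr_cmul (enc_norm (kcg_190.enc h1.l h2)) (pr_norm (pr_mul (pr_norm (kcg_145_fs.snd h1 h2)) (pr_norm (pr_csub (enc_neg (enc_rat _ 1 16)) h1)))))) (pr_sub (kcg_199_fs.snd h1 h2) (kcg_195_fs.snd h1 h2)))))) (pr_neg (pr_case (kcg_206_fs.snd h1 h2) (pr_case (kcg_207_fs.snd h1 h2) (pr_case (kcg_208_fs.snd h1 h2) (pr_add (pr_add (pr_addc (kcg_13_fs.snd h1 h2) (enc_rat _ 988179 8000000)) (pr_cmul (enc_norm (kcg_3.enc h1.l h2)) (pr_norm (pr_csub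 (enc_rat _ 32080619 7200000) (kcg_17_fs.snd h1 h2))))) (pr_cmul (enc_norm (kcg_26.enc h1.l h2)) (pr_norm (pr_mul (pr_norm (pr_csub (enc_rat _ 1 2) h1)) (pr_norm (pr_subr 481 1106 h1)))))) (pr_add (pr_add (pr_addc (kcg_34_fs.snd h1 h2) (enc_rat _ 625377 3880000)) (pr_cmul (enc_norm (kcg_3.enc h1.l h2)) (pr_norm (pr_csub (enc_rat _ 32193357 9700000) (kcg_38_fs.snd h1 h2))))) (pr_cmul (enc_norm (kcg_46.enc h1.l h2)) (pr_norm (pr_mul (pr_norm (kcg_208_fs.snd h1 h2)) (pr_norm (pr_subr 37 100 h1))))))) (pr_case (kcg_229_fs.snd h1 h2) (pr_add (pr_add (pr_addc (kcg_55_fs.snd h1 h2) (enc_rat _ 24141777 401000000)) (pr_cmul (enc_norm (kcg_3.enc h1.l h2)) (pr_norm (pr_csub (enc_rat _ 71654549 40100000) (kcg_59_fs.snd h1 h2))))) (pr_cmul (enc_norm (kcg_67.enc h1.l h2)) (pr_norm (pr_mul (pr_norm (kcg_207_fs.snd h1 h2)) (pr_norm (pr_subr 23 73 h1)))))) (pr_add (pr_add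 (pr_subr 42427 1000000 (kcg_72_fs.snd h1 h2)) (pr_cmul (enc_norm (kcg_3.enc h1.l h2)) (pr_norm (pr_addc (kcg_77_fs.snd h1 h2) (enc_rat _ 924603 1900000))))) (pr_cmul (enc_norm (kcg_86.enc h1.l h2)) (pr_norm (pr_mul (pr_norm (kcg_229_fs.snd h1 h2)) (pr_norm (pr_subr 1 4 h1)))))))) (pr_case (kcg_249_fs.snd h1 h2) (pr_case (kcg_250_fs.snd h1 h2) (pr_add (pr_add (pr_subr 171577 2000000 (kcg_99_fs.snd h1 h2)) (pr_cmul (enc_norm (kcg_3.enc h1.l h2)) (pr_norm (pr_subr 38497 120000 (kcg_104_fs.snd h1 h2))))) (pr_cmul (enc_norm (kcg_114.enc h1.l h2)) (pr_norm (pr_mul (pr_norm (kcg_206_fs.snd h1 h2)) (pr_norm (pr_subr 19 100 h1)))))) (pr_add (pr_add (pr_subr 59399 750000 (kcg_119_fs.snd h1 h2)) (pr_cmul (enc_norm (kcg_3.enc h1.l h2)) (pr_norm (pr_subr 443663 900000 (kcg_124_fs.snd h1 h2))))) (pr_cmul (enc_norm (kcg_137.enc h1.l h2)) (pr_norm (pr_mul (pr_norm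 (kcg_250_fs.snd h1 h2)) (pr_norm (pr_subr 29 200 h1))))))) (pr_case (kcg_268_fs.snd h1 h2) (pr_add (pr_add (pr_subr 466201 9000000 (kcg_146_fs.snd h1 h2)) (pr_cmul (enc_norm (kcg_3.enc h1.l h2)) (pr_norm (pr_subr 3197 10000 (kcg_151_fs.snd h1 h2))))) (pr_cmul (enc_norm (kcg_164.enc h1.l h2)) (pr_norm (pr_mul (pr_norm (kcg_249_fs.snd h1 h2)) (pr_norm (pr_subr 1 10 h1)))))) (pr_case (pr_csub (enc_rat _ 1 16) h1) (pr_add (pr_add (pr_subr 44947 3000000 (kcg_172_fs.snd h1 h2)) (pr_cmul (enc_norm (kcg_3.enc h1.l h2)) (pr_norm (pr_subr 12103 150000 (kcg_177_fs.snd h1 h2))))) (pr_cmul (enc_norm (kcg_190.enc h1.l h2)) (pr_norm (pr_mul (pr_norm (kcg_268_fs.snd h1 h2)) (pr_norm (pr_subr 1 16 h1)))))) (pr_sub (kcg_195_fs.snd h1 h2) (kcg_199_fs.snd h1 h2)))))))))⟩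
noncomputable def kf0q0_9_fs : Sl2 kf0q0_9 := ⟨_, fun h1 h2 => (pr_scale 3 2 h1)⟩
noncomputable def kf0q0_12_fs : Sl2 kf0q0_12 := ⟨_, fun h1 h2 => (pr_cadd (enc_pnc _ 1) (c1g_fs.snd h1))⟩
noncomputable def kf0q0_fs : Sl2 kf0q0 := ⟨_, fun h1 h2 => (pr_norm (pr_add (pr_mul (pr_norm (pr_mul (pr_norm (pr_sub (c1g_fs.snd h1) (kf0q0_9_fs.snd h1 h2))) (pr_norm (kf0q0_12_fs.snd h1 h2)))) (pr_nd (pr_inv (pr_sub (kf0q0_12_fs.snd h1 h2) (kf0q0_9_fs.snd h1 h2))))) (pr_mul h1 (kcg_fs.snd (pr_norm (pr_sub (pr_scale 3 4 h1) (pr_half (c1g_fs.snd h1)))) h2))))⟩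
noncomputable def txg_6_fs : Sl3 txg_6 := ⟨_, fun h1 h2 h3 => (pr_add h1 (pr_half h2))⟩
noncomputable def txg_27_fs : Sl3 txg_27 := ⟨_, fun h1 h2 h3 => (pr_addc h1 (enc_rat _ 181 400))⟩
noncomputable def txg_77_fs : Sl3 txg_77 := ⟨_, fun h1 h2 h3 => (pr_addc h1 (enc_rat _ 23 73))⟩
noncomputable def txg_79_fs : Sl3 txg_79 := ⟨_, fun h1 h2 h3 => (pr_subr 1 16 h1)⟩
noncomputable def txg_82_fs : Sl3 txg_82 := ⟨_, fun h1 h2 h3 => (pr_addc h1 (enc_rat _ 3 20))⟩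
noncomputable def txg_85_fs : Sl3 txg_85 := ⟨_, fun h1 h2 h3 => (pr_addc h1 (enc_rat _ 27 100))⟩
noncomputable def txg_114_fs : Sl3 txg_114 := ⟨_, fun h1 h2 h3 => (pr_addc h1 (enc_rat _ 1 5))⟩
noncomputable def txg_153_fs : Sl3 txg_153 := ⟨_, fun h1 h2 h3 => (pr_addc h1 (enc_rat _ 1 10))⟩
noncomputable def txg_171_fs : Sl3 txg_171 := ⟨_, fun h1 h2 h3 => (pr_addc h1 (enc_rat _ 1 16))⟩
noncomputable def txg_213_fs : Sl3 txg_213 := ⟨_, fun h1 h2 h3 => (pr_subr 1 4 h1)⟩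
noncomputable def txg_215_fs : Sl3 txg_215 := ⟨_, fun h1 h2 h3 => (pr_subr 3 25 h1)⟩
noncomputable def txg_237_fs : Sl3 txg_237 := ⟨_, fun h1 h2 h3 => (pr_subr 9 50 h1)⟩
noncomputable def txg_279_fs : Sl3 txg_279 := ⟨_, fun h1 h2 h3 => (pr_subr 19 50 h1)⟩
noncomputable def txg_281_fs : Sl3 txg_281 := ⟨_, fun h1 h2 h3 => (pr_subr 8 25 h1)⟩
noncomputable def txg_323_fs : Sl3 txg_323 := ⟨_, fun h1 h2 h3 => (pr_subr 7 16 h1)⟩
noncomputable def txg_fs : Sl3 txg := ⟨_, fun h1 h2 h3 => (pr_case (pr_addc h1 (enc_rat _ 481 1106)) (pr_case (txg_27_fs.snd h1 h2 h3) (pr_add (pr_add (pr_addc (pr_scale 1423 23750 h1) (enc_rat _ 1423 47500)) (pr_cmul (enc_norm (txg_4.enc h1.l h2.l h3)) (pr_norm (pr_addc (pr_scale 1413 4750 h1) (enc_rat _ 1413 9500))))) (pr_cmul (enc_norm (enc_subr 332763 1000000 (enc_neg (enc_scale 8673 5000 (txg_4.enc h1.l h2.l h3))))) (pr_norm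 (pr_mul (pr_norm (pr_addc h1 (enc_rat _ 1 2))) (pr_norm (pr_csub (enc_neg (enc_rat _ 181 400)) h1)))))) (pr_add (pr_add (pr_add (pr_addc (pr_scale 3303099213 43056580000 h1) (enc_rat _ 25875062729 688905280000)) (pr_cmul (enc_norm (txg_4.enc h1.l h2.l h3)) (pr_norm (pr_addc (pr_scale 279447811 861131600 h1) (enc_rat _ 277235847971 1722263200000))))) (pr_cmul (txg_63.enc h1.l h2.l h3) (pr_norm (pr_subr 41649729 97325000 (pr_neg (pr_scale 460218 486625 h1)))))) (pr_cmul (enc_norm (enc_add (enc_scale 145949 100000 (txg_4.enc h1.l h2.l h3)) (enc_rat _ 1899 62500))) (pr_norm (pr_mul (pr_norm (txg_27_fs.snd h1 h2 h3)) (pr_norm (pr_csub (enc_neg (enc_rat _ 481 1106)) h1))))))) (pr_case (txg_77_fs.snd h1 h2 h3) (pr_sub (pr_mul (pr_norm (pr_csub (enc_pnc _ 1) h2)) (pr_norm (pr_subn 1 (pr_nat 2 h2)))) (pr_mul (pr_norm (pr_nat 2 (pr_subc (pr_scale 4 3 (txg_6_fs.snd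 h1 h2 h3)) h3))) (pr_norm (pr_mul (pr_norm (pr_subn 1 (pr_add (pr_scale 2 3 (txg_6_fs.snd h1 h2 h3)) h2))) (kcg_fs.snd h1 h3))))) (pr_case (txg_79_fs.snd h1 h2 h3) (pr_case (txg_82_fs.snd h1 h2 h3) (pr_case (txg_85_fs.snd h1 h2 h3) (pr_add (pr_add (pr_add (pr_addc (pr_scale 516307313 3842720000 h1) (enc_rat _ 22591412987 384272000000)) (pr_cmul (enc_norm (txg_4.enc h1.l h2.l h3)) (pr_norm (pr_csub (enc_rat _ 312969591 192136000000) (pr_scale 200398587 1921360000 h1))))) (pr_cmul (txg_63.enc h1.l h2.l h3) (pr_norm (pr_subr 1445823 2350000 (pr_neg (pr_scale 53549 23500 h1)))))) (pr_cmul (enc_norm (enc_sub (enc_rat _ 205013 1000000) (enc_scale 78849 50000 (txg_4.enc h1.l h2.l h3)))) (pr_norm (pr_mul (pr_norm (txg_77_fs.snd h1 h2 h3)) (pr_norm (pr_csub (enc_neg (enc_rat _ 27 100)) h1)))))) (pr_case (txg_114_fs.snd h1 h2 h3) (pr_add (pr_add (pr_addc (pr_scale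 3989 35000 h1) (enc_rat _ 372997 7000000)) (pr_cmul (enc_norm (txg_4.enc h1.l h2.l h3)) (pr_norm (pr_addc (pr_scale 59 700 h1) (enc_rat _ 36783 700000))))) (pr_cmul (enc_norm (enc_sub (enc_rat _ 28679 200000) (enc_scale 76831 50000 (txg_4.enc h1.l h2.l h3)))) (pr_norm (pr_mul (pr_norm (txg_85_fs.snd h1 h2 h3)) (pr_norm (pr_csub (enc_neg (enc_rat _ 1 5)) h1)))))) (pr_add (pr_add (pr_addc (pr_scale 549 6250 h1) (enc_rat _ 48059 1000000)) (pr_cmul (enc_norm (txg_4.enc h1.l h2.l h3)) (pr_norm (pr_addc (pr_scale 617 5000 h1) (enc_rat _ 6037 100000))))) (pr_cmul (enc_norm (enc_add (enc_scale 136821 100000 (txg_4.enc h1.l h2.l h3)) (enc_rat _ 10039 31250))) (pr_norm (pr_mul (pr_norm (txg_114_fs.snd h1 h2 h3)) (pr_norm (pr_csub (enc_neg (enc_rat _ 3 20)) h1)))))))) (pr_case (txg_153_fs.snd h1 h2 h3) (pr_add (pr_add (pr_addc (pr_scale 1327 25000 h1) (enc_rat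 _ 8569 200000)) (pr_cmul (enc_norm (txg_4.enc h1.l h2.l h3)) (pr_norm (pr_addc (pr_scale 39 1000 h1) (enc_rat _ 4771 100000))))) (pr_cmul (enc_norm (enc_add (enc_scale 7983 25000 (txg_4.enc h1.l h2.l h3)) (enc_rat _ 93619 250000))) (pr_norm (pr_mul (pr_norm (txg_82_fs.snd h1 h2 h3)) (pr_norm (pr_csub (enc_neg (enc_rat _ 1 10)) h1)))))) (pr_case (txg_171_fs.snd h1 h2 h3) (pr_add (pr_add (pr_addc (pr_scale 299 12500 h1) (enc_rat _ 39929 1000000)) (pr_cmul (enc_norm (txg_4.enc h1.l h2.l h3)) (pr_norm (pr_csub (enc_rat _ 11767 300000) (pr_scale 86 1875 h1))))) (pr_cmul (enc_norm (enc_add (enc_scale 7341 4000 (txg_4.enc h1.l h2.l h3)) (enc_rat _ 277831 1000000))) (pr_norm (pr_mul (pr_norm (txg_153_fs.snd h1 h2 h3)) (pr_norm (pr_csub (enc_neg (enc_rat _ 1 16)) h1)))))) (pr_add (pr_add (pr_csub (enc_rat _ 37523 1000000) (pr_scale 911 62500 h1)) (pr_cmul (enc_norm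 (txg_4.enc h1.l h2.l h3)) (pr_norm (pr_csub (enc_rat _ 7519 200000) (pr_scale 899 12500 h1))))) (pr_cmul (enc_norm (enc_sub (enc_rat _ 56181 250000) (enc_scale 34177 100000 (txg_4.enc h1.l h2.l h3)))) (pr_norm (pr_mul (pr_norm (txg_171_fs.snd h1 h2 h3)) (pr_norm (pr_csub (enc_rat _ 1 16) h1))))))))) (pr_case (txg_213_fs.snd h1 h2 h3) (pr_case (txg_215_fs.snd h1 h2 h3) (pr_add (pr_add (pr_csub (enc_rat _ 468713 11500000) (pr_scale 1907 28750 h1)) (pr_cmul (enc_norm (txg_4.enc h1.l h2.l h3)) (pr_norm (pr_csub (enc_rat _ 7623 230000) (pr_scale 2 2875 h1))))) (pr_cmul (enc_norm (enc_sub (enc_rat _ 205629 500000) (enc_scale 49463 100000 (txg_4.enc h1.l h2.l h3)))) (pr_norm (pr_mul (pr_norm (txg_79_fs.snd h1 h2 h3)) (pr_norm (pr_csub (enc_rat _ 3 25) h1)))))) (pr_case (txg_237_fs.snd h1 h2 h3) (pr_add (pr_add (pr_csub (enc_rat _ 5673 125000) (pr_scale 6293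 60000 h1)) (pr_cmul (enc_norm (txg_4.enc h1.l h2.l h3)) (pr_norm (pr_addc (pr_scale 151 3000 h1) (enc_rat _ 1351 50000))))) (pr_cmul (enc_norm (enc_sub (enc_rat _ 124339 500000) (enc_scale 37633 100000 (txg_4.enc h1.l h2.l h3)))) (pr_norm (pr_mul (pr_norm (txg_215_fs.snd h1 h2 h3)) (pr_norm (pr_csub (enc_rat _ 9 50) h1)))))) (pr_add (pr_add (pr_csub (enc_rat _ 339993 7000000) (pr_scale 8581 70000 h1)) (pr_cmul (enc_norm (txg_4.enc h1.l h2.l h3)) (pr_norm (pr_addc (pr_scale 661 7000 h1) (enc_rat _ 6679 350000))))) (pr_cmul (enc_norm (enc_sub (enc_rat _ 19831 500000) (enc_scale 6133 20000 (txg_4.enc h1.l h2.l h3)))) (pr_norm (pr_mul (pr_norm (txg_237_fs.snd h1 h2 h3)) (pr_norm (pr_csub (enc_rat _ 1 4) h1)))))))) (pr_case (txg_279_fs.snd h1 h2 h3) (pr_case (txg_281_fs.snd h1 h2 h3) (pr_add (pr_add (pr_csub (enc_rat _ 20973 437500) (pr_scale 2101 17500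 h1)) (pr_cmul (enc_norm (txg_4.enc h1.l h2.l h3)) (pr_norm (pr_addc (pr_scale 559 3500 h1) (enc_rat _ 1933 700000))))) (pr_cmul (enc_norm (enc_subr 37853 500000 (enc_neg (enc_scale 62707 100000 (txg_4.enc h1.l h2.l h3))))) (pr_norm (pr_mul (pr_norm (txg_213_fs.snd h1 h2 h3)) (pr_norm (pr_csub (enc_rat _ 8 25) h1)))))) (pr_add (pr_add (pr_csub (enc_rat _ 1227 31250) (pr_scale 1859 20000 h1)) (pr_cmul (enc_norm (txg_4.enc h1.l h2.l h3)) (pr_norm (pr_csub (enc_rat _ 6701 60000) (pr_scale 271 1500 h1))))) (pr_cmul (enc_norm (enc_subr 72711 200000 (enc_scale 640317 100000 (txg_4.enc h1.l h2.l h3)))) (pr_norm (pr_mul (pr_norm (txg_281_fs.snd h1 h2 h3)) (pr_norm (pr_csub (enc_rat _ 19 50) h1))))))) (pr_case (txg_323_fs.snd h1 h2 h3) (pr_add (pr_add (pr_csub (enc_rat _ 24007 1000000) (pr_scale 33 625 h1)) (pr_cmul (enc_norm (txg_4.enc h1.l h2.l h3)) (pr_norm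 (pr_csub (enc_rat _ 508761 2300000) (pr_scale 1348 2875 h1))))) (pr_cmul (enc_norm (enc_subr 159471 500000 (enc_neg (enc_scale 166907 100000 (txg_4.enc h1.l h2.l h3))))) (pr_norm (pr_mul (pr_norm (txg_279_fs.snd h1 h2 h3)) (pr_norm (pr_csub (enc_rat _ 7 16) h1)))))) (pr_add (pr_add (pr_csub (enc_rat _ 907 125000) (pr_scale 907 62500 h1)) (pr_cmul (enc_norm (txg_4.enc h1.l h2.l h3)) (pr_norm (pr_csub (enc_rat _ 1607 12500) (pr_scale 1607 6250 h1))))) (pr_cmul (enc_norm (enc_subr 159707 500000 (enc_neg (enc_scale 185303 100000 (txg_4.enc h1.l h2.l h3))))) (pr_norm (pr_mul (pr_norm (txg_323_fs.snd h1 h2 h3)) (pr_norm (pr_csub (enc_rat _ 1 2) h1))))))))))))⟩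
noncomputable def l0q0_fs : Sl2 l0q0 := ⟨_, fun h1 h2 => (pr_norm (txg_fs.snd (pr_norm (pr_sub (pr_scale 3 4 h1) (pr_half (c1g_fs.snd h1)))) (pr_nd (c1g_fs.snd h1)) h2))⟩
noncomputable def swg_fs : Sl1 swg := ⟨_, fun h1 => (pr_sqrt (pr_csub (enc_pnc _ 1) (pr_scale 3 4 (pr_sq (pr_norm (pr_subn 1 h1))))))⟩
noncomputable def cv1m_fs : Sl1 cv1m := ⟨_, fun h1 => (pr_norm (pr_add (pr_half (c1g_fs.snd h1)) (pr_half (pr_addc (swg_fs.snd h1) (enc_rat _ 1 2)))))⟩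
noncomputable def bf1q0_fs : Sl2 bf1q0 := ⟨_, fun h1 h2 => (pr_norm (pr_sub (pr_csub (enc_pnc _ 1) (pr_scale 342697 500000 h1)) (pr_cmul (enc_norm (enc_subr 5 32 h2)) (pr_nd (pr_scale 24713 50000 h1)))))⟩
noncomputable def kf1q0_fs : Sl2 kf1q0 := ⟨_, fun h1 h2 => (pr_norm (pr_mul (cv1m_fs.snd h1) (bf1q0_fs.snd h1 h2)))⟩
noncomputable def bx1q0_fs : Sl2 bx1q0 := ⟨_, fun h1 h2 => (pr_norm (pr_add (pr_scale 121 500000 h1) (pr_cmul (enc_norm (enc_subr 5 32 h2)) (pr_nd (pr_scale 3429 25000 h1)))))⟩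
noncomputable def l1q0_fs : Sl2 l1q0 := ⟨_, fun h1 h2 => (pr_norm (pr_mul (cv1m_fs.snd h1) (bx1q0_fs.snd h1 h2)))⟩
noncomputable def cv2m_fs : Sl1 cv2m := ⟨_, fun h1 => (pr_norm (pr_add (pr_scale 1 10 (c1g_fs.snd h1)) (pr_scale 9 10 (pr_addc (swg_fs.snd h1) (enc_rat _ 1 2)))))⟩
noncomputable def bf2q0_fs : Sl2 bf2q0 := ⟨_, fun h1 h2 => (pr_norm (pr_sub (pr_csub (enc_pnc _ 1) (pr_scale 219113 500000 h1)) (pr_cmul (enc_norm (enc_subr 5 32 h2)) (pr_nd (pr_scale 15487 50000 h1)))))⟩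
noncomputable def kf2q0_fs : Sl2 kf2q0 := ⟨_, fun h1 h2 => (pr_norm (pr_mul (cv2m_fs.snd h1) (bf2q0_fs.snd h1 h2)))⟩
noncomputable def bx2q0_fs : Sl2 bx2q0 := ⟨_, fun h1 h2 => (pr_norm (pr_sub (pr_scale 27681 250000 h1) (pr_cmul (enc_norm (enc_subr 5 32 h2)) (pr_nd (pr_scale 62003 50000 h1)))))⟩
noncomputable def l2q0_fs : Sl2 l2q0 := ⟨_, fun h1 h2 => (pr_norm (pr_mul (cv2m_fs.snd h1) (bx2q0_fs.snd h1 h2)))⟩
noncomputable def kf0q1_10_fs : Sl2 kf0q1_10 := ⟨_, fun h1 h2 => (pr_scale 3 2 h1)⟩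
noncomputable def kf0q1_fs : Sl2 kf0q1 := ⟨_, fun h1 h2 => (pr_norm (pr_add (pr_mul (pr_norm (pr_mul (pr_norm (pr_cadd (enc_pnc _ 1) (pr_nat 2 (c1g_fs.snd h1)))) (pr_norm (pr_sub (kf0q1_10_fs.snd h1 h2) (c1g_fs.snd h1))))) (pr_nd (pr_inv (pr_nat 2 (pr_sub (pr_cadd (enc_pnc _ 1) (kf0q1_10_fs.snd h1 h2)) (c1g_fs.snd h1)))))) (pr_mul (pr_norm (pr_subn 1 h1)) (kcg_fs.snd (pr_norm (pr_sub (pr_scale 3 4 h1) (pr_half (c1g_fs.snd h1)))) h2))))⟩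
noncomputable def l0q1_fs : Sl2 l0q1 := ⟨_, fun h1 h2 => (pr_norm (txg_fs.snd (pr_norm (pr_sub (pr_scale 3 4 h1) (pr_half (c1g_fs.snd h1)))) (pr_nd (c1g_fs.snd h1)) h2))⟩
noncomputable def cv2p_fs : Sl1 cv2p := ⟨_, fun h1 => (pr_norm (pr_add (pr_scale 1 10 (c1g_fs.snd h1)) (pr_scale 9 10 (pr_subr 1 2 (swg_fs.snd h1)))))⟩
noncomputable def bf2q2_fs : Sl2 bf2q2 := ⟨_, fun h1 h2 => (pr_norm (pr_case (pr_subr 11 10 h1) (pr_case (pr_subr 103 100 h1) (pr_add (pr_csub (enc_rat _ 11791 10000) (pr_scale 1791 10000 h1)) (pr_cmul (enc_norm (bf2q2_3.enc h1.l h2)) (pr_norm (pr_csub (enc_rat _ 299 250) (pr_scale 299 250 h1))))) (pr_case (pr_subr 53 50 h1) (pr_add (pr_csub (enc_rat _ 648157 500000) (pr_scale 2929 10000 h1)) (pr_cmul (enc_norm (bf2q2_3.enc h1.l h2)) (pr_norm (pr_csub (enc_rat _ 53117 60000) (pr_scale 2683 3000 h1))))) (pr_add (pr_csub (enc_rat _ 21737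 16000) (pr_scale 2813 8000 h1)) (pr_cmul (enc_norm (bf2q2_3.enc h1.l h2)) (pr_norm (pr_csub (enc_rat _ 93829 200000) (pr_scale 2007 4000 h1))))))) (pr_case (pr_subr 5 4 h1) (pr_case (pr_subr 29 25 h1) (pr_add (pr_csub (enc_rat _ 809071 600000) (pr_scale 10273 30000 h1)) (pr_cmul (enc_norm (bf2q2_3.enc h1.l h2)) (pr_norm (pr_csub (enc_rat _ 17641 50000) (pr_scale 99 250 h1))))) (pr_add (pr_csub (enc_rat _ 4017167 3000000) (pr_scale 1003 3000 h1)) (pr_cmul (enc_norm (bf2q2_3.enc h1.l h2)) (pr_norm (pr_csub (enc_rat _ 17061 50000) (pr_scale 193 500 h1)))))) (pr_case (pr_subr 27 20 h1) (pr_add (pr_csub (enc_rat _ 666457 500000) (pr_scale 16471 50000 h1)) (pr_cmul (enc_norm (bf2q2_3.enc h1.l h2)) (pr_norm (pr_csub (enc_rat _ 66669 200000) (pr_scale 3797 10000 h1))))) (pr_add (pr_csub (enc_rat _ 664711 500000) (pr_scale 1961 6000 h1)) (pr_cmul (enc_norm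 (bf2q2_3.enc h1.l h2)) (pr_norm (pr_csub (enc_rat _ 16503 50000) (pr_scale 5659 15000 h1)))))))))⟩
noncomputable def kf2q2_fs : Sl2 kf2q2 := ⟨_, fun h1 h2 => (pr_norm (pr_mul (cv2p_fs.snd h1) (bf2q2_fs.snd h1 h2)))⟩
noncomputable def bx2q2_fs : Sl2 bx2q2 := ⟨_, fun h1 h2 => (pr_norm (pr_case (pr_subr 11 10 h1) (pr_case (pr_subr 103 100 h1) (pr_add (pr_subr 33 400 (pr_scale 33 400 h1)) (pr_cmul (enc_norm (bx2q2_3.enc h1.l h2)) (pr_norm (pr_subr 227 600 (pr_scale 227 600 h1))))) (pr_case (pr_subr 53 50 h1) (pr_add (pr_subr 1907 15000 (pr_scale 151 1200 h1)) (pr_cmul (enc_norm (bx2q2_3.enc h1.l h2)) (pr_norm (pr_subr 212483 300000 (pr_scale 262 375 h1))))) (pr_add (pr_subr 303221 2000000 (pr_scale 5957 40000 h1)) (pr_cmul (enc_norm (bx2q2_3.enc h1.l h2)) (pr_norm (pr_subr 213 50000 (pr_scale 69 2000 h1))))))) (pr_case (pr_subr 5 4 h1) (pr_case (pr_subr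 29 25 h1) (pr_add (pr_subr 237383 1000000 (pr_scale 2269 10000 h1)) (pr_cmul (enc_norm (bx2q2_3.enc h1.l h2)) (pr_norm (pr_subr 139741 100000 (pr_scale 1301 1000 h1))))) (pr_add (pr_subr 402419 1800000 (pr_scale 19349 90000 h1)) (pr_cmul (enc_norm (bx2q2_3.enc h1.l h2)) (pr_norm (pr_subr 795061 900000 (pr_scale 7721 9000 h1)))))) (pr_case (pr_subr 27 20 h1) (pr_add (pr_subr 86547 400000 (pr_scale 20923 100000 h1)) (pr_cmul (enc_norm (bx2q2_3.enc h1.l h2)) (pr_norm (pr_subr 173133 200000 (pr_scale 8437 10000 h1))))) (pr_add (pr_subr 106881 500000 (pr_scale 2073 10000 h1)) (pr_cmul (enc_norm (bx2q2_3.enc h1.l h2)) (pr_norm (pr_subr 42903 50000 (pr_scale 12571 15000 h1)))))))))⟩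
noncomputable def l2q2_fs : Sl2 l2q2 := ⟨_, fun h1 h2 => (pr_norm (pr_mul (cv2p_fs.snd h1) (bx2q2_fs.snd h1 h2)))⟩
noncomputable def gsg_fs : Sl1 gsg := ⟨_, fun h1 => (pr_sqrt (pr_csub (enc_pnc _ 1) (pr_scale 3 4 (pr_sq h1))))⟩
noncomputable def gug_fs : Sl1 gug := ⟨_, fun h1 => (pr_norm (pr_add (pr_scale 3 4 h1) (pr_scale 3 2 (pr_csub (enc_pnc _ 1) (gsg_fs.snd h1)))))⟩
noncomputable def kug_2_fs : Sl1 kug_2 := ⟨_, fun h1 => (pr_sq h1)⟩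
noncomputable def kug_fs : Sl1 kug := ⟨_, fun h1 => (pr_norm (pr_add (pr_add (pr_scale 3 4 h1) (pr_scale 3 2 (kug_2_fs.snd h1))) (pr_mul (pr_norm (pr_mul (pr_nd (pr_scale 3 4 (kug_2_fs.snd h1))) (pr_nd (pr_inv (gsg_fs.snd h1))))) (gug_fs.snd h1))))⟩
noncomputable def kp0q0_8_fs : Sl2 kp0q0_8 := ⟨_, fun h1 h2 => (pr_sub (pr_scale 3 4 h1) (pr_half (c1g_fs.snd h1)))⟩
noncomputable def kp0q0_fs : Sl2 kp0q0 := ⟨_, fun h1 h2 => (pr_norm (pr_case (pr_addc (kp0q0_8_fs.snd h1 h2) (enc_rat _ 481 1106)) (pr_mul h1 (pr_norm (pr_add (pr_subr 48901735519 120000000000 (pr_neg (pr_scale 102685255519 60000000000 (kp0q0_8_fs.snd h1 h2)))) (pr_cmul (enc_norm (kp0q0_3.enc h1.l h2)) (pr_norm (pr_addc (pr_scale 711145187543 90000000000 (kp0q0_8_fs.snd h1 h2)) (enc_rat _ 696212387543 180000000000))))))) (pr_case (pr_addc (kp0q0_8_fs.snd h1 h2) (enc_rat _ 23 73)) (pr_sub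 (kug_fs.snd h1) (pr_mul h1 (pr_norm (pr_mul (kcg_fs.snd (pr_norm (kp0q0_8_fs.snd h1 h2)) h2) (pr_norm (pr_add (gug_fs.snd h1) (pr_nat 2 (c1g_fs.snd h1)))))))) (pr_mul h1 (pr_norm (pr_add (pr_csub (enc_rat _ 274092431749 1190000000000) (pr_scale 807445671749 595000000000 (kp0q0_8_fs.snd h1 h2))) (pr_cmul (enc_norm (kp0q0_3.enc h1.l h2)) (pr_norm (pr_subr 403956299991 595000000000 (pr_scale 453317499991 297500000000 (kp0q0_8_fs.snd h1 h2)))))))))))⟩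
noncomputable def kn0q0_fs : Sl2 kn0q0 := ⟨_, fun h1 h2 => (pr_norm (pr_add (pr_cmul (enc_norm (enc_add (enc_pnc _ 1) (enc_mul (mug3.enc h2) (gug.enc h2)))) (kf0q0_fs.snd h1 h2)) (pr_cmul (mug3.enc h2) (kp0q0_fs.snd h1 h2))))⟩
noncomputable def bd1q0_fs : Sl2 bd1q0 := ⟨_, fun h1 h2 => (pr_norm (pr_sub (pr_neg (pr_scale 32177 125000 h1)) (pr_cmul (enc_norm (enc_subr 5 32 h2)) (pr_nd (pr_scale 16813 50000 h1)))))⟩
noncomputable def kp1q0_fs : Sl2 kp1q0 := ⟨_, fun h1 h2 => (pr_norm (pr_mul (cv1m_fs.snd h1) (bd1q0_fs.snd h1 h2)))⟩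
noncomputable def kn1q0_fs : Sl2 kn1q0 := ⟨_, fun h1 h2 => (pr_norm (pr_add (pr_cmul (enc_norm (enc_add (enc_pnc _ 1) (enc_mul (mug3.enc h2) (gug.enc h2)))) (kf1q0_fs.snd h1 h2)) (pr_cmul (mug3.enc h2) (kp1q0_fs.snd h1 h2))))⟩
noncomputable def bd2q0_fs : Sl2 bd2q0 := ⟨_, fun h1 h2 => (pr_norm (pr_sub (pr_neg (pr_scale 8477 62500 h1)) (pr_cmul (enc_norm (enc_subr 5 32 h2)) (pr_nd (pr_scale 9383 50000 h1)))))⟩
noncomputable def kp2q0_fs : Sl2 kp2q0 := ⟨_, fun h1 h2 => (pr_norm (pr_mul (cv2m_fs.snd h1) (bd2q0_fs.snd h1 h2)))⟩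
noncomputable def kn2q0_fs : Sl2 kn2q0 := ⟨_, fun h1 h2 => (pr_norm (pr_add (pr_cmul (enc_norm (enc_add (enc_pnc _ 1) (enc_mul (mug3.enc h2) (gug.enc h2)))) (kf2q0_fs.snd h1 h2)) (pr_cmul (mug3.enc h2) (kp2q0_fs.snd h1 h2))))⟩
noncomputable def kp0q1_9_fs : Sl2 kp0q1_9 := ⟨_, fun h1 h2 => (pr_sub (pr_scale 3 4 h1) (pr_half (c1g_fs.snd h1)))⟩
noncomputable def kp0q1_fs : Sl2 kp0q1 := ⟨_, fun h1 h2 => (pr_norm (pr_mul (pr_norm (pr_subn 1 h1)) (pr_norm (pr_add (pr_csub (enc_rat _ 274092431749 1190000000000) (pr_scale 807445671749 595000000000 (kp0q1_9_fs.snd h1 h2))) (pr_cmul (enc_norm (enc_subr 5 32 h2)) (pr_norm (pr_subr 403956299991 595000000000 (pr_scale 453317499991 297500000000 (kp0q1_9_fs.snd h1 h2)))))))))⟩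
noncomputable def kn0q1_fs : Sl2 kn0q1 := ⟨_, fun h1 h2 => (pr_norm (pr_add (pr_cmul (enc_norm (enc_add (enc_pnc _ 1) (enc_mul (mug3.enc h2) (gug.enc h2)))) (kf0q1_fs.snd h1 h2)) (pr_cmul (mug3.enc h2) (kp0q1_fs.snd h1 h2))))⟩
noncomputable def bd2q2_fs : Sl2 bd2q2 := ⟨_, fun h1 h2 => (pr_norm (pr_case (pr_subr 11 10 h1) (pr_case (pr_subr 103 100 h1) (pr_add (pr_subr 2789 5000 (pr_scale 2789 5000 h1)) (pr_cmul (enc_norm (bd2q2_3.enc h1.l h2)) (pr_norm (pr_subr 97 75 (pr_scale 97 75 h1))))) (pr_case (pr_subr 53 50 h1) (pr_add (pr_subr 554813 1000000 (pr_scale 5549 10000 h1)) (pr_cmul (enc_norm (bd2q2_3.enc h1.l h2)) (pr_norm (pr_subr 192661 150000 (pr_scale 1927 1500 h1))))) (pr_add (pr_subr 549831 1000000 (pr_scale 2751 5000 h1)) (pr_cmul (enc_norm (bd2q2_3.enc h1.l h2)) (pr_norm (pr_subr 130013 100000 (pr_scale 2599 2000 h1))))))) (pr_case (pr_subr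 5 4 h1) (pr_case (pr_subr 29 25 h1) (pr_add (pr_subr 803269 1500000 (pr_scale 32231 60000 h1)) (pr_cmul (enc_norm (bd2q2_3.enc h1.l h2)) (pr_norm (pr_subr 397409 300000 (pr_scale 7931 6000 h1))))) (pr_add (pr_subr 129301 250000 (pr_scale 2607 5000 h1)) (pr_cmul (enc_norm (bd2q2_3.enc h1.l h2)) (pr_norm (pr_subr 1171637 900000 (pr_scale 11719 9000 h1)))))) (pr_case (pr_subr 27 20 h1) (pr_add (pr_subr 1011233 2000000 (pr_scale 51213 100000 h1)) (pr_cmul (enc_norm (bd2q2_3.enc h1.l h2)) (pr_norm (pr_subr 257261 200000 (pr_scale 12897 10000 h1))))) (pr_add (pr_subr 249143 500000 (pr_scale 5067 10000 h1)) (pr_cmul (enc_norm (bd2q2_3.enc h1.l h2)) (pr_norm (pr_subr 6371 5000 (pr_scale 19211 15000 h1)))))))))⟩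
noncomputable def kp2q2_fs : Sl2 kp2q2 := ⟨_, fun h1 h2 => (pr_norm (pr_mul (cv2p_fs.snd h1) (bd2q2_fs.snd h1 h2)))⟩
noncomputable def kn2q2_fs : Sl2 kn2q2 := ⟨_, fun h1 h2 => (pr_norm (pr_add (pr_cmul (enc_norm (enc_add (enc_pnc _ 1) (enc_mul (mug3.enc h2) (gug.enc h2)))) (kf2q2_fs.snd h1 h2)) (pr_cmul (mug3.enc h2) (kp2q2_fs.snd h1 h2))))⟩
noncomputable def dlg : Fn2 := ⟨_, _, fun h1 h2 => (kcg.enc (enc_norm (enc_sub (enc_scale 3 4 h1) (enc_half (c1g.enc h1)))) h2)⟩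

end Pool.Agent.Strip051.G.I1_8_3_16.Tab
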