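import Pool.Agent.Strip051.G.I1_8_3_16.Tab
import Pool.Agent.Strip051.PB.C12G

/-! # Slopes of the tables near the lattice heights (generated) -/

set_option linter.all false

namespace Pool.Agent.Strip051.G.I1_8_3_16.Tab

open Pool.Agent.Strip051.PB

attribute [local irreducible] padd psub pneg pmul psq pinv psqrt psqrtg pabs pps pmax pmin pphi plam
  pcase phf pnat prat pscale pnorm pdc pnc pone ppos pnn Enc pbad pzero

noncomputable def idf_s : Sl1 idf := ⟨fun _ _ D => D, fun h => h⟩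

noncomputable def c1g_s : Sl1 c1g := ⟨_, fun h1 => (pr_sqrtgz (pr_csub (enc_pnc _ 1) (pr_scale 3 4 (pr_sq h1))))⟩
noncomputable def kcg_6_s : Sl2 kcg_6 := ⟨_, fun h1 h2 => (pr_addc h1 (enc_rat _ 1 4))⟩
noncomputable def kcg_9_s : Sl2 kcg_9 := ⟨_, fun h1 h2 => (pr_addc h1 (enc_rat _ 37 100))⟩
noncomputable def kcg_12_s : Sl2 kcg_12 := ⟨_, fun h1 h2 => (pr_addc h1 (enc_rat _ 481 1106))⟩
noncomputable def kcg_13_s : Sl2 kcg_13 := ⟨_, fun h1 h2 => (pr_scale 1294573 4000000 h1)⟩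
noncomputable def kcg_17_s : Sl2 kcg_17 := ⟨_, fun h1 h2 => (pr_scale 38614331 3600000 h1)⟩
noncomputable def kcg_34_s : Sl2 kcg_34 := ⟨_, fun h1 h2 => (pr_scale 1701581 7178000 h1)⟩
noncomputable def kcg_38_s : Sl2 kcg_38 := ⟨_, fun h1 h2 => (pr_scale 582309 71780 h1)⟩
noncomputable def kcg_54_s : Sl2 kcg_54 := ⟨_, fun h1 h2 => (pr_addc h1 (enc_rat _ 23 73))⟩
noncomputable def kcg_55_s : Sl2 kcg_55 := ⟨_, fun h1 h2 => (pr_scale 2044949 4010000 h1)⟩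
noncomputable def kcg_59_s : Sl2 kcg_59 := ⟨_, fun h1 h2 => (pr_scale 796357 200500 h1)⟩
noncomputable def kcg_72_s : Sl2 kcg_72 := ⟨_, fun h1 h2 => (pr_scale 104463 125000 h1)⟩
noncomputable def kcg_77_s : Sl2 kcg_77 := ⟨_, fun h1 h2 => (pr_scale 73657 475000 h1)⟩
noncomputable def kcg_95_s : Sl2 kcg_95 := ⟨_, fun h1 h2 => (pr_addc h1 (enc_rat _ 29 200))⟩
noncomputable def kcg_98_s : Sl2 kcg_98 := ⟨_, fun h1 h2 => (pr_addc h1 (enc_rat _ 19 100))⟩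
noncomputable def kcg_99_s : Sl2 kcg_99 := ⟨_, fun h1 h2 => (pr_scale 20183 20000 h1)⟩
noncomputable def kcg_104_s : Sl2 kcg_104 := ⟨_, fun h1 h2 => (pr_scale 20309 6000 h1)⟩
noncomputable def kcg_119_s : Sl2 kcg_119 := ⟨_, fun h1 h2 => (pr_scale 14617 15000 h1)⟩
noncomputable def kcg_124_s : Sl2 kcg_124 := ⟨_, fun h1 h2 => (pr_scale 19309 4500 h1)⟩
noncomputable def kcg_145_s : Sl2 kcg_145 := ⟨_, fun h1 h2 => (pr_addc h1 (enc_rat _ 1 10))⟩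
noncomputable def kcg_146_s : Sl2 kcg_146 := ⟨_, fun h1 h2 => (pr_scale 8837 11250 h1)⟩
noncomputable def kcg_151_s : Sl2 kcg_151 := ⟨_, fun h1 h2 => (pr_scale 387 125 h1)⟩
noncomputable def kcg_172_s : Sl2 kcg_172 := ⟨_, fun h1 h2 => (pr_scale 313 750 h1)⟩
noncomputable def kcg_177_s : Sl2 kcg_177 := ⟨_, fun h1 h2 => (pr_scale 2647 3750 h1)⟩
noncomputable def kcg_195_s : Sl2 kcg_195 := ⟨_, fun h1 h2 => (pr_scale 11101 62500 h1)⟩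
noncomputable def kcg_199_s : Sl2 kcg_199 := ⟨_, fun h1 h2 => (pr_cmul (enc_norm (kcg_3.enc h1.l h2)) (pr_nd (pr_scale 3657 6250 h1)))⟩
noncomputable def kcg_206_s : Sl2 kcg_206 := ⟨_, fun h1 h2 => (pr_csub (enc_rat _ 1 4) h1)⟩
noncomputable def kcg_207_s : Sl2 kcg_207 := ⟨_, fun h1 h2 => (pr_csub (enc_rat _ 37 100) h1)⟩
noncomputable def kcg_208_s : Sl2 kcg_208 := ⟨_, fun h1 h2 => (pr_csub (enc_rat _ 481 1106) h1)⟩
noncomputable def kcg_229_s : Sl2 kcg_229 := ⟨_, fun h1 h2 => (pr_csub (enc_rat _ 23 73) h1)⟩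
noncomputable def kcg_249_s : Sl2 kcg_249 := ⟨_, fun h1 h2 => (pr_csub (enc_rat _ 29 200) h1)⟩
noncomputable def kcg_250_s : Sl2 kcg_250 := ⟨_, fun h1 h2 => (pr_csub (enc_rat _ 19 100) h1)⟩
noncomputable def kcg_268_s : Sl2 kcg_268 := ⟨_, fun h1 h2 => (pr_csub (enc_rat _ 1 10) h1)⟩
noncomputable def kcg_s : Sl2 kcg := ⟨_, fun h1 h2 => (pr_norm (pr_case h1 (pr_case (kcg_6_s.snd h1 h2) (pr_case (kcg_9_s.snd h1 h2) (pr_case (kcg_12_s.snd h1 h2) (pr_add (pr_add (pr_csub (enc_rat _ 988179 8000000) (kcg_13_s.snd h1 h2)) (pr_cmul (enc_norm (kcg_3.enc h1.l h2)) (pr_norm (pr_addc (kcg_17_s.snd h1 h2) (enc_rat _ 32080619 7200000))))) (pr_cmul (enc_norm (kcg_26.enc h1.l h2)) (pr_norm (pr_mul (pr_norm (pr_addc h1 (enc_rat _ 1 2))) (pr_norm (pr_csub (enc_neg (enc_rat _ 481 1106)) h1)))))) (pr_add (pr_add (pr_csub (enc_rat _ 625377 3880000) (kcg_34_s.snd h1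 h2)) (pr_cmul (enc_norm (kcg_3.enc h1.l h2)) (pr_norm (pr_addc (kcg_38_s.snd h1 h2) (enc_rat _ 32193357 9700000))))) (pr_cmul (enc_norm (kcg_46.enc h1.l h2)) (pr_norm (pr_mul (pr_norm (kcg_12_s.snd h1 h2)) (pr_norm (pr_csub (enc_neg (enc_rat _ 37 100)) h1))))))) (pr_case (kcg_54_s.snd h1 h2) (pr_add (pr_add (pr_csub (enc_rat _ 24141777 401000000) (kcg_55_s.snd h1 h2)) (pr_cmul (enc_norm (kcg_3.enc h1.l h2)) (pr_norm (pr_addc (kcg_59_s.snd h1 h2) (enc_rat _ 71654549 40100000))))) (pr_cmul (enc_norm (kcg_67.enc h1.l h2)) (pr_norm (pr_mul (pr_norm (kcg_9_s.snd h1 h2)) (pr_norm (pr_csub (enc_neg (enc_rat _ 23 73)) h1)))))) (pr_add (pr_add (pr_subr 42427 1000000 (pr_neg (kcg_72_s.snd h1 h2))) (pr_cmul (enc_norm (kcg_3.enc h1.l h2)) (pr_norm (pr_csub (enc_rat _ 924603 1900000) (kcg_77_s.snd h1 h2))))) (pr_cmul (enc_norm (kcg_86.enc h1.l h2)) (pr_norm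 (pr_mul (pr_norm (kcg_54_s.snd h1 h2)) (pr_norm (pr_csub (enc_neg (enc_rat _ 1 4)) h1)))))))) (pr_case (kcg_95_s.snd h1 h2) (pr_case (kcg_98_s.snd h1 h2) (pr_add (pr_add (pr_subr 171577 2000000 (pr_neg (kcg_99_s.snd h1 h2))) (pr_cmul (enc_norm (kcg_3.enc h1.l h2)) (pr_norm (pr_subr 38497 120000 (pr_neg (kcg_104_s.snd h1 h2)))))) (pr_cmul (enc_norm (kcg_114.enc h1.l h2)) (pr_norm (pr_mul (pr_norm (kcg_6_s.snd h1 h2)) (pr_norm (pr_csub (enc_neg (enc_rat _ 19 100)) h1)))))) (pr_add (pr_add (pr_subr 59399 750000 (pr_neg (kcg_119_s.snd h1 h2))) (pr_cmul (enc_norm (kcg_3.enc h1.l h2)) (pr_norm (pr_subr 443663 900000 (pr_neg (kcg_124_s.snd h1 h2)))))) (pr_cmul (enc_norm (kcg_137.enc h1.l h2)) (pr_norm (pr_mul (pr_norm (kcg_98_s.snd h1 h2)) (pr_norm (pr_csub (enc_neg (enc_rat _ 29 200)) h1))))))) (pr_case (kcg_145_s.snd h1 h2) (pr_add (pr_add (pr_subr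 466201 9000000 (pr_neg (kcg_146_s.snd h1 h2))) (pr_cmul (enc_norm (kcg_3.enc h1.l h2)) (pr_norm (pr_subr 3197 10000 (pr_neg (kcg_151_s.snd h1 h2)))))) (pr_cmul (enc_norm (kcg_164.enc h1.l h2)) (pr_norm (pr_mul (pr_norm (kcg_95_s.snd h1 h2)) (pr_norm (pr_csub (enc_neg (enc_rat _ 1 10)) h1)))))) (pr_case (pr_addc h1 (enc_rat _ 1 16)) (pr_add (pr_add (pr_subr 44947 3000000 (pr_neg (kcg_172_s.snd h1 h2))) (pr_cmul (enc_norm (kcg_3.enc h1.l h2)) (pr_norm (pr_subr 12103 150000 (pr_neg (kcg_177_s.snd h1 h2)))))) (pr_cmul (enc_norm (kcg_190.enc h1.l h2)) (pr_norm (pr_mul (pr_norm (kcg_145_s.snd h1 h2)) (pr_norm (pr_csub (enc_neg (enc_rat _ 1 16)) h1)))))) (pr_sub (kcg_199_s.snd h1 h2) (kcg_195_s.snd h1 h2)))))) (pr_neg (pr_case (kcg_206_s.snd h1 h2) (pr_case (kcg_207_s.snd h1 h2) (pr_case (kcg_208_s.snd h1 h2) (pr_add (pr_add (pr_addc (kcg_13_s.snd h1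 h2) (enc_rat _ 988179 8000000)) (pr_cmul (enc_norm (kcg_3.enc h1.l h2)) (pr_norm (pr_csub (enc_rat _ 32080619 7200000) (kcg_17_s.snd h1 h2))))) (pr_cmul (enc_norm (kcg_26.enc h1.l h2)) (pr_norm (pr_mul (pr_norm (pr_csub (enc_rat _ 1 2) h1)) (pr_norm (pr_subr 481 1106 h1)))))) (pr_add (pr_add (pr_addc (kcg_34_s.snd h1 h2) (enc_rat _ 625377 3880000)) (pr_cmul (enc_norm (kcg_3.enc h1.l h2)) (pr_norm (pr_csub (enc_rat _ 32193357 9700000) (kcg_38_s.snd h1 h2))))) (pr_cmul (enc_norm (kcg_46.enc h1.l h2)) (pr_norm (pr_mul (pr_norm (kcg_208_s.snd h1 h2)) (pr_norm (pr_subr 37 100 h1))))))) (pr_case (kcg_229_s.snd h1 h2) (pr_add (pr_add (pr_addc (kcg_55_s.snd h1 h2) (enc_rat _ 24141777 401000000)) (pr_cmul (enc_norm (kcg_3.enc h1.l h2)) (pr_norm (pr_csub (enc_rat _ 71654549 40100000) (kcg_59_s.snd h1 h2))))) (pr_cmul (enc_norm (kcg_67.enc h1.l h2)) (pr_norm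 (pr_mul (pr_norm (kcg_207_s.snd h1 h2)) (pr_norm (pr_subr 23 73 h1)))))) (pr_add (pr_add (pr_subr 42427 1000000 (kcg_72_s.snd h1 h2)) (pr_cmul (enc_norm (kcg_3.enc h1.l h2)) (pr_norm (pr_addc (kcg_77_s.snd h1 h2) (enc_rat _ 924603 1900000))))) (pr_cmul (enc_norm (kcg_86.enc h1.l h2)) (pr_norm (pr_mul (pr_norm (kcg_229_s.snd h1 h2)) (pr_norm (pr_subr 1 4 h1)))))))) (pr_case (kcg_249_s.snd h1 h2) (pr_case (kcg_250_s.snd h1 h2) (pr_add (pr_add (pr_subr 171577 2000000 (kcg_99_s.snd h1 h2)) (pr_cmul (enc_norm (kcg_3.enc h1.l h2)) (pr_norm (pr_subr 38497 120000 (kcg_104_s.snd h1 h2))))) (pr_cmul (enc_norm (kcg_114.enc h1.l h2)) (pr_norm (pr_mul (pr_norm (kcg_206_s.snd h1 h2)) (pr_norm (pr_subr 19 100 h1)))))) (pr_add (pr_add (pr_subr 59399 750000 (kcg_119_s.snd h1 h2)) (pr_cmul (enc_norm (kcg_3.enc h1.l h2)) (pr_norm (pr_subr 443663 900000 (kcg_124_s.snd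 h1 h2))))) (pr_cmul (enc_norm (kcg_137.enc h1.l h2)) (pr_norm (pr_mul (pr_norm (kcg_250_s.snd h1 h2)) (pr_norm (pr_subr 29 200 h1))))))) (pr_case (kcg_268_s.snd h1 h2) (pr_add (pr_add (pr_subr 466201 9000000 (kcg_146_s.snd h1 h2)) (pr_cmul (enc_norm (kcg_3.enc h1.l h2)) (pr_norm (pr_subr 3197 10000 (kcg_151_s.snd h1 h2))))) (pr_cmul (enc_norm (kcg_164.enc h1.l h2)) (pr_norm (pr_mul (pr_norm (kcg_249_s.snd h1 h2)) (pr_norm (pr_subr 1 10 h1)))))) (pr_case (pr_csub (enc_rat _ 1 16) h1) (pr_add (pr_add (pr_subr 44947 3000000 (kcg_172_s.snd h1 h2)) (pr_cmul (enc_norm (kcg_3.enc h1.l h2)) (pr_norm (pr_subr 12103 150000 (kcg_177_s.snd h1 h2))))) (pr_cmul (enc_norm (kcg_190.enc h1.l h2)) (pr_norm (pr_mul (pr_norm (kcg_268_s.snd h1 h2)) (pr_norm (pr_subr 1 16 h1)))))) (pr_sub (kcg_195_s.snd h1 h2) (kcg_199_s.snd h1 h2)))))))))⟩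
noncomputable def kf0q0_9_s : Sl2 kf0q0_9 := ⟨_, fun h1 h2 => (pr_scale 3 2 h1)⟩
noncomputable def kf0q0_12_s : Sl2 kf0q0_12 := ⟨_, fun h1 h2 => (pr_cadd (enc_pnc _ 1) (c1g_s.snd h1))⟩
noncomputable def kf0q0_s : Sl2 kf0q0 := ⟨_, fun h1 h2 => (pr_norm (pr_add (pr_mul (pr_norm (pr_mul (pr_norm (pr_sub (c1g_s.snd h1) (kf0q0_9_s.snd h1 h2))) (pr_norm (kf0q0_12_s.snd h1 h2)))) (pr_nd (pr_inv (pr_sub (kf0q0_12_s.snd h1 h2) (kf0q0_9_s.snd h1 h2))))) (pr_mul h1 (kcg_s.snd (pr_norm (pr_sub (pr_scale 3 4 h1) (pr_half (c1g_s.snd h1)))) h2))))⟩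
noncomputable def txg_6_s : Sl3 txg_6 := ⟨_, fun h1 h2 h3 => (pr_add h1 (pr_half h2))⟩
noncomputable def txg_27_s : Sl3 txg_27 := ⟨_, fun h1 h2 h3 => (pr_addc h1 (enc_rat _ 181 400))⟩
noncomputable def txg_77_s : Sl3 txg_77 := ⟨_, fun h1 h2 h3 => (pr_addc h1 (enc_rat _ 23 73))⟩
noncomputable def txg_79_s : Sl3 txg_79 := ⟨_, fun h1 h2 h3 => (pr_subr 1 16 h1)⟩
noncomputable def txg_82_s : Sl3 txg_82 := ⟨_, fun h1 h2 h3 => (pr_addc h1 (enc_rat _ 3 20))⟩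
noncomputable def txg_85_s : Sl3 txg_85 := ⟨_, fun h1 h2 h3 => (pr_addc h1 (enc_rat _ 27 100))⟩
noncomputable def txg_114_s : Sl3 txg_114 := ⟨_, fun h1 h2 h3 => (pr_addc h1 (enc_rat _ 1 5))⟩
noncomputable def txg_153_s : Sl3 txg_153 := ⟨_, fun h1 h2 h3 => (pr_addc h1 (enc_rat _ 1 10))⟩
noncomputable def txg_171_s : Sl3 txg_171 := ⟨_, fun h1 h2 h3 => (pr_addc h1 (enc_rat _ 1 16))⟩
noncomputable def txg_213_s : Sl3 txg_213 := ⟨_, fun h1 h2 h3 => (pr_subr 1 4 h1)⟩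
noncomputable def txg_215_s : Sl3 txg_215 := ⟨_, fun h1 h2 h3 => (pr_subr 3 25 h1)⟩
noncomputable def txg_237_s : Sl3 txg_237 := ⟨_, fun h1 h2 h3 => (pr_subr 9 50 h1)⟩
noncomputable def txg_279_s : Sl3 txg_279 := ⟨_, fun h1 h2 h3 => (pr_subr 19 50 h1)⟩
noncomputable def txg_281_s : Sl3 txg_281 := ⟨_, fun h1 h2 h3 => (pr_subr 8 25 h1)⟩
noncomputable def txg_323_s : Sl3 txg_323 := ⟨_, fun h1 h2 h3 => (pr_subr 7 16 h1)⟩
noncomputable def txg_s : Sl3 txg := ⟨_, fun h1 h2 h3 => (pr_case (pr_addc h1 (enc_rat _ 481 1106)) (pr_case (txg_27_s.snd h1 h2 h3) (pr_add (pr_add (pr_addc (pr_scale 1423 23750 h1) (enc_rat _ 1423 47500)) (pr_cmul (enc_norm (txg_4.enc h1.l h2.l h3)) (pr_norm (pr_addc (pr_scale 1413 4750 h1) (enc_rat _ 1413 9500))))) (pr_cmul (enc_norm (enc_subr 332763 1000000 (enc_neg (enc_scale 8673 5000 (txg_4.enc h1.l h2.l h3))))) (pr_norm (pr_mul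 (pr_norm (pr_addc h1 (enc_rat _ 1 2))) (pr_norm (pr_csub (enc_neg (enc_rat _ 181 400)) h1)))))) (pr_add (pr_add (pr_add (pr_addc (pr_scale 3303099213 43056580000 h1) (enc_rat _ 25875062729 688905280000)) (pr_cmul (enc_norm (txg_4.enc h1.l h2.l h3)) (pr_norm (pr_addc (pr_scale 279447811 861131600 h1) (enc_rat _ 277235847971 1722263200000))))) (pr_cmul (txg_63.enc h1.l h2.l h3) (pr_norm (pr_subr 41649729 97325000 (pr_neg (pr_scale 460218 486625 h1)))))) (pr_cmul (enc_norm (enc_add (enc_scale 145949 100000 (txg_4.enc h1.l h2.l h3)) (enc_rat _ 1899 62500))) (pr_norm (pr_mul (pr_norm (txg_27_s.snd h1 h2 h3)) (pr_norm (pr_csub (enc_neg (enc_rat _ 481 1106)) h1))))))) (pr_case (txg_77_s.snd h1 h2 h3) (pr_sub (pr_mul (pr_norm (pr_csub (enc_pnc _ 1) h2)) (pr_norm (pr_subn 1 (pr_nat 2 h2)))) (pr_mul (pr_norm (pr_nat 2 (pr_subc (pr_scale 4 3 (txg_6_s.snd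 h1 h2 h3)) h3))) (pr_norm (pr_mul (pr_norm (pr_subn 1 (pr_add (pr_scale 2 3 (txg_6_s.snd h1 h2 h3)) h2))) (kcg_s.snd h1 h3))))) (pr_case (txg_79_s.snd h1 h2 h3) (pr_case (txg_82_s.snd h1 h2 h3) (pr_case (txg_85_s.snd h1 h2 h3) (pr_add (pr_add (pr_add (pr_addc (pr_scale 516307313 3842720000 h1) (enc_rat _ 22591412987 384272000000)) (pr_cmul (enc_norm (txg_4.enc h1.l h2.l h3)) (pr_norm (pr_csub (enc_rat _ 312969591 192136000000) (pr_scale 200398587 1921360000 h1))))) (pr_cmul (txg_63.enc h1.l h2.l h3) (pr_norm (pr_subr 1445823 2350000 (pr_neg (pr_scale 53549 23500 h1)))))) (pr_cmul (enc_norm (enc_sub (enc_rat _ 205013 1000000) (enc_scale 78849 50000 (txg_4.enc h1.l h2.l h3)))) (pr_norm (pr_mul (pr_norm (txg_77_s.snd h1 h2 h3)) (pr_norm (pr_csub (enc_neg (enc_rat _ 27 100)) h1)))))) (pr_case (txg_114_s.snd h1 h2 h3) (pr_add (pr_add (pr_addc (pr_scale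 3989 35000 h1) (enc_rat _ 372997 7000000)) (pr_cmul (enc_norm (txg_4.enc h1.l h2.l h3)) (pr_norm (pr_addc (pr_scale 59 700 h1) (enc_rat _ 36783 700000))))) (pr_cmul (enc_norm (enc_sub (enc_rat _ 28679 200000) (enc_scale 76831 50000 (txg_4.enc h1.l h2.l h3)))) (pr_norm (pr_mul (pr_norm (txg_85_s.snd h1 h2 h3)) (pr_norm (pr_csub (enc_neg (enc_rat _ 1 5)) h1)))))) (pr_add (pr_add (pr_addc (pr_scale 549 6250 h1) (enc_rat _ 48059 1000000)) (pr_cmul (enc_norm (txg_4.enc h1.l h2.l h3)) (pr_norm (pr_addc (pr_scale 617 5000 h1) (enc_rat _ 6037 100000))))) (pr_cmul (enc_norm (enc_add (enc_scale 136821 100000 (txg_4.enc h1.l h2.l h3)) (enc_rat _ 10039 31250))) (pr_norm (pr_mul (pr_norm (txg_114_s.snd h1 h2 h3)) (pr_norm (pr_csub (enc_neg (enc_rat _ 3 20)) h1)))))))) (pr_case (txg_153_s.snd h1 h2 h3) (pr_add (pr_add (pr_addc (pr_scale 1327 25000 h1) (enc_rat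 _ 8569 200000)) (pr_cmul (enc_norm (txg_4.enc h1.l h2.l h3)) (pr_norm (pr_addc (pr_scale 39 1000 h1) (enc_rat _ 4771 100000))))) (pr_cmul (enc_norm (enc_add (enc_scale 7983 25000 (txg_4.enc h1.l h2.l h3)) (enc_rat _ 93619 250000))) (pr_norm (pr_mul (pr_norm (txg_82_s.snd h1 h2 h3)) (pr_norm (pr_csub (enc_neg (enc_rat _ 1 10)) h1)))))) (pr_case (txg_171_s.snd h1 h2 h3) (pr_add (pr_add (pr_addc (pr_scale 299 12500 h1) (enc_rat _ 39929 1000000)) (pr_cmul (enc_norm (txg_4.enc h1.l h2.l h3)) (pr_norm (pr_csub (enc_rat _ 11767 300000) (pr_scale 86 1875 h1))))) (pr_cmul (enc_norm (enc_add (enc_scale 7341 4000 (txg_4.enc h1.l h2.l h3)) (enc_rat _ 277831 1000000))) (pr_norm (pr_mul (pr_norm (txg_153_s.snd h1 h2 h3)) (pr_norm (pr_csub (enc_neg (enc_rat _ 1 16)) h1)))))) (pr_add (pr_add (pr_csub (enc_rat _ 37523 1000000) (pr_scale 911 62500 h1)) (pr_cmul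 (enc_norm (txg_4.enc h1.l h2.l h3)) (pr_norm (pr_csub (enc_rat _ 7519 200000) (pr_scale 899 12500 h1))))) (pr_cmul (enc_norm (enc_sub (enc_rat _ 56181 250000) (enc_scale 34177 100000 (txg_4.enc h1.l h2.l h3)))) (pr_norm (pr_mul (pr_norm (txg_171_s.snd h1 h2 h3)) (pr_norm (pr_csub (enc_rat _ 1 16) h1))))))))) (pr_case (txg_213_s.snd h1 h2 h3) (pr_case (txg_215_s.snd h1 h2 h3) (pr_add (pr_add (pr_csub (enc_rat _ 468713 11500000) (pr_scale 1907 28750 h1)) (pr_cmul (enc_norm (txg_4.enc h1.l h2.l h3)) (pr_norm (pr_csub (enc_rat _ 7623 230000) (pr_scale 2 2875 h1))))) (pr_cmul (enc_norm (enc_sub (enc_rat _ 205629 500000) (enc_scale 49463 100000 (txg_4.enc h1.l h2.l h3)))) (pr_norm (pr_mul (pr_norm (txg_79_s.snd h1 h2 h3)) (pr_norm (pr_csub (enc_rat _ 3 25) h1)))))) (pr_case (txg_237_s.snd h1 h2 h3) (pr_add (pr_add (pr_csub (enc_rat _ 5673 125000) (pr_scale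 6293 60000 h1)) (pr_cmul (enc_norm (txg_4.enc h1.l h2.l h3)) (pr_norm (pr_addc (pr_scale 151 3000 h1) (enc_rat _ 1351 50000))))) (pr_cmul (enc_norm (enc_sub (enc_rat _ 124339 500000) (enc_scale 37633 100000 (txg_4.enc h1.l h2.l h3)))) (pr_norm (pr_mul (pr_norm (txg_215_s.snd h1 h2 h3)) (pr_norm (pr_csub (enc_rat _ 9 50) h1)))))) (pr_add (pr_add (pr_csub (enc_rat _ 339993 7000000) (pr_scale 8581 70000 h1)) (pr_cmul (enc_norm (txg_4.enc h1.l h2.l h3)) (pr_norm (pr_addc (pr_scale 661 7000 h1) (enc_rat _ 6679 350000))))) (pr_cmul (enc_norm (enc_sub (enc_rat _ 19831 500000) (enc_scale 6133 20000 (txg_4.enc h1.l h2.l h3)))) (pr_norm (pr_mul (pr_norm (txg_237_s.snd h1 h2 h3)) (pr_norm (pr_csub (enc_rat _ 1 4) h1)))))))) (pr_case (txg_279_s.snd h1 h2 h3) (pr_case (txg_281_s.snd h1 h2 h3) (pr_add (pr_add (pr_csub (enc_rat _ 20973 437500) (pr_scale 2101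 17500 h1)) (pr_cmul (enc_norm (txg_4.enc h1.l h2.l h3)) (pr_norm (pr_addc (pr_scale 559 3500 h1) (enc_rat _ 1933 700000))))) (pr_cmul (enc_norm (enc_subr 37853 500000 (enc_neg (enc_scale 62707 100000 (txg_4.enc h1.l h2.l h3))))) (pr_norm (pr_mul (pr_norm (txg_213_s.snd h1 h2 h3)) (pr_norm (pr_csub (enc_rat _ 8 25) h1)))))) (pr_add (pr_add (pr_csub (enc_rat _ 1227 31250) (pr_scale 1859 20000 h1)) (pr_cmul (enc_norm (txg_4.enc h1.l h2.l h3)) (pr_norm (pr_csub (enc_rat _ 6701 60000) (pr_scale 271 1500 h1))))) (pr_cmul (enc_norm (enc_subr 72711 200000 (enc_scale 640317 100000 (txg_4.enc h1.l h2.l h3)))) (pr_norm (pr_mul (pr_norm (txg_281_s.snd h1 h2 h3)) (pr_norm (pr_csub (enc_rat _ 19 50) h1))))))) (pr_case (txg_323_s.snd h1 h2 h3) (pr_add (pr_add (pr_csub (enc_rat _ 24007 1000000) (pr_scale 33 625 h1)) (pr_cmul (enc_norm (txg_4.enc h1.l h2.l h3))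 (pr_norm (pr_csub (enc_rat _ 508761 2300000) (pr_scale 1348 2875 h1))))) (pr_cmul (enc_norm (enc_subr 159471 500000 (enc_neg (enc_scale 166907 100000 (txg_4.enc h1.l h2.l h3))))) (pr_norm (pr_mul (pr_norm (txg_279_s.snd h1 h2 h3)) (pr_norm (pr_csub (enc_rat _ 7 16) h1)))))) (pr_add (pr_add (pr_csub (enc_rat _ 907 125000) (pr_scale 907 62500 h1)) (pr_cmul (enc_norm (txg_4.enc h1.l h2.l h3)) (pr_norm (pr_csub (enc_rat _ 1607 12500) (pr_scale 1607 6250 h1))))) (pr_cmul (enc_norm (enc_subr 159707 500000 (enc_neg (enc_scale 185303 100000 (txg_4.enc h1.l h2.l h3))))) (pr_norm (pr_mul (pr_norm (txg_323_s.snd h1 h2 h3)) (pr_norm (pr_csub (enc_rat _ 1 2) h1))))))))))))⟩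
noncomputable def l0q0_s : Sl2 l0q0 := ⟨_, fun h1 h2 => (pr_norm (txg_s.snd (pr_norm (pr_sub (pr_scale 3 4 h1) (pr_half (c1g_s.snd h1)))) (pr_nd (c1g_s.snd h1)) h2))⟩
noncomputable def kf0q1_10_s : Sl2 kf0q1_10 := ⟨_, fun h1 h2 => (pr_scale 3 2 h1)⟩
noncomputable def kf0q1_s : Sl2 kf0q1 := ⟨_, fun h1 h2 => (pr_norm (pr_add (pr_mul (pr_norm (pr_mul (pr_norm (pr_cadd (enc_pnc _ 1) (pr_nat 2 (c1g_s.snd h1)))) (pr_norm (pr_sub (kf0q1_10_s.snd h1 h2) (c1g_s.snd h1))))) (pr_nd (pr_inv (pr_nat 2 (pr_sub (pr_cadd (enc_pnc _ 1) (kf0q1_10_s.snd h1 h2)) (c1g_s.snd h1)))))) (pr_mul (pr_norm (pr_subn 1 h1)) (kcg_s.snd (pr_norm (pr_sub (pr_scale 3 4 h1) (pr_half (c1g_s.snd h1)))) h2))))⟩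
noncomputable def l0q1_s : Sl2 l0q1 := ⟨_, fun h1 h2 => (pr_norm (txg_s.snd (pr_norm (pr_sub (pr_scale 3 4 h1) (pr_half (c1g_s.snd h1)))) (pr_nd (c1g_s.snd h1)) h2))⟩
noncomputable def yag_s : Sl1 yag := ⟨_, fun h1 => (pr_sqrt (pr_scale 4 3 (pr_csub (enc_pnc _ 1) (pr_sq h1))))⟩
noncomputable def kfc02_s : Sl2 kfc02 := ⟨_, fun h1 h2 => (pr_norm (pr_add h1 (pr_mul (pr_norm (pr_subn 1 (yag_s.snd h1))) (kcg_s.snd (pr_nd (pr_neg h1)) h2))))⟩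
noncomputable def lc02_7_s : Sl2 lc02_7 := ⟨_, fun h1 h2 => (pr_scale 3 4 (yag_s.snd h1))⟩
noncomputable def lc02_8_s : Sl2 lc02_8 := ⟨_, fun h1 h2 => (pr_half h1)⟩
noncomputable def lc02_s : Sl2 lc02 := ⟨_, fun h1 h2 => (pr_norm (pr_sub (txg_s.snd (pr_nd (pr_neg h1)) (pr_norm (pr_add (lc02_7_s.snd h1 h2) (lc02_8_s.snd h1 h2))) h2) (txg_s.snd h1 (pr_norm (pr_sub (lc02_7_s.snd h1 h2) (lc02_8_s.snd h1 h2))) h2)))⟩
noncomputable def swg_s : Sl1 swg := ⟨_, fun h1 => (pr_sqrt (pr_csub (enc_pnc _ 1) (pr_scale 3 4 (pr_sq (pr_norm (pr_subn 1 h1))))))⟩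
noncomputable def cv1m_s : Sl1 cv1m := ⟨_, fun h1 => (pr_norm (pr_add (pr_half (c1g_s.snd h1)) (pr_half (pr_addc (swg_s.snd h1) (enc_rat _ 1 2)))))⟩
noncomputable def bf1q0_s : Sl2 bf1q0 := ⟨_, fun h1 h2 => (pr_norm (pr_sub (pr_csub (enc_pnc _ 1) (pr_scale 342697 500000 h1)) (pr_cmul (enc_norm (enc_subr 5 32 h2)) (pr_nd (pr_scale 24713 50000 h1)))))⟩
noncomputable def kf1q0_s : Sl2 kf1q0 := ⟨_, fun h1 h2 => (pr_norm (pr_mul (cv1m_s.snd h1) (bf1q0_s.snd h1 h2)))⟩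
noncomputable def bx1q0_s : Sl2 bx1q0 := ⟨_, fun h1 h2 => (pr_norm (pr_add (pr_scale 121 500000 h1) (pr_cmul (enc_norm (enc_subr 5 32 h2)) (pr_nd (pr_scale 3429 25000 h1)))))⟩
noncomputable def l1q0_s : Sl2 l1q0 := ⟨_, fun h1 h2 => (pr_norm (pr_mul (cv1m_s.snd h1) (bx1q0_s.snd h1 h2)))⟩
noncomputable def bf1q1_s : Sl2 bf1q1 := ⟨_, fun h1 h2 => (pr_norm (pr_case (pr_subr 4 5 h1) (pr_case (pr_subr 7 10 h1) (pr_add (pr_addc (pr_scale 28489 50000 h1) (enc_rat _ 12351 250000)) (pr_cmul (enc_norm (bf1q1_3.enc h1.l h2)) (pr_norm (pr_subr 317519 200000 (pr_scale 4863 4000 h1))))) (pr_add (pr_addc (pr_scale 57317 100000 h1) (enc_rat _ 47031 1000000)) (pr_cmul (enc_norm (bf1q1_3.enc h1.l h2)) (pr_norm (pr_subr 31831 20000 (pr_scale 6107 5000 h1)))))) (pr_case (pr_subr 7 8 h1) (pr_add (pr_addc (pr_scale 43271 75000 h1) (enc_rat _ 132029 3000000)) (pr_cmul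 (enc_norm (bf1q1_3.enc h1.l h2)) (pr_norm (pr_subr 159779 100000 (pr_scale 3073 2500 h1))))) (pr_case (pr_subr 19 20 h1) (pr_add (pr_addc (pr_scale 1451 2500 h1) (enc_rat _ 10247 250000)) (pr_cmul (enc_norm (bf1q1_3.enc h1.l h2)) (pr_norm (pr_subr 40111 25000 (pr_scale 773 625 h1))))) (pr_add (pr_addc (pr_scale 7283 12500 h1) (enc_rat _ 1943 50000)) (pr_cmul (enc_norm (bf1q1_3.enc h1.l h2)) (pr_norm (pr_subr 80431 50000 (pr_scale 3103 2500 h1)))))))))⟩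
noncomputable def kf1q1_s : Sl2 kf1q1 := ⟨_, fun h1 h2 => (pr_norm (pr_mul (cv1m_s.snd h1) (bf1q1_s.snd h1 h2)))⟩
noncomputable def bx1q1_s : Sl2 bx1q1 := ⟨_, fun h1 h2 => (pr_norm (pr_case (pr_subr 4 5 h1) (pr_case (pr_subr 7 10 h1) (pr_add (pr_csub (enc_rat _ 64579 2000000) (pr_scale 10513 200000 h1)) (pr_cmul (enc_norm (bx1q1_3.enc h1.l h2)) (pr_norm (pr_csub (enc_rat _ 77113 100000) (pr_scale 309 400 h1))))) (pr_add (pr_csub (enc_rat _ 26861 1000000) (pr_scale 4481 100000 h1)) (pr_cmul (enc_norm (bx1q1_3.enc h1.l h2)) (pr_norm (pr_csub (enc_rat _ 74607 100000) (pr_scale 7367 10000 h1)))))) (pr_case (pr_subr 7 8 h1) (pr_add (pr_csub (enc_rat _ 51823 3000000) (pr_scale 1231 37500 h1)) (pr_cmul (enc_norm (bx1q1_3.enc h1.l h2)) (pr_norm (pr_csub (enc_rat _ 216421 300000) (pr_scale 2647 3750 h1))))) (pr_case (pr_subr 19 20 h1) (pr_add (pr_csub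 (enc_rat _ 19483 3000000) (pr_scale 769 37500 h1)) (pr_cmul (enc_norm (bx1q1_3.enc h1.l h2)) (pr_norm (pr_csub (enc_rat _ 52609 75000) (pr_scale 5123 7500 h1))))) (pr_add (pr_subr 79 62500 (pr_neg (pr_scale 617 50000 h1))) (pr_cmul (enc_norm (bx1q1_3.enc h1.l h2)) (pr_norm (pr_csub (enc_rat _ 17283 25000) (pr_scale 1681 2500 h1)))))))))⟩
noncomputable def l1q1_s : Sl2 l1q1 := ⟨_, fun h1 h2 => (pr_norm (pr_mul (cv1m_s.snd h1) (bx1q1_s.snd h1 h2)))⟩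
noncomputable def cv1p_s : Sl1 cv1p := ⟨_, fun h1 => (pr_norm (pr_add (pr_half (c1g_s.snd h1)) (pr_half (pr_subr 1 2 (swg_s.snd h1)))))⟩
noncomputable def bf1q2_s : Sl2 bf1q2 := ⟨_, fun h1 h2 => (pr_norm (pr_case (pr_subr 577 500 h1) (pr_case (pr_subr 53 50 h1) (pr_case (pr_subr 103 100 h1) (pr_add (pr_addc (pr_scale 721 7500 h1) (enc_rat _ 6779 7500)) (pr_cmul (enc_norm (bf1q2_3.enc h1.l h2)) (pr_norm (pr_csub (enc_rat _ 561 500) (pr_scale 561 500 h1))))) (pr_add (pr_addc (pr_scale 2231 15000 h1) (enc_rat _ 1274533 1500000)) (pr_cmul (enc_norm (bf1q2_3.enc h1.l h2)) (pr_norm (pr_csub (enc_rat _ 1019 1000) (pr_scale 511 500 h1)))))) (pr_case (pr_subr 11 10 h1) (pr_add (pr_addc (pr_scale 1637 8000 h1) (enc_rat _ 1580887 2000000)) (pr_cmul (enc_norm (bf1q2_3.enc h1.l h2)) (pr_norm (pr_csub (enc_rat _ 73473 200000) (pr_scale 1629 4000 h1))))) (pr_add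 (pr_addc (pr_scale 1477733 6750000 h1) (enc_rat _ 104586559 135000000)) (pr_cmul (enc_norm (bf1q2_3.enc h1.l h2)) (pr_norm (pr_csub (enc_rat _ 507949 4500000) (pr_scale 39577 225000 h1))))))) (pr_case (pr_subr 29 25 h1) (pr_case (pr_subr 231 200 h1) (pr_add (pr_addc (pr_scale 11101 62500 h1) (enc_rat _ 51399 62500)) (pr_cmul (enc_norm (bf1q2_3.enc h1.l h2)) (pr_norm (pr_csub (enc_rat _ 3657 6250) (pr_scale 3657 6250 h1))))) (pr_add (pr_addc (pr_scale 21963 125000 h1) (enc_rat _ 20614809 25000000)) (pr_cmul (enc_norm (bf1q2_3.enc h1.l h2)) (pr_norm (pr_csub (enc_rat _ 1422837 2500000) (pr_scale 7141 12500 h1)))))) (pr_case (pr_subr 5 4 h1) (pr_add (pr_addc (pr_scale 1301 7500 h1) (enc_rat _ 2481563 3000000)) (pr_cmul (enc_norm (bf1q2_3.enc h1.l h2)) (pr_norm (pr_csub (enc_rat _ 503693 900000) (pr_scale 1267 2250 h1))))) (pr_case (pr_subr 27 20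 h1) (pr_add (pr_addc (pr_scale 17149 100000 h1) (enc_rat _ 1659317 2000000)) (pr_cmul (enc_norm (bf1q2_3.enc h1.l h2)) (pr_norm (pr_csub (enc_rat _ 110179 200000) (pr_scale 5561 10000 h1))))) (pr_add (pr_addc (pr_scale 5107 30000 h1) (enc_rat _ 166271 200000)) (pr_cmul (enc_norm (bf1q2_3.enc h1.l h2)) (pr_norm (pr_csub (enc_rat _ 10909 20000) (pr_scale 8281 15000 h1))))))))))⟩
noncomputable def kf1q2_s : Sl2 kf1q2 := ⟨_, fun h1 h2 => (pr_norm (pr_mul (cv1p_s.snd h1) (bf1q2_s.snd h1 h2)))⟩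
noncomputable def bx1q2_s : Sl2 bx1q2 := ⟨_, fun h1 h2 => (pr_norm (pr_case (pr_subr 577 500 h1) (pr_case (pr_subr 53 50 h1) (pr_case (pr_subr 103 100 h1) (pr_add (pr_subr 1897 15000 (pr_scale 1897 15000 h1)) (pr_cmul (enc_norm (bx1q2_3.enc h1.l h2)) (pr_norm (pr_subr 121 375 (pr_scale 121 375 h1))))) (pr_add (pr_subr 319583 1500000 (pr_scale 1579 7500 h1)) (pr_cmul (enc_norm (bx1q2_3.enc h1.l h2)) (pr_norm (pr_subr 19259 30000 (pr_scale 949 1500 h1)))))) (pr_case (pr_subr 11 10 h1) (pr_add (pr_subr 8171 40000 (pr_scale 809 4000 h1)) (pr_cmul (enc_norm (bx1q2_3.enc h1.l h2)) (pr_norm (pr_subr 78701 100000 (pr_scale 1539 2000 h1))))) (pr_add (pr_subr 27661 135000 (pr_scale 1369 6750 h1)) (pr_cmul (enc_norm (bx1q2_3.enc h1.l h2)) (pr_norm (pr_subr 560189 337500 (pr_scale 211 135 h1))))))) (pr_case (pr_subr 29 25 h1) (pr_casec1 (pr_subr 231 200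 h1) (enc_add (enc_rat _ 911 31250) (enc_scale 899 6250 (bx1q2_3.enc h1.l h2))) (pr_add (pr_addc (pr_scale 9 2500 h1) (enc_rat _ 12497 500000)) (pr_cmul (enc_norm (bx1q2_3.enc h1.l h2)) (pr_norm (pr_addc (pr_scale 1 500 h1) (enc_rat _ 14153 100000)))))) (pr_case (pr_subr 5 4 h1) (pr_add (pr_addc (pr_scale 53 15000 h1) (enc_rat _ 37607 1500000)) (pr_cmul (enc_norm (bx1q2_3.enc h1.l h2)) (pr_norm (pr_addc (pr_scale 173 4500 h1) (enc_rat _ 89329 900000))))) (pr_case (pr_subr 27 20 h1) (pr_add (pr_addc (pr_scale 227 50000 h1) (enc_rat _ 23813 1000000)) (pr_cmul (enc_norm (bx1q2_3.enc h1.l h2)) (pr_norm (pr_addc (pr_scale 231 5000 h1) (enc_rat _ 2239 25000))))) (pr_add (pr_addc (pr_scale 709 150000 h1) (enc_rat _ 23561 1000000)) (pr_cmul (enc_norm (bx1q2_3.enc h1.l h2)) (pr_norm (pr_addc (pr_scale 703 15000 h1) (enc_rat _ 4433 50000))))))))))⟩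
noncomputable def l1q2_s : Sl2 l1q2 := ⟨_, fun h1 h2 => (pr_norm (pr_mul (cv1p_s.snd h1) (bx1q2_s.snd h1 h2)))⟩
noncomputable def cv1r_s : Sl1 cv1r := ⟨_, fun h1 => (pr_norm (pr_half (pr_subr 1 2 (swg_s.snd h1))))⟩
noncomputable def bf1q3_s : Sl2 bf1q3 := ⟨_, fun h1 h2 => (pr_norm (pr_add (pr_subr 20381 1000000 (pr_scale 217 62500 h1)) (pr_cmul (enc_norm (enc_subr 5 32 h2)) (pr_norm (pr_subr 5129 100000 (pr_scale 53 5000 h1))))))⟩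
noncomputable def kf1q3_s : Sl2 kf1q3 := ⟨_, fun h1 h2 => (pr_norm (pr_mul (cv1r_s.snd h1) (bf1q3_s.snd h1 h2)))⟩
noncomputable def bx1q3_s : Sl2 bx1q3 := ⟨_, fun h1 h2 => (pr_norm (pr_add (pr_csub (enc_rat _ 61643 1000000) (pr_scale 1593 125000 h1)) (pr_cmul (enc_norm (enc_subr 5 32 h2)) (pr_norm (pr_csub (enc_rat _ 25989 100000) (pr_scale 339 6250 h1))))))⟩
noncomputable def l1q3_s : Sl2 l1q3 := ⟨_, fun h1 h2 => (pr_norm (pr_mul (cv1r_s.snd h1) (bx1q3_s.snd h1 h2)))⟩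
noncomputable def cv2m_s : Sl1 cv2m := ⟨_, fun h1 => (pr_norm (pr_add (pr_scale 1 10 (c1g_s.snd h1)) (pr_scale 9 10 (pr_addc (swg_s.snd h1) (enc_rat _ 1 2)))))⟩
noncomputable def bf2q0_s : Sl2 bf2q0 := ⟨_, fun h1 h2 => (pr_norm (pr_sub (pr_csub (enc_pnc _ 1) (pr_scale 219113 500000 h1)) (pr_cmul (enc_norm (enc_subr 5 32 h2)) (pr_nd (pr_scale 15487 50000 h1)))))⟩
noncomputable def kf2q0_s : Sl2 kf2q0 := ⟨_, fun h1 h2 => (pr_norm (pr_mul (cv2m_s.snd h1) (bf2q0_s.snd h1 h2)))⟩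
noncomputable def bx2q0_s : Sl2 bx2q0 := ⟨_, fun h1 h2 => (pr_norm (pr_sub (pr_scale 27681 250000 h1) (pr_cmul (enc_norm (enc_subr 5 32 h2)) (pr_nd (pr_scale 62003 50000 h1)))))⟩
noncomputable def l2q0_s : Sl2 l2q0 := ⟨_, fun h1 h2 => (pr_norm (pr_mul (cv2m_s.snd h1) (bx2q0_s.snd h1 h2)))⟩
noncomputable def bf2q1_s : Sl2 bf2q1 := ⟨_, fun h1 h2 => (pr_norm (pr_case (pr_subr 4 5 h1) (pr_case (pr_subr 7 10 h1) (pr_add (pr_subr 27601 1000000 (pr_scale 123 125 h1)) (pr_cmul (enc_norm (bf2q1_3.enc h1.l h2)) (pr_norm (pr_csub (enc_rat _ 11451 8000) (pr_scale 27551 20000 h1))))) (pr_add (pr_subr 33201 1000000 (pr_scale 124 125 h1)) (pr_cmul (enc_norm (bf2q1_3.enc h1.l h2)) (pr_norm (pr_csub (enc_rat _ 72281 50000) (pr_scale 13979 10000 h1)))))) (pr_case (pr_subr 7 8 h1) (pr_add (pr_subr 41553 1000000 (pr_scale 25061 25000 h1)) (pr_cmul (enc_norm (bf2q1_3.enc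 h1.l h2)) (pr_norm (pr_csub (enc_rat _ 44251 30000) (pr_scale 538 375 h1))))) (pr_case (pr_subr 19 20 h1) (pr_add (pr_subr 13127 250000 (pr_scale 12687 12500 h1)) (pr_cmul (enc_norm (bf2q1_3.enc h1.l h2)) (pr_norm (pr_csub (enc_rat _ 91183 60000) (pr_scale 11143 7500 h1))))) (pr_add (pr_subr 56517 1000000 (pr_scale 50959 50000 h1)) (pr_cmul (enc_norm (bf2q1_3.enc h1.l h2)) (pr_norm (pr_csub (enc_rat _ 31129 20000) (pr_scale 3811 2500 h1)))))))))⟩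
noncomputable def kf2q1_s : Sl2 kf2q1 := ⟨_, fun h1 h2 => (pr_norm (pr_mul (cv2m_s.snd h1) (bf2q1_s.snd h1 h2)))⟩
noncomputable def bx2q1_s : Sl2 bx2q1 := ⟨_, fun h1 h2 => (pr_norm (pr_case (pr_subr 4 5 h1) (pr_case (pr_subr 7 10 h1) (pr_add (pr_csub (enc_rat _ 47739 2000000) (pr_scale 3351 200000 h1)) (pr_cmul (enc_norm (bx2q1_3.enc h1.l h2)) (pr_norm (pr_csub (enc_rat _ 122589 200000) (pr_scale 2629 4000 h1))))) (pr_add (pr_csub (enc_rat _ 3391 125000) (pr_scale 2141 100000 h1)) (pr_cmul (enc_norm (bx2q1_3.enc h1.l h2)) (pr_norm (pr_csub (enc_rat _ 1958 3125) (pr_scale 6767 10000 h1)))))) (pr_case (pr_subr 7 8 h1) (pr_add (pr_csub (enc_rat _ 281 7500) (pr_scale 103 3000 h1)) (pr_cmul (enc_norm (bx2q1_3.enc h1.l h2)) (pr_norm (pr_csub (enc_rat _ 8033 12500) (pr_scale 871 1250 h1))))) (pr_case (pr_subr 19 20 h1) (pr_add (pr_csub (enc_rat _ 1811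 37500) (pr_scale 3503 75000 h1)) (pr_cmul (enc_norm (bx2q1_3.enc h1.l h2)) (pr_norm (pr_csub (enc_rat _ 23697 50000) (pr_scale 63 125 h1))))) (pr_add (pr_csub (enc_rat _ 25483 500000) (pr_scale 619 12500 h1)) (pr_cmul (enc_norm (bx2q1_3.enc h1.l h2)) (pr_norm (pr_csub (enc_rat _ 26437 100000) (pr_scale 1417 5000 h1)))))))))⟩
noncomputable def l2q1_s : Sl2 l2q1 := ⟨_, fun h1 h2 => (pr_norm (pr_mul (cv2m_s.snd h1) (bx2q1_s.snd h1 h2)))⟩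
noncomputable def cv2p_s : Sl1 cv2p := ⟨_, fun h1 => (pr_norm (pr_add (pr_scale 1 10 (c1g_s.snd h1)) (pr_scale 9 10 (pr_subr 1 2 (swg_s.snd h1)))))⟩
noncomputable def bf2q2_s : Sl2 bf2q2 := ⟨_, fun h1 h2 => (pr_norm (pr_case (pr_subr 11 10 h1) (pr_case (pr_subr 103 100 h1) (pr_add (pr_csub (enc_rat _ 11791 10000) (pr_scale 1791 10000 h1)) (pr_cmul (enc_norm (bf2q2_3.enc h1.l h2)) (pr_norm (pr_csub (enc_rat _ 299 250) (pr_scale 299 250 h1))))) (pr_case (pr_subr 53 50 h1) (pr_add (pr_csub (enc_rat _ 648157 500000) (pr_scale 2929 10000 h1)) (pr_cmul (enc_norm (bf2q2_3.enc h1.l h2)) (pr_norm (pr_csub (enc_rat _ 53117 60000) (pr_scale 2683 3000 h1))))) (pr_add (pr_csub (enc_rat _ 21737 16000) (pr_scale 2813 8000 h1)) (pr_cmul (enc_norm (bf2q2_3.enc h1.l h2)) (pr_norm (pr_csub (enc_rat _ 93829 200000) (pr_scale 2007 4000 h1))))))) (pr_case (pr_subr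 5 4 h1) (pr_case (pr_subr 29 25 h1) (pr_add (pr_csub (enc_rat _ 809071 600000) (pr_scale 10273 30000 h1)) (pr_cmul (enc_norm (bf2q2_3.enc h1.l h2)) (pr_norm (pr_csub (enc_rat _ 17641 50000) (pr_scale 99 250 h1))))) (pr_add (pr_csub (enc_rat _ 4017167 3000000) (pr_scale 1003 3000 h1)) (pr_cmul (enc_norm (bf2q2_3.enc h1.l h2)) (pr_norm (pr_csub (enc_rat _ 17061 50000) (pr_scale 193 500 h1)))))) (pr_case (pr_subr 27 20 h1) (pr_add (pr_csub (enc_rat _ 666457 500000) (pr_scale 16471 50000 h1)) (pr_cmul (enc_norm (bf2q2_3.enc h1.l h2)) (pr_norm (pr_csub (enc_rat _ 66669 200000) (pr_scale 3797 10000 h1))))) (pr_add (pr_csub (enc_rat _ 664711 500000) (pr_scale 1961 6000 h1)) (pr_cmul (enc_norm (bf2q2_3.enc h1.l h2)) (pr_norm (pr_csub (enc_rat _ 16503 50000) (pr_scale 5659 15000 h1)))))))))⟩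
noncomputable def kf2q2_s : Sl2 kf2q2 := ⟨_, fun h1 h2 => (pr_norm (pr_mul (cv2p_s.snd h1) (bf2q2_s.snd h1 h2)))⟩
noncomputable def bx2q2_s : Sl2 bx2q2 := ⟨_, fun h1 h2 => (pr_norm (pr_case (pr_subr 11 10 h1) (pr_case (pr_subr 103 100 h1) (pr_add (pr_subr 33 400 (pr_scale 33 400 h1)) (pr_cmul (enc_norm (bx2q2_3.enc h1.l h2)) (pr_norm (pr_subr 227 600 (pr_scale 227 600 h1))))) (pr_case (pr_subr 53 50 h1) (pr_add (pr_subr 1907 15000 (pr_scale 151 1200 h1)) (pr_cmul (enc_norm (bx2q2_3.enc h1.l h2)) (pr_norm (pr_subr 212483 300000 (pr_scale 262 375 h1))))) (pr_add (pr_subr 303221 2000000 (pr_scale 5957 40000 h1)) (pr_cmul (enc_norm (bx2q2_3.enc h1.l h2)) (pr_norm (pr_subr 213 50000 (pr_scale 69 2000 h1))))))) (pr_case (pr_subr 5 4 h1) (pr_case (pr_subr 29 25 h1) (pr_add (pr_subr 237383 1000000 (pr_scale 2269 10000 h1)) (pr_cmul (enc_norm (bx2q2_3.enc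 h1.l h2)) (pr_norm (pr_subr 139741 100000 (pr_scale 1301 1000 h1))))) (pr_add (pr_subr 402419 1800000 (pr_scale 19349 90000 h1)) (pr_cmul (enc_norm (bx2q2_3.enc h1.l h2)) (pr_norm (pr_subr 795061 900000 (pr_scale 7721 9000 h1)))))) (pr_case (pr_subr 27 20 h1) (pr_add (pr_subr 86547 400000 (pr_scale 20923 100000 h1)) (pr_cmul (enc_norm (bx2q2_3.enc h1.l h2)) (pr_norm (pr_subr 173133 200000 (pr_scale 8437 10000 h1))))) (pr_add (pr_subr 106881 500000 (pr_scale 2073 10000 h1)) (pr_cmul (enc_norm (bx2q2_3.enc h1.l h2)) (pr_norm (pr_subr 42903 50000 (pr_scale 12571 15000 h1)))))))))⟩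
noncomputable def l2q2_s : Sl2 l2q2 := ⟨_, fun h1 h2 => (pr_norm (pr_mul (cv2p_s.snd h1) (bx2q2_s.snd h1 h2)))⟩
noncomputable def cv2r_s : Sl1 cv2r := ⟨_, fun h1 => (pr_norm (pr_scale 9 10 (pr_subr 1 2 (swg_s.snd h1))))⟩
noncomputable def bf2q3_s : Sl2 bf2q3 := ⟨_, fun h1 h2 => (pr_norm (pr_add (pr_addc (pr_scale 1097 100000 h1) (enc_rat _ 635621 1000000)) (pr_cmul (enc_norm (enc_subr 5 32 h2)) (pr_norm (pr_subr 2447 1250 (pr_scale 1499 50000 h1))))))⟩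
noncomputable def kf2q3_s : Sl2 kf2q3 := ⟨_, fun h1 h2 => (pr_norm (pr_mul (cv2r_s.snd h1) (bf2q3_s.snd h1 h2)))⟩
noncomputable def bx2q3_s : Sl2 bx2q3 := ⟨_, fun h1 h2 => (pr_norm (pr_add (pr_addc (pr_scale 61 20000 h1) (enc_rat _ 91751 1000000)) (pr_cmul (enc_norm (enc_subr 5 32 h2)) (pr_norm (pr_csub (enc_rat _ 96789 100000) (pr_scale 7139 25000 h1))))))⟩
noncomputable def l2q3_s : Sl2 l2q3 := ⟨_, fun h1 h2 => (pr_norm (pr_mul (cv2r_s.snd h1) (bx2q3_s.snd h1 h2)))⟩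
noncomputable def c3g_s : Sl1 c3g := ⟨_, fun h1 => (pr_sqrtg (pr_csub (enc_pnc _ 3) (pr_scale 3 4 (pr_sq h1))))⟩
noncomputable def cv3m_s : Sl1 cv3m := ⟨_, fun h1 => (pr_norm (pr_add (pr_scale 4 5 (pr_addc (swg_s.snd h1) (enc_rat _ 1 2))) (pr_scale 1 5 (c3g_s.snd h1))))⟩
noncomputable def bf3q0_s : Sl2 bf3q0 := ⟨_, fun h1 h2 => (pr_norm (pr_add (pr_csub (enc_rat _ 608259 1000000) (pr_scale 21061 250000 h1)) (pr_cmul (enc_norm (enc_subr 5 32 h2)) (pr_norm (pr_csub (enc_rat _ 27753 25000) (pr_scale 7931 50000 h1))))))⟩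
noncomputable def kf3q0_s : Sl2 kf3q0 := ⟨_, fun h1 h2 => (pr_norm (pr_mul (cv3m_s.snd h1) (bf3q0_s.snd h1 h2)))⟩
noncomputable def bx3q0_s : Sl2 bx3q0 := ⟨_, fun h1 h2 => (pr_norm (pr_add (pr_addc (pr_scale 6399 250000 h1) (enc_rat _ 5553 1000000)) (pr_cmul (enc_norm (enc_subr 5 32 h2)) (pr_norm (pr_subr 759 25000 (pr_scale 127 200 h1))))))⟩
noncomputable def l3q0_s : Sl2 l3q0 := ⟨_, fun h1 h2 => (pr_norm (pr_mul (cv3m_s.snd h1) (bx3q0_s.snd h1 h2)))⟩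
noncomputable def gsg_s : Sl1 gsg := ⟨_, fun h1 => (pr_sqrt (pr_csub (enc_pnc _ 1) (pr_scale 3 4 (pr_sq h1))))⟩
noncomputable def esg_s : Sl1 esg := ⟨_, fun h1 => (pr_norm (pr_subn 1 (pr_add (pr_half h1) (gsg_s.snd h1))))⟩
noncomputable def kf3q1_51_s : Sl2 kf3q1_51 := ⟨_, fun h1 h2 => (pr_csub (enc_pnc _ 1) h1)⟩
noncomputable def kf3q1_52_s : Sl2 kf3q1_52 := ⟨_, fun h1 h2 => (gsg_s.snd (pr_norm (kf3q1_51_s.snd h1 h2)))⟩
noncomputable def kf3q1_58_s : Sl2 kf3q1_58 := ⟨_, fun h1 h2 => (pr_scale 3 2 (kf3q1_51_s.snd h1 h2))⟩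
noncomputable def kf3q1_60_s : Sl2 kf3q1_60 := ⟨_, fun h1 h2 => (pr_cadd (enc_pnc _ 1) (kf3q1_52_s.snd h1 h2))⟩
noncomputable def kf3q1_79_s : Sl2 kf3q1_79 := ⟨_, fun h1 h2 => (pr_mul (cv2m_s.snd h1) (bf2q1_s.snd h1 h2))⟩
noncomputable def kf3q1_s : Sl2 kf3q1 := ⟨_, fun h1 h2 => (pr_norm (pr_case (pr_subr 99 128 h1) (pr_mul (cv3m_s.snd h1) (pr_norm (pr_case (pr_subr 7 10 h1) (pr_add (pr_addc (pr_scale 47643 100000 h1) (enc_rat _ 480807 1000000)) (pr_cmul (enc_norm (kf3q1_4.enc h1.l h2)) (pr_norm (pr_subr 36913 25000 (pr_scale 1903 1000 h1))))) (pr_add (pr_addc (pr_scale 87872923 183593750 h1) (enc_rat _ 3519632531 7343750000)) (pr_cmul (enc_norm (kf3q1_4.enc h1.l h2)) (pr_norm (pr_subr 2177837247 1468750000 (pr_scale 70204299 36718750 h1)))))))) (pr_case (pr_subr 117 128 h1) (pr_add (kf3q1_79_s.snd h1 h2) (pr_mul (pr_norm (pr_mul (pr_norm (pr_sub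 (pr_add (pr_add (pr_mul (pr_norm (pr_mul (pr_norm (pr_sub (kf3q1_52_s.snd h1 h2) (kf3q1_58_s.snd h1 h2))) (pr_norm (kf3q1_60_s.snd h1 h2)))) (pr_nd (pr_inv (pr_sub (kf3q1_60_s.snd h1 h2) (kf3q1_58_s.snd h1 h2))))) (pr_mul (pr_norm (pr_sub (pr_half (kf3q1_51_s.snd h1 h2)) (pr_mul (pr_nd (pr_scale 3 4 (pr_sq (pr_norm (kf3q1_51_s.snd h1 h2))))) (pr_nd (pr_inv (kf3q1_52_s.snd h1 h2)))))) (pr_nd (pr_inv (pr_nat 2 (esg_s.snd (pr_norm (kf3q1_51_s.snd h1 h2)))))))) (pr_mul (kcg_s.snd (pr_norm (pr_sub (pr_scale 3 4 (kf3q1_51_s.snd h1 h2)) (pr_half (kf3q1_52_s.snd h1 h2)))) h2) (pr_norm (kf3q1_51_s.snd h1 h2)))) (kf3q1_79_s.snd h1 h2))) (pr_norm (pr_sub (cv3m_s.snd h1) (cv2m_s.snd h1))))) (pr_nd (pr_inv (pr_sub (pr_addc (swg_s.snd h1) (enc_rat _ 1 2)) (cv2m_s.snd h1)))))) (pr_mul (cv3m_s.snd h1) (pr_norm (pr_case (pr_subr 19 20 h1) (pr_add (pr_addc (pr_scale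 107645691 179687500 h1) (enc_rat _ 2909930617 7187500000)) (pr_cmul (enc_norm (kf3q1_4.enc h1.l h2)) (pr_norm (pr_subr 2808708 44921875 (pr_scale 690081 17968750 h1))))) (pr_add (pr_addc (pr_scale 13011 25000 h1) (enc_rat _ 11989 25000)) (pr_cmul (enc_norm (kf3q1_4.enc h1.l h2)) (pr_norm (pr_subr 651 1250 (pr_scale 651 1250 h1)))))))))))⟩
noncomputable def qsg_s : Sl1 qsg := ⟨_, fun h1 => (pr_norm (pr_mul (pr_norm (pr_csub (enc_pnc _ 1) (gsg_s.snd h1))) (pr_norm (pr_subn 1 (pr_nat 2 (gsg_s.snd h1))))))⟩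
noncomputable def l3q1_68_s : Sl2 l3q1_68 := ⟨_, fun h1 h2 => (pr_csub (enc_pnc _ 1) h1)⟩
noncomputable def l3q1_83_s : Sl2 l3q1_83 := ⟨_, fun h1 h2 => (pr_mul (cv2m_s.snd h1) (bx2q1_s.snd h1 h2))⟩
noncomputable def l3q1_s : Sl2 l3q1 := ⟨_, fun h1 h2 => (pr_norm (pr_case (pr_subr 99 128 h1) (pr_mul (cv3m_s.snd h1) (pr_norm (pr_case (pr_subr 7 10 h1) (pr_add (pr_csub (enc_rat _ 55141 2000000) (pr_scale 7 320 h1)) (pr_cmul (enc_norm (l3q1_4.enc h1.l h2)) (pr_norm (pr_csub (enc_rat _ 6207 50000) (pr_scale 2083 10000 h1))))) (pr_add (pr_add (pr_csub (enc_rat _ 8672511 312500000) (pr_scale 345849 15625000 h1)) (pr_cmul (enc_norm (l3q1_4.enc h1.l h2)) (pr_norm (pr_subr 27143441 117500000 (pr_scale 219618 734375 h1))))) (pr_cmul (l3q1_31.enc h1.l h2) (pr_norm (pr_subr 602049 734375 (pr_scale 172014 146875 h1)))))))) (pr_case (pr_subr 117 128 h1) (pr_add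 (l3q1_83_s.snd h1 h2) (pr_mul (pr_norm (pr_mul (pr_norm (pr_sub (pr_sub (qsg_s.snd (pr_norm (l3q1_68_s.snd h1 h2))) (pr_mul (pr_norm (pr_nat 2 (pr_subc (l3q1_68_s.snd h1 h2) h2))) (pr_norm (pr_mul (esg_s.snd (pr_norm (l3q1_68_s.snd h1 h2))) (kcg_s.snd (pr_norm (pr_sub (pr_scale 3 4 (l3q1_68_s.snd h1 h2)) (pr_half (gsg_s.snd (pr_norm (l3q1_68_s.snd h1 h2)))))) h2))))) (l3q1_83_s.snd h1 h2))) (pr_norm (pr_sub (cv3m_s.snd h1) (cv2m_s.snd h1))))) (pr_nd (pr_inv (pr_sub (pr_addc (swg_s.snd h1) (enc_rat _ 1 2)) (cv2m_s.snd h1)))))) (pr_mul (cv3m_s.snd h1) (pr_norm (pr_case (pr_subr 19 20 h1) (pr_add (pr_add (pr_csub (enc_rat _ 557715081 14375000000) (pr_scale 7118381 179687500 h1)) (pr_cmul (enc_norm (l3q1_4.enc h1.l h2)) (pr_norm (pr_csub (enc_rat _ 264608889 1437500000) (pr_scale 6708803 35937500 h1))))) (pr_cmul (l3q1_31.enc h1.l h2) (pr_norm (pr_subr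 112214 359375 (pr_scale 23624 71875 h1))))) (pr_add (pr_csub (enc_rat _ 1163 50000) (pr_scale 1163 50000 h1)) (pr_cmul (enc_norm (l3q1_4.enc h1.l h2)) (pr_norm (pr_csub (enc_rat _ 673 5000) (pr_scale 673 5000 h1)))))))))))⟩
noncomputable def cv3p_s : Sl1 cv3p := ⟨_, fun h1 => (pr_norm (pr_add (pr_scale 4 5 (pr_subr 1 2 (swg_s.snd h1))) (pr_scale 1 5 (c3g_s.snd h1))))⟩
noncomputable def kf3q2_74_s : Sl2 kf3q2_74 := ⟨_, fun h1 h2 => (pr_subn 1 h1)⟩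
noncomputable def kf3q2_75_s : Sl2 kf3q2_75 := ⟨_, fun h1 h2 => (gsg_s.snd (pr_norm (kf3q2_74_s.snd h1 h2)))⟩
noncomputable def kf3q2_81_s : Sl2 kf3q2_81 := ⟨_, fun h1 h2 => (pr_scale 3 2 (kf3q2_74_s.snd h1 h2))⟩
noncomputable def kf3q2_83_s : Sl2 kf3q2_83 := ⟨_, fun h1 h2 => (pr_cadd (enc_pnc _ 1) (kf3q2_75_s.snd h1 h2))⟩
noncomputable def kf3q2_102_s : Sl2 kf3q2_102 := ⟨_, fun h1 h2 => (pr_mul (cv2p_s.snd h1) (bf2q2_s.snd h1 h2))⟩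
noncomputable def kf3q2_s : Sl2 kf3q2 := ⟨_, fun h1 h2 => (pr_norm (pr_case (pr_subr 139 128 h1) (pr_mul (cv3p_s.snd h1) (pr_norm (pr_case (pr_subr 103 100 h1) (pr_add (pr_subr 65311 187500 (pr_scale 9133 7500 h1)) (pr_cmul (enc_norm (kf3q2_4.enc h1.l h2)) (pr_norm (pr_subr 8447 300000 (pr_scale 929 3000 h1))))) (pr_case (pr_subr 53 50 h1) (pr_add (pr_subr 1067533 3000000 (pr_scale 36751 30000 h1)) (pr_cmul (enc_norm (kf3q2_4.enc h1.l h2)) (pr_norm (pr_subr 5631 100000 (pr_scale 337 1000 h1))))) (pr_add (pr_subr 18195962463 51875000000 (pr_scale 158250137 129687500 h1)) (pr_cmul (enc_norm (kf3q2_4.enc h1.l h2)) (pr_norm (pr_subr 1033306871 5187500000 (pr_scale 6118579 12968750 h1))))))))) (pr_case (pr_subr 157 128 h1) (pr_add (kf3q2_102_s.snd h1 h2) (pr_mul (pr_norm (pr_mul (pr_norm (pr_sub (pr_add (pr_sub (pr_mul (pr_norm (pr_mul (pr_norm (pr_sub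 (kf3q2_75_s.snd h1 h2) (kf3q2_81_s.snd h1 h2))) (pr_norm (kf3q2_83_s.snd h1 h2)))) (pr_nd (pr_inv (pr_sub (kf3q2_83_s.snd h1 h2) (kf3q2_81_s.snd h1 h2))))) (pr_mul (pr_norm (pr_sub (pr_half (kf3q2_74_s.snd h1 h2)) (pr_mul (pr_nd (pr_scale 3 4 (pr_sq (pr_norm (kf3q2_74_s.snd h1 h2))))) (pr_nd (pr_inv (kf3q2_75_s.snd h1 h2)))))) (pr_nd (pr_inv (pr_nat 2 (esg_s.snd (pr_norm (kf3q2_74_s.snd h1 h2)))))))) (pr_mul (kcg_s.snd (pr_norm (pr_sub (pr_scale 3 4 (kf3q2_74_s.snd h1 h2)) (pr_half (kf3q2_75_s.snd h1 h2)))) h2) (pr_norm (kf3q2_74_s.snd h1 h2)))) (kf3q2_102_s.snd h1 h2))) (pr_norm (pr_sub (cv3p_s.snd h1) (cv2p_s.snd h1))))) (pr_nd (pr_inv (pr_sub (pr_subr 1 2 (swg_s.snd h1)) (cv2p_s.snd h1)))))) (pr_mul (cv3p_s.snd h1) (pr_norm (pr_case (pr_subr 5 4 h1) (pr_add (pr_addc (pr_scale 3776997 78125000 h1) (enc_rat _ 93968381 125000000)) (pr_cmul (enc_norm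 (kf3q2_4.enc h1.l h2)) (pr_norm (pr_addc (pr_scale 1028837 7812500 h1) (enc_rat _ 3142269 3125000))))) (pr_case (pr_subr 27 20 h1) (pr_add (pr_addc (pr_scale 193 4000 h1) (enc_rat _ 1503733 2000000)) (pr_cmul (enc_norm (kf3q2_4.enc h1.l h2)) (pr_norm (pr_addc (pr_scale 329 2500 h1) (enc_rat _ 25141 25000))))) (pr_add (pr_addc (pr_scale 2401 50000 h1) (enc_rat _ 752177 1000000)) (pr_cmul (enc_norm (kf3q2_4.enc h1.l h2)) (pr_norm (pr_addc (pr_scale 979 7500 h1) (enc_rat _ 25177 25000))))))))))))⟩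
noncomputable def l3q2_93_s : Sl2 l3q2_93 := ⟨_, fun h1 h2 => (pr_subn 1 h1)⟩
noncomputable def l3q2_108_s : Sl2 l3q2_108 := ⟨_, fun h1 h2 => (pr_mul (cv2p_s.snd h1) (bx2q2_s.snd h1 h2))⟩
noncomputable def l3q2_s : Sl2 l3q2 := ⟨_, fun h1 h2 => (pr_norm (pr_case (pr_subr 139 128 h1) (pr_mul (cv3p_s.snd h1) (pr_norm (pr_case (pr_subr 103 100 h1) (pr_add (pr_subr 60763 500000 (pr_scale 1047 10000 h1)) (pr_cmul (enc_norm (l3q2_4.enc h1.l h2)) (pr_norm (pr_csub (enc_rat _ 66493 30000) (pr_scale 1669 750 h1))))) (pr_case (pr_subr 53 50 h1) (pr_add (pr_subr 160453 1500000 (pr_scale 2717 30000 h1)) (pr_cmul (enc_norm (l3q2_4.enc h1.l h2)) (pr_norm (pr_csub (enc_rat _ 896371 300000) (pr_scale 8923 3000 h1))))) (pr_add (pr_add (pr_subr 3436871293 12968750000 (pr_scale 62162831 259375000 h1)) (pr_cmul (enc_norm (l3q2_4.enc h1.l h2)) (pr_norm (pr_subr 57396673811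 5187500000 (pr_scale 133352139 12968750 h1))))) (pr_cmul (l3q2_43.enc h1.l h2) (pr_norm (pr_csub (enc_rat _ 3284781 259375) (pr_scale 123954 10375 h1))))))))) (pr_case (pr_subr 157 128 h1) (pr_add (l3q2_108_s.snd h1 h2) (pr_mul (pr_norm (pr_mul (pr_norm (pr_sub (pr_sub (qsg_s.snd (pr_norm (l3q2_93_s.snd h1 h2))) (pr_mul (pr_norm (pr_nat 2 (pr_subc (l3q2_93_s.snd h1 h2) h2))) (pr_norm (pr_mul (esg_s.snd (pr_norm (l3q2_93_s.snd h1 h2))) (kcg_s.snd (pr_norm (pr_sub (pr_scale 3 4 (l3q2_93_s.snd h1 h2)) (pr_half (gsg_s.snd (pr_norm (l3q2_93_s.snd h1 h2)))))) h2))))) (l3q2_108_s.snd h1 h2))) (pr_norm (pr_sub (cv3p_s.snd h1) (cv2p_s.snd h1))))) (pr_nd (pr_inv (pr_sub (pr_subr 1 2 (swg_s.snd h1)) (cv2p_s.snd h1)))))) (pr_mul (cv3p_s.snd h1) (pr_norm (pr_case (pr_subr 5 4 h1) (pr_add (pr_add (pr_subr 6641981 375000000 (pr_scale 6194053 234375000 h1))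 (pr_cmul (enc_norm (l3q2_4.enc h1.l h2)) (pr_norm (pr_csub (enc_rat _ 59147209 4687500) (pr_scale 244143211 23437500 h1))))) (pr_cmul (l3q2_43.enc h1.l h2) (pr_norm (pr_csub (enc_rat _ 233623 6250) (pr_scale 467246 15625 h1))))) (pr_case (pr_subr 27 20 h1) (pr_add (pr_subr 37579 2000000 (pr_scale 2729 100000 h1)) (pr_cmul (enc_norm (l3q2_4.enc h1.l h2)) (pr_norm (pr_subr 33959 10000 (pr_scale 2993 1250 h1))))) (pr_add (pr_subr 1259 62500 (pr_scale 1061 37500 h1)) (pr_cmul (enc_norm (l3q2_4.enc h1.l h2)) (pr_norm (pr_subr 168769 50000 (pr_scale 1487 625 h1))))))))))))⟩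
noncomputable def ycg_s : Sl1 ycg := ⟨_, fun h1 => (pr_sqrtg (pr_scale 4 3 (pr_csub (enc_pnc _ 3) (pr_sq h1))))⟩
noncomputable def xc33_s : Sl1 xc33 := ⟨_, fun h1 => (pr_norm (pr_add (pr_scale 4 5 (pr_subr 1 2 (swg_s.snd (pr_nd (ycg_s.snd h1))))) (pr_scale 1 5 h1)))⟩
noncomputable def bf3q3_s : Sl2 bf3q3 := ⟨_, fun h1 h2 => (pr_norm (pr_add (pr_addc (pr_scale 31547 250000 h1) (enc_rat _ 30953 125000)) (pr_cmul (enc_norm (enc_subr 5 32 h2)) (pr_norm (pr_subr 2667 6250 (pr_scale 2667 12500 h1))))))⟩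
noncomputable def kfc33_s : Sl2 kfc33 := ⟨_, fun h1 h2 => (pr_norm (pr_mul (pr_norm (pr_add (pr_scale 4 5 (pr_subr 1 2 (swg_s.snd (pr_nd (ycg_s.snd h1))))) (pr_scale 1 5 h1))) (bf3q3_s.snd (pr_nd (ycg_s.snd h1)) h2)))⟩
noncomputable def bx3q3_s : Sl2 bx3q3 := ⟨_, fun h1 h2 => (pr_norm (pr_add (pr_csub (enc_rat _ 4757150771 15200000000) (pr_scale 1293811057 7600000000 h1)) (pr_cmul (enc_norm (enc_subr 5 32 h2)) (pr_norm (pr_csub (enc_rat _ 216408997 152000000) (pr_scale 52819159 76000000 h1))))))⟩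
noncomputable def lc33_s : Sl2 lc33 := ⟨_, fun h1 h2 => (pr_norm (pr_mul (pr_norm (pr_add (pr_scale 4 5 (pr_subr 1 2 (swg_s.snd (pr_nd (ycg_s.snd h1))))) (pr_scale 1 5 h1))) (bx3q3_s.snd (pr_nd (ycg_s.snd h1)) h2)))⟩
noncomputable def cv4m_s : Sl1 cv4m := ⟨_, fun h1 => (pr_norm (pr_add (pr_scale 2 5 (pr_addc (swg_s.snd h1) (enc_rat _ 1 2))) (pr_scale 3 5 (c3g_s.snd h1))))⟩
noncomputable def bf4q0_s : Sl2 bf4q0 := ⟨_, fun h1 h2 => (pr_norm (pr_add (pr_csub (enc_rat _ 248507 1000000) (pr_scale 71521 500000 h1)) (pr_cmul (enc_norm (enc_subr 5 32 h2)) (pr_norm (pr_csub (enc_rat _ 861 25000) (pr_scale 12337 50000 h1))))))⟩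
noncomputable def kf4q0_s : Sl2 kf4q0 := ⟨_, fun h1 h2 => (pr_norm (pr_mul (cv4m_s.snd h1) (bf4q0_s.snd h1 h2)))⟩
noncomputable def bx4q0_s : Sl2 bx4q0 := ⟨_, fun h1 h2 => (pr_norm (pr_add (pr_addc (pr_scale 4601 250000 h1) (enc_rat _ 2577 200000)) (pr_cmul (enc_norm (enc_subr 5 32 h2)) (pr_norm (pr_csub (enc_rat _ 54617 100000) (pr_scale 18659 25000 h1))))))⟩
noncomputable def l4q0_s : Sl2 l4q0 := ⟨_, fun h1 h2 => (pr_norm (pr_mul (cv4m_s.snd h1) (bx4q0_s.snd h1 h2)))⟩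
noncomputable def bf4q1_s : Sl2 bf4q1 := ⟨_, fun h1 h2 => (pr_norm (pr_case (pr_subr 4 5 h1) (pr_case (pr_subr 7 10 h1) (pr_add (pr_addc (pr_scale 18447 40000 h1) (enc_rat _ 1081453 2000000)) (pr_cmul (enc_norm (bf4q1_3.enc h1.l h2)) (pr_norm (pr_subr 21779 100000 (pr_scale 591 2500 h1))))) (pr_add (pr_addc (pr_scale 4627 10000 h1) (enc_rat _ 539659 1000000)) (pr_cmul (enc_norm (bf4q1_3.enc h1.l h2)) (pr_norm (pr_subr 4199 20000 (pr_scale 563 2500 h1)))))) (pr_case (pr_subr 7 8 h1) (pr_add (pr_addc (pr_scale 17263 37500 h1) (enc_rat _ 12997 24000)) (pr_cmul (enc_norm (bf4q1_3.enc h1.l h2)) (pr_norm (pr_subr 54761 300000 (pr_scale 358 1875 h1))))) (pr_case (pr_subr 19 20 h1) (pr_add (pr_addc (pr_scale 16883 37500 h1) (enc_rat _ 66049 120000)) (pr_cmul (enc_norm (bf4q1_3.enc h1.l h2)) (pr_norm (pr_subr 39151 300000 (pr_scale 493 3750 h1))))) (pr_add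 (pr_addc (pr_scale 21889 50000 h1) (enc_rat _ 28111 50000)) (pr_cmul (enc_norm (bf4q1_3.enc h1.l h2)) (pr_norm (pr_subr 561 5000 (pr_scale 561 5000 h1)))))))))⟩
noncomputable def kf4q1_s : Sl2 kf4q1 := ⟨_, fun h1 h2 => (pr_norm (pr_mul (cv4m_s.snd h1) (bf4q1_s.snd h1 h2)))⟩
noncomputable def bx4q1_s : Sl2 bx4q1 := ⟨_, fun h1 h2 => (pr_norm (pr_case (pr_subr 4 5 h1) (pr_case (pr_subr 7 10 h1) (pr_add (pr_csub (enc_rat _ 28193 500000) (pr_scale 6383 100000 h1)) (pr_cmul (enc_norm (bx4q1_3.enc h1.l h2)) (pr_norm (pr_csub (enc_rat _ 110233 200000) (pr_scale 12443 20000 h1))))) (pr_add (pr_csub (enc_rat _ 26093 500000) (pr_scale 5783 100000 h1)) (pr_cmul (enc_norm (bx4q1_3.enc h1.l h2)) (pr_norm (pr_csub (enc_rat _ 2609 5000) (pr_scale 2901 5000 h1)))))) (pr_case (pr_subr 7 8 h1) (pr_add (pr_csub (enc_rat _ 47299 1500000) (pr_scale 2401 75000 h1))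 (pr_cmul (enc_norm (bx4q1_3.enc h1.l h2)) (pr_norm (pr_csub (enc_rat _ 31451 75000) (pr_scale 3391 7500 h1))))) (pr_case (pr_subr 19 20 h1) (pr_add (pr_csub (enc_rat _ 30611 1000000) (pr_scale 387 12500 h1)) (pr_cmul (enc_norm (bx4q1_3.enc h1.l h2)) (pr_norm (pr_csub (enc_rat _ 66199 300000) (pr_scale 422 1875 h1))))) (pr_add (pr_csub (enc_rat _ 1199 50000) (pr_scale 1199 50000 h1)) (pr_cmul (enc_norm (bx4q1_3.enc h1.l h2)) (pr_norm (pr_csub (enc_rat _ 137 1000) (pr_scale 137 1000 h1)))))))))⟩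
noncomputable def l4q1_s : Sl2 l4q1 := ⟨_, fun h1 h2 => (pr_norm (pr_mul (cv4m_s.snd h1) (bx4q1_s.snd h1 h2)))⟩
noncomputable def cv4p_s : Sl1 cv4p := ⟨_, fun h1 => (pr_norm (pr_add (pr_scale 2 5 (pr_subr 1 2 (swg_s.snd h1))) (pr_scale 3 5 (c3g_s.snd h1))))⟩
noncomputable def bf4q2_s : Sl2 bf4q2 := ⟨_, fun h1 h2 => (pr_norm (pr_case (pr_subr 11 10 h1) (pr_case (pr_subr 103 100 h1) (pr_add (pr_addc (pr_scale 2653 30000 h1) (enc_rat _ 1200313 1500000)) (pr_cmul (enc_norm (bf4q2_3.enc h1.l h2)) (pr_norm (pr_subr 174101 150000 (pr_scale 2587 3000 h1))))) (pr_case (pr_subr 53 50 h1) (pr_add (pr_addc (pr_scale 2611 30000 h1) (enc_rat _ 300619 375000)) (pr_cmul (enc_norm (bf4q2_3.enc h1.l h2)) (pr_norm (pr_subr 346039 300000 (pr_scale 1283 1500 h1))))) (pr_add (pr_addc (pr_scale 1697 20000 h1) (enc_rat _ 160793 200000)) (pr_cmul (enc_norm (bf4q2_3.enc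 h1.l h2)) (pr_norm (pr_subr 228449 200000 (pr_scale 3379 4000 h1))))))) (pr_case (pr_subr 5 4 h1) (pr_case (pr_subr 29 25 h1) (pr_add (pr_addc (pr_scale 2471 30000 h1) (enc_rat _ 242009 300000)) (pr_cmul (enc_norm (bf4q2_3.enc h1.l h2)) (pr_norm (pr_subr 168463 150000 (pr_scale 1241 1500 h1))))) (pr_add (pr_addc (pr_scale 3631 45000 h1) (enc_rat _ 3638893 4500000)) (pr_cmul (enc_norm (bf4q2_3.enc h1.l h2)) (pr_norm (pr_subr 494311 450000 (pr_scale 1451 1800 h1)))))) (pr_case (pr_subr 27 20 h1) (pr_add (pr_addc (pr_scale 8009 100000 h1) (enc_rat _ 1618783 2000000)) (pr_cmul (enc_norm (bf4q2_3.enc h1.l h2)) (pr_norm (pr_subr 108133 100000 (pr_scale 1981 2500 h1))))) (pr_add (pr_addc (pr_scale 11951 150000 h1) (enc_rat _ 404977 500000)) (pr_cmul (enc_norm (bf4q2_3.enc h1.l h2)) (pr_norm (pr_subr 53567 50000 (pr_scale 157 200 h1)))))))))⟩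
noncomputable def kf4q2_s : Sl2 kf4q2 := ⟨_, fun h1 h2 => (pr_norm (pr_mul (cv4p_s.snd h1) (bf4q2_s.snd h1 h2)))⟩
noncomputable def bx4q2_s : Sl2 bx4q2 := ⟨_, fun h1 h2 => (pr_norm (pr_case (pr_subr 11 10 h1) (pr_case (pr_subr 103 100 h1) (pr_add (pr_csub (enc_rat _ 11533 75000) (pr_scale 268 1875 h1)) (pr_cmul (enc_norm (bx4q2_3.enc h1.l h2)) (pr_norm (pr_subr 101783 300000 (pr_scale 941 3000 h1))))) (pr_case (pr_subr 53 50 h1) (pr_add (pr_csub (enc_rat _ 419399 3000000) (pr_scale 3881 30000 h1)) (pr_cmul (enc_norm (bx4q2_3.enc h1.l h2)) (pr_norm (pr_subr 103637 300000 (pr_scale 959 3000 h1))))) (pr_add (pr_csub (enc_rat _ 220257 2000000) (pr_scale 811 8000 h1)) (pr_cmul (enc_norm (bx4q2_3.enc h1.l h2)) (pr_norm (pr_subr 1001 2500 (pr_scale 743 2000 h1))))))) (pr_case (pr_subr 5 4 h1) (pr_case (pr_subr 29 25 h1) (pr_add (pr_csub (enc_rat _ 66761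 1000000) (pr_scale 1239 20000 h1)) (pr_cmul (enc_norm (bx4q2_3.enc h1.l h2)) (pr_norm (pr_subr 30283 60000 (pr_scale 1399 3000 h1))))) (pr_add (pr_csub (enc_rat _ 30279 1000000) (pr_scale 61 2000 h1)) (pr_cmul (enc_norm (bx4q2_3.enc h1.l h2)) (pr_norm (pr_subr 502037 900000 (pr_scale 4609 9000 h1)))))) (pr_case (pr_subr 27 20 h1) (pr_add (pr_csub (enc_rat _ 1813 125000) (pr_scale 447 25000 h1)) (pr_cmul (enc_norm (bx4q2_3.enc h1.l h2)) (pr_norm (pr_subr 56543 100000 (pr_scale 2591 5000 h1))))) (pr_add (pr_csub (enc_rat _ 28 3125) (pr_scale 1033 75000 h1)) (pr_cmul (enc_norm (bx4q2_3.enc h1.l h2)) (pr_norm (pr_subr 14201 25000 (pr_scale 3901 7500 h1)))))))))⟩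
noncomputable def l4q2_s : Sl2 l4q2 := ⟨_, fun h1 h2 => (pr_norm (pr_mul (cv4p_s.snd h1) (bx4q2_s.snd h1 h2)))⟩
noncomputable def xc43_s : Sl1 xc43 := ⟨_, fun h1 => (pr_norm (pr_add (pr_scale 2 5 (pr_subr 1 2 (swg_s.snd (pr_nd (ycg_s.snd h1))))) (pr_scale 3 5 h1)))⟩
noncomputable def bf4q3_s : Sl2 bf4q3 := ⟨_, fun h1 h2 => (pr_norm (pr_add (pr_subr 812 3125 (pr_scale 4749 12500 h1)) (pr_cmul (enc_norm (enc_subr 5 32 h2)) (pr_norm (pr_subr 20271 12500 (pr_scale 20271 25000 h1))))))⟩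
noncomputable def kfc43_s : Sl2 kfc43 := ⟨_, fun h1 h2 => (pr_norm (pr_mul (pr_norm (pr_add (pr_scale 2 5 (pr_subr 1 2 (swg_s.snd (pr_nd (ycg_s.snd h1))))) (pr_scale 3 5 h1))) (bf4q3_s.snd (pr_nd (ycg_s.snd h1)) h2)))⟩
noncomputable def bx4q3_s : Sl2 bx4q3 := ⟨_, fun h1 h2 => (pr_norm (pr_add (pr_csub (enc_rat _ 4516990771 15200000000) (pr_scale 1233771057 7600000000 h1)) (pr_cmul (enc_norm (enc_subr 5 32 h2)) (pr_norm (pr_subr 144025563 152000000 (pr_scale 37289481 76000000 h1))))))⟩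
noncomputable def lc43_s : Sl2 lc43 := ⟨_, fun h1 h2 => (pr_norm (pr_mul (pr_norm (pr_add (pr_scale 2 5 (pr_subr 1 2 (swg_s.snd (pr_nd (ycg_s.snd h1))))) (pr_scale 3 5 h1))) (bx4q3_s.snd (pr_nd (ycg_s.snd h1)) h2)))⟩
noncomputable def kf5q0_s : Sl2 kf5q0 := ⟨_, fun h1 h2 => (pr_norm (pr_sub (pr_mul h1 (kcg_s.snd (pr_nd (pr_half h1)) h2)) (pr_mul (pr_norm (pr_mul (pr_nd (pr_sq h1)) (pr_norm (pr_addc (c3g_s.snd h1) (enc_rat _ 3 2))))) (pr_nd (pr_inv (pr_mul (pr_norm (pr_csub (enc_pnc _ 1) h1)) (pr_norm (pr_cadd (enc_pnc _ 1) h1))))))))⟩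
noncomputable def l5q0_6_s : Sl2 l5q0_6 := ⟨_, fun h1 h2 => (pr_half h1)⟩
noncomputable def l5q0_7_s : Sl2 l5q0_7 := ⟨_, fun h1 h2 => (pr_half (c3g_s.snd h1))⟩
noncomputable def l5q0_8_s : Sl2 l5q0_8 := ⟨_, fun h1 h2 => (pr_scale 1 4 h1)⟩
noncomputable def l5q0_s : Sl2 l5q0 := ⟨_, fun h1 h2 => (pr_norm (pr_add (txg_s.snd (pr_nd (l5q0_6_s.snd h1 h2)) (pr_norm (pr_sub (l5q0_7_s.snd h1 h2) (l5q0_8_s.snd h1 h2))) h2) (txg_s.snd (pr_nd (pr_neg (l5q0_6_s.snd h1 h2))) (pr_norm (pr_add (l5q0_7_s.snd h1 h2) (l5q0_8_s.snd h1 h2))) h2)))⟩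
noncomputable def kf5q1_s : Sl2 kf5q1 := ⟨_, fun h1 h2 => (pr_norm (pr_add (pr_mul (pr_norm (pr_mul h1 (pr_norm (pr_addc (c3g_s.snd h1) (enc_rat _ 3 2))))) (pr_nd (pr_inv (pr_cadd (enc_pnc _ 1) h1)))) (pr_mul (pr_norm (pr_subn 1 h1)) (kcg_s.snd (pr_nd (pr_half h1)) h2))))⟩
noncomputable def l5q1_7_s : Sl2 l5q1_7 := ⟨_, fun h1 h2 => (pr_half h1)⟩
noncomputable def l5q1_8_s : Sl2 l5q1_8 := ⟨_, fun h1 h2 => (pr_half (c3g_s.snd h1))⟩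
noncomputable def l5q1_9_s : Sl2 l5q1_9 := ⟨_, fun h1 h2 => (pr_scale 1 4 h1)⟩
noncomputable def l5q1_s : Sl2 l5q1 := ⟨_, fun h1 h2 => (pr_norm (pr_add (txg_s.snd (pr_nd (l5q1_7_s.snd h1 h2)) (pr_norm (pr_sub (l5q1_8_s.snd h1 h2) (l5q1_9_s.snd h1 h2))) h2) (txg_s.snd (pr_nd (pr_neg (l5q1_7_s.snd h1 h2))) (pr_norm (pr_add (l5q1_8_s.snd h1 h2) (l5q1_9_s.snd h1 h2))) h2)))⟩
noncomputable def kf5q2_s : Sl2 kf5q2 := ⟨_, fun h1 h2 => (pr_norm (pr_add (pr_mul (pr_norm (pr_mul (pr_norm (pr_sub (pr_nat 2 (c3g_s.snd h1)) h1)) (pr_norm (pr_sub (pr_addc (c3g_s.snd h1) (enc_pnc _ 3)) (pr_scale 3 2 h1))))) (pr_nd (pr_inv (pr_nat 4 (pr_csub (enc_pnc _ 2) h1))))) (pr_mul (pr_norm (pr_subn 1 h1)) (kcg_s.snd (pr_norm (pr_sub (pr_scale 1 4 h1) (pr_half (c3g_s.snd h1)))) h2))))⟩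
noncomputable def l5q2_7_s : Sl2 l5q2_7 := ⟨_, fun h1 h2 => (pr_half (c3g_s.snd h1))⟩
noncomputable def l5q2_8_s : Sl2 l5q2_8 := ⟨_, fun h1 h2 => (pr_scale 1 4 h1)⟩
noncomputable def l5q2_9_s : Sl2 l5q2_9 := ⟨_, fun h1 h2 => (pr_sub (l5q2_7_s.snd h1 h2) (l5q2_8_s.snd h1 h2))⟩
noncomputable def l5q2_12_s : Sl2 l5q2_12 := ⟨_, fun h1 h2 => (pr_add (pr_scale 1 4 (c3g_s.snd h1)) (pr_scale 3 8 h1))⟩
noncomputable def l5q2_14_s : Sl2 l5q2_14 := ⟨_, fun h1 h2 => (pr_half (l5q2_9_s.snd h1 h2))⟩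
noncomputable def l5q2_s : Sl2 l5q2 := ⟨_, fun h1 h2 => (pr_norm (pr_sub (pr_nat 2 (txg_s.snd (pr_norm (pr_sub (l5q2_8_s.snd h1 h2) (l5q2_7_s.snd h1 h2))) (pr_norm (pr_add (l5q2_12_s.snd h1 h2) (l5q2_14_s.snd h1 h2))) h2)) (txg_s.snd (pr_norm (l5q2_9_s.snd h1 h2)) (pr_norm (pr_sub (l5q2_12_s.snd h1 h2) (l5q2_14_s.snd h1 h2))) h2)))⟩
noncomputable def kfc53_s : Sl2 kfc53 := ⟨_, fun h1 h2 => (pr_norm (pr_sub (pr_mul (pr_norm (pr_subn 2 (ycg_s.snd h1))) (kcg_s.snd (pr_norm (pr_sub (pr_scale 1 4 (ycg_s.snd h1)) (pr_half h1))) h2)) (pr_mul (pr_norm (pr_mul (pr_norm (pr_sub (pr_nat 2 h1) (ycg_s.snd h1))) (pr_norm (pr_sub (pr_addc h1 (enc_pnc _ 3)) (pr_scale 3 2 (ycg_s.snd h1)))))) (pr_nd (pr_inv (pr_nat 4 (pr_subn 1 (ycg_s.snd h1))))))))⟩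
noncomputable def lc53_7_s : Sl2 lc53_7 := ⟨_, fun h1 h2 => (pr_half h1)⟩
noncomputable def lc53_8_s : Sl2 lc53_8 := ⟨_, fun h1 h2 => (pr_scale 1 4 (ycg_s.snd h1))⟩
noncomputable def lc53_9_s : Sl2 lc53_9 := ⟨_, fun h1 h2 => (pr_sub (lc53_7_s.snd h1 h2) (lc53_8_s.snd h1 h2))⟩
noncomputable def lc53_12_s : Sl2 lc53_12 := ⟨_, fun h1 h2 => (pr_add (pr_scale 1 4 h1) (pr_scale 3 8 (ycg_s.snd h1)))⟩
noncomputable def lc53_14_s : Sl2 lc53_14 := ⟨_, fun h1 h2 => (pr_half (lc53_9_s.snd h1 h2))⟩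
noncomputable def lc53_s : Sl2 lc53 := ⟨_, fun h1 h2 => (pr_norm (pr_sub (pr_nat 2 (txg_s.snd (pr_norm (pr_sub (lc53_8_s.snd h1 h2) (lc53_7_s.snd h1 h2))) (pr_norm (pr_add (lc53_12_s.snd h1 h2) (lc53_14_s.snd h1 h2))) h2)) (txg_s.snd (pr_norm (lc53_9_s.snd h1 h2)) (pr_norm (pr_sub (lc53_12_s.snd h1 h2) (lc53_14_s.snd h1 h2))) h2)))⟩
noncomputable def gF0q0 : Gn := ⟨ndF0q0, c1g_s, kf0q0_s, l0q0_s, false⟩
noncomputable def gF0q1 : Gn := ⟨ndF0q1, c1g_s, kf0q1_s, l0q1_s, false⟩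
noncomputable def gF0q2 : Gn := ⟨ndF0q2, idf_s, kfc02_s, lc02_s, true⟩
noncomputable def gF1q0 : Gn := ⟨ndF1q0, cv1m_s, kf1q0_s, l1q0_s, false⟩
noncomputable def gF1q1 : Gn := ⟨ndF1q1, cv1m_s, kf1q1_s, l1q1_s, false⟩
noncomputable def gF1q2 : Gn := ⟨ndF1q2, cv1p_s, kf1q2_s, l1q2_s, false⟩
noncomputable def gF1q3 : Gn := ⟨ndF1q3, cv1r_s, kf1q3_s, l1q3_s, false⟩
noncomputable def gF2q0 : Gn := ⟨ndF2q0, cv2m_s, kf2q0_s, l2q0_s, false⟩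
noncomputable def gF2q1 : Gn := ⟨ndF2q1, cv2m_s, kf2q1_s, l2q1_s, false⟩
noncomputable def gF2q2 : Gn := ⟨ndF2q2, cv2p_s, kf2q2_s, l2q2_s, false⟩
noncomputable def gF2q3 : Gn := ⟨ndF2q3, cv2r_s, kf2q3_s, l2q3_s, false⟩
noncomputable def gF3q0 : Gn := ⟨ndF3q0, cv3m_s, kf3q0_s, l3q0_s, false⟩
noncomputable def gF3q1 : Gn := ⟨ndF3q1, cv3m_s, kf3q1_s, l3q1_s, false⟩
noncomputable def gF3q2 : Gn := ⟨ndF3q2, cv3p_s, kf3q2_s, l3q2_s, false⟩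
noncomputable def gF3q3 : Gn := ⟨ndF3q3, xc33_s, kfc33_s, lc33_s, false⟩
noncomputable def gF4q0 : Gn := ⟨ndF4q0, cv4m_s, kf4q0_s, l4q0_s, false⟩
noncomputable def gF4q1 : Gn := ⟨ndF4q1, cv4m_s, kf4q1_s, l4q1_s, false⟩
noncomputable def gF4q2 : Gn := ⟨ndF4q2, cv4p_s, kf4q2_s, l4q2_s, false⟩
noncomputable def gF4q3 : Gn := ⟨ndF4q3, xc43_s, kfc43_s, lc43_s, false⟩
noncomputable def gF5q0 : Gn := ⟨ndF5q0, c3g_s, kf5q0_s, l5q0_s, false⟩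
noncomputable def gF5q1 : Gn := ⟨ndF5q1, c3g_s, kf5q1_s, l5q1_s, false⟩
noncomputable def gF5q2 : Gn := ⟨ndF5q2, c3g_s, kf5q2_s, l5q2_s, false⟩
noncomputable def gF5q3 : Gn := ⟨ndF5q3, idf_s, kfc53_s, lc53_s, false⟩
noncomputable def gF0q3 : Gn := gz
noncomputable def gF (j : Fin 6) (q : ℕ) : Gn :=
  match j, q with
  | 0, 0 => gF0q0
  | 0, 1 => gF0q1
  | 0, 2 => gF0q2
  | 0, 3 => gF0q3
  | 1, 0 => gF1q0
  | 1, 1 => gF1q1
  | 1, 2 => gF1q2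
  | 1, 3 => gF1q3
  | 2, 0 => gF2q0
  | 2, 1 => gF2q1
  | 2, 2 => gF2q2
  | 2, 3 => gF2q3
  | 3, 0 => gF3q0
  | 3, 1 => gF3q1
  | 3, 2 => gF3q2
  | 3, 3 => gF3q3
  | 4, 0 => gF4q0
  | 4, 1 => gF4q1
  | 4, 2 => gF4q2
  | 4, 3 => gF4q3
  | 5, 0 => gF5q0
  | 5, 1 => gF5q1
  | 5, 2 => gF5q2
  | 5, 3 => gF5q3
  | _, _ => gF0q0

noncomputable def c0n : Fn1 := ⟨_, _, fun h1 => (enc_norm (enc_add (enc_pnc _ 1) (enc_mul (mug3.enc h1) (gug.enc h1))))⟩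
noncomputable def gug_s : Sl1 gug := ⟨_, fun h1 => (pr_norm (pr_add (pr_scale 3 4 h1) (pr_scale 3 2 (pr_csub (enc_pnc _ 1) (gsg_s.snd h1)))))⟩
noncomputable def kug_2_s : Sl1 kug_2 := ⟨_, fun h1 => (pr_sq h1)⟩
noncomputable def kug_s : Sl1 kug := ⟨_, fun h1 => (pr_norm (pr_add (pr_add (pr_scale 3 4 h1) (pr_scale 3 2 (kug_2_s.snd h1))) (pr_mul (pr_norm (pr_mul (pr_nd (pr_scale 3 4 (kug_2_s.snd h1))) (pr_nd (pr_inv (gsg_s.snd h1))))) (gug_s.snd h1))))⟩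
noncomputable def kp0q0_8_s : Sl2 kp0q0_8 := ⟨_, fun h1 h2 => (pr_sub (pr_scale 3 4 h1) (pr_half (c1g_s.snd h1)))⟩
noncomputable def kp0q0_s : Sl2 kp0q0 := ⟨_, fun h1 h2 => (pr_norm (pr_case (pr_addc (kp0q0_8_s.snd h1 h2) (enc_rat _ 481 1106)) (pr_mul h1 (pr_norm (pr_add (pr_subr 48901735519 120000000000 (pr_neg (pr_scale 102685255519 60000000000 (kp0q0_8_s.snd h1 h2)))) (pr_cmul (enc_norm (kp0q0_3.enc h1.l h2)) (pr_norm (pr_addc (pr_scale 711145187543 90000000000 (kp0q0_8_s.snd h1 h2)) (enc_rat _ 696212387543 180000000000))))))) (pr_case (pr_addc (kp0q0_8_s.snd h1 h2) (enc_rat _ 23 73)) (pr_sub (kug_s.snd h1) (pr_mul h1 (pr_norm (pr_mul (kcg_s.snd (pr_norm (kp0q0_8_s.snd h1 h2)) h2) (pr_norm (pr_add (gug_s.snd h1) (pr_nat 2 (c1g_s.snd h1)))))))) (pr_mul h1 (pr_norm (pr_add (pr_csub (enc_rat _ 274092431749 1190000000000) (pr_scale 807445671749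 595000000000 (kp0q0_8_s.snd h1 h2))) (pr_cmul (enc_norm (kp0q0_3.enc h1.l h2)) (pr_norm (pr_subr 403956299991 595000000000 (pr_scale 453317499991 297500000000 (kp0q0_8_s.snd h1 h2)))))))))))⟩
noncomputable def kn0q0_s : Sl2 kn0q0 := ⟨_, fun h1 h2 => (pr_norm (pr_add (pr_cmul (enc_norm (enc_add (enc_pnc _ 1) (enc_mul (mug3.enc h2) (gug.enc h2)))) (kf0q0_s.snd h1 h2)) (pr_cmul (mug3.enc h2) (kp0q0_s.snd h1 h2))))⟩
noncomputable def kp0q1_9_s : Sl2 kp0q1_9 := ⟨_, fun h1 h2 => (pr_sub (pr_scale 3 4 h1) (pr_half (c1g_s.snd h1)))⟩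
noncomputable def kp0q1_s : Sl2 kp0q1 := ⟨_, fun h1 h2 => (pr_norm (pr_mul (pr_norm (pr_subn 1 h1)) (pr_norm (pr_add (pr_csub (enc_rat _ 274092431749 1190000000000) (pr_scale 807445671749 595000000000 (kp0q1_9_s.snd h1 h2))) (pr_cmul (enc_norm (enc_subr 5 32 h2)) (pr_norm (pr_subr 403956299991 595000000000 (pr_scale 453317499991 297500000000 (kp0q1_9_s.snd h1 h2)))))))))⟩
noncomputable def kn0q1_s : Sl2 kn0q1 := ⟨_, fun h1 h2 => (pr_norm (pr_add (pr_cmul (enc_norm (enc_add (enc_pnc _ 1) (enc_mul (mug3.enc h2) (gug.enc h2)))) (kf0q1_s.snd h1 h2)) (pr_cmul (mug3.enc h2) (kp0q1_s.snd h1 h2))))⟩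
noncomputable def kpc02_s : Sl2 kpc02 := ⟨_, fun h1 h2 => (pr_norm (pr_mul (pr_norm (pr_subn 1 (yag_s.snd h1))) (pr_norm (pr_case (pr_subr 1 10 h1) (pr_sub (pr_scale 3521 4000 h1) (pr_cmul (enc_norm (kpc02_4.enc h1.l h2)) (pr_nd (pr_scale 1087 10000 h1)))) (pr_add (pr_subr 8071 4000000 (pr_scale 360171 400000 h1)) (pr_cmul (enc_norm (kpc02_4.enc h1.l h2)) (pr_norm (pr_csub (enc_rat _ 2861 400000) (pr_scale 7209 40000 h1)))))))))⟩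
noncomputable def knc02_s : Sl2 knc02 := ⟨_, fun h1 h2 => (pr_norm (pr_add (pr_cmul (enc_norm (enc_add (enc_pnc _ 1) (enc_mul (mug3.enc h2) (gug.enc h2)))) (kfc02_s.snd h1 h2)) (pr_cmul (mug3.enc h2) (kpc02_s.snd h1 h2))))⟩
noncomputable def bd1q0_s : Sl2 bd1q0 := ⟨_, fun h1 h2 => (pr_norm (pr_sub (pr_neg (pr_scale 32177 125000 h1)) (pr_cmul (enc_norm (enc_subr 5 32 h2)) (pr_nd (pr_scale 16813 50000 h1)))))⟩
noncomputable def kp1q0_s : Sl2 kp1q0 := ⟨_, fun h1 h2 => (pr_norm (pr_mul (cv1m_s.snd h1) (bd1q0_s.snd h1 h2)))⟩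
noncomputable def kn1q0_s : Sl2 kn1q0 := ⟨_, fun h1 h2 => (pr_norm (pr_add (pr_cmul (enc_norm (enc_add (enc_pnc _ 1) (enc_mul (mug3.enc h2) (gug.enc h2)))) (kf1q0_s.snd h1 h2)) (pr_cmul (mug3.enc h2) (kp1q0_s.snd h1 h2))))⟩
noncomputable def bd1q1_s : Sl2 bd1q1 := ⟨_, fun h1 h2 => (pr_norm (pr_case (pr_subr 4 5 h1) (pr_case (pr_subr 7 10 h1) (pr_add (pr_subr 116327 2000000 (pr_scale 20683 200000 h1)) (pr_cmul (enc_norm (bd1q1_3.enc h1.l h2)) (pr_norm (pr_csub (enc_rat _ 405337 100000) (pr_scale 9611 5000 h1))))) (pr_add (pr_subr 11919 200000 (pr_scale 5273 50000 h1)) (pr_cmul (enc_norm (bd1q1_3.enc h1.l h2)) (pr_norm (pr_csub (enc_rat _ 81353 20000) (pr_scale 9713 5000 h1)))))) (pr_case (pr_subr 7 8 h1) (pr_add (pr_subr 61723 1000000 (pr_scale 2703 25000 h1)) (pr_cmul (enc_norm (bd1q1_3.enc h1.l h2)) (pr_norm (pr_csub (enc_rat _ 408733 100000)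 (pr_scale 2459 1250 h1))))) (pr_case (pr_subr 19 20 h1) (pr_add (pr_subr 64103 1000000 (pr_scale 2771 25000 h1)) (pr_cmul (enc_norm (bd1q1_3.enc h1.l h2)) (pr_norm (pr_csub (enc_rat _ 102647 25000) (pr_scale 4971 2500 h1))))) (pr_add (pr_subr 13193 200000 (pr_scale 141 1250 h1)) (pr_cmul (enc_norm (bd1q1_3.enc h1.l h2)) (pr_norm (pr_csub (enc_rat _ 205807 50000) (pr_scale 2499 1250 h1)))))))))⟩
noncomputable def kp1q1_s : Sl2 kp1q1 := ⟨_, fun h1 h2 => (pr_norm (pr_mul (cv1m_s.snd h1) (bd1q1_s.snd h1 h2)))⟩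
noncomputable def kn1q1_s : Sl2 kn1q1 := ⟨_, fun h1 h2 => (pr_norm (pr_add (pr_cmul (enc_norm (enc_add (enc_pnc _ 1) (enc_mul (mug3.enc h2) (gug.enc h2)))) (kf1q1_s.snd h1 h2)) (pr_cmul (mug3.enc h2) (kp1q1_s.snd h1 h2))))⟩
noncomputable def bd1q2_s : Sl2 bd1q2 := ⟨_, fun h1 h2 => (pr_norm (pr_case (pr_subr 577 500 h1) (pr_case (pr_subr 53 50 h1) (pr_case (pr_subr 103 100 h1) (pr_add (pr_subr 209 240 (pr_scale 209 240 h1)) (pr_cmul (enc_norm (bd1q2_3.enc h1.l h2)) (pr_norm (pr_csub (enc_rat _ 141 1000) (pr_scale 141 1000 h1))))) (pr_add (pr_subr 1317683 1500000 (pr_scale 26347 30000 h1)) (pr_cmul (enc_norm (bd1q2_3.enc h1.l h2)) (pr_norm (pr_csub (enc_rat _ 461 4000) (pr_scale 29 250 h1)))))) (pr_case (pr_subr 11 10 h1) (pr_add (pr_subr 3537 4000 (pr_scale 8837 10000 h1)) (pr_cmul (enc_norm (bd1q2_3.enc h1.l h2)) (pr_norm (pr_csub (enc_rat _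 9617 100000) (pr_scale 49 500 h1))))) (pr_add (pr_subr 4777007 5400000 (pr_scale 95477 108000 h1)) (pr_cmul (enc_norm (bd1q2_3.enc h1.l h2)) (pr_norm (pr_csub (enc_rat _ 124819 1350000) (pr_scale 25549 270000 h1))))))) (pr_case (pr_subr 29 25 h1) (pr_case (pr_subr 231 200 h1) (pr_add (pr_subr 3521 4000 (pr_scale 3521 4000 h1)) (pr_cmul (enc_norm (bd1q2_3.enc h1.l h2)) (pr_norm (pr_csub (enc_rat _ 1087 10000) (pr_scale 1087 10000 h1))))) (pr_add (pr_subr 26887 31250 (pr_scale 17261 20000 h1)) (pr_cmul (enc_norm (bd1q2_3.enc h1.l h2)) (pr_norm (pr_csub (enc_rat _ 3733 62500) (pr_scale 663 10000 h1)))))) (pr_case (pr_subr 5 4 h1) (pr_add (pr_subr 1260677 1500000 (pr_scale 1586 1875 h1)) (pr_cmul (enc_norm (bd1q2_3.enc h1.l h2)) (pr_norm (pr_csub (enc_rat _ 5377 450000) (pr_scale 113 4500 h1))))) (pr_case (pr_subr 27 20 h1) (pr_subc (pr_subr 1649111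 2000000 (pr_scale 16663 20000 h1)) (enc_scale 243 12500 (bd1q2_3.enc h1.l h2))) (pr_add (pr_subr 81457 100000 (pr_scale 123863 150000 h1)) (pr_cmul (enc_norm (bd1q2_3.enc h1.l h2)) (pr_norm (pr_subr 891 25000 (pr_scale 3 250 h1))))))))))⟩
noncomputable def kp1q2_s : Sl2 kp1q2 := ⟨_, fun h1 h2 => (pr_norm (pr_mul (cv1p_s.snd h1) (bd1q2_s.snd h1 h2)))⟩
noncomputable def kn1q2_s : Sl2 kn1q2 := ⟨_, fun h1 h2 => (pr_norm (pr_add (pr_cmul (enc_norm (enc_add (enc_pnc _ 1) (enc_mul (mug3.enc h2) (gug.enc h2)))) (kf1q2_s.snd h1 h2)) (pr_cmul (mug3.enc h2) (kp1q2_s.snd h1 h2))))⟩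
noncomputable def bd1q3_s : Sl2 bd1q3 := ⟨_, fun h1 h2 => (pr_norm (pr_add (pr_subr 2631 1000000 (pr_scale 91 100000 h1)) (pr_cmul (enc_norm (enc_subr 5 32 h2)) (pr_norm (pr_subr 83 100000 (pr_scale 1 25000 h1))))))⟩
noncomputable def kp1q3_s : Sl2 kp1q3 := ⟨_, fun h1 h2 => (pr_norm (pr_mul (cv1r_s.snd h1) (bd1q3_s.snd h1 h2)))⟩
noncomputable def kn1q3_s : Sl2 kn1q3 := ⟨_, fun h1 h2 => (pr_norm (pr_add (pr_cmul (enc_norm (enc_add (enc_pnc _ 1) (enc_mul (mug3.enc h2) (gug.enc h2)))) (kf1q3_s.snd h1 h2)) (pr_cmul (mug3.enc h2) (kp1q3_s.snd h1 h2))))⟩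
noncomputable def bd2q0_s : Sl2 bd2q0 := ⟨_, fun h1 h2 => (pr_norm (pr_sub (pr_neg (pr_scale 8477 62500 h1)) (pr_cmul (enc_norm (enc_subr 5 32 h2)) (pr_nd (pr_scale 9383 50000 h1)))))⟩
noncomputable def kp2q0_s : Sl2 kp2q0 := ⟨_, fun h1 h2 => (pr_norm (pr_mul (cv2m_s.snd h1) (bd2q0_s.snd h1 h2)))⟩
noncomputable def kn2q0_s : Sl2 kn2q0 := ⟨_, fun h1 h2 => (pr_norm (pr_add (pr_cmul (enc_norm (enc_add (enc_pnc _ 1) (enc_mul (mug3.enc h2) (gug.enc h2)))) (kf2q0_s.snd h1 h2)) (pr_cmul (mug3.enc h2) (kp2q0_s.snd h1 h2))))⟩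
noncomputable def bd2q1_s : Sl2 bd2q1 := ⟨_, fun h1 h2 => (pr_norm (pr_case (pr_subr 4 5 h1) (pr_case (pr_subr 7 10 h1) (pr_add (pr_subr 454221 2000000 (pr_scale 77389 200000 h1)) (pr_cmul (enc_norm (bd2q1_3.enc h1.l h2)) (pr_norm (pr_subr 1089 200000 (pr_scale 16557 20000 h1))))) (pr_add (pr_subr 230677 1000000 (pr_scale 9801 25000 h1)) (pr_cmul (enc_norm (bd2q1_3.enc h1.l h2)) (pr_norm (pr_subr 253 50000 (pr_scale 8273 10000 h1)))))) (pr_case (pr_subr 7 8 h1) (pr_add (pr_subr 708991 3000000 (pr_scale 29933 75000 h1)) (pr_cmul (enc_norm (bd2q1_3.enc h1.l h2)) (pr_norm (pr_addc (pr_scale 3071 3750 h1) (enc_rat _ 49 30000))))) (pr_case (pr_subr 19 20 h1) (pr_add (pr_subr 365573 1500000 (pr_scale 15283 37500 h1)) (pr_cmul (enc_norm (bd2q1_3.enc h1.l h2)) (pr_norm (pr_addc (pr_scale 4 5 h1) (enc_rat _ 91 5000))))) (pr_add (pr_subr 123327 500000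 (pr_scale 5133 12500 h1)) (pr_cmul (enc_norm (bd2q1_3.enc h1.l h2)) (pr_norm (pr_addc (pr_scale 486 625 h1) (enc_rat _ 987 25000)))))))))⟩
noncomputable def kp2q1_s : Sl2 kp2q1 := ⟨_, fun h1 h2 => (pr_norm (pr_mul (cv2m_s.snd h1) (bd2q1_s.snd h1 h2)))⟩
noncomputable def kn2q1_s : Sl2 kn2q1 := ⟨_, fun h1 h2 => (pr_norm (pr_add (pr_cmul (enc_norm (enc_add (enc_pnc _ 1) (enc_mul (mug3.enc h2) (gug.enc h2)))) (kf2q1_s.snd h1 h2)) (pr_cmul (mug3.enc h2) (kp2q1_s.snd h1 h2))))⟩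
noncomputable def bd2q2_s : Sl2 bd2q2 := ⟨_, fun h1 h2 => (pr_norm (pr_case (pr_subr 11 10 h1) (pr_case (pr_subr 103 100 h1) (pr_add (pr_subr 2789 5000 (pr_scale 2789 5000 h1)) (pr_cmul (enc_norm (bd2q2_3.enc h1.l h2)) (pr_norm (pr_subr 97 75 (pr_scale 97 75 h1))))) (pr_case (pr_subr 53 50 h1) (pr_add (pr_subr 554813 1000000 (pr_scale 5549 10000 h1)) (pr_cmul (enc_norm (bd2q2_3.enc h1.l h2)) (pr_norm (pr_subr 192661 150000 (pr_scale 1927 1500 h1))))) (pr_add (pr_subr 549831 1000000 (pr_scale 2751 5000 h1)) (pr_cmul (enc_norm (bd2q2_3.enc h1.l h2)) (pr_norm (pr_subr 130013 100000 (pr_scale 2599 2000 h1))))))) (pr_case (pr_subr 5 4 h1) (pr_case (pr_subr 29 25 h1) (pr_add (pr_subr 803269 1500000 (pr_scale 32231 60000 h1)) (pr_cmul (enc_norm (bd2q2_3.enc h1.l h2)) (pr_norm (pr_subr 397409 300000 (pr_scale 7931 6000 h1))))) (pr_add (pr_subr 129301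 250000 (pr_scale 2607 5000 h1)) (pr_cmul (enc_norm (bd2q2_3.enc h1.l h2)) (pr_norm (pr_subr 1171637 900000 (pr_scale 11719 9000 h1)))))) (pr_case (pr_subr 27 20 h1) (pr_add (pr_subr 1011233 2000000 (pr_scale 51213 100000 h1)) (pr_cmul (enc_norm (bd2q2_3.enc h1.l h2)) (pr_norm (pr_subr 257261 200000 (pr_scale 12897 10000 h1))))) (pr_add (pr_subr 249143 500000 (pr_scale 5067 10000 h1)) (pr_cmul (enc_norm (bd2q2_3.enc h1.l h2)) (pr_norm (pr_subr 6371 5000 (pr_scale 19211 15000 h1)))))))))⟩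
noncomputable def kp2q2_s : Sl2 kp2q2 := ⟨_, fun h1 h2 => (pr_norm (pr_mul (cv2p_s.snd h1) (bd2q2_s.snd h1 h2)))⟩
noncomputable def kn2q2_s : Sl2 kn2q2 := ⟨_, fun h1 h2 => (pr_norm (pr_add (pr_cmul (enc_norm (enc_add (enc_pnc _ 1) (enc_mul (mug3.enc h2) (gug.enc h2)))) (kf2q2_s.snd h1 h2)) (pr_cmul (mug3.enc h2) (kp2q2_s.snd h1 h2))))⟩
noncomputable def bd2q3_s : Sl2 bd2q3 := ⟨_, fun h1 h2 => (pr_norm (pr_add (pr_subr 103619 1000000 (pr_scale 1061 250000 h1)) (pr_cmul (enc_norm (enc_subr 5 32 h2)) (pr_norm (pr_subr 54323 100000 (pr_scale 9 1250 h1))))))⟩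
noncomputable def kp2q3_s : Sl2 kp2q3 := ⟨_, fun h1 h2 => (pr_norm (pr_mul (cv2r_s.snd h1) (bd2q3_s.snd h1 h2)))⟩
noncomputable def kn2q3_s : Sl2 kn2q3 := ⟨_, fun h1 h2 => (pr_norm (pr_add (pr_cmul (enc_norm (enc_add (enc_pnc _ 1) (enc_mul (mug3.enc h2) (gug.enc h2)))) (kf2q3_s.snd h1 h2)) (pr_cmul (mug3.enc h2) (kp2q3_s.snd h1 h2))))⟩
noncomputable def bd3q0_s : Sl2 bd3q0 := ⟨_, fun h1 h2 => (pr_norm (pr_add (pr_subr 40437 500000 (pr_neg (pr_scale 4507 100000 h1))) (pr_cmul (enc_norm (enc_subr 5 32 h2)) (pr_norm (pr_subr 135217 100000 (pr_neg (pr_scale 1113 6250 h1)))))))⟩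
noncomputable def kp3q0_s : Sl2 kp3q0 := ⟨_, fun h1 h2 => (pr_norm (pr_mul (cv3m_s.snd h1) (bd3q0_s.snd h1 h2)))⟩
noncomputable def kn3q0_s : Sl2 kn3q0 := ⟨_, fun h1 h2 => (pr_norm (pr_add (pr_cmul (enc_norm (enc_add (enc_pnc _ 1) (enc_mul (mug3.enc h2) (gug.enc h2)))) (kf3q0_s.snd h1 h2)) (pr_cmul (mug3.enc h2) (kp3q0_s.snd h1 h2))))⟩
noncomputable def kp3q1_55_s : Sl2 kp3q1_55 := ⟨_, fun h1 h2 => (pr_csub (enc_pnc _ 1) h1)⟩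
noncomputable def kp3q1_56_s : Sl2 kp3q1_56 := ⟨_, fun h1 h2 => (gsg_s.snd (pr_norm (kp3q1_55_s.snd h1 h2)))⟩
noncomputable def kp3q1_60_s : Sl2 kp3q1_60 := ⟨_, fun h1 h2 => (esg_s.snd (pr_norm (kp3q1_55_s.snd h1 h2)))⟩
noncomputable def kp3q1_68_s : Sl2 kp3q1_68 := ⟨_, fun h1 h2 => (pr_mul (pr_nd (pr_scale 3 4 (pr_sq (pr_norm (kp3q1_55_s.snd h1 h2))))) (pr_nd (pr_inv (kp3q1_56_s.snd h1 h2))))⟩
noncomputable def kp3q1_93_s : Sl2 kp3q1_93 := ⟨_, fun h1 h2 => (pr_mul (cv2m_s.snd h1) (bd2q1_s.snd h1 h2))⟩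
noncomputable def kp3q1_s : Sl2 kp3q1 := ⟨_, fun h1 h2 => (pr_norm (pr_case (pr_subr 99 128 h1) (pr_mul (cv3m_s.snd h1) (pr_norm (pr_case (pr_subr 7 10 h1) (pr_add (pr_subr 50519 2000000 (pr_scale 48131 200000 h1)) (pr_cmul (enc_norm (kp3q1_4.enc h1.l h2)) (pr_norm (pr_subr 5707 5000 (pr_scale 4041 5000 h1))))) (pr_add (pr_subr 775034099 29375000000 (pr_scale 177910883 734375000 h1)) (pr_cmul (enc_norm (kp3q1_4.enc h1.l h2)) (pr_norm (pr_subr 1681654671 1468750000 (pr_scale 59725289 73437500 h1)))))))) (pr_case (pr_subr 117 128 h1) (pr_add (kp3q1_93_s.snd h1 h2) (pr_mul (pr_norm (pr_mul (pr_norm (pr_sub (pr_sub (pr_add (kug_s.snd (pr_norm (kp3q1_55_s.snd h1 h2))) (pr_mul (pr_norm (pr_sub (pr_mul (pr_norm (pr_mul (pr_norm (kp3q1_68_s.snd h1 h2)) (pr_norm (pr_subn 3 (pr_nat 4 (kp3q1_56_s.snd h1 h2)))))) (kp3q1_60_s.snd h1 h2)) (pr_mul (qsg_s.snd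 (pr_norm (kp3q1_55_s.snd h1 h2))) (pr_norm (pr_sub (pr_half (kp3q1_55_s.snd h1 h2)) (kp3q1_68_s.snd h1 h2)))))) (pr_nd (pr_inv (pr_mul (pr_nd (pr_nat 2 (kp3q1_60_s.snd h1 h2))) (kp3q1_60_s.snd h1 h2)))))) (pr_mul (pr_norm (pr_mul (pr_norm (kp3q1_55_s.snd h1 h2)) (kcg_s.snd (pr_norm (pr_sub (pr_scale 3 4 (kp3q1_55_s.snd h1 h2)) (pr_half (kp3q1_56_s.snd h1 h2)))) h2))) (pr_norm (pr_add (pr_cadd (enc_pnc _ 1) (gug_s.snd (pr_norm (kp3q1_55_s.snd h1 h2)))) (pr_nat 2 (kp3q1_56_s.snd h1 h2)))))) (kp3q1_93_s.snd h1 h2))) (pr_norm (pr_sub (cv3m_s.snd h1) (cv2m_s.snd h1))))) (pr_nd (pr_inv (pr_sub (pr_addc (swg_s.snd h1) (enc_rat _ 1 2)) (cv2m_s.snd h1)))))) (pr_mul (cv3m_s.snd h1) (pr_norm (pr_case (pr_subr 19 20 h1) (pr_add (pr_csub (enc_rat _ 61736493 312500000) (pr_scale 761393 3906250 h1)) (pr_cmul (enc_norm (kp3q1_4.enc h1.l h2)) (pr_norm (pr_subr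 8975931 35937500 (pr_scale 1728821 7187500 h1))))) (pr_add (pr_csub (enc_rat _ 6193 25000) (pr_scale 6193 25000 h1)) (pr_cmul (enc_norm (kp3q1_4.enc h1.l h2)) (pr_norm (pr_subr 1063 2500 (pr_scale 1063 2500 h1)))))))))))⟩
noncomputable def kn3q1_s : Sl2 kn3q1 := ⟨_, fun h1 h2 => (pr_norm (pr_add (pr_cmul (enc_norm (enc_add (enc_pnc _ 1) (enc_mul (mug3.enc h2) (gug.enc h2)))) (kf3q1_s.snd h1 h2)) (pr_cmul (mug3.enc h2) (kp3q1_s.snd h1 h2))))⟩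
noncomputable def kp3q2_80_s : Sl2 kp3q2_80 := ⟨_, fun h1 h2 => (pr_subn 1 h1)⟩
noncomputable def kp3q2_81_s : Sl2 kp3q2_81 := ⟨_, fun h1 h2 => (gsg_s.snd (pr_norm (kp3q2_80_s.snd h1 h2)))⟩
noncomputable def kp3q2_85_s : Sl2 kp3q2_85 := ⟨_, fun h1 h2 => (esg_s.snd (pr_norm (kp3q2_80_s.snd h1 h2)))⟩
noncomputable def kp3q2_93_s : Sl2 kp3q2_93 := ⟨_, fun h1 h2 => (pr_mul (pr_nd (pr_scale 3 4 (pr_sq (pr_norm (kp3q2_80_s.snd h1 h2))))) (pr_nd (pr_inv (kp3q2_81_s.snd h1 h2))))⟩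
noncomputable def kp3q2_116_s : Sl2 kp3q2_116 := ⟨_, fun h1 h2 => (pr_mul (cv2p_s.snd h1) (bd2q2_s.snd h1 h2))⟩
noncomputable def kp3q2_s : Sl2 kp3q2 := ⟨_, fun h1 h2 => (pr_norm (pr_case (pr_subr 139 128 h1) (pr_mul (cv3p_s.snd h1) (pr_norm (pr_case (pr_subr 103 100 h1) (pr_add (pr_subr 130707 250000 (pr_scale 379 1000 h1)) (pr_cmul (enc_norm (kp3q2_4.enc h1.l h2)) (pr_norm (pr_csub (enc_rat _ 382501 60000) (pr_scale 77 12 h1))))) (pr_case (pr_subr 53 50 h1) (pr_add (pr_subr 523137 1000000 (pr_scale 3793 10000 h1)) (pr_cmul (enc_norm (kp3q2_4.enc h1.l h2)) (pr_norm (pr_csub (enc_rat _ 76459 12000) (pr_scale 481 75 h1))))) (pr_add (pr_subr 5426895429 10375000000 (pr_scale 19673117 51875000 h1)) (pr_cmul (enc_norm (kp3q2_4.enc h1.l h2)) (pr_norm (pr_csub (enc_rat _ 33041357347 5187500000) (pr_scale 41573214 6484375 h1))))))))) (pr_case (pr_subr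 157 128 h1) (pr_add (kp3q2_116_s.snd h1 h2) (pr_mul (pr_norm (pr_mul (pr_norm (pr_sub (pr_add (pr_sub (kug_s.snd (pr_norm (kp3q2_80_s.snd h1 h2))) (pr_mul (pr_norm (pr_sub (pr_mul (pr_norm (pr_mul (pr_norm (kp3q2_93_s.snd h1 h2)) (pr_norm (pr_subn 3 (pr_nat 4 (kp3q2_81_s.snd h1 h2)))))) (kp3q2_85_s.snd h1 h2)) (pr_mul (qsg_s.snd (pr_norm (kp3q2_80_s.snd h1 h2))) (pr_norm (pr_sub (pr_half (kp3q2_80_s.snd h1 h2)) (kp3q2_93_s.snd h1 h2)))))) (pr_nd (pr_inv (pr_mul (pr_nd (pr_nat 2 (kp3q2_85_s.snd h1 h2))) (kp3q2_85_s.snd h1 h2)))))) (pr_mul (pr_norm (pr_mul (pr_norm (kp3q2_80_s.snd h1 h2)) (kcg_s.snd (pr_norm (pr_sub (pr_scale 3 4 (kp3q2_80_s.snd h1 h2)) (pr_half (kp3q2_81_s.snd h1 h2)))) h2))) (pr_norm (pr_sub (pr_csub (enc_pnc _ 1) (gug_s.snd (pr_norm (kp3q2_80_s.snd h1 h2)))) (pr_nat 2 (kp3q2_81_s.snd h1 h2)))))) (kp3q2_116_s.snd h1 h2))) (pr_norm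 (pr_sub (cv3p_s.snd h1) (cv2p_s.snd h1))))) (pr_nd (pr_inv (pr_sub (pr_subr 1 2 (swg_s.snd h1)) (cv2p_s.snd h1)))))) (pr_mul (cv3p_s.snd h1) (pr_norm (pr_case (pr_subr 5 4 h1) (pr_add (pr_subr 44102119 375000000 (pr_scale 38289811 117187500 h1)) (pr_cmul (enc_norm (kp3q2_4.enc h1.l h2)) (pr_norm (pr_subr 94644649 37500000 (pr_scale 15771887 23437500 h1))))) (pr_case (pr_subr 27 20 h1) (pr_add (pr_subr 29289 250000 (pr_scale 16319 50000 h1)) (pr_cmul (enc_norm (kp3q2_4.enc h1.l h2)) (pr_norm (pr_subr 504663 200000 (pr_scale 269 400 h1))))) (pr_add (pr_subr 116049 1000000 (pr_scale 8139 25000 h1)) (pr_cmul (enc_norm (kp3q2_4.enc h1.l h2)) (pr_norm (pr_subr 252201 100000 (pr_scale 10073 15000 h1))))))))))))⟩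
noncomputable def kn3q2_s : Sl2 kn3q2 := ⟨_, fun h1 h2 => (pr_norm (pr_add (pr_cmul (enc_norm (enc_add (enc_pnc _ 1) (enc_mul (mug3.enc h2) (gug.enc h2)))) (kf3q2_s.snd h1 h2)) (pr_cmul (mug3.enc h2) (kp3q2_s.snd h1 h2))))⟩
noncomputable def bd3q3_s : Sl2 bd3q3 := ⟨_, fun h1 h2 => (pr_norm (pr_add (pr_subr 1863 25000 (pr_scale 1863 50000 h1)) (pr_cmul (enc_norm (enc_subr 5 32 h2)) (pr_norm (pr_subr 687 6250 (pr_scale 687 12500 h1))))))⟩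
noncomputable def kpc33_s : Sl2 kpc33 := ⟨_, fun h1 h2 => (pr_norm (pr_mul (pr_norm (pr_add (pr_scale 4 5 (pr_subr 1 2 (swg_s.snd (pr_nd (ycg_s.snd h1))))) (pr_scale 1 5 h1))) (bd3q3_s.snd (pr_nd (ycg_s.snd h1)) h2)))⟩
noncomputable def knc33_s : Sl2 knc33 := ⟨_, fun h1 h2 => (pr_norm (pr_add (pr_cmul (enc_norm (enc_add (enc_pnc _ 1) (enc_mul (mug3.enc h2) (gug.enc h2)))) (kfc33_s.snd h1 h2)) (pr_cmul (mug3.enc h2) (kpc33_s.snd h1 h2))))⟩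
noncomputable def bd4q0_s : Sl2 bd4q0 := ⟨_, fun h1 h2 => (pr_norm (pr_add (pr_csub (enc_rat _ 156677 1000000) (pr_scale 32837 500000 h1)) (pr_cmul (enc_norm (enc_subr 5 32 h2)) (pr_norm (pr_subr 20747 20000 (pr_neg (pr_scale 2629 25000 h1)))))))⟩
noncomputable def kp4q0_s : Sl2 kp4q0 := ⟨_, fun h1 h2 => (pr_norm (pr_mul (cv4m_s.snd h1) (bd4q0_s.snd h1 h2)))⟩
noncomputable def kn4q0_s : Sl2 kn4q0 := ⟨_, fun h1 h2 => (pr_norm (pr_add (pr_cmul (enc_norm (enc_add (enc_pnc _ 1) (enc_mul (mug3.enc h2) (gug.enc h2)))) (kf4q0_s.snd h1 h2)) (pr_cmul (mug3.enc h2) (kp4q0_s.snd h1 h2))))⟩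
noncomputable def bd4q1_s : Sl2 bd4q1 := ⟨_, fun h1 h2 => (pr_norm (pr_case (pr_subr 4 5 h1) (pr_case (pr_subr 7 10 h1) (pr_add (pr_csub (enc_rat _ 130799 1000000) (pr_scale 1243 10000 h1)) (pr_cmul (enc_norm (bd4q1_3.enc h1.l h2)) (pr_norm (pr_csub (enc_rat _ 4957 3125) (pr_scale 1901 1250 h1))))) (pr_add (pr_csub (enc_rat _ 133893 1000000) (pr_scale 1609 12500 h1)) (pr_cmul (enc_norm (bd4q1_3.enc h1.l h2)) (pr_norm (pr_csub (enc_rat _ 40699 25000) (pr_scale 3951 2500 h1)))))) (pr_case (pr_subr 7 8 h1) (pr_add (pr_csub (enc_rat _ 142277 1000000) (pr_scale 87 625 h1)) (pr_cmul (enc_norm (bd4q1_3.enc h1.l h2)) (pr_norm (pr_csub (enc_rat _ 128881 75000) (pr_scale 12701 7500 h1))))) (pr_case (pr_subr 19 20 h1) (pr_add (pr_csub (enc_rat _ 59527 375000) (pr_scale 11851 75000 h1)) (pr_cmul (enc_norm (bd4q1_3.enc h1.l h2)) (pr_norm (pr_csub (enc_rat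 _ 558119 300000) (pr_scale 6959 3750 h1))))) (pr_add (pr_csub (enc_rat _ 4313 25000) (pr_scale 4313 25000 h1)) (pr_cmul (enc_norm (bd4q1_3.enc h1.l h2)) (pr_norm (pr_csub (enc_rat _ 1949 1000) (pr_scale 1949 1000 h1)))))))))⟩
noncomputable def kp4q1_s : Sl2 kp4q1 := ⟨_, fun h1 h2 => (pr_norm (pr_mul (cv4m_s.snd h1) (bd4q1_s.snd h1 h2)))⟩
noncomputable def kn4q1_s : Sl2 kn4q1 := ⟨_, fun h1 h2 => (pr_norm (pr_add (pr_cmul (enc_norm (enc_add (enc_pnc _ 1) (enc_mul (mug3.enc h2) (gug.enc h2)))) (kf4q1_s.snd h1 h2)) (pr_cmul (mug3.enc h2) (kp4q1_s.snd h1 h2))))⟩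
noncomputable def bd4q2_19_s : Sl2 bd4q2_19 := ⟨_, fun h1 h2 => (pr_scale 1687 7500 h1)⟩
noncomputable def bd4q2_s : Sl2 bd4q2 := ⟨_, fun h1 h2 => (pr_norm (pr_case (pr_subr 11 10 h1) (pr_case (pr_subr 103 100 h1) (pr_add (pr_csub (enc_rat _ 608059 1000000) (pr_scale 9 40 h1)) (pr_cmul (enc_norm (bd4q2_3.enc h1.l h2)) (pr_norm (pr_addc (pr_scale 4639 3000 h1) (enc_rat _ 56923 60000))))) (pr_case (pr_subr 53 50 h1) (pr_add (pr_csub (enc_rat _ 1823971 3000000) (bd4q2_19_s.snd h1 h2)) (pr_cmul (enc_norm (bd4q2_3.enc h1.l h2)) (pr_norm (pr_addc (pr_scale 37 24 h1) (enc_rat _ 286057 300000))))) (pr_add (pr_csub (enc_rat _ 1216917 2000000) (pr_scale 1803 8000 h1)) (pr_cmul (enc_norm (bd4q2_3.enc h1.l h2)) (pr_norm (pr_addc (pr_scale 6121 4000 h1) (enc_rat _ 309 320))))))) (pr_case (pr_subr 5 4 h1) (pr_case (pr_subr 29 25 h1) (pr_add (pr_csub (enc_rat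 _ 228361 375000) (pr_scale 271 1200 h1)) (pr_cmul (enc_norm (bd4q2_3.enc h1.l h2)) (pr_norm (pr_addc (pr_scale 151 100 h1) (enc_rat _ 9879 10000))))) (pr_add (pr_csub (enc_rat _ 455939 750000) (bd4q2_19_s.snd h1 h2)) (pr_cmul (enc_norm (bd4q2_3.enc h1.l h2)) (pr_norm (pr_addc (pr_scale 3337 2250 h1) (enc_rat _ 458591 450000)))))) (pr_case (pr_subr 27 20 h1) (pr_add (pr_csub (enc_rat _ 302751 500000) (pr_scale 223 1000 h1)) (pr_cmul (enc_norm (bd4q2_3.enc h1.l h2)) (pr_norm (pr_addc (pr_scale 14623 10000 h1) (enc_rat _ 209021 200000))))) (pr_add (pr_csub (enc_rat _ 603567 1000000) (pr_scale 6647 30000 h1)) (pr_cmul (enc_norm (bd4q2_3.enc h1.l h2)) (pr_norm (pr_addc (pr_scale 906 625 h1) (enc_rat _ 4249 4000)))))))))⟩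
noncomputable def kp4q2_s : Sl2 kp4q2 := ⟨_, fun h1 h2 => (pr_norm (pr_mul (cv4p_s.snd h1) (bd4q2_s.snd h1 h2)))⟩
noncomputable def kn4q2_s : Sl2 kn4q2 := ⟨_, fun h1 h2 => (pr_norm (pr_add (pr_cmul (enc_norm (enc_add (enc_pnc _ 1) (enc_mul (mug3.enc h2) (gug.enc h2)))) (kf4q2_s.snd h1 h2)) (pr_cmul (mug3.enc h2) (kp4q2_s.snd h1 h2))))⟩
noncomputable def bd4q3_s : Sl2 bd4q3 := ⟨_, fun h1 h2 => (pr_norm (pr_add (pr_subr 78511 250000 (pr_scale 78511 500000 h1)) (pr_cmul (enc_norm (enc_subr 5 32 h2)) (pr_norm (pr_subr 1528 3125 (pr_scale 764 3125 h1))))))⟩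
noncomputable def kpc43_s : Sl2 kpc43 := ⟨_, fun h1 h2 => (pr_norm (pr_mul (pr_norm (pr_add (pr_scale 2 5 (pr_subr 1 2 (swg_s.snd (pr_nd (ycg_s.snd h1))))) (pr_scale 3 5 h1))) (bd4q3_s.snd (pr_nd (ycg_s.snd h1)) h2)))⟩
noncomputable def knc43_s : Sl2 knc43 := ⟨_, fun h1 h2 => (pr_norm (pr_add (pr_cmul (enc_norm (enc_add (enc_pnc _ 1) (enc_mul (mug3.enc h2) (gug.enc h2)))) (kfc43_s.snd h1 h2)) (pr_cmul (mug3.enc h2) (kpc43_s.snd h1 h2))))⟩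
noncomputable def kp5q0_s : Sl2 kp5q0 := ⟨_, fun h1 h2 => (pr_norm (pr_mul h1 (pr_norm (pr_add (pr_subr 489477 1000000 (pr_scale 41281 1000000 h1)) (pr_cmul (enc_norm (enc_subr 5 32 h2)) (pr_norm (pr_subr 114689 100000 (pr_scale 24597 20000 h1))))))))⟩
noncomputable def kn5q0_s : Sl2 kn5q0 := ⟨_, fun h1 h2 => (pr_norm (pr_add (pr_cmul (enc_norm (enc_add (enc_pnc _ 1) (enc_mul (mug3.enc h2) (gug.enc h2)))) (kf5q0_s.snd h1 h2)) (pr_cmul (mug3.enc h2) (kp5q0_s.snd h1 h2))))⟩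
noncomputable def kp5q1_s : Sl2 kp5q1 := ⟨_, fun h1 h2 => (pr_norm (pr_mul (pr_norm (pr_subn 1 h1)) (pr_norm (pr_add (pr_subr 489477 1000000 (pr_scale 41281 1000000 h1)) (pr_cmul (enc_norm (enc_subr 5 32 h2)) (pr_norm (pr_subr 114689 100000 (pr_scale 24597 20000 h1))))))))⟩
noncomputable def kn5q1_s : Sl2 kn5q1 := ⟨_, fun h1 h2 => (pr_norm (pr_add (pr_cmul (enc_norm (enc_add (enc_pnc _ 1) (enc_mul (mug3.enc h2) (gug.enc h2)))) (kf5q1_s.snd h1 h2)) (pr_cmul (mug3.enc h2) (kp5q1_s.snd h1 h2))))⟩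
noncomputable def kp5q2_9_s : Sl2 kp5q2_9 := ⟨_, fun h1 h2 => (pr_sub (pr_half (c3g_s.snd h1)) (pr_scale 1 4 h1))⟩
noncomputable def kp5q2_s : Sl2 kp5q2 := ⟨_, fun h1 h2 => (pr_norm (pr_mul (pr_norm (pr_subn 1 h1)) (pr_norm (pr_add (pr_csub (enc_rat _ 1145047 2000000) (pr_scale 49731 200000 (kp5q2_9_s.snd h1 h2))) (pr_cmul (enc_norm (enc_subr 5 32 h2)) (pr_norm (pr_csub (enc_rat _ 59033 100000) (pr_scale 67329 50000 (kp5q2_9_s.snd h1 h2)))))))))⟩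
noncomputable def kn5q2_s : Sl2 kn5q2 := ⟨_, fun h1 h2 => (pr_norm (pr_add (pr_cmul (enc_norm (enc_add (enc_pnc _ 1) (enc_mul (mug3.enc h2) (gug.enc h2)))) (kf5q2_s.snd h1 h2)) (pr_cmul (mug3.enc h2) (kp5q2_s.snd h1 h2))))⟩
noncomputable def kpc53_9_s : Sl2 kpc53_9 := ⟨_, fun h1 h2 => (pr_sub (pr_half h1) (pr_scale 1 4 (ycg_s.snd h1)))⟩
noncomputable def kpc53_s : Sl2 kpc53 := ⟨_, fun h1 h2 => (pr_norm (pr_mul (pr_norm (pr_subn 2 (ycg_s.snd h1))) (pr_norm (pr_add (pr_csub (enc_rat _ 1145047 2000000) (pr_scale 49731 200000 (kpc53_9_s.snd h1 h2))) (pr_cmul (enc_norm (enc_subr 5 32 h2)) (pr_norm (pr_csub (enc_rat _ 59033 100000) (pr_scale 67329 50000 (kpc53_9_s.snd h1 h2)))))))))⟩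
noncomputable def knc53_s : Sl2 knc53 := ⟨_, fun h1 h2 => (pr_norm (pr_add (pr_cmul (enc_norm (enc_add (enc_pnc _ 1) (enc_mul (mug3.enc h2) (gug.enc h2)))) (kfc53_s.snd h1 h2)) (pr_cmul (mug3.enc h2) (kpc53_s.snd h1 h2))))⟩
noncomputable def gN0q0 : Gn := ⟨ndN0q0, c1g_s, kn0q0_s, l0q0_s, false⟩
noncomputable def gN0q1 : Gn := ⟨ndN0q1, c1g_s, kn0q1_s, l0q1_s, false⟩
noncomputable def gN0q2 : Gn := ⟨ndN0q2, idf_s, knc02_s, lc02_s, true⟩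
noncomputable def gN1q0 : Gn := ⟨ndN1q0, cv1m_s, kn1q0_s, l1q0_s, false⟩
noncomputable def gN1q1 : Gn := ⟨ndN1q1, cv1m_s, kn1q1_s, l1q1_s, false⟩
noncomputable def gN1q2 : Gn := ⟨ndN1q2, cv1p_s, kn1q2_s, l1q2_s, false⟩
noncomputable def gN1q3 : Gn := ⟨ndN1q3, cv1r_s, kn1q3_s, l1q3_s, false⟩
noncomputable def gN2q0 : Gn := ⟨ndN2q0, cv2m_s, kn2q0_s, l2q0_s, false⟩
noncomputable def gN2q1 : Gn := ⟨ndN2q1, cv2m_s, kn2q1_s, l2q1_s, false⟩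
noncomputable def gN2q2 : Gn := ⟨ndN2q2, cv2p_s, kn2q2_s, l2q2_s, false⟩
noncomputable def gN2q3 : Gn := ⟨ndN2q3, cv2r_s, kn2q3_s, l2q3_s, false⟩
noncomputable def gN3q0 : Gn := ⟨ndN3q0, cv3m_s, kn3q0_s, l3q0_s, false⟩
noncomputable def gN3q1 : Gn := ⟨ndN3q1, cv3m_s, kn3q1_s, l3q1_s, false⟩
noncomputable def gN3q2 : Gn := ⟨ndN3q2, cv3p_s, kn3q2_s, l3q2_s, false⟩
noncomputable def gN3q3 : Gn := ⟨ndN3q3, xc33_s, knc33_s, lc33_s, false⟩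
noncomputable def gN4q0 : Gn := ⟨ndN4q0, cv4m_s, kn4q0_s, l4q0_s, false⟩
noncomputable def gN4q1 : Gn := ⟨ndN4q1, cv4m_s, kn4q1_s, l4q1_s, false⟩
noncomputable def gN4q2 : Gn := ⟨ndN4q2, cv4p_s, kn4q2_s, l4q2_s, false⟩
noncomputable def gN4q3 : Gn := ⟨ndN4q3, xc43_s, knc43_s, lc43_s, false⟩
noncomputable def gN5q0 : Gn := ⟨ndN5q0, c3g_s, kn5q0_s, l5q0_s, false⟩
noncomputable def gN5q1 : Gn := ⟨ndN5q1, c3g_s, kn5q1_s, l5q1_s, false⟩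
noncomputable def gN5q2 : Gn := ⟨ndN5q2, c3g_s, kn5q2_s, l5q2_s, false⟩
noncomputable def gN5q3 : Gn := ⟨ndN5q3, idf_s, knc53_s, lc53_s, false⟩
noncomputable def gN0q3 : Gn := gz
noncomputable def gN (j : Fin 6) (q : ℕ) : Gn :=
  match j, q with
  | 0, 0 => gN0q0
  | 0, 1 => gN0q1
  | 0, 2 => gN0q2
  | 0, 3 => gN0q3
  | 1, 0 => gN1q0
  | 1, 1 => gN1q1
  | 1, 2 => gN1q2
  | 1, 3 => gN1q3
  | 2, 0 => gN2q0
  | 2, 1 => gN2q1
  | 2, 2 => gN2q2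
  | 2, 3 => gN2q3
  | 3, 0 => gN3q0
  | 3, 1 => gN3q1
  | 3, 2 => gN3q2
  | 3, 3 => gN3q3
  | 4, 0 => gN4q0
  | 4, 1 => gN4q1
  | 4, 2 => gN4q2
  | 4, 3 => gN4q3
  | 5, 0 => gN5q0
  | 5, 1 => gN5q1
  | 5, 2 => gN5q2
  | 5, 3 => gN5q3
  | _, _ => gN0q0

noncomputable def c0F : Fn1 := ⟨fun _ => pone, fun _ => 1, fun _ => enc_one _⟩
noncomputable def c0N : Fn1 := c0n

end Pool.Agent.Strip051.G.I1_8_3_16.Tab
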