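import Pool.Agent.Strip051.PB.MolN
import Pool.Agent.Strip051.G.I1_8_3_16.Tab

/-! # The tight charts of a table: data (generated) -/

set_option linter.all false

namespace Pool.Agent.Strip051.G.I1_8_3_16.Tab.Mo

open Pool.Agent.Strip051.PB Pool.Agent.Strip051.PB.Mol
open Pool.Agent.Strip051.G.I1_8_3_16.Tab

noncomputable def dq : Fn3 :=
  dqK2 (dqQ (lnF true 280432411220449 198471700000000 true 195486074719581 9923585000000 5 32) (lnF true 1460931 1000000 true 1727639 50000 5 32)) (lnF true 1162908704053 5809862074100000000 true 3725479607931 72623275926250000 5 32) (lnF true 1781141 1000000 false 11 25000 5 32) true 37 100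

noncomputable def mL : Fn2 :=
  exQ (exC (lnF false 335232557 7600000000 false 8173047 38000000 5 32)) (lnF false 332763 1000000 false 8673 5000 5 32) false

noncomputable def mR : Fn2 :=
  exQ (exC (lnF false 43611 8000000 true 226089 1600000 5 32)) (lnF true 159707 500000 true 185303 100000 5 32) true

noncomputable def kp : Fn2 :=
  plA (lnF false 112049 250000 true 1037 12500 5 32) (lnF false 360171 400000 true 7209 40000 5 32) false 1 2

noncomputable def kb : Fn2 :=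
  plA (lnF true 112049 250000 false 1037 12500 5 32) (lnF true 807445671749 595000000000 false 453317499991 297500000000 5 32) false 1 2

noncomputable def rK1 : Fn2 :=
  exC (lnF false 721 7500 true 561 500 5 32)

noncomputable def rX1 : Fn2 :=
  exC (lnF false 1897 15000 false 121 375 5 32)

noncomputable def rD1 : Fn2 :=
  exC (lnF false 209 240 true 141 1000 5 32)

noncomputable def sk1 : MolS :=
  stK 1 1 2 rK1 rX1 rD1

noncomputable def rK2 : Fn2 :=
  exC (lnF true 1791 10000 true 299 250 5 32)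

noncomputable def rX2 : Fn2 :=
  exC (lnF false 33 400 false 227 600 5 32)

noncomputable def rD2 : Fn2 :=
  exC (lnF false 2789 5000 false 97 75 5 32)

noncomputable def sk2 : MolS :=
  stK 1 9 10 rK2 rX2 rD2

noncomputable def sp : MolS :=
  stP kcg mL mR kp

noncomputable def sm : MolS :=
  stM kcg mR kb

noncomputable def sK_Ap : Fn3 :=
  sl0 (slF (w3W false) cv2p (w3K false 1 kcg) kf2q2)

noncomputable def sX_Ap : Fn3 :=
  sl0 (slF (w3W false) cv2p (w3Q false kcg) l2q2)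

noncomputable def sD_Ap : Fn3 :=
  sl0 (slF (w3W false) cv2p (w3D false 1 kcg) kp2q2)

noncomputable def T_Ap : MolT :=
  ⟨kcg, dq, sp, 2, sK_Ap, sX_Ap, sD_Ap, 0, 1, 0, 1⟩

noncomputable def sk_Ap : List Fn3 := [skP true 41943040, skM true 41943040]

noncomputable def cx_Ap : List Fn3 :=
  [f3A sp.xs (tCC (w3W false) cv2p),
    f3A sp.xs (tCC cv3p (w3W false)),
    f3A sp.xs (tCX cv3p)]

noncomputable def c0_Ap : Cht := k0Ap (T_Ap.a true) sk_Ap cx_Ap

noncomputable def c1_Ap : Cht := k1Ap (T_Ap.a true) sk_Ap cx_Ap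

noncomputable def sK_Apk1 : Fn3 :=
  sl0 (slF (w3W false) cv2p (w3K false 1 kcg) kf2q2)

noncomputable def sX_Apk1 : Fn3 :=
  sl0 (slF (w3W false) cv2p (w3Q false kcg) l2q2)

noncomputable def sD_Apk1 : Fn3 :=
  sl0 (slF (w3W false) cv2p (w3D false 1 kcg) kp2q2)

noncomputable def T_Apk1 : MolT :=
  ⟨kcg, dq, sk1, 2, sK_Apk1, sX_Apk1, sD_Apk1, 0, 1, 0, 1⟩

noncomputable def sk_Apk1 : List Fn3 := [skP true 41943040, skM true 41943040]

noncomputable def cx_Apk1 : List Fn3 :=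
  [f3A sk1.xs (tCC (w3W false) cv2p),
    f3A sk1.xs (tCC cv3p (w3W false)),
    f3A sk1.xs (tCX cv3p)]

noncomputable def c0_Apk1 : Cht := k0Ap (T_Apk1.a true) sk_Apk1 cx_Apk1

noncomputable def c1_Apk1 : Cht := k1Ap (T_Apk1.a true) sk_Apk1 cx_Apk1

noncomputable def sK_Apk2 : Fn3 :=
  sl0 (slF (w3W false) cv2p (w3K false 1 kcg) kf2q2)

noncomputable def sX_Apk2 : Fn3 :=
  sl0 (slF (w3W false) cv2p (w3Q false kcg) l2q2)

noncomputable def sD_Apk2 : Fn3 :=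
  sl0 (slF (w3W false) cv2p (w3D false 1 kcg) kp2q2)

noncomputable def T_Apk2 : MolT :=
  ⟨kcg, dq, sk2, 2, sK_Apk2, sX_Apk2, sD_Apk2, 0, 1, 0, 1⟩

noncomputable def sk_Apk2 : List Fn3 := [skP true 41943040, skM true 41943040]

noncomputable def cx_Apk2 : List Fn3 :=
  [f3A sk2.xs (tCC (w3W false) cv2p),
    f3A sk2.xs (tCC cv3p (w3W false)),
    f3A sk2.xs (tCX cv3p)]

noncomputable def c0_Apk2 : Cht := k0Ap (T_Apk2.a true) sk_Apk2 cx_Apk2

noncomputable def c1_Apk2 : Cht := k1Ap (T_Apk2.a true) sk_Apk2 cx_Apk2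

noncomputable def sK_Am : Fn3 :=
  sl1 (slF (w3W false) cv2p (w3K false 1 kcg) kf2q2) (sgF cv1p cv2p kf1q2 kf2q2) (hgL (w3W false) cv2p)

noncomputable def sX_Am : Fn3 :=
  sl1 (slF (w3W false) cv2p (w3Q false kcg) l2q2) (sgF cv1p cv2p l1q2 l2q2) (hgL (w3W false) cv2p)

noncomputable def sD_Am : Fn3 :=
  sl1 (slF (w3W false) cv2p (w3D false 1 kcg) kp2q2) (sgF cv1p cv2p kp1q2 kp2q2) (hgL (w3W false) cv2p)

noncomputable def T_Am : MolT :=
  ⟨kcg, dq, sm, 2, sK_Am, sX_Am, sD_Am, 0, 1, 0, 1⟩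

noncomputable def sk_Am : List Fn3 := [skP true 41943040, skM true 41943040]

noncomputable def cx_Am : List Fn3 :=
  [f3A sm.xs (tCC (w3W false) cv2p),
    f3A sm.xs (tCC cv3p (w3W false)),
    f3A sm.xs (tCC cv2p cv1p),
    f3A sm.xs (tXC cv1p)]

noncomputable def c0_Am : Cht := k0Am (T_Am.a false) sk_Am cx_Am

noncomputable def c1_Am : Cht := k1Am (T_Am.a false) sk_Am cx_Am

noncomputable def sK_Bp : Fn3 :=
  sl0 (slF (w3W true) cv2m (w3K true 1 kcg) kf2q1)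

noncomputable def sX_Bp : Fn3 :=
  sl0 (slF (w3W true) cv2m (w3Q true kcg) l2q1)

noncomputable def sD_Bp : Fn3 :=
  sl0 (slF (w3W true) cv2m (w3D true 1 kcg) kp2q1)

noncomputable def T_Bp : MolT :=
  ⟨kcg, dq, sp, 1, sK_Bp, sX_Bp, sD_Bp, 0, 1, 0, 1⟩

noncomputable def sk_Bp : List Fn3 := [skP false 41943040, skM false 41943040]

noncomputable def cx_Bp : List Fn3 :=
  [f3B sp.xs (tCC (w3W true) cv2m),
    f3B sp.xs (tCC cv3m (w3W true)),
    f3B sp.xs (tXC cv2m)]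

noncomputable def c0_Bp : Cht := k0Bp (T_Bp.b true) sk_Bp cx_Bp

noncomputable def c1_Bp : Cht := k1Bp (T_Bp.b true) sk_Bp cx_Bp

noncomputable def sK_Bpk1 : Fn3 :=
  sl0 (slF (w3W true) cv2m (w3K true 1 kcg) kf2q1)

noncomputable def sX_Bpk1 : Fn3 :=
  sl0 (slF (w3W true) cv2m (w3Q true kcg) l2q1)

noncomputable def sD_Bpk1 : Fn3 :=
  sl0 (slF (w3W true) cv2m (w3D true 1 kcg) kp2q1)

noncomputable def T_Bpk1 : MolT :=
  ⟨kcg, dq, sk1, 1, sK_Bpk1, sX_Bpk1, sD_Bpk1, 0, 1, 0, 1⟩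

noncomputable def sk_Bpk1 : List Fn3 := [skP false 41943040, skM false 41943040]

noncomputable def cx_Bpk1 : List Fn3 :=
  [f3B sk1.xs (tCC (w3W true) cv2m),
    f3B sk1.xs (tCC cv3m (w3W true)),
    f3B sk1.xs (tXC cv2m)]

noncomputable def c0_Bpk1 : Cht := k0Bp (T_Bpk1.b true) sk_Bpk1 cx_Bpk1

noncomputable def c1_Bpk1 : Cht := k1Bp (T_Bpk1.b true) sk_Bpk1 cx_Bpk1

noncomputable def sK_Bpk2 : Fn3 :=
  sl0 (slF (w3W true) cv2m (w3K true 1 kcg) kf2q1)

noncomputable def sX_Bpk2 : Fn3 :=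
  sl0 (slF (w3W true) cv2m (w3Q true kcg) l2q1)

noncomputable def sD_Bpk2 : Fn3 :=
  sl0 (slF (w3W true) cv2m (w3D true 1 kcg) kp2q1)

noncomputable def T_Bpk2 : MolT :=
  ⟨kcg, dq, sk2, 1, sK_Bpk2, sX_Bpk2, sD_Bpk2, 0, 1, 0, 1⟩

noncomputable def sk_Bpk2 : List Fn3 := [skP false 41943040, skM false 41943040]

noncomputable def cx_Bpk2 : List Fn3 :=
  [f3B sk2.xs (tCC (w3W true) cv2m),
    f3B sk2.xs (tCC cv3m (w3W true)),
    f3B sk2.xs (tXC cv2m)]

noncomputable def c0_Bpk2 : Cht := k0Bp (T_Bpk2.b true) sk_Bpk2 cx_Bpk2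

noncomputable def c1_Bpk2 : Cht := k1Bp (T_Bpk2.b true) sk_Bpk2 cx_Bpk2

noncomputable def sK_Bm : Fn3 :=
  sl1 (slF (w3W true) cv2m (w3K true 1 kcg) kf2q1) (sgF cv3m cv4m kf3q1 kf4q1) (hgR (w3W true) cv3m)

noncomputable def sX_Bm : Fn3 :=
  sl1 (slF (w3W true) cv2m (w3Q true kcg) l2q1) (sgF cv3m cv4m l3q1 l4q1) (hgR (w3W true) cv3m)

noncomputable def sD_Bm : Fn3 :=
  sl1 (slF (w3W true) cv2m (w3D true 1 kcg) kp2q1) (sgF cv3m cv4m kp3q1 kp4q1) (hgR (w3W true) cv3m)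

noncomputable def T_Bm : MolT :=
  ⟨kcg, dq, sm, 1, sK_Bm, sX_Bm, sD_Bm, 0, 1, 0, 1⟩

noncomputable def sk_Bm : List Fn3 := [skP false 41943040, skM false 41943040]

noncomputable def cx_Bm : List Fn3 :=
  [f3B sm.xs (tCC (w3W true) cv2m),
    f3B sm.xs (tCC cv3m (w3W true)),
    f3B sm.xs (tCX cv4m)]

noncomputable def c0_Bm : Cht := k0Bm (T_Bm.b false) sk_Bm cx_Bm

noncomputable def c1_Bm : Cht := k1Bm (T_Bm.b false) sk_Bm cx_Bm

end Pool.Agent.Strip051.G.I1_8_3_16.Tab.Mo
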